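import Pool.Agent.W_7d29a1_C0.Lst33

/-!
MP_7d29a1_pr, [CURV0] (helper33): **THE LOWER BOUND AT EVERY TILT FOR THE LAWS `exp (-V)`, `V'` LIPSCHITZ** (the hypothesis `hC` of
`main_H29`).
-/

set_option autoImplicit false

namespace Pool.Agent.W_7d29a1_C0.Lst33

open MeasureTheory
open Pool.Agent.W_7d29a1_LB
open Pool.Agent.W_7d29a1_h47 (EM Nondeg)
open Pool.W7d29a1.C0.T85 (GLaw)

/-- **[CURV0]**: `σ_n ≥ n ^ (1 / 3 - ε)` infinitely often, at every tilt. -/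
theorem cvl_glaw (μ : Measure ℝ) [IsProbabilityMeasure μ] (hE : EM μ) (hN : Nondeg μ) (hG : GLaw μ) (s : ℝ) : CVL29 μ s :=
  lst33 hE hN hG (K := 32) le_rfl

end Pool.Agent.W_7d29a1_C0.Lst33
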