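import Pool.Agent.W_7d29a1_C0.SlabF59

/-!
CURV0 (MP_7d29a1_pr), E8 = the class of laws. `ILaw μ τ ψ`: there is a measurable weight `0 ≤ τ ≤ 1` with `∫ τ dμ > 0` and a
score `ψ` with `∫ g' τ dμ = ∫ g ψ dμ` for differentiable `g`. The laws of Ibp32 (`DenLaw`) are in the class with `τ = 1`; every
probability measure `μ ≥ c • (Lebesgue measure on [a, b])` is in the class with a BOUNDED score `ψ` (`ilaw_ac`): uniform,
exponential, gamma laws, the mixtures of such laws with atoms or singular parts; no moment and no smooth density is needed.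

The slab identities keep their form: the path functional of the field `c` becomes `Σ_p c_p τ(η_p) N_p` (`Cf S (tc τ c) N`) and the
score sum is `Σ_p c_p ψ(η_p)`. (helper85)
-/

set_option autoImplicit false
set_option linter.unusedSectionVars false
set_option linter.unusedVariables false

namespace Pool.W7d29a1.C0.T85

open MeasureTheory ProbabilityTheory Filter Topology
open Pool.Agent.W_7d29a1_F Pool.Agent.W_7d29a1_C0.H32 Pool.W7d29a1.C0.H19 Pool.W7d29a1.C0.F59

noncomputable section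

/-- **The class of laws**: a weight `τ` and a score `ψ` with the integration by parts `∫ g' τ dμ = ∫ g ψ dμ`. -/
structure ILaw (μ : Measure ℝ) (τ ψ : ℝ → ℝ) : Prop where
  mτ : Measurable τ
  nn : ∀ x, 0 ≤ τ x
  le : ∀ x, τ x ≤ 1
  pos : 0 < ∫ x, τ x ∂μ
  sg : ∃ K θ0 : ℝ, SG μ ψ K θ0
  ibp : ∀ g g' : ℝ → ℝ, (∀ x, HasDerivAt g (g' x) x) → Integrable g μ → Integrable g' μ →
    Integrable (fun x => g x * ψ x) μ → ∫ x, g' x * τ x ∂μ = ∫ x, g x * ψ x ∂μ

/-- The laws with a differentiable density and exponential moments of the score. -/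
theorem ilaw_den {μ : Measure ℝ} [IsProbabilityMeasure μ] {f f' : ℝ → ℝ} (h : DenLaw μ f f') :
    ILaw μ (fun _ => 1) (sc f f') where
  mτ := measurable_const
  nn := fun _ => zero_le_one
  le := fun _ => le_rfl
  pos := by simp
  sg := h.sg
  ibp := fun g g' hg i0 i1 i2 => by
    have h1 := h.ibp hg i0 i1 i2
    simpa using h1

/-! ### Integration by parts at one site and over a slab -/

section Ibp

variable {μ : Measure ℝ} {τ ψ : ℝ → ℝ} [IsProbabilityMeasure μ]

theorem ILaw.mψ (h : ILaw μ τ ψ) : Measurable ψ := by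
  obtain ⟨K, θ0, hs⟩ := h.sg
  exact hs.1

/-- **Integration by parts at the site `p`** with a coefficient which does not see the site `p`. -/
theorem ILaw.ibp_site (h : ILaw μ τ ψ) (p : Pt) {c Φ Φ' : Env → ℝ}
    (hc : ∀ η x, c (Function.update η p x) = c η)
    (hΦ : ∀ (η : Env) (x : ℝ), HasDerivAt (fun t => Φ (Function.update η p t)) (Φ' (Function.update η p x)) x)
    (i0 : Integrable (fun η => c η * Φ η) (law μ)) (i1 : Integrable (fun η => c η * Φ' η) (law μ))
    (i2 : Integrable (fun η => c η * Φ η * ψ (η p)) (law μ)) :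
    ∫ η, c η * τ (η p) * Φ' η ∂(law μ) = ∫ η, c η * Φ η * ψ (η p) ∂(law μ) := by
  have hu := Pool.Agent.W_7d29a1_Z17.mp_upd (μ := μ) p
  have e1 : ∀ {F : Env → ℝ}, Integrable F (law μ) → ∫ η, F η ∂(law μ) =
      ∫ η, ∫ x, F (Function.update η p x) ∂μ ∂(law μ) := fun {F} hF => by
    have h1 : Integrable (fun q : Env × ℝ => F (Function.update q.1 p q.2)) ((law μ).prod μ) :=
      hu.integrable_comp_of_integrable hF
    rw [← integral_prod _ h1]
    conv_lhs => rw [← hu.map_eq]
    exact integral_map hu.measurable.aemeasurable (by rw [hu.map_eq]; exact hF.aestronglyMeasurable)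
  have e2 : ∀ {F : Env → ℝ}, Integrable F (law μ) →
      ∀ᵐ η ∂(law μ), Integrable (fun x => F (Function.update η p x)) μ := fun {F} hF => by
    have h1 : Integrable (fun q : Env × ℝ => F (Function.update q.1 p q.2)) ((law μ).prod μ) :=
      hu.integrable_comp_of_integrable hF
    exact h1.prod_right_ae
  have i3 : Integrable (fun η => c η * τ (η p) * Φ' η) (law μ) := by
    have m : Measurable fun η : Env => τ (η p) := h.mτ.comp (measurable_pi_apply p)
    refine (i1.bdd_mul (c := 1) m.aestronglyMeasurable (ae_of_all _ fun η => ?_)).congr (ae_of_all _ fun η => ?_)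
    · rw [Real.norm_eq_abs, abs_of_nonneg (h.nn _)]
      exact h.le _
    · show τ (η p) * (c η * Φ' η) = _
      ring
  rw [e1 i3, e1 i2]
  refine integral_congr_ae ?_
  filter_upwards [e2 i0, e2 i1, e2 i2] with η j0 j1 j2
  by_cases h0 : c η = 0
  · refine integral_congr_ae (ae_of_all _ fun x => ?_)
    show c (Function.update η p x) * _ * _ = c (Function.update η p x) * _ * _
    rw [hc, h0]
    ring
  · have k0 : Integrable (fun x => Φ (Function.update η p x)) μ := by
      have := j0.const_mul (c η)⁻¹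
      refine this.congr (ae_of_all _ fun x => ?_)
      show (c η)⁻¹ * (c (Function.update η p x) * Φ (Function.update η p x)) = _
      rw [hc, ← mul_assoc, inv_mul_cancel₀ h0, one_mul]
    have k1 : Integrable (fun x => Φ' (Function.update η p x)) μ := by
      have := j1.const_mul (c η)⁻¹
      refine this.congr (ae_of_all _ fun x => ?_)
      show (c η)⁻¹ * (c (Function.update η p x) * Φ' (Function.update η p x)) = _
      rw [hc, ← mul_assoc, inv_mul_cancel₀ h0, one_mul]
    have k2 : Integrable (fun x => Φ (Function.update η p x) * ψ x) μ := by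
      have := j2.const_mul (c η)⁻¹
      refine this.congr (ae_of_all _ fun x => ?_)
      show (c η)⁻¹ * (c (Function.update η p x) * Φ (Function.update η p x) *
        ψ (Function.update η p x p)) = _
      rw [hc, Function.update_self, mul_assoc, ← mul_assoc, inv_mul_cancel₀ h0, one_mul]
    have key := h.ibp _ _ (hΦ η) k0 k1 k2
    calc ∫ x, c (Function.update η p x) * τ (Function.update η p x p) * Φ' (Function.update η p x) ∂μ
        = c η * ∫ x, Φ' (Function.update η p x) * τ x ∂μ := by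
          rw [← integral_const_mul]
          refine integral_congr_ae (ae_of_all _ fun x => ?_)
          show c (Function.update η p x) * _ * _ = _
          rw [hc, Function.update_self]
          ring
      _ = c η * ∫ x, Φ (Function.update η p x) * ψ x ∂μ := by rw [key]
      _ = _ := by
          rw [← integral_const_mul]
          refine integral_congr_ae (ae_of_all _ fun x => ?_)
          show _ = c (Function.update η p x) * Φ (Function.update η p x) * ψ (Function.update η p x p)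
          rw [hc, Function.update_self]
          ring

/-- **Integration by parts over a slab** `S`: the coefficients `c p` do not see their own site. -/
theorem ILaw.ibp_slab (h : ILaw μ τ ψ) (S : Finset Pt) {c : Pt → Env → ℝ} {Φ : Env → ℝ} {Φ' : Pt → Env → ℝ}
    (hc : ∀ p ∈ S, ∀ η x, c p (Function.update η p x) = c p η)
    (hΦ : ∀ p ∈ S, ∀ (η : Env) (x : ℝ), HasDerivAt (fun t => Φ (Function.update η p t)) (Φ' p (Function.update η p x)) x)
    (i0 : ∀ p ∈ S, Integrable (fun η => c p η * Φ η) (law μ)) (i1 : ∀ p ∈ S, Integrable (fun η => c p η * Φ' p η) (law μ))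
    (i2 : ∀ p ∈ S, Integrable (fun η => c p η * Φ η * ψ (η p)) (law μ)) :
    ∫ η, ∑ p ∈ S, c p η * τ (η p) * Φ' p η ∂(law μ) = ∫ η, Φ η * SS ψ S c η ∂(law μ) := by
  have i3 : ∀ p ∈ S, Integrable (fun η => c p η * τ (η p) * Φ' p η) (law μ) := fun p hp => by
    have m : Measurable fun η : Env => τ (η p) := h.mτ.comp (measurable_pi_apply p)
    refine ((i1 p hp).bdd_mul (c := 1) m.aestronglyMeasurable (ae_of_all _ fun η => ?_)).congr (ae_of_all _ fun η => ?_)
    · rw [Real.norm_eq_abs, abs_of_nonneg (h.nn _)]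
      exact h.le _
    · show τ (η p) * (c p η * Φ' p η) = _
      ring
  rw [integral_finsetSum _ i3]
  have e1 : (fun η => Φ η * SS ψ S c η) = fun η => ∑ p ∈ S, c p η * Φ η * ψ (η p) := by
    funext η
    unfold SS
    rw [Finset.mul_sum]
    exact Finset.sum_congr rfl fun p _ => by ring
  rw [e1, integral_finsetSum _ i2]
  exact Finset.sum_congr rfl fun p hp => h.ibp_site p (hc p hp) (hΦ p hp) (i0 p hp) (i1 p hp) (i2 p hp)

end Ibp

/-! ### The laws with an absolutely continuous part bounded below on an interval -/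

section Ac

/-- The bump `(x - a)² (b - x)²` on `[a, b]`, extended by zero, and its derivative. -/
def bmp (a b x : ℝ) : ℝ := if x ∈ Set.Icc a b then ((x - a) * (b - x)) ^ 2 else 0

def bmp' (a b x : ℝ) : ℝ := if x ∈ Set.Icc a b then 2 * ((x - a) * (b - x)) * (a + b - 2 * x) else 0

theorem bmp_nn (a b x : ℝ) : 0 ≤ bmp a b x := by
  unfold bmp
  split_ifs
  · positivity
  · exact le_rfl

theorem measurable_bmp (a b : ℝ) : Measurable (bmp a b) := by
  unfold bmp
  exact Measurable.ite measurableSet_Icc (by fun_prop) measurable_const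

theorem measurable_bmp' (a b : ℝ) : Measurable (bmp' a b) := by
  unfold bmp'
  exact Measurable.ite measurableSet_Icc (by fun_prop) measurable_const

theorem bmp_le {a b : ℝ} (hab : a < b) (x : ℝ) : bmp a b x ≤ (b - a) ^ 4 := by
  unfold bmp
  split_ifs with h
  · obtain ⟨h1, h2⟩ := h
    have h3 : 0 ≤ (x - a) * (b - x) := mul_nonneg (by linarith) (by linarith)
    have h4 : (x - a) * (b - x) ≤ (b - a) * (b - a) :=
      mul_le_mul (by linarith) (by linarith) (by linarith) (by linarith)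
    calc ((x - a) * (b - x)) ^ 2 ≤ ((b - a) * (b - a)) ^ 2 := pow_le_pow_left₀ h3 h4 2
      _ = (b - a) ^ 4 := by ring
  · have : 0 < b - a := by linarith
    positivity

theorem abs_bmp'_le {a b : ℝ} (hab : a < b) (x : ℝ) : |bmp' a b x| ≤ 2 * (b - a) ^ 3 := by
  unfold bmp'
  split_ifs with h
  · obtain ⟨h1, h2⟩ := h
    have h3 : 0 ≤ (x - a) * (b - x) := mul_nonneg (by linarith) (by linarith)
    have h4 : (x - a) * (b - x) ≤ (b - a) * (b - a) :=
      mul_le_mul (by linarith) (by linarith) (by linarith) (by linarith)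
    have h5 : |a + b - 2 * x| ≤ b - a := by
      rw [abs_le]
      constructor <;> linarith
    rw [abs_mul, abs_mul, abs_two, abs_of_nonneg h3]
    calc 2 * ((x - a) * (b - x)) * |a + b - 2 * x| ≤ 2 * ((b - a) * (b - a)) * (b - a) :=
          mul_le_mul (by linarith) h5 (abs_nonneg _) (by nlinarith)
      _ = 2 * (b - a) ^ 3 := by ring
  · have : 0 < b - a := by linarith
    rw [abs_zero]
    positivity

theorem hasDerivAt_bmp_in {a b x : ℝ} :
    HasDerivAt (fun x => ((x - a) * (b - x)) ^ 2) (2 * ((x - a) * (b - x)) * (a + b - 2 * x)) x := by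
  have h1 := (((hasDerivAt_id x).sub_const a).mul ((hasDerivAt_id x).const_sub b)).pow 2
  have e : ((2 : ℕ) : ℝ) * ((id x - a) * (b - id x)) ^ (2 - 1) * (1 * (b - id x) + (id x - a) * -1) =
      2 * ((x - a) * (b - x)) * (a + b - 2 * x) := by
    simp only [id, Nat.add_one_sub_one, pow_one, Nat.cast_ofNat]
    ring
  rw [← e]
  exact h1

/-- The bump against a derivative: `∫ g' θ = - ∫ g θ'` over `[a, b]`. -/
theorem int_bmp {a b : ℝ} (hab : a < b) {g g' : ℝ → ℝ} (hg : ∀ x, HasDerivAt g (g' x) x)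
    (hi : IntegrableOn g' (Set.Icc a b)) :
    ∫ x in Set.Icc a b, g' x * bmp a b x = -∫ x in Set.Icc a b, g x * bmp' a b x := by
  have c1 : Continuous g := continuous_iff_continuousAt.2 fun x => (hg x).continuousAt
  have i1 : IntervalIntegrable g' volume a b := (intervalIntegrable_iff_integrableOn_Icc_of_le hab.le).2 hi
  have i2 : IntervalIntegrable (fun x : ℝ => 2 * ((x - a) * (b - x)) * (a + b - 2 * x)) volume a b :=
    (by fun_prop : Continuous fun x : ℝ => 2 * ((x - a) * (b - x)) * (a + b - 2 * x)).intervalIntegrable a b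
  have key := intervalIntegral.integral_mul_deriv_eq_deriv_mul (u := fun x : ℝ => ((x - a) * (b - x)) ^ 2) (v := g)
    (u' := fun x : ℝ => 2 * ((x - a) * (b - x)) * (a + b - 2 * x)) (v' := g') (a := a) (b := b)
    (fun x _ => hasDerivAt_bmp_in) (fun x _ => hg x) i2 i1
  rw [intervalIntegral.integral_of_le hab.le, intervalIntegral.integral_of_le hab.le,
    ← integral_Icc_eq_integral_Ioc, ← integral_Icc_eq_integral_Ioc] at key
  have e1 : ∫ x in Set.Icc a b, g' x * bmp a b x = ∫ x in Set.Icc a b, ((x - a) * (b - x)) ^ 2 * g' x := by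
    refine setIntegral_congr_fun measurableSet_Icc fun x hx => ?_
    show g' x * bmp a b x = _
    unfold bmp
    rw [if_pos hx, mul_comm]
  have e2 : ∫ x in Set.Icc a b, g x * bmp' a b x =
      ∫ x in Set.Icc a b, 2 * ((x - a) * (b - x)) * (a + b - 2 * x) * g x := by
    refine setIntegral_congr_fun measurableSet_Icc fun x hx => ?_
    show g x * bmp' a b x = _
    unfold bmp'
    rw [if_pos hx, mul_comm]
  rw [e1, e2, key]
  simp

/-- A bounded centred score is subgaussian. -/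
theorem sg_bdd {μ : Measure ℝ} [IsProbabilityMeasure μ] {ψ : ℝ → ℝ} {B : ℝ} (mψ : Measurable ψ) (hB : ∀ x, |ψ x| ≤ B)
    (h0 : ∫ x, ψ x ∂μ = 0) : ∃ K θ0 : ℝ, SG μ ψ K θ0 := by
  have hB0 : 0 ≤ B := (abs_nonneg _).trans (hB 0)
  have iψ : Integrable ψ μ := (integrable_const B).mono' mψ.aestronglyMeasurable (ae_of_all _ fun x => by
    rw [Real.norm_eq_abs]
    exact hB x)
  refine ⟨B ^ 2 * Real.exp B + 1, 1, mψ, by positivity, one_pos, fun θ hθ => ?_⟩
  have hb : ∀ x, |θ * ψ x| ≤ B := fun x => by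
    rw [abs_mul]
    calc |θ| * |ψ x| ≤ 1 * B := mul_le_mul hθ (hB x) (abs_nonneg _) zero_le_one
      _ = B := one_mul B
  have i1 : Integrable (fun x => Real.exp (θ * ψ x)) μ := by
    refine (integrable_const (Real.exp B)).mono' ((mψ.const_mul θ).exp).aestronglyMeasurable (ae_of_all _ fun x => ?_)
    rw [Real.norm_eq_abs, abs_of_pos (Real.exp_pos _)]
    exact Real.exp_le_exp.2 ((le_abs_self _).trans (hb x))
  refine ⟨i1, ?_⟩
  have i2 : Integrable (fun x => (1 + θ ^ 2 * (B ^ 2 * Real.exp B)) + θ * ψ x) μ :=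
    (integrable_const _).add (iψ.const_mul θ)
  have key : ∀ x, Real.exp (θ * ψ x) ≤ (1 + θ ^ 2 * (B ^ 2 * Real.exp B)) + θ * ψ x := fun x => by
    have h1 := exp_le_quad (θ * ψ x)
    have h2 : (θ * ψ x) ^ 2 * Real.exp |θ * ψ x| ≤ θ ^ 2 * (B ^ 2 * Real.exp B) := by
      rw [mul_pow, mul_assoc]
      refine mul_le_mul_of_nonneg_left ?_ (sq_nonneg θ)
      refine mul_le_mul ?_ (Real.exp_le_exp.2 (hb x)) (Real.exp_pos _).le (sq_nonneg B)
      rw [← sq_abs (ψ x)]
      exact pow_le_pow_left₀ (abs_nonneg _) (hB x) 2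
    linarith
  calc ∫ x, Real.exp (θ * ψ x) ∂μ ≤ ∫ x, ((1 + θ ^ 2 * (B ^ 2 * Real.exp B)) + θ * ψ x) ∂μ := integral_mono i1 i2 key
    _ = 1 + θ ^ 2 * (B ^ 2 * Real.exp B) := by
        rw [integral_add (integrable_const _) (iψ.const_mul θ), integral_const_mul, h0]
        simp
    _ ≤ Real.exp ((B ^ 2 * Real.exp B + 1) * θ ^ 2) := by
        have := Real.add_one_le_exp ((B ^ 2 * Real.exp B + 1) * θ ^ 2)
        nlinarith [sq_nonneg θ]

/-- **Every law which dominates a multiple of the Lebesgue measure on an interval is in the class, with a bounded score.** -/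
theorem ilaw_ac {μ : Measure ℝ} [IsProbabilityMeasure μ] {a b c : ℝ} (hab : a < b) (hc : 0 < c)
    (h : ENNReal.ofReal c • volume.restrict (Set.Icc a b) ≤ μ) :
    ∃ τ ψ : ℝ → ℝ, ILaw μ τ ψ ∧ ∃ K : ℝ, ∀ x, |ψ x| ≤ K := by
  set ν : Measure ℝ := ENNReal.ofReal c • volume.restrict (Set.Icc a b) with hν
  haveI : IsFiniteMeasure ν := ⟨(h Set.univ).trans_lt (measure_lt_top μ _)⟩
  have hac : ν ≪ μ := Measure.absolutelyContinuous_of_le h
  have hd : 0 < b - a := by linarith
  obtain ⟨r, hr⟩ : ∃ r : ℝ → ℝ, r = fun x => min 1 ((ν.rnDeriv μ x).toReal) := ⟨_, rfl⟩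
  have mr : Measurable r := by
    rw [hr]
    exact measurable_const.min (ν.measurable_rnDeriv μ).ennreal_toReal
  have r0 : ∀ x, 0 ≤ r x := fun x => by
    rw [hr]
    exact le_min zero_le_one ENNReal.toReal_nonneg
  have r1 : ∀ x, r x ≤ 1 := fun x => by
    rw [hr]
    exact min_le_left _ _
  have er : ∀ᵐ x ∂μ, ENNReal.ofReal (r x) = ν.rnDeriv μ x := by
    filter_upwards [Measure.rnDeriv_le_one_of_le h] with x hx
    have hx' : ν.rnDeriv μ x ≤ 1 := hx
    have hf : ν.rnDeriv μ x ≠ ⊤ := (hx'.trans_lt ENNReal.one_lt_top).ne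
    have h1 : (ν.rnDeriv μ x).toReal ≤ 1 := by
      have := ENNReal.toReal_mono ENNReal.one_ne_top hx'
      simpa using this
    have h2 : r x = (ν.rnDeriv μ x).toReal := by
      rw [hr]
      exact min_eq_right h1
    rw [h2, ENNReal.ofReal_toReal hf]
  have eν : μ.withDensity (fun x => ENNReal.ofReal (r x)) = ν := by
    rw [withDensity_congr_ae er]
    exact Measure.withDensity_rnDeriv_eq ν μ hac
  have eI : ∀ F : ℝ → ℝ, ∫ x, F x * r x ∂μ = c * ∫ x in Set.Icc a b, F x := fun F => by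
    have h1 : ∫ x, F x ∂ν = c * ∫ x in Set.Icc a b, F x := by
      rw [hν, integral_smul_measure, ENNReal.toReal_ofReal hc.le, smul_eq_mul]
    rw [← h1, ← eν, integral_withDensity_eq_integral_toReal_smul mr.ennreal_ofReal
      (ae_of_all _ fun x => ENNReal.ofReal_lt_top)]
    refine integral_congr_ae (ae_of_all _ fun x => ?_)
    show F x * r x = (ENNReal.ofReal (r x)).toReal • F x
    rw [ENNReal.toReal_ofReal (r0 x), smul_eq_mul, mul_comm]
  set D : ℝ := (b - a) ^ 4 with hD
  have D0 : 0 < D := by positivity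
  have iB : ∀ g g' : ℝ → ℝ, (∀ x, HasDerivAt g (g' x) x) → Integrable g' μ →
      ∫ x, g' x * (bmp a b x / D * r x) ∂μ = ∫ x, g x * -(bmp' a b x / D * r x) ∂μ := fun g g' hg i1 => by
    have e1 : ∀ x, g' x * (bmp a b x / D * r x) = (g' x * bmp a b x / D) * r x := fun x => by ring
    have e2 : ∀ x, g x * -(bmp' a b x / D * r x) = (-(g x * bmp' a b x) / D) * r x := fun x => by ring
    simp_rw [e1, e2]
    rw [eI, eI, integral_div, integral_div, integral_neg]
    have h1 : IntegrableOn g' (Set.Icc a b) := by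
      have h2 : Integrable g' ν := i1.mono_measure h
      rw [hν] at h2
      exact (integrable_smul_measure (by simpa using hc) ENNReal.ofReal_ne_top).1 h2
    rw [int_bmp hab hg h1]
  have bψ : ∀ x, |-(bmp' a b x / D * r x)| ≤ 2 * (b - a) ^ 3 / D := fun x => by
    rw [abs_neg, abs_mul, abs_div, abs_of_pos D0, abs_of_nonneg (r0 x)]
    calc |bmp' a b x| / D * r x ≤ |bmp' a b x| / D * 1 := mul_le_mul_of_nonneg_left (r1 x) (by positivity)
      _ ≤ 2 * (b - a) ^ 3 / D := by
          rw [mul_one]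
          exact div_le_div_of_nonneg_right (abs_bmp'_le hab x) D0.le
  have mψ : Measurable fun x => -(bmp' a b x / D * r x) := (((measurable_bmp' a b).div_const D).mul mr).neg
  refine ⟨fun x => bmp a b x / D * r x, fun x => -(bmp' a b x / D * r x), ⟨?_, ?_, ?_, ?_, ?_, ?_⟩,
    2 * (b - a) ^ 3 / D, bψ⟩
  · exact ((measurable_bmp a b).div_const D).mul mr
  · exact fun x => mul_nonneg (div_nonneg (bmp_nn a b x) D0.le) (r0 x)
  · intro x
    refine mul_le_one₀ ?_ (r0 x) (r1 x)
    rw [div_le_one D0]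
    exact bmp_le hab x
  · rw [eI, integral_div]
    have h1 : 0 < ∫ x in a..b, ((x - a) * (b - x)) ^ 2 := by
      refine intervalIntegral.intervalIntegral_pos_of_pos_on ?_ (fun x hx => ?_) hab
      · exact (by fun_prop : Continuous fun x : ℝ => ((x - a) * (b - x)) ^ 2).intervalIntegrable a b
      · have h2 : 0 < (x - a) * (b - x) := mul_pos (by linarith [hx.1]) (by linarith [hx.2])
        positivity
    rw [intervalIntegral.integral_of_le hab.le, ← integral_Icc_eq_integral_Ioc] at h1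
    have h2 : ∫ x in Set.Icc a b, bmp a b x = ∫ x in Set.Icc a b, ((x - a) * (b - x)) ^ 2 := by
      refine setIntegral_congr_fun measurableSet_Icc fun x hx => ?_
      show bmp a b x = _
      unfold bmp
      rw [if_pos hx]
    rw [h2]
    positivity
  · refine sg_bdd mψ bψ ?_
    have h1 := iB (fun _ => 1) (fun _ => 0) (fun x => hasDerivAt_const x 1) (integrable_const 0)
    simp only [zero_mul, integral_zero, one_mul] at h1
    exact h1.symm
  · exact fun g g' hg _ i1 _ => iB g g' hg i1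

end Ac

/-! ### The slab identities -/

section Slab

variable {μ : Measure ℝ} {τ ψ : ℝ → ℝ}

/-- The field `c` with the weight of its own site. -/
def tc (τ : ℝ → ℝ) (c : Pt → Env → ℝ) : Pt → Env → ℝ := fun p η => c p η * τ (η p)

theorem tc_blind {c : Pt → Env → ℝ} {p q : Pt} (h : ∀ (η : Env) (x : ℝ), c p (Function.update η q x) = c p η) (hpq : p ≠ q)
    (η : Env) (x : ℝ) : tc τ c p (Function.update η q x) = tc τ c p η := by
  unfold tc
  rw [h, Function.update_of_ne hpq]

theorem ILaw.int_tau (h : ILaw μ τ ψ) (p : Pt) {F : Env → ℝ} (i : Integrable F (law μ)) :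
    Integrable (fun η => τ (η p) * F η) (law μ) := by
  have m : Measurable fun η : Env => τ (η p) := h.mτ.comp (measurable_pi_apply p)
  refine i.bdd_mul (c := 1) m.aestronglyMeasurable (ae_of_all _ fun η => ?_)
  rw [Real.norm_eq_abs, abs_of_nonneg (h.nn _)]
  exact h.le _

theorem ILaw.abs_tc (h : ILaw μ τ ψ) {c : Pt → Env → ℝ} (p : Pt) (η : Env) : |tc τ c p η| ≤ |c p η| := by
  unfold tc
  rw [abs_mul, abs_of_nonneg (h.nn _)]
  exact mul_le_of_le_one_right (abs_nonneg _) (h.le _)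

theorem ILaw.meas_tc (h : ILaw μ τ ψ) {c : Pt → Env → ℝ} {p : Pt} (hc : Measurable (c p)) : Measurable (tc τ c p) :=
  hc.mul (h.mτ.comp (measurable_pi_apply p))

theorem ILaw.memLp_tc [IsProbabilityMeasure μ] (h : ILaw μ τ ψ) {S : Finset Pt} {c : Pt → Env → ℝ} {M : ℝ} (b : BF S c M) {p : Pt} (hp : p ∈ S)
    {F : Env → ℝ} (hF : MemLp F 2 (law μ)) : MemLp (fun η => tc τ c p η * F η) 2 (law μ) :=
  memLp_bd (h.meas_tc (b.meas p hp)) (fun η => (h.abs_tc p η).trans (b.bd p hp η)) hF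

theorem bf_dc [IsProbabilityMeasure μ] (h : ILaw μ τ ψ) {S1 S2 : Finset Pt} {c1 : Pt → Env → ℝ} {c2' : Pt → Pt → Env → ℝ} {M1 M3 : ℝ}
    (b1 : BF S1 c1 M1) (b3 : ∀ p ∈ S1, BF S2 (c2' p) M3)
    (h12 : ∀ p ∈ S1, ∀ q ∈ S2, ∀ (η : Env) (x : ℝ), c1 p (Function.update η q x) = c1 p η) (hd : Disjoint S1 S2) :
    BF S2 (H19.Dc S1 (tc τ c1) c2') (S1.card * (M1 * M3)) := by
  refine ⟨fun q hq => Finset.measurable_sum _ fun p hp => (h.meas_tc (b1.meas p hp)).mul ((b3 p hp).meas q hq), ?_, ?_⟩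
  · intro q hq q' hq' hle η x
    unfold H19.Dc
    refine Finset.sum_congr rfl fun p hp => ?_
    rw [tc_blind (h12 p hp q' hq') (fun hpq => Finset.disjoint_left.1 hd hp (hpq ▸ hq')),
      (b3 p hp).pred q hq q' hq' hle]
  · intro q hq η
    unfold H19.Dc
    refine (Finset.abs_sum_le_sum_abs _ _).trans ?_
    refine (Finset.sum_le_card_nsmul _ _ (M1 * M3) fun p hp => ?_).trans_eq (by rw [nsmul_eq_mul])
    rw [abs_mul]
    exact mul_le_mul ((h.abs_tc p η).trans (b1.bd p hp η)) ((b3 p hp).bd q hq η) (abs_nonneg _)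
      ((abs_nonneg _).trans (b1.bd p hp η))

/-- **The second slab derivative**, abstract form: `Ψ` a functional with the derivatives `Ψ' p` along the sites of `S1`. -/
theorem slab_two [IsProbabilityMeasure μ] (h : ILaw μ τ ψ) {S1 S2 : Finset Pt} (hd : Disjoint S1 S2)
    {c1 c2 : Pt → Env → ℝ} {c2' : Pt → Pt → Env → ℝ} {M1 M2 M3 : ℝ} (b1 : BF S1 c1 M1) (b2 : BF S2 c2 M2)
    (b3 : ∀ p ∈ S1, BF S2 (c2' p) M3)
    (h12 : ∀ p ∈ S1, ∀ q ∈ S2, ∀ (η : Env) (x : ℝ), c1 p (Function.update η q x) = c1 p η)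
    (hc2 : ∀ p ∈ S1, ∀ q ∈ S2, ∀ (η : Env) (x : ℝ), HasDerivAt (fun t => c2 q (Function.update η p t))
      (c2' p q (Function.update η p x)) x) {Ψ : Env → ℝ} {Ψ' : Pt → Env → ℝ}
    (hΨ : ∀ p ∈ S1, ∀ (η : Env) (x : ℝ), HasDerivAt (fun t => Ψ (Function.update η p t)) (Ψ' p (Function.update η p x)) x)
    (m0 : MemLp Ψ 2 (law μ)) (m1 : ∀ p ∈ S1, MemLp (Ψ' p) 2 (law μ)) :
    ∫ η, (∑ p ∈ S1, c1 p η * τ (η p) * Ψ' p η) * SS ψ S2 c2 η ∂(law μ) =
      ∫ η, Ψ η * (SS ψ S1 c1 η * SS ψ S2 c2 η) ∂(law μ) -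
        ∫ η, Ψ η * SS ψ S2 (H19.Dc S1 (tc τ c1) c2') η ∂(law μ) := by
  obtain ⟨K, θ0, hs⟩ := h.sg
  have bD : BF S2 (H19.Dc S1 (tc τ c1) c2') (S1.card * (M1 * M3)) := bf_dc h b1 b3 h12 hd
  have k0 : ∀ p ∈ S1, Integrable (fun η => c1 p η * (Ψ η * SS ψ S2 c2 η)) (law μ) := fun p hp => by
    have := (m0.integrable_mul (memLp_bd (b1.meas p hp) (b1.bd p hp) (memLp_SS hs b2)))
    refine this.congr (ae_of_all _ fun η => ?_)
    show Ψ η * (c1 p η * SS ψ S2 c2 η) = _
    ring
  have k1a : ∀ p ∈ S1, Integrable (fun η => c1 p η * Ψ' p η * SS ψ S2 c2 η) (law μ) := fun p hp => by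
    have := ((m1 p hp).integrable_mul (memLp_bd (b1.meas p hp) (b1.bd p hp) (memLp_SS hs b2)))
    refine this.congr (ae_of_all _ fun η => ?_)
    show Ψ' p η * (c1 p η * SS ψ S2 c2 η) = _
    ring
  have k1b : ∀ p ∈ S1, Integrable (fun η => Ψ η * (c1 p η * SS ψ S2 (c2' p) η)) (law μ) := fun p hp =>
    m0.integrable_mul (memLp_bd (b1.meas p hp) (b1.bd p hp) (memLp_SS hs (b3 p hp)))
  have k1 : ∀ p ∈ S1, Integrable (fun η => c1 p η * (Ψ' p η * SS ψ S2 c2 η + Ψ η * SS ψ S2 (c2' p) η)) (law μ) :=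
    fun p hp => by
      refine ((k1a p hp).add (k1b p hp)).congr (ae_of_all _ fun η => ?_)
      show c1 p η * Ψ' p η * SS ψ S2 c2 η + Ψ η * (c1 p η * SS ψ S2 (c2' p) η) = _
      ring
  have k2 : ∀ p ∈ S1, Integrable (fun η => c1 p η * (Ψ η * SS ψ S2 c2 η) * ψ (η p)) (law μ) := fun p hp => by
    have := m0.integrable_mul (memLp_SS_mul hs (b1.single hp) b2)
    refine this.congr (ae_of_all _ fun η => ?_)
    show Ψ η * (SS ψ {p} c1 η * SS ψ S2 c2 η) = _
    rw [SS_single]
    ring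
  have hdis : ∀ p ∈ S1, p ∉ S2 := fun p hp hp' => Finset.disjoint_left.1 hd hp hp'
  have key := h.ibp_slab S1 (c := c1) (Φ := fun η => Ψ η * SS ψ S2 c2 η)
    (Φ' := fun p η => Ψ' p η * SS ψ S2 c2 η + Ψ η * SS ψ S2 (c2' p) η) b1.self
    (fun p hp η x => (hΨ p hp η x).mul (hasDerivAt_SS ψ (hdis p hp) (hc2 p hp) η x)) k0 k1 k2
  have e1 : ∀ η, ∑ p ∈ S1, c1 p η * τ (η p) * (Ψ' p η * SS ψ S2 c2 η + Ψ η * SS ψ S2 (c2' p) η) =
      (∑ p ∈ S1, c1 p η * τ (η p) * Ψ' p η) * SS ψ S2 c2 η + Ψ η * SS ψ S2 (H19.Dc S1 (tc τ c1) c2') η := fun η => by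
    have e2 : SS ψ S2 (H19.Dc S1 (tc τ c1) c2') η = ∑ p ∈ S1, c1 p η * τ (η p) * SS ψ S2 (c2' p) η := by
      unfold SS H19.Dc tc
      simp_rw [Finset.sum_mul, Finset.mul_sum]
      rw [Finset.sum_comm]
      exact Finset.sum_congr rfl fun p _ => Finset.sum_congr rfl fun q _ => by ring
    rw [e2, Finset.sum_mul, Finset.mul_sum, ← Finset.sum_add_distrib]
    exact Finset.sum_congr rfl fun p _ => by ring
  simp_rw [e1] at key
  have j1 : Integrable (fun η => (∑ p ∈ S1, c1 p η * τ (η p) * Ψ' p η) * SS ψ S2 c2 η) (law μ) := by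
    simp_rw [Finset.sum_mul]
    refine integrable_finsetSum _ fun p hp => ((h.int_tau p (k1a p hp)).congr (ae_of_all _ fun η => ?_))
    show τ (η p) * (c1 p η * Ψ' p η * SS ψ S2 c2 η) = _
    ring
  have j2 : Integrable (fun η => Ψ η * SS ψ S2 (H19.Dc S1 (tc τ c1) c2') η) (law μ) := m0.integrable_mul (memLp_SS hs bD)
  rw [integral_add j1 j2] at key
  rw [eq_sub_iff_add_eq, key]
  exact integral_congr_ae (ae_of_all _ fun η => by
    show Ψ η * SS ψ S2 c2 η * SS ψ S1 c1 η = Ψ η * (SS ψ S1 c1 η * SS ψ S2 c2 η)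
    ring)

end Slab

/-! ### The slab identities for cumulants -/

section Cumulants

variable {μ : Measure ℝ} {τ ψ : ℝ → ℝ} {X : Type*} [Fintype X] [Nonempty X]

/-- **The first slab derivative** for cumulants: the list `l η` does not see the slab, the weights have the derivative
`N q` along the site `q` of the slab. -/
theorem slab_cm [IsProbabilityMeasure μ] (h : ILaw μ τ ψ) {S : Finset Pt} {c : Pt → Env → ℝ} {M : ℝ} (b : BF S c M)
    {w : Env → X → ℝ} {N : Pt → X → ℝ}
    (hw : ∀ q ∈ S, ∀ (η : Env) (x : ℝ), HasDerivAt (fun t => w (Function.update η q t)) (N q) x)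
    {l : Env → List (X → ℝ)} (hl : ∀ q ∈ S, ∀ (η : Env) (x : ℝ), l (Function.update η q x) = l η)
    (m0 : MemLp (fun η => cm (l η) (w η)) 2 (law μ))
    (m1 : ∀ q ∈ S, MemLp (fun η => cm (N q :: l η) (w η)) 2 (law μ)) :
    ∫ η, cm (Cf S (tc τ c) N η :: l η) (w η) ∂(law μ) = ∫ η, cm (l η) (w η) * SS ψ S c η ∂(law μ) := by
  obtain ⟨K, θ0, hs⟩ := h.sg
  have hder : ∀ q ∈ S, ∀ (η : Env) (x : ℝ), HasDerivAt (fun t => cm (l (Function.update η q t)) (w (Function.update η q t)))
      (cm (N q :: l (Function.update η q x)) (w (Function.update η q x))) x := fun q hq η x => by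
    have e : ∀ t : ℝ, l (Function.update η q t) = l η := fun t => hl q hq η t
    simp only [e]
    exact hasDerivAt_cm (l η) (hw q hq η x)
  have one : MemLp (fun _ : Env => (1 : ℝ)) 2 (law μ) := memLp_const 1
  have i0 : ∀ q ∈ S, Integrable (fun η => c q η * cm (l η) (w η)) (law μ) := fun q hq => by
    have := (memLp_bd (b.meas q hq) (b.bd q hq) one).integrable_mul m0
    refine this.congr (ae_of_all _ fun η => ?_)
    show c q η * 1 * cm (l η) (w η) = _
    ring
  have i1 : ∀ q ∈ S, Integrable (fun η => c q η * cm (N q :: l η) (w η)) (law μ) := fun q hq => by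
    have := (memLp_bd (b.meas q hq) (b.bd q hq) one).integrable_mul (m1 q hq)
    refine this.congr (ae_of_all _ fun η => ?_)
    show c q η * 1 * cm (N q :: l η) (w η) = _
    ring
  have i2 : ∀ q ∈ S, Integrable (fun η => c q η * cm (l η) (w η) * ψ (η q)) (law μ) := fun q hq => by
    have := m0.integrable_mul (memLp_SS hs (b.single hq))
    refine this.congr (ae_of_all _ fun η => ?_)
    show cm (l η) (w η) * SS ψ {q} c η = _
    rw [SS_single]
    ring
  have key := h.ibp_slab S (c := c) (Φ := fun η => cm (l η) (w η)) (Φ' := fun q η => cm (N q :: l η) (w η)) b.self hder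
    i0 i1 i2
  rw [← key]
  exact integral_congr_ae (ae_of_all _ fun η => cm_Cf S (tc τ c) N η (l η) (w η))

/-- **The second slab derivative for cumulants.** -/
theorem slab_cm_two [IsProbabilityMeasure μ] (h : ILaw μ τ ψ) {S1 S2 : Finset Pt} (hd : Disjoint S1 S2)
    {c1 c2 : Pt → Env → ℝ} {c2' : Pt → Pt → Env → ℝ} {M1 M2 M3 : ℝ} (b1 : BF S1 c1 M1) (b2 : BF S2 c2 M2)
    (b3 : ∀ p ∈ S1, BF S2 (c2' p) M3)
    (h12 : ∀ p ∈ S1, ∀ q ∈ S2, ∀ (η : Env) (x : ℝ), c1 p (Function.update η q x) = c1 p η)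
    (hc2 : ∀ p ∈ S1, ∀ q ∈ S2, ∀ (η : Env) (x : ℝ), HasDerivAt (fun t => c2 q (Function.update η p t))
      (c2' p q (Function.update η p x)) x)
    {w : Env → X → ℝ} {N : Pt → X → ℝ}
    (hw1 : ∀ q ∈ S1, ∀ (η : Env) (x : ℝ), HasDerivAt (fun t => w (Function.update η q t)) (N q) x)
    (hw2 : ∀ q ∈ S2, ∀ (η : Env) (x : ℝ), HasDerivAt (fun t => w (Function.update η q t)) (N q) x)
    {l : Env → List (X → ℝ)} (hl1 : ∀ q ∈ S1, ∀ (η : Env) (x : ℝ), l (Function.update η q x) = l η)
    (hl2 : ∀ q ∈ S2, ∀ (η : Env) (x : ℝ), l (Function.update η q x) = l η)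
    (m0 : MemLp (fun η => cm (l η) (w η)) 2 (law μ))
    (m1 : ∀ p ∈ S1, MemLp (fun η => cm (N p :: l η) (w η)) 2 (law μ))
    (m2 : ∀ p ∈ S1, ∀ q ∈ S2, MemLp (fun η => cm (N q :: N p :: l η) (w η)) 2 (law μ)) :
    ∫ η, cm (Cf S2 (tc τ c2) N η :: Cf S1 (tc τ c1) N η :: l η) (w η) ∂(law μ) =
      ∫ η, cm (l η) (w η) * (SS ψ S1 c1 η * SS ψ S2 c2 η) ∂(law μ) -
        ∫ η, cm (l η) (w η) * SS ψ S2 (H19.Dc S1 (tc τ c1) c2') η ∂(law μ) := by
  have e1 : ∀ (q : Pt) (η : Env), cm (N q :: Cf S1 (tc τ c1) N η :: l η) (w η) =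
      ∑ p ∈ S1, tc τ c1 p η * cm (N q :: N p :: l η) (w η) := fun q η => by
    rw [cm_swap, cm_Cf]
    exact Finset.sum_congr rfl fun p _ => by rw [cm_swap]
  have n0 : MemLp (fun η => cm (Cf S1 (tc τ c1) N η :: l η) (w η)) 2 (law μ) := by
    have e : (fun η => cm (Cf S1 (tc τ c1) N η :: l η) (w η)) = fun η => ∑ p ∈ S1, tc τ c1 p η * cm (N p :: l η) (w η) :=
      funext fun η => cm_Cf S1 (tc τ c1) N η (l η) (w η)
    rw [e]
    exact memLp_finsetSum _ fun p hp => h.memLp_tc b1 hp (m1 p hp)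
  have n1 : ∀ q ∈ S2, MemLp (fun η => cm (N q :: Cf S1 (tc τ c1) N η :: l η) (w η)) 2 (law μ) := fun q hq => by
    simp_rw [e1]
    exact memLp_finsetSum _ fun p hp => h.memLp_tc b1 hp (m2 p hp q hq)
  have s1 := slab_cm h b2 (w := w) (N := N) hw2 (l := fun η => Cf S1 (tc τ c1) N η :: l η) (fun q hq η x => by
    show Cf S1 (tc τ c1) N (Function.update η q x) :: l (Function.update η q x) = Cf S1 (tc τ c1) N η :: l η
    rw [hl2 q hq, Cf_blind N (fun p hp η x => tc_blind (h12 p hp q hq) (fun hpq => Finset.disjoint_left.1 hd hp (hpq ▸ hq)) η x)]) n0 n1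
  have hder : ∀ q ∈ S1, ∀ (η : Env) (x : ℝ), HasDerivAt (fun t => cm (l (Function.update η q t)) (w (Function.update η q t)))
      (cm (N q :: l (Function.update η q x)) (w (Function.update η q x))) x := fun q hq η x => by
    have e : ∀ t : ℝ, l (Function.update η q t) = l η := fun t => hl1 q hq η t
    simp only [e]
    exact hasDerivAt_cm (l η) (hw1 q hq η x)
  have s2 := slab_two h hd b1 b2 b3 h12 hc2 (Ψ := fun η => cm (l η) (w η))
    (Ψ' := fun p η => cm (N p :: l η) (w η)) hder m0 m1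
  rw [s1, ← s2]
  exact integral_congr_ae (ae_of_all _ fun η => by
    show cm (Cf S1 (tc τ c1) N η :: l η) (w η) * SS ψ S2 c2 η =
      (∑ p ∈ S1, tc τ c1 p η * cm (N p :: l η) (w η)) * SS ψ S2 c2 η
    rw [cm_Cf])

/-- **THE SLAB IDENTITY** for arguments which see the slab, with a square integrable factor which is blind to it. -/
theorem slab_arg [IsProbabilityMeasure μ] (h : ILaw μ τ ψ) {S : Finset Pt} {c : Pt → Env → ℝ} {M : ℝ} (b : BF S c M)
    {w : Env → X → ℝ} (mw : Measurable w) {N : Pt → X → ℝ}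
    (hw : ∀ q ∈ S, ∀ (η : Env) (x : ℝ), HasDerivAt (fun t => w (Function.update η q t)) (N q) x)
    {Θ : Env → ℝ} (mΘ : MemLp Θ 2 (law μ)) (hΘ : ∀ q ∈ S, ∀ (η : Env) (x : ℝ), Θ (Function.update η q x) = Θ η)
    {L : List (Arg X)} (hL : L ≠ []) (hA : ∀ A ∈ L, A.OK S N) :
    ∫ η, Θ η * (cm (Cf S (tc τ c) N η :: vals η L) (w η) + dsm η (Cf S (tc τ c) N η) (w η) [] L) ∂(law μ) =
      ∫ η, Θ η * cm (vals η L) (w η) * SS ψ S c η ∂(law μ) := by
  obtain ⟨K, θ0, hs⟩ := h.sg
  have m0 : Measurable fun η => cm (vals η L) (w η) := measurable_vals mw hA []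
  obtain ⟨K0, b0⟩ := bdd_vals hA (k := []) (by simp) (by simpa using hL)
  have b0' : ∀ η, |cm (vals η L) (w η)| ≤ K0 := fun η => b0 η (w η)
  have m1 : ∀ q ∈ S, Measurable fun η => cm (N q :: vals η L) (w η) := fun q _ => measurable_vals mw hA [N q]
  have b1 : ∀ q ∈ S, ∃ K1, ∀ η, |cm (N q :: vals η L) (w η)| ≤ K1 := fun q _ => by
    obtain ⟨K1, h1⟩ := bdd_vals hA (k := [fun _ => N q]) (fun A hA' => by
      rw [List.mem_singleton.1 hA']
      exact ⟨‖N q‖, fun u x => norm_le_pi_norm (N q) x⟩) (by simp)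
    exact ⟨K1, fun η => h1 η (w η)⟩
  have m2 : ∀ q ∈ S, (Measurable fun η => dsm η (N q) (w η) [] L) ∧ ∃ K2 : ℝ, ∀ η, |dsm η (N q) (w η) [] L| ≤ K2 :=
    fun q hq => meas_bdd_dsm mw hq L hA [] (by simp)
  have one : MemLp (fun _ : Env => (1 : ℝ)) 2 (law μ) := memLp_const 1
  have c2 : ∀ q ∈ S, MemLp (fun η => c q η) 2 (law μ) := fun q hq => by
    have := memLp_bd (b.meas q hq) (b.bd q hq) one
    refine this.ae_eq (ae_of_all _ fun η => ?_)
    show c q η * 1 = c q η
    ring
  have t0 : MemLp (fun η => cm (vals η L) (w η) * Θ η) 2 (law μ) := memLp_bd m0 b0' mΘ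
  have t1 : ∀ q ∈ S, MemLp (fun η => (cm (N q :: vals η L) (w η) + dsm η (N q) (w η) [] L) * Θ η) 2 (law μ) :=
    fun q hq => by
      obtain ⟨K1, h1⟩ := b1 q hq
      obtain ⟨h2, K2, h3⟩ := m2 q hq
      exact memLp_bd ((m1 q hq).add h2) (M := K1 + K2) (fun η => (abs_add_le _ _).trans (add_le_add (h1 η) (h3 η))) mΘ
  have hder : ∀ q ∈ S, ∀ (η : Env) (x : ℝ), HasDerivAt (fun t => Θ (Function.update η q t) *
      cm (vals (Function.update η q t) L) (w (Function.update η q t)))
      (Θ (Function.update η q x) * (cm (N q :: vals (Function.update η q x) L) (w (Function.update η q x)) +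
        dsm (Function.update η q x) (N q) (w (Function.update η q x)) [] L)) x := fun q hq η x => by
    have e : ∀ t : ℝ, Θ (Function.update η q t) = Θ η := fun t => hΘ q hq η t
    simp only [e]
    exact (hasDerivAt_args hw hq hA η x).const_mul (Θ η)
  have i0 : ∀ q ∈ S, Integrable (fun η => c q η * (Θ η * cm (vals η L) (w η))) (law μ) := fun q hq => by
    refine ((c2 q hq).integrable_mul t0).congr (ae_of_all _ fun η => ?_)
    show c q η * (cm (vals η L) (w η) * Θ η) = _
    ring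
  have i1 : ∀ q ∈ S, Integrable (fun η => c q η * (Θ η * (cm (N q :: vals η L) (w η) + dsm η (N q) (w η) [] L)))
      (law μ) := fun q hq => by
    refine ((c2 q hq).integrable_mul (t1 q hq)).congr (ae_of_all _ fun η => ?_)
    show c q η * ((cm (N q :: vals η L) (w η) + dsm η (N q) (w η) [] L) * Θ η) = _
    ring
  have i2 : ∀ q ∈ S, Integrable (fun η => c q η * (Θ η * cm (vals η L) (w η)) * ψ (η q)) (law μ) := fun q hq => by
    refine (t0.integrable_mul (memLp_SS hs (b.single hq))).congr (ae_of_all _ fun η => ?_)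
    show (cm (vals η L) (w η) * Θ η) * SS ψ {q} c η = _
    rw [SS_single]
    ring
  have key := h.ibp_slab S (c := c) (Φ := fun η => Θ η * cm (vals η L) (w η))
    (Φ' := fun q η => Θ η * (cm (N q :: vals η L) (w η) + dsm η (N q) (w η) [] L)) b.self hder i0 i1 i2
  rw [← key]
  refine integral_congr_ae (ae_of_all _ fun η => ?_)
  show Θ η * (cm (Cf S (tc τ c) N η :: vals η L) (w η) + dsm η (Cf S (tc τ c) N η) (w η) [] L) =
    ∑ q ∈ S, c q η * τ (η q) * (Θ η * (cm (N q :: vals η L) (w η) + dsm η (N q) (w η) [] L))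
  rw [cm_Cf]
  have e : dsm η (Cf S (tc τ c) N η) (w η) [] L = ∑ q ∈ S, tc τ c q η * dsm η (N q) (w η) [] L :=
    dsm_lin η (w η) (fun q => tc τ c q η) L hA []
  rw [e, ← Finset.sum_add_distrib, Finset.mul_sum]
  exact Finset.sum_congr rfl fun q _ => by unfold tc; ring

end Cumulants

end

end Pool.W7d29a1.C0.T85
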