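import Pool.Agent.W_7d29a1_C0.Law32
import Pool.Agent.W_7d29a1_C0.Tau85

/-!
CURV0 (MP_7d29a1_pr), E8 = the class of laws in readable form. `GLaw μ`: the law `μ` has a density `exp(-V)`, `V` differentiable
with a LIPSCHITZ derivative. Then the score `V'` has all its exponential moments (`glaw_mom`, no hypothesis on moments is needed),
`μ` is in the classes `DenLaw` (Ibp32), `WL` (Quasi32), `QI` (Quasi27); the class is stable under `x ↦ β x` (`GLaw.scale`) and
contains the gaussian laws. Also the stability of the class `μ ≥ c • Lebesgue on an interval` (`ac_scale`). (helper85)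
-/

set_option autoImplicit false
set_option linter.unusedSectionVars false
set_option linter.unusedVariables false

namespace Pool.W7d29a1.C0.T85

open MeasureTheory ProbabilityTheory Filter Topology
open scoped ENNReal NNReal
open Pool.Agent.W_7d29a1_C0.H32 Pool.Agent.W_7d29a1_C0.Q32

noncomputable section

/-- **The class of laws**: the law has a density `exp(-V)`, and `V` is differentiable with a Lipschitz derivative. -/
def GLaw (μ : Measure ℝ) : Prop :=
  ∃ (V V' : ℝ → ℝ) (L : ℝ), (∀ x, HasDerivAt V (V' x) x) ∧ (∀ x y, |V' x - V' y| ≤ L * |x - y|) ∧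
    μ = volume.withDensity fun x => ENNReal.ofReal (Real.exp (-V x))

variable {V V' : ℝ → ℝ} {K : ℝ}

/-- Taylor. -/
theorem taylor_V (hV : ∀ x, HasDerivAt V (V' x) x) (hK : 0 ≤ K) (hL : ∀ x y, |V' x - V' y| ≤ K * |x - y|) (a x : ℝ) :
    |V (x + a) - V x - a * V' x| ≤ K * a ^ 2 := by
  have hd : ∀ s : ℝ, HasDerivAt (fun s => V (x + s) - s * V' x) (V' (x + s) - V' x) s := fun s => by
    have h1 : HasDerivAt (fun s => V (x + s)) (V' (x + s)) s := by
      simpa using (hV (x + s)).comp_const_add x s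
    have h3 : HasDerivAt (fun s : ℝ => s * V' x) (V' x) s := by
      simpa using (hasDerivAt_id s).mul_const (V' x)
    exact h1.sub h3
  have key := (convex_uIcc (0 : ℝ) a).norm_image_sub_le_of_norm_hasDerivWithin_le
    (f := fun s => V (x + s) - s * V' x) (f' := fun s => V' (x + s) - V' x)
    (C := K * |a|) (fun s _ => (hd s).hasDerivWithinAt) (fun s hs => by
      rw [Real.norm_eq_abs]
      have h1 := hL (x + s) x
      have h2 : |x + s - x| = |s| := by rw [show x + s - x = s by ring]
      rw [h2] at h1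
      have h3 : |s| ≤ |a| := by
        have := Set.abs_sub_left_of_mem_uIcc hs
        simpa using this
      exact h1.trans (mul_le_mul_of_nonneg_left h3 hK))
    (Set.left_mem_uIcc) (Set.right_mem_uIcc)
  simp only [add_zero, zero_mul, sub_zero, Real.norm_eq_abs] at key
  have e1 : K * |a| * |a| = K * a ^ 2 := by rw [mul_assoc, ← sq, sq_abs]
  rw [e1] at key
  have e2 : V (x + a) - a * V' x - V x = V (x + a) - V x - a * V' x := by ring
  rwa [e2] at key

/-- The change of variables for a map of the real line which does not contract by more than `1 / 2`. -/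
theorem lintegral_anti {φ : ℝ → ℝ} (mφ : Measurable φ) (h : ∀ x y, |x - y| ≤ 2 * |φ x - φ y|) {F : ℝ → ℝ≥0∞}
    (mF : Measurable F) : ∫⁻ x, F (φ x) ≤ 2 * ∫⁻ x, F x := by
  have h1 : AntilipschitzWith 2 φ := AntilipschitzWith.of_le_mul_dist fun x y => by
    rw [Real.dist_eq, Real.dist_eq]
    simpa using h x y
  have h2 : (volume : Measure ℝ).map φ ≤ (2 : ℝ≥0∞) • volume := by
    refine Measure.le_iff.2 fun s hs => ?_
    rw [Measure.map_apply mφ hs, Measure.smul_apply, smul_eq_mul]
    have h3 := h1.hausdorffMeasure_preimage_le (d := 1) zero_le_one s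
    rw [hausdorffMeasure_real] at h3
    simpa using h3
  calc ∫⁻ x, F (φ x) = ∫⁻ x, F x ∂((volume : Measure ℝ).map φ) := (lintegral_map mF mφ).symm
    _ ≤ ∫⁻ x, F x ∂((2 : ℝ≥0∞) • (volume : Measure ℝ)) := lintegral_mono' h2 le_rfl
    _ = 2 * ∫⁻ x, F x := by rw [lintegral_smul_measure, smul_eq_mul]

/-- **The score of a law with a Lipschitz score has exponential moments.** -/
theorem glaw_mom {μ : Measure ℝ} [IsProbabilityMeasure μ] (hV : ∀ x, HasDerivAt V (V' x) x) (hK : 0 < K)
    (hL : ∀ x y, |V' x - V' y| ≤ K * |x - y|)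
    (hμ : μ = volume.withDensity fun x => ENNReal.ofReal (Real.exp (-V x))) :
    Integrable (fun x => Real.exp (1 * |V' x|)) μ := by
  have cV : Continuous V := continuous_iff_continuousAt.2 fun x => (hV x).continuousAt
  have cV' : Continuous V' := by
    have : LipschitzWith (Real.toNNReal K) V' := LipschitzWith.of_dist_le_mul fun x y => by
      rw [Real.dist_eq, Real.dist_eq, Real.coe_toNNReal K hK.le]
      exact hL x y
    exact this.continuous
  have mE : Measurable fun x => Real.exp (1 * |V' x|) := (cV'.abs.const_mul 1 |> Continuous.rexp).measurable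
  obtain ⟨φ, hφ⟩ : ∃ φ : ℝ → ℝ, φ = fun x => x + -(V' x / (4 * K)) := ⟨_, rfl⟩
  have cφ : Continuous φ := by
    rw [hφ]
    fun_prop
  have hanti : ∀ x y, |x - y| ≤ 2 * |φ x - φ y| := fun x y => by
    have e : x - y = (φ x - φ y) + (V' x - V' y) / (4 * K) := by
      rw [hφ]
      ring
    have h1 : |(V' x - V' y) / (4 * K)| ≤ |x - y| / 4 := by
      rw [abs_div, abs_of_pos (by positivity : (0 : ℝ) < 4 * K), div_le_iff₀ (by positivity)]
      have := hL x y
      nlinarith
    have h2 : |x - y| ≤ |φ x - φ y| + |(V' x - V' y) / (4 * K)| := by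
      conv_lhs => rw [e]
      exact abs_add_le _ _
    have := abs_nonneg (x - y)
    linarith
  have hc : (0 : ℝ) < 3 / (16 * K) := by positivity
  have key : ∀ x, ENNReal.ofReal (Real.exp (-V x)) * ENNReal.ofReal (Real.exp (1 * |V' x|)) ≤
      ENNReal.ofReal (Real.exp (4 * K / 3)) * ENNReal.ofReal (Real.exp (-V (φ x))) := fun x => by
    rw [← ENNReal.ofReal_mul (Real.exp_pos _).le, ← ENNReal.ofReal_mul (Real.exp_pos _).le, ← Real.exp_add, ← Real.exp_add]
    refine ENNReal.ofReal_le_ofReal (Real.exp_le_exp.2 ?_)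
    have h1 := (abs_le.1 (taylor_V hV hK.le hL (-(V' x / (4 * K))) x)).2
    have e1 : V (x + -(V' x / (4 * K))) = V (φ x) := by rw [hφ]
    rw [e1] at h1
    have e2 : K * (-(V' x / (4 * K))) ^ 2 = V' x ^ 2 / (16 * K) := by
      field_simp
      ring
    have e3 : -(V' x / (4 * K)) * V' x = -(4 * V' x ^ 2 / (16 * K)) := by
      field_simp
      ring
    rw [e2, e3] at h1
    have h2 : |V' x| ≤ 3 * V' x ^ 2 / (16 * K) + 4 * K / 3 := by
      rw [← sub_nonneg]
      have e4 : 3 * V' x ^ 2 / (16 * K) + 4 * K / 3 - |V' x| = (3 * |V' x| - 8 * K) ^ 2 / (48 * K) := by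
        rw [← sq_abs (V' x)]
        field_simp
        ring
      rw [e4]
      positivity
    have e5 : 4 * V' x ^ 2 / (16 * K) = 3 * V' x ^ 2 / (16 * K) + V' x ^ 2 / (16 * K) := by ring
    linarith
  refine ⟨mE.aestronglyMeasurable, ?_⟩
  rw [hasFiniteIntegral_iff_ofReal (ae_of_all _ fun x => (Real.exp_pos _).le)]
  have mV : Measurable fun x => ENNReal.ofReal (Real.exp (-V x)) := cV.measurable.neg.exp.ennreal_ofReal
  have hone : ∫⁻ x, ENNReal.ofReal (Real.exp (-V x)) = 1 := by
    have := measure_univ (μ := μ)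
    rw [hμ, withDensity_apply _ MeasurableSet.univ, Measure.restrict_univ] at this
    exact this
  have e6 : ∫⁻ x, ENNReal.ofReal (Real.exp (1 * |V' x|)) ∂μ =
      ∫⁻ x, ENNReal.ofReal (Real.exp (-V x)) * ENNReal.ofReal (Real.exp (1 * |V' x|)) := by
    rw [hμ, lintegral_withDensity_eq_lintegral_mul _ mV mE.ennreal_ofReal]
    rfl
  rw [e6]
  calc ∫⁻ x, ENNReal.ofReal (Real.exp (-V x)) * ENNReal.ofReal (Real.exp (1 * |V' x|))
      ≤ ∫⁻ x, ENNReal.ofReal (Real.exp (4 * K / 3)) * ENNReal.ofReal (Real.exp (-V (φ x))) := lintegral_mono key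
    _ = ENNReal.ofReal (Real.exp (4 * K / 3)) * ∫⁻ x, ENNReal.ofReal (Real.exp (-V (φ x))) :=
        lintegral_const_mul' _ _ ENNReal.ofReal_ne_top
    _ ≤ ENNReal.ofReal (Real.exp (4 * K / 3)) * (2 * ∫⁻ x, ENNReal.ofReal (Real.exp (-V x))) := by
        gcongr
        exact lintegral_anti cφ.measurable hanti mV
    _ < ⊤ := by
        rw [hone, mul_one]
        exact ENNReal.mul_lt_top ENNReal.ofReal_lt_top (by norm_num)

/-- The class `GLaw` in the form of Ibp32, with a Lipschitz score. -/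
theorem GLaw.den {μ : Measure ℝ} [IsProbabilityMeasure μ] (h : GLaw μ) : ∃ (f f' : ℝ → ℝ) (L : ℝ), DenLaw μ f f' ∧
    (∀ x, 0 < f x) ∧ 0 ≤ L ∧ ∀ x y, |sc f f' x - sc f f' y| ≤ L * |x - y| := by
  obtain ⟨V, V', L, hV, hL, hμ⟩ := h
  have hL0 : 0 ≤ L := by
    have := hL 1 0
    have h1 := abs_nonneg (V' 1 - V' 0)
    norm_num at this
    linarith
  have hL1 : ∀ x y, |V' x - V' y| ≤ (L + 1) * |x - y| := fun x y => by
    have := hL x y
    have h1 := abs_nonneg (x - y)
    linarith
  have es : ∀ x, sc (fun x => Real.exp (-V x)) (fun x => -V' x * Real.exp (-V x)) x = V' x := fun x => by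
    unfold sc
    rw [mul_div_assoc, div_self (Real.exp_pos _).ne', mul_one, neg_neg]
  refine ⟨fun x => Real.exp (-V x), fun x => -V' x * Real.exp (-V x), L, ⟨fun x => (Real.exp_pos _).le, fun x => ?_, hμ,
    1, one_pos, ?_⟩, fun x => Real.exp_pos _, hL0, fun x y => by rw [es, es]; exact hL x y⟩
  · have h1 := (hV x).neg.exp
    have e : Real.exp (-V x) * -V' x = -V' x * Real.exp (-V x) := mul_comm _ _
    rw [← e]
    exact h1
  · refine (glaw_mom hV (by linarith : 0 < L + 1) hL1 hμ).congr (ae_of_all _ fun x => ?_)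
    show Real.exp (1 * |V' x|) = Real.exp (1 * |(-V' x * Real.exp (-V x)) / Real.exp (-V x)|)
    rw [mul_div_assoc, div_self (Real.exp_pos _).ne', mul_one, abs_neg]

/-- The class `GLaw` is in the class `WL` of Quasi32. -/
theorem GLaw.wl {μ : Measure ℝ} [IsProbabilityMeasure μ] (h : GLaw μ) :
    ∃ (u : ℝ → ℝ → ℝ) (C θ : ℝ), WL μ u C θ := by
  obtain ⟨f, f', L, h1, h2, h3, h4⟩ := h.den
  obtain ⟨C, θ, h5⟩ := wl_lip h1 h2 h3 h4
  exact ⟨_, C, θ, h5⟩

/-- The class is stable under `x ↦ β x`. -/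
theorem GLaw.scale {μ : Measure ℝ} (h : GLaw μ) {β : ℝ} (hβ : 0 < β) : GLaw (μ.map fun x => β * x) := by
  obtain ⟨V, V', L, hV, hL, hμ⟩ := h
  refine ⟨fun x => V (x / β) + Real.log β, fun x => V' (x / β) / β, L / β ^ 2, fun x => ?_, fun x y => ?_, ?_⟩
  · have h1 : HasDerivAt (fun x : ℝ => x / β) (1 / β) x := (hasDerivAt_id x).div_const β
    have h2 := ((hV (x / β)).comp x h1).add_const (Real.log β)
    have e : V' (x / β) * (1 / β) = V' (x / β) / β := by ring
    show HasDerivAt (fun x => V (x / β) + Real.log β) (V' (x / β) / β) x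
    rw [← e]
    exact h2
  · rw [← sub_div, abs_div, abs_of_pos hβ]
    have h1 := hL (x / β) (y / β)
    rw [← sub_div, abs_div, abs_of_pos hβ] at h1
    calc |V' (x / β) - V' (y / β)| / β ≤ (L * (|x - y| / β)) / β := div_le_div_of_nonneg_right h1 hβ.le
      _ = L / β ^ 2 * |x - y| := by field_simp
  · have cV : Continuous V := continuous_iff_continuousAt.2 fun x => (hV x).continuousAt
    have mV : Measurable fun x => ENNReal.ofReal (Real.exp (-V x)) := cV.measurable.neg.exp.ennreal_ofReal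
    have mβ : Measurable fun x : ℝ => β * x := measurable_const_mul β
    refine Measure.ext_of_lintegral _ fun F mF => ?_
    have mV2 : Measurable fun x => ENNReal.ofReal (Real.exp (-(V (x / β) + Real.log β))) :=
      (((cV.measurable.comp (measurable_id.div_const β)).add_const _).neg.exp).ennreal_ofReal
    have mFβ : Measurable fun x => F (β * x) := mF.comp mβ
    rw [lintegral_map mF mβ, hμ, lintegral_withDensity_eq_lintegral_mul _ mV mFβ,
      lintegral_withDensity_eq_lintegral_mul _ mV2 mF]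
    have hβ' : β⁻¹ ≠ 0 := (inv_pos.2 hβ).ne'
    have key := lintegral_map (μ := (volume : Measure ℝ))
      (f := fun x => (ENNReal.ofReal (Real.exp (-V x))) * F (β * x)) (g := fun x : ℝ => β⁻¹ * x)
      (mV.mul (mF.comp mβ)) (measurable_const_mul _)
    rw [Real.map_volume_mul_left hβ', lintegral_smul_measure, inv_inv, abs_of_pos hβ, smul_eq_mul] at key
    show ∫⁻ x, ENNReal.ofReal (Real.exp (-V x)) * F (β * x) =
      ∫⁻ x, ENNReal.ofReal (Real.exp (-(V (x / β) + Real.log β))) * F x
    have hb : ENNReal.ofReal β ≠ 0 := by simpa using hβ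
    have e1 : ∀ x, ENNReal.ofReal (Real.exp (-(V (x / β) + Real.log β))) * F x =
        (ENNReal.ofReal β)⁻¹ * (ENNReal.ofReal (Real.exp (-V (β⁻¹ * x))) * F (β * (β⁻¹ * x))) := fun x => by
      have e2 : Real.exp (-(V (x / β) + Real.log β)) = β⁻¹ * Real.exp (-V (β⁻¹ * x)) := by
        rw [neg_add, Real.exp_add, Real.exp_neg (Real.log β), Real.exp_log hβ, mul_comm, div_eq_inv_mul]
      rw [e2, ENNReal.ofReal_mul (inv_pos.2 hβ).le, ENNReal.ofReal_inv_of_pos hβ, mul_inv_cancel_left₀ hβ.ne', mul_assoc]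
    simp_rw [e1]
    rw [lintegral_const_mul' _ _ (ENNReal.inv_ne_top.2 hb), ← key, ← mul_assoc,
      ENNReal.inv_mul_cancel hb ENNReal.ofReal_ne_top, one_mul]

/-- **Gaussian laws** are in the class. -/
theorem glaw_gaussian {m : ℝ} {v : ℝ≥0} (hv : v ≠ 0) : GLaw (gaussianReal m v) := by
  have hv' : (0 : ℝ) < v := by
    rw [NNReal.coe_pos]
    exact pos_iff_ne_zero.2 hv
  refine ⟨fun x => (x - m) ^ 2 / (2 * v) + Real.log (Real.sqrt (2 * Real.pi * v)), fun x => (x - m) / v, 1 / v,
    fun x => ?_, fun x y => ?_, ?_⟩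
  · have h2 := ((((hasDerivAt_id x).sub_const m).pow 2).div_const (2 * (v : ℝ))).add_const
      (Real.log (Real.sqrt (2 * Real.pi * v)))
    have h4 : ((2 : ℕ) * (id x - m) ^ (2 - 1) * 1) / (2 * (v : ℝ)) = (x - m) / v := by
      simp only [id, Nat.add_one_sub_one, pow_one, Nat.cast_ofNat]
      field_simp
    show HasDerivAt (fun x => (x - m) ^ 2 / (2 * (v : ℝ)) + Real.log (Real.sqrt (2 * Real.pi * v))) ((x - m) / v) x
    rw [← h4]
    exact h2
  · rw [← sub_div, abs_div, abs_of_pos hv']
    apply le_of_eq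
    have : x - m - (y - m) = x - y := by ring
    rw [this]
    ring
  · rw [gaussianReal_of_var_ne_zero m hv]
    congr 1
    funext x
    unfold gaussianPDF gaussianPDFReal
    congr 1
    rw [neg_add, Real.exp_add, Real.exp_neg (Real.log _), Real.exp_log (by positivity), mul_comm, neg_div]

/-- The class of the laws which dominate a multiple of the Lebesgue measure on an interval is stable under `x ↦ β x`. -/
theorem ac_scale {μ : Measure ℝ} {a b c : ℝ} (hc : 0 < c) (h : ENNReal.ofReal c • volume.restrict (Set.Icc a b) ≤ μ)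
    {β : ℝ} (hβ : 0 < β) :
    ENNReal.ofReal (c / β) • volume.restrict (Set.Icc (β * a) (β * b)) ≤ μ.map fun x => β * x := by
  have mβ : Measurable fun x : ℝ => β * x := measurable_const_mul β
  refine Measure.le_iff.2 fun s hs => ?_
  rw [Measure.map_apply mβ hs, Measure.smul_apply, smul_eq_mul, Measure.restrict_apply hs]
  have h1 := h ((fun x : ℝ => β * x) ⁻¹' s)
  rw [Measure.smul_apply, smul_eq_mul, Measure.restrict_apply (mβ hs)] at h1
  refine le_trans (le_of_eq ?_) h1
  have e1 : (fun x : ℝ => β * x) ⁻¹' s ∩ Set.Icc a b = (fun x : ℝ => β * x) ⁻¹' (s ∩ Set.Icc (β * a) (β * b)) := by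
    ext x
    simp only [Set.mem_inter_iff, Set.mem_preimage, Set.mem_Icc, mul_le_mul_iff_right₀ hβ]
  rw [e1, Real.volume_preimage_mul_left hβ.ne', ← mul_assoc, ← ENNReal.ofReal_mul hc.le, abs_of_pos (inv_pos.2 hβ),
    div_eq_mul_inv]

end

end Pool.W7d29a1.C0.T85
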