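import Pool.Agent.W_7d29a1_C0.Mart82

/-!
CURV0 (MP_7d29a1_pr), leaf E1c (list of helper19, board 72300): **(E1) averaged over the row `z` of the second slab**, exact and
pathwise. `pm m` = everything behind the row `m` of the first slab `J`, `pz z` = everything behind the row `z` of the second
slab `J'` (further to the right), `g` the kick, `gW` any function, `f` a function of what is behind the second slab.
`C = avC w J θ pm g`, `C' = avC w J' θ' pz g`, `C'^W = avC w J' θ' pz gW`, `N = ∑ θ m • cC w (pm m) g g`,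
`N^W = ∑ θ m • cC w (pm m) g gW`. (helper82)
-/

set_option autoImplicit false
set_option linter.unusedSectionVars false
set_option linter.unusedVariables false

namespace Pool.W7d29a1.C0

open Finset Filter Topology
open Pool.Agent.W_7d29a1_C0 Pool.W7d29a1.C0.VT31

noncomputable section

variable {X : Type*} [Fintype X] [Nonempty X] {Y Y' : Type*} [DecidableEq Y] [DecidableEq Y'] {κ κ' : Type*}

/-! ### Cumulants of order three and four with the covariance as base functional -/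

/-- The insertion of `D` into any two replica form of the covariance. -/
theorem cm_ins_of {w D a f : X → ℝ} {Ψ : (Fin 2 → X) → ℝ}
    (h : ∀ s : ℝ, rep 2 (w + s • D) Ψ = gc (w + s • D) a f) : cm [D, a, f] w = rep 3 w (nxt D Ψ) := by
  have h1 : HasDerivAt (fun s : ℝ => cm [a, f] (w + s • D)) (cm [D, a, f] (w + (0 : ℝ) • D)) 0 :=
    hasDerivAt_cm_line [a, f] w D 0
  have h2 := hasDerivAt_rep 2 w D Ψ
  have e : ∀ s : ℝ, cm [a, f] (w + s • D) = rep 2 (w + s • D) Ψ := fun s => by rw [h s, gc_eq_cm]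
  simp_rw [e] at h1
  have h3 := h1.unique h2
  rwa [zero_smul, add_zero] at h3

/-- The insertion of `C` and `D`. -/
theorem cm_ins_of2 {w C D a f : X → ℝ} {Ψ : (Fin 2 → X) → ℝ}
    (h : ∀ s u : ℝ, rep 2 (w + s • C + u • D) Ψ = gc (w + s • C + u • D) a f) :
    cm [C, D, a, f] w = rep 4 w (nxt C (nxt D Ψ)) := by
  have h1 : HasDerivAt (fun s : ℝ => cm [D, a, f] (w + s • C)) (cm [C, D, a, f] (w + (0 : ℝ) • C)) 0 :=
    hasDerivAt_cm_line [D, a, f] w C 0
  have h2 := hasDerivAt_rep 3 w C (nxt D Ψ)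
  have e : ∀ s : ℝ, cm [D, a, f] (w + s • C) = rep 3 (w + s • C) (nxt D Ψ) := fun s => cm_ins_of fun u => h s u
  simp_rw [e] at h1
  have h3 := h1.unique h2
  rwa [zero_smul, add_zero] at h3

theorem cm_ins_one (w D a f : X → ℝ) : cm [D, a, f] w = rep 3 w (nxt D (Q2 (fun _ _ => 1) a f)) :=
  cm_ins_of fun s => rep_Q2_one _ a f

theorem cm_ins_two (w C D a f : X → ℝ) : cm [C, D, a, f] w = rep 4 w (nxt C (nxt D (Q2 (fun _ _ => 1) a f))) :=
  cm_ins_of2 fun s u => rep_Q2_one _ a f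

/-! ### Linearity in the middle slots -/

theorem cm_sum_head (s : Finset κ) (a : κ → X → ℝ) (l : List (X → ℝ)) (w : X → ℝ) :
    cm ((∑ j ∈ s, a j) :: l) w = ∑ j ∈ s, cm (a j :: l) w := cm_head_sum s a l w

theorem cm_sum_smul (s : Finset κ) (θ : κ → ℝ) (a : κ → X → ℝ) (l : List (X → ℝ)) (w : X → ℝ) :
    cm ((∑ j ∈ s, θ j • a j) :: l) w = ∑ j ∈ s, θ j * cm (a j :: l) w := by
  rw [cm_sum_head]
  exact Finset.sum_congr rfl fun j _ => cm_head_smul _ _ _ _

/-- With two functions of `q` the third argument may be replaced by its conditional mean. -/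
theorem total3_meas {q : X → Y} {f b : X → ℝ} (hf : Mp q f) (hb : Mp q b) (w a : X → ℝ) :
    cm [a, b, f] w = cm [cE w q a, b, f] w := by
  rw [total3 hf w a b, cE_of_meas w hb, cC_symm, cC_meas_left w hb]
  have := gc_smul_left w 0 (0 : X → ℝ) f
  rw [smul_zero, zero_mul] at this
  rw [this, add_zero]

section Avg

variable {w : X → ℝ} {J : Finset κ} {θ : κ → ℝ} {pm : κ → X → Y'} {J' : Finset κ'} {θ' : κ' → ℝ} {pz : κ' → X → Y}
variable {g gW f : X → ℝ}

/-- The slab average of the conditional covariances, as a path functional. -/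
def avN (w : X → ℝ) (J : Finset κ) (θ : κ → ℝ) (pm : κ → X → Y') (g h : X → ℝ) : X → ℝ := ∑ m ∈ J, θ m • cC w (pm m) g h

theorem cE_avN (q : X → Y) (g h : X → ℝ) : cE w q (avN w J θ pm g h) = avV w J θ pm q g h := by
  unfold avN avV
  rw [cE_sum]
  exact Finset.sum_congr rfl fun m _ => cE_smul w q _ _

/-- `avg_z κ₃(cE_z a, cE_z g, f) = κ₃(C', a, f)`. -/
theorem avg_cm_E (hf : ∀ z ∈ J', Mp (pz z) f) (a g : X → ℝ) :
    ∑ z ∈ J', θ' z * cm [cE w (pz z) a, cE w (pz z) g, f] w = cm [avC w J' θ' pz g, a, f] w := by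
  unfold avC
  rw [cm_sum_smul]
  refine Finset.sum_congr rfl fun z hz => ?_
  rw [← total3_meas (hf z hz) (cE_meas w (pz z) g) w a, cm_swap]

/-- The average of the functional in any direction: `Σ_z DX (pz z) w C [[a],[g]] [f] = κ₄(C, C', a, f) + κ₃(D_C C', a, f)`. -/
theorem avg_DX (hf : ∀ z ∈ J', Mp (pz z) f) (C a g : X → ℝ) :
    ∑ z ∈ J', θ' z * DX (pz z) w C [[a], [g]] [f] = cm [C, avC w J' θ' pz g, a, f] w +
      cm [∑ z ∈ J', θ' z • cC w (pz z) C g, a, f] w := by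
  -- both sides are the derivative at `0` of `κ₃(C', a, f)` at `w + s C`
  have h1 : HasDerivAt (fun s : ℝ => ∑ z ∈ J', θ' z * CX (pz z) (w + s • C) [[a], [g]] [f])
      (∑ z ∈ J', θ' z * DX (pz z) (w + (0 : ℝ) • C) C [[a], [g]] [f]) 0 := by
    refine HasDerivAt.fun_sum fun z hz => ?_
    have hl : ∀ F ∈ [f], Mp (pz z) F := fun F hF => by
      rw [List.mem_singleton.1 hF]
      exact hf z hz
    exact (hasDerivAt_CX (hasDerivAt_line w C 0) [[a], [g]] hl).const_mul _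
  have e1 : ∀ s : ℝ, ∑ z ∈ J', θ' z * CX (pz z) (w + s • C) [[a], [g]] [f] =
      ∑ z ∈ J', θ' z * cm [cE (w + s • C) (pz z) g, a, f] (w + s • C) := fun s => by
    refine Finset.sum_congr rfl fun z hz => ?_
    rw [CX_11, ← total3_meas (hf z hz) (cE_meas _ (pz z) g) _ a, cm_swap]
  have hcE : ∀ z, HasDerivAt (fun s : ℝ => cE (w + s • C) (pz z) g) (cC w (pz z) C g) 0 := fun z => by
    have h := hasDerivAt_cj (pr_surj (pz z)) [g] (hasDerivAt_line w C 0)
    rw [hasDerivAt_pi] at h ⊢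
    intro x
    have hx := h (pr (pz z) x)
    have e : ∀ s : ℝ, cj (pr (pz z)) [g] (w + s • C) (pr (pz z) x) = cE (w + s • C) (pz z) g x := fun s =>
      cj_one_apply (pz z) _ g x
    simp_rw [e] at hx
    refine hx.congr_deriv ?_
    rw [zero_smul, add_zero]
    exact congrFun (kX_two (pz z) w C g) x
  have h2 : HasDerivAt (fun s : ℝ => ∑ z ∈ J', θ' z * cm [cE (w + s • C) (pz z) g, a, f] (w + s • C))
      (∑ z ∈ J', θ' z * (cm [C, cE w (pz z) g, a, f] w + cm [cC w (pz z) C g, a, f] w)) 0 := by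
    refine HasDerivAt.fun_sum fun z hz => HasDerivAt.const_mul _ ?_
    have h := hasDerivAt_cm_gen (hasDerivAt_line w C 0) [((fun s : ℝ => cE (w + s • C) (pz z) g), cC w (pz z) C g),
      ((fun _ : ℝ => a), (0 : X → ℝ)), ((fun _ : ℝ => f), (0 : X → ℝ))] (fun r hr => by
        simp only [List.mem_cons, List.not_mem_nil, or_false] at hr
        rcases hr with rfl | rfl | rfl
        · exact hcE z
        · exact hasDerivAt_const 0 a
        · exact hasDerivAt_const 0 f) []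
    refine (h.congr_deriv ?_).congr_of_eventuallyEq (Eventually.of_forall fun s => rfl)
    have z1 : cm [cE w (pz z) g, (0 : X → ℝ), f] w = 0 := cm_zero_mid [cE w (pz z) g] [f] w
    have z2 : cm [cE w (pz z) g, a, (0 : X → ℝ)] w = 0 := cm_zero_mid [cE w (pz z) g, a] [] w
    simp only [evg, gsum, List.map_cons, List.map_nil, List.nil_append, List.cons_append, zero_smul, add_zero]
    rw [z1, z2]
    ring
  simp_rw [e1] at h1
  have h3 := h1.unique h2
  rw [zero_smul, add_zero] at h3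
  rw [h3]
  have e4 : cm [C, avC w J' θ' pz g, a, f] w = ∑ z ∈ J', θ' z * cm [C, cE w (pz z) g, a, f] w := by
    rw [cm_swap]
    unfold avC
    rw [cm_sum_smul]
    exact Finset.sum_congr rfl fun z _ => by rw [cm_swap]
  rw [e4, cm_sum_smul, ← Finset.sum_add_distrib]
  exact Finset.sum_congr rfl fun z _ => by ring

/-- **(E1) averaged over `z`, exact and pathwise, in cumulants.** -/
theorem E1_avg (hf : ∀ z ∈ J', Mp (pz z) f) (hθ : ∑ m ∈ J, θ m = 1) (hc : ∀ z ∈ J', ∀ m ∈ J, Crs (pz z) (pm m)) :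
    ∑ z ∈ J', θ' z * DX (pz z) w g [[gW], [g]] [f] =
      (cm [avC w J θ pm g, avC w J' θ' pz g, gW, f] w +
        cm [∑ z ∈ J', θ' z • cC w (pz z) (avC w J θ pm g) g, gW, f] w) +
      (cm [avC w J' θ' pz g, avN w J θ pm g gW, f] w + cm [avC w J' θ' pz gW, avN w J θ pm g g, f] w) := by
  rw [← avg_DX hf (avC w J θ pm g) gW g, ← avg_cm_E hf (avN w J θ pm g gW) g, ← avg_cm_E hf (avN w J θ pm g g) gW,
    ← Finset.sum_add_distrib, ← Finset.sum_add_distrib]
  refine Finset.sum_congr rfl fun z hz => ?_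
  rw [DX_sub_avC (hf z hz) hθ (hc z hz) gW g, cE_avN, cE_avN]
  have e : cm [avV w J θ pm (pz z) g g, cE w (pz z) gW, f] w = cm [cE w (pz z) gW, avV w J θ pm (pz z) g g, f] w := by
    rw [cm_swap]
  rw [e]
  ring

/-- **(E1) averaged over `z`, in replicas**: `ΨW`, `ΨNW`, `ΨN` any two replica forms of the covariances of `gW`, `N^W`, `N`
with `f`. -/
theorem E1_rep (hf : ∀ z ∈ J', Mp (pz z) f) (hθ : ∑ m ∈ J, θ m = 1) (hc : ∀ z ∈ J', ∀ m ∈ J, Crs (pz z) (pm m))
    {ΨW ΨNW ΨN : (Fin 2 → X) → ℝ}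
    (h1 : ∀ s u : ℝ, rep 2 (w + s • avC w J θ pm g + u • avC w J' θ' pz g) ΨW =
      gc (w + s • avC w J θ pm g + u • avC w J' θ' pz g) gW f)
    (h2 : ∀ s : ℝ, rep 2 (w + s • ∑ z ∈ J', θ' z • cC w (pz z) (avC w J θ pm g) g) ΨW =
      gc (w + s • ∑ z ∈ J', θ' z • cC w (pz z) (avC w J θ pm g) g) gW f)
    (h3 : ∀ s : ℝ, rep 2 (w + s • avC w J' θ' pz g) ΨNW = gc (w + s • avC w J' θ' pz g) (avN w J θ pm g gW) f)
    (h4 : ∀ s : ℝ, rep 2 (w + s • avC w J' θ' pz gW) ΨN = gc (w + s • avC w J' θ' pz gW) (avN w J θ pm g g) f) :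
    ∑ z ∈ J', θ' z * DX (pz z) w g [[gW], [g]] [f] =
      (rep 4 w (nxt (avC w J θ pm g) (nxt (avC w J' θ' pz g) ΨW)) +
        rep 3 w (nxt (∑ z ∈ J', θ' z • cC w (pz z) (avC w J θ pm g) g) ΨW)) +
      (rep 3 w (nxt (avC w J' θ' pz g) ΨNW) + rep 3 w (nxt (avC w J' θ' pz gW) ΨN)) := by
  rw [E1_avg hf hθ hc, cm_ins_of2 h1, cm_ins_of h2, cm_ins_of h3, cm_ins_of h4]

/-- The plain version: `Ψ = (1/2) Δa Δf`. -/
theorem E1_rep_one (hf : ∀ z ∈ J', Mp (pz z) f) (hθ : ∑ m ∈ J, θ m = 1) (hc : ∀ z ∈ J', ∀ m ∈ J, Crs (pz z) (pm m)) :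
    ∑ z ∈ J', θ' z * DX (pz z) w g [[gW], [g]] [f] =
      (rep 4 w (nxt (avC w J θ pm g) (nxt (avC w J' θ' pz g) (Q2 (fun _ _ => 1) gW f))) +
        rep 3 w (nxt (∑ z ∈ J', θ' z • cC w (pz z) (avC w J θ pm g) g) (Q2 (fun _ _ => 1) gW f))) +
      (rep 3 w (nxt (avC w J' θ' pz g) (Q2 (fun _ _ => 1) (avN w J θ pm g gW) f)) +
        rep 3 w (nxt (avC w J' θ' pz gW) (Q2 (fun _ _ => 1) (avN w J θ pm g g) f))) :=
  E1_rep hf hθ hc (fun _ _ => rep_Q2_one _ _ _) (fun _ => rep_Q2_one _ _ _) (fun _ => rep_Q2_one _ _ _)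
    fun _ => rep_Q2_one _ _ _

end Avg

end

end Pool.W7d29a1.C0
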