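import Pool.Agent.W_7d29a1_C0.Mod92

/-!
MP_7d29a1_pr, [CURV0]: THE MODEL, second file (helper92). Measurability, bounds and integrability of the objects of `Mod92`, and the
Minkowski step in the language of `xm`.
-/

set_option autoImplicit false

namespace Pool.Agent.W_7d29a1_C0.Mod92

open Finset MeasureTheory Pool.Agent.W_7d29a1_F Pool.Agent.W_7d29a1_X Pool.Agent.W_7d29a1_H
open Pool.Agent.W_7d29a1_HS (wd)
open Pool.Agent.W_7d29a1_Z74 (ZJ)
open Pool.W7d29a1.C0 (gz gm lse gz_pos gz_ne gm_mono gm_const gm_nonneg)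
open Pool.W7d29a1.C0.VT31

noncomputable section

/-! ### Finite Gibbs measures which depend on a parameter -/

section gen

variable {Ω : Type*} [MeasurableSpace Ω] {X : Type*} [Fintype X] [Nonempty X] {Y : Type*} [DecidableEq Y]

omit [Nonempty X] in
theorem meas_gz {w : Ω → X → ℝ} (hw : ∀ x, Measurable fun ω => w ω x) : Measurable fun ω => gz (w ω) := by
  unfold gz
  exact Finset.measurable_fun_sum _ fun x _ => (hw x).exp

omit [Nonempty X] in
theorem meas_gm {w f : Ω → X → ℝ} (hw : ∀ x, Measurable fun ω => w ω x) (hf : ∀ x, Measurable fun ω => f ω x) :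
    Measurable fun ω => gm (w ω) (f ω) := by
  unfold gm
  exact (Finset.measurable_fun_sum _ fun x _ => (hw x).exp.mul (hf x)).div (meas_gz hw)

omit [Nonempty X] in
theorem meas_cE {w f : Ω → X → ℝ} (hw : ∀ x, Measurable fun ω => w ω x) (hf : ∀ x, Measurable fun ω => f ω x) (p : X → Y) (x : X) :
    Measurable fun ω => cE (w ω) p (f ω) x := by
  unfold cE fz
  refine Measurable.div (Finset.measurable_fun_sum _ fun x' _ => ?_) (Finset.measurable_fun_sum _ fun x' _ => ?_)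
  · split_ifs
    · exact (hw x').exp.mul (hf x')
    · exact measurable_const
  · split_ifs
    · exact (hw x').exp
    · exact measurable_const

omit [Nonempty X] in
theorem meas_cC {w f g : Ω → X → ℝ} (hw : ∀ x, Measurable fun ω => w ω x) (hf : ∀ x, Measurable fun ω => f ω x)
    (hg : ∀ x, Measurable fun ω => g ω x) (p : X → Y) (x : X) : Measurable fun ω => cC (w ω) p (f ω) (g ω) x := by
  unfold cC
  exact (meas_cE hw (fun x => (hf x).mul (hg x)) p x).sub ((meas_cE hw hf p x).mul (meas_cE hw hg p x))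

omit [Nonempty X] in
theorem meas_cV {w f : Ω → X → ℝ} (hw : ∀ x, Measurable fun ω => w ω x) (hf : ∀ x, Measurable fun ω => f ω x) (p : X → Y) (x : X) :
    Measurable fun ω => cV (w ω) p (f ω) x := meas_cC hw hf hf p x

omit [Nonempty X] in
theorem meas_gc {w f g : Ω → X → ℝ} (hw : ∀ x, Measurable fun ω => w ω x) (hf : ∀ x, Measurable fun ω => f ω x)
    (hg : ∀ x, Measurable fun ω => g ω x) : Measurable fun ω => gc (w ω) (f ω) (g ω) := by
  unfold gc
  exact (meas_gm hw fun x => (hf x).mul (hg x)).sub ((meas_gm hw hf).mul (meas_gm hw hg))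

omit [Nonempty X] in
theorem meas_gv {w f : Ω → X → ℝ} (hw : ∀ x, Measurable fun ω => w ω x) (hf : ∀ x, Measurable fun ω => f ω x) :
    Measurable fun ω => gv (w ω) (f ω) := meas_gc hw hf hf

theorem abs_cE_le (w : X → ℝ) (p : X → Y) {f : X → ℝ} {M : ℝ} (hf : ∀ x, |f x| ≤ M) (x : X) : |cE w p f x| ≤ M := by
  rw [abs_le]
  have h1 : cE w p (fun _ => M) = fun _ => M := cE_of_meas w fun _ _ _ => rfl
  have h2 : cE w p (fun _ => -M) = fun _ => -M := cE_of_meas w fun _ _ _ => rfl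
  constructor
  · have h3 := cE_mono w p (f := fun _ => -M) (g := f) (fun x => (abs_le.1 (hf x)).1) x
    rwa [h2] at h3
  · have h3 := cE_mono w p (f := f) (g := fun _ => M) (fun x => (abs_le.1 (hf x)).2) x
    rwa [h1] at h3

theorem cV_le_sq (w : X → ℝ) (p : X → Y) {f : X → ℝ} {M : ℝ} (hf : ∀ x, |f x| ≤ M) (x : X) : cV w p f x ≤ M ^ 2 := by
  have h1 : cE w p (f * f) x ≤ M ^ 2 := by
    have h2 : ∀ x, (f * f) x ≤ (fun _ : X => M ^ 2) x := fun x => by
      rw [Pi.mul_apply, ← sq, ← sq_abs]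
      exact pow_le_pow_left₀ (abs_nonneg _) (hf x) 2
    have h3 := cE_mono w p h2 x
    have h4 : cE w p (fun _ => M ^ 2) = fun _ => M ^ 2 := cE_of_meas w fun _ _ _ => rfl
    rwa [h4] at h3
  have h5 : cV w p f x = cE w p (f * f) x - cE w p f x * cE w p f x := rfl
  rw [h5]
  nlinarith [mul_self_nonneg (cE w p f x)]

theorem abs_cV_le (w : X → ℝ) (p : X → Y) {f : X → ℝ} {M : ℝ} (hf : ∀ x, |f x| ≤ M) (x : X) : |cV w p f x| ≤ M ^ 2 := by
  rw [abs_of_nonneg (cV_nonneg w p f x)]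
  exact cV_le_sq w p hf x

theorem gv_le_sq (w : X → ℝ) {f : X → ℝ} {M : ℝ} (hf : ∀ x, |f x| ≤ M) : gv w f ≤ M ^ 2 := by
  have h := cV_le_sq w (fun _ : X => ()) hf (Classical.arbitrary X)
  rwa [gv_eq_cV] at h

theorem abs_gv_le (w : X → ℝ) {f : X → ℝ} {M : ℝ} (hf : ∀ x, |f x| ≤ M) : |gv w f| ≤ M ^ 2 := by
  rw [abs_of_nonneg (gv_nonneg w f)]
  exact gv_le_sq w hf

theorem abs_gc_le_mul (w : X → ℝ) {f g : X → ℝ} {M M' : ℝ} (hf : ∀ x, |f x| ≤ M) (hg : ∀ x, |g x| ≤ M') :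
    |gc w f g| ≤ M * M' := by
  have hM : 0 ≤ M := (abs_nonneg _).trans (hf (Classical.arbitrary X))
  have hM' : 0 ≤ M' := (abs_nonneg _).trans (hg (Classical.arbitrary X))
  refine (abs_gc_le w f g).trans ?_
  refine mul_le_mul ?_ ?_ (Real.sqrt_nonneg _) hM
  · exact Real.sqrt_le_iff.2 ⟨hM, gv_le_sq w hf⟩
  · exact Real.sqrt_le_iff.2 ⟨hM', gv_le_sq w hg⟩

end gen

/-! ### The model -/

variable {μ : Measure ℝ} {s : ℝ} {N : ℕ} {Q : Finset (Finset ℕ)}

theorem meas_pth (t : ℕ) (S : Finset ℕ) : Measurable fun η : Env => pth μ s η t S := by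
  unfold pth
  exact measurable_const.mul (Finset.measurable_fun_prod _ fun i _ => (measurable_pi_apply _).exp)

theorem meas_lw (S : Px Q) : Measurable fun η : Env => lw μ s η N Q S := (meas_pth N S.1).log

theorem meas_ZJ (a : Pt) (m n : ℕ) (j y : ℤ) : Measurable fun η : Env => ZJ μ s η a m n j y := by
  unfold ZJ
  exact Finset.measurable_fun_sum _ fun z _ => (measurable_W _ _ _).mul (measurable_W _ _ _)

theorem meas_lk (c l k : ℕ) (v x y : ℤ) : Measurable fun η : Env => lk μ s η c l k v x y :=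
  (meas_ZJ _ _ _ _ _).log.sub (measurable_W _ _ _).log

theorem meas_cl (B : ℝ) : Measurable (cl B) := measurable_const.max (measurable_const.min measurable_id)

theorem meas_gw (δ B : ℝ) (a : ℤ) (c l k : ℕ) (x y : ℤ) : Measurable fun η : Env => gw μ s η δ B a c l k x y := by
  unfold gw
  split_ifs
  · exact measurable_const.mul ((meas_cl B).comp (meas_lk c l k (-a) x y))
  · exact measurable_const

theorem meas_gj (δ B : ℝ) (b j : ℕ) (a : ℤ) (S : Px Q) : Measurable fun η : Env => gj μ s η δ B b j a S :=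
  meas_gw _ _ _ _ _ _ _ _

/-- Measurability on the outer space: every section is measurable. -/
theorem meas_om {α : Type*} [MeasurableSpace α] {Φ : Env × Finset ℕ → α} (h : ∀ A, Measurable fun η => Φ (η, A)) :
    Measurable Φ := by
  intro U hU
  have e : Φ ⁻¹' U = ⋃ A : Finset ℕ, ((fun η => Φ (η, A)) ⁻¹' U) ×ˢ {A} := by
    ext ⟨η, A⟩
    simp
  rw [e]
  exact MeasurableSet.iUnion fun A => ((h A) hU).prod trivial

theorem meas_wm (S : Px Q) : Measurable fun ω => wm μ s N Q ω S := (meas_lw S).comp measurable_fst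

theorem meas_gg (δ B : ℝ) (b j : ℕ) (S : Px Q) : Measurable fun ω => gg μ s Q δ B b ω j S :=
  meas_om fun A => meas_gj δ B b j (sg A j) S

theorem meas_wt (δ B : ℝ) (b j : ℕ) (t : ℝ) (S : Px Q) :
    Measurable fun ω : Env × Finset ℕ => wt μ s ω.1 N Q δ B b j (sg ω.2 j) t S := by
  refine meas_om fun A => ?_
  have h : Measurable fun η : Env => lw μ s η N Q S + (t - (sg A j : ℝ)) * gj μ s η δ B b j (sg A j) S :=
    (meas_lw S).add ((meas_gj δ B b j (sg A j) S).const_mul _)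
  exact h

theorem meas_sr (j : ℕ) : Measurable fun ω : Env × Finset ℕ => sr ω.2 j :=
  meas_om fun A => (measurable_const : Measurable fun _ : Env => sr A j)

theorem meas_Fm (δ B : ℝ) (b c d j : ℕ) (S : Px Q) : Measurable fun ω => Fm μ s N Q δ B b c d ω j S :=
  meas_cE meas_wm (meas_gg δ B b j) _ S

theorem meas_Vm (δ B : ℝ) (b c d j : ℕ) (S : Px Q) : Measurable fun ω => Vm μ s N Q δ B b c d ω j S :=
  meas_cV meas_wm (meas_gg δ B b j) _ S

theorem Zm_apply (δ B : ℝ) (b : ℕ) (R : Finset ℕ) (c d : ℕ) (ω : Env × Finset ℕ) (S : Px Q) : Zm μ s N Q δ B b R c d ω S =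
    ∑ j ∈ Rw R c d, (Fm μ s N Q δ B b c d ω j S - sr ω.2 j / 3 * Vm μ s N Q δ B b c d ω j S) := by
  unfold Zm Zb
  rw [Finset.sum_apply]
  rfl

theorem meas_Zm (δ B : ℝ) (b : ℕ) (R : Finset ℕ) (c d : ℕ) (S : Px Q) : Measurable fun ω => Zm μ s N Q δ B b R c d ω S := by
  simp only [Zm_apply]
  exact Finset.measurable_fun_sum _ fun j _ =>
    (meas_Fm δ B b c d j S).sub (((meas_sr j).div_const 3).mul (meas_Vm δ B b c d j S))

theorem Gam_apply (δ B : ℝ) (b : ℕ) (R : Finset ℕ) (c e f d : ℕ) (ω : Env × Finset ℕ) (S : Px Q) :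
    Gam (wm μ s N Q ω) (pJ c d) (pJ e f) (Rw R e f) (sr ω.2) (gg μ s Q δ B b ω) S =
      ∑ j ∈ Rw R e f, sr ω.2 j / 3 * cV (wm μ s N Q ω) (pJ c d) (Fm μ s N Q δ B b e f ω j) S := by
  unfold Gam
  rw [Finset.sum_apply]
  rfl

theorem meas_Gm (δ B : ℝ) (b : ℕ) (R : Finset ℕ) (c e d : ℕ) (S : Px Q) : Measurable fun ω => Gm μ s N Q δ B b R c e d ω S := by
  unfold Gm
  simp only [Pi.add_apply, Gam_apply]
  exact (Finset.measurable_fun_sum _ fun j _ => ((meas_sr j).div_const 3).mul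
    (meas_cV meas_wm (fun S => meas_Fm δ B b c e j S) _ S)).add (Finset.measurable_fun_sum _ fun j _ =>
      ((meas_sr j).div_const 3).mul (meas_cV meas_wm (fun S => meas_Fm δ B b e d j S) _ S))

variable [Nonempty (Px Q)]

omit [Nonempty (Px Q)] in
theorem abs_sr (A : Finset ℕ) (j : ℕ) : |sr A j| = 1 := abs_sg A j

theorem abs_Fm {δ B : ℝ} (hB : 0 ≤ B) (b c d : ℕ) (ω : Env × Finset ℕ) (j : ℕ) (S : Px Q) : |Fm μ s N Q δ B b c d ω j S| ≤ B / 2 :=
  abs_cE_le _ _ (abs_gg hB b ω j) S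

theorem abs_Vm {δ B : ℝ} (hB : 0 ≤ B) (b c d : ℕ) (ω : Env × Finset ℕ) (j : ℕ) (S : Px Q) :
    |Vm μ s N Q δ B b c d ω j S| ≤ (B / 2) ^ 2 := abs_cV_le _ _ (abs_gg hB b ω j) S

/-- The crude bound of the block functional. -/
theorem abs_Zm {δ B : ℝ} (hB : 0 ≤ B) (b : ℕ) (R : Finset ℕ) (c d : ℕ) (ω : Env × Finset ℕ) (S : Px Q) :
    |Zm μ s N Q δ B b R c d ω S| ≤ (Rw R c d).card * (B / 2 + (B / 2) ^ 2) := by
  rw [Zm_apply]
  refine (abs_sum_le_sum_abs _ _).trans ?_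
  rw [← nsmul_eq_mul]
  refine sum_le_card_nsmul _ _ _ fun j _ => ?_
  have h1 := abs_Fm (μ := μ) (s := s) (N := N) (δ := δ) hB b c d ω j S
  have h2 := abs_Vm (μ := μ) (s := s) (N := N) (δ := δ) hB b c d ω j S
  have h3 : |sr ω.2 j / 3 * Vm μ s N Q δ B b c d ω j S| ≤ (B / 2) ^ 2 := by
    rw [abs_mul, abs_div, abs_sr]
    have : |(3 : ℝ)| = 3 := by norm_num
    rw [this]
    nlinarith [abs_nonneg (Vm μ s N Q δ B b c d ω j S)]
  calc |Fm μ s N Q δ B b c d ω j S - sr ω.2 j / 3 * Vm μ s N Q δ B b c d ω j S|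
      ≤ |Fm μ s N Q δ B b c d ω j S| + |sr ω.2 j / 3 * Vm μ s N Q δ B b c d ω j S| := abs_sub _ _
    _ ≤ B / 2 + (B / 2) ^ 2 := add_le_add h1 h3

/-- The crude bound of the loss. -/
theorem abs_Gm {δ B : ℝ} (hB : 0 ≤ B) (b : ℕ) (R : Finset ℕ) (c e d : ℕ) (ω : Env × Finset ℕ) (S : Px Q) :
    |Gm μ s N Q δ B b R c e d ω S| ≤ ((Rw R c e).card + (Rw R e d).card) * (B / 2) ^ 2 := by
  have key : ∀ e f : ℕ, |Gam (wm μ s N Q ω) (pJ c d) (pJ e f) (Rw R e f) (sr ω.2) (gg μ s Q δ B b ω) S| ≤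
      (Rw R e f).card * (B / 2) ^ 2 := by
    intro e f
    rw [Gam_apply]
    refine (abs_sum_le_sum_abs _ _).trans ?_
    rw [← nsmul_eq_mul]
    refine sum_le_card_nsmul _ _ _ fun j _ => ?_
    have h2 := abs_cV_le (wm μ s N Q ω) (pJ c d) (abs_Fm (μ := μ) (s := s) (N := N) (δ := δ) hB b e f ω j) S
    rw [abs_mul, abs_div, abs_sr]
    have : |(3 : ℝ)| = 3 := by norm_num
    rw [this]
    nlinarith [abs_nonneg (cV (wm μ s N Q ω) (pJ c d) (Fm μ s N Q δ B b e f ω j) S)]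
  unfold Gm
  rw [Pi.add_apply, add_mul]
  exact (abs_add_le _ _).trans (add_le_add (key c e) (key e d))

/-- Bounded measurable functionals of the environment and the signs are integrable. -/
theorem int_bdd [IsProbabilityMeasure μ] {Φ : Env × Finset ℕ → ℝ} (hm : Measurable Φ) {M : ℝ} (hb : ∀ ω, |Φ ω| ≤ M) :
    Integrable Φ (Pm μ N) :=
  (integrable_const M).mono' hm.aestronglyMeasurable (Filter.Eventually.of_forall fun ω => by
    rw [Real.norm_eq_abs]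
    exact hb ω)

theorem int_gvZ [IsProbabilityMeasure μ] {δ B : ℝ} (hB : 0 ≤ B) (b : ℕ) (R : Finset ℕ) (c d : ℕ) :
    Integrable (fun ω => gv (wm μ s N Q ω) (Zm μ s N Q δ B b R c d ω)) (Pm μ N) :=
  int_bdd (meas_gv meas_wm fun S => meas_Zm δ B b R c d S) fun ω => abs_gv_le _ (abs_Zm hB b R c d ω)

theorem int_gcZ [IsProbabilityMeasure μ] {δ B : ℝ} (hB : 0 ≤ B) (b : ℕ) (R : Finset ℕ) (c d c' d' : ℕ) :
    Integrable (fun ω => gc (wm μ s N Q ω) (Zm μ s N Q δ B b R c d ω) (Zm μ s N Q δ B b R c' d' ω)) (Pm μ N) :=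
  int_bdd (meas_gc meas_wm (fun S => meas_Zm δ B b R c d S) fun S => meas_Zm δ B b R c' d' S) fun ω =>
    abs_gc_le_mul _ (abs_Zm hB b R c d ω) (abs_Zm hB b R c' d' ω)

theorem int_gvG [IsProbabilityMeasure μ] {δ B : ℝ} (hB : 0 ≤ B) (b : ℕ) (R : Finset ℕ) (c e d : ℕ) :
    Integrable (fun ω => gv (wm μ s N Q ω) (Gm μ s N Q δ B b R c e d ω)) (Pm μ N) :=
  int_bdd (meas_gv meas_wm fun S => meas_Gm δ B b R c e d S) fun ω => abs_gv_le _ (abs_Gm hB b R c e d ω)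

theorem xm_nonneg (δ B : ℝ) (b : ℕ) (R : Finset ℕ) (c d : ℕ) : 0 ≤ xm μ s N Q δ B b R c d :=
  integral_nonneg fun _ => gv_nonneg _ _

/-- **The Minkowski step** of the recursion. -/
theorem xm_step [IsProbabilityMeasure μ] {δ B : ℝ} (hB : 0 ≤ B) (b : ℕ) (R : Finset ℕ) {c e d : ℕ} (hce : c ≤ e) (hed : e ≤ d) :
    Real.sqrt (xm μ s N Q δ B b R c d) ≤ Real.sqrt (xm μ s N Q δ B b R c e + xm μ s N Q δ B b R e d +
        2 * ∫ ω, gc (wm μ s N Q ω) (Zm μ s N Q δ B b R c e ω) (Zm μ s N Q δ B b R e d ω) ∂(Pm μ N)) +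
      Real.sqrt (∫ ω, gv (wm μ s N Q ω) (Gm μ s N Q δ B b R c e d ω) ∂(Pm μ N)) :=
  vt_step (fun ω => Zm_merge δ B b R hce hed ω) (int_gvZ hB b R c e) (int_gvZ hB b R e d) (int_gcZ hB b R c e e d)
    (meas_gv meas_wm fun S => meas_cE meas_wm
      (fun S => (meas_Zm δ B b R c e S).add (meas_Zm δ B b R e d S)) _ S).aestronglyMeasurable (int_gvG hB b R c e d)

/-- The change of base: `x (b')` against `x (b)` and the variance of the difference. -/
theorem xm_base [IsProbabilityMeasure μ] {δ B : ℝ} (hB : 0 ≤ B) (b b' : ℕ) (R : Finset ℕ) (c d : ℕ) :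
    Real.sqrt (xm μ s N Q δ B b' R c d) ≤ Real.sqrt (xm μ s N Q δ B b R c d) +
      Real.sqrt (∫ ω, gv (wm μ s N Q ω) (Zm μ s N Q δ B b R c d ω - Zm μ s N Q δ B b' R c d ω) ∂(Pm μ N)) := by
  have h := mink (μ := Pm μ N) (W := wm μ s N Q) (A := Zm μ s N Q δ B b R c d)
    (B := fun ω => Zm μ s N Q δ B b R c d ω - Zm μ s N Q δ B b' R c d ω) (int_gvZ hB b R c d)
    (int_bdd (meas_gv meas_wm fun S => (meas_Zm δ B b R c d S).sub (meas_Zm δ B b' R c d S)) fun ω =>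
      abs_gv_le _ fun S => (abs_sub _ _).trans (add_le_add (abs_Zm hB b R c d ω S) (abs_Zm hB b' R c d ω S)))
  have e : (fun ω => gv (wm μ s N Q ω) (Zm μ s N Q δ B b R c d ω - (Zm μ s N Q δ B b R c d ω - Zm μ s N Q δ B b' R c d ω))) =
      fun ω => gv (wm μ s N Q ω) (Zm μ s N Q δ B b' R c d ω) := by
    funext ω
    rw [sub_sub_cancel]
  rw [e] at h
  exact h

/-! ### The average over the pinned ends -/

/-- The mean variance of the block functional, averaged over the pinned ends `(N, y)`, `y ∈ ys`. -/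
def xa (μ : Measure ℝ) (s : ℝ) (N : ℕ) (ys : Finset ℕ) (δ B : ℝ) (b : ℕ) (R : Finset ℕ) (c d : ℕ) : ℝ :=
  (ys.card : ℝ)⁻¹ * ∑ y ∈ ys, xm μ s N (Pn N y) δ B b R c d

/-- Minkowski for a finite average. -/
theorem avg_sqrt {ι : Type*} (I : Finset ι) {x A g : ι → ℝ} (hx : ∀ i, 0 ≤ x i) (hA : ∀ i ∈ I, 0 ≤ A i) (hg : ∀ i, 0 ≤ g i)
    (h : ∀ i ∈ I, Real.sqrt (x i) ≤ Real.sqrt (A i) + Real.sqrt (g i)) {c : ℝ} (hc : 0 ≤ c) :
    Real.sqrt (c * ∑ i ∈ I, x i) ≤ Real.sqrt (c * ∑ i ∈ I, A i) + Real.sqrt (c * ∑ i ∈ I, g i) := by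
  rw [Real.sqrt_mul hc, Real.sqrt_mul hc, Real.sqrt_mul hc, ← mul_add]
  refine mul_le_mul_of_nonneg_left ?_ (Real.sqrt_nonneg c)
  have h0 : ∀ i ∈ I, x i ≤ A i + 2 * (Real.sqrt (A i) * Real.sqrt (g i)) + g i := fun i hi => by
    have h1 := h i hi
    have h2 : x i = Real.sqrt (x i) ^ 2 := (Real.sq_sqrt (hx i)).symm
    have h3 := Real.sq_sqrt (hA i hi)
    have h4 := Real.sq_sqrt (hg i)
    rw [h2]
    calc Real.sqrt (x i) ^ 2 ≤ (Real.sqrt (A i) + Real.sqrt (g i)) ^ 2 := pow_le_pow_left₀ (Real.sqrt_nonneg _) h1 2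
      _ = A i + 2 * (Real.sqrt (A i) * Real.sqrt (g i)) + g i := by
        rw [add_sq, h3, h4]
        ring
  have h5 : ∑ i ∈ I, x i ≤ ∑ i ∈ I, A i + 2 * ∑ i ∈ I, Real.sqrt (A i) * Real.sqrt (g i) + ∑ i ∈ I, g i := by
    rw [mul_sum, ← sum_add_distrib, ← sum_add_distrib]
    exact sum_le_sum h0
  have h6 : ∑ i ∈ I, Real.sqrt (A i) * Real.sqrt (g i) ≤ Real.sqrt (∑ i ∈ I, A i) * Real.sqrt (∑ i ∈ I, g i) := by
    have h7 := Finset.sum_mul_sq_le_sq_mul_sq I (fun i => Real.sqrt (A i)) fun i => Real.sqrt (g i)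
    rw [sum_congr rfl fun i hi => Real.sq_sqrt (hA i hi), sum_congr rfl fun i _ => Real.sq_sqrt (hg i)] at h7
    rw [← Real.sqrt_mul (sum_nonneg hA)]
    exact Real.le_sqrt_of_sq_le h7
  refine Real.sqrt_le_iff.2 ⟨add_nonneg (Real.sqrt_nonneg _) (Real.sqrt_nonneg _), ?_⟩
  rw [add_sq, Real.sq_sqrt (sum_nonneg hA), Real.sq_sqrt (sum_nonneg fun i _ => hg i)]
  linarith

end

end Pool.Agent.W_7d29a1_C0.Mod92
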