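import Pool.Agent.W_7d29a1_C0.Blk86
import Pool.Agent.W_7d29a1_C0.Mod92B

/-!
C0, helper3: THE AMPLIFIED ONE PLACE PRICE. `Hy c d A x`: the mass of the conditional replica (given the path outside of the block
`[c, d)`) for the pair event `A` is larger than `exp (- x)`. This event of the environment and of ONE path sees only the rows `(c, d]`
(`hy_off`). If the pair event produces near ties at a place (`Pl` of `Blk86`), then `Hy` has the price of the place, given every event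
which does not see the rows of the place (`amp`).
-/

set_option autoImplicit false

namespace Pool.Agent.W_7d29a1_C0.P3

open MeasureTheory ProbabilityTheory Filter Topology Finset
open Pool.Agent.W_7d29a1_F Pool.Agent.W_7d29a1_X Pool.Agent.W_7d29a1_h4g Pool.Agent.W_7d29a1_H
open Pool.Agent.W_7d29a1_HS (In wd md)
open Pool.Agent.W_7d29a1_HZ Pool.Agent.W_7d29a1_HZ.R72 Pool.Agent.W_7d29a1_Z.Asm72
open Pool.Agent.W_7d29a1_HZ.Z86
open Pool.Agent.W_7d29a1_C0.P86
open Pool.Agent.W_7d29a1_C0.Mod92 (Px Pn lw ps pJ ne_Pn ps_Pn pos_card meas_cE meas_lw)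
open Pool.Agent.W_7d29a1_C0.Blk18 (spl blk18_set full_Pn gm_Pn pos_spl_mid)
open Pool.W7d29a1.C0.VT31 (Mp cE)
open scoped ENNReal

variable {μ : Measure ℝ} {s : ℝ} {N : ℕ}

/-! ### The rows which a conditional mass sees -/

/-- The pinned polymer of length `m` sees the rows `1, .., m`. -/
theorem gp_rows {η η' : Env} {m : ℕ} (h : ∀ q : Pt, 0 < q.1 → q.1 ≤ m → η q = η' q) (y : ℤ) (T : Finset ℕ) :
    gp μ s η m y T = gp μ s η' m y T := by
  have h1 : pth μ s η m T = pth μ s η' m T := by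
    unfold pth
    congr 1
    refine prod_congr rfl fun i hi => ?_
    rw [mem_range] at hi
    rw [h ((i : ℤ) + 1, pos T (i + 1)) (by show (0 : ℤ) < (i : ℤ) + 1; omega) (by show (i : ℤ) + 1 ≤ (m : ℤ); omega)]
  have h2 : W μ s η 0 m y = W μ s η' 0 m y :=
    Pool.Agent.W_7d29a1_HZ.Z74.W_rows s 0 m y fun q h3 h4 => h q h3 (by simpa using h4)
  unfold gp
  rw [h1, h2]

/-- A conditional mass sees the rows of its block. -/
theorem mc_rows {c d y : ℕ} (hcd : c ≤ d) (hd : d ≤ N) (A : Finset ℕ → Finset ℕ → Prop) {η η' : Env}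
    (h : ∀ q : Pt, (c : ℤ) < q.1 → q.1 ≤ d → η q = η' q) (S : Finset ℕ) : mc μ s N y c d A η S = mc μ s N y c d A η' S := by
  classical
  unfold mc
  by_cases hS : S ∈ Pn N y
  · rw [dif_pos hS, dif_pos hS]
    have : Nonempty (Px (Pn N y)) := ⟨⟨S, hS⟩⟩
    rw [blk18_set (full_Pn N y) η hcd hd ⟨S, hS⟩ (fun S' => if A S S' then 1 else 0),
      blk18_set (full_Pn N y) η' hcd hd ⟨S, hS⟩ (fun S' => if A S S' then 1 else 0)]
    refine sum_congr rfl fun T _ => ?_
    congr 1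
    refine gp_rows (fun q h1 h2 => ?_) _ _
    show η (q + ((c : ℤ), ps (⟨S, hS⟩ : Px (Pn N y)) c)) = η' (q + ((c : ℤ), ps (⟨S, hS⟩ : Px (Pn N y)) c))
    refine h _ ?_ ?_
    · show (c : ℤ) < q.1 + (c : ℤ)
      omega
    · show q.1 + (c : ℤ) ≤ (d : ℤ)
      have : ((d - c : ℕ) : ℤ) = (d : ℤ) - c := by omega
      rw [this] at h2
      omega
  · rw [dif_neg hS, dif_neg hS]

theorem meas_mc {c d y : ℕ} (A : Finset ℕ → Finset ℕ → Prop) (S : Finset ℕ) : Measurable fun η : Env => mc μ s N y c d A η S := by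
  classical
  unfold mc
  by_cases hS : S ∈ Pn N y
  · simp only [dif_pos hS]
    have : Nonempty (Px (Pn N y)) := ⟨⟨S, hS⟩⟩
    have h := meas_cE (Ω := Env) (X := Px (Pn N y)) (w := fun η => lw μ s η N (Pn N y))
      (f := fun _ S' => if A S S'.1 then (1 : ℝ) else 0) (fun x => meas_lw x) (fun x => measurable_const) (pJ c d) ⟨S, hS⟩
    exact h
  · simp only [dif_neg hS]
    exact measurable_const

/-! ### Masses which are not very small -/

/-- The mass of the conditional replica is not very small. -/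
def Hy (μ : Measure ℝ) (s : ℝ) (N y c d : ℕ) (A : Finset ℕ → Finset ℕ → Prop) (x : ℝ) (η : Env) (S : Finset ℕ) : Prop :=
  Real.exp (-x) < mc μ s N y c d A η S

theorem hy_ms {c d y : ℕ} (A : Finset ℕ → Finset ℕ → Prop) (x : ℝ) : Ms (Hy μ s N y c d A x) :=
  fun S => measurableSet_lt measurable_const (meas_mc A S)

theorem hy_off {c d y : ℕ} (hcd : c ≤ d) (hd : d ≤ N) (A : Finset ℕ → Finset ℕ → Prop) (x : ℝ) {J : Finset ℕ}
    (hJ : ∀ j ∈ J, j ≤ c ∨ d < j) : OffRows J (Hy μ s N y c d A x) := by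
  intro η η' S h
  unfold Hy
  rw [mc_rows hcd hd A (fun q h1 h2 => h q fun hq => ?_) S]
  have h3 := hJ _ hq.2
  have h4 : ((q.1.toNat : ℕ) : ℤ) = q.1 := Int.toNat_of_nonneg hq.1
  omega

theorem hy_mono_x {c d y : ℕ} {A : Finset ℕ → Finset ℕ → Prop} {x x' : ℝ} (hx : x ≤ x') {η : Env} {S : Finset ℕ}
    (h : Hy μ s N y c d A x η S) : Hy μ s N y c d A x' η S :=
  lt_of_le_of_lt (Real.exp_le_exp.2 (by linarith)) h

theorem mc_mono {c d y : ℕ} {A A' : Finset ℕ → Finset ℕ → Prop} {η : Env} {S : Finset ℕ}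
    (h : ∀ S' : Finset ℕ, S' \ Ico c d = S \ Ico c d → (S' ∩ Ico c d).card = (S ∩ Ico c d).card → A S S' → A' S S') :
    mc μ s N y c d A η S ≤ mc μ s N y c d A' η S := by
  classical
  unfold mc
  by_cases hS : S ∈ Pn N y
  · rw [dif_pos hS, dif_pos hS]
    have : Nonempty (Px (Pn N y)) := ⟨⟨S, hS⟩⟩
    unfold cE
    refine div_le_div_of_nonneg_right (sum_le_sum fun x' _ => ?_) (Pool.W7d29a1.C0.VT31.fz_pos _ _ _).le
    by_cases e : pJ c d x' = pJ c d (⟨S, hS⟩ : Px (Pn N y))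
    · rw [if_pos e, if_pos e]
      refine mul_le_mul_of_nonneg_left ?_ (Real.exp_pos _).le
      beta_reduce
      by_cases hA : A S x'.1
      · rw [if_pos hA, if_pos (h x'.1 (congrArg Prod.fst e) (congrArg Prod.snd e) hA)]
      · rw [if_neg hA]
        split_ifs <;> norm_num
    · rw [if_neg e, if_neg e]
  · rw [dif_neg hS, dif_neg hS]

theorem hy_mono {c d y : ℕ} {A A' : Finset ℕ → Finset ℕ → Prop} {x : ℝ} {η : Env} {S : Finset ℕ}
    (h : ∀ S' : Finset ℕ, S' \ Ico c d = S \ Ico c d → (S' ∩ Ico c d).card = (S ∩ Ico c d).card → A S S' → A' S S')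
    (hA : Hy μ s N y c d A x η S) : Hy μ s N y c d A' x η S := lt_of_lt_of_le hA (mc_mono h)

/-! ### The price -/

variable [IsProbabilityMeasure μ]

omit [IsProbabilityMeasure μ] in
theorem Q1_const_mul {y : ℤ} {a : ℝ≥0∞} (ha : a ≠ ⊤) (f : Env → Finset ℕ → ℝ≥0∞) :
    Q1 μ s N y (fun η S => a * f η S) = a * Q1 μ s N y f := by
  unfold Q1
  rw [← lintegral_const_mul' _ _ ha]
  refine lintegral_congr fun η => ?_
  rw [mul_sum]
  exact sum_congr rfl fun S _ => by ring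

/-- The error of one place. -/
noncomputable def er (N : ℕ) (x z : ℝ) (p : ℝ≥0∞) : ℝ≥0∞ :=
  ENNReal.ofReal (Real.exp x) * (ENNReal.ofReal (Real.exp z) * p + ENNReal.ofReal (((N : ℝ) + 1) ^ 2 * Real.exp (-z)))

/-- **Off the near ties the masses are very small.** -/
theorem amp_nt {c d y : ℕ} (hy : y ≤ N) (hcd : c ≤ d) (hd : d ≤ N) {A A' : Finset ℕ → Finset ℕ → Prop} (hA : On2 c d A')
    (hAA : ∀ S S', A' S S' → A S S') {NT : Env → Finset ℕ → Prop} (hNT : Ms NT) {p : ℝ≥0∞}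
    (h2 : P2 μ s N y (fun _ => 0) (fun η S S' => A S' S ∧ ¬ NT η S') ≤ p) (x z : ℝ) :
    P1 μ s N y (fun η S => Hy μ s N y c d A' x η S ∧ ¬ NT η S) ≤ er N x z p := by
  have hn : Ms fun η S => ¬ NT η S := fun S => (hNT S).compl
  have h3 := Q1_mult (μ := μ) (s := s) (k := 1) hy (fun _ => c) (fun _ => d) (fun _ => ⟨hcd, hd⟩) (fun _ => A') (fun _ => hA)
    (fun _ => NT) (fun _ => hNT) hn z
  simp only [univ_unique, prod_const, card_singleton, pow_one, sum_const, one_smul, Fin.default_eq_zero] at h3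
  have h4 : P1 μ s N y (fun η S => ¬ NT η S ∧ ∀ _ : Fin 1, NT η S) = 0 := by
    have e : P1 μ s N y (fun η S => ¬ NT η S ∧ ∀ _ : Fin 1, NT η S) ≤ P1 μ s N y (fun _ _ => False) :=
      A12.P1_mono fun η S h => h.1 (h.2 0)
    refine le_antisymm (e.trans (le_of_eq ?_)) zero_le
    unfold P1
    exact sum_eq_zero fun S _ => by simp
  rw [h4, zero_add] at h3
  have h5 : P1 μ s N y (fun η S => Hy μ s N y c d A' x η S ∧ ¬ NT η S) =
      Q1 μ s N y (fun η S => ind (Hy μ s N y c d A' x η S ∧ ¬ NT η S)) :=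
    (Q1_ind (ms_and (hy_ms A' x) hn)).symm
  rw [h5]
  have h6 : Q1 μ s N y (fun η S => ind (Hy μ s N y c d A' x η S ∧ ¬ NT η S)) ≤
      Q1 μ s N y (fun η S => ENNReal.ofReal (Real.exp x) * (ind (¬ NT η S) * ENNReal.ofReal (mc μ s N y c d A' η S))) := by
    refine Q1_mono fun η S _ _ => ?_
    by_cases h : Hy μ s N y c d A' x η S ∧ ¬ NT η S
    · rw [ind_of h, ind_of h.2, one_mul, ← ENNReal.ofReal_mul (Real.exp_pos _).le, ← ENNReal.ofReal_one]
      refine ENNReal.ofReal_le_ofReal ?_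
      have h7 := h.1
      unfold Hy at h7
      have h8 := mul_le_mul_of_nonneg_left h7.le (Real.exp_pos x).le
      rwa [← Real.exp_add, add_neg_cancel, Real.exp_zero] at h8
    · rw [ind_not h]
      exact zero_le
  refine h6.trans ?_
  rw [Q1_const_mul ENNReal.ofReal_ne_top]
  unfold er
  refine mul_le_mul' le_rfl (h3.trans ?_)
  refine add_le_add (mul_le_mul' le_rfl ?_) le_rfl
  refine le_trans (A12.P2_mono' fun η S S' _ _ _ _ hev => ?_) h2
  exact ⟨hAA _ _ hev.1, hev.2⟩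

/-- **THE AMPLIFIED PRICE OF ONE PLACE.** -/
theorem amp {c d y : ℕ} (hy : y ≤ N) (hcd : c ≤ d) (hd : d ≤ N) {A A' : Finset ℕ → Finset ℕ → Prop} (hA : On2 c d A')
    (hAA : ∀ S S', A' S S' → A S S') {J V : Finset ℕ} {r p : ℝ≥0∞} (hP : Pl μ s N y r p A J V) (x z : ℝ)
    {F : Env → Finset ℕ → Prop} (hF : Ms F) (hFJ : OffRows J F) :
    P1 μ s N y (fun η S => F η S ∧ Hy μ s N y c d A' x η S) ≤ r * P1 μ s N y F + (p + er N x z p) := by
  obtain ⟨NT, h1, -, h3, h4⟩ := hP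
  have h5 : P1 μ s N y (fun η S => F η S ∧ Hy μ s N y c d A' x η S) ≤
      P1 μ s N y (fun η S => (F η S ∧ NT η S) ∨ (Hy μ s N y c d A' x η S ∧ ¬ NT η S)) :=
    A12.P1_mono fun η S h => by
      by_cases hn : NT η S
      · exact Or.inl ⟨h.1, hn⟩
      · exact Or.inr ⟨h.2, hn⟩
  refine h5.trans ((A12.P1_or _ _).trans ?_)
  rw [← add_assoc]
  exact add_le_add (h4 F hF hFJ) (amp_nt hy hcd hd hA hAA h1 h3 x z)

/-- The same for finitely many replicas which produce near ties at ONE place (only one of them has to be there). -/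
theorem amp_ex {ι : Type*} (I : Finset ι) {y : ℕ} (hy : y ≤ N) {c d : ι → ℕ} (hcd : ∀ i ∈ I, c i ≤ d i) (hd : ∀ i ∈ I, d i ≤ N)
    {A : Finset ℕ → Finset ℕ → Prop} {A' : ι → Finset ℕ → Finset ℕ → Prop} (hA : ∀ i ∈ I, On2 (c i) (d i) (A' i))
    (hAA : ∀ i ∈ I, ∀ S S', A' i S S' → A S S') {J V : Finset ℕ} {r p : ℝ≥0∞} (hP : Pl μ s N y r p A J V) (x z : ℝ)
    {F : Env → Finset ℕ → Prop} (hF : Ms F) (hFJ : OffRows J F) :
    P1 μ s N y (fun η S => F η S ∧ ∃ i ∈ I, Hy μ s N y (c i) (d i) (A' i) x η S) ≤ r * P1 μ s N y F + (p + I.card * er N x z p) := by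
  obtain ⟨NT, h1, -, h3, h4⟩ := hP
  have h5 : P1 μ s N y (fun η S => F η S ∧ ∃ i ∈ I, Hy μ s N y (c i) (d i) (A' i) x η S) ≤
      P1 μ s N y (fun η S => (F η S ∧ NT η S) ∨ (∃ i ∈ I, Hy μ s N y (c i) (d i) (A' i) x η S ∧ ¬ NT η S)) :=
    A12.P1_mono fun η S h => by
      by_cases hn : NT η S
      · exact Or.inl ⟨h.1, hn⟩
      · obtain ⟨i, hi, h6⟩ := h.2
        exact Or.inr ⟨i, hi, h6, hn⟩
  refine h5.trans ((A12.P1_or _ _).trans ?_)
  rw [← add_assoc]
  refine add_le_add (h4 F hF hFJ) ?_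
  refine (A12.P1_exists I _).trans ?_
  refine (sum_le_sum fun i hi => amp_nt hy (hcd i hi) (hd i hi) (hA i hi) (hAA i hi) h1 h3 x z).trans ?_
  rw [sum_const, nsmul_eq_mul]

end Pool.Agent.W_7d29a1_C0.P3
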