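import Mathlib

/-!
MP_7d29a1_pr, [CURV0] (helper92): THE ORDER OF THE SMALL EXPONENTS. `Sml P`: `P x` for all small `x > 0`. `Est P`: for all small `ι`
(kicked rows, slabs, finer windows, boxes, losses of the prices: all `N ^ (± ι)`), then for all small `β` (clipping level `N ^ β`), then
for all small `γ` (flatness of the ends of a window), for all large `m`: `P ι β γ m`. Every estimate is proved in this form, with a gain
`c₁` which does not depend on `ι`, `β`, `γ`; finitely many of them hold together (`Est.and`, `Est.exists`).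
-/

set_option autoImplicit false

namespace Pool.Agent.W_7d29a1_C0.Par92

open Filter

/-- For all small positive `x`. -/
def Sml (P : ℝ → Prop) : Prop := ∃ x₀ : ℝ, 0 < x₀ ∧ ∀ x : ℝ, 0 < x → x ≤ x₀ → P x

theorem Sml.mono {P Q : ℝ → Prop} (h : Sml P) (k : ∀ x : ℝ, 0 < x → P x → Q x) : Sml Q := by
  obtain ⟨x₀, h0, h1⟩ := h
  exact ⟨x₀, h0, fun x hx hx' => k x hx (h1 x hx hx')⟩

theorem Sml.and {P Q : ℝ → Prop} (h : Sml P) (k : Sml Q) : Sml fun x => P x ∧ Q x := by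
  obtain ⟨x₀, h0, h1⟩ := h
  obtain ⟨y₀, k0, k1⟩ := k
  exact ⟨min x₀ y₀, lt_min h0 k0, fun x hx hx' => ⟨h1 x hx (hx'.trans (min_le_left _ _)), k1 x hx (hx'.trans (min_le_right _ _))⟩⟩

theorem Sml.of {P : ℝ → Prop} (h : ∀ x : ℝ, 0 < x → P x) : Sml P := ⟨1, one_pos, fun x hx _ => h x hx⟩

theorem Sml.le {a : ℝ} (ha : 0 < a) : Sml fun x => x ≤ a := ⟨a, ha, fun _ _ h => h⟩

theorem Sml.lt {a : ℝ} (ha : 0 < a) : Sml fun x => x < a := ⟨a / 2, by positivity, fun _ _ h => by linarith⟩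

theorem Sml.exists {P : ℝ → Prop} (h : Sml P) : ∃ x : ℝ, 0 < x ∧ P x := by
  obtain ⟨x₀, h0, h1⟩ := h
  exact ⟨x₀, h0, h1 x₀ h0 le_rfl⟩

/-- For all small `x ≤ a`. -/
theorem Sml.exists_le {P : ℝ → Prop} (h : Sml P) {a : ℝ} (ha : 0 < a) : ∃ x : ℝ, 0 < x ∧ x ≤ a ∧ P x := by
  obtain ⟨x, hx, h1, h2⟩ := (h.and (Sml.le ha)).exists
  exact ⟨x, hx, h2, h1⟩

/-- Rescaling the exponent: `P (k x)` for all small `x`. -/
theorem Sml.comp_mul {P : ℝ → Prop} (h : Sml P) {k : ℝ} (hk : 0 < k) : Sml fun x => P (k * x) := by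
  obtain ⟨x₀, h0, h1⟩ := h
  refine ⟨x₀ / k, by positivity, fun x hx hx' => h1 _ (by positivity) ?_⟩
  rw [le_div_iff₀ hk] at hx'
  linarith

/-- **The form of all estimates.** -/
def Est (P : ℝ → ℝ → ℝ → ℕ → Prop) : Prop :=
  Sml fun ι => Sml fun β => Sml fun γ => ∀ᶠ m : ℕ in atTop, P ι β γ m

theorem Est.mono {P Q : ℝ → ℝ → ℝ → ℕ → Prop} (h : Est P)
    (k : ∀ ι β γ : ℝ, 0 < ι → 0 < β → 0 < γ → ∀ᶠ m : ℕ in atTop, P ι β γ m → Q ι β γ m) : Est Q :=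
  Sml.mono h fun ι hι h1 => Sml.mono h1 fun β hβ h2 => Sml.mono h2 fun γ hγ h3 => by
    filter_upwards [h3, k ι β γ hι hβ hγ] with m h4 h5
    exact h5 h4

theorem Est.and {P Q : ℝ → ℝ → ℝ → ℕ → Prop} (h : Est P) (k : Est Q) : Est fun ι β γ m => P ι β γ m ∧ Q ι β γ m :=
  (Sml.and h k).mono fun _ _ h1 => (Sml.and h1.1 h1.2).mono fun _ _ h2 => (Sml.and h2.1 h2.2).mono fun _ _ h3 => h3.1.and h3.2

/-- A condition on `ι`, on `β` (given `ι`), on `γ` (given `ι`, `β`). -/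
theorem Est.iota {P : ℝ → Prop} (h : Sml P) : Est fun ι _ _ _ => P ι :=
  h.mono fun _ _ h1 => Sml.of fun _ _ => Sml.of fun _ _ => Eventually.of_forall fun _ => h1

theorem Est.beta {P : ℝ → ℝ → Prop} (h : Sml fun ι => Sml fun β => P ι β) : Est fun ι β _ _ => P ι β :=
  h.mono fun _ _ h1 => h1.mono fun _ _ h2 => Sml.of fun _ _ => Eventually.of_forall fun _ => h2

theorem Est.gamma {P : ℝ → ℝ → ℝ → Prop} (h : Sml fun ι => Sml fun β => Sml fun γ => P ι β γ) : Est fun ι β γ _ => P ι β γ :=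
  h.mono fun _ _ h1 => h1.mono fun _ _ h2 => h2.mono fun _ _ h3 => Eventually.of_forall fun _ => h3

theorem Est.of_ev {P : ℕ → Prop} (h : ∀ᶠ m : ℕ in atTop, P m) : Est fun _ _ _ m => P m :=
  Sml.of fun _ _ => Sml.of fun _ _ => Sml.of fun _ _ => h

/-- **The choice**: one triple of exponents for all the estimates. -/
theorem Est.exists {P : ℝ → ℝ → ℝ → ℕ → Prop} (h : Est P) {a : ℝ} (ha : 0 < a) :
    ∃ ι β γ : ℝ, 0 < ι ∧ ι ≤ a ∧ 0 < β ∧ β ≤ a ∧ 0 < γ ∧ γ ≤ a ∧ ∀ᶠ m : ℕ in atTop, P ι β γ m := by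
  obtain ⟨ι, h1, h2, h3⟩ := Sml.exists_le h ha
  obtain ⟨β, h4, h5, h6⟩ := Sml.exists_le h3 ha
  obtain ⟨γ, h7, h8, h9⟩ := Sml.exists_le h6 ha
  exact ⟨ι, β, γ, h1, h2, h4, h5, h7, h8, h9⟩

end Pool.Agent.W_7d29a1_C0.Par92
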