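import Pool.Agent.W_7d29a1_C0.Sched96

/-!
STORM C0 (helper96): WHAT THE MODEL SIDE HAS TO DELIVER.

`V m p q` is the resistivity per row of the blocks of length `2 ^ q` with the base window `2 ^ p`, in the polymer of length `2 ^ m` (the
largest of the values of all blocks of this length).  `Lev96` lists the inequalities between its values (leaf, super level, change of
base), `Top96` is the lower bound at the top, `Mod96` is what is needed for one exponent `Θ`.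
-/

set_option autoImplicit false

namespace Pool.Agent.W_7d29a1_C0

open Filter Topology

/-- The scale `σ p`: the first `q ≥ p` with `E (2 ^ p) ^ 6 ≤ N ^ (3 c) E (2 ^ q) ^ 4`, `N = 2 ^ m`, so `E_s` is about
`(N ^ (-c) E_b ^ 2) ^ (3 / 4)`. The inner ties of the base `2 ^ p` are corrected up to the scale `2 ^ (σ p)`. -/
noncomputable def sg96 (E : ℕ → ℝ) (c : ℝ) (m p : ℕ) : ℕ :=
  sInf {q : ℕ | p ≤ q ∧ E (2 ^ p) ^ 6 ≤ ((2 ^ m : ℕ) : ℝ) ^ (3 * c) * E (2 ^ q) ^ 4}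

/-- The conditions for a change of base `(p, q) → (p', q)`, `b = 2 ^ p`, `b' = 2 ^ p'`, `s, s'` the corrected scales, `ρ = 2 ^ q`:
`N ^ c E_ρ ≤ E_b ^ 2, E_b' ^ 2 ≤ N ^ (9 c / 8) E_ρ`, `N ^ (c / 4) E_s' ^ 2 ≤ E_ρ E_b`, `N ^ (c / 4) E_ρ ^ 2 ≤ E_b E_s ^ 2` and
`N ^ c b' ≤ N ^ Θ E_b' E_ρ`. -/
structure Chg96 (E : ℕ → ℝ) (Θ δ c η : ℝ) (m p p' q : ℕ) : Prop where
  hp : δ * m ≤ p
  hpp : p ≤ p'
  hps : p ≤ sg96 E c m p
  hps' : p' ≤ sg96 E c m p'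
  hsq : sg96 E c m p ≤ q
  hsq' : (sg96 E c m p' : ℝ) + c * m ≤ q
  hqm : (q : ℝ) + η * m ≤ m
  low : ((2 ^ m : ℕ) : ℝ) ^ c * E (2 ^ q) ≤ E (2 ^ p) ^ 2
  low' : ((2 ^ m : ℕ) : ℝ) ^ c * E (2 ^ q) ≤ E (2 ^ p') ^ 2
  upp : E (2 ^ p) ^ 2 ≤ ((2 ^ m : ℕ) : ℝ) ^ (9 / 8 * c) * E (2 ^ q)
  upp' : E (2 ^ p') ^ 2 ≤ ((2 ^ m : ℕ) : ℝ) ^ (9 / 8 * c) * E (2 ^ q)
  cA : ((2 ^ m : ℕ) : ℝ) ^ (c / 4) * E (2 ^ sg96 E c m p') ^ 2 ≤ E (2 ^ q) * E (2 ^ p)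
  cB : ((2 ^ m : ℕ) : ℝ) ^ (c / 4) * E (2 ^ q) ^ 2 ≤ E (2 ^ p) * E (2 ^ sg96 E c m p) ^ 2
  tie : ((2 ^ m : ℕ) : ℝ) ^ c * (2 : ℝ) ^ p' ≤ ((2 ^ m : ℕ) : ℝ) ^ Θ * (E (2 ^ p') * E (2 ^ q))

/-- The inequalities between the levels in the polymer of length `2 ^ m`. -/
structure Lev96 (E : ℕ → ℝ) (Θ δ c η c' : ℝ) (m : ℕ) (V : ℕ → ℕ → ℝ) : Prop where
  nonneg : ∀ p q : ℕ, 0 ≤ V p q
  leaf : ∀ p q : ℕ, δ * m ≤ p → (p : ℝ) ≤ δ * m + 1 → p ≤ sg96 E c m p → sg96 E c m p ≤ q → (q : ℝ) ≤ 3 * (δ * m) + 4 →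
    V p q ≤ ((2 ^ m : ℕ) : ℝ) ^ (Θ - c')
  step : ∀ p q d : ℕ, δ * m ≤ p → p ≤ sg96 E c m p → sg96 E c m p ≤ q → η * m ≤ d → (d : ℝ) ≤ 2 * (η * m) + 1 → q + d ≤ m →
    ((2 ^ m : ℕ) : ℝ) ^ c * E (2 ^ (q + d)) ≤ E (2 ^ p) ^ 2 →
    E (2 ^ p) ^ 2 ≤ ((2 ^ m : ℕ) : ℝ) ^ (9 / 8 * c) * E (2 ^ q) →
    √(V p (q + d)) ≤ √(V p q + ((2 ^ m : ℕ) : ℝ) ^ (-c') * (V p q + V p (q + d)) + ((2 ^ m : ℕ) : ℝ) ^ (Θ - c')) +
      √(((2 ^ m : ℕ) : ℝ) ^ (Θ - c'))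
  change : ∀ p p' q : ℕ, Chg96 E Θ δ c η m p p' q → √(V p' q) ≤ √(V p q) + √(((2 ^ m : ℕ) : ℝ) ^ (Θ - c'))

/-- The lower bound of the resistivity at the top, at the records of `κ`. -/
def Top96 (E : ℕ → ℝ) (Θ δ c c' : ℝ) (V : ℕ → ℕ → ℕ → ℝ) : Prop :=
  ∀ᶠ m : ℕ in atTop, ((2 ^ m : ℕ) : ℝ) ^ (Θ - c') * E (2 ^ m) ^ 3 ≤ ((2 ^ m : ℕ) : ℝ) →
    ∀ p : ℕ, δ * m ≤ p → p ≤ sg96 E c m p → (sg96 E c m p : ℝ) + c * m ≤ m →
      ((2 ^ m : ℕ) : ℝ) ^ c * E (2 ^ m) ≤ E (2 ^ p) ^ 2 → E (2 ^ p) ^ 2 ≤ ((2 ^ m : ℕ) : ℝ) ^ (9 / 8 * c) * E (2 ^ m) →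
        ((2 ^ m : ℕ) : ℝ) ^ (1 - c' / 16) ≤ V m p m * E (2 ^ m) ^ 3

/-- What the model side delivers for one exponent `Θ` (it chooses `δ`, `c`, `η`, `c'` and `V`). -/
def Mod96 (E : ℕ → ℝ) (Θ : ℝ) : Prop :=
  ∃ δ c : ℝ, 0 < δ ∧ δ ≤ Θ / 8 ∧ 0 < c ∧ c ≤ δ / 64 ∧ ∃ η : ℝ, 0 < η ∧ η ≤ c / 64 ∧ ∃ c' : ℝ, 0 < c' ∧ c' ≤ Θ ∧
    ∃ V : ℕ → ℕ → ℕ → ℝ, (∀ᶠ m : ℕ in atTop, Lev96 E Θ δ c η c' m (V m)) ∧ Top96 E Θ δ c c' V

section conv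

variable {E : ℕ → ℝ}

theorem two_logb96 (h1 : ∀ n, 1 ≤ E n) (n : ℕ) : (2 : ℝ) ^ Real.logb 2 (E n) = E n :=
  Real.rpow_logb two_pos (by norm_num) (lt_of_lt_of_le one_pos (h1 n))

theorem pow_two96 (m : ℕ) (x : ℝ) : ((2 ^ m : ℕ) : ℝ) ^ x = (2 : ℝ) ^ (x * m) := by
  push_cast
  rw [← Real.rpow_natCast, ← Real.rpow_mul two_pos.le, mul_comm]

theorem sq_logb96 (h1 : ∀ n, 1 ≤ E n) (n : ℕ) : E n ^ 2 = (2 : ℝ) ^ (2 * Real.logb 2 (E n)) := by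
  rw [mul_comm, Real.rpow_mul two_pos.le, two_logb96 h1, ← Real.rpow_natCast]
  norm_num

theorem leg96 (h1 : ∀ n, 1 ≤ E n) {m p q : ℕ} {c : ℝ}
    (h : Real.logb 2 (E (2 ^ q)) + c * m ≤ 2 * Real.logb 2 (E (2 ^ p))) :
    ((2 ^ m : ℕ) : ℝ) ^ c * E (2 ^ q) ≤ E (2 ^ p) ^ 2 := by
  rw [pow_two96, sq_logb96 h1]
  nth_rewrite 1 [← two_logb96 h1 (2 ^ q)]
  rw [← Real.rpow_add two_pos]
  exact Real.rpow_le_rpow_of_exponent_le one_le_two (by linarith)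

theorem leg96' (h1 : ∀ n, 1 ≤ E n) {m p q : ℕ} {a : ℝ}
    (h : 2 * Real.logb 2 (E (2 ^ p)) ≤ Real.logb 2 (E (2 ^ q)) + a * m) :
    E (2 ^ p) ^ 2 ≤ ((2 ^ m : ℕ) : ℝ) ^ a * E (2 ^ q) := by
  rw [pow_two96, sq_logb96 h1]
  nth_rewrite 1 [← two_logb96 h1 (2 ^ q)]
  rw [← Real.rpow_add two_pos]
  exact Real.rpow_le_rpow_of_exponent_le one_le_two (by linarith)

theorem cA96 (h1 : ∀ n, 1 ≤ E n) {m p q s : ℕ} {a : ℝ}
    (h : a * m + 2 * Real.logb 2 (E (2 ^ s)) ≤ Real.logb 2 (E (2 ^ q)) + Real.logb 2 (E (2 ^ p))) :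
    ((2 ^ m : ℕ) : ℝ) ^ a * E (2 ^ s) ^ 2 ≤ E (2 ^ q) * E (2 ^ p) := by
  rw [pow_two96, sq_logb96 h1]
  nth_rewrite 1 [← two_logb96 h1 (2 ^ q)]
  nth_rewrite 1 [← two_logb96 h1 (2 ^ p)]
  rw [← Real.rpow_add two_pos, ← Real.rpow_add two_pos]
  exact Real.rpow_le_rpow_of_exponent_le one_le_two (by linarith)

theorem cB96 (h1 : ∀ n, 1 ≤ E n) {m p q s : ℕ} {a : ℝ}
    (h : a * m + 2 * Real.logb 2 (E (2 ^ q)) ≤ Real.logb 2 (E (2 ^ p)) + 2 * Real.logb 2 (E (2 ^ s))) :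
    ((2 ^ m : ℕ) : ℝ) ^ a * E (2 ^ q) ^ 2 ≤ E (2 ^ p) * E (2 ^ s) ^ 2 := by
  rw [pow_two96, sq_logb96 h1, sq_logb96 h1]
  nth_rewrite 1 [← two_logb96 h1 (2 ^ p)]
  rw [← Real.rpow_add two_pos, ← Real.rpow_add two_pos]
  exact Real.rpow_le_rpow_of_exponent_le one_le_two (by linarith)

theorem chg96 (h1 : ∀ n, 1 ≤ E n) {m p q : ℕ} {c Θ : ℝ}
    (h : (p : ℝ) + c * m ≤ Θ * m + Real.logb 2 (E (2 ^ p)) + Real.logb 2 (E (2 ^ q))) :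
    ((2 ^ m : ℕ) : ℝ) ^ c * (2 : ℝ) ^ p ≤ ((2 ^ m : ℕ) : ℝ) ^ Θ * (E (2 ^ p) * E (2 ^ q)) := by
  rw [pow_two96, pow_two96]
  nth_rewrite 1 [← two_logb96 h1 (2 ^ q)]
  nth_rewrite 1 [← two_logb96 h1 (2 ^ p)]
  rw [← Real.rpow_natCast 2 p, ← Real.rpow_add two_pos, ← Real.rpow_add two_pos, ← Real.rpow_add two_pos]
  exact Real.rpow_le_rpow_of_exponent_le one_le_two (by linarith)

theorem kap_log96 (h1 : ∀ n, 1 ≤ E n) {q : ℕ} {a : ℝ} (h : ((2 ^ q : ℕ) : ℝ) ≤ ((2 ^ q : ℕ) : ℝ) ^ a * E (2 ^ q) ^ 3) :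
    (q : ℝ) ≤ a * q + 3 * Real.logb 2 (E (2 ^ q)) := by
  have e1 : ((2 ^ q : ℕ) : ℝ) = (2 : ℝ) ^ (q : ℝ) := by
    push_cast
    rw [Real.rpow_natCast]
  have e2 : E (2 ^ q) ^ 3 = (2 : ℝ) ^ (3 * Real.logb 2 (E (2 ^ q))) := by
    rw [mul_comm, Real.rpow_mul two_pos.le, two_logb96 h1, ← Real.rpow_natCast]
    norm_num
  rw [pow_two96, e2, ← Real.rpow_add two_pos, e1] at h
  exact (Real.rpow_le_rpow_left_iff one_lt_two).1 h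

theorem pow_logb96 (h1 : ∀ n, 1 ≤ E n) (n k : ℕ) : E n ^ k = (2 : ℝ) ^ ((k : ℝ) * Real.logb 2 (E n)) := by
  rw [mul_comm, Real.rpow_mul two_pos.le, two_logb96 h1, Real.rpow_natCast]

/-- `E` is unbounded, so `sg96` is a minimum. -/
theorem sg_mem96 (h1 : ∀ n, 1 ≤ E n) {a : ℝ} (ha : a < 1) (hK : ∀ᶠ r : ℕ in atTop, (r : ℝ) ≤ (r : ℝ) ^ a * E r ^ 3) {c : ℝ}
    (hc : 0 ≤ c) (m p : ℕ) : p ≤ sg96 E c m p ∧ E (2 ^ p) ^ 6 ≤ ((2 ^ m : ℕ) : ℝ) ^ (3 * c) * E (2 ^ sg96 E c m p) ^ 4 := by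
  have hne : {q : ℕ | p ≤ q ∧ E (2 ^ p) ^ 6 ≤ ((2 ^ m : ℕ) : ℝ) ^ (3 * c) * E (2 ^ q) ^ 4}.Nonempty := by
    obtain ⟨r₀, hr₀⟩ := eventually_atTop.1 hK
    obtain ⟨K, hKd⟩ : ∃ K, K = Real.logb 2 (E (2 ^ p)) := ⟨_, rfl⟩
    obtain ⟨q, hq⟩ := exists_nat_gt (max (max (r₀ : ℝ) p) (9 / 2 * K / (1 - a)))
    have hq1 : (r₀ : ℝ) < q := ((le_max_left _ _).trans (le_max_left _ _)).trans_lt hq
    have hq2 : (p : ℝ) < q := ((le_max_right _ _).trans (le_max_left _ _)).trans_lt hq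
    have hq3 : 9 / 2 * K / (1 - a) < q := (le_max_right _ _).trans_lt hq
    have hq1' : r₀ ≤ 2 ^ q := (show r₀ ≤ q by exact_mod_cast hq1.le).trans (Nat.lt_two_pow_self).le
    refine ⟨q, by exact_mod_cast hq2.le, ?_⟩
    have e1 := kap_log96 h1 (hr₀ (2 ^ q) hq1')
    rw [div_lt_iff₀ (by linarith)] at hq3
    rw [pow_logb96 h1, pow_logb96 h1, pow_two96, ← hKd, ← Real.rpow_add two_pos]
    refine Real.rpow_le_rpow_of_exponent_le one_le_two ?_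
    have e3 : 0 ≤ 3 * c * (m : ℝ) := by positivity
    push_cast
    nlinarith
  exact Nat.sInf_mem hne

/-- The bounds of `E` at the scale `sg96`. -/
theorem sg_log96 (h1 : ∀ n, 1 ≤ E n) (hdbl : ∀ n, E (2 * n) ≤ 2 * E n) {c : ℝ} {m p : ℕ}
    (hp : p ≤ sg96 E c m p ∧ E (2 ^ p) ^ 6 ≤ ((2 ^ m : ℕ) : ℝ) ^ (3 * c) * E (2 ^ sg96 E c m p) ^ 4) :
    3 / 2 * Real.logb 2 (E (2 ^ p)) - 3 / 4 * (c * m) ≤ Real.logb 2 (E (2 ^ sg96 E c m p)) ∧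
      (sg96 E c m p = p ∨ (Real.logb 2 (E (2 ^ sg96 E c m p)) ≤ 3 / 2 * Real.logb 2 (E (2 ^ p)) - 3 / 4 * (c * m) + 1 ∧
        Real.logb 2 (E (2 ^ (sg96 E c m p - 1))) ≤ 3 / 2 * Real.logb 2 (E (2 ^ p)) - 3 / 4 * (c * m))) := by
  have hpos : ∀ n, 0 < E n := fun n => lt_of_lt_of_le one_pos (h1 n)
  obtain ⟨hp1, hp2⟩ := hp
  constructor
  · rw [pow_logb96 h1, pow_logb96 h1, pow_two96, ← Real.rpow_add two_pos, Real.rpow_le_rpow_left_iff one_lt_two] at hp2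
    push_cast at hp2
    linarith
  · rcases eq_or_lt_of_le hp1 with h | h
    · exact Or.inl h.symm
    · right
      obtain ⟨q, hq⟩ : ∃ q, sg96 E c m p = q + 1 := ⟨sg96 E c m p - 1, by omega⟩
      have hnot : ¬ (p ≤ q ∧ E (2 ^ p) ^ 6 ≤ ((2 ^ m : ℕ) : ℝ) ^ (3 * c) * E (2 ^ q) ^ 4) := fun hmem =>
        Nat.notMem_of_lt_sInf (show q < sInf {q : ℕ | p ≤ q ∧ E (2 ^ p) ^ 6 ≤ ((2 ^ m : ℕ) : ℝ) ^ (3 * c) * E (2 ^ q) ^ 4} by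
          have : sg96 E c m p = sInf {q : ℕ | p ≤ q ∧ E (2 ^ p) ^ 6 ≤ ((2 ^ m : ℕ) : ℝ) ^ (3 * c) * E (2 ^ q) ^ 4} := rfl
          omega) hmem
      have hlt : ((2 ^ m : ℕ) : ℝ) ^ (3 * c) * E (2 ^ q) ^ 4 ≤ E (2 ^ p) ^ 6 := by
        by_contra h2
        push Not at h2
        exact hnot ⟨by omega, h2.le⟩
      rw [pow_logb96 h1, pow_logb96 h1, pow_two96, ← Real.rpow_add two_pos, Real.rpow_le_rpow_left_iff one_lt_two] at hlt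
      push_cast at hlt
      have e2 : E (2 ^ (q + 1)) ≤ 2 * E (2 ^ q) := by
        rw [pow_succ, mul_comm]
        exact hdbl _
      have e3 := Real.logb_le_logb_of_le one_lt_two (hpos (2 ^ (q + 1))) e2
      rw [Real.logb_mul two_ne_zero (hpos _).ne', Real.logb_self_eq_one one_lt_two] at e3
      rw [hq, Nat.add_sub_cancel]
      exact ⟨by linarith, by linarith⟩

theorem KapLe96.min {Θ Θ' : ℝ} (h : KapLe96 E Θ) (h' : KapLe96 E Θ') : KapLe96 E (min Θ Θ') := by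
  rcases min_choice Θ Θ' with e | e <;> rw [e]
  · exact h
  · exact h'

end conv

/-- The way through the levels: a chain which ends at a value of `V`. -/
theorem chain_of96 {E : ℕ → ℝ} (hmono : Monotone E) (h1 : ∀ n, 1 ≤ E n) (hdbl : ∀ n, E (2 * n) ≤ 2 * E n) {Θ δ c η c' : ℝ}
    {m : ℕ} {V : ℕ → ℕ → ℝ} (hL : Lev96 E Θ δ c η c' m V) (hΘ : 0 < Θ) (hΘ' : Θ ≤ 1 / 4) (hδ : 0 < δ) (hδΘ : δ ≤ Θ / 8)
    (hc : 0 < c) (hcδ : c ≤ δ / 64) (hη : 0 < η) (hηc : η ≤ c / 64) (hm : 128 ≤ c * m)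
    (hK : ∀ q : ℕ, δ * m ≤ q → q ≤ m → ((2 ^ q : ℕ) : ℝ) ≤ ((2 ^ q : ℕ) : ℝ) ^ (Θ + c) * E (2 ^ q) ^ 3)
    (hsg : ∀ p, p ≤ sg96 E c m p ∧ E (2 ^ p) ^ 6 ≤ ((2 ^ m : ℕ) : ℝ) ^ (3 * c) * E (2 ^ sg96 E c m p) ^ 4)
    (hm3 : ∀ q : ℕ, δ * m ≤ q → q ≤ m → E (2 ^ q) ≤ ((2 ^ q : ℕ) : ℝ) ^ (1 / 3 : ℝ)) :
    ∃ (K : ℕ) (p : ℕ) (v : ℕ → ℝ), δ * m ≤ p ∧ (sg96 E c m p : ℝ) + c * m ≤ m ∧
      ((2 ^ m : ℕ) : ℝ) ^ c * E (2 ^ m) ≤ E (2 ^ p) ^ 2 ∧ E (2 ^ p) ^ 2 ≤ ((2 ^ m : ℕ) : ℝ) ^ (9 / 8 * c) * E (2 ^ m) ∧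
      (K : ℝ) ≤ m + 2 / (c / 8) ∧
      (∀ k, 0 ≤ v k) ∧ v 0 ≤ ((2 ^ m : ℕ) : ℝ) ^ (Θ - c') ∧ v K = V p m ∧
      ∀ k < K, √(v (k + 1)) ≤ √(v k + ((2 ^ m : ℕ) : ℝ) ^ (-c') * (v k + v (k + 1)) + ((2 ^ m : ℕ) : ℝ) ^ (Θ - c')) +
        √(((2 ^ m : ℕ) : ℝ) ^ (Θ - c')) := by
  obtain ⟨g, hgdef⟩ : ∃ g : ℕ → ℝ, g = fun q => Real.logb 2 (E (2 ^ q)) := ⟨_, rfl⟩
  have hgq : ∀ q, g q = Real.logb 2 (E (2 ^ q)) := fun q => by rw [hgdef]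
  have hpos : ∀ n, 0 < E n := fun n => lt_of_lt_of_le one_pos (h1 n)
  have hg : Monotone g := fun a b hab => by
    rw [hgq, hgq]
    exact Real.logb_le_logb_of_le one_lt_two (hpos _) (hmono (Nat.pow_le_pow_right two_pos hab))
  have hl : ∀ q, g (q + 1) ≤ g q + 1 := fun q => by
    rw [hgq, hgq]
    have e1 : E (2 ^ (q + 1)) ≤ 2 * E (2 ^ q) := by
      rw [pow_succ, mul_comm]
      exact hdbl _
    have e2 := Real.logb_le_logb_of_le one_lt_two (hpos (2 ^ (q + 1))) e1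
    rw [Real.logb_mul two_ne_zero (hpos _).ne', Real.logb_self_eq_one one_lt_two] at e2
    linarith
  have hmpos : (0 : ℝ) < m := by
    by_contra h
    push Not at h
    have : c * m ≤ 0 := mul_nonpos_of_nonneg_of_nonpos hc.le h
    linarith
  obtain ⟨p₀, hp₀⟩ : ∃ p₀ : ℕ, p₀ = ⌈δ * m⌉₊ := ⟨_, rfl⟩
  obtain ⟨l, hldef⟩ : ∃ l : ℕ, l = ⌈η * m⌉₊ := ⟨_, rfl⟩
  have hp₀1 : δ * m ≤ p₀ := hp₀ ▸ Nat.le_ceil _
  have hp₀2 : (p₀ : ℝ) ≤ δ * m + 1 := by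
    rw [hp₀]
    exact (Nat.ceil_lt_add_one (by positivity)).le
  have hl1 : η * m ≤ l := hldef ▸ Nat.le_ceil _
  have hl2 : (l : ℝ) < η * m + 1 := by
    rw [hldef]
    exact Nat.ceil_lt_add_one (by positivity)
  have hl3 : 1 ≤ l := by
    have : 0 < l := by
      rw [hldef, Nat.ceil_pos]
      positivity
    omega
  have hηm : η * m ≤ c / 64 * m := mul_le_mul_of_nonneg_right hηc hmpos.le
  have hKg : ∀ q : ℕ, p₀ ≤ q → q ≤ m → (q : ℝ) ≤ 3 * g q + Θ * q + c * m := by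
    intro q hq hqm
    have hq1 : (p₀ : ℝ) ≤ q := by exact_mod_cast hq
    have e1 := kap_log96 h1 (hK q (hp₀1.trans hq1) hqm)
    have e2 : c * (q : ℝ) ≤ c * m := mul_le_mul_of_nonneg_left (by exact_mod_cast hqm) hc.le
    rw [hgq]
    linarith
  have hm3q : ∀ q : ℕ, δ * m ≤ q → q ≤ m → g q ≤ q / 3 := by
    intro q hq1 hq2
    rw [hgq]
    have e1 := Real.logb_le_logb_of_le one_lt_two (hpos _) (hm3 q hq1 hq2)
    rw [pow_two96, Real.logb_rpow two_pos (by norm_num)] at e1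
    linarith
  have hδm : δ * m ≤ 1 / 16 * m := mul_le_mul_of_nonneg_right (by linarith) hmpos.le
  have hcδm : c * m ≤ δ / 64 * m := mul_le_mul_of_nonneg_right hcδ hmpos.le
  have hm3g : g m ≤ m / 3 := hm3q m (by linarith) le_rfl
  have hp0m' : p₀ ≤ m := by
    have : (p₀ : ℝ) ≤ m := by linarith
    exact_mod_cast this
  have hgp0 : g p₀ ≤ p₀ / 3 := hm3q p₀ hp₀1 hp0m'
  have hp0g : 13 * (c * m) ≤ g p₀ := by
    have e1 := hKg p₀ le_rfl hp0m'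
    have e2 : Θ * (p₀ : ℝ) ≤ 1 / 4 * p₀ := mul_le_mul_of_nonneg_right hΘ' (Nat.cast_nonneg _)
    linarith
  have hcl : 3 * (l : ℝ) + 3 ≤ c / 8 * m := by linarith
  have hg0 : ∀ q, 0 ≤ g q := fun q => by
    rw [hgq]
    exact Real.logb_nonneg one_lt_two (h1 _)
  have hσ' : ∀ p, p₀ ≤ p → p ≤ m → g (sg96 E c m p) ≤ 3 / 2 * g p + 1 := fun p _ _ => by
    rcases (sg_log96 h1 hdbl (hsg p)).2 with h | ⟨h, _⟩
    · rw [h]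
      linarith [hg0 p]
    · rw [← hgq, ← hgq] at h
      linarith
  -- the corrected scale is not the base window itself
  have hσ1 : ∀ p, p₀ ≤ p → g (sg96 E c m p) ≤ 3 / 2 * g p - 3 / 4 * (c * m) + 1 := fun p hp => by
    obtain ⟨e1, e2⟩ := sg_log96 h1 hdbl (hsg p)
    rcases e2 with h | ⟨h, _⟩
    · rw [h, ← hgq] at e1
      linarith [hg hp]
    · rw [← hgq, ← hgq] at h
      exact h
  have hσ2 : ∀ p, 3 / 2 * g p - 3 / 4 * (c * m) ≤ g (sg96 E c m p) := fun p => by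
    have e1 := (sg_log96 h1 hdbl (hsg p)).1
    rw [← hgq, ← hgq] at e1
    exact e1
  -- the first scale
  have hσ0 : (sg96 E c m p₀ : ℝ) ≤ 2 * (δ * m) + 2 * (c * m) + 3 := by
    rcases (sg_log96 h1 hdbl (hsg p₀)).2 with h | ⟨_, h⟩
    · rw [h]
      linarith
    · rw [← hgq, ← hgq] at h
      obtain ⟨q₁, hq₁⟩ : ∃ q₁, q₁ = min (sg96 E c m p₀ - 1) m := ⟨_, rfl⟩
      rcases Nat.lt_or_ge p₀ (sg96 E c m p₀) with h5 | h5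
      · have h6 : p₀ ≤ q₁ := hq₁ ▸ le_min (by omega) hp0m'
        have h7 : q₁ ≤ m := hq₁ ▸ min_le_right _ _
        have h8 : g q₁ ≤ g (sg96 E c m p₀ - 1) := hg (hq₁ ▸ min_le_left _ _)
        have h9 := hKg q₁ h6 h7
        have h10 : Θ * (q₁ : ℝ) ≤ 1 / 4 * q₁ := mul_le_mul_of_nonneg_right hΘ' (Nat.cast_nonneg _)
        have h11 : (q₁ : ℝ) < m := by linarith
        have h12 : q₁ < m := by exact_mod_cast h11
        have h13 : q₁ = sg96 E c m p₀ - 1 := by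
          rcases min_choice (sg96 E c m p₀ - 1) m with h14 | h14
          · rw [hq₁, h14]
          · rw [h14] at hq₁
            omega
        have h15 : (sg96 E c m p₀ : ℝ) = q₁ + 1 := by
          rw [h13]
          have : sg96 E c m p₀ = sg96 E c m p₀ - 1 + 1 := by omega
          exact_mod_cast this
        linarith
      · have h6 : (sg96 E c m p₀ : ℝ) ≤ p₀ := by exact_mod_cast h5
        linarith
  have hp0m : (sg96 E c m p₀ : ℝ) + c * m ≤ m := by linarith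
  -- the first level
  obtain ⟨q₀, hq0σ, hq0b, hq0a, hq0le⟩ : ∃ q₀ : ℕ, sg96 E c m p₀ ≤ q₀ ∧ 2 * g p₀ ≤ g q₀ + (c + c / 8) * m ∧
      g q₀ + (c + c / 8) * m - 2 ≤ 2 * g p₀ ∧ (q₀ : ℝ) ≤ 3 * (δ * m) + 4 := by
    classical
    have h98 : (c + c / 8) * (m : ℝ) = 9 / 8 * (c * m) := by ring
    obtain ⟨q₁, hq₁⟩ : ∃ q₁ : ℕ, q₁ = max (sg96 E c m p₀) ⌈8 / 3 * (p₀ : ℝ)⌉₊ := ⟨_, rfl⟩
    have e1 : 8 / 3 * (p₀ : ℝ) ≤ q₁ := (Nat.le_ceil _).trans (by exact_mod_cast hq₁ ▸ le_max_right _ _)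
    have e2 : sg96 E c m p₀ ≤ q₁ := hq₁ ▸ le_max_left _ _
    have e3 : (q₁ : ℝ) ≤ 3 * (δ * m) + 4 := by
      rcases max_choice (sg96 E c m p₀) ⌈8 / 3 * (p₀ : ℝ)⌉₊ with h | h
      · rw [hq₁, h]
        linarith
      · rw [hq₁, h]
        have := (Nat.ceil_lt_add_one (show 0 ≤ 8 / 3 * (p₀ : ℝ) by positivity)).le
        linarith
    have e4 : q₁ ≤ m := by
      have : (q₁ : ℝ) ≤ m := by linarith
      exact_mod_cast this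
    have e5 : 2 * g p₀ ≤ g q₁ + (c + c / 8) * m := by
      have h5 := hKg q₁ ((hsg p₀).1.trans e2) e4
      have h6 : Θ * (q₁ : ℝ) ≤ 1 / 4 * q₁ := mul_le_mul_of_nonneg_right hΘ' (Nat.cast_nonneg _)
      rw [h98]
      linarith
    have hex : ∃ q : ℕ, sg96 E c m p₀ ≤ q ∧ 2 * g p₀ ≤ g q + (c + c / 8) * m := ⟨q₁, e2, e5⟩
    obtain ⟨q₀, hq₀⟩ : ∃ q₀ : ℕ, q₀ = Nat.find hex := ⟨_, rfl⟩
    have hs : sg96 E c m p₀ ≤ q₀ ∧ 2 * g p₀ ≤ g q₀ + (c + c / 8) * m := hq₀ ▸ Nat.find_spec hex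
    have hle : q₀ ≤ q₁ := hq₀ ▸ Nat.find_min' hex ⟨e2, e5⟩
    refine ⟨q₀, hs.1, hs.2, ?_, le_trans (by exact_mod_cast hle) e3⟩
    rcases eq_or_lt_of_le hs.1 with h | h
    · have := hσ1 p₀ le_rfl
      rw [← h, h98]
      linarith
    · have h7 : ¬(sg96 E c m p₀ ≤ q₀ - 1 ∧ 2 * g p₀ ≤ g (q₀ - 1) + (c + c / 8) * m) :=
        Nat.find_min hex (by omega)
      have h8 : g (q₀ - 1) + (c + c / 8) * m < 2 * g p₀ := by
        by_contra hcon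
        push Not at hcon
        exact h7 ⟨by omega, hcon⟩
      have h9 := hl (q₀ - 1)
      rw [show q₀ - 1 + 1 = q₀ by omega] at h9
      linarith
  have hq0m : q₀ + l ≤ m := by
    have : (q₀ : ℝ) + l ≤ m := by linarith
    exact_mod_cast this
  -- the predicate
  obtain ⟨P, hPdef⟩ : ∃ P : ℕ → ℕ → ℕ → Prop, P = fun K p q => ∃ v : ℕ → ℝ, (∀ k, 0 ≤ v k) ∧
    v 0 ≤ ((2 ^ m : ℕ) : ℝ) ^ (Θ - c') ∧ v K = V p q ∧
      ∀ k < K, √(v (k + 1)) ≤ √(v k + ((2 ^ m : ℕ) : ℝ) ^ (-c') * (v k + v (k + 1)) + ((2 ^ m : ℕ) : ℝ) ^ (Θ - c')) +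
        √(((2 ^ m : ℕ) : ℝ) ^ (Θ - c')) := ⟨_, rfl⟩
  have hext : ∀ K p q p' q' : ℕ, P K p q →
      √(V p' q') ≤ √(V p q + ((2 ^ m : ℕ) : ℝ) ^ (-c') * (V p q + V p' q') + ((2 ^ m : ℕ) : ℝ) ^ (Θ - c')) +
        √(((2 ^ m : ℕ) : ℝ) ^ (Θ - c')) → P (K + 1) p' q' := by
    intro K p q p' q' hP hs
    rw [hPdef] at hP ⊢
    obtain ⟨v, hv0, hv1, hv2, hv3⟩ := hP
    refine ⟨fun k => if k ≤ K then v k else V p' q', fun k => ?_, ?_, ?_, fun k hk => ?_⟩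
    · by_cases h : k ≤ K
      · simp only [h, if_true]
        exact hv0 k
      · simp only [h, if_false]
        exact hL.nonneg _ _
    · simpa using hv1
    · have : ¬ (K + 1 ≤ K) := by omega
      simp only [this, if_false]
    · rcases Nat.lt_or_ge k K with h | h
      · have e1 : k + 1 ≤ K := by omega
        have e2 : k ≤ K := by omega
        simp only [e1, e2, if_true]
        exact hv3 k h
      · have e0 : k = K := by omega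
        subst e0
        have e1 : ¬ (k + 1 ≤ k) := by omega
        simp only [le_refl, if_true, e1, if_false, hv2]
        exact hs
  have hstart : P 0 p₀ q₀ := by
    rw [hPdef]
    exact ⟨fun _ => V p₀ q₀, fun _ => hL.nonneg _ _, hL.leaf p₀ q₀ hp₀1 hp₀2 (hsg p₀).1 hq0σ hq0le, rfl, fun k hk => by omega⟩
  have hcast : ∀ p : ℕ, p₀ ≤ p → δ * m ≤ p := fun p hp => hp₀1.trans (by exact_mod_cast hp)
  have hstep : ∀ K p q d : ℕ, P K p q → p₀ ≤ p → sg96 E c m p ≤ q → l ≤ d → d < 2 * l → q + d ≤ m → g (q + d) + c * m ≤ 2 * g p →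
      2 * g p ≤ g q + (c + c / 8) * m → P (K + 1) p (q + d) := by
    intro K p q d hP hp hpq hd1 hd2 hqd hleg hpin
    refine hext K p q p (q + d) hP (hL.step p q d (hcast p hp) (hsg p).1 hpq (hl1.trans (by exact_mod_cast hd1)) ?_ hqd ?_ ?_)
    · have e1 : (d : ℝ) + 1 ≤ 2 * l := by exact_mod_cast hd2
      linarith
    · rw [hgq, hgq] at hleg
      exact leg96 h1 hleg
    · refine leg96' h1 ?_
      rw [← hgq, ← hgq]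
      linarith
  have hchg : ∀ K p p' q : ℕ, P K p q → p₀ ≤ p → p ≤ p' → sg96 E c m p ≤ q → (sg96 E c m p' : ℝ) + c * m ≤ q → q + l ≤ m →
      g q + c * m ≤ 2 * g p → g q + c * m ≤ 2 * g p' → 2 * g p ≤ g q + (c + c / 8) * m → 2 * g p' ≤ g q + (c + c / 8) * m →
      (p' : ℝ) + c * m ≤ Θ * m + g p' + g q → P (K + 1) p' q := by
    intro K p p' q hP hp hpp hsq hsep hqm hl1' hl2 hl3 hl4 hcc
    have hqm' : (q : ℝ) + l ≤ m := by exact_mod_cast hqm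
    have h98 : (c + c / 8) * (m : ℝ) = 9 / 8 * c * m := by ring
    rw [h98] at hl3 hl4
    have e3 := hσ1 p' (hp.trans hpp)
    have e4 := hσ2 p
    have hC : Chg96 E Θ δ c η m p p' q := by
      refine ⟨hcast p hp, hpp, (hsg p).1, (hsg p').1, hsq, hsep, by linarith, leg96 h1 ?_, leg96 h1 ?_, leg96' h1 ?_, leg96' h1 ?_,
        cA96 h1 ?_, cB96 h1 ?_, chg96 h1 ?_⟩
      · rw [← hgq, ← hgq]
        exact hl1'
      · rw [← hgq, ← hgq]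
        exact hl2
      · rw [← hgq, ← hgq]
        exact hl3
      · rw [← hgq, ← hgq]
        exact hl4
      · rw [← hgq, ← hgq, ← hgq]
        linarith
      · rw [← hgq, ← hgq, ← hgq]
        linarith
      · rw [← hgq, ← hgq]
        exact hcc
    have e1 := hL.change p p' q hC
    refine hext K p q p' q hP (e1.trans (add_le_add (Real.sqrt_le_sqrt ?_) le_rfl))
    have e2 : 0 ≤ ((2 ^ m : ℕ) : ℝ) ^ (-c') * (V p q + V p' q) :=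
      mul_nonneg (Real.rpow_nonneg (Nat.cast_nonneg _) _) (add_nonneg (hL.nonneg _ _) (hL.nonneg _ _))
    have e3 : 0 ≤ ((2 ^ m : ℕ) : ℝ) ^ (Θ - c') := Real.rpow_nonneg (Nat.cast_nonneg _) _
    linarith
  obtain ⟨K, p, hP, h2, h3, h4, h5, h6⟩ := sched96 hg hl hp0m hp0g hq0σ hq0m hq0a hq0b hl3 hcl (by linarith) (fun p => (hsg p).1) hσ'
    hKg hm3g hΘ.le hΘ' (by linarith) hc (by positivity) hstart hstep hchg
  rw [hPdef] at hP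
  obtain ⟨v, hv0, hv1, hv2, hv3⟩ := hP
  rw [hgq, hgq] at h5
  have h7 : 2 * Real.logb 2 (E (2 ^ p)) ≤ Real.logb 2 (E (2 ^ m)) + 9 / 8 * c * m := by
    rw [← hgq, ← hgq]
    linarith
  exact ⟨K, p, v, hcast p h2, h3, leg96 h1 h5, leg96' h1 h7, h4, hv0, hv1, hv2, hv3⟩

/-- **The recursion from the model side.** -/
theorem rec_of96 {E : ℕ → ℝ} (hmono : Monotone E) (h1 : ∀ n, 1 ≤ E n) (hdbl : ∀ n, E (2 * n) ≤ 2 * E n) {c₀ : ℝ} (hc₀ : 0 ≤ c₀)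
    (hst : Stiff96 E c₀) (hK4 : KapLe96 E (1 / 4))
    (hmod : ∀ Θ : ℝ, 0 < Θ → Θ ≤ 1 / 4 → KapLe96 E Θ → Mod96 E Θ) : Rec96 E := by
  intro Θ hΘ hKΘ
  obtain ⟨Θ₁, hΘ₁⟩ : ∃ x, x = min Θ (1 / 4) := ⟨_, rfl⟩
  have hΘ₁0 : 0 < Θ₁ := by
    rw [hΘ₁]
    exact lt_min hΘ (by norm_num)
  have hΘ₁4 : Θ₁ ≤ 1 / 4 := hΘ₁ ▸ min_le_right _ _
  have hΘ₁Θ : Θ₁ ≤ Θ := hΘ₁ ▸ min_le_left _ _
  have hK1 : KapLe96 E Θ₁ := hΘ₁ ▸ hKΘ.min hK4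
  obtain ⟨δ, c, hδ, hδdef, hc, hcdef, η, hη, hηc, c', hc', hc'Θ, V, hLev, hTop⟩ := hmod Θ₁ hΘ₁0 hΘ₁4 hK1
  obtain ⟨ε, hεdef⟩ : ∃ ε : ℝ, ε = c' / 8 := ⟨_, rfl⟩
  have hε : 0 < ε := by rw [hεdef]; positivity
  have hεΘ : ε ≤ Θ := by linarith
  have hεc : ε / 2 = c' / 16 := by rw [hεdef]; ring
  refine ⟨c' / 2, ε, hε, by linarith, ?_⟩
  -- the conditions for the exponent `m`
  obtain ⟨r₀, hr₀⟩ := eventually_atTop.1 (hK1 c hc)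
  obtain ⟨r₁, hr₁⟩ := eventually_atTop.1 hst
  have htm : Tendsto (fun m : ℕ => (m : ℝ)) atTop atTop := tendsto_natCast_atTop_atTop
  have hev1 : ∀ᶠ m : ℕ in atTop, 128 ≤ c * m := (htm.const_mul_atTop hc).eventually_ge_atTop 128
  have hev2 : ∀ᶠ m : ℕ in atTop, (r₀ : ℝ) ≤ δ * m := (htm.const_mul_atTop hδ).eventually_ge_atTop _
  have hev3 : ∀ᶠ m : ℕ in atTop, (r₁ : ℝ) ≤ δ * m := (htm.const_mul_atTop hδ).eventually_ge_atTop _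
  have hev4 : ∀ᶠ m : ℕ in atTop, 2 / (c / 8) ≤ m := htm.eventually_ge_atTop _
  have hev := (hLev.and hTop).and ((hev1.and hev2).and (hev3.and (hev4.and (eventually_ge_atTop 2))))
  obtain ⟨m₀, hm₀⟩ := eventually_atTop.1 hev
  have hpow : ∀ᶠ n : ℕ in atTop, (2 : ℝ) ≤ (n : ℝ) ^ (ε / 4) :=
    ((tendsto_rpow_atTop (show 0 < ε / 4 by positivity)).comp tendsto_natCast_atTop_atTop).eventually_ge_atTop 2
  have hpow' : ∀ᶠ n : ℕ in atTop, (2 : ℝ) ≤ (n : ℝ) ^ (c' / 4) :=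
    ((tendsto_rpow_atTop (show 0 < c' / 4 by positivity)).comp tendsto_natCast_atTop_atTop).eventually_ge_atTop 2
  filter_upwards [eventually_ge_atTop (2 ^ m₀), eventually_ge_atTop 4, hpow, hpow'] with n hn hn4 hn2 hn5 hrec
  obtain ⟨m, hmdef⟩ : ∃ m, m = Nat.log 2 n := ⟨_, rfl⟩
  have hn0 : n ≠ 0 := by omega
  have hmn : 2 ^ m ≤ n := hmdef ▸ Nat.pow_log_le_self 2 hn0
  have hmn' : n < 2 ^ (m + 1) := hmdef ▸ Nat.lt_pow_succ_log_self one_lt_two n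
  have hmm₀ : m₀ ≤ m := by
    rw [hmdef]
    exact (Nat.le_log_iff_pow_le one_lt_two hn0).2 hn
  obtain ⟨⟨hL, hT⟩, ⟨h24, hr0m⟩, hr1m, h2c, hm2⟩ := hm₀ m hmm₀
  obtain ⟨N, hNdef⟩ : ∃ N : ℝ, N = ((2 ^ m : ℕ) : ℝ) := ⟨_, rfl⟩
  have hN1 : (1 : ℝ) ≤ N := by
    rw [hNdef]
    exact_mod_cast Nat.one_le_two_pow
  have hN0 : 0 < N := by linarith
  have hnR : (0 : ℝ) < n := by exact_mod_cast Nat.pos_of_ne_zero hn0
  have hNn : N ≤ n := by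
    rw [hNdef]
    exact_mod_cast hmn
  have hnN : (n : ℝ) ≤ 2 * N := by
    rw [hNdef]
    have : n ≤ 2 * 2 ^ m := by
      rw [pow_succ] at hmn'
      omega
    exact_mod_cast this
  have h4n : (4 : ℝ) ≤ n := by exact_mod_cast hn4
  -- the chain
  have hKq : ∀ q : ℕ, δ * m ≤ q → q ≤ m → ((2 ^ q : ℕ) : ℝ) ≤ ((2 ^ q : ℕ) : ℝ) ^ (Θ₁ + c) * E (2 ^ q) ^ 3 := by
    intro q hq _
    refine hr₀ (2 ^ q) ?_
    have e1 : (r₀ : ℝ) ≤ q := hr0m.trans hq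
    have e2 : r₀ ≤ q := by exact_mod_cast e1
    exact e2.trans (Nat.lt_two_pow_self).le
  have hm3 : ∀ q : ℕ, δ * m ≤ q → q ≤ m → E (2 ^ q) ≤ ((2 ^ q : ℕ) : ℝ) ^ (1 / 3 : ℝ) := by
    intro q hq _
    have e1 : (r₁ : ℝ) ≤ q := hr1m.trans hq
    have e2 : r₁ ≤ q := by exact_mod_cast e1
    refine (hr₁ (2 ^ q) (e2.trans (Nat.lt_two_pow_self).le)).trans ?_
    have e3 : (1 : ℝ) ≤ ((2 ^ q : ℕ) : ℝ) := by exact_mod_cast Nat.one_le_two_pow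
    exact Real.rpow_le_rpow_of_exponent_le e3 (by linarith)
  have hsg : ∀ p, p ≤ sg96 E c m p ∧ E (2 ^ p) ^ 6 ≤ ((2 ^ m : ℕ) : ℝ) ^ (3 * c) * E (2 ^ sg96 E c m p) ^ 4 :=
    fun p => sg_mem96 h1 (show (1 : ℝ) / 4 + 1 / 4 < 1 by norm_num) (hK4 (1 / 4) (by norm_num)) hc.le m p
  obtain ⟨K, p, v, hp1, hpm, hleg, hpin, hKm, hv0, hv1, hvK, hv⟩ :=
    chain_of96 hmono h1 hdbl hL hΘ₁0 hΘ₁4 hδ hδdef hc hcdef hη hηc h24 hKq hsg hm3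
  rw [← hNdef] at hleg hpin hv1 hv
  -- the powers of `N` and of `n`
  have hhalf : (n : ℝ) ^ (1 / 2 : ℝ) ≤ N := by
    have e2 : (n : ℝ) ^ (1 / 2 : ℝ) = √n := (Real.sqrt_eq_rpow _).symm
    rw [e2, Real.sqrt_le_left hN0.le]
    nlinarith
  -- the record
  have hrecN : N ^ (Θ₁ - c') * E (2 ^ m) ^ 3 ≤ N := by
    have hE0 : 0 ≤ E (2 ^ m) := zero_le_one.trans (h1 _)
    have hE3 : 0 ≤ E (2 ^ m) ^ 3 := pow_nonneg hE0 3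
    have e1 : N ^ (Θ - ε) * E (2 ^ m) ^ 3 ≤ 2 * N := by
      refine le_trans (mul_le_mul ?_ (pow_le_pow_left₀ hE0 (hmono hmn) 3) hE3 (Real.rpow_nonneg hnR.le _)) (hrec.trans hnN)
      exact Real.rpow_le_rpow hN0.le hNn (by linarith)
    have e2 : N ^ (Θ₁ - c') * 2 ≤ N ^ (Θ - ε) := by
      calc N ^ (Θ₁ - c') * 2 ≤ N ^ (Θ₁ - c') * N ^ (c' / 2) := by
            refine mul_le_mul_of_nonneg_left ?_ (Real.rpow_nonneg hN0.le _)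
            calc (2 : ℝ) ≤ (n : ℝ) ^ (c' / 4) := hn5
              _ = ((n : ℝ) ^ (1 / 2 : ℝ)) ^ (c' / 2) := by
                  rw [← Real.rpow_mul hnR.le]
                  ring_nf
              _ ≤ N ^ (c' / 2) := Real.rpow_le_rpow (Real.rpow_nonneg hnR.le _) hhalf (by positivity)
        _ = N ^ (Θ₁ - c' + c' / 2) := (Real.rpow_add hN0 _ _).symm
        _ ≤ N ^ (Θ - ε) := Real.rpow_le_rpow_of_exponent_le hN1 (by linarith)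
    have e3 := mul_le_mul_of_nonneg_right e2 hE3
    linarith
  have hpw1 : N ^ (-c') ≤ (n : ℝ) ^ (-(c' / 2)) := by
    calc N ^ (-c') ≤ ((n : ℝ) ^ (1 / 2 : ℝ)) ^ (-c') :=
          Real.rpow_le_rpow_of_nonpos (Real.rpow_pos_of_pos hnR _) hhalf (by linarith)
      _ = (n : ℝ) ^ (-(c' / 2)) := by
          rw [← Real.rpow_mul hnR.le]
          ring_nf
  have hpw2 : N ^ (Θ₁ - c') ≤ (n : ℝ) ^ (Θ - c' / 2) := by
    calc N ^ (Θ₁ - c') = N ^ Θ₁ * N ^ (-c') := by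
          rw [← Real.rpow_add hN0]
          ring_nf
      _ ≤ (n : ℝ) ^ Θ * (n : ℝ) ^ (-(c' / 2)) := by
          refine mul_le_mul ?_ hpw1 (Real.rpow_nonneg hN0.le _) (Real.rpow_nonneg hnR.le _)
          exact (Real.rpow_le_rpow hN0.le hNn hΘ₁0.le).trans (Real.rpow_le_rpow_of_exponent_le (by linarith) hΘ₁Θ)
      _ = (n : ℝ) ^ (Θ - c' / 2) := by
          rw [← Real.rpow_add hnR]
          ring_nf
  refine ⟨K, v, ⟨?_, hv0, hv1.trans hpw2, fun k hk => (hv k hk).trans (add_le_add (Real.sqrt_le_sqrt ?_) (Real.sqrt_le_sqrt hpw2))⟩, ?_⟩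
  · -- the number of the levels
    have e1 : (m : ℝ) * Real.log 2 ≤ Real.log n := by
      rw [← Real.log_pow]
      refine Real.log_le_log (by positivity) ?_
      exact_mod_cast hmn
    have e2 := Real.log_two_gt_d9
    have e3 : (0 : ℝ) ≤ m := Nat.cast_nonneg m
    have e4 : (m : ℝ) * 0.6931471803 ≤ m * Real.log 2 := mul_le_mul_of_nonneg_left e2.le e3
    linarith
  · have e1 := mul_le_mul_of_nonneg_right hpw1 (add_nonneg (hv0 k) (hv0 (k + 1)))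
    linarith
  · -- the top
    have hEn : E (2 ^ m) ≤ E n := hmono hmn
    have hE0 : 0 ≤ E (2 ^ m) := zero_le_one.trans (h1 _)
    have hE3 : E (2 ^ m) ^ 3 ≤ E n ^ 3 := pow_le_pow_left₀ hE0 hEn 3
    have hN2 : (2 : ℝ) ≤ N ^ (ε / 2) := by
      calc (2 : ℝ) ≤ (n : ℝ) ^ (ε / 4) := hn2
        _ = ((n : ℝ) ^ (1 / 2 : ℝ)) ^ (ε / 2) := by
            rw [← Real.rpow_mul hnR.le]
            ring_nf
        _ ≤ N ^ (ε / 2) := Real.rpow_le_rpow (Real.rpow_nonneg hnR.le _) hhalf (by positivity)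
    have e1 : (n : ℝ) ^ (1 - ε) ≤ 2 * N ^ (1 - ε) := by
      have hNp : 0 ≤ N ^ (1 - ε) := Real.rpow_nonneg hN0.le _
      rcases le_total 0 (1 - ε) with h6 | h6
      · calc (n : ℝ) ^ (1 - ε) ≤ (2 * N) ^ (1 - ε) := Real.rpow_le_rpow hnR.le hnN h6
          _ = 2 ^ (1 - ε) * N ^ (1 - ε) := Real.mul_rpow two_pos.le hN0.le
          _ ≤ 2 * N ^ (1 - ε) := by
              refine mul_le_mul_of_nonneg_right ?_ hNp
              calc (2 : ℝ) ^ (1 - ε) ≤ 2 ^ (1 : ℝ) := Real.rpow_le_rpow_of_exponent_le one_le_two (by linarith)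
                _ = 2 := Real.rpow_one 2
      · have e3 := Real.rpow_le_rpow_of_nonpos hN0 hNn h6
        linarith
    have e2 : N ^ (1 - ε / 2) = N ^ (ε / 2) * N ^ (1 - ε) := by
      rw [← Real.rpow_add hN0]
      ring_nf
    have e3 := hT (hNdef ▸ hrecN) p hp1 (hsg p).1 hpm (hNdef ▸ hleg) (hNdef ▸ hpin)
    rw [← hNdef, ← hεc, e2] at e3
    rw [hvK]
    calc (n : ℝ) ^ (1 - ε) ≤ 2 * N ^ (1 - ε) := e1
      _ ≤ N ^ (ε / 2) * N ^ (1 - ε) := mul_le_mul_of_nonneg_right hN2 (Real.rpow_nonneg hN0.le _)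
      _ ≤ V m p m * E (2 ^ m) ^ 3 := e3
      _ ≤ V m p m * E n ^ 3 := mul_le_mul_of_nonneg_left hE3 (hL.nonneg _ _)

end Pool.Agent.W_7d29a1_C0
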