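import Pool.Agent.W_7d29a1_C0.ClsR92
import Pool.Agent.W_7d29a1_C0.Rec96B
import Pool.Agent.W_7d29a1_C0.Par92

/-!
STORM C0 (helper96): THE ASSEMBLY, frame NG. `Vm96` is the resistivity per row of the functional `Zs` of `Mod92C` (maximum over the blocks of
the grid, average over the pinned ends). `CrN`, `FlN` (cross terms), `SigN`, `BasN` (the two halves of a change of base), `TopN` (the
numerator, only at the records of `κ`) are the estimates which the model side delivers, at the length `2 ^ m`, in the order of the small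
exponents of `Par92`; `mod_of96` gives `Mod96`.
-/

set_option autoImplicit false

namespace Pool.Agent.W_7d29a1_C0.Asm96

open Finset MeasureTheory Filter Topology Pool.Agent.W_7d29a1_F Pool.Agent.W_7d29a1_X Pool.Agent.W_7d29a1_H
open Pool.Agent.W_7d29a1_C0.Mod92 Pool.Agent.W_7d29a1_C0
open Pool.W7d29a1.C0.VT31
open Pool.Agent.W_7d29a1_C0.Par92 (Est)

noncomputable section

/-- The frame at the length `2 ^ m` of the kicked part: length `L`, pinned ends `ys`, flatness exponent `dl`, clipping level `B`, finer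
window `b0` for the base `2 ^ p`, kicked rows `R`. -/
structure Frm96 where
  L : ℕ → ℕ
  ys : ℕ → Finset ℕ
  dl : ℝ
  B : ℕ → ℝ
  b0 : ℕ → ℕ → ℕ
  R : ℕ → Finset ℕ

/-- The frame is admissible for the exponent `Θ`. -/
structure Frm96.Ok (F : Frm96) (Θ : ℝ) (m : ℕ) : Prop where
  hL : 2 ^ m ≤ F.L m
  hR : F.R m ⊆ range (2 ^ m)
  hy : ∀ y ∈ F.ys m, y ≤ F.L m
  hB : 1 ≤ F.B m
  hB' : F.B m ≤ ((2 ^ m : ℕ) : ℝ) ^ (Θ / 16)

/-- The cuts of the block number `i` of length `2 ^ (q + d)` into blocks of length `2 ^ q`. -/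
def ct96 (q d i l : ℕ) : ℕ := (i * 2 ^ d + l) * 2 ^ q

theorem ct96_mono (q d i : ℕ) : Monotone (ct96 q d i) := fun a b h => Nat.mul_le_mul_right _ (by omega)

theorem ct96_zero (q d i : ℕ) : ct96 q d i 0 = i * 2 ^ (q + d) := by
  unfold ct96
  rw [Nat.add_zero, pow_add]
  ring

theorem ct96_top (q d i : ℕ) : ct96 q d i (2 ^ d) = (i + 1) * 2 ^ (q + d) := by
  unfold ct96
  rw [pow_add]
  ring

variable (μ : Measure ℝ) (s : ℝ) (F : Frm96) (E : ℕ → ℝ) (Θ δ c c₁ η c₂ ε : ℝ)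

/-- The averaged variance of the functional of the block `[i 2 ^ q, (i + 1) 2 ^ q)` with the base `2 ^ p`. -/
def xb (m p q i : ℕ) : ℝ := xsa μ s (F.L m) (F.ys m) F.dl (F.B m) (2 ^ p) (2 ^ sg96 E c m p) (F.R m) (i * 2 ^ q) ((i + 1) * 2 ^ q)

/-- **The resistivity per row** of the blocks of length `2 ^ q` with the base `2 ^ p`. -/
def Vm96 (m p q : ℕ) : ℝ := (range (2 ^ (m - q))).sup' ⟨0, mem_range.2 (by positivity)⟩ (fun i => xb μ s F E c m p q i / 2 ^ q)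

/-- The functional to the right of the block `k` of the cut block, as a spectator. -/
abbrev fN (m p q d i k : ℕ) : Fam (F.L m) :=
  fF μ s (F.L m) F.dl (F.B m) (2 ^ p) (2 ^ sg96 E c m p) (F.R m) (ct96 q d i) (k + 1) (2 ^ d)

/-- The states which occur: base `b = 2 ^ p`, block length `r = 2 ^ q`, `b ≤ s ≤ r`, `N ^ c E_r ≤ E_b ^ 2 ≤ N ^ (9 c / 8) E_r`. -/
structure St96 (m p q : ℕ) : Prop where
  hp : δ * m ≤ p
  hps : p ≤ sg96 E c m p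
  hsq : sg96 E c m p ≤ q
  hqm : q ≤ m
  leg : ((2 ^ m : ℕ) : ℝ) ^ c * E (2 ^ q) ≤ E (2 ^ p) ^ 2
  pin : E (2 ^ p) ^ 2 ≤ ((2 ^ m : ℕ) : ℝ) ^ (9 / 8 * c) * E (2 ^ q)

/-- **Cross terms.** -/
def CrN (m : ℕ) : Prop := ∀ p q i : ℕ, St96 E δ c m p q → i < 2 ^ (m - q) → ∀ (D : ℝ) (f : Fam (F.L m)),
  D ≤ ((2 ^ m : ℕ) : ℝ) ^ 3 → Cls59 (F.L m) (i * 2 ^ q) ((i + 1) * 2 ^ q) D f →
    CR59 μ s (F.L m) (F.ys m) F.dl (F.B m) (F.b0 m p) (2 ^ p) (2 ^ sg96 E c m p) (F.R m) (i * 2 ^ q) ((i + 1) * 2 ^ q)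
      (((2 ^ m : ℕ) : ℝ) ^ (-c₁) * √(2 ^ q * ((2 ^ m : ℕ) : ℝ) ^ Θ)) 1 f

/-- **The law invariance for the spectators of the super levels.** -/
def FlN (m : ℕ) : Prop := ∀ p q d i k : ℕ, St96 E δ c m p q → q + d ≤ m → i < 2 ^ (m - (q + d)) → k < 2 ^ d →
  FL59 μ s (F.L m) (F.ys m) F.dl (F.B m) (F.b0 m p) (2 ^ p) (2 ^ sg96 E c m p) (F.R m) (ct96 q d i k) (ct96 q d i (k + 1)) 0
    (((2 ^ m : ℕ) : ℝ) ^ (-1 : ℝ)) (fN μ s F E c m p q d i k)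

/-- **The change of the corrected scale** `σ p → σ p'` at the base `2 ^ p`. -/
def SigN (m : ℕ) : Prop := ∀ p p' q i : ℕ, Chg96 E Θ δ c η m p p' q → i < 2 ^ (m - q) →
  avy (F.ys m) (fun y => ∫ ω, gv (wm μ s (F.L m) (Pn (F.L m) y) ω)
    (Gs μ s (F.L m) (Pn (F.L m) y) F.dl (F.B m) (2 ^ p) (2 ^ sg96 E c m p) (2 ^ (sg96 E c m p' - sg96 E c m p)) (F.R m)
      (i * 2 ^ q) ((i + 1) * 2 ^ q) ω) ∂(Pm μ (F.L m))) ≤ 2 ^ q * ((2 ^ m : ℕ) : ℝ) ^ (Θ - c₂)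

/-- **The change of the base window** `2 ^ p → 2 ^ p'` at the corrected scale `σ p'`. -/
def BasN (m : ℕ) : Prop := ∀ p p' q i : ℕ, Chg96 E Θ δ c η m p p' q → i < 2 ^ (m - q) →
  avy (F.ys m) (fun y => ∫ ω, gv (wm μ s (F.L m) (Pn (F.L m) y) ω)
    (Zs μ s (F.L m) (Pn (F.L m) y) F.dl (F.B m) (2 ^ p) (2 ^ sg96 E c m p') (F.R m) (i * 2 ^ q) ((i + 1) * 2 ^ q) ω -
      Zs μ s (F.L m) (Pn (F.L m) y) F.dl (F.B m) (2 ^ p') (2 ^ sg96 E c m p') (F.R m) (i * 2 ^ q) ((i + 1) * 2 ^ q) ω)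
        ∂(Pm μ (F.L m))) ≤ 2 ^ q * ((2 ^ m : ℕ) : ℝ) ^ (Θ - c₂)

/-- **The numerator**, at the records of `κ`. -/
def TopN (m : ℕ) : Prop := ((2 ^ m : ℕ) : ℝ) ^ (Θ - c₁) * E (2 ^ m) ^ 3 ≤ ((2 ^ m : ℕ) : ℝ) →
  ∀ p : ℕ, St96 E δ c m p m → (sg96 E c m p : ℝ) + c * m ≤ m →
    ((2 ^ m : ℕ) : ℝ) ^ (2 - ε) ≤
      xsa μ s (F.L m) (F.ys m) F.dl (F.B m) (2 ^ p) (2 ^ sg96 E c m p) (F.R m) 0 (2 ^ m) * E (2 ^ m) ^ 3

variable {μ s F E Θ δ c c₁ η c₂ ε}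

theorem dvd96 {a q : ℕ} (h : a ≤ q) (i : ℕ) : 2 ^ a ∣ i * 2 ^ q := (pow_dvd_pow 2 h).mul_left i

/-- The sizes of the spectators. -/
theorem bR_le {B : ℝ} (hB : 1 ≤ B) (σ : ℕ) (R : Finset ℕ) {e : ℕ → ℕ} (he : Monotone e) {i M n : ℕ} (hM : e M ≤ n)
    (hR : R.card ≤ n) : bR B σ R e i M ≤ n * (n * B ^ 2) := by
  have h0 : ∀ M, i ≤ M → ∑ l ∈ Ico i M, ((e (l + 1) / σ - e l / σ : ℕ) : ℝ) = ((e M / σ - e i / σ : ℕ) : ℝ) := by
    intro M h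
    induction M, h using Nat.le_induction with
    | base => simp
    | succ M h ih =>
      rw [sum_Ico_succ_top h, ih, ← Nat.cast_add]
      congr 1
      have e1 : e M / σ ≤ e (M + 1) / σ := Nat.div_le_div_right (he (Nat.le_succ M))
      have e2 : e i / σ ≤ e M / σ := Nat.div_le_div_right (he h)
      omega
  have h1 : B / 2 + (B / 2) ^ 2 ≤ B ^ 2 := by nlinarith
  have h2 : (R.card : ℝ) * (B / 2 + (B / 2) ^ 2) ≤ n * B ^ 2 :=
    mul_le_mul (by exact_mod_cast hR) h1 (by positivity) (Nat.cast_nonneg _)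
  unfold bR
  rw [← sum_mul]
  rcases le_total i M with h | h
  · rw [h0 M h]
    refine mul_le_mul ?_ h2 (by positivity) (Nat.cast_nonneg _)
    have : e M / σ - e i / σ ≤ n := (Nat.sub_le _ _).trans ((Nat.div_le_self _ _).trans hM)
    exact_mod_cast this
  · rw [Ico_eq_empty_of_le h, sum_empty, zero_mul]
    positivity

/-- **The spectators of the super levels are in the class.** -/
theorem cls96 {m : ℕ} (hF : F.Ok Θ m) (hΘ : Θ ≤ 1) {p q d i : ℕ}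
    (hdp : Deep (F.R m) (2 ^ p) (2 ^ sg96 E c m p)) (hsq : sg96 E c m p ≤ q) (hqd : q + d ≤ m) (hi : i < 2 ^ (m - (q + d))) (k : ℕ) :
    ∃ D : ℝ, D ≤ ((2 ^ m : ℕ) : ℝ) ^ 3 ∧ Cls59 (F.L m) (ct96 q d i k) (ct96 q d i (k + 1)) D (fN μ s F E c m p q d i k) := by
  have hN1 : (1 : ℝ) ≤ ((2 ^ m : ℕ) : ℝ) := by exact_mod_cast Nat.one_le_two_pow
  have hN0 : (0 : ℝ) < ((2 ^ m : ℕ) : ℝ) := by linarith
  have htop : ct96 q d i (2 ^ d) ≤ 2 ^ m := by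
    rw [ct96_top]
    calc (i + 1) * 2 ^ (q + d) ≤ 2 ^ (m - (q + d)) * 2 ^ (q + d) := Nat.mul_le_mul_right _ hi
      _ = 2 ^ m := by
          rw [← pow_add]
          congr 1
          omega
  have hcard : (F.R m).card ≤ 2 ^ m := by
    have := card_le_card hF.hR
    rwa [card_range] at this
  refine ⟨_, ?_, cls_fR (zero_le_one.trans hF.hB) (by positivity) hdp (ct96_mono q d i)
    (htop.trans hF.hL) (fun l => dvd96 hsq _) le_rfl⟩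
  refine (bR_le hF.hB _ (F.R m) (ct96_mono q d i) htop hcard).trans ?_
  have h2 : F.B m ^ 2 ≤ ((2 ^ m : ℕ) : ℝ) := by
    calc F.B m ^ 2 ≤ (((2 ^ m : ℕ) : ℝ) ^ (Θ / 16)) ^ 2 := pow_le_pow_left₀ (zero_le_one.trans hF.hB) hF.hB' 2
      _ = ((2 ^ m : ℕ) : ℝ) ^ (Θ / 8) := by
          rw [← Real.rpow_natCast, ← Real.rpow_mul hN0.le]
          congr 1
          push_cast
          ring
      _ ≤ ((2 ^ m : ℕ) : ℝ) ^ (1 : ℝ) := Real.rpow_le_rpow_of_exponent_le hN1 (by linarith)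
      _ = _ := Real.rpow_one _
  calc ((2 ^ m : ℕ) : ℝ) * (((2 ^ m : ℕ) : ℝ) * F.B m ^ 2) ≤ ((2 ^ m : ℕ) : ℝ) * (((2 ^ m : ℕ) : ℝ) * ((2 ^ m : ℕ) : ℝ)) :=
        mul_le_mul_of_nonneg_left (mul_le_mul_of_nonneg_left h2 hN0.le) hN0.le
    _ = _ := by ring

theorem xs_nonneg {N : ℕ} {Q : Finset (Finset ℕ)} [Nonempty (Px Q)] (dl B : ℝ) (b σ : ℕ) (R : Finset ℕ) (a d : ℕ) :
    0 ≤ xs μ s N Q dl B b σ R a d := integral_nonneg fun _ => gv_nonneg _ _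

theorem xsa_nonneg {N : ℕ} {ys : Finset ℕ} (dl B : ℝ) (b σ : ℕ) (R : Finset ℕ) (a d : ℕ) (hy : ∀ y ∈ ys, y ≤ N) :
    0 ≤ xsa μ s N ys dl B b σ R a d :=
  avy_nonneg fun y hy' => by
    have := ne_Pn (hy y hy')
    exact xs_nonneg dl B b σ R a d

theorem xb_le {m p q i : ℕ} (hi : i < 2 ^ (m - q)) : xb μ s F E c m p q i ≤ 2 ^ q * Vm96 μ s F E c m p q := by
  have h : xb μ s F E c m p q i / 2 ^ q ≤ Vm96 μ s F E c m p q :=
    Finset.le_sup' (fun i => xb μ s F E c m p q i / 2 ^ q) (mem_range.2 hi)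
  rw [div_le_iff₀ (by positivity)] at h
  linarith

theorem xb_nonneg {m : ℕ} (hF : F.Ok Θ m) (p q i : ℕ) : 0 ≤ xb μ s F E c m p q i := xsa_nonneg _ _ _ _ _ _ _ hF.hy

theorem Vm_nonneg {m : ℕ} (hF : F.Ok Θ m) (p q : ℕ) : 0 ≤ Vm96 μ s F E c m p q := by
  have h := xb_le (μ := μ) (s := s) (F := F) (E := E) (c := c) (m := m) (p := p) (q := q) (i := 0) (by positivity)
  have h1 := xb_nonneg (μ := μ) (s := s) (E := E) (c := c) hF p q 0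
  by_contra h2
  push Not at h2
  have : (2 : ℝ) ^ q * Vm96 μ s F E c m p q < 0 := mul_neg_of_pos_of_neg (by positivity) h2
  linarith

/-- The maximum is a value. -/
theorem Vm_eq (m p q : ℕ) : ∃ i < 2 ^ (m - q), Vm96 μ s F E c m p q = xb μ s F E c m p q i / 2 ^ q := by
  obtain ⟨i, hi, h⟩ := Finset.exists_mem_eq_sup' (s := range (2 ^ (m - q))) ⟨0, mem_range.2 (by positivity)⟩
    (fun i => xb μ s F E c m p q i / 2 ^ q)
  exact ⟨i, mem_range.1 hi, h⟩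

/-- Minkowski for the average over the ends. -/
theorem avy_sqrt {ys : Finset ℕ} {x A g : ℕ → ℝ} (hx : ∀ y ∈ ys, 0 ≤ x y) (hA : ∀ y ∈ ys, 0 ≤ A y) (hg : ∀ y ∈ ys, 0 ≤ g y)
    (h : ∀ y ∈ ys, √(x y) ≤ √(A y) + √(g y)) : √(avy ys x) ≤ √(avy ys A) + √(avy ys g) := by
  classical
  have key := avg_sqrt ys (x := fun y => if y ∈ ys then x y else 0) (A := fun y => if y ∈ ys then A y else 0)
    (g := fun y => if y ∈ ys then g y else 0) (fun y => by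
      split_ifs with h1
      · exact hx y h1
      · exact le_rfl) (fun y hy => by
      rw [if_pos hy]
      exact hA y hy) (fun y => by
      split_ifs with h1
      · exact hg y h1
      · exact le_rfl) (fun y hy => by
      rw [if_pos hy, if_pos hy, if_pos hy]
      exact h y hy) (c := (ys.card : ℝ)⁻¹) (by positivity)
  have e : ∀ φ : ℕ → ℝ, ∑ i ∈ ys, (if i ∈ ys then φ i else 0) = ∑ i ∈ ys, φ i := fun φ =>
    sum_congr rfl fun i hi => by rw [if_pos hi]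
  rw [e, e, e] at key
  exact key

/-- The crude bound of the functional: the number of the rows of the block. -/
theorem abs_Zs' {N : ℕ} {Q : Finset (Finset ℕ)} [Nonempty (Px Q)] {dl B : ℝ} (hB : 0 ≤ B) (b : ℕ) {σ : ℕ} (hσ : 0 < σ)
    (R : Finset ℕ) {a d : ℕ} (ha : σ ∣ a) (hd : σ ∣ d) (ω : Env × Finset ℕ) (S : Px Q) :
    |Zs μ s N Q dl B b σ R a d ω S| ≤ ((d - a : ℕ) : ℝ) * (B / 2 + (B / 2) ^ 2) := by
  unfold Zs
  refine abs_cE_le _ _ (fun S => ?_) S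
  rw [Zt_rows dl B b hσ R ha hd ω, Finset.sum_apply]
  refine (abs_sum_le_sum_abs _ _).trans ?_
  have h2 := sum_le_card_nsmul (Rw R a d) (fun j => |Zr (wm μ s N Q ω) (pS σ j) (sr ω.2 j) (gg μ s Q dl B b ω j) S|)
    (B / 2 + (B / 2) ^ 2) fun j _ => abs_Zr hB b σ j ω S
  rw [nsmul_eq_mul] at h2
  refine h2.trans (mul_le_mul_of_nonneg_right ?_ (by positivity))
  have : (Rw R a d).card ≤ d - a := by
    refine (card_le_card (inter_subset_right)).trans ?_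
    rw [Nat.card_Ico]
  exact_mod_cast this

/-- The crude bound of the resistance. -/
theorem leafC96 [IsProbabilityMeasure μ] {N : ℕ} {dl B : ℝ} (hB : 0 ≤ B) (b : ℕ) {σ : ℕ} (hσ : 0 < σ) (R : Finset ℕ) {a d : ℕ}
    (ha : σ ∣ a) (hd : σ ∣ d) {ys : Finset ℕ} (hy : ∀ y ∈ ys, y ≤ N) :
    xsa μ s N ys dl B b σ R a d ≤ (((d - a : ℕ) : ℝ) * (B / 2 + (B / 2) ^ 2)) ^ 2 := by
  obtain ⟨C, hC⟩ : ∃ C, C = (((d - a : ℕ) : ℝ) * (B / 2 + (B / 2) ^ 2)) ^ 2 := ⟨_, rfl⟩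
  have hC0 : 0 ≤ C := hC ▸ sq_nonneg _
  rw [← hC]
  have h : ∀ y ∈ ys, xs μ s N (Pn N y) dl B b σ R a d ≤ C := by
    intro y hy'
    have := ne_Pn (hy y hy')
    have h1 : ∀ ω, gv (wm μ s N (Pn N y) ω) (Zs μ s N (Pn N y) dl B b σ R a d ω) ≤ C := fun ω => by
      rw [hC]
      exact gv_le_sq _ fun S => abs_Zs' hB b hσ R ha hd ω S
    unfold Mod92.xs
    calc ∫ ω, gv (wm μ s N (Pn N y) ω) (Zs μ s N (Pn N y) dl B b σ R a d ω) ∂(Pm μ N) ≤ ∫ _, C ∂(Pm μ N) :=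
          integral_mono (int_gvs hB b σ R a d) (integrable_const _) h1
      _ = C := by rw [integral_const, probReal_univ, one_smul]
  unfold xsa avy
  calc (ys.card : ℝ)⁻¹ * ∑ y ∈ ys, xs μ s N (Pn N y) dl B b σ R a d ≤ (ys.card : ℝ)⁻¹ * (ys.card • C) :=
        mul_le_mul_of_nonneg_left (sum_le_card_nsmul _ _ _ h) (by positivity)
    _ ≤ C := by
        rw [nsmul_eq_mul, ← mul_assoc]
        rcases eq_or_ne (ys.card : ℝ) 0 with h0 | h0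
        · rw [h0, inv_zero, zero_mul, zero_mul]
          exact hC0
        · rw [inv_mul_cancel₀ h0, one_mul]

/-- The normalisation of one super level. -/
theorem norm96 {X M r v e κ T : ℝ} (hM : 0 < M) (hr : 0 < r) (hv : 0 ≤ v) (he : 0 ≤ e)
    (h : √X ≤ √(M * (r * v + r * e)) + M * (κ * √(r * T)) / 2) : √(X / (M * r)) ≤ √(v + e) + √M * κ * √T / 2 := by
  have hMr : 0 < M * r := mul_pos hM hr
  have hs : 0 < √(M * r) := Real.sqrt_pos.2 hMr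
  rw [Real.sqrt_div' _ hMr.le, div_le_iff₀ hs]
  have e1 : √(M * (r * v + r * e)) = √(v + e) * √(M * r) := by
    rw [← Real.sqrt_mul (add_nonneg hv he)]
    congr 1
    ring
  have e2 : M * (κ * √(r * T)) = √M * κ * √T * √(M * r) := by
    rw [Real.sqrt_mul hr.le, Real.sqrt_mul hM.le]
    nth_rewrite 1 [← Real.mul_self_sqrt hM.le]
    ring
  rw [e1, e2] at h
  have e4 : (√(v + e) + √M * κ * √T / 2) * √(M * r) =
      √(v + e) * √(M * r) + √M * κ * √T * √(M * r) / 2 := by ring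
  rw [e4]
  exact h

/-- Powers of `N`. -/
theorem pow_ev96 {a : ℝ} (ha : 0 < a) (K : ℝ) : ∀ᶠ m : ℕ in atTop, K ≤ ((2 ^ m : ℕ) : ℝ) ^ a := by
  have h1 : Tendsto (fun m : ℕ => ((2 ^ m : ℕ) : ℝ)) atTop atTop :=
    tendsto_natCast_atTop_atTop.comp (tendsto_pow_atTop_atTop_of_one_lt one_lt_two)
  exact ((tendsto_rpow_atTop ha).comp h1).eventually_ge_atTop K

theorem two_pow_le96 {m d : ℕ} {a : ℝ} (h : (d : ℝ) ≤ a * m + 1) : (2 : ℝ) ^ d ≤ 2 * ((2 ^ m : ℕ) : ℝ) ^ a := by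
  rw [pow_two96, ← Real.rpow_natCast 2 d]
  nth_rewrite 2 [← Real.rpow_one 2]
  rw [← Real.rpow_add two_pos]
  exact Real.rpow_le_rpow_of_exponent_le one_le_two (by linarith)

theorem two_pow_le96' {m d : ℕ} {a : ℝ} (h : (d : ℝ) ≤ a * m + 4) : (2 : ℝ) ^ d ≤ 16 * ((2 ^ m : ℕ) : ℝ) ^ a := by
  rw [pow_two96, ← Real.rpow_natCast 2 d, show (16 : ℝ) = 2 ^ (4 : ℝ) by norm_num, ← Real.rpow_add two_pos]
  exact Real.rpow_le_rpow_of_exponent_le one_le_two (by linarith)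

section levels

variable {N c' : ℝ} {m : ℕ}

theorem big96 (hN1 : 1 ≤ N) (hp1 : 4 ≤ N ^ (c' / 2)) {a : ℝ} (ha : a + c' / 2 ≤ (Θ - c') / 2) :
    N ^ a ≤ N ^ ((Θ - c') / 2) / 4 := by
  have hN0 : 0 < N := by linarith
  have e1 : N ^ a * N ^ (c' / 2) ≤ N ^ ((Θ - c') / 2) := by
    rw [← Real.rpow_add hN0]
    exact Real.rpow_le_rpow_of_exponent_le hN1 ha
  have e2 : N ^ a * 4 ≤ N ^ a * N ^ (c' / 2) := mul_le_mul_of_nonneg_left hp1 (Real.rpow_nonneg hN0.le _)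
  linarith

theorem sqp96 (hN0 : 0 ≤ N) (a : ℝ) : √(N ^ a) = N ^ (a / 2) := by
  rw [Real.sqrt_eq_rpow, ← Real.rpow_mul hN0]
  ring_nf

/-- The leaves. -/
theorem lev_leaf96 [IsProbabilityMeasure μ] (hF : F.Ok Θ m) (hN : N = ((2 ^ m : ℕ) : ℝ)) (hN1 : 1 ≤ N) (hδΘ : δ ≤ Θ / 8)
    (hc'3 : c' ≤ Θ / 64) (hp2 : 16 ≤ N ^ (Θ / 16)) (hΘ : 0 < Θ) {p q : ℕ} (hsq : sg96 E c m p ≤ q)
    (hq' : (q : ℝ) ≤ 3 * (δ * m) + 4) : Vm96 μ s F E c m p q ≤ N ^ (Θ - c') := by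
  have hN0 : 0 < N := by linarith
  have hB0 : 0 ≤ F.B m := zero_le_one.trans hF.hB
  have hB' : F.B m ≤ N ^ (Θ / 16) := hN ▸ hF.hB'
  obtain ⟨i, hi, hV⟩ := Vm_eq (μ := μ) (s := s) (F := F) (E := E) (c := c) m p q
  rw [hV, div_le_iff₀ (by positivity)]
  unfold xb
  have e1 := leafC96 (μ := μ) (s := s) (dl := F.dl) hB0 (2 ^ p) (σ := 2 ^ sg96 E c m p) (by positivity) (F.R m)
    (dvd96 hsq i) (dvd96 hsq (i + 1)) hF.hy
  have e0 : (i + 1) * 2 ^ q - i * 2 ^ q = 2 ^ q := by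
    rw [add_mul, one_mul, Nat.add_sub_cancel_left]
  rw [e0] at e1
  have e2 : F.B m / 2 + (F.B m / 2) ^ 2 ≤ F.B m ^ 2 := by nlinarith [hF.hB]
  have e3 : (((2 ^ q : ℕ) : ℝ) * (F.B m / 2 + (F.B m / 2) ^ 2)) ^ 2 ≤ (2 ^ q * F.B m ^ 2) ^ 2 := by
    push_cast
    exact pow_le_pow_left₀ (by positivity) (mul_le_mul_of_nonneg_left e2 (by positivity)) 2
  have e4 : F.B m ^ 4 ≤ N ^ (Θ / 4) := by
    calc F.B m ^ 4 ≤ (N ^ (Θ / 16)) ^ 4 := pow_le_pow_left₀ hB0 hB' 4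
      _ = N ^ (Θ / 4) := by
          rw [← Real.rpow_natCast, ← Real.rpow_mul hN0.le]
          congr 1
          push_cast
          ring
  have e5 : (2 : ℝ) ^ q ≤ 16 * N ^ (3 * δ) := by
    rw [hN]
    exact two_pow_le96' (by linarith)
  have e6 : (2 : ℝ) ^ q * F.B m ^ 4 ≤ N ^ (Θ - c') := by
    calc (2 : ℝ) ^ q * F.B m ^ 4 ≤ (16 * N ^ (3 * δ)) * N ^ (Θ / 4) := mul_le_mul e5 e4 (by positivity) (by positivity)
      _ ≤ (N ^ (Θ / 16) * N ^ (3 * δ)) * N ^ (Θ / 4) := by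
          refine mul_le_mul_of_nonneg_right (mul_le_mul_of_nonneg_right hp2 (Real.rpow_nonneg hN0.le _))
            (Real.rpow_nonneg hN0.le _)
      _ = N ^ (Θ / 16 + 3 * δ + Θ / 4) := by
          rw [← Real.rpow_add hN0, ← Real.rpow_add hN0]
      _ ≤ N ^ (Θ - c') := Real.rpow_le_rpow_of_exponent_le hN1 (by linarith)
  calc _ ≤ _ := e1
    _ ≤ _ := e3
    _ = (2 : ℝ) ^ q * F.B m ^ 4 * 2 ^ q := by ring
    _ ≤ _ := mul_le_mul_of_nonneg_right e6 (by positivity)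

/-- One cross term of a super level. -/
theorem cross96 [IsProbabilityMeasure μ] (hF : F.Ok Θ m) (hN : N = ((2 ^ m : ℕ) : ℝ)) {p q d i k : ℕ} (hsq : sg96 E c m p ≤ q)
    (hqd : q + d ≤ m) {D : ℝ} (hcl : Cls59 (F.L m) (ct96 q d i k) (ct96 q d i (k + 1)) D (fN μ s F E c m p q d i k)) {κ : ℝ}
    (hC : CR59 μ s (F.L m) (F.ys m) F.dl (F.B m) (F.b0 m p) (2 ^ p) (2 ^ sg96 E c m p) (F.R m) (ct96 q d i k) (ct96 q d i (k + 1))
      κ 1 (fN μ s F E c m p q d i k))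
    (hL : FL59 μ s (F.L m) (F.ys m) F.dl (F.B m) (F.b0 m p) (2 ^ p) (2 ^ sg96 E c m p) (F.R m) (ct96 q d i k) (ct96 q d i (k + 1)) 0
      (N ^ (-1 : ℝ)) (fN μ s F E c m p q d i k)) :
    2 * avy (F.ys m) (fun y => ∫ ω, gc (wm μ s (F.L m) (Pn (F.L m) y) ω)
      (Zs μ s (F.L m) (Pn (F.L m) y) F.dl (F.B m) (2 ^ p) (2 ^ sg96 E c m p) (F.R m) (ct96 q d i k) (ct96 q d i (k + 1)) ω)
      (fR μ s (F.L m) (Pn (F.L m) y) F.dl (F.B m) (2 ^ p) (2 ^ sg96 E c m p) (F.R m) (ct96 q d i) (k + 1) (2 ^ d) ω) ∂(Pm μ (F.L m))) ≤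
      2 * κ * √(avy (F.ys m) fun y => ∫ ω, gv (wm μ s (F.L m) (Pn (F.L m) y) ω)
        (fR μ s (F.L m) (Pn (F.L m) y) F.dl (F.B m) (2 ^ p) (2 ^ sg96 E c m p) (F.R m) (ct96 q d i) (k + 1) (2 ^ d) ω)
          ∂(Pm μ (F.L m))) + 6 := by
  have hB0 : 0 ≤ F.B m := zero_le_one.trans hF.hB
  have hN0 : 0 < N := by
    rw [hN]
    positivity
  have h := cross59 (μ := μ) (s := s) hF.hy hB0 (σ := 2 ^ sg96 E c m p) (by positivity) (F.R m)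
    (dvd96 hsq (i * 2 ^ d + k)) (dvd96 hsq (i * 2 ^ d + (k + 1))) hcl hC hL
  rw [zero_mul, sub_zero] at h
  have h1 := (le_abs_self _).trans h
  have hcard : ((Rw (F.R m) (ct96 q d i k) (ct96 q d i (k + 1))).card : ℝ) ≤ N := by
    have e1 : (Rw (F.R m) (ct96 q d i k) (ct96 q d i (k + 1))).card ≤ 2 ^ q := by
      refine (card_le_card (inter_subset_right)).trans ?_
      rw [Nat.card_Ico]
      unfold ct96
      rw [← add_assoc, add_mul _ 1, one_mul, Nat.add_sub_cancel_left]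
    have e2 : 2 ^ q ≤ 2 ^ m := Nat.pow_le_pow_right two_pos (by omega)
    rw [hN]
    exact_mod_cast e1.trans e2
  have h2 : N ^ (-1 : ℝ) * ((Rw (F.R m) (ct96 q d i k) (ct96 q d i (k + 1))).card : ℝ) ≤ 1 := by
    calc N ^ (-1 : ℝ) * ((Rw (F.R m) (ct96 q d i k) (ct96 q d i (k + 1))).card : ℝ) ≤ N ^ (-1 : ℝ) * N :=
          mul_le_mul_of_nonneg_left hcard (Real.rpow_nonneg hN0.le _)
      _ = 1 := by
          rw [Real.rpow_neg_one]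
          exact inv_mul_cancel₀ hN0.ne'
  have h3 : ∀ x y z : ℝ, x ≤ κ * y + 1 + 2 * N ^ (-1 : ℝ) * z → N ^ (-1 : ℝ) * z ≤ 1 → 2 * x ≤ 2 * κ * y + 6 := by
    intro x y z h4 h5
    nlinarith
  exact h3 _ _ _ h1 h2

/-- One super level, raw form. -/
theorem raw96 [IsProbabilityMeasure μ] (hF : F.Ok Θ m) (hN : N = ((2 ^ m : ℕ) : ℝ)) {p q d i : ℕ} (hsq : sg96 E c m p ≤ q)
    (hqd : q + d ≤ m) (hi : i < 2 ^ (m - (q + d)))
    (hcl : ∀ k < 2 ^ d, ∃ D : ℝ, Cls59 (F.L m) (ct96 q d i k) (ct96 q d i (k + 1)) D (fN μ s F E c m p q d i k))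
    (hC : ∀ k < 2 ^ d, CR59 μ s (F.L m) (F.ys m) F.dl (F.B m) (F.b0 m p) (2 ^ p) (2 ^ sg96 E c m p) (F.R m) (ct96 q d i k)
      (ct96 q d i (k + 1)) (N ^ (-c₁) * √(2 ^ q * N ^ Θ)) 1 (fN μ s F E c m p q d i k))
    (hL : ∀ k < 2 ^ d, FL59 μ s (F.L m) (F.ys m) F.dl (F.B m) (F.b0 m p) (2 ^ p) (2 ^ sg96 E c m p) (F.R m) (ct96 q d i k)
      (ct96 q d i (k + 1)) 0 (N ^ (-1 : ℝ)) (fN μ s F E c m p q d i k)) :
    √(xb μ s F E c m p (q + d) i / 2 ^ (q + d)) ≤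
      √(Vm96 μ s F E c m p q + 6) + √(2 ^ d) * (2 * N ^ (-c₁)) * √(N ^ Θ) / 2 := by
  have hN0 : 0 < N := by
    rw [hN]
    positivity
  have hNp : ∀ a : ℝ, 0 ≤ N ^ a := fun a => Real.rpow_nonneg hN0.le a
  have hB0 : 0 ≤ F.B m := zero_le_one.trans hF.hB
  have hV0 := Vm_nonneg (μ := μ) (s := s) (E := E) (c := c) hF p q
  have key := xsa_super (μ := μ) (s := s) (δ := F.dl) hB0 (2 ^ p) (2 ^ sg96 E c m p) (F.R m) hF.hy (ct96_mono q d i) (2 ^ d)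
    (X := 2 ^ q * Vm96 μ s F E c m p q) (D := 2 * (N ^ (-c₁) * √(2 ^ q * N ^ Θ))) (D' := 6)
    (mul_nonneg (by positivity) hV0) (mul_nonneg two_pos.le (mul_nonneg (hNp _) (Real.sqrt_nonneg _))) (by norm_num)
    (fun k hk => by
      have h2 : i * 2 ^ d + k < 2 ^ (m - q) := by
        have e1 : 2 ^ (m - q) = 2 ^ (m - (q + d)) * 2 ^ d := by
          rw [← pow_add]
          congr 1
          omega
        have e2 : (i + 1) * 2 ^ d ≤ 2 ^ (m - (q + d)) * 2 ^ d := Nat.mul_le_mul_right _ hi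
        have e3 : (i + 1) * 2 ^ d = i * 2 ^ d + 2 ^ d := by ring
        omega
      exact xb_le (μ := μ) (s := s) (F := F) (E := E) (c := c) (p := p) h2)
    (fun k hk => by
      obtain ⟨D, hD⟩ := hcl k hk
      exact cross96 hF hN hsq hqd hD (hC k hk) (hL k hk))
  rw [ct96_zero, ct96_top] at key
  have e4 : (2 : ℝ) ^ d * 2 ^ q = 2 ^ (q + d) := by rw [pow_add, mul_comm]
  have e6 : (2 : ℝ) ^ d * (2 ^ q * Vm96 μ s F E c m p q + 6) ≤ 2 ^ d * (2 ^ q * Vm96 μ s F E c m p q + 2 ^ q * 6) := by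
    have e7 : (1 : ℝ) ≤ 2 ^ q := one_le_pow₀ one_le_two
    refine mul_le_mul_of_nonneg_left ?_ (by positivity)
    linarith
  have e3 := norm96 (X := xb μ s F E c m p (q + d) i) (M := 2 ^ d) (r := 2 ^ q) (v := Vm96 μ s F E c m p q) (e := 6)
    (κ := 2 * N ^ (-c₁)) (T := N ^ Θ) (by positivity) (by positivity) hV0 (by norm_num) (by
      unfold xb
      push_cast at key
      refine key.trans (add_le_add (Real.sqrt_le_sqrt e6) (le_of_eq ?_))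
      ring)
  rwa [e4] at e3

/-- One super level. -/
theorem lev_step96 [IsProbabilityMeasure μ] (hF : F.Ok Θ m) (hN : N = ((2 ^ m : ℕ) : ℝ)) (hN1 : 1 ≤ N) (hηc₁ : η ≤ c₁ / 4)
    (hc'0 : 0 < c') (hc'1 : c' ≤ c₁ / 2) (hp1 : 4 ≤ N ^ (c' / 2)) (hp3 : 6 ≤ N ^ (Θ - c')) {p q d : ℕ} (hsq : sg96 E c m p ≤ q)
    (hd' : (d : ℝ) ≤ 2 * (η * m) + 1) (hqd : q + d ≤ m)
    (hcl : ∀ i < 2 ^ (m - (q + d)), ∀ k < 2 ^ d, ∃ D : ℝ,
      Cls59 (F.L m) (ct96 q d i k) (ct96 q d i (k + 1)) D (fN μ s F E c m p q d i k))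
    (hC : ∀ i < 2 ^ (m - (q + d)), ∀ k < 2 ^ d, CR59 μ s (F.L m) (F.ys m) F.dl (F.B m) (F.b0 m p) (2 ^ p) (2 ^ sg96 E c m p) (F.R m)
      (ct96 q d i k) (ct96 q d i (k + 1)) (N ^ (-c₁) * √(2 ^ q * N ^ Θ)) 1 (fN μ s F E c m p q d i k))
    (hL : ∀ i < 2 ^ (m - (q + d)), ∀ k < 2 ^ d, FL59 μ s (F.L m) (F.ys m) F.dl (F.B m) (F.b0 m p) (2 ^ p) (2 ^ sg96 E c m p) (F.R m)
      (ct96 q d i k) (ct96 q d i (k + 1)) 0 (N ^ (-1 : ℝ)) (fN μ s F E c m p q d i k)) :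
    √(Vm96 μ s F E c m p (q + d)) ≤ √(Vm96 μ s F E c m p q +
      N ^ (-c') * (Vm96 μ s F E c m p q + Vm96 μ s F E c m p (q + d)) + N ^ (Θ - c')) + √(N ^ (Θ - c')) := by
  have hN0 : 0 < N := by linarith
  have hNp : ∀ a : ℝ, 0 ≤ N ^ a := fun a => Real.rpow_nonneg hN0.le a
  obtain ⟨i, hi, hV⟩ := Vm_eq (μ := μ) (s := s) (F := F) (E := E) (c := c) m p (q + d)
  have e3 := raw96 hF hN hsq hqd hi (hcl i hi) (hC i hi) (hL i hi)
  rw [← hV] at e3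
  have hV0 := Vm_nonneg (μ := μ) (s := s) (E := E) (c := c) hF p q
  have hV1 := Vm_nonneg (μ := μ) (s := s) (E := E) (c := c) hF p (q + d)
  have e5 : √((2 : ℝ) ^ d) ≤ 2 * N ^ (c₁ / 4) := by
    have e6 : (2 : ℝ) ^ d ≤ 2 * N ^ (2 * η) := by
      rw [hN]
      exact two_pow_le96 (by linarith)
    have e7 : N ^ (2 * η) ≤ N ^ (c₁ / 2) := Real.rpow_le_rpow_of_exponent_le hN1 (by linarith)
    rw [Real.sqrt_le_left (mul_nonneg two_pos.le (hNp _))]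
    calc (2 : ℝ) ^ d ≤ 2 * N ^ (c₁ / 2) := by linarith
      _ ≤ 4 * N ^ (c₁ / 2) := by linarith [hNp (c₁ / 2)]
      _ = (2 * N ^ (c₁ / 4)) ^ 2 := by
          rw [mul_pow, ← Real.rpow_natCast (N ^ (c₁ / 4)), ← Real.rpow_mul hN0.le]
          congr 1
          · norm_num
          · congr 1
            push_cast
            ring
  have e8 : √((2 : ℝ) ^ d) * (2 * N ^ (-c₁)) * √(N ^ Θ) / 2 ≤ N ^ ((Θ - c') / 2) := by
    calc √((2 : ℝ) ^ d) * (2 * N ^ (-c₁)) * √(N ^ Θ) / 2 ≤ (2 * N ^ (c₁ / 4)) * (2 * N ^ (-c₁)) * √(N ^ Θ) / 2 := by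
          refine div_le_div_of_nonneg_right ?_ two_pos.le
          exact mul_le_mul_of_nonneg_right (mul_le_mul_of_nonneg_right e5 (mul_nonneg two_pos.le (hNp _))) (Real.sqrt_nonneg _)
      _ = 2 * N ^ (c₁ / 4 + -c₁ + Θ / 2) := by
          rw [sqp96 hN0.le, Real.rpow_add hN0, Real.rpow_add hN0]
          ring
      _ ≤ 2 * (N ^ ((Θ - c') / 2) / 4) := mul_le_mul_of_nonneg_left (big96 hN1 hp1 (by linarith)) two_pos.le
      _ ≤ N ^ ((Θ - c') / 2) := by linarith [hNp ((Θ - c') / 2)]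
  have e12 : 0 ≤ N ^ (-c') * (Vm96 μ s F E c m p q + Vm96 μ s F E c m p (q + d)) := mul_nonneg (hNp _) (add_nonneg hV0 hV1)
  rw [sqp96 hN0.le (Θ - c')]
  have e13 : √(Vm96 μ s F E c m p q + 6) ≤ √(Vm96 μ s F E c m p q +
      N ^ (-c') * (Vm96 μ s F E c m p q + Vm96 μ s F E c m p (q + d)) + N ^ (Θ - c')) := Real.sqrt_le_sqrt (by linarith)
  linarith

/-- The change of base. -/
theorem lev_change96 [IsProbabilityMeasure μ] (hF : F.Ok Θ m) (hN1 : 1 ≤ N) (hc'2 : c' ≤ c₂ / 2)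
    (hp1 : 4 ≤ N ^ (c' / 2)) {p p' q : ℕ}
    (hss : sg96 E c m p ≤ sg96 E c m p') (hsq' : sg96 E c m p' ≤ q)
    (hS : ∀ i < 2 ^ (m - q), avy (F.ys m) (fun y => ∫ ω, gv (wm μ s (F.L m) (Pn (F.L m) y) ω)
      (Gs μ s (F.L m) (Pn (F.L m) y) F.dl (F.B m) (2 ^ p) (2 ^ sg96 E c m p) (2 ^ (sg96 E c m p' - sg96 E c m p)) (F.R m)
        (i * 2 ^ q) ((i + 1) * 2 ^ q) ω) ∂(Pm μ (F.L m))) ≤ 2 ^ q * N ^ (Θ - c₂))
    (hB : ∀ i < 2 ^ (m - q), avy (F.ys m) (fun y => ∫ ω, gv (wm μ s (F.L m) (Pn (F.L m) y) ω)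
      (Zs μ s (F.L m) (Pn (F.L m) y) F.dl (F.B m) (2 ^ p) (2 ^ sg96 E c m p') (F.R m) (i * 2 ^ q) ((i + 1) * 2 ^ q) ω -
        Zs μ s (F.L m) (Pn (F.L m) y) F.dl (F.B m) (2 ^ p') (2 ^ sg96 E c m p') (F.R m) (i * 2 ^ q) ((i + 1) * 2 ^ q) ω)
          ∂(Pm μ (F.L m))) ≤ 2 ^ q * N ^ (Θ - c₂)) :
    √(Vm96 μ s F E c m p' q) ≤ √(Vm96 μ s F E c m p q) + √(N ^ (Θ - c')) := by
  have hN0 : 0 < N := by linarith
  have hB0 : 0 ≤ F.B m := zero_le_one.trans hF.hB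
  obtain ⟨i, hi, hV⟩ := Vm_eq (μ := μ) (s := s) (F := F) (E := E) (c := c) m p' q
  rw [hV]
  have hσ : 2 ^ (sg96 E c m p' - sg96 E c m p) * 2 ^ sg96 E c m p = 2 ^ sg96 E c m p' := by
    rw [← pow_add]
    congr 1
    omega
  -- the change of the corrected scale
  have e1 : √(xsa μ s (F.L m) (F.ys m) F.dl (F.B m) (2 ^ p) (2 ^ sg96 E c m p') (F.R m) (i * 2 ^ q) ((i + 1) * 2 ^ q)) ≤
      √(xb μ s F E c m p q i) + √(2 ^ q * N ^ (Θ - c₂)) := by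
    refine le_trans ?_ (add_le_add le_rfl (Real.sqrt_le_sqrt (hS i hi)))
    unfold xb xsa
    refine avy_sqrt (fun y hy => ?_) (fun y hy => ?_) (fun y hy => ?_) fun y hy => ?_
    · have := ne_Pn (hF.hy y hy)
      exact xs_nonneg _ _ _ _ _ _ _
    · have := ne_Pn (hF.hy y hy)
      exact xs_nonneg _ _ _ _ _ _ _
    · have := ne_Pn (hF.hy y hy)
      exact integral_nonneg fun _ => gv_nonneg _ _
    · have := ne_Pn (hF.hy y hy)
      have h := xs_sig (μ := μ) (s := s) (N := F.L m) (Q := Pn (F.L m) y) (δ := F.dl) hB0 (2 ^ p) (σ := 2 ^ sg96 E c m p)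
        (m := 2 ^ (sg96 E c m p' - sg96 E c m p)) (by positivity) (by positivity) (F.R m) (c := i * 2 ^ q) (d := (i + 1) * 2 ^ q)
        (hσ ▸ dvd96 hsq' i) (hσ ▸ dvd96 hsq' (i + 1))
      rw [hσ] at h
      exact h
  -- the change of the base window
  have e2 : √(xb μ s F E c m p' q i) ≤
      √(xsa μ s (F.L m) (F.ys m) F.dl (F.B m) (2 ^ p) (2 ^ sg96 E c m p') (F.R m) (i * 2 ^ q) ((i + 1) * 2 ^ q)) +
        √(2 ^ q * N ^ (Θ - c₂)) := by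
    refine le_trans ?_ (add_le_add le_rfl (Real.sqrt_le_sqrt (hB i hi)))
    unfold xb xsa
    refine avy_sqrt (fun y hy => ?_) (fun y hy => ?_) (fun y hy => ?_) fun y hy => ?_
    · have := ne_Pn (hF.hy y hy)
      exact xs_nonneg _ _ _ _ _ _ _
    · have := ne_Pn (hF.hy y hy)
      exact xs_nonneg _ _ _ _ _ _ _
    · have := ne_Pn (hF.hy y hy)
      exact integral_nonneg fun _ => gv_nonneg _ _
    · have := ne_Pn (hF.hy y hy)
      exact xs_base hB0 (2 ^ p) (2 ^ p') (2 ^ sg96 E c m p') (F.R m) _ _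
  have e3 := xb_le (μ := μ) (s := s) (F := F) (E := E) (c := c) (p := p) hi
  have hq0 : (0 : ℝ) < 2 ^ q := by positivity
  rw [Real.sqrt_div' _ hq0.le, div_le_iff₀ (Real.sqrt_pos.2 hq0), add_mul, ← Real.sqrt_mul (Vm_nonneg hF p q)]
  have e7 : √(xb μ s F E c m p q i) ≤ √(Vm96 μ s F E c m p q * 2 ^ q) := Real.sqrt_le_sqrt (by linarith)
  have e8 : √(2 ^ q * N ^ (Θ - c₂)) ≤ √(N ^ (Θ - c')) * √(2 ^ q) / 4 := by
    rw [mul_comm, Real.sqrt_mul (Real.rpow_nonneg hN0.le _), sqp96 hN0.le, sqp96 hN0.le]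
    have e9 : N ^ ((Θ - c₂) / 2) ≤ N ^ ((Θ - c') / 2) / 4 := big96 hN1 hp1 (by linarith)
    have e10 := mul_le_mul_of_nonneg_right e9 (Real.sqrt_nonneg ((2 : ℝ) ^ q))
    linarith
  have e11 : 0 ≤ √(N ^ (Θ - c')) * √((2 : ℝ) ^ q) := mul_nonneg (Real.sqrt_nonneg _) (Real.sqrt_nonneg _)
  linarith

/-- The top. -/
theorem top_of96 (hT : ∀ᶠ m : ℕ in atTop, TopN μ s F E Θ δ c c₁ (c' / 16) m) (hc : 0 ≤ c) (hc' : c' ≤ c₁) (hE : ∀ n, 0 ≤ E n) :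
    Top96 E Θ δ c c' (Vm96 μ s F E c) := by
  filter_upwards [hT] with m hm hrec p hp hps hpm hleg hpin
  unfold TopN at hm
  obtain ⟨N, hN⟩ : ∃ N : ℝ, N = ((2 ^ m : ℕ) : ℝ) := ⟨_, rfl⟩
  rw [← hN] at hm hrec hleg hpin ⊢
  have hN1 : (1 : ℝ) ≤ N := by
    rw [hN]
    exact_mod_cast Nat.one_le_two_pow
  have hN0 : 0 < N := by linarith
  have hE3 : 0 ≤ E (2 ^ m) ^ 3 := pow_nonneg (hE _) 3
  have hrec' : N ^ (Θ - c₁) * E (2 ^ m) ^ 3 ≤ N :=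
    (mul_le_mul_of_nonneg_right (Real.rpow_le_rpow_of_exponent_le hN1 (by linarith)) hE3).trans hrec
  have hsm : sg96 E c m p ≤ m := by
    have h1 : 0 ≤ c * (m : ℝ) := mul_nonneg hc (Nat.cast_nonneg _)
    have h2 : (sg96 E c m p : ℝ) ≤ m := by linarith
    exact_mod_cast h2
  have e1 := hm hrec' p ⟨hp, hps, hsm, le_rfl, hN ▸ hleg, hN ▸ hpin⟩ hpm
  have e2 := xb_le (μ := μ) (s := s) (F := F) (E := E) (c := c) (p := p) (m := m) (q := m) (i := 0) (by simp)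
  unfold xb at e2
  rw [zero_mul, zero_add, one_mul] at e2
  have hN2 : (2 : ℝ) ^ m = N := by
    rw [hN]
    push_cast
    rfl
  rw [hN2] at e2
  have e3 : N ^ (2 - c' / 16) = N * N ^ (1 - c' / 16) := by
    nth_rewrite 2 [← Real.rpow_one N]
    rw [← Real.rpow_add hN0]
    ring_nf
  have e4 : N * N ^ (1 - c' / 16) ≤ N * (Vm96 μ s F E c m p m * E (2 ^ m) ^ 3) := by
    rw [← e3]
    calc _ ≤ _ := e1
      _ ≤ (N * Vm96 μ s F E c m p m) * E (2 ^ m) ^ 3 := mul_le_mul_of_nonneg_right e2 hE3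
      _ = _ := by ring
  exact le_of_mul_le_mul_left e4 hN0

end levels

/-- The corrected scale grows with the base. -/
theorem sg_mono96 {m p p' : ℕ} (hmono : Monotone E) (h1 : ∀ n, 1 ≤ E n) (hpp : p ≤ p')
    (hmem : p' ≤ sg96 E c m p' ∧ E (2 ^ p') ^ 6 ≤ ((2 ^ m : ℕ) : ℝ) ^ (3 * c) * E (2 ^ sg96 E c m p') ^ 4) :
    sg96 E c m p ≤ sg96 E c m p' := by
  refine Nat.sInf_le ⟨hpp.trans hmem.1, le_trans ?_ hmem.2⟩
  exact pow_le_pow_left₀ (zero_le_one.trans (h1 _)) (hmono (Nat.pow_le_pow_right two_pos hpp)) 6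

/-- What the model side delivers, in the frames `F ι β γ` (exponents in the order of `Par92`). -/
structure Dlv96 (μ : Measure ℝ) (s : ℝ) (F : ℝ → ℝ → ℝ → Frm96) (E : ℕ → ℝ) (Θ δ c c₁ : ℝ) : Prop where
  ok : Est fun ι β γ m => (F ι β γ).Ok Θ m
  deep : Est fun ι β γ m => ∀ p q : ℕ, St96 E δ c m p q → Deep ((F ι β γ).R m) (2 ^ p) (2 ^ sg96 E c m p)
  cr : Est fun ι β γ m => CrN μ s (F ι β γ) E Θ δ c c₁ m
  fl : Est fun ι β γ m => FlN μ s (F ι β γ) E δ c m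
  chg : ∀ η : ℝ, 0 < η → η ≤ c / 64 → ∃ c₂ : ℝ, 0 < c₂ ∧ (Est fun ι β γ m => SigN μ s (F ι β γ) E Θ δ c η c₂ m) ∧
    Est fun ι β γ m => BasN μ s (F ι β γ) E Θ δ c η c₂ m
  top : ∀ ε : ℝ, 0 < ε → Est fun ι β γ m => TopN μ s (F ι β γ) E Θ δ c c₁ ε m

/-- **The assembly.** -/
theorem mod_of96 [IsProbabilityMeasure μ] (hmono : Monotone E) (h1 : ∀ n, 1 ≤ E n) (hK : KapLe96 E (1 / 4)) (hΘ : 0 < Θ)
    (hΘ1 : Θ ≤ 1) (h : ∃ δ c : ℝ, 0 < δ ∧ δ ≤ Θ / 8 ∧ 0 < c ∧ c ≤ δ / 64 ∧ ∃ (F : ℝ → ℝ → ℝ → Frm96) (c₁ : ℝ), 0 < c₁ ∧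
      Dlv96 μ s F E Θ δ c c₁) : Mod96 E Θ := by
  obtain ⟨δ, c, hδ, hδΘ, hc, hcδ, F, c₁, hc₁, hok, hdeep, hcr, hfl, hchg, hT⟩ := h
  obtain ⟨η, hηdef⟩ : ∃ η, η = min (c / 64) (c₁ / 4) := ⟨_, rfl⟩
  have hη : 0 < η := by rw [hηdef]; positivity
  have hηc : η ≤ c / 64 := hηdef ▸ min_le_left _ _
  have hηc₁ : η ≤ c₁ / 4 := hηdef ▸ min_le_right _ _
  obtain ⟨c₂, hc₂, hS, hB⟩ := hchg η hη hηc
  obtain ⟨c', hc'def⟩ : ∃ c', c' = min (min c₁ c₂ / 2) (Θ / 64) := ⟨_, rfl⟩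
  have hc' : 0 < c' := by rw [hc'def]; positivity
  have hc'1 : c' ≤ c₁ / 2 := by
    rw [hc'def]
    refine (min_le_left _ _).trans ?_
    linarith [min_le_left c₁ c₂]
  have hc'2 : c' ≤ c₂ / 2 := by
    rw [hc'def]
    refine (min_le_left _ _).trans ?_
    linarith [min_le_right c₁ c₂]
  have hc'3 : c' ≤ Θ / 64 := hc'def ▸ min_le_right _ _
  obtain ⟨ι, β, γ, _, _, _, _, _, _, hall⟩ :=
    ((((hok.and hdeep).and hcr).and (hfl.and hS)).and (hB.and (hT (c' / 16) (by positivity)))).exists one_pos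
  refine ⟨δ, c, hδ, hδΘ, hc, hcδ, η, hη, hηc, c', hc', by linarith, Vm96 μ s (F ι β γ) E c, ?_,
    top_of96 (hall.mono fun m h => h.2.2) hc.le (by linarith) fun n => zero_le_one.trans (h1 n)⟩
  filter_upwards [hall, pow_ev96 (show 0 < c' / 2 by positivity) 4, pow_ev96 (show 0 < Θ / 16 by positivity) 16,
    pow_ev96 (show 0 < Θ - c' by linarith) 6] with m hm hp1 hp2 hp3
  obtain ⟨⟨⟨⟨hF, hdm⟩, hcrm⟩, hflm, hSm⟩, hBm, _⟩ := hm
  have hN1 : (1 : ℝ) ≤ ((2 ^ m : ℕ) : ℝ) := by exact_mod_cast Nat.one_le_two_pow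
  have hsg : ∀ p, p ≤ sg96 E c m p ∧ E (2 ^ p) ^ 6 ≤ ((2 ^ m : ℕ) : ℝ) ^ (3 * c) * E (2 ^ sg96 E c m p) ^ 4 :=
    fun p => sg_mem96 h1 (show (1 : ℝ) / 4 + 1 / 4 < 1 by norm_num) (hK (1 / 4) (by norm_num)) hc.le m p
  refine ⟨Vm_nonneg hF, fun p q _ _ _ hsq hq' => lev_leaf96 hF rfl hN1 hδΘ hc'3 hp2 hΘ hsq hq', ?_, ?_⟩
  · intro p q d hp hps hpq hd hd' hqd hleg hpin
    have hst : St96 E δ c m p q := by
      refine ⟨hp, hps, hpq, by omega, le_trans (mul_le_mul_of_nonneg_left ?_ (Real.rpow_nonneg (Nat.cast_nonneg _) _)) hleg, hpin⟩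
      exact hmono (Nat.pow_le_pow_right two_pos (Nat.le_add_right q d))
    have hcl : ∀ i < 2 ^ (m - (q + d)), ∀ k < 2 ^ d, ∃ D : ℝ, D ≤ ((2 ^ m : ℕ) : ℝ) ^ 3 ∧
        Cls59 ((F ι β γ).L m) (ct96 q d i k) (ct96 q d i (k + 1)) D (fN μ s (F ι β γ) E c m p q d i k) :=
      fun i hi k _ => cls96 hF hΘ1 (hdm p q hst) hpq hqd hi k
    refine lev_step96 hF rfl hN1 hηc₁ hc' hc'1 hp1 hp3 hpq hd' hqd (fun i hi k hk => ?_) (fun i hi k hk => ?_)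
      fun i hi k hk => hflm p q d i k hst hqd hi hk
    · obtain ⟨D, _, hD⟩ := hcl i hi k hk
      exact ⟨D, hD⟩
    · obtain ⟨D, hD3, hD⟩ := hcl i hi k hk
      have hik : i * 2 ^ d + k < 2 ^ (m - q) := by
        have e1 : 2 ^ (m - q) = 2 ^ (m - (q + d)) * 2 ^ d := by
          rw [← pow_add]
          congr 1
          omega
        have e2 : (i + 1) * 2 ^ d ≤ 2 ^ (m - (q + d)) * 2 ^ d := Nat.mul_le_mul_right _ hi
        have e3 : (i + 1) * 2 ^ d = i * 2 ^ d + 2 ^ d := by ring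
        omega
      exact hcrm p q (i * 2 ^ d + k) hst hik D _ hD3 hD
  · intro p p' q hC
    have hsq' : sg96 E c m p' ≤ q := by
      have h2 := hC.hsq'
      have h3 : 0 ≤ c * (m : ℝ) := mul_nonneg hc.le (Nat.cast_nonneg _)
      have h4 : (sg96 E c m p' : ℝ) ≤ q := by linarith
      exact_mod_cast h4
    exact lev_change96 hF hN1 hc'2 hp1 (sg_mono96 hmono h1 hC.hpp (hsg p')) hsq' (fun i hi => hSm p p' q i hC hi)
      fun i hi => hBm p p' q i hC hi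

end

end Pool.Agent.W_7d29a1_C0.Asm96
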