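import Pool.Agent.W_7d29a1_C0.Mod92
import Pool.Agent.W_7d29a1_HZ.Defs

/-!
MP_7d29a1_pr, [CURV0] / [C0]: THE CONDITIONAL LAW OF A BLOCK IS THE PINNED POLYMER. (helper18)

In the model `Mod92`, the conditional mean given what the path does outside of the block `[c, d)` (`cE _ (pJ c d)`) is the mean under
the polymer `gp` with fixed ends of the block, in the shifted environment: `blk18`, for every full family `Q` of paths (`Fr N`, `Pn N y`).
`spl c d S T` is the path `S` in which the piece over the block is replaced by the path `T` of length `d - c`, `pce c d S` is the piece of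
`S` over the block. `blk1_18`, `blk2_18`: the law of the position at one and at two times of the block in terms of the kernels `W`.
`gm_Pn`: the pinned model is `gp`.
-/

set_option autoImplicit false

namespace Pool.Agent.W_7d29a1_C0.Blk18

open Finset MeasureTheory Pool.Agent.W_7d29a1_F Pool.Agent.W_7d29a1_X Pool.Agent.W_7d29a1_H
open Pool.Agent.W_7d29a1_HZ (gp)
open Pool.W7d29a1.C0 (gz gm)
open Pool.W7d29a1.C0.VT31 (Mp Crs cE cV cC fz gc gv)
open Pool.Agent.W_7d29a1_C0.Mod92

noncomputable section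

/-! ### Splicing -/

/-- The path `S` in which the piece over the block `[c, d)` is replaced by `T`. -/
def spl (c d : ℕ) (S T : Finset ℕ) : Finset ℕ := (S \ Ico c d) ∪ T.image (· + c)

/-- The piece of the path `S` over the block `[c, d)`. -/
def pce (c d : ℕ) (S : Finset ℕ) : Finset ℕ := (S ∩ Ico c d).image (· - c)

variable {c d N : ℕ}

theorem img_sub {T : Finset ℕ} (hT : T ⊆ range (d - c)) : T.image (· + c) ⊆ Ico c d := by
  intro i hi
  rw [mem_image] at hi
  obtain ⟨k, hk, rfl⟩ := hi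
  have := hT hk
  rw [mem_range] at this
  rw [mem_Ico]
  omega

theorem card_img (T : Finset ℕ) : (T.image (· + c)).card = T.card :=
  card_image_of_injective _ fun a b h => by simpa using h

theorem spl_out {S T : Finset ℕ} (hT : T ⊆ range (d - c)) : spl c d S T \ Ico c d = S \ Ico c d := by
  unfold spl
  rw [union_sdiff_distrib, sdiff_eq_empty_iff_subset.2 (img_sub hT), union_empty, sdiff_sdiff_left, sup_idem]

theorem spl_in {S T : Finset ℕ} (hT : T ⊆ range (d - c)) : spl c d S T ∩ Ico c d = T.image (· + c) := by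
  unfold spl
  rw [union_inter_distrib_right, inter_eq_left.2 (img_sub hT), sdiff_inter_self, empty_union]

theorem spl_sub {S T : Finset ℕ} (hd : d ≤ N) (hS : S ⊆ range N) (hT : T ⊆ range (d - c)) : spl c d S T ⊆ range N := by
  unfold spl
  refine union_subset (sdiff_subset.trans hS) fun i hi => ?_
  have := img_sub hT hi
  rw [mem_Ico] at this
  rw [mem_range]
  omega

theorem pce_sub (S : Finset ℕ) : pce c d S ⊆ range (d - c) := by
  intro i hi
  unfold pce at hi
  rw [mem_image] at hi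
  obtain ⟨k, hk, rfl⟩ := hi
  rw [mem_inter, mem_Ico] at hk
  rw [mem_range]
  omega

theorem pce_spl {S T : Finset ℕ} (hT : T ⊆ range (d - c)) : pce c d (spl c d S T) = T := by
  unfold pce
  rw [spl_in hT, image_image]
  have : (fun i : ℕ => i - c) ∘ (fun i => i + c) = id := by
    funext i
    show i + c - c = i
    omega
  rw [this, image_id]

theorem img_pce (S : Finset ℕ) : (pce c d S).image (· + c) = S ∩ Ico c d := by
  unfold pce
  rw [image_image]
  have h : ∀ i ∈ S ∩ Ico c d, ((fun i : ℕ => i + c) ∘ fun i => i - c) i = id i := by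
    intro i hi
    rw [mem_inter, mem_Ico] at hi
    show i - c + c = i
    omega
  rw [image_congr (g := id) fun i hi => h i hi, image_id]

theorem card_pce (S : Finset ℕ) : (pce c d S).card = (S ∩ Ico c d).card := by
  rw [← img_pce S, card_img]

theorem spl_pce {S S' : Finset ℕ} (h : S' \ Ico c d = S \ Ico c d) : spl c d S (pce c d S') = S' := by
  unfold spl
  rw [img_pce, ← h]
  exact sdiff_union_inter _ _

/-! ### Positions -/

/-- Rows before the block. -/
theorem pos_spl_le {S T : Finset ℕ} {t : ℕ} (_hT : T ⊆ range (d - c)) (ht : t ≤ c) : pos (spl c d S T) t = pos S t := by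
  unfold pos
  congr 2
  ext i
  unfold spl
  simp only [mem_inter, mem_union, mem_sdiff, mem_Ico, mem_range, mem_image]
  constructor
  · rintro ⟨h1 | ⟨k, _, rfl⟩, h2⟩
    · exact ⟨h1.1, h2⟩
    · omega
  · rintro ⟨h1, h2⟩
    exact ⟨Or.inl ⟨h1, by omega⟩, h2⟩

/-- Rows of the block. -/
theorem pos_spl_mid {S T : Finset ℕ} {k : ℕ} (_hT : T ⊆ range (d - c)) (hk : c + k ≤ d) :
    pos (spl c d S T) (c + k) = pos S c + pos T k := by
  unfold pos
  have h : spl c d S T ∩ range (c + k) = (S ∩ range c) ∪ (T ∩ range k).image (· + c) := by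
    ext i
    unfold spl
    simp only [mem_inter, mem_union, mem_sdiff, mem_Ico, mem_range, mem_image]
    constructor
    · rintro ⟨⟨h1, h2⟩ | ⟨j, hj, rfl⟩, h3⟩
      · left
        refine ⟨h1, ?_⟩
        by_contra h4
        exact h2 ⟨by omega, by omega⟩
      · exact Or.inr ⟨j, ⟨hj, by omega⟩, rfl⟩
    · rintro (⟨h1, h2⟩ | ⟨j, ⟨hj, hj'⟩, rfl⟩)
      · exact ⟨Or.inl ⟨h1, by omega⟩, by omega⟩
      · exact ⟨Or.inr ⟨j, hj, rfl⟩, by omega⟩
  rw [h, card_union_of_disjoint, card_img]
  · push_cast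
    rfl
  · rw [disjoint_left]
    intro i h1 h2
    rw [mem_inter, mem_range] at h1
    rw [mem_image] at h2
    obtain ⟨j, _, rfl⟩ := h2
    omega

/-- Rows after the block. -/
theorem pos_spl_ge {S T : Finset ℕ} {t : ℕ} (hT : T ⊆ range (d - c)) (hc : (T.card : ℤ) = pos S d - pos S c) (hcd : c ≤ d)
    (ht : d ≤ t) : pos (spl c d S T) t = pos S t := by
  have h : ∀ S : Finset ℕ, pos S t = pos S d + ((S ∩ Ico d t).card : ℤ) := fun S => by
    unfold pos
    have h1 : S ∩ range t = (S ∩ range d) ∪ (S ∩ Ico d t) := by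
      ext i
      simp only [mem_inter, mem_union, mem_range, mem_Ico]
      constructor
      · rintro ⟨h1, h2⟩
        by_cases h3 : i < d
        · exact Or.inl ⟨h1, h3⟩
        · exact Or.inr ⟨h1, by omega, h2⟩
      · rintro (⟨h1, h2⟩ | ⟨h1, h2, h3⟩)
        · exact ⟨h1, by omega⟩
        · exact ⟨h1, h3⟩
    rw [h1, card_union_of_disjoint]
    · push_cast
      rfl
    · rw [disjoint_left]
      intro i h2 h3
      simp only [mem_inter, mem_range, mem_Ico] at h2 h3
      omega
  have h2 : spl c d S T ∩ Ico d t = S ∩ Ico d t := by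
    ext i
    unfold spl
    simp only [mem_inter, mem_union, mem_sdiff, mem_Ico, mem_image]
    constructor
    · rintro ⟨⟨h1, _⟩ | ⟨k, hk, rfl⟩, h3⟩
      · exact ⟨h1, h3⟩
      · have := hT hk
        rw [mem_range] at this
        omega
    · rintro ⟨h1, h3⟩
      exact ⟨Or.inl ⟨h1, by omega⟩, h3⟩
  rw [h (spl c d S T), h S, h2]
  have h3 := pos_spl_mid (S := S) hT (k := d - c) (by omega)
  rw [Nat.add_sub_cancel' hcd, pos_card hT] at h3
  rw [h3, hc]
  ring

/-- The displacement over the block. -/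
theorem card_blk (S : Finset ℕ) (hcd : c ≤ d) : ((S ∩ Ico c d).card : ℤ) = pos S d - pos S c := by
  unfold pos
  have h1 : S ∩ range d = (S ∩ range c) ∪ (S ∩ Ico c d) := by
    ext i
    simp only [mem_inter, mem_union, mem_range, mem_Ico]
    constructor
    · rintro ⟨h1, h2⟩
      by_cases h3 : i < c
      · exact Or.inl ⟨h1, h3⟩
      · exact Or.inr ⟨h1, by omega, h2⟩
    · rintro (⟨h1, h2⟩ | ⟨h1, h2, h3⟩)
      · exact ⟨h1, by omega⟩
      · exact ⟨h1, h3⟩
  rw [h1, card_union_of_disjoint]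
  · push_cast
    ring
  · rw [disjoint_left]
    intro i h2 h3
    simp only [mem_inter, mem_range, mem_Ico] at h2 h3
    omega

/-! ### Weights -/

variable {μ : Measure ℝ} {s : ℝ}

/-- The weight of what is outside of the block. -/
def ko (μ : Measure ℝ) (s : ℝ) (η : Env) (N c d : ℕ) (S : Finset ℕ) : ℝ :=
  Real.exp (s * (pos S N : ℝ) - N * lam μ s) * Real.exp (-(s * ((pos S d - pos S c : ℤ) : ℝ) - ((d - c : ℕ) : ℝ) * lam μ s)) *
    ((∏ i ∈ range c, Real.exp (η ((i : ℤ) + 1, pos S (i + 1)))) * ∏ i ∈ Ico d N, Real.exp (η ((i : ℤ) + 1, pos S (i + 1))))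

theorem ko_pos (η : Env) (N c d : ℕ) (S : Finset ℕ) : 0 < ko μ s η N c d S :=
  mul_pos (mul_pos (Real.exp_pos _) (Real.exp_pos _)) (mul_pos (prod_pos fun _ _ => Real.exp_pos _) (prod_pos fun _ _ => Real.exp_pos _))

/-- The weight of a spliced path. -/
theorem pth_spl (η : Env) {S T : Finset ℕ} (hcd : c ≤ d) (hd : d ≤ N) (hT : T ⊆ range (d - c))
    (hc : pos T (d - c) = pos S d - pos S c) :
    pth μ s η N (spl c d S T) = ko μ s η N c d S * pth μ s (sh ((c : ℤ), pos S c) η) (d - c) T := by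
  have hc' : (T.card : ℤ) = pos S d - pos S c := by rw [← hc, pos_card hT]
  unfold pth ko
  rw [pos_spl_ge hT hc' hcd hd, hc]
  have e0 : ∏ i ∈ range N, Real.exp (η ((i : ℤ) + 1, pos (spl c d S T) (i + 1))) =
      (∏ i ∈ range c, Real.exp (η ((i : ℤ) + 1, pos S (i + 1)))) *
      ((∏ k ∈ range (d - c), Real.exp (sh ((c : ℤ), pos S c) η ((k : ℤ) + 1, pos T (k + 1)))) *
        ∏ i ∈ Ico d N, Real.exp (η ((i : ℤ) + 1, pos S (i + 1)))) := by
    rw [range_eq_Ico, ← prod_Ico_consecutive _ (Nat.zero_le c) (hcd.trans hd), ← prod_Ico_consecutive _ hcd hd, ← range_eq_Ico]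
    congr 1
    · refine prod_congr rfl fun i hi => ?_
      rw [mem_range] at hi
      rw [pos_spl_le hT (by omega)]
    · congr 1
      · rw [prod_Ico_eq_prod_range]
        refine prod_congr rfl fun k hk => ?_
        rw [mem_range] at hk
        have e1 : c + k + 1 = c + (k + 1) := by ring
        rw [e1, pos_spl_mid hT (by omega)]
        unfold sh
        congr 2
        refine Prod.ext ?_ ?_
        · show ((c + k : ℕ) : ℤ) + 1 = (k : ℤ) + 1 + c
          push_cast
          ring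
        · show pos S c + pos T (k + 1) = pos T (k + 1) + pos S c
          ring
      · refine prod_congr rfl fun i hi => ?_
        rw [mem_Ico] at hi
        rw [pos_spl_ge hT hc' hcd (by omega)]
  rw [e0]
  have e2 : Real.exp (-(s * ((pos S d - pos S c : ℤ) : ℝ) - ((d - c : ℕ) : ℝ) * lam μ s)) *
      Real.exp (s * ((pos S d - pos S c : ℤ) : ℝ) - ((d - c : ℕ) : ℝ) * lam μ s) = 1 := by
    rw [← Real.exp_add, neg_add_cancel, Real.exp_zero]
  calc _ = Real.exp (s * (pos S N : ℝ) - N * lam μ s) * (Real.exp (-(s * ((pos S d - pos S c : ℤ) : ℝ) - ((d - c : ℕ) : ℝ) * lam μ s)) *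
      Real.exp (s * ((pos S d - pos S c : ℤ) : ℝ) - ((d - c : ℕ) : ℝ) * lam μ s)) *
      ((∏ i ∈ range c, Real.exp (η ((i : ℤ) + 1, pos S (i + 1)))) *
      ((∏ k ∈ range (d - c), Real.exp (sh ((c : ℤ), pos S c) η ((k : ℤ) + 1, pos T (k + 1)))) *
        ∏ i ∈ Ico d N, Real.exp (η ((i : ℤ) + 1, pos S (i + 1))))) := by rw [e2, mul_one]
    _ = _ := by ring

/-! ### The fibres -/

/-- The families which contain, with a path, all the paths of length `N` with the same number of up steps: `Fr N` and `Pn N y`. -/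
structure Full (N : ℕ) (Q : Finset (Finset ℕ)) : Prop where
  sub : ∀ S ∈ Q, S ⊆ range N
  sat : ∀ S ∈ Q, ∀ S' : Finset ℕ, S' ⊆ range N → S'.card = S.card → S' ∈ Q

theorem full_Fr (N : ℕ) : Full N (Fr N) := ⟨fun _ h => mem_powerset.1 h, fun _ _ _ h _ => mem_powerset.2 h⟩

theorem full_Pn (N y : ℕ) : Full N (Pn N y) :=
  ⟨fun _ h => (mem_powersetCard.1 h).1, fun _ h _ h' hc => mem_powersetCard.2 ⟨h', hc.trans (mem_powersetCard.1 h).2⟩⟩

variable {Q : Finset (Finset ℕ)}

theorem card_eq_of {S S' : Finset ℕ} (h : S' \ Ico c d = S \ Ico c d) (h' : (S' ∩ Ico c d).card = (S ∩ Ico c d).card) :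
    S'.card = S.card := by
  rw [← card_sdiff_add_card_inter S' (Ico c d), ← card_sdiff_add_card_inter S (Ico c d), h, h']

theorem spl_mem (hQ : Full N Q) {S T : Finset ℕ} (hd : d ≤ N) (hS : S ∈ Q) (hT : T ⊆ range (d - c))
    (hc : T.card = (S ∩ Ico c d).card) : spl c d S T ∈ Q := by
  refine hQ.sat S hS _ (spl_sub hd (hQ.sub S hS) hT) (card_eq_of (spl_out hT) ?_)
  rw [spl_in hT, card_img, hc]

/-- The paths which agree with `S` outside of the block are the spliced paths. -/
theorem sum_fib (hQ : Full N Q) {S : Finset ℕ} (hcd : c ≤ d) (hd : d ≤ N) (hS : S ∈ Q) (F : Finset ℕ → ℝ) :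
    ∑ S' ∈ Q, (if (S' \ Ico c d, (S' ∩ Ico c d).card) = (S \ Ico c d, (S ∩ Ico c d).card) then F S' else 0) =
      ∑ T ∈ (range (d - c)).powerset, if pos T (d - c) = pos S d - pos S c then F (spl c d S T) else 0 := by
  rw [← sum_filter, ← sum_filter]
  refine sum_bij' (fun S' _ => pce c d S') (fun T _ => spl c d S T) ?_ ?_ ?_ ?_ ?_
  · intro S' h
    rw [mem_filter, Prod.mk.injEq] at h
    rw [mem_filter, mem_powerset]
    refine ⟨pce_sub S', ?_⟩
    rw [pos_card (pce_sub S'), card_pce, h.2.2, card_blk S hcd]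
  · intro T h
    rw [mem_filter, mem_powerset] at h
    have h2 : T.card = (S ∩ Ico c d).card := by
      have h1 := h.2
      rw [pos_card h.1, ← card_blk S hcd] at h1
      exact_mod_cast h1
    rw [mem_filter, Prod.mk.injEq]
    refine ⟨spl_mem hQ hd hS h.1 h2, spl_out h.1, ?_⟩
    rw [spl_in h.1, card_img, h2]
  · intro S' h
    rw [mem_filter, Prod.mk.injEq] at h
    exact spl_pce h.2.1
  · intro T h
    rw [mem_filter, mem_powerset] at h
    exact pce_spl h.1
  · intro S' h
    rw [mem_filter, Prod.mk.injEq] at h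
    show F S' = F (spl c d S (pce c d S'))
    rw [spl_pce h.2.1]

/-- The weights with fixed end point of length `m`. -/
theorem sum_pin (η : Env) (m : ℕ) (y : ℤ) :
    ∑ T ∈ (range m).powerset, (if pos T m = y then pth μ s η m T else 0) = W μ s η 0 m y := by
  rw [← Mt_one]
  unfold Mt
  refine sum_congr rfl fun T _ => ?_
  split_ifs
  · rw [mul_one]
  · rfl

open Classical in
/-- The spliced path as an element of `Px Q` (`S` itself if the spliced path is not in the family). -/
def splP (c d : ℕ) (S : Px Q) (T : Finset ℕ) : Px Q := if h : spl c d S.1 T ∈ Q then ⟨spl c d S.1 T, h⟩ else S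

theorem splP_val {S : Px Q} {T : Finset ℕ} (h : spl c d S.1 T ∈ Q) : (splP c d S T).1 = spl c d S.1 T := by
  unfold splP
  rw [dif_pos h]

/-- The pieces with the right displacement. -/
theorem splP_val' (hQ : Full N Q) (hcd : c ≤ d) (hd : d ≤ N) (S : Px Q) {T : Finset ℕ} (hT : T ⊆ range (d - c))
    (hc : pos T (d - c) = ps S d - ps S c) : (splP c d S T).1 = spl c d S.1 T := by
  refine splP_val (spl_mem hQ hd S.2 hT ?_)
  have h1 : (T.card : ℤ) = ((S.1 ∩ Ico c d).card : ℤ) := by
    rw [card_blk S.1 hcd, ← pos_card hT]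
    exact hc
  exact_mod_cast h1

/-- **The conditional law of a block is the pinned polymer**, functions of the set. -/
theorem blk18_set [Nonempty (Px Q)] (hQ : Full N Q) (η : Env) (hcd : c ≤ d) (hd : d ≤ N) (S : Px Q) (F : Finset ℕ → ℝ) :
    cE (lw μ s η N Q) (pJ c d) (fun S' => F S'.1) S =
      ∑ T ∈ (range (d - c)).powerset, gp μ s (sh ((c : ℤ), ps S c) η) (d - c) (ps S d - ps S c) T * F (spl c d S.1 T) := by
  obtain ⟨y, hy⟩ : ∃ y : ℤ, y = ps S d - ps S c := ⟨_, rfl⟩
  obtain ⟨ζ, hζ⟩ : ∃ ζ : Env, ζ = sh ((c : ℤ), ps S c) η := ⟨_, rfl⟩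
  have key : ∀ G : Finset ℕ → ℝ, (∑ S' : Px Q, if pJ c d S' = pJ c d S then Real.exp (lw μ s η N Q S') * G S'.1 else 0) =
      ko μ s η N c d S.1 * ∑ T ∈ (range (d - c)).powerset, if pos T (d - c) = y then pth μ s ζ (d - c) T * G (spl c d S.1 T) else 0 := by
    intro G
    have h1 : (∑ S' : Px Q, if pJ c d S' = pJ c d S then Real.exp (lw μ s η N Q S') * G S'.1 else 0) =
        ∑ S' ∈ Q, (if (S' \ Ico c d, (S' ∩ Ico c d).card) = (S.1 \ Ico c d, (S.1 ∩ Ico c d).card) then
          pth μ s η N S' * G S' else 0) := by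
      rw [← sum_Px (Q := Q) fun S' => (if (S' \ Ico c d, (S' ∩ Ico c d).card) = (S.1 \ Ico c d, (S.1 ∩ Ico c d).card) then
          pth μ s η N S' * G S' else 0)]
      refine sum_congr rfl fun S' _ => ?_
      unfold pJ
      rw [exp_lw]
    rw [h1, sum_fib hQ hcd hd S.2, mul_sum]
    refine sum_congr rfl fun T hT => ?_
    rw [mem_powerset] at hT
    have hy' : pos S.1 d - pos S.1 c = y := hy.symm
    rw [hy']
    split_ifs with h
    · rw [pth_spl η hcd hd hT (by rw [h, hy'])]
      have : sh ((c : ℤ), pos S.1 c) η = ζ := hζ.symm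
      rw [this]
      ring
    · rw [mul_zero]
  have hz : fz (lw μ s η N Q) (pJ c d) S = ko μ s η N c d S.1 * W μ s ζ 0 (d - c) y := by
    have h1 := key fun _ => 1
    simp only [mul_one] at h1
    unfold fz
    rw [h1, sum_pin]
  unfold cE
  rw [key F, hz, mul_div_mul_left _ _ (ko_pos η N c d S.1).ne', sum_div, ← hy, ← hζ]
  refine sum_congr rfl fun T _ => ?_
  unfold gp
  split_ifs
  · ring
  · rw [zero_div, zero_mul]

/-- **The conditional law of a block is the pinned polymer**, functions on `Px Q`. -/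
theorem blk18 [Nonempty (Px Q)] (hQ : Full N Q) (η : Env) (hcd : c ≤ d) (hd : d ≤ N) (S : Px Q) (f : Px Q → ℝ) :
    cE (lw μ s η N Q) (pJ c d) f S =
      ∑ T ∈ (range (d - c)).powerset, gp μ s (sh ((c : ℤ), ps S c) η) (d - c) (ps S d - ps S c) T * f (splP c d S T) := by
  classical
  have h := blk18_set (μ := μ) (s := s) hQ η hcd hd S fun S' => if h : S' ∈ Q then f ⟨S', h⟩ else 0
  have e1 : (fun S' : Px Q => if h : S'.1 ∈ Q then f ⟨S'.1, h⟩ else 0) = f := by
    funext S'
    rw [dif_pos S'.2]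
  rw [e1] at h
  rw [h]
  refine sum_congr rfl fun T hT => ?_
  rw [mem_powerset] at hT
  by_cases hc : pos T (d - c) = ps S d - ps S c
  · have h2 := splP_val' hQ hcd hd S hT hc
    have h3 : spl c d S.1 T ∈ Q := h2 ▸ (splP c d S T).2
    rw [dif_pos h3]
    congr 2
    exact Subtype.ext h2.symm
  · unfold gp
    rw [if_neg hc, zero_mul, zero_mul]

/-- The positions of the spliced path. -/
theorem ps_splP_le (hQ : Full N Q) (hcd : c ≤ d) (hd : d ≤ N) (S : Px Q) {T : Finset ℕ} (hT : T ⊆ range (d - c))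
    (hc : pos T (d - c) = ps S d - ps S c) {t : ℕ} (ht : t ≤ c) : ps (splP c d S T) t = ps S t := by
  unfold ps
  rw [splP_val' hQ hcd hd S hT hc, pos_spl_le hT ht]

theorem ps_splP_mid (hQ : Full N Q) (hcd : c ≤ d) (hd : d ≤ N) (S : Px Q) {T : Finset ℕ} (hT : T ⊆ range (d - c))
    (hc : pos T (d - c) = ps S d - ps S c) {k : ℕ} (hk : c + k ≤ d) : ps (splP c d S T) (c + k) = ps S c + pos T k := by
  unfold ps
  rw [splP_val' hQ hcd hd S hT hc, pos_spl_mid hT hk]

theorem ps_splP_ge (hQ : Full N Q) (hcd : c ≤ d) (hd : d ≤ N) (S : Px Q) {T : Finset ℕ} (hT : T ⊆ range (d - c))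
    (hc : pos T (d - c) = ps S d - ps S c) {t : ℕ} (ht : d ≤ t) : ps (splP c d S T) t = ps S t := by
  unfold ps
  rw [splP_val' hQ hcd hd S hT hc]
  refine pos_spl_ge hT ?_ hcd ht
  rw [← pos_card hT]
  exact hc

theorem pJ_splP (hQ : Full N Q) (hcd : c ≤ d) (hd : d ≤ N) (S : Px Q) {T : Finset ℕ} (hT : T ⊆ range (d - c))
    (hc : pos T (d - c) = ps S d - ps S c) : pJ c d (splP c d S T) = pJ c d S := by
  unfold pJ
  rw [splP_val' hQ hcd hd S hT hc, spl_out hT, spl_in hT, card_img]
  congr 1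
  have h1 := card_blk S.1 hcd
  have h2 : (T.card : ℤ) = pos S.1 d - pos S.1 c := by
    rw [← pos_card hT]
    exact hc
  rw [← h1] at h2
  exact_mod_cast h2

/-- A function of the path over the block and of its ends. -/
theorem blk18_pce [Nonempty (Px Q)] (hQ : Full N Q) (η : Env) (hcd : c ≤ d) (hd : d ≤ N) (S : Px Q) (F : Finset ℕ → ℝ) :
    cE (lw μ s η N Q) (pJ c d) (fun S' => F (pce c d S'.1)) S =
      ∑ T ∈ (range (d - c)).powerset, gp μ s (sh ((c : ℤ), ps S c) η) (d - c) (ps S d - ps S c) T * F T := by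
  rw [blk18_set hQ η hcd hd S fun S' => F (pce c d S')]
  refine sum_congr rfl fun T hT => ?_
  rw [mem_powerset] at hT
  rw [pce_spl hT]

/-- The positions over the block. -/
theorem pos_pce (S : Finset ℕ) {k : ℕ} (hk : c + k ≤ d) : pos (pce c d S) k = pos S (c + k) - pos S c := by
  have h := pos_spl_mid (S := S) (pce_sub (c := c) (d := d) S) hk
  rw [spl_pce rfl] at h
  omega

/-- **The pinned model is the pinned polymer.** -/
theorem gm_Pn (η : Env) (N y : ℕ) (F : Finset ℕ → ℝ) :
    gm (lw μ s η N (Pn N y)) (fun S => F S.1) = ∑ S ∈ (range N).powerset, gp μ s η N y S * F S := by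
  have h : Pn N y = (range N).powerset.filter fun S => pos S N = (y : ℤ) := by
    ext S
    rw [mem_powersetCard, mem_filter, mem_powerset]
    refine and_congr_right fun h => ?_
    rw [pos_card h]
    exact Int.natCast_inj.symm
  unfold gm
  rw [gz_Pn]
  have h1 : ∑ S : Px (Pn N y), Real.exp (lw μ s η N (Pn N y) S) * F S.1 = ∑ S ∈ Pn N y, pth μ s η N S * F S := by
    rw [← sum_Px (Q := Pn N y) fun S => pth μ s η N S * F S]
    exact sum_congr rfl fun S _ => by rw [exp_lw]
  rw [h1, h, sum_filter, sum_div]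
  refine sum_congr rfl fun S _ => ?_
  unfold gp
  split_ifs
  · ring
  · rw [zero_div, zero_mul]

/-! ### One and two times -/

/-- The position at one time of the pinned polymer. -/
theorem gp_one (η : Env) {m k : ℕ} (hk : k ≤ m) (y : ℤ) (φ : ℤ → ℝ) :
    ∑ T ∈ (range m).powerset, gp μ s η m y T * φ (pos T k) =
      ∑ u ∈ Icc (0 : ℤ) k, W μ s η 0 k u * W μ s η ((k : ℤ), u) (m - k) (y - u) / W μ s η 0 m y * φ u := by
  have h := Mt_add (μ := μ) (s := s) η k (m - k) (fun S => φ (pos S k)) y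
  rw [Nat.add_sub_cancel' hk] at h
  have h1 : ∀ x, Mt μ s η k (fun S => φ (pos S k)) x = W μ s η 0 k x * φ x := by
    intro x
    rw [← Mt_one]
    unfold Mt
    rw [sum_mul]
    refine sum_congr rfl fun S _ => ?_
    by_cases hx : pos S k = x
    · rw [if_pos hx, if_pos hx]
      beta_reduce
      rw [hx]
      ring
    · rw [if_neg hx, if_neg hx, zero_mul]
  simp only [h1] at h
  have h2 : ∑ T ∈ (range m).powerset, gp μ s η m y T * φ (pos T k) =
      Mt μ s η m (fun S => (fun S => φ (pos S k)) (S ∩ range k)) y / W μ s η 0 m y := by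
    unfold Mt
    rw [sum_div]
    refine sum_congr rfl fun T _ => ?_
    beta_reduce
    rw [pos_inter _ le_rfl]
    unfold gp
    split_ifs
    · ring
    · rw [zero_mul, zero_div]
  rw [h2, h, sum_div]
  refine sum_congr rfl fun u _ => ?_
  ring

/-- The positions at two times of the pinned polymer. -/
theorem gp_two (η : Env) {m k l : ℕ} (hk : k ≤ l) (hl : l ≤ m) (y : ℤ) (φ : ℤ → ℤ → ℝ) :
    ∑ T ∈ (range m).powerset, gp μ s η m y T * φ (pos T k) (pos T l) =
      ∑ u ∈ Icc (0 : ℤ) k, ∑ v ∈ Icc (0 : ℤ) l, W μ s η 0 k u * W μ s η ((k : ℤ), u) (l - k) (v - u) *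
        W μ s η ((l : ℤ), v) (m - l) (y - v) / W μ s η 0 m y * φ u v := by
  have h := Mt_add (μ := μ) (s := s) η l (m - l) (fun S => φ (pos S k) (pos S l)) y
  rw [Nat.add_sub_cancel' hl] at h
  have h1 : ∀ v, Mt μ s η l (fun S => φ (pos S k) (pos S l)) v =
      ∑ u ∈ Icc (0 : ℤ) k, W μ s η 0 k u * φ u v * W μ s η ((k : ℤ), u) (l - k) (v - u) := by
    intro v
    have h3 := Mt_add (μ := μ) (s := s) η k (l - k) (fun S => φ (pos S k) v) v
    rw [Nat.add_sub_cancel' hk] at h3
    have h4 : Mt μ s η l (fun S => φ (pos S k) (pos S l)) v = Mt μ s η l (fun S => φ (pos (S ∩ range k) k) v) v := by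
      unfold Mt
      refine sum_congr rfl fun S _ => ?_
      by_cases hx : pos S l = v
      · rw [if_pos hx, if_pos hx]
        beta_reduce
        rw [pos_inter _ le_rfl, hx]
      · rw [if_neg hx, if_neg hx]
    rw [h4, h3]
    refine sum_congr rfl fun u _ => ?_
    congr 1
    rw [← Mt_one]
    unfold Mt
    rw [sum_mul]
    refine sum_congr rfl fun S _ => ?_
    by_cases hx : pos S k = u
    · rw [if_pos hx, if_pos hx]
      beta_reduce
      rw [hx]
      ring
    · rw [if_neg hx, if_neg hx, zero_mul]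
  simp only [h1] at h
  have h2 : ∑ T ∈ (range m).powerset, gp μ s η m y T * φ (pos T k) (pos T l) =
      Mt μ s η m (fun S => (fun S => φ (pos S k) (pos S l)) (S ∩ range l)) y / W μ s η 0 m y := by
    unfold Mt
    rw [sum_div]
    refine sum_congr rfl fun T _ => ?_
    beta_reduce
    rw [pos_inter _ le_rfl, pos_inter _ hk]
    unfold gp
    split_ifs
    · ring
    · rw [zero_mul, zero_div]
  rw [h2, h, sum_comm, sum_div]
  refine sum_congr rfl fun v _ => ?_
  rw [sum_mul, sum_div]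
  refine sum_congr rfl fun u _ => ?_
  ring

/-- **The position at one time `c + k` of the block**, in the frame of the environment. -/
theorem blk1_18 [Nonempty (Px Q)] (hQ : Full N Q) (η : Env) (hcd : c ≤ d) (hd : d ≤ N) (S : Px Q) {k : ℕ} (hk : c + k ≤ d) (φ : ℤ → ℝ) :
    cE (lw μ s η N Q) (pJ c d) (fun S' => φ (ps S' (c + k))) S =
      ∑ u ∈ Icc (0 : ℤ) k, W μ s η ((c : ℤ), ps S c) k u *
        W μ s η (((c + k : ℕ) : ℤ), ps S c + u) (d - c - k) (ps S d - ps S c - u) /
        W μ s η ((c : ℤ), ps S c) (d - c) (ps S d - ps S c) * φ (ps S c + u) := by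
  have e1 := blk18_set (μ := μ) (s := s) hQ η hcd hd S fun S' => φ (pos S' (c + k))
  have e2 : ∑ T ∈ (range (d - c)).powerset, gp μ s (sh ((c : ℤ), ps S c) η) (d - c) (ps S d - ps S c) T *
      φ (pos (spl c d S.1 T) (c + k)) = ∑ T ∈ (range (d - c)).powerset,
        gp μ s (sh ((c : ℤ), ps S c) η) (d - c) (ps S d - ps S c) T * φ (ps S c + pos T k) := by
    refine sum_congr rfl fun T hT => ?_
    rw [mem_powerset] at hT
    rw [pos_spl_mid hT hk]
    rfl
  rw [e2] at e1
  refine e1.trans ?_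
  have h := gp_one (μ := μ) (s := s) (sh ((c : ℤ), ps S c) η) (m := d - c) (k := k) (by omega) (ps S d - ps S c)
    fun u => φ (ps S c + u)
  rw [h]
  refine sum_congr rfl fun u _ => ?_
  rw [W_sh, W_sh, W_sh]
  have a1 : (0 : Pt) + ((c : ℤ), ps S c) = ((c : ℤ), ps S c) := zero_add _
  have a2 : (((k : ℤ), u) : Pt) + ((c : ℤ), ps S c) = (((c + k : ℕ) : ℤ), ps S c + u) := by
    refine Prod.ext ?_ ?_
    · show (k : ℤ) + c = ((c + k : ℕ) : ℤ)
      push_cast
      ring
    · show u + ps S c = ps S c + u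
      ring
  rw [a1, a2]

/-- **The positions at two times of the block**, in the frame of the environment. -/
theorem blk2_18 [Nonempty (Px Q)] (hQ : Full N Q) (η : Env) (hcd : c ≤ d) (hd : d ≤ N) (S : Px Q) {k l : ℕ} (hk : k ≤ l) (hl : c + l ≤ d)
    (φ : ℤ → ℤ → ℝ) :
    cE (lw μ s η N Q) (pJ c d) (fun S' => φ (ps S' (c + k)) (ps S' (c + l))) S =
      ∑ u ∈ Icc (0 : ℤ) k, ∑ v ∈ Icc (0 : ℤ) l, W μ s η ((c : ℤ), ps S c) k u *
        W μ s η (((c + k : ℕ) : ℤ), ps S c + u) (l - k) (v - u) *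
        W μ s η (((c + l : ℕ) : ℤ), ps S c + v) (d - c - l) (ps S d - ps S c - v) /
        W μ s η ((c : ℤ), ps S c) (d - c) (ps S d - ps S c) * φ (ps S c + u) (ps S c + v) := by
  have e1 := blk18_set (μ := μ) (s := s) hQ η hcd hd S fun S' => φ (pos S' (c + k)) (pos S' (c + l))
  have e2 : ∑ T ∈ (range (d - c)).powerset, gp μ s (sh ((c : ℤ), ps S c) η) (d - c) (ps S d - ps S c) T *
      φ (pos (spl c d S.1 T) (c + k)) (pos (spl c d S.1 T) (c + l)) = ∑ T ∈ (range (d - c)).powerset,
        gp μ s (sh ((c : ℤ), ps S c) η) (d - c) (ps S d - ps S c) T * φ (ps S c + pos T k) (ps S c + pos T l) := by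
    refine sum_congr rfl fun T hT => ?_
    rw [mem_powerset] at hT
    rw [pos_spl_mid hT (by omega), pos_spl_mid hT hl]
    rfl
  rw [e2] at e1
  refine e1.trans ?_
  have h := gp_two (μ := μ) (s := s) (sh ((c : ℤ), ps S c) η) (m := d - c) hk (by omega) (ps S d - ps S c)
    fun u v => φ (ps S c + u) (ps S c + v)
  rw [h]
  refine sum_congr rfl fun u _ => sum_congr rfl fun v _ => ?_
  rw [W_sh, W_sh, W_sh, W_sh]
  have a1 : (0 : Pt) + ((c : ℤ), ps S c) = ((c : ℤ), ps S c) := zero_add _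
  have a2 : ∀ (k : ℕ) (u : ℤ), (((k : ℤ), u) : Pt) + ((c : ℤ), ps S c) = (((c + k : ℕ) : ℤ), ps S c + u) := by
    intro k u
    refine Prod.ext ?_ ?_
    · show (k : ℤ) + c = ((c + k : ℕ) : ℤ)
      push_cast
      ring
    · show u + ps S c = ps S c + u
      ring
  rw [a1, a2, a2]

end

end Pool.Agent.W_7d29a1_C0.Blk18
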