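import Pool.Agent.W_7d29a1_C0.FlipM61
import Pool.Agent.W_7d29a1_C0.Blk18

/-!
CURV0 (MP_7d29a1_pr), E7, EQUIVARIANCE UNDER THE FLIP. `Eqv c l v f f'`: `f` (on the family `Q₁`) and `f'` (on `Q₂`) have the same values
at paths with the same outside data of the window `[c, c + l)`, the displacement of the second path being moved by `v`. It holds for
the half response of the flipped row itself (`eqv_gw_self`), for the half responses of the other rows, the conditional means of the blocks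
disjoint from the window (`eqv_cE`) and the block functionals `Zm` of these blocks (`eqv_Zm`), between the environment `η` and
`shj j v η`, `v = - a_j`. `flip_close`: THE LAW INVARIANCE for all expressions. (helper61)
-/

set_option autoImplicit false
set_option linter.unusedSectionVars false

namespace Pool.Agent.W_7d29a1_C0.Flip61

open Pool.Agent.W_7d29a1_F hiding W_pos W_nonneg W_add
open Finset MeasureTheory Pool.Agent.W_7d29a1_X Pool.Agent.W_7d29a1_HZ
open Pool.Agent.W_7d29a1_Z74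
open Pool.Agent.W_7d29a1_HZ.Z74
open Pool.Agent.W_7d29a1_C0.Mod92
open Pool.Agent.W_7d29a1_C0.Blk18
open Pool.W7d29a1.C0 (gz gm gz_pos gz_ne)
open Pool.W7d29a1.C0.VT31 (Mp cE cV cC gc gv)

noncomputable section

variable {μ : Measure ℝ} {s : ℝ}

/-! ### Positions -/

theorem same_le {c l : ℕ} {v : ℤ} {S S' : Finset ℕ} (h : dJ c l 0 S = dJ c l v S') {t : ℕ} (ht : t ≤ c) : pos S t = pos S' t := by
  have h1 : S \ Ico c (c + l) = S' \ Ico c (c + l) := congrArg Prod.fst h
  have h2 : ∀ S : Finset ℕ, S ∩ range t = (S \ Ico c (c + l)) ∩ range t := fun S => by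
    ext i
    simp only [mem_inter, mem_sdiff, mem_Ico, mem_range]
    constructor
    · rintro ⟨h3, h4⟩
      exact ⟨⟨h3, by omega⟩, h4⟩
    · rintro ⟨⟨h3, _⟩, h4⟩
      exact ⟨h3, h4⟩
  unfold pos
  rw [h2 S, h2 S', h1]

theorem same_ge {c l : ℕ} {v : ℤ} {S S' : Finset ℕ} (h : dJ c l 0 S = dJ c l v S') {t : ℕ} (ht : c + l ≤ t) :
    pos S t = pos S' t + v := by
  have h1 : S \ Ico c (c + l) = S' \ Ico c (c + l) := congrArg Prod.fst h
  have h2 : ((S ∩ Ico c (c + l)).card : ℤ) + 0 = ((S' ∩ Ico c (c + l)).card : ℤ) + v := congrArg Prod.snd h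
  rw [card_Ico_pos S (Nat.le_add_right _ _), card_Ico_pos S' (Nat.le_add_right _ _), same_le h le_rfl] at h2
  have h3 : S \ range (c + l) = S' \ range (c + l) := by
    have h4 : ∀ S : Finset ℕ, S \ range (c + l) = (S \ Ico c (c + l)) \ range (c + l) := fun S => by
      ext i
      simp only [mem_sdiff, mem_Ico, mem_range]
      constructor
      · rintro ⟨h3, h4⟩
        exact ⟨⟨h3, by omega⟩, h4⟩
      · rintro ⟨⟨h3, _⟩, h4⟩
        exact ⟨h3, h4⟩
    rw [h4 S, h4 S', h1]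
  rw [pos_split (S := S) ht, pos_split (S := S') ht, h3]
  omega

/-- Two labels moved by the same amount. -/
theorem dJ_same {c l : ℕ} {v : ℤ} {S S' : Finset ℕ} : dJ c l v S = dJ c l v S' ↔ dJ c l 0 S = dJ c l 0 S' := by
  unfold dJ
  rw [Prod.mk.injEq, Prod.mk.injEq]
  refine and_congr_right fun _ => ?_
  constructor <;> intro h <;> omega

/-! ### Equivariant functions -/

/-- The same values at the same outside data of the window `[c, c + l)`. -/
def Eqv (c l : ℕ) (v : ℤ) {Q₁ Q₂ : Finset (Finset ℕ)} (f : Px Q₁ → ℝ) (f' : Px Q₂ → ℝ) : Prop :=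
  ∀ (S : Px Q₁) (S' : Px Q₂), dJ c l 0 S.1 = dJ c l v S'.1 → f S = f' S'

section Eqv

variable {c l : ℕ} {v : ℤ} {Q₁ Q₂ : Finset (Finset ℕ)}

theorem Eqv.add {f g : Px Q₁ → ℝ} {f' g' : Px Q₂ → ℝ} (h : Eqv c l v f f') (k : Eqv c l v g g') : Eqv c l v (f + g) (f' + g') :=
  fun S S' e => by rw [Pi.add_apply, Pi.add_apply, h S S' e, k S S' e]

theorem Eqv.sub {f g : Px Q₁ → ℝ} {f' g' : Px Q₂ → ℝ} (h : Eqv c l v f f') (k : Eqv c l v g g') : Eqv c l v (f - g) (f' - g') :=
  fun S S' e => by rw [Pi.sub_apply, Pi.sub_apply, h S S' e, k S S' e]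

theorem Eqv.mul {f g : Px Q₁ → ℝ} {f' g' : Px Q₂ → ℝ} (h : Eqv c l v f f') (k : Eqv c l v g g') : Eqv c l v (f * g) (f' * g') :=
  fun S S' e => by rw [Pi.mul_apply, Pi.mul_apply, h S S' e, k S S' e]

theorem Eqv.smul {f : Px Q₁ → ℝ} {f' : Px Q₂ → ℝ} (h : Eqv c l v f f') (r : ℝ) : Eqv c l v (r • f) (r • f') :=
  fun S S' e => by rw [Pi.smul_apply, Pi.smul_apply, h S S' e]

theorem Eqv.const (r : ℝ) : Eqv c l v (fun _ : Px Q₁ => r) (fun _ : Px Q₂ => r) := fun _ _ _ => rfl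

/-- A function of a position before the window. -/
theorem eqv_ps_le (φ : ℤ → ℝ) {t : ℕ} (ht : t ≤ c) : Eqv c l v (fun S : Px Q₁ => φ (ps S t)) (fun S : Px Q₂ => φ (ps S t)) :=
  fun S S' e => by
    show φ (pos S.1 t) = φ (pos S'.1 t)
    rw [same_le e ht]

/-- A function of a position behind the window. -/
theorem eqv_ps_ge (φ : ℤ → ℝ) {t : ℕ} (ht : c + l ≤ t) :
    Eqv c l v (fun S : Px Q₁ => φ (ps S t)) (fun S : Px Q₂ => φ (ps S t + v)) := fun S S' e => by
  show φ (pos S.1 t) = φ (pos S'.1 t + v)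
  rw [same_ge e ht]

/-- The environments `η` and `η'` are related by a shift by `v` of the rows behind the time `j`. -/
structure Rel (j : ℕ) (v : ℤ) (η η' : Env) : Prop where
  low : ∀ p : Pt, p.1 ≤ j → η' p = η p
  high : ∀ p : Pt, (j : ℤ) < p.1 → η' p = η (p.1, p.2 + v)

theorem rel_shj (j : ℕ) (v : ℤ) (η : Env) : Rel j v η (shj (j : ℤ) v η) where
  low p hp := by
    unfold shj
    rw [if_neg (not_lt.2 hp)]
  high p hp := by
    unfold shj
    rw [if_pos hp]

theorem rel_refl (j : ℕ) (η : Env) : Rel j 0 η η where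
  low _ _ := rfl
  high p _ := by rw [add_zero]

/-- The kernels before the flipped row. -/
theorem W_rel_le {j : ℕ} {η η' : Env} (h : Rel j v η η') (a : Pt) (n : ℕ) (y : ℤ) (ha : a.1 + n ≤ j) :
    W μ s η' a n y = W μ s η a n y := W_rows s a n y fun p _ hp => h.low p (by omega)

/-- The kernels behind the flipped row. -/
theorem W_rel_ge {j : ℕ} {η η' : Env} (h : Rel j v η η') (t x : ℤ) (n : ℕ) (y : ℤ) (ha : (j : ℤ) ≤ t) :
    W μ s η' (t, x) n y = W μ s η (t, x + v) n y := by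
  have e1 : ((t, x + v) : Pt) = (t, x) + (0, v) := by
    rw [Prod.ext_iff]
    simp
  rw [e1, ← W_sh]
  refine W_rows s (t, x) n y fun p hp _ => ?_
  rw [h.high p (lt_of_le_of_lt ha hp)]
  unfold sh
  congr 1
  rw [Prod.ext_iff]
  simp

/-- The kernels with a jump before the flipped row. -/
theorem ZJ_rel_le {j : ℕ} {η η' : Env} (h : Rel j v η η') (a : Pt) (m n : ℕ) (u y : ℤ) (ha : a.1 + m + n ≤ j) :
    ZJ μ s η' a m n u y = ZJ μ s η a m n u y := by
  unfold ZJ
  refine sum_congr rfl fun z _ => ?_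
  rw [W_rel_le h a m z (by omega), W_rel_le h (a.1 + m, a.2 + z + u) n _ (by show a.1 + m + n ≤ j; exact ha)]

/-- The kernels with a jump behind the flipped row. -/
theorem ZJ_rel_ge {j : ℕ} {η η' : Env} (h : Rel j v η η') (t x : ℤ) (m n : ℕ) (u y : ℤ) (ha : (j : ℤ) ≤ t) :
    ZJ μ s η' (t, x) m n u y = ZJ μ s η (t, x + v) m n u y := by
  unfold ZJ
  refine sum_congr rfl fun z _ => ?_
  rw [W_rel_ge h t x m z ha]
  have e : W μ s η' ((t, x).1 + (m : ℤ), (t, x).2 + z + u) n (y - z - u) =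
      W μ s η ((t, x + v).1 + (m : ℤ), (t, x + v).2 + z + u) n (y - z - u) := by
    show W μ s η' (t + (m : ℤ), x + z + u) n (y - z - u) = W μ s η (t + (m : ℤ), x + v + z + u) n (y - z - u)
    rw [W_rel_ge h (t + m) (x + z + u) n _ (by omega)]
    congr 2
    ring
  rw [e]

/-- The half response of another window, before the flipped row. -/
theorem gw_rel_le {j : ℕ} {η η' : Env} (h : Rel j v η η') (δ B : ℝ) (a : ℤ) (c' l' k' : ℕ) (x y : ℤ) (hk : k' ≤ l')
    (hc : c' + l' ≤ j) : gw μ s η' δ B a c' l' k' x y = gw μ s η δ B a c' l' k' x y := by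
  unfold gw lk
  rw [ZJ_rel_le h ((c' : ℤ), x) k' (l' - k') (-a) (y - x) (by push_cast [Nat.cast_sub hk]; omega),
    W_rel_le h ((c' : ℤ), x) l' (y - x) (by push_cast; omega)]

/-- The half response of another window, behind the flipped row. -/
theorem gw_rel_ge {j : ℕ} {η η' : Env} (h : Rel j v η η') (δ B : ℝ) (a : ℤ) (c' l' k' : ℕ) (x y : ℤ) (hc : j ≤ c') :
    gw μ s η' δ B a c' l' k' x y = gw μ s η δ B a c' l' k' (x + v) (y + v) := by
  unfold gw lk
  have e : y + v - (x + v) = y - x := by ring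
  rw [ZJ_rel_ge h c' x k' (l' - k') (-a) (y - x) (by exact_mod_cast hc), W_rel_ge h c' x l' (y - x) (by exact_mod_cast hc), e]

theorem cl_neg {B : ℝ} (hB : 0 ≤ B) (u : ℝ) : cl B (-u) = -cl B u := by
  unfold cl
  rcases le_total u (-B) with h | h
  · rw [max_eq_left (a := -B) (b := min B u) ((min_le_right _ _).trans h), min_eq_left (a := B) (b := -u) (by linarith),
      max_eq_right (by linarith), neg_neg]
  · rcases le_total u B with h' | h'
    · rw [min_eq_right h', max_eq_right h, min_eq_right (by linarith : -u ≤ B), max_eq_right (by linarith)]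
    · rw [min_eq_left h', max_eq_right (by linarith : -B ≤ B), min_eq_right (by linarith : -u ≤ B), max_eq_left (by linarith)]

theorem shj_shj (t u u' : ℤ) (η : Env) : shj t u (shj t u' η) = shj t (u + u') η := by
  funext p
  unfold shj
  by_cases h : t < p.1
  · rw [if_pos h, if_pos h, if_pos h]
    congr 2
    ring
  · rw [if_neg h, if_neg h, if_neg h]

theorem shj_zero (t : ℤ) (η : Env) : shj t 0 η = η := by
  funext p
  unfold shj
  split_ifs
  · rw [add_zero]
  · rfl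

/-- The response of the window of the flipped row: it changes its sign. -/
theorem lk_flip (η : Env) {c l k : ℕ} (hk : k ≤ l) (v x y : ℤ) :
    lk μ s (shj ((c + k : ℕ) : ℤ) v η) c l k (-v) x (y - v) = -lk μ s η c l k v x y := by
  unfold lk
  obtain ⟨n, rfl⟩ := Nat.exists_eq_add_of_le hk
  have e0 : (((c : ℤ), x) : Pt).1 + (k : ℤ) = ((c + k : ℕ) : ℤ) := by push_cast; rfl
  have e1 : ZJ μ s (shj ((c + k : ℕ) : ℤ) v η) ((c : ℤ), x) k n (-v) (y - v - x) = W μ s η ((c : ℤ), x) (k + n) (y - x) := by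
    rw [ZJ_shj, e0, shj_shj, neg_add_cancel, shj_zero]
    congr 1
    ring
  have e2 : W μ s (shj ((c + k : ℕ) : ℤ) v η) ((c : ℤ), x) (k + n) (y - v - x) = ZJ μ s η ((c : ℤ), x) k n v (y - x) := by
    rw [ZJ_shj, e0]
    congr 1
    ring
  rw [Nat.add_sub_cancel_left, e1, e2]
  ring

/-- **The half response of the flipped row is invariant.** -/
theorem gw_flip (η : Env) {δ B : ℝ} (hB : 0 ≤ B) {c l k : ℕ} (hk : k ≤ l) (a x y : ℤ) :
    gw μ s (shj ((c + k : ℕ) : ℤ) (-a) η) δ B (-a) c l k x (y + a) = gw μ s η δ B a c l k x y := by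
  unfold gw
  have e1 : Flat μ s δ l (-a) (y + a - x) ↔ Flat μ s δ l a (y - x) := by
    have := flat_flip (μ := μ) (s := s) (δ := δ) (l := l) (a := a) (y := y - x)
    rw [← this]
    have e : y - x + a = y + a - x := by ring
    rw [e]
  by_cases h : Flat μ s δ l a (y - x)
  · rw [if_pos (e1.2 h), if_pos h]
    have e2 := lk_flip (μ := μ) (s := s) (c := c) η hk (-a) x y
    have e3 : y - -a = y + a := by ring
    rw [e3] at e2
    rw [e2, cl_neg hB]
    push_cast
    ring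
  · rw [if_neg fun h' => h (e1.1 h'), if_neg h]

/-- The half response of the flipped row, as a function of the path. -/
theorem eqv_gw_self (η : Env) {δ B : ℝ} (hB : 0 ≤ B) {k : ℕ} (hk : k ≤ l) (a : ℤ) :
    Eqv c l (-a) (fun S : Px Q₁ => gw μ s η δ B a c l k (ps S c) (ps S (c + l)))
      (fun S : Px Q₂ => gw μ s (shj ((c + k : ℕ) : ℤ) (-a) η) δ B (-a) c l k (ps S c) (ps S (c + l))) := by
  intro S S' e
  show gw μ s η δ B a c l k (pos S.1 c) (pos S.1 (c + l)) =
    gw μ s (shj ((c + k : ℕ) : ℤ) (-a) η) δ B (-a) c l k (pos S'.1 c) (pos S'.1 (c + l))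
  rw [same_le e le_rfl, same_ge e le_rfl, ← gw_flip η hB hk]
  congr 1
  ring

/-- The half response of another row. -/
theorem eqv_gw {k : ℕ} (hkl : k ≤ l) {η η' : Env} (h : Rel (c + k) v η η') (δ B : ℝ) (a : ℤ) {c' l' k' : ℕ} (hk' : k' ≤ l')
    (hd : c' + l' ≤ c ∨ c + l ≤ c') :
    Eqv c l v (fun S : Px Q₁ => gw μ s η δ B a c' l' k' (ps S c') (ps S (c' + l')))
      (fun S : Px Q₂ => gw μ s η' δ B a c' l' k' (ps S c') (ps S (c' + l'))) := by
  intro S S' e
  show gw μ s η δ B a c' l' k' (pos S.1 c') (pos S.1 (c' + l')) = gw μ s η' δ B a c' l' k' (pos S'.1 c') (pos S'.1 (c' + l'))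
  rcases hd with hd | hd
  · rw [same_le e (show c' ≤ c by omega), same_le e hd, gw_rel_le h δ B a c' l' k' _ _ hk' (by omega)]
  · rw [same_ge e hd, same_ge e (show c + l ≤ c' + l' by omega), gw_rel_ge h δ B a c' l' k' _ _ (by omega)]

/-! ### Conditional means of the disjoint blocks -/

theorem gp_rows (η η' : Env) (m : ℕ) (y : ℤ) (h : ∀ p : Pt, 0 < p.1 → p.1 ≤ m → η p = η' p) {T : Finset ℕ} :
    gp μ s η m y T = gp μ s η' m y T := by
  unfold gp
  have e1 : W μ s η 0 m y = W μ s η' 0 m y := W_rows s 0 m y fun p h1 h2 => h p h1 (by simpa using h2)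
  have e2 : pth μ s η m T = pth μ s η' m T := by
    unfold pth
    congr 1
    refine prod_congr rfl fun i hi => ?_
    rw [mem_range] at hi
    rw [h _ (by show (0 : ℤ) < (i : ℤ) + 1; omega) (by show (i : ℤ) + 1 ≤ m; omega)]
  rw [e1, e2]

/-- Splicing in a disjoint block keeps the outside data of the window. -/
theorem dJ_spl {c' d' : ℕ} (hd : d' ≤ c ∨ c + l ≤ c') {S T : Finset ℕ} (hT : T ⊆ range (d' - c')) (u : ℤ) :
    dJ c l u (spl c' d' S T) = (((dJ c l u S).1 \ Ico c' d') ∪ T.image (· + c'), (dJ c l u S).2) := by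
  have hi := img_sub hT
  have hsep : ∀ i, i ∈ T.image (· + c') → i ∉ Ico c (c + l) := by
    intro i h1 h2
    have := hi h1
    rw [mem_Ico] at this h2
    omega
  unfold dJ spl
  rw [Prod.mk.injEq]
  constructor
  · ext i
    simp only [mem_sdiff, mem_union]
    constructor
    · rintro ⟨⟨h1, h2⟩ | h1, h3⟩
      · exact Or.inl ⟨⟨h1, h3⟩, h2⟩
      · exact Or.inr h1
    · rintro (⟨⟨h1, h2⟩, h3⟩ | h1)
      · exact ⟨Or.inl ⟨h1, h3⟩, h2⟩
      · exact ⟨Or.inr h1, hsep i h1⟩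
  · congr 2
    congr 1
    ext i
    simp only [mem_inter, mem_union, mem_sdiff]
    constructor
    · rintro ⟨⟨h1, _⟩ | h1, h3⟩
      · exact ⟨h1, h3⟩
      · exact absurd h3 (hsep i h1)
    · rintro ⟨h1, h2⟩
      refine ⟨Or.inl ⟨h1, fun h3 => ?_⟩, h2⟩
      rw [mem_Ico] at h2 h3
      omega

/-- **The conditional mean of a disjoint block is equivariant.** -/
theorem eqv_cE {N k : ℕ} (hkl : k ≤ l) {η η' : Env} (h : Rel (c + k) v η η') (hQ₁ : Full N Q₁) (hQ₂ : Full N Q₂)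
    [Nonempty (Px Q₁)] [Nonempty (Px Q₂)] {c' d' : ℕ} (hcd : c' ≤ d') (hdN : d' ≤ N) (hd : d' ≤ c ∨ c + l ≤ c')
    {f : Px Q₁ → ℝ} {f' : Px Q₂ → ℝ} (hf : Eqv c l v f f') :
    Eqv c l v (cE (lw μ s η N Q₁) (pJ c' d') f) (cE (lw μ s η' N Q₂) (pJ c' d') f') := by
  intro S S' e
  rw [blk18 hQ₁ η hcd hdN S f, blk18 hQ₂ η' hcd hdN S' f']
  have hpos : pos S.1 d' - pos S.1 c' = pos S'.1 d' - pos S'.1 c' := by
    rcases hd with hd | hd
    · rw [same_le e hd, same_le e (hcd.trans hd)]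
    · rw [same_ge e hd, same_ge e (hd.trans hcd)]
      ring
  have henv : ∀ p : Pt, 0 < p.1 → p.1 ≤ ((d' - c' : ℕ) : ℤ) →
      sh ((c' : ℤ), ps S c') η p = sh ((c' : ℤ), ps S' c') η' p := by
    intro p h1 h2
    rw [Nat.cast_sub hcd] at h2
    unfold sh
    rcases hd with hd | hd
    · rw [h.low _ (by show p.1 + (c' : ℤ) ≤ ((c + k : ℕ) : ℤ); push_cast; omega)]
      have : ps S c' = ps S' c' := same_le e (hcd.trans hd)
      rw [this]
    · rw [h.high _ (by show ((c + k : ℕ) : ℤ) < p.1 + (c' : ℤ); push_cast; omega)]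
      have : ps S c' = ps S' c' + v := same_ge e hd
      rw [this]
      congr 1
      rw [Prod.ext_iff]
      constructor
      · rfl
      · show p.2 + (ps S' c' + v) = p.2 + ps S' c' + v
        ring
  refine sum_congr rfl fun T hT => ?_
  rw [mem_powerset] at hT
  have hgp : gp μ s (sh ((c' : ℤ), ps S c') η) (d' - c') (ps S d' - ps S c') T =
      gp μ s (sh ((c' : ℤ), ps S' c') η') (d' - c') (ps S' d' - ps S' c') T := by
    have hp : ps S d' - ps S c' = ps S' d' - ps S' c' := hpos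
    rw [hp]
    exact gp_rows _ _ _ _ henv
  rw [hgp]
  by_cases hT2 : pos T (d' - c') = ps S' d' - ps S' c'
  · congr 1
    refine hf _ _ ?_
    rw [splP_val' hQ₁ hcd hdN S hT (hT2.trans hpos.symm), splP_val' hQ₂ hcd hdN S' hT hT2, dJ_spl hd hT, dJ_spl hd hT, e]
  · have h0 : gp μ s (sh ((c' : ℤ), ps S' c') η') (d' - c') (ps S' d' - ps S' c') T = 0 := by
      unfold gp
      rw [if_neg hT2]
    rw [h0, zero_mul, zero_mul]

theorem eqv_cV {N k : ℕ} (hkl : k ≤ l) {η η' : Env} (h : Rel (c + k) v η η') (hQ₁ : Full N Q₁) (hQ₂ : Full N Q₂)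
    [Nonempty (Px Q₁)] [Nonempty (Px Q₂)] {c' d' : ℕ} (hcd : c' ≤ d') (hdN : d' ≤ N) (hd : d' ≤ c ∨ c + l ≤ c')
    {f : Px Q₁ → ℝ} {f' : Px Q₂ → ℝ} (hf : Eqv c l v f f') :
    Eqv c l v (cV (lw μ s η N Q₁) (pJ c' d') f) (cV (lw μ s η' N Q₂) (pJ c' d') f') :=
  (eqv_cE hkl h hQ₁ hQ₂ hcd hdN hd (hf.mul hf)).sub
    ((eqv_cE hkl h hQ₁ hQ₂ hcd hdN hd hf).mul (eqv_cE hkl h hQ₁ hQ₂ hcd hdN hd hf))

end Eqv

end

end Pool.Agent.W_7d29a1_C0.Flip61
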