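import Pool.Agent.W_7d29a1_C0.Cr59
import Pool.Agent.W_7d29a1_C0.FlipE61

/-!
MP_7d29a1_pr, [CURV0] (helper92): THE SPECTATORS OF THE RECURSION. The sum `fR` of the block functionals `Zs` to the right of the row `d`
is a spectator of `[c, d)` in the sense of `Cls59` (a function of the path behind the row `d`, blind to the environment in front of it
and to the signs of `[c, d)`). `super92`: the recursion over a super level from the contracts `CR59`, `FL59`.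
-/

set_option autoImplicit false

namespace Pool.Agent.W_7d29a1_C0.Mod92

open Finset MeasureTheory Pool.Agent.W_7d29a1_F Pool.Agent.W_7d29a1_X Pool.Agent.W_7d29a1_H
open Pool.Agent.W_7d29a1_HZ (gp)
open Pool.Agent.W_7d29a1_Z74 (ZJ)
open Pool.W7d29a1.C0 (gz gm lse gz_pos gz_ne)
open Pool.W7d29a1.C0.VT31
open Pool.Agent.W_7d29a1_C0.Blk18

noncomputable section

variable {μ : Measure ℝ} {s : ℝ} {N y d : ℕ}

/-! ### Behind the row `d` -/

/-- The same values at the paths which coincide behind the row `d`. -/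
def Bh (d : ℕ) (f f' : Px (Pn N y) → ℝ) : Prop := ∀ S S' : Px (Pn N y), S.1 \ range d = S'.1 \ range d → f S = f' S'

/-- The environments coincide behind the row `d`. -/
def Eb (d : ℕ) (η η' : Env) : Prop := ∀ p : Pt, (d : ℤ) < p.1 → η' p = η p

theorem ps_bh {S S' : Px (Pn N y)} (h : S.1 \ range d = S'.1 \ range d) {t : ℕ} (ht : d ≤ t) : ps S t = ps S' t := by
  have h1 : S.1 \ range t = S'.1 \ range t := by
    have h2 : ∀ S : Finset ℕ, S \ range t = (S \ range d) \ range t := fun S => by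
      ext i
      simp only [mem_sdiff, mem_range]
      constructor
      · rintro ⟨h3, h4⟩
        exact ⟨⟨h3, by omega⟩, h4⟩
      · rintro ⟨⟨h3, _⟩, h4⟩
        exact ⟨h3, h4⟩
    rw [h2 S.1, h2 S'.1, h]
  have e1 := card_sdiff_add_card_inter S.1 (range t)
  have e2 := card_sdiff_add_card_inter S'.1 (range t)
  have e3 : S.1.card = y := (mem_powersetCard.1 S.2).2
  have e4 : S'.1.card = y := (mem_powersetCard.1 S'.2).2
  rw [h1] at e1
  have e5 : (S.1 ∩ range t).card = (S'.1 ∩ range t).card := by omega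
  show ((S.1 ∩ range t).card : ℤ) = ((S'.1 ∩ range t).card : ℤ)
  rw [e5]

theorem Bh.add {f g f' g' : Px (Pn N y) → ℝ} (h : Bh d f f') (k : Bh d g g') : Bh d (f + g) (f' + g') :=
  fun S S' e => by rw [Pi.add_apply, Pi.add_apply, h S S' e, k S S' e]

theorem Bh.sub {f g f' g' : Px (Pn N y) → ℝ} (h : Bh d f f') (k : Bh d g g') : Bh d (f - g) (f' - g') :=
  fun S S' e => by rw [Pi.sub_apply, Pi.sub_apply, h S S' e, k S S' e]

theorem Bh.mul {f g f' g' : Px (Pn N y) → ℝ} (h : Bh d f f') (k : Bh d g g') : Bh d (f * g) (f' * g') :=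
  fun S S' e => by rw [Pi.mul_apply, Pi.mul_apply, h S S' e, k S S' e]

theorem Bh.smul {f f' : Px (Pn N y) → ℝ} (h : Bh d f f') (r : ℝ) : Bh d (r • f) (r • f') :=
  fun S S' e => by rw [Pi.smul_apply, Pi.smul_apply, h S S' e]

theorem Bh.sum {ι : Type*} {f f' : ι → Px (Pn N y) → ℝ} (I : Finset ι) (h : ∀ i ∈ I, Bh d (f i) (f' i)) :
    Bh d (∑ i ∈ I, f i) (∑ i ∈ I, f' i) := fun S S' e => by
  rw [Finset.sum_apply, Finset.sum_apply]
  exact sum_congr rfl fun i hi => h i hi S S' e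

/-! ### The environment -/

theorem W_bh {η η' : Env} (h : Eb d η η') (a : Pt) (n : ℕ) (z : ℤ) (ha : (d : ℤ) ≤ a.1) : W μ s η' a n z = W μ s η a n z :=
  Pool.Agent.W_7d29a1_HZ.Z74.W_rows s a n z fun p hp _ => h p (lt_of_le_of_lt ha hp)

theorem ZJ_bh {η η' : Env} (h : Eb d η η') (a : Pt) (m n : ℕ) (u z : ℤ) (ha : (d : ℤ) ≤ a.1) :
    ZJ μ s η' a m n u z = ZJ μ s η a m n u z := by
  unfold ZJ
  refine sum_congr rfl fun x _ => ?_
  rw [W_bh h a m x ha, W_bh h (a.1 + m, a.2 + x + u) n _ (by show (d : ℤ) ≤ a.1 + m; omega)]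

theorem gw_bh {η η' : Env} (h : Eb d η η') (δ B : ℝ) (a : ℤ) (c' l' k' : ℕ) (x z : ℤ) (hc : d ≤ c') :
    gw μ s η' δ B a c' l' k' x z = gw μ s η δ B a c' l' k' x z := by
  unfold gw lk
  have hc' : (d : ℤ) ≤ c' := by exact_mod_cast hc
  rw [ZJ_bh h ((c' : ℤ), x) k' (l' - k') (-a) (z - x) hc', W_bh h ((c' : ℤ), x) l' (z - x) hc']

/-- The environments and the signs coincide behind the row `d`. -/
structure Ob (d : ℕ) (ω ω' : Env × Finset ℕ) : Prop where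
  env : Eb d ω.1 ω'.1
  sgn : ∀ j, d ≤ j → (j ∈ ω'.2 ↔ j ∈ ω.2)

theorem Ob.sg {ω ω' : Env × Finset ℕ} (h : Ob d ω ω') {j : ℕ} (hj : d ≤ j) : sg ω'.2 j = sg ω.2 j := by
  unfold Mod92.sg
  simp only [h.sgn j hj]

theorem bh_gg {ω ω' : Env × Finset ℕ} (h : Ob d ω ω') (δ B : ℝ) (b : ℕ) {j : ℕ} (hj : d ≤ j - b) :
    Bh d (gg μ s (Pn N y) δ B b ω j) (gg μ s (Pn N y) δ B b ω' j) := by
  intro S S' e
  have hj' : d ≤ j := by omega
  unfold gg gj
  rw [h.sg hj', gw_bh h.env δ B _ _ _ _ _ _ hj, ps_bh e hj, ps_bh e (show d ≤ j + b by omega)]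

/-- Splicing in a block behind the row `d`. -/
theorem spl_bh {c' d' : ℕ} (hd : d ≤ c') {S S' T : Finset ℕ} (hT : T ⊆ range (d' - c')) (h : S \ range d = S' \ range d) :
    spl c' d' S T \ range d = spl c' d' S' T \ range d := by
  have h0 : ∀ S : Finset ℕ, spl c' d' S T \ range d = (S \ range d) \ Ico c' d' ∪ T.image (· + c') := fun S => by
    unfold spl
    ext i
    simp only [mem_sdiff, mem_union, mem_range, mem_Ico]
    constructor
    · rintro ⟨⟨h1, h2⟩ | h1, h3⟩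
      · exact Or.inl ⟨⟨h1, h3⟩, h2⟩
      · exact Or.inr h1
    · rintro (⟨⟨h1, h2⟩, h3⟩ | h1)
      · exact ⟨Or.inl ⟨h1, h3⟩, h2⟩
      · refine ⟨Or.inr h1, ?_⟩
        have := img_sub hT h1
        rw [mem_Ico] at this
        omega
  rw [h0 S, h0 S', h]

/-- **The conditional mean of a block behind the row `d`.** -/
theorem bh_cE [Nonempty (Px (Pn N y))] {η η' : Env} (h : Eb d η η') {c' d' : ℕ} (hd : d ≤ c') (hcd : c' ≤ d') (hdN : d' ≤ N)
    {f f' : Px (Pn N y) → ℝ} (hf : Bh d f f') :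
    Bh d (cE (lw μ s η N (Pn N y)) (pJ c' d') f) (cE (lw μ s η' N (Pn N y)) (pJ c' d') f') := by
  intro S S' e
  rw [blk18 (full_Pn N y) η hcd hdN S f, blk18 (full_Pn N y) η' hcd hdN S' f', ps_bh e hd, ps_bh e (hd.trans hcd)]
  refine sum_congr rfl fun T hT => ?_
  rw [mem_powerset] at hT
  have hgp : gp μ s (sh ((c' : ℤ), ps S' c') η) (d' - c') (ps S' d' - ps S' c') T =
      gp μ s (sh ((c' : ℤ), ps S' c') η') (d' - c') (ps S' d' - ps S' c') T := by
    refine Flip61.gp_rows _ _ _ _ fun p h1 _ => ?_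
    unfold sh
    exact (h _ (by show (d : ℤ) < p.1 + (c' : ℤ); have : (d : ℤ) ≤ c' := by exact_mod_cast hd
                   omega)).symm
  rw [hgp]
  by_cases hT2 : pos T (d' - c') = ps S' d' - ps S' c'
  · congr 1
    refine hf _ _ ?_
    have hT3 : pos T (d' - c') = ps S d' - ps S c' := by rw [hT2, ps_bh e hd, ps_bh e (hd.trans hcd)]
    rw [splP_val' (full_Pn N y) hcd hdN S hT hT3, splP_val' (full_Pn N y) hcd hdN S' hT hT2, spl_bh hd hT e]
  · have h0 : gp μ s (sh ((c' : ℤ), ps S' c') η') (d' - c') (ps S' d' - ps S' c') T = 0 := by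
      unfold gp
      rw [if_neg hT2]
    rw [h0, zero_mul, zero_mul]

theorem bh_cV [Nonempty (Px (Pn N y))] {η η' : Env} (h : Eb d η η') {c' d' : ℕ} (hd : d ≤ c') (hcd : c' ≤ d') (hdN : d' ≤ N)
    {f f' : Px (Pn N y) → ℝ} (hf : Bh d f f') :
    Bh d (cV (lw μ s η N (Pn N y)) (pJ c' d') f) (cV (lw μ s η' N (Pn N y)) (pJ c' d') f') :=
  (bh_cE h hd hcd hdN (hf.mul hf)).sub ((bh_cE h hd hcd hdN hf).mul (bh_cE h hd hcd hdN hf))

/-! ### The functionals -/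

theorem bh_Zm [Nonempty (Px (Pn N y))] {ω ω' : Env × Finset ℕ} (h : Ob d ω ω') (δ B : ℝ) {b : ℕ} (R : Finset ℕ) {c' d' : ℕ}
    (hd : d ≤ c') (hcd : c' ≤ d') (hdN : d' ≤ N) (hb : ∀ j ∈ Rw R c' d', c' + b ≤ j) :
    Bh d (Zm μ s N (Pn N y) δ B b R c' d' ω) (Zm μ s N (Pn N y) δ B b R c' d' ω') := by
  unfold Zm Zb
  refine Bh.sum _ fun j hj => ?_
  have hj' : c' ≤ j ∧ j < d' := by
    unfold Rw at hj
    rw [mem_inter, mem_Ico] at hj
    exact hj.2
  have hjb : c' ≤ j - b := by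
    have := hb j hj
    omega
  have h1 := bh_gg (μ := μ) (s := s) (N := N) (y := y) h δ B b (hd.trans hjb)
  have h2 : sr ω'.2 j = sr ω.2 j := by
    unfold sr
    rw [h.sg (hd.trans hj'.1)]
  unfold Pool.W7d29a1.C0.VT31.Zr
  rw [h2]
  unfold wm
  exact (bh_cE h.env hd hcd hdN h1).sub ((bh_cV h.env hd hcd hdN h1).smul _)

theorem bh_Zs [Nonempty (Px (Pn N y))] {ω ω' : Env × Finset ℕ} (h : Ob d ω ω') (δ B : ℝ) {b σ : ℕ} (hσ : 0 < σ)
    {R : Finset ℕ} (hb : Deep R b σ) {c' d' : ℕ} (hd : d ≤ c') (hcd : c' ≤ d') (hdN : d' ≤ N) (hc' : σ ∣ c') :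
    Bh d (Zs μ s N (Pn N y) δ B b σ R c' d' ω) (Zs μ s N (Pn N y) δ B b σ R c' d' ω') := by
  unfold Zs wm
  refine bh_cE h.env hd hcd hdN ?_
  unfold Zt
  refine Bh.sum _ fun k hk => ?_
  rw [mem_Ico] at hk
  obtain ⟨m, rfl⟩ := hc'
  rw [Nat.mul_div_cancel_left _ hσ] at hk
  have h1 : σ * m ≤ k * σ := by
    rw [mul_comm σ m]
    exact Nat.mul_le_mul_right σ hk.1
  have h2 : (k + 1) * σ ≤ d' := (Nat.mul_le_mul_right σ hk.2).trans (Nat.div_mul_le_self d' σ)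
  exact bh_Zm h δ B R (hd.trans h1) (Nat.mul_le_mul_right σ (Nat.le_succ k)) (h2.trans hdN) fun j hj =>
    (hb.in_block hσ (Nat.dvd_mul_left σ k) (Nat.dvd_mul_left σ (k + 1)) hj).1

/-- The family of the sums to the right. -/
def fF (μ : Measure ℝ) (s : ℝ) (N : ℕ) (δ B : ℝ) (b σ : ℕ) (R : Finset ℕ) (e : ℕ → ℕ) (i M : ℕ) : Fam N :=
  fun y ω => fR μ s N (Pn N y) δ B b σ R e i M ω

/-- **The sum of the block functionals to the right is a spectator.** -/
theorem cls_fR {δ B : ℝ} (hB : 0 ≤ B) {b σ : ℕ} (hσ : 0 < σ) {R : Finset ℕ} (hb : Deep R b σ) {e : ℕ → ℕ} (he : Monotone e)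
    {i M : ℕ} (hM : e M ≤ N) (hdv : ∀ l, σ ∣ e l) {c : ℕ} (hd : d ≤ e i) :
    Cls59 N c d (bR B σ R e i M) (fF μ s N δ B b σ R e i M) := by
  have key : ∀ (y : ℕ) (S S' : Px (Pn N y)) (ω ω' : Env × Finset ℕ), Ob d ω ω' → S.1 \ range d = S'.1 \ range d →
      fR μ s N (Pn N y) δ B b σ R e i M ω S = fR μ s N (Pn N y) δ B b σ R e i M ω' S' := by
    intro y S S' ω ω' h hS
    have : Nonempty (Px (Pn N y)) := ⟨S⟩
    unfold fR
    refine Bh.sum _ (fun l hl => ?_) S S' hS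
    rw [mem_Ico] at hl
    exact bh_Zs h δ B hσ hb (hd.trans (he hl.1)) (he (Nat.le_succ l)) ((he hl.2).trans hM) (hdv l)
  refine ⟨fun y S => meas_fR δ B b σ R e i M S, fun y ω S => ?_, fun y ω S S' h => ?_, fun y η A S t x u _ ht => ?_,
    fun y η A A' S h => ?_⟩
  · have : Nonempty (Px (Pn N y)) := ⟨S⟩
    exact abs_fR hB b σ R e i M ω S
  · exact key y S S' ω ω ⟨fun _ _ => rfl, fun _ _ => Iff.rfl⟩ h
  · refine (key y S S (η, A) (Function.update η (t, x) u, A) ⟨fun p hp => ?_, fun _ _ => Iff.rfl⟩ rfl).symm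
    show Function.update η (t, x) u p = η p
    rw [Function.update_of_ne]
    intro h
    rw [h] at hp
    exact absurd hp (not_lt.2 ht)
  · refine (key y S S (η, A') (η, A) ⟨fun _ _ => rfl, fun j hj => ?_⟩ rfl).symm
    have h1 : j ∈ A \ Ico c d ↔ j ∈ A' \ Ico c d := by rw [h]
    simp only [mem_sdiff, mem_Ico] at h1
    have h2 : ¬(c ≤ j ∧ j < d) := by omega
    tauto

/-- **The recursion over a super level from the contracts.** -/
theorem super92 [IsProbabilityMeasure μ] {δ B : ℝ} (hB : 0 ≤ B) {b0 b σ : ℕ} (hσ : 0 < σ) {R : Finset ℕ} (hb : Deep R b σ)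
    {ys : Finset ℕ} (hys : ∀ y ∈ ys, y ≤ N) {e : ℕ → ℕ} (he : Monotone e) (hdv : ∀ l, σ ∣ e l) {M : ℕ} (hM : e M ≤ N)
    {X κ ε ε' n : ℝ} (hX : 0 ≤ X) (hκ : 0 ≤ κ) (hε : 0 ≤ ε) (hε' : 0 ≤ ε')
    (hn : ∀ i < M, ((Rw R (e i) (e (i + 1))).card : ℝ) ≤ n)
    (h1 : ∀ i < M, xsa μ s N ys δ B b σ R (e i) (e (i + 1)) ≤ X)
    (h2 : ∀ i < M, CR59 μ s N ys δ B b0 b σ R (e i) (e (i + 1)) κ ε (fF μ s N δ B b σ R e (i + 1) M))
    (h3 : ∀ i < M, FL59 μ s N ys δ B b0 b σ R (e i) (e (i + 1)) 0 ε' (fF μ s N δ B b σ R e (i + 1) M)) :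
    Real.sqrt (xsa μ s N ys δ B b σ R (e 0) (e M)) ≤ Real.sqrt (M * (X + 2 * (ε + 2 * ε' * n))) + M * κ := by
  rcases Nat.eq_zero_or_pos M with hM0 | hM0
  · subst hM0
    have h := xsa_super (μ := μ) (s := s) (N := N) hB b σ R hys he 0 hX le_rfl le_rfl (δ := δ) (B := B) (D := 0) (D' := 0)
      (fun i hi => absurd hi (Nat.not_lt_zero i)) fun i hi => absurd hi (Nat.not_lt_zero i)
    simpa using h
  have hn0 : 0 ≤ n := (Nat.cast_nonneg _).trans (hn 0 hM0)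
  have h := xsa_super (μ := μ) (s := s) (N := N) hB b σ R hys he M hX (D := 2 * κ) (D' := 2 * (ε + 2 * ε' * n)) (δ := δ) (B := B)
    (by linarith) (by positivity) h1 fun i hi => by
      have hc := cls_fR (μ := μ) (s := s) (N := N) (δ := δ) (d := e (i + 1)) hB hσ hb he (i := i + 1) (M := M) hM hdv (c := e i) le_rfl
      have h4 := cross59 hys hB hσ R (hdv i) (hdv (i + 1)) hc (h2 i hi) (h3 i hi)
      rw [zero_mul, sub_zero] at h4
      have h5 := (abs_le.1 h4).2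
      have h6 : 2 * ε' * ((Rw R (e i) (e (i + 1))).card : ℝ) ≤ 2 * ε' * n := mul_le_mul_of_nonneg_left (hn i hi) (by linarith)
      have e1 : avy ys (varF μ s N (fF μ s N δ B b σ R e (i + 1) M)) = avy ys fun y =>
          ∫ ω, gv (wm μ s N (Pn N y) ω) (fR μ s N (Pn N y) δ B b σ R e (i + 1) M ω) ∂(Pm μ N) := rfl
      rw [← e1]
      have e2 : avy ys (fun y => ∫ ω, gc (wm μ s N (Pn N y) ω) (Zs μ s N (Pn N y) δ B b σ R (e i) (e (i + 1)) ω)
          (fR μ s N (Pn N y) δ B b σ R e (i + 1) M ω) ∂(Pm μ N)) ≤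
          κ * Real.sqrt (avy ys (varF μ s N (fF μ s N δ B b σ R e (i + 1) M))) + (ε + 2 * ε' * n) := by
        refine h5.trans ?_
        linarith
      linarith
  refine h.trans (le_of_eq ?_)
  ring

end

end Pool.Agent.W_7d29a1_C0.Mod92
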