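import Pool.Agent.W_7d29a1_C0.CumF82

/-!
CURV0 (MP_7d29a1_pr): the corner calculus. Half difference, corner average, mean over the interval `[-1, 1]` and the trapezoid
remainder, and the second difference of a log-sum-exp function at the four corners. (helper82)
-/

set_option autoImplicit false
set_option linter.unusedSectionVars false
set_option linter.unusedVariables false

namespace Pool.W7d29a1.C0

open Finset Filter Topology MeasureTheory intervalIntegral
open Pool.Agent.W_7d29a1_C0

noncomputable section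

/-! ### One variable -/

/-- The corner average. -/
def Ac (φ : ℝ → ℝ) : ℝ := (φ 1 + φ (-1)) / 2

/-- The half difference. -/
def Dc (φ : ℝ → ℝ) : ℝ := (φ 1 - φ (-1)) / 2

/-- The mean over `[-1, 1]`. -/
def Mc (φ : ℝ → ℝ) : ℝ := (1 / 2) * ∫ t in (-1 : ℝ)..1, φ t

/-- The trapezoid remainder, as a function of the second derivative. -/
def Tc (φ2 : ℝ → ℝ) : ℝ := (1 / 4) * ∫ t in (-1 : ℝ)..1, (1 - t ^ 2) * φ2 t

theorem Dc_eq_Mc {φ φ1 : ℝ → ℝ} (h1 : ∀ t, HasDerivAt φ (φ1 t) t) (hc : Continuous φ1) : Dc φ = Mc φ1 := by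
  unfold Dc Mc
  rw [integral_eq_sub_of_hasDerivAt (f := φ) (fun t _ => h1 t) (hc.intervalIntegrable _ _)]
  ring

/-- **Trapezoid identity**: corner average = mean + remainder. -/
theorem Ac_eq {φ φ1 φ2 : ℝ → ℝ} (h1 : ∀ t, HasDerivAt φ (φ1 t) t) (h2 : ∀ t, HasDerivAt φ1 (φ2 t) t) (hc : Continuous φ2) :
    Ac φ = Mc φ + Tc φ2 := by
  have c0 : Continuous φ := continuous_iff_continuousAt.2 fun t => (h1 t).continuousAt
  have c1 : Continuous φ1 := continuous_iff_continuousAt.2 fun t => (h2 t).continuousAt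
  -- the primitive of `(1 - t^2) φ2 + 2 φ` is `(1 - t^2) φ1 + 2 t φ`
  have hd : ∀ t : ℝ, HasDerivAt (fun t => (1 - t ^ 2) * φ1 t + 2 * t * φ t) ((1 - t ^ 2) * φ2 t + 2 * φ t) t := fun t => by
    have a := ((hasDerivAt_const t (1 : ℝ)).sub ((hasDerivAt_id t).pow 2)).mul (h2 t)
    have b := ((hasDerivAt_id t).const_mul (2 : ℝ)).mul (h1 t)
    refine (a.add b).congr_deriv ?_
    simp only [id_eq, Pi.sub_apply, Pi.pow_apply, Nat.cast_ofNat, Nat.add_one_sub_one, pow_one]
    ring
  have hi : ∫ t in (-1 : ℝ)..1, ((1 - t ^ 2) * φ2 t + 2 * φ t) = 2 * φ 1 - (-2) * φ (-1) := by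
    rw [integral_eq_sub_of_hasDerivAt (f := fun t => (1 - t ^ 2) * φ1 t + 2 * t * φ t) (fun t _ => hd t)
      (Continuous.intervalIntegrable (by fun_prop) _ _)]
    norm_num
  rw [intervalIntegral.integral_add (Continuous.intervalIntegrable (by fun_prop) _ _)
    (Continuous.intervalIntegrable (by fun_prop) _ _), intervalIntegral.integral_const_mul] at hi
  unfold Ac Mc Tc
  linarith

/-- **Half difference = corner average of the derivative - remainder.** -/
theorem Dc_eq {φ φ1 φ2 φ3 : ℝ → ℝ} (h1 : ∀ t, HasDerivAt φ (φ1 t) t) (h2 : ∀ t, HasDerivAt φ1 (φ2 t) t)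
    (h3 : ∀ t, HasDerivAt φ2 (φ3 t) t) (hc : Continuous φ3) : Dc φ = Ac φ1 - Tc φ3 := by
  have c1 : Continuous φ1 := continuous_iff_continuousAt.2 fun t => (h2 t).continuousAt
  rw [Dc_eq_Mc h1 c1, Ac_eq h2 h3 hc]
  ring

/-! ### Cumulants along a line with affine arguments -/

variable {X : Type*} [Fintype X] [Nonempty X]

/-- The cumulant of order `a + b + c` with `a` arguments `x`, `b` arguments `d` and `c` arguments `y`. -/
def K3 (x d y : X → ℝ) (a b c : ℕ) (w : X → ℝ) : ℝ :=
  cm (List.replicate a x ++ (List.replicate b d ++ List.replicate c y)) w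

theorem evl_replicate (t : ℝ) (q : (X → ℝ) × (X → ℝ)) (c : ℕ) :
    evl t (List.replicate c q) = List.replicate c (q.1 + t • q.2) := by
  unfold evl
  rw [List.map_replicate]

theorem dsum_replicate (t : ℝ) (w : X → ℝ) (q : (X → ℝ) × (X → ℝ)) : ∀ (c : ℕ) (k : List (X → ℝ)),
    dsum t w k (List.replicate c q) = c * cm (q.2 :: (k ++ List.replicate (c - 1) (q.1 + t • q.2))) w
  | 0, k => by simp [dsum]
  | c + 1, k => by
    have ih := dsum_replicate t w q c (k ++ [q.1 + t • q.2])
    rw [List.replicate_succ]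
    show cm (k ++ q.2 :: evl t (List.replicate c q)) w + dsum t w (k ++ [q.1 + t • q.2]) (List.replicate c q) = _
    rw [ih, evl_replicate, cm_mid, Nat.add_sub_cancel]
    rcases c with _ | c
    · simp
    · have e : (k ++ [q.1 + t • q.2]) ++ List.replicate (c + 1 - 1) (q.1 + t • q.2) =
          k ++ List.replicate (c + 1) (q.1 + t • q.2) := by
        rw [Nat.add_sub_cancel, List.append_assoc, List.singleton_append, ← List.replicate_succ]
      rw [e]
      push_cast
      ring

/-- **The derivative rule** of `K3` along `w' = x`, `y' = d`. -/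
theorem hasDerivAt_K3 {w : ℝ → X → ℝ} {x : X → ℝ} {t : ℝ} (hw : HasDerivAt w x t) (d y0 : X → ℝ) (a b c : ℕ) :
    HasDerivAt (fun u => K3 x d (y0 + u • d) a b c (w u))
      (K3 x d (y0 + t • d) (a + 1) b c (w t) + c * K3 x d (y0 + t • d) a (b + 1) (c - 1) (w t)) t := by
  have h := hasDerivAt_cm_affine hw (List.replicate c (y0, d)) (List.replicate a x ++ List.replicate b d)
  have e : ∀ u : ℝ, (List.replicate a x ++ List.replicate b d) ++ evl u (List.replicate c (y0, d)) =
      List.replicate a x ++ (List.replicate b d ++ List.replicate c (y0 + u • d)) := fun u => by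
    rw [evl_replicate, List.append_assoc]
  rw [dsum_replicate] at h
  have e3 : cm (d :: ((List.replicate a x ++ List.replicate b d) ++ List.replicate (c - 1) (y0 + t • d))) (w t) =
      K3 x d (y0 + t • d) a (b + 1) (c - 1) (w t) := by
    unfold K3
    rw [List.replicate_succ, List.cons_append, cm_mid, List.append_assoc]
  refine (h.congr_deriv ?_).congr_of_eventuallyEq (Eventually.of_forall fun u => ?_)
  · rw [e t]
    show K3 x d (y0 + t • d) (a + 1) b c (w t) +
      c * cm (d :: ((List.replicate a x ++ List.replicate b d) ++ List.replicate (c - 1) (y0 + t • d))) (w t) = _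
    rw [e3]
  · show _ = cm ((List.replicate a x ++ List.replicate b d) ++ evl u (List.replicate c (y0, d))) (w u)
    rw [e u]
    rfl

/-- Expansion of a middle argument in the basis of the indicators. -/
theorem cm_mid_basis (k l : List (X → ℝ)) (f w : X → ℝ) [DecidableEq X] :
    cm (k ++ f :: l) w = ∑ i, f i * cm (k ++ (fun j => if i = j then (1 : ℝ) else 0) :: l) w := by
  rw [cm_mid]
  conv_lhs => rw [pi_eq_sum_univ f]
  rw [cm_head_sum]
  refine Finset.sum_congr rfl fun i _ => ?_
  rw [cm_head_smul, cm_mid]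

/-- **Joint continuity** of the cumulants in all their arguments. -/
theorem continuous_cm {U : Type*} [TopologicalSpace U] {w : U → X → ℝ} (hw : Continuous w) :
    ∀ (fs : List (U → X → ℝ)), (∀ f ∈ fs, Continuous f) → ∀ k : List (X → ℝ),
      Continuous fun u => cm (k ++ fs.map fun f => f u) (w u)
  | [], _, k => (cm_continuous (k ++ [])).comp hw
  | f :: fs, h, k => by
    classical
    have hf : Continuous f := h f (by simp)
    have e : (fun u => cm (k ++ (f :: fs).map fun f => f u) (w u)) = fun u => ∑ i, f u i *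
        cm ((k ++ [fun j => if i = j then (1 : ℝ) else 0]) ++ fs.map fun f => f u) (w u) := by
      funext u
      rw [List.map_cons, cm_mid_basis]
      refine Finset.sum_congr rfl fun i _ => ?_
      rw [List.append_assoc, List.singleton_append]
    rw [e]
    refine continuous_finsetSum _ fun i _ => ?_
    exact ((continuous_apply i).comp hf).mul (continuous_cm hw fs (fun g hg => h g (by simp [hg])) _)

theorem continuous_K3 {U : Type*} [TopologicalSpace U] {w : U → X → ℝ} {x d y : U → X → ℝ} (hw : Continuous w)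
    (hx : Continuous x) (hd : Continuous d) (hy : Continuous y) (a b c : ℕ) :
    Continuous fun u => K3 (x u) (d u) (y u) a b c (w u) := by
  have h := continuous_cm hw (List.replicate a x ++ (List.replicate b d ++ List.replicate c y)) (fun f hf => by
    rcases List.mem_append.1 hf with h1 | h1
    · rw [List.eq_of_mem_replicate h1]; exact hx
    · rcases List.mem_append.1 h1 with h2 | h2
      · rw [List.eq_of_mem_replicate h2]; exact hd
      · rw [List.eq_of_mem_replicate h2]; exact hy) []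
  refine h.congr fun u => ?_
  unfold K3
  rw [List.nil_append, List.map_append, List.map_append, List.map_replicate, List.map_replicate, List.map_replicate]

/-! ### The four corners -/

/-- The log-weights at the point `(t, s)` of the square, bilinear between the corners. -/
def WW (α β γ δ : X → ℝ) (t s : ℝ) : X → ℝ := (α + s • γ) + t • (β + s • δ)

theorem WW_eq (α β γ δ : X → ℝ) (t s : ℝ) : WW α β γ δ t s = (α + t • β) + s • (γ + t • δ) := by
  unfold WW
  funext i
  simp only [Pi.add_apply, Pi.smul_apply, smul_eq_mul]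
  ring

theorem hasDerivAt_WW_fst (α β γ δ : X → ℝ) (t s : ℝ) : HasDerivAt (fun t => WW α β γ δ t s) (β + s • δ) t :=
  hasDerivAt_line _ _ _

theorem hasDerivAt_WW_snd (α β γ δ : X → ℝ) (t s : ℝ) : HasDerivAt (fun s => WW α β γ δ t s) (γ + t • δ) s := by
  have h := hasDerivAt_line (α + t • β) (γ + t • δ) s
  refine h.congr_of_eventuallyEq (Eventually.of_forall fun u => ?_)
  exact WW_eq α β γ δ t u

theorem continuous_WW {U : Type*} [TopologicalSpace U] {α β γ δ : X → ℝ} {t s : U → ℝ} (ht : Continuous t)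
    (hs : Continuous s) : Continuous fun u => WW α β γ δ (t u) (s u) := by
  unfold WW
  fun_prop

/-- `K3` at the point `(t, s)`, with `x = β + s δ` and `y = γ + t δ`. -/
def KW (α β γ δ : X → ℝ) (a b c : ℕ) (t s : ℝ) : ℝ := K3 (β + s • δ) δ (γ + t • δ) a b c (WW α β γ δ t s)

theorem continuous_KW {U : Type*} [TopologicalSpace U] (α β γ δ : X → ℝ) (a b c : ℕ) {t s : U → ℝ} (ht : Continuous t)
    (hs : Continuous s) : Continuous fun u => KW α β γ δ a b c (t u) (s u) := by
  unfold KW
  exact continuous_K3 (continuous_WW ht hs) (by fun_prop) continuous_const (by fun_prop) a b c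

theorem hasDerivAt_KW (α β γ δ : X → ℝ) (a b c : ℕ) (t s : ℝ) :
    HasDerivAt (fun t => KW α β γ δ a b c t s) (KW α β γ δ (a + 1) b c t s + c * KW α β γ δ a (b + 1) (c - 1) t s) t :=
  hasDerivAt_K3 (hasDerivAt_WW_fst α β γ δ t s) δ γ a b c

/-- The mixed derivative `∂_t ∂_s` of the free energy: `<δ> + Cov (β + s δ, γ + t δ)`. -/
def F11 (α β γ δ : X → ℝ) (t s : ℝ) : ℝ := KW α β γ δ 1 0 1 t s + KW α β γ δ 0 1 0 t s

/-- `∂_t^3 ∂_s`. -/
def F31 (α β γ δ : X → ℝ) (t s : ℝ) : ℝ := KW α β γ δ 3 0 1 t s + 3 * KW α β γ δ 2 1 0 t s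

/-- `∂_t ∂_s^3`. -/
def F13 (α β γ δ : X → ℝ) (t s : ℝ) : ℝ := KW α β γ δ 1 0 3 t s + 3 * KW α β γ δ 0 1 2 t s

/-- `∂_t^3 ∂_s^3`. -/
def F33 (α β γ δ : X → ℝ) (t s : ℝ) : ℝ := KW α β γ δ 3 0 3 t s + 9 * KW α β γ δ 2 1 2 t s + 18 * KW α β γ δ 1 2 1 t s +
  6 * KW α β γ δ 0 3 0 t s

theorem F11_eq (α β γ δ : X → ℝ) (t s : ℝ) : F11 α β γ δ t s =
    cm [β + s • δ, γ + t • δ] (WW α β γ δ t s) + cm [δ] (WW α β γ δ t s) := rfl

theorem F31_eq (α β γ δ : X → ℝ) (t s : ℝ) : F31 α β γ δ t s =
    cm [β + s • δ, β + s • δ, β + s • δ, γ + t • δ] (WW α β γ δ t s) +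
      3 * cm [β + s • δ, β + s • δ, δ] (WW α β γ δ t s) := rfl

theorem F13_eq (α β γ δ : X → ℝ) (t s : ℝ) : F13 α β γ δ t s =
    cm [β + s • δ, γ + t • δ, γ + t • δ, γ + t • δ] (WW α β γ δ t s) +
      3 * cm [δ, γ + t • δ, γ + t • δ] (WW α β γ δ t s) := rfl

theorem F33_eq (α β γ δ : X → ℝ) (t s : ℝ) : F33 α β γ δ t s =
    cm [β + s • δ, β + s • δ, β + s • δ, γ + t • δ, γ + t • δ, γ + t • δ] (WW α β γ δ t s) +
      9 * cm [β + s • δ, β + s • δ, δ, γ + t • δ, γ + t • δ] (WW α β γ δ t s) +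
      18 * cm [β + s • δ, δ, δ, γ + t • δ] (WW α β γ δ t s) + 6 * cm [δ, δ, δ] (WW α β γ δ t s) := rfl

/-- Derivative in `s` of the free energy. -/
theorem hasDerivAt_lse_WW (α β γ δ : X → ℝ) (t s : ℝ) :
    HasDerivAt (fun s => lse (WW α β γ δ t s)) (KW α β γ δ 0 0 1 t s) s :=
  hasDerivAt_cm [] (hasDerivAt_WW_snd α β γ δ t s)

theorem hasDerivAt_y1 (α β γ δ : X → ℝ) (t s : ℝ) :
    HasDerivAt (fun s => KW α β γ δ 0 0 1 t s) (KW α β γ δ 0 0 2 t s) s :=
  hasDerivAt_cm [γ + t • δ] (hasDerivAt_WW_snd α β γ δ t s)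

theorem hasDerivAt_y2 (α β γ δ : X → ℝ) (t s : ℝ) :
    HasDerivAt (fun s => KW α β γ δ 0 0 2 t s) (KW α β γ δ 0 0 3 t s) s :=
  hasDerivAt_cm [γ + t • δ, γ + t • δ] (hasDerivAt_WW_snd α β γ δ t s)

/-- First half difference of the free energy, in `s`. -/
theorem Dc_lse_WW (α β γ δ : X → ℝ) (t : ℝ) : Dc (fun s => lse (WW α β γ δ t s)) =
    Ac (fun s => KW α β γ δ 0 0 1 t s) - Tc (fun s => KW α β γ δ 0 0 3 t s) :=
  Dc_eq (hasDerivAt_lse_WW α β γ δ t) (hasDerivAt_y1 α β γ δ t) (hasDerivAt_y2 α β γ δ t)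
    (continuous_KW α β γ δ 0 0 3 continuous_const continuous_id)

/-- The half difference in `t` of `<γ + t δ>`. -/
theorem Dc_KW1 (α β γ δ : X → ℝ) (s : ℝ) : Dc (fun t => KW α β γ δ 0 0 1 t s) =
    Ac (fun t => F11 α β γ δ t s) - Tc (fun t => F31 α β γ δ t s) := by
  have d := fun (a b c : ℕ) (t : ℝ) => hasDerivAt_KW α β γ δ a b c t s
  refine Dc_eq (φ2 := fun t => KW α β γ δ 2 0 1 t s + 2 * KW α β γ δ 1 1 0 t s) (fun t => ?_) (fun t => ?_) (fun t => ?_) ?_
  · refine (d 0 0 1 t).congr_deriv ?_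
    unfold F11
    norm_num
  · refine ((d 1 0 1 t).add (d 0 1 0 t)).congr_deriv ?_
    norm_num
    ring
  · refine ((d 2 0 1 t).add ((d 1 1 0 t).const_mul 2)).congr_deriv ?_
    unfold F31
    norm_num
    ring
  · unfold F31
    exact (continuous_KW α β γ δ 3 0 1 continuous_id continuous_const).add
      ((continuous_KW α β γ δ 2 1 0 continuous_id continuous_const).const_mul 3)

/-- The half difference in `t` of the third cumulant of `γ + t δ`. -/
theorem Dc_KW3 (α β γ δ : X → ℝ) (s : ℝ) : Dc (fun t => KW α β γ δ 0 0 3 t s) =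
    Ac (fun t => F13 α β γ δ t s) - Tc (fun t => F33 α β γ δ t s) := by
  have d := fun (a b c : ℕ) (t : ℝ) => hasDerivAt_KW α β γ δ a b c t s
  refine Dc_eq (φ2 := fun t => KW α β γ δ 2 0 3 t s + 6 * KW α β γ δ 1 1 2 t s + 6 * KW α β γ δ 0 2 1 t s)
    (fun t => ?_) (fun t => ?_) (fun t => ?_) ?_
  · refine (d 0 0 3 t).congr_deriv ?_
    unfold F13
    norm_num
  · refine ((d 1 0 3 t).add ((d 0 1 2 t).const_mul 3)).congr_deriv ?_
    norm_num
    ring
  · refine (((d 2 0 3 t).add ((d 1 1 2 t).const_mul 6)).add ((d 0 2 1 t).const_mul 6)).congr_deriv ?_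
    unfold F33
    norm_num
    ring
  · unfold F33
    exact (((continuous_KW α β γ δ 3 0 3 continuous_id continuous_const).add
      ((continuous_KW α β γ δ 2 1 2 continuous_id continuous_const).const_mul 9)).add
      ((continuous_KW α β γ δ 1 2 1 continuous_id continuous_const).const_mul 18)).add
      ((continuous_KW α β γ δ 0 3 0 continuous_id continuous_const).const_mul 6)

theorem Dc_Ac (f : ℝ → ℝ → ℝ) : Dc (fun t => Ac (fun s => f t s)) = Ac (fun s => Dc (fun t => f t s)) := by
  unfold Dc Ac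
  ring

theorem Dc_sub (f g : ℝ → ℝ) : Dc (fun t => f t - g t) = Dc f - Dc g := by
  unfold Dc
  ring

theorem Ac_sub (f g : ℝ → ℝ) : Ac (fun t => f t - g t) = Ac f - Ac g := by
  unfold Ac
  ring

theorem Ac_comm (f : ℝ → ℝ → ℝ) : Ac (fun t => Ac (fun s => f t s)) = Ac (fun s => Ac (fun t => f t s)) := by
  unfold Ac
  ring

theorem Tc_sub {f g : ℝ → ℝ} (hf : Continuous f) (hg : Continuous g) : Tc (fun t => f t - g t) = Tc f - Tc g := by
  unfold Tc
  rw [← mul_sub, ← intervalIntegral.integral_sub (Continuous.intervalIntegrable (by fun_prop) _ _)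
    (Continuous.intervalIntegrable (by fun_prop) _ _)]
  congr 2
  funext t
  ring

theorem Dc_Tc {f : ℝ → ℝ → ℝ} (h1 : Continuous (f 1)) (h2 : Continuous (f (-1))) :
    Dc (fun t => Tc (fun s => f t s)) = Tc (fun s => Dc (fun t => f t s)) := by
  have e : Tc (fun s => Dc (fun t => f t s)) = (1 / 2) * (Tc (fun s => f 1 s - f (-1) s)) := by
    have e0 : (fun t : ℝ => (1 - t ^ 2) * ((f 1 t - f (-1) t) / 2)) =
        fun t : ℝ => (1 / 2) * ((1 - t ^ 2) * (f 1 t - f (-1) t)) := by
      funext t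
      ring
    show (1 / 4) * ∫ t in (-1 : ℝ)..1, (1 - t ^ 2) * ((f 1 t - f (-1) t) / 2) =
      (1 / 2) * ((1 / 4) * ∫ t in (-1 : ℝ)..1, (1 - t ^ 2) * (f 1 t - f (-1) t))
    rw [e0, intervalIntegral.integral_const_mul]
    ring
  rw [e, Tc_sub h1 h2]
  unfold Dc
  ring

/-- **The second difference of a log-sum-exp function at the four corners**: the corner average of `<δ> + Cov`, minus the two
trapezoid remainders, plus the product remainder. -/
theorem DcDc_lse (α β γ δ : X → ℝ) : Dc (fun t => Dc (fun s => lse (WW α β γ δ t s))) =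
    Ac (fun s => Ac (fun t => F11 α β γ δ t s)) - Ac (fun s => Tc (fun t => F31 α β γ δ t s)) -
      Tc (fun s => Ac (fun t => F13 α β γ δ t s)) + Tc (fun s => Tc (fun t => F33 α β γ δ t s)) := by
  have e1 : (fun t => Dc (fun s => lse (WW α β γ δ t s))) = fun t =>
      Ac (fun s => KW α β γ δ 0 0 1 t s) - Tc (fun s => KW α β γ δ 0 0 3 t s) := funext fun t => Dc_lse_WW α β γ δ t
  rw [e1, Dc_sub, Dc_Ac, Dc_Tc (continuous_KW α β γ δ 0 0 3 continuous_const continuous_id)
    (continuous_KW α β γ δ 0 0 3 continuous_const continuous_id)]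
  have e2 : (fun s => Dc (fun t => KW α β γ δ 0 0 1 t s)) = fun s =>
      Ac (fun t => F11 α β γ δ t s) - Tc (fun t => F31 α β γ δ t s) := funext fun s => Dc_KW1 α β γ δ s
  have e3 : (fun s => Dc (fun t => KW α β γ δ 0 0 3 t s)) = fun s =>
      Ac (fun t => F13 α β γ δ t s) - Tc (fun t => F33 α β γ δ t s) := funext fun s => Dc_KW3 α β γ δ s
  have c1 : Continuous fun s => Ac (fun t => F13 α β γ δ t s) := by
    unfold Ac F13
    refine Continuous.div_const (Continuous.add ?_ ?_) 2 <;>
    exact (continuous_KW α β γ δ 1 0 3 continuous_const continuous_id).add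
      ((continuous_KW α β γ δ 0 1 2 continuous_const continuous_id).const_mul 3)
  have c2 : Continuous fun s => Tc (fun t => F33 α β γ δ t s) := by
    have e4 : (fun s => Tc (fun t => F33 α β γ δ t s)) = fun s =>
        Ac (fun t => F13 α β γ δ t s) - Dc (fun t => KW α β γ δ 0 0 3 t s) := by
      funext s
      rw [Dc_KW3]
      ring
    rw [e4]
    refine c1.sub ?_
    unfold Dc
    exact Continuous.div_const ((continuous_KW α β γ δ 0 0 3 continuous_const continuous_id).sub
      (continuous_KW α β γ δ 0 0 3 continuous_const continuous_id)) 2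
  rw [e2, e3, Ac_sub, Tc_sub c1 c2]
  ring

/-- The second difference is the mean over the square of `<δ> + Cov`. -/
theorem DcDc_lse_Mc (α β γ δ : X → ℝ) : Dc (fun t => Dc (fun s => lse (WW α β γ δ t s))) =
    Mc (fun s => Mc (fun t => F11 α β γ δ t s)) := by
  have e1 : (fun t => Dc (fun s => lse (WW α β γ δ t s))) = fun t => Mc (fun s => KW α β γ δ 0 0 1 t s) := by
    funext t
    exact Dc_eq_Mc (hasDerivAt_lse_WW α β γ δ t) (continuous_KW α β γ δ 0 0 1 continuous_const continuous_id)
  have e2 : ∀ s, Mc (fun t => F11 α β γ δ t s) = Dc (fun t => KW α β γ δ 0 0 1 t s) := fun s => by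
    refine (Dc_eq_Mc (fun t => ?_) ?_).symm
    · refine (hasDerivAt_KW α β γ δ 0 0 1 t s).congr_deriv ?_
      unfold F11
      norm_num
    · unfold F11
      exact (continuous_KW α β γ δ 1 0 1 continuous_id continuous_const).add
        (continuous_KW α β γ δ 0 1 0 continuous_id continuous_const)
  rw [e1]
  simp only [e2]
  have c : ∀ t : ℝ, IntervalIntegrable (fun s => KW α β γ δ 0 0 1 t s) volume (-1) 1 := fun t =>
    (continuous_KW α β γ δ 0 0 1 continuous_const continuous_id).intervalIntegrable _ _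
  unfold Dc Mc
  rw [intervalIntegral.integral_div, intervalIntegral.integral_sub (c 1) (c (-1))]
  ring

/-- One variable at a corner of the other: corner average = mean + remainder. -/
theorem Ac_F11 (α β γ δ : X → ℝ) (s : ℝ) : Ac (fun t => F11 α β γ δ t s) =
    Mc (fun t => F11 α β γ δ t s) + Tc (fun t => F31 α β γ δ t s) := by
  have h := Dc_KW1 α β γ δ s
  have e2 : Mc (fun t => F11 α β γ δ t s) = Dc (fun t => KW α β γ δ 0 0 1 t s) := by
    refine (Dc_eq_Mc (fun t => ?_) ?_).symm
    · refine (hasDerivAt_KW α β γ δ 0 0 1 t s).congr_deriv ?_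
      unfold F11
      norm_num
    · unfold F11
      exact (continuous_KW α β γ δ 1 0 1 continuous_id continuous_const).add
        (continuous_KW α β γ δ 0 1 0 continuous_id continuous_const)
  linarith

end

end Pool.W7d29a1.C0
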