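import Pool.Agent.W_7d29a1_C0.Mod92C
import Pool.Agent.W_7d29a1_C0.Trap82

/-!
MP_7d29a1_pr, [CURV0] (helper59): THE CONTRACT OF THE CROSS TERM, frame NG, for a general spectator `f`.

`Fam N`: families of functions of the pinned paths (one for every end `y`). `Cls59 c d D f`: measurable, bounded by `D`, a function of
the path behind the row `d`, blind to the environment of all rows up to `d` and to the signs of the block `[c, d)`.
For the kicked row `j`, base windows `b`, finer windows `b0` in the moved weights, blocks of length `σ`: `rowA` = covariance of the row functional `Zr` (conditional on the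
outside of the block of length `σ` of `j`) with `f`, at the actual corner; `rowC` = the average over the two corners `t = ± 1` of the
same family; `rowD` = the half difference of the mean of `f`. **`CR59`** bounds the sum over the kicked rows of the block `[c, d)` of
`rowC - rowD`; the law invariance (`rowA = rowC`, `rowD = θ`) is not a part of it. `gc_Zs`: the covariance of the functional `Zs` of the
block `[c, d)` with `f` is the sum of the `rowA`.
-/

set_option autoImplicit false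

namespace Pool.Agent.W_7d29a1_C0.Mod92

open Finset MeasureTheory Pool.Agent.W_7d29a1_F Pool.Agent.W_7d29a1_X Pool.Agent.W_7d29a1_H
open Pool.W7d29a1.C0 (gz gm lse gz_pos gz_ne Ac Dc)
open Pool.W7d29a1.C0.VT31

noncomputable section

/-- Families of functions of the pinned paths. -/
abbrev Fam (N : ℕ) := (y : ℕ) → Env × Finset ℕ → Px (Pn N y) → ℝ

/-- The spectators behind the block `[c, d)`. -/
structure Cls59 (N c d : ℕ) (D : ℝ) (f : Fam N) : Prop where
  meas : ∀ y (S : Px (Pn N y)), Measurable fun ω => f y ω S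
  bdd : ∀ y ω (S : Px (Pn N y)), |f y ω S| ≤ D
  side : ∀ y ω (S S' : Px (Pn N y)), S.1 \ range d = S'.1 \ range d → f y ω S = f y ω S'
  env : ∀ y (η : Env) (A : Finset ℕ) (S : Px (Pn N y)) (t x : ℤ) (u : ℝ), 0 < t → t ≤ d →
    f y (Function.update η (t, x) u, A) S = f y (η, A) S
  sgn : ∀ y (η : Env) (A A' : Finset ℕ) (S : Px (Pn N y)), A \ Ico c d = A' \ Ico c d → f y (η, A) S = f y (η, A') S

/-- The log weights of the row `j` at `t` (`t = a_j`: the actual ones, `t = - a_j`: the flipped ones). -/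
def wj (μ : Measure ℝ) (s : ℝ) (N : ℕ) (Q : Finset (Finset ℕ)) (δ B : ℝ) (b j : ℕ) (ω : Env × Finset ℕ) (t : ℝ) : Px Q → ℝ :=
  wt μ s ω.1 N Q δ B b j (sg ω.2 j) t

/-- The outside of the block of length `σ` of the row `j`. -/
def pS {Q : Finset (Finset ℕ)} (σ j : ℕ) : Px Q → Finset ℕ × ℕ := pJ (j / σ * σ) ((j / σ + 1) * σ)

/-- The covariance of the row functional of `j` with `f`, at the actual corner. -/
def rowA (μ : Measure ℝ) (s : ℝ) (N : ℕ) (δ B : ℝ) (b σ : ℕ) (f : Fam N) (y j : ℕ) : ℝ :=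
  ∫ ω, gc (wm μ s N (Pn N y) ω) (Zr (wm μ s N (Pn N y) ω) (pS σ j) (sr ω.2 j) (gg μ s (Pn N y) δ B b ω j)) (f y ω) ∂(Pm μ N)

/-- The average of the covariance over the two corners of the same family; the weights are moved by the response of the finer base
window `b0`, the functional uses the base `b`. -/
def rowC (μ : Measure ℝ) (s : ℝ) (N : ℕ) (δ B : ℝ) (b0 b σ : ℕ) (f : Fam N) (y j : ℕ) : ℝ :=
  ∫ ω, Ac (fun a => gc (wj μ s N (Pn N y) δ B b0 j ω a)
    (Zr (wj μ s N (Pn N y) δ B b0 j ω a) (pS σ j) a (gg μ s (Pn N y) δ B b ω j)) (f y ω)) ∂(Pm μ N)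

/-- The half difference of the mean of `f`. -/
def rowD (μ : Measure ℝ) (s : ℝ) (N : ℕ) (δ B : ℝ) (b0 : ℕ) (f : Fam N) (y j : ℕ) : ℝ :=
  ∫ ω, Dc (fun a => gm (wj μ s N (Pn N y) δ B b0 j ω a) (f y ω)) ∂(Pm μ N)

/-- The mean variance of `f`. -/
def varF (μ : Measure ℝ) (s : ℝ) (N : ℕ) (f : Fam N) (y : ℕ) : ℝ := ∫ ω, gv (wm μ s N (Pn N y) ω) (f y ω) ∂(Pm μ N)

/-- **THE CROSS TERM** of the block `[c, d)` against the spectator `f`: `κ` = the factor in front of the root of the variance of `f`. -/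
def CR59 (μ : Measure ℝ) (s : ℝ) (N : ℕ) (ys : Finset ℕ) (δ B : ℝ) (b0 b σ : ℕ) (R : Finset ℕ) (c d : ℕ) (κ e : ℝ)
    (f : Fam N) : Prop :=
  |∑ j ∈ Rw R c d, (avy ys (fun y => rowC μ s N δ B b0 b σ f y j) - avy ys (fun y => rowD μ s N δ B b0 f y j))| ≤
    κ * Real.sqrt (avy ys (varF μ s N f)) + e

/-- **The law invariance** (`θ = 0` for block functionals behind the block, `θ = 1/2` for the position at a row behind it). -/
def FL59 (μ : Measure ℝ) (s : ℝ) (N : ℕ) (ys : Finset ℕ) (δ B : ℝ) (b0 b σ : ℕ) (R : Finset ℕ) (c d : ℕ) (θ e : ℝ)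
    (f : Fam N) : Prop :=
  ∀ j ∈ Rw R c d, |avy ys (fun y => rowA μ s N δ B b σ f y j) - avy ys (fun y => rowC μ s N δ B b0 b σ f y j)| ≤ e ∧
    |avy ys (fun y => rowD μ s N δ B b0 f y j) - θ| ≤ e

variable {μ : Measure ℝ} {s : ℝ} {N : ℕ}

/-- A spectator is a function of the path outside of the block. -/
theorem Cls59.mp {c d : ℕ} {D : ℝ} {f : Fam N} (h : Cls59 N c d D f) (y : ℕ) (ω : Env × Finset ℕ) :
    Mp (pJ (Q := Pn N y) c d) (f y ω) := by
  intro S S' e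
  refine h.side y ω S S' ?_
  have h1 : S.1 \ Ico c d = S'.1 \ Ico c d := congrArg Prod.fst e
  have h2 : ∀ T : Finset ℕ, T \ range d = (T \ Ico c d) \ range d := fun T => by
    ext i
    simp only [mem_sdiff, mem_Ico, mem_range]
    constructor
    · rintro ⟨h3, h4⟩
      exact ⟨⟨h3, fun h5 => h4 h5.2⟩, h4⟩
    · rintro ⟨⟨h3, _⟩, h4⟩
      exact ⟨h3, h4⟩
  rw [h2 S.1, h2 S'.1, h1]

/-- The functional of the frame NG, row by row. -/
theorem Zt_rows {Q : Finset (Finset ℕ)} (δ B : ℝ) (b : ℕ) {σ : ℕ} (hσ : 0 < σ) (R : Finset ℕ) {c d : ℕ} (hc : σ ∣ c) (hd : σ ∣ d)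
    (ω : Env × Finset ℕ) : Zt μ s N Q δ B b σ R c d ω =
      ∑ j ∈ Rw R c d, Zr (wm μ s N Q ω) (pS σ j) (sr ω.2 j) (gg μ s Q δ B b ω j) := by
  obtain ⟨c', rfl⟩ := hc
  obtain ⟨d', rfl⟩ := hd
  have ec : σ * c' / σ = c' := Nat.mul_div_cancel_left _ hσ
  have ed : σ * d' / σ = d' := Nat.mul_div_cancel_left _ hσ
  have hu : Rw R (σ * c') (σ * d') = (Ico c' d').biUnion fun k => Rw R (k * σ) ((k + 1) * σ) := by
    unfold Rw
    ext j
    simp only [mem_inter, mem_biUnion, mem_Ico]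
    constructor
    · rintro ⟨h1, h2, h3⟩
      refine ⟨j / σ, ⟨?_, ?_⟩, h1, Nat.div_mul_le_self j σ, ?_⟩
      · rw [Nat.le_div_iff_mul_le hσ, mul_comm]
        exact h2
      · rw [Nat.div_lt_iff_lt_mul hσ, mul_comm]
        exact h3
      · rw [Nat.succ_mul]
        exact Nat.lt_div_mul_add hσ
    · rintro ⟨k, ⟨h1, h2⟩, h3, h4, h5⟩
      refine ⟨h3, ?_, ?_⟩
      · calc σ * c' = c' * σ := by ring
          _ ≤ k * σ := Nat.mul_le_mul_right σ h1
          _ ≤ j := h4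
      · calc j < (k + 1) * σ := h5
          _ ≤ d' * σ := Nat.mul_le_mul_right σ h2
          _ = σ * d' := by ring
  have hdj : ((Ico c' d' : Finset ℕ) : Set ℕ).PairwiseDisjoint fun k => Rw R (k * σ) ((k + 1) * σ) := by
    intro i _ i' _ hne
    unfold Function.onFun Rw
    rw [disjoint_left]
    intro j h1 h2
    simp only [mem_inter, mem_Ico] at h1 h2
    rcases Nat.lt_or_gt_of_ne hne with h | h
    · have := Nat.mul_le_mul_right σ (show i + 1 ≤ i' from h)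
      omega
    · have := Nat.mul_le_mul_right σ (show i' + 1 ≤ i from h)
      omega
  unfold Zt
  rw [ec, ed, hu, sum_biUnion hdj]
  refine sum_congr rfl fun k _ => ?_
  unfold Zm Zb
  refine sum_congr rfl fun j hj => ?_
  have hj' : k * σ ≤ j ∧ j < (k + 1) * σ := by
    unfold Rw at hj
    rw [mem_inter, mem_Ico] at hj
    exact hj.2
  have ek : j / σ = k := by
    rw [Nat.div_eq_iff hσ]
    constructor
    · exact hj'.1
    · have := hj'.2
      rw [Nat.succ_mul] at this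
      omega
  unfold pS
  rw [ek]

theorem meas_sg (j : ℕ) (t : ℝ) {Q : Finset (Finset ℕ)} (δ B : ℝ) (b : ℕ) (S : Px Q) :
    Measurable fun ω : Env × Finset ℕ => wj μ s N Q δ B b j ω t S := meas_wt δ B b j t S

section pin

variable {y : ℕ} [Nonempty (Px (Pn N y))]

/-- The row functional. -/
theorem meas_Zr {Q : Finset (Finset ℕ)} (δ B : ℝ) (b σ j : ℕ) (S : Px Q) :
    Measurable fun ω => Zr (wm μ s N Q ω) (pS σ j) (sr ω.2 j) (gg μ s Q δ B b ω j) S :=
  (meas_cE meas_wm (meas_gg δ B b j) _ S).sub (((meas_sr j).div_const 3).mul (meas_cV meas_wm (meas_gg δ B b j) _ S))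

theorem abs_Zr {Q : Finset (Finset ℕ)} [Nonempty (Px Q)] {δ B : ℝ} (hB : 0 ≤ B) (b σ j : ℕ) (ω : Env × Finset ℕ) (S : Px Q) :
    |Zr (wm μ s N Q ω) (pS σ j) (sr ω.2 j) (gg μ s Q δ B b ω j) S| ≤ B / 2 + (B / 2) ^ 2 := by
  have h1 := abs_cE_le (wm μ s N Q ω) (pS σ j) (abs_gg (μ := μ) (s := s) (Q := Q) (δ := δ) hB b ω j) S
  have h2 := abs_cV_le (wm μ s N Q ω) (pS σ j) (abs_gg (μ := μ) (s := s) (Q := Q) (δ := δ) hB b ω j) S
  have h3 : |sr ω.2 j / 3 * cV (wm μ s N Q ω) (pS σ j) (gg μ s Q δ B b ω j) S| ≤ (B / 2) ^ 2 := by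
    rw [abs_mul, abs_div, abs_sr]
    have : |(3 : ℝ)| = 3 := by norm_num
    rw [this]
    nlinarith [abs_nonneg (cV (wm μ s N Q ω) (pS σ j) (gg μ s Q δ B b ω j) S)]
  exact (abs_sub _ _).trans (add_le_add h1 h3)

theorem int_rowA [IsProbabilityMeasure μ] {δ B : ℝ} (hB : 0 ≤ B) (b σ j : ℕ) {c d : ℕ} {D : ℝ} {f : Fam N}
    (hf : Cls59 N c d D f) :
    Integrable (fun ω => gc (wm μ s N (Pn N y) ω)
      (Zr (wm μ s N (Pn N y) ω) (pS σ j) (sr ω.2 j) (gg μ s (Pn N y) δ B b ω j)) (f y ω)) (Pm μ N) :=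
  int_bdd (meas_gc meas_wm (fun S => meas_Zr δ B b σ j S) fun S => hf.meas y S) fun ω =>
    abs_gc_le_mul _ (abs_Zr hB b σ j ω) (hf.bdd y ω)

/-- **The covariance of the block functional with a spectator**, row by row. -/
theorem gc_Zs [IsProbabilityMeasure μ] {δ B : ℝ} (hB : 0 ≤ B) (b : ℕ) {σ : ℕ} (hσ : 0 < σ) (R : Finset ℕ) {c d : ℕ}
    (hc : σ ∣ c) (hd : σ ∣ d) {D : ℝ} {f : Fam N} (hf : Cls59 N c d D f) :
    ∫ ω, gc (wm μ s N (Pn N y) ω) (Zs μ s N (Pn N y) δ B b σ R c d ω) (f y ω) ∂(Pm μ N) =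
      ∑ j ∈ Rw R c d, rowA μ s N δ B b σ f y j := by
  have e : ∀ ω, gc (wm μ s N (Pn N y) ω) (Zs μ s N (Pn N y) δ B b σ R c d ω) (f y ω) = ∑ j ∈ Rw R c d,
      gc (wm μ s N (Pn N y) ω) (Zr (wm μ s N (Pn N y) ω) (pS σ j) (sr ω.2 j) (gg μ s (Pn N y) δ B b ω j)) (f y ω) := by
    intro ω
    unfold Zs
    rw [gc_cE_left _ _ (hf.mp y ω), Zt_rows δ B b hσ R hc hd ω, gc_sum_left]
  simp only [e]
  rw [integral_finsetSum _ fun j _ => int_rowA hB b σ j hf]
  rfl

end pin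

theorem avy_sum {ι : Type*} (ys : Finset ℕ) (I : Finset ι) (Φ : ι → ℕ → ℝ) :
    avy ys (fun y => ∑ i ∈ I, Φ i y) = ∑ i ∈ I, avy ys (Φ i) := by
  unfold avy
  rw [sum_comm, mul_sum]

/-- **The averaged cross term from the contracts**: `CR59`, `FL59`. -/
theorem cross59 [IsProbabilityMeasure μ] {ys : Finset ℕ} (hys : ∀ y ∈ ys, y ≤ N) {δ B : ℝ} (hB : 0 ≤ B) {b0 b : ℕ} {σ : ℕ}
    (hσ : 0 < σ) (R : Finset ℕ) {c d : ℕ} (hc : σ ∣ c) (hd : σ ∣ d) {D : ℝ} {f : Fam N} (hf : Cls59 N c d D f) {κ e e' θ : ℝ}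
    (h1 : CR59 μ s N ys δ B b0 b σ R c d κ e f) (h2 : FL59 μ s N ys δ B b0 b σ R c d θ e' f) :
    |avy ys (fun y => ∫ ω, gc (wm μ s N (Pn N y) ω) (Zs μ s N (Pn N y) δ B b σ R c d ω) (f y ω) ∂(Pm μ N)) -
      θ * (Rw R c d).card| ≤ κ * Real.sqrt (avy ys (varF μ s N f)) + e + 2 * e' * (Rw R c d).card := by
  have e1 : avy ys (fun y => ∫ ω, gc (wm μ s N (Pn N y) ω) (Zs μ s N (Pn N y) δ B b σ R c d ω) (f y ω) ∂(Pm μ N)) =
      ∑ j ∈ Rw R c d, avy ys (fun y => rowA μ s N δ B b σ f y j) := by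
    rw [← avy_sum]
    unfold avy
    congr 1
    refine sum_congr rfl fun y hy => ?_
    have := ne_Pn (hys y hy)
    exact gc_Zs hB b hσ R hc hd hf
  have e2 : ∑ j ∈ Rw R c d, avy ys (fun y => rowA μ s N δ B b σ f y j) - θ * (Rw R c d).card =
      ∑ j ∈ Rw R c d, (avy ys (fun y => rowC μ s N δ B b0 b σ f y j) - avy ys (fun y => rowD μ s N δ B b0 f y j)) +
        ∑ j ∈ Rw R c d, ((avy ys (fun y => rowA μ s N δ B b σ f y j) - avy ys (fun y => rowC μ s N δ B b0 b σ f y j)) +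
          (avy ys (fun y => rowD μ s N δ B b0 f y j) - θ)) := by
    have h3 : θ * ((Rw R c d).card : ℝ) = ∑ _j ∈ Rw R c d, θ := by
      rw [sum_const, nsmul_eq_mul]
      ring
    rw [h3, ← sum_sub_distrib, ← sum_add_distrib]
    exact sum_congr rfl fun j _ => by ring
  rw [e1, e2]
  refine (abs_add_le _ _).trans (add_le_add h1 ?_)
  refine (abs_sum_le_sum_abs _ _).trans ?_
  calc ∑ j ∈ Rw R c d, |(avy ys (fun y => rowA μ s N δ B b σ f y j) - avy ys (fun y => rowC μ s N δ B b0 b σ f y j)) +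
        (avy ys (fun y => rowD μ s N δ B b0 f y j) - θ)| ≤ ∑ _j ∈ Rw R c d, (e' + e') :=
        sum_le_sum fun j hj => (abs_add_le _ _).trans (add_le_add (h2 j hj).1 (h2 j hj).2)
    _ = 2 * e' * (Rw R c d).card := by
        rw [sum_const, nsmul_eq_mul]
        ring

end

end Pool.Agent.W_7d29a1_C0.Mod92
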