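import Pool.Agent.W_7d29a1_C0.FlipC61
import Pool.Agent.W_7d29a1_C0.Cr59

/-!
CURV0 (MP_7d29a1_pr), E7: THE CONTRACT `FL59` (law invariance) from the errors `FErr` of the single flips. `fl59`: for a covariant
spectator (up to `2 θ y`), two bases: `b0` in the moved weights, `b` in the functional. `fl59_fR`: for the block functionals to the right,
`θ = 0`. `fl59_Sn`: for the position, `θ = 1 / 2`. (helper61)
-/

set_option autoImplicit false
set_option linter.unusedSectionVars false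

namespace Pool.Agent.W_7d29a1_C0.Flip61

open Pool.Agent.W_7d29a1_F hiding W_pos W_nonneg W_add
open Finset MeasureTheory Pool.Agent.W_7d29a1_X Pool.Agent.W_7d29a1_HZ
open Pool.Agent.W_7d29a1_Z74
open Pool.Agent.W_7d29a1_HZ.Z74
open Pool.Agent.W_7d29a1_C0.Mod92
open Pool.Agent.W_7d29a1_C0.Blk18
open Pool.Agent.W_7d29a1_C0.Pin18
open Pool.W7d29a1.C0 (gz gm gz_pos gz_ne gm_const gm_mono gm_nonneg gm_sub Ac Dc)
open Pool.W7d29a1.C0.VT31 (Mp Crs cE cV cC gc gv)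

noncomputable section

theorem Ac_sg (Φ : ℝ → ℝ) (A : Finset ℕ) (j : ℕ) : Ac Φ = (Φ (sg A j : ℝ) + Φ (-(sg A j : ℝ))) / 2 := by
  unfold Ac
  rcases sg_or A j with h | h <;> rw [h] <;> push_cast
  · ring
  · rw [neg_neg]
    ring

theorem Dc_sg (Φ : ℝ → ℝ) (A : Finset ℕ) (j : ℕ) : Dc Φ = sr A j / 2 * (Φ (sg A j : ℝ) - Φ (-(sg A j : ℝ))) := by
  unfold Dc sr
  rcases sg_or A j with h | h <;> rw [h] <;> push_cast
  · ring
  · rw [neg_neg]
    ring

theorem avy_Ico (y₀ m : ℕ) (Φ : ℕ → ℝ) : avy (Ico y₀ (y₀ + m)) Φ = (m : ℝ)⁻¹ * ∑ y ∈ Ico y₀ (y₀ + m), Φ y := by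
  unfold avy
  rw [Nat.card_Ico, Nat.add_sub_cancel_left]

theorem avy_sub (ys : Finset ℕ) (Φ Ψ : ℕ → ℝ) : avy ys Φ - avy ys Ψ = avy ys fun y => Φ y - Ψ y := by
  unfold avy
  rw [sum_sub_distrib]
  ring

/-- Covariances do not see a constant. -/
theorem gc_sub_const {X : Type*} [Fintype X] [Nonempty X] (w f g : X → ℝ) (r : ℝ) : gc w f (fun x => g x - r) = gc w f g := by
  unfold gc
  have h1 : gm w (fun x => g x - r) = gm w g - r := by
    have h := gm_sub w g (fun _ => r)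
    rw [gm_const] at h
    exact h
  have h2 : gm w (f * fun x => g x - r) = gm w (f * g) - r * gm w f := by
    have h := gm_sub w (f * g) (r • f)
    rw [Pool.W7d29a1.C0.gm_smul] at h
    rw [← h]
    congr 1
    funext x
    simp only [Pi.mul_apply, Pi.sub_apply, Pi.smul_apply, smul_eq_mul]
    ring
  rw [h1, h2]
  ring

variable {μ : Measure ℝ} {s : ℝ} {N : ℕ} [IsProbabilityMeasure μ]

/-- The given functions: the response `gg` and the spectator. -/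
def hf (μ : Measure ℝ) (s : ℝ) (δ B : ℝ) (b j : ℕ) (θ : ℝ) (f : Fam N) (y : ℕ) (ω : Env × Finset ℕ) : Bool → Px (Pn N y) → ℝ
  | false => gg μ s (Pn N y) δ B b ω j
  | true => fun S => f y ω S - 2 * θ * y

/-- The bounds. -/
def bf (B D' : ℝ) : Bool → ℝ
  | false => B / 2
  | true => D'

theorem cov_hf {b0 b j : ℕ} (hb0 : b0 ≤ b) (δ : ℝ) {B : ℝ} (hB : 0 ≤ B) {θ D' : ℝ} {f : Fam N}
    (H : Cov1 N b0 j (fun y ω S => f y ω S - 2 * θ * y) D') : Cov N b0 j (hf μ s δ B b j θ f) (bf B D') :=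
  cov_of fun i => by
    cases i
    · exact cov_gj' hb0 δ hB
    · exact H

/-- The expression of the row. -/
def eR (a : ℤ) : Ex Bool Unit := Ex.gcc (Ex.zr () (a : ℝ) (Ex.fn false)) (Ex.fn true)

theorem ob_row (δ B : ℝ) (b σ j : ℕ) (θ : ℝ) (f : Fam N) {y : ℕ} (hy : y ≤ N) (ω : Env × Finset ℕ) :
    ob μ s N j (fun _ : Unit => j / σ * σ) (fun _ => (j / σ + 1) * σ) (hf μ s δ B b j θ f) eR y ω =
      gc (wm μ s N (Pn N y) ω) (Pool.W7d29a1.C0.VT31.Zr (wm μ s N (Pn N y) ω) (pS σ j) (sr ω.2 j) (gg μ s (Pn N y) δ B b ω j))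
        (f y ω) := by
  have n1 : Nonempty (Px (Pn N y)) := ne_Pn hy
  unfold ob eR
  rw [Ex.evX_gcc, Ex.evX_zr]
  exact gc_sub_const _ _ (f y ω) (2 * θ * y)

theorem obf_row (δ B : ℝ) (b0 b σ j : ℕ) (θ : ℝ) (f : Fam N) {y : ℕ} (hy : y ≤ N) (ω : Env × Finset ℕ) :
    obf μ s N δ B b0 j (fun _ : Unit => j / σ * σ) (fun _ => (j / σ + 1) * σ) (hf μ s δ B b j θ f) eR y ω =
      gc (wj μ s N (Pn N y) δ B b0 j ω (-(sg ω.2 j : ℝ))) (Pool.W7d29a1.C0.VT31.Zr (wj μ s N (Pn N y) δ B b0 j ω (-(sg ω.2 j : ℝ)))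
        (pS σ j) (-(sg ω.2 j : ℝ)) (gg μ s (Pn N y) δ B b ω j)) (f y ω) := by
  have n1 : Nonempty (Px (Pn N y)) := ne_Pn hy
  unfold obf eR
  rw [Ex.evX_gcc, Ex.evX_zr]
  have e : (((-sg ω.2 j : ℤ)) : ℝ) = -(sg ω.2 j : ℝ) := by push_cast; rfl
  rw [e]
  exact gc_sub_const _ _ (f y ω) (2 * θ * y)

theorem ob_fn (δ B : ℝ) (b j : ℕ) (C D : Unit → ℕ) (θ : ℝ) (f : Fam N) {y : ℕ} (hy : y ≤ N) (ω : Env × Finset ℕ) :
    ob μ s N j C D (hf μ s δ B b j θ f) (fun _ => Ex.fn true) y ω = gm (lw μ s ω.1 N (Pn N y)) (f y ω) - 2 * θ * y := by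
  have n1 : Nonempty (Px (Pn N y)) := ne_Pn hy
  have h := gm_sub (lw μ s ω.1 N (Pn N y)) (f y ω) (fun _ => 2 * θ * (y : ℝ))
  rw [gm_const] at h
  exact h

theorem obf_fn (δ B : ℝ) (b0 b j : ℕ) (C D : Unit → ℕ) (θ : ℝ) (f : Fam N) {y : ℕ} (hy : y ≤ N) (ω : Env × Finset ℕ) :
    obf μ s N δ B b0 j C D (hf μ s δ B b j θ f) (fun _ => Ex.fn true) y ω =
      gm (wj μ s N (Pn N y) δ B b0 j ω (-(sg ω.2 j : ℝ))) (f y ω) - 2 * θ * y := by
  have n1 : Nonempty (Px (Pn N y)) := ne_Pn hy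
  have h := gm_sub (wj μ s N (Pn N y) δ B b0 j ω (-(sg ω.2 j : ℝ))) (f y ω) (fun _ => 2 * θ * (y : ℝ))
  rw [gm_const] at h
  exact h

theorem meas_ω (A : Finset ℕ) {Φ : Env × Finset ℕ → ℝ} (h : Measurable Φ) : Measurable fun η : Env => Φ (η, A) :=
  h.comp (meas_pair A)

/-- **THE CONTRACT FL59** from the errors of the single flips. -/
theorem fl59 {b0 b σ : ℕ} (hb0 : 0 < b0) (hσ : 0 < σ) (d1 : b0 ≤ b) {R : Finset ℕ}
    (hdeep : ∀ i ∈ R, i / σ * σ + b ≤ i ∧ i + b ≤ (i / σ + 1) * σ) {c d : ℕ} (hd : σ ∣ d) (hdN : d ≤ N)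
    {δ B : ℝ} (hB : 0 ≤ B) {θ D D' ε : ℝ} (hD : 0 ≤ D) {f : Fam N} (hf59 : Cls59 N c d D f)
    (H : ∀ j ∈ Rw R c d, Cov1 N b0 j (fun y ω S => f y ω S - 2 * θ * y) D')
    {y₀ m : ℕ} (hy : 1 ≤ y₀) (hm : 1 ≤ m) (hyN : y₀ + m ≤ N) (hE : ∀ j ∈ Rw R c d, FErr μ s N δ B b0 j y₀ m ε)
    {E : ℝ} (E1 : (B / 2 + (B / 2) ^ 2) * D / m + 36 * (B + 3 * B ^ 2) * D' * ε ≤ E) (E2 : D / m + 3 * D' * ε ≤ E) :
    FL59 μ s N (Ico y₀ (y₀ + m)) δ B b0 b σ R c d θ E f := by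
  intro j hj
  have hjR := hj
  unfold Rw at hjR
  rw [mem_inter, mem_Ico] at hjR
  obtain ⟨hjR', hjc, hjd⟩ := hjR
  have hdj := hdeep j hjR'
  have hH := H j hj
  have hC := cov_hf (μ := μ) (s := s) (f := f) d1 δ hB hH
  have hw1 : j / σ * σ ≤ j - b0 := by omega
  have hw2 : j + b0 ≤ (j / σ + 1) * σ := (Nat.add_le_add_left d1 j).trans hdj.2
  have hwd : (j / σ + 1) * σ ≤ d := by
    obtain ⟨d', rfl⟩ := hd
    rw [mul_comm σ d'] at hjd ⊢
    exact Nat.mul_le_mul_right σ ((Nat.div_lt_iff_lt_mul hσ).2 hjd)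
  have hwN : j + b0 ≤ N := (hw2.trans hwd).trans hdN
  have hjN : j < N := lt_of_lt_of_le hjd hdN
  have hD'0 : 0 ≤ D' := hH.pos
  have hbf : ∀ i, 0 ≤ bf B D' i := hC.pos
  have hm0 : (0 : ℝ) < m := by exact_mod_cast hm
  have hyle : ∀ y ∈ Ico y₀ (y₀ + m), y ≤ N := fun y h => by
    have := mem_Ico.1 h
    omega
  constructor
  · -- both corners
    have hL : ∀ a : ℤ, a = 1 ∨ a = -1 → Ex.li (bf B D') (eR a) + 2 * Ex.bd (bf B D') (eR a) ≤ 12 * (B + 3 * B ^ 2) * D' * 2 := by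
      intro a ha
      have ha1 : |(a : ℝ)| ≤ 1 := by rcases ha with rfl | rfl <;> norm_num
      have h1 := Ex.sz_gcc hbf (Ex.zr () (a : ℝ) (Ex.fn false)) (Ex.fn true)
      have h2 := Ex.sz_zr hbf () ha1 (Ex.fn false)
      rw [Ex.sz_fn] at h2
      have h3 : Ex.sz (bf B D') (Ex.fn true : Ex Bool Unit) = 2 * D' := Ex.sz_fn _ _
      have h4 : 2 * bf B D' false = B := by
        show 2 * (B / 2) = B
        ring
      rw [h4] at h2
      rw [h3] at h1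
      have h5 : Ex.sz (bf B D') (Ex.zr () (a : ℝ) (Ex.fn false)) * (2 * D') ≤ (2 * B + 6 * (B * B)) * (2 * D') :=
        mul_le_mul_of_nonneg_right h2 (by positivity)
      show Ex.sz (bf B D') (eR a) ≤ _
      unfold eR
      nlinarith
    have hM : ∀ y ω, |ob μ s N j (fun _ : Unit => j / σ * σ) (fun _ => (j / σ + 1) * σ) (hf μ s δ B b j θ f) eR y ω| ≤
        (B / 2 + (B / 2) ^ 2) * D := by
      intro y ω
      by_cases hyy : y ≤ N
      · have n1 : Nonempty (Px (Pn N y)) := ne_Pn hyy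
        rw [ob_row δ B b σ j θ f hyy ω]
        exact abs_gc_le_mul _ (abs_Zr hB b σ j ω) (hf59.bdd y ω)
      · unfold ob
        rw [gm_zero_empty hyy, abs_zero]
        positivity
    have h := fl_even (μ := μ) (s := s) hb0 hwN hC (fun _ : Unit => j / σ * σ) (fun _ => (j / σ + 1) * σ) (fun _ => hw1) (fun _ => hw2)
      eR (δ := δ) (B := B) hL hM hy hm hyN (hE j hj)
    have e1 : avy (Ico y₀ (y₀ + m)) (fun y => rowA μ s N δ B b σ f y j) -
        avy (Ico y₀ (y₀ + m)) (fun y => rowC μ s N δ B b0 b σ f y j) = 1 / 2 * ((m : ℝ)⁻¹ * ∑ y ∈ Ico y₀ (y₀ + m),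
        ∫ ω, (ob μ s N j (fun _ : Unit => j / σ * σ) (fun _ => (j / σ + 1) * σ) (hf μ s δ B b j θ f) eR y ω -
          obf μ s N δ B b0 j (fun _ : Unit => j / σ * σ) (fun _ => (j / σ + 1) * σ) (hf μ s δ B b j θ f) eR y ω) ∂(Pm μ N)) := by
      rw [avy_sub, avy_Ico, mul_left_comm, mul_sum (s := Ico y₀ (y₀ + m)) (a := (1 / 2 : ℝ))]
      congr 1
      refine sum_congr rfl fun y hy' => ?_
      have hyy := hyle y hy'
      have n1 : Nonempty (Px (Pn N y)) := ne_Pn hyy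
      have m1 : Measurable fun ω => ob μ s N j (fun _ : Unit => j / σ * σ) (fun _ => (j / σ + 1) * σ) (hf μ s δ B b j θ f) eR y ω :=
        meas_ob j _ _ hC.mes eR y
      have m2 : Measurable fun ω => obf μ s N δ B b0 j (fun _ : Unit => j / σ * σ) (fun _ => (j / σ + 1) * σ)
          (hf μ s δ B b j θ f) eR y ω := meas_obf δ B b0 j _ _ hC.mes eR y
      have b1 : ∀ ω, |ob μ s N j (fun _ : Unit => j / σ * σ) (fun _ => (j / σ + 1) * σ) (hf μ s δ B b j θ f) eR y ω| ≤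
          Ex.bd (bf B D') (eR 1) + Ex.bd (bf B D') (eR (-1)) := fun ω => by
        have h1 := ob_bdd (μ := μ) (s := s) j (fun _ : Unit => j / σ * σ) (fun _ => (j / σ + 1) * σ) hbf hC.bdd eR y ω
        have h2 := Ex.bd_nonneg hbf (eR 1)
        have h3 := Ex.bd_nonneg hbf (eR (-1))
        rcases sg_or ω.2 j with h4 | h4 <;> rw [h4] at h1 <;> linarith
      have b2 : ∀ ω, |obf μ s N δ B b0 j (fun _ : Unit => j / σ * σ) (fun _ => (j / σ + 1) * σ) (hf μ s δ B b j θ f) eR y ω| ≤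
          Ex.bd (bf B D') (eR 1) + Ex.bd (bf B D') (eR (-1)) := fun ω => by
        have h1 := obf_bdd (μ := μ) (s := s) δ B b0 j (fun _ : Unit => j / σ * σ) (fun _ => (j / σ + 1) * σ) hbf hC.bdd eR y ω
        have h2 := Ex.bd_nonneg hbf (eR 1)
        have h3 := Ex.bd_nonneg hbf (eR (-1))
        rcases sg_or ω.2 j with h4 | h4 <;> rw [h4] at h1
        · linarith
        · rw [neg_neg] at h1
          linarith
      have j1 := int_bdd (μ := μ) (N := N) m1 b1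
      have j2 := int_bdd (μ := μ) (N := N) m2 b2
      have eA : rowA μ s N δ B b σ f y j =
          ∫ ω, ob μ s N j (fun _ : Unit => j / σ * σ) (fun _ => (j / σ + 1) * σ) (hf μ s δ B b j θ f) eR y ω ∂(Pm μ N) := by
        unfold rowA
        exact integral_congr_ae (Filter.Eventually.of_forall fun ω => (ob_row δ B b σ j θ f hyy ω).symm)
      have eC : rowC μ s N δ B b0 b σ f y j =
          ∫ ω, (ob μ s N j (fun _ : Unit => j / σ * σ) (fun _ => (j / σ + 1) * σ) (hf μ s δ B b j θ f) eR y ω +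
            obf μ s N δ B b0 j (fun _ : Unit => j / σ * σ) (fun _ => (j / σ + 1) * σ) (hf μ s δ B b j θ f) eR y ω) / 2 ∂(Pm μ N) := by
        unfold rowC
        refine integral_congr_ae (Filter.Eventually.of_forall fun ω => ?_)
        show Ac _ = (_ + _) / 2
        rw [Ac_sg _ ω.2 j, obf_row δ B b0 b σ j θ f hyy ω, ob_row δ B b σ j θ f hyy ω]
        have e3 : wj μ s N (Pn N y) δ B b0 j ω (sg ω.2 j : ℝ) = wm μ s N (Pn N y) ω := wt_self _ _ _ _ _ _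
        rw [e3]
        rfl
      rw [eA, eC, integral_div, integral_add j1 j2, integral_sub j1 j2]
      ring
    rw [e1, abs_mul, abs_of_pos (by norm_num : (0 : ℝ) < 1 / 2)]
    refine (mul_le_mul_of_nonneg_left h (by norm_num : (0 : ℝ) ≤ 1 / 2)).trans (le_trans (le_of_eq ?_) E1)
    ring
  · -- the half difference
    have hbl : ∀ (y : ℕ) (η : Env) (A : Finset ℕ) (S : Px (Pn N y)), f y (η, flp j A) S = f y (η, A) S := fun y η A S =>
      hf59.sgn y η (flp j A) A S (by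
        unfold flp
        ext i
        simp only [mem_sdiff, mem_symmDiff, mem_singleton, mem_Ico]
        constructor
        · rintro ⟨⟨h1, _⟩ | ⟨h1, _⟩, h3⟩
          · exact ⟨h1, h3⟩
          · exact absurd ⟨h1 ▸ hjc, h1 ▸ hjd⟩ h3
        · rintro ⟨h1, h3⟩
          exact ⟨Or.inl ⟨h1, fun h4 => h3 ⟨h4 ▸ hjc, h4 ▸ hjd⟩⟩, h3⟩)
    have mf : ∀ (y : ℕ) (A : Finset ℕ) (S : Px (Pn N y)), Measurable fun η : Env => f y (η, A) S := fun y A S =>
      (hf59.meas y S).comp (meas_pair A)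
    have bg : ∀ (y : ℕ) (w : Px (Pn N y) → ℝ) (ω : Env × Finset ℕ), |gm w (f y ω)| ≤ D := fun y w ω => by
      by_cases hyy : y ≤ N
      · have n1 : Nonempty (Px (Pn N y)) := ne_Pn hyy
        exact Ex.gm_bdd _ (hf59.bdd y ω)
      · rw [gm_zero_empty hyy, abs_zero]
        exact hD
    have mw : ∀ (y : ℕ) (A : Finset ℕ) (t : ℝ) (S : Px (Pn N y)), Measurable fun η : Env => wt μ s η N (Pn N y) δ B b0 j (sg A j) t S :=
      fun y A t S => (meas_lw S).add ((meas_gj δ B b0 j (sg A j) S).const_mul _)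
    have i1 : ∀ y A, Integrable (fun η : Env => gm (lw μ s η N (Pn N y)) (f y (η, A))) (law μ) := fun y A =>
      Integrable.of_bound (meas_gm (fun S => meas_lw S) (mf y A)).aestronglyMeasurable D (Filter.Eventually.of_forall fun η => by
        rw [Real.norm_eq_abs]
        exact bg y _ _)
    have i2 : ∀ y A, Integrable (fun η : Env => gm (wt μ s η N (Pn N y) δ B b0 j (sg A j) (-(sg A j : ℝ))) (f y (η, A))) (law μ) :=
      fun y A => Integrable.of_bound (meas_gm (mw y A _) (mf y A)).aestronglyMeasurable D (Filter.Eventually.of_forall fun η => by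
        rw [Real.norm_eq_abs]
        exact bg y _ _)
    have eD : ∀ y, rowD μ s N δ B b0 f y j = (2 ^ N : ℝ)⁻¹ * ∑ A ∈ (range N).powerset, sr A j / 2 *
        (∫ η, gm (lw μ s η N (Pn N y)) (f y (η, A)) ∂(law μ) -
          ∫ η, gm (wt μ s η N (Pn N y) δ B b0 j (sg A j) (-(sg A j : ℝ))) (f y (η, A)) ∂(law μ)) := by
      intro y
      have e3 : ∀ (η : Env) (A : Finset ℕ), Dc (fun a => gm (wj μ s N (Pn N y) δ B b0 j (η, A) a) (f y (η, A))) = sr A j / 2 *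
          (gm (lw μ s η N (Pn N y)) (f y (η, A)) - gm (wt μ s η N (Pn N y) δ B b0 j (sg A j) (-(sg A j : ℝ))) (f y (η, A))) := by
        intro η A
        rw [Dc_sg _ A j]
        have e4 : wj μ s N (Pn N y) δ B b0 j (η, A) (sg A j : ℝ) = lw μ s η N (Pn N y) := wt_self _ _ _ _ _ _
        rw [e4]
        rfl
      unfold rowD
      rw [int_Pm]
      · congr 1
        refine sum_congr rfl fun A _ => ?_
        rw [integral_congr_ae (Filter.Eventually.of_forall fun η => e3 η A), integral_const_mul, integral_sub (i1 y A) (i2 y A)]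
      · intro A _
        simp only [e3]
        exact ((i1 y A).sub (i2 y A)).const_mul (sr A j / 2)
      · intro A
        simp only [e3]
        exact measurable_const.mul ((meas_gm (fun S => meas_lw S) (mf y A)).sub (meas_gm (mw y A _) (mf y A)))
    have hL0 : (0 : ℝ) ≤ 2 * D' := by positivity
    have hp := pin_signs (N := N) (j := j) (F := fun A y => ∫ η, gm (lw μ s η N (Pn N y)) (f y (η, A)) ∂(law μ))
      (Fl := fun A y => ∫ η, gm (wt μ s η N (Pn N y) δ B b0 j (sg A j) (-(sg A j : ℝ))) (f y (η, A)) ∂(law μ)) (M := D) (c := 2 * θ)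
      (e := 2 * D' * (3 * ε)) (fun A y => abs_int_le fun η => bg y _ _) hy hm fun A _ y hy' => ?_
    · rw [avy_Ico]
      simp only [eD]
      have e5 : 2 * θ / 2 = θ := by ring
      rw [e5] at hp
      refine hp.trans (le_trans (le_of_eq ?_) E2)
      ring
    · have hy2 := mem_Ico.1 hy'
      have hyy := hyle y hy'
      have hnb : ((nb (sg A j) y : ℕ) : ℤ) = y + sg A j := by
        unfold nb
        rcases sg_or A j with h1 | h1 <;> rw [h1] <;> omega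
      have hnbN : nb (sg A j) y ≤ N := by
        rcases sg_or A j with h1 | h1 <;> rw [h1] at hnb ⊢ <;> omega
      have h0 := one_end_int (μ := μ) (s := s) hb0 hwN hC (fun _ : Unit => j / σ * σ) (fun _ => (j / σ + 1) * σ) (fun _ => hw1)
        (fun _ => hw2) (fun _ => Ex.fn true) δ B (y := y) (by omega) (by omega) A (L := 2 * D') (fun _ _ => le_of_eq (by
          show (0 : ℝ) + 2 * D' = 2 * D'
          ring))
      have h4 : ∀ η : Env, ob μ s N j (fun _ : Unit => j / σ * σ) (fun _ => (j / σ + 1) * σ) (hf μ s δ B b j θ f)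
          (fun _ => Ex.fn true) (nb (sg A j) y) (η, flp j A) =
          gm (lw μ s η N (Pn N (nb (sg A j) y))) (f (nb (sg A j) y) (η, A)) - 2 * θ * (nb (sg A j) y : ℕ) := fun η => by
        rw [ob_fn δ B b j _ _ θ f hnbN]
        have e6 : f (nb (sg A j) y) (η, flp j A) = f (nb (sg A j) y) (η, A) := funext fun S => hbl _ η A S
        rw [e6]
      have h5 : ∀ η : Env, obf μ s N δ B b0 j (fun _ : Unit => j / σ * σ) (fun _ => (j / σ + 1) * σ) (hf μ s δ B b j θ f)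
          (fun _ => Ex.fn true) y (η, A) =
          gm (wt μ s η N (Pn N y) δ B b0 j (sg A j) (-(sg A j : ℝ))) (f y (η, A)) - 2 * θ * y := fun η =>
        obf_fn δ B b0 b j _ _ θ f hyy (η, A)
      simp only [h4, h5] at h0
      rw [integral_sub (i2 y A) (integrable_const _), integral_sub (i1 _ A) (integrable_const _), integral_const, integral_const,
        probReal_univ, one_smul, one_smul] at h0
      have h1 := (hE j hj).clip A y hy'
      have h2 := (hE j hj).nok A y hy'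
      have h3 : 2 * D' * (∫ η, clip μ s N δ B b0 j (sg A j) y η ∂(law μ) +
          2 * ∫ η, nok μ s N (j - b0) (j + b0 - (j - b0)) (-sg A j) (nb (sg A j) y) η ∂(law μ)) ≤ 2 * D' * (3 * ε) :=
        mul_le_mul_of_nonneg_left (by linarith) hL0
      have hnbR : ((nb (sg A j) y : ℕ) : ℝ) = y + sg A j := by exact_mod_cast hnb
      refine le_trans (le_of_eq ?_) (h0.trans h3)
      congr 1
      show (∫ η, gm (wt μ s η N (Pn N y) δ B b0 j (sg A j) (-(sg A j : ℝ))) (f y (η, A)) ∂(law μ)) -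
        ((∫ η, gm (lw μ s η N (Pn N (nb (sg A j) y))) (f (nb (sg A j) y) (η, A)) ∂(law μ)) - sr A j * (2 * θ)) = _
      rw [hnbR]
      unfold sr
      ring

/-- The window of a row of the block `[c, d)`. -/
theorem win_blk {b0 b σ : ℕ} (hσ : 0 < σ) (d1 : b0 ≤ b) {c d j : ℕ} {R : Finset ℕ}
    (hdeep : ∀ i ∈ R, i / σ * σ + b ≤ i ∧ i + b ≤ (i / σ + 1) * σ) (hd : σ ∣ d) (hj : j ∈ Rw R c d) : j + b0 ≤ d := by
  unfold Rw at hj
  rw [mem_inter, mem_Ico] at hj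
  obtain ⟨hjR, -, hjd⟩ := hj
  refine ((Nat.add_le_add_left d1 j).trans (hdeep j hjR).2).trans ?_
  obtain ⟨d', rfl⟩ := hd
  rw [mul_comm σ d'] at hjd ⊢
  exact Nat.mul_le_mul_right σ ((Nat.div_lt_iff_lt_mul hσ).2 hjd)

/-- **FL59 for the block functionals to the right**, `θ = 0`. -/
theorem fl59_fR {b0 b σ : ℕ} (hb0 : 0 < b0) (hσ : 0 < σ) (d1 : b0 ≤ b) {R R' : Finset ℕ}
    (hdeep : ∀ i ∈ R, i / σ * σ + b ≤ i ∧ i + b ≤ (i / σ + 1) * σ)
    (hdeep' : ∀ i ∈ R', i / σ * σ + b ≤ i ∧ i + b ≤ (i / σ + 1) * σ) {c d : ℕ} (hd : σ ∣ d) (hdN : d ≤ N)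
    {δ B : ℝ} (hB : 0 ≤ B) {e : ℕ → ℕ} (he : Monotone e) (hσe : ∀ i, σ ∣ e i) {i M : ℕ} (hM : e M ≤ N)
    (hde : d ≤ e i) (hf59 : Cls59 N c d (bR B σ R' e i M) (fun y ω => fR μ s N (Pn N y) δ B b σ R' e i M ω))
    {y₀ m : ℕ} (hy : 1 ≤ y₀) (hm : 1 ≤ m) (hyN : y₀ + m ≤ N) {ε : ℝ} (hE : ∀ j ∈ Rw R c d, FErr μ s N δ B b0 j y₀ m ε)
    {E : ℝ} (E1 : (B / 2 + (B / 2) ^ 2) * bR B σ R' e i M / m + 36 * (B + 3 * B ^ 2) * bR B σ R' e i M * ε ≤ E)
    (E2 : bR B σ R' e i M / m + 3 * bR B σ R' e i M * ε ≤ E) :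
    FL59 μ s N (Ico y₀ (y₀ + m)) δ B b0 b σ R c d 0 E (fun y ω => fR μ s N (Pn N y) δ B b σ R' e i M ω) := by
  have hbR : 0 ≤ bR B σ R' e i M := by
    unfold bR
    positivity
  refine fl59 hb0 hσ d1 hdeep hd hdN hB hbR hf59 (fun j hj => ?_) hy hm hyN hE E1 E2
  have h1 := cov_fR (μ := μ) (s := s) (j := j) (N := N) hb0 hσ hdeep' he hσe (i := i) (M := M) hM
    (Or.inr ((win_blk hσ d1 hdeep hd hj).trans hde)) δ hB
  have h2 : (fun (y : ℕ) (ω : Env × Finset ℕ) (S : Px (Pn N y)) => fR μ s N (Pn N y) δ B b σ R' e i M ω S - 2 * 0 * (y : ℝ)) =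
      fun y ω => fR μ s N (Pn N y) δ B b σ R' e i M ω := by
    funext y ω S
    ring
  rw [h2]
  exact h1

/-- **FL59 for the position** at a row `t` behind the block, `θ = 1 / 2`. -/
theorem fl59_Sn {b0 b σ : ℕ} (hb0 : 0 < b0) (hσ : 0 < σ) (d1 : b0 ≤ b) {R : Finset ℕ}
    (hdeep : ∀ i ∈ R, i / σ * σ + b ≤ i ∧ i + b ≤ (i / σ + 1) * σ) {c d : ℕ} (hd : σ ∣ d) (hdN : d ≤ N)
    {δ B : ℝ} (hB : 0 ≤ B) {t : ℕ} (hdt : d ≤ t) (htN : t ≤ N)
    {D : ℝ} (hf59 : Cls59 N c d D (fun _ _ S => (ps S t : ℝ)))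
    {y₀ m : ℕ} (hy : 1 ≤ y₀) (hm : 1 ≤ m) (hyN : y₀ + m ≤ N) {ε : ℝ} (hE : ∀ j ∈ Rw R c d, FErr μ s N δ B b0 j y₀ m ε)
    {E : ℝ} (E1 : (B / 2 + (B / 2) ^ 2) * t / m + 36 * (B + 3 * B ^ 2) * N * ε ≤ E) (E2 : (t : ℝ) / m + 3 * N * ε ≤ E) :
    FL59 μ s N (Ico y₀ (y₀ + m)) δ B b0 b σ R c d (1 / 2) E (fun _ _ S => (ps S t : ℝ)) := by
  have hf' : Cls59 N c d (t : ℝ) (fun _ _ S => (ps S t : ℝ)) := ⟨hf59.meas, fun y ω S => by
    have h1 := ps_nonneg S t
    have h2 := ps_le S t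
    have h3 : (0 : ℝ) ≤ ps S t := by exact_mod_cast h1
    have h4 : (ps S t : ℝ) ≤ t := by exact_mod_cast h2
    rw [abs_of_nonneg h3]
    exact h4, hf59.side, hf59.env, hf59.sgn⟩
  refine fl59 hb0 hσ d1 hdeep hd hdN hB (by positivity) hf' (fun j hj => ?_) hy hm hyN hE E1 E2
  have h1 := cov_ps (N := N) (b := b0) (j := j) (t := t) ((win_blk hσ d1 hdeep hd hj).trans hdt) htN
  have h2 : (fun (y : ℕ) (_ : Env × Finset ℕ) (S : Px (Pn N y)) => (ps S t : ℝ) - 2 * (1 / 2) * (y : ℝ)) =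
      fun (y : ℕ) (_ : Env × Finset ℕ) (S : Px (Pn N y)) => (ps S t : ℝ) - (y : ℝ) := by
    funext y ω S
    ring
  rw [h2]
  exact h1

end

end Pool.Agent.W_7d29a1_C0.Flip61
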