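import Pool.Agent.W_7d29a1_C0.Cr59

/-!
MP_7d29a1_pr, [CURV0] (helper59): THE NUMERATOR. The spectator `Sn` = the position at a row `n`; the covariance of the functional of the
root block `[0, n)` with it is at least `|R| / 2` up to the errors of the contracts `CR59`, `FL59`; the Cauchy-Schwarz inequality gives
`top59 : |R| / 2 ≤ (√x + κ) √(avy Var) + errors`. `card_Kr`: most rows are kicked.
-/

set_option autoImplicit false

namespace Pool.Agent.W_7d29a1_C0.Mod92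

open Finset MeasureTheory Pool.Agent.W_7d29a1_F Pool.Agent.W_7d29a1_X Pool.Agent.W_7d29a1_H
open Pool.W7d29a1.C0 (gz gm lse gz_pos gz_ne Ac Dc)
open Pool.W7d29a1.C0.VT31

noncomputable section

/-- The position at the row `n`. -/
def Sn (N n : ℕ) : Fam N := fun _ _ S => (ps S n : ℝ)

/-- The position at the row `n` is a spectator of every block `[c, d)`, `d ≤ n`, bounded by `n`. -/
theorem cls_Sn {N n c d : ℕ} (hdn : d ≤ n) : Cls59 N c d n (Sn N n) where
  meas := fun y S => measurable_const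
  bdd := fun y ω S => by
    have h1 : 0 ≤ ps S n := ps_nonneg S n
    have h2 : ps S n ≤ n := ps_le S n
    show |((ps S n : ℤ) : ℝ)| ≤ n
    rw [abs_of_nonneg (by exact_mod_cast h1)]
    exact_mod_cast h2
  side := fun y ω S S' e => by
    have key : ∀ T : Px (Pn N y), ps T n = (y : ℤ) - ((T.1 \ range d) \ range n).card := by
      intro T
      have h1 : T.1 ⊆ range N ∧ T.1.card = y := mem_powersetCard.1 T.2
      have h2 : (T.1 \ range d) \ range n = T.1 \ range n := by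
        ext i
        simp only [mem_sdiff, mem_range]
        constructor
        · rintro ⟨⟨h3, _⟩, h4⟩
          exact ⟨h3, h4⟩
        · rintro ⟨h3, h4⟩
          exact ⟨⟨h3, by omega⟩, h4⟩
      have h3 := card_inter_add_card_sdiff T.1 (range n)
      rw [h2]
      show ((T.1 ∩ range n).card : ℤ) = _
      omega
    show ((ps S n : ℤ) : ℝ) = ((ps S' n : ℤ) : ℝ)
    rw [key S, key S', e]
  env := fun y η A S t x u _ _ => rfl
  sgn := fun y η A A' S _ => rfl

variable {μ : Measure ℝ} {s : ℝ} {N : ℕ}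

theorem int_varF [IsProbabilityMeasure μ] {c d : ℕ} {D : ℝ} {f : Fam N} (hf : Cls59 N c d D f) (y : ℕ) [Nonempty (Px (Pn N y))] :
    Integrable (fun ω => gv (wm μ s N (Pn N y) ω) (f y ω)) (Pm μ N) :=
  int_bdd (meas_gv meas_wm fun S => hf.meas y S) fun ω => abs_gv_le _ (hf.bdd y ω)

/-- The Cauchy-Schwarz inequality for the average over the ends. -/
theorem avy_cs {ys : Finset ℕ} {a u v : ℕ → ℝ} (hu : ∀ y ∈ ys, 0 ≤ u y) (hv : ∀ y ∈ ys, 0 ≤ v y)
    (h : ∀ y ∈ ys, a y ≤ Real.sqrt (u y) * Real.sqrt (v y)) :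
    avy ys a ≤ Real.sqrt (avy ys u) * Real.sqrt (avy ys v) := by
  have h1 : avy ys a ≤ avy ys fun y => Real.sqrt (u y) * Real.sqrt (v y) := avy_mono h
  refine h1.trans ?_
  have h2 : ∑ y ∈ ys, Real.sqrt (u y) * Real.sqrt (v y) ≤ Real.sqrt (∑ y ∈ ys, u y) * Real.sqrt (∑ y ∈ ys, v y) := by
    have h3 := Finset.sum_mul_sq_le_sq_mul_sq ys (fun y => Real.sqrt (u y)) fun y => Real.sqrt (v y)
    rw [sum_congr rfl fun y hy => Real.sq_sqrt (hu y hy), sum_congr rfl fun y hy => Real.sq_sqrt (hv y hy)] at h3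
    rw [← Real.sqrt_mul (sum_nonneg hu)]
    exact Real.le_sqrt_of_sq_le h3
  unfold avy
  have hc : (0 : ℝ) ≤ (ys.card : ℝ)⁻¹ := by positivity
  rw [Real.sqrt_mul hc, Real.sqrt_mul hc]
  calc (ys.card : ℝ)⁻¹ * ∑ y ∈ ys, Real.sqrt (u y) * Real.sqrt (v y)
      ≤ (ys.card : ℝ)⁻¹ * (Real.sqrt (∑ y ∈ ys, u y) * Real.sqrt (∑ y ∈ ys, v y)) := mul_le_mul_of_nonneg_left h2 hc
    _ = (Real.sqrt (ys.card : ℝ)⁻¹ * Real.sqrt (ys.card : ℝ)⁻¹) *
        (Real.sqrt (∑ y ∈ ys, u y) * Real.sqrt (∑ y ∈ ys, v y)) := by rw [Real.mul_self_sqrt hc]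
    _ = _ := by ring

/-- The covariance of the functional of a block with a spectator is at most the product of the deviations. -/
theorem cov_le [IsProbabilityMeasure μ] {ys : Finset ℕ} (hys : ∀ y ∈ ys, y ≤ N) {δ B : ℝ} (hB : 0 ≤ B) (b σ : ℕ) (R : Finset ℕ)
    {c d : ℕ} {D : ℝ} {f : Fam N} (hf : Cls59 N c d D f) :
    avy ys (fun y => ∫ ω, gc (wm μ s N (Pn N y) ω) (Zs μ s N (Pn N y) δ B b σ R c d ω) (f y ω) ∂(Pm μ N)) ≤
      Real.sqrt (xsa μ s N ys δ B b σ R c d) * Real.sqrt (avy ys (varF μ s N f)) := by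
  refine avy_cs (fun y hy => ?_) (fun y hy => ?_) fun y hy => ?_
  · have := ne_Pn (hys y hy)
    exact integral_nonneg fun ω => gv_nonneg _ _
  · have := ne_Pn (hys y hy)
    exact integral_nonneg fun ω => gv_nonneg _ _
  · have := ne_Pn (hys y hy)
    have i1 := int_gvs (μ := μ) (s := s) (N := N) (Q := Pn N y) (δ := δ) hB b σ R c d
    have i2 := int_varF (μ := μ) (s := s) hf y
    refine le_trans ?_ (int_sqrt_mul_le i1 i2 (fun ω => gv_nonneg _ _) fun ω => gv_nonneg _ _)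
    refine integral_mono ?_ ?_ fun ω => ?_
    · exact int_bdd (meas_gc meas_wm (fun S => meas_Zs δ B b σ R c d S) fun S => hf.meas y S) fun ω =>
        abs_gc_le_mul _ (abs_Zs hB b σ R c d ω) (hf.bdd y ω)
    · refine int_bdd (M := ((d / σ - c / σ : ℕ) * (R.card * (B / 2 + (B / 2) ^ 2))) * |D|)
        ((meas_gv meas_wm fun S => meas_Zs δ B b σ R c d S).sqrt.mul (meas_gv meas_wm fun S => hf.meas y S).sqrt) fun ω => ?_
      rw [abs_of_nonneg (mul_nonneg (Real.sqrt_nonneg _) (Real.sqrt_nonneg _))]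
      have h0 : (0 : ℝ) ≤ ((d / σ - c / σ : ℕ) : ℝ) * (R.card * (B / 2 + (B / 2) ^ 2)) := by positivity
      refine mul_le_mul ?_ ?_ (Real.sqrt_nonneg _) h0
      · exact Real.sqrt_le_iff.2 ⟨h0, gv_le_sq _ (abs_Zs hB b σ R c d ω)⟩
      · refine Real.sqrt_le_iff.2 ⟨abs_nonneg D, gv_le_sq _ fun S => (hf.bdd y ω S).trans (le_abs_self D)⟩
    · exact (le_abs_self _).trans (abs_gc_le _ _ _)

/-- **THE NUMERATOR** from the contracts. -/
theorem top59 [IsProbabilityMeasure μ] {ys : Finset ℕ} (hys : ∀ y ∈ ys, y ≤ N) {δ B : ℝ} (hB : 0 ≤ B) {b0 b : ℕ} {σ : ℕ}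
    (hσ : 0 < σ) (R : Finset ℕ) {n : ℕ} (hd : σ ∣ n) {κ e e' θ : ℝ}
    (h1 : CR59 μ s N ys δ B b0 b σ R 0 n κ e (Sn N n)) (h2 : FL59 μ s N ys δ B b0 b σ R 0 n θ e' (Sn N n)) :
    θ * (Rw R 0 n).card ≤ (Real.sqrt (xsa μ s N ys δ B b σ R 0 n) + κ) * Real.sqrt (avy ys (varF μ s N (Sn N n))) + e +
      2 * e' * (Rw R 0 n).card := by
  have hf : Cls59 N 0 n n (Sn N n) := cls_Sn le_rfl
  have h3 := cross59 hys hB hσ R (dvd_zero σ) hd hf h1 h2
  have h4 := cov_le (μ := μ) (s := s) hys (δ := δ) hB b σ R hf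
  have h5 := neg_abs_le (avy ys (fun y => ∫ ω, gc (wm μ s N (Pn N y) ω) (Zs μ s N (Pn N y) δ B b σ R 0 n ω)
    (Sn N n y ω) ∂(Pm μ N)) - θ * (Rw R 0 n).card)
  rw [add_mul]
  linarith

/-! ### Most rows are kicked -/

/-- The rows of `[0, 2 ^ m)` whose remainder modulo `2 ^ i` is one of `A`. -/
theorem card_mod {m i : ℕ} (hi : i ≤ m) (A : Finset ℕ) (hA : A ⊆ range (2 ^ i)) :
    ((range (2 ^ m)).filter fun j => j % 2 ^ i ∈ A).card = 2 ^ (m - i) * A.card := by
  have hp : 0 < 2 ^ i := by positivity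
  have hm : 2 ^ m = 2 ^ i * 2 ^ (m - i) := by rw [← pow_add]; congr 1; omega
  have h : ((range (2 ^ m)).filter fun j => j % 2 ^ i ∈ A).card = ((range (2 ^ (m - i))) ×ˢ A).card := by
    refine card_bij' (fun j _ => (j / 2 ^ i, j % 2 ^ i)) (fun q _ => q.1 * 2 ^ i + q.2) ?_ ?_ ?_ ?_
    · intro j hj
      rw [mem_filter, mem_range] at hj
      rw [mem_product, mem_range]
      refine ⟨?_, hj.2⟩
      rw [Nat.div_lt_iff_lt_mul hp, mul_comm, ← hm]
      exact hj.1
    · rintro ⟨k, r⟩ hq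
      rw [mem_product, mem_range] at hq
      have hr : r < 2 ^ i := mem_range.1 (hA hq.2)
      have e1 : (k * 2 ^ i + r) % 2 ^ i = r := by
        rw [Nat.mul_add_mod_of_lt hr]
      rw [mem_filter, mem_range]
      refine ⟨?_, ?_⟩
      · calc k * 2 ^ i + r < k * 2 ^ i + 2 ^ i := by omega
          _ = (k + 1) * 2 ^ i := by ring
          _ ≤ 2 ^ (m - i) * 2 ^ i := Nat.mul_le_mul_right _ hq.1
          _ = 2 ^ m := by rw [hm, mul_comm]
      · show (k * 2 ^ i + r) % 2 ^ i ∈ A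
        rw [e1]
        exact hq.2
    · intro j _
      exact Nat.div_add_mod' j (2 ^ i)
    · rintro ⟨k, r⟩ hq
      rw [mem_product, mem_range] at hq
      have hr : r < 2 ^ i := mem_range.1 (hA hq.2)
      have e1 : (k * 2 ^ i + r) % 2 ^ i = r := by
        rw [Nat.mul_add_mod_of_lt hr]
      have e2 : (k * 2 ^ i + r) / 2 ^ i = k := by
        rw [Nat.div_eq_iff hp]
        constructor
        · omega
        · have : (k + 1) * 2 ^ i = k * 2 ^ i + 2 ^ i := by ring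
          omega
      show ((k * 2 ^ i + r) / 2 ^ i, (k * 2 ^ i + r) % 2 ^ i) = (k, r)
      rw [e1, e2]
  rw [h, card_product, card_range]

/-- **Most rows are kicked.** -/
theorem card_Kr {m : ℕ} {ρ : ℝ} (hρ : 0 ≤ ρ) :
    (2 ^ m : ℝ) - 2 * (m + 1) * ρ * 2 ^ m ≤ (Rw (Kr (2 ^ m) m ρ) 0 (2 ^ m)).card := by
  classical
  have hsub : Kr (2 ^ m) m ρ ⊆ range (2 ^ m) := by
    unfold Kr
    exact filter_subset _ _
  have e0 : Rw (Kr (2 ^ m) m ρ) 0 (2 ^ m) = Kr (2 ^ m) m ρ := by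
    unfold Rw
    refine inter_eq_left.2 (hsub.trans ?_)
    rw [range_eq_Ico]
  rw [e0]
  obtain ⟨A, hA⟩ : ∃ A : ℕ → Finset ℕ, A = fun i => (range (2 ^ i)).filter fun r : ℕ => ((r : ℝ) + 1 < ρ * 2 ^ i) ∨
    (((2 ^ i - r : ℕ) : ℝ) < ρ * 2 ^ i) := ⟨_, rfl⟩
  have hAc : ∀ i, ((A i).card : ℝ) ≤ 2 * (ρ * 2 ^ i) := by
    intro i
    have h1 : A i ⊆ ((range (2 ^ i)).filter fun r : ℕ => (r : ℝ) + 1 < ρ * 2 ^ i) ∪
        ((range (2 ^ i)).filter fun r => ((2 ^ i - r : ℕ) : ℝ) < ρ * 2 ^ i) := by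
      rw [hA]
      intro r hr
      simp only [mem_filter, mem_union] at hr ⊢
      rcases hr.2 with h | h
      · exact Or.inl ⟨hr.1, h⟩
      · exact Or.inr ⟨hr.1, h⟩
    have hx0 : 0 ≤ ρ * 2 ^ i := by positivity
    have hk : ∀ (T : Finset ℕ), (∀ r ∈ T, (r : ℝ) + 1 < ρ * 2 ^ i) → (T.card : ℝ) ≤ ρ * 2 ^ i := by
      intro T hT
      rcases T.eq_empty_or_nonempty with h | h
      · rw [h, card_empty]
        simpa using hx0
      · have h2 : T ⊆ range (T.max' h + 1) := fun r hr => by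
          rw [mem_range]
          have := T.le_max' r hr
          omega
        have h3 := card_le_card h2
        rw [card_range] at h3
        have h4 := hT _ (T.max'_mem h)
        have h5 : (T.card : ℝ) ≤ (T.max' h : ℝ) + 1 := by exact_mod_cast h3
        linarith
    have c1 : (((range (2 ^ i)).filter fun r : ℕ => (r : ℝ) + 1 < ρ * 2 ^ i).card : ℝ) ≤ ρ * 2 ^ i :=
      hk _ fun r hr => (mem_filter.1 hr).2
    have c2 : (((range (2 ^ i)).filter fun r => ((2 ^ i - r : ℕ) : ℝ) < ρ * 2 ^ i).card : ℝ) ≤ ρ * 2 ^ i := by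
      have h6 : ((range (2 ^ i)).filter fun r => ((2 ^ i - r : ℕ) : ℝ) < ρ * 2 ^ i).card =
          (((range (2 ^ i)).filter fun r => ((2 ^ i - r : ℕ) : ℝ) < ρ * 2 ^ i).image fun r => 2 ^ i - 1 - r).card := by
        refine (card_image_of_injOn fun r hr r' hr' h => ?_).symm
        have a1 := mem_range.1 (mem_filter.1 hr).1
        have a2 := mem_range.1 (mem_filter.1 hr').1
        have h' : 2 ^ i - 1 - r = 2 ^ i - 1 - r' := h
        omega
      rw [h6]
      refine hk _ fun r hr => ?_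
      obtain ⟨r', hr', rfl⟩ := mem_image.1 hr
      have a1 := mem_range.1 (mem_filter.1 hr').1
      have a2 := (mem_filter.1 hr').2
      have a3 : ((2 ^ i - 1 - r' : ℕ) : ℝ) + 1 = ((2 ^ i - r' : ℕ) : ℝ) := by
        have : 2 ^ i - 1 - r' + 1 = 2 ^ i - r' := by omega
        exact_mod_cast this
      rw [a3]
      exact a2
    have h7 := card_le_card h1
    have h8 : ((A i).card : ℝ) ≤ (((range (2 ^ i)).filter fun r : ℕ => (r : ℝ) + 1 < ρ * 2 ^ i).card : ℝ) +
        (((range (2 ^ i)).filter fun r => ((2 ^ i - r : ℕ) : ℝ) < ρ * 2 ^ i).card : ℝ) := by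
      exact_mod_cast h7.trans (card_union_le _ _)
    linarith
  have hcov : range (2 ^ m) ⊆ Kr (2 ^ m) m ρ ∪ (range (m + 1)).biUnion fun i => (range (2 ^ m)).filter fun j => j % 2 ^ i ∈ A i := by
    intro j hj
    by_cases h : j ∈ Kr (2 ^ m) m ρ
    · exact mem_union_left _ h
    · refine mem_union_right _ ?_
      unfold Kr at h
      simp only [mem_filter, not_and, not_forall] at h
      obtain ⟨i, hi, h2⟩ := h hj
      rw [mem_biUnion]
      refine ⟨i, by rw [mem_range]; omega, ?_⟩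
      rw [mem_filter, hA]
      refine ⟨hj, ?_⟩
      simp only [mem_filter, mem_range]
      refine ⟨Nat.mod_lt _ (by positivity), ?_⟩
      by_cases h3 : ρ * 2 ^ i ≤ ((j % 2 ^ i : ℕ) : ℝ) + 1
      · exact Or.inr (not_le.1 (h2 h3))
      · exact Or.inl (not_le.1 h3)
  have h9 := card_le_card hcov
  rw [card_range] at h9
  have h10 : ((2 ^ m : ℕ) : ℝ) ≤ ((Kr (2 ^ m) m ρ).card : ℝ) +
      ∑ i ∈ range (m + 1), (((range (2 ^ m)).filter fun j => j % 2 ^ i ∈ A i).card : ℝ) := by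
    have := h9.trans ((card_union_le _ _).trans (Nat.add_le_add_left card_biUnion_le _))
    exact_mod_cast this
  have h11 : ∑ i ∈ range (m + 1), (((range (2 ^ m)).filter fun j => j % 2 ^ i ∈ A i).card : ℝ) ≤
      ∑ _i ∈ range (m + 1), 2 * ρ * 2 ^ m := by
    refine sum_le_sum fun i hi => ?_
    rw [mem_range] at hi
    have him : i ≤ m := by omega
    have e1 := card_mod him (A i) (by rw [hA]; exact filter_subset _ _)
    rw [e1]
    push_cast
    have e2 : (2 : ℝ) ^ (m - i) * 2 ^ i = 2 ^ m := by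
      rw [← pow_add]
      congr 1
      omega
    calc (2 : ℝ) ^ (m - i) * ((A i).card : ℝ) ≤ 2 ^ (m - i) * (2 * (ρ * 2 ^ i)) :=
          mul_le_mul_of_nonneg_left (hAc i) (by positivity)
      _ = 2 * ρ * (2 ^ (m - i) * 2 ^ i) := by ring
      _ = 2 * ρ * 2 ^ m := by rw [e2]
  rw [sum_const, card_range, nsmul_eq_mul] at h11
  push_cast at h10 h11
  linarith

end

end Pool.Agent.W_7d29a1_C0.Mod92
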