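import Pool.Agent.W_7d29a1_C0.FlipB61
import Pool.Agent.W_7d29a1_C0.ClsR92
import Pool.Agent.W_7d29a1_C0.FlipD61
import Pool.Agent.W_7d29a1_C0.N59

/-!
MP_7d29a1_pr, [CURV0] (helper33, after helper44): THE SPECTATORS ARE COVARIANT with the flips of the kicked rows of the block (`CvF`): the
functionals to the right of the block (`cvf_fF`, centre `θ = 0`) and the position at a row behind it (`cvf_Sn`, centre `θ = 1 / 2`).
-/

set_option autoImplicit false

namespace Pool.Agent.W_7d29a1_C0.Asm96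

open Finset MeasureTheory
open Pool.Agent.W_7d29a1_F Pool.Agent.W_7d29a1_X
open Pool.Agent.W_7d29a1_C0.Mod92 Pool.Agent.W_7d29a1_C0 Pool.Agent.W_7d29a1_C0.Flip61

noncomputable section

/-- **The spectator is covariant**: seen from `2 θ y`, with the flip of each kicked row of the block `[c, d)` (window at the base `b0`). The
bound `D'` is the one of the centred function. -/
def CvF (N b0 : ℕ) (R : Finset ℕ) (c d : ℕ) (D' : ℝ) (f : Fam N) : Prop :=
  ∃ θ : ℝ, |θ| ≤ 1 ∧ ∀ j ∈ Rw R c d, Cov1 N b0 j (fun y ω S => f y ω S - 2 * θ * y) D'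

theorem CvF.mono {N b0 : ℕ} {R : Finset ℕ} {c d : ℕ} {D D' : ℝ} {f : Fam N} (h : CvF N b0 R c d D f) (hD : D ≤ D') :
    CvF N b0 R c d D' f := by
  obtain ⟨θ, h1, h2⟩ := h
  exact ⟨θ, h1, fun j hj => (h2 j hj).mono hD⟩

/-- **The functionals to the right.** -/
theorem cvf_fF {μ : Measure ℝ} {s : ℝ} {N b0 b σ : ℕ} (hb0 : 0 < b0) (hσ : 0 < σ) (d1 : b0 ≤ b) {R : Finset ℕ} (hdeep : Deep R b σ)
    {c d : ℕ} (hd : σ ∣ d) {δ B : ℝ} (hB : 0 ≤ B) {e : ℕ → ℕ} (he : Monotone e) (hσe : ∀ i, σ ∣ e i) {i M : ℕ} (hM : e M ≤ N)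
    (hde : d ≤ e i) : CvF N b0 R c d (bR B σ R e i M) (fF μ s N δ B b σ R e i M) := by
  refine ⟨0, by norm_num, fun j hj => ?_⟩
  have h1 := cov_fR (μ := μ) (s := s) (j := j) (N := N) hb0 hσ hdeep he hσe (i := i) (M := M) hM
    (Or.inr ((win_blk hσ d1 hdeep hd hj).trans hde)) δ hB
  have h2 : (fun (y : ℕ) (ω : Env × Finset ℕ) (S : Px (Pn N y)) => fF μ s N δ B b σ R e i M y ω S - 2 * 0 * (y : ℝ)) =
      fun y ω => fR μ s N (Pn N y) δ B b σ R e i M ω := by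
    funext y ω S
    unfold fF
    ring
  rw [h2]
  exact h1

/-- **The position** at a row behind the block. -/
theorem cvf_Sn {N b0 b σ : ℕ} (hσ : 0 < σ) (d1 : b0 ≤ b) {R : Finset ℕ} (hdeep : Deep R b σ) {c d t : ℕ} (hd : σ ∣ d) (hdt : d ≤ t)
    (htN : t ≤ N) : CvF N b0 R c d N (Sn N t) := by
  refine ⟨1 / 2, by rw [abs_of_nonneg (by norm_num)]; norm_num, fun j hj => ?_⟩
  have h1 := cov_ps (N := N) (b := b0) (j := j) (t := t) ((win_blk hσ d1 hdeep hd hj).trans hdt) htN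
  have h2 : (fun (y : ℕ) (ω : Env × Finset ℕ) (S : Px (Pn N y)) => Sn N t y ω S - 2 * (1 / 2) * (y : ℝ)) =
      fun (y : ℕ) (_ : Env × Finset ℕ) (S : Px (Pn N y)) => (ps S t : ℝ) - (y : ℝ) := by
    funext y ω S
    unfold Sn
    ring
  rw [h2]
  exact h1

end

end Pool.Agent.W_7d29a1_C0.Asm96
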