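import Pool.Agent.W_7d29a1_C0.N59B
import Pool.Agent.W_7d29a1_C0.AsmC96

/-!
MP_7d29a1_pr, [CURV0] (helper59): THE TOP CLAUSE in the frame of `AsmC96`, in the order of the exponents of `Par92`: `topN_est59`: the cross
terms `CrN` (at `q = m`, `i = 0`, spectator = the position at the row `2 ^ m`), the law invariance `FlS59` of this spectator, its
variance `DenS59` and the number of the kicked rows `RowS59` give `TopN`.
-/

set_option autoImplicit false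

namespace Pool.Agent.W_7d29a1_C0.Asm96

open Finset MeasureTheory Filter Topology Pool.Agent.W_7d29a1_F Pool.Agent.W_7d29a1_X Pool.Agent.W_7d29a1_H
open Pool.Agent.W_7d29a1_C0.Mod92 Pool.Agent.W_7d29a1_C0
open Pool.Agent.W_7d29a1_C0.Par92 (Est Sml)

noncomputable section

variable (μ : Measure ℝ) (s : ℝ) (F : Frm96) (E : ℕ → ℝ) (Θ δ c c₁ a ε : ℝ)

/-- **The law invariance for the position** at the end of the root block. -/
def FlS59 (m : ℕ) : Prop := ∀ p : ℕ, St96 E δ c m p m →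
  FL59 μ s (F.L m) (F.ys m) F.dl (F.B m) (F.b0 m p) (2 ^ p) (2 ^ sg96 E c m p) (F.R m) 0 (2 ^ m) (1 / 2)
    (((2 ^ m : ℕ) : ℝ) ^ (-1 : ℝ)) (Sn (F.L m) (2 ^ m))

/-- **The denominator**: the variance of the position at the end of the root block. -/
def DenS59 (m : ℕ) : Prop :=
  avy (F.ys m) (varF μ s (F.L m) (Sn (F.L m) (2 ^ m))) ≤ ((2 ^ m : ℕ) : ℝ) ^ a * E (2 ^ m) ^ 3

/-- Half of the rows of the root block are kicked. -/
def RowS59 (m : ℕ) : Prop := ((2 ^ m : ℕ) : ℝ) / 2 ≤ ((Rw (F.R m) 0 (2 ^ m)).card : ℝ)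

variable {μ s F E Θ δ c c₁ a ε}

/-- **THE TOP CLAUSE** at one `m`. -/
theorem topN_pt59 [IsProbabilityMeasure μ] {m : ℕ} (hE : 0 < E (2 ^ m)) (hF : F.Ok Θ m) (ha1 : a ≤ ε / 2) (ha2 : a ≤ c₁ / 2)
    (h1 : 32 ≤ ((2 ^ m : ℕ) : ℝ) ^ (c₁ / 4)) (h2 : 64 ≤ ((2 ^ m : ℕ) : ℝ) ^ (ε / 2)) (h3 : 64 ≤ ((2 ^ m : ℕ) : ℝ))
    (hR : RowS59 F m) (hCr : CrN μ s F E Θ δ c c₁ m) (hFl : FlS59 μ s F E δ c m) (hDen : DenS59 μ s F E a m) :
    TopN μ s F E Θ δ c c₁ ε m := by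
  intro hrec p hp _
  have hN1 : (1 : ℝ) ≤ ((2 ^ m : ℕ) : ℝ) := by exact_mod_cast Nat.one_le_two_pow
  have hc := hCr p m 0 hp (by simp) ((2 ^ m : ℕ) : ℝ) (Sn (F.L m) (2 ^ m)) (le_self_pow₀ hN1 (by norm_num)) (cls_Sn (by simp))
  rw [zero_mul, zero_add, one_mul] at hc
  refine top_pt59 hE ha1 ha2 hF.hy (zero_le_one.trans hF.hB) (Nat.two_pow_pos _) (pow_dvd_pow 2 hp.hsq) h1 h2 hrec hR (by linarith)
    ?_ hc (hFl p hp) hDen
  rw [Real.rpow_neg_one, one_div]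
  exact inv_anti₀ (by norm_num) h3

/-- **THE TOP CLAUSE**, in the order of the small exponents. -/
theorem topN_est59 [IsProbabilityMeasure μ] (hE : ∀ n, 0 < E n) (hc₁ : 0 < c₁) {F : ℝ → ℝ → ℝ → Frm96}
    (hok : Est fun ι β γ m => (F ι β γ).Ok Θ m) (hcr : Est fun ι β γ m => CrN μ s (F ι β γ) E Θ δ c c₁ m)
    (hR : Est fun ι β γ m => RowS59 (F ι β γ) m) (hFl : Est fun ι β γ m => FlS59 μ s (F ι β γ) E δ c m)
    (hDen : ∀ a : ℝ, 0 < a → Est fun ι β γ m => DenS59 μ s (F ι β γ) E a m) :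
    ∀ ε : ℝ, 0 < ε → Est fun ι β γ m => TopN μ s (F ι β γ) E Θ δ c c₁ ε m := by
  intro ε hε
  have ha : 0 < min (ε / 2) (c₁ / 2) := lt_min (by linarith) (by linarith)
  have h := ((hok.and hcr).and (hR.and hFl)).and (hDen _ ha)
  refine h.mono fun ι β γ _ _ _ => ?_
  filter_upwards [pow_ev59 (show 0 < c₁ / 4 by linarith) 32, pow_ev59 (show 0 < ε / 2 by linarith) 64,
    pow_ev59 (show (0 : ℝ) < 1 by norm_num) 64] with m h1 h2 h3 h4
  rw [Real.rpow_one] at h3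
  exact topN_pt59 (hE _) h4.1.1.1 (min_le_left _ _) (min_le_right _ _) h1 h2 h3 h4.1.2.1 h4.1.1.2 h4.1.2.2 h4.2

end

end Pool.Agent.W_7d29a1_C0.Asm96
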