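import Pool.Agent.W_7d29a1_C0.AsmC96
import Pool.Agent.W_7d29a1_C0.N59C
import Pool.Agent.W_7d29a1_C0.CvF33

/-!
MP_7d29a1_pr, [CURV0] (helper33, after helper96): THE ASSEMBLY WITH COVARIANT SPECTATORS. `CrNv`: the contract `CrN` of `AsmC96` only for
spectators which are covariant with the flips of the kicked rows of the block (`CvF`); the record asks for two kinds of spectators only:
`CrFN` (block functionals to the right), `CrSN` (the position at the last row). `mod_ofV33` is `mod_of96` with them.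
-/

set_option autoImplicit false

namespace Pool.Agent.W_7d29a1_C0.Asm96

open Finset MeasureTheory Filter Topology Pool.Agent.W_7d29a1_F Pool.Agent.W_7d29a1_X Pool.Agent.W_7d29a1_H
open Pool.Agent.W_7d29a1_C0.Mod92 Pool.Agent.W_7d29a1_C0
open Pool.W7d29a1.C0.VT31
open Pool.Agent.W_7d29a1_C0.Par92 (Est)

noncomputable section

variable (μ : Measure ℝ) (s : ℝ) (F : Frm96) (E : ℕ → ℝ) (Θ δ c c₁ η c₂ ε : ℝ)

/-- **Cross terms**, covariant spectators. -/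
def CrNv (m : ℕ) : Prop := ∀ p q i : ℕ, St96 E δ c m p q → i < 2 ^ (m - q) → ∀ (D : ℝ) (f : Fam (F.L m)),
  D ≤ ((2 ^ m : ℕ) : ℝ) ^ 3 → Cls59 (F.L m) (i * 2 ^ q) ((i + 1) * 2 ^ q) D f →
    CvF (F.L m) (F.b0 m p) (F.R m) (i * 2 ^ q) ((i + 1) * 2 ^ q) (F.L m) f →
      CR59 μ s (F.L m) (F.ys m) F.dl (F.B m) (F.b0 m p) (2 ^ p) (2 ^ sg96 E c m p) (F.R m) (i * 2 ^ q) ((i + 1) * 2 ^ q)
        (((2 ^ m : ℕ) : ℝ) ^ (-c₁) * √(2 ^ q * ((2 ^ m : ℕ) : ℝ) ^ Θ)) 1 f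

/-- The cross terms with the block functionals to the right. -/
def CrFN (m : ℕ) : Prop := ∀ p q d i k : ℕ, St96 E δ c m p q → q + d ≤ m → i < 2 ^ (m - (q + d)) → k < 2 ^ d →
  CR59 μ s (F.L m) (F.ys m) F.dl (F.B m) (F.b0 m p) (2 ^ p) (2 ^ sg96 E c m p) (F.R m) (ct96 q d i k) (ct96 q d i (k + 1))
    (((2 ^ m : ℕ) : ℝ) ^ (-c₁) * √(2 ^ q * ((2 ^ m : ℕ) : ℝ) ^ Θ)) 1 (fN μ s F E c m p q d i k)

/-- The cross term with the position at the last row. -/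
def CrSN (m : ℕ) : Prop := ∀ p : ℕ, St96 E δ c m p m →
  CR59 μ s (F.L m) (F.ys m) F.dl (F.B m) (F.b0 m p) (2 ^ p) (2 ^ sg96 E c m p) (F.R m) 0 (2 ^ m)
    (((2 ^ m : ℕ) : ℝ) ^ (-c₁) * √(2 ^ m * ((2 ^ m : ℕ) : ℝ) ^ Θ)) 1 (Sn (F.L m) (2 ^ m))

variable {μ s F E Θ δ c c₁ η c₂ ε}

/-- **The spectators of the super levels.** -/
theorem crfn_of {m : ℕ} (hF : F.Ok Θ m) (hΘ : Θ ≤ 1) (hL3 : ((2 ^ m : ℕ) : ℝ) ^ 3 ≤ F.L m)
    (hb0 : ∀ p, 0 < F.b0 m p ∧ F.b0 m p ≤ 2 ^ p)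
    (hdp : ∀ p q : ℕ, St96 E δ c m p q → Deep (F.R m) (2 ^ p) (2 ^ sg96 E c m p)) (h : CrNv μ s F E Θ δ c c₁ m) :
    CrFN μ s F E Θ δ c c₁ m := by
  intro p q d i k hst hqd hi hk
  have htop : ct96 q d i (2 ^ d) ≤ 2 ^ m := by
    rw [ct96_top]
    calc (i + 1) * 2 ^ (q + d) ≤ 2 ^ (m - (q + d)) * 2 ^ (q + d) := Nat.mul_le_mul_right _ hi
      _ = 2 ^ m := by
          rw [← pow_add]
          congr 1
          omega
  have hik : i * 2 ^ d + k < 2 ^ (m - q) := by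
    have e1 : 2 ^ (m - q) = 2 ^ (m - (q + d)) * 2 ^ d := by
      rw [← pow_add]
      congr 1
      omega
    have e2 : (i + 1) * 2 ^ d ≤ 2 ^ (m - (q + d)) * 2 ^ d := Nat.mul_le_mul_right _ hi
    have e3 : (i + 1) * 2 ^ d = i * 2 ^ d + 2 ^ d := by ring
    omega
  obtain ⟨D, hD3, hD⟩ := cls96 (μ := μ) (s := s) hF hΘ (hdp p q hst) hst.hsq hqd hi k
  refine h p q (i * 2 ^ d + k) hst hik D _ hD3 hD ?_
  have h1 := cvf_fF (μ := μ) (s := s) (N := F.L m) (hb0 p).1 (σ := 2 ^ sg96 E c m p) (by positivity) (hb0 p).2 (hdp p q hst)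
    (c := ct96 q d i k) (d := ct96 q d i (k + 1)) (dvd96 hst.hsq _) (δ := F.dl) (zero_le_one.trans hF.hB) (ct96_mono q d i)
    (fun l => dvd96 hst.hsq _) (i := k + 1) (M := 2 ^ d) (htop.trans hF.hL) le_rfl
  refine h1.mono ?_
  have hN1 : (1 : ℝ) ≤ ((2 ^ m : ℕ) : ℝ) := by exact_mod_cast Nat.one_le_two_pow
  have hN0 : (0 : ℝ) < ((2 ^ m : ℕ) : ℝ) := by linarith
  have hcard : (F.R m).card ≤ 2 ^ m := by
    have := card_le_card hF.hR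
    rwa [card_range] at this
  refine (bR_le hF.hB _ (F.R m) (ct96_mono q d i) htop hcard).trans (le_trans ?_ hL3)
  have h2 : F.B m ^ 2 ≤ ((2 ^ m : ℕ) : ℝ) := by
    calc F.B m ^ 2 ≤ (((2 ^ m : ℕ) : ℝ) ^ (Θ / 16)) ^ 2 := pow_le_pow_left₀ (zero_le_one.trans hF.hB) hF.hB' 2
      _ = ((2 ^ m : ℕ) : ℝ) ^ (Θ / 8) := by
          rw [← Real.rpow_natCast, ← Real.rpow_mul hN0.le]
          congr 1
          push_cast
          ring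
      _ ≤ ((2 ^ m : ℕ) : ℝ) ^ (1 : ℝ) := Real.rpow_le_rpow_of_exponent_le hN1 (by linarith)
      _ = _ := Real.rpow_one _
  calc ((2 ^ m : ℕ) : ℝ) * (((2 ^ m : ℕ) : ℝ) * F.B m ^ 2) ≤ ((2 ^ m : ℕ) : ℝ) * (((2 ^ m : ℕ) : ℝ) * ((2 ^ m : ℕ) : ℝ)) :=
        mul_le_mul_of_nonneg_left (mul_le_mul_of_nonneg_left h2 hN0.le) hN0.le
    _ = _ := by ring

/-- **The position at the last row.** -/
theorem crsn_of {m : ℕ} (hF : F.Ok Θ m) (hb0 : ∀ p, F.b0 m p ≤ 2 ^ p)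
    (hdp : ∀ p q : ℕ, St96 E δ c m p q → Deep (F.R m) (2 ^ p) (2 ^ sg96 E c m p)) (h : CrNv μ s F E Θ δ c c₁ m) :
    CrSN μ s F E Θ δ c c₁ m := by
  intro p hst
  have hN1 : (1 : ℝ) ≤ ((2 ^ m : ℕ) : ℝ) := by exact_mod_cast Nat.one_le_two_pow
  have h1 := cvf_Sn (N := F.L m) (σ := 2 ^ sg96 E c m p) (by positivity) (hb0 p) (hdp p m hst) (c := 0) (d := 2 ^ m) (t := 2 ^ m)
    (pow_dvd_pow 2 hst.hsq) le_rfl hF.hL
  have h2 := h p m 0 hst (by simp) ((2 ^ m : ℕ) : ℝ) (Sn (F.L m) (2 ^ m)) (le_self_pow₀ hN1 (by norm_num)) (cls_Sn (by simp))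
    (by rw [zero_mul, zero_add, one_mul]; exact h1)
  rw [zero_mul, zero_add, one_mul] at h2
  exact h2

/-- **THE TOP CLAUSE** at one `m`. -/
theorem topN_ptV33 [IsProbabilityMeasure μ] {a : ℝ} {m : ℕ} (hE : 0 < E (2 ^ m)) (hF : F.Ok Θ m) (ha1 : a ≤ ε / 2) (ha2 : a ≤ c₁ / 2)
    (h1 : 32 ≤ ((2 ^ m : ℕ) : ℝ) ^ (c₁ / 4)) (h2 : 64 ≤ ((2 ^ m : ℕ) : ℝ) ^ (ε / 2)) (h3 : 64 ≤ ((2 ^ m : ℕ) : ℝ))
    (hR : RowS59 F m) (hCr : CrSN μ s F E Θ δ c c₁ m) (hFl : FlS59 μ s F E δ c m) (hDen : DenS59 μ s F E a m) :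
    TopN μ s F E Θ δ c c₁ ε m := by
  intro hrec p hp _
  refine top_pt59 hE ha1 ha2 hF.hy (zero_le_one.trans hF.hB) (Nat.two_pow_pos _) (pow_dvd_pow 2 hp.hsq) h1 h2 hrec hR (by linarith)
    ?_ (hCr p hp) (hFl p hp) hDen
  rw [Real.rpow_neg_one, one_div]
  exact inv_anti₀ (by norm_num) h3

/-- **THE TOP CLAUSE**, in the order of the small exponents. -/
theorem topN_estV33 [IsProbabilityMeasure μ] (hE : ∀ n, 0 < E n) (hc₁ : 0 < c₁) {F : ℝ → ℝ → ℝ → Frm96}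
    (hok : Est fun ι β γ m => (F ι β γ).Ok Θ m) (hcr : Est fun ι β γ m => CrSN μ s (F ι β γ) E Θ δ c c₁ m)
    (hR : Est fun ι β γ m => RowS59 (F ι β γ) m) (hFl : Est fun ι β γ m => FlS59 μ s (F ι β γ) E δ c m)
    (hDen : ∀ a : ℝ, 0 < a → Est fun ι β γ m => DenS59 μ s (F ι β γ) E a m) :
    ∀ ε : ℝ, 0 < ε → Est fun ι β γ m => TopN μ s (F ι β γ) E Θ δ c c₁ ε m := by
  intro ε hε
  have ha : 0 < min (ε / 2) (c₁ / 2) := lt_min (by linarith) (by linarith)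
  have h := ((hok.and hcr).and (hR.and hFl)).and (hDen _ ha)
  refine h.mono fun ι β γ _ _ _ => ?_
  filter_upwards [pow_ev59 (show 0 < c₁ / 4 by linarith) 32, pow_ev59 (show 0 < ε / 2 by linarith) 64,
    pow_ev59 (show (0 : ℝ) < 1 by norm_num) 64] with m h1 h2 h3 h4
  rw [Real.rpow_one] at h3
  exact topN_ptV33 (hE _) h4.1.1.1 (min_le_left _ _) (min_le_right _ _) h1 h2 h3 h4.1.2.1 h4.1.1.2 h4.1.2.2 h4.2

/-- What the model side delivers: `Dlv96` with the two kinds of spectators. -/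
structure DlvV33 (μ : Measure ℝ) (s : ℝ) (F : ℝ → ℝ → ℝ → Frm96) (E : ℕ → ℝ) (Θ δ c c₁ : ℝ) : Prop where
  ok : Est fun ι β γ m => (F ι β γ).Ok Θ m
  deep : Est fun ι β γ m => ∀ p q : ℕ, St96 E δ c m p q → Deep ((F ι β γ).R m) (2 ^ p) (2 ^ sg96 E c m p)
  cr : Est fun ι β γ m => CrFN μ s (F ι β γ) E Θ δ c c₁ m
  fl : Est fun ι β γ m => FlN μ s (F ι β γ) E δ c m
  chg : ∀ η : ℝ, 0 < η → η ≤ c / 64 → ∃ c₂ : ℝ, 0 < c₂ ∧ (Est fun ι β γ m => SigN μ s (F ι β γ) E Θ δ c η c₂ m) ∧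
    Est fun ι β γ m => BasN μ s (F ι β γ) E Θ δ c η c₂ m
  top : ∀ ε : ℝ, 0 < ε → Est fun ι β γ m => TopN μ s (F ι β γ) E Θ δ c c₁ ε m

/-- **The assembly**, with the cross terms of the two kinds of spectators only. -/
theorem mod_ofV33 [IsProbabilityMeasure μ] (hmono : Monotone E) (h1 : ∀ n, 1 ≤ E n) (hK : KapLe96 E (1 / 4)) (hΘ : 0 < Θ)
    (hΘ1 : Θ ≤ 1) (h : ∃ δ c : ℝ, 0 < δ ∧ δ ≤ Θ / 8 ∧ 0 < c ∧ c ≤ δ / 64 ∧ ∃ (F : ℝ → ℝ → ℝ → Frm96) (c₁ : ℝ), 0 < c₁ ∧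
      DlvV33 μ s F E Θ δ c c₁) : Mod96 E Θ := by
  obtain ⟨δ, c, hδ, hδΘ, hc, hcδ, F, c₁, hc₁, hok, hdeep, hcr, hfl, hchg, hT⟩ := h
  obtain ⟨η, hηdef⟩ : ∃ η, η = min (c / 64) (c₁ / 4) := ⟨_, rfl⟩
  have hη : 0 < η := by rw [hηdef]; positivity
  have hηc : η ≤ c / 64 := hηdef ▸ min_le_left _ _
  have hηc₁ : η ≤ c₁ / 4 := hηdef ▸ min_le_right _ _
  obtain ⟨c₂, hc₂, hS, hB⟩ := hchg η hη hηc
  obtain ⟨c', hc'def⟩ : ∃ c', c' = min (min c₁ c₂ / 2) (Θ / 64) := ⟨_, rfl⟩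
  have hc' : 0 < c' := by rw [hc'def]; positivity
  have hc'1 : c' ≤ c₁ / 2 := by
    rw [hc'def]
    refine (min_le_left _ _).trans ?_
    linarith [min_le_left c₁ c₂]
  have hc'2 : c' ≤ c₂ / 2 := by
    rw [hc'def]
    refine (min_le_left _ _).trans ?_
    linarith [min_le_right c₁ c₂]
  have hc'3 : c' ≤ Θ / 64 := hc'def ▸ min_le_right _ _
  obtain ⟨ι, β, γ, _, _, _, _, _, _, hall⟩ :=
    ((((hok.and hdeep).and hcr).and (hfl.and hS)).and (hB.and (hT (c' / 16) (by positivity)))).exists one_pos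
  refine ⟨δ, c, hδ, hδΘ, hc, hcδ, η, hη, hηc, c', hc', by linarith, Vm96 μ s (F ι β γ) E c, ?_,
    top_of96 (hall.mono fun m h => h.2.2) hc.le (by linarith) fun n => zero_le_one.trans (h1 n)⟩
  filter_upwards [hall, pow_ev96 (show 0 < c' / 2 by positivity) 4, pow_ev96 (show 0 < Θ / 16 by positivity) 16,
    pow_ev96 (show 0 < Θ - c' by linarith) 6] with m hm hp1 hp2 hp3
  obtain ⟨⟨⟨⟨hF, hdm⟩, hcrm⟩, hflm, hSm⟩, hBm, _⟩ := hm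
  have hN1 : (1 : ℝ) ≤ ((2 ^ m : ℕ) : ℝ) := by exact_mod_cast Nat.one_le_two_pow
  have hsg : ∀ p, p ≤ sg96 E c m p ∧ E (2 ^ p) ^ 6 ≤ ((2 ^ m : ℕ) : ℝ) ^ (3 * c) * E (2 ^ sg96 E c m p) ^ 4 :=
    fun p => sg_mem96 h1 (show (1 : ℝ) / 4 + 1 / 4 < 1 by norm_num) (hK (1 / 4) (by norm_num)) hc.le m p
  refine ⟨Vm_nonneg hF, fun p q _ _ _ hsq hq' => lev_leaf96 hF rfl hN1 hδΘ hc'3 hp2 hΘ hsq hq', ?_, ?_⟩
  · intro p q d hp hps hpq hd hd' hqd hleg hpin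
    have hst : St96 E δ c m p q := by
      refine ⟨hp, hps, hpq, by omega, le_trans (mul_le_mul_of_nonneg_left ?_ (Real.rpow_nonneg (Nat.cast_nonneg _) _)) hleg, hpin⟩
      exact hmono (Nat.pow_le_pow_right two_pos (Nat.le_add_right q d))
    have hcl : ∀ i < 2 ^ (m - (q + d)), ∀ k < 2 ^ d, ∃ D : ℝ, D ≤ ((2 ^ m : ℕ) : ℝ) ^ 3 ∧
        Cls59 ((F ι β γ).L m) (ct96 q d i k) (ct96 q d i (k + 1)) D (fN μ s (F ι β γ) E c m p q d i k) :=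
      fun i hi k _ => cls96 hF hΘ1 (hdm p q hst) hpq hqd hi k
    refine lev_step96 hF rfl hN1 hηc₁ hc' hc'1 hp1 hp3 hpq hd' hqd (fun i hi k hk => ?_) (fun i hi k hk => ?_)
      fun i hi k hk => hflm p q d i k hst hqd hi hk
    · obtain ⟨D, _, hD⟩ := hcl i hi k hk
      exact ⟨D, hD⟩
    · exact hcrm p q d i k hst hqd hi hk
  · intro p p' q hC
    have hsq' : sg96 E c m p' ≤ q := by
      have h2 := hC.hsq'
      have h3 : 0 ≤ c * (m : ℝ) := mul_nonneg hc.le (Nat.cast_nonneg _)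
      have h4 : (sg96 E c m p' : ℝ) ≤ q := by linarith
      exact_mod_cast h4
    exact lev_change96 hF hN1 hc'2 hp1 (sg_mono96 hmono h1 hC.hpp (hsg p')) hsq' (fun i hi => hSm p p' q i hC hi)
      fun i hi => hBm p p' q i hC hi

end

end Pool.Agent.W_7d29a1_C0.Asm96
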