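import Mathlib

/-!
CURV0 (MP_7d29a1_pr): joint cumulants of every order of a finite Gibbs measure, as iterated directional derivatives of the
log-sum-exp function. `X` is a finite set (paths, or cut positions), `w : X → ℝ` the logarithms of the weights. (helper82)
-/

set_option autoImplicit false
set_option linter.unusedSectionVars false
set_option linter.unusedVariables false

namespace Pool.W7d29a1.C0

open Finset Filter Topology
open scoped ContDiff

noncomputable section

variable {X : Type*} [Fintype X] [Nonempty X]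

/-! ### The free energy and the mean -/

/-- The partition function. -/
def gz (w : X → ℝ) : ℝ := ∑ x, Real.exp (w x)

/-- The free energy `log Σ exp`. -/
def lse (w : X → ℝ) : ℝ := Real.log (gz w)

/-- The Gibbs mean. -/
def gm (w f : X → ℝ) : ℝ := (∑ x, Real.exp (w x) * f x) / gz w

theorem gz_pos (w : X → ℝ) : 0 < gz w := Finset.sum_pos (fun x _ => Real.exp_pos _) univ_nonempty

theorem gz_ne (w : X → ℝ) : gz w ≠ 0 := (gz_pos w).ne'

theorem exp_lse (w : X → ℝ) : Real.exp (lse w) = gz w := Real.exp_log (gz_pos w)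

theorem gm_add (w f g : X → ℝ) : gm w (f + g) = gm w f + gm w g := by
  unfold gm
  rw [← add_div, ← Finset.sum_add_distrib]
  congr 1
  refine Finset.sum_congr rfl fun x _ => ?_
  rw [Pi.add_apply]
  ring

theorem gm_smul (w : X → ℝ) (c : ℝ) (f : X → ℝ) : gm w (c • f) = c * gm w f := by
  unfold gm
  rw [← mul_div_assoc, Finset.mul_sum]
  congr 1
  refine Finset.sum_congr rfl fun x _ => ?_
  rw [Pi.smul_apply, smul_eq_mul]
  ring

theorem gm_neg (w f : X → ℝ) : gm w (-f) = -gm w f := by
  have h := gm_smul w (-1) f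
  rwa [neg_one_smul, neg_one_mul] at h

theorem gm_sub (w f g : X → ℝ) : gm w (f - g) = gm w f - gm w g := by
  rw [sub_eq_add_neg, gm_add, gm_neg, sub_eq_add_neg]

theorem gm_const (w : X → ℝ) (c : ℝ) : gm w (fun _ => c) = c := by
  unfold gm
  rw [← Finset.sum_mul]
  exact mul_div_cancel_left₀ c (gz_ne w)

theorem gm_mono (w : X → ℝ) {f g : X → ℝ} (h : ∀ x, f x ≤ g x) : gm w f ≤ gm w g := by
  unfold gm
  refine div_le_div_of_nonneg_right ?_ (gz_pos w).le
  exact Finset.sum_le_sum fun x _ => mul_le_mul_of_nonneg_left (h x) (Real.exp_pos _).le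

theorem gm_nonneg (w : X → ℝ) {f : X → ℝ} (h : ∀ x, 0 ≤ f x) : 0 ≤ gm w f := by
  unfold gm
  exact div_nonneg (Finset.sum_nonneg fun x _ => mul_nonneg (Real.exp_pos _).le (h x)) (gz_pos w).le

theorem abs_gm_le (w f : X → ℝ) : |gm w f| ≤ gm w fun x => |f x| := by
  rw [abs_le]
  constructor
  · have h := gm_mono w (f := -(fun x => |f x|)) (g := f) fun x => neg_abs_le (f x)
    rwa [gm_neg] at h
  · exact gm_mono w fun x => le_abs_self (f x)

/-! ### Smoothness -/

theorem gz_contDiff : ContDiff ℝ ∞ (gz : (X → ℝ) → ℝ) := by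
  unfold gz
  refine ContDiff.sum fun x _ => ?_
  exact Real.contDiff_exp.comp (contDiff_apply ℝ ℝ x)

theorem lse_contDiff : ContDiff ℝ ∞ (lse : (X → ℝ) → ℝ) := by
  unfold lse
  exact gz_contDiff.log gz_ne

/-- **The joint cumulants** of the Gibbs measure of the weights `exp w`. -/
def cm : List (X → ℝ) → (X → ℝ) → ℝ
  | [] => lse
  | f :: l => fun w => fderiv ℝ (cm l) w f

theorem cm_nil (w : X → ℝ) : cm [] w = lse w := rfl

theorem cm_cons (f : X → ℝ) (l : List (X → ℝ)) (w : X → ℝ) : cm (f :: l) w = fderiv ℝ (cm l) w f := rfl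

theorem cm_contDiff : ∀ l : List (X → ℝ), ContDiff ℝ ∞ (cm l)
  | [] => lse_contDiff
  | f :: l => by
    show ContDiff ℝ ∞ fun w => fderiv ℝ (cm l) w f
    exact ((cm_contDiff l).fderiv_right (m := ∞) (by simp)).clm_apply contDiff_const

theorem cm_differentiable (l : List (X → ℝ)) : Differentiable ℝ (cm l) :=
  (cm_contDiff l).differentiable (by simp)

theorem cm_continuous (l : List (X → ℝ)) : Continuous (cm l) := (cm_contDiff l).continuous

/-- **The chain rule**: a derivative of the weights puts its direction in the cumulant. -/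
theorem hasDerivAt_cm (l : List (X → ℝ)) {w : ℝ → X → ℝ} {w' : X → ℝ} {t : ℝ} (h : HasDerivAt w w' t) :
    HasDerivAt (fun t => cm l (w t)) (cm (w' :: l) (w t)) t :=
  ((cm_differentiable l) (w t)).hasFDerivAt.comp_hasDerivAt t h

theorem hasDerivAt_line (w f : X → ℝ) (t : ℝ) : HasDerivAt (fun t : ℝ => w + t • f) f t := by
  have h := ((hasDerivAt_id t).smul_const f).const_add w
  simpa using h

theorem hasDerivAt_cm_line (l : List (X → ℝ)) (w f : X → ℝ) (t : ℝ) :
    HasDerivAt (fun t : ℝ => cm l (w + t • f)) (cm (f :: l) (w + t • f)) t :=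
  hasDerivAt_cm l (hasDerivAt_line w f t)

theorem cm_cons_eq {l : List (X → ℝ)} {w f : X → ℝ} {c : ℝ} (h : HasDerivAt (fun t : ℝ => cm l (w + t • f)) c 0) :
    cm (f :: l) w = c := by
  have h1 := hasDerivAt_cm_line l w f 0
  rw [zero_smul, add_zero] at h1
  exact h1.unique h

/-! ### Symmetry and multilinearity -/

theorem cm_swap (f g : X → ℝ) (l : List (X → ℝ)) : cm (f :: g :: l) = cm (g :: f :: l) := by
  funext w
  have hd : DifferentiableAt ℝ (fderiv ℝ (cm l)) w :=
    (((cm_contDiff l).fderiv_right (m := ∞) (by simp)).differentiable (by simp)) w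
  have key : ∀ a b : X → ℝ, cm (a :: b :: l) w = fderiv ℝ (fderiv ℝ (cm l)) w a b := fun a b => by
    show fderiv ℝ (fun v => fderiv ℝ (cm l) v b) w a = _
    rw [fderiv_clm_apply hd (differentiableAt_const b)]
    simp
  rw [key, key]
  have h2 : minSmoothness ℝ 2 ≤ (∞ : WithTop ℕ∞) := by
    rw [minSmoothness_of_isRCLikeNormedField]
    exact WithTop.coe_le_coe.2 le_top
  exact ((cm_contDiff l).contDiffAt.isSymmSndFDerivAt h2) f g

theorem cm_perm {l l' : List (X → ℝ)} (h : l.Perm l') : cm l = cm l' := by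
  induction h with
  | nil => rfl
  | cons x _ ih =>
    funext w
    rw [cm_cons, cm_cons, ih]
  | swap x y l => exact cm_swap y x l
  | trans _ _ ih1 ih2 => exact ih1.trans ih2

theorem cm_head_add (a b : X → ℝ) (l : List (X → ℝ)) (w : X → ℝ) : cm ((a + b) :: l) w = cm (a :: l) w + cm (b :: l) w := by
  rw [cm_cons, cm_cons, cm_cons, map_add]

theorem cm_head_smul (c : ℝ) (a : X → ℝ) (l : List (X → ℝ)) (w : X → ℝ) : cm ((c • a) :: l) w = c * cm (a :: l) w := by
  rw [cm_cons, cm_cons, map_smul, smul_eq_mul]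

theorem cm_head_neg (a : X → ℝ) (l : List (X → ℝ)) (w : X → ℝ) : cm ((-a) :: l) w = -cm (a :: l) w := by
  rw [cm_cons, cm_cons, map_neg]

theorem cm_head_sub (a b : X → ℝ) (l : List (X → ℝ)) (w : X → ℝ) : cm ((a - b) :: l) w = cm (a :: l) w - cm (b :: l) w := by
  rw [cm_cons, cm_cons, cm_cons, map_sub]

theorem cm_head_sum {J : Type*} (s : Finset J) (a : J → X → ℝ) (l : List (X → ℝ)) (w : X → ℝ) :
    cm ((∑ j ∈ s, a j) :: l) w = ∑ j ∈ s, cm (a j :: l) w := by
  rw [cm_cons, map_sum]
  rfl

theorem cm_mid (k l : List (X → ℝ)) (a : X → ℝ) : cm (k ++ a :: l) = cm (a :: (k ++ l)) := cm_perm List.perm_middle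

theorem cm_mid_add (k l : List (X → ℝ)) (a b : X → ℝ) (w : X → ℝ) :
    cm (k ++ (a + b) :: l) w = cm (k ++ a :: l) w + cm (k ++ b :: l) w := by
  rw [cm_mid, cm_mid, cm_mid, cm_head_add]

theorem cm_mid_smul (k l : List (X → ℝ)) (c : ℝ) (a : X → ℝ) (w : X → ℝ) :
    cm (k ++ (c • a) :: l) w = c * cm (k ++ a :: l) w := by
  rw [cm_mid, cm_mid, cm_head_smul]

/-! ### Constants -/

theorem lse_add_const (w : X → ℝ) (c : ℝ) : lse (w + fun _ => c) = lse w + c := by
  unfold lse
  have h : gz (w + fun _ => c) = gz w * Real.exp c := by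
    unfold gz
    rw [Finset.sum_mul]
    refine Finset.sum_congr rfl fun x _ => ?_
    rw [Pi.add_apply, Real.exp_add]
  rw [h, Real.log_mul (gz_ne w) (Real.exp_pos c).ne', Real.log_exp]

theorem cm_add_const (f : X → ℝ) (l : List (X → ℝ)) (w : X → ℝ) (c : ℝ) : cm (f :: l) (w + fun _ => c) = cm (f :: l) w := by
  induction l generalizing f w with
  | nil =>
    refine cm_cons_eq ?_
    have h := hasDerivAt_cm_line [] w f 0
    rw [zero_smul, add_zero] at h
    have h1 := h.add_const c
    refine h1.congr_of_eventuallyEq (Eventually.of_forall fun t => ?_)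
    show lse ((w + fun _ => c) + t • f) = lse (w + t • f) + c
    rw [← lse_add_const, add_right_comm]
  | cons g l ih =>
    refine cm_cons_eq ?_
    have h := hasDerivAt_cm_line (g :: l) w f 0
    rw [zero_smul, add_zero] at h
    refine h.congr_of_eventuallyEq (Eventually.of_forall fun t => ?_)
    show cm (g :: l) ((w + fun _ => c) + t • f) = cm (g :: l) (w + t • f)
    rw [add_right_comm, ih]

theorem cm_const_head (c : ℝ) (f : X → ℝ) (l : List (X → ℝ)) (w : X → ℝ) : cm ((fun _ => c) :: f :: l) w = 0 := by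
  refine cm_cons_eq ?_
  refine (hasDerivAt_const (0 : ℝ) (cm (f :: l) w)).congr_of_eventuallyEq (Eventually.of_forall fun t => ?_)
  show cm (f :: l) (w + t • fun _ => c) = cm (f :: l) w
  have h : (t • fun _ : X => c) = fun _ => t * c := by funext x; rfl
  rw [h, cm_add_const]

/-- An additive constant in an argument does not change a cumulant of order at least two. -/
theorem cm_head_add_const (a : X → ℝ) (c : ℝ) (f : X → ℝ) (l : List (X → ℝ)) (w : X → ℝ) :
    cm ((a + fun _ => c) :: f :: l) w = cm (a :: f :: l) w := by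
  rw [cm_head_add, cm_const_head, add_zero]

theorem cm_mid_add_const (k l : List (X → ℝ)) (a : X → ℝ) (c : ℝ) (w : X → ℝ) (h : 1 ≤ (k ++ l).length) :
    cm (k ++ (a + fun _ => c) :: l) w = cm (k ++ a :: l) w := by
  rw [cm_mid, cm_mid]
  rcases hk : k ++ l with _ | ⟨f, m⟩
  · rw [hk] at h
    simp at h
  · exact cm_head_add_const a c f m w

end

end Pool.W7d29a1.C0
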