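import Pool.Agent.W_7d29a1_C0.Score32
import Pool.Agent.W_7d29a1_C0.Cum82

/-!
CURV0 (MP_7d29a1_pr), section SM: the SECOND slab derivative. `S1`, `S2` are two disjoint finite sets of sites (the two
sub-slabs), `c1`, `c2` fields on them (`c2` may see `S1`, `c1` does not see `S2`). Exact identity

`E κ(C2, C1, l) = E κ(l) δ(c1) δ(c2) - E κ(l) δ(D_{c1} c2)`,

`C = Σ_p c p N p` the path functional of the field, `δ(c) = Σ_p c p s(η p)` the score sum. (helper19)
-/

set_option autoImplicit false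
set_option linter.unusedSectionVars false

namespace Pool.W7d29a1.C0.H19

open MeasureTheory ProbabilityTheory Filter Topology
open Pool.Agent.W_7d29a1_F Pool.Agent.W_7d29a1_C0.H32

noncomputable section

variable {μ : Measure ℝ} {f f' : ℝ → ℝ}

/-- A bounded predictable field over the sites `S`. -/
structure BF (S : Finset Pt) (c : Pt → Env → ℝ) (M : ℝ) : Prop where
  meas : ∀ p ∈ S, Measurable (c p)
  pred : Pred S c
  bd : ∀ p ∈ S, ∀ η, |c p η| ≤ M

/-- The derivative of the field `c2` in the direction of the field `c1`; `c2' p q` is the derivative of `c2 q` along the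
site `p`. -/
def Dc (S1 : Finset Pt) (c1 : Pt → Env → ℝ) (c2' : Pt → Pt → Env → ℝ) (q : Pt) (η : Env) : ℝ :=
  ∑ p ∈ S1, c1 p η * c2' p q η

theorem BF.self {S : Finset Pt} {c : Pt → Env → ℝ} {M : ℝ} (h : BF S c M) :
    ∀ p ∈ S, ∀ η x, c p (Function.update η p x) = c p η := fun p hp η x => h.pred p hp p hp le_rfl η x

/-- The derivative of a field is a bounded predictable field. -/
theorem BF.dc {S1 S2 : Finset Pt} {c1 : Pt → Env → ℝ} {c2' : Pt → Pt → Env → ℝ} {M1 M3 : ℝ} (b1 : BF S1 c1 M1)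
    (b3 : ∀ p ∈ S1, BF S2 (c2' p) M3)
    (h12 : ∀ p ∈ S1, ∀ q ∈ S2, ∀ (η : Env) (x : ℝ), c1 p (Function.update η q x) = c1 p η) :
    BF S2 (Dc S1 c1 c2') (S1.card * (M1 * M3)) := by
  refine ⟨fun q hq => Finset.measurable_sum _ fun p hp => (b1.meas p hp).mul ((b3 p hp).meas q hq), ?_, ?_⟩
  · intro q hq q' hq' hle η x
    unfold Dc
    refine Finset.sum_congr rfl fun p hp => ?_
    rw [h12 p hp q' hq', (b3 p hp).pred q hq q' hq' hle]
  · intro q hq η
    unfold Dc
    refine (Finset.abs_sum_le_sum_abs _ _).trans ?_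
    refine (Finset.sum_le_card_nsmul _ _ (M1 * M3) fun p hp => ?_).trans_eq (by rw [nsmul_eq_mul])
    rw [abs_mul]
    exact mul_le_mul (b1.bd p hp η) ((b3 p hp).bd q hq η) (abs_nonneg _) ((abs_nonneg _).trans (b1.bd p hp η))

section Int

variable [IsProbabilityMeasure μ]

/-- All the moments of a score sum. -/
theorem int_SS_pow {s : ℝ → ℝ} {K θ0 : ℝ} (hs : SG μ s K θ0) {S : Finset Pt} {c : Pt → Env → ℝ} {M : ℝ} (h : BF S c M)
    (q : ℕ) : Integrable (fun η => |SS s S c η| ^ q) (law μ) := by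
  have hM : ∀ p ∈ S, ∀ η, |c p η| ≤ |M| := fun p hp η => (h.bd p hp η).trans (le_abs_self M)
  have h0 : 0 < θ0 := hs.2.2.1
  have h1 : 0 < |M| + 1 := by positivity
  refine (moment hs (M := |M|) (t := θ0 / (|M| + 1)) (B := S.card * |M| ^ 2) (abs_nonneg M) (by positivity) ?_ S c h.meas
    h.pred hM ?_ q).1
  · rw [div_mul_eq_mul_div, div_le_iff₀ h1]
    nlinarith [abs_nonneg M]
  · intro η
    refine (Finset.sum_le_card_nsmul _ _ (|M| ^ 2) fun p hp => ?_).trans_eq (by rw [nsmul_eq_mul])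
    rw [← sq_abs (c p η)]
    exact pow_le_pow_left₀ (abs_nonneg _) (hM p hp η) 2

theorem aesm_SS {s : ℝ → ℝ} (hs : Measurable s) {S : Finset Pt} {c : Pt → Env → ℝ} {M : ℝ} (h : BF S c M) :
    AEStronglyMeasurable (SS s S c) (law μ) := (SS_meas hs h.meas).aestronglyMeasurable

theorem memLp_SS {s : ℝ → ℝ} {K θ0 : ℝ} (hs : SG μ s K θ0) {S : Finset Pt} {c : Pt → Env → ℝ} {M : ℝ} (h : BF S c M) :
    MemLp (SS s S c) 2 (law μ) := by
  rw [memLp_two_iff_integrable_sq (aesm_SS hs.1 h)]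
  refine (int_SS_pow hs h 2).congr (ae_of_all _ fun η => ?_)
  show |SS s S c η| ^ 2 = SS s S c η ^ 2
  rw [sq_abs]

theorem memLp_SS_mul {s : ℝ → ℝ} {K θ0 : ℝ} (hs : SG μ s K θ0) {S S' : Finset Pt} {c c' : Pt → Env → ℝ} {M M' : ℝ}
    (h : BF S c M) (h' : BF S' c' M') : MemLp (fun η => SS s S c η * SS s S' c' η) 2 (law μ) := by
  have hm : AEStronglyMeasurable (fun η => SS s S c η * SS s S' c' η) (law μ) := (aesm_SS hs.1 h).mul (aesm_SS hs.1 h')
  rw [memLp_two_iff_integrable_sq hm]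
  refine ((int_SS_pow hs h 4).add (int_SS_pow hs h' 4)).mono' (hm.pow 2) (ae_of_all _ fun η => ?_)
  rw [Real.norm_eq_abs, abs_of_nonneg (sq_nonneg _)]
  show (SS s S c η * SS s S' c' η) ^ 2 ≤ |SS s S c η| ^ 4 + |SS s S' c' η| ^ 4
  have e : ∀ a : ℝ, |a| ^ 4 = (a ^ 2) ^ 2 := fun a => by
    rw [← abs_pow, abs_of_nonneg (by positivity : (0 : ℝ) ≤ a ^ 4)]; ring
  rw [e, e, mul_pow]
  nlinarith [sq_nonneg (SS s S c η ^ 2 - SS s S' c' η ^ 2), sq_nonneg (SS s S c η ^ 2), sq_nonneg (SS s S' c' η ^ 2)]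

/-- A bounded factor keeps the square integrability. -/
theorem memLp_bd {g F : Env → ℝ} {M : ℝ} (hg : Measurable g) (hM : ∀ η, |g η| ≤ M) (hF : MemLp F 2 (law μ)) :
    MemLp (fun η => g η * F η) 2 (law μ) := by
  refine (hF.const_mul |M|).mono (hg.aestronglyMeasurable.mul hF.1) (ae_of_all _ fun η => ?_)
  rw [Real.norm_eq_abs, Real.norm_eq_abs, abs_mul, abs_mul, abs_abs]
  exact mul_le_mul_of_nonneg_right ((hM η).trans (le_abs_self M)) (abs_nonneg _)

/-- One site is a score sum. -/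
theorem SS_single (s : ℝ → ℝ) (p : Pt) (c : Pt → Env → ℝ) : SS s {p} c = fun η => c p η * s (η p) := by
  funext η
  unfold SS
  rw [Finset.sum_singleton]

theorem BF.single {S : Finset Pt} {c : Pt → Env → ℝ} {M : ℝ} (h : BF S c M) {p : Pt} (hp : p ∈ S) : BF {p} c M := by
  refine ⟨fun q hq => ?_, fun q hq q' hq' hle η x => ?_, fun q hq η => ?_⟩
  · rw [Finset.mem_singleton] at hq
    rw [hq]
    exact h.meas p hp
  · rw [Finset.mem_singleton] at hq hq'
    rw [hq, hq']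
    exact h.self p hp η x
  · rw [Finset.mem_singleton] at hq
    rw [hq]
    exact h.bd p hp η

end Int

/-- The derivative of a score sum along a site outside of its slab. -/
theorem hasDerivAt_SS (s : ℝ → ℝ) {S2 : Finset Pt} {p : Pt} (hp : p ∉ S2) {c2 c2' : Pt → Env → ℝ}
    (hc2 : ∀ q ∈ S2, ∀ (η : Env) (x : ℝ), HasDerivAt (fun t => c2 q (Function.update η p t))
      (c2' q (Function.update η p x)) x) (η : Env) (x : ℝ) :
    HasDerivAt (fun t => SS s S2 c2 (Function.update η p t)) (SS s S2 c2' (Function.update η p x)) x := by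
  unfold SS
  refine HasDerivAt.fun_sum fun q hq => ?_
  have hne : q ≠ p := by rintro rfl; exact hp hq
  have e : ∀ t : ℝ, Function.update η p t q = η q := fun t => Function.update_of_ne hne _ _
  simp only [e]
  exact (hc2 q hq η x).mul_const _

/-- **The second slab derivative**, abstract form: `Ψ` a functional with the derivatives `Ψ' p` along the sites of `S1`. -/
theorem slab_two [IsProbabilityMeasure μ] (h : DenLaw μ f f') {S1 S2 : Finset Pt} (hd : Disjoint S1 S2)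
    {c1 c2 : Pt → Env → ℝ} {c2' : Pt → Pt → Env → ℝ} {M1 M2 M3 : ℝ} (b1 : BF S1 c1 M1) (b2 : BF S2 c2 M2)
    (b3 : ∀ p ∈ S1, BF S2 (c2' p) M3)
    (h12 : ∀ p ∈ S1, ∀ q ∈ S2, ∀ (η : Env) (x : ℝ), c1 p (Function.update η q x) = c1 p η)
    (hc2 : ∀ p ∈ S1, ∀ q ∈ S2, ∀ (η : Env) (x : ℝ), HasDerivAt (fun t => c2 q (Function.update η p t))
      (c2' p q (Function.update η p x)) x) {Ψ : Env → ℝ} {Ψ' : Pt → Env → ℝ}
    (hΨ : ∀ p ∈ S1, ∀ (η : Env) (x : ℝ), HasDerivAt (fun t => Ψ (Function.update η p t)) (Ψ' p (Function.update η p x)) x)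
    (m0 : MemLp Ψ 2 (law μ)) (m1 : ∀ p ∈ S1, MemLp (Ψ' p) 2 (law μ)) :
    ∫ η, (∑ p ∈ S1, c1 p η * Ψ' p η) * SS (sc f f') S2 c2 η ∂(law μ) =
      ∫ η, Ψ η * (SS (sc f f') S1 c1 η * SS (sc f f') S2 c2 η) ∂(law μ) -
        ∫ η, Ψ η * SS (sc f f') S2 (Dc S1 c1 c2') η ∂(law μ) := by
  obtain ⟨K, θ0, hs⟩ := h.sg
  set s : ℝ → ℝ := sc f f' with hsdef
  have bD : BF S2 (Dc S1 c1 c2') (S1.card * (M1 * M3)) := b1.dc b3 h12
  have k0 : ∀ p ∈ S1, Integrable (fun η => c1 p η * (Ψ η * SS s S2 c2 η)) (law μ) := fun p hp => by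
    have := (m0.integrable_mul (memLp_bd (b1.meas p hp) (b1.bd p hp) (memLp_SS hs b2)))
    refine this.congr (ae_of_all _ fun η => ?_)
    show Ψ η * (c1 p η * SS s S2 c2 η) = _
    ring
  have k1a : ∀ p ∈ S1, Integrable (fun η => c1 p η * Ψ' p η * SS s S2 c2 η) (law μ) := fun p hp => by
    have := ((m1 p hp).integrable_mul (memLp_bd (b1.meas p hp) (b1.bd p hp) (memLp_SS hs b2)))
    refine this.congr (ae_of_all _ fun η => ?_)
    show Ψ' p η * (c1 p η * SS s S2 c2 η) = _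
    ring
  have k1b : ∀ p ∈ S1, Integrable (fun η => Ψ η * (c1 p η * SS s S2 (c2' p) η)) (law μ) := fun p hp =>
    m0.integrable_mul (memLp_bd (b1.meas p hp) (b1.bd p hp) (memLp_SS hs (b3 p hp)))
  have k1 : ∀ p ∈ S1, Integrable (fun η => c1 p η * (Ψ' p η * SS s S2 c2 η + Ψ η * SS s S2 (c2' p) η)) (law μ) :=
    fun p hp => by
      refine ((k1a p hp).add (k1b p hp)).congr (ae_of_all _ fun η => ?_)
      show c1 p η * Ψ' p η * SS s S2 c2 η + Ψ η * (c1 p η * SS s S2 (c2' p) η) = _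
      ring
  have k2 : ∀ p ∈ S1, Integrable (fun η => c1 p η * (Ψ η * SS s S2 c2 η) * s (η p)) (law μ) := fun p hp => by
    have := m0.integrable_mul (memLp_SS_mul hs (b1.single hp) b2)
    refine this.congr (ae_of_all _ fun η => ?_)
    show Ψ η * (SS s {p} c1 η * SS s S2 c2 η) = _
    rw [SS_single]
    ring
  have hdis : ∀ p ∈ S1, p ∉ S2 := fun p hp hp' => Finset.disjoint_left.1 hd hp hp'
  have key := h.ibp_slab S1 (c := c1) (Φ := fun η => Ψ η * SS s S2 c2 η)
    (Φ' := fun p η => Ψ' p η * SS s S2 c2 η + Ψ η * SS s S2 (c2' p) η) b1.self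
    (fun p hp η x => (hΨ p hp η x).mul (hasDerivAt_SS s (hdis p hp) (hc2 p hp) η x)) k0 k1 k2
  have e1 : ∀ η, ∑ p ∈ S1, c1 p η * (Ψ' p η * SS s S2 c2 η + Ψ η * SS s S2 (c2' p) η) =
      (∑ p ∈ S1, c1 p η * Ψ' p η) * SS s S2 c2 η + Ψ η * SS s S2 (Dc S1 c1 c2') η := fun η => by
    have e2 : SS s S2 (Dc S1 c1 c2') η = ∑ p ∈ S1, c1 p η * SS s S2 (c2' p) η := by
      unfold SS Dc
      simp_rw [Finset.sum_mul, Finset.mul_sum]
      rw [Finset.sum_comm]
      exact Finset.sum_congr rfl fun p _ => Finset.sum_congr rfl fun q _ => by ring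
    rw [e2, Finset.sum_mul, Finset.mul_sum, ← Finset.sum_add_distrib]
    exact Finset.sum_congr rfl fun p _ => by ring
  simp_rw [e1] at key
  have j1 : Integrable (fun η => (∑ p ∈ S1, c1 p η * Ψ' p η) * SS s S2 c2 η) (law μ) := by
    simp_rw [Finset.sum_mul]
    exact integrable_finsetSum _ k1a
  have j2 : Integrable (fun η => Ψ η * SS s S2 (Dc S1 c1 c2') η) (law μ) := m0.integrable_mul (memLp_SS hs bD)
  rw [integral_add j1 j2] at key
  rw [eq_sub_iff_add_eq, key]
  exact integral_congr_ae (ae_of_all _ fun η => by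
    show Ψ η * SS s S2 c2 η * SS s S1 c1 η = Ψ η * (SS s S1 c1 η * SS s S2 c2 η)
    ring)

/-! ### Cumulants of a finite Gibbs measure -/

section Cumulants

variable {X : Type*} [Fintype X] [Nonempty X]

/-- The path functional of the field `c` over the sites `S`; `N p` counts the visits of the site `p`. -/
def Cf (S : Finset Pt) (c : Pt → Env → ℝ) (N : Pt → X → ℝ) (η : Env) : X → ℝ := ∑ p ∈ S, c p η • N p

theorem Cf_blind {S : Finset Pt} {c : Pt → Env → ℝ} (N : Pt → X → ℝ) {q : Pt}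
    (h : ∀ p ∈ S, ∀ (η : Env) (x : ℝ), c p (Function.update η q x) = c p η) (η : Env) (x : ℝ) :
    Cf S c N (Function.update η q x) = Cf S c N η := by
  unfold Cf
  exact Finset.sum_congr rfl fun p hp => by rw [h p hp]

theorem cm_Cf (S : Finset Pt) (c : Pt → Env → ℝ) (N : Pt → X → ℝ) (η : Env) (l : List (X → ℝ)) (w : X → ℝ) :
    cm (Cf S c N η :: l) w = ∑ p ∈ S, c p η * cm (N p :: l) w := by
  unfold Cf
  rw [cm_head_sum]
  exact Finset.sum_congr rfl fun p _ => cm_head_smul _ _ _ _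

/-- **The first slab derivative** for cumulants: the list `l η` does not see the slab, the weights have the derivative
`N q` along the site `q` of the slab. -/
theorem slab_cm [IsProbabilityMeasure μ] (h : DenLaw μ f f') {S : Finset Pt} {c : Pt → Env → ℝ} {M : ℝ} (b : BF S c M)
    {w : Env → X → ℝ} {N : Pt → X → ℝ}
    (hw : ∀ q ∈ S, ∀ (η : Env) (x : ℝ), HasDerivAt (fun t => w (Function.update η q t)) (N q) x)
    {l : Env → List (X → ℝ)} (hl : ∀ q ∈ S, ∀ (η : Env) (x : ℝ), l (Function.update η q x) = l η)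
    (m0 : MemLp (fun η => cm (l η) (w η)) 2 (law μ))
    (m1 : ∀ q ∈ S, MemLp (fun η => cm (N q :: l η) (w η)) 2 (law μ)) :
    ∫ η, cm (Cf S c N η :: l η) (w η) ∂(law μ) = ∫ η, cm (l η) (w η) * SS (sc f f') S c η ∂(law μ) := by
  obtain ⟨K, θ0, hs⟩ := h.sg
  have hder : ∀ q ∈ S, ∀ (η : Env) (x : ℝ), HasDerivAt (fun t => cm (l (Function.update η q t)) (w (Function.update η q t)))
      (cm (N q :: l (Function.update η q x)) (w (Function.update η q x))) x := fun q hq η x => by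
    have e : ∀ t : ℝ, l (Function.update η q t) = l η := fun t => hl q hq η t
    simp only [e]
    exact hasDerivAt_cm (l η) (hw q hq η x)
  have one : MemLp (fun _ : Env => (1 : ℝ)) 2 (law μ) := memLp_const 1
  have i0 : ∀ q ∈ S, Integrable (fun η => c q η * cm (l η) (w η)) (law μ) := fun q hq => by
    have := (memLp_bd (b.meas q hq) (b.bd q hq) one).integrable_mul m0
    refine this.congr (ae_of_all _ fun η => ?_)
    show c q η * 1 * cm (l η) (w η) = _
    ring
  have i1 : ∀ q ∈ S, Integrable (fun η => c q η * cm (N q :: l η) (w η)) (law μ) := fun q hq => by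
    have := (memLp_bd (b.meas q hq) (b.bd q hq) one).integrable_mul (m1 q hq)
    refine this.congr (ae_of_all _ fun η => ?_)
    show c q η * 1 * cm (N q :: l η) (w η) = _
    ring
  have i2 : ∀ q ∈ S, Integrable (fun η => c q η * cm (l η) (w η) * sc f f' (η q)) (law μ) := fun q hq => by
    have := m0.integrable_mul (memLp_SS hs (b.single hq))
    refine this.congr (ae_of_all _ fun η => ?_)
    show cm (l η) (w η) * SS (sc f f') {q} c η = _
    rw [SS_single]
    ring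
  have key := h.ibp_slab S (c := c) (Φ := fun η => cm (l η) (w η)) (Φ' := fun q η => cm (N q :: l η) (w η)) b.self hder
    i0 i1 i2
  rw [← key]
  exact integral_congr_ae (ae_of_all _ fun η => cm_Cf S c N η (l η) (w η))

/-- **The second slab derivative for cumulants.** -/
theorem slab_cm_two [IsProbabilityMeasure μ] (h : DenLaw μ f f') {S1 S2 : Finset Pt} (hd : Disjoint S1 S2)
    {c1 c2 : Pt → Env → ℝ} {c2' : Pt → Pt → Env → ℝ} {M1 M2 M3 : ℝ} (b1 : BF S1 c1 M1) (b2 : BF S2 c2 M2)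
    (b3 : ∀ p ∈ S1, BF S2 (c2' p) M3)
    (h12 : ∀ p ∈ S1, ∀ q ∈ S2, ∀ (η : Env) (x : ℝ), c1 p (Function.update η q x) = c1 p η)
    (hc2 : ∀ p ∈ S1, ∀ q ∈ S2, ∀ (η : Env) (x : ℝ), HasDerivAt (fun t => c2 q (Function.update η p t))
      (c2' p q (Function.update η p x)) x)
    {w : Env → X → ℝ} {N : Pt → X → ℝ}
    (hw1 : ∀ q ∈ S1, ∀ (η : Env) (x : ℝ), HasDerivAt (fun t => w (Function.update η q t)) (N q) x)
    (hw2 : ∀ q ∈ S2, ∀ (η : Env) (x : ℝ), HasDerivAt (fun t => w (Function.update η q t)) (N q) x)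
    {l : Env → List (X → ℝ)} (hl1 : ∀ q ∈ S1, ∀ (η : Env) (x : ℝ), l (Function.update η q x) = l η)
    (hl2 : ∀ q ∈ S2, ∀ (η : Env) (x : ℝ), l (Function.update η q x) = l η)
    (m0 : MemLp (fun η => cm (l η) (w η)) 2 (law μ))
    (m1 : ∀ p ∈ S1, MemLp (fun η => cm (N p :: l η) (w η)) 2 (law μ))
    (m2 : ∀ p ∈ S1, ∀ q ∈ S2, MemLp (fun η => cm (N q :: N p :: l η) (w η)) 2 (law μ)) :
    ∫ η, cm (Cf S2 c2 N η :: Cf S1 c1 N η :: l η) (w η) ∂(law μ) =
      ∫ η, cm (l η) (w η) * (SS (sc f f') S1 c1 η * SS (sc f f') S2 c2 η) ∂(law μ) -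
        ∫ η, cm (l η) (w η) * SS (sc f f') S2 (Dc S1 c1 c2') η ∂(law μ) := by
  have e1 : ∀ (q : Pt) (η : Env), cm (N q :: Cf S1 c1 N η :: l η) (w η) =
      ∑ p ∈ S1, c1 p η * cm (N q :: N p :: l η) (w η) := fun q η => by
    rw [cm_swap, cm_Cf]
    exact Finset.sum_congr rfl fun p _ => by rw [cm_swap]
  have n0 : MemLp (fun η => cm (Cf S1 c1 N η :: l η) (w η)) 2 (law μ) := by
    have e : (fun η => cm (Cf S1 c1 N η :: l η) (w η)) = fun η => ∑ p ∈ S1, c1 p η * cm (N p :: l η) (w η) :=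
      funext fun η => cm_Cf S1 c1 N η (l η) (w η)
    rw [e]
    exact memLp_finsetSum _ fun p hp => memLp_bd (b1.meas p hp) (b1.bd p hp) (m1 p hp)
  have n1 : ∀ q ∈ S2, MemLp (fun η => cm (N q :: Cf S1 c1 N η :: l η) (w η)) 2 (law μ) := fun q hq => by
    simp_rw [e1]
    exact memLp_finsetSum _ fun p hp => memLp_bd (b1.meas p hp) (b1.bd p hp) (m2 p hp q hq)
  have s1 := slab_cm h b2 (w := w) (N := N) hw2 (l := fun η => Cf S1 c1 N η :: l η) (fun q hq η x => by
    show Cf S1 c1 N (Function.update η q x) :: l (Function.update η q x) = Cf S1 c1 N η :: l η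
    rw [hl2 q hq, Cf_blind N (fun p hp η x => h12 p hp q hq η x)]) n0 n1
  have hder : ∀ q ∈ S1, ∀ (η : Env) (x : ℝ), HasDerivAt (fun t => cm (l (Function.update η q t)) (w (Function.update η q t)))
      (cm (N q :: l (Function.update η q x)) (w (Function.update η q x))) x := fun q hq η x => by
    have e : ∀ t : ℝ, l (Function.update η q t) = l η := fun t => hl1 q hq η t
    simp only [e]
    exact hasDerivAt_cm (l η) (hw1 q hq η x)
  have s2 := slab_two h hd b1 b2 b3 h12 hc2 (Ψ := fun η => cm (l η) (w η))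
    (Ψ' := fun p η => cm (N p :: l η) (w η)) hder m0 m1
  rw [s1, ← s2]
  exact integral_congr_ae (ae_of_all _ fun η => by
    show cm (Cf S1 c1 N η :: l η) (w η) * SS (sc f f') S2 c2 η =
      (∑ p ∈ S1, c1 p η * cm (N p :: l η) (w η)) * SS (sc f f') S2 c2 η
    rw [cm_Cf])

end Cumulants

end

end Pool.W7d29a1.C0.H19
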