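import Pool.Agent.W_7d29a1_C0.Proj82
import Pool.Agent.W_7d29a1_C0.Slab19

/-!
CURV0 (MP_7d29a1_pr): the derivative of the block functionals in the direction of a slab field (helper27's slab INSIDE the block).
`cj p gs w y` = joint cumulant of the list `gs` given `p = y`; `CJ p w ls l` = cumulant, under the marginal, of the conditional
cumulants of the lists `ls` and of the functions `l`; `DJ p w C ls l` = its derivative in the direction `C`, LINEAR in `C`. So
`(derivative in the direction g) - (slab derivative) = DJ (g - C)`, exactly and pathwise. (helper82)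
-/

set_option autoImplicit false
set_option linter.unusedSectionVars false
set_option linter.unusedVariables false

namespace Pool.W7d29a1.C0

open Finset Filter Topology MeasureTheory
open Pool.Agent.W_7d29a1_C0

noncomputable section

variable {X : Type*} [Fintype X] [Nonempty X]
variable {Y : Type*} [Fintype Y] [Nonempty Y] [DecidableEq Y]

/-! ### Joint conditional cumulants -/

/-- The joint cumulant of the list `gs` given `p = y`. -/
def cj (p : X → Y) (gs : List (X → ℝ)) (w : X → ℝ) : Y → ℝ := fun y => cm (gs.map (rs p y)) (rs p y w)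

theorem cc_eq_cj (p : X → Y) (g : X → ℝ) (k : ℕ) (w : X → ℝ) : cc p g k w = cj p (List.replicate k g) w := by
  funext y
  show cm (List.replicate k (rs p y g)) (rs p y w) = cm ((List.replicate k g).map (rs p y)) (rs p y w)
  rw [List.map_replicate]

theorem cj_perm {p : X → Y} (hp : Function.Surjective p) {gs gs' : List (X → ℝ)} (h : gs.Perm gs') (w : X → ℝ) :
    cj p gs w = cj p gs' w := by
  funext y
  have := nonempty_fib hp y
  exact congrFun (cm_perm (h.map _)) _

theorem cj_add {p : X → Y} (hp : Function.Surjective p) (a b : X → ℝ) (gs : List (X → ℝ)) (w : X → ℝ) :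
    cj p ((a + b) :: gs) w = cj p (a :: gs) w + cj p (b :: gs) w := by
  funext y
  have := nonempty_fib hp y
  exact cm_head_add (rs p y a) (rs p y b) (gs.map (rs p y)) (rs p y w)

theorem cj_smul {p : X → Y} (hp : Function.Surjective p) (c : ℝ) (a : X → ℝ) (gs : List (X → ℝ)) (w : X → ℝ) :
    cj p ((c • a) :: gs) w = c • cj p (a :: gs) w := by
  funext y
  have := nonempty_fib hp y
  exact cm_head_smul c (rs p y a) (gs.map (rs p y)) (rs p y w)

theorem hasDerivAt_cj {p : X → Y} (hp : Function.Surjective p) (gs : List (X → ℝ)) {w : ℝ → X → ℝ} {w' : X → ℝ} {t : ℝ}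
    (hw : HasDerivAt w w' t) : HasDerivAt (fun u => cj p gs (w u)) (cj p (w' :: gs) (w t)) t := by
  rw [hasDerivAt_pi]
  intro y
  have := nonempty_fib hp y
  have h : HasDerivAt (fun u => rs p y (w u)) (rs p y w') t := by
    rw [hasDerivAt_pi]
    intro x
    exact (hasDerivAt_pi.1 hw) x.1
  exact hasDerivAt_cm (gs.map (rs p y)) h

theorem cj_nil {p : X → Y} (hp : Function.Surjective p) (w : X → ℝ) : cj p [] w = wmarg p w := by
  have h := cc_zero p w w
  rw [cc_eq_cj] at h
  exact h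

theorem hasDerivAt_wmarg_gen {p : X → Y} (hp : Function.Surjective p) {w : ℝ → X → ℝ} {w' : X → ℝ} {t : ℝ}
    (hw : HasDerivAt w w' t) : HasDerivAt (fun u => wmarg p (w u)) (cj p [w'] (w t)) t := by
  have h := hasDerivAt_cj hp [] hw
  refine h.congr_of_eventuallyEq (Eventually.of_forall fun u => ?_)
  exact (cj_nil hp _).symm

/-! ### Cumulants, under the marginal, of joint conditional cumulants -/

/-- The cumulant, under the marginal over `p`, of the conditional cumulants of the lists `ls` and of the functions `l`. -/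
def CJ (p : X → Y) (w : X → ℝ) (ls : List (List (X → ℝ))) (l : List (Y → ℝ)) : ℝ :=
  cm (ls.map (fun gs => cj p gs w) ++ l) (wmarg p w)

/-- The sum over the lists of the terms in which `C` is added to one list. -/
def djs (p : X → Y) (w C : X → ℝ) (l : List (Y → ℝ)) : List (List (X → ℝ)) → List (List (X → ℝ)) → ℝ
  | _, [] => 0
  | pre, gs :: ls => CJ p w (pre ++ (C :: gs) :: ls) l + djs p w C l (pre ++ [gs]) ls

/-- The derivative of `CJ` in the direction `C`. -/
def DJ (p : X → Y) (w C : X → ℝ) (ls : List (List (X → ℝ))) (l : List (Y → ℝ)) : ℝ :=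
  CJ p w ([C] :: ls) l + djs p w C l [] ls

theorem CJ_perm (p : X → Y) (w : X → ℝ) {ls ls' : List (List (X → ℝ))} (h : ls.Perm ls') (l : List (Y → ℝ)) :
    CJ p w ls l = CJ p w ls' l := by
  unfold CJ
  rw [cm_perm ((h.map _).append_right l)]

theorem CC_eq_CJ (p : X → Y) (g w : X → ℝ) (l : List (Y → ℝ)) (ks : List ℕ) (t : ℝ) :
    CC p g w l ks t = CJ p (w + t • g) (ks.map fun k => List.replicate k g) l := by
  unfold CC CJ
  rw [List.map_map]
  congr 2
  refine List.map_congr_left fun k _ => ?_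
  exact cc_eq_cj p g k _

theorem gsum_eq_djs (p : X → Y) (W : ℝ → X → ℝ) (C : X → ℝ) (l : List (Y → ℝ)) (t : ℝ) :
    ∀ (ls pre : List (List (X → ℝ))),
    gsum t (wmarg p (W t)) (l ++ pre.map fun gs => cj p gs (W t))
      (ls.map fun gs => ((fun u : ℝ => cj p gs (W u)), cj p (C :: gs) (W t))) = djs p (W t) C l pre ls
  | [], pre => rfl
  | gs :: ls, pre => by
    have ih := gsum_eq_djs p W C l t ls (pre ++ [gs])
    rw [List.map_append, ← List.append_assoc] at ih
    show cm ((l ++ pre.map fun gs => cj p gs (W t)) ++ cj p (C :: gs) (W t) ::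
      evg t (ls.map fun gs => ((fun u : ℝ => cj p gs (W u)), cj p (C :: gs) (W t)))) (wmarg p (W t)) +
      gsum t (wmarg p (W t)) ((l ++ pre.map fun gs => cj p gs (W t)) ++ [cj p gs (W t)])
        (ls.map fun gs => ((fun u : ℝ => cj p gs (W u)), cj p (C :: gs) (W t))) =
      CJ p (W t) (pre ++ (C :: gs) :: ls) l + djs p (W t) C l (pre ++ [gs]) ls
    rw [← ih]
    congr 1
    have e : evg t (ls.map fun gs => ((fun u : ℝ => cj p gs (W u)), cj p (C :: gs) (W t))) =
        ls.map fun gs => cj p gs (W t) := by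
      unfold evg
      rw [List.map_map]
      rfl
    rw [e]
    unfold CJ
    rw [List.map_append, List.map_cons]
    refine congrFun (cm_perm ?_) _
    rw [List.append_assoc]
    exact List.perm_append_comm

/-- **The derivative rule** along any curve of weights. -/
theorem hasDerivAt_CJ {p : X → Y} (hp : Function.Surjective p) {W : ℝ → X → ℝ} {C : X → ℝ} {t : ℝ} (hW : HasDerivAt W C t)
    (ls : List (List (X → ℝ))) (l : List (Y → ℝ)) :
    HasDerivAt (fun u => CJ p (W u) ls l) (DJ p (W t) C ls l) t := by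
  have h := hasDerivAt_cm_gen (hasDerivAt_wmarg_gen hp hW)
    (ls.map fun gs => ((fun u : ℝ => cj p gs (W u)), cj p (C :: gs) (W t))) (fun q hq => by
      obtain ⟨gs, _, rfl⟩ := List.mem_map.1 hq
      exact hasDerivAt_cj hp gs hW) l
  have e : ∀ u : ℝ, evg u (ls.map fun gs => ((fun u : ℝ => cj p gs (W u)), cj p (C :: gs) (W t))) =
      ls.map fun gs => cj p gs (W u) := fun u => by
    unfold evg
    rw [List.map_map]
    rfl
  have i := gsum_eq_djs p W C l t ls []
  rw [List.map_nil, List.append_nil] at i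
  rw [i] at h
  refine (h.congr_deriv ?_).congr_of_eventuallyEq (Eventually.of_forall fun u => ?_)
  · show _ = CJ p (W t) ([C] :: ls) l + djs p (W t) C l [] ls
    congr 1
    rw [e t]
    unfold CJ
    rw [List.map_cons, List.cons_append]
    exact congrFun (cm_perm (List.Perm.cons _ List.perm_append_comm)) _
  · show CJ p (W u) ls l = cm (l ++ evg u (ls.map fun gs => ((fun u : ℝ => cj p gs (W u)), cj p (C :: gs) (W t))))
      (wmarg p (W u))
    rw [e u]
    unfold CJ
    exact congrFun (cm_perm List.perm_append_comm) _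

/-- Along the direction `g`: the `t`-derivative of `CJ`. -/
theorem hasDerivAt_CJ_line {p : X → Y} (hp : Function.Surjective p) (w g : X → ℝ) (ls : List (List (X → ℝ)))
    (l : List (Y → ℝ)) (t : ℝ) : HasDerivAt (fun u : ℝ => CJ p (w + u • g) ls l) (DJ p (w + t • g) g ls l) t :=
  hasDerivAt_CJ hp (hasDerivAt_line w g t) ls l

/-! ### Linearity in the direction -/

theorem CJ_mid_add {p : X → Y} (hp : Function.Surjective p) (w a b : X → ℝ) (gs : List (X → ℝ)) (pre ls : List (List (X → ℝ))) (l : List (Y → ℝ)) :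
    CJ p w (pre ++ ((a + b) :: gs) :: ls) l = CJ p w (pre ++ (a :: gs) :: ls) l + CJ p w (pre ++ (b :: gs) :: ls) l := by
  unfold CJ
  simp only [List.map_append, List.map_cons, List.append_assoc, List.cons_append]
  rw [cj_add hp]
  exact cm_mid_add _ _ _ _ _

theorem CJ_mid_smul {p : X → Y} (hp : Function.Surjective p) (w : X → ℝ) (c : ℝ) (a : X → ℝ) (gs : List (X → ℝ)) (pre ls : List (List (X → ℝ)))
    (l : List (Y → ℝ)) : CJ p w (pre ++ ((c • a) :: gs) :: ls) l = c * CJ p w (pre ++ (a :: gs) :: ls) l := by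
  unfold CJ
  simp only [List.map_append, List.map_cons, List.append_assoc, List.cons_append]
  rw [cj_smul hp]
  exact cm_mid_smul _ _ _ _ _

theorem CJ_head_add {p : X → Y} (hp : Function.Surjective p) (w a b : X → ℝ) (gs : List (X → ℝ)) (ls : List (List (X → ℝ))) (l : List (Y → ℝ)) :
    CJ p w (((a + b) :: gs) :: ls) l = CJ p w ((a :: gs) :: ls) l + CJ p w ((b :: gs) :: ls) l :=
  CJ_mid_add hp w a b gs [] ls l

theorem CJ_head_smul {p : X → Y} (hp : Function.Surjective p) (w : X → ℝ) (c : ℝ) (a : X → ℝ) (gs : List (X → ℝ)) (ls : List (List (X → ℝ)))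
    (l : List (Y → ℝ)) : CJ p w (((c • a) :: gs) :: ls) l = c * CJ p w ((a :: gs) :: ls) l :=
  CJ_mid_smul hp w c a gs [] ls l

theorem CJ_head_sub {p : X → Y} (hp : Function.Surjective p) (w a b : X → ℝ) (gs : List (X → ℝ)) (ls : List (List (X → ℝ))) (l : List (Y → ℝ)) :
    CJ p w (((a - b) :: gs) :: ls) l = CJ p w ((a :: gs) :: ls) l - CJ p w ((b :: gs) :: ls) l := by
  have h := CJ_head_add hp w a ((-1 : ℝ) • b) gs ls l
  rw [CJ_head_smul hp] at h
  rw [sub_eq_add_neg, ← neg_one_smul ℝ b, h]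
  ring

theorem djs_add {p : X → Y} (hp : Function.Surjective p) (w a b : X → ℝ) (l : List (Y → ℝ)) : ∀ ls pre : List (List (X → ℝ)),
    djs p w (a + b) l pre ls = djs p w a l pre ls + djs p w b l pre ls
  | [], pre => by simp [djs]
  | gs :: ls, pre => by
    have ih := djs_add hp w a b l ls (pre ++ [gs])
    show CJ p w (pre ++ ((a + b) :: gs) :: ls) l + djs p w (a + b) l (pre ++ [gs]) ls =
      (CJ p w (pre ++ (a :: gs) :: ls) l + djs p w a l (pre ++ [gs]) ls) +
      (CJ p w (pre ++ (b :: gs) :: ls) l + djs p w b l (pre ++ [gs]) ls)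
    rw [ih, CJ_mid_add hp]
    ring

theorem djs_smul {p : X → Y} (hp : Function.Surjective p) (w : X → ℝ) (c : ℝ) (a : X → ℝ) (l : List (Y → ℝ)) : ∀ ls pre : List (List (X → ℝ)),
    djs p w (c • a) l pre ls = c * djs p w a l pre ls
  | [], pre => by simp [djs]
  | gs :: ls, pre => by
    have ih := djs_smul hp w c a l ls (pre ++ [gs])
    show CJ p w (pre ++ ((c • a) :: gs) :: ls) l + djs p w (c • a) l (pre ++ [gs]) ls =
      c * (CJ p w (pre ++ (a :: gs) :: ls) l + djs p w a l (pre ++ [gs]) ls)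
    rw [ih, CJ_mid_smul hp]
    ring

theorem DJ_add {p : X → Y} (hp : Function.Surjective p) (w a b : X → ℝ) (ls : List (List (X → ℝ))) (l : List (Y → ℝ)) :
    DJ p w (a + b) ls l = DJ p w a ls l + DJ p w b ls l := by
  unfold DJ
  rw [djs_add hp, CJ_head_add hp]
  ring

theorem DJ_smul {p : X → Y} (hp : Function.Surjective p) (w : X → ℝ) (c : ℝ) (a : X → ℝ) (ls : List (List (X → ℝ))) (l : List (Y → ℝ)) :
    DJ p w (c • a) ls l = c * DJ p w a ls l := by
  unfold DJ
  rw [djs_smul hp, CJ_head_smul hp]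
  ring

theorem DJ_neg {p : X → Y} (hp : Function.Surjective p) (w a : X → ℝ) (ls : List (List (X → ℝ))) (l : List (Y → ℝ)) :
    DJ p w (-a) ls l = -DJ p w a ls l := by
  rw [← neg_one_smul ℝ a, DJ_smul hp]
  ring

theorem DJ_sub {p : X → Y} (hp : Function.Surjective p) (w a b : X → ℝ) (ls : List (List (X → ℝ))) (l : List (Y → ℝ)) :
    DJ p w (a - b) ls l = DJ p w a ls l - DJ p w b ls l := by
  rw [sub_eq_add_neg, DJ_add hp, DJ_neg hp]
  ring

theorem DJ_zero {p : X → Y} (hp : Function.Surjective p) (w : X → ℝ) (ls : List (List (X → ℝ))) (l : List (Y → ℝ)) : DJ p w 0 ls l = 0 := by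
  have h := DJ_smul hp w 0 0 ls l
  rwa [smul_zero, zero_mul] at h

theorem DJ_sum {J : Type*} (s : Finset J) {p : X → Y} (hp : Function.Surjective p) (w : X → ℝ) (a : J → X → ℝ) (ls : List (List (X → ℝ)))
    (l : List (Y → ℝ)) : DJ p w (∑ j ∈ s, a j) ls l = ∑ j ∈ s, DJ p w (a j) ls l := by
  classical
  induction s using Finset.induction_on with
  | empty => simpa using DJ_zero hp w ls l
  | insert j s hj ih => rw [Finset.sum_insert hj, Finset.sum_insert hj, DJ_add hp, ih]

/-! ### The functionals of the cross term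

`F = κ₁(g|p)`, `V = κ₂(g|p)`, `K = κ₃(g|p)`; `CJ p w [[a],[b]] [f]` = `κ₃(G[a|p], G[b|p], f)`, etc. -/

/-- `D_C Cov(F, f) = κ₃(G[C|p], F, f) + Cov(Cov(C, g|p), f)`. -/
theorem DJ_F (p : X → Y) (w C g : X → ℝ) (l : List (Y → ℝ)) :
    DJ p w C [[g]] l = CJ p w [[C], [g]] l + CJ p w [[C, g]] l := by
  simp [DJ, djs]

/-- `D_C κ₃(F, F, f) = κ₄(G[C|p], F, F, f) + 2 κ₃(Cov(C, g|p), F, f)`. -/
theorem DJ_FF (p : X → Y) (w C g : X → ℝ) (l : List (Y → ℝ)) :
    DJ p w C [[g], [g]] l = CJ p w [[C], [g], [g]] l + 2 * CJ p w [[C, g], [g]] l := by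
  have e : CJ p w [[g], [C, g]] l = CJ p w [[C, g], [g]] l := CJ_perm p w (List.Perm.swap _ _ _) l
  simp only [DJ, djs, List.nil_append, List.cons_append, add_zero]
  rw [e]
  ring

/-- `D_C Cov(V, f) = κ₃(G[C|p], V, f) + Cov(κ₃(C, g, g|p), f)`. -/
theorem DJ_V (p : X → Y) (w C g : X → ℝ) (l : List (Y → ℝ)) :
    DJ p w C [[g, g]] l = CJ p w [[C], [g, g]] l + CJ p w [[C, g, g]] l := by
  simp [DJ, djs]

/-- `D_C κ₃(V, F, f) = κ₄(G[C|p], V, F, f) + κ₃(κ₃(C, g, g|p), F, f) + κ₃(V, Cov(C, g|p), f)`. -/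
theorem DJ_VF (p : X → Y) (w C g : X → ℝ) (l : List (Y → ℝ)) :
    DJ p w C [[g, g], [g]] l = CJ p w [[C], [g, g], [g]] l + CJ p w [[C, g, g], [g]] l + CJ p w [[g, g], [C, g]] l := by
  simp only [DJ, djs, List.nil_append, List.cons_append, add_zero]
  ring

/-- `D_C Cov(κ₃(g|p), f)`. -/
theorem DJ_K (p : X → Y) (w C g : X → ℝ) (l : List (Y → ℝ)) :
    DJ p w C [[g, g, g]] l = CJ p w [[C], [g, g, g]] l + CJ p w [[C, g, g, g]] l := by
  simp [DJ, djs]

/-- The first two steps of the cross term, `Ψ = κ₃(F, F, f)`: the `t`-derivative minus the slab derivative. -/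
theorem step_FF {p : X → Y} (hp : Function.Surjective p) (w C g : X → ℝ) (l : List (Y → ℝ)) :
    CJ p w [[g], [g], [g]] l + 2 * CJ p w [[g, g], [g]] l = DJ p w C [[g], [g]] l +
      (CJ p w [[g - C], [g], [g]] l + 2 * CJ p w [[g - C, g], [g]] l) := by
  rw [← DJ_FF p w g g l, ← DJ_FF p w (g - C) g l, DJ_sub hp]
  ring

/-- `κ₃(F, F, f) = D_C Cov(F, f) - Cov(Cov(C, g|p), f) + κ₃(G[g - C|p], F, f)`. -/
theorem step_F {p : X → Y} (hp : Function.Surjective p) (w C g : X → ℝ) (l : List (Y → ℝ)) :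
    CJ p w [[g], [g]] l = DJ p w C [[g]] l - CJ p w [[C, g]] l + CJ p w [[g - C], [g]] l := by
  rw [DJ_F, CJ_head_sub hp]
  ring

/-- `κ₃(V, F, f) = D_C Cov(V, f) - Cov(κ₃(C, g, g|p), f) + κ₃(G[g - C|p], V, f)`. -/
theorem step_V {p : X → Y} (hp : Function.Surjective p) (w C g : X → ℝ) (l : List (Y → ℝ)) :
    CJ p w [[g, g], [g]] l = DJ p w C [[g, g]] l - CJ p w [[C, g, g]] l + CJ p w [[g - C], [g, g]] l := by
  have e : CJ p w [[g, g], [g]] l = CJ p w [[g], [g, g]] l := CJ_perm p w (List.Perm.swap _ _ _) l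
  rw [DJ_V, CJ_head_sub hp, e]
  ring

/-! ### In expectation -/

section Exp

open Pool.Agent.W_7d29a1_F Pool.Agent.W_7d29a1_C0.H32 Pool.W7d29a1.C0.H19

variable {μ : Measure ℝ} {f f' : ℝ → ℝ}

/-- Derivative along one site of the slab. -/
theorem hasDerivAt_CJ_site {p : X → Y} (hp : Function.Surjective p) {q : Pt} {w : Env → X → ℝ} {N : X → ℝ}
    (hw : ∀ (η : Env) (x : ℝ), HasDerivAt (fun t => w (Function.update η q t)) N x)
    {ls : Env → List (List (X → ℝ))} (hls : ∀ (η : Env) (x : ℝ), ls (Function.update η q x) = ls η)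
    {l : Env → List (Y → ℝ)} (hl : ∀ (η : Env) (x : ℝ), l (Function.update η q x) = l η) (η : Env) (x : ℝ) :
    HasDerivAt (fun t => CJ p (w (Function.update η q t)) (ls (Function.update η q t)) (l (Function.update η q t)))
      (DJ p (w (Function.update η q x)) N (ls (Function.update η q x)) (l (Function.update η q x))) x := by
  have e1 : ∀ t : ℝ, ls (Function.update η q t) = ls η := fun t => hls η t
  have e2 : ∀ t : ℝ, l (Function.update η q t) = l η := fun t => hl η t
  simp only [e1, e2]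
  exact hasDerivAt_CJ hp (hw η x) (ls η) (l η)

theorem DJ_Cf (S : Finset Pt) (c : Pt → Env → ℝ) (N : Pt → X → ℝ) (η : Env) {p : X → Y}
    (hp : Function.Surjective p) (w : X → ℝ)
    (ls : List (List (X → ℝ))) (l : List (Y → ℝ)) :
    DJ p w (Cf S c N η) ls l = ∑ q ∈ S, c q η * DJ p w (N q) ls l := by
  unfold Cf
  rw [DJ_sum _ hp]
  exact Finset.sum_congr rfl fun q _ => DJ_smul hp w _ _ _ _

/-- **The slab derivative of a block functional**: `E D_C Φ = E Φ δ(C)`, where `Φ = CJ` may see the slab through the weights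
(the slab may lie inside the block). -/
theorem slab_CJ [IsProbabilityMeasure μ] (h : DenLaw μ f f') {S : Finset Pt} {c : Pt → Env → ℝ} {M : ℝ} (b : BF S c M)
    {p : X → Y} (hp : Function.Surjective p) {w : Env → X → ℝ} {N : Pt → X → ℝ}
    (hw : ∀ q ∈ S, ∀ (η : Env) (x : ℝ), HasDerivAt (fun t => w (Function.update η q t)) (N q) x)
    {ls : Env → List (List (X → ℝ))} (hls : ∀ q ∈ S, ∀ (η : Env) (x : ℝ), ls (Function.update η q x) = ls η)
    {l : Env → List (Y → ℝ)} (hl : ∀ q ∈ S, ∀ (η : Env) (x : ℝ), l (Function.update η q x) = l η)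
    (m0 : MemLp (fun η => CJ p (w η) (ls η) (l η)) 2 (law μ))
    (m1 : ∀ q ∈ S, MemLp (fun η => DJ p (w η) (N q) (ls η) (l η)) 2 (law μ)) :
    ∫ η, DJ p (w η) (Cf S c N η) (ls η) (l η) ∂(law μ) = ∫ η, CJ p (w η) (ls η) (l η) * SS (sc f f') S c η ∂(law μ) := by
  obtain ⟨K, θ0, hs⟩ := h.sg
  have one : MemLp (fun _ : Env => (1 : ℝ)) 2 (law μ) := memLp_const 1
  have i0 : ∀ q ∈ S, Integrable (fun η => c q η * CJ p (w η) (ls η) (l η)) (law μ) := fun q hq => by
    have := (memLp_bd (b.meas q hq) (b.bd q hq) one).integrable_mul m0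
    refine this.congr (ae_of_all _ fun η => ?_)
    show c q η * 1 * CJ p (w η) (ls η) (l η) = _
    ring
  have i1 : ∀ q ∈ S, Integrable (fun η => c q η * DJ p (w η) (N q) (ls η) (l η)) (law μ) := fun q hq => by
    have := (memLp_bd (b.meas q hq) (b.bd q hq) one).integrable_mul (m1 q hq)
    refine this.congr (ae_of_all _ fun η => ?_)
    show c q η * 1 * DJ p (w η) (N q) (ls η) (l η) = _
    ring
  have i2 : ∀ q ∈ S, Integrable (fun η => c q η * CJ p (w η) (ls η) (l η) * sc f f' (η q)) (law μ) := fun q hq => by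
    have := m0.integrable_mul (memLp_SS hs (b.single hq))
    refine this.congr (ae_of_all _ fun η => ?_)
    show CJ p (w η) (ls η) (l η) * SS (sc f f') {q} c η = _
    rw [SS_single]
    ring
  have key := h.ibp_slab S (c := c) (Φ := fun η => CJ p (w η) (ls η) (l η))
    (Φ' := fun q η => DJ p (w η) (N q) (ls η) (l η)) b.self
    (fun q hq η x => hasDerivAt_CJ_site hp (hw q hq) (hls q hq) (hl q hq) η x) i0 i1 i2
  rw [← key]
  exact integral_congr_ae (ae_of_all _ fun η => DJ_Cf S c N η hp (w η) (ls η) (l η))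

/-- **The second slab** (behind the first one): `E (D_C' Φ) δ(C) = E Φ δ(C) δ(C')`, if the first field does not see the second
slab. -/
theorem slab_CJ_two [IsProbabilityMeasure μ] (h : DenLaw μ f f') {S1 S2 : Finset Pt} (hd : Disjoint S1 S2)
    {c1 c2 : Pt → Env → ℝ} {M1 M2 : ℝ} (b1 : BF S1 c1 M1) (b2 : BF S2 c2 M2)
    (h12 : ∀ q1 ∈ S1, ∀ q2 ∈ S2, ∀ (η : Env) (x : ℝ), c1 q1 (Function.update η q2 x) = c1 q1 η)
    {p : X → Y} (hp : Function.Surjective p) {w : Env → X → ℝ} {N : Pt → X → ℝ}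
    (hw : ∀ q ∈ S2, ∀ (η : Env) (x : ℝ), HasDerivAt (fun t => w (Function.update η q t)) (N q) x)
    {ls : Env → List (List (X → ℝ))} (hls : ∀ q ∈ S2, ∀ (η : Env) (x : ℝ), ls (Function.update η q x) = ls η)
    {l : Env → List (Y → ℝ)} (hl : ∀ q ∈ S2, ∀ (η : Env) (x : ℝ), l (Function.update η q x) = l η)
    (m0 : MemLp (fun η => CJ p (w η) (ls η) (l η)) 2 (law μ))
    (m1 : ∀ q ∈ S2, MemLp (fun η => DJ p (w η) (N q) (ls η) (l η)) 2 (law μ)) :
    ∫ η, DJ p (w η) (Cf S2 c2 N η) (ls η) (l η) * SS (sc f f') S1 c1 η ∂(law μ) =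
      ∫ η, CJ p (w η) (ls η) (l η) * (SS (sc f f') S1 c1 η * SS (sc f f') S2 c2 η) ∂(law μ) := by
  obtain ⟨K, θ0, hs⟩ := h.sg
  set s : ℝ → ℝ := sc f f' with hsdef
  have hbl : ∀ q2 ∈ S2, ∀ (η : Env) (x : ℝ), SS s S1 c1 (Function.update η q2 x) = SS s S1 c1 η := fun q2 hq2 η x => by
    unfold SS
    refine Finset.sum_congr rfl fun q1 hq1 => ?_
    have hne : q1 ≠ q2 := by rintro rfl; exact Finset.disjoint_left.1 hd hq1 hq2
    rw [h12 q1 hq1 q2 hq2, Function.update_of_ne hne]
  have i0 : ∀ q ∈ S2, Integrable (fun η => c2 q η * (CJ p (w η) (ls η) (l η) * SS s S1 c1 η)) (law μ) := fun q hq => by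
    have := m0.integrable_mul (memLp_bd (b2.meas q hq) (b2.bd q hq) (memLp_SS hs b1))
    refine this.congr (ae_of_all _ fun η => ?_)
    show CJ p (w η) (ls η) (l η) * (c2 q η * SS s S1 c1 η) = _
    ring
  have i1 : ∀ q ∈ S2, Integrable (fun η => c2 q η * (DJ p (w η) (N q) (ls η) (l η) * SS s S1 c1 η)) (law μ) :=
    fun q hq => by
      have := (m1 q hq).integrable_mul (memLp_bd (b2.meas q hq) (b2.bd q hq) (memLp_SS hs b1))
      refine this.congr (ae_of_all _ fun η => ?_)
      show DJ p (w η) (N q) (ls η) (l η) * (c2 q η * SS s S1 c1 η) = _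
      ring
  have i2 : ∀ q ∈ S2, Integrable (fun η => c2 q η * (CJ p (w η) (ls η) (l η) * SS s S1 c1 η) * s (η q)) (law μ) :=
    fun q hq => by
      have := m0.integrable_mul (memLp_SS_mul hs b1 (b2.single hq))
      refine this.congr (ae_of_all _ fun η => ?_)
      show CJ p (w η) (ls η) (l η) * (SS s S1 c1 η * SS s {q} c2 η) = _
      rw [SS_single]
      ring
  have key := h.ibp_slab S2 (c := c2) (Φ := fun η => CJ p (w η) (ls η) (l η) * SS s S1 c1 η)
    (Φ' := fun q η => DJ p (w η) (N q) (ls η) (l η) * SS s S1 c1 η) b2.self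
    (fun q hq η x => by
      have e : ∀ t : ℝ, SS s S1 c1 (Function.update η q t) = SS s S1 c1 η := fun t => hbl q hq η t
      simp only [e]
      exact (hasDerivAt_CJ_site hp (hw q hq) (hls q hq) (hl q hq) η x).mul_const _) i0 i1 i2
  have e1 : ∀ η, ∑ q ∈ S2, c2 q η * (DJ p (w η) (N q) (ls η) (l η) * SS s S1 c1 η) =
      DJ p (w η) (Cf S2 c2 N η) (ls η) (l η) * SS s S1 c1 η := fun η => by
    rw [DJ_Cf _ _ _ _ hp, Finset.sum_mul]
    exact Finset.sum_congr rfl fun q _ => by ring
  simp_rw [e1] at key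
  rw [key]
  exact integral_congr_ae (ae_of_all _ fun η => by
    show CJ p (w η) (ls η) (l η) * SS s S1 c1 η * SS s S2 c2 η = _
    ring)

end Exp

end

end Pool.W7d29a1.C0
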