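import Pool.Agent.W_7d29a1_C0.Box41
import Pool.Agent.W_7d29a1_C0.SlabD82
import Pool.Agent.W_7d29a1_F.CoreB1

/-!
CURV0 (MP_7d29a1_pr), section SM: the BACKWARD slab. A backward field `c` over the slab `S` (`BB`): the coefficient `c p` does
not see the sites of `S` in the rows `≤ p.1` (it is a functional of the environment to the right of `p`). Everything which is
on main for the forward fields (`BF`: integration by parts for replica functionals and for the conditional cumulants, the two slab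
form, the tail estimates of one and two score sums, the localised slab derivative `box_one`) holds for the backward ones: the
reflection `rf Z η p = η (Z - p)` of the environment preserves the law and turns `BB` into `BF`. (helper63)
-/

set_option autoImplicit false
set_option linter.unusedSectionVars false
set_option linter.unusedVariables false

namespace Pool.W7d29a1.C0.R63

open MeasureTheory ProbabilityTheory Filter Topology
open Pool.Agent.W_7d29a1_F Pool.Agent.W_7d29a1_C0.H32 Pool.W7d29a1.C0 Pool.W7d29a1.C0.H19 Pool.W7d29a1.C0.H41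

noncomputable section

variable {μ : Measure ℝ} {f f' : ℝ → ℝ}

/-- The reflected environment. -/
def rf (Z : Pt) (η : Env) : Env := fun p => η (Z - p)

theorem rf_rf (Z : Pt) (η : Env) : rf Z (rf Z η) = η := by
  funext p
  unfold rf
  rw [sub_sub_cancel]

theorem rf_apply (Z : Pt) (η : Env) (p : Pt) : rf Z η p = η (Z - p) := rfl

theorem rf_update (Z : Pt) (η : Env) (q : Pt) (x : ℝ) :
    rf Z (Function.update η q x) = Function.update (rf Z η) (Z - q) x := by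
  funext p
  unfold rf
  by_cases h : p = Z - q
  · subst h
    rw [sub_sub_cancel, Function.update_self, Function.update_self]
  · have h1 : Z - p ≠ q := fun h2 => h (by rw [← h2, sub_sub_cancel])
    rw [Function.update_of_ne h1, Function.update_of_ne h]

theorem rf_update' (Z : Pt) (η : Env) (q : Pt) (x : ℝ) :
    rf Z (Function.update η (Z - q) x) = Function.update (rf Z η) q x := by
  rw [rf_update, sub_sub_cancel]

theorem mp_rf [IsProbabilityMeasure μ] (Z : Pt) : MeasurePreserving (rf Z) (law μ) (law μ) := mp_neg Z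

theorem meas_rf (Z : Pt) : Measurable (rf Z) :=
  measurable_pi_lambda _ fun p => measurable_pi_apply (Z - p)

/-- The reflection as an equivalence. -/
def rfE (Z : Pt) : Env ≃ᵐ Env where
  toFun := rf Z
  invFun := rf Z
  left_inv := rf_rf Z
  right_inv := rf_rf Z
  measurable_toFun := meas_rf Z
  measurable_invFun := meas_rf Z

theorem int_rf [IsProbabilityMeasure μ] (Z : Pt) (F : Env → ℝ) : ∫ η, F (rf Z η) ∂(law μ) = ∫ η, F η ∂(law μ) :=
  (mp_rf Z).integral_comp (rfE Z).measurableEmbedding F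

theorem integrable_rf [IsProbabilityMeasure μ] (Z : Pt) {F : Env → ℝ} (h : Integrable F (law μ)) :
    Integrable (fun η => F (rf Z η)) (law μ) := (mp_rf Z).integrable_comp_of_integrable h

theorem memLp_rf [IsProbabilityMeasure μ] (Z : Pt) {F : Env → ℝ} {p : ENNReal} (h : MemLp F p (law μ)) :
    MemLp (fun η => F (rf Z η)) p (law μ) := h.comp_measurePreserving (mp_rf Z)

/-! ### Backward fields -/

/-- A bounded backward predictable field over the sites `S`. -/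
structure BB (S : Finset Pt) (c : Pt → Env → ℝ) (M : ℝ) : Prop where
  meas : ∀ p ∈ S, Measurable (c p)
  pred : ∀ p ∈ S, ∀ q ∈ S, q.1 ≤ p.1 → ∀ (η : Env) (x : ℝ), c p (Function.update η q x) = c p η
  bd : ∀ p ∈ S, ∀ η, |c p η| ≤ M

/-- The reflected slab. -/
def rS (Z : Pt) (S : Finset Pt) : Finset Pt := S.map ⟨fun p => Z - p, sub_right_injective⟩

theorem mem_rS {Z : Pt} {S : Finset Pt} {p : Pt} : p ∈ rS Z S ↔ Z - p ∈ S := by
  unfold rS
  rw [Finset.mem_map]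
  constructor
  · rintro ⟨q, hq, rfl⟩
    simpa using hq
  · intro h
    exact ⟨Z - p, h, by simp⟩

theorem sum_rS (Z : Pt) (S : Finset Pt) {A : Type*} [AddCommMonoid A] (F : Pt → A) :
    ∑ p ∈ rS Z S, F p = ∑ p ∈ S, F (Z - p) := by
  unfold rS
  rw [Finset.sum_map]
  rfl

theorem card_rS (Z : Pt) (S : Finset Pt) : (rS Z S).card = S.card := Finset.card_map _

theorem rS_rS (Z : Pt) (S : Finset Pt) : rS Z (rS Z S) = S := by
  ext p
  rw [mem_rS, mem_rS, sub_sub_cancel]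

theorem disj_rS {Z : Pt} {S1 S2 : Finset Pt} (h : Disjoint S1 S2) : Disjoint (rS Z S1) (rS Z S2) := by
  rw [Finset.disjoint_left] at h ⊢
  intro p h1 h2
  exact h (mem_rS.1 h1) (mem_rS.1 h2)

/-- The reflected field. -/
def rc (Z : Pt) (c : Pt → Env → ℝ) : Pt → Env → ℝ := fun p η => c (Z - p) (rf Z η)

theorem BB.refl {S : Finset Pt} {c : Pt → Env → ℝ} {M : ℝ} (h : BB S c M) (Z : Pt) : BF (rS Z S) (rc Z c) M := by
  refine ⟨fun p hp => (h.meas _ (mem_rS.1 hp)).comp (meas_rf Z), fun p hp q hq hle η x => ?_,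
    fun p hp η => h.bd _ (mem_rS.1 hp) _⟩
  unfold rc
  rw [rf_update]
  exact h.pred _ (mem_rS.1 hp) _ (mem_rS.1 hq) (by simp only [Prod.fst_sub]; omega) _ _

theorem BB.self {S : Finset Pt} {c : Pt → Env → ℝ} {M : ℝ} (h : BB S c M) :
    ∀ p ∈ S, ∀ η x, c p (Function.update η p x) = c p η := fun p hp η x => h.pred p hp p hp le_rfl η x

theorem SS_rc (s : ℝ → ℝ) (Z : Pt) (S : Finset Pt) (c : Pt → Env → ℝ) (η : Env) :
    SS s (rS Z S) (rc Z c) η = SS s S c (rf Z η) := by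
  unfold SS rc
  rw [sum_rS]
  refine Finset.sum_congr rfl fun p _ => ?_
  rw [sub_sub_cancel, rf_apply]

theorem SS_rc' (s : ℝ → ℝ) (Z : Pt) (S : Finset Pt) (c : Pt → Env → ℝ) (η : Env) :
    SS s (rS Z S) (rc Z c) (rf Z η) = SS s S c η := by
  rw [SS_rc, rf_rf]

theorem sq_rc {Z : Pt} {S : Finset Pt} {c : Pt → Env → ℝ} {B : ℝ} (h : ∀ η, ∑ p ∈ S, c p η ^ 2 ≤ B) (η : Env) :
    ∑ p ∈ rS Z S, rc Z c p η ^ 2 ≤ B := by
  rw [sum_rS]
  unfold rc
  simp only [sub_sub_cancel]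
  exact h _

theorem Cf_rc {X : Type*} [Fintype X] [Nonempty X] (Z : Pt) (S : Finset Pt) (c : Pt → Env → ℝ) (N : Pt → X → ℝ) (η : Env) :
    Cf (rS Z S) (rc Z c) (fun p => N (Z - p)) η = Cf S c N (rf Z η) := by
  unfold Cf rc
  rw [sum_rS]
  refine Finset.sum_congr rfl fun p _ => ?_
  simp only [sub_sub_cancel]

/-! ### Moments -/

section Mom

variable [IsProbabilityMeasure μ]

theorem BB.memLp_SS {s : ℝ → ℝ} {K θ0 : ℝ} (hs : SG μ s K θ0) {S : Finset Pt} {c : Pt → Env → ℝ} {M : ℝ} (h : BB S c M) :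
    MemLp (SS s S c) 2 (law μ) := by
  have h1 := memLp_rf (0 : Pt) (H19.memLp_SS hs (h.refl 0))
  have e : (fun η => SS s (rS 0 S) (rc 0 c) (rf 0 η)) = SS s S c := funext fun η => SS_rc' s 0 S c η
  rwa [e] at h1

theorem BB.memLp_SS_mul {s : ℝ → ℝ} {K θ0 : ℝ} (hs : SG μ s K θ0) {S S' : Finset Pt} {c c' : Pt → Env → ℝ} {M M' : ℝ}
    (h : BB S c M) (h' : BB S' c' M') : MemLp (fun η => SS s S c η * SS s S' c' η) 2 (law μ) := by
  have h1 := memLp_rf (0 : Pt) (H19.memLp_SS_mul hs (h.refl 0) (h'.refl 0))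
  have e : (fun η => SS s (rS 0 S) (rc 0 c) (rf 0 η) * SS s (rS 0 S') (rc 0 c') (rf 0 η)) =
      fun η => SS s S c η * SS s S' c' η := funext fun η => by rw [SS_rc', SS_rc']
  rwa [e] at h1

/-- **One score factor** of a backward field. -/
theorem est_oneB {s : ℝ → ℝ} {K θ0 : ℝ} (hs : SG μ s K θ0) {S : Finset Pt} {c : Pt → Env → ℝ} {M : ℝ}
    (b : BB S c M) (hM : 0 ≤ M) {t B a D : ℝ} (ht : 0 < t) (htM : t * M ≤ θ0) (hB : ∀ η, ∑ p ∈ S, c p η ^ 2 ≤ B)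
    {Ψ : Env → ℝ} (m0 : Integrable Ψ (law μ)) (hD : ∀ η, |Ψ η| ≤ D) :
    |∫ η, Ψ η * SS s S c η ∂(law μ)| ≤ a * ∫ η, |Ψ η| ∂(law μ) +
      D * (2 / t * Real.exp (-(t * a / 2)) * (2 * Real.exp (K * t ^ 2 * B))) := by
  have h1 := H19.est_one hs (b.refl 0) hM ht htM (sq_rc hB) (a := a) (integrable_rf 0 m0) fun η => hD _
  have e1 : ∫ η, Ψ (rf 0 η) * SS s (rS 0 S) (rc 0 c) η ∂(law μ) = ∫ η, Ψ η * SS s S c η ∂(law μ) := by
    simp_rw [SS_rc]
    exact int_rf 0 fun η => Ψ η * SS s S c η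
  have e2 : ∫ η, |Ψ (rf 0 η)| ∂(law μ) = ∫ η, |Ψ η| ∂(law μ) := int_rf 0 fun η => |Ψ η|
  rwa [e1, e2] at h1

/-- **Two score factors** of backward fields. -/
theorem est_twoB {s : ℝ → ℝ} {K θ0 : ℝ} (hs : SG μ s K θ0) {S1 S2 : Finset Pt} {c1 c2 : Pt → Env → ℝ} {M1 M2 : ℝ}
    (b1 : BB S1 c1 M1) (b2 : BB S2 c2 M2) (p1 : 0 ≤ M1) (p2 : 0 ≤ M2) {t1 t2 B1 B2 a1 a2 D : ℝ} (q1 : 0 < t1) (q2 : 0 < t2)
    (r1 : 2 * t1 * M1 ≤ θ0) (r2 : 2 * t2 * M2 ≤ θ0) (hB1 : ∀ η, ∑ p ∈ S1, c1 p η ^ 2 ≤ B1)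
    (hB2 : ∀ η, ∑ p ∈ S2, c2 p η ^ 2 ≤ B2) (ha1 : 0 ≤ a1) (ha2 : 0 ≤ a2) {Ψ : Env → ℝ} (m0 : Integrable Ψ (law μ))
    (hD : ∀ η, |Ψ η| ≤ D) :
    |∫ η, Ψ η * (SS s S1 c1 η * SS s S2 c2 η) ∂(law μ)| ≤ a1 * a2 * ∫ η, |Ψ η| ∂(law μ) +
      D * ((Real.exp (-(t1 * a1 / 2)) + Real.exp (-(t2 * a2 / 2))) / (t1 * t2) *
        (2 * Real.exp (4 * K * t1 ^ 2 * B1) + 2 * Real.exp (4 * K * t2 ^ 2 * B2))) := by
  have h1 := H19.est_two hs (b1.refl 0) (b2.refl 0) p1 p2 q1 q2 r1 r2 (sq_rc hB1) (sq_rc hB2) ha1 ha2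
    (integrable_rf 0 m0) fun η => hD _
  have e1 : ∫ η, Ψ (rf 0 η) * (SS s (rS 0 S1) (rc 0 c1) η * SS s (rS 0 S2) (rc 0 c2) η) ∂(law μ) =
      ∫ η, Ψ η * (SS s S1 c1 η * SS s S2 c2 η) ∂(law μ) := by
    simp_rw [SS_rc]
    exact int_rf 0 fun η => Ψ η * (SS s S1 c1 η * SS s S2 c2 η)
  have e2 : ∫ η, |Ψ (rf 0 η)| ∂(law μ) = ∫ η, |Ψ η| ∂(law μ) := int_rf 0 fun η => |Ψ η|
  rwa [e1, e2] at h1

/-- A forward and a backward score factor (slabs on the two sides of a row). -/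
theorem est_twoFB {s : ℝ → ℝ} {K θ0 : ℝ} (hs : SG μ s K θ0) {S1 S2 : Finset Pt} {c1 c2 : Pt → Env → ℝ} {M1 M2 : ℝ}
    (b1 : BF S1 c1 M1) (b2 : BB S2 c2 M2) (p1 : 0 ≤ M1) (p2 : 0 ≤ M2) {t1 t2 B1 B2 a1 a2 D : ℝ} (q1 : 0 < t1) (q2 : 0 < t2)
    (r1 : 2 * t1 * M1 ≤ θ0) (r2 : 2 * t2 * M2 ≤ θ0) (hB1 : ∀ η, ∑ p ∈ S1, c1 p η ^ 2 ≤ B1)
    (hB2 : ∀ η, ∑ p ∈ S2, c2 p η ^ 2 ≤ B2) (ha1 : 0 ≤ a1) (ha2 : 0 ≤ a2) {Ψ : Env → ℝ} (m0 : Integrable Ψ (law μ))
    (hD : ∀ η, |Ψ η| ≤ D) :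
    |∫ η, Ψ η * (SS s S1 c1 η * SS s S2 c2 η) ∂(law μ)| ≤ a1 * a2 * ∫ η, |Ψ η| ∂(law μ) +
      D * ((Real.exp (-(t1 * a1 / 2)) + Real.exp (-(t2 * a2 / 2))) / (t1 * t2) *
        (2 * Real.exp (4 * K * t1 ^ 2 * B1) + 2 * Real.exp (4 * K * t2 ^ 2 * B2))) := by
  have hD0 : 0 ≤ D := (abs_nonneg _).trans (hD (fun _ => 0))
  obtain ⟨i1, j1⟩ := int_exp_SS hs b1 p1 (t := 2 * t1) (by positivity) r1 hB1
  obtain ⟨i2', j2'⟩ := int_exp_SS hs (b2.refl 0) p2 (t := 2 * t2) (by positivity) r2 (sq_rc hB2)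
  have i2 : Integrable (fun η => Real.exp (2 * t2 * |SS s S2 c2 η|)) (law μ) := by
    have := integrable_rf (0 : Pt) i2'
    simp_rw [SS_rc'] at this
    exact this
  have j2 : ∫ η, Real.exp (2 * t2 * |SS s S2 c2 η|) ∂(law μ) ≤ 2 * Real.exp (K * (2 * t2) ^ 2 * B2) := by
    rw [← int_rf (0 : Pt)]
    simp_rw [SS_rc] at j2'
    exact j2'
  have k1 : K * (2 * t1) ^ 2 * B1 = 4 * K * t1 ^ 2 * B1 := by ring
  have k2 : K * (2 * t2) ^ 2 * B2 = 4 * K * t2 ^ 2 * B2 := by ring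
  rw [k1] at j1
  rw [k2] at j2
  set E : ℝ := (Real.exp (-(t1 * a1 / 2)) + Real.exp (-(t2 * a2 / 2))) / (t1 * t2) with hE
  have hE0 : 0 ≤ E := by positivity
  set G : Env → ℝ := fun η => a1 * a2 * |Ψ η| + D * (E * (Real.exp (2 * t1 * |SS s S1 c1 η|) +
    Real.exp (2 * t2 * |SS s S2 c2 η|))) with hG
  have hGi : Integrable G (law μ) := (m0.abs.const_mul _).add (((i1.add i2).const_mul E).const_mul D)
  have hpt : ∀ η, ‖Ψ η * (SS s S1 c1 η * SS s S2 c2 η)‖ ≤ G η := fun η => by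
    rw [Real.norm_eq_abs, abs_mul, abs_mul]
    have h1 := mul_le_tail (x := SS s S1 c1 η) (y := SS s S2 c2 η) q1 q2 ha1 ha2
    have h2 := mul_le_mul_of_nonneg_left h1 (abs_nonneg (Ψ η))
    have h3 : |Ψ η| * (E * (Real.exp (2 * t1 * |SS s S1 c1 η|) + Real.exp (2 * t2 * |SS s S2 c2 η|))) ≤
        D * (E * (Real.exp (2 * t1 * |SS s S1 c1 η|) + Real.exp (2 * t2 * |SS s S2 c2 η|))) :=
      mul_le_mul_of_nonneg_right (hD η) (by positivity)
    show |Ψ η| * (|SS s S1 c1 η| * |SS s S2 c2 η|) ≤ a1 * a2 * |Ψ η| + D * (E * (Real.exp (2 * t1 * |SS s S1 c1 η|) +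
      Real.exp (2 * t2 * |SS s S2 c2 η|)))
    rw [mul_add] at h2
    linarith
  have h5 : ∫ η, G η ∂(law μ) = a1 * a2 * ∫ η, |Ψ η| ∂(law μ) + D * (E * (∫ η, Real.exp (2 * t1 * |SS s S1 c1 η|) ∂(law μ) +
      ∫ η, Real.exp (2 * t2 * |SS s S2 c2 η|) ∂(law μ))) := by
    have e1 : ∫ η, G η ∂(law μ) = ∫ η, a1 * a2 * |Ψ η| ∂(law μ) + ∫ η, D * (E * (Real.exp (2 * t1 * |SS s S1 c1 η|) +
        Real.exp (2 * t2 * |SS s S2 c2 η|))) ∂(law μ) :=
      integral_add (m0.abs.const_mul _) (((i1.add i2).const_mul E).const_mul D)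
    have e2 : ∫ η, (Real.exp (2 * t1 * |SS s S1 c1 η|) + Real.exp (2 * t2 * |SS s S2 c2 η|)) ∂(law μ) =
        ∫ η, Real.exp (2 * t1 * |SS s S1 c1 η|) ∂(law μ) + ∫ η, Real.exp (2 * t2 * |SS s S2 c2 η|) ∂(law μ) :=
      integral_add i1 i2
    rw [e1, integral_const_mul, integral_const_mul, integral_const_mul, e2]
  calc |∫ η, Ψ η * (SS s S1 c1 η * SS s S2 c2 η) ∂(law μ)| ≤ ∫ η, G η ∂(law μ) := by
        rw [← Real.norm_eq_abs]
        exact norm_integral_le_of_norm_le hGi (ae_of_all _ hpt)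
    _ ≤ _ := by
        rw [h5]
        gcongr

end Mom

/-! ### General fields -/

section Gen

variable [IsProbabilityMeasure μ]

/-- A bounded field whose coefficients do not see their own site and whose score sum has all moments: forward and backward
predictable fields. -/
structure GF (μ : Measure ℝ) (s : ℝ → ℝ) (S : Finset Pt) (c : Pt → Env → ℝ) (M : ℝ) : Prop where
  meas : ∀ p ∈ S, Measurable (c p)
  self : ∀ p ∈ S, ∀ (η : Env) (x : ℝ), c p (Function.update η p x) = c p η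
  bd : ∀ p ∈ S, ∀ η, |c p η| ≤ M
  mom : ∀ q : ℕ, Integrable (fun η => |SS s S c η| ^ q) (law μ)

theorem _root_.Pool.W7d29a1.C0.H19.BF.gf {s : ℝ → ℝ} {K θ0 : ℝ} (hs : SG μ s K θ0) {S : Finset Pt} {c : Pt → Env → ℝ} {M : ℝ}
    (h : BF S c M) : GF μ s S c M := ⟨h.meas, h.self, h.bd, int_SS_pow hs h⟩

theorem BB.gf {s : ℝ → ℝ} {K θ0 : ℝ} (hs : SG μ s K θ0) {S : Finset Pt} {c : Pt → Env → ℝ} {M : ℝ} (h : BB S c M) :
    GF μ s S c M := by
  refine ⟨h.meas, h.self, h.bd, fun q => ?_⟩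
  have h1 := integrable_rf (0 : Pt) (int_SS_pow hs (h.refl 0) q)
  simp_rw [SS_rc'] at h1
  exact h1

theorem GF.aesm {s : ℝ → ℝ} (hs : Measurable s) {S : Finset Pt} {c : Pt → Env → ℝ} {M : ℝ} (h : GF μ s S c M) :
    AEStronglyMeasurable (SS s S c) (law μ) := (SS_meas hs h.meas).aestronglyMeasurable

theorem GF.memLp {s : ℝ → ℝ} (hs : Measurable s) {S : Finset Pt} {c : Pt → Env → ℝ} {M : ℝ} (h : GF μ s S c M) :
    MemLp (SS s S c) 2 (law μ) := by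
  rw [memLp_two_iff_integrable_sq (h.aesm hs)]
  refine (h.mom 2).congr (ae_of_all _ fun η => ?_)
  show |SS s S c η| ^ 2 = SS s S c η ^ 2
  rw [sq_abs]

theorem GF.memLp_mul {s : ℝ → ℝ} (hs : Measurable s) {S S' : Finset Pt} {c c' : Pt → Env → ℝ} {M M' : ℝ}
    (h : GF μ s S c M) (h' : GF μ s S' c' M') : MemLp (fun η => SS s S c η * SS s S' c' η) 2 (law μ) := by
  have hm : AEStronglyMeasurable (fun η => SS s S c η * SS s S' c' η) (law μ) := (h.aesm hs).mul (h'.aesm hs)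
  rw [memLp_two_iff_integrable_sq hm]
  refine ((h.mom 4).add (h'.mom 4)).mono' (hm.pow 2) (ae_of_all _ fun η => ?_)
  rw [Real.norm_eq_abs, abs_of_nonneg (sq_nonneg _)]
  show (SS s S c η * SS s S' c' η) ^ 2 ≤ |SS s S c η| ^ 4 + |SS s S' c' η| ^ 4
  have e : ∀ a : ℝ, |a| ^ 4 = (a ^ 2) ^ 2 := fun a => by
    rw [← abs_pow, abs_of_nonneg (by positivity : (0 : ℝ) ≤ a ^ 4)]; ring
  rw [e, e, mul_pow]
  nlinarith [sq_nonneg (SS s S c η ^ 2 - SS s S' c' η ^ 2), sq_nonneg (SS s S c η ^ 2), sq_nonneg (SS s S' c' η ^ 2)]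

/-- One site of a general field is a forward field. -/
theorem GF.single {s : ℝ → ℝ} {S : Finset Pt} {c : Pt → Env → ℝ} {M : ℝ} (h : GF μ s S c M) {p : Pt} (hp : p ∈ S) :
    BF {p} c M := by
  refine ⟨fun q hq => ?_, fun q hq q' hq' hle η x => ?_, fun q hq η => ?_⟩
  · rw [Finset.mem_singleton] at hq
    rw [hq]
    exact h.meas p hp
  · rw [Finset.mem_singleton] at hq hq'
    rw [hq, hq']
    exact h.self p hp η x
  · rw [Finset.mem_singleton] at hq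
    rw [hq]
    exact h.bd p hp η

/-- **Integration by parts over a slab**, abstract form, any direction: `Φ' p` is the derivative of `Φ` along the site `p`. -/
theorem slab1 (h : DenLaw μ f f') {S : Finset Pt} {c : Pt → Env → ℝ} {M : ℝ} (b : GF μ (sc f f') S c M) {Φ : Env → ℝ}
    {Φ' : Pt → Env → ℝ}
    (hΦ : ∀ p ∈ S, ∀ (η : Env) (x : ℝ), HasDerivAt (fun t => Φ (Function.update η p t)) (Φ' p (Function.update η p x)) x)
    (m0 : MemLp Φ 2 (law μ)) (m1 : ∀ p ∈ S, MemLp (Φ' p) 2 (law μ)) :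
    ∫ η, ∑ p ∈ S, c p η * Φ' p η ∂(law μ) = ∫ η, Φ η * SS (sc f f') S c η ∂(law μ) := by
  obtain ⟨K, θ0, hs⟩ := h.sg
  have one : MemLp (fun _ : Env => (1 : ℝ)) 2 (law μ) := memLp_const 1
  refine h.ibp_slab S b.self hΦ (fun q hq => ?_) (fun q hq => ?_) fun q hq => ?_
  · have := (memLp_bd (b.meas q hq) (b.bd q hq) one).integrable_mul m0
    refine this.congr (ae_of_all _ fun η => ?_)
    show c q η * 1 * Φ η = _
    ring
  · have := (memLp_bd (b.meas q hq) (b.bd q hq) one).integrable_mul (m1 q hq)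
    refine this.congr (ae_of_all _ fun η => ?_)
    show c q η * 1 * Φ' q η = _
    ring
  · have := m0.integrable_mul (H19.memLp_SS hs (b.single hq))
    refine this.congr (ae_of_all _ fun η => ?_)
    show Φ η * SS (sc f f') {q} c η = _
    rw [SS_single]
    ring

/-- **The two slab form**, abstract, any two directions: `c1` is blind on the second slab. -/
theorem slab2 (h : DenLaw μ f f') {S1 S2 : Finset Pt} (hd : Disjoint S1 S2) {c1 c2 : Pt → Env → ℝ} {M1 M2 : ℝ}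
    (b1 : GF μ (sc f f') S1 c1 M1) (b2 : GF μ (sc f f') S2 c2 M2)
    (h12 : ∀ q1 ∈ S1, ∀ q2 ∈ S2, ∀ (η : Env) (x : ℝ), c1 q1 (Function.update η q2 x) = c1 q1 η) {Φ : Env → ℝ}
    {Φ' : Pt → Env → ℝ}
    (hΦ : ∀ p ∈ S2, ∀ (η : Env) (x : ℝ), HasDerivAt (fun t => Φ (Function.update η p t)) (Φ' p (Function.update η p x)) x)
    (m0 : MemLp Φ 2 (law μ)) (m1 : ∀ p ∈ S2, MemLp (Φ' p) 2 (law μ)) :
    ∫ η, (∑ p ∈ S2, c2 p η * Φ' p η) * SS (sc f f') S1 c1 η ∂(law μ) =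
      ∫ η, Φ η * (SS (sc f f') S1 c1 η * SS (sc f f') S2 c2 η) ∂(law μ) := by
  obtain ⟨K, θ0, hs⟩ := h.sg
  set s : ℝ → ℝ := sc f f' with hsdef
  have hbl : ∀ q2 ∈ S2, ∀ (η : Env) (x : ℝ), SS s S1 c1 (Function.update η q2 x) = SS s S1 c1 η := fun q2 hq2 η x => by
    unfold SS
    refine Finset.sum_congr rfl fun q1 hq1 => ?_
    have hne : q1 ≠ q2 := by rintro rfl; exact Finset.disjoint_left.1 hd hq1 hq2
    rw [h12 q1 hq1 q2 hq2, Function.update_of_ne hne]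
  have i0 : ∀ q ∈ S2, Integrable (fun η => c2 q η * (Φ η * SS s S1 c1 η)) (law μ) := fun q hq => by
    have := m0.integrable_mul (memLp_bd (b2.meas q hq) (b2.bd q hq) (b1.memLp hs.1))
    refine this.congr (ae_of_all _ fun η => ?_)
    show Φ η * (c2 q η * SS s S1 c1 η) = _
    ring
  have i1 : ∀ q ∈ S2, Integrable (fun η => c2 q η * (Φ' q η * SS s S1 c1 η)) (law μ) := fun q hq => by
    have := (m1 q hq).integrable_mul (memLp_bd (b2.meas q hq) (b2.bd q hq) (b1.memLp hs.1))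
    refine this.congr (ae_of_all _ fun η => ?_)
    show Φ' q η * (c2 q η * SS s S1 c1 η) = _
    ring
  have i2 : ∀ q ∈ S2, Integrable (fun η => c2 q η * (Φ η * SS s S1 c1 η) * s (η q)) (law μ) := fun q hq => by
    have := m0.integrable_mul (GF.memLp_mul hs.1 b1 ((b2.single hq).gf hs))
    refine this.congr (ae_of_all _ fun η => ?_)
    show Φ η * (SS s S1 c1 η * SS s {q} c2 η) = _
    rw [SS_single]
    ring
  have key := h.ibp_slab S2 (c := c2) (Φ := fun η => Φ η * SS s S1 c1 η) (Φ' := fun q η => Φ' q η * SS s S1 c1 η) b2.self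
    (fun q hq η x => by
      have e : ∀ t : ℝ, SS s S1 c1 (Function.update η q t) = SS s S1 c1 η := fun t => hbl q hq η t
      simp only [e]
      exact (hΦ q hq η x).mul_const _) i0 i1 i2
  have e1 : ∀ η, ∑ p ∈ S2, c2 p η * (Φ' p η * SS s S1 c1 η) = (∑ p ∈ S2, c2 p η * Φ' p η) * SS s S1 c1 η := fun η => by
    rw [Finset.sum_mul]
    exact Finset.sum_congr rfl fun p _ => by ring
  simp_rw [e1] at key
  rw [key]
  exact integral_congr_ae (ae_of_all _ fun η => by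
    show Φ η * SS s S1 c1 η * SS s S2 c2 η = Φ η * (SS s S1 c1 η * SS s S2 c2 η)
    ring)

end Gen

/-! ### Conditional cumulants and replica functionals -/

section CJ

variable {X Y : Type*} [Fintype X] [Nonempty X] [Fintype Y] [Nonempty Y] [DecidableEq Y]

/-- `slab_CJ` of SlabD82 for a field of any direction. -/
theorem slab_CJG [IsProbabilityMeasure μ] (h : DenLaw μ f f') {S : Finset Pt} {c : Pt → Env → ℝ} {M : ℝ}
    (b : GF μ (sc f f') S c M)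
    {p : X → Y} (hp : Function.Surjective p) {w : Env → X → ℝ} {N : Pt → X → ℝ}
    (hw : ∀ q ∈ S, ∀ (η : Env) (x : ℝ), HasDerivAt (fun t => w (Function.update η q t)) (N q) x)
    {ls : Env → List (List (X → ℝ))} (hls : ∀ q ∈ S, ∀ (η : Env) (x : ℝ), ls (Function.update η q x) = ls η)
    {l : Env → List (Y → ℝ)} (hl : ∀ q ∈ S, ∀ (η : Env) (x : ℝ), l (Function.update η q x) = l η)
    (m0 : MemLp (fun η => CJ p (w η) (ls η) (l η)) 2 (law μ))
    (m1 : ∀ q ∈ S, MemLp (fun η => DJ p (w η) (N q) (ls η) (l η)) 2 (law μ)) :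
    ∫ η, DJ p (w η) (Cf S c N η) (ls η) (l η) ∂(law μ) = ∫ η, CJ p (w η) (ls η) (l η) * SS (sc f f') S c η ∂(law μ) := by
  rw [← slab1 h b (fun q hq η x => hasDerivAt_CJ_site hp (hw q hq) (hls q hq) (hl q hq) η x) m0 m1]
  exact integral_congr_ae (ae_of_all _ fun η => DJ_Cf S c N η hp (w η) (ls η) (l η))

/-- `slab_CJ_two` of SlabD82 for fields of any directions. -/
theorem slab_CJG_two [IsProbabilityMeasure μ] (h : DenLaw μ f f') {S1 S2 : Finset Pt} (hd : Disjoint S1 S2)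
    {c1 c2 : Pt → Env → ℝ} {M1 M2 : ℝ} (b1 : GF μ (sc f f') S1 c1 M1) (b2 : GF μ (sc f f') S2 c2 M2)
    (h12 : ∀ q1 ∈ S1, ∀ q2 ∈ S2, ∀ (η : Env) (x : ℝ), c1 q1 (Function.update η q2 x) = c1 q1 η)
    {p : X → Y} (hp : Function.Surjective p) {w : Env → X → ℝ} {N : Pt → X → ℝ}
    (hw : ∀ q ∈ S2, ∀ (η : Env) (x : ℝ), HasDerivAt (fun t => w (Function.update η q t)) (N q) x)
    {ls : Env → List (List (X → ℝ))} (hls : ∀ q ∈ S2, ∀ (η : Env) (x : ℝ), ls (Function.update η q x) = ls η)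
    {l : Env → List (Y → ℝ)} (hl : ∀ q ∈ S2, ∀ (η : Env) (x : ℝ), l (Function.update η q x) = l η)
    (m0 : MemLp (fun η => CJ p (w η) (ls η) (l η)) 2 (law μ))
    (m1 : ∀ q ∈ S2, MemLp (fun η => DJ p (w η) (N q) (ls η) (l η)) 2 (law μ)) :
    ∫ η, DJ p (w η) (Cf S2 c2 N η) (ls η) (l η) * SS (sc f f') S1 c1 η ∂(law μ) =
      ∫ η, CJ p (w η) (ls η) (l η) * (SS (sc f f') S1 c1 η * SS (sc f f') S2 c2 η) ∂(law μ) := by
  rw [← slab2 h hd b1 b2 h12 (fun q hq η x => hasDerivAt_CJ_site hp (hw q hq) (hls q hq) (hl q hq) η x) m0 m1]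
  exact integral_congr_ae (ae_of_all _ fun η => by
    show DJ p (w η) (Cf S2 c2 N η) (ls η) (l η) * SS (sc f f') S1 c1 η = _
    rw [DJ_Cf S2 c2 N η hp (w η) (ls η) (l η)])

end CJ

section Rep

variable {X : Type*} [Fintype X] [Nonempty X] {B : Type*} [Fintype B] [DecidableEq B]

/-- The derivatives of a replica functional along the sites of a slab on which `Ψ` is blind. -/
theorem hasDerivAt_rep_site {S : Finset Pt} {w : Env → X → ℝ} {N : Pt → X → ℝ} {V : ℝ} (hw : Wt S w N V) {m : ℕ}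
    {Ψ : Env → (Fin m → X) → ℝ} (hbl : ∀ q ∈ S, ∀ (η : Env) (x : ℝ), Ψ (Function.update η q x) = Ψ η) :
    ∀ q ∈ S, ∀ (η : Env) (x : ℝ), HasDerivAt (fun t => rep m (w (Function.update η q t)) (Ψ (Function.update η q t)))
      (rep (m + 1) (w (Function.update η q x)) (nxt (N q) (Ψ (Function.update η q x)))) x := fun q hq η x => by
  have e : ∀ t : ℝ, Ψ (Function.update η q t) = Ψ η := fun t => hbl q hq η t
  simp only [e]
  exact hasDerivAt_rep_gen m (Ψ η) (hw.der q hq η x)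

/-- **Integration by parts over a slab of any direction** for the replica functional of `Ψ`, `Ψ` blind on the slab. -/
theorem rep_ibpG [IsProbabilityMeasure μ] (h : DenLaw μ f f') {S : Finset Pt} {c : Pt → Env → ℝ} {M V D : ℝ}
    (b : GF μ (sc f f') S c M) {w : Env → X → ℝ} {N : Pt → X → ℝ} (hw : Wt S w N V) {m : ℕ} {Ψ : Env → (Fin m → X) → ℝ}
    (hΨ : Ob Ψ D) (hbl : ∀ q ∈ S, ∀ (η : Env) (x : ℝ), Ψ (Function.update η q x) = Ψ η) :
    ∫ η, rep (m + 1) (w η) (nxt (H19.Cf S c N η) (Ψ η)) ∂(law μ) =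
      ∫ η, rep m (w η) (Ψ η) * SS (sc f f') S c η ∂(law μ) := by
  rw [← slab1 h b (hasDerivAt_rep_site hw hbl)
    (memLp_of_bd (meas_rep hw.meas hΨ.meas) fun η => abs_rep_le_of m (w η) (hΨ.bd η)) fun q hq =>
    memLp_of_bd (meas_rep hw.meas (meas_nxt measurable_const hΨ.meas)) fun η =>
      abs_rep_le_of (m + 1) (w η) fun x => abs_nxt_le (hw.bd q hq) (hΨ.bd η) x]
  exact integral_congr_ae (ae_of_all _ fun η => rep_nxt_Cf S c N η (Ψ η) (w η))

/-- **The two slab form** for replica functionals, any directions. -/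
theorem rep_ibpG_two [IsProbabilityMeasure μ] (h : DenLaw μ f f') {S1 S2 : Finset Pt} (hd : Disjoint S1 S2)
    {c1 c2 : Pt → Env → ℝ} {M1 M2 V D : ℝ} (b1 : GF μ (sc f f') S1 c1 M1) (b2 : GF μ (sc f f') S2 c2 M2)
    (h12 : ∀ q1 ∈ S1, ∀ q2 ∈ S2, ∀ (η : Env) (x : ℝ), c1 q1 (Function.update η q2 x) = c1 q1 η)
    {w : Env → X → ℝ} {N : Pt → X → ℝ} (hw : Wt S2 w N V) {m : ℕ} {Ψ : Env → (Fin m → X) → ℝ}
    (hΨ : Ob Ψ D) (hbl : ∀ q ∈ S2, ∀ (η : Env) (x : ℝ), Ψ (Function.update η q x) = Ψ η) :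
    ∫ η, rep (m + 1) (w η) (nxt (H19.Cf S2 c2 N η) (Ψ η)) * SS (sc f f') S1 c1 η ∂(law μ) =
      ∫ η, rep m (w η) (Ψ η) * (SS (sc f f') S1 c1 η * SS (sc f f') S2 c2 η) ∂(law μ) := by
  rw [← slab2 h hd b1 b2 h12 (hasDerivAt_rep_site hw hbl)
    (memLp_of_bd (meas_rep hw.meas hΨ.meas) fun η => abs_rep_le_of m (w η) (hΨ.bd η)) fun q hq =>
    memLp_of_bd (meas_rep hw.meas (meas_nxt measurable_const hΨ.meas)) fun η =>
      abs_rep_le_of (m + 1) (w η) fun x => abs_nxt_le (hw.bd q hq) (hΨ.bd η) x]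
  exact integral_congr_ae (ae_of_all _ fun η => by
    show rep (m + 1) (w η) (nxt (H19.Cf S2 c2 N η) (Ψ η)) * SS (sc f f') S1 c1 η = _
    rw [rep_nxt_Cf S2 c2 N η (Ψ η) (w η)])

/-- The reflected weights. -/
theorem wt_rf {S : Finset Pt} {w : Env → X → ℝ} {N : Pt → X → ℝ} {V : ℝ} (h : Wt S w N V) (Z : Pt) :
    Wt (rS Z S) (fun η => w (rf Z η)) (fun p => N (Z - p)) V := by
  refine ⟨h.meas.comp (meas_rf Z), fun q hq η x => ?_, fun q hq y => h.bd _ (mem_rS.1 hq) y⟩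
  have e : ∀ t : ℝ, rf Z (Function.update η q t) = Function.update (rf Z η) (Z - q) t := fun t => rf_update Z η q t
  simp only [e]
  exact h.der _ (mem_rS.1 hq) (rf Z η) x

theorem ob_rf {m : ℕ} {Ψ : Env → (Fin m → X) → ℝ} {D : ℝ} (h : Ob Ψ D) (Z : Pt) : Ob (fun η => Ψ (rf Z η)) D :=
  ⟨h.meas.comp (meas_rf Z), fun η x => h.bd _ x⟩

/-- **The localised slab derivative**, one insertion, backward slab. -/
theorem box_oneB [IsProbabilityMeasure μ] (h : DenLaw μ f f') {K θ0 : ℝ} (hs : SG μ (sc f f') K θ0) {S : Finset Pt}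
    {c : Pt → Env → ℝ} {M V D : ℝ} (hc : BB S c M) (hM : 0 ≤ M) {w : Env → X → ℝ} {N : Pt → X → ℝ} (hw : Wt S w N V)
    {m : ℕ} {Ψ : Env → (Fin m → X) → ℝ} (hΨ : Ob Ψ D)
    (hbl : ∀ q ∈ S, ∀ (η : Env) (x : ℝ), Ψ (Function.update η q x) = Ψ η)
    (b : X → B) {χ : (Fin m → B) → Pt → ℝ} (h0 : ∀ β p, 0 ≤ χ β p) (h1 : ∀ β p, χ β p ≤ 1) {t a Q : ℝ} (ht : 0 < t)
    (ha : 0 ≤ a) (htM : t * M ≤ θ0) (hQ : ∀ β η, ∑ p ∈ S, (cut (χ β) c p η) ^ 2 ≤ Q) :
    |∫ η, rep (m + 1) (w η) (nxt (H19.Cf S c N η) (Ψ η)) ∂(law μ)| ≤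
      a * ∫ η, rep m (w η) (fun x => |Ψ η x|) ∂(law μ) +
      (Fintype.card (Fin m → B) : ℝ) * (D * (2 / t * Real.exp (-(t * a / 2)) * (2 * Real.exp (K * t ^ 2 * Q)))) +
      ∫ η, rep (m + 1) (w η) (fun x => |nR b (fun β => H19.Cf S (cut' (χ β) c) N η) (Ψ η) x|) ∂(law μ) := by
  have key := box_one h hs (hc.refl 0) hM (wt_rf hw 0) (ob_rf hΨ 0) (fun q hq η x => by
      show Ψ (rf 0 (Function.update η q x)) = Ψ (rf 0 η)
      rw [rf_update]
      exact hbl _ (mem_rS.1 hq) _ _) b (χ := fun β p => χ β (0 - p)) (fun β p => h0 β _) (fun β p => h1 β _) ht ha htM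
    (Q := Q) (fun β η => by
      have e : cut (fun p => χ β (0 - p)) (rc 0 c) = rc 0 (cut (χ β) c) := rfl
      rw [e]
      exact sq_rc (hQ β) η)
  have e1 : ∫ η, rep (m + 1) (w (rf 0 η)) (nxt (H19.Cf (rS 0 S) (rc 0 c) (fun p => N (0 - p)) η) (Ψ (rf 0 η))) ∂(law μ) =
      ∫ η, rep (m + 1) (w η) (nxt (H19.Cf S c N η) (Ψ η)) ∂(law μ) := by
    simp_rw [Cf_rc]
    exact int_rf 0 fun η => rep (m + 1) (w η) (nxt (H19.Cf S c N η) (Ψ η))
  have e2 : ∫ η, rep m (w (rf 0 η)) (fun x => |Ψ (rf 0 η) x|) ∂(law μ) =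
      ∫ η, rep m (w η) (fun x => |Ψ η x|) ∂(law μ) := int_rf 0 fun η => rep m (w η) fun x => |Ψ η x|
  have e3 : ∫ η, rep (m + 1) (w (rf 0 η)) (fun x => |nR b (fun β => H19.Cf (rS 0 S) (cut' (fun p => χ β (0 - p)) (rc 0 c))
      (fun p => N (0 - p)) η) (Ψ (rf 0 η)) x|) ∂(law μ) =
      ∫ η, rep (m + 1) (w η) (fun x => |nR b (fun β => H19.Cf S (cut' (χ β) c) N η) (Ψ η) x|) ∂(law μ) := by
    have e4 : ∀ (β : Fin m → B) (η : Env), H19.Cf (rS 0 S) (cut' (fun p => χ β (0 - p)) (rc 0 c)) (fun p => N (0 - p)) η =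
        H19.Cf S (cut' (χ β) c) N (rf 0 η) := fun β η => by
      have e5 : cut' (fun p => χ β (0 - p)) (rc 0 c) = rc 0 (cut' (χ β) c) := rfl
      rw [e5, Cf_rc]
    simp_rw [e4]
    exact int_rf 0 fun η => rep (m + 1) (w η) fun x => |nR b (fun β => H19.Cf S (cut' (χ β) c) N η) (Ψ η) x|
  rw [e1, e2, e3] at key
  exact key

end Rep

end

end Pool.W7d29a1.C0.R63
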