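import Pool.Agent.W_7d29a1_C0.Trans27
import Pool.Agent.W_7d29a1_C0.Refl63

/-!
CURV0 (MP_7d29a1_pr): THE BACKWARD SLAB FIELD in the frame of `Mod92`. (helper63)

`c1 ≤ N`; `Φ` (a tilt) and `A` (an observable) are functions of what the path does behind the row `c1` (`pB c1`) and of the rows
`> c1` of the environment (`FA`). For the rows `m ≤ c1` the conditional mean of `A` under the weights `exp (lw + Φ)` given
`S_m = z` is `bc (m, z)`, a ratio of partition sums of the future of `(m, z)`: it does not see the rows `≤ m`. So `bc` is a backward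
predictable field (`BB`), and along a path it is the conditional mean given the path up to the row `m` (`cE_pA`).
-/

set_option autoImplicit false
set_option linter.unusedSectionVars false
set_option linter.unusedVariables false

namespace Pool.W7d29a1.C0.BF63

open Finset MeasureTheory Pool.Agent.W_7d29a1_F Pool.Agent.W_7d29a1_X Pool.Agent.W_7d29a1_C0.Mod92
  Pool.Agent.W_7d29a1_C0.H32 Pool.W7d29a1.C0.H27 Pool.W7d29a1.C0.R63
open Pool.W7d29a1.C0.VT31 (Mp Crs cE cV cC gc gv)

noncomputable section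

variable {μ : Measure ℝ} {s : ℝ} {N : ℕ} {P : Finset (Finset ℕ)}

/-- What the path does up to the row `m`. -/
def pA (m : ℕ) (S : Px P) : Finset ℕ := S.1 ∩ range m

/-- The data behind the row `c1` from the data behind the row `m ≤ c1`. -/
def adv (c1 : ℕ) (z : ℤ) (T : Finset ℕ) : ℤ × Finset ℕ := (z + (((T ∩ range c1).card : ℕ) : ℤ), T \ range c1)

theorem adv_pos {m c1 : ℕ} (h : m ≤ c1) (S : Finset ℕ) : adv c1 (pos S m) (S \ range m) = (pos S c1, S \ range c1) := by
  unfold adv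
  rw [← pos_split h S]
  refine Prod.ext rfl ?_
  show (S \ range m) \ range c1 = S \ range c1
  rw [sdiff_sdiff_left, sup_eq_union, union_eq_right.2 (range_subset_range.2 h)]

theorem adv_pB {m c1 : ℕ} (h : m ≤ c1) (S : Px P) : adv c1 (ps S m) (S.1 \ range m) = pB c1 S := adv_pos h S.1

/-- The data behind the row `c1` of the paths of the family. -/
def inF (c1 : ℕ) (P : Finset (Finset ℕ)) (q : ℤ × Finset ℕ) : Prop := ∃ S ∈ P, (pos S c1, S \ range c1) = q

theorem inF_iff {c1 : ℕ} (hP : Fam N c1 P) {S : Finset ℕ} (hS : S ⊆ range N) : inF c1 P (pos S c1, S \ range c1) ↔ S ∈ P := by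
  obtain ⟨b0, h0⟩ := hP
  constructor
  · rintro ⟨S', h1, h2⟩
    have h3 := ((h0 S').1 h1).2
    rw [h0]
    refine ⟨hS, ?_⟩
    obtain ⟨e1, e2⟩ := Prod.mk.inj h2
    rwa [e1, e2] at h3
  · intro h
    exact ⟨S, h, rfl⟩

open Classical in
/-- The partition sum of the future of `(m, z)` in the family, with the observable `G`. -/
def bw (μ : Measure ℝ) (s : ℝ) (N : ℕ) (P : Finset (Finset ℕ)) (c1 : ℕ) (G : ℤ × Finset ℕ → ℝ) (η : Env) (m : ℕ) (z : ℤ) : ℝ :=
  ∑ T ∈ (Ico m N).powerset, if inF c1 P (adv c1 z T) then fut μ s η m N z T * G (adv c1 z T) else 0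

theorem fut_pos (η : Env) (c N : ℕ) (z : ℤ) (T : Finset ℕ) : 0 < fut μ s η c N z T :=
  mul_pos (Real.exp_pos _) (prod_pos fun _ _ => Real.exp_pos _)

theorem bw_nonneg (c1 : ℕ) {G : ℤ × Finset ℕ → ℝ} (hG : ∀ q, 0 ≤ G q) (η : Env) (m : ℕ) (z : ℤ) :
    0 ≤ bw μ s N P c1 G η m z := by
  classical
  unfold bw
  refine sum_nonneg fun T _ => ?_
  split_ifs
  · exact mul_nonneg (fut_pos _ _ _ _ _).le (hG _)
  · exact le_rfl

theorem abs_bw_le (c1 : ℕ) {G H : ℤ × Finset ℕ → ℝ} {M : ℝ} (h : ∀ q, |G q| ≤ M * H q) (η : Env) (m : ℕ) (z : ℤ) :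
    |bw μ s N P c1 G η m z| ≤ M * bw μ s N P c1 H η m z := by
  classical
  unfold bw
  rw [mul_sum]
  refine (abs_sum_le_sum_abs _ _).trans (sum_le_sum fun T _ => ?_)
  split_ifs
  · rw [abs_mul, abs_of_pos (fut_pos _ _ _ _ _)]
    calc fut μ s η m N z T * |G (adv c1 z T)| ≤ fut μ s η m N z T * (M * H (adv c1 z T)) :=
          mul_le_mul_of_nonneg_left (h _) (fut_pos _ _ _ _ _).le
      _ = _ := by ring
  · rw [abs_zero, mul_zero]

/-- The sum over the paths with the given past of the row `m`. -/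
theorem sum_pA {c1 m : ℕ} (hP : Fam N c1 P) (hm : m ≤ c1) (hN : c1 ≤ N) (η : Env) (G : ℤ × Finset ℕ → ℝ) (S : Px P) :
    ∑ S' : Px P, (if pA m S' = pA m S then Real.exp (lw μ s η N P S') * G (pB c1 S') else 0) =
      pth μ s η m (pA m S) * bw μ s N P c1 G η m (ps S m) := by
  classical
  have hSN : ∀ T ∈ P, T ⊆ range N := fun T hT => by
    obtain ⟨b0, h0⟩ := hP
    exact ((h0 T).1 hT).1
  set R : Finset ℕ := pA m S with hR
  set b : ℤ → Finset ℕ → ℝ := fun z T => if inF c1 P (adv c1 z T) then G (adv c1 z T) else 0 with hb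
  have h1 : ∑ S' : Px P, (if pA m S' = R then Real.exp (lw μ s η N P S') * G (pB c1 S') else 0) =
      ∑ T ∈ (range N).powerset, pth μ s η N T * (if T ∩ range m = R then 1 else 0) * b (pos T m) (T \ range m) := by
    have e : P = (range N).powerset.filter fun T => T ∈ P := by
      ext T
      rw [mem_filter, mem_powerset]
      exact ⟨fun h => ⟨hSN T h, h⟩, fun h => h.2⟩
    have e1 : ∑ S' : Px P, (if pA m S' = R then Real.exp (lw μ s η N P S') * G (pB c1 S') else 0) =
        ∑ T ∈ P, (if T ∩ range m = R then pth μ s η N T * G (pos T c1, T \ range c1) else 0) := by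
      rw [← sum_Px fun T => if T ∩ range m = R then pth μ s η N T * G (pos T c1, T \ range c1) else 0]
      refine sum_congr rfl fun S' _ => ?_
      rw [exp_lw]
      rfl
    rw [e1]
    conv_lhs => rw [e]
    rw [sum_filter]
    refine sum_congr rfl fun T hT => ?_
    rw [mem_powerset] at hT
    simp only [hb]
    rw [adv_pos hm T]
    by_cases h2 : T ∈ P
    · rw [if_pos h2, if_pos ((inF_iff hP hT).2 h2)]
      split_ifs <;> ring
    · rw [if_neg h2, if_neg fun h3 => h2 ((inF_iff hP hT).1 h3), mul_zero]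
  rw [h1, sum_split η (hm.trans hN) (fun T => if T = R then (1 : ℝ) else 0) b]
  have hRm : R ⊆ range m := inter_subset_right
  have h2 : ∀ z : ℤ, Mt μ s η m (fun T => if T = R then (1 : ℝ) else 0) z = if pos R m = z then pth μ s η m R else 0 := by
    intro z
    unfold Mt
    rw [sum_eq_single R]
    · beta_reduce
      rw [if_pos rfl, mul_one]
    · intro T _ hT
      beta_reduce
      rw [if_neg hT, mul_zero, ite_self]
    · intro h3
      exact absurd (mem_powerset.2 hRm) h3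
  have hpR : pos R m = ps S m := by
    rw [hR]
    unfold pA ps
    rw [pos_inter _ le_rfl]
  unfold bw
  rw [mul_sum]
  refine sum_congr rfl fun T _ => ?_
  rw [sum_eq_single (ps S m)]
  · rw [h2, if_pos hpR]
    simp only [hb]
    split_ifs <;> ring
  · intro z _ hz
    rw [h2, if_neg fun h3 => hz (by rw [← h3, hpR]), mul_zero]
  · intro h3
    exfalso
    apply h3
    rw [mem_Icc]
    exact ⟨ps_nonneg S m, ps_le S m⟩

/-- The conditional mean of `A` given that the path is at `q` (at the row `q.1`), under the weights tilted by `exp Φ`. -/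
def bc (μ : Measure ℝ) (s : ℝ) (N : ℕ) (P : Finset (Finset ℕ)) (c1 : ℕ) (Φ A : Env → ℤ × Finset ℕ → ℝ) (q : Pt)
    (η : Env) : ℝ :=
  bw μ s N P c1 (fun u => Real.exp (Φ η u) * A η u) η q.1.toNat q.2 /
    bw μ s N P c1 (fun u => Real.exp (Φ η u)) η q.1.toNat q.2

/-- **Along a path** the field is the conditional mean given the path up to the row `m`. -/
theorem cE_pA {c1 m : ℕ} (hP : Fam N c1 P) (hm : m ≤ c1) (hN : c1 ≤ N) (Φ A : Env → ℤ × Finset ℕ → ℝ) (η : Env) (S : Px P) :
    cE (fun S : Px P => lw μ s η N P S + Φ η (pB c1 S)) (pA m) (fun S => A η (pB c1 S)) S =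
      bc μ s N P c1 Φ A ((m : ℤ), ps S m) η := by
  classical
  unfold cE bc VT31.fz
  simp only [Int.toNat_natCast]
  have h1 := sum_pA (μ := μ) (s := s) hP hm hN η (fun u => Real.exp (Φ η u) * A η u) S
  have h2 := sum_pA (μ := μ) (s := s) hP hm hN η (fun u => Real.exp (Φ η u)) S
  have e1 : ∑ S' : Px P, (if pA m S' = pA m S then Real.exp (lw μ s η N P S' + Φ η (pB c1 S')) * A η (pB c1 S') else 0) =
      pth μ s η m (pA m S) * bw μ s N P c1 (fun u => Real.exp (Φ η u) * A η u) η m (ps S m) := by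
    rw [← h1]
    refine sum_congr rfl fun S' _ => ?_
    rw [Real.exp_add, mul_assoc]
  have e2 : ∑ S' : Px P, (if pA m S' = pA m S then Real.exp (lw μ s η N P S' + Φ η (pB c1 S')) else 0) =
      pth μ s η m (pA m S) * bw μ s N P c1 (fun u => Real.exp (Φ η u)) η m (ps S m) := by
    rw [← h2]
    refine sum_congr rfl fun S' _ => ?_
    rw [Real.exp_add]
  rw [e1, e2, mul_div_mul_left _ _ (pth_pos (μ := μ) (s := s) η m (pA m S)).ne']

/-! ### Bounded functions of the future -/

/-- `A` is a bounded function of what the path does behind the row `c1` and of the rows `> c1`. -/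
structure FA (c1 : ℕ) (D : ℝ) (A : Env → ℤ × Finset ℕ → ℝ) : Prop where
  bd : ∀ η u, |A η u| ≤ D
  bl : ∀ (η : Env) (p : Pt) (x : ℝ), p.1 ≤ (c1 : ℤ) → A (Function.update η p x) = A η
  ms : ∀ u, Measurable fun η => A η u

theorem fut_blind (c N : ℕ) (z : ℤ) (T : Finset ℕ) (η : Env) {p : Pt} (x : ℝ) (hp : p.1 ≤ (c : ℤ)) :
    fut μ s (Function.update η p x) c N z T = fut μ s η c N z T :=
  fut_congr (fun u hu => Function.update_of_ne (by rintro rfl; omega) _ _) z T

theorem fut_meas (c N : ℕ) (z : ℤ) (T : Finset ℕ) : Measurable fun η : Env => fut μ s η c N z T := by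
  unfold fut
  exact (Finset.measurable_prod _ fun i _ => (measurable_pi_apply _).exp).const_mul _

theorem bw_meas (c1 m : ℕ) (z : ℤ) {G : Env → ℤ × Finset ℕ → ℝ} (hG : ∀ u, Measurable fun η => G η u) :
    Measurable fun η => bw μ s N P c1 (G η) η m z := by
  classical
  unfold bw
  refine Finset.measurable_sum _ fun T _ => ?_
  split_ifs
  · exact (fut_meas _ _ _ _).mul (hG _)
  · exact measurable_const

theorem bw_blind (c1 m : ℕ) (z : ℤ) {G : Env → ℤ × Finset ℕ → ℝ} {η : Env} {p : Pt} {x : ℝ} (hp : p.1 ≤ (m : ℤ))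
    (hG : G (Function.update η p x) = G η) :
    bw μ s N P c1 (G (Function.update η p x)) (Function.update η p x) m z = bw μ s N P c1 (G η) η m z := by
  classical
  unfold bw
  refine sum_congr rfl fun T _ => ?_
  rw [fut_blind m N z T η x hp, hG]

section Field

variable {c1 : ℕ} {D DΦ : ℝ} {Φ A : Env → ℤ × Finset ℕ → ℝ}

theorem bc_meas (hΦ : FA c1 DΦ Φ) (hA : FA c1 D A) (q : Pt) : Measurable (bc μ s N P c1 Φ A q) := by
  unfold bc
  exact (bw_meas c1 _ _ (G := fun η u => Real.exp (Φ η u) * A η u) fun u => ((hΦ.ms u).exp).mul (hA.ms u)).div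
    (bw_meas c1 _ _ (G := fun η u => Real.exp (Φ η u)) fun u => (hΦ.ms u).exp)

theorem bc_blind (hΦ : FA c1 DΦ Φ) (hA : FA c1 D A) {q p : Pt} (hq0 : 0 ≤ q.1) (hq : q.1 ≤ c1) (hp : p.1 ≤ q.1) (η : Env)
    (x : ℝ) : bc μ s N P c1 Φ A q (Function.update η p x) = bc μ s N P c1 Φ A q η := by
  unfold bc
  have e1 := hΦ.bl η p x (hp.trans hq)
  have e2 := hA.bl η p x (hp.trans hq)
  have e3 : p.1 ≤ ((q.1.toNat : ℕ) : ℤ) := by rw [Int.toNat_of_nonneg hq0]; exact hp
  rw [bw_blind c1 q.1.toNat q.2 (G := fun η u => Real.exp (Φ η u) * A η u) e3 (by rw [e1, e2]),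
    bw_blind c1 q.1.toNat q.2 (G := fun η u => Real.exp (Φ η u)) e3 (by rw [e1])]

theorem abs_bc_le (hD : 0 ≤ D) (hA : ∀ η u, |A η u| ≤ D) (q : Pt) (η : Env) : |bc μ s N P c1 Φ A q η| ≤ D := by
  unfold bc
  have h0 : 0 ≤ bw μ s N P c1 (fun u => Real.exp (Φ η u)) η q.1.toNat q.2 :=
    bw_nonneg c1 (fun u => (Real.exp_pos _).le) η _ _
  rw [abs_div, abs_of_nonneg h0]
  rcases h0.eq_or_lt with h1 | h1
  · rw [← h1, div_zero]
    exact hD
  · rw [div_le_iff₀ h1]
    exact abs_bw_le c1 (fun u => by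
      rw [abs_mul, abs_of_pos (Real.exp_pos _), mul_comm]
      exact mul_le_mul_of_nonneg_right (hA η u) (Real.exp_pos _).le) η _ _

/-- **The backward field** on a set of sites of the rows `≤ c1`. -/
theorem bb_bc (hD : 0 ≤ D) (hΦ : FA c1 DΦ Φ) (hA : FA c1 D A) {Q : Finset Pt} (hQ : ∀ p ∈ Q, 0 ≤ p.1 ∧ p.1 ≤ (c1 : ℤ)) :
    BB Q (bc μ s N P c1 Φ A) D :=
  ⟨fun p _ => bc_meas hΦ hA p, fun p hp q _ hle η x => bc_blind hΦ hA (hQ p hp).1 (hQ p hp).2 hle η x,
    fun p _ η => abs_bc_le hD hA.bd p η⟩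

end Field

end

end Pool.W7d29a1.C0.BF63
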