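import Pool.Agent.W_7d29a1_C0.BridgeX82

/-!
CURV0 (MP_7d29a1_pr), section 5: **the cross term with a finer window** (four term identity), on top of form X of helper82.
`Kn81` is the Green kernel of `[-1, 1]`; `green81` says that the mean over `s` of `I t s` minus `I t t` is, after the mean over `t`, an
integral of the mixed derivative against the kernel. (helper81)
-/

set_option autoImplicit false
set_option linter.unusedSectionVars false
set_option linter.unusedVariables false

namespace Pool.W7d29a1.C0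

open Finset Filter Topology MeasureTheory intervalIntegral
open Pool.Agent.W_7d29a1_C0 Pool.W7d29a1.C0.VT31

noncomputable section

/-! ### The Green kernel -/

/-- The Green kernel of `[-1, 1]`, times one half. -/
def Kn81 (t s : ℝ) : ℝ := (1 / 4) * (1 - t * s - |t - s|)

theorem Kn81_lt {t s : ℝ} (h : t ≤ s) : Kn81 t s = (1 / 4) * ((1 + t) * (1 - s)) := by
  unfold Kn81
  rw [abs_of_nonpos (by linarith)]
  ring

theorem Kn81_gt {t s : ℝ} (h : s ≤ t) : Kn81 t s = (1 / 4) * ((1 - t) * (1 + s)) := by
  unfold Kn81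
  rw [abs_of_nonneg (by linarith)]
  ring

theorem continuous_Kn81 : Continuous (Function.uncurry Kn81) := by
  unfold Kn81 Function.uncurry
  fun_prop

theorem Kn81_nonneg {t s : ℝ} (ht : t ∈ Set.Icc (-1 : ℝ) 1) (hs : s ∈ Set.Icc (-1 : ℝ) 1) : 0 ≤ Kn81 t s := by
  obtain ⟨a, b⟩ := ht
  obtain ⟨c, d⟩ := hs
  rcases le_total t s with h | h
  · rw [Kn81_lt h]
    exact mul_nonneg (by norm_num) (mul_nonneg (by linarith) (by linarith))
  · rw [Kn81_gt h]
    exact mul_nonneg (by norm_num) (mul_nonneg (by linarith) (by linarith))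

theorem Kn81_le {t s : ℝ} (ht : t ∈ Set.Icc (-1 : ℝ) 1) (hs : s ∈ Set.Icc (-1 : ℝ) 1) : Kn81 t s ≤ 1 / 4 := by
  obtain ⟨a, b⟩ := ht
  obtain ⟨c, d⟩ := hs
  rcases le_total t s with h | h
  · rw [Kn81_lt h]
    nlinarith [mul_nonneg (sub_nonneg.2 h) (sub_nonneg.2 d), sq_nonneg s]
  · rw [Kn81_gt h]
    nlinarith [mul_nonneg (sub_nonneg.2 h) (sub_nonneg.2 b), sq_nonneg t]

theorem abs_Kn81_le {t s : ℝ} (ht : t ∈ Set.Icc (-1 : ℝ) 1) (hs : s ∈ Set.Icc (-1 : ℝ) 1) : |Kn81 t s| ≤ 1 / 4 := by
  rw [abs_of_nonneg (Kn81_nonneg ht hs)]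
  exact Kn81_le ht hs

/-- Fubini on the triangle. -/
theorem tri81 {F : ℝ → ℝ → ℝ} (hF : Continuous (Function.uncurry F)) :
    (∫ t in (-1 : ℝ)..1, ∫ s in t..1, F t s) = ∫ s in (-1 : ℝ)..1, ∫ t in (-1 : ℝ)..s, F t s := by
  set H : ℝ → ℝ → ℝ := fun t s => (Set.Ioi t).indicator (F t) s with hH
  have e1 : ∀ t ∈ Set.Ioc (-1 : ℝ) 1, (∫ s in t..1, F t s) = ∫ s in Set.Ioc (-1 : ℝ) 1, H t s := fun t ht => by
    rw [integral_of_le ht.2, hH]
    show _ = ∫ s in Set.Ioc (-1 : ℝ) 1, (Set.Ioi t).indicator (F t) s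
    rw [setIntegral_indicator measurableSet_Ioi]
    congr 2
    ext s
    simp only [Set.mem_Ioc, Set.mem_inter_iff, Set.mem_Ioi]
    constructor
    · rintro ⟨h1, h2⟩
      exact ⟨⟨by linarith [ht.1], h2⟩, h1⟩
    · rintro ⟨⟨h1, h2⟩, h3⟩
      exact ⟨h3, h2⟩
  have e2 : ∀ s ∈ Set.Ioc (-1 : ℝ) 1, (∫ t in (-1 : ℝ)..s, F t s) = ∫ t in Set.Ioc (-1 : ℝ) 1, H t s := fun s hs => by
    rw [integral_of_le hs.1.le, integral_Ioc_eq_integral_Ioo]
    have e3 : ∀ t, H t s = (Set.Iio s).indicator (fun t => F t s) t := fun t => by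
      rw [hH]
      by_cases h : t < s
      · rw [Set.indicator_of_mem (Set.mem_Iio.2 h)]
        exact Set.indicator_of_mem (Set.mem_Ioi.2 h) _
      · rw [Set.indicator_of_notMem (by simpa using h)]
        exact Set.indicator_of_notMem (by simpa using h) _
    simp_rw [e3]
    rw [setIntegral_indicator measurableSet_Iio]
    congr 2
    ext t
    simp only [Set.mem_Ioc, Set.mem_inter_iff, Set.mem_Iio, Set.mem_Ioo]
    constructor
    · rintro ⟨h1, h2⟩
      exact ⟨⟨h1, by linarith [hs.2]⟩, h2⟩
    · rintro ⟨⟨h1, h2⟩, h3⟩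
      exact ⟨h1, h3⟩
  rw [integral_of_le (by norm_num), integral_of_le (by norm_num),
    setIntegral_congr_fun measurableSet_Ioc e1, setIntegral_congr_fun measurableSet_Ioc e2]
  obtain ⟨M, hM⟩ := ((isCompact_Icc (a := (-1 : ℝ)) (b := 1)).prod (isCompact_Icc (a := (-1 : ℝ)) (b := 1))).exists_bound_of_continuousOn
    hF.continuousOn
  have hm : Measurable (Function.uncurry H) := by
    have e : Function.uncurry H = {x : ℝ × ℝ | x.1 < x.2}.indicator (Function.uncurry F) := by
      funext x
      obtain ⟨t, s⟩ := x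
      rw [hH]
      show (Set.Ioi t).indicator (F t) s = _
      by_cases h : t < s
      · rw [Set.indicator_of_mem (Set.mem_Ioi.2 h), Set.indicator_of_mem (show ((t, s) : ℝ × ℝ) ∈ {x : ℝ × ℝ | x.1 < x.2} from h)]
        rfl
      · rw [Set.indicator_of_notMem (by simpa using h),
          Set.indicator_of_notMem (show ((t, s) : ℝ × ℝ) ∉ {x : ℝ × ℝ | x.1 < x.2} from h)]
    rw [e]
    exact hF.measurable.indicator (measurableSet_lt measurable_fst measurable_snd)
  refine integral_integral_swap ?_
  refine (integrable_const M).mono' hm.aestronglyMeasurable ?_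
  rw [Measure.prod_restrict, ae_restrict_iff' (measurableSet_Ioc.prod measurableSet_Ioc)]
  refine Eventually.of_forall fun x hx => ?_
  have hx' : x ∈ Set.Icc (-1 : ℝ) 1 ×ˢ Set.Icc (-1 : ℝ) 1 := ⟨Set.Ioc_subset_Icc_self hx.1, Set.Ioc_subset_Icc_self hx.2⟩
  have h1 := hM x hx'
  refine le_trans ?_ h1
  show ‖(Set.Ioi x.1).indicator (F x.1) x.2‖ ≤ ‖F x.1 x.2‖
  exact norm_indicator_le_norm_self _ _

/-- Integration by parts in one variable around the diagonal. -/
theorem ibp81 {f f' : ℝ → ℝ} (h : ∀ s, HasDerivAt f (f' s) s) (c : Continuous f') (t : ℝ) :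
    (∫ s in (-1 : ℝ)..1, f s) - 2 * f t = (∫ s in t..1, (1 - s) * f' s) - ∫ s in (-1 : ℝ)..t, (1 + s) * f' s := by
  have cf : Continuous f := continuous_iff_continuousAt.2 fun s => (h s).continuousAt
  have k1 : ∀ s, HasDerivAt (fun s => (1 - s) * f s) ((1 - s) * f' s - f s) s := fun s => by
    have := ((hasDerivAt_id s).const_sub 1).mul (h s)
    refine this.congr_deriv ?_
    simp only [id]
    ring
  have k2 : ∀ s, HasDerivAt (fun s => (1 + s) * f s) ((1 + s) * f' s + f s) s := fun s => by
    have := ((hasDerivAt_id s).const_add 1).mul (h s)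
    refine this.congr_deriv ?_
    simp only [id]
    ring
  have c1 : Continuous fun s => (1 - s) * f' s := by fun_prop
  have c2 : Continuous fun s => (1 + s) * f' s := by fun_prop
  have i1 := integral_eq_sub_of_hasDerivAt (a := t) (b := 1) (fun s _ => k1 s) ((c1.sub cf).intervalIntegrable _ _)
  have i2 := integral_eq_sub_of_hasDerivAt (a := (-1 : ℝ)) (b := t) (fun s _ => k2 s) ((c2.add cf).intervalIntegrable _ _)
  rw [integral_sub (c1.intervalIntegrable _ _) (cf.intervalIntegrable _ _)] at i1
  rw [integral_add (c2.intervalIntegrable _ _) (cf.intervalIntegrable _ _)] at i2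
  have i3 := integral_add_adjacent_intervals (cf.intervalIntegrable (μ := volume) (-1 : ℝ) t) (cf.intervalIntegrable t 1)
  linarith

/-- The kernel in one variable. -/
theorem ker81 {f f' : ℝ → ℝ} (h : ∀ t, HasDerivAt f (f' t) t) (c : Continuous f') {s : ℝ} (hs : s ∈ Set.Icc (-1 : ℝ) 1) :
    (1 - s) * (∫ t in (-1 : ℝ)..s, f t) - (1 + s) * (∫ t in s..1, f t) = -4 * ∫ t in (-1 : ℝ)..1, Kn81 t s * f' t := by
  have cf : Continuous f := continuous_iff_continuousAt.2 fun s => (h s).continuousAt
  have k1 : ∀ t, HasDerivAt (fun t => (1 - t) * f t) ((1 - t) * f' t - f t) t := fun t => by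
    have := ((hasDerivAt_id t).const_sub 1).mul (h t)
    refine this.congr_deriv ?_
    simp only [id]
    ring
  have k2 : ∀ t, HasDerivAt (fun t => (1 + t) * f t) ((1 + t) * f' t + f t) t := fun t => by
    have := ((hasDerivAt_id t).const_add 1).mul (h t)
    refine this.congr_deriv ?_
    simp only [id]
    ring
  have c1 : Continuous fun t => (1 - t) * f' t := by fun_prop
  have c2 : Continuous fun t => (1 + t) * f' t := by fun_prop
  have i1 := integral_eq_sub_of_hasDerivAt (a := s) (b := 1) (fun t _ => k1 t) ((c1.sub cf).intervalIntegrable _ _)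
  have i2 := integral_eq_sub_of_hasDerivAt (a := (-1 : ℝ)) (b := s) (fun t _ => k2 t) ((c2.add cf).intervalIntegrable _ _)
  rw [integral_sub (c1.intervalIntegrable _ _) (cf.intervalIntegrable _ _)] at i1
  rw [integral_add (c2.intervalIntegrable _ _) (cf.intervalIntegrable _ _)] at i2
  have cK : Continuous fun t => Kn81 t s * f' t := by
    unfold Kn81
    fun_prop
  have i3 := integral_add_adjacent_intervals (cK.intervalIntegrable (μ := volume) (-1 : ℝ) s) (cK.intervalIntegrable s 1)
  have e1 : (∫ t in (-1 : ℝ)..s, Kn81 t s * f' t) = ((1 - s) / 4) * ∫ t in (-1 : ℝ)..s, (1 + t) * f' t := by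
    rw [← intervalIntegral.integral_const_mul]
    refine integral_congr fun t ht => ?_
    rw [Set.uIcc_of_le hs.1] at ht
    show Kn81 t s * f' t = (1 - s) / 4 * ((1 + t) * f' t)
    rw [Kn81_lt ht.2]
    ring
  have e2 : (∫ t in s..1, Kn81 t s * f' t) = ((1 + s) / 4) * ∫ t in s..1, (1 - t) * f' t := by
    rw [← intervalIntegral.integral_const_mul]
    refine integral_congr fun t ht => ?_
    rw [Set.uIcc_of_le hs.2] at ht
    show Kn81 t s * f' t = (1 + s) / 4 * ((1 - t) * f' t)
    rw [Kn81_gt ht.1]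
    ring
  rw [← i3, e1, e2]
  have j1 : (∫ t in s..1, (1 - t) * f' t) = (∫ t in s..1, f t) - (1 - s) * f s := by linarith
  have j2 : (∫ t in (-1 : ℝ)..s, (1 + t) * f' t) = (1 + s) * f s - ∫ t in (-1 : ℝ)..s, f t := by linarith
  rw [j1, j2]
  ring

/-- **The Green formula**: `A = ∂I/∂s`, `J = ∂A/∂t`. -/
theorem green81 {I A J : ℝ → ℝ → ℝ} (dI : ∀ t s, HasDerivAt (fun s => I t s) (A t s) s)
    (dA : ∀ t s, HasDerivAt (fun t => A t s) (J t s) t) (cA : Continuous (Function.uncurry A))
    (cJ : Continuous (Function.uncurry J)) (cD : Continuous fun t => I t t)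
    (cM : Continuous fun t => ∫ s in (-1 : ℝ)..1, I t s) :
    Mc (fun t => Mc (fun s => I t s)) - Mc (fun t => I t t) =
      -∫ s in (-1 : ℝ)..1, ∫ t in (-1 : ℝ)..1, Kn81 t s * J t s := by
  have cA1 : ∀ t, Continuous fun s => A t s := fun t => cA.comp (Continuous.prodMk continuous_const continuous_id)
  have cA2 : ∀ s, Continuous fun t => A t s := fun s => cA.comp (Continuous.prodMk continuous_id continuous_const)
  have cJ2 : ∀ s, Continuous fun t => J t s := fun s => cJ.comp (Continuous.prodMk continuous_id continuous_const)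
  have f1 : Continuous (Function.uncurry fun t s : ℝ => (1 - s) * A t s) :=
    ((continuous_const.sub continuous_snd).mul cA)
  have f2 : Continuous (Function.uncurry fun s t : ℝ => (1 + s) * A t s) :=
    ((continuous_const.add continuous_fst).mul (cA.comp continuous_swap))
  have t1 := tri81 f1
  have t2 := tri81 f2
  have g1 : Continuous fun t : ℝ => ∫ s in t..1, (1 - s) * A t s := by
    have h := (continuous_parametric_intervalIntegral_of_continuous (μ := volume) (a₀ := (1 : ℝ)) f1 continuous_id).neg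
    refine h.congr fun t => ?_
    exact (integral_symm _ _).symm
  have g2 : Continuous fun t : ℝ => ∫ s in (-1 : ℝ)..t, (1 + s) * A t s := by
    have f3 : Continuous (Function.uncurry fun t s : ℝ => (1 + s) * A t s) :=
      ((continuous_const.add continuous_snd).mul cA)
    exact continuous_parametric_intervalIntegral_of_continuous (μ := volume) (a₀ := (-1 : ℝ)) f3 continuous_id
  have g3 : Continuous fun s : ℝ => ∫ t in (-1 : ℝ)..s, (1 - s) * A t s := by
    have f3 : Continuous (Function.uncurry fun s t : ℝ => (1 - s) * A t s) :=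
      ((continuous_const.sub continuous_fst).mul (cA.comp continuous_swap))
    exact continuous_parametric_intervalIntegral_of_continuous (μ := volume) (a₀ := (-1 : ℝ)) f3 continuous_id
  have g4 : Continuous fun s : ℝ => ∫ t in s..1, (1 + s) * A t s := by
    have h := (continuous_parametric_intervalIntegral_of_continuous (μ := volume) (a₀ := (1 : ℝ)) f2 continuous_id).neg
    refine h.congr fun t => ?_
    exact (integral_symm _ _).symm
  have e1 : (∫ t in (-1 : ℝ)..1, ((∫ s in (-1 : ℝ)..1, I t s) - 2 * I t t)) =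
      ∫ t in (-1 : ℝ)..1, ((∫ s in t..1, (1 - s) * A t s) - ∫ s in (-1 : ℝ)..t, (1 + s) * A t s) :=
    integral_congr fun t _ => ibp81 (dI t) (cA1 t) t
  have e2 : (∫ s in (-1 : ℝ)..1, ((∫ t in (-1 : ℝ)..s, (1 - s) * A t s) - ∫ t in s..1, (1 + s) * A t s)) =
      ∫ s in (-1 : ℝ)..1, (-4) * ∫ t in (-1 : ℝ)..1, Kn81 t s * J t s := by
    refine integral_congr fun s hs => ?_
    rw [Set.uIcc_of_le (by norm_num)] at hs
    show (∫ t in (-1 : ℝ)..s, (1 - s) * A t s) - (∫ t in s..1, (1 + s) * A t s) = _
    rw [intervalIntegral.integral_const_mul, intervalIntegral.integral_const_mul]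
    exact ker81 (fun t => dA t s) (cJ2 s) hs
  rw [integral_sub (cM.intervalIntegrable _ _) ((cD.const_mul (2 : ℝ)).intervalIntegrable _ _),
    integral_sub (g1.intervalIntegrable _ _) (g2.intervalIntegrable _ _), t1, ← t2,
    intervalIntegral.integral_const_mul] at e1
  rw [integral_sub (g3.intervalIntegrable _ _) (g4.intervalIntegrable _ _), intervalIntegral.integral_const_mul] at e2
  unfold Mc
  rw [intervalIntegral.integral_const_mul]
  linarith

/-! ### Gibbs measures: derivatives and continuity -/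

variable {X : Type*} [Fintype X] [Nonempty X] {Y Z : Type*} [DecidableEq Y] [DecidableEq Z]

theorem hasDerivAt_kX (p : X → Y) (gs : List (X → ℝ)) {W : ℝ → X → ℝ} {W' : X → ℝ} {t : ℝ} (h : HasDerivAt W W' t)
    (x : X) : HasDerivAt (fun u => kX p gs (W u) x) (kX p (W' :: gs) (W t) x) t :=
  (hasDerivAt_pi.1 (hasDerivAt_cj (pr_surj p) gs h)) (pr p x)

theorem continuous_kX (p : X → Y) (gs : List (X → ℝ)) : Continuous fun w => kX p gs w :=
  continuous_pi fun x => (continuous_apply (pr p x)).comp (continuous_cj (pr_surj p) gs)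

/-- The conditional mean moves with the conditional covariance. -/
theorem hasDerivAt_cE (p : X → Y) (w g h : X → ℝ) (t : ℝ) :
    HasDerivAt (fun u : ℝ => cE (w + u • g) p h) (cC (w + t • g) p g h) t := by
  rw [hasDerivAt_pi]
  intro x
  have e := hasDerivAt_kX p [h] (hasDerivAt_line w g t) x
  simp only [kX_one, kX_two] at e
  exact e

theorem hasDerivAt_cV (p : X → Y) (w g : X → ℝ) (t : ℝ) :
    HasDerivAt (fun u : ℝ => cE (w + u • g) p g) (cV (w + t • g) p g) t := hasDerivAt_cE p w g g t

theorem continuous_cV_line (p : X → Y) (w g : X → ℝ) : Continuous fun t : ℝ => cV (w + t • g) p g := by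
  simp_rw [← kX_self]
  exact (continuous_kX p [g, g]).comp (continuous_line w g)

theorem continuous_cE_line (p : X → Y) (w g h : X → ℝ) : Continuous fun t : ℝ => cE (w + t • g) p h := by
  simp_rw [← kX_one]
  exact (continuous_kX p [h]).comp (continuous_line w g)

theorem gc_eq_fderiv (w h f : X → ℝ) : gc w h f = fderiv ℝ (cm [f]) w h := by
  rw [gc_eq_cm, cm_cons]

theorem cm3_eq_fderiv (w g h f : X → ℝ) : cm [g, h, f] w = fderiv ℝ (cm [g, f]) w h := by
  rw [congrFun (cm_swap g h [f]) w, cm_cons]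

theorem continuous_fderiv_cm (l : List (X → ℝ)) {U : Type*} [TopologicalSpace U] {W F : U → X → ℝ} (hW : Continuous W)
    (hF : Continuous F) : Continuous fun u => fderiv ℝ (cm l) (W u) (F u) :=
  (((cm_contDiff l).continuous_fderiv (by simp)).comp hW).clm_apply hF

theorem continuous_gc {U : Type*} [TopologicalSpace U] {W F : U → X → ℝ} (hW : Continuous W) (hF : Continuous F)
    (f : X → ℝ) : Continuous fun u => gc (W u) (F u) f := by
  simp_rw [gc_eq_fderiv]
  exact continuous_fderiv_cm [f] hW hF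

theorem continuous_cm3 {U : Type*} [TopologicalSpace U] {W F : U → X → ℝ} (hW : Continuous W) (hF : Continuous F)
    (g f : X → ℝ) : Continuous fun u => cm [g, F u, f] (W u) := by
  simp_rw [cm3_eq_fderiv]
  exact continuous_fderiv_cm [g, f] hW hF

theorem hasDerivAt_gc_arg (w f : X → ℝ) {F : ℝ → X → ℝ} {F' : X → ℝ} {s : ℝ} (h : HasDerivAt F F' s) :
    HasDerivAt (fun s => gc w (F s) f) (gc w F' f) s := by
  simp_rw [gc_eq_fderiv]
  exact (fderiv ℝ (cm [f]) w).hasFDerivAt.comp_hasDerivAt s h

theorem hasDerivAt_gc_line (w g h f : X → ℝ) (t : ℝ) :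
    HasDerivAt (fun t : ℝ => gc (w + t • g) h f) (cm [g, h, f] (w + t • g)) t := by
  simp_rw [gc_eq_cm]
  exact hasDerivAt_cm_line [h, f] w g t

/-- **The whole derivative of `Cov(cE h, f)` needs no projection** (`f` a function of `p`). -/
theorem DX_cm (p : X → Y) (w C h : X → ℝ) {f : X → ℝ} (hf : Mp p f) : DX p w C [[h]] [f] = cm [C, h, f] w := by
  have hl : ∀ F ∈ [f], Mp p F := fun F hF => by rwa [List.mem_singleton.1 hF]
  have h1 := hasDerivAt_CX (p := p) (hasDerivAt_line w C 0) [[h]] hl
  have h2 := hasDerivAt_gc_line w C h f 0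
  have e : ∀ t : ℝ, CX p (w + t • C) [[h]] [f] = gc (w + t • C) h f := fun t => by rw [CX_1, gc_cE_left _ _ hf]
  simp_rw [e] at h1
  have h3 := h1.unique h2
  rwa [zero_smul, add_zero] at h3

/-! ### The mean response of the window -/

/-- The mean over `s` of the conditional means given `q`, under the weights `w + s g`: the response of the window of `q`. -/
def gb81 (w g : X → ℝ) (q : X → Z) : X → ℝ := (1 / 2 : ℝ) • ∫ s in (-1 : ℝ)..1, cE (w + s • g) q g

theorem lin81 (L : (X → ℝ) →L[ℝ] ℝ) (w g : X → ℝ) (q : X → Z) :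
    L (gb81 w g q) = Mc fun s => L (cE (w + s • g) q g) := by
  unfold gb81 Mc
  rw [map_smul, smul_eq_mul, L.intervalIntegral_comp_comm ((continuous_cE_line q w g g).intervalIntegrable _ _)]

theorem gb81_apply (w g : X → ℝ) (q : X → Z) (x : X) : gb81 w g q x = Mc fun s => cE (w + s • g) q g x :=
  lin81 (ContinuousLinearMap.proj x) w g q

theorem mp_gb81 (w g : X → ℝ) (q : X → Z) : Mp q (gb81 w g q) := fun x x' h => by
  rw [gb81_apply, gb81_apply]
  congr 1
  funext s
  exact cE_meas _ _ _ _ _ h

theorem gc_gb81 (w' w g f : X → ℝ) (q : X → Z) : gc w' (gb81 w g q) f = Mc fun s => gc w' (cE (w + s • g) q g) f := by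
  simp_rw [gc_eq_fderiv]
  exact lin81 _ w g q

/-- **The finer window, first term**: the response of the window against the conditional mean, in the mean over the tilt, is a
whole derivative of the covariance of `V_s = cV (w + s g) q g` (a function of the ends of the window) with `f`. -/
theorem E2a81 (w g : X → ℝ) (q : X → Z) {f : X → ℝ} (hf : Mp q f) :
    Mc (fun t => gc (w + t • g) (gb81 w g q - g) f) =
      -∫ s in (-1 : ℝ)..1, ∫ t in (-1 : ℝ)..1, Kn81 t s * cm [g, cV (w + s • g) q g, f] (w + t • g) := by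
  have cw : Continuous fun x : ℝ × ℝ => w + x.1 • g := by fun_prop
  have cF : Continuous fun x : ℝ × ℝ => cE (w + x.2 • g) q g := (continuous_cE_line q w g g).comp continuous_snd
  have cV' : Continuous fun x : ℝ × ℝ => cV (w + x.2 • g) q g := (continuous_cV_line q w g).comp continuous_snd
  have cI : Continuous (Function.uncurry fun t s : ℝ => gc (w + t • g) (cE (w + s • g) q g) f) := continuous_gc cw cF f
  have cD : Continuous fun t : ℝ => gc (w + t • g) (cE (w + t • g) q g) f :=
    continuous_gc (continuous_line w g) (continuous_cE_line q w g g) f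
  have h := green81 (I := fun t s => gc (w + t • g) (cE (w + s • g) q g) f)
    (A := fun t s => gc (w + t • g) (cV (w + s • g) q g) f)
    (J := fun t s => cm [g, cV (w + s • g) q g, f] (w + t • g))
    (fun t s => hasDerivAt_gc_arg (w + t • g) f (F := fun s => cE (w + s • g) q g) (hasDerivAt_cV q w g s))
    (fun t s => hasDerivAt_gc_line w g (cV (w + s • g) q g) f t)
    (continuous_gc cw cV' f) (continuous_cm3 cw cV' g f) cD
    (continuous_parametric_intervalIntegral_of_continuous' (μ := volume) cI (-1) 1)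
  rw [← h]
  have e1 : ∀ t : ℝ, gc (w + t • g) (gb81 w g q - g) f =
      Mc (fun s => gc (w + t • g) (cE (w + s • g) q g) f) - gc (w + t • g) (cE (w + t • g) q g) f := fun t => by
    rw [sub_eq_add_neg, gc_add_left, ← neg_one_smul ℝ g, gc_smul_left, gc_gb81, gc_cE_left _ _ hf]
    ring
  simp_rw [e1]
  have c1 : Continuous fun t : ℝ => Mc fun s => gc (w + t • g) (cE (w + s • g) q g) f := by
    unfold Mc
    exact (continuous_parametric_intervalIntegral_of_continuous' (μ := volume) cI (-1) 1).const_mul _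
  show (1 / 2 : ℝ) * (∫ t in (-1 : ℝ)..1, (Mc (fun s => gc (w + t • g) (cE (w + s • g) q g) f) -
    gc (w + t • g) (cE (w + t • g) q g) f)) = _
  rw [intervalIntegral.integral_sub (c1.intervalIntegrable _ _) (cD.intervalIntegrable _ _)]
  show _ = (1 / 2 : ℝ) * (∫ t in (-1 : ℝ)..1, Mc (fun s => gc (w + t • g) (cE (w + s • g) q g) f)) -
    (1 / 2 : ℝ) * ∫ t in (-1 : ℝ)..1, gc (w + t • g) (cE (w + t • g) q g) f
  ring

/-! ### The response at the corner -/

/-- At a corner `a` (`a ^ 2 = 1`) the conditional mean minus the mean response is an integral of conditional variances. -/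
theorem em1_81 {F F' : ℝ → ℝ} (h : ∀ s, HasDerivAt F (F' s) s) (c : Continuous F') {a : ℝ} (ha : a = 1 ∨ a = -1) :
    a * (F a - Mc F) = (1 / 2) * ∫ u in (-1 : ℝ)..1, (1 + a * u) * F' u := by
  have cF : Continuous F := continuous_iff_continuousAt.2 fun s => (h s).continuousAt
  have k : ∀ s, HasDerivAt (fun s => (1 + a * s) * F s) ((1 + a * s) * F' s + a * F s) s := fun s => by
    have := (((hasDerivAt_id s).const_mul a).const_add 1).mul (h s)
    refine this.congr_deriv ?_
    simp only [id]
    ring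
  have c1 : Continuous fun s => (1 + a * s) * F' s := by fun_prop
  have c2 : Continuous fun s => a * F s := by fun_prop
  have i1 := integral_eq_sub_of_hasDerivAt (a := (-1 : ℝ)) (b := 1) (fun s _ => k s) ((c1.add c2).intervalIntegrable _ _)
  rw [integral_add (c1.intervalIntegrable _ _) (c2.intervalIntegrable _ _), intervalIntegral.integral_const_mul] at i1
  unfold Mc
  rcases ha with rfl | rfl
  · linarith
  · linarith

/-- **The finer window, second term** (a double tie, no derivative): at the corner `a`, for every linear functional `L`. -/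
theorem E2b81 (L : (X → ℝ) →L[ℝ] ℝ) (w g : X → ℝ) (q : X → Z) {a : ℝ} (ha : a = 1 ∨ a = -1) :
    a * L (cE (w + a • g) q g - gb81 w g q) =
      (1 / 2) * ∫ u in (-1 : ℝ)..1, (1 + a * u) * L (cV (w + u • g) q g) := by
  have h := em1_81 (F := fun s => L (cE (w + s • g) q g)) (F' := fun s => L (cV (w + s • g) q g))
    (fun s => L.hasFDerivAt.comp_hasDerivAt s (hasDerivAt_cV q w g s)) (L.continuous.comp (continuous_cV_line q w g)) ha
  rw [← h, map_sub, lin81]

theorem cC_pull {w : X → ℝ} {p : X → Y} {q : X → Z} (hc : Crs p q) {γ : X → ℝ} (hγ : Mp q γ) (g : X → ℝ) :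
    cC w p γ g = cC w p γ (cE w q g) := by
  rw [total_cov w hc, cC_meas_left w hγ, cE_zero, zero_add, cE_of_meas w hγ]

/-! ### The four term identity -/

/-- **THE CROSS TERM WITH A FINER WINDOW.** `p` = outside of the block (or block `B`), `q` = outside of the base window, `γ` = the
response of the base window (a function of its ends), `g` = the response of a finer window, `G_t` has the log weights `w + t g`.
`Zr w p a γ = cE γ - (a/3) cV γ`. -/
theorem crossW81 (w g : X → ℝ) {p : X → Y} {q : X → Z} (hc : Crs p q) {γ : X → ℝ} (hγ : Mp q γ) {f : X → ℝ} (hf : Mp p f) :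
    Ac (fun a => gc (w + a • g) (Zr (w + a • g) p a γ) f) = Dc (fun t => gm (w + t • g) f) +
      (1 / 4) * (∫ t in (-1 : ℝ)..1, (1 - t ^ 2) * DX p (w + t • g) g [[γ], [g]] [f]) -
      (1 / 12) * (∫ t in (-1 : ℝ)..1, t * (1 - t ^ 2) * D2X p (w + t • g) g γ g [f]) -
      (∫ s in (-1 : ℝ)..1, ∫ t in (-1 : ℝ)..1, Kn81 t s * cm [g, cV (w + s • g) q g, f] (w + t • g)) +
      Mc (fun t => gc (w + t • g) (γ - gb81 w g q) f) +
      (1 / 3) * Ac (fun a => a * gc (w + a • g) (cC (w + a • g) p γ (cE (w + a • g) q g - γ)) f) := by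
  have h := crossX_VT γ g w p hf
  have e1 : ∀ a : ℝ, gc (w + a • g) (cE (w + a • g) p γ - (a / 3) • cC (w + a • g) p γ g) f =
      gc (w + a • g) (Zr (w + a • g) p a γ) f -
        (1 / 3) * (a * gc (w + a • g) (cC (w + a • g) p γ (cE (w + a • g) q g - γ)) f) := fun a => by
    have e2 : cE (w + a • g) p γ - (a / 3) • cC (w + a • g) p γ g = Zr (w + a • g) p a γ +
        (-(a / 3)) • cC (w + a • g) p γ (cE (w + a • g) q g - γ) := by
      unfold Zr cV
      rw [cC_pull hc hγ g, sub_eq_add_neg (cE (w + a • g) q g) γ, cC_add_right, ← neg_one_smul ℝ γ, cC_smul_right]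
      module
    rw [e2, gc_add_left, gc_smul_left]
    ring
  have e3 : Ac (fun a => gc (w + a • g) (cE (w + a • g) p γ - (a / 3) • cC (w + a • g) p γ g) f) =
      Ac (fun a => gc (w + a • g) (Zr (w + a • g) p a γ) f) -
        (1 / 3) * Ac (fun a => a * gc (w + a • g) (cC (w + a • g) p γ (cE (w + a • g) q g - γ)) f) := by
    unfold Ac
    beta_reduce
    rw [e1, e1]
    ring
  have e4 : Mc (fun t => gc (w + t • g) (cE (w + t • g) p (γ - g)) f) =
      Mc (fun t => gc (w + t • g) (γ - gb81 w g q) f) -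
      ∫ s in (-1 : ℝ)..1, ∫ t in (-1 : ℝ)..1, Kn81 t s * cm [g, cV (w + s • g) q g, f] (w + t • g) := by
    have h2 := E2a81 w g q (hf.of_crs hc)
    have e5 : ∀ t : ℝ, gc (w + t • g) (cE (w + t • g) p (γ - g)) f =
        gc (w + t • g) (γ - gb81 w g q) f + gc (w + t • g) (gb81 w g q - g) f := fun t => by
      rw [gc_cE_left _ _ hf, ← gc_add_left]
      congr 1
      abel
    have cw : Continuous fun t : ℝ => w + t • g := continuous_line w g
    have c1 : Continuous fun t : ℝ => gc (w + t • g) (γ - gb81 w g q) f := continuous_gc cw continuous_const f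
    have c2 : Continuous fun t : ℝ => gc (w + t • g) (gb81 w g q - g) f := continuous_gc cw continuous_const f
    have e6 : Mc (fun t => gc (w + t • g) (γ - gb81 w g q) f + gc (w + t • g) (gb81 w g q - g) f) =
        Mc (fun t => gc (w + t • g) (γ - gb81 w g q) f) + Mc (fun t => gc (w + t • g) (gb81 w g q - g) f) := by
      unfold Mc
      rw [intervalIntegral.integral_add (c1.intervalIntegrable _ _) (c2.intervalIntegrable _ _)]
      ring
    simp_rw [e5]
    rw [e6, h2]
    ring
  rw [e3, e4] at h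
  linarith

/-- The double tie of `crossW81` with the exact response: `(1/3) A a Cov(cC(γ, F_a - gb), f)`. -/
theorem crossW81_tie (w g : X → ℝ) (p : X → Y) (q : X → Z) (γ f : X → ℝ) :
    (1 / 3) * Ac (fun a => a * gc (w + a • g) (cC (w + a • g) p γ (cE (w + a • g) q g - gb81 w g q)) f) =
      (1 / 6) * Ac (fun a => ∫ u in (-1 : ℝ)..1, (1 + a * u) *
        gc (w + a • g) (cC (w + a • g) p γ (cV (w + u • g) q g)) f) := by
  have k : ∀ a : ℝ, ∃ L : (X → ℝ) →L[ℝ] ℝ, ∀ h, L h = gc (w + a • g) (cC (w + a • g) p γ h) f := fun a => by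
    refine ⟨LinearMap.toContinuousLinearMap
      { toFun := fun h => gc (w + a • g) (cC (w + a • g) p γ h) f
        map_add' := fun h h' => by rw [cC_add_right, gc_add_left]
        map_smul' := fun c h => by rw [cC_smul_right, gc_smul_left]; rfl }, fun h => rfl⟩
  have e : ∀ a : ℝ, (a = 1 ∨ a = -1) →
      a * gc (w + a • g) (cC (w + a • g) p γ (cE (w + a • g) q g - gb81 w g q)) f =
      (1 / 2) * ∫ u in (-1 : ℝ)..1, (1 + a * u) * gc (w + a • g) (cC (w + a • g) p γ (cV (w + u • g) q g)) f := fun a ha => by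
    obtain ⟨L, hL⟩ := k a
    have := E2b81 L w g q ha
    simp_rw [hL] at this
    exact this
  unfold Ac
  beta_reduce
  rw [e 1 (Or.inl rfl), e (-1) (Or.inr rfl)]
  ring

/-! ### Fixed ends (change of the base window) -/

theorem continuous_cE {U : Type*} [TopologicalSpace U] {W F : U → X → ℝ} (hW : Continuous W) (hF : Continuous F)
    (p : X → Y) (x : X) : Continuous fun u => cE (W u) p (F u) x := by
  have c1 : ∀ x', Continuous fun u => Real.exp (W u x') := fun x' => Real.continuous_exp.comp ((continuous_apply x').comp hW)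
  have c2 : ∀ x', Continuous fun u => F u x' := fun x' => (continuous_apply x').comp hF
  have c3 : Continuous fun u => fz (W u) p x := by
    unfold fz
    refine continuous_finsetSum _ fun x' _ => ?_
    split_ifs
    · exact c1 x'
    · exact continuous_const
  unfold cE
  refine Continuous.div ?_ c3 fun u => (fz_pos _ _ _).ne'
  refine continuous_finsetSum _ fun x' _ => ?_
  split_ifs
  · exact (c1 x').mul (c2 x')
  · exact continuous_const

theorem continuous_cC {U : Type*} [TopologicalSpace U] {W F F' : U → X → ℝ} (hW : Continuous W) (hF : Continuous F)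
    (hF' : Continuous F') (p : X → Y) (x : X) : Continuous fun u => cC (W u) p (F u) (F' u) x :=
  (continuous_cE hW (hF.mul hF') p x).sub ((continuous_cE hW hF p x).mul (continuous_cE hW hF' p x))

/-- The conditional mean at `x` as a continuous linear functional. -/
def Lx (w : X → ℝ) (p : X → Y) (x : X) : (X → ℝ) →L[ℝ] ℝ :=
  LinearMap.toContinuousLinearMap
    { toFun := fun h => cE w p h x
      map_add' := fun h h' => by rw [cE_add]; rfl
      map_smul' := fun c h => by rw [cE_smul]; rfl }

theorem Lx_apply (w : X → ℝ) (p : X → Y) (x : X) (h : X → ℝ) : Lx w p x h = cE w p h x := rfl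

/-- Green formula for the conditional means given `p`. -/
theorem E2a81_ends (w g : X → ℝ) {p : X → Y} {q : X → Z} (hc : Crs p q) (x : X) :
    Mc (fun t => cE (w + t • g) p (gb81 w g q - g) x) =
      -∫ s in (-1 : ℝ)..1, ∫ t in (-1 : ℝ)..1, Kn81 t s * cC (w + t • g) p g (cV (w + s • g) q g) x := by
  have cw : Continuous fun x : ℝ × ℝ => w + x.1 • g := by fun_prop
  have cF : Continuous fun x : ℝ × ℝ => cE (w + x.2 • g) q g := (continuous_cE_line q w g g).comp continuous_snd
  have cV' : Continuous fun x : ℝ × ℝ => cV (w + x.2 • g) q g := (continuous_cV_line q w g).comp continuous_snd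
  have cI : Continuous (Function.uncurry fun t s : ℝ => cE (w + t • g) p (cE (w + s • g) q g) x) :=
    continuous_cE cw cF p x
  have cD : Continuous fun t : ℝ => cE (w + t • g) p (cE (w + t • g) q g) x :=
    continuous_cE (continuous_line w g) (continuous_cE_line q w g g) p x
  have h := green81 (I := fun t s => cE (w + t • g) p (cE (w + s • g) q g) x)
    (A := fun t s => cE (w + t • g) p (cV (w + s • g) q g) x)
    (J := fun t s => cC (w + t • g) p g (cV (w + s • g) q g) x)
    (fun t s => (Lx (w + t • g) p x).hasFDerivAt.comp_hasDerivAt s (hasDerivAt_cV q w g s))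
    (fun t s => (hasDerivAt_pi.1 (hasDerivAt_cE p w g (cV (w + s • g) q g) t)) x)
    (continuous_cE cw cV' p x) (continuous_cC cw continuous_const cV' p x) cD
    (continuous_parametric_intervalIntegral_of_continuous' (μ := volume) cI (-1) 1)
  rw [← h]
  have e1 : ∀ t : ℝ, cE (w + t • g) p (gb81 w g q - g) x =
      Mc (fun s => cE (w + t • g) p (cE (w + s • g) q g) x) - cE (w + t • g) p (cE (w + t • g) q g) x := fun t => by
    have e2 := lin81 (Lx (w + t • g) p x) w g q
    simp_rw [Lx_apply] at e2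
    rw [cE_sub, Pi.sub_apply, e2, cE_tower _ hc]
  simp_rw [e1]
  have c1 : Continuous fun t : ℝ => Mc fun s => cE (w + t • g) p (cE (w + s • g) q g) x := by
    unfold Mc
    exact (continuous_parametric_intervalIntegral_of_continuous' (μ := volume) cI (-1) 1).const_mul _
  show (1 / 2 : ℝ) * (∫ t in (-1 : ℝ)..1, (Mc (fun s => cE (w + t • g) p (cE (w + s • g) q g) x) -
    cE (w + t • g) p (cE (w + t • g) q g) x)) = _
  rw [intervalIntegral.integral_sub (c1.intervalIntegrable _ _) (cD.intervalIntegrable _ _)]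
  show _ = (1 / 2 : ℝ) * (∫ t in (-1 : ℝ)..1, Mc (fun s => cE (w + t • g) p (cE (w + s • g) q g) x)) -
    (1 / 2 : ℝ) * ∫ t in (-1 : ℝ)..1, cE (w + t • g) p (cE (w + t • g) q g) x
  ring

theorem Mc_add81 {f g : ℝ → ℝ} (hf : Continuous f) (hg : Continuous g) : Mc (fun t => f t + g t) = Mc f + Mc g := by
  unfold Mc
  rw [intervalIntegral.integral_add (hf.intervalIntegrable _ _) (hg.intervalIntegrable _ _)]
  ring

/-- **Fixed ends**: `p` = outside of a larger window, `q` = outside of the base window; the mean over the sign of `Zr` minus the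
response `gb81 w g p` of the larger window. -/
theorem crossW81_ends (w g : X → ℝ) {p : X → Y} {q : X → Z} (hc : Crs p q) {γ : X → ℝ} (hγ : Mp q γ) (x : X) :
    Ac (fun a => Zr (w + a • g) p a γ x) = gb81 w g p x -
      (1 / 12) * (∫ t in (-1 : ℝ)..1, t * (1 - t ^ 2) * kX p [g, g, γ, g] (w + t • g) x) -
      (∫ s in (-1 : ℝ)..1, ∫ t in (-1 : ℝ)..1, Kn81 t s * cC (w + t • g) p g (cV (w + s • g) q g) x) +
      Mc (fun t => cE (w + t • g) p (γ - gb81 w g q) x) +
      (1 / 3) * Ac (fun a => a * cC (w + a • g) p γ (cE (w + a • g) q g - γ) x) := by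
  have dl : ∀ t : ℝ, HasDerivAt (fun u : ℝ => w + u • g) g t := fun t => hasDerivAt_line w g t
  have ck : ∀ gs : List (X → ℝ), Continuous fun t : ℝ => kX p gs (w + t • g) x := fun gs =>
    (continuous_apply x).comp ((continuous_kX p gs).comp (continuous_line w g))
  have h := formX (h1 := fun t => cE (w + t • g) p γ x) (φ := fun _ => 0) (φ1 := fun _ => 0)
    (ψ := fun t => kX p [γ, g] (w + t • g) x) (ψ1 := fun t => kX p [g, γ, g] (w + t • g) x)
    (ψ2 := fun t => kX p [g, g, γ, g] (w + t • g) x)
    (fun t => by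
      have h1 := (hasDerivAt_pi.1 (hasDerivAt_cE p w g γ t)) x
      refine h1.congr_deriv ?_
      rw [zero_add, kX_two, cC_symm])
    (fun t => hasDerivAt_const _ _) (fun t => hasDerivAt_kX p [γ, g] (dl t) x) (fun t => hasDerivAt_kX p [g, γ, g] (dl t) x)
    continuous_const (ck _)
  simp only [kX_two, mul_zero, intervalIntegral.integral_zero, add_zero] at h
  have e1 : ∀ a : ℝ, cE (w + a • g) p γ x - a / 3 * cC (w + a • g) p γ g x = Zr (w + a • g) p a γ x -
      (1 / 3) * (a * cC (w + a • g) p γ (cE (w + a • g) q g - γ) x) := fun a => by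
    unfold Zr cV
    rw [cC_pull hc hγ g, sub_eq_add_neg (cE (w + a • g) q g) γ, cC_add_right, ← neg_one_smul ℝ γ, cC_smul_right]
    simp only [Pi.sub_apply, Pi.add_apply, Pi.smul_apply, smul_eq_mul]
    ring
  have e3 : Ac (fun a => cE (w + a • g) p γ x - a / 3 * cC (w + a • g) p γ g x) =
      Ac (fun a => Zr (w + a • g) p a γ x) -
        (1 / 3) * Ac (fun a => a * cC (w + a • g) p γ (cE (w + a • g) q g - γ) x) := by
    unfold Ac
    beta_reduce
    rw [e1, e1]
    ring
  have c0 : ∀ F : X → ℝ, Continuous fun t : ℝ => cE (w + t • g) p F x := fun F =>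
    continuous_cE (continuous_line w g) continuous_const p x
  have e4 : Mc (fun t => cE (w + t • g) p γ x) = gb81 w g p x + Mc (fun t => cE (w + t • g) p (γ - gb81 w g q) x) +
      Mc (fun t => cE (w + t • g) p (gb81 w g q - g) x) := by
    rw [gb81_apply, ← Mc_add81 (c0 g) (c0 (γ - gb81 w g q)),
      ← Mc_add81 (f := fun t => cE (w + t • g) p g x + cE (w + t • g) p (γ - gb81 w g q) x)
        ((c0 g).add (c0 (γ - gb81 w g q))) (c0 (gb81 w g q - g))]
    congr 1
    funext t
    show cE (w + t • g) p γ x = cE (w + t • g) p g x + cE (w + t • g) p (γ - gb81 w g q) x +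
      cE (w + t • g) p (gb81 w g q - g) x
    rw [cE_sub, cE_sub]
    simp only [Pi.sub_apply]
    ring
  rw [e3, e4, E2a81_ends w g hc x] at h
  linarith

/-- The double tie of `crossW81_ends` with the exact response. -/
theorem crossW81_ends_tie (w g : X → ℝ) (p : X → Y) (q : X → Z) (γ : X → ℝ) (x : X) :
    (1 / 3) * Ac (fun a => a * cC (w + a • g) p γ (cE (w + a • g) q g - gb81 w g q) x) =
      (1 / 6) * Ac (fun a => ∫ u in (-1 : ℝ)..1, (1 + a * u) * cC (w + a • g) p γ (cV (w + u • g) q g) x) := by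
  have k : ∀ a : ℝ, ∃ L : (X → ℝ) →L[ℝ] ℝ, ∀ h, L h = cC (w + a • g) p γ h x := fun a => by
    refine ⟨LinearMap.toContinuousLinearMap
      { toFun := fun h => cC (w + a • g) p γ h x
        map_add' := fun h h' => by rw [cC_add_right]; rfl
        map_smul' := fun c h => by rw [cC_smul_right]; rfl }, fun h => rfl⟩
  have e : ∀ a : ℝ, (a = 1 ∨ a = -1) → a * cC (w + a • g) p γ (cE (w + a • g) q g - gb81 w g q) x =
      (1 / 2) * ∫ u in (-1 : ℝ)..1, (1 + a * u) * cC (w + a • g) p γ (cV (w + u • g) q g) x := fun a ha => by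
    obtain ⟨L, hL⟩ := k a
    have := E2b81 L w g q ha
    simp_rw [hL] at this
    exact this
  unfold Ac
  beta_reduce
  rw [e 1 (Or.inl rfl), e (-1) (Or.inr rfl)]
  ring

end

end Pool.W7d29a1.C0
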