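import Pool.Agent.W_7d29a1_C0.Mod92C
import Pool.Agent.W_7d29a1_C0.CrossW81

/-!
MP_7d29a1_pr, [CURV0], section 7 (E5), helper5: THE CHANGE OF BASE `b → b'` AT A FIXED FRAME (`σ` fixed), EXACT ALGEBRA.

`Zs_base5`: the difference of the two functionals is `cE_J (D5)`, `D5 = ∑_j (X_j - (a_j / 3) R_j)`, `X_j = Zr_{W'} g_j - g'_j` (main
part), `R_j = 2 cC_B(g'_j, η_j) + cV_B η_j`, `η_j = cE_{W'} g_j - g'_j`. `X5_split`: `X_j = N1 + N2 + Cl + a_j M_j` with the finer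
window `b0` (`crossW81_ends`), where `N1`, `N2`, `Cl`, `M` depend only on the family `t ↦ lw + (t - a_j) g_j^{(b0)}` and on the clipped
responses.
-/

set_option autoImplicit false
set_option linter.unusedSectionVars false

namespace Pool.Agent.W_7d29a1_C0.Base5

open Finset MeasureTheory Pool.Agent.W_7d29a1_F Pool.Agent.W_7d29a1_X Pool.Agent.W_7d29a1_H
open Pool.W7d29a1.C0 Pool.W7d29a1.C0.VT31 Pool.Agent.W_7d29a1_C0 Pool.Agent.W_7d29a1_C0.Mod92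

noncomputable section

/-! ### One row, one block -/

section abstract

variable {X : Type*} [Fintype X] [DecidableEq X] [Nonempty X] {Y Y' Z : Type*} [DecidableEq Y] [DecidableEq Y'] [DecidableEq Z]
variable {ι : Type*} [DecidableEq ι]

/-- The main part of the change of base of one row: `p` is the large window, `g` the small base, `g'` the large base. -/
def Xg (w : X → ℝ) (u : X → Z) (a : ℝ) (g g' : X → ℝ) : X → ℝ := Zr w u a g - g'

/-- The error of the response given the large window. -/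
def Eg (w : X → ℝ) (u : X → Z) (g g' : X → ℝ) : X → ℝ := cE w u g - g'

/-- The second part of the change of base. -/
def Rg (w : X → ℝ) (p : X → Y) (u : X → Z) (g g' : X → ℝ) : X → ℝ :=
  (2 : ℝ) • cC w p g' (Eg w u g g') + cV w p (Eg w u g g')

theorem mp_Xg (w : X → ℝ) (u : X → Z) (a : ℝ) (g : X → ℝ) {g' : X → ℝ} (h : Mp u g') : Mp u (Xg w u a g g') :=
  (Zr_meas w u a g).sub h

theorem mp_Eg (w : X → ℝ) (u : X → Z) (g : X → ℝ) {g' : X → ℝ} (h : Mp u g') : Mp u (Eg w u g g') := (cE_meas w u g).sub h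

theorem mp_Rg (w : X → ℝ) (p : X → Y) (u : X → Z) (g g' : X → ℝ) : Mp p (Rg w p u g g') :=
  ((cC_meas w p _ _).smul 2).add (cV_meas w p _)

/-- One row. -/
theorem Zr_base5 (w : X → ℝ) {p : X → Y} {u : X → Z} (hc : Crs p u) (a : ℝ) (g g' : X → ℝ) :
    Zr w p a g - Zr w p a g' = cE w p (Xg w u a g g' - (a / 3) • Rg w p u g g') := by
  rw [cE_sub, cE_smul, cE_of_meas w (mp_Rg w p u g g'), Zr_base w hc a g g']
  unfold Xg Rg Eg
  abel

/-- All the rows of a block. -/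
theorem Zb_base5 (w : X → ℝ) {p : X → Y} (S : Finset ι) {u : ι → X → Z} (hc : ∀ j ∈ S, Crs p (u j)) (a : ι → ℝ)
    (g g' : ι → X → ℝ) :
    Zb w p S a g - Zb w p S a g' = cE w p (∑ j ∈ S, (Xg w (u j) (a j) (g j) (g' j) - (a j / 3) • Rg w p (u j) (g j) (g' j))) := by
  unfold Zb
  rw [cE_sum, ← sum_sub_distrib]
  exact sum_congr rfl fun j hj => Zr_base5 w (hc j hj) (a j) (g j) (g' j)

/-- All the blocks. -/
theorem cE_base5 {κ : Type*} (w : X → ℝ) {q : X → Y'} (K : Finset κ) {p : κ → X → Y} (hq : ∀ k ∈ K, Crs q (p k))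
    (S : κ → Finset ι) {u : ι → X → Z} (hc : ∀ k ∈ K, ∀ j ∈ S k, Crs (p k) (u j)) (a : ι → ℝ) (g g' : ι → X → ℝ) :
    cE w q (∑ k ∈ K, Zb w (p k) (S k) a g) - cE w q (∑ k ∈ K, Zb w (p k) (S k) a g') =
      cE w q (∑ k ∈ K, ∑ j ∈ S k, (Xg w (u j) (a j) (g j) (g' j) - (a j / 3) • Rg w (p k) (u j) (g j) (g' j))) := by
  rw [← cE_sub, ← sum_sub_distrib, cE_sum, cE_sum]
  refine sum_congr rfl fun k hk => ?_
  rw [Zb_base5 w (S k) (hc k hk) a g g', cE_tower w (hq k hk)]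

/-! ### The even and the odd part in the sign of the row -/

/-- The family of `Zr` at fixed ends of the large window, along the kick: `w0 + t g0`. -/
def Fg (w0 g0 : X → ℝ) (u : X → Z) (γ : X → ℝ) (x : X) (t : ℝ) : ℝ := Zr (w0 + t • g0) u t γ x

/-- The odd part. -/
def Mg (w0 g0 : X → ℝ) (u : X → Z) (γ : X → ℝ) (x : X) : ℝ := Dc (Fg w0 g0 u γ x)

/-- The whole third order part (main part of the even part). -/
def N1g (w0 g0 : X → ℝ) (u : X → Z) (γ : X → ℝ) (x : X) : ℝ :=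
  -((1 / 12) * ∫ t in (-1 : ℝ)..1, t * (1 - t ^ 2) * kX u [g0, g0, γ, g0] (w0 + t • g0) x)

variable {V : Type*} [DecidableEq V]

/-- The double ties of the even part: `v` is the small window. -/
def N2g (w0 g0 : X → ℝ) (u : X → Z) (v : X → V) (γ : X → ℝ) (x : X) : ℝ :=
  -(∫ s in (-1 : ℝ)..1, ∫ t in (-1 : ℝ)..1, Kn81 t s * cC (w0 + t • g0) u g0 (cV (w0 + s • g0) v g0) x) +
    (1 / 6) * Ac (fun a => ∫ r in (-1 : ℝ)..1, (1 + a * r) * cC (w0 + a • g0) u γ (cV (w0 + r • g0) v g0) x)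

/-- The clipping errors. -/
def Clg (w0 g0 : X → ℝ) (u : X → Z) (v : X → V) (γ g' : X → ℝ) (x : X) : ℝ :=
  (gb81 w0 g0 u x - g' x) + Mc (fun t => cE (w0 + t • g0) u (γ - gb81 w0 g0 v) x) +
    (1 / 3) * Ac (fun a => a * cC (w0 + a • g0) u γ (gb81 w0 g0 v - γ) x)

/-- **The even part at fixed ends of the large window** (`crossW81_ends`). -/
theorem even5 (w0 g0 : X → ℝ) {u : X → Z} {v : X → V} (hc : Crs u v) {γ : X → ℝ} (hγ : Mp v γ) (g' : X → ℝ) (x : X) :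
    Ac (Fg w0 g0 u γ x) - g' x = N1g w0 g0 u γ x + N2g w0 g0 u v γ x + Clg w0 g0 u v γ g' x := by
  have h := crossW81_ends w0 g0 hc hγ x
  have h2 := crossW81_ends_tie w0 g0 u v γ x
  have e : Ac (fun a => a * cC (w0 + a • g0) u γ (cE (w0 + a • g0) v g0 - γ) x) =
      Ac (fun a => a * cC (w0 + a • g0) u γ (cE (w0 + a • g0) v g0 - gb81 w0 g0 v) x) +
        Ac (fun a => a * cC (w0 + a • g0) u γ (gb81 w0 g0 v - γ) x) := by
    have e1 : ∀ a : ℝ, cC (w0 + a • g0) u γ (cE (w0 + a • g0) v g0 - γ) x =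
        cC (w0 + a • g0) u γ (cE (w0 + a • g0) v g0 - gb81 w0 g0 v) x + cC (w0 + a • g0) u γ (gb81 w0 g0 v - γ) x := fun a => by
      rw [← Pi.add_apply, ← cC_add_right, sub_add_sub_cancel]
    unfold Ac
    beta_reduce
    rw [e1, e1]
    ring
  have e3 : Ac (Fg w0 g0 u γ x) = Ac (fun a => Zr (w0 + a • g0) u a γ x) := rfl
  rw [e3, h]
  unfold N1g N2g Clg
  rw [e]
  linarith [h2]

/-- **The main part of the change of base, one row**: `a = ± 1` the sign, `w = w0 + a g0` the actual weights. -/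
theorem Xg_split (w g0 : X → ℝ) {u : X → Z} {v : X → V} (hc : Crs u v) {γ : X → ℝ} (hγ : Mp v γ) (g' : X → ℝ) {a : ℝ}
    (ha : a = 1 ∨ a = -1) (x : X) :
    Xg w u a γ g' x = N1g (w - a • g0) g0 u γ x + N2g (w - a • g0) g0 u v γ x + Clg (w - a • g0) g0 u v γ g' x +
      a * Mg (w - a • g0) g0 u γ x := by
  have h := even5 (w - a • g0) g0 hc hγ g' x
  have e : Zr w u a γ x = Fg (w - a • g0) g0 u γ x a := by
    unfold Fg
    rw [sub_add_cancel]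
  have e2 : Fg (w - a • g0) g0 u γ x a = Ac (Fg (w - a • g0) g0 u γ x) + a * Dc (Fg (w - a • g0) g0 u γ x) := by
    unfold Ac Dc
    rcases ha with h1 | h1 <;> subst h1 <;> ring
  unfold Xg Mg
  rw [Pi.sub_apply, e, e2]
  linarith

end abstract

/-! ### The model -/

variable {μ : Measure ℝ} {s : ℝ} {N : ℕ} {Q : Finset (Finset ℕ)}

/-- Outside of the (centred) window `[j - b, j + b)` of the row `j`. -/
abbrev pW (b j : ℕ) : Px Q → Finset ℕ × ℕ := pJ (j - b) (j + b)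

/-- Outside of the block of the grid of length `σ` of the row `j`. -/
abbrev pB (σ j : ℕ) : Px Q → Finset ℕ × ℕ := pJ (j / σ * σ) (j / σ * σ + σ)

/-- Nested windows. -/
theorem crs_pW {b b' : ℕ} (h : b ≤ b') (j : ℕ) : Crs (pW (Q := Q) b' j) (pW (Q := Q) b j) :=
  crs_pJ (Nat.sub_le_sub_left h j) (Nat.add_le_add_left h j)

/-- The window of a deep row is in its block. -/
theorem crs_pB {R : Finset ℕ} {b σ : ℕ} (h : Deep R b σ) {j : ℕ} (hj : j ∈ R) : Crs (pB (Q := Q) σ j) (pW (Q := Q) b j) := by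
  obtain ⟨h1, h2⟩ := h j hj
  rw [Nat.succ_mul] at h2
  exact crs_pJ (by omega) h2

/-- The main part of the change of base `b → b'` of the row `j`. -/
def X5 (μ : Measure ℝ) (s : ℝ) (N : ℕ) (Q : Finset (Finset ℕ)) (δ B : ℝ) (b b' : ℕ) (ω : Env × Finset ℕ) (j : ℕ) : Px Q → ℝ :=
  Xg (wm μ s N Q ω) (pW b' j) (sr ω.2 j) (gg μ s Q δ B b ω j) (gg μ s Q δ B b' ω j)

/-- The second part (`η` terms) in the block of length `σ` of the row `j`. -/
def R5 (μ : Measure ℝ) (s : ℝ) (N : ℕ) (Q : Finset (Finset ℕ)) (δ B : ℝ) (b b' σ : ℕ) (ω : Env × Finset ℕ) (j : ℕ) : Px Q → ℝ :=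
  Rg (wm μ s N Q ω) (pB σ j) (pW b' j) (gg μ s Q δ B b ω j) (gg μ s Q δ B b' ω j)

/-- **The change of base before the conditional mean**: a function of the path, a sum over the kicked rows of the block. -/
def D5 (μ : Measure ℝ) (s : ℝ) (N : ℕ) (Q : Finset (Finset ℕ)) (δ B : ℝ) (b b' σ : ℕ) (R : Finset ℕ) (c d : ℕ)
    (ω : Env × Finset ℕ) : Px Q → ℝ :=
  ∑ j ∈ Rw R c d, (X5 μ s N Q δ B b b' ω j - (sr ω.2 j / 3) • R5 μ s N Q δ B b b' σ ω j)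

/-- The rows of a block of the grid are the rows of its blocks of length `σ`. -/
theorem sum_rows5 {M : Type*} [AddCommMonoid M] (φ : ℕ → M) {σ : ℕ} (hσ : 0 < σ) (R : Finset ℕ) {c d : ℕ} (hc : σ ∣ c) (hd : σ ∣ d) :
    ∑ k ∈ Ico (c / σ) (d / σ), ∑ j ∈ Rw R (k * σ) ((k + 1) * σ), φ j = ∑ j ∈ Rw R c d, φ j := by
  obtain ⟨c', rfl⟩ := hc
  obtain ⟨d', rfl⟩ := hd
  rw [Nat.mul_div_cancel_left _ hσ, Nat.mul_div_cancel_left _ hσ]
  have hm : ∀ j ∈ Rw R (σ * c') (σ * d'), j / σ ∈ Ico c' d' := fun j hj => by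
    unfold Rw at hj
    rw [mem_inter, mem_Ico] at hj
    rw [mem_Ico, Nat.le_div_iff_mul_le hσ, Nat.div_lt_iff_lt_mul hσ, mul_comm c' σ, mul_comm d' σ]
    exact hj.2
  rw [← sum_fiberwise_of_maps_to hm]
  refine sum_congr rfl fun k hk => sum_congr ?_ fun _ _ => rfl
  rw [mem_Ico] at hk
  ext j
  unfold Rw
  simp only [mem_filter, mem_inter, mem_Ico]
  constructor
  · rintro ⟨h1, h2, h3⟩
    have e : j / σ = k := by
      refine Nat.div_eq_of_lt_le ?_ ?_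
      · exact h2
      · exact h3
    refine ⟨⟨h1, ?_, ?_⟩, e⟩
    · calc σ * c' ≤ σ * k := Nat.mul_le_mul_left σ hk.1
        _ = k * σ := mul_comm _ _
        _ ≤ j := h2
    · calc j < (k + 1) * σ := h3
        _ ≤ d' * σ := Nat.mul_le_mul_right σ hk.2
        _ = σ * d' := mul_comm _ _
  · rintro ⟨⟨h1, h2, h3⟩, e⟩
    refine ⟨h1, ?_, ?_⟩
    · rw [← e]
      exact Nat.div_mul_le_self _ _
    · rw [← e, Nat.succ_mul]
      exact Nat.lt_div_mul_add hσ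

variable [Nonempty (Px Q)]

/-- **THE CHANGE OF BASE, EXACT.** -/
theorem Zs_base5 (δ B : ℝ) (b : ℕ) {b' σ : ℕ} (hσ : 0 < σ) {R : Finset ℕ} (hb : Deep R b' σ) {c d : ℕ} (hc : σ ∣ c) (hd : σ ∣ d)
    (ω : Env × Finset ℕ) :
    Zs μ s N Q δ B b σ R c d ω - Zs μ s N Q δ B b' σ R c d ω =
      cE (wm μ s N Q ω) (pJ c d) (D5 μ s N Q δ B b b' σ R c d ω) := by
  have hk : ∀ k ∈ Ico (c / σ) (d / σ), Crs (pJ (Q := Q) c d) (pJ (k * σ) ((k + 1) * σ)) := fun k hk => by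
    obtain ⟨c', rfl⟩ := hc
    obtain ⟨d', rfl⟩ := hd
    rw [mem_Ico, Nat.mul_div_cancel_left _ hσ, Nat.mul_div_cancel_left _ hσ] at hk
    refine crs_pJ ?_ ?_
    · calc σ * c' ≤ σ * k := Nat.mul_le_mul_left σ hk.1
        _ = k * σ := mul_comm _ _
    · calc (k + 1) * σ ≤ d' * σ := Nat.mul_le_mul_right σ hk.2
        _ = σ * d' := mul_comm _ _
  have hj : ∀ k, ∀ j ∈ Rw R (k * σ) ((k + 1) * σ), j / σ = k := fun k j hj => by
    unfold Rw at hj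
    rw [mem_inter, mem_Ico] at hj
    exact Nat.div_eq_of_lt_le hj.2.1 hj.2.2
  have hU : ∀ k ∈ Ico (c / σ) (d / σ), ∀ j ∈ Rw R (k * σ) ((k + 1) * σ), Crs (pJ (Q := Q) (k * σ) ((k + 1) * σ)) (pW b' j) :=
    fun k _ j h => by
      have h1 := crs_pB (Q := Q) hb (mem_inter.1 h).1
      unfold pB at h1
      rw [hj k j h, ← Nat.succ_mul] at h1
      exact h1
  have h := cE_base5 (wm μ s N Q ω) (q := pJ (Q := Q) c d) (Ico (c / σ) (d / σ)) hk (fun k => Rw R (k * σ) ((k + 1) * σ)) hU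
    (sr ω.2) (gg μ s Q δ B b ω) (gg μ s Q δ B b' ω)
  unfold Zs Zt Zm
  rw [h]
  congr 1
  unfold D5
  rw [← sum_rows5 _ hσ R hc hd]
  refine sum_congr rfl fun k hk => sum_congr rfl fun j hj' => ?_
  unfold X5 R5
  have e : pB (Q := Q) σ j = pJ (k * σ) ((k + 1) * σ) := by
    show pJ (j / σ * σ) (j / σ * σ + σ) = _
    rw [hj k j hj', ← Nat.succ_mul]
  rw [e]

/-! ### The split of one row, with the finer window `b0` -/

/-- The weights with the kick of the row `j` taken out (at the base `b0`). -/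
def w5 (μ : Measure ℝ) (s : ℝ) (N : ℕ) (Q : Finset (Finset ℕ)) (δ B : ℝ) (b0 : ℕ) (ω : Env × Finset ℕ) (j : ℕ) : Px Q → ℝ :=
  wm μ s N Q ω - (sr ω.2 j) • gg μ s Q δ B b0 ω j

/-- The weights `w5 + t g` are the weights `wt` of the kick at `t`. -/
theorem w5_add (δ B : ℝ) (b0 : ℕ) (ω : Env × Finset ℕ) (j : ℕ) (t : ℝ) :
    w5 μ s N Q δ B b0 ω j + t • gg μ s Q δ B b0 ω j = wt μ s ω.1 N Q δ B b0 j (sg ω.2 j) t := by
  unfold w5 wm wt sr Mod92.gg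
  rw [sub_smul]
  abel

/-- The odd part of the row `j` (it does not depend on the sign of the row). -/
def M5 (μ : Measure ℝ) (s : ℝ) (N : ℕ) (Q : Finset (Finset ℕ)) (δ B : ℝ) (b0 b b' : ℕ) (ω : Env × Finset ℕ) (j : ℕ) (S : Px Q) : ℝ :=
  Mg (w5 μ s N Q δ B b0 ω j) (gg μ s Q δ B b0 ω j) (pW b' j) (gg μ s Q δ B b ω j) S

/-- The whole third order part. -/
def N5 (μ : Measure ℝ) (s : ℝ) (N : ℕ) (Q : Finset (Finset ℕ)) (δ B : ℝ) (b0 b b' : ℕ) (ω : Env × Finset ℕ) (j : ℕ) (S : Px Q) : ℝ :=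
  N1g (w5 μ s N Q δ B b0 ω j) (gg μ s Q δ B b0 ω j) (pW b' j) (gg μ s Q δ B b ω j) S

/-- The double ties. -/
def N25 (μ : Measure ℝ) (s : ℝ) (N : ℕ) (Q : Finset (Finset ℕ)) (δ B : ℝ) (b0 b b' : ℕ) (ω : Env × Finset ℕ) (j : ℕ) (S : Px Q) : ℝ :=
  N2g (w5 μ s N Q δ B b0 ω j) (gg μ s Q δ B b0 ω j) (pW b' j) (pW b j) (gg μ s Q δ B b ω j) S

/-- The clipping errors. -/
def Cl5 (μ : Measure ℝ) (s : ℝ) (N : ℕ) (Q : Finset (Finset ℕ)) (δ B : ℝ) (b0 b b' : ℕ) (ω : Env × Finset ℕ) (j : ℕ) (S : Px Q) : ℝ :=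
  Clg (w5 μ s N Q δ B b0 ω j) (gg μ s Q δ B b0 ω j) (pW b' j) (pW b j) (gg μ s Q δ B b ω j) (gg μ s Q δ B b' ω j) S

theorem sr_or (A : Finset ℕ) (j : ℕ) : sr A j = 1 ∨ sr A j = -1 := by
  unfold sr
  rcases sg_or A j with h | h <;> rw [h] <;> norm_num

/-- **The split of one row.** -/
theorem X5_split (δ B : ℝ) (b0 : ℕ) {b b' : ℕ} (hb : b ≤ b') (ω : Env × Finset ℕ) (j : ℕ) (S : Px Q) :
    X5 μ s N Q δ B b b' ω j S = N5 μ s N Q δ B b0 b b' ω j S + N25 μ s N Q δ B b0 b b' ω j S + Cl5 μ s N Q δ B b0 b b' ω j S +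
      sr ω.2 j * M5 μ s N Q δ B b0 b b' ω j S :=
  Xg_split (wm μ s N Q ω) (gg μ s Q δ B b0 ω j) (crs_pW hb j) (mp_gg δ B b ω j) (gg μ s Q δ B b' ω j) (sr_or ω.2 j) S

/-- The even part of the row `j`: no dependence on its sign, given the two families. -/
theorem even_split (δ B : ℝ) (b0 : ℕ) {b b' : ℕ} (hb : b ≤ b') (ω : Env × Finset ℕ) (j : ℕ) (S : Px Q) :
    Ac (Fg (w5 μ s N Q δ B b0 ω j) (gg μ s Q δ B b0 ω j) (pW b' j) (gg μ s Q δ B b ω j) S) - gg μ s Q δ B b' ω j S =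
      N5 μ s N Q δ B b0 b b' ω j S + N25 μ s N Q δ B b0 b b' ω j S + Cl5 μ s N Q δ B b0 b b' ω j S :=
  even5 _ _ (crs_pW hb j) (mp_gg δ B b ω j) _ S

/-- The five sums. -/
theorem D5_split (δ B : ℝ) (b0 : ℕ) {b b' : ℕ} (hb : b ≤ b') (σ : ℕ) (R : Finset ℕ) (c d : ℕ) (ω : Env × Finset ℕ)
    (S : Px Q) :
    D5 μ s N Q δ B b b' σ R c d ω S = ∑ j ∈ Rw R c d, N5 μ s N Q δ B b0 b b' ω j S +
      ∑ j ∈ Rw R c d, N25 μ s N Q δ B b0 b b' ω j S + ∑ j ∈ Rw R c d, Cl5 μ s N Q δ B b0 b b' ω j S +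
      ∑ j ∈ Rw R c d, sr ω.2 j * M5 μ s N Q δ B b0 b b' ω j S -
      ∑ j ∈ Rw R c d, sr ω.2 j / 3 * R5 μ s N Q δ B b b' σ ω j S := by
  unfold D5
  rw [Finset.sum_apply, ← sum_add_distrib, ← sum_add_distrib, ← sum_add_distrib, ← sum_sub_distrib]
  refine sum_congr rfl fun j _ => ?_
  rw [Pi.sub_apply, Pi.smul_apply, smul_eq_mul, X5_split δ B b0 hb ω j S]

theorem sq5 (a b c d e : ℝ) : (a + b + c + d - e) ^ 2 ≤ 5 * (a ^ 2 + b ^ 2 + c ^ 2 + d ^ 2 + e ^ 2) := by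
  nlinarith [sq_nonneg (a - b), sq_nonneg (a - c), sq_nonneg (a - d), sq_nonneg (a + e), sq_nonneg (b - c), sq_nonneg (b - d),
    sq_nonneg (b + e), sq_nonneg (c - d), sq_nonneg (c + e), sq_nonneg (d + e)]

/-- **The second moment of the change of base, pathwise.** -/
theorem D5_sq (δ B : ℝ) (b0 : ℕ) {b b' : ℕ} (hb : b ≤ b') (σ : ℕ) (R : Finset ℕ) (c d : ℕ) (ω : Env × Finset ℕ)
    (S : Px Q) :
    D5 μ s N Q δ B b b' σ R c d ω S ^ 2 ≤ 5 * ((∑ j ∈ Rw R c d, N5 μ s N Q δ B b0 b b' ω j S) ^ 2 +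
      (∑ j ∈ Rw R c d, N25 μ s N Q δ B b0 b b' ω j S) ^ 2 + (∑ j ∈ Rw R c d, Cl5 μ s N Q δ B b0 b b' ω j S) ^ 2 +
      (∑ j ∈ Rw R c d, sr ω.2 j * M5 μ s N Q δ B b0 b b' ω j S) ^ 2 +
      (∑ j ∈ Rw R c d, sr ω.2 j / 3 * R5 μ s N Q δ B b b' σ ω j S) ^ 2) := by
  rw [D5_split δ B b0 hb σ R c d ω S]
  exact sq5 _ _ _ _ _

end

end Pool.Agent.W_7d29a1_C0.Base5
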