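import Pool.Agent.W_7d29a1_C0.GSRow96
import Pool.Agent.W_7d29a1_C0.Base5

/-!
MP_7d29a1_pr, [CURV0] (helper33): THE CHANGE OF BASE `D5` LOOKS ONLY AT THE BLOCKS OF LENGTH `σ` WITH KICKED ROWS: `D5_rows` (rows of the
environment), `D5_Lk` (positions).
-/

set_option autoImplicit false
set_option linter.unusedSectionVars false

namespace Pool.Agent.W_7d29a1_C0.BasRow33

open Finset MeasureTheory Pool.Agent.W_7d29a1_F Pool.Agent.W_7d29a1_X Pool.Agent.W_7d29a1_H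
open Pool.Agent.W_7d29a1_C0.Mod92
open Pool.W7d29a1.C0 (gz gm lse gz_pos gz_ne gm_nonneg gm_mono gm_const)
open Pool.W7d29a1.C0.VT31
open Pool.Agent.W_7d29a1_C0.Swap57 Pool.Agent.W_7d29a1_C0.E4T32 Pool.Agent.W_7d29a1_C0.Row96 Pool.Agent.W_7d29a1_C0.Base5

noncomputable section

variable {μ : Measure ℝ} {s : ℝ} {N : ℕ} {Q : Finset (Finset ℕ)} [SwQ Q] [Nonempty (Px Q)]

theorem Lk_add {al be : ℕ} {g g' : Px Q → ℝ} (hg : Lk al be g) (hg' : Lk al be g') : Lk al be (g + g') :=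
  fun S S' h => by rw [Pi.add_apply, Pi.add_apply, hg S S' h, hg' S S' h]

theorem Lk_smul {al be : ℕ} {g : Px Q → ℝ} (hg : Lk al be g) (t : ℝ) : Lk al be (t • g) :=
  fun S S' h => by rw [Pi.smul_apply, Pi.smul_apply, hg S S' h]

theorem Lk_cC {c d : ℕ} (hcd : c ≤ d) {w : Px Q → ℝ} (hw : Wk c c d d w) {g g' : Px Q → ℝ} (hg : Lk c d g) (hg' : Lk c d g') :
    Lk c d (cC w (pJ c d) g g') :=
  Lk_sub (Lk_cE hcd hw (Lk_mul hg hg')) (Lk_mul (Lk_cE hcd hw hg) (Lk_cE hcd hw hg'))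

/-- The main part of one row: rows of the environment. -/
theorem X5_rows (δ B : ℝ) {b b' : ℕ} (hb : b ≤ b') {η η' : Env} (A : Finset ℕ) {j : ℕ} (h : Ag (j - b') (j + b') η η') :
    X5 μ s N Q δ B b b' (η, A) j = X5 μ s N Q δ B b b' (η', A) j := by
  unfold X5 Xg
  have h1 : gg μ s Q δ B b (η, A) j = gg μ s Q δ B b (η', A) j := gg_rows δ B b A (h.mono (by omega) (by omega))
  have h2 : gg μ s Q δ B b' (η, A) j = gg μ s Q δ B b' (η', A) j := gg_rows δ B b' A h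
  rw [h1, h2]
  congr 1
  show Pool.W7d29a1.C0.VT31.Zr (lw μ s η N Q) (pW b' j) (sr A j) (gg μ s Q δ B b (η', A) j) =
    Pool.W7d29a1.C0.VT31.Zr (lw μ s η' N Q) (pW b' j) (sr A j) (gg μ s Q δ B b (η', A) j)
  unfold Pool.W7d29a1.C0.VT31.Zr
  rw [show (pW (Q := Q) b' j) = pJ (j - b') (j + b') from rfl, cE_rows h, cV_rows h]

/-- The second part of one row: rows of the environment. -/
theorem R5_rows (δ B : ℝ) {b b' σ : ℕ} (hb : b ≤ b') {η η' : Env} (A : Finset ℕ) {j : ℕ} (h1 : j / σ * σ + b' ≤ j)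
    (h2 : j + b' ≤ j / σ * σ + σ) (h : Ag (j / σ * σ) (j / σ * σ + σ) η η') :
    R5 μ s N Q δ B b b' σ (η, A) j = R5 μ s N Q δ B b b' σ (η', A) j := by
  have h3 : Ag (j - b') (j + b') η η' := h.mono (by omega) h2
  have g1 : gg μ s Q δ B b (η, A) j = gg μ s Q δ B b (η', A) j := gg_rows δ B b A (h3.mono (by omega) (by omega))
  have g2 : gg μ s Q δ B b' (η, A) j = gg μ s Q δ B b' (η', A) j := gg_rows δ B b' A h3
  unfold R5 Rg Eg
  rw [g1, g2]
  show (2 : ℝ) • cC (lw μ s η N Q) (pJ (j / σ * σ) (j / σ * σ + σ)) (gg μ s Q δ B b' (η', A) j)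
      (cE (lw μ s η N Q) (pJ (j - b') (j + b')) (gg μ s Q δ B b (η', A) j) - gg μ s Q δ B b' (η', A) j) +
      cV (lw μ s η N Q) (pJ (j / σ * σ) (j / σ * σ + σ))
        (cE (lw μ s η N Q) (pJ (j - b') (j + b')) (gg μ s Q δ B b (η', A) j) - gg μ s Q δ B b' (η', A) j) =
    (2 : ℝ) • cC (lw μ s η' N Q) (pJ (j / σ * σ) (j / σ * σ + σ)) (gg μ s Q δ B b' (η', A) j)
      (cE (lw μ s η' N Q) (pJ (j - b') (j + b')) (gg μ s Q δ B b (η', A) j) - gg μ s Q δ B b' (η', A) j) +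
      cV (lw μ s η' N Q) (pJ (j / σ * σ) (j / σ * σ + σ))
        (cE (lw μ s η' N Q) (pJ (j - b') (j + b')) (gg μ s Q δ B b (η', A) j) - gg μ s Q δ B b' (η', A) j)
  rw [cE_rows h3, cC_rows h, cV_rows h]

/-- **The change of base sees the rows `al + 1, .., be` of the environment.** -/
theorem D5_rows (δ B : ℝ) {b b' σ : ℕ} (hb : b ≤ b') {R : Finset ℕ} (hD : Deep R b' σ) {c d al be : ℕ}
    (hI : In96 R σ c d al be) {η η' : Env} (A : Finset ℕ) (h : Ag al be η η') :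
    D5 μ s N Q δ B b b' σ R c d (η, A) = D5 μ s N Q δ B b b' σ R c d (η', A) := by
  unfold D5
  refine sum_congr rfl fun j hj => ?_
  obtain ⟨h1, h2⟩ := hD j (mem_inter.1 hj).1
  rw [Nat.succ_mul] at h2
  have h3 := h.mono (hI j hj).1 (hI j hj).2
  rw [X5_rows δ B hb A (h3.mono (by omega) h2), R5_rows δ B hb A h1 h2 h3]

/-- The main part of one row: positions. -/
theorem X5_Lk (δ B : ℝ) {b b' : ℕ} (hb : b ≤ b') (ω : Env × Finset ℕ) (j : ℕ) :
    Lk (j - b') (j + b') (X5 μ s N Q δ B b b' ω j) := by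
  have h1 : Lk (j - b') (j + b') (gg μ s Q δ B b ω j) :=
    Lk_mono (al := j - b) (be := j + b) (by omega) (by omega) (Lk_gg δ B b j ω le_rfl le_rfl)
  have h2 : Lk (j - b') (j + b') (gg μ s Q δ B b' ω j) := Lk_gg δ B b' j ω le_rfl le_rfl
  have hw : Wk (j - b') (j - b') (j + b') (j + b') (wm μ s N Q ω) := Wk_lw ω.1 (by omega)
  exact Lk_sub (Lk_sub (Lk_cE (by omega) hw h1) (Lk_smul (Lk_cV (by omega) hw h1) _)) h2

/-- The second part of one row: positions. -/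
theorem R5_Lk (δ B : ℝ) {b b' σ : ℕ} (hb : b ≤ b') (ω : Env × Finset ℕ) {j : ℕ} (h1 : j / σ * σ + b' ≤ j)
    (h2 : j + b' ≤ j / σ * σ + σ) : Lk (j / σ * σ) (j / σ * σ + σ) (R5 μ s N Q δ B b b' σ ω j) := by
  have g1 : Lk (j - b') (j + b') (gg μ s Q δ B b ω j) :=
    Lk_mono (al := j - b) (be := j + b) (by omega) (by omega) (Lk_gg δ B b j ω le_rfl le_rfl)
  have g2 : Lk (j - b') (j + b') (gg μ s Q δ B b' ω j) := Lk_gg δ B b' j ω le_rfl le_rfl
  have hw : Wk (j - b') (j - b') (j + b') (j + b') (wm μ s N Q ω) := Wk_lw ω.1 (by omega)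
  have hw' : Wk (j / σ * σ) (j / σ * σ) (j / σ * σ + σ) (j / σ * σ + σ) (wm μ s N Q ω) := Wk_lw ω.1 (by omega)
  have e1 : Lk (j / σ * σ) (j / σ * σ + σ)
      (Eg (wm μ s N Q ω) (pW b' j) (gg μ s Q δ B b ω j) (gg μ s Q δ B b' ω j)) :=
    Lk_mono (al := j - b') (be := j + b') (by omega) h2 (Lk_sub (Lk_cE (by omega) hw g1) g2)
  have e2 : Lk (j / σ * σ) (j / σ * σ + σ) (gg μ s Q δ B b' ω j) := Lk_mono (al := j - b') (be := j + b') (by omega) h2 g2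
  exact Lk_add (Lk_smul (Lk_cC (by omega) hw' e2 e1) _) (Lk_cV (by omega) hw' e1)

/-- **The change of base is a function of the positions in the rows `al, .., be`.** -/
theorem D5_Lk (δ B : ℝ) {b b' σ : ℕ} (hb : b ≤ b') {R : Finset ℕ} (hD : Deep R b' σ) {c d al be : ℕ}
    (hI : In96 R σ c d al be) (ω : Env × Finset ℕ) : Lk al be (D5 μ s N Q δ B b b' σ R c d ω) := by
  intro S S' h
  unfold D5
  rw [Finset.sum_apply, Finset.sum_apply]
  refine sum_congr rfl fun j hj => ?_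
  obtain ⟨h1, h2⟩ := hD j (mem_inter.1 hj).1
  rw [Nat.succ_mul] at h2
  have h3 := hI j hj
  have a1 : Lk al be (X5 μ s N Q δ B b b' ω j) :=
    Lk_mono (al := j - b') (be := j + b') (by omega) (by omega) (X5_Lk δ B hb ω j)
  have a2 : Lk al be (R5 μ s N Q δ B b b' σ ω j) := Lk_mono h3.1 h3.2 (R5_Lk δ B hb ω h1 h2)
  exact Lk_sub a1 (Lk_smul a2 _) S S' h

end

end Pool.Agent.W_7d29a1_C0.BasRow33
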