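import Pool.Agent.W_7d29a1_C0.Base5B

/-!
MP_7d29a1_pr, [CURV0], section 7 (E5), helper5: THE CHANGE OF BASE WITH THE EXACT RESPONSES. `ge5` is the exact response of the window
of length `b` to the kick `gg b0`; with it there are no clipping errors: `X5e = N5e + N25e + a M5e`. `int_D5`: the second moment of `D5` is at most eight times the
second moments of the four sums plus the clipping error.
-/

set_option autoImplicit false
set_option linter.unusedSectionVars false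

namespace Pool.Agent.W_7d29a1_C0.Base5

open Finset MeasureTheory Pool.Agent.W_7d29a1_F Pool.Agent.W_7d29a1_X Pool.Agent.W_7d29a1_H
open Pool.W7d29a1.C0 Pool.W7d29a1.C0.VT31 Pool.Agent.W_7d29a1_C0 Pool.Agent.W_7d29a1_C0.Mod92

noncomputable section

section abstract

variable {X : Type*} [Fintype X] [DecidableEq X] [Nonempty X] {Y Z V : Type*} [DecidableEq Y] [DecidableEq Z] [DecidableEq V]

/-! ### No clipping errors for the exact responses -/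

theorem Clg_exact (w0 g0 : X → ℝ) (u : X → Z) (v : X → V) (x : X) :
    Clg w0 g0 u v (gb81 w0 g0 v) (gb81 w0 g0 u) x = 0 := by
  have h1 : ∀ t : ℝ, cE (w0 + t • g0) u (gb81 w0 g0 v - gb81 w0 g0 v) x = 0 := fun t => by
    rw [sub_self, cE_zero]
    rfl
  have h2 : ∀ a : ℝ, cC (w0 + a • g0) u (gb81 w0 g0 v) (gb81 w0 g0 v - gb81 w0 g0 v) x = 0 := fun a => by
    rw [sub_self]
    unfold cC
    rw [mul_zero, cE_zero, mul_zero, sub_self]
    rfl
  unfold Clg Mc Ac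
  simp only [h1, h2, intervalIntegral.integral_zero]
  ring

/-- The split with the exact responses. -/
theorem Xg_exact (w g0 : X → ℝ) {u : X → Z} {v : X → V} (hc : Crs u v) {a : ℝ} (ha : a = 1 ∨ a = -1) (x : X) :
    Xg w u a (gb81 (w - a • g0) g0 v) (gb81 (w - a • g0) g0 u) x = N1g (w - a • g0) g0 u (gb81 (w - a • g0) g0 v) x +
      N2g (w - a • g0) g0 u v (gb81 (w - a • g0) g0 v) x + a * Mg (w - a • g0) g0 u (gb81 (w - a • g0) g0 v) x := by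
  rw [Xg_split w g0 hc (mp_gb81 _ _ v) (gb81 (w - a • g0) g0 u) ha x, Clg_exact]
  ring

/-! ### Replacing the responses -/

theorem gm_abs_cE (w : X → ℝ) (p : X → Y) (f : X → ℝ) : gm w (fun x => |cE w p f x|) ≤ gm w fun x => |f x| := by
  have h : ∀ x, |cE w p f x| ≤ cE w p (fun x => |f x|) x := fun x => by
    rw [abs_le]
    constructor
    · have h1 := cE_mono w p (f := fun x => -|f x|) (g := f) (fun x => neg_abs_le _) x
      have h2 : cE w p (fun x => -|f x|) = -cE w p fun x => |f x| := cE_neg w p fun x => |f x|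
      rw [h2, Pi.neg_apply] at h1
      exact h1
    · exact cE_mono w p (fun x => le_abs_self _) x
  refine (gm_mono w h).trans (le_of_eq ?_)
  exact gm_cE w p fun x => |f x|

theorem abs_cC_le1 (w : X → ℝ) (p : X → Y) {f g : X → ℝ} {M : ℝ} (hf : ∀ x, |f x| ≤ M) (x : X) :
    |cC w p f g x| ≤ 2 * M * cE w p (fun x => |g x|) x := by
  have hM : 0 ≤ M := (abs_nonneg _).trans (hf x)
  have h0 : 0 ≤ cE w p (fun x => |g x|) x := cE_nonneg w p (fun x => abs_nonneg _) x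
  have habs : ∀ (F : X → ℝ), |cE w p F x| ≤ cE w p (fun x => |F x|) x := fun F => by
    rw [abs_le]
    constructor
    · have h1 := cE_mono w p (f := fun x => -|F x|) (g := F) (fun x => neg_abs_le _) x
      have h2 : cE w p (fun x => -|F x|) = -cE w p fun x => |F x| := cE_neg w p fun x => |F x|
      rw [h2, Pi.neg_apply] at h1
      exact h1
    · exact cE_mono w p (fun x => le_abs_self _) x
  have h1 : |cE w p (f * g) x| ≤ M * cE w p (fun x => |g x|) x := by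
    refine (habs _).trans ?_
    have h2 : cE w p (fun x => M * |g x|) x = M * cE w p (fun x => |g x|) x := by
      have := congrFun (cE_smul w p M fun x => |g x|) x
      exact this
    rw [← h2]
    refine cE_mono w p (fun x => ?_) x
    rw [Pi.mul_apply, abs_mul]
    exact mul_le_mul_of_nonneg_right (hf x) (abs_nonneg _)
  have h3 : |(cE w p f * cE w p g) x| ≤ M * cE w p (fun x => |g x|) x := by
    rw [Pi.mul_apply, abs_mul]
    exact mul_le_mul (abs_cE_le w p hf x) (habs g) (abs_nonneg _) hM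
  unfold cC
  rw [Pi.sub_apply]
  refine (abs_sub _ _).trans ?_
  linarith

theorem gm_abs_cC (w : X → ℝ) (p : X → Y) {f g : X → ℝ} {M : ℝ} (hf : ∀ x, |f x| ≤ M) :
    gm w (fun x => |cC w p f g x|) ≤ 2 * M * gm w fun x => |g x| := by
  refine (gm_mono w fun x => abs_cC_le1 w p (g := g) hf x).trans (le_of_eq ?_)
  have e : gm w (fun x => 2 * M * cE w p (fun x => |g x|) x) = 2 * M * gm w (fun x => cE w p (fun x => |g x|) x) := by
    unfold gm
    rw [← mul_div_assoc, mul_sum]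
    congr 1
    exact sum_congr rfl fun x _ => by ring
  rw [e]
  congr 1
  exact gm_cE w p fun x => |g x|

theorem gm_add5 (w f g : X → ℝ) : gm w (fun x => f x + g x) = gm w f + gm w g := by
  unfold gm
  rw [← add_div, ← sum_add_distrib]
  congr 1
  exact sum_congr rfl fun x _ => by ring

theorem gm_mul5 (w : X → ℝ) (c : ℝ) (f : X → ℝ) : gm w (fun x => c * f x) = c * gm w f := by
  unfold gm
  rw [← mul_div_assoc, mul_sum]
  congr 1
  exact sum_congr rfl fun x _ => by ring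

theorem gm_abs_add (w f g : X → ℝ) : gm w (fun x => |f x + g x|) ≤ gm w (fun x => |f x|) + gm w fun x => |g x| := by
  rw [← gm_add5]
  exact gm_mono w fun x => abs_add_le _ _

theorem cV_sub_eq (w : X → ℝ) (p : X → Y) (f f' : X → ℝ) (x : X) :
    cV w p f x - cV w p f' x = cC w p f (f - f') x + cC w p f' (f - f') x := by
  have e1 : cC w p f (f - f') = cC w p f f - cC w p f f' := by
    rw [sub_eq_add_neg f f', cC_add_right, ← neg_one_smul ℝ f', cC_smul_right, neg_one_smul, ← sub_eq_add_neg]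
  have e2 : cC w p f' (f - f') = cC w p f' f - cC w p f' f' := by
    rw [sub_eq_add_neg f f', cC_add_right, ← neg_one_smul ℝ f', cC_smul_right, neg_one_smul, ← sub_eq_add_neg]
  unfold cV
  rw [e1, e2, Pi.sub_apply, Pi.sub_apply, cC_symm w p f' f]
  ring

theorem gm_abs_cV_sub (w : X → ℝ) (p : X → Y) {f f' : X → ℝ} {M : ℝ} (hf : ∀ x, |f x| ≤ M) (hf' : ∀ x, |f' x| ≤ M) :
    gm w (fun x => |cV w p f x - cV w p f' x|) ≤ 4 * M * gm w fun x => |f x - f' x| := by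
  have e : (fun x => |cV w p f x - cV w p f' x|) = fun x => |cC w p f (f - f') x + cC w p f' (f - f') x| := by
    funext x
    rw [cV_sub_eq]
  rw [e]
  refine (gm_abs_add w _ _).trans ?_
  have h1 := gm_abs_cC w p (g := f - f') hf
  have h2 := gm_abs_cC w p (g := f - f') hf'
  have e2 : (fun x => |(f - f') x|) = fun x => |f x - f' x| := rfl
  rw [e2] at h1 h2
  linarith

/-- The error of the main part. -/
theorem gm_abs_Xg (w : X → ℝ) (u : X → Z) {a M : ℝ} (ha : |a| ≤ 1) {γ γ1 g g1 : X → ℝ} (hγ : ∀ x, |γ x| ≤ M) (hγ1 : ∀ x, |γ1 x| ≤ M) :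
    gm w (fun x => |Xg w u a γ g x - Xg w u a γ1 g1 x|) ≤ (1 + 2 * M) * gm w (fun x => |γ x - γ1 x|) + gm w fun x => |g x - g1 x| := by
  have e : (fun x => |Xg w u a γ g x - Xg w u a γ1 g1 x|) = fun x =>
      |(cE w u (γ - γ1) x + -(a / 3) * (cV w u γ x - cV w u γ1 x)) + -(g x - g1 x)| := by
    funext x
    congr 1
    unfold Xg VT31.Zr
    rw [cE_sub]
    simp only [Pi.sub_apply, Pi.smul_apply, smul_eq_mul]
    ring
  rw [e]
  refine (gm_abs_add w _ _).trans ?_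
  have h1 := gm_abs_add w (fun x => cE w u (γ - γ1) x) (fun x => -(a / 3) * (cV w u γ x - cV w u γ1 x))
  have h2 := gm_abs_cE w u (γ - γ1)
  have h3 : gm w (fun x => |-(a / 3) * (cV w u γ x - cV w u γ1 x)|) ≤ 2 * M * gm w fun x => |γ x - γ1 x| := by
    have h4 := gm_abs_cV_sub w u hγ hγ1
    have h5 : gm w (fun x => |-(a / 3) * (cV w u γ x - cV w u γ1 x)|) ≤ gm w fun x => 1 / 3 * |cV w u γ x - cV w u γ1 x| :=
      gm_mono w fun x => by
        rw [abs_mul]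
        refine mul_le_mul_of_nonneg_right ?_ (abs_nonneg _)
        rw [abs_neg, abs_div]
        norm_num
        linarith
    rw [gm_mul5] at h5
    have h6 : 0 ≤ gm w fun x => |γ x - γ1 x| := gm_nonneg w fun x => abs_nonneg _
    obtain ⟨x0⟩ := (inferInstance : Nonempty X)
    have hM : 0 ≤ M := (abs_nonneg _).trans (hγ x0)
    nlinarith [mul_nonneg hM h6]
  have e3 : gm w (fun x => |-(g x - g1 x)|) = gm w fun x => |g x - g1 x| := by
    congr 1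
    funext x
    rw [abs_neg]
  rw [e3]
  have e4 : (fun x => |(γ - γ1) x|) = fun x => |γ x - γ1 x| := rfl
  rw [e4] at h2
  linarith

theorem gm_abs_Eg (w : X → ℝ) (u : X → Z) (γ γ1 g g1 : X → ℝ) :
    gm w (fun x => |Eg w u γ g x - Eg w u γ1 g1 x|) ≤ gm w (fun x => |γ x - γ1 x|) + gm w fun x => |g x - g1 x| := by
  have e : (fun x => |Eg w u γ g x - Eg w u γ1 g1 x|) = fun x => |cE w u (γ - γ1) x + -(g x - g1 x)| := by
    funext x
    congr 1
    unfold Eg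
    rw [cE_sub]
    simp only [Pi.sub_apply]
    ring
  rw [e]
  refine (gm_abs_add w _ _).trans ?_
  have h2 := gm_abs_cE w u (γ - γ1)
  have e3 : gm w (fun x => |-(g x - g1 x)|) = gm w fun x => |g x - g1 x| := by
    congr 1
    funext x
    rw [abs_neg]
  rw [e3]
  have e4 : (fun x => |(γ - γ1) x|) = fun x => |γ x - γ1 x| := rfl
  rw [e4] at h2
  linarith

/-- The error of the second part. -/
theorem gm_abs_Rg (w : X → ℝ) (p : X → Y) (u : X → Z) {M : ℝ} {γ γ1 g g1 : X → ℝ} (hγ : ∀ x, |γ x| ≤ M) (hγ1 : ∀ x, |γ1 x| ≤ M)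
    (hg : ∀ x, |g x| ≤ M) (hg1 : ∀ x, |g1 x| ≤ M) :
    gm w (fun x => |Rg w p u γ g x - Rg w p u γ1 g1 x|) ≤
      12 * M * gm w (fun x => |γ x - γ1 x|) + 20 * M * gm w fun x => |g x - g1 x| := by
  have he : ∀ x, |Eg w u γ g x| ≤ 2 * M := fun x => by
    unfold Eg
    rw [Pi.sub_apply]
    refine (abs_sub _ _).trans ?_
    linarith [abs_cE_le w u hγ x, hg x]
  have he1 : ∀ x, |Eg w u γ1 g1 x| ≤ 2 * M := fun x => by
    unfold Eg
    rw [Pi.sub_apply]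
    refine (abs_sub _ _).trans ?_
    linarith [abs_cE_le w u hγ1 x, hg1 x]
  have e : (fun x => |Rg w p u γ g x - Rg w p u γ1 g1 x|) = fun x =>
      |(2 * cC w p (Eg w u γ g) (g - g1) x + 2 * cC w p g1 (Eg w u γ g - Eg w u γ1 g1) x) +
        (cV w p (Eg w u γ g) x - cV w p (Eg w u γ1 g1) x)| := by
    funext x
    congr 1
    have e1 : cC w p (Eg w u γ g) (g - g1) = cC w p g (Eg w u γ g) - cC w p g1 (Eg w u γ g) := by
      rw [sub_eq_add_neg g g1, cC_add_right, ← neg_one_smul ℝ g1, cC_smul_right, neg_one_smul, ← sub_eq_add_neg,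
        cC_symm w p (Eg w u γ g) g, cC_symm w p (Eg w u γ g) g1]
    have e2 : cC w p g1 (Eg w u γ g - Eg w u γ1 g1) = cC w p g1 (Eg w u γ g) - cC w p g1 (Eg w u γ1 g1) := by
      rw [sub_eq_add_neg (Eg w u γ g), cC_add_right, ← neg_one_smul ℝ (Eg w u γ1 g1), cC_smul_right, neg_one_smul,
        ← sub_eq_add_neg]
    rw [e1, e2]
    unfold Rg
    simp only [Pi.sub_apply, Pi.add_apply, Pi.smul_apply, smul_eq_mul]
    ring
  rw [e]
  refine (gm_abs_add w _ _).trans ?_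
  have h1 := gm_abs_add w (fun x => 2 * cC w p (Eg w u γ g) (g - g1) x) (fun x => 2 * cC w p g1 (Eg w u γ g - Eg w u γ1 g1) x)
  have e2 : ∀ F : X → ℝ, gm w (fun x => |2 * F x|) = 2 * gm w fun x => |F x| := fun F => by
    rw [← gm_mul5]
    congr 1
    funext x
    rw [abs_mul, abs_two]
  rw [e2, e2] at h1
  have h2 := gm_abs_cC w p (g := g - g1) he
  have h3 := gm_abs_cC w p (g := Eg w u γ g - Eg w u γ1 g1) hg1
  have h4 := gm_abs_cV_sub w p he he1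
  have h5 := gm_abs_Eg w u γ γ1 g g1
  have e4 : (fun x => |(g - g1) x|) = fun x => |g x - g1 x| := rfl
  have e5 : (fun x => |(Eg w u γ g - Eg w u γ1 g1) x|) = fun x => |Eg w u γ g x - Eg w u γ1 g1 x| := rfl
  rw [e4] at h2
  rw [e5] at h3
  obtain ⟨x0⟩ := (inferInstance : Nonempty X)
  have hM : 0 ≤ M := (abs_nonneg _).trans (hγ x0)
  have h6 := mul_le_mul_of_nonneg_left h5 (show (0 : ℝ) ≤ 12 * M by positivity)
  linarith

end abstract

/-! ### The model -/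

variable {μ : Measure ℝ} {s : ℝ} {N : ℕ} {Q : Finset (Finset ℕ)}

/-- **The exact response** of the window of length `b` of the row `j` to the kick `gg b0`. -/
def ge5 (μ : Measure ℝ) (s : ℝ) (N : ℕ) (Q : Finset (Finset ℕ)) (δ B : ℝ) (b0 b : ℕ) (ω : Env × Finset ℕ) (j : ℕ) : Px Q → ℝ :=
  gb81 (w5 μ s N Q δ B b0 ω j) (Mod92.gg μ s Q δ B b0 ω j) (pW b j)

/-- The main part with the exact responses. -/
def X5e (μ : Measure ℝ) (s : ℝ) (N : ℕ) (Q : Finset (Finset ℕ)) (δ B : ℝ) (b0 b b' : ℕ) (ω : Env × Finset ℕ) (j : ℕ) : Px Q → ℝ :=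
  Xg (wm μ s N Q ω) (pW b' j) (sr ω.2 j) (ge5 μ s N Q δ B b0 b ω j) (ge5 μ s N Q δ B b0 b' ω j)

/-- The second part with the exact responses. -/
def R5e (μ : Measure ℝ) (s : ℝ) (N : ℕ) (Q : Finset (Finset ℕ)) (δ B : ℝ) (b0 b b' σ : ℕ) (ω : Env × Finset ℕ) (j : ℕ) : Px Q → ℝ :=
  Rg (wm μ s N Q ω) (pB σ j) (pW b' j) (ge5 μ s N Q δ B b0 b ω j) (ge5 μ s N Q δ B b0 b' ω j)

/-- The odd part, the third order part, the double ties. -/
def M5e (μ : Measure ℝ) (s : ℝ) (N : ℕ) (Q : Finset (Finset ℕ)) (δ B : ℝ) (b0 b b' : ℕ) (ω : Env × Finset ℕ) (j : ℕ) (S : Px Q) : ℝ :=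
  Mg (w5 μ s N Q δ B b0 ω j) (Mod92.gg μ s Q δ B b0 ω j) (pW b' j) (ge5 μ s N Q δ B b0 b ω j) S

def N5e (μ : Measure ℝ) (s : ℝ) (N : ℕ) (Q : Finset (Finset ℕ)) (δ B : ℝ) (b0 b b' : ℕ) (ω : Env × Finset ℕ) (j : ℕ) (S : Px Q) : ℝ :=
  N1g (w5 μ s N Q δ B b0 ω j) (Mod92.gg μ s Q δ B b0 ω j) (pW b' j) (ge5 μ s N Q δ B b0 b ω j) S

def N25e (μ : Measure ℝ) (s : ℝ) (N : ℕ) (Q : Finset (Finset ℕ)) (δ B : ℝ) (b0 b b' : ℕ) (ω : Env × Finset ℕ) (j : ℕ) (S : Px Q) : ℝ :=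
  N2g (w5 μ s N Q δ B b0 ω j) (Mod92.gg μ s Q δ B b0 ω j) (pW b' j) (pW b j) (ge5 μ s N Q δ B b0 b ω j) S

/-- The change of base with the exact responses. -/
def D5e (μ : Measure ℝ) (s : ℝ) (N : ℕ) (Q : Finset (Finset ℕ)) (δ B : ℝ) (b0 b b' σ : ℕ) (R : Finset ℕ) (c d : ℕ)
    (ω : Env × Finset ℕ) : Px Q → ℝ :=
  ∑ j ∈ Rw R c d, (X5e μ s N Q δ B b0 b b' ω j - (sr ω.2 j / 3) • R5e μ s N Q δ B b0 b b' σ ω j)

/-- The clipping error of the base `b` at the row `j`. -/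
def cl5 (μ : Measure ℝ) (s : ℝ) (N : ℕ) (Q : Finset (Finset ℕ)) (δ B : ℝ) (b0 b : ℕ) (ω : Env × Finset ℕ) (j : ℕ) : ℝ :=
  gm (wm μ s N Q ω) fun S => |Mod92.gg μ s Q δ B b ω j S - ge5 μ s N Q δ B b0 b ω j S|

variable [Nonempty (Px Q)]

theorem mp_ge5 (δ B : ℝ) (b0 b : ℕ) (ω : Env × Finset ℕ) (j : ℕ) : Mp (pW b j) (ge5 μ s N Q δ B b0 b ω j) := mp_gb81 _ _ _

theorem meas_ge5 (δ B : ℝ) (b0 b j : ℕ) (S : Px Q) : Measurable fun ω => ge5 μ s N Q δ B b0 b ω j S := by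
  have h : Continuous fun z : (Px Q → ℝ) × (Px Q → ℝ) => gb81 z.1 z.2 (pW (Q := Q) b j) :=
    continuous_gb continuous_fst continuous_snd _
  have h1 : Measurable fun ω : Env × Finset ℕ => (w5 μ s N Q δ B b0 ω j, Mod92.gg μ s Q δ B b0 ω j) :=
    (measurable_pi_iff.2 fun S => meas_w5 δ B b0 j S).prodMk (measurable_pi_iff.2 fun S => meas_gg δ B b0 j S)
  have h2 := ((continuous_apply S).comp h).measurable.comp h1
  unfold ge5
  exact h2

theorem abs_ge5 {δ B : ℝ} (hB : 0 ≤ B) (b0 b : ℕ) (ω : Env × Finset ℕ) (j : ℕ) (S : Px Q) :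
    |ge5 μ s N Q δ B b0 b ω j S| ≤ B / 2 := abs_gb81 _ _ _ (fun S => abs_gg hB b0 ω j S) S

theorem meas_X5e (δ B : ℝ) (b0 b b' j : ℕ) (S : Px Q) : Measurable fun ω => X5e μ s N Q δ B b0 b b' ω j S :=
  meas_Xg5 meas_wm (meas_sr j) (fun S => meas_ge5 δ B b0 b j S) (fun S => meas_ge5 δ B b0 b' j S) _ S

theorem meas_R5e (δ B : ℝ) (b0 b b' σ j : ℕ) (S : Px Q) : Measurable fun ω => R5e μ s N Q δ B b0 b b' σ ω j S := by
  unfold R5e Rg
  simp only [Pi.add_apply, Pi.smul_apply, smul_eq_mul]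
  have he : ∀ S, Measurable fun ω => Eg (wm μ s N Q ω) (pW b' j) (ge5 μ s N Q δ B b0 b ω j) (ge5 μ s N Q δ B b0 b' ω j) S := fun S =>
    meas_Eg5 meas_wm (fun S => meas_ge5 δ B b0 b j S) (fun S => meas_ge5 δ B b0 b' j S) _ S
  exact (measurable_const.mul (meas_cC meas_wm (fun S => meas_ge5 δ B b0 b' j S) he _ S)).add (meas_cV meas_wm he _ S)

theorem meas_Fg5e (δ B : ℝ) (b0 b b' j : ℕ) (t : ℝ) (S : Px Q) :
    Measurable fun ω => Fg (w5 μ s N Q δ B b0 ω j) (Mod92.gg μ s Q δ B b0 ω j) (pW b' j) (ge5 μ s N Q δ B b0 b ω j) S t := by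
  unfold Fg VT31.Zr
  simp only [Pi.sub_apply, Pi.smul_apply, smul_eq_mul]
  exact (meas_cE (meas_line5 δ B b0 j t) (fun S => meas_ge5 δ B b0 b j S) _ S).sub
    (measurable_const.mul (meas_cV (meas_line5 δ B b0 j t) (fun S => meas_ge5 δ B b0 b j S) _ S))

theorem meas_M5e (δ B : ℝ) (b0 b b' j : ℕ) (S : Px Q) : Measurable fun ω => M5e μ s N Q δ B b0 b b' ω j S := by
  unfold M5e Mg Dc
  exact ((meas_Fg5e δ B b0 b b' j 1 S).sub (meas_Fg5e δ B b0 b b' j (-1) S)).div_const 2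

theorem meas_N25e (δ B : ℝ) (b0 b b' j : ℕ) (S : Px Q) : Measurable fun ω => N25e μ s N Q δ B b0 b b' ω j S := by
  have h : Continuous fun z : (Px Q → ℝ) × (Px Q → ℝ) =>
      N2g z.1 z.2 (pW (Q := Q) b' j) (pW (Q := Q) b j) (gb81 z.1 z.2 (pW (Q := Q) b j)) S :=
    continuous_N2g continuous_fst continuous_snd (continuous_gb continuous_fst continuous_snd _) _ _ S
  have h1 : Measurable fun ω : Env × Finset ℕ => (w5 μ s N Q δ B b0 ω j, Mod92.gg μ s Q δ B b0 ω j) :=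
    (measurable_pi_iff.2 fun S => meas_w5 δ B b0 j S).prodMk (measurable_pi_iff.2 fun S => meas_gg δ B b0 j S)
  have h2 := h.measurable.comp h1
  unfold N25e ge5
  exact h2

/-- **The split of one row, exact.** -/
theorem X5e_split (δ B : ℝ) (b0 : ℕ) {b b' : ℕ} (hb : b ≤ b') (ω : Env × Finset ℕ) (j : ℕ) (S : Px Q) :
    X5e μ s N Q δ B b0 b b' ω j S = N5e μ s N Q δ B b0 b b' ω j S + N25e μ s N Q δ B b0 b b' ω j S +
      sr ω.2 j * M5e μ s N Q δ B b0 b b' ω j S :=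
  Xg_exact (wm μ s N Q ω) (Mod92.gg μ s Q δ B b0 ω j) (crs_pW hb j) (sr_or ω.2 j) S

theorem meas_N5e (δ B : ℝ) (b0 : ℕ) {b b' : ℕ} (hb : b ≤ b') (j : ℕ) (S : Px Q) :
    Measurable fun ω => N5e μ s N Q δ B b0 b b' ω j S := by
  have e : (fun ω => N5e μ s N Q δ B b0 b b' ω j S) = fun ω => X5e μ s N Q δ B b0 b b' ω j S - N25e μ s N Q δ B b0 b b' ω j S -
      sr ω.2 j * M5e μ s N Q δ B b0 b b' ω j S := by
    funext ω
    have h := X5e_split (μ := μ) (s := s) (N := N) δ B b0 hb ω j S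
    linarith
  rw [e]
  exact ((meas_X5e δ B b0 b b' j S).sub (meas_N25e δ B b0 b b' j S)).sub ((meas_sr j).mul (meas_M5e δ B b0 b b' j S))

theorem abs_X5e {δ B : ℝ} (hB : 0 ≤ B) (b0 b b' : ℕ) (ω : Env × Finset ℕ) (j : ℕ) (S : Px Q) : |X5e μ s N Q δ B b0 b b' ω j S| ≤ K5 B :=
  (abs_Xg _ _ (abs_sr _ _).le (fun S => abs_ge5 hB b0 b ω j S) (fun S => abs_ge5 hB b0 b' ω j S) S).trans (K5_X hB)

theorem abs_R5e {δ B : ℝ} (hB : 0 ≤ B) (b0 b b' σ : ℕ) (ω : Env × Finset ℕ) (j : ℕ) (S : Px Q) :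
    |R5e μ s N Q δ B b0 b b' σ ω j S| ≤ K5 B :=
  (abs_Rg _ _ _ (fun S => abs_ge5 hB b0 b ω j S) (fun S => abs_ge5 hB b0 b' ω j S) S).trans (K5_R hB)

theorem abs_M5e {δ B : ℝ} (hB : 0 ≤ B) (b0 b b' : ℕ) (ω : Env × Finset ℕ) (j : ℕ) (S : Px Q) :
    |M5e μ s N Q δ B b0 b b' ω j S| ≤ K5 B := by
  refine (abs_Mg _ _ _ (fun S => abs_ge5 hB b0 b ω j S) S).trans (le_trans ?_ (K5_X hB))
  have : (0 : ℝ) ≤ B / 2 := by positivity
  linarith

theorem abs_N25e {δ B : ℝ} (hB : 0 ≤ B) (b0 b b' : ℕ) (ω : Env × Finset ℕ) (j : ℕ) (S : Px Q) :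
    |N25e μ s N Q δ B b0 b b' ω j S| ≤ K5 B := by
  refine (abs_N2g _ _ _ _ (fun S => abs_gg hB b0 ω j S) (fun S => abs_ge5 hB b0 b ω j S) S).trans (le_trans ?_ (K5_N hB))
  have : (0 : ℝ) ≤ B / 2 := by positivity
  nlinarith [mul_nonneg this this]

theorem abs_N5e {δ B : ℝ} (hB : 0 ≤ B) (b0 : ℕ) {b b' : ℕ} (hb : b ≤ b') (ω : Env × Finset ℕ) (j : ℕ) (S : Px Q) :
    |N5e μ s N Q δ B b0 b b' ω j S| ≤ K5 B :=
  (abs_N1g _ _ (g' := ge5 μ s N Q δ B b0 b' ω j) (crs_pW hb j) (mp_ge5 δ B b0 b ω j) (fun S => abs_gg hB b0 ω j S)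
    (fun S => abs_ge5 hB b0 b ω j S) (fun S => abs_ge5 hB b0 b' ω j S) S).trans (K5_N hB)

/-! ### The second moment -/

/-- The four sums. -/
theorem D5e_split (δ B : ℝ) (b0 : ℕ) {b b' : ℕ} (hb : b ≤ b') (σ : ℕ) (R : Finset ℕ) (c d : ℕ) (ω : Env × Finset ℕ) (S : Px Q) :
    D5e μ s N Q δ B b0 b b' σ R c d ω S = ∑ j ∈ Rw R c d, N5e μ s N Q δ B b0 b b' ω j S +
      ∑ j ∈ Rw R c d, N25e μ s N Q δ B b0 b b' ω j S + ∑ j ∈ Rw R c d, sr ω.2 j * M5e μ s N Q δ B b0 b b' ω j S -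
      ∑ j ∈ Rw R c d, sr ω.2 j / 3 * R5e μ s N Q δ B b0 b b' σ ω j S := by
  unfold D5e
  rw [Finset.sum_apply, ← sum_add_distrib, ← sum_add_distrib, ← sum_sub_distrib]
  refine sum_congr rfl fun j _ => ?_
  rw [Pi.sub_apply, Pi.smul_apply, smul_eq_mul, X5e_split δ B b0 hb ω j S]

theorem sq4 (a b c d : ℝ) : (a + b + c - d) ^ 2 ≤ 4 * (a ^ 2 + b ^ 2 + c ^ 2 + d ^ 2) := by
  nlinarith [sq_nonneg (a - b), sq_nonneg (a - c), sq_nonneg (a + d), sq_nonneg (b - c), sq_nonneg (b + d), sq_nonneg (c + d)]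

theorem abs_term5 {x r a K : ℝ} (hx : |x| ≤ K) (hr : |r| ≤ K) (ha : |a| = 1) : |x - a / 3 * r| ≤ 2 * K := by
  have hK : 0 ≤ K := (abs_nonneg _).trans hx
  refine (abs_sub _ _).trans ?_
  rw [abs_mul, abs_div, ha]
  have : |(3 : ℝ)| = 3 := by norm_num
  rw [this]
  nlinarith [abs_nonneg r]

theorem abs_D5 {δ B : ℝ} (hB : 0 ≤ B) (b b' σ : ℕ) (R : Finset ℕ) (c d : ℕ) (ω : Env × Finset ℕ) (S : Px Q) :
    |D5 μ s N Q δ B b b' σ R c d ω S| ≤ (Rw R c d).card * (2 * K5 B) := by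
  unfold D5
  rw [Finset.sum_apply]
  refine (abs_sum_le_sum_abs _ _).trans ((sum_le_sum fun j _ => ?_).trans (by rw [sum_const, nsmul_eq_mul]))
  rw [Pi.sub_apply, Pi.smul_apply, smul_eq_mul]
  exact abs_term5 (abs_X5 hB b b' ω j S) (abs_R5 hB b b' σ ω j S) (abs_sr _ _)

theorem abs_D5e {δ B : ℝ} (hB : 0 ≤ B) (b0 b b' σ : ℕ) (R : Finset ℕ) (c d : ℕ) (ω : Env × Finset ℕ) (S : Px Q) :
    |D5e μ s N Q δ B b0 b b' σ R c d ω S| ≤ (Rw R c d).card * (2 * K5 B) := by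
  unfold D5e
  rw [Finset.sum_apply]
  refine (abs_sum_le_sum_abs _ _).trans ((sum_le_sum fun j _ => ?_).trans (by rw [sum_const, nsmul_eq_mul]))
  rw [Pi.sub_apply, Pi.smul_apply, smul_eq_mul]
  exact abs_term5 (abs_X5e hB b0 b b' ω j S) (abs_R5e hB b0 b b' σ ω j S) (abs_sr _ _)

theorem meas_D5e (δ B : ℝ) (b0 b b' σ : ℕ) (R : Finset ℕ) (c d : ℕ) (S : Px Q) :
    Measurable fun ω => D5e μ s N Q δ B b0 b b' σ R c d ω S := by
  unfold D5e
  simp only [Finset.sum_apply, Pi.sub_apply, Pi.smul_apply, smul_eq_mul]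
  exact Finset.measurable_fun_sum _ fun j _ =>
    (meas_X5e δ B b0 b b' j S).sub (((meas_sr j).div_const 3).mul (meas_R5e δ B b0 b b' σ j S))

theorem gm_sum5 {ι : Type*} (w : Px Q → ℝ) (T : Finset ι) (f : ι → Px Q → ℝ) :
    gm w (fun S => ∑ j ∈ T, f j S) = ∑ j ∈ T, gm w (f j) := by
  unfold gm
  rw [← sum_div]
  congr 1
  rw [sum_comm]
  exact sum_congr rfl fun x _ => by rw [mul_sum]

/-- **The clipping error of the change of base, pathwise.** -/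
theorem gm_D5_sub {δ B : ℝ} (hB : 0 ≤ B) (b0 b b' σ : ℕ) (R : Finset ℕ) (c d : ℕ) (ω : Env × Finset ℕ) :
    gm (wm μ s N Q ω) (fun S => |D5 μ s N Q δ B b b' σ R c d ω S - D5e μ s N Q δ B b0 b b' σ R c d ω S|) ≤
      4 * (1 + B) * ∑ j ∈ Rw R c d, (cl5 μ s N Q δ B b0 b ω j + cl5 μ s N Q δ B b0 b' ω j) := by
  have hM : (0 : ℝ) ≤ B / 2 := by positivity
  rw [mul_sum]
  have h1 : gm (wm μ s N Q ω) (fun S => |D5 μ s N Q δ B b b' σ R c d ω S - D5e μ s N Q δ B b0 b b' σ R c d ω S|) ≤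
      gm (wm μ s N Q ω) (fun S => ∑ j ∈ Rw R c d, (|X5 μ s N Q δ B b b' ω j S - X5e μ s N Q δ B b0 b b' ω j S| +
        1 / 3 * |R5 μ s N Q δ B b b' σ ω j S - R5e μ s N Q δ B b0 b b' σ ω j S|)) := by
    refine gm_mono _ fun S => ?_
    unfold D5 D5e
    rw [Finset.sum_apply, Finset.sum_apply, ← sum_sub_distrib]
    refine (abs_sum_le_sum_abs _ _).trans (sum_le_sum fun j _ => ?_)
    simp only [Pi.sub_apply, Pi.smul_apply, smul_eq_mul]
    have e : X5 μ s N Q δ B b b' ω j S - sr ω.2 j / 3 * R5 μ s N Q δ B b b' σ ω j S -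
        (X5e μ s N Q δ B b0 b b' ω j S - sr ω.2 j / 3 * R5e μ s N Q δ B b0 b b' σ ω j S) =
        (X5 μ s N Q δ B b b' ω j S - X5e μ s N Q δ B b0 b b' ω j S) -
          sr ω.2 j / 3 * (R5 μ s N Q δ B b b' σ ω j S - R5e μ s N Q δ B b0 b b' σ ω j S) := by ring
    rw [e]
    refine (abs_sub _ _).trans ?_
    rw [abs_mul, abs_div, abs_sr, abs_of_pos (by norm_num : (0 : ℝ) < 3)]
  refine h1.trans ?_
  rw [gm_sum5]
  refine sum_le_sum fun j _ => ?_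
  have h2 := gm_abs_Xg (wm μ s N Q ω) (pW b' j) (a := sr ω.2 j) (abs_sr _ _).le (g := Mod92.gg μ s Q δ B b' ω j)
    (g1 := ge5 μ s N Q δ B b0 b' ω j) (fun S => abs_gg (μ := μ) (s := s) (δ := δ) hB b ω j S)
    (fun S => abs_ge5 (μ := μ) (s := s) (N := N) (δ := δ) hB b0 b ω j S)
  have h3 := gm_abs_Rg (wm μ s N Q ω) (pB σ j) (pW b' j) (fun S => abs_gg (μ := μ) (s := s) (δ := δ) hB b ω j S)
    (fun S => abs_ge5 (μ := μ) (s := s) (N := N) (δ := δ) hB b0 b ω j S) (fun S => abs_gg (μ := μ) (s := s) (δ := δ) hB b' ω j S)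
    (fun S => abs_ge5 (μ := μ) (s := s) (N := N) (δ := δ) hB b0 b' ω j S)
  have e1 := gm_add5 (wm μ s N Q ω) (fun S => |X5 μ s N Q δ B b b' ω j S - X5e μ s N Q δ B b0 b b' ω j S|)
    (fun S => 1 / 3 * |R5 μ s N Q δ B b b' σ ω j S - R5e μ s N Q δ B b0 b b' σ ω j S|)
  rw [e1, gm_mul5]
  have c1 : 0 ≤ cl5 μ s N Q δ B b0 b ω j := gm_nonneg _ fun _ => abs_nonneg _
  have c2 : 0 ≤ cl5 μ s N Q δ B b0 b' ω j := gm_nonneg _ fun _ => abs_nonneg _
  have h2' : gm (wm μ s N Q ω) (fun S => |X5 μ s N Q δ B b b' ω j S - X5e μ s N Q δ B b0 b b' ω j S|) ≤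
    (1 + 2 * (B / 2)) * cl5 μ s N Q δ B b0 b ω j + cl5 μ s N Q δ B b0 b' ω j := h2
  have h3' : gm (wm μ s N Q ω) (fun S => |R5 μ s N Q δ B b b' σ ω j S - R5e μ s N Q δ B b0 b b' σ ω j S|) ≤
    12 * (B / 2) * cl5 μ s N Q δ B b0 b ω j + 20 * (B / 2) * cl5 μ s N Q δ B b0 b' ω j := h3
  nlinarith [mul_nonneg hB c1, mul_nonneg hB c2]

theorem gm_sq_le5 (w : Px Q → ℝ) {f : Px Q → ℝ} {M : ℝ} (hf : ∀ S, |f S| ≤ M) : gm w (fun S => f S ^ 2) ≤ M * gm w fun S => |f S| := by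
  rw [← gm_mul5]
  refine gm_mono w fun S => ?_
  rw [← sq_abs, sq]
  exact mul_le_mul_of_nonneg_right (hf S) (abs_nonneg _)

/-- **The second moment of the change of base, pathwise, with the exact responses.** -/
theorem gm_D5_le {δ B : ℝ} (hB : 0 ≤ B) (b0 : ℕ) {b b' : ℕ} (hb : b ≤ b') (σ : ℕ) (R : Finset ℕ) (c d : ℕ) (ω : Env × Finset ℕ) :
    gm (wm μ s N Q ω) (fun S => D5 μ s N Q δ B b b' σ R c d ω S ^ 2) ≤
      8 * (gm (wm μ s N Q ω) (fun S => (∑ j ∈ Rw R c d, N5e μ s N Q δ B b0 b b' ω j S) ^ 2) +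
        gm (wm μ s N Q ω) (fun S => (∑ j ∈ Rw R c d, N25e μ s N Q δ B b0 b b' ω j S) ^ 2) +
        gm (wm μ s N Q ω) (fun S => (∑ j ∈ Rw R c d, sr ω.2 j * M5e μ s N Q δ B b0 b b' ω j S) ^ 2) +
        gm (wm μ s N Q ω) (fun S => (∑ j ∈ Rw R c d, sr ω.2 j / 3 * R5e μ s N Q δ B b0 b b' σ ω j S) ^ 2)) +
      32 * (1 + B) * K5 B * (Rw R c d).card * ∑ j ∈ Rw R c d, (cl5 μ s N Q δ B b0 b ω j + cl5 μ s N Q δ B b0 b' ω j) := by
  have h1 : gm (wm μ s N Q ω) (fun S => D5 μ s N Q δ B b b' σ R c d ω S ^ 2) ≤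
      gm (wm μ s N Q ω) (fun S => 2 * D5e μ s N Q δ B b0 b b' σ R c d ω S ^ 2 +
        2 * (D5 μ s N Q δ B b b' σ R c d ω S - D5e μ s N Q δ B b0 b b' σ R c d ω S) ^ 2) :=
    gm_mono _ fun S => by
      nlinarith [sq_nonneg (2 * D5e μ s N Q δ B b0 b b' σ R c d ω S - D5 μ s N Q δ B b b' σ R c d ω S)]
  rw [gm_add5, gm_mul5, gm_mul5] at h1
  have h2 : gm (wm μ s N Q ω) (fun S => D5e μ s N Q δ B b0 b b' σ R c d ω S ^ 2) ≤
      gm (wm μ s N Q ω) (fun S => 4 * (((∑ j ∈ Rw R c d, N5e μ s N Q δ B b0 b b' ω j S) ^ 2 +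
        (∑ j ∈ Rw R c d, N25e μ s N Q δ B b0 b b' ω j S) ^ 2 +
        (∑ j ∈ Rw R c d, sr ω.2 j * M5e μ s N Q δ B b0 b b' ω j S) ^ 2) +
        (∑ j ∈ Rw R c d, sr ω.2 j / 3 * R5e μ s N Q δ B b0 b b' σ ω j S) ^ 2)) :=
    gm_mono _ fun S => by
      rw [D5e_split δ B b0 hb σ R c d ω S]
      exact sq4 _ _ _ _
  rw [gm_mul5, gm_add5, gm_add5, gm_add5] at h2
  have h3 := gm_sq_le5 (wm μ s N Q ω) (f := fun S => D5 μ s N Q δ B b b' σ R c d ω S - D5e μ s N Q δ B b0 b b' σ R c d ω S)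
    (M := (Rw R c d).card * (2 * K5 B) + (Rw R c d).card * (2 * K5 B))
    (fun S => (abs_sub _ _).trans (add_le_add (abs_D5 hB b b' σ R c d ω S) (abs_D5e hB b0 b b' σ R c d ω S)))
  have h4 := gm_D5_sub (μ := μ) (s := s) (N := N) (Q := Q) (δ := δ) hB b0 b b' σ R c d ω
  have hK := K5_nonneg hB
  have hC : (0 : ℝ) ≤ (Rw R c d).card := Nat.cast_nonneg _
  have h5 := mul_le_mul_of_nonneg_left h4 (show (0 : ℝ) ≤ (Rw R c d).card * (2 * K5 B) + (Rw R c d).card * (2 * K5 B) by positivity)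
  have h6 := h3.trans h5
  refine h1.trans ?_
  have e : ((Rw R c d).card * (2 * K5 B) + (Rw R c d).card * (2 * K5 B)) * (4 * (1 + B) *
      ∑ j ∈ Rw R c d, (cl5 μ s N Q δ B b0 b ω j + cl5 μ s N Q δ B b0 b' ω j)) = 1 / 2 * (32 * (1 + B) * K5 B * (Rw R c d).card *
        ∑ j ∈ Rw R c d, (cl5 μ s N Q δ B b0 b ω j + cl5 μ s N Q δ B b0 b' ω j)) := by ring
  rw [e] at h6
  linarith

end

end Pool.Agent.W_7d29a1_C0.Base5
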