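import Pool.Agent.W_7d29a1_C0.Blk18
import Pool.Agent.W_7d29a1_C0.BFld63
import Pool.Agent.W_7d29a1_C0.Mod92B
import Pool.Agent.W_7d29a1_HZ.Act
import Pool.Agent.W_7d29a1_HZ.Z74_ShJ

/-!
C0, E5.8 (helper23): FIELDS WITH A PINNED END inside of a large window `[a, d)` of the model `Mod92`.

`A η e T` = a function of the environment, of the position `e` of the path at the pinned end, and of the piece `T` of the path over
`[a, m0)` (forward; `[m0, d)`: backward), `Φ` = a tilt of the same kind. `cfE a m0 Φ A e (m, y)` = the mean of `A` under `exp Φ` over the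
pieces from `(a, e)` to `(m, y)`, `m0 ≤ m`. Along a path it is the conditional mean given what the path does outside of `[a, m)`
(`cE_cfE`), it sees the environment of the rows `a < t < m` only (`cfE_blind`), so it is a bounded predictable field (`bf_cfE`).
`cbE m0 d Φ A e' (m, y)`: the same backward, given what the path does outside of `[m, d)`, rows `m < t < d` (`cE_cbE`, `bb_cbE`).
-/

set_option autoImplicit false
set_option linter.unusedSectionVars false
set_option linter.unusedVariables false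

namespace Pool.W7d29a1.C0.E23

open Finset MeasureTheory Pool.Agent.W_7d29a1_F Pool.Agent.W_7d29a1_X Pool.Agent.W_7d29a1_C0.Mod92
  Pool.Agent.W_7d29a1_C0.H32 Pool.W7d29a1.C0.H27 Pool.W7d29a1.C0.R63 Pool.Agent.W_7d29a1_C0.Blk18
open Pool.Agent.W_7d29a1_HZ (gp)
open Pool.Agent.W_7d29a1_Z74 (ZJ)
open Pool.Agent.W_7d29a1_HZ.Z74 (W_rows)
open Pool.W7d29a1.C0.VT31 (Mp Crs cE cV cC fz gc gv)

noncomputable section

/-! ### Tilts and labels -/

section Gen

variable {X : Type*} [Fintype X] [Nonempty X] {Y : Type*} [DecidableEq Y]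

/-- The conditional mean under tilted weights. -/
theorem cE_tilt (w Φ f : X → ℝ) (p : X → Y) (x : X) : cE (fun x => w x + Φ x) p f x =
    cE w p (fun x => Real.exp (Φ x) * f x) x / cE w p (fun x => Real.exp (Φ x)) x := by
  have e1 : ∀ g : X → ℝ, (∑ x', if p x' = p x then Real.exp (w x' + Φ x') * g x' else 0) =
      ∑ x', if p x' = p x then Real.exp (w x') * (Real.exp (Φ x') * g x') else 0 := fun g =>
    sum_congr rfl fun x' _ => by rw [Real.exp_add, mul_assoc]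
  have e2 : fz (fun x => w x + Φ x) p x = ∑ x', if p x' = p x then Real.exp (w x') * Real.exp (Φ x') else 0 := by
    unfold fz
    exact sum_congr rfl fun x' _ => by rw [Real.exp_add]
  unfold cE
  rw [e1, e2, div_div_div_cancel_right₀ (VT31.fz_pos w p x).ne']

/-- Labelled paths: the conditional mean given `p` and the label is the conditional mean with the tilt of the label. -/
theorem cE_lab {L : Type*} [Fintype L] [Nonempty L] [DecidableEq L] (w' : X × L → ℝ) (p : X → Y) (f : X × L → ℝ) (x : X)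
    (l : L) : cE w' (fun z => (p z.1, z.2)) f (x, l) = cE (fun x => w' (x, l)) p (fun x => f (x, l)) x := by
  have e1 : ∀ g : X × L → ℝ, (∑ z : X × L, if (p z.1, z.2) = (p x, l) then g z else 0) =
      ∑ x', if p x' = p x then g (x', l) else 0 := fun g => by
    rw [Fintype.sum_prod_type]
    refine sum_congr rfl fun x' _ => ?_
    have e2 : ∀ l' : L, (if ((p x', l') : Y × L) = (p x, l) then g (x', l') else 0) =
        if l' = l then (if p x' = p x then g (x', l) else 0) else 0 := fun l' => by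
      by_cases h1 : l' = l
      · subst h1
        by_cases h2 : p x' = p x
        · rw [if_pos (by rw [h2]), if_pos rfl, if_pos h2]
        · rw [if_neg fun h => h2 (Prod.mk.inj h).1, if_pos rfl, if_neg h2]
      · rw [if_neg fun h => h1 (Prod.mk.inj h).2, if_neg h1]
    rw [sum_congr rfl fun l' _ => e2 l', sum_ite_eq' univ l, if_pos (mem_univ l)]
  unfold cE fz
  have k1 := e1 fun z => Real.exp (w' z) * f z
  have k2 := e1 fun z => Real.exp (w' z)
  show (∑ z : X × L, if (p z.1, z.2) = (p x, l) then Real.exp (w' z) * f z else 0) /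
    (∑ z : X × L, if (p z.1, z.2) = (p x, l) then Real.exp (w' z) else 0) = _
  rw [k1, k2]

end Gen

variable {μ : Measure ℝ} {s : ℝ} {N : ℕ} {Q : Finset (Finset ℕ)}

/-! ### The pinned polymer does not see its last row -/

/-- The pinned polymer of length `m` sees only the rows `< m`. -/
theorem gp_inner {m : ℕ} {y : ℤ} {ζ ζ' : Env} (h : ∀ i : ℕ, i + 1 < m → ∀ z : ℤ, ζ' ((i : ℤ) + 1, z) = ζ ((i : ℤ) + 1, z))
    (T : Finset ℕ) : gp μ s ζ' m y T = gp μ s ζ m y T := by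
  obtain ⟨k, hk, hp⟩ : ∃ k : ℝ, k ≠ 0 ∧ ∀ T : Finset ℕ, pos T m = y → pth μ s ζ' m T = k * pth μ s ζ m T := by
    rcases Nat.eq_zero_or_pos m with h0 | h0
    · subst h0
      refine ⟨1, one_ne_zero, fun T _ => ?_⟩
      unfold pth
      simp
    · obtain ⟨n, rfl⟩ : ∃ n, m = n + 1 := ⟨m - 1, by omega⟩
      refine ⟨Real.exp (ζ' ((n : ℤ) + 1, y) - ζ ((n : ℤ) + 1, y)), (Real.exp_pos _).ne', fun T hT => ?_⟩
      unfold pth
      rw [prod_range_succ, prod_range_succ, hT]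
      have e1 : ∏ i ∈ range n, Real.exp (ζ' ((i : ℤ) + 1, pos T (i + 1))) =
          ∏ i ∈ range n, Real.exp (ζ ((i : ℤ) + 1, pos T (i + 1))) := prod_congr rfl fun i hi => by
        rw [mem_range] at hi
        rw [h i (by omega)]
      have h1 : Real.exp (ζ' ((n : ℤ) + 1, y)) =
          Real.exp (ζ' ((n : ℤ) + 1, y) - ζ ((n : ℤ) + 1, y)) * Real.exp (ζ ((n : ℤ) + 1, y)) := by
        rw [← Real.exp_add, sub_add_cancel]
      rw [e1, h1]
      ring
  unfold gp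
  by_cases hT : pos T m = y
  · rw [if_pos hT, if_pos hT, hp T hT]
    have hW : W μ s ζ' 0 m y = k * W μ s ζ 0 m y := by
      rw [← sum_pin, ← sum_pin, mul_sum]
      refine sum_congr rfl fun T' _ => ?_
      split_ifs with h1
      · exact hp T' h1
      · rw [mul_zero]
    rw [hW, mul_div_mul_left _ _ hk]
  · rw [if_neg hT, if_neg hT]

/-- The pinned polymer over `[a, a + n)` does not see the rows `≤ a` and `≥ a + n`. -/
theorem gp_sh_blind {a n : ℕ} {e y : ℤ} {p : Pt} (hp : p.1 ≤ (a : ℤ) ∨ ((a + n : ℕ) : ℤ) ≤ p.1) (η : Env) (x : ℝ)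
    (T : Finset ℕ) : gp μ s (sh ((a : ℤ), e) (Function.update η p x)) n y T = gp μ s (sh ((a : ℤ), e) η) n y T := by
  refine gp_inner (fun i hi z => ?_) T
  unfold sh
  refine Function.update_of_ne (fun h => ?_) _ _
  have h1 : (i : ℤ) + 1 + (a : ℤ) = p.1 := congrArg Prod.fst h
  push_cast at hp
  omega

theorem gp_nn (η : Env) (n : ℕ) (y : ℤ) (T : Finset ℕ) : 0 ≤ gp μ s η n y T := by
  unfold gp
  split_ifs
  · exact div_nonneg (pth_pos _ _ _).le (by
      rw [← sum_pin]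
      exact sum_nonneg fun T' _ => by
        split_ifs
        · exact (pth_pos _ _ _).le
        · exact le_rfl)
  · exact le_rfl

theorem gp_ne {η : Env} {n : ℕ} {y : ℤ} {T : Finset ℕ} (h : gp μ s η n y T ≠ 0) : pos T n = y := by
  by_contra h1
  exact h (if_neg h1)

theorem meas_gp_sh (u : Pt) (n : ℕ) (y : ℤ) (T : Finset ℕ) : Measurable fun η : Env => gp μ s (sh u η) n y T :=
  (Pool.Agent.W_7d29a1_HZ.measurable_gp (μ := μ) (s := s) n y T).comp (measurable_pi_lambda _ fun p => measurable_pi_apply _)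

/-! ### Functions of a piece of the path -/

/-- `A` is a bounded function of a piece of the path and of the environment in the rows `lo < t ≤ hi`. -/
structure PE (lo hi : ℕ) (D : ℝ) (A : Env → ℤ → Finset ℕ → ℝ) : Prop where
  bd : ∀ η e T, |A η e T| ≤ D
  bl : ∀ (η : Env) (p : Pt) (x : ℝ), p.1 ≤ (lo : ℤ) ∨ (hi : ℤ) < p.1 → A (Function.update η p x) = A η
  ms : ∀ e T, Measurable fun η => A η e T

/-! ### The forward field, the left end is pinned -/

/-- The weighted sum over the pieces from `(a, e)` to `q`. -/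
def nmE (μ : Measure ℝ) (s : ℝ) (a m0 : ℕ) (G : ℤ → Finset ℕ → ℝ) (e : ℤ) (q : Pt) (η : Env) : ℝ :=
  ∑ T ∈ (range (q.1.toNat - a)).powerset, gp μ s (sh ((a : ℤ), e) η) (q.1.toNat - a) (q.2 - e) T * G e (T ∩ range (m0 - a))

/-- **The forward field with a pinned left end.** -/
def cfE (μ : Measure ℝ) (s : ℝ) (a m0 : ℕ) (Φ A : Env → ℤ → Finset ℕ → ℝ) (e : ℤ) (q : Pt) (η : Env) : ℝ :=
  nmE μ s a m0 (fun e T => Real.exp (Φ η e T) * A η e T) e q η / nmE μ s a m0 (fun e T => Real.exp (Φ η e T)) e q η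

/-- The piece over `[a, m0)` of a path spliced over `[a, m)`. -/
theorem pce_spl_left {a m0 m : ℕ} (h : m0 ≤ m) (S : Finset ℕ) {T : Finset ℕ} (hT : T ⊆ range (m - a)) :
    pce a m0 (spl a m S T) = T ∩ range (m0 - a) := by
  ext i
  unfold pce spl
  simp only [mem_image, mem_inter, mem_union, mem_sdiff, mem_Ico, mem_range]
  constructor
  · rintro ⟨k, ⟨⟨h1, h2⟩ | ⟨l, hl, rfl⟩, h3, h4⟩, rfl⟩
    · exact absurd ⟨h3, by omega⟩ h2
    · rw [Nat.add_sub_cancel]
      exact ⟨hl, by omega⟩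
  · rintro ⟨h1, h2⟩
    exact ⟨i + a, ⟨Or.inr ⟨i, h1, rfl⟩, by omega, by omega⟩, by omega⟩

theorem nmE_eq [Nonempty (Px Q)] (hQ : Full N Q) {a m0 m : ℕ} (ha : a ≤ m0) (hm : m0 ≤ m) (hN : m ≤ N) (G : ℤ → Finset ℕ → ℝ)
    (η : Env) (S : Px Q) : cE (lw μ s η N Q) (pJ a m) (fun S' => G (ps S' a) (pce a m0 S'.1)) S =
      nmE μ s a m0 G (ps S a) ((m : ℤ), ps S m) η := by
  refine (blk18_set hQ η (ha.trans hm) hN S fun S' => G (pos S' a) (pce a m0 S')).trans ?_
  unfold nmE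
  simp only [Int.toNat_natCast]
  refine sum_congr rfl fun T hT => ?_
  rw [mem_powerset] at hT
  rw [pce_spl_left hm S.1 hT, pos_spl_le hT le_rfl]
  rfl

/-- **Along a path** the forward field is the conditional mean given what the path does outside of `[a, m)`. -/
theorem cE_cfE [Nonempty (Px Q)] (hQ : Full N Q) {a m0 m : ℕ} (ha : a ≤ m0) (hm : m0 ≤ m) (hN : m ≤ N)
    (Φ A : Env → ℤ → Finset ℕ → ℝ) (η : Env) (S : Px Q) :
    cE (fun S' : Px Q => lw μ s η N Q S' + Φ η (ps S' a) (pce a m0 S'.1)) (pJ a m)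
      (fun S' => A η (ps S' a) (pce a m0 S'.1)) S = cfE μ s a m0 Φ A (ps S a) ((m : ℤ), ps S m) η := by
  rw [cE_tilt]
  unfold cfE
  rw [← nmE_eq hQ ha hm hN (fun e T => Real.exp (Φ η e T) * A η e T) η S,
    ← nmE_eq hQ ha hm hN (fun e T => Real.exp (Φ η e T)) η S]

section Field

variable {a m0 : ℕ} {D DΦ : ℝ} {Φ A : Env → ℤ → Finset ℕ → ℝ} {e : ℤ}

theorem nmE_nonneg {G : ℤ → Finset ℕ → ℝ} (hG : ∀ e T, 0 ≤ G e T) (q : Pt) (η : Env) : 0 ≤ nmE μ s a m0 G e q η :=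
  sum_nonneg fun T _ => mul_nonneg (gp_nn _ _ _ _) (hG _ _)

theorem abs_cfE_le (hD : 0 ≤ D) (hA : ∀ η e T, |A η e T| ≤ D) (q : Pt) (η : Env) : |cfE μ s a m0 Φ A e q η| ≤ D := by
  unfold cfE
  have h0 : 0 ≤ nmE μ s a m0 (fun e T => Real.exp (Φ η e T)) e q η := nmE_nonneg (fun _ _ => (Real.exp_pos _).le) q η
  rw [abs_div, abs_of_nonneg h0]
  rcases h0.eq_or_lt with h1 | h1
  · rw [← h1, div_zero]
    exact hD
  · rw [div_le_iff₀ h1]
    unfold nmE
    rw [mul_sum]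
    refine (abs_sum_le_sum_abs _ _).trans (sum_le_sum fun T _ => ?_)
    rw [abs_mul, abs_of_nonneg (gp_nn _ _ _ _), abs_mul, abs_of_pos (Real.exp_pos _)]
    calc gp μ s (sh ((a : ℤ), e) η) (q.1.toNat - a) (q.2 - e) T *
          (Real.exp (Φ η e (T ∩ range (m0 - a))) * |A η e (T ∩ range (m0 - a))|)
        ≤ gp μ s (sh ((a : ℤ), e) η) (q.1.toNat - a) (q.2 - e) T * (Real.exp (Φ η e (T ∩ range (m0 - a))) * D) :=
          mul_le_mul_of_nonneg_left (mul_le_mul_of_nonneg_left (hA _ _ _) (Real.exp_pos _).le) (gp_nn _ _ _ _)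
      _ = _ := by ring

theorem nmE_blind {G : Env → ℤ → Finset ℕ → ℝ} {q p : Pt} (ha : (a : ℤ) ≤ q.1) (hp : p.1 ≤ (a : ℤ) ∨ q.1 ≤ p.1) {η : Env} {x : ℝ}
    (hG : G (Function.update η p x) = G η) :
    nmE μ s a m0 (G (Function.update η p x)) e q (Function.update η p x) = nmE μ s a m0 (G η) e q η := by
  unfold nmE
  rw [hG]
  refine sum_congr rfl fun T _ => ?_
  rw [gp_sh_blind (by push_cast; omega) η x T]

/-- **The forward field does not see the rows `≤ a` and the rows `≥` its own row.** -/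
theorem cfE_blind (hΦ : PE a m0 DΦ Φ) (hA : PE a m0 D A) (ha : a ≤ m0) {q p : Pt} (hq : (m0 : ℤ) < q.1)
    (hp : p.1 ≤ (a : ℤ) ∨ q.1 ≤ p.1) (η : Env) (x : ℝ) :
    cfE μ s a m0 Φ A e q (Function.update η p x) = cfE μ s a m0 Φ A e q η := by
  have h1 : p.1 ≤ (a : ℤ) ∨ (m0 : ℤ) < p.1 := hp.imp id fun h => hq.trans_le h
  have e1 := hΦ.bl η p x h1
  have e2 := hA.bl η p x h1
  have h2 : (a : ℤ) ≤ q.1 := by omega
  unfold cfE
  rw [nmE_blind (G := fun η e T => Real.exp (Φ η e T) * A η e T) h2 hp (by rw [e1, e2]),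
    nmE_blind (G := fun η e T => Real.exp (Φ η e T)) h2 hp (by rw [e1])]

theorem cfE_meas (hΦ : PE a m0 DΦ Φ) (hA : PE a m0 D A) (q : Pt) : Measurable (cfE μ s a m0 Φ A e q) := by
  unfold cfE nmE
  refine Measurable.div ?_ ?_
  · exact Finset.measurable_sum _ fun T _ => (meas_gp_sh _ _ _ _).mul (((hΦ.ms _ _).exp).mul (hA.ms _ _))
  · exact Finset.measurable_sum _ fun T _ => (meas_gp_sh _ _ _ _).mul ((hΦ.ms _ _).exp)

/-- **The forward field is a bounded predictable field.** -/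
theorem bf_cfE (hD : 0 ≤ D) (hΦ : PE a m0 DΦ Φ) (hA : PE a m0 D A) (ha : a ≤ m0) {V : Finset Pt} (hV : ∀ p ∈ V, (m0 : ℤ) < p.1) :
    H19.BF V (cfE μ s a m0 Φ A e) D :=
  ⟨fun p _ => cfE_meas hΦ hA p, fun p hp q _ hle η x => cfE_blind hΦ hA ha (hV p hp) (Or.inr hle) η x,
    fun p _ η => abs_cfE_le hD hA.bd p η⟩

end Field

/-! ### The backward field, the right end is pinned -/

/-- The weighted sum over the pieces from `q` to `(d, e)`. -/
def nmB (μ : Measure ℝ) (s : ℝ) (m0 d : ℕ) (G : ℤ → Finset ℕ → ℝ) (e : ℤ) (q : Pt) (η : Env) : ℝ :=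
  ∑ T ∈ (range (d - q.1.toNat)).powerset, gp μ s (sh ((q.1.toNat : ℤ), q.2) η) (d - q.1.toNat) (e - q.2) T *
    G e (pce (m0 - q.1.toNat) (d - q.1.toNat) T)

/-- **The backward field with a pinned right end.** -/
def cbE (μ : Measure ℝ) (s : ℝ) (m0 d : ℕ) (Φ A : Env → ℤ → Finset ℕ → ℝ) (e : ℤ) (q : Pt) (η : Env) : ℝ :=
  nmB μ s m0 d (fun e T => Real.exp (Φ η e T) * A η e T) e q η / nmB μ s m0 d (fun e T => Real.exp (Φ η e T)) e q η

/-- The piece over `[m0, d)` of a path spliced over `[m, d)`. -/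
theorem pce_spl_right {m m0 d : ℕ} (h : m ≤ m0) (S : Finset ℕ) {T : Finset ℕ} (hT : T ⊆ range (d - m)) :
    pce m0 d (spl m d S T) = pce (m0 - m) (d - m) T := by
  ext i
  unfold pce spl
  simp only [mem_image, mem_inter, mem_union, mem_sdiff, mem_Ico]
  constructor
  · rintro ⟨k, ⟨⟨h1, h2⟩ | ⟨l, hl, rfl⟩, h3, h4⟩, rfl⟩
    · exact absurd ⟨by omega, h4⟩ h2
    · exact ⟨l, ⟨hl, by omega, by omega⟩, by omega⟩
  · rintro ⟨k, ⟨h1, h2, h3⟩, rfl⟩
    exact ⟨k + m, ⟨Or.inr ⟨k, h1, rfl⟩, by omega, by omega⟩, by omega⟩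

theorem nmB_eq [Nonempty (Px Q)] (hQ : Full N Q) {m m0 d : ℕ} (hm : m ≤ m0) (hd : m0 ≤ d) (hN : d ≤ N) (G : ℤ → Finset ℕ → ℝ)
    (η : Env) (S : Px Q) : cE (lw μ s η N Q) (pJ m d) (fun S' => G (ps S' d) (pce m0 d S'.1)) S =
      nmB μ s m0 d G (ps S d) ((m : ℤ), ps S m) η := by
  refine (blk18_set hQ η (hm.trans hd) hN S fun S' => G (pos S' d) (pce m0 d S')).trans ?_
  unfold nmB
  simp only [Int.toNat_natCast]
  refine sum_congr rfl fun T hT => ?_
  rw [mem_powerset] at hT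
  by_cases h0 : gp μ s (sh ((m : ℤ), ps S m) η) (d - m) (ps S d - ps S m) T = 0
  · rw [h0, zero_mul, zero_mul]
  · have h1 := gp_ne h0
    rw [pos_card hT] at h1
    rw [pce_spl_right hm S.1 hT, pos_spl_ge hT h1 (hm.trans hd) le_rfl]
    rfl

/-- **Along a path** the backward field is the conditional mean given what the path does outside of `[m, d)`. -/
theorem cE_cbE [Nonempty (Px Q)] (hQ : Full N Q) {m m0 d : ℕ} (hm : m ≤ m0) (hd : m0 ≤ d) (hN : d ≤ N)
    (Φ A : Env → ℤ → Finset ℕ → ℝ) (η : Env) (S : Px Q) :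
    cE (fun S' : Px Q => lw μ s η N Q S' + Φ η (ps S' d) (pce m0 d S'.1)) (pJ m d)
      (fun S' => A η (ps S' d) (pce m0 d S'.1)) S = cbE μ s m0 d Φ A (ps S d) ((m : ℤ), ps S m) η := by
  rw [cE_tilt]
  unfold cbE
  rw [← nmB_eq hQ hm hd hN (fun e T => Real.exp (Φ η e T) * A η e T) η S,
    ← nmB_eq hQ hm hd hN (fun e T => Real.exp (Φ η e T)) η S]

section FieldB

variable {m0 d : ℕ} {D DΦ : ℝ} {Φ A : Env → ℤ → Finset ℕ → ℝ} {e : ℤ}

theorem nmB_nonneg {G : ℤ → Finset ℕ → ℝ} (hG : ∀ e T, 0 ≤ G e T) (q : Pt) (η : Env) : 0 ≤ nmB μ s m0 d G e q η :=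
  sum_nonneg fun T _ => mul_nonneg (gp_nn _ _ _ _) (hG _ _)

theorem abs_cbE_le (hD : 0 ≤ D) (hA : ∀ η e T, |A η e T| ≤ D) (q : Pt) (η : Env) : |cbE μ s m0 d Φ A e q η| ≤ D := by
  unfold cbE
  have h0 : 0 ≤ nmB μ s m0 d (fun e T => Real.exp (Φ η e T)) e q η := nmB_nonneg (fun _ _ => (Real.exp_pos _).le) q η
  rw [abs_div, abs_of_nonneg h0]
  rcases h0.eq_or_lt with h1 | h1
  · rw [← h1, div_zero]
    exact hD
  · rw [div_le_iff₀ h1]
    unfold nmB
    rw [mul_sum]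
    refine (abs_sum_le_sum_abs _ _).trans (sum_le_sum fun T _ => ?_)
    rw [abs_mul, abs_of_nonneg (gp_nn _ _ _ _), abs_mul, abs_of_pos (Real.exp_pos _)]
    refine (mul_le_mul_of_nonneg_left (mul_le_mul_of_nonneg_left (hA η _ _) (Real.exp_pos _).le) (gp_nn _ _ _ _)).trans_eq ?_
    ring

theorem nmB_blind {G : Env → ℤ → Finset ℕ → ℝ} {q p : Pt} (h0 : 0 ≤ q.1) (hd : q.1 ≤ (d : ℤ)) (hp : p.1 ≤ q.1 ∨ (d : ℤ) ≤ p.1)
    {η : Env} {x : ℝ} (hG : G (Function.update η p x) = G η) :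
    nmB μ s m0 d (G (Function.update η p x)) e q (Function.update η p x) = nmB μ s m0 d (G η) e q η := by
  unfold nmB
  rw [hG]
  refine sum_congr rfl fun T _ => ?_
  rw [gp_sh_blind (by push_cast; omega) η x T]

/-- **The backward field does not see the rows `≤` its own row and the rows `> d`.** -/
theorem cbE_blind (hΦ : PE m0 d DΦ Φ) (hA : PE m0 d D A) (hd : m0 ≤ d) {q p : Pt} (h0 : 0 ≤ q.1) (hq : q.1 ≤ (m0 : ℤ))
    (hp : p.1 ≤ q.1 ∨ (d : ℤ) < p.1) (η : Env) (x : ℝ) :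
    cbE μ s m0 d Φ A e q (Function.update η p x) = cbE μ s m0 d Φ A e q η := by
  have h1 : p.1 ≤ (m0 : ℤ) ∨ (d : ℤ) < p.1 := hp.imp (fun h => h.trans hq) id
  have e1 := hΦ.bl η p x h1
  have e2 := hA.bl η p x h1
  have h2 : q.1 ≤ (d : ℤ) := by omega
  have h3 : p.1 ≤ q.1 ∨ (d : ℤ) ≤ p.1 := hp.imp id le_of_lt
  unfold cbE
  rw [nmB_blind (G := fun η e T => Real.exp (Φ η e T) * A η e T) h0 h2 h3 (by rw [e1, e2]),
    nmB_blind (G := fun η e T => Real.exp (Φ η e T)) h0 h2 h3 (by rw [e1])]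

theorem cbE_meas (hΦ : PE m0 d DΦ Φ) (hA : PE m0 d D A) (q : Pt) : Measurable (cbE μ s m0 d Φ A e q) := by
  unfold cbE nmB
  refine Measurable.div ?_ ?_
  · exact Finset.measurable_sum _ fun T _ => (meas_gp_sh _ _ _ _).mul (((hΦ.ms _ _).exp).mul (hA.ms _ _))
  · exact Finset.measurable_sum _ fun T _ => (meas_gp_sh _ _ _ _).mul ((hΦ.ms _ _).exp)

/-- **The backward field is a bounded backward predictable field.** -/
theorem bb_cbE (hD : 0 ≤ D) (hΦ : PE m0 d DΦ Φ) (hA : PE m0 d D A) (hd : m0 ≤ d) {V : Finset Pt}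
    (hV : ∀ p ∈ V, 0 ≤ p.1 ∧ p.1 ≤ (m0 : ℤ)) : BB V (cbE μ s m0 d Φ A e) D :=
  ⟨fun p _ => cbE_meas hΦ hA p, fun p hp q _ hle η x => cbE_blind hΦ hA hd (hV p hp).1 (hV p hp).2 (Or.inl hle) η x,
    fun p _ η => abs_cbE_le hD hA.bd p η⟩

end FieldB

/-! ### The path functional of a field -/

/-- The path functional of a field on the sites `V` of the rows `m1 + 1 .. m1 + K`; `Nv` = the visits of a site. -/
theorem Cf_rows {V : Finset Pt} {m1 K : ℕ} (hV : V ⊆ slb m1 K) (c : Pt → Env → ℝ) {Nv : Pt → Px Q → ℝ}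
    (hNv : ∀ p ∈ V, ∀ S : Px Q, Nv p S = if ps S p.1.toNat = p.2 then 1 else 0) (η : Env) (S : Px Q) :
    H19.Cf V c Nv η S = ∑ m ∈ Ioc m1 (m1 + K), if ((m : ℤ), ps S m) ∈ V then c ((m : ℤ), ps S m) η else 0 := by
  unfold H19.Cf
  rw [Finset.sum_apply]
  simp only [Pi.smul_apply, smul_eq_mul]
  have e1 : ∀ p ∈ V, c p η * Nv p S = if ps S p.1.toNat = p.2 then c p η else 0 := fun p hp => by
    rw [hNv p hp S]
    split_ifs
    · rw [mul_one]
    · rw [mul_zero]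
  rw [sum_congr rfl e1, ← sum_filter, ← sum_filter]
  have key : ∀ p ∈ V, ps S p.1.toNat = p.2 → (((p.1.toNat : ℕ) : ℤ), ps S p.1.toNat) = p := fun p hp h => by
    have h3 := (mem_slb.1 (hV hp)).1
    exact Prod.ext (Int.toNat_of_nonneg (by omega)) h
  refine sum_nbij' (fun p : Pt => p.1.toNat) (fun m : ℕ => ((m : ℤ), ps S m)) ?_ ?_ ?_ ?_ ?_
  · intro p hp
    rw [mem_filter] at hp
    have h3 := (mem_slb.1 (hV hp.1)).1
    rw [mem_filter, mem_Ioc, key p hp.1 hp.2]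
    exact ⟨⟨by omega, by omega⟩, hp.1⟩
  · intro m hm
    rw [mem_filter] at hm
    rw [mem_filter]
    exact ⟨hm.2, by simp only [Int.toNat_natCast]⟩
  · intro p hp
    rw [mem_filter] at hp
    exact key p hp.1 hp.2
  · intro m _
    exact Int.toNat_natCast m
  · intro p hp
    rw [mem_filter] at hp
    rw [key p hp.1 hp.2]

/-- The same, all the sites of the rows. -/
theorem Cf_slb {m1 K : ℕ} (c : Pt → Env → ℝ) {Nv : Pt → Px Q → ℝ}
    (hNv : ∀ p ∈ slb m1 K, ∀ S : Px Q, Nv p S = if ps S p.1.toNat = p.2 then 1 else 0) (η : Env) (S : Px Q) :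
    H19.Cf (slb m1 K) c Nv η S = ∑ m ∈ Ioc m1 (m1 + K), c ((m : ℤ), ps S m) η := by
  rw [Cf_rows Subset.rfl c hNv]
  refine sum_congr rfl fun m hm => ?_
  rw [mem_Ioc] at hm
  rw [if_pos]
  rw [mem_slb]
  have h1 := ps_nonneg S m
  have h2 := ps_le S m
  simp only
  omega

/-- **The path functional of the forward field**: the average over the rows of the conditional means. -/
theorem Cf_cfE [Nonempty (Px Q)] (hQ : Full N Q) {a m0 m1 K : ℕ} (ha : a ≤ m0) (hm : m0 ≤ m1) (hN : m1 + K ≤ N)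
    (Φ A : Env → ℤ → Finset ℕ → ℝ) {Nv : Pt → Px Q → ℝ}
    (hNv : ∀ p ∈ slb m1 K, ∀ S : Px Q, Nv p S = if ps S p.1.toNat = p.2 then 1 else 0) (k : ℝ) (η : Env) (S : Px Q) :
    H19.Cf (slb m1 K) (fun p η => k * cfE μ s a m0 Φ A (ps S a) p η) Nv η S =
      k * ∑ m ∈ Ioc m1 (m1 + K), cE (fun S' : Px Q => lw μ s η N Q S' + Φ η (ps S' a) (pce a m0 S'.1)) (pJ a m)
        (fun S' => A η (ps S' a) (pce a m0 S'.1)) S := by
  rw [Cf_slb _ hNv, mul_sum]
  refine sum_congr rfl fun m hm' => ?_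
  rw [mem_Ioc] at hm'
  rw [cE_cfE hQ ha (by omega) (by omega)]

/-- **The path functional of the backward field.** -/
theorem Cf_cbE [Nonempty (Px Q)] (hQ : Full N Q) {m0 d m1 K : ℕ} (hm : m1 + K ≤ m0) (hd : m0 ≤ d) (hN : d ≤ N)
    (Φ A : Env → ℤ → Finset ℕ → ℝ) {Nv : Pt → Px Q → ℝ}
    (hNv : ∀ p ∈ slb m1 K, ∀ S : Px Q, Nv p S = if ps S p.1.toNat = p.2 then 1 else 0) (k : ℝ) (η : Env) (S : Px Q) :
    H19.Cf (slb m1 K) (fun p η => k * cbE μ s m0 d Φ A (ps S d) p η) Nv η S =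
      k * ∑ m ∈ Ioc m1 (m1 + K), cE (fun S' : Px Q => lw μ s η N Q S' + Φ η (ps S' d) (pce m0 d S'.1)) (pJ m d)
        (fun S' => A η (ps S' d) (pce m0 d S'.1)) S := by
  rw [Cf_slb _ hNv, mul_sum]
  refine sum_congr rfl fun m hm' => ?_
  rw [mem_Ioc] at hm'
  rw [cE_cbE hQ (by omega) hd hN]

/-! ### The half responses as functions of a piece -/

theorem ZJ_rows (a : Pt) (m n : ℕ) (j y : ℤ) {η η' : Env} (h : ∀ p : Pt, a.1 < p.1 → p.1 ≤ a.1 + m + n → η' p = η p) :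
    ZJ μ s η' a m n j y = ZJ μ s η a m n j y := by
  unfold ZJ
  refine sum_congr rfl fun z _ => ?_
  rw [W_rows s a m z fun p h1 h2 => h p h1 (by omega),
    W_rows s (a.1 + m, a.2 + z + j) n _ fun p h1 h2 => h p (lt_of_le_of_lt (by show a.1 ≤ a.1 + m; omega) h1) h2]

theorem gw_rows (δ B : ℝ) (α : ℤ) {c l k : ℕ} (hk : k ≤ l) (x y : ℤ) {η η' : Env}
    (h : ∀ p : Pt, (c : ℤ) < p.1 → p.1 ≤ c + l → η' p = η p) : gw μ s η' δ B α c l k x y = gw μ s η δ B α c l k x y := by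
  unfold gw lk
  rw [ZJ_rows ((c : ℤ), x) k (l - k) (-α) (y - x) fun p h1 h2 => h p h1 (by
      have : (c : ℤ) + k + (l - k : ℕ) = c + l := by omega
      rw [← this]
      exact h2),
    W_rows s ((c : ℤ), x) l (y - x) fun p h1 h2 => h p h1 h2]

/-- The half response of the window `[c, c + l]` as a function of the piece over `[a, ..)` from the position `e`. -/
def gwF (μ : Measure ℝ) (s δ B : ℝ) (α : ℤ) (c l k a : ℕ) (η : Env) (e : ℤ) (T : Finset ℕ) : ℝ :=
  gw μ s η δ B α c l k (e + pos T (c - a)) (e + pos T (c + l - a))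

/-- The same as a function of the piece over `[m0, ..)` which ends at the position `e`. -/
def gwB (μ : Measure ℝ) (s δ B : ℝ) (α : ℤ) (c l k m0 : ℕ) (η : Env) (e : ℤ) (T : Finset ℕ) : ℝ :=
  gw μ s η δ B α c l k (e - T.card + pos T (c - m0)) (e - T.card + pos T (c + l - m0))

section Gw

variable {δ B : ℝ} {α : ℤ} {c l k lo hi : ℕ}

theorem pe_gwF (hB : 0 ≤ B) (hα : |(α : ℝ)| ≤ 1) (h1 : lo ≤ c) (h2 : c + l ≤ hi) (hk : k ≤ l) (a : ℕ) :
    PE lo hi (B / 2) (gwF μ s δ B α c l k a) where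
  bd η e T := abs_gw η hB hα _ _ _ _ _
  bl η p x hp := by
    funext e T
    refine gw_rows δ B α hk _ _ fun q hq1 hq2 => Function.update_of_ne ?_ _ _
    rintro rfl
    omega
  ms e T := meas_gw _ _ _ _ _ _ _ _

theorem pe_gwB (hB : 0 ≤ B) (hα : |(α : ℝ)| ≤ 1) (h1 : lo ≤ c) (h2 : c + l ≤ hi) (hk : k ≤ l) (m0 : ℕ) :
    PE lo hi (B / 2) (gwB μ s δ B α c l k m0) where
  bd η e T := abs_gw η hB hα _ _ _ _ _
  bl η p x hp := by
    funext e T
    refine gw_rows δ B α hk _ _ fun q hq1 hq2 => Function.update_of_ne ?_ _ _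
    rintro rfl
    omega
  ms e T := meas_gw _ _ _ _ _ _ _ _

theorem PE.smul {D : ℝ} {A : Env → ℤ → Finset ℕ → ℝ} (h : PE lo hi D A) (τ : ℝ) :
    PE lo hi (|τ| * D) fun η e T => τ * A η e T where
  bd η e T := by
    rw [abs_mul]
    exact mul_le_mul_of_nonneg_left (h.bd η e T) (abs_nonneg _)
  bl η p x hp := by
    funext e T
    rw [h.bl η p x hp]
  ms e T := (h.ms e T).const_mul _

theorem gwF_ps {a m0 : ℕ} (ha : a ≤ c) (hm : c + l ≤ m0) (η : Env) (S : Px Q) :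
    gwF μ s δ B α c l k a η (ps S a) (pce a m0 S.1) = gw μ s η δ B α c l k (ps S c) (ps S (c + l)) := by
  unfold gwF
  rw [pos_pce S.1 (by omega : a + (c - a) ≤ m0), pos_pce S.1 (by omega : a + (c + l - a) ≤ m0)]
  have e1 : a + (c - a) = c := by omega
  have e2 : a + (c + l - a) = c + l := by omega
  rw [e1, e2]
  have e3 : ∀ t, ps S a + (pos S.1 t - pos S.1 a) = ps S t := fun t => by
    unfold ps
    ring
  rw [e3, e3]

theorem gwB_ps {m0 d : ℕ} (hm : m0 ≤ c) (hd : c + l ≤ d) (η : Env) (S : Px Q) :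
    gwB μ s δ B α c l k m0 η (ps S d) (pce m0 d S.1) = gw μ s η δ B α c l k (ps S c) (ps S (c + l)) := by
  unfold gwB
  rw [pos_pce S.1 (by omega : m0 + (c - m0) ≤ d), pos_pce S.1 (by omega : m0 + (c + l - m0) ≤ d)]
  have e1 : m0 + (c - m0) = c := by omega
  have e2 : m0 + (c + l - m0) = c + l := by omega
  have e4 : (((pce m0 d S.1).card : ℕ) : ℤ) = pos S.1 d - pos S.1 m0 := by
    rw [card_pce, card_blk S.1 (by omega)]
  rw [e1, e2, e4]
  have e3 : ∀ t, ps S d - (pos S.1 d - pos S.1 m0) + (pos S.1 t - pos S.1 m0) = ps S t := fun t => by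
    unfold ps
    ring
  rw [e3, e3]

/-- The response `gj` of `Mod92` as a function of the piece: forward. -/
theorem gj_gwF {a m0 b j : ℕ} (ha : a ≤ j - b) (hm : j + b ≤ m0) (η : Env) (S : Px Q) :
    gj μ s η δ B b j α S = gwF μ s δ B α (j - b) (j + b - (j - b)) (j - (j - b)) a η (ps S a) (pce a m0 S.1) := by
  rw [gwF_ps ha (by omega : j - b + (j + b - (j - b)) ≤ m0) η S, show j - b + (j + b - (j - b)) = j + b by omega]
  rfl

/-- The response `gj` of `Mod92` as a function of the piece: backward. -/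
theorem gj_gwB {m0 d b j : ℕ} (hm : m0 ≤ j - b) (hd : j + b ≤ d) (η : Env) (S : Px Q) :
    gj μ s η δ B b j α S = gwB μ s δ B α (j - b) (j + b - (j - b)) (j - (j - b)) m0 η (ps S d) (pce m0 d S.1) := by
  rw [gwB_ps hm (by omega : j - b + (j + b - (j - b)) ≤ d) η S, show j - b + (j + b - (j - b)) = j + b by omega]
  rfl

/-- **Forward, in the names of `Mod92`**: under the weights `wt .. t` the average of the conditional means of the response given
what the path does outside of `[a, m)` is the path functional of the field. -/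
theorem Cf_wtF [Nonempty (Px Q)] (hQ : Full N Q) {a m0 m1 K b j : ℕ} (ha : a ≤ j - b) (hb : j + b ≤ m0)
    (hm : m0 ≤ m1) (hN : m1 + K ≤ N) {Nv : Pt → Px Q → ℝ}
    (hNv : ∀ p ∈ slb m1 K, ∀ S : Px Q, Nv p S = if ps S p.1.toNat = p.2 then 1 else 0) (r t : ℝ) (η : Env) (S : Px Q) :
    H19.Cf (slb m1 K) (fun p η => r * cfE μ s a m0 (fun η e T => (t - α) * gwF μ s δ B α (j - b) (j + b - (j - b)) (j - (j - b)) a η e T)
      (gwF μ s δ B α (j - b) (j + b - (j - b)) (j - (j - b)) a) (ps S a) p η) Nv η S =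
      r * ∑ m ∈ Ioc m1 (m1 + K), cE (wt μ s η N Q δ B b j α t) (pJ a m) (gj μ s η δ B b j α) S := by
  rw [Cf_cfE hQ (by omega) hm hN _ _ hNv]
  have e1 : (fun S' : Px Q => lw μ s η N Q S' + (t - α) * gwF μ s δ B α (j - b) (j + b - (j - b)) (j - (j - b)) a η (ps S' a) (pce a m0 S'.1)) =
      wt μ s η N Q δ B b j α t := funext fun S' => by
    rw [← gj_gwF ha hb η S']
    rfl
  have e2 : (fun S' : Px Q => gwF μ s δ B α (j - b) (j + b - (j - b)) (j - (j - b)) a η (ps S' a) (pce a m0 S'.1)) = gj μ s η δ B b j α :=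
    funext fun S' => (gj_gwF ha hb η S').symm
  rw [e1, e2]

/-- **Backward, in the names of `Mod92`.** -/
theorem Cf_wtB [Nonempty (Px Q)] (hQ : Full N Q) {m0 d m1 K b j : ℕ} (hb : m0 ≤ j - b) (hd : j + b ≤ d)
    (hm : m1 + K ≤ m0) (hN : d ≤ N) {Nv : Pt → Px Q → ℝ}
    (hNv : ∀ p ∈ slb m1 K, ∀ S : Px Q, Nv p S = if ps S p.1.toNat = p.2 then 1 else 0) (r t : ℝ) (η : Env) (S : Px Q) :
    H19.Cf (slb m1 K) (fun p η => r * cbE μ s m0 d (fun η e T => (t - α) * gwB μ s δ B α (j - b) (j + b - (j - b)) (j - (j - b)) m0 η e T)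
      (gwB μ s δ B α (j - b) (j + b - (j - b)) (j - (j - b)) m0) (ps S d) p η) Nv η S =
      r * ∑ m ∈ Ioc m1 (m1 + K), cE (wt μ s η N Q δ B b j α t) (pJ m d) (gj μ s η δ B b j α) S := by
  rw [Cf_cbE hQ hm (by omega) hN _ _ hNv]
  have e1 : (fun S' : Px Q => lw μ s η N Q S' + (t - α) * gwB μ s δ B α (j - b) (j + b - (j - b)) (j - (j - b)) m0 η (ps S' d) (pce m0 d S'.1)) =
      wt μ s η N Q δ B b j α t := funext fun S' => by
    rw [← gj_gwB hb hd η S']
    rfl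
  have e2 : (fun S' : Px Q => gwB μ s δ B α (j - b) (j + b - (j - b)) (j - (j - b)) m0 η (ps S' d) (pce m0 d S'.1)) = gj μ s η δ B b j α :=
    funext fun S' => (gj_gwB hb hd η S').symm
  rw [e1, e2]

end Gw

end

end Pool.W7d29a1.C0.E23
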