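import Pool.Agent.W_7d29a1_C0.Near32
import Pool.Agent.W_7d29a1_C0.FldE23

/-!
STORM C0 (helper96): THE ROWS OF THE ENVIRONMENT WHICH A FUNCTIONAL SEES. The conditional means given the outside of `[c, d)` see the
rows `c + 1, .., d` of the environment (`cE_rows`), the response of a row the rows of its window (`gg_rows`), the loss `Dt` of the change of
`σ` only the blocks of the grid which contain kicked rows (`Dt_rows`, `Dt_Lk`).
-/

set_option autoImplicit false
set_option linter.unusedSectionVars false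

namespace Pool.Agent.W_7d29a1_C0.Row96

open Finset MeasureTheory Pool.Agent.W_7d29a1_F Pool.Agent.W_7d29a1_X Pool.Agent.W_7d29a1_H Pool.Agent.W_7d29a1_C0.Mod92
open Pool.W7d29a1.C0 (gz gm lse gz_pos gz_ne gm_nonneg gm_mono gm_const)
open Pool.W7d29a1.C0.VT31
open Pool.Agent.W_7d29a1_C0.Swap57 Pool.Agent.W_7d29a1_C0.E4T32 Pool.Agent.W_7d29a1_C0.Near32

noncomputable section

section Abs

variable {X : Type*} [Fintype X] [Nonempty X] {Y : Type*} [DecidableEq Y]

/-- A change of the weights which does not look inside is not seen by the conditional means. -/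
theorem cE_add_mp (w : X → ℝ) {p : X → Y} {h : X → ℝ} (hh : Mp p h) (f : X → ℝ) : cE (w + h) p f = cE w p f := by
  funext x
  have e1 : ∀ f : X → ℝ, (∑ x', if p x' = p x then Real.exp ((w + h) x') * f x' else 0) =
      Real.exp (h x) * ∑ x', if p x' = p x then Real.exp (w x') * f x' else 0 := fun f => by
    rw [mul_sum]
    refine sum_congr rfl fun x' _ => ?_
    split_ifs with h1
    · rw [Pi.add_apply, Real.exp_add, hh x' x h1]
      ring
    · rw [mul_zero]
  have e2 : fz (w + h) p x = Real.exp (h x) * fz w p x := by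
    have h1 := e1 fun _ => 1
    unfold fz
    simpa only [mul_one] using h1
  unfold cE
  rw [e1, e2, mul_div_mul_left _ _ (Real.exp_pos _).ne']

end Abs

variable {μ : Measure ℝ} {s : ℝ} {N : ℕ} {Q : Finset (Finset ℕ)} [SwQ Q]

/-- The environments agree on the rows `c + 1, .., d`. -/
def Ag (c d : ℕ) (η η' : Env) : Prop := ∀ q : Pt, (c : ℤ) < q.1 → q.1 ≤ d → η q = η' q

theorem Ag.symm {c d : ℕ} {η η' : Env} (h : Ag c d η η') : Ag c d η' η := fun q h1 h2 => (h q h1 h2).symm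

theorem Ag.mono {c d c' d' : ℕ} {η η' : Env} (h : Ag c d η η') (h1 : c ≤ c') (h2 : d' ≤ d) : Ag c' d' η η' :=
  fun q h3 h4 => h q (by omega) (by omega)

/-- The log weights of two environments which agree on the rows of `[c, d)`. -/
theorem lw_rows {c d : ℕ} {η η' : Env} (h : Ag c d η η') : Mp (pJ c d) (lw μ s η' N Q - lw μ s η N Q) := by
  intro S S' h1
  rw [Pi.sub_apply, Pi.sub_apply, lw_eq, lw_eq, lw_eq, lw_eq]
  have key : ∀ i ∈ range N, η' ((i : ℤ) + 1, ps S (i + 1)) - η ((i : ℤ) + 1, ps S (i + 1)) =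
      η' ((i : ℤ) + 1, ps S' (i + 1)) - η ((i : ℤ) + 1, ps S' (i + 1)) := by
    intro i _
    by_cases h2 : c ≤ i ∧ i < d
    · rw [h ((i : ℤ) + 1, ps S (i + 1)) (by show (c : ℤ) < (i : ℤ) + 1; omega) (by show (i : ℤ) + 1 ≤ (d : ℤ); omega),
        h ((i : ℤ) + 1, ps S' (i + 1)) (by show (c : ℤ) < (i : ℤ) + 1; omega) (by show (i : ℤ) + 1 ≤ (d : ℤ); omega)]
      ring
    · have h3 : ps S (i + 1) = ps S' (i + 1) := by
        rcases Nat.lt_or_ge i c with h4 | h4
        · exact ps_of_le h1 (by omega)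
        · exact ps_of_ge h1 (by omega)
      rw [h3]
  have e := sum_congr rfl key
  rw [sum_sub_distrib, sum_sub_distrib] at e
  linarith

variable [Nonempty (Px Q)]

/-- **The conditional means given the outside of `[c, d)` see only the rows of `[c, d)`.** -/
theorem cE_rows {c d : ℕ} {η η' : Env} (h : Ag c d η η') (f : Px Q → ℝ) :
    cE (lw μ s η N Q) (pJ c d) f = cE (lw μ s η' N Q) (pJ c d) f := by
  have e : lw μ s η' N Q = lw μ s η N Q + (lw μ s η' N Q - lw μ s η N Q) := by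
    funext S
    rw [Pi.add_apply, Pi.sub_apply]
    ring
  rw [e, cE_add_mp _ (lw_rows h)]

theorem cC_rows {c d : ℕ} {η η' : Env} (h : Ag c d η η') (f g : Px Q → ℝ) :
    cC (lw μ s η N Q) (pJ c d) f g = cC (lw μ s η' N Q) (pJ c d) f g := by
  unfold cC
  rw [cE_rows h, cE_rows h, cE_rows h]

theorem cV_rows {c d : ℕ} {η η' : Env} (h : Ag c d η η') (f : Px Q → ℝ) :
    cV (lw μ s η N Q) (pJ c d) f = cV (lw μ s η' N Q) (pJ c d) f := cC_rows h f f

omit [Nonempty (Px Q)] in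
/-- The response of the row `j` sees the rows of its window. -/
theorem gg_rows (δ B : ℝ) (b : ℕ) {η η' : Env} (A : Finset ℕ) {j : ℕ} (h : Ag (j - b) (j + b) η η') :
    gg μ s Q δ B b (η, A) j = gg μ s Q δ B b (η', A) j := by
  funext S
  refine Pool.W7d29a1.C0.E23.gw_rows δ B (sg A j) (by omega) _ _ fun p h1 h2 => ?_
  exact h p h1 (by omega)

/-- The inner functional of GS. -/
theorem HB_rows {c1 d1 c2 d2 : ℕ} (h1 : c1 ≤ c2) (h2 : d2 ≤ d1) {η η' : Env} (h : Ag c1 d1 η η') {g g' : Px Q → ℝ} (hg : g = g') :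
    HB (lw μ s η N Q) c1 d1 c2 d2 g = HB (lw μ s η' N Q) c1 d1 c2 d2 g' := by
  unfold HB
  rw [hg, cE_rows (h.mono h1 h2), cV_rows h]

/-- One row of the loss. -/
theorem Vn_rows (δ B : ℝ) {b σ m : ℕ} (hσ : 0 < σ) (hm : 0 < m) {η η' : Env} (A : Finset ℕ) {j : ℕ} (h1 : j / σ * σ + b ≤ j)
    (h2 : j + b ≤ (j / σ + 1) * σ) (h : Ag (j / (m * σ) * (m * σ)) (j / (m * σ) * (m * σ) + m * σ) η η') :
    Vn μ s N Q δ B b σ m (η, A) j = Vn μ s N Q δ B b σ m (η', A) j := by
  have hg := grid hσ hm j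
  have h3 : (j / σ + 1) * σ = j / σ * σ + σ := by ring
  exact HB_rows hg.1 hg.2 h (gg_rows δ B b A (h.mono (by omega) (by omega)))

/-- The blocks `[k σ', (k + 1) σ')` of the kicked rows of `[c, d)` lie in `[al, be)`. -/
def In96 (R : Finset ℕ) (σ' c d al be : ℕ) : Prop := ∀ j ∈ Rw R c d, al ≤ j / σ' * σ' ∧ j / σ' * σ' + σ' ≤ be

/-- **The loss sees the rows `al + 1, .., be` of the environment.** -/
theorem Dt_rows (δ B : ℝ) {b σ m : ℕ} (hσ : 0 < σ) (hm : 0 < m) {R : Finset ℕ} (hD : Deep R b σ) {c d al be : ℕ} (hcd : c ≤ d)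
    (hc : m * σ ∣ c) (hd : m * σ ∣ d) (hI : In96 R (m * σ) c d al be) {η η' : Env} (A : Finset ℕ) (h : Ag al be η η') :
    Dt μ s N Q δ B b σ m R c d (η, A) = Dt μ s N Q δ B b σ m R c d (η', A) := by
  rw [Dt_eq δ B b hσ hm R hcd hc hd, Dt_eq δ B b hσ hm R hcd hc hd]
  refine sum_congr rfl fun j hj => ?_
  have hjR : j ∈ R := (mem_inter.1 hj).1
  rw [Vn_rows δ B hσ hm A (hD j hjR).1 (hD j hjR).2 (h.mono (hI j hj).1 (hI j hj).2)]

/-- **The loss is a function of the positions in the rows `al, .., be`.** -/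
theorem Dt_Lk (δ B : ℝ) {b σ m : ℕ} (hσ : 0 < σ) (hm : 0 < m) {R : Finset ℕ} (hD : Deep R b σ) {c d al be : ℕ} (hcd : c ≤ d)
    (hc : m * σ ∣ c) (hd : m * σ ∣ d) (hI : In96 R (m * σ) c d al be) (ω : Env × Finset ℕ) :
    Lk al be (Dt μ s N Q δ B b σ m R c d ω) := by
  rw [Dt_eq δ B b hσ hm R hcd hc hd]
  intro S S' h
  rw [Finset.sum_apply, Finset.sum_apply]
  refine sum_congr rfl fun j hj => ?_
  rw [Pi.smul_apply, Pi.smul_apply]
  congr 1
  have hjR : j ∈ R := (mem_inter.1 hj).1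
  obtain ⟨h1, h2⟩ := hD j hjR
  have h3 : (j / σ + 1) * σ = j / σ * σ + σ := by ring
  have hg := grid hσ hm j
  have hL : Lk (j / (m * σ) * (m * σ)) (j / (m * σ) * (m * σ) + m * σ) (Vn μ s N Q δ B b σ m ω j) :=
    HB_Lk hg.1 (by omega) hg.2 (Wk_lw ω.1 (by omega)) (Wk_lw ω.1 (by omega))
      (Lk_mono (al := j - b) (be := j + b) (by omega) (by omega) (Lk_gg δ B b j ω le_rfl le_rfl))
  exact Lk_mono (hI j hj).1 (hI j hj).2 hL S S' h

end

end Pool.Agent.W_7d29a1_C0.Row96
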