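import Pool.Agent.W_7d29a1_C0.Num46

/-!
STORM C0 (helper46): THE BUDGET OF CURV0, frame NG: the inequalities between the scales `b` (base), `s ~ s(b)`, `r`, `ρ` (blocks),
`t` (loops) which the estimates of the cross term, of (T), of GS and of the change of the base use. All of them are read off from the
logarithms of `Num46`.
-/

set_option autoImplicit false
set_option linter.unusedSimpArgs false

namespace Pool.Agent.W_7d29a1_C0

section logs

variable {E w : ℕ → ℝ} {c₀ Θ δ a ε N : ℝ}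

section budget

variable {c C : ℝ} {b b₀ b' l r s s' t ρ : ℕ}

namespace Reg46

/-! ### One scale -/

/-- `λ_r ^ (-2) ≤ N ^ (ε - 3 c₀ δ) / E_r`. -/
theorem lam (R : Reg46 E w c₀ Θ δ a ε N) (h : Rg46 δ N r) : w r / r ≤ N ^ (ε - 3 * (c₀ * δ)) / E r := by
  have hr := h.pos R.N1
  have hE := R.Epos r
  have hw := R.w0 r (h.npos R.N1)
  have hN := R.N0
  refine of_lg46 R.N1 (by positivity) (by positivity) ?_
  rw [Real.logb_div (by positivity) (by positivity), Real.logb_div (by positivity) (by positivity), lgN46 R.N1]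
  linarith [R.lw h, R.lst' h]

/-- `λ_r ^ (-1) ≤ N ^ ((ε - 3 c₀ δ) / 2) / E_r ^ (1 / 2)`. -/
theorem lam' (R : Reg46 E w c₀ Θ δ a ε N) (h : Rg46 δ N r) :
    √(w r / r) ≤ N ^ ((ε - 3 * (c₀ * δ)) / 2) / √(E r) := by
  have hr := h.pos R.N1
  have hE := R.Epos r
  have hw := R.w0 r (h.npos R.N1)
  have hN := R.N0
  refine of_lg46 R.N1 (by positivity) (by positivity) ?_
  rw [Real.logb_div (by positivity) (by positivity), lgN46 R.N1]
  simp (disch := positivity) only [Real.sqrt_eq_rpow, Real.logb_mul, Real.logb_div, Real.logb_pow, Real.logb_inv,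
    Real.logb_rpow_eq_mul_logb_of_pos, Real.logb_one, Nat.cast_ofNat]
  linarith [R.lw h, R.lst' h]

/-- `E_r ^ 2 / r ≤ N ^ ε λ_r ^ (-2)`. -/
theorem lam_ge (R : Reg46 E w c₀ Θ δ a ε N) (h : Rg46 δ N r) : E r ^ 2 / r ≤ N ^ ε * (w r / r) := by
  have hr := h.pos R.N1
  have h1 := R.wge r h
  rw [← mul_div_assoc]
  exact div_le_div_of_nonneg_right h1 hr.le

/-- `t / E_t ≤ N ^ ε (t / r) ^ (1 / 2) r / E_r` for `t ≤ r`. -/
theorem tE (R : Reg46 E w c₀ Θ δ a ε N) (ht : 1 ≤ t) (h : t ≤ r) :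
    (t : ℝ) / E t ≤ N ^ ε * √((t : ℝ) / r) * (r / E r) := by
  have ht' : (0 : ℝ) < t := by exact_mod_cast ht
  have hr' : (0 : ℝ) < r := by exact_mod_cast lt_of_lt_of_le ht h
  have hE := R.Epos r
  have hE' := R.Epos t
  have hN := R.N0
  refine of_lg46 R.N1 (by positivity) (by positivity) ?_
  rw [Real.logb_mul (by positivity) (by positivity), Real.logb_mul (by positivity) (by positivity), lgN46 R.N1]
  simp (disch := positivity) only [Real.sqrt_eq_rpow, Real.logb_mul, Real.logb_div, Real.logb_pow, Real.logb_inv,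
    Real.logb_rpow_eq_mul_logb_of_pos, Real.logb_one, Nat.cast_ofNat]
  linarith [R.lhalf ht h]

/-- `t / E_t ≤ N ^ ε r / E_r` for `t ≤ r`. -/
theorem tE' (R : Reg46 E w c₀ Θ δ a ε N) (ht : 1 ≤ t) (h : t ≤ r) : (t : ℝ) / E t ≤ N ^ ε * (r / E r) := by
  have ht' : (0 : ℝ) < t := by exact_mod_cast ht
  have hr' : (0 : ℝ) < r := by exact_mod_cast lt_of_lt_of_le ht h
  have hE := R.Epos r
  have hN := R.N0
  refine (R.tE ht h).trans (mul_le_mul_of_nonneg_right ?_ (by positivity))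
  refine mul_le_of_le_one_right (by positivity) ?_
  refine Real.sqrt_le_one.2 ((div_le_one hr').2 ?_)
  exact_mod_cast h

/-- `t / r ≤ N ^ (2 ε) (E_t / E_r) ^ 2` for `t ≤ r`. -/
theorem tr (R : Reg46 E w c₀ Θ δ a ε N) (ht : 1 ≤ t) (h : t ≤ r) : (t : ℝ) / r ≤ N ^ (2 * ε) * (E t / E r) ^ 2 := by
  have ht' : (0 : ℝ) < t := by exact_mod_cast ht
  have hr' : (0 : ℝ) < r := by exact_mod_cast lt_of_lt_of_le ht h
  have hE := R.Epos r
  have hE' := R.Epos t
  have hN := R.N0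
  refine of_lg46 R.N1 (by positivity) (by positivity) ?_
  rw [Real.logb_mul (by positivity) (by positivity), lgN46 R.N1]
  simp (disch := positivity) only [Real.sqrt_eq_rpow, Real.logb_mul, Real.logb_div, Real.logb_pow, Real.logb_inv,
    Real.logb_rpow_eq_mul_logb_of_pos, Real.logb_one, Nat.cast_ofNat]
  linarith [R.lhalf ht h]

/-- `w_r / r ≤ N ^ ε (t / r) ^ a w_t / t` for `t ≤ r`: the ratio `w / r` decreases. -/
theorem wr (R : Reg46 E w c₀ Θ δ a ε N) (ht : N ^ δ ≤ t) (h : t ≤ r) :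
    w r / r ≤ N ^ ε * ((t : ℝ) / r) ^ a * (w t / t) := by
  have ht1 := R.one_le ht
  have ht' : (0 : ℝ) < t := by exact_mod_cast ht1
  have hr' : (0 : ℝ) < r := by exact_mod_cast lt_of_lt_of_le ht1 h
  have hw := R.w0 r (ht1.trans h)
  have hw' := R.w0 t ht1
  have hN := R.N0
  refine of_lg46 R.N1 (by positivity) (by positivity) ?_
  rw [Real.logb_mul (by positivity) (by positivity), Real.logb_mul (by positivity) (by positivity), lgN46 R.N1]
  simp (disch := positivity) only [Real.sqrt_eq_rpow, Real.logb_mul, Real.logb_div, Real.logb_pow, Real.logb_inv,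
    Real.logb_rpow_eq_mul_logb_of_pos, Real.logb_one, Nat.cast_ofNat]
  linarith [R.lwup ht h]

/-- `E_r ≤ N ^ (C / 2 + ε) E_l` for `l ≤ r ≤ N ^ C l`. -/
theorem Esub (R : Reg46 E w c₀ Θ δ a ε N) (hl : 1 ≤ l) (h : l ≤ r) (hC : (r : ℝ) ≤ N ^ C * l) : E r ≤ N ^ (C / 2 + ε) * E l := by
  have hl' : (0 : ℝ) < l := by exact_mod_cast hl
  have hr' : (0 : ℝ) < r := by exact_mod_cast lt_of_lt_of_le hl h
  have hE := R.Epos r
  have hE' := R.Epos l
  have hN := R.N0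
  have h1 := to_lg46 R.N1 hr' hC
  rw [Real.logb_mul (by positivity) (by positivity), lgN46 R.N1] at h1
  refine of_lg46 R.N1 (by positivity) (by positivity) ?_
  rw [Real.logb_mul (by positivity) (by positivity), lgN46 R.N1]
  linarith [R.lhalf hl h]

/-! ### The cross term at the level `r` with the base `b`: the budget per row is `N ^ (-c') / E_r` in units of `U`. -/

/-- (T), main term: `(E_r / E_s) λ_b ^ (-1)`. -/
theorem T1 (R : Reg46 E w c₀ Θ δ a ε N) (h : Bs46 E δ c N b s r) :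
    E r / E s * √(w b / b) ≤ N ^ (ε - c / 4 - 3 / 2 * (c₀ * δ)) := by
  have hb := h.hb.pos R.N1
  have hE := R.Epos r
  have hE' := R.Epos s
  have hw := R.w0 b (h.hb.npos R.N1)
  refine le_pow46 R.N1 (by positivity) ?_
  simp (disch := positivity) only [Real.sqrt_eq_rpow, Real.logb_mul, Real.logb_div, Real.logb_pow, Real.logb_inv,
    Real.logb_rpow_eq_mul_logb_of_pos, Real.logb_one, Nat.cast_ofNat]
  linarith [h.lpin R, h.ls1 R, R.lw h.hb, R.lst' h.hb, R.ε0]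

/-- (T), the new replica: `E_r / (E_s E_b)`. -/
theorem T2 (R : Reg46 E w c₀ Θ δ a ε N) (h : Bs46 E δ c N b s r) : E r / E s * (1 / E b) ≤ N ^ (-(c / 4) - δ / 8) := by
  have hE := R.Epos r
  have hE' := R.Epos s
  have hE'' := R.Epos b
  refine le_pow46 R.N1 (by positivity) ?_
  simp (disch := positivity) only [Real.sqrt_eq_rpow, Real.logb_mul, Real.logb_div, Real.logb_pow, Real.logb_inv,
    Real.logb_rpow_eq_mul_logb_of_pos, Real.logb_one, Nat.cast_ofNat]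
  linarith [h.lpin R, h.ls1 R, R.lq' h.hb]

/-- (T), the closings: `(E_r / E_s) (b / s)`. -/
theorem T3 (R : Reg46 E w c₀ Θ δ a ε N) (h : Bs46 E δ c N b s r) : E r / E s * ((b : ℝ) / s) ≤ N ^ (2 * ε - c) := by
  have hE := R.Epos r
  have hE' := R.Epos s
  have hb := h.hb.pos R.N1
  have hs := h.hs.pos R.N1
  refine le_pow46 R.N1 (by positivity) ?_
  simp (disch := positivity) only [Real.sqrt_eq_rpow, Real.logb_mul, Real.logb_div, Real.logb_pow, Real.logb_inv,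
    Real.logb_rpow_eq_mul_logb_of_pos, Real.logb_one, Nat.cast_ofNat]
  linarith [h.lpin R, h.ls1 R, R.lq' h.hb, h.lbs R, h.cδ, h.c0]

/-- (T): `(E_r / E_s) (λ_b ^ (-1) + E_b ^ (-1) + b / s) ≤ N ^ (3 ε - c / 4)`. -/
theorem T (R : Reg46 E w c₀ Θ δ a ε N) (h : Bs46 E δ c N b s r) :
    E r / E s * (√(w b / b) + 1 / E b + (b : ℝ) / s) ≤ N ^ (3 * ε - c / 4) := by
  have hN := R.N0
  have hc0 : 0 < c₀ * δ := mul_pos R.c₀0 R.δ0
  have e1 := (R.T1 h).trans (Real.rpow_le_rpow_of_exponent_le R.N1.le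
    (show ε - c / 4 - 3 / 2 * (c₀ * δ) ≤ 2 * ε - c / 4 by linarith [R.ε0]))
  have e2 := (R.T2 h).trans (Real.rpow_le_rpow_of_exponent_le R.N1.le (show -(c / 4) - δ / 8 ≤ 2 * ε - c / 4 by linarith [R.ε0, R.δ0]))
  have e3 := (R.T3 h).trans (Real.rpow_le_rpow_of_exponent_le R.N1.le (show 2 * ε - c ≤ 2 * ε - c / 4 by linarith [h.c0]))
  have e4 : N ^ (3 * ε - c / 4) = N ^ ε * N ^ (2 * ε - c / 4) := by
    rw [← Real.rpow_add hN]
    ring_nf
  have e5 : 0 < N ^ (2 * ε - c / 4) := Real.rpow_pos_of_pos hN _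
  rw [e4]
  nlinarith [R.K]

/-- (E1): `E_b ^ (-1) ≤ N ^ (-c / 2) / E_r ^ (1 / 2)`. -/
theorem Eb (R : Reg46 E w c₀ Θ δ a ε N) (h : Bs46 E δ c N b s r) : 1 / E b ≤ N ^ (-(c / 2)) / √(E r) := by
  have hE := R.Epos r
  have hE' := R.Epos b
  have hN := R.N0
  refine of_lg46 R.N1 (by positivity) (by positivity) ?_
  rw [Real.logb_div (by positivity) (by positivity), Real.logb_div (by positivity) (by positivity), lgN46 R.N1]
  simp (disch := positivity) only [Real.sqrt_eq_rpow, Real.logb_mul, Real.logb_div, Real.logb_pow, Real.logb_inv,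
    Real.logb_rpow_eq_mul_logb_of_pos, Real.logb_one, Nat.cast_ofNat]
  linarith [h.lpin R]

/-- (E2), main term: `E_b ^ (-1) λ_b ^ (-2)`. -/
theorem E2a (R : Reg46 E w c₀ Θ δ a ε N) (h : Bs46 E δ c N b s r) :
    1 / E b * (w b / b) ≤ N ^ (ε - c - 3 * (c₀ * δ)) / E r := by
  have hb := h.hb.pos R.N1
  have hE := R.Epos r
  have hE' := R.Epos b
  have hw := R.w0 b (h.hb.npos R.N1)
  have hN := R.N0
  refine of_lg46 R.N1 (by positivity) (by positivity) ?_
  rw [Real.logb_div (by positivity) hE.ne', lgN46 R.N1]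
  simp (disch := positivity) only [Real.sqrt_eq_rpow, Real.logb_mul, Real.logb_div, Real.logb_pow, Real.logb_inv,
    Real.logb_rpow_eq_mul_logb_of_pos, Real.logb_one, Nat.cast_ofNat]
  linarith [h.lpin R, R.lw h.hb, R.lst' h.hb]

/-- (E2), the new replica at the finer window: `E_b ^ (-1) E_b₀ ^ (-1)`. -/
theorem E2b (R : Reg46 E w c₀ Θ δ a ε N) (h : Bs46 E δ c N b s r) (hb₀ : 1 ≤ b₀) (hb : b₀ ≤ b) (hC : (b : ℝ) ≤ N ^ C * b₀) :
    1 / E b * (1 / E b₀) ≤ N ^ (C / 2 + ε - c) / E r := by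
  have hE := R.Epos r
  have hE' := R.Epos b
  have hE'' := R.Epos b₀
  have hN := R.N0
  have h1 := to_lg46 R.N1 hE' (R.Esub hb₀ hb hC)
  rw [Real.logb_mul (by positivity) (by positivity), lgN46 R.N1] at h1
  refine of_lg46 R.N1 (by positivity) (by positivity) ?_
  rw [Real.logb_div (by positivity) hE.ne', lgN46 R.N1]
  simp (disch := positivity) only [Real.sqrt_eq_rpow, Real.logb_mul, Real.logb_div, Real.logb_pow, Real.logb_inv,
    Real.logb_rpow_eq_mul_logb_of_pos, Real.logb_one, Nat.cast_ofNat]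
  linarith [h.lpin R]

/-! ### Loops of the scale `t ≥ s` in a block of length `r` (helper70, T.f): everything is at most `N ^ (-c') r / E_r`. -/

/-- A loop of the scale `t`, closings at the distance `l ≤ t`: `(r l w_l / (t E_t)) ^ (1 / 2)`. -/
theorem A1 (R : Reg46 E w c₀ Θ δ a ε N) (hl : Rg46 δ N l) (ht : Rg46 δ N t) (hr : Rg46 δ N r) (hlt : l ≤ t) (htr : t ≤ r) :
    √((r : ℝ) * l * w l / (t * E t)) ≤ N ^ ((ε - 3 * (c₀ * δ)) / 2) * (r / E r) := by
  have hl' := hl.pos R.N1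
  have ht' := ht.pos R.N1
  have hr' := hr.pos R.N1
  have hE := R.Epos r
  have hE' := R.Epos t
  have hw := R.w0 l (hl.npos R.N1)
  have hN := R.N0
  refine of_lg46 R.N1 (by positivity) (by positivity) ?_
  rw [Real.logb_mul (by positivity) (by positivity), lgN46 R.N1]
  simp (disch := positivity) only [Real.sqrt_eq_rpow, Real.logb_mul, Real.logb_div, Real.logb_pow, Real.logb_inv,
    Real.logb_rpow_eq_mul_logb_of_pos, Real.logb_one, Nat.cast_ofNat]
  linarith [R.lw hl, R.lst' hr, R.lmono hlt, R.lmono htr, R.lxmono (hl.npos R.N1) hlt]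

/-- `r (l w_l) ^ (1 / 2) / (t E_t)`. -/
theorem A2 (R : Reg46 E w c₀ Θ δ a ε N) (h : Bs46 E δ c N b s r) (hl : Rg46 δ N l) (ht : Rg46 δ N t) (hlt : l ≤ t) (hst : s ≤ t) :
    (r : ℝ) * √(l * w l) / (t * E t) ≤ N ^ (ε - δ / 32) * (r / E r) := by
  have hl' := hl.pos R.N1
  have ht' := ht.pos R.N1
  have hr' := h.hr.pos R.N1
  have hE := R.Epos r
  have hE' := R.Epos t
  have hw := R.w0 l (hl.npos R.N1)
  have hN := R.N0
  refine of_lg46 R.N1 (by positivity) (by positivity) ?_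
  rw [Real.logb_mul (by positivity) (by positivity), lgN46 R.N1]
  simp (disch := positivity) only [Real.sqrt_eq_rpow, Real.logb_mul, Real.logb_div, Real.logb_pow, Real.logb_inv,
    Real.logb_rpow_eq_mul_logb_of_pos, Real.logb_one, Nat.cast_ofNat]
  have hc0 : 0 < c₀ * δ := mul_pos R.c₀0 R.δ0
  linarith [R.lw hl, R.lst' h.hs, R.lmono hlt, R.lxmono (hl.npos R.N1) hlt, R.lxmono (h.hs.npos R.N1) hst, h.ls3 R,
    R.lq' h.hr, R.ε0, h.c0]

/-- `r / (E_t E_b)`. -/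
theorem B1 (R : Reg46 E w c₀ Θ δ a ε N) (h : Bs46 E δ c N b s r) (hst : s ≤ t) :
    (r : ℝ) / (E t * E b) ≤ N ^ (-(c / 2) - δ / 16) * (r / E r) := by
  have hr' := h.hr.pos R.N1
  have hE := R.Epos r
  have hE' := R.Epos t
  have hE'' := R.Epos b
  have hN := R.N0
  refine of_lg46 R.N1 (by positivity) (by positivity) ?_
  rw [Real.logb_mul (by positivity) (by positivity), lgN46 R.N1]
  simp (disch := positivity) only [Real.sqrt_eq_rpow, Real.logb_mul, Real.logb_div, Real.logb_pow, Real.logb_inv,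
    Real.logb_rpow_eq_mul_logb_of_pos, Real.logb_one, Nat.cast_ofNat]
  linarith [R.lmono hst, h.ls3 R, h.lpin R, R.lq' h.hr]

/-- `(r t / (E_t E_b ^ 2)) ^ (1 / 2)`. -/
theorem B2 (R : Reg46 E w c₀ Θ δ a ε N) (h : Bs46 E δ c N b s r) (ht : 1 ≤ t) (htr : t ≤ r) :
    √((r : ℝ) * t / (E t * E b ^ 2)) ≤ N ^ ((ε - c) / 2) * (r / E r) := by
  have hr' := h.hr.pos R.N1
  have ht' : (0 : ℝ) < t := by exact_mod_cast ht
  have hE := R.Epos r
  have hE' := R.Epos t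
  have hE'' := R.Epos b
  have hN := R.N0
  refine of_lg46 R.N1 (by positivity) (by positivity) ?_
  rw [Real.logb_mul (by positivity) (by positivity), lgN46 R.N1]
  simp (disch := positivity) only [Real.sqrt_eq_rpow, Real.logb_mul, Real.logb_div, Real.logb_pow, Real.logb_inv,
    Real.logb_rpow_eq_mul_logb_of_pos, Real.logb_one, Nat.cast_ofNat]
  linarith [R.lhalf ht htr, R.lxmono ht htr, h.lpin R]

/-- `(r b / (E_t E_b)) ^ (1 / 2)`. -/
theorem B3 (R : Reg46 E w c₀ Θ δ a ε N) (h : Bs46 E δ c N b s r) (hst : s ≤ t) :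
    √((r : ℝ) * b / (E t * E b)) ≤ N ^ (ε - δ / 32) * (r / E r) := by
  have hr' := h.hr.pos R.N1
  have hb' := h.hb.pos R.N1
  have hE := R.Epos r
  have hE' := R.Epos t
  have hE'' := R.Epos b
  have hN := R.N0
  refine of_lg46 R.N1 (by positivity) (by positivity) ?_
  rw [Real.logb_mul (by positivity) (by positivity), lgN46 R.N1]
  simp (disch := positivity) only [Real.sqrt_eq_rpow, Real.logb_mul, Real.logb_div, Real.logb_pow, Real.logb_inv,
    Real.logb_rpow_eq_mul_logb_of_pos, Real.logb_one, Nat.cast_ofNat]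
  linarith [R.lmono hst, h.ls1 R, R.lhalf (h.hb.npos R.N1) (h.bs.trans h.sr), R.lq' h.hb, h.cδ, h.c0]

end Reg46

/-! ### The change of the base and of its scale, `(b, s) → (b', s')`, in the blocks of length `ρ`. The budget per row is
`N ^ (Θ - c')`. -/

namespace Ch46

/-- A scale `t ≤ s'`: `2 e_t ≤ 3 / 2 e_ρ + 3 c / 16 + ε / 2`. -/
theorem lt (R : Reg46 E w c₀ Θ δ a ε N) (H : Ch46 E δ c Θ N b s b' s' ρ) (hts : t ≤ s') :
    2 * Real.logb N (E t) ≤ 3 / 2 * Real.logb N (E ρ) + 3 / 16 * c + ε / 2 := by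
  linarith [R.lmono hts, H.h'.ls4 R]

/-- (i) near pairs and closings: `b / (E_t E_ρ)`, `t ≥ s`. -/
theorem gs1 (R : Reg46 E w c₀ Θ δ a ε N) (h : Bs46 E δ c N b s ρ) (hst : s ≤ t) :
    (b : ℝ) / (E t * E ρ) ≤ N ^ (Θ + ε - 2 * c) := by
  have hb := h.hb.pos R.N1
  have hE := R.Epos t
  have hE' := R.Epos ρ
  refine le_pow46 R.N1 (by positivity) ?_
  simp (disch := positivity) only [Real.sqrt_eq_rpow, Real.logb_mul, Real.logb_div, Real.logb_pow, Real.logb_inv,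
    Real.logb_rpow_eq_mul_logb_of_pos, Real.logb_one, Nat.cast_ofNat]
  linarith [R.lkap' h.hb, h.ls1 R, h.lup R, R.lmono hst, (h.l8 R).2, h.c0]

/-- (ii) the same inner loop of the scale `t ≤ s'` and one more tie at the base: `t / (E_t E_ρ) E_b ^ (-1)`. -/
theorem gs2 (R : Reg46 E w c₀ Θ δ a ε N) (H : Ch46 E δ c Θ N b s b' s' ρ) (ht : Rg46 δ N t) (hts : t ≤ s') :
    (t : ℝ) / (E t * E ρ) * (1 / E b) ≤ N ^ (Θ + 2 * ε - 5 / 16 * c) := by
  have ht' := ht.pos R.N1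
  have hE := R.Epos t
  have hE' := R.Epos ρ
  have hE'' := R.Epos b
  refine le_pow46 R.N1 (by positivity) ?_
  simp (disch := positivity) only [Real.sqrt_eq_rpow, Real.logb_mul, Real.logb_div, Real.logb_pow, Real.logb_inv,
    Real.logb_rpow_eq_mul_logb_of_pos, Real.logb_one, Nat.cast_ofNat]
  linarith [R.lkap' ht, H.lt R hts, H.h.lpin R, R.ε0]

/-- (ii) with `λ_b ^ (-2)`. -/
theorem gs2' (R : Reg46 E w c₀ Θ δ a ε N) (H : Ch46 E δ c Θ N b s b' s' ρ) (ht : Rg46 δ N t) (hts : t ≤ s') :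
    (t : ℝ) / (E t * E ρ) * (w b / b) ≤ N ^ (Θ + 3 * ε - 5 / 16 * c - 3 * (c₀ * δ)) := by
  have ht' := ht.pos R.N1
  have hb := H.h.hb.pos R.N1
  have hE := R.Epos t
  have hE' := R.Epos ρ
  have hw := R.w0 b (H.h.hb.npos R.N1)
  refine le_pow46 R.N1 (by positivity) ?_
  simp (disch := positivity) only [Real.sqrt_eq_rpow, Real.logb_mul, Real.logb_div, Real.logb_pow, Real.logb_inv,
    Real.logb_rpow_eq_mul_logb_of_pos, Real.logb_one, Nat.cast_ofNat]
  linarith [R.lkap' ht, H.lt R hts, H.h.lpin R, R.ε0, R.lw H.h.hb, R.lst' H.h.hb]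

/-- (iii) two inner loops and one more tie at the base: `ρ / (E_ρ E_s ^ 2) E_b ^ (-1)`. -/
theorem gs3 (R : Reg46 E w c₀ Θ δ a ε N) (h : Bs46 E δ c N b s ρ) :
    (ρ : ℝ) / (E ρ * E s ^ 2) * (1 / E b) ≤ N ^ (Θ + ε - c / 2) := by
  have hρ := h.hr.pos R.N1
  have hE := R.Epos s
  have hE' := R.Epos ρ
  have hE'' := R.Epos b
  refine le_pow46 R.N1 (by positivity) ?_
  simp (disch := positivity) only [Real.sqrt_eq_rpow, Real.logb_mul, Real.logb_div, Real.logb_pow, Real.logb_inv,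
    Real.logb_rpow_eq_mul_logb_of_pos, Real.logb_one, Nat.cast_ofNat]
  linarith [R.lkap' h.hr, h.ls1 R, h.lpin R]

/-- (iii) with `λ_b ^ (-2)`. -/
theorem gs3' (R : Reg46 E w c₀ Θ δ a ε N) (h : Bs46 E δ c N b s ρ) :
    (ρ : ℝ) / (E ρ * E s ^ 2) * (w b / b) ≤ N ^ (Θ + 2 * ε - c / 2 - 3 * (c₀ * δ)) := by
  have hρ := h.hr.pos R.N1
  have hb := h.hb.pos R.N1
  have hE := R.Epos s
  have hE' := R.Epos ρ
  have hw := R.w0 b (h.hb.npos R.N1)
  refine le_pow46 R.N1 (by positivity) ?_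
  simp (disch := positivity) only [Real.sqrt_eq_rpow, Real.logb_mul, Real.logb_div, Real.logb_pow, Real.logb_inv,
    Real.logb_rpow_eq_mul_logb_of_pos, Real.logb_one, Nat.cast_ofNat]
  linarith [R.lkap' h.hr, h.ls1 R, h.lpin R, R.lw h.hb, R.lst' h.hb]

/-- (iv) a third loop through both rows: `t / (E_ρ E_s E_t)`, `t ≤ s'`. -/
theorem gs4 (R : Reg46 E w c₀ Θ δ a ε N) (H : Ch46 E δ c Θ N b s b' s' ρ) (ht : Rg46 δ N t) (hts : t ≤ s') :
    (t : ℝ) / (E ρ * E s * E t) ≤ N ^ (Θ + 2 * ε - 3 * c) := by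
  have ht' := ht.pos R.N1
  have hE := R.Epos t
  have hE' := R.Epos ρ
  have hE'' := R.Epos s
  refine le_pow46 R.N1 (by positivity) ?_
  simp (disch := positivity) only [Real.sqrt_eq_rpow, Real.logb_mul, Real.logb_div, Real.logb_pow, Real.logb_inv,
    Real.logb_rpow_eq_mul_logb_of_pos, Real.logb_one, Nat.cast_ofNat]
  linarith [R.lkap' ht, H.lt R hts, H.h.ls3 R, R.ε0, (H.h.l8 R).2, H.h.c0]

/-- (E5.5) near pairs: `b' / (E_b E_ρ)`. -/
theorem e51 (R : Reg46 E w c₀ Θ δ a ε N) (H : Ch46 E δ c Θ N b s b' s' ρ) :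
    (b' : ℝ) / (E b * E ρ) ≤ N ^ (Θ - 15 / 16 * c) := by
  have hb := H.h'.hb.pos R.N1
  have hE := R.Epos b
  have hE' := R.Epos ρ
  refine le_pow46 R.N1 (by positivity) ?_
  simp (disch := positivity) only [Real.sqrt_eq_rpow, Real.logb_mul, Real.logb_div, Real.logb_pow, Real.logb_inv,
    Real.logb_rpow_eq_mul_logb_of_pos, Real.logb_one, Nat.cast_ofNat]
  linarith [H.ltie R, H.h'.lup R, H.h.lpin R]

/-- (E5.6) `t / (E_t E_b ^ 2 E_ρ)` for `t ≤ s'`. -/
theorem e52 (R : Reg46 E w c₀ Θ δ a ε N) (H : Ch46 E δ c Θ N b s b' s' ρ) (ht : Rg46 δ N t) (hts : t ≤ s') :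
    (t : ℝ) / (E t * E b ^ 2 * E ρ) ≤ N ^ (Θ + 2 * ε - δ / 8) := by
  have ht' := ht.pos R.N1
  have hE := R.Epos t
  have hE' := R.Epos ρ
  have hE'' := R.Epos b
  refine le_pow46 R.N1 (by positivity) ?_
  simp (disch := positivity) only [Real.sqrt_eq_rpow, Real.logb_mul, Real.logb_div, Real.logb_pow, Real.logb_inv,
    Real.logb_rpow_eq_mul_logb_of_pos, Real.logb_one, Nat.cast_ofNat]
  linarith [R.lkap' ht, H.lt R hts, H.h.lpin R, R.ε0, R.lq' H.h.hr, H.h.c0]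

/-- (E5.6) `ρ / (E_ρ E_b ^ 2 E_b₁ ^ 2)` for every `b₁` with `b ≤ N ^ C b₁` (`b₁ = b'`: `C = 0`; `b₁ = b₀`). -/
theorem e53 (R : Reg46 E w c₀ Θ δ a ε N) (h : Bs46 E δ c N b s ρ) (hb₀ : 1 ≤ b₀) (hb : b₀ ≤ b) (hC : (b : ℝ) ≤ N ^ C * b₀) :
    (ρ : ℝ) / (E ρ * E b ^ 2 * E b₀ ^ 2) ≤ N ^ (Θ + 3 * ε + C - 2 * c) := by
  have hρ := h.hr.pos R.N1
  have hE := R.Epos b
  have hE' := R.Epos ρ
  have hE'' := R.Epos b₀
  have hN := R.N0
  have h1 := to_lg46 R.N1 hE (R.Esub hb₀ hb hC)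
  rw [Real.logb_mul (by positivity) (by positivity), lgN46 R.N1] at h1
  refine le_pow46 R.N1 (by positivity) ?_
  simp (disch := positivity) only [Real.sqrt_eq_rpow, Real.logb_mul, Real.logb_div, Real.logb_pow, Real.logb_inv,
    Real.logb_rpow_eq_mul_logb_of_pos, Real.logb_one, Nat.cast_ofNat]
  linarith [R.lkap' h.hr, h.lpin R]

/-- (E5.7) one loop of the scale `t ≤ ρ` over both rows: `t / (E_ρ E_b ^ 2 E_t)`. -/
theorem e54 (R : Reg46 E w c₀ Θ δ a ε N) (h : Bs46 E δ c N b s ρ) (ht : 1 ≤ t) (htρ : t ≤ ρ) :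
    (t : ℝ) / (E ρ * E b ^ 2 * E t) ≤ N ^ (Θ + 2 * ε - c) := by
  have hρ := h.hr.pos R.N1
  have ht' : (0 : ℝ) < t := by exact_mod_cast ht
  have hE := R.Epos b
  have hE' := R.Epos ρ
  have hE'' := R.Epos t
  refine le_pow46 R.N1 (by positivity) ?_
  simp (disch := positivity) only [Real.sqrt_eq_rpow, Real.logb_mul, Real.logb_div, Real.logb_pow, Real.logb_inv,
    Real.logb_rpow_eq_mul_logb_of_pos, Real.logb_one, Nat.cast_ofNat]
  linarith [R.lkap' h.hr, h.lpin R, R.lhalf ht htρ, R.lxmono ht htρ]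

/-- (E5.8) `ρ / E_ρ E_b ^ (-2) λ_b₀ ^ (-4)`. -/
theorem e55 (R : Reg46 E w c₀ Θ δ a ε N) (h : Bs46 E δ c N b s ρ) (hb₀ : Rg46 δ N b₀) (hb : b₀ ≤ b) (hC : (b : ℝ) ≤ N ^ C * b₀) :
    (ρ : ℝ) / (E ρ * E b ^ 2) * (w b₀ / b₀) ^ 2 ≤ N ^ (Θ + 5 * ε + C - 2 * c - 6 * (c₀ * δ)) := by
  have hρ := h.hr.pos R.N1
  have hb₀' := hb₀.pos R.N1
  have hE := R.Epos b
  have hE' := R.Epos ρ
  have hE'' := R.Epos b₀
  have hw := R.w0 b₀ (hb₀.npos R.N1)
  have hN := R.N0
  have h1 := to_lg46 R.N1 hE (R.Esub (hb₀.npos R.N1) hb hC)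
  rw [Real.logb_mul (by positivity) (by positivity), lgN46 R.N1] at h1
  refine le_pow46 R.N1 (by positivity) ?_
  simp (disch := positivity) only [Real.sqrt_eq_rpow, Real.logb_mul, Real.logb_div, Real.logb_pow, Real.logb_inv,
    Real.logb_rpow_eq_mul_logb_of_pos, Real.logb_one, Nat.cast_ofNat]
  linarith [R.lkap' h.hr, h.lpin R, R.lw hb₀, R.lst' hb₀]

end Ch46

end budget

end logs

end Pool.Agent.W_7d29a1_C0
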