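import Pool.Agent.W_7d29a1_C0.Num46
import Pool.Agent.W_7d29a1_C0.Rec96B

/-!
STORM C0 (helper46): the bases and the changes of base of `Rec96B` (`sg96`, `Chg96`) in the form of `Num46` (`Bs46`, `Ch46`).
-/

set_option autoImplicit false

namespace Pool.Agent.W_7d29a1_C0

variable {E w : ℕ → ℝ} {c₀ Θ δ a ε c : ℝ} {m p q : ℕ}

theorem rg46_two (h : δ * m ≤ p) (hp : p ≤ m) : Rg46 δ ((2 ^ m : ℕ) : ℝ) (2 ^ p) where
  lo := by
    rw [pow_two96]
    push_cast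
    rw [← Real.rpow_natCast 2 p]
    exact Real.rpow_le_rpow_of_exponent_le one_le_two h
  hi := by exact_mod_cast Nat.pow_le_pow_right two_pos hp

theorem m_pos46 (R : Reg46 E w c₀ Θ δ a ε ((2 ^ m : ℕ) : ℝ)) : 0 < m := by
  rcases Nat.eq_zero_or_pos m with h | h
  · exfalso
    have := R.N1
    rw [h] at this
    norm_num at this
  · exact h

/-- From logarithms in the base `2` to powers of `N = 2 ^ m`. -/
theorem lg2_46 (n : ℕ) (hm : 0 < m) : Real.logb 2 (E n) = m * Real.logb ((2 ^ m : ℕ) : ℝ) (E n) := by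
  have hl : Real.log 2 ≠ 0 := (Real.log_pos one_lt_two).ne'
  have hm' : (m : ℝ) ≠ 0 := by exact_mod_cast hm.ne'
  have h2 : Real.log ((2 ^ m : ℕ) : ℝ) = m * Real.log 2 := by
    push_cast
    rw [Real.log_pow]
  rw [Real.logb, Real.logb, h2]
  field_simp

/-- **The base `2 ^ p` of the contracts.** -/
theorem bs46 (R : Reg46 E w c₀ Θ δ a ε ((2 ^ m : ℕ) : ℝ)) (hc : 0 < c) (hcδ : 64 * c ≤ δ) (hp : δ * m ≤ p)
    (hsg : p ≤ sg96 E c m p) (hq : sg96 E c m p ≤ q) (hqm : q ≤ m)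
    (hpin : ((2 ^ m : ℕ) : ℝ) ^ c * E (2 ^ q) ≤ E (2 ^ p) ^ 2) (hup : E (2 ^ p) ^ 2 ≤ ((2 ^ m : ℕ) : ℝ) ^ (9 / 8 * c) * E (2 ^ q)) :
    Bs46 E δ c ((2 ^ m : ℕ) : ℝ) (2 ^ p) (2 ^ sg96 E c m p) (2 ^ q) := by
  have hm := m_pos46 R
  have hmR : (0 : ℝ) < m := by exact_mod_cast hm
  have hN := R.N0
  have hN1 := R.N1
  have hp0 : 0 < p := by
    have h1 : (0 : ℝ) < δ * m := mul_pos R.δ0 hmR
    exact_mod_cast h1.trans_le hp
  have hne : {q : ℕ | p ≤ q ∧ E (2 ^ p) ^ 6 ≤ ((2 ^ m : ℕ) : ℝ) ^ (3 * c) * E (2 ^ q) ^ 4}.Nonempty := by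
    by_contra h
    rw [Set.not_nonempty_iff_eq_empty] at h
    have h1 : sg96 E c m p = 0 := by
      rw [sg96, h, Nat.sInf_empty]
    omega
  have hmem : p ≤ sg96 E c m p ∧ E (2 ^ p) ^ 6 ≤ ((2 ^ m : ℕ) : ℝ) ^ (3 * c) * E (2 ^ sg96 E c m p) ^ 4 := Nat.sInf_mem hne
  have hb : Rg46 δ ((2 ^ m : ℕ) : ℝ) (2 ^ p) := rg46_two hp (hsg.trans (hq.trans hqm))
  have hEp := R.Epos (2 ^ p)
  have hEs := R.Epos (2 ^ sg96 E c m p)
  have hpc : δ / 4 ≤ Real.logb ((2 ^ m : ℕ) : ℝ) (E (2 ^ p)) := R.lq' hb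
  refine { c0 := hc, cδ := hcδ, hb := hb, hs := rg46_two (hp.trans (by exact_mod_cast hsg)) (hq.trans hqm),
           hr := rg46_two (hp.trans (by exact_mod_cast hsg.trans hq)) hqm, bs := Nat.pow_le_pow_right two_pos hsg,
           sr := Nat.pow_le_pow_right two_pos hq, pin := hpin, up := hup, s1 := hmem.2, s2 := ?_ }
  rcases (sg_log96 R.E1 R.dbl hmem).2 with h | ⟨h, -⟩
  · exfalso
    have h2 := to_lg46 hN1 (by positivity) hmem.2
    rw [h, Real.logb_mul (by positivity) (by positivity), lgN46 hN1, Real.logb_pow, Real.logb_pow] at h2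
    push_cast at h2 hpc
    linarith
  · refine of_lg46 hN1 (by positivity) (by positivity) ?_
    rw [Real.logb_mul (by positivity) (by positivity), lgN46 hN1, Real.logb_mul (by norm_num) (by positivity), Real.logb_pow,
      Real.logb_pow]
    rw [lg2_46 _ hm, lg2_46 _ hm] at h
    have h16 : Real.logb ((2 ^ m : ℕ) : ℝ) 16 * m = 4 := by
      have hl : Real.log 2 ≠ 0 := (Real.log_pos one_lt_two).ne'
      have e1 : Real.log (16 : ℝ) = 4 * Real.log 2 := by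
        rw [show (16 : ℝ) = 2 ^ 4 by norm_num, Real.log_pow]
        push_cast
        ring
      have e2 : Real.log ((2 ^ m : ℕ) : ℝ) = m * Real.log 2 := by
        push_cast
        rw [Real.log_pow]
      rw [Real.logb, e1, e2]
      field_simp
    push_cast at h h16 ⊢
    nlinarith

/-- **The change of the base of the contracts.** -/
theorem ch46 {η : ℝ} {p' : ℕ} (R : Reg46 E w c₀ Θ δ a ε ((2 ^ m : ℕ) : ℝ)) (hc : 0 < c) (hcδ : 64 * c ≤ δ)
    (H : Chg96 E Θ δ c η m p p' q) (hqm : q ≤ m) :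
    Ch46 E δ c Θ ((2 ^ m : ℕ) : ℝ) (2 ^ p) (2 ^ sg96 E c m p) (2 ^ p') (2 ^ sg96 E c m p') (2 ^ q) := by
  refine { h := bs46 R hc hcδ H.hp H.hps H.hsq hqm H.low H.upp, h' := ?_,
           bb := Nat.pow_le_pow_right two_pos H.hpp, tie := by exact_mod_cast H.tie }
  refine bs46 R hc hcδ (H.hp.trans (by exact_mod_cast H.hpp)) H.hps' ?_ hqm H.low' H.upp'
  have h1 := H.hsq'
  have h2 : 0 ≤ c * (m : ℝ) := by positivity
  have h3 : (sg96 E c m p' : ℝ) ≤ q := by linarith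
  exact_mod_cast h3

end Pool.Agent.W_7d29a1_C0
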