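import Pool.Agent.W_7d29a1_C0.AsmC96
import Pool.Agent.W_7d29a1_C0.GSRow96
import Pool.Agent.W_7d29a1_C0.Num46C
import Pool.Agent.W_7d29a1_C0.Num46B

/-!
STORM C0 (helper96): THE STRIP at the length `2 ^ m`, for a general functional. `StripAt` is the outer tie for the functionals of the rows
`al, .., be` (leaf E5.2 of helper80), `StrN` the same for all blocks `[i 2 ^ q, (i + 1) 2 ^ q)` with the margins `gl96`, at the price
`N ^ ε₁ / E (2 ^ q)`. `strip96`: the form averaged over the environment, the signs and the ends. `kick96`, `in96`: the kicked rows of a block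
are at the distance `8 gl96` from its ends.
-/

set_option autoImplicit false

namespace Pool.Agent.W_7d29a1_C0.Asm96

open Finset MeasureTheory Filter Topology Pool.Agent.W_7d29a1_F Pool.Agent.W_7d29a1_X Pool.Agent.W_7d29a1_H
open Pool.Agent.W_7d29a1_C0.Mod92 Pool.Agent.W_7d29a1_C0
open Pool.W7d29a1.C0 (gz gm lse gz_pos gz_ne gm_nonneg gm_mono gm_const)
open Pool.W7d29a1.C0.VT31
open Pool.Agent.W_7d29a1_C0.Swap57 (Lk)
open Pool.Agent.W_7d29a1_C0.Row96 (Ag In96)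

noncomputable section

/-- **The outer tie**, at fixed ends and signs: the functionals of the rows `al, .., be` seen from outside of `[c, d)`. -/
def StripAt (μ : Measure ℝ) (s : ℝ) (N y c al be d : ℕ) (K e : ℝ) : Prop :=
  ∀ (M : ℝ) (D : Env → Px (Pn N y) → ℝ), (∀ S, Measurable fun η => D η S) → (∀ η S, |D η S| ≤ M) → (∀ η, Lk al be (D η)) →
    (∀ η η', Ag al be η η' → D η = D η') →
    ∫ η, gv (lw μ s η N (Pn N y)) (cE (lw μ s η N (Pn N y)) (pJ c d) (D η)) ∂(law μ) ≤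
      K * ∫ η, gm (lw μ s η N (Pn N y)) (fun S => D η S ^ 2) ∂(law μ) + M ^ 2 * e

/-- From the signs one by one to the mean over the signs. -/
theorem int_Pm_le96 {μ : Measure ℝ} [IsProbabilityMeasure μ] {N : ℕ} {X Y : Env × Finset ℕ → ℝ} (hX : Measurable X)
    (hY : Measurable Y) {CX CY : ℝ} (hXb : ∀ ω, |X ω| ≤ CX) (hYb : ∀ ω, |Y ω| ≤ CY) {K e : ℝ}
    (h : ∀ A, ∫ η, X (η, A) ∂(law μ) ≤ K * ∫ η, Y (η, A) ∂(law μ) + e) :
    ∫ ω, X ω ∂(Pm μ N) ≤ K * ∫ ω, Y ω ∂(Pm μ N) + e := by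
  have hi : ∀ {X : Env × Finset ℕ → ℝ} {C : ℝ}, Measurable X → (∀ ω, |X ω| ≤ C) → ∀ A, Integrable (fun η => X (η, A)) (law μ) :=
    fun {X C} hX hb A => (integrable_const C).mono' (hX.comp (meas_pair A)).aestronglyMeasurable
      (Filter.Eventually.of_forall fun η => by
        rw [Real.norm_eq_abs]
        exact hb (η, A))
  rw [int_Pm (fun A _ => hi hX hXb A) fun A => hX.comp (meas_pair A), int_Pm (fun A _ => hi hY hYb A) fun A => hY.comp (meas_pair A)]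
  have h1 : ∑ A ∈ (range N).powerset, ∫ η, X (η, A) ∂(law μ) ≤
      ∑ A ∈ (range N).powerset, (K * ∫ η, Y (η, A) ∂(law μ) + e) := sum_le_sum fun A _ => h A
  rw [sum_add_distrib, ← mul_sum, sum_const, card_powerset, card_range, nsmul_eq_mul] at h1
  have h2 : (0 : ℝ) < 2 ^ N := by positivity
  have h3 := mul_le_mul_of_nonneg_left h1 (inv_nonneg.2 h2.le)
  refine h3.trans (le_of_eq ?_)
  push_cast
  field_simp

theorem abs_gm96 {X : Type*} [Fintype X] [Nonempty X] (w : X → ℝ) {f : X → ℝ} {M : ℝ} (hf : ∀ x, |f x| ≤ M) : |gm w f| ≤ M := by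
  have h1 := gm_mono w fun x => (abs_le.1 (hf x)).2
  have h2 := gm_mono w fun x => (abs_le.1 (hf x)).1
  rw [gm_const] at h1 h2
  exact abs_le.2 ⟨h2, h1⟩

theorem avy_le96 {ys : Finset ℕ} {X Y : ℕ → ℝ} {K e : ℝ} (he : 0 ≤ e) (h : ∀ y ∈ ys, X y ≤ K * Y y + e) :
    avy ys X ≤ K * avy ys Y + e := by
  unfold avy
  have h1 := sum_le_sum h
  rw [sum_add_distrib, ← mul_sum, sum_const, nsmul_eq_mul] at h1
  have h2 := mul_le_mul_of_nonneg_left h1 (inv_nonneg.2 (Nat.cast_nonneg (α := ℝ) ys.card))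
  have h3 : (ys.card : ℝ)⁻¹ * (ys.card : ℝ) ≤ 1 := inv_mul_le_one
  have h4 := mul_le_mul_of_nonneg_right h3 he
  calc _ ≤ _ := h2
    _ = K * ((ys.card : ℝ)⁻¹ * ∑ i ∈ ys, Y i) + (ys.card : ℝ)⁻¹ * (ys.card : ℝ) * e := by ring
    _ ≤ _ := by linarith

/-- The margin in a block of length `2 ^ q`. -/
def gl96 (ι : ℝ) (m q : ℕ) : ℕ := ⌊((2 ^ m : ℕ) : ℝ) ^ (-ι) * 2 ^ q / 8⌋₊

/-- **The strip at the length `2 ^ m`**: all blocks, margins `gl96`. -/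
def StrN (μ : Measure ℝ) (s : ℝ) (F : Frm96) (E : ℕ → ℝ) (δ ι ε₁ : ℝ) (m : ℕ) : Prop :=
  ∀ q i : ℕ, δ * m ≤ q → q ≤ m → i < 2 ^ (m - q) → ∀ y ∈ F.ys m, ∀ al be : ℕ, i * 2 ^ q + gl96 ι m q ≤ al → al ≤ be →
    be + gl96 ι m q ≤ (i + 1) * 2 ^ q →
      StripAt μ s (F.L m) y (i * 2 ^ q) al be ((i + 1) * 2 ^ q) (((2 ^ m : ℕ) : ℝ) ^ ε₁ / E (2 ^ q)) (((2 ^ m : ℕ) : ℝ) ^ (-8 : ℝ))

variable {μ : Measure ℝ} {s : ℝ} {F : Frm96} {E : ℕ → ℝ} {Θ δ c η ε₁ ι : ℝ} {m p p' q i : ℕ}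

/-- **THE STRIP FOR A GENERAL FUNCTIONAL** of the rows `al, .., be` of a block, averaged over the environment, the signs and the ends. -/
theorem strip96 [IsProbabilityMeasure μ] (hF : F.Ok Θ m) (hS : StrN μ s F E δ ι ε₁ m) (hδq : δ * m ≤ q) (hqm : q ≤ m)
    (hi : i < 2 ^ (m - q)) {al be : ℕ} (hal : i * 2 ^ q + gl96 ι m q ≤ al) (hab : al ≤ be) (hbe : be + gl96 ι m q ≤ (i + 1) * 2 ^ q)
    (D : (y : ℕ) → Env × Finset ℕ → Px (Pn (F.L m) y) → ℝ) (hDm : ∀ y S, Measurable fun ω => D y ω S) {M : ℝ} (hM : 0 ≤ M)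
    (hM4 : M ≤ ((2 ^ m : ℕ) : ℝ) ^ 4) (hDb : ∀ y ∈ F.ys m, ∀ ω S, |D y ω S| ≤ M) (hDL : ∀ y ∈ F.ys m, ∀ ω, Lk al be (D y ω))
    (hDr : ∀ y ∈ F.ys m, ∀ (η η' : Env) (A : Finset ℕ), Ag al be η η' → D y (η, A) = D y (η', A)) :
    avy (F.ys m) (fun y => ∫ ω, gv (wm μ s (F.L m) (Pn (F.L m) y) ω)
      (cE (wm μ s (F.L m) (Pn (F.L m) y) ω) (pJ (i * 2 ^ q) ((i + 1) * 2 ^ q)) (D y ω)) ∂(Pm μ (F.L m))) ≤
      ((2 ^ m : ℕ) : ℝ) ^ ε₁ / E (2 ^ q) * avy (F.ys m) (fun y => ∫ ω, gm (wm μ s (F.L m) (Pn (F.L m) y) ω)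
        (fun S => D y ω S ^ 2) ∂(Pm μ (F.L m))) + 1 := by
  have hN0 : (0 : ℝ) < ((2 ^ m : ℕ) : ℝ) := by positivity
  refine avy_le96 zero_le_one fun y hy => ?_
  have := ne_Pn (hF.hy y hy)
  refine int_Pm_le96 (CX := M ^ 2) (CY := M ^ 2) ?_ ?_ ?_ ?_ fun A => ?_
  · exact meas_gv meas_wm fun S => meas_cE meas_wm (fun S => hDm y S) _ S
  · exact meas_gm meas_wm fun S => (hDm y S).pow_const 2
  · exact fun ω => abs_gv_le _ fun S => abs_cE_le _ _ (hDb y hy ω) S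
  · intro ω
    refine abs_gm96 _ fun S => ?_
    rw [abs_pow]
    exact pow_le_pow_left₀ (abs_nonneg _) (hDb y hy ω S) 2
  · have h1 := hS q i hδq hqm hi y hy al be hal hab hbe M (fun η => D y (η, A)) (fun S => (hDm y S).comp (meas_pair A))
      (fun η S => hDb y hy (η, A) S) (fun η => hDL y hy (η, A)) (fun η η' h => hDr y hy η η' A h)
    refine h1.trans (add_le_add le_rfl ?_)
    have h2 : M ^ 2 ≤ ((2 ^ m : ℕ) : ℝ) ^ 8 := by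
      calc M ^ 2 ≤ (((2 ^ m : ℕ) : ℝ) ^ 4) ^ 2 := pow_le_pow_left₀ hM hM4 2
        _ = _ := by ring
    calc M ^ 2 * ((2 ^ m : ℕ) : ℝ) ^ (-8 : ℝ) ≤ ((2 ^ m : ℕ) : ℝ) ^ 8 * ((2 ^ m : ℕ) : ℝ) ^ (-8 : ℝ) :=
          mul_le_mul_of_nonneg_right h2 (Real.rpow_nonneg hN0.le _)
      _ = 1 := by
          rw [← Real.rpow_natCast (((2 ^ m : ℕ) : ℝ)) 8, ← Real.rpow_add hN0]
          norm_num

/-- **The kicked rows of a block are at the distance `8 gl96` from its ends.** -/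
theorem kick96 {R : Finset ℕ} (hR : R ⊆ Kr (2 ^ m) m (((2 ^ m : ℕ) : ℝ) ^ (-ι))) (hq : q ≤ m) {j : ℕ}
    (hj : j ∈ Rw R (i * 2 ^ q) ((i + 1) * 2 ^ q)) : i * 2 ^ q + 8 * gl96 ι m q ≤ j + 1 ∧ j + 8 * gl96 ι m q ≤ (i + 1) * 2 ^ q := by
  unfold Rw at hj
  rw [Finset.mem_inter, Finset.mem_Ico] at hj
  have h1 := hR hj.1
  unfold Kr at h1
  simp only [Finset.mem_filter] at h1
  obtain ⟨h2', h2⟩ := h1.2 q hq
  have h0 : (gl96 ι m q : ℝ) ≤ ((2 ^ m : ℕ) : ℝ) ^ (-ι) * 2 ^ q / 8 := Nat.floor_le (by positivity)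
  have h3 : 8 * (gl96 ι m q : ℝ) ≤ ((2 ^ q - j % 2 ^ q : ℕ) : ℝ) := by linarith
  have h3' : 8 * (gl96 ι m q : ℝ) ≤ ((j % 2 ^ q : ℕ) : ℝ) + 1 := by linarith
  have h4 : 8 * gl96 ι m q ≤ 2 ^ q - j % 2 ^ q := by exact_mod_cast h3
  have h4' : 8 * gl96 ι m q ≤ j % 2 ^ q + 1 := by exact_mod_cast h3'
  have h5 := Nat.div_add_mod j (2 ^ q)
  have h6 : j % 2 ^ q < 2 ^ q := Nat.mod_lt _ (by positivity)
  have h7 : j / 2 ^ q ≤ i := by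
    rw [← Nat.lt_succ_iff, Nat.div_lt_iff_lt_mul (by positivity)]
    exact hj.2.2
  have h7' : i ≤ j / 2 ^ q := by
    rw [Nat.le_div_iff_mul_le (by positivity)]
    exact hj.2.1
  have h10 : j / 2 ^ q = i := le_antisymm h7 h7'
  rw [h10] at h5
  have h8 : 2 ^ q * i = i * 2 ^ q := Nat.mul_comm _ _
  have h9 : (i + 1) * 2 ^ q = i * 2 ^ q + 2 ^ q := by ring
  omega

/-- The blocks of the grid of length `σ'` of the kicked rows are inside of the margins. -/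
theorem in96 {R : Finset ℕ} (hR : R ⊆ Kr (2 ^ m) m (((2 ^ m : ℕ) : ℝ) ^ (-ι))) (hq : q ≤ m) {σ' : ℕ} (hσ : 0 < σ')
    (hl : σ' ≤ gl96 ι m q) : In96 R σ' (i * 2 ^ q) ((i + 1) * 2 ^ q) (i * 2 ^ q + gl96 ι m q) ((i + 1) * 2 ^ q - gl96 ι m q) := by
  intro j hj
  obtain ⟨h1, h2⟩ := kick96 hR hq hj
  have h3 := Nat.div_mul_le_self j σ'
  have h4 := Nat.lt_div_mul_add (a := j) hσ
  omega

/-- Eight margins fit into a block. -/
theorem gl_le96 (hN : (1 : ℝ) ≤ ((2 ^ m : ℕ) : ℝ)) (hι : 0 ≤ ι) : 8 * gl96 ι m q ≤ 2 ^ q := by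
  have h1 : ((2 ^ m : ℕ) : ℝ) ^ (-ι) ≤ 1 := Real.rpow_le_one_of_one_le_of_nonpos hN (by linarith)
  have h2 : (0 : ℝ) < 2 ^ q := by positivity
  have h3 : (gl96 ι m q : ℝ) ≤ ((2 ^ m : ℕ) : ℝ) ^ (-ι) * 2 ^ q / 8 := Nat.floor_le (by positivity)
  have h4 : ((8 * gl96 ι m q : ℕ) : ℝ) ≤ ((2 ^ q : ℕ) : ℝ) := by
    push_cast at h1 h3 ⊢
    nlinarith
  exact_mod_cast h4

/-- The numbers of the margin. -/
theorem gl_num96 {w : ℕ → ℝ} {c₀ a ε : ℝ} (R : Reg46 E w c₀ Θ δ a ε ((2 ^ m : ℕ) : ℝ)) (hι : 0 < ι) (hιc : ι ≤ c / 4)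
    (hC : Chg96 E Θ δ c η m p p' q) (hN : 32 ≤ ((2 ^ m : ℕ) : ℝ) ^ ι) :
    2 ^ sg96 E c m p' ≤ gl96 ι m q ∧ ((2 ^ q : ℕ) : ℝ) ≤ ((2 ^ m : ℕ) : ℝ) ^ (2 * ι) * gl96 ι m q := by
  have hN1 := R.N1
  have hN0 := R.N0
  obtain ⟨n, hn⟩ : ∃ n : ℝ, n = ((2 ^ m : ℕ) : ℝ) := ⟨_, rfl⟩
  rw [← hn] at hN1 hN0 hN ⊢
  have hc0 : 0 < c := by linarith
  -- the scale `σ p'` is well below the block
  have e1 : n ^ c * 2 ^ sg96 E c m p' ≤ (2 : ℝ) ^ q := by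
    rw [hn, pow_two96, ← Real.rpow_natCast 2 (sg96 E c m p'), ← Real.rpow_add two_pos, ← Real.rpow_natCast 2 q]
    exact Real.rpow_le_rpow_of_exponent_le one_le_two (by linarith [hC.hsq'])
  have e2 : (1 : ℝ) ≤ 2 ^ sg96 E c m p' := one_le_pow₀ one_le_two
  have e3 := Nat.sub_one_lt_floor (n ^ (-ι) * 2 ^ q / 8)
  have e4 : (gl96 ι m q : ℝ) = (⌊n ^ (-ι) * 2 ^ q / 8⌋₊ : ℝ) := by
    unfold gl96
    rw [← hn]
  rw [← e4] at e3
  -- `n ^ (3 ι) 2 ^ σ ≤ n ^ (- ι) 2 ^ q`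
  have e5 : n ^ (3 * ι) * 2 ^ sg96 E c m p' ≤ n ^ (-ι) * 2 ^ q := by
    have e6 : n ^ (3 * ι) ≤ n ^ (-ι) * n ^ c := by
      rw [← Real.rpow_add hN0]
      exact Real.rpow_le_rpow_of_exponent_le hN1.le (by linarith)
    calc n ^ (3 * ι) * 2 ^ sg96 E c m p' ≤ (n ^ (-ι) * n ^ c) * 2 ^ sg96 E c m p' := mul_le_mul_of_nonneg_right e6 (by positivity)
      _ = n ^ (-ι) * (n ^ c * 2 ^ sg96 E c m p') := by ring
      _ ≤ n ^ (-ι) * 2 ^ q := mul_le_mul_of_nonneg_left e1 (Real.rpow_nonneg hN0.le _)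
  have e7 : 32 ≤ n ^ (3 * ι) := hN.trans (Real.rpow_le_rpow_of_exponent_le hN1.le (by linarith))
  have e8 : 32 * 2 ^ sg96 E c m p' ≤ n ^ (-ι) * 2 ^ q :=
    (mul_le_mul_of_nonneg_right e7 (by positivity)).trans e5
  constructor
  · have e9 : ((2 ^ sg96 E c m p' : ℕ) : ℝ) ≤ gl96 ι m q := by
      push_cast
      linarith
    exact_mod_cast e9
  · have e9 : n ^ (-ι) * 2 ^ q / 16 ≤ gl96 ι m q := by linarith
    have e10 : n ^ (2 * ι) * (n ^ (-ι) * 2 ^ q / 16) ≤ n ^ (2 * ι) * gl96 ι m q :=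
      mul_le_mul_of_nonneg_left e9 (Real.rpow_nonneg hN0.le _)
    have e11 : n ^ (2 * ι) * (n ^ (-ι) * 2 ^ q / 16) = n ^ ι * 2 ^ q / 16 := by
      have e12 : n ^ (2 * ι) * n ^ (-ι) = n ^ ι := by
        rw [← Real.rpow_add hN0]
        ring_nf
      rw [← e12]
      ring
    have e13 : (32 : ℝ) * 2 ^ q ≤ n ^ ι * 2 ^ q := mul_le_mul_of_nonneg_right hN (by positivity)
    have e14 : (0 : ℝ) < 2 ^ q := by positivity
    push_cast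
    linarith

end

end Pool.Agent.W_7d29a1_C0.Asm96
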