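import Pool.Agent.W_7d29a1_C0.BasTop33
import Pool.Agent.W_7d29a1_C0.BasRow33
import Pool.Agent.W_7d29a1_C0.Base5C
import Pool.Agent.W_7d29a1_C0.Strip96
import Pool.Agent.W_7d29a1_C0.Cr59

/-!
MP_7d29a1_pr, [CURV0] (helper33): THE LITERAL TARGETS OF E5. `stb_of33`: the strip `StrN` of helper96 gives `StB`. `N1B`, `N2B`, `MB`, `RB`:
the second moments of the four sums over the rows of `Base5C` (exact responses), `ClB`: the clipping error of the responses; together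
`DxB` (`dxb_of33`). `bas33`: everything together in the order of `Par92`.
-/

set_option autoImplicit false

namespace Pool.Agent.W_7d29a1_C0.Asm96

open Finset MeasureTheory Filter Topology Pool.Agent.W_7d29a1_F Pool.Agent.W_7d29a1_X Pool.Agent.W_7d29a1_H
open Pool.Agent.W_7d29a1_C0.Mod92 Pool.Agent.W_7d29a1_C0
open Pool.W7d29a1.C0 (gz gm lse gz_pos gz_ne gm_nonneg gm_mono gm_const)
open Pool.W7d29a1.C0.VT31
open Pool.Agent.W_7d29a1_C0.Par92 (Est Sml)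
open Pool.Agent.W_7d29a1_C0.Base5 (D5 K5 N5e N25e M5e R5e cl5)
open Pool.Agent.W_7d29a1_C0.Row96 (Ag In96)

noncomputable section

variable (μ : Measure ℝ) (s : ℝ) (F : Frm96) (E : ℕ → ℝ) (Θ δ c η ε₁ : ℝ)

/-- **The second moment of a sum over the kicked rows of the block** number `i` of length `2 ^ q`. -/
def S33 (m q i : ℕ) (I : (y : ℕ) → Env × Finset ℕ → ℕ → Px (Pn (F.L m) y) → ℝ) : ℝ :=
  avy (F.ys m) fun y => ∫ ω, gm (wm μ s (F.L m) (Pn (F.L m) y) ω)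
    (fun S => (∑ j ∈ Rw (F.R m) (i * 2 ^ q) ((i + 1) * 2 ^ q), I y ω j S) ^ 2) ∂(Pm μ (F.L m))

/-- The bound of the second moments. -/
def A33 (m q : ℕ) : ℝ := 2 ^ q * (E (2 ^ q) * ((2 ^ m : ℕ) : ℝ) ^ (Θ - c / 32))

/-- **The third order part** (E5.8). -/
def N1B (m : ℕ) : Prop := ∀ p p' q i : ℕ, Chg96 E Θ δ c η m p p' q → i < 2 ^ (m - q) →
  S33 μ s F m q i (fun y ω j => N5e μ s (F.L m) (Pn (F.L m) y) F.dl (F.B m) (F.b0 m p) (2 ^ p) (2 ^ p') ω j) ≤ A33 E Θ c m q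

/-- **The double ties** (E5.4). -/
def N2B (m : ℕ) : Prop := ∀ p p' q i : ℕ, Chg96 E Θ δ c η m p p' q → i < 2 ^ (m - q) →
  S33 μ s F m q i (fun y ω j => N25e μ s (F.L m) (Pn (F.L m) y) F.dl (F.B m) (F.b0 m p) (2 ^ p) (2 ^ p') ω j) ≤ A33 E Θ c m q

/-- **The odd part** (E5.7). -/
def MB (m : ℕ) : Prop := ∀ p p' q i : ℕ, Chg96 E Θ δ c η m p p' q → i < 2 ^ (m - q) →
  S33 μ s F m q i (fun y ω j S => sr ω.2 j *
    M5e μ s (F.L m) (Pn (F.L m) y) F.dl (F.B m) (F.b0 m p) (2 ^ p) (2 ^ p') ω j S) ≤ A33 E Θ c m q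

/-- **The second part** (E5.6). -/
def RB (m : ℕ) : Prop := ∀ p p' q i : ℕ, Chg96 E Θ δ c η m p p' q → i < 2 ^ (m - q) →
  S33 μ s F m q i (fun y ω j S => sr ω.2 j / 3 *
    R5e μ s (F.L m) (Pn (F.L m) y) F.dl (F.B m) (F.b0 m p) (2 ^ p) (2 ^ p') (2 ^ sg96 E c m p') ω j S) ≤ A33 E Θ c m q

/-- **The clipping error of the responses**: base windows `2 ^ p₁` with the finer window `b0 m p`, `p ≤ p₁`. -/
def ClB (m : ℕ) : Prop := ∀ p p₁ : ℕ, δ * m ≤ p → p ≤ p₁ → p₁ ≤ m → ∀ j : ℕ, 2 ^ p₁ ≤ j → j + 2 ^ p₁ ≤ 2 ^ m →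
  avy (F.ys m) (fun y => ∫ ω, cl5 μ s (F.L m) (Pn (F.L m) y) F.dl (F.B m) (F.b0 m p) (2 ^ p₁) ω j ∂(Pm μ (F.L m))) ≤
    ((2 ^ m : ℕ) : ℝ) ^ (-4 : ℝ)

variable {μ s F E Θ δ c η ε₁} {m p p' q i : ℕ}

theorem card_Rw33 (hF : F.Ok Θ m) (c' d : ℕ) : ((Rw (F.R m) c' d).card : ℝ) ≤ ((2 ^ m : ℕ) : ℝ) := by
  have h2 : (Rw (F.R m) c' d).card ≤ 2 ^ m := by
    have h3 := card_le_card ((inter_subset_left : Rw (F.R m) c' d ⊆ F.R m).trans hF.hR)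
    rwa [card_range] at h3
  exact_mod_cast h2

theorem K5_le33 (hF : F.Ok Θ m) (hΘ : Θ ≤ 1) : K5 (F.B m) ≤ 128 * ((2 ^ m : ℕ) : ℝ) ^ (3 / 16 : ℝ) := by
  have hN1 : (1 : ℝ) ≤ ((2 ^ m : ℕ) : ℝ) := by exact_mod_cast Nat.one_le_two_pow
  have hN0 : (0 : ℝ) < ((2 ^ m : ℕ) : ℝ) := by linarith
  have hB1 := hF.hB
  have h1 : F.B m ≤ ((2 ^ m : ℕ) : ℝ) ^ (1 / 16 : ℝ) :=
    hF.hB'.trans (Real.rpow_le_rpow_of_exponent_le hN1 (by linarith))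
  have h2 : F.B m ^ 3 ≤ ((2 ^ m : ℕ) : ℝ) ^ (3 / 16 : ℝ) := by
    calc F.B m ^ 3 ≤ (((2 ^ m : ℕ) : ℝ) ^ (1 / 16 : ℝ)) ^ 3 := pow_le_pow_left₀ (by linarith) h1 3
      _ = ((2 ^ m : ℕ) : ℝ) ^ (3 / 16 : ℝ) := by
          rw [← Real.rpow_natCast, ← Real.rpow_mul hN0.le]
          norm_num
  have h3 : (1 + F.B m) ^ 3 ≤ (2 * F.B m) ^ 3 := pow_le_pow_left₀ (by linarith) (by linarith) 3
  unfold K5
  calc 16 * (1 + F.B m) ^ 3 ≤ 16 * (2 * F.B m) ^ 3 := by linarith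
    _ = 128 * F.B m ^ 3 := by ring
    _ ≤ _ := by linarith

/-- **THE STRIP OF E5 at a fixed length.** -/
theorem stb_of33 [IsProbabilityMeasure μ] {w : ℕ → ℝ} {c₀ a ε ι : ℝ} (R : Reg46 E w c₀ Θ δ a ε ((2 ^ m : ℕ) : ℝ)) (hΘ1 : Θ ≤ 1)
    (hη : 0 ≤ η) (hc : 0 < c) (hι : 0 < ι) (hιc : ι ≤ c / 4) (hN : 32 ≤ ((2 ^ m : ℕ) : ℝ) ^ ι) (hN2 : 256 ≤ ((2 ^ m : ℕ) : ℝ))
    (hF : F.Ok Θ m) (hD : DeepB F E δ c m) (hR : F.R m ⊆ Kr (2 ^ m) m (((2 ^ m : ℕ) : ℝ) ^ (-ι)))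
    (hS : StrN μ s F E δ ι ε₁ m) : StB μ s F E Θ δ c η ε₁ m := by
  intro p p' q i hC hi
  obtain ⟨hsq', hqm⟩ := chg_le33 hC hc.le hη
  have hN1 := R.N1
  have hN0 := R.N0
  obtain ⟨g1, -⟩ := gl_num96 R hι hιc hC hN
  have hδq : δ * m ≤ q := hC.hp.trans (by exact_mod_cast hC.hps.trans hC.hsq)
  have hDp : Deep (F.R m) (2 ^ p') (2 ^ sg96 E c m p') := hD p' (hC.hp.trans (by exact_mod_cast hC.hpp)) (hsq'.trans hqm)
  obtain ⟨al, hal⟩ : ∃ al, al = i * 2 ^ q + gl96 ι m q := ⟨_, rfl⟩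
  obtain ⟨be, hbe⟩ : ∃ be, be = (i + 1) * 2 ^ q - gl96 ι m q := ⟨_, rfl⟩
  have hI : In96 (F.R m) (2 ^ sg96 E c m p') (i * 2 ^ q) ((i + 1) * 2 ^ q) al be := hal ▸ hbe ▸ in96 hR hqm (by positivity) g1
  have hB0 : 0 ≤ F.B m := zero_le_one.trans hF.hB
  have hbb : 2 ^ p ≤ 2 ^ p' := Nat.pow_le_pow_right two_pos hC.hpp
  -- the size of the change of base
  obtain ⟨M, hM⟩ : ∃ M : ℝ, M = ((Rw (F.R m) (i * 2 ^ q) ((i + 1) * 2 ^ q)).card : ℝ) * (2 * K5 (F.B m)) := ⟨_, rfl⟩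
  have hK0 := Base5.K5_nonneg hB0
  have hM0 : 0 ≤ M := by
    rw [hM]
    positivity
  have hM4 : M ≤ ((2 ^ m : ℕ) : ℝ) ^ 4 := by
    have h1 := card_Rw33 hF (i * 2 ^ q) ((i + 1) * 2 ^ q)
    have h2 := K5_le33 hF hΘ1
    have h3 : ((2 ^ m : ℕ) : ℝ) ^ (3 / 16 : ℝ) ≤ ((2 ^ m : ℕ) : ℝ) := by
      calc ((2 ^ m : ℕ) : ℝ) ^ (3 / 16 : ℝ) ≤ ((2 ^ m : ℕ) : ℝ) ^ (1 : ℝ) := Real.rpow_le_rpow_of_exponent_le hN1.le (by norm_num)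
        _ = _ := Real.rpow_one _
    have h4 : 2 * K5 (F.B m) ≤ ((2 ^ m : ℕ) : ℝ) * ((2 ^ m : ℕ) : ℝ) := by
      calc 2 * K5 (F.B m) ≤ 256 * ((2 ^ m : ℕ) : ℝ) := by linarith
        _ ≤ _ := mul_le_mul_of_nonneg_right hN2 hN0.le
    rw [hM]
    calc _ ≤ ((2 ^ m : ℕ) : ℝ) * (((2 ^ m : ℕ) : ℝ) * ((2 ^ m : ℕ) : ℝ)) := mul_le_mul h1 h4 (by positivity) hN0.le
      _ = ((2 ^ m : ℕ) : ℝ) ^ 3 := by ring
      _ ≤ _ := pow_le_pow_right₀ hN1.le (by norm_num)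
  have g4 := gl_le96 hN1.le hι.le (q := q)
  have g5 : (i + 1) * 2 ^ q = i * 2 ^ q + 2 ^ q := by ring
  exact strip96 hF hS hδq hqm hi (al := al) (be := be) (by omega) (by omega) (by omega)
    (fun y ω => D33 μ s F E c m p p' q i y ω)
    (fun y S => Base5.meas_D5 F.dl (F.B m) (2 ^ p) (2 ^ p') (2 ^ sg96 E c m p') (F.R m) (i * 2 ^ q) ((i + 1) * 2 ^ q) S) hM0 hM4
    (fun y hy ω S => by
      have := ne_Pn (hF.hy y hy)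
      rw [hM]
      exact Base5.abs_D5 hB0 (2 ^ p) (2 ^ p') (2 ^ sg96 E c m p') (F.R m) (i * 2 ^ q) ((i + 1) * 2 ^ q) ω S)
    (fun y hy ω => by
      have := ne_Pn (hF.hy y hy)
      exact BasRow33.D5_Lk F.dl (F.B m) hbb hDp hI ω)
    (fun y hy η η' A h => by
      have := ne_Pn (hF.hy y hy)
      exact BasRow33.D5_rows F.dl (F.B m) hbb hDp hI A h)

/-- Squares of bounded functionals are integrable. -/
theorem int_sq33 [IsProbabilityMeasure μ] {N y : ℕ} [Nonempty (Px (Pn N y))] {I : Env × Finset ℕ → Px (Pn N y) → ℝ}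
    (hm : ∀ S, Measurable fun ω => I ω S) {M : ℝ} (hM : ∀ ω S, |I ω S| ≤ M) :
    Integrable (fun ω => gm (wm μ s N (Pn N y) ω) (fun S => I ω S ^ 2)) (Pm μ N) :=
  int_bdd (meas_gm meas_wm fun S => (hm S).pow_const 2) (M := M ^ 2) fun ω => abs_gm96 _ fun S => by
    rw [abs_pow]
    exact pow_le_pow_left₀ (abs_nonneg _) (hM ω S) 2

theorem abs_sum33 {X : Type*} {T : Finset ℕ} {f : ℕ → X → ℝ} {K : ℝ} (h : ∀ j x, |f j x| ≤ K) (x : X) :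
    |∑ j ∈ T, f j x| ≤ T.card * K := by
  refine (abs_sum_le_sum_abs _ _).trans ((sum_le_sum fun j _ => h j x).trans (by rw [sum_const, nsmul_eq_mul]))

/-- The integral of a linear combination. -/
theorem lin33 {Ω : Type*} [MeasurableSpace Ω] {P : Measure Ω} {f f1 f2 f3 f4 g : Ω → ℝ} (i0 : Integrable f P) (i1 : Integrable f1 P)
    (i2 : Integrable f2 P) (i3 : Integrable f3 P) (i4 : Integrable f4 P) (ig : Integrable g P) {A B : ℝ}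
    (h : ∀ ω, f ω ≤ A * (f1 ω + f2 ω + f3 ω + f4 ω) + B * g ω) :
    ∫ ω, f ω ∂P ≤ A * (∫ ω, f1 ω ∂P + ∫ ω, f2 ω ∂P + ∫ ω, f3 ω ∂P + ∫ ω, f4 ω ∂P) + B * ∫ ω, g ω ∂P := by
  have j2 : Integrable (fun ω => f1 ω + f2 ω) P := i1.add i2
  have j3 : Integrable (fun ω => f1 ω + f2 ω + f3 ω) P := j2.add i3
  have j4 : Integrable (fun ω => f1 ω + f2 ω + f3 ω + f4 ω) P := j3.add i4
  have j5 : Integrable (fun ω => A * (f1 ω + f2 ω + f3 ω + f4 ω)) P := j4.const_mul A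
  have j6 : Integrable (fun ω => B * g ω) P := ig.const_mul B
  have h1 := integral_mono i0 (g := fun ω => A * (f1 ω + f2 ω + f3 ω + f4 ω) + B * g ω) (j5.add j6) h
  rwa [integral_add j5 j6, integral_const_mul, integral_const_mul, integral_add j3 i4, integral_add j2 i3, integral_add i1 i2] at h1

theorem sum33 {Ω : Type*} [MeasurableSpace Ω] {P : Measure Ω} {f g : ℕ → Ω → ℝ} (hf : ∀ j, Integrable (f j) P)
    (hg : ∀ j, Integrable (g j) P) (T : Finset ℕ) :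
    ∫ ω, ∑ j ∈ T, (f j ω + g j ω) ∂P = ∑ j ∈ T, (∫ ω, f j ω ∂P + ∫ ω, g j ω ∂P) := by
  have h : ∀ j ∈ T, Integrable (fun ω => f j ω + g j ω) P := fun j _ => (hf j).add (hg j)
  rw [integral_finsetSum T h]
  exact sum_congr rfl fun j _ => integral_add (hf j) (hg j)

/-- **The second moment of the change of base** from the four sums and the clipping errors. -/
theorem dx_le33 [IsProbabilityMeasure μ] (hF : F.Ok Θ m) (hpp : p ≤ p') {e : ℝ}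
    (hcl : ∀ j ∈ Rw (F.R m) (i * 2 ^ q) ((i + 1) * 2 ^ q),
      avy (F.ys m) (fun y => ∫ ω, cl5 μ s (F.L m) (Pn (F.L m) y) F.dl (F.B m) (F.b0 m p) (2 ^ p) ω j ∂(Pm μ (F.L m))) ≤ e ∧
      avy (F.ys m) (fun y => ∫ ω, cl5 μ s (F.L m) (Pn (F.L m) y) F.dl (F.B m) (F.b0 m p) (2 ^ p') ω j ∂(Pm μ (F.L m))) ≤ e) :
    dx33 μ s F E c m p p' q i ≤
      8 * (S33 μ s F m q i (fun y ω j => N5e μ s (F.L m) (Pn (F.L m) y) F.dl (F.B m) (F.b0 m p) (2 ^ p) (2 ^ p') ω j) +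
        S33 μ s F m q i (fun y ω j => N25e μ s (F.L m) (Pn (F.L m) y) F.dl (F.B m) (F.b0 m p) (2 ^ p) (2 ^ p') ω j) +
        S33 μ s F m q i (fun y ω j S => sr ω.2 j *
          M5e μ s (F.L m) (Pn (F.L m) y) F.dl (F.B m) (F.b0 m p) (2 ^ p) (2 ^ p') ω j S) +
        S33 μ s F m q i (fun y ω j S => sr ω.2 j / 3 *
          R5e μ s (F.L m) (Pn (F.L m) y) F.dl (F.B m) (F.b0 m p) (2 ^ p) (2 ^ p') (2 ^ sg96 E c m p') ω j S)) +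
      32 * (1 + F.B m) * K5 (F.B m) * (Rw (F.R m) (i * 2 ^ q) ((i + 1) * 2 ^ q)).card *
        ((Rw (F.R m) (i * 2 ^ q) ((i + 1) * 2 ^ q)).card * (2 * e)) := by
  have hB0 : 0 ≤ F.B m := zero_le_one.trans hF.hB
  have hbb : 2 ^ p ≤ 2 ^ p' := Nat.pow_le_pow_right two_pos hpp
  have hK0 := Base5.K5_nonneg hB0
  obtain ⟨T, hT⟩ : ∃ T, T = Rw (F.R m) (i * 2 ^ q) ((i + 1) * 2 ^ q) := ⟨_, rfl⟩
  unfold dx33 S33
  rw [← hT] at hcl ⊢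
  have h1 : ∀ y ∈ F.ys m, ∫ ω, gm (wm μ s (F.L m) (Pn (F.L m) y) ω) (fun S => D33 μ s F E c m p p' q i y ω S ^ 2) ∂(Pm μ (F.L m)) ≤
      8 * (∫ ω, gm (wm μ s (F.L m) (Pn (F.L m) y) ω) (fun S => (∑ j ∈ T,
          N5e μ s (F.L m) (Pn (F.L m) y) F.dl (F.B m) (F.b0 m p) (2 ^ p) (2 ^ p') ω j S) ^ 2) ∂(Pm μ (F.L m)) +
        ∫ ω, gm (wm μ s (F.L m) (Pn (F.L m) y) ω) (fun S => (∑ j ∈ T,
          N25e μ s (F.L m) (Pn (F.L m) y) F.dl (F.B m) (F.b0 m p) (2 ^ p) (2 ^ p') ω j S) ^ 2) ∂(Pm μ (F.L m)) +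
        ∫ ω, gm (wm μ s (F.L m) (Pn (F.L m) y) ω) (fun S => (∑ j ∈ T, sr ω.2 j *
          M5e μ s (F.L m) (Pn (F.L m) y) F.dl (F.B m) (F.b0 m p) (2 ^ p) (2 ^ p') ω j S) ^ 2) ∂(Pm μ (F.L m)) +
        ∫ ω, gm (wm μ s (F.L m) (Pn (F.L m) y) ω) (fun S => (∑ j ∈ T, sr ω.2 j / 3 *
          R5e μ s (F.L m) (Pn (F.L m) y) F.dl (F.B m) (F.b0 m p) (2 ^ p) (2 ^ p') (2 ^ sg96 E c m p') ω j S) ^ 2) ∂(Pm μ (F.L m))) +
      32 * (1 + F.B m) * K5 (F.B m) * T.card *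
        ∑ j ∈ T, (∫ ω, cl5 μ s (F.L m) (Pn (F.L m) y) F.dl (F.B m) (F.b0 m p) (2 ^ p) ω j ∂(Pm μ (F.L m)) +
          ∫ ω, cl5 μ s (F.L m) (Pn (F.L m) y) F.dl (F.B m) (F.b0 m p) (2 ^ p') ω j ∂(Pm μ (F.L m))) := by
    intro y hy
    have := ne_Pn (hF.hy y hy)
    have i1 := int_sq33 (μ := μ) (s := s) (N := F.L m) (y := y) (I := fun ω S => ∑ j ∈ T,
        N5e μ s (F.L m) (Pn (F.L m) y) F.dl (F.B m) (F.b0 m p) (2 ^ p) (2 ^ p') ω j S)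
      (fun S => Finset.measurable_fun_sum _ fun j _ => Base5.meas_N5e F.dl (F.B m) (F.b0 m p) hbb j S)
      (M := T.card * K5 (F.B m)) fun ω S => abs_sum33 (fun j S => Base5.abs_N5e hB0 (F.b0 m p) hbb ω j S) S
    have i2 := int_sq33 (μ := μ) (s := s) (N := F.L m) (y := y) (I := fun ω S => ∑ j ∈ T,
        N25e μ s (F.L m) (Pn (F.L m) y) F.dl (F.B m) (F.b0 m p) (2 ^ p) (2 ^ p') ω j S)
      (fun S => Finset.measurable_fun_sum _ fun j _ => Base5.meas_N25e F.dl (F.B m) (F.b0 m p) (2 ^ p) (2 ^ p') j S)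
      (M := T.card * K5 (F.B m)) fun ω S => abs_sum33 (fun j S => Base5.abs_N25e hB0 (F.b0 m p) (2 ^ p) (2 ^ p') ω j S) S
    have q3 : ∀ (ω : Env × Finset ℕ) (j : ℕ) (S : Px (Pn (F.L m) y)), |sr ω.2 j *
        M5e μ s (F.L m) (Pn (F.L m) y) F.dl (F.B m) (F.b0 m p) (2 ^ p) (2 ^ p') ω j S| ≤ K5 (F.B m) := fun ω j S => by
      have h2 := Base5.abs_M5e (μ := μ) (s := s) (N := F.L m) (Q := Pn (F.L m) y) (δ := F.dl) hB0 (F.b0 m p) (2 ^ p) (2 ^ p') ω j S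
      rw [abs_mul, abs_sr, one_mul]
      exact h2
    have q4 : ∀ (ω : Env × Finset ℕ) (j : ℕ) (S : Px (Pn (F.L m) y)), |sr ω.2 j / 3 * R5e μ s (F.L m) (Pn (F.L m) y) F.dl (F.B m)
        (F.b0 m p) (2 ^ p) (2 ^ p') (2 ^ sg96 E c m p') ω j S| ≤ K5 (F.B m) := fun ω j S => by
      have h2 := Base5.abs_R5e (μ := μ) (s := s) (N := F.L m) (Q := Pn (F.L m) y) (δ := F.dl) hB0 (F.b0 m p) (2 ^ p) (2 ^ p')
        (2 ^ sg96 E c m p') ω j S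
      rw [abs_mul, abs_div, abs_sr, abs_of_pos (by norm_num : (0 : ℝ) < 3)]
      linarith [abs_nonneg (R5e μ s (F.L m) (Pn (F.L m) y) F.dl (F.B m) (F.b0 m p) (2 ^ p) (2 ^ p') (2 ^ sg96 E c m p') ω j S)]
    have i3 := int_sq33 (μ := μ) (s := s) (N := F.L m) (y := y) (I := fun ω S => ∑ j ∈ T, sr ω.2 j *
        M5e μ s (F.L m) (Pn (F.L m) y) F.dl (F.B m) (F.b0 m p) (2 ^ p) (2 ^ p') ω j S)
      (fun S => Finset.measurable_fun_sum _ fun j _ => (meas_sr j).mul (Base5.meas_M5e F.dl (F.B m) (F.b0 m p) (2 ^ p) (2 ^ p') j S))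
      (M := T.card * K5 (F.B m)) fun ω S => abs_sum33 (q3 ω) S
    have i4 := int_sq33 (μ := μ) (s := s) (N := F.L m) (y := y) (I := fun ω S => ∑ j ∈ T, sr ω.2 j / 3 *
        R5e μ s (F.L m) (Pn (F.L m) y) F.dl (F.B m) (F.b0 m p) (2 ^ p) (2 ^ p') (2 ^ sg96 E c m p') ω j S)
      (fun S => Finset.measurable_fun_sum _ fun j _ => ((meas_sr j).div_const 3).mul
        (Base5.meas_R5e F.dl (F.B m) (F.b0 m p) (2 ^ p) (2 ^ p') (2 ^ sg96 E c m p') j S))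
      (M := T.card * K5 (F.B m)) fun ω S => abs_sum33 (q4 ω) S
    have ic : ∀ (b j : ℕ), Integrable (fun ω => cl5 μ s (F.L m) (Pn (F.L m) y) F.dl (F.B m) (F.b0 m p) b ω j) (Pm μ (F.L m)) :=
      fun b j => int_bdd (meas_gm meas_wm fun S => ((meas_gg F.dl (F.B m) b j S).sub
        (Base5.meas_ge5 F.dl (F.B m) (F.b0 m p) b j S)).abs) (M := F.B m) fun ω => abs_gm96 _ fun S => by
          rw [abs_abs]
          refine (abs_sub _ _).trans ?_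
          have a1 := abs_gg (μ := μ) (s := s) (δ := F.dl) hB0 b ω j S
          have a2 := Base5.abs_ge5 (μ := μ) (s := s) (N := F.L m) (δ := F.dl) hB0 (F.b0 m p) b ω j S
          linarith
    have i5 : Integrable (fun ω => ∑ j ∈ T, (cl5 μ s (F.L m) (Pn (F.L m) y) F.dl (F.B m) (F.b0 m p) (2 ^ p) ω j +
        cl5 μ s (F.L m) (Pn (F.L m) y) F.dl (F.B m) (F.b0 m p) (2 ^ p') ω j)) (Pm μ (F.L m)) :=
      integrable_finsetSum _ fun j _ => (ic _ j).add (ic _ j)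
    have key := lin33 (A := 8) (B := 32 * (1 + F.B m) * K5 (F.B m) * T.card)
      (int_sq33 (μ := μ) (s := s) (fun S => Base5.meas_D5 F.dl (F.B m) (2 ^ p) (2 ^ p') (2 ^ sg96 E c m p') (F.R m) (i * 2 ^ q)
        ((i + 1) * 2 ^ q) S) fun ω S => Base5.abs_D5 hB0 (2 ^ p) (2 ^ p') (2 ^ sg96 E c m p') (F.R m) (i * 2 ^ q)
          ((i + 1) * 2 ^ q) ω S) i1 i2 i3 i4 i5 fun ω => by
        have h2 := Base5.gm_D5_le (μ := μ) (s := s) (N := F.L m) (Q := Pn (F.L m) y) (δ := F.dl) hB0 (F.b0 m p) hbb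
          (2 ^ sg96 E c m p') (F.R m) (i * 2 ^ q) ((i + 1) * 2 ^ q) ω
        rw [← hT] at h2
        exact h2
    rwa [sum33 (ic (2 ^ p)) (ic (2 ^ p'))] at key
  refine (avy_mono h1).trans ?_
  rw [avy_add, avy_mul, avy_mul, avy_add, avy_add, avy_add, avy_sum]
  refine add_le_add le_rfl (mul_le_mul_of_nonneg_left ?_ (by positivity))
  calc ∑ j ∈ T, avy (F.ys m) (fun y => ∫ ω, cl5 μ s (F.L m) (Pn (F.L m) y) F.dl (F.B m) (F.b0 m p) (2 ^ p) ω j ∂(Pm μ (F.L m)) +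
        ∫ ω, cl5 μ s (F.L m) (Pn (F.L m) y) F.dl (F.B m) (F.b0 m p) (2 ^ p') ω j ∂(Pm μ (F.L m)))
      ≤ ∑ _j ∈ T, 2 * e := sum_le_sum fun j hj => by
        rw [avy_add]
        linarith [(hcl j hj).1, (hcl j hj).2]
    _ = T.card * (2 * e) := by rw [sum_const, nsmul_eq_mul]

/-- **THE SUMS OVER THE ROWS at a fixed length.** -/
theorem dxb_of33 [IsProbabilityMeasure μ] (hΘ1 : Θ ≤ 1) (hη : 0 ≤ η) (hc : 0 < c) (hN2 : 2 ^ 16 ≤ ((2 ^ m : ℕ) : ℝ))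
    (hE : ∀ n, 1 ≤ E n) (hF : F.Ok Θ m) (hD : DeepB F E δ c m) (h1 : N1B μ s F E Θ δ c η m) (h2 : N2B μ s F E Θ δ c η m)
    (h3 : MB μ s F E Θ δ c η m) (h4 : RB μ s F E Θ δ c η m) (h5 : ClB μ s F δ m) : DxB μ s F E Θ δ c η m := by
  intro p p' q i hC hi
  obtain ⟨hsq', hqm⟩ := chg_le33 hC hc.le hη
  have hN1 : (1 : ℝ) ≤ ((2 ^ m : ℕ) : ℝ) := by linarith
  have hN0 : (0 : ℝ) < ((2 ^ m : ℕ) : ℝ) := by linarith
  have hp' : δ * m ≤ p' := hC.hp.trans (by exact_mod_cast hC.hpp)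
  have hDp : Deep (F.R m) (2 ^ p') (2 ^ sg96 E c m p') := hD p' hp' (hsq'.trans hqm)
  have hB1 := hF.hB
  have hrow : ∀ j ∈ Rw (F.R m) (i * 2 ^ q) ((i + 1) * 2 ^ q), 2 ^ p' ≤ j ∧ j + 2 ^ p' ≤ 2 ^ m := fun j hj => by
    have h6 := hDp.in_block (by positivity) (dvd96 hsq' i) (dvd96 hsq' (i + 1)) hj
    have h7 : (i + 1) * 2 ^ q ≤ 2 ^ m := by
      calc (i + 1) * 2 ^ q ≤ 2 ^ (m - q) * 2 ^ q := Nat.mul_le_mul_right _ hi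
        _ = 2 ^ m := by
            rw [← pow_add]
            congr 1
            omega
    omega
  have hbb : 2 ^ p ≤ 2 ^ p' := Nat.pow_le_pow_right two_pos hC.hpp
  have hpm : p' ≤ m := (hC.hps'.trans hsq').trans hqm
  have key := dx_le33 (μ := μ) (s := s) (E := E) (c := c) (q := q) (i := i) hF hC.hpp (e := ((2 ^ m : ℕ) : ℝ) ^ (-4 : ℝ)) fun j hj => by
    obtain ⟨r1, r2⟩ := hrow j hj
    exact ⟨h5 p p hC.hp le_rfl (hC.hpp.trans hpm) j (hbb.trans r1) (by omega), h5 p p' hC.hp hC.hpp hpm j r1 r2⟩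
  have a1 := h1 p p' q i hC hi
  have a2 := h2 p p' q i hC hi
  have a3 := h3 p p' q i hC hi
  have a4 := h4 p p' q i hC hi
  refine key.trans ?_
  have e1 : 32 * (1 + F.B m) * K5 (F.B m) * (Rw (F.R m) (i * 2 ^ q) ((i + 1) * 2 ^ q)).card *
      ((Rw (F.R m) (i * 2 ^ q) ((i + 1) * 2 ^ q)).card * (2 * ((2 ^ m : ℕ) : ℝ) ^ (-4 : ℝ))) ≤ 1 := by
    have b1 := card_Rw33 hF (i * 2 ^ q) ((i + 1) * 2 ^ q)
    have b2 := K5_le33 hF hΘ1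
    have b3 : 1 + F.B m ≤ 2 * ((2 ^ m : ℕ) : ℝ) ^ (1 / 16 : ℝ) := by
      have b4 : F.B m ≤ ((2 ^ m : ℕ) : ℝ) ^ (1 / 16 : ℝ) :=
        hF.hB'.trans (Real.rpow_le_rpow_of_exponent_le hN1 (by linarith))
      have b5 : 1 ≤ ((2 ^ m : ℕ) : ℝ) ^ (1 / 16 : ℝ) := Real.one_le_rpow hN1 (by norm_num)
      linarith
    have hK0 := Base5.K5_nonneg (show (0 : ℝ) ≤ F.B m by linarith)
    have b6 : 32 * (1 + F.B m) * K5 (F.B m) ≤ 8192 * ((2 ^ m : ℕ) : ℝ) ^ (1 / 4 : ℝ) := by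
      calc 32 * (1 + F.B m) * K5 (F.B m) ≤ 32 * (2 * ((2 ^ m : ℕ) : ℝ) ^ (1 / 16 : ℝ)) * (128 * ((2 ^ m : ℕ) : ℝ) ^ (3 / 16 : ℝ)) :=
            mul_le_mul (by linarith) b2 hK0 (by positivity)
        _ = 8192 * (((2 ^ m : ℕ) : ℝ) ^ (1 / 16 : ℝ) * ((2 ^ m : ℕ) : ℝ) ^ (3 / 16 : ℝ)) := by ring
        _ = 8192 * ((2 ^ m : ℕ) : ℝ) ^ (1 / 4 : ℝ) := by
            rw [← Real.rpow_add hN0]
            norm_num
    obtain ⟨n, hn⟩ : ∃ n : ℝ, n = ((2 ^ m : ℕ) : ℝ) := ⟨_, rfl⟩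
    rw [← hn] at b1 b6 hN0 hN1 hN2 ⊢
    have hcd : (0 : ℝ) ≤ (Rw (F.R m) (i * 2 ^ q) ((i + 1) * 2 ^ q)).card := Nat.cast_nonneg _
    have hn4 : 0 ≤ n ^ (-4 : ℝ) := Real.rpow_nonneg hN0.le _
    have hn14 : 0 ≤ n ^ (1 / 4 : ℝ) := Real.rpow_nonneg hN0.le _
    calc _ ≤ 8192 * n ^ (1 / 4 : ℝ) * n * (n * (2 * n ^ (-4 : ℝ))) := by gcongr
      _ = 16384 * (n ^ (1 / 4 : ℝ) * (n ^ 2 * n ^ (-4 : ℝ))) := by ring
      _ ≤ 16384 * n ^ (-1 : ℝ) := by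
          refine mul_le_mul_of_nonneg_left ?_ (by norm_num)
          rw [← Real.rpow_natCast n 2, ← Real.rpow_add hN0, ← Real.rpow_add hN0]
          exact Real.rpow_le_rpow_of_exponent_le hN1 (by norm_num)
      _ ≤ 1 := by
          rw [Real.rpow_neg_one, ← div_eq_mul_inv, div_le_one hN0]
          linarith
  have hA : A33 E Θ c m q = 2 ^ q * (E (2 ^ q) * ((2 ^ m : ℕ) : ℝ) ^ (Θ - c / 32)) := rfl
  have hA0 : 0 ≤ A33 E Θ c m q := by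
    rw [hA]
    have := hE (2 ^ q)
    positivity
  rw [← hA]
  linarith

/-- **THE TOP OF E5**: everything. -/
theorem bas33 [IsProbabilityMeasure μ] {F : ℝ → ℝ → ℝ → Frm96} {c₀ C : ℝ} (hR : RegP46 μ s c₀ Θ) (hΘ1 : Θ ≤ 1) (hδ : 0 < δ) (hc : 0 < c)
    (hcΘ : c ≤ Θ) (hη : 0 ≤ η) (hC : 0 < C) (hok : Est fun ι β γ m => (F ι β γ).Ok Θ m)
    (hKr : Est fun ι β γ m => (F ι β γ).R m ⊆ Kr (2 ^ m) m (((2 ^ m : ℕ) : ℝ) ^ (-ι)))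
    (hdeep : Est fun ι β γ m => DeepB (F ι β γ) (EE μ s) δ c m)
    (hstr : Est fun ι β γ m => StrN μ s (F ι β γ) (EE μ s) δ ι (C * ι) m)
    (h1 : Est fun ι β γ m => N1B μ s (F ι β γ) (EE μ s) Θ δ c η m) (h2 : Est fun ι β γ m => N2B μ s (F ι β γ) (EE μ s) Θ δ c η m)
    (h3 : Est fun ι β γ m => MB μ s (F ι β γ) (EE μ s) Θ δ c η m) (h4 : Est fun ι β γ m => RB μ s (F ι β γ) (EE μ s) Θ δ c η m)
    (h5 : Est fun ι β γ m => ClB μ s (F ι β γ) δ m) :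
    Est fun ι β γ m => BasN μ s (F ι β γ) (EE μ s) Θ δ c η (c / 64) m := by
  obtain ⟨a, -, -, hr⟩ := hR.est hδ (k := 1) one_pos
  have hι : Est fun ι _ _ _ => ι ≤ c / 4 := Est.iota (Sml.le (by positivity))
  refine basN33 hR hδ hc hcΘ hη hC hok hdeep ?_ ?_
  · refine ((hr.and hι).and ((hok.and hKr).and (hdeep.and hstr))).mono fun ι β γ hι0 _ _ => ?_
    filter_upwards [pow_ev96 hι0 32, pow_ev96 (show (0 : ℝ) < 1 by norm_num) 256] with m e1 e2 h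
    rw [Real.rpow_one] at e2
    obtain ⟨⟨⟨g1, -⟩, g2⟩, ⟨g3, g4⟩, g5, g6⟩ := h
    exact stb_of33 g1 hΘ1 hη hc hι0 g2 e1 e2 g3 g5 g4 g6
  · refine (((hok.and hdeep).and (h1.and h2)).and ((h3.and h4).and h5)).mono fun ι β γ _ _ _ => ?_
    filter_upwards [pow_ev96 (show (0 : ℝ) < 1 by norm_num) (2 ^ 16)] with m e2 h
    rw [Real.rpow_one] at e2
    obtain ⟨⟨⟨g1, g2⟩, g3, g4⟩, ⟨g5, g6⟩, g7⟩ := h
    exact dxb_of33 hΘ1 hη hc e2 (fun n => one_le_EE n) g1 g2 g3 g4 g5 g6 g7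

end

end Pool.Agent.W_7d29a1_C0.Asm96
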