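import Pool.Agent.W_7d29a1_C0.Lft33
import Pool.Agent.W_7d29a1_C0.BasSt33

/-!
MP_7d29a1_pr, [CURV0] (helper33): E5 AT THE CONCRETE FRAME: `BasL33` from the literal targets of the owners (`BasT33`).
-/

set_option autoImplicit false

namespace Pool.Agent.W_7d29a1_C0.Frm33

open Finset MeasureTheory Filter Topology
open Pool.Agent.W_7d29a1_H (EE)
open Pool.Agent.W_7d29a1_HS (In)
open Pool.Agent.W_7d29a1_C0 Pool.Agent.W_7d29a1_C0.Asm96 Pool.Agent.W_7d29a1_C0.Mod92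
open Pool.Agent.W_7d29a1_C0.Par92 (Sml Est)

noncomputable section

variable (μ : Measure ℝ) (s : ℝ) (K : ℕ) (Θ : ℝ)

/-- **The literal targets of E5**, at the concrete frame. -/
structure BasT33 (δ c η : ℝ) : Prop where
  str : ∃ C : ℝ, 0 < C ∧ Est fun ι β γ m => StrN μ s (frm33 μ s K ι β γ) (EE μ s) δ ι (C * ι) m
  n1 : Est fun ι β γ m => N1B μ s (frm33 μ s K ι β γ) (EE μ s) Θ δ c η m
  n2 : Est fun ι β γ m => N2B μ s (frm33 μ s K ι β γ) (EE μ s) Θ δ c η m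
  mm : Est fun ι β γ m => MB μ s (frm33 μ s K ι β γ) (EE μ s) Θ δ c η m
  rr : Est fun ι β γ m => RB μ s (frm33 μ s K ι β γ) (EE μ s) Θ δ c η m
  cl : Est fun ι β γ m => ClB μ s (frm33 μ s K ι β γ) δ m

variable {μ s K Θ}

/-- The windows of the kicked rows, all bases. -/
theorem deepB33 [IsProbabilityMeasure μ] {c₁ C : ℝ} {n₀ : ℕ} (h : In μ s c₁ C n₀) (hk : KapLe96 (EE μ s) (1 / 4)) {δ c : ℝ}
    (hδ : 0 < δ) (hc : 0 ≤ c) (hcδ : c ≤ δ / 64) : Est fun ι β γ m => DeepB (frm33 μ s K ι β γ) (EE μ s) δ c m := by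
  refine ⟨δ / 16, by positivity, fun ι _ hι => Sml.of fun β _ => Sml.of fun γ _ => ?_⟩
  filter_upwards [deep33_ev h hk hδ hc hcδ hι] with m h1 p hp hm
  exact (h1 p hp hm).mono (by omega)

/-- **The change of the base window at the concrete frame.** -/
theorem basL_of33 [IsProbabilityMeasure μ] {c₁ C : ℝ} {n₀ : ℕ} (h : In μ s c₁ C n₀) (hk : KapLe96 (EE μ s) (1 / 4)) (hK : 6 ≤ K)
    {c₀ : ℝ} (hR : RegP46 μ s c₀ Θ) (hΘ : 0 < Θ) (hΘ1 : Θ ≤ 1)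
    (H : Sml fun δ => Sml fun c => ∀ η : ℝ, 0 < η → η ≤ c / 64 → BasT33 μ s K Θ δ c η) : BasL33 μ s K Θ := by
  refine H.mono fun δ hδ H1 => ?_
  refine (H1.and ((Sml.le (show 0 < δ / 64 by positivity)).and (Sml.le hΘ))).mono fun c hc H2 η hη hηc => ?_
  obtain ⟨H2, hcδ, hcΘ⟩ := H2
  obtain ⟨⟨C', hC', t0⟩, t1, t2, t3, t4, t5⟩ := H2 η hη hηc
  refine ⟨c / 64, by positivity, bas33 hR hΘ1 hδ hc hcΘ hη.le hC' (ok33 hK hΘ) ?_ (deepB33 h hk hδ hc.le hcδ) t0 t1 t2 t3 t4 t5⟩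
  exact Sml.of fun _ _ => Sml.of fun _ _ => Sml.of fun _ _ => Eventually.of_forall fun _ => subset_rfl

end

end Pool.Agent.W_7d29a1_C0.Frm33
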