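import Pool.Agent.W_7d29a1_C0.Base5
import Pool.Agent.W_7d29a1_C0.Mod92B

/-!
MP_7d29a1_pr, [CURV0], section 7 (E5), helper5: measurability (in the environment and the signs) and bounds of the parts of the change of
base (`X5`, `R5`, `M5`, `N5`, `N25`, `Cl5`, `D5`), and the second moment of `D5` as the sum of the second moments of the five sums.
-/

set_option autoImplicit false
set_option linter.unusedSectionVars false

namespace Pool.Agent.W_7d29a1_C0.Base5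

open Finset MeasureTheory Pool.Agent.W_7d29a1_F Pool.Agent.W_7d29a1_X Pool.Agent.W_7d29a1_H
open Pool.W7d29a1.C0 Pool.W7d29a1.C0.VT31 Pool.Agent.W_7d29a1_C0 Pool.Agent.W_7d29a1_C0.Mod92

noncomputable section

section abstract

variable {X : Type*} [Fintype X] [DecidableEq X] [Nonempty X] {Y Z V : Type*} [DecidableEq Y] [DecidableEq Z] [DecidableEq V]

/-! ### Continuity in the weights and the responses -/

theorem continuous_cVv {U : Type*} [TopologicalSpace U] {W F : U → X → ℝ} (hW : Continuous W) (hF : Continuous F) (p : X → Y) :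
    Continuous fun u => cV (W u) p (F u) := continuous_pi fun x => continuous_cC hW hF hF p x

theorem continuous_gb {U : Type*} [TopologicalSpace U] {W F : U → X → ℝ} (hW : Continuous W) (hF : Continuous F) (q : X → Z) :
    Continuous fun u => gb81 (W u) (F u) q := by
  refine continuous_pi fun x => ?_
  simp_rw [gb81_apply]
  unfold Mc
  refine continuous_const.mul (intervalIntegral.continuous_parametric_intervalIntegral_of_continuous' ?_ _ _)
  have c1 : Continuous fun r : U × ℝ => W r.1 + r.2 • F r.1 :=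
    (hW.comp continuous_fst).add (continuous_snd.smul (hF.comp continuous_fst))
  exact continuous_cE (W := fun r : U × ℝ => W r.1 + r.2 • F r.1) (F := fun r : U × ℝ => F r.1) c1 (hF.comp continuous_fst) q x

/-- The weights on the line. -/
theorem cont_line {U : Type*} [TopologicalSpace U] {W G : U → X → ℝ} {T : U → ℝ} (hW : Continuous W) (hG : Continuous G)
    (hT : Continuous T) : Continuous fun u => W u + T u • G u := hW.add (hT.smul hG)

theorem continuous_N2a {U : Type*} [TopologicalSpace U] {W G : U → X → ℝ} (hW : Continuous W) (hG : Continuous G)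
    (u : X → Z) (v : X → V) (x : X) : Continuous fun z : U => ∫ s in (-1 : ℝ)..1, ∫ t in (-1 : ℝ)..1,
      Kn81 t s * cC (W z + t • G z) u (G z) (cV (W z + s • G z) v (G z)) x := by
  refine intervalIntegral.continuous_parametric_intervalIntegral_of_continuous' ?_ _ _
  refine intervalIntegral.continuous_parametric_intervalIntegral_of_continuous' (X := U × ℝ) ?_ _ _
  have c1 : Continuous fun q : (U × ℝ) × ℝ => W q.1.1 := hW.comp (continuous_fst.comp continuous_fst)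
  have c2 : Continuous fun q : (U × ℝ) × ℝ => G q.1.1 := hG.comp (continuous_fst.comp continuous_fst)
  have c3 : Continuous fun q : (U × ℝ) × ℝ => q.1.2 := continuous_snd.comp continuous_fst
  have c4 : Continuous fun q : (U × ℝ) × ℝ => q.2 := continuous_snd
  have k : Continuous fun q : (U × ℝ) × ℝ => Kn81 q.2 q.1.2 := continuous_Kn81.comp (c4.prodMk c3)
  have l1 := cont_line c1 c2 c4
  have l2 := continuous_cVv (cont_line c1 c2 c3) c2 v
  exact k.mul (continuous_cC (W := fun q : (U × ℝ) × ℝ => W q.1.1 + q.2 • G q.1.1) (F := fun q : (U × ℝ) × ℝ => G q.1.1)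
    (F' := fun q : (U × ℝ) × ℝ => cV (W q.1.1 + q.1.2 • G q.1.1) v (G q.1.1)) l1 c2 l2 u x)

theorem continuous_N2b {U : Type*} [TopologicalSpace U] {W G H : U → X → ℝ} (hW : Continuous W) (hG : Continuous G)
    (hH : Continuous H) (a : ℝ) (u : X → Z) (v : X → V) (x : X) : Continuous fun z : U => ∫ r in (-1 : ℝ)..1,
      (1 + a * r) * cC (W z + a • G z) u (H z) (cV (W z + r • G z) v (G z)) x := by
  refine intervalIntegral.continuous_parametric_intervalIntegral_of_continuous' ?_ _ _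
  have c1 : Continuous fun q : U × ℝ => W q.1 := hW.comp continuous_fst
  have c2 : Continuous fun q : U × ℝ => G q.1 := hG.comp continuous_fst
  have c3 : Continuous fun q : U × ℝ => H q.1 := hH.comp continuous_fst
  have c4 : Continuous fun q : U × ℝ => q.2 := continuous_snd
  have k : Continuous fun q : U × ℝ => 1 + a * q.2 := continuous_const.add (continuous_const.mul c4)
  have l1 : Continuous fun q : U × ℝ => W q.1 + a • G q.1 := c1.add (c2.const_smul a)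
  have l2 := continuous_cVv (cont_line c1 c2 c4) c2 v
  exact k.mul (continuous_cC (W := fun q : U × ℝ => W q.1 + a • G q.1) (F := fun q : U × ℝ => H q.1)
    (F' := fun q : U × ℝ => cV (W q.1 + q.2 • G q.1) v (G q.1)) l1 c3 l2 u x)

theorem continuous_N2g {U : Type*} [TopologicalSpace U] {W G H : U → X → ℝ} (hW : Continuous W) (hG : Continuous G)
    (hH : Continuous H) (u : X → Z) (v : X → V) (x : X) : Continuous fun z : U => N2g (W z) (G z) u v (H z) x := by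
  unfold N2g Ac
  exact (continuous_N2a hW hG u v x).neg.add
    (continuous_const.mul (((continuous_N2b hW hG hH 1 u v x).add (continuous_N2b hW hG hH (-1) u v x)).div_const 2))

theorem continuous_Clg {U : Type*} [TopologicalSpace U] {W G H H' : U → X → ℝ} (hW : Continuous W) (hG : Continuous G)
    (hH : Continuous H) (hH' : Continuous H') (u : X → Z) (v : X → V) (x : X) :
    Continuous fun z : U => Clg (W z) (G z) u v (H z) (H' z) x := by
  unfold Clg Ac Mc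
  have g1 := continuous_gb hW hG u
  have g2 := continuous_gb hW hG v
  have h1 : Continuous fun z : U => gb81 (W z) (G z) u x - H' z x :=
    ((continuous_apply x).comp g1).sub ((continuous_apply x).comp hH')
  have h2 : Continuous fun z : U => ∫ t in (-1 : ℝ)..1, cE (W z + t • G z) u (H z - gb81 (W z) (G z) v) x := by
    refine intervalIntegral.continuous_parametric_intervalIntegral_of_continuous' ?_ _ _
    have l1 := cont_line (hW.comp (continuous_fst (X := U) (Y := ℝ))) (hG.comp continuous_fst) continuous_snd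
    have l2 : Continuous fun q : U × ℝ => H q.1 - gb81 (W q.1) (G q.1) v := (hH.sub g2).comp continuous_fst
    exact continuous_cE (W := fun q : U × ℝ => W q.1 + q.2 • G q.1) (F := fun q : U × ℝ => H q.1 - gb81 (W q.1) (G q.1) v) l1 l2 u x
  have h3 : ∀ a : ℝ, Continuous fun z : U => a * cC (W z + a • G z) u (H z) (gb81 (W z) (G z) v - H z) x := fun a => by
    have l1 : Continuous fun z : U => W z + a • G z := hW.add (hG.const_smul a)
    exact continuous_const.mul (continuous_cC (W := fun z : U => W z + a • G z) (F := H)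
      (F' := fun z : U => gb81 (W z) (G z) v - H z) l1 hH (g2.sub hH) u x)
  exact (h1.add (continuous_const.mul h2)).add (continuous_const.mul (((h3 1).add (h3 (-1))).div_const 2))

/-! ### Bounds -/

theorem abs_cC_le2 (w : X → ℝ) (p : X → Y) {f g : X → ℝ} {M M' : ℝ} (hf : ∀ x, |f x| ≤ M) (hg : ∀ x, |g x| ≤ M') (x : X) :
    |cC w p f g x| ≤ 2 * (M * M') := by
  have hM : 0 ≤ M := (abs_nonneg _).trans (hf x)
  have h1 : |cE w p (f * g) x| ≤ M * M' := abs_cE_le w p (fun x => by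
    rw [Pi.mul_apply, abs_mul]
    exact mul_le_mul (hf x) (hg x) (abs_nonneg _) hM) x
  have h2 : |(cE w p f * cE w p g) x| ≤ M * M' := by
    rw [Pi.mul_apply, abs_mul]
    exact mul_le_mul (abs_cE_le w p hf x) (abs_cE_le w p hg x) (abs_nonneg _) hM
  unfold cC
  rw [Pi.sub_apply]
  refine (abs_sub _ _).trans ?_
  linarith

theorem abs_int1 {f : ℝ → ℝ} {C : ℝ} (h : ∀ t ∈ Set.Icc (-1 : ℝ) 1, |f t| ≤ C) : |∫ t in (-1 : ℝ)..1, f t| ≤ 2 * C := by
  have := intervalIntegral.norm_integral_le_of_norm_le_const (a := (-1 : ℝ)) (b := 1) (f := f) (C := C) fun t ht => by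
    rw [Set.uIoc_of_le (by norm_num)] at ht
    rw [Real.norm_eq_abs]
    exact h t ⟨ht.1.le, ht.2⟩
  rw [Real.norm_eq_abs] at this
  refine this.trans (le_of_eq ?_)
  norm_num
  ring

theorem abs_gb81 (w g : X → ℝ) (q : X → Z) {M : ℝ} (hg : ∀ x, |g x| ≤ M) (x : X) : |gb81 w g q x| ≤ M := by
  rw [gb81_apply]
  unfold Mc
  rw [abs_mul, abs_of_pos (by norm_num : (0 : ℝ) < 1 / 2)]
  have := abs_int1 (f := fun s => cE (w + s • g) q g x) fun t _ => abs_cE_le _ q hg x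
  linarith

theorem abs_Zr_le (w : X → ℝ) (p : X → Y) {a M : ℝ} (ha : |a| ≤ 1) {g : X → ℝ} (hg : ∀ x, |g x| ≤ M) (x : X) :
    |VT31.Zr w p a g x| ≤ M + M ^ 2 := by
  unfold VT31.Zr
  rw [Pi.sub_apply, Pi.smul_apply, smul_eq_mul]
  have h1 := abs_cE_le w p hg x
  have h2 := abs_cV_le w p hg x
  have h3 : |a / 3 * cV w p g x| ≤ 1 * M ^ 2 := by
    rw [abs_mul]
    refine mul_le_mul ?_ h2 (abs_nonneg _) zero_le_one
    rw [abs_div]
    norm_num
    linarith
  refine (abs_sub _ _).trans ?_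
  linarith

theorem abs_Xg (w : X → ℝ) (u : X → Z) {a M : ℝ} (ha : |a| ≤ 1) {g g' : X → ℝ} (hg : ∀ x, |g x| ≤ M) (hg' : ∀ x, |g' x| ≤ M)
    (x : X) : |Xg w u a g g' x| ≤ 2 * M + M ^ 2 := by
  unfold Xg
  rw [Pi.sub_apply]
  refine (abs_sub _ _).trans ?_
  linarith [abs_Zr_le w u ha hg x, hg' x]

theorem abs_Rg (w : X → ℝ) (p : X → Y) (u : X → Z) {M : ℝ} {g g' : X → ℝ} (hg : ∀ x, |g x| ≤ M) (hg' : ∀ x, |g' x| ≤ M)
    (x : X) : |Rg w p u g g' x| ≤ 12 * M ^ 2 := by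
  have he : ∀ x, |Eg w u g g' x| ≤ 2 * M := fun x => by
    unfold Eg
    rw [Pi.sub_apply]
    refine (abs_sub _ _).trans ?_
    linarith [abs_cE_le w u hg x, hg' x]
  unfold Rg
  rw [Pi.add_apply, Pi.smul_apply, smul_eq_mul]
  have h1 := abs_cC_le2 w p hg' he x
  have h2 := abs_cV_le w p he x
  refine (abs_add_le _ _).trans ?_
  rw [abs_mul, abs_two]
  nlinarith

theorem abs_Mg (w0 g0 : X → ℝ) (u : X → Z) {γ : X → ℝ} {M : ℝ} (hγ : ∀ x, |γ x| ≤ M) (x : X) : |Mg w0 g0 u γ x| ≤ M + M ^ 2 := by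
  have h1 : |Fg w0 g0 u γ x 1| ≤ M + M ^ 2 := abs_Zr_le _ u (by simp) hγ x
  have h2 : |Fg w0 g0 u γ x (-1)| ≤ M + M ^ 2 := abs_Zr_le _ u (by simp) hγ x
  unfold Mg Dc
  rw [abs_div, abs_two, div_le_iff₀ two_pos]
  refine (abs_sub _ _).trans ?_
  linarith

theorem abs_AFg (w0 g0 : X → ℝ) (u : X → Z) {γ : X → ℝ} {M : ℝ} (hγ : ∀ x, |γ x| ≤ M) (x : X) :
    |Ac (Fg w0 g0 u γ x)| ≤ M + M ^ 2 := by
  have h1 : |Fg w0 g0 u γ x 1| ≤ M + M ^ 2 := abs_Zr_le _ u (by simp) hγ x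
  have h2 : |Fg w0 g0 u γ x (-1)| ≤ M + M ^ 2 := abs_Zr_le _ u (by simp) hγ x
  unfold Ac
  rw [abs_div, abs_two, div_le_iff₀ two_pos]
  refine (abs_add_le _ _).trans ?_
  linarith

theorem abs_N2g (w0 g0 : X → ℝ) (u : X → Z) (v : X → V) {γ : X → ℝ} {M : ℝ} (hg0 : ∀ x, |g0 x| ≤ M) (hγ : ∀ x, |γ x| ≤ M)
    (x : X) : |N2g w0 g0 u v γ x| ≤ 4 * M ^ 3 := by
  have hM : 0 ≤ M := (abs_nonneg _).trans (hγ x)
  have hM3 : 0 ≤ M ^ 3 := by positivity
  have hv : ∀ (r : ℝ) (x : X), |cV (w0 + r • g0) v g0 x| ≤ M ^ 2 := fun r x => abs_cV_le _ v hg0 x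
  have h1 : |∫ s in (-1 : ℝ)..1, ∫ t in (-1 : ℝ)..1, Kn81 t s * cC (w0 + t • g0) u g0 (cV (w0 + s • g0) v g0) x| ≤
      2 * (2 * (1 / 4 * (2 * (M * M ^ 2)))) := by
    refine abs_int1 fun s hs => abs_int1 fun t ht => ?_
    rw [abs_mul]
    exact mul_le_mul (abs_Kn81_le ht hs) (abs_cC_le2 _ u hg0 (hv s) x) (abs_nonneg _) (by norm_num)
  have h2 : ∀ a : ℝ, |a| ≤ 1 → |∫ r in (-1 : ℝ)..1, (1 + a * r) * cC (w0 + a • g0) u γ (cV (w0 + r • g0) v g0) x| ≤
      2 * (2 * (2 * (M * M ^ 2))) := fun a ha => by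
    refine abs_int1 fun r hr => ?_
    rw [abs_mul]
    refine mul_le_mul ?_ (abs_cC_le2 _ u hγ (hv r) x) (abs_nonneg _) (by norm_num)
    have h3 : |a * r| ≤ 1 := by
      rw [abs_mul]
      exact mul_le_one₀ ha (abs_nonneg _) (abs_le.2 hr)
    refine (abs_add_le _ _).trans ?_
    rw [abs_one]
    linarith
  have h3 := h2 1 (by simp)
  have h4 := h2 (-1) (by simp)
  unfold N2g Ac
  refine (abs_add_le _ _).trans ?_
  rw [abs_neg, abs_mul, abs_of_pos (by norm_num : (0 : ℝ) < 1 / 6), abs_div, abs_two]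
  have h5 := abs_add_le (∫ r in (-1 : ℝ)..1, (1 + 1 * r) * cC (w0 + (1 : ℝ) • g0) u γ (cV (w0 + r • g0) v g0) x)
    (∫ r in (-1 : ℝ)..1, (1 + -1 * r) * cC (w0 + (-1 : ℝ) • g0) u γ (cV (w0 + r • g0) v g0) x)
  have e : M * M ^ 2 = M ^ 3 := by ring
  rw [e] at h1 h3 h4
  linarith

theorem abs_Clg (w0 g0 : X → ℝ) (u : X → Z) (v : X → V) {γ g' : X → ℝ} {M : ℝ} (hg0 : ∀ x, |g0 x| ≤ M) (hγ : ∀ x, |γ x| ≤ M)
    (hg' : ∀ x, |g' x| ≤ M) (x : X) : |Clg w0 g0 u v γ g' x| ≤ 4 * M + 2 * M ^ 2 := by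
  have hM : 0 ≤ M := (abs_nonneg _).trans (hγ x)
  have hb : ∀ x, |(γ - gb81 w0 g0 v) x| ≤ 2 * M := fun x => by
    rw [Pi.sub_apply]
    refine (abs_sub _ _).trans ?_
    linarith [abs_gb81 w0 g0 v hg0 x, hγ x]
  have hb' : ∀ x, |(gb81 w0 g0 v - γ) x| ≤ 2 * M := fun x => by
    rw [Pi.sub_apply]
    refine (abs_sub _ _).trans ?_
    linarith [abs_gb81 w0 g0 v hg0 x, hγ x]
  have h1 : |gb81 w0 g0 u x - g' x| ≤ 2 * M := by
    refine (abs_sub _ _).trans ?_
    linarith [abs_gb81 w0 g0 u hg0 x, hg' x]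
  have h2 : |∫ t in (-1 : ℝ)..1, cE (w0 + t • g0) u (γ - gb81 w0 g0 v) x| ≤ 2 * (2 * M) :=
    abs_int1 fun t _ => abs_cE_le _ u hb x
  have h3 : ∀ a : ℝ, |a * cC (w0 + a • g0) u γ (gb81 w0 g0 v - γ) x| ≤ |a| * (2 * (M * (2 * M))) := fun a => by
    rw [abs_mul]
    exact mul_le_mul_of_nonneg_left (abs_cC_le2 _ u hγ hb' x) (abs_nonneg _)
  have h4 := h3 1
  have h5 := h3 (-1)
  rw [abs_one] at h4
  rw [abs_neg, abs_one] at h5
  unfold Clg Mc Ac
  refine (abs_add_le _ _).trans ?_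
  have h6 := abs_add_le (gb81 w0 g0 u x - g' x) (1 / 2 * ∫ t in (-1 : ℝ)..1, cE (w0 + t • g0) u (γ - gb81 w0 g0 v) x)
  rw [abs_mul, abs_of_pos (by norm_num : (0 : ℝ) < 1 / 2)] at h6
  rw [abs_mul, abs_of_pos (by norm_num : (0 : ℝ) < 1 / 3), abs_div, abs_two]
  have h7 := abs_add_le (1 * cC (w0 + (1 : ℝ) • g0) u γ (gb81 w0 g0 v - γ) x) (-1 * cC (w0 + (-1 : ℝ) • g0) u γ (gb81 w0 g0 v - γ) x)
  nlinarith

theorem abs_N1g (w0 g0 : X → ℝ) {u : X → Z} {v : X → V} (hc : Crs u v) {γ g' : X → ℝ} (hv : Mp v γ) {M : ℝ}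
    (hg0 : ∀ x, |g0 x| ≤ M) (hγ : ∀ x, |γ x| ≤ M) (hg' : ∀ x, |g' x| ≤ M) (x : X) :
    |N1g w0 g0 u γ x| ≤ 6 * M + 3 * M ^ 2 + 4 * M ^ 3 := by
  have h := even5 w0 g0 hc hv g' x
  have h1 := abs_le.1 (abs_AFg w0 g0 u hγ x)
  have h2 := abs_le.1 (abs_N2g w0 g0 u v hg0 hγ x)
  have h3 := abs_le.1 (abs_Clg w0 g0 u v hg0 hγ hg' x)
  have h4 := abs_le.1 (hg' x)
  rw [abs_le]
  constructor <;> linarith [h1.1, h1.2, h2.1, h2.2, h3.1, h3.2, h4.1, h4.2]

end abstract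

/-! ### The model: measurability -/

variable {μ : Measure ℝ} {s : ℝ} {N : ℕ} {Q : Finset (Finset ℕ)}

theorem meas_w5 (δ B : ℝ) (b0 j : ℕ) (S : Px Q) : Measurable fun ω => w5 μ s N Q δ B b0 ω j S := by
  unfold w5
  simp only [Pi.sub_apply, Pi.smul_apply, smul_eq_mul]
  exact (meas_wm S).sub ((meas_sr j).mul (meas_gg δ B b0 j S))

theorem meas_Xg5 {Y : Type*} [DecidableEq Y] {W G G' : Env × Finset ℕ → Px Q → ℝ} {A : Env × Finset ℕ → ℝ}
    (hW : ∀ S, Measurable fun ω => W ω S) (hA : Measurable A) (hG : ∀ S, Measurable fun ω => G ω S)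
    (hG' : ∀ S, Measurable fun ω => G' ω S) (p : Px Q → Y) (S : Px Q) : Measurable fun ω => Xg (W ω) p (A ω) (G ω) (G' ω) S := by
  unfold Xg VT31.Zr
  simp only [Pi.sub_apply, Pi.smul_apply, smul_eq_mul]
  exact ((meas_cE hW hG p S).sub ((hA.div_const 3).mul (meas_cV hW hG p S))).sub (hG' S)

theorem meas_Eg5 {Y : Type*} [DecidableEq Y] {W G G' : Env × Finset ℕ → Px Q → ℝ} (hW : ∀ S, Measurable fun ω => W ω S)
    (hG : ∀ S, Measurable fun ω => G ω S) (hG' : ∀ S, Measurable fun ω => G' ω S) (p : Px Q → Y) (S : Px Q) :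
    Measurable fun ω => Eg (W ω) p (G ω) (G' ω) S := by
  unfold Eg
  simp only [Pi.sub_apply]
  exact (meas_cE hW hG p S).sub (hG' S)

theorem meas_X5 (δ B : ℝ) (b b' j : ℕ) (S : Px Q) : Measurable fun ω => X5 μ s N Q δ B b b' ω j S :=
  meas_Xg5 meas_wm (meas_sr j) (fun S => meas_gg δ B b j S) (fun S => meas_gg δ B b' j S) _ S

theorem meas_R5 (δ B : ℝ) (b b' σ j : ℕ) (S : Px Q) : Measurable fun ω => R5 μ s N Q δ B b b' σ ω j S := by
  unfold R5 Rg
  simp only [Pi.add_apply, Pi.smul_apply, smul_eq_mul]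
  have he : ∀ S, Measurable fun ω => Eg (wm μ s N Q ω) (pW b' j) (Mod92.gg μ s Q δ B b ω j) (Mod92.gg μ s Q δ B b' ω j) S := fun S =>
    meas_Eg5 meas_wm (fun S => meas_gg δ B b j S) (fun S => meas_gg δ B b' j S) _ S
  exact (measurable_const.mul (meas_cC meas_wm (fun S => meas_gg δ B b' j S) he _ S)).add (meas_cV meas_wm he _ S)

theorem meas_D5 (δ B : ℝ) (b b' σ : ℕ) (R : Finset ℕ) (c d : ℕ) (S : Px Q) :
    Measurable fun ω => D5 μ s N Q δ B b b' σ R c d ω S := by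
  unfold D5
  simp only [Finset.sum_apply, Pi.sub_apply, Pi.smul_apply, smul_eq_mul]
  exact Finset.measurable_fun_sum _ fun j _ => (meas_X5 δ B b b' j S).sub (((meas_sr j).div_const 3).mul (meas_R5 δ B b b' σ j S))

theorem meas_line5 (δ B : ℝ) (b0 j : ℕ) (t : ℝ) (S : Px Q) :
    Measurable fun ω => (w5 μ s N Q δ B b0 ω j + t • Mod92.gg μ s Q δ B b0 ω j) S := by
  simp only [Pi.add_apply, Pi.smul_apply, smul_eq_mul]
  exact (meas_w5 δ B b0 j S).add (measurable_const.mul (meas_gg δ B b0 j S))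

theorem meas_Fg5 (δ B : ℝ) (b0 b b' j : ℕ) (t : ℝ) (S : Px Q) :
    Measurable fun ω => Fg (w5 μ s N Q δ B b0 ω j) (Mod92.gg μ s Q δ B b0 ω j) (pW b' j) (Mod92.gg μ s Q δ B b ω j) S t := by
  unfold Fg VT31.Zr
  simp only [Pi.sub_apply, Pi.smul_apply, smul_eq_mul]
  exact (meas_cE (meas_line5 δ B b0 j t) (fun S => meas_gg δ B b j S) _ S).sub
    (measurable_const.mul (meas_cV (meas_line5 δ B b0 j t) (fun S => meas_gg δ B b j S) _ S))

theorem meas_M5 (δ B : ℝ) (b0 b b' j : ℕ) (S : Px Q) : Measurable fun ω => M5 μ s N Q δ B b0 b b' ω j S := by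
  unfold M5 Mg Dc
  exact ((meas_Fg5 δ B b0 b b' j 1 S).sub (meas_Fg5 δ B b0 b b' j (-1) S)).div_const 2

/-- (weights without the kick, fine response, response, large response). -/
theorem meas_P4 (δ B : ℝ) (b0 b b' j : ℕ) : Measurable fun ω : Env × Finset ℕ => (w5 μ s N Q δ B b0 ω j, Mod92.gg μ s Q δ B b0 ω j,
    Mod92.gg μ s Q δ B b ω j, Mod92.gg μ s Q δ B b' ω j) :=
  (measurable_pi_iff.2 fun S => meas_w5 δ B b0 j S).prodMk ((measurable_pi_iff.2 fun S => meas_gg δ B b0 j S).prodMk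
    ((measurable_pi_iff.2 fun S => meas_gg δ B b j S).prodMk (measurable_pi_iff.2 fun S => meas_gg δ B b' j S)))

variable [Nonempty (Px Q)]

theorem meas_N25 (δ B : ℝ) (b0 b b' j : ℕ) (S : Px Q) : Measurable fun ω => N25 μ s N Q δ B b0 b b' ω j S := by
  have h : Continuous fun z : (Px Q → ℝ) × (Px Q → ℝ) × (Px Q → ℝ) × (Px Q → ℝ) =>
      N2g z.1 z.2.1 (pW (Q := Q) b' j) (pW (Q := Q) b j) z.2.2.1 S :=
    continuous_N2g continuous_fst (continuous_fst.comp continuous_snd) (continuous_fst.comp (continuous_snd.comp continuous_snd)) _ _ S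
  have h2 := h.measurable.comp (meas_P4 (μ := μ) (s := s) (N := N) (Q := Q) δ B b0 b b' j)
  unfold N25
  exact h2

theorem meas_Cl5 (δ B : ℝ) (b0 b b' j : ℕ) (S : Px Q) : Measurable fun ω => Cl5 μ s N Q δ B b0 b b' ω j S := by
  have h : Continuous fun z : (Px Q → ℝ) × (Px Q → ℝ) × (Px Q → ℝ) × (Px Q → ℝ) =>
      Clg z.1 z.2.1 (pW (Q := Q) b' j) (pW (Q := Q) b j) z.2.2.1 z.2.2.2 S :=
    continuous_Clg continuous_fst (continuous_fst.comp continuous_snd) (continuous_fst.comp (continuous_snd.comp continuous_snd))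
      (continuous_snd.comp (continuous_snd.comp continuous_snd)) _ _ S
  have h2 := h.measurable.comp (meas_P4 (μ := μ) (s := s) (N := N) (Q := Q) δ B b0 b b' j)
  unfold Cl5
  exact h2

theorem meas_N5 (δ B : ℝ) (b0 : ℕ) {b b' : ℕ} (hb : b ≤ b') (j : ℕ) (S : Px Q) :
    Measurable fun ω => N5 μ s N Q δ B b0 b b' ω j S := by
  have e : (fun ω => N5 μ s N Q δ B b0 b b' ω j S) = fun ω =>
      Ac (Fg (w5 μ s N Q δ B b0 ω j) (Mod92.gg μ s Q δ B b0 ω j) (pW b' j) (Mod92.gg μ s Q δ B b ω j) S) -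
        Mod92.gg μ s Q δ B b' ω j S - N25 μ s N Q δ B b0 b b' ω j S - Cl5 μ s N Q δ B b0 b b' ω j S := by
    funext ω
    have h := even_split (μ := μ) (s := s) (N := N) δ B b0 hb ω j S
    linarith
  rw [e]
  have h1 : Measurable fun ω => Ac (Fg (w5 μ s N Q δ B b0 ω j) (Mod92.gg μ s Q δ B b0 ω j) (pW b' j) (Mod92.gg μ s Q δ B b ω j) S) := by
    unfold Ac
    exact ((meas_Fg5 δ B b0 b b' j 1 S).add (meas_Fg5 δ B b0 b b' j (-1) S)).div_const 2
  exact ((h1.sub (meas_gg δ B b' j S)).sub (meas_N25 δ B b0 b b' j S)).sub (meas_Cl5 δ B b0 b b' j S)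

/-! ### The model: bounds -/

/-- One bound for everything. -/
def K5 (B : ℝ) : ℝ := 16 * (1 + B) ^ 3

theorem K5_nonneg {B : ℝ} (hB : 0 ≤ B) : 0 ≤ K5 B := by
  unfold K5
  positivity

theorem K5_X {B : ℝ} (hB : 0 ≤ B) : 2 * (B / 2) + (B / 2) ^ 2 ≤ K5 B := by
  unfold K5
  nlinarith [mul_nonneg hB hB, mul_nonneg hB (mul_nonneg hB hB)]

theorem K5_R {B : ℝ} (hB : 0 ≤ B) : 12 * (B / 2) ^ 2 ≤ K5 B := by
  unfold K5
  nlinarith [mul_nonneg hB hB, mul_nonneg hB (mul_nonneg hB hB)]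

theorem K5_N {B : ℝ} (hB : 0 ≤ B) : 6 * (B / 2) + 3 * (B / 2) ^ 2 + 4 * (B / 2) ^ 3 ≤ K5 B := by
  unfold K5
  nlinarith [mul_nonneg hB hB, mul_nonneg hB (mul_nonneg hB hB)]

theorem abs_X5 {δ B : ℝ} (hB : 0 ≤ B) (b b' : ℕ) (ω : Env × Finset ℕ) (j : ℕ) (S : Px Q) : |X5 μ s N Q δ B b b' ω j S| ≤ K5 B :=
  (abs_Xg _ _ (abs_sr _ _).le (fun S => abs_gg hB b ω j S) (fun S => abs_gg hB b' ω j S) S).trans (K5_X hB)

theorem abs_R5 {δ B : ℝ} (hB : 0 ≤ B) (b b' σ : ℕ) (ω : Env × Finset ℕ) (j : ℕ) (S : Px Q) : |R5 μ s N Q δ B b b' σ ω j S| ≤ K5 B :=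
  (abs_Rg _ _ _ (fun S => abs_gg hB b ω j S) (fun S => abs_gg hB b' ω j S) S).trans (K5_R hB)

theorem abs_M5 {δ B : ℝ} (hB : 0 ≤ B) (b0 b b' : ℕ) (ω : Env × Finset ℕ) (j : ℕ) (S : Px Q) : |M5 μ s N Q δ B b0 b b' ω j S| ≤ K5 B := by
  refine (abs_Mg _ _ _ (fun S => abs_gg hB b ω j S) S).trans (le_trans ?_ (K5_X hB))
  have : (0 : ℝ) ≤ B / 2 := by positivity
  linarith

theorem abs_N25 {δ B : ℝ} (hB : 0 ≤ B) (b0 b b' : ℕ) (ω : Env × Finset ℕ) (j : ℕ) (S : Px Q) :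
    |N25 μ s N Q δ B b0 b b' ω j S| ≤ K5 B := by
  refine (abs_N2g _ _ _ _ (fun S => abs_gg hB b0 ω j S) (fun S => abs_gg hB b ω j S) S).trans (le_trans ?_ (K5_N hB))
  have : (0 : ℝ) ≤ B / 2 := by positivity
  nlinarith [mul_nonneg this this]

theorem abs_Cl5 {δ B : ℝ} (hB : 0 ≤ B) (b0 b b' : ℕ) (ω : Env × Finset ℕ) (j : ℕ) (S : Px Q) :
    |Cl5 μ s N Q δ B b0 b b' ω j S| ≤ K5 B := by
  refine (abs_Clg _ _ _ _ (fun S => abs_gg hB b0 ω j S) (fun S => abs_gg hB b ω j S) (fun S => abs_gg hB b' ω j S) S).trans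
    (le_trans ?_ (K5_N hB))
  have : (0 : ℝ) ≤ B / 2 := by positivity
  nlinarith [mul_nonneg this this, mul_nonneg this (mul_nonneg this this)]

theorem abs_N5 {δ B : ℝ} (hB : 0 ≤ B) (b0 : ℕ) {b b' : ℕ} (hb : b ≤ b') (ω : Env × Finset ℕ) (j : ℕ) (S : Px Q) :
    |N5 μ s N Q δ B b0 b b' ω j S| ≤ K5 B :=
  (abs_N1g _ _ (g' := Mod92.gg μ s Q δ B b' ω j) (crs_pW hb j) (mp_gg δ B b ω j) (fun S => abs_gg hB b0 ω j S)
    (fun S => abs_gg hB b ω j S) (fun S => abs_gg hB b' ω j S) S).trans (K5_N hB)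

end

end Pool.Agent.W_7d29a1_C0.Base5
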