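import Pool.Agent.W_7d29a1_C0.Num46
import Pool.Agent.W_7d29a1_C0.Par92
import Pool.Agent.W_7d29a1_HZ.Defs

/-!
STORM C0 (helper46): the regime as a hypothesis of the leaves: `RegP46 μ s c₀ Θ`, proved in `Num46R` from `Stiff96`, `KapLe96` and the ends
of LB and UB.
-/

set_option autoImplicit false

namespace Pool.Agent.W_7d29a1_C0

open MeasureTheory Filter
open Pool.Agent.W_7d29a1_H Pool.Agent.W_7d29a1_HS
open Pool.Agent.W_7d29a1_HZ (wd' EE')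

/-- **The regime** at the lengths `2 ^ m`. -/
def RegP46 (μ : Measure ℝ) (s c₀ Θ : ℝ) : Prop :=
  ∃ a : ℝ, 0 < a ∧ a < 1 ∧ ∀ δ ε : ℝ, 0 < δ → 0 < ε → ∀ᶠ m : ℕ in atTop,
    Reg46 (EE μ s) (wd μ s) c₀ Θ δ a ε (2 ^ m : ℕ) ∧ ∀ r : ℕ, ((2 ^ m : ℕ) : ℝ) ^ δ ≤ r → wd' μ s r = wd μ s r

theorem EE'_eq46 {μ : Measure ℝ} [IsProbabilityMeasure μ] (s : ℝ) (n : ℕ) : EE' μ s n = EE μ s n := max_eq_right (one_le_EE n)

/-- The regime with the losses `N ^ (k ι)`, in the form of all estimates. -/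
theorem RegP46.est {μ : Measure ℝ} {s c₀ Θ : ℝ} (h : RegP46 μ s c₀ Θ) {δ : ℝ} (hδ : 0 < δ) {k : ℝ} (hk : 0 < k) :
    ∃ a : ℝ, 0 < a ∧ a < 1 ∧ Par92.Est fun ι _ _ m =>
      Reg46 (EE μ s) (wd μ s) c₀ Θ δ a (k * ι) (2 ^ m : ℕ) ∧ ∀ r : ℕ, ((2 ^ m : ℕ) : ℝ) ^ δ ≤ r → wd' μ s r = wd μ s r := by
  obtain ⟨a, ha, ha', h1⟩ := h
  exact ⟨a, ha, ha', Par92.Sml.of fun ι hι => Par92.Sml.of fun _ _ => Par92.Sml.of fun _ _ => h1 δ (k * ι) hδ (by positivity)⟩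

end Pool.Agent.W_7d29a1_C0
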