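import Pool.Agent.W_7d29a1_C0.AsmC96
import Pool.Agent.W_7d29a1_C0.Base5B
import Pool.Agent.W_7d29a1_C0.Num46C
import Pool.Agent.W_7d29a1_C0.Num46P

/-!
MP_7d29a1_pr, [CURV0] (helper33): THE TOP OF E5, the change of the base window `2 ^ p → 2 ^ p'` at the corrected scale `σ p'`. `dx33` is the
mean of the square of the change of base `D5` of helper5. `StB`: the variance of its conditional mean given the outside of the block costs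
the outer tie, `N ^ ε₁ / E_ρ`. `DxB`: the bound of `dx33`. Both imply `BasN` with the gain `c / 64` (`basN33`).
-/

set_option autoImplicit false

namespace Pool.Agent.W_7d29a1_C0.Asm96

open Finset MeasureTheory Filter Topology Pool.Agent.W_7d29a1_F Pool.Agent.W_7d29a1_X Pool.Agent.W_7d29a1_H
open Pool.Agent.W_7d29a1_C0.Mod92 Pool.Agent.W_7d29a1_C0
open Pool.W7d29a1.C0 (gz gm lse gz_pos gz_ne gm_nonneg gm_mono gm_const)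
open Pool.W7d29a1.C0.VT31
open Pool.Agent.W_7d29a1_C0.Par92 (Est Sml)
open Pool.Agent.W_7d29a1_C0.Base5 (D5 Zs_base5)

noncomputable section

variable (μ : Measure ℝ) (s : ℝ) (F : Frm96) (E : ℕ → ℝ) (Θ δ c η ε₁ : ℝ)

/-- The change of base of the block number `i` of length `2 ^ q`. -/
abbrev D33 (m p p' q i y : ℕ) (ω : Env × Finset ℕ) : Px (Pn (F.L m) y) → ℝ :=
  D5 μ s (F.L m) (Pn (F.L m) y) F.dl (F.B m) (2 ^ p) (2 ^ p') (2 ^ sg96 E c m p') (F.R m) (i * 2 ^ q) ((i + 1) * 2 ^ q) ω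

/-- The mean of its square. -/
def dx33 (m p p' q i : ℕ) : ℝ :=
  avy (F.ys m) fun y => ∫ ω, gm (wm μ s (F.L m) (Pn (F.L m) y) ω) (fun S => D33 μ s F E c m p p' q i y ω S ^ 2) ∂(Pm μ (F.L m))

/-- **The strip**: the outer tie of the response. -/
def StB (m : ℕ) : Prop := ∀ p p' q i : ℕ, Chg96 E Θ δ c η m p p' q → i < 2 ^ (m - q) →
  avy (F.ys m) (fun y => ∫ ω, gv (wm μ s (F.L m) (Pn (F.L m) y) ω)
    (cE (wm μ s (F.L m) (Pn (F.L m) y) ω) (pJ (i * 2 ^ q) ((i + 1) * 2 ^ q)) (D33 μ s F E c m p p' q i y ω)) ∂(Pm μ (F.L m))) ≤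
    ((2 ^ m : ℕ) : ℝ) ^ ε₁ / E (2 ^ q) * dx33 μ s F E c m p p' q i + 1

/-- **The sums over the rows.** -/
def DxB (m : ℕ) : Prop := ∀ p p' q i : ℕ, Chg96 E Θ δ c η m p p' q → i < 2 ^ (m - q) →
  dx33 μ s F E c m p p' q i ≤ 64 * (2 ^ q * (E (2 ^ q) * ((2 ^ m : ℕ) : ℝ) ^ (Θ - c / 32))) + 1

/-- The windows of the kicked rows lie inside of their corrected blocks, for all the bases. -/
def DeepB (m : ℕ) : Prop := ∀ p : ℕ, δ * m ≤ p → sg96 E c m p ≤ m → Deep (F.R m) (2 ^ p) (2 ^ sg96 E c m p)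

variable {μ s F E Θ δ c η ε₁}

theorem chg_le33 {m p p' q : ℕ} (h : Chg96 E Θ δ c η m p p' q) (hc : 0 ≤ c) (hη : 0 ≤ η) : sg96 E c m p' ≤ q ∧ q ≤ m := by
  have hm : (0 : ℝ) ≤ m := Nat.cast_nonneg _
  have h1 := h.hqm
  have h2 : 0 ≤ η * (m : ℝ) := mul_nonneg hη hm
  have h3 : (q : ℝ) ≤ m := by linarith
  have h4 := h.hsq'
  have h5 : 0 ≤ c * (m : ℝ) := mul_nonneg hc hm
  have h6 : (sg96 E c m p' : ℝ) ≤ q := by linarith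
  exact ⟨by exact_mod_cast h6, by exact_mod_cast h3⟩

/-- The exact change of base, in the frame. -/
theorem bas_eq33 {m p p' q i : ℕ} (hc : 0 ≤ c) (hη : 0 ≤ η) (hD : DeepB F E δ c m) (h : Chg96 E Θ δ c η m p p' q) (y : ℕ)
    [Nonempty (Px (Pn (F.L m) y))] (ω : Env × Finset ℕ) :
    Zs μ s (F.L m) (Pn (F.L m) y) F.dl (F.B m) (2 ^ p) (2 ^ sg96 E c m p') (F.R m) (i * 2 ^ q) ((i + 1) * 2 ^ q) ω -
      Zs μ s (F.L m) (Pn (F.L m) y) F.dl (F.B m) (2 ^ p') (2 ^ sg96 E c m p') (F.R m) (i * 2 ^ q) ((i + 1) * 2 ^ q) ω =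
        cE (wm μ s (F.L m) (Pn (F.L m) y) ω) (pJ (i * 2 ^ q) ((i + 1) * 2 ^ q)) (D33 μ s F E c m p p' q i y ω) := by
  obtain ⟨h1, h2⟩ := chg_le33 h hc hη
  have hp' : δ * m ≤ p' := h.hp.trans (by exact_mod_cast h.hpp)
  exact Zs_base5 F.dl (F.B m) (2 ^ p) (by positivity) (hD p' hp' (h1.trans h2)) (dvd96 h1 i) (dvd96 h1 (i + 1)) ω

/-- **THE TOP OF E5**, at a fixed length. -/
theorem bas_of33 {w : ℕ → ℝ} {c₀ a ε : ℝ} {m : ℕ} (R : Reg46 E w c₀ Θ δ a ε ((2 ^ m : ℕ) : ℝ)) (hc : 0 < c)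
    (hcΘ : c ≤ Θ) (hη : 0 ≤ η) (hε : 2 * ε ≤ c / 128) (hε₁0 : 0 ≤ ε₁) (hε₁ : ε₁ ≤ c / 128)
    (hF : F.Ok Θ m) (hD : DeepB F E δ c m) (hst : StB μ s F E Θ δ c η ε₁ m) (hdx : DxB μ s F E Θ δ c η m) :
    BasN μ s F E Θ δ c η (c / 64) m := by
  intro p p' q i hC hi
  have hN := R.N1
  have hN0 := R.N0
  have hN1 : (1 : ℝ) ≤ ((2 ^ m : ℕ) : ℝ) := hN.le
  have e0 : avy (F.ys m) (fun y => ∫ ω, gv (wm μ s (F.L m) (Pn (F.L m) y) ω)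
      (Zs μ s (F.L m) (Pn (F.L m) y) F.dl (F.B m) (2 ^ p) (2 ^ sg96 E c m p') (F.R m) (i * 2 ^ q) ((i + 1) * 2 ^ q) ω -
        Zs μ s (F.L m) (Pn (F.L m) y) F.dl (F.B m) (2 ^ p') (2 ^ sg96 E c m p') (F.R m) (i * 2 ^ q) ((i + 1) * 2 ^ q) ω)
          ∂(Pm μ (F.L m))) ≤
      avy (F.ys m) (fun y => ∫ ω, gv (wm μ s (F.L m) (Pn (F.L m) y) ω)
        (cE (wm μ s (F.L m) (Pn (F.L m) y) ω) (pJ (i * 2 ^ q) ((i + 1) * 2 ^ q)) (D33 μ s F E c m p p' q i y ω)) ∂(Pm μ (F.L m))) := by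
    refine avy_mono fun y hy => le_of_eq ?_
    have := ne_Pn (hF.hy y hy)
    refine integral_congr_ae (Filter.Eventually.of_forall fun ω => ?_)
    beta_reduce
    rw [bas_eq33 hc.le hη hD hC y ω]
  refine e0.trans ((hst p p' q i hC hi).trans ?_)
  have hx := hdx p p' q i hC hi
  obtain ⟨x, hxd⟩ : ∃ x, x = dx33 μ s F E c m p p' q i := ⟨_, rfl⟩
  rw [← hxd] at hx ⊢
  have hE := R.Epos (2 ^ q)
  have hE1 := R.E1 (2 ^ q)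
  have hNe : 0 ≤ ((2 ^ m : ℕ) : ℝ) ^ ε₁ := Real.rpow_nonneg hN0.le _
  obtain ⟨U, hU⟩ : ∃ U, U = (2 : ℝ) ^ q * ((2 ^ m : ℕ) : ℝ) ^ (Θ - c / 32 + ε₁) := ⟨_, rfl⟩
  have h4 : ((2 ^ m : ℕ) : ℝ) ^ ε₁ / E (2 ^ q) * (2 ^ q * (E (2 ^ q) * ((2 ^ m : ℕ) : ℝ) ^ (Θ - c / 32))) = U := by
    rw [hU, Real.rpow_add hN0]
    field_simp
  have hq1 : (1 : ℝ) ≤ 2 ^ q := one_le_pow₀ one_le_two
  have hT : (1 : ℝ) ≤ ((2 ^ m : ℕ) : ℝ) ^ (Θ - c / 32 + ε₁) := Real.one_le_rpow hN1 (by linarith)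
  have h5 : ((2 ^ m : ℕ) : ℝ) ^ ε₁ / E (2 ^ q) ≤ U := by
    calc ((2 ^ m : ℕ) : ℝ) ^ ε₁ / E (2 ^ q) ≤ ((2 ^ m : ℕ) : ℝ) ^ ε₁ := div_le_self hNe hE1
      _ ≤ ((2 ^ m : ℕ) : ℝ) ^ (Θ - c / 32 + ε₁) := Real.rpow_le_rpow_of_exponent_le hN1 (by linarith)
      _ ≤ U := by
        rw [hU]
        exact le_mul_of_one_le_left (by linarith) hq1
  have h6 : (1 : ℝ) ≤ U := by
    rw [hU]
    exact one_le_mul_of_one_le_of_one_le hq1 hT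
  have h7 : 256 * U ≤ 2 ^ q * ((2 ^ m : ℕ) : ℝ) ^ (Θ - c / 64) := by
    have e1 : ((2 ^ m : ℕ) : ℝ) ^ ε * ((2 ^ m : ℕ) : ℝ) ^ ε * ((2 ^ m : ℕ) : ℝ) ^ (Θ - c / 32 + ε₁) ≤
        ((2 ^ m : ℕ) : ℝ) ^ (Θ - c / 64) := by
      rw [← Real.rpow_add hN0, ← Real.rpow_add hN0]
      exact Real.rpow_le_rpow_of_exponent_le hN1 (by linarith)
    have e2 : (256 : ℝ) ≤ ((2 ^ m : ℕ) : ℝ) ^ ε * ((2 ^ m : ℕ) : ℝ) ^ ε := by
      have hK := R.K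
      nlinarith
    have e3 : 256 * ((2 ^ m : ℕ) : ℝ) ^ (Θ - c / 32 + ε₁) ≤ ((2 ^ m : ℕ) : ℝ) ^ (Θ - c / 64) :=
      (mul_le_mul_of_nonneg_right e2 (Real.rpow_nonneg hN0.le _)).trans e1
    calc 256 * U = 2 ^ q * (256 * ((2 ^ m : ℕ) : ℝ) ^ (Θ - c / 32 + ε₁)) := by
          rw [hU]
          ring
      _ ≤ _ := mul_le_mul_of_nonneg_left e3 (by positivity)
  have h8 : ((2 ^ m : ℕ) : ℝ) ^ ε₁ / E (2 ^ q) * x ≤ 64 * U + U := by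
    calc ((2 ^ m : ℕ) : ℝ) ^ ε₁ / E (2 ^ q) * x ≤ ((2 ^ m : ℕ) : ℝ) ^ ε₁ / E (2 ^ q) *
          (64 * (2 ^ q * (E (2 ^ q) * ((2 ^ m : ℕ) : ℝ) ^ (Θ - c / 32))) + 1) := mul_le_mul_of_nonneg_left hx (div_nonneg hNe hE.le)
      _ = 64 * (((2 ^ m : ℕ) : ℝ) ^ ε₁ / E (2 ^ q) * (2 ^ q * (E (2 ^ q) * ((2 ^ m : ℕ) : ℝ) ^ (Θ - c / 32)))) +
          ((2 ^ m : ℕ) : ℝ) ^ ε₁ / E (2 ^ q) := by ring
      _ ≤ 64 * U + U := by
          rw [h4]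
          linarith
  linarith

/-- **THE TOP OF E5**: the strip and the sums over the rows give the change of the base window. -/
theorem basN33 [IsProbabilityMeasure μ] {F : ℝ → ℝ → ℝ → Frm96} {c₀ C : ℝ} (hR : RegP46 μ s c₀ Θ) (hδ : 0 < δ) (hc : 0 < c)
    (hcΘ : c ≤ Θ) (hη : 0 ≤ η) (hC : 0 < C) (hok : Est fun ι β γ m => (F ι β γ).Ok Θ m)
    (hdeep : Est fun ι β γ m => DeepB (F ι β γ) (EE μ s) δ c m)
    (hst : Est fun ι β γ m => StB μ s (F ι β γ) (EE μ s) Θ δ c η (C * ι) m)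
    (hdx : Est fun ι β γ m => DxB μ s (F ι β γ) (EE μ s) Θ δ c η m) :
    Est fun ι β γ m => BasN μ s (F ι β γ) (EE μ s) Θ δ c η (c / 64) m := by
  obtain ⟨a, -, -, h1⟩ := hR.est hδ (k := 1) one_pos
  have h2 : Est fun ι _ _ _ => 0 < ι ∧ C * ι ≤ c / 128 ∧ 2 * (1 * ι) ≤ c / 128 := by
    refine Est.iota ?_
    refine ⟨min (c / 128 / C) (c / 256), by positivity, fun ι hι h => ⟨hι, ?_, ?_⟩⟩
    · have h3 := h.trans (min_le_left _ _)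
      rw [le_div_iff₀ hC] at h3
      linarith
    · linarith [h.trans (min_le_right _ _)]
  refine ((h1.and h2).and ((hok.and hdeep).and (hst.and hdx))).mono fun ι β γ _ _ _ => Eventually.of_forall fun m h => ?_
  obtain ⟨⟨⟨h3, -⟩, h4, h5, h6⟩, ⟨h7, h8⟩, h9, h10⟩ := h
  exact bas_of33 h3 hc hcΘ hη h6 (by positivity) h5 h7 h8 h9 h10

end

end Pool.Agent.W_7d29a1_C0.Asm96
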