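import Pool.Agent.W_7d29a1_C0.Base5C

/-!
MP_7d29a1_pr, [CURV0], section 7 (E5), helper5: the second moment of the change of base in the mean over the environment, the signs and
the pinned ends. `int_D5`: at most eight times the second moments of the four sums (third order part, double ties, odd part, second
part) plus the clipping errors of the two bases.
-/

set_option autoImplicit false
set_option linter.unusedSectionVars false

namespace Pool.Agent.W_7d29a1_C0.Base5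

open Finset MeasureTheory Pool.Agent.W_7d29a1_F Pool.Agent.W_7d29a1_X Pool.Agent.W_7d29a1_H
open Pool.W7d29a1.C0 Pool.W7d29a1.C0.VT31 Pool.Agent.W_7d29a1_C0 Pool.Agent.W_7d29a1_C0.Mod92

noncomputable section

variable {μ : Measure ℝ} {s : ℝ} {N : ℕ}

/-- The second moment of a family of functionals, in the mean. -/
def x5 (μ : Measure ℝ) (s : ℝ) (N : ℕ) (ys : Finset ℕ) (Φ : ∀ y : ℕ, Env × Finset ℕ → Px (Pn N y) → ℝ) : ℝ :=
  avy ys fun y => ∫ ω, gm (wm μ s N (Pn N y) ω) (fun S => Φ y ω S ^ 2) ∂(Pm μ N)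

/-- The clipping error of the base `b` at the row `j`, in the mean. -/
def cla5 (μ : Measure ℝ) (s : ℝ) (N : ℕ) (ys : Finset ℕ) (δ B : ℝ) (b0 b j : ℕ) : ℝ :=
  avy ys fun y => ∫ ω, cl5 μ s N (Pn N y) δ B b0 b ω j ∂(Pm μ N)

theorem avy_sum5 {ι : Type*} (ys : Finset ℕ) (I : Finset ι) (Φ : ι → ℕ → ℝ) :
    avy ys (fun y => ∑ i ∈ I, Φ i y) = ∑ i ∈ I, avy ys (Φ i) := by
  unfold avy
  rw [sum_comm, mul_sum]

section pin

variable {Q : Finset (Finset ℕ)} [Nonempty (Px Q)] [IsProbabilityMeasure μ]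

theorem abs_gm5 (w : Px Q → ℝ) {f : Px Q → ℝ} {M : ℝ} (hf : ∀ S, |f S| ≤ M) : |gm w f| ≤ M := by
  refine (abs_gm_le w f).trans ?_
  refine (gm_mono w (g := fun _ => M) hf).trans (le_of_eq ?_)
  exact gm_const w M

/-- The mean of the square of a bounded measurable functional is integrable. -/
theorem int_sq5 {Φ : Env × Finset ℕ → Px Q → ℝ} {M : ℝ} (hm : ∀ S, Measurable fun ω => Φ ω S) (hb : ∀ ω S, |Φ ω S| ≤ M) :
    Integrable (fun ω => gm (wm μ s N Q ω) fun S => Φ ω S ^ 2) (Pm μ N) :=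
  int_bdd (M := M ^ 2) (meas_gm meas_wm fun S => (hm S).pow_const 2) fun ω => abs_gm5 _ fun S => by
    rw [abs_pow]
    exact pow_le_pow_left₀ (abs_nonneg _) (hb ω S) 2

theorem int_cl5 {δ B : ℝ} (hB : 0 ≤ B) (b0 b j : ℕ) : Integrable (fun ω => cl5 μ s N Q δ B b0 b ω j) (Pm μ N) := by
  refine int_bdd (M := B / 2 + B / 2) (meas_gm meas_wm fun S => ((meas_gg δ B b j S).sub (meas_ge5 δ B b0 b j S)).abs) fun ω => abs_gm5 _ fun S => ?_
  rw [abs_abs]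
  exact (abs_sub _ _).trans (add_le_add (abs_gg hB b ω j S) (abs_ge5 hB b0 b ω j S))

theorem abs_sum5 {ι : Type*} {T : Finset ι} {f : ι → ℝ} {K : ℝ} (h : ∀ j ∈ T, |f j| ≤ K) : |∑ j ∈ T, f j| ≤ T.card * K :=
  (abs_sum_le_sum_abs _ _).trans ((sum_le_sum h).trans (by rw [sum_const, nsmul_eq_mul]))

/-- One end. -/
theorem int_D5_pin {δ B : ℝ} (hB : 0 ≤ B) (b0 : ℕ) {b b' : ℕ} (hb : b ≤ b') (σ : ℕ) (R : Finset ℕ) (c d : ℕ) :
    ∫ ω, gm (wm μ s N Q ω) (fun S => D5 μ s N Q δ B b b' σ R c d ω S ^ 2) ∂(Pm μ N) ≤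
      8 * (∫ ω, gm (wm μ s N Q ω) (fun S => (∑ j ∈ Rw R c d, N5e μ s N Q δ B b0 b b' ω j S) ^ 2) ∂(Pm μ N) +
        ∫ ω, gm (wm μ s N Q ω) (fun S => (∑ j ∈ Rw R c d, N25e μ s N Q δ B b0 b b' ω j S) ^ 2) ∂(Pm μ N) +
        ∫ ω, gm (wm μ s N Q ω) (fun S => (∑ j ∈ Rw R c d, sr ω.2 j * M5e μ s N Q δ B b0 b b' ω j S) ^ 2) ∂(Pm μ N) +
        ∫ ω, gm (wm μ s N Q ω) (fun S => (∑ j ∈ Rw R c d, sr ω.2 j / 3 * R5e μ s N Q δ B b0 b b' σ ω j S) ^ 2) ∂(Pm μ N)) +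
      32 * (1 + B) * K5 B * (Rw R c d).card * ∑ j ∈ Rw R c d, (∫ ω, cl5 μ s N Q δ B b0 b ω j ∂(Pm μ N) +
        ∫ ω, cl5 μ s N Q δ B b0 b' ω j ∂(Pm μ N)) := by
  have i1 : Integrable (fun ω => gm (wm μ s N Q ω) fun S => (∑ j ∈ Rw R c d, N5e μ s N Q δ B b0 b b' ω j S) ^ 2) (Pm μ N) :=
    int_sq5 (fun S => Finset.measurable_fun_sum _ fun j _ => meas_N5e δ B b0 hb j S) fun ω S =>
      abs_sum5 fun j _ => abs_N5e hB b0 hb ω j S
  have i2 : Integrable (fun ω => gm (wm μ s N Q ω) fun S => (∑ j ∈ Rw R c d, N25e μ s N Q δ B b0 b b' ω j S) ^ 2) (Pm μ N) :=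
    int_sq5 (fun S => Finset.measurable_fun_sum _ fun j _ => meas_N25e δ B b0 b b' j S) fun ω S =>
      abs_sum5 fun j _ => abs_N25e hB b0 b b' ω j S
  have i3 : Integrable (fun ω => gm (wm μ s N Q ω) fun S => (∑ j ∈ Rw R c d, sr ω.2 j * M5e μ s N Q δ B b0 b b' ω j S) ^ 2)
      (Pm μ N) :=
    int_sq5 (fun S => Finset.measurable_fun_sum _ fun j _ => (meas_sr j).mul (meas_M5e δ B b0 b b' j S)) fun ω S =>
      abs_sum5 (K := K5 B) fun j _ => by
        rw [abs_mul, abs_sr, one_mul]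
        exact abs_M5e hB b0 b b' ω j S
  have i4 : Integrable (fun ω => gm (wm μ s N Q ω) fun S => (∑ j ∈ Rw R c d, sr ω.2 j / 3 * R5e μ s N Q δ B b0 b b' σ ω j S) ^ 2)
      (Pm μ N) :=
    int_sq5 (fun S => Finset.measurable_fun_sum _ fun j _ => ((meas_sr j).div_const 3).mul (meas_R5e δ B b0 b b' σ j S)) fun ω S =>
      abs_sum5 (K := K5 B) fun j _ => by
        rw [abs_mul, abs_div, abs_sr]
        have h1 := abs_R5e (μ := μ) (s := s) (N := N) (δ := δ) hB b0 b b' σ ω j S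
        have h2 : |(3 : ℝ)| = 3 := by norm_num
        rw [h2]
        linarith [abs_nonneg (R5e μ s N Q δ B b0 b b' σ ω j S)]
  have i5 : Integrable (fun ω => ∑ j ∈ Rw R c d, (cl5 μ s N Q δ B b0 b ω j + cl5 μ s N Q δ B b0 b' ω j)) (Pm μ N) :=
    integrable_finsetSum _ fun j _ => (int_cl5 hB b0 b j).add (int_cl5 hB b0 b' j)
  have i0 : Integrable (fun ω => gm (wm μ s N Q ω) fun S => D5 μ s N Q δ B b b' σ R c d ω S ^ 2) (Pm μ N) :=
    int_sq5 (fun S => meas_D5 δ B b b' σ R c d S) fun ω S => abs_D5 hB b b' σ R c d ω S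
  have h := integral_mono i0 ((((((i1.add i2).add i3).add i4).const_mul 8)).add (i5.const_mul (32 * (1 + B) * K5 B * (Rw R c d).card)))
    fun ω => gm_D5_le (μ := μ) (s := s) (N := N) (Q := Q) (δ := δ) hB b0 hb σ R c d ω
  refine h.trans (le_of_eq ?_)
  have e1 := integral_add (((((i1.add i2).add i3).add i4).const_mul 8)) (i5.const_mul (32 * (1 + B) * K5 B * (Rw R c d).card))
  refine e1.trans ?_
  congr 1
  · rw [integral_const_mul]
    congr 1
    refine (integral_add ((i1.add i2).add i3) i4).trans ?_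
    congr 1
    refine (integral_add (i1.add i2) i3).trans ?_
    congr 1
    exact integral_add i1 i2
  · rw [integral_const_mul]
    congr 1
    refine (integral_finsetSum _ fun j _ => (int_cl5 hB b0 b j).add (int_cl5 hB b0 b' j)).trans ?_
    exact sum_congr rfl fun j _ => integral_add (int_cl5 hB b0 b j) (int_cl5 hB b0 b' j)

end pin

/-- **The second moment of the change of base, in the mean.** -/
theorem int_D5 [IsProbabilityMeasure μ] {ys : Finset ℕ} (hys : ∀ y ∈ ys, y ≤ N) {δ B : ℝ} (hB : 0 ≤ B) (b0 : ℕ) {b b' : ℕ}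
    (hb : b ≤ b') (σ : ℕ) (R : Finset ℕ) (c d : ℕ) :
    x5 μ s N ys (fun y ω S => D5 μ s N (Pn N y) δ B b b' σ R c d ω S) ≤
      8 * (x5 μ s N ys (fun y ω S => ∑ j ∈ Rw R c d, N5e μ s N (Pn N y) δ B b0 b b' ω j S) +
        x5 μ s N ys (fun y ω S => ∑ j ∈ Rw R c d, N25e μ s N (Pn N y) δ B b0 b b' ω j S) +
        x5 μ s N ys (fun y ω S => ∑ j ∈ Rw R c d, sr ω.2 j * M5e μ s N (Pn N y) δ B b0 b b' ω j S) +
        x5 μ s N ys (fun y ω S => ∑ j ∈ Rw R c d, sr ω.2 j / 3 * R5e μ s N (Pn N y) δ B b0 b b' σ ω j S)) +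
      32 * (1 + B) * K5 B * (Rw R c d).card * ∑ j ∈ Rw R c d, (cla5 μ s N ys δ B b0 b j + cla5 μ s N ys δ B b0 b' j) := by
  unfold x5 cla5
  have e : ∑ j ∈ Rw R c d, (avy ys (fun y => ∫ ω, cl5 μ s N (Pn N y) δ B b0 b ω j ∂(Pm μ N)) +
      avy ys (fun y => ∫ ω, cl5 μ s N (Pn N y) δ B b0 b' ω j ∂(Pm μ N))) =
      avy ys fun y => ∑ j ∈ Rw R c d, (∫ ω, cl5 μ s N (Pn N y) δ B b0 b ω j ∂(Pm μ N) +
        ∫ ω, cl5 μ s N (Pn N y) δ B b0 b' ω j ∂(Pm μ N)) := by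
    rw [avy_sum5]
    exact sum_congr rfl fun j _ => (avy_add _ _ _).symm
  rw [e, ← avy_add, ← avy_add, ← avy_add, ← avy_mul, ← avy_mul, ← avy_add]
  refine avy_mono fun y hy => ?_
  have := ne_Pn (hys y hy)
  exact int_D5_pin hB b0 hb σ R c d

end

end Pool.Agent.W_7d29a1_C0.Base5
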