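import Pool.Agent.W_7d29a1_C0.BoxG41C

/-!
CURV0 (MP_7d29a1_pr), leaf E1e (list of helper19), abstract part: THE BOX GEOMETRY of a slab (any direction). Boxes are intervals of the
width `R` for the position at the row `m0`; `chT` is 1 within `3 R` of the line of the drift through one of the boxes `β`, and 0
elsewhere; `J` = the rows of the slab, `pa x m` = the position of `x` at the row `m`, `nv p x` = the visit of the site `p` (`Vis`).
(i) `QV_chT`: the quadratic variation of the localised field; (ii) `far_zero`, `not_OutB`: the far part vanishes along a path which has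
its box in `β` and is straight over `J`; (iii) `abs_far_le`: the far part is at most `M 1(out of the tube at some row)`;
`OutB_sep`: a path out of the tube of the boxes of straight paths is at a distance `> R` of all of them at one row of `J`. (helper73)
-/

set_option autoImplicit false
set_option linter.unusedSectionVars false
set_option linter.unusedVariables false

namespace Pool.W7d29a1.C0.T73

open Finset MeasureTheory Pool.Agent.W_7d29a1_F Pool.W7d29a1.C0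

noncomputable section

variable {X ι : Type*} [Fintype ι]

/-- `nv p x` is the visit of the site `p` by the path `x`, `pa x m` its position at the row `m`. -/
structure Vis (pa : X → ℤ → ℤ) (nv : Pt → X → ℝ) : Prop where
  nonneg : ∀ p x, 0 ≤ nv p x
  le_one : ∀ p x, nv p x ≤ 1
  on : ∀ p x, nv p x ≠ 0 → pa x p.1 = p.2

theorem Vis.comp {Y : Type*} {pa : X → ℤ → ℤ} {nv : Pt → X → ℝ} (h : Vis pa nv) (g : Y → X) :
    Vis (fun y => pa (g y)) fun p y => nv p (g y) :=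
  ⟨fun p y => h.nonneg p (g y), fun p y => h.le_one p (g y), fun p y => h.on p (g y)⟩

/-- The distance of the site `p` to the line of the drift through `(m0, z)`. -/
def dl (sl : ℝ) (m0 : ℤ) (z : ℝ) (p : Pt) : ℝ := |(p.2 : ℝ) - z - sl * ((p.1 : ℝ) - m0)|

open Classical in
/-- The tube of the boxes `β`: within `3 R` of the line of the drift of one of them. -/
def chT (sl R : ℝ) (m0 : ℤ) {n : ℕ} (β : ι → Fin (n + 1)) (p : Pt) : ℝ :=
  if ∃ i, dl sl m0 (R * ((β i : ℕ) : ℝ)) p ≤ 3 * R then 1 else 0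

/-- The box of a path. -/
def bx (pa : X → ℤ → ℤ) (R : ℝ) (m0 : ℤ) (n : ℕ) (x : X) : Fin (n + 1) :=
  ⟨min n ⌊(pa x m0 : ℝ) / R⌋₊, by omega⟩

/-- Out of the tube of `β` at some row of `J`. -/
def OutB (pa : X → ℤ → ℤ) (sl R : ℝ) (m0 : ℤ) (J : Finset ℤ) {n : ℕ} (β : ι → Fin (n + 1)) (x : X) : Prop :=
  ∃ m ∈ J, ∀ i, 3 * R < dl sl m0 (R * ((β i : ℕ) : ℝ)) (m, pa x m)

/-- Straight over `J`: at every row of `J` within `R` of the line of the drift through its position at the row `m0`. -/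
def Str (pa : X → ℤ → ℤ) (sl R : ℝ) (m0 : ℤ) (J : Finset ℤ) (x : X) : Prop :=
  ∀ m ∈ J, dl sl m0 (pa x m0) (m, pa x m) ≤ R

/-- A path which is not out of the tube sees only sites of the tube. -/
theorem OutB_iff {pa : X → ℤ → ℤ} {sl R : ℝ} {m0 : ℤ} {J : Finset ℤ} {n : ℕ} {β : ι → Fin (n + 1)} {x : X} :
    OutB pa sl R m0 J β x ↔ ∃ m ∈ J, chT sl R m0 β (m, pa x m) ≠ 1 := by
  unfold OutB chT
  refine exists_congr fun m => and_congr_right fun _ => ?_
  constructor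
  · intro h
    rw [if_neg (by push Not; exact h)]
    norm_num
  · intro h i
    by_contra h'
    exact h (if_pos ⟨i, not_lt.1 h'⟩)

section Geo

variable {pa : X → ℤ → ℤ} {nv : Pt → X → ℝ} {sl R : ℝ} {m0 : ℤ} {n : ℕ} {J : Finset ℤ} {S : Finset Pt}

theorem chT_nonneg (β : ι → Fin (n + 1)) (p : Pt) : 0 ≤ chT sl R m0 β p := by
  unfold chT
  split_ifs <;> norm_num

theorem chT_le_one (β : ι → Fin (n + 1)) (p : Pt) : chT sl R m0 β p ≤ 1 := by
  unfold chT
  split_ifs <;> norm_num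

/-- The number of the sites of a row within `r` of a point. -/
theorem card_near {m : ℤ} {a r : ℝ} (hr : 0 ≤ r) (hS : ∀ p ∈ S, p.1 = m ∧ |(p.2 : ℝ) - a| ≤ r) :
    (S.card : ℝ) ≤ 2 * r + 1 := by
  have h1 : S ⊆ (Icc ⌈a - r⌉ ⌊a + r⌋).image fun y => (m, y) := fun p hp => by
    obtain ⟨h2, h3⟩ := hS p hp
    rw [abs_le] at h3
    rw [mem_image]
    refine ⟨p.2, mem_Icc.2 ⟨Int.ceil_le.2 (by linarith), Int.le_floor.2 (by linarith)⟩, ?_⟩
    rw [← h2]
  have h2 := (card_le_card h1).trans card_image_le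
  rw [Int.card_Icc] at h2
  have h3 : (((⌊a + r⌋ + 1 - ⌈a - r⌉).toNat : ℕ) : ℝ) ≤ 2 * r + 1 := by
    rcases le_or_gt 0 (⌊a + r⌋ + 1 - ⌈a - r⌉) with h | h
    · have h4 : (((⌊a + r⌋ + 1 - ⌈a - r⌉).toNat : ℕ) : ℝ) = ((⌊a + r⌋ + 1 - ⌈a - r⌉ : ℤ) : ℝ) := by
        exact_mod_cast congrArg (fun z : ℤ => (z : ℝ)) (Int.toNat_of_nonneg h)
      rw [h4]
      push_cast
      linarith [Int.floor_le (a + r), Int.le_ceil (a - r)]
    · rw [Int.toNat_of_nonpos h.le]
      simp only [Nat.cast_zero]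
      linarith
  have h4 : (S.card : ℝ) ≤ (((⌊a + r⌋ + 1 - ⌈a - r⌉).toNat : ℕ) : ℝ) := by exact_mod_cast h2
  linarith

open Classical in
/-- The number of the sites of the slab in the tube. -/
theorem card_tube (hS : ∀ p ∈ S, p.1 ∈ J) (hR : 1 ≤ R) (β : ι → Fin (n + 1)) :
    ((S.filter fun p => ∃ i, dl sl m0 (R * ((β i : ℕ) : ℝ)) p ≤ 3 * R).card : ℝ) ≤ 7 * Fintype.card ι * R * J.card := by
  have h1 : (S.filter fun p => ∃ i, dl sl m0 (R * ((β i : ℕ) : ℝ)) p ≤ 3 * R) ⊆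
      (univ : Finset ι).biUnion fun i => J.biUnion fun m =>
        S.filter fun p => p.1 = m ∧ dl sl m0 (R * ((β i : ℕ) : ℝ)) p ≤ 3 * R := fun p hp => by
    obtain ⟨h2, i, h3⟩ := mem_filter.1 hp
    rw [mem_biUnion]
    refine ⟨i, mem_univ i, ?_⟩
    rw [mem_biUnion]
    exact ⟨p.1, hS p h2, mem_filter.2 ⟨h2, rfl, h3⟩⟩
  have h2 : ∀ (i : ι) (m : ℤ), ((S.filter fun p => p.1 = m ∧ dl sl m0 (R * ((β i : ℕ) : ℝ)) p ≤ 3 * R).card : ℝ) ≤ 7 * R :=
    fun i m => by
      refine (card_near (m := m) (a := R * ((β i : ℕ) : ℝ) + sl * ((m : ℝ) - m0)) (r := 3 * R) (by linarith)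
        fun p hp => ?_).trans (by linarith)
      obtain ⟨_, h3, h4⟩ := mem_filter.1 hp
      refine ⟨h3, ?_⟩
      unfold dl at h4
      rw [h3] at h4
      rw [show (p.2 : ℝ) - (R * ((β i : ℕ) : ℝ) + sl * ((m : ℝ) - m0)) =
        (p.2 : ℝ) - R * ((β i : ℕ) : ℝ) - sl * ((m : ℝ) - m0) by ring]
      exact h4
  have h3 : ∀ i : ι, (((J.biUnion fun m =>
      S.filter fun p => p.1 = m ∧ dl sl m0 (R * ((β i : ℕ) : ℝ)) p ≤ 3 * R).card : ℕ) : ℝ) ≤ 7 * R * J.card := fun i => by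
    have e1 : (((J.biUnion fun m =>
        S.filter fun p => p.1 = m ∧ dl sl m0 (R * ((β i : ℕ) : ℝ)) p ≤ 3 * R).card : ℕ) : ℝ) ≤
        ∑ m ∈ J, ((S.filter fun p => p.1 = m ∧ dl sl m0 (R * ((β i : ℕ) : ℝ)) p ≤ 3 * R).card : ℝ) := by
      exact_mod_cast card_biUnion_le
    refine e1.trans ((sum_le_sum fun m _ => h2 i m).trans_eq ?_)
    rw [sum_const, nsmul_eq_mul]
    ring
  have e2 : ((S.filter fun p => ∃ i, dl sl m0 (R * ((β i : ℕ) : ℝ)) p ≤ 3 * R).card : ℝ) ≤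
      ∑ i : ι, (((J.biUnion fun m =>
        S.filter fun p => p.1 = m ∧ dl sl m0 (R * ((β i : ℕ) : ℝ)) p ≤ 3 * R).card : ℕ) : ℝ) := by
    exact_mod_cast (card_le_card h1).trans card_biUnion_le
  refine e2.trans ((sum_le_sum fun i _ => h3 i).trans_eq ?_)
  rw [sum_const, card_univ, nsmul_eq_mul]
  ring

/-- **(i) The quadratic variation of the localised field.** -/
theorem QV_chT (hS : ∀ p ∈ S, p.1 ∈ J) (hR : 1 ≤ R) (hJ : J.Nonempty) {c : Pt → Env → ℝ} {M : ℝ} (η : Env)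
    (hc : ∀ p ∈ S, |c p η| ≤ M / J.card) (β : ι → Fin (n + 1)) :
    H41.QV S (H41.cut (chT sl R m0 β) c) η ≤ 7 * Fintype.card ι * R * M ^ 2 / J.card := by
  classical
  have hK' : (0 : ℝ) < J.card := Nat.cast_pos.2 hJ.card_pos
  have e1 : H41.QV S (H41.cut (chT sl R m0 β) c) η =
      ∑ p ∈ S.filter (fun p => ∃ i, dl sl m0 (R * ((β i : ℕ) : ℝ)) p ≤ 3 * R), c p η ^ 2 := by
    unfold H41.QV H41.cut
    rw [sum_filter]
    refine sum_congr rfl fun p _ => ?_
    unfold chT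
    split_ifs with h
    · rw [one_mul]
    · rw [zero_mul]
      norm_num
  rw [e1]
  have e2 : ∀ p ∈ S.filter (fun p => ∃ i, dl sl m0 (R * ((β i : ℕ) : ℝ)) p ≤ 3 * R), c p η ^ 2 ≤ (M / J.card) ^ 2 := fun p hp =>
    sq_le_sq' (by linarith [(abs_le.1 (hc p (mem_filter.1 hp).1)).1]) (abs_le.1 (hc p (mem_filter.1 hp).1)).2
  refine (sum_le_card_nsmul _ _ _ e2).trans ?_
  rw [nsmul_eq_mul]
  refine (mul_le_mul_of_nonneg_right (card_tube hS hR β) (sq_nonneg _)).trans_eq ?_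
  field_simp

/-- The box of the path contains it at the row `m0`. -/
theorem bx_spec (hR : 1 ≤ R) {x : X} (h0 : 0 ≤ pa x m0) (h1 : pa x m0 ≤ n) :
    |(pa x m0 : ℝ) - R * ((bx pa R m0 n x : ℕ) : ℝ)| ≤ R := by
  have hR0 : 0 < R := by linarith
  have h0' : (0 : ℝ) ≤ pa x m0 := by exact_mod_cast h0
  have h1' : (pa x m0 : ℝ) ≤ n := by exact_mod_cast h1
  have h2 : ⌊(pa x m0 : ℝ) / R⌋₊ ≤ n := by
    refine Nat.floor_le_of_le ?_
    rw [div_le_iff₀ hR0]
    nlinarith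
  have e : ((bx pa R m0 n x : ℕ) : ℝ) = ⌊(pa x m0 : ℝ) / R⌋₊ := by
    unfold bx
    simp only
    rw [min_eq_right h2]
  rw [e]
  have h3 := Nat.floor_le (div_nonneg h0' hR0.le)
  have h4 := (Nat.lt_floor_add_one ((pa x m0 : ℝ) / R)).le
  rw [le_div_iff₀ hR0] at h3
  rw [div_le_iff₀ hR0] at h4
  rw [abs_le]
  constructor <;> nlinarith

/-- A straight path is in the tube of its box. -/
theorem not_OutB (hR : 1 ≤ R) {β : ι → Fin (n + 1)} {x : X} (h0 : 0 ≤ pa x m0) (h1 : pa x m0 ≤ n) {i : ι}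
    (hi : β i = bx pa R m0 n x) (hs : Str pa sl R m0 J x) : ¬ OutB pa sl R m0 J β x := by
  rintro ⟨m, m1, hm⟩
  have h2 := hm i
  have h3 := hs m m1
  have h4 := bx_spec (pa := pa) hR h0 h1
  rw [hi] at h2
  unfold dl at h2 h3
  simp only at h2 h3
  rw [abs_le] at h3 h4
  rw [lt_abs] at h2
  rcases h2 with h2 | h2 <;> linarith [h3.1, h3.2, h4.1, h4.2]

/-- **A path out of the tube of the boxes of straight paths is far from all of them at one row.** -/
theorem OutB_sep (hR : 1 ≤ R) {x : ι → X} {z : X} (h0 : ∀ i, 0 ≤ pa (x i) m0) (h1 : ∀ i, pa (x i) m0 ≤ n)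
    (hs : ∀ i, Str pa sl R m0 J (x i)) (h : OutB pa sl R m0 J (fun i => bx pa R m0 n (x i)) z) :
    ∃ m ∈ J, ∀ i, R < |((pa z m - pa (x i) m : ℤ) : ℝ)| := by
  obtain ⟨m, m1, hm⟩ := h
  refine ⟨m, m1, fun i => ?_⟩
  have h2 := hm i
  have h3 := hs i m m1
  have h4 := bx_spec (pa := pa) hR (h0 i) (h1 i)
  unfold dl at h2 h3
  simp only at h2 h3
  rw [abs_le] at h3 h4
  rw [lt_abs] at h2 ⊢
  push_cast
  rcases h2 with h2 | h2
  · left
    linarith [h3.1, h3.2, h4.1, h4.2]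
  · right
    linarith [h3.1, h3.2, h4.1, h4.2]

theorem chT_of_not {β : ι → Fin (n + 1)} {x : X} (h : ¬ OutB pa sl R m0 J β x) {p : Pt} (h1 : p.1 ∈ J)
    (h3 : pa x p.1 = p.2) : chT sl R m0 β p = 1 := by
  unfold chT
  rw [if_pos]
  by_contra h4
  push Not at h4
  exact h ⟨p.1, h1, fun i => by rw [h3]; exact h4 i⟩

/-- **(ii) The far part vanishes along a path in the tube.** -/
theorem far_zero (hv : Vis pa nv) (hS : ∀ p ∈ S, p.1 ∈ J) (c : Pt → Env → ℝ) (η : Env) {β : ι → Fin (n + 1)}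
    {x : X} (h : ¬ OutB pa sl R m0 J β x) : H19.Cf S (H41.cut' (chT sl R m0 β) c) nv η x = 0 := by
  unfold H19.Cf
  simp only [Finset.sum_apply, Pi.smul_apply, smul_eq_mul]
  refine sum_eq_zero fun p hp => ?_
  by_cases h3 : nv p x = 0
  · rw [h3, mul_zero]
  · unfold H41.cut'
    rw [chT_of_not h (hS p hp) (hv.on p x h3)]
    ring

/-- The visits of a path in a slab: at most one for each row. -/
theorem sum_nv_le (hv : Vis pa nv) (hS : ∀ p ∈ S, p.1 ∈ J) (x : X) : ∑ p ∈ S, nv p x ≤ J.card := by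
  classical
  have e : ∀ p ∈ S, nv p x ≤ if pa x p.1 = p.2 then 1 else 0 := fun p _ => by
    split_ifs with h
    · exact hv.le_one p x
    · by_contra h'
      exact h (hv.on p x fun h0 => h' h0.le)
  refine (sum_le_sum e).trans ?_
  rw [sum_ite, sum_const_zero, add_zero, sum_const, nsmul_eq_mul, mul_one]
  have h1 : (S.filter fun p => pa x p.1 = p.2) ⊆ J.image fun m => (m, pa x m) := fun p hp => by
    obtain ⟨h2, h3⟩ := mem_filter.1 hp
    rw [mem_image]
    exact ⟨p.1, hS p h2, by rw [h3]⟩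
  have h2 := (card_le_card h1).trans card_image_le
  exact_mod_cast h2

theorem abs_cut'_le (β : ι → Fin (n + 1)) {c : Pt → Env → ℝ} {p : Pt} {η : Env} {D : ℝ} (h : |c p η| ≤ D) :
    |H41.cut' (chT sl R m0 β) c p η| ≤ D := by
  unfold H41.cut'
  rw [abs_mul]
  have h2 : |1 - chT sl R m0 β p| ≤ 1 := by
    rw [abs_le]
    constructor <;> linarith [chT_nonneg (sl := sl) (R := R) (m0 := m0) β p, chT_le_one (sl := sl) (R := R) (m0 := m0) β p]
  calc |1 - chT sl R m0 β p| * |c p η| ≤ 1 * D := mul_le_mul h2 h (abs_nonneg _) zero_le_one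
    _ = D := one_mul _

open Classical in
/-- **(iii) The size of the far part.** -/
theorem abs_far_le (hv : Vis pa nv) (hS : ∀ p ∈ S, p.1 ∈ J) (hJ : J.Nonempty) {c : Pt → Env → ℝ} {M : ℝ} (hM : 0 ≤ M)
    (η : Env) (hc : ∀ p ∈ S, |c p η| ≤ M / J.card) (β : ι → Fin (n + 1)) (x : X) :
    |H19.Cf S (H41.cut' (chT sl R m0 β) c) nv η x| ≤ M * (if OutB pa sl R m0 J β x then 1 else 0) := by
  by_cases h : OutB pa sl R m0 J β x
  · rw [if_pos h, mul_one]
    have hK' : (0 : ℝ) < J.card := Nat.cast_pos.2 hJ.card_pos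
    unfold H19.Cf
    simp only [Finset.sum_apply, Pi.smul_apply, smul_eq_mul]
    refine (abs_sum_le_sum_abs _ _).trans ?_
    have e : ∀ p ∈ S, |H41.cut' (chT sl R m0 β) c p η * nv p x| ≤ M / J.card * nv p x := fun p hp => by
      rw [abs_mul, abs_of_nonneg (hv.nonneg p x)]
      exact mul_le_mul_of_nonneg_right (abs_cut'_le β (hc p hp)) (hv.nonneg p x)
    refine (sum_le_sum e).trans ?_
    rw [← mul_sum]
    refine (mul_le_mul_of_nonneg_left (sum_nv_le hv hS x) (div_nonneg hM hK'.le)).trans_eq ?_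
    field_simp
  · rw [if_neg h, mul_zero, far_zero hv hS c η h, abs_zero]

/-- The whole path functional of the field. -/
theorem abs_Cf_vis (hv : Vis pa nv) (hS : ∀ p ∈ S, p.1 ∈ J) (hJ : J.Nonempty) {c : Pt → Env → ℝ} {M : ℝ} (hM : 0 ≤ M)
    (η : Env) (hc : ∀ p ∈ S, |c p η| ≤ M / J.card) (x : X) : |H19.Cf S c nv η x| ≤ M := by
  have hK' : (0 : ℝ) < J.card := Nat.cast_pos.2 hJ.card_pos
  unfold H19.Cf
  simp only [Finset.sum_apply, Pi.smul_apply, smul_eq_mul]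
  refine (abs_sum_le_sum_abs _ _).trans ?_
  have e : ∀ p ∈ S, |c p η * nv p x| ≤ M / J.card * nv p x := fun p hp => by
    rw [abs_mul, abs_of_nonneg (hv.nonneg p x)]
    exact mul_le_mul_of_nonneg_right (hc p hp) (hv.nonneg p x)
  refine (sum_le_sum e).trans ?_
  rw [← mul_sum]
  refine (mul_le_mul_of_nonneg_left (sum_nv_le hv hS x) (div_nonneg hM hK'.le)).trans_eq ?_
  field_simp

end Geo

end

end Pool.W7d29a1.C0.T73
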