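import Pool.Agent.W_7d29a1_C0.Rob43B
import Pool.Agent.W_7d29a1_C0.Tube73

/-!
CURV0 (MP_7d29a1_pr), GS one kick, point (6): WHEN THE SLAB FIELD DOES NOT REPRODUCE THE RESPONSE (abstract part). `dv w J θ pm g S` is the
distance of the average, over the rows `m` of the slab, of the conditional means `cE w (pm m) g` to `g` itself, at the path `S`;
`T = cE2 w p (|g z - g z'|)`, `p` coarser than all the `pm m` (everything behind the end of the slab), a function of `p`.
`cE_dv_le : cE w p dv ≤ 2 T` (exact, no union over the rows); so a path with `dv > τ` has `T ≥ δ`, up to conditional mass `2 δ / τ`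
given anything coarser than `p` (`cE_rare_le`, `gm_rare_le`); `bad_fib`: the same for the conditional mass of such paths;
`r_le`: the tilt `C_β - u₀` of the kick is `2 dv` on the tube. (helper73)
-/

set_option autoImplicit false
set_option linter.unusedSectionVars false
set_option linter.unusedVariables false

namespace Pool.W7d29a1.C0.Bd73

open Finset MeasureTheory Pool.Agent.W_7d29a1_F Pool.W7d29a1.C0
open Pool.W7d29a1.C0 (gz gm gm_mono gm_const)
open Pool.W7d29a1.C0.VT31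
open Pool.Agent.W_7d29a1_C0.Swap57 (cE2 cE2_mono cE2_nonneg)

noncomputable section

variable {X : Type*} [Fintype X] [Nonempty X] {Y Y' Y2 : Type*} [DecidableEq Y] [DecidableEq Y'] [DecidableEq Y2] {κ : Type*}

theorem abs_cE_le73 (w : X → ℝ) (p : X → Y) (f : X → ℝ) (x : X) : |cE w p f x| ≤ cE w p (fun z => |f z|) x := by
  rw [abs_le]
  constructor
  · have h1 := cE_mono w p (f := -fun z => |f z|) (g := f) (fun z => neg_abs_le _) x
    rw [cE_neg] at h1
    exact h1
  · exact cE_mono w p (fun z => le_abs_self _) x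

/-- The distance of the average of the conditional means to the function itself. -/
def dv (w : X → ℝ) (J : Finset κ) (θ : κ → ℝ) (pm : κ → X → Y') (g : X → ℝ) (S : X) : ℝ :=
  |∑ m ∈ J, θ m * cE w (pm m) g S - g S|

/-- The mean difference of two replicas given `p`. -/
def TT (w : X → ℝ) (p : X → Y) (g : X → ℝ) (S : X) : ℝ := cE2 w p (fun z z' => |g z - g z'|) S S

theorem TT_nonneg (w : X → ℝ) (p : X → Y) (g : X → ℝ) (S : X) : 0 ≤ TT w p g S :=
  cE2_nonneg w p (fun _ _ => abs_nonneg _) S S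

theorem dv_nonneg (w : X → ℝ) (J : Finset κ) (θ : κ → ℝ) (pm : κ → X → Y') (g : X → ℝ) (S : X) : 0 ≤ dv w J θ pm g S := abs_nonneg _

/-- `T` is a function of `p`. -/
theorem TT_meas (w : X → ℝ) (p : X → Y) (g : X → ℝ) : Mp p (TT w p g) := by
  intro S S' h
  have e1 : ∀ z, cE w p (fun z' => |g z - g z'|) S = cE w p (fun z' => |g z - g z'|) S' := fun z => cE_meas w p _ S S' h
  show cE w p (fun z => cE w p (fun z' => |g z - g z'|) S) S = cE w p (fun z => cE w p (fun z' => |g z - g z'|) S') S'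
  rw [cE_meas w p (fun z => cE w p (fun z' => |g z - g z'|) S) S S' h]
  congr 1
  funext z
  exact e1 z

/-- The conditional mean of the distance to the conditional mean. -/
theorem cE_abs_sub_le (w : X → ℝ) (p : X → Y) (g : X → ℝ) (S : X) :
    cE w p (fun z => |g z - cE w p g S|) S ≤ TT w p g S := by
  refine cE_mono w p (fun z => ?_) S
  have e : g z - cE w p g S = cE w p (fun z' => g z - g z') S := by
    have h1 : (fun z' => g z - g z') = (fun _ => g z) - g := rfl
    rw [h1, cE_sub, Pi.sub_apply]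
    congr 1
    have h2 : (fun _ : X => g z) = g z • fun _ => (1 : ℝ) := by
      funext x
      simp
    rw [h2, cE_smul, cE_one]
    simp
  rw [e]
  exact abs_cE_le73 w p _ S

/-- **The slab average against the function itself**: `cE w p dv ≤ 2 T`. -/
theorem cE_dv_le (w : X → ℝ) {p : X → Y} {J : Finset κ} {θ : κ → ℝ} (hθ0 : ∀ m ∈ J, 0 ≤ θ m) (hθ : ∑ m ∈ J, θ m = 1)
    {pm : κ → X → Y'} (hc : ∀ m ∈ J, Crs p (pm m)) (g : X → ℝ) (S : X) : cE w p (dv w J θ pm g) S ≤ 2 * TT w p g S := by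
  set c : X → ℝ := cE w p g with hcdef
  have hcm : Mp p c := cE_meas w p g
  set h : X → ℝ := fun z => |g z - c z| with hh
  -- pathwise
  have k1 : ∀ z, dv w J θ pm g z ≤ (∑ m ∈ J, θ m • cE w (pm m) h + h) z := fun z => by
    have e1 : ∀ m ∈ J, cE w (pm m) g z - c z = cE w (pm m) (g - c) z := fun m hm => by
      have hcm' : Mp (pm m) c := fun x x' hx => hcm x x' (hc m hm x x' hx)
      rw [cE_sub, Pi.sub_apply, cE_of_meas w hcm']
    have e2 : ∑ m ∈ J, θ m * cE w (pm m) g z - g z = ∑ m ∈ J, θ m * cE w (pm m) (g - c) z - (g z - c z) := by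
      have e3 : ∑ m ∈ J, θ m * cE w (pm m) (g - c) z = ∑ m ∈ J, θ m * cE w (pm m) g z - c z := by
        rw [← sum_congr rfl fun m hm => congrArg (θ m * ·) (e1 m hm)]
        simp only [mul_sub]
        rw [sum_sub_distrib, ← sum_mul, hθ, one_mul]
      rw [e3]
      ring
    unfold dv
    rw [e2]
    refine (abs_sub _ _).trans ?_
    rw [Pi.add_apply, Finset.sum_apply]
    refine add_le_add ((abs_sum_le_sum_abs _ _).trans (sum_le_sum fun m hm => ?_)) le_rfl
    rw [abs_mul, abs_of_nonneg (hθ0 m hm), Pi.smul_apply, smul_eq_mul]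
    exact mul_le_mul_of_nonneg_left (abs_cE_le73 w (pm m) (g - c) z) (hθ0 m hm)
  refine (cE_mono w p k1 S).trans ?_
  have e4 : cE w p (∑ m ∈ J, θ m • cE w (pm m) h) = cE w p h := by
    rw [cE_sum]
    have e5 : ∀ m ∈ J, cE w p (θ m • cE w (pm m) h) = θ m • cE w p h := fun m hm => by
      rw [cE_smul, cE_tower w (hc m hm)]
    rw [sum_congr rfl e5, ← sum_smul, hθ, one_smul]
  rw [cE_add, Pi.add_apply, e4]
  have e6 : cE w p h S = cE w p (fun z => |g z - cE w p g S|) S := by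
    unfold cE
    congr 1
    refine sum_congr rfl fun z _ => ?_
    split_ifs with hz
    · congr 2
      rw [hh]
      show |g z - c z| = _
      rw [hcm z S hz]
      rfl
    · rfl
  rw [e6]
  have := cE_abs_sub_le w p g S
  linarith

open Classical in
/-- The paths with `dv > τ` although `T < δ`. -/
def rr (w : X → ℝ) (p : X → Y) (J : Finset κ) (θ : κ → ℝ) (pm : κ → X → Y') (g : X → ℝ) (τ δ : ℝ) (S : X) : ℝ :=
  if τ < dv w J θ pm g S ∧ TT w p g S < δ then 1 else 0

theorem rr_nonneg (w : X → ℝ) (p : X → Y) (J : Finset κ) (θ : κ → ℝ) (pm : κ → X → Y') (g : X → ℝ) (τ δ : ℝ) (S : X) :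
    0 ≤ rr w p J θ pm g τ δ S := by
  unfold rr
  split_ifs <;> norm_num

/-- **They are rare given everything behind the slab.** -/
theorem cE_rr_le (w : X → ℝ) {p : X → Y} {J : Finset κ} {θ : κ → ℝ} (hθ0 : ∀ m ∈ J, 0 ≤ θ m) (hθ : ∑ m ∈ J, θ m = 1)
    {pm : κ → X → Y'} (hc : ∀ m ∈ J, Crs p (pm m)) (g : X → ℝ) {τ δ : ℝ} (hτ : 0 < τ) (hδ : 0 ≤ δ) (S : X) :
    cE w p (rr w p J θ pm g τ δ) S ≤ 2 * δ / τ := by
  classical
  have k1 : ∀ z, rr w p J θ pm g τ δ z ≤ ((fun z => if TT w p g z < δ then τ⁻¹ else 0) * dv w J θ pm g) z := fun z => by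
    unfold rr
    rw [Pi.mul_apply]
    have h0 := dv_nonneg w J θ pm g z
    split_ifs with h1 h2 h2
    · rw [inv_mul_eq_div, one_le_div hτ]
      exact h1.1.le
    · exact absurd h1.2 h2
    · exact mul_nonneg (inv_nonneg.2 hτ.le) h0
    · rw [zero_mul]
  refine (cE_mono w p k1 S).trans ?_
  have hm : Mp p (fun z => if TT w p g z < δ then τ⁻¹ else 0) := fun x x' hx => by
    simp only [TT_meas w p g x x' hx]
  rw [cE_pull w hm, Pi.mul_apply]
  have k2 := cE_dv_le w hθ0 hθ hc g S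
  split_ifs with h
  · calc τ⁻¹ * cE w p (dv w J θ pm g) S ≤ τ⁻¹ * (2 * δ) :=
        mul_le_mul_of_nonneg_left (by linarith) (inv_nonneg.2 hτ.le)
      _ = 2 * δ / τ := by ring
  · rw [zero_mul]
    positivity

/-- The same given anything coarser. -/
theorem cE_rare_le (w : X → ℝ) {p : X → Y} {q : X → Y2} (hq : Crs q p) {J : Finset κ} {θ : κ → ℝ} (hθ0 : ∀ m ∈ J, 0 ≤ θ m)
    (hθ : ∑ m ∈ J, θ m = 1) {pm : κ → X → Y'} (hc : ∀ m ∈ J, Crs p (pm m)) (g : X → ℝ) {τ δ : ℝ} (hτ : 0 < τ) (hδ : 0 ≤ δ)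
    (S : X) : cE w q (rr w p J θ pm g τ δ) S ≤ 2 * δ / τ := by
  rw [← cE_tower w hq]
  refine (cE_mono w q (g := fun _ => 2 * δ / τ) (fun z => cE_rr_le w hθ0 hθ hc g hτ hδ z) S).trans_eq ?_
  have h2 : (fun _ : X => 2 * δ / τ) = (2 * δ / τ) • fun _ => (1 : ℝ) := by
    funext x
    simp
  rw [h2, cE_smul, cE_one]
  simp

theorem gm_rare_le (w : X → ℝ) {p : X → Y} {J : Finset κ} {θ : κ → ℝ} (hθ0 : ∀ m ∈ J, 0 ≤ θ m)
    (hθ : ∑ m ∈ J, θ m = 1) {pm : κ → X → Y'} (hc : ∀ m ∈ J, Crs p (pm m)) (g : X → ℝ) {τ δ : ℝ} (hτ : 0 < τ) (hδ : 0 ≤ δ) :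
    gm w (rr w p J θ pm g τ δ) ≤ 2 * δ / τ := by
  obtain ⟨x⟩ := (inferInstance : Nonempty X)
  have h := cE_rare_le w (q := fun _ : X => ()) (fun _ _ _ => rfl) hθ0 hθ hc g hτ hδ x
  rwa [gm_eq_cE] at h

open Classical in
/-- **Markov**: the paths for which the conditional mass of a set is more than `q0`. -/
theorem markov73 (w : X → ℝ) (q : X → Y2) {f : X → ℝ} (hf : ∀ x, 0 ≤ f x) {q0 : ℝ} (hq0 : 0 < q0) :
    gm w (fun x => if q0 < cE w q f x then 1 else 0) ≤ gm w f / q0 := by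
  rw [← gm_cE w q f, div_eq_inv_mul]
  have h1 : gm w (fun x => q0⁻¹ * cE w q f x) = q0⁻¹ * gm w (cE w q f) := Pool.W7d29a1.C0.gm_smul w q0⁻¹ (cE w q f)
  rw [← h1]
  refine gm_mono w fun x => ?_
  have h0 := cE_nonneg w q hf x
  split_ifs with h
  · rw [inv_mul_eq_div, one_le_div hq0]
    exact h.le
  · positivity

open Classical in
/-- **(6b) The conditional mass of the bad paths**: bad ≤ out + (in, `T ≥ δ`) + rare, pathwise, gives the same for the events
`conditional mass > q0`. -/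
theorem bad_fib (w : X → ℝ) (q : X → Y2) {bad out tie rare : X → ℝ} (h : ∀ x, bad x ≤ out x + tie x + rare x) {q0 : ℝ} (x : X) :
    (if 3 * q0 < cE w q bad x then (1 : ℝ) else 0) ≤ (if q0 < cE w q out x then 1 else 0) + (if q0 < cE w q tie x then 1 else 0) +
      (if q0 < cE w q rare x then 1 else 0) := by
  have h1 : cE w q bad x ≤ cE w q out x + cE w q tie x + cE w q rare x := by
    refine (cE_mono w q (g := out + tie + rare) h x).trans_eq ?_
    rw [cE_add, cE_add]
    rfl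
  by_cases a : q0 < cE w q out x
  · rw [if_pos a]
    split_ifs <;> norm_num
  · by_cases b : q0 < cE w q tie x
    · rw [if_pos b]
      split_ifs <;> norm_num
    · by_cases c : q0 < cE w q rare x
      · rw [if_pos c]
        split_ifs <;> norm_num
      · rw [if_neg a, if_neg b, if_neg c, if_neg]
        · norm_num
        · push Not at a b c ⊢
          linarith

/-! ### The tilt of the kick -/

section Kick

variable {ι : Type*} [Fintype ι] {pa : X → ℤ → ℤ} {nv : Pt → X → ℝ} {sl R : ℝ} {m0 : ℤ} {n : ℕ} {J : Finset ℤ} {S1 : Finset Pt}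

/-- **On the tube the tilt `C_β - u₀` is `2 dv`**: `c` = the field of `-2 a g`, `u₀ = -2 a g`. -/
theorem r_eq (hv : T73.Vis pa nv) (hS : ∀ p ∈ S1, p.1 ∈ J) {c : Pt → Env → ℝ} {η : Env} {w : X → ℝ} {K : Finset κ} {θ : κ → ℝ}
    {pm : κ → X → Y'} {g : X → ℝ} {a : ℝ} (hC : ∀ x, H19.Cf S1 c nv η x = -2 * a * ∑ m ∈ K, θ m * cE w (pm m) g x)
    (ha : |a| = 1) {β : ι → Fin (n + 1)} {x : X} (h : ¬ T73.OutB pa sl R m0 J β x) :
    |H19.Cf S1 (H41.cut (T73.chT sl R m0 β) c) nv η x - -2 * a * g x| = 2 * dv w K θ pm g x := by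
  have h1 := congrFun (H41.Cf_split (T73.chT sl R m0 β) S1 c nv η) x
  rw [Pi.add_apply, T73.far_zero hv hS c η h, add_zero] at h1
  rw [← h1, hC x]
  unfold dv
  rw [show -2 * a * ∑ m ∈ K, θ m * cE w (pm m) g x - -2 * a * g x = -2 * a * (∑ m ∈ K, θ m * cE w (pm m) g x - g x) by ring,
    abs_mul, abs_mul, ha]
  norm_num

open Classical in
/-- **(6a) THE OWN REPLICA**: a path with `|C_β - u₀| > 2 τ` is out of the tube, or has `T ≥ δ`, or is rare. -/
theorem bad_own (hv : T73.Vis pa nv) (hS : ∀ p ∈ S1, p.1 ∈ J) {c : Pt → Env → ℝ} {η : Env} {w : X → ℝ} {K : Finset κ} {θ : κ → ℝ}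
    {pm : κ → X → Y'} {g : X → ℝ} {a : ℝ} (hC : ∀ x, H19.Cf S1 c nv η x = -2 * a * ∑ m ∈ K, θ m * cE w (pm m) g x)
    (ha : |a| = 1) (p : X → Y) (β : ι → Fin (n + 1)) (τ δ : ℝ) (x : X) :
    (if 2 * τ < |H19.Cf S1 (H41.cut (T73.chT sl R m0 β) c) nv η x - -2 * a * g x| then (1 : ℝ) else 0) ≤
      (if T73.OutB pa sl R m0 J β x then 1 else 0) + (if ¬ T73.OutB pa sl R m0 J β x ∧ δ ≤ TT w p g x then 1 else 0) +
        rr w p K θ pm g τ δ x := by
  have h3 := rr_nonneg w p K θ pm g τ δ x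
  by_cases h : T73.OutB pa sl R m0 J β x
  · rw [if_pos h, if_neg (show ¬ (¬ T73.OutB pa sl R m0 J β x ∧ δ ≤ TT w p g x) from fun h' => h'.1 h)]
    split_ifs <;> linarith
  · rw [if_neg h, r_eq hv hS hC ha h]
    by_cases h1 : δ ≤ TT w p g x
    · rw [if_pos (show ¬ T73.OutB pa sl R m0 J β x ∧ δ ≤ TT w p g x from ⟨h, h1⟩)]
      split_ifs <;> linarith
    · rw [if_neg (show ¬ (¬ T73.OutB pa sl R m0 J β x ∧ δ ≤ TT w p g x) from fun h' => h1 h'.2)]
      unfold rr
      by_cases h2 : τ < dv w K θ pm g x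
      · rw [if_pos (show τ < dv w K θ pm g x ∧ TT w p g x < δ from ⟨h2, not_le.1 h1⟩)]
        split_ifs <;> norm_num
      · rw [if_neg (show ¬ 2 * τ < 2 * dv w K θ pm g x by intro h4; exact h2 (by linarith))]
        split_ifs <;> norm_num

end Kick

end

end Pool.W7d29a1.C0.Bd73
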