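import Pool.Agent.W_7d29a1_C0.GwNM50

/-!
MP_7d29a1_pr, [CURV0] / [C0]: `GwNM50` for the windows `[j - b, j + b)` of the model. (helper50)
-/

set_option autoImplicit false

namespace Pool.Agent.W_7d29a1_C0.GwA50

open Finset MeasureTheory Pool.Agent.W_7d29a1_F Pool.Agent.W_7d29a1_X
open Pool.Agent.W_7d29a1_C0.Mod92
open Pool.Agent.W_7d29a1_C0.Blk18
open Pool.Agent.W_7d29a1_C0.LocM18 (Cn)
open Pool.Agent.W_7d29a1_C0.Swap57 (cE2 NM)

noncomputable section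

variable {μ : Measure ℝ} {s : ℝ} {N : ℕ}

/-- The half response of the window of the row `j` at the base `b`. -/
theorem GwW.gj {κ δ δ₁ ε c' : ℝ} {η : Env} (h : GwW μ s N κ δ δ₁ ε c' η) {Q : Finset (Finset ℕ)} [Nonempty (Px Q)]
    (hQ : Full N Q) {b j : ℕ} (hj : j + b ≤ N) (h1 : (N : ℝ) ^ κ ≤ ((j - (j - b) : ℕ) : ℝ)) (h2 : (N : ℝ) ^ κ ≤ b) (B : ℝ)
    {a : ℤ} (ha : a = 1 ∨ a = -1) {S S' : Px Q} (hS : Cn μ s δ₁ (j - b) (j + b) S) (hS' : Cn μ s δ₁ (j - b) (j + b) S') :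
    |gj μ s η δ B b j a S - gj μ s η δ B b j a S'| ≤ Real.exp ((N : ℝ) ^ ε) *
      cE2 (lw μ s η N Q) (pJ (j - b) (j + b)) (NM (j - b) j j (j + b)) S S' + Real.exp (-(N : ℝ) ^ c') := by
  have e1 : j - b + (j - (j - b) + b) = j + b := by omega
  have e2 : j - b + (j - (j - b)) = j := by omega
  have e3 : j - (j - b) + b = j + b - (j - b) := by omega
  have hm := h Q hQ (j - b) (j - (j - b)) b (by omega) h1 h2 B a ha S S' (by rw [e1]; exact hS) (by rw [e1]; exact hS')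
  rw [e1, e2, e3] at hm
  exact hm

end

end Pool.Agent.W_7d29a1_C0.GwA50
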