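import Pool.Agent.W_7d29a1_C0.Bd73
import Pool.Agent.W_7d29a1_C0.GwJ50

/-!
CURV0 (MP_7d29a1_pr), GS one kick, point (6) / G7: **BAD BOXES HAVE A FAR PATH OR A ROBUST NEAR TIE.** `w' = w + A`, `|A| ≤ D`, any
condition `p` which is coarser than the slab rows and than the window `[j - b, j + b)` (`pJ 0 m1` for the slab in front, `pJ m0 N` behind).
`TT_le`: if the differences of `g` are bounded by the non meeting mass of the window (`GwJ50`), then `TT w' p g` is at most
`E0 exp (4 D)` times the non meeting masses left and right of `j` given `p`, plus the conditional mass of the paths out of the cone.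
`TT_tau`: `TT ≥ δ` gives `Tau` left or right (`Rob43B`), or the conditional mass of the paths out of the cone is more than `ρ`.
`bad73`: if the Gibbs mass of the paths with `|C_β - u₀| > 2 τ` is more than `4 q`, then the mass of the paths out of the tubes of `β` is
more than `q`, or the mass of the paths with `Tau` is more than `q`, or the Gibbs mass of the paths out of the cone is more than `ρ q`:
for every environment in `GwW`, no exceptional set besides. `tau_own`: `Tau` in the form of the path itself. (helper73)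
-/

set_option autoImplicit false
set_option linter.unusedSectionVars false
set_option linter.unusedVariables false

namespace Pool.W7d29a1.C0.Bd73

open Finset MeasureTheory Pool.Agent.W_7d29a1_F Pool.Agent.W_7d29a1_X Pool.W7d29a1.C0
open Pool.W7d29a1.C0 (gz gm gm_mono gm_const)
open Pool.W7d29a1.C0.VT31
open Pool.Agent.W_7d29a1_C0.Swap57 (cE2 cE2_mono cE2_nonneg cE2_add cE2_mul cE2_one cE2_tower NI NI_nonneg NM NM_le NM_nonneg)
open Pool.W7d29a1.C0.R43 (cE_tilt cE2_tilt gm_tilt43 Tau tau_meas mI mI_nonneg cE2_mI)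
open Pool.Agent.W_7d29a1_C0.Mod92 (Px lw ps pJ gj abs_gj)
open Pool.Agent.W_7d29a1_C0.Blk18 (Full)
open Pool.Agent.W_7d29a1_C0.LocM18 (Cn)
open Pool.Agent.W_7d29a1_C0.GwA50 (GwW)

noncomputable section

section Abs

variable {X : Type*} [Fintype X] [Nonempty X] {Y Y' Y1 : Type*} [DecidableEq Y] [DecidableEq Y'] [DecidableEq Y1]

theorem cE2_fst (w : X → ℝ) (p : X → Y) (f : X → ℝ) (x x' : X) : cE2 w p (fun z _ => f z) x x' = cE w p f x := by
  unfold cE2
  congr 1
  funext z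
  have h : Mp p (fun _ : X => f z) := fun _ _ _ => rfl
  exact congrFun (cE_of_meas w h) x'

theorem cE2_snd (w : X → ℝ) (p : X → Y) (f : X → ℝ) (x x' : X) : cE2 w p (fun _ z' => f z') x x' = cE w p f x' := by
  unfold cE2
  have h : Mp p (fun _ : X => cE w p f x') := fun _ _ _ => rfl
  exact congrFun (cE_of_meas w h) x

theorem cE2_const (w : X → ℝ) (p : X → Y) (c : ℝ) (x x' : X) : cE2 w p (fun _ _ => c) x x' = c := by
  have h := cE2_mul w p c (fun _ _ => 1) x x'
  rw [cE2_one, mul_one] at h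
  simpa using h

theorem gm_add4 (w f1 f2 f3 f4 : X → ℝ) :
    gm w (fun S => f1 S + (f2 S + (f3 S + f4 S))) = gm w f1 + (gm w f2 + (gm w f3 + gm w f4)) := by
  have e : (fun S => f1 S + (f2 S + (f3 S + f4 S))) = f1 + (f2 + (f3 + f4)) := rfl
  rw [e, Pool.W7d29a1.C0.gm_add, Pool.W7d29a1.C0.gm_add, Pool.W7d29a1.C0.gm_add]

/-- **`TT` at every log weight at distance at most `D`.** -/
theorem TT_le {w A : X → ℝ} {D : ℝ} (hA : ∀ x, |A x| ≤ D) {p : X → Y} {pw : X → Y1} (hc : Crs p pw) {g : X → ℝ} {E0 e0 M0 : ℝ}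
    (hE0 : 0 ≤ E0) {K K1 K2 : X → X → ℝ} {bad : X → ℝ} (hK0 : ∀ z z', 0 ≤ K z z') (hK : ∀ z z', K z z' ≤ K1 z z' + K2 z z')
    (hg : ∀ z z', |g z - g z'| ≤ E0 * cE2 w pw K z z' + e0 + M0 * (bad z + bad z')) (S : X) :
    TT (w + A) p g S ≤ E0 * Real.exp (4 * D) * (cE2 (w + A) p K1 S S + cE2 (w + A) p K2 S S) + e0 +
      2 * M0 * cE (w + A) p bad S := by
  have e : w = w + A + -A := by
    funext x
    simp
  have h1 : ∀ z z', |g z - g z'| ≤ (E0 * Real.exp (4 * D)) * cE2 (w + A) pw K z z' + (e0 + M0 * (bad z + bad z')) := fun z z' => by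
    have h2 : cE2 w pw K z z' ≤ Real.exp (4 * D) * cE2 (w + A) pw K z z' := by
      have h3 := cE2_tilt (w := w + A) (A := -A) (D := D) (fun x => by rw [Pi.neg_apply, abs_neg]; exact hA x) pw hK0 z z'
      rwa [← e] at h3
    have h4 := mul_le_mul_of_nonneg_left h2 hE0
    have := hg z z'
    linarith
  have k1 : cE2 (w + A) p (fun z z' => (E0 * Real.exp (4 * D)) * cE2 (w + A) pw K z z' + (e0 + M0 * (bad z + bad z'))) S S =
      (E0 * Real.exp (4 * D)) * cE2 (w + A) p K S S + (e0 + M0 * (cE (w + A) p bad S + cE (w + A) p bad S)) := by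
    rw [cE2_add, cE2_mul, cE2_add, cE2_const, cE2_mul, cE2_add, cE2_fst, cE2_snd]
    have := cE2_tower (w + A) hc K S S
    rw [← this]
  refine (cE2_mono (w + A) p h1 S S).trans (k1.le.trans ?_)
  have k2 : cE2 (w + A) p K S S ≤ cE2 (w + A) p K1 S S + cE2 (w + A) p K2 S S := by
    rw [← cE2_add]
    exact cE2_mono (w + A) p hK S S
  have k3 := mul_le_mul_of_nonneg_left k2 (mul_nonneg hE0 (Real.exp_pos (4 * D)).le)
  linarith

theorem gm_add3 (w f1 f2 f3 : X → ℝ) : gm w (fun S => f1 S + (f2 S + f3 S)) = gm w f1 + (gm w f2 + gm w f3) := by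
  have e : (fun S => f1 S + (f2 S + f3 S)) = f1 + (f2 + f3) := rfl
  rw [e, Pool.W7d29a1.C0.gm_add, Pool.W7d29a1.C0.gm_add]

theorem TT_tilt {w A : X → ℝ} {D : ℝ} (hA : ∀ x, |A x| ≤ D) (p : X → Y) (g : X → ℝ) (S : X) :
    TT (w + A) p g S ≤ Real.exp (4 * D) * TT w p g S := cE2_tilt hA p (fun _ _ => abs_nonneg _) S S

open Classical in
/-- The bad boxes, told from the Gibbs measure: out of the tubes, or differences of `g` given `p`. -/
def BadF (w : X → ℝ) (p : X → Y) (g : X → ℝ) (out : X → Prop) (δ q : ℝ) : Prop :=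
  q < gm w (fun S => if out S then 1 else 0) ∨ q < gm w (fun S => if δ ≤ TT w p g S then 1 else 0)

/-- It is stable under bounded changes of the weights. -/
theorem BadF.tilt {w A : X → ℝ} {D : ℝ} (hA : ∀ x, |A x| ≤ D) {p : X → Y} {g : X → ℝ} {out : X → Prop} {δ q : ℝ}
    (h : BadF (w + A) p g out δ q) : BadF w p g out (δ * Real.exp (-(4 * D))) (q * Real.exp (-(2 * D))) := by
  classical
  have e2 : Real.exp (2 * D) * Real.exp (-(2 * D)) = 1 := by rw [← Real.exp_add, add_neg_cancel, Real.exp_zero]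
  have e4 : Real.exp (4 * D) * Real.exp (-(4 * D)) = 1 := by rw [← Real.exp_add, add_neg_cancel, Real.exp_zero]
  have k : ∀ {f : X → ℝ}, (∀ x, 0 ≤ f x) → q < gm (w + A) f → q * Real.exp (-(2 * D)) < gm w f := fun {f} hf hq => by
    have h1 := gm_tilt43 (w := w) hA hf
    have h2 := lt_of_lt_of_le hq h1
    have h3 := mul_lt_mul_of_pos_right h2 (Real.exp_pos (-(2 * D)))
    calc _ < Real.exp (2 * D) * gm w f * Real.exp (-(2 * D)) := h3
      _ = Real.exp (2 * D) * Real.exp (-(2 * D)) * gm w f := by ring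
      _ = _ := by rw [e2, one_mul]
  rcases h with h | h
  · exact Or.inl (k (fun x => by split_ifs <;> norm_num) h)
  · refine Or.inr ((k (fun x => by split_ifs <;> norm_num) h).trans_le (gm_mono w fun S => ?_))
    have h1 := TT_tilt hA p g S (w := w)
    by_cases h2 : δ ≤ TT (w + A) p g S
    · rw [if_pos h2, if_pos]
      have h3 := mul_le_mul_of_nonneg_right (h2.trans h1) (Real.exp_pos (-(4 * D))).le
      calc _ ≤ Real.exp (4 * D) * TT w p g S * Real.exp (-(4 * D)) := h3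
        _ = Real.exp (4 * D) * Real.exp (-(4 * D)) * TT w p g S := by ring
        _ = _ := by rw [e4, one_mul]
    · rw [if_neg h2]
      split_ifs <;> norm_num

/-- **(G7) BAD BOXES ARE IN `BadF`, for every environment.** `R` = any function which equals `2 dv` on the tubes (`r_eq`). -/
theorem badF73 (w : X → ℝ) {p : X → Y} {κ' : Type*} {J : Finset κ'} {θ : κ' → ℝ} (hθ0 : ∀ m ∈ J, 0 ≤ θ m) (hθ : ∑ m ∈ J, θ m = 1)
    {pm : κ' → X → Y'} (hp : ∀ m ∈ J, Crs p (pm m)) (g : X → ℝ) {δ q τ : ℝ} (hτ : 0 < τ) (hδ : 0 ≤ δ) (hq : 4 * δ / τ ≤ q)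
    {R : X → ℝ} {out : X → Prop} (hR : ∀ S, ¬ out S → |R S| = 2 * dv w J θ pm g S)
    (hbad : 3 * q < gm w (fun S => if τ < |R S| then 1 else 0)) : BadF w p g out δ q := by
  classical
  by_contra h3
  unfold BadF at h3
  push Not at h3
  obtain ⟨h4, h5⟩ := h3
  have k1 : ∀ S, (if τ < |R S| then (1 : ℝ) else 0) ≤ (if out S then 1 else 0) +
      ((if δ ≤ TT w p g S then 1 else 0) + rr w p J θ pm g (τ / 2) δ S) := fun S => by
    have h7 := rr_nonneg w p J θ pm g (τ / 2) δ S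
    have i1 : (0 : ℝ) ≤ if δ ≤ TT w p g S then 1 else 0 := by split_ifs <;> norm_num
    have i3 : (if τ < |R S| then (1 : ℝ) else 0) ≤ 1 := by split_ifs <;> norm_num
    by_cases ho : out S
    · rw [if_pos ho]
      linarith
    · rw [if_neg ho]
      by_cases hT : δ ≤ TT w p g S
      · rw [if_pos hT]
        linarith
      · rw [if_neg hT, hR S ho]
        by_cases h9 : τ / 2 < dv w J θ pm g S
        · have e : rr w p J θ pm g (τ / 2) δ S = 1 := if_pos ⟨h9, not_le.1 hT⟩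
          rw [e]
          have : (if τ < 2 * dv w J θ pm g S then (1 : ℝ) else 0) ≤ 1 := by split_ifs <;> norm_num
          linarith
        · rw [if_neg (show ¬ τ < 2 * dv w J θ pm g S by intro h10; exact h9 (by linarith))]
          linarith
  have k2 := (gm_mono w k1).trans_eq (gm_add3 w _ _ _)
  have k4 : gm w (rr w p J θ pm g (τ / 2) δ) ≤ q := by
    refine (gm_rare_le w hθ0 hθ hp g (half_pos hτ) hδ).trans (le_trans (le_of_eq ?_) hq)
    field_simp
    ring
  linarith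

end Abs

/-! ### The window of the row `j` -/

section Win

variable {μ : Measure ℝ} {s : ℝ} {N : ℕ} {Q : Finset (Finset ℕ)} {Y Y' : Type*} [DecidableEq Y] [DecidableEq Y']

open Classical in
/-- The displacement over the window is not in the cone. -/
def nCn (μ : Measure ℝ) (s δ₁ : ℝ) (c d : ℕ) (S : Px Q) : ℝ := if Cn μ s δ₁ c d S then 0 else 1

theorem nCn_nonneg (μ : Measure ℝ) (s δ₁ : ℝ) (c d : ℕ) (S : Px Q) : 0 ≤ nCn μ s δ₁ c d S := by
  unfold nCn
  split_ifs <;> norm_num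

variable [Nonempty (Px Q)]

/-- The differences of the half response. -/
theorem gj_dif {κ δ δ₁ ε c' : ℝ} {η : Env} (h : GwW μ s N κ δ δ₁ ε c' η) (hQ : Full N Q) {b j : ℕ} (hj : j + b ≤ N)
    (h1 : (N : ℝ) ^ κ ≤ ((j - (j - b) : ℕ) : ℝ)) (h2 : (N : ℝ) ^ κ ≤ b) {B : ℝ} (hB : 0 ≤ B) {a : ℤ} (ha : a = 1 ∨ a = -1)
    (z z' : Px Q) : |gj μ s η δ B b j a z - gj μ s η δ B b j a z'| ≤ Real.exp ((N : ℝ) ^ ε) *
      cE2 (lw μ s η N Q) (pJ (j - b) (j + b)) (NM (j - b) j j (j + b)) z z' + Real.exp (-(N : ℝ) ^ c') +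
      B * (nCn μ s δ₁ (j - b) (j + b) z + nCn μ s δ₁ (j - b) (j + b) z') := by
  have hn := nCn_nonneg (Q := Q) μ s δ₁ (j - b) (j + b)
  by_cases hz : Cn μ s δ₁ (j - b) (j + b) z ∧ Cn μ s δ₁ (j - b) (j + b) z'
  · have h3 := h.gj hQ hj h1 h2 B ha hz.1 hz.2
    have h4 := mul_nonneg hB (add_nonneg (hn z) (hn z'))
    linarith
  · have ha' : |(a : ℝ)| ≤ 1 := by rcases ha with ha | ha <;> rw [ha] <;> simp
    have h3 := abs_gj (μ := μ) (s := s) η (δ := δ) hB ha' b j z
    have h4 := abs_gj (μ := μ) (s := s) η (δ := δ) hB ha' b j z'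
    have h5 : |gj μ s η δ B b j a z - gj μ s η δ B b j a z'| ≤ B := by
      refine (abs_sub _ _).trans ?_
      linarith
    have h6 : (1 : ℝ) ≤ nCn μ s δ₁ (j - b) (j + b) z + nCn μ s δ₁ (j - b) (j + b) z' := by
      by_cases h7 : Cn μ s δ₁ (j - b) (j + b) z
      · have h8 : ¬ Cn μ s δ₁ (j - b) (j + b) z' := fun h8 => hz ⟨h7, h8⟩
        have e : nCn μ s δ₁ (j - b) (j + b) z' = 1 := if_neg h8
        rw [e]
        linarith [hn z]
      · have e : nCn μ s δ₁ (j - b) (j + b) z = 1 := if_neg h7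
        rw [e]
        linarith [hn z']
    have h7 := mul_le_mul_of_nonneg_left h6 hB
    have h8 : 0 ≤ Real.exp ((N : ℝ) ^ ε) * cE2 (lw μ s η N Q) (pJ (j - b) (j + b)) (NM (j - b) j j (j + b)) z z' :=
      mul_nonneg (Real.exp_pos _).le (cE2_nonneg _ _ (fun _ _ => NM_nonneg _ _ _ _ _ _) _ _)
    have h9 := (Real.exp_pos (-(N : ℝ) ^ c')).le
    linarith

/-- **(6c)**: `TT ≥ δ'` gives a robust near tie on one side of `j`. -/
theorem TT_tau {κ δ δ₁ ε c' : ℝ} {η : Env} (h : GwW μ s N κ δ δ₁ ε c' η) (hQ : Full N Q) {b j : ℕ} (hj : j + b ≤ N)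
    (h1 : (N : ℝ) ^ κ ≤ ((j - (j - b) : ℕ) : ℝ)) (h2 : (N : ℝ) ^ κ ≤ b) {B : ℝ} (hB : 0 ≤ B) {a : ℤ} (ha : a = 1 ∨ a = -1)
    {A : Px Q → ℝ} {D : ℝ} (hA : ∀ x, |A x| ≤ D) {p : Px Q → Y} (hc : Crs p (pJ (j - b) (j + b))) {M ρ δ' : ℝ}
    (hδ : 2 * Real.exp ((N : ℝ) ^ ε) * Real.exp (4 * D - 5 * M) + Real.exp (-(N : ℝ) ^ c') + 2 * B * ρ < δ') {S : Px Q}
    (hT : δ' ≤ TT (lw μ s η N Q + A) p (gj μ s η δ B b j a) S) :
    Tau (lw μ s η N Q + A) p (j - b) j M S ∨ Tau (lw μ s η N Q + A) p j (j + b) M S ∨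
      ρ < cE (lw μ s η N Q + A) p (nCn μ s δ₁ (j - b) (j + b)) S := by
  by_contra h3
  push Not at h3
  obtain ⟨h4, h5, h6⟩ := h3
  unfold Tau at h4 h5
  rw [not_le] at h4 h5
  have h7 := TT_le hA hc (E0 := Real.exp ((N : ℝ) ^ ε)) (Real.exp_pos _).le (fun z z' => NM_nonneg (j - b) j j (j + b) z z')
    (fun z z' => NM_le (j - b) j j (j + b) z z') (gj_dif h hQ hj h1 h2 hB ha) S
  have h8 : Real.exp (4 * D - 5 * M) = Real.exp (4 * D) * Real.exp (-(5 * M)) := by
    rw [← Real.exp_add]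
    congr 1
  have h9 : Real.exp ((N : ℝ) ^ ε) * Real.exp (4 * D) * (cE2 (lw μ s η N Q + A) p (NI (j - b) j) S S +
      cE2 (lw μ s η N Q + A) p (NI j (j + b)) S S) ≤ 2 * Real.exp ((N : ℝ) ^ ε) * Real.exp (4 * D - 5 * M) := by
    rw [h8]
    have h10 : 0 ≤ Real.exp ((N : ℝ) ^ ε) * Real.exp (4 * D) := mul_nonneg (Real.exp_pos _).le (Real.exp_pos _).le
    calc _ ≤ Real.exp ((N : ℝ) ^ ε) * Real.exp (4 * D) * (Real.exp (-(5 * M)) + Real.exp (-(5 * M))) :=
          mul_le_mul_of_nonneg_left (add_le_add h4.le h5.le) h10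
      _ = _ := by ring
  have h11 : 2 * B * cE (lw μ s η N Q + A) p (nCn μ s δ₁ (j - b) (j + b)) S ≤ 2 * B * ρ :=
    mul_le_mul_of_nonneg_left h6 (by positivity)
  linarith

open Classical in
/-- **(G7) BAD BOXES**: `R` is any function which equals `2 dv` on the paths in the tubes (`r_eq`), `out` = out of the tubes. -/
theorem bad73 {κ δ δ₁ ε c' : ℝ} {η : Env} (h : GwW μ s N κ δ δ₁ ε c' η) (hQ : Full N Q) {b j : ℕ} (hj : j + b ≤ N)
    (h1 : (N : ℝ) ^ κ ≤ ((j - (j - b) : ℕ) : ℝ)) (h2 : (N : ℝ) ^ κ ≤ b) {B : ℝ} (hB : 0 ≤ B) {a : ℤ} (ha : a = 1 ∨ a = -1)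
    {A : Px Q → ℝ} {D : ℝ} (hA : ∀ x, |A x| ≤ D) {p : Px Q → Y} (hc : Crs p (pJ (j - b) (j + b))) {κ' : Type*} {J : Finset κ'}
    {θ : κ' → ℝ} (hθ0 : ∀ m ∈ J, 0 ≤ θ m) (hθ : ∑ m ∈ J, θ m = 1) {pm : κ' → Px Q → Y'} (hp : ∀ m ∈ J, Crs p (pm m))
    {M ρ q τ : ℝ} (hq : 0 < q) (hτ : 0 < τ) (hρ : 0 < ρ)
    (hδ : 2 * Real.exp ((N : ℝ) ^ ε) * Real.exp (4 * D - 5 * M) + Real.exp (-(N : ℝ) ^ c') + 2 * B * ρ < q * τ / 2)
    {R : Px Q → ℝ} {out : Px Q → Prop}
    (hR : ∀ S, ¬ out S → |R S| = 2 * dv (lw μ s η N Q + A) J θ pm (gj μ s η δ B b j a) S)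
    (hbad : 4 * q < gm (lw μ s η N Q + A) (fun S => if 2 * τ < |R S| then 1 else 0)) :
    q < gm (lw μ s η N Q + A) (fun S => if out S then 1 else 0) ∨
    q < gm (lw μ s η N Q + A) (fun S => if Tau (lw μ s η N Q + A) p (j - b) j M S ∨ Tau (lw μ s η N Q + A) p j (j + b) M S
      then 1 else 0) ∨
    ρ * q < gm (lw μ s η N Q + A) (nCn μ s δ₁ (j - b) (j + b)) := by
  set w := lw μ s η N Q + A with hw
  set g := gj (Q := Q) μ s η δ B b j a with hg
  by_contra h3
  push Not at h3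
  obtain ⟨h4, h5, h6⟩ := h3
  have k1 : ∀ S, (if 2 * τ < |R S| then (1 : ℝ) else 0) ≤ (if out S then 1 else 0) +
      ((if Tau w p (j - b) j M S ∨ Tau w p j (j + b) M S then 1 else 0) +
      ((if ρ < cE w p (nCn μ s δ₁ (j - b) (j + b)) S then 1 else 0) + rr w p J θ pm g τ (q * τ / 2) S)) := fun S => by
    have h7 := rr_nonneg w p J θ pm g τ (q * τ / 2) S
    have i1 : (0 : ℝ) ≤ if Tau w p (j - b) j M S ∨ Tau w p j (j + b) M S then 1 else 0 := by split_ifs <;> norm_num
    have i2 : (0 : ℝ) ≤ if ρ < cE w p (nCn μ s δ₁ (j - b) (j + b)) S then 1 else 0 := by split_ifs <;> norm_num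
    have i3 : (if 2 * τ < |R S| then (1 : ℝ) else 0) ≤ 1 := by split_ifs <;> norm_num
    by_cases ho : out S
    · rw [if_pos ho]
      linarith
    · rw [if_neg ho]
      by_cases hT : q * τ / 2 ≤ TT w p g S
      · rcases TT_tau h hQ hj h1 h2 hB ha hA hc hδ hT with h8 | h8 | h8
        · rw [if_pos (show Tau w p (j - b) j M S ∨ Tau w p j (j + b) M S from Or.inl h8)]
          linarith
        · rw [if_pos (show Tau w p (j - b) j M S ∨ Tau w p j (j + b) M S from Or.inr h8)]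
          linarith
        · rw [if_pos (show ρ < cE w p (nCn μ s δ₁ (j - b) (j + b)) S from h8)]
          linarith
      · rw [hR S ho]
        by_cases h9 : τ < dv w J θ pm g S
        · have e : rr w p J θ pm g τ (q * τ / 2) S = 1 := if_pos ⟨h9, not_le.1 hT⟩
          rw [e]
          have : (if 2 * τ < 2 * dv w J θ pm g S then (1 : ℝ) else 0) ≤ 1 := by split_ifs <;> norm_num
          linarith
        · rw [if_neg (show ¬ 2 * τ < 2 * dv w J θ pm g S by intro h10; exact h9 (by linarith))]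
          linarith
  have k2 := gm_mono w k1
  have k3 : gm w (fun S => (if out S then (1 : ℝ) else 0) + ((if Tau w p (j - b) j M S ∨ Tau w p j (j + b) M S then 1 else 0) +
      ((if ρ < cE w p (nCn μ s δ₁ (j - b) (j + b)) S then 1 else 0) + rr w p J θ pm g τ (q * τ / 2) S))) =
      gm w (fun S => if out S then 1 else 0) + (gm w (fun S => if Tau w p (j - b) j M S ∨ Tau w p j (j + b) M S then 1 else 0) +
      (gm w (fun S => if ρ < cE w p (nCn μ s δ₁ (j - b) (j + b)) S then 1 else 0) + gm w (rr w p J θ pm g τ (q * τ / 2)))) :=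
    gm_add4 w _ _ _ _
  rw [k3] at k2
  have k4 : gm w (rr w p J θ pm g τ (q * τ / 2)) ≤ q := by
    refine (gm_rare_le w hθ0 hθ hp g hτ (by positivity)).trans_eq ?_
    field_simp
  have k5 : gm w (fun S => if ρ < cE w p (nCn μ s δ₁ (j - b) (j + b)) S then 1 else 0) ≤ q := by
    refine (markov73 w p (nCn_nonneg μ s δ₁ (j - b) (j + b)) hρ).trans ?_
    rw [div_le_iff₀ hρ]
    linarith
  linarith

/-! ### `Tau` told from the path -/

open Classical in
/-- The classes with `Tau` have many paths which have themselves a robust alternative. -/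
theorem tau_own (w : Px Q → ℝ) (p : Px Q → Y) (i j : ℕ) {M : ℝ} (hM : 1 ≤ M) {S : Px Q} (h : Tau w p i j M S) :
    Real.exp (-(6 * M)) ≤ cE w p (fun S => if Real.exp (-(7 * M)) < mI w p i j S then 1 else 0) S := by
  unfold Tau at h
  rw [cE2_mI] at h
  have h1 : ∀ T, mI w p i j T ≤ ((fun T : Px Q => if Real.exp (-(7 * M)) < mI w p i j T then (1 : ℝ) else 0) +
      Real.exp (-(7 * M)) • (fun _ : Px Q => (1 : ℝ)) : Px Q → ℝ) T := fun T => by
    rw [Pi.add_apply, Pi.smul_apply, smul_eq_mul, mul_one]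
    have h2 : mI w p i j T ≤ 1 := by
      unfold mI
      refine (cE_mono w p (g := fun _ => 1) (fun z => ?_) T).trans_eq ?_
      · unfold NI
        split_ifs <;> norm_num
      · rw [cE_one]
    have h3 := (Real.exp_pos (-(7 * M))).le
    split_ifs with h4
    · linarith
    · rw [zero_add]
      exact not_lt.1 h4
  have h2 := cE_mono w p h1 S
  rw [cE_add, cE_smul, cE_one, Pi.add_apply, Pi.smul_apply, smul_eq_mul] at h2
  simp only [mul_one] at h2
  have h3 : Real.exp (-(7 * M)) ≤ Real.exp (-(5 * M)) - Real.exp (-(6 * M)) := by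
    have e6 : Real.exp (-(6 * M)) = Real.exp (-(5 * M)) * Real.exp (-M) := by
      rw [← Real.exp_add]
      congr 1
      ring
    have e7 : Real.exp (-(7 * M)) = Real.exp (-(5 * M)) * (Real.exp (-M) * Real.exp (-M)) := by
      rw [← Real.exp_add, ← Real.exp_add]
      congr 1
      ring
    have h4 : Real.exp (-M) ≤ 1 / 2 := by
      have h5 : Real.exp (-M) ≤ Real.exp (-1) := Real.exp_le_exp.2 (by linarith)
      have h6 : Real.exp (-1) ≤ 1 / 2 := by
        rw [Real.exp_neg, inv_eq_one_div]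
        have := Real.add_one_le_exp (1 : ℝ)
        exact one_div_le_one_div_of_le (by norm_num) (by linarith)
      linarith
    have h5 := Real.exp_pos (-M)
    rw [e6, e7]
    have h6 := Real.exp_pos (-(5 * M))
    have h7 : Real.exp (-M) * Real.exp (-M) ≤ 1 - Real.exp (-M) := by nlinarith
    have h8 := mul_le_mul_of_nonneg_left h7 h6.le
    linarith
  linarith

open Classical in
/-- `bad73` in the form of the path itself. -/
theorem gm_tau_own (w : Px Q → ℝ) (p : Px Q → Y) (i j : ℕ) {M : ℝ} (hM : 1 ≤ M) :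
    Real.exp (-(6 * M)) * gm w (fun S => if Tau w p i j M S then 1 else 0) ≤
      gm w (fun S => if Real.exp (-(7 * M)) < mI w p i j S then 1 else 0) := by
  have h1 : ∀ S, (fun S => Real.exp (-(6 * M)) * if Tau w p i j M S then (1 : ℝ) else 0) S ≤
      cE w p (fun S => if Real.exp (-(7 * M)) < mI w p i j S then 1 else 0) S := fun S => by
    show Real.exp (-(6 * M)) * (if Tau w p i j M S then (1 : ℝ) else 0) ≤ _
    split_ifs with h
    · rw [mul_one]
      exact tau_own w p i j hM h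
    · rw [mul_zero]
      exact cE_nonneg w p (fun S => by split_ifs <;> norm_num) S
  have h2 := gm_mono w h1
  rw [gm_cE] at h2
  have h3 : gm w (fun S => Real.exp (-(6 * M)) * if Tau w p i j M S then (1 : ℝ) else 0) =
      Real.exp (-(6 * M)) * gm w (fun S => if Tau w p i j M S then 1 else 0) := Pool.W7d29a1.C0.gm_smul w _ _
  rwa [h3] at h2

end Win

end

end Pool.W7d29a1.C0.Bd73
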