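import Pool.Agent.W_7d29a1_C0.BoxG41C
import Pool.Agent.W_7d29a1_C0.Refl63

/-!
CURV0 (MP_7d29a1_pr), leaf E1: the SEQUENTIAL form of two localised insertions. `K = E'.ev w (d.ins C2 Ψ)` is the first insertion, the
field of `C2` sees the slab `S1`; the insertion of `C1` in the WHOLE of `K` (the field of `C2` included) is at most
`a1 a2 E|Ψ| + a1 E|Ψ far2| + a2 E|Ψ far1| + E|Ψ far1 far2| + E|Ψ D_far1 C2|` and exponentially small terms: no term with the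
derivative of the near field occurs. (helper19)
-/

set_option autoImplicit false
set_option linter.unusedSectionVars false
set_option linter.unusedVariables false

namespace Pool.W7d29a1.C0.H41

open MeasureTheory ProbabilityTheory Filter Topology Finset
open Pool.Agent.W_7d29a1_F Pool.Agent.W_7d29a1_C0.H32 Pool.W7d29a1.C0

noncomputable section

variable {X ι ι' ι2 : Type*} [Fintype X] [Nonempty X] [Fintype ι] [DecidableEq ι] [Fintype ι'] [DecidableEq ι'] [Fintype ι2]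
  [DecidableEq ι2] {B : Type*} [Fintype B] [DecidableEq B] {E : Ev X ι} {E' : Ev X ι'} {E2 : Ev X ι2}
variable {μ : Measure ℝ} {f f' : ℝ → ℝ}

/-- The path functional of the derivative of the field `c2` along the far part of `c1`. -/
def dwF (χ1 : (ι → B) → Pt → ℝ) (S1 S2 : Finset Pt) (c1 : Pt → Env → ℝ) (c2' : Pt → Pt → Env → ℝ) (N : Pt → X → ℝ)
    (η : Env) (β : ι → B) : X → ℝ :=
  H19.Cf S2 (H19.Dc S1 (cut' (χ1 β) c1) c2') N η

theorem Cf_Dc {S1 S2 : Finset Pt} {c1 : Pt → Env → ℝ} {c2' : Pt → Pt → Env → ℝ} (N : Pt → X → ℝ) (η : Env) :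
    H19.Cf S2 (H19.Dc S1 c1 c2') N η = ∑ p ∈ S1, c1 p η • H19.Cf S2 (c2' p) N η := by
  unfold H19.Cf H19.Dc
  simp_rw [Finset.smul_sum, Finset.sum_smul]
  rw [Finset.sum_comm]
  exact Finset.sum_congr rfl fun p _ => Finset.sum_congr rfl fun q _ => by rw [smul_smul]

theorem ev_ins_Dc (d : Dr E E') {S1 S2 : Finset Pt} {c1 : Pt → Env → ℝ} {c2' : Pt → Pt → Env → ℝ} (N : Pt → X → ℝ) (η : Env)
    (Ψ : (ι → X) → ℝ) (w : X → ℝ) :
    E'.ev w (d.ins (H19.Cf S2 (H19.Dc S1 c1 c2') N η) Ψ) = ∑ p ∈ S1, c1 p η * E'.ev w (d.ins (H19.Cf S2 (c2' p) N η) Ψ) := by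
  have e4 : ∀ x, d.ins (H19.Cf S2 (H19.Dc S1 c1 c2') N η) Ψ x = ∑ p ∈ S1, c1 p η * d.ins (H19.Cf S2 (c2' p) N η) Ψ x := fun x => by
    rw [Cf_Dc, ins_sum]
    exact Finset.sum_congr rfl fun p _ => ins_smul _ _ _ _ _
  rw [ev_congr _ _ e4, ev_sum]
  exact Finset.sum_congr rfl fun p _ => ev_smul _ _ _ _

/-- One localised piece: the insertion of a field of the slab `S1` in the whole of `K`. -/
theorem seq_cut [IsProbabilityMeasure μ] (d : Dr E E') (d' : Dr E' E2)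
    (hsw : ∀ (w A A' : X → ℝ) (Ψ : (ι → X) → ℝ), E2.ev w (d'.ins A (d.ins A' Ψ)) = E2.ev w (d'.ins A' (d.ins A Ψ)))
    (h : DenLaw μ f f') {K θ0 : ℝ} (hs : SG μ (sc f f') K θ0) {S1 S2 : Finset Pt} (hd : Disjoint S1 S2)
    {c1 c2 : Pt → Env → ℝ} {c2' : Pt → Pt → Env → ℝ} {χ : Pt → ℝ} (z : ∀ p, 0 ≤ χ p) (u : ∀ p, χ p ≤ 1)
    {M1 M2 M3 : ℝ} (b1 : H19.BF S1 c1 M1) (b2 : H19.BF S2 c2 M2) (b3 : ∀ p ∈ S1, H19.BF S2 (c2' p) M3) (hM1 : 0 ≤ M1)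
    (hM2 : 0 ≤ M2) (h12 : ∀ p ∈ S1, ∀ q ∈ S2, ∀ (η : Env) (x : ℝ), c1 p (Function.update η q x) = c1 p η)
    (hc2 : ∀ p ∈ S1, ∀ q ∈ S2, ∀ (η : Env) (x : ℝ), HasDerivAt (fun t => c2 q (Function.update η p t))
      (c2' p q (Function.update η p x)) x)
    {w : Env → X → ℝ} {N : Pt → X → ℝ} {V D : ℝ} (hw1 : Wt S1 w N V) (hw2 : Wt S2 w N V) {Ψ : Env → (ι → X) → ℝ}
    (hΨ : Obs Ψ D) (hb1 : ∀ q ∈ S1, ∀ (η : Env) (x : ℝ), Ψ (Function.update η q x) = Ψ η)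
    (hb2 : ∀ q ∈ S2, ∀ (η : Env) (x : ℝ), Ψ (Function.update η q x) = Ψ η) {t1 t2 a1 a2 Q1 Q2 : ℝ} (q1 : 0 < t1)
    (q2 : 0 < t2) (r1 : 2 * t1 * M1 ≤ θ0) (r2 : 2 * t2 * M2 ≤ θ0) (hQ1 : ∀ η, QV S1 c1 η ≤ Q1)
    (hQ2 : ∀ η, QV S2 (cut χ c2) η ≤ Q2) (ha1 : 0 ≤ a1) (ha2 : 0 ≤ a2) :
    |∫ η, (E2.ev (w η) (d'.ins (H19.Cf S2 c2 N η) (d.ins (H19.Cf S1 c1 N η) (Ψ η))) +
        E'.ev (w η) (d.ins (H19.Cf S2 (H19.Dc S1 c1 c2') N η) (Ψ η))) ∂(law μ)| ≤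
      (a1 * a2 * ∫ η, |E.ev (w η) (Ψ η)| ∂(law μ) + tail2 K D t1 t2 a1 a2 Q1 Q2) +
      (a1 * ∫ η, |E'.ev (w η) (d.ins (H19.Cf S2 (cut' χ c2) N η) (Ψ η))| ∂(law μ) +
        tail1 K (D * (d.sz * (S2.card * (M2 * V)))) t1 a1 Q1) := by
  have mT2 : Measurable fun η => H19.Cf S2 c2 N η := meas_Cf b2.meas N
  have bT2 : ∀ η y, |H19.Cf S2 c2 N η y| ≤ S2.card * (M2 * V) := fun η y => abs_Cf_le b2.bd hw2.bd η y
  have oT : Obs (fun η => d.ins (H19.Cf S2 c2 N η) (Ψ η)) (D * (d.sz * (S2.card * (M2 * V)))) := hΨ.ins d mT2 bT2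
  have oT' : ∀ p ∈ S1, Obs (fun η => d.ins (H19.Cf S2 (c2' p) N η) (Ψ η)) (D * (d.sz * (S2.card * (M3 * V)))) :=
    fun p hp => hΨ.ins d (meas_Cf (b3 p hp).meas N) fun η y => abs_Cf_le (b3 p hp).bd hw2.bd η y
  have bn := BF_mul b2 z u
  have bf := BF_mul' b2 z u
  have mN : Measurable fun η => H19.Cf S2 (cut χ c2) N η := meas_Cf bn.meas N
  have bN : ∀ η y, |H19.Cf S2 (cut χ c2) N η y| ≤ S2.card * (M2 * V) := fun η y => abs_Cf_le bn.bd hw2.bd η y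
  have mF : Measurable fun η => H19.Cf S2 (cut' χ c2) N η := meas_Cf bf.meas N
  have bF : ∀ η y, |H19.Cf S2 (cut' χ c2) N η y| ≤ S2.card * (M2 * V) := fun η y => abs_Cf_le bf.bd hw2.bd η y
  have oN : Obs (fun η => d.ins (H19.Cf S2 (cut χ c2) N η) (Ψ η)) (D * (d.sz * (S2.card * (M2 * V)))) := hΨ.ins d mN bN
  have oF : Obs (fun η => d.ins (H19.Cf S2 (cut' χ c2) N η) (Ψ η)) (D * (d.sz * (S2.card * (M2 * V)))) := hΨ.ins d mF bF
  -- the insertion of the first field in the whole functional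
  have s1 := d'.ibp h b1 hw1 (Ψ := fun η => d.ins (H19.Cf S2 c2 N η) (Ψ η))
    (Ψ' := fun p η => d.ins (H19.Cf S2 (c2' p) N η) (Ψ η)) oT oT' (fun p hp η x y => by
      have e : ∀ t : ℝ, Ψ (Function.update η p t) = Ψ η := fun t => hb1 p hp η t
      simp only [e]
      unfold Dr.ins
      refine HasDerivAt.const_mul _ (HasDerivAt.fun_sum fun j _ => HasDerivAt.const_mul _ ?_)
      exact hasDerivAt_Cf N (hc2 p hp) η x _)
  have e0 : ∫ η, (E2.ev (w η) (d'.ins (H19.Cf S2 c2 N η) (d.ins (H19.Cf S1 c1 N η) (Ψ η))) +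
      E'.ev (w η) (d.ins (H19.Cf S2 (H19.Dc S1 c1 c2') N η) (Ψ η))) ∂(law μ) =
      ∫ η, E'.ev (w η) (d.ins (H19.Cf S2 c2 N η) (Ψ η)) * SS (sc f f') S1 c1 η ∂(law μ) := by
    rw [← s1, ← integral_add]
    · refine integral_congr_ae (ae_of_all _ fun η => ?_)
      show E2.ev (w η) (d'.ins (H19.Cf S2 c2 N η) (d.ins (H19.Cf S1 c1 N η) (Ψ η))) +
        E'.ev (w η) (d.ins (H19.Cf S2 (H19.Dc S1 c1 c2') N η) (Ψ η)) =
        E2.ev (w η) (d'.ins (H19.Cf S1 c1 N η) (d.ins (H19.Cf S2 c2 N η) (Ψ η))) +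
        ∑ p ∈ S1, c1 p η * E'.ev (w η) (d.ins (H19.Cf S2 (c2' p) N η) (Ψ η))
      rw [hsw, ev_ins_Dc]
    · exact (oT.ins d' (meas_Cf b1.meas N) fun η y => abs_Cf_le b1.bd hw1.bd η y).int E2 hw1.meas
    · refine integrable_finsetSum _ fun p hp => ?_
      have hm : MemLp (fun η => E'.ev (w η) (d.ins (H19.Cf S2 (c2' p) N η) (Ψ η))) 2 (law μ) := (oT' p hp).memLp E' hw1.meas
      have one : MemLp (fun _ : Env => (1 : ℝ)) 2 (law μ) := memLp_const 1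
      have := (H19.memLp_bd (b1.meas p hp) (b1.bd p hp) one).integrable_mul hm
      refine this.congr (ae_of_all _ fun η => ?_)
      show c1 p η * 1 * _ = _
      ring
  -- near and far part of the second field
  have e1 : ∀ η, E'.ev (w η) (d.ins (H19.Cf S2 c2 N η) (Ψ η)) = E'.ev (w η) (d.ins (H19.Cf S2 (cut χ c2) N η) (Ψ η)) +
      E'.ev (w η) (d.ins (H19.Cf S2 (cut' χ c2) N η) (Ψ η)) := fun η => by
    rw [← ev_add]
    refine ev_congr _ _ fun y => ?_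
    rw [← ins_add]
    congr 2
    exact Cf_split χ S2 c2 N η
  have mSS : MemLp (SS (sc f f') S1 c1) 2 (law μ) := H19.memLp_SS hs b1
  have iN : Integrable (fun η => E'.ev (w η) (d.ins (H19.Cf S2 (cut χ c2) N η) (Ψ η)) * SS (sc f f') S1 c1 η) (law μ) :=
    (oN.memLp E' hw1.meas).integrable_mul mSS
  have iF : Integrable (fun η => E'.ev (w η) (d.ins (H19.Cf S2 (cut' χ c2) N η) (Ψ η)) * SS (sc f f') S1 c1 η) (law μ) :=
    (oF.memLp E' hw1.meas).integrable_mul mSS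
  rw [e0]
  simp_rw [e1, add_mul]
  rw [integral_add iN iF]
  refine (abs_add_le _ _).trans (add_le_add ?_ ?_)
  · have m0 : MemLp (fun η => E.ev (w η) (Ψ η)) 2 (law μ) := hΨ.memLp E hw1.meas
    have m1 : ∀ p ∈ S2, MemLp (fun η => E'.ev (w η) (d.ins (N p) (Ψ η))) 2 (law μ) := fun p hp =>
      (hΨ.ins d (A := fun _ => N p) measurable_const fun η y => hw2.bd p hp y).memLp E' hw1.meas
    have hder : ∀ p ∈ S2, ∀ (η : Env) (x : ℝ),
        HasDerivAt (fun t => E.ev (w (Function.update η p t)) (Ψ (Function.update η p t)))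
          (E'.ev (w (Function.update η p x)) (d.ins (N p) (Ψ (Function.update η p x)))) x := fun p hp η x => by
      have e : ∀ t : ℝ, Ψ (Function.update η p t) = Ψ η := fun t => hb2 p hp η t
      simp only [e]
      exact d.der' (Ψ η) (hw2.der p hp η x)
    have s2 := R63.slab2 h hd (b1.gf hs) (bn.gf hs) h12 (Φ := fun η => E.ev (w η) (Ψ η))
      (Φ' := fun p η => E'.ev (w η) (d.ins (N p) (Ψ η))) hder m0 m1
    have e2 : ∫ η, E'.ev (w η) (d.ins (H19.Cf S2 (cut χ c2) N η) (Ψ η)) * SS (sc f f') S1 c1 η ∂(law μ) =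
        ∫ η, E.ev (w η) (Ψ η) * (SS (sc f f') S1 c1 η * SS (sc f f') S2 (cut χ c2) η) ∂(law μ) := by
      rw [← s2]
      refine integral_congr_ae (ae_of_all _ fun η => ?_)
      show E'.ev (w η) (d.ins (H19.Cf S2 (cut χ c2) N η) (Ψ η)) * SS (sc f f') S1 c1 η = _
      rw [ev_ins_Cf]
    rw [e2]
    exact H19.est_two hs b1 bn hM1 hM2 q1 q2 r1 r2 hQ1 hQ2 ha1 ha2 (hΨ.int E hw1.meas)
      fun η => abs_ev_le_of E (w η) (hΨ.bd η)
  · have r1' : t1 * M1 ≤ θ0 := by nlinarith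
    exact H19.est_one hs b1 hM1 q1 r1' hQ1 (oF.int E' hw1.meas) fun η => abs_ev_le_of E' (w η) (oF.bd η)

/-- **TWO LOCALISED INSERTIONS, SEQUENTIAL FORM**: the insertion of the field `c1` in the whole functional
`K = E'.ev w (d.ins C2 Ψ)`. -/
theorem box_seqG [IsProbabilityMeasure μ] (d : Dr E E') (d' : Dr E' E2)
    (hsw : ∀ (w A A' : X → ℝ) (Ψ : (ι → X) → ℝ), E2.ev w (d'.ins A (d.ins A' Ψ)) = E2.ev w (d'.ins A' (d.ins A Ψ)))
    (h : DenLaw μ f f') {K θ0 : ℝ}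
    (hs : SG μ (sc f f') K θ0) {S1 S2 : Finset Pt} (hd : Disjoint S1 S2) {c1 c2 : Pt → Env → ℝ} {c2' : Pt → Pt → Env → ℝ}
    {M1 M2 M3 : ℝ} (b1 : H19.BF S1 c1 M1) (b2 : H19.BF S2 c2 M2) (b3 : ∀ p ∈ S1, H19.BF S2 (c2' p) M3) (hM1 : 0 ≤ M1)
    (hM2 : 0 ≤ M2) (h12 : ∀ p ∈ S1, ∀ q ∈ S2, ∀ (η : Env) (x : ℝ), c1 p (Function.update η q x) = c1 p η)
    (hc2 : ∀ p ∈ S1, ∀ q ∈ S2, ∀ (η : Env) (x : ℝ), HasDerivAt (fun t => c2 q (Function.update η p t))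
      (c2' p q (Function.update η p x)) x)
    {w : Env → X → ℝ} {N : Pt → X → ℝ} {V D : ℝ} (hw1 : Wt S1 w N V) (hw2 : Wt S2 w N V) {Ψ : Env → (ι → X) → ℝ}
    (hΨ : Obs Ψ D) (hb1 : ∀ q ∈ S1, ∀ (η : Env) (x : ℝ), Ψ (Function.update η q x) = Ψ η)
    (hb2 : ∀ q ∈ S2, ∀ (η : Env) (x : ℝ), Ψ (Function.update η q x) = Ψ η)
    (b : X → B) {χ1 χ2 : (ι → B) → Pt → ℝ} {χ3 : (ι' → B) → Pt → ℝ} (z1 : ∀ β p, 0 ≤ χ1 β p) (u1 : ∀ β p, χ1 β p ≤ 1)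
    (z2 : ∀ β p, 0 ≤ χ2 β p) (u2 : ∀ β p, χ2 β p ≤ 1) (z3 : ∀ β p, 0 ≤ χ3 β p) (u3 : ∀ β p, χ3 β p ≤ 1)
    {t1 t2 a1 a2 Q1 Q2 Q3 : ℝ} (q1 : 0 < t1)
    (q2 : 0 < t2) (r1 : 2 * t1 * M1 ≤ θ0) (r2 : 2 * t2 * M2 ≤ θ0) (hQ1 : ∀ β η, QV S1 (cut (χ1 β) c1) η ≤ Q1)
    (hQ2 : ∀ β η, QV S2 (cut (χ2 β) c2) η ≤ Q2) (hQ3 : ∀ β η, QV S2 (cut (χ3 β) c2) η ≤ Q3)
    (ha1 : 0 ≤ a1) (ha2 : 0 ≤ a2) :
    |∫ η, (E2.ev (w η) (d'.ins (H19.Cf S2 c2 N η) (d.ins (H19.Cf S1 c1 N η) (Ψ η))) +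
        E'.ev (w η) (d.ins (H19.Cf S2 (H19.Dc S1 c1 c2') N η) (Ψ η))) ∂(law μ)| ≤
      (a1 * a2 * ∫ η, E.ev (w η) (fun x => |Ψ η x|) ∂(law μ) +
        (Fintype.card (ι → B) : ℝ) * tail2 K D t1 t2 a1 a2 Q1 Q2) +
      (a1 * ∫ η, E'.ev (w η) (fun y => |d.insR b (farF χ2 S2 c2 N η) (Ψ η) y|) ∂(law μ) +
        (Fintype.card (ι → B) : ℝ) * tail1 K (D * (d.sz * (S2.card * (M2 * V)))) t1 a1 Q1) +
      (a2 * ∫ η, E'.ev (w η) (fun y => |d.insR b (farF χ1 S1 c1 N η) (Ψ η) y|) ∂(law μ) +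
        (Fintype.card (ι' → B) : ℝ) * tail1 K (D * (d.sz * (S1.card * (M1 * V)))) t2 a2 Q3 +
        ∫ η, E2.ev (w η) (fun y => |d'.insR b (farF χ3 S2 c2 N η)
          (d.insR b (farF χ1 S1 c1 N η) (Ψ η)) y|) ∂(law μ)) +
      ∫ η, E'.ev (w η) (fun y => |d.insR b (dwF χ1 S1 S2 c1 c2' N η) (Ψ η) y|) ∂(law μ) := by
  -- measurability and bounds of the path functionals
  have mC1 : ∀ β : ι → B, Measurable fun η => H19.Cf S1 (cut (χ1 β) c1) N η := fun β =>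
    meas_Cf (BF_mul b1 (z1 β) (u1 β)).meas N
  have bC1 : ∀ (β : ι → B) η y, |H19.Cf S1 (cut (χ1 β) c1) N η y| ≤ S1.card * (M1 * V) := fun β η y =>
    abs_Cf_le (BF_mul b1 (z1 β) (u1 β)).bd hw1.bd η y
  have mR1 : ∀ β : ι → B, Measurable fun η => farF χ1 S1 c1 N η β := fun β => meas_Cf (BF_mul' b1 (z1 β) (u1 β)).meas N
  have bR1 : ∀ η (β : ι → B) y, |farF χ1 S1 c1 N η β y| ≤ S1.card * (M1 * V) := fun η β y =>
    abs_Cf_le (BF_mul' b1 (z1 β) (u1 β)).bd hw1.bd η y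
  have mR2 : ∀ β : ι → B, Measurable fun η => farF χ2 S2 c2 N η β := fun β => meas_Cf (BF_mul' b2 (z2 β) (u2 β)).meas N
  have bR2 : ∀ η (β : ι → B) y, |farF χ2 S2 c2 N η β y| ≤ S2.card * (M2 * V) := fun η β y =>
    abs_Cf_le (BF_mul' b2 (z2 β) (u2 β)).bd hw2.bd η y
  have mT2 : Measurable fun η => H19.Cf S2 c2 N η := meas_Cf b2.meas N
  have bT2 : ∀ η y, |H19.Cf S2 c2 N η y| ≤ S2.card * (M2 * V) := fun η y => abs_Cf_le b2.bd hw2.bd η y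
  have bD1 : ∀ (β : ι → B), H19.BF S2 (H19.Dc S1 (cut (χ1 β) c1) c2') (S1.card * (M1 * M3)) := fun β =>
    (BF_mul b1 (z1 β) (u1 β)).dc b3 fun p hp q hq η x => by unfold cut; rw [h12 p hp q hq]
  have bD2 : ∀ (β : ι → B), H19.BF S2 (H19.Dc S1 (cut' (χ1 β) c1) c2') (S1.card * (M1 * M3)) := fun β =>
    (BF_mul' b1 (z1 β) (u1 β)).dc b3 fun p hp q hq η x => by unfold cut'; rw [h12 p hp q hq]
  have mW : ∀ β : ι → B, Measurable fun η => dwF χ1 S1 S2 c1 c2' N η β := fun β => meas_Cf (bD2 β).meas N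
  have bW : ∀ η (β : ι → B) y, |dwF χ1 S1 S2 c1 c2' N η β y| ≤ S2.card * (S1.card * (M1 * M3) * V) := fun η β y =>
    abs_Cf_le (bD2 β).bd hw2.bd η y
  -- the observables
  have oA : ∀ β : ι → B, Obs (fun η => d.ins (H19.Cf S1 (cut (χ1 β) c1) N η) (lcG b β (Ψ η))) (D * (d.sz * (S1.card * (M1 * V)))) :=
    fun β => (hΨ.lc b β).ins d (mC1 β) (bC1 β)
  have oTA : ∀ β : ι → B, Obs (fun η => d'.ins (H19.Cf S2 c2 N η)
      (d.ins (H19.Cf S1 (cut (χ1 β) c1) N η) (lcG b β (Ψ η)))) (D * (d.sz * (S1.card * (M1 * V))) * (d'.sz * (S2.card * (M2 * V)))) :=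
    fun β => (oA β).ins d' mT2 bT2
  have oTD : ∀ β : ι → B, Obs (fun η => d.ins (H19.Cf S2 (H19.Dc S1 (cut (χ1 β) c1) c2') N η) (lcG b β (Ψ η)))
      (D * (d.sz * (S2.card * (S1.card * (M1 * M3) * V)))) := fun β =>
    (hΨ.lc b β).ins d (meas_Cf (bD1 β).meas N) fun η y => abs_Cf_le (bD1 β).bd hw2.bd η y
  have oR : Obs (fun η => d.insR b (farF χ1 S1 c1 N η) (Ψ η)) (D * (d.sz * (S1.card * (M1 * V)))) :=
    hΨ.insR d b mR1 bR1
  have oTR : Obs (fun η => d'.ins (H19.Cf S2 c2 N η) (d.insR b (farF χ1 S1 c1 N η) (Ψ η)))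
      (D * (d.sz * (S1.card * (M1 * V))) * (d'.sz * (S2.card * (M2 * V)))) := oR.ins d' mT2 bT2
  have oW : Obs (fun η => d.insR b (dwF χ1 S1 S2 c1 c2' N η) (Ψ η)) (D * (d.sz * (S2.card * (S1.card * (M1 * M3) * V)))) :=
    hΨ.insR d b mW bW
  -- the decomposition
  have e1 : ∀ η, E2.ev (w η) (d'.ins (H19.Cf S2 c2 N η) (d.ins (H19.Cf S1 c1 N η) (Ψ η))) +
        E'.ev (w η) (d.ins (H19.Cf S2 (H19.Dc S1 c1 c2') N η) (Ψ η)) =
      ∑ β : ι → B, (E2.ev (w η) (d'.ins (H19.Cf S2 c2 N η) (d.ins (H19.Cf S1 (cut (χ1 β) c1) N η) (lcG b β (Ψ η)))) +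
        E'.ev (w η) (d.ins (H19.Cf S2 (H19.Dc S1 (cut (χ1 β) c1) c2') N η) (lcG b β (Ψ η)))) +
      (E2.ev (w η) (d'.ins (H19.Cf S2 c2 N η) (d.insR b (farF χ1 S1 c1 N η) (Ψ η))) +
        E'.ev (w η) (d.insR b (dwF χ1 S1 S2 c1 c2' N η) (Ψ η))) := fun η => by
    have k1 : E2.ev (w η) (d'.ins (H19.Cf S2 c2 N η) (d.ins (H19.Cf S1 c1 N η) (Ψ η))) =
        ∑ β : ι → B, E2.ev (w η) (d'.ins (H19.Cf S2 c2 N η) (d.ins (H19.Cf S1 (cut (χ1 β) c1) N η) (lcG b β (Ψ η)))) +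
          E2.ev (w η) (d'.ins (H19.Cf S2 c2 N η) (d.insR b (farF χ1 S1 c1 N η) (Ψ η))) := by
      rw [← ev_sum, ← ev_add]
      refine ev_congr _ _ fun y => ?_
      exact ins_lin d' (H19.Cf S2 c2 N η) univ (fun x => ins_box d b (C := fun β => H19.Cf S1 (cut (χ1 β) c1) N η)
        (R := farF χ1 S1 c1 N η) (fun β => Cf_split (χ1 β) S1 c1 N η) (Ψ η) x) y
    have k2 : E'.ev (w η) (d.ins (H19.Cf S2 (H19.Dc S1 c1 c2') N η) (Ψ η)) =
        ∑ β : ι → B, E'.ev (w η) (d.ins (H19.Cf S2 (H19.Dc S1 (cut (χ1 β) c1) c2') N η) (lcG b β (Ψ η))) +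
          E'.ev (w η) (d.insR b (dwF χ1 S1 S2 c1 c2' N η) (Ψ η)) := by
      rw [← ev_sum, ← ev_add]
      refine ev_congr _ _ fun y => ?_
      refine ins_box d b (C := fun β => H19.Cf S2 (H19.Dc S1 (cut (χ1 β) c1) c2') N η)
        (R := dwF χ1 S1 S2 c1 c2' N η) (fun β => ?_) (Ψ η) y
      unfold dwF
      rw [Cf_Dc, Cf_Dc, Cf_Dc, ← Finset.sum_add_distrib]
      refine Finset.sum_congr rfl fun p _ => ?_
      rw [← add_smul]
      congr 1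
      unfold cut cut'
      ring
    rw [k1, k2, Finset.sum_add_distrib]
    ring
  simp_rw [e1]
  have iTA := fun β : ι → B => (oTA β).int (μ := μ) E2 hw1.meas
  have iTD := fun β : ι → B => (oTD β).int (μ := μ) E' hw1.meas
  have iTR := oTR.int (μ := μ) E2 hw1.meas
  have iW := oW.int (μ := μ) E' hw1.meas
  have iTB : ∀ β : ι → B, Integrable (fun η =>
      E2.ev (w η) (d'.ins (H19.Cf S2 c2 N η) (d.ins (H19.Cf S1 (cut (χ1 β) c1) N η) (lcG b β (Ψ η)))) +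
        E'.ev (w η) (d.ins (H19.Cf S2 (H19.Dc S1 (cut (χ1 β) c1) c2') N η) (lcG b β (Ψ η)))) (law μ) :=
    fun β => (iTA β).add (iTD β)
  have iTW : Integrable (fun η => E2.ev (w η) (d'.ins (H19.Cf S2 c2 N η) (d.insR b (farF χ1 S1 c1 N η) (Ψ η))) +
      E'.ev (w η) (d.insR b (dwF χ1 S1 S2 c1 c2' N η) (Ψ η))) (law μ) := iTR.add iW
  rw [integral_add (integrable_finsetSum _ fun β _ => iTB β) iTW, integral_add iTR iW,
    integral_finsetSum _ fun β _ => iTB β]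
  rw [add_assoc]
  refine (abs_add_le _ _).trans (add_le_add ?_ ((abs_add_le _ _).trans (add_le_add ?_ ?_)))
  · -- the boxes
    have k1 := fun β : ι → B => seq_cut d d' hsw h hs hd (z2 β) (u2 β) (BF_mul b1 (z1 β) (u1 β)) b2 b3 hM1 hM2
      (fun p hp q hq η x => by unfold cut; rw [h12 p hp q hq]) hc2 hw1 hw2 (hΨ.lc b β)
      (fun q hq η x => by rw [hb1 q hq]) (fun q hq η x => by rw [hb2 q hq]) q1 q2 r1 r2 (hQ1 β) (hQ2 β) ha1 ha2
    refine (Finset.abs_sum_le_sum_abs _ _).trans ((Finset.sum_le_sum fun β _ => k1 β).trans ?_)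
    rw [Finset.sum_add_distrib, Finset.sum_add_distrib, Finset.sum_add_distrib, Finset.sum_const, Finset.card_univ,
      nsmul_eq_mul, Finset.sum_const, Finset.card_univ, nsmul_eq_mul, ← Finset.mul_sum, ← Finset.mul_sum]
    refine add_le_add (add_le_add (mul_le_mul_of_nonneg_left ?_ (mul_nonneg ha1 ha2)) le_rfl)
      (add_le_add (mul_le_mul_of_nonneg_left ?_ ha1) le_rfl)
    · rw [← sum_int_lcG hΨ E hw1.meas b]
      exact Finset.sum_le_sum fun β _ => integral_mono ((hΨ.lc b β).int E hw1.meas).abs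
        ((hΨ.lc b β).abs.int E hw1.meas) fun η => abs_ev_le E (w η) _
    · exact sum_int_ins d b mR2 bR2 hΨ hw1.meas
  · -- the first insertion far
    have hbl : ∀ q ∈ S2, ∀ (η : Env) (x : ℝ), d.insR b (farF χ1 S1 c1 N (Function.update η q x)) (Ψ (Function.update η q x)) =
        d.insR b (farF χ1 S1 c1 N η) (Ψ η) := fun q hq η x => by
      have e : farF χ1 S1 c1 N (Function.update η q x) = farF χ1 S1 c1 N η := by
        funext β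
        exact Cf_blind_upd N (fun p hp η x => by unfold cut'; rw [h12 p hp q hq]) η x
      rw [e, hb2 q hq]
    exact box_oneG d' h hs b2 hM2 hw2 oR hbl b z3 u3 q2 ha2 (by nlinarith : t2 * M2 ≤ θ0) hQ3
  · -- the derivative of the field along the far part
    refine (abs_integral_le_integral_abs).trans ?_
    exact integral_mono iW.abs (oW.abs.int E' hw1.meas) fun η => abs_ev_le E' (w η) _

end

end Pool.W7d29a1.C0.H41
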