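import Pool.Agent.W_7d29a1_C0.Slab19

/-!
CURV0 (MP_7d29a1_pr), section SM, second slab derivative, part 2: estimates (two score factors at once, exponential tails), and
the derivative of the field `c2 q = conditional Gibbs mean`. (helper19)
-/

set_option autoImplicit false
set_option linter.unusedSectionVars false

namespace Pool.W7d29a1.C0.H19

open MeasureTheory ProbabilityTheory Filter Topology
open Pool.Agent.W_7d29a1_F Pool.Agent.W_7d29a1_C0.H32

noncomputable section

variable {μ : Measure ℝ} {f f' : ℝ → ℝ}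

section Est

variable [IsProbabilityMeasure μ]

/-- The exponential moment of a score sum as a real integral. -/
theorem int_exp_SS {s : ℝ → ℝ} {K θ0 : ℝ} (hs : SG μ s K θ0) {S : Finset Pt} {c : Pt → Env → ℝ} {M : ℝ} (h : BF S c M)
    (hM0 : 0 ≤ M) {t B : ℝ} (ht : 0 ≤ t) (htM : t * M ≤ θ0) (hB : ∀ η, ∑ p ∈ S, c p η ^ 2 ≤ B) :
    Integrable (fun η => Real.exp (t * |SS s S c η|)) (law μ) ∧
      ∫ η, Real.exp (t * |SS s S c η|) ∂(law μ) ≤ 2 * Real.exp (K * t ^ 2 * B) := by
  have h1 := mgf_abs hs hM0 ht htM S c h.meas h.pred h.bd hB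
  have hmS := SS_meas hs.1 h.meas
  have habs : Measurable fun η => |SS s S c η| := by
    have := hmS.norm
    simpa [Real.norm_eq_abs] using this
  have hI : Integrable (fun η => Real.exp (t * |SS s S c η|)) (law μ) := by
    refine ⟨(habs.const_mul t).exp.aestronglyMeasurable, ?_⟩
    rw [hasFiniteIntegral_iff_ofReal (ae_of_all _ fun η => (Real.exp_pos _).le)]
    exact h1.trans_lt ENNReal.ofReal_lt_top
  refine ⟨hI, ?_⟩
  rw [← ofReal_integral_eq_lintegral_ofReal hI (ae_of_all _ fun η => (Real.exp_pos _).le)] at h1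
  exact (ENNReal.ofReal_le_ofReal_iff (by positivity)).1 h1

/-- Pointwise: a product is at most `a b`, or exponentially unlikely. -/
theorem mul_le_tail {x y a b s t : ℝ} (hs : 0 < s) (ht : 0 < t) (ha : 0 ≤ a) (hb : 0 ≤ b) :
    |x| * |y| ≤ a * b + (Real.exp (-(s * a / 2)) + Real.exp (-(t * b / 2))) / (s * t) *
      (Real.exp (2 * s * |x|) + Real.exp (2 * t * |y|)) := by
  have hx := abs_nonneg x
  have hy := abs_nonneg y
  have hst : 0 < s * t := mul_pos hs ht
  have e0 : 0 < Real.exp (2 * s * |x|) + Real.exp (2 * t * |y|) := add_pos (Real.exp_pos _) (Real.exp_pos _)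
  -- the tail estimate in one of the two variables
  have key : ∀ {u v σ τ c : ℝ}, 0 ≤ u → 0 ≤ v → 0 < σ → 0 < τ → c < u →
      u * v ≤ Real.exp (-(σ * c / 2)) / (σ * τ) * (Real.exp (2 * σ * u) + Real.exp (2 * τ * v)) := by
    intro u v σ τ c hu hv hσ hτ hc
    have h1 : (σ * u * Real.exp (σ * u / 2)) * (τ * v) ≤ Real.exp (2 * σ * u) + Real.exp (2 * τ * v) := by
      have h2 := two_mul_le_add_sq (σ * u * Real.exp (σ * u / 2)) (τ * v)
      have h3 := sq_le_two_exp (u := σ * u) (by positivity)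
      have h4 := sq_le_two_exp (u := τ * v) (by positivity)
      have h5 : (σ * u * Real.exp (σ * u / 2)) ^ 2 = (σ * u) ^ 2 * Real.exp (σ * u) := by
        rw [mul_pow, ← Real.exp_nat_mul]
        congr 2
        push_cast
        ring
      have h6 : (σ * u) ^ 2 * Real.exp (σ * u) ≤ 2 * Real.exp (2 * σ * u) := by
        calc (σ * u) ^ 2 * Real.exp (σ * u) ≤ 2 * Real.exp (σ * u) * Real.exp (σ * u) :=
              mul_le_mul_of_nonneg_right h3 (Real.exp_pos _).le
          _ = 2 * Real.exp (2 * σ * u) := by rw [mul_assoc, ← Real.exp_add]; ring_nf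
      have h7 : Real.exp (τ * v) ≤ Real.exp (2 * τ * v) := Real.exp_le_exp.2 (by nlinarith [mul_nonneg hτ.le hv])
      nlinarith
    have h8 : 1 ≤ Real.exp (-(σ * c / 2)) * Real.exp (σ * u / 2) := by
      rw [← Real.exp_add]
      exact Real.one_le_exp (by nlinarith)
    have h9 : u * v ≤ u * v * (Real.exp (-(σ * c / 2)) * Real.exp (σ * u / 2)) :=
      le_mul_of_one_le_right (mul_nonneg hu hv) h8
    refine h9.trans ?_
    have h10 : u * v * (Real.exp (-(σ * c / 2)) * Real.exp (σ * u / 2)) =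
        Real.exp (-(σ * c / 2)) / (σ * τ) * ((σ * u * Real.exp (σ * u / 2)) * (τ * v)) := by
      field_simp
    rw [h10]
    exact mul_le_mul_of_nonneg_left h1 (by positivity)
  have hsum : ∀ A B : ℝ, 0 ≤ A → 0 ≤ B → A / (s * t) * (Real.exp (2 * s * |x|) + Real.exp (2 * t * |y|)) ≤
      (A + B) / (s * t) * (Real.exp (2 * s * |x|) + Real.exp (2 * t * |y|)) := fun A B _ hB => by
    refine mul_le_mul_of_nonneg_right ?_ e0.le
    exact div_le_div_of_nonneg_right (by linarith) hst.le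
  rcases lt_or_ge a |x| with h | h
  · have h1 := key hx hy hs ht h
    have h2 := hsum (Real.exp (-(s * a / 2))) (Real.exp (-(t * b / 2))) (Real.exp_pos _).le (Real.exp_pos _).le
    have h3 : 0 ≤ a * b := mul_nonneg ha hb
    linarith
  · rcases lt_or_ge b |y| with h' | h'
    · have h1 := key hy hx ht hs h'
      have h2 := hsum (Real.exp (-(t * b / 2))) (Real.exp (-(s * a / 2))) (Real.exp_pos _).le (Real.exp_pos _).le
      have h3 : 0 ≤ a * b := mul_nonneg ha hb
      have h4 : |y| * |x| = |x| * |y| := mul_comm _ _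
      rw [h4, mul_comm t s, add_comm (Real.exp (2 * t * |y|))] at h1
      rw [add_comm (Real.exp (-(t * b / 2)))] at h2
      linarith
    · have h1 : |x| * |y| ≤ a * b := mul_le_mul h h' hy ha
      have h2 : 0 ≤ (Real.exp (-(s * a / 2)) + Real.exp (-(t * b / 2))) / (s * t) *
          (Real.exp (2 * s * |x|) + Real.exp (2 * t * |y|)) := by positivity
      linarith

/-- **Two score factors.** `|Ψ| ≤ D`; each score sum is at most `a i`, up to an exponentially small part. -/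
theorem est_two {s : ℝ → ℝ} {K θ0 : ℝ} (hs : SG μ s K θ0) {S1 S2 : Finset Pt} {c1 c2 : Pt → Env → ℝ} {M1 M2 : ℝ}
    (b1 : BF S1 c1 M1) (b2 : BF S2 c2 M2) (p1 : 0 ≤ M1) (p2 : 0 ≤ M2) {t1 t2 B1 B2 a1 a2 D : ℝ} (q1 : 0 < t1) (q2 : 0 < t2)
    (r1 : 2 * t1 * M1 ≤ θ0) (r2 : 2 * t2 * M2 ≤ θ0) (hB1 : ∀ η, ∑ p ∈ S1, c1 p η ^ 2 ≤ B1)
    (hB2 : ∀ η, ∑ p ∈ S2, c2 p η ^ 2 ≤ B2) (ha1 : 0 ≤ a1) (ha2 : 0 ≤ a2) {Ψ : Env → ℝ} (m0 : Integrable Ψ (law μ))
    (hD : ∀ η, |Ψ η| ≤ D) :
    |∫ η, Ψ η * (SS s S1 c1 η * SS s S2 c2 η) ∂(law μ)| ≤ a1 * a2 * ∫ η, |Ψ η| ∂(law μ) +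
      D * ((Real.exp (-(t1 * a1 / 2)) + Real.exp (-(t2 * a2 / 2))) / (t1 * t2) *
        (2 * Real.exp (4 * K * t1 ^ 2 * B1) + 2 * Real.exp (4 * K * t2 ^ 2 * B2))) := by
  have hD0 : 0 ≤ D := (abs_nonneg _).trans (hD (fun _ => 0))
  obtain ⟨i1, j1⟩ := int_exp_SS hs b1 p1 (t := 2 * t1) (by positivity) r1 hB1
  obtain ⟨i2, j2⟩ := int_exp_SS hs b2 p2 (t := 2 * t2) (by positivity) r2 hB2
  have k1 : K * (2 * t1) ^ 2 * B1 = 4 * K * t1 ^ 2 * B1 := by ring
  have k2 : K * (2 * t2) ^ 2 * B2 = 4 * K * t2 ^ 2 * B2 := by ring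
  rw [k1] at j1
  rw [k2] at j2
  set E : ℝ := (Real.exp (-(t1 * a1 / 2)) + Real.exp (-(t2 * a2 / 2))) / (t1 * t2) with hE
  have hE0 : 0 ≤ E := by positivity
  set G : Env → ℝ := fun η => a1 * a2 * |Ψ η| + D * (E * (Real.exp (2 * t1 * |SS s S1 c1 η|) +
    Real.exp (2 * t2 * |SS s S2 c2 η|))) with hG
  have hGi : Integrable G (law μ) := (m0.abs.const_mul _).add (((i1.add i2).const_mul E).const_mul D)
  have hpt : ∀ η, ‖Ψ η * (SS s S1 c1 η * SS s S2 c2 η)‖ ≤ G η := fun η => by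
    rw [Real.norm_eq_abs, abs_mul, abs_mul]
    have h1 := mul_le_tail (x := SS s S1 c1 η) (y := SS s S2 c2 η) q1 q2 ha1 ha2
    have h2 := mul_le_mul_of_nonneg_left h1 (abs_nonneg (Ψ η))
    have h3 : |Ψ η| * (E * (Real.exp (2 * t1 * |SS s S1 c1 η|) + Real.exp (2 * t2 * |SS s S2 c2 η|))) ≤
        D * (E * (Real.exp (2 * t1 * |SS s S1 c1 η|) + Real.exp (2 * t2 * |SS s S2 c2 η|))) :=
      mul_le_mul_of_nonneg_right (hD η) (by positivity)
    show |Ψ η| * (|SS s S1 c1 η| * |SS s S2 c2 η|) ≤ a1 * a2 * |Ψ η| + D * (E * (Real.exp (2 * t1 * |SS s S1 c1 η|) +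
      Real.exp (2 * t2 * |SS s S2 c2 η|)))
    rw [mul_add] at h2
    linarith
  have h5 : ∫ η, G η ∂(law μ) = a1 * a2 * ∫ η, |Ψ η| ∂(law μ) + D * (E * (∫ η, Real.exp (2 * t1 * |SS s S1 c1 η|) ∂(law μ) +
      ∫ η, Real.exp (2 * t2 * |SS s S2 c2 η|) ∂(law μ))) := by
    have e1 : ∫ η, G η ∂(law μ) = ∫ η, a1 * a2 * |Ψ η| ∂(law μ) + ∫ η, D * (E * (Real.exp (2 * t1 * |SS s S1 c1 η|) +
        Real.exp (2 * t2 * |SS s S2 c2 η|))) ∂(law μ) :=
      integral_add (m0.abs.const_mul _) (((i1.add i2).const_mul E).const_mul D)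
    have e2 : ∫ η, (Real.exp (2 * t1 * |SS s S1 c1 η|) + Real.exp (2 * t2 * |SS s S2 c2 η|)) ∂(law μ) =
        ∫ η, Real.exp (2 * t1 * |SS s S1 c1 η|) ∂(law μ) + ∫ η, Real.exp (2 * t2 * |SS s S2 c2 η|) ∂(law μ) :=
      integral_add i1 i2
    rw [e1, integral_const_mul, integral_const_mul, integral_const_mul, e2]
  calc |∫ η, Ψ η * (SS s S1 c1 η * SS s S2 c2 η) ∂(law μ)| ≤ ∫ η, G η ∂(law μ) := by
        rw [← Real.norm_eq_abs]
        exact norm_integral_le_of_norm_le hGi (ae_of_all _ hpt)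
    _ ≤ _ := by
        rw [h5]
        gcongr

/-- **One score factor**, the same form. -/
theorem est_one {s : ℝ → ℝ} {K θ0 : ℝ} (hs : SG μ s K θ0) {S : Finset Pt} {c : Pt → Env → ℝ} {M : ℝ}
    (b : BF S c M) (hM : 0 ≤ M) {t B a D : ℝ} (ht : 0 < t) (htM : t * M ≤ θ0) (hB : ∀ η, ∑ p ∈ S, c p η ^ 2 ≤ B)
    {Ψ : Env → ℝ} (m0 : Integrable Ψ (law μ)) (hD : ∀ η, |Ψ η| ≤ D) :
    |∫ η, Ψ η * SS s S c η ∂(law μ)| ≤ a * ∫ η, |Ψ η| ∂(law μ) +
      D * (2 / t * Real.exp (-(t * a / 2)) * (2 * Real.exp (K * t ^ 2 * B))) := by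
  have hD0 : 0 ≤ D := (abs_nonneg _).trans (hD (fun _ => 0))
  obtain ⟨i1, j1⟩ := int_exp_SS hs b hM ht.le htM hB
  have key : ∀ x : ℝ, |x| ≤ a + 2 / t * Real.exp (-(t * a / 2)) * Real.exp (t * |x|) := fun x => by
    rcases le_or_gt |x| a with h | h
    · have : 0 ≤ 2 / t * Real.exp (-(t * a / 2)) * Real.exp (t * |x|) := by positivity
      linarith
    · have h1 : t * |x| / 2 ≤ Real.exp (t * |x| / 2) := by
        have := Real.add_one_le_exp (t * |x| / 2)
        linarith
      have h2 : Real.exp (t * |x| / 2) ≤ Real.exp (-(t * a / 2)) * Real.exp (t * |x|) := by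
        rw [← Real.exp_add]
        exact Real.exp_le_exp.2 (by nlinarith)
      have h3 : 2 / t * (t * |x| / 2) = |x| := by field_simp
      have h4 : 2 / t * (t * |x| / 2) ≤ 2 / t * (Real.exp (-(t * a / 2)) * Real.exp (t * |x|)) :=
        mul_le_mul_of_nonneg_left (h1.trans h2) (by positivity)
      rw [h3, ← mul_assoc] at h4
      have h5 : |x| ≤ 2 / t * Real.exp (-(t * a / 2)) * Real.exp (t * |x|) := h4
      by_cases ha : 0 ≤ a
      · linarith
      · -- `a < 0`: the exponential is large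
        push Not at ha
        have h6 : -a ≤ 2 / t * Real.exp (-(t * a / 2)) * Real.exp (t * |x|) - |x| := by
          have e1 : Real.exp (-(t * a / 2)) * Real.exp (t * |x|) = Real.exp (t * |x| - t * a / 2) := by
            rw [← Real.exp_add]; ring_nf
          have e2 := Real.add_one_le_exp (t * |x| - t * a / 2)
          have e3 : 2 / t * (t * |x| - t * a / 2) = 2 * |x| - a := by field_simp
          have e4 : 2 / t * (t * |x| - t * a / 2) ≤ 2 / t * Real.exp (t * |x| - t * a / 2) :=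
            mul_le_mul_of_nonneg_left (by linarith) (by positivity)
          rw [e3, ← e1, ← mul_assoc] at e4
          linarith [abs_nonneg x]
        linarith
  set E : ℝ := 2 / t * Real.exp (-(t * a / 2)) with hE
  have hE0 : 0 ≤ E := by positivity
  have hGi : Integrable (fun η => a * |Ψ η| + D * (E * Real.exp (t * |SS s S c η|))) (law μ) :=
    (m0.abs.const_mul _).add ((i1.const_mul E).const_mul D)
  have hpt : ∀ η, ‖Ψ η * SS s S c η‖ ≤ a * |Ψ η| + D * (E * Real.exp (t * |SS s S c η|)) := fun η => by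
    rw [Real.norm_eq_abs, abs_mul]
    have h2 := mul_le_mul_of_nonneg_left (key (SS s S c η)) (abs_nonneg (Ψ η))
    have h3 : |Ψ η| * (E * Real.exp (t * |SS s S c η|)) ≤ D * (E * Real.exp (t * |SS s S c η|)) :=
      mul_le_mul_of_nonneg_right (hD η) (by positivity)
    rw [mul_add] at h2
    linarith
  calc |∫ η, Ψ η * SS s S c η ∂(law μ)| ≤ ∫ η, (a * |Ψ η| + D * (E * Real.exp (t * |SS s S c η|))) ∂(law μ) := by
        rw [← Real.norm_eq_abs]
        exact norm_integral_le_of_norm_le hGi (ae_of_all _ hpt)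
    _ = a * ∫ η, |Ψ η| ∂(law μ) + D * (E * ∫ η, Real.exp (t * |SS s S c η|) ∂(law μ)) := by
        rw [integral_add (m0.abs.const_mul _) ((i1.const_mul E).const_mul D), integral_const_mul, integral_const_mul,
          integral_const_mul]
    _ ≤ _ := by gcongr

end Est

/-! ### The derivative of a conditional Gibbs mean -/

section Gibbs

variable {X : Type*} [Fintype X] [Nonempty X]

/-- The first cumulant is the Gibbs mean. -/
theorem cm_one (g w : X → ℝ) : cm [g] w = gm w g := by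
  refine cm_cons_eq ?_
  have h1 : HasDerivAt (fun t : ℝ => gz (w + t • g)) (∑ x, Real.exp (w x) * g x) 0 := by
    unfold gz
    refine HasDerivAt.fun_sum fun x _ => ?_
    have h2 : HasDerivAt (fun t : ℝ => (w + t • g) x) (g x) 0 := by
      have h3 := ((hasDerivAt_id (0 : ℝ)).mul_const (g x)).const_add (w x)
      simpa using h3
    have h4 := h2.exp
    simpa using h4
  have h5 : gz (w + (0 : ℝ) • g) = gz w := by rw [zero_smul, add_zero]
  have h6 := h1.log (by rw [h5]; exact gz_ne w)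
  rw [h5] at h6
  exact h6

/-- **The derivative of a Gibbs mean** in the weights is the covariance. -/
theorem hasDerivAt_gm (A : X → ℝ) {w : ℝ → X → ℝ} {w' : X → ℝ} {t : ℝ} (h : HasDerivAt w w' t) :
    HasDerivAt (fun t => gm (w t) A) (cm [w', A] (w t)) t := by
  have h1 := hasDerivAt_cm [A] h
  simpa only [cm_one] using h1

/-- The covariance. -/
theorem cm_two (g A w : X → ℝ) : cm [g, A] w = gm w (fun x => g x * A x) - gm w g * gm w A := by
  refine cm_cons_eq ?_
  have hz : HasDerivAt (fun t : ℝ => gz (w + t • g)) (∑ x, Real.exp (w x) * g x) 0 := by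
    unfold gz
    refine HasDerivAt.fun_sum fun x _ => ?_
    have h2 : HasDerivAt (fun t : ℝ => (w + t • g) x) (g x) 0 := by
      have h3 := ((hasDerivAt_id (0 : ℝ)).mul_const (g x)).const_add (w x)
      simpa using h3
    simpa using h2.exp
  have hn : HasDerivAt (fun t : ℝ => ∑ x, Real.exp ((w + t • g) x) * A x) (∑ x, Real.exp (w x) * g x * A x) 0 := by
    refine HasDerivAt.fun_sum fun x _ => ?_
    have h2 : HasDerivAt (fun t : ℝ => (w + t • g) x) (g x) 0 := by
      have h3 := ((hasDerivAt_id (0 : ℝ)).mul_const (g x)).const_add (w x)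
      simpa using h3
    have h4 := h2.exp.mul_const (A x)
    simpa using h4
  have h5 : gz (w + (0 : ℝ) • g) = gz w := by rw [zero_smul, add_zero]
  have h6 := hn.div hz (by rw [h5]; exact gz_ne w)
  have h7 : (fun t : ℝ => cm [A] (w + t • g)) = fun t : ℝ => (∑ x, Real.exp ((w + t • g) x) * A x) / gz (w + t • g) := by
    funext t
    rw [cm_one]
    rfl
  rw [h7]
  refine h6.congr_deriv ?_
  rw [h5]
  simp only [zero_smul, add_zero]
  unfold gm
  have h8 := gz_ne w
  have h9 : ∑ x, Real.exp (w x) * g x * A x = ∑ x, Real.exp (w x) * (g x * A x) :=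
    Finset.sum_congr rfl fun x _ => by ring
  rw [h9]
  field_simp

theorem abs_gm_le_of {w g : X → ℝ} {M : ℝ} (h : ∀ x, |g x| ≤ M) : |gm w g| ≤ M := by
  refine (abs_gm_le w g).trans ?_
  calc gm w (fun x => |g x|) ≤ gm w (fun _ => M) := gm_mono w h
    _ = M := gm_const w M

/-- The trivial bound of a covariance. -/
theorem abs_cm_two_le {g A w : X → ℝ} {M M' : ℝ} (h : ∀ x, |g x| ≤ M) (h' : ∀ x, |A x| ≤ M') :
    |cm [g, A] w| ≤ 2 * (M * M') := by
  rw [cm_two]
  have h1 : |gm w (fun x => g x * A x)| ≤ M * M' := abs_gm_le_of fun x => by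
    rw [abs_mul]
    exact mul_le_mul (h x) (h' x) (abs_nonneg _) ((abs_nonneg _).trans (h x))
  have h2 : |gm w g * gm w A| ≤ M * M' := by
    rw [abs_mul]
    exact mul_le_mul (abs_gm_le_of h) (abs_gm_le_of h') (abs_nonneg _)
      ((abs_nonneg _).trans (abs_gm_le_of (w := w) h))
  calc |gm w (fun x => g x * A x) - gm w g * gm w A| ≤ |gm w (fun x => g x * A x)| + |gm w g * gm w A| := abs_sub _ _
    _ ≤ _ := by linarith

theorem meas_gm {w A : Env → X → ℝ} (hw : Measurable w) (hA : Measurable A) : Measurable fun η => gm (w η) (A η) := by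
  unfold gm gz
  have h1 : ∀ x, Measurable fun η => Real.exp (w η x) := fun x => ((measurable_pi_apply x).comp hw).exp
  have h2 : ∀ x, Measurable fun η => A η x := fun x => (measurable_pi_apply x).comp hA
  exact (Finset.measurable_sum _ fun x _ => (h1 x).mul (h2 x)).div (Finset.measurable_sum _ fun x _ => h1 x)

theorem meas_cm_two {w A g : Env → X → ℝ} (hw : Measurable w) (hA : Measurable A) (hg : Measurable g) :
    Measurable fun η => cm [g η, A η] (w η) := by
  simp_rw [cm_two]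
  refine (meas_gm hw ?_).sub ((meas_gm hw hg).mul (meas_gm hw hA))
  refine measurable_pi_lambda _ fun x => ?_
  exact ((measurable_pi_apply x).comp hg).mul ((measurable_pi_apply x).comp hA)

end Gibbs

/-! ### The field of conditional means -/

section Field

variable (Y : Pt → Type) [∀ q, Fintype (Y q)] [∀ q, Nonempty (Y q)]

/-- The field `c q = E[A | the path goes through q]`: `Y q` = the paths up to `q`, `v q` their log weights. -/
def cmean (v A : (q : Pt) → Env → Y q → ℝ) (q : Pt) (η : Env) : ℝ := gm (v q η) (A q η)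

/-- Its derivative along the site `p`: the conditional covariance of the visits of `p` and of `A`. -/
def cmean' (v A : (q : Pt) → Env → Y q → ℝ) (NY : (q : Pt) → Pt → Y q → ℝ) (p q : Pt) (η : Env) : ℝ :=
  cm [NY q p, A q η] (v q η)

variable {Y}

theorem hasDerivAt_cmean {v A : (q : Pt) → Env → Y q → ℝ} {NY : (q : Pt) → Pt → Y q → ℝ} {p q : Pt} (η : Env) (x : ℝ)
    (hv : HasDerivAt (fun t => v q (Function.update η p t)) (NY q p) x)
    (hA : ∀ t : ℝ, A q (Function.update η p t) = A q η) :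
    HasDerivAt (fun t => cmean Y v A q (Function.update η p t)) (cmean' Y v A NY p q (Function.update η p x)) x := by
  unfold cmean cmean'
  simp only [hA]
  exact hasDerivAt_gm (A q η) hv

/-- **The field `D_{c1} c2` is the conditional covariance** of the path functional of `c1` and of `A`. -/
theorem Dc_cmean {v A : (q : Pt) → Env → Y q → ℝ} {NY : (q : Pt) → Pt → Y q → ℝ} (S1 : Finset Pt) (c1 : Pt → Env → ℝ)
    (q : Pt) (η : Env) : Dc S1 c1 (cmean' Y v A NY) q η = cm [Cf S1 c1 (NY q) η, A q η] (v q η) := by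
  rw [cm_Cf]
  rfl

theorem BF_cmean {S : Finset Pt} {v A : (q : Pt) → Env → Y q → ℝ} {M : ℝ} (mv : ∀ q ∈ S, Measurable (v q))
    (mA : ∀ q ∈ S, Measurable (A q)) (hA : ∀ q ∈ S, ∀ η y, |A q η y| ≤ M)
    (pv : ∀ q ∈ S, ∀ r ∈ S, q.1 ≤ r.1 → ∀ (η : Env) (x : ℝ), v q (Function.update η r x) = v q η)
    (pA : ∀ q ∈ S, ∀ r ∈ S, q.1 ≤ r.1 → ∀ (η : Env) (x : ℝ), A q (Function.update η r x) = A q η) :
    BF S (cmean Y v A) M := by
  refine ⟨fun q hq => meas_gm (mv q hq) (mA q hq), fun q hq r hr hle η x => ?_, fun q hq η => abs_gm_le_of (hA q hq η)⟩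
  unfold cmean
  rw [pv q hq r hr hle, pA q hq r hr hle]

theorem BF_cmean' {S : Finset Pt} {v A : (q : Pt) → Env → Y q → ℝ} {NY : (q : Pt) → Pt → Y q → ℝ} {M b : ℝ} (p : Pt)
    (mv : ∀ q ∈ S, Measurable (v q)) (mA : ∀ q ∈ S, Measurable (A q)) (hA : ∀ q ∈ S, ∀ η y, |A q η y| ≤ M)
    (hN : ∀ q ∈ S, ∀ y, |NY q p y| ≤ b)
    (pv : ∀ q ∈ S, ∀ r ∈ S, q.1 ≤ r.1 → ∀ (η : Env) (x : ℝ), v q (Function.update η r x) = v q η)
    (pA : ∀ q ∈ S, ∀ r ∈ S, q.1 ≤ r.1 → ∀ (η : Env) (x : ℝ), A q (Function.update η r x) = A q η) :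
    BF S (cmean' Y v A NY p) (2 * (b * M)) := by
  refine ⟨fun q hq => meas_cm_two (mv q hq) (mA q hq) measurable_const, fun q hq r hr hle η x => ?_,
    fun q hq η => abs_cm_two_le (hN q hq) (hA q hq η)⟩
  unfold cmean'
  rw [pv q hq r hr hle, pA q hq r hr hle]

end Field

end

end Pool.W7d29a1.C0.H19
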