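import Pool.Agent.W_7d29a1_C0.Mod92
import Pool.Agent.W_7d29a1_C0.Slab19B

/-!
CURV0 (MP_7d29a1_pr), section SM on the model of `Mod92`: THE LINEAR SLAB FIELD. (helper19)

`pb m S` = what the path `S` does behind the row `m`, with its position there. `Past c H`: `H η S` looks only at the environment of
the rows `≤ c` and at the path up to the row `c`. The measure is `exp (lw + U)` with a tilt `U` of the past (`U = (t - a) g_j`:
the interpolated measure `wt`). The field `fq H q η` = mean of `H` over the paths from the origin to the site `q`: an explicit ratio of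
sums over the past (`cmean` of `Slab19B`), predictable; `cE_pb`: it is the conditional mean given the path behind the row,
`cC_pb`: the same for the covariances; `Cf_slab`: the path functional of the field over the rows `J`.
-/

set_option autoImplicit false
set_option linter.unusedSectionVars false
set_option linter.unusedVariables false

namespace Pool.W7d29a1.C0.Fld19

open Finset MeasureTheory Pool.Agent.W_7d29a1_F Pool.Agent.W_7d29a1_X
open Pool.Agent.W_7d29a1_C0.Mod92 (Px Fr Pn ne_Pn lw ps sum_Px exp_lw pos_card)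
open Pool.W7d29a1.C0
open Pool.W7d29a1.C0.VT31 (Mp cE cC cV fz)
open Pool.W7d29a1.C0.H19 (BF Dc Cf cmean cmean' BF_cmean BF_cmean' hasDerivAt_cmean Dc_cmean)

noncomputable section

variable {μ : Measure ℝ} {s : ℝ} {N : ℕ} {Q : Finset (Finset ℕ)}

/-! ### Paths: regluing of the past -/

/-- A family of paths of length `N` in which the past of a path may be exchanged. -/
structure GQ (N : ℕ) (Q : Finset (Finset ℕ)) : Prop where
  sub : ∀ S ∈ Q, S ⊆ range N
  glue : ∀ S ∈ Q, ∀ m ≤ N, ∀ T ⊆ range m, T.card = (S ∩ range m).card → T ∪ (S \ range m) ∈ Q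

theorem gq_Fr (N : ℕ) : GQ N (Fr N) where
  sub S hS := mem_powerset.1 hS
  glue S hS m hm T hT _ := by
    rw [mem_powerset] at hS ⊢
    exact union_subset (hT.trans (range_subset_range.2 hm)) (sdiff_subset.trans hS)

theorem gq_Pn (N y : ℕ) : GQ N (Pn N y) where
  sub S hS := (mem_powersetCard.1 hS).1
  glue S hS m hm T hT hc := by
    rw [mem_powersetCard] at hS ⊢
    refine ⟨union_subset (hT.trans (range_subset_range.2 hm)) (sdiff_subset.trans hS.1), ?_⟩
    rw [card_union_of_disjoint, hc, ← hS.2]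
    · have h := card_sdiff_add_card_inter S (range m)
      omega
    · rw [disjoint_left]
      intro i h1 h2
      exact (mem_sdiff.1 h2).2 (hT h1)

theorem union_inter_le {S T : Finset ℕ} {m t : ℕ} (hT : T ⊆ range m) (h : t ≤ m) : (T ∪ (S \ range m)) ∩ range t = T ∩ range t := by
  ext i
  simp only [mem_inter, mem_union, mem_sdiff, mem_range]
  constructor
  · rintro ⟨h1 | ⟨_, h2⟩, h3⟩
    · exact ⟨h1, h3⟩
    · omega
  · rintro ⟨h1, h3⟩
    exact ⟨Or.inl h1, h3⟩

theorem pos_union_le {S T : Finset ℕ} {m t : ℕ} (hT : T ⊆ range m) (h : t ≤ m) : pos (T ∪ (S \ range m)) t = pos T t := by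
  unfold pos
  rw [union_inter_le hT h]

theorem pos_union_ge {S T : Finset ℕ} {m t : ℕ} (hT : T ⊆ range m) (hc : T.card = (S ∩ range m).card) (h : m ≤ t) :
    pos (T ∪ (S \ range m)) t = pos S t := by
  unfold pos
  have e1 : (T ∪ (S \ range m)) ∩ range t = T ∪ ((S \ range m) ∩ range t) := by
    ext i
    simp only [mem_inter, mem_union, mem_sdiff, mem_range]
    constructor
    · rintro ⟨h1 | h2, h3⟩
      · exact Or.inl h1
      · exact Or.inr ⟨h2, h3⟩
    · rintro (h1 | ⟨h2, h3⟩)
      · exact ⟨Or.inl h1, by have := mem_range.1 (hT h1); omega⟩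
      · exact ⟨Or.inr h2, h3⟩
  have e2 : S ∩ range t = (S ∩ range m) ∪ ((S \ range m) ∩ range t) := by
    ext i
    simp only [mem_inter, mem_union, mem_sdiff, mem_range]
    constructor
    · rintro ⟨h1, h3⟩
      by_cases h4 : i < m
      · exact Or.inl ⟨h1, h4⟩
      · exact Or.inr ⟨⟨h1, h4⟩, h3⟩
    · rintro (⟨h1, h3⟩ | ⟨⟨h1, h2⟩, h3⟩)
      · exact ⟨h1, by omega⟩
      · exact ⟨h1, h3⟩
  have d1 : Disjoint T ((S \ range m) ∩ range t) := by
    rw [disjoint_left]
    intro i h1 h2
    exact (mem_sdiff.1 (mem_inter.1 h2).1).2 (hT h1)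
  have d2 : Disjoint (S ∩ range m) ((S \ range m) ∩ range t) := by
    rw [disjoint_left]
    intro i h1 h2
    exact (mem_sdiff.1 (mem_inter.1 h2).1).2 (mem_inter.1 h1).2
  rw [e1, e2, card_union_of_disjoint d1, card_union_of_disjoint d2, hc]

/-- What the path does behind the row `m`, with its position there. -/
def pb (m : ℕ) (S : Px Q) : ℤ × Finset ℕ := (ps S m, S.1 \ range m)

theorem pb_eq_iff {m : ℕ} {S S' : Px Q} :
    pb m S' = pb m S ↔ (S'.1 ∩ range m).card = (S.1 ∩ range m).card ∧ S'.1 \ range m = S.1 \ range m := by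
  unfold pb ps pos
  rw [Prod.mk.injEq, Int.natCast_inj]

/-- **The sum over the paths with a given future** is a sum over the pasts. -/
theorem sum_fiber (hQ : GQ N Q) {m : ℕ} (hm : m ≤ N) (S : Px Q) (F : Finset ℕ → ℝ) :
    (∑ S' : Px Q, if pb m S' = pb m S then F S'.1 else 0) =
      ∑ T ∈ (range m).powersetCard (S.1 ∩ range m).card, F (T ∪ (S.1 \ range m)) := by
  have h1 : (∑ S' : Px Q, if pb m S' = pb m S then F S'.1 else 0) =
      ∑ S' ∈ Q, if (S' ∩ range m).card = (S.1 ∩ range m).card ∧ S' \ range m = S.1 \ range m then F S' else 0 := by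
    rw [← sum_Px (Q := Q) fun S' => if (S' ∩ range m).card = (S.1 ∩ range m).card ∧ S' \ range m = S.1 \ range m then F S' else 0]
    refine sum_congr rfl fun S' _ => ?_
    by_cases h : pb m S' = pb m S
    · rw [if_pos h, if_pos (pb_eq_iff.1 h)]
    · rw [if_neg h, if_neg fun h' => h (pb_eq_iff.2 h')]
  rw [h1, ← sum_filter]
  refine sum_bij' (fun S' _ => S' ∩ range m) (fun T _ => T ∪ (S.1 \ range m)) ?_ ?_ ?_ ?_ ?_
  · intro S' h
    rw [mem_filter] at h
    rw [mem_powersetCard]
    exact ⟨inter_subset_right, h.2.1⟩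
  · intro T h
    rw [mem_powersetCard] at h
    rw [mem_filter]
    have h2 := union_inter_le (S := S.1) h.1 (le_refl m)
    refine ⟨hQ.glue S.1 S.2 m hm T h.1 h.2, ?_, ?_⟩
    · rw [h2, inter_eq_left.2 h.1, h.2]
    · ext i
      simp only [mem_sdiff, mem_union, mem_range]
      constructor
      · rintro ⟨h3 | h3, h4⟩
        · exact absurd (mem_range.1 (h.1 h3)) h4
        · exact h3
      · rintro h3
        exact ⟨Or.inr h3, h3.2⟩
  · intro S' h
    rw [mem_filter] at h
    show S' ∩ range m ∪ (S.1 \ range m) = S'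
    rw [← h.2.2]
    ext i
    simp only [mem_sdiff, mem_union, mem_inter, mem_range]
    constructor
    · rintro (h3 | h3)
      · exact h3.1
      · exact h3.1
    · intro h3
      by_cases h4 : i < m
      · exact Or.inl ⟨h3, h4⟩
      · exact Or.inr ⟨h3, h4⟩
  · intro T h
    rw [mem_powersetCard] at h
    show (T ∪ (S.1 \ range m)) ∩ range m = T
    rw [union_inter_le h.1 le_rfl, inter_eq_left.2 h.1]
  · intro S' h
    rw [mem_filter] at h
    show F S' = F (S' ∩ range m ∪ (S.1 \ range m))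
    congr 1
    rw [← h.2.2]
    ext i
    simp only [mem_sdiff, mem_union, mem_inter, mem_range]
    constructor
    · intro h3
      by_cases h4 : i < m
      · exact Or.inl ⟨h3, h4⟩
      · exact Or.inr ⟨h3, h4⟩
    · rintro (h3 | h3)
      · exact h3.1
      · exact h3.1

/-! ### Functions of the past -/

/-- `H η S` looks only at the environment of the rows `≤ c` and at the path up to the row `c`. -/
structure Past (c : ℕ) (H : Env → Finset ℕ → ℝ) : Prop where
  cut : ∀ η S, H η S = H η (S ∩ range c)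
  bl : ∀ (η : Env) (S : Finset ℕ) (r : Pt) (x : ℝ), (c : ℤ) < r.1 → H (Function.update η r x) S = H η S
  ms : ∀ S, Measurable fun η => H η S

theorem Past.mono {c c' : ℕ} {H : Env → Finset ℕ → ℝ} (h : Past c H) (hc : c ≤ c') : Past c' H where
  cut η S := by
    rw [h.cut η S, h.cut η (S ∩ range c'), inter_assoc, inter_eq_right.2 (range_subset_range.2 hc)]
  bl η S r x hr := h.bl η S r x (by
    have : (c : ℤ) ≤ c' := by exact_mod_cast hc
    omega)
  ms := h.ms

theorem Past.zero (c : ℕ) : Past c fun _ _ => 0 := ⟨fun _ _ => rfl, fun _ _ _ _ _ => rfl, fun _ => measurable_const⟩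

theorem Past.glue {c m : ℕ} {H : Env → Finset ℕ → ℝ} (h : Past c H) (hc : c ≤ m) (η : Env) {S T : Finset ℕ} (hT : T ⊆ range m) :
    H η (T ∪ (S \ range m)) = H η T := by
  rw [h.cut, union_inter_le hT hc, ← h.cut]

/-- The log weight of the path `T` up to the row `t`, without its last site. -/
def lv (s : ℝ) (η : Env) (t : ℕ) (T : Finset ℕ) : ℝ := s * (pos T t : ℝ) + ∑ i ∈ range (t - 1), η ((i : ℤ) + 1, pos T (i + 1))

/-- The paths from the origin to the site `q` (some nonempty family for the sites which are not reached). -/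
abbrev Yf (q : Pt) : Finset (Finset ℕ) := Pn q.1.toNat (min q.2.toNat q.1.toNat)

instance (q : Pt) : Nonempty (Px (Yf q)) := ne_Pn (min_le_right _ _)

/-- The log weights of the paths to the site `q`. -/
def vq (s : ℝ) (U : Env → Finset ℕ → ℝ) (q : Pt) (η : Env) : Px (Yf q) → ℝ := fun T => lv s η q.1.toNat T.1 + U η T.1

/-- A function of the past, on the paths to `q`. -/
def rq (H : Env → Finset ℕ → ℝ) (q : Pt) (η : Env) : Px (Yf q) → ℝ := fun T => H η T.1

/-- **The field**: the mean of `H` over the paths to the site `q`. -/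
def fq (s : ℝ) (U H : Env → Finset ℕ → ℝ) : Pt → Env → ℝ := cmean (fun q => Px (Yf q)) (vq s U) (rq H)

/-- The log weights of the whole paths. -/
def wU (μ : Measure ℝ) (s : ℝ) (N : ℕ) (Q : Finset (Finset ℕ)) (U : Env → Finset ℕ → ℝ) (η : Env) : Px Q → ℝ :=
  fun S => lw μ s η N Q S + U η S.1

theorem log_pth (η : Env) (N : ℕ) (S : Finset ℕ) :
    Real.log (pth μ s η N S) = s * (pos S N : ℝ) - N * lam μ s + ∑ i ∈ range N, η ((i : ℤ) + 1, pos S (i + 1)) := by
  unfold pth
  rw [← Real.exp_sum, ← Real.exp_add, Real.log_exp]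

/-- The log weight of a glued path. -/
theorem log_glue (η : Env) {m : ℕ} (hm : m ≤ N) (S : Finset ℕ) {T : Finset ℕ} (hT : T ⊆ range m)
    (hc : T.card = (S ∩ range m).card) :
    Real.log (pth μ s η N (T ∪ (S \ range m))) = lv s η m T +
      (s * (pos S N : ℝ) - s * (pos S m : ℝ) - N * lam μ s + ∑ i ∈ Ico (m - 1) N, η ((i : ℤ) + 1, pos S (i + 1))) := by
  have e0 : pos T m = pos S m := by
    unfold pos
    rw [inter_eq_left.2 hT, hc]
  rw [log_pth, pos_union_ge hT hc hm]
  have e1 : ∑ i ∈ range N, η ((i : ℤ) + 1, pos (T ∪ (S \ range m)) (i + 1)) =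
      ∑ i ∈ range (m - 1), η ((i : ℤ) + 1, pos T (i + 1)) + ∑ i ∈ Ico (m - 1) N, η ((i : ℤ) + 1, pos S (i + 1)) := by
    rw [← sum_range_add_sum_Ico _ (show m - 1 ≤ N by omega)]
    congr 1
    · refine sum_congr rfl fun i hi => ?_
      rw [mem_range] at hi
      rw [pos_union_le hT (by omega)]
    · refine sum_congr rfl fun i hi => ?_
      rw [mem_Ico] at hi
      rw [pos_union_ge hT hc (by omega)]
  rw [e1]
  unfold lv
  rw [e0]
  ring

theorem Yf_eq {m : ℕ} (S : Finset ℕ) : Yf ((m : ℤ), pos S m) = (range m).powersetCard (S ∩ range m).card := by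
  have h : (S ∩ range m).card ≤ m := by
    have h := card_le_card (inter_subset_right : S ∩ range m ⊆ range m)
    rwa [card_range] at h
  show (range ((m : ℤ)).toNat).powersetCard (min (pos S m).toNat ((m : ℤ)).toNat) = _
  unfold pos
  rw [Int.toNat_natCast, Int.toNat_natCast, min_eq_left h]

/-- **The conditional mean given the future is the mean over the paths to the site.** -/
theorem cE_pb [Nonempty (Px Q)] (hQ : GQ N Q) {c m : ℕ} (hc : c ≤ m) (hm : m ≤ N) {U H : Env → Finset ℕ → ℝ} (hU : Past c U)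
    (hH : Past m H) (η : Env) (S : Px Q) :
    cE (wU μ s N Q U η) (pb m) (fun S' => H η S'.1) S = gm (vq s U ((m : ℤ), ps S m) η) (rq H ((m : ℤ), ps S m) η) := by
  set R : ℝ := s * (pos S.1 N : ℝ) - s * (pos S.1 m : ℝ) - N * lam μ s + ∑ i ∈ Ico (m - 1) N, η ((i : ℤ) + 1, pos S.1 (i + 1))
    with hR
  have key : ∀ T ∈ (range m).powersetCard (S.1 ∩ range m).card,
      Real.exp (Real.log (pth μ s η N (T ∪ (S.1 \ range m))) + U η (T ∪ (S.1 \ range m))) =
        Real.exp R * Real.exp (lv s η m T + U η T) := fun T hT => by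
    rw [mem_powersetCard] at hT
    rw [log_glue η hm S.1 hT.1 hT.2, hU.glue hc η hT.1, ← Real.exp_add, ← hR]
    congr 1
    ring
  have h1 : (∑ S' : Px Q, if pb m S' = pb m S then Real.exp (wU μ s N Q U η S') * H η S'.1 else 0) =
      Real.exp R * ∑ T ∈ (range m).powersetCard (S.1 ∩ range m).card, Real.exp (lv s η m T + U η T) * H η T := by
    rw [show (∑ S' : Px Q, if pb m S' = pb m S then Real.exp (wU μ s N Q U η S') * H η S'.1 else 0) =
      ∑ T ∈ (range m).powersetCard (S.1 ∩ range m).card,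
        Real.exp (Real.log (pth μ s η N (T ∪ (S.1 \ range m))) + U η (T ∪ (S.1 \ range m))) * H η (T ∪ (S.1 \ range m)) from
      sum_fiber hQ hm S fun S' => Real.exp (Real.log (pth μ s η N S') + U η S') * H η S', mul_sum]
    refine sum_congr rfl fun T hT => ?_
    rw [key T hT, hH.glue le_rfl η (mem_powersetCard.1 hT).1, mul_assoc]
  have h2 : fz (wU μ s N Q U η) (pb m) S =
      Real.exp R * ∑ T ∈ (range m).powersetCard (S.1 ∩ range m).card, Real.exp (lv s η m T + U η T) := by
    unfold fz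
    rw [show (∑ S' : Px Q, if pb m S' = pb m S then Real.exp (wU μ s N Q U η S') else 0) =
      ∑ T ∈ (range m).powersetCard (S.1 ∩ range m).card,
        Real.exp (Real.log (pth μ s η N (T ∪ (S.1 \ range m))) + U η (T ∪ (S.1 \ range m))) from
      sum_fiber hQ hm S fun S' => Real.exp (Real.log (pth μ s η N S') + U η S'), mul_sum]
    exact sum_congr rfl fun T hT => key T hT
  unfold cE
  rw [h1, h2, mul_div_mul_left _ _ (Real.exp_pos R).ne']
  unfold gm gz
  have e : Yf ((m : ℤ), ps S m) = (range m).powersetCard (S.1 ∩ range m).card := Yf_eq S.1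
  have h3 : ∑ T : Px (Yf ((m : ℤ), ps S m)), Real.exp (vq s U ((m : ℤ), ps S m) η T) * rq H ((m : ℤ), ps S m) η T =
      ∑ T ∈ (range m).powersetCard (S.1 ∩ range m).card, Real.exp (lv s η m T + U η T) * H η T := by
    rw [← e]
    exact sum_Px (Q := Yf ((m : ℤ), ps S m)) fun T => Real.exp (lv s η m T + U η T) * H η T
  have h4 : ∑ T : Px (Yf ((m : ℤ), ps S m)), Real.exp (vq s U ((m : ℤ), ps S m) η T) =
      ∑ T ∈ (range m).powersetCard (S.1 ∩ range m).card, Real.exp (lv s η m T + U η T) := by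
    rw [← e]
    exact sum_Px (Q := Yf ((m : ℤ), ps S m)) fun T => Real.exp (lv s η m T + U η T)
  rw [h3, h4]

/-- The same in terms of the field. -/
theorem cE_fq [Nonempty (Px Q)] (hQ : GQ N Q) {c m : ℕ} (hc : c ≤ m) (hm : m ≤ N) {U H : Env → Finset ℕ → ℝ} (hU : Past c U)
    (hH : Past m H) (η : Env) (S : Px Q) :
    cE (wU μ s N Q U η) (pb m) (fun S' => H η S'.1) S = fq s U H ((m : ℤ), ps S m) η := cE_pb hQ hc hm hU hH η S

theorem Past.mul {c : ℕ} {H K : Env → Finset ℕ → ℝ} (hH : Past c H) (hK : Past c K) : Past c fun η S => H η S * K η S where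
  cut η S := by show H η S * K η S = H η (S ∩ range c) * K η (S ∩ range c); rw [← hH.cut, ← hK.cut]
  bl η S r x hr := by show H (Function.update η r x) S * K (Function.update η r x) S = _; rw [hH.bl η S r x hr, hK.bl η S r x hr]
  ms S := (hH.ms S).mul (hK.ms S)

/-- The covariance of two functions of the past over the paths to the site `q`. -/
def cq (s : ℝ) (U H K : Env → Finset ℕ → ℝ) (q : Pt) (η : Env) : ℝ := cm [rq H q η, rq K q η] (vq s U q η)

theorem cq_eq (s : ℝ) (U H K : Env → Finset ℕ → ℝ) (q : Pt) (η : Env) :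
    cq s U H K q η = gm (vq s U q η) (rq (fun η S => H η S * K η S) q η) -
      gm (vq s U q η) (rq H q η) * gm (vq s U q η) (rq K q η) := by
  unfold cq
  rw [Pool.W7d29a1.C0.H19.cm_two]
  rfl

/-- **The conditional covariance given the future.** -/
theorem cC_pb [Nonempty (Px Q)] (hQ : GQ N Q) {c m : ℕ} (hc : c ≤ m) (hm : m ≤ N) {U H K : Env → Finset ℕ → ℝ} (hU : Past c U)
    (hH : Past m H) (hK : Past m K) (η : Env) (S : Px Q) :
    cC (wU μ s N Q U η) (pb m) (fun S' => H η S'.1) (fun S' => K η S'.1) S = cq s U H K ((m : ℤ), ps S m) η := by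
  rw [cq_eq]
  have h1 := cE_pb (μ := μ) (s := s) hQ hc hm hU (hH.mul hK) η S
  have h2 := cE_pb (μ := μ) (s := s) hQ hc hm hU hH η S
  have h3 := cE_pb (μ := μ) (s := s) hQ hc hm hU hK η S
  show cE (wU μ s N Q U η) (pb m) (fun S' => H η S'.1 * K η S'.1) S -
    cE (wU μ s N Q U η) (pb m) (fun S' => H η S'.1) S * cE (wU μ s N Q U η) (pb m) (fun S' => K η S'.1) S = _
  rw [h1, h2, h3]

/-! ### Sites -/

/-- `1` if the path visits the site `q` (a site of a row `≥ 1`). -/
def nn (q : Pt) (S : Finset ℕ) : ℝ := if 1 ≤ q.1 ∧ pos S q.1.toNat = q.2 then 1 else 0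

theorem nn_nonneg (q : Pt) (S : Finset ℕ) : 0 ≤ nn q S := by
  unfold nn
  split_ifs <;> norm_num

theorem nn_le_one (q : Pt) (S : Finset ℕ) : nn q S ≤ 1 := by
  unfold nn
  split_ifs <;> norm_num

theorem abs_nn (q : Pt) (S : Finset ℕ) : |nn q S| ≤ 1 := by
  rw [abs_of_nonneg (nn_nonneg q S)]
  exact nn_le_one q S

/-- The derivative of a sum over the path along one site. -/
theorem hasDerivAt_sum (S : Finset ℕ) (k : ℕ) {q : Pt} (hq : q.1 ≤ k) (η : Env) (x : ℝ) :
    HasDerivAt (fun t => ∑ i ∈ range k, Function.update η q t ((i : ℤ) + 1, pos S (i + 1))) (nn q S) x := by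
  by_cases h : 1 ≤ q.1 ∧ pos S q.1.toNat = q.2
  · have hi : q.1.toNat - 1 ∈ range k := by
      rw [mem_range]
      omega
    have e : ∀ t : ℝ, ∑ i ∈ range k, Function.update η q t ((i : ℤ) + 1, pos S (i + 1)) =
        t + ∑ i ∈ (range k).erase (q.1.toNat - 1), η ((i : ℤ) + 1, pos S (i + 1)) := fun t => by
      rw [← add_sum_erase _ _ hi]
      congr 1
      · have e1 : ((((q.1.toNat - 1 : ℕ) : ℤ) + 1, pos S (q.1.toNat - 1 + 1)) : Pt) = q := by
          have h1 : q.1.toNat - 1 + 1 = q.1.toNat := by omega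
          have h2 : ((q.1.toNat - 1 : ℕ) : ℤ) + 1 = q.1 := by omega
          rw [h1, h2, h.2]
        rw [e1, Function.update_self]
      · refine sum_congr rfl fun i hi => ?_
        rw [mem_erase] at hi
        rw [Function.update_of_ne]
        intro h3
        have h4 := congrArg Prod.fst h3
        simp only at h4
        exact hi.1 (by omega)
    simp only [e]
    have : nn q S = 1 := if_pos h
    rw [this]
    exact (hasDerivAt_id x).add_const _
  · have e : ∀ t : ℝ, ∑ i ∈ range k, Function.update η q t ((i : ℤ) + 1, pos S (i + 1)) =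
        ∑ i ∈ range k, η ((i : ℤ) + 1, pos S (i + 1)) := fun t => by
      refine sum_congr rfl fun i _ => ?_
      rw [Function.update_of_ne]
      intro h3
      refine h ⟨?_, ?_⟩
      · have h4 := congrArg Prod.fst h3
        simp only at h4
        omega
      · have h4 := congrArg Prod.fst h3
        have h5 := congrArg Prod.snd h3
        simp only at h4 h5
        have h6 : q.1.toNat = i + 1 := by omega
        rw [h6, h5]
    simp only [e]
    have : nn q S = 0 := if_neg h
    rw [this]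
    exact hasDerivAt_const x _

/-- **The derivative of the log weights along one site.** -/
theorem hasDerivAt_wU {U : Env → Finset ℕ → ℝ} {c : ℕ} (hU : Past c U) {q : Pt} (hq : q.1 ≤ N) (hcq : (c : ℤ) < q.1) (η : Env) (x : ℝ) :
    HasDerivAt (fun t => wU μ s N Q U (Function.update η q t)) (fun S : Px Q => nn q S.1) x := by
  rw [hasDerivAt_pi]
  intro S
  have e : ∀ t : ℝ, wU μ s N Q U (Function.update η q t) S =
      (s * (pos S.1 N : ℝ) - N * lam μ s + U η S.1) +
        ∑ i ∈ range N, Function.update η q t ((i : ℤ) + 1, pos S.1 (i + 1)) := fun t => by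
    show Real.log (pth μ s (Function.update η q t) N S.1) + U (Function.update η q t) S.1 = _
    rw [log_pth, hU.bl η S.1 q t hcq]
    ring
  simp only [e]
  exact (hasDerivAt_sum S.1 N hq η x).const_add _

theorem hasDerivAt_vq {U : Env → Finset ℕ → ℝ} {c : ℕ} (hU : Past c U) {p q : Pt} (hp : p.1 < q.1) (hcp : (c : ℤ) < p.1)
    (η : Env) (x : ℝ) :
    HasDerivAt (fun t => vq s U q (Function.update η p t)) (fun T : Px (Yf q) => nn p T.1) x := by
  rw [hasDerivAt_pi]
  intro T
  have e : ∀ t : ℝ, vq s U q (Function.update η p t) T = (s * (pos T.1 q.1.toNat : ℝ) + U η T.1) +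
      ∑ i ∈ range (q.1.toNat - 1), Function.update η p t ((i : ℤ) + 1, pos T.1 (i + 1)) := fun t => by
    show lv s (Function.update η p t) q.1.toNat T.1 + U (Function.update η p t) T.1 = _
    rw [hU.bl η T.1 p t hcp]
    unfold lv
    ring
  simp only [e]
  exact (hasDerivAt_sum T.1 _ (by omega) η x).const_add _

/-- The weights of the past do not see the row of the site. -/
theorem vq_blind {U : Env → Finset ℕ → ℝ} {c : ℕ} (hU : Past c U) {q r : Pt} (hcq : (c : ℤ) < q.1) (hr : q.1 ≤ r.1) (η : Env)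
    (x : ℝ) : vq s U q (Function.update η r x) = vq s U q η := by
  funext T
  unfold vq lv
  rw [hU.bl η T.1 r x (by omega)]
  congr 2
  refine sum_congr rfl fun i hi => ?_
  rw [mem_range] at hi
  rw [Function.update_of_ne]
  intro h
  have h4 := congrArg Prod.fst h
  simp only at h4
  omega

theorem rq_blind {H : Env → Finset ℕ → ℝ} {c : ℕ} (hH : Past c H) {q r : Pt} (hr : (c : ℤ) < r.1) (η : Env)
    (x : ℝ) : rq H q (Function.update η r x) = rq H q η := by
  funext T
  exact hH.bl η T.1 r x hr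

theorem measurable_vq {U : Env → Finset ℕ → ℝ} {c : ℕ} (hU : Past c U) (q : Pt) : Measurable (vq s U q) := by
  refine measurable_pi_lambda _ fun T => ?_
  unfold vq lv
  refine Measurable.add (Measurable.const_add ?_ _) (hU.ms T.1)
  exact Finset.measurable_fun_sum _ fun i _ => measurable_pi_apply _

theorem measurable_rq {H : Env → Finset ℕ → ℝ} {c : ℕ} (hH : Past c H) (q : Pt) : Measurable (rq H q) :=
  measurable_pi_lambda _ fun T => hH.ms T.1

theorem measurable_wU {U : Env → Finset ℕ → ℝ} {c : ℕ} (hU : Past c U) : Measurable (wU μ s N Q U) := by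
  refine measurable_pi_lambda _ fun S => ?_
  have e : (fun η => wU μ s N Q U η S) = fun η => (s * (pos S.1 N : ℝ) - N * lam μ s +
      ∑ i ∈ range N, η ((i : ℤ) + 1, pos S.1 (i + 1))) + U η S.1 := by
    funext η
    show Real.log (pth μ s η N S.1) + U η S.1 = _
    rw [log_pth]
  rw [e]
  refine Measurable.add (Measurable.const_add ?_ _) (hU.ms S.1)
  exact Finset.measurable_fun_sum _ fun i _ => measurable_pi_apply _

/-! ### The field -/

/-- **The field is bounded and predictable.** -/
theorem BF_fq {U H : Env → Finset ℕ → ℝ} {c : ℕ} (hU : Past c U) (hH : Past c H) {M : ℝ} (hM : ∀ η S, |H η S| ≤ M) {S1 : Finset Pt}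
    (h1 : ∀ q ∈ S1, (c : ℤ) < q.1) : BF S1 (fq s U H) M :=
  BF_cmean (fun q _ => measurable_vq hU q) (fun q _ => measurable_rq hH q) (fun q _ η y => hM η y.1)
    (fun q hq r _ hr η x => vq_blind hU (h1 q hq) hr η x)
    (fun q hq r _ hr η x => rq_blind hH (lt_of_lt_of_le (h1 q hq) hr) η x)

/-- The field does not see the sites behind its row. -/
theorem fq_blind {U H : Env → Finset ℕ → ℝ} {c : ℕ} (hU : Past c U) (hH : Past c H) {q r : Pt} (hcq : (c : ℤ) < q.1)
    (hr : q.1 ≤ r.1) (η : Env) (x : ℝ) : fq s U H q (Function.update η r x) = fq s U H q η := by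
  show gm (vq s U q (Function.update η r x)) (rq H q (Function.update η r x)) = gm (vq s U q η) (rq H q η)
  rw [vq_blind hU hcq hr, rq_blind hH (lt_of_lt_of_le hcq hr)]

/-- The derivative of the field along the site `p`. -/
def fq' (s : ℝ) (U H : Env → Finset ℕ → ℝ) : Pt → Pt → Env → ℝ :=
  cmean' (fun q => Px (Yf q)) (vq s U) (rq H) fun q p T => nn p T.1

theorem hasDerivAt_fq {U H : Env → Finset ℕ → ℝ} {c : ℕ} (hU : Past c U) (hH : Past c H) {p q : Pt} (hp : p.1 < q.1)
    (hcp : (c : ℤ) < p.1) (η : Env) (x : ℝ) :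
    HasDerivAt (fun t => fq s U H q (Function.update η p t)) (fq' s U H p q (Function.update η p x)) x :=
  hasDerivAt_cmean η x (hasDerivAt_vq hU hp hcp η x) fun t => rq_blind hH hcp η t

theorem BF_fq' {U H : Env → Finset ℕ → ℝ} {c : ℕ} (hU : Past c U) (hH : Past c H) {M : ℝ} (hM : ∀ η S, |H η S| ≤ M) {S1 : Finset Pt}
    (h1 : ∀ q ∈ S1, (c : ℤ) < q.1) (p : Pt) : BF S1 (fq' s U H p) (2 * (1 * M)) :=
  BF_cmean' p (fun q _ => measurable_vq hU q) (fun q _ => measurable_rq hH q) (fun q _ η y => hM η y.1)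
    (fun q _ y => abs_nn p y.1) (fun q hq r _ hr η x => vq_blind hU (h1 q hq) hr η x)
    (fun q hq r _ hr η x => rq_blind hH (lt_of_lt_of_le (h1 q hq) hr) η x)

/-! ### Path functionals of a field -/

/-- The path functional of the field `c` over the sites `S1`. -/
def Ph (S1 : Finset Pt) (c : Pt → Env → ℝ) (η : Env) (S : Finset ℕ) : ℝ := ∑ q ∈ S1, c q η * nn q S

theorem Cf_Px (S1 : Finset Pt) (c : Pt → Env → ℝ) (η : Env) :
    Cf S1 c (fun q (S : Px Q) => nn q S.1) η = fun S => Ph S1 c η S.1 := by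
  funext S
  unfold Cf Ph
  rw [Finset.sum_apply]
  exact sum_congr rfl fun q _ => rfl

/-- The sites of the rows `J`, columns `0 .. K`. -/
def Sl (J : Finset ℕ) (K : ℕ) : Finset Pt := (J ×ˢ range (K + 1)).map
  ⟨fun z => ((z.1 : ℤ), (z.2 : ℤ)), fun a b h => by
    have h1 := congrArg Prod.fst h
    have h2 := congrArg Prod.snd h
    simp only at h1 h2
    exact Prod.ext (by exact_mod_cast h1) (by exact_mod_cast h2)⟩

theorem mem_Sl {J : Finset ℕ} {K : ℕ} {q : Pt} : q ∈ Sl J K ↔ ∃ i ∈ J, ∃ y ≤ K, q = ((i : ℤ), (y : ℤ)) := by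
  unfold Sl
  rw [mem_map]
  constructor
  · rintro ⟨⟨i, y⟩, h, rfl⟩
    rw [mem_product, mem_range] at h
    exact ⟨i, h.1, y, by omega, rfl⟩
  · rintro ⟨i, hi, y, hy, rfl⟩
    exact ⟨(i, y), by rw [mem_product, mem_range]; exact ⟨hi, by omega⟩, rfl⟩

/-- **The path functional of a field over whole rows.** -/
theorem Ph_Sl {J : Finset ℕ} (hJ : ∀ i ∈ J, 1 ≤ i) {K : ℕ} (c : Pt → Env → ℝ) (η : Env) {S : Finset ℕ}
    (hS : ∀ i ∈ J, pos S i ≤ K) : Ph (Sl J K) c η S = ∑ i ∈ J, c ((i : ℤ), pos S i) η := by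
  unfold Ph Sl
  rw [sum_map, sum_product]
  refine sum_congr rfl fun i hi => ?_
  have h0 := pos_nonneg S i
  have h1 := hS i hi
  rw [sum_eq_single (pos S i).toNat]
  · show c ((i : ℤ), (((pos S i).toNat : ℕ) : ℤ)) η * nn ((i : ℤ), (((pos S i).toNat : ℕ) : ℤ)) S = _
    rw [Int.toNat_of_nonneg h0]
    have : nn ((i : ℤ), pos S i) S = 1 := if_pos ⟨by
      show (1 : ℤ) ≤ (i : ℤ)
      exact_mod_cast hJ i hi, by simp⟩
    rw [this, mul_one]
  · intro y _ hy
    show c ((i : ℤ), (y : ℤ)) η * nn ((i : ℤ), (y : ℤ)) S = 0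
    have : nn ((i : ℤ), (y : ℤ)) S = 0 := if_neg fun h => hy (by
      have h2 := h.2
      simp only [Int.toNat_natCast] at h2
      omega)
    rw [this, mul_zero]
  · intro h
    exact absurd (by rw [mem_range]; omega) h

/-- A path functional of sites of the rows `≤ m` is a function of the past of the row `m`. -/
theorem past_Ph {S1 : Finset Pt} {c : Pt → Env → ℝ} {m : ℕ} (h1 : ∀ q ∈ S1, q.1 ≤ m) (ms : ∀ q ∈ S1, Measurable (c q))
    (bl : ∀ q ∈ S1, ∀ (η : Env) (r : Pt) (x : ℝ), (m : ℤ) < r.1 → c q (Function.update η r x) = c q η) :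
    Past m (Ph S1 c) where
  cut η S := by
    unfold Ph
    refine sum_congr rfl fun q hq => ?_
    congr 1
    unfold nn
    rw [pos_inter S (by have := h1 q hq; omega)]
  bl η S r x hr := by
    unfold Ph
    refine sum_congr rfl fun q hq => ?_
    rw [bl q hq η r x hr]
  ms S := Finset.measurable_sum _ fun q hq => (ms q hq).mul_const _

/-- **The derivative of the second field in the direction of the first one** is the conditional covariance given the future. -/
theorem Dc_fq [Nonempty (Px Q)] (hQ : GQ N Q) {U H : Env → Finset ℕ → ℝ} {c m : ℕ} (hcm : c ≤ m) (hm : m ≤ N) (hU : Past c U)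
    (hH : Past c H) {S1 : Finset Pt} {c1 : Pt → Env → ℝ} (h1 : ∀ q ∈ S1, q.1 ≤ m) (ms : ∀ q ∈ S1, Measurable (c1 q))
    (bl : ∀ q ∈ S1, ∀ (η : Env) (r : Pt) (x : ℝ), (m : ℤ) < r.1 → c1 q (Function.update η r x) = c1 q η) (η : Env) (S : Px Q) :
    H19.Dc S1 c1 (fq' s U H) ((m : ℤ), ps S m) η =
      cC (wU μ s N Q U η) (pb m) (fun S' => Ph S1 c1 η S'.1) (fun S' => H η S'.1) S := by
  rw [cC_pb hQ hcm hm hU (past_Ph h1 ms bl) (hH.mono hcm) η S]
  show H19.Dc S1 c1 (cmean' (fun q => Px (Yf q)) (vq s U) (rq H) fun q p T => nn p T.1) ((m : ℤ), ps S m) η = _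
  rw [Dc_cmean]
  unfold cq
  congr 2
  funext T
  unfold Cf
  rw [Finset.sum_apply]
  rfl

end

end Pool.W7d29a1.C0.Fld19
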