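import Pool.Agent.W_7d29a1_LB.NSF14

/-!
CURV0 (MP_7d29a1_pr), section E0: LOCALISATION, QUENCHED. Outside an event of probability `exp (- n ^ c')`, for all the starts `(i, x)` of
the box and all the lengths `m ≥ n ^ κ`: the point to point measure to every end `z` of the cone, and the measure with a free end, give
mass at most `exp (- n ^ c')` to the paths which are not everywhere within `m ^ ε wd' k` of the centre over `k` steps. (From `HZ.ns` and
`LB.nsf14`.) (helper14)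
-/

set_option autoImplicit false

namespace Pool.Agent.W_7d29a1_C0.Loc14

open Finset MeasureTheory ProbabilityTheory Filter Topology
open Pool.Agent.W_7d29a1_F Pool.Agent.W_7d29a1_X
open Pool.Agent.W_7d29a1_H (sl)
open Pool.Agent.W_7d29a1_HS (In wd)
open Pool.Agent.W_7d29a1_HZ (NSp wd' EE' gp P1)
open Pool.Agent.W_7d29a1_HX.XT (measurable_GS)
open scoped ENNReal

noncomputable section

variable {μ : Measure ℝ} {s : ℝ}

open Classical in
/-- The mass of the steep paths: point to point measure from `0` to `(m, z)`. -/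
def Qp (μ : Measure ℝ) (s : ℝ) (η : Env) (m : ℕ) (ε : ℝ) (z : ℤ) : ℝ :=
  ∑ S ∈ (range m).powerset, gp μ s η m z S * (if NSp μ s m m ε S then 0 else 1)

open Classical in
/-- The mass of the steep paths: free end, length `m`. -/
def Qf (μ : Measure ℝ) (s : ℝ) (η : Env) (m : ℕ) (ε : ℝ) : ℝ :=
  ∑ S ∈ (range m).powerset, GS μ s η m S * (if NSp μ s m m ε S then 0 else 1)

open Classical in
theorem Qp_nonneg (η : Env) (m : ℕ) (ε : ℝ) (z : ℤ) : 0 ≤ Qp μ s η m ε z :=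
  sum_nonneg fun S _ => mul_nonneg (Pool.Agent.W_7d29a1_HZ.gp_nonneg _ _ _ _) (by split_ifs <;> norm_num)

open Classical in
theorem Qf_nonneg (η : Env) (m : ℕ) (ε : ℝ) : 0 ≤ Qf μ s η m ε :=
  sum_nonneg fun S _ => mul_nonneg (GS_nonneg _ _ _) (by split_ifs <;> norm_num)

theorem measurable_Qp (m : ℕ) (ε : ℝ) (z : ℤ) : Measurable fun η : Env => Qp μ s η m ε z :=
  Finset.measurable_fun_sum _ fun S _ => (Pool.Agent.W_7d29a1_HZ.measurable_gp m z S).mul_const _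

theorem measurable_Qf (m : ℕ) (ε : ℝ) : Measurable fun η : Env => Qf μ s η m ε :=
  Finset.measurable_fun_sum _ fun S _ => (measurable_GS m S).mul_const _

open Classical in
/-- The form for one row: the mass of the paths which are far at the row `c` from the end point `(m, z)`. -/
theorem far_le {η : Env} {m c : ℕ} (hc : c < m) {ε : ℝ} {z : ℤ} :
    ∑ S ∈ (range m).powerset, gp μ s η m z S *
      (if |((z - pos S c : ℤ) : ℝ) - sl μ s * ((m - c : ℕ) : ℝ)| ≤ (m : ℝ) ^ ε * wd' μ s (m - c) then 0 else 1) ≤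
      Qp μ s η m ε z := by
  refine sum_le_sum fun S _ => ?_
  by_cases hz : pos S m = z
  · refine mul_le_mul_of_nonneg_left ?_ (Pool.Agent.W_7d29a1_HZ.gp_nonneg _ _ _ _)
    by_cases hn : NSp μ s m m ε S
    · have h1 := hn c (m - c) (by omega) (by omega)
      rw [show c + (m - c) = m by omega, hz] at h1
      rw [if_pos h1, if_pos hn]
    · rw [if_neg hn]
      split_ifs <;> norm_num
  · rw [Pool.Agent.W_7d29a1_HZ.gp_of_ne η hz, zero_mul, zero_mul]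

open Classical in
/-- The form for one row, free end: the mass of the paths which are far at the row `c` from the start. -/
theorem far_le_free {η : Env} {m c : ℕ} (hc : 1 ≤ c) (hcm : c ≤ m) {ε : ℝ} :
    ∑ S ∈ (range m).powerset, GS μ s η m S *
      (if |((pos S c : ℤ) : ℝ) - sl μ s * (c : ℝ)| ≤ (m : ℝ) ^ ε * wd' μ s c then 0 else 1) ≤ Qf μ s η m ε := by
  refine sum_le_sum fun S _ => ?_
  refine mul_le_mul_of_nonneg_left ?_ (GS_nonneg _ _ _)
  by_cases hn : NSp μ s m m ε S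
  · have h1 := hn 0 c hc (by omega)
    rw [zero_add, show pos S 0 = 0 by simp [pos], sub_zero] at h1
    rw [if_pos h1, if_pos hn]
  · rw [if_neg hn]
    split_ifs <;> norm_num

/-- Markov. -/
theorem markov14 {Q : Env → ℝ} (hm : Measurable Q) {a : ℝ} (ha : 0 < a)
    (hI : ∫⁻ η, ENNReal.ofReal (Q η) ∂(law μ) ≤ ENNReal.ofReal (a ^ 2)) : law μ {η | a < Q η} ≤ ENNReal.ofReal a := by
  have h1 := mul_meas_ge_le_lintegral₀ (μ := law μ) hm.ennreal_ofReal.aemeasurable (ENNReal.ofReal a)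
  have h2 : law μ {η | a < Q η} ≤ law μ {η | ENNReal.ofReal a ≤ ENNReal.ofReal (Q η)} :=
    measure_mono fun η hη => ENNReal.ofReal_le_ofReal (le_of_lt hη)
  have h3 : ENNReal.ofReal a * law μ {η | ENNReal.ofReal a ≤ ENNReal.ofReal (Q η)} ≤ ENNReal.ofReal a * ENNReal.ofReal a := by
    rw [← ENNReal.ofReal_mul ha.le, ← sq]
    exact h1.trans hI
  have h4 : ENNReal.ofReal a ≠ 0 := by
    rw [ne_eq, ENNReal.ofReal_eq_zero, not_le]
    exact ha
  exact h2.trans ((ENNReal.mul_le_mul_iff_right h4 ENNReal.ofReal_ne_top).1 h3)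

variable [IsProbabilityMeasure μ] {c C : ℝ} {n₀ : ℕ}

/-- The annealed bound as an integral. -/
theorem lint_Qp (m : ℕ) (ε : ℝ) (z : ℤ) :
    ∫⁻ η, ENNReal.ofReal (Qp μ s η m ε z) ∂(law μ) = P1 μ s m z (fun _ S => ¬ NSp μ s m m ε S) := by
  classical
  rw [Pool.Agent.W_7d29a1_HZ.P1_eq]
  have h1 : ∀ η, ENNReal.ofReal (Qp μ s η m ε z) = ∑ S ∈ (range m).powerset,
      ({η | ¬ NSp μ s m m ε S} : Set Env).indicator (fun η => ENNReal.ofReal (gp μ s η m z S)) η := by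
    intro η
    unfold Qp
    rw [ENNReal.ofReal_sum_of_nonneg fun S _ => mul_nonneg (Pool.Agent.W_7d29a1_HZ.gp_nonneg _ _ _ _) (by split_ifs <;> norm_num)]
    refine sum_congr rfl fun S _ => ?_
    by_cases hc : NSp μ s m m ε S
    · rw [if_pos hc, mul_zero, ENNReal.ofReal_zero, Set.indicator_of_notMem]
      exact fun h => h hc
    · rw [if_neg hc, mul_one, Set.indicator_of_mem (show η ∈ {η | ¬ NSp μ s m m ε S} from hc)]
  have hms : ∀ S : Finset ℕ, MeasurableSet ({η | ¬ NSp μ s m m ε S} : Set Env) := by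
    intro S
    by_cases hc : NSp μ s m m ε S
    · have e1 : ({η | ¬ NSp μ s m m ε S} : Set Env) = ∅ := by
        ext η
        simp [hc]
      rw [e1]
      exact MeasurableSet.empty
    · have e1 : ({η | ¬ NSp μ s m m ε S} : Set Env) = Set.univ := by
        ext η
        simp [hc]
      rw [e1]
      exact MeasurableSet.univ
  rw [lintegral_congr h1, lintegral_finsetSum _ fun S _ =>
    ((Pool.Agent.W_7d29a1_HZ.measurable_gp m z S).ennreal_ofReal).indicator (hms S)]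
  exact sum_congr rfl fun S _ => lintegral_indicator (hms S) _

theorem lint_Qf (m : ℕ) (ε : ℝ) : ∫⁻ η, ENNReal.ofReal (Qf μ s η m ε) ∂(law μ) = ENNReal.ofReal (∫ η, Qf μ s η m ε ∂(law μ)) := by
  have h1 : ∀ η, |Qf μ s η m ε| ≤ 1 := by
    intro η
    rw [abs_of_nonneg (Qf_nonneg η m ε)]
    refine le_trans (sum_le_sum fun S _ => ?_) (GS_sum (μ := μ) (s := s) η m).le
    have := GS_nonneg (μ := μ) (s := s) η m S
    split_ifs
    · linarith
    · linarith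
  have h2 : Integrable (fun η => Qf μ s η m ε) (law μ) :=
    Integrable.of_bound (measurable_Qf m ε).aestronglyMeasurable 1 (Eventually.of_forall fun η => h1 η)
  rw [ofReal_integral_eq_lintegral_ofReal h2 (Eventually.of_forall fun η => Qf_nonneg η m ε)]

/-- THE GOOD EVENT: localisation of all the point to point measures of the box (ends in the cone) and of all the free ends. -/
def LocG (μ : Measure ℝ) (s : ℝ) (n : ℕ) (κ δ ε c' : ℝ) (η : Env) : Prop :=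
  ∀ i : ℕ, i ≤ n → ∀ x : ℤ, |x| ≤ 2 * n → ∀ m : ℕ, (n : ℝ) ^ κ ≤ m → m ≤ n →
    (∀ z : ℤ, 0 ≤ z → z ≤ m → |(z : ℝ) - sl μ s * m| ≤ (m : ℝ) ^ δ * wd' μ s m →
      Qp μ s (sh ((i : ℤ), x) η) m ε z ≤ Real.exp (-(n : ℝ) ^ c')) ∧
    Qf μ s (sh ((i : ℤ), x) η) m ε ≤ Real.exp (-(n : ℝ) ^ c')

theorem tail_sh {Q : Env → ℝ} (hm : Measurable Q) (a : Pt) (b : ℝ) : law μ {η | b < Q (sh a η)} = law μ {η | b < Q η} :=
  (mp_sh (μ := μ) a).measure_preimage (measurableSet_lt measurable_const hm).nullMeasurableSet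

/-- **LOCALISATION, QUENCHED.** -/
theorem loc14 (h : In μ s c C n₀) {κ : ℝ} (hκ : 0 < κ) : ∀ ε : ℝ, 0 < ε → ∃ δ c' : ℝ, 0 < δ ∧ 0 < c' ∧ ∃ N₀ : ℕ,
    ∀ n : ℕ, N₀ ≤ n → law μ {η | ¬ LocG μ s n κ δ ε c' η} ≤ ENNReal.ofReal (Real.exp (-(n : ℝ) ^ c')) := by
  intro ε hε
  obtain ⟨δ, c₁, hδ, hc₁, L₁, hns⟩ := Pool.Agent.W_7d29a1_HZ.ns h ε hε
  obtain ⟨c₂, hc₂, L₂, hnf⟩ := Pool.Agent.W_7d29a1_LB.nsf14 h ε hε
  obtain ⟨g, hg⟩ : ∃ g : ℝ, g = min c₁ c₂ := ⟨_, rfl⟩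
  have hg0 : 0 < g := by rw [hg]; exact lt_min hc₁ hc₂
  have hg1 : g ≤ c₁ := by rw [hg]; exact min_le_left _ _
  have hg2 : g ≤ c₂ := by rw [hg]; exact min_le_right _ _
  have ev1 := Pool.Agent.W_7d29a1_HZ.Z22.absorb 120 4 (b := 1 / 2) (g := κ * g) (by norm_num) (by positivity)
  have ev2 := Pool.Agent.W_7d29a1_HZ.Z22.absorb 1 0 (b := 1 / 2) (g := κ * g) (by norm_num) (by positivity)
  have ev3 : ∀ᶠ n : ℕ in atTop, (max (max L₁ L₂) 1 : ℝ) ≤ (n : ℝ) ^ κ :=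
    ((tendsto_rpow_atTop hκ).comp tendsto_natCast_atTop_atTop).eventually_ge_atTop _
  obtain ⟨N₁, hN₁⟩ := eventually_atTop.1 ((ev1.and ev2).and ev3)
  refine ⟨δ, κ * g / 2, hδ, by positivity, max N₁ 1, fun n hn => ?_⟩
  obtain ⟨⟨k1, k2⟩, k3⟩ := hN₁ n ((le_max_left _ _).trans hn)
  have hn1 : 1 ≤ n := (le_max_right _ _).trans hn
  have hnR : (1 : ℝ) ≤ n := by exact_mod_cast hn1
  rw [one_mul, Real.rpow_zero, one_mul] at k2
  obtain ⟨b, hb⟩ : ∃ b : ℝ, b = Real.exp (-(n : ℝ) ^ (κ * g / 2)) := ⟨_, rfl⟩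
  obtain ⟨e, he⟩ : ∃ e : ℝ, e = Real.exp (-(1 / 2 * (n : ℝ) ^ (κ * g))) := ⟨_, rfl⟩
  rw [← hb, ← he] at k1 k2
  have he0 : 0 < e := by rw [he]; exact Real.exp_pos _
  -- one measure
  have hone : ∀ m : ℕ, (n : ℝ) ^ κ ≤ m → m ≤ n → L₁ ≤ m ∧ L₂ ≤ m ∧ 1 ≤ m ∧ ∀ a, g ≤ a → Real.exp (-(m : ℝ) ^ a) ≤ e ^ 2 := by
    intro m hm hmn
    have h1 : (max (max L₁ L₂) 1 : ℝ) ≤ m := k3.trans hm
    have h2 : (L₁ : ℝ) ≤ m := (le_max_left _ _).trans ((le_max_left _ _).trans h1)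
    have h3 : (L₂ : ℝ) ≤ m := (le_max_right _ _).trans ((le_max_left _ _).trans h1)
    have h4 : (1 : ℝ) ≤ m := (le_max_right _ _).trans h1
    refine ⟨by exact_mod_cast h2, by exact_mod_cast h3, by exact_mod_cast h4, fun a ha => ?_⟩
    have h5 : (n : ℝ) ^ (κ * g) ≤ (m : ℝ) ^ a := by
      rw [Real.rpow_mul (by linarith)]
      refine (Real.rpow_le_rpow (by positivity) hm hg0.le).trans ?_
      exact Real.rpow_le_rpow_of_exponent_le h4 ha
    rw [he, ← Real.exp_nat_mul]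
    refine Real.exp_le_exp.2 ?_
    push_cast
    linarith
  have hp : ∀ m : ℕ, (n : ℝ) ^ κ ≤ m → m ≤ n → ∀ z : ℤ, 0 ≤ z → z ≤ m → |(z : ℝ) - sl μ s * m| ≤ (m : ℝ) ^ δ * wd' μ s m →
      ∀ a : Pt, law μ {η | b < Qp μ s (sh a η) m ε z} ≤ ENNReal.ofReal e := by
    intro m hm hmn z hz0 hz1 hz a
    obtain ⟨h1, -, h3, h4⟩ := hone m hm hmn
    rw [tail_sh (measurable_Qp m ε z)]
    refine (measure_mono fun η (hη : b < Qp μ s η m ε z) => show e < Qp μ s η m ε z from lt_of_le_of_lt k2 hη).trans ?_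
    refine markov14 (measurable_Qp m ε z) he0 ?_
    rw [lint_Qp]
    exact (hns m h1 m (by omega) le_rfl z hz0 hz1 hz).trans (ENNReal.ofReal_le_ofReal (h4 _ hg1))
  have hf : ∀ m : ℕ, (n : ℝ) ^ κ ≤ m → m ≤ n → ∀ a : Pt, law μ {η | b < Qf μ s (sh a η) m ε} ≤ ENNReal.ofReal e := by
    intro m hm hmn a
    obtain ⟨-, h1, h3, h4⟩ := hone m hm hmn
    rw [tail_sh (measurable_Qf m ε)]
    refine (measure_mono fun η (hη : b < Qf μ s η m ε) => show e < Qf μ s η m ε from lt_of_le_of_lt k2 hη).trans ?_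
    refine markov14 (measurable_Qf m ε) he0 ?_
    rw [lint_Qf]
    refine ENNReal.ofReal_le_ofReal (le_trans (le_of_eq ?_) ((hnf m h1).trans (h4 _ hg2)))
    refine integral_congr_ae (Eventually.of_forall fun η => sum_congr rfl fun S _ => ?_)
    by_cases hc : NSp μ s m m ε S
    · simp only [if_pos hc]
    · simp only [if_neg hc]
  -- the union
  obtain ⟨I, hI⟩ : ∃ I : Finset (ℕ × ℤ × ℕ × ℤ),
      I = (range (n + 1)) ×ˢ (Icc (-(2 * n : ℤ)) (2 * n)) ×ˢ (range (n + 1)) ×ˢ (Icc (0 : ℤ) n) := ⟨_, rfl⟩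
  obtain ⟨B, hB⟩ : ∃ B : ℕ × ℤ × ℕ × ℤ → Set Env, B = fun q => {η | (n : ℝ) ^ κ ≤ q.2.2.1 ∧
      ((q.2.2.2 ≤ q.2.2.1 ∧ |(q.2.2.2 : ℝ) - sl μ s * q.2.2.1| ≤ (q.2.2.1 : ℝ) ^ δ * wd' μ s q.2.2.1 ∧
        b < Qp μ s (sh ((q.1 : ℤ), q.2.1) η) q.2.2.1 ε q.2.2.2) ∨ b < Qf μ s (sh ((q.1 : ℤ), q.2.1) η) q.2.2.1 ε)} := ⟨_, rfl⟩
  have hsub : {η | ¬ LocG μ s n κ δ ε (κ * g / 2) η} ⊆ ⋃ q ∈ I, B q := by
    intro η hη
    have hη' : ¬ LocG μ s n κ δ ε (κ * g / 2) η := hη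
    unfold LocG at hη'
    push Not at hη'
    obtain ⟨i, hi, x, hx, m, hm1, hm2, h1⟩ := hη'
    rw [← hb] at h1
    rw [Set.mem_iUnion₂]
    rw [abs_le] at hx
    by_cases hq : ∀ z : ℤ, 0 ≤ z → z ≤ m → |(z : ℝ) - sl μ s * m| ≤ (m : ℝ) ^ δ * wd' μ s m →
      Qp μ s (sh ((i : ℤ), x) η) m ε z ≤ b
    · refine ⟨(i, x, m, 0), ?_, ?_⟩
      · rw [hI]
        simp only [mem_product, mem_range, mem_Icc]
        omega
      · rw [hB]
        exact ⟨hm1, Or.inr (h1 hq)⟩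
    · push Not at hq
      obtain ⟨z, hz0, hz1, hz2, hz3⟩ := hq
      refine ⟨(i, x, m, z), ?_, ?_⟩
      · rw [hI]
        simp only [mem_product, mem_range, mem_Icc]
        omega
      · rw [hB]
        exact ⟨hm1, Or.inl ⟨hz1, hz2, hz3⟩⟩
  have hBq : ∀ q ∈ I, law μ (B q) ≤ ENNReal.ofReal (2 * e) := by
    rintro ⟨i, x, m, z⟩ hq
    rw [hI] at hq
    simp only [mem_product, mem_range, mem_Icc] at hq
    by_cases hm : (n : ℝ) ^ κ ≤ m
    · have h1 : B (i, x, m, z) ⊆ {η | (z ≤ m ∧ |(z : ℝ) - sl μ s * m| ≤ (m : ℝ) ^ δ * wd' μ s m) ∧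
          b < Qp μ s (sh ((i : ℤ), x) η) m ε z} ∪ {η | b < Qf μ s (sh ((i : ℤ), x) η) m ε} := by
        rw [hB]
        rintro η ⟨-, h2 | h2⟩
        · exact Or.inl ⟨⟨h2.1, h2.2.1⟩, h2.2.2⟩
        · exact Or.inr h2
      refine (measure_mono h1).trans ((measure_union_le _ _).trans ?_)
      rw [two_mul, ENNReal.ofReal_add he0.le he0.le]
      refine add_le_add ?_ (hf m hm (by omega) _)
      by_cases hc : z ≤ m ∧ |(z : ℝ) - sl μ s * m| ≤ (m : ℝ) ^ δ * wd' μ s m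
      · exact (measure_mono fun η hη => hη.2).trans (hp m hm (by omega) z (by omega) hc.1 hc.2 _)
      · have h2 : {η : Env | (z ≤ m ∧ |(z : ℝ) - sl μ s * m| ≤ (m : ℝ) ^ δ * wd' μ s m) ∧
            b < Qp μ s (sh ((i : ℤ), x) η) m ε z} = ∅ := by
          ext η
          simp only [Set.mem_ofPred_eq, Set.mem_empty_iff_false, iff_false]
          exact fun h => hc h.1
        rw [h2, measure_empty]
        exact bot_le
    · have h2 : B (i, x, m, z) = ∅ := by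
        rw [hB]
        ext η
        simp only [Set.mem_ofPred_eq, Set.mem_empty_iff_false, iff_false]
        exact fun h => hm h.1
      rw [h2, measure_empty]
      exact bot_le
  refine (measure_mono hsub).trans ((measure_biUnion_finset_le I B).trans ((sum_le_sum hBq).trans ?_))
  rw [sum_const, nsmul_eq_mul]
  have hcard : (I.card : ℝ) ≤ 60 * (n : ℝ) ^ 4 := by
    rw [hI, card_product, card_product, card_product, card_range, Int.card_Icc, Int.card_Icc]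
    have e1 : ((2 * n : ℤ) + 1 - -(2 * n)).toNat = 4 * n + 1 := by omega
    have e2 : ((n : ℤ) + 1 - 0).toNat = n + 1 := by omega
    rw [e1, e2]
    push_cast
    have q1 : (n : ℝ) + 1 ≤ 2 * n := by linarith
    have q2 : 4 * (n : ℝ) + 1 ≤ 5 * n := by linarith
    have q3 : 0 ≤ (n : ℝ) := by linarith
    calc ((n : ℝ) + 1) * ((4 * n + 1) * ((n + 1) * (n + 1))) ≤ (2 * n) * ((5 * n) * ((2 * n) * (2 * n))) := by gcongr
      _ = 40 * (n : ℝ) ^ 4 := by ring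
      _ ≤ 60 * (n : ℝ) ^ 4 := by nlinarith [pow_nonneg q3 4]
  have h1 : (I.card : ℝ≥0∞) * ENNReal.ofReal (2 * e) = ENNReal.ofReal ((I.card : ℝ) * (2 * e)) := by
    rw [ENNReal.ofReal_mul (Nat.cast_nonneg I.card), ENNReal.ofReal_natCast]
  rw [h1, ← hb]
  refine ENNReal.ofReal_le_ofReal (le_trans ?_ k1)
  rw [show (4 : ℝ) = ((4 : ℕ) : ℝ) by norm_num, Real.rpow_natCast]
  calc (I.card : ℝ) * (2 * e) ≤ (60 * (n : ℝ) ^ 4) * (2 * e) := mul_le_mul_of_nonneg_right hcard (by positivity)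
    _ = 120 * (n : ℝ) ^ 4 * e := by ring

end

end Pool.Agent.W_7d29a1_C0.Loc14
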