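import Pool.Agent.W_7d29a1_C0.Blk18
import Pool.Agent.W_7d29a1_C0.Loc14

/-!
MP_7d29a1_pr, [CURV0] / [C0], E0: LOCALISATION IN THE MODEL `Mod92`. (helper18, from `Loc14` of helper14 and `Blk18`)

Outside an event of probability `exp (- N ^ c')` (`locM18`), for every full family `Q` of paths (`Fr N`, `Pn N y`):
(1) for every block `[c, d)`, `N ^ κ ≤ d - c`, and every `S` whose displacement over the block is in the cone (`Cn`), the conditional
measure of the block gives mass at most `exp (- N ^ c')` to the paths with a steep piece in the block (`¬ Ns`);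
(2) the pinned measures with the ends `(N, y)`, `y` in the cone, and the measure with a free end give mass at most `exp (- N ^ c')` to the
paths which have a steep piece, or which are out of the cone over some block of length at least `N ^ κ`.
-/

set_option autoImplicit false

namespace Pool.Agent.W_7d29a1_C0.LocM18

open Finset MeasureTheory Filter Topology Pool.Agent.W_7d29a1_F Pool.Agent.W_7d29a1_X
open Pool.Agent.W_7d29a1_H (sl)
open Pool.Agent.W_7d29a1_HS (In wd)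
open Pool.Agent.W_7d29a1_HZ (NSp wd' gp)
open Pool.W7d29a1.C0 (gz gm)
open Pool.W7d29a1.C0.VT31 (cE)
open Pool.Agent.W_7d29a1_C0.Mod92
open Pool.Agent.W_7d29a1_C0.Blk18
open Pool.Agent.W_7d29a1_C0.Loc14 (Qp Qf LocG loc14)

noncomputable section

variable {μ : Measure ℝ} {s : ℝ} {N : ℕ} {Q : Finset (Finset ℕ)}

/-- No steep piece over `[c, d]`. -/
def Ns (μ : Measure ℝ) (s ε : ℝ) (c d : ℕ) (S : Px Q) : Prop :=
  ∀ i k : ℕ, 1 ≤ k → c ≤ i → i + k ≤ d → |((ps S (i + k) - ps S i : ℤ) : ℝ) - sl μ s * k| ≤ ((d - c : ℕ) : ℝ) ^ ε * wd' μ s k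

/-- The displacement over `[c, d]` is in the cone. -/
def Cn (μ : Measure ℝ) (s δ : ℝ) (c d : ℕ) (S : Px Q) : Prop :=
  |((ps S d - ps S c : ℤ) : ℝ) - sl μ s * ((d - c : ℕ) : ℝ)| ≤ ((d - c : ℕ) : ℝ) ^ δ * wd' μ s (d - c)

/-- In the cone over all the blocks of length at least `N ^ κ`. -/
def Cna (μ : Measure ℝ) (s : ℝ) (N : ℕ) (κ δ : ℝ) (S : Px Q) : Prop :=
  ∀ c d : ℕ, c ≤ d → d ≤ N → (N : ℝ) ^ κ ≤ ((d - c : ℕ) : ℝ) → Cn μ s δ c d S

theorem Ns_iff {ε : ℝ} {c d : ℕ} (hcd : c ≤ d) (S : Px Q) : Ns μ s ε c d S ↔ NSp μ s (d - c) (d - c) ε (pce c d S.1) := by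
  constructor
  · intro h i k hk hik
    have h1 := h (c + i) k hk (by omega) (by omega)
    rw [pos_pce S.1 (by omega), pos_pce S.1 (by omega)]
    have e : pos S.1 (c + (i + k)) - pos S.1 c - (pos S.1 (c + i) - pos S.1 c) = ps S (c + i + k) - ps S (c + i) := by
      unfold ps
      rw [Nat.add_assoc]
      ring
    rw [e]
    exact h1
  · intro h i k hk hi hik
    have h1 := h (i - c) k hk (by omega)
    rw [pos_pce S.1 (by omega), pos_pce S.1 (by omega), show c + (i - c + k) = i + k by omega, show c + (i - c) = i by omega] at h1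
    have e : pos S.1 (i + k) - pos S.1 c - (pos S.1 i - pos S.1 c) = ps S (i + k) - ps S i := by
      unfold ps
      ring
    rw [e] at h1
    exact h1

theorem pce_self {S : Finset ℕ} (h : S ⊆ range N) : pce 0 N S = S := by
  unfold pce
  have e : S ∩ Ico 0 N = S := by
    rw [inter_eq_left, ← range_eq_Ico]
    exact h
  rw [e]
  exact (image_congr (g := id) fun i _ => Nat.sub_zero i).trans image_id

/-- THE GOOD EVENT of the model. -/
def LocB (μ : Measure ℝ) (s : ℝ) (N : ℕ) (κ δ δ' ε c' : ℝ) (η : Env) : Prop := by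
  classical
  exact (∀ (Q : Finset (Finset ℕ)) [Nonempty (Px Q)], Full N Q → ∀ c d : ℕ, c ≤ d → d ≤ N → (N : ℝ) ^ κ ≤ ((d - c : ℕ) : ℝ) →
      ∀ S : Px Q, Cn μ s δ c d S →
        cE (lw μ s η N Q) (pJ c d) (fun S' => if Ns μ s ε c d S' then 0 else 1) S ≤ Real.exp (-(N : ℝ) ^ c')) ∧
    (∀ y : ℕ, y ≤ N → |(y : ℝ) - sl μ s * N| ≤ (N : ℝ) ^ δ' * wd' μ s N →
      gm (lw μ s η N (Pn N y)) (fun S => if Ns μ s ε 0 N S ∧ Cna μ s N κ δ S then 0 else 1) ≤ Real.exp (-(N : ℝ) ^ c')) ∧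
    gm (lw μ s η N (Fr N)) (fun S => if Ns μ s ε 0 N S ∧ Cna μ s N κ δ S then 0 else 1) ≤ Real.exp (-(N : ℝ) ^ c')

open Classical in
/-- The conditional measure of a block has no steep piece. -/
theorem cE_Ns [Nonempty (Px Q)] {n : ℕ} {κ δ ε c' : ℝ} {η : Env} (hL : LocG μ s n κ δ ε c' η) (hQ : Full N Q) {c d : ℕ}
    (hcd : c ≤ d) (hd : d ≤ N) (hN : N ≤ n) (hm : (n : ℝ) ^ κ ≤ ((d - c : ℕ) : ℝ)) (S : Px Q) (hC : Cn μ s δ c d S) :
    cE (lw μ s η N Q) (pJ c d) (fun S' => if Ns μ s ε c d S' then 0 else 1) S ≤ Real.exp (-(n : ℝ) ^ c') := by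
  have e1 : (fun S' : Px Q => if Ns μ s ε c d S' then (0 : ℝ) else 1) =
      fun S' => (fun T : Finset ℕ => if NSp μ s (d - c) (d - c) ε T then (0 : ℝ) else 1) (pce c d S'.1) := by
    funext S'
    beta_reduce
    by_cases h : Ns μ s ε c d S'
    · rw [if_pos h, if_pos ((Ns_iff hcd S').1 h)]
    · rw [if_neg h, if_neg fun h' => h ((Ns_iff hcd S').2 h')]
  rw [e1, blk18_pce hQ η hcd hd S fun T : Finset ℕ => if NSp μ s (d - c) (d - c) ε T then (0 : ℝ) else 1]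
  have hb := card_blk S.1 hcd
  have h0 := ps_nonneg S c
  have h1 := ps_le S c
  have h2 : ((S.1 ∩ Ico c d).card : ℤ) ≤ ((d - c : ℕ) : ℤ) := by
    have := card_le_card (inter_subset_right : S.1 ∩ Ico c d ⊆ Ico c d)
    rw [Nat.card_Ico] at this
    exact_mod_cast this
  have hz : ps S d - ps S c = ((S.1 ∩ Ico c d).card : ℤ) := hb.symm
  have h3 := (hL c (by omega) (ps S c) (by rw [abs_of_nonneg h0]; omega) (d - c) hm (by omega)).1 (ps S d - ps S c)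
    (by rw [hz]; exact Int.natCast_nonneg _) (by rw [hz]; exact h2) hC
  exact h3

/-- Localisation on the scale `N` gives the cones of all the blocks. -/
theorem Cna_of {κ δ ε₁ : ℝ} (hδ : 0 ≤ δ) (hN : 1 ≤ N) (he : ε₁ ≤ κ * δ) {S : Px Q} (hS : NSp μ s N N ε₁ S.1) :
    Cna μ s N κ δ S := by
  intro c d hcd hd hm
  have hNR : (1 : ℝ) ≤ N := by exact_mod_cast hN
  have h0 : (0 : ℝ) < (N : ℝ) ^ κ := Real.rpow_pos_of_pos (by linarith) _
  have h1 : 1 ≤ d - c := by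
    by_contra h
    have e : d - c = 0 := by omega
    rw [e, Nat.cast_zero] at hm
    linarith
  have h2 := hS c (d - c) h1 (by omega)
  rw [Nat.add_sub_cancel' hcd] at h2
  refine le_trans h2 (mul_le_mul_of_nonneg_right ?_ (le_trans zero_le_one (le_max_left _ _)))
  calc (N : ℝ) ^ ε₁ ≤ (N : ℝ) ^ (κ * δ) := Real.rpow_le_rpow_of_exponent_le hNR he
    _ = ((N : ℝ) ^ κ) ^ δ := Real.rpow_mul (by linarith) _ _
    _ ≤ ((d - c : ℕ) : ℝ) ^ δ := Real.rpow_le_rpow h0.le hm hδ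

open Classical in
theorem ind_le {κ δ ε ε₁ : ℝ} (hδ : 0 ≤ δ) (hN : 1 ≤ N) (he : ε₁ ≤ κ * δ) (he' : ε₁ ≤ ε) (hQ : Full N Q) (S : Px Q) :
    (if Ns μ s ε 0 N S ∧ Cna μ s N κ δ S then (0 : ℝ) else 1) ≤ if NSp μ s N N ε₁ S.1 then 0 else 1 := by
  by_cases h : NSp μ s N N ε₁ S.1
  · have h1 : Ns μ s ε 0 N S := by
      rw [Ns_iff (Nat.zero_le N), Nat.sub_zero, pce_self (hQ.sub S.1 S.2)]
      intro i k hk hik
      refine (h i k hk hik).trans (mul_le_mul_of_nonneg_right ?_ (le_trans zero_le_one (le_max_left _ _)))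
      exact Real.rpow_le_rpow_of_exponent_le (by exact_mod_cast hN) he'
    rw [if_pos ⟨h1, Cna_of hδ hN he h⟩, if_pos h]
  · rw [if_neg h]
    split_ifs
    · exact zero_le_one
    · exact le_rfl

theorem sh_zero (η : Env) : sh (((0 : ℕ) : ℤ), (0 : ℤ)) η = η := by
  funext p
  unfold sh
  have e : ((((0 : ℕ) : ℤ), (0 : ℤ)) : Pt) = 0 := rfl
  rw [e, add_zero]

open Classical in
/-- The pinned measures. -/
theorem gm_pin {κ δ δ' ε ε₁ c' : ℝ} {η : Env} (hL : LocG μ s N κ δ' ε₁ c' η) (hδ : 0 ≤ δ) (hN : 1 ≤ N) (hκ : κ ≤ 1)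
    (he : ε₁ ≤ κ * δ) (he' : ε₁ ≤ ε) {y : ℕ} (hy : y ≤ N) (hyc : |(y : ℝ) - sl μ s * N| ≤ (N : ℝ) ^ δ' * wd' μ s N) :
    gm (lw μ s η N (Pn N y)) (fun S => if Ns μ s ε 0 N S ∧ Cna μ s N κ δ S then 0 else 1) ≤ Real.exp (-(N : ℝ) ^ c') := by
  have := ne_Pn hy
  have hNR : (1 : ℝ) ≤ N := by exact_mod_cast hN
  refine (Pool.W7d29a1.C0.gm_mono _ (g := fun S : Px (Pn N y) => if NSp μ s N N ε₁ S.1 then (0 : ℝ) else 1)
    (fun S => ind_le hδ hN he he' (full_Pn N y) S)).trans ?_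
  rw [gm_Pn η N y fun S => if NSp μ s N N ε₁ S then (0 : ℝ) else 1]
  have h1 := (hL 0 (Nat.zero_le _) 0 (by simp) N (by
    calc (N : ℝ) ^ κ ≤ (N : ℝ) ^ (1 : ℝ) := Real.rpow_le_rpow_of_exponent_le hNR hκ
      _ = N := Real.rpow_one _) le_rfl).1 y (by positivity) (by exact_mod_cast hy) (by exact_mod_cast hyc)
  rw [sh_zero] at h1
  exact h1

open Classical in
/-- The free end. -/
theorem gm_free {κ δ δ' ε ε₁ c' : ℝ} {η : Env} (hL : LocG μ s N κ δ' ε₁ c' η) (hδ : 0 ≤ δ) (hN : 1 ≤ N) (hκ : κ ≤ 1)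
    (he : ε₁ ≤ κ * δ) (he' : ε₁ ≤ ε) :
    gm (lw μ s η N (Fr N)) (fun S => if Ns μ s ε 0 N S ∧ Cna μ s N κ δ S then 0 else 1) ≤ Real.exp (-(N : ℝ) ^ c') := by
  have hNR : (1 : ℝ) ≤ N := by exact_mod_cast hN
  refine (Pool.W7d29a1.C0.gm_mono _ (g := fun S : Px (Fr N) => if NSp μ s N N ε₁ S.1 then (0 : ℝ) else 1)
    (fun S => ind_le hδ hN he he' (full_Fr N) S)).trans ?_
  rw [gm_lw η fun S => if NSp μ s N N ε₁ S then (0 : ℝ) else 1]
  have h1 := (hL 0 (Nat.zero_le _) 0 (by simp) N (by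
    calc (N : ℝ) ^ κ ≤ (N : ℝ) ^ (1 : ℝ) := Real.rpow_le_rpow_of_exponent_le hNR hκ
      _ = N := Real.rpow_one _) le_rfl).2
  rw [sh_zero] at h1
  exact h1

variable [IsProbabilityMeasure μ] {c C : ℝ} {n₀ : ℕ}

/-- **LOCALISATION IN THE MODEL.** -/
theorem locM18 (h : In μ s c C n₀) {κ : ℝ} (hκ : 0 < κ) (hκ1 : κ ≤ 1) : ∀ ε : ℝ, 0 < ε → ∃ δ δ' c' : ℝ, 0 < δ ∧ 0 < δ' ∧ 0 < c' ∧
    ∃ N₀ : ℕ, ∀ N : ℕ, N₀ ≤ N → law μ {η | ¬ LocB μ s N κ δ δ' ε c' η} ≤ ENNReal.ofReal (Real.exp (-(N : ℝ) ^ c')) := by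
  classical
  intro ε hε
  obtain ⟨δ, c₁, hδ, hc₁, N₁, h1⟩ := loc14 h hκ ε hε
  obtain ⟨ε₁, hε₁⟩ : ∃ ε₁ : ℝ, ε₁ = min ε (κ * δ) := ⟨_, rfl⟩
  have he0 : 0 < ε₁ := by rw [hε₁]; exact lt_min hε (by positivity)
  have he1 : ε₁ ≤ ε := by rw [hε₁]; exact min_le_left _ _
  have he2 : ε₁ ≤ κ * δ := by rw [hε₁]; exact min_le_right _ _
  obtain ⟨δ', c₂, hδ', hc₂, N₂, h2⟩ := loc14 h hκ ε₁ he0
  obtain ⟨g, hg⟩ : ∃ g : ℝ, g = min c₁ c₂ := ⟨_, rfl⟩
  have hg0 : 0 < g := by rw [hg]; exact lt_min hc₁ hc₂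
  have hg1 : g ≤ c₁ := by rw [hg]; exact min_le_left _ _
  have hg2 : g ≤ c₂ := by rw [hg]; exact min_le_right _ _
  have ev1 := Pool.Agent.W_7d29a1_HZ.Z22.absorb 2 0 (b := 1) (g := g) one_pos hg0
  obtain ⟨N₃, hN₃⟩ := eventually_atTop.1 ev1
  refine ⟨δ, δ', g / 2, hδ, hδ', by positivity, max (max N₁ N₂) (max N₃ 1), fun N hN => ?_⟩
  have k1 : N₁ ≤ N := (le_max_left _ _).trans ((le_max_left _ _).trans hN)
  have k2 : N₂ ≤ N := (le_max_right _ _).trans ((le_max_left _ _).trans hN)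
  have k3 : N₃ ≤ N := (le_max_left _ _).trans ((le_max_right _ _).trans hN)
  have k4 : 1 ≤ N := (le_max_right _ _).trans ((le_max_right _ _).trans hN)
  have hNR : (1 : ℝ) ≤ N := by exact_mod_cast k4
  have m1 : ∀ a : ℝ, g ≤ a → Real.exp (-(N : ℝ) ^ a) ≤ Real.exp (-(N : ℝ) ^ g) := fun a ha =>
    Real.exp_le_exp.2 (neg_le_neg (Real.rpow_le_rpow_of_exponent_le hNR ha))
  have m2 : ∀ a : ℝ, g ≤ a → Real.exp (-(N : ℝ) ^ a) ≤ Real.exp (-(N : ℝ) ^ (g / 2)) := fun a ha =>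
    Real.exp_le_exp.2 (neg_le_neg (Real.rpow_le_rpow_of_exponent_le hNR (by linarith)))
  have hsub : {η | ¬ LocB μ s N κ δ δ' ε (g / 2) η} ⊆ {η | ¬ LocG μ s N κ δ ε c₁ η} ∪ {η | ¬ LocG μ s N κ δ' ε₁ c₂ η} := by
    intro η hη
    by_contra hcon
    rw [Set.mem_union, not_or] at hcon
    have g1 : LocG μ s N κ δ ε c₁ η := not_not.1 hcon.1
    have g2 : LocG μ s N κ δ' ε₁ c₂ η := not_not.1 hcon.2
    refine hη ⟨?_, ?_, ?_⟩
    · intro Q hne hQ c d hcd hd hm S hS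
      exact (cE_Ns g1 hQ hcd hd le_rfl hm S hS).trans (m2 _ hg1)
    · intro y hy hyc
      exact (gm_pin g2 hδ.le k4 hκ1 he2 he1 hy hyc).trans (m2 _ hg2)
    · exact (gm_free g2 hδ.le k4 hκ1 he2 he1).trans (m2 _ hg2)
  refine (measure_mono hsub).trans ((measure_union_le _ _).trans ((add_le_add (h1 N k1) (h2 N k2)).trans ?_))
  rw [← ENNReal.ofReal_add (Real.exp_pos _).le (Real.exp_pos _).le]
  refine ENNReal.ofReal_le_ofReal ?_
  have k5 := hN₃ N k3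
  rw [Real.rpow_zero, mul_one, one_mul] at k5
  have h3 := m1 c₁ hg1
  have h4 := m1 c₂ hg2
  linarith

end

end Pool.Agent.W_7d29a1_C0.LocM18
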