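import Pool.Agent.W_7d29a1_C0.Tube73
import Pool.Agent.W_7d29a1_C0.Fld19
import Pool.Agent.W_7d29a1_C0.BoxS19
import Pool.Agent.W_7d29a1_C0.LocM18

/-!
CURV0 (MP_7d29a1_pr), leaf E1e (list of helper19) on the model `Mod92`: the boxes, the tubes and THE FAR PARTS of the slab fields.
`pm S m` = position at the row `m : ℤ`, `nn` = visits (`Fld19`), `JZ J` = the rows of `J`. (i) `QV_Sl`; (ii) `Str_of_Ns`, `out_own`: a
path with no steep piece is in the tube of its own box; (iii) `abs_farF`, `abs_insR_far`; `abs_dwF`: the derivative of the second field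
along the far part of the first one; `sep_of_out`: the free replica out of the tube is an extra branch. (helper73)
-/

set_option autoImplicit false
set_option linter.unusedSectionVars false
set_option linter.unusedVariables false

namespace Pool.W7d29a1.C0.T73

open Finset MeasureTheory Pool.Agent.W_7d29a1_F Pool.Agent.W_7d29a1_X Pool.W7d29a1.C0
open Pool.Agent.W_7d29a1_C0.Mod92 (Px Fr Pn lw ps ps_nonneg ps_le)
open Pool.Agent.W_7d29a1_H (sl)
open Pool.Agent.W_7d29a1_HS (In wd)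
open Pool.Agent.W_7d29a1_HZ (wd')
open Pool.W7d29a1.C0.VT31 (Mp cE cC cV fz cE_mono cE_nonneg cE_smul)
open Pool.W7d29a1.C0.H41 (Dr Ev cut cut' QV farF dwF)
open Pool.W7d29a1.C0.Fld19
open Pool.Agent.W_7d29a1_C0.LocM18 (Ns)

noncomputable section

/-! ### Abstract: the insertion of a far part -/

section Ins

variable {X ι ι' : Type*} [Fintype X] [Nonempty X] [Fintype ι] [DecidableEq ι] [Fintype ι'] [DecidableEq ι'] {E : Ev X ι} {E' : Ev X ι'}

open Classical in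
/-- **The insertion of the far part**, pathwise. -/
theorem abs_insR_far (d : Dr E E') {pa : X → ℤ → ℤ} {nv : Pt → X → ℝ} (hv : Vis pa nv) {sl R : ℝ} {m0 : ℤ} {n : ℕ} {J : Finset ℤ}
    {S : Finset Pt} (hS : ∀ p ∈ S, p.1 ∈ J) (hJ : J.Nonempty) {c : Pt → Env → ℝ} {M : ℝ} (hM : 0 ≤ M) (η : Env)
    (hc : ∀ p ∈ S, |c p η| ≤ M / J.card) (Ψ : (ι → X) → ℝ) (y : ι' → X) :
    |d.insR (bx pa R m0 n) (farF (fun β : ι → Fin (n + 1) => chT sl R m0 β) S c nv η) Ψ y| ≤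
      M * (|Ψ fun i => y (d.emb i)| * ∑ j, |d.sg j| *
        (if OutB pa sl R m0 J (fun i => bx pa R m0 n (y (d.emb i))) (y j) then 1 else 0)) := by
  unfold Dr.insR Dr.ins
  rw [abs_mul, mul_left_comm]
  refine mul_le_mul_of_nonneg_left ?_ (abs_nonneg _)
  refine (abs_sum_le_sum_abs _ _).trans ?_
  rw [mul_sum]
  refine sum_le_sum fun j _ => ?_
  rw [abs_mul, mul_left_comm]
  refine mul_le_mul_of_nonneg_left ?_ (abs_nonneg _)
  exact abs_far_le hv hS hJ hM η hc _ (y j)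

open Classical in
/-- The own replicas are out of the tube only if they are not straight. -/
theorem out_own_le {pa : X → ℤ → ℤ} {sl R : ℝ} {m0 : ℤ} {n : ℕ} {J : Finset ℤ} (hR : 1 ≤ R) (h0 : ∀ x, 0 ≤ pa x m0)
    (h1 : ∀ x, pa x m0 ≤ n) (x : ι → X) (i : ι) :
    (if OutB pa sl R m0 J (fun i => bx pa R m0 n (x i)) (x i) then (1 : ℝ) else 0) ≤ if Str pa sl R m0 J (x i) then 0 else 1 := by
  by_cases h : Str pa sl R m0 J (x i)
  · rw [if_neg (not_OutB hR (h0 _) (h1 _) (i := i) rfl h), if_pos h]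
  · rw [if_neg h]
    split_ifs <;> norm_num

end Ins

/-! ### The model -/

variable {μ : Measure ℝ} {s : ℝ} {N : ℕ} {Q : Finset (Finset ℕ)}

/-- The position at the row `m`. -/
def pm (S : Px Q) (m : ℤ) : ℤ := ps S m.toNat

theorem pm_nat (S : Px Q) (m : ℕ) : pm S m = ps S m := by
  unfold pm
  rw [Int.toNat_natCast]

theorem pm_nonneg (S : Px Q) (m : ℤ) : 0 ≤ pm S m := ps_nonneg S _

theorem pm_le (S : Px Q) {m : ℤ} {n : ℕ} (h : m ≤ n) : pm S m ≤ n := by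
  unfold pm
  have := ps_le S m.toNat
  omega

/-- The visits of `Fld19`. -/
theorem vis_nn : Vis (pm (Q := Q)) fun p (S : Px Q) => nn p S.1 where
  nonneg p S := nn_nonneg p S.1
  le_one p S := nn_le_one p S.1
  on p S h := by
    by_contra h'
    refine h (if_neg fun h2 => h' ?_)
    exact h2.2

/-- The rows of a slab as integers. -/
def JZ (J : Finset ℕ) : Finset ℤ := J.image fun i : ℕ => (i : ℤ)

theorem mem_JZ {J : Finset ℕ} {m : ℤ} : m ∈ JZ J ↔ ∃ i ∈ J, (i : ℤ) = m := mem_image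

theorem card_JZ (J : Finset ℕ) : (JZ J).card = J.card := card_image_of_injective _ fun a b h => by exact_mod_cast h

theorem JZ_ne {J : Finset ℕ} (h : J.Nonempty) : (JZ J).Nonempty := h.image _

theorem Sl_rows {J : Finset ℕ} {K : ℕ} : ∀ p ∈ Sl J K, p.1 ∈ JZ J := fun p hp => by
  obtain ⟨i, hi, y, _, rfl⟩ := mem_Sl.1 hp
  exact mem_JZ.2 ⟨i, hi, rfl⟩

variable {sl' R M : ℝ} {m0 : ℤ} {n : ℕ} {J J' : Finset ℕ} {K : ℕ} {ι : Type*} [Fintype ι]

/-- **(i) The quadratic variation of the localised field** on whole rows. -/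
theorem QV_Sl (hR : 1 ≤ R) (hJ : J.Nonempty) {c : Pt → Env → ℝ} (η : Env) (hc : ∀ p ∈ Sl J K, |c p η| ≤ M / J.card)
    (β : ι → Fin (n + 1)) :
    QV (Sl J K) (cut (chT sl' R m0 β) c) η ≤ 7 * Fintype.card ι * R * M ^ 2 / J.card := by
  have h := QV_chT (sl := sl') (m0 := m0) (n := n) (S := Sl J K) Sl_rows hR (JZ_ne hJ) (c := c) (M := M) η
    (fun p hp => by rw [card_JZ]; exact hc p hp) β
  rwa [card_JZ] at h

open Classical in
/-- **(iii) The far part of a field** on whole rows. -/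
theorem abs_farF (hJ : J.Nonempty) (hM : 0 ≤ M) {c : Pt → Env → ℝ} (η : Env) (hc : ∀ p ∈ Sl J K, |c p η| ≤ M / J.card)
    (β : ι → Fin (n + 1)) (S : Px Q) :
    |farF (fun β : ι → Fin (n + 1) => chT sl' R m0 β) (Sl J K) c (fun p (S : Px Q) => nn p S.1) η β S| ≤
      M * (if OutB pm sl' R m0 (JZ J) β S then 1 else 0) :=
  abs_far_le vis_nn Sl_rows (JZ_ne hJ) hM η (fun p hp => by rw [card_JZ]; exact hc p hp) β S

/-- The path functional of a bounded field. -/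
theorem abs_Cf_Sl (hJ : J.Nonempty) (hM : 0 ≤ M) {c : Pt → Env → ℝ} (η : Env) (hc : ∀ p ∈ Sl J K, |c p η| ≤ M / J.card)
    (S : Px Q) : |H19.Cf (Sl J K) c (fun p (S : Px Q) => nn p S.1) η S| ≤ M :=
  abs_Cf_vis vis_nn Sl_rows (JZ_ne hJ) hM η (fun p hp => by rw [card_JZ]; exact hc p hp) S

/-- **A path with no steep piece is straight over the slab.** -/
theorem Str_of_Ns {S : Px Q} {ε : ℝ} {c d k0 : ℕ} (h : Ns μ s ε c d S) (hJ : ∀ i ∈ J, c ≤ i ∧ i ≤ d) (h0 : c ≤ k0) (h1 : k0 ≤ d)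
    (hR0 : 0 ≤ R) (hR : ∀ k : ℕ, 1 ≤ k → k ≤ d - c → ((d - c : ℕ) : ℝ) ^ ε * wd' μ s k ≤ R) :
    Str pm (sl μ s) R (k0 : ℤ) (JZ J) S := by
  intro m hm
  obtain ⟨i, hi, rfl⟩ := mem_JZ.1 hm
  obtain ⟨h2, h3⟩ := hJ i hi
  unfold dl
  simp only
  rw [pm_nat, pm_nat]
  rcases lt_trichotomy i k0 with h4 | h4 | h4
  · have h5 := h i (k0 - i) (by omega) h2 (by omega)
    rw [show i + (k0 - i) = k0 by omega] at h5
    have h6 := h5.trans (hR (k0 - i) (by omega) (by omega))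
    rw [← abs_neg] at h6
    refine le_trans (le_of_eq ?_) h6
    congr 1
    push_cast [Nat.cast_sub h4.le]
    ring
  · subst h4
    rw [show ((ps S i : ℤ) : ℝ) - ((ps S i : ℤ) : ℝ) - sl μ s * ((((i : ℕ) : ℤ) : ℝ) - (((i : ℕ) : ℤ) : ℝ)) = 0 by ring, abs_zero]
    exact hR0
  · have h5 := h k0 (i - k0) (by omega) h0 (by omega)
    rw [show k0 + (i - k0) = i by omega] at h5
    refine le_trans (le_of_eq ?_) (h5.trans (hR (i - k0) (by omega) (by omega)))
    congr 1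
    push_cast [Nat.cast_sub h4.le]
    ring

/-- The width of the boxes: `K0 L ^ ε wd' L`, `L` = the length of the block of `Ns`, is enough. -/
theorem width_ok [IsProbabilityMeasure μ] {c C : ℝ} {n₀ : ℕ} (h : In μ s c C n₀) : ∃ K0 : ℝ, 1 ≤ K0 ∧ ∀ (ε : ℝ) (L : ℕ), 0 ≤ ε → ∀ k : ℕ, 1 ≤ k → k ≤ L →
    (L : ℝ) ^ ε * wd' μ s k ≤ K0 * (L : ℝ) ^ ε * wd' μ s L := by
  obtain ⟨a, K0, _, _, hK, hw⟩ := Pool.Agent.W_7d29a1_HZ.Z96.wd_all96 h
  refine ⟨K0, hK, fun ε L _ k hk hkL => ?_⟩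
  have h1 := (hw k L hk hkL).1
  calc (L : ℝ) ^ ε * wd' μ s k ≤ (L : ℝ) ^ ε * (K0 * wd' μ s L) :=
        mul_le_mul_of_nonneg_left h1 (Real.rpow_nonneg (Nat.cast_nonneg _) _)
    _ = _ := by ring

open Classical in
/-- **(ii) An own replica is out of the tube only if it has a steep piece.** -/
theorem out_own {ε : ℝ} {c d k0 : ℕ} (hJ : ∀ i ∈ J, c ≤ i ∧ i ≤ d) (h0 : c ≤ k0) (h1 : k0 ≤ d) (hn : k0 ≤ n)
    (hR : 1 ≤ R) (hRk : ∀ k : ℕ, 1 ≤ k → k ≤ d - c → ((d - c : ℕ) : ℝ) ^ ε * wd' μ s k ≤ R) (x : ι → Px Q) (i : ι) :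
    (if OutB pm (sl μ s) R (k0 : ℤ) (JZ J) (fun i => bx pm R (k0 : ℤ) n (x i)) (x i) then (1 : ℝ) else 0) ≤
      if Ns μ s ε c d (x i) then 0 else 1 := by
  by_cases h : Ns μ s ε c d (x i)
  · rw [if_pos h, if_neg]
    exact not_OutB hR (pm_nonneg _ _) (pm_le _ (by exact_mod_cast hn)) (i := i) rfl
      (Str_of_Ns h hJ h0 h1 (by linarith) hRk)
  · rw [if_neg h]
    split_ifs <;> norm_num

/-- **The free replica out of the tube is an extra branch**: at some row of the slab it is at a distance `> R` of all the replicas. -/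
theorem sep_of_out {ε : ℝ} {c d k0 : ℕ} (hJ : ∀ i ∈ J, c ≤ i ∧ i ≤ d) (h0 : c ≤ k0) (h1 : k0 ≤ d) (hn : k0 ≤ n)
    (hR : 1 ≤ R) (hRk : ∀ k : ℕ, 1 ≤ k → k ≤ d - c → ((d - c : ℕ) : ℝ) ^ ε * wd' μ s k ≤ R) {x : ι → Px Q} {z : Px Q}
    (hx : ∀ i, Ns μ s ε c d (x i)) (h : OutB pm (sl μ s) R (k0 : ℤ) (JZ J) (fun i => bx pm R (k0 : ℤ) n (x i)) z) :
    ∃ m ∈ J, ∀ i, R < |((ps z m - ps (x i) m : ℤ) : ℝ)| := by
  obtain ⟨m, hm, h2⟩ := OutB_sep hR (fun i => pm_nonneg (x i) _) (fun i => pm_le (x i) (by exact_mod_cast hn))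
    (fun i => Str_of_Ns (hx i) hJ h0 h1 (by linarith) hRk) h
  obtain ⟨k, hk, rfl⟩ := mem_JZ.1 hm
  exact ⟨k, hk, fun i => by
    have := h2 i
    rwa [pm_nat, pm_nat] at this⟩

/-! ### The derivative of the second field along the far part of the first one -/

theorem abs_cC_le' {X Y : Type*} [Fintype X] [Nonempty X] [DecidableEq Y] (w : X → ℝ) (p : X → Y) (f g : X → ℝ) {M : ℝ} (hM : 0 ≤ M)
    (hg : ∀ x, |g x| ≤ M) (x : X) : |cC w p f g x| ≤ 2 * M * cE w p (fun y => |f y|) x := by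
  have hE : ∀ h : X → ℝ, |cE w p h x| ≤ cE w p (fun y => |h y|) x := fun h => by
    rw [abs_le]
    constructor
    · have := cE_mono w p (f := fun y => -|h y|) (g := h) (fun y => neg_abs_le _) x
      have e : cE w p (fun y => -|h y|) x = -cE w p (fun y => |h y|) x := by
        have := congrFun (Pool.W7d29a1.C0.VT31.cE_neg w p fun y => |h y|) x
        exact this
      linarith
    · exact cE_mono w p (fun y => le_abs_self _) x
  have h1 : |cE w p (f * g) x| ≤ M * cE w p (fun y => |f y|) x := by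
    refine (hE _).trans ?_
    have e : cE w p (fun y => M * |f y|) x = M * cE w p (fun y => |f y|) x := congrFun (cE_smul w p M fun y => |f y|) x
    rw [← e]
    refine cE_mono w p (fun y => ?_) x
    show |f y * g y| ≤ M * |f y|
    rw [abs_mul, mul_comm]
    exact mul_le_mul_of_nonneg_right (hg y) (abs_nonneg _)
  have h2 : |cE w p g x| ≤ M := by
    refine (hE g).trans ((cE_mono w p hg x).trans_eq ?_)
    have e : cE w p (fun _ : X => M) x = M * cE w p (fun _ => (1 : ℝ)) x := by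
      have := congrFun (cE_smul w p M fun _ => (1 : ℝ)) x
      have e2 : (M • fun _ : X => (1 : ℝ)) = fun _ => M := by
        funext y
        simp
      rw [e2] at this
      exact this
    rw [e, Pool.W7d29a1.C0.VT31.cE_one, mul_one]
  have h3 := hE f
  have h4 : 0 ≤ cE w p (fun y => |f y|) x := cE_nonneg w p (fun y => abs_nonneg _) x
  have e : cC w p f g x = cE w p (f * g) x - cE w p f x * cE w p g x := rfl
  rw [e]
  refine (abs_sub _ _).trans ?_
  rw [abs_mul]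
  have h5 : |cE w p f x| * |cE w p g x| ≤ cE w p (fun y => |f y|) x * M := mul_le_mul h3 h2 (abs_nonneg _) h4
  linarith

open Classical in
/-- **(iii') The derivative of the field `|J'|⁻¹ fq` along the far part of the field `c1`.** -/
theorem abs_dwF [Nonempty (Px Q)] (hQ : GQ N Q) {U H : Env → Finset ℕ → ℝ} {c : ℕ} (hU : Past c U) (hH : Past c H)
    (hM : 0 ≤ M) (hHM : ∀ η S, |H η S| ≤ M) (hJ : J.Nonempty) (hcJ : ∀ i ∈ J, c ≤ i) (hJJ : ∀ i ∈ J, ∀ z ∈ J', i < z)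
    (hJN : ∀ z ∈ J', z ≤ N) {c1 : Pt → Env → ℝ} (ms : ∀ q ∈ Sl J N, Measurable (c1 q))
    (bl : ∀ q ∈ Sl J N, ∀ (η : Env) (r : Pt) (x : ℝ), q.1 ≤ r.1 → c1 q (Function.update η r x) = c1 q η) (η : Env) {M1 : ℝ}
    (hM1 : 0 ≤ M1) (h1 : ∀ q ∈ Sl J N, |c1 q η| ≤ M1 / J.card) (β : ι → Fin (n + 1)) (S : Px Q) :
    |dwF (fun β : ι → Fin (n + 1) => chT sl' R m0 β) (Sl J N) (Sl J' N) c1
        (fun p q η => (J'.card : ℝ)⁻¹ * fq' s U H p q η) (fun p (S : Px Q) => nn p S.1) η β S| ≤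
      2 * M * M1 * ((J'.card : ℝ)⁻¹ * ∑ z ∈ J', cE (wU μ s N Q U η) (pb z)
        (fun S' => if OutB pm sl' R m0 (JZ J) β S' then 1 else 0) S) := by
  obtain ⟨i0, hi0⟩ := hJ
  have hJ : J.Nonempty := ⟨i0, hi0⟩
  have hz : ∀ z ∈ J', 1 ≤ z ∧ c ≤ z := fun z hz => by
    have h2 := hJJ i0 hi0 z hz
    have h3 := hcJ i0 hi0
    omega
  set cf : Pt → Env → ℝ := cut' (chT sl' R m0 β) c1 with hcf
  have e1 : dwF (fun β : ι → Fin (n + 1) => chT sl' R m0 β) (Sl J N) (Sl J' N) c1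
      (fun p q η => (J'.card : ℝ)⁻¹ * fq' s U H p q η) (fun p (S : Px Q) => nn p S.1) η β S =
      ∑ z ∈ J', (J'.card : ℝ)⁻¹ * H19.Dc (Sl J N) cf (fq' s U H) ((z : ℤ), ps S z) η := by
    unfold dwF
    rw [Cf_Px]
    show Ph (Sl J' N) (H19.Dc (Sl J N) cf fun p q η => (J'.card : ℝ)⁻¹ * fq' s U H p q η) η S.1 = _
    rw [Ph_Sl (fun i hi => (hz i hi).1) _ η fun i hi => (pos_le _ _).trans (by exact_mod_cast hJN i hi)]
    refine sum_congr rfl fun z _ => ?_
    unfold H19.Dc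
    rw [mul_sum]
    exact sum_congr rfl fun p _ => by
      show cf p η * ((J'.card : ℝ)⁻¹ * fq' s U H p ((z : ℤ), pos S.1 z) η) = _
      unfold ps
      ring
  rw [e1, ← mul_sum, abs_mul, abs_of_nonneg (inv_nonneg.2 (Nat.cast_nonneg _))]
  rw [mul_left_comm]
  refine mul_le_mul_of_nonneg_left ?_ (inv_nonneg.2 (Nat.cast_nonneg _))
  refine (abs_sum_le_sum_abs _ _).trans ?_
  rw [mul_sum]
  refine sum_le_sum fun z hz' => ?_
  have hmsf : ∀ q ∈ Sl J N, Measurable (cf q) := fun q hq => (ms q hq).const_mul _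
  have hblf : ∀ q ∈ Sl J N, ∀ (η : Env) (r : Pt) (x : ℝ), (z : ℤ) < r.1 → cf q (Function.update η r x) = cf q η :=
    fun q hq η r x hr => by
      obtain ⟨i, hi, y, _, rfl⟩ := mem_Sl.1 hq
      have h2 := hJJ i hi z hz'
      show (1 - chT sl' R m0 β _) * c1 _ (Function.update η r x) = (1 - chT sl' R m0 β _) * c1 _ η
      rw [bl _ hq η r x (by simp only; omega)]
  rw [Dc_fq (μ := μ) hQ (hz z hz').2 (hJN z hz') hU hH (fun q hq => by
    obtain ⟨i, hi, y, _, rfl⟩ := mem_Sl.1 hq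
    have h2 := hJJ i hi z hz'
    simp only
    omega) hmsf hblf η S]
  have h9 := abs_cC_le' (wU μ s N Q U η) (pb z) (fun S' : Px Q => Ph (Sl J N) cf η S'.1) (fun S' : Px Q => H η S'.1) hM
    (fun S' => hHM η S'.1) S
  refine h9.trans ?_
  rw [mul_assoc (2 * M) M1]
  refine mul_le_mul_of_nonneg_left ?_ (by linarith)
  have e2 : cE (wU μ s N Q U η) (pb z) (fun S' : Px Q => M1 * (if OutB pm sl' R m0 (JZ J) β S' then (1 : ℝ) else 0)) S =
      M1 * cE (wU μ s N Q U η) (pb z) (fun S' : Px Q => if OutB pm sl' R m0 (JZ J) β S' then (1 : ℝ) else 0) S :=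
    congrFun (cE_smul (wU μ s N Q U η) (pb z) M1 fun S' : Px Q => if OutB pm sl' R m0 (JZ J) β S' then (1 : ℝ) else 0) S
  rw [← e2]
  refine cE_mono (wU μ s N Q U η) (pb z) (fun S' => ?_) S
  have h3 := abs_farF (Q := Q) (sl' := sl') (R := R) (m0 := m0) hJ hM1 η h1 β S'
  have e3 : farF (fun β : ι → Fin (n + 1) => chT sl' R m0 β) (Sl J N) c1 (fun p (S : Px Q) => nn p S.1) η β S' =
      Ph (Sl J N) cf η S'.1 := congrFun (Cf_Px (Q := Q) (Sl J N) cf η) S'
  rw [e3] at h3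
  exact h3

end

end Pool.W7d29a1.C0.T73
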