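import Pool.Agent.W_7d29a1_C0.Bd73B
import Pool.Agent.W_7d29a1_C0.Far19

/-!
CURV0 (MP_7d29a1_pr), GS one kick: THE TWO BAD EVENTS AS ROBUST NEAR TIES OF ONE PATH GIVEN A BLOCK. `w` is any log weight with
`|w - lw| ≤ D`, `q` any condition coarser than `pJ c d`.
`cE_ends`: Markov. `cE2_merge`: pairs of replicas which agree outside of `[c, d)` against independent replicas given `q`:
`(cE w q (pair mass given pJ c d)) ^ 2 ≤ (N + 1) ^ 2 cE2 w q K`. `T_rob`: if the conditional mass, given `q x`, of the paths with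
`TT ≥ δ` is at least `q1`, then `Tau w q` holds at `x`, left or right of `j`, or the conditional mass of the paths out of the cone is more
than `ρ`. `out_rob`: the same for the paths out of the tube of the box of `x`: in one of the fixed pieces of the slab the conditional mass
of the paths which avoid `x` is at least `ρ₁`. (helper73)
-/

set_option autoImplicit false
set_option linter.unusedSectionVars false
set_option linter.unusedVariables false

namespace Pool.W7d29a1.C0.Bd73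

open Finset MeasureTheory Pool.Agent.W_7d29a1_F Pool.Agent.W_7d29a1_X Pool.W7d29a1.C0
open Pool.W7d29a1.C0 (gz gm gm_mono gm_const)
open Pool.W7d29a1.C0.VT31
open Pool.Agent.W_7d29a1_H (sl)
open Pool.Agent.W_7d29a1_HZ (wd')
open Pool.Agent.W_7d29a1_C0.Swap57
open Pool.W7d29a1.C0.R43 (cE_tilt cE2_tilt gm_tilt43 Tau tau_meas mI mI_nonneg cE2_mI)
open Pool.Agent.W_7d29a1_C0.Mod92 (Px lw ps ps_of_le ps_of_ge ps_nonneg ps_le pJ gj abs_gj)
open Pool.Agent.W_7d29a1_C0.Blk18 (Full)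
open Pool.Agent.W_7d29a1_C0.LocM18 (Cn Ns)
open Pool.Agent.W_7d29a1_C0.GwA50 (GwW)
open Pool.W7d29a1.C0.T73

noncomputable section

variable {μ : Measure ℝ} {s : ℝ} {N : ℕ} {Q : Finset (Finset ℕ)} {Y : Type*} [DecidableEq Y] [Nonempty (Px Q)]

theorem cE_fib73 {X Z : Type*} [Fintype X] [DecidableEq Z] {w : X → ℝ} {p : X → Z} {f g : X → ℝ} {x : X}
    (h : ∀ z, p z = p x → f z = g z) : cE w p f x = cE w p g x := by
  unfold cE
  congr 1
  refine sum_congr rfl fun z _ => ?_
  split_ifs with hz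
  · rw [h z hz]
  · rfl

section Swap

variable [SwQ Q]

/-- **Markov**: the mean, given the outside of `[c, d)`, of a functional of the rows `[c, d]` depends on the two end positions only. -/
theorem cE_ends {c d : ℕ} (hcd : c ≤ d) {w : Px Q → ℝ} (hw : Wk c c d d w) {g : Px Q → ℝ} (hg : Lk c d g) {S S' : Px Q}
    (hc : ps S c = ps S' c) (hd : ps S d = ps S' d) : cE w (pJ c d) g S = cE w (pJ c d) g S' := by
  have h1 := cE_sub_eq w (pJ c d) g S S'
  have h2 := cE2_Mt_zero hcd hw hg S S'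
  have h3 : cE2 w (pJ c d) (fun z z' => g z - g z') S S' =
      cE2 w (pJ c d) (fun z z' => (1 - NM c c d d z z') * (g z - g z')) S S' := by
    unfold cE2
    refine cE_fib73 fun z hz => cE_fib73 fun z' hz' => ?_
    have a1 : ps z c = ps z' c := by
      rw [ps_of_le hz le_rfl, ps_of_le hz' le_rfl]
      exact hc
    have a2 : ps z d = ps z' d := by
      rw [ps_of_ge hz le_rfl, ps_of_ge hz' le_rfl]
      exact hd
    have e : NM c c d d z z' = 0 := NM_of (show Mt c c d d z z' from ⟨⟨c, le_rfl, le_rfl, a1⟩, d, le_rfl, le_rfl, a2⟩)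
    show g z - g z' = (1 - NM c c d d z z') * (g z - g z')
    rw [e, sub_zero, one_mul]
  linarith

/-- **Pairs which agree outside of `[c, d)` against independent replicas.** -/
theorem cE2_merge {c d : ℕ} (hcd : c ≤ d) (hd : d ≤ N) {w : Px Q → ℝ} (hw : Wk c c d d w) {q : Px Q → Y} (hc : Crs q (pJ c d))
    {K : Px Q → Px Q → ℝ} (h0 : ∀ z z', 0 ≤ K z z') (h1 : ∀ z z', K z z' ≤ 1) (hK : ∀ z, Lk c d (K z))
    (hK' : ∀ z', Lk c d fun z => K z z') (x : Px Q) :
    (cE w q (fun z => cE2 w (pJ c d) K z z) x) ^ 2 ≤ ((N : ℝ) + 1) ^ 2 * cE2 w q K x x := by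
  classical
  set p : Px Q → _ := pJ c d with hp
  set F : Px Q → ℝ := fun z => cE2 w p K z z with hF
  have hF0 : ∀ z, 0 ≤ F z := fun z => cE2_nonneg w p h0 z z
  have hF1 : ∀ z, F z ≤ 1 := fun z => cE2_le_one w p h1 z z
  have hLk : ∀ z, Lk c d fun u => cE w p (K u) z := fun z S S' h =>
    congrArg (fun k => cE w p k z) (funext fun z' => hK' z' S S' h)
  have hA : ∀ z z', ps z c = ps z' c → ps z d = ps z' d → cE2 w p K z z' = F z ∧ F z' = F z := fun z z' e1 e2 => by
    have a1 : ∀ u, cE w p (K u) z' = cE w p (K u) z := fun u => (cE_ends hcd hw (hK u) e1 e2).symm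
    have a2 : (fun u => cE w p (K u) z') = fun u => cE w p (K u) z := funext a1
    refine ⟨?_, ?_⟩
    · show cE w p (fun u => cE w p (K u) z') z = cE w p (fun u => cE w p (K u) z) z
      rw [a2]
    · show cE w p (fun u => cE w p (K u) z') z' = cE w p (fun u => cE w p (K u) z) z
      rw [a2]
      exact (cE_ends hcd hw (hLk z) e1 e2).symm
  set V : Finset (ℕ × ℕ) := range (N + 1) ×ˢ range (N + 1) with hV
  set vz : Px Q → ℕ × ℕ := fun z => ((ps z c).toNat, (ps z d).toNat) with hvz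
  have hmem : ∀ z, vz z ∈ V := fun z => by
    have b1 := ps_nonneg z c
    have b2 := ps_le z c
    have b3 := ps_nonneg z d
    have b4 := ps_le z d
    rw [hV, mem_product, mem_range, mem_range]
    constructor
    · show (ps z c).toNat < N + 1
      omega
    · show (ps z d).toNat < N + 1
      omega
  have hends : ∀ z z', vz z = vz z' → ps z c = ps z' c ∧ ps z d = ps z' d := fun z z' h => by
    have b1 := ps_nonneg z c
    have b2 := ps_nonneg z' c
    have b3 := ps_nonneg z d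
    have b4 := ps_nonneg z' d
    have c1 : (ps z c).toNat = (ps z' c).toNat := congrArg Prod.fst h
    have c2 : (ps z d).toNat = (ps z' d).toNat := congrArg Prod.snd h
    omega
  set f : ℕ × ℕ → Px Q → ℝ := fun v z => if vz z = v then F z else 0 with hf
  have hsum : ∀ z, ∑ v ∈ V, f v z = F z := fun z => by
    rw [hf]
    simp only
    rw [sum_ite_eq, if_pos (hmem z)]
  have k1 : cE w q F x = ∑ v ∈ V, cE w q (f v) x := by
    have e : F = ∑ v ∈ V, f v := by
      funext z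
      rw [Finset.sum_apply]
      exact (hsum z).symm
    rw [e, cE_sum, Finset.sum_apply]
  have k2 : cE2 w q (fun z z' => ∑ v ∈ V, f v z * f v z') x x = ∑ v ∈ V, (cE w q (f v) x) ^ 2 := by
    unfold cE2
    have e1 : ∀ z, cE w q (fun z' => ∑ v ∈ V, f v z * f v z') x = ∑ v ∈ V, f v z * cE w q (f v) x := fun z => by
      have e : (fun z' => ∑ v ∈ V, f v z * f v z') = ∑ v ∈ V, f v z • f v := by
        funext z'
        rw [Finset.sum_apply]
        rfl
      rw [e, cE_sum, Finset.sum_apply]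
      refine sum_congr rfl fun v _ => ?_
      rw [cE_smul]
      rfl
    have e2 : (fun z => cE w q (fun z' => ∑ v ∈ V, f v z * f v z') x) = ∑ v ∈ V, cE w q (f v) x • f v := by
      funext z
      rw [e1 z, Finset.sum_apply]
      refine sum_congr rfl fun v _ => ?_
      rw [Pi.smul_apply, smul_eq_mul, mul_comm]
    rw [e2, cE_sum, Finset.sum_apply]
    refine sum_congr rfl fun v _ => ?_
    rw [cE_smul, Pi.smul_apply, smul_eq_mul, sq]
  have k3 : ∀ z z', ∑ v ∈ V, f v z * f v z' ≤ cE2 w p K z z' := fun z z' => by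
    by_cases h : vz z = vz z'
    · obtain ⟨e1, e2⟩ := hends z z' h
      obtain ⟨e3, e4⟩ := hA z z' e1 e2
      have e5 : ∑ v ∈ V, f v z * f v z' = F z * F z' := by
        have e6 : ∀ v ∈ V, f v z * f v z' = if vz z = v then F z * F z' else 0 := fun v _ => by
          rw [hf]
          simp only
          rw [← h]
          split_ifs <;> ring
        rw [sum_congr rfl e6, sum_ite_eq, if_pos (hmem z)]
      rw [e5, e3, e4]
      calc F z * F z ≤ F z * 1 := mul_le_mul_of_nonneg_left (hF1 z) (hF0 z)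
        _ = F z := mul_one _
    · have e5 : ∑ v ∈ V, f v z * f v z' = 0 := sum_eq_zero fun v _ => by
        rw [hf]
        simp only
        by_cases h1 : vz z = v
        · rw [if_neg (show ¬ vz z' = v from fun h2 => h (h1.trans h2.symm)), mul_zero]
        · rw [if_neg h1, zero_mul]
      rw [e5]
      exact cE2_nonneg w p h0 z z'
  have k4 : ∑ v ∈ V, (cE w q (f v) x) ^ 2 ≤ cE2 w q K x x := by
    rw [← k2, ← cE2_tower w hc K x x]
    exact cE2_mono w q k3 x x
  have k5 := sq_sum_le_card_mul_sum_sq (s := V) (f := fun v => cE w q (f v) x)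
  have e6 : ((V.card : ℕ) : ℝ) = ((N : ℝ) + 1) ^ 2 := by
    rw [hV, card_product, card_range]
    push_cast
    ring
  rw [e6] at k5
  rw [k1]
  exact k5.trans (mul_le_mul_of_nonneg_left k4 (sq_nonneg _))

theorem Lk_NI {c d i j : ℕ} (h1 : c ≤ i) (h2 : j ≤ d) (z : Px Q) : Lk c d (NI i j z) := fun S S' h => by
  unfold NI
  refine if_congr (forall_congr' fun k => forall_congr' fun hk => forall_congr' fun hk' => ?_) rfl rfl
  rw [h k (h1.trans hk) (hk'.trans h2)]

theorem Lk_NI' {c d i j : ℕ} (h1 : c ≤ i) (h2 : j ≤ d) (z' : Px Q) : Lk c d fun z => NI i j z z' := fun S S' h => by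
  show NI i j S z' = NI i j S' z'
  unfold NI
  refine if_congr (forall_congr' fun k => forall_congr' fun hk => forall_congr' fun hk' => ?_) rfl rfl
  rw [h k (h1.trans hk) (hk'.trans h2)]

theorem NI_le_one (i j : ℕ) (S S' : Px Q) : NI i j S S' ≤ 1 := by
  unfold NI
  split_ifs <;> norm_num

open Classical in
/-- **(A1) Differences of `g` given `pJ c d`, robust given `q`, are a robust near tie of the path.** -/
theorem T_rob {κ δ δ₁ ε c' : ℝ} {η : Env} (h : GwW μ s N κ δ δ₁ ε c' η) (hQ : Full N Q) {b j : ℕ} (hj : j + b ≤ N)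
    (h1 : (N : ℝ) ^ κ ≤ ((j - (j - b) : ℕ) : ℝ)) (h2 : (N : ℝ) ^ κ ≤ b) {B : ℝ} (hB : 0 ≤ B) {a : ℤ} (ha : a = 1 ∨ a = -1)
    {w : Px Q → ℝ} {D : ℝ} (hA : ∀ x, |w x - lw μ s η N Q x| ≤ D) {c d : ℕ} (hcj : c ≤ j - b) (hjd : j + b ≤ d) (hd : d ≤ N)
    (hw : Wk c c d d w) {q : Px Q → Y} (hc : Crs q (pJ c d)) {M ρ δ' q1 m : ℝ} (hδ' : 0 ≤ δ') (hm : 0 ≤ m)
    (hM : ((N : ℝ) + 1) ^ 2 * Real.exp (-(5 * M)) ≤ m ^ 2)
    (hnum : 2 * Real.exp ((N : ℝ) ^ ε) * Real.exp (4 * D) * m + Real.exp (-(N : ℝ) ^ c') + 2 * B * ρ ≤ q1 * δ') {x : Px Q}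
    (hx : q1 ≤ cE w q (fun S => if δ' ≤ TT w (pJ c d) (gj μ s η δ B b j a) S then 1 else 0) x) :
    Tau w q (j - b) j M x ∨ Tau w q j (j + b) M x ∨ ρ < cE w q (nCn μ s δ₁ (j - b) (j + b)) x := by
  have hcd : c ≤ d := by omega
  by_contra h3
  push Not at h3
  obtain ⟨h4, h5, h6⟩ := h3
  set g := gj (Q := Q) μ s η δ B b j a with hg
  set p : Px Q → _ := pJ c d with hp
  have hN : (0 : ℝ) < ((N : ℝ) + 1) ^ 2 := by positivity
  have key : ∀ i k : ℕ, c ≤ i → k ≤ d → ¬ Tau w q i k M x → cE w q (fun z => cE2 w p (NI i k) z z) x < m := fun i k hi hk hT => by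
    unfold Tau at hT
    rw [not_le] at hT
    have k1 := cE2_merge hcd hd hw hc (K := NI i k) (fun z z' => NI_nonneg i k z z') (fun z z' => NI_le_one i k z z')
      (fun z => Lk_NI hi hk z) (fun z' => Lk_NI' hi hk z') x
    have k2 : (cE w q (fun z => cE2 w p (NI i k) z z) x) ^ 2 < m ^ 2 :=
      lt_of_le_of_lt k1 (lt_of_lt_of_le (mul_lt_mul_of_pos_left hT hN) hM)
    exact lt_of_pow_lt_pow_left₀ 2 hm k2
  have k1 := key (j - b) j hcj (by omega) h4
  have k2 := key j (j + b) (by omega) hjd h5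
  -- `T` at each path
  have e : lw μ s η N Q + (w - lw μ s η N Q) = w := by
    funext z
    simp
  have hcw : Crs p (pJ (j - b) (j + b)) := Pool.Agent.W_7d29a1_C0.Mod92.crs_pJ hcj hjd
  have k3 : ∀ S, TT w p g S ≤ ((Real.exp ((N : ℝ) ^ ε) * Real.exp (4 * D)) • (fun z : Px Q => cE2 w p (NI (j - b) j) z z) +
      ((Real.exp ((N : ℝ) ^ ε) * Real.exp (4 * D)) • (fun z : Px Q => cE2 w p (NI j (j + b)) z z) +
      (Real.exp (-(N : ℝ) ^ c') • (fun _ : Px Q => (1 : ℝ)) + (2 * B) • cE w p (nCn μ s δ₁ (j - b) (j + b)))) : Px Q → ℝ) S :=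
      fun S => by
    have k4 := TT_le (w := lw μ s η N Q) (A := w - lw μ s η N Q) (D := D) hA hcw (E0 := Real.exp ((N : ℝ) ^ ε))
      (Real.exp_pos _).le (fun z z' => NM_nonneg (j - b) j j (j + b) z z')
      (fun z z' => NM_le (j - b) j j (j + b) z z') (gj_dif h hQ hj h1 h2 hB ha) S
    rw [e] at k4
    refine k4.trans_eq ?_
    simp only [Pi.add_apply, Pi.smul_apply, smul_eq_mul]
    ring
  have k5 := cE_mono w q k3 x
  rw [cE_add, cE_add, cE_add, cE_smul, cE_smul, cE_smul, cE_smul, cE_one] at k5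
  have k6 : cE w q (cE w p (nCn μ s δ₁ (j - b) (j + b))) = cE w q (nCn μ s δ₁ (j - b) (j + b)) := cE_tower w hc _
  rw [k6] at k5
  simp only [Pi.add_apply, Pi.smul_apply, smul_eq_mul, mul_one] at k5
  have k7 : δ' * cE w q (fun S => if δ' ≤ TT w p g S then 1 else 0) x ≤ cE w q (TT w p g) x := by
    have e1 : δ' * cE w q (fun S => if δ' ≤ TT w p g S then 1 else 0) x =
        cE w q (δ' • fun S => if δ' ≤ TT w p g S then (1 : ℝ) else 0) x := by
      rw [cE_smul]
      rfl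
    rw [e1]
    refine cE_mono w q (fun S => ?_) x
    rw [Pi.smul_apply, smul_eq_mul]
    have := TT_nonneg w p g S
    split_ifs with h7
    · rw [mul_one]
      exact h7
    · rw [mul_zero]
      exact this
  have k8 : q1 * δ' ≤ δ' * cE w q (fun S => if δ' ≤ TT w p g S then 1 else 0) x := by
    rw [mul_comm q1]
    exact mul_le_mul_of_nonneg_left hx hδ'
  have hE : 0 < Real.exp ((N : ℝ) ^ ε) * Real.exp (4 * D) := mul_pos (Real.exp_pos _) (Real.exp_pos _)
  have k9 := mul_lt_mul_of_pos_left k1 hE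
  have k10 := mul_lt_mul_of_pos_left k2 hE
  have k11 : 2 * B * cE w q (nCn μ s δ₁ (j - b) (j + b)) x ≤ 2 * B * ρ := mul_le_mul_of_nonneg_left h6 (by positivity)
  nlinarith

end Swap

/-! ### Out of the tube -/

theorem OutB_one {ι : Type*} {pa : Px Q → ℤ → ℤ} {sl' R : ℝ} {m0 : ℤ} {J : Finset ℤ} {n : ℕ} {β : ι → Fin (n + 1)} {z : Px Q}
    (h : OutB pa sl' R m0 J β z) (i : ι) : OutB pa sl' R m0 J (fun _ : Unit => β i) z := by
  obtain ⟨m, hm, h1⟩ := h
  exact ⟨m, hm, fun _ => h1 i⟩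

/-- Two paths without steep pieces which are far at one row do not meet for a while. -/
theorem far_NI {x z : Px Q} {ε R : ℝ} {c d m l : ℕ} (hx : Ns μ s ε c d x) (hz : Ns μ s ε c d z) (hm : c ≤ m) (hml : m + l ≤ d)
    (hR : 0 ≤ R) (h : R < |((ps z m - ps x m : ℤ) : ℝ)|)
    (hl : ∀ k : ℕ, 1 ≤ k → k ≤ l → 2 * (((d - c : ℕ) : ℝ) ^ ε * wd' μ s k) ≤ R) {i k : ℕ} (hi : m ≤ i) (hk : k ≤ m + l) :
    NI i k x z = 1 := by
  unfold NI
  refine if_pos fun r h1 h2 => ?_
  intro he
  rcases Nat.eq_or_lt_of_le (hi.trans h1) with h3 | h3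
  · subst h3
    rw [he, sub_self, Int.cast_zero, abs_zero] at h
    linarith
  · obtain ⟨t, rfl⟩ : ∃ t, r = m + t := ⟨r - m, by omega⟩
    have h4 : 1 ≤ t := by omega
    have h5 := hx m t h4 hm (by omega)
    have h6 := hz m t h4 hm (by omega)
    have h7 := hl t h4 (by omega)
    rw [he] at h5
    rw [abs_le] at h5 h6
    rw [lt_abs] at h
    push_cast at h5 h6 h
    rcases h with h | h
    · linarith [h5.1, h5.2, h6.1, h6.2]
    · linarith [h5.1, h5.2, h6.1, h6.2]

open Classical in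
/-- **(A2) Paths out of the tube of the box of `x`, robust given `q`, are a robust near tie of `x`** in one of the pieces
`[a0 + n l, a0 + (n + 1) l]`, `n ≤ r`. -/
theorem out_rob {ε R : ℝ} {c d k0 n a0 l r : ℕ} {J : Finset ℕ} (hJ : ∀ i ∈ J, a0 ≤ i ∧ i ≤ a0 + r * l) (hl0 : 1 ≤ l) (hc : c ≤ a0)
    (hd : a0 + (r + 2) * l ≤ d) (h0 : c ≤ k0) (h1 : k0 ≤ d) (hn : k0 ≤ n) (hR : 1 ≤ R)
    (hRk : ∀ k : ℕ, 1 ≤ k → k ≤ d - c → ((d - c : ℕ) : ℝ) ^ ε * wd' μ s k ≤ R)
    (hl : ∀ k : ℕ, 1 ≤ k → k ≤ 2 * l → 2 * (((d - c : ℕ) : ℝ) ^ ε * wd' μ s k) ≤ R) {w : Px Q → ℝ} {q : Px Q → Y} {x : Px Q}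
    (hx : Ns μ s ε c d x) {q1 ρ₁ ρ' : ℝ} (hnum : (r + 1) * ρ₁ + ρ' ≤ q1)
    (h : q1 ≤ cE w q (fun z => if OutB pm (sl μ s) R (k0 : ℤ) (T73.JZ J) (fun _ : Unit => bx pm R (k0 : ℤ) n x) z then 1 else 0) x) :
    (∃ t ≤ r, ρ₁ ≤ mI w q (a0 + t * l) (a0 + t * l + l) x) ∨ ρ' < cE w q (fun z => if Ns μ s ε c d z then 0 else 1) x := by
  by_contra h2
  push Not at h2
  obtain ⟨h3, h4⟩ := h2
  have k1 : ∀ z, (if OutB pm (sl μ s) R (k0 : ℤ) (T73.JZ J) (fun _ : Unit => bx pm R (k0 : ℤ) n x) z then (1 : ℝ) else 0) ≤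
      (∑ t ∈ range (r + 1), NI (a0 + t * l) (a0 + t * l + l) x + fun z : Px Q => if Ns μ s ε c d z then (0 : ℝ) else 1 :
        Px Q → ℝ) z := fun z => by
    rw [Pi.add_apply, Finset.sum_apply]
    have hn0 : ∀ t ∈ range (r + 1), 0 ≤ NI (a0 + t * l) (a0 + t * l + l) x z := fun t _ => NI_nonneg _ _ _ _
    have hs0 : 0 ≤ ∑ t ∈ range (r + 1), NI (a0 + t * l) (a0 + t * l + l) x z := sum_nonneg hn0
    by_cases ho : OutB pm (sl μ s) R (k0 : ℤ) (T73.JZ J) (fun _ : Unit => bx pm R (k0 : ℤ) n x) z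
    · rw [if_pos ho]
      by_cases hz : Ns μ s ε c d z
      · rw [if_pos hz, add_zero]
        obtain ⟨m, hm, h5⟩ := sep_of_out (x := fun _ : Unit => x) (fun i hi => by
          obtain ⟨b1, b2⟩ := hJ i hi
          constructor
          · omega
          · nlinarith) h0 h1 hn hR hRk (fun _ => hx) ho
        obtain ⟨b1, b2⟩ := hJ m hm
        obtain ⟨t, ht, h6, h7⟩ : ∃ t ≤ r, m ≤ a0 + t * l ∧ a0 + t * l + l ≤ m + 2 * l := by
          refine ⟨(m - a0 + l - 1) / l, ?_, ?_, ?_⟩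
          · rw [Nat.div_le_iff_le_mul_add_pred hl0]
            have : m - a0 ≤ r * l := by omega
            rw [mul_comm] at this
            omega
          · have h8 : m - a0 ≤ (m - a0 + l - 1) / l * l := by
              have := Nat.div_add_mod (m - a0 + l - 1) l
              have := Nat.mod_lt (m - a0 + l - 1) hl0
              have e9 : l * ((m - a0 + l - 1) / l) = (m - a0 + l - 1) / l * l := mul_comm _ _
              omega
            omega
          · have h8 : (m - a0 + l - 1) / l * l ≤ m - a0 + l - 1 := Nat.div_mul_le_self _ _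
            omega
        have h8 : m + 2 * l ≤ d := by nlinarith
        have h9 := far_NI hx hz (by omega : c ≤ m) h8 (by linarith : (0 : ℝ) ≤ R) (h5 ()) hl h6 h7
        have h10 := single_le_sum (f := fun t => NI (a0 + t * l) (a0 + t * l + l) x z) hn0 (mem_range.2 (Nat.lt_succ_of_le ht))
        rw [h9] at h10
        exact h10
      · rw [if_neg hz]
        linarith
    · rw [if_neg ho]
      have : (0 : ℝ) ≤ if Ns μ s ε c d z then (0 : ℝ) else 1 := by split_ifs <;> norm_num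
      linarith
  have k2 := cE_mono w q k1 x
  rw [cE_add, cE_sum, Pi.add_apply, Finset.sum_apply] at k2
  have k3 : ∑ t ∈ range (r + 1), cE w q (NI (a0 + t * l) (a0 + t * l + l) x) x < (r + 1) * ρ₁ := by
    have k4 : ∑ t ∈ range (r + 1), cE w q (NI (a0 + t * l) (a0 + t * l + l) x) x < ∑ t ∈ range (r + 1), ρ₁ :=
      sum_lt_sum_of_nonempty ⟨0, mem_range.2 (Nat.succ_pos r)⟩ fun t ht => h3 t (Nat.lt_succ_iff.1 (mem_range.1 ht))
    rw [sum_const, card_range, nsmul_eq_mul] at k4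
    push_cast at k4
    exact k4
  linarith

end

end Pool.W7d29a1.C0.Bd73
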