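import Mathlib
import Pool.Agent.W_7d29a1_C0.Cum82

/-!
CURV0 (MP_7d29a1_pr), VT = variance telescoping (board 70204), part 1: conditional means and variances of a finite Gibbs
measure with respect to an arbitrary map `p : X → Y` (`p x` = everything outside a block), the law of total variance for the
Euler-Maclaurin block functional, and the recursion in Minkowski form. (helper31)

`cE w p f` and `cV w p f` are the conditional mean and variance; `Mp p h` says that `h` is a function of `p`; `Crs q p` says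
that `q` is coarser than `p` (the block of `q` contains the block of `p`); `Zb w p S a g` is the block functional
`∑ j ∈ S, (cE (g j) - (a j / 3) cV (g j))`; `Gam` is the loss of the merging of two blocks.
-/

set_option autoImplicit false
set_option linter.unusedSectionVars false
set_option linter.unusedVariables false

namespace Pool.W7d29a1.C0.VT31

open Finset

noncomputable section

variable {X : Type*} [Fintype X] [Nonempty X] {Y Y' Y'' : Type*} [DecidableEq Y] [DecidableEq Y'] [DecidableEq Y'']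

/-- `h` is a function of `p`. -/
def Mp (p : X → Y) (h : X → ℝ) : Prop := ∀ x x', p x = p x' → h x = h x'

/-- `q` is coarser than `p`. -/
def Crs (q : X → Y') (p : X → Y) : Prop := ∀ x x', p x = p x' → q x = q x'

/-- The weight of the fibre of `x`. -/
def fz (w : X → ℝ) (p : X → Y) (x : X) : ℝ := ∑ x', if p x' = p x then Real.exp (w x') else 0

/-- The conditional mean given `p`. -/
def cE (w : X → ℝ) (p : X → Y) (f : X → ℝ) : X → ℝ :=
  fun x => (∑ x', if p x' = p x then Real.exp (w x') * f x' else 0) / fz w p x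

/-- The conditional covariance given `p`. -/
def cC (w : X → ℝ) (p : X → Y) (f g : X → ℝ) : X → ℝ := cE w p (f * g) - cE w p f * cE w p g

/-- The conditional variance given `p`. -/
def cV (w : X → ℝ) (p : X → Y) (f : X → ℝ) : X → ℝ := cC w p f f

/-- The covariance. -/
def gc (w f g : X → ℝ) : ℝ := gm w (f * g) - gm w f * gm w g

/-- The variance. -/
def gv (w f : X → ℝ) : ℝ := gc w f f

theorem fz_pos (w : X → ℝ) (p : X → Y) (x : X) : 0 < fz w p x := by
  unfold fz
  refine Finset.sum_pos' (fun x' _ => ?_) ⟨x, mem_univ x, ?_⟩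
  · split_ifs
    · exact (Real.exp_pos _).le
    · exact le_rfl
  · rw [if_pos rfl]
    exact Real.exp_pos _

theorem fz_meas (w : X → ℝ) (p : X → Y) : Mp p (fz w p) := by
  intro x x' h
  unfold fz
  rw [h]

theorem cE_meas (w : X → ℝ) (p : X → Y) (f : X → ℝ) : Mp p (cE w p f) := by
  intro x x' h
  unfold cE
  rw [h, fz_meas w p x x' h]

theorem Mp.mul {p : X → Y} {f g : X → ℝ} (hf : Mp p f) (hg : Mp p g) : Mp p (f * g) := fun x x' h => by
  rw [Pi.mul_apply, Pi.mul_apply, hf x x' h, hg x x' h]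

theorem Mp.add {p : X → Y} {f g : X → ℝ} (hf : Mp p f) (hg : Mp p g) : Mp p (f + g) := fun x x' h => by
  rw [Pi.add_apply, Pi.add_apply, hf x x' h, hg x x' h]

theorem Mp.sub {p : X → Y} {f g : X → ℝ} (hf : Mp p f) (hg : Mp p g) : Mp p (f - g) := fun x x' h => by
  rw [Pi.sub_apply, Pi.sub_apply, hf x x' h, hg x x' h]

theorem Mp.smul {p : X → Y} {f : X → ℝ} (hf : Mp p f) (c : ℝ) : Mp p (c • f) := fun x x' h => by
  rw [Pi.smul_apply, Pi.smul_apply, hf x x' h]

theorem Mp.sum {ι : Type*} {p : X → Y} {f : ι → X → ℝ} {S : Finset ι} (hf : ∀ j ∈ S, Mp p (f j)) :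
    Mp p (∑ j ∈ S, f j) := fun x x' h => by
  rw [Finset.sum_apply, Finset.sum_apply]
  exact Finset.sum_congr rfl fun j hj => hf j hj x x' h

theorem Mp.of_crs {q : X → Y'} {p : X → Y} (hc : Crs q p) {f : X → ℝ} (hf : Mp q f) : Mp p f :=
  fun x x' h => hf x x' (hc x x' h)

theorem cC_meas (w : X → ℝ) (p : X → Y) (f g : X → ℝ) : Mp p (cC w p f g) :=
  (cE_meas w p _).sub ((cE_meas w p _).mul (cE_meas w p _))

theorem cV_meas (w : X → ℝ) (p : X → Y) (f : X → ℝ) : Mp p (cV w p f) := cC_meas w p f f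

/-! ### Linearity, positivity, pull-out -/

theorem cE_add (w : X → ℝ) (p : X → Y) (f g : X → ℝ) : cE w p (f + g) = cE w p f + cE w p g := by
  funext x
  rw [Pi.add_apply]
  unfold cE
  rw [← add_div, ← Finset.sum_add_distrib]
  congr 1
  refine Finset.sum_congr rfl fun x' _ => ?_
  split_ifs
  · rw [Pi.add_apply]
    ring
  · ring

theorem cE_pull (w : X → ℝ) {p : X → Y} {h : X → ℝ} (hh : Mp p h) (f : X → ℝ) : cE w p (h * f) = h * cE w p f := by
  funext x
  rw [Pi.mul_apply]
  unfold cE
  rw [← mul_div_assoc, Finset.mul_sum]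
  congr 1
  refine Finset.sum_congr rfl fun x' _ => ?_
  split_ifs with e
  · rw [Pi.mul_apply, hh x' x e]
    ring
  · ring

theorem cE_smul (w : X → ℝ) (p : X → Y) (c : ℝ) (f : X → ℝ) : cE w p (c • f) = c • cE w p f := by
  have h : Mp p (fun _ : X => c) := fun _ _ _ => rfl
  have e := cE_pull w h f
  have e1 : (fun _ : X => c) * f = c • f := by funext x; rfl
  have e2 : (fun _ : X => c) * cE w p f = c • cE w p f := by funext x; rfl
  rw [e1, e2] at e
  exact e

theorem cE_one (w : X → ℝ) (p : X → Y) : cE w p (fun _ => 1) = fun _ => 1 := by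
  funext x
  unfold cE
  simp only [mul_one]
  exact div_self (fz_pos w p x).ne'

theorem cE_of_meas (w : X → ℝ) {p : X → Y} {h : X → ℝ} (hh : Mp p h) : cE w p h = h := by
  have e := cE_pull w hh (fun _ => 1)
  have e1 : h * (fun _ : X => (1 : ℝ)) = h := by funext x; exact mul_one _
  rw [cE_one, e1] at e
  exact e

theorem cE_neg (w : X → ℝ) (p : X → Y) (f : X → ℝ) : cE w p (-f) = -cE w p f := by
  have h := cE_smul w p (-1) f
  rwa [neg_one_smul, neg_one_smul] at h

theorem cE_sub (w : X → ℝ) (p : X → Y) (f g : X → ℝ) : cE w p (f - g) = cE w p f - cE w p g := by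
  rw [sub_eq_add_neg, cE_add, cE_neg, sub_eq_add_neg]

theorem cE_zero (w : X → ℝ) (p : X → Y) : cE w p 0 = 0 := by
  have h := cE_smul w p 0 0
  rwa [zero_smul, zero_smul] at h

theorem cE_sum {ι : Type*} (w : X → ℝ) (p : X → Y) (S : Finset ι) (f : ι → X → ℝ) :
    cE w p (∑ j ∈ S, f j) = ∑ j ∈ S, cE w p (f j) := by
  classical
  induction S using Finset.induction_on with
  | empty => rw [Finset.sum_empty, Finset.sum_empty, cE_zero]
  | insert j S hj ih => rw [Finset.sum_insert hj, Finset.sum_insert hj, cE_add, ih]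

theorem cE_nonneg (w : X → ℝ) (p : X → Y) {f : X → ℝ} (h : ∀ x, 0 ≤ f x) (x : X) : 0 ≤ cE w p f x := by
  unfold cE
  refine div_nonneg (Finset.sum_nonneg fun x' _ => ?_) (fz_pos w p x).le
  split_ifs
  · exact mul_nonneg (Real.exp_pos _).le (h x')
  · exact le_rfl

theorem cE_mono (w : X → ℝ) (p : X → Y) {f g : X → ℝ} (h : ∀ x, f x ≤ g x) (x : X) : cE w p f x ≤ cE w p g x := by
  have e := cE_nonneg w p (f := g - f) (fun x => by rw [Pi.sub_apply]; linarith [h x]) x
  rw [cE_sub, Pi.sub_apply] at e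
  linarith

/-! ### The averaging property and the tower -/

theorem sum_cE (w : X → ℝ) {p : X → Y} {h : X → ℝ} (hh : Mp p h) (f : X → ℝ) :
    ∑ x, h x * (Real.exp (w x) * cE w p f x) = ∑ x, h x * (Real.exp (w x) * f x) := by
  have e1 : ∀ x, h x * (Real.exp (w x) * cE w p f x) =
      ∑ x', if p x' = p x then (h x' * (Real.exp (w x') * f x')) * (Real.exp (w x) / fz w p x') else 0 := by
    intro x
    unfold cE
    rw [← mul_div_assoc, ← mul_div_assoc, Finset.mul_sum, Finset.mul_sum, Finset.sum_div]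
    refine Finset.sum_congr rfl fun x' _ => ?_
    split_ifs with e
    · rw [hh x' x e, fz_meas w p x' x e]
      ring
    · ring
  rw [Finset.sum_congr rfl fun x _ => e1 x, Finset.sum_comm]
  refine Finset.sum_congr rfl fun x' _ => ?_
  have e2 : ∀ x, (if p x' = p x then (h x' * (Real.exp (w x') * f x')) * (Real.exp (w x) / fz w p x') else 0) =
      (h x' * (Real.exp (w x') * f x')) / fz w p x' * (if p x = p x' then Real.exp (w x) else 0) := by
    intro x
    by_cases e : p x' = p x
    · rw [if_pos e, if_pos e.symm]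
      ring
    · rw [if_neg e, if_neg fun e' => e e'.symm]
      ring
  rw [Finset.sum_congr rfl fun x _ => e2 x, ← Finset.mul_sum]
  exact div_mul_cancel₀ _ (fz_pos w p x').ne'

theorem gm_mul_cE (w : X → ℝ) {p : X → Y} {h : X → ℝ} (hh : Mp p h) (f : X → ℝ) :
    gm w (h * cE w p f) = gm w (h * f) := by
  unfold gm
  congr 1
  have e := sum_cE w hh f
  calc ∑ x, Real.exp (w x) * (h * cE w p f) x = ∑ x, h x * (Real.exp (w x) * cE w p f x) :=
        Finset.sum_congr rfl fun x _ => by rw [Pi.mul_apply]; ring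
    _ = ∑ x, h x * (Real.exp (w x) * f x) := e
    _ = ∑ x, Real.exp (w x) * (h * f) x := Finset.sum_congr rfl fun x _ => by rw [Pi.mul_apply]; ring

theorem gm_cE (w : X → ℝ) (p : X → Y) (f : X → ℝ) : gm w (cE w p f) = gm w f := by
  have h : Mp p (fun _ : X => (1 : ℝ)) := fun _ _ _ => rfl
  have e := gm_mul_cE w h f
  have e1 : ∀ k : X → ℝ, (fun _ : X => (1 : ℝ)) * k = k := fun k => by funext x; exact one_mul _
  rwa [e1, e1] at e

/-- **The tower property.** -/
theorem cE_tower (w : X → ℝ) {q : X → Y'} {p : X → Y} (hc : Crs q p) (f : X → ℝ) :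
    cE w q (cE w p f) = cE w q f := by
  funext x
  have hh : Mp p (fun x' => if q x' = q x then (1 : ℝ) else 0) := by
    intro x' x'' h
    show (if q x' = q x then (1 : ℝ) else 0) = if q x'' = q x then (1 : ℝ) else 0
    rw [hc x' x'' h]
  have e := sum_cE w hh f
  have e1 : ∀ k : X → ℝ, (∑ x', if q x' = q x then Real.exp (w x') * k x' else 0) =
      ∑ x', (if q x' = q x then (1 : ℝ) else 0) * (Real.exp (w x') * k x') := fun k =>
    Finset.sum_congr rfl fun x' _ => by split_ifs <;> ring
  show (∑ x', if q x' = q x then Real.exp (w x') * cE w p f x' else 0) / fz w q x =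
    (∑ x', if q x' = q x then Real.exp (w x') * f x' else 0) / fz w q x
  rw [e1, e1, e]

/-! ### Covariances -/

theorem cC_symm (w : X → ℝ) (p : X → Y) (f g : X → ℝ) : cC w p f g = cC w p g f := by
  unfold cC
  rw [mul_comm f g, mul_comm (cE w p f)]

theorem cC_add_left (w : X → ℝ) (p : X → Y) (f f' g : X → ℝ) : cC w p (f + f') g = cC w p f g + cC w p f' g := by
  unfold cC
  rw [add_mul, cE_add, cE_add]
  ring

theorem cC_smul_left (w : X → ℝ) (p : X → Y) (c : ℝ) (f g : X → ℝ) : cC w p (c • f) g = c • cC w p f g := by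
  unfold cC
  rw [smul_mul_assoc, cE_smul, cE_smul, smul_mul_assoc, smul_sub]

theorem cC_add_right (w : X → ℝ) (p : X → Y) (f g g' : X → ℝ) : cC w p f (g + g') = cC w p f g + cC w p f g' := by
  rw [cC_symm, cC_add_left, cC_symm w p g, cC_symm w p g']

theorem cC_smul_right (w : X → ℝ) (p : X → Y) (c : ℝ) (f g : X → ℝ) : cC w p f (c • g) = c • cC w p f g := by
  rw [cC_symm, cC_smul_left, cC_symm]

theorem cC_meas_left (w : X → ℝ) {p : X → Y} {h : X → ℝ} (hh : Mp p h) (g : X → ℝ) : cC w p h g = 0 := by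
  unfold cC
  rw [cE_pull w hh, cE_of_meas w hh, sub_self]

/-- The centred form of the conditional covariance. -/
theorem cC_centred (w : X → ℝ) (p : X → Y) (f g : X → ℝ) :
    cC w p f g = cE w p ((f - cE w p f) * (g - cE w p g)) := by
  have e : (f - cE w p f) * (g - cE w p g) = f * g - cE w p f * g - cE w p g * f + cE w p f * cE w p g := by ring
  rw [e, cE_add, cE_sub, cE_sub, cE_pull w (cE_meas w p f), cE_pull w (cE_meas w p g), cE_pull w (cE_meas w p f),
    cE_of_meas w (cE_meas w p g)]
  unfold cC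
  ring

theorem cV_nonneg (w : X → ℝ) (p : X → Y) (f : X → ℝ) (x : X) : 0 ≤ cV w p f x := by
  unfold cV
  rw [cC_centred]
  exact cE_nonneg w p (fun x => mul_self_nonneg _) x

/-- **The law of total covariance.** -/
theorem total_cov (w : X → ℝ) {q : X → Y'} {p : X → Y} (hc : Crs q p) (f g : X → ℝ) :
    cC w q f g = cE w q (cC w p f g) + cC w q (cE w p f) (cE w p g) := by
  unfold cC
  rw [cE_sub, cE_tower w hc, cE_tower w hc, cE_tower w hc]
  ring

theorem total_var (w : X → ℝ) {q : X → Y'} {p : X → Y} (hc : Crs q p) (f : X → ℝ) :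
    cV w q f = cE w q (cV w p f) + cV w q (cE w p f) := total_cov w hc f f

theorem cV_add (w : X → ℝ) (p : X → Y) (f g : X → ℝ) :
    cV w p (f + g) = cV w p f + (2 : ℝ) • cC w p f g + cV w p g := by
  unfold cV
  rw [cC_add_left, cC_add_right, cC_add_right, cC_symm w p g f, two_smul]
  ring

/-! ### The unconditioned measure is the case of the constant map -/

theorem gm_eq_cE (w f : X → ℝ) (x : X) : cE w (fun _ : X => ()) f x = gm w f := by
  unfold cE fz gm gz
  simp

theorem gc_eq_cC (w f g : X → ℝ) (x : X) : cC w (fun _ : X => ()) f g x = gc w f g := by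
  unfold cC gc
  rw [Pi.sub_apply, Pi.mul_apply, gm_eq_cE, gm_eq_cE, gm_eq_cE]

theorem gv_eq_cV (w f : X → ℝ) (x : X) : cV w (fun _ : X => ()) f x = gv w f := gc_eq_cC w f f x

theorem gc_symm (w f g : X → ℝ) : gc w f g = gc w g f := by
  obtain ⟨x⟩ := (inferInstance : Nonempty X)
  rw [← gc_eq_cC w f g x, ← gc_eq_cC w g f x, cC_symm]

theorem gc_add_left (w f f' g : X → ℝ) : gc w (f + f') g = gc w f g + gc w f' g := by
  obtain ⟨x⟩ := (inferInstance : Nonempty X)
  rw [← gc_eq_cC w _ g x, ← gc_eq_cC w _ g x, ← gc_eq_cC w _ g x, cC_add_left, Pi.add_apply]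

theorem gc_smul_left (w : X → ℝ) (c : ℝ) (f g : X → ℝ) : gc w (c • f) g = c * gc w f g := by
  obtain ⟨x⟩ := (inferInstance : Nonempty X)
  rw [← gc_eq_cC w _ g x, ← gc_eq_cC w _ g x, cC_smul_left, Pi.smul_apply, smul_eq_mul]

theorem gc_add_right (w f g g' : X → ℝ) : gc w f (g + g') = gc w f g + gc w f g' := by
  rw [gc_symm, gc_add_left, gc_symm w g, gc_symm w g']

theorem gc_smul_right (w : X → ℝ) (c : ℝ) (f g : X → ℝ) : gc w f (c • g) = c * gc w f g := by
  rw [gc_symm, gc_smul_left, gc_symm]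

theorem gc_sum_left {ι : Type*} (w : X → ℝ) (S : Finset ι) (f : ι → X → ℝ) (g : X → ℝ) :
    gc w (∑ j ∈ S, f j) g = ∑ j ∈ S, gc w (f j) g := by
  classical
  induction S using Finset.induction_on with
  | empty =>
    rw [Finset.sum_empty, Finset.sum_empty]
    have h := gc_smul_left w 0 0 g
    rwa [zero_smul, zero_mul] at h
  | insert j S hj ih => rw [Finset.sum_insert hj, Finset.sum_insert hj, gc_add_left, ih]

theorem gc_sum_right {ι : Type*} (w : X → ℝ) (S : Finset ι) (f : X → ℝ) (g : ι → X → ℝ) :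
    gc w f (∑ j ∈ S, g j) = ∑ j ∈ S, gc w f (g j) := by
  rw [gc_symm, gc_sum_left]
  exact Finset.sum_congr rfl fun j _ => gc_symm w _ _

theorem gv_nonneg (w f : X → ℝ) : 0 ≤ gv w f := by
  obtain ⟨x⟩ := (inferInstance : Nonempty X)
  rw [← gv_eq_cV w f x]
  exact cV_nonneg w _ f x

theorem gv_add (w f g : X → ℝ) : gv w (f + g) = gv w f + 2 * gc w f g + gv w g := by
  unfold gv
  rw [gc_add_left, gc_add_right, gc_add_right, gc_symm w g f]
  ring

theorem gv_smul (w : X → ℝ) (c : ℝ) (f : X → ℝ) : gv w (c • f) = c ^ 2 * gv w f := by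
  unfold gv
  rw [gc_smul_left, gc_smul_right]
  ring

theorem gv_neg (w f : X → ℝ) : gv w (-f) = gv w f := by
  have h := gv_smul w (-1) f
  rw [neg_one_smul] at h
  rw [h]
  ring

theorem gc_neg_right (w f g : X → ℝ) : gc w f (-g) = -gc w f g := by
  have h := gc_smul_right w (-1) f g
  rwa [neg_one_smul, neg_one_mul] at h

theorem gv_sub (w f g : X → ℝ) : gv w (f - g) = gv w f - 2 * gc w f g + gv w g := by
  rw [sub_eq_add_neg, gv_add, gv_neg, gc_neg_right]
  ring

theorem gc_sq_le (w f g : X → ℝ) : gc w f g ^ 2 ≤ gv w f * gv w g := by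
  have h : ∀ t : ℝ, 0 ≤ gv w f * (t * t) + 2 * gc w f g * t + gv w g := by
    intro t
    have e := gv_nonneg w (t • f + g)
    rw [gv_add, gv_smul, gc_smul_left] at e
    nlinarith [e]
  have d := discrim_le_zero h
  unfold discrim at d
  nlinarith [d]

theorem abs_gc_le (w f g : X → ℝ) : |gc w f g| ≤ Real.sqrt (gv w f) * Real.sqrt (gv w g) := by
  rw [← Real.sqrt_mul (gv_nonneg w f)]
  exact Real.abs_le_sqrt (gc_sq_le w f g)

/-- A covariance with a function of `p` sees the conditional mean only. -/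
theorem gc_cE_left (w : X → ℝ) {p : X → Y} (g : X → ℝ) {h : X → ℝ} (hh : Mp p h) : gc w (cE w p g) h = gc w g h := by
  unfold gc
  rw [gm_cE, mul_comm (cE w p g), gm_mul_cE w hh, mul_comm h]

/-- The variance of the whole measure is the mean conditional variance plus the variance of the conditional mean. -/
theorem gv_total (w : X → ℝ) (p : X → Y) (f : X → ℝ) : gv w f = gm w (cV w p f) + gv w (cE w p f) := by
  obtain ⟨x⟩ := (inferInstance : Nonempty X)
  have h := congrFun (total_var w (q := fun _ : X => ()) (p := p) (fun _ _ _ => rfl) f) x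
  rwa [Pi.add_apply, gv_eq_cV, gv_eq_cV, gm_eq_cE] at h

/-- **Contraction**: a conditional mean has a smaller variance. -/
theorem gv_cE_le (w : X → ℝ) (p : X → Y) (f : X → ℝ) : gv w (cE w p f) ≤ gv w f := by
  have h := gv_total w p f
  have h1 := gm_nonneg w (cV_nonneg w p f)
  linarith

end

end Pool.W7d29a1.C0.VT31
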