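import Mathlib
import Pool.Agent.W_7d29a1_C0.VT31
import Pool.Agent.W_7d29a1_C0.Trap82

/-!
CURV0 (MP_7d29a1_pr), VT = variance telescoping (board 70204), part 2: the Euler-Maclaurin block functional `Zb`, the exact
merging of two blocks, the change of base, the step of the recursion in Minkowski form (with an outer expectation), the closed
form of the recursion over the levels, and the variance of the loss `Gam` in terms of two corner derivatives. (helper31)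
-/

set_option autoImplicit false
set_option linter.unusedSectionVars false
set_option linter.unusedVariables false

namespace Pool.W7d29a1.C0.VT31

open Finset MeasureTheory

noncomputable section

variable {X : Type*} [Fintype X] [Nonempty X] {Y Y' Y'' : Type*} [DecidableEq Y] [DecidableEq Y'] [DecidableEq Y'']
variable {ι : Type*} [DecidableEq ι]

/-! ### The block functional and the merging of two blocks -/

/-- The Euler-Maclaurin functional of one row: `F - (a/3) V`, `F`, `V` the conditional mean and variance. -/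
def Zr (w : X → ℝ) (p : X → Y) (a : ℝ) (g : X → ℝ) : X → ℝ := cE w p g - (a / 3) • cV w p g

/-- The block functional: the sum over the rows `S` of the block. -/
def Zb (w : X → ℝ) (p : X → Y) (S : Finset ι) (a : ι → ℝ) (g : ι → X → ℝ) : X → ℝ := ∑ j ∈ S, Zr w p (a j) (g j)

/-- The loss of the merging into the block of `q`, rows `S` of the sub-block of `p`. -/
def Gam (w : X → ℝ) (q : X → Y') (p : X → Y) (S : Finset ι) (a : ι → ℝ) (g : ι → X → ℝ) : X → ℝ :=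
  ∑ j ∈ S, (a j / 3) • cV w q (cE w p (g j))

theorem Zr_meas (w : X → ℝ) (p : X → Y) (a : ℝ) (g : X → ℝ) : Mp p (Zr w p a g) :=
  (cE_meas w p g).sub ((cV_meas w p g).smul _)

theorem Zb_meas (w : X → ℝ) (p : X → Y) (S : Finset ι) (a : ι → ℝ) (g : ι → X → ℝ) : Mp p (Zb w p S a g) :=
  Mp.sum fun j _ => Zr_meas w p (a j) (g j)

theorem Gam_meas (w : X → ℝ) (q : X → Y') (p : X → Y) (S : Finset ι) (a : ι → ℝ) (g : ι → X → ℝ) :
    Mp q (Gam w q p S a g) := Mp.sum fun j _ => (cV_meas w q _).smul _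

/-- One row: the exact passage from the sub-block to the block. -/
theorem Zr_up (w : X → ℝ) {q : X → Y'} {p : X → Y} (hc : Crs q p) (a : ℝ) (g : X → ℝ) :
    Zr w q a g = cE w q (Zr w p a g) - (a / 3) • cV w q (cE w p g) := by
  unfold Zr
  rw [cE_sub, cE_smul, cE_tower w hc, total_var w hc g, smul_add]
  abel

theorem Zb_up (w : X → ℝ) {q : X → Y'} {p : X → Y} (hc : Crs q p) (S : Finset ι) (a : ι → ℝ) (g : ι → X → ℝ) :
    Zb w q S a g = cE w q (Zb w p S a g) - Gam w q p S a g := by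
  unfold Zb Gam
  rw [cE_sum, ← Finset.sum_sub_distrib]
  exact Finset.sum_congr rfl fun j _ => Zr_up w hc (a j) (g j)

/-- **The merging of two blocks, exact**: `Z_I = G[Z_I1 + Z_I2 | outside of I] - Gam_I`. -/
theorem Zb_merge (w : X → ℝ) {q : X → Y''} {p : X → Y} {p' : X → Y'} (h : Crs q p) (h' : Crs q p') {S S' : Finset ι}
    (hd : Disjoint S S') (a : ι → ℝ) (g : ι → X → ℝ) :
    Zb w q (S ∪ S') a g = cE w q (Zb w p S a g + Zb w p' S' a g) - (Gam w q p S a g + Gam w q p' S' a g) := by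
  have e : Zb w q (S ∪ S') a g = Zb w q S a g + Zb w q S' a g := by
    unfold Zb
    exact Finset.sum_union hd
  rw [e, Zb_up w h, Zb_up w h', cE_add]
  abel

/-- Rows may be left out. -/
theorem Zb_sdiff (w : X → ℝ) (q : X → Y') {S S' : Finset ι} (hs : S ⊆ S') (a : ι → ℝ) (g : ι → X → ℝ) :
    Zb w q S a g = Zb w q S' a g - Zb w q (S' \ S) a g := by
  have e : Zb w q (S' \ S) a g + Zb w q S a g = Zb w q S' a g := by
    unfold Zb
    exact Finset.sum_sdiff hs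
  rw [← e]
  abel

/-! ### The change of base -/

/-- **Change of base at a fixed block, exact** (one row): `g` the small base, `g'` the large base (any function), `p` the large
base window, `η = cE g - g'`. -/
theorem Zr_base (w : X → ℝ) {q : X → Y'} {p : X → Y} (hc : Crs q p) (a : ℝ) (g g' : X → ℝ) :
    Zr w q a g = Zr w q a g' + cE w q (Zr w p a g - g') -
      (a / 3) • ((2 : ℝ) • cC w q g' (cE w p g - g') + cV w q (cE w p g - g')) := by
  have e : cV w q (cE w p g) = cV w q g' + (2 : ℝ) • cC w q g' (cE w p g - g') + cV w q (cE w p g - g') := by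
    rw [← cV_add, add_sub_cancel]
  rw [Zr_up w hc, e, cE_sub]
  unfold Zr
  simp only [smul_add]
  abel

/-! ### The outer expectation -/

section outer

variable {Ω : Type*} [MeasurableSpace Ω] {μ : Measure Ω}

theorem int_add3 {u c v : Ω → ℝ} (hu : Integrable u μ) (hc : Integrable c μ) (hv : Integrable v μ) :
    ∫ ω, u ω + c ω + v ω ∂μ = ∫ ω, u ω ∂μ + ∫ ω, c ω ∂μ + ∫ ω, v ω ∂μ := by
  have h : Integrable (fun ω => u ω + c ω) μ := hu.add hc
  rw [integral_add h hv, integral_add hu hc]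

theorem int_sqrt_mul_le {u v : Ω → ℝ} (hu : Integrable u μ) (hv : Integrable v μ) (u0 : ∀ ω, 0 ≤ u ω)
    (v0 : ∀ ω, 0 ≤ v ω) : ∫ ω, Real.sqrt (u ω) * Real.sqrt (v ω) ∂μ ≤
      Real.sqrt (∫ ω, u ω ∂μ) * Real.sqrt (∫ ω, v ω ∂μ) := by
  have hi : Integrable (fun ω => Real.sqrt (u ω) * Real.sqrt (v ω)) μ := by
    refine Integrable.mono' ((hu.add hv).const_mul (1 / 2)) ?_ (Filter.Eventually.of_forall fun ω => ?_)
    · exact (Real.continuous_sqrt.comp_aestronglyMeasurable hu.aestronglyMeasurable).mul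
        (Real.continuous_sqrt.comp_aestronglyMeasurable hv.aestronglyMeasurable)
    · rw [Real.norm_eq_abs, abs_of_nonneg (mul_nonneg (Real.sqrt_nonneg _) (Real.sqrt_nonneg _)), Pi.add_apply]
      nlinarith [sq_nonneg (Real.sqrt (u ω) - Real.sqrt (v ω)), Real.mul_self_sqrt (u0 ω), Real.mul_self_sqrt (v0 ω)]
  have key : ∀ t : ℝ, 0 ≤ (∫ ω, u ω ∂μ) * (t * t) + (-2 * ∫ ω, Real.sqrt (u ω) * Real.sqrt (v ω) ∂μ) * t +
      ∫ ω, v ω ∂μ := by
    intro t
    have e : ∫ ω, (t * Real.sqrt (u ω) - Real.sqrt (v ω)) ^ 2 ∂μ = (∫ ω, u ω ∂μ) * (t * t) +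
        (-2 * ∫ ω, Real.sqrt (u ω) * Real.sqrt (v ω) ∂μ) * t + ∫ ω, v ω ∂μ := by
      have e1 : (fun ω => (t * Real.sqrt (u ω) - Real.sqrt (v ω)) ^ 2) =
          fun ω => ((t * t) * u ω + (-2 * t) * (Real.sqrt (u ω) * Real.sqrt (v ω))) + v ω := by
        funext ω
        linear_combination (t * t) * Real.mul_self_sqrt (u0 ω) + Real.mul_self_sqrt (v0 ω)
      rw [e1, int_add3 (hu.const_mul _) (hi.const_mul _) hv, integral_const_mul, integral_const_mul]
      ring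
    rw [← e]
    exact integral_nonneg fun ω => sq_nonneg _
  have d := discrim_le_zero key
  unfold discrim at d
  rw [← Real.sqrt_mul (integral_nonneg u0)]
  refine Real.le_sqrt_of_sq_le ?_
  nlinarith [d]

/-- Pathwise: `gv (A - B) ≤ gv A + 2 √gv A √gv B + gv B`. -/
theorem gv_sub_le (w A B : X → ℝ) : gv w (A - B) ≤ gv w A + 2 * (Real.sqrt (gv w A) * Real.sqrt (gv w B)) + gv w B := by
  rw [gv_sub]
  have h := abs_le.1 (abs_gc_le w A B)
  linarith [h.1]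

/-- **Minkowski** for `E Var_G`. -/
theorem mink {W A B : Ω → X → ℝ} (hA : Integrable (fun ω => gv (W ω) (A ω)) μ)
    (hB : Integrable (fun ω => gv (W ω) (B ω)) μ) :
    Real.sqrt (∫ ω, gv (W ω) (A ω - B ω) ∂μ) ≤
      Real.sqrt (∫ ω, gv (W ω) (A ω) ∂μ) + Real.sqrt (∫ ω, gv (W ω) (B ω) ∂μ) := by
  have A0 : ∀ ω, 0 ≤ gv (W ω) (A ω) := fun ω => gv_nonneg _ _
  have B0 : ∀ ω, 0 ≤ gv (W ω) (B ω) := fun ω => gv_nonneg _ _
  have hi : Integrable (fun ω => Real.sqrt (gv (W ω) (A ω)) * Real.sqrt (gv (W ω) (B ω))) μ := by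
    refine Integrable.mono' ((hA.add hB).const_mul (1 / 2)) ?_ (Filter.Eventually.of_forall fun ω => ?_)
    · exact (Real.continuous_sqrt.comp_aestronglyMeasurable hA.aestronglyMeasurable).mul
        (Real.continuous_sqrt.comp_aestronglyMeasurable hB.aestronglyMeasurable)
    · rw [Real.norm_eq_abs, abs_of_nonneg (mul_nonneg (Real.sqrt_nonneg _) (Real.sqrt_nonneg _)), Pi.add_apply]
      nlinarith [sq_nonneg (Real.sqrt (gv (W ω) (A ω)) - Real.sqrt (gv (W ω) (B ω))), Real.mul_self_sqrt (A0 ω),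
        Real.mul_self_sqrt (B0 ω)]
  have h1 : ∫ ω, gv (W ω) (A ω - B ω) ∂μ ≤ ∫ ω, gv (W ω) (A ω) + 2 * (Real.sqrt (gv (W ω) (A ω)) *
      Real.sqrt (gv (W ω) (B ω))) + gv (W ω) (B ω) ∂μ :=
    integral_mono_of_nonneg (Filter.Eventually.of_forall fun ω => gv_nonneg _ _) ((hA.add (hi.const_mul 2)).add hB)
      (Filter.Eventually.of_forall fun ω => gv_sub_le _ _ _)
  rw [int_add3 hA (hi.const_mul 2) hB, integral_const_mul] at h1
  have h2 := int_sqrt_mul_le hA hB A0 B0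
  have a0 : 0 ≤ ∫ ω, gv (W ω) (A ω) ∂μ := integral_nonneg A0
  have b0 : 0 ≤ ∫ ω, gv (W ω) (B ω) ∂μ := integral_nonneg B0
  refine Real.sqrt_le_iff.2 ⟨add_nonneg (Real.sqrt_nonneg _) (Real.sqrt_nonneg _), ?_⟩
  have e : (Real.sqrt (∫ ω, gv (W ω) (A ω) ∂μ) + Real.sqrt (∫ ω, gv (W ω) (B ω) ∂μ)) ^ 2 =
      ∫ ω, gv (W ω) (A ω) ∂μ + 2 * (Real.sqrt (∫ ω, gv (W ω) (A ω) ∂μ) * Real.sqrt (∫ ω, gv (W ω) (B ω) ∂μ)) +
        ∫ ω, gv (W ω) (B ω) ∂μ := by
    linear_combination Real.mul_self_sqrt a0 + Real.mul_self_sqrt b0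
  rw [e]
  linarith

/-- **The step of the recursion**: if `Z = G[Z1 + Z2 | q] - Γ` pathwise, then
`√x_I ≤ √(x_1 + x_2 + 2 E Cov(Z1, Z2)) + √(E Var Γ)`. -/
theorem vt_step {W Z Z1 Z2 Γ : Ω → X → ℝ} {q : X → Y} (hZ : ∀ ω, Z ω = cE (W ω) q (Z1 ω + Z2 ω) - Γ ω)
    (h1 : Integrable (fun ω => gv (W ω) (Z1 ω)) μ) (h2 : Integrable (fun ω => gv (W ω) (Z2 ω)) μ)
    (h12 : Integrable (fun ω => gc (W ω) (Z1 ω) (Z2 ω)) μ)
    (hq : AEStronglyMeasurable (fun ω => gv (W ω) (cE (W ω) q (Z1 ω + Z2 ω))) μ)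
    (hΓ : Integrable (fun ω => gv (W ω) (Γ ω)) μ) :
    Real.sqrt (∫ ω, gv (W ω) (Z ω) ∂μ) ≤
      Real.sqrt (∫ ω, gv (W ω) (Z1 ω) ∂μ + ∫ ω, gv (W ω) (Z2 ω) ∂μ + 2 * ∫ ω, gc (W ω) (Z1 ω) (Z2 ω) ∂μ) +
        Real.sqrt (∫ ω, gv (W ω) (Γ ω) ∂μ) := by
  have hs : Integrable (fun ω => gv (W ω) (Z1 ω + Z2 ω)) μ := by
    have e : (fun ω => gv (W ω) (Z1 ω + Z2 ω)) =
        fun ω => gv (W ω) (Z1 ω) + 2 * gc (W ω) (Z1 ω) (Z2 ω) + gv (W ω) (Z2 ω) := by
      funext ω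
      exact gv_add _ _ _
    rw [e]
    exact (h1.add (h12.const_mul 2)).add h2
  have hc : Integrable (fun ω => gv (W ω) (cE (W ω) q (Z1 ω + Z2 ω))) μ := by
    refine Integrable.mono' hs hq (Filter.Eventually.of_forall fun ω => ?_)
    rw [Real.norm_eq_abs, abs_of_nonneg (gv_nonneg _ _)]
    exact gv_cE_le _ _ _
  have hZ' : (fun ω => gv (W ω) (Z ω)) = fun ω => gv (W ω) (cE (W ω) q (Z1 ω + Z2 ω) - Γ ω) := by
    funext ω
    rw [hZ ω]
  rw [hZ']
  refine (mink hc hΓ).trans (add_le_add (Real.sqrt_le_sqrt ?_) le_rfl)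
  have e : ∫ ω, gv (W ω) (Z1 ω + Z2 ω) ∂μ = ∫ ω, gv (W ω) (Z1 ω) ∂μ + ∫ ω, gv (W ω) (Z2 ω) ∂μ +
      2 * ∫ ω, gc (W ω) (Z1 ω) (Z2 ω) ∂μ := by
    have e1 : (fun ω => gv (W ω) (Z1 ω + Z2 ω)) =
        fun ω => gv (W ω) (Z1 ω) + 2 * gc (W ω) (Z1 ω) (Z2 ω) + gv (W ω) (Z2 ω) := by
      funext ω
      exact gv_add _ _ _
    rw [e1, int_add3 h1 (h12.const_mul 2) h2, integral_const_mul]
    ring
  rw [← e]
  exact integral_mono_of_nonneg (Filter.Eventually.of_forall fun ω => gv_nonneg _ _) hs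
    (Filter.Eventually.of_forall fun ω => gv_cE_le _ _ _)

end outer

/-! ### The recursion over the levels -/

/-- `x k` = the (largest) `E Var_G (Z_J)` over the blocks of level `k`; the normalised value is `x k / 2 ^ k`. A cross term
`c k ≤ 2 ^ (k + 1) (δ k √(x k / 2 ^ k) + δ' k)` and a loss `γ k ≤ 2 ^ (k + 1) (γ' k) ^ 2` are summed over the levels. -/
theorem rec_levels {x c γ δ δ' γ' : ℕ → ℝ} {L : ℕ} (hx : ∀ k, 0 ≤ x k) (hδ : ∀ k, 0 ≤ δ k) (hδ' : ∀ k, 0 ≤ δ' k)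
    (hγ' : ∀ k, 0 ≤ γ' k)
    (hstep : ∀ k < L, Real.sqrt (x (k + 1)) ≤ Real.sqrt (2 * x k + c k) + Real.sqrt (γ k))
    (hc : ∀ k < L, c k ≤ 2 ^ (k + 1) * (δ k * Real.sqrt (x k / 2 ^ k) + δ' k))
    (hγ : ∀ k < L, γ k ≤ 2 ^ (k + 1) * (γ' k) ^ 2) :
    Real.sqrt (x L / 2 ^ L) ≤ Real.sqrt (x 0) + ∑ k ∈ range L, (δ k / 2 + Real.sqrt (δ' k) + γ' k) := by
  induction L with
  | zero => simp
  | succ L ih =>
    have ih' := ih (fun k hk => hstep k (by omega)) (fun k hk => hc k (by omega)) (fun k hk => hγ k (by omega))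
    rw [Finset.sum_range_succ]
    have hs := hstep L (by omega)
    have hcL := hc L (by omega)
    have hγL := hγ L (by omega)
    have p0 : (0 : ℝ) < 2 ^ (L + 1) := by positivity
    have pL : (0 : ℝ) < 2 ^ L := by positivity
    set v := x L / 2 ^ L with hv
    have v0 : 0 ≤ v := div_nonneg (hx L) pL.le
    have hxL : 2 * x L = 2 ^ (L + 1) * v := by
      rw [hv, pow_succ]
      field_simp
    have h1 : Real.sqrt (2 * x L + c L) ≤ Real.sqrt (2 ^ (L + 1)) * (Real.sqrt v + δ L / 2 + Real.sqrt (δ' L)) := by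
      have hb : 0 ≤ Real.sqrt v + δ L / 2 + Real.sqrt (δ' L) := by
        have := hδ L
        positivity
      have : Real.sqrt (2 ^ (L + 1)) * (Real.sqrt v + δ L / 2 + Real.sqrt (δ' L)) =
          Real.sqrt (2 ^ (L + 1) * (Real.sqrt v + δ L / 2 + Real.sqrt (δ' L)) ^ 2) := by
        rw [Real.sqrt_mul p0.le, Real.sqrt_sq hb]
      rw [this]
      refine Real.sqrt_le_sqrt ?_
      have s1 := Real.mul_self_sqrt v0
      have s2 := Real.mul_self_sqrt (hδ' L)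
      have : v + δ L * Real.sqrt v + δ' L ≤ (Real.sqrt v + δ L / 2 + Real.sqrt (δ' L)) ^ 2 := by
        nlinarith [mul_nonneg (Real.sqrt_nonneg v) (Real.sqrt_nonneg (δ' L)), mul_nonneg (hδ L) (Real.sqrt_nonneg (δ' L)),
          sq_nonneg (δ L)]
      nlinarith
    have h2 : Real.sqrt (γ L) ≤ Real.sqrt (2 ^ (L + 1)) * γ' L := by
      have : Real.sqrt (2 ^ (L + 1)) * γ' L = Real.sqrt (2 ^ (L + 1) * (γ' L) ^ 2) := by
        rw [Real.sqrt_mul p0.le, Real.sqrt_sq (hγ' L)]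
      rw [this]
      exact Real.sqrt_le_sqrt hγL
    have h3 : Real.sqrt (x (L + 1) / 2 ^ (L + 1)) ≤ Real.sqrt v + δ L / 2 + Real.sqrt (δ' L) + γ' L := by
      rw [Real.sqrt_div (hx _), div_le_iff₀ (Real.sqrt_pos.2 p0)]
      calc Real.sqrt (x (L + 1)) ≤ Real.sqrt (2 * x L + c L) + Real.sqrt (γ L) := hs
        _ ≤ Real.sqrt (2 ^ (L + 1)) * (Real.sqrt v + δ L / 2 + Real.sqrt (δ' L)) + Real.sqrt (2 ^ (L + 1)) * γ' L :=
          add_le_add h1 h2
        _ = (Real.sqrt v + δ L / 2 + Real.sqrt (δ' L) + γ' L) * Real.sqrt (2 ^ (L + 1)) := by ring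
    linarith

/-! ### The variance of the loss -/

/-- `Var_G` of a sum with corner factors: the double sum. -/
theorem gv_corner_sum (w : X → ℝ) (S : Finset ι) (a : ι → ℝ) (V : ι → X → ℝ) :
    gv w (∑ j ∈ S, (a j / 3) • V j) = (1 / 9) * ∑ j ∈ S, ∑ k ∈ S, a j * a k * gc w (V j) (V k) := by
  unfold gv
  rw [gc_sum_left, Finset.mul_sum]
  refine Finset.sum_congr rfl fun j _ => ?_
  rw [gc_sum_right, Finset.mul_sum]
  refine Finset.sum_congr rfl fun k _ => ?_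
  rw [gc_smul_left, gc_smul_right]
  ring

theorem gv_Gam (w : X → ℝ) (q : X → Y') (p : X → Y) (S : Finset ι) (a : ι → ℝ) (g : ι → X → ℝ) :
    gv w (Gam w q p S a g) = (1 / 9) * ∑ j ∈ S, ∑ k ∈ S, a j * a k * gc w (cV w q (cE w p (g j))) (cV w q (cE w p (g k))) :=
  gv_corner_sum w S a _

/-- A factor `a` of a corner variable is a difference: `E a φ(a) = D φ`. -/
theorem Ac_mul_self (φ : ℝ → ℝ) : Ac (fun a => a * φ a) = Dc φ := by
  unfold Ac Dc
  ring

/-- Two factors: `E a b φ(a, b) = D D φ`. -/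
theorem Ac_Ac_mul (φ : ℝ → ℝ → ℝ) : Ac (fun a => Ac fun b => a * b * φ a b) = Dc (fun a => Dc fun b => φ a b) := by
  unfold Ac Dc
  ring

/-- The diagonal bound: `Var_G Γ ≤ (1/9) |S| Σ Var_G V_j` for corners `±1`. -/
theorem gv_corner_sum_le (w : X → ℝ) (S : Finset ι) {a : ι → ℝ} (ha : ∀ j ∈ S, |a j| ≤ 1) (V : ι → X → ℝ) :
    gv w (∑ j ∈ S, (a j / 3) • V j) ≤ (1 / 9) * ∑ j ∈ S, ∑ k ∈ S, Real.sqrt (gv w (V j)) * Real.sqrt (gv w (V k)) := by
  rw [gv_corner_sum]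
  refine mul_le_mul_of_nonneg_left (Finset.sum_le_sum fun j hj => Finset.sum_le_sum fun k hk => ?_) (by norm_num)
  refine (le_abs_self _).trans ?_
  rw [abs_mul, abs_mul]
  refine (mul_le_mul (mul_le_one₀ (ha j hj) (abs_nonneg _) (ha k hk)) (abs_gc_le w _ _) (abs_nonneg _) zero_le_one).trans ?_
  rw [one_mul]

end

end Pool.W7d29a1.C0.VT31
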