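import Mathlib
import Pool.Agent.W_7d29a1_C0.VT31B

/-!
CURV0 (MP_7d29a1_pr), VT = variance telescoping, part 3: SUPER LEVELS. All blocks `K_i` of a super block `I` are merged at
once: the exact merging of a family, the step in Minkowski form, the recursion of the right hand sums inside a super level,
the recursion over the super levels, and the coherent bound of a sum with corner factors. (helper31)
-/

set_option autoImplicit false
set_option linter.unusedSectionVars false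
set_option linter.unusedVariables false

namespace Pool.W7d29a1.C0.VT31

open Finset MeasureTheory

noncomputable section

variable {X : Type*} [Fintype X] [Nonempty X] {Y Y' : Type*} [DecidableEq Y] [DecidableEq Y']
variable {ι κ : Type*} [DecidableEq ι] [DecidableEq κ]

/-- **The merging of a family of blocks, exact**: `Z_I = G[∑ Z_K | outside of I] - ∑ Gam_K`. -/
theorem Zb_merge_fam (w : X → ℝ) {q : X → Y'} (K : Finset κ) (p : κ → X → Y) (S : κ → Finset ι)
    (hc : ∀ i ∈ K, Crs q (p i)) (hd : (K : Set κ).PairwiseDisjoint S) (a : ι → ℝ) (g : ι → X → ℝ) :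
    Zb w q (K.biUnion S) a g = cE w q (∑ i ∈ K, Zb w (p i) (S i) a g) - ∑ i ∈ K, Gam w q (p i) (S i) a g := by
  have e : Zb w q (K.biUnion S) a g = ∑ i ∈ K, Zb w q (S i) a g := by
    unfold Zb
    exact Finset.sum_biUnion hd
  rw [e, cE_sum, ← Finset.sum_sub_distrib]
  exact Finset.sum_congr rfl fun i hi => Zb_up w (hc i hi) (S i) a g

/-- The variance of the loss of the whole family, as a double sum over the rows. -/
theorem gv_Gam_fam (w : X → ℝ) (q : X → Y') (K : Finset κ) (p : κ → X → Y) (S : κ → Finset ι) (a : ι → ℝ)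
    (g : ι → X → ℝ) : gv w (∑ i ∈ K, Gam w q (p i) (S i) a g) = ∑ i ∈ K, ∑ i' ∈ K, (1 / 9) * ∑ j ∈ S i, ∑ k ∈ S i',
      a j * a k * gc w (cV w q (cE w (p i) (g j))) (cV w q (cE w (p i') (g k))) := by
  unfold gv
  rw [gc_sum_left]
  refine Finset.sum_congr rfl fun i _ => ?_
  rw [gc_sum_right]
  refine Finset.sum_congr rfl fun i' _ => ?_
  unfold Gam
  rw [gc_sum_left, Finset.mul_sum]
  refine Finset.sum_congr rfl fun j _ => ?_
  rw [gc_sum_right, Finset.mul_sum]
  refine Finset.sum_congr rfl fun k _ => ?_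
  rw [gc_smul_left, gc_smul_right]
  ring

section outer

variable {Ω : Type*} [MeasurableSpace Ω] {μ : Measure Ω}

/-- **The step**: if `Z = G[A | q] - Γ` pathwise then `√E Var Z ≤ √E Var A + √E Var Γ`. -/
theorem step_proj {W Z A Γ : Ω → X → ℝ} {q : X → Y} (hZ : ∀ ω, Z ω = cE (W ω) q (A ω) - Γ ω)
    (hA : Integrable (fun ω => gv (W ω) (A ω)) μ) (hq : AEStronglyMeasurable (fun ω => gv (W ω) (cE (W ω) q (A ω))) μ)
    (hΓ : Integrable (fun ω => gv (W ω) (Γ ω)) μ) :
    Real.sqrt (∫ ω, gv (W ω) (Z ω) ∂μ) ≤ Real.sqrt (∫ ω, gv (W ω) (A ω) ∂μ) + Real.sqrt (∫ ω, gv (W ω) (Γ ω) ∂μ) := by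
  have hc : Integrable (fun ω => gv (W ω) (cE (W ω) q (A ω))) μ := by
    refine Integrable.mono' hA hq (Filter.Eventually.of_forall fun ω => ?_)
    rw [Real.norm_eq_abs, abs_of_nonneg (gv_nonneg _ _)]
    exact gv_cE_le _ _ _
  have hZ' : (fun ω => gv (W ω) (Z ω)) = fun ω => gv (W ω) (cE (W ω) q (A ω) - Γ ω) := by
    funext ω
    rw [hZ ω]
  rw [hZ']
  exact (mink hc hΓ).trans (add_le_add (Real.sqrt_le_sqrt (integral_mono_of_nonneg
    (Filter.Eventually.of_forall fun ω => gv_nonneg _ _) hA (Filter.Eventually.of_forall fun ω => gv_cE_le _ _ _))) le_rfl)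

/-- The same step when `Z` is a small change of a projected functional (change of base): `Z = Z' + R`. -/
theorem step_add {W Z Z' R : Ω → X → ℝ} (hZ : ∀ ω, Z ω = Z' ω + R ω)
    (h1 : Integrable (fun ω => gv (W ω) (Z' ω)) μ) (h2 : Integrable (fun ω => gv (W ω) (R ω)) μ) :
    Real.sqrt (∫ ω, gv (W ω) (Z ω) ∂μ) ≤ Real.sqrt (∫ ω, gv (W ω) (Z' ω) ∂μ) + Real.sqrt (∫ ω, gv (W ω) (R ω) ∂μ) := by
  have h2' : Integrable (fun ω => gv (W ω) (-R ω)) μ := by
    have e : (fun ω => gv (W ω) (-R ω)) = fun ω => gv (W ω) (R ω) := by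
      funext ω
      exact gv_neg _ _
    rw [e]
    exact h2
  have h := mink h1 h2'
  have e1 : (fun ω => gv (W ω) (Z' ω - -R ω)) = fun ω => gv (W ω) (Z ω) := by
    funext ω
    rw [hZ ω, sub_neg_eq_add]
  have e2 : (fun ω => gv (W ω) (-R ω)) = fun ω => gv (W ω) (R ω) := by
    funext ω
    exact gv_neg _ _
  rw [e1, e2] at h
  exact h

theorem int_gv_add {W A B : Ω → X → ℝ} (h1 : Integrable (fun ω => gv (W ω) (A ω)) μ)
    (h2 : Integrable (fun ω => gv (W ω) (B ω)) μ) (h12 : Integrable (fun ω => gc (W ω) (A ω) (B ω)) μ) :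
    ∫ ω, gv (W ω) (A ω + B ω) ∂μ = ∫ ω, gv (W ω) (A ω) ∂μ + ∫ ω, gv (W ω) (B ω) ∂μ +
      2 * ∫ ω, gc (W ω) (A ω) (B ω) ∂μ := by
  have e1 : (fun ω => gv (W ω) (A ω + B ω)) = fun ω => gv (W ω) (A ω) + 2 * gc (W ω) (A ω) (B ω) + gv (W ω) (B ω) := by
    funext ω
    exact gv_add _ _ _
  rw [e1, int_add3 h1 (h12.const_mul 2) h2, integral_const_mul]
  ring

theorem integrable_gv_add {W A B : Ω → X → ℝ} (h1 : Integrable (fun ω => gv (W ω) (A ω)) μ)
    (h2 : Integrable (fun ω => gv (W ω) (B ω)) μ) (h12 : Integrable (fun ω => gc (W ω) (A ω) (B ω)) μ) :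
    Integrable (fun ω => gv (W ω) (A ω + B ω)) μ := by
  have e1 : (fun ω => gv (W ω) (A ω + B ω)) = fun ω => gv (W ω) (A ω) + 2 * gc (W ω) (A ω) (B ω) + gv (W ω) (B ω) := by
    funext ω
    exact gv_add _ _ _
  rw [e1]
  exact (h1.add (h12.const_mul 2)).add h2

/-- A measurable covariance of two functions with integrable variances is integrable. -/
theorem integrable_gc {W A B : Ω → X → ℝ} (h1 : Integrable (fun ω => gv (W ω) (A ω)) μ)
    (h2 : Integrable (fun ω => gv (W ω) (B ω)) μ) (h12 : AEStronglyMeasurable (fun ω => gc (W ω) (A ω) (B ω)) μ) :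
    Integrable (fun ω => gc (W ω) (A ω) (B ω)) μ := by
  refine Integrable.mono' ((h1.add h2).const_mul (1 / 2)) h12 (Filter.Eventually.of_forall fun ω => ?_)
  rw [Real.norm_eq_abs, Pi.add_apply]
  have h := abs_gc_le (W ω) (A ω) (B ω)
  nlinarith [sq_nonneg (Real.sqrt (gv (W ω) (A ω)) - Real.sqrt (gv (W ω) (B ω))), Real.mul_self_sqrt (gv_nonneg (W ω) (A ω)),
    Real.mul_self_sqrt (gv_nonneg (W ω) (B ω))]

end outer

/-! ### The recursions -/

/-- The square root recursion: `z (k+1) ≤ z k + X + δ √(z k)`. -/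
theorem sqrt_rec {z : ℕ → ℝ} {m : ℕ} {B δ : ℝ} (hB : 0 ≤ B) (hδ : 0 ≤ δ) (hz : z 0 = 0) (h0 : ∀ k, 0 ≤ z k)
    (hs : ∀ k < m, z (k + 1) ≤ z k + B + δ * Real.sqrt (z k)) :
    Real.sqrt (z m) ≤ Real.sqrt (m * B) + m * δ / 2 := by
  induction m with
  | zero => rw [hz]; simp
  | succ m ih =>
    have ih' := ih fun k hk => hs k (by omega)
    have h := hs m (by omega)
    have mB : 0 ≤ (m : ℝ) * B := mul_nonneg (Nat.cast_nonneg _) hB
    have e : ((m + 1 : ℕ) : ℝ) * B = m * B + B := by push_cast; ring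
    have e' : ((m + 1 : ℕ) : ℝ) * δ / 2 = m * δ / 2 + δ / 2 := by push_cast; ring
    rw [e, e']
    have hC : 0 ≤ (m : ℝ) * δ / 2 := by positivity
    set C := (m : ℝ) * δ / 2 with hCd
    set s := Real.sqrt (z m)
    set A := Real.sqrt (m * B) with hA
    set A' := Real.sqrt (m * B + B) with hA'
    have s0 : 0 ≤ s := Real.sqrt_nonneg _
    have s2 : s * s = z m := Real.mul_self_sqrt (h0 m)
    have A2 : A * A = m * B := Real.mul_self_sqrt mB
    have A'2 : A' * A' = m * B + B := Real.mul_self_sqrt (by linarith)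
    have A0 : 0 ≤ A := Real.sqrt_nonneg _
    have A'0 : 0 ≤ A' := Real.sqrt_nonneg _
    have AA' : A ≤ A' := Real.sqrt_le_sqrt (by linarith)
    refine Real.sqrt_le_iff.2 ⟨by positivity, ?_⟩
    have h1 : z m ≤ (A + C) * (A + C) := by
      rw [← s2]
      exact mul_self_le_mul_self s0 ih'
    have h2 : δ * s ≤ δ * (A + C) := mul_le_mul_of_nonneg_left ih' hδ
    nlinarith [mul_nonneg (sub_nonneg.2 AA') hC, mul_nonneg (sub_nonneg.2 AA') hδ, mul_nonneg hδ hδ]

/-- A self consistent quadratic bound: `y ≤ A √y + D` gives `√y ≤ A + √D`. -/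
theorem sqrt_self {y A D : ℝ} (hy : 0 ≤ y) (hA : 0 ≤ A) (hD : 0 ≤ D) (h : y ≤ A * Real.sqrt y + D) :
    Real.sqrt y ≤ A + Real.sqrt D := by
  have s0 := Real.sqrt_nonneg y
  have s2 := Real.mul_self_sqrt hy
  have d0 := Real.sqrt_nonneg D
  have d2 := Real.mul_self_sqrt hD
  by_contra hc
  push Not at hc
  nlinarith [mul_pos (sub_pos.2 hc) (lt_of_le_of_lt (add_nonneg hA d0) hc), mul_nonneg hA d0]

/-- **The recursion over the super levels.** `x l` = the largest `E Var_G (Z_J)` of level `l`, `R l` = the length of the blocks,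
`m l` = the number of blocks of level `l` in a block of level `l + 1`. -/
theorem rec_super {x R δ' e : ℕ → ℝ} {m : ℕ → ℕ} {L : ℕ} (hx : ∀ l, 0 ≤ x l) (hR : ∀ l, 0 < R l) (hδ' : ∀ l, 0 ≤ δ' l)
    (he : ∀ l, 0 ≤ e l) (hm : ∀ l < L, (m l : ℝ) * R l ≤ R (l + 1))
    (hstep : ∀ l < L, Real.sqrt (x (l + 1)) ≤ Real.sqrt (m l * (x l + δ' l)) + e l) :
    Real.sqrt (x L / R L) ≤ Real.sqrt (x 0 / R 0) +
      ∑ l ∈ range L, (Real.sqrt (δ' l / R l) + e l / Real.sqrt (R (l + 1))) := by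
  induction L with
  | zero => simp
  | succ L ih =>
    have ih' := ih (fun l hl => hm l (by omega)) (fun l hl => hstep l (by omega))
    rw [Finset.sum_range_succ]
    have hs := hstep L (by omega)
    have hmL := hm L (by omega)
    have r0 := hR L
    have r1 := hR (L + 1)
    have q1 : 0 < Real.sqrt (R (L + 1)) := Real.sqrt_pos.2 r1
    have a0 : 0 ≤ x L / R L := div_nonneg (hx L) r0.le
    have b0 : 0 ≤ δ' L / R L := div_nonneg (hδ' L) r0.le
    have h1 : Real.sqrt (m L * (x L + δ' L)) ≤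
        Real.sqrt (R (L + 1)) * (Real.sqrt (x L / R L) + Real.sqrt (δ' L / R L)) := by
      have hb : 0 ≤ Real.sqrt (x L / R L) + Real.sqrt (δ' L / R L) := by positivity
      have e1 : Real.sqrt (R (L + 1)) * (Real.sqrt (x L / R L) + Real.sqrt (δ' L / R L)) =
          Real.sqrt (R (L + 1) * (Real.sqrt (x L / R L) + Real.sqrt (δ' L / R L)) ^ 2) := by
        rw [Real.sqrt_mul r1.le, Real.sqrt_sq hb]
      rw [e1]
      refine Real.sqrt_le_sqrt ?_
      have s1 := Real.mul_self_sqrt a0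
      have s2 := Real.mul_self_sqrt b0
      have h2 : x L / R L + δ' L / R L ≤ (Real.sqrt (x L / R L) + Real.sqrt (δ' L / R L)) ^ 2 := by
        nlinarith [mul_nonneg (Real.sqrt_nonneg (x L / R L)) (Real.sqrt_nonneg (δ' L / R L))]
      have h3 : (m L : ℝ) * (x L + δ' L) = (m L * R L) * (x L / R L + δ' L / R L) := by
        field_simp
      rw [h3]
      calc (m L * R L) * (x L / R L + δ' L / R L) ≤ R (L + 1) * (x L / R L + δ' L / R L) :=
            mul_le_mul_of_nonneg_right hmL (add_nonneg a0 b0)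
        _ ≤ _ := mul_le_mul_of_nonneg_left h2 r1.le
    have h2 : Real.sqrt (x (L + 1) / R (L + 1)) ≤
        Real.sqrt (x L / R L) + Real.sqrt (δ' L / R L) + e L / Real.sqrt (R (L + 1)) := by
      rw [Real.sqrt_div (hx _), div_le_iff₀ q1]
      calc Real.sqrt (x (L + 1)) ≤ Real.sqrt (m L * (x L + δ' L)) + e L := hs
        _ ≤ Real.sqrt (R (L + 1)) * (Real.sqrt (x L / R L) + Real.sqrt (δ' L / R L)) + e L := by linarith
        _ = (Real.sqrt (x L / R L) + Real.sqrt (δ' L / R L) + e L / Real.sqrt (R (L + 1))) * Real.sqrt (R (L + 1)) := by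
          rw [add_mul (Real.sqrt (x L / R L) + Real.sqrt (δ' L / R L)), div_mul_cancel₀ _ q1.ne']
          ring
    linarith

/-- **One super level, pathwise bookkeeping done**: the blocks `Z 0, …, Z (m-1)` (numbered from the RIGHT, so that
`f k = Z 0 + … + Z (k-1)` is what lies to the right of the block `k`), each with `E Var ≤ x`, cross terms
`2 E Cov (Z k, f k) ≤ δ √(E Var f k) + δ'`. -/
theorem super_level {Ω : Type*} [MeasurableSpace Ω] {μ : Measure Ω} {W : Ω → X → ℝ} {Z : ℕ → Ω → X → ℝ} {m : ℕ}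
    {x δ δ' : ℝ} (hx : 0 ≤ x) (hδ : 0 ≤ δ) (hδ' : 0 ≤ δ') (hi : ∀ k < m, Integrable (fun ω => gv (W ω) (Z k ω)) μ)
    (hc : ∀ k < m, AEStronglyMeasurable (fun ω => gc (W ω) (Z k ω) (∑ l ∈ range k, Z l ω)) μ)
    (h1 : ∀ k < m, ∫ ω, gv (W ω) (Z k ω) ∂μ ≤ x)
    (h2 : ∀ k < m, 2 * ∫ ω, gc (W ω) (Z k ω) (∑ l ∈ range k, Z l ω) ∂μ ≤
      δ * Real.sqrt (∫ ω, gv (W ω) (∑ l ∈ range k, Z l ω) ∂μ) + δ') :
    Real.sqrt (∫ ω, gv (W ω) (∑ l ∈ range m, Z l ω) ∂μ) ≤ Real.sqrt (m * (x + δ')) + m * δ / 2 := by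
  have hI : ∀ k ≤ m, Integrable (fun ω => gv (W ω) (∑ l ∈ range k, Z l ω)) μ := by
    intro k
    induction k with
    | zero =>
      intro _
      have e : (fun ω => gv (W ω) (∑ l ∈ range 0, Z l ω)) = fun _ => (0 : ℝ) := by
        funext ω
        rw [Finset.sum_range_zero]
        have h := gv_smul (W ω) 0 0
        rw [zero_smul] at h
        rw [h]
        ring
      rw [e]
      exact integrable_zero _ _ _
    | succ k ih =>
      intro hk
      have ih' := ih (by omega)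
      have e : (fun ω => gv (W ω) (∑ l ∈ range (k + 1), Z l ω)) =
          fun ω => gv (W ω) (Z k ω + ∑ l ∈ range k, Z l ω) := by
        funext ω
        rw [Finset.sum_range_succ, add_comm]
      rw [e]
      exact integrable_gv_add (hi k (by omega)) ih' (integrable_gc (hi k (by omega)) ih' (hc k (by omega)))
  refine sqrt_rec (z := fun k => ∫ ω, gv (W ω) (∑ l ∈ range k, Z l ω) ∂μ) (m := m) (B := x + δ') (add_nonneg hx hδ') hδ
    ?_ (fun k => integral_nonneg fun ω => gv_nonneg _ _) ?_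
  · have e : (fun ω => gv (W ω) (∑ l ∈ range 0, Z l ω)) = fun _ => (0 : ℝ) := by
      funext ω
      rw [Finset.sum_range_zero]
      have h := gv_smul (W ω) 0 0
      rw [zero_smul] at h
      rw [h]
      ring
    show ∫ ω, gv (W ω) (∑ l ∈ range 0, Z l ω) ∂μ = 0
    rw [e, integral_zero]
  · intro k hk
    show ∫ ω, gv (W ω) (∑ l ∈ range (k + 1), Z l ω) ∂μ ≤ ∫ ω, gv (W ω) (∑ l ∈ range k, Z l ω) ∂μ + (x + δ') +
      δ * Real.sqrt (∫ ω, gv (W ω) (∑ l ∈ range k, Z l ω) ∂μ)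
    have e : (fun ω => gv (W ω) (∑ l ∈ range (k + 1), Z l ω)) = fun ω => gv (W ω) (Z k ω + ∑ l ∈ range k, Z l ω) := by
      funext ω
      rw [Finset.sum_range_succ, add_comm]
    rw [e, int_gv_add (hi k hk) (hI k hk.le) (integrable_gc (hi k hk) (hI k hk.le) (hc k hk))]
    have a1 := h1 k hk
    have a2 := h2 k hk
    linarith

end

end Pool.W7d29a1.C0.VT31
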