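import Pool.Agent.W_7d29a1_C0.Mod92B
import Pool.Agent.W_7d29a1_C0.VT31C

/-!
MP_7d29a1_pr, [CURV0]: THE MODEL, third file (helper92). The functional of the frame NG (helper72): the Euler-Maclaurin functional `Zm`
only inside the blocks of length `σ`, and the conditional mean of the sum outside of them: `Zs c d = G[∑ Zm (blocks of length σ) | outside
of [c, d)]`. Merging of blocks (exact, no loss), the recursion over a super level, the change of `σ` (exact) and of the base window.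
Everything is averaged over the environment, the signs and the pinned ends (`avy`, `xsa`).
-/

set_option autoImplicit false

namespace Pool.Agent.W_7d29a1_C0.Mod92

open Finset MeasureTheory Pool.Agent.W_7d29a1_F Pool.Agent.W_7d29a1_X Pool.Agent.W_7d29a1_H
open Pool.W7d29a1.C0 (gz gm lse gz_pos gz_ne gm_mono gm_const gm_nonneg)
open Pool.W7d29a1.C0.VT31

noncomputable section

variable {μ : Measure ℝ} {s : ℝ} {N : ℕ} {Q : Finset (Finset ℕ)}

/-- The average over the pinned ends. -/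
def avy (ys : Finset ℕ) (Φ : ℕ → ℝ) : ℝ := (ys.card : ℝ)⁻¹ * ∑ y ∈ ys, Φ y

theorem avy_nonneg {ys : Finset ℕ} {Φ : ℕ → ℝ} (h : ∀ y ∈ ys, 0 ≤ Φ y) : 0 ≤ avy ys Φ :=
  mul_nonneg (by positivity) (sum_nonneg h)

theorem avy_mono {ys : Finset ℕ} {Φ Ψ : ℕ → ℝ} (h : ∀ y ∈ ys, Φ y ≤ Ψ y) : avy ys Φ ≤ avy ys Ψ :=
  mul_le_mul_of_nonneg_left (sum_le_sum h) (by positivity)

theorem avy_add (ys : Finset ℕ) (Φ Ψ : ℕ → ℝ) : avy ys (fun y => Φ y + Ψ y) = avy ys Φ + avy ys Ψ := by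
  unfold avy
  rw [sum_add_distrib]
  ring

theorem avy_mul (ys : Finset ℕ) (c : ℝ) (Φ : ℕ → ℝ) : avy ys (fun y => c * Φ y) = c * avy ys Φ := by
  unfold avy
  rw [← mul_sum]
  ring

theorem avy_const {ys : Finset ℕ} (h : ys.Nonempty) (c : ℝ) : avy ys (fun _ => c) = c := by
  unfold avy
  have hc : (ys.card : ℝ) ≠ 0 := by
    have := card_pos.2 h
    positivity
  rw [sum_const, nsmul_eq_mul, ← mul_assoc, inv_mul_cancel₀ hc, one_mul]

/-- The sum of the block functionals of the blocks of length `σ` in `[c, d)`. -/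
def Zt (μ : Measure ℝ) (s : ℝ) (N : ℕ) (Q : Finset (Finset ℕ)) (δ B : ℝ) (b σ : ℕ) (R : Finset ℕ) (c d : ℕ)
    (ω : Env × Finset ℕ) : Px Q → ℝ :=
  ∑ k ∈ Ico (c / σ) (d / σ), Zm μ s N Q δ B b R (k * σ) ((k + 1) * σ) ω

/-- **The functional of a block in the frame NG**: the conditional mean of `Zt`. -/
def Zs (μ : Measure ℝ) (s : ℝ) (N : ℕ) (Q : Finset (Finset ℕ)) (δ B : ℝ) (b σ : ℕ) (R : Finset ℕ) (c d : ℕ)
    (ω : Env × Finset ℕ) : Px Q → ℝ :=
  cE (wm μ s N Q ω) (pJ c d) (Zt μ s N Q δ B b σ R c d ω)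

/-- Its variance, averaged over the environment and the signs. -/
def xs (μ : Measure ℝ) (s : ℝ) (N : ℕ) (Q : Finset (Finset ℕ)) (δ B : ℝ) (b σ : ℕ) (R : Finset ℕ) (c d : ℕ) : ℝ :=
  ∫ ω, gv (wm μ s N Q ω) (Zs μ s N Q δ B b σ R c d ω) ∂(Pm μ N)

/-- The same, averaged over the pinned ends too. -/
def xsa (μ : Measure ℝ) (s : ℝ) (N : ℕ) (ys : Finset ℕ) (δ B : ℝ) (b σ : ℕ) (R : Finset ℕ) (c d : ℕ) : ℝ :=
  avy ys fun y => xs μ s N (Pn N y) δ B b σ R c d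

variable [Nonempty (Px Q)]

theorem mp_Zs (δ B : ℝ) (b σ : ℕ) (R : Finset ℕ) (c d : ℕ) (ω : Env × Finset ℕ) : Mp (pJ c d) (Zs μ s N Q δ B b σ R c d ω) :=
  cE_meas _ _ _

omit [Nonempty (Px Q)] in
theorem meas_Zt (δ B : ℝ) (b σ : ℕ) (R : Finset ℕ) (c d : ℕ) (S : Px Q) :
    Measurable fun ω => Zt μ s N Q δ B b σ R c d ω S := by
  unfold Zt
  simp only [Finset.sum_apply]
  exact Finset.measurable_fun_sum _ fun k _ => meas_Zm δ B b R _ _ S

omit [Nonempty (Px Q)] in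
theorem meas_Zs (δ B : ℝ) (b σ : ℕ) (R : Finset ℕ) (c d : ℕ) (S : Px Q) :
    Measurable fun ω => Zs μ s N Q δ B b σ R c d ω S :=
  meas_cE meas_wm (fun S => meas_Zt δ B b σ R c d S) _ S

/-- The crude bound. -/
theorem abs_Zt {δ B : ℝ} (hB : 0 ≤ B) (b σ : ℕ) (R : Finset ℕ) (c d : ℕ) (ω : Env × Finset ℕ) (S : Px Q) :
    |Zt μ s N Q δ B b σ R c d ω S| ≤ (d / σ - c / σ : ℕ) * (R.card * (B / 2 + (B / 2) ^ 2)) := by
  unfold Zt
  rw [Finset.sum_apply]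
  refine (abs_sum_le_sum_abs _ _).trans ?_
  have h0 : (d / σ - c / σ : ℕ) = (Ico (c / σ) (d / σ)).card := (Nat.card_Ico _ _).symm
  rw [h0, ← nsmul_eq_mul]
  refine sum_le_card_nsmul _ _ _ fun k _ => ?_
  refine (abs_Zm hB b R _ _ ω S).trans (mul_le_mul_of_nonneg_right ?_ (by positivity))
  exact_mod_cast card_le_card (inter_subset_left : Rw R (k * σ) ((k + 1) * σ) ⊆ R)

theorem abs_Zs {δ B : ℝ} (hB : 0 ≤ B) (b σ : ℕ) (R : Finset ℕ) (c d : ℕ) (ω : Env × Finset ℕ) (S : Px Q) :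
    |Zs μ s N Q δ B b σ R c d ω S| ≤ (d / σ - c / σ : ℕ) * (R.card * (B / 2 + (B / 2) ^ 2)) :=
  abs_cE_le _ _ (abs_Zt hB b σ R c d ω) S

omit [Nonempty (Px Q)] in
theorem Zt_add (δ B : ℝ) (b σ : ℕ) (R : Finset ℕ) {c e d : ℕ} (hce : c ≤ e) (hed : e ≤ d) (ω : Env × Finset ℕ) :
    Zt μ s N Q δ B b σ R c d ω = Zt μ s N Q δ B b σ R c e ω + Zt μ s N Q δ B b σ R e d ω :=
  (sum_Ico_consecutive _ (Nat.div_le_div_right hce) (Nat.div_le_div_right hed)).symm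

omit [Nonempty (Px Q)] in
theorem Zt_sum (δ B : ℝ) (b σ : ℕ) (R : Finset ℕ) {e : ℕ → ℕ} (he : Monotone e) (M : ℕ) (ω : Env × Finset ℕ) :
    ∑ i ∈ range M, Zt μ s N Q δ B b σ R (e i) (e (i + 1)) ω = Zt μ s N Q δ B b σ R (e 0) (e M) ω := by
  induction M with
  | zero =>
    rw [sum_range_zero]
    unfold Zt
    rw [Ico_self, sum_empty]
  | succ M ih =>
    rw [sum_range_succ, ih, ← Zt_add δ B b σ R (he (Nat.zero_le M)) (he (Nat.le_succ M))]

/-- **The merging of blocks, exact, without a loss** (the blocks `[e i, e (i + 1))`, `i < M`). -/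
theorem Zs_merge (δ B : ℝ) (b σ : ℕ) (R : Finset ℕ) {e : ℕ → ℕ} (he : Monotone e) (M : ℕ) (ω : Env × Finset ℕ) :
    Zs μ s N Q δ B b σ R (e 0) (e M) ω =
      cE (wm μ s N Q ω) (pJ (e 0) (e M)) (∑ i ∈ range M, Zs μ s N Q δ B b σ R (e i) (e (i + 1)) ω) := by
  rw [cE_sum]
  unfold Zs
  rw [← Zt_sum δ B b σ R he M ω, cE_sum]
  refine sum_congr rfl fun i hi => ?_
  rw [mem_range] at hi
  rw [cE_tower _ (crs_pJ (he (Nat.zero_le i)) (he hi))]

/-- The functional of a union of blocks has at most the variance of the sum. -/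
theorem xs_le_sum [IsProbabilityMeasure μ] {δ B : ℝ} (hB : 0 ≤ B) (b σ : ℕ) (R : Finset ℕ) {e : ℕ → ℕ} (he : Monotone e) (M : ℕ) :
    xs μ s N Q δ B b σ R (e 0) (e M) ≤
      ∫ ω, gv (wm μ s N Q ω) (∑ i ∈ range M, Zs μ s N Q δ B b σ R (e i) (e (i + 1)) ω) ∂(Pm μ N) := by
  unfold xs
  refine integral_mono_of_nonneg (Filter.Eventually.of_forall fun ω => gv_nonneg _ _)
    (int_bdd (M := (∑ i ∈ range M, ((e (i + 1) / σ - e i / σ : ℕ) : ℝ) * (R.card * (B / 2 + (B / 2) ^ 2))) ^ 2)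
      (meas_gv meas_wm fun S => ?_) fun ω => abs_gv_le _ fun S => ?_) (Filter.Eventually.of_forall fun ω => ?_)
  · simp only [Finset.sum_apply]
    exact Finset.measurable_fun_sum _ fun i _ => meas_Zs δ B b σ R _ _ S
  · rw [Finset.sum_apply]
    exact (abs_sum_le_sum_abs _ _).trans (sum_le_sum fun i _ => abs_Zs hB b σ R _ _ ω S)
  · beta_reduce
    rw [Zs_merge δ B b σ R he M ω]
    exact gv_cE_le _ _ _

/-! ### The change of `σ` -/

/-- The loss of a block `[kσ', (k+1)σ')` cut into blocks of length `σ`, `σ' = m σ`. -/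
def Gb (μ : Measure ℝ) (s : ℝ) (N : ℕ) (Q : Finset (Finset ℕ)) (δ B : ℝ) (b σ m : ℕ) (R : Finset ℕ) (k : ℕ)
    (ω : Env × Finset ℕ) : Px Q → ℝ :=
  ∑ i ∈ Ico (k * m) ((k + 1) * m), Gam (wm μ s N Q ω) (pJ (k * (m * σ)) ((k + 1) * (m * σ))) (pJ (i * σ) ((i + 1) * σ))
    (Rw R (i * σ) ((i + 1) * σ)) (sr ω.2) (gg μ s Q δ B b ω)

/-- One block of length `σ' = m σ` against its blocks of length `σ`. -/
theorem Zm_cut (δ B : ℝ) (b σ m : ℕ) (R : Finset ℕ) (k : ℕ) (ω : Env × Finset ℕ) :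
    Zm μ s N Q δ B b R (k * (m * σ)) ((k + 1) * (m * σ)) ω =
      cE (wm μ s N Q ω) (pJ (k * (m * σ)) ((k + 1) * (m * σ)))
        (∑ i ∈ Ico (k * m) ((k + 1) * m), Zm μ s N Q δ B b R (i * σ) ((i + 1) * σ) ω) - Gb μ s N Q δ B b σ m R k ω := by
  rcases Nat.eq_zero_or_pos σ with h0 | h0
  · subst h0
    simp only [Nat.mul_zero]
    have e1 : ∀ c : ℕ, Zm μ s N Q δ B b R c c ω = 0 := fun c => by
      unfold Zm Zb Rw
      rw [Ico_self, inter_empty, sum_empty]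
    have e2 : Gb μ s N Q δ B b 0 m R k ω = 0 := by
      unfold Gb Gam Rw
      simp
    rw [e1, e2, sum_const_zero, cE_zero, sub_zero]
  have hu : Rw R (k * (m * σ)) ((k + 1) * (m * σ)) =
      (Ico (k * m) ((k + 1) * m)).biUnion fun i => Rw R (i * σ) ((i + 1) * σ) := by
    unfold Rw
    ext j
    simp only [mem_inter, mem_biUnion, mem_Ico]
    constructor
    · rintro ⟨h1, h2, h3⟩
      refine ⟨j / σ, ⟨?_, ?_⟩, h1, Nat.div_mul_le_self j σ, ?_⟩
      · rw [Nat.le_div_iff_mul_le h0, mul_assoc]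
        exact h2
      · rw [Nat.div_lt_iff_lt_mul h0, mul_assoc]
        exact h3
      · rw [Nat.succ_mul]
        exact Nat.lt_div_mul_add h0
    · rintro ⟨i, ⟨h1, h2⟩, h3, h4, h5⟩
      refine ⟨h3, ?_, ?_⟩
      · calc k * (m * σ) = k * m * σ := by ring
          _ ≤ i * σ := Nat.mul_le_mul_right σ h1
          _ ≤ j := h4
      · calc j < (i + 1) * σ := h5
          _ ≤ (k + 1) * m * σ := Nat.mul_le_mul_right σ h2
          _ = (k + 1) * (m * σ) := by ring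
  have hd : ((Ico (k * m) ((k + 1) * m) : Finset ℕ) : Set ℕ).PairwiseDisjoint fun i => Rw R (i * σ) ((i + 1) * σ) := by
    intro i _ i' _ hne
    unfold Function.onFun Rw
    rw [disjoint_left]
    intro j h1 h2
    simp only [mem_inter, mem_Ico] at h1 h2
    rcases Nat.lt_or_gt_of_ne hne with h | h
    · have := Nat.mul_le_mul_right σ (show i + 1 ≤ i' from h)
      omega
    · have := Nat.mul_le_mul_right σ (show i' + 1 ≤ i from h)
      omega
  unfold Zm Gb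
  rw [hu]
  refine Zb_merge_fam _ _ (fun i => pJ (i * σ) ((i + 1) * σ)) _ (fun i hi => ?_) hd _ _
  rw [mem_Ico] at hi
  refine crs_pJ ?_ ?_
  · calc k * (m * σ) = k * m * σ := by ring
      _ ≤ i * σ := Nat.mul_le_mul_right σ hi.1
  · calc (i + 1) * σ ≤ (k + 1) * m * σ := Nat.mul_le_mul_right σ hi.2
      _ = (k + 1) * (m * σ) := by ring

omit [Nonempty (Px Q)] in
theorem sum_blocks (φ : ℕ → Px Q → ℝ) (m : ℕ) {c d : ℕ} (h : c ≤ d) :
    ∑ k ∈ Ico c d, ∑ i ∈ Ico (k * m) ((k + 1) * m), φ i = ∑ i ∈ Ico (m * c) (m * d), φ i := by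
  induction d, h using Nat.le_induction with
  | base => simp
  | succ d h ih =>
    rw [sum_Ico_succ_top h, ih, mul_comm d m, mul_comm (d + 1) m]
    exact sum_Ico_consecutive _ (Nat.mul_le_mul_left m h) (Nat.mul_le_mul_left m (Nat.le_succ d))

/-- The loss of the change of `σ` to `m σ`, seen from outside of `[c, d)`. -/
def Gs (μ : Measure ℝ) (s : ℝ) (N : ℕ) (Q : Finset (Finset ℕ)) (δ B : ℝ) (b σ m : ℕ) (R : Finset ℕ) (c d : ℕ)
    (ω : Env × Finset ℕ) : Px Q → ℝ :=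
  cE (wm μ s N Q ω) (pJ c d) (∑ k ∈ Ico (c / (m * σ)) (d / (m * σ)), Gb μ s N Q δ B b σ m R k ω)

/-- **The change of `σ`, exact**: for a block `[c, d)` whose ends are multiples of `m σ`. -/
theorem Zs_sig (δ B : ℝ) (b : ℕ) {σ m : ℕ} (hσ : 0 < σ) (hm : 0 < m) (R : Finset ℕ) {c d : ℕ} (hc : m * σ ∣ c) (hd : m * σ ∣ d)
    (ω : Env × Finset ℕ) :
    Zs μ s N Q δ B b (m * σ) R c d ω = Zs μ s N Q δ B b σ R c d ω - Gs μ s N Q δ B b σ m R c d ω := by
  obtain ⟨c', rfl⟩ := hc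
  obtain ⟨d', rfl⟩ := hd
  have hp : 0 < m * σ := Nat.mul_pos hm hσ
  have ec : m * σ * c' / (m * σ) = c' := Nat.mul_div_cancel_left _ hp
  have ed : m * σ * d' / (m * σ) = d' := Nat.mul_div_cancel_left _ hp
  have ec' : m * σ * c' / σ = m * c' := by
    rw [show m * σ * c' = σ * (m * c') by ring]
    exact Nat.mul_div_cancel_left _ hσ
  have ed' : m * σ * d' / σ = m * d' := by
    rw [show m * σ * d' = σ * (m * d') by ring]
    exact Nat.mul_div_cancel_left _ hσ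
  unfold Zs Gs Zt
  rw [ec, ed, ec', ed', cE_sum, cE_sum, cE_sum]
  have h1 : ∀ k ∈ Ico c' d', cE (wm μ s N Q ω) (pJ (m * σ * c') (m * σ * d')) (Zm μ s N Q δ B b R (k * (m * σ)) ((k + 1) * (m * σ)) ω) =
      ∑ i ∈ Ico (k * m) ((k + 1) * m), cE (wm μ s N Q ω) (pJ (m * σ * c') (m * σ * d')) (Zm μ s N Q δ B b R (i * σ) ((i + 1) * σ) ω) -
        cE (wm μ s N Q ω) (pJ (m * σ * c') (m * σ * d')) (Gb μ s N Q δ B b σ m R k ω) := by
    intro k hk
    rw [mem_Ico] at hk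
    have hC : Crs (pJ (Q := Q) (m * σ * c') (m * σ * d')) (pJ (k * (m * σ)) ((k + 1) * (m * σ))) := by
      refine crs_pJ ?_ ?_
      · rw [mul_comm (m * σ) c']
        exact Nat.mul_le_mul_right _ hk.1
      · rw [mul_comm (m * σ) d']
        exact Nat.mul_le_mul_right _ hk.2
    rw [Zm_cut, cE_sub, cE_tower _ hC, cE_sum]
  rw [sum_congr rfl h1, sum_sub_distrib]
  rcases le_or_gt c' d' with h | h
  · rw [sum_blocks _ m h]
  · rw [Ico_eq_empty_of_le h.le, Ico_eq_empty_of_le (Nat.mul_le_mul_left m h.le)]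
    simp

/-- The change of `σ` with the Minkowski inequality. -/
theorem xs_sig [IsProbabilityMeasure μ] {δ B : ℝ} (hB : 0 ≤ B) (b : ℕ) {σ m : ℕ} (hσ : 0 < σ) (hm : 0 < m) (R : Finset ℕ)
    {c d : ℕ} (hc : m * σ ∣ c) (hd : m * σ ∣ d) :
    Real.sqrt (xs μ s N Q δ B b (m * σ) R c d) ≤ Real.sqrt (xs μ s N Q δ B b σ R c d) +
      Real.sqrt (∫ ω, gv (wm μ s N Q ω) (Gs μ s N Q δ B b σ m R c d ω) ∂(Pm μ N)) := by
  have hG : ∀ ω S, Gs μ s N Q δ B b σ m R c d ω S = Zs μ s N Q δ B b σ R c d ω S - Zs μ s N Q δ B b (m * σ) R c d ω S := by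
    intro ω S
    rw [Zs_sig δ B b hσ hm R hc hd ω, Pi.sub_apply]
    ring
  have hmG : ∀ S, Measurable fun ω => Gs μ s N Q δ B b σ m R c d ω S := fun S => by
    simp only [hG]
    exact (meas_Zs δ B b σ R c d S).sub (meas_Zs δ B b (m * σ) R c d S)
  have h := mink (μ := Pm μ N) (W := wm μ s N Q) (A := Zs μ s N Q δ B b σ R c d) (B := Gs μ s N Q δ B b σ m R c d)
    (int_bdd (meas_gv meas_wm fun S => meas_Zs δ B b σ R c d S) fun ω => abs_gv_le _ (abs_Zs hB b σ R c d ω))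
    (int_bdd (meas_gv meas_wm hmG) fun ω => abs_gv_le _ fun S => by
      rw [hG ω S]
      exact (abs_sub _ _).trans (add_le_add (abs_Zs hB b σ R c d ω S) (abs_Zs hB b (m * σ) R c d ω S)))
  have e : (fun ω => gv (wm μ s N Q ω) (Zs μ s N Q δ B b (m * σ) R c d ω)) =
      fun ω => gv (wm μ s N Q ω) (Zs μ s N Q δ B b σ R c d ω - Gs μ s N Q δ B b σ m R c d ω) := by
    funext ω
    rw [Zs_sig δ B b hσ hm R hc hd ω]
  unfold xs
  rw [e]
  exact h

/-- The change of the base window with the Minkowski inequality. -/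
theorem xs_base [IsProbabilityMeasure μ] {δ B : ℝ} (hB : 0 ≤ B) (b b' σ : ℕ) (R : Finset ℕ) (c d : ℕ) :
    Real.sqrt (xs μ s N Q δ B b' σ R c d) ≤ Real.sqrt (xs μ s N Q δ B b σ R c d) +
      Real.sqrt (∫ ω, gv (wm μ s N Q ω) (Zs μ s N Q δ B b σ R c d ω - Zs μ s N Q δ B b' σ R c d ω) ∂(Pm μ N)) := by
  have h := mink (μ := Pm μ N) (W := wm μ s N Q) (A := Zs μ s N Q δ B b σ R c d)
    (B := fun ω => Zs μ s N Q δ B b σ R c d ω - Zs μ s N Q δ B b' σ R c d ω)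
    (int_bdd (meas_gv meas_wm fun S => meas_Zs δ B b σ R c d S) fun ω => abs_gv_le _ (abs_Zs hB b σ R c d ω))
    (int_bdd (meas_gv meas_wm fun S => (meas_Zs δ B b σ R c d S).sub (meas_Zs δ B b' σ R c d S)) fun ω =>
      abs_gv_le _ fun S => (abs_sub _ _).trans (add_le_add (abs_Zs hB b σ R c d ω S) (abs_Zs hB b' σ R c d ω S)))
  have e : (fun ω => gv (wm μ s N Q ω) (Zs μ s N Q δ B b σ R c d ω - (Zs μ s N Q δ B b σ R c d ω - Zs μ s N Q δ B b' σ R c d ω))) =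
      fun ω => gv (wm μ s N Q ω) (Zs μ s N Q δ B b' σ R c d ω) := by
    funext ω
    rw [sub_sub_cancel]
  rw [e] at h
  exact h

/-! ### The recursion over a super level, averaged over the pinned ends -/

/-- The functional to the right of the block `i`: the sum over the blocks `l ∈ [i, M)`. -/
def fR (μ : Measure ℝ) (s : ℝ) (N : ℕ) (Q : Finset (Finset ℕ)) (δ B : ℝ) (b σ : ℕ) (R : Finset ℕ) (e : ℕ → ℕ) (i M : ℕ)
    (ω : Env × Finset ℕ) : Px Q → ℝ :=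
  ∑ l ∈ Ico i M, Zs μ s N Q δ B b σ R (e l) (e (l + 1)) ω

omit [Nonempty (Px Q)] in
theorem fR_top (δ B : ℝ) (b σ : ℕ) (R : Finset ℕ) (e : ℕ → ℕ) (M : ℕ) (ω : Env × Finset ℕ) :
    fR μ s N Q δ B b σ R e M M ω = 0 := by
  unfold fR
  rw [Ico_self, sum_empty]

omit [Nonempty (Px Q)] in
theorem fR_succ (δ B : ℝ) (b σ : ℕ) (R : Finset ℕ) (e : ℕ → ℕ) {i M : ℕ} (h : i < M) (ω : Env × Finset ℕ) :
    fR μ s N Q δ B b σ R e i M ω = Zs μ s N Q δ B b σ R (e i) (e (i + 1)) ω + fR μ s N Q δ B b σ R e (i + 1) M ω := by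
  unfold fR
  rw [sum_eq_sum_Ico_succ_bot h]

omit [Nonempty (Px Q)] in
theorem meas_fR (δ B : ℝ) (b σ : ℕ) (R : Finset ℕ) (e : ℕ → ℕ) (i M : ℕ) (S : Px Q) :
    Measurable fun ω => fR μ s N Q δ B b σ R e i M ω S := by
  unfold fR
  simp only [Finset.sum_apply]
  exact Finset.measurable_fun_sum _ fun l _ => meas_Zs δ B b σ R _ _ S

/-- The crude bound of `fR`. -/
def bR (B : ℝ) (σ : ℕ) (R : Finset ℕ) (e : ℕ → ℕ) (i M : ℕ) : ℝ :=
  ∑ l ∈ Ico i M, ((e (l + 1) / σ - e l / σ : ℕ) : ℝ) * (R.card * (B / 2 + (B / 2) ^ 2))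

theorem abs_fR {δ B : ℝ} (hB : 0 ≤ B) (b σ : ℕ) (R : Finset ℕ) (e : ℕ → ℕ) (i M : ℕ) (ω : Env × Finset ℕ) (S : Px Q) :
    |fR μ s N Q δ B b σ R e i M ω S| ≤ bR B σ R e i M := by
  unfold fR bR
  rw [Finset.sum_apply]
  exact (abs_sum_le_sum_abs _ _).trans (sum_le_sum fun l _ => abs_Zs hB b σ R _ _ ω S)

theorem int_gvf [IsProbabilityMeasure μ] {δ B : ℝ} (hB : 0 ≤ B) (b σ : ℕ) (R : Finset ℕ) (e : ℕ → ℕ) (i M : ℕ) :
    Integrable (fun ω => gv (wm μ s N Q ω) (fR μ s N Q δ B b σ R e i M ω)) (Pm μ N) :=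
  int_bdd (meas_gv meas_wm fun S => meas_fR δ B b σ R e i M S) fun ω => abs_gv_le _ (abs_fR hB b σ R e i M ω)

theorem int_gvs [IsProbabilityMeasure μ] {δ B : ℝ} (hB : 0 ≤ B) (b σ : ℕ) (R : Finset ℕ) (c d : ℕ) :
    Integrable (fun ω => gv (wm μ s N Q ω) (Zs μ s N Q δ B b σ R c d ω)) (Pm μ N) :=
  int_bdd (meas_gv meas_wm fun S => meas_Zs δ B b σ R c d S) fun ω => abs_gv_le _ (abs_Zs hB b σ R c d ω)

theorem int_gcf [IsProbabilityMeasure μ] {δ B : ℝ} (hB : 0 ≤ B) (b σ : ℕ) (R : Finset ℕ) (e : ℕ → ℕ) (c d i M : ℕ) :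
    Integrable (fun ω => gc (wm μ s N Q ω) (Zs μ s N Q δ B b σ R c d ω) (fR μ s N Q δ B b σ R e i M ω)) (Pm μ N) :=
  int_bdd (meas_gc meas_wm (fun S => meas_Zs δ B b σ R c d S) fun S => meas_fR δ B b σ R e i M S) fun ω =>
    abs_gc_le_mul _ (abs_Zs hB b σ R c d ω) (abs_fR hB b σ R e i M ω)

/-- The variance of the sum of the blocks `[i, M)`, one block at a time. -/
theorem var_fR [IsProbabilityMeasure μ] {δ B : ℝ} (hB : 0 ≤ B) (b σ : ℕ) (R : Finset ℕ) (e : ℕ → ℕ) {i M : ℕ} (h : i < M) :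
    ∫ ω, gv (wm μ s N Q ω) (fR μ s N Q δ B b σ R e i M ω) ∂(Pm μ N) = xs μ s N Q δ B b σ R (e i) (e (i + 1)) +
      2 * ∫ ω, gc (wm μ s N Q ω) (Zs μ s N Q δ B b σ R (e i) (e (i + 1)) ω) (fR μ s N Q δ B b σ R e (i + 1) M ω) ∂(Pm μ N) +
      ∫ ω, gv (wm μ s N Q ω) (fR μ s N Q δ B b σ R e (i + 1) M ω) ∂(Pm μ N) := by
  have e1 : (fun ω => gv (wm μ s N Q ω) (fR μ s N Q δ B b σ R e i M ω)) = fun ω =>
      gv (wm μ s N Q ω) (Zs μ s N Q δ B b σ R (e i) (e (i + 1)) ω) +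
        2 * gc (wm μ s N Q ω) (Zs μ s N Q δ B b σ R (e i) (e (i + 1)) ω) (fR μ s N Q δ B b σ R e (i + 1) M ω) +
          gv (wm μ s N Q ω) (fR μ s N Q δ B b σ R e (i + 1) M ω) := by
    funext ω
    rw [fR_succ δ B b σ R e h ω, gv_add]
  rw [e1, int_add3 (int_gvs hB b σ R _ _) ((int_gcf hB b σ R e _ _ _ _).const_mul 2) (int_gvf hB b σ R e _ _),
    integral_const_mul]
  rfl

omit [Nonempty (Px Q)] in
/-- **The recursion over a super level**, averaged over the pinned ends: the blocks `[e i, e (i + 1))`, `i < M`, of variance at most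
`X`, with the cross terms against everything to the right. -/
theorem xsa_super [IsProbabilityMeasure μ] {δ B : ℝ} (hB : 0 ≤ B) (b σ : ℕ) (R : Finset ℕ) {ys : Finset ℕ} (hys : ∀ y ∈ ys, y ≤ N)
    {e : ℕ → ℕ} (he : Monotone e) (M : ℕ) {X D D' : ℝ} (hX : 0 ≤ X) (hD : 0 ≤ D) (hD' : 0 ≤ D')
    (h1 : ∀ i < M, xsa μ s N ys δ B b σ R (e i) (e (i + 1)) ≤ X)
    (h2 : ∀ i < M, 2 * avy ys (fun y => ∫ ω, gc (wm μ s N (Pn N y) ω) (Zs μ s N (Pn N y) δ B b σ R (e i) (e (i + 1)) ω)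
        (fR μ s N (Pn N y) δ B b σ R e (i + 1) M ω) ∂(Pm μ N)) ≤
      D * Real.sqrt (avy ys fun y => ∫ ω, gv (wm μ s N (Pn N y) ω) (fR μ s N (Pn N y) δ B b σ R e (i + 1) M ω) ∂(Pm μ N)) + D') :
    Real.sqrt (xsa μ s N ys δ B b σ R (e 0) (e M)) ≤ Real.sqrt (M * (X + D')) + M * D / 2 := by
  have key := sqrt_rec (z := fun k => avy ys fun y =>
    ∫ ω, gv (wm μ s N (Pn N y) ω) (fR μ s N (Pn N y) δ B b σ R e (M - k) M ω) ∂(Pm μ N)) (m := M) (B := X + D') (δ := D)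
    (add_nonneg hX hD') hD ?_ ?_ ?_
  · refine (Real.sqrt_le_sqrt ?_).trans key
    rw [Nat.sub_self]
    refine avy_mono fun y hy => ?_
    have := ne_Pn (hys y hy)
    have h := xs_le_sum (μ := μ) (s := s) (N := N) (Q := Pn N y) (δ := δ) hB b σ R he M
    have e1 : ∀ ω, fR μ s N (Pn N y) δ B b σ R e 0 M ω = ∑ i ∈ range M, Zs μ s N (Pn N y) δ B b σ R (e i) (e (i + 1)) ω :=
      fun ω => by
        unfold fR
        rw [Finset.range_eq_Ico]
    simp only [e1]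
    exact h
  · have e0 : ∀ y ∈ ys, ∫ ω, gv (wm μ s N (Pn N y) ω) (fR μ s N (Pn N y) δ B b σ R e (M - 0) M ω) ∂(Pm μ N) = 0 := by
      intro y hy
      have := ne_Pn (hys y hy)
      simp only [Nat.sub_zero, fR_top]
      have h3 : ∀ w : Px (Pn N y) → ℝ, gv w 0 = 0 := fun w => by
        have h4 := gv_smul w 0 0
        rw [zero_smul] at h4
        rw [h4]
        ring
      simp only [h3, integral_zero]
    unfold avy
    rw [sum_congr rfl e0, sum_const_zero, mul_zero]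
  · intro k
    refine avy_nonneg fun y hy => ?_
    have := ne_Pn (hys y hy)
    exact integral_nonneg fun ω => gv_nonneg _ _
  · intro k hk
    have e2 : M - k = M - (k + 1) + 1 := by omega
    have h3 := h1 (M - (k + 1)) (by omega)
    have h4 := h2 (M - (k + 1)) (by omega)
    rw [← e2] at h3 h4
    have e3 : avy ys (fun y => ∫ ω, gv (wm μ s N (Pn N y) ω) (fR μ s N (Pn N y) δ B b σ R e (M - (k + 1)) M ω) ∂(Pm μ N)) =
        xsa μ s N ys δ B b σ R (e (M - (k + 1))) (e (M - k)) + 2 * avy ys (fun y => ∫ ω, gc (wm μ s N (Pn N y) ω)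
          (Zs μ s N (Pn N y) δ B b σ R (e (M - (k + 1))) (e (M - k)) ω) (fR μ s N (Pn N y) δ B b σ R e (M - k) M ω) ∂(Pm μ N)) +
          avy ys (fun y => ∫ ω, gv (wm μ s N (Pn N y) ω) (fR μ s N (Pn N y) δ B b σ R e (M - k) M ω) ∂(Pm μ N)) := by
      unfold xsa
      rw [← avy_mul, ← avy_add, ← avy_add]
      unfold avy
      congr 1
      refine sum_congr rfl fun y hy => ?_
      have := ne_Pn (hys y hy)
      have h5 := var_fR (μ := μ) (s := s) (N := N) (Q := Pn N y) (δ := δ) hB b σ R e (i := M - (k + 1)) (M := M) (by omega)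
      rw [← e2] at h5
      exact h5
    rw [e3]
    linarith

end

end Pool.Agent.W_7d29a1_C0.Mod92
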