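import Pool.Agent.W_7d29a1_C0.Den33
import Pool.Agent.W_7d29a1_C0.Mod92C
import Pool.Agent.W_7d29a1_LB.Pow29

/-!
MP_7d29a1_pr, [CURV0], section 9, second file (helper33): the denominator averaged over the pinned ends, in terms of the unit
(`den33_avy`: at most `N ^ ε EE n ^ 3`); the hypothesis `LB20 μ s` is `lb_all` (`W_7d29a1_LB.All29`).
-/

set_option autoImplicit false

namespace Pool.Agent.W_7d29a1_C0.Den33

open Finset MeasureTheory Filter Topology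
open Pool.Agent.W_7d29a1_F Pool.Agent.W_7d29a1_X Pool.Agent.W_7d29a1_H Pool.Agent.W_7d29a1_LB
open Pool.Agent.W_7d29a1_HS (In wd wd_ge_one wd_lower_one)
open Pool.Agent.W_7d29a1_HZ
open Pool.Agent.W_7d29a1_C0.Mod92
open Pool.W7d29a1.C0.VT31

noncomputable section

variable {μ : Measure ℝ} {s : ℝ}

/-! ### The denominator in terms of the unit -/

/-- `wd n ≤ C n ^ ε EE n ^ 2` for all `n ≥ 1`. -/
theorem wd_cube [IsProbabilityMeasure μ] (hL : LB20 μ s) {c C : ℝ} {n₀ : ℕ} (h : In μ s c C n₀) {ε : ℝ} (hε : 0 < ε) :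
    ∃ A : ℝ, 1 ≤ A ∧ ∀ n : ℕ, 1 ≤ n → wd μ s n ≤ A * ((n : ℝ) ^ ε * EE μ s n ^ 2) := by
  obtain ⟨n₁, h1⟩ := hL ε hε
  have hw1 := wd_ge_one h le_rfl
  have hE1 := one_le_EE (μ := μ) (s := s) 1
  refine ⟨1 + 2 * n₁ * wd μ s 1, ?_, fun n hn => ?_⟩
  · have : (0 : ℝ) ≤ n₁ := Nat.cast_nonneg _
    nlinarith
  · have hn1 : (1 : ℝ) ≤ n := by exact_mod_cast hn
    have hp : 1 ≤ (n : ℝ) ^ ε := Real.one_le_rpow hn1 hε.le
    have hEn := one_le_EE (μ := μ) (s := s) n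
    have hE2 : 1 ≤ EE μ s n ^ 2 := one_le_pow₀ hEn
    have hP : 1 ≤ (n : ℝ) ^ ε * EE μ s n ^ 2 := one_le_mul_of_one_le_of_one_le hp hE2
    have hn₁ : (0 : ℝ) ≤ n₁ := Nat.cast_nonneg _
    have hw0 : 0 ≤ wd μ s 1 := by linarith
    rcases le_or_gt n₁ n with h2 | h2
    · have h3 := h1 n h2
      have h4 : 0 ≤ 2 * (n₁ : ℝ) * wd μ s 1 := by positivity
      nlinarith
    · have h3 := wd_lower_one h (m := 1) (n := n) le_rfl hn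
      rw [Nat.cast_one, one_mul] at h3
      have h4 : (n : ℝ) ≤ n₁ := by exact_mod_cast h2.le
      have h5 : 2 * ((n : ℝ) * wd μ s 1) ≤ 2 * n₁ * wd μ s 1 := by nlinarith
      have h6 : 0 ≤ 2 * (n₁ : ℝ) * wd μ s 1 := by positivity
      nlinarith

/-- **THE DENOMINATOR, averaged over the pinned ends.** -/
theorem den33_avy [IsProbabilityMeasure μ] (hL : LB20 μ s) {c C : ℝ} {n₀ : ℕ} (h : In μ s c C n₀) {ε : ℝ}
    (hε : 0 < ε) : ∃ δ : ℝ, 0 < δ ∧ ∃ N₀ : ℕ, ∀ N : ℕ, N₀ ≤ N → ∀ n : ℕ, 1 ≤ n → n ≤ N → ∀ ys : Finset ℕ,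
    (∀ y ∈ ys, y ≤ N ∧ |(y : ℝ) - sl μ s * N| ≤ (N : ℝ) ^ δ * wd' μ s N) →
    avy ys (fun y => ∫ ω, gv (wm μ s N (Pn N y) ω) (fun S => (ps S n : ℝ)) ∂(Pm μ N)) ≤ (N : ℝ) ^ ε * EE μ s n ^ 3 := by
  obtain ⟨δ, hδ, N₁, h1⟩ := den33 h (show 0 < ε / 4 by positivity)
  obtain ⟨A, hA, h2⟩ := wd_cube hL h (show 0 < ε / 8 by positivity)
  obtain ⟨N₂, h3⟩ := Pool.Agent.W_7d29a1_Z.NumI77.large (show 0 < ε / 2 by positivity) (A ^ 2)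
  refine ⟨δ, hδ, N₁ + N₂ + 1, fun N hN n hn1 hnN ys hys => ?_⟩
  have hN1 : (1 : ℝ) ≤ N := by exact_mod_cast (show 1 ≤ N by omega)
  have hN0 : (0 : ℝ) < N := by linarith
  have hEn := EE_pos (μ := μ) (s := s) n
  have hR : (N : ℝ) ^ (ε / 4) * (wd μ s n ^ 2 / EE μ s n) ≤ (N : ℝ) ^ ε * EE μ s n ^ 3 := by
    have e1 := h2 n hn1
    have e2 : (n : ℝ) ^ (ε / 8) ≤ (N : ℝ) ^ (ε / 8) := Real.rpow_le_rpow (Nat.cast_nonneg _) (by exact_mod_cast hnN) (by positivity)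
    have e3 : wd μ s n ≤ A * ((N : ℝ) ^ (ε / 8) * EE μ s n ^ 2) :=
      e1.trans (mul_le_mul_of_nonneg_left (mul_le_mul_of_nonneg_right e2 (by positivity)) (by linarith))
    have e4 : wd μ s n ^ 2 ≤ (A * ((N : ℝ) ^ (ε / 8) * EE μ s n ^ 2)) ^ 2 := pow_le_pow_left₀ (h.wd_nonneg n) e3 2
    have e5 : ((N : ℝ) ^ (ε / 8)) ^ 2 = (N : ℝ) ^ (ε / 4) := by
      rw [← Real.rpow_natCast, ← Real.rpow_mul hN0.le]
      congr 1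
      push_cast
      ring
    have e6 : wd μ s n ^ 2 / EE μ s n ≤ A ^ 2 * (N : ℝ) ^ (ε / 4) * EE μ s n ^ 3 := by
      rw [div_le_iff₀ hEn]
      calc wd μ s n ^ 2 ≤ (A * ((N : ℝ) ^ (ε / 8) * EE μ s n ^ 2)) ^ 2 := e4
        _ = A ^ 2 * ((N : ℝ) ^ (ε / 8)) ^ 2 * EE μ s n ^ 3 * EE μ s n := by ring
        _ = A ^ 2 * (N : ℝ) ^ (ε / 4) * EE μ s n ^ 3 * EE μ s n := by rw [e5]
    have e7 : A ^ 2 ≤ (N : ℝ) ^ (ε / 2) := (h3 N (by omega)).2.1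
    have e8 : (N : ℝ) ^ (ε / 4) * (N : ℝ) ^ (ε / 2) * (N : ℝ) ^ (ε / 4) = (N : ℝ) ^ ε := by
      rw [← Real.rpow_add hN0, ← Real.rpow_add hN0]
      congr 1
      ring
    calc (N : ℝ) ^ (ε / 4) * (wd μ s n ^ 2 / EE μ s n)
        ≤ (N : ℝ) ^ (ε / 4) * (A ^ 2 * (N : ℝ) ^ (ε / 4) * EE μ s n ^ 3) := mul_le_mul_of_nonneg_left e6 (by positivity)
      _ ≤ (N : ℝ) ^ (ε / 4) * ((N : ℝ) ^ (ε / 2) * (N : ℝ) ^ (ε / 4) * EE μ s n ^ 3) := by gcongr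
      _ = (N : ℝ) ^ (ε / 4) * (N : ℝ) ^ (ε / 2) * (N : ℝ) ^ (ε / 4) * EE μ s n ^ 3 := by ring
      _ = (N : ℝ) ^ ε * EE μ s n ^ 3 := by rw [e8]
  have h4 : ∀ y ∈ ys, ∫ ω, gv (wm μ s N (Pn N y) ω) (fun S => (ps S n : ℝ)) ∂(Pm μ N) ≤ (N : ℝ) ^ ε * EE μ s n ^ 3 := fun y hy =>
    (h1 N (by omega) n hn1 hnN y (hys y hy).1 (hys y hy).2).trans hR
  rcases ys.eq_empty_or_nonempty with h0 | h0
  · rw [h0]
    unfold avy
    rw [sum_empty, mul_zero]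
    positivity
  · exact (avy_mono h4).trans (avy_const h0 _).le

end

end Pool.Agent.W_7d29a1_C0.Den33
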