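import Pool.Agent.W_7d29a1_C0.Frm33
import Pool.Agent.W_7d29a1_C0.AsmC96
import Pool.Agent.W_7d29a1_C0.N59C
import Pool.Agent.W_7d29a1_C0.Den33B

/-!
MP_7d29a1_pr, [CURV0] (helper33): THE CONCRETE FRAME `frm33 μ s K : ℝ → ℝ → ℝ → Frm96` of `AsmC96` (exponents in the order of `Par92`), and
the contracts which do not concern the cross term: `ok33`, `deep33`, `fln33 : FlN`, `fls33` (law invariance of the position at the last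
row), `dens33`, `rows33`, `topn33 : CrN → TopN`.
-/

set_option autoImplicit false

namespace Pool.Agent.W_7d29a1_C0.Frm33

open Finset MeasureTheory Filter Topology
open Pool.Agent.W_7d29a1_F Pool.Agent.W_7d29a1_X
open Pool.Agent.W_7d29a1_H (sl EE EE_pos)
open Pool.Agent.W_7d29a1_HS (In wd)
open Pool.Agent.W_7d29a1_HZ (wd')
open Pool.Agent.W_7d29a1_LB (LB20)
open Pool.Agent.W_7d29a1_C0 Pool.Agent.W_7d29a1_C0.Mod92 Pool.Agent.W_7d29a1_C0.Flip61 Pool.Agent.W_7d29a1_C0.Asm96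
open Pool.Agent.W_7d29a1_C0.Par92 (Sml Est)

noncomputable section

variable {μ : Measure ℝ} {s : ℝ}

/-- **THE CONCRETE FRAME.** -/
def frm33 (μ : Measure ℝ) (s : ℝ) (K : ℕ) (ι β γ : ℝ) : Frm96 where
  L := L33 K
  ys := ys33 μ s K
  dl := γ
  B := B33 β
  b0 m p := 2 ^ (p - ⌈ι * m⌉₊)
  R := R33 ι

theorem M33_le {K : ℕ} (hK : 6 ≤ K) (m : ℕ) : M33 m ≤ L33 K m :=
  Nat.pow_le_pow_right two_pos (Nat.mul_le_mul_right m hK)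

theorem hy33 {K : ℕ} (hK : 6 ≤ K) (m : ℕ) : ∀ y ∈ ys33 μ s K m, y ≤ L33 K m := by
  intro y hy
  have h1 := M33_le hK m
  have h2 := mem_Ico.1 (show y ∈ Ico (y33 μ s K m) (y33 μ s K m + M33 m) from hy)
  have h3 : y33 μ s K m ≤ L33 K m - M33 m := min_le_right _ _
  omega

/-- **The frame is admissible.** -/
theorem ok33 {K : ℕ} (hK : 6 ≤ K) {Θ : ℝ} (hΘ : 0 < Θ) : Est fun ι β γ m => (frm33 μ s K ι β γ).Ok Θ m := by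
  refine Sml.of fun ι _ => ⟨Θ / 16, by positivity, fun β hβ hβΘ => Sml.of fun γ _ => Eventually.of_forall fun m => ?_⟩
  exact ⟨L33_ge (by omega) m, R33_sub ι m, hy33 hK m, Real.one_le_rpow (n_ge1 m) hβ.le,
    Real.rpow_le_rpow_of_exponent_le (n_ge1 m) hβΘ⟩

/-- The finer window. -/
theorem b0_33 {δ ι : ℝ} (hδ : 0 < δ) (hι : ι ≤ δ / 4) : ∀ᶠ m : ℕ in atTop, ∀ p : ℕ, δ * m ≤ p →
    ((2 ^ m : ℕ) : ℝ) ^ (δ / 4) ≤ ((2 ^ (p - ⌈ι * (m : ℝ)⌉₊) : ℕ) : ℝ) := by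
  have h1 : ∀ᶠ m : ℕ in atTop, 4 / δ ≤ (m : ℝ) := tendsto_natCast_atTop_atTop.eventually_ge_atTop _
  filter_upwards [h1] with m hm p hp
  rw [div_le_iff₀ hδ] at hm
  have h2 : (⌈ι * (m : ℝ)⌉₊ : ℝ) ≤ δ / 4 * m + 1 := by
    have h0 : (0 : ℝ) ≤ m := Nat.cast_nonneg _
    have h3 : ⌈ι * (m : ℝ)⌉₊ ≤ ⌈δ / 4 * (m : ℝ)⌉₊ := Nat.ceil_le_ceil (mul_le_mul_of_nonneg_right hι h0)
    have h4 : (⌈δ / 4 * (m : ℝ)⌉₊ : ℝ) < δ / 4 * m + 1 := Nat.ceil_lt_add_one (by positivity)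
    have h5 : (⌈ι * (m : ℝ)⌉₊ : ℝ) ≤ (⌈δ / 4 * (m : ℝ)⌉₊ : ℝ) := by exact_mod_cast h3
    linarith
  have h3 : ⌈ι * (m : ℝ)⌉₊ ≤ p := by
    have : (⌈ι * (m : ℝ)⌉₊ : ℝ) ≤ p := by linarith
    exact_mod_cast this
  have h4 : δ / 4 * m ≤ ((p - ⌈ι * (m : ℝ)⌉₊ : ℕ) : ℝ) := by
    rw [Nat.cast_sub h3]
    linarith
  push_cast
  rw [← Real.rpow_natCast 2 m, ← Real.rpow_mul two_pos.le, ← Real.rpow_natCast 2]
  exact Real.rpow_le_rpow_of_exponent_le one_le_two (by linarith)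

/-- **The windows of the kicked rows lie inside of their corrected blocks**, also the windows `k ≤ 4` times as long. -/
theorem deep33_ev [IsProbabilityMeasure μ] {c₁ C : ℝ} {n₀ : ℕ} (h : In μ s c₁ C n₀) (hk : KapLe96 (EE μ s) (1 / 4)) {δ c ι : ℝ}
    (hδ : 0 < δ) (hc : 0 ≤ c) (hcδ : c ≤ δ / 64) (hι : ι ≤ δ / 16) : ∀ᶠ m : ℕ in atTop, ∀ p : ℕ, δ * m ≤ p →
      sg96 (EE μ s) c m p ≤ m → Deep (R33 ι m) (4 * 2 ^ p) (2 ^ sg96 (EE μ s) c m p) := by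
  filter_upwards [reg33 h hk hδ hc hcδ, ev_n (show 0 < δ / 16 by positivity) 5] with m h1 h2 p hp hm
  obtain ⟨-, -, h3⟩ := h1 p hp
  have hn1 := n_ge1 m
  have hn0 : (0 : ℝ) < ((2 ^ m : ℕ) : ℝ) := by linarith
  have hp1 := n_ge1 p
  refine deep_Kr hm ?_
  have e1 : ((2 ^ m : ℕ) : ℝ) ^ (δ / 16) * ((2 ^ p : ℕ) : ℝ) ≤ ((2 ^ m : ℕ) : ℝ) ^ (-ι) * ((2 ^ sg96 (EE μ s) c m p : ℕ) : ℝ) := by
    have e2 : ((2 ^ m : ℕ) : ℝ) ^ (-(δ / 16)) ≤ ((2 ^ m : ℕ) : ℝ) ^ (-ι) := Real.rpow_le_rpow_of_exponent_le hn1 (by linarith)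
    calc ((2 ^ m : ℕ) : ℝ) ^ (δ / 16) * ((2 ^ p : ℕ) : ℝ)
        = ((2 ^ m : ℕ) : ℝ) ^ (-(δ / 16)) * (((2 ^ m : ℕ) : ℝ) ^ (δ / 8) * ((2 ^ p : ℕ) : ℝ)) := by
          rw [← mul_assoc, ← Real.rpow_add hn0]
          congr 2
          ring
      _ ≤ ((2 ^ m : ℕ) : ℝ) ^ (-ι) * ((2 ^ sg96 (EE μ s) c m p : ℕ) : ℝ) :=
          mul_le_mul e2 h3 (by positivity) (Real.rpow_nonneg hn0.le _)
  have e3 : 5 * ((2 ^ p : ℕ) : ℝ) ≤ ((2 ^ m : ℕ) : ℝ) ^ (δ / 16) * ((2 ^ p : ℕ) : ℝ) := mul_le_mul_of_nonneg_right h2 (by linarith)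
  push_cast at e1 e3 hp1 ⊢
  linarith

/-- **`Deep` at the states of `AsmC96`.** -/
theorem deep33 [IsProbabilityMeasure μ] {c₁ C : ℝ} {n₀ : ℕ} (h : In μ s c₁ C n₀) (hk : KapLe96 (EE μ s) (1 / 4)) {K : ℕ} {δ c : ℝ}
    (hδ : 0 < δ) (hc : 0 ≤ c) (hcδ : c ≤ δ / 64) : Est fun ι β γ m => ∀ p q : ℕ, St96 (EE μ s) δ c m p q →
      Deep ((frm33 μ s K ι β γ).R m) (2 ^ p) (2 ^ sg96 (EE μ s) c m p) := by
  refine ⟨δ / 16, by positivity, fun ι _ hι => Sml.of fun β _ => Sml.of fun γ _ => ?_⟩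
  filter_upwards [deep33_ev h hk hδ hc hcδ hι] with m h1 p q hst
  exact (h1 p hst.hp (hst.hsq.trans hst.hqm)).mono (by omega)

/-- **The contract `FlN` at the concrete frame.** -/
theorem fln33 [IsProbabilityMeasure μ] {c₁ C : ℝ} {n₀ : ℕ} (h : In μ s c₁ C n₀) (hk : KapLe96 (EE μ s) (1 / 4)) (hcl : ClipP μ s)
    {K : ℕ} (hK : 32 ≤ K) {δ c : ℝ} (hδ : 0 < δ) (hc : 0 ≤ c) (hcδ : c ≤ δ / 64) :
    Est fun ι β γ m => FlN μ s (frm33 μ s K ι β γ) (EE μ s) δ c m := by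
  refine ⟨δ / 16, by positivity, fun ι _ hι => ⟨1 / 8, by norm_num, fun β hβ hβ1 => ?_⟩⟩
  obtain ⟨γ₀, hγ₀, hF⟩ := fl33_fF h hcl hK (show 0 < δ / 4 by positivity) hβ hβ1
  refine ⟨γ₀, hγ₀, fun γ hγ hγ' => ?_⟩
  filter_upwards [hF γ hγ hγ' ι, b0_33 hδ (show ι ≤ δ / 4 by linarith), deep33_ev h hk hδ hc hcδ hι] with m h2 h3 h4 p q d i k hst hqd hi hkd
  have hsm : sg96 (EE μ s) c m p ≤ m := hst.hsq.trans hst.hqm
  have hpm : p ≤ m := hst.hps.trans hsm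
  have htop : ct96 q d i (2 ^ d) ≤ 2 ^ m := by
    rw [ct96_top]
    calc (i + 1) * 2 ^ (q + d) ≤ 2 ^ (m - (q + d)) * 2 ^ (q + d) := Nat.mul_le_mul_right _ hi
      _ = 2 ^ m := by
          rw [← pow_add]
          congr 1
          omega
  have e1 : ((2 ^ m : ℕ) : ℝ) ^ (-1 : ℝ) = (((2 ^ m : ℕ) : ℝ))⁻¹ := Real.rpow_neg_one _
  rw [e1]
  refine h2 _ (2 ^ p) (2 ^ sg96 (EE μ s) c m p) (h3 p hst.hp) (Nat.pow_le_pow_right two_pos (Nat.sub_le _ _))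
    (Nat.pow_le_pow_right two_pos hpm) ((h4 p hst.hp hsm).mono (by omega)) (by positivity) _ _ (dvd96 hst.hsq _) (dvd96 hst.hsq _)
    (ct96 q d i) (ct96_mono q d i) (fun l => dvd96 hst.hsq _) (k + 1) (2 ^ d) le_rfl htop ((ct96_mono q d i hkd).trans htop)

/-- **The law invariance for the position at the last row**: the contract `FlS59`. -/
theorem fls33 [IsProbabilityMeasure μ] {c₁ C : ℝ} {n₀ : ℕ} (h : In μ s c₁ C n₀) (hk : KapLe96 (EE μ s) (1 / 4)) (hcl : ClipP μ s)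
    {K : ℕ} (hK : 32 ≤ K) {δ c : ℝ} (hδ : 0 < δ) (hc : 0 ≤ c) (hcδ : c ≤ δ / 64) :
    Est fun ι β γ m => FlS59 μ s (frm33 μ s K ι β γ) (EE μ s) δ c m := by
  refine ⟨δ / 16, by positivity, fun ι _ hι => ⟨1 / 8, by norm_num, fun β hβ hβ1 => ?_⟩⟩
  obtain ⟨γ₀, hγ₀, hF⟩ := fl33_Sn h hcl hK (show 0 < δ / 4 by positivity) hβ hβ1
  refine ⟨γ₀, hγ₀, fun γ hγ hγ' => ?_⟩
  filter_upwards [hF γ hγ hγ' ι, b0_33 hδ (show ι ≤ δ / 4 by linarith), deep33_ev h hk hδ hc hcδ hι] with m h2 h3 h4 p hst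
  have hsm : sg96 (EE μ s) c m p ≤ m := hst.hsq
  have hpm : p ≤ m := hst.hps.trans hsm
  have e1 : ((2 ^ m : ℕ) : ℝ) ^ (-1 : ℝ) = (((2 ^ m : ℕ) : ℝ))⁻¹ := Real.rpow_neg_one _
  rw [e1]
  exact h2 _ (2 ^ p) (2 ^ sg96 (EE μ s) c m p) (h3 p hst.hp) (Nat.pow_le_pow_right two_pos (Nat.sub_le _ _))
    (Nat.pow_le_pow_right two_pos hpm) ((h4 p hst.hp hsm).mono (by omega)) (by positivity) 0 (2 ^ m) (dvd_zero _)
    (pow_dvd_pow 2 hsm) (2 ^ m) le_rfl le_rfl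

/-- **The denominator at the frame**: `DenS59`. -/
theorem dens33 [IsProbabilityMeasure μ] (hLB : LB20 μ s) {c₂ C : ℝ} {n₀ : ℕ} (h : In μ s c₂ C n₀) {K : ℕ} (hK : 32 ≤ K) {a : ℝ}
    (ha : 0 < a) : Est fun ι β γ m => DenS59 μ s (frm33 μ s K ι β γ) (EE μ s) a m := by
  have hK0 : (0 : ℝ) < K := by
    have : (32 : ℝ) ≤ K := by exact_mod_cast hK
    linarith
  obtain ⟨δ₁, hδ₁, N₀, hD⟩ := Den33.den33_avy hLB h (show 0 < a / K by positivity)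
  refine Est.of_ev (P := fun m => avy (ys33 μ s K m) (varF μ s (L33 K m) (Sn (L33 K m) (2 ^ m))) ≤
    ((2 ^ m : ℕ) : ℝ) ^ a * EE μ s (2 ^ m) ^ 3) ?_
  filter_upwards [ev_L (by omega : 1 ≤ K) N₀, cone33 h hK hδ₁] with m h2 h3
  have h4 := hD (L33 K m) h2 (2 ^ m) Nat.one_le_two_pow (L33_ge (by omega) m) (ys33 μ s K m) fun y hy => by
    have h5 := mem_Ico.1 (show y ∈ Ico (y33 μ s K m) (y33 μ s K m + M33 m) from hy)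
    exact h3.2.2 y (by omega) (by omega)
  have e1 : (L33 K m : ℝ) ^ (a / K) = ((2 ^ m : ℕ) : ℝ) ^ a := by
    rw [L33_pow]
    congr 1
    field_simp
  rw [e1] at h4
  exact h4

/-- **Half of the rows are kicked**: `RowS59`. -/
theorem rows33 {K : ℕ} : Est fun ι β γ m => RowS59 (frm33 μ s K ι β γ) m :=
  Sml.of fun _ hι => Sml.of fun _ _ => Sml.of fun _ _ => card_Kr_ev hι

/-- **The contract `TopN` at the concrete frame**, from `CrN`. -/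
theorem topn33 [IsProbabilityMeasure μ] (hLB : LB20 μ s) {c₂ C : ℝ} {n₀ : ℕ} (h : In μ s c₂ C n₀) (hk : KapLe96 (EE μ s) (1 / 4))
    (hcl : ClipP μ s) {K : ℕ} (hK : 32 ≤ K) {Θ δ c c₁ : ℝ} (hΘ : 0 < Θ) (hδ : 0 < δ) (hc : 0 ≤ c) (hcδ : c ≤ δ / 64) (hc₁ : 0 < c₁)
    (hCr : Est fun ι β γ m => CrN μ s (frm33 μ s K ι β γ) (EE μ s) Θ δ c c₁ m) :
    ∀ ε : ℝ, 0 < ε → Est fun ι β γ m => TopN μ s (frm33 μ s K ι β γ) (EE μ s) Θ δ c c₁ ε m :=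
  topN_est59 (fun n => EE_pos n) hc₁ (ok33 (by omega) hΘ) hCr rows33 (fls33 h hk hcl hK hδ hc hcδ) fun _ ha => dens33 hLB h hK ha

/-- **WHAT IS LEFT AT THE CONCRETE FRAME**: the cross terms and the change of base. -/
theorem dlv33 [IsProbabilityMeasure μ] (hLB : LB20 μ s) {c₂ C : ℝ} {n₀ : ℕ} (h : In μ s c₂ C n₀) (hk : KapLe96 (EE μ s) (1 / 4))
    (hcl : ClipP μ s) {K : ℕ} (hK : 32 ≤ K) {Θ δ c c₁ : ℝ} (hΘ : 0 < Θ) (hδ : 0 < δ) (hc : 0 ≤ c) (hcδ : c ≤ δ / 64) (hc₁ : 0 < c₁)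
    (hCr : Est fun ι β γ m => CrN μ s (frm33 μ s K ι β γ) (EE μ s) Θ δ c c₁ m)
    (hCh : ∀ η : ℝ, 0 < η → η ≤ c / 64 → ∃ c₂ : ℝ, 0 < c₂ ∧
      (Est fun ι β γ m => SigN μ s (frm33 μ s K ι β γ) (EE μ s) Θ δ c η c₂ m) ∧
        Est fun ι β γ m => BasN μ s (frm33 μ s K ι β γ) (EE μ s) Θ δ c η c₂ m) :
    Dlv96 μ s (frm33 μ s K) (EE μ s) Θ δ c c₁ where
  ok := ok33 (by omega) hΘ
  deep := deep33 h hk hδ hc hcδ
  cr := hCr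
  fl := fln33 h hk hcl hK hδ hc hcδ
  chg := hCh
  top := topn33 hLB h hk hcl hK hΘ hδ hc hcδ hc₁ hCr

end

end Pool.Agent.W_7d29a1_C0.Frm33
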