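import Pool.Agent.W_7d29a1_C0.PrM14
import Pool.Agent.W_7d29a1_C0.Frm33B

/-!
MP_7d29a1_pr, [CURV0], leaf E5 / N1B (helper14): THE PRICE OF THE PATHS WHICH ARE NOT STRAIGHT. `bd_price`: the mean mass of `bd14` in the
pinned model is at most `2 exp (- N ^ c')`; `bdF14`: at the frame, for tubes of the width `n ^ ζ wd' (2 ^ p')` over windows of the length
`2 ^ p'`.
-/

set_option autoImplicit false
set_option linter.unusedSectionVars false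
set_option linter.unusedVariables false

namespace Pool.W7d29a1.C0.PM14

open Finset Filter Topology MeasureTheory
open Pool.Agent.W_7d29a1_F Pool.Agent.W_7d29a1_X
open Pool.Agent.W_7d29a1_H (sl)
open Pool.Agent.W_7d29a1_HS (In wd)
open Pool.Agent.W_7d29a1_HZ (wd')
open Pool.Agent.W_7d29a1_C0 Pool.W7d29a1.C0 Pool.W7d29a1.C0.VT31
open Pool.Agent.W_7d29a1_C0.Mod92 Pool.Agent.W_7d29a1_C0.Frm33
open Pool.Agent.W_7d29a1_C0.LocM18 (Ns LocB locM18 Cna)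
open Pool.Agent.W_7d29a1_C0.InT57

noncomputable section

variable {μ : Measure ℝ} {s : ℝ} [IsProbabilityMeasure μ] {c0 C0 : ℝ} {n0 : ℕ}

/-- **The mean mass of the paths which are not straight**, pinned model. -/
theorem bd_price (h : In μ s c0 C0 n0) {ε : ℝ} (hε : 0 < ε) : ∃ δ' c' : ℝ, 0 < δ' ∧ 0 < c' ∧
    ∃ N₀ : ℕ, ∀ N : ℕ, N₀ ≤ N → ∀ y : ℕ, y ≤ N → |(y : ℝ) - sl μ s * N| ≤ (N : ℝ) ^ δ' * wd' μ s N →
    ∀ (_ : Nonempty (Px (Pn N y))) (J : Finset ℕ) (zl zr lo hi k0 : ℕ), (∀ i ∈ J ∪ Icc zl zr, lo ≤ i ∧ i ≤ hi) → lo ≤ k0 → k0 ≤ hi →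
    hi ≤ N → ∀ R : ℝ, 0 ≤ R → (∀ k : ℕ, 1 ≤ k → k ≤ hi - lo → (N : ℝ) ^ ε * wd' μ s k ≤ R / 4) →
    ∫ η, gm (lw μ s η N (Pn N y)) (bd14 (sl μ s) R k0 J zl zr) ∂(law μ) ≤ 2 * Real.exp (-(N : ℝ) ^ c') := by
  classical
  obtain ⟨δ, δ', c', hδ, hδ', hc', N₀, hN₀⟩ := locM18 h (κ := 1) one_pos le_rfl ε hε
  refine ⟨δ', c', hδ', hc', N₀, fun N hN y hy hyc hne J zl zr lo hi k0 hJ h0 h1 hi' R hR0 hR => ?_⟩
  have := hne
  obtain ⟨φ, hφ⟩ : ∃ φ : Px (Pn N y) → ℝ, φ = bd14 (sl μ s) R k0 J zl zr := ⟨_, rfl⟩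
  have f0 : ∀ S, 0 ≤ φ S := fun S => by
    rw [hφ]
    exact bd14_nonneg _ _ _ _ _ _ _
  have f1 : ∀ S, φ S ≤ 1 := fun S => by
    rw [hφ]
    exact bd14_le_one _ _ _ _ _ _ _
  have mlw : Measurable fun η => lw μ s η N (Pn N y) := measurable_pi_lambda _ fun S => meas_lw S
  have mg : Measurable fun η => gm (lw μ s η N (Pn N y)) φ := by
    unfold gm gz
    refine Measurable.div ?_ ?_
    · exact Finset.measurable_sum _ fun S _ => ((measurable_pi_apply S).comp mlw).exp.mul_const _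
    · exact Finset.measurable_sum _ fun S _ => ((measurable_pi_apply S).comp mlw).exp
  have g0 : ∀ w : Px (Pn N y) → ℝ, 0 ≤ gm w φ := fun w => gm_nonneg w f0
  have g1 : ∀ w : Px (Pn N y) → ℝ, gm w φ ≤ 1 := fun w =>
    (gm_mono w (g := fun _ => (1 : ℝ)) f1).trans_eq (gm_const w 1)
  rw [← hφ]
  have k1 : ∫ η, gm (lw μ s η N (Pn N y)) φ ∂(law μ) ≤ Real.exp (-(N : ℝ) ^ c') + Real.exp (-(N : ℝ) ^ c') := by
    refine int_off57 mg (fun η => g0 _) (fun η => g1 _) (Real.exp_pos _).le (Real.exp_pos _).le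
      (G := fun η => LocB μ s N 1 δ δ' ε c' η) (fun η hη => ?_) (hN₀ N hN)
    refine le_trans (gm_mono _ fun S => ?_) (hη.2.1 y hy hyc)
    rw [hφ]
    exact bend_le_Ns hJ h0 h1 hi' (by positivity) hR
  linarith

/-- **At the frame.** -/
theorem bdF14 (h : In μ s c0 C0 n0) {K : ℕ} (hK : 32 ≤ K) {ζ : ℝ} (hζ : 0 < ζ) : ∃ c₂ : ℝ, 0 < c₂ ∧ ∀ᶠ m : ℕ in atTop,
    ∀ y ∈ ys33 μ s K m, ∀ (_ : Nonempty (Px (Pn (L33 K m) y))) (p' : ℕ) (J : Finset ℕ) (zl zr lo hi k0 : ℕ),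
    (∀ i ∈ J ∪ Icc zl zr, lo ≤ i ∧ i ≤ hi) → lo ≤ k0 → k0 ≤ hi → hi ≤ L33 K m → hi ≤ lo + 2 ^ p' →
    ∫ η, gm (lw μ s η (L33 K m) (Pn (L33 K m) y)) (bd14 (sl μ s) (((2 ^ m : ℕ) : ℝ) ^ ζ * wd' μ s (2 ^ p')) k0 J zl zr) ∂(law μ) ≤
      Real.exp (-(((2 ^ m : ℕ) : ℝ) ^ c₂)) := by
  have hK0 : (0 : ℝ) < K := by
    have : (32 : ℝ) ≤ K := by exact_mod_cast hK
    linarith
  have hK1 : (1 : ℝ) ≤ K := by
    have : (32 : ℝ) ≤ K := by exact_mod_cast hK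
    linarith
  obtain ⟨δ', c', hδ', hc', N₀, hP⟩ := bd_price h (show 0 < ζ / 2 / K by positivity)
  obtain ⟨a, K', ha, ha1, hK', hw⟩ := Pool.Agent.W_7d29a1_HZ.wd'_pow h
  refine ⟨c' / 2, by positivity, ?_⟩
  filter_upwards [cone33 h hK hδ', ev_L (by omega : 1 ≤ K) N₀, ev_n (show 0 < ζ / 2 by positivity) (4 * K'),
    ev_n (show 0 < c' / 2 by positivity) 2] with m h1 h2 h3 h4
  intro y hy hne p' J zl zr lo hi k0 hJ h5 h6 h7 h8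
  obtain ⟨n, hn⟩ : ∃ n : ℝ, n = ((2 ^ m : ℕ) : ℝ) := ⟨_, rfl⟩
  have hn1 : 1 ≤ n := hn ▸ n_ge1 m
  have hn0 : 0 < n := by linarith
  have hy2 := mem_Ico.1 (show y ∈ Ico (y33 μ s K m) (y33 μ s K m + M33 m) from hy)
  obtain ⟨hyL, hyc⟩ := h1.2.2 y (by omega) (by omega)
  have eL : ((L33 K m : ℕ) : ℝ) ^ (ζ / 2 / K) = n ^ (ζ / 2) := by
    rw [L33_pow, ← hn]
    congr 1
    field_simp
  have eL2 : n ^ c' ≤ ((L33 K m : ℕ) : ℝ) ^ c' := by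
    rw [L33_pow, ← hn]
    exact Real.rpow_le_rpow_of_exponent_le hn1 (le_mul_of_one_le_left hc'.le hK1)
  rw [← hn] at h3 h4 ⊢
  have hwp : 1 ≤ wd' μ s (2 ^ p') := le_max_left _ _
  have key := hP (L33 K m) h2 y hyL hyc hne J zl zr lo hi k0 hJ h5 h6 h7 (n ^ ζ * wd' μ s (2 ^ p')) (by positivity) fun k hk1 hk2 => by
    rw [eL]
    have e1 := (hw k (2 ^ p') hk1 (by omega)).1
    have e2 : n ^ (ζ / 2) * n ^ (ζ / 2) = n ^ ζ := by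
      rw [← Real.rpow_add hn0, add_halves]
    have e3 : 0 < n ^ (ζ / 2) := Real.rpow_pos_of_pos hn0 _
    calc n ^ (ζ / 2) * wd' μ s k ≤ n ^ (ζ / 2) * (K' * wd' μ s (2 ^ p')) := mul_le_mul_of_nonneg_left e1 e3.le
      _ = n ^ (ζ / 2) * (4 * K') * wd' μ s (2 ^ p') / 4 := by ring
      _ ≤ n ^ (ζ / 2) * n ^ (ζ / 2) * wd' μ s (2 ^ p') / 4 := by gcongr
      _ = _ := by rw [e2]
  refine key.trans ?_
  have f0 : n ^ (c' / 2) * n ^ (c' / 2) = n ^ c' := by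
    rw [← Real.rpow_add hn0, add_halves]
  have f1 : 0 ≤ n ^ (c' / 2) := Real.rpow_nonneg hn0.le _
  have f2 : n ^ (c' / 2) + 1 ≤ n ^ c' := by
    have := mul_le_mul_of_nonneg_right h4 f1
    linarith
  have f3 : (2 : ℝ) ≤ Real.exp 1 := by
    have := Real.add_one_le_exp (1 : ℝ)
    linarith
  calc 2 * Real.exp (-(((L33 K m : ℕ) : ℝ)) ^ c') ≤ Real.exp 1 * Real.exp (-(n ^ c')) := by
        refine mul_le_mul f3 (Real.exp_le_exp.2 (neg_le_neg eL2)) (Real.exp_pos _).le (Real.exp_pos _).le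
    _ = Real.exp (1 - n ^ c') := by rw [← Real.exp_add]; ring_nf
    _ ≤ Real.exp (-(n ^ (c' / 2))) := Real.exp_le_exp.2 (by linarith)

end

end Pool.W7d29a1.C0.PM14
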