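import Pool.Agent.W_7d29a1_C0.FarU57
import Pool.Agent.W_7d29a1_C0.LocM18

/-!
MP_7d29a1_pr, [CURV0] (helper57), leaf (T): THE SMALL TERM of TL3. A path which has no steep piece on the scale `N` is straight over
every stretch of rows, in tubes of the width `N ^ ε wd' (length)`. `bnt57_le`: the mass of the other ones, under the tilted measure of
the pinned model, is at most `2 exp (2 D' - N ^ c')`.
-/

set_option autoImplicit false
set_option linter.unusedSectionVars false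
set_option linter.unusedVariables false

namespace Pool.Agent.W_7d29a1_C0.InT57

open Finset MeasureTheory Pool.Agent.W_7d29a1_F Pool.Agent.W_7d29a1_X
open Pool.Agent.W_7d29a1_H (sl)
open Pool.Agent.W_7d29a1_HS (In wd)
open Pool.Agent.W_7d29a1_HZ (wd')
open Pool.Agent.W_7d29a1_C0.Mod92 Pool.Agent.W_7d29a1_C0.H32 Pool.Agent.W_7d29a1_C0.FP63 Pool.Agent.W_7d29a1_C0.Blk18
open Pool.Agent.W_7d29a1_C0.LocM18 (Ns LocB locM18 Cna)
open Pool.W7d29a1.C0 Pool.W7d29a1.C0.VT31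
open Pool.W7d29a1.C0.T73 (Vis dl chT bx OutB Str)

noncomputable section

variable {μ : Measure ℝ} {s : ℝ} {N : ℕ} {Q : Finset (Finset ℕ)}

/-- **No steep piece: straight.** -/
theorem Str_of_Ns57 {S : Px Q} {ε R : ℝ} (h : Ns μ s ε 0 N S) {J : Finset ℕ} {lo hi k0 : ℕ} (hJ : ∀ i ∈ J, lo ≤ i ∧ i ≤ hi)
    (h0 : lo ≤ k0) (h1 : k0 ≤ hi) (hi' : hi ≤ N) (hR0 : 0 ≤ R)
    (hR : ∀ k : ℕ, 1 ≤ k → k ≤ hi - lo → (N : ℝ) ^ ε * wd' μ s k ≤ R) : Str pz (sl μ s) R (k0 : ℤ) (JZ J) S := by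
  have key : ∀ i j : ℕ, lo ≤ i → i ≤ j → j ≤ hi → |((ps S j - ps S i : ℤ) : ℝ) - sl μ s * ((j : ℝ) - i)| ≤ R := by
    intro i j hi1 hij hj1
    rcases Nat.eq_or_lt_of_le hij with he | hl
    · rw [he, sub_self, sub_self, mul_zero, Int.cast_zero, sub_zero, abs_zero]
      exact hR0
    · have h2 := h i (j - i) (by omega) (Nat.zero_le _) (by omega)
      rw [show i + (j - i) = j by omega, Nat.sub_zero] at h2
      have h3 := h2.trans (hR (j - i) (by omega) (by omega))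
      rwa [Nat.cast_sub hij] at h3
  intro m hm
  obtain ⟨i, hiJ, rfl⟩ := mem_image.1 hm
  obtain ⟨h2, h3⟩ := hJ i hiJ
  unfold dl pz
  simp only [Int.toNat_natCast]
  rcases le_total k0 i with h4 | h4
  · have h5 := key k0 i h0 h4 h3
    refine le_trans (le_of_eq ?_) h5
    congr 1
    push_cast
    ring
  · have h5 := key i k0 h2 h4 h1
    rw [← abs_neg] at h5
    refine le_trans (le_of_eq ?_) h5
    congr 1
    push_cast
    ring

open Classical in
theorem bend_le_Ns {S : Px Q} {ε R : ℝ} {κ δ : ℝ} {J : Finset ℕ} {lo hi k0 : ℕ} (hJ : ∀ i ∈ J, lo ≤ i ∧ i ≤ hi)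
    (h0 : lo ≤ k0) (h1 : k0 ≤ hi) (hi' : hi ≤ N) (hR0 : 0 ≤ R)
    (hR : ∀ k : ℕ, 1 ≤ k → k ≤ hi - lo → (N : ℝ) ^ ε * wd' μ s k ≤ R) :
    bend57 (sl μ s) R (k0 : ℤ) J S ≤ if Ns μ s ε 0 N S ∧ Cna μ s N κ δ S then 0 else 1 := by
  unfold bend57
  by_cases h : Ns μ s ε 0 N S ∧ Cna μ s N κ δ S
  · rw [if_pos (Str_of_Ns57 h.1 hJ h0 h1 hi' hR0 hR), if_pos h]
  · rw [if_neg h]
    split_ifs <;> norm_num

/-- A bounded tilt changes the mean of a nonnegative functional by a factor. -/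
theorem gm_tilt57 {X : Type*} [Fintype X] [Nonempty X] {w w' : X → ℝ} {D : ℝ} (h : ∀ x, |w' x - w x| ≤ D) {φ : X → ℝ}
    (hφ : ∀ x, 0 ≤ φ x) : gm w' φ ≤ Real.exp (2 * D) * gm w φ := by
  have h1 : ∑ x, Real.exp (w' x) * φ x ≤ Real.exp D * ∑ x, Real.exp (w x) * φ x := by
    rw [mul_sum]
    refine sum_le_sum fun x _ => ?_
    rw [← mul_assoc, ← Real.exp_add]
    refine mul_le_mul_of_nonneg_right (Real.exp_le_exp.2 ?_) (hφ x)
    have := (abs_le.1 (h x)).2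
    linarith
  have h2 : Real.exp (-D) * gz w ≤ gz w' := by
    unfold gz
    rw [mul_sum]
    refine sum_le_sum fun x _ => ?_
    rw [← Real.exp_add]
    refine Real.exp_le_exp.2 ?_
    have := (abs_le.1 (h x)).1
    linarith
  have h3 := gz_pos w
  have h4 : 0 < Real.exp (-D) * gz w := mul_pos (Real.exp_pos _) h3
  have h5 : 0 ≤ Real.exp D * ∑ x, Real.exp (w x) * φ x :=
    mul_nonneg (Real.exp_pos _).le (sum_nonneg fun x _ => mul_nonneg (Real.exp_pos _).le (hφ x))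
  unfold gm
  refine (div_le_div₀ h5 h1 h4 h2).trans_eq ?_
  rw [show (2 : ℝ) * D = D + D by ring, Real.exp_add, Real.exp_neg]
  field_simp

/-- A measurable function in `[0, 1]` which is at most `e` off a small set. -/
theorem int_off57 {Ω : Type*} [MeasurableSpace Ω] {P : Measure Ω} [IsProbabilityMeasure P] {g : Ω → ℝ} (hm : Measurable g)
    (h0 : ∀ ω, 0 ≤ g ω) (h1 : ∀ ω, g ω ≤ 1) {e p : ℝ} (hp : 0 ≤ p) (he : 0 ≤ e) {G : Ω → Prop} (hG : ∀ ω, G ω → g ω ≤ e)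
    (hP : P {ω | ¬ G ω} ≤ ENNReal.ofReal p) : ∫ ω, g ω ∂P ≤ e + p := by
  have hS : MeasurableSet {ω | e < g ω} := measurableSet_lt measurable_const hm
  have h2 : ∀ ω, g ω ≤ e + Set.indicator {ω | e < g ω} (fun _ => (1 : ℝ)) ω := fun ω => by
    by_cases h : e < g ω
    · rw [Set.indicator_of_mem (show ω ∈ {ω | e < g ω} from h)]
      linarith [h1 ω]
    · rw [Set.indicator_of_notMem (show ω ∉ {ω | e < g ω} from h), add_zero]
      exact not_lt.1 h
  have i1 : Integrable g P := Integrable.of_bound hm.aestronglyMeasurable 1 (Filter.Eventually.of_forall fun ω => by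
    rw [Real.norm_eq_abs, abs_of_nonneg (h0 ω)]
    exact h1 ω)
  have i2 : Integrable (Set.indicator {ω | e < g ω} fun _ => (1 : ℝ)) P := (integrable_const 1).indicator hS
  have h3 : ∫ ω, g ω ∂P ≤ ∫ ω, (e + Set.indicator {ω | e < g ω} (fun _ => (1 : ℝ)) ω) ∂P :=
    integral_mono i1 ((integrable_const e).add i2) h2
  refine h3.trans ?_
  rw [integral_add (integrable_const e) i2, integral_const, probReal_univ, one_smul, integral_indicator hS,
    setIntegral_const, smul_eq_mul, mul_one]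
  refine add_le_add le_rfl ?_
  have h4 : P {ω | e < g ω} ≤ ENNReal.ofReal p := (measure_mono fun ω hω => by
    show ¬ G ω
    intro h
    exact absurd (hG ω h) (not_le.2 hω)).trans hP
  exact ENNReal.toReal_le_of_le_ofReal hp h4

variable [IsProbabilityMeasure μ]

/-- **THE SMALL TERM OF TL3**, pinned model. -/
theorem bnt57_le {c0 C0 : ℝ} {n0 : ℕ} (h : In μ s c0 C0 n0) {ε : ℝ} (hε : 0 < ε) : ∃ δ' c' : ℝ, 0 < δ' ∧ 0 < c' ∧
    ∃ N₀ : ℕ, ∀ N : ℕ, N₀ ≤ N → ∀ y : ℕ, y ≤ N → |(y : ℝ) - sl μ s * N| ≤ (N : ℝ) ^ δ' * wd' μ s N →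
    ∀ (_ : Nonempty (Px (Pn N y))) (A : Env → (ℕ → ℤ) → ℝ) (al be : ℕ) (D' : ℝ), WF al be D' A →
    ∀ (J : Finset ℕ) (z z' lo hi k0 : ℕ), (∀ i ∈ insert z (insert z' J), lo ≤ i ∧ i ≤ hi) → lo ≤ k0 → k0 ≤ hi → hi ≤ N →
    ∀ R : ℝ, 0 ≤ R → (∀ k : ℕ, 1 ≤ k → k ≤ hi - lo → (N : ℝ) ^ ε * wd' μ s k ≤ R / 4) →
    bnt57 μ s N (Pn N y) A J z z' (sl μ s) R (k0 : ℤ) ≤ 2 * Real.exp (2 * D' - (N : ℝ) ^ c') := by
  classical
  obtain ⟨δ, δ', c', hδ, hδ', hc', N₀, hN₀⟩ := locM18 h (κ := 1) one_pos le_rfl ε hε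
  refine ⟨δ', c', hδ', hc', N₀, fun N hN y hy hyc hne A al be D' hA J z z' lo hi k0 hJ h0 h1 hi' R hR0 hR => ?_⟩
  haveI := hne
  have hD : 0 ≤ D' := (abs_nonneg _).trans (hA.bd (fun _ => 0) fun _ => 0)
  obtain ⟨φ, hφ⟩ : ∃ φ : Px (Pn N y) → ℝ, φ = bend57 (sl μ s) (R / 4) (k0 : ℤ) (insert z (insert z' J)) := ⟨_, rfl⟩
  have f0 : ∀ S, 0 ≤ φ S := fun S => by
    rw [hφ]
    exact bend57_nonneg _ _ _ _ _
  have f1 : ∀ S, φ S ≤ 1 := fun S => by
    rw [hφ]
    exact bend57_le_one _ _ _ _ _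
  have mlw : Measurable fun η => lw μ s η N (Pn N y) := measurable_pi_lambda _ fun S => meas_lw S
  have mg : Measurable fun η => gm (lw μ s η N (Pn N y)) φ := by
    unfold gm gz
    refine Measurable.div ?_ ?_
    · exact Finset.measurable_sum _ fun S _ => ((measurable_pi_apply S).comp mlw).exp.mul_const _
    · exact Finset.measurable_sum _ fun S _ => ((measurable_pi_apply S).comp mlw).exp
  have mgA : Measurable fun η => gm (lA μ s N (Pn N y) A η) φ := by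
    have mA : Measurable fun η => lA μ s N (Pn N y) A η := mlw.add (at2_meas hA)
    unfold gm gz
    refine Measurable.div ?_ ?_
    · exact Finset.measurable_sum _ fun S _ => ((measurable_pi_apply S).comp mA).exp.mul_const _
    · exact Finset.measurable_sum _ fun S _ => ((measurable_pi_apply S).comp mA).exp
  have g0 : ∀ w : Px (Pn N y) → ℝ, 0 ≤ gm w φ := fun w => gm_nonneg w f0
  have g1 : ∀ w : Px (Pn N y) → ℝ, gm w φ ≤ 1 := fun w =>
    (gm_mono w (g := fun _ => (1 : ℝ)) f1).trans_eq (gm_const w 1)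
  have k1 : ∫ η, gm (lw μ s η N (Pn N y)) φ ∂(law μ) ≤ Real.exp (-(N : ℝ) ^ c') + Real.exp (-(N : ℝ) ^ c') := by
    refine int_off57 mg (fun η => g0 _) (fun η => g1 _) (Real.exp_pos _).le (Real.exp_pos _).le
      (G := fun η => LocB μ s N 1 δ δ' ε c' η) (fun η hη => ?_) (hN₀ N hN)
    refine le_trans (gm_mono _ fun S => ?_) (hη.2.1 y hy hyc)
    rw [hφ]
    exact bend_le_Ns hJ h0 h1 hi' (by positivity) hR
  have k2 : bnt57 μ s N (Pn N y) A J z z' (sl μ s) R (k0 : ℤ) ≤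
      Real.exp (2 * D') * ∫ η, gm (lw μ s η N (Pn N y)) φ ∂(law μ) := by
    unfold bnt57
    rw [← hφ, ← integral_const_mul]
    have i1 : ∀ {g : Env → ℝ}, Measurable g → (∀ η, 0 ≤ g η) → (∀ η, g η ≤ 1) → Integrable g (law μ) := fun hm a b =>
      Integrable.of_bound hm.aestronglyMeasurable 1 (Filter.Eventually.of_forall fun η => by
        rw [Real.norm_eq_abs, abs_of_nonneg (a η)]
        exact b η)
    refine integral_mono (i1 mgA (fun _ => g0 _) fun _ => g1 _) ((i1 mg (fun _ => g0 _) fun _ => g1 _).const_mul _) fun η => ?_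
    refine gm_tilt57 (fun S => ?_) f0
    show |lA μ s N (Pn N y) A η S - lw μ s η N (Pn N y) S| ≤ D'
    unfold lA
    rw [Pi.add_apply, add_sub_cancel_left]
    exact hA.bd η _
  refine k2.trans ((mul_le_mul_of_nonneg_left k1 (Real.exp_pos _).le).trans_eq ?_)
  rw [sub_eq_add_neg, Real.exp_add]
  ring

end

end Pool.Agent.W_7d29a1_C0.InT57
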