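import Pool.Agent.W_7d29a1_C0.Rep41

/-!
CURV0 (MP_7d29a1_pr), section SM: the slab derivative LOCALISED at the replicas. The field `c` over the slab `S` is cut off
by the deterministic functions `χ β : Pt → [0,1]`, `β` = the boxes (at one row) of the `m` replicas of the functional. The cost is
`∑ (χ β c)²`, and the rest is the same functional with one more replica, which visits the slab outside of the boxes. (helper41)
-/

set_option autoImplicit false
set_option linter.unusedSectionVars false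
set_option linter.unusedVariables false

namespace Pool.W7d29a1.C0.H41

open MeasureTheory ProbabilityTheory Filter Topology Finset
open Pool.Agent.W_7d29a1_F Pool.Agent.W_7d29a1_C0.H32 Pool.W7d29a1.C0

noncomputable section

variable {X : Type*} [Fintype X] [Nonempty X] {B : Type*} [Fintype B] [DecidableEq B]

/-- The part of `Ψ` with the replicas in the boxes `β`. -/
def lc {m : ℕ} (b : X → B) (β : Fin m → B) (Ψ : (Fin m → X) → ℝ) : (Fin m → X) → ℝ :=
  fun x => if (fun i => b (x i)) = β then Ψ x else 0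

/-- The insertion of a function which depends on the boxes of the replicas. -/
def nR {m : ℕ} (b : X → B) (R : (Fin m → B) → X → ℝ) (Ψ : (Fin m → X) → ℝ) : (Fin (m + 1) → X) → ℝ :=
  fun x => nxt (R fun i => b (x i.succ)) Ψ x

theorem sum_lc {m : ℕ} (b : X → B) (Ψ : (Fin m → X) → ℝ) (x : Fin m → X) : ∑ β, lc b β Ψ x = Ψ x := by
  unfold lc
  rw [Finset.sum_ite_eq]
  simp

theorem sum_abs_lc {m : ℕ} (b : X → B) (Ψ : (Fin m → X) → ℝ) (x : Fin m → X) : ∑ β, |lc b β Ψ x| = |Ψ x| := by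
  have e : ∀ β : Fin m → B, |lc b β Ψ x| = if (fun i => b (x i)) = β then |Ψ x| else 0 := fun β => by
    unfold lc
    split_ifs with h
    · rfl
    · exact abs_zero
  rw [Finset.sum_congr rfl fun β _ => e β, Finset.sum_ite_eq]
  simp

theorem abs_lc_le {m : ℕ} (b : X → B) (β : Fin m → B) (Ψ : (Fin m → X) → ℝ) (x : Fin m → X) : |lc b β Ψ x| ≤ |Ψ x| := by
  unfold lc
  split_ifs
  · exact le_rfl
  · rw [abs_zero]
    exact abs_nonneg _

theorem sum_nxt_lc {m : ℕ} (b : X → B) (A : (Fin m → B) → X → ℝ) (Ψ : (Fin m → X) → ℝ) (x : Fin (m + 1) → X) :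
    ∑ β, nxt (A β) (lc b β Ψ) x = nR b A Ψ x := by
  have e : ∀ β : Fin m → B, nxt (A β) (lc b β Ψ) x =
      if (fun i => b (x i.succ)) = β then nxt (A β) Ψ x else 0 := fun β => by
    unfold nxt lc
    have h1 : (fun i => b (Fin.tail x i)) = fun i => b (x i.succ) := rfl
    rw [h1]
    split_ifs with h
    · rfl
    · rw [zero_mul]
  rw [Finset.sum_congr rfl fun β _ => e β, Finset.sum_ite_eq]
  simp [nR]

theorem nxt_addA {m : ℕ} (A A' : X → ℝ) (Ψ : (Fin m → X) → ℝ) (x : Fin (m + 1) → X) :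
    nxt (A + A') Ψ x = nxt A Ψ x + nxt A' Ψ x := by
  unfold nxt
  simp only [Pi.add_apply]
  rw [Finset.sum_add_distrib]
  ring

/-- **The pathwise decomposition** of an insertion. -/
theorem nxt_box {m : ℕ} (b : X → B) {T : X → ℝ} {C R : (Fin m → B) → X → ℝ} (h : ∀ β, T = C β + R β)
    (Ψ : (Fin m → X) → ℝ) (x : Fin (m + 1) → X) :
    nxt T Ψ x = ∑ β, nxt (C β) (lc b β Ψ) x + nR b R Ψ x := by
  rw [sum_nxt_lc]
  unfold nR
  rw [← nxt_addA, ← h]

theorem meas_lc {m : ℕ} (b : X → B) (β : Fin m → B) {Ψ : Env → (Fin m → X) → ℝ} (hΨ : Measurable Ψ) :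
    Measurable fun η => lc b β (Ψ η) := by
  refine measurable_pi_lambda _ fun x => ?_
  unfold lc
  by_cases h : (fun i => b (x i)) = β
  · simp only [h, if_true]
    exact (measurable_pi_apply x).comp hΨ
  · simp only [h, if_false]
    exact measurable_const

theorem Ob.lc {m : ℕ} {Ψ : Env → (Fin m → X) → ℝ} {D : ℝ} (h : Ob Ψ D) (b : X → B) (β : Fin m → B) :
    Ob (fun η => lc b β (Ψ η)) D :=
  ⟨meas_lc b β h.meas, fun η x => (abs_lc_le b β (Ψ η) x).trans (h.bd η x)⟩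

theorem Ob.nxt {m : ℕ} {Ψ : Env → (Fin m → X) → ℝ} {D : ℝ} (h : Ob Ψ D) {A : Env → X → ℝ} (hA : Measurable A) {a : ℝ}
    (ha : ∀ η y, |A η y| ≤ a) : Ob (fun η => nxt (A η) (Ψ η)) (D * (2 * m * a)) :=
  ⟨meas_nxt hA h.meas, fun η x => abs_nxt_le (ha η) (h.bd η) x⟩

theorem meas_nR {m : ℕ} (b : X → B) {R : Env → (Fin m → B) → X → ℝ} {Ψ : Env → (Fin m → X) → ℝ}
    (hR : ∀ β, Measurable fun η => R η β) (hΨ : Measurable Ψ) : Measurable fun η => nR b (R η) (Ψ η) := by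
  refine measurable_pi_lambda _ fun x => ?_
  have h := meas_nxt (hR fun i => b (x i.succ)) hΨ
  exact (measurable_pi_apply x).comp h

theorem Ob.nR {m : ℕ} {Ψ : Env → (Fin m → X) → ℝ} {D : ℝ} (h : Ob Ψ D) (b : X → B) {R : Env → (Fin m → B) → X → ℝ}
    (hR : ∀ β, Measurable fun η => R η β) {a : ℝ} (ha : ∀ η β y, |R η β y| ≤ a) :
    Ob (fun η => nR b (R η) (Ψ η)) (D * (2 * m * a)) :=
  ⟨meas_nR b hR h.meas, fun η x => abs_nxt_le (ha η _) (h.bd η) x⟩

theorem Ob.abs {m : ℕ} {Ψ : Env → (Fin m → X) → ℝ} {D : ℝ} (h : Ob Ψ D) : Ob (fun η x => |Ψ η x|) D := by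
  refine ⟨measurable_pi_lambda _ fun x => ?_, fun η x => by rw [abs_abs]; exact h.bd η x⟩
  have h1 : Measurable fun η => Ψ η x := (measurable_pi_apply x).comp h.meas
  have h2 := h1.norm
  simpa [Real.norm_eq_abs] using h2

theorem Ob.int {μ : Measure ℝ} [IsProbabilityMeasure μ] {m : ℕ} {Ψ : Env → (Fin m → X) → ℝ} {D : ℝ} (h : Ob Ψ D)
    {w : Env → X → ℝ} (hw : Measurable w) : Integrable (fun η => rep m (w η) (Ψ η)) (law μ) :=
  (memLp_of_bd (meas_rep hw h.meas) fun η => abs_rep_le_of m (w η) (h.bd η)).integrable (by norm_num)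

theorem meas_Cf {S : Finset Pt} {c : Pt → Env → ℝ} (hc : ∀ p ∈ S, Measurable (c p)) (N : Pt → X → ℝ) :
    Measurable fun η => H19.Cf S c N η := by
  refine measurable_pi_lambda _ fun x => ?_
  unfold H19.Cf
  simp only [Finset.sum_apply, Pi.smul_apply, smul_eq_mul]
  exact Finset.measurable_sum _ fun p hp => (hc p hp).mul_const _

theorem abs_Cf_le {S : Finset Pt} {c : Pt → Env → ℝ} {N : Pt → X → ℝ} {M V : ℝ} (hc : ∀ p ∈ S, ∀ η, |c p η| ≤ M)
    (hN : ∀ p ∈ S, ∀ y, |N p y| ≤ V) (η : Env) (y : X) : |H19.Cf S c N η y| ≤ S.card * (M * V) := by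
  unfold H19.Cf
  simp only [Finset.sum_apply, Pi.smul_apply, smul_eq_mul]
  refine (Finset.abs_sum_le_sum_abs _ _).trans ((Finset.sum_le_card_nsmul _ _ (M * V) fun p hp => ?_).trans_eq
    (by rw [nsmul_eq_mul]))
  rw [abs_mul]
  exact mul_le_mul (hc p hp η) (hN p hp y) (abs_nonneg _) ((abs_nonneg _).trans (hc p hp η))

/-- The localised field. -/
def cut (χ : Pt → ℝ) (c : Pt → Env → ℝ) : Pt → Env → ℝ := fun p η => χ p * c p η

/-- The rest of the field. -/
def cut' (χ : Pt → ℝ) (c : Pt → Env → ℝ) : Pt → Env → ℝ := fun p η => (1 - χ p) * c p η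

theorem Cf_split (χ : Pt → ℝ) (S : Finset Pt) (c : Pt → Env → ℝ) (N : Pt → X → ℝ) (η : Env) :
    H19.Cf S c N η = H19.Cf S (cut χ c) N η + H19.Cf S (cut' χ c) N η := by
  unfold H19.Cf cut cut'
  rw [← Finset.sum_add_distrib]
  refine Finset.sum_congr rfl fun p _ => ?_
  rw [← add_smul]
  congr 1
  ring

theorem BF_mul {S : Finset Pt} {c : Pt → Env → ℝ} {M : ℝ} (b : H19.BF S c M) {χ : Pt → ℝ} (h0 : ∀ p, 0 ≤ χ p)
    (h1 : ∀ p, χ p ≤ 1) : H19.BF S (cut χ c) M := by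
  refine ⟨fun p hp => (b.meas p hp).const_mul _, fun p hp q hq h η x => ?_, fun p hp η => ?_⟩
  · unfold cut
    rw [b.pred p hp q hq h]
  · unfold cut
    rw [abs_mul, abs_of_nonneg (h0 p)]
    calc χ p * |c p η| ≤ 1 * |c p η| := mul_le_mul_of_nonneg_right (h1 p) (abs_nonneg _)
      _ = |c p η| := one_mul _
      _ ≤ M := b.bd p hp η

theorem BF_mul' {S : Finset Pt} {c : Pt → Env → ℝ} {M : ℝ} (b : H19.BF S c M) {χ : Pt → ℝ} (h0 : ∀ p, 0 ≤ χ p)
    (h1 : ∀ p, χ p ≤ 1) : H19.BF S (cut' χ c) M :=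
  BF_mul b (χ := fun p => 1 - χ p) (fun p => by linarith [h1 p]) fun p => by linarith [h0 p]

variable {μ : Measure ℝ} {f f' : ℝ → ℝ}

/-- **The localised slab derivative**, one insertion. -/
theorem box_one [IsProbabilityMeasure μ] (h : DenLaw μ f f') {K θ0 : ℝ} (hs : SG μ (sc f f') K θ0) {S : Finset Pt}
    {c : Pt → Env → ℝ} {M V D : ℝ} (hc : H19.BF S c M) (hM : 0 ≤ M) {w : Env → X → ℝ} {N : Pt → X → ℝ} (hw : Wt S w N V)
    {m : ℕ} {Ψ : Env → (Fin m → X) → ℝ} (hΨ : Ob Ψ D)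
    (hbl : ∀ q ∈ S, ∀ (η : Env) (x : ℝ), Ψ (Function.update η q x) = Ψ η)
    (b : X → B) {χ : (Fin m → B) → Pt → ℝ} (h0 : ∀ β p, 0 ≤ χ β p) (h1 : ∀ β p, χ β p ≤ 1) {t a Q : ℝ} (ht : 0 < t)
    (ha : 0 ≤ a) (htM : t * M ≤ θ0) (hQ : ∀ β η, ∑ p ∈ S, (cut (χ β) c p η) ^ 2 ≤ Q) :
    |∫ η, rep (m + 1) (w η) (nxt (H19.Cf S c N η) (Ψ η)) ∂(law μ)| ≤
      a * ∫ η, rep m (w η) (fun x => |Ψ η x|) ∂(law μ) +
      (Fintype.card (Fin m → B) : ℝ) * (D * (2 / t * Real.exp (-(t * a / 2)) * (2 * Real.exp (K * t ^ 2 * Q)))) +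
      ∫ η, rep (m + 1) (w η) (fun x => |nR b (fun β => H19.Cf S (cut' (χ β) c) N η) (Ψ η) x|) ∂(law μ) := by
  have hCf : ∀ β : Fin m → B, ∀ η y, |H19.Cf S (cut (χ β) c) N η y| ≤ S.card * (M * V) := fun β η y =>
    abs_Cf_le (BF_mul hc (h0 β) (h1 β)).bd hw.bd η y
  have hCf' : ∀ η (β : Fin m → B) y, |H19.Cf S (cut' (χ β) c) N η y| ≤ S.card * (M * V) := fun η β y =>
    abs_Cf_le (BF_mul' hc (h0 β) (h1 β)).bd hw.bd η y
  have hmC : ∀ β : Fin m → B, Measurable fun η => H19.Cf S (cut (χ β) c) N η := fun β =>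
    meas_Cf (BF_mul hc (h0 β) (h1 β)).meas N
  have hmC' : ∀ β : Fin m → B, Measurable fun η => H19.Cf S (cut' (χ β) c) N η := fun β =>
    meas_Cf (BF_mul' hc (h0 β) (h1 β)).meas N
  -- the observables
  have o1 : ∀ β : Fin m → B, Ob (fun η => nxt (H19.Cf S (cut (χ β) c) N η) (lc b β (Ψ η))) (D * (2 * m * (S.card * (M * V)))) :=
    fun β => (hΨ.lc b β).nxt (hmC β) (hCf β)
  have o2 : Ob (fun η => nR b (fun β => H19.Cf S (cut' (χ β) c) N η) (Ψ η)) (D * (2 * m * (S.card * (M * V)))) :=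
    hΨ.nR b (R := fun η β => H19.Cf S (cut' (χ β) c) N η) hmC' hCf'
  -- the decomposition
  have e1 : ∀ η, rep (m + 1) (w η) (nxt (H19.Cf S c N η) (Ψ η)) =
      ∑ β, rep (m + 1) (w η) (nxt (H19.Cf S (cut (χ β) c) N η) (lc b β (Ψ η))) +
        rep (m + 1) (w η) (nR b (fun β => H19.Cf S (cut' (χ β) c) N η) (Ψ η)) := fun η => by
    rw [← rep_sum, ← rep_add]
    exact rep_congr _ _ fun x => nxt_box b (C := fun β => H19.Cf S (cut (χ β) c) N η)
      (R := fun β => H19.Cf S (cut' (χ β) c) N η) (fun β => Cf_split (χ β) S c N η) (Ψ η) x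
  simp_rw [e1]
  rw [integral_add (integrable_finsetSum _ fun β _ => (o1 β).int hw.meas) (o2.int hw.meas),
    integral_finsetSum _ fun β _ => (o1 β).int hw.meas]
  refine (abs_add_le _ _).trans (add_le_add ?_ ?_)
  · -- the localised part
    have k1 : ∀ β : Fin m → B, |∫ η, rep (m + 1) (w η) (nxt (H19.Cf S (cut (χ β) c) N η) (lc b β (Ψ η))) ∂(law μ)| ≤
        a * ∫ η, rep m (w η) (fun x => |lc b β (Ψ η) x|) ∂(law μ) +
          D * (2 / t * Real.exp (-(t * a / 2)) * (2 * Real.exp (K * t ^ 2 * Q))) := fun β => by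
      have hb : ∀ q ∈ S, ∀ (η : Env) (x : ℝ), lc b β (Ψ (Function.update η q x)) = lc b β (Ψ η) := fun q hq η x => by
        rw [hbl q hq]
      rw [rep_ibp h (BF_mul hc (h0 β) (h1 β)) hw (hΨ.lc b β) hb]
      refine (H19.est_one hs (BF_mul hc (h0 β) (h1 β)) hM ht htM (hQ β) ((hΨ.lc b β).int hw.meas)
        (a := a) (D := D) fun η => abs_rep_le_of m (w η) ((hΨ.lc b β).bd η)).trans ?_
      refine add_le_add (mul_le_mul_of_nonneg_left ?_ ha) le_rfl
      refine integral_mono ((hΨ.lc b β).int hw.meas).abs ((hΨ.lc b β).abs.int hw.meas) fun η => ?_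
      exact abs_rep_le m (w η) fun x => le_rfl
    refine (Finset.abs_sum_le_sum_abs _ _).trans ((Finset.sum_le_sum fun β _ => k1 β).trans_eq ?_)
    rw [Finset.sum_add_distrib, Finset.sum_const, Finset.card_univ, nsmul_eq_mul, ← Finset.mul_sum,
      ← integral_finsetSum _ fun β _ => (hΨ.lc b β).abs.int hw.meas]
    congr 2
    refine integral_congr_ae (ae_of_all _ fun η => ?_)
    show ∑ β, rep m (w η) (fun x => |lc b β (Ψ η) x|) = rep m (w η) fun x => |Ψ η x|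
    rw [← rep_sum]
    exact rep_congr _ _ fun x => sum_abs_lc b (Ψ η) x
  · refine (abs_integral_le_integral_abs).trans ?_
    refine integral_mono (o2.int hw.meas).abs (o2.abs.int hw.meas) fun η => ?_
    exact abs_rep_le _ _ fun x => le_rfl

end

end Pool.W7d29a1.C0.H41
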