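import Mathlib

/-!
CURV0 (MP_7d29a1_pr), section SM: LOCALISATION OF A TRANSPORT (helper43, letter 70368).

`rep S w ψ` = Gibbs average of the `k`-replica function `ψ` under the weights `w` over the finite set `S` (paths, or cut
positions). `p : ι → β` = the box (of the position at the row of the kick). A change of the weights `w → w'` (flip of the
corner of one kick) is made in two steps for each tuple of boxes `b` of the replicas: first inside the boxes `b` (this is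
the transport, cost of ONE box), then outside, where only the normalisation changes: one more replica outside the boxes
(`rep_off`). Result: `flip`.
-/

set_option autoImplicit false

namespace Pool.W7d29a1.C0.H43

open Finset MeasureTheory

noncomputable section

variable {ι β : Type*} [DecidableEq β] {k : ℕ}

/-- Total weight. -/
def tot (S : Finset ι) (w : ι → ℝ) : ℝ := ∑ i ∈ S, w i

/-- Numerator of the average of a `k`-replica function. -/
def nrep (S : Finset ι) (w : ι → ℝ) (ψ : (Fin k → ι) → ℝ) : ℝ :=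
  ∑ x ∈ Fintype.piFinset (fun _ : Fin k => S), (∏ i, w (x i)) * ψ x

/-- Average of a `k`-replica function. -/
def rep (S : Finset ι) (w : ι → ℝ) (ψ : (Fin k → ι) → ℝ) : ℝ := nrep S w ψ / tot S w ^ k

/-- The part of `nrep` with the replicas in the boxes `b`. -/
def nbox (S : Finset ι) (w : ι → ℝ) (p : ι → β) (b : Fin k → β) (ψ : (Fin k → ι) → ℝ) : ℝ :=
  ∑ x ∈ Fintype.piFinset (fun _ : Fin k => S) with (fun i => p (x i)) = b, (∏ i, w (x i)) * ψ x

/-- The weights `w'` inside the boxes `B`, `w` outside. -/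
def hyb (w w' : ι → ℝ) (p : ι → β) (B : Finset β) (i : ι) : ℝ := if p i ∈ B then w' i else w i

/-- Weight outside the boxes `B`. -/
def off (S : Finset ι) (w : ι → ℝ) (p : ι → β) (B : Finset β) : ℝ := ∑ i ∈ S with p i ∉ B, w i

/-- The set of the boxes of `b`. -/
def bx (b : Fin k → β) : Finset β := univ.image b

/-- All tuples of boxes. -/
def bxs (S : Finset ι) (p : ι → β) (k : ℕ) : Finset (Fin k → β) := Fintype.piFinset fun _ : Fin k => S.image p

variable {S : Finset ι} {w w' : ι → ℝ} {p : ι → β} {M : ℝ}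

theorem sum_nbox (ψ : (Fin k → ι) → ℝ) : ∑ b ∈ bxs S p k, nbox S w p b ψ = nrep S w ψ := by
  unfold nbox nrep bxs
  refine Finset.sum_fiberwise_of_maps_to (fun x hx => ?_) _
  rw [Fintype.mem_piFinset] at hx ⊢
  exact fun i => Finset.mem_image_of_mem p (hx i)

theorem nbox_hyb (b : Fin k → β) (ψ : (Fin k → ι) → ℝ) : nbox S (hyb w w' p (bx b)) p b ψ = nbox S w' p b ψ := by
  unfold nbox
  refine Finset.sum_congr rfl fun x hx => ?_
  have hb : (fun i => p (x i)) = b := (Finset.mem_filter.1 hx).2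
  congr 1
  refine Finset.prod_congr rfl fun i _ => ?_
  have : p (x i) ∈ bx b := by
    rw [show p (x i) = b i from congrFun hb i]
    exact Finset.mem_image_of_mem b (Finset.mem_univ i)
  simp [hyb, this]

theorem abs_nbox_le (hw : ∀ i ∈ S, 0 ≤ w i) (b : Fin k → β) (ψ : (Fin k → ι) → ℝ) :
    |nbox S w p b ψ| ≤ nbox S w p b (fun x => |ψ x|) := by
  unfold nbox
  refine (Finset.abs_sum_le_sum_abs _ _).trans (Finset.sum_le_sum fun x hx => ?_)
  have hx' := Fintype.mem_piFinset.1 (Finset.mem_filter.1 hx).1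
  rw [abs_mul, abs_of_nonneg (Finset.prod_nonneg fun i _ => hw _ (hx' i))]

theorem nbox_nn (hw : ∀ i ∈ S, 0 ≤ w i) (b : Fin k → β) {ψ : (Fin k → ι) → ℝ} (hψ : ∀ x, 0 ≤ ψ x) :
    0 ≤ nbox S w p b ψ := by
  unfold nbox
  refine Finset.sum_nonneg fun x hx => ?_
  have hx' := Fintype.mem_piFinset.1 (Finset.mem_filter.1 hx).1
  exact mul_nonneg (Finset.prod_nonneg fun i _ => hw _ (hx' i)) (hψ x)

theorem off_nn (hw : ∀ i ∈ S, 0 ≤ w i) (B : Finset β) : 0 ≤ off S w p B :=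
  Finset.sum_nonneg fun i hi => hw i (Finset.mem_filter.1 hi).1

theorem tot_nn (hw : ∀ i ∈ S, 0 ≤ w i) : 0 ≤ tot S w := Finset.sum_nonneg hw

/-- The hybrid total and the new total. -/
theorem tot_hyb (B : Finset β) :
    tot S w' - tot S (hyb w w' p B) = ∑ i ∈ S with p i ∉ B, (w' i - w i) := by
  unfold tot
  rw [← Finset.sum_sub_distrib, Finset.sum_filter]
  refine Finset.sum_congr rfl fun i _ => ?_
  by_cases h : p i ∈ B <;> simp [hyb, h]

/-- Two systems of weights within a factor `exp M`. -/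
structure Near (S : Finset ι) (w w' : ι → ℝ) (M : ℝ) : Prop where
  nn : ∀ i ∈ S, 0 ≤ w i
  up : ∀ i ∈ S, w' i ≤ Real.exp M * w i
  lo : ∀ i ∈ S, w i ≤ Real.exp M * w' i

theorem Near.nn' (h : Near S w w' M) : ∀ i ∈ S, 0 ≤ w' i := fun i hi =>
  nonneg_of_mul_nonneg_right ((h.nn i hi).trans (h.lo i hi)) (Real.exp_pos M)

theorem Near.symm (h : Near S w w' M) : Near S w' w M := ⟨h.nn', h.lo, h.up⟩

theorem Near.hyb_nn (h : Near S w w' M) (B : Finset β) : ∀ i ∈ S, 0 ≤ hyb w w' p B i := fun i hi => by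
  unfold hyb
  split
  · exact h.nn' i hi
  · exact h.nn i hi

/-- The hybrid weights against the new ones. -/
theorem Near.hyb' (h : Near S w w' M) (hM : 0 ≤ M) (B : Finset β) : Near S (hyb w w' p B) w' M := by
  have h1 : (1 : ℝ) ≤ Real.exp M := Real.one_le_exp hM
  refine ⟨h.hyb_nn B, fun i hi => ?_, fun i hi => ?_⟩
  · unfold hyb
    split
    · nlinarith [h.nn' i hi]
    · exact h.up i hi
  · unfold hyb
    split
    · nlinarith [h.nn' i hi]
    · exact h.lo i hi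

theorem Near.tot_le (h : Near S w w' M) : tot S w ≤ Real.exp M * tot S w' := by
  unfold tot
  rw [Finset.mul_sum]
  exact Finset.sum_le_sum h.lo

theorem Near.off_le (h : Near S w w' M) (B : Finset β) : off S w p B ≤ Real.exp M * off S w' p B := by
  unfold off
  rw [Finset.mul_sum]
  exact Finset.sum_le_sum fun i hi => h.lo i (Finset.mem_filter.1 hi).1

theorem Near.nbox_le (h : Near S w w' M) (b : Fin k → β) {ψ : (Fin k → ι) → ℝ} (hψ : ∀ x, 0 ≤ ψ x) :
    nbox S w p b ψ ≤ Real.exp (k * M) * nbox S w' p b ψ := by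
  unfold nbox
  rw [Finset.mul_sum]
  refine Finset.sum_le_sum fun x hx => ?_
  have hx' := Fintype.mem_piFinset.1 (Finset.mem_filter.1 hx).1
  have e : Real.exp (k * M) = ∏ _i : Fin k, Real.exp M := by
    rw [Finset.prod_const, Finset.card_univ, Fintype.card_fin, ← Real.exp_nat_mul]
  rw [← mul_assoc, e, ← Finset.prod_mul_distrib]
  exact mul_le_mul_of_nonneg_right (Finset.prod_le_prod (fun i _ => h.nn _ (hx' i)) fun i _ => h.lo _ (hx' i)) (hψ x)

/-- `|1 - u ^ k| ≤ k exp (k M) |1 - u|` for `0 ≤ u ≤ exp M`. -/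
theorem abs_one_sub_pow_le {u : ℝ} (hM : 0 ≤ M) (h0 : 0 ≤ u) (h1 : u ≤ Real.exp M) (k : ℕ) :
    |1 - u ^ k| ≤ k * Real.exp (k * M) * |1 - u| := by
  induction k with
  | zero => simp
  | succ k ih =>
    have e1 : 1 - u ^ (k + 1) = (1 - u ^ k) + u ^ k * (1 - u) := by ring
    have h2 : u ^ k ≤ Real.exp (k * M) := by
      rw [Real.exp_nat_mul]
      exact pow_le_pow_left₀ h0 h1 k
    have h3 : Real.exp (k * M) ≤ Real.exp ((k + 1 : ℕ) * M) := by
      apply Real.exp_le_exp.2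
      push_cast
      nlinarith
    have h4 : 0 ≤ |1 - u| := abs_nonneg _
    rw [e1]
    calc |1 - u ^ k + u ^ k * (1 - u)| ≤ |1 - u ^ k| + |u ^ k * (1 - u)| := abs_add_le _ _
      _ = |1 - u ^ k| + u ^ k * |1 - u| := by rw [abs_mul, abs_of_nonneg (pow_nonneg h0 k)]
      _ ≤ k * Real.exp (k * M) * |1 - u| + Real.exp (k * M) * |1 - u| :=
        add_le_add ih (mul_le_mul_of_nonneg_right h2 h4)
      _ = (k + 1 : ℕ) * Real.exp (k * M) * |1 - u| := by push_cast; ring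
      _ ≤ (k + 1 : ℕ) * Real.exp ((k + 1 : ℕ) * M) * |1 - u| :=
        mul_le_mul_of_nonneg_right (mul_le_mul_of_nonneg_left h3 (Nat.cast_nonneg _)) h4

/-- **The complement flip**: only the normalisation changes, by the weight outside the boxes. -/
theorem compl_flip (h : Near S w w' M) (hM : 0 ≤ M) (hZ : 0 < tot S w') (B : Finset β) (N : ℝ) (k : ℕ) :
    |N / tot S w' ^ k - N / tot S (hyb w w' p B) ^ k| ≤
      k * Real.exp ((k + 2) * M) * (|N| / tot S w' ^ k * (off S w' p B / tot S w')) := by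
  set Z := tot S w' with hZd
  set Y := tot S (hyb w w' p B) with hYd
  have hh := h.hyb' (p := p) hM B
  have hZY : Z ≤ Real.exp M * Y := hh.symm.tot_le
  have hYZ : Y ≤ Real.exp M * Z := hh.tot_le
  have hY : 0 < Y := by
    exact (pos_iff_pos_of_mul_pos (hZ.trans_le hZY)).1 (Real.exp_pos M)
  have hu : Z / Y ≤ Real.exp M := (div_le_iff₀ hY).2 hZY
  have hu0 : 0 ≤ Z / Y := (div_pos hZ hY).le
  have hoff : |Z - Y| ≤ Real.exp M * off S w' p B := by
    rw [hZd, hYd, tot_hyb]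
    refine (Finset.abs_sum_le_sum_abs _ _).trans ?_
    unfold off
    rw [Finset.mul_sum]
    refine Finset.sum_le_sum fun i hi => ?_
    have hi' := (Finset.mem_filter.1 hi).1
    have a1 := h.up i hi'
    have a2 := h.lo i hi'
    have a3 := h.nn' i hi'
    have a4 := h.nn i hi'
    have a5 : (1 : ℝ) ≤ Real.exp M := Real.one_le_exp hM
    rw [abs_le]
    constructor <;> nlinarith
  have h1u : |1 - Z / Y| ≤ Real.exp (2 * M) * (off S w' p B / Z) := by
    have e : 1 - Z / Y = -(Z - Y) / Y := by field_simp; ring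
    rw [e, abs_div, abs_neg, abs_of_pos hY, div_le_iff₀ hY]
    have h2 : off S w' p B / Z * Z = off S w' p B := div_mul_cancel₀ _ hZ.ne'
    have h3 : 0 ≤ off S w' p B / Z := div_nonneg (off_nn h.nn' B) hZ.le
    have e2 : Real.exp (2 * M) = Real.exp M * Real.exp M := by rw [← Real.exp_add]; ring_nf
    calc |Z - Y| ≤ Real.exp M * off S w' p B := hoff
      _ = Real.exp M * (off S w' p B / Z * Z) := by rw [h2]
      _ ≤ Real.exp M * (off S w' p B / Z * (Real.exp M * Y)) :=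
        mul_le_mul_of_nonneg_left (mul_le_mul_of_nonneg_left hZY h3) (Real.exp_pos _).le
      _ = Real.exp (2 * M) * (off S w' p B / Z) * Y := by rw [e2]; ring
  have hk := abs_one_sub_pow_le hM hu0 hu k
  have e : N / Z ^ k - N / Y ^ k = N / Z ^ k * (1 - (Z / Y) ^ k) := by
    rw [div_pow]
    field_simp
  have e3 : Real.exp ((k + 2) * M) = Real.exp (k * M) * Real.exp (2 * M) := by rw [← Real.exp_add]; ring_nf
  rw [e, abs_mul, abs_div, abs_of_pos (pow_pos hZ k)]
  have h5 : 0 ≤ |N| / Z ^ k := div_nonneg (abs_nonneg _) (pow_pos hZ k).le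
  calc |N| / Z ^ k * |1 - (Z / Y) ^ k| ≤ |N| / Z ^ k * (k * Real.exp (k * M) * (Real.exp (2 * M) * (off S w' p B / Z))) :=
        mul_le_mul_of_nonneg_left (hk.trans (mul_le_mul_of_nonneg_left h1u
          (mul_nonneg (Nat.cast_nonneg _) (Real.exp_pos _).le))) h5
    _ = k * Real.exp ((k + 2) * M) * (|N| / Z ^ k * (off S w' p B / Z)) := by rw [e3]; ring

/-- One more replica, outside the boxes of the `k` replicas of `ψ`. -/
def ext (S : Finset ι) (w : ι → ℝ) (p : ι → β) (ψ : (Fin k → ι) → ℝ) : ℝ :=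
  (∑ x ∈ Fintype.piFinset (fun _ : Fin k => S), (∏ i, w (x i)) * |ψ x| * off S w p (bx fun i => p (x i))) /
    tot S w ^ (k + 1)

theorem ext_nn (hw : ∀ i ∈ S, 0 ≤ w i) (ψ : (Fin k → ι) → ℝ) : 0 ≤ ext S w p ψ := by
  unfold ext
  refine div_nonneg (Finset.sum_nonneg fun x hx => ?_) (pow_nonneg (tot_nn hw) _)
  have hx' := Fintype.mem_piFinset.1 hx
  exact mul_nonneg (mul_nonneg (Finset.prod_nonneg fun i _ => hw _ (hx' i)) (abs_nonneg _)) (off_nn hw _)

theorem sum_nbox_off (hw : ∀ i ∈ S, 0 ≤ w i) (ψ : (Fin k → ι) → ℝ) :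
    ∑ b ∈ bxs S p k, |nbox S w p b ψ| * off S w p (bx b) ≤
      ∑ x ∈ Fintype.piFinset (fun _ : Fin k => S), (∏ i, w (x i)) * |ψ x| * off S w p (bx fun i => p (x i)) := by
  have h1 : ∑ x ∈ Fintype.piFinset (fun _ : Fin k => S), (∏ i, w (x i)) * |ψ x| * off S w p (bx fun i => p (x i)) =
      ∑ b ∈ bxs S p k, ∑ x ∈ Fintype.piFinset (fun _ : Fin k => S) with (fun i => p (x i)) = b,
        (∏ i, w (x i)) * |ψ x| * off S w p (bx fun i => p (x i)) := by
    refine (Finset.sum_fiberwise_of_maps_to (fun x hx => ?_) _).symm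
    unfold bxs
    rw [Fintype.mem_piFinset] at hx ⊢
    exact fun i => Finset.mem_image_of_mem p (hx i)
  rw [h1]
  refine Finset.sum_le_sum fun b _ => ?_
  have h2 : ∑ x ∈ Fintype.piFinset (fun _ : Fin k => S) with (fun i => p (x i)) = b,
      (∏ i, w (x i)) * |ψ x| * off S w p (bx fun i => p (x i)) = nbox S w p b (fun x => |ψ x|) * off S w p (bx b) := by
    unfold nbox
    rw [Finset.sum_mul]
    refine Finset.sum_congr rfl fun x hx => ?_
    rw [show (fun i => p (x i)) = b from (Finset.mem_filter.1 hx).2]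
  rw [h2]
  exact mul_le_mul_of_nonneg_right (abs_nbox_le hw b ψ) (off_nn hw _)

/-- **Outside the boxes of the replicas a flip costs one more replica.** -/
theorem rep_off (h : Near S w w' M) (hM : 0 ≤ M) (hZ : 0 < tot S w') (ψ : (Fin k → ι) → ℝ) :
    |rep S w' ψ - ∑ b ∈ bxs S p k, nbox S w' p b ψ / tot S (hyb w w' p (bx b)) ^ k| ≤
      k * Real.exp ((k + 2) * M) * ext S w' p ψ := by
  have e1 : rep S w' ψ = ∑ b ∈ bxs S p k, nbox S w' p b ψ / tot S w' ^ k := by
    rw [rep, ← sum_nbox (p := p), Finset.sum_div]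
  rw [e1, ← Finset.sum_sub_distrib]
  refine (Finset.abs_sum_le_sum_abs _ _).trans ?_
  have h2 : ∀ b ∈ bxs S p k, |nbox S w' p b ψ / tot S w' ^ k - nbox S w' p b ψ / tot S (hyb w w' p (bx b)) ^ k| ≤
      k * Real.exp ((k + 2) * M) / tot S w' ^ (k + 1) * (|nbox S w' p b ψ| * off S w' p (bx b)) := fun b _ => by
    refine (compl_flip h hM hZ (bx b) _ k).trans (le_of_eq ?_)
    have := hZ.ne'
    rw [pow_succ]
    field_simp
  refine (Finset.sum_le_sum h2).trans ?_
  rw [← Finset.mul_sum]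
  refine (mul_le_mul_of_nonneg_left (sum_nbox_off h.nn' ψ) ?_).trans (le_of_eq ?_)
  · exact div_nonneg (mul_nonneg (Nat.cast_nonneg _) (Real.exp_pos _).le) (pow_pos hZ _).le
  · unfold ext
    ring

/-! ### Over the environment -/

/-- Sum of norms against the norm of the sum. -/
theorem sum_norm_le {Ω γ : Type*} [MeasurableSpace Ω] (P : Measure Ω) (T : Finset γ) (f : γ → Ω → ENNReal)
    (hf : ∀ c ∈ T, AEMeasurable (f c) P) {q : ℝ} (hq : 1 ≤ q) :
    ∑ c ∈ T, (∫⁻ ω, f c ω ^ q ∂P) ^ (1 / q) ≤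
      (T.card : ENNReal) ^ (1 - 1 / q) * (∫⁻ ω, (∑ c ∈ T, f c ω) ^ q ∂P) ^ (1 / q) := by
  have hq0 : 0 < q := by linarith
  have h1 : (∑ c ∈ T, (∫⁻ ω, f c ω ^ q ∂P) ^ (1 / q)) ^ q ≤
      (T.card : ENNReal) ^ (q - 1) * ∑ c ∈ T, ((∫⁻ ω, f c ω ^ q ∂P) ^ (1 / q)) ^ q :=
    ENNReal.rpow_sum_le_const_mul_sum_rpow T _ hq
  have h2 : ∀ c ∈ T, ((∫⁻ ω, f c ω ^ q ∂P) ^ (1 / q)) ^ q = ∫⁻ ω, f c ω ^ q ∂P := fun c _ => by
    rw [← ENNReal.rpow_mul, one_div_mul_cancel hq0.ne', ENNReal.rpow_one]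
  have h3 : ∀ (s : Finset γ) (a : γ → ENNReal), ∑ c ∈ s, a c ^ q ≤ (∑ c ∈ s, a c) ^ q := fun s a => by
    classical
    induction s using Finset.induction_on with
    | empty => simp [hq0]
    | insert c s hc ih =>
      rw [Finset.sum_insert hc, Finset.sum_insert hc]
      exact (add_le_add_right ih _).trans (ENNReal.add_rpow_le_rpow_add _ _ hq)
  have h4 : ∑ c ∈ T, ∫⁻ ω, f c ω ^ q ∂P ≤ ∫⁻ ω, (∑ c ∈ T, f c ω) ^ q ∂P := by
    rw [← lintegral_finsetSum' _ fun c hc => (hf c hc).pow_const _]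
    exact lintegral_mono fun ω => h3 T fun c => f c ω
  rw [Finset.sum_congr rfl h2] at h1
  have h5 := ENNReal.rpow_le_rpow (h1.trans (mul_le_mul_right h4 _)) (show (0 : ℝ) ≤ 1 / q by positivity)
  rw [← ENNReal.rpow_mul, mul_one_div_cancel hq0.ne', ENNReal.rpow_one,
    ENNReal.mul_rpow_of_nonneg _ _ (show (0 : ℝ) ≤ 1 / q by positivity), ← ENNReal.rpow_mul] at h5
  rwa [show (q - 1) * (1 / q) = 1 - 1 / q by field_simp] at h5

theorem rep_nn (hw : ∀ i ∈ S, 0 ≤ w i) {ψ : (Fin k → ι) → ℝ} (hψ : ∀ x, 0 ≤ ψ x) : 0 ≤ rep S w ψ := by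
  unfold rep nrep
  refine div_nonneg (Finset.sum_nonneg fun x hx => ?_) (pow_nonneg (tot_nn hw) _)
  have hx' := Fintype.mem_piFinset.1 hx
  exact mul_nonneg (Finset.prod_nonneg fun i _ => hw _ (hx' i)) (hψ x)

/-- **The flip of one kick, localised** (letter 70368 (2)): if for every tuple `b` of boxes the transport of the `b` part
costs `τ` times its `q` norm, the whole flip costs `τ` times the `q` norm of the whole functional (times `card ^ (1 - 1/q)`)
plus the functional with one more replica outside the boxes. -/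
theorem flip {Ω : Type*} [MeasurableSpace Ω] (P : Measure Ω) (p : ι → β) (w w' : Ω → ι → ℝ)
    (ψ ψ' : Ω → (Fin k → ι) → ℝ) (hM : 0 ≤ M) (hn : ∀ ω, Near S (w ω) (w' ω) M) (hZ : ∀ ω, 0 < tot S (w' ω))
    {τ q : ℝ} (hq : 1 ≤ q)
    (hi : ∀ b ∈ bxs S p k, Integrable (fun ω => nbox S (w ω) p b (ψ ω) / tot S (w ω) ^ k) P)
    (hi' : ∀ b ∈ bxs S p k, Integrable (fun ω => nbox S (w' ω) p b (ψ' ω) / tot S (hyb (w ω) (w' ω) p (bx b)) ^ k) P)
    (hi2 : Integrable (fun ω => rep S (w' ω) (ψ' ω)) P)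
    (hT : ∀ b ∈ bxs S p k,
      ENNReal.ofReal |∫ ω, nbox S (w' ω) p b (ψ' ω) / tot S (hyb (w ω) (w' ω) p (bx b)) ^ k ∂P -
        ∫ ω, nbox S (w ω) p b (ψ ω) / tot S (w ω) ^ k ∂P| ≤
      ENNReal.ofReal τ * (∫⁻ ω, ENNReal.ofReal |nbox S (w ω) p b (ψ ω) / tot S (w ω) ^ k| ^ q ∂P) ^ (1 / q)) :
    ENNReal.ofReal |∫ ω, rep S (w' ω) (ψ' ω) ∂P - ∫ ω, rep S (w ω) (ψ ω) ∂P| ≤
      ENNReal.ofReal τ * (((bxs S p k).card : ENNReal) ^ (1 - 1 / q) *
        (∫⁻ ω, ENNReal.ofReal (rep S (w ω) fun x => |ψ ω x|) ^ q ∂P) ^ (1 / q)) +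
      ∫⁻ ω, ENNReal.ofReal (k * Real.exp ((k + 2) * M) * ext S (w' ω) p (ψ' ω)) ∂P := by
  set A := fun (b : Fin k → β) ω => nbox S (w ω) p b (ψ ω) / tot S (w ω) ^ k with hA
  set B := fun (b : Fin k → β) ω => nbox S (w' ω) p b (ψ' ω) / tot S (hyb (w ω) (w' ω) p (bx b)) ^ k with hB
  have e1 : ∫ ω, rep S (w ω) (ψ ω) ∂P = ∑ b ∈ bxs S p k, ∫ ω, A b ω ∂P := by
    rw [← integral_finsetSum _ hi]
    refine integral_congr_ae (Filter.Eventually.of_forall fun ω => ?_)
    show rep S (w ω) (ψ ω) = ∑ b ∈ bxs S p k, nbox S (w ω) p b (ψ ω) / tot S (w ω) ^ k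
    rw [rep, ← sum_nbox (p := p), Finset.sum_div]
  have hiB : Integrable (fun ω => ∑ b ∈ bxs S p k, B b ω) P := integrable_finsetSum _ hi'
  have e2 : ∫ ω, rep S (w' ω) (ψ' ω) ∂P - ∫ ω, rep S (w ω) (ψ ω) ∂P =
      ∫ ω, (rep S (w' ω) (ψ' ω) - ∑ b ∈ bxs S p k, B b ω) ∂P +
        ∑ b ∈ bxs S p k, (∫ ω, B b ω ∂P - ∫ ω, A b ω ∂P) := by
    rw [integral_sub hi2 hiB, integral_finsetSum _ hi', e1, Finset.sum_sub_distrib]
    ring
  have h1 : ENNReal.ofReal |∫ ω, (rep S (w' ω) (ψ' ω) - ∑ b ∈ bxs S p k, B b ω) ∂P| ≤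
      ∫⁻ ω, ENNReal.ofReal (k * Real.exp ((k + 2) * M) * ext S (w' ω) p (ψ' ω)) ∂P := by
    have := enorm_integral_le_lintegral_enorm (μ := P)
      (f := fun ω => rep S (w' ω) (ψ' ω) - ∑ b ∈ bxs S p k, B b ω)
    rw [Real.enorm_eq_ofReal_abs] at this
    refine this.trans (lintegral_mono fun ω => ?_)
    show ‖_‖ₑ ≤ _
    rw [Real.enorm_eq_ofReal_abs]
    exact ENNReal.ofReal_le_ofReal (rep_off (hn ω) hM (hZ ω) (ψ' ω))
  have h2 : ENNReal.ofReal |∑ b ∈ bxs S p k, (∫ ω, B b ω ∂P - ∫ ω, A b ω ∂P)| ≤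
      ENNReal.ofReal τ * (((bxs S p k).card : ENNReal) ^ (1 - 1 / q) *
        (∫⁻ ω, ENNReal.ofReal (rep S (w ω) fun x => |ψ ω x|) ^ q ∂P) ^ (1 / q)) := by
    refine (ENNReal.ofReal_le_ofReal (Finset.abs_sum_le_sum_abs _ _)).trans ?_
    rw [ENNReal.ofReal_sum_of_nonneg fun b _ => abs_nonneg _]
    refine (Finset.sum_le_sum hT).trans ?_
    rw [← Finset.mul_sum]
    refine mul_le_mul_right ?_ _
    refine (sum_norm_le P _ _ (fun b hb => ((hi b hb).aestronglyMeasurable.aemeasurable.abs).ennreal_ofReal) hq).trans ?_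
    refine mul_le_mul_right ?_ _
    refine ENNReal.rpow_le_rpow (lintegral_mono fun ω => ?_) (by positivity)
    refine ENNReal.rpow_le_rpow ?_ (by linarith)
    rw [← ENNReal.ofReal_sum_of_nonneg fun b _ => abs_nonneg _]
    refine ENNReal.ofReal_le_ofReal ?_
    have hw := (hn ω).nn
    rw [rep, ← sum_nbox (p := p), Finset.sum_div]
    refine Finset.sum_le_sum fun b _ => ?_
    rw [abs_div, abs_of_nonneg (pow_nonneg (tot_nn hw) k)]
    exact div_le_div_of_nonneg_right (abs_nbox_le hw b _) (pow_nonneg (tot_nn hw) k)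
  rw [e2, add_comm]
  refine (ENNReal.ofReal_le_ofReal (abs_add_le _ _)).trans ?_
  rw [ENNReal.ofReal_add (abs_nonneg _) (abs_nonneg _)]
  exact add_le_add h2 h1

end

end Pool.W7d29a1.C0.H43
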