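import Pool.Agent.W_7d29a1_C0.Slab19B

/-!
CURV0 (MP_7d29a1_pr), section SM: the SELF-NORMALISED estimate of a predictable score sum: `|SS| ≤ a (√Q + q0)`, `Q = ∑ c²` the
RANDOM quadratic variation, up to an exponentially small part. (helper41)
-/

set_option autoImplicit false
set_option linter.unusedSectionVars false
set_option linter.unusedVariables false

namespace Pool.W7d29a1.C0.H41

open MeasureTheory ProbabilityTheory Filter Topology Finset
open Pool.Agent.W_7d29a1_F Pool.Agent.W_7d29a1_C0.H32 Pool.W7d29a1.C0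

noncomputable section

variable {μ : Measure ℝ}

/-- The random quadratic variation. -/
def QV (S : Finset Pt) (c : Pt → Env → ℝ) (η : Env) : ℝ := ∑ p ∈ S, c p η ^ 2

theorem QV_nonneg (S : Finset Pt) (c : Pt → Env → ℝ) (η : Env) : 0 ≤ QV S c η := Finset.sum_nonneg fun p _ => sq_nonneg _

theorem QV_meas {S : Finset Pt} {c : Pt → Env → ℝ} (hc : ∀ p ∈ S, Measurable (c p)) : Measurable (QV S c) :=
  Finset.measurable_sum _ fun p hp => (hc p hp).pow_const 2

/-- The dyadic choice of the exponent. -/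
theorem exists_dyadic {u q0 : ℝ} (hq : 0 < q0) (hu : q0 ≤ u) {L : ℕ} (hL : u ≤ 2 ^ L * q0) :
    ∃ l ∈ Finset.range (L + 1), 2 ^ l * q0 ≤ 2 * u ∧ u ≤ 2 ^ l * q0 := by
  induction L with
  | zero =>
    refine ⟨0, by simp, ?_, hL⟩
    rw [pow_zero, one_mul]
    linarith
  | succ L ih =>
    rcases le_or_gt u (2 ^ L * q0) with h | h
    · obtain ⟨l, h1, h2, h3⟩ := ih h
      exact ⟨l, Finset.mem_range.2 (by have := Finset.mem_range.1 h1; omega), h2, h3⟩
    · refine ⟨L + 1, Finset.mem_range.2 (by omega), ?_, hL⟩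
      rw [pow_succ]
      linarith

/-- The exponential moment of the self-normalised sum. -/
theorem exp_selfn [IsProbabilityMeasure μ] {s : ℝ → ℝ} {K θ0 : ℝ} (hs : SG μ s K θ0) {S : Finset Pt} {c : Pt → Env → ℝ}
    {M : ℝ} (b : H19.BF S c M) (hM : 0 ≤ M) {q0 : ℝ} (hq : 0 < q0) (hM0 : M ≤ θ0 * q0) {L : ℕ}
    (hL : ∀ η, Real.sqrt (QV S c η) + q0 ≤ 2 ^ L * q0) :
    Integrable (fun η => Real.exp (|SS s S c η| / (2 * (Real.sqrt (QV S c η) + q0)))) (law μ) ∧
      ∫ η, Real.exp (|SS s S c η| / (2 * (Real.sqrt (QV S c η) + q0))) ∂(law μ) ≤ 2 * (L + 1) * Real.exp K := by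
  have hK : 0 < K := hs.2.1
  have hmS : Measurable (SS s S c) := SS_meas hs.1 b.meas
  have hmQ : Measurable (QV S c) := QV_meas b.meas
  set θ : ℕ → ℝ := fun l => 1 / (2 ^ l * q0) with hθ
  have hθ0 : ∀ l, 0 < θ l := fun l => by simp only [hθ]; positivity
  -- the elementary moments
  have m1 : ∀ (l : ℕ) (σ : ℝ), |σ| = 1 →
      ∫⁻ η, ENNReal.ofReal (Real.exp (σ * θ l * SS s S c η - K * (σ * θ l) ^ 2 * ∑ p ∈ S, c p η ^ 2)) ∂(law μ) ≤ 1 :=
    fun l σ hσ => by
      refine mgf_pred hs hM (θ := σ * θ l) ?_ S c b.meas b.pred b.bd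
      rw [abs_mul, hσ, one_mul, abs_of_pos (hθ0 l)]
      have h1 : θ l ≤ 1 / q0 := by
        simp only [hθ]
        refine one_div_le_one_div_of_le hq ?_
        have := one_le_pow₀ (one_le_two : (1 : ℝ) ≤ 2) (n := l)
        nlinarith
      calc θ l * M ≤ 1 / q0 * (θ0 * q0) := mul_le_mul h1 hM0 hM (by positivity)
        _ = θ0 := by field_simp
  -- pointwise
  have pw : ∀ η, Real.exp (|SS s S c η| / (2 * (Real.sqrt (QV S c η) + q0))) ≤
      Real.exp K * ∑ l ∈ Finset.range (L + 1), (Real.exp (1 * θ l * SS s S c η - K * (1 * θ l) ^ 2 * ∑ p ∈ S, c p η ^ 2) +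
        Real.exp (-1 * θ l * SS s S c η - K * (-1 * θ l) ^ 2 * ∑ p ∈ S, c p η ^ 2)) := fun η => by
    set Q : ℝ := QV S c η with hQ
    have hQ' : ∑ p ∈ S, c p η ^ 2 = Q := rfl
    have hQ0 : 0 ≤ Q := QV_nonneg S c η
    have hs0 := Real.sqrt_nonneg Q
    have hsq := Real.sq_sqrt hQ0
    set u : ℝ := Real.sqrt Q + q0 with hu
    have hu0 : 0 < u := by linarith
    obtain ⟨l, l1, l2, l3⟩ := exists_dyadic hq (show q0 ≤ u by linarith) (hL η)
    have hp : (0 : ℝ) < 2 ^ l * q0 := by positivity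
    have t1 : θ l * u ≤ 1 := by
      simp only [hθ]
      rw [div_mul_eq_mul_div, one_mul, div_le_one hp]
      exact l3
    have t2 : 1 / (2 * u) ≤ θ l := by
      simp only [hθ]
      exact one_div_le_one_div_of_le hp l2
    have t3 : K * θ l ^ 2 * Q ≤ K := by
      have e1 : Q ≤ u ^ 2 := by rw [hu]; nlinarith
      have e2 : θ l ^ 2 * Q ≤ (θ l * u) ^ 2 := by
        rw [mul_pow]
        exact mul_le_mul_of_nonneg_left e1 (sq_nonneg _)
      have e3 : (θ l * u) ^ 2 ≤ 1 := by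
        have := mul_pos (hθ0 l) hu0
        nlinarith
      nlinarith
    have t4 : |SS s S c η| / (2 * u) ≤ θ l * |SS s S c η| := by
      have := mul_le_mul_of_nonneg_right t2 (abs_nonneg (SS s S c η))
      calc |SS s S c η| / (2 * u) = 1 / (2 * u) * |SS s S c η| := by ring
        _ ≤ _ := this
    have t5 : Real.exp (|SS s S c η| / (2 * u)) ≤ Real.exp K * Real.exp (θ l * |SS s S c η| - K * θ l ^ 2 * Q) := by
      rw [← Real.exp_add]
      exact Real.exp_le_exp.2 (by linarith)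
    have t6 : Real.exp (θ l * |SS s S c η| - K * θ l ^ 2 * Q) ≤
        Real.exp (1 * θ l * SS s S c η - K * (1 * θ l) ^ 2 * Q) + Real.exp (-1 * θ l * SS s S c η - K * (-1 * θ l) ^ 2 * Q) := by
      have e1 : K * (1 * θ l) ^ 2 * Q = K * θ l ^ 2 * Q := by ring
      have e2 : K * (-1 * θ l) ^ 2 * Q = K * θ l ^ 2 * Q := by ring
      rw [e1, e2]
      rcases le_or_gt 0 (SS s S c η) with h | h
      · rw [abs_of_nonneg h, one_mul]
        linarith [Real.exp_pos (-1 * θ l * SS s S c η - K * θ l ^ 2 * Q)]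
      · rw [abs_of_neg h]
        have e3 : θ l * -SS s S c η = -1 * θ l * SS s S c η := by ring
        rw [e3]
        linarith [Real.exp_pos (1 * θ l * SS s S c η - K * θ l ^ 2 * Q)]
    refine t5.trans (mul_le_mul_of_nonneg_left ?_ (Real.exp_pos _).le)
    rw [hQ']
    refine t6.trans (Finset.single_le_sum (f := fun l => Real.exp (1 * θ l * SS s S c η - K * (1 * θ l) ^ 2 * Q) +
      Real.exp (-1 * θ l * SS s S c η - K * (-1 * θ l) ^ 2 * Q)) (fun l _ => by positivity) l1)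
  -- integrate
  have hmG : ∀ (l : ℕ) (σ : ℝ), Measurable fun η => Real.exp (σ * θ l * SS s S c η - K * (σ * θ l) ^ 2 * ∑ p ∈ S, c p η ^ 2) :=
    fun l σ => ((hmS.const_mul _).sub (hmQ.const_mul _)).exp
  have iG : ∀ (l : ℕ) (σ : ℝ), |σ| = 1 →
      Integrable (fun η => Real.exp (σ * θ l * SS s S c η - K * (σ * θ l) ^ 2 * ∑ p ∈ S, c p η ^ 2)) (law μ) ∧
      ∫ η, Real.exp (σ * θ l * SS s S c η - K * (σ * θ l) ^ 2 * ∑ p ∈ S, c p η ^ 2) ∂(law μ) ≤ 1 := fun l σ hσ => by
    have hi : Integrable (fun η => Real.exp (σ * θ l * SS s S c η - K * (σ * θ l) ^ 2 * ∑ p ∈ S, c p η ^ 2)) (law μ) := by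
      refine ⟨(hmG l σ).aestronglyMeasurable, ?_⟩
      rw [hasFiniteIntegral_iff_ofReal (ae_of_all _ fun η => (Real.exp_pos _).le)]
      exact (m1 l σ hσ).trans_lt ENNReal.one_lt_top
    refine ⟨hi, ?_⟩
    have h1 := m1 l σ hσ
    rw [← ofReal_integral_eq_lintegral_ofReal hi (ae_of_all _ fun η => (Real.exp_pos _).le), ← ENNReal.ofReal_one] at h1
    exact (ENNReal.ofReal_le_ofReal_iff zero_le_one).1 h1
  have one1 : |(1 : ℝ)| = 1 := abs_one
  have one2 : |(-1 : ℝ)| = 1 := by rw [abs_neg, abs_one]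
  have iF : ∀ l : ℕ, Integrable (fun η => Real.exp (1 * θ l * SS s S c η - K * (1 * θ l) ^ 2 * ∑ p ∈ S, c p η ^ 2) +
        Real.exp (-1 * θ l * SS s S c η - K * (-1 * θ l) ^ 2 * ∑ p ∈ S, c p η ^ 2)) (law μ) := fun l =>
    (iG l 1 one1).1.add (iG l (-1) one2).1
  have hG : Integrable (fun η => Real.exp K * ∑ l ∈ Finset.range (L + 1),
      (Real.exp (1 * θ l * SS s S c η - K * (1 * θ l) ^ 2 * ∑ p ∈ S, c p η ^ 2) +
        Real.exp (-1 * θ l * SS s S c η - K * (-1 * θ l) ^ 2 * ∑ p ∈ S, c p η ^ 2))) (law μ) :=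
    (integrable_finsetSum _ fun l _ => iF l).const_mul _
  have hmL : Measurable fun η => Real.exp (|SS s S c η| / (2 * (Real.sqrt (QV S c η) + q0))) := by
    have habs : Measurable fun η => |SS s S c η| := by
      have := hmS.norm
      simpa [Real.norm_eq_abs] using this
    exact (habs.div ((hmQ.sqrt.add_const q0).const_mul 2)).exp
  have hI : Integrable (fun η => Real.exp (|SS s S c η| / (2 * (Real.sqrt (QV S c η) + q0)))) (law μ) :=
    hG.mono' hmL.aestronglyMeasurable (ae_of_all _ fun η => by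
      rw [Real.norm_eq_abs, abs_of_pos (Real.exp_pos _)]
      exact pw η)
  refine ⟨hI, (integral_mono hI hG pw).trans ?_⟩
  rw [integral_const_mul, integral_finsetSum _ fun l _ => iF l]
  have hsum : ∑ l ∈ Finset.range (L + 1), ∫ η, (Real.exp (1 * θ l * SS s S c η - K * (1 * θ l) ^ 2 * ∑ p ∈ S, c p η ^ 2) +
        Real.exp (-1 * θ l * SS s S c η - K * (-1 * θ l) ^ 2 * ∑ p ∈ S, c p η ^ 2)) ∂(law μ) ≤ 2 * (L + 1) := by
    refine (Finset.sum_le_card_nsmul _ _ 2 fun l _ => ?_).trans_eq (by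
      rw [Finset.card_range, nsmul_eq_mul]; push_cast; ring)
    rw [integral_add (iG l 1 one1).1 (iG l (-1) one2).1]
    linarith [(iG l 1 one1).2, (iG l (-1) one2).2]
  calc Real.exp K * _ ≤ Real.exp K * (2 * (L + 1)) := mul_le_mul_of_nonneg_left hsum (Real.exp_pos _).le
    _ = _ := by ring

/-- **The self-normalised estimate of a score sum against a bounded functional.** -/
theorem est_Q [IsProbabilityMeasure μ] {s : ℝ → ℝ} {K θ0 : ℝ} (hs : SG μ s K θ0) {S : Finset Pt} {c : Pt → Env → ℝ}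
    {M : ℝ} (b : H19.BF S c M) (hM : 0 ≤ M) {q0 : ℝ} (hq : 0 < q0) (hM0 : M ≤ θ0 * q0) {L : ℕ}
    (hL : ∀ η, Real.sqrt (QV S c η) + q0 ≤ 2 ^ L * q0) {a D : ℝ} (ha : 0 ≤ a) {Ψ : Env → ℝ} (m0 : Integrable Ψ (law μ))
    (hD : ∀ η, |Ψ η| ≤ D) :
    ∫ η, |Ψ η| * |SS s S c η| ∂(law μ) ≤ 2 * a * ∫ η, |Ψ η| * (Real.sqrt (QV S c η) + q0) ∂(law μ) +
      D * (2 ^ L * q0) * (8 * (L + 1) * Real.exp (K - a / 2)) := by
  obtain ⟨i1, j1⟩ := exp_selfn hs b hM hq hM0 hL
  have hD0 : 0 ≤ D := (abs_nonneg _).trans (hD (fun _ => 0))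
  have hmQ : Measurable (QV S c) := QV_meas b.meas
  set Y : Env → ℝ := fun η => |SS s S c η| / (2 * (Real.sqrt (QV S c η) + q0)) with hY
  have hu : ∀ η, 0 < Real.sqrt (QV S c η) + q0 := fun η => by linarith [Real.sqrt_nonneg (QV S c η)]
  have hY0 : ∀ η, 0 ≤ Y η := fun η => div_nonneg (abs_nonneg _) (by linarith [hu η])
  have hSS : ∀ η, |SS s S c η| = 2 * (Real.sqrt (QV S c η) + q0) * Y η := fun η => by
    simp only [hY]
    rw [mul_div_cancel₀]
    linarith [hu η]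
  have hY1 : ∀ η, Y η ≤ a + 2 * Real.exp (-(a / 2)) * Real.exp (Y η) := fun η => by
    rcases le_or_gt (Y η) a with h | h
    · have : 0 ≤ 2 * Real.exp (-(a / 2)) * Real.exp (Y η) := by positivity
      linarith
    · have h1 : Y η / 2 ≤ Real.exp (Y η / 2) := by linarith [Real.add_one_le_exp (Y η / 2)]
      have h2 : Real.exp (Y η / 2) ≤ Real.exp (-(a / 2)) * Real.exp (Y η) := by
        rw [← Real.exp_add]
        exact Real.exp_le_exp.2 (by linarith)
      nlinarith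
  have hpt : ∀ η, |Ψ η| * |SS s S c η| ≤ 2 * a * (|Ψ η| * (Real.sqrt (QV S c η) + q0)) +
      D * (2 ^ L * q0) * (4 * Real.exp (-(a / 2)) * Real.exp (Y η)) := fun η => by
    have e1 : |Ψ η| * |SS s S c η| = 2 * (|Ψ η| * (Real.sqrt (QV S c η) + q0)) * Y η := by
      rw [hSS]; ring
    have e2 : 0 ≤ |Ψ η| * (Real.sqrt (QV S c η) + q0) := mul_nonneg (abs_nonneg _) (hu η).le
    have e3 : |Ψ η| * (Real.sqrt (QV S c η) + q0) ≤ D * (2 ^ L * q0) :=
      mul_le_mul (hD η) (hL η) (hu η).le hD0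
    have e4 := mul_le_mul_of_nonneg_left (hY1 η) (by linarith : 0 ≤ 2 * (|Ψ η| * (Real.sqrt (QV S c η) + q0)))
    have e5 : 0 ≤ Real.exp (-(a / 2)) * Real.exp (Y η) := by positivity
    rw [e1]
    nlinarith [mul_le_mul_of_nonneg_right e3 e5]
  have iA : Integrable (fun η => |Ψ η| * (Real.sqrt (QV S c η) + q0)) (law μ) := by
    refine (m0.abs.mul_const (2 ^ L * q0)).mono'
      (m0.abs.aestronglyMeasurable.mul ((hmQ.sqrt.add_const q0).aestronglyMeasurable)) (ae_of_all _ fun η => ?_)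
    rw [Real.norm_eq_abs, abs_of_nonneg (mul_nonneg (abs_nonneg _) (hu η).le)]
    exact mul_le_mul_of_nonneg_left (hL η) (abs_nonneg _)
  have iB : Integrable (fun η => 4 * Real.exp (-(a / 2)) * Real.exp (Y η)) (law μ) := i1.const_mul _
  have iT : Integrable (fun η => 2 * a * (|Ψ η| * (Real.sqrt (QV S c η) + q0)) +
      D * (2 ^ L * q0) * (4 * Real.exp (-(a / 2)) * Real.exp (Y η))) (law μ) := (iA.const_mul _).add (iB.const_mul _)
  have hmS : Measurable (SS s S c) := SS_meas hs.1 b.meas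
  have habs : Measurable fun η => |SS s S c η| := by
    have := hmS.norm
    simpa [Real.norm_eq_abs] using this
  have iL : Integrable (fun η => |Ψ η| * |SS s S c η|) (law μ) :=
    iT.mono' (m0.abs.aestronglyMeasurable.mul habs.aestronglyMeasurable) (ae_of_all _ fun η => by
      rw [Real.norm_eq_abs, abs_of_nonneg (mul_nonneg (abs_nonneg _) (abs_nonneg _))]
      exact hpt η)
  refine (integral_mono iL iT hpt).trans ?_
  rw [integral_add (iA.const_mul _) (iB.const_mul _), integral_const_mul, integral_const_mul, integral_const_mul]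
  refine add_le_add le_rfl ?_
  have hc : 0 ≤ D * (2 ^ L * q0) := by positivity
  refine mul_le_mul_of_nonneg_left ?_ hc
  calc 4 * Real.exp (-(a / 2)) * ∫ η, Real.exp (Y η) ∂(law μ) ≤ 4 * Real.exp (-(a / 2)) * (2 * (L + 1) * Real.exp K) :=
        mul_le_mul_of_nonneg_left j1 (by positivity)
    _ = 8 * (L + 1) * (Real.exp (-(a / 2)) * Real.exp K) := by ring
    _ = _ := by
        rw [← Real.exp_add]
        congr 2
        ring

end

end Pool.W7d29a1.C0.H41
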