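import Pool.Agent.W_7d29a1_C0.Box41
import Pool.Agent.W_7d29a1_C0.SelfN41

/-!
CURV0 (MP_7d29a1_pr), section SM: the localised slab derivative for an ABSTRACT replica system (plain replicas, conditional
replicas, trees). `Ev X ι` = probability weights on the replicas `ι → X`, depending on the log weights `w : X → ℝ`; `Dr E E'` = the
derivative of `E` is an insertion `∑ j, sg j * A (y j)` in the system `E'`. `Dr.ibp`: integration by parts over a slab, `Ψ` may
see the slab; `box_oneG`: one localised insertion. (helper41)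
-/

set_option autoImplicit false
set_option linter.unusedSectionVars false
set_option linter.unusedVariables false

namespace Pool.W7d29a1.C0.H41

open MeasureTheory ProbabilityTheory Filter Topology Finset
open Pool.Agent.W_7d29a1_F Pool.Agent.W_7d29a1_C0.H32 Pool.W7d29a1.C0

noncomputable section

/-- Probability weights on the replicas `ι → X`. -/
structure Ev (X ι : Type*) [Fintype X] [Fintype ι] [DecidableEq ι] where
  ρ : (X → ℝ) → (ι → X) → ℝ
  nonneg : ∀ w x, 0 ≤ ρ w x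
  one : ∀ w, ∑ x, ρ w x = 1
  meas : ∀ x, Measurable fun w => ρ w x

variable {X ι ι' ι2 : Type*} [Fintype X] [Fintype ι] [DecidableEq ι] [Fintype ι'] [DecidableEq ι'] [Fintype ι2]
  [DecidableEq ι2] {B : Type*} [Fintype B] [DecidableEq B]

/-- The value of an observable. -/
def Ev.ev (E : Ev X ι) (w : X → ℝ) (Ψ : (ι → X) → ℝ) : ℝ := ∑ x, E.ρ w x * Ψ x

/-- The derivative of `E` along `A` is the insertion of `∑ j, sg j * A (y j)` in `E'`. -/
structure Dr (E : Ev X ι) (E' : Ev X ι') where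
  emb : ι → ι'
  sg : ι' → ℝ
  der : ∀ (Ψ : (ι → X) → ℝ) {w : ℝ → X → ℝ} {A : X → ℝ} {t : ℝ}, HasDerivAt w A t →
    HasDerivAt (fun t => E.ev (w t) Ψ) (E'.ev (w t) fun y => Ψ (fun i => y (emb i)) * ∑ j, sg j * A (y j)) t

variable {E : Ev X ι} {E' : Ev X ι'} {E2 : Ev X ι2}

/-- The insertion. -/
def Dr.ins (d : Dr E E') (A : X → ℝ) (Ψ : (ι → X) → ℝ) : (ι' → X) → ℝ :=
  fun y => Ψ (fun i => y (d.emb i)) * ∑ j, d.sg j * A (y j)

theorem Dr.der' (d : Dr E E') (Ψ : (ι → X) → ℝ) {w : ℝ → X → ℝ} {A : X → ℝ} {t : ℝ} (h : HasDerivAt w A t) :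
    HasDerivAt (fun t => E.ev (w t) Ψ) (E'.ev (w t) (d.ins A Ψ)) t := d.der Ψ h

/-! ### Algebra -/

theorem ev_add (E : Ev X ι) (w : X → ℝ) (Ψ Φ : (ι → X) → ℝ) : E.ev w (fun x => Ψ x + Φ x) = E.ev w Ψ + E.ev w Φ := by
  unfold Ev.ev
  rw [← Finset.sum_add_distrib]
  exact Finset.sum_congr rfl fun x _ => by ring

theorem ev_smul (E : Ev X ι) (w : X → ℝ) (c : ℝ) (Ψ : (ι → X) → ℝ) : E.ev w (fun x => c * Ψ x) = c * E.ev w Ψ := by
  unfold Ev.ev
  rw [Finset.mul_sum]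
  exact Finset.sum_congr rfl fun x _ => by ring

theorem ev_sum {J : Type*} (s : Finset J) (E : Ev X ι) (w : X → ℝ) (Ψ : J → (ι → X) → ℝ) :
    E.ev w (fun x => ∑ j ∈ s, Ψ j x) = ∑ j ∈ s, E.ev w (Ψ j) := by
  unfold Ev.ev
  rw [Finset.sum_comm]
  exact Finset.sum_congr rfl fun x _ => by rw [Finset.mul_sum]

theorem ev_mono (E : Ev X ι) (w : X → ℝ) {Ψ Φ : (ι → X) → ℝ} (h : ∀ x, Ψ x ≤ Φ x) : E.ev w Ψ ≤ E.ev w Φ :=
  Finset.sum_le_sum fun x _ => mul_le_mul_of_nonneg_left (h x) (E.nonneg w x)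

theorem ev_const (E : Ev X ι) (w : X → ℝ) (c : ℝ) : E.ev w (fun _ => c) = c := by
  unfold Ev.ev
  rw [← Finset.sum_mul, E.one, one_mul]

theorem ev_congr (E : Ev X ι) (w : X → ℝ) {Ψ Φ : (ι → X) → ℝ} (h : ∀ x, Ψ x = Φ x) : E.ev w Ψ = E.ev w Φ := by
  rw [funext h]

theorem abs_ev_le (E : Ev X ι) (w : X → ℝ) (Ψ : (ι → X) → ℝ) : |E.ev w Ψ| ≤ E.ev w fun x => |Ψ x| := by
  unfold Ev.ev
  refine (Finset.abs_sum_le_sum_abs _ _).trans_eq (Finset.sum_congr rfl fun x _ => ?_)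
  rw [abs_mul, abs_of_nonneg (E.nonneg w x)]

theorem abs_ev_le_of (E : Ev X ι) (w : X → ℝ) {Ψ : (ι → X) → ℝ} {D : ℝ} (h : ∀ x, |Ψ x| ≤ D) : |E.ev w Ψ| ≤ D :=
  (abs_ev_le E w Ψ).trans ((ev_mono E w h).trans_eq (ev_const E w D))

theorem meas_ev (E : Ev X ι) {w : Env → X → ℝ} {Ψ : Env → (ι → X) → ℝ} (hw : Measurable w) (hΨ : Measurable Ψ) :
    Measurable fun η => E.ev (w η) (Ψ η) := by
  unfold Ev.ev
  exact Finset.measurable_sum _ fun x _ => ((E.meas x).comp hw).mul ((measurable_pi_apply x).comp hΨ)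

theorem ins_smul (d : Dr E E') (c : ℝ) (A : X → ℝ) (Ψ : (ι → X) → ℝ) (y : ι' → X) :
    d.ins (c • A) Ψ y = c * d.ins A Ψ y := by
  unfold Dr.ins
  have e : ∑ j, d.sg j * (c • A) (y j) = c * ∑ j, d.sg j * A (y j) := by
    rw [Finset.mul_sum]
    exact Finset.sum_congr rfl fun j _ => by rw [Pi.smul_apply, smul_eq_mul]; ring
  rw [e]
  ring

theorem ins_sum {J : Type*} (s : Finset J) (d : Dr E E') (A : J → X → ℝ) (Ψ : (ι → X) → ℝ) (y : ι' → X) :
    d.ins (∑ j ∈ s, A j) Ψ y = ∑ j ∈ s, d.ins (A j) Ψ y := by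
  unfold Dr.ins
  simp only [Finset.sum_apply]
  rw [← Finset.mul_sum, Finset.sum_comm]
  congr 1
  exact Finset.sum_congr rfl fun j _ => by rw [Finset.mul_sum]

theorem ins_add (d : Dr E E') (A A' : X → ℝ) (Ψ : (ι → X) → ℝ) (y : ι' → X) :
    d.ins (A + A') Ψ y = d.ins A Ψ y + d.ins A' Ψ y := by
  unfold Dr.ins
  rw [← mul_add, ← Finset.sum_add_distrib]
  congr 1
  exact Finset.sum_congr rfl fun j _ => by rw [Pi.add_apply]; ring

/-- The size of the coefficients. -/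
def Dr.sz (d : Dr E E') : ℝ := ∑ j, |d.sg j|

theorem abs_ins_le (d : Dr E E') {A : X → ℝ} {Ψ : (ι → X) → ℝ} {a D : ℝ} (hA : ∀ y, |A y| ≤ a) (hΨ : ∀ x, |Ψ x| ≤ D)
    (y : ι' → X) : |d.ins A Ψ y| ≤ D * (d.sz * a) := by
  unfold Dr.ins Dr.sz
  rw [abs_mul]
  have h0 : 0 ≤ D := (abs_nonneg _).trans (hΨ fun i => y (d.emb i))
  refine mul_le_mul (hΨ _) ?_ (abs_nonneg _) h0
  rw [Finset.sum_mul]
  refine (Finset.abs_sum_le_sum_abs _ _).trans (Finset.sum_le_sum fun j _ => ?_)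
  rw [abs_mul]
  exact mul_le_mul_of_nonneg_left (hA _) (abs_nonneg _)

theorem meas_ins (d : Dr E E') {A : Env → X → ℝ} {Ψ : Env → (ι → X) → ℝ} (hA : Measurable A) (hΨ : Measurable Ψ) :
    Measurable fun η => d.ins (A η) (Ψ η) := by
  refine measurable_pi_lambda _ fun x => ?_
  unfold Dr.ins
  exact ((measurable_pi_apply _).comp hΨ).mul
    (Finset.measurable_sum _ fun j _ => ((measurable_pi_apply _).comp hA).const_mul _)

theorem ev_ins_Cf (d : Dr E E') (S : Finset Pt) (c : Pt → Env → ℝ) (N : Pt → X → ℝ) (η : Env) (Ψ : (ι → X) → ℝ)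
    (w : X → ℝ) : E'.ev w (d.ins (H19.Cf S c N η) Ψ) = ∑ p ∈ S, c p η * E'.ev w (d.ins (N p) Ψ) := by
  have e : ∀ x, d.ins (H19.Cf S c N η) Ψ x = ∑ p ∈ S, c p η * d.ins (N p) Ψ x := fun x => by
    unfold H19.Cf
    rw [ins_sum]
    exact Finset.sum_congr rfl fun p _ => ins_smul _ _ _ _ _
  rw [ev_congr _ _ e, ev_sum]
  exact Finset.sum_congr rfl fun p _ => ev_smul _ _ _ _

/-! ### Observables -/

/-- A bounded measurable observable. -/
structure Obs (Ψ : Env → (ι → X) → ℝ) (D : ℝ) : Prop where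
  meas : Measurable Ψ
  bd : ∀ η x, |Ψ η x| ≤ D

theorem Obs.ins {Ψ : Env → (ι → X) → ℝ} {D : ℝ} (h : Obs Ψ D) (d : Dr E E') {A : Env → X → ℝ} (hA : Measurable A)
    {a : ℝ} (ha : ∀ η y, |A η y| ≤ a) : Obs (fun η => d.ins (A η) (Ψ η)) (D * (d.sz * a)) :=
  ⟨meas_ins d hA h.meas, fun η x => abs_ins_le d (ha η) (h.bd η) x⟩

theorem Obs.abs {Ψ : Env → (ι → X) → ℝ} {D : ℝ} (h : Obs Ψ D) : Obs (fun η x => |Ψ η x|) D := by
  refine ⟨measurable_pi_lambda _ fun x => ?_, fun η x => by rw [abs_abs]; exact h.bd η x⟩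
  have h1 : Measurable fun η => Ψ η x := (measurable_pi_apply x).comp h.meas
  have h2 := h1.norm
  simpa [Real.norm_eq_abs] using h2

theorem Obs.memLp {μ : Measure ℝ} [IsProbabilityMeasure μ] {Ψ : Env → (ι → X) → ℝ} {D : ℝ} (h : Obs Ψ D) (E : Ev X ι)
    {w : Env → X → ℝ} (hw : Measurable w) : MemLp (fun η => E.ev (w η) (Ψ η)) 2 (law μ) :=
  memLp_of_bd (meas_ev E hw h.meas) fun η => abs_ev_le_of E (w η) (h.bd η)

theorem Obs.int {μ : Measure ℝ} [IsProbabilityMeasure μ] {Ψ : Env → (ι → X) → ℝ} {D : ℝ} (h : Obs Ψ D) (E : Ev X ι)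
    {w : Env → X → ℝ} (hw : Measurable w) : Integrable (fun η => E.ev (w η) (Ψ η)) (law μ) :=
  (h.memLp E hw).integrable (by norm_num)

variable {μ : Measure ℝ} {f f' : ℝ → ℝ}

/-- **Integration by parts over a slab** for a replica system; the observable may see the slab, `Ψ' p` is its derivative along
the site `p`. -/
theorem Dr.ibp [IsProbabilityMeasure μ] (d : Dr E E') (h : DenLaw μ f f') {S : Finset Pt} {c : Pt → Env → ℝ} {M V D D' : ℝ}
    (b : H19.BF S c M) {w : Env → X → ℝ} {N : Pt → X → ℝ} (hw : Wt S w N V) {Ψ : Env → (ι → X) → ℝ}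
    {Ψ' : Pt → Env → (ι → X) → ℝ} (hΨ : Obs Ψ D) (hΨ' : ∀ p ∈ S, Obs (Ψ' p) D')
    (hd : ∀ p ∈ S, ∀ (η : Env) (x : ℝ) (y : ι → X), HasDerivAt (fun t => Ψ (Function.update η p t) y)
      (Ψ' p (Function.update η p x) y) x) :
    ∫ η, E'.ev (w η) (d.ins (H19.Cf S c N η) (Ψ η)) ∂(law μ) + ∫ η, ∑ p ∈ S, c p η * E.ev (w η) (Ψ' p η) ∂(law μ) =
      ∫ η, E.ev (w η) (Ψ η) * SS (sc f f') S c η ∂(law μ) := by
  classical
  obtain ⟨K, θ0, hs⟩ := h.sg
  have hder : ∀ q ∈ S, ∀ (η : Env) (x : ℝ),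
      HasDerivAt (fun t => E.ev (w (Function.update η q t)) (Ψ (Function.update η q t)))
        (E'.ev (w (Function.update η q x)) (d.ins (N q) (Ψ (Function.update η q x))) +
          E.ev (w (Function.update η q x)) (Ψ' q (Function.update η q x))) x := fun q hq η x => by
    -- product rule for the finite sum
    set W : ℝ → X → ℝ := fun t => w (Function.update η q t) with hW
    have hWd : HasDerivAt W (N q) x := hw.der q hq η x
    have h1 : ∀ y : ι → X, HasDerivAt (fun t => E.ρ (W t) y) (E'.ev (W x) (d.ins (N q) (Pi.single y 1))) x := fun y => by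
      have h2 := d.der' (Pi.single y (1 : ℝ)) hWd
      refine h2.congr_of_eventuallyEq (Eventually.of_forall fun t => ?_)
      show E.ρ (W t) y = E.ev (W t) (Pi.single y 1)
      unfold Ev.ev
      rw [Finset.sum_eq_single y (fun z _ hz => by rw [Pi.single_eq_of_ne hz, mul_zero]) (fun h => absurd (mem_univ _) h),
        Pi.single_eq_same, mul_one]
    have h3 : HasDerivAt (fun t => ∑ y, E.ρ (W t) y * Ψ (Function.update η q t) y)
        (∑ y, (E'.ev (W x) (d.ins (N q) (Pi.single y 1)) * Ψ (Function.update η q x) y +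
          E.ρ (W x) y * Ψ' q (Function.update η q x) y)) x :=
      HasDerivAt.fun_sum fun y _ => (h1 y).mul (hd q hq η x y)
    refine h3.congr_deriv ?_
    rw [Finset.sum_add_distrib]
    congr 1
    have e1 : ∀ z, d.ins (N q) (Ψ (Function.update η q x)) z =
        ∑ y, Ψ (Function.update η q x) y * d.ins (N q) (Pi.single y 1) z := fun z => by
      unfold Dr.ins
      rw [Finset.sum_eq_single (fun i => z (d.emb i)) (fun y _ hy => by
        rw [Pi.single_eq_of_ne (Ne.symm hy), zero_mul, mul_zero]) (fun h => absurd (mem_univ _) h), Pi.single_eq_same,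
        one_mul]
    rw [ev_congr _ _ e1, ev_sum]
    exact Finset.sum_congr rfl fun y _ => by rw [ev_smul, mul_comm]
  have m0 : MemLp (fun η => E.ev (w η) (Ψ η)) 2 (law μ) := hΨ.memLp E hw.meas
  have m1 : ∀ q ∈ S, MemLp (fun η => E'.ev (w η) (d.ins (N q) (Ψ η))) 2 (law μ) := fun q hq =>
    (hΨ.ins d (A := fun _ => N q) measurable_const fun η y => hw.bd q hq y).memLp E' hw.meas
  have m2 : ∀ q ∈ S, MemLp (fun η => E.ev (w η) (Ψ' q η)) 2 (law μ) := fun q hq => (hΨ' q hq).memLp E hw.meas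
  have one : MemLp (fun _ : Env => (1 : ℝ)) 2 (law μ) := memLp_const 1
  have mul : ∀ q ∈ S, ∀ {F : Env → ℝ}, MemLp F 2 (law μ) → Integrable (fun η => c q η * F η) (law μ) := fun q hq F hF => by
    have := (H19.memLp_bd (b.meas q hq) (b.bd q hq) one).integrable_mul hF
    refine this.congr (ae_of_all _ fun η => ?_)
    show c q η * 1 * F η = _
    ring
  have i0 : ∀ q ∈ S, Integrable (fun η => c q η * E.ev (w η) (Ψ η)) (law μ) := fun q hq => mul q hq m0
  have i1a : ∀ q ∈ S, Integrable (fun η => c q η * E'.ev (w η) (d.ins (N q) (Ψ η))) (law μ) := fun q hq => mul q hq (m1 q hq)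
  have i1b : ∀ q ∈ S, Integrable (fun η => c q η * E.ev (w η) (Ψ' q η)) (law μ) := fun q hq => mul q hq (m2 q hq)
  have i1 : ∀ q ∈ S, Integrable (fun η => c q η * (E'.ev (w η) (d.ins (N q) (Ψ η)) + E.ev (w η) (Ψ' q η))) (law μ) :=
    fun q hq => mul q hq ((m1 q hq).add (m2 q hq))
  have i2 : ∀ q ∈ S, Integrable (fun η => c q η * E.ev (w η) (Ψ η) * sc f f' (η q)) (law μ) := fun q hq => by
    have := m0.integrable_mul (H19.memLp_SS hs (b.single hq))
    refine this.congr (ae_of_all _ fun η => ?_)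
    show E.ev (w η) (Ψ η) * SS (sc f f') {q} c η = _
    rw [H19.SS_single]
    ring
  have key := h.ibp_slab S (c := c) (Φ := fun η => E.ev (w η) (Ψ η))
    (Φ' := fun q η => E'.ev (w η) (d.ins (N q) (Ψ η)) + E.ev (w η) (Ψ' q η)) b.self hder i0 i1 i2
  rw [← key, ← integral_add]
  · refine integral_congr_ae (ae_of_all _ fun η => ?_)
    show E'.ev (w η) (d.ins (H19.Cf S c N η) (Ψ η)) + ∑ p ∈ S, c p η * E.ev (w η) (Ψ' p η) =
      ∑ p ∈ S, c p η * (E'.ev (w η) (d.ins (N p) (Ψ η)) + E.ev (w η) (Ψ' p η))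
    rw [ev_ins_Cf, ← Finset.sum_add_distrib]
    exact Finset.sum_congr rfl fun p _ => by ring
  · have e : (fun η => E'.ev (w η) (d.ins (H19.Cf S c N η) (Ψ η))) =
        fun η => ∑ p ∈ S, c p η * E'.ev (w η) (d.ins (N p) (Ψ η)) := funext fun η => ev_ins_Cf d S c N η (Ψ η) (w η)
    rw [e]
    exact integrable_finsetSum _ i1a
  · exact integrable_finsetSum _ i1b

/-- The same, the observable is blind on the slab. -/
theorem Dr.ibp_blind [IsProbabilityMeasure μ] (d : Dr E E') (h : DenLaw μ f f') {S : Finset Pt} {c : Pt → Env → ℝ}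
    {M V D : ℝ} (b : H19.BF S c M) {w : Env → X → ℝ} {N : Pt → X → ℝ} (hw : Wt S w N V) {Ψ : Env → (ι → X) → ℝ}
    (hΨ : Obs Ψ D) (hbl : ∀ q ∈ S, ∀ (η : Env) (x : ℝ), Ψ (Function.update η q x) = Ψ η) :
    ∫ η, E'.ev (w η) (d.ins (H19.Cf S c N η) (Ψ η)) ∂(law μ) =
      ∫ η, E.ev (w η) (Ψ η) * SS (sc f f') S c η ∂(law μ) := by
  have h1 := d.ibp h b hw (Ψ := Ψ) (Ψ' := fun _ _ _ => 0) hΨ (D' := 0)
    (fun p _ => ⟨measurable_const, fun η x => by rw [abs_zero]⟩) (fun p hp η x y => by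
      have e : ∀ t : ℝ, Ψ (Function.update η p t) y = Ψ η y := fun t => by rw [hbl p hp]
      simp only [e]
      exact hasDerivAt_const x _)
  have h2 : ∫ η, ∑ p ∈ S, c p η * E.ev (w η) (fun _ : ι → X => (0 : ℝ)) ∂(law μ) = 0 := by
    have e : ∀ η, ∑ p ∈ S, c p η * E.ev (w η) (fun _ : ι → X => (0 : ℝ)) = 0 := fun η =>
      Finset.sum_eq_zero fun p _ => by rw [ev_const, mul_zero]
    simp_rw [e]
    exact integral_zero _ _
  rw [← h1, h2, add_zero]

end

end Pool.W7d29a1.C0.H41
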