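import Pool.Agent.W_7d29a1_C0.BoxG41

/-!
CURV0 (MP_7d29a1_pr), section SM: ONE and TWO localised insertions for an abstract replica system. `box_oneG`, `box_twoG`; the
instance of the plain replicas (`repEv`, `repDr`). (helper41)
-/

set_option autoImplicit false
set_option linter.unusedSectionVars false
set_option linter.unusedVariables false

namespace Pool.W7d29a1.C0.H41

open MeasureTheory ProbabilityTheory Filter Topology Finset
open Pool.Agent.W_7d29a1_F Pool.Agent.W_7d29a1_C0.H32 Pool.W7d29a1.C0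

noncomputable section

variable {X ι ι' ι2 : Type*} [Fintype X] [Nonempty X] [Fintype ι] [DecidableEq ι] [Fintype ι'] [DecidableEq ι'] [Fintype ι2]
  [DecidableEq ι2] {B : Type*} [Fintype B] [DecidableEq B] {E : Ev X ι} {E' : Ev X ι'} {E2 : Ev X ι2}

/-- The part of `Ψ` with the replicas in the boxes `β`. -/
def lcG (b : X → B) (β : ι → B) (Ψ : (ι → X) → ℝ) : (ι → X) → ℝ := fun x => if (fun i => b (x i)) = β then Ψ x else 0

/-- The insertion of a function which depends on the boxes of the replicas. -/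
def Dr.insR (d : Dr E E') (b : X → B) (R : (ι → B) → X → ℝ) (Ψ : (ι → X) → ℝ) : (ι' → X) → ℝ :=
  fun y => d.ins (R fun i => b (y (d.emb i))) Ψ y

theorem sum_lcG (b : X → B) (Ψ : (ι → X) → ℝ) (x : ι → X) : ∑ β, lcG b β Ψ x = Ψ x := by
  unfold lcG
  rw [Finset.sum_ite_eq]
  simp

theorem sum_abs_lcG (b : X → B) (Ψ : (ι → X) → ℝ) (x : ι → X) : ∑ β, |lcG b β Ψ x| = |Ψ x| := by
  have e : ∀ β : ι → B, |lcG b β Ψ x| = if (fun i => b (x i)) = β then |Ψ x| else 0 := fun β => by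
    unfold lcG
    split_ifs with h
    · rfl
    · exact abs_zero
  rw [Finset.sum_congr rfl fun β _ => e β, Finset.sum_ite_eq]
  simp

theorem abs_lcG_le (b : X → B) (β : ι → B) (Ψ : (ι → X) → ℝ) (x : ι → X) : |lcG b β Ψ x| ≤ |Ψ x| := by
  unfold lcG
  split_ifs
  · exact le_rfl
  · rw [abs_zero]
    exact abs_nonneg _

theorem sum_ins_lcG (d : Dr E E') (b : X → B) (A : (ι → B) → X → ℝ) (Ψ : (ι → X) → ℝ) (y : ι' → X) :
    ∑ β, d.ins (A β) (lcG b β Ψ) y = d.insR b A Ψ y := by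
  have e : ∀ β : ι → B, d.ins (A β) (lcG b β Ψ) y =
      if (fun i => b (y (d.emb i))) = β then d.ins (A β) Ψ y else 0 := fun β => by
    unfold Dr.ins lcG
    split_ifs with h
    · rfl
    · rw [zero_mul]
  rw [Finset.sum_congr rfl fun β _ => e β, Finset.sum_ite_eq]
  simp [Dr.insR]

theorem ins_box (d : Dr E E') (b : X → B) {T : X → ℝ} {C R : (ι → B) → X → ℝ} (h : ∀ β, T = C β + R β)
    (Ψ : (ι → X) → ℝ) (y : ι' → X) :
    d.ins T Ψ y = ∑ β, d.ins (C β) (lcG b β Ψ) y + d.insR b R Ψ y := by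
  rw [sum_ins_lcG]
  unfold Dr.insR
  rw [← ins_add, ← h]

theorem Obs.lc {Ψ : Env → (ι → X) → ℝ} {D : ℝ} (h : Obs Ψ D) (b : X → B) (β : ι → B) :
    Obs (fun η => lcG b β (Ψ η)) D := by
  refine ⟨measurable_pi_lambda _ fun x => ?_, fun η x => (abs_lcG_le b β (Ψ η) x).trans (h.bd η x)⟩
  unfold lcG
  by_cases h' : (fun i => b (x i)) = β
  · simp only [h', if_true]
    exact (measurable_pi_apply x).comp h.meas
  · simp only [h', if_false]
    exact measurable_const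

theorem Obs.insR {Ψ : Env → (ι → X) → ℝ} {D : ℝ} (h : Obs Ψ D) (d : Dr E E') (b : X → B)
    {R : Env → (ι → B) → X → ℝ} (hR : ∀ β, Measurable fun η => R η β) {a : ℝ} (ha : ∀ η β y, |R η β y| ≤ a) :
    Obs (fun η => d.insR b (R η) (Ψ η)) (D * (d.sz * a)) := by
  refine ⟨measurable_pi_lambda _ fun x => ?_, fun η x => abs_ins_le d (ha η _) (h.bd η) x⟩
  exact (measurable_pi_apply x).comp (meas_ins d (hR fun i => b (x (d.emb i))) h.meas)

/-- The sum of the localised parts. -/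
theorem sum_int_lcG {μ : Measure ℝ} [IsProbabilityMeasure μ] {Ψ : Env → (ι → X) → ℝ} {D : ℝ} (hΨ : Obs Ψ D) (E : Ev X ι)
    {w : Env → X → ℝ} (hw : Measurable w) (b : X → B) :
    ∑ β : ι → B, ∫ η, E.ev (w η) (fun x => |lcG b β (Ψ η) x|) ∂(law μ) = ∫ η, E.ev (w η) (fun x => |Ψ η x|) ∂(law μ) := by
  rw [← integral_finsetSum _ fun β _ => (hΨ.lc b β).abs.int E hw]
  refine integral_congr_ae (ae_of_all _ fun η => ?_)
  show ∑ β, E.ev (w η) (fun x => |lcG b β (Ψ η) x|) = E.ev (w η) fun x => |Ψ η x|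
  rw [← ev_sum]
  exact ev_congr _ _ fun x => sum_abs_lcG b (Ψ η) x

variable {μ : Measure ℝ} {f f' : ℝ → ℝ}

/-- **One localised insertion**, abstract replica system. -/
theorem box_oneG [IsProbabilityMeasure μ] (d : Dr E E') (h : DenLaw μ f f') {K θ0 : ℝ} (hs : SG μ (sc f f') K θ0)
    {S : Finset Pt} {c : Pt → Env → ℝ} {M V D : ℝ} (hc : H19.BF S c M) (hM : 0 ≤ M) {w : Env → X → ℝ} {N : Pt → X → ℝ}
    (hw : Wt S w N V) {Ψ : Env → (ι → X) → ℝ} (hΨ : Obs Ψ D)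
    (hbl : ∀ q ∈ S, ∀ (η : Env) (x : ℝ), Ψ (Function.update η q x) = Ψ η)
    (b : X → B) {χ : (ι → B) → Pt → ℝ} (h0 : ∀ β p, 0 ≤ χ β p) (h1 : ∀ β p, χ β p ≤ 1) {t a Q : ℝ} (ht : 0 < t)
    (ha : 0 ≤ a) (htM : t * M ≤ θ0) (hQ : ∀ β η, QV S (cut (χ β) c) η ≤ Q) :
    |∫ η, E'.ev (w η) (d.ins (H19.Cf S c N η) (Ψ η)) ∂(law μ)| ≤
      a * ∫ η, E.ev (w η) (fun x => |Ψ η x|) ∂(law μ) +
      (Fintype.card (ι → B) : ℝ) * (D * (2 / t * Real.exp (-(t * a / 2)) * (2 * Real.exp (K * t ^ 2 * Q)))) +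
      ∫ η, E'.ev (w η) (fun y => |d.insR b (fun β => H19.Cf S (cut' (χ β) c) N η) (Ψ η) y|) ∂(law μ) := by
  have hCf : ∀ β : ι → B, ∀ η y, |H19.Cf S (cut (χ β) c) N η y| ≤ S.card * (M * V) := fun β η y =>
    abs_Cf_le (BF_mul hc (h0 β) (h1 β)).bd hw.bd η y
  have hCf' : ∀ η (β : ι → B) y, |H19.Cf S (cut' (χ β) c) N η y| ≤ S.card * (M * V) := fun η β y =>
    abs_Cf_le (BF_mul' hc (h0 β) (h1 β)).bd hw.bd η y
  have hmC : ∀ β : ι → B, Measurable fun η => H19.Cf S (cut (χ β) c) N η := fun β =>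
    meas_Cf (BF_mul hc (h0 β) (h1 β)).meas N
  have hmC' : ∀ β : ι → B, Measurable fun η => H19.Cf S (cut' (χ β) c) N η := fun β =>
    meas_Cf (BF_mul' hc (h0 β) (h1 β)).meas N
  have o1 : ∀ β : ι → B, Obs (fun η => d.ins (H19.Cf S (cut (χ β) c) N η) (lcG b β (Ψ η))) (D * (d.sz * (S.card * (M * V)))) :=
    fun β => (hΨ.lc b β).ins d (hmC β) (hCf β)
  have o2 : Obs (fun η => d.insR b (fun β => H19.Cf S (cut' (χ β) c) N η) (Ψ η)) (D * (d.sz * (S.card * (M * V)))) :=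
    hΨ.insR d b (R := fun η β => H19.Cf S (cut' (χ β) c) N η) hmC' hCf'
  have e1 : ∀ η, E'.ev (w η) (d.ins (H19.Cf S c N η) (Ψ η)) =
      ∑ β, E'.ev (w η) (d.ins (H19.Cf S (cut (χ β) c) N η) (lcG b β (Ψ η))) +
        E'.ev (w η) (d.insR b (fun β => H19.Cf S (cut' (χ β) c) N η) (Ψ η)) := fun η => by
    rw [← ev_sum, ← ev_add]
    exact ev_congr _ _ fun x => ins_box d b (C := fun β => H19.Cf S (cut (χ β) c) N η)
      (R := fun β => H19.Cf S (cut' (χ β) c) N η) (fun β => Cf_split (χ β) S c N η) (Ψ η) x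
  simp_rw [e1]
  rw [integral_add (integrable_finsetSum _ fun β _ => (o1 β).int E' hw.meas) (o2.int E' hw.meas),
    integral_finsetSum _ fun β _ => (o1 β).int E' hw.meas]
  refine (abs_add_le _ _).trans (add_le_add ?_ ?_)
  · have k1 : ∀ β : ι → B, |∫ η, E'.ev (w η) (d.ins (H19.Cf S (cut (χ β) c) N η) (lcG b β (Ψ η))) ∂(law μ)| ≤
        a * ∫ η, E.ev (w η) (fun x => |lcG b β (Ψ η) x|) ∂(law μ) +
          D * (2 / t * Real.exp (-(t * a / 2)) * (2 * Real.exp (K * t ^ 2 * Q))) := fun β => by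
      have hb : ∀ q ∈ S, ∀ (η : Env) (x : ℝ), lcG b β (Ψ (Function.update η q x)) = lcG b β (Ψ η) := fun q hq η x => by
        rw [hbl q hq]
      rw [d.ibp_blind h (BF_mul hc (h0 β) (h1 β)) hw (hΨ.lc b β) hb]
      refine (H19.est_one hs (BF_mul hc (h0 β) (h1 β)) hM ht htM (hQ β) ((hΨ.lc b β).int E hw.meas)
        (a := a) (D := D) fun η => abs_ev_le_of E (w η) ((hΨ.lc b β).bd η)).trans ?_
      refine add_le_add (mul_le_mul_of_nonneg_left ?_ ha) le_rfl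
      refine integral_mono ((hΨ.lc b β).int E hw.meas).abs ((hΨ.lc b β).abs.int E hw.meas) fun η => ?_
      exact abs_ev_le E (w η) _
    refine (Finset.abs_sum_le_sum_abs _ _).trans ((Finset.sum_le_sum fun β _ => k1 β).trans_eq ?_)
    rw [Finset.sum_add_distrib, Finset.sum_const, Finset.card_univ, nsmul_eq_mul, ← Finset.mul_sum,
      sum_int_lcG hΨ E hw.meas b]
  · refine (abs_integral_le_integral_abs).trans ?_
    refine integral_mono (o2.int E' hw.meas).abs (o2.abs.int E' hw.meas) fun η => ?_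
    exact abs_ev_le E' (w η) _

/-- The derivative of a path functional of a field on a second slab. -/
theorem hasDerivAt_Cf {S2 : Finset Pt} {p : Pt} {c2 c2' : Pt → Env → ℝ} (N : Pt → X → ℝ)
    (hc2 : ∀ q ∈ S2, ∀ (η : Env) (x : ℝ), HasDerivAt (fun t => c2 q (Function.update η p t))
      (c2' q (Function.update η p x)) x) (η : Env) (x : ℝ) (z : X) :
    HasDerivAt (fun t => H19.Cf S2 c2 N (Function.update η p t) z) (H19.Cf S2 c2' N (Function.update η p x) z) x := by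
  unfold H19.Cf
  simp only [Finset.sum_apply, Pi.smul_apply, smul_eq_mul]
  exact HasDerivAt.fun_sum fun q hq => (hc2 q hq η x).mul_const _

theorem Cf_blind_upd {S : Finset Pt} {c : Pt → Env → ℝ} (N : Pt → X → ℝ) {q : Pt}
    (h : ∀ p ∈ S, ∀ (η : Env) (x : ℝ), c p (Function.update η q x) = c p η) (η : Env) (x : ℝ) :
    H19.Cf S c N (Function.update η q x) = H19.Cf S c N η := by
  unfold H19.Cf
  exact Finset.sum_congr rfl fun p hp => by rw [h p hp]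

/-- **Two insertions in the boxes**: `C1`, `C2` the path functionals of two fields, `Ψ` blind on both slabs. -/
theorem two_cut [IsProbabilityMeasure μ] (d : Dr E E') (d' : Dr E' E2) (h : DenLaw μ f f') {K θ0 : ℝ}
    (hs : SG μ (sc f f') K θ0) {S1 S2 : Finset Pt} (hd : Disjoint S1 S2) {c1 c2 : Pt → Env → ℝ} {c2' : Pt → Pt → Env → ℝ}
    {M1 M2 M3 : ℝ} (b1 : H19.BF S1 c1 M1) (b2 : H19.BF S2 c2 M2) (b3 : ∀ p ∈ S1, H19.BF S2 (c2' p) M3) (hM1 : 0 ≤ M1)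
    (hM2 : 0 ≤ M2) (h12 : ∀ p ∈ S1, ∀ q ∈ S2, ∀ (η : Env) (x : ℝ), c1 p (Function.update η q x) = c1 p η)
    (hc2 : ∀ p ∈ S1, ∀ q ∈ S2, ∀ (η : Env) (x : ℝ), HasDerivAt (fun t => c2 q (Function.update η p t))
      (c2' p q (Function.update η p x)) x)
    {w : Env → X → ℝ} {N : Pt → X → ℝ} {V D : ℝ} (hw1 : Wt S1 w N V) (hw2 : Wt S2 w N V) {Ψ : Env → (ι → X) → ℝ}
    (hΨ : Obs Ψ D) (hb1 : ∀ q ∈ S1, ∀ (η : Env) (x : ℝ), Ψ (Function.update η q x) = Ψ η)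
    (hb2 : ∀ q ∈ S2, ∀ (η : Env) (x : ℝ), Ψ (Function.update η q x) = Ψ η) {t1 t2 a1 a2 Q1 Q2 : ℝ} (q1 : 0 < t1)
    (q2 : 0 < t2) (r1 : 2 * t1 * M1 ≤ θ0) (r2 : 2 * t2 * M2 ≤ θ0) (hQ1 : ∀ η, QV S1 c1 η ≤ Q1) (hQ2 : ∀ η, QV S2 c2 η ≤ Q2)
    (ha1 : 0 ≤ a1) (ha2 : 0 ≤ a2) :
    |∫ η, E2.ev (w η) (d'.ins (H19.Cf S2 c2 N η) (d.ins (H19.Cf S1 c1 N η) (Ψ η))) ∂(law μ)| ≤
      a1 * a2 * ∫ η, |E.ev (w η) (Ψ η)| ∂(law μ) +
      D * ((Real.exp (-(t1 * a1 / 2)) + Real.exp (-(t2 * a2 / 2))) / (t1 * t2) *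
        (2 * Real.exp (4 * K * t1 ^ 2 * Q1) + 2 * Real.exp (4 * K * t2 ^ 2 * Q2))) +
      ∫ η, |E.ev (w η) (Ψ η)| * |SS (sc f f') S2 (H19.Dc S1 c1 c2') η| ∂(law μ) := by
  have hCm : Measurable fun η => H19.Cf S1 c1 N η := meas_Cf b1.meas N
  have hCb : ∀ η y, |H19.Cf S1 c1 N η y| ≤ S1.card * (M1 * V) := fun η y => abs_Cf_le b1.bd hw1.bd η y
  have o1 : Obs (fun η => d.ins (H19.Cf S1 c1 N η) (Ψ η)) (D * (d.sz * (S1.card * (M1 * V)))) := hΨ.ins d hCm hCb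
  have hbl : ∀ q ∈ S2, ∀ (η : Env) (x : ℝ), d.ins (H19.Cf S1 c1 N (Function.update η q x)) (Ψ (Function.update η q x)) =
      d.ins (H19.Cf S1 c1 N η) (Ψ η) := fun q hq η x => by
    rw [hb2 q hq, Cf_blind_upd N (fun p hp η x => h12 p hp q hq η x)]
  have s1 := d'.ibp_blind h b2 hw2 (Ψ := fun η => d.ins (H19.Cf S1 c1 N η) (Ψ η)) o1 hbl
  have m0 : MemLp (fun η => E.ev (w η) (Ψ η)) 2 (law μ) := hΨ.memLp E hw1.meas
  have m1 : ∀ p ∈ S1, MemLp (fun η => E'.ev (w η) (d.ins (N p) (Ψ η))) 2 (law μ) := fun p hp =>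
    (hΨ.ins d (A := fun _ => N p) measurable_const fun η y => hw1.bd p hp y).memLp E' hw1.meas
  have hder : ∀ p ∈ S1, ∀ (η : Env) (x : ℝ),
      HasDerivAt (fun t => E.ev (w (Function.update η p t)) (Ψ (Function.update η p t)))
        (E'.ev (w (Function.update η p x)) (d.ins (N p) (Ψ (Function.update η p x)))) x := fun p hp η x => by
    have e : ∀ t : ℝ, Ψ (Function.update η p t) = Ψ η := fun t => hb1 p hp η t
    simp only [e]
    exact d.der' (Ψ η) (hw1.der p hp η x)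
  have s2 := H19.slab_two h hd b1 b2 b3 h12 hc2 (Ψ := fun η => E.ev (w η) (Ψ η))
    (Ψ' := fun p η => E'.ev (w η) (d.ins (N p) (Ψ η))) hder m0 m1
  have e1 : ∫ η, E2.ev (w η) (d'.ins (H19.Cf S2 c2 N η) (d.ins (H19.Cf S1 c1 N η) (Ψ η))) ∂(law μ) =
      ∫ η, E.ev (w η) (Ψ η) * (SS (sc f f') S1 c1 η * SS (sc f f') S2 c2 η) ∂(law μ) -
        ∫ η, E.ev (w η) (Ψ η) * SS (sc f f') S2 (H19.Dc S1 c1 c2') η ∂(law μ) := by
    rw [← s2]
    refine s1.trans (integral_congr_ae (ae_of_all _ fun η => ?_))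
    show E'.ev (w η) (d.ins (H19.Cf S1 c1 N η) (Ψ η)) * SS (sc f f') S2 c2 η = _
    rw [ev_ins_Cf]
  rw [e1]
  refine (abs_sub _ _).trans (add_le_add ?_ ?_)
  · exact H19.est_two hs b1 b2 hM1 hM2 q1 q2 r1 r2 hQ1 hQ2 ha1 ha2 (hΨ.int E hw1.meas)
      fun η => abs_ev_le_of E (w η) (hΨ.bd η)
  · refine (abs_integral_le_integral_abs).trans (le_of_eq (integral_congr_ae (ae_of_all _ fun η => ?_)))
    exact abs_mul _ _

/-- **The derivative of a far field**: one insertion in the boxes (slab `S1`), `Ψ` blind, the far path functional `R` of a field of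
the slab `S2` already inserted. -/
theorem cut_far [IsProbabilityMeasure μ] (d : Dr E E') (d' : Dr E' E2) (h : DenLaw μ f f') {K θ0 : ℝ}
    (hs : SG μ (sc f f') K θ0) {S1 S2 : Finset Pt} {c1 r2 : Pt → Env → ℝ} {r2' : Pt → Pt → Env → ℝ}
    {M1 M2 M3 : ℝ} (b1 : H19.BF S1 c1 M1) (b2 : H19.BF S2 r2 M2) (b3 : ∀ p ∈ S1, H19.BF S2 (r2' p) M3) (hM1 : 0 ≤ M1)
    (hr2 : ∀ p ∈ S1, ∀ q ∈ S2, ∀ (η : Env) (x : ℝ), HasDerivAt (fun t => r2 q (Function.update η p t))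
      (r2' p q (Function.update η p x)) x)
    {w : Env → X → ℝ} {N : Pt → X → ℝ} {V D : ℝ} (hw1 : Wt S1 w N V) (hw2 : Wt S2 w N V) {Ψ : Env → (ι → X) → ℝ}
    (hΨ : Obs Ψ D) (hb1 : ∀ q ∈ S1, ∀ (η : Env) (x : ℝ), Ψ (Function.update η q x) = Ψ η) {t1 a1 Q1 : ℝ} (q1 : 0 < t1)
    (r1 : t1 * M1 ≤ θ0) (hQ1 : ∀ η, QV S1 c1 η ≤ Q1) :
    |∫ η, E2.ev (w η) (d'.ins (H19.Cf S1 c1 N η) (d.ins (H19.Cf S2 r2 N η) (Ψ η))) ∂(law μ)| ≤
      a1 * ∫ η, |E'.ev (w η) (d.ins (H19.Cf S2 r2 N η) (Ψ η))| ∂(law μ) +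
      D * (d.sz * (S2.card * (M2 * V))) * (2 / t1 * Real.exp (-(t1 * a1 / 2)) * (2 * Real.exp (K * t1 ^ 2 * Q1))) +
      ∫ η, |E'.ev (w η) (d.ins (H19.Cf S2 (H19.Dc S1 c1 r2') N η) (Ψ η))| ∂(law μ) := by
  have hCm : Measurable fun η => H19.Cf S2 r2 N η := meas_Cf b2.meas N
  have hCb : ∀ η y, |H19.Cf S2 r2 N η y| ≤ S2.card * (M2 * V) := fun η y => abs_Cf_le b2.bd hw2.bd η y
  have o1 : Obs (fun η => d.ins (H19.Cf S2 r2 N η) (Ψ η)) (D * (d.sz * (S2.card * (M2 * V)))) := hΨ.ins d hCm hCb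
  have o2 : ∀ p ∈ S1, Obs (fun η => d.ins (H19.Cf S2 (r2' p) N η) (Ψ η)) (D * (d.sz * (S2.card * (M3 * V)))) := fun p hp =>
    hΨ.ins d (meas_Cf (b3 p hp).meas N) fun η y => abs_Cf_le (b3 p hp).bd hw2.bd η y
  have s1 := d'.ibp h b1 hw1 (Ψ := fun η => d.ins (H19.Cf S2 r2 N η) (Ψ η))
    (Ψ' := fun p η => d.ins (H19.Cf S2 (r2' p) N η) (Ψ η)) o1 o2 (fun p hp η x y => by
      have e : ∀ t : ℝ, Ψ (Function.update η p t) = Ψ η := fun t => hb1 p hp η t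
      simp only [e]
      unfold Dr.ins
      refine HasDerivAt.const_mul _ (HasDerivAt.fun_sum fun j _ => HasDerivAt.const_mul _ ?_)
      exact hasDerivAt_Cf N (hr2 p hp) η x _)
  have e2 : ∀ η, ∑ p ∈ S1, c1 p η * E'.ev (w η) (d.ins (H19.Cf S2 (r2' p) N η) (Ψ η)) =
      E'.ev (w η) (d.ins (H19.Cf S2 (H19.Dc S1 c1 r2') N η) (Ψ η)) := fun η => by
    have e3 : H19.Cf S2 (H19.Dc S1 c1 r2') N η = ∑ p ∈ S1, c1 p η • H19.Cf S2 (r2' p) N η := by
      unfold H19.Cf H19.Dc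
      simp_rw [Finset.smul_sum, Finset.sum_smul]
      rw [Finset.sum_comm]
      exact Finset.sum_congr rfl fun p _ => Finset.sum_congr rfl fun q _ => by rw [smul_smul]
    have e4 : ∀ x, d.ins (H19.Cf S2 (H19.Dc S1 c1 r2') N η) (Ψ η) x =
        ∑ p ∈ S1, c1 p η * d.ins (H19.Cf S2 (r2' p) N η) (Ψ η) x := fun x => by
      rw [e3, ins_sum]
      exact Finset.sum_congr rfl fun p _ => ins_smul _ _ _ _ _
    rw [ev_congr _ _ e4, ev_sum]
    exact Finset.sum_congr rfl fun p _ => (ev_smul _ _ _ _).symm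
  simp_rw [e2] at s1
  rw [eq_sub_of_add_eq s1]
  refine (abs_sub _ _).trans (add_le_add ?_ ?_)
  · exact H19.est_one hs b1 hM1 q1 r1 hQ1 (o1.int E' hw1.meas) fun η => abs_ev_le_of E' (w η) (o1.bd η)
  · exact abs_integral_le_integral_abs

end

end Pool.W7d29a1.C0.H41
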