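import Pool.Agent.W_7d29a1_C0.BoxG41B

/-!
CURV0 (MP_7d29a1_pr), section SM: `box_twoG` = TWO localised insertions in one statement, and the instance of the plain replicas
(`repEv`, `repDr`, `rep_swap`). (helper41)
-/

set_option autoImplicit false
set_option linter.unusedSectionVars false
set_option linter.unusedVariables false

namespace Pool.W7d29a1.C0.H41

open MeasureTheory ProbabilityTheory Filter Topology Finset
open Pool.Agent.W_7d29a1_F Pool.Agent.W_7d29a1_C0.H32 Pool.W7d29a1.C0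

noncomputable section

variable {X ι ι' ι2 : Type*} [Fintype X] [Nonempty X] [Fintype ι] [DecidableEq ι] [Fintype ι'] [DecidableEq ι']
  [Fintype ι2] [DecidableEq ι2] {B : Type*} [Fintype B] [DecidableEq B] {E : Ev X ι} {E' : Ev X ι'} {E2 : Ev X ι2}

theorem sum_abs_ins_lcG (d : Dr E E') (b : X → B) (A : (ι → B) → X → ℝ) (Ψ : (ι → X) → ℝ) (y : ι' → X) :
    ∑ β, |d.ins (A β) (lcG b β Ψ) y| = |d.insR b A Ψ y| := by
  have e : ∀ β : ι → B, |d.ins (A β) (lcG b β Ψ) y| =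
      if (fun i => b (y (d.emb i))) = β then |d.ins (A β) Ψ y| else 0 := fun β => by
    unfold Dr.ins lcG
    split_ifs with h
    · rfl
    · rw [zero_mul, abs_zero]
  rw [Finset.sum_congr rfl fun β _ => e β, Finset.sum_ite_eq]
  simp [Dr.insR]

theorem ins_lin (d : Dr E E') (A : X → ℝ) {J : Type*} (s : Finset J) {Φ : (ι → X) → ℝ} {Φj : J → (ι → X) → ℝ}
    {Φ0 : (ι → X) → ℝ} (h : ∀ x, Φ x = ∑ j ∈ s, Φj j x + Φ0 x) (y : ι' → X) :
    d.ins A Φ y = ∑ j ∈ s, d.ins A (Φj j) y + d.ins A Φ0 y := by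
  unfold Dr.ins
  rw [h, add_mul, Finset.sum_mul]

variable {μ : Measure ℝ} {f f' : ℝ → ℝ}

/-- The sum over the boxes of the localised insertions. -/
theorem sum_int_ins [IsProbabilityMeasure μ] (d : Dr E E') (b : X → B) {A : Env → (ι → B) → X → ℝ}
    (hA : ∀ β, Measurable fun η => A η β) {a : ℝ} (ha : ∀ η β y, |A η β y| ≤ a) {Ψ : Env → (ι → X) → ℝ} {D : ℝ}
    (hΨ : Obs Ψ D) {w : Env → X → ℝ} (hw : Measurable w) :
    ∑ β : ι → B, ∫ η, |E'.ev (w η) (d.ins (A η β) (lcG b β (Ψ η)))| ∂(law μ) ≤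
      ∫ η, E'.ev (w η) (fun y => |d.insR b (A η) (Ψ η) y|) ∂(law μ) := by
  have o : ∀ β : ι → B, Obs (fun η => d.ins (A η β) (lcG b β (Ψ η))) (D * (d.sz * a)) := fun β =>
    (hΨ.lc b β).ins d (hA β) fun η y => ha η β y
  have o2 : Obs (fun η => d.insR b (A η) (Ψ η)) (D * (d.sz * a)) := hΨ.insR d b hA ha
  rw [← integral_finsetSum _ fun β _ => ((o β).int E' hw).abs]
  refine integral_mono (integrable_finsetSum _ fun β _ => ((o β).int E' hw).abs) (o2.abs.int E' hw) fun η => ?_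
  show ∑ β, |E'.ev (w η) (d.ins (A η β) (lcG b β (Ψ η)))| ≤ E'.ev (w η) fun y => |d.insR b (A η) (Ψ η) y|
  calc ∑ β, |E'.ev (w η) (d.ins (A η β) (lcG b β (Ψ η)))|
      ≤ ∑ β, E'.ev (w η) (fun y => |d.ins (A η β) (lcG b β (Ψ η)) y|) := Finset.sum_le_sum fun β _ => abs_ev_le _ _ _
    _ = E'.ev (w η) (fun y => ∑ β, |d.ins (A η β) (lcG b β (Ψ η)) y|) := (ev_sum _ _ _ _).symm
    _ = _ := ev_congr _ _ fun y => sum_abs_ins_lcG d b (A η) (Ψ η) y

/-- The path functional of the far part of the second field. -/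
def farF (χ : (ι → B) → Pt → ℝ) (S : Finset Pt) (c : Pt → Env → ℝ) (N : Pt → X → ℝ) (η : Env) (β : ι → B) : X → ℝ :=
  H19.Cf S (cut' (χ β) c) N η

/-- Its derivative along the near part of the first field. -/
def dfarF (χ1 χ2 : (ι → B) → Pt → ℝ) (S1 S2 : Finset Pt) (c1 : Pt → Env → ℝ) (c2' : Pt → Pt → Env → ℝ) (N : Pt → X → ℝ)
    (η : Env) (β : ι → B) : X → ℝ :=
  H19.Cf S2 (H19.Dc S1 (cut (χ1 β) c1) fun p => cut' (χ2 β) (c2' p)) N η

/-- The exponentially small part of two score factors. -/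
def tail2 (K D t1 t2 a1 a2 Q1 Q2 : ℝ) : ℝ :=
  D * ((Real.exp (-(t1 * a1 / 2)) + Real.exp (-(t2 * a2 / 2))) / (t1 * t2) *
    (2 * Real.exp (4 * K * t1 ^ 2 * Q1) + 2 * Real.exp (4 * K * t2 ^ 2 * Q2)))

/-- The exponentially small part of one score factor. -/
def tail1 (K D t a Q : ℝ) : ℝ := D * (2 / t * Real.exp (-(t * a / 2)) * (2 * Real.exp (K * t ^ 2 * Q)))

/-- **TWO LOCALISED INSERTIONS**, abstract replica system. `T1`, `T2` = path functionals of the fields `c1` (slab `S1`) and `c2`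
(slab `S2`, `c2` sees `S1`); cut-offs `χ1`, `χ2` by the boxes of the replicas of `E`, `χ3` by the boxes of the replicas of `E'`. -/
theorem box_twoG [IsProbabilityMeasure μ] (d : Dr E E') (d' : Dr E' E2)
    (hsw : ∀ (w A A' : X → ℝ) (Ψ : (ι → X) → ℝ), E2.ev w (d'.ins A (d.ins A' Ψ)) = E2.ev w (d'.ins A' (d.ins A Ψ)))
    (h : DenLaw μ f f') {K θ0 : ℝ}
    (hs : SG μ (sc f f') K θ0) {S1 S2 : Finset Pt} (hd : Disjoint S1 S2) {c1 c2 : Pt → Env → ℝ} {c2' : Pt → Pt → Env → ℝ}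
    {M1 M2 M3 : ℝ} (b1 : H19.BF S1 c1 M1) (b2 : H19.BF S2 c2 M2) (b3 : ∀ p ∈ S1, H19.BF S2 (c2' p) M3) (hM1 : 0 ≤ M1)
    (hM2 : 0 ≤ M2) (h12 : ∀ p ∈ S1, ∀ q ∈ S2, ∀ (η : Env) (x : ℝ), c1 p (Function.update η q x) = c1 p η)
    (hc2 : ∀ p ∈ S1, ∀ q ∈ S2, ∀ (η : Env) (x : ℝ), HasDerivAt (fun t => c2 q (Function.update η p t))
      (c2' p q (Function.update η p x)) x)
    {w : Env → X → ℝ} {N : Pt → X → ℝ} {V D : ℝ} (hw1 : Wt S1 w N V) (hw2 : Wt S2 w N V) {Ψ : Env → (ι → X) → ℝ}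
    (hΨ : Obs Ψ D) (hb1 : ∀ q ∈ S1, ∀ (η : Env) (x : ℝ), Ψ (Function.update η q x) = Ψ η)
    (hb2 : ∀ q ∈ S2, ∀ (η : Env) (x : ℝ), Ψ (Function.update η q x) = Ψ η)
    (b : X → B) {χ1 χ2 : (ι → B) → Pt → ℝ} {χ3 : (ι' → B) → Pt → ℝ} (z1 : ∀ β p, 0 ≤ χ1 β p) (u1 : ∀ β p, χ1 β p ≤ 1)
    (z2 : ∀ β p, 0 ≤ χ2 β p) (u2 : ∀ β p, χ2 β p ≤ 1) (z3 : ∀ β p, 0 ≤ χ3 β p) (u3 : ∀ β p, χ3 β p ≤ 1)
    {t1 t2 a1 a2 Q1 Q2 Q3 : ℝ} (q1 : 0 < t1)
    (q2 : 0 < t2) (r1 : 2 * t1 * M1 ≤ θ0) (r2 : 2 * t2 * M2 ≤ θ0) (hQ1 : ∀ β η, QV S1 (cut (χ1 β) c1) η ≤ Q1)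
    (hQ2 : ∀ β η, QV S2 (cut (χ2 β) c2) η ≤ Q2) (hQ3 : ∀ β η, QV S2 (cut (χ3 β) c2) η ≤ Q3)
    (ha1 : 0 ≤ a1) (ha2 : 0 ≤ a2) :
    |∫ η, E2.ev (w η) (d'.ins (H19.Cf S2 c2 N η) (d.ins (H19.Cf S1 c1 N η) (Ψ η))) ∂(law μ)| ≤
      (a1 * a2 * ∫ η, E.ev (w η) (fun x => |Ψ η x|) ∂(law μ) +
        (Fintype.card (ι → B) : ℝ) * tail2 K D t1 t2 a1 a2 Q1 Q2 +
        ∑ β : ι → B, ∫ η, |E.ev (w η) (lcG b β (Ψ η))| *
          |SS (sc f f') S2 (H19.Dc S1 (cut (χ1 β) c1) fun p => cut (χ2 β) (c2' p)) η| ∂(law μ)) +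
      (a1 * ∫ η, E'.ev (w η) (fun y => |d.insR b (farF χ2 S2 c2 N η) (Ψ η) y|) ∂(law μ) +
        (Fintype.card (ι → B) : ℝ) * tail1 K (D * (d.sz * (S2.card * (M2 * V)))) t1 a1 Q1 +
        ∫ η, E'.ev (w η) (fun y => |d.insR b (dfarF χ1 χ2 S1 S2 c1 c2' N η) (Ψ η) y|) ∂(law μ)) +
      (a2 * ∫ η, E'.ev (w η) (fun y => |d.insR b (farF χ1 S1 c1 N η) (Ψ η) y|) ∂(law μ) +
        (Fintype.card (ι' → B) : ℝ) * tail1 K (D * (d.sz * (S1.card * (M1 * V)))) t2 a2 Q3 +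
        ∫ η, E2.ev (w η) (fun y => |d'.insR b (farF χ3 S2 c2 N η)
          (d.insR b (farF χ1 S1 c1 N η) (Ψ η)) y|) ∂(law μ)) := by
  have hV : ∀ η y, |H19.Cf S1 c1 N η y| ≤ S1.card * (M1 * V) := fun η y => abs_Cf_le b1.bd hw1.bd η y
  -- measurability and bounds of the path functionals
  have mC1 : ∀ β : ι → B, Measurable fun η => H19.Cf S1 (cut (χ1 β) c1) N η := fun β =>
    meas_Cf (BF_mul b1 (z1 β) (u1 β)).meas N
  have bC1 : ∀ (β : ι → B) η y, |H19.Cf S1 (cut (χ1 β) c1) N η y| ≤ S1.card * (M1 * V) := fun β η y =>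
    abs_Cf_le (BF_mul b1 (z1 β) (u1 β)).bd hw1.bd η y
  have mR1 : ∀ β : ι → B, Measurable fun η => farF χ1 S1 c1 N η β := fun β => meas_Cf (BF_mul' b1 (z1 β) (u1 β)).meas N
  have bR1 : ∀ η (β : ι → B) y, |farF χ1 S1 c1 N η β y| ≤ S1.card * (M1 * V) := fun η β y =>
    abs_Cf_le (BF_mul' b1 (z1 β) (u1 β)).bd hw1.bd η y
  have mC2 : ∀ β : ι → B, Measurable fun η => H19.Cf S2 (cut (χ2 β) c2) N η := fun β =>
    meas_Cf (BF_mul b2 (z2 β) (u2 β)).meas N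
  have bC2 : ∀ (β : ι → B) η y, |H19.Cf S2 (cut (χ2 β) c2) N η y| ≤ S2.card * (M2 * V) := fun β η y =>
    abs_Cf_le (BF_mul b2 (z2 β) (u2 β)).bd hw2.bd η y
  have mR2 : ∀ β : ι → B, Measurable fun η => farF χ2 S2 c2 N η β := fun β => meas_Cf (BF_mul' b2 (z2 β) (u2 β)).meas N
  have bR2 : ∀ η (β : ι → B) y, |farF χ2 S2 c2 N η β y| ≤ S2.card * (M2 * V) := fun η β y =>
    abs_Cf_le (BF_mul' b2 (z2 β) (u2 β)).bd hw2.bd η y
  have mT2 : Measurable fun η => H19.Cf S2 c2 N η := meas_Cf b2.meas N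
  have bT2 : ∀ η y, |H19.Cf S2 c2 N η y| ≤ S2.card * (M2 * V) := fun η y => abs_Cf_le b2.bd hw2.bd η y
  -- the observables
  have oA : ∀ β : ι → B, Obs (fun η => d.ins (H19.Cf S1 (cut (χ1 β) c1) N η) (lcG b β (Ψ η))) (D * (d.sz * (S1.card * (M1 * V)))) :=
    fun β => (hΨ.lc b β).ins d (mC1 β) (bC1 β)
  have oAA : ∀ β : ι → B, Obs (fun η => d'.ins (H19.Cf S2 (cut (χ2 β) c2) N η)
      (d.ins (H19.Cf S1 (cut (χ1 β) c1) N η) (lcG b β (Ψ η)))) (D * (d.sz * (S1.card * (M1 * V))) * (d'.sz * (S2.card * (M2 * V)))) :=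
    fun β => (oA β).ins d' (mC2 β) (bC2 β)
  have oAR : ∀ β : ι → B, Obs (fun η => d'.ins (farF χ2 S2 c2 N η β)
      (d.ins (H19.Cf S1 (cut (χ1 β) c1) N η) (lcG b β (Ψ η)))) (D * (d.sz * (S1.card * (M1 * V))) * (d'.sz * (S2.card * (M2 * V)))) :=
    fun β => (oA β).ins d' (mR2 β) fun η y => bR2 η β y
  have oR : Obs (fun η => d.insR b (farF χ1 S1 c1 N η) (Ψ η)) (D * (d.sz * (S1.card * (M1 * V)))) :=
    hΨ.insR d b mR1 bR1
  have oTR : Obs (fun η => d'.ins (H19.Cf S2 c2 N η) (d.insR b (farF χ1 S1 c1 N η) (Ψ η)))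
      (D * (d.sz * (S1.card * (M1 * V))) * (d'.sz * (S2.card * (M2 * V)))) := oR.ins d' mT2 bT2
  -- the decomposition
  have e1 : ∀ η, E2.ev (w η) (d'.ins (H19.Cf S2 c2 N η) (d.ins (H19.Cf S1 c1 N η) (Ψ η))) =
      (∑ β, E2.ev (w η) (d'.ins (H19.Cf S2 (cut (χ2 β) c2) N η) (d.ins (H19.Cf S1 (cut (χ1 β) c1) N η) (lcG b β (Ψ η)))) +
        ∑ β, E2.ev (w η) (d'.ins (farF χ2 S2 c2 N η β) (d.ins (H19.Cf S1 (cut (χ1 β) c1) N η) (lcG b β (Ψ η))))) +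
      E2.ev (w η) (d'.ins (H19.Cf S2 c2 N η) (d.insR b (farF χ1 S1 c1 N η) (Ψ η))) := fun η => by
    rw [← ev_sum, ← ev_sum, ← ev_add, ← ev_add]
    refine ev_congr _ _ fun y => ?_
    have k1 : ∀ β : ι → B, d'.ins (H19.Cf S2 c2 N η) (d.ins (H19.Cf S1 (cut (χ1 β) c1) N η) (lcG b β (Ψ η))) y =
        d'.ins (H19.Cf S2 (cut (χ2 β) c2) N η) (d.ins (H19.Cf S1 (cut (χ1 β) c1) N η) (lcG b β (Ψ η))) y +
        d'.ins (farF χ2 S2 c2 N η β) (d.ins (H19.Cf S1 (cut (χ1 β) c1) N η) (lcG b β (Ψ η))) y := fun β => by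
      rw [← ins_add]
      congr 2
      exact Cf_split (χ2 β) S2 c2 N η
    rw [← Finset.sum_add_distrib]
    rw [← Finset.sum_congr rfl fun β _ => k1 β]
    exact ins_lin d' (H19.Cf S2 c2 N η) univ (fun x => ins_box d b (C := fun β => H19.Cf S1 (cut (χ1 β) c1) N η)
      (R := farF χ1 S1 c1 N η) (fun β => Cf_split (χ1 β) S1 c1 N η) (Ψ η) x) y
  simp_rw [e1]
  have iAA := fun β : ι → B => (oAA β).int (μ := μ) E2 hw1.meas
  have iAR := fun β : ι → B => (oAR β).int (μ := μ) E2 hw1.meas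
  have iTR := oTR.int (μ := μ) E2 hw1.meas
  have isum : Integrable (fun η => ∑ β, E2.ev (w η) (d'.ins (H19.Cf S2 (cut (χ2 β) c2) N η)
      (d.ins (H19.Cf S1 (cut (χ1 β) c1) N η) (lcG b β (Ψ η)))) +
        ∑ β, E2.ev (w η) (d'.ins (farF χ2 S2 c2 N η β) (d.ins (H19.Cf S1 (cut (χ1 β) c1) N η) (lcG b β (Ψ η))))) (law μ) :=
    (integrable_finsetSum _ fun β _ => iAA β).add (integrable_finsetSum _ fun β _ => iAR β)
  rw [integral_add isum iTR, integral_add (integrable_finsetSum _ fun β _ => iAA β) (integrable_finsetSum _ fun β _ => iAR β),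
    integral_finsetSum _ fun β _ => iAA β, integral_finsetSum _ fun β _ => iAR β]
  refine (abs_add_le _ _).trans (add_le_add ((abs_add_le _ _).trans (add_le_add ?_ ?_)) ?_)
  · -- both insertions near
    have k1 := fun β : ι → B => two_cut d d' h hs hd (BF_mul b1 (z1 β) (u1 β)) (BF_mul b2 (z2 β) (u2 β))
      (c2' := fun p => cut (χ2 β) (c2' p)) (fun p hp => BF_mul (b3 p hp) (z2 β) (u2 β)) hM1 hM2
      (fun p hp q hq η x => by unfold cut; rw [h12 p hp q hq])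
      (fun p hp q hq η x => (hc2 p hp q hq η x).const_mul (χ2 β q)) hw1 hw2 (hΨ.lc b β)
      (fun q hq η x => by rw [hb1 q hq]) (fun q hq η x => by rw [hb2 q hq]) q1 q2 r1 r2 (hQ1 β) (hQ2 β) ha1 ha2
    refine (Finset.abs_sum_le_sum_abs _ _).trans ((Finset.sum_le_sum fun β _ => k1 β).trans ?_)
    rw [Finset.sum_add_distrib, Finset.sum_add_distrib, Finset.sum_const, Finset.card_univ, nsmul_eq_mul,
      ← Finset.mul_sum]
    refine add_le_add (add_le_add (mul_le_mul_of_nonneg_left ?_ (mul_nonneg ha1 ha2)) le_rfl) le_rfl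
    rw [← sum_int_lcG hΨ E hw1.meas b]
    exact Finset.sum_le_sum fun β _ => integral_mono ((hΨ.lc b β).int E hw1.meas).abs
      ((hΨ.lc b β).abs.int E hw1.meas) fun η => abs_ev_le E (w η) _
  · -- the second insertion far
    have k2 := fun β : ι → B => cut_far d d' h hs (BF_mul b1 (z1 β) (u1 β)) (BF_mul' b2 (z2 β) (u2 β))
      (r2' := fun p => cut' (χ2 β) (c2' p)) (fun p hp => BF_mul' (b3 p hp) (z2 β) (u2 β)) hM1
      (fun p hp q hq η x => (hc2 p hp q hq η x).const_mul (1 - χ2 β q)) hw1 hw2 (hΨ.lc b β)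
      (fun q hq η x => by rw [hb1 q hq]) (a1 := a1) q1 (by nlinarith : t1 * M1 ≤ θ0) (hQ1 β)
    have k3 : ∀ β : ι → B, |∫ η, E2.ev (w η) (d'.ins (farF χ2 S2 c2 N η β)
        (d.ins (H19.Cf S1 (cut (χ1 β) c1) N η) (lcG b β (Ψ η)))) ∂(law μ)| ≤
        a1 * ∫ η, |E'.ev (w η) (d.ins (farF χ2 S2 c2 N η β) (lcG b β (Ψ η)))| ∂(law μ) +
        tail1 K (D * (d.sz * (S2.card * (M2 * V)))) t1 a1 Q1 +
        ∫ η, |E'.ev (w η) (d.ins (dfarF χ1 χ2 S1 S2 c1 c2' N η β) (lcG b β (Ψ η)))| ∂(law μ) := fun β => by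
      simp_rw [hsw _ (farF χ2 S2 c2 N _ β)]
      exact k2 β
    refine (Finset.abs_sum_le_sum_abs _ _).trans ((Finset.sum_le_sum fun β _ => k3 β).trans ?_)
    rw [Finset.sum_add_distrib, Finset.sum_add_distrib, Finset.sum_const, Finset.card_univ, nsmul_eq_mul,
      ← Finset.mul_sum]
    have bD : ∀ (β : ι → B), H19.BF S2 (H19.Dc S1 (cut (χ1 β) c1) fun p => cut' (χ2 β) (c2' p)) (S1.card * (M1 * M3)) :=
      fun β => (BF_mul b1 (z1 β) (u1 β)).dc (fun p hp => BF_mul' (b3 p hp) (z2 β) (u2 β))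
        fun p hp q hq η x => by unfold cut; rw [h12 p hp q hq]
    refine add_le_add (add_le_add (mul_le_mul_of_nonneg_left ?_ ha1) le_rfl) ?_
    · exact sum_int_ins d b mR2 bR2 hΨ hw1.meas
    · exact sum_int_ins d b (A := fun η β => dfarF χ1 χ2 S1 S2 c1 c2' N η β) (fun β => meas_Cf (bD β).meas N)
        (a := S2.card * (S1.card * (M1 * M3) * V)) (fun η β y => abs_Cf_le (bD β).bd hw2.bd η y) hΨ hw1.meas
  · -- the first insertion far
    have hbl : ∀ q ∈ S2, ∀ (η : Env) (x : ℝ), d.insR b (farF χ1 S1 c1 N (Function.update η q x)) (Ψ (Function.update η q x)) =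
        d.insR b (farF χ1 S1 c1 N η) (Ψ η) := fun q hq η x => by
      have e : farF χ1 S1 c1 N (Function.update η q x) = farF χ1 S1 c1 N η := by
        funext β
        exact Cf_blind_upd N (fun p hp η x => by unfold cut'; rw [h12 p hp q hq]) η x
      rw [e, hb2 q hq]
    exact box_oneG d' h hs b2 hM2 hw2 oR hbl b z3 u3 q2 ha2 (by nlinarith : t2 * M2 ≤ θ0) hQ3

/-! ### The plain replicas -/

/-- The plain replicas as a system. -/
def repEv (X : Type*) [Fintype X] [Nonempty X] (m : ℕ) : Ev X (Fin m) where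
  ρ w x := Real.exp (∑ i, w (x i)) / gz w ^ m
  nonneg w x := div_nonneg (Real.exp_pos _).le (pow_pos (gz_pos w) m).le
  one w := by
    have h := rep_one m w
    unfold rep at h
    rw [← h, Finset.sum_div]
    exact Finset.sum_congr rfl fun x _ => by rw [mul_one]
  meas x := by
    unfold gz
    exact ((Finset.measurable_sum _ fun i _ => measurable_pi_apply (x i)).exp).div
      ((Finset.measurable_sum _ fun y _ => (measurable_pi_apply y).exp).pow_const m)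

theorem repEv_ev (m : ℕ) (w : X → ℝ) (Ψ : (Fin m → X) → ℝ) : (repEv X m).ev w Ψ = rep m w Ψ := by
  unfold Ev.ev rep
  rw [Finset.sum_div]
  exact Finset.sum_congr rfl fun x _ => by
    show Real.exp (∑ i, w (x i)) / gz w ^ m * Ψ x = _
    ring

/-- The derivative of the plain replicas. -/
def repDr (X : Type*) [Fintype X] [Nonempty X] (m : ℕ) : Dr (repEv X m) (repEv X (m + 1)) where
  emb := Fin.succ
  sg := Fin.cons (-(m : ℝ)) fun _ => 1
  der := by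
    intro Ψ w A t h
    have h1 := hasDerivAt_rep_gen m Ψ h
    have e1 : (fun t => (repEv X m).ev (w t) Ψ) = fun t => rep m (w t) Ψ := funext fun t => repEv_ev m (w t) Ψ
    rw [e1, repEv_ev]
    have e2 : (fun y : Fin (m + 1) → X => Ψ (fun i => y i.succ) * ∑ j, (Fin.cons (-(m : ℝ)) fun _ => 1 : Fin (m + 1) → ℝ) j * A (y j)) =
        nxt A Ψ := by
      funext y
      rw [Fin.sum_univ_succ, Fin.cons_zero]
      simp only [Fin.cons_succ, one_mul]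
      unfold nxt
      have e3 : Ψ (Fin.tail y) = Ψ fun i => y i.succ := rfl
      rw [e3]
      ring
    rw [e2]
    exact h1

theorem repDr_ins (m : ℕ) (A : X → ℝ) (Ψ : (Fin m → X) → ℝ) : (repDr X m).ins A Ψ = nxt A Ψ := by
  funext y
  show Ψ (fun i => y i.succ) * ∑ j, (Fin.cons (-(m : ℝ)) fun _ => 1 : Fin (m + 1) → ℝ) j * A (y j) = nxt A Ψ y
  rw [Fin.sum_univ_succ, Fin.cons_zero]
  simp only [Fin.cons_succ, one_mul]
  unfold nxt
  have e3 : Ψ (Fin.tail y) = Ψ fun i => y i.succ := rfl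
  rw [e3]
  ring

theorem repDr_swap (m : ℕ) (w A A' : X → ℝ) (Ψ : (Fin m → X) → ℝ) :
    (repEv X (m + 2)).ev w ((repDr X (m + 1)).ins A ((repDr X m).ins A' Ψ)) =
      (repEv X (m + 2)).ev w ((repDr X (m + 1)).ins A' ((repDr X m).ins A Ψ)) := by
  rw [repEv_ev, repEv_ev, repDr_ins, repDr_ins, repDr_ins, repDr_ins]
  exact rep_swap m Ψ w A A'

end

end Pool.W7d29a1.C0.H41
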