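import Pool.Agent.W_7d29a1_C0.BoxG41C

/-!
CURV0 (MP_7d29a1_pr), section SM: THE SLAB STEP, once and twice, for a replica system with a FINITE FAMILY of derived systems
(interface of Ins52). `g1`, `g2` any bounded insertions, `C` = path functional of the cut field of the slab, `r = g - C`: closing
loops and far branches in one term. `stepOne`, `stepTwo`. (helper41)
-/

set_option autoImplicit false
set_option linter.unusedSectionVars false
set_option linter.unusedVariables false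

namespace Pool.W7d29a1.C0.H41

open MeasureTheory ProbabilityTheory Filter Topology Finset
open Pool.Agent.W_7d29a1_F Pool.Agent.W_7d29a1_C0.H32 Pool.W7d29a1.C0

noncomputable section

variable {X ι ι' ι2 : Type*} [Fintype X] [Nonempty X] [Fintype ι] [DecidableEq ι] [Fintype ι'] [DecidableEq ι']
  [Fintype ι2] [DecidableEq ι2] {B : Type*} [Fintype B] [DecidableEq B] {J J2 : Type*} [Fintype J] [Fintype J2]
  {E : Ev X ι} {E' : J → Ev X ι'} {E2 : J → J2 → Ev X ι2}

/-- A replica system with a finite family of derived systems. -/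
structure DrF (E : Ev X ι) (E' : J → Ev X ι') where
  emb : ι → ι'
  sg : J → ι' → ℝ
  der : ∀ (Ψ : (ι → X) → ℝ) {w : ℝ → X → ℝ} {A : X → ℝ} {t : ℝ}, HasDerivAt w A t →
    HasDerivAt (fun t => E.ev (w t) Ψ) (∑ j, (E' j).ev (w t) fun y => Ψ (fun i => y (emb i)) * ∑ k, sg j k * A (y k)) t

/-- The insertion in the system `j`. -/
def DrF.ins (d : DrF E E') (j : J) (A : X → ℝ) (Ψ : (ι → X) → ℝ) : (ι' → X) → ℝ :=
  fun y => Ψ (fun i => y (d.emb i)) * ∑ k, d.sg j k * A (y k)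

/-- The derivative of `E.ev w Ψ` in the direction `A`. -/
def DrF.dev (d : DrF E E') (w A : X → ℝ) (Ψ : (ι → X) → ℝ) : ℝ := ∑ j, (E' j).ev w (d.ins j A Ψ)

/-- The insertion of a function which depends on the boxes of the replicas. -/
def DrF.insR (d : DrF E E') (j : J) (b : X → B) (R : (ι → B) → X → ℝ) (Ψ : (ι → X) → ℝ) : (ι' → X) → ℝ :=
  fun y => d.ins j (R fun i => b (y (d.emb i))) Ψ y

theorem DrF.der' (d : DrF E E') (Ψ : (ι → X) → ℝ) {w : ℝ → X → ℝ} {A : X → ℝ} {t : ℝ} (h : HasDerivAt w A t) :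
    HasDerivAt (fun t => E.ev (w t) Ψ) (d.dev (w t) A Ψ) t := d.der Ψ h

/-- One derived system. -/
def Dr.toF {E1 : Ev X ι'} (d : Dr E E1) : DrF E (fun _ : Unit => E1) where
  emb := d.emb
  sg _ := d.sg
  der := by
    intro Ψ w A t h
    rw [Fintype.sum_unique]
    exact d.der Ψ h

theorem insF_smul (d : DrF E E') (j : J) (c : ℝ) (A : X → ℝ) (Ψ : (ι → X) → ℝ) (y : ι' → X) :
    d.ins j (c • A) Ψ y = c * d.ins j A Ψ y := by
  unfold DrF.ins
  have e : ∑ k, d.sg j k * (c • A) (y k) = c * ∑ k, d.sg j k * A (y k) := by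
    rw [Finset.mul_sum]
    exact Finset.sum_congr rfl fun j _ => by rw [Pi.smul_apply, smul_eq_mul]; ring
  rw [e]
  ring

theorem insF_sum {L : Type*} (s : Finset L) (d : DrF E E') (j : J) (A : L → X → ℝ) (Ψ : (ι → X) → ℝ) (y : ι' → X) :
    d.ins j (∑ l ∈ s, A l) Ψ y = ∑ l ∈ s, d.ins j (A l) Ψ y := by
  unfold DrF.ins
  simp only [Finset.sum_apply]
  rw [← Finset.mul_sum, Finset.sum_comm]
  congr 1
  exact Finset.sum_congr rfl fun j _ => by rw [Finset.mul_sum]

theorem insF_add (d : DrF E E') (j : J) (A A' : X → ℝ) (Ψ : (ι → X) → ℝ) (y : ι' → X) :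
    d.ins j (A + A') Ψ y = d.ins j A Ψ y + d.ins j A' Ψ y := by
  unfold DrF.ins
  rw [← mul_add, ← Finset.sum_add_distrib]
  congr 1
  exact Finset.sum_congr rfl fun j _ => by rw [Pi.add_apply]; ring

theorem insF_lin (d : DrF E E') (j : J) (A : X → ℝ) {L : Type*} (s : Finset L) {Φ : (ι → X) → ℝ} {Φj : L → (ι → X) → ℝ}
    (h : ∀ x, Φ x = ∑ l ∈ s, Φj l x) (y : ι' → X) : d.ins j A Φ y = ∑ l ∈ s, d.ins j A (Φj l) y := by
  unfold DrF.ins
  rw [h, Finset.sum_mul]

/-- The size of the coefficients. -/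
def DrF.sz (d : DrF E E') : ℝ := ∑ j, ∑ k, |d.sg j k|

theorem DrF.sz_nonneg (d : DrF E E') : 0 ≤ d.sz := Finset.sum_nonneg fun j _ => Finset.sum_nonneg fun k _ => abs_nonneg _

theorem abs_insF_le (d : DrF E E') (j : J) {A : X → ℝ} {Ψ : (ι → X) → ℝ} {a D : ℝ} (hA : ∀ y, |A y| ≤ a)
    (hΨ : ∀ x, |Ψ x| ≤ D) (y : ι' → X) : |d.ins j A Ψ y| ≤ D * ((∑ k, |d.sg j k|) * a) := by
  unfold DrF.ins
  rw [abs_mul]
  have h0 : 0 ≤ D := (abs_nonneg _).trans (hΨ fun i => y (d.emb i))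
  refine mul_le_mul (hΨ _) ?_ (abs_nonneg _) h0
  rw [Finset.sum_mul]
  refine (Finset.abs_sum_le_sum_abs _ _).trans (Finset.sum_le_sum fun j _ => ?_)
  rw [abs_mul]
  exact mul_le_mul_of_nonneg_left (hA _) (abs_nonneg _)

theorem Obs.insF {Ψ : Env → (ι → X) → ℝ} {D : ℝ} (h : Obs Ψ D) (d : DrF E E') (j : J) {A : Env → X → ℝ}
    (hA : Measurable A) {a : ℝ} (ha : ∀ η y, |A η y| ≤ a) : Obs (fun η => d.ins j (A η) (Ψ η)) (D * ((∑ k, |d.sg j k|) * a)) := by
  refine ⟨measurable_pi_lambda _ fun x => ?_, fun η x => abs_insF_le d j (ha η) (h.bd η) x⟩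
  unfold DrF.ins
  exact ((measurable_pi_apply _).comp h.meas).mul
    (Finset.measurable_sum _ fun j _ => ((measurable_pi_apply _).comp hA).const_mul _)

theorem Obs.insRF {Ψ : Env → (ι → X) → ℝ} {D : ℝ} (h : Obs Ψ D) (d : DrF E E') (j : J) (b : X → B)
    {R : Env → (ι → B) → X → ℝ} (hR : ∀ β, Measurable fun η => R η β) {a : ℝ} (ha : ∀ η β y, |R η β y| ≤ a) :
    Obs (fun η => d.insR j b (R η) (Ψ η)) (D * ((∑ k, |d.sg j k|) * a)) := by
  refine ⟨measurable_pi_lambda _ fun x => ?_, fun η x => abs_insF_le d j (ha η _) (h.bd η) x⟩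
  exact (measurable_pi_apply x).comp (h.insF d j (hR fun i => b (x (d.emb i))) (fun η y => ha η _ y)).meas

theorem sum_insF_lcG (d : DrF E E') (j : J) (b : X → B) (A : (ι → B) → X → ℝ) (Ψ : (ι → X) → ℝ) (y : ι' → X) :
    ∑ β, d.ins j (A β) (lcG b β Ψ) y = d.insR j b A Ψ y := by
  have e : ∀ β : ι → B, d.ins j (A β) (lcG b β Ψ) y =
      if (fun i => b (y (d.emb i))) = β then d.ins j (A β) Ψ y else 0 := fun β => by
    unfold DrF.ins lcG
    split_ifs with h
    · rfl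
    · rw [zero_mul]
  rw [Finset.sum_congr rfl fun β _ => e β, Finset.sum_ite_eq]
  simp [DrF.insR]

theorem sum_abs_insF_lcG (d : DrF E E') (j : J) (b : X → B) (A : (ι → B) → X → ℝ) (Ψ : (ι → X) → ℝ) (y : ι' → X) :
    ∑ β, |d.ins j (A β) (lcG b β Ψ) y| = |d.insR j b A Ψ y| := by
  have e : ∀ β : ι → B, |d.ins j (A β) (lcG b β Ψ) y| =
      if (fun i => b (y (d.emb i))) = β then |d.ins j (A β) Ψ y| else 0 := fun β => by
    unfold DrF.ins lcG
    split_ifs with h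
    · rfl
    · rw [zero_mul, abs_zero]
  rw [Finset.sum_congr rfl fun β _ => e β, Finset.sum_ite_eq]
  simp [DrF.insR]

/-- The pathwise decomposition of an insertion. -/
theorem dev_box (d : DrF E E') (b : X → B) {g : X → ℝ} {C R : (ι → B) → X → ℝ} (h : ∀ β, g = C β + R β)
    (Ψ : (ι → X) → ℝ) (w : X → ℝ) :
    d.dev w g Ψ = ∑ β, d.dev w (C β) (lcG b β Ψ) + ∑ j, (E' j).ev w (d.insR j b R Ψ) := by
  unfold DrF.dev
  rw [Finset.sum_comm, ← Finset.sum_add_distrib]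
  refine Finset.sum_congr rfl fun j _ => ?_
  rw [← ev_sum, ← ev_add]
  refine ev_congr _ _ fun y => ?_
  rw [sum_insF_lcG]
  unfold DrF.insR
  rw [← insF_add, ← h]

variable {μ : Measure ℝ} {f f' : ℝ → ℝ}

theorem dev_Cf (d : DrF E E') (S : Finset Pt) (c : Pt → Env → ℝ) (N : Pt → X → ℝ) (η : Env) (Ψ : (ι → X) → ℝ)
    (w : X → ℝ) : d.dev w (H19.Cf S c N η) Ψ = ∑ p ∈ S, c p η * d.dev w (N p) Ψ := by
  unfold DrF.dev
  have e : ∀ j, (E' j).ev w (d.ins j (H19.Cf S c N η) Ψ) = ∑ p ∈ S, c p η * (E' j).ev w (d.ins j (N p) Ψ) := fun j => by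
    have e1 : ∀ x, d.ins j (H19.Cf S c N η) Ψ x = ∑ p ∈ S, c p η * d.ins j (N p) Ψ x := fun x => by
      unfold H19.Cf
      rw [insF_sum]
      exact Finset.sum_congr rfl fun p _ => insF_smul _ _ _ _ _ _
    rw [ev_congr _ _ e1, ev_sum]
    exact Finset.sum_congr rfl fun p _ => ev_smul _ _ _ _
  simp_rw [e, Finset.mul_sum]
  exact Finset.sum_comm

/-- The derivative functional is bounded and measurable. -/
theorem memLp_dev [IsProbabilityMeasure μ] (d : DrF E E') {Ψ : Env → (ι → X) → ℝ} {D : ℝ} (h : Obs Ψ D)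
    {A : Env → X → ℝ} (hA : Measurable A) {a : ℝ} (ha : ∀ η y, |A η y| ≤ a) {w : Env → X → ℝ} (hw : Measurable w) :
    MemLp (fun η => d.dev (w η) (A η) (Ψ η)) 2 (law μ) := by
  unfold DrF.dev
  exact memLp_finsetSum _ fun j _ => (h.insF d j hA ha).memLp (E' j) hw

/-- **Integration by parts over a slab**, with a factor `H` blind on the slab. -/
theorem DrF.ibpH [IsProbabilityMeasure μ] (d : DrF E E') (h : DenLaw μ f f') {S : Finset Pt} {c : Pt → Env → ℝ}
    {M V D : ℝ} (b : H19.BF S c M) {w : Env → X → ℝ} {N : Pt → X → ℝ} (hw : Wt S w N V) {Ψ : Env → (ι → X) → ℝ}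
    (hΨ : Obs Ψ D) (hbl : ∀ q ∈ S, ∀ (η : Env) (x : ℝ), Ψ (Function.update η q x) = Ψ η) {H : Env → ℝ}
    (hH : MemLp H 2 (law μ)) (hHb : ∀ q ∈ S, ∀ (η : Env) (x : ℝ), H (Function.update η q x) = H η) :
    ∫ η, H η * d.dev (w η) (H19.Cf S c N η) (Ψ η) ∂(law μ) =
      ∫ η, H η * E.ev (w η) (Ψ η) * SS (sc f f') S c η ∂(law μ) := by
  obtain ⟨K, θ0, hs⟩ := h.sg
  have hder : ∀ q ∈ S, ∀ (η : Env) (x : ℝ),
      HasDerivAt (fun t => H (Function.update η q t) * E.ev (w (Function.update η q t)) (Ψ (Function.update η q t)))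
        (H (Function.update η q x) * d.dev (w (Function.update η q x)) (N q) (Ψ (Function.update η q x))) x :=
    fun q hq η x => by
      have e : ∀ t : ℝ, Ψ (Function.update η q t) = Ψ η := fun t => hbl q hq η t
      have e' : ∀ t : ℝ, H (Function.update η q t) = H η := fun t => hHb q hq η t
      simp only [e, e']
      exact (d.der' (Ψ η) (hw.der q hq η x)).const_mul _
  have hev : ∀ η, |E.ev (w η) (Ψ η)| ≤ D := fun η => abs_ev_le_of E (w η) (hΨ.bd η)
  have mev : Measurable fun η => E.ev (w η) (Ψ η) := meas_ev E hw.meas hΨ.meas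
  have mN : ∀ q ∈ S, Measurable fun η => d.dev (w η) (N q) (Ψ η) := fun q hq => by
    unfold DrF.dev
    exact Finset.measurable_sum _ fun j _ => meas_ev (E' j) hw.meas
      (hΨ.insF d j (A := fun _ => N q) measurable_const fun η y => hw.bd q hq y).meas
  have bN : ∀ q ∈ S, ∀ η, |d.dev (w η) (N q) (Ψ η)| ≤ ∑ j, D * ((∑ k, |d.sg j k|) * V) := fun q hq η => by
    unfold DrF.dev
    exact (Finset.abs_sum_le_sum_abs _ _).trans (Finset.sum_le_sum fun j _ => abs_ev_le_of (E' j) (w η)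
      (abs_insF_le d j (hw.bd q hq) (hΨ.bd η)))
  have m0 : MemLp (fun η => H η * E.ev (w η) (Ψ η)) 2 (law μ) := by
    have := H19.memLp_bd mev hev hH
    exact this.congr_norm (hH.1.mul mev.aestronglyMeasurable) (ae_of_all _ fun η => by rw [mul_comm])
  have m1 : ∀ q ∈ S, MemLp (fun η => H η * d.dev (w η) (N q) (Ψ η)) 2 (law μ) := fun q hq => by
    have := H19.memLp_bd (mN q hq) (bN q hq) hH
    exact this.congr_norm (hH.1.mul (mN q hq).aestronglyMeasurable) (ae_of_all _ fun η => by rw [mul_comm])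
  have one : MemLp (fun _ : Env => (1 : ℝ)) 2 (law μ) := memLp_const 1
  have mul : ∀ q ∈ S, ∀ {F : Env → ℝ}, MemLp F 2 (law μ) → Integrable (fun η => c q η * F η) (law μ) := fun q hq F hF => by
    have := (H19.memLp_bd (b.meas q hq) (b.bd q hq) one).integrable_mul hF
    refine this.congr (ae_of_all _ fun η => ?_)
    show c q η * 1 * F η = _
    ring
  have i0 : ∀ q ∈ S, Integrable (fun η => c q η * (H η * E.ev (w η) (Ψ η))) (law μ) := fun q hq => mul q hq m0
  have i1 : ∀ q ∈ S, Integrable (fun η => c q η * (H η * d.dev (w η) (N q) (Ψ η))) (law μ) :=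
    fun q hq => mul q hq (m1 q hq)
  have i2 : ∀ q ∈ S, Integrable (fun η => c q η * (H η * E.ev (w η) (Ψ η)) * sc f f' (η q)) (law μ) := fun q hq => by
    have := m0.integrable_mul (H19.memLp_SS hs (b.single hq))
    refine this.congr (ae_of_all _ fun η => ?_)
    show H η * E.ev (w η) (Ψ η) * SS (sc f f') {q} c η = _
    rw [H19.SS_single]
    ring
  have key := h.ibp_slab S (c := c) (Φ := fun η => H η * E.ev (w η) (Ψ η))
    (Φ' := fun q η => H η * d.dev (w η) (N q) (Ψ η)) b.self hder i0 i1 i2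
  rw [← key]
  refine integral_congr_ae (ae_of_all _ fun η => ?_)
  show H η * d.dev (w η) (H19.Cf S c N η) (Ψ η) = ∑ p ∈ S, c p η * (H η * d.dev (w η) (N p) (Ψ η))
  rw [dev_Cf, Finset.mul_sum]
  exact Finset.sum_congr rfl fun p _ => by ring

/-- The sum over the boxes of the localised insertions. -/
theorem sum_int_insF [IsProbabilityMeasure μ] (d : DrF E E') (b : X → B) {A : Env → (ι → B) → X → ℝ}
    (hA : ∀ β, Measurable fun η => A η β) {a : ℝ} (ha : ∀ η β y, |A η β y| ≤ a) {Ψ : Env → (ι → X) → ℝ} {D : ℝ}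
    (hΨ : Obs Ψ D) {w : Env → X → ℝ} (hw : Measurable w) :
    ∑ β : ι → B, ∫ η, |d.dev (w η) (A η β) (lcG b β (Ψ η))| ∂(law μ) ≤
      ∑ j, ∫ η, (E' j).ev (w η) (fun y => |d.insR j b (A η) (Ψ η) y|) ∂(law μ) := by
  have o : ∀ (j : J) (β : ι → B), Obs (fun η => d.ins j (A η β) (lcG b β (Ψ η))) (D * ((∑ k, |d.sg j k|) * a)) :=
    fun j β => (hΨ.lc b β).insF d j (hA β) fun η y => ha η β y
  have o2 : ∀ j, Obs (fun η => d.insR j b (A η) (Ψ η)) (D * ((∑ k, |d.sg j k|) * a)) := fun j => hΨ.insRF d j b hA ha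
  have iD : ∀ β : ι → B, Integrable (fun η => |d.dev (w η) (A η β) (lcG b β (Ψ η))|) (law μ) := fun β =>
    ((memLp_dev d (hΨ.lc b β) (hA β) (fun η y => ha η β y) hw).integrable (by norm_num)).abs
  rw [← integral_finsetSum _ fun β _ => iD β, ← integral_finsetSum _ fun j _ => (o2 j).abs.int (E' j) hw]
  refine integral_mono (integrable_finsetSum _ fun β _ => iD β)
    (integrable_finsetSum _ fun j _ => (o2 j).abs.int (E' j) hw) fun η => ?_
  show ∑ β, |d.dev (w η) (A η β) (lcG b β (Ψ η))| ≤ ∑ j, (E' j).ev (w η) fun y => |d.insR j b (A η) (Ψ η) y|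
  calc ∑ β, |d.dev (w η) (A η β) (lcG b β (Ψ η))|
      ≤ ∑ β, ∑ j, (E' j).ev (w η) (fun y => |d.ins j (A η β) (lcG b β (Ψ η)) y|) :=
        Finset.sum_le_sum fun β _ => (Finset.abs_sum_le_sum_abs _ _).trans (Finset.sum_le_sum fun j _ => abs_ev_le _ _ _)
    _ = ∑ j, (E' j).ev (w η) (fun y => ∑ β, |d.ins j (A η β) (lcG b β (Ψ η)) y|) := by
        rw [Finset.sum_comm]
        exact Finset.sum_congr rfl fun j _ => (ev_sum _ _ _ _).symm
    _ = _ := Finset.sum_congr rfl fun j _ => ev_congr _ _ fun y => sum_abs_insF_lcG d j b (A η) (Ψ η) y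

/-- The rest of the insertion `g`: `g` minus the path functional of the cut field. -/
def rst (χ : (ι → B) → Pt → ℝ) (S : Finset Pt) (c : Pt → Env → ℝ) (N : Pt → X → ℝ) (g : Env → X → ℝ) (η : Env)
    (β : ι → B) : X → ℝ := g η - H19.Cf S (cut (χ β) c) N η

/-- The data of a slab step: a bounded predictable field, cut-offs, the exponents. -/
structure Slb (S : Finset Pt) (c : Pt → Env → ℝ) (M : ℝ) (χ : (ι → B) → Pt → ℝ) (Q : ℝ) : Prop where
  bf : H19.BF S c M
  pos : 0 ≤ M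
  zero : ∀ β p, 0 ≤ χ β p
  one : ∀ β p, χ β p ≤ 1
  qv : ∀ β η, QV S (cut (χ β) c) η ≤ Q

theorem Slb.cutBF {S : Finset Pt} {c : Pt → Env → ℝ} {M Q : ℝ} {χ : (ι → B) → Pt → ℝ} (h : Slb S c M χ Q) (β : ι → B) :
    H19.BF S (cut (χ β) c) M := BF_mul h.bf (h.zero β) (h.one β)

/-- **THE SLAB STEP, ONCE.** -/
theorem stepOne [IsProbabilityMeasure μ] (d : DrF E E') (h : DenLaw μ f f') {K θ0 : ℝ} (hs : SG μ (sc f f') K θ0)
    {S : Finset Pt} {c : Pt → Env → ℝ} {M V D G Q : ℝ} {χ : (ι → B) → Pt → ℝ} (sl : Slb S c M χ Q) {w : Env → X → ℝ}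
    {N : Pt → X → ℝ} (hw : Wt S w N V) {Ψ : Env → (ι → X) → ℝ} (hΨ : Obs Ψ D)
    (hbl : ∀ q ∈ S, ∀ (η : Env) (x : ℝ), Ψ (Function.update η q x) = Ψ η) {g : Env → X → ℝ} (mg : Measurable g)
    (bg : ∀ η y, |g η y| ≤ G) (b : X → B) {t a : ℝ} (ht : 0 < t) (ha : 0 ≤ a) (htM : t * M ≤ θ0) :
    |∫ η, d.dev (w η) (g η) (Ψ η) ∂(law μ)| ≤
      a * ∫ η, E.ev (w η) (fun x => |Ψ η x|) ∂(law μ) + (Fintype.card (ι → B) : ℝ) * tail1 K D t a Q +
      ∑ j, ∫ η, (E' j).ev (w η) (fun y => |d.insR j b (rst χ S c N g η) (Ψ η) y|) ∂(law μ) := by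
  have mC : ∀ β : ι → B, Measurable fun η => H19.Cf S (cut (χ β) c) N η := fun β => meas_Cf (sl.cutBF β).meas N
  have bC : ∀ (β : ι → B) η y, |H19.Cf S (cut (χ β) c) N η y| ≤ S.card * (M * V) := fun β η y =>
    abs_Cf_le (sl.cutBF β).bd hw.bd η y
  have mR : ∀ β : ι → B, Measurable fun η => rst χ S c N g η β := fun β => mg.sub (mC β)
  have bR : ∀ η (β : ι → B) y, |rst χ S c N g η β y| ≤ G + S.card * (M * V) := fun η β y => by
    unfold rst
    rw [Pi.sub_apply]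
    exact (abs_sub _ _).trans (add_le_add (bg η y) (bC β η y))
  have e1 : ∀ η, d.dev (w η) (g η) (Ψ η) = ∑ β, d.dev (w η) (H19.Cf S (cut (χ β) c) N η) (lcG b β (Ψ η)) +
      ∑ j, (E' j).ev (w η) (d.insR j b (rst χ S c N g η) (Ψ η)) := fun η =>
    dev_box d b (C := fun β => H19.Cf S (cut (χ β) c) N η) (R := rst χ S c N g η) (fun β => by
      unfold rst
      rw [add_sub_cancel]) (Ψ η) (w η)
  have iD : ∀ β : ι → B, Integrable (fun η => d.dev (w η) (H19.Cf S (cut (χ β) c) N η) (lcG b β (Ψ η))) (law μ) := fun β =>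
    (memLp_dev d (hΨ.lc b β) (mC β) (bC β) hw.meas).integrable (by norm_num)
  have oR : ∀ j, Obs (fun η => d.insR j b (rst χ S c N g η) (Ψ η)) (D * ((∑ k, |d.sg j k|) * (G + S.card * (M * V)))) :=
    fun j => hΨ.insRF d j b mR bR
  simp_rw [e1]
  rw [integral_add (integrable_finsetSum _ fun β _ => iD β) (integrable_finsetSum _ fun j _ => (oR j).int (E' j) hw.meas),
    integral_finsetSum _ fun β _ => iD β, integral_finsetSum _ fun j _ => (oR j).int (E' j) hw.meas]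
  refine (abs_add_le _ _).trans (add_le_add ?_ ?_)
  · have k1 : ∀ β : ι → B, |∫ η, d.dev (w η) (H19.Cf S (cut (χ β) c) N η) (lcG b β (Ψ η)) ∂(law μ)| ≤
        a * ∫ η, E.ev (w η) (fun x => |lcG b β (Ψ η) x|) ∂(law μ) + tail1 K D t a Q := fun β => by
      have h1 := d.ibpH h (sl.cutBF β) hw (hΨ.lc b β) (fun q hq η x => by rw [hbl q hq]) (H := fun _ => 1)
        (memLp_const 1) fun q hq η x => rfl
      simp only [one_mul] at h1
      rw [h1]
      refine (H19.est_one hs (sl.cutBF β) sl.pos ht htM (sl.qv β) ((hΨ.lc b β).int E hw.meas)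
        (a := a) (D := D) fun η => abs_ev_le_of E (w η) ((hΨ.lc b β).bd η)).trans ?_
      refine add_le_add (mul_le_mul_of_nonneg_left ?_ ha) le_rfl
      refine integral_mono ((hΨ.lc b β).int E hw.meas).abs ((hΨ.lc b β).abs.int E hw.meas) fun η => ?_
      exact abs_ev_le E (w η) _
    refine (Finset.abs_sum_le_sum_abs _ _).trans ((Finset.sum_le_sum fun β _ => k1 β).trans_eq ?_)
    rw [Finset.sum_add_distrib, Finset.sum_const, Finset.card_univ, nsmul_eq_mul, ← Finset.mul_sum,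
      sum_int_lcG hΨ E hw.meas b]
  · refine (Finset.abs_sum_le_sum_abs _ _).trans (Finset.sum_le_sum fun j _ => ?_)
    refine (abs_integral_le_integral_abs).trans ?_
    refine integral_mono ((oR j).int (E' j) hw.meas).abs ((oR j).abs.int (E' j) hw.meas) fun η => ?_
    exact abs_ev_le (E' j) (w η) _

end

end Pool.W7d29a1.C0.H41
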