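import Pool.Agent.W_7d29a1_C0.BoxP41

/-!
CURV0 (MP_7d29a1_pr), section SM: THE SLAB STEP, TWICE (`stepTwo`), for a replica system with a finite family of derived
systems; `S1` is the earlier slab (its field does not see `S2`), the field of `S2` may see `S1`; no derivative of a field appears.
(helper41)
-/

set_option autoImplicit false
set_option linter.unusedSectionVars false
set_option linter.unusedVariables false

namespace Pool.W7d29a1.C0.H41

open MeasureTheory ProbabilityTheory Filter Topology Finset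
open Pool.Agent.W_7d29a1_F Pool.Agent.W_7d29a1_C0.H32 Pool.W7d29a1.C0

noncomputable section

variable {X ι ι' ι2 : Type*} [Fintype X] [Nonempty X] [Fintype ι] [DecidableEq ι] [Fintype ι'] [DecidableEq ι']
  [Fintype ι2] [DecidableEq ι2] {B : Type*} [Fintype B] [DecidableEq B] {J J2 : Type*} [Fintype J] [Fintype J2]
  {E : Ev X ι} {E' : J → Ev X ι'} {E2 : J → J2 → Ev X ι2}

/-- The second insertions commute if `E.ev` is twice continuously differentiable in the weights. -/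
theorem swapF (d : DrF E E') (d2 : ∀ j, DrF (E' j) (E2 j)) {Ψ : (ι → X) → ℝ} (hc : ContDiff ℝ 2 fun w => E.ev w Ψ)
    (w A A' : X → ℝ) : ∑ j, (d2 j).dev w A (d.ins j A' Ψ) = ∑ j, (d2 j).dev w A' (d.ins j A Ψ) := by
  have f1 : ∀ w a : X → ℝ, fderiv ℝ (fun v => E.ev v Ψ) w a = d.dev w a Ψ := fun w a => by
    have h1 : HasDerivAt (fun u : ℝ => E.ev (w + u • a) Ψ) (fderiv ℝ (fun v => E.ev v Ψ) w a) 0 := by
      have h3 : HasFDerivAt (fun v => E.ev v Ψ) (fderiv ℝ (fun v => E.ev v Ψ) w) (w + (0 : ℝ) • a) := by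
        rw [zero_smul, add_zero]
        exact ((hc.differentiable (by norm_num)) w).hasFDerivAt
      exact h3.comp_hasDerivAt 0 (hasDerivAt_line w a 0)
    have h2 := d.der' Ψ (hasDerivAt_line w a 0)
    rw [zero_smul, add_zero] at h2
    exact h1.unique h2
  have hd : DifferentiableAt ℝ (fderiv ℝ fun v => E.ev v Ψ) w :=
    ((hc.fderiv_right (m := 1) (by norm_num)).differentiable (by norm_num)) w
  have key : ∀ a b : X → ℝ, ∑ j, (d2 j).dev w a (d.ins j b Ψ) = fderiv ℝ (fderiv ℝ fun v => E.ev v Ψ) w a b := fun a b => by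
    have e1 : (fun v => fderiv ℝ (fun v => E.ev v Ψ) v b) = fun v => d.dev v b Ψ := funext fun v => f1 v b
    have h1 : HasDerivAt (fun u : ℝ => d.dev (w + u • a) b Ψ) (fderiv ℝ (fun v => d.dev v b Ψ) w a) 0 := by
      have h3 : HasFDerivAt (fun v => d.dev v b Ψ) (fderiv ℝ (fun v => d.dev v b Ψ) w) (w + (0 : ℝ) • a) := by
        rw [zero_smul, add_zero]
        have h4 : DifferentiableAt ℝ (fun v => d.dev v b Ψ) w := by
          rw [← e1]
          exact hd.clm_apply (differentiableAt_const b)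
        exact h4.hasFDerivAt
      exact h3.comp_hasDerivAt 0 (hasDerivAt_line w a 0)
    have h2 : HasDerivAt (fun u : ℝ => d.dev (w + u • a) b Ψ) (∑ j, (d2 j).dev w a (d.ins j b Ψ)) 0 := by
      unfold DrF.dev
      refine HasDerivAt.fun_sum fun j _ => ?_
      have h5 := (d2 j).der' (d.ins j b Ψ) (hasDerivAt_line w a 0)
      rw [zero_smul, add_zero] at h5
      exact h5
    rw [← h1.unique h2, ← e1, fderiv_clm_apply hd (differentiableAt_const b)]
    simp
  rw [key, key]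
  have h2 : minSmoothness ℝ 2 ≤ (2 : WithTop ℕ∞) := by
    rw [minSmoothness_of_isRCLikeNormedField]
  exact (hc.contDiffAt.isSymmSndFDerivAt h2) A A'

variable {μ : Measure ℝ} {f f' : ℝ → ℝ}

/-- **THE SLAB STEP, TWICE.** The insertions `g2` (in `E`) and `g1` (in the derived systems). -/
theorem stepTwo [IsProbabilityMeasure μ] (d : DrF E E') (d2 : ∀ j, DrF (E' j) (E2 j))
    (hsw : ∀ (w A A' : X → ℝ) (Ψ : (ι → X) → ℝ),
      ∑ j, (d2 j).dev w A (d.ins j A' Ψ) = ∑ j, (d2 j).dev w A' (d.ins j A Ψ))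
    (h : DenLaw μ f f') {K θ0 : ℝ} (hs : SG μ (sc f f') K θ0) {S1 S2 : Finset Pt} {c1 c2 : Pt → Env → ℝ}
    {M1 M2 V D G1 G2 Q1 Q2 Q3 : ℝ} {χ1 χ2 : (ι → B) → Pt → ℝ} {χ3 : (ι' → B) → Pt → ℝ} (s1 : Slb S1 c1 M1 χ1 Q1)
    (s2 : Slb S2 c2 M2 χ2 Q2) (s3 : Slb S2 c2 M2 χ3 Q3) (hd : Disjoint S1 S2)
    (h12 : ∀ p ∈ S1, ∀ q ∈ S2, ∀ (η : Env) (x : ℝ), c1 p (Function.update η q x) = c1 p η)
    {w : Env → X → ℝ} {N : Pt → X → ℝ} (hw1 : Wt S1 w N V) (hw2 : Wt S2 w N V) {Ψ : Env → (ι → X) → ℝ}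
    (hΨ : Obs Ψ D) (hb1 : ∀ q ∈ S1, ∀ (η : Env) (x : ℝ), Ψ (Function.update η q x) = Ψ η)
    (hb2 : ∀ q ∈ S2, ∀ (η : Env) (x : ℝ), Ψ (Function.update η q x) = Ψ η) {g1 g2 : Env → X → ℝ} (mg1 : Measurable g1)
    (bg1 : ∀ η y, |g1 η y| ≤ G1) (mg2 : Measurable g2) (bg2 : ∀ η y, |g2 η y| ≤ G2)
    (g21 : ∀ q ∈ S1, ∀ (η : Env) (x : ℝ), g2 (Function.update η q x) = g2 η)
    (g12 : ∀ q ∈ S2, ∀ (η : Env) (x : ℝ), g1 (Function.update η q x) = g1 η) (b : X → B) {t1 t2 a1 a2 : ℝ} (q1 : 0 < t1)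
    (q2 : 0 < t2) (ha1 : 0 ≤ a1) (ha2 : 0 ≤ a2) (r1 : 2 * t1 * M1 ≤ θ0) (r2 : 2 * t2 * M2 ≤ θ0) :
    |∫ η, ∑ j, (d2 j).dev (w η) (g1 η) (d.ins j (g2 η) (Ψ η)) ∂(law μ)| ≤
      (a1 * a2 * ∫ η, E.ev (w η) (fun x => |Ψ η x|) ∂(law μ) +
        (Fintype.card (ι → B) : ℝ) * tail2 K D t1 t2 a1 a2 Q1 Q2) +
      (a1 * ∑ j, ∫ η, (E' j).ev (w η) (fun y => |d.insR j b (rst χ2 S2 c2 N g2 η) (Ψ η) y|) ∂(law μ) +
        (Fintype.card (ι → B) : ℝ) * tail1 K (∑ j, D * ((∑ k, |d.sg j k|) * (G2 + S2.card * (M2 * V)))) t1 a1 Q1) +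
      ∑ j, (a2 * ∫ η, (E' j).ev (w η) (fun y => |d.insR j b (rst χ1 S1 c1 N g1 η) (Ψ η) y|) ∂(law μ) +
        (Fintype.card (ι' → B) : ℝ) * tail1 K (D * ((∑ k, |d.sg j k|) * (G1 + S1.card * (M1 * V)))) t2 a2 Q3 +
        ∑ j2, ∫ η, (E2 j j2).ev (w η) (fun y => |(d2 j).insR j2 b (rst χ3 S2 c2 N g2 η)
          (d.insR j b (rst χ1 S1 c1 N g1 η) (Ψ η)) y|) ∂(law μ)) := by
  -- measurability and bounds
  have mC1 : ∀ β : ι → B, Measurable fun η => H19.Cf S1 (cut (χ1 β) c1) N η := fun β => meas_Cf (s1.cutBF β).meas N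
  have bC1 : ∀ (β : ι → B) η y, |H19.Cf S1 (cut (χ1 β) c1) N η y| ≤ S1.card * (M1 * V) := fun β η y =>
    abs_Cf_le (s1.cutBF β).bd hw1.bd η y
  have mC2 : ∀ β : ι → B, Measurable fun η => H19.Cf S2 (cut (χ2 β) c2) N η := fun β => meas_Cf (s2.cutBF β).meas N
  have bC2 : ∀ (β : ι → B) η y, |H19.Cf S2 (cut (χ2 β) c2) N η y| ≤ S2.card * (M2 * V) := fun β η y =>
    abs_Cf_le (s2.cutBF β).bd hw2.bd η y
  have mR1 : ∀ β : ι → B, Measurable fun η => rst χ1 S1 c1 N g1 η β := fun β => mg1.sub (mC1 β)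
  have bR1 : ∀ η (β : ι → B) y, |rst χ1 S1 c1 N g1 η β y| ≤ G1 + S1.card * (M1 * V) := fun η β y => by
    unfold rst
    rw [Pi.sub_apply]
    exact (abs_sub _ _).trans (add_le_add (bg1 η y) (bC1 β η y))
  have mR2 : ∀ β : ι → B, Measurable fun η => rst χ2 S2 c2 N g2 η β := fun β => mg2.sub (mC2 β)
  have bR2 : ∀ η (β : ι → B) y, |rst χ2 S2 c2 N g2 η β y| ≤ G2 + S2.card * (M2 * V) := fun η β y => by
    unfold rst
    rw [Pi.sub_apply]
    exact (abs_sub _ _).trans (add_le_add (bg2 η y) (bC2 β η y))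
  -- observables
  have oG : ∀ (j : J) (β : ι → B), Obs (fun η => d.ins j (g2 η) (lcG b β (Ψ η))) (D * ((∑ k, |d.sg j k|) * G2)) :=
    fun j β => (hΨ.lc b β).insF d j mg2 bg2
  have oR : ∀ j, Obs (fun η => d.insR j b (rst χ1 S1 c1 N g1 η) (Ψ η)) (D * ((∑ k, |d.sg j k|) * (G1 + S1.card * (M1 * V)))) :=
    fun j => hΨ.insRF d j b mR1 bR1
  -- the decomposition
  have e1 : ∀ η, ∑ j, (d2 j).dev (w η) (g1 η) (d.ins j (g2 η) (Ψ η)) =
      ∑ β, ∑ j, (d2 j).dev (w η) (H19.Cf S1 (cut (χ1 β) c1) N η) (d.ins j (g2 η) (lcG b β (Ψ η))) +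
        ∑ j, (d2 j).dev (w η) (g2 η) (d.insR j b (rst χ1 S1 c1 N g1 η) (Ψ η)) := fun η => by
    -- the boxes
    have k1 : ∑ j, (d2 j).dev (w η) (g1 η) (d.ins j (g2 η) (Ψ η)) =
        ∑ β, ∑ j, (d2 j).dev (w η) (g1 η) (d.ins j (g2 η) (lcG b β (Ψ η))) := by
      rw [Finset.sum_comm]
      refine Finset.sum_congr rfl fun j _ => ?_
      unfold DrF.dev
      rw [Finset.sum_comm]
      refine Finset.sum_congr rfl fun j2 _ => ?_
      rw [← ev_sum]
      refine ev_congr _ _ fun y => ?_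
      exact insF_lin (d2 j) j2 (g1 η) univ (fun x => insF_lin d j (g2 η) univ
        (fun z => (sum_lcG b (Ψ η) z).symm) x) y
    have k2 : ∀ β : ι → B, ∑ j, (d2 j).dev (w η) (g1 η) (d.ins j (g2 η) (lcG b β (Ψ η))) =
        ∑ j, (d2 j).dev (w η) (H19.Cf S1 (cut (χ1 β) c1) N η) (d.ins j (g2 η) (lcG b β (Ψ η))) +
          ∑ j, (d2 j).dev (w η) (g2 η) (d.ins j (rst χ1 S1 c1 N g1 η β) (lcG b β (Ψ η))) := fun β => by
      rw [hsw (w η) (g2 η) (rst χ1 S1 c1 N g1 η β) (lcG b β (Ψ η)), ← Finset.sum_add_distrib]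
      refine Finset.sum_congr rfl fun j _ => ?_
      unfold DrF.dev
      rw [← Finset.sum_add_distrib]
      refine Finset.sum_congr rfl fun j2 _ => ?_
      rw [← ev_add]
      refine ev_congr _ _ fun y => ?_
      rw [← insF_add]
      congr 2
      unfold rst
      rw [add_sub_cancel]
    rw [k1, Finset.sum_congr rfl fun β _ => k2 β, Finset.sum_add_distrib]
    congr 1
    rw [Finset.sum_comm]
    refine Finset.sum_congr rfl fun j _ => ?_
    unfold DrF.dev
    rw [Finset.sum_comm]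
    refine Finset.sum_congr rfl fun j2 _ => ?_
    rw [← ev_sum]
    refine ev_congr _ _ fun y => ?_
    exact (insF_lin (d2 j) j2 (g2 η) univ (fun x => (sum_insF_lcG d j b (rst χ1 S1 c1 N g1 η) (Ψ η) x).symm) y).symm
  have iA : ∀ β : ι → B, Integrable (fun η => ∑ j, (d2 j).dev (w η) (H19.Cf S1 (cut (χ1 β) c1) N η)
      (d.ins j (g2 η) (lcG b β (Ψ η)))) (law μ) := fun β =>
    integrable_finsetSum _ fun j _ => (memLp_dev (d2 j) (oG j β) (mC1 β) (bC1 β) hw1.meas).integrable (by norm_num)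
  have iB : ∀ j, Integrable (fun η => (d2 j).dev (w η) (g2 η) (d.insR j b (rst χ1 S1 c1 N g1 η) (Ψ η))) (law μ) := fun j =>
    (memLp_dev (d2 j) (oR j) mg2 bg2 hw1.meas).integrable (by norm_num)
  simp_rw [e1]
  rw [integral_add (integrable_finsetSum _ fun β _ => iA β) (integrable_finsetSum _ fun j _ => iB j),
    integral_finsetSum _ fun β _ => iA β, integral_finsetSum _ fun j _ => iB j]
  refine (abs_add_le _ _).trans (add_le_add ?_ ?_)
  · -- the first slab in the boxes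
    have k1 : ∀ β : ι → B, |∫ η, ∑ j, (d2 j).dev (w η) (H19.Cf S1 (cut (χ1 β) c1) N η)
        (d.ins j (g2 η) (lcG b β (Ψ η))) ∂(law μ)| ≤
        (a1 * a2 * ∫ η, |E.ev (w η) (lcG b β (Ψ η))| ∂(law μ) + tail2 K D t1 t2 a1 a2 Q1 Q2) +
        (a1 * ∫ η, |d.dev (w η) (rst χ2 S2 c2 N g2 η β) (lcG b β (Ψ η))| ∂(law μ) +
          tail1 K (∑ j, D * ((∑ k, |d.sg j k|) * (G2 + S2.card * (M2 * V)))) t1 a1 Q1) := fun β => by
      -- integrate by parts over the first slab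
      have p1 : ∀ j, ∫ η, (d2 j).dev (w η) (H19.Cf S1 (cut (χ1 β) c1) N η) (d.ins j (g2 η) (lcG b β (Ψ η))) ∂(law μ) =
          ∫ η, (E' j).ev (w η) (d.ins j (g2 η) (lcG b β (Ψ η))) * SS (sc f f') S1 (cut (χ1 β) c1) η ∂(law μ) := fun j => by
        have := (d2 j).ibpH h (s1.cutBF β) hw1 (oG j β) (fun q hq η x => by rw [g21 q hq, hb1 q hq]) (H := fun _ => 1)
          (memLp_const 1) fun q hq η x => rfl
        simpa only [one_mul] using this
      have mS1 : MemLp (SS (sc f f') S1 (cut (χ1 β) c1)) 2 (law μ) := H19.memLp_SS hs (s1.cutBF β)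
      have p2 : ∫ η, ∑ j, (d2 j).dev (w η) (H19.Cf S1 (cut (χ1 β) c1) N η) (d.ins j (g2 η) (lcG b β (Ψ η))) ∂(law μ) =
          ∫ η, d.dev (w η) (g2 η) (lcG b β (Ψ η)) * SS (sc f f') S1 (cut (χ1 β) c1) η ∂(law μ) := by
        have iS : ∀ j, Integrable (fun η => (E' j).ev (w η) (d.ins j (g2 η) (lcG b β (Ψ η))) *
            SS (sc f f') S1 (cut (χ1 β) c1) η) (law μ) := fun j =>
          ((oG j β).memLp (E' j) hw1.meas).integrable_mul mS1
        rw [integral_finsetSum _ fun j _ => (memLp_dev (d2 j) (oG j β) (mC1 β) (bC1 β) hw1.meas).integrable (by norm_num),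
          Finset.sum_congr rfl fun j _ => p1 j, ← integral_finsetSum _ fun j _ => iS j]
        refine integral_congr_ae (ae_of_all _ fun η => ?_)
        show ∑ j, (E' j).ev (w η) (d.ins j (g2 η) (lcG b β (Ψ η))) * SS (sc f f') S1 (cut (χ1 β) c1) η =
          (∑ j, (E' j).ev (w η) (d.ins j (g2 η) (lcG b β (Ψ η)))) * SS (sc f f') S1 (cut (χ1 β) c1) η
        rw [Finset.sum_mul]
      -- split the second insertion
      have p3 : ∀ η, d.dev (w η) (g2 η) (lcG b β (Ψ η)) =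
          d.dev (w η) (H19.Cf S2 (cut (χ2 β) c2) N η) (lcG b β (Ψ η)) +
            d.dev (w η) (rst χ2 S2 c2 N g2 η β) (lcG b β (Ψ η)) := fun η => by
        unfold DrF.dev
        rw [← Finset.sum_add_distrib]
        refine Finset.sum_congr rfl fun j _ => ?_
        rw [← ev_add]
        refine ev_congr _ _ fun y => ?_
        rw [← insF_add]
        congr 1
        unfold rst
        rw [add_sub_cancel]
      have mD1 := memLp_dev (μ := μ) d (hΨ.lc b β) (mC2 β) (bC2 β) hw1.meas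
      have mD2 := memLp_dev (μ := μ) d (hΨ.lc b β) (mR2 β) (fun η y => bR2 η β y) hw1.meas
      have j1 : Integrable (fun η => d.dev (w η) (H19.Cf S2 (cut (χ2 β) c2) N η) (lcG b β (Ψ η)) *
          SS (sc f f') S1 (cut (χ1 β) c1) η) (law μ) := mD1.integrable_mul mS1
      have j2 : Integrable (fun η => d.dev (w η) (rst χ2 S2 c2 N g2 η β) (lcG b β (Ψ η)) *
          SS (sc f f') S1 (cut (χ1 β) c1) η) (law μ) := mD2.integrable_mul mS1
      rw [p2]
      simp_rw [p3, add_mul]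
      rw [integral_add j1 j2]
      refine (abs_add_le _ _).trans (add_le_add ?_ ?_)
      · -- both in the boxes
        have p4 : ∫ η, d.dev (w η) (H19.Cf S2 (cut (χ2 β) c2) N η) (lcG b β (Ψ η)) * SS (sc f f') S1 (cut (χ1 β) c1) η ∂(law μ) =
            ∫ η, E.ev (w η) (lcG b β (Ψ η)) * (SS (sc f f') S1 (cut (χ1 β) c1) η * SS (sc f f') S2 (cut (χ2 β) c2) η)
              ∂(law μ) := by
          have := d.ibpH h (s2.cutBF β) hw2 (hΨ.lc b β) (fun q hq η x => by rw [hb2 q hq])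
            (H := SS (sc f f') S1 (cut (χ1 β) c1)) mS1 (fun q hq η x => by
              unfold SS
              refine Finset.sum_congr rfl fun p hp => ?_
              have hne : p ≠ q := by rintro rfl; exact Finset.disjoint_left.1 hd hp hq
              rw [Function.update_of_ne hne]
              unfold cut
              rw [h12 p hp q hq])
          calc ∫ η, d.dev (w η) (H19.Cf S2 (cut (χ2 β) c2) N η) (lcG b β (Ψ η)) *
                SS (sc f f') S1 (cut (χ1 β) c1) η ∂(law μ)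
              = ∫ η, SS (sc f f') S1 (cut (χ1 β) c1) η *
                d.dev (w η) (H19.Cf S2 (cut (χ2 β) c2) N η) (lcG b β (Ψ η)) ∂(law μ) :=
                integral_congr_ae (ae_of_all _ fun η => mul_comm _ _)
            _ = _ := this
            _ = _ := integral_congr_ae (ae_of_all _ fun η => by ring)
        rw [p4]
        exact H19.est_two hs (s1.cutBF β) (s2.cutBF β) s1.pos s2.pos q1 q2 r1 r2 (s1.qv β) (s2.qv β) ha1 ha2
          ((hΨ.lc b β).int E hw1.meas) fun η => abs_ev_le_of E (w η) ((hΨ.lc b β).bd η)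
      · -- the second one far or closing
        refine H19.est_one hs (s1.cutBF β) s1.pos q1 (by nlinarith [s1.pos] : t1 * M1 ≤ θ0) (s1.qv β)
          (mD2.integrable (by norm_num)) fun η => ?_
        unfold DrF.dev
        exact (Finset.abs_sum_le_sum_abs _ _).trans (Finset.sum_le_sum fun j _ => abs_ev_le_of (E' j) (w η)
          (abs_insF_le d j (fun y => bR2 η β y) ((hΨ.lc b β).bd η)))
    refine (Finset.abs_sum_le_sum_abs _ _).trans ((Finset.sum_le_sum fun β _ => k1 β).trans ?_)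
    rw [Finset.sum_add_distrib, Finset.sum_add_distrib, Finset.sum_add_distrib, Finset.sum_const, Finset.sum_const,
      Finset.card_univ, nsmul_eq_mul, nsmul_eq_mul, ← Finset.mul_sum, ← Finset.mul_sum]
    refine add_le_add (add_le_add (mul_le_mul_of_nonneg_left ?_ (mul_nonneg ha1 ha2)) le_rfl)
      (add_le_add (mul_le_mul_of_nonneg_left ?_ ha1) le_rfl)
    · rw [← sum_int_lcG hΨ E hw1.meas b]
      exact Finset.sum_le_sum fun β _ => integral_mono ((hΨ.lc b β).int E hw1.meas).abs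
        ((hΨ.lc b β).abs.int E hw1.meas) fun η => abs_ev_le E (w η) _
    · exact sum_int_insF d b mR2 bR2 hΨ hw1.meas
  · -- the first one far or closing
    refine (Finset.abs_sum_le_sum_abs _ _).trans (Finset.sum_le_sum fun j _ => ?_)
    have hbl : ∀ q ∈ S2, ∀ (η : Env) (x : ℝ), d.insR j b (rst χ1 S1 c1 N g1 (Function.update η q x))
        (Ψ (Function.update η q x)) = d.insR j b (rst χ1 S1 c1 N g1 η) (Ψ η) := fun q hq η x => by
      have e : rst χ1 S1 c1 N g1 (Function.update η q x) = rst χ1 S1 c1 N g1 η := by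
        funext β
        unfold rst
        rw [g12 q hq, Cf_blind_upd N (fun p hp η x => by unfold cut; rw [h12 p hp q hq]) η x]
      rw [e, hb2 q hq]
    exact stepOne (d2 j) h hs s3 hw2 (oR j) hbl mg2 bg2 b q2 ha2 (by nlinarith [s2.pos] : t2 * M2 ≤ θ0)

end

end Pool.W7d29a1.C0.H41
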