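import Pool.Agent.W_7d29a1_C0.Two63
import Pool.Agent.W_7d29a1_C0.BoxG41C

/-!
CURV0 (MP_7d29a1_pr), section SM: THE LOCALISED SLAB STEPS WITH SIGNED REMAINDERS, slabs of any direction, the observable `Ψ` may
see the slabs, `T1`, `T2` any bounded path functionals (the half responses `g_j`, `g_k`). For each box `β` of the old replicas the
remainder is `E'.ev (ins (T - C^β) (lcG b β Ψ))`, the absolute value OUTSIDE of the replica average. (helper41)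
-/

set_option autoImplicit false
set_option linter.unusedSectionVars false
set_option linter.unusedVariables false

namespace Pool.W7d29a1.C0.H41

open MeasureTheory ProbabilityTheory Filter Topology Finset
open Pool.Agent.W_7d29a1_F Pool.Agent.W_7d29a1_C0.H32 Pool.W7d29a1.C0
open Pool.W7d29a1.C0.R63 (DF GF Sd Bl est_oneD est_twoD one_id ibpG2 ins_sub)

noncomputable section

variable {X ι ι' ι2 : Type*} [Fintype X] [Nonempty X] [Fintype ι] [DecidableEq ι] [Fintype ι'] [DecidableEq ι'] [Fintype ι2]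
  [DecidableEq ι2] {B : Type*} [Fintype B] [DecidableEq B] {E : Ev X ι} {E' : Ev X ι'} {E2 : Ev X ι2}

/-- The data of a slab step in any direction. -/
structure SlD (bk : Bool) (S : Finset Pt) (c : Pt → Env → ℝ) (M : ℝ) (χ : (ι → B) → Pt → ℝ) (Q : ℝ) : Prop where
  df : DF bk S c M
  pos : 0 ≤ M
  zero : ∀ β p, 0 ≤ χ β p
  one : ∀ β p, χ β p ≤ 1
  qv : ∀ β η, ∑ p ∈ S, cut (χ β) c p η ^ 2 ≤ Q

theorem SlD.cutDF {bk : Bool} {S : Finset Pt} {c : Pt → Env → ℝ} {M Q : ℝ} {χ : (ι → B) → Pt → ℝ} (h : SlD bk S c M χ Q)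
    (β : ι → B) : DF bk S (cut (χ β) c) M := h.df.cut (h.zero β) (h.one β)

theorem SlD.cutDF' {bk : Bool} {S : Finset Pt} {c : Pt → Env → ℝ} {M Q : ℝ} {χ : (ι → B) → Pt → ℝ} (h : SlD bk S c M χ Q)
    (β : ι → B) : DF bk S (cut' (χ β) c) M := h.df.cut' (h.zero β) (h.one β)

theorem Sd_lc {S : Finset Pt} {Ψ : Env → (ι → X) → ℝ} {Ψ' : Pt → Env → (ι → X) → ℝ} (h : Sd S Ψ Ψ') (b : X → B)
    (β : ι → B) : Sd S (fun η => lcG b β (Ψ η)) fun p η => lcG b β (Ψ' p η) := fun p hp η x y => by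
  unfold lcG
  by_cases h' : (fun i => b (y i)) = β
  · simp only [h', if_true]
    exact h p hp η x y
  · simp only [h', if_false]
    exact hasDerivAt_const x _

theorem ins_sumΨ (d : Dr E E') (A : X → ℝ) {J : Type*} (s : Finset J) {Φ : (ι → X) → ℝ} {Φj : J → (ι → X) → ℝ}
    (h : ∀ x, Φ x = ∑ j ∈ s, Φj j x) (y : ι' → X) : d.ins A Φ y = ∑ j ∈ s, d.ins A (Φj j) y := by
  unfold Dr.ins
  rw [h, Finset.sum_mul]

variable {μ : Measure ℝ} {f f' : ℝ → ℝ}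

/-- The sum over the boxes of the absolute values of the localised averages. -/
theorem sum_int_abs_lc [IsProbabilityMeasure μ] {Ψ : Env → (ι → X) → ℝ} {D : ℝ} (hΨ : Obs Ψ D) (E : Ev X ι)
    {w : Env → X → ℝ} (hw : Measurable w) (b : X → B) :
    ∑ β : ι → B, ∫ η, |E.ev (w η) (lcG b β (Ψ η))| ∂(law μ) ≤ ∫ η, E.ev (w η) (fun x => |Ψ η x|) ∂(law μ) := by
  rw [← sum_int_lcG hΨ E hw b]
  refine Finset.sum_le_sum fun β _ => integral_mono ((hΨ.lc b β).int E hw).abs ((hΨ.lc b β).abs.int E hw) fun η => ?_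
  exact abs_ev_le E (w η) _

/-- The quadruple of the error terms of one box, one derivative. -/
theorem oneS_box [IsProbabilityMeasure μ] (d : Dr E E') (h : DenLaw μ f f') {K θ0 : ℝ} (hs : SG μ (sc f f') K θ0)
    {bk : Bool} {S : Finset Pt} {c : Pt → Env → ℝ} {M V D D1 τ Q : ℝ} {χ : (ι → B) → Pt → ℝ} (sl : SlD bk S c M χ Q)
    {w : Env → X → ℝ} {N : Pt → X → ℝ} (hw : Wt S w N V) {Ψ : Env → (ι → X) → ℝ} {Ψ' : Pt → Env → (ι → X) → ℝ}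
    (hΨ : Obs Ψ D) (hΨ' : ∀ p ∈ S, Obs (Ψ' p) D1) (hd : Sd S Ψ Ψ') {T : Env → X → ℝ} (hT : Measurable T)
    (hτ : ∀ η y, |T η y| ≤ τ) (b : X → B) (β : ι → B) {t a : ℝ} (ht : 0 < t) (htM : t * M ≤ θ0) :
    |∫ η, E'.ev (w η) (d.ins (T η) (lcG b β (Ψ η))) ∂(law μ)| ≤
      a * ∫ η, |E.ev (w η) (lcG b β (Ψ η))| ∂(law μ) + tail1 K D t a Q +
      |∫ η, E'.ev (w η) (d.ins (T η - H19.Cf S (cut (χ β) c) N η) (lcG b β (Ψ η))) ∂(law μ)| +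
      |∫ η, ∑ p ∈ S, cut (χ β) c p η * E.ev (w η) (lcG b β (Ψ' p η)) ∂(law μ)| := by
  rw [one_id d h ((sl.cutDF β).gf hs) hw (hΨ.lc b β) (fun p hp => (hΨ' p hp).lc b β) (Sd_lc hd b β) hT hτ]
  refine (abs_sub _ _).trans (add_le_add ((abs_add_le _ _).trans (add_le_add ?_ le_rfl)) le_rfl)
  exact est_oneD hs (sl.cutDF β) sl.pos ht htM (sl.qv β) ((hΨ.lc b β).int E hw.meas)
    fun η => abs_ev_le_of E (w η) ((hΨ.lc b β).bd η)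

/-- **THE LOCALISED SLAB STEP WITH SIGNED REMAINDERS, ONE DERIVATIVE.** -/
theorem oneS [IsProbabilityMeasure μ] (d : Dr E E') (h : DenLaw μ f f') {K θ0 : ℝ} (hs : SG μ (sc f f') K θ0)
    {bk : Bool} {S : Finset Pt} {c : Pt → Env → ℝ} {M V D D1 τ Q : ℝ} {χ : (ι → B) → Pt → ℝ} (sl : SlD bk S c M χ Q)
    {w : Env → X → ℝ} {N : Pt → X → ℝ} (hw : Wt S w N V) {Ψ : Env → (ι → X) → ℝ} {Ψ' : Pt → Env → (ι → X) → ℝ}
    (hΨ : Obs Ψ D) (hΨ' : ∀ p ∈ S, Obs (Ψ' p) D1) (hd : Sd S Ψ Ψ') {T : Env → X → ℝ} (hT : Measurable T)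
    (hτ : ∀ η y, |T η y| ≤ τ) (b : X → B) {t a : ℝ} (ht : 0 < t) (ha : 0 ≤ a) (htM : t * M ≤ θ0) :
    |∫ η, E'.ev (w η) (d.ins (T η) (Ψ η)) ∂(law μ)| ≤
      a * ∫ η, E.ev (w η) (fun x => |Ψ η x|) ∂(law μ) + (Fintype.card (ι → B) : ℝ) * tail1 K D t a Q +
      ∑ β : ι → B, |∫ η, E'.ev (w η) (d.ins (T η - H19.Cf S (cut (χ β) c) N η) (lcG b β (Ψ η))) ∂(law μ)| +
      ∑ β : ι → B, |∫ η, ∑ p ∈ S, cut (χ β) c p η * E.ev (w η) (lcG b β (Ψ' p η)) ∂(law μ)| := by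
  have o : ∀ β : ι → B, Obs (fun η => d.ins (T η) (lcG b β (Ψ η))) (D * (d.sz * τ)) := fun β =>
    (hΨ.lc b β).ins d hT hτ
  have e : ∀ η, E'.ev (w η) (d.ins (T η) (Ψ η)) = ∑ β : ι → B, E'.ev (w η) (d.ins (T η) (lcG b β (Ψ η))) := fun η => by
    rw [← ev_sum]
    exact ev_congr _ _ fun y => ins_sumΨ d (T η) univ (fun x => (sum_lcG b (Ψ η) x).symm) y
  simp_rw [e]
  rw [integral_finsetSum _ fun β _ => (o β).int E' hw.meas]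
  refine (Finset.abs_sum_le_sum_abs _ _).trans
    ((Finset.sum_le_sum fun β _ => oneS_box d h hs sl hw hΨ hΨ' hd hT hτ b β (a := a) ht htM).trans ?_)
  rw [Finset.sum_add_distrib, Finset.sum_add_distrib, Finset.sum_add_distrib, Finset.sum_const, Finset.card_univ,
    nsmul_eq_mul, ← Finset.mul_sum]
  refine add_le_add (add_le_add (add_le_add (mul_le_mul_of_nonneg_left (sum_int_abs_lc hΨ E hw.meas b) ha) le_rfl) le_rfl)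
    le_rfl

/-- Two derivatives, one box. -/
theorem twoS_box [IsProbabilityMeasure μ] (d : Dr E E') (d' : Dr E' E2) (h : DenLaw μ f f') {K θ0 : ℝ}
    (hs : SG μ (sc f f') K θ0) {bk1 bk2 : Bool} {S1 S2 : Finset Pt} (hd12 : Disjoint S1 S2) {c1 c2 : Pt → Env → ℝ}
    {M1 M2 V D D1 D2 τ1 τ2 Q1 Q2 : ℝ} {χ1 χ2 : (ι → B) → Pt → ℝ} (s1 : SlD bk1 S1 c1 M1 χ1 Q1)
    (s2 : SlD bk2 S2 c2 M2 χ2 Q2)
    (h12 : ∀ q1 ∈ S1, ∀ q2 ∈ S2, ∀ (η : Env) (x : ℝ), c1 q1 (Function.update η q2 x) = c1 q1 η)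
    {w : Env → X → ℝ} {N : Pt → X → ℝ} (hw1 : Wt S1 w N V) (hw2 : Wt S2 w N V) {Ψ : Env → (ι → X) → ℝ}
    {Ψ1 Ψ2 : Pt → Env → (ι → X) → ℝ} (hΨ : Obs Ψ D) (hΨ1 : ∀ p ∈ S1, Obs (Ψ1 p) D1) (hΨ2 : ∀ p ∈ S2, Obs (Ψ2 p) D2)
    (hd1 : Sd S1 Ψ Ψ1) (hd2 : Sd S2 Ψ Ψ2) {T1 T2 : Env → X → ℝ} (mT1 : Measurable T1) (mT2 : Measurable T2)
    (bT1 : ∀ η y, |T1 η y| ≤ τ1) (bT2 : ∀ η y, |T2 η y| ≤ τ2) (hTb : Bl S1 T2) (hM2 : 0 ≤ M2) (hD2 : 0 ≤ D2)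
    (b : X → B) (β : ι → B) {t1 t2 a1 a2 : ℝ} (q1 : 0 < t1) (q2 : 0 < t2) (ha1 : 0 ≤ a1) (ha2 : 0 ≤ a2)
    (r1 : 2 * t1 * M1 ≤ θ0) (r2 : 2 * t2 * M2 ≤ θ0) :
    |∫ η, E2.ev (w η) (d'.ins (T1 η) (d.ins (T2 η) (lcG b β (Ψ η)))) ∂(law μ)| ≤
      a1 * a2 * ∫ η, |E.ev (w η) (lcG b β (Ψ η))| ∂(law μ) + tail2 K D t1 t2 a1 a2 Q1 Q2 +
      (a1 * ∫ η, |E'.ev (w η) (d.ins (T2 η - H19.Cf S2 (cut (χ2 β) c2) N η) (lcG b β (Ψ η)))| ∂(law μ) +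
        tail1 K (D * (d.sz * (τ2 + S2.card * (M2 * V)))) t1 a1 Q1) +
      (a1 * ∫ η, |∑ p ∈ S2, cut (χ2 β) c2 p η * E.ev (w η) (lcG b β (Ψ2 p η))| ∂(law μ) +
        tail1 K (S2.card * (M2 * D2)) t1 a1 Q1) +
      |∫ η, E2.ev (w η) (d'.ins (T1 η - H19.Cf S1 (cut (χ1 β) c1) N η) (d.ins (T2 η) (lcG b β (Ψ η)))) ∂(law μ)| +
      |∫ η, ∑ p ∈ S1, cut (χ1 β) c1 p η * E'.ev (w η) (d.ins (T2 η) (lcG b β (Ψ1 p η))) ∂(law μ)| := by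
  have oΨ := hΨ.lc b β
  have oΨ1 : ∀ p ∈ S1, Obs (fun η => lcG b β (Ψ1 p η)) D1 := fun p hp => (hΨ1 p hp).lc b β
  have oΨ2 : ∀ p ∈ S2, Obs (fun η => lcG b β (Ψ2 p η)) D2 := fun p hp => (hΨ2 p hp).lc b β
  have g1 := (s1.cutDF β).gf hs
  have g2 := (s2.cutDF β).gf hs
  have k12 : ∀ p ∈ S1, ∀ q ∈ S2, ∀ (η : Env) (x : ℝ), cut (χ1 β) c1 p (Function.update η q x) = cut (χ1 β) c1 p η :=
    fun p hp q hq η x => by
      unfold cut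
      rw [h12 p hp q hq]
  -- the first slab
  have o1 : Obs (fun η => d.ins (T2 η) (lcG b β (Ψ η))) (D * (d.sz * τ2)) := oΨ.ins d mT2 bT2
  have o1' : ∀ p ∈ S1, Obs (fun η => d.ins (T2 η) (lcG b β (Ψ1 p η))) (D1 * (d.sz * τ2)) := fun p hp =>
    (oΨ1 p hp).ins d mT2 bT2
  have hd' : Sd S1 (fun η => d.ins (T2 η) (lcG b β (Ψ η))) fun p η => d.ins (T2 η) (lcG b β (Ψ1 p η)) :=
    fun p hp η x y => by
      unfold Dr.ins
      have e : ∀ t : ℝ, T2 (Function.update η p t) = T2 η := fun t => hTb p hp η t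
      simp only [e]
      exact (Sd_lc hd1 b β p hp η x _).mul_const _
  rw [one_id d' h g1 hw1 o1 o1' hd' mT1 bT1]
  refine (abs_sub _ _).trans (add_le_add ((abs_add_le _ _).trans (add_le_add ?_ le_rfl)) le_rfl)
  -- the second slab
  have hC := meas_Cf (s2.cutDF β).meas N
  have hCb : ∀ η y, |H19.Cf S2 (cut (χ2 β) c2) N η y| ≤ S2.card * (M2 * V) := fun η y =>
    abs_Cf_le (s2.cutDF β).bd hw2.bd η y
  have o2 : Obs (fun η => d.ins (T2 η - H19.Cf S2 (cut (χ2 β) c2) N η) (lcG b β (Ψ η)))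
      (D * (d.sz * (τ2 + S2.card * (M2 * V)))) :=
    oΨ.ins d (mT2.sub hC) fun η y => (abs_sub _ _).trans (add_le_add (bT2 η y) (hCb η y))
  have o3 : Obs (fun η => d.ins (H19.Cf S2 (cut (χ2 β) c2) N η) (lcG b β (Ψ η))) (D * (d.sz * (S2.card * (M2 * V)))) :=
    oΨ.ins d hC hCb
  have mSS : MemLp (fun η => SS (sc f f') S1 (cut (χ1 β) c1) η) 2 (law μ) := g1.memLp hs.1
  have k2 := ibpG2 d h hd12 g1 g2 k12 hw2 oΨ oΨ2 (Sd_lc hd2 b β)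
  have e1 : ∀ η, E'.ev (w η) (d.ins (T2 η) (lcG b β (Ψ η))) * SS (sc f f') S1 (cut (χ1 β) c1) η =
      E'.ev (w η) (d.ins (H19.Cf S2 (cut (χ2 β) c2) N η) (lcG b β (Ψ η))) * SS (sc f f') S1 (cut (χ1 β) c1) η +
        E'.ev (w η) (d.ins (T2 η - H19.Cf S2 (cut (χ2 β) c2) N η) (lcG b β (Ψ η))) *
          SS (sc f f') S1 (cut (χ1 β) c1) η := fun η => by
    rw [← add_mul, ← ev_add]
    congr 1
    exact ev_congr _ _ fun y => by rw [ins_sub]; ring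
  have k3 : ∫ η, E'.ev (w η) (d.ins (T2 η) (lcG b β (Ψ η))) * SS (sc f f') S1 (cut (χ1 β) c1) η ∂(law μ) =
      ∫ η, E'.ev (w η) (d.ins (H19.Cf S2 (cut (χ2 β) c2) N η) (lcG b β (Ψ η))) *
        SS (sc f f') S1 (cut (χ1 β) c1) η ∂(law μ) +
        ∫ η, E'.ev (w η) (d.ins (T2 η - H19.Cf S2 (cut (χ2 β) c2) N η) (lcG b β (Ψ η))) *
          SS (sc f f') S1 (cut (χ1 β) c1) η ∂(law μ) := by
    simp_rw [e1]
    exact integral_add ((o3.memLp E' hw2.meas).integrable_mul mSS) ((o2.memLp E' hw2.meas).integrable_mul mSS)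
  rw [k3, eq_sub_of_add_eq k2]
  have r1' : t1 * M1 ≤ θ0 := by nlinarith [mul_nonneg q1.le s1.pos]
  -- the three pieces
  have f1 := est_twoD hs (s1.cutDF β) (s2.cutDF β) s1.pos hM2 q1 q2 r1 r2 (s1.qv β) (s2.qv β) ha1 ha2
    (oΨ.int E hw1.meas) fun η => abs_ev_le_of E (w η) (oΨ.bd η)
  have f2 := est_oneD hs (s1.cutDF β) s1.pos (a := a1) q1 r1' (s1.qv β) (o2.int E' hw1.meas)
    fun η => abs_ev_le_of E' (w η) (o2.bd η)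
  have m3 : Integrable (fun η => ∑ p ∈ S2, cut (χ2 β) c2 p η * E.ev (w η) (lcG b β (Ψ2 p η))) (law μ) :=
    (R63.int_c_ev g2 E hw1.meas oΨ2).integrable (by norm_num)
  have b3 : ∀ η, |∑ p ∈ S2, cut (χ2 β) c2 p η * E.ev (w η) (lcG b β (Ψ2 p η))| ≤ S2.card * (M2 * D2) := fun η => by
    refine (Finset.abs_sum_le_sum_abs _ _).trans ((Finset.sum_le_card_nsmul _ _ (M2 * D2) fun p hp => ?_).trans_eq
      (by rw [nsmul_eq_mul]))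
    rw [abs_mul]
    exact mul_le_mul ((s2.cutDF β).bd p hp η) (abs_ev_le_of E (w η) ((oΨ2 p hp).bd η)) (abs_nonneg _) hM2
  have f3 := est_oneD hs (s1.cutDF β) s1.pos (a := a1) q1 r1' (s1.qv β) m3 b3
  have f4 := abs_add_le
    (∫ η, E.ev (w η) (lcG b β (Ψ η)) * (SS (sc f f') S1 (cut (χ1 β) c1) η * SS (sc f f') S2 (cut (χ2 β) c2) η) ∂(law μ) -
      ∫ η, (∑ p ∈ S2, cut (χ2 β) c2 p η * E.ev (w η) (lcG b β (Ψ2 p η))) * SS (sc f f') S1 (cut (χ1 β) c1) η ∂(law μ))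
    (∫ η, E'.ev (w η) (d.ins (T2 η - H19.Cf S2 (cut (χ2 β) c2) N η) (lcG b β (Ψ η))) *
          SS (sc f f') S1 (cut (χ1 β) c1) η ∂(law μ))
  have f5 := abs_sub
    (∫ η, E.ev (w η) (lcG b β (Ψ η)) * (SS (sc f f') S1 (cut (χ1 β) c1) η * SS (sc f f') S2 (cut (χ2 β) c2) η) ∂(law μ))
    (∫ η, (∑ p ∈ S2, cut (χ2 β) c2 p η * E.ev (w η) (lcG b β (Ψ2 p η))) * SS (sc f f') S1 (cut (χ1 β) c1) η ∂(law μ))
  unfold tail2 tail1
  linarith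

/-- **THE LOCALISED SLAB STEPS WITH SIGNED REMAINDERS, TWO DERIVATIVES** (order of helper14: the second slab only on `Ψ`). -/
theorem twoS [IsProbabilityMeasure μ] (d : Dr E E') (d' : Dr E' E2) (h : DenLaw μ f f') {K θ0 : ℝ}
    (hs : SG μ (sc f f') K θ0) {bk1 bk2 : Bool} {S1 S2 : Finset Pt} (hd12 : Disjoint S1 S2) {c1 c2 : Pt → Env → ℝ}
    {M1 M2 V D D1 D2 τ1 τ2 Q1 Q2 : ℝ} {χ1 χ2 : (ι → B) → Pt → ℝ} (s1 : SlD bk1 S1 c1 M1 χ1 Q1)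
    (s2 : SlD bk2 S2 c2 M2 χ2 Q2)
    (h12 : ∀ q1 ∈ S1, ∀ q2 ∈ S2, ∀ (η : Env) (x : ℝ), c1 q1 (Function.update η q2 x) = c1 q1 η)
    {w : Env → X → ℝ} {N : Pt → X → ℝ} (hw1 : Wt S1 w N V) (hw2 : Wt S2 w N V) {Ψ : Env → (ι → X) → ℝ}
    {Ψ1 Ψ2 : Pt → Env → (ι → X) → ℝ} (hΨ : Obs Ψ D) (hΨ1 : ∀ p ∈ S1, Obs (Ψ1 p) D1) (hΨ2 : ∀ p ∈ S2, Obs (Ψ2 p) D2)
    (hd1 : Sd S1 Ψ Ψ1) (hd2 : Sd S2 Ψ Ψ2) {T1 T2 : Env → X → ℝ} (mT1 : Measurable T1) (mT2 : Measurable T2)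
    (bT1 : ∀ η y, |T1 η y| ≤ τ1) (bT2 : ∀ η y, |T2 η y| ≤ τ2) (hTb : Bl S1 T2) (hM2 : 0 ≤ M2) (hD2 : 0 ≤ D2)
    (b : X → B) {t1 t2 a1 a2 : ℝ} (q1 : 0 < t1) (q2 : 0 < t2) (ha1 : 0 ≤ a1) (ha2 : 0 ≤ a2)
    (r1 : 2 * t1 * M1 ≤ θ0) (r2 : 2 * t2 * M2 ≤ θ0) :
    |∫ η, E2.ev (w η) (d'.ins (T1 η) (d.ins (T2 η) (Ψ η))) ∂(law μ)| ≤
      a1 * a2 * ∫ η, E.ev (w η) (fun x => |Ψ η x|) ∂(law μ) +
      (Fintype.card (ι → B) : ℝ) * (tail2 K D t1 t2 a1 a2 Q1 Q2 +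
        tail1 K (D * (d.sz * (τ2 + S2.card * (M2 * V)))) t1 a1 Q1 + tail1 K (S2.card * (M2 * D2)) t1 a1 Q1) +
      a1 * ∑ β : ι → B, ∫ η, |E'.ev (w η) (d.ins (T2 η - H19.Cf S2 (cut (χ2 β) c2) N η) (lcG b β (Ψ η)))| ∂(law μ) +
      a1 * ∑ β : ι → B, ∫ η, |∑ p ∈ S2, cut (χ2 β) c2 p η * E.ev (w η) (lcG b β (Ψ2 p η))| ∂(law μ) +
      ∑ β : ι → B,
        |∫ η, E2.ev (w η) (d'.ins (T1 η - H19.Cf S1 (cut (χ1 β) c1) N η) (d.ins (T2 η) (lcG b β (Ψ η)))) ∂(law μ)| +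
      ∑ β : ι → B, |∫ η, ∑ p ∈ S1, cut (χ1 β) c1 p η * E'.ev (w η) (d.ins (T2 η) (lcG b β (Ψ1 p η))) ∂(law μ)| := by
  have o : ∀ β : ι → B, Obs (fun η => d'.ins (T1 η) (d.ins (T2 η) (lcG b β (Ψ η)))) (D * (d.sz * τ2) * (d'.sz * τ1)) :=
    fun β => ((hΨ.lc b β).ins d mT2 bT2).ins d' mT1 bT1
  have e : ∀ η, E2.ev (w η) (d'.ins (T1 η) (d.ins (T2 η) (Ψ η))) =
      ∑ β : ι → B, E2.ev (w η) (d'.ins (T1 η) (d.ins (T2 η) (lcG b β (Ψ η)))) := fun η => by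
    rw [← ev_sum]
    exact ev_congr _ _ fun y => ins_sumΨ d' (T1 η) univ
      (fun x => ins_sumΨ d (T2 η) univ (fun z => (sum_lcG b (Ψ η) z).symm) x) y
  simp_rw [e]
  rw [integral_finsetSum _ fun β _ => (o β).int E2 hw1.meas]
  refine (Finset.abs_sum_le_sum_abs _ _).trans
    ((Finset.sum_le_sum fun β _ => twoS_box d d' h hs hd12 s1 s2 h12 hw1 hw2 hΨ hΨ1 hΨ2 hd1 hd2 mT1 mT2 bT1 bT2 hTb
      hM2 hD2 b β q1 q2 ha1 ha2 r1 r2).trans ?_)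
  have k := mul_le_mul_of_nonneg_left (sum_int_abs_lc (μ := μ) hΨ E hw1.meas b) (mul_nonneg ha1 ha2)
  simp only [Finset.sum_add_distrib, Finset.sum_const, Finset.card_univ, nsmul_eq_mul, ← Finset.mul_sum]
  linarith

/-! ### The remainder: signed part and far part -/

/-- `T - C^β = (T - C) + (C - C^β)`: the first part signed, the second one (the field outside of the boxes) absolute. -/
theorem rem_split (d : Dr E E') (b : X → B) (χ : (ι → B) → Pt → ℝ) (S : Finset Pt) (c : Pt → Env → ℝ) (N : Pt → X → ℝ)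
    (T : Env → X → ℝ) (Ψ : (ι → X) → ℝ) (w : X → ℝ) (η : Env) :
    ∑ β : ι → B, |E'.ev w (d.ins (T η - H19.Cf S (cut (χ β) c) N η) (lcG b β Ψ))| ≤
      ∑ β : ι → B, |E'.ev w (d.ins (T η - H19.Cf S c N η) (lcG b β Ψ))| +
      E'.ev w (fun y => |d.insR b (fun β => H19.Cf S (cut' (χ β) c) N η) Ψ y|) := by
  have e : ∀ β : ι → B, E'.ev w (d.ins (T η - H19.Cf S (cut (χ β) c) N η) (lcG b β Ψ)) =
      E'.ev w (d.ins (T η - H19.Cf S c N η) (lcG b β Ψ)) +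
        E'.ev w (d.ins (H19.Cf S (cut' (χ β) c) N η) (lcG b β Ψ)) := fun β => by
    rw [← ev_add]
    refine ev_congr _ _ fun y => ?_
    rw [← ins_add]
    congr 1
    rw [Cf_split (χ β) S c N η]
    abel
  have k : ∑ β : ι → B, |E'.ev w (d.ins (H19.Cf S (cut' (χ β) c) N η) (lcG b β Ψ))| ≤
      E'.ev w (fun y => |d.insR b (fun β => H19.Cf S (cut' (χ β) c) N η) Ψ y|) := by
    have e2 : ∀ y : ι' → X, |d.insR b (fun β => H19.Cf S (cut' (χ β) c) N η) Ψ y| =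
        ∑ β : ι → B, |d.ins (H19.Cf S (cut' (χ β) c) N η) (lcG b β Ψ) y| := fun y => by
      have e3 : ∀ β : ι → B, |d.ins (H19.Cf S (cut' (χ β) c) N η) (lcG b β Ψ) y| =
          if (fun i => b (y (d.emb i))) = β then |d.ins (H19.Cf S (cut' (χ β) c) N η) Ψ y| else 0 := fun β => by
        unfold Dr.ins lcG
        split_ifs with h
        · rfl
        · rw [zero_mul, abs_zero]
      rw [Finset.sum_congr rfl fun β _ => e3 β, Finset.sum_ite_eq]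
      simp [Dr.insR]
    rw [ev_congr _ _ e2, ev_sum]
    exact Finset.sum_le_sum fun β _ => abs_ev_le _ _ _
  calc ∑ β : ι → B, |E'.ev w (d.ins (T η - H19.Cf S (cut (χ β) c) N η) (lcG b β Ψ))|
      ≤ ∑ β : ι → B, (|E'.ev w (d.ins (T η - H19.Cf S c N η) (lcG b β Ψ))| +
        |E'.ev w (d.ins (H19.Cf S (cut' (χ β) c) N η) (lcG b β Ψ))|) :=
        Finset.sum_le_sum fun β _ => by
          rw [e β]
          exact abs_add_le _ _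
    _ ≤ _ := by
        rw [Finset.sum_add_distrib]
        exact add_le_add le_rfl k

/-! ### Blind observables -/

/-- A blind observable has the site derivatives zero. -/
theorem Sd_blind {S : Finset Pt} {Ψ : Env → (ι → X) → ℝ} (h : ∀ q ∈ S, ∀ (η : Env) (x : ℝ), Ψ (Function.update η q x) = Ψ η) :
    Sd S Ψ fun _ _ _ => 0 := fun p hp η x y => by
  have e : ∀ t : ℝ, Ψ (Function.update η p t) y = Ψ η y := fun t => by rw [h p hp]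
  simp only [e]
  exact hasDerivAt_const x _

theorem lcG_zero (b : X → B) (β : ι → B) : lcG b β (fun _ : ι → X => (0 : ℝ)) = fun _ => 0 := by
  funext x
  unfold lcG
  exact ite_self _

theorem ins_zero (d : Dr E E') (A : X → ℝ) : d.ins A (fun _ : ι → X => (0 : ℝ)) = fun _ => 0 := by
  funext x
  unfold Dr.ins
  exact zero_mul _

theorem Obs_zero : Obs (fun (_ : Env) (_ : ι → X) => (0 : ℝ)) 0 := ⟨measurable_const, fun η x => by rw [abs_zero]⟩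

/-- **One derivative, blind observable.** -/
theorem oneS_blind [IsProbabilityMeasure μ] (d : Dr E E') (h : DenLaw μ f f') {K θ0 : ℝ} (hs : SG μ (sc f f') K θ0)
    {bk : Bool} {S : Finset Pt} {c : Pt → Env → ℝ} {M V D τ Q : ℝ} {χ : (ι → B) → Pt → ℝ} (sl : SlD bk S c M χ Q)
    {w : Env → X → ℝ} {N : Pt → X → ℝ} (hw : Wt S w N V) {Ψ : Env → (ι → X) → ℝ}
    (hΨ : Obs Ψ D) (hbl : ∀ q ∈ S, ∀ (η : Env) (x : ℝ), Ψ (Function.update η q x) = Ψ η) {T : Env → X → ℝ}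
    (hT : Measurable T) (hτ : ∀ η y, |T η y| ≤ τ) (b : X → B) {t a : ℝ} (ht : 0 < t) (ha : 0 ≤ a) (htM : t * M ≤ θ0) :
    |∫ η, E'.ev (w η) (d.ins (T η) (Ψ η)) ∂(law μ)| ≤
      a * ∫ η, E.ev (w η) (fun x => |Ψ η x|) ∂(law μ) + (Fintype.card (ι → B) : ℝ) * tail1 K D t a Q +
      ∑ β : ι → B, |∫ η, E'.ev (w η) (d.ins (T η - H19.Cf S (cut (χ β) c) N η) (lcG b β (Ψ η))) ∂(law μ)| := by
  have k := oneS d h hs sl hw hΨ (Ψ' := fun _ _ _ => 0) (fun p _ => Obs_zero) (Sd_blind hbl) hT hτ b ht ha htM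
  have z : ∀ β : ι → B, ∫ η, ∑ p ∈ S, cut (χ β) c p η * E.ev (w η) (lcG b β (fun _ : ι → X => (0 : ℝ))) ∂(law μ) = 0 :=
    fun β => by
      simp_rw [lcG_zero, ev_const, mul_zero, Finset.sum_const_zero, integral_zero]
  simp only [z, abs_zero, Finset.sum_const_zero, add_zero] at k
  exact k

/-- **Two derivatives, blind observable.** -/
theorem twoS_blind [IsProbabilityMeasure μ] (d : Dr E E') (d' : Dr E' E2) (h : DenLaw μ f f') {K θ0 : ℝ}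
    (hs : SG μ (sc f f') K θ0) {bk1 bk2 : Bool} {S1 S2 : Finset Pt} (hd12 : Disjoint S1 S2) {c1 c2 : Pt → Env → ℝ}
    {M1 M2 V D τ1 τ2 Q1 Q2 : ℝ} {χ1 χ2 : (ι → B) → Pt → ℝ} (s1 : SlD bk1 S1 c1 M1 χ1 Q1)
    (s2 : SlD bk2 S2 c2 M2 χ2 Q2)
    (h12 : ∀ q1 ∈ S1, ∀ q2 ∈ S2, ∀ (η : Env) (x : ℝ), c1 q1 (Function.update η q2 x) = c1 q1 η)
    {w : Env → X → ℝ} {N : Pt → X → ℝ} (hw1 : Wt S1 w N V) (hw2 : Wt S2 w N V) {Ψ : Env → (ι → X) → ℝ}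
    (hΨ : Obs Ψ D) (hb1 : ∀ q ∈ S1, ∀ (η : Env) (x : ℝ), Ψ (Function.update η q x) = Ψ η)
    (hb2 : ∀ q ∈ S2, ∀ (η : Env) (x : ℝ), Ψ (Function.update η q x) = Ψ η)
    {T1 T2 : Env → X → ℝ} (mT1 : Measurable T1) (mT2 : Measurable T2)
    (bT1 : ∀ η y, |T1 η y| ≤ τ1) (bT2 : ∀ η y, |T2 η y| ≤ τ2) (hTb : Bl S1 T2) (hM2 : 0 ≤ M2)
    (b : X → B) {t1 t2 a1 a2 : ℝ} (q1 : 0 < t1) (q2 : 0 < t2) (ha1 : 0 ≤ a1) (ha2 : 0 ≤ a2)
    (r1 : 2 * t1 * M1 ≤ θ0) (r2 : 2 * t2 * M2 ≤ θ0) :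
    |∫ η, E2.ev (w η) (d'.ins (T1 η) (d.ins (T2 η) (Ψ η))) ∂(law μ)| ≤
      a1 * a2 * ∫ η, E.ev (w η) (fun x => |Ψ η x|) ∂(law μ) +
      (Fintype.card (ι → B) : ℝ) * (tail2 K D t1 t2 a1 a2 Q1 Q2 +
        tail1 K (D * (d.sz * (τ2 + S2.card * (M2 * V)))) t1 a1 Q1) +
      a1 * ∑ β : ι → B, ∫ η, |E'.ev (w η) (d.ins (T2 η - H19.Cf S2 (cut (χ2 β) c2) N η) (lcG b β (Ψ η)))| ∂(law μ) +
      ∑ β : ι → B,
        |∫ η, E2.ev (w η) (d'.ins (T1 η - H19.Cf S1 (cut (χ1 β) c1) N η) (d.ins (T2 η) (lcG b β (Ψ η)))) ∂(law μ)| := by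
  have k := twoS d d' h hs hd12 s1 s2 h12 hw1 hw2 hΨ (Ψ1 := fun _ _ _ => 0) (Ψ2 := fun _ _ _ => 0)
    (fun p _ => Obs_zero) (fun p _ => Obs_zero) (Sd_blind hb1) (Sd_blind hb2) mT1 mT2 bT1 bT2 hTb hM2 le_rfl b q1 q2 ha1
    ha2 r1 r2
  have z2 : ∀ β : ι → B, ∫ η, |∑ p ∈ S2, cut (χ2 β) c2 p η * E.ev (w η) (lcG b β (fun _ : ι → X => (0 : ℝ)))| ∂(law μ) = 0 :=
    fun β => by
      simp_rw [lcG_zero, ev_const, mul_zero, Finset.sum_const_zero, abs_zero, integral_zero]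
  have z1 : ∀ β : ι → B, ∫ η, ∑ p ∈ S1, cut (χ1 β) c1 p η *
      E'.ev (w η) (d.ins (T2 η) (lcG b β (fun _ : ι → X => (0 : ℝ)))) ∂(law μ) = 0 := fun β => by
    simp_rw [lcG_zero, ins_zero, ev_const, mul_zero, Finset.sum_const_zero, integral_zero]
  have z3 : tail1 K 0 t1 a1 Q1 = 0 := by
    unfold tail1
    ring
  simp only [z1, z2, z3, abs_zero, Finset.sum_const_zero, mul_zero, add_zero] at k
  exact k

end

end Pool.W7d29a1.C0.H41
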