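import Pool.Agent.W_7d29a1_C0.CumB82
import Pool.Agent.W_7d29a1_C0.VT31

/-!
CURV0 (MP_7d29a1_pr): trees of replicas, free and conditional (the formal meaning of the functionals of the slab step). A `Plan`
draws its replicas one after the other; the next one is drawn from a set of paths which is any function of the old ones
(everything: a free replica; a fibre `p s = p (x i)`: a replica given what `p` sees of the replica `i`). The new replica has the
index `0`, the old ones are `Fin.tail x` (as in `rep`, `nxt`). The derivative of such a functional along any curve of weights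
is the sum over the replicas `i` of the same functional with a shadow of the replica `i`, drawn from the same set. (helper52)
-/

set_option autoImplicit false
set_option linter.unusedSectionVars false
set_option linter.unusedVariables false

namespace Pool.W7d29a1.C0.I52

open Finset Filter Topology MeasureTheory
open Pool.Agent.W_7d29a1_C0 Pool.W7d29a1.C0 Pool.W7d29a1.C0.VT31

noncomputable section

variable {X : Type*} [Fintype X] [DecidableEq X]

/-! ### One conditional replica -/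

/-- The mass of a set of paths. -/
def zs (w : X → ℝ) (A : Finset X) : ℝ := ∑ s ∈ A, Real.exp (w s)

/-- The law of one replica drawn from the set `A`. -/
def ker (w : X → ℝ) (A : Finset X) (s : X) : ℝ := if s ∈ A then Real.exp (w s) / zs w A else 0

/-- The mean of `f` over one replica drawn from `A`. -/
def av (w : X → ℝ) (A : Finset X) (f : X → ℝ) : ℝ := ∑ s, ker w A s * f s

theorem zs_pos (w : X → ℝ) {A : Finset X} (h : A.Nonempty) : 0 < zs w A :=
  Finset.sum_pos (fun s _ => Real.exp_pos _) h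

theorem zs_nonneg (w : X → ℝ) (A : Finset X) : 0 ≤ zs w A := Finset.sum_nonneg fun s _ => (Real.exp_pos _).le

theorem ker_nonneg (w : X → ℝ) (A : Finset X) (s : X) : 0 ≤ ker w A s := by
  unfold ker
  split_ifs
  · exact div_nonneg (Real.exp_pos _).le (zs_nonneg w A)
  · exact le_rfl

theorem sum_ker (w : X → ℝ) {A : Finset X} (h : A.Nonempty) : ∑ s, ker w A s = 1 := by
  unfold ker
  rw [Finset.sum_ite_mem, Finset.univ_inter, ← Finset.sum_div]
  exact div_self (zs_pos w h).ne'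

theorem av_eq (w : X → ℝ) (A : Finset X) (f : X → ℝ) : av w A f = (∑ s ∈ A, Real.exp (w s) * f s) / zs w A := by
  unfold av ker
  simp only [ite_mul, zero_mul]
  rw [Finset.sum_ite_mem, Finset.univ_inter, Finset.sum_div]
  exact Finset.sum_congr rfl fun s _ => by ring

theorem av_add (w : X → ℝ) (A : Finset X) (f g : X → ℝ) : av w A (fun s => f s + g s) = av w A f + av w A g := by
  unfold av
  rw [← Finset.sum_add_distrib]
  exact Finset.sum_congr rfl fun s _ => by ring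

theorem av_sub (w : X → ℝ) (A : Finset X) (f g : X → ℝ) : av w A (fun s => f s - g s) = av w A f - av w A g := by
  unfold av
  rw [← Finset.sum_sub_distrib]
  exact Finset.sum_congr rfl fun s _ => by ring

theorem av_smul (w : X → ℝ) (A : Finset X) (c : ℝ) (f : X → ℝ) : av w A (fun s => c * f s) = c * av w A f := by
  unfold av
  rw [Finset.mul_sum]
  exact Finset.sum_congr rfl fun s _ => by ring

theorem av_const (w : X → ℝ) {A : Finset X} (h : A.Nonempty) (c : ℝ) : av w A (fun _ => c) = c := by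
  unfold av
  rw [← Finset.sum_mul, sum_ker w h, one_mul]

theorem av_mono (w : X → ℝ) (A : Finset X) {f g : X → ℝ} (h : ∀ s ∈ A, f s ≤ g s) : av w A f ≤ av w A g := by
  unfold av
  refine Finset.sum_le_sum fun s _ => ?_
  by_cases hs : s ∈ A
  · exact mul_le_mul_of_nonneg_left (h s hs) (ker_nonneg w A s)
  · unfold ker
    rw [if_neg hs, zero_mul, zero_mul]

theorem av_congr (w : X → ℝ) (A : Finset X) {f g : X → ℝ} (h : ∀ s ∈ A, f s = g s) : av w A f = av w A g :=
  le_antisymm (av_mono w A fun s hs => (h s hs).le) (av_mono w A fun s hs => (h s hs).ge)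

theorem av_sum {J : Type*} (s : Finset J) (w : X → ℝ) (A : Finset X) (f : J → X → ℝ) :
    av w A (fun y => ∑ j ∈ s, f j y) = ∑ j ∈ s, av w A (f j) := by
  unfold av
  rw [Finset.sum_comm]
  exact Finset.sum_congr rfl fun y _ => Finset.mul_sum _ _ _

theorem abs_av_le (w : X → ℝ) (A : Finset X) (f : X → ℝ) : |av w A f| ≤ av w A (fun s => |f s|) := by
  unfold av
  refine (Finset.abs_sum_le_sum_abs _ _).trans_eq (Finset.sum_congr rfl fun s _ => ?_)
  rw [abs_mul, abs_of_nonneg (ker_nonneg w A s)]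

/-- The conditional mean of VT31 is a replica drawn from the fibre. -/
theorem cE_eq_av {Y : Type*} [DecidableEq Y] (w : X → ℝ) (p : X → Y) (f : X → ℝ) (x : X) :
    cE w p f x = av w (univ.filter fun s => p s = p x) f := by
  rw [av_eq]
  unfold cE fz zs
  rw [Finset.sum_filter, Finset.sum_filter]

theorem fib_ne {Y : Type*} [DecidableEq Y] (p : X → Y) (x : X) : (univ.filter fun s => p s = p x).Nonempty :=
  ⟨x, Finset.mem_filter.2 ⟨mem_univ x, rfl⟩⟩

theorem gm_eq_av [Nonempty X] (w : X → ℝ) (f : X → ℝ) : gm w f = av w univ f := by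
  rw [av_eq]
  rfl

theorem hasDerivAt_exp_w {w : ℝ → X → ℝ} {B : X → ℝ} {t : ℝ} (h : HasDerivAt w B t) (s : X) :
    HasDerivAt (fun t => Real.exp (w t s)) (Real.exp (w t s) * B s) t :=
  ((hasDerivAt_pi.1 h) s).exp

theorem hasDerivAt_zs {w : ℝ → X → ℝ} {B : X → ℝ} {t : ℝ} (h : HasDerivAt w B t) (A : Finset X) :
    HasDerivAt (fun t => zs (w t) A) (∑ s ∈ A, Real.exp (w t s) * B s) t :=
  HasDerivAt.fun_sum fun s _ => hasDerivAt_exp_w h s

theorem hasDerivAt_ker {w : ℝ → X → ℝ} {B : X → ℝ} {t : ℝ} (h : HasDerivAt w B t) {A : Finset X} (hA : A.Nonempty) (s : X) :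
    HasDerivAt (fun t => ker (w t) A s) (ker (w t) A s * (B s - av (w t) A B)) t := by
  unfold ker
  by_cases hs : s ∈ A
  · simp only [hs, if_true]
    have hz : zs (w t) A ≠ 0 := (zs_pos (w t) hA).ne'
    refine ((hasDerivAt_exp_w h s).div (hasDerivAt_zs h A) hz).congr_deriv ?_
    rw [av_eq]
    field_simp
  · simp only [hs, if_false, zero_mul]
    exact hasDerivAt_const t 0

/-! ### Plans -/

/-- A plan for `m` replicas: the next replica is drawn from the set `A x`, `x` = the old ones. -/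
inductive Plan (X : Type*) : ℕ → Type _
  | nil : Plan X 0
  | cons {m : ℕ} (P : Plan X m) (A : (Fin m → X) → Finset X) (h : ∀ x, (A x).Nonempty) : Plan X (m + 1)

/-- The law of the `m` replicas. -/
def wt : {m : ℕ} → Plan X m → (X → ℝ) → (Fin m → X) → ℝ
  | _, Plan.nil, _, _ => 1
  | _, Plan.cons P A _, w, x => wt P w (Fin.tail x) * ker w (A (Fin.tail x)) (x 0)

/-- The average over the replicas of the plan. -/
def ev {m : ℕ} (P : Plan X m) (w : X → ℝ) (Ψ : (Fin m → X) → ℝ) : ℝ := ∑ x, wt P w x * Ψ x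

/-- The set from which the replica `i` is drawn. -/
def Plan.S : {m : ℕ} → Plan X m → Fin m → (Fin m → X) → Finset X
  | _, Plan.nil, i, _ => i.elim0
  | _, Plan.cons P A _, i, x => Fin.cases (A (Fin.tail x)) (fun j => P.S j (Fin.tail x)) i

theorem S_cons_zero {m : ℕ} (P : Plan X m) (A : (Fin m → X) → Finset X) (h : ∀ x, (A x).Nonempty) (x : Fin (m + 1) → X) :
    (Plan.cons P A h).S 0 x = A (Fin.tail x) := rfl

theorem S_cons_succ {m : ℕ} (P : Plan X m) (A : (Fin m → X) → Finset X) (h : ∀ x, (A x).Nonempty) (i : Fin m)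
    (x : Fin (m + 1) → X) : (Plan.cons P A h).S i.succ x = P.S i (Fin.tail x) := rfl

theorem S_ne : {m : ℕ} → (P : Plan X m) → (i : Fin m) → (x : Fin m → X) → (P.S i x).Nonempty
  | _, Plan.nil, i, _ => i.elim0
  | _, Plan.cons P A h, i, x => by
    refine Fin.cases ?_ (fun j => ?_) i
    · exact h _
    · exact S_ne P j _

/-- The plan with one more replica, drawn from the same set as the replica `i`. -/
def Plan.sh {m : ℕ} (P : Plan X m) (i : Fin m) : Plan X (m + 1) := Plan.cons P (P.S i) (S_ne P i)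

/-- A free replica. -/
def Plan.fr [Nonempty X] {m : ℕ} (P : Plan X m) : Plan X (m + 1) := Plan.cons P (fun _ => univ) fun _ => univ_nonempty

/-- A replica given what `p` sees of the replica `i`. -/
def Plan.gi {Y : Type*} [DecidableEq Y] {m : ℕ} (P : Plan X m) (p : X → Y) (i : Fin m) : Plan X (m + 1) :=
  Plan.cons P (fun x => univ.filter fun s => p s = p (x i)) fun x => fib_ne p (x i)

theorem wt_cons {m : ℕ} (P : Plan X m) (A : (Fin m → X) → Finset X) (h : ∀ x, (A x).Nonempty) (w : X → ℝ)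
    (x : Fin (m + 1) → X) : wt (Plan.cons P A h) w x = wt P w (Fin.tail x) * ker w (A (Fin.tail x)) (x 0) := rfl

theorem wt_nonneg : {m : ℕ} → (P : Plan X m) → (w : X → ℝ) → (x : Fin m → X) → 0 ≤ wt P w x
  | _, Plan.nil, _, _ => zero_le_one
  | _, Plan.cons P A h, w, x => by
    rw [wt_cons]
    exact mul_nonneg (wt_nonneg P w _) (ker_nonneg w _ _)

theorem sum_cons' (m : ℕ) (F : (Fin (m + 1) → X) → ℝ) : ∑ x, F x = ∑ y : X, ∑ x : Fin m → X, F (Fin.cons y x) := by
  rw [← (Fin.consEquiv (fun _ : Fin (m + 1) => X)).sum_comp F, Fintype.sum_prod_type]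
  rfl

/-- The last replica is integrated first. -/
theorem ev_cons {m : ℕ} (P : Plan X m) (A : (Fin m → X) → Finset X) (h : ∀ x, (A x).Nonempty) (w : X → ℝ)
    (Ψ : (Fin (m + 1) → X) → ℝ) :
    ev (Plan.cons P A h) w Ψ = ev P w fun x => av w (A x) fun s => Ψ (Fin.cons s x) := by
  unfold ev
  rw [sum_cons', Finset.sum_comm]
  refine Finset.sum_congr rfl fun x _ => ?_
  unfold av
  rw [Finset.mul_sum]
  refine Finset.sum_congr rfl fun s _ => ?_
  rw [wt_cons, Fin.tail_cons, Fin.cons_zero]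
  ring

theorem ev_nil (w : X → ℝ) (Ψ : (Fin 0 → X) → ℝ) : ev (Plan.nil : Plan X 0) w Ψ = Ψ Fin.elim0 := by
  unfold ev
  rw [Fintype.sum_unique]
  show (1 : ℝ) * Ψ default = _
  rw [one_mul, Subsingleton.elim default (Fin.elim0 : Fin 0 → X)]

theorem ev_add {m : ℕ} (P : Plan X m) (w : X → ℝ) (Ψ Φ : (Fin m → X) → ℝ) :
    ev P w (fun x => Ψ x + Φ x) = ev P w Ψ + ev P w Φ := by
  unfold ev
  rw [← Finset.sum_add_distrib]
  exact Finset.sum_congr rfl fun x _ => by ring

theorem ev_sub {m : ℕ} (P : Plan X m) (w : X → ℝ) (Ψ Φ : (Fin m → X) → ℝ) :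
    ev P w (fun x => Ψ x - Φ x) = ev P w Ψ - ev P w Φ := by
  unfold ev
  rw [← Finset.sum_sub_distrib]
  exact Finset.sum_congr rfl fun x _ => by ring

theorem ev_smul {m : ℕ} (P : Plan X m) (w : X → ℝ) (c : ℝ) (Ψ : (Fin m → X) → ℝ) :
    ev P w (fun x => c * Ψ x) = c * ev P w Ψ := by
  unfold ev
  rw [Finset.mul_sum]
  exact Finset.sum_congr rfl fun x _ => by ring

theorem ev_sum {J : Type*} (s : Finset J) {m : ℕ} (P : Plan X m) (w : X → ℝ) (Ψ : J → (Fin m → X) → ℝ) :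
    ev P w (fun x => ∑ j ∈ s, Ψ j x) = ∑ j ∈ s, ev P w (Ψ j) := by
  unfold ev
  rw [Finset.sum_comm]
  exact Finset.sum_congr rfl fun x _ => Finset.mul_sum _ _ _

theorem ev_mono {m : ℕ} (P : Plan X m) (w : X → ℝ) {Ψ Φ : (Fin m → X) → ℝ} (h : ∀ x, Ψ x ≤ Φ x) : ev P w Ψ ≤ ev P w Φ :=
  Finset.sum_le_sum fun x _ => mul_le_mul_of_nonneg_left (h x) (wt_nonneg P w x)

theorem ev_congr {m : ℕ} (P : Plan X m) (w : X → ℝ) {Ψ Φ : (Fin m → X) → ℝ} (h : ∀ x, Ψ x = Φ x) : ev P w Ψ = ev P w Φ := by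
  rw [funext h]

theorem ev_nonneg {m : ℕ} (P : Plan X m) (w : X → ℝ) {Ψ : (Fin m → X) → ℝ} (h : ∀ x, 0 ≤ Ψ x) : 0 ≤ ev P w Ψ :=
  Finset.sum_nonneg fun x _ => mul_nonneg (wt_nonneg P w x) (h x)

theorem abs_ev_le {m : ℕ} (P : Plan X m) (w : X → ℝ) {Ψ Φ : (Fin m → X) → ℝ} (h : ∀ x, |Ψ x| ≤ Φ x) :
    |ev P w Ψ| ≤ ev P w Φ := by
  unfold ev
  refine (Finset.abs_sum_le_sum_abs _ _).trans (Finset.sum_le_sum fun x _ => ?_)
  rw [abs_mul, abs_of_nonneg (wt_nonneg P w x)]
  exact mul_le_mul_of_nonneg_left (h x) (wt_nonneg P w x)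

/-- A replica which is not used is integrated out. -/
theorem ev_tail {m : ℕ} (P : Plan X m) (A : (Fin m → X) → Finset X) (h : ∀ x, (A x).Nonempty) (w : X → ℝ)
    (Ψ : (Fin m → X) → ℝ) : ev (Plan.cons P A h) w (fun x => Ψ (Fin.tail x)) = ev P w Ψ := by
  rw [ev_cons]
  refine ev_congr P w fun x => ?_
  simp only [Fin.tail_cons]
  exact av_const w (h x) (Ψ x)

theorem ev_one : {m : ℕ} → (P : Plan X m) → (w : X → ℝ) → ev P w (fun _ => 1) = 1
  | _, Plan.nil, w => ev_nil w _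
  | _, Plan.cons P A h, w => (ev_tail P A h w fun _ => 1).trans (ev_one P w)

theorem ev_const {m : ℕ} (P : Plan X m) (w : X → ℝ) (c : ℝ) : ev P w (fun _ => c) = c := by
  have h := ev_smul P w c (fun _ => 1)
  rw [ev_one, mul_one] at h
  exact h

theorem abs_ev_le_of {m : ℕ} (P : Plan X m) (w : X → ℝ) {Ψ : (Fin m → X) → ℝ} {D : ℝ} (h : ∀ x, |Ψ x| ≤ D) : |ev P w Ψ| ≤ D :=
  (abs_ev_le P w h).trans_eq (ev_const P w D)

/-- Only the tuples of positive mass count. -/
theorem ev_mono' {m : ℕ} (P : Plan X m) (w : X → ℝ) {Ψ Φ : (Fin m → X) → ℝ} (h : ∀ x, wt P w x ≠ 0 → Ψ x ≤ Φ x) :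
    ev P w Ψ ≤ ev P w Φ := by
  refine Finset.sum_le_sum fun x _ => ?_
  by_cases hx : wt P w x = 0
  · rw [hx, zero_mul, zero_mul]
  · exact mul_le_mul_of_nonneg_left (h x hx) (wt_nonneg P w x)

/-- The replicas are in their sets. -/
theorem mem_of_wt : {m : ℕ} → (P : Plan X m) → (w : X → ℝ) → (x : Fin m → X) → wt P w x ≠ 0 → ∀ i, x i ∈ P.S i x
  | _, Plan.nil, _, _, _, i => i.elim0
  | _, Plan.cons P A h, w, x, hx, i => by
    rw [wt_cons] at hx
    have h1 : wt P w (Fin.tail x) ≠ 0 := left_ne_zero_of_mul hx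
    have h2 : ker w (A (Fin.tail x)) (x 0) ≠ 0 := right_ne_zero_of_mul hx
    refine Fin.cases ?_ (fun j => ?_) i
    · rw [S_cons_zero]
      by_contra hc
      exact h2 (if_neg hc)
    · rw [S_cons_succ]
      exact mem_of_wt P w _ h1 j

/-! ### An involution of the tuples -/

/-- A map of the tuples onto themselves which keeps their law. -/
theorem ev_invol {m : ℕ} (P : Plan X m) (w : X → ℝ) (σ : (Fin m → X) → (Fin m → X)) (hσ : Function.Involutive σ)
    (hw : ∀ x, wt P w (σ x) = wt P w x) (Ψ : (Fin m → X) → ℝ) : ev P w (fun x => Ψ (σ x)) = ev P w Ψ := by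
  unfold ev
  refine Fintype.sum_equiv hσ.toPerm _ _ fun x => ?_
  show wt P w x * Ψ (σ x) = wt P w (σ x) * Ψ (σ x)
  rw [hw]

/-- The swap on a part `T` of the tuples: an antisymmetric integrand disappears there. -/
theorem ev_swap {m : ℕ} (P : Plan X m) (w : X → ℝ) (σ : (Fin m → X) → (Fin m → X)) (hσ : Function.Involutive σ)
    (hw : ∀ x, wt P w (σ x) = wt P w x) (T : (Fin m → X) → Prop) [DecidablePred T] (hT : ∀ x, T (σ x) ↔ T x)
    {Ψ : (Fin m → X) → ℝ} (ha : ∀ x, T x → Ψ (σ x) = -Ψ x) : ev P w Ψ = ev P w fun x => if T x then 0 else Ψ x := by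
  have h1 : ev P w (fun x => if T x then Ψ x else 0) = 0 := by
    have e := ev_invol P w σ hσ hw fun x => if T x then Ψ x else 0
    have e2 : ev P w (fun x => if T (σ x) then Ψ (σ x) else 0) = -ev P w (fun x => if T x then Ψ x else 0) := by
      have e3 : ∀ x, (if T (σ x) then Ψ (σ x) else 0) = -1 * (if T x then Ψ x else 0) := fun x => by
        by_cases h : T x
        · rw [if_pos ((hT x).2 h), if_pos h, ha x h]
          ring
        · rw [if_neg fun h' => h ((hT x).1 h'), if_neg h, mul_zero]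
      rw [ev_congr P w e3, ev_smul]
      ring
    linarith
  have h2 : ∀ x, Ψ x = (if T x then Ψ x else 0) + (if T x then 0 else Ψ x) := fun x => by
    split_ifs <;> ring
  rw [ev_congr P w h2, ev_add, h1, zero_add]

/-! ### The derivative -/

/-- The insertion of `B` at the replica `i` and, with the opposite sign, at its shadow. -/
def dn {m : ℕ} (B : X → ℝ) (i : Fin m) (Ψ : (Fin m → X) → ℝ) : (Fin (m + 1) → X) → ℝ :=
  fun x => Ψ (Fin.tail x) * (B (x i.succ) - B (x 0))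

/-- The insertion of `B` in the functional of the plan `P`. -/
def ins {m : ℕ} (P : Plan X m) (w B : X → ℝ) (Ψ : (Fin m → X) → ℝ) : ℝ := ∑ i, ev (P.sh i) w (dn B i Ψ)

theorem ev_sh {m : ℕ} (P : Plan X m) (i : Fin m) (w B : X → ℝ) (Ψ : (Fin m → X) → ℝ) :
    ev (P.sh i) w (dn B i Ψ) = ev P w fun x => Ψ x * (B (x i) - av w (P.S i x) B) := by
  unfold Plan.sh
  rw [ev_cons]
  refine ev_congr P w fun x => ?_
  have e : ∀ s, dn B i Ψ (Fin.cons s x) = Ψ x * (B (x i) - B s) := fun s => by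
    unfold dn
    rw [Fin.tail_cons, Fin.cons_succ, Fin.cons_zero]
  rw [av_congr w (P.S i x) fun s _ => e s, av_smul, av_sub w (P.S i x) (fun _ => B (x i)) B, av_const w (S_ne P i x)]

theorem ins_eq {m : ℕ} (P : Plan X m) (w B : X → ℝ) (Ψ : (Fin m → X) → ℝ) :
    ins P w B Ψ = ev P w fun x => Ψ x * ∑ i, (B (x i) - av w (P.S i x) B) := by
  unfold ins
  rw [Finset.sum_congr rfl fun i _ => ev_sh P i w B Ψ, ← ev_sum]
  exact ev_congr P w fun x => (Finset.mul_sum _ _ _).symm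

theorem hasDerivAt_wt {w : ℝ → X → ℝ} {B : X → ℝ} {t : ℝ} (h : HasDerivAt w B t) :
    {m : ℕ} → (P : Plan X m) → (x : Fin m → X) →
      HasDerivAt (fun t => wt P (w t) x) (wt P (w t) x * ∑ i, (B (x i) - av (w t) (P.S i x) B)) t
  | _, Plan.nil, x => by
    show HasDerivAt (fun _ => (1 : ℝ)) _ t
    refine (hasDerivAt_const t (1 : ℝ)).congr_deriv ?_
    simp
  | _, Plan.cons P A hA, x => by
    have h1 := hasDerivAt_wt h P (Fin.tail x)
    have h2 := hasDerivAt_ker h (hA (Fin.tail x)) (x 0)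
    refine (h1.mul h2).congr_deriv ?_
    rw [wt_cons, Fin.sum_univ_succ, S_cons_zero]
    have e : ∑ i : Fin _, (B (x i.succ) - av (w t) ((Plan.cons P A hA).S i.succ x) B) =
        ∑ i, (B (Fin.tail x i) - av (w t) (P.S i (Fin.tail x)) B) := rfl
    rw [e]
    ring

/-- **The derivative of the functional of a plan along any curve of weights.** -/
theorem hasDerivAt_ev {w : ℝ → X → ℝ} {B : X → ℝ} {t : ℝ} (h : HasDerivAt w B t) {m : ℕ} (P : Plan X m)
    (Ψ : (Fin m → X) → ℝ) : HasDerivAt (fun t => ev P (w t) Ψ) (ins P (w t) B Ψ) t := by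
  rw [ins_eq]
  unfold ev
  refine (HasDerivAt.fun_sum fun x _ => (hasDerivAt_wt h P x).mul_const (Ψ x)).congr_deriv ?_
  exact Finset.sum_congr rfl fun x _ => by ring

/-! ### Algebra of the insertion -/

theorem dn_addB {m : ℕ} (A B : X → ℝ) (i : Fin m) (Ψ : (Fin m → X) → ℝ) (x : Fin (m + 1) → X) :
    dn (A + B) i Ψ x = dn A i Ψ x + dn B i Ψ x := by
  unfold dn
  rw [Pi.add_apply, Pi.add_apply]
  ring

theorem ins_addB {m : ℕ} (P : Plan X m) (w A B : X → ℝ) (Ψ : (Fin m → X) → ℝ) :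
    ins P w (A + B) Ψ = ins P w A Ψ + ins P w B Ψ := by
  unfold ins
  rw [← Finset.sum_add_distrib]
  refine Finset.sum_congr rfl fun i _ => ?_
  rw [← ev_add]
  exact ev_congr _ _ fun x => dn_addB A B i Ψ x

theorem ins_smulB {m : ℕ} (P : Plan X m) (w : X → ℝ) (c : ℝ) (B : X → ℝ) (Ψ : (Fin m → X) → ℝ) :
    ins P w (c • B) Ψ = c * ins P w B Ψ := by
  unfold ins
  rw [Finset.mul_sum]
  refine Finset.sum_congr rfl fun i _ => ?_
  rw [← ev_smul]
  refine ev_congr _ _ fun x => ?_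
  unfold dn
  rw [Pi.smul_apply, Pi.smul_apply, smul_eq_mul, smul_eq_mul]
  ring

theorem ins_subB {m : ℕ} (P : Plan X m) (w A B : X → ℝ) (Ψ : (Fin m → X) → ℝ) :
    ins P w (A - B) Ψ = ins P w A Ψ - ins P w B Ψ := by
  have h : A - B = A + (-1 : ℝ) • B := by
    funext s
    simp only [Pi.sub_apply, Pi.add_apply, Pi.smul_apply, smul_eq_mul]
    ring
  rw [h, ins_addB, ins_smulB]
  ring

theorem ins_sumB {J : Type*} (s : Finset J) {m : ℕ} (P : Plan X m) (w : X → ℝ) (B : J → X → ℝ) (Ψ : (Fin m → X) → ℝ) :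
    ins P w (∑ j ∈ s, B j) Ψ = ∑ j ∈ s, ins P w (B j) Ψ := by
  classical
  induction s using Finset.induction_on with
  | empty =>
    rw [Finset.sum_empty, Finset.sum_empty]
    have h := ins_smulB P w 0 0 Ψ
    rw [zero_mul, smul_zero] at h
    exact h
  | insert a s ha ih =>
    rw [Finset.sum_insert ha, Finset.sum_insert ha, ins_addB, ih]

theorem ins_addΨ {m : ℕ} (P : Plan X m) (w B : X → ℝ) (Ψ Φ : (Fin m → X) → ℝ) :
    ins P w B (fun x => Ψ x + Φ x) = ins P w B Ψ + ins P w B Φ := by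
  rw [ins_eq, ins_eq, ins_eq, ← ev_add]
  exact ev_congr _ _ fun x => by ring

theorem ins_smulΨ {m : ℕ} (P : Plan X m) (w B : X → ℝ) (c : ℝ) (Ψ : (Fin m → X) → ℝ) :
    ins P w B (fun x => c * Ψ x) = c * ins P w B Ψ := by
  rw [ins_eq, ins_eq, ← ev_smul]
  exact ev_congr _ _ fun x => by ring

theorem ins_sumΨ {J : Type*} (s : Finset J) {m : ℕ} (P : Plan X m) (w B : X → ℝ) (Ψ : J → (Fin m → X) → ℝ) :
    ins P w B (fun x => ∑ j ∈ s, Ψ j x) = ∑ j ∈ s, ins P w B (Ψ j) := by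
  rw [ins_eq, Finset.sum_congr rfl fun j _ => ins_eq P w B (Ψ j), ← ev_sum]
  exact ev_congr _ _ fun x => Finset.sum_mul _ _ _

theorem abs_dn_le {m : ℕ} {B : X → ℝ} {a D : ℝ} (hB : ∀ s, |B s| ≤ a) (i : Fin m) {Ψ : (Fin m → X) → ℝ}
    (hΨ : ∀ x, |Ψ x| ≤ D) (x : Fin (m + 1) → X) : |dn B i Ψ x| ≤ D * (2 * a) := by
  unfold dn
  rw [abs_mul]
  refine mul_le_mul (hΨ _) ?_ (abs_nonneg _) ((abs_nonneg _).trans (hΨ (Fin.tail x)))
  refine (abs_sub _ _).trans ?_
  linarith [hB (x i.succ), hB (x 0)]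

theorem abs_ins_le_of {m : ℕ} (P : Plan X m) (w : X → ℝ) {B : X → ℝ} {a D : ℝ} (hB : ∀ s, |B s| ≤ a)
    {Ψ : (Fin m → X) → ℝ} (hΨ : ∀ x, |Ψ x| ≤ D) : |ins P w B Ψ| ≤ m * (D * (2 * a)) := by
  unfold ins
  refine (Finset.abs_sum_le_sum_abs _ _).trans ((Finset.sum_le_sum fun i _ =>
    abs_ev_le_of (P.sh i) w (abs_dn_le hB i hΨ)).trans_eq ?_)
  rw [Finset.sum_const, Finset.card_univ, Fintype.card_fin, nsmul_eq_mul]

/-- The insertion of `R` is at most the functional of `|R|` at the replicas and at their shadows. -/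
theorem abs_ins_le {m : ℕ} (P : Plan X m) (w R : X → ℝ) (Ψ : (Fin m → X) → ℝ) :
    |ins P w R Ψ| ≤ ∑ i, ev P w (fun x => |Ψ x| * |R (x i)|) +
      ∑ i, ev (P.sh i) w (fun x => |Ψ (Fin.tail x)| * |R (x 0)|) := by
  unfold ins
  rw [← Finset.sum_add_distrib]
  refine (Finset.abs_sum_le_sum_abs _ _).trans (Finset.sum_le_sum fun i _ => ?_)
  have h1 : ev P w (fun x => |Ψ x| * |R (x i)|) = ev (P.sh i) w (fun x => |Ψ (Fin.tail x)| * |R (x i.succ)|) :=
    (ev_tail P (P.S i) (S_ne P i) w fun x => |Ψ x| * |R (x i)|).symm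
  rw [h1, ← ev_add]
  refine abs_ev_le _ _ fun x => ?_
  unfold dn
  rw [abs_mul, ← mul_add]
  exact mul_le_mul_of_nonneg_left (abs_sub _ _) (abs_nonneg _)

/-! ### Two insertions -/

/-- Two insertions, first `B`, then `A`. -/
def ins2 {m : ℕ} (P : Plan X m) (w A B : X → ℝ) (Ψ : (Fin m → X) → ℝ) : ℝ := ∑ i, ins (P.sh i) w A (dn B i Ψ)

theorem gline (w A : X → ℝ) (t : ℝ) : HasDerivAt (fun t : ℝ => w + t • A) A t := by
  refine hasDerivAt_pi.2 fun s => ?_
  have h := ((hasDerivAt_id t).mul_const (A s)).const_add (w s)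
  simpa using h

theorem wt_contDiff {n : WithTop ℕ∞} : {m : ℕ} → (P : Plan X m) → (x : Fin m → X) → ContDiff ℝ n fun v : X → ℝ => wt P v x
  | _, Plan.nil, _ => contDiff_const
  | _, Plan.cons P A h, x => by
    have h1 := wt_contDiff (n := n) P (Fin.tail x)
    refine h1.mul ?_
    show ContDiff ℝ n fun v : X → ℝ => ker v (A (Fin.tail x)) (x 0)
    unfold ker
    by_cases hs : x 0 ∈ A (Fin.tail x)
    · simp only [hs, if_true]
      refine ContDiff.div (Real.contDiff_exp.comp (contDiff_apply ℝ ℝ (x 0))) ?_ fun v => (zs_pos v (h _)).ne'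
      unfold zs
      exact ContDiff.sum fun s _ => Real.contDiff_exp.comp (contDiff_apply ℝ ℝ s)
    · simp only [hs, if_false]
      exact contDiff_const

theorem ev_contDiff {m : ℕ} (P : Plan X m) (Ψ : (Fin m → X) → ℝ) : ContDiff ℝ 2 fun v : X → ℝ => ev P v Ψ := by
  unfold ev
  exact ContDiff.sum fun x _ => (wt_contDiff P x).mul contDiff_const

theorem fderiv_ev {m : ℕ} (P : Plan X m) (Ψ : (Fin m → X) → ℝ) (w A : X → ℝ) :
    fderiv ℝ (fun v : X → ℝ => ev P v Ψ) w A = ins P w A Ψ := by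
  have h2 : HasDerivAt (fun u : ℝ => ev P (w + u • A) Ψ) (fderiv ℝ (fun v : X → ℝ => ev P v Ψ) w A) 0 := by
    have h3 : HasFDerivAt (fun v : X → ℝ => ev P v Ψ) (fderiv ℝ (fun v : X → ℝ => ev P v Ψ) w) (w + (0 : ℝ) • A) := by
      rw [zero_smul, add_zero]
      exact (((ev_contDiff P Ψ).differentiable (by norm_num)) w).hasFDerivAt
    exact h3.comp_hasDerivAt 0 (gline w A 0)
  have h4 : HasDerivAt (fun u : ℝ => ev P (w + u • A) Ψ) (ins P w A Ψ) 0 := by
    have h5 := hasDerivAt_ev (gline w A 0) P Ψ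
    simpa using h5
  exact h2.unique h4

theorem ins2_eq_fderiv {m : ℕ} (P : Plan X m) (Ψ : (Fin m → X) → ℝ) (w A B : X → ℝ) :
    ins2 P w A B Ψ = fderiv ℝ (fderiv ℝ fun v : X → ℝ => ev P v Ψ) w A B := by
  have hs : ContDiff ℝ 2 fun v : X → ℝ => ev P v Ψ := ev_contDiff P Ψ
  have hd : DifferentiableAt ℝ (fderiv ℝ fun v : X → ℝ => ev P v Ψ) w :=
    ((hs.fderiv_right (m := 1) (by norm_num)).differentiable (by norm_num)) w
  have e1 : ins2 P w A B Ψ = fderiv ℝ (fun v : X → ℝ => ∑ i, ev (P.sh i) v (dn B i Ψ)) w A := by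
    unfold ins2
    have e2 : fderiv ℝ (fun v : X → ℝ => ∑ i, ev (P.sh i) v (dn B i Ψ)) w =
        ∑ i, fderiv ℝ (fun v : X → ℝ => ev (P.sh i) v (dn B i Ψ)) w :=
      fderiv_fun_sum fun i _ => ((ev_contDiff (P.sh i) (dn B i Ψ)).differentiable (by norm_num)) w
    rw [e2, _root_.sum_apply]
    exact Finset.sum_congr rfl fun i _ => (fderiv_ev (P.sh i) (dn B i Ψ) w A).symm
  have e3 : (fun v : X → ℝ => ∑ i, ev (P.sh i) v (dn B i Ψ)) = fun v => fderiv ℝ (fun v : X → ℝ => ev P v Ψ) v B :=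
    funext fun v => (fderiv_ev P Ψ v B).symm
  rw [e1, e3, fderiv_clm_apply hd (differentiableAt_const B)]
  simp

/-- The two insertions commute. -/
theorem ins2_swap {m : ℕ} (P : Plan X m) (w A B : X → ℝ) (Ψ : (Fin m → X) → ℝ) :
    ins2 P w A B Ψ = ins2 P w B A Ψ := by
  have hs : ContDiff ℝ 2 fun v : X → ℝ => ev P v Ψ := ev_contDiff P Ψ
  rw [ins2_eq_fderiv, ins2_eq_fderiv]
  have h2 : minSmoothness ℝ 2 ≤ (2 : WithTop ℕ∞) := by
    rw [minSmoothness_of_isRCLikeNormedField]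
  exact (hs.contDiffAt.isSymmSndFDerivAt h2) A B

theorem ins2_add_left {m : ℕ} (P : Plan X m) (w A A' B : X → ℝ) (Ψ : (Fin m → X) → ℝ) :
    ins2 P w (A + A') B Ψ = ins2 P w A B Ψ + ins2 P w A' B Ψ := by
  unfold ins2
  rw [← Finset.sum_add_distrib]
  exact Finset.sum_congr rfl fun i _ => ins_addB _ _ _ _ _

theorem ins2_add_right {m : ℕ} (P : Plan X m) (w A B B' : X → ℝ) (Ψ : (Fin m → X) → ℝ) :
    ins2 P w A (B + B') Ψ = ins2 P w A B Ψ + ins2 P w A B' Ψ := by
  rw [ins2_swap, ins2_add_left, ins2_swap P w B A, ins2_swap P w B' A]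

theorem abs_ins2_le_of {m : ℕ} (P : Plan X m) (w : X → ℝ) {A B : X → ℝ} {a b D : ℝ} (hA : ∀ s, |A s| ≤ a)
    (hB : ∀ s, |B s| ≤ b) {Ψ : (Fin m → X) → ℝ} (hΨ : ∀ x, |Ψ x| ≤ D) :
    |ins2 P w A B Ψ| ≤ m * ((m + 1) * ((D * (2 * b)) * (2 * a))) := by
  unfold ins2
  refine (Finset.abs_sum_le_sum_abs _ _).trans ((Finset.sum_le_sum fun i _ =>
    abs_ins_le_of (P.sh i) w hA (abs_dn_le hB i hΨ)).trans_eq ?_)
  rw [Finset.sum_const, Finset.card_univ, Fintype.card_fin, nsmul_eq_mul]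
  push_cast
  ring

/-- The derivative of an insertion, the inserted function fixed. -/
theorem hasDerivAt_ins {w : ℝ → X → ℝ} {A : X → ℝ} {t : ℝ} (h : HasDerivAt w A t) {m : ℕ} (P : Plan X m) (B : X → ℝ)
    (Ψ : (Fin m → X) → ℝ) : HasDerivAt (fun t => ins P (w t) B Ψ) (ins2 P (w t) A B Ψ) t := by
  unfold ins ins2
  exact HasDerivAt.fun_sum fun i _ => hasDerivAt_ev h (P.sh i) (dn B i Ψ)

end

end Pool.W7d29a1.C0.I52
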