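import Pool.Agent.W_7d29a1_C0.Two57
import Pool.Agent.W_7d29a1_C0.Ins52

/-!
MP_7d29a1_pr, [CURV0] (helper57), on `Two57`: THE MICRO CUT (the signed remainder of the slab step).

`Ifb w p ρ i`: the (signed) weights `ρ` of the tuples of replicas see the replica `i` inside of the fibres of `p` only through its
weight `exp w`. Then the replica `i` can be resampled (`Ifb.resample`). `mic_eq`: for `p = pJ c d`, a functional `g` of the rows
`[al, be]` in `[c, d]` and any coarser `p'` (for instance `pJ 0 m`, the path behind a row `m` of the slab) the sum of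
`ρ x (g (x i) - cE w p' g (x i))` is the sum of `ρ x (g (x i) - g v)` over a new replica `v` given `p' (x i)`, RESTRICTED to the event
that `x i` and `v` have no common position on one of the two sides `[c, al]`, `[be, d]`. Closure lemmas for the plans of `Ins52`.
-/

set_option autoImplicit false
set_option linter.unusedSectionVars false

namespace Pool.Agent.W_7d29a1_C0.Swap57

open Finset MeasureTheory Pool.Agent.W_7d29a1_F Pool.Agent.W_7d29a1_X Pool.Agent.W_7d29a1_C0.Mod92
open Pool.W7d29a1.C0 (gz gm lse gz_pos gz_ne gm_nonneg gm_mono)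
open Pool.W7d29a1.C0.VT31
open Pool.W7d29a1.C0.I52 (Plan wt ker zs av ev dn ins)

noncomputable section

/-! ### Resampling of one replica inside of its fibre -/

section Abs

variable {X : Type*} [Fintype X] [Nonempty X] {ι : Type*} [DecidableEq ι] {Y Y' : Type*} [DecidableEq Y] [DecidableEq Y']

/-- The weights `ρ` of the tuples see the replica `i` inside of the fibres of `p` only through `exp w`. -/
def Ifb (w : X → ℝ) (p : X → Y) (ρ : (ι → X) → ℝ) (i : ι) : Prop :=
  ∀ x S, p S = p (x i) → ρ (Function.update x i S) * Real.exp (w (x i)) = ρ x * Real.exp (w S)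

/-- An observable which sees the replica `i` only through `p`. -/
def Obl (p : X → Y) (Ψ : (ι → X) → ℝ) (i : ι) : Prop := ∀ x S, p S = p (x i) → Ψ (Function.update x i S) = Ψ x

theorem Ifb.mul {w : X → ℝ} {p : X → Y} {ρ Ψ : (ι → X) → ℝ} {i : ι} (h : Ifb w p ρ i) (h' : Obl p Ψ i) :
    Ifb w p (fun x => ρ x * Ψ x) i := fun x S hS => by
  show ρ (Function.update x i S) * Ψ (Function.update x i S) * _ = ρ x * Ψ x * _
  rw [h' x S hS]
  linear_combination Ψ x * h x S hS

theorem Ifb.mul_left {w : X → ℝ} {p : X → Y} {ρ Ψ : (ι → X) → ℝ} {i : ι} (h : Ifb w p ρ i) (h' : Obl p Ψ i) :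
    Ifb w p (fun x => Ψ x * ρ x) i := fun x S hS => by
  show Ψ (Function.update x i S) * ρ (Function.update x i S) * _ = Ψ x * ρ x * _
  rw [h' x S hS]
  linear_combination Ψ x * h x S hS

theorem Ifb.abs {w : X → ℝ} {p : X → Y} {ρ : (ι → X) → ℝ} {i : ι} (h : Ifb w p ρ i) : Ifb w p (fun x => |ρ x|) i :=
  fun x S hS => by
    have e : |ρ (Function.update x i S) * Real.exp (w (x i))| = |ρ x * Real.exp (w S)| := by rw [h x S hS]
    rwa [abs_mul, abs_mul, abs_of_pos (Real.exp_pos _), abs_of_pos (Real.exp_pos _)] at e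

theorem Ifb.of_crs {w : X → ℝ} {p : X → Y} {q : X → Y'} (hc : Crs p q) {ρ : (ι → X) → ℝ} {i : ι} (h : Ifb w p ρ i) :
    Ifb w q ρ i := fun x S hS => h x S (hc _ _ hS)

theorem Ifb.sum {J : Type*} {w : X → ℝ} {p : X → Y} (s : Finset J) {ρ : J → (ι → X) → ℝ} {i : ι}
    (h : ∀ j ∈ s, Ifb w p (ρ j) i) : Ifb w p (fun x => ∑ j ∈ s, ρ j x) i := fun x S hS => by
  show (∑ j ∈ s, ρ j (Function.update x i S)) * _ = (∑ j ∈ s, ρ j x) * _
  rw [sum_mul, sum_mul]
  exact sum_congr rfl fun j hj => h j hj x S hS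

variable [Fintype ι]

/-- **The replica `i` is resampled inside of its fibre.** -/
theorem Ifb.resample {w : X → ℝ} {p : X → Y} {ρ : (ι → X) → ℝ} {i : ι} (h : Ifb w p ρ i) (f : X → ℝ) :
    ∑ x, ρ x * cE w p f (x i) = ∑ x, ρ x * f (x i) := by
  classical
  have e1 : ∀ x : ι → X, ρ x * cE w p f (x i) =
      ∑ S, (if p S = p (x i) then ρ (Function.update x i S) * Real.exp (w (x i)) * f S / fz w p (x i) else 0) := by
    intro x
    unfold cE
    rw [← mul_div_assoc, mul_sum, sum_div]
    refine sum_congr rfl fun S _ => ?_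
    split_ifs with hS
    · rw [h x S hS]
      ring
    · rw [mul_zero, zero_div]
  have e2 : ∀ x : ι → X, ρ x * f (x i) =
      ∑ S, (if p S = p (x i) then ρ x * Real.exp (w S) * f (x i) / fz w p (x i) else 0) := by
    intro x
    have h0 : ∑ S, (if p S = p (x i) then ρ x * Real.exp (w S) * f (x i) / fz w p (x i) else 0) =
        ρ x * f (x i) / fz w p (x i) * ∑ S, (if p S = p (x i) then Real.exp (w S) else 0) := by
      rw [mul_sum]
      refine sum_congr rfl fun S _ => ?_
      split_ifs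
      · ring
      · rw [mul_zero]
    rw [h0]
    show _ = ρ x * f (x i) / fz w p (x i) * fz w p (x i)
    rw [div_mul_cancel₀ _ (fz_pos w p (x i)).ne']
  rw [sum_congr rfl fun x _ => e1 x, sum_congr rfl fun x _ => e2 x, ← sum_product', ← sum_product']
  refine sum_nbij' (fun q => (Function.update q.1 i q.2, q.1 i)) (fun q => (Function.update q.1 i q.2, q.1 i)) ?_ ?_ ?_ ?_ ?_
  · intro q _
    exact mem_product.2 ⟨mem_univ _, mem_univ _⟩
  · intro q _
    exact mem_product.2 ⟨mem_univ _, mem_univ _⟩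
  · rintro ⟨x, S⟩ _
    simp
  · rintro ⟨x, S⟩ _
    simp
  · rintro ⟨x, S⟩ _
    show (if p S = p (x i) then ρ (Function.update x i S) * Real.exp (w (x i)) * f S / fz w p (x i) else 0) =
      if p (x i) = p (Function.update x i S i) then
        ρ (Function.update x i S) * Real.exp (w (x i)) * f (Function.update x i S i) / fz w p (Function.update x i S i) else 0
    rw [Function.update_self]
    by_cases hS : p S = p (x i)
    · rw [if_pos hS, if_pos hS.symm, fz_meas w p S (x i) hS]
    · rw [if_neg hS, if_neg fun h' => hS h'.symm]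

/-- Two functions with the same conditional means are not distinguished. -/
theorem Ifb.congr {w : X → ℝ} {p : X → Y} {ρ : (ι → X) → ℝ} {i : ι} (h : Ifb w p ρ i) {f f' : X → ℝ}
    (hf : cE w p f = cE w p f') : ∑ x, ρ x * f (x i) = ∑ x, ρ x * f' (x i) := by
  rw [← h.resample f, ← h.resample f', hf]

theorem cE_congr_fib {w : X → ℝ} {p : X → Y} {f f' : X → ℝ} {S : X} (h : ∀ z, p z = p S → f z = f' z) :
    cE w p f S = cE w p f' S := by
  unfold cE
  congr 1
  refine sum_congr rfl fun z _ => ?_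
  split_ifs with hz
  · rw [h z hz]
  · rfl

end Abs

/-! ### The micro cut -/

variable {μ : Measure ℝ} {s : ℝ} {N : ℕ} {Q : Finset (Finset ℕ)} [SwQ Q] [Nonempty (Px Q)] {c al be d : ℕ} {w : Px Q → ℝ}
  {Y' : Type*} [DecidableEq Y']

/-- A replica `z` given the outside of the block `[c, d)` of `S0` and a replica `v` given the coarser `p' S0`. -/
theorem mic_zero (hab : al ≤ be) (hw : Wk c al be d w) {g : Px Q → ℝ} (hg : Lk al be g) {p' : Px Q → Y'}
    (hc : Crs p' (pJ c d)) (S0 : Px Q) :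
    cE w (pJ c d) (fun z => cE w p' (fun v => (1 - NM c al be d z v) * (g z - g v)) S0) S0 = 0 := by
  classical
  have h := swap_zero hab hw hg
    (fun S S' => if pJ c d S = pJ c d S0 then (if p' S' = p' S0 then (1 : ℝ) else 0) else 0)
    (fun S S' hm => by
      show (if pJ c d (sw c d S S') = pJ c d S0 then (if p' (sw c d S' S) = p' S0 then (1 : ℝ) else 0) else 0) = _
      rw [pJ_sw hab hm, hc _ _ (pJ_sw hab (show Mt c al be d S' S by rw [Mt_symm]; exact hm))])
  have e1 : cE w (pJ c d) (fun z => cE w p' (fun v => (1 - NM c al be d z v) * (g z - g v)) S0) S0 =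
      (∑ S, ∑ S', (if Mt c al be d S S' then Real.exp (w S) * Real.exp (w S') *
        (if pJ c d S = pJ c d S0 then (if p' S' = p' S0 then (1 : ℝ) else 0) else 0) * (g S - g S') else 0)) /
        (fz w (pJ c d) S0 * fz w p' S0) := by
    unfold cE
    rw [eq_comm, mul_comm (fz w (pJ c d) S0), ← div_div, sum_div]
    congr 1
    refine sum_congr rfl fun S _ => ?_
    split_ifs with h1
    · rw [← mul_div_assoc, mul_sum]
      congr 1
      refine sum_congr rfl fun S' _ => ?_
      beta_reduce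
      by_cases hm : Mt c al be d S S'
      · rw [NM_of hm, if_pos hm]
        split_ifs <;> ring
      · rw [NM_of_not hm, if_neg hm]
        split_ifs <;> ring
    · rw [div_eq_zero_iff]
      left
      refine sum_eq_zero fun S' _ => ?_
      split_ifs <;> ring
  rw [e1, h, zero_div]

/-- The conditional mean of the remainder. -/
theorem mic_fib (hab : al ≤ be) (hw : Wk c al be d w) {g : Px Q → ℝ} (hg : Lk al be g) {p' : Px Q → Y'}
    (hc : Crs p' (pJ c d)) :
    cE w (pJ c d) (fun S => g S - cE w p' g S) =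
      cE w (pJ c d) (fun S => cE w p' (fun v => NM c al be d S v * (g S - g v)) S) := by
  funext S0
  have hsub : ∀ z, cE w p' (fun v => g z - g v) S0 = g z - cE w p' g S0 := fun z => by
    have e : (fun v => g z - g v) = (fun _ : Px Q => g z) - g := by
      funext v
      rfl
    rw [e, cE_sub, Pi.sub_apply, congrFun (cE_of_meas w (show Mp p' (fun _ : Px Q => g z) from fun _ _ _ => rfl)) S0]
  have e1 : cE w (pJ c d) (fun S => g S - cE w p' g S) S0 =
      cE w (pJ c d) (fun z => cE w p' (fun v => g z - g v) S0) S0 :=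
    cE_congr_fib fun z hz => by rw [hsub z, cE_meas w p' g z S0 (hc _ _ hz)]
  have e2 : cE w (pJ c d) (fun S => cE w p' (fun v => NM c al be d S v * (g S - g v)) S) S0 =
      cE w (pJ c d) (fun z => cE w p' (fun v => NM c al be d z v * (g z - g v)) S0) S0 :=
    cE_congr_fib fun z hz => cE_meas w p' _ z S0 (hc _ _ hz)
  rw [e1, e2]
  have e3 : (fun z => cE w p' (fun v => g z - g v) S0) =
      (fun z => cE w p' (fun v => NM c al be d z v * (g z - g v)) S0) +
        fun z => cE w p' (fun v => (1 - NM c al be d z v) * (g z - g v)) S0 := by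
    funext z
    rw [Pi.add_apply, ← Pi.add_apply (f := cE w p' fun v => NM c al be d z v * (g z - g v)), ← cE_add]
    congr 1
    funext v
    rw [Pi.add_apply]
    ring
  rw [e3, cE_add, Pi.add_apply, mic_zero hab hw hg hc S0, add_zero]

variable {ι : Type*} [DecidableEq ι] [Fintype ι]

/-- **The micro cut.** -/
theorem mic_eq (hab : al ≤ be) (hw : Wk c al be d w) {g : Px Q → ℝ} (hg : Lk al be g) {p' : Px Q → Y'}
    (hc : Crs p' (pJ c d)) {ρ : (ι → Px Q) → ℝ} {i : ι} (hρ : Ifb w (pJ c d) ρ i) :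
    ∑ x, ρ x * (g (x i) - cE w p' g (x i)) =
      ∑ x, ρ x * cE w p' (fun v => NM c al be d (x i) v * (g (x i) - g v)) (x i) :=
  hρ.congr (f := fun S => g S - cE w p' g S) (f' := fun S => cE w p' (fun v => NM c al be d S v * (g S - g v)) S)
    (mic_fib hab hw hg hc)

/-- The bound: one new replica given `p'`, apart from the replica `i` on one side of the window. -/
theorem abs_mic_le (hab : al ≤ be) (hw : Wk c al be d w) {g : Px Q → ℝ} (hg : Lk al be g) {L : ℝ}
    (hL : ∀ S S', |g S - g S'| ≤ L) {p' : Px Q → Y'} (hc : Crs p' (pJ c d)) {ρ : (ι → Px Q) → ℝ} {i : ι}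
    (hρ : Ifb w (pJ c d) ρ i) :
    |∑ x, ρ x * (g (x i) - cE w p' g (x i))| ≤ L * ∑ x, |ρ x| * cE w p' (NM c al be d (x i)) (x i) := by
  rw [mic_eq hab hw hg hc hρ, mul_sum]
  refine (abs_sum_le_sum_abs _ _).trans (sum_le_sum fun x _ => ?_)
  rw [abs_mul]
  have h1 : ∀ S : Px Q, |cE w p' (fun v => NM c al be d S v * (g S - g v)) S| ≤ L * cE w p' (NM c al be d S) S := fun S => by
    have e1 : L * cE w p' (NM c al be d S) S = cE w p' (L • NM c al be d S) S := by
      rw [cE_smul, Pi.smul_apply, smul_eq_mul]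
    rw [e1, abs_le]
    constructor
    · rw [neg_le, ← Pi.neg_apply, ← cE_neg]
      refine cE_mono w p' (fun v => ?_) S
      rw [Pi.neg_apply, Pi.smul_apply, smul_eq_mul]
      have h0 := NM_nonneg c al be d S v
      have h1 := (abs_le.1 (hL S v)).1
      nlinarith
    · refine cE_mono w p' (fun v => ?_) S
      rw [Pi.smul_apply, smul_eq_mul]
      have h0 := NM_nonneg c al be d S v
      have h1 := (abs_le.1 (hL S v)).2
      nlinarith
  calc |ρ x| * |cE w p' (fun v => NM c al be d (x i) v * (g (x i) - g v)) (x i)|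
      ≤ |ρ x| * (L * cE w p' (NM c al be d (x i)) (x i)) := mul_le_mul_of_nonneg_left (h1 (x i)) (abs_nonneg _)
    _ = L * (|ρ x| * cE w p' (NM c al be d (x i)) (x i)) := by ring

/-- The slab average of the conditional means, given the path behind the rows `m`. -/
def slabC (w g : Px Q → ℝ) (J : Finset ℕ) : Px Q → ℝ := fun S => (J.card : ℝ)⁻¹ * ∑ m ∈ J, cE w (pJ 0 m) g S

/-- **The micro cut for the slab average**; all rows of the slab are behind the block. -/
theorem abs_mic_slab_le (hab : al ≤ be) (hw : Wk c al be d w) {g : Px Q → ℝ} (hg : Lk al be g) {L : ℝ}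
    (hL : ∀ S S', |g S - g S'| ≤ L) {J : Finset ℕ} (hJ : J.Nonempty) (hJd : ∀ m ∈ J, d ≤ m) {ρ : (ι → Px Q) → ℝ} {i : ι}
    (hρ : Ifb w (pJ c d) ρ i) :
    |∑ x, ρ x * (g (x i) - slabC w g J (x i))| ≤
      L * ((J.card : ℝ)⁻¹ * ∑ m ∈ J, ∑ x, |ρ x| * cE w (pJ 0 m) (NM c al be d (x i)) (x i)) := by
  have hJ0 : (0 : ℝ) < J.card := Nat.cast_pos.2 (card_pos.2 hJ)
  have e1 : ∑ x, ρ x * (g (x i) - slabC w g J (x i)) =
      (J.card : ℝ)⁻¹ * ∑ m ∈ J, ∑ x, ρ x * (g (x i) - cE w (pJ 0 m) g (x i)) := by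
    rw [sum_comm, mul_sum]
    refine sum_congr rfl fun x _ => ?_
    unfold slabC
    rw [← mul_sum, sum_sub_distrib, sum_const, nsmul_eq_mul]
    field_simp
  rw [e1, abs_mul, abs_of_pos (inv_pos.2 hJ0)]
  have e2 : L * ((J.card : ℝ)⁻¹ * ∑ m ∈ J, ∑ x, |ρ x| * cE w (pJ 0 m) (NM c al be d (x i)) (x i)) =
      (J.card : ℝ)⁻¹ * ∑ m ∈ J, L * ∑ x, |ρ x| * cE w (pJ 0 m) (NM c al be d (x i)) (x i) := by
    rw [← mul_sum]
    ring
  rw [e2]
  refine mul_le_mul_of_nonneg_left ?_ (inv_pos.2 hJ0).le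
  refine (abs_sum_le_sum_abs _ _).trans (sum_le_sum fun m hm => ?_)
  exact abs_mic_le hab hw hg hL (crs_pJ (Nat.zero_le c) (hJd m hm)) hρ

/-! ### Plans -/

section Plans

variable {X : Type*} [Fintype X] [DecidableEq X] [Nonempty X] {Y Y' : Type*} [DecidableEq Y] [DecidableEq Y']

theorem tail_update_zero {m : ℕ} (x : Fin (m + 1) → X) (S : X) : Fin.tail (Function.update x 0 S) = Fin.tail x := by
  funext k
  unfold Fin.tail
  rw [Function.update_of_ne (Fin.succ_ne_zero k)]

theorem tail_update_succ {m : ℕ} (x : Fin (m + 1) → X) (i : Fin m) (S : X) :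
    Fin.tail (Function.update x i.succ S) = Function.update (Fin.tail x) i S := by
  funext k
  unfold Fin.tail
  by_cases h : k = i
  · subst h
    rw [Function.update_self, Function.update_self]
  · rw [Function.update_of_ne (fun h' => h (Fin.succ_injective _ h')), Function.update_of_ne h]

/-- The last replica of a plan, drawn from a union of fibres. -/
theorem ifb_cons_zero {w : X → ℝ} {p : X → Y} {m : ℕ} (P : Plan X m) (A : (Fin m → X) → Finset X) (h : ∀ x, (A x).Nonempty)
    (hA : ∀ y S S', p S = p S' → (S ∈ A y ↔ S' ∈ A y)) : Ifb w p (wt (Plan.cons P A h) w) 0 := fun x S hS => by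
  rw [Pool.W7d29a1.C0.I52.wt_cons, Pool.W7d29a1.C0.I52.wt_cons, tail_update_zero, Function.update_self]
  unfold ker
  by_cases h1 : S ∈ A (Fin.tail x)
  · rw [if_pos h1, if_pos ((hA _ _ _ hS).1 h1)]
    ring
  · rw [if_neg h1, if_neg fun h2 => h1 ((hA _ _ _ hS).2 h2)]
    ring

/-- An older replica, seen by the set of the last replica only through `p`. -/
theorem ifb_cons_succ {w : X → ℝ} {p : X → Y} {m : ℕ} {P : Plan X m} (A : (Fin m → X) → Finset X) (h : ∀ x, (A x).Nonempty)
    {i : Fin m} (hP : Ifb w p (wt P w) i) (hA : ∀ y S, p S = p (y i) → A (Function.update y i S) = A y) :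
    Ifb w p (wt (Plan.cons P A h) w) i.succ := fun x S hS => by
  rw [Pool.W7d29a1.C0.I52.wt_cons, Pool.W7d29a1.C0.I52.wt_cons, tail_update_succ, hA _ _ hS,
    Function.update_of_ne (Ne.symm (Fin.succ_ne_zero i))]
  have e := hP (Fin.tail x) S hS
  have e2 : x i.succ = Fin.tail x i := rfl
  rw [e2]
  linear_combination ker w (A (Fin.tail x)) (x 0) * e

/-- A free replica. -/
theorem ifb_fr_zero {w : X → ℝ} {p : X → Y} {m : ℕ} (P : Plan X m) : Ifb w p (wt P.fr w) 0 :=
  ifb_cons_zero P _ _ fun _ _ _ _ => ⟨fun _ => mem_univ _, fun _ => mem_univ _⟩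

theorem ifb_fr_succ {w : X → ℝ} {p : X → Y} {m : ℕ} {P : Plan X m} {i : Fin m} (hP : Ifb w p (wt P w) i) :
    Ifb w p (wt P.fr w) i.succ := ifb_cons_succ _ _ hP fun _ _ _ => rfl

/-- A replica given what the coarser `q` sees of the replica `k`. -/
theorem ifb_gi_zero {w : X → ℝ} {p : X → Y} {q : X → Y'} (hc : Crs q p) {m : ℕ} (P : Plan X m) (k : Fin m) :
    Ifb w p (wt (P.gi q k) w) 0 := ifb_cons_zero P _ _ fun y S S' hS => by
  rw [mem_filter, mem_filter, hc _ _ hS]
  exact ⟨fun h => ⟨mem_univ _, h.2⟩, fun h => ⟨mem_univ _, h.2⟩⟩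

theorem ifb_gi_succ {w : X → ℝ} {p : X → Y} {q : X → Y'} (hc : Crs q p) {m : ℕ} {P : Plan X m} (k : Fin m) {i : Fin m}
    (hP : Ifb w p (wt P w) i) : Ifb w p (wt (P.gi q k) w) i.succ := ifb_cons_succ _ _ hP fun y S hS => by
  by_cases hk : k = i
  · subst hk
    rw [Function.update_self, hc _ _ hS]
  · rw [Function.update_of_ne hk]

/-- The set of the replica `k` is not changed, and saturated: the shadow of the replica `k`. -/
theorem ifb_sh_zero {w : X → ℝ} {p : X → Y} {m : ℕ} (P : Plan X m) (k : Fin m)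
    (hA : ∀ y S S', p S = p S' → (S ∈ P.S k y ↔ S' ∈ P.S k y)) : Ifb w p (wt (P.sh k) w) 0 := ifb_cons_zero P _ _ hA

theorem ifb_sh_succ {w : X → ℝ} {p : X → Y} {m : ℕ} {P : Plan X m} (k : Fin m) {i : Fin m} (hP : Ifb w p (wt P w) i)
    (hA : ∀ y S, p S = p (y i) → P.S k (Function.update y i S) = P.S k y) : Ifb w p (wt (P.sh k) w) i.succ :=
  ifb_cons_succ _ _ hP hA

/-- The new replica of the micro cut as a replica of the plan. -/
theorem ev_gi {w : X → ℝ} {q : X → Y'} {m : ℕ} (P : Plan X m) (i : Fin m) (K : (Fin m → X) → X → ℝ) :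
    ev (P.gi q i) w (fun x => K (Fin.tail x) (x 0)) = ∑ x, wt P w x * cE w q (K x) (x i) := by
  unfold Plan.gi
  rw [Pool.W7d29a1.C0.I52.ev_cons]
  unfold ev
  refine sum_congr rfl fun x _ => ?_
  rw [Pool.W7d29a1.C0.I52.cE_eq_av]
  rfl

end Plans

/-- **The micro cut in a plan**: `Ψ` and the plan see the replica `i` in the block only through its weight. -/
theorem mic_plan [DecidableEq (Px Q)] (hab : al ≤ be) (hw : Wk c al be d w) {g : Px Q → ℝ} (hg : Lk al be g) {p' : Px Q → Y'}
    (hc : Crs p' (pJ c d)) {m : ℕ} {P : Plan (Px Q) m} {i : Fin m} (hP : Ifb w (pJ c d) (wt P w) i) {Ψ : (Fin m → Px Q) → ℝ}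
    (hΨ : Obl (pJ c d) Ψ i) :
    ev P w (fun x => Ψ x * (g (x i) - cE w p' g (x i))) =
      ev (P.gi p' i) w (fun x => Ψ (Fin.tail x) * (NM c al be d (x i.succ) (x 0) * (g (x i.succ) - g (x 0)))) := by
  have h1 := mic_eq hab hw hg hc (hP.mul hΨ)
  have h2 := ev_gi (w := w) (q := p') P i (fun x v => Ψ x * (NM c al be d (x i) v * (g (x i) - g v)))
  have h3 : (fun x : Fin (m + 1) → Px Q =>
      Ψ (Fin.tail x) * (NM c al be d (x i.succ) (x 0) * (g (x i.succ) - g (x 0)))) = fun x =>
      (fun (x : Fin m → Px Q) (v : Px Q) => Ψ x * (NM c al be d (x i) v * (g (x i) - g v))) (Fin.tail x) (x 0) := rfl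
  rw [h3, h2]
  have h4 : ∀ x : Fin m → Px Q, wt P w x * cE w p' (fun v => Ψ x * (NM c al be d (x i) v * (g (x i) - g v))) (x i) =
      wt P w x * Ψ x * cE w p' (fun v => NM c al be d (x i) v * (g (x i) - g v)) (x i) := fun x => by
    have e : (fun v => Ψ x * (NM c al be d (x i) v * (g (x i) - g v))) =
        Ψ x • fun v => NM c al be d (x i) v * (g (x i) - g v) := by
      funext v
      rw [Pi.smul_apply, smul_eq_mul]
    rw [e, cE_smul, Pi.smul_apply, smul_eq_mul]
    ring
  rw [sum_congr rfl fun x _ => h4 x, ← h1]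
  unfold ev
  exact sum_congr rfl fun x _ => by ring

end

end Pool.Agent.W_7d29a1_C0.Swap57
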