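import Pool.Agent.W_7d29a1_C0.Mart82

/-!
CURV0 (MP_7d29a1_pr), leaf (T), THE ONE SIDED TELESCOPE (helper72, board 72944 ff), exact and pathwise. `q` = everything behind a row
`z` (or the outside of the block `B`), `q'` = everything behind a later row `z'`, `F = cE_q g`, `Φ = Cov_G(cC_q'(cE_q γ, cE_q g), f)`, `f` a
function of what is behind `z'`. `tel72`: the covariance of `cC_(z_k)(cE_B γ, cE_B g)` with `f` is the sum of the `Φ (z_(i+1), z_i)`.
`dT72` = the derivative of `Φ` in any direction `A`; in the direction `g - C`, `C` = the field of a slab in front of `z`, it is EXACTLY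
`Cov_G(cC_q'(V_mic, F), f)` twice (`dT72_slab`); for `q` = outside of `B` and a slab inside of `B` see `dT72_block`. (helper72)
-/

set_option autoImplicit false
set_option linter.unusedSectionVars false
set_option linter.unusedVariables false

namespace Pool.W7d29a1.C0.T72

open Finset Filter Topology
open Pool.Agent.W_7d29a1_C0 Pool.W7d29a1.C0.VT31 Pool.W7d29a1.C0

noncomputable section

variable {X : Type*} [Fintype X] [Nonempty X] {Y Y' Y'' : Type*} [DecidableEq Y] [DecidableEq Y'] [DecidableEq Y'']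
variable {κ : Type*}

/-! ### The third conditional cumulant with one direction -/

/-- The derivative of the conditional covariance of two fixed functions in the direction `A`. -/
def c3 (w : X → ℝ) (p : X → Y) (A F G : X → ℝ) : X → ℝ :=
  cC w p A (F * G) - cC w p A F * cE w p G - cE w p F * cC w p A G

/-- The derivative of the covariance of two fixed functions in the direction `A`. -/
def g3 (w A F G : X → ℝ) : ℝ := gc w A (F * G) - gc w A F * gm w G - gm w F * gc w A G

theorem c3_meas (w : X → ℝ) (p : X → Y) (A F G : X → ℝ) : Mp p (c3 w p A F G) :=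
  ((cC_meas w p _ _).sub ((cC_meas w p _ _).mul (cE_meas w p _))).sub ((cE_meas w p _).mul (cC_meas w p _ _))

theorem c3_add (w : X → ℝ) (p : X → Y) (A B F G : X → ℝ) : c3 w p (A + B) F G = c3 w p A F G + c3 w p B F G := by
  unfold c3
  rw [cC_add_left, cC_add_left, cC_add_left]
  ring

theorem c3_smul (w : X → ℝ) (p : X → Y) (c : ℝ) (A F G : X → ℝ) : c3 w p (c • A) F G = c • c3 w p A F G := by
  unfold c3
  rw [cC_smul_left, cC_smul_left, cC_smul_left]
  funext x
  simp only [Pi.sub_apply, Pi.mul_apply, Pi.smul_apply, smul_eq_mul]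
  ring

theorem g3_eq_c3 (w A F G : X → ℝ) (x : X) : c3 w (fun _ : X => ()) A F G x = g3 w A F G := by
  unfold c3 g3
  rw [Pi.sub_apply, Pi.sub_apply, Pi.mul_apply, Pi.mul_apply, gc_eq_cC, gc_eq_cC, gc_eq_cC, gm_eq_cE, gm_eq_cE]

theorem g3_add (w A B F G : X → ℝ) : g3 w (A + B) F G = g3 w A F G + g3 w B F G := by
  obtain ⟨x⟩ := (inferInstance : Nonempty X)
  rw [← g3_eq_c3 w _ F G x, ← g3_eq_c3 w _ F G x, ← g3_eq_c3 w _ F G x, c3_add, Pi.add_apply]

theorem g3_smul (w : X → ℝ) (c : ℝ) (A F G : X → ℝ) : g3 w (c • A) F G = c * g3 w A F G := by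
  obtain ⟨x⟩ := (inferInstance : Nonempty X)
  rw [← g3_eq_c3 w _ F G x, ← g3_eq_c3 w _ F G x, c3_smul, Pi.smul_apply, smul_eq_mul]

/-- A direction may be replaced by its conditional mean when both functions are functions of `p'`. -/
theorem cC_cE_swap {w : X → ℝ} {p : X → Y} {p' : X → Y'} (hc : Crs p p') (A : X → ℝ) {H : X → ℝ} (hH : Mp p' H) :
    cC w p (cE w p' A) H = cC w p A H := by
  have h := total_cov w hc A H
  have h' := total_cov w hc (cE w p' A) H
  rw [cC_symm w p' A H, cC_meas_left w hH, cE_zero, zero_add] at h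
  rw [cC_symm w p' (cE w p' A) H, cC_meas_left w hH, cE_zero, zero_add, cE_of_meas w (cE_meas w p' A)] at h'
  rw [h, h']

theorem c3_cE {w : X → ℝ} {p : X → Y} {p' : X → Y'} (hc : Crs p p') (A : X → ℝ) {F G : X → ℝ} (hF : Mp p' F)
    (hG : Mp p' G) : c3 w p (cE w p' A) F G = c3 w p A F G := by
  unfold c3
  rw [cC_cE_swap hc A (hF.mul hG), cC_cE_swap hc A hF, cC_cE_swap hc A hG]

theorem cC_zero_left (w : X → ℝ) (p : X → Y) (H : X → ℝ) : cC w p 0 H = 0 := by
  have h := cC_smul_left w p 0 0 H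
  rwa [zero_smul, zero_smul] at h

theorem gc_zero_left (w H : X → ℝ) : gc w 0 H = 0 := by
  have h := gc_smul_left w 0 0 H
  rwa [zero_smul, zero_mul] at h

theorem c3_zero (w : X → ℝ) (p : X → Y) (F G : X → ℝ) : c3 w p 0 F G = 0 := by
  unfold c3
  rw [cC_zero_left, cC_zero_left, cC_zero_left]
  ring

/-- A direction with conditional mean zero does not see functions of `p'`. -/
theorem c3_of_cE_zero {w : X → ℝ} {p : X → Y} {p' : X → Y'} (hc : Crs p p') {A : X → ℝ} (hA : cE w p' A = 0)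
    {F G : X → ℝ} (hF : Mp p' F) (hG : Mp p' G) : c3 w p A F G = 0 := by
  rw [← c3_cE hc A hF hG, hA, c3_zero]

theorem g3_of_cE_zero {w : X → ℝ} {p' : X → Y'} {A : X → ℝ} (hA : cE w p' A = 0) {F G : X → ℝ} (hF : Mp p' F)
    (hG : Mp p' G) : g3 w A F G = 0 := by
  obtain ⟨x⟩ := (inferInstance : Nonempty X)
  rw [← g3_eq_c3 w A F G x, c3_of_cE_zero (p := fun _ : X => ()) (fun _ _ _ => rfl) hA hF hG]
  rfl

/-! ### Derivatives along a curve of weights -/

section Der

variable {W : ℝ → X → ℝ} {A : X → ℝ} {t : ℝ}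

theorem hasDerivAt_num72 (hW : HasDerivAt W A t) {F : ℝ → X → ℝ} {F' : X → ℝ} (hF : HasDerivAt F F' t) (p : X → Y) (x : X) :
    HasDerivAt (fun u => ∑ x', if p x' = p x then Real.exp (W u x') * F u x' else 0)
      (∑ x', if p x' = p x then Real.exp (W t x') * ((A * F t + F') x') else 0) t := by
  refine HasDerivAt.fun_sum fun x' _ => ?_
  by_cases h : p x' = p x
  · simp only [if_pos h]
    have h1 := ((hasDerivAt_pi.1 hW) x').exp.mul ((hasDerivAt_pi.1 hF) x')
    refine h1.congr_deriv ?_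
    simp only [Pi.add_apply, Pi.mul_apply]
    ring
  · simp only [if_neg h]
    exact hasDerivAt_const t 0

/-- The conditional mean of a moving function. -/
theorem hasDerivAt_cE72 (hW : HasDerivAt W A t) {F : ℝ → X → ℝ} {F' : X → ℝ} (hF : HasDerivAt F F' t) (p : X → Y) :
    HasDerivAt (fun u => cE (W u) p (F u)) (cC (W t) p A (F t) + cE (W t) p F') t := by
  rw [hasDerivAt_pi]
  intro x
  have h1 := hasDerivAt_num72 hW hF p x
  have h2 := hasDerivAt_num72 hW (hasDerivAt_const t (fun _ : X => (1 : ℝ))) p x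
  have e2 : (fun u => ∑ x', if p x' = p x then Real.exp (W u x') * (fun _ : X => (1 : ℝ)) x' else 0) =
      fun u => fz (W u) p x := by
    funext u
    unfold fz
    exact Finset.sum_congr rfl fun x' _ => by rw [mul_one]
  rw [e2] at h2
  have hz := (fz_pos (W t) p x).ne'
  have h3 := h1.div h2 hz
  refine h3.congr_deriv ?_
  have k1 : ∀ G : X → ℝ, (∑ x', if p x' = p x then Real.exp (W t x') * G x' else 0) = cE (W t) p G x * fz (W t) p x :=
    fun G => by
      unfold cE
      rw [div_mul_cancel₀ _ hz]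
  have e3 : A * (fun _ : X => (1 : ℝ)) + (0 : X → ℝ) = A := by
    funext y
    simp
  rw [k1, k1, k1, e3, Pi.add_apply, cE_add, Pi.add_apply]
  unfold cC
  rw [Pi.sub_apply, Pi.mul_apply]
  field_simp
  ring

/-- The conditional covariance of two moving functions. -/
theorem hasDerivAt_cC72 (hW : HasDerivAt W A t) {F G : ℝ → X → ℝ} {F' G' : X → ℝ} (hF : HasDerivAt F F' t)
    (hG : HasDerivAt G G' t) (p : X → Y) : HasDerivAt (fun u => cC (W u) p (F u) (G u))
      (c3 (W t) p A (F t) (G t) + cC (W t) p F' (G t) + cC (W t) p (F t) G') t := by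
  have h1 := hasDerivAt_cE72 hW (hF.mul hG) p
  have h2 := (hasDerivAt_cE72 hW hF p).mul (hasDerivAt_cE72 hW hG p)
  refine (h1.sub h2).congr_deriv ?_
  have e0 : (F * G) t = F t * G t := rfl
  unfold c3
  rw [cE_add, e0]
  unfold cC
  ring

/-- The covariance of a moving function with a fixed one. -/
theorem hasDerivAt_gc72 (hW : HasDerivAt W A t) {F : ℝ → X → ℝ} {F' : X → ℝ} (hF : HasDerivAt F F' t) (f : X → ℝ) :
    HasDerivAt (fun u => gc (W u) (F u) f) (g3 (W t) A (F t) f + gc (W t) F' f) t := by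
  obtain ⟨x⟩ := (inferInstance : Nonempty X)
  have h := (hasDerivAt_pi.1 (hasDerivAt_cC72 hW hF (hasDerivAt_const t f) (fun _ : X => ()))) x
  have e : (fun u => gc (W u) (F u) f) = fun u => cC (W u) (fun _ : X => ()) (F u) f x := funext fun u => (gc_eq_cC _ _ _ x).symm
  rw [e]
  refine h.congr_deriv ?_
  rw [Pi.add_apply, Pi.add_apply, g3_eq_c3, gc_eq_cC, gc_eq_cC]
  have e0 : gc (W t) (F t) (0 : X → ℝ) = 0 := by
    have := gc_smul_right (W t) 0 (F t) 0
    rwa [smul_zero, zero_mul] at this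
  rw [e0, add_zero]

end Der

/-! ### The functional of (T) -/

/-- `Φ = Cov_G(cC_q'(cE_q γ, cE_q g), f)`. -/
def fT72 (q' : X → Y') (q : X → Y) (γ g f w : X → ℝ) : ℝ := gc w (cC w q' (cE w q γ) (cE w q g)) f

/-- The derivative of `cC_q'(cE_q γ, cE_q g)` in the direction `A`. -/
def dX72 (q' : X → Y') (q : X → Y) (γ g w A : X → ℝ) : X → ℝ :=
  c3 w q' A (cE w q γ) (cE w q g) + cC w q' (cC w q A γ) (cE w q g) + cC w q' (cE w q γ) (cC w q A g)

/-- The derivative of `Φ` in the direction `A`. -/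
def dT72 (q' : X → Y') (q : X → Y) (γ g f w A : X → ℝ) : ℝ :=
  g3 w A (cC w q' (cE w q γ) (cE w q g)) f + gc w (dX72 q' q γ g w A) f

theorem dX72_add (q' : X → Y') (q : X → Y) (γ g w A B : X → ℝ) :
    dX72 q' q γ g w (A + B) = dX72 q' q γ g w A + dX72 q' q γ g w B := by
  unfold dX72
  rw [c3_add, cC_add_left, cC_add_left, cC_add_left, cC_add_right]
  ring

theorem dX72_smul (q' : X → Y') (q : X → Y) (γ g w : X → ℝ) (c : ℝ) (A : X → ℝ) :
    dX72 q' q γ g w (c • A) = c • dX72 q' q γ g w A := by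
  unfold dX72
  rw [c3_smul, cC_smul_left, cC_smul_left, cC_smul_left, cC_smul_right, smul_add, smul_add]

theorem dT72_add (q' : X → Y') (q : X → Y) (γ g f w A B : X → ℝ) :
    dT72 q' q γ g f w (A + B) = dT72 q' q γ g f w A + dT72 q' q γ g f w B := by
  unfold dT72
  rw [g3_add, dX72_add, gc_add_left]
  ring

theorem dT72_smul (q' : X → Y') (q : X → Y) (γ g f w : X → ℝ) (c : ℝ) (A : X → ℝ) :
    dT72 q' q γ g f w (c • A) = c * dT72 q' q γ g f w A := by
  unfold dT72
  rw [g3_smul, dX72_smul, gc_smul_left]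
  ring

theorem dT72_sub (q' : X → Y') (q : X → Y) (γ g f w A B : X → ℝ) :
    dT72 q' q γ g f w (A - B) = dT72 q' q γ g f w A - dT72 q' q γ g f w B := by
  have h := dT72_add q' q γ g f w A ((-1 : ℝ) • B)
  rw [dT72_smul, neg_one_smul, ← sub_eq_add_neg] at h
  rw [h]
  ring

/-- **The derivative rule** along any curve of weights. -/
theorem hasDerivAt_fT72 {W : ℝ → X → ℝ} {A : X → ℝ} {t : ℝ} (hW : HasDerivAt W A t) (q' : X → Y') (q : X → Y)
    (γ g f : X → ℝ) : HasDerivAt (fun u => fT72 q' q γ g f (W u)) (dT72 q' q γ g f (W t) A) t := by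
  have h1 := hasDerivAt_cE72 hW (hasDerivAt_const t γ) q
  have h2 := hasDerivAt_cE72 hW (hasDerivAt_const t g) q
  have h3 := hasDerivAt_cC72 hW h1 h2 q'
  have h4 := hasDerivAt_gc72 hW h3 f
  refine h4.congr_deriv ?_
  unfold dT72 dX72
  rw [cE_zero, add_zero, add_zero]

/-! ### The direction `g - C` -/

section Dir

variable {q' : X → Y'} {q : X → Y} {γ g f w : X → ℝ}

/-- A direction `A` with `cE_q' A = 0`: the first factor is frozen, `A` may be replaced by `cE_q A` in the third cumulant. -/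
theorem dT72_of_zero (hc : Crs q' q) (hf : Mp q' f) {A : X → ℝ} (hA : cE w q' A = 0) : dT72 q' q γ g f w A =
    gc w (c3 w q' (cE w q A) (cE w q γ) (cE w q g) + cC w q' (cC w q A γ) (cE w q g) +
      cC w q' (cE w q γ) (cC w q A g)) f := by
  unfold dT72 dX72
  rw [g3_of_cE_zero hA (cC_meas w q' _ _) hf, zero_add, c3_cE hc A (cE_meas w q γ) (cE_meas w q g)]

/-- A direction `A` with `cE_q A = 0` is seen only through `cC_q(A, ·)`. -/
theorem dT72_of_zero' (hc : Crs q' q) (hf : Mp q' f) {A : X → ℝ} (hA : cE w q A = 0) : dT72 q' q γ g f w A =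
    gc w (cC w q' (cC w q A γ) (cE w q g) + cC w q' (cE w q γ) (cC w q A g)) f := by
  have hA' : cE w q' A = 0 := by rw [← cE_tower w hc, hA, cE_zero]
  rw [dT72_of_zero hc hf hA', hA, c3_zero, zero_add]

variable {J : Finset κ} {θ : κ → ℝ} {pm : κ → X → Y''}

/-- **(T), groups `i ≥ 1`, EXACT**: the slab lies in front of `z` (`q` is coarser than every `pm m`): the derivative in the direction
`g` is the derivative in the direction of the slab field plus the covariance with the micro variances. No other term. -/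
theorem dT72_slab (hc : Crs q' q) (hf : Mp q' f) (hθ : ∑ m ∈ J, θ m = 1) (hJ : ∀ m ∈ J, Crs q (pm m)) :
    dT72 q' q γ g f w g = dT72 q' q γ g f w (avC w J θ pm g) +
      gc w (cC w q' (avV w J θ pm q g γ) (cE w q g) + cC w q' (cE w q γ) (avV w J θ pm q g g)) f := by
  have h := dT72_sub q' q γ g f w g (avC w J θ pm g)
  rw [dT72_of_zero' hc hf (cE_sub_avC hθ hJ g), cC_sub_avC hθ hJ, cC_sub_avC hθ hJ] at h
  linarith

/-- The case `γ = g`: twice one term. -/
theorem dT72_slab_self (hc : Crs q' q) (hf : Mp q' f) (hθ : ∑ m ∈ J, θ m = 1) (hJ : ∀ m ∈ J, Crs q (pm m)) :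
    dT72 q' q g g f w g = dT72 q' q g g f w (avC w J θ pm g) +
      2 * gc w (cC w q' (avV w J θ pm q g g) (cE w q g)) f := by
  rw [dT72_slab hc hf hθ hJ, cC_symm w q' (cE w q g) (avV w J θ pm q g g), gc_add_left]
  ring

/-- **(T), the term of the block, EXACT**: `q` = outside of the block `B`, the slab lies INSIDE of `B` (only `q'` is coarser than the
`pm m`): one more term, the third cumulant with `cE_q g - cE_q C`, and the micro terms are `cC_q(g - C, ·)`. -/
theorem dT72_block (hc : Crs q' q) (hf : Mp q' f) (hθ : ∑ m ∈ J, θ m = 1) (hJ : ∀ m ∈ J, Crs q' (pm m)) :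
    dT72 q' q γ g f w g = dT72 q' q γ g f w (avC w J θ pm g) +
      gc w (c3 w q' (cE w q g - cE w q (avC w J θ pm g)) (cE w q γ) (cE w q g) +
        cC w q' (cC w q (g - avC w J θ pm g) γ) (cE w q g) + cC w q' (cE w q γ) (cC w q (g - avC w J θ pm g) g)) f := by
  have h := dT72_sub q' q γ g f w g (avC w J θ pm g)
  rw [dT72_of_zero hc hf (cE_sub_avC hθ hJ g), cE_sub] at h
  linarith

end Dir

/-! ### The telescope -/

/-- The last map of the chain is the coarsest. -/
theorem crs_chain {q : ℕ → X → Y} {k : ℕ} (hq : ∀ i < k, Crs (q (i + 1)) (q i)) : ∀ i ≤ k, Crs (q k) (q i) := by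
  induction k with
  | zero =>
    intro i hi
    rw [Nat.le_zero.1 hi]
    exact fun _ _ h => h
  | succ k ih =>
    intro i hi
    rcases Nat.lt_or_ge i (k + 1) with h | h
    · exact fun x x' e => hq k (Nat.lt_succ_self k) x x' (ih (fun i hi => hq i (by omega)) i (by omega) x x' e)
    · rw [le_antisymm hi h]
      exact fun _ _ h => h

/-- **THE TELESCOPE**, exact: for a chain `q 0, q 1, .., q (k + 1)` of coarser and coarser maps and a function `f` of `q (k + 1)`. -/
theorem tel72 (γ g f w : X → ℝ) (q : ℕ → X → Y) : ∀ k : ℕ, (∀ i < k, Crs (q (i + 1)) (q i)) → Mp (q k) f →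
    fT72 (q k) (q 0) γ g f w = ∑ i ∈ Finset.range k, fT72 (q (i + 1)) (q i) γ g f w
  | 0, _, _ => by
    unfold fT72
    rw [Finset.range_zero, Finset.sum_empty, cC_meas_left w (cE_meas w (q 0) γ), gc_zero_left]
  | k + 1, hq, hf => by
    have hk : Crs (q (k + 1)) (q k) := hq k (Nat.lt_succ_self k)
    have ih := tel72 γ g f w q k (fun i hi => hq i (by omega)) (Mp.of_crs hk hf)
    have h0 : Crs (q k) (q 0) := crs_chain (fun i hi => hq i (by omega)) 0 (Nat.zero_le k)
    rw [Finset.sum_range_succ, ← ih]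
    unfold fT72
    rw [total_cov w hk (cE w (q 0) γ) (cE w (q 0) g), gc_add_left, gc_cE_left w _ hf, cE_tower w h0, cE_tower w h0]

/-! ### The split of the third cumulant at `q` -/

/-- **Total cumulance with `p_B` finer than `q`**: `κ₃(cE_B γ, cE_B g, f) = κ₃(cE_q γ, cE_q g, f) + Cov(cC_q(cE_B γ, cE_B g), f)`. -/
theorem CX_split72 {q : X → Y'} {p : X → Y} (hc : Crs q p) {f : X → ℝ} (hf : Mp q f) (w γ g : X → ℝ) :
    CX p w [[γ], [g]] [f] = CX q w [[γ], [g]] [f] + fT72 q p γ g f w := by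
  rw [CX_11, CX_11, total3 hf w (cE w p γ) (cE w p g), cE_tower w hc, cE_tower w hc]
  rfl

/-- The same for the derivative in any direction `A`. -/
theorem DX_split72 {q : X → Y'} {p : X → Y} (hc : Crs q p) {f : X → ℝ} (hf : Mp q f) (w γ g A : X → ℝ) :
    DX p w A [[γ], [g]] [f] = DX q w A [[γ], [g]] [f] + dT72 q p γ g f w A := by
  have hl : ∀ F ∈ [f], Mp q F := fun F hF => by rwa [List.mem_singleton.1 hF]
  have hl' : ∀ F ∈ [f], Mp p F := fun F hF => Mp.of_crs hc (hl F hF)
  have hW := hasDerivAt_line w A 0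
  have h1 := hasDerivAt_CX (p := p) hW [[γ], [g]] hl'
  have h2 := (hasDerivAt_CX (p := q) hW [[γ], [g]] hl).add (hasDerivAt_fT72 hW q p γ g f)
  have e : (fun u : ℝ => CX p (w + u • A) [[γ], [g]] [f]) =
      (fun u : ℝ => CX q (w + u • A) [[γ], [g]] [f]) + fun u : ℝ => fT72 q p γ g f (w + u • A) :=
    funext fun u => CX_split72 hc hf (w + u • A) γ g
  rw [e] at h1
  have h3 := h1.unique h2
  rwa [zero_smul, add_zero] at h3

/-- The derivative of the telescope in any direction. -/
theorem dtel72 (γ g f w A : X → ℝ) (q : ℕ → X → Y) (k : ℕ) (hq : ∀ i < k, Crs (q (i + 1)) (q i)) (hf : Mp (q k) f) :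
    dT72 (q k) (q 0) γ g f w A = ∑ i ∈ Finset.range k, dT72 (q (i + 1)) (q i) γ g f w A := by
  have hW := hasDerivAt_line w A 0
  have h1 := hasDerivAt_fT72 hW (q k) (q 0) γ g f
  have h2 : HasDerivAt (fun u : ℝ => ∑ i ∈ Finset.range k, fT72 (q (i + 1)) (q i) γ g f (w + u • A))
      (∑ i ∈ Finset.range k, dT72 (q (i + 1)) (q i) γ g f (w + (0 : ℝ) • A) A) 0 :=
    HasDerivAt.fun_sum fun i _ => hasDerivAt_fT72 hW (q (i + 1)) (q i) γ g f
  have e : (fun u : ℝ => fT72 (q k) (q 0) γ g f (w + u • A)) =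
      fun u : ℝ => ∑ i ∈ Finset.range k, fT72 (q (i + 1)) (q i) γ g f (w + u • A) :=
    funext fun u => tel72 γ g f (w + u • A) q k hq hf
  rw [e] at h1
  have h3 := h1.unique h2
  rwa [zero_smul, add_zero] at h3

end

end Pool.W7d29a1.C0.T72
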