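import Pool.Agent.W_7d29a1_C0.CutT57
import Pool.Agent.W_7d29a1_C0.TelT72
import Pool.Agent.W_7d29a1_C0.Mic57

/-!
MP_7d29a1_pr, [CURV0] (helper57), leaf (T): THE BRIDGE between the one sided telescope (TelT72) and the plan of five replicas (CutT57).

`fT72_eq_ev`, `dT72_eq_ins`: for every direction `C` which keeps the swap of the heads the derivative `dT72 .. C` is the insertion of
`C` in the plan `P5`. `dT72_slab57`: the derivative in the direction `g` is the insertion of the slab field plus the micro terms, all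
of them plans `P5`. `cC_mic`, `abs_cC_mic_le`: the micro covariance as a pair given the path behind the row `m` which is apart on one
side of the window.
-/

set_option autoImplicit false
set_option linter.unusedSectionVars false
set_option linter.unusedVariables false

namespace Pool.Agent.W_7d29a1_C0.CutT57

open Finset
open Pool.Agent.W_7d29a1_C0 Pool.Agent.W_7d29a1_C0.Mod92 Pool.Agent.W_7d29a1_C0.Swap57 Pool.Agent.W_7d29a1_C0.NM82
open Pool.Agent.W_7d29a1_F Pool.Agent.W_7d29a1_X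
open Pool.W7d29a1.C0 Pool.W7d29a1.C0.VT31 Pool.W7d29a1.C0.T72
open Pool.W7d29a1.C0.I52 (Plan wt ker zs av ev dn ins ev_cons ev_nil ev_congr gm_eq_av cE_eq_av ev_mono abs_ev_le ev_smul ev_sum
  hasDerivAt_ev gline)

noncomputable section

variable {Q : Finset (Finset ℕ)} [SwQ Q] [Nonempty (Px Q)] {w : Px Q → ℝ} {a0 z z' c : ℕ} {κ b f γ g : Px Q → ℝ}

/-- The functional of the telescope is the plan. -/
theorem fT72_eq_ev (haz : a0 ≤ z) (hzz : z ≤ z') (hzc : z' ≤ c) (hw : HdAll a0 w) (hκ : Lk 0 z κ) (hb : Lk 0 a0 b) (hf : Rk c f) :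
    fT72 (pJ 0 z') (pJ 0 z) κ b f w = ev (P5 (pJ 0 z') (pJ 0 z)) w (psi5 a0 z z' c κ b f) :=
  (plan5 haz hzz hzc (hw a0 z le_rfl haz) (hw z z haz le_rfl) (hw z' z' (haz.trans hzz) le_rfl)
    (hw z' c (haz.trans hzz) hzc) hκ hb hf).symm

/-- **THE BRIDGE**: the derivative in a direction which keeps the swap of the heads is the insertion. -/
theorem dT72_eq_ins (haz : a0 ≤ z) (hzz : z ≤ z') (hzc : z' ≤ c) (hw : HdAll a0 w) {C : Px Q → ℝ} (hC : HdAll a0 C)
    (hκ : Lk 0 z κ) (hb : Lk 0 a0 b) (hf : Rk c f) :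
    dT72 (pJ 0 z') (pJ 0 z) κ b f w C = ins (P5 (pJ 0 z') (pJ 0 z)) w C (psi5 a0 z z' c κ b f) := by
  have h1 := hasDerivAt_TT haz hzz hzc hw hC hκ hb hf 0
  have h2 := hasDerivAt_fT72 (hasDerivAt_line w C 0) (pJ 0 z') (pJ 0 z) κ b f
  have h3 := h2.unique h1
  rwa [zero_smul, add_zero] at h3

/-! ### The micro terms -/

/-- A sum over the slab in the first factor. -/
theorem fT72_sum {ι Y₁ Y₂ : Type*} [DecidableEq Y₁] [DecidableEq Y₂] (J : Finset ι) (θ : ι → ℝ) (K : ι → Px Q → ℝ)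
    (q' : Px Q → Y₁) (q : Px Q → Y₂) :
    gc w (cC w q' (∑ m ∈ J, θ m • cE w q (K m)) (cE w q b)) f = ∑ m ∈ J, θ m * fT72 q' q (K m) b f w := by
  classical
  induction J using Finset.induction_on with
  | empty =>
    rw [Finset.sum_empty, Finset.sum_empty, cC_zero_left, gc_zero_left]
  | insert m J hm ih =>
    rw [Finset.sum_insert hm, Finset.sum_insert hm, cC_add_left, gc_add_left, ih, cC_smul_left, gc_smul_left]
    rfl

/-- **THE SLAB STEP OF (T) IN PLANS.** -/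
theorem dT72_slab57 (haz : a0 ≤ z) (hzz : z ≤ z') (hzc : z' ≤ c) (hw : HdAll a0 w) (hγ : Lk 0 a0 γ) (hg : Lk 0 a0 g)
    (hf : Rk c f) {J : Finset ℕ} {θ : ℕ → ℝ} (hθ : ∑ m ∈ J, θ m = 1) (hJ : ∀ m ∈ J, a0 ≤ m ∧ m ≤ z) :
    dT72 (pJ 0 z') (pJ 0 z) γ g f w g =
      ins (P5 (pJ 0 z') (pJ 0 z)) w (avC w J θ (fun m => pJ 0 m) g) (psi5 a0 z z' c γ g f) +
      ∑ m ∈ J, θ m * (ev (P5 (pJ 0 z') (pJ 0 z)) w (psi5 a0 z z' c (cC w (pJ 0 m) g γ) g f) +
        ev (P5 (pJ 0 z') (pJ 0 z)) w (psi5 a0 z z' c (cC w (pJ 0 m) g g) γ f)) := by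
  rw [dT72_slab (crs_pJ le_rfl hzz) (fun S T h => hf S T fun i hi => ps_of_ge h (hzc.trans hi)) hθ
    fun m hm => crs_pJ le_rfl (hJ m hm).2]
  rw [dT72_eq_ins haz hzz hzc hw (HdAll_avC hw hg (fun m hm => (hJ m hm).1) a0) (Lk_mono le_rfl haz hγ) hg hf]
  congr 1
  rw [gc_add_left, cC_symm w (pJ 0 z') (cE w (pJ 0 z) γ)]
  unfold avV
  rw [fT72_sum, fT72_sum, ← sum_add_distrib]
  refine sum_congr rfl fun m hm => ?_
  have hK : ∀ h : Px Q → ℝ, Lk 0 a0 h → Lk 0 z (cC w (pJ 0 m) g h) := fun h hh =>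
    Lk_mono (Nat.zero_le _) (hJ m hm).2 (markov_cC (hw m m (hJ m hm).1 le_rfl) (Lk_mono le_rfl (hJ m hm).1 hg)
      (Lk_mono le_rfl (hJ m hm).1 hh))
  rw [fT72_eq_ev haz hzz hzc hw (hK γ hγ) hg hf, fT72_eq_ev haz hzz hzc hw (hK g hg) hγ hf]
  ring

/-! ### The micro covariance -/

section Mic

variable {al be d e : ℕ} {Y' : Type*} [DecidableEq Y']

/-- **The micro covariance**: `γ` a function of the outside of the window `[d, e)`, `g` a functional of the rows `[al, be]` inside. -/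
theorem cC_mic (hab : al ≤ be) (hw : Wk d al be e w) (hg : Lk al be g) (hγ : Mp (pJ d e) γ) {p' : Px Q → Y'}
    (hc : Crs p' (pJ d e)) :
    cC w p' g γ = cE w p' fun S => γ S * cE w p' (fun v => NM d al be e S v * (g S - g v)) S := by
  have h1 : cC w p' g γ = cE w p' (γ * fun S => g S - cE w p' g S) := by
    have e0 : (γ * fun S => g S - cE w p' g S) = g * γ - cE w p' g * γ := by
      funext S
      simp only [Pi.mul_apply, Pi.sub_apply]
      ring
    rw [e0, cE_sub, cE_pull w (cE_meas w p' g) γ]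
    rfl
  have h2 : cE w p' (γ * fun S => g S - cE w p' g S) = cE w p' (γ * cE w (pJ d e) fun S => g S - cE w p' g S) := by
    rw [← cE_tower w hc (γ * fun S => g S - cE w p' g S), cE_pull w hγ]
  rw [h1, h2, mic_fib hab hw hg hc, ← cE_pull w hγ, cE_tower w hc]
  rfl

theorem abs_cE_le_cE (w : Px Q → ℝ) (p : Px Q → Y') {f h : Px Q → ℝ} (hh : ∀ S, |f S| ≤ h S) (S : Px Q) :
    |cE w p f S| ≤ cE w p h S := by
  rw [abs_le]
  constructor
  · rw [neg_le, ← Pi.neg_apply, ← cE_neg]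
    exact cE_mono w p (fun v => by
      rw [Pi.neg_apply]
      linarith [(abs_le.1 (hh v)).1]) S
  · exact cE_mono w p (fun v => (abs_le.1 (hh v)).2) S

/-- The bound by the pair given `p'` which is apart on one side of the window. -/
theorem abs_cC_mic_le (hab : al ≤ be) (hw : Wk d al be e w) (hg : Lk al be g) (hγ : Mp (pJ d e) γ) {p' : Px Q → Y'}
    (hc : Crs p' (pJ d e)) {B L : ℝ} (hB : ∀ S, |γ S| ≤ B) (hL : ∀ S S', |g S - g S'| ≤ L) (S : Px Q) :
    |cC w p' g γ S| ≤ B * L * cE w p' (fun S => cE w p' (NM d al be e S) S) S := by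
  rw [cC_mic hab hw hg hγ hc, ← cE_const_mul]
  have hB0 : 0 ≤ B := (abs_nonneg _).trans (hB S)
  refine abs_cE_le_cE w p' (fun T => ?_) S
  rw [abs_mul, mul_assoc]
  refine mul_le_mul (hB T) ?_ (abs_nonneg _) hB0
  rw [← cE_const_mul]
  refine abs_cE_le_cE w p' (fun v => ?_) T
  rw [abs_mul, abs_of_nonneg (NM_nonneg _ _ _ _ _ _), mul_comm]
  exact mul_le_mul_of_nonneg_right (hL T v) (NM_nonneg _ _ _ _ _ _)

end Mic

end

end Pool.Agent.W_7d29a1_C0.CutT57
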