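import Pool.Agent.W_7d29a1_C0.Proj82

/-!
CURV0 (MP_7d29a1_pr): bounds for the joint cumulants of every order by replicas: a cumulant of order `k + 2` is an average over
`k + 2` replicas, and is at most `C_k prod ‖A_i‖` times the two replica average of `|f - f'| |h - h'|`. (helper82)
-/

set_option autoImplicit false
set_option linter.unusedSectionVars false
set_option linter.unusedVariables false

namespace Pool.W7d29a1.C0

open Finset Filter Topology
open Pool.Agent.W_7d29a1_C0

noncomputable section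

variable {X : Type*} [Fintype X] [Nonempty X]

/-! ### Replica averages -/

/-- The average over `m` replicas. -/
def rep (m : ℕ) (w : X → ℝ) (Ψ : (Fin m → X) → ℝ) : ℝ :=
  (∑ x : Fin m → X, Real.exp (∑ i, w (x i)) * Ψ x) / gz w ^ m

theorem sum_cons (m : ℕ) (F : (Fin (m + 1) → X) → ℝ) : ∑ x, F x = ∑ y : X, ∑ x : Fin m → X, F (Fin.cons y x) := by
  rw [← (Fin.consEquiv (fun _ : Fin (m + 1) => X)).sum_comp F, Fintype.sum_prod_type]
  rfl

theorem sum_exp_cons (m : ℕ) (w : X → ℝ) (a : X → ℝ) (Ψ : (Fin m → X) → ℝ) :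
    ∑ x : Fin (m + 1) → X, Real.exp (∑ i, w (x i)) * (a (x 0) * Ψ (Fin.tail x)) =
      (∑ y, Real.exp (w y) * a y) * ∑ x : Fin m → X, Real.exp (∑ i, w (x i)) * Ψ x := by
  rw [sum_cons, Finset.sum_mul]
  refine Finset.sum_congr rfl fun y _ => ?_
  rw [Finset.mul_sum]
  refine Finset.sum_congr rfl fun x _ => ?_
  rw [Fin.sum_univ_succ, Fin.cons_zero, Fin.tail_cons]
  simp only [Fin.cons_succ]
  rw [Real.exp_add]
  ring

theorem rep_cons (m : ℕ) (w a : X → ℝ) (Ψ : (Fin m → X) → ℝ) :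
    rep (m + 1) w (fun x => a (x 0) * Ψ (Fin.tail x)) = gm w a * rep m w Ψ := by
  unfold rep gm
  rw [sum_exp_cons, pow_succ, div_mul_div_comm, mul_comm (gz w) (gz w ^ m)]

theorem gm_one (w : X → ℝ) : gm w (fun _ => 1) = 1 := gm_const w 1

theorem rep_tail (m : ℕ) (w : X → ℝ) (Ψ : (Fin m → X) → ℝ) : rep (m + 1) w (fun x => Ψ (Fin.tail x)) = rep m w Ψ := by
  have h := rep_cons m w (fun _ => 1) Ψ
  rw [gm_one, one_mul] at h
  simpa using h

theorem rep_mono (m : ℕ) (w : X → ℝ) {Ψ Φ : (Fin m → X) → ℝ} (h : ∀ x, Ψ x ≤ Φ x) : rep m w Ψ ≤ rep m w Φ := by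
  unfold rep
  refine div_le_div_of_nonneg_right ?_ (pow_pos (gz_pos w) m).le
  exact Finset.sum_le_sum fun x _ => mul_le_mul_of_nonneg_left (h x) (Real.exp_pos _).le

theorem abs_rep_le (m : ℕ) (w : X → ℝ) {Ψ Φ : (Fin m → X) → ℝ} (h : ∀ x, |Ψ x| ≤ Φ x) : |rep m w Ψ| ≤ rep m w Φ := by
  have hn : rep m w (fun x => -Φ x) = -rep m w Φ := by
    unfold rep
    rw [← neg_div, ← Finset.sum_neg_distrib]
    congr 1
    exact Finset.sum_congr rfl fun x _ => by ring
  rw [abs_le]
  constructor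
  · rw [← hn]
    exact rep_mono m w fun x => (abs_le.1 (h x)).1
  · exact rep_mono m w fun x => (abs_le.1 (h x)).2

theorem rep_smul (m : ℕ) (w : X → ℝ) (c : ℝ) (Ψ : (Fin m → X) → ℝ) : rep m w (fun x => c * Ψ x) = c * rep m w Ψ := by
  unfold rep
  rw [← mul_div_assoc, Finset.mul_sum]
  congr 1
  exact Finset.sum_congr rfl fun x _ => by ring

/-- The derivative of a replica average puts in one more replica. -/
def nxt {m : ℕ} (A : X → ℝ) (Ψ : (Fin m → X) → ℝ) : (Fin (m + 1) → X) → ℝ :=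
  fun x => Ψ (Fin.tail x) * ((∑ i : Fin m, A (x i.succ)) - m * A (x 0))

theorem hasDerivAt_rep (m : ℕ) (w A : X → ℝ) (Ψ : (Fin m → X) → ℝ) :
    HasDerivAt (fun t : ℝ => rep m (w + t • A) Ψ) (rep (m + 1) w (nxt A Ψ)) 0 := by
  -- the numerator
  have hN : HasDerivAt (fun t : ℝ => ∑ x : Fin m → X, Real.exp (∑ i, (w + t • A) (x i)) * Ψ x)
      (∑ x : Fin m → X, (Real.exp (∑ i, w (x i)) * ∑ i, A (x i)) * Ψ x) 0 := by
    refine HasDerivAt.fun_sum fun x _ => ?_
    have h1 : HasDerivAt (fun t : ℝ => ∑ i, (w + t • A) (x i)) (∑ i, A (x i)) 0 :=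
      HasDerivAt.fun_sum fun i _ => line_coord w A 0 (x i)
    have h2 := (h1.exp).mul_const (Ψ x)
    simpa using h2
  -- the denominator
  have hD : HasDerivAt (fun t : ℝ => gz (w + t • A)) (∑ y, Real.exp (w y) * A y) 0 := by
    have h1 : HasDerivAt (fun t : ℝ => ∑ y, Real.exp ((w + t • A) y)) (∑ y, Real.exp ((w + (0 : ℝ) • A) y) * A y) 0 :=
      HasDerivAt.fun_sum fun y _ => (line_coord w A 0 y).exp
    simpa [gz] using h1
  have hz : gz (w + (0 : ℝ) • A) ^ m ≠ 0 := pow_ne_zero _ (gz_ne _)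
  have h := hN.div (hD.fun_pow m) hz
  refine h.congr_deriv ?_
  simp only [zero_smul, add_zero]
  -- the right hand side
  have e1 : rep (m + 1) w (nxt A Ψ) = rep (m + 1) w (fun x => (fun _ => (1 : ℝ)) (x 0) *
      (fun z : Fin m → X => (∑ i, A (z i)) * Ψ z) (Fin.tail x)) -
      m * rep (m + 1) w (fun x => A (x 0) * Ψ (Fin.tail x)) := by
    rw [← rep_smul]
    unfold rep nxt
    rw [← sub_div, ← Finset.sum_sub_distrib]
    congr 1
    refine Finset.sum_congr rfl fun x _ => ?_
    have : ∀ i : Fin m, Fin.tail x i = x i.succ := fun i => rfl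
    simp only [this]
    ring
  rw [e1, rep_cons m w (fun _ => (1 : ℝ)) (fun z : Fin m → X => (∑ i, A (z i)) * Ψ z), rep_cons m w A Ψ, gm_one, one_mul]
  unfold rep gm
  have hz1 : gz w ≠ 0 := gz_ne w
  have e2 : ∑ x : Fin m → X, (Real.exp (∑ i, w (x i)) * ∑ i, A (x i)) * Ψ x =
      ∑ x : Fin m → X, Real.exp (∑ i, w (x i)) * ((∑ i, A (x i)) * Ψ x) := Finset.sum_congr rfl fun x _ => by ring
  rw [e2]
  rcases m with _ | m
  · simp
  · rw [Nat.add_sub_cancel]
    field_simp
    ring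

/-! ### Every cumulant is a replica average -/

/-- The function `Q` of the two last replicas. -/
def bs (Q : X → X → ℝ) : (k : ℕ) → (Fin (k + 2) → X) → ℝ
  | 0, x => Q (x 0) (x 1)
  | k + 1, x => bs Q k (Fin.tail x)

/-- The two replica average of `Q`. -/
def PP (w : X → ℝ) (Q : X → X → ℝ) : ℝ := rep 2 w (bs Q 0)

theorem rep_bs (w : X → ℝ) (Q : X → X → ℝ) : ∀ k : ℕ, rep (k + 2) w (bs Q k) = PP w Q
  | 0 => rfl
  | k + 1 => by
    rw [← rep_bs w Q k]
    exact rep_tail (k + 2) w (bs Q k)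

theorem sum_fin_two (F : (Fin 2 → X) → ℝ) : ∑ x, F x = ∑ y : X, ∑ z : X, F ![y, z] := by
  rw [sum_cons]
  refine Finset.sum_congr rfl fun y _ => ?_
  rw [sum_cons]
  refine Finset.sum_congr rfl fun z _ => ?_
  rw [Fintype.sum_unique]
  rfl

theorem PP_eq (w : X → ℝ) (Q : X → X → ℝ) :
    PP w Q = (∑ y, ∑ z, Real.exp (w y) * Real.exp (w z) * Q y z) / gz w ^ 2 := by
  unfold PP rep
  rw [sum_fin_two]
  congr 1
  refine Finset.sum_congr rfl fun y _ => Finset.sum_congr rfl fun z _ => ?_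
  rw [Fin.sum_univ_two, Real.exp_add]
  rfl

theorem PP_mul (w f h : X → ℝ) : PP w (fun y z => f y * h z) = gm w f * gm w h := by
  rw [PP_eq]
  unfold gm
  rw [div_mul_div_comm, ← sq, Finset.sum_mul_sum]
  congr 1
  exact Finset.sum_congr rfl fun y _ => Finset.sum_congr rfl fun z _ => by ring

theorem PP_add (w : X → ℝ) (Q R : X → X → ℝ) : PP w (fun y z => Q y z + R y z) = PP w Q + PP w R := by
  simp only [PP_eq]
  rw [← add_div, ← Finset.sum_add_distrib]
  congr 1
  refine Finset.sum_congr rfl fun y _ => ?_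
  rw [← Finset.sum_add_distrib]
  exact Finset.sum_congr rfl fun z _ => by ring

theorem PP_smul (w : X → ℝ) (c : ℝ) (Q : X → X → ℝ) : PP w (fun y z => c * Q y z) = c * PP w Q := by
  simp only [PP_eq]
  rw [← mul_div_assoc, Finset.mul_sum]
  congr 1
  refine Finset.sum_congr rfl fun y _ => ?_
  rw [Finset.mul_sum]
  exact Finset.sum_congr rfl fun z _ => by ring

theorem PP_mono (w : X → ℝ) {Q R : X → X → ℝ} (h : ∀ y z, Q y z ≤ R y z) : PP w Q ≤ PP w R :=
  rep_mono 2 w fun x => h _ _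

theorem PP_nonneg (w : X → ℝ) {Q : X → X → ℝ} (h : ∀ y z, 0 ≤ Q y z) : 0 ≤ PP w Q := by
  have h1 := PP_mono w (Q := fun _ _ => 0) (R := Q) h
  have h2 : PP w (fun _ _ => (0 : ℝ)) = 0 := by
    rw [PP_eq]
    simp
  linarith

/-- The covariance in two replicas. -/
theorem gcov_eq_PP (w f h : X → ℝ) : gcov univ (ew w) f h = (1 / 2) * PP w (fun y z => (f y - f z) * (h y - h z)) := by
  have e : PP w (fun y z => (f y - f z) * (h y - h z)) =
      2 * gm w (fun x => f x * h x) - 2 * (gm w f * gm w h) := by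
    have e0 : (fun y z => (f y - f z) * (h y - h z)) = fun y z => ((f y * h y) * (fun _ : X => (1 : ℝ)) z +
        (fun _ : X => (1 : ℝ)) y * (f z * h z)) + ((-1) * (f y * h z) + (-1) * (h y * f z)) := by
      funext y z
      ring
    have k1 := PP_mul w (fun x => f x * h x) (fun _ => 1)
    have k2 := PP_mul w (fun _ => 1) (fun x => f x * h x)
    have k3 := PP_smul w (-1) (fun y z => f y * h z)
    have k4 := PP_smul w (-1) (fun y z => h y * f z)
    rw [e0, PP_add, PP_add, PP_add, k1, k2, k3, k4, PP_mul w f h, PP_mul w h f, gm_one]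
    ring
  rw [e]
  show gm w (fun x => f x * h x) - gm w f * gm w h = _
  ring

/-- The constant of the bound. -/
def cst : List (X → ℝ) → ℝ
  | [] => 1 / 2
  | A :: l => 2 * (l.length + 2 : ℝ) * ‖A‖ * cst l

theorem cst_nonneg : ∀ l : List (X → ℝ), 0 ≤ cst l
  | [] => by norm_num [cst]
  | A :: l => by
    have := cst_nonneg l
    unfold cst
    positivity

theorem exists_rep (f h : X → ℝ) : ∀ l : List (X → ℝ), ∃ Ψ : (Fin (l.length + 2) → X) → ℝ,
    (∀ w, cm (l ++ [f, h]) w = rep (l.length + 2) w Ψ) ∧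
      ∀ x, |Ψ x| ≤ cst l * bs (fun y z => |f y - f z| * |h y - h z|) l.length x
  | [] => by
    refine ⟨bs (fun y z => (1 / 2) * ((f y - f z) * (h y - h z))) 0, fun w => ?_, fun x => ?_⟩
    · show cm [f, h] w = PP w (fun y z => (1 / 2) * ((f y - f z) * (h y - h z)))
      rw [cm_two, gcov_eq_PP, PP_smul]
    · show |(1 / 2) * ((f (x 0) - f (x 1)) * (h (x 0) - h (x 1)))| ≤ 1 / 2 * (|f (x 0) - f (x 1)| * |h (x 0) - h (x 1)|)
      rw [abs_mul, abs_mul, abs_of_pos (by norm_num : (0 : ℝ) < 1 / 2)]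
  | A :: l => by
    obtain ⟨Ψ, h1, h2⟩ := exists_rep f h l
    refine ⟨nxt A Ψ, fun w => ?_, fun x => ?_⟩
    · show cm (A :: (l ++ [f, h])) w = rep (l.length + 2 + 1) w (nxt A Ψ)
      refine cm_cons_eq ?_
      refine (hasDerivAt_rep (l.length + 2) w A Ψ).congr_of_eventuallyEq (Eventually.of_forall fun t => ?_)
      exact h1 _
    · show |Ψ (Fin.tail x) * ((∑ i : Fin (l.length + 2), A (x i.succ)) - ((l.length + 2 : ℕ) : ℝ) * A (x 0))| ≤
        (2 * (l.length + 2 : ℝ) * ‖A‖ * cst l) * bs (fun y z => |f y - f z| * |h y - h z|) l.length (Fin.tail x)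
      rw [abs_mul]
      have hA : ∀ y, |A y| ≤ ‖A‖ := fun y => norm_le_pi_norm A y
      have hS : |(∑ i : Fin (l.length + 2), A (x i.succ)) - ((l.length + 2 : ℕ) : ℝ) * A (x 0)| ≤
          2 * (l.length + 2 : ℝ) * ‖A‖ := by
        refine (abs_sub _ _).trans ?_
        have s1 : |∑ i : Fin (l.length + 2), A (x i.succ)| ≤ (l.length + 2 : ℝ) * ‖A‖ := by
          refine (Finset.abs_sum_le_sum_abs _ _).trans ((Finset.sum_le_sum fun i _ => hA (x i.succ)).trans ?_)
          rw [Finset.sum_const, Finset.card_univ, Fintype.card_fin, nsmul_eq_mul]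
          push_cast
          exact le_rfl
        have s2 : |((l.length + 2 : ℕ) : ℝ) * A (x 0)| ≤ (l.length + 2 : ℝ) * ‖A‖ := by
          rw [abs_mul, abs_of_nonneg (by positivity)]
          push_cast
          exact mul_le_mul_of_nonneg_left (hA _) (by positivity)
        linarith
      have hb : 0 ≤ bs (fun y z => |f y - f z| * |h y - h z|) l.length (Fin.tail x) := by
        have hc := h2 (Fin.tail x)
        have hk : ∀ (k : ℕ) (z : Fin (k + 2) → X), 0 ≤ bs (fun y z => |f y - f z| * |h y - h z|) k z := by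
          intro k
          induction k with
          | zero => exact fun z => mul_nonneg (abs_nonneg _) (abs_nonneg _)
          | succ k ih => exact fun z => ih _
        exact hk _ _
      calc |Ψ (Fin.tail x)| * |(∑ i : Fin (l.length + 2), A (x i.succ)) - ((l.length + 2 : ℕ) : ℝ) * A (x 0)|
          ≤ (cst l * bs (fun y z => |f y - f z| * |h y - h z|) l.length (Fin.tail x)) * (2 * (l.length + 2 : ℝ) * ‖A‖) :=
            mul_le_mul (h2 _) hS (abs_nonneg _) (mul_nonneg (cst_nonneg l) hb)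
        _ = _ := by ring

/-- **The bound for the cumulants of every order**: two arguments in the two replica average, the others in the sup norm. -/
theorem abs_cm_le (l : List (X → ℝ)) (f h w : X → ℝ) :
    |cm (l ++ [f, h]) w| ≤ cst l * PP w (fun y z => |f y - f z| * |h y - h z|) := by
  obtain ⟨Ψ, h1, h2⟩ := exists_rep f h l
  rw [h1]
  refine (abs_rep_le _ w h2).trans (le_of_eq ?_)
  rw [rep_smul, rep_bs]

/-- Cauchy-Schwarz in two replicas. -/
theorem PP_cs (w f h : X → ℝ) : PP w (fun y z => |f y - f z| * |h y - h z|) ≤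
    2 * Real.sqrt (gcov univ (ew w) f f * gcov univ (ew w) h h) := by
  have e : ∀ Q : X → X → ℝ, PP w Q = gav univ (fun q : X × X => Real.exp (w q.1) * Real.exp (w q.2)) (fun q => Q q.1 q.2) := by
    intro Q
    rw [PP_eq]
    unfold gav
    rw [Fintype.sum_prod_type, Fintype.sum_prod_type]
    congr 1
    unfold gz
    rw [sq, Finset.sum_mul_sum]
  have hw : ∀ q ∈ (univ : Finset (X × X)), 0 ≤ Real.exp (w q.1) * Real.exp (w q.2) := fun q _ => by positivity
  have h1 := gav_abs_mul_le hw (fun q => f q.1 - f q.2) (fun q => h q.1 - h q.2)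
  have h2 : PP w (fun y z => |f y - f z| * |h y - h z|) =
      gav univ (fun q : X × X => Real.exp (w q.1) * Real.exp (w q.2)) (fun q => |(f q.1 - f q.2) * (h q.1 - h q.2)|) := by
    rw [e]
    congr 1
    funext q
    rw [abs_mul]
  have h3 : ∀ u : X → ℝ, gav univ (fun q : X × X => Real.exp (w q.1) * Real.exp (w q.2)) (fun q => (u q.1 - u q.2) ^ 2) =
      2 * gcov univ (ew w) u u := by
    intro u
    rw [gcov_eq_PP, e]
    rw [← mul_assoc, show (2 : ℝ) * (1 / 2) = 1 by norm_num, one_mul]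
    congr 1
    funext q
    ring
  rw [h2]
  refine h1.trans (le_of_eq ?_)
  rw [h3, h3, show (2 * gcov univ (ew w) f f) * (2 * gcov univ (ew w) h h) =
    2 ^ 2 * (gcov univ (ew w) f f * gcov univ (ew w) h h) by ring, Real.sqrt_mul (by norm_num), Real.sqrt_sq (by norm_num)]

theorem PP_cs_one (w f h : X → ℝ) {D : ℝ} (hD : ∀ y z, |h y - h z| ≤ D) :
    PP w (fun y z => |f y - f z| * |h y - h z|) ≤ D * PP w (fun y z => |f y - f z|) := by
  rw [← PP_smul]
  refine PP_mono w fun y z => ?_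
  rw [mul_comm D]
  exact mul_le_mul_of_nonneg_left (hD y z) (abs_nonneg _)

/-- Cauchy-Schwarz form of the bound. -/
theorem abs_cm_le_sqrt (l : List (X → ℝ)) (f h w : X → ℝ) :
    |cm (l ++ [f, h]) w| ≤ 2 * cst l * Real.sqrt (gcov univ (ew w) f f * gcov univ (ew w) h h) := by
  have h1 := abs_cm_le l f h w
  have h2 := mul_le_mul_of_nonneg_left (PP_cs w f h) (cst_nonneg l)
  linarith

theorem cst_replicate_le {M : ℝ} {g : X → ℝ} (hg : ‖g‖ ≤ M) : ∀ k : ℕ,
    cst (List.replicate k g) ≤ (1 / 2) * (2 * M) ^ k * (k + 1).factorial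
  | 0 => by norm_num [cst]
  | k + 1 => by
    have ih := cst_replicate_le hg k
    have hM : 0 ≤ M := (norm_nonneg g).trans hg
    rw [List.replicate_succ]
    show 2 * ((List.replicate k g).length + 2 : ℝ) * ‖g‖ * cst (List.replicate k g) ≤ _
    rw [List.length_replicate]
    have e : (1 / 2 : ℝ) * (2 * M) ^ (k + 1) * (k + 1 + 1).factorial =
        2 * (k + 2 : ℝ) * M * ((1 / 2) * (2 * M) ^ k * (k + 1).factorial) := by
      rw [Nat.factorial_succ (k + 1)]
      push_cast
      ring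
    rw [e]
    exact mul_le_mul (mul_le_mul_of_nonneg_left hg (by positivity)) ih (cst_nonneg _) (by positivity)

/-- The cumulants of one bounded function are dominated by its variance. -/
theorem abs_cm_replicate_le {M : ℝ} {g : X → ℝ} (hg : ‖g‖ ≤ M) (k : ℕ) (w : X → ℝ) :
    |cm (List.replicate (k + 2) g) w| ≤ (2 * M) ^ k * (k + 1).factorial * gcov univ (ew w) g g := by
  have h1 := abs_cm_le (List.replicate k g) g g w
  have e1 : List.replicate k g ++ [g, g] = List.replicate (k + 2) g := by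
    rw [show [g, g] = List.replicate 2 g from rfl, ← List.replicate_add]
  have e2 : PP w (fun y z => |g y - g z| * |g y - g z|) = 2 * gcov univ (ew w) g g := by
    rw [gcov_eq_PP, ← mul_assoc, show (2 : ℝ) * (1 / 2) = 1 by norm_num, one_mul]
    congr 1
    funext y z
    exact abs_mul_abs_self _
  rw [e1, e2] at h1
  have h3 : 0 ≤ 2 * gcov univ (ew w) g g := by
    rw [← e2]
    exact PP_nonneg w fun y z => mul_nonneg (abs_nonneg _) (abs_nonneg _)
  have h4 := mul_le_mul_of_nonneg_right (cst_replicate_le hg k) h3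
  calc |cm (List.replicate (k + 2) g) w| ≤ _ := h1
    _ ≤ _ := h4
    _ = _ := by ring

/-- The conditional cumulants are dominated by the conditional variance. -/
theorem abs_cc_le {Y : Type*} [Fintype Y] [Nonempty Y] [DecidableEq Y] {p : X → Y} (hp : Function.Surjective p)
    {g : X → ℝ} {M : ℝ} (hM : 0 ≤ M) (hg : ∀ x, |g x| ≤ M) (k : ℕ) (w : X → ℝ) (y : Y) :
    |cc p g (k + 2) w y| ≤ (2 * M) ^ k * (k + 1).factorial * cc p g 2 w y := by
  have := nonempty_fib hp y
  have h := abs_cm_replicate_le (g := rs p y g) (M := M)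
    ((pi_norm_le_iff_of_nonneg hM).2 fun x => by rw [Real.norm_eq_abs]; exact hg x.1) k (rs p y w)
  rw [cc_two hp]
  exact h

end

end Pool.W7d29a1.C0
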