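import Pool.Agent.W_7d29a1_HZ.Z86_PrE86
import Pool.Agent.W_7d29a1_HZ.Z86_InnX

/-!
C0, helper86: THE PAIR PRICE. Two replicas of the polymer with the same ends IN THE SAME ENVIRONMENT which do not meet in a time
interval of the length `t / 4` produce a near tie (`PriceX` at the shear `V = 0`, pattern `I = ∅`); the price is `L ^ ε / EE' t`, also as
a product with every event which does not see the rows from the interval on.
-/

set_option autoImplicit false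

namespace Pool.Agent.W_7d29a1_C0.P86

open MeasureTheory ProbabilityTheory Filter Topology Finset
open Pool.Agent.W_7d29a1_F Pool.Agent.W_7d29a1_X Pool.Agent.W_7d29a1_h4g Pool.Agent.W_7d29a1_H
open Pool.Agent.W_7d29a1_HS (In wd)
open Pool.Agent.W_7d29a1_HZ Pool.Agent.W_7d29a1_HZ.R72 Pool.Agent.W_7d29a1_Z.Asm72
open Pool.Agent.W_7d29a1_HZ.Z86
open Pool.Agent.W_7d29a1_HZ.Z86.GX (ProdX prodX_of priceX_qE NJ NRel WT)
open Pool.Agent.W_7d29a1_Z86 (Runs exists_Runs)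
open scoped ENNReal

variable {μ : Measure ℝ} {s : ℝ} [IsProbabilityMeasure μ] {c C : ℝ} {n₀ : ℕ}

/-! ### The trivial shear -/

omit [IsProbabilityMeasure μ] in
theorem pat_empty (t τ : ℕ) (V : ℕ → ℤ) : pat t τ ∅ V = fun _ => 0 := by
  funext k
  unfold pat
  simp

theorem sv_zero (a i : ℕ) : sv (fun _ => 0) a i = 0 := by
  unfold sv
  simp

theorem shr_zero (a : ℕ) (η : Env) : shr a (fun _ => 0) η = η := by
  funext p
  unfold shr
  rw [sv_zero, sub_zero]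

theorem vok_zero (t τ N k₀ k₁ r : ℕ) : VOK t τ N k₀ k₁ r ∅ (fun _ => 0) where
  bd _ := by simp
  z0 _ _ := rfl
  svN := by rw [pat_empty, sv_zero]
  svb i := by rw [pat_empty, sv_zero]; simp
  gap _ _ _ _ _ _ := by rw [pat_empty, sv_zero]

omit [IsProbabilityMeasure μ] in
theorem fb_zero (t τ : ℕ) (η : Env) (b : ℕ) (a a' : ℤ) (X : ℕ → ℤ) :
    fb μ s t τ ∅ η b a X = fb μ s t τ ∅ η b a' X := by
  unfold fb
  rw [pat_empty, pat_empty]

omit [IsProbabilityMeasure μ] in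
theorem Db_zero (t τ : ℕ) (η : Env) (b : ℕ) (r a : ℤ) (X : ℕ → ℤ) : Db μ s t τ ∅ r η b a X = 0 := by
  unfold Db
  rw [fb_zero t τ η b (a + r) a, fb_zero t τ η b (a - r) a]
  ring

omit [IsProbabilityMeasure μ] in
theorem ra_zero (L t τ B : ℕ) {w A : ℝ} (hA : 0 ≤ A) (K : ℕ) (η : Env) : RA μ s L t τ B ∅ w A K η := by
  intro b _ u u' _ _ _ _ _ x y _ _ i _
  rw [pat_empty]
  have e : fk μ s (fun _ => 0) η u u' x y - fk μ s 0 η u u' x y = 0 := sub_self _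
  rw [e, abs_zero]
  positivity

theorem Xs_zero (r : ℤ) (t τ : ℕ) (J : Finset ℕ) (z : Env × Finset ℕ) : Xs r J (phi μ s t τ ∅ z) = 0 := by
  unfold Xs
  refine Finset.sum_eq_zero fun b _ => ?_
  exact Db_zero t τ z.1 b r 0 (pos z.2)

/-- Two replicas do not meet in `[i, j]`. -/
def NoMeet (i j : ℕ) (S S' : Finset ℕ) : Prop := ∀ k : ℕ, i ≤ k → k ≤ j → pos S k ≠ pos S' k

theorem meet_zero {S S' : Finset ℕ} {i : ℕ} : Meet (fun _ => 0) S S' i ↔ pos S i = pos S' i := by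
  unfold Meet px
  rw [sv_zero, sub_zero]

/-- **PRODUCTION AND PRICE OF A PAIR.** -/
theorem pair_prod (h : In μ s c C n₀) : ∀ ε θ : ℝ, 0 < ε → 0 < θ → ∃ δ c' : ℝ, 0 < δ ∧ 0 < c' ∧ ∃ L₀ : ℕ,
    ∀ L : ℕ, L₀ ≤ L → ∀ N t : ℕ, L ≤ 16 * N → N ≤ L → (L : ℝ) ^ θ ≤ t → ∀ τ : ℕ, τ + 2 * t ≤ N →
    ∀ y : ℤ, 0 ≤ y → y ≤ N → |(y : ℝ) - sl μ s * N| ≤ ((L : ℝ) ^ δ * wd' μ s N) →
    ∃ NT : Env → Finset ℕ → Prop, Ms NT ∧
      P2 μ s N y (fun _ => 0) (fun η S S' => (NoMeet τ (τ + t / 4) S S' ∨ NoMeet (τ + t - t / 4) (τ + t) S S') ∧ ¬ NT η S') ≤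
        ENNReal.ofReal (Real.exp (-(L : ℝ) ^ c')) ∧
      ∀ F : Env → Finset ℕ → Prop, Ms F → OffRows (Ico τ N) F →
        P1 μ s N y (fun η S => F η S ∧ NT η S) ≤ ENNReal.ofReal ((L : ℝ) ^ ε * (EE' μ s t)⁻¹) * P1 μ s N y F +
          ENNReal.ofReal (Real.exp (-(L : ℝ) ^ c')) := by
  intro ε θ hε hθ
  set β : ℝ := ε / 5 with hβd
  have hβ : 0 < β := by positivity
  obtain ⟨ε₁, δw, cw, hε₁, hδw, hcw, Lw, hW⟩ := prodX_of h (priceX_qE h) β 1 θ hβ one_pos hθ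
  obtain ⟨δn, cn, hδn, hcn, Ln, hNs⟩ := ns h ε₁ hε₁
  obtain ⟨δf, cf, hδf, hcf, Lf, hFr⟩ := fresh h ε₁ hε₁
  set cm : ℝ := min (min cw cn) (min cf β) with hcm
  have hcm0 : 0 < cm := lt_min (lt_min hcw hcn) (lt_min hcf hβ)
  obtain ⟨cp, hcp, hcpm, Lp, hPE⟩ := Pool.Agent.W_7d29a1_Z.NumI77.pow_exp hcm0 (9 + β)
  obtain ⟨La, hLa⟩ := Pool.Agent.W_7d29a1_Z.NumI77.large hθ 16
  obtain ⟨Lb, hLb⟩ := Pool.Agent.W_7d29a1_Z.NumI77.large hβ 1000
  set δ : ℝ := min δw (min δn δf) with hδd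
  have hδ : 0 < δ := lt_min hδw (lt_min hδn hδf)
  refine ⟨δ, cp, hδ, hcp, Lw + Ln + Lf + Lp + La + Lb + 1000000000, ?_⟩
  intro L hL N t hLN hNL htL τ hτN y hy0 hyN hyc
  have hL1 : 1 ≤ L := by omega
  have hLR : (1 : ℝ) ≤ L := by exact_mod_cast hL1
  have hL0 : (0 : ℝ) < L := by linarith
  obtain ⟨-, ht16, -⟩ := hLa L (by omega)
  have ht : 16 ≤ t := by exact_mod_cast ht16.trans htL
  have htN : t ≤ N := by omega
  have htau : τ ≤ N := by omega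
  have hwd : ∀ n, 0 < wd' μ s n := fun n => lt_of_lt_of_le zero_lt_one (le_max_left _ _)
  have hcone : ∀ δ', δ ≤ δ' → |(y : ℝ) - sl μ s * N| ≤ ((L : ℝ) ^ δ' * wd' μ s N) := fun δ' hδ' =>
    hyc.trans (mul_le_mul_of_nonneg_right (Real.rpow_le_rpow_of_exponent_le hLR hδ') (hwd N).le)
  obtain ⟨NX, n1, e0, E, X, w, w0, w1, w2, w3, w4, w5, w6, w7, w8, w10, w11, w12, w13, w14⟩ :=
    hW L (by omega) N t hLN hNL htL htN y hy0 hyN (hcone _ (min_le_left _ _))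
  have hns := hNs L (by omega) N hLN hNL y hy0 hyN (hcone _ ((min_le_right _ _).trans (min_le_left _ _)))
  have hfr := hFr L (by omega) N hLN hNL y hy0 hyN (hcone _ ((min_le_right _ _).trans (min_le_right _ _)))
    (fun _ => 0) (sv_zero 0 N)
  have ecw : Real.exp (-(L : ℝ) ^ cw) ≤ Real.exp (-(L : ℝ) ^ cm) :=
    Pool.Agent.W_7d29a1_Z.NumI77.exp_mono ((min_le_left _ _).trans (min_le_left _ _)) hL1
  have ecn : Real.exp (-(L : ℝ) ^ cn) ≤ Real.exp (-(L : ℝ) ^ cm) :=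
    Pool.Agent.W_7d29a1_Z.NumI77.exp_mono ((min_le_left _ _).trans (min_le_right _ _)) hL1
  have ecf : Real.exp (-(L : ℝ) ^ cf) ≤ Real.exp (-(L : ℝ) ^ cm) :=
    Pool.Agent.W_7d29a1_Z.NumI77.exp_mono ((min_le_right _ _).trans (min_le_left _ _)) hL1
  have ecb : Real.exp (-(L : ℝ) ^ β) ≤ Real.exp (-(L : ℝ) ^ cm) :=
    Pool.Agent.W_7d29a1_Z.NumI77.exp_mono ((min_le_right _ _).trans (min_le_right _ _)) hL1
  set p : ℝ := Real.exp (-(L : ℝ) ^ cm) with hp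
  have hp0 : 0 < p := Real.exp_pos _
  obtain ⟨-, hb1000, -⟩ := hLb L (by omega)
  set x : ℝ := (L : ℝ) ^ β with hx
  have hx0 : 0 < x := by linarith
  -- the production
  have hza1 : za t τ 1 = τ + 2 * t := by unfold za; ring
  obtain ⟨Bd, hBd, hNJ⟩ := w14 τ 1 0 1 1 1 ∅ 1 0 x (fun _ => 0) ht (empty_subset _) (by norm_num) le_rfl hL1
    (by rw [hza1]; exact hτN) (vok_zero t τ N 0 1 1) le_rfl le_rfl le_rfl le_rfl hx0.le
    (by simp only [card_empty, Nat.cast_zero, mul_zero, add_zero]; linarith)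
    (by simp)
  rw [pat_empty] at hBd
  set Ws := Wd N t τ 0 n1 e0 E 0 ∪ Wd N t τ 0 n1 e0 E 1 with hWs
  have hWc : Ws.card ≤ 2 * X := by
    refine (card_union_le _ _).trans ?_
    have := w11 τ 0 0
    have := w11 τ 0 1
    omega
  have hWr : ∀ W ∈ Ws, W.2.2 ⊆ Ico τ N := by
    intro W hW' i hi
    rw [mem_Ico]
    have key : ∀ b, b ≤ 1 → W ∈ Wd N t τ 0 n1 e0 E b → τ ≤ i ∧ i < N := by
      intro b hb hWb
      obtain ⟨-, -, q1, -, q3, -⟩ := mem_Wd.1 hWb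
      refine ⟨?_, (q3 i hi).2⟩
      unfold Wd0 at q1
      split_ifs at q1 with hn
      · rw [mem_image] at q1
        obtain ⟨z, hz, hzW⟩ := q1
        rw [mem_product, mem_insert, mem_singleton] at hz
        have e1 : W.2.2 = Ico (z.1 + min (z.2 * ell t (n1 W.1)) (t / 4 - ell t (n1 W.1)))
            (z.1 + min (z.2 * ell t (n1 W.1)) (t / 4 - ell t (n1 W.1)) + ell t (n1 W.1)) := by
          rw [← (congrArg Prod.snd hzW)]
        rw [e1, mem_Ico] at hi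
        have e2 : τ ≤ z.1 := by
          rcases hz.1 with h1 | h1 <;> rw [h1]
          · unfold zb
            omega
          · unfold za
            omega
        omega
      · rw [mem_singleton] at q1
        have e1 : W.2.2 = lWin t τ 0 b (n1 W.1) := congrArg Prod.snd q1
        rw [e1] at hi
        unfold lWin at hi
        rw [mem_image] at hi
        obtain ⟨z, -, hz⟩ := hi
        rw [← hz]
        unfold zb
        omega
    rcases mem_union.1 hW' with h1 | h1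
    · exact key 0 (by norm_num) h1
    · exact key 1 le_rfl h1
  -- the sum of the small probabilities
  have hq3 : 2 * (10 * ((L : ℝ) + 1)) ^ 6 * X * Real.exp (-x) + (2 * X + 4) * p ≤ Real.exp (-(L : ℝ) ^ cp) := by
    have hL9 : (1000000000 : ℝ) ≤ L := by exact_mod_cast (show 1000000000 ≤ L by omega)
    have k1 : (10 * ((L : ℝ) + 1)) ^ 6 ≤ (L : ℝ) ^ 7 := by
      have : (10 * ((L : ℝ) + 1)) ≤ 20 * (L : ℝ) := by linarith
      calc (10 * ((L : ℝ) + 1)) ^ 6 ≤ (20 * (L : ℝ)) ^ 6 := pow_le_pow_left₀ (by positivity) this 6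
        _ = 64000000 * (L : ℝ) ^ 6 := by ring
        _ ≤ (L : ℝ) * (L : ℝ) ^ 6 := mul_le_mul_of_nonneg_right (by linarith) (by positivity)
        _ = (L : ℝ) ^ 7 := by ring
    have k2 : (X : ℝ) ≤ x := w3
    have k3 : Real.exp (-x) ≤ p := ecb
    have k4 := hPE L (by omega)
    rw [← hp, Real.rpow_add hL0, ← hx] at k4
    have e9 : (L : ℝ) ^ (9 : ℝ) = (L : ℝ) ^ 9 := by
      rw [← Real.rpow_natCast]
      norm_num
    rw [e9] at k4
    refine le_trans ?_ k4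
    have k5 : 2 * (10 * ((L : ℝ) + 1)) ^ 6 * X * Real.exp (-x) ≤ 2 * (L : ℝ) ^ 7 * x * p := by gcongr
    have k6 : (2 * (X : ℝ) + 4) * p ≤ 6 * x * p := mul_le_mul_of_nonneg_right (by linarith) hp0.le
    have k7 : 2 * (L : ℝ) ^ 7 + 6 ≤ (L : ℝ) ^ 9 := by
      have k8 : (1 : ℝ) ≤ (L : ℝ) ^ 7 := one_le_pow₀ hLR
      have k9 : (8 : ℝ) ≤ (L : ℝ) ^ 2 := by nlinarith
      calc 2 * (L : ℝ) ^ 7 + 6 ≤ 8 * (L : ℝ) ^ 7 := by linarith
        _ ≤ (L : ℝ) ^ 2 * (L : ℝ) ^ 7 := mul_le_mul_of_nonneg_right k9 (by positivity)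
        _ = (L : ℝ) ^ 9 := by ring
    calc _ ≤ 2 * (L : ℝ) ^ 7 * x * p + 6 * x * p := add_le_add k5 k6
      _ = (2 * (L : ℝ) ^ 7 + 6) * (x * p) := by ring
      _ ≤ (L : ℝ) ^ 9 * (x * p) := mul_le_mul_of_nonneg_right k7 (by positivity)
      _ = (L : ℝ) ^ 9 * x * p := by ring
  have hX0 : (0 : ℝ) ≤ X := Nat.cast_nonneg _
  have hXp : 0 ≤ (X : ℝ) * p := mul_nonneg hX0 hp0.le
  -- the depth
  set M : ℝ := 2 * (0 / 4 + 2 * (0 + 4) * √((1 : ℕ) : ℝ) * ((1 : ℕ) * 1) + 6 * ((1 : ℕ) * 1)) + 3 * x with hM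
  have hM1 : M = 28 + 3 * x := by
    rw [hM]
    norm_num
  have hM2 : 1 ≤ M := by linarith
  have hM3 : M ≤ 4 * x := by linarith
  refine ⟨fun η S => ∃ W ∈ Ws, NX W N M η S, ?_, ?_, ?_⟩
  · intro S
    have e : {η : Env | ∃ W ∈ Ws, NX W N M η S} = ⋃ W ∈ Ws, {η | NX W N M η S} := by
      ext η
      simp only [Set.mem_ofPred_eq, Set.mem_iUnion, exists_prop]
    rw [e]
    exact Finset.measurableSet_biUnion _ fun W _ => w0.ms W N M S
  · -- the bad events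
    have hsub : P2 μ s N y (fun _ => 0) (fun η S S' => (NoMeet τ (τ + t / 4) S S' ∨ NoMeet (τ + t - t / 4) (τ + t) S S') ∧
        ¬ ∃ W ∈ Ws, NX W N M η S') ≤ P2 μ s N y (fun _ => 0) (fun η S S' => ¬ NSp μ s L N ε₁ S ∨ (¬ NSp μ s L N ε₁ S' ∨
          (Close μ s L N ε₁ (fun _ => 0) S S' ∨ ((η, S, S') ∈ BadD μ s N t τ 0 1 e0 E n1 ∅ (fun _ => 0) x ∨ (η, S, S') ∈ Bd)))) := by
      refine A12.P2_mono' fun η S S' hS hS' hSy hSy' hev => ?_
      by_contra hcon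
      rw [not_or, not_or, not_or, not_or, not_not, not_not] at hcon
      obtain ⟨c1, c2, c3, c4, c5⟩ := hcon
      refine hev.2 ?_
      have hreg : RegT N y (η, S, S') := ⟨hS, hS', hSy, hSy'⟩
      have hnb : (η, S, S') ∉ BadS μ s L N y t τ 1 0 1 1 1 e0 E n1 ∅ w 1 (2 * (0 + 4)) x (fun _ => 0) := by
        intro hbs
        rcases hbs with h1 | h1 | h1 | h1 | h1 | h1 | h1 | h1 | h1
        · exact h1 hreg
        · exact h1 (ra_zero L t τ 1 zero_le_one 1 _)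
        · exact h1 (ra_zero L t τ 1 zero_le_one 1 _)
        · exact h1 (w12 S hS c1)
        · exact h1 (w12 S' hS' c2)
        · refine h1 ?_
          rw [pat_empty]
          exact w13 τ 0 1 _ S S' hS hS' (fun i => by rw [sv_zero]; simp) c1 c2 c3
        · exact c4 h1
        · obtain ⟨l, l', -, h2⟩ := h1
          have e : ∑ b ∈ Ico l l', (fb μ s t τ ∅ η b ((fun _ => (0 : ℤ)) b) (pos S) - fb μ s t τ ∅ η b 0 (pos S) -
              Db μ s t τ ∅ ((1 : ℕ) : ℤ) η b 0 (pos S) / 4) = 0 := by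
            refine Finset.sum_eq_zero fun b _ => ?_
            rw [Db_zero]
            ring
          have h3 : (2 * (0 + 4)) * √((l' - l : ℕ) : ℝ) * (((1 : ℕ) : ℝ) * 1) <
            |∑ b ∈ Ico l l', (fb μ s t τ ∅ η b ((fun _ => (0 : ℤ)) b) (pos S) - fb μ s t τ ∅ η b 0 (pos S) -
              Db μ s t τ ∅ ((1 : ℕ) : ℤ) η b 0 (pos S) / 4)| := h2
          rw [e, abs_zero] at h3
          have : 0 ≤ (2 * (0 + 4)) * √((l' - l : ℕ) : ℝ) * (((1 : ℕ) : ℝ) * 1) := by positivity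
          linarith
        · obtain ⟨l, l', -, h2⟩ := h1
          have e : ∑ b ∈ Ico l l', (fb μ s t τ ∅ (shr 0 (pat t τ ∅ fun _ => 0) η) b (-((fun _ => (0 : ℤ)) b)) (pos S') -
              fb μ s t τ ∅ (shr 0 (pat t τ ∅ fun _ => 0) η) b 0 (pos S') -
              Db μ s t τ ∅ ((1 : ℕ) : ℤ) (shr 0 (pat t τ ∅ fun _ => 0) η) b 0 (pos S') / 4) = 0 := by
            refine Finset.sum_eq_zero fun b _ => ?_
            rw [Db_zero, neg_zero]
            ring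
          have h3 : (2 * (0 + 4)) * √((l' - l : ℕ) : ℝ) * (((1 : ℕ) : ℝ) * 1) <
            |∑ b ∈ Ico l l', (fb μ s t τ ∅ (shr 0 (pat t τ ∅ fun _ => 0) η) b (-((fun _ => (0 : ℤ)) b)) (pos S') -
              fb μ s t τ ∅ (shr 0 (pat t τ ∅ fun _ => 0) η) b 0 (pos S') -
              Db μ s t τ ∅ ((1 : ℕ) : ℤ) (shr 0 (pat t τ ∅ fun _ => 0) η) b 0 (pos S') / 4)| := h2
          rw [e, abs_zero] at h3
          have : 0 ≤ (2 * (0 + 4)) * √((l' - l : ℕ) : ℝ) * (((1 : ℕ) : ℝ) * 1) := by positivity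
          linarith
      have hnj := hNJ (η, S, S') hnb c5
      unfold NJ at hnj
      have hbad : BadJ t τ 0 1 (pat t τ ∅ fun _ => 0) S S' 0 ∨ BadJ t τ 0 1 (pat t τ ∅ fun _ => 0) S S' 1 := by
        rw [pat_empty]
        rcases hev.1 with h1 | h1
        · refine Or.inl (Or.inr ⟨one_pos, fun i hi1 hi2 hm => ?_⟩)
          unfold za at hi1 hi2
          exact h1 i (by omega) (by omega) (meet_zero.1 hm)
        · refine Or.inr (Or.inl ⟨one_pos, fun i hi1 hi2 hm => ?_⟩)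
          unfold zb at hi1 hi2
          exact h1 i (by omega) (by omega) (meet_zero.1 hm)
      obtain ⟨q, hq, hq1, hq2⟩ := exists_Runs (bad := BadJ t τ 0 1 (pat t τ ∅ fun _ => 0) S S') (k0 := 0) (k1 := 1) (k := 0)
        le_rfl one_pos hbad
      have hq3 := (Pool.Agent.W_7d29a1_Z86.mem_Runs.1 hq).2.1
      have hqa : q.1 = 0 := by omega
      have hqb : q.2 = 1 := by omega
      have hX0 : ∀ z : Env × Finset ℕ, |Xs ((1 : ℕ) : ℤ) (Ico q.1 q.2) (phi μ s t τ ∅ z)| ≤ 0 := fun z => by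
        rw [Xs_zero, abs_zero]
      have hfin : ∀ b, b ≤ 1 → BadJ t τ 0 1 (pat t τ ∅ fun _ => 0) S S' b → ∃ W ∈ Wd N t τ 0 n1 e0 E b, NX W N M η S' := by
        intro b hb hbb
        obtain ⟨a, b', -, -, g3, W, g4, -, g6⟩ := hnj q hq b (by omega) (by omega) hbb 0 (hX0 _) (hX0 _)
        refine ⟨W, g4, ?_⟩
        have g7 := g6 N M (by omega) (le_of_eq (by rw [hM, hqa, hqb]))
        rw [pat_empty, shr_zero] at g7
        exact g7
      rcases hbad with h1 | h1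
      · obtain ⟨W, g1, g2⟩ := hfin 0 (by norm_num) h1
        exact ⟨W, mem_union_left _ g1, g2⟩
      · obtain ⟨W, g1, g2⟩ := hfin 1 le_rfl h1
        exact ⟨W, mem_union_right _ g1, g2⟩
    refine hsub.trans ?_
    have b1 : P2 μ s N y (fun _ => 0) (fun _ S _ => ¬ NSp μ s L N ε₁ S) ≤ ENNReal.ofReal p := by
      rw [Pool.Agent.W_7d29a1_HZ.P2_fst (μ := μ) (s := s) hy0 hyN (fun _ => 0) (fun _ S => ¬ NSp μ s L N ε₁ S)]
      exact hns.trans (ENNReal.ofReal_le_ofReal ecn)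
    have b2 : P2 μ s N y (fun _ => 0) (fun _ _ S' => ¬ NSp μ s L N ε₁ S') ≤ ENNReal.ofReal p := by
      rw [Pool.Agent.W_7d29a1_HZ.P2_snd (μ := μ) (s := s) hy0 hyN (fun _ => 0) (fun _ S => ¬ NSp μ s L N ε₁ S)]
      exact hns.trans (ENNReal.ofReal_le_ofReal ecn)
    have b3 : P2 μ s N y (fun _ => 0) (fun _ S S' => Close μ s L N ε₁ (fun _ => 0) S S') ≤ ENNReal.ofReal p :=
      hfr.trans (ENNReal.ofReal_le_ofReal ecf)
    have b4 : P2 μ s N y (fun _ => 0) (fun η S S' => (η, S, S') ∈ BadD μ s N t τ 0 1 e0 E n1 ∅ (fun _ => 0) x) ≤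
        ENNReal.ofReal ((10 * ((L : ℝ) + 1)) ^ 6 * X * Real.exp (-x)) := by
      have g1 := badD_pr (μ := μ) (s := s) h.md_nonneg h.md_le_nat (V := fun _ => 0) (I := ∅) (k₁ := 1) hy0 hyN hNL hL1 w1
        (fun b => w11 τ 0 b) (lm := x) hx0.le
      rw [pat_empty] at g1
      exact (ENNReal.le_ofReal_iff_toReal_le (ne_top_of_le_ne_top ENNReal.one_ne_top (A12.P2_le_one hy0 hyN _ _)) (by positivity)).2 g1
    have b5 : P2 μ s N y (fun _ => 0) (fun η S S' => (η, S, S') ∈ Bd) ≤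
        ENNReal.ofReal (p + (10 * ((L : ℝ) + 1)) ^ 6 * X * Real.exp (-x)) := by
      have g1 : (sp2 μ s hy0 hyN fun _ => 0).pr Bd ≤ p + (10 * ((L : ℝ) + 1)) ^ 6 * X * Real.exp (-x) := hBd.trans (by linarith)
      exact (ENNReal.le_ofReal_iff_toReal_le (ne_top_of_le_ne_top ENNReal.one_ne_top (A12.P2_le_one hy0 hyN _ _)) (by positivity)).2 g1
    have c4 := (P2_or (μ := μ) (s := s) (N := N) (y := y) (v := fun _ => 0)
      (fun η S S' => (η, S, S') ∈ BadD μ s N t τ 0 1 e0 E n1 ∅ (fun _ => 0) x) (fun η S S' => (η, S, S') ∈ Bd)).trans (add_le_add b4 b5)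
    have c3 := (P2_or (μ := μ) (s := s) (N := N) (y := y) (v := fun _ => 0)
      (fun _ S S' => Close μ s L N ε₁ (fun _ => 0) S S') _).trans (add_le_add b3 c4)
    have c2 := (P2_or (μ := μ) (s := s) (N := N) (y := y) (v := fun _ => 0) (fun _ _ S' => ¬ NSp μ s L N ε₁ S') _).trans (add_le_add b2 c3)
    have c1 := (P2_or (μ := μ) (s := s) (N := N) (y := y) (v := fun _ => 0) (fun _ S _ => ¬ NSp μ s L N ε₁ S) _).trans (add_le_add b1 c2)
    refine c1.trans ?_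
    have hq0 : 0 ≤ (10 * ((L : ℝ) + 1)) ^ 6 * X * Real.exp (-x) := by positivity
    rw [← ENNReal.ofReal_add hq0 (by positivity), ← ENNReal.ofReal_add hp0.le (by positivity),
      ← ENNReal.ofReal_add hp0.le (by positivity), ← ENNReal.ofReal_add hp0.le (by positivity)]
    refine ENNReal.ofReal_le_ofReal ?_
    linarith
  · -- the price
    intro F hF hoff
    have hT : ∀ W ∈ Ws, P1 μ s N y (fun η S => F η S ∧ NX W N M η S) ≤
        ENNReal.ofReal (x * (EE' μ s t)⁻¹ * M) * P1 μ s N y F + ENNReal.ofReal p := by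
      intro W hW'
      have hoffW : OffRows W.2.2 F := fun η η' S hηη => hoff η η' S fun q hq => hηη q fun h1 => hq ⟨h1.1, hWr W hW' h1.2⟩
      rcases mem_union.1 hW' with h1 | h1
      · exact (w10 τ 0 0 W h1 N M hM2 F hF hoffW).trans (add_le_add le_rfl (ENNReal.ofReal_le_ofReal ecw))
      · exact (w10 τ 0 1 W h1 N M hM2 F hF hoffW).trans (add_le_add le_rfl (ENNReal.ofReal_le_ofReal ecw))
    have e1 : P1 μ s N y (fun η S => F η S ∧ ∃ W ∈ Ws, NX W N M η S) ≤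
        P1 μ s N y (fun η S => ∃ W ∈ Ws, F η S ∧ NX W N M η S) :=
      A12.P1_mono' fun η S _ _ ⟨g1, W, g2, g3⟩ => ⟨W, g2, g1, g3⟩
    refine e1.trans ((A12.P1_exists (μ := μ) (s := s) (N := N) (y := y) Ws fun W η S => F η S ∧ NX W N M η S).trans ?_)
    refine (Finset.sum_le_sum hT).trans ?_
    rw [Finset.sum_const, nsmul_eq_mul, mul_add, ← mul_assoc]
    have hE0 : 0 < EE' μ s t := lt_of_lt_of_le zero_lt_one (le_max_left _ _)
    have e2 : (Ws.card : ℝ≥0∞) ≤ ENNReal.ofReal (2 * X) := by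
      rw [show (2 * (X : ℝ)) = ((2 * X : ℕ) : ℝ) by push_cast; ring, ENNReal.ofReal_natCast]
      exact_mod_cast hWc
    refine add_le_add (mul_le_mul' ?_ le_rfl) ?_
    · refine (mul_le_mul' e2 le_rfl).trans ?_
      rw [← ENNReal.ofReal_mul (by positivity)]
      refine ENNReal.ofReal_le_ofReal ?_
      have e3 : 2 * (X : ℝ) * (x * (EE' μ s t)⁻¹ * M) ≤ 2 * x * (x * (EE' μ s t)⁻¹ * (4 * x)) := by
        have k2 : (X : ℝ) ≤ x := w3
        gcongr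
      have e4 : 2 * x * (x * (EE' μ s t)⁻¹ * (4 * x)) = 8 * x ^ 3 * (EE' μ s t)⁻¹ := by ring
      have e5 : 8 * x ^ 3 ≤ (L : ℝ) ^ ε := by
        have e6 : (L : ℝ) ^ ε = x ^ 5 := by
          rw [hx, ← Real.rpow_natCast, ← Real.rpow_mul hL0.le, hβd]
          congr 1
          push_cast
          ring
        rw [e6]
        have e7 : 8 ≤ x ^ 2 := by nlinarith
        calc 8 * x ^ 3 ≤ x ^ 2 * x ^ 3 := mul_le_mul_of_nonneg_right e7 (by positivity)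
          _ = x ^ 5 := by ring
      rw [e4] at e3
      exact e3.trans (mul_le_mul_of_nonneg_right e5 (by positivity))
    · refine (mul_le_mul' e2 le_rfl).trans ?_
      rw [← ENNReal.ofReal_mul (by positivity)]
      refine ENNReal.ofReal_le_ofReal ?_
      have : 0 ≤ 2 * (10 * ((L : ℝ) + 1)) ^ 6 * X * Real.exp (-x) := by positivity
      linarith

/-- **PAIR PRICE.** Two replicas with the same ends IN THE SAME ENVIRONMENT do not meet in `[i, i + l]` with probability at most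
`L ^ ε / EE' l`. -/
theorem pair86 (h : In μ s c C n₀) : ∀ ε θ : ℝ, 0 < ε → 0 < θ → ∃ δ c' : ℝ, 0 < δ ∧ 0 < c' ∧ ∃ L₀ : ℕ,
    ∀ L : ℕ, L₀ ≤ L → ∀ N l : ℕ, L ≤ 16 * N → N ≤ L → (L : ℝ) ^ θ ≤ l → ∀ i : ℕ, i + l ≤ N →
    ∀ y : ℤ, 0 ≤ y → y ≤ N → |(y : ℝ) - sl μ s * N| ≤ ((L : ℝ) ^ δ * wd' μ s N) →
    P2 μ s N y (fun _ => 0) (fun _ S S' => NoMeet i (i + l) S S') ≤
      ENNReal.ofReal ((L : ℝ) ^ ε * (EE' μ s l)⁻¹ + Real.exp (-(L : ℝ) ^ c')) := by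
  intro ε θ hε hθ
  obtain ⟨δ, c₁, hδ, hc₁, L₁, hP⟩ := pair_prod h (ε / 2) (θ / 2) (by positivity) (by positivity)
  obtain ⟨a, K, ha, ha1, hK, hE⟩ := EE'_pow h
  obtain ⟨c₂, hc₂, -, L₂, hX⟩ := Pool.Agent.W_7d29a1_Z.NumI77.pow_exp hc₁ 1
  obtain ⟨L₃, h3⟩ := Pool.Agent.W_7d29a1_Z.NumI77.large (show 0 < ε / 2 by positivity) (2 * K)
  obtain ⟨L₄, h4⟩ := Pool.Agent.W_7d29a1_Z.NumI77.large (show 0 < θ / 2 by positivity) 4
  refine ⟨δ, c₂, hδ, hc₂, L₁ + L₂ + L₃ + L₄ + 2, ?_⟩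
  intro L hL N l hLN hNL hlL i hiN y hy0 hyN hyc
  have hL2 : (2 : ℝ) ≤ L := by exact_mod_cast (show 2 ≤ L by omega)
  have hL0 : (0 : ℝ) < L := by linarith
  obtain ⟨-, g3, -⟩ := h3 L (by omega)
  obtain ⟨-, g4, -⟩ := h4 L (by omega)
  have e1 : (L : ℝ) ^ θ = (L : ℝ) ^ (θ / 2) * (L : ℝ) ^ (θ / 2) := by
    rw [← Real.rpow_add hL0]
    congr 1
    ring
  have hl16 : (16 : ℝ) ≤ l := by nlinarith
  have hl16' : 16 ≤ l := by exact_mod_cast hl16
  set t := l / 2 with ht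
  have ht1 : l ≤ 2 * t + 1 := by omega
  have ht2 : (l : ℝ) ≤ 2 * (t : ℝ) + 1 := by exact_mod_cast ht1
  have htL : (L : ℝ) ^ (θ / 2) ≤ t := by nlinarith
  obtain ⟨NT, hNT, hp1, hp2⟩ := hP L (by omega) N t hLN hNL htL i (by omega) y hy0 hyN hyc
  have q1 := hp2 (fun _ _ => True) (fun S => by simp) (fun _ _ _ _ => Iff.rfl)
  have q2 : P1 μ s N y (fun η S => True ∧ NT η S) ≤ ENNReal.ofReal ((L : ℝ) ^ (ε / 2) * (EE' μ s t)⁻¹) +
      ENNReal.ofReal (Real.exp (-(L : ℝ) ^ c₁)) := by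
    refine q1.trans (add_le_add ?_ le_rfl)
    calc _ ≤ ENNReal.ofReal ((L : ℝ) ^ (ε / 2) * (EE' μ s t)⁻¹) * 1 :=
          mul_le_mul' le_rfl (Pool.Agent.W_7d29a1_HZ.P1_le_one hy0 hyN _)
      _ = _ := mul_one _
  have q3 : P2 μ s N y (fun _ => 0) (fun _ S S' => NoMeet i (i + l) S S') ≤
      P2 μ s N y (fun _ => 0) (fun η S S' => (NoMeet i (i + t / 4) S S' ∨ NoMeet (i + t - t / 4) (i + t) S S') ∧ ¬ NT η S') +
      P2 μ s N y (fun _ => 0) (fun η _ S' => NT (shr 0 (fun _ => 0) η) S') := by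
    refine le_trans (A12.P2_mono' fun η S S' _ _ _ _ hev => ?_) (P2_or (μ := μ) (s := s) (N := N) (y := y) (v := fun _ => 0) _ _)
    by_cases hn : NT η S'
    · exact Or.inr (by rw [shr_zero]; exact hn)
    · exact Or.inl ⟨Or.inl fun k hk1 hk2 => hev k hk1 (by omega), hn⟩
  have q4 := Pool.Agent.W_7d29a1_HZ.P2_snd (μ := μ) (s := s) hy0 hyN (fun _ => 0) NT
  rw [q4] at q3
  have q5 : P1 μ s N y NT ≤ ENNReal.ofReal ((L : ℝ) ^ (ε / 2) * (EE' μ s t)⁻¹) + ENNReal.ofReal (Real.exp (-(L : ℝ) ^ c₁)) := by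
    refine le_trans (A12.P1_mono' fun η S _ _ hh => ?_) q2
    exact ⟨trivial, hh⟩
  refine (q3.trans (add_le_add hp1 q5)).trans ?_
  have hEt : 0 < EE' μ s t := lt_of_lt_of_le zero_lt_one (le_max_left _ _)
  have hEl : 0 < EE' μ s l := lt_of_lt_of_le zero_lt_one (le_max_left _ _)
  have hx0 : 0 < Real.exp (-(L : ℝ) ^ c₁) := Real.exp_pos _
  have hLe : 0 < (L : ℝ) ^ (ε / 2) := Real.rpow_pos_of_pos hL0 _
  rw [← ENNReal.ofReal_add (by positivity) hx0.le, ← ENNReal.ofReal_add hx0.le (by positivity)]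
  refine ENNReal.ofReal_le_ofReal ?_
  have g5 := hX L (by omega)
  rw [Real.rpow_one] at g5
  have g6 : 2 * Real.exp (-(L : ℝ) ^ c₁) ≤ L * Real.exp (-(L : ℝ) ^ c₁) := mul_le_mul_of_nonneg_right hL2 hx0.le
  have ht0 : (0 : ℝ) < t := by linarith
  obtain ⟨-, -, g7⟩ := hE t l (by omega) (by omega)
  have g8 : Real.sqrt ((l : ℝ) / t) ≤ 2 := by
    rw [show (2 : ℝ) = Real.sqrt 4 by rw [show (4 : ℝ) = 2 ^ 2 by norm_num, Real.sqrt_sq (by norm_num)]]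
    refine Real.sqrt_le_sqrt ?_
    rw [div_le_iff₀ ht0]
    linarith
  have g9 : EE' μ s l ≤ 2 * K * EE' μ s t := by
    calc _ ≤ K * Real.sqrt ((l : ℝ) / t) * EE' μ s t := g7
      _ ≤ K * 2 * EE' μ s t := by gcongr
      _ = _ := by ring
  have g10 : (EE' μ s t)⁻¹ ≤ 2 * K * (EE' μ s l)⁻¹ := by
    rw [inv_eq_one_div, div_le_iff₀ hEt]
    calc (1 : ℝ) = (EE' μ s l)⁻¹ * EE' μ s l := (inv_mul_cancel₀ hEl.ne').symm
      _ ≤ (EE' μ s l)⁻¹ * (2 * K * EE' μ s t) := mul_le_mul_of_nonneg_left g9 (by positivity)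
      _ = _ := by ring
  have g11 : (L : ℝ) ^ (ε / 2) * (EE' μ s t)⁻¹ ≤ (L : ℝ) ^ ε * (EE' μ s l)⁻¹ := by
    have e2 : (L : ℝ) ^ ε = (L : ℝ) ^ (ε / 2) * (L : ℝ) ^ (ε / 2) := by
      rw [← Real.rpow_add hL0]
      congr 1
      ring
    rw [e2]
    calc _ ≤ (L : ℝ) ^ (ε / 2) * (2 * K * (EE' μ s l)⁻¹) := mul_le_mul_of_nonneg_left g10 hLe.le
      _ = (L : ℝ) ^ (ε / 2) * (2 * K) * (EE' μ s l)⁻¹ := by ring
      _ ≤ _ := by gcongr
  linarith

end Pool.Agent.W_7d29a1_C0.P86
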