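import Pool.Agent.W_7d29a1_C0.Mod92B
import Pool.Agent.W_7d29a1_C0.CumB82
import Pool.Agent.W_7d29a1_C0.Pair86

/-!
MP_7d29a1_pr, [CURV0]: THE BRIDGE (helper36) between the annealed probabilities `P1`, `P2` of the pinned polymer (folder HZ), in which
the prices are stated, and the Gibbs means `gm` and replica averages `PP` of the model `Mod92` on the family `Q = Pn N y`.
-/

set_option autoImplicit false
set_option linter.unusedSectionVars false

namespace Pool.Agent.W_7d29a1_C0.Bri36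

open Finset MeasureTheory Pool.Agent.W_7d29a1_F Pool.Agent.W_7d29a1_X Pool.Agent.W_7d29a1_H Pool.Agent.W_7d29a1_HZ
open Pool.Agent.W_7d29a1_HS (In wd)
open Pool.Agent.W_7d29a1_C0.Mod92
open Pool.Agent.W_7d29a1_C0.P86 (NoMeet pair86)
open Pool.W7d29a1.C0 (gz gm gz_pos gz_ne gm_mono gm_const gm_nonneg PP PP_eq PP_mono PP_smul PP_nonneg PP_add)
open Pool.W7d29a1.C0.VT31
open scoped ENNReal

noncomputable section

variable {μ : Measure ℝ} {s : ℝ} {N y : ℕ}

open Classical in
/-- The indicator of a proposition. -/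
def ind (p : Prop) : ℝ := if p then 1 else 0

theorem ind_of {p : Prop} (h : p) : ind p = 1 := by
  unfold ind
  rw [if_pos h]

theorem ind_not {p : Prop} (h : ¬ p) : ind p = 0 := by
  unfold ind
  rw [if_neg h]

theorem ind_nonneg (p : Prop) : 0 ≤ ind p := by
  unfold ind
  split_ifs <;> norm_num

theorem ind_le_one (p : Prop) : ind p ≤ 1 := by
  unfold ind
  split_ifs <;> norm_num

theorem ind_mono {p q : Prop} (h : p → q) : ind p ≤ ind q := by
  by_cases hp : p
  · rw [ind_of hp, ind_of (h hp)]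
  · rw [ind_not hp]
    exact ind_nonneg q

theorem ind_or (p q : Prop) : ind (p ∨ q) ≤ ind p + ind q := by
  by_cases hp : p
  · rw [ind_of (Or.inl hp), ind_of hp]
    linarith [ind_nonneg q]
  · by_cases hq : q
    · rw [ind_of (Or.inr hq), ind_of hq]
      linarith [ind_nonneg p]
    · rw [ind_not (by tauto)]
      linarith [ind_nonneg p, ind_nonneg q]

/-! ### The pinned Gibbs weights -/

/-- The pinned Gibbs mean of `Mod92` is the mean under the weights `gp`. -/
theorem gm_Pn (η : Env) (φ : Finset ℕ → ℝ) :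
    gm (lw μ s η N (Pn N y)) (fun S => φ S.1) = ∑ S ∈ (range N).powerset, gp μ s η N y S * φ S := by
  have h : Pn N y = (range N).powerset.filter fun S => pos S N = (y : ℤ) := by
    ext S
    rw [mem_powersetCard, mem_filter, mem_powerset]
    refine and_congr_right fun h => ?_
    rw [pos_card h]
    exact Int.natCast_inj.symm
  unfold gm
  rw [gz_Pn]
  have h1 : ∑ S : Px (Pn N y), Real.exp (lw μ s η N (Pn N y) S) * φ S.1 = ∑ S ∈ Pn N y, pth μ s η N S * φ S := by
    rw [← sum_Px fun S => pth μ s η N S * φ S]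
    exact sum_congr rfl fun S _ => by rw [exp_lw]
  rw [h1, h, sum_filter, sum_div]
  refine sum_congr rfl fun S _ => ?_
  unfold gp
  split_ifs with hS
  · ring
  · ring

/-- The two replica average is an iterated mean. -/
theorem PP_eq_gm {X : Type*} [Fintype X] [Nonempty X] (w : X → ℝ) (K : X → X → ℝ) : PP w K = gm w fun x => gm w (K x) := by
  rw [PP_eq]
  unfold gm
  have e : ∑ x, Real.exp (w x) * ((∑ x', Real.exp (w x') * K x x') / gz w) =
      (∑ x, ∑ x', Real.exp (w x) * Real.exp (w x') * K x x') / gz w := by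
    rw [sum_div]
    refine sum_congr rfl fun x _ => ?_
    rw [mul_div_assoc', mul_sum]
    congr 1
    exact sum_congr rfl fun x' _ => by ring
  rw [e, div_div, ← sq]

/-- The two replica average. -/
theorem PP_Pn [Nonempty (Px (Pn N y))] (η : Env) (φ : Finset ℕ → Finset ℕ → ℝ) :
    PP (lw μ s η N (Pn N y)) (fun S S' => φ S.1 S'.1) =
      ∑ S ∈ (range N).powerset, ∑ S' ∈ (range N).powerset, gp μ s η N y S * gp μ s η N y S' * φ S S' := by
  have h1 : PP (lw μ s η N (Pn N y)) (fun S S' => φ S.1 S'.1) =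
      gm (lw μ s η N (Pn N y)) fun S => gm (lw μ s η N (Pn N y)) fun S' => φ S.1 S'.1 := PP_eq_gm _ _
  rw [h1]
  have h2 : (fun S : Px (Pn N y) => gm (lw μ s η N (Pn N y)) fun S' => φ S.1 S'.1) =
      fun S : Px (Pn N y) => (fun T => ∑ S' ∈ (range N).powerset, gp μ s η N y S' * φ T S') S.1 := by
    funext S
    exact gm_Pn η fun S' => φ S.1 S'
  rw [h2]
  refine (gm_Pn η fun T => ∑ S' ∈ (range N).powerset, gp μ s η N y S' * φ T S').trans ?_
  refine sum_congr rfl fun S _ => ?_
  rw [mul_sum]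
  refine sum_congr rfl fun S' _ => ?_
  ring

/-! ### Events of one replica -/

theorem meas_ind {A : Env → Prop} (hA : MeasurableSet {η | A η}) : Measurable fun η => ind (A η) := by
  classical
  unfold ind
  exact Measurable.ite hA measurable_const measurable_const

/-- **The annealed probability of one replica is the mean of the Gibbs probability.** -/
theorem P1_int [IsProbabilityMeasure μ] {A : Env → Finset ℕ → Prop} (hA : Ms A) :
    P1 μ s N y A = ENNReal.ofReal (∫ η, gm (lw μ s η N (Pn N y)) (fun S => ind (A η S.1)) ∂(law μ)) := by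
  classical
  rw [P1_eq]
  have e1 : ∀ S, ∫⁻ η in {η | A η S}, ENNReal.ofReal (gp μ s η N y S) ∂law μ =
      ∫⁻ η, ENNReal.ofReal (gp μ s η N y S * ind (A η S)) ∂law μ := by
    intro S
    rw [← lintegral_indicator (hA S)]
    refine lintegral_congr fun η => ?_
    by_cases hη : A η S
    · rw [Set.indicator_of_mem (show η ∈ {η | A η S} from hη), ind_of hη, mul_one]
    · rw [Set.indicator_of_notMem (show η ∉ {η | A η S} from hη), ind_not hη, mul_zero, ENNReal.ofReal_zero]
  simp only [e1]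
  have e3 := lintegral_finsetSum (μ := law μ) ((range N).powerset) (f := fun S η => ENNReal.ofReal (gp μ s η N y S * ind (A η S)))
    fun S _ => ((measurable_gp N y S).mul (meas_ind (hA S))).ennreal_ofReal
  rw [← e3]
  have hnn : ∀ η, 0 ≤ ∑ S ∈ (range N).powerset, gp μ s η N y S * ind (A η S) := fun η =>
    sum_nonneg fun S _ => mul_nonneg (gp_nonneg _ _ _ _) (ind_nonneg _)
  have hle : ∀ η, ∑ S ∈ (range N).powerset, gp μ s η N y S * ind (A η S) ≤ 1 := by
    intro η
    calc _ ≤ ∑ S ∈ (range N).powerset, gp μ s η N y S :=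
          sum_le_sum fun S _ => mul_le_of_le_one_right (gp_nonneg _ _ _ _) (ind_le_one _)
      _ ≤ 1 := by
          by_cases hy : y ≤ N
          · exact (gp_sum η (by positivity) (by exact_mod_cast hy)).le
          · have e : ∀ S ∈ (range N).powerset, gp μ s η N y S = 0 := fun S hS =>
              gp_of_ne η fun h => hy (by
                rw [pos_card (mem_powerset.1 hS)] at h
                have := card_le_card (mem_powerset.1 hS)
                rw [card_range] at this
                have : S.card = y := by exact_mod_cast h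
                omega)
            rw [sum_eq_zero e]
            norm_num
  have hm : Measurable fun η => ∑ S ∈ (range N).powerset, gp μ s η N y S * ind (A η S) :=
    Finset.measurable_fun_sum _ fun S _ => (measurable_gp N y S).mul (meas_ind (hA S))
  have hi : Integrable (fun η => ∑ S ∈ (range N).powerset, gp μ s η N y S * ind (A η S)) (law μ) :=
    Integrable.of_bound hm.aestronglyMeasurable 1 (Filter.Eventually.of_forall fun η => by
      rw [Real.norm_eq_abs, abs_of_nonneg (hnn η)]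
      exact hle η)
  have e2 : (fun η => gm (lw μ s η N (Pn N y)) (fun S => ind (A η S.1))) =
      fun η => ∑ S ∈ (range N).powerset, gp μ s η N y S * ind (A η S) := by
    funext η
    exact gm_Pn η fun S => ind (A η S)
  rw [e2, ofReal_integral_eq_lintegral_ofReal hi (Filter.Eventually.of_forall hnn)]
  refine lintegral_congr fun η => ?_
  rw [ENNReal.ofReal_sum_of_nonneg fun S _ => mul_nonneg (gp_nonneg _ _ _ _) (ind_nonneg _)]

/-- **The annealed probability of two replicas is the mean of the replica average.** -/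
theorem P2_int [IsProbabilityMeasure μ] [Nonempty (Px (Pn N y))] {A : Env → Finset ℕ → Finset ℕ → Prop}
    (hA : ∀ S S', MeasurableSet {η | A η S S'}) :
    P2 μ s N y (fun _ => 0) A = ENNReal.ofReal (∫ η, PP (lw μ s η N (Pn N y)) (fun S S' => ind (A η S.1 S'.1)) ∂(law μ)) := by
  classical
  rw [P2_eq]
  have e0 : ∀ η : Env, shr 0 (fun _ => 0) η = η := fun η => P86.shr_zero 0 η
  have e1 : ∀ S S', ∫⁻ η in {η | A η S S'}, ENNReal.ofReal (gp μ s η N y S * gp μ s (shr 0 (fun _ => 0) η) N y S') ∂law μ =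
      ∫⁻ η, ENNReal.ofReal (gp μ s η N y S * gp μ s η N y S' * ind (A η S S')) ∂law μ := by
    intro S S'
    rw [← lintegral_indicator (hA S S')]
    refine lintegral_congr fun η => ?_
    by_cases hη : A η S S'
    · rw [Set.indicator_of_mem (show η ∈ {η | A η S S'} from hη), ind_of hη, mul_one, e0]
    · rw [Set.indicator_of_notMem (show η ∉ {η | A η S S'} from hη), ind_not hη, mul_zero, ENNReal.ofReal_zero]
  simp only [e1]
  have hm1 : ∀ S S', Measurable fun η => gp μ s η N y S * gp μ s η N y S' * ind (A η S S') := fun S S' =>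
    ((measurable_gp N y S).mul (measurable_gp N y S')).mul (meas_ind (hA S S'))
  have hp1 : ∀ η S S', 0 ≤ gp μ s η N y S * gp μ s η N y S' * ind (A η S S') := fun η S S' =>
    mul_nonneg (mul_nonneg (gp_nonneg _ _ _ _) (gp_nonneg _ _ _ _)) (ind_nonneg _)
  have e3 : ∀ S, ∑ S' ∈ (range N).powerset, ∫⁻ η, ENNReal.ofReal (gp μ s η N y S * gp μ s η N y S' * ind (A η S S')) ∂law μ =
      ∫⁻ η, ∑ S' ∈ (range N).powerset, ENNReal.ofReal (gp μ s η N y S * gp μ s η N y S' * ind (A η S S')) ∂law μ := fun S => by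
    rw [lintegral_finsetSum _ fun S' _ => (hm1 S S').ennreal_ofReal]
  simp only [e3]
  rw [← lintegral_finsetSum _ fun S _ => Finset.measurable_fun_sum _ fun S' _ => (hm1 S S').ennreal_ofReal]
  have hnn : ∀ η, 0 ≤ ∑ S ∈ (range N).powerset, ∑ S' ∈ (range N).powerset, gp μ s η N y S * gp μ s η N y S' * ind (A η S S') :=
    fun η => sum_nonneg fun S _ => sum_nonneg fun S' _ => hp1 η S S'
  have e2 : (fun η => PP (lw μ s η N (Pn N y)) (fun S S' => ind (A η S.1 S'.1))) =
      fun η => ∑ S ∈ (range N).powerset, ∑ S' ∈ (range N).powerset, gp μ s η N y S * gp μ s η N y S' * ind (A η S S') := by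
    funext η
    exact PP_Pn η fun S S' => ind (A η S S')
  have hle : ∀ η, ∑ S ∈ (range N).powerset, ∑ S' ∈ (range N).powerset, gp μ s η N y S * gp μ s η N y S' * ind (A η S S') ≤ 1 := by
    intro η
    have h := PP_mono (lw μ s η N (Pn N y)) (Q := fun S S' => ind (A η S.1 S'.1)) (R := fun _ _ => (1 : ℝ) * 1)
      fun S S' => by
        rw [one_mul]
        exact ind_le_one _
    rw [Pool.W7d29a1.C0.PP_mul _ (fun _ => 1) (fun _ => 1), gm_const, one_mul] at h
    rw [← congrFun e2 η]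
    exact h
  have hm : Measurable fun η => ∑ S ∈ (range N).powerset, ∑ S' ∈ (range N).powerset, gp μ s η N y S * gp μ s η N y S' * ind (A η S S') :=
    Finset.measurable_fun_sum _ fun S _ => Finset.measurable_fun_sum _ fun S' _ => hm1 S S'
  have hi : Integrable (fun η => ∑ S ∈ (range N).powerset, ∑ S' ∈ (range N).powerset,
      gp μ s η N y S * gp μ s η N y S' * ind (A η S S')) (law μ) :=
    Integrable.of_bound hm.aestronglyMeasurable 1 (Filter.Eventually.of_forall fun η => by
      rw [Real.norm_eq_abs, abs_of_nonneg (hnn η)]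
      exact hle η)
  rw [e2, ofReal_integral_eq_lintegral_ofReal hi (Filter.Eventually.of_forall hnn)]
  refine lintegral_congr fun η => ?_
  rw [ENNReal.ofReal_sum_of_nonneg fun S _ => sum_nonneg fun S' _ => hp1 η S S']
  exact sum_congr rfl fun S _ => by rw [ENNReal.ofReal_sum_of_nonneg fun S' _ => hp1 η S S']

/-! ### The outer space with the signs -/

/-- A functional of the environment alone. -/
theorem int_fst [IsProbabilityMeasure μ] {Φ : Env → ℝ} (hm : Measurable Φ) {M : ℝ} (hb : ∀ η, |Φ η| ≤ M) :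
    ∫ ω, Φ ω.1 ∂(Pm μ N) = ∫ η, Φ η ∂(law μ) := by
  have hi : Integrable Φ (law μ) := Integrable.of_bound hm.aestronglyMeasurable M (Filter.Eventually.of_forall fun η => by
    rw [Real.norm_eq_abs]
    exact hb η)
  have e : ∀ A ∈ (range N).powerset, ∫ η, Φ ((η, A) : Env × Finset ℕ).1 ∂(law μ) = ∫ η, Φ η ∂(law μ) := fun A _ => rfl
  rw [int_Pm (Φ := fun ω => Φ ω.1) (fun A _ => hi) fun A => hm, sum_congr rfl e, sum_const, card_powerset, card_range, nsmul_eq_mul]
  push_cast
  rw [← mul_assoc, inv_mul_cancel₀ (by positivity), one_mul]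

theorem meas_gm_ind {A : Env → Finset ℕ → Prop} (hA : Ms A) :
    Measurable fun η => gm (lw μ s η N (Pn N y)) (fun S => ind (A η S.1)) :=
  meas_gm (fun x => meas_lw x) fun x => meas_ind (hA x.1)

theorem abs_gm_ind (η : Env) [Nonempty (Px (Pn N y))] (A : Finset ℕ → Prop) :
    |gm (lw μ s η N (Pn N y)) (fun S => ind (A S.1))| ≤ 1 := by
  rw [abs_of_nonneg (gm_nonneg _ fun S => ind_nonneg _)]
  calc _ ≤ gm (lw μ s η N (Pn N y)) (fun _ => 1) := gm_mono _ fun S => ind_le_one _
    _ = 1 := gm_const _ 1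

/-- **One replica, with the signs.** -/
theorem int_P1 [IsProbabilityMeasure μ] [Nonempty (Px (Pn N y))] {A : Env → Finset ℕ → Prop} (hA : Ms A) :
    ∫ ω, gm (wm μ s N (Pn N y) ω) (fun S => ind (A ω.1 S.1)) ∂(Pm μ N) = (P1 μ s N y A).toReal := by
  rw [P1_int hA, ENNReal.toReal_ofReal (integral_nonneg fun η => gm_nonneg _ fun S => ind_nonneg _)]
  exact int_fst (Φ := fun η => gm (lw μ s η N (Pn N y)) (fun S => ind (A η S.1))) (meas_gm_ind hA) fun η => abs_gm_ind η (A η)

theorem meas_PP {Ω : Type*} [MeasurableSpace Ω] {X : Type*} [Fintype X] [Nonempty X] {w : Ω → X → ℝ} {Q : Ω → X → X → ℝ}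
    (hw : ∀ x, Measurable fun ω => w ω x) (hQ : ∀ x x', Measurable fun ω => Q ω x x') : Measurable fun ω => PP (w ω) (Q ω) := by
  simp only [PP_eq]
  refine Measurable.div (Finset.measurable_fun_sum _ fun x _ => Finset.measurable_fun_sum _ fun x' _ => ?_) ?_
  · exact ((hw x).exp.mul (hw x').exp).mul (hQ x x')
  · exact (meas_gz hw).pow_const 2

theorem abs_PP_le {X : Type*} [Fintype X] [Nonempty X] (w : X → ℝ) {Q : X → X → ℝ} {M : ℝ} (h : ∀ x x', |Q x x'| ≤ M) :
    |PP w Q| ≤ M := by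
  have h1 : ∀ c : ℝ, PP w (fun _ _ => c) = c := fun c => by
    have h := Pool.W7d29a1.C0.PP_mul w (fun _ => c) (fun _ => 1)
    rw [gm_const, gm_const, mul_one] at h
    simpa using h
  rw [abs_le]
  constructor
  · rw [← h1 (-M)]
    exact PP_mono w fun x x' => (abs_le.1 (h x x')).1
  · rw [← h1 M]
    exact PP_mono w fun x x' => (abs_le.1 (h x x')).2

/-- **Two replicas, with the signs.** -/
theorem int_P2 [IsProbabilityMeasure μ] [Nonempty (Px (Pn N y))] {A : Env → Finset ℕ → Finset ℕ → Prop}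
    (hA : ∀ S S', MeasurableSet {η | A η S S'}) :
    ∫ ω, PP (wm μ s N (Pn N y) ω) (fun S S' => ind (A ω.1 S.1 S'.1)) ∂(Pm μ N) = (P2 μ s N y (fun _ => 0) A).toReal := by
  rw [P2_int hA, ENNReal.toReal_ofReal (integral_nonneg fun η => PP_nonneg _ fun S S' => ind_nonneg _)]
  refine int_fst (Φ := fun η => PP (lw μ s η N (Pn N y)) (fun S S' => ind (A η S.1 S'.1)))
    (meas_PP (fun x => meas_lw x) fun x x' => meas_ind (hA x.1 x'.1)) (M := 1) fun η => ?_
  refine abs_PP_le _ fun x x' => ?_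
  rw [abs_of_nonneg (ind_nonneg _)]
  exact ind_le_one _

/-- **The price of a pair in the model**: two replicas do not meet in `[i, i + l]`. -/
theorem pair36 [IsProbabilityMeasure μ] {c C : ℝ} {n₀ : ℕ} (h : In μ s c C n₀) : ∀ ε θ : ℝ, 0 < ε → 0 < θ →
    ∃ δ c' : ℝ, 0 < δ ∧ 0 < c' ∧ ∃ L₀ : ℕ,
    ∀ L : ℕ, L₀ ≤ L → ∀ N l : ℕ, L ≤ 16 * N → N ≤ L → (L : ℝ) ^ θ ≤ l → ∀ i : ℕ, i + l ≤ N →
    ∀ y : ℕ, y ≤ N → |(y : ℝ) - sl μ s * N| ≤ ((L : ℝ) ^ δ * wd' μ s N) →
    ∫ ω, PP (wm μ s N (Pn N y) ω) (fun S S' => ind (NoMeet i (i + l) S.1 S'.1)) ∂(Pm μ N) ≤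
      (L : ℝ) ^ ε * (EE' μ s l)⁻¹ + Real.exp (-(L : ℝ) ^ c') := by
  intro ε θ hε hθ
  obtain ⟨δ, c', hδ, hc', L₀, hP⟩ := pair86 h ε θ hε hθ
  refine ⟨δ, c', hδ, hc', L₀, ?_⟩
  intro L hL N l hLN hNL hlL i hiN y hyN hyc
  haveI := ne_Pn hyN
  have h1 := hP L hL N l hLN hNL hlL i hiN (y : ℤ) (by positivity) (by exact_mod_cast hyN) (by push_cast; exact hyc)
  rw [int_P2 (A := fun _ S S' => NoMeet i (i + l) S S') fun S S' => by simp]
  have h2 : 0 ≤ (L : ℝ) ^ ε * (EE' μ s l)⁻¹ + Real.exp (-(L : ℝ) ^ c') := by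
    have : 0 ≤ EE' μ s l := le_trans zero_le_one (le_max_left _ _)
    positivity
  exact ENNReal.toReal_le_of_le_ofReal h2 h1

/-- Regularity of the paths of the model: off `NSp` the mass is tiny. -/
theorem ns36 [IsProbabilityMeasure μ] {c C : ℝ} {n₀ : ℕ} (h : In μ s c C n₀) : ∀ ε : ℝ, 0 < ε →
    ∃ δ c' : ℝ, 0 < δ ∧ 0 < c' ∧ ∃ L₀ : ℕ,
    ∀ L : ℕ, L₀ ≤ L → ∀ N : ℕ, L ≤ 16 * N → N ≤ L →
    ∀ y : ℕ, y ≤ N → |(y : ℝ) - sl μ s * N| ≤ ((L : ℝ) ^ δ * wd' μ s N) →
    ∫ ω, gm (wm μ s N (Pn N y) ω) (fun S => ind (¬ NSp μ s L N ε S.1)) ∂(Pm μ N) ≤ Real.exp (-(L : ℝ) ^ c') := by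
  intro ε hε
  obtain ⟨δ, c', hδ, hc', L₀, hP⟩ := ns h ε hε
  refine ⟨δ, c', hδ, hc', L₀, ?_⟩
  intro L hL N hLN hNL y hyN hyc
  haveI := ne_Pn hyN
  have h1 := hP L hL N hLN hNL (y : ℤ) (by positivity) (by exact_mod_cast hyN) (by push_cast; exact hyc)
  rw [int_P1 (A := fun _ S => ¬ NSp μ s L N ε S) fun S => by simp]
  exact ENNReal.toReal_le_of_le_ofReal (Real.exp_pos _).le h1

end

end Pool.Agent.W_7d29a1_C0.Bri36
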