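import Pool.Agent.W_7d29a1_C0.Loc86
import Pool.Agent.W_7d29a1_C0.Blk18

/-!
C0, helper86: THE PRODUCT PRICE. Places `(t i, τ i)`, `i < k`, the larger ones first: the rows `[τ i, τ i + t i)` of the place `i` are far
(`64 t i'`) from the places `i' > i`. A base path `S` and replicas `S i`, independent given `S`, each one drawn in the same environment GIVEN
`S` OUTSIDE OF A BLOCK `[a i, b i)` (the whole polymer: `[0, N)`), which have a gap of duration at most `32 t i` around the window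
`[τ i, τ i + t i / 4]`: price `∏ i, L ^ ε / EE' (t i)`, also times every event of the base path which does not see the rows of the places.
-/

set_option autoImplicit false

namespace Pool.Agent.W_7d29a1_C0.P86

open MeasureTheory ProbabilityTheory Filter Topology Finset
open Pool.Agent.W_7d29a1_F Pool.Agent.W_7d29a1_X Pool.Agent.W_7d29a1_h4g Pool.Agent.W_7d29a1_H
open Pool.Agent.W_7d29a1_HS (In wd md)
open Pool.Agent.W_7d29a1_HZ Pool.Agent.W_7d29a1_HZ.R72 Pool.Agent.W_7d29a1_Z.Asm72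
open Pool.Agent.W_7d29a1_HZ.Z86
open Pool.Agent.W_7d29a1_C0.Mod92 (Px Pn lw ps pJ ne_Pn ps_Pn pos_card)
open Pool.Agent.W_7d29a1_C0.Blk18 (spl blk18_set full_Pn gm_Pn pos_spl_mid)
open Pool.W7d29a1.C0 (gm gz gz_pos)
open Pool.W7d29a1.C0.VT31 (Mp cE gm_mul_cE)
open scoped ENNReal

variable {μ : Measure ℝ} {s : ℝ} {N : ℕ} {y : ℤ}

/-! ### The product price for events of one path -/

theorem off_and {J : Finset ℕ} {A B : Env → Finset ℕ → Prop} (hA : OffRows J A) (hB : OffRows J B) :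
    OffRows J fun η S => A η S ∧ B η S := fun η η' S h => and_congr (hA η η' S h) (hB η η' S h)

theorem off_all {ι : Type*} {J : Finset ℕ} {A : ι → Env → Finset ℕ → Prop} (hA : ∀ i, OffRows J (A i)) :
    OffRows J fun η S => ∀ i, A i η S := fun η η' S h => forall_congr' fun i => hA i η η' S h

theorem ms_and {A B : Env → Finset ℕ → Prop} (hA : Ms A) (hB : Ms B) : Ms fun η S => A η S ∧ B η S :=
  fun S => (hA S).inter (hB S)

theorem ms_all {ι : Type*} [Countable ι] {A : ι → Env → Finset ℕ → Prop} (hA : ∀ i, Ms (A i)) : Ms fun η S => ∀ i, A i η S := by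
  intro S
  have e : {η : Env | ∀ i, A i η S} = ⋂ i, {η | A i η S} := by
    ext η
    simp only [Set.mem_ofPred_eq, Set.mem_iInter]
  rw [e]
  exact MeasurableSet.iInter fun i => hA i S

/-- **The product price, abstract.** -/
theorem prodP [IsProbabilityMeasure μ] : ∀ (k : ℕ) (NT : Fin k → Env → Finset ℕ → Prop) (J : Fin k → Finset ℕ) (r : Fin k → ℝ≥0∞)
    (p : ℝ≥0∞), (∀ i, Ms (NT i)) →
    (∀ i, ∀ F : Env → Finset ℕ → Prop, Ms F → OffRows (J i) F →
      P1 μ s N y (fun η S => F η S ∧ NT i η S) ≤ r i * P1 μ s N y F + p) →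
    (∀ i i', i < i' → OffRows (J i) (NT i')) → ∀ F : Env → Finset ℕ → Prop, Ms F → (∀ i, OffRows (J i) F) →
    P1 μ s N y (fun η S => F η S ∧ ∀ i, NT i η S) ≤ (∏ i, r i) * P1 μ s N y F + k * p := by
  intro k
  induction k with
  | zero =>
    intro NT J r p _ _ _ F _ _
    simp only [univ_eq_empty, prod_empty, one_mul, Nat.cast_zero, zero_mul, add_zero]
    exact A12.P1_mono' fun η S _ _ h => h.1
  | succ k ih =>
    intro NT J r p hms hpr hoff F hF hFo
    have hF' : Ms fun η S => F η S ∧ ∀ i : Fin k, NT i.succ η S := ms_and hF (ms_all fun i => hms i.succ)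
    have hF'o : OffRows (J 0) fun η S => F η S ∧ ∀ i : Fin k, NT i.succ η S :=
      off_and (hFo 0) (off_all fun i => hoff 0 i.succ (Fin.succ_pos i))
    have h1 := hpr 0 _ hF' hF'o
    have h2 := ih (fun i => NT i.succ) (fun i => J i.succ) (fun i => r i.succ) p (fun i => hms _) (fun i => hpr _)
      (fun i i' hi => hoff _ _ (Fin.succ_lt_succ_iff.2 hi)) F hF (fun i => hFo _)
    have h3 : P1 μ s N y (fun η S => F η S ∧ ∀ i, NT i η S) ≤ min (r 0) 1 * P1 μ s N y (fun η S => F η S ∧ ∀ i : Fin k, NT i.succ η S) + p := by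
      have e : P1 μ s N y (fun η S => F η S ∧ ∀ i, NT i η S) ≤
          P1 μ s N y (fun η S => (F η S ∧ ∀ i : Fin k, NT i.succ η S) ∧ NT 0 η S) :=
        A12.P1_mono' fun η S _ _ h => ⟨⟨h.1, fun i => h.2 _⟩, h.2 0⟩
      rcases le_total (r 0) 1 with h4 | h4
      · rw [min_eq_left h4]
        exact e.trans h1
      · rw [min_eq_right h4, one_mul]
        exact (e.trans (A12.P1_mono' fun η S _ _ h => h.1)).trans le_self_add
    refine h3.trans ?_
    rw [Fin.prod_univ_succ]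
    calc min (r 0) 1 * P1 μ s N y (fun η S => F η S ∧ ∀ i : Fin k, NT i.succ η S) + p
        ≤ min (r 0) 1 * ((∏ i : Fin k, r i.succ) * P1 μ s N y F + k * p) + p := by gcongr
      _ = min (r 0) 1 * ((∏ i : Fin k, r i.succ) * P1 μ s N y F) + min (r 0) 1 * (k * p) + p := by rw [mul_add]
      _ ≤ r 0 * ((∏ i : Fin k, r i.succ) * P1 μ s N y F) + 1 * (k * p) + p :=
          add_le_add (add_le_add (mul_le_mul' (min_le_left _ _) le_rfl) (mul_le_mul' (min_le_right _ _) le_rfl)) le_rfl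
      _ = _ := by
          push_cast
          ring

/-! ### Averages of functions of the environment and of one path -/

open Classical in
/-- The indicator. -/
noncomputable def ind (A : Prop) : ℝ≥0∞ := if A then 1 else 0

theorem ind_le (A : Prop) : ind A ≤ 1 := by
  unfold ind
  split_ifs
  · exact le_rfl
  · exact zero_le_one

theorem ind_of {A : Prop} (h : A) : ind A = 1 := if_pos h

theorem ind_not {A : Prop} (h : ¬ A) : ind A = 0 := if_neg h

/-- The annealed average of a function of the environment and of one path. -/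
noncomputable def Q1 (μ : Measure ℝ) (s : ℝ) (N : ℕ) (y : ℤ) (f : Env → Finset ℕ → ℝ≥0∞) : ℝ≥0∞ :=
  ∫⁻ η, ∑ S ∈ (range N).powerset, ENNReal.ofReal (gp μ s η N y S) * f η S ∂law μ

theorem Q1_mono {f g : Env → Finset ℕ → ℝ≥0∞} (h : ∀ η S, S ⊆ range N → pos S N = y → f η S ≤ g η S) :
    Q1 μ s N y f ≤ Q1 μ s N y g := by
  refine lintegral_mono fun η => sum_le_sum fun S hS => ?_
  by_cases hy : pos S N = y
  · exact mul_le_mul' le_rfl (h η S (mem_powerset.1 hS) hy)
  · have : gp μ s η N y S = 0 := by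
      unfold gp
      rw [if_neg hy]
    rw [this, ENNReal.ofReal_zero, zero_mul, zero_mul]

theorem Q1_ind [IsProbabilityMeasure μ] {A : Env → Finset ℕ → Prop} (hA : Ms A) : Q1 μ s N y (fun η S => ind (A η S)) = P1 μ s N y A := by
  rw [Pool.Agent.W_7d29a1_HZ.P1_eq]
  unfold Q1
  rw [lintegral_finsetSum' _ fun S _ => ?_]
  · refine sum_congr rfl fun S _ => ?_
    rw [← lintegral_indicator (hA S)]
    refine lintegral_congr fun η => ?_
    show ENNReal.ofReal (gp μ s η N y S) * ind (A η S) = _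
    by_cases h : A η S
    · rw [ind_of h, mul_one, Set.indicator_of_mem (show η ∈ {η | A η S} from h)]
    · rw [ind_not h, mul_zero, Set.indicator_of_notMem (show η ∉ {η | A η S} from h)]
  · refine AEMeasurable.mul (Measurable.aemeasurable ?_) (Measurable.aemeasurable ?_)
    · exact (Pool.Agent.W_7d29a1_HZ.measurable_gp N y S).ennreal_ofReal
    · unfold ind
      exact Measurable.ite (hA S) measurable_const measurable_const

theorem Q1_add [IsProbabilityMeasure μ] {f g : Env → Finset ℕ → ℝ≥0∞} (hf : ∀ S, Measurable fun η => f η S) :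
    Q1 μ s N y (fun η S => f η S + g η S) = Q1 μ s N y f + Q1 μ s N y g := by
  unfold Q1
  rw [← lintegral_add_left]
  · refine lintegral_congr fun η => ?_
    rw [← sum_add_distrib]
    exact sum_congr rfl fun S _ => mul_add _ _ _
  · exact Finset.measurable_sum _ fun S _ => (Pool.Agent.W_7d29a1_HZ.measurable_gp N y S).ennreal_ofReal.mul (hf S)

theorem Q1_sum [IsProbabilityMeasure μ] {ι : Type*} (I : Finset ι) {f : ι → Env → Finset ℕ → ℝ≥0∞}
    (hf : ∀ i S, Measurable fun η => f i η S) :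
    Q1 μ s N y (fun η S => ∑ i ∈ I, f i η S) = ∑ i ∈ I, Q1 μ s N y (f i) := by
  unfold Q1
  rw [← lintegral_finsetSum]
  · refine lintegral_congr fun η => ?_
    rw [sum_comm]
    exact sum_congr rfl fun S _ => mul_sum _ _ _
  · exact fun i _ => Finset.measurable_sum _ fun S _ => (Pool.Agent.W_7d29a1_HZ.measurable_gp N y S).ennreal_ofReal.mul (hf i S)

theorem meas_ind {A : Env → Prop} (hA : MeasurableSet {η | A η}) : Measurable fun η => ind (A η) := by
  unfold ind
  exact Measurable.ite hA measurable_const measurable_const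

/-- Pairs of replicas. -/
theorem Q1_pair [IsProbabilityMeasure μ] {A : Finset ℕ → Finset ℕ → Prop} {B : Env → Finset ℕ → Prop} (hB : Ms B) :
    Q1 μ s N y (fun η S => (∑ S' ∈ (range N).powerset, ENNReal.ofReal (gp μ s η N y S') * ind (A S S')) * ind (B η S)) =
      P2 μ s N y (fun _ => 0) (fun η S S' => A S S' ∧ B η S) := by
  rw [Pool.Agent.W_7d29a1_HZ.P2_eq]
  unfold Q1
  have hm : ∀ S' : Finset ℕ, Measurable fun η : Env => ENNReal.ofReal (gp μ s η N y S') := fun S' =>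
    (Pool.Agent.W_7d29a1_HZ.measurable_gp N y S').ennreal_ofReal
  rw [lintegral_finsetSum _ fun S _ => ?_]
  · refine sum_congr rfl fun S _ => ?_
    have e1 : ∀ η : Env, ENNReal.ofReal (gp μ s η N y S) * ((∑ S' ∈ (range N).powerset, ENNReal.ofReal (gp μ s η N y S') * ind (A S S')) *
        ind (B η S)) = ∑ S' ∈ (range N).powerset, {η | A S S' ∧ B η S}.indicator
          (fun η => ENNReal.ofReal (gp μ s η N y S * gp μ s (shr 0 (fun _ => 0) η) N y S')) η := by
      intro η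
      rw [sum_mul, mul_sum]
      refine sum_congr rfl fun S' _ => ?_
      simp only [shr_zero]
      by_cases h1 : A S S'
      · by_cases h2 : B η S
        · rw [Set.indicator_of_mem (show η ∈ {η | A S S' ∧ B η S} from ⟨h1, h2⟩), ind_of h1, ind_of h2, mul_one, mul_one,
            ENNReal.ofReal_mul (Pool.Agent.W_7d29a1_HZ.gp_nonneg η N y S)]
        · rw [Set.indicator_of_notMem (show η ∉ {η | A S S' ∧ B η S} from fun h => h2 h.2), ind_not h2, mul_zero, mul_zero]
      · rw [Set.indicator_of_notMem (show η ∉ {η | A S S' ∧ B η S} from fun h => h1 h.1), ind_not h1, mul_zero, zero_mul, mul_zero]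
    rw [lintegral_congr e1, lintegral_finsetSum _ fun S' _ => ?_]
    · refine sum_congr rfl fun S' _ => ?_
      rw [lintegral_indicator]
      by_cases h1 : A S S'
      · have : {η : Env | A S S' ∧ B η S} = {η | B η S} := by
          ext η
          simp [h1]
        rw [this]
        exact hB S
      · have : {η : Env | A S S' ∧ B η S} = ∅ := by
          ext η
          simp [h1]
        rw [this]
        exact MeasurableSet.empty
    · refine Measurable.indicator ?_ ?_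
      · exact (Pool.Agent.W_7d29a1_HZ.measurable_gp2 (fun _ => 0) N y S S').ennreal_ofReal
      · by_cases h1 : A S S'
        · have : {η : Env | A S S' ∧ B η S} = {η | B η S} := by
            ext η
            simp [h1]
          rw [this]
          exact hB S
        · have : {η : Env | A S S' ∧ B η S} = ∅ := by
            ext η
            simp [h1]
          rw [this]
          exact MeasurableSet.empty
  · refine (hm S).mul (Measurable.mul ?_ (meas_ind (hB S)))
    exact Finset.measurable_sum _ fun S' _ => (hm S').mul_const _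

/-- The two replicas may be exchanged. -/
theorem P2_comm [IsProbabilityMeasure μ] (A : Env → Finset ℕ → Finset ℕ → Prop) :
    P2 μ s N y (fun _ => 0) A = P2 μ s N y (fun _ => 0) fun η S S' => A η S' S := by
  rw [Pool.Agent.W_7d29a1_HZ.P2_eq, Pool.Agent.W_7d29a1_HZ.P2_eq, sum_comm]
  refine sum_congr rfl fun S _ => sum_congr rfl fun S' _ => lintegral_congr fun η => ?_
  rw [shr_zero, mul_comm]

/-! ### Conditional replicas -/

/-- The quenched mass of the ends of the block `[c, d)` of the path `S`. -/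
noncomputable def Ge (μ : Measure ℝ) (s : ℝ) (N : ℕ) (y : ℤ) (c d : ℕ) (η : Env) (S : Finset ℕ) : ℝ := by
  classical
  exact ∑ S' ∈ (range N).powerset, gp μ s η N y S' * (if pos S' c = pos S c ∧ pos S' d = pos S d then 1 else 0)

/-- Rare ends. -/
theorem sum_Ge {c d : ℕ} (hc : c ≤ N) (hd : d ≤ N) (η : Env) {q : ℝ} (hq : 0 ≤ q) :
    ∑ S ∈ (range N).powerset, ENNReal.ofReal (gp μ s η N y S) * ind (Ge μ s N y c d η S ≤ q) ≤
      ENNReal.ofReal (((N : ℝ) + 1) ^ 2 * q) := by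
  classical
  have e1 : ∀ S ∈ (range N).powerset, ENNReal.ofReal (gp μ s η N y S) * ind (Ge μ s N y c d η S ≤ q) =
      ENNReal.ofReal (gp μ s η N y S * if Ge μ s N y c d η S ≤ q then 1 else 0) := by
    intro S _
    by_cases h : Ge μ s N y c d η S ≤ q
    · rw [ind_of h, if_pos h, mul_one, mul_one]
    · rw [ind_not h, if_neg h, mul_zero, mul_zero, ENNReal.ofReal_zero]
  have hn : ∀ S, 0 ≤ gp μ s η N y S := fun S => Pool.Agent.W_7d29a1_HZ.gp_nonneg η N y S
  rw [sum_congr rfl e1, ← ENNReal.ofReal_sum_of_nonneg fun S _ => mul_nonneg (hn S) (by split_ifs <;> norm_num)]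
  refine ENNReal.ofReal_le_ofReal ?_
  have hmap : ∀ S ∈ (range N).powerset, (pos S c, pos S d) ∈ (Icc (0 : ℤ) N) ×ˢ (Icc (0 : ℤ) N) := by
    intro S _
    rw [mem_product, mem_Icc, mem_Icc]
    have h1 := pos_nonneg S c
    have h2 := pos_le S c
    have h3 := pos_nonneg S d
    have h4 := pos_le S d
    exact ⟨⟨h1, by omega⟩, ⟨h3, by omega⟩⟩
  rw [← sum_fiberwise_of_maps_to hmap]
  have e2 : ∀ u ∈ (Icc (0 : ℤ) N) ×ˢ (Icc (0 : ℤ) N),
      ∑ S ∈ (range N).powerset with (pos S c, pos S d) = u, gp μ s η N y S * (if Ge μ s N y c d η S ≤ q then 1 else 0) ≤ q := by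
    intro u _
    have e3 : ∀ S ∈ (range N).powerset.filter fun S => (pos S c, pos S d) = u,
        Ge μ s N y c d η S = ∑ S' ∈ (range N).powerset with (pos S' c, pos S' d) = u, gp μ s η N y S' := by
      intro S hS
      rw [mem_filter] at hS
      obtain ⟨-, h⟩ := hS
      subst h
      unfold Ge
      rw [sum_filter]
      refine sum_congr rfl fun S' _ => ?_
      by_cases h : pos S' c = pos S c ∧ pos S' d = pos S d
      · rw [if_pos h, if_pos (by rw [h.1, h.2]), mul_one]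
      · rw [if_neg h, if_neg (fun h' => h (by rw [Prod.mk.injEq] at h'; exact h')), mul_zero]
    by_cases h : ∑ S' ∈ (range N).powerset with (pos S' c, pos S' d) = u, gp μ s η N y S' ≤ q
    · refine le_trans (sum_le_sum fun S hS => ?_) h
      rw [e3 S hS, if_pos h, mul_one]
    · refine le_trans (le_of_eq (sum_eq_zero fun S hS => ?_)) hq
      rw [e3 S hS, if_neg h, mul_zero]
  refine (sum_le_sum e2).trans ?_
  rw [sum_const, card_product, Int.card_Icc, nsmul_eq_mul]
  have : ((N : ℤ) + 1 - 0).toNat = N + 1 := by omega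
  rw [this]
  push_cast
  rw [← sq]

/-- **The mass of the second replica given the first one outside of the block `[c, d)`**, for the event `A`. -/
noncomputable def mc (μ : Measure ℝ) (s : ℝ) (N y c d : ℕ) (A : Finset ℕ → Finset ℕ → Prop) (η : Env) (S : Finset ℕ) : ℝ := by
  classical
  exact if h : S ∈ Pn N y then cE (lw μ s η N (Pn N y)) (pJ c d) (fun S' => if A S S'.1 then (1 : ℝ) else 0) ⟨S, h⟩ else 0

/-- The event depends on the second path only through its positions at the times `[c, d]`. -/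
def On2 (c d : ℕ) (A : Finset ℕ → Finset ℕ → Prop) : Prop :=
  ∀ S S' S'' : Finset ℕ, (∀ i, c ≤ i → i ≤ d → pos S' i = pos S'' i) → (A S S' ↔ A S S'')

theorem cE_le_one {X Y : Type*} [Fintype X] [Nonempty X] [DecidableEq Y] (w : X → ℝ) (p : X → Y) {f : X → ℝ} (hf : ∀ x, f x ≤ 1) (x : X) :
    cE w p f x ≤ 1 := by
  have h := Pool.W7d29a1.C0.VT31.cE_mono w p hf x
  rwa [Pool.W7d29a1.C0.VT31.cE_one] at h

theorem mc_nonneg {c d y : ℕ} {A : Finset ℕ → Finset ℕ → Prop} (η : Env) (S : Finset ℕ) : 0 ≤ mc μ s N y c d A η S := by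
  classical
  unfold mc
  split_ifs with h
  · have : Nonempty (Px (Pn N y)) := ⟨⟨S, h⟩⟩
    exact Pool.W7d29a1.C0.VT31.cE_nonneg _ _ (fun S' => by split_ifs <;> norm_num) _
  · exact le_rfl

theorem mc_le_one {c d y : ℕ} {A : Finset ℕ → Finset ℕ → Prop} (η : Env) (S : Finset ℕ) : mc μ s N y c d A η S ≤ 1 := by
  classical
  unfold mc
  split_ifs with h
  · have : Nonempty (Px (Pn N y)) := ⟨⟨S, h⟩⟩
    exact cE_le_one _ _ (fun S' => by split_ifs <;> norm_num) _
  · exact zero_le_one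

theorem gm_const_mul {X : Type*} [Fintype X] (w : X → ℝ) (a : ℝ) (f : X → ℝ) : gm w (fun x => a * f x) = a * gm w f := by
  unfold gm
  rw [← mul_div_assoc, mul_sum]
  congr 1
  exact sum_congr rfl fun x _ => by ring

/-- The conditional replica against the free one. -/
theorem mc_Ge {c d y : ℕ} (hy : y ≤ N) (hcd : c ≤ d) (hd : d ≤ N) {A : Finset ℕ → Finset ℕ → Prop} (hA : On2 c d A) (η : Env)
    {S : Finset ℕ} (hS : S ∈ Pn N y) :
    mc μ s N y c d A η S * Ge μ s N y c d η S ≤ ∑ S' ∈ (range N).powerset, gp μ s η N y S' * (by classical exact if A S S' then 1 else 0) := by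
  classical
  have := ne_Pn (N := N) (y := y) hy
  obtain ⟨h, hh⟩ : ∃ h : Px (Pn N y) → ℝ, h = fun S' => if pos S'.1 c = pos S c ∧ pos S'.1 d = pos S d then 1 else 0 := ⟨_, rfl⟩
  have hMp : Mp (pJ c d) h := by
    intro S' S'' e
    have e1 : pos S'.1 c = pos S''.1 c := Pool.Agent.W_7d29a1_C0.Mod92.ps_of_le e le_rfl
    have e2 : pos S'.1 d = pos S''.1 d := Pool.Agent.W_7d29a1_C0.Mod92.ps_of_ge e le_rfl
    rw [hh]
    show (if _ then (1 : ℝ) else 0) = if _ then 1 else 0
    rw [e1, e2]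
  obtain ⟨f, hf⟩ : ∃ f : Px (Pn N y) → ℝ, f = fun S' => if A S S'.1 then 1 else 0 := ⟨_, rfl⟩
  have h1 := gm_mul_cE (lw μ s η N (Pn N y)) hMp f
  have hmc : mc μ s N y c d A η S = cE (lw μ s η N (Pn N y)) (pJ c d) f ⟨S, hS⟩ := by
    unfold mc
    rw [dif_pos hS, hf]
  -- the conditional mean depends only on the ends
  have h2 : h * cE (lw μ s η N (Pn N y)) (pJ c d) f = fun S' => mc μ s N y c d A η S * h S' := by
    funext S'
    rw [Pi.mul_apply, hh]
    show (if pos S'.1 c = pos S c ∧ pos S'.1 d = pos S d then (1 : ℝ) else 0) * _ =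
      _ * (if pos S'.1 c = pos S c ∧ pos S'.1 d = pos S d then (1 : ℝ) else 0)
    split_ifs with e
    · rw [one_mul, mul_one, hmc, hf]
      rw [blk18_set (full_Pn N y) η hcd hd S' (fun S' => if A S S' then 1 else 0),
        blk18_set (full_Pn N y) η hcd hd ⟨S, hS⟩ (fun S' => if A S S' then 1 else 0)]
      refine sum_congr rfl fun T hT => ?_
      rw [mem_powerset] at hT
      have e1 : ps S' c = ps (⟨S, hS⟩ : Px (Pn N y)) c := e.1
      have e2 : ps S' d = ps (⟨S, hS⟩ : Px (Pn N y)) d := e.2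
      rw [e1, e2]
      congr 1
      have e3 : A S (spl c d S'.1 T) ↔ A S (spl c d S T) := by
        refine hA S _ _ fun i hi1 hi2 => ?_
        obtain ⟨k, rfl⟩ : ∃ k, i = c + k := ⟨i - c, by omega⟩
        rw [pos_spl_mid hT hi2, pos_spl_mid hT hi2]
        have : pos S'.1 c = pos S c := e.1
        rw [this]
      by_cases g : A S (spl c d S T)
      · rw [if_pos g, if_pos (e3.2 g)]
      · rw [if_neg g, if_neg fun g' => g (e3.1 g')]
    · rw [zero_mul, mul_zero]
  rw [h2, gm_const_mul] at h1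
  have e3 : gm (lw μ s η N (Pn N y)) h = Ge μ s N y c d η S := by
    rw [hh, gm_Pn η N y fun S' => if pos S' c = pos S c ∧ pos S' d = pos S d then (1 : ℝ) else 0]
    rfl
  have e4 : gm (lw μ s η N (Pn N y)) (h * f) ≤ ∑ S' ∈ (range N).powerset, gp μ s η N y S' * (if A S S' then 1 else 0) := by
    rw [← gm_Pn η N y fun S' => if A S S' then (1 : ℝ) else 0]
    unfold gm
    refine div_le_div_of_nonneg_right (sum_le_sum fun S' _ => ?_) (gz_pos _).le
    refine mul_le_mul_of_nonneg_left ?_ (Real.exp_pos _).le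
    rw [Pi.mul_apply, hh, hf]
    show (if _ then (1 : ℝ) else 0) * (if A S S'.1 then (1 : ℝ) else 0) ≤ if A S S'.1 then (1 : ℝ) else 0
    split_ifs <;> norm_num
  rw [e3] at h1
  rw [h1]
  exact e4

/-- **The price of a conditional replica is the price of a free one**, outside of rare ends. -/
theorem mc_le {c d y : ℕ} (hy : y ≤ N) (hcd : c ≤ d) (hd : d ≤ N) {A : Finset ℕ → Finset ℕ → Prop} (hA : On2 c d A) (x : ℝ) (η : Env)
    {S : Finset ℕ} (hS : S ⊆ range N) (hSy : pos S N = y) :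
    ENNReal.ofReal (mc μ s N y c d A η S) ≤
      ENNReal.ofReal (Real.exp x) * (∑ S' ∈ (range N).powerset, ENNReal.ofReal (gp μ s η N y S') * ind (A S S')) +
        ind (Ge μ s N y c d η S ≤ Real.exp (-x)) := by
  classical
  have hSP : S ∈ Pn N y := by
    rw [mem_powersetCard]
    refine ⟨hS, ?_⟩
    rw [pos_card hS] at hSy
    exact_mod_cast hSy
  by_cases hG : Ge μ s N y c d η S ≤ Real.exp (-x)
  · rw [ind_of hG]
    refine le_trans ?_ le_add_self
    rw [← ENNReal.ofReal_one]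
    exact ENNReal.ofReal_le_ofReal (mc_le_one η S)
  · rw [ind_not hG, add_zero]
    rw [not_le] at hG
    have h1 := mc_Ge (μ := μ) (s := s) hy hcd hd hA η hSP
    have hn : ∀ S, 0 ≤ gp μ s η N y S := fun S => Pool.Agent.W_7d29a1_HZ.gp_nonneg η N y S
    have e1 : (∑ S' ∈ (range N).powerset, ENNReal.ofReal (gp μ s η N y S') * ind (A S S')) =
        ENNReal.ofReal (∑ S' ∈ (range N).powerset, gp μ s η N y S' * (if A S S' then 1 else 0)) := by
      rw [ENNReal.ofReal_sum_of_nonneg fun S' _ => mul_nonneg (hn S') (by split_ifs <;> norm_num)]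
      refine sum_congr rfl fun S' _ => ?_
      by_cases h : A S S'
      · rw [ind_of h, if_pos h, mul_one, mul_one]
      · rw [ind_not h, if_neg h, mul_zero, mul_zero, ENNReal.ofReal_zero]
    rw [e1, ← ENNReal.ofReal_mul (Real.exp_pos _).le]
    refine ENNReal.ofReal_le_ofReal ?_
    have h2 : mc μ s N y c d A η S * Real.exp (-x) ≤ mc μ s N y c d A η S * Ge μ s N y c d η S :=
      mul_le_mul_of_nonneg_left hG.le (mc_nonneg η S)
    have h3 := h2.trans h1
    have h4 := mul_le_mul_of_nonneg_left h3 (Real.exp_pos x).le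
    have h5 : Real.exp x * (mc μ s N y c d A η S * Real.exp (-x)) = mc μ s N y c d A η S := by
      rw [mul_comm (mc μ s N y c d A η S), ← mul_assoc, ← Real.exp_add, add_neg_cancel, Real.exp_zero, one_mul]
    rw [h5] at h4
    convert h4

/-- The product of the conditional masses against the events `NT`. -/
theorem Q1_mult [IsProbabilityMeasure μ] {y k : ℕ} (hy : y ≤ N) (c d : Fin k → ℕ) (hcd : ∀ i, c i ≤ d i ∧ d i ≤ N)
    (A : Fin k → Finset ℕ → Finset ℕ → Prop) (hA : ∀ i, On2 (c i) (d i) (A i)) (NT : Fin k → Env → Finset ℕ → Prop)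
    (hms : ∀ i, Ms (NT i)) {F : Env → Finset ℕ → Prop} (hF : Ms F) (x : ℝ) :
    Q1 μ s N y (fun η S => ind (F η S) * ∏ i, ENNReal.ofReal (mc μ s N y (c i) (d i) (A i) η S)) ≤
      P1 μ s N y (fun η S => F η S ∧ ∀ i, NT i η S) +
        ∑ i, (ENNReal.ofReal (Real.exp x) * P2 μ s N y (fun _ => 0) (fun η S S' => A i S' S ∧ ¬ NT i η S') +
          ENNReal.ofReal (((N : ℝ) + 1) ^ 2 * Real.exp (-x))) := by
  classical
  have hm : ∀ S' : Finset ℕ, Measurable fun η : Env => ENNReal.ofReal (gp μ s η N y S') := fun S' =>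
    (Pool.Agent.W_7d29a1_HZ.measurable_gp N y S').ennreal_ofReal
  -- the pointwise bound
  have h1 : Q1 μ s N y (fun η S => ind (F η S) * ∏ i, ENNReal.ofReal (mc μ s N y (c i) (d i) (A i) η S)) ≤
      Q1 μ s N y (fun η S => ind (F η S ∧ ∀ i, NT i η S) + ∑ i ∈ (univ : Finset (Fin k)),
        (ENNReal.ofReal (Real.exp x) * ((∑ S' ∈ (range N).powerset, ENNReal.ofReal (gp μ s η N y S') * ind (A i S S')) *
          ind (¬ NT i η S)) + ind (Ge μ s N y (c i) (d i) η S ≤ Real.exp (-x)))) := by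
    refine Q1_mono fun η S hS hSy => ?_
    have hb : ∀ i, ENNReal.ofReal (mc μ s N y (c i) (d i) (A i) η S) ≤ 1 := fun i => by
      rw [← ENNReal.ofReal_one]
      exact ENNReal.ofReal_le_ofReal (mc_le_one η S)
    by_cases hNT : ∀ i, NT i η S
    · refine le_trans ?_ le_self_add
      by_cases hFS : F η S
      · rw [ind_of hFS, ind_of ⟨hFS, hNT⟩, one_mul]
        exact prod_le_one' fun i _ => hb i
      · rw [ind_not hFS, zero_mul]
        exact zero_le
    · push Not at hNT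
      obtain ⟨i, hi⟩ := hNT
      refine le_trans ?_ le_add_self
      refine le_trans ?_ (single_le_sum (f := fun i => (ENNReal.ofReal (Real.exp x) *
        ((∑ S' ∈ (range N).powerset, ENNReal.ofReal (gp μ s η N y S') * ind (A i S S')) *
          ind (¬ NT i η S)) + ind (Ge μ s N y (c i) (d i) η S ≤ Real.exp (-x)))) (fun _ _ => zero_le) (mem_univ i))
      have h2 : ind (F η S) * ∏ i, ENNReal.ofReal (mc μ s N y (c i) (d i) (A i) η S) ≤
          ENNReal.ofReal (mc μ s N y (c i) (d i) (A i) η S) := by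
        refine (mul_le_of_le_one_left zero_le (ind_le _)).trans ?_
        rw [← mul_prod_erase univ _ (mem_univ i)]
        exact mul_le_of_le_one_right zero_le (prod_le_one' fun i _ => hb i)
      refine h2.trans ((mc_le hy (hcd i).1 (hcd i).2 (hA i) x η hS hSy).trans ?_)
      rw [ind_of hi, mul_one]
  refine h1.trans ?_
  have hms1 : ∀ S, Measurable fun η : Env => ind (F η S ∧ ∀ i, NT i η S) := fun S => meas_ind ((ms_and hF (ms_all hms)) S)
  have hms2 : ∀ i S, Measurable fun η : Env => (∑ S' ∈ (range N).powerset, ENNReal.ofReal (gp μ s η N y S') * ind (A i S S')) *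
      ind (¬ NT i η S) := fun i S =>
    (Finset.measurable_sum _ fun S' _ => (hm S').mul_const _).mul (meas_ind ((hms i S).compl))
  have hms3 : ∀ i S, Measurable fun η : Env => ind (Ge μ s N y (c i) (d i) η S ≤ Real.exp (-x)) := fun i S => by
    refine meas_ind (measurableSet_le ?_ measurable_const)
    unfold Ge
    exact Finset.measurable_sum _ fun S' _ => (Pool.Agent.W_7d29a1_HZ.measurable_gp N y S').mul_const _
  have hU := Q1_sum (μ := μ) (s := s) (N := N) (y := (y : ℤ)) (univ : Finset (Fin k)) (f := fun i η S =>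
    ENNReal.ofReal (Real.exp x) * ((∑ S' ∈ (range N).powerset, ENNReal.ofReal (gp μ s η N y S') * ind (A i S S')) *
      ind (¬ NT i η S)) + ind (Ge μ s N y (c i) (d i) η S ≤ Real.exp (-x))) (fun i S => ((hms2 i S).const_mul _).add (hms3 i S))
  rw [Q1_add hms1, Q1_ind (ms_and hF (ms_all hms)), hU]
  refine add_le_add le_rfl (sum_le_sum fun i _ => ?_)
  rw [Q1_add fun S => (hms2 i S).const_mul _]
  refine add_le_add ?_ ?_
  · have e1 : Q1 μ s N y (fun η S => ENNReal.ofReal (Real.exp x) *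
        ((∑ S' ∈ (range N).powerset, ENNReal.ofReal (gp μ s η N y S') * ind (A i S S')) * ind (¬ NT i η S))) =
        ENNReal.ofReal (Real.exp x) * Q1 μ s N y (fun η S =>
          ((∑ S' ∈ (range N).powerset, ENNReal.ofReal (gp μ s η N y S') * ind (A i S S')) * ind (¬ NT i η S))) := by
      unfold Q1
      rw [← lintegral_const_mul]
      · refine lintegral_congr fun η => ?_
        rw [mul_sum]
        exact sum_congr rfl fun S _ => by ring
      · exact Finset.measurable_sum _ fun S _ => (hm S).mul (hms2 i S)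
    rw [e1, Q1_pair (B := fun η S => ¬ NT i η S) fun S => (hms i S).compl, P2_comm]
  · unfold Q1
    refine (lintegral_mono fun η => sum_Ge ((hcd i).1.trans (hcd i).2) (hcd i).2 η (Real.exp_pos _).le).trans ?_
    rw [lintegral_const, measure_univ, mul_one]

/-! ### The product price -/

/-- The two paths meet at two times `a ≤ τ`, `b' ≥ τ + t / 4` of `[c, d]` at the distance at most `32 t`, and do not meet in
`[τ, τ + t / 4]`. -/
def Gpc (c d t τ : ℕ) (S S' : Finset ℕ) : Prop := ∃ a b' : ℕ, c ≤ a ∧ a ≤ τ ∧ τ + t / 4 ≤ b' ∧ b' ≤ d ∧ b' ≤ a + 32 * t ∧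
  pos S a = pos S' a ∧ pos S b' = pos S' b' ∧ NoMeet τ (τ + t / 4) S S'

theorem gpc_on2 (c d t τ : ℕ) : On2 c d (Gpc c d t τ) := by
  have key : ∀ S S' S'' : Finset ℕ, (∀ i, c ≤ i → i ≤ d → pos S' i = pos S'' i) → Gpc c d t τ S S' → Gpc c d t τ S S'' := by
    rintro S S' S'' h ⟨a, b', h1, h2, h3, h4, h5, h6, h7, h8⟩
    refine ⟨a, b', h1, h2, h3, h4, h5, ?_, ?_, fun k hk1 hk2 => ?_⟩
    · rw [h6, h a h1 (by omega)]
    · rw [h7, h b' (by omega) h4]
    · rw [← h k (by omega) (by omega)]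
      exact h8 k hk1 hk2
  exact fun S S' S'' h => ⟨key S S' S'' h, key S S'' S' fun i h1 h2 => (h i h1 h2).symm⟩

theorem gp_of_gpc {c d t τ : ℕ} (hd : d ≤ N) {S S' : Finset ℕ} (h : Gpc c d t τ S S') : Gp N t τ S S' := by
  obtain ⟨a, b', h1, h2, h3, h4, h5, h6, h7, h8⟩ := h
  exact ⟨a, b', h2, h3, h4.trans hd, h5, h6, h7, h8⟩

variable [IsProbabilityMeasure μ] {c₀ C₀ : ℝ} {n₀ : ℕ}

/-- **THE PRODUCT PRICE** (general events). -/
theorem pp86A (h : In μ s c₀ C₀ n₀) (k : ℕ) : ∀ ε θ : ℝ, 0 < ε → 0 < θ → ∃ δ c' : ℝ, 0 < δ ∧ 0 < c' ∧ ∃ L₀ : ℕ,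
    ∀ L : ℕ, L₀ ≤ L → ∀ N : ℕ, L ≤ 16 * N → N ≤ L → ∀ y : ℕ, y ≤ N → |(y : ℝ) - sl μ s * N| ≤ ((L : ℝ) ^ δ * wd' μ s N) →
    ∀ (t τ c d : Fin k → ℕ), (∀ i, (L : ℝ) ^ θ ≤ t i ∧ t i ≤ N) → (∀ i, c i ≤ d i ∧ d i ≤ N) →
    (∀ i i', i < i' → ∀ j ∈ Ico (τ i) (τ i + t i), j + 64 * t i' ≤ τ i' ∨ τ i' + 65 * t i' ≤ j) →
    ∀ A : Fin k → Finset ℕ → Finset ℕ → Prop, (∀ i, On2 (c i) (d i) (A i)) → (∀ i S S', A i S S' → Gp N (t i) (τ i) S S') →
    ∀ F : Env → Finset ℕ → Prop, Ms F → (∀ i, OffRows (Ico (τ i) (τ i + t i)) F) →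
    Q1 μ s N y (fun η S => ind (F η S) * ∏ i, ENNReal.ofReal (mc μ s N y (c i) (d i) (A i) η S)) ≤
      (∏ i, ENNReal.ofReal ((L : ℝ) ^ ε * (EE' μ s (t i))⁻¹)) * P1 μ s N y F + ENNReal.ofReal (Real.exp (-(L : ℝ) ^ c')) := by
  intro ε θ hε hθ
  obtain ⟨δ, c₁, hδ, hc₁, L₁, hP⟩ := loc86 h ε θ hε hθ
  obtain ⟨c₂, hc₂, -, L₂, hX⟩ := Pool.Agent.W_7d29a1_Z.NumI77.pow_exp (show 0 < c₁ / 2 by positivity) 4
  obtain ⟨L₃, hL₃⟩ := Pool.Agent.W_7d29a1_Z.NumI77.large (show 0 < c₁ / 2 by positivity) 2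
  refine ⟨δ, c₂, hδ, hc₂, L₁ + L₂ + L₃ + 3 * k + 10, ?_⟩
  intro L hL N hLN hNL y hyN hyc t τ c d ht hcd hsep A hA hAG F hF hFo
  have hL10 : (10 : ℝ) ≤ L := by exact_mod_cast (show 10 ≤ L by omega)
  have hL0 : (0 : ℝ) < L := by linarith
  have hkL : 3 * (k : ℝ) ≤ L := by exact_mod_cast (show 3 * k ≤ L by omega)
  have hy0 : (0 : ℤ) ≤ y := by positivity
  have hyN' : (y : ℤ) ≤ N := by exact_mod_cast hyN
  have hyc' : |((y : ℤ) : ℝ) - sl μ s * N| ≤ ((L : ℝ) ^ δ * wd' μ s N) := by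
    push_cast
    exact hyc
  choose NT n1 n2 n3 n4 n5 using fun i : Fin k => hP L (by omega) N (t i) hLN hNL (ht i).1 (ht i).2 y hy0 hyN' hyc' (τ i)
  set x : ℝ := (L : ℝ) ^ (c₁ / 2) with hx
  have hx0 : 0 ≤ x := by positivity
  have h1 := Q1_mult (μ := μ) (s := s) hyN c d hcd A hA NT n1 hF x
  refine h1.trans ?_
  have h2 := prodP (μ := μ) (s := s) (N := N) (y := y) k NT (fun i => Ico (τ i) (τ i + t i))
    (fun i => ENNReal.ofReal ((L : ℝ) ^ ε * (EE' μ s (t i))⁻¹)) (ENNReal.ofReal (Real.exp (-(L : ℝ) ^ c₁))) n1 (fun i => n5 i)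
    (fun i i' hi => n2 i' _ fun j hj => hsep i i' hi j hj) F hF hFo
  have hE : Real.exp (-(L : ℝ) ^ c₁) ≤ Real.exp (-2 * x) := by
    rw [Real.exp_le_exp]
    have e1 : (L : ℝ) ^ c₁ = x * x := by
      rw [hx, ← Real.rpow_add hL0]
      congr 1
      ring
    obtain ⟨-, h3, -⟩ := hL₃ L (by omega)
    rw [e1]
    nlinarith
  have h3 : ∀ i, ENNReal.ofReal (Real.exp x) * P2 μ s N y (fun _ => 0) (fun η S S' => A i S' S ∧ ¬ NT i η S') +
      ENNReal.ofReal (((N : ℝ) + 1) ^ 2 * Real.exp (-x)) ≤ ENNReal.ofReal ((((N : ℝ) + 1) ^ 2 + 1) * Real.exp (-x)) := by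
    intro i
    have h4 : P2 μ s N y (fun _ => 0) (fun η S S' => A i S' S ∧ ¬ NT i η S') ≤ ENNReal.ofReal (Real.exp (-2 * x)) := by
      refine (A12.P2_mono' fun η S S' _ _ _ _ hev => ?_).trans ((n4 i).trans (ENNReal.ofReal_le_ofReal hE))
      exact ⟨(hAG i _ _ hev.1).symm, hev.2⟩
    refine (add_le_add (mul_le_mul' le_rfl h4) le_rfl).trans ?_
    rw [← ENNReal.ofReal_mul (Real.exp_pos _).le, ← Real.exp_add, ← ENNReal.ofReal_add (Real.exp_pos _).le (by positivity)]
    refine ENNReal.ofReal_le_ofReal ?_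
    have e1 : x + -2 * x = -x := by ring
    rw [e1]
    linarith
  refine (add_le_add h2 (sum_le_sum fun i _ => h3 i)).trans ?_
  rw [sum_const, card_univ, Fintype.card_fin, nsmul_eq_mul, add_assoc]
  refine add_le_add le_rfl ?_
  have e2 : (k : ℝ≥0∞) = ENNReal.ofReal k := by rw [ENNReal.ofReal_natCast]
  rw [e2, ← ENNReal.ofReal_mul (by positivity), ← ENNReal.ofReal_mul (by positivity), ← ENNReal.ofReal_add (by positivity) (by positivity)]
  refine ENNReal.ofReal_le_ofReal ?_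
  have hN0 : (0 : ℝ) ≤ N := Nat.cast_nonneg N
  have hNL' : (N : ℝ) ≤ L := by exact_mod_cast hNL
  have h5 := hX L (by omega)
  rw [← hx] at h5
  have e4 : (L : ℝ) ^ (4 : ℝ) = (L : ℝ) ^ 4 := by
    rw [← Real.rpow_natCast]
    norm_num
  rw [e4] at h5
  refine le_trans ?_ h5
  have h6 : Real.exp (-(L : ℝ) ^ c₁) ≤ Real.exp (-x) := hE.trans (Real.exp_le_exp.2 (by linarith))
  have hk0 : (0 : ℝ) ≤ k := Nat.cast_nonneg k
  have hp0 := (Real.exp_pos (-x)).le
  calc (k : ℝ) * Real.exp (-(L : ℝ) ^ c₁) + k * ((((N : ℝ) + 1) ^ 2 + 1) * Real.exp (-x))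
      ≤ k * Real.exp (-x) + k * ((((L : ℝ) + 1) ^ 2 + 1) * Real.exp (-x)) := by gcongr
    _ = (k * (((L : ℝ) + 1) ^ 2 + 2)) * Real.exp (-x) := by ring
    _ ≤ (L : ℝ) ^ 4 * Real.exp (-x) := by
        refine mul_le_mul_of_nonneg_right ?_ hp0
        have h7 : ((L : ℝ) + 1) ^ 2 + 2 ≤ 2 * (L : ℝ) ^ 2 := by nlinarith
        have h8 : (k : ℝ) * (((L : ℝ) + 1) ^ 2 + 2) ≤ L * (2 * (L : ℝ) ^ 2) := by
          refine mul_le_mul (by linarith) h7 (by positivity) hL0.le
        have h9 : L * (2 * (L : ℝ) ^ 2) ≤ (L : ℝ) ^ 4 := by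
          have e5 : L * (2 * (L : ℝ) ^ 2) = 2 * (L : ℝ) ^ 3 := by ring
          have e6 : (L : ℝ) ^ 4 = L * (L : ℝ) ^ 3 := by ring
          rw [e5, e6]
          exact mul_le_mul_of_nonneg_right (by linarith) (by positivity)
        exact h8.trans h9

/-- **THE PRODUCT PRICE.** -/
theorem pp86 (h : In μ s c₀ C₀ n₀) (k : ℕ) : ∀ ε θ : ℝ, 0 < ε → 0 < θ → ∃ δ c' : ℝ, 0 < δ ∧ 0 < c' ∧ ∃ L₀ : ℕ,
    ∀ L : ℕ, L₀ ≤ L → ∀ N : ℕ, L ≤ 16 * N → N ≤ L → ∀ y : ℕ, y ≤ N → |(y : ℝ) - sl μ s * N| ≤ ((L : ℝ) ^ δ * wd' μ s N) →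
    ∀ (t τ c d : Fin k → ℕ), (∀ i, (L : ℝ) ^ θ ≤ t i ∧ t i ≤ N) → (∀ i, c i ≤ d i ∧ d i ≤ N) →
    (∀ i i', i < i' → ∀ j ∈ Ico (τ i) (τ i + t i), j + 64 * t i' ≤ τ i' ∨ τ i' + 65 * t i' ≤ j) →
    ∀ F : Env → Finset ℕ → Prop, Ms F → (∀ i, OffRows (Ico (τ i) (τ i + t i)) F) →
    Q1 μ s N y (fun η S => ind (F η S) * ∏ i, ENNReal.ofReal (mc μ s N y (c i) (d i) (Gpc (c i) (d i) (t i) (τ i)) η S)) ≤
      (∏ i, ENNReal.ofReal ((L : ℝ) ^ ε * (EE' μ s (t i))⁻¹)) * P1 μ s N y F + ENNReal.ofReal (Real.exp (-(L : ℝ) ^ c')) := by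
  intro ε θ hε hθ
  obtain ⟨δ, c', hδ, hc', L₀, hP⟩ := pp86A h k ε θ hε hθ
  refine ⟨δ, c', hδ, hc', L₀, fun L hL N hLN hNL y hyN hyc t τ c d ht hcd hsep F hF hFo => ?_⟩
  exact hP L hL N hLN hNL y hyN hyc t τ c d ht hcd hsep (fun i => Gpc (c i) (d i) (t i) (τ i)) (fun i => gpc_on2 _ _ _ _)
    (fun i S S' hg => gp_of_gpc (hcd i).2 hg) F hF hFo

end Pool.Agent.W_7d29a1_C0.P86
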