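import Pool.Agent.W_7d29a1_C0.E6_36
import Pool.Agent.W_7d29a1_C0.PP86

/-!
MP_7d29a1_pr, [CURV0]: THE PRODUCT PRICES IN THE MODEL (helper36). The annealed products `Q1` of helper86 (conditional replicas told from one
base path, extended nonnegative reals) as integrals of Gibbs means `gm` and conditional means `cE` of `Mod92` over the outer space `Pm`.
-/

set_option autoImplicit false
set_option linter.unusedSectionVars false

namespace Pool.Agent.W_7d29a1_C0.Bri36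

open Finset MeasureTheory Pool.Agent.W_7d29a1_F Pool.Agent.W_7d29a1_X Pool.Agent.W_7d29a1_H Pool.Agent.W_7d29a1_HZ
open Pool.Agent.W_7d29a1_HS (In wd)
open Pool.Agent.W_7d29a1_C0.Mod92
open Pool.Agent.W_7d29a1_C0.P86 (NoMeet Q1 mc On2 Gp Gpc pp86A)
open Pool.W7d29a1.C0 (gz gm gz_pos gz_ne gm_mono gm_const gm_nonneg PP PP_eq PP_mono PP_smul PP_nonneg PP_add)
open Pool.W7d29a1.C0.VT31
open scoped ENNReal

noncomputable section

variable {μ : Measure ℝ} {s : ℝ} {N y : ℕ}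

/-! ### Conditional means on the fibres -/

section Fib

variable {X Y : Type*} [Fintype X] [DecidableEq Y]

theorem cE_fib (w : X → ℝ) (p : X → Y) {f g : X → ℝ} {x : X} (h : ∀ z, p z = p x → f z = g z) : cE w p f x = cE w p g x := by
  unfold cE
  congr 1
  refine sum_congr rfl fun z _ => ?_
  split_ifs with hz
  · rw [h z hz]
  · rfl

theorem cE_mono_fib [Nonempty X] (w : X → ℝ) (p : X → Y) {f g : X → ℝ} {x : X} (h : ∀ z, p z = p x → f z ≤ g z) :
    cE w p f x ≤ cE w p g x := by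
  classical
  have e : cE w p f x = cE w p (fun z => if p z = p x then f z else g z) x := cE_fib w p fun z hz => by rw [if_pos hz]
  rw [e]
  refine cE_mono w p (fun z => ?_) x
  split_ifs with hz
  · exact h z hz
  · exact le_rfl

end Fib

theorem pJ_free (S : Px (Pn N y)) : pJ 0 N S = (∅, y) := by
  have h := mem_powersetCard.1 S.2
  have h1 : S.1 ∩ Ico 0 N = S.1 := by
    rw [inter_eq_left]
    intro i hi
    rw [mem_Ico]
    exact ⟨Nat.zero_le _, mem_range.1 (h.1 hi)⟩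
  unfold pJ
  rw [h1, h.2, Prod.mk.injEq]
  refine ⟨?_, rfl⟩
  rw [sdiff_eq_empty_iff_subset]
  intro i hi
  rw [mem_Ico]
  exact ⟨Nat.zero_le _, mem_range.1 (h.1 hi)⟩

/-- A free replica is a conditional replica given the outside of the whole polymer. -/
theorem cE_free (w : Px (Pn N y) → ℝ) (f : Px (Pn N y) → ℝ) (S : Px (Pn N y)) : cE w (pJ 0 N) f S = gm w f := by
  have h : ∀ z : Px (Pn N y), pJ 0 N z = pJ 0 N S := fun z => by rw [pJ_free, pJ_free]
  unfold cE fz gm gz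
  simp only [h, if_true]

/-! ### Averages over one path -/

theorem sum_gp_le (η : Env) : ∑ S ∈ (range N).powerset, gp μ s η N y S ≤ 1 := by
  by_cases hy : y ≤ N
  · exact (gp_sum η (by positivity) (by exact_mod_cast hy)).le
  · have e : ∀ S ∈ (range N).powerset, gp μ s η N y S = 0 := fun S hS =>
      gp_of_ne η fun h => hy (by
        rw [pos_card (mem_powerset.1 hS)] at h
        have := card_le_card (mem_powerset.1 hS)
        rw [card_range] at this
        have : S.card = y := by exact_mod_cast h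
        omega)
    rw [sum_eq_zero e]
    norm_num

/-- The annealed average of a function of the environment and of one path. -/
theorem Q1_int [IsProbabilityMeasure μ] {f : Env → Finset ℕ → ℝ} (hf : ∀ S, Measurable fun η => f η S) (h0 : ∀ η S, 0 ≤ f η S)
    (h1 : ∀ η S, f η S ≤ 1) : Q1 μ s N y (fun η S => ENNReal.ofReal (f η S)) =
      ENNReal.ofReal (∫ η, gm (lw μ s η N (Pn N y)) (fun S => f η S.1) ∂(law μ)) := by
  have hnn : ∀ η, 0 ≤ ∑ S ∈ (range N).powerset, gp μ s η N y S * f η S := fun η =>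
    sum_nonneg fun S _ => mul_nonneg (gp_nonneg _ _ _ _) (h0 η S)
  have hle : ∀ η, ∑ S ∈ (range N).powerset, gp μ s η N y S * f η S ≤ 1 := fun η =>
    (sum_le_sum fun S _ => mul_le_of_le_one_right (gp_nonneg _ _ _ _) (h1 η S)).trans (sum_gp_le η)
  have hm : Measurable fun η => ∑ S ∈ (range N).powerset, gp μ s η N y S * f η S :=
    Finset.measurable_fun_sum _ fun S _ => (measurable_gp N y S).mul (hf S)
  have hi : Integrable (fun η => ∑ S ∈ (range N).powerset, gp μ s η N y S * f η S) (law μ) :=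
    Integrable.of_bound hm.aestronglyMeasurable 1 (Filter.Eventually.of_forall fun η => by
      rw [Real.norm_eq_abs, abs_of_nonneg (hnn η)]
      exact hle η)
  have e2 : (fun η => gm (lw μ s η N (Pn N y)) (fun S => f η S.1)) = fun η => ∑ S ∈ (range N).powerset, gp μ s η N y S * f η S := by
    funext η
    exact gm_Pn η fun S => f η S
  rw [e2, ofReal_integral_eq_lintegral_ofReal hi (Filter.Eventually.of_forall hnn)]
  unfold Q1
  refine lintegral_congr fun η => ?_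
  rw [ENNReal.ofReal_sum_of_nonneg fun S _ => mul_nonneg (gp_nonneg _ _ _ _) (h0 η S)]
  exact sum_congr rfl fun S _ => (ENNReal.ofReal_mul (gp_nonneg _ _ _ _)).symm

theorem ind86 (p : Prop) : P86.ind p = ENNReal.ofReal (ind p) := by
  by_cases h : p
  · rw [P86.ind_of h, ind_of h, ENNReal.ofReal_one]
  · rw [P86.ind_not h, ind_not h, ENNReal.ofReal_zero]

/-- The conditional mass of helper86 is a conditional mean of `Mod92`. -/
theorem mc_cE (η : Env) (c d : ℕ) (A : Finset ℕ → Finset ℕ → Prop) (S : Px (Pn N y)) :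
    mc μ s N y c d A η S.1 = cE (lw μ s η N (Pn N y)) (pJ c d) (fun S' => ind (A S.1 S'.1)) S := by
  unfold mc
  rw [dif_pos S.2]
  rfl

theorem meas_mc (c d : ℕ) (A : Finset ℕ → Finset ℕ → Prop) (S : Finset ℕ) : Measurable fun η => mc μ s N y c d A η S := by
  classical
  by_cases h : S ∈ Pn N y
  · have e : (fun η => mc μ s N y c d A η S) = fun η =>
        cE (lw μ s η N (Pn N y)) (pJ c d) (fun S' => ind (A S S'.1)) (⟨S, h⟩ : Px (Pn N y)) := by
      funext η
      exact mc_cE η c d A ⟨S, h⟩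
    rw [e]
    exact meas_cE (w := fun η => lw μ s η N (Pn N y)) (f := fun _ (S' : Px (Pn N y)) => ind (A S S'.1)) (fun x => meas_lw x)
      (fun x => measurable_const) (pJ c d) _
  · have e : (fun η => mc μ s N y c d A η S) = fun _ => 0 := by
      funext η
      unfold mc
      rw [dif_neg h]
    rw [e]
    exact measurable_const

/-- **From the annealed products to the model.** -/
theorem mod_of_Q1 [IsProbabilityMeasure μ] {k : ℕ} (hy : y ≤ N) {c d : Fin k → ℕ} {A : Fin k → Finset ℕ → Finset ℕ → Prop}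
    {F : Env → Finset ℕ → Prop} (hF : Ms F) {a e : ℝ} (ha : 0 ≤ a) (he : 0 ≤ e)
    (h : Q1 μ s N y (fun η S => P86.ind (F η S) * ∏ i, ENNReal.ofReal (mc μ s N y (c i) (d i) (A i) η S)) ≤
      ENNReal.ofReal a * P1 μ s N y F + ENNReal.ofReal e) :
    ∫ ω, gm (wm μ s N (Pn N y) ω) (fun S => ind (F ω.1 S.1) *
        ∏ i, cE (wm μ s N (Pn N y) ω) (pJ (c i) (d i)) (fun S' => ind (A i S.1 S'.1)) S) ∂(Pm μ N) ≤
      a * ∫ ω, gm (wm μ s N (Pn N y) ω) (fun S => ind (F ω.1 S.1)) ∂(Pm μ N) + e := by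
  haveI := ne_Pn hy
  set f : Env → Finset ℕ → ℝ := fun η S => ind (F η S) * ∏ i, mc μ s N y (c i) (d i) (A i) η S with hf
  have f0 : ∀ η S, 0 ≤ f η S := fun η S => mul_nonneg (ind_nonneg _) (prod_nonneg fun i _ => P86.mc_nonneg η S)
  have f1 : ∀ η S, f η S ≤ 1 := fun η S =>
    mul_le_one₀ (ind_le_one _) (prod_nonneg fun i _ => P86.mc_nonneg η S)
      (prod_le_one (fun i _ => P86.mc_nonneg η S) fun i _ => P86.mc_le_one η S)
  have fm : ∀ S, Measurable fun η => f η S := fun S =>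
    (meas_ind (hF S)).mul (Finset.measurable_fun_prod _ fun i _ => meas_mc (c i) (d i) (A i) S)
  have e1 : (fun (η : Env) (S : Finset ℕ) => P86.ind (F η S) * ∏ i, ENNReal.ofReal (mc μ s N y (c i) (d i) (A i) η S)) =
      fun η S => ENNReal.ofReal (f η S) := by
    funext η S
    rw [hf, ENNReal.ofReal_mul (ind_nonneg _), ENNReal.ofReal_prod_of_nonneg fun i _ => P86.mc_nonneg η S, ind86]
  have gF : ∀ η : Env, 0 ≤ gm (lw μ s η N (Pn N y)) (fun S => ind (F η S.1)) := fun η => gm_nonneg _ fun S => ind_nonneg _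
  have gf : ∀ η : Env, 0 ≤ gm (lw μ s η N (Pn N y)) (fun S => f η S.1) := fun η => gm_nonneg _ fun S => f0 η S.1
  have I0 : 0 ≤ ∫ η, gm (lw μ s η N (Pn N y)) (fun S => ind (F η S.1)) ∂(law μ) := integral_nonneg gF
  rw [e1, Q1_int fm f0 f1, P1_int hF, ← ENNReal.ofReal_mul ha, ← ENNReal.ofReal_add (mul_nonneg ha I0) he] at h
  have h2 := (ENNReal.ofReal_le_ofReal_iff (add_nonneg (mul_nonneg ha I0) he)).1 h
  have e3 : ∫ ω, gm (wm μ s N (Pn N y) ω) (fun S => ind (F ω.1 S.1)) ∂(Pm μ N) =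
      ∫ η, gm (lw μ s η N (Pn N y)) (fun S => ind (F η S.1)) ∂(law μ) :=
    int_fst (Φ := fun η => gm (lw μ s η N (Pn N y)) (fun S => ind (F η S.1))) (meas_gm_ind hF) fun η => abs_gm_ind η (F η)
  have e4 : ∫ ω, gm (wm μ s N (Pn N y) ω) (fun S => ind (F ω.1 S.1) *
        ∏ i, cE (wm μ s N (Pn N y) ω) (pJ (c i) (d i)) (fun S' => ind (A i S.1 S'.1)) S) ∂(Pm μ N) =
      ∫ η, gm (lw μ s η N (Pn N y)) (fun S => f η S.1) ∂(law μ) := by
    have e5 : ∀ ω : Env × Finset ℕ, gm (wm μ s N (Pn N y) ω) (fun S => ind (F ω.1 S.1) *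
        ∏ i, cE (wm μ s N (Pn N y) ω) (pJ (c i) (d i)) (fun S' => ind (A i S.1 S'.1)) S) =
        (fun η => gm (lw μ s η N (Pn N y)) (fun S => f η S.1)) ω.1 := by
      intro ω
      show gm (lw μ s ω.1 N (Pn N y)) _ = gm (lw μ s ω.1 N (Pn N y)) _
      congr 1
      funext S
      show _ = ind (F ω.1 S.1) * ∏ i, mc μ s N y (c i) (d i) (A i) ω.1 S.1
      congr 1
      refine prod_congr rfl fun i _ => ?_
      exact (mc_cE ω.1 (c i) (d i) (A i) S).symm
    simp only [e5]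
    refine int_fst (meas_gm (fun x => meas_lw x) fun x => fm x.1) (M := 1) fun η => ?_
    rw [abs_of_nonneg (gf η)]
    calc _ ≤ gm (lw μ s η N (Pn N y)) (fun _ => 1) := gm_mono _ fun S => f1 η S.1
      _ = 1 := gm_const _ 1
  rw [e3, e4]
  exact h2

/-- **THE PRODUCT PRICE IN THE MODEL** (general pair events; free replicas: block `[0, N)`, `cE_free`). -/
theorem prod36A [IsProbabilityMeasure μ] {c₀ C₀ : ℝ} {n₀ : ℕ} (h : In μ s c₀ C₀ n₀) (k : ℕ) : ∀ ε θ : ℝ, 0 < ε → 0 < θ →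
    ∃ δ c' : ℝ, 0 < δ ∧ 0 < c' ∧ ∃ L₀ : ℕ,
    ∀ L : ℕ, L₀ ≤ L → ∀ N : ℕ, L ≤ 16 * N → N ≤ L → ∀ y : ℕ, y ≤ N → |(y : ℝ) - sl μ s * N| ≤ ((L : ℝ) ^ δ * wd' μ s N) →
    ∀ (t τ c d : Fin k → ℕ), (∀ i, (L : ℝ) ^ θ ≤ t i ∧ t i ≤ N) → (∀ i, c i ≤ d i ∧ d i ≤ N) →
    (∀ i i', i < i' → ∀ j ∈ Ico (τ i) (τ i + t i), j + 64 * t i' ≤ τ i' ∨ τ i' + 65 * t i' ≤ j) →
    ∀ A : Fin k → Finset ℕ → Finset ℕ → Prop, (∀ i, On2 (c i) (d i) (A i)) → (∀ i S S', A i S S' → Gp N (t i) (τ i) S S') →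
    ∀ F : Env → Finset ℕ → Prop, Ms F → (∀ i, OffRows (Ico (τ i) (τ i + t i)) F) →
    ∫ ω, gm (wm μ s N (Pn N y) ω) (fun S => ind (F ω.1 S.1) *
        ∏ i, cE (wm μ s N (Pn N y) ω) (pJ (c i) (d i)) (fun S' => ind (A i S.1 S'.1)) S) ∂(Pm μ N) ≤
      (∏ i, (L : ℝ) ^ ε * (EE' μ s (t i))⁻¹) * ∫ ω, gm (wm μ s N (Pn N y) ω) (fun S => ind (F ω.1 S.1)) ∂(Pm μ N) +
        Real.exp (-(L : ℝ) ^ c') := by
  intro ε θ hε hθ
  obtain ⟨δ, c', hδ, hc', L₀, hP⟩ := pp86A h k ε θ hε hθ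
  refine ⟨δ, c', hδ, hc', L₀, fun L hL N hLN hNL y hyN hyc t τ c d ht hcd hsep A hA hAG F hF hFo => ?_⟩
  have h1 := hP L hL N hLN hNL y hyN hyc t τ c d ht hcd hsep A hA hAG F hF hFo
  have hp : ∀ i : Fin k, 0 ≤ (L : ℝ) ^ ε * (EE' μ s (t i))⁻¹ := fun i => by
    have : 0 ≤ EE' μ s (t i) := le_trans zero_le_one (le_max_left _ _)
    positivity
  rw [← ENNReal.ofReal_prod_of_nonneg fun i _ => hp i] at h1
  exact mod_of_Q1 hyN hF (prod_nonneg fun i _ => hp i) (Real.exp_pos _).le h1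

end

end Pool.Agent.W_7d29a1_C0.Bri36
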