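import Pool.Agent.W_7d29a1_C0.CrossX82
import Pool.Agent.W_7d29a1_C0.VT31B

/-!
CURV0 (MP_7d29a1_pr): SlabD82 / CrossX82 in the names of VT31. `p : X → Y` is any map (e.g. `pJ c d` of Mod92), the functions live
on `X`. `kX p gs w` = joint conditional cumulant of the list `gs` given `p`, a function on `X`; `CX p w ls l` = cumulant under the
full Gibbs measure of the `kX p gs w`, `gs ∈ ls`, and of the functions `l` (functions of `p`); `DX` = its derivative in a
direction. (helper82)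
-/

set_option autoImplicit false
set_option linter.unusedSectionVars false
set_option linter.unusedVariables false

namespace Pool.W7d29a1.C0

open Finset Filter Topology MeasureTheory intervalIntegral
open Pool.Agent.W_7d29a1_C0 Pool.W7d29a1.C0.VT31

noncomputable section

variable {X : Type*} [Fintype X] [Nonempty X] {Y : Type*} [DecidableEq Y]

/-! ### The image of `p` -/

/-- The image of `p`. -/
abbrev Im (p : X → Y) : Type _ := {y : Y // y ∈ univ.image p}

/-- `p` onto its image. -/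
def pr (p : X → Y) (x : X) : Im p := ⟨p x, Finset.mem_image_of_mem p (Finset.mem_univ x)⟩

instance (p : X → Y) : Nonempty (Im p) := by
  obtain ⟨x⟩ := (inferInstance : Nonempty X)
  exact ⟨pr p x⟩

theorem pr_surj (p : X → Y) : Function.Surjective (pr p) := by
  rintro ⟨y, hy⟩
  obtain ⟨x, _, rfl⟩ := Finset.mem_image.1 hy
  exact ⟨x, rfl⟩

theorem pr_eq {p : X → Y} {x x' : X} : pr p x = pr p x' ↔ p x = p x' := by
  unfold pr
  exact Subtype.mk_eq_mk

/-- The descent of a function of `p`. -/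
def dsc (p : X → Y) (f : X → ℝ) : Im p → ℝ := fun y => f (pr_surj p y).choose

theorem dsc_pr {p : X → Y} {f : X → ℝ} (hf : Mp p f) : dsc p f ∘ pr p = f := by
  funext x
  exact hf _ _ (pr_eq.1 (pr_surj p (pr p x)).choose_spec)

theorem mp_comp (p : X → Y) (F : Im p → ℝ) : Mp p (F ∘ pr p) := fun x x' h => by
  show F (pr p x) = F (pr p x')
  rw [pr_eq.2 h]

theorem exists_dsc {p : X → Y} : ∀ (l : List (X → ℝ)), (∀ f ∈ l, Mp p f) → ∃ l' : List (Im p → ℝ), l = l'.map fun F => F ∘ pr p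
  | [], _ => ⟨[], rfl⟩
  | f :: l, h => by
    obtain ⟨l', hl⟩ := exists_dsc l fun g hg => h g (List.mem_cons_of_mem _ hg)
    refine ⟨dsc p f :: l', ?_⟩
    rw [List.map_cons, dsc_pr (h f List.mem_cons_self), ← hl]

/-! ### The covariance and the conditional moments -/

theorem gc_eq_cm (w f h : X → ℝ) : gc w f h = cm [f, h] w := (cm_two w f h).symm

theorem gm_eq_cm (w f : X → ℝ) : gm w f = cm [f] w := (cm_one w f).symm

/-- The joint conditional cumulant of the list `gs` given `p`, as a function on `X`. -/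
def kX (p : X → Y) (gs : List (X → ℝ)) (w : X → ℝ) : X → ℝ := cj (pr p) gs w ∘ pr p

theorem mp_kX (p : X → Y) (gs : List (X → ℝ)) (w : X → ℝ) : Mp p (kX p gs w) := mp_comp p _

theorem cj_one_apply (p : X → Y) (w f : X → ℝ) (x : X) : cj (pr p) [f] w (pr p x) = cE w p f x := by
  have := nonempty_fib (pr_surj p) (pr p x)
  have h := cc_one (pr_surj p) f w (pr p x)
  rw [cc_eq_cj] at h
  have h' : cj (pr p) [f] w (pr p x) = _ := h
  rw [h']
  unfold cE fz
  have e : ∀ x', (pr p x' = pr p x) = (p x' = p x) := fun x' => propext pr_eq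
  simp only [Finset.sum_filter, e]

/-- The conditional mean. -/
theorem kX_one (p : X → Y) (w f : X → ℝ) : kX p [f] w = cE w p f := by
  funext x
  exact cj_one_apply p w f x

/-- The conditional covariance. -/
theorem kX_two (p : X → Y) (w f g : X → ℝ) : kX p [f, g] w = cC w p f g := by
  funext x
  have := nonempty_fib (pr_surj p) (pr p x)
  have h0 : ∀ u : X → ℝ, gav univ (ew (rs (pr p) (pr p x) w)) (rs (pr p) (pr p x) u) = cE w p u x := fun u => by
    rw [← cm_one]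
    exact cj_one_apply p w u x
  show cm [rs (pr p) (pr p x) f, rs (pr p) (pr p x) g] (rs (pr p) (pr p x) w) = _
  rw [cm_two]
  unfold gcov cC
  rw [Pi.sub_apply, Pi.mul_apply, h0, h0]
  have := h0 (f * g)
  rw [← this]
  rfl

theorem kX_self (p : X → Y) (w g : X → ℝ) : kX p [g, g] w = cV w p g := kX_two p w g g

/-- The cumulant, under the full Gibbs measure, of the conditional cumulants of the lists `ls` and of the functions `l`. -/
def CX (p : X → Y) (w : X → ℝ) (ls : List (List (X → ℝ))) (l : List (X → ℝ)) : ℝ :=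
  cm (ls.map (fun gs => kX p gs w) ++ l) w

/-- The sum over the lists of the terms in which `C` is added to one list. -/
def dxs (p : X → Y) (w C : X → ℝ) (l : List (X → ℝ)) : List (List (X → ℝ)) → List (List (X → ℝ)) → ℝ
  | _, [] => 0
  | pre, gs :: ls => CX p w (pre ++ (C :: gs) :: ls) l + dxs p w C l (pre ++ [gs]) ls

/-- The derivative of `CX` in the direction `C`. -/
def DX (p : X → Y) (w C : X → ℝ) (ls : List (List (X → ℝ))) (l : List (X → ℝ)) : ℝ :=
  CX p w ([C] :: ls) l + dxs p w C l [] ls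

/-- The bridge. -/
theorem CX_eq (p : X → Y) (w : X → ℝ) (ls : List (List (X → ℝ))) (l : List (Im p → ℝ)) :
    CX p w ls (l.map fun F => F ∘ pr p) = CJ (pr p) w ls l := by
  unfold CX CJ
  rw [← cm_marg (pr_surj p), List.map_append, List.map_map]
  rfl

theorem dxs_eq (p : X → Y) (w C : X → ℝ) (l : List (Im p → ℝ)) : ∀ ls pre : List (List (X → ℝ)),
    dxs p w C (l.map fun F => F ∘ pr p) pre ls = djs (pr p) w C l pre ls
  | [], pre => rfl
  | gs :: ls, pre => by
    have ih := dxs_eq p w C l ls (pre ++ [gs])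
    show CX p w (pre ++ (C :: gs) :: ls) (l.map fun F => F ∘ pr p) + dxs p w C (l.map fun F => F ∘ pr p) (pre ++ [gs]) ls =
      CJ (pr p) w (pre ++ (C :: gs) :: ls) l + djs (pr p) w C l (pre ++ [gs]) ls
    rw [ih, CX_eq]

theorem DX_eq (p : X → Y) (w C : X → ℝ) (ls : List (List (X → ℝ))) (l : List (Im p → ℝ)) :
    DX p w C ls (l.map fun F => F ∘ pr p) = DJ (pr p) w C ls l := by
  unfold DX DJ
  rw [CX_eq, dxs_eq]

/-- The derivative rule. -/
theorem hasDerivAt_CX {p : X → Y} {W : ℝ → X → ℝ} {C : X → ℝ} {t : ℝ} (hW : HasDerivAt W C t)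
    (ls : List (List (X → ℝ))) {l : List (X → ℝ)} (hl : ∀ f ∈ l, Mp p f) :
    HasDerivAt (fun u => CX p (W u) ls l) (DX p (W t) C ls l) t := by
  obtain ⟨l', rfl⟩ := exists_dsc l hl
  simp only [CX_eq, DX_eq]
  exact hasDerivAt_CJ (pr_surj p) hW ls l'

theorem DX_add (p : X → Y) (w a b : X → ℝ) (ls : List (List (X → ℝ))) {l : List (X → ℝ)} (hl : ∀ f ∈ l, Mp p f) :
    DX p w (a + b) ls l = DX p w a ls l + DX p w b ls l := by
  obtain ⟨l', rfl⟩ := exists_dsc l hl
  simp only [DX_eq]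
  exact DJ_add (pr_surj p) w a b ls l'

theorem DX_sub (p : X → Y) (w a b : X → ℝ) (ls : List (List (X → ℝ))) {l : List (X → ℝ)} (hl : ∀ f ∈ l, Mp p f) :
    DX p w (a - b) ls l = DX p w a ls l - DX p w b ls l := by
  obtain ⟨l', rfl⟩ := exists_dsc l hl
  simp only [DX_eq]
  exact DJ_sub (pr_surj p) w a b ls l'

theorem DX_smul (p : X → Y) (w : X → ℝ) (c : ℝ) (a : X → ℝ) (ls : List (List (X → ℝ))) {l : List (X → ℝ)}
    (hl : ∀ f ∈ l, Mp p f) : DX p w (c • a) ls l = c * DX p w a ls l := by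
  obtain ⟨l', rfl⟩ := exists_dsc l hl
  simp only [DX_eq]
  exact DJ_smul (pr_surj p) w c a ls l'

/-- **The slab step**, pathwise: `d_t Φ = D_C Φ + D_(g - C) Φ`. -/
theorem DX_split (p : X → Y) (w C g : X → ℝ) (ls : List (List (X → ℝ))) {l : List (X → ℝ)} (hl : ∀ f ∈ l, Mp p f) :
    DX p w g ls l = DX p w C ls l + DX p w (g - C) ls l := by
  rw [DX_sub p w g C ls hl]
  ring

theorem CX_perm (p : X → Y) (w : X → ℝ) {ls ls' : List (List (X → ℝ))} (h : ls.Perm ls') (l : List (X → ℝ)) :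
    CX p w ls l = CX p w ls' l := by
  unfold CX
  rw [cm_perm ((h.map _).append_right l)]

theorem CX_head_add (p : X → Y) (w a b : X → ℝ) (gs : List (X → ℝ)) (ls : List (List (X → ℝ))) {l : List (X → ℝ)}
    (hl : ∀ f ∈ l, Mp p f) : CX p w (((a + b) :: gs) :: ls) l = CX p w ((a :: gs) :: ls) l + CX p w ((b :: gs) :: ls) l := by
  obtain ⟨l', rfl⟩ := exists_dsc l hl
  simp only [CX_eq]
  exact CJ_head_add (pr_surj p) w a b gs ls l'

theorem CX_head_sub (p : X → Y) (w a b : X → ℝ) (gs : List (X → ℝ)) (ls : List (List (X → ℝ))) {l : List (X → ℝ)}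
    (hl : ∀ f ∈ l, Mp p f) : CX p w (((a - b) :: gs) :: ls) l = CX p w ((a :: gs) :: ls) l - CX p w ((b :: gs) :: ls) l := by
  obtain ⟨l', rfl⟩ := exists_dsc l hl
  simp only [CX_eq]
  exact CJ_head_sub (pr_surj p) w a b gs ls l'

/-- Order one: `CX [[γ]] [f] = Cov(cE γ, f)`. -/
theorem CX_1 (p : X → Y) (w a f : X → ℝ) : CX p w [[a]] [f] = gc w (cE w p a) f := by
  rw [gc_eq_cm, ← kX_one]
  rfl

theorem CX_2 (p : X → Y) (w a b f : X → ℝ) : CX p w [[a, b]] [f] = gc w (cC w p a b) f := by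
  rw [gc_eq_cm, ← kX_two]
  rfl

theorem CX_11 (p : X → Y) (w a b f : X → ℝ) : CX p w [[a], [b]] [f] = cm [cE w p a, cE w p b, f] w := by
  rw [← kX_one, ← kX_one]
  rfl

/-- A single direction may be inserted without the projection. -/
theorem CX_cons_one (p : X → Y) (w C : X → ℝ) (ls : List (List (X → ℝ))) {l : List (X → ℝ)} (hl : ∀ f ∈ l, Mp p f) :
    CX p w ([C] :: ls) l = cm (C :: (ls.map (fun gs => kX p gs w) ++ l)) w := by
  obtain ⟨l', rfl⟩ := exists_dsc l hl
  have h := cm_proj_one (pr_surj p) C w (ls.map (fun gs => cj (pr p) gs w) ++ l')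
  have e : ls.map (fun gs => kX p gs w) ++ l'.map (fun F => F ∘ pr p) =
      (ls.map (fun gs => cj (pr p) gs w) ++ l').map fun F => F ∘ pr p := by
    rw [List.map_append, List.map_map]
    rfl
  rw [e, h, CX_eq]
  unfold CJ
  rw [cc_eq_cj]
  rfl

/-! ### The functionals of the cross term -/

/-- `D_C Cov(cE γ, f)`. -/
theorem DX_1 (p : X → Y) (w C γ : X → ℝ) (l : List (X → ℝ)) :
    DX p w C [[γ]] l = CX p w [[C], [γ]] l + CX p w [[C, γ]] l := by
  simp [DX, dxs]

/-- `D_C κ₃(cE γ, cE g, f)`. -/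
theorem DX_11 (p : X → Y) (w C γ g : X → ℝ) (l : List (X → ℝ)) :
    DX p w C [[γ], [g]] l = CX p w [[C], [γ], [g]] l + CX p w [[C, γ], [g]] l + CX p w [[γ], [C, g]] l := by
  simp only [DX, dxs, List.nil_append, List.cons_append, add_zero]
  ring

/-- `D_C Cov(cC(γ, g), f)`. -/
theorem DX_2 (p : X → Y) (w C γ g : X → ℝ) (l : List (X → ℝ)) :
    DX p w C [[γ, g]] l = CX p w [[C], [γ, g]] l + CX p w [[C, γ, g]] l := by
  simp [DX, dxs]

/-- The derivative in the direction `C` of `d_t Cov(cC(γ, g), l)`. -/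
def D2X (p : X → Y) (w C γ g : X → ℝ) (l : List (X → ℝ)) : ℝ := DX p w C [[g], [γ, g]] l + DX p w C [[g, γ, g]] l

theorem D2X_eq (p : X → Y) (w C γ g : X → ℝ) (l : List (Im p → ℝ)) :
    D2X p w C γ g (l.map fun F => F ∘ pr p) = D2 (pr p) w C γ g l := by
  unfold D2X D2
  rw [DX_eq, DX_eq]

/-- The insertion step: `κ₃(cE a, cE b, f) = D_C Cov(cE b, f) - Cov(cC(C, b), f) + κ₃(cE (a - C), cE b, f)`. -/
theorem stepX_11 (p : X → Y) (w C a b : X → ℝ) {l : List (X → ℝ)} (hl : ∀ f ∈ l, Mp p f) :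
    CX p w [[a], [b]] l = DX p w C [[b]] l - CX p w [[C, b]] l + CX p w [[a - C], [b]] l := by
  rw [DX_1, CX_head_sub p w a C [] [[b]] hl]
  ring

section Form

variable (γ g w : X → ℝ)

/-- **THE CROSS TERM IN WHOLE DERIVATIVES, in the names of VT31** (master page (2.3) and 7 (B)): `f` a function of `p`. -/
theorem crossX_VT (p : X → Y) {f : X → ℝ} (hf : Mp p f) :
    Ac (fun a => gc (w + a • g) (cE (w + a • g) p γ - (a / 3) • cC (w + a • g) p γ g) f) =
      Dc (fun t => gm (w + t • g) f) + Mc (fun t => gc (w + t • g) (cE (w + t • g) p (γ - g)) f) +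
      (1 / 4) * (∫ t in (-1 : ℝ)..1, (1 - t ^ 2) * DX p (w + t • g) g [[γ], [g]] [f]) -
      (1 / 12) * ∫ t in (-1 : ℝ)..1, t * (1 - t ^ 2) * D2X p (w + t • g) g γ g [f] := by
  have hl : ∀ F ∈ [f], Mp p F := fun F hF => by rwa [List.mem_singleton.1 hF]
  have e0 : [f] = [dsc p f].map fun F => F ∘ pr p := by rw [List.map_cons, dsc_pr hf, List.map_nil]
  have h := crossX_nu (pr_surj p) γ g w [dsc p f]
  have e1 : ∀ a : ℝ, gc (w + a • g) (cE (w + a • g) p γ - (a / 3) • cC (w + a • g) p γ g) f =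
      CJ (pr p) (w + a • g) [[γ]] [dsc p f] - a / 3 * CJ (pr p) (w + a • g) [[γ, g]] [dsc p f] := fun a => by
    have e2 : cE (w + a • g) p γ - (a / 3) • cC (w + a • g) p γ g = cE (w + a • g) p γ + (-(a / 3)) • cC (w + a • g) p γ g := by
      rw [neg_smul, sub_eq_add_neg]
    rw [e2, gc_add_left, gc_smul_left, ← CX_1, ← CX_2, e0, CX_eq, CX_eq]
    ring
  have e3 : ∀ t : ℝ, gc (w + t • g) (cE (w + t • g) p (γ - g)) f = CJ (pr p) (w + t • g) [[γ - g]] [dsc p f] := fun t => by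
    rw [← CX_1, e0, CX_eq]
  have e4 : ∀ t : ℝ, gm (w + t • g) f = cm [dsc p f] (wmarg (pr p) (w + t • g)) := fun t => by
    rw [gm_eq_cm, e0, cm_marg (pr_surj p)]
  have e5 : ∀ t : ℝ, DX p (w + t • g) g [[γ], [g]] [f] = DJ (pr p) (w + t • g) g [[γ], [g]] [dsc p f] := fun t => by
    rw [e0, DX_eq]
  have e6 : ∀ t : ℝ, D2X p (w + t • g) g γ g [f] = D2 (pr p) (w + t • g) g γ g [dsc p f] := fun t => by
    rw [e0, D2X_eq]
  simp_rw [e1, e3, e4, e5, e6]
  exact h

/-- `γ = g`: helper38's functional `Zr`. -/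
theorem crossX_Zr (p : X → Y) {f : X → ℝ} (hf : Mp p f) :
    Ac (fun a => gc (w + a • g) (Zr (w + a • g) p a g) f) = Dc (fun t => gm (w + t • g) f) +
      (1 / 4) * (∫ t in (-1 : ℝ)..1, (1 - t ^ 2) * DX p (w + t • g) g [[g], [g]] [f]) -
      (1 / 12) * ∫ t in (-1 : ℝ)..1, t * (1 - t ^ 2) * D2X p (w + t • g) g g g [f] := by
  have h := crossX_VT g g w p hf
  have e : ∀ t : ℝ, gc (w + t • g) (cE (w + t • g) p (g - g)) f = 0 := fun t => by
    rw [sub_self, cE_zero]
    have := gc_smul_left (w + t • g) 0 0 f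
    rwa [smul_zero, zero_mul] at this
  simp_rw [e] at h
  have e2 : Mc (fun _ : ℝ => (0 : ℝ)) = 0 := by
    unfold Mc
    simp
  rw [e2, add_zero] at h
  exact h

end Form

/-! ### Continuity in the weights -/

theorem continuous_CX {p : X → Y} (ls : List (List (X → ℝ))) {l : List (X → ℝ)} (hl : ∀ f ∈ l, Mp p f) :
    Continuous fun w => CX p w ls l := by
  obtain ⟨l', rfl⟩ := exists_dsc l hl
  simp only [CX_eq]
  exact continuous_CJ (pr_surj p) ls l'

theorem continuous_DX {p : X → Y} (C : X → ℝ) (ls : List (List (X → ℝ))) {l : List (X → ℝ)} (hl : ∀ f ∈ l, Mp p f) :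
    Continuous fun w => DX p w C ls l := by
  obtain ⟨l', rfl⟩ := exists_dsc l hl
  simp only [DX_eq]
  exact continuous_DJ (pr_surj p) C ls l'

/-! ### In expectation -/

section Exp

open Pool.Agent.W_7d29a1_F Pool.Agent.W_7d29a1_C0.H32 Pool.W7d29a1.C0.H19

variable {μ : Measure ℝ} {f f' : ℝ → ℝ}

/-- **The slab derivative of a block functional** (the slab may lie inside the block): `E D_C Φ = E Φ δ(C)`. -/
theorem slab_CX [IsProbabilityMeasure μ] (h : DenLaw μ f f') {S : Finset Pt} {c : Pt → Env → ℝ} {M : ℝ} (b : BF S c M)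
    {p : X → Y} {w : Env → X → ℝ} {N : Pt → X → ℝ}
    (hw : ∀ q ∈ S, ∀ (η : Env) (x : ℝ), HasDerivAt (fun t => w (Function.update η q t)) (N q) x)
    {ls : Env → List (List (X → ℝ))} (hls : ∀ q ∈ S, ∀ (η : Env) (x : ℝ), ls (Function.update η q x) = ls η)
    {F : Env → X → ℝ} (hF : ∀ η, Mp p (F η)) (hFb : ∀ q ∈ S, ∀ (η : Env) (x : ℝ), F (Function.update η q x) = F η)
    (m0 : MemLp (fun η => CX p (w η) (ls η) [F η]) 2 (law μ))
    (m1 : ∀ q ∈ S, MemLp (fun η => DX p (w η) (N q) (ls η) [F η]) 2 (law μ)) :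
    ∫ η, DX p (w η) (Cf S c N η) (ls η) [F η] ∂(law μ) = ∫ η, CX p (w η) (ls η) [F η] * SS (sc f f') S c η ∂(law μ) := by
  have e0 : ∀ η, [F η] = [dsc p (F η)].map fun G => G ∘ pr p := fun η => by rw [List.map_cons, dsc_pr (hF η), List.map_nil]
  have hl : ∀ q ∈ S, ∀ (η : Env) (x : ℝ), [dsc p (F (Function.update η q x))] = [dsc p (F η)] := fun q hq η x => by
    rw [hFb q hq]
  have r1 : ∀ η, CX p (w η) (ls η) [F η] = CJ (pr p) (w η) (ls η) [dsc p (F η)] := fun η => by rw [e0, CX_eq]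
  have r2 : ∀ (C : X → ℝ) (η : Env), DX p (w η) C (ls η) [F η] = DJ (pr p) (w η) C (ls η) [dsc p (F η)] := fun C η => by
    rw [e0, DX_eq]
  simp_rw [r1] at m0
  simp_rw [r2] at m1
  simp_rw [r1, r2]
  exact slab_CJ h b (pr_surj p) hw hls hl m0 m1

/-- **The second slab** (behind the first one). -/
theorem slab_CX_two [IsProbabilityMeasure μ] (h : DenLaw μ f f') {S1 S2 : Finset Pt} (hd : Disjoint S1 S2)
    {c1 c2 : Pt → Env → ℝ} {M1 M2 : ℝ} (b1 : BF S1 c1 M1) (b2 : BF S2 c2 M2)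
    (h12 : ∀ q1 ∈ S1, ∀ q2 ∈ S2, ∀ (η : Env) (x : ℝ), c1 q1 (Function.update η q2 x) = c1 q1 η)
    {p : X → Y} {w : Env → X → ℝ} {N : Pt → X → ℝ}
    (hw : ∀ q ∈ S2, ∀ (η : Env) (x : ℝ), HasDerivAt (fun t => w (Function.update η q t)) (N q) x)
    {ls : Env → List (List (X → ℝ))} (hls : ∀ q ∈ S2, ∀ (η : Env) (x : ℝ), ls (Function.update η q x) = ls η)
    {F : Env → X → ℝ} (hF : ∀ η, Mp p (F η)) (hFb : ∀ q ∈ S2, ∀ (η : Env) (x : ℝ), F (Function.update η q x) = F η)
    (m0 : MemLp (fun η => CX p (w η) (ls η) [F η]) 2 (law μ))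
    (m1 : ∀ q ∈ S2, MemLp (fun η => DX p (w η) (N q) (ls η) [F η]) 2 (law μ)) :
    ∫ η, DX p (w η) (Cf S2 c2 N η) (ls η) [F η] * SS (sc f f') S1 c1 η ∂(law μ) =
      ∫ η, CX p (w η) (ls η) [F η] * (SS (sc f f') S1 c1 η * SS (sc f f') S2 c2 η) ∂(law μ) := by
  have e0 : ∀ η, [F η] = [dsc p (F η)].map fun G => G ∘ pr p := fun η => by rw [List.map_cons, dsc_pr (hF η), List.map_nil]
  have hl : ∀ q ∈ S2, ∀ (η : Env) (x : ℝ), [dsc p (F (Function.update η q x))] = [dsc p (F η)] := fun q hq η x => by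
    rw [hFb q hq]
  have r1 : ∀ η, CX p (w η) (ls η) [F η] = CJ (pr p) (w η) (ls η) [dsc p (F η)] := fun η => by rw [e0, CX_eq]
  have r2 : ∀ (C : X → ℝ) (η : Env), DX p (w η) C (ls η) [F η] = DJ (pr p) (w η) C (ls η) [dsc p (F η)] := fun C η => by
    rw [e0, DX_eq]
  simp_rw [r1] at m0
  simp_rw [r2] at m1
  simp_rw [r1, r2]
  exact slab_CJ_two h hd b1 b2 h12 (pr_surj p) hw hls hl m0 m1

end Exp

end

end Pool.W7d29a1.C0
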