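import Pool.Agent.W_7d29a1_C0.CrossW81

/-!
STORM C0 (helper46): THE EXACT RESPONSE AGAINST THE CLIPPED ONE, pathwise (finite `X`, no probability). `w` = log weights, `g` = half response
of the fine window (clipped), `a = ± 1`, `p` = outside of the base window. `gb_log46`: the exact response of the base window is
`- (a / 2) log cE w p e^(- 2 a g)`. `ρ₀` = exact ratio of the fine window, `ρ = cE w p ρ₀` = exact ratio of the base window,
`κ`, `ib` = the errors of the clipping of the fine window. `good46`: on the good set the exact response is `- (a / 2) log ρ` up to `2 e^(-ξ)`.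
-/

set_option autoImplicit false
set_option linter.unusedSectionVars false
set_option linter.unusedVariables false

namespace Pool.Agent.W_7d29a1_C0.Cl46

open Finset MeasureTheory
open Pool.W7d29a1.C0 (gz gm gz_pos gz_ne gm_mono gm_nonneg gm_add gm_smul gb81 gb81_apply Mc)
open Pool.W7d29a1.C0.VT31

noncomputable section

variable {X : Type*} [Fintype X] [Nonempty X] {Y : Type*} [DecidableEq Y]

/-! ### The exact response -/

/-- The derivative of the log weight of a fibre. -/
theorem hasDerivAt_fz (w g : X → ℝ) (p : X → Y) (x : X) (t : ℝ) :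
    HasDerivAt (fun t : ℝ => Real.log (fz (w + t • g) p x)) (cE (w + t • g) p g x) t := by
  have h1 : HasDerivAt (fun t : ℝ => fz (w + t • g) p x)
      (∑ x', if p x' = p x then Real.exp ((w + t • g) x') * g x' else 0) t := by
    unfold fz
    refine HasDerivAt.fun_sum fun x' _ => ?_
    split_ifs
    · have h2 : HasDerivAt (fun t : ℝ => (w + t • g) x') (g x') t := by
        have h3 : (fun t : ℝ => (w + t • g) x') = fun t : ℝ => w x' + t * g x' := rfl
        rw [h3]
        simpa using ((hasDerivAt_id t).mul_const (g x')).const_add (w x')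
      exact h2.exp
    · exact hasDerivAt_const t 0
  exact h1.log (fz_pos _ _ _).ne'

theorem continuous_cE_line (w g f : X → ℝ) (p : X → Y) (x : X) : Continuous fun t : ℝ => cE (w + t • g) p f x := by
  have e : ∀ x', Continuous fun t : ℝ => (w + t • g) x' := fun x' => by
    show Continuous fun t : ℝ => w x' + t * g x'
    fun_prop
  unfold cE fz
  refine Continuous.div ?_ ?_ fun t => (fz_pos _ _ _).ne'
  · refine continuous_finsetSum _ fun x' _ => ?_
    split_ifs
    · exact (Real.continuous_exp.comp (e x')).mul continuous_const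
    · exact continuous_const
  · refine continuous_finsetSum _ fun x' _ => ?_
    split_ifs
    · exact Real.continuous_exp.comp (e x')
    · exact continuous_const

/-- The exact response is the half difference of the log weights of the fibre. -/
theorem gb_diff46 (w g : X → ℝ) (p : X → Y) (x : X) :
    gb81 w g p x = (Real.log (fz (w + (1 : ℝ) • g) p x) - Real.log (fz (w + (-1 : ℝ) • g) p x)) / 2 := by
  rw [gb81_apply]
  unfold Mc
  rw [intervalIntegral.integral_eq_sub_of_hasDerivAt (fun t _ => hasDerivAt_fz w g p x t)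
    ((continuous_cE_line w g g p x).intervalIntegrable _ _)]
  ring

/-- A change of the weights. -/
theorem fz_mul46 (w h : X → ℝ) (p : X → Y) (x : X) : fz (w + h) p x = fz w p x * cE w p (fun z => Real.exp (h z)) x := by
  unfold cE
  rw [mul_div_cancel₀ _ (fz_pos w p x).ne']
  unfold fz
  refine sum_congr rfl fun x' _ => ?_
  split_ifs
  · rw [Pi.add_apply, Real.exp_add]
  · rfl

theorem cE_exp_pos (w h : X → ℝ) (p : X → Y) (x : X) : 0 < cE w p (fun z => Real.exp (h z)) x := by
  have h1 := fz_mul46 w h p x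
  have h2 := fz_pos (w + h) p x
  rw [h1] at h2
  exact (pos_iff_pos_of_mul_pos h2).1 (fz_pos w p x)

/-- **The exact response** of the base window, seen from the actual measure `w` (the sign is `a`). -/
theorem gb_log46 (w g : X → ℝ) (p : X → Y) {a : ℝ} (ha : a = 1 ∨ a = -1) (x : X) :
    gb81 (w - a • g) g p x = -(a / 2) * Real.log (cE w p (fun z => Real.exp (-2 * a * g z)) x) := by
  have h0 := fz_pos w p x
  rw [gb_diff46]
  rcases ha with rfl | rfl
  · have e1 : w - (1 : ℝ) • g + (1 : ℝ) • g = w := by abel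
    have e2 : w - (1 : ℝ) • g + (-1 : ℝ) • g = w + (-2 : ℝ) • g := by
      rw [sub_eq_add_neg, ← neg_smul, add_assoc, ← add_smul]
      norm_num
    rw [e1, e2, fz_mul46 w ((-2 : ℝ) • g) p x]
    have h1 := cE_exp_pos w ((-2 : ℝ) • g) p x
    rw [Real.log_mul h0.ne' h1.ne']
    have e3 : (fun z => Real.exp (((-2 : ℝ) • g) z)) = fun z => Real.exp (-2 * 1 * g z) := by
      funext z
      rw [Pi.smul_apply, smul_eq_mul]
      ring_nf
    rw [e3]
    ring
  · have e1 : w - (-1 : ℝ) • g + (-1 : ℝ) • g = w := by abel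
    have e2 : w - (-1 : ℝ) • g + (1 : ℝ) • g = w + (2 : ℝ) • g := by
      rw [sub_eq_add_neg, ← neg_smul, add_assoc, ← add_smul]
      norm_num
    rw [e1, e2, fz_mul46 w ((2 : ℝ) • g) p x]
    have h1 := cE_exp_pos w ((2 : ℝ) • g) p x
    rw [Real.log_mul h0.ne' h1.ne']
    have e3 : (fun z => Real.exp (((2 : ℝ) • g) z)) = fun z => Real.exp (-2 * -1 * g z) := by
      funext z
      rw [Pi.smul_apply, smul_eq_mul]
      ring_nf
    rw [e3]
    ring

/-! ### The good set -/

theorem abs_log46 {y : ℝ} (h : |y - 1| ≤ 1 / 2) : |Real.log y| ≤ 2 * |y - 1| := by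
  have hy : 1 / 2 ≤ y := by linarith [(abs_le.1 h).1]
  have hy0 : 0 < y := by linarith
  have h1 := Real.log_le_sub_one_of_pos hy0
  have h2 := Real.log_le_sub_one_of_pos (inv_pos.2 hy0)
  rw [Real.log_inv] at h2
  have h3 : y⁻¹ - 1 = (1 - y) / y := by
    field_simp
  rw [h3] at h2
  rcases le_total 1 y with h4 | h4
  · rw [abs_of_nonneg (by linarith : 0 ≤ y - 1), abs_of_nonneg (Real.log_nonneg h4)]
    linarith
  · rw [abs_of_nonpos (by linarith : y - 1 ≤ 0), abs_of_nonpos (Real.log_nonpos hy0.le h4)]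
    have h5 : (1 - y) / y ≤ 2 * (1 - y) := by
      rw [div_le_iff₀ hy0]
      nlinarith
    linarith

section good

variable {w g ρ₀ κ ib : X → ℝ} {p : X → Y} {a ξ : ℝ}

/-- The clipped ratio against the exact one. -/
theorem cE_diff46 (hib : ∀ x, |Real.exp (-2 * a * g x) - ρ₀ x| ≤ κ x + ib x) (x : X) :
    |cE w p (fun z => Real.exp (-2 * a * g z)) x - cE w p ρ₀ x| ≤ cE w p κ x + cE w p ib x := by
  have e1 : cE w p (fun z => Real.exp (-2 * a * g z)) x - cE w p ρ₀ x =
      cE w p ((fun z => Real.exp (-2 * a * g z)) - ρ₀) x := by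
    rw [cE_sub]
    rfl
  have e2 : cE w p κ x + cE w p ib x = cE w p (κ + ib) x := by
    rw [cE_add]
    rfl
  rw [e1, e2, abs_le]
  constructor
  · have h1 := cE_mono w p (f := -(κ + ib)) (g := (fun z => Real.exp (-2 * a * g z)) - ρ₀) (fun z => by
      have h2 := (abs_le.1 (hib z)).1
      simp only [Pi.neg_apply, Pi.add_apply, Pi.sub_apply]
      linarith) x
    rw [cE_neg, Pi.neg_apply] at h1
    exact h1
  · refine cE_mono w p (fun z => ?_) x
    have h2 := (abs_le.1 (hib z)).2
    simp only [Pi.add_apply, Pi.sub_apply]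
    linarith

/-- **On the good set** the exact response is the logarithm of the exact ratio. -/
theorem good46 (ha : a = 1 ∨ a = -1) (hib : ∀ x, |Real.exp (-2 * a * g x) - ρ₀ x| ≤ κ x + ib x) (hξ : 4 ≤ Real.exp ξ) {x : X}
    (hρ : Real.exp (-ξ) ≤ cE w p ρ₀ x) (h1 : cE w p ib x ≤ Real.exp (-(2 * ξ)))
    (h2 : cE w p κ x ≤ Real.exp (-(2 * ξ))) :
    |gb81 (w - a • g) g p x - -(a / 2) * Real.log (cE w p ρ₀ x)| ≤ 2 * Real.exp (-ξ) := by
  rw [gb_log46 w g p ha x]
  obtain ⟨u, hu⟩ : ∃ u, u = cE w p (fun z => Real.exp (-2 * a * g z)) x := ⟨_, rfl⟩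
  obtain ⟨r, hr⟩ : ∃ r, r = cE w p ρ₀ x := ⟨_, rfl⟩
  have hu0 : 0 < u := hu ▸ cE_exp_pos w (fun z => -2 * a * g z) p x
  have hd := cE_diff46 (w := w) (p := p) hib x
  rw [← hu, ← hr] at hd
  rw [← hr] at hρ
  rw [← hu, ← hr]
  have hr0 : 0 < r := (Real.exp_pos _).trans_le hρ
  have e1 : Real.exp (-(2 * ξ)) = Real.exp (-ξ) * Real.exp (-ξ) := by
    rw [← Real.exp_add]
    ring_nf
  have h3 : |u - r| ≤ 2 * Real.exp (-ξ) * r := by
    have h4 : Real.exp (-ξ) * Real.exp (-ξ) ≤ Real.exp (-ξ) * r := mul_le_mul_of_nonneg_left hρ (Real.exp_pos _).le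
    linarith
  have h5 : |u / r - 1| ≤ 2 * Real.exp (-ξ) := by
    have e2 : u / r - 1 = (u - r) / r := by
      field_simp
    rw [e2, abs_div, abs_of_pos hr0, div_le_iff₀ hr0]
    exact h3
  have h6 : Real.exp (-ξ) ≤ 1 / 4 := by
    rw [Real.exp_neg, one_div]
    exact inv_anti₀ (by norm_num) hξ
  have h7 := abs_log46 (h5.trans (by linarith))
  rw [Real.log_div hu0.ne' hr0.ne'] at h7
  have ha1 : |a| = 1 := by
    rcases ha with rfl | rfl <;> norm_num
  have e3 : -(a / 2) * Real.log u - -(a / 2) * Real.log r = -(a / 2) * (Real.log u - Real.log r) := by ring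
  rw [e3, abs_mul, abs_neg, abs_div, ha1, abs_two]
  linarith

end good

end

end Pool.Agent.W_7d29a1_C0.Cl46
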