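import Pool.Agent.W_7d29a1_C0.ClA46

/-!
STORM C0 (helper46): THE EXACT RESPONSE AGAINST THE CLIPPED ONE, pathwise, part 2. `w` = actual log weights, `ρ₀ ≥ 0` = exact ratio of the
fine window, `Qf w ρ₀ f` = mean under the flipped measure, `κ`, `ib` = the errors of the clipping of the fine window, `Ng` = the ends of
the base window are steep or the exact response is larger than `ξ`, `Gd` = the good set. `P46`, `Q46`: the complement of `Gd` is small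
under the actual and under the flipped measure. `mean46`: the mean of `|ge - γ|`.
-/

set_option autoImplicit false
set_option linter.unusedSectionVars false
set_option linter.unusedVariables false

namespace Pool.Agent.W_7d29a1_C0.Cl46

open Finset MeasureTheory
open Pool.W7d29a1.C0 (gz gm gz_pos gz_ne gm_mono gm_nonneg gm_add gm_smul gm_const gb81 gb81_apply Mc abs_gm_le)
open Pool.W7d29a1.C0.VT31

noncomputable section

variable {X : Type*} [Fintype X] [Nonempty X] {Y : Type*} [DecidableEq Y]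

/-- The mean under the measure with the density `ρ₀`. -/
def Qf (w ρ₀ f : X → ℝ) : ℝ := gm w (fun x => ρ₀ x * f x) / gm w ρ₀

open Classical in
/-- The indicator of a set. -/
def id46 (P : X → Prop) (x : X) : ℝ := if P x then 1 else 0

omit [Fintype X] [Nonempty X] in
theorem id_nonneg46 (P : X → Prop) (x : X) : 0 ≤ id46 P x := by
  unfold id46
  split_ifs <;> norm_num

omit [Fintype X] [Nonempty X] in
theorem id_le46 (P : X → Prop) (x : X) : id46 P x ≤ 1 := by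
  unfold id46
  split_ifs <;> norm_num

theorem mp_id46 {p : X → Y} {P : X → Prop} (h : ∀ x x', p x = p x' → (P x ↔ P x')) : Mp p (id46 P) := fun x x' e => by
  unfold id46
  by_cases h1 : P x
  · rw [if_pos h1, if_pos ((h x x' e).1 h1)]
  · rw [if_neg h1, if_neg fun h2 => h1 ((h x x' e).2 h2)]

/-- The base window: steep ends, or a large exact response. -/
def Ng (w : X → ℝ) (p : X → Y) (ρ₀ : X → ℝ) (ξ : ℝ) (fl : X → Prop) (x : X) : Prop :=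
  ¬ (Real.exp (-ξ) ≤ cE w p ρ₀ x ∧ cE w p ρ₀ x ≤ Real.exp ξ ∧ fl x)

/-- The complement of the good set. -/
def Bd (w : X → ℝ) (p : X → Y) (ρ₀ κ ib : X → ℝ) (ξ : ℝ) (fl : X → Prop) (x : X) : Prop :=
  Ng w p ρ₀ ξ fl x ∨ Real.exp (-(2 * ξ)) < cE w p ib x ∨ Real.exp (-(2 * ξ)) < cE w p κ x

section est

variable {w ρ₀ κ ib : X → ℝ} {p : X → Y} {ξ : ℝ} {fl : X → Prop}

theorem mp_Ng (hfl : ∀ x x', p x = p x' → (fl x ↔ fl x')) : Mp p (id46 (Ng w p ρ₀ ξ fl)) :=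
  mp_id46 fun x x' e => by
    unfold Ng
    rw [cE_meas w p ρ₀ x x' e, hfl x x' e]

theorem mp_Bd (hfl : ∀ x x', p x = p x' → (fl x ↔ fl x')) : Mp p (id46 (Bd w p ρ₀ κ ib ξ fl)) :=
  mp_id46 fun x x' e => by
    unfold Bd Ng
    rw [cE_meas w p ρ₀ x x' e, hfl x x' e, cE_meas w p ib x x' e, cE_meas w p κ x x' e]

/-- A function of `p` does not see the difference between `ρ₀` and its conditional mean. -/
theorem gm_rho46 (w ρ₀ : X → ℝ) {h : X → ℝ} (hh : Mp p h) : gm w (fun x => ρ₀ x * h x) = gm w (fun x => cE w p ρ₀ x * h x) := by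
  have e1 := gm_mul_cE w hh ρ₀
  have e2 : (fun x => ρ₀ x * h x) = h * ρ₀ := by
    funext x
    rw [Pi.mul_apply, mul_comm]
  have e3 : (fun x => cE w p ρ₀ x * h x) = h * cE w p ρ₀ := by
    funext x
    rw [Pi.mul_apply, mul_comm]
  rw [e2, e3, e1]

/-- The indicator of the complement of the good set. -/
theorem bd_le46 (hib0 : ∀ x, 0 ≤ ib x) (hκ0 : ∀ x, 0 ≤ κ x) (x : X) : id46 (Bd w p ρ₀ κ ib ξ fl) x ≤ id46 (Ng w p ρ₀ ξ fl) x +
    (1 - id46 (Ng w p ρ₀ ξ fl) x) * (Real.exp (2 * ξ) * cE w p ib x + Real.exp (2 * ξ) * cE w p κ x) := by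
  have h1 : 0 ≤ Real.exp (2 * ξ) * cE w p ib x := mul_nonneg (Real.exp_pos _).le (cE_nonneg w p hib0 x)
  have h2 : 0 ≤ Real.exp (2 * ξ) * cE w p κ x :=
    mul_nonneg (Real.exp_pos _).le (cE_nonneg w p hκ0 x)
  have key : ∀ u : ℝ, Real.exp (-(2 * ξ)) < u → 1 ≤ Real.exp (2 * ξ) * u := fun u hu => by
    have h3 : Real.exp (2 * ξ) * Real.exp (-(2 * ξ)) = 1 := by
      rw [← Real.exp_add]
      simp
    have h4 := mul_le_mul_of_nonneg_left hu.le (Real.exp_pos (2 * ξ)).le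
    linarith
  by_cases hn : Ng w p ρ₀ ξ fl x
  · have e : id46 (Ng w p ρ₀ ξ fl) x = 1 := by
      unfold id46
      rw [if_pos hn]
    rw [e]
    linarith [id_le46 (Bd w p ρ₀ κ ib ξ fl) x]
  · have e : id46 (Ng w p ρ₀ ξ fl) x = 0 := by
      unfold id46
      rw [if_neg hn]
    rw [e, zero_add, sub_zero, one_mul]
    unfold id46
    split_ifs with hb
    · rcases hb with hb | hb | hb
      · exact absurd hb hn
      · linarith [key _ hb]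
      · linarith [key _ hb]
    · linarith

theorem rho_ng46 (hρ0 : ∀ x, 0 ≤ ρ₀ x) (x : X) : cE w p ρ₀ x ≤ Real.exp ξ + cE w p ρ₀ x * id46 (Ng w p ρ₀ ξ fl) x := by
  have h0 := cE_nonneg w p hρ0 x
  have h1 := (Real.exp_pos ξ).le
  unfold id46
  split_ifs with h
  · linarith
  · unfold Ng at h
    push Not at h
    linarith [h.2.1]

theorem rho_ng46' (hρ0 : ∀ x, 0 ≤ ρ₀ x) (x : X) : Real.exp (-ξ) * (1 - id46 (Ng w p ρ₀ ξ fl) x) ≤ cE w p ρ₀ x := by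
  have h0 := cE_nonneg w p hρ0 x
  unfold id46
  split_ifs with h
  · linarith
  · unfold Ng at h
    push Not at h
    linarith [h.1]

theorem Qf_nonneg (hρ0 : ∀ x, 0 ≤ ρ₀ x) {f : X → ℝ} (hf : ∀ x, 0 ≤ f x) : 0 ≤ Qf w ρ₀ f :=
  div_nonneg (gm_nonneg _ fun x => mul_nonneg (hρ0 x) (hf x)) (gm_nonneg _ hρ0)

theorem Qf_le_one (hρ0 : ∀ x, 0 ≤ ρ₀ x) (hZ : 0 < gm w ρ₀) {f : X → ℝ} (hf : ∀ x, f x ≤ 1) : Qf w ρ₀ f ≤ 1 := by
  unfold Qf
  rw [div_le_one hZ]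
  exact gm_mono w fun x => by nlinarith [hρ0 x, hf x]

theorem Qf_mul (hZ : 0 < gm w ρ₀) (f : X → ℝ) : gm w (fun x => ρ₀ x * f x) = gm w ρ₀ * Qf w ρ₀ f := by
  unfold Qf
  field_simp

theorem gm_add' (w f g : X → ℝ) : gm w (fun x => f x + g x) = gm w f + gm w g := gm_add w f g

theorem gm_mul' (w : X → ℝ) (c : ℝ) (f : X → ℝ) : gm w (fun x => c * f x) = c * gm w f := gm_smul w c f

/-- **The complement of the good set under the actual measure.** -/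
theorem P46 (hρ0 : ∀ x, 0 ≤ ρ₀ x) (hib0 : ∀ x, 0 ≤ ib x) (hκ0 : ∀ x, 0 ≤ κ x) (hZ : 0 < gm w ρ₀) (hfl : ∀ x x', p x = p x' → (fl x ↔ fl x')) :
    gm w (id46 (Bd w p ρ₀ κ ib ξ fl)) ≤ gm w (id46 (Ng w p ρ₀ ξ fl)) + Real.exp (2 * ξ) * gm w ib +
      (2 * Qf w ρ₀ (id46 (Ng w p ρ₀ ξ fl)) + 2 * (Real.exp (3 * ξ) * (gm w κ / gm w ρ₀))) := by
  have hq0 : 0 ≤ Qf w ρ₀ (id46 (Ng w p ρ₀ ξ fl)) := Qf_nonneg hρ0 fun x => id_nonneg46 _ x
  have hq1 : 0 ≤ (gm w κ / gm w ρ₀) := div_nonneg (gm_nonneg _ hκ0) hZ.le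
  have hg1 : 0 ≤ gm w (id46 (Ng w p ρ₀ ξ fl)) := gm_nonneg _ fun x => id_nonneg46 _ x
  have hg2 : 0 ≤ Real.exp (2 * ξ) * gm w ib := mul_nonneg (Real.exp_pos _).le (gm_nonneg _ hib0)
  have hE3 : 0 ≤ Real.exp (3 * ξ) * (gm w κ / gm w ρ₀) := mul_nonneg (Real.exp_pos _).le hq1
  rcases le_total (1 / 2) (Qf w ρ₀ (id46 (Ng w p ρ₀ ξ fl))) with h | h
  · have h1 : gm w (id46 (Bd w p ρ₀ κ ib ξ fl)) ≤ 1 := by
      have h2 := gm_mono w (f := id46 (Bd w p ρ₀ κ ib ξ fl)) (g := fun _ => 1) fun x => id_le46 _ x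
      rwa [gm_const] at h2
    linarith
  · -- the partition function of the flipped measure is bounded
    have hZ2 : gm w ρ₀ ≤ 2 * Real.exp ξ := by
      have h1 : gm w ρ₀ ≤ Real.exp ξ + gm w (fun x => cE w p ρ₀ x * id46 (Ng w p ρ₀ ξ fl) x) := by
        have h2 := gm_mono w (fun x => rho_ng46 (w := w) (p := p) (ξ := ξ) (fl := fl) hρ0 x)
        rw [gm_cE, gm_add', gm_const] at h2
        exact h2
      rw [← gm_rho46 w ρ₀ (mp_Ng hfl), Qf_mul hZ] at h1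
      have h3 : gm w ρ₀ * Qf w ρ₀ (id46 (Ng w p ρ₀ ξ fl)) ≤ gm w ρ₀ * (1 / 2) := mul_le_mul_of_nonneg_left h hZ.le
      linarith
    have h1 : gm w (id46 (Bd w p ρ₀ κ ib ξ fl)) ≤ gm w (id46 (Ng w p ρ₀ ξ fl)) + (Real.exp (2 * ξ) * gm w ib +
        Real.exp (2 * ξ) * gm w κ) := by
      have h2 := gm_mono w (f := id46 (Bd w p ρ₀ κ ib ξ fl)) (g := fun x => id46 (Ng w p ρ₀ ξ fl) x +
        (Real.exp (2 * ξ) * cE w p ib x + Real.exp (2 * ξ) * cE w p κ x)) fun x => by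
          refine (bd_le46 hib0 hκ0 x).trans (add_le_add le_rfl ?_)
          have h4 : 0 ≤ Real.exp (2 * ξ) * cE w p ib x + Real.exp (2 * ξ) * cE w p κ x :=
            add_nonneg (mul_nonneg (Real.exp_pos _).le (cE_nonneg w p hib0 x))
              (mul_nonneg (Real.exp_pos _).le (cE_nonneg w p hκ0 x))
          nlinarith [id_nonneg46 (Ng w p ρ₀ ξ fl) x]
      rw [gm_add', gm_add', gm_mul', gm_mul', gm_cE, gm_cE] at h2
      exact h2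
    have eκ : gm w κ = gm w ρ₀ * (gm w κ / gm w ρ₀) := by
      field_simp
    rw [eκ] at h1
    have h5 : Real.exp (2 * ξ) * (gm w ρ₀ * (gm w κ / gm w ρ₀)) ≤ 2 * (Real.exp (3 * ξ) * (gm w κ / gm w ρ₀)) := by
      have e : Real.exp (3 * ξ) = Real.exp (2 * ξ) * Real.exp ξ := by
        rw [← Real.exp_add]
        ring_nf
      rw [e]
      have h6 : gm w ρ₀ * (gm w κ / gm w ρ₀) ≤ 2 * Real.exp ξ * (gm w κ / gm w ρ₀) := mul_le_mul_of_nonneg_right hZ2 hq1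
      have h7 := mul_le_mul_of_nonneg_left h6 (Real.exp_pos (2 * ξ)).le
      linarith
    linarith

/-- **The complement of the good set under the flipped measure.** -/
theorem Q46 (hρ0 : ∀ x, 0 ≤ ρ₀ x) (hib0 : ∀ x, 0 ≤ ib x) (hκ0 : ∀ x, 0 ≤ κ x) (hZ : 0 < gm w ρ₀) (hfl : ∀ x x', p x = p x' → (fl x ↔ fl x')) :
    Qf w ρ₀ (id46 (Bd w p ρ₀ κ ib ξ fl)) ≤ Qf w ρ₀ (id46 (Ng w p ρ₀ ξ fl)) + Real.exp (3 * ξ) * (gm w κ / gm w ρ₀) +
      (2 * gm w (id46 (Ng w p ρ₀ ξ fl)) + 2 * (Real.exp (4 * ξ) * gm w ib)) := by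
  have hq0 : 0 ≤ Qf w ρ₀ (id46 (Ng w p ρ₀ ξ fl)) := Qf_nonneg hρ0 fun x => id_nonneg46 _ x
  have hq1 : 0 ≤ (gm w κ / gm w ρ₀) := div_nonneg (gm_nonneg _ hκ0) hZ.le
  have hg1 : 0 ≤ gm w (id46 (Ng w p ρ₀ ξ fl)) := gm_nonneg _ fun x => id_nonneg46 _ x
  have hg0 : 0 ≤ gm w ib := gm_nonneg _ hib0
  have hg2 : 0 ≤ Real.exp (4 * ξ) * gm w ib := mul_nonneg (Real.exp_pos _).le hg0
  have hE3 : 0 ≤ Real.exp (3 * ξ) * (gm w κ / gm w ρ₀) := mul_nonneg (Real.exp_pos _).le hq1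
  rcases le_total (1 / 2) (gm w (id46 (Ng w p ρ₀ ξ fl))) with h | h
  · have h1 := Qf_le_one (w := w) hρ0 hZ (f := id46 (Bd w p ρ₀ κ ib ξ fl)) fun x => id_le46 _ x
    linarith
  · have hZ2 : Real.exp (-ξ) / 2 ≤ gm w ρ₀ := by
      have h2 := gm_mono w (fun x => rho_ng46' (w := w) (p := p) (ξ := ξ) (fl := fl) hρ0 x)
      rw [gm_cE] at h2
      have e : (fun x => Real.exp (-ξ) * (1 - id46 (Ng w p ρ₀ ξ fl) x)) =
          fun x => Real.exp (-ξ) + -Real.exp (-ξ) * id46 (Ng w p ρ₀ ξ fl) x := by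
        funext x
        ring
      rw [e, gm_add', gm_const, gm_mul'] at h2
      have h3 : Real.exp (-ξ) * gm w (id46 (Ng w p ρ₀ ξ fl)) ≤ Real.exp (-ξ) * (1 / 2) :=
        mul_le_mul_of_nonneg_left h (Real.exp_pos _).le
      linarith
    -- the density on the complement of Ng is at most `e ^ ξ`
    have h1 : gm w (fun x => ρ₀ x * id46 (Bd w p ρ₀ κ ib ξ fl) x) ≤ gm w (fun x => ρ₀ x * id46 (Ng w p ρ₀ ξ fl) x) +
        (Real.exp (3 * ξ) * gm w ib + Real.exp (3 * ξ) * gm w κ) := by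
      rw [gm_rho46 w ρ₀ (mp_Bd hfl), gm_rho46 w ρ₀ (mp_Ng hfl)]
      have h2 := gm_mono w (f := fun x => cE w p ρ₀ x * id46 (Bd w p ρ₀ κ ib ξ fl) x) (g := fun x =>
        cE w p ρ₀ x * id46 (Ng w p ρ₀ ξ fl) x +
        (Real.exp (3 * ξ) * cE w p ib x + Real.exp (3 * ξ) * cE w p κ x)) fun x => by
          have h0 := cE_nonneg w p hρ0 x
          obtain ⟨U, hU⟩ : ∃ U, U = Real.exp (2 * ξ) * cE w p ib x + Real.exp (2 * ξ) * cE w p κ x :=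
            ⟨_, rfl⟩
          have hU0 : 0 ≤ U := by
            rw [hU]
            exact add_nonneg (mul_nonneg (Real.exp_pos _).le (cE_nonneg w p hib0 x))
              (mul_nonneg (Real.exp_pos _).le (cE_nonneg w p hκ0 x))
          have h4 := bd_le46 (w := w) (p := p) (ρ₀ := ρ₀) (ξ := ξ) (fl := fl) hib0 hκ0 x
          rw [← hU] at h4
          have h5 := mul_le_mul_of_nonneg_left h4 h0
          have h6 : cE w p ρ₀ x * (1 - id46 (Ng w p ρ₀ ξ fl) x) ≤ Real.exp ξ := by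
            have := rho_ng46 (w := w) (p := p) (ξ := ξ) (fl := fl) hρ0 x
            linarith
          have h7 := mul_le_mul_of_nonneg_right h6 hU0
          have e : Real.exp (3 * ξ) = Real.exp ξ * Real.exp (2 * ξ) := by
            rw [← Real.exp_add]
            ring_nf
          have e2 : Real.exp (3 * ξ) * cE w p ib x + Real.exp (3 * ξ) * cE w p κ x = Real.exp ξ * U := by
            rw [e, hU]
            ring
          rw [e2]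
          linarith
      rw [gm_add', gm_add', gm_mul', gm_mul', gm_cE, gm_cE] at h2
      exact h2
    have eκ : gm w κ = gm w ρ₀ * (gm w κ / gm w ρ₀) := by
      field_simp
    rw [Qf_mul hZ, Qf_mul hZ, eκ] at h1
    have h8 : Real.exp (3 * ξ) * gm w ib ≤ gm w ρ₀ * (2 * (Real.exp (4 * ξ) * gm w ib)) := by
      have e : Real.exp (4 * ξ) * Real.exp (-ξ) = Real.exp (3 * ξ) := by
        rw [← Real.exp_add]
        ring_nf
      have h9 := mul_le_mul_of_nonneg_right hZ2 (mul_nonneg two_pos.le hg2)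
      have e2 : Real.exp (-ξ) / 2 * (2 * (Real.exp (4 * ξ) * gm w ib)) = Real.exp (3 * ξ) * gm w ib := by
        rw [← e]
        ring
      rw [e2] at h9
      exact h9
    have h10 : gm w ρ₀ * Qf w ρ₀ (id46 (Bd w p ρ₀ κ ib ξ fl)) ≤ gm w ρ₀ * (Qf w ρ₀ (id46 (Ng w p ρ₀ ξ fl)) +
        Real.exp (3 * ξ) * (gm w κ / gm w ρ₀) + (2 * gm w (id46 (Ng w p ρ₀ ξ fl)) + 2 * (Real.exp (4 * ξ) * gm w ib))) := by
      have h11 : 0 ≤ gm w ρ₀ * (2 * gm w (id46 (Ng w p ρ₀ ξ fl))) := mul_nonneg hZ.le (mul_nonneg two_pos.le hg1)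
      nlinarith
    exact le_of_mul_le_mul_left h10 hZ

/-- The common bound of both. -/
def Er46 (w : X → ℝ) (p : X → Y) (ρ₀ κ ib : X → ℝ) (ξ : ℝ) (fl : X → Prop) : ℝ :=
  2 * gm w (id46 (Ng w p ρ₀ ξ fl)) + 2 * Qf w ρ₀ (id46 (Ng w p ρ₀ ξ fl)) + 2 * Real.exp (4 * ξ) * (gm w ib + (gm w κ / gm w ρ₀))

theorem P46' (hξ : 0 ≤ ξ) (hρ0 : ∀ x, 0 ≤ ρ₀ x) (hib0 : ∀ x, 0 ≤ ib x) (hκ0 : ∀ x, 0 ≤ κ x) (hZ : 0 < gm w ρ₀)
    (hfl : ∀ x x', p x = p x' → (fl x ↔ fl x')) : gm w (id46 (Bd w p ρ₀ κ ib ξ fl)) ≤ Er46 w p ρ₀ κ ib ξ fl := by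
  refine (P46 hρ0 hib0 hκ0 hZ hfl).trans ?_
  unfold Er46
  have hq1 : 0 ≤ (gm w κ / gm w ρ₀) := div_nonneg (gm_nonneg _ hκ0) hZ.le
  have hg1 : 0 ≤ gm w (id46 (Ng w p ρ₀ ξ fl)) := gm_nonneg _ fun x => id_nonneg46 _ x
  have hg0 : 0 ≤ gm w ib := gm_nonneg _ hib0
  have e1 : Real.exp (2 * ξ) * gm w ib ≤ Real.exp (4 * ξ) * gm w ib :=
    mul_le_mul_of_nonneg_right (Real.exp_le_exp.2 (by linarith)) hg0
  have e2 : Real.exp (3 * ξ) * (gm w κ / gm w ρ₀) ≤ Real.exp (4 * ξ) * (gm w κ / gm w ρ₀) :=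
    mul_le_mul_of_nonneg_right (Real.exp_le_exp.2 (by linarith)) hq1
  have e3 : 0 ≤ Real.exp (4 * ξ) * gm w ib := mul_nonneg (Real.exp_pos _).le hg0
  nlinarith

theorem Q46' (hξ : 0 ≤ ξ) (hρ0 : ∀ x, 0 ≤ ρ₀ x) (hib0 : ∀ x, 0 ≤ ib x) (hκ0 : ∀ x, 0 ≤ κ x) (hZ : 0 < gm w ρ₀)
    (hfl : ∀ x x', p x = p x' → (fl x ↔ fl x')) : Qf w ρ₀ (id46 (Bd w p ρ₀ κ ib ξ fl)) ≤ Er46 w p ρ₀ κ ib ξ fl := by
  refine (Q46 hρ0 hib0 hκ0 hZ hfl).trans ?_
  unfold Er46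
  have hq0 : 0 ≤ Qf w ρ₀ (id46 (Ng w p ρ₀ ξ fl)) := Qf_nonneg hρ0 fun x => id_nonneg46 _ x
  have hq1 : 0 ≤ (gm w κ / gm w ρ₀) := div_nonneg (gm_nonneg _ hκ0) hZ.le
  have e2 : Real.exp (3 * ξ) * (gm w κ / gm w ρ₀) ≤ Real.exp (4 * ξ) * (gm w κ / gm w ρ₀) :=
    mul_le_mul_of_nonneg_right (Real.exp_le_exp.2 (by linarith)) hq1
  have e3 : 0 ≤ Real.exp (4 * ξ) * (gm w κ / gm w ρ₀) := mul_nonneg (Real.exp_pos _).le hq1
  nlinarith

end est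

/-! ### The mean of the difference -/

section mean

variable {w w' g ρ₀ κ ib γ : X → ℝ} {p : X → Y} {a ξ M : ℝ} {fl : X → Prop}

theorem abs_gb46 (w : X → ℝ) {g : X → ℝ} (p : X → Y) {M : ℝ} (hg : ∀ x, |g x| ≤ M) (x : X) : |gb81 w g p x| ≤ M := by
  rw [gb81_apply]
  unfold Mc
  have h2 : ∀ t : ℝ, |cE (w + t • g) p g x| ≤ M := fun t => by
    have h3 := cE_mono (w + t • g) p (f := g) (g := fun _ => M) (fun x => (abs_le.1 (hg x)).2) x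
    have h4 := cE_mono (w + t • g) p (f := fun _ => -M) (g := g) (fun x => (abs_le.1 (hg x)).1) x
    have e1 : cE (w + t • g) p (fun _ => M) = fun _ => M := cE_of_meas _ (fun _ _ _ => rfl)
    have e2 : cE (w + t • g) p (fun _ => -M) = fun _ => -M := cE_of_meas _ (fun _ _ _ => rfl)
    rw [e1] at h3
    rw [e2] at h4
    exact abs_le.2 ⟨h4, h3⟩
  have h5 := intervalIntegral.norm_integral_le_of_norm_le_const (a := (-1 : ℝ)) (b := 1)
    (f := fun t => cE (w + t • g) p g x) (C := M) fun t _ => by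
      rw [Real.norm_eq_abs]
      exact h2 t
  rw [Real.norm_eq_abs] at h5
  have e3 : |(1 : ℝ) - -1| = 2 := by norm_num
  rw [e3] at h5
  rw [abs_mul]
  have e4 : |(1 / 2 : ℝ)| = 1 / 2 := by norm_num
  rw [e4]
  linarith

/-- Outside of the bad set the difference is small. -/
theorem diff46 (ha : a = 1 ∨ a = -1) (hib : ∀ x, |Real.exp (-2 * a * g x) - ρ₀ x| ≤ κ x + ib x) (hξ : 4 ≤ Real.exp ξ)
    (hM : 0 ≤ M) (hg : ∀ x, |g x| ≤ M) (hγM : ∀ x, |γ x| ≤ M)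
    (hγ : ∀ x, Real.exp (-ξ) ≤ cE w p ρ₀ x → cE w p ρ₀ x ≤ Real.exp ξ → fl x → γ x = -(a / 2) * Real.log (cE w p ρ₀ x)) (x : X) :
    |γ x - gb81 (w - a • g) g p x| ≤ 2 * Real.exp (-ξ) + 2 * M * id46 (Bd w p ρ₀ κ ib ξ fl) x := by
  by_cases hb : Bd w p ρ₀ κ ib ξ fl x
  · have e : id46 (Bd w p ρ₀ κ ib ξ fl) x = 1 := by
      unfold id46
      rw [if_pos hb]
    rw [e, mul_one]
    have h1 : |gb81 (w - a • g) g p x| ≤ M := abs_gb46 (w - a • g) p hg x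
    have h6 := abs_sub (γ x) (gb81 (w - a • g) g p x)
    linarith [hγM x, Real.exp_pos (-ξ)]
  · have e : id46 (Bd w p ρ₀ κ ib ξ fl) x = 0 := by
      unfold id46
      rw [if_neg hb]
    rw [e, mul_zero, add_zero]
    unfold Bd Ng at hb
    push Not at hb
    obtain ⟨⟨h1, h2, h3⟩, h4, h5⟩ := hb
    rw [hγ x h1 h2 h3, abs_sub_comm]
    exact good46 ha hib hξ h1 h4 h5

/-- **The mean of the difference under the actual measure.** -/
theorem mean46 (ha : a = 1 ∨ a = -1) (hib : ∀ x, |Real.exp (-2 * a * g x) - ρ₀ x| ≤ κ x + ib x) (hib0 : ∀ x, 0 ≤ ib x)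
    (hκ0 : ∀ x, 0 ≤ κ x) (hρ0 : ∀ x, 0 ≤ ρ₀ x) (hZ : 0 < gm w ρ₀) (hfl : ∀ x x', p x = p x' → (fl x ↔ fl x')) (hξ0 : 0 ≤ ξ) (hξ : 4 ≤ Real.exp ξ)
    (hM : 0 ≤ M) (hg : ∀ x, |g x| ≤ M) (hγM : ∀ x, |γ x| ≤ M)
    (hγ : ∀ x, Real.exp (-ξ) ≤ cE w p ρ₀ x → cE w p ρ₀ x ≤ Real.exp ξ → fl x → γ x = -(a / 2) * Real.log (cE w p ρ₀ x)) :
    gm w (fun x => |γ x - gb81 (w - a • g) g p x|) ≤ 2 * Real.exp (-ξ) + 2 * M * Er46 w p ρ₀ κ ib ξ fl := by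
  refine (gm_mono w (diff46 ha hib hξ hM hg hγM hγ)).trans ?_
  rw [gm_add', gm_const, gm_mul']
  have := mul_le_mul_of_nonneg_left (P46' hξ0 hρ0 hib0 hκ0 hZ hfl) (by linarith : 0 ≤ 2 * M)
  linarith

/-- **The mean of the difference under a measure close to the flipped one** (`tv`: the distance). -/
theorem mean46' {tv : ℝ} (htv : ∀ f : X → ℝ, (∀ x, 0 ≤ f x) → (∀ x, f x ≤ 1) → gm w' f ≤ Qf w ρ₀ f + tv)
    (ha : a = 1 ∨ a = -1) (hib : ∀ x, |Real.exp (-2 * a * g x) - ρ₀ x| ≤ κ x + ib x) (hib0 : ∀ x, 0 ≤ ib x)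
    (hκ0 : ∀ x, 0 ≤ κ x) (hρ0 : ∀ x, 0 ≤ ρ₀ x) (hZ : 0 < gm w ρ₀) (hfl : ∀ x x', p x = p x' → (fl x ↔ fl x')) (hξ0 : 0 ≤ ξ) (hξ : 4 ≤ Real.exp ξ)
    (hM : 0 ≤ M) (hg : ∀ x, |g x| ≤ M) (hγM : ∀ x, |γ x| ≤ M)
    (hγ : ∀ x, Real.exp (-ξ) ≤ cE w p ρ₀ x → cE w p ρ₀ x ≤ Real.exp ξ → fl x → γ x = -(a / 2) * Real.log (cE w p ρ₀ x)) :
    gm w' (fun x => |γ x - gb81 (w - a • g) g p x|) ≤ 2 * Real.exp (-ξ) + 2 * M * (Er46 w p ρ₀ κ ib ξ fl + tv) := by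
  refine (gm_mono w' (diff46 ha hib hξ hM hg hγM hγ)).trans ?_
  rw [gm_add', gm_const, gm_mul']
  have h1 := htv (id46 (Bd w p ρ₀ κ ib ξ fl)) (fun x => id_nonneg46 _ x) fun x => id_le46 _ x
  have := mul_le_mul_of_nonneg_left (h1.trans (add_le_add (Q46' hξ0 hρ0 hib0 hκ0 hZ hfl) le_rfl)) (by linarith : 0 ≤ 2 * M)
  linarith

end mean

end

end Pool.Agent.W_7d29a1_C0.Cl46
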