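import Pool.Agent.W_7d29a1_C0.Row44
import Pool.Agent.W_7d29a1_C0.CrossW81

/-!
CURV0 (MP_7d29a1_pr, helper44): THE CROSS TERM WITH A FINER WINDOW IN EXPECTATION (`crossW81`, `crossW81_tie` with the exact response
`gb81` of the window), every expectation INSIDE of the integrals over the tilts `t`, `u`. `p` = outside of the block `B`, `q` = outside of
the base window `W`.
-/

set_option autoImplicit false
set_option linter.unusedSectionVars false
set_option linter.unusedVariables false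

namespace Pool.W7d29a1.C0

open Finset Filter Topology MeasureTheory intervalIntegral
open Pool.Agent.W_7d29a1_C0 Pool.W7d29a1.C0.VT31

noncomputable section

variable {X : Type*} [Fintype X] [Nonempty X] {Y : Type*} [DecidableEq Y] {Z : Type*} [DecidableEq Z]

/-! ### The exact response -/

theorem abs_Mc_le {φ : ℝ → ℝ} {M : ℝ} (h : ∀ t, |φ t| ≤ M) : |Mc φ| ≤ M := by
  unfold Mc
  rw [abs_mul, abs_of_pos (by norm_num : (0 : ℝ) < 1 / 2)]
  have h1 := intervalIntegral.norm_integral_le_of_norm_le_const (a := (-1 : ℝ)) (b := 1) (f := φ) (C := M) fun t _ => by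
    rw [Real.norm_eq_abs]
    exact h t
  rw [Real.norm_eq_abs] at h1
  have e : |(1 : ℝ) - -1| = 2 := by norm_num
  rw [e] at h1
  linarith

theorem abs_gb81_le (w : X → ℝ) {g : X → ℝ} (q : X → Z) {M : ℝ} (hg : ∀ x, |g x| ≤ M) (x : X) : |gb81 w g q x| ≤ M := by
  rw [gb81_apply]
  exact abs_Mc_le fun t => abs_cE_le_X _ q hg x

section Meas

variable {Ω : Type*} [MeasurableSpace Ω]

theorem meas_Ioc44 {Ψ : ℝ → Ω → ℝ} {c : ℝ → ℝ} (hc : ∀ ω, Continuous fun t => Ψ t ω) (hm : ∀ t, Measurable (Ψ t))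
    (hcc : Continuous c) : Measurable fun ω => ∫ t in (-1 : ℝ)..1, c t * Ψ t ω := by
  have hu : Measurable (Function.uncurry fun (t : ℝ) (ω : Ω) => Ψ t ω) :=
    measurable_uncurry_of_continuous_of_measurable hc hm
  have hq : Measurable fun q : Ω × ℝ => c q.2 * Ψ q.2 q.1 :=
    (hcc.measurable.comp measurable_snd).mul (hu.comp (measurable_snd.prodMk measurable_fst))
  simp_rw [intervalIntegral.integral_of_le (show (-1 : ℝ) ≤ 1 by norm_num)]
  exact (hq.stronglyMeasurable.integral_prod_right').measurable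

theorem meas_gb81 (q : X → Z) {w g : Ω → X → ℝ} (mw : Measurable w) (mg : Measurable g) :
    Measurable fun ω => gb81 (w ω) (g ω) q := by
  refine measurable_pi_lambda _ fun x => ?_
  simp_rw [gb81_apply]
  unfold Mc
  have h := meas_Ioc44 (Ψ := fun t ω => cE (w ω + t • g ω) q (g ω) x) (c := fun _ => 1)
    (fun ω => (continuous_apply x).comp (continuous_cE_line q (w ω) (g ω) (g ω)))
    (fun t => (measurable_pi_apply x).comp (meas_cEX q (meas_line mg mw t) mg)) continuous_const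
  simp only [one_mul] at h
  exact h.const_mul _

theorem meas_cVX (q : X → Z) {w F : Ω → X → ℝ} (hw : Measurable w) (hF : Measurable F) :
    Measurable fun u => cV (w u) q (F u) := meas_cCX q hw hF hF

theorem meas_cm3 {w a b f : Ω → X → ℝ} (hw : Measurable w) (ha : Measurable a) (hb : Measurable b) (hf : Measurable f) :
    Measurable fun u => cm [a u, b u, f u] (w u) := by
  have h := meas_cm hw [a, b, f] (fun g hg => by
    simp only [List.mem_cons, List.not_mem_nil, or_false] at hg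
    rcases hg with rfl | rfl | rfl
    · exact ha
    · exact hb
    · exact hf) []
  exact h

end Meas

theorem abs_cm3_le (w : X → ℝ) {a b f : X → ℝ} {M : ℝ} (hM : 0 ≤ M) (ha : ∀ x, |a x| ≤ M) (hb : ∀ x, |b x| ≤ M)
    (hf : ∀ x, |f x| ≤ M) : |cm [a, b, f] w| ≤ KB 3 M :=
  abs_cm_le_KB hM [a, b, f] (by simp) (fun g hg => by
    simp only [List.mem_cons, List.not_mem_nil, or_false] at hg
    rcases hg with rfl | rfl | rfl
    · exact ha
    · exact hb
    · exact hf) w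

theorem cV_cE_self (w : X → ℝ) (p : X → Y) (γ : X → ℝ) : cV w p (cE w p γ) = 0 := cC_meas_left w (cE_meas w p γ) _

/-! ### The identity in expectation -/

section Exp

variable {Ω : Type*} [MeasurableSpace Ω] (P : Measure Ω) [IsProbabilityMeasure P]

/-- The double integral over the tilts. -/
theorem int_swap44_two {Ψ : ℝ → ℝ → Ω → ℝ} {K : ℝ → ℝ → ℝ} (hc : ∀ ω, Continuous (Function.uncurry fun t u : ℝ => Ψ t u ω))
    (hm : ∀ t u, Measurable (Ψ t u)) {M : ℝ} (hM : ∀ t u ω, |Ψ t u ω| ≤ M) (hK : Continuous (Function.uncurry K))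
    (hK1 : ∀ t ∈ Set.Icc (-1 : ℝ) 1, ∀ u ∈ Set.Icc (-1 : ℝ) 1, |K t u| ≤ 1) :
    ∫ ω, (∫ u in (-1 : ℝ)..1, ∫ t in (-1 : ℝ)..1, K t u * Ψ t u ω) ∂P =
      ∫ u in (-1 : ℝ)..1, ∫ t in (-1 : ℝ)..1, K t u * ∫ ω, Ψ t u ω ∂P := by
  -- clip the parameter `u` to `[-1, 1]` to have a global bound
  obtain ⟨r, hr⟩ : ∃ r : ℝ → ℝ, r = fun u => max (-1) (min u 1) := ⟨_, rfl⟩
  have hrc : Continuous r := by rw [hr]; fun_prop
  have hr1 : ∀ u ∈ Set.Icc (-1 : ℝ) 1, r u = u := fun u hu => by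
    rw [hr]
    show max (-1) (min u 1) = u
    rw [min_eq_left hu.2, max_eq_right hu.1]
  have hr2 : ∀ u, r u ∈ Set.Icc (-1 : ℝ) 1 := fun u => by
    rw [hr]
    exact ⟨le_max_left _ _, max_le (by norm_num) (min_le_right _ _)⟩
  have hM0 : ∀ ω : Ω, 0 ≤ M := fun ω => (abs_nonneg _).trans (hM 0 0 ω)
  have cKr : ∀ u, Continuous fun t => K t (r u) := fun u => hK.comp (continuous_id.prodMk continuous_const)
  have cΨ : ∀ u ω, Continuous fun t => Ψ t u ω := fun u ω => (hc ω).comp (continuous_id.prodMk continuous_const)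
  have e1 : ∀ ω, (∫ u in (-1 : ℝ)..1, ∫ t in (-1 : ℝ)..1, K t u * Ψ t u ω) =
      ∫ u in (-1 : ℝ)..1, 1 * ∫ t in (-1 : ℝ)..1, K t (r u) * Ψ t (r u) ω := fun ω => by
    refine intervalIntegral.integral_congr fun u hu => ?_
    rw [Set.uIcc_of_le (by norm_num)] at hu
    show _ = 1 * ∫ t in (-1 : ℝ)..1, K t (r u) * Ψ t (r u) ω
    rw [hr1 u hu, one_mul]
  have e2 : (∫ u in (-1 : ℝ)..1, ∫ t in (-1 : ℝ)..1, K t u * ∫ ω, Ψ t u ω ∂P) =
      ∫ u in (-1 : ℝ)..1, 1 * ∫ ω, (∫ t in (-1 : ℝ)..1, K t (r u) * Ψ t (r u) ω) ∂P := by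
    refine intervalIntegral.integral_congr fun u hu => ?_
    rw [Set.uIcc_of_le (by norm_num)] at hu
    show _ = 1 * ∫ ω, (∫ t in (-1 : ℝ)..1, K t (r u) * Ψ t (r u) ω) ∂P
    rw [hr1 u hu, one_mul, ← hr1 u hu]
    exact (int_swap44 P (cΨ (r u)) (fun t => hm t (r u)) (fun t => hM t (r u)) (cKr u) (by norm_num)).symm
  rw [e2]
  simp_rw [e1]
  refine int_swap44 P (Ψ := fun u ω => ∫ t in (-1 : ℝ)..1, K t (r u) * Ψ t (r u) ω) (K := 2 * M) (c := fun _ => 1)
    (fun ω => ?_) (fun u => meas_Ioc44 (cΨ (r u)) (fun t => hm t (r u)) (cKr u)) (fun u ω => ?_) continuous_const (by norm_num)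
  · refine continuous_parametric_intervalIntegral_of_continuous' (μ := volume) (f := fun u t => K t (r u) * Ψ t (r u) ω) ?_ (-1) 1
    have h1 : Continuous fun x : ℝ × ℝ => (x.2, r x.1) := continuous_snd.prodMk (hrc.comp continuous_fst)
    exact (hK.comp h1).mul ((hc ω).comp h1)
  · have h1 := intervalIntegral.norm_integral_le_of_norm_le_const (a := (-1 : ℝ)) (b := 1)
      (f := fun t => K t (r u) * Ψ t (r u) ω) (C := M) fun t ht => by
        rw [Set.uIoc_of_le (by norm_num)] at ht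
        rw [norm_mul, Real.norm_eq_abs, Real.norm_eq_abs]
        calc |K t (r u)| * |Ψ t (r u) ω| ≤ 1 * M :=
              mul_le_mul (hK1 t ⟨ht.1.le, ht.2⟩ _ (hr2 u)) (hM t (r u) ω) (abs_nonneg _) zero_le_one
          _ = M := one_mul M
    rw [Real.norm_eq_abs] at h1
    have e : |(1 : ℝ) - -1| = 2 := by norm_num
    rw [e] at h1
    linarith

/-- The expectation of a jointly continuous bounded family is jointly continuous. -/
theorem cont_int44_two {Ψ : ℝ → ℝ → Ω → ℝ} (hc : ∀ ω, Continuous (Function.uncurry fun t u : ℝ => Ψ t u ω))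
    (hm : ∀ t u, Measurable (Ψ t u)) {M : ℝ} (hM : ∀ t u ω, |Ψ t u ω| ≤ M) :
    Continuous (Function.uncurry fun t u : ℝ => ∫ ω, Ψ t u ω ∂P) := by
  refine continuous_of_dominated (F := fun x : ℝ × ℝ => fun ω => Ψ x.1 x.2 ω) (bound := fun _ => M)
    (fun x => (hm x.1 x.2).aestronglyMeasurable) (fun x => Eventually.of_forall fun ω => ?_) (integrable_const _)
    (Eventually.of_forall fun ω => hc ω)
  rw [Real.norm_eq_abs]
  exact hM x.1 x.2 ω

theorem cont_int44 {Ψ : ℝ → Ω → ℝ} (hc : ∀ ω, Continuous fun t => Ψ t ω) (hm : ∀ t, Measurable (Ψ t)) {M : ℝ}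
    (hM : ∀ t ω, |Ψ t ω| ≤ M) : Continuous fun t => ∫ ω, Ψ t ω ∂P := by
  refine continuous_of_dominated (bound := fun _ => M) (fun t => (hm t).aestronglyMeasurable)
    (fun t => Eventually.of_forall fun ω => ?_) (integrable_const _) (Eventually.of_forall fun ω => hc ω)
  rw [Real.norm_eq_abs]
  exact hM t ω

/-- **THE CROSS TERM WITH A FINER WINDOW, in expectation.** -/
theorem E_cross44 {p : X → Y} {q : X → Z} (hc : Crs p q) {g w f : Ω → X → ℝ} (mg : Measurable g) (mw : Measurable w)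
    (mf : Measurable f) (hf : ∀ ω, Mp p (f ω)) {M : ℝ} (hM : 0 ≤ M) (bg : ∀ ω x, |g ω x| ≤ M) (bf : ∀ ω x, |f ω x| ≤ M) :
    (∫ ω, Ac (fun a => gc (w ω + a • g ω) (Zr (w ω + a • g ω) p a (gb81 (w ω) (g ω) q)) (f ω)) ∂P) -
      ∫ ω, Dc (fun t => gm (w ω + t • g ω) (f ω)) ∂P =
      (1 / 4) * (∫ t in (-1 : ℝ)..1, (1 - t ^ 2) *
        ∫ ω, DX p (w ω + t • g ω) (g ω) [[gb81 (w ω) (g ω) q], [g ω]] [f ω] ∂P) -
      (1 / 12) * (∫ t in (-1 : ℝ)..1, t * (1 - t ^ 2) *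
        ∫ ω, D2X p (w ω + t • g ω) (g ω) (gb81 (w ω) (g ω) q) (g ω) [f ω] ∂P) -
      (∫ u in (-1 : ℝ)..1, ∫ t in (-1 : ℝ)..1, Kn81 t u *
        ∫ ω, cm [g ω, cV (w ω + u • g ω) q (g ω), f ω] (w ω + t • g ω) ∂P) +
      (1 / 6) * Ac (fun a => ∫ u in (-1 : ℝ)..1, (1 + a * u) *
        ∫ ω, gc (w ω + a • g ω) (cC (w ω + a • g ω) p (gb81 (w ω) (g ω) q) (cV (w ω + u • g ω) q (g ω))) (f ω) ∂P) := by
  have mγ : Measurable fun ω => gb81 (w ω) (g ω) q := meas_gb81 q mw mg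
  have bγ : ∀ ω x, |gb81 (w ω) (g ω) q x| ≤ M := fun ω x => abs_gb81_le (w ω) q (bg ω) x
  have mwt : ∀ t : ℝ, Measurable fun ω => w ω + t • g ω := fun t => meas_line mg mw t
  have hfq : ∀ ω, Mp q (f ω) := fun ω => (hf ω).of_crs hc
  have h := E_four44 P (q := p) (p := p) (fun _ _ e => e) mγ mg mw mf hf hM bγ bg bf
  rw [h]
  -- the last term vanishes
  have z5 : (fun a : ℝ => ∫ ω, gc (w ω + a • g ω) (cV (w ω + a • g ω) p (cE (w ω + a • g ω) p (gb81 (w ω) (g ω) q))) (f ω) ∂P) =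
      fun _ => 0 := by
    funext a
    have e : ∀ ω, gc (w ω + a • g ω) (cV (w ω + a • g ω) p (cE (w ω + a • g ω) p (gb81 (w ω) (g ω) q))) (f ω) = 0 := fun ω => by
      rw [cV_cE_self]
      have := gc_smul_left (w ω + a • g ω) 0 0 (f ω)
      rwa [zero_smul, zero_mul] at this
    simp_rw [e]
    exact integral_zero _ _
  rw [z5]
  -- E2a
  have c3 : ∀ ω, Continuous fun t : ℝ => gc (w ω + t • g ω) (gb81 (w ω) (g ω) q - g ω) (f ω) := fun ω =>
    continuous_gc (continuous_line (w ω) (g ω)) continuous_const (f ω)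
  have m3 : ∀ t : ℝ, Measurable fun ω => gc (w ω + t • g ω) (gb81 (w ω) (g ω) q - g ω) (f ω) := fun t =>
    meas_gcX (mwt t) (mγ.sub mg) mf
  have b3 : ∀ (t : ℝ) (ω : Ω), |gc (w ω + t • g ω) (gb81 (w ω) (g ω) q - g ω) (f ω)| ≤ 2 * ((2 * M) * M) := fun t ω =>
    abs_gc_le_X _ (fun x => (abs_sub _ _).trans (by linarith [bγ ω x, bg ω x])) (bf ω)
  have j3 : Mc (fun t => ∫ ω, gc (w ω + t • g ω) (gb81 (w ω) (g ω) q - g ω) (f ω) ∂P) =
      ∫ ω, Mc (fun t => gc (w ω + t • g ω) (gb81 (w ω) (g ω) q - g ω) (f ω)) ∂P := by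
    have h := int_swap44 P c3 m3 b3 (c := fun _ => 1) continuous_const (by norm_num : (-1 : ℝ) ≤ 1)
    simp only [one_mul] at h
    unfold Mc
    rw [MeasureTheory.integral_const_mul, h]
  have hV : ∀ (u : ℝ) (ω : Ω) (x : X), |cV (w ω + u • g ω) q (g ω) x| ≤ M + 2 * (M * M) := fun u ω x =>
    (abs_cC_le_X (w ω + u • g ω) q (bg ω) (bg ω) x).trans (by linarith)
  have hM2 : M ≤ M + 2 * (M * M) := by nlinarith
  have hM3 : 0 ≤ M + 2 * (M * M) := hM.trans hM2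
  have cc : ∀ ω, Continuous (Function.uncurry fun t u : ℝ => cm [g ω, cV (w ω + u • g ω) q (g ω), f ω] (w ω + t • g ω)) :=
    fun ω => continuous_cm3 ((continuous_line (w ω) (g ω)).comp continuous_fst)
      ((continuous_cV_line q (w ω) (g ω)).comp continuous_snd) (g ω) (f ω)
  have mc : ∀ t u : ℝ, Measurable fun ω => cm [g ω, cV (w ω + u • g ω) q (g ω), f ω] (w ω + t • g ω) := fun t u =>
    meas_cm3 (mwt t) mg (meas_cVX q (mwt u) mg) mf
  have bc : ∀ (t u : ℝ) (ω : Ω), |cm [g ω, cV (w ω + u • g ω) q (g ω), f ω] (w ω + t • g ω)| ≤ KB 3 (M + 2 * (M * M)) :=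
    fun t u ω => abs_cm3_le _ hM3 (fun x => (bg ω x).trans hM2) (hV u ω) (fun x => (bf ω x).trans hM2)
  have j4 : ∫ ω, Mc (fun t => gc (w ω + t • g ω) (gb81 (w ω) (g ω) q - g ω) (f ω)) ∂P =
      -∫ u in (-1 : ℝ)..1, ∫ t in (-1 : ℝ)..1, Kn81 t u *
        ∫ ω, cm [g ω, cV (w ω + u • g ω) q (g ω), f ω] (w ω + t • g ω) ∂P := by
    have e : ∀ ω, Mc (fun t => gc (w ω + t • g ω) (gb81 (w ω) (g ω) q - g ω) (f ω)) = -∫ u in (-1 : ℝ)..1,
        ∫ t in (-1 : ℝ)..1, Kn81 t u * cm [g ω, cV (w ω + u • g ω) q (g ω), f ω] (w ω + t • g ω) := fun ω =>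
      E2a81 (w ω) (g ω) q (hfq ω)
    simp_rw [e]
    rw [MeasureTheory.integral_neg, int_swap44_two P cc mc bc continuous_Kn81 fun t ht u hu =>
      (abs_Kn81_le ht hu).trans (by norm_num)]
  -- E2b
  have m4 : ∀ t : ℝ, Measurable fun ω => gc (w ω + t • g ω) (cC (w ω + t • g ω) p (gb81 (w ω) (g ω) q)
      (g ω - gb81 (w ω) (g ω) q)) (f ω) := fun t => meas_gcX (mwt t) (meas_cCX p (mwt t) mγ (mg.sub mγ)) mf
  have cT : ∀ (a : ℝ) (ω : Ω), Continuous fun u : ℝ => gc (w ω + a • g ω) (cC (w ω + a • g ω) p (gb81 (w ω) (g ω) q)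
      (cV (w ω + u • g ω) q (g ω))) (f ω) := fun a ω =>
    continuous_gc continuous_const (continuous_pi fun x =>
      continuous_cC continuous_const continuous_const (continuous_cV_line q (w ω) (g ω)) p x) (f ω)
  have mT : ∀ (a u : ℝ), Measurable fun ω => gc (w ω + a • g ω) (cC (w ω + a • g ω) p (gb81 (w ω) (g ω) q)
      (cV (w ω + u • g ω) q (g ω))) (f ω) := fun a u =>
    meas_gcX (mwt a) (meas_cCX p (mwt a) mγ (meas_cVX q (mwt u) mg)) mf
  have bT : ∀ (a u : ℝ) (ω : Ω), |gc (w ω + a • g ω) (cC (w ω + a • g ω) p (gb81 (w ω) (g ω) q)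
      (cV (w ω + u • g ω) q (g ω))) (f ω)| ≤ 2 * ((2 * (M * (M + 2 * (M * M)))) * M) := fun a u ω =>
    abs_gc_le_X _ (fun x => abs_cC_le_X _ p (bγ ω) (hV u ω) x) (bf ω)
  have k4 : ∀ a : ℝ, (a = 1 ∨ a = -1) → a * ∫ ω, gc (w ω + a • g ω) (cC (w ω + a • g ω) p (gb81 (w ω) (g ω) q)
      (g ω - gb81 (w ω) (g ω) q)) (f ω) ∂P = (1 / 2) * ∫ u in (-1 : ℝ)..1, (1 + a * u) *
        ∫ ω, gc (w ω + a • g ω) (cC (w ω + a • g ω) p (gb81 (w ω) (g ω) q) (cV (w ω + u • g ω) q (g ω))) (f ω) ∂P := fun a ha => by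
    rw [← int_swap44 P (cT a) (mT a) (bT a) (c := fun u => 1 + a * u) (by fun_prop) (by norm_num : (-1 : ℝ) ≤ 1),
      ← MeasureTheory.integral_const_mul, ← MeasureTheory.integral_const_mul]
    refine MeasureTheory.integral_congr_ae (Eventually.of_forall fun ω => ?_)
    obtain ⟨L, hL⟩ : ∃ L : (X → ℝ) →L[ℝ] ℝ, ∀ F, L F = gc (w ω + a • g ω) (cC (w ω + a • g ω) p (gb81 (w ω) (g ω) q) F) (f ω) := by
      refine ⟨LinearMap.toContinuousLinearMap
        { toFun := fun F => gc (w ω + a • g ω) (cC (w ω + a • g ω) p (gb81 (w ω) (g ω) q) F) (f ω)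
          map_add' := fun F F' => by rw [cC_add_right, gc_add_left]
          map_smul' := fun c F => by rw [cC_smul_right, gc_smul_left]; rfl }, fun F => rfl⟩
    have h1 := E2b81 L (w ω) (g ω) q ha
    simp_rw [hL] at h1
    show a * gc (w ω + a • g ω) (cC (w ω + a • g ω) p (gb81 (w ω) (g ω) q) (g ω - gb81 (w ω) (g ω) q)) (f ω) =
      1 / 2 * ∫ u in (-1 : ℝ)..1, (1 + a * u) * gc (w ω + a • g ω) (cC (w ω + a • g ω) p (gb81 (w ω) (g ω) q)
        (cV (w ω + u • g ω) q (g ω))) (f ω)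
    rw [← h1]
    congr 2
    have h2 : ∀ F : X → ℝ, cC (w ω + a • g ω) p (gb81 (w ω) (g ω) q) (F - gb81 (w ω) (g ω) q) =
        cC (w ω + a • g ω) p (gb81 (w ω) (g ω) q) F - cC (w ω + a • g ω) p (gb81 (w ω) (g ω) q) (gb81 (w ω) (g ω) q) := fun F => by
      have h3 := cC_add_right (w ω + a • g ω) p (gb81 (w ω) (g ω) q) (F - gb81 (w ω) (g ω) q) (gb81 (w ω) (g ω) q)
      rw [sub_add_cancel] at h3
      rw [h3, add_sub_cancel_right]
    rw [h2, h2, cC_pull hc (mp_gb81 (w ω) (g ω) q) (g ω)]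
  have e4 : (1 / 3 : ℝ) * Dc (fun a => ∫ ω, gc (w ω + a • g ω) (cC (w ω + a • g ω) p (gb81 (w ω) (g ω) q)
      (g ω - gb81 (w ω) (g ω) q)) (f ω) ∂P) = (1 / 6) * Ac (fun a => ∫ u in (-1 : ℝ)..1, (1 + a * u) *
        ∫ ω, gc (w ω + a • g ω) (cC (w ω + a • g ω) p (gb81 (w ω) (g ω) q) (cV (w ω + u • g ω) q (g ω))) (f ω) ∂P) := by
    have k1 := k4 1 (Or.inl rfl)
    have k2 := k4 (-1) (Or.inr rfl)
    unfold Dc Ac
    beta_reduce
    linarith
  rw [j3, j4, e4]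
  have z6 : Dc (fun _ : ℝ => (0 : ℝ)) = 0 := by
    unfold Dc
    norm_num
  rw [z6]
  ring

end Exp

end

end Pool.W7d29a1.C0
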