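import Pool.Agent.W_7d29a1_C0.Cr59
import Pool.Agent.W_7d29a1_C0.Base5
import Pool.Agent.W_7d29a1_C0.CrE44
import Pool.Agent.W_7d29a1_C0.TelT72

/-!
CURV0 (MP_7d29a1_pr, helper44): THE CROSS TERM `CR59` FROM FIVE ESTIMATES (master page 684, erratum 3, row 687).

`ge` = the exact response of the base window (length `b`) of the row `j` to the kick `gg b0`. `PE1`, `PT`, `PE2`, `PE2a`, `PE2b`: the five
estimates, each one for the sum over the kicked rows of the block `[c, d)` at FIXED tilts `t`, `u`, every expectation outside of the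
Gibbs measures; `PCl`: `gg b` may be replaced by `ge`. **`CR59_of44`**: together they give `CR59`. `PCl_of44`: `PCl` from the mean of
`|gg b - ge|` under the actual Gibbs measure.
-/

set_option autoImplicit false
set_option linter.unusedSectionVars false
set_option linter.unusedVariables false

namespace Pool.Agent.W_7d29a1_C0.CrA44

open Finset MeasureTheory Filter Topology Pool.Agent.W_7d29a1_F Pool.Agent.W_7d29a1_X Pool.Agent.W_7d29a1_H
open Pool.Agent.W_7d29a1_C0.Mod92 Pool.Agent.W_7d29a1_C0.Base5 Pool.Agent.W_7d29a1_C0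
open Pool.W7d29a1.C0 (gz gm lse gz_pos gz_ne Ac Dc Mc gb81 DX D2X Kn81 cm)
open Pool.W7d29a1.C0.VT31
open Pool.W7d29a1.C0.T72 (fT72 dT72)

noncomputable section

/-! ### The functionals of one row -/

/-- THE EXACT RESPONSE of the base window of length `b` of the row `j` to the kick `gg b0`. -/
def ge (μ : Measure ℝ) (s : ℝ) (N : ℕ) (Q : Finset (Finset ℕ)) (δ B : ℝ) (b0 b : ℕ) (ω : Env × Finset ℕ) (j : ℕ) : Px Q → ℝ :=
  gb81 (w5 μ s N Q δ B b0 ω j) (gg μ s Q δ B b0 ω j) (pW b j)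

section defs

variable (μ : Measure ℝ) (s : ℝ) (N : ℕ) (δ B : ℝ) (b0 b σ : ℕ) (f : Fam N)

/-- `rowC` with the exact response. -/
def rowE (y j : ℕ) : ℝ :=
  ∫ ω, Ac (fun a => gc (wj μ s N (Pn N y) δ B b0 j ω a)
    (Zr (wj μ s N (Pn N y) δ B b0 j ω a) (pS σ j) a (ge μ s N (Pn N y) δ B b0 b ω j)) (f y ω)) ∂(Pm μ N)

/-- The third cumulant seen from the outside of the block of length `σ`: the sum of (E1) and (T). -/
def fP (t : ℝ) (y j : ℕ) : ℝ :=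
  ∫ ω, DX (pS σ j) (wj μ s N (Pn N y) δ B b0 j ω t) (gg μ s (Pn N y) δ B b0 ω j)
    [[ge μ s N (Pn N y) δ B b0 b ω j], [gg μ s (Pn N y) δ B b0 ω j]] [f y ω] ∂(Pm μ N)

/-- **(E1)** at the row `z`: `d_t κ₃(cE_z ge, cE_z g, f)`, `cE_z` = given everything behind `z`. -/
def fE1 (z : ℕ) (t : ℝ) (y j : ℕ) : ℝ :=
  ∫ ω, DX (pJ 0 z) (wj μ s N (Pn N y) δ B b0 j ω t) (gg μ s (Pn N y) δ B b0 ω j)
    [[ge μ s N (Pn N y) δ B b0 b ω j], [gg μ s (Pn N y) δ B b0 ω j]] [f y ω] ∂(Pm μ N)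

/-- **(T)** at the row `z`: `d_t Cov_t(cC_z(cE_B ge, cE_B g), f)`, `B` = the block of length `σ` of the row `j`. -/
def fT (z : ℕ) (t : ℝ) (y j : ℕ) : ℝ :=
  ∫ ω, dT72 (pJ 0 z) (pS σ j) (ge μ s N (Pn N y) δ B b0 b ω j) (gg μ s (Pn N y) δ B b0 ω j) (f y ω)
    (wj μ s N (Pn N y) δ B b0 j ω t) (gg μ s (Pn N y) δ B b0 ω j) ∂(Pm μ N)

/-- **(E2)**: `d_t² Cov_t(cC_B(ge, g), f)`. -/
def fE2 (t : ℝ) (y j : ℕ) : ℝ :=
  ∫ ω, D2X (pS σ j) (wj μ s N (Pn N y) δ B b0 j ω t) (gg μ s (Pn N y) δ B b0 ω j)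
    (ge μ s N (Pn N y) δ B b0 b ω j) (gg μ s (Pn N y) δ B b0 ω j) [f y ω] ∂(Pm μ N)

/-- **(E2a)**: `d_t Cov_t(V_u, f)`, `V_u` = the variance of `g` given the ends of the base window, at the tilt `u`. -/
def fE2a (t u : ℝ) (y j : ℕ) : ℝ :=
  ∫ ω, cm [gg μ s (Pn N y) δ B b0 ω j, cV (wj μ s N (Pn N y) δ B b0 j ω u) (pW b j) (gg μ s (Pn N y) δ B b0 ω j), f y ω]
    (wj μ s N (Pn N y) δ B b0 j ω t) ∂(Pm μ N)

/-- **(E2b)**, the double tie, at the corner `a`: `Cov_a(cC_B(ge, V_u), f)`. -/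
def fE2b (a u : ℝ) (y j : ℕ) : ℝ :=
  ∫ ω, gc (wj μ s N (Pn N y) δ B b0 j ω a) (cC (wj μ s N (Pn N y) δ B b0 j ω a) (pS σ j) (ge μ s N (Pn N y) δ B b0 b ω j)
    (cV (wj μ s N (Pn N y) δ B b0 j ω u) (pW b j) (gg μ s (Pn N y) δ B b0 ω j))) (f y ω) ∂(Pm μ N)

/-! ### The contracts of the owners, for the block `[c, d)` and the spectator `f` -/

variable (ys R : Finset ℕ) (c d : ℕ) (κ e : ℝ)

/-- (E1), averaged over the rows `z` of `J` with the weights `θ`. -/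
def PE1 (J : Finset ℕ) (θ : ℕ → ℝ) : Prop := ∀ t ∈ Set.Icc (-1 : ℝ) 1,
  |∑ j ∈ Rw R c d, avy ys (fun y => ∑ z ∈ J, θ z * fE1 μ s N δ B b0 b f z t y j)| ≤ κ * √(avy ys (varF μ s N f)) + e

/-- (T), for one row `z`. -/
def PT (z : ℕ) : Prop := ∀ t ∈ Set.Icc (-1 : ℝ) 1,
  |∑ j ∈ Rw R c d, avy ys (fT μ s N δ B b0 b σ f z t · j)| ≤ κ * √(avy ys (varF μ s N f)) + e

/-- (E2). -/
def PE2 : Prop := ∀ t ∈ Set.Icc (-1 : ℝ) 1,
  |∑ j ∈ Rw R c d, avy ys (fE2 μ s N δ B b0 b σ f t · j)| ≤ κ * √(avy ys (varF μ s N f)) + e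

/-- (E2a). -/
def PE2a : Prop := ∀ t ∈ Set.Icc (-1 : ℝ) 1, ∀ u ∈ Set.Icc (-1 : ℝ) 1,
  |∑ j ∈ Rw R c d, avy ys (fE2a μ s N δ B b0 b f t u · j)| ≤ κ * √(avy ys (varF μ s N f)) + e

/-- (E2b), at both corners. -/
def PE2b : Prop := ∀ a : ℝ, (a = 1 ∨ a = -1) → ∀ u ∈ Set.Icc (-1 : ℝ) 1,
  |∑ j ∈ Rw R c d, avy ys (fE2b μ s N δ B b0 b σ f a u · j)| ≤ κ * √(avy ys (varF μ s N f)) + e

/-- The clip error. -/
def PCl : Prop :=
  |∑ j ∈ Rw R c d, (avy ys (rowC μ s N δ B b0 b σ f · j) - avy ys (rowE μ s N δ B b0 b σ f · j))| ≤ e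

end defs

/-! ### Tools -/

variable {μ : Measure ℝ} {s : ℝ} {N : ℕ}

theorem wj_line {Q : Finset (Finset ℕ)} (δ B : ℝ) (b0 j : ℕ) (ω : Env × Finset ℕ) (t : ℝ) :
    wj μ s N Q δ B b0 j ω t = w5 μ s N Q δ B b0 ω j + t • gg μ s Q δ B b0 ω j := by
  unfold w5 wm wj wt sr Mod92.gg
  rw [sub_smul]
  abel

theorem crs_pS {Q : Finset (Finset ℕ)} {R : Finset ℕ} {b σ : ℕ} (h : Deep R b σ) {j : ℕ} (hj : j ∈ R) :
    Crs (pS (Q := Q) σ j) (pW b j) := by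
  obtain ⟨h1, h2⟩ := h j hj
  exact crs_pJ (by omega) h2

theorem crs_z {Q : Finset (Finset ℕ)} {σ z j : ℕ} (hz : (j / σ + 1) * σ ≤ z) : Crs (pJ (Q := Q) 0 z) (pS σ j) :=
  crs_pJ (Nat.zero_le _) hz

/-- A spectator is a function of everything behind the row `z ≤ d`. -/
theorem mp_z {c d : ℕ} {D : ℝ} {f : Fam N} (h : Cls59 N c d D f) {z : ℕ} (hz : z ≤ d) (y : ℕ) (ω : Env × Finset ℕ) :
    Mp (pJ (Q := Pn N y) 0 z) (f y ω) := by
  intro S S' e
  refine h.side y ω S S' ?_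
  have h1 : S.1 \ Ico 0 z = S'.1 \ Ico 0 z := congrArg Prod.fst e
  have h2 : ∀ T : Finset ℕ, T \ range d = (T \ Ico 0 z) \ range d := fun T => by
    ext i
    simp only [Finset.mem_sdiff, Finset.mem_Ico, Finset.mem_range]
    constructor
    · rintro ⟨h3, h4⟩
      exact ⟨⟨h3, fun h5 => h4 (by omega)⟩, h4⟩
    · rintro ⟨⟨h3, _⟩, h4⟩
      exact ⟨h3, h4⟩
  rw [h2 S.1, h2 S'.1, h1]

theorem mF {c d : ℕ} {D : ℝ} {f : Fam N} (h : Cls59 N c d D f) (y : ℕ) : Measurable (f y) :=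
  measurable_pi_lambda _ fun S => h.meas y S

theorem mG {Q : Finset (Finset ℕ)} (δ B : ℝ) (b j : ℕ) : Measurable fun ω : Env × Finset ℕ => gg μ s Q δ B b ω j :=
  measurable_pi_lambda _ fun S => meas_gg δ B b j S

theorem mW {Q : Finset (Finset ℕ)} (δ B : ℝ) (b0 j : ℕ) : Measurable fun ω : Env × Finset ℕ => w5 μ s N Q δ B b0 ω j := by
  unfold w5
  refine measurable_pi_lambda _ fun S => ?_
  exact (meas_wm S).sub ((meas_sr j).mul (meas_gg δ B b0 j S))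

/-- The finite averages go inside of the integral over the tilt. -/
theorem L_int44 {ys R : Finset ℕ} {Φ : ℕ → ℕ → ℝ → ℝ} (hΦ : ∀ y ∈ ys, ∀ j ∈ R, Continuous (Φ y j)) {c : ℝ → ℝ}
    (hc : Continuous c) : ∑ j ∈ R, avy ys (fun y => ∫ t in (-1 : ℝ)..1, c t * Φ y j t) =
      ∫ t in (-1 : ℝ)..1, c t * ∑ j ∈ R, avy ys (fun y => Φ y j t) := by
  unfold avy
  have e1 : ∀ t, c t * ∑ j ∈ R, (ys.card : ℝ)⁻¹ * ∑ y ∈ ys, Φ y j t =
      ∑ j ∈ R, ∑ y ∈ ys, (ys.card : ℝ)⁻¹ * (c t * Φ y j t) := fun t => by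
    rw [mul_sum]
    refine sum_congr rfl fun j _ => ?_
    rw [mul_sum, mul_sum]
    exact sum_congr rfl fun y _ => by ring
  simp_rw [e1]
  rw [intervalIntegral.integral_finsetSum (s := R)
    (f := fun j t => ∑ y ∈ ys, (ys.card : ℝ)⁻¹ * (c t * Φ y j t)) fun j hj => Continuous.intervalIntegrable
    (continuous_finsetSum _ fun y hy => (hc.mul (hΦ y hy j hj)).const_mul _) _ _]
  refine sum_congr rfl fun j hj => ?_
  rw [intervalIntegral.integral_finsetSum (s := ys)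
    (f := fun y t => (ys.card : ℝ)⁻¹ * (c t * Φ y j t)) fun y hy => Continuous.intervalIntegrable
    ((hc.mul (hΦ y hy j hj)).const_mul _) _ _, mul_sum]
  exact sum_congr rfl fun y _ => by rw [intervalIntegral.integral_const_mul]

theorem abs_int44 {A : ℝ → ℝ} {K : ℝ} (h : ∀ t ∈ Set.Icc (-1 : ℝ) 1, |A t| ≤ K) : |∫ t in (-1 : ℝ)..1, A t| ≤ 2 * K := by
  have h1 := intervalIntegral.norm_integral_le_of_norm_le_const (a := (-1 : ℝ)) (b := 1) (f := A) (C := K) fun t ht => by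
    rw [Set.uIoc_of_le (by norm_num)] at ht
    rw [Real.norm_eq_abs]
    exact h t ⟨ht.1.le, ht.2⟩
  rw [Real.norm_eq_abs] at h1
  have e : |(1 : ℝ) - -1| = 2 := by norm_num
  rw [e] at h1
  linarith

theorem abs_intc44 {A c : ℝ → ℝ} {K C : ℝ} (h : ∀ t ∈ Set.Icc (-1 : ℝ) 1, |A t| ≤ K) (hc : ∀ t ∈ Set.Icc (-1 : ℝ) 1, |c t| ≤ C) :
    |∫ t in (-1 : ℝ)..1, c t * A t| ≤ 2 * (C * K) := by
  refine abs_int44 fun t ht => ?_
  rw [abs_mul]
  exact mul_le_mul (hc t ht) (h t ht) (abs_nonneg _) ((abs_nonneg _).trans (hc t ht))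

/-! ### The row identity -/

section row

variable [IsProbabilityMeasure μ] {δ B : ℝ} {b0 b σ : ℕ} {c d : ℕ} {D : ℝ} {f : Fam N}

/-- The common bound. -/
theorem bds44 (hB : 0 ≤ B) (hf : Cls59 N c d D f) {y : ℕ} [Nonempty (Px (Pn N y))] (j : ℕ) : 0 ≤ |D| + B ∧
    (∀ (ω : Env × Finset ℕ) S, |gg μ s (Pn N y) δ B b0 ω j S| ≤ |D| + B) ∧ (∀ ω S, |f y ω S| ≤ |D| + B) := by
  refine ⟨by positivity, fun ω S => ?_, fun ω S => ?_⟩
  · refine (abs_gg hB b0 ω j S).trans ?_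
    have := abs_nonneg D
    linarith
  · refine (hf.bdd y ω S).trans ((le_abs_self D).trans ?_)
    linarith

/-- **The row identity.** -/
theorem row44 (hB : 0 ≤ B) (hf : Cls59 N c d D f) {y : ℕ} [Nonempty (Px (Pn N y))] {j : ℕ}
    (hW : Crs (pS (Q := Pn N y) σ j) (pW b j)) (hj : (j / σ + 1) * σ ≤ d) :
    rowE μ s N δ B b0 b σ f y j - rowD μ s N δ B b0 f y j =
      (1 / 4) * (∫ t in (-1 : ℝ)..1, (1 - t ^ 2) * fP μ s N δ B b0 b σ f t y j) -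
      (1 / 12) * (∫ t in (-1 : ℝ)..1, t * (1 - t ^ 2) * fE2 μ s N δ B b0 b σ f t y j) -
      (∫ u in (-1 : ℝ)..1, ∫ t in (-1 : ℝ)..1, Kn81 t u * fE2a μ s N δ B b0 b f t u y j) +
      (1 / 6) * Ac (fun a => ∫ u in (-1 : ℝ)..1, (1 + a * u) * fE2b μ s N δ B b0 b σ f a u y j) := by
  obtain ⟨h0, h1, h2⟩ := bds44 (μ := μ) (s := s) (δ := δ) (b0 := b0) hB hf (y := y) j
  have hp : ∀ ω, Mp (pS (Q := Pn N y) σ j) (f y ω) := fun ω => (mp_z hf le_rfl y ω).of_crs (crs_z hj)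
  have h := Pool.W7d29a1.C0.E_cross44 (Pm μ N) hW (g := fun ω => gg μ s (Pn N y) δ B b0 ω j)
    (w := fun ω => w5 μ s N (Pn N y) δ B b0 ω j) (f := f y) (mG δ B b0 j) (mW δ B b0 j) (mF hf y) hp h0 h1 h2
  simp only [← wj_line] at h
  exact h

/-- The split at the row `z`. -/
theorem split44 (hB : 0 ≤ B) (hf : Cls59 N c d D f) {y : ℕ} [Nonempty (Px (Pn N y))] {j z : ℕ}
    (hz : z ≤ d) (hj : (j / σ + 1) * σ ≤ z) (t : ℝ) :
    fP μ s N δ B b0 b σ f t y j = fE1 μ s N δ B b0 b f z t y j + fT μ s N δ B b0 b σ f z t y j := by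
  obtain ⟨h0, h1, h2⟩ := bds44 (μ := μ) (s := s) (δ := δ) (b0 := b0) hB hf (y := y) j
  have hq : ∀ ω, Mp (pJ (Q := Pn N y) 0 z) (f y ω) := fun ω => mp_z hf hz y ω
  have mw : Measurable fun ω => wj μ s N (Pn N y) δ B b0 j ω t := by
    simp only [wj_line]
    exact Pool.W7d29a1.C0.meas_line (mG δ B b0 j) (mW δ B b0 j) t
  have mγ : Measurable fun ω => ge μ s N (Pn N y) δ B b0 b ω j := Pool.W7d29a1.C0.meas_gb81 _ (mW δ B b0 j) (mG δ B b0 j)
  have bγ : ∀ ω S, |ge μ s N (Pn N y) δ B b0 b ω j S| ≤ |D| + B := fun ω S => Pool.W7d29a1.C0.abs_gb81_le _ _ (h1 ω) S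
  have key : ∀ {Y : Type} [DecidableEq Y] (p : Px (Pn N y) → Y), (∀ ω, Mp p (f y ω)) → Integrable (fun ω =>
      DX p (wj μ s N (Pn N y) δ B b0 j ω t) (gg μ s (Pn N y) δ B b0 ω j)
        [[ge μ s N (Pn N y) δ B b0 b ω j], [gg μ s (Pn N y) δ B b0 ω j]] [f y ω]) (Pm μ N) := fun p hp =>
    Pool.W7d29a1.C0.int_of_bdd44 (Pm μ N) (Pool.W7d29a1.C0.meas_DX mw (mG δ B b0 j)
      [[fun ω => ge μ s N (Pn N y) δ B b0 b ω j], [fun ω => gg μ s (Pn N y) δ B b0 ω j]] (fun a ha b hb => by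
        simp only [List.mem_cons, List.not_mem_nil, or_false] at ha
        rcases ha with rfl | rfl
        · rw [List.mem_singleton.1 hb]; exact mγ
        · rw [List.mem_singleton.1 hb]; exact mG δ B b0 j) (mF hf y) hp)
      (K := ((2 : ℕ) + 1) * Pool.W7d29a1.C0.CB 4 (|D| + B)) fun ω =>
        Pool.W7d29a1.C0.abs_DX_le h0 (N := 4) _ _ (h1 ω) _ (hp ω) (by simp) (fun a ha => by
          simp only [List.mem_cons, List.not_mem_nil, or_false] at ha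
          rcases ha with rfl | rfl
          · exact ⟨by simp, by simp, fun b hb => by rw [List.mem_singleton.1 hb]; exact bγ ω⟩
          · exact ⟨by simp, by simp, fun b hb => by rw [List.mem_singleton.1 hb]; exact h1 ω⟩) (h2 ω)
  have e : ∀ ω, dT72 (pJ 0 z) (pS σ j) (ge μ s N (Pn N y) δ B b0 b ω j) (gg μ s (Pn N y) δ B b0 ω j) (f y ω)
      (wj μ s N (Pn N y) δ B b0 j ω t) (gg μ s (Pn N y) δ B b0 ω j) =
      DX (pS σ j) (wj μ s N (Pn N y) δ B b0 j ω t) (gg μ s (Pn N y) δ B b0 ω j)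
        [[ge μ s N (Pn N y) δ B b0 b ω j], [gg μ s (Pn N y) δ B b0 ω j]] [f y ω] -
      DX (pJ 0 z) (wj μ s N (Pn N y) δ B b0 j ω t) (gg μ s (Pn N y) δ B b0 ω j)
        [[ge μ s N (Pn N y) δ B b0 b ω j], [gg μ s (Pn N y) δ B b0 ω j]] [f y ω] := fun ω => by
    rw [Pool.W7d29a1.C0.T72.DX_split72 (crs_z hj) (hq ω)]
    ring
  unfold fP fE1 fT
  simp_rw [e]
  rw [integral_sub (key _ fun ω => (hq ω).of_crs (crs_z hj)) (key _ hq)]
  ring

/-! ### Continuity in the tilts -/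

/-- `DX` with the two functions `ge`, `g`: measurable and bounded. -/
theorem mb_DX (hB : 0 ≤ B) (hf : Cls59 N c d D f) {y : ℕ} [Nonempty (Px (Pn N y))] (j : ℕ) {Y : Type} [DecidableEq Y]
    (p : Px (Pn N y) → Y) (hp : ∀ ω, Mp p (f y ω)) (t : ℝ) : (Measurable fun ω =>
      DX p (wj μ s N (Pn N y) δ B b0 j ω t) (gg μ s (Pn N y) δ B b0 ω j)
        [[ge μ s N (Pn N y) δ B b0 b ω j], [gg μ s (Pn N y) δ B b0 ω j]] [f y ω]) ∧ ∀ ω,
      |DX p (wj μ s N (Pn N y) δ B b0 j ω t) (gg μ s (Pn N y) δ B b0 ω j)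
        [[ge μ s N (Pn N y) δ B b0 b ω j], [gg μ s (Pn N y) δ B b0 ω j]] [f y ω]| ≤
        ((2 : ℕ) + 1) * Pool.W7d29a1.C0.CB 4 (|D| + B) := by
  obtain ⟨h0, h1, h2⟩ := bds44 (μ := μ) (s := s) (δ := δ) (b0 := b0) hB hf (y := y) j
  have mw : Measurable fun ω => wj μ s N (Pn N y) δ B b0 j ω t := by
    simp only [wj_line]
    exact Pool.W7d29a1.C0.meas_line (mG δ B b0 j) (mW δ B b0 j) t
  have mγ : Measurable fun ω => ge μ s N (Pn N y) δ B b0 b ω j := Pool.W7d29a1.C0.meas_gb81 _ (mW δ B b0 j) (mG δ B b0 j)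
  have bγ : ∀ ω S, |ge μ s N (Pn N y) δ B b0 b ω j S| ≤ |D| + B := fun ω S => Pool.W7d29a1.C0.abs_gb81_le _ _ (h1 ω) S
  refine ⟨Pool.W7d29a1.C0.meas_DX mw (mG δ B b0 j)
      [[fun ω => ge μ s N (Pn N y) δ B b0 b ω j], [fun ω => gg μ s (Pn N y) δ B b0 ω j]] (fun a ha b hb => ?_) (mF hf y) hp,
    fun ω => Pool.W7d29a1.C0.abs_DX_le h0 (N := 4) _ _ (h1 ω) _ (hp ω) (by simp) (fun a ha => ?_) (h2 ω)⟩
  · simp only [List.mem_cons, List.not_mem_nil, or_false] at ha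
    rcases ha with rfl | rfl
    · rw [List.mem_singleton.1 hb]; exact mγ
    · rw [List.mem_singleton.1 hb]; exact mG δ B b0 j
  · simp only [List.mem_cons, List.not_mem_nil, or_false] at ha
    rcases ha with rfl | rfl
    · exact ⟨by simp, by simp, fun b hb => by rw [List.mem_singleton.1 hb]; exact bγ ω⟩
    · exact ⟨by simp, by simp, fun b hb => by rw [List.mem_singleton.1 hb]; exact h1 ω⟩

theorem cont_fP (hB : 0 ≤ B) (hf : Cls59 N c d D f) {y : ℕ} [Nonempty (Px (Pn N y))] {j : ℕ}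
    (hj : (j / σ + 1) * σ ≤ d) : Continuous fun t => fP μ s N δ B b0 b σ f t y j := by
  have hp : ∀ ω, Mp (pS (Q := Pn N y) σ j) (f y ω) := fun ω => (mp_z hf le_rfl y ω).of_crs (crs_z hj)
  unfold fP
  refine Pool.W7d29a1.C0.cont_int44 (Pm μ N) (fun ω => ?_) (fun t => (mb_DX hB hf j _ hp t).1) fun t ω => (mb_DX hB hf j _ hp t).2 ω
  have hl : ∀ F ∈ [f y ω], Mp (pS (Q := Pn N y) σ j) F := fun F hF => by rw [List.mem_singleton.1 hF]; exact hp ω
  simp only [wj_line]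
  exact (Pool.W7d29a1.C0.continuous_DX _ _ hl).comp (Pool.W7d29a1.C0.continuous_line _ _)

theorem cont_fE2 (hB : 0 ≤ B) (hf : Cls59 N c d D f) {y : ℕ} [Nonempty (Px (Pn N y))] {j : ℕ}
    (hj : (j / σ + 1) * σ ≤ d) : Continuous fun t => fE2 μ s N δ B b0 b σ f t y j := by
  obtain ⟨h0, h1, h2⟩ := bds44 (μ := μ) (s := s) (δ := δ) (b0 := b0) hB hf (y := y) j
  have hp : ∀ ω, Mp (pS (Q := Pn N y) σ j) (f y ω) := fun ω => (mp_z hf le_rfl y ω).of_crs (crs_z hj)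
  have mw : ∀ t : ℝ, Measurable fun ω => wj μ s N (Pn N y) δ B b0 j ω t := fun t => by
    simp only [wj_line]
    exact Pool.W7d29a1.C0.meas_line (mG δ B b0 j) (mW δ B b0 j) t
  have mγ : Measurable fun ω => ge μ s N (Pn N y) δ B b0 b ω j := Pool.W7d29a1.C0.meas_gb81 _ (mW δ B b0 j) (mG δ B b0 j)
  have bγ : ∀ ω S, |ge μ s N (Pn N y) δ B b0 b ω j S| ≤ |D| + B := fun ω S => Pool.W7d29a1.C0.abs_gb81_le _ _ (h1 ω) S
  have mg := mG (μ := μ) (s := s) (Q := Pn N y) δ B b0 j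
  unfold fE2
  refine Pool.W7d29a1.C0.cont_int44 (Pm μ N) (M := 5 * Pool.W7d29a1.C0.CB 5 (|D| + B)) (fun ω => ?_) (fun t => ?_) fun t ω => ?_
  · have hl : ∀ F ∈ [f y ω], Mp (pS (Q := Pn N y) σ j) F := fun F hF => by rw [List.mem_singleton.1 hF]; exact hp ω
    simp only [wj_line]
    unfold D2X
    exact ((Pool.W7d29a1.C0.continuous_DX _ _ hl).comp (Pool.W7d29a1.C0.continuous_line _ _)).add
      ((Pool.W7d29a1.C0.continuous_DX _ _ hl).comp (Pool.W7d29a1.C0.continuous_line _ _))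
  · have k1 := Pool.W7d29a1.C0.meas_DX (q := pS (Q := Pn N y) σ j) (mw t) mg
      [[fun ω => gg μ s (Pn N y) δ B b0 ω j], [fun ω => ge μ s N (Pn N y) δ B b0 b ω j, fun ω => gg μ s (Pn N y) δ B b0 ω j]]
      (fun a ha b hb => by
        simp only [List.mem_cons, List.not_mem_nil, or_false] at ha
        rcases ha with rfl | rfl
        · rw [List.mem_singleton.1 hb]; exact mg
        · simp only [List.mem_cons, List.not_mem_nil, or_false] at hb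
          rcases hb with rfl | rfl
          · exact mγ
          · exact mg) (mF hf y) hp
    have k2 := Pool.W7d29a1.C0.meas_DX (q := pS (Q := Pn N y) σ j) (mw t) mg
      [[fun ω => gg μ s (Pn N y) δ B b0 ω j, fun ω => ge μ s N (Pn N y) δ B b0 b ω j, fun ω => gg μ s (Pn N y) δ B b0 ω j]]
      (fun a ha b hb => by
        rw [List.mem_singleton.1 ha] at hb
        simp only [List.mem_cons, List.not_mem_nil, or_false] at hb
        rcases hb with rfl | rfl | rfl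
        · exact mg
        · exact mγ
        · exact mg) (mF hf y) hp
    exact k1.add k2
  · have k1 := Pool.W7d29a1.C0.abs_DX_le h0 (N := 5) (wj μ s N (Pn N y) δ B b0 j ω t) _ (h1 ω)
      [[gg μ s (Pn N y) δ B b0 ω j], [ge μ s N (Pn N y) δ B b0 b ω j, gg μ s (Pn N y) δ B b0 ω j]] (hp ω) (by simp)
      (fun a ha => by
        simp only [List.mem_cons, List.not_mem_nil, or_false] at ha
        rcases ha with rfl | rfl
        · exact ⟨by simp, by simp, fun b hb => by rw [List.mem_singleton.1 hb]; exact h1 ω⟩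
        · refine ⟨by simp, by simp, fun b hb => ?_⟩
          simp only [List.mem_cons, List.not_mem_nil, or_false] at hb
          rcases hb with rfl | rfl
          · exact bγ ω
          · exact h1 ω) (h2 ω)
    have k2 := Pool.W7d29a1.C0.abs_DX_le h0 (N := 5) (wj μ s N (Pn N y) δ B b0 j ω t) _ (h1 ω)
      [[gg μ s (Pn N y) δ B b0 ω j, ge μ s N (Pn N y) δ B b0 b ω j, gg μ s (Pn N y) δ B b0 ω j]] (hp ω) (by simp)
      (fun a ha => by
        rw [List.mem_singleton.1 ha]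
        refine ⟨by simp, by simp, fun b hb => ?_⟩
        simp only [List.mem_cons, List.not_mem_nil, or_false] at hb
        rcases hb with rfl | rfl | rfl
        · exact h1 ω
        · exact bγ ω
        · exact h1 ω) (h2 ω)
    unfold D2X
    refine (abs_add_le _ _).trans ((add_le_add k1 k2).trans (le_of_eq ?_))
    simp only [List.length_cons, List.length_nil]
    push_cast
    ring

theorem cont_fE2a (hB : 0 ≤ B) (hf : Cls59 N c d D f) {y : ℕ} [Nonempty (Px (Pn N y))] (j : ℕ) :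
    Continuous (Function.uncurry fun t u : ℝ => fE2a μ s N δ B b0 b f t u y j) := by
  obtain ⟨h0, h1, h2⟩ := bds44 (μ := μ) (s := s) (δ := δ) (b0 := b0) hB hf (y := y) j
  have mg := mG (μ := μ) (s := s) (Q := Pn N y) δ B b0 j
  have mw : ∀ t : ℝ, Measurable fun ω => wj μ s N (Pn N y) δ B b0 j ω t := fun t => by
    simp only [wj_line]
    exact Pool.W7d29a1.C0.meas_line mg (mW δ B b0 j) t
  obtain ⟨M, hM⟩ : ∃ M, M = |D| + B := ⟨_, rfl⟩
  rw [← hM] at h0 h1 h2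
  have hM2 : M ≤ M + 2 * (M * M) := by nlinarith
  unfold fE2a
  refine Pool.W7d29a1.C0.cont_int44_two (Pm μ N) (M := Pool.W7d29a1.C0.KB 3 (M + 2 * (M * M))) (fun ω => ?_) (fun t u => ?_)
    fun t u ω => ?_
  · simp only [wj_line]
    exact Pool.W7d29a1.C0.continuous_cm3 ((Pool.W7d29a1.C0.continuous_line _ _).comp continuous_fst)
      ((Pool.W7d29a1.C0.continuous_cV_line _ _ _).comp continuous_snd) _ _
  · exact Pool.W7d29a1.C0.meas_cm3 (mw t) mg (Pool.W7d29a1.C0.meas_cVX _ (mw u) mg) (mF hf y)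
  · exact Pool.W7d29a1.C0.abs_cm3_le _ (h0.trans hM2) (fun x => (h1 ω x).trans hM2)
      (fun x => (Pool.W7d29a1.C0.abs_cC_le_X _ _ (h1 ω) (h1 ω) x).trans (by linarith)) fun x => (h2 ω x).trans hM2

theorem cont_fE2b (hB : 0 ≤ B) (hf : Cls59 N c d D f) {y : ℕ} [Nonempty (Px (Pn N y))] (j : ℕ) (a : ℝ) :
    Continuous fun u => fE2b μ s N δ B b0 b σ f a u y j := by
  obtain ⟨h0, h1, h2⟩ := bds44 (μ := μ) (s := s) (δ := δ) (b0 := b0) hB hf (y := y) j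
  have mg := mG (μ := μ) (s := s) (Q := Pn N y) δ B b0 j
  have mw : ∀ t : ℝ, Measurable fun ω => wj μ s N (Pn N y) δ B b0 j ω t := fun t => by
    simp only [wj_line]
    exact Pool.W7d29a1.C0.meas_line mg (mW δ B b0 j) t
  have mγ : Measurable fun ω => ge μ s N (Pn N y) δ B b0 b ω j := Pool.W7d29a1.C0.meas_gb81 _ (mW δ B b0 j) mg
  obtain ⟨M, hM⟩ : ∃ M, M = |D| + B := ⟨_, rfl⟩
  rw [← hM] at h0 h1 h2
  have bγ : ∀ ω S, |ge μ s N (Pn N y) δ B b0 b ω j S| ≤ M := fun ω S => Pool.W7d29a1.C0.abs_gb81_le _ _ (h1 ω) S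
  unfold fE2b
  refine Pool.W7d29a1.C0.cont_int44 (Pm μ N) (M := 2 * ((2 * (M * (2 * (M * M)))) * M)) (fun ω => ?_) (fun u => ?_) fun u ω => ?_
  · simp only [wj_line]
    exact Pool.W7d29a1.C0.continuous_gc continuous_const (continuous_pi fun x =>
      Pool.W7d29a1.C0.continuous_cC continuous_const continuous_const (Pool.W7d29a1.C0.continuous_cV_line _ _ _) _ x) _
  · exact Pool.W7d29a1.C0.meas_gcX (mw a) (Pool.W7d29a1.C0.meas_cCX _ (mw a) mγ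
      (Pool.W7d29a1.C0.meas_cVX _ (mw u) mg)) (mF hf y)
  · exact Pool.W7d29a1.C0.abs_gc_le_X _ (fun x => Pool.W7d29a1.C0.abs_cC_le_X _ _ (bγ ω)
      (fun x => Pool.W7d29a1.C0.abs_cC_le_X _ _ (h1 ω) (h1 ω) x) x) (h2 ω)

end row

/-! ### The sums over the rows -/

/-- The sum over the kicked rows of the averages over the pinned ends. -/
def SS (ys I : Finset ℕ) (Φ : ℕ → ℕ → ℝ) : ℝ := ∑ j ∈ I, avy ys fun y => Φ y j

theorem SS_add (ys I : Finset ℕ) (Φ Ψ : ℕ → ℕ → ℝ) : SS ys I (fun y j => Φ y j + Ψ y j) = SS ys I Φ + SS ys I Ψ := by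
  unfold SS
  simp only [avy_add, sum_add_distrib]

theorem SS_mul (ys I : Finset ℕ) (c : ℝ) (Φ : ℕ → ℕ → ℝ) : SS ys I (fun y j => c * Φ y j) = c * SS ys I Φ := by
  unfold SS
  simp only [avy_mul, mul_sum]

theorem SS_sub (ys I : Finset ℕ) (Φ Ψ : ℕ → ℕ → ℝ) : SS ys I (fun y j => Φ y j - Ψ y j) = SS ys I Φ - SS ys I Ψ := by
  have h := SS_add ys I Φ fun y j => (-1) * Ψ y j
  rw [SS_mul] at h
  have e : (fun y j => Φ y j - Ψ y j) = fun y j => Φ y j + (-1) * Ψ y j := by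
    funext y j
    ring
  rw [e, h]
  ring

theorem SS_congr {ys I : Finset ℕ} {Φ Ψ : ℕ → ℕ → ℝ} (h : ∀ y ∈ ys, ∀ j ∈ I, Φ y j = Ψ y j) : SS ys I Φ = SS ys I Ψ := by
  unfold SS avy
  exact sum_congr rfl fun j hj => by rw [sum_congr rfl fun y hy => h y hy j hj]

theorem SS_sum (ys I J : Finset ℕ) (θ : ℕ → ℝ) (Φ : ℕ → ℕ → ℕ → ℝ) :
    SS ys I (fun y j => ∑ z ∈ J, θ z * Φ z y j) = ∑ z ∈ J, θ z * SS ys I (Φ z) := by
  classical
  induction J using Finset.induction_on with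
  | empty =>
    simp only [sum_empty]
    unfold SS avy
    simp
  | insert a J ha ih =>
    rw [sum_insert ha, ← ih, ← SS_mul, ← SS_add]
    exact SS_congr fun y _ j _ => by rw [sum_insert ha]

/-- The bound of the sum over the rows from the bounds at fixed tilts (abstract). -/
theorem sum44 {ys I : Finset ℕ} {Δ : ℕ → ℕ → ℝ} {P E : ℕ → ℕ → ℝ → ℝ} {Ea Eb : ℕ → ℕ → ℝ → ℝ → ℝ}
    (cP : ∀ y ∈ ys, ∀ j ∈ I, Continuous (P y j)) (cE : ∀ y ∈ ys, ∀ j ∈ I, Continuous (E y j))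
    (ca : ∀ y ∈ ys, ∀ j ∈ I, Continuous (Function.uncurry (Ea y j))) (cb : ∀ a : ℝ, ∀ y ∈ ys, ∀ j ∈ I, Continuous (Eb y j a))
    (hΔ : ∀ y ∈ ys, ∀ j ∈ I, Δ y j = (1 / 4) * (∫ t in (-1 : ℝ)..1, (1 - t ^ 2) * P y j t) -
      (1 / 12) * (∫ t in (-1 : ℝ)..1, t * (1 - t ^ 2) * E y j t) -
      (∫ u in (-1 : ℝ)..1, ∫ t in (-1 : ℝ)..1, Kn81 t u * Ea y j t u) +
      (1 / 6) * Ac (fun a => ∫ u in (-1 : ℝ)..1, (1 + a * u) * Eb y j a u)) {KP KE Ka Kb : ℝ}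
    (hP : ∀ t ∈ Set.Icc (-1 : ℝ) 1, |SS ys I (fun y j => P y j t)| ≤ KP)
    (hE : ∀ t ∈ Set.Icc (-1 : ℝ) 1, |SS ys I (fun y j => E y j t)| ≤ KE)
    (ha : ∀ t ∈ Set.Icc (-1 : ℝ) 1, ∀ u ∈ Set.Icc (-1 : ℝ) 1, |SS ys I (fun y j => Ea y j t u)| ≤ Ka)
    (hb : ∀ a : ℝ, (a = 1 ∨ a = -1) → ∀ u ∈ Set.Icc (-1 : ℝ) 1, |SS ys I (fun y j => Eb y j a u)| ≤ Kb) :
    |SS ys I Δ| ≤ KP + KE + Ka + Kb := by
  have ck : ∀ u : ℝ, Continuous fun t => Kn81 t u := fun u =>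
    Pool.W7d29a1.C0.continuous_Kn81.comp (continuous_id.prodMk continuous_const)
  have l1 : SS ys I (fun y j => ∫ t in (-1 : ℝ)..1, (1 - t ^ 2) * P y j t) =
      ∫ t in (-1 : ℝ)..1, (1 - t ^ 2) * SS ys I (fun y j => P y j t) := L_int44 cP (c := fun t => 1 - t ^ 2) (by fun_prop)
  have l2 : SS ys I (fun y j => ∫ t in (-1 : ℝ)..1, t * (1 - t ^ 2) * E y j t) =
      ∫ t in (-1 : ℝ)..1, t * (1 - t ^ 2) * SS ys I (fun y j => E y j t) :=
    L_int44 cE (c := fun t => t * (1 - t ^ 2)) (by fun_prop)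
  have l3 : ∀ u : ℝ, SS ys I (fun y j => ∫ t in (-1 : ℝ)..1, Kn81 t u * Ea y j t u) =
      ∫ t in (-1 : ℝ)..1, Kn81 t u * SS ys I (fun y j => Ea y j t u) := fun u =>
    L_int44 (Φ := fun y j t => Ea y j t u)
      (fun y hy j hj => (ca y hy j hj).comp (continuous_id.prodMk continuous_const)) (ck u)
  have l4 : SS ys I (fun y j => ∫ u in (-1 : ℝ)..1, 1 * ∫ t in (-1 : ℝ)..1, Kn81 t u * Ea y j t u) =
      ∫ u in (-1 : ℝ)..1, 1 * SS ys I (fun y j => ∫ t in (-1 : ℝ)..1, Kn81 t u * Ea y j t u) :=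
    L_int44 (Φ := fun y j u => ∫ t in (-1 : ℝ)..1, Kn81 t u * Ea y j t u) (c := fun _ => 1)
      (fun y hy j hj => by
        refine intervalIntegral.continuous_parametric_intervalIntegral_of_continuous' (μ := volume)
          (f := fun u t => Kn81 t u * Ea y j t u) ?_ (-1) 1
        exact (Pool.W7d29a1.C0.continuous_Kn81.comp continuous_swap).mul ((ca y hy j hj).comp continuous_swap))
      continuous_const
  have l5 : ∀ a : ℝ, SS ys I (fun y j => ∫ u in (-1 : ℝ)..1, (1 + a * u) * Eb y j a u) =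
      ∫ u in (-1 : ℝ)..1, (1 + a * u) * SS ys I (fun y j => Eb y j a u) := fun a =>
    L_int44 (cb a) (c := fun u => 1 + a * u) (by fun_prop)
  have key : SS ys I Δ = (1 / 4) * (∫ t in (-1 : ℝ)..1, (1 - t ^ 2) * SS ys I (fun y j => P y j t)) -
      (1 / 12) * (∫ t in (-1 : ℝ)..1, t * (1 - t ^ 2) * SS ys I (fun y j => E y j t)) -
      (∫ u in (-1 : ℝ)..1, 1 * ∫ t in (-1 : ℝ)..1, Kn81 t u * SS ys I (fun y j => Ea y j t u)) +
      (1 / 6) * ((1 / 2) * (∫ u in (-1 : ℝ)..1, (1 + 1 * u) * SS ys I (fun y j => Eb y j 1 u)) +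
        (1 / 2) * ∫ u in (-1 : ℝ)..1, (1 + (-1) * u) * SS ys I (fun y j => Eb y j (-1) u)) := by
    have e1 : SS ys I Δ = SS ys I (fun y j => (1 / 4) * (∫ t in (-1 : ℝ)..1, (1 - t ^ 2) * P y j t) -
        (1 / 12) * (∫ t in (-1 : ℝ)..1, t * (1 - t ^ 2) * E y j t) -
        (∫ u in (-1 : ℝ)..1, 1 * ∫ t in (-1 : ℝ)..1, Kn81 t u * Ea y j t u) +
        (1 / 6) * ((1 / 2) * (∫ u in (-1 : ℝ)..1, (1 + 1 * u) * Eb y j 1 u) +
          (1 / 2) * ∫ u in (-1 : ℝ)..1, (1 + (-1) * u) * Eb y j (-1) u)) := by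
      refine SS_congr fun y hy j hj => ?_
      rw [hΔ y hy j hj]
      simp only [one_mul]
      unfold Ac
      ring_nf
    rw [e1, SS_add, SS_sub, SS_sub, SS_mul, SS_mul, SS_mul, SS_add, SS_mul, SS_mul, l1, l2, l4, l5 1, l5 (-1)]
    simp only [l3]
  have hK1 : ∀ t ∈ Set.Icc (-1 : ℝ) 1, |1 - t ^ 2| ≤ 1 := fun t ht => by
    rw [abs_le]
    constructor <;> nlinarith [ht.1, ht.2]
  have hK2 : ∀ t ∈ Set.Icc (-1 : ℝ) 1, |t * (1 - t ^ 2)| ≤ 1 := fun t ht => by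
    rw [abs_mul]
    have := hK1 t ht
    have h3 : |t| ≤ 1 := abs_le.2 ht
    nlinarith [abs_nonneg t, abs_nonneg (1 - t ^ 2)]
  have z0 : (0 : ℝ) ∈ Set.Icc (-1 : ℝ) 1 := ⟨by norm_num, by norm_num⟩
  have p1 : 0 ≤ KP := (abs_nonneg _).trans (hP 0 z0)
  have p2 : 0 ≤ KE := (abs_nonneg _).trans (hE 0 z0)
  have pa : 0 ≤ Ka := (abs_nonneg _).trans (ha 0 z0 0 z0)
  have pb : 0 ≤ Kb := (abs_nonneg _).trans (hb 1 (Or.inl rfl) 0 z0)
  have b1 := abs_intc44 hP hK1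
  have b2 := abs_intc44 hE hK2
  have b3 : |∫ u in (-1 : ℝ)..1, 1 * ∫ t in (-1 : ℝ)..1, Kn81 t u * SS ys I (fun y j => Ea y j t u)| ≤
      2 * (1 * (2 * (1 / 4 * Ka))) := by
    refine abs_intc44 (c := fun _ => 1) (fun u hu => ?_) (fun u _ => by rw [abs_one])
    exact abs_intc44 (A := fun t => SS ys I (fun y j => Ea y j t u)) (c := fun t => Kn81 t u)
      (fun t ht => ha t ht u hu) fun t ht => Pool.W7d29a1.C0.abs_Kn81_le ht hu
  have b4 : ∀ a : ℝ, (a = 1 ∨ a = -1) →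
      |∫ u in (-1 : ℝ)..1, (1 + a * u) * SS ys I (fun y j => Eb y j a u)| ≤ 2 * (2 * Kb) := fun a h => by
    refine abs_intc44 (A := fun u => SS ys I (fun y j => Eb y j a u)) (c := fun u => 1 + a * u) (hb a h) fun u hu => ?_
    rw [abs_le]
    rcases h with rfl | rfl
    · constructor <;> linarith [hu.1, hu.2]
    · constructor <;> linarith [hu.1, hu.2]
  rw [key]
  have b5 := b4 1 (Or.inl rfl)
  have b6 := b4 (-1) (Or.inr rfl)
  rw [abs_le] at b1 b2 b3 b5 b6 ⊢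
  constructor <;> linarith [b1.1, b1.2, b2.1, b2.2, b3.1, b3.2, b5.1, b5.2, b6.1, b6.2]

/-- **THE CROSS TERM FROM THE FIVE ESTIMATES.** `J`, `θ`: any rows `z` between the blocks of the kicked rows and the row `d`, with any
weights of sum one. -/
theorem CR59_of44 [IsProbabilityMeasure μ] {ys R : Finset ℕ} (hys : ∀ y ∈ ys, y ≤ N) {δ B : ℝ} (hB : 0 ≤ B) {b0 b σ : ℕ}
    (hb : Deep R b σ) {c d : ℕ} {D : ℝ} {f : Fam N} (hf : Cls59 N c d D f) {J : Finset ℕ} {θ : ℕ → ℝ} (hθ : ∑ z ∈ J, θ z = 1)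
    (hθ0 : ∀ z ∈ J, 0 ≤ θ z) (hJd : ∀ z ∈ J, z ≤ d) (hJ : ∀ z ∈ J, ∀ j ∈ Rw R c d, (j / σ + 1) * σ ≤ z)
    {κ₁ κT κ₂ κa κb e₁ eT e₂ ea eb ec : ℝ} (h1 : PE1 μ s N δ B b0 b f ys R c d κ₁ e₁ J θ)
    (hT : ∀ z ∈ J, PT μ s N δ B b0 b σ f ys R c d κT eT z) (h2 : PE2 μ s N δ B b0 b σ f ys R c d κ₂ e₂)
    (h2a : PE2a μ s N δ B b0 b f ys R c d κa ea) (h2b : PE2b μ s N δ B b0 b σ f ys R c d κb eb)
    (hcl : PCl μ s N δ B b0 b σ f ys R c d ec) :
    CR59 μ s N ys δ B b0 b σ R c d (κ₁ + κT + κ₂ + κa + κb) (e₁ + eT + e₂ + ea + eb + ec) f := by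
  have hJne : J.Nonempty := by
    rcases J.eq_empty_or_nonempty with h | h
    · rw [h, sum_empty] at hθ
      exact absurd hθ zero_ne_one
    · exact h
  have hjd : ∀ j ∈ Rw R c d, (j / σ + 1) * σ ≤ d := fun j hj => by
    obtain ⟨z, hz⟩ := hJne
    exact (hJ z hz j hj).trans (hJd z hz)
  have hdeep : ∀ j ∈ Rw R c d, j ∈ R := fun j hj => by
    unfold Rw at hj
    exact (mem_inter.1 hj).1
  unfold CR59
  obtain ⟨V, hV⟩ : ∃ V, V = √(avy ys (varF μ s N f)) := ⟨_, rfl⟩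
  have hP : ∀ t ∈ Set.Icc (-1 : ℝ) 1, |SS ys (Rw R c d) (fun y j => fP μ s N δ B b0 b σ f t y j)| ≤
      (κ₁ * V + e₁) + (κT * V + eT) := by
    intro t ht
    have e : SS ys (Rw R c d) (fun y j => fP μ s N δ B b0 b σ f t y j) =
        SS ys (Rw R c d) (fun y j => ∑ z ∈ J, θ z * fE1 μ s N δ B b0 b f z t y j) +
          ∑ z ∈ J, θ z * SS ys (Rw R c d) (fun y j => fT μ s N δ B b0 b σ f z t y j) := by
      rw [← SS_sum ys (Rw R c d) J θ (fun z y j => fT μ s N δ B b0 b σ f z t y j), ← SS_add]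
      refine SS_congr fun y hy j hj => ?_
      have := ne_Pn (hys y hy)
      have e2 : ∀ z ∈ J, θ z * fE1 μ s N δ B b0 b f z t y j + θ z * fT μ s N δ B b0 b σ f z t y j =
          θ z * fP μ s N δ B b0 b σ f t y j := fun z hz => by
        rw [split44 hB hf (hJd z hz) (hJ z hz j hj) t]
        ring
      rw [← sum_add_distrib, sum_congr rfl e2, ← sum_mul, hθ, one_mul]
    rw [e]
    have h1' := h1 t ht
    rw [← hV] at h1'
    refine (abs_add_le _ _).trans (add_le_add h1' ?_)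
    calc |∑ z ∈ J, θ z * SS ys (Rw R c d) (fun y j => fT μ s N δ B b0 b σ f z t y j)| ≤
          ∑ z ∈ J, θ z * (κT * V + eT) := by
            refine (abs_sum_le_sum_abs _ _).trans (sum_le_sum fun z hz => ?_)
            rw [abs_mul, abs_of_nonneg (hθ0 z hz)]
            have h3 := hT z hz t ht
            rw [← hV] at h3
            exact mul_le_mul_of_nonneg_left h3 (hθ0 z hz)
      _ = κT * V + eT := by rw [← sum_mul, hθ, one_mul]
  have hmain := sum44 (ys := ys) (I := Rw R c d)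
    (Δ := fun y j => rowE μ s N δ B b0 b σ f y j - rowD μ s N δ B b0 f y j)
    (P := fun y j t => fP μ s N δ B b0 b σ f t y j) (E := fun y j t => fE2 μ s N δ B b0 b σ f t y j)
    (Ea := fun y j t u => fE2a μ s N δ B b0 b f t u y j) (Eb := fun y j a u => fE2b μ s N δ B b0 b σ f a u y j)
    (KP := (κ₁ * V + e₁) + (κT * V + eT)) (KE := κ₂ * V + e₂) (Ka := κa * V + ea) (Kb := κb * V + eb)
    (fun y hy j hj => by
      have := ne_Pn (hys y hy)
      exact cont_fP hB hf (hjd j hj))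
    (fun y hy j hj => by
      have := ne_Pn (hys y hy)
      exact cont_fE2 hB hf (hjd j hj))
    (fun y hy j _ => by
      have := ne_Pn (hys y hy)
      exact cont_fE2a hB hf j)
    (fun a y hy j _ => by
      have := ne_Pn (hys y hy)
      exact cont_fE2b hB hf j a)
    (fun y hy j hj => by
      have := ne_Pn (hys y hy)
      exact row44 hB hf (crs_pS hb (hdeep j hj)) (hjd j hj))
    hP (fun t ht => by rw [hV]; exact h2 t ht) (fun t ht u hu => by rw [hV]; exact h2a t ht u hu)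
    (fun a ha u hu => by rw [hV]; exact h2b a ha u hu)
  have esp : ∑ j ∈ Rw R c d, (avy ys (fun y => rowC μ s N δ B b0 b σ f y j) - avy ys (fun y => rowD μ s N δ B b0 f y j)) =
      (∑ j ∈ Rw R c d, (avy ys (fun y => rowC μ s N δ B b0 b σ f y j) - avy ys (fun y => rowE μ s N δ B b0 b σ f y j))) +
        SS ys (Rw R c d) (fun y j => rowE μ s N δ B b0 b σ f y j - rowD μ s N δ B b0 f y j) := by
    rw [SS_sub]
    unfold SS
    rw [← sum_sub_distrib, ← sum_add_distrib]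
    exact sum_congr rfl fun j _ => by ring
  rw [esp, ← hV]
  refine (abs_add_le _ _).trans ((add_le_add hcl hmain).trans (le_of_eq ?_))
  ring

end

end Pool.Agent.W_7d29a1_C0.CrA44
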