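import Pool.Agent.W_7d29a1_C0.ClT46
import Pool.Agent.W_7d29a1_C0.CrAsm44

/-!
STORM C0 (helper46): THE CLIP MEAN, averaged over the environment. `cm46` = the mean of the difference of the clipped response `gg b` and
of the exact response `ge b0 b` at the corner `t = ± 1` of the row `j`. `cm_le46`: pathwise, `cm_int46`: the mean over the environment.
-/

set_option autoImplicit false
set_option linter.unusedSectionVars false
set_option linter.unusedVariables false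

namespace Pool.Agent.W_7d29a1_C0.Cl46

open Pool.Agent.W_7d29a1_F hiding W_pos W_nonneg W_add
open Finset MeasureTheory Filter Topology Pool.Agent.W_7d29a1_X
open Pool.Agent.W_7d29a1_HZ.Z74 (shj mp_shj)
open Pool.Agent.W_7d29a1_H (sl)
open Pool.Agent.W_7d29a1_HS (In)
open Pool.Agent.W_7d29a1_C0 Pool.Agent.W_7d29a1_C0.Mod92 Pool.Agent.W_7d29a1_C0.Flip61 Pool.Agent.W_7d29a1_C0.Pin18
open Pool.Agent.W_7d29a1_C0.Base5 Pool.Agent.W_7d29a1_C0.CrA44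
open Pool.W7d29a1.C0 (gz gm gz_pos gm_mono gm_nonneg gm_const gb81)

noncomputable section

variable {μ : Measure ℝ} {s : ℝ} {N : ℕ}

/-- **The mean of the error of the clipped response** at the corner `t` of the row `j`. -/
def cm46 (μ : Measure ℝ) (s : ℝ) (N : ℕ) (γ B : ℝ) (b0 b j : ℕ) (t : ℝ) (y : ℕ) (ω : Env × Finset ℕ) : ℝ :=
  gm (wj μ s N (Pn N y) γ B b0 j ω t) fun S => |Mod92.gg μ s (Pn N y) γ B b ω j S - ge μ s N (Pn N y) γ B b0 b ω j S|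

/-! ### Measurability and bounds -/

theorem meas_lk46 (c l k : ℕ) (v x z : ℤ) : Measurable fun η : Env => lk μ s η c l k v x z := by
  unfold lk
  exact (meas_ZJ _ _ _ _ _).log.sub (measurable_W _ _ _).log

theorem meas_bw46 (γ ξ : ℝ) (c l k : ℕ) (a : ℤ) (y : ℕ) : Measurable (bw μ s N γ ξ c l k a y) := by
  unfold bw
  refine meas_gm (fun S => meas_lw S) fun S => ?_
  unfold id46
  refine Measurable.ite ?_ measurable_const measurable_const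
  have h1 : MeasurableSet {η : Env | Wx μ s γ ξ η c l k a (pos S.1 c) (pos S.1 (c + l))} :=
    (MeasurableSet.const (Flat μ s γ l a (pos S.1 (c + l) - pos S.1 c))).inter
      (measurableSet_le (meas_lk46 c l k (-a) (pos S.1 c) (pos S.1 (c + l))).abs measurable_const)
  exact h1.compl

theorem bw_le46 (γ ξ : ℝ) (c l k : ℕ) (a : ℤ) (y : ℕ) (η : Env) : bw μ s N γ ξ c l k a y η ≤ 1 := by
  unfold bw gm
  refine div_le_one_of_le₀ (sum_le_sum fun S _ => ?_) (sum_nonneg fun _ _ => (Real.exp_pos _).le)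
  exact mul_le_of_le_one_right (Real.exp_pos _).le (id_le46 _ _)

theorem meas_cm46 {y : ℕ} (hy : y ≤ N) (γ B : ℝ) (b0 b j : ℕ) (t : ℝ) : Measurable (cm46 μ s N γ B b0 b j t y) := by
  have n1 := ne_Pn hy
  have mg0 := mG (μ := μ) (s := s) (Q := Pn N y) γ B b0 j
  have mg := mG (μ := μ) (s := s) (Q := Pn N y) γ B b j
  have mw : Measurable fun ω => wj μ s N (Pn N y) γ B b0 j ω t := by
    simp only [wj_line]
    exact Pool.W7d29a1.C0.meas_line mg0 (mW γ B b0 j) t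
  have mγ : Measurable fun ω => ge μ s N (Pn N y) γ B b0 b ω j := Pool.W7d29a1.C0.meas_gb81 _ (mW γ B b0 j) mg0
  exact Pool.W7d29a1.C0.meas_gmX mw
    (measurable_pi_lambda _ fun S => (((measurable_pi_apply S).comp mg).sub ((measurable_pi_apply S).comp mγ)).abs)

theorem abs_cm46 {y : ℕ} (hy : y ≤ N) (γ : ℝ) {B : ℝ} (hB : 0 ≤ B) (b0 b j : ℕ) (t : ℝ) (ω : Env × Finset ℕ) :
    |cm46 μ s N γ B b0 b j t y ω| ≤ B := by
  have n1 := ne_Pn hy
  refine Pool.W7d29a1.C0.abs_gm_le_X _ fun S => ?_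
  rw [abs_abs]
  have h1 := abs_gg (μ := μ) (s := s) (δ := γ) hB b ω j S
  have h2 : |ge μ s N (Pn N y) γ B b0 b ω j S| ≤ B / 2 := Pool.W7d29a1.C0.abs_gb81_le _ _ (abs_gg hB b0 ω j) S
  exact (abs_sub _ _).trans (by linarith)

theorem cm_nonneg46 {y : ℕ} (hy : y ≤ N) (γ B : ℝ) (b0 b j : ℕ) (t : ℝ) (ω : Env × Finset ℕ) : 0 ≤ cm46 μ s N γ B b0 b j t y ω := by
  have n1 := ne_Pn hy
  exact gm_nonneg _ fun S => abs_nonneg _

/-! ### Pathwise -/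

variable [IsProbabilityMeasure μ]

/-- **Both corners of the row `j`**, pathwise. -/
theorem cm_le46 (η : Env) (A : Finset ℕ) {b0 b j y : ℕ} (hbb : b0 ≤ b) (hbj : b ≤ j) (hjN : j + b ≤ N) (hy1 : 1 ≤ y) (hyN : y < N)
    {γ B ξ : ℝ} (hB : 0 ≤ B) (hξ0 : 0 ≤ ξ) (hξ : 4 ≤ Real.exp ξ) (hξB : ξ ≤ B)
    (fo : ∀ l : ℕ, 2 * b0 ≤ l → ∀ D : ℤ, Flat μ s γ l (sg A j) D → 0 ≤ D + sg A j ∧ D + sg A j ≤ l) {t : ℝ} (ht : t = 1 ∨ t = -1) :
    cm46 μ s N γ B b0 b j t y (η, A) ≤ 2 * Real.exp (-ξ) +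
      B * (Ec46 μ s N γ B ξ (j - b) (j + b - (j - b)) (j - (j - b)) (j - b0) (j + b0 - (j - b0)) (j - (j - b0)) (sg A j) y
        (nb (sg A j) y) η (shj (j : ℤ) (-sg A j) η) +
        2 * nok μ s N (j - b0) (j + b0 - (j - b0)) (-sg A j) (nb (sg A j) y) (shj (j : ℤ) (-sg A j) η) +
        clip μ s N γ B b0 j (sg A j) y η) := by
  obtain ⟨a, ha⟩ : ∃ a, a = sg A j := ⟨_, rfl⟩
  have ha1 : a = 1 ∨ a = -1 := ha ▸ sg_or A j
  have hnb : ((nb a y : ℕ) : ℤ) = y + a := by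
    unfold nb
    rcases ha1 with h | h <;> rw [h] <;> omega
  have hnbN : nb a y ≤ N := by
    rcases ha1 with h | h <;> rw [h] at hnb ⊢ <;> omega
  have e1 := hcl b j
  have e0 := hcl b0 j
  have hη : shj (j : ℤ) (-a) η = shj ((j - b + (j - (j - b)) : ℕ) : ℤ) (-a) η := by rw [jeq]
  have hc := corner46 (μ := μ) (s := s) (N := N) (y := y) (y' := nb a y) (c := j - b) (l := j + b - (j - b)) (k := j - (j - b))
    (c0 := j - b0) (l0 := j + b0 - (j - b0)) (k0 := j - (j - b0)) (a := a) (γ := γ) (B := B) (ξ := ξ)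
    (g0 := gj μ s η γ B b0 j a) (g1 := gj μ s η γ B b j a) η (by omega) (by omega) (by omega) (by omega) (by omega) (by omega)
    ha1 hnb hyN.le hnbN hB hξ0 hξ hξB (fun D hD => ha ▸ fo _ (by omega) D (ha ▸ hD)) (fun D hD => ha ▸ fo _ (by omega) D (ha ▸ hD))
    (fun S => by
      unfold gj
      rw [e0]
      rfl) (fun S => by
      unfold gj
      rw [e1]
      rfl) rfl hη
  rw [e1] at hc
  obtain ⟨c1, c2⟩ := hc
  rw [← ha]
  have hcl0 := clip_nonneg (μ := μ) (s := s) (N := N) γ B b0 j a y η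
  have hmul := mul_nonneg hB hcl0
  have key : ∀ t : ℝ, cm46 μ s N γ B b0 b j t y (η, A) = gm (wt μ s η N (Pn N y) γ B b0 j a t)
      (fun S => |gj μ s η γ B b j a S - gb81 (lw μ s η N (Pn N y) - (a : ℝ) • gj μ s η γ B b0 j a) (gj μ s η γ B b0 j a)
        (pJ (j - b) (j + b)) S|) := fun t => by
    rw [ha]
    rfl
  have hcase : t = (a : ℝ) ∨ t = -(a : ℝ) := by
    rcases ht with h | h <;> rcases ha1 with h' | h' <;> rw [h, h'] <;> norm_num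
  rcases hcase with h | h
  · rw [h, key, wt_self]
    refine c1.trans ?_
    linarith
  · rw [h, key]
    exact c2 (wt μ s η N (Pn N y) γ B b0 j a (-(a : ℝ)))

/-! ### The mean over the environment -/

theorem int_one46 {f : Env → ℝ} (hm : Measurable f) (h0 : ∀ η, 0 ≤ f η) {M : ℝ} (h1 : ∀ η, f η ≤ M) : Integrable f (law μ) :=
  Integrable.of_bound hm.aestronglyMeasurable M (Filter.Eventually.of_forall fun η => by
    rw [Real.norm_eq_abs, abs_of_nonneg (h0 η)]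
    exact h1 η)

theorem int_lin46 {f1 f2 f3 f4 f5 f6 : Env → ℝ} (i1 : Integrable f1 (law μ)) (i2 : Integrable f2 (law μ)) (i3 : Integrable f3 (law μ))
    (i4 : Integrable f4 (law μ)) (i5 : Integrable f5 (law μ)) (i6 : Integrable f6 (law μ)) (a0 B X : ℝ) :
    Integrable (fun η => a0 + B * (2 * f1 η + 4 * f2 η + 2 * X * (f3 η + 2 * (f4 η + f5 η)) + 2 * f5 η + f6 η)) (law μ) ∧
    ∫ η, (a0 + B * (2 * f1 η + 4 * f2 η + 2 * X * (f3 η + 2 * (f4 η + f5 η)) + 2 * f5 η + f6 η)) ∂(law μ) =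
      a0 + B * (2 * ∫ η, f1 η ∂(law μ) + 4 * ∫ η, f2 η ∂(law μ) + 2 * X * (∫ η, f3 η ∂(law μ) +
        2 * (∫ η, f4 η ∂(law μ) + ∫ η, f5 η ∂(law μ))) + 2 * ∫ η, f5 η ∂(law μ) + ∫ η, f6 η ∂(law μ)) := by
  have j1 := i4.add i5
  have j2 := i3.add (j1.const_mul 2)
  have j3 := (i1.const_mul 2).add (i2.const_mul 4)
  have j4 := j3.add (j2.const_mul (2 * X))
  have j5 := j4.add (i5.const_mul 2)
  have j6 := j5.add i6
  have e0 : Integrable (fun _ : Env => a0) (law μ) := integrable_const a0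
  have j7 := e0.add (j6.const_mul B)
  refine ⟨j7, ?_⟩
  have k1 : ∫ η, (f4 η + f5 η) ∂(law μ) = ∫ η, f4 η ∂(law μ) + ∫ η, f5 η ∂(law μ) := integral_add i4 i5
  have k2 : ∫ η, (f3 η + 2 * (f4 η + f5 η)) ∂(law μ) = ∫ η, f3 η ∂(law μ) + 2 * (∫ η, f4 η ∂(law μ) + ∫ η, f5 η ∂(law μ)) := by
    rw [← k1, ← integral_const_mul]
    exact integral_add i3 (j1.const_mul 2)
  have k3 : ∫ η, (2 * f1 η + 4 * f2 η) ∂(law μ) = 2 * ∫ η, f1 η ∂(law μ) + 4 * ∫ η, f2 η ∂(law μ) := by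
    rw [← integral_const_mul, ← integral_const_mul]
    exact integral_add (i1.const_mul 2) (i2.const_mul 4)
  have k4 : ∫ η, (2 * f1 η + 4 * f2 η + 2 * X * (f3 η + 2 * (f4 η + f5 η))) ∂(law μ) = 2 * ∫ η, f1 η ∂(law μ) +
      4 * ∫ η, f2 η ∂(law μ) + 2 * X * (∫ η, f3 η ∂(law μ) + 2 * (∫ η, f4 η ∂(law μ) + ∫ η, f5 η ∂(law μ))) := by
    rw [← k2, ← k3, ← integral_const_mul]
    exact integral_add j3 (j2.const_mul (2 * X))
  have k5 : ∫ η, (2 * f1 η + 4 * f2 η + 2 * X * (f3 η + 2 * (f4 η + f5 η)) + 2 * f5 η) ∂(law μ) = 2 * ∫ η, f1 η ∂(law μ) +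
      4 * ∫ η, f2 η ∂(law μ) + 2 * X * (∫ η, f3 η ∂(law μ) + 2 * (∫ η, f4 η ∂(law μ) + ∫ η, f5 η ∂(law μ))) +
      2 * ∫ η, f5 η ∂(law μ) := by
    rw [← k4, ← integral_const_mul]
    exact integral_add j4 (i5.const_mul 2)
  have k6 : ∫ η, (2 * f1 η + 4 * f2 η + 2 * X * (f3 η + 2 * (f4 η + f5 η)) + 2 * f5 η + f6 η) ∂(law μ) = 2 * ∫ η, f1 η ∂(law μ) +
      4 * ∫ η, f2 η ∂(law μ) + 2 * X * (∫ η, f3 η ∂(law μ) + 2 * (∫ η, f4 η ∂(law μ) + ∫ η, f5 η ∂(law μ))) +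
      2 * ∫ η, f5 η ∂(law μ) + ∫ η, f6 η ∂(law μ) := by
    rw [← k5]
    exact integral_add j5 i6
  have k7 : ∫ η, (a0 + B * (2 * f1 η + 4 * f2 η + 2 * X * (f3 η + 2 * (f4 η + f5 η)) + 2 * f5 η + f6 η)) ∂(law μ) =
      ∫ η, a0 ∂(law μ) + ∫ η, B * (2 * f1 η + 4 * f2 η + 2 * X * (f3 η + 2 * (f4 η + f5 η)) + 2 * f5 η + f6 η) ∂(law μ) :=
    integral_add e0 (j6.const_mul B)
  rw [k7, integral_const_mul, k6, integral_const, probReal_univ, one_smul]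

/-- **The mean over the environment**, from the means of the masses (`E1`: base windows at the level `ξ`, `E0`: fine windows at the level
`B`, `En`: straight windows, `Ec`: the flip). -/
theorem cm_int46 (A : Finset ℕ) {b0 b j y : ℕ} (hbb : b0 ≤ b) (hbj : b ≤ j) (hjN : j + b ≤ N) (hy1 : 1 ≤ y) (hyN : y < N)
    {γ B ξ : ℝ} (hB : 0 ≤ B) (hξ0 : 0 ≤ ξ) (hξ : 4 ≤ Real.exp ξ) (hξB : ξ ≤ B)
    (fo : ∀ l : ℕ, 2 * b0 ≤ l → ∀ D : ℤ, Flat μ s γ l (sg A j) D → 0 ≤ D + sg A j ∧ D + sg A j ≤ l) {t : ℝ} (ht : t = 1 ∨ t = -1)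
    {E1 E0 En Ec : ℝ} (h1 : ∫ η, bw μ s N γ ξ (j - b) (j + b - (j - b)) (j - (j - b)) (sg A j) y η ∂(law μ) ≤ E1)
    (h1' : ∫ η, bw μ s N γ ξ (j - b) (j + b - (j - b)) (j - (j - b)) (-sg A j) (nb (sg A j) y) η ∂(law μ) ≤ E1)
    (h0 : ∫ η, bw μ s N γ B (j - b0) (j + b0 - (j - b0)) (j - (j - b0)) (sg A j) y η ∂(law μ) ≤ E0)
    (h0' : ∫ η, bw μ s N γ B (j - b0) (j + b0 - (j - b0)) (j - (j - b0)) (-sg A j) (nb (sg A j) y) η ∂(law μ) ≤ E0)
    (hn : ∫ η, nok μ s N (j - b0) (j + b0 - (j - b0)) (-sg A j) (nb (sg A j) y) η ∂(law μ) ≤ En)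
    (hc : ∫ η, clip μ s N γ B b0 j (sg A j) y η ∂(law μ) ≤ Ec) :
    ∫ η, cm46 μ s N γ B b0 b j t y (η, A) ∂(law μ) ≤ 2 * Real.exp (-ξ) +
      B * (6 * E1 + 2 * Real.exp (4 * ξ) * (3 * E0 + 2 * En) + 2 * En + Ec) := by
  have ms : Measurable (shj (j : ℤ) (-sg A j)) := (mp_shj (μ := μ) (j : ℤ) (-sg A j)).measurable
  have m1 : Measurable (bw μ s N γ ξ (j - b) (j + b - (j - b)) (j - (j - b)) (sg A j) y) := meas_bw46 _ _ _ _ _ _ _
  have m1' : Measurable (bw μ s N γ ξ (j - b) (j + b - (j - b)) (j - (j - b)) (-sg A j) (nb (sg A j) y)) := meas_bw46 _ _ _ _ _ _ _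
  have m0 : Measurable (bw μ s N γ B (j - b0) (j + b0 - (j - b0)) (j - (j - b0)) (sg A j) y) := meas_bw46 _ _ _ _ _ _ _
  have m0' : Measurable (bw μ s N γ B (j - b0) (j + b0 - (j - b0)) (j - (j - b0)) (-sg A j) (nb (sg A j) y)) := meas_bw46 _ _ _ _ _ _ _
  have mn : Measurable (nok μ s N (j - b0) (j + b0 - (j - b0)) (-sg A j) (nb (sg A j) y)) := meas_nok _ _ _ _
  have mc : Measurable (clip μ s N γ B b0 j (sg A j) y) := meas_clip _ _ _ _ _ _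
  have i1 := int_one46 (μ := μ) m1 (fun η => bw_nonneg46 _ _ _ _ _ _ _ _) fun η => bw_le46 _ _ _ _ _ _ _ η
  have i1' := int_one46 (μ := μ) (m1'.comp ms) (fun η => bw_nonneg46 _ _ _ _ _ _ _ _) fun η => bw_le46 _ _ _ _ _ _ _ _
  have i0 := int_one46 (μ := μ) m0 (fun η => bw_nonneg46 _ _ _ _ _ _ _ _) fun η => bw_le46 _ _ _ _ _ _ _ η
  have i0' := int_one46 (μ := μ) (m0'.comp ms) (fun η => bw_nonneg46 _ _ _ _ _ _ _ _) fun η => bw_le46 _ _ _ _ _ _ _ _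
  have iN := int_one46 (μ := μ) (mn.comp ms) (fun η => nok_nonneg _ _ _ _ _) fun η => nok_le _ _ _ _ _
  have ic := int_one46 (μ := μ) mc (fun η => clip_nonneg _ _ _ _ _ _ η) fun η => clip_le _ _ _ _ _ _ η
  obtain ⟨iL, eL⟩ := int_lin46 i1 i1' i0 i0' iN ic (2 * Real.exp (-ξ)) B (Real.exp (4 * ξ))
  have pw : ∀ η, cm46 μ s N γ B b0 b j t y (η, A) ≤ 2 * Real.exp (-ξ) +
      B * (2 * bw μ s N γ ξ (j - b) (j + b - (j - b)) (j - (j - b)) (sg A j) y η +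
        4 * (bw μ s N γ ξ (j - b) (j + b - (j - b)) (j - (j - b)) (-sg A j) (nb (sg A j) y) ∘ shj (j : ℤ) (-sg A j)) η +
        2 * Real.exp (4 * ξ) * (bw μ s N γ B (j - b0) (j + b0 - (j - b0)) (j - (j - b0)) (sg A j) y η +
          2 * ((bw μ s N γ B (j - b0) (j + b0 - (j - b0)) (j - (j - b0)) (-sg A j) (nb (sg A j) y) ∘ shj (j : ℤ) (-sg A j)) η +
            (nok μ s N (j - b0) (j + b0 - (j - b0)) (-sg A j) (nb (sg A j) y) ∘ shj (j : ℤ) (-sg A j)) η)) +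
        2 * (nok μ s N (j - b0) (j + b0 - (j - b0)) (-sg A j) (nb (sg A j) y) ∘ shj (j : ℤ) (-sg A j)) η +
        clip μ s N γ B b0 j (sg A j) y η) := fun η =>
    cm_le46 η A hbb hbj hjN hy1 hyN hB hξ0 hξ hξB fo ht
  have e1' : ∫ η, (bw μ s N γ ξ (j - b) (j + b - (j - b)) (j - (j - b)) (-sg A j) (nb (sg A j) y) ∘ shj (j : ℤ) (-sg A j)) η ∂(law μ) =
      ∫ η, bw μ s N γ ξ (j - b) (j + b - (j - b)) (j - (j - b)) (-sg A j) (nb (sg A j) y) η ∂(law μ) := int_shj _ _ m1'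
  have e0' : ∫ η, (bw μ s N γ B (j - b0) (j + b0 - (j - b0)) (j - (j - b0)) (-sg A j) (nb (sg A j) y) ∘ shj (j : ℤ) (-sg A j)) η
      ∂(law μ) = ∫ η, bw μ s N γ B (j - b0) (j + b0 - (j - b0)) (j - (j - b0)) (-sg A j) (nb (sg A j) y) η ∂(law μ) := int_shj _ _ m0'
  have en : ∫ η, (nok μ s N (j - b0) (j + b0 - (j - b0)) (-sg A j) (nb (sg A j) y) ∘ shj (j : ℤ) (-sg A j)) η ∂(law μ) =
      ∫ η, nok μ s N (j - b0) (j + b0 - (j - b0)) (-sg A j) (nb (sg A j) y) η ∂(law μ) := int_shj _ _ mn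
  rw [e1', e0', en] at eL
  have h2 := integral_mono_of_nonneg (μ := law μ) (f := fun η => cm46 μ s N γ B b0 b j t y (η, A))
    (Eventually.of_forall fun η => cm_nonneg46 hyN.le _ _ _ _ _ _ _) iL (Eventually.of_forall pw)
  refine h2.trans (eL.le.trans ?_)
  have hX := Real.exp_pos (4 * ξ)
  have h3 : 2 * Real.exp (4 * ξ) * (∫ η, bw μ s N γ B (j - b0) (j + b0 - (j - b0)) (j - (j - b0)) (sg A j) y η ∂(law μ) +
      2 * (∫ η, bw μ s N γ B (j - b0) (j + b0 - (j - b0)) (j - (j - b0)) (-sg A j) (nb (sg A j) y) η ∂(law μ) +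
        ∫ η, nok μ s N (j - b0) (j + b0 - (j - b0)) (-sg A j) (nb (sg A j) y) η ∂(law μ))) ≤
      2 * Real.exp (4 * ξ) * (3 * E0 + 2 * En) := mul_le_mul_of_nonneg_left (by linarith) (by positivity)
  refine add_le_add le_rfl (mul_le_mul_of_nonneg_left ?_ hB)
  linarith

end

end Pool.Agent.W_7d29a1_C0.Cl46
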