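import Pool.Agent.W_7d29a1_C0.Mod92B

/-!
MP_7d29a1_pr, [CURV0] / [C0], E7: THE AVERAGE OVER THE PINNED ENDS. (helper18)

The flip of one kick maps the pinned measure with the end `(N, y)` to the pinned measure with the end `(N, y + a)`, `a = ± 1` (sheared
environment), and moves the positions behind the kick by `- a`. Averaged over the ends `y` of a window of length `m`, the difference
telescopes: `E D_j G^y[f] = c / 2 + O (M / m)`, `c = 0` for a covariant `f`, `c = 1` for the position behind the kick. `pin_mod`: in the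
model `Mod92`.
-/

set_option autoImplicit false

namespace Pool.Agent.W_7d29a1_C0.Pin18

open Finset MeasureTheory Pool.Agent.W_7d29a1_F Pool.Agent.W_7d29a1_X
open Pool.W7d29a1.C0 (gz gm)
open Pool.Agent.W_7d29a1_C0.Mod92

noncomputable section

/-- The neighbour of the end. -/
def nb (a : ℤ) (y : ℕ) : ℕ := ((y : ℤ) + a).toNat

theorem nb_one (y : ℕ) : nb 1 y = y + 1 := by
  unfold nb
  omega

theorem nb_neg (y : ℕ) : nb (-1) y = y - 1 := by
  unfold nb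
  omega

theorem tel (F : ℕ → ℝ) (y₀ m : ℕ) : ∑ y ∈ Ico y₀ (y₀ + m), (F (y + 1) - F y) = F (y₀ + m) - F y₀ := by
  rw [sum_Ico_eq_sum_range, Nat.add_sub_cancel_left]
  have h := sum_range_sub (fun i => F (y₀ + i)) m
  rw [Nat.add_zero] at h
  rw [← h]
  exact sum_congr rfl fun i _ => rfl

/-- Telescoping over the window, both signs. -/
theorem tel_sgn {a : ℤ} (ha : a = 1 ∨ a = -1) {F : ℕ → ℝ} {M : ℝ} (hF : ∀ y, |F y| ≤ M) {y₀ m : ℕ} (hy : 1 ≤ y₀) :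
    |∑ y ∈ Ico y₀ (y₀ + m), (a : ℝ) * (F y - F (nb a y))| ≤ 2 * M := by
  rcases ha with rfl | rfl
  · have h : ∑ y ∈ Ico y₀ (y₀ + m), (((1 : ℤ) : ℝ)) * (F y - F (nb 1 y)) = -(F (y₀ + m) - F y₀) := by
      rw [← tel F y₀ m, ← sum_neg_distrib]
      refine sum_congr rfl fun y _ => ?_
      rw [nb_one]
      push_cast
      ring
    rw [h, abs_neg]
    have h1 := abs_sub (F (y₀ + m)) (F y₀)
    have h2 := hF (y₀ + m)
    have h3 := hF y₀
    linarith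
  · have h : ∑ y ∈ Ico y₀ (y₀ + m), (((-1 : ℤ) : ℝ)) * (F y - F (nb (-1) y)) = -(F (y₀ - 1 + m) - F (y₀ - 1)) := by
      rw [← tel F (y₀ - 1) m, ← sum_neg_distrib]
      refine sum_bij' (fun y _ => y - 1) (fun y _ => y + 1) ?_ ?_ ?_ ?_ ?_
      · intro y h
        rw [mem_Ico] at h ⊢
        omega
      · intro y h
        rw [mem_Ico] at h ⊢
        omega
      · intro y h
        rw [mem_Ico] at h
        show y - 1 + 1 = y
        omega
      · intro y _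
        show y + 1 - 1 = y
        omega
      · intro y h
        rw [mem_Ico] at h
        rw [nb_neg, Nat.sub_add_cancel (show 1 ≤ y by omega)]
        push_cast
        ring
    rw [h, abs_neg]
    have h1 := abs_sub (F (y₀ - 1 + m)) (F (y₀ - 1))
    have h2 := hF (y₀ - 1 + m)
    have h3 := hF (y₀ - 1)
    linarith

/-- One sign set: `F y` the mean, `Fl y` the mean with the kick flipped. -/
theorem pin_sgn {a : ℤ} (ha : a = 1 ∨ a = -1) {F Fl : ℕ → ℝ} {M c e : ℝ} (hF : ∀ y, |F y| ≤ M) {y₀ m : ℕ} (hy : 1 ≤ y₀) (hm : 1 ≤ m)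
    (h : ∀ y ∈ Ico y₀ (y₀ + m), |Fl y - (F (nb a y) - a * c)| ≤ e) :
    |(m : ℝ)⁻¹ * ∑ y ∈ Ico y₀ (y₀ + m), (a : ℝ) / 2 * (F y - Fl y) - c / 2| ≤ M / m + e / 2 := by
  have hm0 : (0 : ℝ) < m := by exact_mod_cast hm
  have ha2 : (a : ℝ) * a = 1 := by rcases ha with rfl | rfl <;> norm_num
  have ha1 : |(a : ℝ)| = 1 := by rcases ha with rfl | rfl <;> norm_num
  have e1 : ∑ y ∈ Ico y₀ (y₀ + m), (a : ℝ) / 2 * (F y - Fl y) = 1 / 2 * ∑ y ∈ Ico y₀ (y₀ + m), (a : ℝ) * (F y - F (nb a y)) +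
      (m : ℝ) * (c / 2) - ∑ y ∈ Ico y₀ (y₀ + m), (a : ℝ) / 2 * (Fl y - (F (nb a y) - a * c)) := by
    have e2 : (m : ℝ) * (c / 2) = ∑ y ∈ Ico y₀ (y₀ + m), c / 2 := by
      rw [sum_const, Nat.card_Ico, Nat.add_sub_cancel_left, nsmul_eq_mul]
    rw [e2, mul_sum, ← sum_add_distrib, ← sum_sub_distrib]
    refine sum_congr rfl fun y _ => ?_
    linear_combination (c / 2) * ha2
  have h1 : |∑ y ∈ Ico y₀ (y₀ + m), (a : ℝ) / 2 * (Fl y - (F (nb a y) - a * c))| ≤ m * (e / 2) := by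
    refine (abs_sum_le_sum_abs _ _).trans ?_
    have h2 : ∀ y ∈ Ico y₀ (y₀ + m), |(a : ℝ) / 2 * (Fl y - (F (nb a y) - a * c))| ≤ e / 2 := by
      intro y hy'
      rw [abs_mul, abs_div, ha1, abs_two]
      have := h y hy'
      linarith
    refine (sum_le_sum h2).trans (le_of_eq ?_)
    rw [sum_const, Nat.card_Ico, Nat.add_sub_cancel_left, nsmul_eq_mul]
  have h3 := tel_sgn ha hF (y₀ := y₀) (m := m) hy
  rw [e1]
  have e3 : (m : ℝ)⁻¹ * (1 / 2 * ∑ y ∈ Ico y₀ (y₀ + m), (a : ℝ) * (F y - F (nb a y)) + (m : ℝ) * (c / 2) -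
      ∑ y ∈ Ico y₀ (y₀ + m), (a : ℝ) / 2 * (Fl y - (F (nb a y) - a * c))) - c / 2 =
      (m : ℝ)⁻¹ * (1 / 2 * ∑ y ∈ Ico y₀ (y₀ + m), (a : ℝ) * (F y - F (nb a y)) -
      ∑ y ∈ Ico y₀ (y₀ + m), (a : ℝ) / 2 * (Fl y - (F (nb a y) - a * c))) := by
    field_simp
    ring
  rw [e3, abs_mul, abs_of_pos (inv_pos.2 hm0)]
  have h4 := abs_sub (1 / 2 * ∑ y ∈ Ico y₀ (y₀ + m), (a : ℝ) * (F y - F (nb a y)))
    (∑ y ∈ Ico y₀ (y₀ + m), (a : ℝ) / 2 * (Fl y - (F (nb a y) - a * c)))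
  rw [abs_mul, abs_of_pos (show (0 : ℝ) < 1 / 2 by norm_num)] at h4
  have h5 : |1 / 2 * ∑ y ∈ Ico y₀ (y₀ + m), (a : ℝ) * (F y - F (nb a y)) -
      ∑ y ∈ Ico y₀ (y₀ + m), (a : ℝ) / 2 * (Fl y - (F (nb a y) - a * c))| ≤ M + m * (e / 2) := by linarith
  refine (mul_le_mul_of_nonneg_left h5 (inv_pos.2 hm0).le).trans (le_of_eq ?_)
  field_simp

/-- The average over the signs. -/
theorem pin_signs {N j : ℕ} {F Fl : Finset ℕ → ℕ → ℝ} {M c e : ℝ} (hF : ∀ A y, |F A y| ≤ M) {y₀ m : ℕ} (hy : 1 ≤ y₀) (hm : 1 ≤ m)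
    (h : ∀ A ∈ (range N).powerset, ∀ y ∈ Ico y₀ (y₀ + m), |Fl A y - (F A (nb (sg A j) y) - sr A j * c)| ≤ e) :
    |(m : ℝ)⁻¹ * ∑ y ∈ Ico y₀ (y₀ + m), (2 ^ N : ℝ)⁻¹ * ∑ A ∈ (range N).powerset, sr A j / 2 * (F A y - Fl A y) - c / 2| ≤
      M / m + e / 2 := by
  have e1 : (m : ℝ)⁻¹ * ∑ y ∈ Ico y₀ (y₀ + m), (2 ^ N : ℝ)⁻¹ * ∑ A ∈ (range N).powerset, sr A j / 2 * (F A y - Fl A y) - c / 2 =
      (2 ^ N : ℝ)⁻¹ * ∑ A ∈ (range N).powerset, ((m : ℝ)⁻¹ * ∑ y ∈ Ico y₀ (y₀ + m), sr A j / 2 * (F A y - Fl A y) - c / 2) := by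
    rw [sum_sub_distrib, sum_const, card_powerset, card_range, nsmul_eq_mul, mul_sub, ← mul_sum, ← mul_sum, sum_comm]
    push_cast
    rw [← mul_assoc (2 ^ N : ℝ)⁻¹, ← mul_assoc (2 ^ N : ℝ)⁻¹, inv_mul_cancel₀ (by positivity), one_mul]
    ring
  rw [e1, abs_mul, abs_of_pos (by positivity : (0 : ℝ) < (2 ^ N : ℝ)⁻¹)]
  have h1 : |∑ A ∈ (range N).powerset, ((m : ℝ)⁻¹ * ∑ y ∈ Ico y₀ (y₀ + m), sr A j / 2 * (F A y - Fl A y) - c / 2)| ≤
      (2 ^ N : ℝ) * (M / m + e / 2) := by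
    refine (abs_sum_le_sum_abs _ _).trans ?_
    refine (sum_le_sum fun A hA => pin_sgn (sg_or A j) (hF A) hy hm (h A hA)).trans (le_of_eq ?_)
    rw [sum_const, card_powerset, card_range, nsmul_eq_mul]
    push_cast
    ring
  refine (mul_le_mul_of_nonneg_left h1 (by positivity)).trans (le_of_eq ?_)
  rw [← mul_assoc, inv_mul_cancel₀ (by positivity), one_mul]

/-- **The average over the pinned ends, in the model.** `G y ω` is the mean of an observable under the pinned measure with the end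
`(N, y)`, `Gl y ω` the mean with the kick of the row `j` flipped. -/
theorem pin_mod {μ : Measure ℝ} [IsProbabilityMeasure μ] {N j : ℕ} {G Gl : ℕ → Env × Finset ℕ → ℝ} {M c e : ℝ}
    (hG : ∀ y ω, |G y ω| ≤ M) (hGl : ∀ y ω, |Gl y ω| ≤ M) (mG : ∀ y, Measurable (G y)) (mGl : ∀ y, Measurable (Gl y))
    {y₀ m : ℕ} (hy : 1 ≤ y₀) (hm : 1 ≤ m)
    (h : ∀ A ∈ (range N).powerset, ∀ y ∈ Ico y₀ (y₀ + m),
      |∫ η, Gl y (η, A) ∂(law μ) - (∫ η, G (nb (sg A j) y) (η, A) ∂(law μ) - sr A j * c)| ≤ e) :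
    |(m : ℝ)⁻¹ * ∑ y ∈ Ico y₀ (y₀ + m), ∫ ω, sr ω.2 j / 2 * (G y ω - Gl y ω) ∂(Pm μ N) - c / 2| ≤ M / m + e / 2 := by
  have hi : ∀ (H : ℕ → Env × Finset ℕ → ℝ), (∀ y ω, |H y ω| ≤ M) → (∀ y, Measurable (H y)) → ∀ (y : ℕ) (A : Finset ℕ),
      Integrable (fun η => H y (η, A)) (law μ) := by
    intro H hH mH y A
    exact Integrable.of_bound ((mH y).comp (meas_pair A)).aestronglyMeasurable M (Filter.Eventually.of_forall fun η => by
      rw [Real.norm_eq_abs]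
      exact hH y _)
  have e1 : ∀ y, ∫ ω, sr ω.2 j / 2 * (G y ω - Gl y ω) ∂(Pm μ N) =
      (2 ^ N : ℝ)⁻¹ * ∑ A ∈ (range N).powerset, sr A j / 2 * (∫ η, G y (η, A) ∂(law μ) - ∫ η, Gl y (η, A) ∂(law μ)) := by
    intro y
    rw [int_Pm]
    · congr 1
      refine sum_congr rfl fun A _ => ?_
      show ∫ η, sr A j / 2 * (G y (η, A) - Gl y (η, A)) ∂(law μ) = _
      rw [integral_const_mul, integral_sub (hi G hG mG y A) (hi Gl hGl mGl y A)]
    · intro A _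
      show Integrable (fun η => sr A j / 2 * (G y (η, A) - Gl y (η, A))) (law μ)
      exact ((hi G hG mG y A).sub (hi Gl hGl mGl y A)).const_mul _
    · intro A
      show Measurable fun η : Env => sr A j / 2 * (G y (η, A) - Gl y (η, A))
      exact Measurable.const_mul (((mG y).comp (meas_pair A)).sub ((mGl y).comp (meas_pair A))) _
  simp only [e1]
  refine pin_signs (F := fun A y => ∫ η, G y (η, A) ∂(law μ)) (Fl := fun A y => ∫ η, Gl y (η, A) ∂(law μ)) (fun A y => ?_) hy hm h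
  have h1 := norm_integral_le_of_norm_le_const (μ := law μ) (f := fun η => G y (η, A)) (C := M)
    (Filter.Eventually.of_forall fun η => by
      rw [Real.norm_eq_abs]
      exact hG y _)
  rw [Real.norm_eq_abs, probReal_univ, mul_one] at h1
  exact h1

end

end Pool.Agent.W_7d29a1_C0.Pin18
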