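import Pool.Agent.W_7d29a1_C0.FlipZ61
import Pool.Agent.W_7d29a1_C0.Pin18

/-!
CURV0 (MP_7d29a1_pr), E7, LAW INVARIANCE, integrated. `ob`: the mean of an expression under the actual pinned measure, at the environment
and the signs `ω`; `obf`: the same under the clipped flip of the kick of the row `j`. For equivariant functions (`Cov`) and one pinned
end `y`: `one_end`: `obf y ω` is `ob (y + a) (T_j ω)` up to the error of the clipping `clip` and the mass `nok` of the straight windows.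
(helper61)
-/

set_option autoImplicit false
set_option linter.unusedSectionVars false

namespace Pool.Agent.W_7d29a1_C0.Flip61

open Pool.Agent.W_7d29a1_F hiding W_pos W_nonneg W_add
open Finset MeasureTheory Pool.Agent.W_7d29a1_X Pool.Agent.W_7d29a1_HZ
open Pool.Agent.W_7d29a1_Z74
open Pool.Agent.W_7d29a1_HZ.Z74
open Pool.Agent.W_7d29a1_C0.Mod92
open Pool.Agent.W_7d29a1_C0.Blk18
open Pool.Agent.W_7d29a1_C0.Pin18
open Pool.W7d29a1.C0 (gz gm gz_pos gz_ne gm_const gm_mono gm_nonneg)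
open Pool.W7d29a1.C0.VT31 (Mp Crs cE cV cC gc gv)

noncomputable section

/-! ### Expressions: bound and measurability -/

theorem LipF.meas (φ : LipF) : Measurable φ.f := by
  have h : LipschitzWith ⟨φ.Λ, φ.hΛ0⟩ φ.f := LipschitzWith.of_dist_le_mul fun x y => by
    rw [Real.dist_eq, Real.dist_eq]
    exact φ.hΛ x y
  exact h.continuous.measurable

namespace Ex

variable {ι β : Type*} {Y : Type*} [DecidableEq Y] {X : Type*} [Fintype X] [Nonempty X]

theorem gm_bdd (w : X → ℝ) {f : X → ℝ} {M : ℝ} (hf : ∀ x, |f x| ≤ M) : |gm w f| ≤ M := by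
  rw [abs_le]
  constructor
  · rw [← gm_const w (-M)]
    exact gm_mono w fun x => (abs_le.1 (hf x)).1
  · rw [← gm_const w M]
    exact gm_mono w fun x => (abs_le.1 (hf x)).2

theorem evX_bdd (w : X → ℝ) {f : ι → X → ℝ} (Q : β → X → Y) {b : ι → ℝ} (hb : ∀ i, 0 ≤ b i) (hf : ∀ i x, |f i x| ≤ b i) :
    ∀ (e : Ex ι β) (x : X), |evX w f Q e x| ≤ bd b e
  | fn i, x => hf i x
  | cst _, _ => le_rfl
  | add e e', x => (abs_add_le _ _).trans (add_le_add (evX_bdd w Q hb hf e x) (evX_bdd w Q hb hf e' x))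
  | mul e e', x => by
    show |evX w f Q e x * evX w f Q e' x| ≤ bd b e * bd b e'
    rw [abs_mul]
    exact mul_le_mul (evX_bdd w Q hb hf e x) (evX_bdd w Q hb hf e' x) (abs_nonneg _) (bd_nonneg hb e)
  | lf φ _, _ => φ.hM _
  | ce k e, x => abs_cE_le w (Q k) (fun x' => evX_bdd w Q hb hf e x') x
  | me e, _ => gm_bdd w fun x' => evX_bdd w Q hb hf e x'

theorem meas_evX {Ω : Type*} [MeasurableSpace Ω] {w : Ω → X → ℝ} (hw : ∀ x, Measurable fun ω => w ω x) {f : Ω → ι → X → ℝ}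
    (hf : ∀ i x, Measurable fun ω => f ω i x) (Q : β → X → Y) : ∀ (e : Ex ι β) (x : X), Measurable fun ω => evX (w ω) (f ω) Q e x
  | fn i, x => hf i x
  | cst _, _ => measurable_const
  | add e e', x => (meas_evX hw hf Q e x).add (meas_evX hw hf Q e' x)
  | mul e e', x => (meas_evX hw hf Q e x).mul (meas_evX hw hf Q e' x)
  | lf φ e, x => φ.meas.comp (meas_evX hw hf Q e x)
  | ce k e, x => meas_cE hw (meas_evX hw hf Q e) (Q k) x
  | me e, _ => meas_gm hw (meas_evX hw hf Q e)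

end Ex

/-! ### The model -/

variable {μ : Measure ℝ} {s : ℝ} {N : ℕ} {ι β : Type*}

/-- The flip of the row `j`: shear of the environment behind the row, and the sign. -/
def Tj (j : ℕ) (ω : Env × Finset ℕ) : Env × Finset ℕ := (shj (j : ℤ) (-sg ω.2 j) ω.1, flp j ω.2)

theorem sg_Tj (j : ℕ) (ω : Env × Finset ℕ) : sg (Tj j ω).2 j = -sg ω.2 j := sg_flp j ω.2

/-- **Covariant functions**: functions of the outside data of the window of the row `j`, with the same values at `ω`, end `y`, and at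
`Tj ω`, end `y + a_j`. -/
structure Cov (N b j : ℕ) (h : (y : ℕ) → Env × Finset ℕ → ι → Px (Pn N y) → ℝ) (bb : ι → ℝ) : Prop where
  pos : ∀ i, 0 ≤ bb i
  bdd : ∀ y ω i S, |h y ω i S| ≤ bb i
  mes : ∀ y i S, Measurable fun ω => h y ω i S
  mp : ∀ y ω i, Mp (pJ (j - b) (j + b)) (h y ω i)
  eqv : ∀ y, 1 ≤ y → y < N → ∀ ω i, Eqv (j - b) (j + b - (j - b)) (-sg ω.2 j) (h y ω i) (h (nb (sg ω.2 j) y) (Tj j ω) i)

/-- The mean of the expression `e` (which may depend on the sign) under the actual pinned measure. -/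
def ob (μ : Measure ℝ) (s : ℝ) (N j : ℕ) (C D : β → ℕ) (h : (y : ℕ) → Env × Finset ℕ → ι → Px (Pn N y) → ℝ) (e : ℤ → Ex ι β)
    (y : ℕ) (ω : Env × Finset ℕ) : ℝ :=
  gm (lw μ s ω.1 N (Pn N y)) (Ex.evX (lw μ s ω.1 N (Pn N y)) (h y ω) (fun i => pJ (C i) (D i)) (e (sg ω.2 j)))

/-- The mean of the expression under the clipped flip of the kick of the row `j`. -/
def obf (μ : Measure ℝ) (s : ℝ) (N : ℕ) (δ B : ℝ) (b j : ℕ) (C D : β → ℕ) (h : (y : ℕ) → Env × Finset ℕ → ι → Px (Pn N y) → ℝ)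
    (e : ℤ → Ex ι β) (y : ℕ) (ω : Env × Finset ℕ) : ℝ :=
  gm (wt μ s ω.1 N (Pn N y) δ B b j (sg ω.2 j) (-(sg ω.2 j : ℝ)))
    (Ex.evX (wt μ s ω.1 N (Pn N y) δ B b j (sg ω.2 j) (-(sg ω.2 j : ℝ))) (h y ω) (fun i => pJ (C i) (D i)) (e (-sg ω.2 j)))

/-- The error of the clipping of the flip (total variation). -/
def clip (μ : Measure ℝ) (s : ℝ) (N : ℕ) (δ B : ℝ) (b j : ℕ) (a : ℤ) (y : ℕ) (η : Env) : ℝ :=
  ∑ S : Px (Pn N y), |Real.exp (wt μ s η N (Pn N y) δ B b j a (-(a : ℝ)) S) / gz (wt μ s η N (Pn N y) δ B b j a (-(a : ℝ))) -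
    pth μ s η N S.1 * Rp μ s η (j - b) (j + b - (j - b)) (j - (j - b)) (-a) S.1 /
      ∑ S ∈ Pn N y, pth μ s η N S * Rp μ s η (j - b) (j + b - (j - b)) (j - (j - b)) (-a) S|

/-- The mass of the windows whose flip leaves the cone. -/
def nok (μ : Measure ℝ) (s : ℝ) (N c l : ℕ) (v : ℤ) (y : ℕ) (η : Env) : ℝ :=
  gm (lw μ s η N (Pn N y)) fun S => if Ok c l v S.1 then 0 else 1

theorem sg_abs (A : Finset ℕ) (j : ℕ) : |(-sg A j : ℤ)| ≤ 1 := by
  rcases sg_or A j with h | h <;> rw [h] <;> norm_num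

/-- **ONE PINNED END.** -/
theorem one_end {b j : ℕ} (hb : 0 < b) (hjN : j + b ≤ N) {h : (y : ℕ) → Env × Finset ℕ → ι → Px (Pn N y) → ℝ} {bb : ι → ℝ}
    (H : Cov N b j h bb) (C D : β → ℕ) (hC : ∀ i, C i ≤ j - b) (hD : ∀ i, j + b ≤ D i) (e : ℤ → Ex ι β) (δ B : ℝ)
    {y : ℕ} (hy : 1 ≤ y) (hyN : y < N) (ω : Env × Finset ℕ) {L : ℝ}
    (hL : ∀ a : ℤ, a = 1 ∨ a = -1 → Ex.li bb (e a) + 2 * Ex.bd bb (e a) ≤ L) :
    |obf μ s N δ B b j C D h e y ω - ob μ s N j C D h e (nb (sg ω.2 j) y) (Tj j ω)| ≤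
      L * (clip μ s N δ B b j (sg ω.2 j) y ω.1 + 2 * nok μ s N (j - b) (j + b - (j - b)) (-sg ω.2 j) (nb (sg ω.2 j) y) (Tj j ω).1) := by
  classical
  have n1 : Nonempty (Px (Pn N y)) := ne_Pn hyN.le
  have hnb : ((nb (sg ω.2 j) y : ℕ) : ℤ) = y + sg ω.2 j := by
    unfold nb
    rcases sg_or ω.2 j with h1 | h1 <;> rw [h1] <;> omega
  have hnbN : nb (sg ω.2 j) y ≤ N := by
    rcases sg_or ω.2 j with h1 | h1 <;> rw [h1] at hnb ⊢ <;> omega
  have n2 : Nonempty (Px (Pn N (nb (sg ω.2 j) y))) := ne_Pn hnbN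
  set a := sg ω.2 j with ha
  set w₁ := wt μ s ω.1 N (Pn N y) δ B b j a (-(a : ℝ)) with hw₁
  have hj : ((j - b + (j - (j - b)) : ℕ) : ℤ) = (j : ℤ) := by
    exact_mod_cast (show j - b + (j - (j - b)) = j by omega)
  have hcl : j - b + (j + b - (j - b)) = j + b := by omega
  have hη : (Tj j ω).1 = shj ((j - b + (j - (j - b)) : ℕ) : ℤ) (-a) ω.1 := by
    rw [hj]
    rfl
  have hLe := hL (-a) (by rcases sg_or ω.2 j with h1 | h1 <;> rw [ha, h1] <;> simp)
  have hbd := Ex.bd_nonneg H.pos (e (-a))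
  have hli := Ex.li_nonneg H.pos (e (-a))
  have hnok : 0 ≤ nok μ s N (j - b) (j + b - (j - b)) (-a) (nb a y) (Tj j ω).1 := by
    unfold nok
    refine gm_nonneg _ fun S => ?_
    split_ifs
    · exact le_rfl
    · exact zero_le_one
  have hclip : 0 ≤ clip μ s N δ B b j a y ω.1 := sum_nonneg fun _ _ => abs_nonneg _
  have hL0 : 0 ≤ L := by linarith
  have hob : ob μ s N j C D h e (nb a y) (Tj j ω) = gm (lw μ s (shj ((j - b + (j - (j - b)) : ℕ) : ℤ) (-a) ω.1) N (Pn N (nb a y)))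
      (Ex.evX (lw μ s (shj ((j - b + (j - (j - b)) : ℕ) : ℤ) (-a) ω.1) N (Pn N (nb a y))) (h (nb a y) (Tj j ω))
        (fun i => pJ (C i) (D i)) (e (-a))) := by
    unfold ob
    rw [sg_Tj, ← ha, hη]
  by_cases hp : 0 < ∑ S ∈ Pn N y, pth μ s ω.1 N S * Rp μ s ω.1 (j - b) (j + b - (j - b)) (j - (j - b)) (-a) S
  · have hfc := flip_close (μ := μ) (s := s) (c := j - b) (l := j + b - (j - b)) (k := j - (j - b)) (v := -a) (Q₁ := Pn N y)
      (Q₂ := Pn N (nb a y)) ω.1 (by omega) (by omega) (sg_abs ω.2 j) (fun x => x = (y : ℤ)) (fam_eq N y).symm (by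
        rw [← fam_eq N (nb a y)]
        unfold fam
        refine filter_congr fun S _ => ?_
        rw [hnb]
        constructor <;> intro h1 <;> omega) w₁ (h₁ := h y ω) (h₂ := h (nb a y) (Tj j ω)) (H.eqv y hy hyN ω)
      (fun i => by rw [hcl]; exact H.mp y ω i) (fun i => by rw [hcl]; exact H.mp _ _ i) H.pos (H.bdd y ω) (H.bdd _ _) C D hC
      (fun i => by rw [hcl]; exact hD i) (e (-a)) hp
    rw [hob]
    unfold obf
    rw [← ha, ← hw₁]
    refine hfc.trans ?_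
    have e1 : (∑ S : Px (Pn N y), |Real.exp (w₁ S) / gz w₁ - pth μ s ω.1 N S.1 * Rp μ s ω.1 (j - b) (j + b - (j - b)) (j - (j - b)) (-a) S.1 /
          ∑ S ∈ Pn N y, pth μ s ω.1 N S * Rp μ s ω.1 (j - b) (j + b - (j - b)) (j - (j - b)) (-a) S|) +
        2 * gm (lw μ s (shj ((j - b + (j - (j - b)) : ℕ) : ℤ) (-a) ω.1) N (Pn N (nb a y)))
          (fun S => if Ok (j - b) (j + b - (j - b)) (-a) S.1 then 0 else 1) =
        clip μ s N δ B b j a y ω.1 + 2 * nok μ s N (j - b) (j + b - (j - b)) (-a) (nb a y) (Tj j ω).1 := by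
      unfold clip nok
      rw [hη]
    rw [e1]
    refine mul_le_mul_of_nonneg_right ?_ (by positivity)
    linarith
  · -- the degenerate case
    have h0 : ∑ S ∈ Pn N y, pth μ s ω.1 N S * Rp μ s ω.1 (j - b) (j + b - (j - b)) (j - (j - b)) (-a) S = 0 :=
      le_antisymm (not_lt.1 hp) (sum_nonneg fun S _ => mul_nonneg (pth_pos _ _ _).le (Rp_nonneg _ _ _ _ _ _))
    have hc1 : clip μ s N δ B b j a y ω.1 = 1 := by
      unfold clip
      rw [h0, ← hw₁]
      have e2 : ∀ S : Px (Pn N y), |Real.exp (w₁ S) / gz w₁ - pth μ s ω.1 N S.1 * Rp μ s ω.1 (j - b) (j + b - (j - b)) (j - (j - b)) (-a) S.1 / 0| =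
          Real.exp (w₁ S) / gz w₁ := fun S => by
        rw [div_zero, sub_zero]
        exact abs_of_nonneg (div_nonneg (Real.exp_pos _).le (gz_pos w₁).le)
      rw [sum_congr rfl fun S _ => e2 S, ← sum_div]
      exact div_self (gz_ne w₁)
    have h1 : |obf μ s N δ B b j C D h e y ω| ≤ Ex.bd bb (e (-a)) := by
      unfold obf
      exact Ex.gm_bdd _ fun S => Ex.evX_bdd _ _ H.pos (H.bdd y ω) _ S
    have h2 : |ob μ s N j C D h e (nb a y) (Tj j ω)| ≤ Ex.bd bb (e (-a)) := by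
      rw [hob]
      exact Ex.gm_bdd _ fun S => Ex.evX_bdd _ _ H.pos (H.bdd _ _) _ S
    have h3 := abs_sub (obf μ s N δ B b j C D h e y ω) (ob μ s N j C D h e (nb a y) (Tj j ω))
    rw [hc1]
    calc |obf μ s N δ B b j C D h e y ω - ob μ s N j C D h e (nb a y) (Tj j ω)|
        ≤ 2 * Ex.bd bb (e (-a)) := by linarith
      _ ≤ L * 1 := by linarith
      _ ≤ _ := mul_le_mul_of_nonneg_left (by linarith) hL0

/-! ### The mean over the environment -/

section Int

variable [IsProbabilityMeasure μ]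

theorem meas_Rp (c l k : ℕ) (v : ℤ) (S : Finset ℕ) : Measurable fun η : Env => Rp μ s η c l k v S := by
  unfold Rp Rk
  exact (meas_ZJ _ _ _ _ _).div (measurable_W _ _ _)

theorem meas_clip (δ B : ℝ) (b j : ℕ) (a : ℤ) (y : ℕ) : Measurable (clip μ s N δ B b j a y) := by
  have hw : ∀ S : Px (Pn N y), Measurable fun η : Env => wt μ s η N (Pn N y) δ B b j a (-(a : ℝ)) S := fun S =>
    (meas_lw S).add ((meas_gj δ B b j a S).const_mul _)
  have hr : ∀ S : Finset ℕ, Measurable fun η : Env => pth μ s η N S * Rp μ s η (j - b) (j + b - (j - b)) (j - (j - b)) (-a) S := fun S =>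
    (Mod92.meas_pth N S).mul (meas_Rp _ _ _ _ _)
  unfold clip
  refine Finset.measurable_fun_sum _ fun S _ => ?_
  have h := (((hw S).exp.div (meas_gz hw)).sub ((hr S.1).div (Finset.measurable_fun_sum (Pn N y) fun S _ => hr S)))
  exact h.abs

theorem clip_nonneg (δ B : ℝ) (b j : ℕ) (a : ℤ) (y : ℕ) (η : Env) : 0 ≤ clip μ s N δ B b j a y η :=
  sum_nonneg fun _ _ => abs_nonneg _

theorem clip_le (δ B : ℝ) (b j : ℕ) (a : ℤ) (y : ℕ) (η : Env) : clip μ s N δ B b j a y η ≤ 2 := by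
  unfold clip
  set w := wt μ s η N (Pn N y) δ B b j a (-(a : ℝ)) with hw
  set r : Finset ℕ → ℝ := fun S => pth μ s η N S * Rp μ s η (j - b) (j + b - (j - b)) (j - (j - b)) (-a) S with hr
  have hr0 : ∀ S, 0 ≤ r S := fun S => mul_nonneg (pth_pos _ _ _).le (Rp_nonneg _ _ _ _ _ _)
  have h1 : ∀ S : Px (Pn N y), |Real.exp (w S) / gz w - r S.1 / ∑ S ∈ Pn N y, r S| ≤
      Real.exp (w S) / gz w + r S.1 / ∑ S ∈ Pn N y, r S := by
    intro S
    have t1 : 0 ≤ Real.exp (w S) / gz w := div_nonneg (Real.exp_pos _).le (sum_nonneg fun _ _ => (Real.exp_pos _).le)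
    have t2 : 0 ≤ r S.1 / ∑ S ∈ Pn N y, r S := div_nonneg (hr0 _) (sum_nonneg fun _ _ => hr0 _)
    rw [abs_le]
    constructor <;> linarith
  refine (sum_le_sum fun S _ => h1 S).trans ?_
  rw [sum_add_distrib, ← sum_div, ← sum_div, sum_Px r]
  have h2 : (∑ S, Real.exp (w S)) / gz w ≤ 1 := div_self_le_one _
  have h3 : (∑ S ∈ Pn N y, r S) / ∑ S ∈ Pn N y, r S ≤ 1 := div_self_le_one _
  linarith

theorem meas_nok (c l : ℕ) (v : ℤ) (y : ℕ) : Measurable (nok μ s N c l v y) :=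
  meas_gm (fun S => meas_lw S) fun _ => measurable_const

theorem nok_nonneg (c l : ℕ) (v : ℤ) (y : ℕ) (η : Env) : 0 ≤ nok μ s N c l v y η := by
  unfold nok gm
  refine div_nonneg (sum_nonneg fun S _ => mul_nonneg (Real.exp_pos _).le ?_) (sum_nonneg fun _ _ => (Real.exp_pos _).le)
  beta_reduce
  split_ifs
  · exact le_rfl
  · exact zero_le_one

theorem nok_le (c l : ℕ) (v : ℤ) (y : ℕ) (η : Env) : nok μ s N c l v y η ≤ 1 := by
  unfold nok gm
  refine div_le_one_of_le₀ (sum_le_sum fun S _ => ?_) (sum_nonneg fun _ _ => (Real.exp_pos _).le)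
  beta_reduce
  split_ifs
  · rw [mul_zero]
    exact (Real.exp_pos _).le
  · rw [mul_one]

theorem int_shj (t v : ℤ) {f : Env → ℝ} (hf : Measurable f) : ∫ η, f (shj t v η) ∂(law μ) = ∫ η, f η ∂(law μ) := by
  have h := mp_shj (μ := μ) t v
  conv_rhs => rw [← h.map_eq]
  exact (integral_map h.measurable.aemeasurable hf.aestronglyMeasurable).symm

theorem gm_zero_empty {y : ℕ} (hy : ¬ y ≤ N) (w f : Px (Pn N y) → ℝ) : gm w f = 0 := by
  have h : IsEmpty (Px (Pn N y)) := ⟨fun S => by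
    have h1 := mem_powersetCard.1 S.2
    have h2 := card_le_card h1.1
    rw [h1.2, card_range] at h2
    exact hy h2⟩
  unfold gm
  rw [Finset.univ_eq_empty, sum_empty, zero_div]

theorem meas_ob (j : ℕ) (C D : β → ℕ) {h : (y : ℕ) → Env × Finset ℕ → ι → Px (Pn N y) → ℝ}
    (hm : ∀ y i S, Measurable fun ω => h y ω i S) (e : ℤ → Ex ι β) (y : ℕ) :
    Measurable (ob μ s N j C D h e y) := by
  by_cases hy : y ≤ N
  swap
  · unfold ob
    simp only [gm_zero_empty hy]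
    exact measurable_const
  have n1 : Nonempty (Px (Pn N y)) := ne_Pn hy
  refine meas_om fun A => ?_
  have hA : Measurable fun η : Env => (η, A) := meas_pair A
  unfold ob
  exact meas_gm (w := fun η : Env => lw μ s η N (Pn N y)) (fun S => meas_lw S)
    (Ex.meas_evX (w := fun η : Env => lw μ s η N (Pn N y)) (f := fun η : Env => h y (η, A)) (fun S => meas_lw S)
      (fun i S => (hm y i S).comp hA) (fun i => pJ (C i) (D i)) (e (sg A j)))

theorem meas_obf (δ B : ℝ) (b j : ℕ) (C D : β → ℕ) {h : (y : ℕ) → Env × Finset ℕ → ι → Px (Pn N y) → ℝ}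
    (hm : ∀ y i S, Measurable fun ω => h y ω i S) (e : ℤ → Ex ι β) (y : ℕ) :
    Measurable (obf μ s N δ B b j C D h e y) := by
  by_cases hy : y ≤ N
  swap
  · unfold obf
    simp only [gm_zero_empty hy]
    exact measurable_const
  have n1 : Nonempty (Px (Pn N y)) := ne_Pn hy
  refine meas_om fun A => ?_
  have hA : Measurable fun η : Env => (η, A) := meas_pair A
  have hw : ∀ S : Px (Pn N y), Measurable fun η : Env => wt μ s η N (Pn N y) δ B b j (sg A j) (-(sg A j : ℝ)) S := fun S =>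
    (meas_lw S).add ((meas_gj δ B b j (sg A j) S).const_mul _)
  unfold obf
  exact meas_gm (w := fun η : Env => wt μ s η N (Pn N y) δ B b j (sg A j) (-(sg A j : ℝ))) hw
    (Ex.meas_evX (w := fun η : Env => wt μ s η N (Pn N y) δ B b j (sg A j) (-(sg A j : ℝ))) (f := fun η : Env => h y (η, A)) hw
      (fun i S => (hm y i S).comp hA) (fun i => pJ (C i) (D i)) (e (-sg A j)))

theorem ob_bdd (j : ℕ) (C D : β → ℕ) {h : (y : ℕ) → Env × Finset ℕ → ι → Px (Pn N y) → ℝ} {bb : ι → ℝ} (hp : ∀ i, 0 ≤ bb i)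
    (hb : ∀ y ω i S, |h y ω i S| ≤ bb i) (e : ℤ → Ex ι β) (y : ℕ) (ω : Env × Finset ℕ) :
    |ob μ s N j C D h e y ω| ≤ Ex.bd bb (e (sg ω.2 j)) := by
  by_cases hy : y ≤ N
  swap
  · unfold ob
    rw [gm_zero_empty hy, abs_zero]
    exact Ex.bd_nonneg hp _
  have n1 : Nonempty (Px (Pn N y)) := ne_Pn hy
  unfold ob
  exact Ex.gm_bdd _ fun S => Ex.evX_bdd _ _ hp (hb y ω) _ S

theorem obf_bdd (δ B : ℝ) (b j : ℕ) (C D : β → ℕ) {h : (y : ℕ) → Env × Finset ℕ → ι → Px (Pn N y) → ℝ} {bb : ι → ℝ}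
    (hp : ∀ i, 0 ≤ bb i) (hb : ∀ y ω i S, |h y ω i S| ≤ bb i) (e : ℤ → Ex ι β) (y : ℕ) (ω : Env × Finset ℕ) :
    |obf μ s N δ B b j C D h e y ω| ≤ Ex.bd bb (e (-sg ω.2 j)) := by
  by_cases hy : y ≤ N
  swap
  · unfold obf
    rw [gm_zero_empty hy, abs_zero]
    exact Ex.bd_nonneg hp _
  have n1 : Nonempty (Px (Pn N y)) := ne_Pn hy
  unfold obf
  exact Ex.gm_bdd _ fun S => Ex.evX_bdd _ _ hp (hb y ω) _ S

/-- **ONE PINNED END**, mean over the environment. -/
theorem one_end_int {b j : ℕ} (hb : 0 < b) (hjN : j + b ≤ N) {h : (y : ℕ) → Env × Finset ℕ → ι → Px (Pn N y) → ℝ}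
    {bb : ι → ℝ} (H : Cov N b j h bb) (C D : β → ℕ) (hC : ∀ i, C i ≤ j - b) (hD : ∀ i, j + b ≤ D i) (e : ℤ → Ex ι β)
    (δ B : ℝ) {y : ℕ} (hy : 1 ≤ y) (hyN : y < N) (A : Finset ℕ) {L : ℝ}
    (hL : ∀ a : ℤ, a = 1 ∨ a = -1 → Ex.li bb (e a) + 2 * Ex.bd bb (e a) ≤ L) :
    |∫ η, obf μ s N δ B b j C D h e y (η, A) ∂(law μ) -
        ∫ η, ob μ s N j C D h e (nb (sg A j) y) (η, flp j A) ∂(law μ)| ≤
      L * (∫ η, clip μ s N δ B b j (sg A j) y η ∂(law μ) +
        2 * ∫ η, nok μ s N (j - b) (j + b - (j - b)) (-sg A j) (nb (sg A j) y) η ∂(law μ)) := by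
  have m1 : Measurable fun η : Env => obf μ s N δ B b j C D h e y (η, A) := (meas_obf δ B b j C D H.mes e y).comp (meas_pair A)
  have m2 : Measurable fun η : Env => ob μ s N j C D h e (nb (sg A j) y) (η, flp j A) :=
    (meas_ob j C D H.mes e _).comp (meas_pair _)
  have ms : Measurable (shj (j : ℤ) (-sg A j)) := (mp_shj (μ := μ) (j : ℤ) (-sg A j)).measurable
  have m2' : Measurable fun η : Env => ob μ s N j C D h e (nb (sg A j) y) (shj (j : ℤ) (-sg A j) η, flp j A) := m2.comp ms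
  have m3 : Measurable fun η : Env => nok μ s N (j - b) (j + b - (j - b)) (-sg A j) (nb (sg A j) y) η := meas_nok _ _ _ _
  have m3' : Measurable fun η : Env => nok μ s N (j - b) (j + b - (j - b)) (-sg A j) (nb (sg A j) y) (shj (j : ℤ) (-sg A j) η) := m3.comp ms
  have m4 : Measurable fun η : Env => clip μ s N δ B b j (sg A j) y η := meas_clip _ _ _ _ _ _
  have i1 : Integrable (fun η : Env => obf μ s N δ B b j C D h e y (η, A)) (law μ) :=
    Integrable.of_bound m1.aestronglyMeasurable (Ex.bd bb (e (-sg A j))) (Filter.Eventually.of_forall fun η => by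
      rw [Real.norm_eq_abs]
      exact obf_bdd δ B b j C D H.pos H.bdd e y (η, A))
  have i2 : Integrable (fun η : Env => ob μ s N j C D h e (nb (sg A j) y) (shj (j : ℤ) (-sg A j) η, flp j A)) (law μ) :=
    Integrable.of_bound m2'.aestronglyMeasurable (Ex.bd bb (e (sg (flp j A) j))) (Filter.Eventually.of_forall fun η => by
      rw [Real.norm_eq_abs]
      exact ob_bdd j C D H.pos H.bdd e _ (shj (j : ℤ) (-sg A j) η, flp j A))
  have i3 : Integrable (fun η : Env => nok μ s N (j - b) (j + b - (j - b)) (-sg A j) (nb (sg A j) y) (shj (j : ℤ) (-sg A j) η)) (law μ) :=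
    Integrable.of_bound m3'.aestronglyMeasurable 1 (Filter.Eventually.of_forall fun η => by
      rw [Real.norm_eq_abs, abs_of_nonneg (nok_nonneg _ _ _ _ _)]
      exact nok_le _ _ _ _ _)
  have i4 : Integrable (fun η : Env => clip μ s N δ B b j (sg A j) y η) (law μ) :=
    Integrable.of_bound m4.aestronglyMeasurable 2 (Filter.Eventually.of_forall fun η => by
      rw [Real.norm_eq_abs, abs_of_nonneg (clip_nonneg _ _ _ _ _ _ _)]
      exact clip_le _ _ _ _ _ _ _)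
  rw [← int_shj (μ := μ) (j : ℤ) (-sg A j) m2, ← int_shj (μ := μ) (j : ℤ) (-sg A j) m3, ← integral_sub i1 i2,
    ← integral_const_mul, ← integral_add i4 (i3.const_mul 2), ← integral_const_mul]
  refine (abs_integral_le_integral_abs).trans ?_
  refine integral_mono (i1.sub i2).abs ((i4.add (i3.const_mul 2)).const_mul L) fun η => ?_
  exact one_end hb hjN H C D hC hD e δ B hy hyN (η, A) hL

end Int

end

end Pool.Agent.W_7d29a1_C0.Flip61
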