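import Pool.Agent.W_7d29a1_C0.TvE48
import Pool.Agent.W_7d29a1_C0.FlipA61

/-!
MP_7d29a1_pr, [CURV0], leaf E7b, the law estimate in the notation of `Mod92` / `FlipA61` (centred windows): `clip48` (one kick),
`tv48_two` (on top of a partial clipped kick of another row whose window is disjoint). (helper48)
-/

set_option autoImplicit false

namespace Pool.Agent.W_7d29a1_C0.Tv48

open Pool.Agent.W_7d29a1_F hiding W_pos W_nonneg W_add
open Finset MeasureTheory Filter Topology Pool.Agent.W_7d29a1_X Pool.Agent.W_7d29a1_HZ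
open Pool.Agent.W_7d29a1_HS (In wd)
open Pool.Agent.W_7d29a1_H (sl)
open Pool.Agent.W_7d29a1_Z74
open Pool.Agent.W_7d29a1_HZ.Z74
open Pool.Agent.W_7d29a1_C0.Flip61 (Rp clip)
open Pool.Agent.W_7d29a1_C0.Mod92 (Px Pn ps lk cl Flat gw lw gj wt)
open Pool.W7d29a1.C0 (gz)

noncomputable section

variable {μ : Measure ℝ} {s : ℝ}

theorem Rw_eq (η : Env) (c l k : ℕ) (v : ℤ) (S : Finset ℕ) : Rw μ s c l k v η S = Rp μ s η c l k v S := rfl

/-- The distance of the clipped law `w` and of the exact kick of the row `c + k` on top of the log weight `w₀`. -/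
theorem tv_exp {Q : Finset (Finset ℕ)} (η : Env) (w w₀ : Px Q → ℝ) (c l k : ℕ) (v : ℤ) :
    tv (fun S : Px Q => Real.exp (w S)) (fun S : Px Q => Real.exp (w₀ S) * Rw μ s c l k v η S.1) =
      ∑ S : Px Q, |Real.exp (w S) / gz w - Real.exp (w₀ S) * Rp μ s η c l k v S.1 /
        ∑ S : Px Q, Real.exp (w₀ S) * Rp μ s η c l k v S.1| := rfl

theorem win_start (b j : ℕ) : j - b + (j + b - (j - b)) = j + b := by omega

variable [IsProbabilityMeasure μ] {c C : ℝ} {n₀ : ℕ}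

/-- **ONE KICK.** -/
theorem clip48 (h : In μ s c C n₀) {θ εB : ℝ} (hθ : 0 < θ) (hεB : 0 < εB) : ∃ δ₀ : ℝ, 0 < δ₀ ∧ ∀ δ : ℝ, 0 < δ → δ ≤ δ₀ →
    ∃ δ' : ℝ, 0 < δ' ∧ ∃ c' : ℝ, 0 < c' ∧ ∃ N₀ : ℕ, ∀ N : ℕ, N₀ ≤ N → ∀ y : ℕ, EndOk μ s δ' N y → ∀ B : ℝ, (N : ℝ) ^ εB ≤ B →
    ∀ b j : ℕ, (N : ℝ) ^ θ ≤ b → 6 * b ≤ N → j + b ≤ N → ∀ a : ℤ, (a = 1 ∨ a = -1) →
    ∫ η, clip μ s N δ B b j a y η ∂(law μ) ≤ Real.exp (-(N : ℝ) ^ c') := by
  obtain ⟨δ₀, hδ₀, hT⟩ := tv48_one h hθ hεB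
  refine ⟨δ₀, hδ₀, fun δ hδ hδ1 => ?_⟩
  obtain ⟨δ', hδ', c', hc', N₀, hN₀⟩ := hT δ hδ hδ1
  refine ⟨δ', hδ', c', hc', max N₀ 1, fun N hN y hy B hB b j hb h6 hj a ha => ?_⟩
  have hN1 : (1 : ℝ) ≤ N := by exact_mod_cast (le_max_right _ _).trans hN
  have hb0 : 0 < b := by
    have h1 : (0 : ℝ) < b := lt_of_lt_of_le (by positivity) hb
    exact_mod_cast h1
  have hl : (N : ℝ) ^ θ ≤ ((j + b - (j - b) : ℕ) : ℝ) := by
    have h2 : b ≤ j + b - (j - b) := by omega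
    have h3 : (b : ℝ) ≤ ((j + b - (j - b) : ℕ) : ℝ) := by exact_mod_cast h2
    exact hb.trans h3
  have h1 := hN₀ N ((le_max_left _ _).trans hN) y hy B hB (j - b) (j + b - (j - b)) (j - (j - b)) hl (by omega) (by omega) (by omega)
    a ha
  refine le_trans (le_of_eq ?_) h1
  refine integral_congr_ae (Eventually.of_forall fun η => ?_)
  show clip μ s N δ B b j a y η = _
  unfold clip
  have e1 : ∀ S : Px (Pn N y), wt μ s η N (Pn N y) δ B b j a (-a) S =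
      wk μ s η N y δ B (j - b) (j + b - (j - b)) (j - (j - b)) a (-a) S := fun S => by
    show lw μ s η N (Pn N y) S + (-(a : ℝ) - a) * gw μ s η δ B a (j - b) (j + b - (j - b)) (j - (j - b)) (ps S (j - b)) (ps S (j + b)) = _
    unfold wk
    rw [win_start]
  have e2 : wt μ s η N (Pn N y) δ B b j a (-a) = wk μ s η N y δ B (j - b) (j + b - (j - b)) (j - (j - b)) a (-a) := funext e1
  rw [e2]
  refine Eq.trans ?_ (tv_exp (μ := μ) (s := s) η (wk μ s η N y δ B (j - b) (j + b - (j - b)) (j - (j - b)) a (-a))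
    (lw μ s η N (Pn N y)) (j - b) (j + b - (j - b)) (j - (j - b)) (-a)).symm
  simp only [Mod92.exp_lw]
  rw [← Mod92.sum_Px (Q := Pn N y) fun S => pth μ s η N S * Rp μ s η (j - b) (j + b - (j - b)) (j - (j - b)) (-a) S]

/-- **THE KICK OF THE ROW `j` ON TOP OF A PARTIAL KICK OF THE ROW `i`** (disjoint windows, any two bases). -/
theorem tv48_two (h : In μ s c C n₀) {θ εB : ℝ} (hθ : 0 < θ) (hεB : 0 < εB) : ∃ δ₀ : ℝ, 0 < δ₀ ∧ ∀ δ : ℝ, 0 < δ → δ ≤ δ₀ →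
    ∃ δ' : ℝ, 0 < δ' ∧ ∃ c' : ℝ, 0 < c' ∧ ∃ N₀ : ℕ, ∀ N : ℕ, N₀ ≤ N → ∀ y : ℕ, EndOk μ s δ' N y → ∀ B : ℝ, (N : ℝ) ^ εB ≤ B →
    ∀ b j b' i : ℕ, (N : ℝ) ^ θ ≤ b → (N : ℝ) ^ θ ≤ b' → (j + b ≤ i - b' ∧ i + b' ≤ N ∨ i + b' ≤ j - b ∧ j + b ≤ N) →
    ∀ a a' : ℤ, (a = 1 ∨ a = -1) → (a' = 1 ∨ a' = -1) → ∀ t : ℝ, |t| ≤ 1 →
    ∫ η, (∑ S : Px (Pn N y), |Real.exp ((wt μ s η N (Pn N y) δ B b' i a' t + (-a - a : ℝ) • gj μ s η δ B b j a :
          Px (Pn N y) → ℝ) S) / gz (wt μ s η N (Pn N y) δ B b' i a' t + (-a - a : ℝ) • gj μ s η δ B b j a) -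
      Real.exp (wt μ s η N (Pn N y) δ B b' i a' t S) * Rp μ s η (j - b) (j + b - (j - b)) (j - (j - b)) (-a) S.1 /
        ∑ S : Px (Pn N y), Real.exp (wt μ s η N (Pn N y) δ B b' i a' t S) *
          Rp μ s η (j - b) (j + b - (j - b)) (j - (j - b)) (-a) S.1|) ∂(law μ) ≤
      Real.exp (-(N : ℝ) ^ c') := by
  obtain ⟨δ₀, hδ₀, hT⟩ := tv48 h hθ hεB
  refine ⟨δ₀, hδ₀, fun δ hδ hδ1 => ?_⟩
  obtain ⟨δ', hδ', c', hc', N₀, hN₀⟩ := hT δ hδ hδ1
  refine ⟨δ', hδ', c', hc', max N₀ 1, fun N hN y hy B hB b j b' i hb hb' hD a a' ha ha' t ht => ?_⟩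
  have hN1 : (1 : ℝ) ≤ N := by exact_mod_cast (le_max_right _ _).trans hN
  have hb0 : 0 < b := by
    have h1 : (0 : ℝ) < b := lt_of_lt_of_le (by positivity) hb
    exact_mod_cast h1
  have hb'0 : 0 < b' := by
    have h1 : (0 : ℝ) < b' := lt_of_lt_of_le (by positivity) hb'
    exact_mod_cast h1
  have hl : ∀ j b : ℕ, (N : ℝ) ^ θ ≤ b → (N : ℝ) ^ θ ≤ ((j + b - (j - b) : ℕ) : ℝ) := fun j b hb => by
    have h2 : b ≤ j + b - (j - b) := by omega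
    have h3 : (b : ℝ) ≤ ((j + b - (j - b) : ℕ) : ℝ) := by exact_mod_cast h2
    exact hb.trans h3
  have h1 := hN₀ N ((le_max_left _ _).trans hN) y hy B hB (j - b) (j + b - (j - b)) (j - (j - b)) (i - b') (i + b' - (i - b'))
    (i - (i - b')) (hl j b hb) (hl i b' hb') (by omega) (by omega) (by
      unfold Dj
      rw [win_start, win_start]
      exact hD) a a' ha ha' t ht
  refine le_trans (le_of_eq ?_) h1
  refine integral_congr_ae (Eventually.of_forall fun η => ?_)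
  beta_reduce
  have e0 : ∀ S : Px (Pn N y), wt μ s η N (Pn N y) δ B b' i a' t S =
      wk μ s η N y δ B (i - b') (i + b' - (i - b')) (i - (i - b')) a' t S := fun S => by
    show lw μ s η N (Pn N y) S + (t - a') * gw μ s η δ B a' (i - b') (i + b' - (i - b')) (i - (i - b')) (ps S (i - b')) (ps S (i + b')) = _
    unfold wk
    rw [win_start]
  have e1 : ∀ S : Px (Pn N y), (wt μ s η N (Pn N y) δ B b' i a' t + (-a - a : ℝ) • gj μ s η δ B b j a : Px (Pn N y) → ℝ) S =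
      wk μ s η N y δ B (i - b') (i + b' - (i - b')) (i - (i - b')) a' t S +
        (-a - a) * gw μ s η δ B a (j - b) (j + b - (j - b)) (j - (j - b)) (ps S (j - b)) (ps S (j - b + (j + b - (j - b)))) := fun S => by
    show wt μ s η N (Pn N y) δ B b' i a' t S + (-(a : ℝ) - a) * gw μ s η δ B a (j - b) (j + b - (j - b)) (j - (j - b)) (ps S (j - b))
      (ps S (j + b)) = _
    rw [e0, win_start]
  have e2 : (wt μ s η N (Pn N y) δ B b' i a' t + (-a - a : ℝ) • gj μ s η δ B b j a) = fun S =>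
      wk μ s η N y δ B (i - b') (i + b' - (i - b')) (i - (i - b')) a' t S +
        (-a - a) * gw μ s η δ B a (j - b) (j + b - (j - b)) (j - (j - b)) (ps S (j - b)) (ps S (j - b + (j + b - (j - b)))) := funext e1
  have e3 : wt μ s η N (Pn N y) δ B b' i a' t = wk μ s η N y δ B (i - b') (i + b' - (i - b')) (i - (i - b')) a' t := funext e0
  rw [e2, e3]
  exact (tv_exp η _ _ _ _ _ _).symm

end

end Pool.Agent.W_7d29a1_C0.Tv48
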