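import Pool.Agent.W_7d29a1_C0.Frm33
import Pool.Agent.W_7d29a1_C0.TvF48

/-!
MP_7d29a1_pr, [CURV0] (helper33): THE ERROR OF THE CLIPPING `ClipP` of the frame, from `clip48` of helper48.
-/

set_option autoImplicit false

namespace Pool.Agent.W_7d29a1_C0.Frm33

open MeasureTheory
open Pool.Agent.W_7d29a1_HS (In)

/-- **The error of the clipping.** -/
theorem clipP33 {μ : Measure ℝ} [IsProbabilityMeasure μ] {s c C : ℝ} {n₀ : ℕ} (h : In μ s c C n₀) : ClipP μ s := by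
  intro κ β hκ hβ
  obtain ⟨δ₀, hδ₀, H⟩ := Tv48.clip48 h hκ hβ
  refine ⟨δ₀, hδ₀, fun γ hγ hγ' => ?_⟩
  obtain ⟨δ', hδ', c', hc', N₀, H'⟩ := H γ hγ hγ'
  exact ⟨δ', c', hδ', hc', N₀, fun N hN y hy B hB b j hb h6 _ hj a ha => H' N hN y hy B hB b j hb h6 hj a ha⟩

end Pool.Agent.W_7d29a1_C0.Frm33
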