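import Pool.Agent.W_7d29a1_C0.ClE46
import Pool.Agent.W_7d29a1_C0.ClipF33

/-!
STORM C0 (helper46): THE CLIP MEAN, with the numbers. `clN46`: for all `n ^ κ ≤ b0 ≤ b`, the mean over the environment of the error of the
clipped response, at both corners, is at most `exp (- N ^ c')`. `clF46`: the same at the frame of helper33 (all ends of `ys33`, signs and
environment).
-/

set_option autoImplicit false
set_option linter.unusedSectionVars false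
set_option linter.unusedVariables false

namespace Pool.Agent.W_7d29a1_C0.Cl46

open Pool.Agent.W_7d29a1_F hiding W_pos W_nonneg W_add
open Finset MeasureTheory Filter Topology Pool.Agent.W_7d29a1_X
open Pool.Agent.W_7d29a1_H (sl)
open Pool.Agent.W_7d29a1_HS (In wd)
open Pool.Agent.W_7d29a1_HZ (wd')
open Pool.Agent.W_7d29a1_C0 Pool.Agent.W_7d29a1_C0.Mod92 Pool.Agent.W_7d29a1_C0.Flip61 Pool.Agent.W_7d29a1_C0.Pin18
open Pool.Agent.W_7d29a1_C0.Frm33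

noncomputable section

variable {μ : Measure ℝ} {s : ℝ} [IsProbabilityMeasure μ] {c₁ C : ℝ} {n₀ : ℕ}

/-- The numbers. -/
theorem num46 {e₀ a₁ a₂ a₃ a₄ β : ℝ} (he : 0 < e₀) (h1 : e₀ < a₁) (h2 : 0 < a₂) (h3 : e₀ < a₃) (h4 : 0 < a₄) :
    ∃ c' : ℝ, 0 < c' ∧ ∀ᶠ N : ℕ in atTop, 4 ≤ Real.exp ((N : ℝ) ^ e₀) ∧ ∀ B : ℝ, 0 ≤ B → B ≤ N →
      2 * Real.exp (-(N : ℝ) ^ e₀) + B * (6 * Real.exp (-(N : ℝ) ^ a₂) + 2 * Real.exp (4 * (N : ℝ) ^ e₀) *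
        (3 * Real.exp (-(N : ℝ) ^ a₁) + 2 * Real.exp (-(N : ℝ) ^ a₃)) + 2 * Real.exp (-(N : ℝ) ^ a₃) + Real.exp (-(N : ℝ) ^ a₄)) ≤
        Real.exp (-(N : ℝ) ^ c') := by
  obtain ⟨c, hc⟩ : ∃ c, c = min (min e₀ a₂) (min a₃ a₄) := ⟨_, rfl⟩
  have hc0 : 0 < c := by
    rw [hc]
    exact lt_min (lt_min he h2) (lt_min (he.trans h3) h4)
  have c1 : c ≤ e₀ := by rw [hc]; exact (min_le_left _ _).trans (min_le_left _ _)
  have c2 : c ≤ a₂ := by rw [hc]; exact (min_le_left _ _).trans (min_le_right _ _)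
  have c3 : c ≤ a₃ := by rw [hc]; exact (min_le_right _ _).trans (min_le_left _ _)
  have c4 : c ≤ a₄ := by rw [hc]; exact (min_le_right _ _).trans (min_le_right _ _)
  refine ⟨c / 2, by positivity, ?_⟩
  filter_upwards [eventually_ge_atTop 1, Pool.Agent.W_7d29a1_HZ.Z74.ev_pow he 3,
    Pool.Agent.W_7d29a1_HZ.Z74.ev_pow_le h1 (K := 5) one_pos, Pool.Agent.W_7d29a1_HZ.Z74.ev_pow_le h3 (K := 5) one_pos,
    Pool.Agent.W_7d29a1_HZ.Z74.ev_exp (A := 21) (a := 1) (by norm_num) one_pos hc0 (show c / 2 < c by linarith) 1]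
    with N hN e1 e2 e3 e4
  have hNR : (1 : ℝ) ≤ N := by exact_mod_cast hN
  rw [one_mul] at e2 e3 e4
  rw [Real.rpow_one] at e4
  obtain ⟨ξ, hξ⟩ : ∃ ξ, ξ = (N : ℝ) ^ e₀ := ⟨_, rfl⟩
  obtain ⟨z, hz⟩ : ∃ z, z = Real.exp (-(N : ℝ) ^ c) := ⟨_, rfl⟩
  have hz0 : 0 < z := by rw [hz]; exact Real.exp_pos _
  have key : ∀ a : ℝ, c ≤ a → Real.exp (-(N : ℝ) ^ a) ≤ z := fun a ha => by
    rw [hz]
    exact Real.exp_le_exp.2 (neg_le_neg (Real.rpow_le_rpow_of_exponent_le hNR ha))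
  rw [← hξ] at e1 e2 e3 ⊢
  have z1 : Real.exp (-ξ) ≤ z := hξ ▸ key e₀ c1
  have z2 := key a₂ c2
  have z3 := key a₃ c3
  have z4 := key a₄ c4
  have y1 : Real.exp (4 * ξ) * Real.exp (-(N : ℝ) ^ a₁) ≤ z := by
    rw [← Real.exp_add]
    exact (Real.exp_le_exp.2 (by linarith)).trans z1
  have y3 : Real.exp (4 * ξ) * Real.exp (-(N : ℝ) ^ a₃) ≤ z := by
    rw [← Real.exp_add]
    exact (Real.exp_le_exp.2 (by linarith)).trans z1
  constructor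
  · have h5 := Real.add_one_le_exp ξ
    linarith
  · intro B hB hBN
    rw [← hz] at e4
    have h5 : 6 * Real.exp (-(N : ℝ) ^ a₂) + 2 * Real.exp (4 * ξ) * (3 * Real.exp (-(N : ℝ) ^ a₁) + 2 * Real.exp (-(N : ℝ) ^ a₃)) +
        2 * Real.exp (-(N : ℝ) ^ a₃) + Real.exp (-(N : ℝ) ^ a₄) ≤ 19 * z := by
      have e5 : 2 * Real.exp (4 * ξ) * (3 * Real.exp (-(N : ℝ) ^ a₁) + 2 * Real.exp (-(N : ℝ) ^ a₃)) =
        6 * (Real.exp (4 * ξ) * Real.exp (-(N : ℝ) ^ a₁)) + 4 * (Real.exp (4 * ξ) * Real.exp (-(N : ℝ) ^ a₃)) := by ring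
      rw [e5]
      linarith
    have h6 := mul_le_mul_of_nonneg_left h5 hB
    have h7 : B * (19 * z) ≤ N * (19 * z) := mul_le_mul_of_nonneg_right hBN (by positivity)
    have h8 : 2 * z ≤ N * (2 * z) := le_mul_of_one_le_left (by positivity) hNR
    have h9 := Real.exp_pos (-(N : ℝ) ^ (c / 2))
    nlinarith

/-- **THE CLIP MEAN**, at both corners, for all pairs of windows. -/
theorem clN46 (h : In μ s c₁ C n₀) {κ β : ℝ} (hκ : 0 < κ) (hβ : 0 < β) : ∃ γ₀ : ℝ, 0 < γ₀ ∧ ∀ γ : ℝ, 0 < γ → γ ≤ γ₀ →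
    ∃ δ c' : ℝ, 0 < δ ∧ 0 < c' ∧ ∃ N₀ : ℕ, ∀ N : ℕ, N₀ ≤ N → ∀ y : ℕ, 1 ≤ y → y < N →
      (∀ z : ℕ, z = y ∨ z = y + 1 ∨ z = y - 1 → |(z : ℝ) - sl μ s * N| ≤ (N : ℝ) ^ δ * wd' μ s N) →
      ∀ B : ℝ, (N : ℝ) ^ β ≤ B → B ≤ N → ∀ b0 b j : ℕ, (N : ℝ) ^ κ ≤ b0 → b0 ≤ b → b ≤ j → j + b ≤ N → 6 * b0 ≤ N →
        ∀ (A : Finset ℕ) (t : ℝ), (t = 1 ∨ t = -1) → ∫ η, cm46 μ s N γ B b0 b j t y (η, A) ∂(law μ) ≤ Real.exp (-(N : ℝ) ^ c') := by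
  obtain ⟨γ₁, hγ₁, hcl⟩ := clipP33 h κ β hκ hβ
  obtain ⟨γ₂, hγ₂, hfl⟩ := flat46 h
  obtain ⟨δ₃, a₃, hδ₃, ha₃, N₃, hok⟩ := OkM18.okM18 h hκ
  refine ⟨min γ₁ γ₂, lt_min hγ₁ hγ₂, fun γ hγ hγ' => ?_⟩
  obtain ⟨δ₄, a₄, hδ₄, ha₄, N₄, hc4⟩ := hcl γ hγ (hγ'.trans (min_le_left _ _))
  obtain ⟨l₀, hl₀⟩ := hfl γ (hγ'.trans (min_le_right _ _))
  obtain ⟨δ₁, a₁, hδ₁, ha₁, N₁, hb1⟩ := bwT46 h hκ hγ hβ
  obtain ⟨e₀, he₀⟩ : ∃ e₀, e₀ = min (min a₁ a₃) β / 2 := ⟨_, rfl⟩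
  have he : 0 < e₀ := by
    rw [he₀]
    have := lt_min (lt_min ha₁ ha₃) hβ
    positivity
  have he1 : e₀ < a₁ := by
    have h1 : min (min a₁ a₃) β ≤ a₁ := (min_le_left _ _).trans (min_le_left _ _)
    linarith
  have he3 : e₀ < a₃ := by
    have h1 : min (min a₁ a₃) β ≤ a₃ := (min_le_left _ _).trans (min_le_right _ _)
    linarith
  have heβ : e₀ ≤ β := by
    have h1 : min (min a₁ a₃) β ≤ β := min_le_right _ _
    linarith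
  obtain ⟨δ₂, a₂, hδ₂, ha₂, N₂, hb2⟩ := bwT46 h hκ hγ he
  obtain ⟨c', hc', hnum⟩ := num46 (β := β) he he1 ha₂ he3 ha₄
  obtain ⟨N₅, hN₅⟩ := eventually_atTop.1 hnum
  have t2 : Tendsto (fun N : ℕ => (N : ℝ) ^ κ) atTop atTop := (tendsto_rpow_atTop hκ).comp tendsto_natCast_atTop_atTop
  obtain ⟨N₆, hN₆⟩ := eventually_atTop.1 (t2.eventually_ge_atTop (l₀ : ℝ))
  obtain ⟨δ, hδd⟩ : ∃ δ, δ = min (min δ₁ δ₂) (min δ₃ δ₄) := ⟨_, rfl⟩
  have q1 : δ ≤ δ₁ := by rw [hδd]; exact (min_le_left _ _).trans (min_le_left _ _)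
  have q2 : δ ≤ δ₂ := by rw [hδd]; exact (min_le_left _ _).trans (min_le_right _ _)
  have q3 : δ ≤ δ₃ := by rw [hδd]; exact (min_le_right _ _).trans (min_le_left _ _)
  have q4 : δ ≤ δ₄ := by rw [hδd]; exact (min_le_right _ _).trans (min_le_right _ _)
  refine ⟨δ, c', by rw [hδd]; exact lt_min (lt_min hδ₁ hδ₂) (lt_min hδ₃ hδ₄), hc',
    max (max (max N₁ N₂) (max N₃ N₄)) (max (max N₅ N₆) 1), fun N hN y hy1 hyN hyc B hB hBN b0 b j hb0 hbb hbj hjN h6 A t ht => ?_⟩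
  have g1 : N₁ ≤ N := (le_max_left _ _).trans ((le_max_left _ _).trans ((le_max_left _ _).trans hN))
  have g2 : N₂ ≤ N := (le_max_right _ _).trans ((le_max_left _ _).trans ((le_max_left _ _).trans hN))
  have g3 : N₃ ≤ N := (le_max_left _ _).trans ((le_max_right _ _).trans ((le_max_left _ _).trans hN))
  have g4 : N₄ ≤ N := (le_max_right _ _).trans ((le_max_right _ _).trans ((le_max_left _ _).trans hN))
  have g5 : N₅ ≤ N := (le_max_left _ _).trans ((le_max_left _ _).trans ((le_max_right _ _).trans hN))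
  have g6 : N₆ ≤ N := (le_max_right _ _).trans ((le_max_left _ _).trans ((le_max_right _ _).trans hN))
  have g7 : 1 ≤ N := (le_max_right _ _).trans ((le_max_right _ _).trans hN)
  have hNR : (1 : ℝ) ≤ N := by exact_mod_cast g7
  have hw0 : 0 ≤ wd' μ s N := zero_le_one.trans (le_max_left _ _)
  have cone : ∀ δ' : ℝ, δ ≤ δ' → ∀ z : ℕ, z = y ∨ z = y + 1 ∨ z = y - 1 → |(z : ℝ) - sl μ s * N| ≤ (N : ℝ) ^ δ' * wd' μ s N :=
    fun δ' hδ' z hz => (hyc z hz).trans (mul_le_mul_of_nonneg_right (Real.rpow_le_rpow_of_exponent_le hNR hδ') hw0)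
  obtain ⟨n1, n2⟩ := hN₅ N g5
  have hB0 : 0 ≤ B := (Real.rpow_nonneg (by linarith) _).trans hB
  have hb0p : 0 < b0 := by
    rcases Nat.eq_zero_or_pos b0 with h5 | h5
    · rw [h5, Nat.cast_zero] at hb0
      have := Real.rpow_pos_of_pos (lt_of_lt_of_le one_pos hNR) κ
      linarith
    · exact h5
  have hnb : nb (sg A j) y = y + 1 ∨ nb (sg A j) y = y - 1 := by
    rcases sg_or A j with h5 | h5 <;> rw [h5]
    · exact Or.inl (nb_one y)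
    · exact Or.inr (nb_neg y)
  have hnb' : nb (sg A j) y = y ∨ nb (sg A j) y = y + 1 ∨ nb (sg A j) y = y - 1 := Or.inr hnb
  have hnbN : nb (sg A j) y ≤ N := by
    rcases hnb with h5 | h5 <;> rw [h5] <;> omega
  have ha1 : |sg A j| ≤ 1 := by
    rcases sg_or A j with h5 | h5 <;> rw [h5] <;> norm_num
  have ha2 : |-sg A j| ≤ 1 := by rwa [abs_neg]
  have hl0R : (l₀ : ℝ) ≤ b0 := (hN₆ N g6).trans hb0
  have hl0N : l₀ ≤ b0 := by exact_mod_cast hl0R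
  have len : ∀ b' : ℕ, b0 ≤ b' → b' ≤ j → (N : ℝ) ^ κ ≤ ((j + b' - (j - b') : ℕ) : ℝ) := fun b' h5 h7 => by
    refine hb0.trans ?_
    exact_mod_cast (show b0 ≤ j + b' - (j - b') by omega)
  have hξB : (N : ℝ) ^ e₀ ≤ B := (Real.rpow_le_rpow_of_exponent_le hNR heβ).trans hB
  refine (cm_int46 (μ := μ) (s := s) (N := N) A hbb hbj hjN hy1 hyN (γ := γ) (B := B) (ξ := (N : ℝ) ^ e₀) hB0
    (Real.rpow_nonneg (by linarith) _) n1 hξB (fun l hl D hD => hl₀ l (by omega) (sg A j) ha1 D hD) ht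
    (hb2 N g2 y hyN.le (cone δ₂ q2 y (Or.inl rfl)) (j - b) (j + b - (j - b)) (j - (j - b)) (by omega) (len b hbb hbj) (by omega)
      (sg A j) ha1 _ le_rfl)
    (hb2 N g2 _ hnbN (cone δ₂ q2 _ hnb') (j - b) (j + b - (j - b)) (j - (j - b)) (by omega) (len b hbb hbj) (by omega)
      (-sg A j) ha2 _ le_rfl)
    (hb1 N g1 y hyN.le (cone δ₁ q1 y (Or.inl rfl)) (j - b0) (j + b0 - (j - b0)) (j - (j - b0)) (by omega)
      (len b0 le_rfl (by omega)) (by omega) (sg A j) ha1 B hB)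
    (hb1 N g1 _ hnbN (cone δ₁ q1 _ hnb') (j - b0) (j + b0 - (j - b0)) (j - (j - b0)) (by omega)
      (len b0 le_rfl (by omega)) (by omega) (-sg A j) ha2 B hB)
    ((hok N g3 (j - b0) (j + b0 - (j - b0)) (by omega) (len b0 le_rfl (by omega)) (-sg A j) ha2).1 _ hnbN (cone δ₃ q3 _ hnb'))
    (hc4 N g4 y (cone δ₄ q4 y (Or.inl rfl)) B hB b0 j hb0 h6 (by omega) (by omega) (sg A j) (sg_or A j))).trans ?_
  exact n2 B hB0 hBN

end

end Pool.Agent.W_7d29a1_C0.Cl46
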