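import Pool.Agent.W_7d29a1_C0.CrAsm44

/-!
CURV0 (MP_7d29a1_pr, helper44): THE CLIP ERROR OF THE CROSS TERM. `PCl_of44`: the contract `PCl` (replacement of the clipped response
`gg b` by the exact response `ge`) from the means of `|gg b - ge|` under the Gibbs measures at the two corners (one of them is the actual
measure).
-/

set_option autoImplicit false
set_option linter.unusedSectionVars false
set_option linter.unusedVariables false

namespace Pool.Agent.W_7d29a1_C0.CrA44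

open Finset MeasureTheory Pool.Agent.W_7d29a1_F Pool.Agent.W_7d29a1_X Pool.Agent.W_7d29a1_H
open Pool.Agent.W_7d29a1_C0.Mod92 Pool.Agent.W_7d29a1_C0.Base5 Pool.Agent.W_7d29a1_C0
open Pool.W7d29a1.C0 (gz gm lse gz_pos gz_ne gm_nonneg gm_mono Ac Dc Mc gb81 cm)
open Pool.W7d29a1.C0.VT31

noncomputable section

section abs

variable {X : Type*} [Fintype X] [Nonempty X] {Y : Type*} [DecidableEq Y]

theorem abs_cE_cE (w : X → ℝ) (p : X → Y) (u : X → ℝ) (x : X) : |cE w p u x| ≤ cE w p (fun x => |u x|) x := by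
  have h1 := cE_mono w p (f := fun x => -|u x|) (g := u) (fun x => neg_abs_le _) x
  have h2 := cE_mono w p (f := u) (g := fun x => |u x|) (fun x => le_abs_self _) x
  have e : (fun x => -|u x|) = -fun x => |u x| := rfl
  rw [e, cE_neg, Pi.neg_apply] at h1
  exact abs_le.2 ⟨h1, h2⟩

/-- The covariance with a bounded function. -/
theorem abs_gc_gm (w : X → ℝ) {f : X → ℝ} {D : ℝ} (hf : ∀ x, |f x| ≤ D) (u : X → ℝ) :
    |gc w u f| ≤ 2 * D * gm w fun x => |u x| := by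
  obtain ⟨x0⟩ := (inferInstance : Nonempty X)
  have hD : 0 ≤ D := (abs_nonneg _).trans (hf x0)
  obtain ⟨G, hG⟩ : ∃ G, G = gm w fun x => |u x| := ⟨_, rfl⟩
  have h1 : |gm w (u * f)| ≤ D * G := by
    rw [← gm_eq_cE w _ x0]
    refine (abs_cE_cE w _ _ x0).trans ?_
    have h2 := cE_mono w (fun _ : X => ()) (f := fun x => |(u * f) x|) (g := D • fun x => |u x|) (fun x => by
      rw [Pi.mul_apply, abs_mul, Pi.smul_apply, smul_eq_mul, mul_comm]
      exact mul_le_mul_of_nonneg_right (hf x) (abs_nonneg _)) x0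
    refine h2.trans (le_of_eq ?_)
    rw [cE_smul, Pi.smul_apply, gm_eq_cE, smul_eq_mul, hG]
  have h2 : |gm w u| ≤ G := by
    rw [← gm_eq_cE w _ x0, hG, ← gm_eq_cE w _ x0]
    exact abs_cE_cE w _ _ x0
  have h3 : |gm w f| ≤ D := Pool.W7d29a1.C0.abs_gm_le_X w hf
  have h4 : |gm w u * gm w f| ≤ G * D := by
    rw [abs_mul]
    exact mul_le_mul h2 h3 (abs_nonneg _) ((abs_nonneg _).trans h2)
  unfold gc
  rw [← hG]
  exact (abs_sub _ _).trans (by linarith)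

/-- The row functionals of two responses. -/
theorem gm_Zr_sub (w : X → ℝ) (p : X → Y) {a : ℝ} (ha : |a| = 1) {γ γ' : X → ℝ} {M : ℝ} (h : ∀ x, |γ x| ≤ M)
    (h' : ∀ x, |γ' x| ≤ M) : (gm w fun x => |(Zr w p a γ - Zr w p a γ') x|) ≤ (1 + 2 * M) * gm w fun x => |γ x - γ' x| := by
  obtain ⟨x0⟩ := (inferInstance : Nonempty X)
  have hM : 0 ≤ M := (abs_nonneg _).trans (h x0)
  obtain ⟨U, hU⟩ : ∃ U : X → ℝ, U = fun x => |γ x - γ' x| := ⟨_, rfl⟩
  have hU0 : ∀ x, 0 ≤ cE w p U x := cE_nonneg w p fun x => by rw [hU]; exact abs_nonneg _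
  have e1 : ∀ x, |cE w p γ x - cE w p γ' x| ≤ cE w p U x := fun x => by
    have e : cE w p γ x - cE w p γ' x = cE w p (γ - γ') x := by rw [cE_sub, Pi.sub_apply]
    rw [e, hU]
    exact abs_cE_cE w p _ x
  have e2 : ∀ x, |cV w p γ x - cV w p γ' x| ≤ 4 * M * cE w p U x := fun x => by
    have e : cV w p γ x - cV w p γ' x = cE w p (γ * γ - γ' * γ') x -
        (cE w p γ x - cE w p γ' x) * (cE w p γ x + cE w p γ' x) := by
      unfold cV cC
      rw [cE_sub]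
      simp only [Pi.sub_apply, Pi.mul_apply]
      ring
    have k1 : |cE w p (γ * γ - γ' * γ') x| ≤ 2 * M * cE w p U x := by
      refine (abs_cE_cE w p _ x).trans ?_
      have h2 := cE_mono w p (f := fun x => |(γ * γ - γ' * γ') x|) (g := (2 * M) • U) (fun x => by
        have e3 : (γ * γ - γ' * γ') x = (γ x + γ' x) * (γ x - γ' x) := by
          simp only [Pi.sub_apply, Pi.mul_apply]
          ring
        rw [e3, abs_mul, Pi.smul_apply, smul_eq_mul, hU]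
        exact mul_le_mul_of_nonneg_right ((abs_add_le _ _).trans (by linarith [h x, h' x])) (abs_nonneg _)) x
      refine h2.trans (le_of_eq ?_)
      rw [cE_smul, Pi.smul_apply, smul_eq_mul]
    have k2 : |(cE w p γ x - cE w p γ' x) * (cE w p γ x + cE w p γ' x)| ≤ cE w p U x * (2 * M) := by
      rw [abs_mul]
      refine mul_le_mul (e1 x) ((abs_add_le _ _).trans ?_) (abs_nonneg _) (hU0 x)
      linarith [Pool.W7d29a1.C0.abs_cE_le_X w p h x, Pool.W7d29a1.C0.abs_cE_le_X w p h' x]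
    rw [e]
    exact (abs_sub _ _).trans (by linarith)
  have e3 : ∀ x, |(Zr w p a γ - Zr w p a γ') x| ≤ ((1 + 2 * M) • cE w p U) x := fun x => by
    have e : (Zr w p a γ - Zr w p a γ') x = (cE w p γ x - cE w p γ' x) - a / 3 * (cV w p γ x - cV w p γ' x) := by
      unfold Pool.W7d29a1.C0.VT31.Zr
      simp only [Pi.sub_apply, Pi.smul_apply, smul_eq_mul]
      ring
    rw [e, Pi.smul_apply, smul_eq_mul]
    refine (abs_sub _ _).trans ?_
    rw [abs_mul, abs_div, ha]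
    have h3 : |(3 : ℝ)| = 3 := by norm_num
    rw [h3]
    have := e1 x
    have := e2 x
    have := hU0 x
    nlinarith [mul_nonneg hM (hU0 x)]
  calc (gm w fun x => |(Zr w p a γ - Zr w p a γ') x|) ≤ gm w ((1 + 2 * M) • cE w p U) := gm_mono w e3
    _ = (1 + 2 * M) * gm w fun x => |γ x - γ' x| := by
        rw [← gm_eq_cE w _ x0, cE_smul, Pi.smul_apply, gm_eq_cE, gm_cE, smul_eq_mul, hU]

theorem abs_Zr_X (w : X → ℝ) (p : X → Y) {a : ℝ} (ha : |a| = 1) {γ : X → ℝ} {M : ℝ} (h : ∀ x, |γ x| ≤ M) (x : X) :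
    |Zr w p a γ x| ≤ M + 2 * (M * M) := by
  have h1 := Pool.W7d29a1.C0.abs_cE_le_X w p h x
  have h2 := Pool.W7d29a1.C0.abs_cC_le_X w p h h x
  have e : Zr w p a γ x = cE w p γ x - a / 3 * cC w p γ γ x := by
    unfold Pool.W7d29a1.C0.VT31.Zr cV
    simp only [Pi.sub_apply, Pi.smul_apply, smul_eq_mul]
  rw [e]
  refine (abs_sub _ _).trans (add_le_add h1 ?_)
  rw [abs_mul, abs_div, ha]
  have h3 : |(3 : ℝ)| = 3 := by norm_num
  rw [h3]
  have := abs_nonneg (cC w p γ γ x)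
  linarith

theorem meas_ZrX {Ω : Type*} [MeasurableSpace Ω] (p : X → Y) (a : ℝ) {w γ : Ω → X → ℝ} (mw : Measurable w) (mγ : Measurable γ) :
    Measurable fun u => Zr (w u) p a (γ u) := by
  unfold Pool.W7d29a1.C0.VT31.Zr
  exact (Pool.W7d29a1.C0.meas_cEX p mw mγ).sub ((Pool.W7d29a1.C0.meas_cVX p mw mγ).const_smul (a / 3))

end abs

variable {μ : Measure ℝ} {s : ℝ} {N : ℕ}

/-- **THE CLIP ERROR** from the two corners. -/
theorem PCl_of44 [IsProbabilityMeasure μ] {ys R : Finset ℕ} (hys : ∀ y ∈ ys, y ≤ N) {δ B : ℝ} (hB : 0 ≤ B) {b0 b σ : ℕ}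
    {c d : ℕ} {D : ℝ} {f : Fam N} (hf : Cls59 N c d D f) {ε : ℝ} (h : ∀ j ∈ Rw R c d, ∀ a : ℝ, (a = 1 ∨ a = -1) →
      avy ys (fun y => ∫ ω, (gm (wj μ s N (Pn N y) δ B b0 j ω a) fun S => |gg μ s (Pn N y) δ B b ω j S -
        ge μ s N (Pn N y) δ B b0 b ω j S|) ∂(Pm μ N)) ≤ ε) :
    PCl μ s N δ B b0 b σ f ys R c d ((Rw R c d).card * (2 * |D| * (1 + B) * ε)) := by
  unfold PCl
  refine (abs_sum_le_sum_abs _ _).trans ?_
  rw [← nsmul_eq_mul]
  refine sum_le_card_nsmul _ _ _ fun j hj => ?_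
  -- one row
  have row : ∀ y ∈ ys, |rowC μ s N δ B b0 b σ f y j - rowE μ s N δ B b0 b σ f y j| ≤
      |D| * (1 + B) * ∫ ω, (gm (wj μ s N (Pn N y) δ B b0 j ω 1) fun S => |gg μ s (Pn N y) δ B b ω j S -
        ge μ s N (Pn N y) δ B b0 b ω j S|) ∂(Pm μ N) +
      |D| * (1 + B) * ∫ ω, (gm (wj μ s N (Pn N y) δ B b0 j ω (-1)) fun S => |gg μ s (Pn N y) δ B b ω j S -
        ge μ s N (Pn N y) δ B b0 b ω j S|) ∂(Pm μ N) := fun y hy => by
    have := ne_Pn (hys y hy)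
    have mg0 := mG (μ := μ) (s := s) (Q := Pn N y) δ B b0 j
    have mg := mG (μ := μ) (s := s) (Q := Pn N y) δ B b j
    have mw : ∀ t : ℝ, Measurable fun ω => wj μ s N (Pn N y) δ B b0 j ω t := fun t => by
      simp only [wj_line]
      exact Pool.W7d29a1.C0.meas_line mg0 (mW δ B b0 j) t
    have mγ : Measurable fun ω => ge μ s N (Pn N y) δ B b0 b ω j := Pool.W7d29a1.C0.meas_gb81 _ (mW δ B b0 j) mg0
    have bg : ∀ ω S, |gg μ s (Pn N y) δ B b ω j S| ≤ B / 2 := fun ω S => abs_gg hB b ω j S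
    have bγ : ∀ ω S, |ge μ s N (Pn N y) δ B b0 b ω j S| ≤ B / 2 := fun ω S =>
      Pool.W7d29a1.C0.abs_gb81_le _ _ (abs_gg hB b0 ω j) S
    have bf : ∀ ω S, |f y ω S| ≤ |D| := fun ω S => (hf.bdd y ω S).trans (le_abs_self D)
    -- the integrands
    have mC : ∀ (a : ℝ) {γ : Env × Finset ℕ → Px (Pn N y) → ℝ}, Measurable γ → Measurable fun ω =>
        gc (wj μ s N (Pn N y) δ B b0 j ω a) (Zr (wj μ s N (Pn N y) δ B b0 j ω a) (pS σ j) a (γ ω)) (f y ω) := fun a γ hγ =>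
      Pool.W7d29a1.C0.meas_gcX (mw a) (meas_ZrX _ a (mw a) hγ) (mF hf y)
    have bC : ∀ (a : ℝ) {γ : Env × Finset ℕ → Px (Pn N y) → ℝ}, |a| = 1 → (∀ ω S, |γ ω S| ≤ B / 2) → ∀ ω,
        |gc (wj μ s N (Pn N y) δ B b0 j ω a) (Zr (wj μ s N (Pn N y) δ B b0 j ω a) (pS σ j) a (γ ω)) (f y ω)| ≤
          2 * ((B / 2 + 2 * (B / 2 * (B / 2))) * |D|) := fun a γ ha hγ ω =>
      Pool.W7d29a1.C0.abs_gc_le_X _ (fun x => abs_Zr_X _ _ ha (hγ ω) x) (bf ω)
    have a1 : |(1 : ℝ)| = 1 := abs_one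
    have a2 : |(-1 : ℝ)| = 1 := by rw [abs_neg, abs_one]
    have iA : ∀ {γ : Env × Finset ℕ → Px (Pn N y) → ℝ}, Measurable γ → (∀ ω S, |γ ω S| ≤ B / 2) → Integrable (fun ω =>
        Ac (fun a => gc (wj μ s N (Pn N y) δ B b0 j ω a) (Zr (wj μ s N (Pn N y) δ B b0 j ω a) (pS σ j) a (γ ω)) (f y ω)))
        (Pm μ N) := fun {γ} hγ bγ => by
      unfold Ac
      exact ((Pool.W7d29a1.C0.int_of_bdd44 (Pm μ N) (mC 1 hγ) (bC 1 a1 bγ)).add
        (Pool.W7d29a1.C0.int_of_bdd44 (Pm μ N) (mC (-1) hγ) (bC (-1) a2 bγ))).div_const 2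
    have mD : ∀ a : ℝ, Measurable fun ω => gm (wj μ s N (Pn N y) δ B b0 j ω a) fun S => |gg μ s (Pn N y) δ B b ω j S -
        ge μ s N (Pn N y) δ B b0 b ω j S| := fun a => Pool.W7d29a1.C0.meas_gmX (mw a)
      (measurable_pi_lambda _ fun S => (((measurable_pi_apply S).comp mg).sub ((measurable_pi_apply S).comp mγ)).abs)
    have bD : ∀ (a : ℝ) (ω : Env × Finset ℕ), |(gm (wj μ s N (Pn N y) δ B b0 j ω a) (fun S => |gg μ s (Pn N y) δ B b ω j S -
        ge μ s N (Pn N y) δ B b0 b ω j S|))| ≤ B := fun a ω => Pool.W7d29a1.C0.abs_gm_le_X _ fun S => by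
      rw [abs_abs]
      exact (abs_sub _ _).trans (by linarith [bg ω S, bγ ω S])
    have iD : ∀ a : ℝ, Integrable (fun ω => gm (wj μ s N (Pn N y) δ B b0 j ω a) fun S => |gg μ s (Pn N y) δ B b ω j S -
        ge μ s N (Pn N y) δ B b0 b ω j S|) (Pm μ N) := fun a => Pool.W7d29a1.C0.int_of_bdd44 (Pm μ N) (mD a) (bD a)
    -- pathwise
    have pw : ∀ (a : ℝ), |a| = 1 → ∀ ω,
        |gc (wj μ s N (Pn N y) δ B b0 j ω a) (Zr (wj μ s N (Pn N y) δ B b0 j ω a) (pS σ j) a (gg μ s (Pn N y) δ B b ω j)) (f y ω) -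
          gc (wj μ s N (Pn N y) δ B b0 j ω a) (Zr (wj μ s N (Pn N y) δ B b0 j ω a) (pS σ j) a
            (ge μ s N (Pn N y) δ B b0 b ω j)) (f y ω)| ≤
        2 * |D| * ((1 + B) * gm (wj μ s N (Pn N y) δ B b0 j ω a) fun S => |gg μ s (Pn N y) δ B b ω j S -
          ge μ s N (Pn N y) δ B b0 b ω j S|) := fun a ha ω => by
      rw [← Pool.W7d29a1.C0.gc_sub_left]
      refine (abs_gc_gm _ (bf ω) _).trans (mul_le_mul_of_nonneg_left ?_ (by positivity))
      refine (gm_Zr_sub _ _ ha (bg ω) (bγ ω)).trans (le_of_eq ?_)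
      ring_nf
    obtain ⟨C, hC⟩ : ∃ C : ℝ, C = |D| * (1 + B) := ⟨_, rfl⟩
    rw [← hC]
    unfold rowC rowE
    rw [← integral_sub (iA mg bg) (iA mγ bγ), ← integral_const_mul, ← integral_const_mul,
      ← integral_add ((iD 1).const_mul C) ((iD (-1)).const_mul C)]
    refine (abs_integral_le_integral_abs).trans (integral_mono_of_nonneg (Filter.Eventually.of_forall fun ω => abs_nonneg _)
      (((iD 1).const_mul C).add ((iD (-1)).const_mul C)) (Filter.Eventually.of_forall fun ω => ?_))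
    have p1 := pw 1 a1 ω
    have p2 := pw (-1) a2 ω
    show |Ac _ - Ac _| ≤ _
    unfold Ac
    beta_reduce
    rw [hC]
    rw [abs_le] at p1 p2 ⊢
    constructor <;> linarith [p1.1, p1.2, p2.1, p2.2]
  have e1 : avy ys (fun y => rowC μ s N δ B b0 b σ f y j) - avy ys (fun y => rowE μ s N δ B b0 b σ f y j) =
      (ys.card : ℝ)⁻¹ * ∑ y ∈ ys, (rowC μ s N δ B b0 b σ f y j - rowE μ s N δ B b0 b σ f y j) := by
    unfold avy
    rw [sum_sub_distrib]
    ring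
  rw [e1, abs_mul, abs_of_nonneg (by positivity : (0 : ℝ) ≤ (ys.card : ℝ)⁻¹)]
  have h1 := h j hj 1 (Or.inl rfl)
  have h2 := h j hj (-1) (Or.inr rfl)
  unfold avy at h1 h2
  have hc : 0 ≤ |D| * (1 + B) := by positivity
  calc (ys.card : ℝ)⁻¹ * |∑ y ∈ ys, (rowC μ s N δ B b0 b σ f y j - rowE μ s N δ B b0 b σ f y j)| ≤
        (ys.card : ℝ)⁻¹ * ∑ y ∈ ys, (|D| * (1 + B) * (∫ ω, (gm (wj μ s N (Pn N y) δ B b0 j ω 1) fun S =>
          |gg μ s (Pn N y) δ B b ω j S - ge μ s N (Pn N y) δ B b0 b ω j S|) ∂(Pm μ N)) +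
          |D| * (1 + B) * ∫ ω, (gm (wj μ s N (Pn N y) δ B b0 j ω (-1)) fun S =>
          |gg μ s (Pn N y) δ B b ω j S - ge μ s N (Pn N y) δ B b0 b ω j S|) ∂(Pm μ N)) :=
        mul_le_mul_of_nonneg_left ((abs_sum_le_sum_abs _ _).trans (sum_le_sum row)) (by positivity)
    _ ≤ |D| * (1 + B) * ε + |D| * (1 + B) * ε := by
        rw [sum_add_distrib, ← mul_sum, ← mul_sum]
        nlinarith [mul_le_mul_of_nonneg_left h1 hc, mul_le_mul_of_nonneg_left h2 hc]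
    _ = 2 * |D| * (1 + B) * ε := by ring

end

end Pool.Agent.W_7d29a1_C0.CrA44
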