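import Pool.Agent.W_7d29a1_C0.Frm33B

/-!
MP_7d29a1_pr, [CURV0] (helper33): WHAT IS LEFT AT THE CONCRETE FRAME: the cross terms `CrL33`, the change of the corrected scale `SigL33` and
the change of the base window `BasL33`, each for all small `δ`, then for all small `c` (`Sml`), with its own gain. `dlv_of33` gives `Dlv96`.
-/

set_option autoImplicit false

namespace Pool.Agent.W_7d29a1_C0.Frm33

open Finset MeasureTheory Filter Topology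
open Pool.Agent.W_7d29a1_H (EE)
open Pool.Agent.W_7d29a1_HS (In)
open Pool.Agent.W_7d29a1_LB (LB20)
open Pool.Agent.W_7d29a1_C0 Pool.Agent.W_7d29a1_C0.Asm96
open Pool.Agent.W_7d29a1_C0.Par92 (Sml Est)

noncomputable section

variable (μ : Measure ℝ) (s : ℝ) (K : ℕ) (Θ : ℝ)

/-- **The cross terms.** -/
def CrL33 : Prop := Sml fun δ => Sml fun c => ∃ c₁ : ℝ, 0 < c₁ ∧ Est fun ι β γ m => CrN μ s (frm33 μ s K ι β γ) (EE μ s) Θ δ c c₁ m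

/-- **The change of the corrected scale.** -/
def SigL33 : Prop := Sml fun δ => Sml fun c => ∀ η : ℝ, 0 < η → η ≤ c / 64 → ∃ c₂ : ℝ, 0 < c₂ ∧
  Est fun ι β γ m => SigN μ s (frm33 μ s K ι β γ) (EE μ s) Θ δ c η c₂ m

/-- **The change of the base window.** -/
def BasL33 : Prop := Sml fun δ => Sml fun c => ∀ η : ℝ, 0 < η → η ≤ c / 64 → ∃ c₂ : ℝ, 0 < c₂ ∧
  Est fun ι β γ m => BasN μ s (frm33 μ s K ι β γ) (EE μ s) Θ δ c η c₂ m

variable {μ s K Θ}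

theorem sigN_mono {F : Frm96} {E : ℕ → ℝ} {δ c η c₂ c₂' : ℝ} {m : ℕ} (h : SigN μ s F E Θ δ c η c₂ m) (hc : c₂' ≤ c₂) :
    SigN μ s F E Θ δ c η c₂' m := fun p p' q i hC hi =>
  (h p p' q i hC hi).trans (mul_le_mul_of_nonneg_left (Real.rpow_le_rpow_of_exponent_le (n_ge1 m) (by linarith)) (by positivity))

theorem basN_mono {F : Frm96} {E : ℕ → ℝ} {δ c η c₂ c₂' : ℝ} {m : ℕ} (h : BasN μ s F E Θ δ c η c₂ m) (hc : c₂' ≤ c₂) :
    BasN μ s F E Θ δ c η c₂' m := fun p p' q i hC hi =>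
  (h p p' q i hC hi).trans (mul_le_mul_of_nonneg_left (Real.rpow_le_rpow_of_exponent_le (n_ge1 m) (by linarith)) (by positivity))

/-- **What the assembly asks for.** -/
theorem dlv_of33 [IsProbabilityMeasure μ] (hLB : LB20 μ s) {c₂ C : ℝ} {n₀ : ℕ} (h : In μ s c₂ C n₀) (hk : KapLe96 (EE μ s) (1 / 4))
    (hcl : ClipP μ s) (hK : 32 ≤ K) (hΘ : 0 < Θ) (hCr : CrL33 μ s K Θ) (hS : SigL33 μ s K Θ) (hB : BasL33 μ s K Θ) :
    ∃ δ c : ℝ, 0 < δ ∧ δ ≤ Θ / 8 ∧ 0 < c ∧ c ≤ δ / 64 ∧ ∃ (F : ℝ → ℝ → ℝ → Frm96) (c₁ : ℝ), 0 < c₁ ∧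
      Dlv96 μ s F (EE μ s) Θ δ c c₁ := by
  obtain ⟨δ, hδ, hδΘ, ⟨h1, h2⟩, h3⟩ := ((Sml.and hCr hS).and hB).exists_le (show 0 < Θ / 8 by positivity)
  obtain ⟨c, hc, hcδ, ⟨⟨c₁, hc₁, h4⟩, h5⟩, h6⟩ := ((h1.and h2).and h3).exists_le (show 0 < δ / 64 by positivity)
  refine ⟨δ, c, hδ, hδΘ, hc, hcδ, frm33 μ s K, c₁, hc₁, dlv33 hLB h hk hcl hK hΘ hδ hc.le hcδ hc₁ h4 fun η hη hηc => ?_⟩
  obtain ⟨d₁, hd₁, h7⟩ := h5 η hη hηc
  obtain ⟨d₂, hd₂, h8⟩ := h6 η hη hηc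
  exact ⟨min d₁ d₂, lt_min hd₁ hd₂, h7.mono fun _ _ _ _ _ _ => Eventually.of_forall fun _ h9 => sigN_mono h9 (min_le_left _ _),
    h8.mono fun _ _ _ _ _ _ => Eventually.of_forall fun _ h9 => basN_mono h9 (min_le_right _ _)⟩

end

end Pool.Agent.W_7d29a1_C0.Frm33
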