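import Pool.Agent.W_7d29a1_C0.EstC46
import Pool.Agent.W_7d29a1_C0.Lft33

/-!
STORM C0 (helper46): THE CROSS TERMS AT THE CONCRETE FRAME of helper33: `CrL33` from the five leaves `E1L46`, `TL46`, `E2L46`, `E2aL46`,
`E2bL46` (each with its own gain and its own smallness of `δ`, `c`) and the clip error `ClL46`.
-/

set_option autoImplicit false

namespace Pool.Agent.W_7d29a1_C0.EstC46

open Finset MeasureTheory Filter Topology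
open Pool.Agent.W_7d29a1_H (EE EE_mono one_le_EE)
open Pool.Agent.W_7d29a1_HS (In wd)
open Pool.Agent.W_7d29a1_C0 Pool.Agent.W_7d29a1_C0.Asm96 Pool.Agent.W_7d29a1_C0.Frm33
open Pool.Agent.W_7d29a1_C0.Par92 (Sml Est)

noncomputable section

section defs

variable (μ : Measure ℝ) (s : ℝ) (K : ℕ) (Θ : ℝ)

/-- **(E1)**. -/
def E1L46 : Prop := Sml fun δ => Sml fun c => ∃ x : ℝ, 0 < x ∧ Est fun ι β γ m => E1N μ s (frm33 μ s K ι β γ) (EE μ s) Θ δ c x ι m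

/-- **(T)**. -/
def TL46 : Prop := Sml fun δ => Sml fun c => ∃ x : ℝ, 0 < x ∧ Est fun ι β γ m => TN μ s (frm33 μ s K ι β γ) (EE μ s) Θ δ c x ι m

/-- **(E2)**. -/
def E2L46 : Prop := Sml fun δ => Sml fun c => ∃ x : ℝ, 0 < x ∧ Est fun ι β γ m => E2N μ s (frm33 μ s K ι β γ) (EE μ s) Θ δ c x m

/-- **(E2a)**. -/
def E2aL46 : Prop := Sml fun δ => Sml fun c => ∃ x : ℝ, 0 < x ∧ Est fun ι β γ m => E2aN μ s (frm33 μ s K ι β γ) (EE μ s) Θ δ c x m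

/-- **(E2b)**. -/
def E2bL46 : Prop := Sml fun δ => Sml fun c => ∃ x : ℝ, 0 < x ∧ Est fun ι β γ m => E2bN μ s (frm33 μ s K ι β γ) (EE μ s) Θ δ c x m

/-- **The clip error.** -/
def ClL46 : Prop := Sml fun δ => Sml fun c => Est fun ι β γ m => ClN μ s (frm33 μ s K ι β γ) (EE μ s) δ c m

end defs

variable {μ : Measure ℝ} {s : ℝ} {K : ℕ} {Θ : ℝ}

/-- **The cross terms.** -/
theorem crL46 [IsProbabilityMeasure μ] {c₂ C : ℝ} {n₀ : ℕ} (h : In μ s c₂ C n₀) (hk : KapLe96 (EE μ s) (1 / 4)) (hK : 6 ≤ K)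
    (hΘ : 0 < Θ) {c₀ : ℝ} (hR : RegP46 μ s c₀ Θ) (h₁ : E1L46 μ s K Θ) (h₂ : TL46 μ s K Θ) (h₃ : E2L46 μ s K Θ)
    (h₄ : E2aL46 μ s K Θ) (h₅ : E2bL46 μ s K Θ) (h₆ : ClL46 μ s K) : CrL33 μ s K Θ := by
  have hall := ((Sml.and h₁ h₂).and (Sml.and h₃ h₄)).and (Sml.and h₅ h₆)
  refine hall.mono fun δ hδ h7 => ?_
  obtain ⟨⟨⟨g1, g2⟩, g3, g4⟩, g5, g6⟩ := h7
  have hall' := (((Sml.and g1 g2).and (Sml.and g3 g4)).and (Sml.and g5 g6)).and (Sml.le (show 0 < δ / 64 by positivity))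
  refine hall'.mono fun c hc h8 => ?_
  obtain ⟨⟨⟨⟨k1, k2⟩, k3, k4⟩, k5, k6⟩, hcδ⟩ := h8
  obtain ⟨a, _, _, hRe⟩ := hR
  exact cr46 hc hcδ ⟨c₀, a, (hRe δ (c / 4) hδ (by positivity)).mono fun m hm => hm.1⟩ (ok33 hK hΘ)
    (deep33 h hk hδ hc.le hcδ) (fun ι β γ m => Finset.Subset.refl _) k1 k2 k3 k4 k5 k6

end

end Pool.Agent.W_7d29a1_C0.EstC46
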