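import Pool.Agent.W_7d29a1_C0.ClF46
import Pool.Agent.W_7d29a1_C0.CrCl44
import Pool.Agent.W_7d29a1_C0.BasFr33
import Pool.Agent.W_7d29a1_C0.EstC46B

/-!
STORM C0 (helper46): THE CLIP ERRORS AT THE FRAME of helper33. `clF46`: the clip mean for all ends of `ys33`, signs and environment.
`clB46`: the clip error `ClB` of the base windows (E5). `clL46`: the clip error `ClL46` of the cross terms.
-/

set_option autoImplicit false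
set_option linter.unusedSectionVars false
set_option linter.unusedVariables false

namespace Pool.Agent.W_7d29a1_C0.Cl46

open Pool.Agent.W_7d29a1_F hiding W_pos W_nonneg W_add
open Finset MeasureTheory Filter Topology Pool.Agent.W_7d29a1_X
open Pool.Agent.W_7d29a1_H (sl EE)
open Pool.Agent.W_7d29a1_HS (In wd)
open Pool.Agent.W_7d29a1_HZ (wd')
open Pool.Agent.W_7d29a1_C0 Pool.Agent.W_7d29a1_C0.Mod92 Pool.Agent.W_7d29a1_C0.Flip61 Pool.Agent.W_7d29a1_C0.Pin18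
open Pool.Agent.W_7d29a1_C0.Frm33 Pool.Agent.W_7d29a1_C0.Asm96 Pool.Agent.W_7d29a1_C0.EstC46 Pool.Agent.W_7d29a1_C0.Base5
open Pool.Agent.W_7d29a1_C0.CrA44
open Pool.Agent.W_7d29a1_C0.Par92 (Sml Est)
open Pool.W7d29a1.C0 (gm_nonneg)

noncomputable section

variable {μ : Measure ℝ} {s : ℝ} [IsProbabilityMeasure μ] {c₁ C : ℝ} {n₀ : ℕ}

/-- **THE CLIP MEAN AT THE FRAME**, one pinned end. -/
theorem clF46 (h : In μ s c₁ C n₀) {K : ℕ} (hK : 32 ≤ K) {κ β : ℝ} (hκ : 0 < κ) (hβ : 0 < β) (hβ1 : β ≤ 1) :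
    ∃ γ₀ : ℝ, 0 < γ₀ ∧ ∀ γ : ℝ, 0 < γ → γ ≤ γ₀ → ∃ c' : ℝ, 0 < c' ∧ ∀ᶠ m : ℕ in atTop, ∀ b0 b j : ℕ,
      ((2 ^ m : ℕ) : ℝ) ^ κ ≤ b0 → b0 ≤ b → b0 ≤ 2 ^ m → b ≤ j → j + b ≤ L33 K m → ∀ t : ℝ, (t = 1 ∨ t = -1) →
        ∀ y ∈ ys33 μ s K m, ∫ ω, cm46 μ s (L33 K m) γ (B33 β m) b0 b j t y ω ∂(Pm μ (L33 K m)) ≤ Real.exp (-(L33 K m : ℝ) ^ c') := by
  have hK0 : (0 : ℝ) < K := by
    have : (32 : ℝ) ≤ K := by exact_mod_cast hK
    linarith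
  obtain ⟨γ₀, hγ₀, H⟩ := clN46 h (show 0 < κ / K by positivity) (show 0 < β / K by positivity)
  refine ⟨γ₀, hγ₀, fun γ hγ hγ' => ?_⟩
  obtain ⟨δ, c', hδ, hc', N₀, H⟩ := H γ hγ hγ'
  refine ⟨c', hc', ?_⟩
  filter_upwards [ev_L (by omega : 1 ≤ K) N₀, cone33 h hK hδ, ev_n one_pos 6] with m h1 h2 h3 b0 b j hb0 hbb hbn hbj hjL t ht y hy
  have ek : (L33 K m : ℝ) ^ (κ / K) = ((2 ^ m : ℕ) : ℝ) ^ κ := by
    rw [L33_pow]
    congr 1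
    field_simp
  have eβ : (L33 K m : ℝ) ^ (β / K) = B33 β m := by
    unfold B33
    rw [L33_pow]
    congr 1
    field_simp
  have h3b : 6 * b0 ≤ L33 K m := by
    rw [Real.rpow_one] at h3
    have e3 : 6 ≤ 2 ^ m := by exact_mod_cast h3
    have e4 : 2 ^ m * 2 ^ m ≤ L33 K m := by
      unfold L33
      rw [← pow_add]
      exact Nat.pow_le_pow_right two_pos (by nlinarith)
    exact (Nat.mul_le_mul e3 hbn).trans e4
  have hBL : B33 β m ≤ (L33 K m : ℝ) := by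
    have hn1 := n_ge1 m
    unfold B33
    calc ((2 ^ m : ℕ) : ℝ) ^ β ≤ ((2 ^ m : ℕ) : ℝ) ^ (1 : ℝ) := Real.rpow_le_rpow_of_exponent_le hn1 hβ1
      _ = ((2 ^ m : ℕ) : ℝ) := Real.rpow_one _
      _ ≤ _ := by exact_mod_cast L33_ge (by omega : 1 ≤ K) m
  have hB0 : 0 ≤ B33 β m := Real.rpow_nonneg (by positivity) _
  have hy' := mem_Ico.1 (show y ∈ Ico (y33 μ s K m) (y33 μ s K m + M33 m) from hy)
  obtain ⟨g1, g2, g3⟩ := h2
  have hyL : y < L33 K m := by omega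
  rw [int_Pm]
  · have h4 : ∀ A ∈ (range (L33 K m)).powerset, ∫ η, cm46 μ s (L33 K m) γ (B33 β m) b0 b j t y (η, A) ∂(law μ) ≤
        Real.exp (-(L33 K m : ℝ) ^ c') := fun A _ => by
      refine H (L33 K m) h1 y (by omega) hyL (fun z hz => (g3 z ?_ ?_).2) (B33 β m) (by rw [eβ]) hBL b0 b j (by rw [ek]; exact hb0)
        hbb hbj hjL h3b A t ht
      · rcases hz with h5 | h5 | h5 <;> rw [h5] <;> omega
      · rcases hz with h5 | h5 | h5 <;> rw [h5] <;> omega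
    have h5 := sum_le_card_nsmul _ _ _ h4
    rw [card_powerset, card_range, nsmul_eq_mul] at h5
    have h6 := mul_le_mul_of_nonneg_left h5 (show (0 : ℝ) ≤ (2 ^ (L33 K m) : ℝ)⁻¹ by positivity)
    refine h6.trans (le_of_eq ?_)
    push_cast
    rw [← mul_assoc, inv_mul_cancel₀ (by positivity), one_mul]
  · intro A _
    exact Integrable.of_bound ((meas_cm46 hyL.le _ _ _ _ _ _).comp (meas_pair A)).aestronglyMeasurable (B33 β m)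
      (Eventually.of_forall fun η => by
        rw [Real.norm_eq_abs]
        exact abs_cm46 hyL.le γ hB0 b0 b j t (η, A))
  · intro A
    exact (meas_cm46 hyL.le _ _ _ _ _ _).comp (meas_pair A)

theorem avy_le46 {ys : Finset ℕ} {Φ : ℕ → ℝ} {E : ℝ} (hE : 0 ≤ E) (h : ∀ y ∈ ys, Φ y ≤ E) : avy ys Φ ≤ E := by
  unfold avy
  rcases ys.eq_empty_or_nonempty with h0 | h0
  · rw [h0, sum_empty, mul_zero]
    exact hE
  · have h1 := sum_le_card_nsmul ys Φ E h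
    rw [nsmul_eq_mul] at h1
    have h2 : (0 : ℝ) < ys.card := by exact_mod_cast h0.card_pos
    calc (ys.card : ℝ)⁻¹ * ∑ y ∈ ys, Φ y ≤ (ys.card : ℝ)⁻¹ * (ys.card * E) := mul_le_mul_of_nonneg_left h1 (by positivity)
      _ = E := by field_simp

/-- The small number against the powers. -/
theorem ev_pow46 {K : ℕ} (hK : 32 ≤ K) {c' : ℝ} (hc' : 0 < c') : ∀ᶠ m : ℕ in atTop,
    Real.exp (-(L33 K m : ℝ) ^ c') ≤ 1 / 64 * (((2 ^ m : ℕ) : ℝ) ^ 5)⁻¹ := by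
  filter_upwards [ev_z hK hc', ev_n one_pos 64] with m h1 h2
  obtain ⟨n, hn⟩ : ∃ n : ℝ, n = ((2 ^ m : ℕ) : ℝ) := ⟨_, rfl⟩
  obtain ⟨L, hL⟩ : ∃ L : ℝ, L = ((L33 K m : ℕ) : ℝ) := ⟨_, rfl⟩
  obtain ⟨z, hz⟩ : ∃ z, z = Real.exp (-(L33 K m : ℝ) ^ c') := ⟨_, rfl⟩
  have hz0 : 0 < z := by rw [hz]; exact Real.exp_pos _
  have hn1 : 1 ≤ n := hn ▸ n_ge1 m
  rw [← hn, Real.rpow_one] at h2
  have hLn : n ≤ L := by
    rw [hn, hL]
    exact_mod_cast L33_ge (by omega : 1 ≤ K) m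
  rw [← hz, ← hL, ← hn] at h1
  rw [← hz, ← hn]
  have h3 : 64 * n * z ≤ L ^ 2 * z := mul_le_mul_of_nonneg_right (by nlinarith) hz0.le
  have h4 := h3.trans h1
  have e : (n ^ 5)⁻¹ = (n ^ 4)⁻¹ * n⁻¹ := by
    rw [← mul_inv, ← pow_succ]
  rw [e]
  have hn0 : 0 < n := by linarith
  have h5 := mul_le_mul_of_nonneg_right h4 (show 0 ≤ n⁻¹ by positivity)
  have e2 : 64 * n * z * n⁻¹ = 64 * z := by field_simp
  rw [e2] at h5
  linarith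

/-- The clipping error of `Base5` is the clip mean at the actual corner. -/
theorem cl5_le46 {N y : ℕ} (hy : y ≤ N) (γ B : ℝ) (b0 b j : ℕ) (ω : Env × Finset ℕ) :
    cl5 μ s N (Pn N y) γ B b0 b ω j ≤ cm46 μ s N γ B b0 b j 1 y ω + cm46 μ s N γ B b0 b j (-1) y ω := by
  have e : cl5 μ s N (Pn N y) γ B b0 b ω j = cm46 μ s N γ B b0 b j (sg ω.2 j : ℝ) y ω := by
    unfold cl5 cm46 wj
    rw [wt_self]
    rfl
  have h1 := cm_nonneg46 (μ := μ) (s := s) hy γ B b0 b j 1 ω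
  have h2 := cm_nonneg46 (μ := μ) (s := s) hy γ B b0 b j (-1) ω
  rw [e]
  rcases sg_or ω.2 j with h | h <;> rw [h] <;> push_cast <;> linarith

/-- **The clip error of the base windows** (E5): `ClB` of `BasSt33`. -/
theorem clB46 (h : In μ s c₁ C n₀) {K : ℕ} (hK : 32 ≤ K) {δ : ℝ} (hδ : 0 < δ) :
    Est fun ι β γ m => ClB μ s (frm33 μ s K ι β γ) δ m := by
  refine ⟨δ / 4, by positivity, fun ι _ hι => ⟨1, one_pos, fun β hβ hβ1 => ?_⟩⟩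
  obtain ⟨γ₀, hγ₀, H⟩ := clF46 h hK (show 0 < δ / 4 by positivity) hβ hβ1
  refine ⟨γ₀, hγ₀, fun γ hγ hγ' => ?_⟩
  obtain ⟨c', hc', H⟩ := H γ hγ hγ'
  filter_upwards [H, b0_33 hδ hι, ev_pow46 hK hc'] with m h1 h2 h3 p p₁ hp hpp hpm j hj1 hj2
  have hL : 2 ^ m ≤ L33 K m := L33_ge (by omega) m
  have hb : 2 ^ (p - ⌈ι * (m : ℝ)⌉₊) ≤ 2 ^ p₁ := Nat.pow_le_pow_right two_pos ((Nat.sub_le _ _).trans hpp)
  have hbm : 2 ^ (p - ⌈ι * (m : ℝ)⌉₊) ≤ 2 ^ m := hb.trans (Nat.pow_le_pow_right two_pos hpm)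
  have hB0 : 0 ≤ B33 β m := Real.rpow_nonneg (by positivity) _
  have key : ∀ y ∈ ys33 μ s K m, ∫ ω, cl5 μ s (L33 K m) (Pn (L33 K m) y) γ (B33 β m) (2 ^ (p - ⌈ι * (m : ℝ)⌉₊)) (2 ^ p₁) ω j
      ∂(Pm μ (L33 K m)) ≤ 2 * Real.exp (-(L33 K m : ℝ) ^ c') := fun y hy => by
    have hyL := hy33 (by omega : 6 ≤ K) m y hy
    have n1 := ne_Pn hyL
    have k1 := h1 _ (2 ^ p₁) j (h2 p hp) hb hbm hj1 (hj2.trans hL) 1 (Or.inl rfl) y hy
    have k2 := h1 _ (2 ^ p₁) j (h2 p hp) hb hbm hj1 (hj2.trans hL) (-1) (Or.inr rfl) y hy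
    have i1 : ∀ t : ℝ, Integrable (cm46 μ s (L33 K m) γ (B33 β m) (2 ^ (p - ⌈ι * (m : ℝ)⌉₊)) (2 ^ p₁) j t y) (Pm μ (L33 K m)) :=
      fun t => Pool.W7d29a1.C0.int_of_bdd44 _ (meas_cm46 hyL _ _ _ _ _ _) (abs_cm46 hyL γ hB0 _ _ _ _)
    have k3 := integral_mono_of_nonneg (μ := Pm μ (L33 K m)) (f := fun ω => cl5 μ s (L33 K m) (Pn (L33 K m) y) γ (B33 β m)
      (2 ^ (p - ⌈ι * (m : ℝ)⌉₊)) (2 ^ p₁) ω j) (Eventually.of_forall fun ω => gm_nonneg _ fun _ => abs_nonneg _)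
      ((i1 1).add (i1 (-1))) (Eventually.of_forall fun ω => cl5_le46 hyL γ (B33 β m) _ _ j ω)
    refine k3.trans ?_
    have k4 := integral_add (i1 1) (i1 (-1))
    have k5 : ∫ ω, (cm46 μ s (L33 K m) γ (B33 β m) (2 ^ (p - ⌈ι * (m : ℝ)⌉₊)) (2 ^ p₁) j 1 y +
        cm46 μ s (L33 K m) γ (B33 β m) (2 ^ (p - ⌈ι * (m : ℝ)⌉₊)) (2 ^ p₁) j (-1) y) ω ∂(Pm μ (L33 K m)) ≤
        2 * Real.exp (-(L33 K m : ℝ) ^ c') := by
      simp only [Pi.add_apply]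
      rw [k4]
      linarith
    exact k5
  refine (avy_le46 (by positivity) key).trans ?_
  obtain ⟨n, hn⟩ : ∃ n : ℝ, n = ((2 ^ m : ℕ) : ℝ) := ⟨_, rfl⟩
  have hn1 : 1 ≤ n := hn ▸ n_ge1 m
  have hn0 : 0 < n := by linarith
  rw [← hn] at h3 ⊢
  have e4 : n ^ (-4 : ℝ) = (n ^ 4)⁻¹ := by
    rw [Real.rpow_neg hn0.le, ← Real.rpow_natCast n 4]
    norm_num
  have e5 : (n ^ 5)⁻¹ ≤ (n ^ 4)⁻¹ := inv_anti₀ (by positivity) (pow_le_pow_right₀ hn1 (by norm_num))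
  have e6 : 0 < (n ^ 5)⁻¹ := by positivity
  rw [e4]
  linarith

/-- **The clip error of the cross terms.** -/
theorem clL46 (h : In μ s c₁ C n₀) (hk : KapLe96 (EE μ s) (1 / 4)) {K : ℕ} (hK : 32 ≤ K) : ClL46 μ s K := by
  refine Sml.of fun δ hδ => (Sml.le (show 0 < δ / 64 by positivity)).mono fun c hc hcδ => ?_
  refine ⟨δ / 16, by positivity, fun ι _ hι => ⟨1, one_pos, fun β hβ hβ1 => ?_⟩⟩
  obtain ⟨γ₀, hγ₀, H⟩ := clF46 h hK (show 0 < δ / 4 by positivity) hβ hβ1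
  refine ⟨γ₀, hγ₀, fun γ hγ hγ' => ?_⟩
  obtain ⟨c', hc', H⟩ := H γ hγ hγ'
  filter_upwards [H, b0_33 hδ (show ι ≤ δ / 4 by linarith), ev_pow46 hK hc', deep33_ev h hk hδ hc.le hcδ hι, eventually_ge_atTop 1]
    with m h1 h2 h3 h4 hm1 p q i hst hi D f hD hf
  have hsm : sg96 (EE μ s) c m p ≤ m := hst.hsq.trans hst.hqm
  have hpm : p ≤ m := hst.hps.trans hsm
  have dp : Deep (R33 ι m) (2 ^ p) (2 ^ sg96 (EE μ s) c m p) := (h4 p hst.hp hsm).mono (by omega)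
  have hB0 : 0 ≤ B33 β m := Real.rpow_nonneg (by positivity) _
  obtain ⟨z, hz⟩ : ∃ z, z = Real.exp (-(L33 K m : ℝ) ^ c') := ⟨_, rfl⟩
  have hz0 : 0 < z := by rw [hz]; exact Real.exp_pos _
  have hL2 : 2 ^ m + 2 ^ m ≤ L33 K m := by
    have e : 2 ^ m + 2 ^ m = 2 ^ (m + 1) := by ring
    rw [e]
    exact Nat.pow_le_pow_right two_pos (by nlinarith)
  have hP := PCl_of44 (μ := μ) (s := s) (ys := ys33 μ s K m) (R := R33 ι m) (hy33 (by omega : 6 ≤ K) m) (δ := γ) hB0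
    (b0 := 2 ^ (p - ⌈ι * (m : ℝ)⌉₊)) (b := 2 ^ p) (σ := 2 ^ sg96 (EE μ s) c m p) hf (ε := z) (fun j hj a ha => by
      unfold Rw at hj
      rw [mem_inter] at hj
      have hj1 := (dp j hj.1).1
      have hj2 := mem_range.1 (R33_sub ι m hj.1)
      have hpp : 2 ^ p ≤ 2 ^ m := Nat.pow_le_pow_right two_pos hpm
      have hb : 2 ^ (p - ⌈ι * (m : ℝ)⌉₊) ≤ 2 ^ p := Nat.pow_le_pow_right two_pos (Nat.sub_le _ _)
      exact avy_le46 hz0.le fun y hy => hz ▸ h1 _ (2 ^ p) j (h2 p hst.hp) hb (hb.trans hpp) (by omega) (by omega) a ha y hy)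
  have hD0 : 0 ≤ D := by
    obtain ⟨S⟩ := ne_Pn (Nat.zero_le (L33 K m))
    exact (abs_nonneg _).trans (hf.bdd 0 (fun _ => 0, ∅) S)
  show PCl μ s (L33 K m) γ (B33 β m) (2 ^ (p - ⌈ι * (m : ℝ)⌉₊)) (2 ^ p) (2 ^ sg96 (EE μ s) c m p) f (ys33 μ s K m) (R33 ι m)
    (i * 2 ^ q) ((i + 1) * 2 ^ q) (1 / 8)
  unfold PCl at hP ⊢
  refine hP.trans ?_
  obtain ⟨n, hn⟩ : ∃ n : ℝ, n = ((2 ^ m : ℕ) : ℝ) := ⟨_, rfl⟩
  have hn1 : 1 ≤ n := hn ▸ n_ge1 m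
  have hn0 : 0 < n := by linarith
  rw [← hz, ← hn] at h3
  rw [← hn] at hD
  have hcard : ((Rw (R33 ι m) (i * 2 ^ q) ((i + 1) * 2 ^ q)).card : ℝ) ≤ n := by
    rw [hn]
    exact_mod_cast (card_le_card inter_subset_left).trans (R33_card ι m)
  have hBn : B33 β m ≤ n := by
    unfold B33
    rw [← hn]
    calc n ^ β ≤ n ^ (1 : ℝ) := Real.rpow_le_rpow_of_exponent_le hn1 hβ1
      _ = n := Real.rpow_one _
  rw [abs_of_nonneg hD0]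
  calc ((Rw (R33 ι m) (i * 2 ^ q) ((i + 1) * 2 ^ q)).card : ℝ) * (2 * D * (1 + B33 β m) * z)
      ≤ n * (2 * n ^ 3 * (2 * n) * (1 / 64 * (n ^ 5)⁻¹)) := by
        have e1 : 1 + B33 β m ≤ 2 * n := by linarith
        gcongr
    _ = 1 / 16 := by
        field_simp
        norm_num
    _ ≤ 1 / 8 := by norm_num

end

end Pool.Agent.W_7d29a1_C0.Cl46
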