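import Pool.Agent.W_7d29a1_C0.E2bN44
import Pool.Agent.W_7d29a1_C0.EstC46B

/-!
CURV0 (MP_7d29a1_pr, helper44): THE CROSS TERMS AT THE CONCRETE FRAME. `CrT44`: what is left of the cross terms (covariant spectators): (E1),
(T), (E2), (E2a), the strip, the second moment `X2N` of the double tie, the clipping `CmN`. **`crLv44`**: they give `CrLv33`.
`e1V_of46`, ..: the targets of helper46 (all spectators) are enough.
-/

set_option autoImplicit false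

namespace Pool.Agent.W_7d29a1_C0.EstD44

open Finset MeasureTheory Filter Topology
open Pool.Agent.W_7d29a1_H (EE)
open Pool.Agent.W_7d29a1_HS (In)
open Pool.Agent.W_7d29a1_C0 Pool.Agent.W_7d29a1_C0.Asm96 Pool.Agent.W_7d29a1_C0.Frm33 Pool.Agent.W_7d29a1_C0.EstC46
open Pool.Agent.W_7d29a1_C0.Par92 (Sml Est)

noncomputable section

variable {μ : Measure ℝ} {s : ℝ} {F : Frm96} {E : ℕ → ℝ} {Θ δ c x ι c₀ : ℝ} {m : ℕ}

theorem e1V_of46 (h : E1N μ s F E Θ δ c x ι m) : E1V μ s F E Θ δ c x ι m := Bl44.of46 h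

theorem tV_of46 (h : TN μ s F E Θ δ c x ι m) : TV μ s F E Θ δ c x ι m := Bl44.of46 h

theorem e2V_of46 (h : E2N μ s F E Θ δ c x m) : E2V μ s F E Θ δ c x m := Bl44.of46 h

theorem e2aV_of46 (h : E2aN μ s F E Θ δ c x m) : E2aV μ s F E Θ δ c x m := Bl44.of46 h

variable (μ s Θ) in
/-- **What is left of the cross terms**, at the concrete frame. -/
structure CrT44 (K : ℕ) (δ c : ℝ) : Prop where
  e1 : ∃ x : ℝ, 0 < x ∧ Est fun ι β γ m => E1V μ s (frm33 μ s K ι β γ) (EE μ s) Θ δ c x ι m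
  t : ∃ x : ℝ, 0 < x ∧ Est fun ι β γ m => TV μ s (frm33 μ s K ι β γ) (EE μ s) Θ δ c x ι m
  e2 : ∃ x : ℝ, 0 < x ∧ Est fun ι β γ m => E2V μ s (frm33 μ s K ι β γ) (EE μ s) Θ δ c x m
  e2a : ∃ x : ℝ, 0 < x ∧ Est fun ι β γ m => E2aV μ s (frm33 μ s K ι β γ) (EE μ s) Θ δ c x m
  e2b : E2T44 μ s Θ K δ c

/-- **THE CROSS TERMS AT THE CONCRETE FRAME.** -/
theorem crLv44 [IsProbabilityMeasure μ] {c₁ C : ℝ} {n₀ : ℕ} (h : In μ s c₁ C n₀) (hk : KapLe96 (EE μ s) (1 / 4)) {K : ℕ}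
    (hK : 32 ≤ K) (hΘ : 0 < Θ) (hΘ1 : Θ ≤ 1) (hR : RegP46 μ s c₀ Θ) (H : Sml fun δ => Sml fun c => CrT44 μ s Θ K δ c) :
    CrLv33 μ s K Θ := by
  have hb : E2cL44 μ s Θ K := e2cL44 h hk hK hΘ hΘ1 hR (H.mono fun δ _ H1 => H1.mono fun c _ H2 => H2.e2b)
  refine (H.and hb).mono fun δ hδ H1 => ?_
  obtain ⟨H1, H2⟩ := H1
  refine ((H1.and H2).and (Sml.le (show 0 < δ / 64 by positivity))).mono fun c hc H3 => ?_
  obtain ⟨⟨H3, H4⟩, hcδ⟩ := H3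
  obtain ⟨a, _, _, hRe⟩ := hR
  have hcl : Est fun ι β γ m => ClV μ s (frm33 μ s K ι β γ) (EE μ s) δ c m := by
    refine ((H3.e2b.cm.and (ok33 (μ := μ) (s := s) (show 6 ≤ K by omega) hΘ)).and
      (Est.of_ev (pow_ev96 one_pos 64))).mono fun ι β γ _ _ _ => Eventually.of_forall fun m hm => ?_
    obtain ⟨⟨g1, g2⟩, g3⟩ := hm
    rw [Real.rpow_one] at g3
    exact Bl44.of46 (clv44 g2 hΘ1 g3 g1)
  exact cr44 hc hcδ ⟨c₀, a, (hRe δ (c / 4) hδ (by positivity)).mono fun m hm => hm.1⟩ (ok33 (by omega) hΘ)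
    (deep33 h hk hδ hc.le hcδ) (fun ι β γ m => Finset.Subset.refl _) H3.e1 H3.t H3.e2 H3.e2a H4 hcl

end

end Pool.Agent.W_7d29a1_C0.EstD44
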