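import Pool.Agent.W_7d29a1_C0.ClG46
import Pool.Agent.W_7d29a1_C0.EstE44

/-!
STORM C0 (helper46): `cmN46`: THE CLIPPING `CmN` of the cross terms of helper44 (the field `cm` of `E2T44`), from `clF46`.
-/

set_option autoImplicit false
set_option linter.unusedSectionVars false
set_option linter.unusedVariables false

namespace Pool.Agent.W_7d29a1_C0.Cl46

open Finset MeasureTheory Filter Topology
open Pool.Agent.W_7d29a1_H (EE)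
open Pool.Agent.W_7d29a1_HS (In)
open Pool.Agent.W_7d29a1_C0 Pool.Agent.W_7d29a1_C0.Mod92
open Pool.Agent.W_7d29a1_C0.Frm33 Pool.Agent.W_7d29a1_C0.Asm96 Pool.Agent.W_7d29a1_C0.EstD44
open Pool.Agent.W_7d29a1_C0.Par92 (Sml Est)

noncomputable section

variable {μ : Measure ℝ} {s : ℝ} [IsProbabilityMeasure μ] {c₁ C : ℝ} {n₀ : ℕ}

/-- The small number against the powers. -/
theorem ev_six46 {K : ℕ} (hK : 32 ≤ K) {c' : ℝ} (hc' : 0 < c') : ∀ᶠ m : ℕ in atTop,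
    Real.exp (-(L33 K m : ℝ) ^ c') ≤ ((2 ^ m : ℕ) : ℝ) ^ (-6 : ℝ) := by
  filter_upwards [ev_z hK hc'] with m h1
  obtain ⟨n, hn⟩ : ∃ n : ℝ, n = ((2 ^ m : ℕ) : ℝ) := ⟨_, rfl⟩
  obtain ⟨L, hL⟩ : ∃ L : ℝ, L = ((L33 K m : ℕ) : ℝ) := ⟨_, rfl⟩
  obtain ⟨z, hz⟩ : ∃ z, z = Real.exp (-(L33 K m : ℝ) ^ c') := ⟨_, rfl⟩
  have hz0 : 0 < z := by rw [hz]; exact Real.exp_pos _
  have hn1 : 1 ≤ n := hn ▸ n_ge1 m
  have hn0 : 0 < n := by linarith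
  have hLn : n ≤ L := by
    rw [hn, hL]
    exact_mod_cast L33_ge (by omega : 1 ≤ K) m
  rw [← hz, ← hL, ← hn] at h1
  rw [← hz, ← hn]
  have h3 : n ^ 2 * z ≤ L ^ 2 * z := mul_le_mul_of_nonneg_right (pow_le_pow_left₀ hn0.le hLn 2) hz0.le
  have h4 := h3.trans h1
  have e4 : n ^ (-6 : ℝ) = (n ^ 2)⁻¹ * (n ^ 4)⁻¹ := by
    rw [Real.rpow_neg hn0.le, ← mul_inv, ← pow_add, ← Real.rpow_natCast n (2 + 4)]
    norm_num
  rw [e4]
  have h5 := mul_le_mul_of_nonneg_left h4 (show 0 ≤ (n ^ 2)⁻¹ by positivity)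
  rwa [← mul_assoc, inv_mul_cancel₀ (by positivity), one_mul] at h5

/-- **The clipping at both corners**, the field `cm` of `E2T44`. -/
theorem cmN46 (h : In μ s c₁ C n₀) (hk : KapLe96 (EE μ s) (1 / 4)) {K : ℕ} (hK : 32 ≤ K) {δ c : ℝ} (hδ : 0 < δ) (hc : 0 < c)
    (hcδ : c ≤ δ / 64) : Est fun ι β γ m => CmN μ s (frm33 μ s K ι β γ) (EE μ s) δ c m := by
  refine ⟨δ / 16, by positivity, fun ι _ hι => ⟨1, one_pos, fun β hβ hβ1 => ?_⟩⟩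
  obtain ⟨γ₀, hγ₀, H⟩ := clF46 h hK (show 0 < δ / 4 by positivity) hβ hβ1
  refine ⟨γ₀, hγ₀, fun γ hγ hγ' => ?_⟩
  obtain ⟨c', hc', H⟩ := H γ hγ hγ'
  filter_upwards [H, b0_33 hδ (show ι ≤ δ / 4 by linarith), ev_six46 hK hc', deep33_ev h hk hδ hc.le hcδ hι, eventually_ge_atTop 1]
    with m h1 h2 h3 h4 hm1 p q i hst hi j hj a ha
  have hsm : sg96 (EE μ s) c m p ≤ m := hst.hsq.trans hst.hqm
  have hpm : p ≤ m := hst.hps.trans hsm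
  have dp : Deep (R33 ι m) (2 ^ p) (2 ^ sg96 (EE μ s) c m p) := (h4 p hst.hp hsm).mono (by omega)
  have hL2 : 2 ^ m + 2 ^ m ≤ L33 K m := by
    have e : 2 ^ m + 2 ^ m = 2 ^ (m + 1) := by ring
    rw [e]
    exact Nat.pow_le_pow_right two_pos (by nlinarith)
  have hj' : j ∈ Rw (R33 ι m) (i * 2 ^ q) ((i + 1) * 2 ^ q) := hj
  unfold Rw at hj'
  rw [mem_inter] at hj'
  have hj1 := (dp j hj'.1).1
  have hj2 := mem_range.1 (R33_sub ι m hj'.1)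
  have hpp : 2 ^ p ≤ 2 ^ m := Nat.pow_le_pow_right two_pos hpm
  have hb : 2 ^ (p - ⌈ι * (m : ℝ)⌉₊) ≤ 2 ^ p := Nat.pow_le_pow_right two_pos (Nat.sub_le _ _)
  refine (avy_le46 (Real.exp_pos _).le fun y hy => ?_).trans h3
  exact h1 _ (2 ^ p) j (h2 p hst.hp) hb (hb.trans hpp) (by omega) (by omega) a ha y hy

end

end Pool.Agent.W_7d29a1_C0.Cl46
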