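import Pool.Agent.W_7d29a1_C0.FlipA61
import Pool.Agent.W_7d29a1_C0.Mod92C

/-!
CURV0 (MP_7d29a1_pr), E7, LAW INVARIANCE, averaged over the environment, the signs and the pinned ends. `Cov1`: one covariant function;
`cov_gj` (the half response of the flipped row, any base), `cov_Zm`, `cov_Zs`, `cov_fR` (block functionals of the blocks disjoint from the
window, frame NG), `cov_ps` (position behind the window, seen from the end). `fl_even`: the mean of an expression is the mean over both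
corners of the row `j`; `fl_odd`, `fl_pos`: the half differences (FL1, FL2 of the contracts). (helper61)
-/

set_option autoImplicit false
set_option linter.unusedSectionVars false

namespace Pool.Agent.W_7d29a1_C0.Flip61

open Pool.Agent.W_7d29a1_F hiding W_pos W_nonneg W_add
open Finset MeasureTheory Pool.Agent.W_7d29a1_X Pool.Agent.W_7d29a1_HZ
open Pool.Agent.W_7d29a1_Z74
open Pool.Agent.W_7d29a1_HZ.Z74
open Pool.Agent.W_7d29a1_C0.Mod92
open Pool.Agent.W_7d29a1_C0.Blk18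
open Pool.Agent.W_7d29a1_C0.Pin18
open Pool.W7d29a1.C0 (gz gm gz_pos gz_ne gm_const gm_mono gm_nonneg)
open Pool.W7d29a1.C0.VT31 (Mp Crs cE cV cC gc gv)

noncomputable section

variable {μ : Measure ℝ} {s : ℝ} {N b j : ℕ}

/-! ### Covariant functions -/

/-- **One covariant function** for the flip of the row `j` with the window at the base `b`. -/
structure Cov1 (N b j : ℕ) (f : (y : ℕ) → Env × Finset ℕ → Px (Pn N y) → ℝ) (M : ℝ) : Prop where
  pos : 0 ≤ M
  bdd : ∀ y ω S, |f y ω S| ≤ M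
  mes : ∀ y S, Measurable fun ω => f y ω S
  mp : ∀ y ω, Mp (pJ (j - b) (j + b)) (f y ω)
  eqv : ∀ y, 1 ≤ y → y < N → ∀ ω, Eqv (j - b) (j + b - (j - b)) (-sg ω.2 j) (f y ω) (f (nb (sg ω.2 j) y) (Tj j ω))

theorem cov_of {ι : Type*} {h : (y : ℕ) → Env × Finset ℕ → ι → Px (Pn N y) → ℝ} {bb : ι → ℝ}
    (H : ∀ i, Cov1 N b j (fun y ω => h y ω i) (bb i)) : Cov N b j h bb where
  pos i := (H i).pos
  bdd y ω i S := (H i).bdd y ω S
  mes y i S := (H i).mes y S
  mp y ω i := (H i).mp y ω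
  eqv y hy hyN ω i := (H i).eqv y hy hyN ω

namespace Cov1

variable {f g : (y : ℕ) → Env × Finset ℕ → Px (Pn N y) → ℝ} {M M' : ℝ}

theorem mono (h : Cov1 N b j f M) (hM : M ≤ M') : Cov1 N b j f M' where
  pos := h.pos.trans hM
  bdd y ω S := (h.bdd y ω S).trans hM
  mes := h.mes
  mp := h.mp
  eqv := h.eqv

theorem const (r : ℝ) : Cov1 N b j (fun _ _ _ => r) |r| where
  pos := abs_nonneg r
  bdd _ _ _ := le_rfl
  mes _ _ := measurable_const
  mp _ _ := fun _ _ _ => rfl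
  eqv _ _ _ _ := fun _ _ _ => rfl

theorem add (h : Cov1 N b j f M) (k : Cov1 N b j g M') : Cov1 N b j (fun y ω => f y ω + g y ω) (M + M') where
  pos := add_nonneg h.pos k.pos
  bdd y ω S := (abs_add_le _ _).trans (add_le_add (h.bdd y ω S) (k.bdd y ω S))
  mes y S := (h.mes y S).add (k.mes y S)
  mp y ω := fun S S' e => by
    show f y ω S + g y ω S = f y ω S' + g y ω S'
    rw [h.mp y ω S S' e, k.mp y ω S S' e]
  eqv y h1 h2 ω := (h.eqv y h1 h2 ω).add (k.eqv y h1 h2 ω)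

theorem mul (h : Cov1 N b j f M) (k : Cov1 N b j g M') : Cov1 N b j (fun y ω => f y ω * g y ω) (M * M') where
  pos := mul_nonneg h.pos k.pos
  bdd y ω S := by
    rw [Pi.mul_apply, abs_mul]
    exact mul_le_mul (h.bdd y ω S) (k.bdd y ω S) (abs_nonneg _) h.pos
  mes y S := (h.mes y S).mul (k.mes y S)
  mp y ω := fun S S' e => by
    show f y ω S * g y ω S = f y ω S' * g y ω S'
    rw [h.mp y ω S S' e, k.mp y ω S S' e]
  eqv y h1 h2 ω := (h.eqv y h1 h2 ω).mul (k.eqv y h1 h2 ω)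

theorem sum {ι : Type*} (R : Finset ι) {f : ι → (y : ℕ) → Env × Finset ℕ → Px (Pn N y) → ℝ} {M : ι → ℝ}
    (h : ∀ i ∈ R, Cov1 N b j (f i) (M i)) : Cov1 N b j (fun y ω => ∑ i ∈ R, f i y ω) (∑ i ∈ R, M i) := by
  classical
  induction R using Finset.induction_on with
  | empty =>
    simp only [sum_empty]
    have h0 := const (N := N) (b := b) (j := j) 0
    rw [abs_zero] at h0
    exact h0
  | insert i R hi ih =>
    simp only [sum_insert hi]
    exact (h i (mem_insert_self i R)).add (ih fun k hk => h k (mem_insert_of_mem hk))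

end Cov1

theorem oq_dJ' {c l c₀ l₀ : ℕ} (hc : c ≤ c₀) (hd : c₀ + l₀ ≤ c + l) (u : ℤ) (S : Finset ℕ) :
    oq c (c + l) (dJ c₀ l₀ u S) = dJ c l u S := oq_dJ hc hd u S

/-- A smaller window. -/
theorem eqv_sub {c l c₀ l₀ : ℕ} {v : ℤ} {Q₁ Q₂ : Finset (Finset ℕ)} {f : Px Q₁ → ℝ} {f' : Px Q₂ → ℝ} (h : Eqv c l v f f')
    (hc : c ≤ c₀) (hd : c₀ + l₀ ≤ c + l) : Eqv c₀ l₀ v f f' := fun S S' e =>
  h S S' (by rw [← oq_dJ' hc hd, ← oq_dJ' hc hd, e])

theorem hcl (b j : ℕ) : j - b + (j + b - (j - b)) = j + b := by omega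

theorem mp_iff {c l : ℕ} {Q : Finset (Finset ℕ)} {f : Px Q → ℝ} : Mp (pJ c (c + l)) f ↔ Eqv c l 0 f f := by
  constructor
  · intro h S S' e
    exact mp_dJ h e
  · intro h S S' e
    refine h S S' ?_
    have h1 := (part_pJ (c := c) (l := l) (c' := c) (d' := c + l) le_rfl le_rfl 0 S S').1 e
    rwa [oq_dJ' le_rfl le_rfl, oq_dJ' le_rfl le_rfl] at h1

theorem mp_iff' {b j : ℕ} {Q : Finset (Finset ℕ)} {f : Px Q → ℝ} :
    Mp (pJ (j - b) (j + b)) f ↔ Eqv (j - b) (j + b - (j - b)) 0 f f := by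
  rw [← mp_iff, hcl]

/-- The covariance for a smaller window. -/
theorem Cov1.window {f : (y : ℕ) → Env × Finset ℕ → Px (Pn N y) → ℝ} {M : ℝ} {b₀ : ℕ} (hb : b₀ ≤ b)
    (h : Cov1 N b j f M) : Cov1 N b₀ j f M where
  pos := h.pos
  bdd := h.bdd
  mes := h.mes
  mp y ω := mp_iff'.2 (eqv_sub (mp_iff'.1 (h.mp y ω)) (by omega) (by omega))
  eqv y h1 h2 ω := eqv_sub (h.eqv y h1 h2 ω) (by omega) (by omega)

theorem jeq (j b : ℕ) : ((j - b + (j - (j - b)) : ℕ) : ℤ) = (j : ℤ) := by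
  exact_mod_cast (show j - b + (j - (j - b)) = j by omega)

theorem rel_Tj (b j : ℕ) (ω : Env × Finset ℕ) : Rel (j - b + (j - (j - b))) (-sg ω.2 j) ω.1 (Tj j ω).1 := by
  have h := rel_shj (j - b + (j - (j - b))) (-sg ω.2 j) ω.1
  rw [jeq] at h
  exact h

/-- **The half response of the flipped row**, at the base `b`. -/
theorem cov_gj (δ : ℝ) {B : ℝ} (hB : 0 ≤ B) : Cov1 N b j (fun _ ω => gj μ s ω.1 δ B b j (sg ω.2 j)) (B / 2) where
  pos := by positivity
  bdd _ ω S := abs_gj ω.1 hB (abs_sg _ _).le b j S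
  mes _ S := meas_gg δ B b j S
  mp _ ω := mp_gj ω.1 δ B b j _
  eqv y _ _ ω := by
    have h := eqv_gw_self (μ := μ) (s := s) (c := j - b) (l := j + b - (j - b)) (k := j - (j - b)) (Q₁ := Pn N y)
      (Q₂ := Pn N (nb (sg ω.2 j) y)) ω.1 (δ := δ) hB (by omega) (sg ω.2 j)
    rw [jeq, hcl] at h
    have e2 : sg (Tj j ω).2 j = -sg ω.2 j := sg_Tj j ω
    unfold gj
    rw [e2]
    exact h

/-- The half response of the flipped row at a larger base, for the window at the base `b₀`. -/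
theorem cov_gj' {b₀ : ℕ} (hb₀ : b₀ ≤ b) (δ : ℝ) {B : ℝ} (hB : 0 ≤ B) :
    Cov1 N b₀ j (fun _ ω => gj μ s ω.1 δ B b j (sg ω.2 j)) (B / 2) := (cov_gj δ hB).window hb₀

theorem nb_le {y : ℕ} (h : y < N) (ω : Env × Finset ℕ) : nb (sg ω.2 j) y ≤ N := by
  unfold nb
  rcases sg_or ω.2 j with h1 | h1 <;> rw [h1] <;> omega

/-- **The block functional** `Zm` of a block disjoint from the window (the windows of its rows are inside of the block). -/
theorem cov_Zm {b₀ : ℕ} (hb₀ : 0 < b₀) {c d : ℕ} (hcd : c ≤ d) (hdN : d ≤ N) {R : Finset ℕ}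
    (hin : ∀ i ∈ Rw R c d, c + b ≤ i ∧ i + b ≤ d) (hW : d ≤ j - b₀ ∨ j + b₀ ≤ c) (δ : ℝ) {B : ℝ} (hB : 0 ≤ B) :
    Cov1 N b₀ j (fun y ω => Zm μ s N (Pn N y) δ B b R c d ω) (R.card * (B / 2 + (B / 2) ^ 2)) := by
  have hW' : d ≤ j - b₀ ∨ j - b₀ + (j + b₀ - (j - b₀)) ≤ c := by rw [hcl]; exact hW
  have hwin : ∀ i ∈ Rw R c d, i + b ≤ j - b₀ ∨ j - b₀ + (j + b₀ - (j - b₀)) ≤ i - b := by
    intro i hi
    have h1 := hin i hi
    rw [hcl]
    omega
  have hsg : ∀ (ω : Env × Finset ℕ), ∀ i ∈ Rw R c d, sg (Tj j ω).2 i = sg ω.2 i := by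
    intro ω i hi
    refine sg_flp_ne ?_ ω.2
    unfold Rw at hi
    rw [mem_inter, mem_Ico] at hi
    omega
  refine ⟨by positivity, fun y ω S => ?_, fun y S => meas_Zm δ B b R c d S, fun y ω => ?_, fun y h1 h2 ω => ?_⟩
  · have n1 : Nonempty (Px (Pn N y)) := ⟨S⟩
    refine (abs_Zm hB b R c d ω S).trans (mul_le_mul_of_nonneg_right ?_ (by positivity))
    exact_mod_cast card_le_card inter_subset_left
  · rw [mp_iff']
    by_cases hy : y ≤ N
    swap
    · intro S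
      exfalso
      have h1 := mem_powersetCard.1 S.2
      have h2 := card_le_card h1.1
      rw [h1.2, card_range] at h2
      exact hy h2
    have n1 : Nonempty (Px (Pn N y)) := ne_Pn hy
    exact eqv_Zm (c := j - b₀) (l := j + b₀ - (j - b₀)) (k := j - (j - b₀)) (by omega) (rel_refl _ _) (full_Pn N y) (full_Pn N y)
      hcd hdN hW' δ B R (fun i _ => rfl) hwin
  · have n1 : Nonempty (Px (Pn N y)) := ne_Pn h2.le
    have n2 : Nonempty (Px (Pn N (nb (sg ω.2 j) y))) := ne_Pn (nb_le h2 ω)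
    exact eqv_Zm (c := j - b₀) (l := j + b₀ - (j - b₀)) (k := j - (j - b₀)) (by omega) (rel_Tj b₀ j ω) (full_Pn N y) (full_Pn N _)
      hcd hdN hW' δ B R (hsg ω) hwin

/-- **Conditional means over disjoint blocks** of covariant functions are covariant. -/
theorem Cov1.cE {b₀ : ℕ} {f : (y : ℕ) → Env × Finset ℕ → Px (Pn N y) → ℝ} {M : ℝ} (H : Cov1 N b₀ j f M) {c d : ℕ}
    (hcd : c ≤ d) (hdN : d ≤ N) (hW : d ≤ j - b₀ ∨ j + b₀ ≤ c) :
    Cov1 N b₀ j (fun y ω => cE (wm μ s N (Pn N y) ω) (pJ c d) (f y ω)) M := by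
  have hW' : d ≤ j - b₀ ∨ j - b₀ + (j + b₀ - (j - b₀)) ≤ c := by rw [hcl]; exact hW
  refine ⟨H.pos, fun y ω S => ?_, fun y S => ?_, fun y ω => ?_, fun y h1 h2 ω => ?_⟩
  · have n1 : Nonempty (Px (Pn N y)) := ⟨S⟩
    exact abs_cE_le _ _ (H.bdd y ω) S
  · have n1 : Nonempty (Px (Pn N y)) := ⟨S⟩
    exact meas_cE meas_wm (H.mes y) _ S
  · rw [mp_iff']
    by_cases hy : y ≤ N
    swap
    · intro S
      exfalso
      have h1 := mem_powersetCard.1 S.2
      have h2 := card_le_card h1.1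
      rw [h1.2, card_range] at h2
      exact hy h2
    have n1 : Nonempty (Px (Pn N y)) := ne_Pn hy
    exact eqv_cE (c := j - b₀) (l := j + b₀ - (j - b₀)) (k := j - (j - b₀)) (by omega) (rel_refl _ ω.1) (full_Pn N y) (full_Pn N y)
      hcd hdN hW' (mp_iff'.1 (H.mp y ω))
  · have n1 : Nonempty (Px (Pn N y)) := ne_Pn h2.le
    have n2 : Nonempty (Px (Pn N (nb (sg ω.2 j) y))) := ne_Pn (nb_le h2 ω)
    exact eqv_cE (c := j - b₀) (l := j + b₀ - (j - b₀)) (k := j - (j - b₀)) (by omega) (rel_Tj b₀ j ω) (full_Pn N y) (full_Pn N _)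
      hcd hdN hW' (H.eqv y h1 h2 ω)

/-- **The block functional `Zs`** (frame NG) of a block disjoint from the window. -/
theorem cov_Zs {b₀ σ : ℕ} (hb₀ : 0 < b₀) (hσ : 0 < σ) {R : Finset ℕ}
    (hdeep : ∀ i ∈ R, i / σ * σ + b ≤ i ∧ i + b ≤ (i / σ + 1) * σ) {c d : ℕ} (hc : σ ∣ c) (hcd : c ≤ d) (hdN : d ≤ N)
    (hW : d ≤ j - b₀ ∨ j + b₀ ≤ c) (δ : ℝ) {B : ℝ} (hB : 0 ≤ B) :
    Cov1 N b₀ j (fun y ω => Zs μ s N (Pn N y) δ B b σ R c d ω) ((d / σ - c / σ : ℕ) * (R.card * (B / 2 + (B / 2) ^ 2))) := by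
  have h1 : Cov1 N b₀ j (fun y ω => Zt μ s N (Pn N y) δ B b σ R c d ω)
      (∑ k ∈ Ico (c / σ) (d / σ), (R.card : ℝ) * (B / 2 + (B / 2) ^ 2)) := by
    unfold Zt
    refine Cov1.sum _ fun k hk => ?_
    rw [mem_Ico] at hk
    have hk1 : c ≤ k * σ := by
      obtain ⟨c', rfl⟩ := hc
      rw [Nat.mul_div_cancel_left _ hσ] at hk
      rw [mul_comm]
      exact Nat.mul_le_mul_right _ hk.1
    have hk2 : (k + 1) * σ ≤ d := (Nat.mul_le_mul_right _ hk.2).trans (Nat.div_mul_le_self _ _)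
    refine cov_Zm hb₀ (Nat.mul_le_mul_right _ (Nat.le_succ k)) (hk2.trans hdN) (fun i hi => ?_) ?_ δ hB
    · unfold Rw at hi
      rw [mem_inter, mem_Ico] at hi
      obtain ⟨h1, h2, h3⟩ := hi
      have h4 : i / σ = k := by
        have h5 : k ≤ i / σ := (Nat.le_div_iff_mul_le hσ).2 h2
        have h6 : i / σ < k + 1 := (Nat.div_lt_iff_lt_mul hσ).2 h3
        omega
      have h7 := hdeep i h1
      rw [h4] at h7
      exact h7
    rcases hW with h | h
    · exact Or.inl (hk2.trans h)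
    · exact Or.inr (h.trans hk1)
  rw [sum_const, Nat.card_Ico, nsmul_eq_mul] at h1
  exact h1.cE hcd hdN hW

/-- **The functional to the right** of the window (or to the left of it). -/
theorem cov_fR {b₀ σ : ℕ} (hb₀ : 0 < b₀) (hσ : 0 < σ) {R : Finset ℕ}
    (hdeep : ∀ i ∈ R, i / σ * σ + b ≤ i ∧ i + b ≤ (i / σ + 1) * σ) {e : ℕ → ℕ} (he : Monotone e) (hσe : ∀ i, σ ∣ e i)
    {i M : ℕ} (hM : e M ≤ N) (hW : e M ≤ j - b₀ ∨ j + b₀ ≤ e i) (δ : ℝ) {B : ℝ} (hB : 0 ≤ B) :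
    Cov1 N b₀ j (fun y ω => fR μ s N (Pn N y) δ B b σ R e i M ω) (bR B σ R e i M) := by
  unfold fR bR
  refine Cov1.sum _ fun l hl => ?_
  rw [mem_Ico] at hl
  refine cov_Zs hb₀ hσ hdeep (hσe l) (he (Nat.le_succ l)) ((he hl.2).trans hM) ?_ δ hB
  rcases hW with h | h
  · exact Or.inl ((he hl.2).trans h)
  · exact Or.inr (h.trans (he hl.1))

/-- **The position behind the window**, seen from the end. -/
theorem cov_ps {t : ℕ} (ht : j + b ≤ t) (htN : t ≤ N) :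
    Cov1 N b j (fun y _ S => (ps S t : ℝ) - y) N where
  pos := by positivity
  bdd y ω S := by
    have h1 := ps_nonneg S t
    have h2 := ps_le S t
    have h3 := mem_powersetCard.1 S.2
    have h4 := card_le_card h3.1
    rw [h3.2, card_range] at h4
    have h5 : (0 : ℝ) ≤ ps S t := by exact_mod_cast h1
    have h6 : (ps S t : ℝ) ≤ N := by
      have : ps S t ≤ (N : ℤ) := by omega
      exact_mod_cast this
    have h7 : (y : ℝ) ≤ N := by exact_mod_cast h4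
    have h8 : (0 : ℝ) ≤ y := by positivity
    rw [abs_le]
    constructor <;> linarith
  mes _ _ := measurable_const
  mp y ω := fun S S' e => by
    show (ps S t : ℝ) - y = (ps S' t : ℝ) - y
    rw [ps_of_ge e ht]
  eqv y h1 h2 ω := fun S S' e => by
    have h3 := same_ge (t := t) e (by rw [hcl]; exact ht)
    have h4 : ((nb (sg ω.2 j) y : ℕ) : ℤ) = y + sg ω.2 j := by
      unfold nb
      rcases sg_or ω.2 j with h5 | h5 <;> rw [h5] <;> omega
    have h5 : (ps S t : ℤ) = ps S' t + -sg ω.2 j := h3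
    have h6 : ps S t - (y : ℤ) = ps S' t - ((nb (sg ω.2 j) y : ℕ) : ℤ) := by
      rw [h4, h5]
      ring
    show (ps S t : ℝ) - (y : ℝ) = (ps S' t : ℝ) - ((nb (sg ω.2 j) y : ℕ) : ℝ)
    exact_mod_cast h6

end

end Pool.Agent.W_7d29a1_C0.Flip61
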