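import Pool.Agent.W_7d29a1_C0.ClB46
import Pool.Agent.W_7d29a1_C0.FlipB61

/-!
STORM C0 (helper46): THE CLIP MEAN, the flip bookkeeping. `w` = the actual pinned measure, `w'` = the pinned measure in the environment
`shj j (-a) η` with the end `y + a`. `flip_gm46`: the means with the ratio of a window are the means under `w'`. `cE_le46`: the conditional
mean of the ratio of the fine window is at most the ratio of the base window. `corner46`: the mean of the difference of the clipped and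
the exact response, at both corners, in terms of the masses of the bad windows (`Bw`) under `w` and `w'`, of `nok` and of `clip`.
-/

set_option autoImplicit false
set_option linter.unusedSectionVars false
set_option linter.unusedVariables false

namespace Pool.Agent.W_7d29a1_C0.Cl46

open Finset MeasureTheory Pool.Agent.W_7d29a1_F Pool.Agent.W_7d29a1_X
open Pool.Agent.W_7d29a1_H (sl)
open Pool.Agent.W_7d29a1_HS (In wd)
open Pool.Agent.W_7d29a1_Z74 (ZJ)
open Pool.Agent.W_7d29a1_HZ.Z74 (shj)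
open Pool.Agent.W_7d29a1_C0.Mod92 Pool.Agent.W_7d29a1_C0.Flip61 Pool.Agent.W_7d29a1_C0.Pin18
open Pool.W7d29a1.C0 (gz gm gz_pos gz_ne gm_mono gm_nonneg gm_add gm_smul gm_const gb81)
open Pool.W7d29a1.C0.VT31

noncomputable section

variable {μ : Measure ℝ} {s : ℝ}

/-! ### The transport of the means -/

/-- The positions at the ends of a window are functions of the outside data. -/
theorem pos_fst46 (c l : ℕ) (v : ℤ) (S : Finset ℕ) : (((dJ c l v S).1 ∩ range c).card : ℤ) = pos S c := by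
  unfold dJ pos
  congr 2
  ext i
  simp only [mem_inter, mem_sdiff, mem_Ico, mem_range]
  constructor
  · rintro ⟨⟨h1, _⟩, h2⟩
    exact ⟨h1, h2⟩
  · rintro ⟨h1, h2⟩
    exact ⟨⟨h1, by omega⟩, h2⟩

theorem pos_snd46 (c l : ℕ) (v : ℤ) (S : Finset ℕ) :
    pos S c + (dJ c l v S).2 = pos S (c + l) + v := by
  unfold dJ
  rw [card_Ico_pos S (Nat.le_add_right _ _)]
  ring

/-- **The transport**, a general function of the outside data. -/
theorem flip_H46 (η : Env) {N c l k y y' : ℕ} (hk : k ≤ l) (hN : c + l ≤ N) {v : ℤ} (hv : (y' : ℤ) + v = y) (hy : y ≤ N) (hy' : y' ≤ N)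
    (H : Finset ℕ × ℤ → ℝ) : gm (lw μ s η N (Pn N y)) (fun S => Rp μ s η c l k v S.1 * H (dJ c l 0 S.1)) =
      gz (lw μ s (shj ((c + k : ℕ) : ℤ) v η) N (Pn N y')) / gz (lw μ s η N (Pn N y)) *
        gm (lw μ s (shj ((c + k : ℕ) : ℤ) v η) N (Pn N y')) (fun S => (if Ok c l v S.1 then 1 else 0) * H (dJ c l v S.1)) := by
  have n1 := ne_Pn hy
  have n2 := ne_Pn hy'
  have h := flip_data (μ := μ) (s := s) η hk hN v (fun x => x = (y : ℤ)) H
  have e2 : fam N (fun x => x + v = (y : ℤ)) = Pn N y' := by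
    rw [← fam_eq]
    unfold fam
    refine filter_congr fun S _ => ?_
    constructor <;> intro h1 <;> omega
  rw [fam_eq, e2] at h
  have g1 := gz_ne (lw μ s η N (Pn N y))
  have g2 := gz_ne (lw μ s (shj ((c + k : ℕ) : ℤ) v η) N (Pn N y'))
  have a1 : ∑ S : Px (Pn N y), Real.exp (lw μ s η N (Pn N y) S) * (Rp μ s η c l k v S.1 * H (dJ c l 0 S.1)) =
      ∑ S ∈ Pn N y, pth μ s η N S * (Rp μ s η c l k v S * H (dJ c l 0 S)) := by
    rw [← sum_Px]
    exact sum_congr rfl fun S _ => by rw [exp_lw]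
  have a2 : ∑ S : Px (Pn N y'), Real.exp (lw μ s (shj ((c + k : ℕ) : ℤ) v η) N (Pn N y') S) *
      ((if Ok c l v S.1 then 1 else 0) * H (dJ c l v S.1)) =
      ∑ S ∈ Pn N y', pth μ s (shj ((c + k : ℕ) : ℤ) v η) N S * ((if Ok c l v S then 1 else 0) * H (dJ c l v S)) := by
    rw [← sum_Px]
    exact sum_congr rfl fun S _ => by rw [exp_lw]
  unfold gm
  rw [a1, a2, h]
  field_simp

theorem flip_gm46 (η : Env) {N c l k y y' : ℕ} (hk : k ≤ l) (hN : c + l ≤ N) {v : ℤ} (hv : (y' : ℤ) + v = y) (hy : y ≤ N) (hy' : y' ≤ N)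
    (φ : ℤ → ℤ → ℝ) : gm (lw μ s η N (Pn N y)) (fun S => Rp μ s η c l k v S.1 * φ (pos S.1 c) (pos S.1 (c + l))) =
      gz (lw μ s (shj ((c + k : ℕ) : ℤ) v η) N (Pn N y')) / gz (lw μ s η N (Pn N y)) *
        gm (lw μ s (shj ((c + k : ℕ) : ℤ) v η) N (Pn N y')) (fun S => (if Ok c l v S.1 then 1 else 0) *
          φ (pos S.1 c) (pos S.1 (c + l) + v)) := by
  have h := flip_H46 (μ := μ) (s := s) η hk hN hv hy hy'
    (fun o => φ (((o.1 ∩ range c).card : ℕ) : ℤ) ((((o.1 ∩ range c).card : ℕ) : ℤ) + o.2))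
  simp only [pos_snd46, pos_fst46, add_zero] at h
  exact h

/-- The kicked paths which stay in the cone of the fine window stay in the cone of the base window. -/
theorem ok_mono46 {c l c0 l0 : ℕ} (hc : c ≤ c0) (hd : c0 + l0 ≤ c + l) {v : ℤ} {S : Finset ℕ} (h : Ok c0 l0 v S) : Ok c l v S := by
  have h1 := card_Ico_pos S hc
  have h2 := card_Ico_pos S hd
  have h3 : (S ∩ Ico c c0).card ≤ c0 - c := by
    have := card_le_card (inter_subset_right (s₁ := S) (s₂ := Ico c c0))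
    rwa [Nat.card_Ico] at this
  have h4 : (S ∩ Ico (c0 + l0) (c + l)).card ≤ c + l - (c0 + l0) := by
    have := card_le_card (inter_subset_right (s₁ := S) (s₂ := Ico (c0 + l0) (c + l)))
    rwa [Nat.card_Ico] at this
  unfold Ok at h ⊢
  omega

/-- **The conditional mean of the ratio of the fine window** is at most the ratio of the base window. -/
theorem cE_le46 (η : Env) {N c l k c0 l0 k0 y y' : ℕ} (hk : k ≤ l) (hk0 : k0 ≤ l0) (hc : c ≤ c0) (hd : c0 + l0 ≤ c + l)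
    (hj : c0 + k0 = c + k) (hN : c + l ≤ N) {v : ℤ} (hv : (y' : ℤ) + v = y) (hy : y ≤ N) (hy' : y' ≤ N) (S : Px (Pn N y)) :
    cE (lw μ s η N (Pn N y)) (pJ c (c + l)) (fun S => Rp μ s η c0 l0 k0 v S.1) S ≤ Rp μ s η c l k v S.1 := by
  have n1 := ne_Pn hy
  have n2 := ne_Pn hy'
  obtain ⟨w, hw⟩ : ∃ w, w = lw μ s η N (Pn N y) := ⟨_, rfl⟩
  have hp : ∀ S' : Px (Pn N y), pJ c (c + l) S' = pJ c (c + l) S ↔ dJ c l 0 S'.1 = dJ c l 0 S.1 := fun S' => by
    have h1 := part_pJ (c := c) (l := l) (c' := c) (d' := c + l) le_rfl le_rfl 0 S' S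
    rw [oq_dJ' le_rfl le_rfl, oq_dJ' le_rfl le_rfl] at h1
    exact h1
  obtain ⟨H, hH⟩ : ∃ H : Finset ℕ × ℤ → ℝ, H = fun o => if o = dJ c l 0 S.1 then 1 else 0 := ⟨_, rfl⟩
  have hH0 : ∀ o, 0 ≤ H o := fun o => by
    rw [hH]
    beta_reduce
    split_ifs <;> norm_num
  have hHm : Mp (pJ c (c + l)) (fun S' : Px (Pn N y) => H (dJ c l 0 S'.1)) := fun x x' e => by
    have e1 : dJ c l 0 x.1 = dJ c l 0 x'.1 := by
      have h1 := (part_pJ (c := c) (l := l) (c' := c) (d' := c + l) le_rfl le_rfl 0 x x').1 e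
      rwa [oq_dJ' le_rfl le_rfl, oq_dJ' le_rfl le_rfl] at h1
    show H (dJ c l 0 x.1) = H (dJ c l 0 x'.1)
    rw [e1]
  have h1 := flip_H46 (μ := μ) (s := s) η hk hN hv hy hy' H
  have h0 := flip_H46 (μ := μ) (s := s) η hk0 (hd.trans hN) hv hy hy' (fun o => H (oq c (c + l) o))
  simp only [oq_dJ' hc hd] at h0
  rw [hj] at h0
  rw [← hw] at h0 h1 ⊢
  have h2 : gm w (fun S' => Rp μ s η c0 l0 k0 v S'.1 * H (dJ c l 0 S'.1)) ≤
      gm w (fun S' => Rp μ s η c l k v S'.1 * H (dJ c l 0 S'.1)) := by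
    rw [h0, h1]
    refine mul_le_mul_of_nonneg_left (gm_mono _ fun S' => ?_) (div_nonneg (gz_pos _).le (gz_pos _).le)
    refine mul_le_mul_of_nonneg_right ?_ (hH0 _)
    by_cases h3 : Ok c0 l0 v S'.1
    · rw [if_pos h3, if_pos (ok_mono46 hc hd h3)]
    · rw [if_neg h3]
      split_ifs <;> norm_num
  have e0 : gm w (fun S' => Rp μ s η c0 l0 k0 v S'.1 * H (dJ c l 0 S'.1)) =
      cE w (pJ c (c + l)) (fun S => Rp μ s η c0 l0 k0 v S.1) S * gm w (fun S' => H (dJ c l 0 S'.1)) := by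
    have h3 := gm_rho46 w (fun S => Rp μ s η c0 l0 k0 v S.1) hHm
    rw [h3, ← gm_mul']
    congr 1
    funext S'
    rw [hH]
    beta_reduce
    split_ifs with h4
    · rw [cE_meas w (pJ c (c + l)) _ S' S ((hp S').2 h4)]
    · rw [mul_zero, mul_zero]
  have e1 : gm w (fun S' => Rp μ s η c l k v S'.1 * H (dJ c l 0 S'.1)) =
      Rp μ s η c l k v S.1 * gm w (fun S' => H (dJ c l 0 S'.1)) := by
    rw [← gm_mul']
    congr 1
    funext S'
    rw [hH]
    beta_reduce
    split_ifs with h4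
    · have h5 := congrArg (fun o : Finset ℕ × ℤ => (((o.1 ∩ range c).card : ℕ) : ℤ)) h4
      have h6 := congrArg (fun o : Finset ℕ × ℤ => (((o.1 ∩ range c).card : ℕ) : ℤ) + o.2) h4
      simp only [pos_snd46, pos_fst46, add_zero] at h5 h6
      unfold Rp
      rw [h5, h6]
    · rw [mul_zero, mul_zero]
  rw [e0, e1] at h2
  refine le_of_mul_le_mul_right h2 ?_
  -- the mass of the fibre
  unfold gm
  refine div_pos ?_ (gz_pos w)
  refine lt_of_lt_of_le (Real.exp_pos (w S)) ?_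
  have h7 : Real.exp (w S) * H (dJ c l 0 S.1) ≤ ∑ x, Real.exp (w x) * H (dJ c l 0 x.1) :=
    single_le_sum (f := fun x : Px (Pn N y) => Real.exp (w x) * H (dJ c l 0 x.1)) (fun x _ => mul_nonneg (Real.exp_pos _).le (hH0 _))
      (mem_univ S)
  have h8 : H (dJ c l 0 S.1) = 1 := by
    rw [hH]
    beta_reduce
    rw [if_pos rfl]
  rwa [h8, mul_one] at h7

/-! ### The good windows -/

/-- The window `[c, c + l)` is good: its ends are not steep, and its response is at most `ξ`. -/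
def Wx (μ : Measure ℝ) (s γ ξ : ℝ) (η : Env) (c l k : ℕ) (a x z : ℤ) : Prop :=
  Flat μ s γ l a (z - x) ∧ |lk μ s η c l k (-a) x z| ≤ ξ

theorem wx_flip {γ ξ : ℝ} (η : Env) {c l k : ℕ} (hk : k ≤ l) (a x z : ℤ) :
    Wx μ s γ ξ (shj ((c + k : ℕ) : ℤ) (-a) η) c l k (-a) x z ↔ Wx μ s γ ξ η c l k a x (z + -a) := by
  unfold Wx
  have e1 : Flat μ s γ l (-a) (z - x) ↔ Flat μ s γ l a (z + -a - x) := by
    have h := flat_flip (μ := μ) (s := s) (δ := γ) (l := l) (a := a) (y := z + -a - x)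
    rw [← h]
    have e : z + -a - x + a = z - x := by ring
    rw [e]
  have h2 := lk_flip (μ := μ) (s := s) (c := c) η hk (-a) x (z + -a)
  have e3 : z + -a - -a = z := by ring
  rw [e3] at h2
  rw [e1, h2, abs_neg]

/-- The mass of the paths for which the window is bad. -/
def bw (μ : Measure ℝ) (s : ℝ) (N : ℕ) (γ ξ : ℝ) (c l k : ℕ) (a : ℤ) (y : ℕ) (η : Env) : ℝ :=
  gm (lw μ s η N (Pn N y)) (id46 fun S => ¬ Wx μ s γ ξ η c l k a (pos S.1 c) (pos S.1 (c + l)))

/-- The ratio of a good window. -/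
theorem rp_exp46 (η : Env) {c l k : ℕ} (hk : k ≤ l) {v : ℤ} {S : Finset ℕ} (h0 : 0 ≤ pos S (c + l) - pos S c - v)
    (h1 : pos S (c + l) - pos S c - v ≤ l) : Rp μ s η c l k v S = Real.exp (lk μ s η c l k v (pos S c) (pos S (c + l))) := by
  have h2 := card_Ico_pos S (Nat.le_add_right c l)
  have h3 : (S ∩ Ico c (c + l)).card ≤ l := by
    have := card_le_card (inter_subset_right (s₁ := S) (s₂ := Ico c (c + l)))
    rw [Nat.card_Ico] at this
    omega
  have hkl : k + (l - k) = l := by omega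
  have hZ : 0 < ZJ μ s η ((c : ℤ), pos S c) k (l - k) v (pos S (c + l) - pos S c) :=
    K14.ZJ_pos η _ _ _ h0 (by rw [hkl]; exact h1)
  have hW : 0 < W μ s η ((c : ℤ), pos S c) l (pos S (c + l) - pos S c) :=
    W_pos _ _ (by omega) (by omega)
  unfold Rp Rk lk
  rw [Real.exp_sub, Real.exp_log hZ, Real.exp_log hW, hkl]

theorem id_mono46 {X : Type*} {P Q : X → Prop} {x : X} (h : P x → Q x) : id46 P x ≤ id46 Q x := by
  unfold id46
  by_cases h1 : P x
  · rw [if_pos h1, if_pos (h h1)]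
  · rw [if_neg h1]
    split_ifs <;> norm_num

theorem exp_cl46 {B : ℝ} (hB : 0 ≤ B) (u : ℝ) : |Real.exp (cl B u) - Real.exp u| ≤ Real.exp u + 1 := by
  have h0 := Real.exp_pos u
  rcases le_total |u| B with h | h
  · rw [cl_of_abs h, sub_self, abs_zero]
    linarith
  · have h1 := Real.exp_pos (cl B u)
    rcases le_total 0 u with hu | hu
    · have h2 : cl B u ≤ u := by
        unfold cl
        exact max_le (by linarith) (min_le_right _ _)
      have h3 := Real.exp_le_exp.2 h2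
      rw [abs_le]
      constructor <;> linarith
    · have h2 : cl B u ≤ 0 := by
        unfold cl
        exact max_le (by linarith) ((min_le_right _ _).trans hu)
      have h3 := Real.exp_le_exp.2 h2
      rw [Real.exp_zero] at h3
      rw [abs_le]
      constructor <;> linarith

section corner

variable [IsProbabilityMeasure μ] {N y y' c l k c0 l0 k0 : ℕ} {a : ℤ} {γ B ξ : ℝ} {g0 g1 : Px (Pn N y) → ℝ}

/-- The clipped ratio of the fine window against the exact one. -/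
theorem clip_le46 (η : Env) (hk0 : k0 ≤ l0) (ha : a = 1 ∨ a = -1) (hB : 0 ≤ B)
    (fo0 : ∀ D : ℤ, Flat μ s γ l0 a D → 0 ≤ D + a ∧ D + a ≤ l0)
    (hg0 : ∀ S, g0 S = gw μ s η γ B a c0 l0 k0 (pos S.1 c0) (pos S.1 (c0 + l0))) (S : Px (Pn N y)) :
    |Real.exp (-2 * (a : ℝ) * g0 S) - Rp μ s η c0 l0 k0 (-a) S.1| ≤
      (Rp μ s η c0 l0 k0 (-a) S.1 + 1) * id46 (fun S : Px (Pn N y) => ¬ Wx μ s γ B η c0 l0 k0 a (pos S.1 c0) (pos S.1 (c0 + l0))) S := by
  have h0 := Rp_nonneg (μ := μ) (s := s) η c0 l0 k0 (-a) S.1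
  have ha2 : (a : ℝ) * (a : ℝ) = 1 := by
    rcases ha with h | h <;> rw [h] <;> norm_num
  by_cases hf : Flat μ s γ l0 a (pos S.1 (c0 + l0) - pos S.1 c0)
  · have h1 := fo0 _ hf
    have e1 := rp_exp46 (μ := μ) (s := s) η (c := c0) hk0 (v := -a) (S := S.1) (by omega) (by omega)
    have e2 : Real.exp (-2 * (a : ℝ) * g0 S) = Real.exp (cl B (lk μ s η c0 l0 k0 (-a) (pos S.1 c0) (pos S.1 (c0 + l0)))) := by
      rw [hg0]
      unfold gw
      rw [if_pos hf]
      congr 1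
      linear_combination (cl B (lk μ s η c0 l0 k0 (-a) (pos S.1 c0) (pos S.1 (c0 + l0)))) * ha2
    rw [e2, e1]
    by_cases hw : |lk μ s η c0 l0 k0 (-a) (pos S.1 c0) (pos S.1 (c0 + l0))| ≤ B
    · rw [cl_of_abs hw, sub_self, abs_zero]
      exact mul_nonneg (by positivity) (id_nonneg46 _ _)
    · have e3 : id46 (fun S : Px (Pn N y) => ¬ Wx μ s γ B η c0 l0 k0 a (pos S.1 c0) (pos S.1 (c0 + l0))) S = 1 := by
        unfold id46
        exact if_pos fun h => hw h.2
      rw [e3, mul_one]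
      exact exp_cl46 hB _
  · have e3 : id46 (fun S : Px (Pn N y) => ¬ Wx μ s γ B η c0 l0 k0 a (pos S.1 c0) (pos S.1 (c0 + l0))) S = 1 := by
      unfold id46
      exact if_pos fun h => hf h.1
    have e2 : g0 S = 0 := by
      rw [hg0]
      unfold gw
      rw [if_neg hf]
    rw [e3, e2, mul_zero, Real.exp_zero, mul_one, abs_le]
    constructor <;> linarith

/-- The clipped response of the base window is the exact one. -/
theorem base46 (η : Env) (hk : k ≤ l) (ha : a = 1 ∨ a = -1) (hξB : ξ ≤ B)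
    (fo : ∀ D : ℤ, Flat μ s γ l a D → 0 ≤ D + a ∧ D + a ≤ l)
    (hg1 : ∀ S, g1 S = gw μ s η γ B a c l k (pos S.1 c) (pos S.1 (c + l))) (S : Px (Pn N y))
    (h1 : Real.exp (-ξ) ≤ Rp μ s η c l k (-a) S.1) (h2 : Rp μ s η c l k (-a) S.1 ≤ Real.exp ξ)
    (hf : Flat μ s γ l a (pos S.1 (c + l) - pos S.1 c)) : g1 S = -((a : ℝ) / 2) * Real.log (Rp μ s η c l k (-a) S.1) := by
  have h3 := fo _ hf
  have e1 := rp_exp46 (μ := μ) (s := s) η (c := c) hk (v := -a) (S := S.1) (by omega) (by omega)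
  rw [e1, Real.exp_le_exp] at h1 h2
  rw [hg1, e1, Real.log_exp]
  unfold gw
  rw [if_pos hf, cl_of_abs (abs_le.2 ⟨by linarith, by linarith⟩)]

/-- The error at both corners. -/
def Ec46 (μ : Measure ℝ) (s : ℝ) (N : ℕ) (γ B ξ : ℝ) (c l k c0 l0 k0 : ℕ) (a : ℤ) (y y' : ℕ) (η η' : Env) : ℝ :=
  2 * bw μ s N γ ξ c l k a y η + 4 * bw μ s N γ ξ c l k (-a) y' η' +
    2 * Real.exp (4 * ξ) * (bw μ s N γ B c0 l0 k0 a y η + 2 * (bw μ s N γ B c0 l0 k0 (-a) y' η' + nok μ s N c0 l0 (-a) y' η'))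

theorem bw_nonneg46 (η : Env) (γ ξ : ℝ) (c l k : ℕ) (a : ℤ) (y : ℕ) : 0 ≤ bw μ s N γ ξ c l k a y η := by
  unfold bw gm
  exact div_nonneg (sum_nonneg fun S _ => mul_nonneg (Real.exp_pos _).le (id_nonneg46 _ _)) (sum_nonneg fun _ _ => (Real.exp_pos _).le)

theorem Ec_nonneg46 (γ B ξ : ℝ) (c l k c0 l0 k0 : ℕ) (a : ℤ) (y y' : ℕ) (η η' : Env) :
    0 ≤ Ec46 μ s N γ B ξ c l k c0 l0 k0 a y y' η η' := by
  have h1 := bw_nonneg46 (μ := μ) (s := s) (N := N) η γ ξ c l k a y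
  have h2 := bw_nonneg46 (μ := μ) (s := s) (N := N) η' γ ξ c l k (-a) y'
  have h3 := bw_nonneg46 (μ := μ) (s := s) (N := N) η γ B c0 l0 k0 a y
  have h4 := bw_nonneg46 (μ := μ) (s := s) (N := N) η' γ B c0 l0 k0 (-a) y'
  have h5 := nok_nonneg (μ := μ) (s := s) (N := N) c0 l0 (-a) y' η'
  have h6 := Real.exp_pos (4 * ξ)
  unfold Ec46
  positivity

/-- **BOTH CORNERS.** The mean of the difference of the clipped response `g1` of the base window and of the exact response, under the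
actual measure and under a measure `w''` close to the flipped one. -/
theorem corner46 (η : Env) (hk : k ≤ l) (hk0 : k0 ≤ l0) (hc : c ≤ c0) (hd : c0 + l0 ≤ c + l) (hj : c0 + k0 = c + k) (hN : c + l ≤ N)
    (ha : a = 1 ∨ a = -1) (hv : (y' : ℤ) = y + a) (hy : y ≤ N) (hy' : y' ≤ N) (hB : 0 ≤ B) (hξ0 : 0 ≤ ξ) (hξ : 4 ≤ Real.exp ξ)
    (hξB : ξ ≤ B) (fo : ∀ D : ℤ, Flat μ s γ l a D → 0 ≤ D + a ∧ D + a ≤ l) (fo0 : ∀ D : ℤ, Flat μ s γ l0 a D → 0 ≤ D + a ∧ D + a ≤ l0)
    (hg0 : ∀ S, g0 S = gw μ s η γ B a c0 l0 k0 (pos S.1 c0) (pos S.1 (c0 + l0)))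
    (hg1 : ∀ S, g1 S = gw μ s η γ B a c l k (pos S.1 c) (pos S.1 (c + l))) {w : Px (Pn N y) → ℝ} (hw : w = lw μ s η N (Pn N y))
    {η' : Env} (hη' : η' = shj ((c + k : ℕ) : ℤ) (-a) η) :
    gm w (fun S => |g1 S - gb81 (w - (a : ℝ) • g0) g0 (pJ c (c + l)) S|) ≤ 2 * Real.exp (-ξ) +
        B * (Ec46 μ s N γ B ξ c l k c0 l0 k0 a y y' η η' + 2 * nok μ s N c0 l0 (-a) y' η') ∧
      ∀ w'' : Px (Pn N y) → ℝ, gm w'' (fun S => |g1 S - gb81 (w - (a : ℝ) • g0) g0 (pJ c (c + l)) S|) ≤ 2 * Real.exp (-ξ) +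
        B * (Ec46 μ s N γ B ξ c l k c0 l0 k0 a y y' η η' + 2 * nok μ s N c0 l0 (-a) y' η' +
          ∑ S : Px (Pn N y), |Real.exp (w'' S) / gz w'' - pth μ s η N S.1 * Rp μ s η c0 l0 k0 (-a) S.1 /
            ∑ S ∈ Pn N y, pth μ s η N S * Rp μ s η c0 l0 k0 (-a) S|) := by
  classical
  have n1 := ne_Pn hy
  have n2 := ne_Pn hy'
  obtain ⟨n0, hn0⟩ : ∃ n0, n0 = nok μ s N c0 l0 (-a) y' η' := ⟨_, rfl⟩
  obtain ⟨E, hE⟩ : ∃ E, E = Ec46 μ s N γ B ξ c l k c0 l0 k0 a y y' η η' := ⟨_, rfl⟩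
  have hE0 : 0 ≤ E := by rw [hE]; exact Ec_nonneg46 _ _ _ _ _ _ _ _ _ _ _ _ _ _
  have hn00 : 0 ≤ n0 := by rw [hn0]; exact nok_nonneg _ _ _ _ _
  obtain ⟨T, hT⟩ : ∃ T : (Px (Pn N y) → ℝ) → ℝ, T = fun w'' => ∑ S : Px (Pn N y), |Real.exp (w'' S) / gz w'' -
      pth μ s η N S.1 * Rp μ s η c0 l0 k0 (-a) S.1 / ∑ S ∈ Pn N y, pth μ s η N S * Rp μ s η c0 l0 k0 (-a) S| := ⟨_, rfl⟩
  have hT0 : ∀ w'', 0 ≤ T w'' := fun w'' => by
    rw [hT]
    exact sum_nonneg fun _ _ => abs_nonneg _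
  obtain ⟨p, hp⟩ : ∃ p : Px (Pn N y) → Finset ℕ × ℕ, p = pJ c (c + l) := ⟨_, rfl⟩
  -- the bounds of the responses
  have haR : (a : ℝ) = 1 ∨ (a : ℝ) = -1 := by
    rcases ha with h | h <;> rw [h] <;> norm_num
  have ha1 : |(a : ℝ)| ≤ 1 := by
    rcases haR with h | h <;> rw [h] <;> norm_num
  have bg0 : ∀ S, |g0 S| ≤ B / 2 := fun S => by
    rw [hg0]
    exact abs_gw η hB ha1 _ _ _ _ _
  have bg1 : ∀ S, |g1 S| ≤ B / 2 := fun S => by
    rw [hg1]
    exact abs_gw η hB ha1 _ _ _ _ _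
  obtain ⟨G, hG⟩ : ∃ G : Px (Pn N y) → ℝ, G = fun S => |g1 S - gb81 (w - (a : ℝ) • g0) g0 p S| := ⟨_, rfl⟩
  have bG : ∀ S, G S ≤ B := fun S => by
    have h1 := abs_gb46 (w - (a : ℝ) • g0) p bg0 S
    have h2 := abs_sub (g1 S) (gb81 (w - (a : ℝ) • g0) g0 p S)
    rw [hG]
    exact h2.trans (by linarith [bg1 S])
  have triv : ∀ w'' : Px (Pn N y) → ℝ, gm w'' G ≤ B := fun w'' => by
    have h1 := gm_mono w'' bG
    rwa [gm_const] at h1
  have hex := Real.exp_pos (-ξ)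
  have hkey : gm w G ≤ 2 * Real.exp (-ξ) + B * (E + 2 * n0) ∧ ∀ w'', gm w'' G ≤ 2 * Real.exp (-ξ) + B * (E + 2 * n0 + T w'') := by
    rcases lt_or_ge (1 / 2) n0 with hn | hn
    · have h1 : B ≤ B * (2 * n0) := by nlinarith
      constructor
      · nlinarith [triv w, mul_nonneg hB hE0]
      · intro w''
        nlinarith [triv w'', mul_nonneg hB hE0, mul_nonneg hB (hT0 w'')]
    -- the main case
    obtain ⟨w', hw'⟩ : ∃ w', w' = lw μ s η' N (Pn N y') := ⟨_, rfl⟩
    obtain ⟨q, hq⟩ : ∃ q, q = gz w' / gz w := ⟨_, rfl⟩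
    have hq0 : 0 < q := by rw [hq]; exact div_pos (gz_pos _) (gz_pos _)
    obtain ⟨r, hr⟩ : ∃ r : Px (Pn N y) → ℝ, r = fun S => Rp μ s η c l k (-a) S.1 := ⟨_, rfl⟩
    obtain ⟨r0, hr0⟩ : ∃ r0 : Px (Pn N y) → ℝ, r0 = fun S => Rp μ s η c0 l0 k0 (-a) S.1 := ⟨_, rfl⟩
    have r_nn : ∀ S, 0 ≤ r S := fun S => by rw [hr]; exact Rp_nonneg _ _ _ _ _ _
    have r0_nn : ∀ S, 0 ≤ r0 S := fun S => by rw [hr0]; exact Rp_nonneg _ _ _ _ _ _
    have hv' : (y' : ℤ) + -a = y := by omega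
    -- the transport
    have t1 : ∀ φ : ℤ → ℤ → ℝ, gm w (fun S => r S * φ (pos S.1 c) (pos S.1 (c + l))) =
        q * gm w' (fun S => (if Ok c l (-a) S.1 then 1 else 0) * φ (pos S.1 c) (pos S.1 (c + l) + -a)) := fun φ => by
      have h := flip_gm46 (μ := μ) (s := s) η hk hN hv' hy hy' φ
      rw [← hη', ← hw, ← hw', ← hq] at h
      rw [hr]
      exact h
    have t0 : ∀ φ : ℤ → ℤ → ℝ, gm w (fun S => r0 S * φ (pos S.1 c0) (pos S.1 (c0 + l0))) =
        q * gm w' (fun S => (if Ok c0 l0 (-a) S.1 then 1 else 0) * φ (pos S.1 c0) (pos S.1 (c0 + l0) + -a)) := fun φ => by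
      have h := flip_gm46 (μ := μ) (s := s) η hk0 (hd.trans hN) hv' hy hy' φ
      rw [hj, ← hη', ← hw, ← hw', ← hq] at h
      rw [hr0]
      exact h
    obtain ⟨O1, hO1⟩ : ∃ O1 : Px (Pn N y') → ℝ, O1 = fun S => if Ok c l (-a) S.1 then 1 else 0 := ⟨_, rfl⟩
    obtain ⟨O0, hO0⟩ : ∃ O0 : Px (Pn N y') → ℝ, O0 = fun S => if Ok c0 l0 (-a) S.1 then 1 else 0 := ⟨_, rfl⟩
    have O1_le : ∀ S, O1 S ≤ 1 := fun S => by
      rw [hO1]
      beta_reduce
      split_ifs <;> norm_num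
    have O0_le : ∀ S, O0 S ≤ 1 := fun S => by
      rw [hO0]
      beta_reduce
      split_ifs <;> norm_num
    have O1_nn : ∀ S, 0 ≤ O1 S := fun S => by
      rw [hO1]
      beta_reduce
      split_ifs <;> norm_num
    have O0_nn : ∀ S, 0 ≤ O0 S := fun S => by
      rw [hO0]
      beta_reduce
      split_ifs <;> norm_num
    have O01 : ∀ S, O0 S ≤ O1 S := fun S => by
      rw [hO0, hO1]
      beta_reduce
      by_cases h : Ok c0 l0 (-a) S.1
      · rw [if_pos h, if_pos (ok_mono46 hc hd h)]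
      · rw [if_neg h]
        split_ifs <;> norm_num
    have m1 : gm w r = q * gm w' O1 := by
      have h := t1 fun _ _ => 1
      simp only [mul_one] at h
      rw [hO1]
      exact h
    have hO0n : gm w' O0 = 1 - n0 := by
      have h1 := gm_add w' O0 (fun S => if Ok c0 l0 (-a) S.1 then 0 else 1)
      have h2 : (O0 + fun S : Px (Pn N y') => if Ok c0 l0 (-a) S.1 then (0 : ℝ) else 1) = fun _ => 1 := by
        funext S
        rw [hO0]
        simp only [Pi.add_apply]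
        split_ifs <;> norm_num
      rw [h2, gm_const] at h1
      have h3 : n0 = gm w' (fun S => if Ok c0 l0 (-a) S.1 then (0 : ℝ) else 1) := by
        rw [hn0, hw']
        rfl
      rw [h3]
      linarith
    have m0 : gm w r0 = q * (1 - n0) := by
      have h := t0 fun _ _ => 1
      simp only [mul_one] at h
      rw [← hO0n, hO0]
      exact h
    have k1 : 1 - n0 ≤ gm w' O1 := hO0n ▸ gm_mono w' O01
    have k2 : gm w' O1 ≤ 1 := by
      have h1 := gm_mono w' O1_le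
      rwa [gm_const] at h1
    have R0 : q / 2 ≤ gm w r0 := by
      rw [m0]
      nlinarith
    have R1 : q / 2 ≤ gm w r := by
      rw [m1]
      nlinarith
    have R2 : gm w r - gm w r0 ≤ q * n0 := by
      rw [m1, m0]
      nlinarith
    -- the defect
    obtain ⟨D, hD⟩ : ∃ D : Px (Pn N y) → ℝ, D = r - cE w p r0 := ⟨_, rfl⟩
    have D_nn : ∀ S, 0 ≤ D S := fun S => by
      rw [hD, Pi.sub_apply, sub_nonneg, hr, hr0, hw, hp]
      exact cE_le46 η hk hk0 hc hd hj hN hv' hy hy' S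
    have mr : Mp p r := by
      rw [hp, hr]
      exact mp_ps (c := c) (d := c + l) (fun x z => Rk μ s η c k (l - k) (-a) x z) (Or.inl le_rfl) (Or.inr le_rfl)
    have mD : Mp p D := fun x x' e => by
      rw [hD, Pi.sub_apply, Pi.sub_apply, mr x x' e, cE_meas w p r0 x x' e]
    obtain ⟨ρ, hρ⟩ : ∃ ρ, ρ = r0 + D := ⟨_, rfl⟩
    have ρ_nn : ∀ S, 0 ≤ ρ S := fun S => by
      rw [hρ, Pi.add_apply]
      exact add_nonneg (r0_nn S) (D_nn S)
    have cρ : cE w p ρ = r := by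
      rw [hρ, cE_add, cE_of_meas w mD, hD]
      abel
    have gρ : gm w ρ = gm w r := by rw [← cρ, gm_cE]
    have gD : gm w D = gm w r - gm w r0 := by
      have h1 := gm_add w r0 D
      rw [← hρ, gρ] at h1
      linarith
    have hZρ : 0 < gm w ρ := by
      rw [gρ]
      linarith
    obtain ⟨ib, hib⟩ : ∃ ib : Px (Pn N y) → ℝ, ib = id46 (fun S : Px (Pn N y) =>
      ¬ Wx μ s γ B η c0 l0 k0 a (pos S.1 c0) (pos S.1 (c0 + l0))) := ⟨_, rfl⟩
    have ib_nn : ∀ S, 0 ≤ ib S := fun S => by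
      rw [hib]
      exact id_nonneg46 _ _
    obtain ⟨κ, hκ⟩ : ∃ κ, κ = r0 * ib + D := ⟨_, rfl⟩
    have κ_nn : ∀ S, 0 ≤ κ S := fun S => by
      rw [hκ, Pi.add_apply, Pi.mul_apply]
      exact add_nonneg (mul_nonneg (r0_nn S) (ib_nn S)) (D_nn S)
    -- the masses
    obtain ⟨b0, hb0⟩ : ∃ b0, b0 = bw μ s N γ B c0 l0 k0 a y η := ⟨_, rfl⟩
    obtain ⟨b0', hb0'⟩ : ∃ b0', b0' = bw μ s N γ B c0 l0 k0 (-a) y' η' := ⟨_, rfl⟩
    obtain ⟨b1, hb1⟩ : ∃ b1, b1 = bw μ s N γ ξ c l k a y η := ⟨_, rfl⟩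
    obtain ⟨b1', hb1'⟩ : ∃ b1', b1' = bw μ s N γ ξ c l k (-a) y' η' := ⟨_, rfl⟩
    have e0 : gm w ib = b0 := by
      rw [hib, hw, hb0]
      rfl
    have e0' : gm w (r0 * ib) ≤ q * b0' := by
      have h := t0 (fun x z => id46 (fun u : ℤ × ℤ => ¬ Wx μ s γ B η c0 l0 k0 a u.1 u.2) (x, z))
      have h1 : gm w (r0 * ib) = gm w (fun S => r0 S * id46 (fun u : ℤ × ℤ => ¬ Wx μ s γ B η c0 l0 k0 a u.1 u.2)
          (pos S.1 c0, pos S.1 (c0 + l0))) := by
        rw [hib]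
        rfl
      rw [h1, h]
      refine mul_le_mul_of_nonneg_left ?_ hq0.le
      rw [hb0']
      unfold bw
      rw [← hw']
      refine gm_mono w' fun S => ?_
      have h2 : id46 (fun u : ℤ × ℤ => ¬ Wx μ s γ B η c0 l0 k0 a u.1 u.2) (pos S.1 c0, pos S.1 (c0 + l0) + -a) ≤
          id46 (fun S : Px (Pn N y') => ¬ Wx μ s γ B η' c0 l0 k0 (-a) (pos S.1 c0) (pos S.1 (c0 + l0))) S := by
        have h3 := wx_flip (μ := μ) (s := s) (γ := γ) (ξ := B) η (c := c0) hk0 a (pos S.1 c0) (pos S.1 (c0 + l0))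
        rw [hj, ← hη'] at h3
        unfold id46
        by_cases h4 : Wx μ s γ B η' c0 l0 k0 (-a) (pos S.1 c0) (pos S.1 (c0 + l0))
        · rw [if_neg (not_not.2 h4), if_neg (not_not.2 (h3.1 h4))]
        · rw [if_pos h4]
          split_ifs <;> norm_num
      have h5 := O0_le S
      have h6 := O0_nn S
      rw [hO0] at h5 h6
      have h7 := id_nonneg46 (fun u : ℤ × ℤ => ¬ Wx μ s γ B η c0 l0 k0 a u.1 u.2) (pos S.1 c0, pos S.1 (c0 + l0) + -a)
      calc (if Ok c0 l0 (-a) S.1 then (1 : ℝ) else 0) * id46 (fun u : ℤ × ℤ => ¬ Wx μ s γ B η c0 l0 k0 a u.1 u.2)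
            (pos S.1 c0, pos S.1 (c0 + l0) + -a) ≤ 1 * id46 (fun u : ℤ × ℤ => ¬ Wx μ s γ B η c0 l0 k0 a u.1 u.2)
            (pos S.1 c0, pos S.1 (c0 + l0) + -a) := mul_le_mul_of_nonneg_right h5 h7
        _ ≤ _ := by
          rw [one_mul]
          exact h2
    have eκ : gm w κ / gm w ρ ≤ 2 * (b0' + n0) := by
      have h1 : gm w κ ≤ q * (b0' + n0) := by
        rw [hκ, gm_add, gD]
        linarith
      have hb : 0 ≤ b0' := by rw [hb0']; exact bw_nonneg46 _ _ _ _ _ _ _ _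
      rw [div_le_iff₀ hZρ, gρ]
      have h2 := mul_le_mul_of_nonneg_left R1 (show 0 ≤ 2 * (b0' + n0) by linarith)
      linarith
    -- the base window
    obtain ⟨fl, hfl⟩ : ∃ fl : Px (Pn N y) → Prop, fl = fun S => Flat μ s γ l a (pos S.1 (c + l) - pos S.1 c) := ⟨_, rfl⟩
    have hflm : ∀ x x', p x = p x' → (fl x ↔ fl x') := fun x x' e => by
      rw [hp] at e
      have h1 : ps x c = ps x' c := ps_of_le e le_rfl
      have h2 : ps x (c + l) = ps x' (c + l) := ps_of_ge e le_rfl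
      unfold ps at h1 h2
      rw [hfl]
      beta_reduce
      rw [h1, h2]
    have ngb : ∀ S, id46 (Ng w p ρ ξ fl) S ≤ id46 (fun u : ℤ × ℤ => ¬ Wx μ s γ ξ η c l k a u.1 u.2) (pos S.1 c, pos S.1 (c + l)) := by
      intro S
      unfold id46
      by_cases h4 : Wx μ s γ ξ η c l k a (pos S.1 c) (pos S.1 (c + l))
      · rw [if_neg (not_not.2 h4), if_neg]
        unfold Ng
        rw [not_not, cρ, hr, hfl]
        have h3 := fo _ h4.1
        have e1 := rp_exp46 (μ := μ) (s := s) η (c := c) hk (v := -a) (S := S.1) (by omega) (by omega)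
        have h5 := abs_le.1 h4.2
        beta_reduce
        rw [e1]
        exact ⟨Real.exp_le_exp.2 h5.1, Real.exp_le_exp.2 h5.2, h4.1⟩
      · rw [if_pos h4]
        split_ifs <;> norm_num
    have g1a : gm w (id46 (Ng w p ρ ξ fl)) ≤ b1 := by
      refine (gm_mono w ngb).trans (le_of_eq ?_)
      rw [hb1]
      unfold bw
      rw [← hw]
      rfl
    have g1b : Qf w ρ (id46 (Ng w p ρ ξ fl)) ≤ 2 * b1' := by
      have h1 : gm w (fun x => ρ x * id46 (Ng w p ρ ξ fl) x) ≤ q * b1' := by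
        rw [gm_rho46 w ρ (mp_Ng hflm), cρ]
        have h := t1 (fun x z => id46 (fun u : ℤ × ℤ => ¬ Wx μ s γ ξ η c l k a u.1 u.2) (x, z))
        refine (gm_mono w fun S => mul_le_mul_of_nonneg_left (ngb S) (r_nn S)).trans ?_
        rw [h]
        refine mul_le_mul_of_nonneg_left ?_ hq0.le
        rw [hb1']
        unfold bw
        rw [← hw']
        refine gm_mono w' fun S => ?_
        have h2 : id46 (fun u : ℤ × ℤ => ¬ Wx μ s γ ξ η c l k a u.1 u.2) (pos S.1 c, pos S.1 (c + l) + -a) ≤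
            id46 (fun S : Px (Pn N y') => ¬ Wx μ s γ ξ η' c l k (-a) (pos S.1 c) (pos S.1 (c + l))) S := by
          have h3 := wx_flip (μ := μ) (s := s) (γ := γ) (ξ := ξ) η (c := c) hk a (pos S.1 c) (pos S.1 (c + l))
          rw [← hη'] at h3
          unfold id46
          by_cases h4 : Wx μ s γ ξ η' c l k (-a) (pos S.1 c) (pos S.1 (c + l))
          · rw [if_neg (not_not.2 h4), if_neg (not_not.2 (h3.1 h4))]
          · rw [if_pos h4]
            split_ifs <;> norm_num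
        have h5 := O1_le S
        rw [hO1] at h5
        have h7 := id_nonneg46 (fun u : ℤ × ℤ => ¬ Wx μ s γ ξ η c l k a u.1 u.2) (pos S.1 c, pos S.1 (c + l) + -a)
        calc (if Ok c l (-a) S.1 then (1 : ℝ) else 0) * id46 (fun u : ℤ × ℤ => ¬ Wx μ s γ ξ η c l k a u.1 u.2)
              (pos S.1 c, pos S.1 (c + l) + -a) ≤ 1 * id46 (fun u : ℤ × ℤ => ¬ Wx μ s γ ξ η c l k a u.1 u.2)
              (pos S.1 c, pos S.1 (c + l) + -a) := mul_le_mul_of_nonneg_right h5 h7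
          _ ≤ _ := by
            rw [one_mul]
            exact h2
      have hb : 0 ≤ b1' := by rw [hb1']; exact bw_nonneg46 _ _ _ _ _ _ _ _
      unfold Qf
      rw [div_le_iff₀ hZρ, gρ]
      have h2 := mul_le_mul_of_nonneg_left R1 (show 0 ≤ 2 * b1' by linarith)
      linarith
    have hEr : Er46 w p ρ κ ib ξ fl ≤ E := by
      rw [hE]
      unfold Er46 Ec46
      rw [← hb0, ← hb0', ← hb1, ← hb1', ← hn0, e0]
      have h1 := Real.exp_pos (4 * ξ)
      have h2 : 2 * Real.exp (4 * ξ) * (b0 + gm w κ / gm w ρ) ≤ 2 * Real.exp (4 * ξ) * (b0 + 2 * (b0' + n0)) :=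
        mul_le_mul_of_nonneg_left (by linarith) (by positivity)
      linarith
    have hib' : ∀ x, |Real.exp (-2 * (a : ℝ) * g0 x) - ρ x| ≤ κ x + ib x := fun S => by
      have h1 := clip_le46 (μ := μ) (s := s) (N := N) (y := y) η hk0 ha hB fo0 hg0 S
      have h2 : Real.exp (-2 * (a : ℝ) * g0 S) - ρ S = (Real.exp (-2 * (a : ℝ) * g0 S) - Rp μ s η c0 l0 k0 (-a) S.1) - D S := by
        rw [hρ, Pi.add_apply, hr0]
        ring
      have h3 : κ S + ib S = (Rp μ s η c0 l0 k0 (-a) S.1 + 1) * ib S + D S := by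
        rw [hκ, Pi.add_apply, Pi.mul_apply, hr0]
        ring
      rw [h2, h3]
      rw [← hib] at h1
      refine (abs_sub _ _).trans ?_
      rw [abs_of_nonneg (D_nn S)]
      linarith
    have hM : 0 ≤ B / 2 := by linarith
    have hγ : ∀ x, Real.exp (-ξ) ≤ cE w p ρ x → cE w p ρ x ≤ Real.exp ξ → fl x → g1 x = -((a : ℝ) / 2) * Real.log (cE w p ρ x) := by
      intro x h1 h2 h3
      rw [cρ, hr] at h1 h2 ⊢
      rw [hfl] at h3
      exact base46 η hk ha hξB fo hg1 x h1 h2 h3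
    have eM : 2 * (B / 2) = B := by ring
    constructor
    · have h1 := mean46 (w := w) (p := p) (γ := g1) haR hib' ib_nn κ_nn ρ_nn hZρ hflm hξ0 hξ hM bg0 bg1 hγ
      rw [eM] at h1
      rw [hG]
      refine h1.trans ?_
      have h2 := mul_le_mul_of_nonneg_left hEr hB
      have h3 := mul_nonneg hB hn00
      linarith
    · intro w''
      have htv : ∀ f : Px (Pn N y) → ℝ, (∀ x, 0 ≤ f x) → (∀ x, f x ≤ 1) → gm w'' f ≤ Qf w ρ f + (T w'' + 2 * n0) := by
        intro f hf0 hf1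
        have h1 : gm w'' f ≤ gm w (fun S => r0 S * f S) / gm w r0 + T w'' := by
          have e1 : gm w (fun S => r0 S * f S) / gm w r0 = ∑ S : Px (Pn N y), pth μ s η N S.1 * Rp μ s η c0 l0 k0 (-a) S.1 /
              (∑ S ∈ Pn N y, pth μ s η N S * Rp μ s η c0 l0 k0 (-a) S) * f S := by
            have hz := gz_ne w
            unfold gm
            rw [div_div_div_cancel_right₀ hz]
            have e2 : ∑ x, Real.exp (w x) * r0 x = ∑ S ∈ Pn N y, pth μ s η N S * Rp μ s η c0 l0 k0 (-a) S := by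
              rw [← sum_Px]
              exact sum_congr rfl fun S _ => by rw [hw, exp_lw, hr0]
            rw [e2, sum_div]
            exact sum_congr rfl fun S _ => by
              rw [hw, exp_lw, hr0]
              ring
          have e3 : gm w'' f = ∑ S : Px (Pn N y), Real.exp (w'' S) / gz w'' * f S := by
            unfold gm
            rw [sum_div]
            exact sum_congr rfl fun S _ => by ring
          rw [e1, e3, hT, ← sub_le_iff_le_add', ← sum_sub_distrib]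
          refine sum_le_sum fun S _ => ?_
          rw [← sub_mul]
          have h2 := le_abs_self (Real.exp (w'' S) / gz w'' - pth μ s η N S.1 * Rp μ s η c0 l0 k0 (-a) S.1 /
            ∑ S ∈ Pn N y, pth μ s η N S * Rp μ s η c0 l0 k0 (-a) S)
          have h3 := abs_nonneg (Real.exp (w'' S) / gz w'' - pth μ s η N S.1 * Rp μ s η c0 l0 k0 (-a) S.1 /
            ∑ S ∈ Pn N y, pth μ s η N S * Rp μ s η c0 l0 k0 (-a) S)
          nlinarith [hf0 S, hf1 S]
        have h2 : gm w (fun S => r0 S * f S) / gm w r0 ≤ Qf w ρ f + 2 * n0 := by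
          obtain ⟨X, hX⟩ : ∃ X, X = gm w (fun S => r0 S * f S) := ⟨_, rfl⟩
          obtain ⟨Y, hY⟩ : ∃ Y, Y = gm w (fun S => ρ S * f S) := ⟨_, rfl⟩
          obtain ⟨U, hU⟩ : ∃ U, U = gm w r0 := ⟨_, rfl⟩
          obtain ⟨V, hV⟩ : ∃ V, V = gm w ρ := ⟨_, rfl⟩
          have hXY : X ≤ Y := by
            rw [hX, hY]
            refine gm_mono w fun S => ?_
            rw [hρ, Pi.add_apply]
            nlinarith [D_nn S, hf0 S]
          have hYV : Y ≤ V := by
            rw [hY, hV]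
            exact gm_mono w fun S => by nlinarith [ρ_nn S, hf1 S]
          have hY0 : 0 ≤ Y := by
            rw [hY]
            exact gm_nonneg w fun S => mul_nonneg (ρ_nn S) (hf0 S)
          have hU0 : 0 < U := by
            rw [hU]
            linarith
          have hV0 : 0 < V := by
            rw [hV]
            exact hZρ
          have hVU : V - U ≤ 2 * n0 * U := by
            rw [hV, hU, gρ]
            have h3 := mul_le_mul_of_nonneg_left R0 (show 0 ≤ 2 * n0 by linarith)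
            linarith
          have hUV : 0 ≤ V - U := by
            rw [hV, hU, gρ, ← gD]
            exact gm_nonneg w D_nn
          unfold Qf
          rw [← hX, ← hY, ← hU, ← hV]
          rw [div_le_iff₀ hU0]
          have h4 : Y ≤ (Y / V) * U + (V - U) := by
            have h5 : Y = Y / V * V := by field_simp
            have h6 : Y / V ≤ 1 := by
              rw [div_le_one hV0]
              exact hYV
            nlinarith
          nlinarith
        linarith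
      have h1 := mean46' (w := w) (p := p) (γ := g1) (tv := T w'' + 2 * n0) htv haR hib' ib_nn κ_nn ρ_nn hZρ hflm hξ0 hξ hM bg0 bg1 hγ
      rw [eM] at h1
      rw [hG]
      refine h1.trans ?_
      have h2 := mul_le_mul_of_nonneg_left hEr hB
      linarith
  rw [← hE, ← hn0]
  rw [hT, hG, hp] at hkey
  exact hkey

end corner

end

end Pool.Agent.W_7d29a1_C0.Cl46
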