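import Pool.Agent.W_7d29a1_C0.FlipM61
import Pool.Agent.W_7d29a1_C0.Blk18
import Pool.Agent.W_7d29a1_C0.Loc14

/-!
MP_7d29a1_pr, [CURV0] / [C0], E7: THE MASS OF THE STRAIGHT WINDOWS. (helper18)

`Ok c l v S` of `FlipM61` fails only for the paths whose displacement over the window `[c, c + l]` is at distance at most one of `0` or of
`l`. Such a path is steep, so that its mean mass is at most `exp (- N ^ c')` for all the windows `l ≥ N ^ κ`: pinned ends in the cone, and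
free end.
-/

set_option autoImplicit false

namespace Pool.Agent.W_7d29a1_C0.OkM18

open Finset MeasureTheory Filter Topology Pool.Agent.W_7d29a1_F Pool.Agent.W_7d29a1_X
open Pool.Agent.W_7d29a1_H (sl)
open Pool.Agent.W_7d29a1_HS (In wd)
open Pool.Agent.W_7d29a1_HZ (NSp wd' gp P1)
open Pool.W7d29a1.C0 (gz gm)
open Pool.Agent.W_7d29a1_C0.Mod92
open Pool.Agent.W_7d29a1_C0.Blk18
open Pool.Agent.W_7d29a1_C0.Flip61 (Ok)
open Pool.Agent.W_7d29a1_C0.Loc14 (Qp Qf lint_Qp lint_Qf measurable_Qp measurable_Qf Qp_nonneg Qf_nonneg)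

noncomputable section

variable {μ : Measure ℝ} {s : ℝ} [IsProbabilityMeasure μ] {c₁ C : ℝ} {n₀ : ℕ}

omit [IsProbabilityMeasure μ] in
theorem num18 {q x z K w r l : ℝ} (g1 : q ≤ x * (K * z * w)) (h3 : 2 * K * w ≤ x * r) (h8 : x * z * x = l) (hx : 0 ≤ x) (hz : 0 ≤ z) :
    q ≤ r * l / 2 := by
  have g3 : (2 * K * w) * (x * z) ≤ (x * r) * (x * z) := mul_le_mul_of_nonneg_right h3 (mul_nonneg hx hz)
  rw [← h8]
  nlinarith

/-- A path without steep pieces has no straight window. -/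
theorem ok_of_NSp (h : In μ s c₁ C n₀) {κ : ℝ} (hκ : 0 < κ) : ∃ ε : ℝ, 0 < ε ∧ ∃ N₀ : ℕ, ∀ N : ℕ, N₀ ≤ N → ∀ c l : ℕ,
    c + l ≤ N → (N : ℝ) ^ κ ≤ l → ∀ v : ℤ, |v| ≤ 1 → ∀ S : Finset ℕ, NSp μ s N N ε S → Ok c l v S := by
  obtain ⟨a, K, ha, ha1, hK, hwp⟩ := Pool.Agent.W_7d29a1_HZ.wd'_pow h
  obtain ⟨r, hr⟩ : ∃ r : ℝ, r = min (sl μ s) (1 - sl μ s) := ⟨_, rfl⟩
  have hs0 := h.sl_pos
  have hs1 := h.sl_lt
  have hr0 : 0 < r := by rw [hr]; exact lt_min hs0 (by linarith)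
  have hr1 : r ≤ sl μ s := by rw [hr]; exact min_le_left _ _
  have hr2 : r ≤ 1 - sl μ s := by rw [hr]; exact min_le_right _ _
  obtain ⟨w, hw⟩ : ∃ w : ℝ, w = wd' μ s 1 := ⟨_, rfl⟩
  have hw1 : 1 ≤ w := by rw [hw]; exact le_max_left _ _
  -- all large lengths
  have t1 : Tendsto (fun l : ℕ => (l : ℝ) ^ (a / 2)) atTop atTop :=
    (tendsto_rpow_atTop (by positivity : 0 < a / 2)).comp tendsto_natCast_atTop_atTop
  obtain ⟨l₀, hl₀⟩ := eventually_atTop.1 ((t1.eventually_ge_atTop (2 * K * w / r)).and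
    (tendsto_natCast_atTop_atTop.eventually_ge_atTop (2 / r)))
  have t2 : Tendsto (fun N : ℕ => (N : ℝ) ^ κ) atTop atTop := (tendsto_rpow_atTop hκ).comp tendsto_natCast_atTop_atTop
  obtain ⟨N₁, hN₁⟩ := eventually_atTop.1 (t2.eventually_ge_atTop ((max l₀ 1 : ℕ) : ℝ))
  refine ⟨κ * a / 2, by positivity, max N₁ 1, fun N hN c l hcl hl v hv S hS => ?_⟩
  have hN1 : 1 ≤ N := (le_max_right _ _).trans hN
  have hNR : (1 : ℝ) ≤ N := by exact_mod_cast hN1
  have h1 : ((max l₀ 1 : ℕ) : ℝ) ≤ l := (hN₁ N ((le_max_left _ _).trans hN)).trans hl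
  have h2 : max l₀ 1 ≤ l := by exact_mod_cast h1
  have hl1 : 1 ≤ l := (le_max_right _ _).trans h2
  have hlR : (1 : ℝ) ≤ l := by exact_mod_cast hl1
  have hl0 : (0 : ℝ) < l := by linarith
  obtain ⟨h3, h4⟩ := hl₀ l ((le_max_left _ _).trans h2)
  have h5 := hS c l hl1 hcl
  have h6 := (hwp 1 l le_rfl hl1).2.2
  rw [Nat.cast_one, div_one, ← hw] at h6
  have h7 : (N : ℝ) ^ (κ * a / 2) ≤ (l : ℝ) ^ (a / 2) := by
    have e : κ * a / 2 = κ * (a / 2) := by ring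
    rw [e, Real.rpow_mul (by linarith)]
    exact Real.rpow_le_rpow (by positivity) hl (by positivity)
  have hp : 0 < (l : ℝ) ^ (a / 2) := Real.rpow_pos_of_pos hl0 _
  have h8 : (l : ℝ) ^ (a / 2) * ((l : ℝ) ^ (1 - a)) * (l : ℝ) ^ (a / 2) = l := by
    rw [← Real.rpow_add hl0, ← Real.rpow_add hl0]
    have e : a / 2 + (1 - a) + a / 2 = 1 := by ring
    rw [e, Real.rpow_one]
  have h9 : (N : ℝ) ^ (κ * a / 2) * wd' μ s l ≤ r * l / 2 := by
    have hwl : 0 ≤ wd' μ s l := le_trans zero_le_one (le_max_left _ _)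
    have g1 : (N : ℝ) ^ (κ * a / 2) * wd' μ s l ≤ (l : ℝ) ^ (a / 2) * (K * (l : ℝ) ^ (1 - a) * w) :=
      mul_le_mul h7 h6 hwl hp.le
    rw [div_le_iff₀ hr0] at h3
    have hz : 0 ≤ (l : ℝ) ^ (1 - a) := Real.rpow_nonneg hl0.le _
    exact num18 g1 h3 h8 hp.le hz
  have h10 : |((pos S (c + l) - pos S c : ℤ) : ℝ) - sl μ s * l| ≤ r * l / 2 := h5.trans h9
  rw [abs_le] at h10
  have h11 : 1 ≤ r * l / 2 := by
    rw [div_le_iff₀ hr0] at h4
    linarith
  have h12 : r * l ≤ sl μ s * l := mul_le_mul_of_nonneg_right hr1 hl0.le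
  have h13 : r * l ≤ (1 - sl μ s) * l := mul_le_mul_of_nonneg_right hr2 hl0.le
  have h14 : (1 : ℝ) ≤ ((pos S (c + l) - pos S c : ℤ) : ℝ) := by linarith
  have h15 : ((pos S (c + l) - pos S c : ℤ) : ℝ) ≤ (l : ℝ) - 1 := by linarith
  have h16 : 1 ≤ pos S (c + l) - pos S c := by exact_mod_cast h14
  have h17 : pos S (c + l) - pos S c ≤ (l : ℤ) - 1 := by exact_mod_cast h15
  rw [abs_le] at hv
  unfold Ok
  omega

omit [IsProbabilityMeasure μ] in
open Classical in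
theorem ind_ok {N c l : ℕ} {v : ℤ} {ε : ℝ} {S : Finset ℕ} (h : NSp μ s N N ε S → Ok c l v S) :
    (if Ok c l v S then (0 : ℝ) else 1) ≤ if NSp μ s N N ε S then 0 else 1 := by
  by_cases h1 : NSp μ s N N ε S
  · rw [if_pos (h h1), if_pos h1]
  · rw [if_neg h1]
    split_ifs
    · exact zero_le_one
    · exact le_rfl

/-- **The mass of the straight windows**: pinned ends in the cone, and free end. -/
theorem okM18 (h : In μ s c₁ C n₀) {κ : ℝ} (hκ : 0 < κ) : ∃ δ c' : ℝ, 0 < δ ∧ 0 < c' ∧ ∃ N₀ : ℕ, ∀ N : ℕ, N₀ ≤ N →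
    ∀ c l : ℕ, c + l ≤ N → (N : ℝ) ^ κ ≤ l → ∀ v : ℤ, |v| ≤ 1 →
      (∀ y : ℕ, y ≤ N → |(y : ℝ) - sl μ s * N| ≤ (N : ℝ) ^ δ * wd' μ s N →
        ∫ η, gm (lw μ s η N (Pn N y)) (fun S => if Ok c l v S.1 then 0 else 1) ∂(law μ) ≤ Real.exp (-(N : ℝ) ^ c')) ∧
      ∫ η, gm (lw μ s η N (Fr N)) (fun S => if Ok c l v S.1 then 0 else 1) ∂(law μ) ≤ Real.exp (-(N : ℝ) ^ c') := by
  classical
  obtain ⟨ε, hε, N₁, hok⟩ := ok_of_NSp h hκ
  obtain ⟨δ, c₂, hδ, hc₂, N₂, hns⟩ := Pool.Agent.W_7d29a1_HZ.ns h ε hε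
  obtain ⟨c₃, hc₃, N₃, hnf⟩ := Pool.Agent.W_7d29a1_LB.nsf14 h ε hε
  refine ⟨δ, min c₂ c₃, hδ, lt_min hc₂ hc₃, max (max N₁ N₂) (max N₃ 1), fun N hN c l hcl hl v hv => ?_⟩
  have k1 : N₁ ≤ N := (le_max_left _ _).trans ((le_max_left _ _).trans hN)
  have k2 : N₂ ≤ N := (le_max_right _ _).trans ((le_max_left _ _).trans hN)
  have k3 : N₃ ≤ N := (le_max_left _ _).trans ((le_max_right _ _).trans hN)
  have k4 : 1 ≤ N := (le_max_right _ _).trans ((le_max_right _ _).trans hN)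
  have hNR : (1 : ℝ) ≤ N := by exact_mod_cast k4
  have hm : ∀ a : ℝ, min c₂ c₃ ≤ a → Real.exp (-(N : ℝ) ^ a) ≤ Real.exp (-(N : ℝ) ^ min c₂ c₃) := fun a ha =>
    Real.exp_le_exp.2 (neg_le_neg (Real.rpow_le_rpow_of_exponent_le hNR ha))
  constructor
  · intro y hy hyc
    have := ne_Pn hy
    have g1 : ∀ η : Env, gm (lw μ s η N (Pn N y)) (fun S => if Ok c l v S.1 then 0 else 1) ≤ Qp μ s η N ε y := by
      intro η
      refine (Pool.W7d29a1.C0.gm_mono _ (g := fun S : Px (Pn N y) => if NSp μ s N N ε S.1 then (0 : ℝ) else 1)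
        (fun S => ind_ok (hok N k1 c l hcl hl v hv S.1))).trans (le_of_eq ?_)
      rw [gm_Pn η N y fun S => if NSp μ s N N ε S then (0 : ℝ) else 1]
      rfl
    have g0 : ∀ η : Env, 0 ≤ gm (lw μ s η N (Pn N y)) (fun S => if Ok c l v S.1 then 0 else 1) := fun η =>
      Pool.W7d29a1.C0.gm_nonneg _ fun S => by split_ifs <;> norm_num
    have g2 : ∫⁻ η, ENNReal.ofReal (Qp μ s η N ε y) ∂(law μ) ≤ ENNReal.ofReal (Real.exp (-(N : ℝ) ^ min c₂ c₃)) := by
      rw [lint_Qp]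
      exact (hns N k2 N (by omega) le_rfl y (by positivity) (by exact_mod_cast hy) (by exact_mod_cast hyc)).trans
        (ENNReal.ofReal_le_ofReal (hm _ (min_le_left _ _)))
    rw [integral_eq_lintegral_of_nonneg_ae (Eventually.of_forall g0)
      (meas_gm (w := fun η : Env => lw μ s η N (Pn N y)) (f := fun _ S => if Ok c l v S.1 then (0 : ℝ) else 1)
        (fun S => meas_lw S) (fun S => measurable_const)).aestronglyMeasurable]
    refine ENNReal.toReal_le_of_le_ofReal (Real.exp_pos _).le (le_trans ?_ g2)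
    exact lintegral_mono fun η => ENNReal.ofReal_le_ofReal (g1 η)
  · have g1 : ∀ η : Env, gm (lw μ s η N (Fr N)) (fun S => if Ok c l v S.1 then 0 else 1) ≤ Qf μ s η N ε := by
      intro η
      refine (Pool.W7d29a1.C0.gm_mono _ (g := fun S : Px (Fr N) => if NSp μ s N N ε S.1 then (0 : ℝ) else 1)
        (fun S => ind_ok (hok N k1 c l hcl hl v hv S.1))).trans (le_of_eq ?_)
      rw [gm_lw η fun S => if NSp μ s N N ε S then (0 : ℝ) else 1]
      rfl
    have g0 : ∀ η : Env, 0 ≤ gm (lw μ s η N (Fr N)) (fun S => if Ok c l v S.1 then 0 else 1) := fun η =>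
      Pool.W7d29a1.C0.gm_nonneg _ fun S => by split_ifs <;> norm_num
    have g2 : ∫⁻ η, ENNReal.ofReal (Qf μ s η N ε) ∂(law μ) ≤ ENNReal.ofReal (Real.exp (-(N : ℝ) ^ min c₂ c₃)) := by
      rw [lint_Qf]
      refine ENNReal.ofReal_le_ofReal (le_trans (le_of_eq ?_) ((hnf N k3).trans (hm _ (min_le_right _ _))))
      refine integral_congr_ae (Eventually.of_forall fun η => sum_congr rfl fun S _ => ?_)
      by_cases hc : NSp μ s N N ε S
      · simp only [if_pos hc]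
      · simp only [if_neg hc]
    rw [integral_eq_lintegral_of_nonneg_ae (Eventually.of_forall g0)
      (meas_gm (w := fun η : Env => lw μ s η N (Fr N)) (f := fun _ S => if Ok c l v S.1 then (0 : ℝ) else 1)
        (fun S => meas_lw S) (fun S => measurable_const)).aestronglyMeasurable]
    refine ENNReal.toReal_le_of_le_ofReal (Real.exp_pos _).le (le_trans ?_ g2)
    exact lintegral_mono fun η => ENNReal.ofReal_le_ofReal (g1 η)

end

end Pool.Agent.W_7d29a1_C0.OkM18
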