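import Pool.Agent.W_7d29a1_C0.ClM46
import Pool.Agent.W_7d29a1_C0.OkM18

/-!
STORM C0 (helper46): THE CLIP MEAN, the masses of the bad windows. `bwT46`: the mean mass of the paths for which a window of length at
least `N ^ κ` is bad at the level `N ^ ε` is at most `exp (- N ^ c')` (from `kick14_unit` and `ns`). `flat46`: the ends of a window which is
not steep leave room for the kick.
-/

set_option autoImplicit false
set_option linter.unusedSectionVars false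
set_option linter.unusedVariables false

namespace Pool.Agent.W_7d29a1_C0.Cl46

open Finset MeasureTheory Filter Topology Pool.Agent.W_7d29a1_F Pool.Agent.W_7d29a1_X Pool.Agent.W_7d29a1_h4g
open Pool.Agent.W_7d29a1_H (sl)
open Pool.Agent.W_7d29a1_HS (In wd)
open Pool.Agent.W_7d29a1_HZ (NSp wd' gp P1)
open Pool.Agent.W_7d29a1_Z74 (ZJ)
open Pool.Agent.W_7d29a1_C0.Mod92 Pool.Agent.W_7d29a1_C0.Blk18 Pool.Agent.W_7d29a1_C0.Flip61
open Pool.Agent.W_7d29a1_C0.Loc14 (Qp lint_Qp measurable_Qp Qp_nonneg)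
open Pool.W7d29a1.C0 (gz gm gm_mono gm_nonneg gm_const)

noncomputable section

variable {μ : Measure ℝ} {s : ℝ} [IsProbabilityMeasure μ] {c₁ C : ℝ} {n₀ : ℕ}

/-- The mean mass of the paths with a steep piece. -/
theorem nsp46 (h : In μ s c₁ C n₀) {ε : ℝ} (hε : 0 < ε) : ∃ δ c' : ℝ, 0 < δ ∧ 0 < c' ∧ ∃ N₀ : ℕ, ∀ N : ℕ, N₀ ≤ N →
    ∀ y : ℕ, y ≤ N → |(y : ℝ) - sl μ s * N| ≤ (N : ℝ) ^ δ * wd' μ s N →
      Integrable (fun η => Qp μ s η N ε y) (law μ) ∧ ∫ η, Qp μ s η N ε y ∂(law μ) ≤ Real.exp (-(N : ℝ) ^ c') := by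
  classical
  obtain ⟨δ, c₂, hδ, hc₂, N₂, hns⟩ := Pool.Agent.W_7d29a1_HZ.ns h ε hε
  refine ⟨δ, c₂, hδ, hc₂, N₂, fun N hN y hy hyc => ?_⟩
  have g2 : ∫⁻ η, ENNReal.ofReal (Qp μ s η N ε y) ∂(law μ) ≤ ENNReal.ofReal (Real.exp (-(N : ℝ) ^ c₂)) := by
    rw [lint_Qp]
    exact hns N hN N (by omega) le_rfl y (by positivity) (by exact_mod_cast hy) (by exact_mod_cast hyc)
  have hm : Measurable fun η : Env => Qp μ s η N ε y := measurable_Qp N ε y
  have h0 : ∀ η : Env, 0 ≤ Qp μ s η N ε y := fun η => Qp_nonneg η N ε y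
  constructor
  · refine ⟨hm.aestronglyMeasurable, ?_⟩
    rw [hasFiniteIntegral_iff_ofReal (Eventually.of_forall h0)]
    exact g2.trans_lt ENNReal.ofReal_lt_top
  · rw [integral_eq_lintegral_of_nonneg_ae (Eventually.of_forall h0) hm.aestronglyMeasurable]
    exact ENNReal.toReal_le_of_le_ofReal (Real.exp_pos _).le g2

/-- A path without steep pieces has good windows, if the kicks are small. -/
theorem wx_of46 (h : In μ s c₁ C n₀) {κ γ ε δK : ℝ} (hκ : 0 < κ) (hγ : 0 < γ) (hε : 0 < ε) (hδK : 0 < δK) :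
    ∃ ε₁ : ℝ, 0 < ε₁ ∧ ∃ N₀ : ℕ, ∀ N : ℕ, N₀ ≤ N → ∀ c l k : ℕ, c + l ≤ N → (N : ℝ) ^ κ ≤ l → k < l → ∀ a : ℤ, |a| ≤ 1 →
      ∀ ξ : ℝ, (N : ℝ) ^ ε ≤ ξ → ∀ η : Env, K14.KU μ s N δK (min ε κ) η → ∀ S : Finset ℕ, NSp μ s N N ε₁ S →
        Wx μ s γ ξ η c l k a (pos S c) (pos S (c + l)) := by
  obtain ⟨n₁, hw⟩ := Pool.Agent.W_7d29a1_HZ.wd'_eq h
  have hmin : 0 < min δK γ := lt_min hδK hγ
  have t1 : Tendsto (fun l : ℕ => (l : ℝ) ^ (γ / 2)) atTop atTop :=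
    (tendsto_rpow_atTop (by positivity : 0 < γ / 2)).comp tendsto_natCast_atTop_atTop
  obtain ⟨l₀, hl₀⟩ := eventually_atTop.1 (t1.eventually_ge_atTop 2)
  have t2 : Tendsto (fun N : ℕ => (N : ℝ) ^ κ) atTop atTop := (tendsto_rpow_atTop hκ).comp tendsto_natCast_atTop_atTop
  obtain ⟨N₁, hN₁⟩ := eventually_atTop.1 (t2.eventually_ge_atTop ((max (max l₀ n₁) 1 : ℕ) : ℝ))
  refine ⟨κ * min δK γ / 2, by positivity, max N₁ 1, fun N hN c l k hcl hl hkl a ha ξ hξ η hη S hS => ?_⟩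
  have hN1 : 1 ≤ N := (le_max_right _ _).trans hN
  have hNR : (1 : ℝ) ≤ N := by exact_mod_cast hN1
  have h1 : ((max (max l₀ n₁) 1 : ℕ) : ℝ) ≤ l := (hN₁ N ((le_max_left _ _).trans hN)).trans hl
  have h2 : max (max l₀ n₁) 1 ≤ l := by exact_mod_cast h1
  have hl1 : 1 ≤ l := (le_max_right _ _).trans h2
  have hlR : (1 : ℝ) ≤ l := by exact_mod_cast hl1
  have hl0 : (0 : ℝ) < l := by linarith
  have h3 := hl₀ l ((le_max_left _ _).trans ((le_max_left _ _).trans h2))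
  obtain ⟨w1, -, w2⟩ := hw l ((le_max_right _ _).trans ((le_max_left _ _).trans h2))
  have w3 : 1 ≤ wd μ s l := (Real.one_le_rpow hlR (by norm_num)).trans w2
  have h5 := hS c l hl1 hcl
  rw [w1] at h5
  have h7 : (N : ℝ) ^ (κ * min δK γ / 2) ≤ (l : ℝ) ^ (min δK γ / 2) := by
    have e : κ * min δK γ / 2 = κ * (min δK γ / 2) := by ring
    rw [e, Real.rpow_mul (by linarith)]
    exact Real.rpow_le_rpow (by positivity) hl (by positivity)
  have h8 : |((pos S (c + l) - pos S c : ℤ) : ℝ) - sl μ s * l| ≤ (l : ℝ) ^ (min δK γ / 2) * wd μ s l :=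
    h5.trans (mul_le_mul_of_nonneg_right h7 (by linarith))
  have p1 : (l : ℝ) ^ (min δK γ / 2) ≤ (l : ℝ) ^ (γ / 2) :=
    Real.rpow_le_rpow_of_exponent_le hlR (by linarith [min_le_right δK γ])
  have p2 : (l : ℝ) ^ (min δK γ / 2) ≤ (l : ℝ) ^ δK :=
    Real.rpow_le_rpow_of_exponent_le hlR (by linarith [min_le_left δK γ])
  have p3 : (l : ℝ) ^ γ = (l : ℝ) ^ (γ / 2) * (l : ℝ) ^ (γ / 2) := by
    rw [← Real.rpow_add hl0]
    congr 1
    ring
  have haR : |(a : ℝ)| ≤ 1 := by exact_mod_cast ha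
  constructor
  · unfold Flat
    have e1 : |((pos S (c + l) - pos S c : ℤ) : ℝ) + (a : ℝ) / 2 - sl μ s * l| ≤
        |((pos S (c + l) - pos S c : ℤ) : ℝ) - sl μ s * l| + |(a : ℝ) / 2| := by
      have e2 : ((pos S (c + l) - pos S c : ℤ) : ℝ) + (a : ℝ) / 2 - sl μ s * l =
        (((pos S (c + l) - pos S c : ℤ) : ℝ) - sl μ s * l) + (a : ℝ) / 2 := by ring
      rw [e2]
      exact abs_add_le _ _
    have e3 : |(a : ℝ) / 2| ≤ 1 / 2 := by
      rw [abs_div, abs_two]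
      linarith
    have e4 : (l : ℝ) ^ (min δK γ / 2) * wd μ s l ≤ (l : ℝ) ^ (γ / 2) * wd μ s l :=
      mul_le_mul_of_nonneg_right p1 (by linarith)
    have e5 : 2 ≤ (l : ℝ) ^ (γ / 2) * wd μ s l := by nlinarith
    have e6 : 2 * ((l : ℝ) ^ (γ / 2) * wd μ s l) ≤ (l : ℝ) ^ γ * wd μ s l := by
      rw [p3, mul_assoc]
      exact mul_le_mul_of_nonneg_right h3 (by linarith)
    linarith
  · have hx0 := pos_nonneg S c
    have hx1 := pos_le S c
    have h9 := hη c l hcl (le_trans (Real.rpow_le_rpow_of_exponent_le hNR (min_le_right _ _)) hl) (pos S c)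
      (by rw [abs_of_nonneg hx0]; omega) (-a) (by rw [abs_neg]; exact ha) k hkl (pos S (c + l) - pos S c)
      (h8.trans (mul_le_mul_of_nonneg_right p2 (by linarith)))
    unfold lk
    exact (h9.trans (Real.rpow_le_rpow_of_exponent_le hNR (min_le_left _ _))).trans hξ

/-- **The mean masses of the bad windows.** -/
theorem bwT46 (h : In μ s c₁ C n₀) {κ γ ε : ℝ} (hκ : 0 < κ) (hγ : 0 < γ) (hε : 0 < ε) : ∃ δ c' : ℝ, 0 < δ ∧ 0 < c' ∧
    ∃ N₀ : ℕ, ∀ N : ℕ, N₀ ≤ N → ∀ y : ℕ, y ≤ N → |(y : ℝ) - sl μ s * N| ≤ (N : ℝ) ^ δ * wd' μ s N → ∀ c l k : ℕ, c + l ≤ N →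
      (N : ℝ) ^ κ ≤ l → k < l → ∀ a : ℤ, |a| ≤ 1 → ∀ ξ : ℝ, (N : ℝ) ^ ε ≤ ξ →
        ∫ η, bw μ s N γ ξ c l k a y η ∂(law μ) ≤ Real.exp (-(N : ℝ) ^ c') := by
  classical
  obtain ⟨δK, cK, hδK, hcK, LK, hK⟩ := K14.kick14_unit h (show 0 < min ε κ from lt_min hε hκ)
  obtain ⟨ε₁, hε₁, N₁, hwx⟩ := wx_of46 h hκ hγ hε hδK
  obtain ⟨δ, c₂, hδ, hc₂, N₂, hns⟩ := nsp46 h hε₁
  have hmin : 0 < min cK c₂ := lt_min hcK hc₂
  obtain ⟨N₃, hN₃⟩ := eventually_atTop.1 (Pool.Agent.W_7d29a1_HZ.Z74.ev_exp (A := 1) (a := 1) one_pos one_pos hmin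
    (show min cK c₂ / 2 < min cK c₂ by linarith) 0)
  refine ⟨δ, min cK c₂ / 2, hδ, by positivity, max (max LK N₁) (max N₂ (max N₃ 1)), fun N hN y hy hyc c l k hcl hl hkl a ha ξ hξ => ?_⟩
  have g1 : LK ≤ N := (le_max_left _ _).trans ((le_max_left _ _).trans hN)
  have g2 : N₁ ≤ N := (le_max_right _ _).trans ((le_max_left _ _).trans hN)
  have g3 : N₂ ≤ N := (le_max_left _ _).trans ((le_max_right _ _).trans hN)
  have g4 : N₃ ≤ N := (le_max_left _ _).trans ((le_max_right _ _).trans ((le_max_right _ _).trans hN))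
  have g5 : 1 ≤ N := (le_max_right _ _).trans ((le_max_right _ _).trans ((le_max_right _ _).trans hN))
  have hNR : (1 : ℝ) ≤ N := by exact_mod_cast g5
  have n1 := ne_Pn hy
  obtain ⟨iQ, hQ⟩ := hns N g3 y hy hyc
  obtain ⟨T, hT⟩ : ∃ T, T = toMeasurable (law μ) {η | ¬ K14.KU μ s N δK (min ε κ) η} := ⟨_, rfl⟩
  have mT : MeasurableSet T := by
    rw [hT]
    exact measurableSet_toMeasurable _ _
  have lT : law μ T ≤ ENNReal.ofReal (Real.exp (-(N : ℝ) ^ cK)) := by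
    rw [hT, measure_toMeasurable]
    exact hK N g1
  have iT : Integrable (T.indicator fun _ : Env => (1 : ℝ)) (law μ) := (integrable_const 1).indicator mT
  have eT : ∫ η, T.indicator (fun _ : Env => (1 : ℝ)) η ∂(law μ) = (law μ).real T := by
    have h1 := integral_indicator_one (μ := law μ) mT
    exact h1
  have bT : (law μ).real T ≤ Real.exp (-(N : ℝ) ^ cK) := ENNReal.toReal_le_of_le_ofReal (Real.exp_pos _).le lT
  -- pointwise
  have pw : ∀ η, bw μ s N γ ξ c l k a y η ≤ Qp μ s η N ε₁ y + T.indicator (fun _ : Env => (1 : ℝ)) η := by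
    intro η
    by_cases hη : η ∈ T
    · rw [Set.indicator_of_mem hη]
      have h1 : bw μ s N γ ξ c l k a y η ≤ 1 := by
        unfold bw
        have h2 := gm_mono (lw μ s η N (Pn N y)) (f := id46 fun S : Px (Pn N y) => ¬ Wx μ s γ ξ η c l k a (pos S.1 c) (pos S.1 (c + l)))
          (g := fun _ => 1) fun S => id_le46 _ S
        rwa [gm_const] at h2
      have h3 : 0 ≤ Qp μ s η N ε₁ y := Qp_nonneg η N ε₁ y
      linarith
    · rw [Set.indicator_of_notMem hη, add_zero]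
      have hKU : K14.KU μ s N δK (min ε κ) η := by
        by_contra hc
        exact hη (by
          rw [hT]
          exact subset_toMeasurable _ _ hc)
      unfold bw
      refine (gm_mono _ (g := fun S : Px (Pn N y) => if NSp μ s N N ε₁ S.1 then (0 : ℝ) else 1) fun S => ?_).trans (le_of_eq ?_)
      · unfold id46
        by_cases hS : NSp μ s N N ε₁ S.1
        · rw [if_pos hS, if_neg (not_not.2 (hwx N g2 c l k hcl hl hkl a ha ξ hξ η hKU S.1 hS))]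
        · rw [if_neg hS]
          split_ifs <;> norm_num
      · rw [gm_Pn η N y fun S => if NSp μ s N N ε₁ S then (0 : ℝ) else 1]
        rfl
  have h1 : ∫ η, bw μ s N γ ξ c l k a y η ∂(law μ) ≤ ∫ η, (Qp μ s η N ε₁ y + T.indicator (fun _ : Env => (1 : ℝ)) η) ∂(law μ) :=
    integral_mono_of_nonneg (Eventually.of_forall fun η => bw_nonneg46 _ _ _ _ _ _ _ _) (iQ.add iT) (Eventually.of_forall pw)
  rw [integral_add iQ iT, eT] at h1
  have h2 := hN₃ N g4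
  rw [Real.rpow_zero, mul_one, one_mul, one_mul] at h2
  have h3 : Real.exp (-(N : ℝ) ^ cK) ≤ Real.exp (-(N : ℝ) ^ min cK c₂) :=
    Real.exp_le_exp.2 (neg_le_neg (Real.rpow_le_rpow_of_exponent_le hNR (min_le_left _ _)))
  have h4 : Real.exp (-(N : ℝ) ^ c₂) ≤ Real.exp (-(N : ℝ) ^ min cK c₂) :=
    Real.exp_le_exp.2 (neg_le_neg (Real.rpow_le_rpow_of_exponent_le hNR (min_le_right _ _)))
  linarith

/-- **A window with ends which are not steep leaves room for the kick.** -/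
theorem flat46 (h : In μ s c₁ C n₀) : ∃ γ₀ : ℝ, 0 < γ₀ ∧ ∀ γ : ℝ, γ ≤ γ₀ → ∃ l₀ : ℕ, ∀ l : ℕ, l₀ ≤ l → ∀ a : ℤ, |a| ≤ 1 → ∀ D : ℤ,
    Flat μ s γ l a D → 0 ≤ D + a ∧ D + a ≤ l := by
  obtain ⟨a, K, ha, ha1, hK, hwp⟩ := Pool.Agent.W_7d29a1_HZ.wd'_pow h
  obtain ⟨r, hr⟩ : ∃ r : ℝ, r = min (sl μ s) (1 - sl μ s) := ⟨_, rfl⟩
  have hs0 := h.sl_pos
  have hs1 := h.sl_lt
  have hr0 : 0 < r := by rw [hr]; exact lt_min hs0 (by linarith)
  have hr1 : r ≤ sl μ s := by rw [hr]; exact min_le_left _ _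
  have hr2 : r ≤ 1 - sl μ s := by rw [hr]; exact min_le_right _ _
  obtain ⟨w, hw⟩ : ∃ w : ℝ, w = wd' μ s 1 := ⟨_, rfl⟩
  have hw1 : 1 ≤ w := by rw [hw]; exact le_max_left _ _
  refine ⟨a / 2, by positivity, fun γ hγ => ?_⟩
  have t1 : Tendsto (fun l : ℕ => (l : ℝ) ^ (a / 2)) atTop atTop :=
    (tendsto_rpow_atTop (by positivity : 0 < a / 2)).comp tendsto_natCast_atTop_atTop
  obtain ⟨l₀, hl₀⟩ := eventually_atTop.1 ((t1.eventually_ge_atTop (2 * K * w / r)).and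
    (tendsto_natCast_atTop_atTop.eventually_ge_atTop (2 / r)))
  refine ⟨max l₀ 1, fun l hl b hb D hD => ?_⟩
  have hl1 : 1 ≤ l := (le_max_right _ _).trans hl
  have hlR : (1 : ℝ) ≤ l := by exact_mod_cast hl1
  have hl0 : (0 : ℝ) < l := by linarith
  obtain ⟨h3, h4⟩ := hl₀ l ((le_max_left _ _).trans hl)
  have h6 := (hwp 1 l le_rfl hl1).2.2
  rw [Nat.cast_one, div_one, ← hw] at h6
  have hwd : wd μ s l ≤ wd' μ s l := le_max_right _ _
  have hp : 0 < (l : ℝ) ^ (a / 2) := Real.rpow_pos_of_pos hl0 _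
  have h8 : (l : ℝ) ^ (a / 2) * ((l : ℝ) ^ (1 - a)) * (l : ℝ) ^ (a / 2) = l := by
    rw [← Real.rpow_add hl0, ← Real.rpow_add hl0]
    have e : a / 2 + (1 - a) + a / 2 = 1 := by ring
    rw [e, Real.rpow_one]
  have hwl : 0 ≤ wd' μ s l := le_trans zero_le_one (le_max_left _ _)
  have h9 : (l : ℝ) ^ γ * wd μ s l ≤ r * l / 2 := by
    have g0 : (l : ℝ) ^ γ * wd μ s l ≤ (l : ℝ) ^ (a / 2) * wd' μ s l :=
      (mul_le_mul_of_nonneg_left hwd (Real.rpow_nonneg hl0.le _)).trans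
        (mul_le_mul_of_nonneg_right (Real.rpow_le_rpow_of_exponent_le hlR hγ) hwl)
    have g1 : (l : ℝ) ^ (a / 2) * wd' μ s l ≤ (l : ℝ) ^ (a / 2) * (K * (l : ℝ) ^ (1 - a) * w) :=
      mul_le_mul_of_nonneg_left h6 hp.le
    rw [div_le_iff₀ hr0] at h3
    exact OkM18.num18 (g0.trans g1) h3 h8 hp.le (Real.rpow_nonneg hl0.le _)
  unfold Flat at hD
  have hbR : |(b : ℝ)| ≤ 1 := by exact_mod_cast hb
  have h10 := abs_le.1 (hD.trans h9)
  have h11 : 1 ≤ r * l / 2 := by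
    rw [div_le_iff₀ hr0] at h4
    linarith
  have h12 : r * l ≤ sl μ s * l := mul_le_mul_of_nonneg_right hr1 hl0.le
  have h13 : r * l ≤ (1 - sl μ s) * l := mul_le_mul_of_nonneg_right hr2 hl0.le
  have hb2 := abs_le.1 hbR
  have h14 : (0 : ℝ) ≤ ((D + b : ℤ) : ℝ) := by
    push_cast
    linarith
  have h15 : ((D + b : ℤ) : ℝ) ≤ (l : ℝ) := by
    push_cast
    linarith
  exact ⟨by exact_mod_cast h14, by exact_mod_cast h15⟩

end

end Pool.Agent.W_7d29a1_C0.Cl46
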