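import Pool.Agent.W_7d29a1_C0.NSb61
import Pool.Agent.W_7d29a1_HZ.Z21_NsFinal

/-!
MP_7d29a1_pr, [CURV0] (helper61): TWO LEVELS IN LEMMA NS, closed: off an event of the environment of probability `exp (- L ^ c')` the
quenched mass of the paths which are steep (at the level `L ^ ε wd'`) at some interval of length `≥ m₀` is at most
`(N + 1) ^ 4 exp (- L ^ e EE m₀)`, FOR ALL `m₀` (`ns2_61`).
-/

set_option autoImplicit false

namespace Pool.Agent.W_7d29a1_C0.NS61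

open MeasureTheory ProbabilityTheory Filter Topology Finset
open Pool.Agent.W_7d29a1_F Pool.Agent.W_7d29a1_h4g Pool.Agent.W_7d29a1_H
open Pool.Agent.W_7d29a1_HS (In wd scale_b)
open Pool.Agent.W_7d29a1_Z21 (Typ21 typ_rv21 Bd62 quen62)
open Pool.Agent.W_7d29a1_g (rv)
open Pool.Agent.W_7d29a1_HZ (wd' gp gp_eqZ)
open Pool.Agent.W_7d29a1_HZ.Z21

variable {μ : Measure ℝ} [IsProbabilityMeasure μ] {s c C : ℝ} {n₀ : ℕ}

/-- **The deterministic theorem.** -/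
theorem det61 (h : In μ s c C n₀) {b b' : ℝ} (hb0 : 0 < b) (hb0' : 0 < b') : ∃ (g d g' d' : ℝ), 0 < g ∧ 4 * g ≤ c ∧ 0 < d ∧
    0 < g' ∧ 4 * g' ≤ c ∧ 0 < d' ∧ ∀ n₁ n₁' : ℕ, ∃ v₁ v₁' : ℝ, 0 < v₁ ∧ 0 < v₁' ∧ ∀ v₀ v₀' : ℝ, 0 < v₀ → v₀ ≤ v₁ → 0 < v₀' →
    v₀' ≤ v₁' → ∃ K : ℝ, 1 ≤ K ∧ ∀ Q B : ℝ, 1 ≤ Q → 0 ≤ B → ∀ m₀ : ℕ, B ≤ Q * EE μ s m₀ → ∀ (N : ℕ) (η : Env) (P : ℕ → ℤ),
    Env4 μ s c b Q d g v₀ n₁ b' d' g' v₀' n₁' N η → Typ21 μ B N η P → Pa21 N P → (∀ i, i ≤ N → 0 ≤ P i ∧ P i ≤ i) →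
    X μ s η ((0 : ℤ), (0 : ℤ)) N (P N) ≤ Q * EE μ s N →
    ∀ i n : ℕ, m₀ ≤ n → 1 ≤ n → i + n ≤ N → |((P (i + n) - P i : ℤ) : ℝ) - sl μ s * n| ≤ K * Q ^ 2 * wd' μ s n := by
  obtain ⟨g, d, T, hg, hgc, hd, hT, hstep⟩ := step61 h hb0
  obtain ⟨g', d', T', hg', hgc', hd', hT', hstep'⟩ := step61 h.mir hb0'
  refine ⟨g, d, g', d', hg, hgc, hd, hg', hgc', hd', fun n₁ n₁' => ?_⟩
  obtain ⟨v₁, hv₁, hv₁h, hst⟩ := hstep n₁
  obtain ⟨v₁', hv₁', hv₁h', hst'⟩ := hstep' n₁'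
  refine ⟨v₁, v₁', hv₁, hv₁', fun v₀ v₀' hv₀ hv₀1 hv₀' hv₀1' => ?_⟩
  obtain ⟨c₂, Λ, hc₂, hΛ, hS⟩ := hst v₀ hv₀ hv₀1
  obtain ⟨c₂', Λ', hc₂', hΛ', hS'⟩ := hst' v₀' hv₀' hv₀1'
  obtain ⟨Λt, hΛt, htop⟩ := top61 h hb0 hv₀ hb0' hv₀' (max T T') (by omega)
  obtain ⟨Λ₃, hΛ₃⟩ : ∃ Λ₃ : ℝ, Λ₃ = max Λ Λ' + Λt := ⟨_, rfl⟩
  have hΛm : 1 ≤ max Λ Λ' := hΛ.trans (le_max_left _ _)
  have hΛ₃0 : 0 < Λ₃ := by linarith
  have hc₂m : 0 < min c₂ c₂' := lt_min hc₂ hc₂'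
  obtain ⟨K₃, hK₃, hsm⟩ := small21 h hc₂m hΛ₃0
  obtain ⟨B, hB⟩ : ∃ B : ℝ, B = Λ₃ + K₃ + 1 := ⟨_, rfl⟩
  have hB1 : 1 ≤ B := by linarith
  refine ⟨B, hB1, fun Q B₁ hQ hB₁ m₀ hBm N η P hE hty hP h0 hX i n hm hn hin => ?_⟩
  obtain ⟨n₃, hn₃, hn₃'⟩ := hsm Q hQ
  have hBall : ∀ k : ℕ, m₀ ≤ k → B₁ ≤ Q * EE μ s k := fun k hk =>
    hBm.trans (mul_le_mul_of_nonneg_left (EE_mono hk) (by linarith))
  have hQ2 : 1 ≤ Q ^ 2 := one_le_pow₀ hQ
  have hEn := one_le_EE (μ := μ) (s := s) n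
  have hn0 : (0 : ℝ) < n := by exact_mod_cast hn
  have hle := hP.le i n hin
  have hph : ph21 μ s n (P (i + n) - P i) ≤ B * Q ^ 2 * EE μ s n := by
    rcases le_or_gt n₃ n with h1 | h1
    · have h2 := iter61 h (Λ₀ := Λ₃ * Q) hS hT hS' hT' hQ hB₁ hE hty hP h0 (m₀ := m₀) hBall (by positivity)
        (mul_le_mul_of_nonneg_right (by linarith) (by linarith)) (fun i' n' hm' hn' hin' hN' => by
          have h3 := htop d g n₁ d' g' n₁' Q B₁ hQ N (hBall N (by omega)) η P hE.e1 hE.e2 hty hP h0 hX i' n' hn' hin' hN'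
          have h4 : Λt * Q * EE μ s n' < Λ₃ * Q * EE μ s n' := by
            have := EE_pos (μ := μ) (s := s) n'
            exact mul_lt_mul_of_pos_right (mul_lt_mul_of_pos_right (by linarith) (by linarith)) this
          linarith) (n₃ := n₃) hn₃' i n hm h1 hn hin
      have h3 : Λ₃ * Q ≤ B * Q ^ 2 := by
        have h4 : Λ₃ * Q ≤ B * Q := mul_le_mul_of_nonneg_right (by linarith) (by linarith)
        have h5 : B * Q ≤ B * Q ^ 2 := mul_le_mul_of_nonneg_left (by nlinarith) (by linarith)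
        linarith
      exact h2.le.trans (mul_le_mul_of_nonneg_right h3 (by linarith))
    · have h2 : (n : ℝ) ≤ K₃ * Q ^ 2 := by
        have : (n : ℝ) ≤ n₃ := by exact_mod_cast h1.le
        linarith
      have h3 : |(((P (i + n) - P i : ℤ) : ℝ) - sl μ s * n) / n| ≤ 1 := by
        rw [abs_div, abs_of_pos hn0, div_le_iff₀ hn0, abs_le]
        have h1 : (0 : ℝ) ≤ ((P (i + n) - P i : ℤ) : ℝ) := by
          exact_mod_cast (by omega : 0 ≤ P (i + n) - P i)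
        have h2 : ((P (i + n) - P i : ℤ) : ℝ) ≤ n := by
          exact_mod_cast (by omega : P (i + n) - P i ≤ n)
        have h4 := mul_pos h.sl_pos hn0
        have h5 : sl μ s * n ≤ 1 * n := mul_le_mul_of_nonneg_right h.sl_lt.le hn0.le
        constructor <;> linarith
      unfold ph21
      have h4 := J_le_abs h.em h.nd s ((((P (i + n) - P i : ℤ) : ℝ) - sl μ s * n) / n)
      calc (n : ℝ) * J μ s ((((P (i + n) - P i : ℤ) : ℝ) - sl μ s * n) / n) ≤ (K₃ * Q ^ 2) * 1 :=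
            mul_le_mul h2 (h4.trans h3) (h.rf.nn _) (by positivity)
        _ = K₃ * Q ^ 2 * 1 := by ring
        _ ≤ B * Q ^ 2 * EE μ s n := by
          refine mul_le_mul (mul_le_mul_of_nonneg_right (by linarith) (by positivity)) hEn zero_le_one (by positivity)
  exact width21 h (by nlinarith) hn hph


section Typ

open Pool.Agent.W_7d29a1_X

omit [IsProbabilityMeasure μ]

open Classical in
/-- Almost all paths are typical, quenched. -/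
theorem typQ61 (η : Env) (N : ℕ) (y : ℤ) (Q : ℝ) (h0 : 0 ≤ y) (h1 : y ≤ N) :
    ∑ S ∈ (range N).powerset, (if ¬ Typ21 μ Q N η (pos S) then Pool.Agent.W_7d29a1_Z.gp μ η N y S else 0) ≤
      ((N : ℝ) + 1) ^ 4 * Real.exp (-Q) := by
  have hW : 0 < W μ 0 η 0 N y := W_pos _ _ h0 h1
  obtain ⟨I, hI⟩ : ∃ I : Finset (ℕ × ℕ × ℕ), I = (range (N + 1) ×ˢ range (N + 1) ×ˢ range (N + 1)).filter fun q => q.1 + q.2.1 + q.2.2 ≤ N :=
    ⟨_, rfl⟩
  have hcard : (I.card : ℝ) ≤ ((N : ℝ) + 1) ^ 3 := by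
    have a1 : I.card ≤ (N + 1) ^ 3 := by
      rw [hI]
      refine (card_filter_le _ _).trans (le_of_eq ?_)
      rw [card_product, card_product, card_range]
      ring
    have a2 : ((I.card : ℕ) : ℝ) ≤ (((N + 1) ^ 3 : ℕ) : ℝ) := by exact_mod_cast a1
    refine a2.trans (le_of_eq ?_)
    push_cast
    ring
  -- one triple of times
  have hone : ∀ q ∈ I, ∑ S ∈ (range N).powerset, (if Bd62 μ Q η q.1 q.2.1 q.2.2 (pos S q.1) (pos S (q.1 + q.2.1))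
      (pos S (q.1 + q.2.1 + q.2.2)) then Pool.Agent.W_7d29a1_Z.gp μ η N y S else 0) ≤ ((N : ℝ) + 1) * Real.exp (-Q) := by
    rintro ⟨i, n, m⟩ hq
    rw [hI, mem_filter] at hq
    obtain ⟨l, hl⟩ : ∃ l, N = i + n + m + l := ⟨N - (i + n + m), by have := hq.2; simp only at this; omega⟩
    simp only
    have e1 : ∑ S ∈ (range N).powerset, (if Bd62 μ Q η i n m (pos S i) (pos S (i + n)) (pos S (i + n + m)) then Pool.Agent.W_7d29a1_Z.gp μ η N y S else 0) =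
        Mt μ 0 η N (fun S => if Bd62 μ Q η i n m (pos S i) (pos S (i + n)) (pos S (i + n + m)) then 1 else 0) y / W μ 0 η 0 N y := by
      unfold Mt Pool.Agent.W_7d29a1_Z.gp
      rw [sum_div]
      refine sum_congr rfl fun S _ => ?_
      beta_reduce
      by_cases hB : Bd62 μ Q η i n m (pos S i) (pos S (i + n)) (pos S (i + n + m))
      · by_cases hy : pos S N = y
        · rw [if_pos hB, if_pos hy, if_pos hy, if_pos hB, mul_one]
        · rw [if_pos hB, if_neg hy, if_neg hy, zero_div]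
      · by_cases hy : pos S N = y
        · rw [if_neg hB, if_pos hy, if_neg hB, mul_zero, zero_div]
        · rw [if_neg hB, if_neg hy, zero_div]
    rw [e1, div_le_iff₀ hW]
    subst hl
    refine (quen62 η i n m l y).trans (mul_le_mul_of_nonneg_right (mul_le_mul_of_nonneg_right ?_ (Real.exp_nonneg _)) hW.le)
    push_cast
    have a1 : (0 : ℝ) ≤ m := Nat.cast_nonneg _
    have a2 : (0 : ℝ) ≤ l := Nat.cast_nonneg _
    linarith
  refine (sum_le_sum (g := fun S => ∑ q ∈ I, (if Bd62 μ Q η q.1 q.2.1 q.2.2 (pos S q.1) (pos S (q.1 + q.2.1))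
      (pos S (q.1 + q.2.1 + q.2.2)) then Pool.Agent.W_7d29a1_Z.gp μ η N y S else 0)) fun S _ => ?_).trans ?_
  · have hnn : ∀ q ∈ I, 0 ≤ (if Bd62 μ Q η q.1 q.2.1 q.2.2 (pos S q.1) (pos S (q.1 + q.2.1)) (pos S (q.1 + q.2.1 + q.2.2)) then
        Pool.Agent.W_7d29a1_Z.gp μ η N y S else 0) := by
      intro q _
      split_ifs
      · exact Pool.Agent.W_7d29a1_Z.gp_nonneg _ _ _ _
      · exact le_rfl
    by_cases h : Typ21 μ Q N η (pos S)
    · rw [if_neg (not_not.2 h)]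
      exact sum_nonneg hnn
    · rw [if_pos h]
      unfold Typ21 at h
      push Not at h
      obtain ⟨i, n, m, hN, k, hk0, hk1, hlt⟩ := h
      have hmem : ((i, n, m) : ℕ × ℕ × ℕ) ∈ I := by
        rw [hI, mem_filter, mem_product, mem_product, mem_range, mem_range, mem_range]
        refine ⟨⟨?_, ?_, ?_⟩, hN⟩
        · show i < N + 1
          omega
        · show n < N + 1
          omega
        · show m < N + 1
          omega
      refine le_trans (le_of_eq ?_) (single_le_sum hnn hmem)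
      have hB : Bd62 μ Q η i n m (pos S i) (pos S (i + n)) (pos S (i + n + m)) := ⟨k, hk0, hk1, hlt⟩
      simp only
      rw [if_pos hB]
  calc ∑ S ∈ (range N).powerset, ∑ q ∈ I, (if Bd62 μ Q η q.1 q.2.1 q.2.2 (pos S q.1) (pos S (q.1 + q.2.1))
        (pos S (q.1 + q.2.1 + q.2.2)) then Pool.Agent.W_7d29a1_Z.gp μ η N y S else 0)
    _ = ∑ q ∈ I, ∑ S ∈ (range N).powerset, (if Bd62 μ Q η q.1 q.2.1 q.2.2 (pos S q.1) (pos S (q.1 + q.2.1))
        (pos S (q.1 + q.2.1 + q.2.2)) then Pool.Agent.W_7d29a1_Z.gp μ η N y S else 0) := sum_comm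
    _ ≤ ∑ q ∈ I, ((N : ℝ) + 1) * Real.exp (-Q) := sum_le_sum hone
    _ = I.card * (((N : ℝ) + 1) * Real.exp (-Q)) := by rw [sum_const, nsmul_eq_mul]
    _ ≤ ((N : ℝ) + 1) ^ 3 * (((N : ℝ) + 1) * Real.exp (-Q)) := mul_le_mul_of_nonneg_right hcard (by positivity)
    _ = ((N : ℝ) + 1) ^ 4 * Real.exp (-Q) := by ring


end Typ

section Final

open Pool.Agent.W_7d29a1_X (pos pos_nonneg pos_le pos_zero)
open Pool.Agent.W_7d29a1_HS (wd_tendsto)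
open scoped ENNReal

/-- No steep interval of length at least `m₀`. -/
def NSm (μ : Measure ℝ) (s : ℝ) (L N : ℕ) (ε : ℝ) (m₀ : ℕ) (S : Finset ℕ) : Prop :=
  ∀ i n : ℕ, m₀ ≤ n → 1 ≤ n → i + n ≤ N → |((pos S (i + n) - pos S i : ℤ) : ℝ) - sl μ s * n| ≤ (L : ℝ) ^ ε * wd' μ s n

open Classical in
/-- The quenched mass of the paths with a steep interval of length at least `m₀`. -/
noncomputable def ms61 (μ : Measure ℝ) (s : ℝ) (L N : ℕ) (ε : ℝ) (m₀ : ℕ) (y : ℤ) (η : Env) : ℝ :=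
  ∑ S ∈ (range N).powerset, (if NSm μ s L N ε m₀ S then 0 else gp μ s η N y S)

/-- **LEMMA NS WITH TWO LEVELS.** -/
theorem ns2_61 (h : In μ s c C n₀) :
    ∀ ε : ℝ, 0 < ε → ∃ δ c' : ℝ, 0 < δ ∧ 0 < c' ∧ ∃ L₀ : ℕ, ∀ L : ℕ, L₀ ≤ L → ∀ N : ℕ, L ≤ 16 * N → N ≤ L →
    ∀ y : ℤ, 0 ≤ y → y ≤ N → |(y : ℝ) - sl μ s * N| ≤ (L : ℝ) ^ δ * wd' μ s N →
    law μ {η | ∃ m₀ : ℕ, ((N : ℝ) + 1) ^ 4 * Real.exp (-((L : ℝ) ^ (ε / 3) * EE μ s m₀)) < ms61 μ s L N ε m₀ y η} ≤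
      ENNReal.ofReal (Real.exp (-(L : ℝ) ^ c')) := by
  classical
  intro ε hε
  have hEnv : EnvP21 μ s c := envP67 h (tl67 h)
  have hEnv' : EnvP21 μ (-s) c := envP67 h.mir (tl67 h.mir)
  obtain ⟨e, he⟩ : ∃ e : ℝ, e = ε / 3 := ⟨_, rfl⟩
  have he0 : 0 < e := by rw [he]; positivity
  obtain ⟨b, hb, hEnv1⟩ := hEnv e he0
  obtain ⟨b', hb', hEnv1'⟩ := hEnv' e he0
  obtain ⟨g, d, g', d', hg, hgc, hd, hg', hgc', hd', hdet⟩ := det61 h hb hb'
  obtain ⟨n₁, hEnv2⟩ := hEnv1 g d hg hgc hd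
  obtain ⟨n₁', hEnv2'⟩ := hEnv1' g' d' hg' hgc' hd'
  obtain ⟨v₁, v₁', hv₁, hv₁', hdet2⟩ := hdet n₁ n₁'
  obtain ⟨v₀, hv₀, hv₀1, k₁, hk₁, L₁, hEnv3⟩ := hEnv2 v₁ hv₁
  obtain ⟨v₀', hv₀', hv₀1', k₁', hk₁', L₁', hEnv3'⟩ := hEnv2' v₁' hv₁'
  obtain ⟨K, hK, hdet3⟩ := hdet2 v₀ v₀' hv₀ hv₀1 hv₀' hv₀1'
  obtain ⟨c₁, hc₁⟩ : ∃ c₁ : ℝ, c₁ = min k₁ k₁' := ⟨_, rfl⟩
  have hc₁0 : 0 < c₁ := by rw [hc₁]; exact lt_min hk₁ hk₁'
  obtain ⟨K₀, A, a, γ, hK₀, hA, ha, hγ, -, hp2p⟩ := Pool.Agent.W_7d29a1_HZ.Z74.p2p_tail h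
  obtain ⟨δ, hδ⟩ : ∃ δ : ℝ, δ = e / (2 * K₀) := ⟨_, rfl⟩
  have hδ0 : 0 < δ := by rw [hδ]; positivity
  obtain ⟨c', hc'⟩ : ∃ c' : ℝ, c' = min c₁ (δ * γ) / 2 := ⟨_, rfl⟩
  have hmin : 0 < min c₁ (δ * γ) := by positivity
  have hc'0 : 0 < c' := by rw [hc']; positivity
  have hcc : c' < c₁ := by
    have : min c₁ (δ * γ) ≤ c₁ := min_le_left _ _
    rw [hc']; linarith
  have hcg : c' < δ * γ := by
    have : min c₁ (δ * γ) ≤ δ * γ := min_le_right _ _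
    rw [hc']; linarith
  obtain ⟨n₅, hn₅⟩ := eventually_atTop.1 ((wd_tendsto h).eventually_ge_atTop 1)
  have ev1 := Pool.Agent.W_7d29a1_HZ.Z74.ev_pow_le (b := ε) (c := 2 * e) (by rw [he]; linarith) (K := K) (a := 1) one_pos
  have ev2 := Pool.Agent.W_7d29a1_HZ.Z74.ev_pow_le (b := e) (c := δ * K₀) (by rw [hδ]; field_simp; linarith) (K := K₀) (a := 1) one_pos
  have ev4 := Pool.Agent.W_7d29a1_HZ.Z74.ev_exp (A := 2 * 4) (a := 1) (b := c₁) (c := c') (by norm_num) one_pos hc₁0 hcc 0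
  have ev5 := Pool.Agent.W_7d29a1_HZ.Z74.ev_exp (A := 2 * A) (a := a) (b := δ * γ) (c := c') (by positivity) ha (by positivity) hcg 0
  obtain ⟨L₂, hL₂⟩ := eventually_atTop.1 ((ev1.and ev2).and (ev4.and ev5))
  refine ⟨δ, c', hδ0, hc'0, max (max (max L₁ L₁') L₂) (16 * n₅ + 16), fun L hL N hLN hNL y hy0 hyN hy => ?_⟩
  obtain ⟨⟨h1, h2⟩, h4, h5⟩ := hL₂ L ((le_max_right _ _).trans ((le_max_left _ _).trans hL))
  have hLm : max L₁ L₁' ≤ L := (le_max_left _ _).trans ((le_max_left _ _).trans hL)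
  have hLL₁ : L₁ ≤ L := (le_max_left _ _).trans hLm
  have hLL₁' : L₁' ≤ L := (le_max_right _ _).trans hLm
  have hL16 : 16 * n₅ + 16 ≤ L := (le_max_right _ _).trans hL
  have hN5 : n₅ ≤ N := by omega
  have hN1 : 1 ≤ N := by omega
  have hL1 : (1 : ℝ) ≤ L := by exact_mod_cast (by omega : 1 ≤ L)
  have hL0 : (0 : ℝ) < L := by linarith
  obtain ⟨Q, hQ⟩ : ∃ Q : ℝ, Q = (L : ℝ) ^ e := ⟨_, rfl⟩
  have hQ1 : 1 ≤ Q := hQ ▸ Real.one_le_rpow hL1 he0.le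
  -- the bad environments
  have hcov : {η | ∃ m₀ : ℕ, ((N : ℝ) + 1) ^ 4 * Real.exp (-((L : ℝ) ^ (ε / 3) * EE μ s m₀)) < ms61 μ s L N ε m₀ y η} ⊆
      {η | ¬ Env4 μ s c b Q d g v₀ n₁ b' d' g' v₀' n₁' N η} ∪ {η | Q * EE μ s N < X μ s η 0 N y} := by
    intro η hη
    by_contra hcon
    rw [Set.mem_union, Set.mem_ofPred_eq, Set.mem_ofPred_eq] at hcon
    push Not at hcon
    obtain ⟨hc3, hc4⟩ := hcon
    rw [Set.mem_ofPred_eq] at hη
    obtain ⟨m₀, hm⟩ := hη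
    refine absurd hm (not_lt.2 ?_)
    rw [← he, ← hQ]
    refine le_trans ?_ (typQ61 (μ := μ) η N y (Q * EE μ s m₀) hy0 hyN)
    unfold ms61
    refine sum_le_sum fun S hS => ?_
    by_cases hty : Typ21 μ (Q * EE μ s m₀) N η (pos S)
    · rw [if_neg (not_not.2 hty)]
      by_cases hSy : pos S N = y
      · have hE0 : 0 ≤ Q * EE μ s m₀ := mul_nonneg (by linarith) (EE_pos _).le
        have hNS : NSm μ s L N ε m₀ S := by
          intro i n hmn hn hin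
          have h6 := hdet3 Q (Q * EE μ s m₀) hQ1 hE0 m₀ le_rfl N η (pos S) hc3 hty (pa_pos21 N S)
            (fun i _ => ⟨pos_nonneg S i, pos_le S i⟩) (by rw [hSy]; exact hc4) i n hmn hn hin
          refine h6.trans ?_
          have hw1 : 0 ≤ wd' μ s n := zero_le_one.trans (le_max_left _ _)
          have h7 : K * Q ^ 2 ≤ (L : ℝ) ^ ε := by
            have : Q ^ 2 = (L : ℝ) ^ (2 * e) := by
              rw [hQ, ← Real.rpow_natCast, ← Real.rpow_mul hL0.le]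
              congr 1
              push_cast
              ring
            rw [this]
            linarith
          exact mul_le_mul_of_nonneg_right h7 hw1
        rw [if_pos hNS]
      · have : gp μ s η N y S = 0 := by
          unfold gp
          rw [if_neg hSy]
        rw [this]
        split_ifs <;> exact le_rfl
    · rw [if_pos hty, gp_eqZ]
      split_ifs
      · exact Pool.Agent.W_7d29a1_Z.gp_nonneg _ _ _ _
      · exact le_rfl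
  refine (measure_mono hcov).trans ((measure_union_le _ _).trans ?_)
  have q1 : law μ {η | ¬ Env4 μ s c b Q d g v₀ n₁ b' d' g' v₀' n₁' N η} ≤ ENNReal.ofReal (4 * Real.exp (-(L : ℝ) ^ c₁)) := by
    have hexp : ∀ k : ℝ, c₁ ≤ k → Real.exp (-(L : ℝ) ^ k) ≤ Real.exp (-(L : ℝ) ^ c₁) := fun k hk =>
      Real.exp_le_exp.2 (neg_le_neg (Real.rpow_le_rpow_of_exponent_le hL1 hk))
    have h6 := hEnv3 L hLL₁ N hNL
    have h6' := hEnv3' L hLL₁' N hNL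
    rw [← hQ] at h6 h6'
    have h7 : law μ {η | ¬ Env21 μ s c b Q d g v₀ n₁ N η} ≤ ENNReal.ofReal (Real.exp (-(L : ℝ) ^ c₁)) := by
      rw [← ofReal_measureReal]
      exact ENNReal.ofReal_le_ofReal (h6.trans (hexp k₁ (by rw [hc₁]; exact min_le_left _ _)))
    have h7' : law μ {η | ¬ Env21 μ (-s) c b' Q d' g' v₀' n₁' N η} ≤ ENNReal.ofReal (Real.exp (-(L : ℝ) ^ c₁)) := by
      rw [← ofReal_measureReal]
      exact ENNReal.ofReal_le_ofReal (h6'.trans (hexp k₁' (by rw [hc₁]; exact min_le_right _ _)))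
    refine (env4_21 h7 h7').trans (le_of_eq ?_)
    have h8 := (Real.exp_pos (-(L : ℝ) ^ c₁)).le
    rw [← ENNReal.ofReal_add h8 h8, ← ENNReal.ofReal_add (by positivity) (by positivity)]
    congr 1
    ring
  have q2 : law μ {η | Q * EE μ s N < X μ s η 0 N y} ≤ ENNReal.ofReal (A * Real.exp (-(a * (L : ℝ) ^ (δ * γ)))) := by
    have hwd : wd' μ s N = wd μ s N := max_eq_right (hn₅ N hN5)
    have h6 := hp2p N hN1 y hy0 hyN ((L : ℝ) ^ δ) (Real.one_le_rpow hL1 hδ0.le) (by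
      rw [hwd] at hy
      exact hy)
    rw [← Real.rpow_mul hL0.le, ← Real.rpow_mul hL0.le] at h6
    rw [← ofReal_measureReal]
    refine ENNReal.ofReal_le_ofReal (le_trans (measureReal_mono fun η hη => ?_) h6)
    rw [Set.mem_ofPred_eq] at hη ⊢
    refine le_trans ?_ hη.le
    refine mul_le_mul_of_nonneg_right ?_ (EE_pos _).le
    rw [hQ]
    linarith
  refine (add_le_add q1 q2).trans ?_
  have hx := (Real.exp_pos (-(L : ℝ) ^ c')).le
  rw [← ENNReal.ofReal_add (by positivity) (by positivity)]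
  refine ENNReal.ofReal_le_ofReal ?_
  rw [Real.rpow_zero, mul_one] at h4 h5
  rw [one_mul] at h4
  linarith

end Final

end Pool.Agent.W_7d29a1_C0.NS61
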