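import Pool.Agent.W_7d29a1_C0.TvF48
import Pool.Agent.W_7d29a1_C0.NSc61

/-!
MP_7d29a1_pr, [CURV0], E7, THE CLIPPING IN TWO LEVELS, first part: the mass of a set of steep ends under a kicked law is at most twice
the quenched mass `ms61` (steep intervals of length at least `m₀` only) in the sheared environment (`mass_m`); the ends (`end_num`).
(helper4)
-/

set_option autoImplicit false
set_option linter.unusedSectionVars false

namespace Pool.Agent.W_7d29a1_C0.ClipL4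

open Pool.Agent.W_7d29a1_F hiding W_pos W_nonneg W_add
open Finset MeasureTheory Filter Topology Pool.Agent.W_7d29a1_X Pool.Agent.W_7d29a1_HZ
open Pool.Agent.W_7d29a1_HS (In wd)
open Pool.Agent.W_7d29a1_H (sl EE one_le_EE EE_pos EE_mono)
open Pool.Agent.W_7d29a1_Z74
open Pool.Agent.W_7d29a1_HZ.Z74
open Pool.Agent.W_7d29a1_C0.Mod92 (Px Pn ps lk cl Flat gw lw)
open Pool.Agent.W_7d29a1_C0.Tv48
open Pool.Agent.W_7d29a1_C0.NS61 (NSm ms61)
open scoped ENNReal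

noncomputable section

variable {μ : Measure ℝ} {s : ℝ}

theorem ms61_nonneg (L N : ℕ) (ε : ℝ) (m₀ : ℕ) (y : ℤ) (η : Env) : 0 ≤ ms61 μ s L N ε m₀ y η := by
  unfold ms61
  refine sum_nonneg fun S _ => ?_
  split_ifs
  · exact le_rfl
  · exact Pool.Agent.W_7d29a1_HZ.gp_nonneg _ _ _ _

open Classical in
/-- The mass of a set of steep ends under a kicked law, by the mass of the steep paths, steep intervals of length at least `m₀`. -/
theorem pin_ratio_m {η' : Env} {N : ℕ} {y' : ℤ} {ε : ℝ} {m₀ : ℕ} (h0 : 0 ≤ y') (h1 : y' ≤ N) {A B : Finset ℕ → ℝ} {num den : ℝ}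
    (hnum : num = pin μ s η' N y' (fun S => A S * B S)) (hden : den = pin μ s η' N y' A)
    (hA0 : ∀ S, 0 ≤ A S) (hA1 : ∀ S, A S ≤ 1) (hA : ∀ S, pos S N = y' → NSm μ s N N ε m₀ S → A S = 1)
    (hB0 : ∀ S, 0 ≤ B S) (hB1 : ∀ S, B S ≤ 1) (hB : ∀ S, pos S N = y' → NSm μ s N N ε m₀ S → B S = 0) :
    num / den ≤ 2 * ms61 μ s N N ε m₀ y' η' := by
  have hW : 0 < W μ s η' 0 N y' := Pool.Agent.W_7d29a1_Z74.W_pos η' 0 h0 h1
  obtain ⟨q, hq⟩ : ∃ q : ℝ, q = ms61 μ s N N ε m₀ y' η' := ⟨_, rfl⟩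
  have hq0 : 0 ≤ q := hq ▸ ms61_nonneg _ _ _ _ _ _
  have hqW : q * W μ s η' 0 N y' = pin μ s η' N y' (fun S => if NSm μ s N N ε m₀ S then 0 else 1) := by
    rw [hq]
    unfold ms61 pin
    rw [sum_mul]
    refine sum_congr rfl fun S _ => ?_
    unfold gp
    beta_reduce
    by_cases hN : NSm μ s N N ε m₀ S
    · rw [if_pos hN, if_pos hN]
      ring
    · rw [if_neg hN, if_neg hN]
      by_cases hS : pos S N = y'
      · rw [if_pos hS, if_pos hS]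
        field_simp
      · rw [if_neg hS, if_neg hS]
        ring
  have hn : num ≤ q * W μ s η' 0 N y' := by
    rw [hnum, hqW]
    refine pin_mono η' N y' fun S hS => ?_
    by_cases hN : NSm μ s N N ε m₀ S
    · rw [hB S hS hN, mul_zero, if_pos hN]
    · rw [if_neg hN]
      exact mul_le_one₀ (hA1 S) (hB0 S) (hB1 S)
  have hd : (1 - q) * W μ s η' 0 N y' ≤ den := by
    have h2 : W μ s η' 0 N y' ≤ den + q * W μ s η' 0 N y' := by
      rw [hden, hqW]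
      unfold pin
      rw [← sum_add_distrib, ← pin_one]
      unfold pin
      refine sum_le_sum fun S _ => ?_
      by_cases hS : pos S N = y'
      · have h3 : (1 : ℝ) ≤ A S + (if NSm μ s N N ε m₀ S then 0 else 1) := by
          by_cases hN : NSm μ s N N ε m₀ S
          · rw [hA S hS hN, if_pos hN, add_zero]
          · rw [if_neg hN]
            linarith [hA0 S]
        have h4 := mul_le_mul_of_nonneg_left h3 (Mod92.pth_pos (μ := μ) (s := s) η' N S).le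
        simp only [if_pos hS, mul_one]
        rw [mul_one, mul_add] at h4
        exact h4
      · simp only [if_neg hS, mul_zero, add_zero, le_refl]
    linarith
  have hle : num ≤ den := by
    rw [hnum, hden]
    exact pin_mono η' N y' fun S _ => mul_le_of_le_one_right (hA0 S) (hB1 S)
  have hd0 : 0 ≤ den := by
    rw [hden]
    unfold pin
    refine sum_nonneg fun S _ => mul_nonneg (Mod92.pth_pos η' N S).le (mul_nonneg (hA0 S) ?_)
    split_ifs <;> norm_num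
  rw [← hq]
  rcases le_or_gt q (1 / 2) with hh | hh
  · have hden0 : 0 < den := lt_of_lt_of_le (mul_pos (by linarith) hW) hd
    rw [div_le_iff₀ hden0]
    calc num ≤ q * W μ s η' 0 N y' := hn
      _ ≤ 2 * q * ((1 - q) * W μ s η' 0 N y') := by nlinarith [mul_nonneg hq0 hW.le]
      _ ≤ 2 * q * den := mul_le_mul_of_nonneg_left hd (by linarith)
  · have := div_le_one_of_le₀ hle hd0
    linarith

open Classical in
/-- The mass of a set of steep ends under a kicked law. -/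
theorem mf_of_flip_m {η η' : Env} {N y ca la cb lb : ℕ} {ua ub w : ℤ} {ε : ℝ} {m₀ : ℕ} {Λ A : Finset ℕ → ℝ}
    (hF : ∀ Ψ : ℤ → ℤ → ℤ → ℝ, ∑ S ∈ (range N).powerset, pth μ s η N S * (Λ S * Ψ (dw ca la S) (dw cb lb S) (pos S N)) =
      ∑ S ∈ (range N).powerset, pth μ s η' N S * (A S * Ψ (dw ca la S + ua) (dw cb lb S + ub) (pos S N + w)))
    (hA0 : ∀ S, 0 ≤ A S) (hA1 : ∀ S, A S ≤ 1) (hA : ∀ S, NSm μ s N N ε m₀ S → A S = 1) (P : ℤ → ℤ → Prop)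
    (hP : ∀ S, NSm μ s N N ε m₀ S → ¬ P (dw ca la S + ua) (dw cb lb S + ub)) (h0 : 0 ≤ (y : ℤ) - w) (h1 : (y : ℤ) - w ≤ N) :
    mf (fun S : Px (Pn N y) => pth μ s η N S.1) (fun S => Λ S.1) (fun S => P (dw ca la S.1) (dw cb lb S.1)) ≤
      2 * ms61 μ s N N ε m₀ (y - w) η' := by
  have e1 : ∀ e : ℤ, (e + w = (y : ℤ)) ↔ (e = (y : ℤ) - w) := fun e => by
    constructor <;> intro h <;> omega
  rw [mf_pin η Λ (fun S => P (dw ca la S) (dw cb lb S))]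
  refine pin_ratio_m (A := A) (B := fun S => if P (dw ca la S + ua) (dw cb lb S + ub) then 1 else 0) h0 h1 ?_ ?_ hA0 hA1
    (fun S _ h => hA S h) (fun S => ?_) (fun S => ?_) (fun S _ h => if_neg (hP S h))
  · have h := hF fun d d' e => (if P d d' then 1 else 0) * if e = (y : ℤ) then 1 else 0
    unfold pin
    simp only [e1] at h
    simp only [mul_assoc] at h ⊢
    exact h
  · have h := hF fun d d' e => if e = (y : ℤ) then 1 else 0
    unfold pin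
    simp only [e1] at h
    exact h
  · split_ifs <;> norm_num
  · split_ifs <;> norm_num

/-- The preimage of a small set under a measure preserving map. -/
theorem pre_le {T : Env → Env} (hT : MeasurePreserving T (law μ) (law μ)) (E : Set Env) : law μ (T ⁻¹' E) ≤ law μ E := by
  have h1 : law μ (T ⁻¹' E) ≤ law μ (T ⁻¹' toMeasurable (law μ) E) := measure_mono (Set.preimage_mono (subset_toMeasurable _ _))
  rw [hT.measure_preimage (measurableSet_toMeasurable _ _).nullMeasurableSet, measure_toMeasurable] at h1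
  exact h1

variable [IsProbabilityMeasure μ] {c C : ℝ} {n₀ : ℕ}

/-- The bad environments of the two levels. -/
def Bd61 (μ : Measure ℝ) (s : ℝ) (N : ℕ) (ε : ℝ) (y : ℤ) : Set Env :=
  {η | ∃ m₀ : ℕ, ((N : ℝ) + 1) ^ 4 * Real.exp (-((N : ℝ) ^ (ε / 3) * EE μ s m₀)) < ms61 μ s N N ε m₀ y η}

/-- The bad set of environments for one flip and one set of steep ends; off it the mass is small. -/
theorem mass_m {N y c₁ l₁ c₂ l₂ : ℕ} {ua ub w : ℤ} {Λ : Env → Finset ℕ → ℝ} (hΛ : Flp μ s N c₁ l₁ c₂ l₂ ua ub w Λ)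
    (hua : |ua| ≤ 1) (hub : |ub| ≤ 1) {ε : ℝ} {m₀ : ℕ} (P : ℤ → ℤ → Prop)
    (hP : ∀ S, NSm μ s N N ε m₀ S → ∀ u v : ℤ, |u| ≤ 1 → |v| ≤ 1 → ¬ P (dw c₁ l₁ S + u) (dw c₂ l₂ S + v))
    (hin : ∀ S, NSm μ s N N ε m₀ S → ∀ u v : ℤ, |u| ≤ 1 → |v| ≤ 1 → (0 ≤ dw c₁ l₁ S + u ∧ dw c₁ l₁ S + u ≤ l₁) ∧
      (0 ≤ dw c₂ l₂ S + v ∧ dw c₂ l₂ S + v ≤ l₂))
    (h0 : 0 ≤ (y : ℤ) - w) (h1 : (y : ℤ) - w ≤ N) :
    ∃ E : Set Env, law μ E ≤ law μ (Bd61 μ s N ε (y - w)) ∧ ∀ η, η ∉ E →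
      mf (fun S : Px (Pn N y) => pth μ s η N S.1) (fun S => Λ η S.1) (fun S => P (dw c₁ l₁ S.1) (dw c₂ l₂ S.1)) ≤
        2 * (((N : ℝ) + 1) ^ 4 * Real.exp (-((N : ℝ) ^ (ε / 3) * EE μ s m₀))) := by
  obtain ⟨T, A, hT, hA0, hA1, hA, hF⟩ := hΛ
  refine ⟨T ⁻¹' Bd61 μ s N ε (y - w), pre_le hT _, fun η hη => ?_⟩
  have h2 := mf_of_flip_m (y := y) (m₀ := m₀) (hF η) hA0 hA1 (fun S hS => hA S (hin S hS ua ub hua hub).1 (hin S hS ua ub hua hub).2) P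
    (fun S hS => hP S hS ua ub hua hub) h0 h1
  refine h2.trans (mul_le_mul_of_nonneg_left ?_ zero_le_two)
  by_contra hc
  exact hη ⟨m₀, not_le.1 hc⟩

/-- The moved end is in a larger cone. -/
theorem end_num (h : In μ s c C n₀) {δ : ℝ} (hδ : 0 < δ) : ∃ δ' : ℝ, 0 < δ' ∧ ∃ N₀ : ℕ, ∀ N : ℕ, N₀ ≤ N →
    ∀ y : ℕ, EndOk μ s δ' N y → ∀ w : ℤ, |w| ≤ 2 → 0 ≤ (y : ℤ) - w ∧ (y : ℤ) - w ≤ N ∧
      |(((y : ℤ) - w : ℤ) : ℝ) - sl μ s * N| ≤ (N : ℝ) ^ δ * wd' μ s N := by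
  obtain ⟨a, K, ha, ha1, hK, hwd⟩ := wd'_pow h
  have hs0 := h.sl_pos
  have hs1 := h.sl_lt
  obtain ⟨δ', hδ'⟩ : ∃ δ' : ℝ, δ' = min (δ / 2) (a / 2) := ⟨_, rfl⟩
  have hδ'0 : 0 < δ' := hδ' ▸ lt_min (by linarith) (by linarith)
  have hδ'δ : δ' < δ := lt_of_le_of_lt (hδ' ▸ min_le_left _ _) (by linarith)
  have hδ'a : δ' < a := lt_of_le_of_lt (hδ' ▸ min_le_right _ _) (by linarith)
  have ev1 : ∀ᶠ N : ℕ in atTop, 3 * (N : ℝ) ^ δ' ≤ 1 * (N : ℝ) ^ δ := ev_pow_le hδ'δ one_pos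
  have ev2 : ∀ᶠ N : ℕ in atTop, (3 * (K * wd' μ s 1)) * (N : ℝ) ^ (δ' + (1 - a)) ≤
      min (sl μ s) (1 - sl μ s) * (N : ℝ) ^ (1 : ℝ) := ev_pow_le (by linarith) (lt_min hs0 (by linarith))
  obtain ⟨N₀, hN₀⟩ := ((ev1.and ev2).and (eventually_ge_atTop 1)).exists_forall_of_atTop
  refine ⟨δ', hδ'0, N₀, fun N hN y hy w hw => ?_⟩
  obtain ⟨⟨h1, h2⟩, h3⟩ := hN₀ N hN
  have hN1 : 1 ≤ N := h3
  have hN1' : (1 : ℝ) ≤ N := by exact_mod_cast hN1
  have hw1 : 1 ≤ wd' μ s N := le_max_left _ _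
  have hwR : |(w : ℝ)| ≤ 2 := by exact_mod_cast hw
  unfold EndOk at hy
  have hw2 : wd' μ s N ≤ K * (N : ℝ) ^ (1 - a) * wd' μ s 1 := by
    have h4 := (hwd 1 N le_rfl hN1).2.2
    have h5 : ((N : ℝ) / ((1 : ℕ) : ℝ)) = N := by simp
    rw [h5] at h4
    exact h4
  have hp : (1 : ℝ) ≤ (N : ℝ) ^ δ' := Real.one_le_rpow hN1' hδ'0.le
  rw [Real.rpow_one] at h2
  have hmin1 : min (sl μ s) (1 - sl μ s) * N ≤ sl μ s * N := mul_le_mul_of_nonneg_right (min_le_left _ _) (by linarith)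
  have hmin2 : min (sl μ s) (1 - sl μ s) * N ≤ (1 - sl μ s) * N := mul_le_mul_of_nonneg_right (min_le_right _ _) (by linarith)
  have hpw : 1 ≤ (N : ℝ) ^ δ' * wd' μ s N := one_le_mul_of_one_le_of_one_le hp hw1
  have hb : (N : ℝ) ^ δ' * wd' μ s N + 2 ≤ min (sl μ s) (1 - sl μ s) * N := by
    refine le_trans ?_ h2
    rw [Real.rpow_add (by linarith)]
    calc (N : ℝ) ^ δ' * wd' μ s N + 2 ≤ 3 * ((N : ℝ) ^ δ' * wd' μ s N) := by linarith
      _ ≤ 3 * ((N : ℝ) ^ δ' * (K * (N : ℝ) ^ (1 - a) * wd' μ s 1)) := by gcongr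
      _ = 3 * (K * wd' μ s 1) * ((N : ℝ) ^ δ' * (N : ℝ) ^ (1 - a)) := by ring
  obtain ⟨y1, y2⟩ := abs_le.1 hy
  obtain ⟨w1, w2⟩ := abs_le.1 hwR
  have z0 : 0 ≤ (y : ℤ) - w := by
    have : (0 : ℝ) ≤ ((y : ℤ) - w : ℤ) := by
      push_cast
      linarith
    exact_mod_cast this
  have z1 : (y : ℤ) - w ≤ N := by
    have : (((y : ℤ) - w : ℤ) : ℝ) ≤ ((N : ℤ) : ℝ) := by
      push_cast
      linarith
    exact_mod_cast this
  refine ⟨z0, z1, ?_⟩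
  have e1 : (((y : ℤ) - w : ℤ) : ℝ) - sl μ s * N = ((y : ℝ) - sl μ s * N) - w := by
    push_cast
    ring
  rw [e1]
  refine (abs_sub _ _).trans ?_
  have h6 : 3 * ((N : ℝ) ^ δ' * wd' μ s N) ≤ (N : ℝ) ^ δ * wd' μ s N := by
    have := mul_le_mul_of_nonneg_right h1 (show (0 : ℝ) ≤ wd' μ s N by linarith)
    linarith
  linarith

/-- **The bad environments of the two levels are rare**, for the moved ends. -/
theorem bd61 (h : In μ s c C n₀) {ε : ℝ} (hε : 0 < ε) : ∃ δ' : ℝ, 0 < δ' ∧ ∃ c' : ℝ, 0 < c' ∧ ∃ N₀ : ℕ, ∀ N : ℕ, N₀ ≤ N →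
    ∀ y : ℕ, EndOk μ s δ' N y → ∀ w : ℤ, |w| ≤ 2 → 0 ≤ (y : ℤ) - w ∧ (y : ℤ) - w ≤ N ∧
      law μ (Bd61 μ s N ε (y - w)) ≤ ENNReal.ofReal (Real.exp (-(N : ℝ) ^ c')) := by
  obtain ⟨δ, c', hδ, hc', L₀, hns⟩ := Pool.Agent.W_7d29a1_C0.NS61.ns2_61 h ε hε
  obtain ⟨δ', hδ', N₁, hN₁⟩ := end_num h hδ
  refine ⟨δ', hδ', c', hc', max L₀ N₁, fun N hN y hy w hw => ?_⟩
  obtain ⟨z0, z1, z2⟩ := hN₁ N ((le_max_right _ _).trans hN) y hy w hw
  exact ⟨z0, z1, hns N ((le_max_left _ _).trans hN) N (by omega) le_rfl _ z0 z1 z2⟩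

end

end Pool.Agent.W_7d29a1_C0.ClipL4
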