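import Pool.Agent.W_7d29a1_C0.ClipL4

/-!
MP_7d29a1_pr, [CURV0], E7, THE CLIPPING IN TWO LEVELS. `tv2_4`: two disjoint windows of lengths at least `N ^ θ` and `m₀`, off an event of
the environment of probability `exp (- N ^ c')` the clipped kick of the first window and its exact kick, on top of any clipped partial
kick of the second window, have laws at total variation distance at most `exp (- K EE m₀)` (`c'` does not depend on `K`). `clip2_4`: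
the error `clip` of one row at base `b`, level `exp (- K EE b)`; `clip2_two`: on top of a partial kick of another row. (helper4)
-/

set_option autoImplicit false
set_option linter.unusedSectionVars false

namespace Pool.Agent.W_7d29a1_C0.ClipL4

open Pool.Agent.W_7d29a1_F hiding W_pos W_nonneg W_add
open Finset MeasureTheory Filter Topology Pool.Agent.W_7d29a1_X Pool.Agent.W_7d29a1_HZ
open Pool.Agent.W_7d29a1_HS (In wd)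
open Pool.Agent.W_7d29a1_H (sl EE one_le_EE EE_pos EE_mono)
open Pool.Agent.W_7d29a1_Z74
open Pool.Agent.W_7d29a1_HZ.Z74
open Pool.Agent.W_7d29a1_C0.Flip61 (Rp clip)
open Pool.Agent.W_7d29a1_C0.Mod92 (Px Pn ps lk cl Flat gw lw gj wt)
open Pool.W7d29a1.C0 (gz)
open Pool.Agent.W_7d29a1_C0.Tv48
open Pool.Agent.W_7d29a1_C0.NS61 (NSm ms61)
open Pool.Agent.W_7d29a1_C0.K14 (KU kick14_unit ZJ_pos)
open scoped ENNReal

noncomputable section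

variable {μ : Measure ℝ} {s : ℝ} [IsProbabilityMeasure μ] {c C : ℝ} {n₀ : ℕ}

/-- The number: the mass of the steep paths with the factor of the kicks is below the level. -/
theorem num_lev {ε₁ e : ℝ} (he : 0 < e) (hε₁ : ε₁ < e) (K : ℝ) : ∀ᶠ N : ℕ in atTop, ∀ E : ℝ, 1 ≤ E →
    64 * Real.exp (4 * (N : ℝ) ^ ε₁) * (((N : ℝ) + 1) ^ 4 * Real.exp (-((N : ℝ) ^ e * E))) ≤ Real.exp (-(K * E)) := by
  have x1 : ∀ᶠ N : ℕ in atTop, 4 * (N : ℝ) ^ ε₁ ≤ 1 / 4 * (N : ℝ) ^ e := ev_pow_le hε₁ (by norm_num)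
  have x2 : ∀ᶠ N : ℕ in atTop, |K| * (N : ℝ) ^ (0 : ℝ) ≤ 1 / 4 * (N : ℝ) ^ e := ev_pow_le he (by norm_num)
  have x3 : ∀ᶠ N : ℕ in atTop, 1024 * (N : ℝ) ^ (4 : ℝ) * Real.exp (-(1 / 2 * (N : ℝ) ^ e)) ≤ 1 / 2 * Real.exp (-(N : ℝ) ^ (e / 2)) :=
    ev_exp (by norm_num) (by norm_num) he (by linarith) 4
  filter_upwards [x1, x2, x3, eventually_ge_atTop 1] with N h1 h2 h3 h4 E hE
  have hN1 : (1 : ℝ) ≤ N := by exact_mod_cast h4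
  rw [Real.rpow_zero, mul_one] at h2
  set x := (N : ℝ) ^ e with hx
  have hKx : K ≤ 1 / 4 * x := (le_abs_self K).trans h2
  have hx0 : 0 ≤ x := by positivity
  have e1 : 4 * (N : ℝ) ^ ε₁ + -(x * E) ≤ -(K * E) + -(1 / 2 * x) := by nlinarith
  have e2 : ((N : ℝ) + 1) ^ 4 ≤ 16 * (N : ℝ) ^ (4 : ℝ) := by
    have e3 : (N : ℝ) ^ (4 : ℝ) = (N : ℝ) ^ 4 := by
      rw [← Real.rpow_natCast]
      norm_num
    rw [e3]
    calc ((N : ℝ) + 1) ^ 4 ≤ (2 * (N : ℝ)) ^ 4 := pow_le_pow_left₀ (by linarith) (by linarith) 4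
      _ = 16 * (N : ℝ) ^ 4 := by ring
  have h5 : Real.exp (-(N : ℝ) ^ (e / 2)) ≤ 1 := Real.exp_le_one_iff.2 (by
    have : 0 ≤ (N : ℝ) ^ (e / 2) := by positivity
    linarith)
  calc 64 * Real.exp (4 * (N : ℝ) ^ ε₁) * (((N : ℝ) + 1) ^ 4 * Real.exp (-(x * E)))
      = 64 * ((N : ℝ) + 1) ^ 4 * Real.exp (4 * (N : ℝ) ^ ε₁ + -(x * E)) := by
        rw [Real.exp_add]
        ring
    _ ≤ 64 * (16 * (N : ℝ) ^ (4 : ℝ)) * Real.exp (-(K * E) + -(1 / 2 * x)) :=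
        mul_le_mul (mul_le_mul_of_nonneg_left e2 (by norm_num)) (Real.exp_le_exp.2 e1) (Real.exp_pos _).le (by positivity)
    _ = (1024 * (N : ℝ) ^ (4 : ℝ) * Real.exp (-(1 / 2 * x))) * Real.exp (-(K * E)) := by
        rw [Real.exp_add]
        ring
    _ ≤ 1 * Real.exp (-(K * E)) := by
        refine mul_le_mul_of_nonneg_right ?_ (Real.exp_pos _).le
        linarith
    _ = _ := one_mul _

/-- **THE LAW ESTIMATE OF THE FLIP IN TWO LEVELS.** -/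
theorem tv2_4 (h : In μ s c C n₀) {θ εB : ℝ} (hθ : 0 < θ) (hεB : 0 < εB) : ∃ δ₀ : ℝ, 0 < δ₀ ∧ ∀ δ : ℝ, 0 < δ → δ ≤ δ₀ →
    ∃ δ' : ℝ, 0 < δ' ∧ ∃ c' : ℝ, 0 < c' ∧ ∀ K : ℝ, ∃ N₀ : ℕ, ∀ N : ℕ, N₀ ≤ N → ∀ y : ℕ, EndOk μ s δ' N y → ∀ B : ℝ,
    (N : ℝ) ^ εB ≤ B → ∀ c₁ l₁ k₁ c₂ l₂ k₂ : ℕ, (N : ℝ) ^ θ ≤ l₁ → (N : ℝ) ^ θ ≤ l₂ → k₁ < l₁ → k₂ < l₂ → Dj N c₁ l₁ c₂ l₂ →
    ∀ m₀ : ℕ, m₀ ≤ l₁ → m₀ ≤ l₂ → ∀ a₁ a₂ : ℤ, (a₁ = 1 ∨ a₁ = -1) → (a₂ = 1 ∨ a₂ = -1) → ∀ t : ℝ, |t| ≤ 1 →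
    law μ {η | Real.exp (-(K * EE μ s m₀)) < tv (fun S : Px (Pn N y) => Real.exp (wk μ s η N y δ B c₂ l₂ k₂ a₂ t S +
          (-a₁ - a₁) * gw μ s η δ B a₁ c₁ l₁ k₁ (ps S c₁) (ps S (c₁ + l₁))))
        (fun S : Px (Pn N y) => Real.exp (wk μ s η N y δ B c₂ l₂ k₂ a₂ t S) * Rw μ s c₁ l₁ k₁ (-a₁) η S.1)} ≤
      ENNReal.ofReal (Real.exp (-(N : ℝ) ^ c')) := by
  obtain ⟨ε', hε'⟩ : ∃ ε' : ℝ, ε' = min εB θ := ⟨_, rfl⟩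
  have hε'0 : 0 < ε' := hε' ▸ lt_min hεB hθ
  have hε'B : ε' ≤ εB := hε' ▸ min_le_left _ _
  have hε'θ : ε' ≤ θ := hε' ▸ min_le_right _ _
  obtain ⟨δK, cK, hδK, hcK, N₁, hK⟩ := kick14_unit h hε'0
  obtain ⟨a, ha, ha1, hcA, hcB, hcC⟩ := cone_num h hθ
  obtain ⟨κ, hκ⟩ : ∃ κ : ℝ, κ = min δK (a / 2) := ⟨_, rfl⟩
  have hκ0 : 0 < κ := hκ ▸ lt_min hδK (by linarith)
  have hκK : κ ≤ δK := hκ ▸ min_le_left _ _
  have hκa : κ < a := lt_of_le_of_lt (hκ ▸ min_le_right _ _) (by linarith)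
  refine ⟨κ / 2, by positivity, fun δ hδ hδκ => ?_⟩
  have hδκ' : δ < κ := by linarith
  -- the exponent of the paths without steep places, first event
  obtain ⟨εa, hεa⟩ : ∃ εa : ℝ, εa = θ * (δ / 2) / 2 := ⟨_, rfl⟩
  have hεa0 : 0 < εa := by rw [hεa]; positivity
  have hεa1 : εa < θ * (δ / 2) := by rw [hεa]; nlinarith [mul_pos hθ hδ]
  obtain ⟨δa, hδa, ca, hca, N₂, hQa⟩ := bd61 (μ := μ) (s := s) h hεa0
  -- the size of the kicks in the smaller cone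
  obtain ⟨ε₁, hε₁⟩ : ∃ ε₁ : ℝ, ε₁ = min (εa / 3 / 2) θ := ⟨_, rfl⟩
  have hε₁0 : 0 < ε₁ := hε₁ ▸ lt_min (by positivity) hθ
  have hε₁a : ε₁ < εa / 3 := lt_of_le_of_lt (hε₁ ▸ min_le_left _ _) (by linarith)
  have hε₁θ : ε₁ ≤ θ := hε₁ ▸ min_le_right _ _
  obtain ⟨δL, cL, hδL, hcL, N₃, hL⟩ := kick14_unit h hε₁0
  obtain ⟨κ₁, hκ₁⟩ : ∃ κ₁ : ℝ, κ₁ = min δL (a / 2) := ⟨_, rfl⟩
  have hκ₁0 : 0 < κ₁ := hκ₁ ▸ lt_min hδL (by linarith)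
  have hκ₁L : κ₁ ≤ δL := hκ₁ ▸ min_le_left _ _
  have hκ₁a : κ₁ < a := lt_of_le_of_lt (hκ₁ ▸ min_le_right _ _) (by linarith)
  obtain ⟨εb, hεb⟩ : ∃ εb : ℝ, εb = θ * (κ₁ / 2) / 2 := ⟨_, rfl⟩
  have hεb0 : 0 < εb := by rw [hεb]; positivity
  have hεb1 : εb < θ * (κ₁ / 2) := by rw [hεb]; nlinarith [mul_pos hθ hκ₁0]
  obtain ⟨δb, hδb, cb, hcb, N₄, hQb⟩ := bd61 (μ := μ) (s := s) h hεb0
  -- the numbers
  obtain ⟨M₁, hM₁⟩ := hcA κ hκ0 hκa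
  obtain ⟨M₂, hM₂⟩ := hcA κ₁ hκ₁0 hκ₁a
  obtain ⟨M₃, hM₃⟩ := hcB δ κ hδ hδκ'
  obtain ⟨M₄, hM₄⟩ := hcB (δ / 2) δ (by positivity) (by linarith)
  obtain ⟨M₅, hM₅⟩ := hcB (κ₁ / 2) κ₁ (by positivity) (by linarith)
  obtain ⟨M₆, hM₆⟩ := hcC (δ / 2) εa (by positivity) hεa0 hεa1
  obtain ⟨M₇, hM₇⟩ := hcC (κ₁ / 2) εb (by positivity) hεb0 hεb1
  obtain ⟨c', hc'⟩ : ∃ c' : ℝ, c' = min (min cK cL) (min ca cb) / 2 := ⟨_, rfl⟩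
  have hm0 : 0 < min (min cK cL) (min ca cb) := lt_min (lt_min hcK hcL) (lt_min hca hcb)
  have hc'0 : 0 < c' := by rw [hc']; linarith
  have hc'K : c' < cK := by
    have := (min_le_left (min cK cL) (min ca cb)).trans (min_le_left _ _)
    rw [hc']; linarith
  have hc'L : c' < cL := by
    have := (min_le_left (min cK cL) (min ca cb)).trans (min_le_right _ _)
    rw [hc']; linarith
  have hc'a : c' < ca := by
    have := (min_le_right (min cK cL) (min ca cb)).trans (min_le_left _ _)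
    rw [hc']; linarith
  have hc'b : c' < cb := by
    have := (min_le_right (min cK cL) (min ca cb)).trans (min_le_right _ _)
    rw [hc']; linarith
  have x1 : ∀ᶠ N : ℕ in atTop, 4 * (N : ℝ) ^ (0 : ℝ) * Real.exp (-(1 * (N : ℝ) ^ cK)) ≤ 1 / 2 * Real.exp (-(N : ℝ) ^ c') :=
    ev_exp (by norm_num) one_pos hcK hc'K 0
  have x2 : ∀ᶠ N : ℕ in atTop, 4 * (N : ℝ) ^ (0 : ℝ) * Real.exp (-(1 * (N : ℝ) ^ cL)) ≤ 1 / 2 * Real.exp (-(N : ℝ) ^ c') :=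
    ev_exp (by norm_num) one_pos hcL hc'L 0
  have x3 : ∀ᶠ N : ℕ in atTop, 16 * (N : ℝ) ^ (0 : ℝ) * Real.exp (-(1 * (N : ℝ) ^ ca)) ≤ 1 / 2 * Real.exp (-(N : ℝ) ^ c') :=
    ev_exp (by norm_num) one_pos hca hc'a 0
  have x4 : ∀ᶠ N : ℕ in atTop, 16 * (N : ℝ) ^ (0 : ℝ) * Real.exp (-(1 * (N : ℝ) ^ cb)) ≤ 1 / 2 * Real.exp (-(N : ℝ) ^ c') :=
    ev_exp (by norm_num) one_pos hcb hc'b 0
  refine ⟨min δa δb, lt_min hδa hδb, c', hc'0, fun K => ?_⟩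
  have x5 := num_lev (show 0 < εa / 3 by positivity) hε₁a K
  have x6 := num_lev (show 0 < εb / 3 by positivity) (show 0 < εb / 3 by positivity) 0
  obtain ⟨M₀, hM₀⟩ := (((x1.and x2).and (x3.and x4)).and ((x5.and x6).and (eventually_ge_atTop 1))).exists_forall_of_atTop
  refine ⟨M₀ + N₁ + N₂ + N₃ + N₄ + M₁ + M₂ + M₃ + M₄ + M₅ + M₆ + M₇, fun N hN y hy B hB c₁ l₁ k₁ c₂ l₂ k₂ hl₁ hl₂ hk₁ hk₂
    hD m₀ hm₁ hm₂ a₁ a₂ ha₁ ha₂ t ht => ?_⟩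
  obtain ⟨⟨⟨y1, y2⟩, y3, y4⟩, ⟨y5, y7⟩, y6⟩ := hM₀ N (by omega)
  rw [Real.rpow_zero] at y1 y2 y3 y4
  have hNR : (1 : ℝ) ≤ N := by exact_mod_cast y6
  have hcl₁ : c₁ + l₁ ≤ N := by
    rcases hD with hD | hD <;> omega
  have hcl₂ : c₂ + l₂ ≤ N := by
    rcases hD with hD | hD <;> omega
  have hB0 : 0 ≤ B := le_trans (by positivity) hB
  have hwd : ∀ l : ℕ, (N : ℝ) ^ θ ≤ l → 0 ≤ wd μ s l := fun l _ => by
    unfold Pool.Agent.W_7d29a1_HS.wd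
    exact mul_nonneg (Nat.cast_nonneg _) (h.vA_nonneg l)
  have ia₁ : |(-a₁ : ℤ)| ≤ 1 := by rcases ha₁ with e | e <;> rw [e] <;> norm_num
  have ia₂ : |(-a₂ : ℤ)| ≤ 1 := by rcases ha₂ with e | e <;> rw [e] <;> norm_num
  have iz : |(0 : ℤ)| ≤ 1 := by norm_num
  -- the sets of ends
  obtain ⟨P, hPd⟩ : ∃ P : ℤ → ℤ → Prop, P = fun d _ => ¬ Flat μ s δ l₁ a₁ d := ⟨_, rfl⟩
  obtain ⟨P1, hP1d⟩ : ∃ P1 : ℤ → ℤ → Prop, P1 = fun (d d' : ℤ) =>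
      ¬ (|(d : ℝ) - sl μ s * l₁| ≤ (l₁ : ℝ) ^ κ₁ * wd μ s l₁ ∧ |(d' : ℝ) - sl μ s * l₂| ≤ (l₂ : ℝ) ^ κ₁ * wd μ s l₂) := ⟨_, rfl⟩
  have hl₁1 : 1 ≤ l₁ := by omega
  have hl₂1 : 1 ≤ l₂ := by omega
  have hnsp1 : ∀ {ε : ℝ} {S : Finset ℕ}, NSm μ s N N ε m₀ S →
      |((dw c₁ l₁ S : ℤ) : ℝ) - sl μ s * l₁| ≤ (N : ℝ) ^ ε * wd' μ s l₁ := fun hS => hS _ _ hm₁ hl₁1 hcl₁
  have hnsp2 : ∀ {ε : ℝ} {S : Finset ℕ}, NSm μ s N N ε m₀ S →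
      |((dw c₂ l₂ S : ℤ) : ℝ) - sl μ s * l₂| ≤ (N : ℝ) ^ ε * wd' μ s l₂ := fun hS => hS _ _ hm₂ hl₂1 hcl₂
  have hPa : ∀ S, NSm μ s N N εa m₀ S → ∀ u v : ℤ, |u| ≤ 1 → |v| ≤ 1 → ¬ P (dw c₁ l₁ S + u) (dw c₂ l₂ S + v) := by
    intro S hS u v hu _
    rw [hPd, not_not]
    have q1 := hnsp1 hS
    have q2 := hM₆ N (by omega) l₁ hl₁
    have q3 := hM₄ N (by omega) l₁ hl₁
    have hu' : |(u : ℝ)| ≤ 1 := by exact_mod_cast hu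
    unfold Flat
    have q4 := abs_le.1 (half_abs ha₁)
    obtain ⟨u1, u2⟩ := abs_le.1 hu'
    obtain ⟨d1, d2⟩ := abs_le.1 q1
    rw [abs_le]
    push_cast
    constructor <;> linarith only [q2, q3, u1, u2, d1, d2, q4.1, q4.2]
  have hina : ∀ {ε κ₀ : ℝ} (S : Finset ℕ), NSm μ s N N ε m₀ S →
      (∀ l : ℕ, (N : ℝ) ^ θ ≤ l → (N : ℝ) ^ ε * wd' μ s l + 2 ≤ (l : ℝ) ^ κ₀ * wd μ s l) →
      (∀ l : ℕ, (N : ℝ) ^ θ ≤ l → (l : ℝ) ^ κ₀ * wd μ s l + 2 ≤ sl μ s * l ∧ (l : ℝ) ^ κ₀ * wd μ s l + 2 ≤ (1 - sl μ s) * l) →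
      ∀ u v : ℤ, |u| ≤ 1 → |v| ≤ 1 → (0 ≤ dw c₁ l₁ S + u ∧ dw c₁ l₁ S + u ≤ l₁) ∧ (0 ≤ dw c₂ l₂ S + v ∧ dw c₂ l₂ S + v ≤ l₂) := by
    intro ε κ₀ S hS r1 r2 u v hu hv
    constructor
    · have q1 := hnsp1 hS
      have q2 := r1 l₁ hl₁
      have q3 := r2 l₁ hl₁
      exact in_of_cone q3.1 q3.2 (q1.trans (by linarith only [q2])) u hu
    · have q1 := hnsp2 hS
      have q2 := r1 l₂ hl₂
      have q3 := r2 l₂ hl₂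
      exact in_of_cone q3.1 q3.2 (q1.trans (by linarith only [q2])) v hv
  have hra : ∀ l : ℕ, (N : ℝ) ^ θ ≤ l → (N : ℝ) ^ εa * wd' μ s l + 2 ≤ (l : ℝ) ^ κ * wd μ s l := fun l hl => by
    have q2 := hM₆ N (by omega) l hl
    have q3 := hM₄ N (by omega) l hl
    have q4 := hM₃ N (by omega) l hl
    linarith only [q2, q3, q4]
  have hrb : ∀ l : ℕ, (N : ℝ) ^ θ ≤ l → (N : ℝ) ^ εb * wd' μ s l + 2 ≤ (l : ℝ) ^ κ₁ * wd μ s l := fun l hl => by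
    have q2 := hM₇ N (by omega) l hl
    have q3 := hM₅ N (by omega) l hl
    linarith only [q2, q3]
  have hia : ∀ S, NSm μ s N N εa m₀ S → ∀ u v : ℤ, |u| ≤ 1 → |v| ≤ 1 → (0 ≤ dw c₁ l₁ S + u ∧ dw c₁ l₁ S + u ≤ l₁) ∧
      (0 ≤ dw c₂ l₂ S + v ∧ dw c₂ l₂ S + v ≤ l₂) := fun S hS => hina S hS hra fun l hl => hM₁ N (by omega) l hl
  have hib : ∀ S, NSm μ s N N εb m₀ S → ∀ u v : ℤ, |u| ≤ 1 → |v| ≤ 1 → (0 ≤ dw c₁ l₁ S + u ∧ dw c₁ l₁ S + u ≤ l₁) ∧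
      (0 ≤ dw c₂ l₂ S + v ∧ dw c₂ l₂ S + v ≤ l₂) := fun S hS => hina S hS hrb fun l hl => hM₂ N (by omega) l hl
  have hPb : ∀ S, NSm μ s N N εb m₀ S → ∀ u v : ℤ, |u| ≤ 1 → |v| ≤ 1 → ¬ P1 (dw c₁ l₁ S + u) (dw c₂ l₂ S + v) := by
    intro S hS u v hu hv
    rw [hP1d, not_not]
    have hu' : |(u : ℝ)| ≤ 1 := by exact_mod_cast hu
    have hv' : |(v : ℝ)| ≤ 1 := by exact_mod_cast hv
    obtain ⟨u1, u2⟩ := abs_le.1 hu'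
    obtain ⟨v1, v2⟩ := abs_le.1 hv'
    have q1 := abs_le.1 (hnsp1 hS)
    have q2 := abs_le.1 (hnsp2 hS)
    have q3 := hrb l₁ hl₁
    have q4 := hrb l₂ hl₂
    constructor
    · rw [abs_le]
      push_cast
      constructor <;> linarith only [q1.1, q1.2, q3, u1, u2]
    · rw [abs_le]
      push_cast
      constructor <;> linarith only [q2.1, q2.2, q4, v1, v2]
  -- the four flips
  have F1 : Flp μ s N c₁ l₁ c₂ l₂ 0 0 0 fun _ _ => 1 := flp_one N c₁ l₁ c₂ l₂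
  have FR : Flp μ s N c₁ l₁ c₂ l₂ (-a₁) 0 (-a₁) (Rw μ s c₁ l₁ k₁ (-a₁)) := by
    rcases hD with hD | hD
    · exact flp_A (-a₁) hk₁.le hD.1 hD.2
    · exact (flp_B (-a₁) hk₁.le hD.1 hD.2).swap
  have FQ : Flp μ s N c₁ l₁ c₂ l₂ 0 (-a₂) (-a₂) (Rw μ s c₂ l₂ k₂ (-a₂)) := by
    rcases hD with hD | hD
    · exact flp_B (-a₂) hk₂.le hD.1 hD.2
    · exact (flp_A (-a₂) hk₂.le hD.1 hD.2).swap
  have FQR : Flp μ s N c₁ l₁ c₂ l₂ (-a₁) (-a₂) (-a₁ + -a₂) (fun η S => Rw μ s c₂ l₂ k₂ (-a₂) η S * Rw μ s c₁ l₁ k₁ (-a₁) η S) := by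
    rcases hD with hD | hD
    · have q := flp_AB (μ := μ) (s := s) (-a₁) (-a₂) hk₁.le hk₂.le hD.1 hD.2
      rw [add_comm (-a₂) (-a₁)] at q
      have e : (fun (η : Env) (S : Finset ℕ) => Rw μ s c₂ l₂ k₂ (-a₂) η S * Rw μ s c₁ l₁ k₁ (-a₁) η S) =
          fun η S => Rw μ s c₁ l₁ k₁ (-a₁) η S * Rw μ s c₂ l₂ k₂ (-a₂) η S := by
        funext η S
        ring
      rw [e]
      exact q
    · exact (flp_AB (μ := μ) (s := s) (-a₂) (-a₁) hk₂.le hk₁.le hD.1 hD.2).swap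
  have w1 : |(-a₁ : ℤ)| ≤ 2 := ia₁.trans (by norm_num)
  have w2 : |(-a₂ : ℤ)| ≤ 2 := ia₂.trans (by norm_num)
  have w3 : |(-a₁ + -a₂ : ℤ)| ≤ 2 := by
    refine (abs_add_le _ _).trans ?_
    linarith only [ia₁, ia₂]
  have w0 : |(0 : ℤ)| ≤ 2 := by norm_num
  obtain ⟨va, hva⟩ : ∃ va : ℝ, va = ((N : ℝ) + 1) ^ 4 * Real.exp (-((N : ℝ) ^ (εa / 3) * EE μ s m₀)) := ⟨_, rfl⟩
  obtain ⟨vb, hvb⟩ : ∃ vb : ℝ, vb = ((N : ℝ) + 1) ^ 4 * Real.exp (-((N : ℝ) ^ (εb / 3) * EE μ s m₀)) := ⟨_, rfl⟩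
  have hE1 : 1 ≤ EE μ s m₀ := one_le_EE m₀
  have hvb1 : 2 * vb ≤ 1 / 2 := by
    have q1 := y7 (EE μ s m₀) hE1
    rw [zero_mul, neg_zero, Real.exp_zero, ← hvb] at q1
    have q2 : (1 : ℝ) ≤ Real.exp (4 * (N : ℝ) ^ (0 : ℝ)) := Real.one_le_exp (by positivity)
    have q3 : 0 ≤ vb := by rw [hvb]; positivity
    have q4 : 1 * (64 * vb) ≤ Real.exp (4 * (N : ℝ) ^ (0 : ℝ)) * (64 * vb) := mul_le_mul_of_nonneg_right q2 (by linarith only [q3])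
    have q5 : Real.exp (4 * (N : ℝ) ^ (0 : ℝ)) * (64 * vb) = 64 * Real.exp (4 * (N : ℝ) ^ (0 : ℝ)) * vb := by ring
    rw [q5] at q4
    linarith only [q1, q4, q3]
  have mk : ∀ {ua ub w : ℤ} {Λ : Env → Finset ℕ → ℝ}, Flp μ s N c₁ l₁ c₂ l₂ ua ub w Λ → |ua| ≤ 1 → |ub| ≤ 1 → |w| ≤ 2 →
      ∃ Ea : Set Env, law μ Ea ≤ ENNReal.ofReal (Real.exp (-(N : ℝ) ^ ca) + Real.exp (-(N : ℝ) ^ cb)) ∧ ∀ η, η ∉ Ea →
        mf (fun S : Px (Pn N y) => pth μ s η N S.1) (fun S => Λ η S.1) (fun S => P (dw c₁ l₁ S.1) (dw c₂ l₂ S.1)) ≤ 2 * va ∧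
        mf (fun S : Px (Pn N y) => pth μ s η N S.1) (fun S => Λ η S.1) (fun S => P1 (dw c₁ l₁ S.1) (dw c₂ l₂ S.1)) ≤ 1 / 2 := by
    intro ua ub w Λ hF hua hub hw
    obtain ⟨z0, z1, z2⟩ := hQa N (by omega) y (hy.mono (min_le_left _ _) y6) w hw
    obtain ⟨-, -, z3⟩ := hQb N (by omega) y (hy.mono (min_le_right _ _) y6) w hw
    obtain ⟨E₁, i1, i2⟩ := mass_m (m₀ := m₀) hF hua hub P hPa hia z0 z1
    obtain ⟨E₂, j1, j2⟩ := mass_m (m₀ := m₀) hF hua hub P1 hPb hib z0 z1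
    refine ⟨E₁ ∪ E₂, ?_, fun η hη => ?_⟩
    · rw [ENNReal.ofReal_add (Real.exp_pos _).le (Real.exp_pos _).le]
      exact (measure_union_le _ _).trans (add_le_add (i1.trans z2) (j1.trans z3))
    · rw [Set.mem_union, not_or] at hη
      refine ⟨?_, ?_⟩
      · rw [hva]
        exact i2 η hη.1
      · refine (j2 η hη.2).trans ?_
        rw [← hvb]
        exact hvb1
  obtain ⟨A1, B1, C1⟩ := mk F1 iz iz w0
  obtain ⟨A2, B2, C2⟩ := mk FR ia₁ iz w1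
  obtain ⟨A3, B3, C3⟩ := mk FQ iz ia₂ w2
  obtain ⟨A4, B4, C4⟩ := mk FQR ia₁ ia₂ w3
  -- the bad event
  obtain ⟨u, hu⟩ : ∃ u : ℝ, u = (N : ℝ) ^ ε₁ := ⟨_, rfl⟩
  have hu0 : 0 ≤ u := by rw [hu]; positivity
  -- the bounds of the kicks
  have hpos : ∀ (S : Px (Pn N y)) (r : ℕ), r ≤ N → |ps S r| ≤ 2 * (N : ℤ) := by
    intro S r hr
    have q1 := Mod92.ps_nonneg S r
    have q2 := Mod92.ps_le S r
    rw [abs_of_nonneg q1]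
    have q3 : (r : ℤ) ≤ N := by exact_mod_cast hr
    omega
  have hpN : ∀ l : ℕ, (N : ℝ) ^ θ ≤ l → (N : ℝ) ^ ε' ≤ l := fun l hl =>
    (Real.rpow_le_rpow_of_exponent_le hNR hε'θ).trans hl
  have hpN1 : ∀ l : ℕ, (N : ℝ) ^ θ ≤ l → (N : ℝ) ^ ε₁ ≤ l := fun l hl =>
    (Real.rpow_le_rpow_of_exponent_le hNR hε₁θ).trans hl
  have hBε : (N : ℝ) ^ ε' ≤ B := (Real.rpow_le_rpow_of_exponent_le hNR hε'B).trans hB
  have iabs : ∀ {a₀ : ℤ}, (a₀ = 1 ∨ a₀ = -1) → |(-a₀ : ℤ)| ≤ 1 ∧ |(a₀ : ℤ)| ≤ 1 := fun ha₀ => by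
    rcases ha₀ with e | e <;> rw [e] <;> norm_num
  have hflat : ∀ (η : Env) (_ : KU μ s N δK ε' η) {a₀ : ℤ} (_ : a₀ = 1 ∨ a₀ = -1) {c l k : ℕ} (_ : c + l ≤ N) (_ : (N : ℝ) ^ θ ≤ l)
      (_ : k < l) (S : Px (Pn N y)), Flat μ s δ l a₀ (ps S (c + l) - ps S c) → Kb μ s η B c l k a₀ S := by
    intro η kK a₀ ha₀ c l k hcl hl hk S hf
    have q1 := cone_of_flat ha₀ (hM₃ N (by omega) l hl) hf
    have q2 := hM₁ N (by omega) l hl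
    refine ⟨(kick_bd kK hcl (hpN l hl) hk (hpos S c (by omega)) (iabs ha₀).1 hκK q1 (hwd l hl)).trans hBε, ?_⟩
    have r1 := in_of_cone q2.1 q2.2 q1 a₀ (iabs ha₀).2
    have r2 := in_of_cone q2.1 q2.2 q1 0 (by norm_num)
    rw [add_zero] at r2
    exact exp_lk η hk.le (by linarith only [r1.1]) (by linarith only [r1.2]) r2.1 r2.2
  have hsmall : ∀ (η : Env) (_ : KU μ s N δL ε₁ η) {a₀ : ℤ} (_ : a₀ = 1 ∨ a₀ = -1) {c l k : ℕ} (_ : c + l ≤ N) (_ : (N : ℝ) ^ θ ≤ l)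
      (_ : k < l) (S : Px (Pn N y)), |((dw c l S.1 : ℤ) : ℝ) - sl μ s * l| ≤ (l : ℝ) ^ κ₁ * wd μ s l → Kb μ s η u c l k a₀ S := by
    intro η kL a₀ ha₀ c l k hcl hl hk S hd
    have q2 := hM₂ N (by omega) l hl
    have hd' : |((ps S (c + l) - ps S c : ℤ) : ℝ) - sl μ s * l| ≤ (l : ℝ) ^ κ₁ * wd μ s l := hd
    refine ⟨?_, ?_⟩
    · rw [hu]
      exact kick_bd kL hcl (hpN1 l hl) hk (hpos S c (by omega)) (iabs ha₀).1 hκ₁L hd' (hwd l hl)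
    · have r1 := in_of_cone q2.1 q2.2 hd' a₀ (iabs ha₀).2
      have r2 := in_of_cone q2.1 q2.2 hd' 0 (by norm_num)
      rw [add_zero] at r2
      exact exp_lk η hk.le (by linarith only [r1.1]) (by linarith only [r1.2]) r2.1 r2.2
  -- the cover
  have cover : {η | Real.exp (-(K * EE μ s m₀)) < tv (fun S : Px (Pn N y) => Real.exp (wk μ s η N y δ B c₂ l₂ k₂ a₂ t S +
          (-a₁ - a₁) * gw μ s η δ B a₁ c₁ l₁ k₁ (ps S c₁) (ps S (c₁ + l₁))))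
        (fun S : Px (Pn N y) => Real.exp (wk μ s η N y δ B c₂ l₂ k₂ a₂ t S) * Rw μ s c₁ l₁ k₁ (-a₁) η S.1)} ⊆
      (({η | ¬ KU μ s N δK ε' η} ∪ {η | ¬ KU μ s N δL ε₁ η}) ∪ (A1 ∪ A2)) ∪ (A3 ∪ A4) := by
    intro η hη
    by_contra hc
    simp only [Set.mem_union, not_or, Set.mem_ofPred_eq, not_not] at hc
    obtain ⟨⟨⟨kK, kL⟩, nA1, nA2⟩, nA3, nA4⟩ := hc
    rw [Set.mem_ofPred_eq] at hη
    have hT := point48 (μ := μ) (s := s) (η := η) (N := N) (y := y) (δ := δ) (k₁ := k₁) (k₂ := k₂)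
      (st := fun S => P (dw c₁ l₁ S.1) (dw c₂ l₂ S.1)) (s1 := fun S => P1 (dw c₁ l₁ S.1) (dw c₂ l₂ S.1)) ha₁ ha₂ ht hB0 hu0
      (fun S => by rw [hPd]; exact Iff.rfl) (hflat η kK ha₁ hcl₁ hl₁ hk₁) (hflat η kK ha₂ hcl₂ hl₂ hk₂)
      (fun S hS => by
        rw [hP1d, not_not] at hS
        exact hsmall η kL ha₁ hcl₁ hl₁ hk₁ S hS.1)
      (fun S hS => by
        rw [hP1d, not_not] at hS
        exact hsmall η kL ha₂ hcl₂ hl₂ hk₂ S hS.2) (C1 η nA1).2 (C2 η nA2).2 (C3 η nA3).2 (C4 η nA4).2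
    have s5 : 0 ≤ 8 * Real.exp (4 * u) := by positivity
    have s6 := mul_le_mul_of_nonneg_left (add_le_add (add_le_add (add_le_add (C1 η nA1).1 (C2 η nA2).1) (C3 η nA3).1) (C4 η nA4).1) s5
    have s7 := y5 (EE μ s m₀) hE1
    rw [← hva, ← hu] at s7
    have s8 : 8 * Real.exp (4 * u) * (2 * va + 2 * va + 2 * va + 2 * va) = 64 * Real.exp (4 * u) * va := by ring
    rw [s8] at s6
    exact absurd (hT.trans (s6.trans s7)) (not_le.2 hη)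
  -- the measure
  have p1 := Real.exp_pos (-(N : ℝ) ^ cK)
  have p2 := Real.exp_pos (-(N : ℝ) ^ cL)
  have p3 := Real.exp_pos (-(N : ℝ) ^ ca)
  have p4 := Real.exp_pos (-(N : ℝ) ^ cb)
  have m1 : law μ ({η | ¬ KU μ s N δK ε' η} ∪ {η | ¬ KU μ s N δL ε₁ η}) ≤
      ENNReal.ofReal (Real.exp (-(N : ℝ) ^ cK) + Real.exp (-(N : ℝ) ^ cL)) := by
    rw [ENNReal.ofReal_add p1.le p2.le]
    exact (measure_union_le _ _).trans (add_le_add (hK N (by omega)) (hL N (by omega)))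
  have m2 : law μ (A1 ∪ A2) ≤ ENNReal.ofReal (2 * (Real.exp (-(N : ℝ) ^ ca) + Real.exp (-(N : ℝ) ^ cb))) := by
    rw [two_mul, ENNReal.ofReal_add (by positivity) (by positivity)]
    exact (measure_union_le _ _).trans (add_le_add B1 B2)
  have m3 : law μ (A3 ∪ A4) ≤ ENNReal.ofReal (2 * (Real.exp (-(N : ℝ) ^ ca) + Real.exp (-(N : ℝ) ^ cb))) := by
    rw [two_mul, ENNReal.ofReal_add (by positivity) (by positivity)]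
    exact (measure_union_le _ _).trans (add_le_add B3 B4)
  refine (measure_mono cover).trans ((measure_union_le _ _).trans ((add_le_add ((measure_union_le _ _).trans (add_le_add m1 m2))
    m3).trans ?_))
  rw [← ENNReal.ofReal_add (by positivity) (by positivity), ← ENNReal.ofReal_add (by positivity) (by positivity)]
  refine ENNReal.ofReal_le_ofReal ?_
  rw [one_mul] at y1 y2 y3 y4
  linarith only [y1, y2, y3, y4, p1, p2, p3, p4]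

end

end Pool.Agent.W_7d29a1_C0.ClipL4
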