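import Pool.Agent.W_7d29a1_C0.ClipL4B

/-!
MP_7d29a1_pr, [CURV0], E7, THE CLIPPING IN TWO LEVELS, in the notation of `Mod92` / `FlipA61` (centred windows): `clip2_4` (one row),
`clip2_two` (on top of a partial clipped kick of another row whose window is disjoint). (helper4)
-/

set_option autoImplicit false
set_option linter.unusedSectionVars false

namespace Pool.Agent.W_7d29a1_C0.ClipL4

open Pool.Agent.W_7d29a1_F hiding W_pos W_nonneg W_add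
open Finset MeasureTheory Filter Topology Pool.Agent.W_7d29a1_X Pool.Agent.W_7d29a1_HZ
open Pool.Agent.W_7d29a1_HS (In wd)
open Pool.Agent.W_7d29a1_H (sl EE one_le_EE EE_pos EE_mono)
open Pool.Agent.W_7d29a1_Z74
open Pool.Agent.W_7d29a1_HZ.Z74
open Pool.Agent.W_7d29a1_C0.Flip61 (Rp clip)
open Pool.Agent.W_7d29a1_C0.Mod92 (Px Pn ps lk cl Flat gw lw gj wt)
open Pool.W7d29a1.C0 (gz)
open Pool.Agent.W_7d29a1_C0.Tv48
open scoped ENNReal

noncomputable section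

variable {μ : Measure ℝ} {s : ℝ} [IsProbabilityMeasure μ] {c C : ℝ} {n₀ : ℕ}

/-- **THE ERROR OF THE CLIPPING IN TWO LEVELS**, one row, base `b`. -/
theorem clip2_4 (h : In μ s c C n₀) {θ εB : ℝ} (hθ : 0 < θ) (hεB : 0 < εB) : ∃ δ₀ : ℝ, 0 < δ₀ ∧ ∀ δ : ℝ, 0 < δ → δ ≤ δ₀ →
    ∃ δ' : ℝ, 0 < δ' ∧ ∃ c' : ℝ, 0 < c' ∧ ∀ K : ℝ, ∃ N₀ : ℕ, ∀ N : ℕ, N₀ ≤ N → ∀ y : ℕ, EndOk μ s δ' N y → ∀ B : ℝ,
    (N : ℝ) ^ εB ≤ B → ∀ b j : ℕ, (N : ℝ) ^ θ ≤ b → 6 * b ≤ N → j + b ≤ N → ∀ a : ℤ, (a = 1 ∨ a = -1) →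
    law μ {η | Real.exp (-(K * EE μ s b)) < clip μ s N δ B b j a y η} ≤ ENNReal.ofReal (Real.exp (-(N : ℝ) ^ c')) := by
  obtain ⟨δ₀, hδ₀, hT⟩ := tv2_4 h hθ hεB
  refine ⟨δ₀, hδ₀, fun δ hδ hδ1 => ?_⟩
  obtain ⟨δ', hδ', c', hc', hT'⟩ := hT δ hδ hδ1
  refine ⟨δ', hδ', c', hc', fun K => ?_⟩
  obtain ⟨N₀, hN₀⟩ := hT' K
  refine ⟨max N₀ 1, fun N hN y hy B hB b j hb h6 hj a ha => ?_⟩
  have hN1 : (1 : ℝ) ≤ N := by exact_mod_cast (le_max_right _ _).trans hN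
  have hb0 : 0 < b := by
    have h1 : (0 : ℝ) < b := lt_of_lt_of_le (by positivity) hb
    exact_mod_cast h1
  have hbl : b ≤ j + b - (j - b) := by omega
  have hl : (N : ℝ) ^ θ ≤ ((j + b - (j - b) : ℕ) : ℝ) := by
    have h3 : (b : ℝ) ≤ ((j + b - (j - b) : ℕ) : ℝ) := by exact_mod_cast hbl
    exact hb.trans h3
  -- the second window: before or behind the first one
  obtain ⟨c₂, hD⟩ : ∃ c₂ : ℕ, Dj N (j - b) (j + b - (j - b)) c₂ (j + b - (j - b)) := by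
    rcases le_total (j + b - (j - b)) (j - b) with hh | hh
    · exact ⟨0, Or.inr ⟨by omega, by omega⟩⟩
    · exact ⟨j - b + (j + b - (j - b)), Or.inl ⟨le_rfl, by omega⟩⟩
  have h1 := hN₀ N ((le_max_left _ _).trans hN) y hy B hB (j - b) (j + b - (j - b)) (j - (j - b)) c₂ (j + b - (j - b)) (j - (j - b))
    hl hl (by omega) (by omega) hD b hbl hbl a 1 ha (Or.inl rfl) 1 (by norm_num)
  refine le_trans (le_of_eq ?_) h1
  congr 1
  ext η
  rw [Set.mem_ofPred_eq, Set.mem_ofPred_eq]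
  have e0 : clip μ s N δ B b j a y η = tv (fun S : Px (Pn N y) => Real.exp (wk μ s η N y δ B c₂ (j + b - (j - b)) (j - (j - b)) 1 1 S +
      (-a - a) * gw μ s η δ B a (j - b) (j + b - (j - b)) (j - (j - b)) (ps S (j - b)) (ps S (j - b + (j + b - (j - b))))))
      (fun S : Px (Pn N y) => Real.exp (wk μ s η N y δ B c₂ (j + b - (j - b)) (j - (j - b)) 1 1 S) *
        Rw μ s (j - b) (j + b - (j - b)) (j - (j - b)) (-a) η S.1) := by
    have e1 : ∀ S : Px (Pn N y), wk μ s η N y δ B c₂ (j + b - (j - b)) (j - (j - b)) 1 1 S = lw μ s η N (Pn N y) S := fun S => by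
      unfold wk
      push_cast
      ring
    have e2 : ∀ S : Px (Pn N y), wt μ s η N (Pn N y) δ B b j a (-a) S = lw μ s η N (Pn N y) S +
        (-a - a) * gw μ s η δ B a (j - b) (j + b - (j - b)) (j - (j - b)) (ps S (j - b)) (ps S (j - b + (j + b - (j - b)))) := fun S => by
      show lw μ s η N (Pn N y) S + (-(a : ℝ) - a) * gw μ s η δ B a (j - b) (j + b - (j - b)) (j - (j - b)) (ps S (j - b)) (ps S (j + b)) = _
      rw [win_start]
    unfold clip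
    simp only [e1]
    have e3 : wt μ s η N (Pn N y) δ B b j a (-a) = fun S => lw μ s η N (Pn N y) S +
        (-a - a) * gw μ s η δ B a (j - b) (j + b - (j - b)) (j - (j - b)) (ps S (j - b)) (ps S (j - b + (j + b - (j - b)))) := funext e2
    rw [e3]
    refine Eq.trans ?_ (tv_exp (μ := μ) (s := s) η (fun S => lw μ s η N (Pn N y) S +
        (-a - a) * gw μ s η δ B a (j - b) (j + b - (j - b)) (j - (j - b)) (ps S (j - b)) (ps S (j - b + (j + b - (j - b)))))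
      (lw μ s η N (Pn N y)) (j - b) (j + b - (j - b)) (j - (j - b)) (-a)).symm
    simp only [Mod92.exp_lw]
    rw [← Mod92.sum_Px (Q := Pn N y) fun S => pth μ s η N S * Rp μ s η (j - b) (j + b - (j - b)) (j - (j - b)) (-a) S]
  rw [e0]

/-- **THE KICK OF THE ROW `j` ON TOP OF A PARTIAL KICK OF THE ROW `i`** (disjoint windows, any two bases), in two levels. -/
theorem clip2_two (h : In μ s c C n₀) {θ εB : ℝ} (hθ : 0 < θ) (hεB : 0 < εB) : ∃ δ₀ : ℝ, 0 < δ₀ ∧ ∀ δ : ℝ, 0 < δ → δ ≤ δ₀ →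
    ∃ δ' : ℝ, 0 < δ' ∧ ∃ c' : ℝ, 0 < c' ∧ ∀ K : ℝ, ∃ N₀ : ℕ, ∀ N : ℕ, N₀ ≤ N → ∀ y : ℕ, EndOk μ s δ' N y → ∀ B : ℝ,
    (N : ℝ) ^ εB ≤ B → ∀ b j b' i : ℕ, (N : ℝ) ^ θ ≤ b → (N : ℝ) ^ θ ≤ b' →
    (j + b ≤ i - b' ∧ i + b' ≤ N ∨ i + b' ≤ j - b ∧ j + b ≤ N) → ∀ m₀ : ℕ, m₀ ≤ b → m₀ ≤ b' →
    ∀ a a' : ℤ, (a = 1 ∨ a = -1) → (a' = 1 ∨ a' = -1) → ∀ t : ℝ, |t| ≤ 1 →
    law μ {η | Real.exp (-(K * EE μ s m₀)) < ∑ S : Px (Pn N y),
      |Real.exp ((wt μ s η N (Pn N y) δ B b' i a' t + (-a - a : ℝ) • gj μ s η δ B b j a : Px (Pn N y) → ℝ) S) /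
          gz (wt μ s η N (Pn N y) δ B b' i a' t + (-a - a : ℝ) • gj μ s η δ B b j a) -
        Real.exp (wt μ s η N (Pn N y) δ B b' i a' t S) * Rp μ s η (j - b) (j + b - (j - b)) (j - (j - b)) (-a) S.1 /
          ∑ S : Px (Pn N y), Real.exp (wt μ s η N (Pn N y) δ B b' i a' t S) *
            Rp μ s η (j - b) (j + b - (j - b)) (j - (j - b)) (-a) S.1|} ≤
      ENNReal.ofReal (Real.exp (-(N : ℝ) ^ c')) := by
  obtain ⟨δ₀, hδ₀, hT⟩ := tv2_4 h hθ hεB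
  refine ⟨δ₀, hδ₀, fun δ hδ hδ1 => ?_⟩
  obtain ⟨δ', hδ', c', hc', hT'⟩ := hT δ hδ hδ1
  refine ⟨δ', hδ', c', hc', fun K => ?_⟩
  obtain ⟨N₀, hN₀⟩ := hT' K
  refine ⟨max N₀ 1, fun N hN y hy B hB b j b' i hb hb' hD m₀ hm hm' a a' ha ha' t ht => ?_⟩
  have hN1 : (1 : ℝ) ≤ N := by exact_mod_cast (le_max_right _ _).trans hN
  have hb0 : 0 < b := by
    have h1 : (0 : ℝ) < b := lt_of_lt_of_le (by positivity) hb
    exact_mod_cast h1
  have hb'0 : 0 < b' := by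
    have h1 : (0 : ℝ) < b' := lt_of_lt_of_le (by positivity) hb'
    exact_mod_cast h1
  have hbl : ∀ j b : ℕ, b ≤ j + b - (j - b) := fun j b => by omega
  have hl : ∀ j b : ℕ, (N : ℝ) ^ θ ≤ b → (N : ℝ) ^ θ ≤ ((j + b - (j - b) : ℕ) : ℝ) := fun j b hb => by
    have h3 : (b : ℝ) ≤ ((j + b - (j - b) : ℕ) : ℝ) := by exact_mod_cast hbl j b
    exact hb.trans h3
  have h1 := hN₀ N ((le_max_left _ _).trans hN) y hy B hB (j - b) (j + b - (j - b)) (j - (j - b)) (i - b') (i + b' - (i - b'))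
    (i - (i - b')) (hl j b hb) (hl i b' hb') (by omega) (by omega) (by
      unfold Dj
      rw [win_start, win_start]
      exact hD) m₀ (hm.trans (hbl j b)) (hm'.trans (hbl i b')) a a' ha ha' t ht
  refine le_trans (le_of_eq ?_) h1
  congr 1
  ext η
  rw [Set.mem_ofPred_eq, Set.mem_ofPred_eq]
  have e0 : ∀ S : Px (Pn N y), wt μ s η N (Pn N y) δ B b' i a' t S =
      wk μ s η N y δ B (i - b') (i + b' - (i - b')) (i - (i - b')) a' t S := fun S => by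
    show lw μ s η N (Pn N y) S + (t - a') * gw μ s η δ B a' (i - b') (i + b' - (i - b')) (i - (i - b')) (ps S (i - b')) (ps S (i + b')) = _
    unfold wk
    rw [win_start]
  have e1 : ∀ S : Px (Pn N y), (wt μ s η N (Pn N y) δ B b' i a' t + (-a - a : ℝ) • gj μ s η δ B b j a : Px (Pn N y) → ℝ) S =
      wk μ s η N y δ B (i - b') (i + b' - (i - b')) (i - (i - b')) a' t S +
        (-a - a) * gw μ s η δ B a (j - b) (j + b - (j - b)) (j - (j - b)) (ps S (j - b)) (ps S (j - b + (j + b - (j - b)))) := fun S => by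
    show wt μ s η N (Pn N y) δ B b' i a' t S + (-(a : ℝ) - a) * gw μ s η δ B a (j - b) (j + b - (j - b)) (j - (j - b)) (ps S (j - b))
      (ps S (j + b)) = _
    rw [e0, win_start]
  have e2 : (wt μ s η N (Pn N y) δ B b' i a' t + (-a - a : ℝ) • gj μ s η δ B b j a) = fun S =>
      wk μ s η N y δ B (i - b') (i + b' - (i - b')) (i - (i - b')) a' t S +
        (-a - a) * gw μ s η δ B a (j - b) (j + b - (j - b)) (j - (j - b)) (ps S (j - b)) (ps S (j - b + (j + b - (j - b)))) := funext e1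
  have e3 : wt μ s η N (Pn N y) δ B b' i a' t = wk μ s η N y δ B (i - b') (i + b' - (i - b')) (i - (i - b')) a' t := funext e0
  rw [e2, e3]
  exact Iff.of_eq (congrArg (fun x => Real.exp (-(K * EE μ s m₀)) < x) (tv_exp η _ _ _ _ _ _).symm)

end

end Pool.Agent.W_7d29a1_C0.ClipL4
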