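import Mathlib

/-!
CURV0 (MP_7d29a1_pr), sections E1, E2, E4: THE PHASE SPACE OF THE CLOSINGS. `M` = the set of the rows at which two paths meet. The
number of rows `j ∈ [c, d)` with no meeting in `[j - ρ, j]` (the loop over `j` is open over `ρ` rows on the left) whose first meeting
behind `j` is in `(j + l₁, j + l₂]` is at most `(l₂ - l₁) ((d - c + l₂) / ρ + 1)`; the mirror image; the sum form for a family of
weighted pairs. (helper14)
-/

set_option autoImplicit false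

namespace Pool.Agent.W_7d29a1_C0.Clo14

open Finset

/-- The loop over the row `j` is open over `ρ` rows on the left and its first closing behind `j` is in `(j + l₁, j + l₂]`. -/
def CloR (M : ℕ → Prop) (ρ l₁ l₂ j : ℕ) : Prop :=
  (∀ i, j ≤ i + ρ → i ≤ j → ¬ M i) ∧ ∃ m, j + l₁ < m ∧ m ≤ j + l₂ ∧ M m ∧ ∀ i, j < i → i < m → ¬ M i

/-- The mirror image: open over `ρ` rows on the right, the last closing before `j` is in `[j - l₂, j - l₁)`. -/
def CloL (M : ℕ → Prop) (ρ l₁ l₂ j : ℕ) : Prop :=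
  (∀ i, j ≤ i → i ≤ j + ρ → ¬ M i) ∧ ∃ m, m + l₁ < j ∧ j ≤ m + l₂ ∧ M m ∧ ∀ i, m < i → i < j → ¬ M i

/-- A set of numbers of `(a, b]` with gaps at least `ρ`. -/
theorem card_sep {B : Finset ℕ} {a b ρ : ℕ} (hB : ∀ m ∈ B, a < m ∧ m ≤ b) (hs : ∀ m ∈ B, ∀ m' ∈ B, m < m' → m + ρ ≤ m') :
    B.card * ρ ≤ b - a + ρ := by
  have h1 : B.card * ρ ≤ ((Ico (a + 1) (b + 1 + ρ))).card := by
    have h2 : B.card * ρ = (B.sigma fun m => Ico m (m + ρ)).card := by
      rw [card_sigma]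
      have h3 : ∀ m ∈ B, (Ico m (m + ρ)).card = ρ := fun m _ => by rw [Nat.card_Ico]; omega
      rw [sum_congr rfl h3, sum_const, smul_eq_mul]
    rw [h2]
    refine card_le_card_of_injOn (fun q => q.2) ?_ ?_
    · rintro ⟨m, i⟩ hq
      simp only [coe_sigma, Set.mem_sigma_iff, mem_coe, mem_Ico] at hq ⊢
      have := hB m hq.1
      omega
    · rintro ⟨m, i⟩ hq ⟨m', i'⟩ hq' (he : i = i')
      simp only [coe_sigma, Set.mem_sigma_iff, mem_coe, mem_Ico] at hq hq'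
      subst he
      have h4 : m = m' := by
        rcases lt_trichotomy m m' with h | h | h
        · have := hs m hq.1 m' hq'.1 h
          omega
        · exact h
        · have := hs m' hq'.1 m hq.1 h
          omega
      subst h4
      rfl
  rw [Nat.card_Ico] at h1
  by_cases hne : B.Nonempty
  · obtain ⟨m, hm⟩ := hne
    have := hB m hm
    omega
  · rw [not_nonempty_iff_eq_empty] at hne
    rw [hne, card_empty]
    omega

open Classical in
/-- **THE PHASE SPACE OF THE CLOSINGS**, on the right. -/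
theorem card_cloR (M : ℕ → Prop) (ρ l₁ l₂ c d : ℕ) :
    ((Ico c d).filter (CloR M ρ l₁ l₂)).card * ρ ≤ (l₂ - l₁) * (d - c + l₂ + ρ) := by
  obtain ⟨A, hA⟩ : ∃ A, A = (Ico c d).filter (CloR M ρ l₁ l₂) := ⟨_, rfl⟩
  rw [← hA]
  have hch : ∀ j, ∃ m, j ∈ A → j + l₁ < m ∧ m ≤ j + l₂ ∧ M m ∧ ∀ i, j < i → i < m → ¬ M i := by
    intro j
    by_cases hj : j ∈ A
    · rw [hA, mem_filter] at hj
      obtain ⟨m, hm⟩ := hj.2.2
      exact ⟨m, fun _ => hm⟩
    · exact ⟨0, fun h => absurd h hj⟩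
  choose f hf using hch
  have hop : ∀ j ∈ A, ∀ i, j ≤ i + ρ → i ≤ j → ¬ M i := by
    intro j hj
    rw [hA, mem_filter] at hj
    exact hj.2.1
  have hcd : ∀ j ∈ A, c ≤ j ∧ j < d := by
    intro j hj
    rw [hA, mem_filter, mem_Ico] at hj
    exact hj.1
  have h1 : A.card ≤ (l₂ - l₁) * (A.image f).card := by
    refine card_le_mul_card_image A (l₂ - l₁) fun m hm => ?_
    have h2 : (A.filter fun j => f j = m) ⊆ Ico (m - l₂) (m - l₁) := by
      intro j hj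
      rw [mem_filter] at hj
      have := hf j hj.1
      rw [mem_Ico]
      omega
    refine (card_le_card h2).trans ?_
    rw [Nat.card_Ico]
    omega
  have h2 : (A.image f).card * ρ ≤ (d + l₂ - 1 - c) + ρ := by
    refine card_sep (a := c) (b := d + l₂ - 1) ?_ ?_
    · intro m hm
      obtain ⟨j, hj, rfl⟩ := mem_image.1 hm
      have := hf j hj
      have := hcd j hj
      omega
    · intro m hm m' hm' hlt
      obtain ⟨j, hj, rfl⟩ := mem_image.1 hm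
      obtain ⟨j', hj', rfl⟩ := mem_image.1 hm'
      have h3 := hf j hj
      have h4 := hf j' hj'
      by_contra hcon
      by_cases hle : f j ≤ j'
      · exact hop j' hj' (f j) (by omega) hle h3.2.2.1
      · exact h4.2.2.2 (f j) (by omega) hlt h3.2.2.1
  have h3 : (d + l₂ - 1 - c) + ρ ≤ d - c + l₂ + ρ := by omega
  calc A.card * ρ ≤ ((l₂ - l₁) * (A.image f).card) * ρ := Nat.mul_le_mul_right _ h1
    _ = (l₂ - l₁) * ((A.image f).card * ρ) := by ring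
    _ ≤ (l₂ - l₁) * (d - c + l₂ + ρ) := Nat.mul_le_mul_left _ (h2.trans h3)

open Classical in
/-- **THE PHASE SPACE OF THE CLOSINGS**, on the left. -/
theorem card_cloL (M : ℕ → Prop) (ρ l₁ l₂ c d : ℕ) :
    ((Ico c d).filter (CloL M ρ l₁ l₂)).card * ρ ≤ (l₂ - l₁) * (d - c + l₂ + ρ) := by
  -- reflection `i ↦ N - i`, `N = d + l₂ + ρ`
  obtain ⟨N, hN⟩ : ∃ N : ℕ, N = d + l₂ + ρ + 1 := ⟨_, rfl⟩
  have h1 := card_cloR (fun i => i ≤ N ∧ M (N - i)) ρ l₁ l₂ (N + 1 - d) (N + 1 - c)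
  have h2 : ((Ico c d).filter (CloL M ρ l₁ l₂)).card ≤
      ((Ico (N + 1 - d) (N + 1 - c)).filter (CloR (fun i => i ≤ N ∧ M (N - i)) ρ l₁ l₂)).card := by
    refine card_le_card_of_injOn (fun j => N - j) ?_ ?_
    · intro j hj
      rw [mem_coe, mem_filter, mem_Ico] at hj
      obtain ⟨⟨h3, h4⟩, h5, m, h6, h7, h8, h9⟩ := hj
      rw [mem_coe, mem_filter, mem_Ico]
      beta_reduce
      refine ⟨by omega, fun i hi1 hi2 hM => ?_, N - m, by omega, by omega, ⟨by omega, ?_⟩, fun i hi1 hi2 hM => ?_⟩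
      · exact h5 (N - i) (by omega) (by omega) hM.2
      · rw [show N - (N - m) = m by omega]
        exact h8
      · exact h9 (N - i) (by omega) (by omega) hM.2
    · intro j hj j' hj' (he : N - j = N - j')
      rw [mem_coe, mem_filter, mem_Ico] at hj hj'
      omega
  by_cases hcd : c ≤ d
  · have e1 : N + 1 - c - (N + 1 - d) = d - c := by omega
    rw [e1] at h1
    exact (Nat.mul_le_mul_right _ h2).trans h1
  · rw [Ico_eq_empty (by omega), filter_empty, card_empty, zero_mul]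
    exact Nat.zero_le _

/-- **THE SUM FORM**: weights `q ≥ 0` over a finite index set (tuples of replicas), `M x` = the meeting rows of the own pair. -/
theorem sum_cloR {ι : Type*} (T : Finset ι) (q : ι → ℝ) (hq : ∀ x ∈ T, 0 ≤ q x) (M : ι → ℕ → Prop) (P : ℕ → ι → Prop)
    {ρ : ℕ} (hρ : 0 < ρ) (l₁ l₂ c d : ℕ) (hP : ∀ j x, P j x → CloR (M x) ρ l₁ l₂ j) [∀ j x, Decidable (P j x)] :
    ∑ j ∈ Ico c d, ∑ x ∈ T, (if P j x then q x else 0) ≤
      ((l₂ - l₁ : ℕ) : ℝ) * ((((d - c : ℕ) : ℝ) + l₂) / ρ + 1) * ∑ x ∈ T, q x := by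
  classical
  rw [sum_comm, mul_sum]
  refine sum_le_sum fun x hx => ?_
  rw [← sum_filter, sum_const, nsmul_eq_mul]
  refine mul_le_mul_of_nonneg_right ?_ (hq x hx)
  have h1 : ((Ico c d).filter fun j => P j x).card ≤ ((Ico c d).filter (CloR (M x) ρ l₁ l₂)).card := by
    refine card_le_card fun j hj => ?_
    rw [mem_filter] at hj ⊢
    exact ⟨hj.1, hP j x hj.2⟩
  have h2 := (Nat.mul_le_mul_right ρ h1).trans (card_cloR (M x) ρ l₁ l₂ c d)
  have h3 : (((Ico c d).filter fun j => P j x).card : ℝ) * ρ ≤ ((l₂ - l₁ : ℕ) : ℝ) * (((d - c : ℕ) : ℝ) + l₂ + ρ) := by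
    exact_mod_cast h2
  have hρ' : (0 : ℝ) < ρ := by exact_mod_cast hρ
  have h4 : ((l₂ - l₁ : ℕ) : ℝ) * ((((d - c : ℕ) : ℝ) + l₂) / ρ + 1) = ((l₂ - l₁ : ℕ) : ℝ) * (((d - c : ℕ) : ℝ) + l₂ + ρ) / ρ := by
    field_simp
  rw [h4, le_div_iff₀ hρ']
  exact h3

theorem sum_cloL {ι : Type*} (T : Finset ι) (q : ι → ℝ) (hq : ∀ x ∈ T, 0 ≤ q x) (M : ι → ℕ → Prop) (P : ℕ → ι → Prop)
    {ρ : ℕ} (hρ : 0 < ρ) (l₁ l₂ c d : ℕ) (hP : ∀ j x, P j x → CloL (M x) ρ l₁ l₂ j) [∀ j x, Decidable (P j x)] :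
    ∑ j ∈ Ico c d, ∑ x ∈ T, (if P j x then q x else 0) ≤
      ((l₂ - l₁ : ℕ) : ℝ) * ((((d - c : ℕ) : ℝ) + l₂) / ρ + 1) * ∑ x ∈ T, q x := by
  classical
  rw [sum_comm, mul_sum]
  refine sum_le_sum fun x hx => ?_
  rw [← sum_filter, sum_const, nsmul_eq_mul]
  refine mul_le_mul_of_nonneg_right ?_ (hq x hx)
  have h1 : ((Ico c d).filter fun j => P j x).card ≤ ((Ico c d).filter (CloL (M x) ρ l₁ l₂)).card := by
    refine card_le_card fun j hj => ?_
    rw [mem_filter] at hj ⊢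
    exact ⟨hj.1, hP j x hj.2⟩
  have h2 := (Nat.mul_le_mul_right ρ h1).trans (card_cloL (M x) ρ l₁ l₂ c d)
  have h3 : (((Ico c d).filter fun j => P j x).card : ℝ) * ρ ≤ ((l₂ - l₁ : ℕ) : ℝ) * (((d - c : ℕ) : ℝ) + l₂ + ρ) := by
    exact_mod_cast h2
  have hρ' : (0 : ℝ) < ρ := by exact_mod_cast hρ
  have h4 : ((l₂ - l₁ : ℕ) : ℝ) * ((((d - c : ℕ) : ℝ) + l₂) / ρ + 1) = ((l₂ - l₁ : ℕ) : ℝ) * (((d - c : ℕ) : ℝ) + l₂ + ρ) / ρ := by
    field_simp
  rw [h4, le_div_iff₀ hρ']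
  exact h3

/-- A row either has a close meeting on the right, or a dyadic class of closings, or it stays open over `l` rows. -/
theorem open_or_clo (M : ℕ → Prop) (ρ l₀ K j : ℕ) (hop : ∀ i, j ≤ i + ρ → i ≤ j → ¬ M i) :
    (∀ i, j < i → i ≤ j + 2 ^ K * l₀ → ¬ M i) ∨ CloR M ρ 0 l₀ j ∨ ∃ k < K, CloR M ρ (2 ^ k * l₀) (2 ^ (k + 1) * l₀) j := by
  classical
  by_cases h : ∃ i, j < i ∧ i ≤ j + 2 ^ K * l₀ ∧ M i
  · right
    obtain ⟨m, hm1, hm2, hm3⟩ : ∃ m, (j < m ∧ m ≤ j + 2 ^ K * l₀ ∧ M m) ∧ (∀ i, j < i → i < m → ¬ M i) ∧ True := by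
      refine ⟨Nat.find h, Nat.find_spec h, fun i h1 h2 h3 => ?_, trivial⟩
      exact Nat.find_min h h2 ⟨h1, by have := (Nat.find_spec h).2.1; omega, h3⟩
    by_cases hl : m ≤ j + l₀
    · exact Or.inl ⟨hop, m, by omega, hl, hm1.2.2, hm2⟩
    · right
      have hex : ∃ k, m ≤ j + 2 ^ k * l₀ := ⟨K, hm1.2.1⟩
      obtain ⟨k, hk⟩ : ∃ k, k = Nat.find hex := ⟨_, rfl⟩
      have h1 : m ≤ j + 2 ^ k * l₀ := hk ▸ Nat.find_spec hex
      have h2 : k ≤ K := by rw [hk]; exact Nat.find_min' hex hm1.2.1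
      have h3 : k ≠ 0 := by
        rintro rfl
        rw [pow_zero, one_mul] at h1
        exact hl h1
      obtain ⟨k', rfl⟩ := Nat.exists_eq_succ_of_ne_zero h3
      refine ⟨k', by omega, hop, m, ?_, h1, hm1.2.2, hm2⟩
      have h4 := Nat.find_min hex (m := k') (by omega)
      omega
  · left
    push Not at h
    exact fun i h1 h2 => h i h1 h2

end Pool.Agent.W_7d29a1_C0.Clo14
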