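import Pool.Agent.W_7d29a1_C0.Tau85

/-!
CURV0 (MP_7d29a1_pr), E8 = the class of laws, THE CLOCK. For a weight `0 ≤ τ ≤ 1` with `∫ τ dμ > 0` and a law with `∫ exp dμ < ∞`:
under `E G` the sum of the weights `τ(η_p)` along the path is at least a constant times the number of its sites, up to an
exponentially small probability (`clock_lt`). One site: `one_site`, uniform over the environment off the site. (helper85)
-/

set_option autoImplicit false
set_option linter.unusedSectionVars false
set_option linter.unusedVariables false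

namespace Pool.W7d29a1.C0.T85

open MeasureTheory ProbabilityTheory Filter Topology
open Pool.Agent.W_7d29a1_F Pool.Agent.W_7d29a1_C0.H32 Pool.W7d29a1.C0.H19

noncomputable section

section OneSite

variable {μ : Measure ℝ} [IsProbabilityMeasure μ] {τ : ℝ → ℝ}

theorem exp_neg_le_half {t : ℝ} (h0 : 0 ≤ t) (h1 : t ≤ 1) : Real.exp (-t) ≤ 1 - t / 2 := by
  have h3 : Real.exp (-t) * Real.exp t = 1 := by rw [← Real.exp_add]; simp
  have h4 := Real.exp_pos (-t)
  have h5 := Real.quadratic_le_exp_of_nonneg h0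
  have h6 : 1 ≤ (1 - t / 2) * (1 + t + t ^ 2 / 2) := by nlinarith [sq_nonneg t, mul_nonneg h0 (sub_nonneg.2 h1)]
  have h7 : 1 ≤ (1 - t / 2) * Real.exp t := h6.trans (mul_le_mul_of_nonneg_left h5 (by linarith))
  calc Real.exp (-t) = Real.exp (-t) * 1 := (mul_one _).symm
    _ ≤ Real.exp (-t) * ((1 - t / 2) * Real.exp t) := mul_le_mul_of_nonneg_left h7 h4.le
    _ = (1 - t / 2) * (Real.exp (-t) * Real.exp t) := by ring
    _ = 1 - t / 2 := by rw [h3, mul_one]

/-- The weight is not concentrated near infinity. -/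
theorem exists_trunc (mτ : Measurable τ) (nn : ∀ x, 0 ≤ τ x) (le : ∀ x, τ x ≤ 1) (pos : 0 < ∫ x, τ x ∂μ) :
    ∃ L : ℝ, 0 < L ∧ 0 < ∫ x, (Set.Icc (-L) L).indicator τ x ∂μ := by
  have h : Tendsto (fun n : ℕ => ∫ x, (Set.Icc (-(n : ℝ)) n).indicator τ x ∂μ) atTop (𝓝 (∫ x, τ x ∂μ)) := by
    refine tendsto_integral_of_dominated_convergence (fun _ => (1 : ℝ)) (fun n => ?_) (integrable_const _) (fun n => ?_) ?_
    · exact (mτ.indicator measurableSet_Icc).aestronglyMeasurable
    · refine ae_of_all _ fun x => ?_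
      rw [Real.norm_eq_abs]
      by_cases hx : x ∈ Set.Icc (-(n : ℝ)) n
      · rw [Set.indicator_of_mem hx, abs_of_nonneg (nn x)]
        exact le x
      · rw [Set.indicator_of_notMem hx, abs_zero]
        exact zero_le_one
    · refine ae_of_all _ fun x => tendsto_const_nhds.congr' ?_
      obtain ⟨N, hN⟩ := exists_nat_ge |x|
      filter_upwards [eventually_ge_atTop N] with n hn
      have h1 : |x| ≤ n := hN.trans (by exact_mod_cast hn)
      rw [Set.indicator_of_mem (show x ∈ Set.Icc (-(n : ℝ)) n from abs_le.1 h1)]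
  obtain ⟨n, h1, h2⟩ := ((h.eventually (lt_mem_nhds pos)).and (eventually_gt_atTop 0)).exists
  exact ⟨n, by exact_mod_cast h2, h1⟩

/-- **One site**: the weight is seen with a probability bounded below, uniformly over the environment off the site. -/
theorem one_site (mτ : Measurable τ) (nn : ∀ x, 0 ≤ τ x) (le : ∀ x, τ x ≤ 1) (pos : 0 < ∫ x, τ x ∂μ)
    (hexp : Integrable (fun x => Real.exp x) μ) :
    ∃ c1 : ℝ, 0 < c1 ∧ c1 < 1 ∧ ∀ A B : ℝ, 0 ≤ A → 0 ≤ B → 0 < A + B →
      Integrable (fun x => Real.exp x / (A + B * Real.exp x)) μ ∧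
      ∫ x, Real.exp (-τ x) * (Real.exp x / (A + B * Real.exp x)) ∂μ ≤
        (1 - c1) * ∫ x, Real.exp x / (A + B * Real.exp x) ∂μ := by
  obtain ⟨L, hL, hk⟩ := exists_trunc mτ nn le pos
  set κ : ℝ := ∫ x, (Set.Icc (-L) L).indicator τ x ∂μ with hκ
  set m : ℝ := ∫ x, Real.exp x ∂μ with hm
  have m0 : 0 ≤ m := integral_nonneg fun x => (Real.exp_pos x).le
  have iind : Integrable ((Set.Icc (-L) L).indicator τ) μ := by
    refine (integrable_const (1 : ℝ)).mono' (mτ.indicator measurableSet_Icc).aestronglyMeasurable (ae_of_all _ fun x => ?_)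
    rw [Real.norm_eq_abs]
    by_cases hx : x ∈ Set.Icc (-L) L
    · rw [Set.indicator_of_mem hx, abs_of_nonneg (nn x)]
      exact le x
    · rw [Set.indicator_of_notMem hx, abs_zero]
      exact zero_le_one
  have κ1 : κ ≤ 1 := by
    have h1 : κ ≤ ∫ _x, (1 : ℝ) ∂μ := integral_mono iind (integrable_const _) fun x => by
      by_cases hx : x ∈ Set.Icc (-L) L
      · rw [Set.indicator_of_mem hx]
        exact le x
      · rw [Set.indicator_of_notMem hx]
        exact zero_le_one
    simpa using h1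
  have hD : 0 < Real.exp L * m + 1 := by positivity
  refine ⟨κ / (2 * (Real.exp L * m + 1)), by positivity, ?_, fun A B hA hB hAB => ?_⟩
  · rw [div_lt_one (by positivity)]
    have : 0 ≤ Real.exp L * m := by positivity
    linarith
  have hden : ∀ x, 0 < A + B * Real.exp x := fun x => by
    have h1 := Real.exp_pos x
    rcases hA.lt_or_eq with h | h
    · positivity
    · have : 0 < B := by linarith
      rw [← h]
      positivity
  have hC : 0 < A * Real.exp L + B := by
    have h1 := Real.exp_pos L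
    rcases hB.lt_or_eq with h | h
    · positivity
    · have : 0 < A := by linarith
      rw [← h]
      positivity
  obtain ⟨q, hq⟩ : ∃ q : ℝ → ℝ, q = fun x => Real.exp x / (A + B * Real.exp x) := ⟨_, rfl⟩
  have q0 : ∀ x, 0 ≤ q x := fun x => by
    rw [hq]
    exact div_nonneg (Real.exp_pos x).le (hden x).le
  have mq : Measurable q := by
    rw [hq]
    fun_prop
  have up : ∀ x, q x * (A * Real.exp L + B) ≤ Real.exp L * Real.exp x + 1 := fun x => by
    rw [hq]
    show Real.exp x / (A + B * Real.exp x) * (A * Real.exp L + B) ≤ _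
    rw [div_mul_eq_mul_div, div_le_iff₀ (hden x)]
    have h1 := Real.exp_pos x
    have h2 := Real.exp_pos L
    have h3 : 0 ≤ A := hA
    have h4 : 0 ≤ B * Real.exp x * (Real.exp L * Real.exp x) := by positivity
    nlinarith
  have lo : ∀ x ∈ Set.Icc (-L) L, 1 ≤ q x * (A * Real.exp L + B) := fun x hx => by
    rw [hq]
    show 1 ≤ Real.exp x / (A + B * Real.exp x) * (A * Real.exp L + B)
    rw [div_mul_eq_mul_div, le_div_iff₀ (hden x)]
    have h1 : 1 ≤ Real.exp x * Real.exp L := by
      rw [← Real.exp_add]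
      exact Real.one_le_exp (by linarith [hx.1])
    nlinarith
  have iq : Integrable q μ := by
    refine (((hexp.const_mul (Real.exp L)).add (integrable_const 1)).div_const (A * Real.exp L + B)).mono'
      mq.aestronglyMeasurable (ae_of_all _ fun x => ?_)
    rw [Real.norm_eq_abs, abs_of_nonneg (q0 x)]
    show q x ≤ (Real.exp L * Real.exp x + 1) / (A * Real.exp L + B)
    rw [le_div_iff₀ hC]
    exact up x
  have hI : (∫ x, q x ∂μ) * (A * Real.exp L + B) ≤ Real.exp L * m + 1 := by
    have h1 : ∫ x, q x * (A * Real.exp L + B) ∂μ ≤ ∫ x, (Real.exp L * Real.exp x + 1) ∂μ :=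
      integral_mono (iq.mul_const _) ((hexp.const_mul _).add (integrable_const 1)) up
    rw [integral_mul_const, integral_add (hexp.const_mul _) (integrable_const 1), integral_const_mul] at h1
    simpa using h1
  have iτq : Integrable (fun x => τ x / 2 * q x) μ := by
    refine iq.mono' ((mτ.div_const 2).mul mq).aestronglyMeasurable (ae_of_all _ fun x => ?_)
    rw [Real.norm_eq_abs, abs_of_nonneg (mul_nonneg (by linarith [nn x]) (q0 x))]
    have := mul_le_mul_of_nonneg_right (show τ x / 2 ≤ 1 by linarith [le x]) (q0 x)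
    linarith
  have ifq : Integrable (fun x => Real.exp (-τ x) * q x) μ := by
    refine iq.mono' (mτ.neg.exp.mul mq).aestronglyMeasurable (ae_of_all _ fun x => ?_)
    rw [Real.norm_eq_abs, abs_of_nonneg (mul_nonneg (Real.exp_pos _).le (q0 x))]
    exact mul_le_of_le_one_left (q0 x) (Real.exp_le_one_iff.2 (by linarith [nn x]))
  have hJ : κ / 2 ≤ (∫ x, τ x / 2 * q x ∂μ) * (A * Real.exp L + B) := by
    rw [← integral_mul_const, hκ, ← integral_div]
    refine integral_mono (iind.div_const 2) (iτq.mul_const _) fun x => ?_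
    show (Set.Icc (-L) L).indicator τ x / 2 ≤ τ x / 2 * q x * (A * Real.exp L + B)
    by_cases hx : x ∈ Set.Icc (-L) L
    · rw [Set.indicator_of_mem hx, mul_assoc]
      have := mul_le_mul_of_nonneg_left (lo x hx) (show 0 ≤ τ x / 2 by linarith [nn x])
      linarith
    · rw [Set.indicator_of_notMem hx, zero_div]
      have := nn x
      have := q0 x
      positivity
  have e1 : (fun x => Real.exp x / (A + B * Real.exp x)) = q := hq.symm
  have e2 : (fun x => Real.exp (-τ x) * (Real.exp x / (A + B * Real.exp x))) = fun x => Real.exp (-τ x) * q x := by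
    rw [hq]
  rw [e1, e2]
  refine ⟨iq, ?_⟩
  have h1 : ∫ x, Real.exp (-τ x) * q x ∂μ ≤ ∫ x, (q x - τ x / 2 * q x) ∂μ :=
    integral_mono ifq (iq.sub iτq) fun x => by
      have := mul_le_mul_of_nonneg_right (exp_neg_le_half (nn x) (le x)) (q0 x)
      show Real.exp (-τ x) * q x ≤ q x - τ x / 2 * q x
      linarith
  rw [integral_sub iq iτq] at h1
  have h2 : κ / (2 * (Real.exp L * m + 1)) * ∫ x, q x ∂μ ≤ ∫ x, τ x / 2 * q x ∂μ := by
    have h3 : (κ / (2 * (Real.exp L * m + 1)) * ∫ x, q x ∂μ) * (A * Real.exp L + B) ≤ κ / 2 := by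
      calc (κ / (2 * (Real.exp L * m + 1)) * ∫ x, q x ∂μ) * (A * Real.exp L + B)
          = κ / (2 * (Real.exp L * m + 1)) * ((∫ x, q x ∂μ) * (A * Real.exp L + B)) := by ring
        _ ≤ κ / (2 * (Real.exp L * m + 1)) * (Real.exp L * m + 1) := mul_le_mul_of_nonneg_left hI (by positivity)
        _ = κ / 2 := by field_simp
    exact le_of_mul_le_mul_right (h3.trans hJ) hC
  linarith

end OneSite

/-! ### Many sites and the clock of the path -/

section Many

variable {μ : Measure ℝ} [IsProbabilityMeasure μ] {τ : ℝ → ℝ}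

/-- Resampling one site inside of an integral. -/
theorem int_upd (p : Pt) {F : Env → ℝ} (hF : Integrable F (law μ)) :
    ∫ η, F η ∂(law μ) = ∫ η, ∫ x, F (Function.update η p x) ∂μ ∂(law μ) := by
  have hu := Pool.Agent.W_7d29a1_Z17.mp_upd (μ := μ) p
  have h1 : Integrable (fun q : Env × ℝ => F (Function.update q.1 p q.2)) ((law μ).prod μ) :=
    hu.integrable_comp_of_integrable hF
  rw [← integral_prod _ h1]
  conv_lhs => rw [← hu.map_eq]
  exact integral_map hu.measurable.aemeasurable (by rw [hu.map_eq]; exact hF.aestronglyMeasurable)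

theorem int_upd_int (p : Pt) {F : Env → ℝ} (hF : Integrable F (law μ)) :
    Integrable (fun η => ∫ x, F (Function.update η p x) ∂μ) (law μ) := by
  have hu := Pool.Agent.W_7d29a1_Z17.mp_upd (μ := μ) p
  have h1 : Integrable (fun q : Env × ℝ => F (Function.update q.1 p q.2)) ((law μ).prod μ) :=
    hu.integrable_comp_of_integrable hF
  exact h1.integral_prod_left

/-- **Many sites**: `F` depends on each site of `P` as the Gibbs weight of one path through it. -/
theorem many_sites (mτ : Measurable τ) (nn : ∀ x, 0 ≤ τ x) {c1 : ℝ} (hc : c1 < 1)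
    (h1 : ∀ A B : ℝ, 0 ≤ A → 0 ≤ B → 0 < A + B → Integrable (fun x => Real.exp x / (A + B * Real.exp x)) μ ∧
      ∫ x, Real.exp (-τ x) * (Real.exp x / (A + B * Real.exp x)) ∂μ ≤
        (1 - c1) * ∫ x, Real.exp x / (A + B * Real.exp x) ∂μ)
    {F : Env → ℝ} (mF : Measurable F) (F0 : ∀ η, 0 ≤ F η) (F1 : ∀ η, F η ≤ 1) (P : Finset Pt)
    (hF : ∀ p ∈ P, ∀ η : Env, ∃ α A B : ℝ, 0 ≤ α ∧ 0 ≤ A ∧ 0 ≤ B ∧ 0 < A + B ∧
      ∀ x, F (Function.update η p x) = α * (Real.exp x / (A + B * Real.exp x))) :
    ∫ η, F η * Real.exp (-∑ p ∈ P, τ (η p)) ∂(law μ) ≤ (1 - c1) ^ P.card * ∫ η, F η ∂(law μ) := by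
  classical
  induction P using Finset.induction_on with
  | empty => simp
  | insert a P ha ih =>
    have ih' := ih fun p hp => hF p (Finset.mem_insert_of_mem hp)
    obtain ⟨T, hT⟩ : ∃ T : Env → ℝ, T = fun η => Real.exp (-∑ p ∈ P, τ (η p)) := ⟨_, rfl⟩
    have mT : Measurable T := by
      rw [hT]
      exact (Finset.measurable_sum _ fun p _ => mτ.comp (measurable_pi_apply p)).neg.exp
    have T0 : ∀ η, 0 ≤ T η := fun η => by
      rw [hT]
      exact (Real.exp_pos _).le
    have T1 : ∀ η, T η ≤ 1 := fun η => by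
      rw [hT]
      refine Real.exp_le_one_iff.2 ?_
      have := Finset.sum_nonneg fun p (_ : p ∈ P) => nn (η p)
      linarith
    have Ta : ∀ η x, T (Function.update η a x) = T η := fun η x => by
      rw [hT]
      show Real.exp _ = Real.exp _
      congr 2
      exact Finset.sum_congr rfl fun p hp => by
        rw [Function.update_of_ne (show p ≠ a by rintro rfl; exact ha hp)]
    have mτa : Measurable fun η : Env => Real.exp (-τ (η a)) := (mτ.comp (measurable_pi_apply a)).neg.exp
    have bτa : ∀ η : Env, Real.exp (-τ (η a)) ≤ 1 := fun η => Real.exp_le_one_iff.2 (by linarith [nn (η a)])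
    have iFT : Integrable (fun η => F η * T η) (law μ) := by
      refine (integrable_const (1 : ℝ)).mono' (mF.mul mT).aestronglyMeasurable (ae_of_all _ fun η => ?_)
      rw [Real.norm_eq_abs, abs_of_nonneg (mul_nonneg (F0 η) (T0 η))]
      exact mul_le_one₀ (F1 η) (T0 η) (T1 η)
    have iFTt : Integrable (fun η => F η * T η * Real.exp (-τ (η a))) (law μ) := by
      refine (integrable_const (1 : ℝ)).mono' ((mF.mul mT).mul mτa).aestronglyMeasurable (ae_of_all _ fun η => ?_)
      rw [Real.norm_eq_abs, abs_of_nonneg (mul_nonneg (mul_nonneg (F0 η) (T0 η)) (Real.exp_pos _).le)]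
      exact mul_le_one₀ (mul_le_one₀ (F1 η) (T0 η) (T1 η)) (Real.exp_pos _).le (bτa η)
    have e0 : (fun η : Env => F η * Real.exp (-∑ p ∈ insert a P, τ (η p))) =
        fun η => F η * T η * Real.exp (-τ (η a)) := by
      funext η
      rw [Finset.sum_insert ha, neg_add, Real.exp_add, hT]
      ring
    rw [e0, int_upd a iFTt, Finset.card_insert_of_notMem ha]
    have step : ∫ η, ∫ x, F (Function.update η a x) * T (Function.update η a x) *
        Real.exp (-τ (Function.update η a x a)) ∂μ ∂(law μ) ≤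
        ∫ η, (1 - c1) * ∫ x, F (Function.update η a x) * T (Function.update η a x) ∂μ ∂(law μ) := by
      refine integral_mono (int_upd_int a iFTt) ((int_upd_int a iFT).const_mul _) fun η => ?_
      obtain ⟨α, A, B, hα, hA, hB, hAB, hx⟩ := hF a (Finset.mem_insert_self a P) η
      obtain ⟨i1, h2⟩ := h1 A B hA hB hAB
      show ∫ x, F (Function.update η a x) * T (Function.update η a x) * Real.exp (-τ (Function.update η a x a)) ∂μ ≤
        (1 - c1) * ∫ x, F (Function.update η a x) * T (Function.update η a x) ∂μ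
      have e3 : (fun x => F (Function.update η a x) * T (Function.update η a x) *
          Real.exp (-τ (Function.update η a x a))) =
          fun x => (α * T η) * (Real.exp (-τ x) * (Real.exp x / (A + B * Real.exp x))) := by
        funext x
        rw [hx, Ta, Function.update_self]
        ring
      have e4 : (fun x => F (Function.update η a x) * T (Function.update η a x)) =
          fun x => (α * T η) * (Real.exp x / (A + B * Real.exp x)) := by
        funext x
        rw [hx, Ta]
        ring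
      rw [e3, e4, integral_const_mul, integral_const_mul]
      have := mul_le_mul_of_nonneg_left h2 (mul_nonneg hα (T0 η))
      linarith
    refine step.trans ?_
    rw [integral_const_mul, ← int_upd a iFT, pow_succ]
    have h3 : ∫ η, F η * T η ∂(law μ) ≤ (1 - c1) ^ P.card * ∫ η, F η ∂(law μ) := by
      rw [hT]
      exact ih'
    have := mul_le_mul_of_nonneg_left h3 (show 0 ≤ 1 - c1 by linarith)
    linarith

end Many

/-! ### The clock of a path -/

section Gibbs

variable {μ : Measure ℝ} [IsProbabilityMeasure μ] {τ : ℝ → ℝ}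

/-- The Gibbs weight of one path as a function of one site of the path. -/
theorem gibbs_site {X : Type*} [Fintype X] [Nonempty X] {w : Env → X → ℝ} {N : X → ℝ} {p : Pt}
    (hw : ∀ (η : Env) (t : ℝ) (y : X), w (Function.update η p t) y = w (Function.update η p 0) y + t * N y)
    (hN : ∀ y, N y = 0 ∨ N y = 1) {x : X} (hx : N x = 1) (η : Env) : ∃ α A B : ℝ, 0 ≤ α ∧ 0 ≤ A ∧ 0 ≤ B ∧ 0 < A + B ∧
      ∀ t, Real.exp (w (Function.update η p t) x) / gz (w (Function.update η p t)) =
        α * (Real.exp t / (A + B * Real.exp t)) := by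
  classical
  obtain ⟨v, hv⟩ : ∃ v : X → ℝ, v = w (Function.update η p 0) := ⟨_, rfl⟩
  have hB0 : ∀ y, 0 ≤ N y * Real.exp (v y) := fun y => by
    rcases hN y with h | h <;> rw [h]
    · simp
    · rw [one_mul]
      exact (Real.exp_pos _).le
  have hA0 : ∀ y, 0 ≤ (1 - N y) * Real.exp (v y) := fun y => by
    rcases hN y with h | h <;> rw [h]
    · rw [sub_zero, one_mul]
      exact (Real.exp_pos _).le
    · simp
  have hB : Real.exp (v x) ≤ ∑ y, N y * Real.exp (v y) := by
    have h1 := Finset.single_le_sum (f := fun y => N y * Real.exp (v y)) (fun y _ => hB0 y) (Finset.mem_univ x)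
    simpa [hx] using h1
  have hA : 0 ≤ ∑ y, (1 - N y) * Real.exp (v y) := Finset.sum_nonneg fun y _ => hA0 y
  refine ⟨Real.exp (v x), ∑ y, (1 - N y) * Real.exp (v y), ∑ y, N y * Real.exp (v y), (Real.exp_pos _).le, hA,
    (Real.exp_pos _).le.trans hB, by linarith [Real.exp_pos (v x)], fun t => ?_⟩
  have e1 : gz (w (Function.update η p t)) =
      ∑ y, (1 - N y) * Real.exp (v y) + (∑ y, N y * Real.exp (v y)) * Real.exp t := by
    unfold gz
    rw [Finset.sum_mul, ← Finset.sum_add_distrib]
    refine Finset.sum_congr rfl fun y _ => ?_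
    rw [hw η t y, ← hv]
    rcases hN y with h | h <;> rw [h]
    · simp
    · rw [mul_one, Real.exp_add]
      ring
  rw [e1, hw η t x, ← hv, hx, mul_one, Real.exp_add, mul_div_assoc]

/-- **THE CLOCK.** For a law with the weight `τ` and `∫ exp dμ < ∞` there is `c > 0` such that for every polymer in which the path
`x` sees the sites `P x`, at least `m` of them, `E G exp(- Σ_{p ∈ P x} τ(η_p)) ≤ exp(- c m)`. -/
theorem clock_exp (mτ : Measurable τ) (nn : ∀ x, 0 ≤ τ x) (le : ∀ x, τ x ≤ 1) (pos : 0 < ∫ x, τ x ∂μ)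
    (hexp : Integrable (fun x => Real.exp x) μ) : ∃ c : ℝ, 0 < c ∧ ∀ {X : Type} [Fintype X] [Nonempty X]
      {w : Env → X → ℝ} (_ : Measurable w) {N : Pt → X → ℝ} {P : X → Finset Pt} {m : ℕ}
      (_ : ∀ x, ∀ p ∈ P x, ∀ (η : Env) (t : ℝ) (y : X),
        w (Function.update η p t) y = w (Function.update η p 0) y + t * N p y)
      (_ : ∀ x, ∀ p ∈ P x, (∀ y, N p y = 0 ∨ N p y = 1) ∧ N p x = 1) (_ : ∀ x, m ≤ (P x).card),
      ∫ η, gm (w η) (fun x => Real.exp (-∑ p ∈ P x, τ (η p))) ∂(law μ) ≤ Real.exp (-(c * m)) := by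
  obtain ⟨c1, c0, c2, h1⟩ := one_site mτ nn le pos hexp
  refine ⟨c1, c0, fun {X} _ _ {w} mw {N P m} hw hN hm => ?_⟩
  obtain ⟨F, hF⟩ : ∃ F : X → Env → ℝ, F = fun x η => Real.exp (w η x) / gz (w η) := ⟨_, rfl⟩
  have mF : ∀ x, Measurable (F x) := fun x => by
    rw [hF]
    unfold gz
    have h2 : ∀ y, Measurable fun η => w η y := fun y => (measurable_pi_apply y).comp mw
    exact (h2 x).exp.div (Finset.measurable_sum _ fun y _ => (h2 y).exp)
  have F0 : ∀ x η, 0 ≤ F x η := fun x η => by
    rw [hF]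
    exact div_nonneg (Real.exp_pos _).le (gz_pos _).le
  have Fs : ∀ η, ∑ x, F x η = 1 := fun η => by
    rw [hF]
    show ∑ x, Real.exp (w η x) / gz (w η) = 1
    rw [← Finset.sum_div]
    exact div_self (gz_ne _)
  have F1 : ∀ x η, F x η ≤ 1 := fun x η => by
    rw [← Fs η]
    exact Finset.single_le_sum (f := fun x => F x η) (fun y _ => F0 y η) (Finset.mem_univ x)
  have iF : ∀ x, Integrable (F x) (law μ) := fun x =>
    (integrable_const (1 : ℝ)).mono' (mF x).aestronglyMeasurable (ae_of_all _ fun η => by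
      rw [Real.norm_eq_abs, abs_of_nonneg (F0 x η)]
      exact F1 x η)
  have iFe : ∀ x, Integrable (fun η => F x η * Real.exp (-∑ p ∈ P x, τ (η p))) (law μ) := fun x => by
    have mT : Measurable fun η : Env => Real.exp (-∑ p ∈ P x, τ (η p)) :=
      (Finset.measurable_sum _ fun p _ => mτ.comp (measurable_pi_apply p)).neg.exp
    refine (iF x).mono' ((mF x).mul mT).aestronglyMeasurable (ae_of_all _ fun η => ?_)
    rw [Real.norm_eq_abs, abs_of_nonneg (mul_nonneg (F0 x η) (Real.exp_pos _).le)]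
    refine mul_le_of_le_one_right (F0 x η) (Real.exp_le_one_iff.2 ?_)
    have := Finset.sum_nonneg fun p (_ : p ∈ P x) => nn (η p)
    linarith
  have e1 : ∀ η, gm (w η) (fun x => Real.exp (-∑ p ∈ P x, τ (η p))) =
      ∑ x, F x η * Real.exp (-∑ p ∈ P x, τ (η p)) := fun η => by
    unfold gm
    rw [Finset.sum_div, hF]
    exact Finset.sum_congr rfl fun x _ => by ring
  simp_rw [e1]
  rw [integral_finsetSum _ fun x _ => iFe x]
  have key : ∀ x, ∫ η, F x η * Real.exp (-∑ p ∈ P x, τ (η p)) ∂(law μ) ≤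
      Real.exp (-(c1 * m)) * ∫ η, F x η ∂(law μ) := fun x => by
    have h2 := many_sites mτ nn c2 h1 (mF x) (F0 x) (F1 x) (P x) fun p hp η => by
      obtain ⟨α, A, B, a1, a2, a3, a4, a5⟩ := gibbs_site (fun η t y => hw x p hp η t y) (hN x p hp).1 (hN x p hp).2 η
      refine ⟨α, A, B, a1, a2, a3, a4, fun t => ?_⟩
      rw [hF]
      exact a5 t
    refine h2.trans (mul_le_mul_of_nonneg_right ?_ (integral_nonneg fun η => F0 x η))
    have h3 : 0 ≤ 1 - c1 := by linarith
    have h4 : 1 - c1 ≤ Real.exp (-c1) := by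
      have := Real.add_one_le_exp (-c1)
      linarith
    calc (1 - c1) ^ (P x).card ≤ (1 - c1) ^ m := pow_le_pow_of_le_one h3 (by linarith) (hm x)
      _ ≤ Real.exp (-c1) ^ m := pow_le_pow_left₀ h3 h4 m
      _ = Real.exp (-(c1 * m)) := by
          rw [← Real.exp_nat_mul]
          ring_nf
  calc ∑ x, ∫ η, F x η * Real.exp (-∑ p ∈ P x, τ (η p)) ∂(law μ)
      ≤ ∑ x, Real.exp (-(c1 * m)) * ∫ η, F x η ∂(law μ) := Finset.sum_le_sum fun x _ => key x
    _ = Real.exp (-(c1 * m)) := by
        rw [← Finset.mul_sum, ← integral_finsetSum _ fun x _ => iF x]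
        simp_rw [Fs]
        simp

/-- **The clock, in probability**: the sum of the weights along the path is at least `c m`, up to `exp(- c m)`. -/
theorem clock_lt (mτ : Measurable τ) (nn : ∀ x, 0 ≤ τ x) (le : ∀ x, τ x ≤ 1) (pos : 0 < ∫ x, τ x ∂μ)
    (hexp : Integrable (fun x => Real.exp x) μ) : ∃ c : ℝ, 0 < c ∧ ∀ {X : Type} [Fintype X] [Nonempty X]
      {w : Env → X → ℝ} (_ : Measurable w) {N : Pt → X → ℝ} {P : X → Finset Pt} {m : ℕ}
      (_ : ∀ x, ∀ p ∈ P x, ∀ (η : Env) (t : ℝ) (y : X),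
        w (Function.update η p t) y = w (Function.update η p 0) y + t * N p y)
      (_ : ∀ x, ∀ p ∈ P x, (∀ y, N p y = 0 ∨ N p y = 1) ∧ N p x = 1) (_ : ∀ x, m ≤ (P x).card),
      ∫ η, gm (w η) (fun x => if ∑ p ∈ P x, τ (η p) < c * m then 1 else 0) ∂(law μ) ≤ Real.exp (-(c * m)) := by
  obtain ⟨c, c0, h⟩ := clock_exp mτ nn le pos hexp
  refine ⟨c / 2, by positivity, fun {X} _ _ {w} mw {N P m} hw hN hm => ?_⟩
  have h1 := h mw hw hN hm
  have mS : ∀ x : X, Measurable fun η : Env => ∑ p ∈ P x, τ (η p) := fun x =>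
    Finset.measurable_sum _ fun p _ => mτ.comp (measurable_pi_apply p)
  have mg : ∀ {f : Env → X → ℝ}, (∀ x, Measurable fun η => f η x) → Measurable fun η => gm (w η) (f η) := fun {f} hf => by
    unfold gm gz
    have h2 : ∀ y, Measurable fun η => w η y := fun y => (measurable_pi_apply y).comp mw
    exact (Finset.measurable_sum _ fun y _ => (h2 y).exp.mul (hf y)).div (Finset.measurable_sum _ fun y _ => (h2 y).exp)
  have ig : ∀ {f : Env → X → ℝ}, (∀ x, Measurable fun η => f η x) → (∀ η x, 0 ≤ f η x) → (∀ η x, f η x ≤ 1) →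
      Integrable (fun η => gm (w η) (f η)) (law μ) := fun {f} hf f0 f1 => by
    refine (integrable_const (1 : ℝ)).mono' (mg hf).aestronglyMeasurable (ae_of_all _ fun η => ?_)
    rw [Real.norm_eq_abs, abs_of_nonneg (gm_nonneg _ (f0 η))]
    have := gm_mono (w η) (f := f η) (g := fun _ => 1) (f1 η)
    rwa [gm_const] at this
  have m1 : ∀ x : X, Measurable fun η : Env => if ∑ p ∈ P x, τ (η p) < c / 2 * m then (1 : ℝ) else 0 := fun x =>
    Measurable.ite ((mS x) measurableSet_Iio) measurable_const measurable_const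
  have m2 : ∀ x : X, Measurable fun η : Env => Real.exp (-∑ p ∈ P x, τ (η p)) := fun x => (mS x).neg.exp
  have i1 : Integrable (fun η => gm (w η) (fun x => if ∑ p ∈ P x, τ (η p) < c / 2 * m then (1 : ℝ) else 0)) (law μ) :=
    ig m1 (fun η x => by split_ifs <;> norm_num) (fun η x => by split_ifs <;> norm_num)
  have i2 : Integrable (fun η => gm (w η) (fun x => Real.exp (-∑ p ∈ P x, τ (η p)))) (law μ) :=
    ig m2 (fun η x => (Real.exp_pos _).le) (fun η x => Real.exp_le_one_iff.2 (by
      have := Finset.sum_nonneg fun p (_ : p ∈ P x) => nn (η p)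
      linarith))
  calc ∫ η, gm (w η) (fun x => if ∑ p ∈ P x, τ (η p) < c / 2 * m then (1 : ℝ) else 0) ∂(law μ)
      ≤ ∫ η, Real.exp (c / 2 * m) * gm (w η) (fun x => Real.exp (-∑ p ∈ P x, τ (η p))) ∂(law μ) := by
        refine integral_mono i1 (i2.const_mul _) fun η => ?_
        show gm (w η) (fun x => if ∑ p ∈ P x, τ (η p) < c / 2 * m then (1 : ℝ) else 0) ≤
          Real.exp (c / 2 * m) * gm (w η) (fun x => Real.exp (-∑ p ∈ P x, τ (η p)))
        rw [← gm_smul]
        refine gm_mono _ fun x => ?_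
        show (if ∑ p ∈ P x, τ (η p) < c / 2 * m then (1 : ℝ) else 0) ≤
          Real.exp (c / 2 * m) * Real.exp (-∑ p ∈ P x, τ (η p))
        rw [← Real.exp_add]
        split_ifs with h3
        · exact Real.one_le_exp (by linarith)
        · exact (Real.exp_pos _).le
    _ = Real.exp (c / 2 * m) * ∫ η, gm (w η) (fun x => Real.exp (-∑ p ∈ P x, τ (η p))) ∂(law μ) :=
        integral_const_mul _ _
    _ ≤ Real.exp (c / 2 * m) * Real.exp (-(c * m)) := mul_le_mul_of_nonneg_left h1 (Real.exp_pos _).le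
    _ = Real.exp (-(c / 2 * m)) := by
        rw [← Real.exp_add]
        ring_nf

end Gibbs

end

end Pool.W7d29a1.C0.T85
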