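import Pool.Agent.W_7d29a1_C0.Lam86

/-!
C0, helper86: THE GENERAL PRICE, amplified form and three types of places. `h i ≤ 1`, `h i ≤ exp (L ^ κ) * mc i` (conditional masses, or the
events that a conditional mass is not tiny). A place is a family of near ties (`PFam`); type L = laminar (`pf_lam`), type R = from right to
left (`pf_right`: the tie block of every later place ends before the window of this one). `lam_main` = the price for any families,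
`lamLR86` = for places of the types L and R.
-/

set_option autoImplicit false

namespace Pool.Agent.W_7d29a1_C0.P86

open MeasureTheory ProbabilityTheory Filter Topology Finset
open Pool.Agent.W_7d29a1_F Pool.Agent.W_7d29a1_X Pool.Agent.W_7d29a1_h4g Pool.Agent.W_7d29a1_H
open Pool.Agent.W_7d29a1_HS (In wd md)
open Pool.Agent.W_7d29a1_HZ Pool.Agent.W_7d29a1_HZ.R72 Pool.Agent.W_7d29a1_Z.Asm72
open Pool.Agent.W_7d29a1_HZ.Z86
open Pool.Agent.W_7d29a1_C0.Mod92 (Px Pn lw ps pJ ne_Pn ps_Pn pos_card ps_of_le ps_of_ge)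
open Pool.W7d29a1.C0 (gm gz gz_pos)
open Pool.W7d29a1.C0.VT31 (Mp cE gm_mul_cE fz cE_sum)
open scoped ENNReal

variable {μ : Measure ℝ} {s : ℝ} {N : ℕ}
variable [IsProbabilityMeasure μ] {c₀ C₀ : ℝ} {n₀ : ℕ}

/-! ### The product against the events -/

/-- The product of the weights `h i` against the events `NT`. -/
theorem Q1_multH {y k : ℕ} (hy : y ≤ N) (c d : Fin k → ℕ) (hcd : ∀ i, c i ≤ d i ∧ d i ≤ N)
    (A : Fin k → Finset ℕ → Finset ℕ → Prop) (hA : ∀ i, On2 (c i) (d i) (A i)) (NT : Fin k → Env → Finset ℕ → Prop)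
    (hms : ∀ i, Ms (NT i)) {f : Env → Finset ℕ → ℝ≥0∞} (hf : ∀ S, Measurable fun η => f η S) (hf1 : ∀ η S, f η S ≤ 1)
    {h : Fin k → Env → Finset ℕ → ℝ≥0∞} (hh1 : ∀ i η S, h i η S ≤ 1) {G : ℝ≥0∞}
    (hhm : ∀ i η S, h i η S ≤ G * ENNReal.ofReal (mc μ s N y (c i) (d i) (A i) η S)) (x : ℝ) :
    Q1 μ s N y (fun η S => f η S * ∏ i, h i η S) ≤
      Q1 μ s N y (fun η S => f η S * ind (∀ i, NT i η S)) +
        G * ∑ i, (ENNReal.ofReal (Real.exp x) * P2 μ s N y (fun _ => 0) (fun η S S' => A i S' S ∧ ¬ NT i η S') +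
          ENNReal.ofReal (((N : ℝ) + 1) ^ 2 * Real.exp (-x))) := by
  classical
  have hm : ∀ S' : Finset ℕ, Measurable fun η : Env => ENNReal.ofReal (gp μ s η N y S') := fun S' =>
    (Pool.Agent.W_7d29a1_HZ.measurable_gp N y S').ennreal_ofReal
  -- the pointwise bound
  have h1 : Q1 μ s N y (fun η S => f η S * ∏ i, h i η S) ≤
      Q1 μ s N y (fun η S => f η S * ind (∀ i, NT i η S) + G * ∑ i ∈ (univ : Finset (Fin k)),
        (ENNReal.ofReal (Real.exp x) * ((∑ S' ∈ (range N).powerset, ENNReal.ofReal (gp μ s η N y S') * ind (A i S S')) *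
          ind (¬ NT i η S)) + ind (Ge μ s N y (c i) (d i) η S ≤ Real.exp (-x)))) := by
    refine Q1_mono fun η S hS hSy => ?_
    have hb : ∀ i, h i η S ≤ 1 := fun i => hh1 i η S
    by_cases hNT : ∀ i, NT i η S
    · refine le_trans ?_ le_self_add
      rw [ind_of hNT]
      exact mul_le_mul' le_rfl (prod_le_one' fun i _ => hb i)
    · push Not at hNT
      obtain ⟨i, hi⟩ := hNT
      refine le_trans ?_ le_add_self
      refine le_trans ?_ (mul_le_mul' (le_refl G) (single_le_sum (f := fun i => (ENNReal.ofReal (Real.exp x) *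
        ((∑ S' ∈ (range N).powerset, ENNReal.ofReal (gp μ s η N y S') * ind (A i S S')) *
          ind (¬ NT i η S)) + ind (Ge μ s N y (c i) (d i) η S ≤ Real.exp (-x)))) (fun _ _ => zero_le) (mem_univ i)))
      have h2 : f η S * ∏ i, h i η S ≤ G * ENNReal.ofReal (mc μ s N y (c i) (d i) (A i) η S) := by
        refine le_trans ?_ (hhm i η S)
        refine (mul_le_of_le_one_left zero_le (hf1 η S)).trans ?_
        rw [← mul_prod_erase univ _ (mem_univ i)]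
        exact mul_le_of_le_one_right zero_le (prod_le_one' fun i _ => hb i)
      refine h2.trans (mul_le_mul' le_rfl ((mc_le hy (hcd i).1 (hcd i).2 (hA i) x η hS hSy).trans ?_))
      rw [ind_of hi, mul_one]
  refine h1.trans ?_
  have hms1 : ∀ S, Measurable fun η : Env => f η S * ind (∀ i, NT i η S) := fun S => (hf S).mul (meas_ind ((ms_all hms) S))
  have hms2 : ∀ i S, Measurable fun η : Env => (∑ S' ∈ (range N).powerset, ENNReal.ofReal (gp μ s η N y S') * ind (A i S S')) *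
      ind (¬ NT i η S) := fun i S =>
    (Finset.measurable_sum _ fun S' _ => (hm S').mul_const _).mul (meas_ind ((hms i S).compl))
  have hms3 : ∀ i S, Measurable fun η : Env => ind (Ge μ s N y (c i) (d i) η S ≤ Real.exp (-x)) := fun i S => by
    refine meas_ind (measurableSet_le ?_ measurable_const)
    unfold Ge
    exact Finset.measurable_sum _ fun S' _ => (Pool.Agent.W_7d29a1_HZ.measurable_gp N y S').mul_const _
  have hU := Q1_sum (μ := μ) (s := s) (N := N) (y := (y : ℤ)) (univ : Finset (Fin k)) (f := fun i η S =>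
    ENNReal.ofReal (Real.exp x) * ((∑ S' ∈ (range N).powerset, ENNReal.ofReal (gp μ s η N y S') * ind (A i S S')) *
      ind (¬ NT i η S)) + ind (Ge μ s N y (c i) (d i) η S ≤ Real.exp (-x))) (fun i S => ((hms2 i S).const_mul _).add (hms3 i S))
  have hcm : Q1 μ s N y (fun η S => G * ∑ i ∈ (univ : Finset (Fin k)),
      (ENNReal.ofReal (Real.exp x) * ((∑ S' ∈ (range N).powerset, ENNReal.ofReal (gp μ s η N y S') * ind (A i S S')) *
        ind (¬ NT i η S)) + ind (Ge μ s N y (c i) (d i) η S ≤ Real.exp (-x)))) =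
      G * Q1 μ s N y (fun η S => ∑ i ∈ (univ : Finset (Fin k)),
        (ENNReal.ofReal (Real.exp x) * ((∑ S' ∈ (range N).powerset, ENNReal.ofReal (gp μ s η N y S') * ind (A i S S')) *
          ind (¬ NT i η S)) + ind (Ge μ s N y (c i) (d i) η S ≤ Real.exp (-x)))) := by
    unfold Q1
    rw [← lintegral_const_mul]
    · refine lintegral_congr fun η => ?_
      rw [mul_sum]
      exact sum_congr rfl fun S _ => by ring
    · exact Finset.measurable_sum _ fun S _ => (hm S).mul (Finset.measurable_sum _ fun i _ => ((hms2 i S).const_mul _).add (hms3 i S))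
  rw [Q1_add hms1, hcm, hU]
  refine add_le_add le_rfl (mul_le_mul' le_rfl (sum_le_sum fun i _ => ?_))
  rw [Q1_add fun S => (hms2 i S).const_mul _]
  refine add_le_add ?_ ?_
  · have e1 : Q1 μ s N y (fun η S => ENNReal.ofReal (Real.exp x) *
        ((∑ S' ∈ (range N).powerset, ENNReal.ofReal (gp μ s η N y S') * ind (A i S S')) * ind (¬ NT i η S))) =
        ENNReal.ofReal (Real.exp x) * Q1 μ s N y (fun η S =>
          ((∑ S' ∈ (range N).powerset, ENNReal.ofReal (gp μ s η N y S') * ind (A i S S')) * ind (¬ NT i η S))) := by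
      unfold Q1
      rw [← lintegral_const_mul]
      · refine lintegral_congr fun η => ?_
        rw [mul_sum]
        exact sum_congr rfl fun S _ => by ring
      · exact Finset.measurable_sum _ fun S _ => (hm S).mul (hms2 i S)
    rw [e1, Q1_pair (B := fun η S => ¬ NT i η S) fun S => (hms i S).compl, P2_comm]
  · unfold Q1
    refine (lintegral_mono fun η => sum_Ge ((hcd i).1.trans (hcd i).2) (hcd i).2 η (Real.exp_pos _).le).trans ?_
    rw [lintegral_const, measure_univ, mul_one]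


/-! ### Families of near ties for one conditional replica -/

omit [IsProbabilityMeasure μ] in
theorem Pl.mono_V {N : ℕ} {y : ℤ} {r p : ℝ≥0∞} {A : Finset ℕ → Finset ℕ → Prop} {J V V' : Finset ℕ}
    (h : Pl μ s N y r p A J V) (hV : V ⊆ V') : Pl μ s N y r p A J V' := by
  obtain ⟨NT, h1, h2, h3, h4⟩ := h
  exact ⟨NT, h1, fun J' hJ' => h2 J' (disjoint_of_subset_right hV hJ'), h3, h4⟩

/-- **A FAMILY OF PLACES** for the event `A` (base path, replica of the block `[c, d)`): at most `X` near ties of the base path, which see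
only the rows `V`, are produced by `A` up to `pe`, and are priced by windows inside of `Jf` and away from the obstacles `Ob`; `R` bounds the
sum of the prices. -/
def PFam (μ : Measure ℝ) (s : ℝ) (N y : ℕ) (R X pe : ℝ≥0∞) (c d : ℕ) (A : Finset ℕ → Finset ℕ → Prop) (Jf : Finset ℕ)
    (Ob : Finset (Finset ℕ)) (V : Finset ℕ) : Prop :=
  ∃ (P : Finset (ℕ × ℕ)) (r : ℕ × ℕ → ℝ≥0∞) (B : ℕ × ℕ → Finset ℕ → Finset ℕ → Prop) (J : ℕ × ℕ → Finset ℕ),
    (∀ p ∈ P, Pl μ s N y (r p) pe (B p) (J p) V) ∧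
    (∀ S S', S ⊆ range N → S' ⊆ range N → pos S N = y → pos S' N = y → (∀ j, j ≤ c ∨ d ≤ j → pos S j = pos S' j) →
      A S S' → ∃ p ∈ P, B p S S') ∧ (∀ p, On2 c d (B p)) ∧ ∑ p ∈ P, r p ≤ R ∧ (P.card : ℝ≥0∞) ≤ X ∧
    ∀ p ∈ P, J p ⊆ Jf ∧ ∀ O ∈ Ob, Disjoint (J p) O

/-- The product price for families, with the weights `h i`. -/
theorem lam_coreG {k : ℕ} {y : ℕ} (hy : y ≤ N) {R : Fin k → ℝ≥0∞} {X pe : ℝ≥0∞} {c d : Fin k → ℕ}
    {A : Fin k → Finset ℕ → Finset ℕ → Prop} {Jf : Fin k → Finset ℕ} {Ob : Fin k → Finset (Finset ℕ)} {V : Fin k → Finset ℕ}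
    (hP : ∀ i, PFam μ s N y (R i) X pe (c i) (d i) (A i) (Jf i) (Ob i) (V i)) (hOb : ∀ i i', i < i' → V i' ∈ Ob i)
    (hcd : ∀ i, c i ≤ d i ∧ d i ≤ N) {h : Fin k → Env → Finset ℕ → ℝ≥0∞} (hh1 : ∀ i η S, h i η S ≤ 1) {G : ℝ≥0∞}
    (hhm : ∀ i η S, h i η S ≤ G * ENNReal.ofReal (mc μ s N y (c i) (d i) (A i) η S)) {f : Env → Finset ℕ → ℝ≥0∞}
    (hf : ∀ S, Measurable fun η => f η S) (hf1 : ∀ η S, f η S ≤ 1) (hfo : ∀ i, OffW (Jf i) f) (x : ℝ) :
    Q1 μ s N y (fun η S => f η S * ∏ i, h i η S) ≤ (∏ i, R i) * Q1 μ s N y f + X ^ k * (k * pe) +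
      G * (k * (ENNReal.ofReal (Real.exp x) * (X * pe) + ENNReal.ofReal (((N : ℝ) + 1) ^ 2 * Real.exp (-x)))) := by
  classical
  choose P r B J hPl hA hB hR hX hJ using hP
  -- the near ties
  have hex : ∀ i p, ∃ NT : Env → Finset ℕ → Prop, Ms NT ∧ (p ∈ P i → (∀ J' : Finset ℕ, Disjoint J' (V i) → OffRows J' NT) ∧
      P2 μ s N y (fun _ => 0) (fun η S S' => B i p S' S ∧ ¬ NT η S') ≤ pe ∧
      ∀ F : Env → Finset ℕ → Prop, Ms F → OffRows (J i p) F → P1 μ s N y (fun η S => F η S ∧ NT η S) ≤ r i p * P1 μ s N y F + pe) := by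
    intro i p
    by_cases hp : p ∈ P i
    · obtain ⟨NT, h1, h2, h3, h4⟩ := hPl i p hp
      exact ⟨NT, h1, fun _ => ⟨h2, h3, h4⟩⟩
    · exact ⟨fun _ _ => False, fun S => by simp, fun h => absurd h hp⟩
  choose NT hms hNT using hex
  set A' : Fin k → Finset ℕ → Finset ℕ → Prop := fun i S S' => ∃ p ∈ P i, B i p S S' with hA'
  have hon : ∀ i, On2 (c i) (d i) (A' i) := fun i S S' S'' h => by
    simp only [hA']
    exact exists_congr fun p => and_congr_right fun _ => hB i p S S' S'' h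
  have hhm' : ∀ i η S, h i η S ≤ G * ENNReal.ofReal (mc μ s N y (c i) (d i) (A' i) η S) := fun i η S =>
    (hhm i η S).trans (mul_le_mul' le_rfl (ENNReal.ofReal_le_ofReal
      (mc_mono (fun S S' g1 g2 g3 g4 g5 g6 => hA i S S' g1 g2 g3 g4 g5 g6) η S)))
  refine (Q1_multH hy c d hcd A' hon (fun i η S => ∃ p ∈ P i, NT i p η S) (fun i => ms_ex (P i) (hms i)) hf hf1 hh1 hhm' x).trans ?_
  refine add_le_add ?_ (mul_le_mul' le_rfl ?_)
  · -- the union over the choices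
    refine wt_of_ev (JJ := {J' | ∃ i, J' = Jf i}) (ms_all fun i => ms_ex (P i) (hms i)) (fun F hF hFo => ?_) hf hf1 ?_
    · have h1 : P1 μ s N y (fun η S => F η S ∧ ∀ i, ∃ p ∈ P i, NT i p η S) ≤
          P1 μ s N y (fun η S => ∃ π ∈ Fintype.piFinset P, F η S ∧ ∀ i, NT i (π i) η S) := by
        refine A12.P1_mono' fun η S _ _ hev => ?_
        choose π hπ1 hπ2 using hev.2
        exact ⟨π, Fintype.mem_piFinset.2 hπ1, hev.1, hπ2⟩
      refine h1.trans ((A12.P1_exists (μ := μ) (s := s) (N := N) (y := y) (Fintype.piFinset P)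
        fun π η S => F η S ∧ ∀ i, NT i (π i) η S).trans ?_)
      have h2 : ∀ π ∈ Fintype.piFinset P, P1 μ s N y (fun η S => F η S ∧ ∀ i, NT i (π i) η S) ≤
          (∏ i, r i (π i)) * P1 μ s N y F + k * pe := by
        intro π hπ
        rw [Fintype.mem_piFinset] at hπ
        exact prodP k (fun i => NT i (π i)) (fun i => J i (π i)) (fun i => r i (π i)) pe (fun i => hms _ _)
          (fun i => (hNT i _ (hπ i)).2.2) (fun i i' hi => (hNT i' _ (hπ i')).1 _ ((hJ i _ (hπ i)).2 _ (hOb i i' hi))) F hF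
          fun i => Pool.Agent.W_7d29a1_HZ.ZE.OffRows.mono36 (hJ i _ (hπ i)).1 (hFo _ ⟨i, rfl⟩)
      refine (sum_le_sum h2).trans ?_
      rw [sum_add_distrib, sum_const, Fintype.card_piFinset, nsmul_eq_mul, ← Finset.sum_mul, ← Finset.prod_univ_sum]
      refine add_le_add (mul_le_mul' (Finset.prod_le_prod' fun i _ => hR i) le_rfl) (mul_le_mul' ?_ le_rfl)
      push_cast
      refine (Finset.prod_le_prod' fun i _ => hX i).trans (le_of_eq ?_)
      rw [prod_const, card_univ, Fintype.card_fin]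
    · rintro J' ⟨i, rfl⟩
      exact hfo i
  · -- the production
    have h2 : ∀ i ∈ (univ : Finset (Fin k)), ENNReal.ofReal (Real.exp x) *
        P2 μ s N y (fun _ => 0) (fun η S S' => A' i S' S ∧ ¬ ∃ p ∈ P i, NT i p η S') + ENNReal.ofReal (((N : ℝ) + 1) ^ 2 * Real.exp (-x)) ≤
        ENNReal.ofReal (Real.exp x) * (X * pe) + ENNReal.ofReal (((N : ℝ) + 1) ^ 2 * Real.exp (-x)) := by
      intro i _
      refine add_le_add (mul_le_mul' le_rfl ?_) le_rfl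
      have h1 : P2 μ s N y (fun _ => 0) (fun η S S' => A' i S' S ∧ ¬ ∃ p ∈ P i, NT i p η S') ≤
          P2 μ s N y (fun _ => 0) (fun η S S' => ∃ p ∈ P i, B i p S' S ∧ ¬ NT i p η S') := by
        refine A12.P2_mono' fun η S S' _ _ _ _ hev => ?_
        obtain ⟨⟨p, hp, hb⟩, h⟩ := hev
        exact ⟨p, hp, hb, fun h' => h ⟨p, hp, h'⟩⟩
      exact (h1.trans (Pool.Agent.W_7d29a1_HZ.Z74.P2_ex_le (P i) (fun p η S S' => B i p S' S ∧ ¬ NT i p η S') fun p hp =>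
        (hNT i p hp).2.1)).trans (mul_le_mul' (hX i) le_rfl)
    refine (sum_le_sum h2).trans (le_of_eq ?_)
    rw [sum_const, card_univ, Fintype.card_fin, nsmul_eq_mul]

/-- **THE PRICE FOR FAMILIES OF PLACES**, amplified form. -/
theorem lam_main (k : ℕ) {c₁ : ℝ} (hc₁ : 0 < c₁) : ∃ κ c₂ : ℝ, 0 < κ ∧ 0 < c₂ ∧ ∃ L₀ : ℕ, ∀ L : ℕ, L₀ ≤ L → ∀ N y : ℕ, N ≤ L → y ≤ N →
    ∀ (R : Fin k → ℝ≥0∞) (c d : Fin k → ℕ) (A : Fin k → Finset ℕ → Finset ℕ → Prop) (Jf : Fin k → Finset ℕ)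
      (Ob : Fin k → Finset (Finset ℕ)) (V : Fin k → Finset ℕ),
    (∀ i, PFam μ s N y (R i) (ENNReal.ofReal ((L : ℝ) ^ 2)) (ENNReal.ofReal (Real.exp (-(L : ℝ) ^ c₁))) (c i) (d i) (A i) (Jf i) (Ob i)
      (V i)) → (∀ i i', i < i' → V i' ∈ Ob i) → (∀ i, c i ≤ d i ∧ d i ≤ N) →
    ∀ h : Fin k → Env → Finset ℕ → ℝ≥0∞, (∀ i η S, h i η S ≤ 1) →
    (∀ i η S, h i η S ≤ ENNReal.ofReal (Real.exp ((L : ℝ) ^ κ)) * ENNReal.ofReal (mc μ s N y (c i) (d i) (A i) η S)) →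
    ∀ f : Env → Finset ℕ → ℝ≥0∞, (∀ S, Measurable fun η => f η S) → (∀ η S, f η S ≤ 1) → (∀ i, OffW (Jf i) f) →
    Q1 μ s N y (fun η S => f η S * ∏ i, h i η S) ≤ (∏ i, R i) * Q1 μ s N y f + ENNReal.ofReal (Real.exp (-(L : ℝ) ^ c₂)) := by
  obtain ⟨c₂, hc₂, -, L₂, hX⟩ := Pool.Agent.W_7d29a1_Z.NumI77.pow_exp (show 0 < c₁ / 4 by positivity) (2 * k + 6)
  obtain ⟨L₃, hL₃⟩ := Pool.Agent.W_7d29a1_Z.NumI77.large (show 0 < c₁ / 4 by positivity) 4
  refine ⟨c₁ / 4, c₂, by positivity, hc₂, L₂ + L₃ + 10 * k + 100, ?_⟩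
  intro L hL N y hNL hyN R c d A Jf Ob V hP hOb hcd h hh1 hhm f hf hf1 hfo
  have hL100 : (100 : ℝ) ≤ L := by exact_mod_cast (show 100 ≤ L by omega)
  have hL0 : (0 : ℝ) < L := by linarith
  have hkL : 10 * (k : ℝ) ≤ L := by exact_mod_cast (show 10 * k ≤ L by omega)
  set x : ℝ := (L : ℝ) ^ (c₁ / 4) with hx
  obtain ⟨-, hx4, -⟩ := hL₃ L (by omega)
  rw [← hx] at hx4
  have hxx : (L : ℝ) ^ c₁ = x ^ 4 := by
    rw [hx, ← Real.rpow_natCast, ← Real.rpow_mul hL0.le]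
    congr 1
    push_cast
    ring
  refine (lam_coreG hyN hP hOb hcd hh1 hhm hf hf1 hfo (2 * x)).trans ?_
  rw [add_assoc]
  refine add_le_add le_rfl ?_
  have hk' : (k : ℝ≥0∞) = ENNReal.ofReal k := by rw [ENNReal.ofReal_natCast]
  have e1 : ENNReal.ofReal ((L : ℝ) ^ 2) ^ k * (k * ENNReal.ofReal (Real.exp (-(L : ℝ) ^ c₁))) =
      ENNReal.ofReal (((L : ℝ) ^ 2) ^ k * (k * Real.exp (-(L : ℝ) ^ c₁))) := by
    rw [hk', ENNReal.ofReal_mul (by positivity), ENNReal.ofReal_mul (Nat.cast_nonneg k),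
      ENNReal.ofReal_pow (show (0 : ℝ) ≤ (L : ℝ) ^ 2 by positivity) k]
  have e2 : ENNReal.ofReal (Real.exp x) * (k * (ENNReal.ofReal (Real.exp (2 * x)) * (ENNReal.ofReal ((L : ℝ) ^ 2) *
      ENNReal.ofReal (Real.exp (-(L : ℝ) ^ c₁))) + ENNReal.ofReal (((N : ℝ) + 1) ^ 2 * Real.exp (-(2 * x))))) =
      ENNReal.ofReal (Real.exp x * (k * (Real.exp (2 * x) * ((L : ℝ) ^ 2 * Real.exp (-(L : ℝ) ^ c₁)) +
        ((N : ℝ) + 1) ^ 2 * Real.exp (-(2 * x))))) := by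
    rw [hk', ENNReal.ofReal_mul (Real.exp_pos x).le, ENNReal.ofReal_mul (Nat.cast_nonneg k),
      ENNReal.ofReal_add (by positivity) (by positivity), ENNReal.ofReal_mul (Real.exp_pos (2 * x)).le,
      ENNReal.ofReal_mul (show (0 : ℝ) ≤ (L : ℝ) ^ 2 by positivity)]
  rw [e1, e2, ← ENNReal.ofReal_add (by positivity) (by positivity)]
  refine ENNReal.ofReal_le_ofReal ?_
  have h5 := hX L (by omega)
  rw [← hx, Real.rpow_add hL0] at h5
  have e4 : (L : ℝ) ^ (6 : ℝ) = (L : ℝ) ^ 6 := by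
    rw [← Real.rpow_natCast]
    norm_num
  have e5 : (L : ℝ) ^ (2 * (k : ℝ)) = ((L : ℝ) ^ 2) ^ k := by
    rw [Real.rpow_mul hL0.le, Real.rpow_natCast]
    congr 1
    rw [← Real.rpow_natCast]
    norm_num
  rw [e4, e5] at h5
  refine le_trans ?_ h5
  set K : ℝ := ((L : ℝ) ^ 2) ^ k with hK
  have hK1 : 1 ≤ K := one_le_pow₀ (one_le_pow₀ (by linarith))
  have hE : Real.exp (-(L : ℝ) ^ c₁) ≤ Real.exp (-(4 * x)) := by
    rw [Real.exp_le_exp, hxx]
    have : 4 * x ≤ x ^ 4 := by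
      have h1 : (16 : ℝ) ≤ x ^ 3 := by nlinarith [sq_nonneg x]
      nlinarith
    linarith
  have hx0 : 0 ≤ x := by linarith
  have hNL' : (N : ℝ) ≤ L := by exact_mod_cast hNL
  have hN0 : (0 : ℝ) ≤ N := Nat.cast_nonneg N
  have hk0 : (0 : ℝ) ≤ k := Nat.cast_nonneg k
  have hp0 := (Real.exp_pos (-x)).le
  have t1 : K * (k * Real.exp (-(L : ℝ) ^ c₁)) ≤ K * (L * Real.exp (-x)) := by
    refine mul_le_mul_of_nonneg_left (mul_le_mul (by linarith) (hE.trans (Real.exp_le_exp.2 (by linarith))) (Real.exp_pos _).le hL0.le)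
      (by linarith)
  have t2 : Real.exp x * (k * (Real.exp (2 * x) * ((L : ℝ) ^ 2 * Real.exp (-(L : ℝ) ^ c₁)) + ((N : ℝ) + 1) ^ 2 * Real.exp (-(2 * x)))) ≤
      L * ((L : ℝ) ^ 2 + 4 * (L : ℝ) ^ 2) * Real.exp (-x) := by
    have g1 : Real.exp x * (Real.exp (2 * x) * Real.exp (-(L : ℝ) ^ c₁)) ≤ Real.exp (-x) := by
      refine (mul_le_mul_of_nonneg_left (mul_le_mul_of_nonneg_left hE (Real.exp_pos _).le) (Real.exp_pos x).le).trans (le_of_eq ?_)
      rw [← Real.exp_add, ← Real.exp_add]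
      congr 1
      ring
    have g2 : Real.exp x * Real.exp (-(2 * x)) = Real.exp (-x) := by
      rw [← Real.exp_add]
      congr 1
      ring
    have g3 : ((N : ℝ) + 1) ^ 2 ≤ 4 * (L : ℝ) ^ 2 := by nlinarith
    calc _ = k * ((L : ℝ) ^ 2 * (Real.exp x * (Real.exp (2 * x) * Real.exp (-(L : ℝ) ^ c₁))) +
          ((N : ℝ) + 1) ^ 2 * (Real.exp x * Real.exp (-(2 * x)))) := by ring
      _ ≤ L * ((L : ℝ) ^ 2 * Real.exp (-x) + 4 * (L : ℝ) ^ 2 * Real.exp (-x)) := by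
          refine mul_le_mul (by linarith) ?_ (by positivity) hL0.le
          refine add_le_add (mul_le_mul_of_nonneg_left g1 (by positivity)) ?_
          rw [g2]
          exact mul_le_mul_of_nonneg_right g3 hp0
      _ = _ := by ring
  refine (add_le_add t1 t2).trans ?_
  have h6 : L * ((L : ℝ) ^ 2 + 4 * (L : ℝ) ^ 2) * Real.exp (-x) ≤ K * (5 * (L : ℝ) ^ 3 * Real.exp (-x)) := by
    have : L * ((L : ℝ) ^ 2 + 4 * (L : ℝ) ^ 2) * Real.exp (-x) = 1 * (5 * (L : ℝ) ^ 3 * Real.exp (-x)) := by ring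
    rw [this]
    exact mul_le_mul_of_nonneg_right hK1 (by positivity)
  have h7 : (L : ℝ) + 5 * (L : ℝ) ^ 3 ≤ (L : ℝ) ^ 6 := by
    have a1 : (L : ℝ) ≤ (L : ℝ) ^ 3 := by nlinarith [sq_nonneg (L : ℝ)]
    have a2 : 6 * (L : ℝ) ^ 3 ≤ (L : ℝ) ^ 3 * (L : ℝ) ^ 3 := mul_le_mul_of_nonneg_right (by nlinarith [sq_nonneg (L : ℝ)]) (by positivity)
    have a3 : (L : ℝ) ^ 3 * (L : ℝ) ^ 3 = (L : ℝ) ^ 6 := by ring
    linarith
  calc _ ≤ K * (L * Real.exp (-x)) + K * (5 * (L : ℝ) ^ 3 * Real.exp (-x)) := add_le_add le_rfl h6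
    _ = K * ((L + 5 * (L : ℝ) ^ 3) * Real.exp (-x)) := by ring
    _ ≤ K * ((L : ℝ) ^ 6 * Real.exp (-x)) := mul_le_mul_of_nonneg_left (mul_le_mul_of_nonneg_right h7 hp0) (by linarith)
    _ = _ := by ring

/-! ### Type L: laminar -/

omit [IsProbabilityMeasure μ] in
/-- A short set of rows meets at most two cells of length `t`. -/
theorem card_hitO {t x p q : ℕ} {O : Finset ℕ} (hO : O ⊆ Icc p q) (hpq : q ≤ p + t) :
    ((range 15).filter fun j => ¬ Disjoint (Ico (x + j * t) (x + j * t + t)) O).card ≤ 2 := by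
  set T := (range 15).filter fun j => ¬ Disjoint (Ico (x + j * t) (x + j * t + t)) O with hT
  rcases T.eq_empty_or_nonempty with h0 | h0
  · rw [h0]
    simp
  · set j0 := T.min' h0 with hj0
    have hsub : T ⊆ {j0, j0 + 1} := by
      intro j hj
      have h1 : j0 ≤ j := T.min'_le j hj
      have h2 := (mem_filter.1 hj).2
      have h3 := (mem_filter.1 (T.min'_mem h0)).2
      rw [not_disjoint_iff] at h2 h3
      obtain ⟨r, hr1, hr2⟩ := h2
      obtain ⟨r', hr1', hr2'⟩ := h3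
      have hr3 := mem_Icc.1 (hO hr2)
      have hr3' := mem_Icc.1 (hO hr2')
      rw [mem_Ico] at hr1 hr1'
      rw [← hj0] at hr1'
      rw [mem_insert, mem_singleton]
      by_contra hcon
      rw [not_or] at hcon
      have h4 : j0 + 2 ≤ j := by omega
      have h5 : (j0 + 2) * t ≤ j * t := Nat.mul_le_mul_right t h4
      have h6 : (j0 + 2) * t = j0 * t + 2 * t := by ring
      omega
    exact (card_le_card hsub).trans card_le_two

omit [IsProbabilityMeasure μ] in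
/-- **The window of a gap, away from the obstacles.** -/
theorem gap_coverO {c d u v D : ℕ} (hD : 1 ≤ D) (hD4 : u + 4 * D ≤ v) (Ob : Finset (Finset ℕ)) (hOb : Ob.card ≤ 7)
    (hO : ∀ O ∈ Ob, Disjoint (Ioo c d) O ∨ ∃ p q, O ⊆ Icc p q ∧ (q ≤ u ∨ v ≤ p) ∧ q ≤ p + D) {S S' : Finset ℕ} (h : Gap c d u v S S') :
    ∃ m i : ℕ, i ≤ 64 ∧ Gpc c d (2 ^ m * D) (u + 1 + i * (2 ^ m * D) - 32 * (2 ^ m * D)) S S' ∧
      c < u + 1 + i * (2 ^ m * D) - 32 * (2 ^ m * D) ∧ u + 1 + i * (2 ^ m * D) - 32 * (2 ^ m * D) + 2 ^ m * D ≤ d ∧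
      ∀ O ∈ Ob, Disjoint (Ico (u + 1 + i * (2 ^ m * D) - 32 * (2 ^ m * D)) (u + 1 + i * (2 ^ m * D) - 32 * (2 ^ m * D) + 2 ^ m * D)) O := by
  obtain ⟨a, b', h1, h2, h3, h4, h5, h6, h7⟩ := h.max (by omega)
  have e1 : ∃ m, b' ≤ a + 32 * (2 ^ m * D) := by
    refine ⟨b', ?_⟩
    have g1 : b' < 2 ^ b' := Nat.lt_two_pow_self
    have g2 : 2 ^ b' * 1 ≤ 2 ^ b' * D := Nat.mul_le_mul_left _ hD
    omega
  classical
  obtain ⟨m, hm⟩ : ∃ m, m = Nat.find e1 := ⟨_, rfl⟩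
  have hs := Nat.find_spec e1
  rw [← hm] at hs
  have hmin : ∀ m', m' < m → a + 32 * (2 ^ m' * D) < b' := fun m' h => not_le.1 (Nat.find_min e1 (hm ▸ h))
  rcases Nat.eq_zero_or_pos m with h0 | h0
  · subst h0
    rw [pow_zero, one_mul] at hs
    refine ⟨0, 32, by norm_num, ?_⟩
    rw [pow_zero, one_mul]
    have e2 : u + 1 + 32 * D - 32 * D = u + 1 := by omega
    rw [e2]
    refine ⟨⟨a, b', h1, by omega, by omega, h4, hs, h5, h6, fun k hk1 hk2 => h7 k (by omega) (by omega)⟩, by omega, by omega, ?_⟩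
    intro O hO'
    rw [disjoint_left]
    intro r hr1 hr2
    rw [mem_Ico] at hr1
    rcases hO O hO' with g | ⟨p, q, g1, g2, g3⟩
    · exact disjoint_left.1 g (mem_Ioo.2 ⟨by omega, by omega⟩) hr2
    · have g4 := mem_Icc.1 (g1 hr2)
      rcases g2 with g | g <;> omega
  · obtain ⟨m', rfl⟩ : ∃ m', m = m' + 1 := ⟨m - 1, by omega⟩
    have h8 := hmin m' (by omega)
    obtain ⟨t, ht⟩ : ∃ t, t = 2 ^ (m' + 1) * D := ⟨_, rfl⟩
    have ht2 : t = 2 * (2 ^ m' * D) := by rw [ht]; ring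
    have htD : D ≤ t := by
      have : 1 * D ≤ 2 ^ (m' + 1) * D := Nat.mul_le_mul_right D Nat.one_le_two_pow
      omega
    have h9 : a + 16 * t < b' := by omega
    rw [← ht] at hs
    have e2 : ∃ i, 32 * t + a + 1 ≤ u + 1 + i * t := by
      refine ⟨33 + a, ?_⟩
      have : (33 + a) * t = 33 * t + a * t := by ring
      have g : a * 1 ≤ a * t := Nat.mul_le_mul_left a (by omega)
      omega
    obtain ⟨i₀, hi₀⟩ : ∃ i₀, i₀ = Nat.find e2 := ⟨_, rfl⟩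
    have hs2 := Nat.find_spec e2
    rw [← hi₀] at hs2
    have hi1 : u + 1 + i₀ * t ≤ 32 * t + a + t := by
      rcases Nat.eq_zero_or_pos i₀ with g | g
      · rw [g, zero_mul]
        omega
      · obtain ⟨i', rfl⟩ : ∃ i', i₀ = i' + 1 := ⟨i₀ - 1, by omega⟩
        have g1 := not_le.1 (Nat.find_min e2 (m := i') (by omega))
        have g2 : (i' + 1) * t = i' * t + t := by ring
        omega
    set x := u + 1 + i₀ * t - 32 * t with hx
    have hx1 : a + 1 ≤ x ∧ x ≤ a + t := by omega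
    have hjt' : ∀ j, j < 15 → j * t ≤ 14 * t := fun j hj => Nat.mul_le_mul_right t (by omega)
    have hex : ∃ j ∈ range 15, ∀ O ∈ Ob, Disjoint (Ico (x + j * t) (x + j * t + t)) O := by
      by_contra hcon
      push Not at hcon
      have hsub : range 15 ⊆ Ob.biUnion fun O => (range 15).filter fun j => ¬ Disjoint (Ico (x + j * t) (x + j * t + t)) O := by
        intro j hj
        obtain ⟨o, ho, hd⟩ := hcon j hj
        exact mem_biUnion.2 ⟨o, ho, mem_filter.2 ⟨hj, hd⟩⟩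
      have g1 := card_le_card hsub
      have g2 := g1.trans (card_biUnion_le)
      have g3 : ∑ O ∈ Ob, ((range 15).filter fun j => ¬ Disjoint (Ico (x + j * t) (x + j * t + t)) O).card ≤ ∑ O ∈ Ob, 2 := by
        refine sum_le_sum fun O ho => ?_
        rcases hO O ho with g | ⟨p, q, k1, k2, k3⟩
        · refine le_trans (le_of_eq ?_) (Nat.zero_le 2)
          rw [card_eq_zero, filter_eq_empty_iff]
          intro j hj
          rw [not_not, disjoint_left]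
          intro r hr1 hr2
          rw [mem_Ico] at hr1
          have := hjt' j (mem_range.1 hj)
          exact disjoint_left.1 g (mem_Ioo.2 ⟨by omega, by omega⟩) hr2
        · exact card_hitO k1 (k3.trans (by omega))
      rw [sum_const, smul_eq_mul] at g3
      rw [card_range] at g2
      omega
    obtain ⟨j, hj, hjo⟩ := hex
    rw [mem_range] at hj
    have hjt : j * t ≤ 14 * t := hjt' j hj
    have e3 : u + 1 + (i₀ + j) * t - 32 * t = x + j * t := by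
      have : (i₀ + j) * t = i₀ * t + j * t := by ring
      omega
    refine ⟨m' + 1, i₀ + j, ?_, ?_⟩
    · by_contra hcon
      have g1 : 65 * t ≤ (i₀ + j) * t := Nat.mul_le_mul_right t (by omega)
      omega
    · rw [← ht, e3]
      exact ⟨⟨a, b', h1, by omega, by omega, h4, hs, h5, h6, fun k hk1 hk2 => h7 k (by omega) (by omega)⟩, by omega, by omega, hjo⟩

/-- **Type L**: the window of the gap is placed away from the (small) obstacles. -/
theorem pf_lam (h : In μ s c₀ C₀ n₀) : ∀ ε θ : ℝ, 0 < ε → 0 < θ → ∃ δ c₁ : ℝ, 0 < δ ∧ 0 < c₁ ∧ ∃ L₀ : ℕ,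
    ∀ L : ℕ, L₀ ≤ L → ∀ N : ℕ, L ≤ 16 * N → N ≤ L → ∀ y : ℕ, y ≤ N → |(y : ℝ) - sl μ s * N| ≤ ((L : ℝ) ^ δ * wd' μ s N) →
    ∀ c d c' d' u v : ℕ, c ≤ c' → c' ≤ u → v ≤ d' → d' ≤ d → d ≤ N → (L : ℝ) ^ θ ≤ ((v - u : ℕ) : ℝ) →
    ∀ Ob : Finset (Finset ℕ), Ob.card ≤ 7 →
    (∀ O ∈ Ob, Disjoint (Ioo c' d') O ∨ ∃ p q, O ⊆ Icc p q ∧ (q ≤ u ∨ v ≤ p) ∧ 4 * (q - p) ≤ v - u) →
    ∀ A : Finset ℕ → Finset ℕ → Prop,
    (∀ S S', S ⊆ range N → S' ⊆ range N → pos S N = y → pos S' N = y → (∀ j, j ≤ c ∨ d ≤ j → pos S j = pos S' j) →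
      A S S' → Gap c' d' u v S S') →
    PFam μ s N y (ENNReal.ofReal ((L : ℝ) ^ ε * (EE' μ s (v - u))⁻¹)) (ENNReal.ofReal ((L : ℝ) ^ 2))
      (ENNReal.ofReal (Real.exp (-(L : ℝ) ^ c₁))) c d A (Ioo c' d') Ob (Icc c' d') := by
  intro ε θ hε hθ
  obtain ⟨L₀, hnum⟩ := price_sum h ε θ hε hθ
  obtain ⟨δ, c₁, hδ, hc₁, L₁, hP⟩ := pl_lb h (ε / 2) (θ / 2) (by positivity) (by positivity)
  refine ⟨δ, c₁, hδ, hc₁, L₀ + L₁ + 100, ?_⟩
  intro L hL N hLN hNL y hyN hyc c d c' d' u v hb1 hb2 hb3 hb4 hb5 hlen Ob hOb hO A hA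
  have hL10 : (100 : ℝ) ≤ L := by exact_mod_cast (show 100 ≤ L by omega)
  have hL0 : (0 : ℝ) < L := by linarith
  have hy0 : (0 : ℤ) ≤ y := by positivity
  have hyN' : (y : ℤ) ≤ N := by exact_mod_cast hyN
  have hyc' : |((y : ℤ) : ℝ) - sl μ s * N| ≤ ((L : ℝ) ^ δ * wd' μ s N) := by
    push_cast
    exact hyc
  obtain ⟨D, hD⟩ : ∃ D : ℕ, D = (v - u) / 4 := ⟨_, rfl⟩
  obtain ⟨n1, n2, n3⟩ := hnum L (by omega) N (v - u) D hNL hlen (by omega) hD
  have huv : u < v := by omega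
  set tt : ℕ × ℕ → ℕ := fun p => 2 ^ p.1 * D with htt
  set ta : ℕ × ℕ → ℕ := fun p => u + 1 + p.2 * tt p - 32 * tt p with hta
  set P : Finset (ℕ × ℕ) := (range (Nat.log 2 N + 1) ×ˢ range 65).filter fun p => c' < ta p ∧
    ta p + tt p ≤ d' ∧ ∀ O ∈ Ob, Disjoint (Ico (ta p) (ta p + tt p)) O with hPd
  have hPm : ∀ p ∈ P, c' < ta p ∧ ta p + tt p ≤ d' ∧ ∀ O ∈ Ob, Disjoint (Ico (ta p) (ta p + tt p)) O :=
    fun p hp => (mem_filter.1 hp).2
  have hE0 : ∀ t, 0 < EE' μ s t := fun t => lt_of_lt_of_le zero_lt_one (le_max_left _ _)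
  refine ⟨P, fun p => ENNReal.ofReal ((L : ℝ) ^ (ε / 2) * (EE' μ s (tt p))⁻¹), fun p => Gpc c' d' (tt p) (ta p),
    fun p => Ico (ta p) (ta p + tt p), fun p hp => ?_, fun S S' g1 g2 g3 g4 g5 g6 => ?_, fun p => ?_, ?_, ?_, fun p hp => ?_⟩
  · obtain ⟨g1, g2, -⟩ := hPm p hp
    refine Pl.mono_V (hP L (by omega) N (tt p) hLN hNL (n1 p.1) (by omega) y hy0 hyN' hyc' (ta p) c' d' (by omega)) ?_
    intro a ha
    rw [mem_Ioc] at ha
    rw [mem_Icc]
    omega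
  · obtain ⟨m, j, q1, q2, q3, q4, q5⟩ := gap_coverO (D := D) n2 (by omega) Ob hOb (fun O ho => by
      rcases hO O ho with g | ⟨p, q, k1, k2, k3⟩
      · exact Or.inl g
      · exact Or.inr ⟨p, q, k1, k2, by omega⟩) (hA S S' g1 g2 g3 g4 g5 g6)
    refine ⟨(m, j), mem_filter.2 ⟨?_, q3, q4, q5⟩, q2⟩
    rw [mem_product, mem_range, mem_range]
    refine ⟨?_, by omega⟩
    have h1 : 2 ^ m * D ≤ N := by omega
    have h2 : 2 ^ m * 1 ≤ 2 ^ m * D := Nat.mul_le_mul_left _ n2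
    have h3 : m ≤ Nat.log 2 N := Nat.le_log_of_pow_le (by norm_num) (by omega)
    show m < Nat.log 2 N + 1
    omega
  · exact On2.mono (gpc_on2 _ _ _ _) hb1 hb4
  · refine (sum_le_sum_of_subset (filter_subset _ _)).trans ?_
    rw [← ENNReal.ofReal_sum_of_nonneg fun p _ => by have := hE0 (tt p); positivity]
    exact ENNReal.ofReal_le_ofReal n3
  · have h1 : P.card ≤ (Nat.log 2 N + 1) * 65 := by
      refine (card_filter_le _ _).trans ?_
      rw [card_product, card_range, card_range]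
    have h2 : Nat.log 2 N ≤ N := Nat.log_le_self 2 N
    have h3 : (Nat.log 2 N + 1) * 65 ≤ L ^ 2 := by
      have h4 : (Nat.log 2 N + 1) * 65 ≤ (L + 1) * 65 := Nat.mul_le_mul_right 65 (by omega)
      nlinarith
    rw [← ENNReal.ofReal_natCast]
    refine ENNReal.ofReal_le_ofReal ?_
    exact_mod_cast h1.trans h3
  · obtain ⟨g1, g2, g3⟩ := hPm p hp
    refine ⟨fun a ha => ?_, g3⟩
    rw [mem_Ico] at ha
    rw [mem_Ioo]
    omega

/-! ### Type R: from right to left -/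

omit [IsProbabilityMeasure μ] in
theorem bk_on2 (c d t τ : ℕ) : On2 c d (Bk c d t τ) := by
  have key : ∀ S S' S'' : Finset ℕ, (∀ i, c ≤ i → i ≤ d → pos S' i = pos S'' i) → Bk c d t τ S S' → Bk c d t τ S S'' := by
    rintro S S' S'' h ⟨a, b', h1, h2, h3, h4, h6, h7, h8⟩
    refine ⟨a, b', h1, h2, h3, h4, ?_, ?_, fun k hk1 hk2 => ?_⟩
    · rw [h6, h a h1 (by omega)]
    · rw [h7, h b' (by omega) h4]
    · rw [← h k (by omega) (by omega)]
      exact h8 k hk1 hk2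
  exact fun S S' S'' h => ⟨key S S' S'' h, key S S'' S' fun i h1 h2 => (h i h1 h2).symm⟩

/-- **Type R**: the windows are in the rows `(u, d')`, whatever the length of the gap. -/
theorem pf_right (h : In μ s c₀ C₀ n₀) : ∀ ε θ : ℝ, 0 < ε → 0 < θ → ∃ δ c₁ : ℝ, 0 < δ ∧ 0 < c₁ ∧ ∃ L₀ : ℕ,
    ∀ L : ℕ, L₀ ≤ L → ∀ N : ℕ, L ≤ 16 * N → N ≤ L → ∀ y : ℕ, y ≤ N → |(y : ℝ) - sl μ s * N| ≤ ((L : ℝ) ^ δ * wd' μ s N) →
    ∀ c d c' d' u v : ℕ, c ≤ c' → c' ≤ u → v ≤ d' → d' ≤ d → d ≤ N → (L : ℝ) ^ θ ≤ ((v - u : ℕ) : ℝ) →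
    ∀ Ob : Finset (Finset ℕ), (∀ O ∈ Ob, Disjoint (Ioo u d') O) →
    ∀ A : Finset ℕ → Finset ℕ → Prop,
    (∀ S S', S ⊆ range N → S' ⊆ range N → pos S N = y → pos S' N = y → (∀ j, j ≤ c ∨ d ≤ j → pos S j = pos S' j) →
      A S S' → Gap c' d' u v S S') →
    PFam μ s N y (ENNReal.ofReal ((L : ℝ) ^ ε * (EE' μ s (v - u))⁻¹)) (ENNReal.ofReal ((L : ℝ) ^ 2))
      (ENNReal.ofReal (Real.exp (-(L : ℝ) ^ c₁))) c d A (Ioo u d') Ob (Icc c' d') := by
  intro ε θ hε hθ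
  obtain ⟨δ, c₁, hδ, hc₁, L₁, hP⟩ := pl_blk h ε θ hε hθ
  obtain ⟨L₂, hL₂⟩ := Pool.Agent.W_7d29a1_Z.NumI77.large hθ 4
  refine ⟨δ, c₁, hδ, hc₁, L₁ + L₂ + 100, ?_⟩
  intro L hL N hLN hNL y hyN hyc c d c' d' u v hb1 hb2 hb3 hb4 hb5 hlen Ob hO A hA
  have hL10 : (100 : ℝ) ≤ L := by exact_mod_cast (show 100 ≤ L by omega)
  obtain ⟨-, hL4, -⟩ := hL₂ L (by omega)
  have hv4 : 4 ≤ v - u := by exact_mod_cast hL4.trans hlen
  have hy0 : (0 : ℤ) ≤ y := by positivity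
  have hyN' : (y : ℤ) ≤ N := by exact_mod_cast hyN
  have hyc' : |((y : ℤ) : ℝ) - sl μ s * N| ≤ ((L : ℝ) ^ δ * wd' μ s N) := by
    push_cast
    exact hyc
  refine ⟨{(0, 0)}, fun _ => ENNReal.ofReal ((L : ℝ) ^ ε * (EE' μ s (v - u))⁻¹), fun _ => Bk c' d' (v - u) (u + 1),
    fun _ => Ico (u + 1) d', fun p hp => ?_, fun S S' g1 g2 g3 g4 g5 g6 => ?_, fun p => ?_, ?_, ?_, fun p hp => ⟨?_, ?_⟩⟩
  · refine Pl.mono_V (hP L (by omega) N (v - u) hLN hNL hlen (by omega) y hy0 hyN' hyc' (u + 1) c' d' (by omega) (by omega)) ?_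
    intro a ha
    rw [mem_Ioc] at ha
    rw [mem_Icc]
    omega
  · obtain ⟨a, b', k1, k2, k3, k4, k5, k6, k7⟩ := hA S S' g1 g2 g3 g4 g5 g6
    exact ⟨(0, 0), mem_singleton_self _, a, b', k1, by omega, by omega, k4, k5, k6, fun k hk1 hk2 => k7 k (by omega) (by omega)⟩
  · exact On2.mono (bk_on2 _ _ _ _) hb1 hb4
  · rw [sum_singleton]
  · rw [card_singleton, Nat.cast_one, ← ENNReal.ofReal_one]
    refine ENNReal.ofReal_le_ofReal ?_
    nlinarith
  · intro a ha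
    rw [mem_Ico] at ha
    rw [mem_Ioo]
    omega
  · intro O ho
    refine disjoint_of_subset_left (fun a ha => ?_) (hO O ho)
    rw [mem_Ico] at ha
    rw [mem_Ioo]
    omega

/-! ### The theorem for the types L and R -/

omit [IsProbabilityMeasure μ] in
theorem Pl.mono_p {N : ℕ} {y : ℤ} {r p p' : ℝ≥0∞} {A : Finset ℕ → Finset ℕ → Prop} {J V : Finset ℕ}
    (h : Pl μ s N y r p A J V) (hp : p ≤ p') : Pl μ s N y r p' A J V := by
  obtain ⟨NT, h1, h2, h3, h4⟩ := h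
  exact ⟨NT, h1, h2, h3.trans hp, fun F hF hoff => (h4 F hF hoff).trans (add_le_add le_rfl hp)⟩

omit [IsProbabilityMeasure μ] in
theorem PFam.mono_p {N y : ℕ} {R X pe pe' : ℝ≥0∞} {c d : ℕ} {A : Finset ℕ → Finset ℕ → Prop} {Jf : Finset ℕ}
    {Ob : Finset (Finset ℕ)} {V : Finset ℕ} (h : PFam μ s N y R X pe c d A Jf Ob V) (hp : pe ≤ pe') :
    PFam μ s N y R X pe' c d A Jf Ob V := by
  obtain ⟨P, r, B, J, h1, h2⟩ := h
  exact ⟨P, r, B, J, fun p hp' => (h1 p hp').mono_p hp, h2⟩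

omit [IsProbabilityMeasure μ] in
theorem card_ob {k : ℕ} (hk : k ≤ 8) (i : Fin k) (g : Fin k → Finset ℕ) : ((univ.filter fun i' : Fin k => i < i').image g).card ≤ 7 := by
  refine card_image_le.trans ?_
  have h1 : (univ.filter fun i' : Fin k => i < i') ⊆ univ.erase i := by
    intro i' hi'
    rw [mem_erase]
    exact ⟨(mem_filter.1 hi').2.ne', mem_univ _⟩
  have h2 := card_le_card h1
  rw [card_erase_of_mem (mem_univ i), card_univ, Fintype.card_fin] at h2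
  omega

/-- **THE GENERAL PRICE, types L and R, amplified form.** -/
theorem lamLR86 (h : In μ s c₀ C₀ n₀) (k : ℕ) (hk : k ≤ 8) : ∀ ε θ : ℝ, 0 < ε → 0 < θ → ∃ δ κ c₂ : ℝ, 0 < δ ∧ 0 < κ ∧ 0 < c₂ ∧ ∃ L₀ : ℕ,
    ∀ L : ℕ, L₀ ≤ L → ∀ N : ℕ, L ≤ 16 * N → N ≤ L → ∀ y : ℕ, y ≤ N → |(y : ℝ) - sl μ s * N| ≤ ((L : ℝ) ^ δ * wd' μ s N) →
    ∀ c d c' d' u v : Fin k → ℕ, (∀ i, c i ≤ c' i ∧ c' i ≤ u i ∧ v i ≤ d' i ∧ d' i ≤ d i ∧ d i ≤ N) →
    (∀ i, (L : ℝ) ^ θ ≤ ((v i - u i : ℕ) : ℝ)) → ∀ Jf : Fin k → Finset ℕ,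
    (∀ i, (Jf i = Ioo (c' i) (d' i) ∧ ∀ i', i < i' → d' i ≤ c' i' ∨ d' i' ≤ c' i ∨
        ((d' i' ≤ u i ∨ v i ≤ c' i') ∧ 4 * (d' i' - c' i') ≤ v i - u i)) ∨
      (Jf i = Ioo (u i) (d' i) ∧ ∀ i', i < i' → d' i' ≤ u i ∨ d' i ≤ c' i')) →
    ∀ A : Fin k → Finset ℕ → Finset ℕ → Prop,
    (∀ i S S', S ⊆ range N → S' ⊆ range N → pos S N = y → pos S' N = y → (∀ j, j ≤ c i ∨ d i ≤ j → pos S j = pos S' j) →
      A i S S' → Gap (c' i) (d' i) (u i) (v i) S S') →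
    ∀ g : Fin k → Env → Finset ℕ → ℝ≥0∞, (∀ i η S, g i η S ≤ 1) →
    (∀ i η S, g i η S ≤ ENNReal.ofReal (Real.exp ((L : ℝ) ^ κ)) * ENNReal.ofReal (mc μ s N y (c i) (d i) (A i) η S)) →
    ∀ f : Env → Finset ℕ → ℝ≥0∞, (∀ S, Measurable fun η => f η S) → (∀ η S, f η S ≤ 1) → (∀ i, OffW (Jf i) f) →
    Q1 μ s N y (fun η S => f η S * ∏ i, g i η S) ≤
      (∏ i, ENNReal.ofReal ((L : ℝ) ^ ε * (EE' μ s (v i - u i))⁻¹)) * Q1 μ s N y f + ENNReal.ofReal (Real.exp (-(L : ℝ) ^ c₂)) := by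
  intro ε θ hε hθ
  obtain ⟨δ₁, c₁, hδ₁, hc₁, L₁, hP1⟩ := pf_lam h ε θ hε hθ
  obtain ⟨δ₂, c₂, hδ₂, hc₂, L₂, hP2⟩ := pf_right h ε θ hε hθ
  obtain ⟨κ, c₃, hκ, hc₃, L₃, hM⟩ := lam_main (μ := μ) (s := s) k (show 0 < min c₁ c₂ from lt_min hc₁ hc₂)
  refine ⟨min δ₁ δ₂, κ, c₃, lt_min hδ₁ hδ₂, hκ, hc₃, L₁ + L₂ + L₃ + 1, ?_⟩
  intro L hL N hLN hNL y hyN hyc c d c' d' u v hblk hlen Jf hT A hA g hg1 hgm f hf hf1 hfo
  have hL1 : 1 ≤ L := by omega
  have hLR : (1 : ℝ) ≤ L := by exact_mod_cast hL1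
  have hwd : ∀ n, 0 < wd' μ s n := fun n => lt_of_lt_of_le zero_lt_one (le_max_left _ _)
  have hcone : ∀ δ', min δ₁ δ₂ ≤ δ' → |(y : ℝ) - sl μ s * N| ≤ ((L : ℝ) ^ δ' * wd' μ s N) := fun δ' hδ' =>
    hyc.trans (mul_le_mul_of_nonneg_right (Real.rpow_le_rpow_of_exponent_le hLR hδ') (hwd N).le)
  have hpos : ∀ i, 0 < v i - u i := fun i => by
    have h1 : (0 : ℝ) < (L : ℝ) ^ θ := Real.rpow_pos_of_pos (by linarith) _
    exact_mod_cast h1.trans_le (hlen i)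
  set Ob : Fin k → Finset (Finset ℕ) := fun i => (univ.filter fun i' : Fin k => i < i').image fun i' => Icc (c' i') (d' i') with hOb
  refine hM L (by omega) N y hNL hyN (fun i => ENNReal.ofReal ((L : ℝ) ^ ε * (EE' μ s (v i - u i))⁻¹)) c d A Jf Ob
    (fun i => Icc (c' i) (d' i)) (fun i => ?_) (fun i i' hi => mem_image.2 ⟨i', mem_filter.2 ⟨mem_univ _, hi⟩, rfl⟩)
    (fun i => by have := hblk i; have := hpos i; omega) g hg1 hgm f hf hf1 hfo
  obtain ⟨b1, b2, b3, b4, b5⟩ := hblk i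
  rcases hT i with ⟨h1, h2⟩ | ⟨h1, h2⟩
  · rw [h1]
    refine (hP1 L (by omega) N hLN hNL y hyN (hcone _ (min_le_left _ _)) (c i) (d i) (c' i) (d' i) (u i) (v i) b1 b2 b3 b4 b5 (hlen i)
      (Ob i) (card_ob hk i _) (fun O hO => ?_) (A i) (hA i)).mono_p
      (ENNReal.ofReal_le_ofReal (Pool.Agent.W_7d29a1_Z.NumI77.exp_mono (min_le_left _ _) hL1))
    obtain ⟨i', hi', rfl⟩ := mem_image.1 hO
    rcases h2 i' (mem_filter.1 hi').2 with g1 | g1 | g1
    · refine Or.inl (disjoint_left.2 fun a ha1 ha2 => ?_)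
      rw [mem_Ioo] at ha1
      rw [mem_Icc] at ha2
      omega
    · refine Or.inl (disjoint_left.2 fun a ha1 ha2 => ?_)
      rw [mem_Ioo] at ha1
      rw [mem_Icc] at ha2
      omega
    · exact Or.inr ⟨c' i', d' i', Subset.refl _, g1.1, g1.2⟩
  · rw [h1]
    refine (hP2 L (by omega) N hLN hNL y hyN (hcone _ (min_le_right _ _)) (c i) (d i) (c' i) (d' i) (u i) (v i) b1 b2 b3 b4 b5 (hlen i)
      (Ob i) (fun O hO => ?_) (A i) (hA i)).mono_p
      (ENNReal.ofReal_le_ofReal (Pool.Agent.W_7d29a1_Z.NumI77.exp_mono (min_le_right _ _) hL1))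
    obtain ⟨i', hi', rfl⟩ := mem_image.1 hO
    refine disjoint_left.2 fun a ha1 ha2 => ?_
    rw [mem_Ioo] at ha1
    rw [mem_Icc] at ha2
    have := h2 i' (mem_filter.1 hi').2
    omega

end Pool.Agent.W_7d29a1_C0.P86
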