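import Pool.Agent.W_7d29a1_C0.Amp3
import Pool.Agent.W_7d29a1_C0.Lam86B

/-!
MP_7d29a1_pr, [C0], helper15: SPLITTING A CONDITIONAL MASS BY THE CLOSING (OPENING). The mass of the conditional replica of the block `[c, d)`
which passes through the position of the base path at the time `a` is at most the mass of the conditional replica of the smaller block
`[c, a)` (`[a, d)`), which sees only the rows `(c, a]` (`(a, d]`). So the mass of `NoMeet u v` is at most the sum over the first meeting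
`a` behind `v` (the last meeting before `u`) of masses which do not see the rows behind `a` (the rows up to `a`).
-/

set_option autoImplicit false

namespace Pool.Agent.W_7d29a1_C0.P15

open MeasureTheory ProbabilityTheory Filter Topology Finset
open Pool.Agent.W_7d29a1_F Pool.Agent.W_7d29a1_X Pool.Agent.W_7d29a1_h4g Pool.Agent.W_7d29a1_H
open Pool.Agent.W_7d29a1_HS (In wd md)
open Pool.Agent.W_7d29a1_HZ Pool.Agent.W_7d29a1_HZ.R72 Pool.Agent.W_7d29a1_Z.Asm72
open Pool.Agent.W_7d29a1_HZ.Z86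
open Pool.Agent.W_7d29a1_C0.P86
open Pool.Agent.W_7d29a1_C0.P3 (Hy hy_ms hy_off)
open Pool.Agent.W_7d29a1_C0.Mod92 (Px Pn lw ps pJ ne_Pn ps_Pn pos_card ps_of_le ps_of_ge crs_pJ)
open Pool.Agent.W_7d29a1_C0.Blk18 (spl blk18_set full_Pn pos_spl_mid Full)
open Pool.W7d29a1.C0 (gm gz gz_pos)
open Pool.W7d29a1.C0.VT31 (Mp cE cE_tower cE_pull cE_of_meas)
open scoped ENNReal

variable {μ : Measure ℝ} {s : ℝ} {N : ℕ}

/-! ### The conditional law of a block sees the ends of the path at the block -/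

theorem spl_pos_eq {c a : ℕ} {S S' T : Finset ℕ} (hT : T ⊆ range (a - c)) (hc : pos S' c = pos S c) {i : ℕ} (h1 : c ≤ i)
    (h2 : i ≤ a) : pos (spl c a S' T) i = pos (spl c a S T) i := by
  obtain ⟨k, rfl⟩ := Nat.exists_eq_add_of_le h1
  rw [pos_spl_mid hT h2, pos_spl_mid hT h2, hc]

theorem cE_ends {Q : Finset (Finset ℕ)} [Nonempty (Px Q)] (hQ : Full N Q) (η : Env) {c a : ℕ} (hca : c ≤ a) (ha : a ≤ N) (S S' : Px Q)
    (hc : ps S' c = ps S c) (ha' : ps S' a = ps S a) (G : Finset ℕ → ℝ)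
    (hG : ∀ T T' : Finset ℕ, (∀ i, c ≤ i → i ≤ a → pos T i = pos T' i) → G T = G T') :
    cE (lw μ s η N Q) (pJ c a) (fun S' => G S'.1) S' = cE (lw μ s η N Q) (pJ c a) (fun S' => G S'.1) S := by
  rw [blk18_set hQ η hca ha S' G, blk18_set hQ η hca ha S G, hc, ha']
  refine sum_congr rfl fun T hT => ?_
  rw [mem_powerset] at hT
  congr 1
  exact hG _ _ fun i h1 h2 => spl_pos_eq hT hc h1 h2

/-- A conditional replica which passes through the base path at one end of a smaller block. -/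
theorem mc_pin {c' a' c d t y : ℕ} (hca : c' ≤ a') (ha : a' ≤ N) (hc : c ≤ c') (hd : a' ≤ d) (ht : t ≤ c' ∨ a' ≤ t)
    (hends : ∀ S S' : Finset ℕ, (∀ i, i ≤ c ∨ d ≤ i → pos S i = pos S' i) → pos S t = pos S' t →
      pos S c' = pos S' c' ∧ pos S a' = pos S' a')
    {A : Finset ℕ → Finset ℕ → Prop} (hA : On2 c' a' A) (η : Env) (S : Finset ℕ) :
    mc μ s N y c d (fun S S' => pos S t = pos S' t ∧ A S S') η S ≤ mc μ s N y c' a' A η S := by
  classical
  unfold mc
  by_cases hS : S ∈ Pn N y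
  · simp only [dif_pos hS]
    have : Nonempty (Px (Pn N y)) := ⟨⟨S, hS⟩⟩
    set w := lw μ s η N (Pn N y) with hw
    set g : Px (Pn N y) → ℝ := fun S' => if A S S'.1 then (1 : ℝ) else 0 with hg
    set e : Px (Pn N y) → ℝ := fun S' => if pos S t = pos S'.1 t then (1 : ℝ) else 0 with he
    have h1 : (fun S' : Px (Pn N y) => @ite ℝ (pos S t = pos S'.1 t ∧ A S S'.1) (Classical.propDecidable _) 1 0) = e * g := by
      funext S'
      rw [Pi.mul_apply, he, hg]
      by_cases h1 : pos S t = pos S'.1 t <;> by_cases h2 : A S S'.1 <;> simp [h1, h2]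
    have hM : Mp (pJ c' a') e := fun x x' h => by
      have : pos x.1 t = pos x'.1 t := ht.elim (fun h2 => ps_of_le h h2) fun h2 => ps_of_ge h h2
      show (if pos S t = pos x.1 t then (1 : ℝ) else 0) = if pos S t = pos x'.1 t then (1 : ℝ) else 0
      rw [this]
    rw [h1, ← cE_tower w (crs_pJ hc hd) (e * g), cE_pull w hM g]
    have h3 : cE w (pJ c d) (fun _ => cE w (pJ c' a') g ⟨S, hS⟩) ⟨S, hS⟩ = cE w (pJ c' a') g ⟨S, hS⟩ := by
      rw [cE_of_meas w fun _ _ _ => rfl]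
    rw [← h3]
    refine cE_mono_fib _ _ _ fun S' hS' => ?_
    rw [Pi.mul_apply]
    have h0 : 0 ≤ cE w (pJ c' a') g ⟨S, hS⟩ := Pool.W7d29a1.C0.VT31.cE_nonneg _ _ (fun S' => by
      show (0 : ℝ) ≤ if A S S'.1 then 1 else 0
      split_ifs <;> norm_num) _
    by_cases h4 : pos S t = pos S'.1 t
    · have h5 : e S' = 1 := if_pos h4
      rw [h5, one_mul]
      obtain ⟨q1, q2⟩ := hends S S'.1 (fun i hi => by
        rcases hi with hi | hi
        · exact (ps_of_le hS' hi : ps S' i = ps (⟨S, hS⟩ : Px (Pn N y)) i).symm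
        · exact (ps_of_ge hS' hi : ps S' i = ps (⟨S, hS⟩ : Px (Pn N y)) i).symm) h4
      refine le_of_eq (cE_ends (full_Pn N y) η hca ha ⟨S, hS⟩ S' q1.symm q2.symm (fun T => if A S T then (1 : ℝ) else 0) ?_)
      intro T T' hT
      rw [if_congr (hA S T T' hT) rfl rfl]
    · have h5 : e S' = 0 := if_neg h4
      rw [h5, zero_mul]
      exact h0
  · simp only [dif_neg hS, le_refl]

/-- The replica closes at `a`. -/
theorem mc_pinR {c a d y : ℕ} (hca : c ≤ a) (had : a ≤ d) (hd : d ≤ N) {A : Finset ℕ → Finset ℕ → Prop} (hA : On2 c a A) (η : Env)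
    (S : Finset ℕ) : mc μ s N y c d (fun S S' => pos S a = pos S' a ∧ A S S') η S ≤ mc μ s N y c a A η S :=
  mc_pin hca (had.trans hd) le_rfl had (Or.inr le_rfl) (fun _ _ h1 h2 => ⟨h1 c (Or.inl le_rfl), h2⟩) hA η S

/-- The replica opens at `a`. -/
theorem mc_pinL {c a d y : ℕ} (hca : c ≤ a) (had : a ≤ d) (hd : d ≤ N) {A : Finset ℕ → Finset ℕ → Prop} (hA : On2 a d A) (η : Env)
    (S : Finset ℕ) : mc μ s N y c d (fun S S' => pos S a = pos S' a ∧ A S S') η S ≤ mc μ s N y a d A η S :=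
  mc_pin had hd hca le_rfl (Or.inl le_rfl) (fun _ _ h1 h2 => ⟨h2, h1 d (Or.inr le_rfl)⟩) hA η S

theorem nm_on2 {c a u v : ℕ} (hu : c ≤ u) (hv : v ≤ a) : On2 c a (NoMeet u v) := fun S S' S'' h => by
  unfold NoMeet
  exact forall_congr' fun k => forall_congr' fun h1 => forall_congr' fun h2 => by rw [h k (by omega) (by omega)]

/-- **THE CLOSING.** -/
theorem mc_close {c d u v y : ℕ} (hcu : c ≤ u) (huv : u ≤ v) (hvd : v < d) (hd : d ≤ N) (η : Env) (S : Finset ℕ) :
    mc μ s N y c d (NoMeet u v) η S ≤ ∑ a ∈ Ioc v d, mc μ s N y c a (NoMeet u (a - 1)) η S := by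
  refine (mc_le_sum (Ioc v d) (fun a S S' => pos S a = pos S' a ∧ NoMeet u (a - 1) S S') ?_ η S).trans (sum_le_sum fun a ha => ?_)
  · intro S S' _ _ _ _ h5 h6
    have hex : ∃ a, v < a ∧ pos S a = pos S' a := ⟨d, hvd, h5 d (Or.inr le_rfl)⟩
    obtain ⟨h1, h2⟩ := Nat.find_spec hex
    refine ⟨Nat.find hex, mem_Ioc.2 ⟨h1, Nat.find_min' hex ⟨hvd, h5 d (Or.inr le_rfl)⟩⟩, h2, fun k hk1 hk2 => ?_⟩
    by_cases hk : k ≤ v
    · exact h6 k hk1 hk
    · intro h3
      exact Nat.find_min hex (show k < Nat.find hex by omega) ⟨by omega, h3⟩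
  · rw [mem_Ioc] at ha
    exact mc_pinR (by omega) ha.2 hd (nm_on2 hcu (by omega)) η S

/-- **THE OPENING.** -/
theorem mc_open {c d u v y : ℕ} (hcu : c < u) (huv : u ≤ v) (hvd : v ≤ d) (hd : d ≤ N) (η : Env) (S : Finset ℕ) :
    mc μ s N y c d (NoMeet u v) η S ≤ ∑ a ∈ Ico c u, mc μ s N y a d (NoMeet (a + 1) v) η S := by
  classical
  refine (mc_le_sum (Ico c u) (fun a S S' => pos S a = pos S' a ∧ NoMeet (a + 1) v S S') ?_ η S).trans (sum_le_sum fun a ha => ?_)
  · intro S S' _ _ _ _ h5 h6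
    have hcu1 : c ≤ u - 1 := by omega
    have hex : ∃ k, c ≤ u - 1 - k ∧ k ≤ u - 1 ∧ pos S (u - 1 - k) = pos S' (u - 1 - k) :=
      ⟨u - 1 - c, by omega, by omega, by
        have : u - 1 - (u - 1 - c) = c := by omega
        rw [this]
        exact h5 c (Or.inl le_rfl)⟩
    obtain ⟨h1, h2, h3⟩ := Nat.find_spec hex
    refine ⟨u - 1 - Nat.find hex, mem_Ico.2 ⟨h1, by omega⟩, h3, fun k hk1 hk2 => ?_⟩
    by_cases hk : u ≤ k
    · exact h6 k hk hk2
    · intro h4
      refine Nat.find_min hex (show u - 1 - k < Nat.find hex by omega) ⟨by omega, by omega, ?_⟩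
      have : u - 1 - (u - 1 - k) = k := by omega
      rw [this]
      exact h4
  · rw [mem_Ico] at ha
    exact mc_pinL ha.1 (by omega) hd (nm_on2 (by omega) hvd) η S

/-- A sum of masses which is not very small has a term which is not very small. -/
theorem ex_of_sum {ι : Type*} (P : Finset ι) (m : ι → ℝ) {M x x' : ℝ} (h : M ≤ ∑ p ∈ P, m p) (hM : Real.exp (-x) < M)
    (hx : (P.card : ℝ) ≤ Real.exp (x' - x)) : ∃ p ∈ P, Real.exp (-x') < m p := by
  by_contra hcon
  push Not at hcon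
  have h1 : ∑ p ∈ P, m p ≤ P.card * Real.exp (-x') := by
    refine (sum_le_sum hcon).trans ?_
    rw [sum_const, nsmul_eq_mul]
  have h2 : (P.card : ℝ) * Real.exp (-x') ≤ Real.exp (-x) := by
    refine (mul_le_mul_of_nonneg_right hx (Real.exp_pos _).le).trans (le_of_eq ?_)
    rw [← Real.exp_add]
    congr 1
    ring
  linarith

theorem hy_close {c d u v y : ℕ} (hcu : c ≤ u) (huv : u ≤ v) (hvd : v < d) (hd : d ≤ N) {x x' : ℝ} (hx : (N : ℝ) ≤ Real.exp (x' - x))
    {η : Env} {S : Finset ℕ} (h : Hy μ s N y c d (NoMeet u v) x η S) :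
    ∃ a ∈ Ioc v d, Hy μ s N y c a (NoMeet u (a - 1)) x' η S := by
  refine ex_of_sum (Ioc v d) (fun a => mc μ s N y c a (NoMeet u (a - 1)) η S) (mc_close hcu huv hvd hd η S) h (le_trans ?_ hx)
  rw [Nat.card_Ioc]
  exact_mod_cast (show d - v ≤ N by omega)

theorem hy_open {c d u v y : ℕ} (hcu : c < u) (huv : u ≤ v) (hvd : v ≤ d) (hd : d ≤ N) {x x' : ℝ} (hx : (N : ℝ) ≤ Real.exp (x' - x))
    {η : Env} {S : Finset ℕ} (h : Hy μ s N y c d (NoMeet u v) x η S) :
    ∃ a ∈ Ico c u, Hy μ s N y a d (NoMeet (a + 1) v) x' η S := by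
  refine ex_of_sum (Ico c u) (fun a => mc μ s N y a d (NoMeet (a + 1) v) η S) (mc_open hcu huv hvd hd η S) h (le_trans ?_ hx)
  rw [Nat.card_Ico]
  exact_mod_cast (show u - c ≤ N by omega)

end Pool.Agent.W_7d29a1_C0.P15
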