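import Pool.Agent.W_7d29a1_C0.Blk86

/-!
C0, helper86: LOCAL NEAR TIES OF GAPS WITH ONE END NEAR THE PLACE (within `12 t`), the other end anywhere in the block `[c, d]`: the near
tie sees the rows of `(c, d]`, and its price is `L ^ ε / EE' t` given every event which does not see the rows `[τ, τ + t)`.
-/

set_option autoImplicit false

namespace Pool.Agent.W_7d29a1_C0.P86

open MeasureTheory ProbabilityTheory Filter Topology Finset
open Pool.Agent.W_7d29a1_F Pool.Agent.W_7d29a1_X Pool.Agent.W_7d29a1_h4g Pool.Agent.W_7d29a1_H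
open Pool.Agent.W_7d29a1_HS (In wd md)
open Pool.Agent.W_7d29a1_HZ Pool.Agent.W_7d29a1_HZ.R72 Pool.Agent.W_7d29a1_Z.Asm72
open Pool.Agent.W_7d29a1_HZ.Z86
open Pool.Agent.W_7d29a1_HZ.Z86.GX (NRel WT NOk TieInX numWX)
open Pool.Agent.W_7d29a1_Z36 (LocC)
open Pool.Agent.W_7d29a1_HZ.Z15 (kC NTc)
open Pool.Agent.W_7d29a1_HZ.Z36 (kk BadC depthC)
open Pool.Agent.W_7d29a1_HZ.ZE (Par NXE nok_NXE TVp POk numX P1_tvp tieE_all cL cE winE stv stv_card locL locE winE_JJ winE_J cE_eq cE_of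
  nte_of_pair clE clL kC_clE kC_clL NTE)
open Pool.Agent.W_7d29a1_ZE (Win Br)
open Pool.Agent.W_7d29a1_HZ.Z74 (P2_ex_le P2_and_le)
open Pool.Agent.W_7d29a1_C0.Mod92 (Px Pn lw ps pJ ne_Pn ps_Pn pos_card)
open scoped ENNReal

variable {μ : Measure ℝ} {s : ℝ}

/-- The two paths meet at two times `a ≤ τ`, `b' ≥ τ + t / 4` of `[c, d]`, one of them near the place, and do not meet in
`[τ, τ + t / 4]`. -/
def Gpn (c d t τ : ℕ) (S S' : Finset ℕ) : Prop := ∃ a b' : ℕ, c ≤ a ∧ a ≤ τ ∧ τ + t / 4 ≤ b' ∧ b' ≤ d ∧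
  (τ ≤ a + 12 * t ∨ b' ≤ τ + 16 * t) ∧ pos S a = pos S' a ∧ pos S b' = pos S' b' ∧ NoMeet τ (τ + t / 4) S S'

theorem gpn_on2 (c d t τ : ℕ) : On2 c d (Gpn c d t τ) := by
  have key : ∀ S S' S'' : Finset ℕ, (∀ i, c ≤ i → i ≤ d → pos S' i = pos S'' i) → Gpn c d t τ S S' → Gpn c d t τ S S'' := by
    rintro S S' S'' h ⟨a, b', h1, h2, h3, h4, h5, h6, h7, h8⟩
    refine ⟨a, b', h1, h2, h3, h4, h5, ?_, ?_, fun k hk1 hk2 => ?_⟩
    · rw [h6, h a h1 (by omega)]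
    · rw [h7, h b' (by omega) h4]
    · rw [← h k (by omega) (by omega)]
      exact h8 k hk1 hk2
  exact fun S S' S'' h => ⟨key S S' S'' h, key S S'' S' fun i h1 h2 => (h i h1 h2).symm⟩

/-- **A pair of paths which meets in the block on both sides of the window gives a near tie with brackets in the block,
and the window is short if the gap is short.** -/
theorem near_tieBn (y : ℤ) {L N t τ e0 E c d : ℕ} {n1 : ℕ → ℕ} {lm : ℝ} {η : Env} {S S' : Finset ℕ} {pr : Par}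
    (hpr : POk μ s t n1 e0 E pr) (hTV : TVp μ s N pr S) (ht : 16 ≤ t) (hn1 : ∀ e, e0 ≤ e → e ≤ E → 1 ≤ n1 e)
    (hF : FlatP μ s N e0 E n1 S) (hF' : FlatP μ s N e0 E n1 S') (hsep : SepOK N t τ 0 1 e0 E (fun _ => 0) S S')
    (hN : N ≤ L) (hE : 2 ^ (E + 3) ≤ L) (hm0 : ∀ j, 0 ≤ md μ s j) (hm1 : ∀ j, md μ s j ≤ j)
    (hBD : ¬ BadL μ s L N t τ e0 E n1 pr lm η S S') {a b' : ℕ} (ha : pos S a = pos S' a) (hb : pos S b' = pos S' b')
    (hca : c ≤ a) (haτ : a ≤ τ) (hτb : τ + t / 4 ≤ b') (hbd : b' ≤ d) (hdN : d ≤ N) (hno : NoMeet τ (τ + t / 4) S S') :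
    ∃ W ∈ Wd N t τ 0 n1 e0 E 0, (a + n1 W.1 < W.2.1 ∧ W.2.1 + n1 W.1 < b') ∧ ∀ M, 3 * lm ≤ M → NXB μ s N y pr c d W M η S' := by
  have hbN : b' ≤ N := hbd.trans hdN
  have hβ : τ = zb t τ (0 - 1) - t / 4 ∨ τ = za t τ 0 := Or.inr (by unfold za; ring)
  have hnm : ∀ i, τ ≤ i → i ≤ τ + t / 4 → ¬ Meet (fun _ => 0) S S' i := fun i h1 h2 hm => hno i h1 h2 (meet_zero.1 hm)
  have hfr := hsep.fr 0 τ le_rfl (by norm_num) hβ (hτb.trans hbN) hnm
  have hsv : ∀ i, sv (pat t τ ∅ fun _ => 0) 0 i = 0 := fun i => by rw [pat_empty, sv_zero]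
  obtain ⟨W, hW, sg, Y, s₀, ⟨hsg, hY, hYd, hL, hRr, habW, hs₀⟩, hmar⟩ := Pool.Agent.W_7d29a1_HZ.Z86.brk_m (μ := μ) (s := s) (n1 := n1)
    (E := E) (I := ∅) (V := fun _ => 0) (k0 := 0) (b := 0) ht (empty_subset _) le_rfl hβ
    (by rw [pat_empty]; exact meet_zero.2 ha) (by rw [pat_empty]; exact meet_zero.2 hb) haτ hτb hbN
    (by rw [pat_empty]; exact hfr) (by rw [pat_empty]; exact hsep.far) hn1 hF hF'
    (fun i _ => by rw [hsv]; simp) (fun _ _ _ i _ _ => hsv i)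
  have hWm := mem_Wd.1 hW
  have hs0 : s₀ = 0 := by
    have := hs₀ W.2.1 hWm.2.2.2.1
    rw [← this, hsv]
  subst hs0
  have hWN : ∀ i ∈ W.2.2, 1 ≤ i ∧ i < N := hWm.2.2.2.2.1
  -- the window is short
  have hshort : a + n1 W.1 < W.2.1 ∧ W.2.1 + n1 W.1 < b' := by
    have hj := hWm.2.2.2.1
    have g1 := hmar W.2.1 hj
    have g2 := habW W.2.1 hj
    have hP : (1 : ℤ) ≤ 2 ^ W.1 := by exact_mod_cast Nat.one_le_two_pow
    have key : ∀ i : ℕ, i ≤ N → i ≤ W.2.1 + n1 W.1 → W.2.1 ≤ i + n1 W.1 → pos S i ≠ pos S' i := by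
      intro i hiN h1 h2 hm
      have f1 : 32 * |(pos S i - md μ s i) - (pos S W.2.1 - md μ s W.2.1)| ≤ 2 ^ W.1 := by
        rcases le_total i W.2.1 with h | h
        · rw [abs_sub_comm]
          exact hF W.1 hWm.1 hWm.2.1 i W.2.1 h (by omega) (by omega)
        · exact hF W.1 hWm.1 hWm.2.1 W.2.1 i h hiN (by omega)
      have f2 : 32 * |(pos S' i - md μ s i) - (pos S' W.2.1 - md μ s W.2.1)| ≤ 2 ^ W.1 := by
        rcases le_total i W.2.1 with h | h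
        · rw [abs_sub_comm]
          exact hF' W.1 hWm.1 hWm.2.1 i W.2.1 h (by omega) (by omega)
        · exact hF' W.1 hWm.1 hWm.2.1 W.2.1 i h hiN (by omega)
      have b1 := abs_le.1 (show |(pos S i - md μ s i) - (pos S W.2.1 - md μ s W.2.1)| ≤ _ from le_rfl)
      have b2 := abs_le.1 (show |(pos S' i - md μ s i) - (pos S' W.2.1 - md μ s W.2.1)| ≤ _ from le_rfl)
      rw [hm] at b1 f1
      rcases hsg with h6 | h6
      · rw [h6] at g1
        linarith [g1.1, g1.2, b1.1, b1.2, b2.1, b2.2]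
      · rw [h6] at g1
        linarith [g1.1, g1.2, b1.1, b1.2, b2.1, b2.2]
    have h3 : a + n1 W.1 < W.2.1 := by
      by_contra hcon
      exact key a (by omega) (by omega) (by omega) ha
    have h4 : W.2.1 + n1 W.1 < b' := by
      by_contra hcon
      exact key b' hbN (by omega) (by omega) hb
    exact ⟨h3, h4⟩
  refine ⟨W, hW, hshort, fun M hM => ?_⟩
  have hcl := cE_of (v := fun _ => 0) hpr hW hTV hsg hRr (fun i _ => sv_zero 0 i) (fun i hi => (hmar i hi).2)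
  have hne : (stv N pr.a W.2.2).Nonempty := by
    have h5 := stv_card hW ht (hpr.an1 W.1 hWm.1 hWm.2.1) hpr.at8
    have h6 := hn1 W.1 hWm.1 hWm.2.1
    rw [← card_pos]
    by_contra hcon
    have h7 : (stv N pr.a W.2.2).card = 0 := by omega
    rw [h7, zero_mul] at h5
    omega
  have hJ : ∀ i ∈ (winE N y pr.a W N sg Y).J, a < i ∧ i < b' := fun i hi => habW i (winE_J _ _ _ _ _ _ _ hi)
  refine ⟨sg, Y, hsg, hY, hYd, hne, fun i hi => hL i (winE_J _ _ _ _ _ _ _ hi), (a, b'), ?_, ?_⟩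
  · rw [mem_filter]
    refine ⟨?_, hca, hbd⟩
    unfold Br
    rw [mem_filter, mem_product, mem_range, mem_range]
    refine ⟨⟨?_, ?_⟩, ?_, hJ⟩
    · show a < N + 1
      omega
    · show b' < N + 1
      omega
    · show b' ≤ a + N
      omega
  · rw [kC_clE (winE N y pr.a W N sg Y) pr.L pr.e pr.C pr.i₀ pr.i₁ S' hJ, kC_clL (winE N y pr.a W N sg Y) S' hJ]
    have hnb := not_badL hN hE hm0 hm1 hBD (show a ≤ b' by omega) hbN hW hsg hYd habW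
    have h1 : ¬ kk μ s (cE μ s (winE N y pr.a W N sg Y) pr.L pr.e pr.C pr.i₀ pr.i₁) (shr 0 (fun _ => 0) η) a b' (pos S') <
        Real.exp (Xd μ s (fun _ => 0) ∅ η (pos S) - Xd μ s (fun _ => 0) ∅ η (px (fun _ => 0) S') - 3 * lm) *
          kk μ s (cL μ s (winE N y pr.a W N sg Y)) (shr 0 (fun _ => 0) η) a b' (pos S') := by
      intro h
      refine hnb ⟨(meet_zero.2 ha : Meet (fun _ => 0) S S' a), (meet_zero.2 hb : Meet (fun _ => 0) S S' b'),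
        fun i hi => hL i (winE_J _ _ _ _ _ _ _ hi), ?_, coneQ_empty _ _, coneQ_empty _ _, ?_⟩
      · rw [← cE_eq N y pr.a W N sg Y]
        exact hcl y N
      · rw [← cE_eq N y pr.a W N sg Y]
        exact h
    rw [shr_zero, xd_zero, xd_zero] at h1
    refine le_trans ?_ (not_lt.1 h1)
    exact mul_le_mul_of_nonneg_right (Real.exp_le_exp.2 (by linarith)) (Pool.Agent.W_7d29a1_HZ.Z36.kk_nonneg _ _ _ _ _)

variable [IsProbabilityMeasure μ] {c₀ C₀ : ℝ} {n₀ : ℕ}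

/-- **LOCAL NEAR TIES, one end of the gap near the place: locality, production, price.** -/
theorem locn86 (h : In μ s c₀ C₀ n₀) : ∀ ε θ : ℝ, 0 < ε → 0 < θ → ∃ δ c' : ℝ, 0 < δ ∧ 0 < c' ∧ ∃ L₀ : ℕ,
    ∀ L : ℕ, L₀ ≤ L → ∀ N t : ℕ, L ≤ 16 * N → N ≤ L → (L : ℝ) ^ θ ≤ t → t ≤ N →
    ∀ y : ℤ, 0 ≤ y → y ≤ N → |(y : ℝ) - sl μ s * N| ≤ ((L : ℝ) ^ δ * wd' μ s N) → ∀ τ c d : ℕ, d ≤ N →
    ∃ NT : Env → Finset ℕ → Prop, Ms NT ∧
      (∀ J' : Finset ℕ, (∀ j ∈ J', j ≤ c ∨ d < j) → OffRows J' NT) ∧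
      P2 μ s N y (fun _ => 0) (fun η S S' => Gpn c d t τ S S' ∧ ¬ NT η S') ≤ ENNReal.ofReal (Real.exp (-(L : ℝ) ^ c')) ∧
      ∀ F : Env → Finset ℕ → Prop, Ms F → OffRows (Ico τ (τ + t)) F →
        P1 μ s N y (fun η S => F η S ∧ NT η S) ≤ ENNReal.ofReal ((L : ℝ) ^ ε * (EE' μ s t)⁻¹) * P1 μ s N y F +
          ENNReal.ofReal (Real.exp (-(L : ℝ) ^ c')) := by
  intro ε θ hε hθ
  set β : ℝ := ε / 5 with hβd
  have hβ : 0 < β := by positivity
  obtain ⟨ε₃, ε₅, cX, hε₃, hε₅, hcX, LX, hNX⟩ := numX h (fun C hC => (tieE_all h).toC hC) hβ hθ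
  obtain ⟨ε₁, ε₄, hε₁, hε₄, h13, h43, LW, hW⟩ := numWX h β 1 θ ε₃ hβ one_pos hθ hε₃
  obtain ⟨δ5, c5, hδ5, hc5, L5, hNs5⟩ := ns h ε₅ hε₅
  obtain ⟨δn, cn, hδn, hcn, Ln, hNs⟩ := ns h ε₁ hε₁
  obtain ⟨δf, cf, hδf, hcf, Lf, hFr⟩ := fresh h ε₁ hε₁
  set cm : ℝ := min (min (min cX c5) cn) (min cf β) with hcm
  have hcm0 : 0 < cm := lt_min (lt_min (lt_min hcX hc5) hcn) (lt_min hcf hβ)
  obtain ⟨cp, hcp, -, Lp, hPE⟩ := Pool.Agent.W_7d29a1_Z.NumI77.pow_exp hcm0 (9 + β)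
  obtain ⟨La, hLa⟩ := Pool.Agent.W_7d29a1_Z.NumI77.large hθ 16
  obtain ⟨Lb, hLb⟩ := Pool.Agent.W_7d29a1_Z.NumI77.large hβ 1000
  set δ : ℝ := min δ5 (min δn δf) with hδd
  have hδ : 0 < δ := lt_min hδ5 (lt_min hδn hδf)
  refine ⟨δ, cp, hδ, hcp, LX + LW + L5 + Ln + Lf + Lp + La + Lb + 1000000000, ?_⟩
  intro L hL N t hLN hNL htL htN y hy0 hyN hyc τ c d hdN
  have hL1 : 1 ≤ L := by omega
  have hLR : (1 : ℝ) ≤ L := by exact_mod_cast hL1
  have hL0 : (0 : ℝ) < L := by linarith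
  obtain ⟨-, ht16, -⟩ := hLa L (by omega)
  have ht : 16 ≤ t := by exact_mod_cast ht16.trans htL
  have hwd : ∀ n, 0 < wd' μ s n := fun n => lt_of_lt_of_le zero_lt_one (le_max_left _ _)
  have hcone : ∀ δ', δ ≤ δ' → |(y : ℝ) - sl μ s * N| ≤ ((L : ℝ) ^ δ' * wd' μ s N) := fun δ' hδ' =>
    hyc.trans (mul_le_mul_of_nonneg_right (Real.rpow_le_rpow_of_exponent_le hLR hδ') (hwd N).le)
  obtain ⟨n1, e0, E, X, w, hnm, w1, w2, w3, -, -, -, -, -, w9, w10, w11, w12⟩ := hW L (by omega) N t hLN hNL htL htN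
  obtain ⟨pr, hp1, hp2⟩ := hNX L (by omega) N t hNL htL htN y hy0 hyN
  obtain ⟨hpr, hT⟩ := hp2 ε₁ ε₄ n1 e0 E h13 h43 hnm
  have hns5 := hNs5 L (by omega) N hLN hNL y hy0 hyN (hcone _ (min_le_left _ _))
  have hns := hNs L (by omega) N hLN hNL y hy0 hyN (hcone _ ((min_le_right _ _).trans (min_le_left _ _)))
  have hfr := hFr L (by omega) N hLN hNL y hy0 hyN (hcone _ ((min_le_right _ _).trans (min_le_right _ _)))
    (fun _ => 0) (sv_zero 0 N)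
  have ecX : Real.exp (-(L : ℝ) ^ cX) ≤ Real.exp (-(L : ℝ) ^ cm) := Pool.Agent.W_7d29a1_Z.NumI77.exp_mono
    ((min_le_left _ _).trans ((min_le_left _ _).trans (min_le_left _ _))) hL1
  have ec5 : Real.exp (-(L : ℝ) ^ c5) ≤ Real.exp (-(L : ℝ) ^ cm) := Pool.Agent.W_7d29a1_Z.NumI77.exp_mono
    ((min_le_left _ _).trans ((min_le_left _ _).trans (min_le_right _ _))) hL1
  have ecn : Real.exp (-(L : ℝ) ^ cn) ≤ Real.exp (-(L : ℝ) ^ cm) :=
    Pool.Agent.W_7d29a1_Z.NumI77.exp_mono ((min_le_left _ _).trans (min_le_right _ _)) hL1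
  have ecf : Real.exp (-(L : ℝ) ^ cf) ≤ Real.exp (-(L : ℝ) ^ cm) :=
    Pool.Agent.W_7d29a1_Z.NumI77.exp_mono ((min_le_right _ _).trans (min_le_left _ _)) hL1
  have ecb : Real.exp (-(L : ℝ) ^ β) ≤ Real.exp (-(L : ℝ) ^ cm) :=
    Pool.Agent.W_7d29a1_Z.NumI77.exp_mono ((min_le_right _ _).trans (min_le_right _ _)) hL1
  set p : ℝ := Real.exp (-(L : ℝ) ^ cm) with hp
  have hp0 : 0 < p := Real.exp_pos _
  obtain ⟨-, hb1000, -⟩ := hLb L (by omega)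
  set x : ℝ := (L : ℝ) ^ β with hx
  have hx0 : 0 < x := by linarith
  have hX0 : (0 : ℝ) ≤ X := Nat.cast_nonneg _
  have hXp : 0 ≤ (X : ℝ) * p := mul_nonneg hX0 hp0.le
  have hTVp := P1_tvp (L := L) (ε := ε₅) (pr := pr) (Real.exp_pos _).le (Real.exp_pos _).le hns5 hp1
  set M : ℝ := 3 * x with hM
  have hM2 : 1 ≤ M := by linarith
  -- the numbers
  have hq3 : 24 * ((L : ℝ) + 1) ^ 3 * X * Real.exp (-x) + (X + 6) * p ≤ Real.exp (-(L : ℝ) ^ cp) := by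
    have hL9 : (1000000000 : ℝ) ≤ L := by exact_mod_cast (show 1000000000 ≤ L by omega)
    have k1 : 24 * ((L : ℝ) + 1) ^ 3 ≤ (L : ℝ) ^ 7 := by
      have : (L : ℝ) + 1 ≤ 2 * (L : ℝ) := by linarith
      calc 24 * ((L : ℝ) + 1) ^ 3 ≤ 24 * (2 * (L : ℝ)) ^ 3 := by gcongr
        _ = 192 * (L : ℝ) ^ 3 := by ring
        _ ≤ (L : ℝ) * (L : ℝ) ^ 3 := mul_le_mul_of_nonneg_right (by linarith) (by positivity)
        _ = (L : ℝ) ^ 4 := by ring
        _ ≤ (L : ℝ) ^ 7 := pow_le_pow_right₀ hLR (by norm_num)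
    have k2 : (X : ℝ) ≤ x := w3
    have k3 : Real.exp (-x) ≤ p := ecb
    have k4 := hPE L (by omega)
    rw [← hp, Real.rpow_add hL0, ← hx] at k4
    have e9 : (L : ℝ) ^ (9 : ℝ) = (L : ℝ) ^ 9 := by
      rw [← Real.rpow_natCast]
      norm_num
    rw [e9] at k4
    refine le_trans ?_ k4
    have k5 : 24 * ((L : ℝ) + 1) ^ 3 * X * Real.exp (-x) ≤ (L : ℝ) ^ 7 * x * p := by gcongr
    have k6 : ((X : ℝ) + 6) * p ≤ 7 * x * p := mul_le_mul_of_nonneg_right (by linarith) hp0.le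
    have k7 : (L : ℝ) ^ 7 + 7 ≤ (L : ℝ) ^ 9 := by
      have k8 : (1 : ℝ) ≤ (L : ℝ) ^ 7 := one_le_pow₀ hLR
      have k9 : (8 : ℝ) ≤ (L : ℝ) ^ 2 := by nlinarith
      calc (L : ℝ) ^ 7 + 7 ≤ 8 * (L : ℝ) ^ 7 := by linarith
        _ ≤ (L : ℝ) ^ 2 * (L : ℝ) ^ 7 := mul_le_mul_of_nonneg_right k9 (by positivity)
        _ = (L : ℝ) ^ 9 := by ring
    calc _ ≤ (L : ℝ) ^ 7 * x * p + 7 * x * p := add_le_add k5 k6
      _ = ((L : ℝ) ^ 7 + 7) * (x * p) := by ring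
      _ ≤ (L : ℝ) ^ 9 * (x * p) := mul_le_mul_of_nonneg_right k7 (by positivity)
      _ = (L : ℝ) ^ 9 * x * p := by ring
  -- the windows
  set Ws := (Wd N t τ 0 n1 e0 E 0).filter fun W => n1 W.1 ≤ 16 * t with hWs
  have hWc : Ws.card ≤ X := (card_filter_le _ _).trans (w10 τ 0 0)
  have hWr : ∀ W ∈ Ws, W.2.1 ∈ W.2.2 ∧ ∀ i ∈ W.2.2, τ ≤ i ∧ i < τ + t := by
    intro W hW'
    obtain ⟨hWb, hn⟩ := mem_filter.1 hW'
    obtain ⟨-, -, q1, q2, q3, -⟩ := mem_Wd.1 hWb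
    refine ⟨q2, fun i hi => ?_⟩
    unfold Wd0 at q1
    rw [if_pos hn, mem_image] at q1
    obtain ⟨z, hz, hzW⟩ := q1
    rw [mem_product, mem_insert, mem_singleton] at hz
    have e1 : W.2.2 = Ico (z.1 + min (z.2 * ell t (n1 W.1)) (t / 4 - ell t (n1 W.1)))
        (z.1 + min (z.2 * ell t (n1 W.1)) (t / 4 - ell t (n1 W.1)) + ell t (n1 W.1)) := by
      rw [← (congrArg Prod.snd hzW)]
    rw [e1, mem_Ico] at hi
    have e3 := ell_le t (n1 W.1)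
    have e4 : min (z.2 * ell t (n1 W.1)) (t / 4 - ell t (n1 W.1)) ≤ t / 4 - ell t (n1 W.1) := min_le_right _ _
    have e2 : τ ≤ z.1 ∧ z.1 + t / 4 ≤ τ + t := by
      rcases hz.1 with h1 | h1 <;> rw [h1]
      · unfold zb
        constructor <;> omega
      · unfold za
        constructor <;> omega
    omega
  refine ⟨fun η S => ∃ W ∈ Ws, NXB μ s N y pr c d W M η S, ?_, ?_, ?_, ?_⟩
  · intro S
    have e : {η : Env | ∃ W ∈ Ws, NXB μ s N y pr c d W M η S} = ⋃ W ∈ Ws, {η | NXB μ s N y pr c d W M η S} := by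
      ext η
      simp only [Set.mem_ofPred_eq, Set.mem_iUnion, exists_prop]
    rw [e]
    exact Finset.measurableSet_biUnion _ fun W _ => nxb_ms N y pr c d W M S
  · intro J' hJ' η η' S hη
    exact exists_congr fun W => and_congr_right fun _ => nxb_off hJ' η η' S hη
  · -- the bad events
    have hsub : P2 μ s N y (fun _ => 0) (fun η S S' => Gpn c d t τ S S' ∧ ¬ ∃ W ∈ Ws, NXB μ s N y pr c d W M η S') ≤
        P2 μ s N y (fun _ => 0) (fun η S S' => ¬ NSp μ s L N ε₁ S ∨ (¬ NSp μ s L N ε₁ S' ∨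
          (Close μ s L N ε₁ (fun _ => 0) S S' ∨ (¬ TVp μ s N pr S ∨ BadL μ s L N t τ e0 E n1 pr x η S S')))) := by
      refine A12.P2_mono' fun η S S' hS hS' hSy hSy' hev => ?_
      by_contra hcon
      rw [not_or, not_or, not_or, not_or, not_not, not_not, not_not] at hcon
      obtain ⟨k1, k2, k3, k4, k5⟩ := hcon
      refine hev.2 ?_
      obtain ⟨a, b', g1, g2, g3, g4, g8, g5, g6, g7⟩ := hev.1
      obtain ⟨W, hW1, hW2, hW3⟩ := near_tieBn (c := c) (d := d) y hpr k4 ht w9 (w11 S hS k1).2 (w11 S' hS' k2).2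
        (w12 τ 0 1 _ S S' hS hS' (fun i => by rw [sv_zero]; simp) k1 k2 k3) hNL w1 h.md_nonneg h.md_le_nat k5 g5 g6
        g1 g2 g3 g4 hdN g7
      refine ⟨W, mem_filter.2 ⟨hW1, ?_⟩, hW3 M le_rfl⟩
      by_contra hcon
      obtain ⟨-, -, q1, -⟩ := mem_Wd.1 hW1
      unfold Wd0 at q1
      rw [if_neg hcon, mem_singleton] at q1
      have q2 : W.2.1 = zb t τ (bz 0 0) + 1 := congrArg Prod.fst q1
      have q3 : zb t τ (bz 0 0) = τ + 3 * t := by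
        unfold zb bz
        norm_num
        ring
      rw [q3] at q2
      omega
    refine hsub.trans ?_
    have b1 : P2 μ s N y (fun _ => 0) (fun _ S _ => ¬ NSp μ s L N ε₁ S) ≤ ENNReal.ofReal p := by
      rw [Pool.Agent.W_7d29a1_HZ.P2_fst (μ := μ) (s := s) hy0 hyN (fun _ => 0) (fun _ S => ¬ NSp μ s L N ε₁ S)]
      exact hns.trans (ENNReal.ofReal_le_ofReal ecn)
    have b2 : P2 μ s N y (fun _ => 0) (fun _ _ S' => ¬ NSp μ s L N ε₁ S') ≤ ENNReal.ofReal p := by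
      rw [Pool.Agent.W_7d29a1_HZ.P2_snd (μ := μ) (s := s) hy0 hyN (fun _ => 0) (fun _ S => ¬ NSp μ s L N ε₁ S)]
      exact hns.trans (ENNReal.ofReal_le_ofReal ecn)
    have b3 : P2 μ s N y (fun _ => 0) (fun _ S S' => Close μ s L N ε₁ (fun _ => 0) S S') ≤ ENNReal.ofReal p :=
      hfr.trans (ENNReal.ofReal_le_ofReal ecf)
    have b4 : P2 μ s N y (fun _ => 0) (fun _ S _ => ¬ TVp μ s N pr S) ≤ ENNReal.ofReal (2 * p) := by
      rw [Pool.Agent.W_7d29a1_HZ.P2_fst (μ := μ) (s := s) hy0 hyN (fun _ => 0) (fun _ S => ¬ TVp μ s N pr S)]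
      exact hTVp.trans (ENNReal.ofReal_le_ofReal (by linarith))
    have b5 : P2 μ s N y (fun _ => 0) (BadL μ s L N t τ e0 E n1 pr x) ≤
        ENNReal.ofReal (24 * ((L : ℝ) + 1) ^ 3 * X * Real.exp (-x)) := badL_pr hpr.i₁a (w10 τ 0 0)
    have f4 := (P2_or (μ := μ) (s := s) (N := N) (y := y) (v := fun _ => 0)
      (fun _ S _ => ¬ TVp μ s N pr S) (fun η S S' => BadL μ s L N t τ e0 E n1 pr x η S S')).trans (add_le_add b4 b5)
    have f3 := (P2_or (μ := μ) (s := s) (N := N) (y := y) (v := fun _ => 0)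
      (fun _ S S' => Close μ s L N ε₁ (fun _ => 0) S S') _).trans (add_le_add b3 f4)
    have f2 := (P2_or (μ := μ) (s := s) (N := N) (y := y) (v := fun _ => 0) (fun _ _ S' => ¬ NSp μ s L N ε₁ S') _).trans (add_le_add b2 f3)
    have f1 := (P2_or (μ := μ) (s := s) (N := N) (y := y) (v := fun _ => 0) (fun _ S _ => ¬ NSp μ s L N ε₁ S) _).trans (add_le_add b1 f2)
    refine f1.trans ?_
    rw [← ENNReal.ofReal_add (by positivity) (by positivity), ← ENNReal.ofReal_add hp0.le (by positivity),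
      ← ENNReal.ofReal_add hp0.le (by positivity), ← ENNReal.ofReal_add hp0.le (by positivity)]
    refine ENNReal.ofReal_le_ofReal ?_
    linarith
  · -- the price
    intro F hF hoff
    have hE0 : 0 < EE' μ s t := lt_of_lt_of_le zero_lt_one (le_max_left _ _)
    have hTW : ∀ W ∈ Ws, P1 μ s N y (fun η S => F η S ∧ NXB μ s N y pr c d W M η S) ≤
        ENNReal.ofReal (x / EE' μ s t * M) * P1 μ s N y F + ENNReal.ofReal p := by
      intro W hW'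
      have hoffW : OffRows W.2.2 F := fun η η' S hηη => hoff η η' S fun q hq => hηη q fun h1 =>
        hq ⟨h1.1, mem_Ico.2 ((hWr W hW').2 _ h1.2)⟩
      refine (A12.P1_mono' fun η S _ _ hev => ⟨hev.1, nxe_of_nxb hev.2⟩).trans
        ((hT τ 0 0 W (mem_filter.1 hW').1 N M hM2 F hF hoffW).trans (add_le_add le_rfl (ENNReal.ofReal_le_ofReal ecX)))
    have e1 : P1 μ s N y (fun η S => F η S ∧ ∃ W ∈ Ws, NXB μ s N y pr c d W M η S) ≤
        P1 μ s N y (fun η S => ∃ W ∈ Ws, F η S ∧ NXB μ s N y pr c d W M η S) :=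
      A12.P1_mono' fun η S _ _ ⟨g1, W, g2, g3⟩ => ⟨W, g2, g1, g3⟩
    refine e1.trans ((A12.P1_exists (μ := μ) (s := s) (N := N) (y := y) Ws
      fun W η S => F η S ∧ NXB μ s N y pr c d W M η S).trans ?_)
    refine (Finset.sum_le_sum hTW).trans ?_
    rw [Finset.sum_const, nsmul_eq_mul, mul_add, ← mul_assoc]
    have e2 : (Ws.card : ℝ≥0∞) ≤ ENNReal.ofReal X := by
      rw [ENNReal.ofReal_natCast]
      exact_mod_cast hWc
    refine add_le_add (mul_le_mul' ?_ le_rfl) ?_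
    · refine (mul_le_mul' e2 le_rfl).trans ?_
      rw [← ENNReal.ofReal_mul (by positivity)]
      refine ENNReal.ofReal_le_ofReal ?_
      have e3 : (X : ℝ) * (x / EE' μ s t * M) ≤ x * (x / EE' μ s t * (3 * x)) := by
        have k2 : (X : ℝ) ≤ x := w3
        gcongr
      have e4 : x * (x / EE' μ s t * (3 * x)) = 3 * x ^ 3 * (EE' μ s t)⁻¹ := by
        field_simp
      have e5 : 3 * x ^ 3 ≤ (L : ℝ) ^ ε := by
        have e6 : (L : ℝ) ^ ε = x ^ 5 := by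
          rw [hx, ← Real.rpow_natCast, ← Real.rpow_mul hL0.le, hβd]
          congr 1
          push_cast
          ring
        rw [e6]
        have e7 : 3 ≤ x ^ 2 := by nlinarith
        calc 3 * x ^ 3 ≤ x ^ 2 * x ^ 3 := mul_le_mul_of_nonneg_right e7 (by positivity)
          _ = x ^ 5 := by ring
      rw [e4] at e3
      exact e3.trans (mul_le_mul_of_nonneg_right e5 (by positivity))
    · refine (mul_le_mul' e2 le_rfl).trans ?_
      rw [← ENNReal.ofReal_mul (by positivity)]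
      refine ENNReal.ofReal_le_ofReal ?_
      have : 0 ≤ 24 * ((L : ℝ) + 1) ^ 3 * X * Real.exp (-x) := by positivity
      linarith

/-- Local places, one end of the gap near the place. -/
theorem pl_near86 (h : In μ s c₀ C₀ n₀) : ∀ ε θ : ℝ, 0 < ε → 0 < θ → ∃ δ c' : ℝ, 0 < δ ∧ 0 < c' ∧ ∃ L₀ : ℕ,
    ∀ L : ℕ, L₀ ≤ L → ∀ N t : ℕ, L ≤ 16 * N → N ≤ L → (L : ℝ) ^ θ ≤ t → t ≤ N →
    ∀ y : ℤ, 0 ≤ y → y ≤ N → |(y : ℝ) - sl μ s * N| ≤ ((L : ℝ) ^ δ * wd' μ s N) → ∀ τ c d : ℕ, d ≤ N →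
    Pl μ s N y (ENNReal.ofReal ((L : ℝ) ^ ε * (EE' μ s t)⁻¹)) (ENNReal.ofReal (Real.exp (-(L : ℝ) ^ c'))) (Gpn c d t τ)
      (Ico τ (τ + t)) (Ioc c d) := by
  intro ε θ hε hθ
  obtain ⟨δ, c', hδ, hc', L₀, hP⟩ := locn86 h ε θ hε hθ
  refine ⟨δ, c', hδ, hc', L₀, fun L hL N t hLN hNL htL htN y hy0 hyN hyc τ c d hdN => ?_⟩
  obtain ⟨NT, n1, n2, n4, n5⟩ := hP L hL N t hLN hNL htL htN y hy0 hyN hyc τ c d hdN
  refine ⟨NT, n1, fun J' hJ' => n2 J' fun j hj => ?_, ?_, n5⟩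
  · by_contra hcon
    refine disjoint_left.1 hJ' hj ?_
    rw [mem_Ioc]
    omega
  · refine (A12.P2_mono' fun η S S' _ _ _ _ hev => ⟨?_, hev.2⟩).trans n4
    obtain ⟨a, b', g1, g2, g3, g4, g5, g6, g7, g8⟩ := hev.1
    exact ⟨a, b', g1, g2, g3, g4, g5, g6.symm, g7.symm, g8.symm⟩

end Pool.Agent.W_7d29a1_C0.P86
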