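import Pool.Agent.W_7d29a1_C0.StripQ80
import Pool.Agent.W_7d29a1_C0.Near86

/-!
MP_7d29a1_pr, [CURV0], leaf E5.2 (helper80): THE STRIP, UNCONDITIONAL.

`nearP`: the places with a near left end (helper86). `wpr80`: the two prices. `strip80`: the strip of the outer tie for functionals which
read the rows `al < i ≤ be` of the environment.
-/

set_option autoImplicit false
set_option linter.unusedSectionVars false

namespace Pool.Agent.W_7d29a1_C0.Strip80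

open Finset MeasureTheory Pool.Agent.W_7d29a1_F Pool.Agent.W_7d29a1_X Pool.Agent.W_7d29a1_H Pool.Agent.W_7d29a1_C0.Mod92
open Pool.Agent.W_7d29a1_HS (In wd md)
open Pool.Agent.W_7d29a1_HZ
open Pool.Agent.W_7d29a1_HZ.R72 Pool.Agent.W_7d29a1_Z.Asm72 Pool.Agent.W_7d29a1_HZ.Z86
open Pool.Agent.W_7d29a1_C0.P86 (Q1 ind Pl NoMeet OffW pl_blk pl_near86 Pl.mono Gpn)
open Pool.W7d29a1.C0 (gz gm lse gz_pos gz_ne gm_nonneg gm_mono)
open Pool.W7d29a1.C0.VT31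
open Pool.Agent.W_7d29a1_C0.Swap57
open scoped ENNReal

variable {μ : Measure ℝ} {s : ℝ} [IsProbabilityMeasure μ] {c₀ C₀ : ℝ} {n₀ : ℕ}

theorem nearP (h : In μ s c₀ C₀ n₀) : NearP μ s := by
  intro ε θ hε hθ
  obtain ⟨δ, c', hδ, hc', L₀, hP⟩ := pl_near86 h ε θ hε hθ
  refine ⟨δ, c', hδ, hc', L₀, fun L hL N t hLN hNL htL htN y hy0 hyN hyc τ _ => ⟨Ioc 0 N, ?_⟩⟩
  refine (hP L hL N t hLN hNL htL htN y hy0 hyN hyc τ 0 N le_rfl).mono ?_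
  rintro S S' ⟨a, b', h1, h2, h3, h4, h5, h6, h7⟩
  exact ⟨a, b', Nat.zero_le _, h1, h3, h4, Or.inl (by omega), h5, h6, h7⟩

/-- **The two prices.** -/
theorem wpr80 (h : In μ s c₀ C₀ n₀) : ∀ ε θ : ℝ, 0 < ε → 0 < θ → ∃ δ c' : ℝ, 0 < δ ∧ 0 < c' ∧ ∃ L₀ : ℕ,
    ∀ L : ℕ, L₀ ≤ L → ∀ N : ℕ, L ≤ 16 * N → N ≤ L →
    ∀ y : ℕ, y ≤ N → |(y : ℝ) - sl μ s * N| ≤ ((L : ℝ) ^ δ * wd' μ s N) → ∀ l : ℕ, (L : ℝ) ^ θ ≤ l →
    (∀ be : ℕ, be + l ≤ N → WPr μ s N y (ENNReal.ofReal ((L : ℝ) ^ ε * (EE' μ s l)⁻¹)) (ENNReal.ofReal (Real.exp (-(L : ℝ) ^ c')))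
      be (be + l) (Ico (be + 1) N)) ∧
    (∀ al : ℕ, l ≤ al → al ≤ N → WPr μ s N y (ENNReal.ofReal ((L : ℝ) ^ ε * (EE' μ s l)⁻¹)) (ENNReal.ofReal (Real.exp (-(L : ℝ) ^ c')))
      (al - l) al (range al)) := by
  intro ε θ hε hθ
  obtain ⟨δ1, c1, hδ1, hc1, L1, h1⟩ := wpr_left h (nearP h) ε θ hε hθ
  obtain ⟨δ2, c2, hδ2, hc2, L2, h2⟩ := pl_blk h ε θ hε hθ
  obtain ⟨c3, hc3, -, L3, h3⟩ := Pool.Agent.W_7d29a1_Z.NumI77.pow_exp (lt_min hc1 hc2) 1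
  obtain ⟨L4, h4⟩ := Pool.Agent.W_7d29a1_Z.NumI77.large hθ 2
  refine ⟨min δ1 δ2, c3, lt_min hδ1 hδ2, hc3, L1 + L2 + L3 + L4 + 4, ?_⟩
  intro L hL N hLN hNL y hyN hyc l hlL
  obtain ⟨hL1, hlt, -⟩ := h4 L (by omega)
  have hLR : (1 : ℝ) ≤ L := by exact_mod_cast hL1
  have hL4' : (4 : ℝ) ≤ L := by exact_mod_cast (show 4 ≤ L by omega)
  have hl2 : 2 ≤ l := by exact_mod_cast hlt.trans hlL
  have hwd : 0 < wd' μ s N := lt_of_lt_of_le zero_lt_one (le_max_left _ _)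
  have cone : ∀ δ', min δ1 δ2 ≤ δ' → |((y : ℤ) : ℝ) - sl μ s * N| ≤ ((L : ℝ) ^ δ' * wd' μ s N) := fun δ' hδ' => by
    rw [Int.cast_natCast]
    exact hyc.trans (mul_le_mul_of_nonneg_right (Real.rpow_le_rpow_of_exponent_le hLR hδ') hwd.le)
  have e0 := Real.exp_pos (-(L : ℝ) ^ (min c1 c2))
  have e1 : Real.exp (-(L : ℝ) ^ c1) ≤ Real.exp (-(L : ℝ) ^ (min c1 c2)) := Pool.Agent.W_7d29a1_Z.NumI77.exp_mono (min_le_left _ _) hL1
  have e2 : Real.exp (-(L : ℝ) ^ c2) ≤ Real.exp (-(L : ℝ) ^ (min c1 c2)) := Pool.Agent.W_7d29a1_Z.NumI77.exp_mono (min_le_right _ _) hL1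
  have e3 : 2 * Real.exp (-(L : ℝ) ^ (min c1 c2)) ≤ Real.exp (-(L : ℝ) ^ c3) := by
    have := h3 L (by omega)
    rw [Real.rpow_one] at this
    exact (mul_le_mul_of_nonneg_right (by linarith) e0.le).trans this
  refine ⟨fun be hbe => ?_, fun al hla hal => ?_⟩
  · have hp := h2 L (by omega) N l hLN hNL hlL (by omega) y (by positivity) (by exact_mod_cast hyN) (cone δ2 (min_le_right _ _))
      (be + 1) 0 N (Nat.zero_le _) le_rfl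
    refine (wpr_of_pl (i := be) (j := be + l) (by positivity) (by exact_mod_cast hyN) hp fun S S' hS hS' hSy hSy' hn => ?_).mono le_rfl ?_
      le_rfl le_rfl subset_rfl
    · refine ⟨0, N, le_rfl, Nat.zero_le _, by omega, le_rfl, ?_, ?_, fun k hk hk' => hn k (by omega) (by omega)⟩
      · rw [pos_z, pos_z]
      · rw [hSy, hSy']
    · rw [← ENNReal.ofReal_add (Real.exp_pos _).le (Real.exp_pos _).le]
      exact ENNReal.ofReal_le_ofReal (by linarith)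
  · have hl : al - (al - l) = l := by omega
    have := h1 L (by omega) N hLN hNL y (by positivity) (by exact_mod_cast hyN) (cone δ1 (min_le_left _ _)) (al - l) al (by omega) (by omega)
      (by rw [hl]; exact hlL)
    rw [hl] at this
    exact this.mono le_rfl (ENNReal.ofReal_le_ofReal (by linarith)) le_rfl le_rfl subset_rfl

/-- **THE STRIP OF THE OUTER TIE.** `D` reads the path in the rows `[al, be]` and the environment in the rows `al < i ≤ be`; both margins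
of the block `[c, d)` have length at least `l`. -/
theorem strip80 (h : In μ s c₀ C₀ n₀) : ∀ ε θ : ℝ, 0 < ε → 0 < θ → ∃ δ c' : ℝ, 0 < δ ∧ 0 < c' ∧ ∃ L₀ : ℕ,
    ∀ L : ℕ, L₀ ≤ L → ∀ N : ℕ, L ≤ 16 * N → N ≤ L →
    ∀ y : ℕ, y ≤ N → |(y : ℝ) - sl μ s * N| ≤ ((L : ℝ) ^ δ * wd' μ s N) → ∀ c al be d l : ℕ, c + l ≤ al → al ≤ be → be + l ≤ d → d ≤ N →
    (L : ℝ) ^ θ ≤ l → ∀ (D : Env × Finset ℕ → Px (Pn N y) → ℝ) (M : ℝ), (∀ ω S, |D ω S| ≤ M) → (∀ S, Measurable fun ω => D ω S) →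
    OffD (range (al + 1)) D → OffD (Ico (be + 1) N) D → (∀ ω, Lk al be (D ω)) →
    ∫ ω, gv (wm μ s N (Pn N y) ω) (cE (wm μ s N (Pn N y) ω) (pJ c d) (D ω)) ∂(Pm μ N) ≤
      (L : ℝ) ^ ε * (EE' μ s l)⁻¹ * (∫ ω, gm (wm μ s N (Pn N y) ω) (fun S => D ω S ^ 2) ∂(Pm μ N)) +
        M ^ 2 * Real.exp (-(L : ℝ) ^ c') := by
  intro ε θ hε hθ
  obtain ⟨δ1, c1, hδ1, hc1, L1, h1⟩ := wpr80 h (ε / 2) θ (by positivity) hθ
  obtain ⟨c3, hc3, -, L3, h3⟩ := Pool.Agent.W_7d29a1_Z.NumI77.pow_exp hc1 1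
  obtain ⟨L4, h4⟩ := Pool.Agent.W_7d29a1_Z.NumI77.large (show 0 < ε / 2 by positivity) 4
  refine ⟨δ1, c3, hδ1, hc3, L1 + L3 + L4 + 4, ?_⟩
  intro L hL N hLN hNL y hyN hyc c al be d l hcal hab hbd hdN hlL D M hD hDm hDo1 hDo2 hLk
  obtain ⟨hL1, hL4, -⟩ := h4 L (by omega)
  have hLR : (1 : ℝ) ≤ L := by exact_mod_cast hL1
  have hL0 : (0 : ℝ) < L := by linarith
  have hL4' : (4 : ℝ) ≤ L := by exact_mod_cast (show 4 ≤ L by omega)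
  have hE0 : 0 < EE' μ s l := lt_of_lt_of_le zero_lt_one (le_max_left _ _)
  obtain ⟨r, hr⟩ : ∃ r : ℝ, r = (L : ℝ) ^ (ε / 2) * (EE' μ s l)⁻¹ := ⟨_, rfl⟩
  obtain ⟨p, hp⟩ : ∃ p : ℝ, p = Real.exp (-(L : ℝ) ^ c1) := ⟨_, rfl⟩
  have hr0 : 0 ≤ r := by
    rw [hr]
    positivity
  have hp0 : 0 ≤ p := by
    rw [hp]
    positivity
  obtain ⟨g2, g1⟩ := h1 L (by omega) N hLN hNL y hyN hyc l hlL
  have w1 : WPr μ s N y (ENNReal.ofReal r) (ENNReal.ofReal p) c al (range (al + 1)) := by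
    rw [hr, hp]
    exact (g1 al (by omega) (by omega)).mono le_rfl le_rfl (by omega) le_rfl (range_subset_range.2 (by omega))
  have w2 : WPr μ s N y (ENNReal.ofReal r) (ENNReal.ofReal p) be d (Ico (be + 1) N) := by
    rw [hr, hp]
    exact (g2 be (by omega)).mono le_rfl le_rfl le_rfl hbd subset_rfl
  have h5 := strip_Pm hyN hr0 hp0 hab w1 w2 hD hDm hDo1 hDo2 hLk
  have hne : Nonempty (Px (Pn N y)) := ne_Pn hyN
  have hI0 : 0 ≤ ∫ ω, gm (wm μ s N (Pn N y) ω) (fun S => D ω S ^ 2) ∂(Pm μ N) :=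
    integral_nonneg fun ω => gm_nonneg _ fun S => sq_nonneg _
  refine h5.trans (add_le_add (mul_le_mul_of_nonneg_right ?_ hI0) ?_)
  · rw [hr]
    have e3 : (L : ℝ) ^ ε = (L : ℝ) ^ (ε / 2) * (L : ℝ) ^ (ε / 2) := by
      rw [← Real.rpow_add hL0]
      congr 1
      ring
    rw [e3]
    have e4 : 0 ≤ (L : ℝ) ^ (ε / 2) * (EE' μ s l)⁻¹ := by positivity
    calc 4 * ((L : ℝ) ^ (ε / 2) * (EE' μ s l)⁻¹) ≤ (L : ℝ) ^ (ε / 2) * ((L : ℝ) ^ (ε / 2) * (EE' μ s l)⁻¹) :=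
          mul_le_mul_of_nonneg_right hL4 e4
      _ = _ := by ring
  · have e5 := h3 L (by omega)
    rw [Real.rpow_one] at e5
    have e7 := Real.exp_pos (-(L : ℝ) ^ c1)
    calc 4 * M ^ 2 * p = M ^ 2 * (4 * Real.exp (-(L : ℝ) ^ c1)) := by
          rw [hp]
          ring
      _ ≤ M ^ 2 * (L * Real.exp (-(L : ℝ) ^ c1)) :=
          mul_le_mul_of_nonneg_left (mul_le_mul_of_nonneg_right hL4' e7.le) (sq_nonneg M)
      _ ≤ M ^ 2 * Real.exp (-(L : ℝ) ^ c3) := mul_le_mul_of_nonneg_left e5 (sq_nonneg M)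

end Pool.Agent.W_7d29a1_C0.Strip80
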