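import Pool.Agent.W_7d29a1_C0.SigL96
import Pool.Agent.W_7d29a1_C0.StripR80

/-!
STORM C0 (helper96): THE PRICES AND THE STRIP, UNCONDITIONAL (with `wpr80` of helper80). `wpr96`: `Wpr96`; `str96`: the strip `StrN` at the
concrete frame; `sigL96B`: `SigL33` from the kick `KbL96` alone.
-/

set_option autoImplicit false

namespace Pool.Agent.W_7d29a1_C0.Asm96

open Finset MeasureTheory Filter Topology
open Pool.Agent.W_7d29a1_H (EE)
open Pool.Agent.W_7d29a1_HS (In)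
open Pool.Agent.W_7d29a1_C0 Pool.Agent.W_7d29a1_C0.Frm33
open Pool.Agent.W_7d29a1_C0.Par92 (Sml Est)
open Pool.Agent.W_7d29a1_C0.Strip80 (wpr80)

noncomputable section

variable {μ : Measure ℝ} {s : ℝ} {K : ℕ} {Θ : ℝ}

/-- **The prices of the margins.** -/
theorem wpr96 [IsProbabilityMeasure μ] {c C : ℝ} {n₀ : ℕ} (h : In μ s c C n₀) : Wpr96 μ s := by
  intro ε θ hε hθ
  obtain ⟨δ, c', hδ, hc', L₀, h1⟩ := wpr80 h ε θ hε hθ
  refine ⟨δ, c', hδ, hc', L₀, fun N l hN hl y hy hc e => ?_⟩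
  obtain ⟨h2, h3⟩ := h1 N hN N (by omega) le_rfl y hy hc l hl
  refine ⟨fun he => (h2 e he).mono le_rfl le_rfl le_rfl le_rfl fun i hi => ?_,
    fun he he' => (h3 e he he').mono le_rfl le_rfl le_rfl le_rfl fun i hi => ?_⟩
  · rw [mem_Ico] at hi
    rw [mem_Ioc]
    omega
  · rw [mem_range] at hi
    rw [mem_Icc]
    omega

/-- **The strip** at the concrete frame. -/
theorem str96 [IsProbabilityMeasure μ] {c₁ C : ℝ} {n₀ : ℕ} (h : In μ s c₁ C n₀) (hK : 32 ≤ K) {c₀ : ℝ} (hR : RegP46 μ s c₀ Θ) {δ : ℝ}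
    (hδ : 0 < δ) : ∃ C : ℝ, 0 < C ∧ Est fun ι β γ m => StrN μ s (frm33 μ s K ι β γ) (EE μ s) δ ι (C * ι) m :=
  ⟨5, by norm_num, strN96 (by omega) (frk33 h hK) hR hδ (wpr96 h)⟩

/-- **The change of the corrected scale at the concrete frame**, from the kick alone. -/
theorem sigL96B [IsProbabilityMeasure μ] {c₁ C : ℝ} {n₀ : ℕ} (h : In μ s c₁ C n₀) (hk : KapLe96 (EE μ s) (1 / 4)) (hK : 32 ≤ K)
    (hΘ : 0 < Θ) (hΘ1 : Θ ≤ 1) {c₀ : ℝ} (hR : RegP46 μ s c₀ Θ) (hKb : KbL96 μ s K Θ) : SigL33 μ s K Θ :=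
  sigL96 h hk hK hΘ hΘ1 hR (wpr96 h) hKb

end

end Pool.Agent.W_7d29a1_C0.Asm96
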