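import Pool.Agent.W_7d29a1_C0.EstE44
import Pool.Agent.W_7d29a1_C0.ClG46
import Pool.Agent.W_7d29a1_C0.Wpr96

/-!
CURV0 (MP_7d29a1_pr, helper44): THE CROSS TERMS AT THE CONCRETE FRAME, the strip (helper96) and the clipping (helper46) paid. `cmN44`: `CmN` at
`frm33` from `clF46`. `CrU44`: what is left: (E1), (T), (E2), (E2a) and the second moment `X2N`. **`crLv44B`**: they give `CrLv33`.
-/

set_option autoImplicit false

namespace Pool.Agent.W_7d29a1_C0.EstD44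

open Finset MeasureTheory Filter Topology
open Pool.Agent.W_7d29a1_H (EE)
open Pool.Agent.W_7d29a1_HS (In)
open Pool.Agent.W_7d29a1_C0 Pool.Agent.W_7d29a1_C0.Asm96 Pool.Agent.W_7d29a1_C0.Frm33 Pool.Agent.W_7d29a1_C0.EstC46
open Pool.Agent.W_7d29a1_C0.Mod92 Pool.Agent.W_7d29a1_C0.CrA44
open Pool.Agent.W_7d29a1_C0.Par92 (Sml Est)
open Pool.Agent.W_7d29a1_C0.Cl46 (clF46 ev_pow46 avy_le46)

noncomputable section

variable {μ : Measure ℝ} {s : ℝ} {Θ c₀ : ℝ}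

theorem small44 {K : ℕ} (hK : 32 ≤ K) {c' : ℝ} (hc' : 0 < c') : ∀ᶠ m : ℕ in atTop,
    Real.exp (-(L33 K m : ℝ) ^ c') ≤ ((2 ^ m : ℕ) : ℝ) ^ (-6 : ℝ) := by
  filter_upwards [ev_z hK hc'] with m h1
  obtain ⟨n, hn⟩ : ∃ n : ℝ, n = ((2 ^ m : ℕ) : ℝ) := ⟨_, rfl⟩
  obtain ⟨L, hL⟩ : ∃ L : ℝ, L = ((L33 K m : ℕ) : ℝ) := ⟨_, rfl⟩
  obtain ⟨z, hz⟩ : ∃ z, z = Real.exp (-(L33 K m : ℝ) ^ c') := ⟨_, rfl⟩
  have hz0 : 0 < z := by
    rw [hz]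
    exact Real.exp_pos _
  have hn1 : 1 ≤ n := hn ▸ n_ge1 m
  have hn0 : 0 < n := by linarith
  have hLn : n ≤ L := by
    rw [hn, hL]
    exact_mod_cast L33_ge (by omega : 1 ≤ K) m
  rw [← hz, ← hL, ← hn] at h1
  rw [← hz, ← hn]
  have e6 : n ^ (-6 : ℝ) = (n ^ 6)⁻¹ := by
    rw [Real.rpow_neg hn0.le]
    congr 1
    rw [← Real.rpow_natCast]
    norm_num
  rw [e6, ← one_div, le_div_iff₀ (by positivity)]
  have h2 : n ^ 2 * z ≤ (n ^ 4)⁻¹ := (mul_le_mul_of_nonneg_right (pow_le_pow_left₀ hn0.le hLn 2) hz0.le).trans h1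
  have h3 := mul_le_mul_of_nonneg_right h2 (show 0 ≤ n ^ 4 by positivity)
  rw [inv_mul_cancel₀ (by positivity)] at h3
  calc z * n ^ 6 = n ^ 2 * z * n ^ 4 := by ring
    _ ≤ 1 := h3

/-- **THE CLIP MEANS OF THE CROSS TERMS AT THE CONCRETE FRAME**, both corners. -/
theorem cmN44 [IsProbabilityMeasure μ] {c₁ C : ℝ} {n₀ : ℕ} (h : In μ s c₁ C n₀) (hk : KapLe96 (EE μ s) (1 / 4)) {K : ℕ}
    (hK : 32 ≤ K) {δ c : ℝ} (hδ : 0 < δ) (hc : 0 ≤ c) (hcδ : c ≤ δ / 64) :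
    Est fun ι β γ m => CmN μ s (frm33 μ s K ι β γ) (EE μ s) δ c m := by
  refine ⟨δ / 16, by positivity, fun ι _ hι => ⟨1, one_pos, fun β hβ hβ1 => ?_⟩⟩
  obtain ⟨γ₀, hγ₀, H⟩ := clF46 h hK (show 0 < δ / 4 by positivity) hβ hβ1
  refine ⟨γ₀, hγ₀, fun γ hγ hγ' => ?_⟩
  obtain ⟨c', hc', H⟩ := H γ hγ hγ'
  filter_upwards [H, b0_33 hδ (show ι ≤ δ / 4 by linarith), small44 hK hc', deep33_ev h hk hδ hc hcδ hι, eventually_ge_atTop 1]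
    with m h1 h2 h3 h4 hm1 p q i hst hi j hj a ha
  have hsm : sg96 (EE μ s) c m p ≤ m := hst.hsq.trans hst.hqm
  have hpm : p ≤ m := hst.hps.trans hsm
  have dp : Deep (R33 ι m) (2 ^ p) (2 ^ sg96 (EE μ s) c m p) := (h4 p hst.hp hsm).mono (by omega)
  have hL2 : 2 ^ m + 2 ^ m ≤ L33 K m := by
    have e : 2 ^ m + 2 ^ m = 2 ^ (m + 1) := by ring
    rw [e]
    exact Nat.pow_le_pow_right two_pos (by nlinarith)
  have hj' : j ∈ Rw (R33 ι m) (i * 2 ^ q) ((i + 1) * 2 ^ q) := hj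
  unfold Rw at hj'
  rw [mem_inter] at hj'
  have hj1 := (dp j hj'.1).1
  have hj2 := mem_range.1 (R33_sub ι m hj'.1)
  have hpp : 2 ^ p ≤ 2 ^ m := Nat.pow_le_pow_right two_pos hpm
  have hb : 2 ^ (p - ⌈ι * (m : ℝ)⌉₊) ≤ 2 ^ p := Nat.pow_le_pow_right two_pos (Nat.sub_le _ _)
  exact avy_le46 (by positivity) fun y hy =>
    (h1 _ (2 ^ p) j (h2 p hst.hp) hb (hb.trans hpp) (by omega) (by omega) a ha y hy).trans h3

variable (μ s Θ) in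
/-- **What is left of the cross terms**, at the concrete frame: four estimates and the second moment of the double tie. -/
structure CrU44 (K : ℕ) (δ c : ℝ) : Prop where
  e1 : ∃ x : ℝ, 0 < x ∧ Est fun ι β γ m => E1V μ s (frm33 μ s K ι β γ) (EE μ s) Θ δ c x ι m
  t : ∃ x : ℝ, 0 < x ∧ Est fun ι β γ m => TV μ s (frm33 μ s K ι β γ) (EE μ s) Θ δ c x ι m
  e2 : ∃ x : ℝ, 0 < x ∧ Est fun ι β γ m => E2V μ s (frm33 μ s K ι β γ) (EE μ s) Θ δ c x m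
  e2a : ∃ x : ℝ, 0 < x ∧ Est fun ι β γ m => E2aV μ s (frm33 μ s K ι β γ) (EE μ s) Θ δ c x m
  x2 : ∃ x : ℝ, 0 < x ∧ Est fun ι β γ m => X2N μ s (frm33 μ s K ι β γ) (EE μ s) Θ δ c x m

/-- **THE CROSS TERMS AT THE CONCRETE FRAME**: strip and clipping are theorems. -/
theorem crLv44B [IsProbabilityMeasure μ] {c₁ C : ℝ} {n₀ : ℕ} (h : In μ s c₁ C n₀) (hk : KapLe96 (EE μ s) (1 / 4)) {K : ℕ}
    (hK : 32 ≤ K) (hΘ : 0 < Θ) (hΘ1 : Θ ≤ 1) (hR : RegP46 μ s c₀ Θ) (H : Sml fun δ => Sml fun c => CrU44 μ s Θ K δ c) :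
    CrLv33 μ s K Θ := by
  refine crLv44 h hk hK hΘ hΘ1 hR (H.mono fun δ hδ H1 => ?_)
  refine (H1.and (Sml.le (show 0 < δ / 64 by positivity))).mono fun c hc H2 => ?_
  obtain ⟨H2, hcδ⟩ := H2
  exact ⟨H2.e1, H2.t, H2.e2, H2.e2a, str96 h hK hR hδ, H2.x2, cmN44 h hk hK hδ hc.le hcδ⟩

end

end Pool.Agent.W_7d29a1_C0.EstD44
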