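import Pool.Agent.W_7d29a1_C0.Size1B

/-!
MP_7d29a1_pr, [CURV0] / [C0], leaf E0C (helper1): BOTH CORNERS.

`cond_corner`: the conditional mean of `Φ ≥ 0` at a tilt `t ∈ [-1, 1]` is at most `e ^ (2 δ)` times the sum of the conditional means at
the two corners `t = 1`, `t = -1`, plus `sup Φ` times the mean over the fibre of `min 1 (3 e ^ (8 M) T3)`; `T3 x` is the mass of the pairs
`(a, b)` of the fibre with `g x`, `g a`, `g b` pairwise `δ / 2` apart. `gm_corner`: the same inside the Gibbs mean, with a factor which is a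
function of `p`. `swap_two`, `gm_swap`: a function of the outside of a block has the same mean for the weights `w` and `w + g`, up to the
pairs of replicas (one at each weight) which do not meet on both sides. `frozen_corner`: all together. Pathwise inequalities; nothing is
assumed about the environment.
-/

set_option autoImplicit false
set_option linter.unusedSectionVars false

namespace Pool.W7d29a1.C0.K1

open Finset MeasureTheory Pool.Agent.W_7d29a1_C0.Swap57 Pool.Agent.W_7d29a1_C0 Pool.Agent.W_7d29a1_C0.Mod92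
open Pool.W7d29a1.C0 Pool.W7d29a1.C0.VT31 Pool.W7d29a1.C0.R43 Pool.W7d29a1.C0.S1

noncomputable section

section Fib

variable {X : Type*} [Fintype X] [Nonempty X] {Y Z : Type*} [DecidableEq Y] [DecidableEq Z]

theorem cE_eq_of (w : X → ℝ) (p : X → Y) (f : X → ℝ) {x x' : X} (h : p x = p x') : cE w p f x = cE w p f x' := cE_meas w p f x x' h

theorem cE_congr (w : X → ℝ) (p : X → Y) {f f' : X → ℝ} (h : ∀ x, f x = f' x) (x : X) : cE w p f x = cE w p f' x := by
  rw [show f = f' from funext h]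

/-- The double sum of two conditional means. -/
theorem cE_cE (v1 v2 : X → ℝ) (p : X → Y) (K : X → X → ℝ) (x x' : X) :
    cE v1 p (fun y => cE v2 p (K y) x') x = (∑ y, ∑ z, if p y = p x then (if p z = p x' then
      Real.exp (v1 y) * Real.exp (v2 z) * K y z else 0) else 0) / (fz v1 p x * fz v2 p x') := by
  unfold cE
  rw [eq_comm, mul_comm (fz v1 p x), ← div_div, sum_div]
  congr 1
  refine sum_congr rfl fun y _ => ?_
  split_ifs with h1
  · rw [← mul_div_assoc, mul_sum]
    congr 1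
    refine sum_congr rfl fun z _ => ?_
    split_ifs
    · ring
    · ring
  · rw [sum_const_zero, zero_div]

/-- Fubini for two weights. -/
theorem cE_comm2 (v1 v2 : X → ℝ) (p : X → Y) (K : X → X → ℝ) (x x' : X) :
    cE v1 p (fun y => cE v2 p (K y) x') x = cE v2 p (fun z => cE v1 p (fun y => K y z) x) x' := by
  rw [cE_cE, cE_cE, mul_comm (fz v1 p x), sum_comm]
  congr 1
  refine sum_congr rfl fun z _ => sum_congr rfl fun y _ => ?_
  split_ifs
  · ring
  · rfl
  · rfl
  · rfl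

/-- **Exchange of the weights of two replicas.** -/
theorem cE_cmp (v1 v2 : X → ℝ) (p : X → Y) {Φ : X → ℝ} (hΦ : ∀ x, 0 ≤ Φ x) {K : X → X → ℝ} {c : ℝ}
    (h1 : ∀ y z, K y z ≤ 1) (hK : ∀ y z, K y z ≠ 0 → v1 y + v2 z ≤ v2 y + v1 z + c) (x : X) :
    cE v1 p (fun y => Φ y * cE v2 p (K y) x) x ≤ Real.exp c * cE v2 p Φ x := by
  have e1 : cE v1 p (fun y => Φ y * cE v2 p (K y) x) x = cE v1 p (fun y => cE v2 p (fun z => Φ y * K y z) x) x := by
    congr 1
    funext y
    have h := congrFun (cE_smul v2 p (Φ y) (K y)) x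
    exact h.symm
  have e2 : cE v2 p Φ x = cE v2 p (fun y => cE v1 p (fun _ => Φ y) x) x := by
    congr 1
    funext y
    rw [cE_const]
  rw [e1, e2, cE_cE, cE_cE, mul_comm (fz v2 p x), ← mul_div_assoc, mul_sum]
  refine div_le_div_of_nonneg_right ?_ (mul_pos (fz_pos _ _ _) (fz_pos _ _ _)).le
  refine sum_le_sum fun y _ => ?_
  rw [mul_sum]
  refine sum_le_sum fun z _ => ?_
  split_ifs
  · by_cases h : K y z = 0
    · rw [h, mul_zero, mul_zero]
      have := hΦ y
      positivity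
    · have a1 : Real.exp (v1 y) * Real.exp (v2 z) ≤ Real.exp c * (Real.exp (v2 y) * Real.exp (v1 z)) := by
        rw [← Real.exp_add, ← Real.exp_add, ← Real.exp_add]
        exact Real.exp_le_exp.2 (by linarith [hK y z h])
      have a2 : Φ y * K y z ≤ Φ y := by nlinarith [hΦ y, h1 y z]
      calc Real.exp (v1 y) * Real.exp (v2 z) * (Φ y * K y z) ≤ Real.exp (v1 y) * Real.exp (v2 z) * Φ y :=
            mul_le_mul_of_nonneg_left a2 (by positivity)
        _ ≤ Real.exp c * (Real.exp (v2 y) * Real.exp (v1 z)) * Φ y := mul_le_mul_of_nonneg_right a1 (hΦ y)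
        _ = Real.exp c * (Real.exp (v2 y) * Real.exp (v1 z) * Φ y) := by ring
  · rw [mul_zero]
  · rw [mul_zero]

/-! ### Three levels -/

/-- `z` is above the level of `y`. -/
def upI (g : X → ℝ) (δ : ℝ) (y z : X) : ℝ := if g y + δ < g z then 1 else 0

/-- `z` is below the level of `y`. -/
def dnI (g : X → ℝ) (δ : ℝ) (y z : X) : ℝ := if g z < g y - δ then 1 else 0

/-- Two levels which are apart. -/
def lv (g : X → ℝ) (δ : ℝ) (y z : X) : ℝ := if δ ≤ |g y - g z| then 1 else 0

theorem lv_nonneg (g : X → ℝ) (δ : ℝ) (y z : X) : 0 ≤ lv g δ y z := by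
  unfold lv
  split_ifs <;> norm_num

theorem lv_le_one (g : X → ℝ) (δ : ℝ) (y z : X) : lv g δ y z ≤ 1 := by
  unfold lv
  split_ifs <;> norm_num

theorem lv_symm (g : X → ℝ) (δ : ℝ) (y z : X) : lv g δ y z = lv g δ z y := by
  unfold lv
  rw [abs_sub_comm]

theorem lv_le (g : X → ℝ) {δ : ℝ} (hδ : 0 < δ) (y z : X) : lv g δ y z ≤ |g y - g z| / δ := by
  unfold lv
  split_ifs with h
  · rwa [le_div_iff₀ hδ, one_mul]
  · positivity

/-- Three levels pairwise apart. -/
def lv3 (g : X → ℝ) (δ : ℝ) (x a b : X) : ℝ := lv g δ x a * (lv g δ x b * lv g δ a b)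

theorem lv3_nonneg (g : X → ℝ) (δ : ℝ) (x a b : X) : 0 ≤ lv3 g δ x a b :=
  mul_nonneg (lv_nonneg _ _ _ _) (mul_nonneg (lv_nonneg _ _ _ _) (lv_nonneg _ _ _ _))

theorem lv3_le_one (g : X → ℝ) (δ : ℝ) (x a b : X) : lv3 g δ x a b ≤ 1 :=
  mul_le_one₀ (lv_le_one _ _ _ _) (mul_nonneg (lv_nonneg _ _ _ _) (lv_nonneg _ _ _ _))
    (mul_le_one₀ (lv_le_one _ _ _ _) (lv_nonneg _ _ _ _) (lv_le_one _ _ _ _))

/-- The mass, in the fibre, of the pairs which form three levels with `x`. -/
def T3 (w : X → ℝ) (p : X → Y) (g : X → ℝ) (δ : ℝ) (x : X) : ℝ := cE2 w p (fun a b => lv3 g δ x a b) x x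

theorem T3_nonneg (w : X → ℝ) (p : X → Y) (g : X → ℝ) (δ : ℝ) (x : X) : 0 ≤ T3 w p g δ x :=
  cE2_nonneg w p (fun a b => lv3_nonneg g δ x a b) x x

theorem T3_le_one (w : X → ℝ) (p : X → Y) (g : X → ℝ) (δ : ℝ) (x : X) : T3 w p g δ x ≤ 1 :=
  cE2_le_one w p (fun a b => lv3_le_one g δ x a b) x x

/-- For three levels pairwise `δ` apart, at least two of them are `δ / 2` away from the level of `x`. -/
theorem up_dn_le (g : X → ℝ) {δ : ℝ} (hδ : 0 ≤ δ) (x y z z' : X) :
    upI g δ y z * dnI g δ y z' ≤ lv3 g (δ / 2) x y z + (lv3 g (δ / 2) x y z' + lv3 g (δ / 2) x z z') := by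
  have p1 := lv3_nonneg g (δ / 2) x y z
  have p2 := lv3_nonneg g (δ / 2) x y z'
  have p3 := lv3_nonneg g (δ / 2) x z z'
  unfold upI dnI
  split_ifs with h1 h2
  · have key : ∀ a b : X, δ / 2 ≤ |g x - g a| → δ / 2 ≤ |g x - g b| → δ / 2 ≤ |g a - g b| → lv3 g (δ / 2) x a b = 1 := by
      intro a b ha hb hc
      unfold lv3 lv
      rw [if_pos ha, if_pos hb, if_pos hc]
      ring
    have hyz : δ / 2 ≤ |g y - g z| := by
      rw [abs_sub_comm]
      exact le_trans (by linarith) (le_abs_self _)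
    have hyz' : δ / 2 ≤ |g y - g z'| := le_trans (by linarith) (le_abs_self _)
    have hzz' : δ / 2 ≤ |g z - g z'| := le_trans (by linarith) (le_abs_self _)
    by_cases ha : δ / 2 ≤ |g x - g y|
    · by_cases hb : δ / 2 ≤ |g x - g z|
      · rw [key y z ha hb hyz]
        linarith
      · have hc : δ / 2 ≤ |g x - g z'| := by
          by_contra hc
          rw [not_le, abs_lt] at hb hc
          linarith [hb.1, hb.2, hc.1, hc.2]
        rw [key y z' ha hc hyz']
        linarith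
    · have hb : δ / 2 ≤ |g x - g z| := by
        by_contra hb
        rw [not_le, abs_lt] at ha hb
        linarith [hb.1, hb.2, ha.1, ha.2]
      have hc : δ / 2 ≤ |g x - g z'| := by
        by_contra hc
        rw [not_le, abs_lt] at ha hc
        linarith [ha.1, ha.2, hc.1, hc.2]
      rw [key z z' hb hc hzz']
      linarith
  · linarith
  · linarith
  · linarith

/-- A pair mass for two weights near `u`. -/
theorem cE_cE_le {u v1 v2 : X → ℝ} {D : ℝ} (h1 : ∀ x, |v1 x - u x| ≤ D) (h2 : ∀ x, |v2 x - u x| ≤ D) (p : X → Y) {K : X → X → ℝ}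
    (hK : ∀ y z, 0 ≤ K y z) (x x' : X) :
    cE v1 p (fun y => cE v2 p (K y) x') x ≤ Real.exp (4 * D) * cE2 u p K x x' := by
  have e1 : v1 = u + fun x => v1 x - u x := by
    funext x
    rw [Pi.add_apply]
    ring
  have e2 : v2 = u + fun x => v2 x - u x := by
    funext x
    rw [Pi.add_apply]
    ring
  have a1 : cE v1 p (fun y => cE v2 p (K y) x') x ≤ Real.exp (2 * D) * cE u p (fun y => cE v2 p (K y) x') x := by
    have h := cE_tilt (w := u) (A := fun x => v1 x - u x) h1 p (f := fun y => cE v2 p (K y) x') (fun y => cE_nonneg _ _ (hK y) _) x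
    rwa [← e1] at h
  have a2 : ∀ y, cE v2 p (K y) x' ≤ Real.exp (2 * D) * cE u p (K y) x' := by
    intro y
    have h := cE_tilt (w := u) (A := fun x => v2 x - u x) h2 p (f := K y) (hK y) x'
    rwa [← e2] at h
  have a3 : cE u p (fun y => cE v2 p (K y) x') x ≤ Real.exp (2 * D) * cE2 u p K x x' := by
    have h := cE_mono u p a2 x
    have e3 := congrFun (cE_smul u p (Real.exp (2 * D)) fun y => cE u p (K y) x') x
    exact h.trans e3.le
  have e4 : Real.exp (4 * D) = Real.exp (2 * D) * Real.exp (2 * D) := by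
    rw [← Real.exp_add]
    ring_nf
  rw [e4, mul_assoc]
  exact a1.trans (mul_le_mul_of_nonneg_left a3 (Real.exp_pos _).le)

/-- **The mass of the triples `z' < y < z` is at most `3 e ^ (4 D)` times `T3` at EVERY path of the fibre.** -/
theorem err_le {u v1 v2 v3 : X → ℝ} {D : ℝ} (h1 : ∀ x, |v1 x - u x| ≤ D) (h2 : ∀ x, |v2 x - u x| ≤ D) (h3 : ∀ x, |v3 x - u x| ≤ D)
    (p : X → Y) (g : X → ℝ) {δ : ℝ} (hδ : 0 ≤ δ) {x x' : X} (hx : p x' = p x) :
    cE v1 p (fun y => cE v2 p (upI g δ y) x * cE v3 p (dnI g δ y) x) x ≤ 3 * Real.exp (4 * D) * T3 u p g (δ / 2) x' := by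
  have e1 : ∀ y, cE v2 p (upI g δ y) x * cE v3 p (dnI g δ y) x =
      cE v2 p (fun z => cE v3 p (fun z' => upI g δ y z * dnI g δ y z') x) x := by
    intro y
    have a1 : (fun z => cE v3 p (fun z' => upI g δ y z * dnI g δ y z') x) = cE v3 p (dnI g δ y) x • upI g δ y := by
      funext z
      have h := congrFun (cE_smul v3 p (upI g δ y z) (dnI g δ y)) x
      rw [Pi.smul_apply, smul_eq_mul, mul_comm]
      exact h
    rw [a1, cE_smul, Pi.smul_apply, smul_eq_mul, mul_comm]
  have e2 : ∀ y, cE v2 p (fun z => cE v3 p (fun z' => upI g δ y z * dnI g δ y z') x) x ≤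
      cE v2 p (fun z => lv3 g (δ / 2) x' y z) x + (cE v3 p (fun z' => lv3 g (δ / 2) x' y z') x +
        cE v2 p (fun z => cE v3 p (fun z' => lv3 g (δ / 2) x' z z') x) x) := by
    intro y
    have a1 : ∀ z, cE v3 p (fun z' => upI g δ y z * dnI g δ y z') x ≤ lv3 g (δ / 2) x' y z +
        (cE v3 p (fun z' => lv3 g (δ / 2) x' y z') x + cE v3 p (fun z' => lv3 g (δ / 2) x' z z') x) := by
      intro z
      have h := cE_mono v3 p (fun z' => up_dn_le g hδ x' y z z') x
      have h4 := congrFun (cE_add v3 p (fun _ => lv3 g (δ / 2) x' y z)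
        (fun z' => lv3 g (δ / 2) x' y z' + lv3 g (δ / 2) x' z z')) x
      have h5 := congrFun (cE_add v3 p (fun z' => lv3 g (δ / 2) x' y z') (fun z' => lv3 g (δ / 2) x' z z')) x
      rw [Pi.add_apply, cE_const] at h4
      rw [Pi.add_apply] at h5
      calc _ ≤ _ := h
        _ = _ := h4
        _ = _ := by
          beta_reduce
          congr 1
    have h := cE_mono v2 p a1 x
    have h4 := congrFun (cE_add v2 p (fun z => lv3 g (δ / 2) x' y z)
      (fun z => cE v3 p (fun z' => lv3 g (δ / 2) x' y z') x + cE v3 p (fun z' => lv3 g (δ / 2) x' z z') x)) x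
    have h5 := congrFun (cE_add v2 p (fun _ => cE v3 p (fun z' => lv3 g (δ / 2) x' y z') x)
      (fun z => cE v3 p (fun z' => lv3 g (δ / 2) x' z z') x)) x
    rw [Pi.add_apply] at h4
    rw [Pi.add_apply, cE_const] at h5
    calc _ ≤ _ := h
      _ = _ := h4
      _ = _ := by
        congr 1
  have b1 := cE_cE_le h1 h2 p (K := fun y z => lv3 g (δ / 2) x' y z) (fun y z => lv3_nonneg _ _ _ _ _) x x
  have b2 := cE_cE_le h1 h3 p (K := fun y z => lv3 g (δ / 2) x' y z) (fun y z => lv3_nonneg _ _ _ _ _) x x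
  have b3 := cE_cE_le h2 h3 p (K := fun y z => lv3 g (δ / 2) x' y z) (fun y z => lv3_nonneg _ _ _ _ _) x x
  have e3 : cE2 u p (fun y z => lv3 g (δ / 2) x' y z) x x = T3 u p g (δ / 2) x' := by
    unfold T3 cE2
    rw [cE_eq_of u p _ hx]
    congr 1
    funext z
    exact (cE_eq_of u p _ hx).symm
  rw [e3] at b1 b2 b3
  have h := cE_mono v1 p (fun y => (e1 y).le.trans (e2 y)) x
  have h4 := congrFun (cE_add v1 p (fun y => cE v2 p (fun z => lv3 g (δ / 2) x' y z) x)
    (fun y => cE v3 p (fun z' => lv3 g (δ / 2) x' y z') x + cE v2 p (fun z => cE v3 p (fun z' => lv3 g (δ / 2) x' z z') x) x)) x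
  have h5 := congrFun (cE_add v1 p (fun y => cE v3 p (fun z' => lv3 g (δ / 2) x' y z') x)
    (fun _ => cE v2 p (fun z => cE v3 p (fun z' => lv3 g (δ / 2) x' z z') x) x)) x
  rw [Pi.add_apply] at h4
  rw [Pi.add_apply, cE_const] at h5
  have h6 := h.trans (h4.le.trans (add_le_add_right h5.le _))
  linarith

/-! ### Both corners -/

theorem upI_compl (g : X → ℝ) (δ : ℝ) (v : X → ℝ) (p : X → Y) (x y : X) :
    cE v p (fun z => 1 - upI g δ y z) x = 1 - cE v p (upI g δ y) x := by
  have h := congrFun (cE_sub v p (fun _ => 1) (upI g δ y)) x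
  rw [cE_one] at h
  exact h

theorem dnI_compl (g : X → ℝ) (δ : ℝ) (v : X → ℝ) (p : X → Y) (x y : X) :
    cE v p (fun z => 1 - dnI g δ y z) x = 1 - cE v p (dnI g δ y) x := by
  have h := congrFun (cE_sub v p (fun _ => 1) (dnI g δ y)) x
  rw [cE_one] at h
  exact h

theorem cE_mem (v : X → ℝ) (p : X → Y) {f : X → ℝ} (h0 : ∀ x, 0 ≤ f x) (h1 : ∀ x, f x ≤ 1) (x : X) :
    0 ≤ cE v p f x ∧ cE v p f x ≤ 1 := by
  refine ⟨cE_nonneg v p h0 x, ?_⟩
  have h := cE_mono v p h1 x
  rwa [cE_const] at h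

theorem upI_mem (g : X → ℝ) (δ : ℝ) (y z : X) : 0 ≤ upI g δ y z ∧ upI g δ y z ≤ 1 := by
  unfold upI
  split_ifs <;> norm_num

theorem dnI_mem (g : X → ℝ) (δ : ℝ) (y z : X) : 0 ≤ dnI g δ y z ∧ dnI g δ y z ≤ 1 := by
  unfold dnI
  split_ifs <;> norm_num

/-- **The two corner inequality**: the error is carried by the paths with alternatives above AND below. -/
theorem two_corner (w g : X → ℝ) (p : X → Y) {Φ : X → ℝ} (hΦ : ∀ x, 0 ≤ Φ x) {t δ : ℝ} (ht : |t| ≤ 1) (hδ : 0 ≤ δ) (x : X) :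
    cE (w + t • g) p Φ x ≤ Real.exp (2 * δ) * (cE (w + g) p Φ x + cE (w - g) p Φ x) +
      cE (w + t • g) p (fun y => Φ y * (cE (w + g) p (upI g δ y) x * cE (w - g) p (dnI g δ y) x)) x := by
  have ht' := abs_le.1 ht
  have a1 := cE_cmp (w + t • g) (w + g) p hΦ (K := fun y z => 1 - upI g δ y z) (c := (1 - t) * δ)
    (fun y z => by linarith [(upI_mem g δ y z).1]) (fun y z h => by
      have h2 : ¬(g y + δ < g z) := fun h3 => h (by simp only [upI]; rw [if_pos h3, sub_self])
      rw [not_lt] at h2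
      simp only [Pi.add_apply, Pi.smul_apply, smul_eq_mul]
      nlinarith [ht'.2]) x
  have a2 := cE_cmp (w + t • g) (w - g) p hΦ (K := fun y z => 1 - dnI g δ y z) (c := (1 + t) * δ)
    (fun y z => by linarith [(dnI_mem g δ y z).1]) (fun y z h => by
      have h2 : ¬(g z < g y - δ) := fun h3 => h (by simp only [dnI]; rw [if_pos h3, sub_self])
      rw [not_lt] at h2
      simp only [Pi.add_apply, Pi.sub_apply, Pi.smul_apply, smul_eq_mul]
      nlinarith [ht'.1]) x
  have b1 : Real.exp ((1 - t) * δ) ≤ Real.exp (2 * δ) := Real.exp_le_exp.2 (by nlinarith [ht'.1])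
  have b2 : Real.exp ((1 + t) * δ) ≤ Real.exp (2 * δ) := Real.exp_le_exp.2 (by nlinarith [ht'.2])
  have c1 := a1.trans (mul_le_mul_of_nonneg_right b1 (cE_nonneg (w + g) p hΦ x))
  have c2 := a2.trans (mul_le_mul_of_nonneg_right b2 (cE_nonneg (w - g) p hΦ x))
  set U : X → ℝ := fun y => cE (w + g) p (upI g δ y) x with hU
  set D : X → ℝ := fun y => cE (w - g) p (dnI g δ y) x with hD
  have d1 : cE (w + t • g) p (fun y => Φ y * cE (w + g) p (fun z => 1 - upI g δ y z) x) x =
      cE (w + t • g) p (fun y => Φ y * (1 - U y)) x := cE_congr _ _ (fun y => by rw [upI_compl]) x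
  have d2 : cE (w + t • g) p (fun y => Φ y * cE (w - g) p (fun z => 1 - dnI g δ y z) x) x =
      cE (w + t • g) p (fun y => Φ y * (1 - D y)) x := cE_congr _ _ (fun y => by rw [dnI_compl]) x
  rw [d1] at c1
  rw [d2] at c2
  have e1 := cE_mono (w + t • g) p (f := Φ) (g := fun y => Φ y * (1 - U y) + (Φ y * (1 - D y) + Φ y * (U y * D y))) (fun y => by
    have u := cE_mem (w + g) p (f := upI g δ y) (fun z => (upI_mem g δ y z).1) (fun z => (upI_mem g δ y z).2) x
    have d := cE_mem (w - g) p (f := dnI g δ y) (fun z => (dnI_mem g δ y z).1) (fun z => (dnI_mem g δ y z).2) x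
    have u1 : U y ≤ 1 := u.2
    have d1 : D y ≤ 1 := d.2
    have h := mul_nonneg (hΦ y) (mul_nonneg (sub_nonneg.2 u1) (sub_nonneg.2 d1))
    nlinarith) x
  have e2 := congrFun (cE_add (w + t • g) p (fun y => Φ y * (1 - U y)) (fun y => Φ y * (1 - D y) + Φ y * (U y * D y))) x
  have e3 := congrFun (cE_add (w + t • g) p (fun y => Φ y * (1 - D y)) (fun y => Φ y * (U y * D y))) x
  rw [Pi.add_apply] at e2 e3
  have e4 := e1.trans e2.le
  have e5 : cE (w + t • g) p (fun y => Φ y * (1 - D y) + Φ y * (U y * D y)) x =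
    cE (w + t • g) p (fun y => Φ y * (1 - D y)) x + cE (w + t • g) p (fun y => Φ y * (U y * D y)) x := e3
  rw [e5] at e4
  linarith

/-- The price of the error: three levels. -/
def er3 (u : X → ℝ) (p : X → Y) (g : X → ℝ) (M δ : ℝ) (x : X) : ℝ := min 1 (3 * Real.exp (8 * M) * T3 u p g (δ / 2) x)

theorem er3_nonneg (u : X → ℝ) (p : X → Y) (g : X → ℝ) (M δ : ℝ) (x : X) : 0 ≤ er3 u p g M δ x :=
  le_min zero_le_one (mul_nonneg (by positivity) (T3_nonneg _ _ _ _ _))

theorem er3_le_one (u : X → ℝ) (p : X → Y) (g : X → ℝ) (M δ : ℝ) (x : X) : er3 u p g M δ x ≤ 1 := min_le_left _ _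

/-- **Both corners, conditionally.** -/
theorem cond_corner {w g : X → ℝ} (p : X → Y) {Φ : X → ℝ} {B M : ℝ} (hΦ : ∀ x, 0 ≤ Φ x) (hB : ∀ x, Φ x ≤ B) (hg : ∀ x, |g x| ≤ M)
    {t τ δ : ℝ} (ht : |t| ≤ 1) (hτ : |τ| ≤ 1) (hδ : 0 ≤ δ) (x : X) :
    cE (w + t • g) p Φ x ≤ Real.exp (2 * δ) * (cE (w + g) p Φ x + cE (w - g) p Φ x) +
      B * cE (w + τ • g) p (er3 (w + τ • g) p g M δ) x := by
  have ht' := abs_le.1 ht
  have hτ' := abs_le.1 hτ
  have hM : 0 ≤ M := (abs_nonneg _).trans (hg x)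
  have hB0 : 0 ≤ B := (hΦ x).trans (hB x)
  refine (two_corner w g p hΦ ht hδ x).trans (add_le_add_right ?_ _)
  have dist : ∀ r : ℝ, |r| ≤ 1 → ∀ y, |(w + r • g) y - (w + τ • g) y| ≤ 2 * M := by
    intro r hr y
    simp only [Pi.add_apply, Pi.smul_apply, smul_eq_mul]
    rw [show w y + r * g y - (w y + τ * g y) = (r - τ) * g y by ring, abs_mul]
    have h1 : |r - τ| ≤ 2 := (abs_sub _ _).trans (by linarith)
    exact mul_le_mul h1 (hg y) (abs_nonneg _) (by norm_num)
  have d1 := dist t ht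
  have d2 := dist 1 (by norm_num)
  have d3 := dist (-1) (by norm_num)
  rw [one_smul] at d2
  rw [neg_one_smul, ← sub_eq_add_neg] at d3
  have U0 : ∀ y, 0 ≤ cE (w + g) p (upI g δ y) x * cE (w - g) p (dnI g δ y) x := fun y =>
    mul_nonneg (cE_nonneg _ _ (fun z => (upI_mem g δ y z).1) _) (cE_nonneg _ _ (fun z => (dnI_mem g δ y z).1) _)
  have U1 : ∀ y, cE (w + g) p (upI g δ y) x * cE (w - g) p (dnI g δ y) x ≤ 1 := fun y =>
    mul_le_one₀ (cE_mem _ _ (fun z => (upI_mem g δ y z).1) (fun z => (upI_mem g δ y z).2) _).2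
      (cE_nonneg _ _ (fun z => (dnI_mem g δ y z).1) _)
      (cE_mem _ _ (fun z => (dnI_mem g δ y z).1) (fun z => (dnI_mem g δ y z).2) _).2
  have e1 : cE (w + t • g) p (fun y => Φ y * (cE (w + g) p (upI g δ y) x * cE (w - g) p (dnI g δ y) x)) x ≤
      B * cE (w + t • g) p (fun y => cE (w + g) p (upI g δ y) x * cE (w - g) p (dnI g δ y) x) x := by
    have h := cE_mono (w + t • g) p (f := fun y => Φ y * (cE (w + g) p (upI g δ y) x * cE (w - g) p (dnI g δ y) x))
      (g := B • fun y => cE (w + g) p (upI g δ y) x * cE (w - g) p (dnI g δ y) x)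
      (fun y => mul_le_mul_of_nonneg_right (hB y) (U0 y)) x
    rwa [cE_smul] at h
  refine e1.trans (mul_le_mul_of_nonneg_left ?_ hB0)
  set E := cE (w + t • g) p (fun y => cE (w + g) p (upI g δ y) x * cE (w - g) p (dnI g δ y) x) x with hE
  have hE1 : E ≤ 1 := (cE_mem _ _ U0 U1 x).2
  have hfib : ∀ x', p x' = p x → E ≤ er3 (w + τ • g) p g M δ x' := fun x' hx => by
    refine le_min hE1 ?_
    have h := err_le d1 d2 d3 p g hδ hx
    have e : 4 * (2 * M) = 8 * M := by ring
    rwa [e] at h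
  have h2 : cE (w + τ • g) p (fun _ => E) x ≤ cE (w + τ • g) p (er3 (w + τ • g) p g M δ) x := by
    unfold cE
    refine div_le_div_of_nonneg_right (sum_le_sum fun x' _ => ?_) (fz_pos _ _ _).le
    split_ifs with hx
    · exact mul_le_mul_of_nonneg_left (hfib x' hx) (Real.exp_pos _).le
    · exact le_rfl
  rwa [cE_const] at h2

/-- **Both corners inside the Gibbs mean**, with a factor `H` which is a function of `p`. -/
theorem gm_corner {w g : X → ℝ} (p : X → Y) {H Φ : X → ℝ} {B M : ℝ} (hH : Mp p H) (hH0 : ∀ x, 0 ≤ H x) (hΦ : ∀ x, 0 ≤ Φ x)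
    (hB : ∀ x, Φ x ≤ B) (hg : ∀ x, |g x| ≤ M) {t τ δ : ℝ} (ht : |t| ≤ 1) (hτ : |τ| ≤ 1) (hδ : 0 ≤ δ) :
    gm (w + τ • g) (H * cE (w + t • g) p Φ) ≤
      Real.exp (2 * δ) * (gm (w + τ • g) (H * cE (w + g) p Φ) + gm (w + τ • g) (H * cE (w - g) p Φ)) +
      B * gm (w + τ • g) (H * er3 (w + τ • g) p g M δ) := by
  have h1 : ∀ x, (H * cE (w + t • g) p Φ) x ≤ (Real.exp (2 * δ) • (H * cE (w + g) p Φ + H * cE (w - g) p Φ) +
      B • (H * cE (w + τ • g) p (er3 (w + τ • g) p g M δ))) x := by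
    intro x
    have h := mul_le_mul_of_nonneg_left (cond_corner p hΦ hB hg ht hτ hδ x (w := w)) (hH0 x)
    simp only [Pi.mul_apply, Pi.add_apply, Pi.smul_apply, smul_eq_mul]
    linarith
  have h2 := gm_mono (w + τ • g) h1
  have e1 : gm (w + τ • g) (H * cE (w + τ • g) p (er3 (w + τ • g) p g M δ)) = gm (w + τ • g) (H * er3 (w + τ • g) p g M δ) :=
    gm_mul_cE (w + τ • g) hH _
  rw [gm_add, gm_smul, gm_smul, gm_add, e1] at h2
  exact h2

end Fib

/-! ### The swap of two replicas with two weights -/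

section Sw

variable {N : ℕ} {Q : Finset (Finset ℕ)} [SwQ Q] [Nonempty (Px Q)] {c al be d : ℕ} {w g : Px Q → ℝ}

open Classical in
/-- **The exchange of `g` between two replicas which meet on both sides**, with spectators `H`. -/
theorem swap_two (hab : al ≤ be) (hw : Wk c al be d w) (hg : Lk al be g) (H : Px Q → Px Q → ℝ)
    (hH : ∀ S S', Mt c al be d S S' → H (sw c d S S') (sw c d S' S) = H S S') :
    ∑ S, ∑ S', (if Mt c al be d S S' then Real.exp ((w + g) S) * Real.exp (w S') * H S S' else 0) =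
      ∑ S, ∑ S', (if Mt c al be d S S' then Real.exp (w S) * Real.exp ((w + g) S') * H S S' else 0) := by
  have hs : ∀ {S S' : Px Q}, Mt c al be d S S' → Mt c al be d S' S := fun h => by rw [Mt_symm]; exact h
  rw [← sum_product', ← sum_product', univ_product_univ, ← sum_filter, ← sum_filter]
  refine sum_nbij' (fun q => (sw c d q.1 q.2, sw c d q.2 q.1)) (fun q => (sw c d q.1 q.2, sw c d q.2 q.1)) ?_ ?_ ?_ ?_ ?_
  · intro q hq
    rw [mem_filter] at hq ⊢
    exact ⟨mem_univ _, Mt_sw hab hq.2⟩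
  · intro q hq
    rw [mem_filter] at hq ⊢
    exact ⟨mem_univ _, Mt_sw hab hq.2⟩
  · intro q hq
    rw [mem_filter] at hq
    show (sw c d (sw c d q.1 q.2) (sw c d q.2 q.1), sw c d (sw c d q.2 q.1) (sw c d q.1 q.2)) = q
    rw [sw_sw hab hq.2, sw_sw hab (hs hq.2)]
  · intro q hq
    rw [mem_filter] at hq
    show (sw c d (sw c d q.1 q.2) (sw c d q.2 q.1), sw c d (sw c d q.2 q.1) (sw c d q.1 q.2)) = q
    rw [sw_sw hab hq.2, sw_sw hab (hs hq.2)]
  · intro q hq
    rw [mem_filter] at hq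
    show Real.exp ((w + g) q.1) * Real.exp (w q.2) * H q.1 q.2 =
      Real.exp (w (sw c d q.1 q.2)) * Real.exp ((w + g) (sw c d q.2 q.1)) * H (sw c d q.1 q.2) (sw c d q.2 q.1)
    rw [hH _ _ hq.2, ← Real.exp_add, ← Real.exp_add, Pi.add_apply, Pi.add_apply, hg.sw (hs hq.2)]
    congr 2
    linarith [hw _ _ hq.2]

variable {Y' : Type*} [DecidableEq Y']

/-- **A function of the outside of the block under two weights**, given a coarser outside `q`: the two means differ by the pairs (one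
replica at each weight) which do not meet on both sides. -/
theorem cE_swap (hab : al ≤ be) (hw : Wk c al be d w) (hg : Lk al be g) {q : Px Q → Y'} (hq : Crs q (pJ c d)) {H : Px Q → ℝ}
    (hH : Mp (pJ c d) H) (hH0 : ∀ S, 0 ≤ H S) (S0 : Px Q) :
    cE (w + g) q H S0 ≤ cE w q H S0 + cE (w + g) q (fun S => H S * cE w q (NM c al be d S) S0) S0 := by
  classical
  have hs : ∀ {S S' : Px Q}, Mt c al be d S S' → Mt c al be d S' S := fun h => by rw [Mt_symm]; exact h
  have e0 : ∀ S, H S = H S * cE w q (NM c al be d S) S0 + cE w q (fun S' => H S * (1 - NM c al be d S S')) S0 := by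
    intro S
    have h1 := congrFun (cE_smul w q (H S) (fun S' => 1 - NM c al be d S S')) S0
    have h2 := congrFun (cE_sub w q (fun _ => 1) (NM c al be d S)) S0
    rw [cE_one] at h2
    have h3 : cE w q (fun S' => H S * (1 - NM c al be d S S')) S0 = H S * (1 - cE w q (NM c al be d S) S0) := by
      refine h1.trans ?_
      rw [Pi.smul_apply, smul_eq_mul]
      exact congrArg (fun r => H S * r) h2
    rw [h3]
    ring
  have e1 : cE (w + g) q H S0 = cE (w + g) q (fun S => H S * cE w q (NM c al be d S) S0) S0 +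
      cE (w + g) q (fun S => cE w q (fun S' => H S * (1 - NM c al be d S S')) S0) S0 := by
    have h := congrFun (cE_add (w + g) q (fun S => H S * cE w q (NM c al be d S) S0)
      (fun S => cE w q (fun S' => H S * (1 - NM c al be d S S')) S0)) S0
    rw [Pi.add_apply] at h
    rw [← h]
    exact cE_congr _ _ e0 S0
  have e2 : cE (w + g) q (fun S => cE w q (fun S' => H S * (1 - NM c al be d S S')) S0) S0 =
      cE w q (fun S => cE (w + g) q (fun S' => H S * (1 - NM c al be d S S')) S0) S0 := by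
    rw [cE_cE, cE_cE, mul_comm (fz (w + g) q S0)]
    congr 1
    have h := swap_two hab hw hg (fun S S' => if q S = q S0 then (if q S' = q S0 then H S else 0) else 0) (fun S S' hm => by
      show (if q (sw c d S S') = q S0 then (if q (sw c d S' S) = q S0 then H (sw c d S S') else 0) else 0) = _
      rw [hq _ _ (pJ_sw hab hm), hq _ _ (pJ_sw hab (hs hm)), hH _ _ (pJ_sw hab hm)])
    refine Eq.trans (sum_congr rfl fun S _ => sum_congr rfl fun S' _ => ?_) (h.trans (sum_congr rfl fun S _ =>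
      sum_congr rfl fun S' _ => ?_))
    · by_cases hm : Mt c al be d S S'
      · rw [NM_of hm, if_pos hm]
        split_ifs <;> ring
      · rw [NM_of_not hm, if_neg hm]
        split_ifs <;> ring
    · by_cases hm : Mt c al be d S S'
      · rw [NM_of hm, if_pos hm]
        split_ifs <;> ring
      · rw [NM_of_not hm, if_neg hm]
        split_ifs <;> ring
  have e3 : cE w q (fun S => cE (w + g) q (fun S' => H S * (1 - NM c al be d S S')) S0) S0 ≤ cE w q H S0 := by
    refine cE_mono w q (fun S => ?_) S0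
    have h := cE_mono (w + g) q (f := fun S' => H S * (1 - NM c al be d S S')) (g := fun _ => H S) (fun S' => by
      have := NM_nonneg c al be d S S'
      nlinarith [hH0 S]) S0
    rwa [cE_const] at h
  rw [e1, e2]
  linarith

/-- **The swap inside the Gibbs mean.** -/
theorem gm_swap (hab : al ≤ be) (hw : Wk c al be d w) (hg : Lk al be g) {H : Px Q → ℝ}
    (hH : Mp (pJ c d) H) (hH0 : ∀ S, 0 ≤ H S) :
    gm (w + g) H ≤ gm w H + gm (w + g) (fun S => H S * gm w (NM c al be d S)) := by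
  obtain ⟨S0⟩ := (inferInstance : Nonempty (Px Q))
  have h := cE_swap hab hw hg (q := fun _ : Px Q => ()) (fun _ _ _ => rfl) hH hH0 S0
  rw [gm_eq_cE, gm_eq_cE, gm_eq_cE] at h
  have e : (fun S => H S * cE w (fun _ : Px Q => ()) (NM c al be d S) S0) = fun S => H S * gm w (NM c al be d S) := by
    funext S
    rw [gm_eq_cE]
  rwa [e] at h

/-- From the corner `r` to the corner `r'`. -/
theorem gm_swap_line (hab : al ≤ be) (hw : Wk c al be d w) (hg : Lk al be g) {H : Px Q → ℝ} (hH : Mp (pJ c d) H)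
    (hH0 : ∀ S, 0 ≤ H S) (r r' : ℝ) :
    gm (w + r • g) H ≤ gm (w + r' • g) H + gm (w + r • g) (fun S => H S * gm (w + r' • g) (NM c al be d S)) := by
  have hl : Lk al be ((r - r') • g) := fun S S' h => by rw [Pi.smul_apply, Pi.smul_apply, hg S S' h]
  have h := gm_swap hab (hw.add (hg.Wk.smul r')) hl hH hH0
  have e : w + r' • g + (r - r') • g = w + r • g := by
    rw [add_assoc, ← add_smul]
    congr 2
    ring
  rwa [e] at h

/-- **THE FROZEN CORNER INEQUALITY.** `u` = the corner `w + g`, `H ≥ 0` a function of the outside `pJ c d`, `0 ≤ Φ ≤ B`. -/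
theorem frozen_corner (hab : al ≤ be) (hw : Wk c al be d w) (hl : Lk al be g) {H Φ : Px Q → ℝ} {B M : ℝ} (hH : Mp (pJ c d) H)
    (hH0 : ∀ S, 0 ≤ H S) (hΦ : ∀ S, 0 ≤ Φ S) (hB : ∀ S, Φ S ≤ B) (hg : ∀ S, |g S| ≤ M) {t δ : ℝ} (ht : |t| ≤ 1) (hδ : 0 ≤ δ) :
    gm (w + g) (H * cE (w + t • g) (pJ c d) Φ) ≤
      Real.exp (2 * δ) * (gm (w + g) (H * Φ) + (gm (w - g) (H * Φ) +
        gm (w + g) (fun S => H S * cE (w - g) (pJ c d) Φ S * gm (w - g) (NM c al be d S)))) +
      B * gm (w + g) (H * er3 (w + g) (pJ c d) g M δ) := by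
  have h := gm_corner (pJ c d) hH hH0 hΦ hB hg ht (τ := 1) (by norm_num) hδ (w := w)
  rw [one_smul] at h
  have e1 : gm (w + g) (H * cE (w + g) (pJ c d) Φ) = gm (w + g) (H * Φ) := gm_mul_cE (w + g) hH _
  have h2 := gm_swap_line hab hw hl (H := H * cE (w - g) (pJ c d) Φ) (hH.mul (cE_meas _ _ _))
    (fun S => mul_nonneg (hH0 S) (cE_nonneg _ _ hΦ S)) 1 (-1)
  rw [one_smul, neg_one_smul, ← sub_eq_add_neg, gm_mul_cE (w - g) hH Φ] at h2
  rw [e1] at h
  refine h.trans (add_le_add_left (mul_le_mul_of_nonneg_left (add_le_add_right h2 _) (Real.exp_pos _).le) _)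

end Sw

end

end Pool.W7d29a1.C0.K1
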