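import Pool.Agent.W_7d29a1_C0.CumB82
import Pool.Agent.W_7d29a1_C0.VT31B

/-!
CURV0 (MP_7d29a1_pr), helper39: SUM OVER THE ROWS FIRST, Cauchy - Schwarz after (board 70373).

`V j` is the micro functional of the row `j` (a conditional variance), `f` is only in `L^2` of the Gibbs measure (a block functional).
`|V j y - V j z| ≤ N y z (U j y + U j z)` where `N` is the indicator that the two replicas do not merge and `U j` bounds the micro
functional. Then the sum over the rows of the covariances with `f` is bounded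
* by `Λ √(PP N) √(2 Var f)` if `∑ j, U j ≤ Λ` for all paths (form CNT), and
* by `√(2 PP (N (∑ j, U j) ^ 2)) √(Var f)` in general; the double sum is a product price with bounded integrand.
No price with the weight `(f - f') ^ 2` occurs. Both forms also under an outer expectation, with a random factor for each row, and
the Hölder inequality which compares the row dependent measures with one measure.
-/

set_option autoImplicit false
set_option linter.unusedSectionVars false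
set_option linter.unusedVariables false

namespace Pool.W7d29a1.C0.Row39

open Finset MeasureTheory
open Pool.Agent.W_7d29a1_C0
open Pool.W7d29a1.C0.VT31 (gc gv gv_nonneg int_sqrt_mul_le)

noncomputable section

variable {X : Type*} [Fintype X] [Nonempty X] {ι : Type*}

/-! ### Two replicas -/

theorem gc_eq_PP (w f h : X → ℝ) : gc w f h = (1 / 2) * PP w (fun y z => (f y - f z) * (h y - h z)) :=
  gcov_eq_PP w f h

theorem PP_eq_gav (w : X → ℝ) (Q : X → X → ℝ) :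
    PP w Q = gav univ (fun q : X × X => Real.exp (w q.1) * Real.exp (w q.2)) (fun q => Q q.1 q.2) := by
  rw [PP_eq]
  unfold gav
  rw [Fintype.sum_prod_type, Fintype.sum_prod_type]
  congr 1
  unfold gz
  rw [sq, Finset.sum_mul_sum]

theorem PP_swap (w : X → ℝ) (Q : X → X → ℝ) : PP w (fun y z => Q z y) = PP w Q := by
  rw [PP_eq, PP_eq]
  congr 1
  rw [Finset.sum_comm]
  exact Finset.sum_congr rfl fun y _ => Finset.sum_congr rfl fun z _ => by ring

theorem PP_const (w : X → ℝ) (c : ℝ) : PP w (fun _ _ => c) = c := by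
  have h := PP_mul w (fun _ => c) (fun _ => 1)
  simp only [mul_one] at h
  rw [h, gm_const, gm_const, mul_one]

theorem PP_fst (w g : X → ℝ) : PP w (fun y _ => g y) = gm w g := by
  have h := PP_mul w g (fun _ => 1)
  simp only [mul_one] at h
  rw [h, gm_const, mul_one]

theorem PP_sum (w : X → ℝ) (S : Finset ι) (Q : ι → X → X → ℝ) :
    PP w (fun y z => ∑ j ∈ S, Q j y z) = ∑ j ∈ S, PP w (Q j) := by
  simp only [PP_eq_gav]
  exact gav_sum S fun (j : ι) (q : X × X) => Q j q.1 q.2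

/-- **Cauchy - Schwarz** in two replicas, any two functions. -/
theorem PP_cauchy (w : X → ℝ) (A B : X → X → ℝ) :
    PP w (fun y z => |A y z| * |B y z|) ≤
      Real.sqrt (PP w fun y z => A y z ^ 2) * Real.sqrt (PP w fun y z => B y z ^ 2) := by
  have hw : ∀ q ∈ (univ : Finset (X × X)), 0 ≤ Real.exp (w q.1) * Real.exp (w q.2) := fun q _ => by positivity
  have h1 := gav_abs_mul_le hw (fun q => A q.1 q.2) (fun q => B q.1 q.2)
  simp only [PP_eq_gav]
  rw [← Real.sqrt_mul (gav_nonneg hw fun q _ => sq_nonneg _)]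
  refine le_trans (le_of_eq ?_) h1
  congr 1
  funext q
  rw [abs_mul]

theorem PP_sq_sub (w f : X → ℝ) : PP w (fun y z => (f y - f z) ^ 2) = 2 * gv w f := by
  unfold gv
  rw [gc_eq_PP, ← mul_assoc, show (2 : ℝ) * (1 / 2) = 1 by norm_num, one_mul]
  congr 1
  funext y z
  ring

theorem abs_PP_le (w : X → ℝ) (Q : X → X → ℝ) : |PP w Q| ≤ PP w fun y z => |Q y z| := by
  simp only [PP_eq_gav]
  have hw : ∀ q ∈ (univ : Finset (X × X)), 0 ≤ Real.exp (w q.1) * Real.exp (w q.2) := fun q _ => by positivity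
  exact abs_gav_le_gav_abs hw fun q : X × X => Q q.1 q.2

theorem abs_gc_le_PP (w f h : X → ℝ) : |gc w f h| ≤ (1 / 2) * PP w (fun y z => |f y - f z| * |h y - h z|) := by
  rw [gc_eq_PP, abs_mul, abs_of_pos (by norm_num : (0 : ℝ) < 1 / 2)]
  refine mul_le_mul_of_nonneg_left ((abs_PP_le _ _).trans (le_of_eq ?_)) (by norm_num)
  congr 1
  funext y z
  exact abs_mul _ _

/-- The sum over the rows goes inside. -/
theorem sum_abs_gc_le (w : X → ℝ) (S : Finset ι) (V : ι → X → ℝ) (f : X → ℝ) :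
    ∑ j ∈ S, |gc w (V j) f| ≤ (1 / 2) * PP w (fun y z => (∑ j ∈ S, |V j y - V j z|) * |f y - f z|) := by
  refine (Finset.sum_le_sum fun j _ => abs_gc_le_PP w (V j) f).trans (le_of_eq ?_)
  rw [← Finset.mul_sum, ← PP_sum]
  congr 2
  funext y z
  rw [Finset.sum_mul]

/-- **Row sum and Cauchy - Schwarz.** -/
theorem sum_abs_gc_sqrt (w : X → ℝ) (S : Finset ι) (V : ι → X → ℝ) (f : X → ℝ) :
    ∑ j ∈ S, |gc w (V j) f| ≤
      (1 / 2) * (Real.sqrt (PP w fun y z => (∑ j ∈ S, |V j y - V j z|) ^ 2) * Real.sqrt (2 * gv w f)) := by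
  refine (sum_abs_gc_le w S V f).trans (mul_le_mul_of_nonneg_left ?_ (by norm_num))
  have h := PP_cauchy w (fun y z => ∑ j ∈ S, |V j y - V j z|) (fun y z => f y - f z)
  rw [PP_sq_sub] at h
  refine le_trans (le_of_eq ?_) h
  congr 1
  funext y z
  have h0 : 0 ≤ ∑ j ∈ S, |V j y - V j z| := Finset.sum_nonneg fun j _ => abs_nonneg _
  rw [abs_of_nonneg h0]

/-! ### The form with a uniform count (CNT) -/

section CNT

variable {w : X → ℝ} {S : Finset ι} {V U : ι → X → ℝ} {f : X → ℝ} {N : X → X → ℝ}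

/-- **Form CNT**: the micro functionals of the rows add up to at most `Λ` along every path. -/
theorem row_cnt {Λ : ℝ} (N0 : ∀ y z, 0 ≤ N y z) (N1 : ∀ y z, N y z ≤ 1)
    (hV : ∀ j ∈ S, ∀ y z, |V j y - V j z| ≤ N y z * (U j y + U j z)) (hΛ : ∀ y, ∑ j ∈ S, U j y ≤ Λ) :
    ∑ j ∈ S, |gc w (V j) f| ≤ Λ * (Real.sqrt (PP w N) * Real.sqrt (2 * gv w f)) := by
  obtain ⟨y0⟩ := ‹Nonempty X›
  have hd : ∀ y z, ∑ j ∈ S, |V j y - V j z| ≤ 2 * Λ * N y z := fun y z => by
    refine (Finset.sum_le_sum fun j hj => hV j hj y z).trans ?_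
    rw [← Finset.mul_sum, Finset.sum_add_distrib]
    have h1 := mul_le_mul_of_nonneg_left (add_le_add (hΛ y) (hΛ z)) (N0 y z)
    linarith
  by_cases hL : 0 ≤ Λ
  · refine (sum_abs_gc_le w S V f).trans ?_
    have h2 : PP w (fun y z => (∑ j ∈ S, |V j y - V j z|) * |f y - f z|) ≤
        PP w (fun y z => (2 * Λ) * (|N y z| * |f y - f z|)) := by
      refine PP_mono w fun y z => ?_
      rw [← mul_assoc, abs_of_nonneg (N0 y z)]
      exact mul_le_mul_of_nonneg_right (hd y z) (abs_nonneg _)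
    rw [PP_smul] at h2
    have h3 := PP_cauchy w N (fun y z => f y - f z)
    rw [PP_sq_sub] at h3
    have h4 : PP w (fun y z => N y z ^ 2) ≤ PP w N := PP_mono w fun y z => by nlinarith [N0 y z, N1 y z]
    have h5 := mul_le_mul_of_nonneg_right (Real.sqrt_le_sqrt h4) (Real.sqrt_nonneg (2 * gv w f))
    calc (1 / 2) * PP w (fun y z => (∑ j ∈ S, |V j y - V j z|) * |f y - f z|)
        ≤ (1 / 2) * ((2 * Λ) * PP w (fun y z => |N y z| * |f y - f z|)) := mul_le_mul_of_nonneg_left h2 (by norm_num)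
      _ = Λ * PP w (fun y z => |N y z| * |f y - f z|) := by ring
      _ ≤ Λ * (Real.sqrt (PP w N) * Real.sqrt (2 * gv w f)) := mul_le_mul_of_nonneg_left (h3.trans h5) hL
  · -- then everything vanishes
    push Not at hL
    have h6 : ∀ y z, N y z = 0 := fun y z => by
      have h7 : 0 ≤ ∑ j ∈ S, |V j y - V j z| := Finset.sum_nonneg fun j _ => abs_nonneg _
      have h8 := h7.trans (hd y z)
      by_contra h9
      have h10 : 0 < N y z := lt_of_le_of_ne (N0 y z) (Ne.symm h9)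
      nlinarith
    have h11 : ∀ j ∈ S, gc w (V j) f = 0 := fun j hj => by
      have h12 := abs_gc_le_PP w (V j) f
      have h13 : PP w (fun y z => |V j y - V j z| * |f y - f z|) = 0 := by
        rw [← PP_const w 0]
        congr 1
        funext y z
        have h14 := hV j hj y z
        rw [h6, zero_mul] at h14
        rw [le_antisymm h14 (abs_nonneg _), zero_mul]
      rw [h13, mul_zero] at h12
      exact abs_nonpos_iff.1 h12
    rw [Finset.sum_congr rfl fun j hj => by rw [h11 j hj, abs_zero]]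
    have h15 : PP w N = 0 := by
      rw [← PP_const w 0]
      congr 1
      funext y z
      exact h6 y z
    rw [Finset.sum_const_zero, h15, Real.sqrt_zero, zero_mul, mul_zero]

/-- The same with an exceptional set of paths (`B`, small probability) and an additive error. -/
theorem row_cnt_err {Λ C e : ℝ} {B : X → ℝ} (hL : 0 ≤ Λ) (hC : 0 ≤ C) (he : 0 ≤ e) (N0 : ∀ y z, 0 ≤ N y z)
    (N1 : ∀ y z, N y z ≤ 1) (B0 : ∀ y, 0 ≤ B y) (B1 : ∀ y, B y ≤ 1)
    (hV : ∀ j ∈ S, ∀ y z, |V j y - V j z| ≤ N y z * (U j y + U j z) + C * (B y + B z) + e)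
    (hΛ : ∀ y, ∑ j ∈ S, U j y ≤ Λ) :
    ∑ j ∈ S, |gc w (V j) f| ≤
      (Λ * Real.sqrt (PP w N) + (S.card : ℝ) * (C * Real.sqrt (gm w B) + e / 2)) * Real.sqrt (2 * gv w f) := by
  have hs : (0 : ℝ) ≤ S.card := Nat.cast_nonneg _
  have hd : ∀ y z, ∑ j ∈ S, |V j y - V j z| ≤ 2 * Λ * N y z + S.card * C * (B y + B z) + S.card * e := fun y z => by
    refine (Finset.sum_le_sum fun j hj => hV j hj y z).trans ?_
    rw [Finset.sum_add_distrib, Finset.sum_add_distrib, ← Finset.mul_sum, Finset.sum_add_distrib, Finset.sum_const,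
      Finset.sum_const, nsmul_eq_mul, nsmul_eq_mul]
    have h1 := mul_le_mul_of_nonneg_left (add_le_add (hΛ y) (hΛ z)) (N0 y z)
    nlinarith
  refine (sum_abs_gc_le w S V f).trans ?_
  set G : X → X → ℝ := fun y z => f y - f z with hG
  have h2 : PP w (fun y z => (∑ j ∈ S, |V j y - V j z|) * |f y - f z|) ≤
      PP w (fun y z => ((2 * Λ) * (|N y z| * |G y z|) + (S.card * C) * (|B y + B z| * |G y z|)) +
        (S.card * e) * (|(1 : ℝ)| * |G y z|)) := by
    refine PP_mono w fun y z => ?_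
    rw [abs_of_nonneg (N0 y z), abs_of_nonneg (add_nonneg (B0 y) (B0 z)), abs_one]
    have := mul_le_mul_of_nonneg_right (hd y z) (abs_nonneg (f y - f z))
    rw [hG]
    nlinarith
  rw [PP_add, PP_add, PP_smul, PP_smul, PP_smul] at h2
  have c1 := PP_cauchy w N G
  have c2 := PP_cauchy w (fun y z => B y + B z) G
  have c3 := PP_cauchy w (fun _ _ => (1 : ℝ)) G
  rw [hG, PP_sq_sub, ← hG] at c1 c2 c3
  have n1 : PP w (fun y z => N y z ^ 2) ≤ PP w N := PP_mono w fun y z => by nlinarith [N0 y z, N1 y z]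
  have n2 : PP w (fun y z => (B y + B z) ^ 2) ≤ 2 ^ 2 * gm w B := by
    have k1 : PP w (fun y z => (B y + B z) ^ 2) ≤ PP w (fun y z => 2 * B y + 2 * B z) :=
      PP_mono w fun y z => by nlinarith [B0 y, B0 z, B1 y, B1 z]
    have k2 : PP w (fun y z => 2 * B y + 2 * B z) = 2 ^ 2 * gm w B := by
      rw [PP_add w (fun y _ => 2 * B y) (fun _ z => 2 * B z), PP_smul w 2 (fun y _ => B y), PP_smul w 2 (fun _ z => B z),
        PP_fst, PP_swap w (fun y _ => B y), PP_fst]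
      ring
    exact k1.trans k2.le
  have n3 : PP w (fun _ _ => (1 : ℝ) ^ 2) = 1 := by rw [one_pow, PP_const]
  rw [n3, Real.sqrt_one, one_mul] at c3
  have gB : 0 ≤ gm w B := gm_nonneg w B0
  have s2 : Real.sqrt (PP w fun y z => (B y + B z) ^ 2) ≤ 2 * Real.sqrt (gm w B) := by
    refine (Real.sqrt_le_sqrt n2).trans (le_of_eq ?_)
    rw [Real.sqrt_mul (by norm_num), Real.sqrt_sq (by norm_num)]
  set r := Real.sqrt (2 * gv w f) with hr
  have r0 : 0 ≤ r := Real.sqrt_nonneg _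
  have d1 : PP w (fun y z => |N y z| * |G y z|) ≤ Real.sqrt (PP w N) * r :=
    c1.trans (mul_le_mul_of_nonneg_right (Real.sqrt_le_sqrt n1) r0)
  have d2 : PP w (fun y z => |B y + B z| * |G y z|) ≤ (2 * Real.sqrt (gm w B)) * r :=
    c2.trans (mul_le_mul_of_nonneg_right s2 r0)
  have e1 := mul_le_mul_of_nonneg_left d1 (by positivity : 0 ≤ 2 * Λ)
  have e2 := mul_le_mul_of_nonneg_left d2 (by positivity : 0 ≤ (S.card : ℝ) * C)
  have e3 := mul_le_mul_of_nonneg_left c3 (by positivity : 0 ≤ (S.card : ℝ) * e)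
  nlinarith

end CNT

/-! ### The form with the second moment -/

section Sec

variable {w : X → ℝ} {S : Finset ι} {V U : ι → X → ℝ} {f : X → ℝ} {N : X → X → ℝ}

/-- The second moment of the row sum, all ties on one replica. -/
theorem PP_row_sq (N0 : ∀ y z, 0 ≤ N y z) (N1 : ∀ y z, N y z ≤ 1) (hN : ∀ y z, N y z = N z y)
    (hV : ∀ j ∈ S, ∀ y z, |V j y - V j z| ≤ N y z * (U j y + U j z)) :
    PP w (fun y z => (∑ j ∈ S, |V j y - V j z|) ^ 2) ≤ 4 * PP w (fun y z => N y z * (∑ j ∈ S, U j y) ^ 2) := by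
  have h1 : ∀ y z, (∑ j ∈ S, |V j y - V j z|) ^ 2 ≤
      2 * (N y z * (∑ j ∈ S, U j y) ^ 2) + 2 * (N z y * (∑ j ∈ S, U j z) ^ 2) := fun y z => by
    have h2 : ∑ j ∈ S, |V j y - V j z| ≤ N y z * (∑ j ∈ S, U j y + ∑ j ∈ S, U j z) := by
      refine (Finset.sum_le_sum fun j hj => hV j hj y z).trans ?_
      rw [← Finset.mul_sum, Finset.sum_add_distrib]
    have h3 : 0 ≤ ∑ j ∈ S, |V j y - V j z| := Finset.sum_nonneg fun j _ => abs_nonneg _
    have h4 := pow_le_pow_left₀ h3 h2 2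
    rw [← hN y z]
    set a := ∑ j ∈ S, U j y
    set b := ∑ j ∈ S, U j z
    refine h4.trans ?_
    rw [mul_pow]
    have h5 : N y z ^ 2 ≤ N y z := by nlinarith [N0 y z, N1 y z]
    have h6 : (a + b) ^ 2 ≤ 2 * a ^ 2 + 2 * b ^ 2 := by nlinarith [sq_nonneg (a - b)]
    calc N y z ^ 2 * (a + b) ^ 2 ≤ N y z * (2 * a ^ 2 + 2 * b ^ 2) :=
          mul_le_mul h5 h6 (sq_nonneg _) (N0 y z)
      _ = _ := by ring
  refine (PP_mono w h1).trans (le_of_eq ?_)
  rw [PP_add, PP_smul, PP_smul, PP_swap w (fun y z => N y z * (∑ j ∈ S, U j y) ^ 2)]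
  ring

/-- The double sum over the rows. -/
theorem PP_row_sum (w : X → ℝ) (S : Finset ι) (U : ι → X → ℝ) (N : X → X → ℝ) :
    PP w (fun y z => N y z * (∑ j ∈ S, U j y) ^ 2) = ∑ j ∈ S, ∑ k ∈ S, PP w (fun y z => N y z * (U j y * U k y)) := by
  simp only [← PP_sum]
  congr 1
  funext y z
  rw [sq, Finset.sum_mul_sum, Finset.mul_sum]
  exact Finset.sum_congr rfl fun j _ => by rw [Finset.mul_sum]

/-- **The second moment form.** -/
theorem row_sec (N0 : ∀ y z, 0 ≤ N y z) (N1 : ∀ y z, N y z ≤ 1) (hN : ∀ y z, N y z = N z y)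
    (hV : ∀ j ∈ S, ∀ y z, |V j y - V j z| ≤ N y z * (U j y + U j z)) :
    ∑ j ∈ S, |gc w (V j) f| ≤ Real.sqrt (PP w fun y z => N y z * (∑ j ∈ S, U j y) ^ 2) * Real.sqrt (2 * gv w f) := by
  refine (sum_abs_gc_sqrt w S V f).trans ?_
  have h1 := Real.sqrt_le_sqrt (PP_row_sq (w := w) N0 N1 hN hV)
  rw [show (4 : ℝ) * PP w (fun y z => N y z * (∑ j ∈ S, U j y) ^ 2) =
    2 ^ 2 * PP w (fun y z => N y z * (∑ j ∈ S, U j y) ^ 2) by norm_num, Real.sqrt_mul (by norm_num),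
    Real.sqrt_sq (by norm_num)] at h1
  have h2 := mul_le_mul_of_nonneg_right h1 (Real.sqrt_nonneg (2 * gv w f))
  linarith

end Sec

/-! ### Under an outer expectation -/

section Out

variable {Ω : Type*} [MeasurableSpace Ω] {P : Measure Ω} {W f : Ω → X → ℝ} {S : Finset ι}

/-- The near - far splitting of a double sum of product prices. -/
theorem double_sum_le [DecidableEq ι] (S : Finset ι) (q : ι → ι → ℝ) (near : ι → Finset ι) {A B : ℝ} {H : ℕ} (hA : 0 ≤ A)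
    (hB : 0 ≤ B) (hfar : ∀ j ∈ S, ∀ k ∈ S, k ∉ near j → q j k ≤ A) (hnear : ∀ j ∈ S, ∀ k ∈ S, q j k ≤ B)
    (hcard : ∀ j ∈ S, (near j).card ≤ H) :
    ∑ j ∈ S, ∑ k ∈ S, q j k ≤ (S.card : ℝ) ^ 2 * A + S.card * (H * B) := by
  have h1 : ∀ j ∈ S, ∑ k ∈ S, q j k ≤ (S.card : ℝ) * A + H * B := fun j hj => by
    have h2 : ∀ k ∈ S, q j k ≤ A + if k ∈ near j then B else 0 := fun k hk => by
      split_ifs with h
      · have := hnear j hj k hk
        linarith
      · have := hfar j hj k hk h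
        linarith
    refine (Finset.sum_le_sum h2).trans ?_
    rw [Finset.sum_add_distrib, Finset.sum_const, nsmul_eq_mul]
    have h3 : ∑ k ∈ S, (if k ∈ near j then B else 0) ≤ H * B := by
      rw [← Finset.sum_filter, Finset.sum_const, nsmul_eq_mul]
      refine mul_le_mul_of_nonneg_right ?_ hB
      refine le_trans ?_ (Nat.cast_le.2 (hcard j hj))
      exact Nat.cast_le.2 (Finset.card_le_card fun k hk => (Finset.mem_filter.1 hk).2)
    linarith
  refine (Finset.sum_le_sum h1).trans (le_of_eq ?_)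
  rw [Finset.sum_const, nsmul_eq_mul]
  ring

/-- **Form CNT under an outer expectation**, the count holds pathwise. -/
theorem int_row_cnt {V U : ι → Ω → X → ℝ} {N : Ω → X → X → ℝ} {Λ : ℝ} (hL : 0 ≤ Λ) (N0 : ∀ ω y z, 0 ≤ N ω y z)
    (N1 : ∀ ω y z, N ω y z ≤ 1) (hV : ∀ ω, ∀ j ∈ S, ∀ y z, |V j ω y - V j ω z| ≤ N ω y z * (U j ω y + U j ω z))
    (hΛ : ∀ ω y, ∑ j ∈ S, U j ω y ≤ Λ) (hN : Integrable (fun ω => PP (W ω) (N ω)) P)
    (hf : Integrable (fun ω => gv (W ω) (f ω)) P) :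
    ∫ ω, ∑ j ∈ S, |gc (W ω) (V j ω) (f ω)| ∂P ≤
      Λ * (Real.sqrt (∫ ω, PP (W ω) (N ω) ∂P) * Real.sqrt (2 * ∫ ω, gv (W ω) (f ω) ∂P)) := by
  have PN : ∀ ω, 0 ≤ PP (W ω) (N ω) := fun ω => PP_nonneg _ (N0 ω)
  have Gf : ∀ ω, 0 ≤ 2 * gv (W ω) (f ω) := fun ω => mul_nonneg (by norm_num) (gv_nonneg _ _)
  have hf2 := hf.const_mul 2
  have h1 := int_sqrt_mul_le hN hf2 PN Gf
  rw [integral_const_mul] at h1
  have hi : Integrable (fun ω => Real.sqrt (PP (W ω) (N ω)) * Real.sqrt (2 * gv (W ω) (f ω))) P := by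
    refine Integrable.mono' ((hN.add hf2).const_mul (1 / 2)) ?_ (Filter.Eventually.of_forall fun ω => ?_)
    · exact (Real.continuous_sqrt.comp_aestronglyMeasurable hN.aestronglyMeasurable).mul
        (Real.continuous_sqrt.comp_aestronglyMeasurable hf2.aestronglyMeasurable)
    · rw [Real.norm_eq_abs, abs_of_nonneg (mul_nonneg (Real.sqrt_nonneg _) (Real.sqrt_nonneg _)), Pi.add_apply]
      nlinarith [sq_nonneg (Real.sqrt (PP (W ω) (N ω)) - Real.sqrt (2 * gv (W ω) (f ω))), Real.mul_self_sqrt (PN ω),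
        Real.mul_self_sqrt (Gf ω)]
  calc ∫ ω, ∑ j ∈ S, |gc (W ω) (V j ω) (f ω)| ∂P
      ≤ ∫ ω, Λ * (Real.sqrt (PP (W ω) (N ω)) * Real.sqrt (2 * gv (W ω) (f ω))) ∂P :=
        integral_mono_of_nonneg (Filter.Eventually.of_forall fun ω => Finset.sum_nonneg fun j _ => abs_nonneg _)
          (hi.const_mul Λ) (Filter.Eventually.of_forall fun ω => row_cnt (N0 ω) (N1 ω) (hV ω) (hΛ ω))
    _ = Λ * ∫ ω, Real.sqrt (PP (W ω) (N ω)) * Real.sqrt (2 * gv (W ω) (f ω)) ∂P := integral_const_mul _ _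
    _ ≤ _ := mul_le_mul_of_nonneg_left h1 hL

/-- **Second moment form under an outer expectation.** -/
theorem int_row_sec {V U : ι → Ω → X → ℝ} {N : Ω → X → X → ℝ} (N0 : ∀ ω y z, 0 ≤ N ω y z)
    (N1 : ∀ ω y z, N ω y z ≤ 1) (hN : ∀ ω y z, N ω y z = N ω z y)
    (hV : ∀ ω, ∀ j ∈ S, ∀ y z, |V j ω y - V j ω z| ≤ N ω y z * (U j ω y + U j ω z))
    (hU : Integrable (fun ω => PP (W ω) (fun y z => N ω y z * (∑ j ∈ S, U j ω y) ^ 2)) P)
    (hf : Integrable (fun ω => gv (W ω) (f ω)) P) :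
    ∫ ω, ∑ j ∈ S, |gc (W ω) (V j ω) (f ω)| ∂P ≤
      Real.sqrt (∫ ω, PP (W ω) (fun y z => N ω y z * (∑ j ∈ S, U j ω y) ^ 2) ∂P) *
        Real.sqrt (2 * ∫ ω, gv (W ω) (f ω) ∂P) := by
  have PN : ∀ ω, 0 ≤ PP (W ω) (fun y z => N ω y z * (∑ j ∈ S, U j ω y) ^ 2) := fun ω =>
    PP_nonneg _ fun y z => mul_nonneg (N0 ω y z) (sq_nonneg _)
  have Gf : ∀ ω, 0 ≤ 2 * gv (W ω) (f ω) := fun ω => mul_nonneg (by norm_num) (gv_nonneg _ _)
  have hf2 := hf.const_mul 2
  have h1 := int_sqrt_mul_le hU hf2 PN Gf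
  rw [integral_const_mul] at h1
  refine le_trans ?_ h1
  refine integral_mono_of_nonneg (Filter.Eventually.of_forall fun ω => Finset.sum_nonneg fun j _ => abs_nonneg _) ?_
    (Filter.Eventually.of_forall fun ω => row_sec (N0 ω) (N1 ω) (hN ω) (hV ω))
  refine Integrable.mono' ((hU.add hf2).const_mul (1 / 2)) ?_ (Filter.Eventually.of_forall fun ω => ?_)
  · exact (Real.continuous_sqrt.comp_aestronglyMeasurable hU.aestronglyMeasurable).mul
      (Real.continuous_sqrt.comp_aestronglyMeasurable hf2.aestronglyMeasurable)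
  · rw [Real.norm_eq_abs, abs_of_nonneg (mul_nonneg (Real.sqrt_nonneg _) (Real.sqrt_nonneg _)), Pi.add_apply]
    nlinarith [sq_nonneg (Real.sqrt (PP (W ω) (fun y z => N ω y z * (∑ j ∈ S, U j ω y) ^ 2)) -
      Real.sqrt (2 * gv (W ω) (f ω))), Real.mul_self_sqrt (PN ω), Real.mul_self_sqrt (Gf ω)]

end Out

/-! ### Row dependent measures: Hölder with an exponent near one -/

section Hol

variable {Ω : Type*} [MeasurableSpace Ω] {P : Measure Ω} {S : Finset ι}

theorem int_rpow_le {A : Ω → ℝ} {M p : ℝ} (hp : 1 ≤ p) (A0 : ∀ ω, 0 ≤ A ω) (AM : ∀ ω, A ω ≤ M) (hM : 0 ≤ M)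
    (hA : Integrable A P) : ∫ ω, A ω ^ p ∂P ≤ M ^ (p - 1) * ∫ ω, A ω ∂P := by
  rw [← integral_const_mul]
  refine integral_mono_of_nonneg (Filter.Eventually.of_forall fun ω => Real.rpow_nonneg (A0 ω) p) (hA.const_mul _)
    (Filter.Eventually.of_forall fun ω => ?_)
  show A ω ^ p ≤ M ^ (p - 1) * A ω
  rcases (A0 ω).eq_or_lt with h | h
  · rw [← h, Real.zero_rpow (by linarith), mul_zero]
  · have h1 : A ω ^ p = A ω ^ (p - 1) * A ω := by
      rw [← Real.rpow_add_one h.ne']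
      congr 1
      ring
    rw [h1]
    exact mul_le_mul_of_nonneg_right (Real.rpow_le_rpow h.le (AM ω) (by linarith)) h.le

/-- `∑ x_j ^ (1/p) ≤ |S| ^ (1 - 1/p) (∑ x_j) ^ (1/p)`. -/
theorem sum_root_le {x : ι → ℝ} {p : ℝ} (hp : 1 ≤ p) (x0 : ∀ j ∈ S, 0 ≤ x j) :
    ∑ j ∈ S, x j ^ (1 / p) ≤ (S.card : ℝ) ^ (1 - 1 / p) * (∑ j ∈ S, x j) ^ (1 / p) := by
  have hp0 : 0 < p := by linarith
  have h0 : 0 ≤ ∑ j ∈ S, x j ^ (1 / p) := Finset.sum_nonneg fun j hj => Real.rpow_nonneg (x0 j hj) _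
  have hs : (0 : ℝ) ≤ S.card := Nat.cast_nonneg _
  have hx : 0 ≤ ∑ j ∈ S, x j := Finset.sum_nonneg x0
  have h1 := Real.rpow_sum_le_const_mul_sum_rpow S (fun j => x j ^ (1 / p)) hp
  have e1 : ∑ j ∈ S, |x j ^ (1 / p)| = ∑ j ∈ S, x j ^ (1 / p) :=
    Finset.sum_congr rfl fun j hj => abs_of_nonneg (Real.rpow_nonneg (x0 j hj) _)
  have e2 : ∑ j ∈ S, |x j ^ (1 / p)| ^ p = ∑ j ∈ S, x j := Finset.sum_congr rfl fun j hj => by
    rw [abs_of_nonneg (Real.rpow_nonneg (x0 j hj) _), ← Real.rpow_mul (x0 j hj), one_div_mul_cancel hp0.ne',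
      Real.rpow_one]
  rw [e1, e2] at h1
  have h2 := Real.rpow_le_rpow (Real.rpow_nonneg h0 p) h1 (by positivity : (0 : ℝ) ≤ 1 / p)
  rw [← Real.rpow_mul h0, mul_one_div_cancel hp0.ne', Real.rpow_one, Real.mul_rpow (Real.rpow_nonneg hs _) hx,
    ← Real.rpow_mul hs] at h2
  have e3 : (p - 1) * (1 / p) = 1 - 1 / p := by field_simp
  rwa [e3] at h2

/-- **The row dependent densities are removed**: `∑ (E A_j^p)^(1/p) ≤ (|S| M)^(1-1/p) (∑ E A_j)^(1/p)` for `0 ≤ A_j ≤ M`. -/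
theorem sum_Lp_le {A : ι → Ω → ℝ} {M p : ℝ} (hp : 1 ≤ p) (A0 : ∀ j ∈ S, ∀ ω, 0 ≤ A j ω) (AM : ∀ j ∈ S, ∀ ω, A j ω ≤ M)
    (hM : 0 ≤ M) (hA : ∀ j ∈ S, Integrable (A j) P) :
    ∑ j ∈ S, (∫ ω, A j ω ^ p ∂P) ^ (1 / p) ≤ ((S.card : ℝ) * M) ^ (1 - 1 / p) * (∑ j ∈ S, ∫ ω, A j ω ∂P) ^ (1 / p) := by
  have hp0 : 0 < p := by linarith
  have hs : (0 : ℝ) ≤ S.card := Nat.cast_nonneg _
  have hm : 0 ≤ M ^ (p - 1) := Real.rpow_nonneg hM _
  have i0 : ∀ j ∈ S, 0 ≤ ∫ ω, A j ω ∂P := fun j hj => integral_nonneg (A0 j hj)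
  have h1 : ∀ j ∈ S, (∫ ω, A j ω ^ p ∂P) ^ (1 / p) ≤ M ^ (1 - 1 / p) * (∫ ω, A j ω ∂P) ^ (1 / p) := fun j hj => by
    have h2 := int_rpow_le hp (A0 j hj) (AM j hj) hM (hA j hj)
    have h3 := Real.rpow_le_rpow (integral_nonneg fun ω => Real.rpow_nonneg (A0 j hj ω) p) h2
      (by positivity : (0 : ℝ) ≤ 1 / p)
    rw [Real.mul_rpow hm (i0 j hj), ← Real.rpow_mul hM] at h3
    have e3 : (p - 1) * (1 / p) = 1 - 1 / p := by field_simp
    rwa [e3] at h3
  refine (Finset.sum_le_sum h1).trans ?_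
  rw [← Finset.mul_sum]
  have h4 := mul_le_mul_of_nonneg_left (sum_root_le (S := S) hp i0) (Real.rpow_nonneg hM (1 - 1 / p))
  refine h4.trans (le_of_eq ?_)
  rw [Real.mul_rpow hs hM]
  ring

end Hol

end

end Pool.W7d29a1.C0.Row39
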