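import Pool.Agent.W_7d29a1_C0.Rob45
import Pool.Agent.W_7d29a1_C0.Blk18
import Pool.Agent.W_7d29a1_C0.RowCS39

/-!
MP_7d29a1_pr, [CURV0] / [C0], leaf E2.6: THE OWN TIE TOLD FROM ONE REPLICA (helper45), pathwise part.

`Nta w q i j M S`: given `q S`, the paths which do not meet `S` in `[i, j]` have mass at least `exp (- M)`. Under the actual weights `lw` the
conditional mass given the outside of a block `[c, d)` depends on the two ends of the path only (`cE_ends`), so, given the coarser
condition `q`, there are at most `(N + 1) ^ 2` classes, and off a mass `(N + 1) ^ 2 exp (- κ)` the mass given the class is at most `exp κ`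
times the mass given `q` (`share_le`, `mI_up`). Hence (`own_le45`), at every log weight at distance at most `D` of `lw`, in a two replica mean
the own mass `mI _ (pJ c d) i j S` is at most the indicator of `Nta lw q i j (5 M + κ) S`, up to
`exp (2 D - 5 M) + exp (2 D) (N + 1) ^ 2 exp (- κ)`. This indicator is a function of the path behind `i` if `q` is.
-/

set_option autoImplicit false
set_option linter.unusedSectionVars false

namespace Pool.W7d29a1.C0.R43

open Finset MeasureTheory Pool.Agent.W_7d29a1_F Pool.Agent.W_7d29a1_X Pool.Agent.W_7d29a1_C0.Mod92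
open Pool.Agent.W_7d29a1_C0.Swap57 Pool.Agent.W_7d29a1_C0.Blk18
open Pool.Agent.W_7d29a1_HZ (gp)
open Pool.W7d29a1.C0 (gz gm lse gz_pos gz_ne gm_nonneg gm_mono gm_const gm_one PP PP_eq PP_mono PP_nonneg PP_add PP_smul)
open Pool.W7d29a1.C0.VT31
open Pool.W7d29a1.C0.Row39 (PP_fst PP_const)

noncomputable section

/-! ### Refinement of a condition by a function with few values -/

section Share

variable {X : Type*} [Fintype X] [Nonempty X] {Y β : Type*} [DecidableEq Y] [DecidableEq β]

/-- The mass of the class of `x` is at most the mass of the fibre. -/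
theorem fz_pair_le (w : X → ℝ) (q : X → Y) (r : X → β) (x : X) : fz w (fun x => (q x, r x)) x ≤ fz w q x := by
  unfold fz
  refine sum_le_sum fun x' _ => ?_
  by_cases h : (q x', r x') = (q x, r x)
  · rw [if_pos h, if_pos (congrArg Prod.fst h)]
  · rw [if_neg h]
    split_ifs
    · exact (Real.exp_pos _).le
    · exact le_rfl

open Classical in
/-- **The points in a class of small share have small mass.** -/
theorem share_le (w : X → ℝ) (q : X → Y) (r : X → β) (Bs : Finset β) (hr : ∀ x, r x ∈ Bs) {κ : ℝ} (hκ : 0 ≤ κ) :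
    gm w (fun x => if fz w (fun x => (q x, r x)) x < κ * fz w q x then 1 else 0) ≤ Bs.card * κ := by
  set p : X → Y × β := fun x => (q x, r x) with hp
  set F : X → ℝ := fun x => if fz w p x < κ * fz w q x then 1 else 0 with hF
  rw [← gm_cE w q F]
  refine (gm_mono w (g := fun _ => Bs.card * κ) fun x₀ => ?_).trans (gm_const w _).le
  unfold cE
  rw [div_le_iff₀ (fz_pos w q x₀)]
  have e1 : (∑ x, if q x = q x₀ then Real.exp (w x) * F x else 0) =
      ∑ y ∈ Bs, ∑ x, if r x = y then (if q x = q x₀ then Real.exp (w x) * F x else 0) else 0 := by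
    rw [sum_comm]
    refine sum_congr rfl fun x _ => ?_
    rw [sum_ite_eq, if_pos (hr x)]
  rw [e1]
  have h1 : ∀ y ∈ Bs, (∑ x, if r x = y then (if q x = q x₀ then Real.exp (w x) * F x else 0) else 0) ≤ κ * fz w q x₀ := by
    intro y _
    by_cases hex : ∃ x, r x = y ∧ q x = q x₀ ∧ fz w p x < κ * fz w q x
    · obtain ⟨x₁, hx1, hx2, hx3⟩ := hex
      have h2 : fz w q x₁ = fz w q x₀ := fz_meas w q _ _ hx2
      rw [h2] at hx3
      refine le_trans ?_ hx3.le
      unfold fz
      refine sum_le_sum fun x _ => ?_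
      by_cases h3 : r x = y
      · by_cases h4 : q x = q x₀
        · rw [if_pos h3, if_pos h4, if_pos (show p x = p x₁ from Prod.ext (h4.trans hx2.symm) (h3.trans hx1.symm))]
          have h5 : F x ≤ 1 := by
            rw [hF]
            simp only
            split_ifs <;> norm_num
          calc Real.exp (w x) * F x ≤ Real.exp (w x) * 1 := mul_le_mul_of_nonneg_left h5 (Real.exp_pos _).le
            _ = _ := mul_one _
        · rw [if_pos h3, if_neg h4]
          split_ifs
          · exact (Real.exp_pos _).le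
          · exact le_rfl
      · rw [if_neg h3]
        split_ifs
        · exact (Real.exp_pos _).le
        · exact le_rfl
    · refine le_trans (le_of_eq (sum_eq_zero fun x _ => ?_)) (mul_nonneg hκ (fz_pos w q x₀).le)
      by_cases h3 : r x = y
      · by_cases h4 : q x = q x₀
        · rw [if_pos h3, if_pos h4, hF]
          simp only
          rw [if_neg fun h5 => hex ⟨x, h3, h4, h5⟩, mul_zero]
        · rw [if_pos h3, if_neg h4]
      · rw [if_neg h3]
  refine (sum_le_sum h1).trans (le_of_eq ?_)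
  rw [sum_const, nsmul_eq_mul]
  ring

/-- The conditional mean of a nonnegative function given a class, against the one given the fibre. -/
theorem cE_pair_le (w : X → ℝ) (q : X → Y) (r : X → β) {f : X → ℝ} (hf : ∀ x, 0 ≤ f x) {κ : ℝ} (x : X)
    (hκ : κ * fz w q x ≤ fz w (fun x => (q x, r x)) x) : κ * cE w (fun x => (q x, r x)) f x ≤ cE w q f x := by
  have h1 := fz_pos w q x
  have h2 := fz_pos w (fun x => (q x, r x)) x
  unfold cE
  rw [le_div_iff₀ h1]
  have h3 : (∑ x', if (q x', r x') = (q x, r x) then Real.exp (w x') * f x' else 0) ≤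
      ∑ x', if q x' = q x then Real.exp (w x') * f x' else 0 := by
    refine sum_le_sum fun x' _ => ?_
    by_cases h : (q x', r x') = (q x, r x)
    · rw [if_pos h, if_pos (congrArg Prod.fst h)]
    · rw [if_neg h]
      split_ifs
      · exact mul_nonneg (Real.exp_pos _).le (hf x')
      · exact le_rfl
  have h4 : 0 ≤ ∑ x', if (q x', r x') = (q x, r x) then Real.exp (w x') * f x' else 0 := by
    refine sum_nonneg fun x' _ => ?_
    split_ifs
    · exact mul_nonneg (Real.exp_pos _).le (hf x')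
    · exact le_rfl
  refine le_trans ?_ h3
  calc κ * ((∑ x', if (q x', r x') = (q x, r x) then Real.exp (w x') * f x' else 0) / fz w (fun x => (q x, r x)) x) * fz w q x =
        (κ * fz w q x / fz w (fun x => (q x, r x)) x) *
          (∑ x', if (q x', r x') = (q x, r x) then Real.exp (w x') * f x' else 0) := by ring
    _ ≤ 1 * (∑ x', if (q x', r x') = (q x, r x) then Real.exp (w x') * f x' else 0) := by
        refine mul_le_mul_of_nonneg_right ?_ h4
        rw [div_le_one h2]
        exact hκ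
    _ = _ := one_mul _

end Share

/-! ### The law of a block depends on the ends -/

section Ends

variable {μ : Measure ℝ} {s : ℝ} {N : ℕ} {Q : Finset (Finset ℕ)} [Nonempty (Px Q)] {c d : ℕ}

/-- A conditional mean, given the outside of the block `[c, d)`, of a functional of the path over the block, depends on the two
positions at the ends only. -/
theorem cE_ends (hQ : Full N Q) (η : Env) (hcd : c ≤ d) (hd : d ≤ N) {f : Px Q → ℝ}
    (hf : ∀ S S' : Px Q, (∀ t, c ≤ t → t ≤ d → ps S t = ps S' t) → f S = f S') {S S' : Px Q} (h1 : ps S c = ps S' c)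
    (h2 : ps S d = ps S' d) : cE (lw μ s η N Q) (pJ c d) f S = cE (lw μ s η N Q) (pJ c d) f S' := by
  rw [blk18 hQ η hcd hd S f, blk18 hQ η hcd hd S' f, h1, h2]
  refine sum_congr rfl fun T hT => ?_
  rw [mem_powerset] at hT
  by_cases hc : pos T (d - c) = ps S' d - ps S' c
  · congr 1
    refine hf _ _ fun t ht1 ht2 => ?_
    obtain ⟨k, rfl⟩ : ∃ k, t = c + k := ⟨t - c, by omega⟩
    rw [ps_splP_mid hQ hcd hd S hT (by rw [hc, h1, h2]) ht2, ps_splP_mid hQ hcd hd S' hT hc ht2, h1]
  · unfold gp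
    rw [if_neg hc, zero_mul, zero_mul]

variable {Y : Type*} [DecidableEq Y]

/-- The two ends of the block. -/
def en (c d : ℕ) (S : Px Q) : ℤ × ℤ := (ps S c, ps S d)

theorem en_mem (hc : c ≤ N) (hd : d ≤ N) (S : Px Q) : en c d S ∈ (Icc (0 : ℤ) N) ×ˢ (Icc (0 : ℤ) N) := by
  unfold en
  rw [mem_product, mem_Icc, mem_Icc]
  refine ⟨⟨ps_nonneg S _, (ps_le S _).trans (by exact_mod_cast hc)⟩, ⟨ps_nonneg S _, (ps_le S _).trans (by exact_mod_cast hd)⟩⟩

/-- A conditional mean of a functional of the path over the block, given the coarse condition and the ends, is the one given the outside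
of the block. -/
theorem cE_class (hQ : Full N Q) (η : Env) {q : Px Q → Y} (hq : Crs q (pJ c d)) (hcd : c ≤ d) (hd : d ≤ N) {f : Px Q → ℝ}
    (hf : ∀ S S' : Px Q, (∀ t, c ≤ t → t ≤ d → ps S t = ps S' t) → f S = f S') (S : Px Q) :
    cE (lw μ s η N Q) (fun S => (q S, en c d S)) f S = cE (lw μ s η N Q) (pJ c d) f S := by
  classical
  set w := lw μ s η N Q with hw
  have hc : Crs (fun S : Px Q => (q S, en c d S)) (pJ c d) := fun S S' h => by
    refine Prod.ext (hq S S' h) ?_
    show en c d S = en c d S'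
    unfold en
    rw [ps_of_le h le_rfl, ps_of_ge h le_rfl]
  have h1 : ∀ T : Px Q, (q T, en c d T) = (q S, en c d S) → cE w (pJ c d) f T = cE w (pJ c d) f S := fun T hT => by
    have h2 : en c d T = en c d S := congrArg Prod.snd hT
    exact cE_ends hQ η hcd hd hf (congrArg Prod.fst h2) (congrArg Prod.snd h2)
  rw [← cE_tower w hc f]
  have h3 := fz_pos w (fun S : Px Q => (q S, en c d S)) S
  rw [show cE w (fun S => (q S, en c d S)) (cE w (pJ c d) f) S =
    (∑ T, if (q T, en c d T) = (q S, en c d S) then Real.exp (w T) * cE w (pJ c d) f T else 0) /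
      fz w (fun S => (q S, en c d S)) S from rfl]
  rw [div_eq_iff h3.ne']
  unfold fz
  rw [mul_sum]
  refine sum_congr rfl fun T _ => ?_
  by_cases hT : (q T, en c d T) = (q S, en c d S)
  · rw [if_pos hT, if_pos hT, h1 T hT]
    ring
  · rw [if_neg hT, if_neg hT, mul_zero]

theorem NI_over {i j : ℕ} (hi : c ≤ i) (hj : j ≤ d) (S T T' : Px Q) (h : ∀ t, c ≤ t → t ≤ d → ps T t = ps T' t) :
    NI i j S T = NI i j S T' ∧ NI i j T S = NI i j T' S := by
  unfold NI
  constructor
  · refine if_congr (forall_congr' fun k => ?_) rfl rfl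
    refine imp_congr_right fun h1 => imp_congr_right fun h2 => ?_
    rw [h k (hi.trans h1) (h2.trans hj)]
  · refine if_congr (forall_congr' fun k => ?_) rfl rfl
    refine imp_congr_right fun h1 => imp_congr_right fun h2 => ?_
    rw [h k (hi.trans h1) (h2.trans hj)]

/-- The mass given the outside of the block is the mass given the coarse condition and the ends. -/
theorem mI_class (hQ : Full N Q) (η : Env) {q : Px Q → Y} (hq : Crs q (pJ c d)) (hcd : c ≤ d) (hd : d ≤ N) {i j : ℕ} (hi : c ≤ i)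
    (hj : j ≤ d) (S : Px Q) :
    cE (lw μ s η N Q) (fun S => (q S, en c d S)) (NI i j S) S = mI (lw μ s η N Q) (pJ c d) i j S :=
  cE_class hQ η hq hcd hd (fun T T' h => (NI_over hi hj S T T' h).1) S

/-- The mass of the alternatives of a path given the outside of the block depends on the path over the block. -/
theorem mI_over (hQ : Full N Q) (η : Env) (hcd : c ≤ d) (hd : d ≤ N) {i j : ℕ} (hi : c ≤ i) (hj : j ≤ d) (T T' : Px Q)
    (h : ∀ t, c ≤ t → t ≤ d → ps T t = ps T' t) : mI (lw μ s η N Q) (pJ c d) i j T = mI (lw μ s η N Q) (pJ c d) i j T' := by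
  unfold mI
  have e1 : NI i j T = NI i j T' := funext fun U => (NI_over hi hj U T T' h).2
  rw [e1]
  exact cE_ends hQ η hcd hd (fun U U' hU => (NI_over hi hj T' U U' hU).1) (h c le_rfl hcd) (h d hcd le_rfl)

/-- The same for the pairs. -/
theorem pair_class (hQ : Full N Q) (η : Env) {q : Px Q → Y} (hq : Crs q (pJ c d)) (hcd : c ≤ d) (hd : d ≤ N) {i j : ℕ} (hi : c ≤ i)
    (hj : j ≤ d) (S : Px Q) :
    cE (lw μ s η N Q) (fun S => (q S, en c d S)) (mI (lw μ s η N Q) (pJ c d) i j) S =
      cE (lw μ s η N Q) (pJ c d) (mI (lw μ s η N Q) (pJ c d) i j) S :=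
  cE_class hQ η hq hcd hd (mI_over hQ η hcd hd hi hj) S

end Ends

/-! ### The own tie told from the path itself -/

section Own

variable {μ : Measure ℝ} {s : ℝ} {N : ℕ} {Q : Finset (Finset ℕ)} [Nonempty (Px Q)] {c d : ℕ}
variable {Y : Type*} [DecidableEq Y]

/-- Given `q S`, the paths which do not meet `S` in `[i, j]` have mass at least `exp (- M)`. -/
def Nta (w : Px Q → ℝ) (q : Px Q → Y) (i j : ℕ) (M : ℝ) (S : Px Q) : Prop := Real.exp (-M) ≤ mI w q i j S

/-- The class of the ends has a small share given `q`. -/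
def Sml (w : Px Q → ℝ) (q : Px Q → Y) (c d : ℕ) (κ : ℝ) (S : Px Q) : Prop :=
  fz w (fun S : Px Q => (q S, en c d S)) S < Real.exp (-κ) * fz w q S

/-- **The event told from the path itself**: the mass given the outside of the block against the mass given `q`. -/
theorem nta_of (hQ : Full N Q) (η : Env) {q : Px Q → Y} (hq : Crs q (pJ c d)) (hcd : c ≤ d) (hd : d ≤ N) {i j : ℕ} (hi : c ≤ i)
    (hj : j ≤ d) {M κ : ℝ} {S : Px Q} (h1 : ¬ Sml (lw μ s η N Q) q c d κ S) (h2 : Nta (lw μ s η N Q) (pJ c d) i j M S) :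
    Nta (lw μ s η N Q) q i j (M + κ) S := by
  unfold Sml at h1
  rw [not_lt] at h1
  have h3 := cE_pair_le (lw μ s η N Q) q (en c d) (f := NI i j S) (fun T => NI_nonneg i j S T) S h1
  rw [mI_class hQ η hq hcd hd hi hj S] at h3
  unfold Nta at h2 ⊢
  refine le_trans ?_ h3
  have h4 := mul_le_mul_of_nonneg_left h2 (Real.exp_pos (-κ)).le
  rw [← Real.exp_add] at h4
  refine le_trans (le_of_eq ?_) h4
  congr 1
  ring

open Classical in
theorem sml_le (η : Env) (q : Px Q → Y) (hc : c ≤ N) (hd : d ≤ N) (κ : ℝ) :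
    gm (lw μ s η N Q) (fun S => if Sml (lw μ s η N Q) q c d κ S then 1 else 0) ≤ (N + 1 : ℝ) ^ 2 * Real.exp (-κ) := by
  have h := share_le (lw μ s η N Q) q (en c d) ((Icc (0 : ℤ) N) ×ˢ (Icc (0 : ℤ) N)) (fun S => en_mem hc hd S)
    (Real.exp_pos (-κ)).le
  refine h.trans (le_of_eq ?_)
  rw [card_product, Int.card_Icc]
  have e : ((N : ℤ) + 1 - 0).toNat = N + 1 := by omega
  rw [e]
  push_cast
  ring

/-- The conditional mass at a weight at distance at most `D`, pathwise. -/
theorem mI_le45 (hQ : Full N Q) (η : Env) {A : Px Q → ℝ} {D : ℝ} (hA : ∀ S, |A S| ≤ D) {q : Px Q → Y} (hq : Crs q (pJ c d))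
    (hcd : c ≤ d) (hd : d ≤ N) {i j : ℕ} (hi : c ≤ i) (hj : j ≤ d) (M κ : ℝ) (S : Px Q)
    [Decidable (Nta (lw μ s η N Q) q i j (M + κ) S)] [Decidable (Sml (lw μ s η N Q) q c d κ S)] :
    mI (lw μ s η N Q + A) (pJ c d) i j S ≤ (if Nta (lw μ s η N Q) q i j (M + κ) S then 1 else 0) +
      ((if Sml (lw μ s η N Q) q c d κ S then 1 else 0) + Real.exp (2 * D - M)) := by
  have h0 := mI_le_one (lw μ s η N Q + A) (pJ c d) i j S
  have he := (Real.exp_pos (2 * D - M)).le
  by_cases h1 : Nta (lw μ s η N Q) (pJ c d) i j M S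
  · by_cases h2 : Sml (lw μ s η N Q) q c d κ S
    · rw [if_pos h2]
      split_ifs <;> linarith
    · rw [if_pos (nta_of hQ η hq hcd hd hi hj h2 h1)]
      split_ifs <;> linarith
  · unfold Nta at h1
    rw [not_le] at h1
    have h2 := mI_tilt (w := lw μ s η N Q) hA (pJ c d) i j S
    have h3 : mI (lw μ s η N Q + A) (pJ c d) i j S ≤ Real.exp (2 * D - M) := by
      refine h2.trans ((mul_le_mul_of_nonneg_left h1.le (Real.exp_pos _).le).trans (le_of_eq ?_))
      rw [← Real.exp_add]
      congr 1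
    split_ifs <;> linarith

open Classical in
/-- A functional `V` of a path which is at most the indicator of an event up to a small error and the small classes. -/
theorem pp_sml45 (η : Env) {A : Px Q → ℝ} {D : ℝ} (hA : ∀ S, |A S| ≤ D) (q : Px Q → Y) (hc : c ≤ N) (hd : d ≤ N) (κ : ℝ) {e : ℝ}
    (he : 0 ≤ e) {V : Px Q → ℝ} {E : Px Q → Prop}
    (hV : ∀ S, V S ≤ (if E S then 1 else 0) + ((if Sml (lw μ s η N Q) q c d κ S then 1 else 0) + e)) {F : Px Q → Px Q → ℝ} {Λ : ℝ}
    (hF0 : ∀ S S', 0 ≤ F S S') (hF : ∀ S S', F S S' ≤ Λ) :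
    PP (lw μ s η N Q + A) (fun S S' => V S * F S S') ≤
      PP (lw μ s η N Q + A) (fun S S' => (if E S then 1 else 0) * F S S') +
        Λ * (Real.exp (2 * D) * ((N + 1 : ℝ) ^ 2 * Real.exp (-κ)) + e) := by
  set w := lw μ s η N Q with hw
  obtain ⟨S₀⟩ : Nonempty (Px Q) := inferInstance
  have hΛ : 0 ≤ Λ := (hF0 S₀ S₀).trans (hF S₀ S₀)
  have h1 : ∀ S S', V S * F S S' ≤ (if E S then 1 else 0) * F S S' + (Λ * (if Sml w q c d κ S then 1 else 0) + Λ * e) :=
    fun S S' => by
    have h3 : 0 ≤ (if Sml w q c d κ S then (1 : ℝ) else 0) + e := by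
      split_ifs <;> linarith
    calc V S * F S S' ≤ ((if E S then 1 else 0) + ((if Sml w q c d κ S then 1 else 0) + e)) * F S S' :=
          mul_le_mul_of_nonneg_right (hV S) (hF0 S S')
      _ = (if E S then 1 else 0) * F S S' + ((if Sml w q c d κ S then 1 else 0) + e) * F S S' := by ring
      _ ≤ (if E S then 1 else 0) * F S S' + ((if Sml w q c d κ S then 1 else 0) + e) * Λ :=
        add_le_add le_rfl (mul_le_mul_of_nonneg_left (hF S S') h3)
      _ = _ := by ring
  refine (PP_mono _ h1).trans ?_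
  rw [PP_add, PP_add, PP_const, PP_smul, PP_fst (w + A) fun S => if Sml w q c d κ S then (1 : ℝ) else 0]
  have h4 : gm (w + A) (fun S => if Sml w q c d κ S then (1 : ℝ) else 0) ≤ Real.exp (2 * D) * ((N + 1 : ℝ) ^ 2 * Real.exp (-κ)) :=
    (gm_tilt43 hA fun S => by split_ifs <;> norm_num).trans
      (mul_le_mul_of_nonneg_left (sml_le η q hc hd κ) (Real.exp_pos _).le)
  have h5 := mul_le_mul_of_nonneg_left h4 hΛ
  linarith

open Classical in
/-- **The own mass in a two replica mean**, at every weight at distance at most `D` of `lw`: it is replaced by the indicator of `Nta`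
of the path itself. -/
theorem own_le45 (hQ : Full N Q) (η : Env) {A : Px Q → ℝ} {D : ℝ} (hA : ∀ S, |A S| ≤ D) {q : Px Q → Y} (hq : Crs q (pJ c d))
    (hcd : c ≤ d) (hd : d ≤ N) {i j : ℕ} (hi : c ≤ i) (hj : j ≤ d) (M κ : ℝ) {F : Px Q → Px Q → ℝ} {Λ : ℝ}
    (hF0 : ∀ S S', 0 ≤ F S S') (hF : ∀ S S', F S S' ≤ Λ) :
    PP (lw μ s η N Q + A) (fun S S' => mI (lw μ s η N Q + A) (pJ c d) i j S * F S S') ≤
      PP (lw μ s η N Q + A) (fun S S' => (if Nta (lw μ s η N Q) q i j (M + κ) S then 1 else 0) * F S S') +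
        Λ * (Real.exp (2 * D) * ((N + 1 : ℝ) ^ 2 * Real.exp (-κ)) + Real.exp (2 * D - M)) :=
  pp_sml45 η hA q (hcd.trans hd) hd κ (Real.exp_pos _).le
    (fun S => mI_le45 (μ := μ) (s := s) hQ η hA hq hcd hd hi hj M κ S) hF0 hF

/-- **The event for the averaged own mass**: the pairs given the outside of the block against the pairs averaged given `q`. -/
theorem tauM_of (hQ : Full N Q) (η : Env) {q : Px Q → Y} (hq : Crs q (pJ c d)) (hcd : c ≤ d) (hd : d ≤ N) {i j : ℕ} (hi : c ≤ i)
    (hj : j ≤ d) {M κ : ℝ} {S : Px Q} (h1 : ¬ Sml (lw μ s η N Q) q c d κ S) (h2 : Tau (lw μ s η N Q) (pJ c d) i j M S) :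
    TauM (lw μ s η N Q) q (pJ c d) i j (M + κ / 5) S := by
  unfold Sml at h1
  rw [not_lt] at h1
  have h3 := cE_pair_le (lw μ s η N Q) q (en c d) (f := mI (lw μ s η N Q) (pJ c d) i j) (fun T => mI_nonneg _ _ _ _ _) S h1
  rw [pair_class hQ η hq hcd hd hi hj S] at h3
  unfold Tau at h2
  rw [cE2_mI] at h2
  unfold TauM
  refine le_trans ?_ h3
  have h4 := mul_le_mul_of_nonneg_left h2 (Real.exp_pos (-κ)).le
  rw [← Real.exp_add] at h4
  refine le_trans (le_of_eq ?_) h4
  congr 1
  ring

theorem cE_mI_le_one (w : Px Q → ℝ) (p : Px Q → Y) {Y' : Type*} [DecidableEq Y'] (p' : Px Q → Y') (i j : ℕ) (S : Px Q) :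
    cE w p (mI w p' i j) S ≤ 1 := by
  have h1 := cE_mono w p (f := mI w p' i j) (g := fun _ => 1) (fun T => mI_le_one _ _ _ _ _) S
  rwa [congrFun (cE_one w p) S] at h1

/-- The averaged own mass at a weight at distance at most `D`, pathwise. -/
theorem cE_mI_le45 (hQ : Full N Q) (η : Env) {A : Px Q → ℝ} {D : ℝ} (hA : ∀ S, |A S| ≤ D) {q : Px Q → Y} (hq : Crs q (pJ c d))
    (hcd : c ≤ d) (hd : d ≤ N) {i j : ℕ} (hi : c ≤ i) (hj : j ≤ d) (M κ : ℝ) (S : Px Q)
    [Decidable (TauM (lw μ s η N Q) q (pJ c d) i j (M + κ / 5) S)] [Decidable (Sml (lw μ s η N Q) q c d κ S)] :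
    cE (lw μ s η N Q + A) (pJ c d) (mI (lw μ s η N Q + A) (pJ c d) i j) S ≤
      (if TauM (lw μ s η N Q) q (pJ c d) i j (M + κ / 5) S then 1 else 0) +
      ((if Sml (lw μ s η N Q) q c d κ S then 1 else 0) + Real.exp (4 * D - 5 * M)) := by
  classical
  have h0 := cE_mI_le_one (lw μ s η N Q + A) (pJ c d) (pJ c d) i j S
  have he := (Real.exp_pos (4 * D - 5 * M)).le
  by_cases h1 : Tau (lw μ s η N Q) (pJ c d) i j M S
  · by_cases h2 : Sml (lw μ s η N Q) q c d κ S
    · rw [if_pos h2]
      split_ifs <;> linarith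
    · rw [if_pos (tauM_of hQ η hq hcd hd hi hj h2 h1)]
      split_ifs <;> linarith
  · have h3 := cE_mI_tau (w := lw μ s η N Q) hA (pJ c d) (pJ c d) i j M S
    rw [if_neg fun h4 => h1 ((tauM_self _ _ _ _ _ _).1 h4), zero_add] at h3
    split_ifs <;> linarith

open Classical in
/-- **The averaged own mass in a two replica mean.** -/
theorem own_avg45 (hQ : Full N Q) (η : Env) {A : Px Q → ℝ} {D : ℝ} (hA : ∀ S, |A S| ≤ D) {q : Px Q → Y} (hq : Crs q (pJ c d))
    (hcd : c ≤ d) (hd : d ≤ N) {i j : ℕ} (hi : c ≤ i) (hj : j ≤ d) (M κ : ℝ) {F : Px Q → Px Q → ℝ} {Λ : ℝ}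
    (hF0 : ∀ S S', 0 ≤ F S S') (hF : ∀ S S', F S S' ≤ Λ) :
    PP (lw μ s η N Q + A) (fun S S' => cE (lw μ s η N Q + A) (pJ c d) (mI (lw μ s η N Q + A) (pJ c d) i j) S * F S S') ≤
      PP (lw μ s η N Q + A) (fun S S' => (if TauM (lw μ s η N Q) q (pJ c d) i j (M + κ / 5) S then 1 else 0) * F S S') +
        Λ * (Real.exp (2 * D) * ((N + 1 : ℝ) ^ 2 * Real.exp (-κ)) + Real.exp (4 * D - 5 * M)) := by
  refine pp_sml45 η hA q (hcd.trans hd) hd κ (Real.exp_pos _).le (fun S => ?_) hF0 hF
  exact cE_mI_le45 (μ := μ) (s := s) hQ η hA hq hcd hd hi hj M κ S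

/-- **The passenger of `Nta`.** -/
theorem nta_tilt {w w' : Px Q → ℝ} {D : ℝ} (hA : ∀ x, |w' x - w x| ≤ D) {q : Px Q → Y} {i j : ℕ} {M M' : ℝ}
    {S : Px Q} (hM : M + 2 * D ≤ M') (h : Nta w q i j M S) : Nta w' q i j M' S := by
  have h1 := mI_tilt (w := w') (A := w - w') (D := D) (fun x => by
    rw [Pi.sub_apply, abs_sub_comm]
    exact hA x) q i j S
  rw [add_sub_cancel] at h1
  have h2 : Real.exp (-M) ≤ Real.exp (2 * D) * mI w' q i j S := le_trans h h1
  unfold Nta
  have h3 : Real.exp (-M') ≤ Real.exp (-(2 * D)) * Real.exp (-M) := by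
    rw [← Real.exp_add]
    exact Real.exp_le_exp.2 (by linarith)
  refine h3.trans ?_
  calc Real.exp (-(2 * D)) * Real.exp (-M) ≤ Real.exp (-(2 * D)) * (Real.exp (2 * D) * mI w' q i j S) :=
        mul_le_mul_of_nonneg_left h2 (Real.exp_pos _).le
    _ = mI w' q i j S := by
        rw [← mul_assoc, ← Real.exp_add, neg_add_cancel, Real.exp_zero, one_mul]

/-- `Nta` is a function of the path behind the row `m ≤ i` if `q` is. -/
theorem nta_behind {w : Px Q → ℝ} {q : Px Q → Y} {i j m : ℕ} (hm : m ≤ i) {M : ℝ} {S S' : Px Q} (h1 : ps S m = ps S' m)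
    (h2 : S.1 \ range m = S'.1 \ range m) (hq : q S = q S') : Nta w q i j M S ↔ Nta w q i j M S' := by
  have h3 : ∀ k, m ≤ k → ps S k = ps S' k := fun k hk => by
    have e1 := pos_split S.1 hk
    have e2 := pos_split S'.1 hk
    have e3 : S.1 ∩ Ico m k = S'.1 ∩ Ico m k := by
      ext t
      have := congrArg (fun V => t ∈ V) h2
      simp only [mem_sdiff, mem_range, eq_iff_iff] at this
      rw [mem_inter, mem_inter, mem_Ico]
      constructor
      · rintro ⟨a1, a2, a3⟩
        exact ⟨(this.1 ⟨a1, by omega⟩).1, a2, a3⟩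
      · rintro ⟨a1, a2, a3⟩
        exact ⟨(this.2 ⟨a1, by omega⟩).1, a2, a3⟩
    unfold ps at h1 ⊢
    rw [e1, e2, h1, e3]
  have h4 : NI i j S = NI i j S' := by
    funext T
    unfold NI
    refine if_congr (forall_congr' fun k => ?_) rfl rfl
    refine imp_congr_right fun a1 => imp_congr_right fun _ => ?_
    rw [h3 k (hm.trans a1)]
  unfold Nta mI
  rw [h4, cE_meas w q _ _ _ hq]

open Classical in
/-- **Markov for `Nta`**: the paths with `Nta` and without the near tie `NT`. -/
theorem nta_nt (w : Px Q → ℝ) (q : Px Q → Y) (i j : ℕ) (M : ℝ) (NT : Px Q → Prop) :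
    gm w (fun S => if Nta w q i j M S ∧ ¬ NT S then 1 else 0) ≤
      Real.exp M * gm w (fun S => cE w q (fun T => NI i j S T * (if NT S then 0 else 1)) S) := by
  have h1 : ∀ S : Px Q, (if Nta w q i j M S ∧ ¬ NT S then (1 : ℝ) else 0) ≤
      (Real.exp M • fun S : Px Q => cE w q (fun T => NI i j S T * (if NT S then 0 else 1)) S) S := fun S => by
    show _ ≤ Real.exp M * cE w q (fun T => NI i j S T * (if NT S then 0 else 1)) S
    have h0 : 0 ≤ cE w q (fun T => NI i j S T * (if NT S then (0 : ℝ) else 1)) S :=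
      cE_nonneg _ _ (fun T => mul_nonneg (NI_nonneg _ _ _ _) (by split_ifs <;> norm_num)) _
    by_cases h : Nta w q i j M S ∧ ¬ NT S
    · have e1 : (fun T => NI i j S T * (if NT S then (0 : ℝ) else 1)) = NI i j S := by
        funext T
        rw [if_neg h.2, mul_one]
      rw [if_pos h, e1]
      have h2 := mul_le_mul_of_nonneg_left h.1 (Real.exp_pos M).le
      rwa [← Real.exp_add, add_neg_cancel, Real.exp_zero] at h2
    · rw [if_neg h]
      exact mul_nonneg (Real.exp_pos _).le h0
  refine (gm_mono w h1).trans (le_of_eq ?_)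
  exact Pool.W7d29a1.C0.gm_smul w _ _

end Own

end

end Pool.W7d29a1.C0.R43
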