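import Pool.Agent.W_7d29a1_C0.EvT50

/-!
MP_7d29a1_pr, [CURV0] / [C0], leaf (T): PRICES OF THE EVENTS OF `EvT50`. (helper50)

`tau_rpP`: in the plan of the own pair the event `TauM` is replaced by `RpM`: the path has an alternative of mass more than
`exp (- 7 M)` in one of the `6 q` pieces of the window (`tau_rp` of `Rob43B`). `rare_le50`: the price `rare50` of the paths out of the
cone and of the bad environments, from `gw50` and `locM18`.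
-/

set_option autoImplicit false
set_option linter.unusedSectionVars false

namespace Pool.Agent.W_7d29a1_C0.EvT50

open Finset MeasureTheory Filter Topology Pool.Agent.W_7d29a1_F Pool.Agent.W_7d29a1_X Pool.Agent.W_7d29a1_C0.Mod92
open Pool.Agent.W_7d29a1_H (sl)
open Pool.Agent.W_7d29a1_HS (In wd)
open Pool.Agent.W_7d29a1_HZ (NSp wd' gp)
open Pool.Agent.W_7d29a1_C0.Swap57
open Pool.W7d29a1.C0 (gz gm gm_mono gm_const gm_nonneg)
open Pool.W7d29a1.C0.VT31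
open Pool.W7d29a1.C0.R43
open Pool.W7d29a1.C0.H27 (pB slb)
open Pool.Agent.W_7d29a1_C0.LocM18 (Cn Cna Ns LocB locM18 Cna_of Ns_iff pce_self)
open Pool.Agent.W_7d29a1_C0.Blk18 (Full full_Fr full_Pn)
open Pool.Agent.W_7d29a1_C0.GwA50 (GwW gw50)
open Pool.W7d29a1.C0.H7 (Pok)
open Pool.Agent.W_7d29a1_C0.T72 (Rb72 crs_pB72 Sp72 ind72 ind72_nonneg ind72_le_one meas_ind72 meas_chi3 chi3_nonneg chi3_le
  marg_P3)
open Pool.Agent.W_7d29a1_C0.CutT57 (chi3 P3)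
open Pool.W7d29a1.C0.H7 (E0X meas_evP)
open Pool.W7d29a1.C0.I52 (ev ev_mono ev_nonneg ev_smul ev_add ev_const)

noncomputable section

variable {μ : Measure ℝ} {s : ℝ} {N : ℕ} {Q : Finset (Finset ℕ)}

/-! ### From the near ties to the alternatives of one path -/

/-- The path has an alternative in one of the pieces of one of the two sides of the window of the row `j`. -/
def RpM {Y : Type*} [DecidableEq Y] (w : Px Q → ℝ) (p : Px Q → Y) (b j l q : ℕ) (M : ℝ) (S : Px Q) : Prop :=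
  Rp w p (j - b) l q M S ∨ Rp w p j l q M S

section RpS

variable [Nonempty (Px Q)] {Y : Type*} [DecidableEq Y]

omit [Nonempty (Px Q)] in
theorem meas_Rp50 (p : Px Q → Y) (τ l q : ℕ) (M : ℝ) (S : Px Q) :
    MeasurableSet {ω : Env × Finset ℕ | Rp (wm μ s N Q ω) p τ l q M S} := by
  have e : {ω : Env × Finset ℕ | Rp (wm μ s N Q ω) p τ l q M S} = ⋃ n : ℕ, ⋃ _ : n < 3 * q,
      {ω : Env × Finset ℕ | Real.exp (-(7 * M)) < mI (wm μ s N Q ω) p (st τ l n) (st τ l n + l) S} := by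
    ext ω
    simp only [Set.mem_iUnion]
    constructor
    · rintro ⟨n, h1, h2⟩
      exact ⟨n, h1, h2⟩
    · rintro ⟨n, h1, h2⟩
      exact ⟨n, h1, h2⟩
  rw [e]
  refine MeasurableSet.iUnion fun n => MeasurableSet.iUnion fun _ => measurableSet_lt measurable_const ?_
  exact meas_cE meas_wm (f := fun _ => NI (st τ l n) (st τ l n + l) S) (fun _ => measurable_const) p S

omit [Nonempty (Px Q)] in
theorem meas_RpM (p : Px Q → Y) (b j l q : ℕ) (M : ℝ) (S : Px Q) :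
    MeasurableSet {ω : Env × Finset ℕ | RpM (wm μ s N Q ω) p b j l q M S} :=
  (meas_Rp50 p _ _ _ _ S).union (meas_Rp50 p _ _ _ _ S)

open Classical in
/-- The paths with a near tie and without an alternative. -/
theorem tau_rpM [MxQ Q] (η : Env) (m : ℕ) {b j l q : ℕ} {M : ℝ} (hM : 8 ≤ M) (hq : 10 * M ≤ q) (hq' : (q : ℝ) ≤ 20 * M)
    (h1 : j - b + 3 * q * (l + 1) ≤ j) (h2 : 3 * q * (l + 1) ≤ b) :
    gm (lw μ s η N Q) (fun S => if TauM (lw μ s η N Q) (pJ 0 m) b j M S ∧ ¬ RpM (lw μ s η N Q) (pJ 0 m) b j l q M S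
      then 1 else 0) ≤ 2 * Real.exp (-M) := by
  have a1 := tau_rp (μ := μ) (s := s) (N := N) (Q := Q) η (swP_pJ (Nat.zero_le m)) (j - b) l q hM hq hq' h1
  have a2 := tau_rp (μ := μ) (s := s) (N := N) (Q := Q) η (swP_pJ (Nat.zero_le m)) j l q hM hq hq'
    (by omega : j + 3 * q * (l + 1) ≤ j + b)
  have h3 := gm_mono (lw μ s η N Q)
    (f := fun S => if TauM (lw μ s η N Q) (pJ 0 m) b j M S ∧ ¬ RpM (lw μ s η N Q) (pJ 0 m) b j l q M S then (1 : ℝ) else 0)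
    (g := (fun S => if Tau (lw μ s η N Q) (pJ 0 m) (j - b) j M S ∧ ¬ Rp (lw μ s η N Q) (pJ 0 m) (j - b) l q M S
      then (1 : ℝ) else 0) + fun S => if Tau (lw μ s η N Q) (pJ 0 m) j (j + b) M S ∧ ¬ Rp (lw μ s η N Q) (pJ 0 m) j l q M S
      then (1 : ℝ) else 0) (fun S => by
      rw [Pi.add_apply]
      have c1 : (0 : ℝ) ≤ if Tau (lw μ s η N Q) (pJ 0 m) (j - b) j M S ∧ ¬ Rp (lw μ s η N Q) (pJ 0 m) (j - b) l q M S
        then (1 : ℝ) else 0 := by split_ifs <;> norm_num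
      have c2 : (0 : ℝ) ≤ if Tau (lw μ s η N Q) (pJ 0 m) j (j + b) M S ∧ ¬ Rp (lw μ s η N Q) (pJ 0 m) j l q M S
        then (1 : ℝ) else 0 := by split_ifs <;> norm_num
      by_cases h : TauM (lw μ s η N Q) (pJ 0 m) b j M S ∧ ¬ RpM (lw μ s η N Q) (pJ 0 m) b j l q M S
      · rw [if_pos h]
        obtain ⟨h4, h5⟩ := h
        unfold RpM at h5
        push Not at h5
        rcases h4 with h4 | h4
        · have e1 : (if Tau (lw μ s η N Q) (pJ 0 m) (j - b) j M S ∧ ¬ Rp (lw μ s η N Q) (pJ 0 m) (j - b) l q M S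
            then (1 : ℝ) else 0) = 1 := if_pos ⟨h4, h5.1⟩
          linarith
        · have e1 : (if Tau (lw μ s η N Q) (pJ 0 m) j (j + b) M S ∧ ¬ Rp (lw μ s η N Q) (pJ 0 m) j l q M S
            then (1 : ℝ) else 0) = 1 := if_pos ⟨h4, h5.2⟩
          linarith
      · rw [if_neg h]
        linarith)
  refine h3.trans ?_
  rw [Pool.W7d29a1.C0.gm_add]
  linarith

end RpS

section Pl

variable [IsProbabilityMeasure μ] [SwQ Q] [Nonempty (Px Q)] {c0 K : ℕ}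

/-- An event of the base path of the plan of the own pair is replaced by another one. -/
theorem ev_swap50 {h z z' c : ℕ} {F : ℝ} (hF0 : 0 ≤ F) {f : Env × Finset ℕ → Px Q → ℝ} (hf : Sp72 Q c F c0 K f)
    {T T' : Env × Finset ℕ → Px Q → Prop} (hT : ∀ S, MeasurableSet {ω | T ω S}) (hT' : ∀ S, MeasurableSet {ω | T' ω S})
    {e : ℝ} (he : ∀ ω, gm (wm μ s N Q ω) (ind72 (fun ω S => T ω S ∧ ¬ T' ω S) ω) ≤ e) :
    ∫ ω, ev (P3 (pJ 0 z')) (wm μ s N Q ω) (chi3 h z z' c (ind72 T ω) (f ω)) ∂(Pm μ N) ≤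
      ∫ ω, ev (P3 (pJ 0 z')) (wm μ s N Q ω) (chi3 h z z' c (ind72 T' ω) (f ω)) ∂(Pm μ N) + 2 * F * e := by
  have hpt : ∀ ω, ev (P3 (pJ 0 z')) (wm μ s N Q ω) (chi3 h z z' c (ind72 T ω) (f ω)) ≤
      ev (P3 (pJ 0 z')) (wm μ s N Q ω) (chi3 h z z' c (ind72 T' ω) (f ω)) + 2 * F * e := fun ω => by
    have h1 : ∀ x : Fin 3 → Px Q, chi3 h z z' c (ind72 T ω) (f ω) x ≤ chi3 h z z' c (ind72 T' ω) (f ω) x +
        2 * F * ind72 (fun ω S => T ω S ∧ ¬ T' ω S) ω (x 2) := fun x => by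
      have h2 : 0 ≤ NI h z (x 2) (x 1) * (|f ω (x 2) - f ω (x 0)| * NI z' c (x 2) (x 0)) :=
        mul_nonneg (NI_nonneg _ _ _ _) (mul_nonneg (abs_nonneg _) (NI_nonneg _ _ _ _))
      have h3 : NI h z (x 2) (x 1) * (|f ω (x 2) - f ω (x 0)| * NI z' c (x 2) (x 0)) ≤ 2 * F := by
        have h4 := chi3_le (a0 := h) (z := z) (z' := z') (c := c) (L := fun _ : Px Q => (1 : ℝ)) (f := f ω)
          (fun _ => zero_le_one) (fun _ => le_rfl) (hf.bdd ω) x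
        unfold chi3 at h4
        linarith
      have h5 : ∀ L : Px Q → ℝ, chi3 h z z' c L (f ω) x =
          L (x 2) * (NI h z (x 2) (x 1) * (|f ω (x 2) - f ω (x 0)| * NI z' c (x 2) (x 0))) := fun L => by
        unfold chi3
        ring
      have h0 : ind72 T ω (x 2) ≤ ind72 T' ω (x 2) + ind72 (fun ω S => T ω S ∧ ¬ T' ω S) ω (x 2) := by
        have a1 := ind72_nonneg T' ω (x 2)
        have a2 := ind72_nonneg (fun ω S => T ω S ∧ ¬ T' ω S) ω (x 2)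
        by_cases h6 : T ω (x 2)
        · have e0 : ind72 T ω (x 2) = 1 := if_pos h6
          by_cases h7 : T' ω (x 2)
          · have e1 : ind72 T' ω (x 2) = 1 := if_pos h7
            linarith
          · have e1 : ind72 (fun ω S => T ω S ∧ ¬ T' ω S) ω (x 2) = 1 := if_pos ⟨h6, h7⟩
            linarith
        · have e0 : ind72 T ω (x 2) = 0 := if_neg h6
          linarith
      rw [h5, h5]
      have h6 := mul_le_mul_of_nonneg_right h0 h2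
      have h7 := mul_le_mul_of_nonneg_left h3 (ind72_nonneg (fun ω S => T ω S ∧ ¬ T' ω S) ω (x 2))
      rw [add_mul] at h6
      linarith
    refine (ev_mono _ _ h1).trans ?_
    rw [ev_add, ev_smul, Pool.W7d29a1.C0.H7.Marg.ev (marg_P3 (pJ (Q := Q) 0 z')) 2 (wm μ s N Q ω)
      (ind72 (fun ω S => T ω S ∧ ¬ T' ω S) ω)]
    have h8 := mul_le_mul_of_nonneg_left (he ω) (by positivity : 0 ≤ 2 * F)
    linarith
  have hint : ∀ T : Env × Finset ℕ → Px Q → Prop, (∀ S, MeasurableSet {ω | T ω S}) → Integrable (fun ω : Env × Finset ℕ =>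
      ev (P3 (pJ 0 z')) (wm μ s N Q ω) (chi3 h z z' c (ind72 T ω) (f ω))) (Pm μ N) := fun T hT =>
    int_bdd (M := 1 * (2 * F)) (meas_evP meas_wm _ fun x => meas_chi3 (L := ind72 T) (meas_ind72 hT) hf.meas x) fun ω => by
      rw [abs_of_nonneg (ev_nonneg _ _ fun x => chi3_nonneg (fun S => ind72_nonneg T ω S) _ x)]
      exact Pool.W7d29a1.C0.H7.ev_le_const _ _ fun x => chi3_le (fun S => ind72_nonneg T ω S)
        (fun S => ind72_le_one T ω S) (hf.bdd ω) x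
  have hI := integral_mono (hint T hT) ((hint T' hT').add (integrable_const _)) hpt
  refine hI.trans (le_of_eq ?_)
  have e1 := integral_add (hint T' hT') (integrable_const (μ := Pm μ N) (2 * F * e))
  simp only [Pi.add_apply] at e1 ⊢
  rw [e1, integral_const]
  have h8 : (Pm μ N).real Set.univ = 1 := by
    rw [measureReal_def, measure_univ, ENNReal.toReal_one]
  rw [h8, one_smul]

/-- **The near ties of the window in terms of the alternatives of the base path.** -/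
theorem tau_rpP [MxQ Q] {m h z z' c : ℕ} {F : ℝ} (hF0 : 0 ≤ F) {f : Env × Finset ℕ → Px Q → ℝ} (hf : Sp72 Q c F c0 K f)
    {b j l q : ℕ} {M : ℝ} (hM : 8 ≤ M) (hq : 10 * M ≤ q) (hq' : (q : ℝ) ≤ 20 * M) (h1 : b ≤ j) (h2 : 3 * q * (l + 1) ≤ b) :
    ∫ ω, ev (P3 (pJ 0 z')) (wm μ s N Q ω)
        (chi3 h z z' c (ind72 (fun ω => TauM (wm μ s N Q ω) (pJ 0 m) b j M) ω) (f ω)) ∂(Pm μ N) ≤
      ∫ ω, ev (P3 (pJ 0 z')) (wm μ s N Q ω)
        (chi3 h z z' c (ind72 (fun ω => RpM (wm μ s N Q ω) (pJ 0 m) b j l q M) ω) (f ω)) ∂(Pm μ N) +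
      2 * F * (2 * Real.exp (-M)) := by
  refine ev_swap50 hF0 hf (fun S => meas_tauM _ _ _ _ S) (fun S => meas_RpM _ _ _ _ _ _ S) fun ω => ?_
  have h3 : j - b + 3 * q * (l + 1) ≤ j := by omega
  refine le_trans (le_of_eq ?_) (tau_rpM (μ := μ) (s := s) (N := N) (Q := Q) (b := b) (j := j) (l := l) (q := q) ω.1 m hM hq hq'
    h3 h2)
  show gm (lw μ s ω.1 N Q) _ = _
  congr 1
  funext S
  by_cases h4 : TauM (lw μ s ω.1 N Q) (pJ 0 m) b j M S ∧ ¬ RpM (lw μ s ω.1 N Q) (pJ 0 m) b j l q M S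
  · rw [if_pos h4]
    exact if_pos h4
  · rw [if_neg h4]
    exact if_neg h4

end Pl

/-! ### The rare part -/

theorem GW1.mono {δ δ₁ B R e0 e0' : ℝ} {b j : ℕ} {η : Env} (h : GW1 μ s N Q δ δ₁ B R e0 b j η) (he : e0 ≤ e0') :
    GW1 μ s N Q δ δ₁ B R e0' b j η := fun a S S' hS hS' => (h a S S' hS hS').trans (by linarith)

theorem full_Pok50 {δ' : ℝ} (h : Pok μ s N δ' Q) : Full N Q := by
  rcases h with rfl | ⟨y, _, _, rfl⟩
  · exact full_Fr N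
  · exact full_Pn N y

open Classical in
theorem nC_le_loc {κ δ₁ δL ε₂ : ℝ} (hδ₁ : 0 ≤ δ₁) (hN : 1 ≤ N) (he : ε₂ ≤ κ * δ₁) (hQ : Full N Q) {b j : ℕ}
    (hb : (N : ℝ) ^ κ ≤ b) (hjN : j + b ≤ N) (S : Px Q) :
    nC μ s δ₁ Q b j S ≤ if Ns μ s ε₂ 0 N S ∧ Cna μ s N κ δL S then 0 else 1 := by
  by_cases h : Ns μ s ε₂ 0 N S ∧ Cna μ s N κ δL S
  · rw [if_pos h]
    have h1 := (Ns_iff (Nat.zero_le N) S).1 h.1
    rw [pce_self (hQ.sub S.1 S.2), Nat.sub_zero] at h1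
    have h2 := Cna_of (μ := μ) (s := s) (κ := κ) hδ₁ hN he (S := S) h1 (j - b) (j + b) (by omega) hjN (by
      have h3 : b ≤ j + b - (j - b) := by omega
      exact hb.trans (by exact_mod_cast h3))
    have h3 : nC μ s δ₁ Q b j S = 0 := if_pos h2
    rw [h3]
  · rw [if_neg h]
    exact nC_le_one δ₁ b j S

variable [IsProbabilityMeasure μ] {c C : ℝ} {n₀ : ℕ}

/-- **THE RARE PART**: paths out of the cone and bad environments. -/
theorem rare_le50 (h : In μ s c C n₀) {κ δ ε : ℝ} (hκ : 0 < κ) (hκ1 : κ ≤ 1) (hδ : 0 < δ) (hε : 0 < ε) :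
    ∃ δ₁ δ' c' : ℝ, 0 < δ₁ ∧ δ₁ < δ ∧ 0 < δ' ∧ 0 < c' ∧ ∃ N₀ : ℕ, ∀ N : ℕ, N₀ ≤ N → ∀ Q : Finset (Finset ℕ), Pok μ s N δ' Q →
      ∀ b j : ℕ, (N : ℝ) ^ κ ≤ b → b ≤ j → j + b ≤ N → ∀ B t : ℝ, 0 ≤ t →
        rare50 μ s N Q δ δ₁ B (Real.exp ((N : ℝ) ^ ε)) (Real.exp (-(N : ℝ) ^ c')) b j t ≤ 3 * Real.exp (t - (N : ℝ) ^ c') := by
  classical
  obtain ⟨δ₁, c₁, hδ₁, hδ₁', hc₁, N₁, hN₁⟩ := gw50 h hκ hδ hε
  obtain ⟨δL, δ', c₂, hδL, hδ', hc₂, N₂, hN₂⟩ := locM18 h hκ hκ1 (κ * δ₁) (by positivity)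
  obtain ⟨c', hc'⟩ : ∃ x : ℝ, x = min c₁ c₂ := ⟨_, rfl⟩
  have hc'0 : 0 < c' := by rw [hc']; exact lt_min hc₁ hc₂
  have hc'1 : c' ≤ c₁ := by rw [hc']; exact min_le_left _ _
  have hc'2 : c' ≤ c₂ := by rw [hc']; exact min_le_right _ _
  refine ⟨δ₁, δ', c', hδ₁, hδ₁', hδ', hc'0, max (max N₁ N₂) 1, fun N hN Q hQ b j hb hj hjN B t ht => ?_⟩
  have k1 : N₁ ≤ N := (le_max_left _ _).trans ((le_max_left _ _).trans hN)
  have k2 : N₂ ≤ N := (le_max_right _ _).trans ((le_max_left _ _).trans hN)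
  have k3 : 1 ≤ N := (le_max_right _ _).trans hN
  have k4 : (1 : ℝ) ≤ N := by exact_mod_cast k3
  have := hQ.ne
  have e1 : Real.exp (-(N : ℝ) ^ c₁) ≤ Real.exp (-(N : ℝ) ^ c') :=
    Real.exp_le_exp.2 (neg_le_neg (Real.rpow_le_rpow_of_exponent_le k4 hc'1))
  have e2 : Real.exp (-(N : ℝ) ^ c₂) ≤ Real.exp (-(N : ℝ) ^ c') :=
    Real.exp_le_exp.2 (neg_le_neg (Real.rpow_le_rpow_of_exponent_le k4 hc'2))
  -- the bad environments
  have b1 : (law μ {η | ¬ GW1 μ s N Q δ δ₁ B (Real.exp ((N : ℝ) ^ ε)) (Real.exp (-(N : ℝ) ^ c')) b j η}).toReal ≤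
      Real.exp (-(N : ℝ) ^ c') := by
    have h1 : {η | ¬ GW1 μ s N Q δ δ₁ B (Real.exp ((N : ℝ) ^ ε)) (Real.exp (-(N : ℝ) ^ c')) b j η} ⊆
        {η | ¬ GwW μ s N κ δ δ₁ ε c₁ η} := fun η hη hG =>
      hη ((GwW.gw1 hG (full_Pok50 hQ) hjN (by rw [Nat.sub_sub_self hj]; exact hb) hb B).mono e1)
    refine ENNReal.toReal_le_of_le_ofReal (Real.exp_pos _).le ((measure_mono h1).trans ((hN₁ N k1).trans ?_))
    exact ENNReal.ofReal_le_ofReal e1
  -- the cone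
  have b2 : ∫ ω, gm (wm μ s N Q ω) (nC μ s δ₁ Q b j) ∂(Pm μ N) ≤ 2 * Real.exp (-(N : ℝ) ^ c') := by
    have h1 : ∀ η, |gm (lw μ s η N Q) (nC μ s δ₁ Q b j)| ≤ 1 := fun η => by
      rw [abs_of_nonneg (gm_nonneg _ (nC_nonneg δ₁ b j))]
      exact (gm_mono _ (g := fun _ => 1) (nC_le_one δ₁ b j)).trans (gm_const _ _).le
    have hm : Measurable fun η : Env => gm (lw μ s η N Q) (nC μ s δ₁ Q b j) := meas_gm meas_lw fun S => measurable_const
    have h2 := int_fst (μ := μ) (N := N) (Φ := fun η : Env => gm (lw μ s η N Q) (nC μ s δ₁ Q b j)) hm h1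
    have h3 : ∫ ω, gm (wm μ s N Q ω) (nC μ s δ₁ Q b j) ∂(Pm μ N) =
        ∫ η, gm (lw μ s η N Q) (nC μ s δ₁ Q b j) ∂(law μ) := h2
    rw [h3]
    set G := toMeasurable (law μ) {η | ¬ LocB μ s N κ δL δ' (κ * δ₁) c₂ η} with hG
    have hGm : MeasurableSet G := measurableSet_toMeasurable _ _
    have h4 : ∀ η, gm (lw μ s η N Q) (nC μ s δ₁ Q b j) ≤ Real.exp (-(N : ℝ) ^ c₂) + G.indicator 1 η := fun η => by
      by_cases h5 : LocB μ s N κ δL δ' (κ * δ₁) c₂ η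
      · have h6 : gm (lw μ s η N Q) (nC μ s δ₁ Q b j) ≤ Real.exp (-(N : ℝ) ^ c₂) := by
          refine (gm_mono _ (nC_le_loc (δL := δL) hδ₁.le k3 le_rfl (full_Pok50 hQ) hb hjN)).trans ?_
          rcases hQ with rfl | ⟨y, hy, hyc, rfl⟩
          · exact h5.2.2
          · exact h5.2.1 y hy hyc
        have h7 : 0 ≤ G.indicator (1 : Env → ℝ) η := Set.indicator_nonneg (fun _ _ => zero_le_one) _
        linarith
      · have h6 : η ∈ G := subset_toMeasurable _ _ h5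
        rw [Set.indicator_of_mem h6, Pi.one_apply]
        linarith [(abs_le.1 (h1 η)).2, Real.exp_pos (-(N : ℝ) ^ c₂)]
    have i1 : Integrable (fun η : Env => gm (lw μ s η N Q) (nC μ s δ₁ Q b j)) (law μ) :=
      Integrable.of_bound hm.aestronglyMeasurable 1 (Filter.Eventually.of_forall h1)
    have i2 : Integrable (G.indicator (1 : Env → ℝ)) (law μ) := (integrable_const (1 : ℝ)).indicator hGm
    have h8 := integral_mono i1 ((integrable_const (Real.exp (-(N : ℝ) ^ c₂))).add i2) h4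
    have h9 := integral_add (integrable_const (μ := law μ) (Real.exp (-(N : ℝ) ^ c₂))) i2
    simp only [Pi.add_apply] at h8 h9
    rw [h9, integral_const, integral_indicator_one hGm, measureReal_def, measure_univ, ENNReal.toReal_one, one_smul] at h8
    have h10 : (law μ).real G ≤ Real.exp (-(N : ℝ) ^ c₂) := by
      rw [measureReal_def, hG, measure_toMeasurable]
      exact ENNReal.toReal_le_of_le_ofReal (Real.exp_pos _).le (hN₂ N k2)
    linarith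
  have e3 : Real.exp (t - (N : ℝ) ^ c') = Real.exp t * Real.exp (-(N : ℝ) ^ c') := by rw [sub_eq_add_neg, Real.exp_add]
  have e4 : Real.exp (-(N : ℝ) ^ c') ≤ Real.exp (t - (N : ℝ) ^ c') := Real.exp_le_exp.2 (by linarith)
  unfold rare50
  have e5 := mul_le_mul_of_nonneg_left b2 (Real.exp_pos t).le
  rw [e3] at e4 ⊢
  linarith

/-! ### The micro terms of (T), with the numbers -/

theorem ev_pw50 {a b : ℝ} (h : a < b) (A : ℝ) : ∀ᶠ N : ℕ in atTop, A * (N : ℝ) ^ a ≤ (N : ℝ) ^ b := by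
  have h1 := (tendsto_rpow_atTop (sub_pos.2 h)).comp tendsto_natCast_atTop_atTop
  filter_upwards [h1.eventually_ge_atTop A, eventually_ge_atTop 1] with N h2 h3
  have h4 : (0 : ℝ) < N := by exact_mod_cast h3
  have h5 : (N : ℝ) ^ b = (N : ℝ) ^ (b - a) * (N : ℝ) ^ a := by
    rw [← Real.rpow_add h4]
    congr 1
    ring
  rw [h5]
  exact mul_le_mul_of_nonneg_right h2 (Real.rpow_nonneg h4.le _)

theorem ev_exp50 (A k : ℝ) {a g : ℝ} (ha : 0 < a) (hg : 0 < g) :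
    ∀ᶠ N : ℕ in atTop, A * Real.exp (-(a * (N : ℝ) ^ g)) ≤ (N : ℝ) ^ (-k) := by
  filter_upwards [Pool.Agent.W_7d29a1_HZ.Z22.absorb A k ha hg, eventually_ge_atTop 1] with N h1 h2
  have h3 : (0 : ℝ) < N := by exact_mod_cast h2
  have h4 : A * (N : ℝ) ^ k * Real.exp (-(a * (N : ℝ) ^ g)) ≤ 1 :=
    h1.trans (Real.exp_le_one_iff.2 (by have := Real.rpow_nonneg h3.le (g / 2); linarith))
  have h5 : (N : ℝ) ^ k * (N : ℝ) ^ (-k) = 1 := by rw [← Real.rpow_add h3, add_neg_cancel, Real.rpow_zero]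
  have h6 := mul_le_mul_of_nonneg_right h4 (Real.rpow_nonneg h3.le (-k))
  calc A * Real.exp (-(a * (N : ℝ) ^ g)) = A * ((N : ℝ) ^ k * (N : ℝ) ^ (-k)) * Real.exp (-(a * (N : ℝ) ^ g)) := by
        rw [h5, mul_one]
    _ = A * (N : ℝ) ^ k * Real.exp (-(a * (N : ℝ) ^ g)) * (N : ℝ) ^ (-k) := by ring
    _ ≤ 1 * (N : ℝ) ^ (-k) := h6
    _ = _ := one_mul _

/-- **THE MICRO TERMS OF (T)** at the parameter `t`, in terms of the alternatives of the base path. -/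
theorem micT50 (hin : In μ s c C n₀) {κ δ εM ε₀ K' : ℝ} (hκ : 0 < κ) (hκ1 : κ ≤ 1) (hδ : 0 < δ) (hεM : 0 < εM) (hε₀ : 0 ≤ ε₀) :
    ∃ δ' β : ℝ, 0 < δ' ∧ 0 < β ∧ ∃ N₀ : ℕ, ∀ N : ℕ, N₀ ≤ N → ∀ (Q : Finset (Finset ℕ)) [SwQ Q] [MxQ Q] [Nonempty (Px Q)],
      Pok μ s N δ' Q → ∀ B : ℝ, 0 ≤ B → B ≤ (N : ℝ) ^ β → ∀ b j l q : ℕ, (N : ℝ) ^ κ ≤ b → b ≤ j → j + b ≤ N → ∀ M : ℝ,
      (N : ℝ) ^ εM ≤ M → 10 * M ≤ q → (q : ℝ) ≤ 20 * M → 3 * q * (l + 1) ≤ b → ∀ c0 K m h z z' e : ℕ, j + b ≤ c0 → c0 + K ≤ m →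
      m ≤ h → h ≤ z → z ≤ z' → z' ≤ e → ∀ t : ℝ, |t| ≤ 1 →
      (∀ A, E0X μ s 3 N Q c0 K (pB (c0 + K)) (2 * B / K) (T72.uj72 μ s Q δ B b j t A) ε₀ K') →
      ∀ F : ℝ, 0 ≤ F → 2 * F ≤ (N : ℝ) ^ K' → ∀ f : Env × Finset ℕ → Px Q → ℝ, Sp72 Q e F c0 K f →
      ∀ (γ b' : Env × Finset ℕ → Px Q → ℝ) (G Mb : ℝ), 0 ≤ G → 0 ≤ Mb → (∀ ω S, |γ ω S| ≤ G) → (∀ ω S, |b' ω S| ≤ Mb) →
      (∀ ω, Lk 0 m (γ ω)) → (∀ ω, Lk 0 h (b' ω)) →
      ∫ ω, |Pool.W7d29a1.C0.T72.fT72 (pJ 0 z') (pJ 0 z) (cC (wj μ s N Q δ B b j ω t) (pJ 0 m) (gg μ s Q δ B b ω j) (γ ω))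
          (b' ω) (f ω) (wj μ s N Q δ B b j ω t)| ∂(Pm μ N) ≤
        2 * Mb * G * B * (N : ℝ) ^ ε₀ * ∫ ω, ev (P3 (pJ 0 z')) (wm μ s N Q ω)
          (chi3 h z z' e (ind72 (fun ω => RpM (wm μ s N Q ω) (pJ 0 m) b j l q M) ω) (f ω)) ∂(Pm μ N) +
        4 * Mb * G * (F + 1) * (N : ℝ) ^ (1 + ε₀ - K') := by
  obtain ⟨δ₁, δ', c₁, hδ₁, -, hδ', hc₁, N₁, hN₁⟩ := rare_le50 hin hκ hκ1 hδ (half_pos hεM)
  obtain ⟨β, hβ⟩ : ∃ x : ℝ, x = min (min c₁ εM) 1 / 2 := ⟨_, rfl⟩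
  have hβ0 : 0 < β := by rw [hβ]; exact half_pos (lt_min (lt_min hc₁ hεM) one_pos)
  have hβ1 : β < c₁ := by
    have : min (min c₁ εM) 1 ≤ c₁ := (min_le_left _ _).trans (min_le_left _ _)
    linarith
  have hβ2 : β < εM := by
    have : min (min c₁ εM) 1 ≤ εM := (min_le_left _ _).trans (min_le_right _ _)
    linarith
  have hβ3 : β ≤ 1 := by
    have : min (min c₁ εM) 1 ≤ 1 := min_le_right _ _
    linarith
  have ev1 := ev_pw50 hβ1 16
  have ev2 := ev_pw50 hβ2 16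
  have ev3 := ev_pw50 (half_lt_self hεM) 16
  have ev4 := ev_pw50 hεM 8
  have ev5 := ev_exp50 16 K' (a := 1) one_pos hεM
  have ev6 := ev_exp50 24 K' (a := 1 / 4) (by norm_num) hc₁
  have ev7 := ev_exp50 12 (K' + 1) (a := 1 / 4) (by norm_num) hc₁
  obtain ⟨N₂, hN₂⟩ := eventually_atTop.1 (ev1.and (ev2.and (ev3.and (ev4.and (ev5.and (ev6.and ev7))))))
  refine ⟨δ', β, hδ', hβ0, max (max N₁ N₂) 1, ?_⟩
  intro N hN Q _ _ _ hQ B hB0 hB b j l q hb hbj hjN M hM hq hq' hl c0 K m h z z' e hj hm h1 h2 h3 h4 t ht hE F hF0 hF f hf γ b' G Mb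
    hG0 hMb hγ hb' hγL hbL
  have k1 : N₁ ≤ N := (le_max_left _ _).trans ((le_max_left _ _).trans hN)
  have k2 : N₂ ≤ N := (le_max_right _ _).trans ((le_max_left _ _).trans hN)
  have k3 : 1 ≤ N := (le_max_right _ _).trans hN
  have k4 : (1 : ℝ) ≤ N := by exact_mod_cast k3
  have k5 : (0 : ℝ) < N := by linarith
  obtain ⟨a1, a2, a3, a4, a5, a6, a7⟩ := hN₂ N k2
  rw [Real.rpow_zero, mul_one] at a4
  obtain ⟨X, hX⟩ : ∃ x : ℝ, x = (N : ℝ) ^ c₁ := ⟨_, rfl⟩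
  obtain ⟨Z, hZ⟩ : ∃ x : ℝ, x = (N : ℝ) ^ (-K') := ⟨_, rfl⟩
  have hX0 : 0 ≤ X := by rw [hX]; exact Real.rpow_nonneg k5.le _
  have hZ0 : 0 ≤ Z := by rw [hZ]; exact Real.rpow_nonneg k5.le _
  rw [← hX] at a1 a6 a7
  rw [← hZ] at a5 a6
  have hM0 : 0 ≤ M := (Real.rpow_nonneg k5.le _).trans hM
  have c1 : 16 * B ≤ X := (mul_le_mul_of_nonneg_left hB (by norm_num)).trans a1
  have c2 : 16 * B ≤ M := ((mul_le_mul_of_nonneg_left hB (by norm_num)).trans a2).trans hM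
  have c3 : 16 * (N : ℝ) ^ (εM / 2) ≤ M := a3.trans hM
  have c4 : 8 ≤ M := a4.trans hM
  have c5 : 16 * Real.exp (-M) ≤ Z := by
    refine (mul_le_mul_of_nonneg_left (Real.exp_le_exp.2 ?_) (by norm_num)).trans a5
    rw [one_mul]
    exact neg_le_neg hM
  have c6 : B ≤ N := hB.trans (by
    calc (N : ℝ) ^ β ≤ (N : ℝ) ^ (1 : ℝ) := Real.rpow_le_rpow_of_exponent_le k4 hβ3
      _ = N := Real.rpow_one _)
  have c7 : 12 * N * Real.exp (-(1 / 4 * X)) ≤ Z := by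
    have e1 : (N : ℝ) ^ (-(K' + 1)) * N = Z := by
      rw [hZ]
      nth_rewrite 2 [← Real.rpow_one (N : ℝ)]
      rw [← Real.rpow_add k5]
      congr 1
      ring
    have e2 := mul_le_mul_of_nonneg_right a7 k5.le
    rw [e1] at e2
    linarith
  -- the parameters of the robust event
  obtain ⟨M0, hM0'⟩ : ∃ x : ℝ, x = M - 8 / 5 * B := ⟨_, rfl⟩
  have d1 : 5 * M0 + 4 * (2 * B) ≤ 5 * M := by rw [hM0']; linarith
  have d2 : X / 2 + 2 * (2 * B) ≤ X / 2 + 4 * B := by linarith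
  have hrare := hN₁ N k1 Q hQ b j hb hbj hjN B (X / 2 + 4 * B) (by linarith)
  rw [← hX] at hrare
  have hrare' : rare50 μ s N Q δ δ₁ B (Real.exp ((N : ℝ) ^ (εM / 2))) (Real.exp (-X)) b j (X / 2 + 4 * B) ≤ Z / 8 := by
    refine hrare.trans ?_
    have e1 : Real.exp (X / 2 + 4 * B - X) ≤ Real.exp (-(1 / 4 * X)) := Real.exp_le_exp.2 (by linarith)
    linarith
  have hw : ∀ ω : Env × Finset ℕ, NM82.HdAll m (fun S : Px Q => lw μ s ω.1 N Q S + T72.uj72 μ s Q δ B b j t ω.2 ω.1 S) := fun ω => by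
    have e1 : (fun S : Px Q => lw μ s ω.1 N Q S + T72.uj72 μ s Q δ B b j t ω.2 ω.1 S) =
        lw μ s ω.1 N Q + (t - sg ω.2 j) • gj μ s ω.1 δ B b j (sg ω.2 j) := rfl
    rw [e1]
    refine (NM82.HdAll_lw ω.1 m).add ((NM82.HdAll_Lk (g := gj μ s ω.1 δ B b j (sg ω.2 j)) ?_).smul _)
    intro S S' hS
    unfold gj
    rw [hS _ (Nat.zero_le _) (by omega), hS _ (Nat.zero_le _) (by omega)]
  have hum : ∀ S : Px Q, Measurable fun ω : Env × Finset ℕ => T72.uj72 μ s Q δ B b j t ω.2 ω.1 S := fun S => by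
    unfold T72.uj72
    have e1 : (fun ω : Env × Finset ℕ => (t - sg ω.2 j) * gj μ s ω.1 δ B b j (sg ω.2 j) S) =
        fun ω => (t - sr ω.2 j) * gg μ s Q δ B b ω j S := rfl
    rw [e1]
    exact (measurable_const.sub (meas_sr j)).mul (meas_gg δ B b j S)
  have key := mic50 (μ := μ) (s := s) (N := N) (Q := Q) hE hum (Du := B)
    (fun A η S => T72.abs_uj72 hB0 b j ht A η S) (δ := δ) (δ₁ := δ₁) (B := B) (R := Real.exp ((N : ℝ) ^ (εM / 2)))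
    (e0 := Real.exp (-X)) (M := M0) (M' := M) (t := X / 2) (t' := X / 2 + 4 * B) (D := 2 * B) hB0 (Real.exp_pos _).le
    (Real.exp_pos _).le hj hm h1 h2 h3 h4 hF0 hf hF (by positivity) le_rfl d1 d2 hG0 hMb hγ hb' hw hγL hbL
  have key' : ∫ ω, |Pool.W7d29a1.C0.T72.fT72 (pJ 0 z') (pJ 0 z) (cC (wj μ s N Q δ B b j ω t) (pJ 0 m) (gg μ s Q δ B b ω j) (γ ω))
          (b' ω) (f ω) (wj μ s N Q δ B b j ω t)| ∂(Pm μ N) = ∫ ω, |Pool.W7d29a1.C0.T72.fT72 (pJ 0 z') (pJ 0 z)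
      (cC (fun S => lw μ s ω.1 N Q S + T72.uj72 μ s Q δ B b j t ω.2 ω.1 S) (pJ 0 m)
        (gj μ s ω.1 δ B b j (sg ω.2 j)) (γ ω)) (b' ω) (f ω)
      (fun S => lw μ s ω.1 N Q S + T72.uj72 μ s Q δ B b j t ω.2 ω.1 S)| ∂(Pm μ N) := by
    refine integral_congr_ae (Filter.Eventually.of_forall fun ω => ?_)
    simp only [T72.wj_eq72]
    rfl
  rw [key']
  refine key.trans ?_
  have r1 := tau_rpP (μ := μ) (s := s) (N := N) (Q := Q) (m := m) (h := h) (z := z) (z' := z') hF0 hf (b := b) (j := j) (l := l)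
    (q := q) c4 hq hq' hbj hl
  set X1 := ∫ ω, ev (P3 (pJ 0 z')) (wm μ s N Q ω)
    (chi3 h z z' e (ind72 (fun ω => TauM (wm μ s N Q ω) (pJ 0 m) b j M) ω) (f ω)) ∂(Pm μ N) with hX1
  set X2 := ∫ ω, ev (P3 (pJ 0 z')) (wm μ s N Q ω)
    (chi3 h z z' e (ind72 (fun ω => RpM (wm μ s N Q ω) (pJ 0 m) b j l q M) ω) (f ω)) ∂(Pm μ N) with hX2
  have hX20 : 0 ≤ X2 := integral_nonneg fun ω => ev_nonneg _ _ fun x => chi3_nonneg (fun S => ind72_nonneg _ ω S) _ x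
  -- the error of the pointwise bound
  have p1 : Real.exp (4 * B) * (Real.exp ((N : ℝ) ^ (εM / 2)) * (2 * Real.exp (-(5 * M0))) + Real.exp (-X) +
      2 * B * Real.exp (-(X / 2))) ≤ Z / 2 := by
    have q1 : Real.exp (4 * B) * (Real.exp ((N : ℝ) ^ (εM / 2)) * (2 * Real.exp (-(5 * M0)))) ≤ 2 * Real.exp (-M) := by
      have e1 : Real.exp (4 * B) * (Real.exp ((N : ℝ) ^ (εM / 2)) * (2 * Real.exp (-(5 * M0)))) =
          2 * Real.exp (4 * B + (N : ℝ) ^ (εM / 2) + -(5 * M0)) := by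
        rw [Real.exp_add, Real.exp_add]
        ring
      rw [e1]
      refine mul_le_mul_of_nonneg_left (Real.exp_le_exp.2 ?_) (by norm_num)
      rw [hM0']
      linarith
    have q2 : Real.exp (4 * B) * Real.exp (-X) ≤ Real.exp (-(1 / 4 * X)) := by
      rw [← Real.exp_add]
      exact Real.exp_le_exp.2 (by linarith)
    have q3 : Real.exp (4 * B) * (2 * B * Real.exp (-(X / 2))) ≤ 2 * N * Real.exp (-(1 / 4 * X)) := by
      have e1 : Real.exp (4 * B) * (2 * B * Real.exp (-(X / 2))) = 2 * B * (Real.exp (4 * B) * Real.exp (-(X / 2))) := by ring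
      rw [e1, ← Real.exp_add]
      exact mul_le_mul (by linarith) (Real.exp_le_exp.2 (by linarith)) (Real.exp_pos _).le (by positivity)
    have q4 : Real.exp (-(1 / 4 * X)) ≤ N * Real.exp (-(1 / 4 * X)) := le_mul_of_one_le_left (Real.exp_pos _).le k4
    rw [mul_add, mul_add]
    linarith
  have p2 : X1 + 2 * F * rare50 μ s N Q δ δ₁ B (Real.exp ((N : ℝ) ^ (εM / 2))) (Real.exp (-X)) b j (X / 2 + 4 * B) +
      (N : ℝ) ^ (-K') ≤ X2 + (F + 1) * Z := by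
    rw [← hZ]
    have e1 := mul_le_mul_of_nonneg_left hrare' (by positivity : 0 ≤ 2 * F)
    have e2 : 2 * F * (2 * Real.exp (-M)) ≤ F * (Z / 4) := by
      have e3 := mul_le_mul_of_nonneg_left c5 hF0
      linarith
    have e4 : 0 ≤ F * Z := mul_nonneg hF0 hZ0
    linarith
  have hNe : 0 ≤ (N : ℝ) ^ ε₀ := Real.rpow_nonneg k5.le _
  have hN1 : 1 ≤ (N : ℝ) ^ ε₀ := Real.one_le_rpow k4 hε₀
  have p3 : (N : ℝ) ^ (1 + ε₀ - K') = N * ((N : ℝ) ^ ε₀ * Z) := by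
    rw [hZ, ← Real.rpow_add k5]
    nth_rewrite 2 [← Real.rpow_one (N : ℝ)]
    rw [← Real.rpow_add k5]
    congr 1
    ring
  rw [p3]
  have s1 : G * B * ((N : ℝ) ^ ε₀ * (X1 + 2 * F * rare50 μ s N Q δ δ₁ B (Real.exp ((N : ℝ) ^ (εM / 2))) (Real.exp (-X)) b j
      (X / 2 + 4 * B) + (N : ℝ) ^ (-K'))) ≤ G * B * ((N : ℝ) ^ ε₀ * (X2 + (F + 1) * Z)) :=
    mul_le_mul_of_nonneg_left (mul_le_mul_of_nonneg_left p2 hNe) (mul_nonneg hG0 hB0)
  have s2 : G * (Real.exp (4 * B) * (Real.exp ((N : ℝ) ^ (εM / 2)) * (2 * Real.exp (-(5 * M0))) + Real.exp (-X) +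
      2 * B * Real.exp (-(X / 2)))) * (2 * F) ≤ G * (Z / 2) * (2 * F) :=
    mul_le_mul_of_nonneg_right (mul_le_mul_of_nonneg_left p1 hG0) (by positivity)
  have s3 := mul_le_mul_of_nonneg_left (add_le_add s1 s2) (by positivity : 0 ≤ 2 * Mb)
  refine s3.trans ?_
  have s4 : B * ((N : ℝ) ^ ε₀ * ((F + 1) * Z)) ≤ N * ((N : ℝ) ^ ε₀ * ((F + 1) * Z)) :=
    mul_le_mul_of_nonneg_right c6 (by positivity)
  have s5 : Z * F ≤ N * ((N : ℝ) ^ ε₀ * ((F + 1) * Z)) := by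
    have e1 : Z * F ≤ (F + 1) * Z := by linarith [mul_comm F Z]
    have e2 : (F + 1) * Z ≤ (N : ℝ) ^ ε₀ * ((F + 1) * Z) := le_mul_of_one_le_left (by positivity) hN1
    have e3 : (N : ℝ) ^ ε₀ * ((F + 1) * Z) ≤ N * ((N : ℝ) ^ ε₀ * ((F + 1) * Z)) := le_mul_of_one_le_left (by positivity) k4
    linarith
  have s6 := mul_le_mul_of_nonneg_left s4 (mul_nonneg hMb hG0)
  have s7 := mul_le_mul_of_nonneg_left s5 (mul_nonneg hMb hG0)
  have s8 : 2 * Mb * (G * B * ((N : ℝ) ^ ε₀ * (X2 + (F + 1) * Z)) + G * (Z / 2) * (2 * F)) =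
      2 * Mb * G * B * (N : ℝ) ^ ε₀ * X2 + (2 * (Mb * G * (B * ((N : ℝ) ^ ε₀ * ((F + 1) * Z)))) + 2 * (Mb * G * (Z * F))) := by ring
  rw [s8]
  linarith

end

end Pool.Agent.W_7d29a1_C0.EvT50
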