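import Pool.Agent.W_7d29a1_C0.NM82
import Pool.Agent.W_7d29a1_C0.Ins52

/-!
MP_7d29a1_pr, [CURV0] (helper57), leaf (T), TL2: THE TERM `TT = Cov (Cov (cE_z κ, cE_z b | z'), f)` OF THE ONE SIDED TELESCOPE AS A
PLAN OF FIVE REPLICAS WITH TWO NON MEETING INDICATORS.

`z ≤ z'` are rows, `cE_z` = the mean given the path behind the row `z`. `P5 q' q`: `x 4 = S` free, `x 3 = x'` given `q'` of `S`,
`x 2 = y` given `q` of `S`, `x 1 = y'` given `q` of `x'`, `x 0 = S'` free. `psi5`: `κ(S) (b y - b y') (f S - f S')` on the event that `y`,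
`y'` do not meet in `[a0, z]` and `S`, `S'` do not meet in `[z', c]`. `plan5`: EXACT for every weight with the swap of the heads.
`abs_plan5_le`, `sum_abs_plan5_le`: the bound by `XT` = the functional of THREE replicas. `hasDerivAt_TT`: the derivative along a path
functional `C` which keeps the swap property is the insertion of `C`.
-/

set_option autoImplicit false
set_option linter.unusedSectionVars false
set_option linter.unusedVariables false

namespace Pool.Agent.W_7d29a1_C0.CutT57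

open Finset
open Pool.Agent.W_7d29a1_C0 Pool.Agent.W_7d29a1_C0.Mod92 Pool.Agent.W_7d29a1_C0.Swap57 Pool.Agent.W_7d29a1_C0.NM82
open Pool.Agent.W_7d29a1_F Pool.Agent.W_7d29a1_X
open Pool.W7d29a1.C0 Pool.W7d29a1.C0.VT31
open Pool.W7d29a1.C0.I52 (Plan wt ker zs av ev dn ins ev_cons ev_nil ev_congr gm_eq_av cE_eq_av ev_mono abs_ev_le ev_smul ev_sum
  hasDerivAt_ev gline)

noncomputable section

/-! ### The plan -/

section Abs

variable {X : Type*} [Fintype X] [DecidableEq X] [Nonempty X] {Y Y' : Type*} [DecidableEq Y] [DecidableEq Y']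

/-- The plan: `S` free; `x'` given `q'` of `S`; `y` given `q` of `S`; `y'` given `q` of `x'`; `S'` free. -/
def P5 (q' : X → Y') (q : X → Y) : Plan X 5 := ((((Plan.nil.fr).gi q' 0).gi q 1).gi q 1).fr

theorem ev_P5 (q' : X → Y') (q : X → Y) (w : X → ℝ) (F : X → X → X → X → X → ℝ) :
    ev (P5 q' q) w (fun x => F (x 4) (x 3) (x 2) (x 1) (x 0)) =
      gm w fun S => cE w q' (fun x' => cE w q (fun y => cE w q (fun y' => gm w (F S x' y y')) x') S) S := by
  have e1 : ev (P5 q' q) w (fun x => F (x 4) (x 3) (x 2) (x 1) (x 0)) =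
      ev ((((Plan.nil.fr).gi q' 0).gi q 1).gi q 1) w fun x => gm w (F (x 3) (x 2) (x 1) (x 0)) := by
    show ev (Plan.cons _ _ _) w _ = _
    rw [ev_cons]
    refine ev_congr _ _ fun x => ?_
    rw [gm_eq_av]
    rfl
  have e2 : ev ((((Plan.nil.fr).gi q' 0).gi q 1).gi q 1) w (fun x => gm w (F (x 3) (x 2) (x 1) (x 0))) =
      ev (((Plan.nil.fr).gi q' 0).gi q 1) w fun x => cE w q (fun y' => gm w (F (x 2) (x 1) (x 0) y')) (x 1) := by
    show ev (Plan.cons _ _ _) w _ = _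
    rw [ev_cons]
    refine ev_congr _ _ fun x => ?_
    rw [cE_eq_av]
    rfl
  have e3 : ev (((Plan.nil.fr).gi q' 0).gi q 1) w (fun x => cE w q (fun y' => gm w (F (x 2) (x 1) (x 0) y')) (x 1)) =
      ev ((Plan.nil.fr).gi q' 0) w fun x => cE w q (fun y => cE w q (fun y' => gm w (F (x 1) (x 0) y y')) (x 0)) (x 1) := by
    show ev (Plan.cons _ _ _) w _ = _
    rw [ev_cons]
    refine ev_congr _ _ fun x => ?_
    rw [cE_eq_av]
    rfl
  have e4 : ev ((Plan.nil.fr).gi q' 0) w (fun x => cE w q (fun y => cE w q (fun y' => gm w (F (x 1) (x 0) y y')) (x 0)) (x 1)) =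
      ev (Plan.nil.fr) w fun x => cE w q' (fun x' => cE w q (fun y => cE w q (fun y' => gm w (F (x 0) x' y y')) x') (x 0)) (x 0) := by
    show ev (Plan.cons _ _ _) w _ = _
    rw [ev_cons]
    refine ev_congr _ _ fun x => ?_
    rw [cE_eq_av]
    rfl
  have e5 : ev (Plan.nil.fr) w
      (fun x => cE w q' (fun x' => cE w q (fun y => cE w q (fun y' => gm w (F (x 0) x' y y')) x') (x 0)) (x 0)) =
      gm w fun S => cE w q' (fun x' => cE w q (fun y => cE w q (fun y' => gm w (F S x' y y')) x') S) S := by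
    show ev (Plan.cons _ _ _) w _ = _
    rw [ev_cons, ev_nil, gm_eq_av]
    rfl
  rw [e1, e2, e3, e4, e5]

/-- The plan of three replicas: `x 2 = S` free, `x 1` given `q'` of `S`, `x 0` free. -/
def P3 (q' : X → Y') : Plan X 3 := ((Plan.nil.fr).gi q' 0).fr

theorem ev_P3 (q' : X → Y') (w : X → ℝ) (F : X → X → X → ℝ) :
    ev (P3 q') w (fun x => F (x 2) (x 1) (x 0)) = gm w fun a => cE w q' (fun b => gm w (F a b)) a := by
  have e1 : ev (P3 q') w (fun x => F (x 2) (x 1) (x 0)) = ev ((Plan.nil.fr).gi q' 0) w fun x => gm w (F (x 1) (x 0)) := by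
    show ev (Plan.cons _ _ _) w _ = _
    rw [ev_cons]
    refine ev_congr _ _ fun x => ?_
    rw [gm_eq_av]
    rfl
  have e2 : ev ((Plan.nil.fr).gi q' 0) w (fun x => gm w (F (x 1) (x 0))) =
      ev (Plan.nil.fr) w fun x => cE w q' (fun b => gm w (F (x 0) b)) (x 0) := by
    show ev (Plan.cons _ _ _) w _ = _
    rw [ev_cons]
    refine ev_congr _ _ fun x => ?_
    rw [cE_eq_av]
    rfl
  have e3 : ev (Plan.nil.fr) w (fun x => cE w q' (fun b => gm w (F (x 0) b)) (x 0)) =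
      gm w fun a => cE w q' (fun b => gm w (F a b)) a := by
    show ev (Plan.cons _ _ _) w _ = _
    rw [ev_cons, ev_nil, gm_eq_av]
    rfl
  rw [e1, e2, e3]

theorem gm_const_mul (w : X → ℝ) (c : ℝ) (k : X → ℝ) : gm w (fun z => c * k z) = c * gm w k := by
  rw [gm_eq_av, gm_eq_av, Pool.W7d29a1.C0.I52.av_smul]

theorem cE_const_mul (w : X → ℝ) (p : X → Y) (c : ℝ) (k : X → ℝ) (x : X) :
    cE w p (fun z => c * k z) x = c * cE w p k x := by
  have e : (fun z => c * k z) = c • k := by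
    funext z
    rw [Pi.smul_apply, smul_eq_mul]
  rw [e, cE_smul, Pi.smul_apply, smul_eq_mul]

theorem cE_mul_const (w : X → ℝ) (p : X → Y) (c : ℝ) (k : X → ℝ) (x : X) :
    cE w p (fun z => k z * c) x = cE w p k x * c := by
  have e : (fun z => k z * c) = fun z => c * k z := by
    funext z
    ring
  rw [e, cE_const_mul, mul_comm]

theorem gm_mono' (w : X → ℝ) {h k : X → ℝ} (hk : ∀ S, h S ≤ k S) : gm w h ≤ gm w k := by
  rw [gm_eq_av, gm_eq_av]
  exact Pool.W7d29a1.C0.I52.av_mono w univ fun s _ => hk s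

/-- The two replica average as an iterated mean. -/
theorem gm_gm_eq_PP (w : X → ℝ) (K : X → X → ℝ) : gm w (fun S => gm w (K S)) = PP w K := by
  rw [PP_eq]
  unfold gm
  rw [sq, ← div_div]
  congr 1
  rw [sum_div]
  refine sum_congr rfl fun S _ => ?_
  rw [← mul_div_assoc, mul_sum]
  congr 1
  exact sum_congr rfl fun S' _ => by ring

theorem PP_symm (w : X → ℝ) (K : X → X → ℝ) : PP w (fun S S' => K S' S) = PP w K := by
  rw [PP_eq, PP_eq, sum_comm]
  congr 1
  exact sum_congr rfl fun S _ => sum_congr rfl fun S' _ => by ring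

/-- Given `q'`: a pair given the finer `q`, the first replica being the base path. -/
theorem gm_pair (w : X → ℝ) {q' : X → Y'} {q : X → Y} (hc : Crs q' q) (K : X → X → ℝ) {H : X → ℝ} (hH : Mp q' H) :
    gm w (fun S => cE w q' (fun x' => cE2 w q K S x') S * H S) = gm w fun S => cE w q' (K S) S * H S := by
  have key : ∀ (T : X → X → ℝ), gm w (fun S => cE w q' (T S) S * H S) = gm w (fun S => cE2 w q' T S S * H S) := fun T => by
    have e1 : (fun S => cE w q' (T S) S * H S) = H * fun S => cE w q' (T S) S := by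
      funext S
      rw [Pi.mul_apply]
      ring
    have e2 : (fun S => cE2 w q' T S S * H S) = H * cE w q' (fun S => cE w q' (T S) S) := by
      funext S
      rw [Pi.mul_apply, mul_comm]
      congr 1
      unfold cE2
      exact cE_congr_fib' fun z hz => cE_meas w q' (T z) S z hz.symm
    rw [e1, e2, gm_mul_cE w hH]
  rw [key, key]
  congr 1
  funext S
  rw [cE2_tower w hc]
where
  cE_congr_fib' {w : X → ℝ} {p : X → Y'} {f f' : X → ℝ} {S : X} (h : ∀ z, p z = p S → f z = f' z) :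
      cE w p f S = cE w p f' S := by
    unfold cE
    congr 1
    refine sum_congr rfl fun z _ => ?_
    split_ifs with hz
    · rw [h z hz]
    · rfl

end Abs

/-! ### The term of the telescope -/

variable {Q : Finset (Finset ℕ)} [SwQ Q] [Nonempty (Px Q)]

/-- The observable of the five replicas. -/
def psi5 (a0 z z' c : ℕ) (κ b f : Px Q → ℝ) (x : Fin 5 → Px Q) : ℝ :=
  κ (x 4) * ((b (x 2) - b (x 1)) * NI a0 z (x 2) (x 1)) * ((f (x 4) - f (x 0)) * NI z' c (x 4) (x 0))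

/-- The observable of the three replicas which bounds it. -/
def chi3 (a0 z z' c : ℕ) (L f : Px Q → ℝ) (x : Fin 3 → Px Q) : ℝ :=
  L (x 2) * NI a0 z (x 2) (x 1) * (|f (x 2) - f (x 0)| * NI z' c (x 2) (x 0))

theorem NI_congr {m u : ℕ} {S T S' T' : Px Q} (h : ∀ i, m ≤ i → i ≤ u → ps S i = ps T i) (h' : ∀ i, m ≤ i → i ≤ u → ps S' i = ps T' i) :
    NI m u S S' = NI m u T T' := by
  unfold NI
  have e : (∀ k, m ≤ k → k ≤ u → ps S k ≠ ps S' k) ↔ ∀ k, m ≤ k → k ≤ u → ps T k ≠ ps T' k := by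
    constructor
    · intro h1 k hk hk'
      rw [← h k hk hk', ← h' k hk hk']
      exact h1 k hk hk'
    · intro h1 k hk hk'
      rw [h k hk hk', h' k hk hk']
      exact h1 k hk hk'
  by_cases h1 : ∀ k, m ≤ k → k ≤ u → ps S k ≠ ps S' k
  · rw [if_pos h1, if_pos (e.1 h1)]
  · rw [if_neg h1, if_neg fun h2 => h1 (e.2 h2)]

theorem NI_le_one (m u : ℕ) (S S' : Px Q) : NI m u S S' ≤ 1 := by
  unfold NI
  split_ifs <;> norm_num

variable {w : Px Q → ℝ} {a0 z z' c : ℕ}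

/-- The mean of the far factor is a function of what is behind `z'`. -/
theorem mp_far (hz : z' ≤ c) {f : Px Q → ℝ} (hf : Rk c f) (G : ℝ → ℝ) :
    Mp (pJ 0 z') (fun S => gm w fun S' => G (f S - f S') * NI z' c S S') := by
  intro S T h
  have h1 : ∀ i, z' ≤ i → ps S i = ps T i := fun i hi => ps_of_ge h hi
  show gm w (fun S' => G (f S - f S') * NI z' c S S') = gm w fun S' => G (f T - f S') * NI z' c T S'
  congr 1
  funext S'
  rw [hf S T fun i hi => h1 i (hz.trans hi), NI_congr (fun i hi _ => h1 i hi) fun i _ _ => rfl]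

/-- The outer cut, one sided form. -/
theorem gc_eq_far (hw : Hd z' c w) {U f : Px Q → ℝ} (hU : Lk 0 z' U) (hf : Rk c f) :
    gm w (fun S => U S * gm w fun S' => (f S - f S') * NI z' c S S') = gc w U f := by
  have e0 : (fun S => U S * gm w fun S' => (f S - f S') * NI z' c S S') =
      fun S => gm w fun S' => U S * ((f S - f S') * NI z' c S S') := by
    funext S
    rw [gm_const_mul]
  rw [e0, gm_gm_eq_PP, ← gc_eq_QN hw hU hf]
  have e1 : rep 2 w (QN z' c U f) = PP w fun S S' => (1 / 2) * (((U S - U S') * (f S - f S')) * NI z' c S S') :=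
    rep_two_PP w _ fun x => rfl
  rw [e1]
  have hs : ∀ S S' : Px Q, NI z' c S S' = NI z' c S' S := fun S S' => by
    rw [NI_eq, NI_eq]
    by_cases h : Mt 0 0 z' c S S'
    · rw [if_pos h, if_pos (by rw [Mt_symm]; exact h)]
    · rw [if_neg h, if_neg (by rw [Mt_symm]; exact h)]
  have e2 : PP w (fun S S' => (1 / 2) * (((U S - U S') * (f S - f S')) * NI z' c S S')) =
      PP w (fun S S' => (1 / 2) * (U S * ((f S - f S') * NI z' c S S')) + (1 / 2) * (U S' * ((f S' - f S) * NI z' c S' S))) := by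
    congr 1
    funext S S'
    rw [hs S' S]
    ring
  rw [e2, PP_add w (fun S S' => (1 / 2) * (U S * ((f S - f S') * NI z' c S S')))
    (fun S S' => (1 / 2) * (U S' * ((f S' - f S) * NI z' c S' S))),
    PP_symm w (fun S S' => (1 / 2) * (U S * ((f S - f S') * NI z' c S S'))),
    PP_smul w (1 / 2) fun S S' => U S * ((f S - f S') * NI z' c S S')]
  ring

/-- The inner cut: the difference of the conditional means behind two paths. -/
theorem cE_sub_NI (haz : a0 ≤ z) (hw : Hd a0 z w) {b : Px Q → ℝ} (hb : Lk 0 a0 b) (S x' : Px Q) :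
    cE2 w (pJ 0 z) (fun y y' => (b y - b y') * NI a0 z y y') S x' = cE w (pJ 0 z) b S - cE w (pJ 0 z) b x' := by
  have h0 := cE2_Mt_zero (c := 0) (al := 0) (be := a0) (d := z) (Nat.zero_le a0) hw hb S x'
  have hNM : ∀ y y' : Px Q, NM 0 0 a0 z y y' = NI a0 z y y' := fun y y' => by
    rw [NI_eq]
    rfl
  rw [cE_sub_eq]
  have e : cE2 w (pJ 0 z) (fun y y' => b y - b y') S x' =
      cE2 w (pJ 0 z) (fun y y' => (b y - b y') * NI a0 z y y') S x' +
        cE2 w (pJ 0 z) (fun y y' => (1 - NM 0 0 a0 z y y') * (b y - b y')) S x' := by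
    rw [← cE2_add]
    exact cE2_congr w _ (fun y y' => by rw [hNM]; ring) _ _
  rw [e, h0, add_zero]

/-- **THE PLAN OF FIVE REPLICAS, exact.** -/
theorem plan5 (haz : a0 ≤ z) (hzz : z ≤ z') (hzc : z' ≤ c) (hw1 : Hd a0 z w) (hw2 : Hd z z w) (hw3 : Hd z' z' w) (hw4 : Hd z' c w)
    {κ b f : Px Q → ℝ} (hκ : Lk 0 z κ) (hb : Lk 0 a0 b) (hf : Rk c f) :
    ev (P5 (pJ 0 z') (pJ 0 z)) w (psi5 a0 z z' c κ b f) =
      gc w (cC w (pJ 0 z') (cE w (pJ 0 z) κ) (cE w (pJ 0 z) b)) f := by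
  obtain ⟨H, hH⟩ : ∃ H : Px Q → ℝ, H = fun S => gm w fun S' => (f S - f S') * NI z' c S S' := ⟨_, rfl⟩
  have hHm : Mp (pJ 0 z') H := by
    rw [hH]
    exact mp_far (w := w) hzc hf fun t => t
  have hcr : Crs (pJ (Q := Q) 0 z') (pJ 0 z) := crs_pJ le_rfl hzz
  obtain ⟨F, hF⟩ : ∃ F : Px Q → ℝ, F = cE w (pJ 0 z) b := ⟨_, rfl⟩
  have e1 : ev (P5 (pJ 0 z') (pJ 0 z)) w (psi5 a0 z z' c κ b f) =
      gm w fun S => κ S * ((F S - cE w (pJ 0 z') F S) * H S) := by
    have h1 := ev_P5 (pJ 0 z') (pJ 0 z) w (fun S x' y y' S' =>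
      κ S * ((b y - b y') * NI a0 z y y') * ((f S - f S') * NI z' c S S'))
    refine Eq.trans h1 ?_
    congr 1
    funext S
    have h2 : ∀ x' y y' : Px Q, gm w (fun S' => κ S * ((b y - b y') * NI a0 z y y') * ((f S - f S') * NI z' c S S')) =
        ((b y - b y') * NI a0 z y y') * (κ S * H S) := fun x' y y' => by
      rw [gm_const_mul, hH]
      ring
    have h3 : ∀ x' : Px Q, cE w (pJ 0 z) (fun y => cE w (pJ 0 z)
        (fun y' => gm w fun S' => κ S * ((b y - b y') * NI a0 z y y') * ((f S - f S') * NI z' c S S')) x') S =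
        (F S - F x') * (κ S * H S) := fun x' => by
      rw [hF, ← cE_sub_NI haz hw1 hb S x']
      unfold cE2
      rw [← cE_mul_const]
      congr 1
      funext y
      rw [← cE_mul_const]
      congr 1
      funext y'
      exact h2 x' y y'
    have h4 : (fun x' => cE w (pJ 0 z) (fun y => cE w (pJ 0 z)
        (fun y' => gm w fun S' => κ S * ((b y - b y') * NI a0 z y y') * ((f S - f S') * NI z' c S S')) x') S) =
        fun x' => (F S - F x') * (κ S * H S) := funext h3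
    rw [h4, cE_mul_const]
    have h5 : (fun x' => F S - F x') = (fun _ : Px Q => F S) - F := rfl
    rw [h5, cE_sub, Pi.sub_apply, congrFun (cE_of_meas w (show Mp (pJ 0 z') (fun _ : Px Q => F S) from fun _ _ _ => rfl)) S]
    ring
  have hU : Lk 0 z' (cC w (pJ 0 z') (cE w (pJ 0 z) κ) (cE w (pJ 0 z) b)) := by
    refine Lk_mono (Nat.zero_le _) le_rfl (markov_cC hw3 ?_ ?_)
    · exact Lk_mono (Nat.zero_le _) hzz (markov_cE hw2 hκ)
    · exact Lk_mono (Nat.zero_le _) hzz (markov_cE hw2 (Lk_mono le_rfl haz hb))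
  rw [e1, ← gc_eq_far hw4 hU hf, ← hF]
  obtain ⟨K, hK⟩ : ∃ K : Px Q → ℝ, K = cE w (pJ 0 z) κ := ⟨_, rfl⟩
  rw [← hK]
  have hFz : Mp (pJ 0 z) F := by
    rw [hF]
    exact cE_meas _ _ _
  have hG : Mp (pJ 0 z) ((F - cE w (pJ 0 z') F) * H) := (hFz.sub (Mp.of_crs hcr (cE_meas _ _ _))).mul (Mp.of_crs hcr hHm)
  have e2 : (fun S => κ S * ((F S - cE w (pJ 0 z') F S) * H S)) = ((F - cE w (pJ 0 z') F) * H) * κ := by
    funext S
    simp only [Pi.mul_apply, Pi.sub_apply]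
    ring
  have e3 : (fun S => cC w (pJ 0 z') K F S * gm w fun S' => (f S - f S') * NI z' c S S') = H * cC w (pJ 0 z') K F := by
    funext S
    rw [Pi.mul_apply, hH]
    ring
  have e4 : H * cC w (pJ 0 z') K F = H * cE w (pJ 0 z') (K * (F - cE w (pJ 0 z') F)) := by
    congr 1
    have e5 : K * (F - cE w (pJ 0 z') F) = K * F - cE w (pJ 0 z') F * K := by ring
    rw [e5, cE_sub, cE_pull w (cE_meas w (pJ 0 z') F) K]
    unfold cC
    ring
  rw [e2, ← gm_mul_cE w hG κ, ← hK, e3, e4, gm_mul_cE w hHm]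
  congr 1
  ring

/-! ### The bound by three replicas -/

/-- **The bound**, with a path functional `L` behind `z` or in front (any `L ≥ |κ|` which is a function of what is behind `z'`, or a
constant). -/
theorem ev_P5_le (hzz : z ≤ z') (hzc : z' ≤ c) {L f : Px Q → ℝ} (hL : Mp (pJ 0 z') L) (hf : Rk c f) :
    ev (P5 (pJ 0 z') (pJ 0 z)) w (fun x => L (x 4) * NI a0 z (x 2) (x 1) * (|f (x 4) - f (x 0)| * NI z' c (x 4) (x 0))) =
      ev (P3 (pJ 0 z')) w (chi3 a0 z z' c L f) := by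
  obtain ⟨H, hH⟩ : ∃ H : Px Q → ℝ, H = fun S => gm w fun S' => |f S - f S'| * NI z' c S S' := ⟨_, rfl⟩
  have hHm : Mp (pJ 0 z') H := by
    rw [hH]
    exact mp_far (w := w) hzc hf fun t => |t|
  have h1 := ev_P5 (pJ 0 z') (pJ 0 z) w (fun S x' y y' S' => L S * NI a0 z y y' * (|f S - f S'| * NI z' c S S'))
  have h2 := ev_P3 (pJ 0 z') w (fun S x' S' => L S * NI a0 z S x' * (|f S - f S'| * NI z' c S S'))
  refine (h1.trans ?_).trans h2.symm
  have e1 : ∀ S : Px Q, cE w (pJ 0 z') (fun x' => cE w (pJ 0 z) (fun y => cE w (pJ 0 z)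
      (fun y' => gm w fun S' => L S * NI a0 z y y' * (|f S - f S'| * NI z' c S S')) x') S) S =
      cE w (pJ 0 z') (fun x' => cE2 w (pJ 0 z) (NI a0 z) S x') S * (L S * H S) := fun S => by
    rw [← cE_mul_const]
    congr 1
    funext x'
    unfold cE2
    rw [← cE_mul_const]
    congr 1
    funext y
    rw [← cE_mul_const]
    congr 1
    funext y'
    rw [gm_const_mul, hH]
    ring
  have e2 : ∀ S : Px Q, cE w (pJ 0 z') (fun b => gm w fun S' => L S * NI a0 z S b * (|f S - f S'| * NI z' c S S')) S =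
      cE w (pJ 0 z') (NI a0 z S) S * (L S * H S) := fun S => by
    rw [← cE_mul_const]
    congr 1
    funext x'
    rw [gm_const_mul, hH]
    ring
  rw [show (fun S => cE w (pJ 0 z') (fun x' => cE w (pJ 0 z) (fun y => cE w (pJ 0 z)
      (fun y' => gm w fun S' => L S * NI a0 z y y' * (|f S - f S'| * NI z' c S S')) x') S) S) =
      fun S => cE w (pJ 0 z') (fun x' => cE2 w (pJ 0 z) (NI a0 z) S x') S * (L S * H S) from funext e1,
    show (fun S => cE w (pJ 0 z') (fun b => gm w fun S' => L S * NI a0 z S b * (|f S - f S'| * NI z' c S S')) S) =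
      fun S => cE w (pJ 0 z') (NI a0 z S) S * (L S * H S) from funext e2]
  exact gm_pair w (crs_pJ le_rfl hzz) (NI a0 z) (H := fun S => L S * H S) (hL.mul hHm)

/-- The functional of three replicas. -/
def XT (w : Px Q → ℝ) (a0 z z' c : ℕ) (f : Px Q → ℝ) : ℝ := ev (P3 (pJ 0 z')) w (chi3 a0 z z' c (fun _ => 1) f)

theorem XT_nonneg (w : Px Q → ℝ) (a0 z z' c : ℕ) (f : Px Q → ℝ) : 0 ≤ XT w a0 z z' c f :=
  Pool.W7d29a1.C0.I52.ev_nonneg _ _ fun x => by
    unfold chi3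
    rw [one_mul]
    exact mul_nonneg (NI_nonneg _ _ _ _) (mul_nonneg (abs_nonneg _) (NI_nonneg _ _ _ _))

theorem abs_psi5_le {κ b f : Px Q → ℝ} {M : ℝ} (hM : ∀ S, |b S| ≤ M) (x : Fin 5 → Px Q) :
    |psi5 a0 z z' c κ b f x| ≤ 2 * M * (|κ (x 4)| * NI a0 z (x 2) (x 1) * (|f (x 4) - f (x 0)| * NI z' c (x 4) (x 0))) := by
  unfold psi5
  rw [abs_mul, abs_mul, abs_mul, abs_mul, abs_of_nonneg (NI_nonneg a0 z (x 2) (x 1)),
    abs_of_nonneg (NI_nonneg z' c (x 4) (x 0))]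
  have h1 : |b (x 2) - b (x 1)| ≤ 2 * M := (abs_sub _ _).trans (by linarith [hM (x 2), hM (x 1)])
  have h2 : 0 ≤ |κ (x 4)| * NI a0 z (x 2) (x 1) * (|f (x 4) - f (x 0)| * NI z' c (x 4) (x 0)) :=
    mul_nonneg (mul_nonneg (abs_nonneg _) (NI_nonneg _ _ _ _)) (mul_nonneg (abs_nonneg _) (NI_nonneg _ _ _ _))
  calc |κ (x 4)| * (|b (x 2) - b (x 1)| * NI a0 z (x 2) (x 1)) * (|f (x 4) - f (x 0)| * NI z' c (x 4) (x 0))
      = |b (x 2) - b (x 1)| * (|κ (x 4)| * NI a0 z (x 2) (x 1) * (|f (x 4) - f (x 0)| * NI z' c (x 4) (x 0))) := by ring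
    _ ≤ _ := mul_le_mul_of_nonneg_right h1 h2

/-- **The sum over the rows `j` of the group**: `∑ |κ_j| ≤ Λ` on every path. -/
theorem sum_abs_plan5_le {ι : Type*} (J : Finset ι) (hzz : z ≤ z') (hzc : z' ≤ c) {κ b : ι → Px Q → ℝ} {f : Px Q → ℝ} (hf : Rk c f)
    {M Λ : ℝ} (hM0 : 0 ≤ M) (hM : ∀ j ∈ J, ∀ S, |b j S| ≤ M) (hΛ : ∀ S, ∑ j ∈ J, |κ j S| ≤ Λ) :
    ∑ j ∈ J, |ev (P5 (pJ 0 z') (pJ 0 z)) w (psi5 a0 z z' c (κ j) (b j) f)| ≤ 2 * M * (Λ * XT w a0 z z' c f) := by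
  have h1 : ∀ j ∈ J, |ev (P5 (pJ 0 z') (pJ 0 z)) w (psi5 a0 z z' c (κ j) (b j) f)| ≤
      ev (P5 (pJ 0 z') (pJ 0 z)) w fun x =>
        2 * M * (|κ j (x 4)| * NI a0 z (x 2) (x 1) * (|f (x 4) - f (x 0)| * NI z' c (x 4) (x 0))) :=
    fun j hj => abs_ev_le _ _ fun x => abs_psi5_le (hM j hj) x
  refine (sum_le_sum h1).trans ?_
  rw [← ev_sum]
  have h2 : ∀ x : Fin 5 → Px Q, ∑ j ∈ J,
      2 * M * (|κ j (x 4)| * NI a0 z (x 2) (x 1) * (|f (x 4) - f (x 0)| * NI z' c (x 4) (x 0))) ≤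
      2 * M * Λ * (1 * NI a0 z (x 2) (x 1) * (|f (x 4) - f (x 0)| * NI z' c (x 4) (x 0))) := fun x => by
    have h3 : 0 ≤ NI a0 z (x 2) (x 1) * (|f (x 4) - f (x 0)| * NI z' c (x 4) (x 0)) :=
      mul_nonneg (NI_nonneg _ _ _ _) (mul_nonneg (abs_nonneg _) (NI_nonneg _ _ _ _))
    have e : ∑ j ∈ J, 2 * M * (|κ j (x 4)| * NI a0 z (x 2) (x 1) * (|f (x 4) - f (x 0)| * NI z' c (x 4) (x 0))) =
        2 * M * ((∑ j ∈ J, |κ j (x 4)|) * (NI a0 z (x 2) (x 1) * (|f (x 4) - f (x 0)| * NI z' c (x 4) (x 0)))) := by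
      rw [sum_mul, mul_sum]
      exact sum_congr rfl fun j _ => by ring
    rw [e, one_mul, mul_assoc (2 * M) Λ]
    exact mul_le_mul_of_nonneg_left (mul_le_mul_of_nonneg_right (hΛ (x 4)) h3) (by positivity)
  refine (ev_mono _ _ h2).trans (le_of_eq ?_)
  rw [ev_smul, ev_P5_le (L := fun _ => (1 : ℝ)) hzz hzc (fun _ _ _ => rfl) hf]
  unfold XT
  ring

theorem abs_plan5_le (hzz : z ≤ z') (hzc : z' ≤ c) {κ b f : Px Q → ℝ} (hf : Rk c f) {M K : ℝ} (hM0 : 0 ≤ M)
    (hM : ∀ S, |b S| ≤ M) (hK : ∀ S, |κ S| ≤ K) :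
    |ev (P5 (pJ 0 z') (pJ 0 z)) w (psi5 a0 z z' c κ b f)| ≤ 2 * M * (K * XT w a0 z z' c f) := by
  have h := sum_abs_plan5_le (w := w) (a0 := a0) ({()} : Finset Unit) hzz hzc (κ := fun _ => κ) (b := fun _ => b) hf hM0
    (fun _ _ => hM) (Λ := K) (fun S => by rw [sum_singleton]; exact hK S)
  rwa [sum_singleton] at h

/-! ### The derivative along a path functional -/

/-- **The derivative of the term along `C`**: an insertion in the plan. `C` keeps the swap of the heads (the fields of the slabs do). -/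
theorem hasDerivAt_TT (haz : a0 ≤ z) (hzz : z ≤ z') (hzc : z' ≤ c) (hw : HdAll a0 w) {C : Px Q → ℝ} (hC : HdAll a0 C)
    {κ b f : Px Q → ℝ} (hκ : Lk 0 z κ) (hb : Lk 0 a0 b) (hf : Rk c f) (t : ℝ) :
    HasDerivAt (fun t : ℝ => gc (w + t • C) (cC (w + t • C) (pJ 0 z') (cE (w + t • C) (pJ 0 z) κ) (cE (w + t • C) (pJ 0 z) b)) f)
      (ins (P5 (pJ 0 z') (pJ 0 z)) (w + t • C) C (psi5 a0 z z' c κ b f)) t := by
  have h1 : (fun t : ℝ => gc (w + t • C) (cC (w + t • C) (pJ 0 z') (cE (w + t • C) (pJ 0 z) κ) (cE (w + t • C) (pJ 0 z) b)) f) =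
      fun t : ℝ => ev (P5 (pJ 0 z') (pJ 0 z)) (w + t • C) (psi5 a0 z z' c κ b f) := by
    funext t
    have hA : HdAll a0 (w + t • C) := hw.add (hC.smul t)
    exact (plan5 haz hzz hzc (hA a0 z le_rfl haz) (hA z z haz le_rfl) (hA z' z' (haz.trans hzz) le_rfl)
      (hA z' c (haz.trans hzz) hzc) hκ hb hf).symm
  rw [h1]
  exact hasDerivAt_ev (gline w C t) _ _

end

end Pool.Agent.W_7d29a1_C0.CutT57
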