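import Pool.Agent.W_7d29a1_C0.Ins52
import Pool.Agent.W_7d29a1_C0.BoxG41

/-!
CURV0 (MP_7d29a1_pr): kernel systems of replicas (free and conditional replicas, trees), closed under derivatives: `KS X ι` draws
the replica `i` from the set `A i x`, with the Gibbs weights `exp w`; `KS.dbl` puts one shadow to every replica, and the derivative
of `K` is an insertion in `K.dbl` (`KS.dr`, in the frame `Ev`, `Dr` of helper41). `Plan.ks`: every plan of Ins52 is a kernel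
system. `two_slab`: two insertions over two ordered slabs. (helper52)
-/

set_option autoImplicit false
set_option linter.unusedSectionVars false
set_option linter.unusedVariables false

namespace Pool.W7d29a1.C0.I52

open Finset Filter Topology MeasureTheory ProbabilityTheory
open Pool.Agent.W_7d29a1_C0 Pool.W7d29a1.C0 Pool.W7d29a1.C0.VT31 Pool.W7d29a1.C0.H41
open Pool.Agent.W_7d29a1_F Pool.Agent.W_7d29a1_C0.H32

noncomputable section

variable {X : Type*} [Fintype X] [DecidableEq X]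

/-! ### Kernel systems -/

/-- The weights of a kernel system. -/
def kr {ι : Type*} [Fintype ι] (A : ι → (ι → X) → Finset X) (w : X → ℝ) (x : ι → X) : ℝ := ∏ i, ker w (A i x) (x i)

/-- A kernel system: the replica `i` is drawn from the set `A i x`. -/
structure KS (X ι : Type*) [Fintype X] [DecidableEq X] [Fintype ι] [DecidableEq ι] where
  A : ι → (ι → X) → Finset X
  ne : ∀ i x, (A i x).Nonempty
  one : ∀ w, ∑ x, kr A w x = 1

variable {ι : Type*} [Fintype ι] [DecidableEq ι]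

theorem kr_nonneg (A : ι → (ι → X) → Finset X) (w : X → ℝ) (x : ι → X) : 0 ≤ kr A w x :=
  Finset.prod_nonneg fun i _ => ker_nonneg w _ _

theorem meas_ker (A : Finset X) (s : X) : Measurable fun w : X → ℝ => ker w A s := by
  unfold ker
  by_cases hs : s ∈ A
  · simp only [hs, if_true]
    unfold zs
    exact (measurable_pi_apply s).exp.div (Finset.measurable_sum _ fun s _ => (measurable_pi_apply s).exp)
  · simp only [hs, if_false]
    exact measurable_const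

/-- The kernel system as a replica system. -/
def KS.toEv (K : KS X ι) : Ev X ι where
  ρ := kr K.A
  nonneg := kr_nonneg K.A
  one := K.one
  meas := fun x => Finset.measurable_prod _ fun i _ => meas_ker _ _

theorem KS.ev_eq (K : KS X ι) (w : X → ℝ) (Ψ : (ι → X) → ℝ) : K.toEv.ev w Ψ = ∑ x, kr K.A w x * Ψ x := rfl

/-- The sets of the doubled system. -/
def dA (A : ι → (ι → X) → Finset X) (j : ι ⊕ ι) (y : ι ⊕ ι → X) : Finset X := A (j.elim id id) fun i => y (Sum.inl i)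

theorem kr_dA (A : ι → (ι → X) → Finset X) (w : X → ℝ) (x z : ι → X) :
    kr (dA A) w (Sum.elim x z) = kr A w x * ∏ i, ker w (A i x) (z i) := by
  unfold kr dA
  rw [Fintype.prod_sum_type]
  rfl

theorem sum_sum (F : (ι ⊕ ι → X) → ℝ) : ∑ y, F y = ∑ x : ι → X, ∑ z : ι → X, F (Sum.elim x z) := by
  rw [← (Equiv.sumArrowEquivProdArrow ι ι X).symm.sum_comp F, Fintype.sum_prod_type]
  rfl

/-- The mean over the shadows of a function of one shadow. -/
theorem sum_one (A : ι → (ι → X) → Finset X) (hA : ∀ i x, (A i x).Nonempty) (w : X → ℝ) (x : ι → X) (i : ι) (B : X → ℝ) :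
    ∑ z : ι → X, (∏ k, ker w (A k x) (z k)) * B (z i) = av w (A i x) B := by
  have e1 : ∀ z : ι → X, (∏ k, ker w (A k x) (z k)) * B (z i) =
      ∏ k, ker w (A k x) (z k) * (if k = i then B (z k) else 1) := fun z => by
    rw [Finset.prod_mul_distrib]
    congr 1
    rw [Finset.prod_eq_single i (fun k _ hk => if_neg hk) fun h => absurd (mem_univ i) h, if_pos rfl]
  have e2 : ∑ z : ι → X, ∏ k, ker w (A k x) (z k) * (if k = i then B (z k) else 1) =
      ∏ k, ∑ s, ker w (A k x) s * (if k = i then B s else 1) := by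
    rw [Finset.prod_univ_sum, Fintype.piFinset_univ]
  rw [Finset.sum_congr rfl fun z _ => e1 z, e2, Finset.prod_eq_single i]
  · simp only [if_true]
    rfl
  · intro k _ hk
    simp only [if_neg hk, mul_one]
    exact sum_ker w (hA k x)
  · exact fun h => absurd (mem_univ i) h

theorem sum_shadow (A : ι → (ι → X) → Finset X) (hA : ∀ i x, (A i x).Nonempty) (w : X → ℝ) (x : ι → X) :
    ∑ z : ι → X, ∏ k, ker w (A k x) (z k) = 1 := by
  have e2 : ∑ z : ι → X, ∏ k, ker w (A k x) (z k) = ∏ k, ∑ s, ker w (A k x) s := by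
    rw [Finset.prod_univ_sum, Fintype.piFinset_univ]
  rw [e2]
  exact Finset.prod_eq_one fun k _ => sum_ker w (hA k x)

/-- The doubled system: one shadow for every replica. -/
def KS.dbl (K : KS X ι) : KS X (ι ⊕ ι) where
  A := dA K.A
  ne := fun j y => K.ne _ _
  one := fun w => by
    rw [sum_sum]
    have e : ∀ x : ι → X, ∑ z : ι → X, kr (dA K.A) w (Sum.elim x z) = kr K.A w x := fun x => by
      rw [Finset.sum_congr rfl fun z _ => kr_dA K.A w x z, ← Finset.mul_sum, sum_shadow K.A K.ne, mul_one]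
    rw [Finset.sum_congr rfl fun x _ => e x]
    exact K.one w

/-- The shadows are integrated first. -/
theorem KS.dbl_ev (K : KS X ι) (w : X → ℝ) (Φ : (ι ⊕ ι → X) → ℝ) :
    K.dbl.toEv.ev w Φ = K.toEv.ev w fun x => ∑ z : ι → X, (∏ i, ker w (K.A i x) (z i)) * Φ (Sum.elim x z) := by
  rw [KS.ev_eq, KS.ev_eq, sum_sum]
  refine Finset.sum_congr rfl fun x _ => ?_
  rw [Finset.mul_sum]
  refine Finset.sum_congr rfl fun z _ => ?_
  show kr (dA K.A) w (Sum.elim x z) * Φ (Sum.elim x z) = _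
  rw [kr_dA]
  ring

/-- An observable of the old replicas. -/
theorem KS.dbl_old (K : KS X ι) (w : X → ℝ) (Ψ : (ι → X) → ℝ) :
    K.dbl.toEv.ev w (fun y => Ψ fun i => y (Sum.inl i)) = K.toEv.ev w Ψ := by
  rw [KS.dbl_ev]
  refine H41.ev_congr _ _ fun x => ?_
  have e : ∀ z : ι → X, (∏ i, ker w (K.A i x) (z i)) * Ψ (fun i => Sum.elim x z (Sum.inl i)) =
      (∏ i, ker w (K.A i x) (z i)) * Ψ x := fun z => rfl
  rw [Finset.sum_congr rfl fun z _ => e z, ← Finset.sum_mul, sum_shadow K.A K.ne, one_mul]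

/-- An observable of the old replicas and of ONE shadow. -/
theorem KS.dbl_one (K : KS X ι) (w : X → ℝ) (i : ι) (Φ : (ι → X) → X → ℝ) :
    K.dbl.toEv.ev w (fun y => Φ (fun k => y (Sum.inl k)) (y (Sum.inr i))) =
      K.toEv.ev w fun x => av w (K.A i x) (Φ x) := by
  rw [KS.dbl_ev]
  refine H41.ev_congr _ _ fun x => ?_
  exact sum_one K.A K.ne w x i (Φ x)

/-- The signs of the insertion. -/
def sgs (j : ι ⊕ ι) : ℝ := j.elim (fun _ => 1) fun _ => -1

theorem KS.ins_ev (K : KS X ι) (w B : X → ℝ) (Ψ : (ι → X) → ℝ) :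
    K.dbl.toEv.ev w (fun y => Ψ (fun i => y (Sum.inl i)) * ∑ j, sgs j * B (y j)) =
      K.toEv.ev w fun x => Ψ x * ∑ i, (B (x i) - av w (K.A i x) B) := by
  have e : ∀ y : ι ⊕ ι → X, Ψ (fun i => y (Sum.inl i)) * ∑ j, sgs j * B (y j) =
      ∑ i, Ψ (fun i => y (Sum.inl i)) * (B (y (Sum.inl i)) - B (y (Sum.inr i))) := fun y => by
    rw [← Finset.mul_sum, Fintype.sum_sum_type, ← Finset.sum_add_distrib]
    congr 1
    refine Finset.sum_congr rfl fun i _ => ?_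
    show 1 * B (y (Sum.inl i)) + -1 * B (y (Sum.inr i)) = _
    ring
  rw [H41.ev_congr _ _ e, H41.ev_sum]
  have e2 : ∀ i, K.dbl.toEv.ev w (fun y => Ψ (fun i => y (Sum.inl i)) * (B (y (Sum.inl i)) - B (y (Sum.inr i)))) =
      K.toEv.ev w fun x => Ψ x * (B (x i) - av w (K.A i x) B) := fun i => by
    rw [K.dbl_one w i fun x s => Ψ x * (B (x i) - B s)]
    refine H41.ev_congr _ _ fun x => ?_
    rw [av_smul, av_sub w (K.A i x) (fun _ => B (x i)) B, av_const w (K.ne i x)]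
  rw [Finset.sum_congr rfl fun i _ => e2 i, ← H41.ev_sum]
  exact H41.ev_congr _ _ fun x => (Finset.mul_sum _ _ _).symm

theorem hasDerivAt_kr {A : ι → (ι → X) → Finset X} (hA : ∀ i x, (A i x).Nonempty) {w : ℝ → X → ℝ} {B : X → ℝ} {t : ℝ}
    (h : HasDerivAt w B t) (x : ι → X) :
    HasDerivAt (fun t => kr A (w t) x) (kr A (w t) x * ∑ i, (B (x i) - av (w t) (A i x) B)) t := by
  unfold kr
  refine (HasDerivAt.fun_finsetProd fun i _ => hasDerivAt_ker h (hA i x) (x i)).congr_deriv ?_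
  rw [Finset.mul_sum]
  refine Finset.sum_congr rfl fun i hi => ?_
  rw [smul_eq_mul, ← mul_assoc, Finset.prod_erase_mul _ _ hi]

/-- **The derivative of a kernel system is an insertion in the doubled system.** -/
def KS.dr (K : KS X ι) : Dr K.toEv K.dbl.toEv where
  emb := Sum.inl
  sg := sgs
  der := fun Ψ {w A t} h => by
    rw [K.ins_ev (w t) A Ψ]
    have h1 : HasDerivAt (fun t => ∑ x, kr K.A (w t) x * Ψ x)
        (∑ x, kr K.A (w t) x * (∑ i, (A (x i) - av (w t) (K.A i x) A)) * Ψ x) t :=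
      HasDerivAt.fun_sum fun x _ => (hasDerivAt_kr K.ne h x).mul_const (Ψ x)
    refine h1.congr_deriv ?_
    rw [KS.ev_eq]
    exact Finset.sum_congr rfl fun x _ => by ring

theorem KS.sz (K : KS X ι) : K.dr.sz = 2 * Fintype.card ι := by
  show ∑ j : ι ⊕ ι, |sgs j| = _
  rw [Fintype.sum_sum_type]
  have e1 : ∀ i : ι, |sgs (Sum.inl i : ι ⊕ ι)| = 1 := fun i => by
    show |(1 : ℝ)| = 1
    exact abs_one
  have e2 : ∀ i : ι, |sgs (Sum.inr i : ι ⊕ ι)| = 1 := fun i => by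
    show |(-1 : ℝ)| = 1
    rw [abs_neg, abs_one]
  rw [Finset.sum_congr rfl fun i _ => e1 i, Finset.sum_congr rfl fun i _ => e2 i, Finset.sum_const, Finset.card_univ,
    nsmul_eq_mul, mul_one]
  ring

/-! ### Plans are kernel systems -/

theorem wt_eq_kr : {m : ℕ} → (P : Plan X m) → (w : X → ℝ) → (x : Fin m → X) → wt P w x = kr P.S w x
  | _, Plan.nil, w, x => by
    show (1 : ℝ) = _
    unfold kr
    rw [Finset.univ_eq_empty, Finset.prod_empty]
  | _, Plan.cons P A h, w, x => by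
    rw [wt_cons, wt_eq_kr P w (Fin.tail x)]
    unfold kr
    rw [Fin.prod_univ_succ, S_cons_zero, mul_comm]
    rfl

/-- The kernel system of a plan. -/
def Plan.ks {m : ℕ} (P : Plan X m) : KS X (Fin m) where
  A := P.S
  ne := S_ne P
  one := fun w => by
    have h := ev_one P w
    unfold ev at h
    rw [← h]
    exact Finset.sum_congr rfl fun x _ => by rw [mul_one, wt_eq_kr]

theorem ks_ev {m : ℕ} (P : Plan X m) (w : X → ℝ) (Ψ : (Fin m → X) → ℝ) : P.ks.toEv.ev w Ψ = ev P w Ψ := by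
  rw [KS.ev_eq]
  unfold ev
  exact Finset.sum_congr rfl fun x _ => by rw [wt_eq_kr]; rfl

/-- The insertion of Ins52 is the insertion of the doubled system. -/
theorem ks_ins {m : ℕ} (P : Plan X m) (w B : X → ℝ) (Ψ : (Fin m → X) → ℝ) :
    P.ks.dbl.toEv.ev w (P.ks.dr.ins B Ψ) = ins P w B Ψ := by
  rw [ins_eq, ← ks_ev]
  exact P.ks.ins_ev w B Ψ

/-- A replica of a plan and one shadow. -/
theorem ks_one {m : ℕ} (P : Plan X m) (w : X → ℝ) (i : Fin m) (Φ : (Fin m → X) → X → ℝ) :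
    P.ks.dbl.toEv.ev w (fun y => Φ (fun k => y (Sum.inl k)) (y (Sum.inr i))) =
      ev (P.sh i) w fun x => Φ (Fin.tail x) (x 0) := by
  rw [KS.dbl_one, ks_ev]
  unfold Plan.sh
  rw [ev_cons]
  refine I52.ev_congr P w fun x => ?_
  simp only [Fin.tail_cons, Fin.cons_zero]
  rfl

/-! ### The two insertions commute -/

theorem ker_contDiff {n : WithTop ℕ∞} {A : Finset X} (h : A.Nonempty) (s : X) : ContDiff ℝ n fun v : X → ℝ => ker v A s := by
  unfold ker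
  by_cases hs : s ∈ A
  · simp only [hs, if_true]
    refine ContDiff.div (Real.contDiff_exp.comp (contDiff_apply ℝ ℝ s)) ?_ fun v => (zs_pos v h).ne'
    unfold zs
    exact ContDiff.sum fun s _ => Real.contDiff_exp.comp (contDiff_apply ℝ ℝ s)
  · simp only [hs, if_false]
    exact contDiff_const

theorem KS.contDiff (K : KS X ι) (Ψ : (ι → X) → ℝ) : ContDiff ℝ 2 fun v : X → ℝ => K.toEv.ev v Ψ := by
  have e : (fun v : X → ℝ => K.toEv.ev v Ψ) = fun v => ∑ x, (∏ i, ker v (K.A i x) (x i)) * Ψ x := rfl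
  rw [e]
  exact ContDiff.sum fun x _ => (contDiff_prod fun i _ => ker_contDiff (K.ne i x) (x i)).mul contDiff_const

theorem KS.fderiv (K : KS X ι) (Ψ : (ι → X) → ℝ) (w A : X → ℝ) :
    _root_.fderiv ℝ (fun v : X → ℝ => K.toEv.ev v Ψ) w A = K.dbl.toEv.ev w (K.dr.ins A Ψ) := by
  have h2 : HasDerivAt (fun u : ℝ => K.toEv.ev (w + u • A) Ψ) (_root_.fderiv ℝ (fun v : X → ℝ => K.toEv.ev v Ψ) w A) 0 := by
    have h3 : HasFDerivAt (fun v : X → ℝ => K.toEv.ev v Ψ) (_root_.fderiv ℝ (fun v : X → ℝ => K.toEv.ev v Ψ) w)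
        (w + (0 : ℝ) • A) := by
      rw [zero_smul, add_zero]
      exact (((K.contDiff Ψ).differentiable (by norm_num)) w).hasFDerivAt
    exact h3.comp_hasDerivAt 0 (gline w A 0)
  have h4 : HasDerivAt (fun u : ℝ => K.toEv.ev (w + u • A) Ψ) (K.dbl.toEv.ev w (K.dr.ins A Ψ)) 0 := by
    have h5 := K.dr.der' Ψ (gline w A 0)
    simpa using h5
  exact h2.unique h4

/-- **The two insertions commute.** -/
theorem KS.swap (K : KS X ι) (Ψ : (ι → X) → ℝ) (w A B : X → ℝ) :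
    K.dbl.dbl.toEv.ev w (K.dbl.dr.ins A (K.dr.ins B Ψ)) = K.dbl.dbl.toEv.ev w (K.dbl.dr.ins B (K.dr.ins A Ψ)) := by
  have hs : ContDiff ℝ 2 fun v : X → ℝ => K.toEv.ev v Ψ := K.contDiff Ψ
  have hd : DifferentiableAt ℝ (_root_.fderiv ℝ fun v : X → ℝ => K.toEv.ev v Ψ) w :=
    ((hs.fderiv_right (m := 1) (by norm_num)).differentiable (by norm_num)) w
  have key : ∀ a b : X → ℝ, K.dbl.dbl.toEv.ev w (K.dbl.dr.ins a (K.dr.ins b Ψ)) =
      _root_.fderiv ℝ (_root_.fderiv ℝ fun v : X → ℝ => K.toEv.ev v Ψ) w a b := fun a b => by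
    have e1 : (fun v : X → ℝ => K.dbl.toEv.ev v (K.dr.ins b Ψ)) =
        fun v => _root_.fderiv ℝ (fun v : X → ℝ => K.toEv.ev v Ψ) v b := funext fun v => (K.fderiv Ψ v b).symm
    rw [← K.dbl.fderiv (K.dr.ins b Ψ) w a, e1, fderiv_clm_apply hd (differentiableAt_const b)]
    simp
  rw [key, key]
  have h2 : minSmoothness ℝ 2 ≤ (2 : WithTop ℕ∞) := by
    rw [minSmoothness_of_isRCLikeNormedField]
  exact (hs.contDiffAt.isSymmSndFDerivAt h2) A B

/-! ### Two ordered slabs -/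

variable {μ : Measure ℝ} {f f' : ℝ → ℝ}

theorem SS_blind {s : ℝ → ℝ} {S1 S2 : Finset Pt} (hd : Disjoint S1 S2) {c1 : Pt → Env → ℝ}
    (h12 : ∀ p ∈ S1, ∀ q ∈ S2, ∀ (η : Env) (x : ℝ), c1 p (Function.update η q x) = c1 p η) {q : Pt} (hq : q ∈ S2) (η : Env)
    (x : ℝ) : SS s S1 c1 (Function.update η q x) = SS s S1 c1 η := by
  unfold SS
  refine Finset.sum_congr rfl fun p hp => ?_
  have hne : p ≠ q := fun h => Finset.disjoint_left.1 hd hp (h ▸ hq)
  rw [h12 p hp q hq, Function.update_of_ne hne]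

/-- Integration by parts over `S2` in the presence of the score sum of `S1`, which does not see `S2`. -/
theorem ibp_SS [IsProbabilityMeasure μ] (K : KS X ι) (h : DenLaw μ f f') {S1 S2 : Finset Pt} (hd : Disjoint S1 S2)
    {c1 c2 : Pt → Env → ℝ} {M1 M2 V D : ℝ} (b1 : H19.BF S1 c1 M1) (b2 : H19.BF S2 c2 M2)
    (h12 : ∀ p ∈ S1, ∀ q ∈ S2, ∀ (η : Env) (x : ℝ), c1 p (Function.update η q x) = c1 p η)
    {w : Env → X → ℝ} {N : Pt → X → ℝ} (hw : Wt S2 w N V) {Ψ : Env → (ι → X) → ℝ} (hΨ : Obs Ψ D)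
    (hbl : ∀ q ∈ S2, ∀ (η : Env) (x : ℝ), Ψ (Function.update η q x) = Ψ η) :
    ∫ η, K.dbl.toEv.ev (w η) (K.dr.ins (H19.Cf S2 c2 N η) (Ψ η)) * SS (sc f f') S1 c1 η ∂(law μ) =
      ∫ η, K.toEv.ev (w η) (Ψ η) * (SS (sc f f') S1 c1 η * SS (sc f f') S2 c2 η) ∂(law μ) := by
  obtain ⟨K0, θ0, hs⟩ := h.sg
  set s : ℝ → ℝ := sc f f' with hsdef
  have m0 : MemLp (fun η => K.toEv.ev (w η) (Ψ η)) 2 (law μ) := hΨ.memLp K.toEv hw.meas
  have m1 : ∀ q ∈ S2, MemLp (fun η => K.dbl.toEv.ev (w η) (K.dr.ins (N q) (Ψ η))) 2 (law μ) := fun q hq =>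
    (hΨ.ins K.dr (A := fun _ => N q) measurable_const fun η y => hw.bd q hq y).memLp K.dbl.toEv hw.meas
  have hder : ∀ q ∈ S2, ∀ (η : Env) (x : ℝ),
      HasDerivAt (fun t => K.toEv.ev (w (Function.update η q t)) (Ψ (Function.update η q t)) *
        SS s S1 c1 (Function.update η q t))
        (K.dbl.toEv.ev (w (Function.update η q x)) (K.dr.ins (N q) (Ψ (Function.update η q x))) *
          SS s S1 c1 (Function.update η q x)) x := fun q hq η x => by
    have e1 : ∀ t : ℝ, Ψ (Function.update η q t) = Ψ η := fun t => hbl q hq η t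
    have e2 : ∀ t : ℝ, SS s S1 c1 (Function.update η q t) = SS s S1 c1 η := fun t => SS_blind hd h12 hq η t
    simp only [e1, e2]
    exact (K.dr.der' (Ψ η) (hw.der q hq η x)).mul_const _
  have i0 : ∀ q ∈ S2, Integrable (fun η => c2 q η * (K.toEv.ev (w η) (Ψ η) * SS s S1 c1 η)) (law μ) := fun q hq => by
    have := m0.integrable_mul (H19.memLp_bd (b2.meas q hq) (b2.bd q hq) (H19.memLp_SS hs b1))
    refine this.congr (ae_of_all _ fun η => ?_)
    show K.toEv.ev (w η) (Ψ η) * (c2 q η * SS s S1 c1 η) = _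
    ring
  have i1 : ∀ q ∈ S2, Integrable (fun η => c2 q η * (K.dbl.toEv.ev (w η) (K.dr.ins (N q) (Ψ η)) * SS s S1 c1 η)) (law μ) :=
    fun q hq => by
      have := (m1 q hq).integrable_mul (H19.memLp_bd (b2.meas q hq) (b2.bd q hq) (H19.memLp_SS hs b1))
      refine this.congr (ae_of_all _ fun η => ?_)
      show K.dbl.toEv.ev (w η) (K.dr.ins (N q) (Ψ η)) * (c2 q η * SS s S1 c1 η) = _
      ring
  have i2 : ∀ q ∈ S2, Integrable (fun η => c2 q η * (K.toEv.ev (w η) (Ψ η) * SS s S1 c1 η) * s (η q)) (law μ) :=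
    fun q hq => by
      have := m0.integrable_mul (H19.memLp_SS_mul hs b1 (b2.single hq))
      refine this.congr (ae_of_all _ fun η => ?_)
      show K.toEv.ev (w η) (Ψ η) * (SS s S1 c1 η * SS s {q} c2 η) = _
      rw [H19.SS_single]
      ring
  have key := h.ibp_slab S2 (c := c2) (Φ := fun η => K.toEv.ev (w η) (Ψ η) * SS s S1 c1 η)
    (Φ' := fun q η => K.dbl.toEv.ev (w η) (K.dr.ins (N q) (Ψ η)) * SS s S1 c1 η) b2.self hder i0 i1 i2
  have e3 : ∀ η, K.dbl.toEv.ev (w η) (K.dr.ins (H19.Cf S2 c2 N η) (Ψ η)) * SS s S1 c1 η =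
      ∑ p ∈ S2, c2 p η * (K.dbl.toEv.ev (w η) (K.dr.ins (N p) (Ψ η)) * SS s S1 c1 η) := fun η => by
    rw [ev_ins_Cf, Finset.sum_mul]
    exact Finset.sum_congr rfl fun p _ => by ring
  simp_rw [e3]
  rw [key]
  exact integral_congr_ae (ae_of_all _ fun η => by
    show K.toEv.ev (w η) (Ψ η) * SS s S1 c1 η * SS s S2 c2 η = _
    ring)

theorem ins_split (K : KS X ι) (w T C : X → ℝ) (Ψ : (ι → X) → ℝ) :
    K.dbl.toEv.ev w (K.dr.ins T Ψ) = K.dbl.toEv.ev w (K.dr.ins C Ψ) + K.dbl.toEv.ev w (K.dr.ins (T - C) Ψ) := by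
  have e : T = C + (T - C) := by
    funext s
    simp only [Pi.add_apply, Pi.sub_apply]
    ring
  rw [← H41.ev_add]
  refine H41.ev_congr _ _ fun y => ?_
  rw [← H41.ins_add, ← e]

/-- The second insertion is linear in the first inserted function. -/
theorem ins_split' (K : KS X ι) (w T T1 C : X → ℝ) (Ψ : (ι → X) → ℝ) :
    K.dbl.dbl.toEv.ev w (K.dbl.dr.ins T (K.dr.ins T1 Ψ)) = K.dbl.dbl.toEv.ev w (K.dbl.dr.ins T (K.dr.ins C Ψ)) +
      K.dbl.dbl.toEv.ev w (K.dbl.dr.ins T (K.dr.ins (T1 - C) Ψ)) := by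
  rw [← H41.ev_add]
  refine H41.ev_congr _ _ fun y => ?_
  have e : T1 = C + (T1 - C) := by
    funext s
    simp only [Pi.add_apply, Pi.sub_apply]
    ring
  have e2 : K.dr.ins T1 Ψ (fun i => y (K.dbl.dr.emb i)) =
      K.dr.ins C Ψ (fun i => y (K.dbl.dr.emb i)) + K.dr.ins (T1 - C) Ψ (fun i => y (K.dbl.dr.emb i)) := by
    rw [← H41.ins_add, ← e]
  show K.dr.ins T1 Ψ (fun i => y (K.dbl.dr.emb i)) * _ = K.dr.ins C Ψ (fun i => y (K.dbl.dr.emb i)) * _ +
    K.dr.ins (T1 - C) Ψ (fun i => y (K.dbl.dr.emb i)) * _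
  rw [e2]
  ring

/-- **Two insertions over two ordered slabs**: `S1` is to the left of `S2` (`c1` does not see `S2`), `T1`, `T2`, `Ψ` do not see the
slabs. No derivative of a field appears. -/
theorem two_slab [Nonempty X] [IsProbabilityMeasure μ] (K : KS X ι) (h : DenLaw μ f f') {S1 S2 : Finset Pt} (hd : Disjoint S1 S2)
    {c1 c2 : Pt → Env → ℝ} {M1 M2 V D a1 a2 : ℝ} (b1 : H19.BF S1 c1 M1) (b2 : H19.BF S2 c2 M2)
    (h12 : ∀ p ∈ S1, ∀ q ∈ S2, ∀ (η : Env) (x : ℝ), c1 p (Function.update η q x) = c1 p η)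
    {w : Env → X → ℝ} {N : Pt → X → ℝ} (w1 : Wt S1 w N V) (w2 : Wt S2 w N V) {Ψ : Env → (ι → X) → ℝ} (hΨ : Obs Ψ D)
    {T1 T2 : Env → X → ℝ} (m1 : Measurable T1) (m2 : Measurable T2) (k1 : ∀ η s, |T1 η s| ≤ a1) (k2 : ∀ η s, |T2 η s| ≤ a2)
    (hbΨ : ∀ q ∈ S1 ∪ S2, ∀ (η : Env) (x : ℝ), Ψ (Function.update η q x) = Ψ η)
    (hb1 : ∀ q ∈ S2, ∀ (η : Env) (x : ℝ), T1 (Function.update η q x) = T1 η)
    (hb2 : ∀ q ∈ S1, ∀ (η : Env) (x : ℝ), T2 (Function.update η q x) = T2 η) :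
    ∫ η, K.dbl.dbl.toEv.ev (w η) (K.dbl.dr.ins (T2 η) (K.dr.ins (T1 η) (Ψ η))) ∂(law μ) =
      ∫ η, K.toEv.ev (w η) (Ψ η) * (SS (sc f f') S1 c1 η * SS (sc f f') S2 c2 η) ∂(law μ) +
      ∫ η, K.dbl.toEv.ev (w η) (K.dr.ins (T2 η - H19.Cf S2 c2 N η) (Ψ η)) * SS (sc f f') S1 c1 η ∂(law μ) +
      ∫ η, K.dbl.toEv.ev (w η) (K.dr.ins (T1 η - H19.Cf S1 c1 N η) (Ψ η)) * SS (sc f f') S2 c2 η ∂(law μ) +
      ∫ η, K.dbl.dbl.toEv.ev (w η)
        (K.dbl.dr.ins (T2 η - H19.Cf S2 c2 N η) (K.dr.ins (T1 η - H19.Cf S1 c1 N η) (Ψ η))) ∂(law μ) := by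
  obtain ⟨K0, θ0, hs⟩ := h.sg
  set C1 : Env → X → ℝ := fun η => H19.Cf S1 c1 N η with hC1
  set C2 : Env → X → ℝ := fun η => H19.Cf S2 c2 N η with hC2
  have n1 : Measurable C1 := meas_Cf b1.meas N
  have n2 : Measurable C2 := meas_Cf b2.meas N
  have l1 : ∀ η y, |C1 η y| ≤ S1.card * (M1 * V) := fun η y => abs_Cf_le b1.bd w1.bd η y
  have l2 : ∀ η y, |C2 η y| ≤ S2.card * (M2 * V) := fun η y => abs_Cf_le b2.bd w2.bd η y
  have r1 : ∀ η y, |(T1 η - C1 η) y| ≤ a1 + S1.card * (M1 * V) := fun η y =>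
    (abs_sub _ _).trans (add_le_add (k1 η y) (l1 η y))
  have r2 : ∀ η y, |(T2 η - C2 η) y| ≤ a2 + S2.card * (M2 * V) := fun η y =>
    (abs_sub _ _).trans (add_le_add (k2 η y) (l2 η y))
  have nr1 : Measurable fun η => T1 η - C1 η := m1.sub n1
  have nr2 : Measurable fun η => T2 η - C2 η := m2.sub n2
  have s1 : MemLp (fun η => SS (sc f f') S1 c1 η) 2 (law μ) := H19.memLp_SS hs b1
  have s2 : MemLp (fun η => SS (sc f f') S2 c2 η) 2 (law μ) := H19.memLp_SS hs b2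
  -- the observables
  have oT2 := hΨ.ins K.dr m2 k2
  have oR1 := hΨ.ins K.dr nr1 r1
  have oR2 := hΨ.ins K.dr nr2 r2
  have oC2 := hΨ.ins K.dr n2 l2
  -- step one
  have e1 : ∀ η, K.dbl.dbl.toEv.ev (w η) (K.dbl.dr.ins (T2 η) (K.dr.ins (T1 η) (Ψ η))) =
      K.dbl.dbl.toEv.ev (w η) (K.dbl.dr.ins (C1 η) (K.dr.ins (T2 η) (Ψ η))) +
        (K.dbl.dbl.toEv.ev (w η) (K.dbl.dr.ins (C2 η) (K.dr.ins (T1 η - C1 η) (Ψ η))) +
          K.dbl.dbl.toEv.ev (w η) (K.dbl.dr.ins (T2 η - C2 η) (K.dr.ins (T1 η - C1 η) (Ψ η)))) := fun η => by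
    rw [ins_split' K (w η) (T2 η) (T1 η) (C1 η) (Ψ η), K.swap (Ψ η) (w η) (T2 η) (C1 η)]
    congr 1
    exact ins_split K.dbl (w η) (T2 η) (C2 η) (K.dr.ins (T1 η - C1 η) (Ψ η))
  simp_rw [e1]
  have i1 : Integrable (fun η => K.dbl.dbl.toEv.ev (w η) (K.dbl.dr.ins (C1 η) (K.dr.ins (T2 η) (Ψ η)))) (law μ) :=
    (oT2.ins K.dbl.dr n1 l1).int K.dbl.dbl.toEv w1.meas
  have i2 : Integrable (fun η => K.dbl.dbl.toEv.ev (w η) (K.dbl.dr.ins (C2 η) (K.dr.ins (T1 η - C1 η) (Ψ η)))) (law μ) :=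
    (oR1.ins K.dbl.dr n2 l2).int K.dbl.dbl.toEv w1.meas
  have i3 : Integrable (fun η => K.dbl.dbl.toEv.ev (w η) (K.dbl.dr.ins (T2 η - C2 η) (K.dr.ins (T1 η - C1 η) (Ψ η))))
      (law μ) := (oR1.ins K.dbl.dr nr2 r2).int K.dbl.dbl.toEv w1.meas
  have i23 : Integrable (fun η => K.dbl.dbl.toEv.ev (w η) (K.dbl.dr.ins (C2 η) (K.dr.ins (T1 η - C1 η) (Ψ η))) +
      K.dbl.dbl.toEv.ev (w η) (K.dbl.dr.ins (T2 η - C2 η) (K.dr.ins (T1 η - C1 η) (Ψ η)))) (law μ) := i2.add i3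
  rw [integral_add i1 i23, integral_add i2 i3]
  -- integration by parts
  have bT2 : ∀ q ∈ S1, ∀ (η : Env) (x : ℝ), K.dr.ins (T2 (Function.update η q x)) (Ψ (Function.update η q x)) =
      K.dr.ins (T2 η) (Ψ η) := fun q hq η x => by
    rw [hb2 q hq, hbΨ q (Finset.mem_union_left _ hq)]
  have bR1 : ∀ q ∈ S2, ∀ (η : Env) (x : ℝ),
      K.dr.ins (T1 (Function.update η q x) - C1 (Function.update η q x)) (Ψ (Function.update η q x)) =
      K.dr.ins (T1 η - C1 η) (Ψ η) := fun q hq η x => by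
    have : C1 (Function.update η q x) = C1 η := H19.Cf_blind N (fun p hp => h12 p hp q hq) η x
    rw [hb1 q hq, hbΨ q (Finset.mem_union_right _ hq), this]
  have j1 := K.dbl.dr.ibp_blind h b1 w1 oT2 bT2
  have j2 := K.dbl.dr.ibp_blind h b2 w2 oR1 bR1
  have j1' : ∫ η, K.dbl.dbl.toEv.ev (w η) (K.dbl.dr.ins (C1 η) (K.dr.ins (T2 η) (Ψ η))) ∂(law μ) =
      ∫ η, K.dbl.toEv.ev (w η) (K.dr.ins (T2 η) (Ψ η)) * SS (sc f f') S1 c1 η ∂(law μ) := j1
  have j2' : ∫ η, K.dbl.dbl.toEv.ev (w η) (K.dbl.dr.ins (C2 η) (K.dr.ins (T1 η - C1 η) (Ψ η))) ∂(law μ) =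
      ∫ η, K.dbl.toEv.ev (w η) (K.dr.ins (T1 η - C1 η) (Ψ η)) * SS (sc f f') S2 c2 η ∂(law μ) := j2
  rw [j1', j2']
  -- the field of the second slab
  have e2 : ∀ η, K.dbl.toEv.ev (w η) (K.dr.ins (T2 η) (Ψ η)) * SS (sc f f') S1 c1 η =
      K.dbl.toEv.ev (w η) (K.dr.ins (C2 η) (Ψ η)) * SS (sc f f') S1 c1 η +
        K.dbl.toEv.ev (w η) (K.dr.ins (T2 η - C2 η) (Ψ η)) * SS (sc f f') S1 c1 η := fun η => by
    rw [ins_split K (w η) (T2 η) (C2 η) (Ψ η), add_mul]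
  simp_rw [e2]
  have i4 : Integrable (fun η => K.dbl.toEv.ev (w η) (K.dr.ins (C2 η) (Ψ η)) * SS (sc f f') S1 c1 η) (law μ) :=
    (oC2.memLp K.dbl.toEv w1.meas).integrable_mul s1
  have i5 : Integrable (fun η => K.dbl.toEv.ev (w η) (K.dr.ins (T2 η - C2 η) (Ψ η)) * SS (sc f f') S1 c1 η) (law μ) :=
    (oR2.memLp K.dbl.toEv w1.meas).integrable_mul s1
  rw [integral_add i4 i5]
  have j3 := ibp_SS K h hd b1 b2 h12 w2 hΨ fun q hq => hbΨ q (Finset.mem_union_right _ hq)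
  have j3' : ∫ η, K.dbl.toEv.ev (w η) (K.dr.ins (C2 η) (Ψ η)) * SS (sc f f') S1 c1 η ∂(law μ) =
      ∫ η, K.toEv.ev (w η) (Ψ η) * (SS (sc f f') S1 c1 η * SS (sc f f') S2 c2 η) ∂(law μ) := j3
  rw [j3']
  ring

end

end Pool.W7d29a1.C0.I52
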