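import Pool.Agent.W_7d29a1_C0.CutE14
import Pool.Agent.W_7d29a1_C0.CutT57
import Pool.Agent.W_7d29a1_C0.BridgeX82
import Pool.Agent.W_7d29a1_C0.Ins52B

/-!
MP_7d29a1_pr, [CURV0] (helper59), leaf E2P: THE CUT OF THE `f` PAIR in the plan of three replicas (`x 2` free, `x 1` given the outside of
the block `[c0, z)` of `x 2`, `x 0` free). `G (x 2) (x 1)` sees the rows `≤ z` only, `f` the rows `≥ c`, `z ≤ c`: the pairs `x 2`, `x 0` which
meet in `[z, c]` contribute nothing (`ev_far59`, exact, all weights with the swap of the heads). `psRF`, `psLF`: the two parts of `CutE14`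
with this indicator (`cutEF`). `PPF59`: the absolute form with one base path. `D2X_ins59`, `DX_ins59`: the derivatives of the cross term
are the insertions in the plan.
-/

set_option autoImplicit false
set_option linter.unusedSectionVars false

namespace Pool.Agent.W_7d29a1_C0.CutF59

open Finset MeasureTheory Pool.Agent.W_7d29a1_F Pool.Agent.W_7d29a1_X
open Pool.Agent.W_7d29a1_C0 Pool.Agent.W_7d29a1_C0.Mod92 Pool.Agent.W_7d29a1_C0.Swap57 Pool.Agent.W_7d29a1_C0.NM82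
open Pool.Agent.W_7d29a1_C0.CutE14 (P3 psi psR psL cutE ev_P3 cov_plan)
open Pool.Agent.W_7d29a1_C0.CutT57 (gc_eq_far gm_const_mul cE_mul_const gm_gm_eq_PP)
open Pool.W7d29a1.C0
open Pool.W7d29a1.C0.VT31
open Pool.W7d29a1.C0.I52 (Plan ker av ev ev_congr gm_eq_av cE_eq_av KS)

noncomputable section

variable {Q : Finset (Finset ℕ)} [SwQ Q] [Nonempty (Px Q)]

/-- The pair functional sees the rows `≤ z` of both paths only. -/
def Lk2 (z : ℕ) (G : Px Q → Px Q → ℝ) : Prop := ∀ S S' T T' : Px Q, (∀ i, i ≤ z → ps S i = ps S' i) →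
  (∀ i, i ≤ z → ps T i = ps T' i) → G S T = G S' T'

theorem pJ_of_out {c0 z : ℕ} (hcz : c0 ≤ z) {S S' : Px Q} (h : ∀ i, i ≤ c0 ∨ z ≤ i → ps S i = ps S' i) :
    pJ c0 z S = pJ c0 z S' := by
  unfold pJ
  have h1 : S.1 \ Ico c0 z = S'.1 \ Ico c0 z := by
    ext k
    simp only [Finset.mem_sdiff, Finset.mem_Ico, not_and, not_lt]
    constructor
    · rintro ⟨h1, h2⟩
      refine ⟨?_, h2⟩
      rw [mem_iff_ps] at h1 ⊢
      rcases Nat.lt_or_ge k c0 with h3 | h3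
      · rw [← h (k + 1) (Or.inl h3), ← h k (Or.inl h3.le)]
        exact h1
      · have h4 := h2 h3
        rw [← h (k + 1) (Or.inr (by omega)), ← h k (Or.inr h4)]
        exact h1
    · rintro ⟨h1, h2⟩
      refine ⟨?_, h2⟩
      rw [mem_iff_ps] at h1 ⊢
      rcases Nat.lt_or_ge k c0 with h3 | h3
      · rw [h (k + 1) (Or.inl h3), h k (Or.inl h3.le)]
        exact h1
      · have h4 := h2 h3
        rw [h (k + 1) (Or.inr (by omega)), h k (Or.inr h4)]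
        exact h1
  have h2 : (S.1 ∩ Ico c0 z).card = (S'.1 ∩ Ico c0 z).card := by
    have e : ∀ T : Px Q, ps T z = ps T c0 + ((T.1 ∩ Ico c0 z).card : ℤ) := fun T => pos_split T.1 hcz
    have h3 := h z (Or.inr le_rfl)
    have h4 := h c0 (Or.inl le_rfl)
    rw [e, e, h4] at h3
    have h5 : ((S.1 ∩ Ico c0 z).card : ℤ) = (S'.1 ∩ Ico c0 z).card := by linarith
    exact_mod_cast h5
  rw [h1, h2]

variable {w : Px Q → ℝ} {c0 z c : ℕ}

/-- The path `S'` with the head of `T` is in the fibre of `S'` if `T` is in the fibre of `S`. -/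
theorem pJ_gl_fib (hcz : c0 ≤ z) {S S' T : Px Q} (h : ∀ i, i ≤ z → ps S i = ps S' i) (hT : pJ c0 z T = pJ c0 z S) :
    pJ c0 z (gl z S' T) = pJ c0 z S' := by
  have hz : ps S' z = ps T z := (h z le_rfl).symm.trans (ps_of_ge hT le_rfl).symm
  refine pJ_of_out hcz fun i hi => ?_
  rcases hi with hi | hi
  · rw [ps_gl hz (hi.trans hcz), ps_of_le hT hi, h i (hi.trans hcz)]
  · exact ps_of_ge (pJ_gl hz) hi

/-- **The conditional mean of a pair functional of the head** sees the head only. -/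
theorem lk_cE59 (hcz : c0 ≤ z) (hw : Hd z z w) {G : Px Q → Px Q → ℝ} (hG : Lk2 z G) :
    Lk 0 z fun S => cE w (pJ c0 z) (G S) S := by
  intro S S' h0
  have h : ∀ i, i ≤ z → ps S i = ps S' i := fun i hi => h0 i (Nat.zero_le i) hi
  have hz : ps S z = ps S' z := h z le_rfl
  have h' : ∀ i, i ≤ z → ps S' i = ps S i := fun i hi => (h i hi).symm
  have hT0 : ∀ {S T : Px Q}, pJ c0 z T = pJ c0 z S → pJ 0 z T = pJ 0 z S := fun hT => crs_pJ (Nat.zero_le c0) le_rfl _ _ hT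
  have hfib : ∀ φ : Px Q → ℝ, ∑ T, (if pJ c0 z T = pJ c0 z S' then φ T else 0) =
      ∑ T, if pJ c0 z T = pJ c0 z S then φ (gl z S' T) else 0 := by
    intro φ
    rw [← Finset.sum_filter, ← Finset.sum_filter]
    refine (Finset.sum_bij' (fun T _ => gl z S' T) (fun T _ => gl z S T) ?_ ?_ ?_ ?_ ?_).symm
    · intro T hT
      exact Finset.mem_filter.2 ⟨Finset.mem_univ _, pJ_gl_fib hcz h (Finset.mem_filter.1 hT).2⟩
    · intro T hT
      exact Finset.mem_filter.2 ⟨Finset.mem_univ _, pJ_gl_fib hcz h' (Finset.mem_filter.1 hT).2⟩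
    · intro T hT
      exact gl_gl hz (hT0 (Finset.mem_filter.1 hT).2)
    · intro T hT
      exact gl_gl hz.symm (hT0 (Finset.mem_filter.1 hT).2)
    · intro T hT
      rfl
  have e1 : ∀ φ φ' : Px Q → ℝ, (∀ T, pJ c0 z T = pJ c0 z S → φ' (gl z S' T) = φ T) →
      ∑ T, (if pJ c0 z T = pJ c0 z S' then Real.exp (w T) * φ' T else 0) =
        Real.exp (w (gl z S' S) - w S) * ∑ T, (if pJ c0 z T = pJ c0 z S then Real.exp (w T) * φ T else 0) := by
    intro φ φ' hφ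
    rw [hfib fun T => Real.exp (w T) * φ' T, Finset.mul_sum]
    refine Finset.sum_congr rfl fun T _ => ?_
    split_ifs with hT
    · rw [gl_lw hw hz (hT0 hT), hφ T hT, Real.exp_add]
      ring
    · rw [mul_zero]
  have hg' : ∀ T, pJ c0 z T = pJ c0 z S → G S' (gl z S' T) = G S T := fun T hT =>
    hG _ _ _ _ h' fun i hi => ps_gl (hz.symm.trans (ps_of_ge hT le_rfl).symm) hi
  have a1 := e1 (G S) (G S') hg'
  have a2 := e1 (fun _ => 1) (fun _ => 1) fun _ _ => rfl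
  simp only [mul_one] at a2
  show cE w (pJ c0 z) (G S) S = cE w (pJ c0 z) (G S') S'
  unfold cE fz
  rw [a1, a2, mul_div_mul_left _ _ (Real.exp_pos _).ne']

/-- The plan without the indicator. -/
theorem ev_all59 (p : Px Q → Finset ℕ × ℕ) (w : Px Q → ℝ) (G : Px Q → Px Q → ℝ) (f : Px Q → ℝ) :
    ev (P3 p) w (fun x => G (x 2) (x 1) * (f (x 2) - f (x 0))) = gc w (fun S => cE w p (G S) S) f := by
  rw [ev_P3 p w fun a b e => G a b * (f a - f e)]
  have e1 : (fun a => cE w p (fun b => gm w fun e => G a b * (f a - f e)) a) =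
      fun a => cE w p (G a) a * f a - gm w f * cE w p (G a) a := by
    funext a
    have e2 : (fun b => gm w fun e => G a b * (f a - f e)) = fun b => G a b * (f a - gm w f) := by
      funext b
      rw [gm_const_mul, gm_eq_av, I52.av_sub w univ (fun _ => f a) f, I52.av_const w univ_nonempty, ← gm_eq_av]
    rw [e2, cE_mul_const]
    ring
  rw [e1, gm_eq_av, I52.av_sub w univ, I52.av_smul, ← gm_eq_av, ← gm_eq_av]
  show _ = gm w ((fun S => cE w p (G S) S) * f) - gm w (fun S => cE w p (G S) S) * gm w f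
  rw [mul_comm (gm w f)]
  rfl

/-- **THE CUT OF THE `f` PAIR**, block `[c0, z)`, far place `[e, c]`, `z ≤ e`. -/
theorem ev_far59e (hcz : c0 ≤ z) {e : ℕ} (hze : z ≤ e) (hw1 : Hd z z w) (hw2 : Hd e c w) {G : Px Q → Px Q → ℝ} (hG : Lk2 z G)
    {f : Px Q → ℝ} (hf : Rk c f) :
    ev (P3 (pJ c0 z)) w (fun x => G (x 2) (x 1) * ((f (x 2) - f (x 0)) * NI e c (x 2) (x 0))) =
      ev (P3 (pJ c0 z)) w (fun x => G (x 2) (x 1) * (f (x 2) - f (x 0))) := by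
  rw [ev_all59, ← gc_eq_far hw2 (Lk_mono le_rfl hze (lk_cE59 hcz hw1 hG)) hf,
    ev_P3 (pJ c0 z) w fun a b x => G a b * ((f a - f x) * NI e c a x)]
  congr 1
  funext a
  have e2 : (fun b => gm w fun x => G a b * ((f a - f x) * NI e c a x)) =
      fun b => G a b * gm w fun x => (f a - f x) * NI e c a x := by
    funext b
    rw [gm_const_mul]
  rw [e2, cE_mul_const]

/-- **THE CUT OF THE `f` PAIR.** -/
theorem ev_far59 (hcz : c0 ≤ z) (hw1 : Hd z z w) (hw2 : Hd z c w) {G : Px Q → Px Q → ℝ} (hG : Lk2 z G)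
    {f : Px Q → ℝ} (hf : Rk c f) :
    ev (P3 (pJ c0 z)) w (fun x => G (x 2) (x 1) * ((f (x 2) - f (x 0)) * NI z c (x 2) (x 0))) =
      ev (P3 (pJ c0 z)) w (fun x => G (x 2) (x 1) * (f (x 2) - f (x 0))) := ev_far59e hcz le_rfl hw1 hw2 hG hf

/-- **The absolute form with one base path.** -/
theorem PPF59 (p : Px Q → Finset ℕ × ℕ) (w : Px Q → ℝ) (G : Px Q → Px Q → ℝ) (H : Px Q → Px Q → ℝ) :
    ev (P3 p) w (fun x => G (x 2) (x 1) * H (x 2) (x 0)) = PP w fun S S' => cE w p (G S) S * H S S' := by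
  rw [ev_P3 p w fun a b e => G a b * H a e, ← gm_gm_eq_PP]
  congr 1
  funext a
  have e2 : (fun b => gm w fun e => G a b * H a e) = fun b => G a b * gm w (H a) := by
    funext b
    rw [gm_const_mul]
  rw [e2, cE_mul_const, gm_const_mul]

/-! ### The two parts of the own pair -/

open Classical in
/-- The pair functional of `psR`. -/
def pR59 (be d : ℕ) (γ g : Px Q → ℝ) (S T : Px Q) : ℝ :=
  if ∃ i, be ≤ i ∧ i ≤ d ∧ Eqp S T i then 0 else 1 / 2 * (γ S - γ T) * (g S - g T)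

open Classical in
/-- The pair functional of `psL`. -/
def pL59 (c al be d : ℕ) (γ g : Px Q → ℝ) (S T : Px Q) : ℝ :=
  if (∃ i, be ≤ i ∧ i ≤ d ∧ Eqp S T i) ∧ ¬∃ i, c ≤ i ∧ i ≤ al ∧ Eqp S T i then 1 / 2 * (γ S - γ T) * (g S - g T) else 0

omit [SwQ Q] [Nonempty (Px Q)] in
theorem psR_eq (be d : ℕ) (γ g f : Px Q → ℝ) (x : Fin 3 → Px Q) :
    psR be d γ g f x = pR59 be d γ g (x 2) (x 1) * (f (x 2) - f (x 0)) := by
  unfold psR pR59
  split_ifs
  · rw [zero_mul]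
  · rfl

omit [SwQ Q] [Nonempty (Px Q)] in
theorem psL_eq (c al be d : ℕ) (γ g f : Px Q → ℝ) (x : Fin 3 → Px Q) :
    psL c al be d γ g f x = pL59 c al be d γ g (x 2) (x 1) * (f (x 2) - f (x 0)) := by
  unfold psL pL59
  split_ifs
  · rfl
  · rw [zero_mul]

theorem Eqp_head {z i : ℕ} {S S' T T' : Px Q} (hS : ∀ i, i ≤ z → ps S i = ps S' i) (hT : ∀ i, i ≤ z → ps T i = ps T' i)
    (hi : i ≤ z) : Eqp S T i ↔ Eqp S' T' i := by
  unfold Eqp
  rw [hS i hi, hT i hi]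

theorem Lk2_pR59 {be d z : ℕ} (hd : d ≤ z) {γ g : Px Q → ℝ} (hγ : Lk 0 z γ) (hg : Lk 0 z g) : Lk2 z (pR59 (Q := Q) be d γ g) := by
  intro S S' T T' hS hT
  have h1 : γ S = γ S' := hγ _ _ fun i _ hi => hS i hi
  have h2 : γ T = γ T' := hγ _ _ fun i _ hi => hT i hi
  have h3 : g S = g S' := hg _ _ fun i _ hi => hS i hi
  have h4 : g T = g T' := hg _ _ fun i _ hi => hT i hi
  have h5 : (∃ i, be ≤ i ∧ i ≤ d ∧ Eqp S T i) ↔ ∃ i, be ≤ i ∧ i ≤ d ∧ Eqp S' T' i :=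
    exists_congr fun i => and_congr_right fun _ => and_congr_right fun h => Eqp_head hS hT (h.trans hd)
  unfold pR59
  rw [h1, h2, h3, h4]
  by_cases h : ∃ i, be ≤ i ∧ i ≤ d ∧ Eqp S' T' i
  · rw [if_pos h, if_pos (h5.2 h)]
  · rw [if_neg h, if_neg fun k => h (h5.1 k)]

theorem Lk2_pL59 {c al be d z : ℕ} (hal : al ≤ z) (hd : d ≤ z) {γ g : Px Q → ℝ} (hγ : Lk 0 z γ) (hg : Lk 0 z g) :
    Lk2 z (pL59 (Q := Q) c al be d γ g) := by
  intro S S' T T' hS hT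
  have h1 : γ S = γ S' := hγ _ _ fun i _ hi => hS i hi
  have h2 : γ T = γ T' := hγ _ _ fun i _ hi => hT i hi
  have h3 : g S = g S' := hg _ _ fun i _ hi => hS i hi
  have h4 : g T = g T' := hg _ _ fun i _ hi => hT i hi
  have h5 : ∀ a b : ℕ, b ≤ z → ((∃ i, a ≤ i ∧ i ≤ b ∧ Eqp S T i) ↔ ∃ i, a ≤ i ∧ i ≤ b ∧ Eqp S' T' i) := fun a b hb =>
    exists_congr fun i => and_congr_right fun _ => and_congr_right fun h => Eqp_head hS hT (h.trans hb)
  unfold pL59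
  rw [h1, h2, h3, h4]
  by_cases h : (∃ i, be ≤ i ∧ i ≤ d ∧ Eqp S' T' i) ∧ ¬∃ i, c ≤ i ∧ i ≤ al ∧ Eqp S' T' i
  · rw [if_pos h, if_pos ⟨(h5 be d hd).2 h.1, fun k => h.2 ((h5 c al hal).1 k)⟩]
  · rw [if_neg h, if_neg fun k => h ⟨(h5 be d hd).1 k.1, fun k' => k.2 ((h5 c al hal).2 k')⟩]

/-- The right part with both indicators. -/
def psRF (be d z c : ℕ) (γ g f : Px Q → ℝ) (x : Fin 3 → Px Q) : ℝ :=
  pR59 be d γ g (x 2) (x 1) * ((f (x 2) - f (x 0)) * NI z c (x 2) (x 0))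

/-- The left part with both indicators. -/
def psLF (wl al be d z c : ℕ) (γ g f : Px Q → ℝ) (x : Fin 3 → Px Q) : ℝ :=
  pL59 wl al be d γ g (x 2) (x 1) * ((f (x 2) - f (x 0)) * NI z c (x 2) (x 0))

omit [SwQ Q] [Nonempty (Px Q)] in
theorem abs_pR59_le {be d : ℕ} {γ g : Px Q → ℝ} {Mγ Mg : ℝ} (hγ : ∀ S, |γ S| ≤ Mγ) (hg : ∀ S, |g S| ≤ Mg) (S T : Px Q) :
    |pR59 be d γ g S T| ≤ 2 * Mγ * Mg * NI be d S T := by
  unfold pR59 NI
  by_cases hh : ∃ i, be ≤ i ∧ i ≤ d ∧ Eqp S T i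
  · obtain ⟨i, h1, h2, h3⟩ := hh
    rw [if_pos ⟨i, h1, h2, h3⟩, if_neg fun h => h i h1 h2 h3, abs_zero, mul_zero]
  · have hn : ∀ k, be ≤ k → k ≤ d → ps S k ≠ ps T k := fun i h1 h2 h3 => hh ⟨i, h1, h2, h3⟩
    rw [if_neg hh, if_pos hn, mul_one, abs_mul, abs_mul, abs_of_pos (by norm_num : (0 : ℝ) < 1 / 2)]
    have h1 : |γ S - γ T| ≤ 2 * Mγ := (abs_sub _ _).trans (by linarith [hγ S, hγ T])
    have h2 : |g S - g T| ≤ 2 * Mg := (abs_sub _ _).trans (by linarith [hg S, hg T])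
    have h3 := mul_le_mul h1 h2 (abs_nonneg _) ((abs_nonneg _).trans h1)
    linarith

omit [SwQ Q] [Nonempty (Px Q)] in
theorem abs_pL59_le {wl al be d : ℕ} {γ g : Px Q → ℝ} {Mγ Mg : ℝ} (hγ : ∀ S, |γ S| ≤ Mγ) (hg : ∀ S, |g S| ≤ Mg) (S T : Px Q) :
    |pL59 wl al be d γ g S T| ≤ 2 * Mγ * Mg * NI wl al S T := by
  have h1 : |γ S - γ T| ≤ 2 * Mγ := (abs_sub _ _).trans (by linarith [hγ S, hγ T])
  have h2 : |g S - g T| ≤ 2 * Mg := (abs_sub _ _).trans (by linarith [hg S, hg T])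
  have h3 := mul_le_mul h1 h2 (abs_nonneg _) ((abs_nonneg _).trans h1)
  have h0 : 0 ≤ 2 * Mγ * Mg := by nlinarith [abs_nonneg (γ S - γ T), abs_nonneg (g S - g T)]
  unfold pL59 NI
  by_cases hh : (∃ i, be ≤ i ∧ i ≤ d ∧ Eqp S T i) ∧ ¬∃ i, wl ≤ i ∧ i ≤ al ∧ Eqp S T i
  · have hn : ∀ k, wl ≤ k → k ≤ al → ps S k ≠ ps T k := fun i h1 h2 h3 => hh.2 ⟨i, h1, h2, h3⟩
    rw [if_pos hh, if_pos hn, mul_one, abs_mul, abs_mul, abs_of_pos (by norm_num : (0 : ℝ) < 1 / 2)]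
    linarith
  · rw [if_neg hh, abs_zero]
    split_ifs
    · rw [mul_one]
      exact h0
    · rw [mul_zero]

/-- **THE CUT OF BOTH PAIRS**: window `[wl, wr)`, `g` a functional of the rows `[al, be]` inside, block `[c0, z)`, the tie of the
spectator on `[e, c]`, `z ≤ e`. -/
theorem cutEF59e {wl al be wr e : ℕ} (hab : al ≤ be) (hc0 : c0 ≤ wl) (hwr : wr ≤ z) (hcz : c0 ≤ z) (hbz : be ≤ z) (hal : al ≤ z)
    (hze : z ≤ e) (hec : e ≤ c) (hw : Wk wl al be wr w) (hw1 : Hd z z w) (hw2 : Hd e c w) {γ g f : Px Q → ℝ}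
    (hγ : Mp (pJ wl wr) γ) (hγ0 : Lk 0 z γ) (hg : Lk al be g) (hf : Rk c f) :
    gc w (cC w (pJ c0 z) γ g) f = ev (P3 (pJ c0 z)) w (psRF be wr e c γ g f) + ev (P3 (pJ c0 z)) w (psLF wl al be wr e c γ g f) := by
  have hg0 : Lk 0 z g := Lk_mono (Nat.zero_le al) hbz hg
  have hfz : Mp (pJ c0 z) f := fun S S' h => (mp_of_Rk (hf.mono (hze.trans hec))) _ _ (crs_pJ (Nat.zero_le c0) le_rfl _ _ h)
  rw [cutE hab (crs_pJ hc0 hwr) hw hγ hg hfz]
  have e1 : ev (P3 (pJ c0 z)) w (psR be wr γ g f) = ev (P3 (pJ c0 z)) w (psRF be wr e c γ g f) := by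
    rw [ev_congr _ _ fun x => psR_eq be wr γ g f x]
    exact (ev_far59e hcz hze hw1 hw2 (Lk2_pR59 hwr hγ0 hg0) hf).symm
  have e2 : ev (P3 (pJ c0 z)) w (psL wl al be wr γ g f) = ev (P3 (pJ c0 z)) w (psLF wl al be wr e c γ g f) := by
    rw [ev_congr _ _ fun x => psL_eq wl al be wr γ g f x]
    exact (ev_far59e hcz hze hw1 hw2 (Lk2_pL59 hal hwr hγ0 hg0) hf).symm
  rw [e1, e2]

/-- **THE CUT OF BOTH PAIRS**, the tie of the spectator on `[z, c]`. -/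
theorem cutEF59 {wl al be wr : ℕ} (hab : al ≤ be) (hc0 : c0 ≤ wl) (hwr : wr ≤ z) (hcz : c0 ≤ z) (hbz : be ≤ z) (hal : al ≤ z)
    (hzc : z ≤ c) (hw : Wk wl al be wr w) (hw1 : Hd z z w) (hw2 : Hd z c w) {γ g f : Px Q → ℝ} (hγ : Mp (pJ wl wr) γ)
    (hγ0 : Lk 0 z γ) (hg : Lk al be g) (hf : Rk c f) :
    gc w (cC w (pJ c0 z) γ g) f = ev (P3 (pJ c0 z)) w (psRF be wr z c γ g f) + ev (P3 (pJ c0 z)) w (psLF wl al be wr z c γ g f) :=
  cutEF59e hab hc0 hwr hcz hbz hal le_rfl hzc hw hw1 hw2 hγ hγ0 hg hf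

/-! ### The derivatives of the cross term are the insertions -/

section Der

variable {X : Type*} [Fintype X] [DecidableEq X] [Nonempty X] {Y : Type*} [DecidableEq Y] {m : ℕ}

theorem line_der (w g : X → ℝ) (t : ℝ) : HasDerivAt (fun t : ℝ => w + t • g) g t := by
  have h := ((hasDerivAt_id t).smul_const g).const_add w
  simpa using h

/-- The first derivative. -/
theorem DX_ins59 (P : Plan X m) {Ψ₁ Ψ₂ : (Fin m → X) → ℝ} {p : X → Y} {γ g w f : X → ℝ} (hf : Mp p f)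
    (h : ∀ t : ℝ, ev P (w + t • g) Ψ₁ + ev P (w + t • g) Ψ₂ = gc (w + t • g) (cC (w + t • g) p γ g) f) (t : ℝ) :
    P.ks.dbl.toEv.ev (w + t • g) (P.ks.dr.ins g Ψ₁) + P.ks.dbl.toEv.ev (w + t • g) (P.ks.dr.ins g Ψ₂) =
      DX p (w + t • g) g [[γ, g]] [f] := by
  have hl : ∀ F ∈ [f], Mp p F := fun F hF => by rwa [List.mem_singleton.1 hF]
  have h1 : HasDerivAt (fun t : ℝ => CX p (w + t • g) [[γ, g]] [f]) (DX p (w + t • g) g [[γ, g]] [f]) t :=
    hasDerivAt_CX (line_der w g t) [[γ, g]] hl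
  have h2 := (P.ks.dr.der' Ψ₁ (line_der w g t)).add (P.ks.dr.der' Ψ₂ (line_der w g t))
  have e : (fun t : ℝ => CX p (w + t • g) [[γ, g]] [f]) =
      fun t => P.ks.toEv.ev (w + t • g) Ψ₁ + P.ks.toEv.ev (w + t • g) Ψ₂ := by
    funext t
    rw [CX_2, ← h t, I52.ks_ev, I52.ks_ev]
  rw [e] at h1
  exact h2.unique h1

/-- **The second derivative.** -/
theorem D2X_ins59 (P : Plan X m) {Ψ₁ Ψ₂ : (Fin m → X) → ℝ} {p : X → Y} {γ g w f : X → ℝ} (hf : Mp p f)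
    (h : ∀ t : ℝ, ev P (w + t • g) Ψ₁ + ev P (w + t • g) Ψ₂ = gc (w + t • g) (cC (w + t • g) p γ g) f) (t : ℝ) :
    P.ks.dbl.dbl.toEv.ev (w + t • g) (P.ks.dbl.dr.ins g (P.ks.dr.ins g Ψ₁)) +
      P.ks.dbl.dbl.toEv.ev (w + t • g) (P.ks.dbl.dr.ins g (P.ks.dr.ins g Ψ₂)) = D2X p (w + t • g) g γ g [f] := by
  have hl : ∀ F ∈ [f], Mp p F := fun F hF => by rwa [List.mem_singleton.1 hF]
  have h1 : HasDerivAt (fun t : ℝ => CX p (w + t • g) [[g], [γ, g]] [f] + CX p (w + t • g) [[g, γ, g]] [f])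
      (D2X p (w + t • g) g γ g [f]) t :=
    (hasDerivAt_CX (line_der w g t) [[g], [γ, g]] hl).add (hasDerivAt_CX (line_der w g t) [[g, γ, g]] hl)
  have h2 := (P.ks.dbl.dr.der' (P.ks.dr.ins g Ψ₁) (line_der w g t)).add (P.ks.dbl.dr.der' (P.ks.dr.ins g Ψ₂) (line_der w g t))
  have e : (fun t : ℝ => CX p (w + t • g) [[g], [γ, g]] [f] + CX p (w + t • g) [[g, γ, g]] [f]) =
      fun t => P.ks.dbl.toEv.ev (w + t • g) (P.ks.dr.ins g Ψ₁) + P.ks.dbl.toEv.ev (w + t • g) (P.ks.dr.ins g Ψ₂) := by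
    funext t
    rw [← DX_2, DX_ins59 P hf h t]
  rw [e] at h1
  exact h2.unique h1

end Der

end

end Pool.Agent.W_7d29a1_C0.CutF59
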