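import Pool.Agent.W_7d29a1_C0.Ins52B
import Pool.Agent.W_7d29a1_C0.BoxG41B
import Pool.Agent.W_7d29a1_C0.CutF59

/-!
CURV0 (MP_7d29a1_pr), section E2: PATHWISE MAJORANTS OF ALL REMAINDERS OF THE PLAN OF THREE REPLICAS (`x 2` free, `x 1` given `p` of
`x 2`, `x 0` free). `N` = the inserted function minus its slab average: Gibbs mean zero, `|N| ≤ n`. `mi` = the mass of the alternatives
`x 1` of `x 2`. `ins_box_le`: one insertion, localised by boxes, absolute values; `ins2_le`: two insertions. The free shadows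
contribute nothing, up to `G (g N) * ev Ψ`, and there the pair of `f` is attached to the replica with the micro tie by an EXACT
exchange (`PP_far`), so that all terms keep the tie of `f`. (helper14)
-/

set_option autoImplicit false
set_option linter.unusedSectionVars false
set_option linter.unusedVariables false

namespace Pool.Agent.W_7d29a1_C0.MicE14

open Finset MeasureTheory Pool.Agent.W_7d29a1_F Pool.Agent.W_7d29a1_X Pool.Agent.W_7d29a1_C0 Pool.Agent.W_7d29a1_C0.Mod92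
open Pool.W7d29a1.C0 Pool.W7d29a1.C0.VT31 Pool.W7d29a1.C0.I52 Pool.Agent.W_7d29a1_C0.Swap57
open Pool.Agent.W_7d29a1_C0.CutE14
open Pool.Agent.W_7d29a1_C0.NM82 (Hd Rk Hd.eq NI_eq markov_cE HdAll mp_of_Rk Lk_mono)
open Pool.Agent.W_7d29a1_C0.CutF59 (Lk2 lk_cE59 pR59 pL59 psRF psLF Lk2_pR59 Lk2_pL59 abs_pR59_le abs_pL59_le pJ_of_out)
open Pool.W7d29a1.C0.H41 (lcG)

noncomputable section

section Sys

variable {X : Type*} [Fintype X] [DecidableEq X] {ι : Type*} [Fintype ι] [DecidableEq ι]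

/-- The mean over the shadows of a product of functions of two shadows. -/
theorem sum_two (A : ι → (ι → X) → Finset X) (hA : ∀ i x, (A i x).Nonempty) (w : X → ℝ) (x : ι → X) {i j : ι} (hij : i ≠ j)
    (F H : X → ℝ) :
    ∑ z : ι → X, (∏ k, ker w (A k x) (z k)) * (F (z i) * H (z j)) = av w (A i x) F * av w (A j x) H := by
  have e1 : ∀ z : ι → X, (∏ k, ker w (A k x) (z k)) * (F (z i) * H (z j)) =
      ∏ k, ker w (A k x) (z k) * ((if k = i then F (z k) else 1) * (if k = j then H (z k) else 1)) := fun z => by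
    rw [Finset.prod_mul_distrib, Finset.prod_mul_distrib]
    congr 1
    rw [Finset.prod_eq_single i (fun k _ hk => if_neg hk) fun h => absurd (mem_univ i) h, if_pos rfl,
      Finset.prod_eq_single j (fun k _ hk => if_neg hk) fun h => absurd (mem_univ j) h, if_pos rfl]
  have e2 : ∑ z : ι → X, ∏ k, ker w (A k x) (z k) * ((if k = i then F (z k) else 1) * (if k = j then H (z k) else 1)) =
      ∏ k, ∑ s, ker w (A k x) s * ((if k = i then F s else 1) * (if k = j then H s else 1)) := by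
    rw [Finset.prod_univ_sum, Fintype.piFinset_univ]
  have e3 : ∀ k, ∑ s, ker w (A k x) s * ((if k = i then F s else 1) * (if k = j then H s else 1)) =
      (if k = i then av w (A i x) F else 1) * (if k = j then av w (A j x) H else 1) := fun k => by
    by_cases h1 : k = i
    · subst h1
      simp only [if_true, if_neg hij, mul_one]
      rfl
    · by_cases h2 : k = j
      · subst h2
        simp only [if_true, if_neg h1, one_mul]
        rfl
      · simp only [if_neg h1, if_neg h2, mul_one]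
        exact sum_ker w (hA k x)
  rw [Finset.sum_congr rfl fun z _ => e1 z, e2, Finset.prod_congr rfl fun k _ => e3 k, Finset.prod_mul_distrib,
    Finset.prod_eq_single i (fun k _ hk => if_neg hk) fun h => absurd (mem_univ i) h, if_pos rfl,
    Finset.prod_eq_single j (fun k _ hk => if_neg hk) fun h => absurd (mem_univ j) h, if_pos rfl]

/-- **The free shadow.** `N` has mean zero where the replica `i` is drawn. -/
theorem shadow_free (K : KS X ι) (w g N : X → ℝ) (Ψ : (ι → X) → ℝ) (i : ι) {c : ℝ} (h0 : ∀ x, av w (K.A i x) N = 0)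
    (hc : ∀ x, av w (K.A i x) (fun s => g s * N s) = c) :
    K.dbl.toEv.ev w (fun y => K.dr.ins g Ψ y * N (y (Sum.inr i))) = -c * K.toEv.ev w Ψ := by
  rw [K.dbl_ev, ← H41.ev_smul]
  refine H41.ev_congr _ _ fun x => ?_
  have e1 : ∀ z : ι → X, (∏ k, ker w (K.A k x) (z k)) * (K.dr.ins g Ψ (Sum.elim x z) * N (Sum.elim x z (Sum.inr i))) =
      Ψ x * (∑ k, g (x k)) * ((∏ k, ker w (K.A k x) (z k)) * N (z i)) -
        Ψ x * ∑ k, (∏ k, ker w (K.A k x) (z k)) * (g (z k) * N (z i)) := fun z => by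
    have e : K.dr.ins g Ψ (Sum.elim x z) = Ψ x * ((∑ k, g (x k)) - ∑ k, g (z k)) := by
      show Ψ (fun k => Sum.elim x z (Sum.inl k)) * ∑ j, sgs j * g (Sum.elim x z j) = _
      rw [Fintype.sum_sum_type, sub_eq_add_neg, ← Finset.sum_neg_distrib]
      congr 1
      congr 1
      · exact Finset.sum_congr rfl fun k _ => by
          show 1 * g (x k) = _
          ring
      · exact Finset.sum_congr rfl fun k _ => by
          show -1 * g (z k) = _
          ring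
    rw [e]
    show _ * (_ * N (z i)) = _
    rw [← Finset.mul_sum, ← Finset.sum_mul]
    ring
  rw [Finset.sum_congr rfl fun z _ => e1 z, Finset.sum_sub_distrib, ← Finset.mul_sum, ← Finset.mul_sum,
    sum_one K.A K.ne w x i N, h0 x, mul_zero, zero_sub, Finset.sum_comm]
  have e2 : ∀ k, ∑ z : ι → X, (∏ k, ker w (K.A k x) (z k)) * (g (z k) * N (z i)) = if k = i then c else 0 := fun k => by
    by_cases h : k = i
    · subst h
      rw [if_pos rfl, ← hc x]
      exact sum_one K.A K.ne w x k fun s => g s * N s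
    · rw [if_neg h, sum_two K.A K.ne w x h g N, h0 x, mul_zero]
  rw [Finset.sum_congr rfl fun k _ => e2 k, Finset.sum_ite_eq' univ i fun _ => c, if_pos (mem_univ i)]
  ring

end Sys

/-! ### The plan of three replicas -/

section Three

variable {X : Type*} [Fintype X] [DecidableEq X] [Nonempty X] {Y : Type*} [DecidableEq Y]

theorem A_zero (p : X → Y) (x : Fin 3 → X) : (P3 p).ks.A 0 x = univ := rfl

theorem A_one (p : X → Y) (x : Fin 3 → X) : (P3 p).ks.A 1 x = univ.filter fun s => p s = p (x 2) := rfl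

theorem A_two (p : X → Y) (x : Fin 3 → X) : (P3 p).ks.A 2 x = univ := rfl

/-- The two replicas of the inner pair may be exchanged. -/
theorem ev_P3_swap (p : X → Y) (w : X → ℝ) (F : X → X → X → ℝ) :
    ev (P3 p) w (fun x => F (x 2) (x 1) (x 0)) = ev (P3 p) w fun x => F (x 1) (x 2) (x 0) := by
  set σ : (Fin 3 → X) → (Fin 3 → X) := fun x => ![x 0, x 2, x 1] with hσ
  have hi : Function.Involutive σ := fun x => by
    funext i
    fin_cases i <;> rfl
  have hw : ∀ x, wt (P3 p) w (σ x) = wt (P3 p) w x := fun x => by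
    rw [wt_P3, wt_P3]
    show ker w univ (x 1) * ker w (univ.filter fun s => p s = p (x 1)) (x 2) * ker w univ (x 0) = _
    congr 1
    unfold ker
    simp only [mem_univ, if_true, mem_filter, true_and]
    by_cases h : p (x 1) = p (x 2)
    · rw [if_pos h.symm, if_pos h, h]
      ring
    · rw [if_neg fun h' => h h'.symm, if_neg h]
      ring
  exact (ev_invol (P3 p) w σ hi hw fun x => F (x 1) (x 2) (x 0))

/-- The mass of the alternatives of a replica. -/
def mi (w : X → ℝ) (p : X → Y) (I : X → X → ℝ) (x : X) : ℝ := cE w p (I x) x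

theorem ev_P3_PP (p : X → Y) (w : X → ℝ) (I H : X → X → ℝ) :
    ev (P3 p) w (fun x => I (x 2) (x 1) * H (x 2) (x 0)) = PP w fun x x' => mi w p I x * H x x' := by
  rw [ev_P3 p w fun a b c => I a b * H a c]
  have e1 : ∀ a, cE w p (fun b => gm w fun c => I a b * H a c) a = mi w p I a * gm w (H a) := fun a => by
    have e : (fun b => gm w fun c => I a b * H a c) = gm w (H a) • I a := by
      funext b
      rw [Pi.smul_apply, smul_eq_mul, gm_eq_av, av_smul, ← gm_eq_av]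
      ring
    rw [e, cE_smul, Pi.smul_apply, smul_eq_mul]
    exact mul_comm _ _
  have e2 : (fun a => cE w p (fun b => gm w fun c => I a b * H a c) a) = fun a => gm w fun c => mi w p I a * H a c := by
    funext a
    rw [e1 a, gm_eq_av w (fun c => mi w p I a * H a c), av_smul, ← gm_eq_av]
  rw [e2, ← PP_swap w (fun x x' => mi w p I x * H x x'), PP_gm]

theorem p_eq {p : X → Y} {w : X → ℝ} {x : Fin 3 → X} (h : wt (P3 p) w x ≠ 0) : p (x 1) = p (x 2) := by
  have h1 := mem_of_wt (P3 p) w x h 1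
  have h2 : x 1 ∈ univ.filter fun s => p s = p (x 2) := h1
  exact (mem_filter.1 h2).2

section Maj

variable {p : X → Y} {w : X → ℝ} {I ρ : X → X → ℝ} {K0 : ℝ} {Ψ : (Fin 3 → X) → ℝ} {N n : X → ℝ}

/-- The bound of the integrand: the loop of the inner pair and the tie of the outer one. -/
def Bdp (I ρ : X → X → ℝ) (K0 : ℝ) (Ψ : (Fin 3 → X) → ℝ) : Prop := ∀ x, |Ψ x| ≤ K0 * (I (x 2) (x 1) * ρ (x 2) (x 0))

theorem own (hΨ : Bdp I ρ K0 Ψ) (u : X → X → ℝ) (u0 : ∀ x y, 0 ≤ u x y) :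
    ev (P3 p) w (fun x => |Ψ x| * u (x 2) (x 0)) ≤ K0 * PP w fun x x' => mi w p I x * (u x x' * ρ x x') := by
  rw [← ev_P3_PP p w I fun x x' => u x x' * ρ x x', ← ev_smul]
  refine ev_mono _ _ fun x => ?_
  refine (mul_le_mul_of_nonneg_right (hΨ x) (u0 _ _)).trans (le_of_eq ?_)
  ring

theorem own_mid (hΨ : Bdp I ρ K0 Ψ) (hI : ∀ x y, I x y = I y x) (hρ : ∀ y, Mp p fun x => ρ x y) (n0 : ∀ x, 0 ≤ n x) :
    ev (P3 p) w (fun x => |Ψ x| * n (x 1)) ≤ K0 * PP w fun x x' => mi w p I x * (n x * ρ x x') := by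
  rw [← ev_P3_PP p w I fun x x' => n x * ρ x x', ev_P3_swap p w fun a b c => I a b * (n a * ρ a c), ← ev_smul]
  refine ev_mono' _ _ fun x hx => ?_
  refine (mul_le_mul_of_nonneg_right (hΨ x) (n0 _)).trans (le_of_eq ?_)
  have h := hρ (x 0) (x 1) (x 2) (p_eq hx)
  have h' : ρ (x 1) (x 0) = ρ (x 2) (x 0) := h
  rw [h', hI (x 1) (x 2)]
  ring

/-- The majorant of one insertion. -/
def J1 (w : X → ℝ) (p : X → Y) (I ρ : X → X → ℝ) (n : X → ℝ) : ℝ :=
  2 * PP w (fun x x' => mi w p I x * (n x * ρ x x')) + PP w (fun x x' => mi w p I x * (cE w p n x * ρ x x')) +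
    PP w fun x x' => mi w p I x * (n x' * ρ x x')

theorem cE_n_nonneg (n0 : ∀ x, 0 ≤ n x) (x : X) : 0 ≤ cE w p n x := cE_nonneg _ _ (fun y => n0 y) x

theorem abs_cE_n (hN : ∀ x, |N x| ≤ n x) (x : X) : |cE w p N x| ≤ cE w p n x := by
  rw [cE_eq_av, cE_eq_av]
  exact (abs_av_le _ _ _).trans (av_mono _ _ fun s _ => hN s)

theorem own_all (hΨ : Bdp I ρ K0 Ψ) (hI : ∀ x y, I x y = I y x) (hρ : ∀ y, Mp p fun x => ρ x y) (n0 : ∀ x, 0 ≤ n x) :
    ev (P3 p) w (fun x => |Ψ x| * (n (x 2) + n (x 1) + n (x 0) + cE w p n (x 2))) ≤ K0 * J1 w p I ρ n := by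
  have e : ∀ x : Fin 3 → X, |Ψ x| * (n (x 2) + n (x 1) + n (x 0) + cE w p n (x 2)) =
      ((|Ψ x| * n (x 2) + |Ψ x| * n (x 1)) + |Ψ x| * n (x 0)) + |Ψ x| * cE w p n (x 2) := fun x => by ring
  rw [ev_congr _ _ e, ev_add, ev_add, ev_add]
  have h1 := own (p := p) (w := w) hΨ (fun x _ => n x) fun x _ => n0 x
  have h2 := own_mid (p := p) (w := w) hΨ hI hρ n0
  have h3 := own (p := p) (w := w) hΨ (fun _ y => n y) fun _ y => n0 y
  have h4 := own (p := p) (w := w) hΨ (fun x _ => cE w p n x) fun x _ => cE_n_nonneg n0 x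
  unfold J1
  linarith

theorem sum_lcG {B : Type*} [Fintype B] [DecidableEq B] (b : X → B) (Ψ : (Fin 3 → X) → ℝ) (x : Fin 3 → X) :
    ∑ β, |lcG b β Ψ x| = |Ψ x| := by
  have e : ∀ β : Fin 3 → B, |lcG b β Ψ x| = if (fun i => b (x i)) = β then |Ψ x| else 0 := fun β => by
    unfold lcG
    split_ifs
    · rfl
    · exact abs_zero
  rw [Finset.sum_congr rfl fun β _ => e β, Finset.sum_ite_eq, if_pos (mem_univ _)]

/-- One insertion, the free shadows contribute nothing. -/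
theorem abs_ins_one (hN : ∀ x, |N x| ≤ n x) (hG : gm w N = 0) (Φ : (Fin 3 → X) → ℝ) :
    |(P3 p).ks.dbl.toEv.ev w ((P3 p).ks.dr.ins N Φ)| ≤
      ev (P3 p) w fun x => |Φ x| * (n (x 2) + n (x 1) + n (x 0) + cE w p n (x 2)) := by
  rw [ks_ins, ins_eq]
  refine abs_ev_le _ _ fun x => ?_
  rw [abs_mul]
  refine mul_le_mul_of_nonneg_left ?_ (abs_nonneg _)
  rw [Fin.sum_univ_three]
  have a0 : av w ((P3 p).S 0 x) N = 0 := by rw [← hG, gm_eq_av]; rfl
  have a2 : av w ((P3 p).S 2 x) N = 0 := by rw [← hG, gm_eq_av]; rfl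
  have a1 : av w ((P3 p).S 1 x) N = cE w p N (x 2) := by rw [cE_eq_av]; rfl
  rw [a0, a1, a2, sub_zero, sub_zero]
  have h0 := hN (x 0)
  have h1 := hN (x 1)
  have h2 := hN (x 2)
  have h3 := abs_cE_n (p := p) (w := w) hN (x 2)
  rw [abs_le] at *
  constructor <;> linarith [h0.1, h0.2, h1.1, h1.2, h2.1, h2.2, h3.1, h3.2]

/-- **ONE INSERTION, LOCALISED.** -/
theorem ins_box_le {B : Type*} [Fintype B] [DecidableEq B] (b : X → B) (hΨ : Bdp I ρ K0 Ψ) (hI : ∀ x y, I x y = I y x)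
    (hρ : ∀ y, Mp p fun x => ρ x y) (hN : ∀ x, |N x| ≤ n x) (hG : gm w N = 0) :
    ∑ β : Fin 3 → B, |(P3 p).ks.dbl.toEv.ev w ((P3 p).ks.dr.ins N (lcG b β Ψ))| ≤ K0 * J1 w p I ρ n := by
  have n0 : ∀ x, 0 ≤ n x := fun x => (abs_nonneg _).trans (hN x)
  refine (Finset.sum_le_sum fun β _ => abs_ins_one hN hG (lcG b β Ψ)).trans ?_
  refine le_trans (le_of_eq ?_) (own_all hΨ hI hρ n0)
  rw [← ev_sum]
  refine ev_congr _ _ fun x => ?_
  rw [← Finset.sum_mul, sum_lcG]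

/-- One insertion. -/
theorem ins_le (hΨ : Bdp I ρ K0 Ψ) (hI : ∀ x y, I x y = I y x) (hρ : ∀ y, Mp p fun x => ρ x y) (hN : ∀ x, |N x| ≤ n x)
    (hG : gm w N = 0) : |(P3 p).ks.dbl.toEv.ev w ((P3 p).ks.dr.ins N Ψ)| ≤ K0 * J1 w p I ρ n :=
  (abs_ins_one hN hG Ψ).trans (own_all hΨ hI hρ fun x => (abs_nonneg _).trans (hN x))

/-- The majorant of two insertions. -/
def J2 (w : X → ℝ) (p : X → Y) (I ρ : X → X → ℝ) (n : X → ℝ) : ℝ :=
  2 * PP w (fun x x' => mi w p I x * (n x * ρ x x')) + 3 * PP w (fun x x' => mi w p I x * (cE w p n x * ρ x x')) +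
    PP w fun x x' => mi w p I x * (n x' * ρ x x')

theorem abs_ins_g {g : X → ℝ} {M : ℝ} (hg : ∀ x, |g x| ≤ M) (Φ : (Fin 3 → X) → ℝ) (y : Fin 3 ⊕ Fin 3 → X) :
    |(P3 p).ks.dr.ins g Φ y| ≤ 6 * M * |Φ fun i => y (Sum.inl i)| := by
  show |Φ (fun i => y (Sum.inl i)) * ∑ j, sgs j * g (y j)| ≤ _
  rw [abs_mul, mul_comm]
  refine mul_le_mul_of_nonneg_right ?_ (abs_nonneg _)
  refine (Finset.abs_sum_le_sum_abs _ _).trans ?_
  have h : ∀ j ∈ (univ : Finset (Fin 3 ⊕ Fin 3)), |sgs j * g (y j)| ≤ M := fun j _ => by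
    have h1 : |(sgs j : ℝ)| = 1 := by
      cases j
      · exact abs_one
      · show |(-1 : ℝ)| = 1
        rw [abs_neg, abs_one]
    rw [abs_mul, h1, one_mul]
    exact hg _
  refine (Finset.sum_le_sum h).trans (le_of_eq ?_)
  rw [Finset.sum_const, Finset.card_univ, Fintype.card_sum, Fintype.card_fin, nsmul_eq_mul]
  norm_num

/-- **TWO INSERTIONS**, up to the free shadows. -/
theorem ins2_le {g : X → ℝ} {M : ℝ} (M0 : 0 ≤ M) (hg : ∀ x, |g x| ≤ M) (hΨ : Bdp I ρ K0 Ψ) (hI : ∀ x y, I x y = I y x)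
    (hρ : ∀ y, Mp p fun x => ρ x y) (hN : ∀ x, |N x| ≤ n x) (hG : gm w N = 0) :
    |(P3 p).ks.dbl.dbl.toEv.ev w ((P3 p).ks.dbl.dr.ins N ((P3 p).ks.dr.ins g Ψ))| ≤
      6 * M * (K0 * J2 w p I ρ n) + 2 * |gm w (fun s => g s * N s) * ev (P3 p) w Ψ| := by
  set K := (P3 p).ks with hK
  have n0 : ∀ x, 0 ≤ n x := fun x => (abs_nonneg _).trans (hN x)
  have a0 : ∀ (x : Fin 3 → X) (F : X → ℝ), av w (K.A 0 x) F = gm w F := fun x F => by rw [gm_eq_av]; rfl
  have a2 : ∀ (x : Fin 3 → X) (F : X → ℝ), av w (K.A 2 x) F = gm w F := fun x F => by rw [gm_eq_av]; rfl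
  have a1 : ∀ (x : Fin 3 → X) (F : X → ℝ), av w (K.A 1 x) F = cE w p F (x 2) := fun x F => by rw [cE_eq_av]; rfl
  have e1 : K.dbl.dbl.toEv.ev w (K.dbl.dr.ins N (K.dr.ins g Ψ)) =
      K.dbl.toEv.ev w fun y => K.dr.ins g Ψ y * ∑ j, (N (y j) - av w (K.dbl.A j y) N) := K.dbl.ins_ev w N (K.dr.ins g Ψ)
  set R : (Fin 3 ⊕ Fin 3 → X) → ℝ := fun y => N (y (Sum.inl 0)) + N (y (Sum.inl 1)) + N (y (Sum.inl 2)) +
    N (y (Sum.inr 1)) - 2 * cE w p N (y (Sum.inl 2)) with hR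
  have e2 : ∀ y, K.dr.ins g Ψ y * ∑ j, (N (y j) - av w (K.dbl.A j y) N) =
      (K.dr.ins g Ψ y * R y + K.dr.ins g Ψ y * N (y (Sum.inr 0))) + K.dr.ins g Ψ y * N (y (Sum.inr 2)) := fun y => by
    have b : ∀ j : Fin 3, av w (K.dbl.A (Sum.inl j) y) N = av w (K.A j fun i => y (Sum.inl i)) N := fun j => rfl
    have b' : ∀ j : Fin 3, av w (K.dbl.A (Sum.inr j) y) N = av w (K.A j fun i => y (Sum.inl i)) N := fun j => rfl
    rw [Fintype.sum_sum_type, Fin.sum_univ_three, Fin.sum_univ_three, b, b, b, b', b', b', a0, a1, a2, hG, hR]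
    ring
  have e3 : K.dbl.toEv.ev w (fun y => K.dr.ins g Ψ y * N (y (Sum.inr 0))) = -gm w (fun s => g s * N s) * K.toEv.ev w Ψ :=
    shadow_free K w g N Ψ 0 (fun x => by rw [a0, hG]) fun x => a0 x _
  have e4 : K.dbl.toEv.ev w (fun y => K.dr.ins g Ψ y * N (y (Sum.inr 2))) = -gm w (fun s => g s * N s) * K.toEv.ev w Ψ :=
    shadow_free K w g N Ψ 2 (fun x => by rw [a2, hG]) fun x => a2 x _
  rw [e1, H41.ev_congr _ _ e2, H41.ev_add, H41.ev_add, e3, e4]
  have k1 : |K.dbl.toEv.ev w (fun y => K.dr.ins g Ψ y * R y)| ≤ 6 * M * (K0 * J2 w p I ρ n) := by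
    refine (H41.abs_ev_le _ _ _).trans ?_
    have h1 : ∀ y, |K.dr.ins g Ψ y * R y| ≤ 6 * M * ((fun x : Fin 3 → X =>
        |Ψ x| * (n (x 2) + n (x 1) + n (x 0) + cE w p n (x 2)) + |Ψ x| * cE w p n (x 2)) (fun i => y (Sum.inl i)) +
        (fun (x : Fin 3 → X) (s : X) => |Ψ x| * n s) (fun i => y (Sum.inl i)) (y (Sum.inr 1))) := fun y => by
      rw [abs_mul]
      have h2 := abs_ins_g (p := p) hg Ψ y
      have h3 : |R y| ≤ n (y (Sum.inl 2)) + n (y (Sum.inl 1)) + n (y (Sum.inl 0)) + cE w p n (y (Sum.inl 2)) +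
          cE w p n (y (Sum.inl 2)) + n (y (Sum.inr 1)) := by
        have c0 := hN (y (Sum.inl 0))
        have c1 := hN (y (Sum.inl 1))
        have c2 := hN (y (Sum.inl 2))
        have c3 := hN (y (Sum.inr 1))
        have c4 := abs_cE_n (p := p) (w := w) hN (y (Sum.inl 2))
        simp only [hR]
        rw [abs_le] at *
        constructor <;> linarith [c0.1, c0.2, c1.1, c1.2, c2.1, c2.2, c3.1, c3.2, c4.1, c4.2]
      refine (mul_le_mul h2 h3 (abs_nonneg _) (mul_nonneg (by linarith) (abs_nonneg _))).trans (le_of_eq ?_)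
      ring
    refine (H41.ev_mono _ _ h1).trans ?_
    rw [H41.ev_smul, H41.ev_add]
    refine mul_le_mul_of_nonneg_left ?_ (by linarith)
    have h4 := K.dbl_old w (fun x : Fin 3 → X =>
        |Ψ x| * (n (x 2) + n (x 1) + n (x 0) + cE w p n (x 2)) + |Ψ x| * cE w p n (x 2))
    have h5 := K.dbl_one w 1 (fun (x : Fin 3 → X) (s : X) => |Ψ x| * n s)
    rw [h4, h5, hK, ks_ev, ks_ev, ev_add]
    have h6 := own_all (w := w) hΨ hI hρ n0
    have h7 := own (p := p) (w := w) hΨ (fun x _ => cE w p n x) fun x _ => cE_n_nonneg n0 x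
    have h8 : ev (P3 p) w (fun x => av w ((P3 p).ks.A 1 x) fun s => |Ψ x| * n s) =
        ev (P3 p) w fun x => |Ψ x| * cE w p n (x 2) := ev_congr _ _ fun x => by
      rw [av_smul, cE_eq_av]
      rfl
    rw [h8]
    unfold J1 at h6
    unfold J2
    linarith
  have k2 : K.toEv.ev w Ψ = ev (P3 p) w Ψ := by rw [hK, ks_ev]
  rw [k2]
  have k3 : ∀ a b : ℝ, |a + -b + -b| ≤ |a| + 2 * |b| := fun a b => by
    have h1 := abs_add_le (a + -b) (-b)
    have h2 := abs_add_le a (-b)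
    rw [abs_neg] at h1 h2
    linarith
  have k4 := k3 (K.dbl.toEv.ev w fun y => K.dr.ins g Ψ y * R y) (gm w (fun s => g s * N s) * ev (P3 p) w Ψ)
  rw [neg_mul]
  linarith

end Maj

end Three

/-! ### The exact exchange of the futures of two free replicas -/

section Far

variable {Q : Finset (Finset ℕ)} [SwQ Q] [Nonempty (Px Q)] {z c : ℕ} {w : Px Q → ℝ}

open Classical in
/-- Exchange of the futures behind the last common position in `[z, c]`. -/
def xt (z c : ℕ) (q : Px Q × Px Q) : Px Q × Px Q :=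
  if Mt 0 0 z c q.1 q.2 then (sw 0 c q.2 q.1, sw 0 c q.1 q.2) else q

theorem xt_pos {q : Px Q × Px Q} (h : Mt 0 0 z c q.1 q.2) : xt z c q = (sw 0 c q.2 q.1, sw 0 c q.1 q.2) := by
  unfold xt
  rw [if_pos h]

theorem xt_neg {q : Px Q × Px Q} (h : ¬Mt 0 0 z c q.1 q.2) : xt z c q = q := by
  unfold xt
  rw [if_neg h]

theorem Mt_s {q : Px Q × Px Q} (h : Mt 0 0 z c q.1 q.2) : Mt 0 0 z c q.2 q.1 := by
  rw [Mt_symm]
  exact h

theorem Mt_xt {q : Px Q × Px Q} (h : Mt 0 0 z c q.1 q.2) : Mt 0 0 z c (xt z c q).1 (xt z c q).2 := by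
  rw [xt_pos h]
  exact Mt_sw (Nat.zero_le _) (Mt_s h)

theorem xt_xt : Function.Involutive (xt (Q := Q) z c) := by
  intro q
  by_cases h : Mt 0 0 z c q.1 q.2
  · rw [xt_pos (Mt_xt h), xt_pos h]
    show (sw 0 c (sw 0 c q.1 q.2) (sw 0 c q.2 q.1), sw 0 c (sw 0 c q.2 q.1) (sw 0 c q.1 q.2)) = q
    rw [sw_sw (Nat.zero_le z) h, sw_sw (Nat.zero_le z) (Mt_s h)]
  · rw [xt_neg (by rw [xt_neg h]; exact h), xt_neg h]

open Classical in
theorem PP_xt_zero (hw : Hd z c w) {F : Px Q → Px Q → ℝ}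
    (hF : ∀ S S', Mt 0 0 z c S S' → F (sw 0 c S' S) (sw 0 c S S') = -F S S') :
    PP w (fun S S' => if Mt 0 0 z c S S' then F S S' else 0) = 0 := by
  rw [PP_eq]
  have h1 : ∑ S, ∑ S', Real.exp (w S) * Real.exp (w S') * (if Mt 0 0 z c S S' then F S S' else 0) =
      ∑ q : Px Q × Px Q, Real.exp (w q.1) * Real.exp (w q.2) * (if Mt 0 0 z c q.1 q.2 then F q.1 q.2 else 0) := by
    rw [← univ_product_univ, sum_product]
  have h2 : ∑ q : Px Q × Px Q, Real.exp (w (xt z c q).1) * Real.exp (w (xt z c q).2) *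
      (if Mt 0 0 z c (xt z c q).1 (xt z c q).2 then F (xt z c q).1 (xt z c q).2 else 0) =
      ∑ q : Px Q × Px Q, Real.exp (w q.1) * Real.exp (w q.2) * (if Mt 0 0 z c q.1 q.2 then F q.1 q.2 else 0) :=
    Fintype.sum_equiv xt_xt.toPerm _ _ fun q => rfl
  have h3 : ∀ q : Px Q × Px Q, Real.exp (w (xt z c q).1) * Real.exp (w (xt z c q).2) *
      (if Mt 0 0 z c (xt z c q).1 (xt z c q).2 then F (xt z c q).1 (xt z c q).2 else 0) =
      -(Real.exp (w q.1) * Real.exp (w q.2) * (if Mt 0 0 z c q.1 q.2 then F q.1 q.2 else 0)) := fun q => by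
    by_cases h : Mt 0 0 z c q.1 q.2
    · rw [if_pos (Mt_xt h), if_pos h, xt_pos h]
      show Real.exp (w (sw 0 c q.2 q.1)) * Real.exp (w (sw 0 c q.1 q.2)) * F (sw 0 c q.2 q.1) (sw 0 c q.1 q.2) = _
      rw [hF _ _ h, ← Real.exp_add, ← Real.exp_add, add_comm (w (sw 0 c q.2 q.1)), hw _ _ h]
      ring
    · rw [xt_neg h, if_neg h]
      ring
  rw [Finset.sum_congr rfl fun q _ => h3 q, Finset.sum_neg_distrib] at h2
  rw [h1]
  have h4 : ∑ q : Px Q × Px Q, Real.exp (w q.1) * Real.exp (w q.2) * (if Mt 0 0 z c q.1 q.2 then F q.1 q.2 else 0) = 0 := by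
    linarith
  rw [h4, zero_div]

/-- The function of two paths sees only the rows up to `z`. -/
def Hk (z : ℕ) (K : Px Q → Px Q → ℝ) : Prop :=
  ∀ S S' T T' : Px Q, (∀ i, i ≤ z → ps S i = ps T i) → (∀ i, i ≤ z → ps S' i = ps T' i) → K S S' = K T T'

/-- **The exact cut of the pair of `f`.** -/
theorem PP_far (hw : Hd z c w) {K : Px Q → Px Q → ℝ} (hK : Hk z K) {f : Px Q → ℝ} (hf : Rk c f) :
    PP w (fun S S' => K S S' * (f S - f S')) = PP w fun S S' => K S S' * ((f S - f S') * NI z c S S') := by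
  classical
  have h0 : PP w (fun S S' => if Mt 0 0 z c S S' then K S S' * (f S - f S') else 0) = 0 :=
    PP_xt_zero hw fun S S' h => by
      have h' : Mt 0 0 z c S' S := by
        rw [Mt_symm]
        exact h
      have e1 : K (sw 0 c S' S) (sw 0 c S S') = K S S' :=
        hK _ _ _ _ (fun i hi => ps_sw h' (Nat.zero_le _) hi) fun i hi => ps_sw h (Nat.zero_le _) hi
      have e2 : f (sw 0 c S' S) = f S' := hf _ _ fun i hi => ps_sw_out (Nat.zero_le _) h' (Or.inr hi)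
      have e3 : f (sw 0 c S S') = f S := hf _ _ fun i hi => ps_sw_out (Nat.zero_le _) h (Or.inr hi)
      rw [e1, e2, e3]
      ring
  have e : (fun S S' => K S S' * (f S - f S')) = fun S S' =>
      (if Swap57.Mt 0 0 z c S S' then K S S' * (f S - f S') else 0) + K S S' * ((f S - f S') * NI z c S S') := by
    funext S S'
    rw [NI_eq]
    split_ifs <;> ring
  rw [e, PP_add w (fun S S' => if Swap57.Mt 0 0 z c S S' then K S S' * (f S - f S') else 0)
    (fun S S' => K S S' * ((f S - f S') * NI z c S S')), h0, zero_add]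

theorem PP_one_sub (w A f : Px Q → ℝ) : PP w (fun S S' => A S * (f S - f S')) = gm w (A * f) - gm w A * gm w f := by
  have e : (fun S S' => A S * (f S - f S')) = fun S S' => (A * f) S * (fun _ => (1 : ℝ)) S' + (-1) * (A S * f S') := by
    funext S S'
    rw [Pi.mul_apply]
    ring
  rw [e, PP_add w (fun S S' => (A * f) S * (fun _ => (1 : ℝ)) S') (fun S S' => (-1) * (A S * f S')), PP_smul w (-1),
    PP_mul w (A * f) fun _ => 1, PP_mul w A f]
  have h1 : gm w (fun _ : Px Q => (1 : ℝ)) = 1 := by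
    rw [gm_eq_av, av_const w univ_nonempty]
  rw [h1]
  ring

theorem PP_two_sub (w A Φ f : Px Q → ℝ) :
    PP w (fun S S' => Φ S * A S' * (f S - f S')) = gm w (Φ * f) * gm w A - gm w Φ * gm w (A * f) := by
  have e : (fun S S' => Φ S * A S' * (f S - f S')) = fun S S' => (Φ * f) S * A S' + (-1) * (Φ S * (A * f) S') := by
    funext S S'
    rw [Pi.mul_apply, Pi.mul_apply]
    ring
  rw [e, PP_add w (fun S S' => (Φ * f) S * A S') (fun S S' => (-1) * (Φ S * (A * f) S')), PP_smul w (-1),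
    PP_mul w (Φ * f) A, PP_mul w Φ (A * f)]
  ring

/-- **The pair of `f` moves to the replica with the micro tie**, exactly. -/
theorem free_move (hw : Hd z c w) {A Φ f : Px Q → ℝ} (hA : Lk 0 z A) (hΦ : Lk 0 z Φ) (hf : Rk c f) :
    gm w A * PP w (fun S S' => Φ S * ((f S - f S') * NI z c S S')) =
      PP w (fun S S' => Φ S * A S' * ((f S - f S') * NI z c S S')) +
        gm w Φ * PP w (fun S S' => A S * ((f S - f S') * NI z c S S')) := by
  have kA : Hk z fun S _ : Px Q => A S := fun S S' T T' h1 h2 => hA S T fun i _ hi => h1 i hi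
  have kΦ : Hk z fun S _ : Px Q => Φ S := fun S S' T T' h1 h2 => hΦ S T fun i _ hi => h1 i hi
  have k2 : Hk z fun S S' : Px Q => Φ S * A S' := fun S S' T T' h1 h2 => by
    show Φ S * A S' = Φ T * A T'
    rw [hΦ S T fun i _ hi => h1 i hi, hA S' T' fun i _ hi => h2 i hi]
  rw [← PP_far hw kA hf, ← PP_far hw kΦ hf, ← PP_far hw k2 hf, PP_one_sub, PP_one_sub, PP_two_sub]
  ring

/-! ### The remainder of two insertions -/

section Two

variable {Y : Type*} [DecidableEq Y] {p : Px Q → Y} {I G : Px Q → Px Q → ℝ} {K0 M : ℝ} {N n g f : Px Q → ℝ}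

/-- The tie of `f`. -/
def rh (z c : ℕ) (f : Px Q → ℝ) (S S' : Px Q) : ℝ := |f S - f S'| * NI z c S S'

/-- The observable: a loop of the inner pair, the pair of `f` cut. -/
def ob (z c : ℕ) (G : Px Q → Px Q → ℝ) (f : Px Q → ℝ) (x : Fin 3 → Px Q) : ℝ :=
  G (x 2) (x 1) * ((f (x 2) - f (x 0)) * NI z c (x 2) (x 0))

theorem rh_nonneg (f : Px Q → ℝ) (S S' : Px Q) : 0 ≤ rh z c f S S' := mul_nonneg (abs_nonneg _) (NI_nonneg _ _ _ _)

theorem abs_rh (f : Px Q → ℝ) (S S' : Px Q) : |(f S - f S') * NI z c S S'| = rh z c f S S' := by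
  rw [abs_mul, abs_of_nonneg (NI_nonneg _ _ _ _)]
  rfl

theorem bdp_ob (hG : ∀ S S', |G S S'| ≤ K0 * I S S') : Bdp I (rh z c f) K0 (ob z c G f) := fun x => by
  unfold ob
  rw [abs_mul, abs_rh, ← mul_assoc]
  exact mul_le_mul_of_nonneg_right (hG _ _) (rh_nonneg _ _ _)

theorem ev_ob (w : Px Q → ℝ) (p : Px Q → Y) (G : Px Q → Px Q → ℝ) (f : Px Q → ℝ) :
    ev (P3 p) w (ob z c G f) = PP w fun S S' => mi w p G S * ((f S - f S') * NI z c S S') :=
  ev_P3_PP p w G fun S S' => (f S - f S') * NI z c S S'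

theorem abs_mi_le (hG : ∀ S S', |G S S'| ≤ K0 * I S S') (S : Px Q) : |mi w p G S| ≤ K0 * mi w p I S := by
  unfold mi
  rw [cE_eq_av, cE_eq_av, ← av_smul]
  exact (abs_av_le _ _ _).trans (av_mono _ _ fun s _ => hG S s)

theorem abs_PP_le (w : Px Q → ℝ) {F H : Px Q → Px Q → ℝ} (h : ∀ S S', |F S S'| ≤ H S S') : |PP w F| ≤ PP w H := by
  rw [abs_le]
  constructor
  · have h1 := PP_mono w (Q := fun S S' => (-1) * H S S') (R := F) fun S S' => by
      have := (abs_le.1 (h S S')).1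
      linarith
    rw [PP_smul w (-1)] at h1
    linarith
  · exact PP_mono w fun S S' => (abs_le.1 (h S S')).2

/-- The free replica with the micro tie, and the pair of `f` at it. -/
def J3 (w : Px Q → ℝ) (p : Px Q → Y) (I ρ : Px Q → Px Q → ℝ) (n : Px Q → ℝ) : ℝ :=
  PP w (fun x x' => mi w p I x * (n x' * ρ x x')) + gm w (mi w p I) * PP w fun x x' => n x * ρ x x'

theorem abs_free_le (hw : Hd z c w) (M0 : 0 ≤ M) (K00 : 0 ≤ K0) (hg : ∀ S, |g S| ≤ M) (hN : ∀ S, |N S| ≤ n S)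
    (hGI : ∀ S S', |G S S'| ≤ K0 * I S S') (hA : Lk 0 z fun S => g S * N S) (hΦ : Lk 0 z (mi w p G)) (hf : Rk c f) :
    |gm w (fun S => g S * N S) * ev (P3 p) w (ob z c G f)| ≤ M * (K0 * J3 w p I (rh z c f) n) := by
  have n0 : ∀ x, 0 ≤ n x := fun x => (abs_nonneg _).trans (hN x)
  rw [ev_ob, free_move hw hA hΦ hf]
  have hAn : ∀ S, |g S * N S| ≤ M * n S := fun S => by
    rw [abs_mul]
    exact mul_le_mul (hg S) (hN S) (abs_nonneg _) M0
  have hI0 : ∀ S, 0 ≤ K0 * mi w p I S := fun S => (abs_nonneg _).trans (abs_mi_le hGI S)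
  have k1 : |PP w fun S S' => mi w p G S * (g S' * N S') * ((f S - f S') * NI z c S S')| ≤
      M * (K0 * PP w fun x x' => mi w p I x * (n x' * rh z c f x x')) := by
    rw [← PP_smul, ← PP_smul]
    refine abs_PP_le w fun S S' => ?_
    rw [abs_mul, abs_mul, abs_rh]
    have h := mul_le_mul (abs_mi_le (p := p) (w := w) hGI S) (hAn S') (abs_nonneg _) (hI0 S)
    refine (mul_le_mul_of_nonneg_right h (rh_nonneg f S S')).trans (le_of_eq ?_)
    ring
  have k2 : |gm w (mi w p G)| ≤ K0 * gm w (mi w p I) := by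
    rw [gm_eq_av, gm_eq_av, ← av_smul]
    exact (abs_av_le _ _ _).trans (av_mono _ _ fun s _ => abs_mi_le hGI s)
  have k3 : |PP w fun S S' => (fun S => g S * N S) S * ((f S - f S') * NI z c S S')| ≤
      M * PP w fun x x' => n x * rh z c f x x' := by
    rw [← PP_smul]
    refine abs_PP_le w fun S S' => ?_
    rw [abs_mul, abs_rh, ← mul_assoc]
    exact mul_le_mul_of_nonneg_right (hAn S) (rh_nonneg f S S')
  refine (abs_add_le _ _).trans ?_
  rw [abs_mul]
  have k4 := mul_le_mul k2 k3 (abs_nonneg _) ((abs_nonneg _).trans k2)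
  refine (add_le_add k1 k4).trans (le_of_eq ?_)
  unfold J3
  ring

/-- **TWO INSERTIONS, final form**: `C` = the slab average, `N = g - C` has Gibbs mean zero. -/
theorem ins2_ob_le (hw : Hd z c w) (M0 : 0 ≤ M) (K00 : 0 ≤ K0) (hg : ∀ S, |g S| ≤ M) (hN : ∀ S, |N S| ≤ n S)
    (hG : gm w N = 0) (hI : ∀ S S', I S S' = I S' S) (hρ : ∀ S', Mp p fun S => rh z c f S S')
    (hGI : ∀ S S', |G S S'| ≤ K0 * I S S') (hA : Lk 0 z fun S => g S * N S) (hΦ : Lk 0 z (mi w p G)) (hf : Rk c f) :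
    |(P3 p).ks.dbl.dbl.toEv.ev w ((P3 p).ks.dbl.dr.ins N ((P3 p).ks.dr.ins g (ob z c G f)))| ≤
      M * K0 * (6 * J2 w p I (rh z c f) n + 2 * J3 w p I (rh z c f) n) := by
  have h1 := ins2_le (p := p) (w := w) (Ψ := ob z c G f) M0 hg (bdp_ob hGI) hI hρ hN hG
  have h2 := abs_free_le (p := p) (I := I) (n := n) hw M0 K00 hg hN hGI hA hΦ hf
  refine h1.trans ?_
  linarith

end Two

end Far

/-! ### The slab averages -/

section Slab

variable {X : Type*} [Fintype X] [DecidableEq X] [Nonempty X] {Y' : Type*} [DecidableEq Y']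

/-- The slab average of the conditional means. -/
def Cq (w : X → ℝ) (J : Finset ℕ) (q : ℕ → X → Y') (g : X → ℝ) (S : X) : ℝ := (J.card : ℝ)⁻¹ * ∑ m ∈ J, cE w (q m) g S

/-- The micro tie: one more replica given `q m`, with another value of `g`. -/
def nn (w : X → ℝ) (J : Finset ℕ) (q : ℕ → X → Y') (g : X → ℝ) (S : X) : ℝ :=
  (J.card : ℝ)⁻¹ * ∑ m ∈ J, cE w (q m) (fun T => |g S - g T|) S

theorem gm_sub_Cq {w : X → ℝ} {J : Finset ℕ} (hJ : J.Nonempty) (q : ℕ → X → Y') (g : X → ℝ) :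
    gm w (g - Cq w J q g) = 0 := by
  have h0 : (J.card : ℝ) ≠ 0 := Nat.cast_ne_zero.2 (card_pos.2 hJ).ne'
  have e1 : ∀ m, gm w (cE w (q m) g) = gm w g := fun m => by
    have h1 : Mp (q m) fun _ : X => (1 : ℝ) := fun _ _ _ => rfl
    have h := gm_mul_cE w h1 g
    have e : ∀ k : X → ℝ, (fun _ : X => (1 : ℝ)) * k = k := fun k => by
      funext S
      rw [Pi.mul_apply, one_mul]
    rw [e, e] at h
    exact h
  have e2 : (g - Cq w J q g) = fun S => g S - (J.card : ℝ)⁻¹ * ∑ m ∈ J, cE w (q m) g S := rfl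
  rw [e2, gm_eq_av, av_sub, av_smul, av_sum]
  have e3 : ∀ m ∈ J, av w univ (fun S => cE w (q m) g S) = av w univ g := fun m _ => by
    rw [← gm_eq_av, ← gm_eq_av]
    exact e1 m
  rw [Finset.sum_congr rfl e3, Finset.sum_const, nsmul_eq_mul, ← mul_assoc, inv_mul_cancel₀ h0, one_mul, sub_self]

theorem abs_sub_Cq_le {w : X → ℝ} {J : Finset ℕ} (hJ : J.Nonempty) (q : ℕ → X → Y') (g : X → ℝ) (S : X) :
    |(g - Cq w J q g) S| ≤ nn w J q g S := by
  have h0 : (J.card : ℝ) ≠ 0 := Nat.cast_ne_zero.2 (card_pos.2 hJ).ne'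
  have e : (g - Cq w J q g) S = (J.card : ℝ)⁻¹ * ∑ m ∈ J, (g S - cE w (q m) g S) := by
    show g S - (J.card : ℝ)⁻¹ * ∑ m ∈ J, cE w (q m) g S = _
    rw [Finset.sum_sub_distrib, Finset.sum_const, nsmul_eq_mul, mul_sub, ← mul_assoc, inv_mul_cancel₀ h0, one_mul]
  rw [e]
  unfold nn
  rw [abs_mul, abs_of_nonneg (inv_nonneg.2 (Nat.cast_nonneg _))]
  refine mul_le_mul_of_nonneg_left ?_ (inv_nonneg.2 (Nat.cast_nonneg _))
  refine (Finset.abs_sum_le_sum_abs _ _).trans (Finset.sum_le_sum fun m _ => ?_)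
  have e1 : g S - cE w (q m) g S = av w (univ.filter fun s => q m s = q m S) fun T => g S - g T := by
    rw [av_sub w _ (fun _ => g S) g, av_const w (fib_ne (q m) S), ← cE_eq_av]
  rw [e1, cE_eq_av]
  exact abs_av_le _ _ _

end Slab

/-! ### The instances -/

section Inst

variable {Q : Finset (Finset ℕ)} [SwQ Q] [Nonempty (Px Q)] {c0 z c : ℕ} {w : Px Q → ℝ} {Y' : Type*} [DecidableEq Y']
  {J : Finset ℕ} {q : ℕ → Px Q → Y'} {γ g f : Px Q → ℝ} {Mγ Mg : ℝ} {wl al be wr : ℕ}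

theorem NI_symm (i j : ℕ) (S S' : Px Q) : NI i j S S' = NI i j S' S := by
  unfold NI
  by_cases h : ∀ k, i ≤ k → k ≤ j → ps S k ≠ ps S' k
  · rw [if_pos h, if_pos fun k h1 h2 => (h k h1 h2).symm]
  · rw [if_neg h, if_neg fun h' => h fun k h1 h2 => (h' k h1 h2).symm]

theorem mp_rh (hzc : z ≤ c) (hf : Rk c f) (S' : Px Q) : Mp (pJ c0 z) fun S => rh z c f S S' := fun S T h => by
  have h1 : ∀ i, z ≤ i → ps S i = ps T i := fun i hi => ps_of_ge h hi
  show |f S - f S'| * NI z c S S' = |f T - f S'| * NI z c T S'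
  rw [hf S T fun i hi => h1 i (hzc.trans hi), CutT57.NI_congr (fun i hi _ => h1 i hi) fun i _ _ => rfl]

/-- **One insertion, right part**, localised. -/
theorem one_R {B : Type*} [Fintype B] [DecidableEq B] (b : Px Q → B) (hzc : z ≤ c) (hJ : J.Nonempty) (hf : Rk c f)
    (hγ : ∀ S, |γ S| ≤ Mγ) (hg : ∀ S, |g S| ≤ Mg) :
    ∑ β : Fin 3 → B, |(P3 (pJ c0 z)).ks.dbl.toEv.ev w ((P3 (pJ c0 z)).ks.dr.ins (g - Cq w J q g)
      (lcG b β (psRF be wr z c γ g f)))| ≤ 2 * Mγ * Mg * J1 w (pJ c0 z) (NI be wr) (rh z c f) (nn w J q g) :=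
  ins_box_le b (bdp_ob fun S S' => abs_pR59_le hγ hg S S') (NI_symm be wr) (mp_rh hzc hf) (abs_sub_Cq_le hJ q g)
    (gm_sub_Cq hJ q g)

/-- **One insertion, left part**, localised. -/
theorem one_L {B : Type*} [Fintype B] [DecidableEq B] (b : Px Q → B) (hzc : z ≤ c) (hJ : J.Nonempty) (hf : Rk c f)
    (hγ : ∀ S, |γ S| ≤ Mγ) (hg : ∀ S, |g S| ≤ Mg) :
    ∑ β : Fin 3 → B, |(P3 (pJ c0 z)).ks.dbl.toEv.ev w ((P3 (pJ c0 z)).ks.dr.ins (g - Cq w J q g)
      (lcG b β (psLF wl al be wr z c γ g f)))| ≤ 2 * Mγ * Mg * J1 w (pJ c0 z) (NI wl al) (rh z c f) (nn w J q g) :=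
  ins_box_le b (bdp_ob fun S S' => abs_pL59_le hγ hg S S') (NI_symm wl al) (mp_rh hzc hf) (abs_sub_Cq_le hJ q g)
    (gm_sub_Cq hJ q g)

/-- **Two insertions, right part.** -/
theorem two_R (hcz : c0 ≤ z) (hwr : wr ≤ z) (hzc : z ≤ c) (hw1 : Hd z z w) (hw2 : Hd z c w) (hJ : J.Nonempty) (hf : Rk c f)
    (hγ : ∀ S, |γ S| ≤ Mγ) (hg : ∀ S, |g S| ≤ Mg) (hγ0 : Lk 0 z γ) (hg0 : Lk 0 z g) (hC : Lk 0 z (Cq w J q g)) :
    |(P3 (pJ c0 z)).ks.dbl.dbl.toEv.ev w ((P3 (pJ c0 z)).ks.dbl.dr.ins (g - Cq w J q g)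
      ((P3 (pJ c0 z)).ks.dr.ins g (psRF be wr z c γ g f)))| ≤ Mg * (2 * Mγ * Mg) *
      (6 * J2 w (pJ c0 z) (NI be wr) (rh z c f) (nn w J q g) + 2 * J3 w (pJ c0 z) (NI be wr) (rh z c f) (nn w J q g)) := by
  have a1 : 0 ≤ Mγ := (abs_nonneg _).trans (hγ (Classical.arbitrary _))
  have a2 : 0 ≤ Mg := (abs_nonneg _).trans (hg (Classical.arbitrary _))
  have hA : Lk 0 z fun S => g S * (g - Cq w J q g) S := fun S S' h => by
    show g S * (g S - Cq w J q g S) = g S' * (g S' - Cq w J q g S')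
    rw [hg0 S S' h, hC S S' h]
  exact ins2_ob_le hw2 a2 (by positivity) hg (abs_sub_Cq_le hJ q g) (gm_sub_Cq hJ q g) (NI_symm be wr) (mp_rh hzc hf)
    (fun S S' => abs_pR59_le hγ hg S S') hA (lk_cE59 hcz hw1 (Lk2_pR59 hwr hγ0 hg0)) hf

/-- **Two insertions, left part.** -/
theorem two_L (hcz : c0 ≤ z) (hal : al ≤ z) (hwr : wr ≤ z) (hzc : z ≤ c) (hw1 : Hd z z w) (hw2 : Hd z c w) (hJ : J.Nonempty)
    (hf : Rk c f) (hγ : ∀ S, |γ S| ≤ Mγ) (hg : ∀ S, |g S| ≤ Mg) (hγ0 : Lk 0 z γ) (hg0 : Lk 0 z g)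
    (hC : Lk 0 z (Cq w J q g)) :
    |(P3 (pJ c0 z)).ks.dbl.dbl.toEv.ev w ((P3 (pJ c0 z)).ks.dbl.dr.ins (g - Cq w J q g)
      ((P3 (pJ c0 z)).ks.dr.ins g (psLF wl al be wr z c γ g f)))| ≤ Mg * (2 * Mγ * Mg) *
      (6 * J2 w (pJ c0 z) (NI wl al) (rh z c f) (nn w J q g) + 2 * J3 w (pJ c0 z) (NI wl al) (rh z c f) (nn w J q g)) := by
  have a1 : 0 ≤ Mγ := (abs_nonneg _).trans (hγ (Classical.arbitrary _))
  have a2 : 0 ≤ Mg := (abs_nonneg _).trans (hg (Classical.arbitrary _))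
  have hA : Lk 0 z fun S => g S * (g - Cq w J q g) S := fun S S' h => by
    show g S * (g S - Cq w J q g S) = g S' * (g S' - Cq w J q g S')
    rw [hg0 S S' h, hC S S' h]
  exact ins2_ob_le hw2 a2 (by positivity) hg (abs_sub_Cq_le hJ q g) (gm_sub_Cq hJ q g) (NI_symm wl al) (mp_rh hzc hf)
    (fun S S' => abs_pL59_le hγ hg S S') hA (lk_cE59 hcz hw1 (Lk2_pL59 hal hwr hγ0 hg0)) hf

/-- The forward slab average sees only the head. -/
theorem lk_fw (hg : Lk 0 be g) (hw : ∀ m ∈ J, Hd m m w) (hJ : ∀ m ∈ J, be ≤ m ∧ m ≤ z) : Lk 0 z (Cq w J (pJ 0) g) :=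
  fun S S' h => by
    unfold Cq
    congr 1
    refine Finset.sum_congr rfl fun m hm => ?_
    exact markov_cE (hw m hm) (Lk_mono (Nat.zero_le _) (hJ m hm).1 hg) S S' fun i h1 h2 => h i (Nat.zero_le _)
      (h2.trans (hJ m hm).2)

/-- The backward slab average sees only the head. -/
theorem lk_bw {N : ℕ} (hE : ∀ S S' : Px Q, ∀ i, N ≤ i → ps S i = ps S' i) (hJ : ∀ m ∈ J, m ≤ z) (hz : z ≤ N) :
    Lk 0 z (Cq w J (fun m => pJ m N) g) := fun S S' h => by
  unfold Cq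
  congr 1
  refine Finset.sum_congr rfl fun m hm => ?_
  refine cE_meas w (pJ m N) g S S' (pJ_of_out ((hJ m hm).trans hz) fun i hi => ?_)
  rcases hi with hi | hi
  · exact h i (Nat.zero_le _) (hi.trans (hJ m hm))
  · exact hE S S' i hi

end Inst

end

end Pool.Agent.W_7d29a1_C0.MicE14
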