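import Pool.Agent.W_7d29a1_C0.Cor45
import Pool.Agent.W_7d29a1_C0.MicE14
import Pool.Agent.W_7d29a1_C0.EvU50

/-!
MP_7d29a1_pr, [CURV0] / [C0], leaf E2.6 (helper45): **THE PASSAGE TO THE CORNER OF THE MAJORANTS OF E2** (`J1`, `J2` of `MicE14`), forward.

`e0_PP45`: `E0X` for two free replicas. `PP_exch45`: the mass of the own pair and the mean of the micro tie given the same condition may be
exchanged. `nn_av45`: the micro tie, averaged exactly over what is behind the row `m`, is the mean of `|g - g'|` over two replicas given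
`pJ 0 m`; `Mic45` is the input: this mean is at most `B 1[T m]` up to a bad event and a small number, `T m` robust. `T2R45`, `TpR45`,
`T0Q45`, `ownR45`, `ownL45`: the functionals at the tilted weights are at most `N ^ ε` times the functionals at the actual weights, where
the own pair is told from the path itself (`Nta`: given what is behind the block; `TauM`: the mass of the pairs, averaged), and the micro
tie is the event `T' m`.
-/

set_option autoImplicit false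
set_option linter.unusedSectionVars false
set_option linter.unusedVariables false

namespace Pool.W7d29a1.C0.C45

open Finset MeasureTheory Pool.Agent.W_7d29a1_F Pool.Agent.W_7d29a1_X Pool.Agent.W_7d29a1_C0.Mod92
open Pool.Agent.W_7d29a1_C0.Swap57 Pool.Agent.W_7d29a1_C0.Blk18 Pool.Agent.W_7d29a1_C0.NM82
open Pool.Agent.W_7d29a1_C0.MicE14 (rh rh_nonneg nn Cq)
open Pool.Agent.W_7d29a1_C0.CutT57 (NI_congr NI_le_one)
open Pool.Agent.W_7d29a1_C0.T72 (Sp72 Rb72 ind72 ind72_nonneg ind72_le_one meas_ind72 meas_fix crs_pB72 ps_of_pB72)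
open Pool.Agent.W_7d29a1_C0.EvT50 (cE2_diag)
open Pool.W7d29a1.C0 (gz gm gz_ne gz_pos gm_nonneg gm_mono gm_const PP PP_eq PP_mono PP_nonneg PP_add PP_smul)
open Pool.W7d29a1.C0.VT31
open Pool.W7d29a1.C0.R43
open Pool.W7d29a1.C0.H7 (E0X Marg Sat meas_evP)
open Pool.W7d29a1.C0.H27 (pB slb)
open Pool.W7d29a1.C0.I52 (Plan ev ev_mono ev_nonneg ev_smul ev_add ev_congr ev_cons ev_nil gm_eq_av)
open Pool.W7d29a1.C0.Row39 (PP_fst PP_const PP_sum)

noncomputable section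

/-! ### Two replicas -/

section Two

variable {X : Type*} [Fintype X] [Nonempty X] [DecidableEq X] {Y Y' : Type*} [DecidableEq Y] [DecidableEq Y']

theorem PP_pull45 {q : X → Y} (w a : X → ℝ) {k : X → X → ℝ} (hk : ∀ y, Mp q fun x => k x y) :
    PP w (fun x y => a x * k x y) = PP w fun x y => cE w q a x * k x y := Pool.W7d29a1.C0.PP_pull w a hk

/-- The mass of the own pair and the mean of the micro tie may be exchanged. -/
theorem PP_exch45 {p : X → Y} (w A B : X → ℝ) {R : X → X → ℝ} (hR : ∀ y, Mp p fun x => R x y) :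
    PP w (fun x y => A x * (cE w p B x * R x y)) = PP w fun x y => cE w p A x * (B x * R x y) := by
  have h1 := PP_pull45 (q := p) w A (k := fun x y => cE w p B x * R x y) fun y x x' h => by
    show cE w p B x * R x y = cE w p B x' * R x' y
    have h3 : R x y = R x' y := hR y _ _ h
    rw [cE_meas w p _ _ _ h, h3]
  have h2 := PP_pull45 (q := p) w B (k := fun x y => cE w p A x * R x y) fun y x x' h => by
    show cE w p A x * R x y = cE w p A x' * R x' y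
    have h3 : R x y = R x' y := hR y _ _ h
    rw [cE_meas w p _ _ _ h, h3]
  rw [h1]
  have e : (fun x y => cE w p A x * (B x * R x y)) = fun x y => B x * (cE w p A x * R x y) := by
    funext x y
    ring
  rw [e, h2]
  congr 1
  funext x y
  ring

theorem ev_P2 (w : X → ℝ) (F : X → X → ℝ) : ev ((Plan.nil (X := X)).fr.fr) w (fun x => F (x 1) (x 0)) = PP w F := by
  have e1 : ev ((Plan.nil (X := X)).fr.fr) w (fun x => F (x 1) (x 0)) = ev ((Plan.nil (X := X)).fr) w fun x => gm w (F (x 0)) := by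
    show ev (Plan.cons _ _ _) w _ = _
    rw [ev_cons]
    refine ev_congr _ _ fun x => ?_
    rw [gm_eq_av]
    rfl
  have e2 : ev ((Plan.nil (X := X)).fr) w (fun x => gm w (F (x 0))) = gm w fun a => gm w (F a) := by
    show ev (Plan.cons _ _ _) w _ = _
    rw [ev_cons, ev_nil, gm_eq_av]
    rfl
  rw [e1, e2, Pool.Agent.W_7d29a1_C0.CutT57.gm_gm_eq_PP]

/-- **The micro tie averaged over the condition of its row.** -/
theorem nn_av45 (w : X → ℝ) {J : Finset ℕ} (q : ℕ → X → Y) (g : X → ℝ) {R : X → X → ℝ}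
    (hR : ∀ m ∈ J, ∀ y, Mp (q m) fun x => R x y) :
    PP w (fun x y => nn w J q g x * R x y) =
      (J.card : ℝ)⁻¹ * ∑ m ∈ J, PP w fun x y => cE2 w (q m) (fun z z' => |g z - g z'|) x x * R x y := by
  have e1 : (fun x y => nn w J q g x * R x y) = fun x y =>
      (J.card : ℝ)⁻¹ * ∑ m ∈ J, cE w (q m) (fun T => |g x - g T|) x * R x y := by
    funext x y
    unfold nn
    rw [mul_assoc, sum_mul]
  rw [e1, PP_smul, PP_sum]
  congr 1
  refine sum_congr rfl fun m hm => ?_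
  rw [PP_pull45 (q := q m) w (fun x => cE w (q m) (fun T => |g x - g T|) x) (hR m hm)]
  congr 1
  funext x y
  rw [cE2_diag w (q m) (fun z z' => |g z - g z'|) x]

end Two

/-! ### The corner for two free replicas -/

section E0

variable {μ : Measure ℝ} {s : ℝ} {N : ℕ} {Q : Finset (Finset ℕ)} [IsProbabilityMeasure μ] [SwQ Q] [Nonempty (Px Q)]
variable {c0 K : ℕ} {θ ε K' : ℝ} {u : Finset ℕ → Env → Px Q → ℝ} {Y : Type*} [DecidableEq Y]

/-- The tilted weights. -/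
def wu (μ : Measure ℝ) (s : ℝ) (N : ℕ) (Q : Finset (Finset ℕ)) (u : Finset ℕ → Env → Px Q → ℝ) (ω : Env × Finset ℕ) : Px Q → ℝ :=
  fun S => lw μ s ω.1 N Q S + u ω.2 ω.1 S

theorem meas_PP45 {w : Env × Finset ℕ → Px Q → ℝ} (hw : ∀ S, Measurable fun ω => w ω S) {F : Env × Finset ℕ → Px Q → Px Q → ℝ}
    (hF : ∀ S S', Measurable fun ω => F ω S S') : Measurable fun ω => PP (w ω) (F ω) := by
  have e : (fun ω => PP (w ω) (F ω)) = fun ω => ev ((Plan.nil (X := Px Q)).fr.fr) (w ω) fun x => F ω (x 1) (x 0) := by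
    funext ω
    rw [ev_P2]
  rw [e]
  exact meas_evP hw _ fun x => hF _ _

theorem meas_wu (hum : ∀ S, Measurable fun ω : Env × Finset ℕ => u ω.2 ω.1 S) (S : Px Q) :
    Measurable fun ω => wu μ s N Q u ω S := ((meas_lw S).comp measurable_fst).add (hum S)

/-- **`E0X` for two free replicas.** -/
theorem e0_PP45 {p0 : Px Q → Y} (hE : ∀ A, E0X μ s 2 N Q c0 K p0 θ (u A) ε K')
    (hum : ∀ S, Measurable fun ω : Env × Finset ℕ => u ω.2 ω.1 S) {Ψ Ψ' : Env × Finset ℕ → Px Q → Px Q → ℝ}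
    (h0 : ∀ ω x y, 0 ≤ Ψ ω x y) (hΛ : ∀ ω x y, Ψ ω x y ≤ (N : ℝ) ^ K') (h0' : ∀ ω x y, 0 ≤ Ψ' ω x y)
    (hΛ' : ∀ ω x y, Ψ' ω x y ≤ (N : ℝ) ^ K') (hm : ∀ x y, Measurable fun ω => Ψ ω x y) (hm' : ∀ x y, Measurable fun ω => Ψ' ω x y)
    (hΨ : ∀ ω x x' y y', p0 x = p0 x' → p0 y = p0 y' → Ψ ω x y = Ψ ω x' y')
    (hpas : ∀ A η ζ, (∀ q, q ∉ slb c0 K → ζ q = η q) → (∀ q, |ζ q - η q| ≤ θ) → ∀ x y, Ψ (η, A) x y ≤ Ψ' (ζ, A) x y) :
    ∫ ω, PP (wu μ s N Q u ω) (Ψ ω) ∂(Pm μ N) ≤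
      (N : ℝ) ^ ε * (∫ ω, PP (wm μ s N Q ω) (Ψ' ω) ∂(Pm μ N) + (N : ℝ) ^ (-K')) := by
  have h := E0X.pm hE (fun A S => meas_fix (hum S) A) (Pl := (Plan.nil (X := Px Q)).fr.fr) (Marg.nil.fr.fr) (Sat.nil.fr.fr)
    MeasurableSet.univ (Ψ := fun ω x => Ψ ω (x 1) (x 0)) (Ψ' := fun ω x => Ψ' ω (x 1) (x 0)) (fun ω x => h0 _ _ _)
    (fun ω x => hΛ _ _ _) (fun ω x => h0' _ _ _) (fun ω x => hΛ' _ _ _) (fun x A => meas_fix (hm _ _) A)
    (fun x A => meas_fix (hm' _ _) A) (fun ω x x' h => hΨ ω _ _ _ _ (h 1) (h 0))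
    (fun A η _ ζ h1 h2 x => hpas A η ζ h1 h2 _ _)
  rw [Set.compl_univ, measure_empty, ENNReal.toReal_zero, mul_zero, add_zero] at h
  simp only [ev_P2] at h
  exact h

/-! ### Robust events -/

theorem Rb72.and {T T' U U' : Env × Finset ℕ → Px Q → Prop} (h : Rb72 Q c0 K θ T T') (h' : Rb72 Q c0 K θ U U') :
    Rb72 Q c0 K θ (fun ω S => T ω S ∧ U ω S) fun ω S => T' ω S ∧ U' ω S where
  meas S := (h.meas S).inter (h'.meas S)
  meas' S := (h.meas' S).inter (h'.meas' S)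
  beh ω S S' e := and_congr (h.beh ω S S' e) (h'.beh ω S S' e)
  rob A η ζ h1 h2 S hS := ⟨h.rob A η ζ h1 h2 S hS.1, h'.rob A η ζ h1 h2 S hS.2⟩

theorem lw_near45 {D : ℝ} (hD : 0 ≤ D) (hθ : θ ≤ D / K) {η ζ : Env} (h1 : ∀ q, q ∉ slb c0 K → ζ q = η q)
    (h2 : ∀ q, |ζ q - η q| ≤ θ) (A : Finset ℕ) (S : Px Q) : |wm μ s N Q (ζ, A) S - wm μ s N Q (η, A) S| ≤ D :=
  Pool.W7d29a1.C0.H7.lw_near7 hD h1 (fun q => (h2 q).trans hθ) S

/-- `Nta` is robust. -/
theorem nta_rb {D : ℝ} (hD : 0 ≤ D) (hθ : θ ≤ D / K) {z i j : ℕ} (hz : c0 + K ≤ z) (hi : c0 + K ≤ i) {M M' : ℝ} (hM : M + 2 * D ≤ M') :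
    Rb72 Q c0 K θ (fun ω => Nta (wm μ s N Q ω) (pJ 0 z) i j M) fun ω => Nta (wm μ s N Q ω) (pJ 0 z) i j M' where
  meas S := measurableSet_le measurable_const (meas_cE meas_wm (f := fun _ => NI i j S) (fun _ => measurable_const) _ S)
  meas' S := measurableSet_le measurable_const (meas_cE meas_wm (f := fun _ => NI i j S) (fun _ => measurable_const) _ S)
  beh ω S S' e := nta_behind hi (congrArg Prod.fst e) (congrArg Prod.snd e) (crs_pB72 hz S S' e)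
  rob A η ζ h1 h2 S hS := nta_tilt (fun x => lw_near45 hD hθ h1 h2 A x) hM hS

/-- `TauM` is robust. -/
theorem tauM_rb {D : ℝ} (hD : 0 ≤ D) (hθ : θ ≤ D / K) {z i j : ℕ} (hz : c0 + K ≤ z) (p : Px Q → Y) {M M' : ℝ}
    (hM : 5 * M + 4 * D ≤ 5 * M') :
    Rb72 Q c0 K θ (fun ω => TauM (wm μ s N Q ω) (pJ 0 z) p i j M) fun ω => TauM (wm μ s N Q ω) (pJ 0 z) p i j M' where
  meas S := measurableSet_le measurable_const (meas_cE meas_wm (f := fun ω => mI (wm μ s N Q ω) p i j)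
    (fun T => meas_cE meas_wm (f := fun _ => NI i j T) (fun _ => measurable_const) _ T) _ S)
  meas' S := measurableSet_le measurable_const (meas_cE meas_wm (f := fun ω => mI (wm μ s N Q ω) p i j)
    (fun T => meas_cE meas_wm (f := fun _ => NI i j T) (fun _ => measurable_const) _ T) _ S)
  beh ω S S' e := tauM_meas _ _ _ _ _ _ (crs_pB72 hz S S' e)
  rob A η ζ h1 h2 S hS := tauM_tilt (fun x => lw_near45 hD hθ h1 h2 A x) hM hS

/-- **A robust event and the pair of the spectator, at the corner.** -/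
theorem e0_ev45 (hE : ∀ A, E0X μ s 2 N Q c0 K (pB (c0 + K)) θ (u A) ε K')
    (hum : ∀ S, Measurable fun ω : Env × Finset ℕ => u ω.2 ω.1 S) {z c : ℕ} (hz : c0 + K ≤ z) (hc : z ≤ c) {F : ℝ}
    {f : Env × Finset ℕ → Px Q → ℝ} (hf : Sp72 Q c F c0 K f) (hF : 2 * F ≤ (N : ℝ) ^ K')
    {T T' : Env × Finset ℕ → Px Q → Prop} (hT : Rb72 Q c0 K θ T T') :
    ∫ ω, PP (wu μ s N Q u ω) (fun x y => ind72 T ω x * rh z c (f ω) x y) ∂(Pm μ N) ≤
      (N : ℝ) ^ ε * (∫ ω, PP (wm μ s N Q ω) (fun x y => ind72 T' ω x * rh z c (f ω) x y) ∂(Pm μ N) + (N : ℝ) ^ (-K')) := by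
  have b0 : ∀ ω x y, rh z c (f ω) x y ≤ 2 * F := fun ω x y => by
    unfold rh
    have h1 : |f ω x - f ω y| ≤ 2 * F := (abs_sub _ _).trans (by linarith [hf.bdd ω x, hf.bdd ω y])
    calc |f ω x - f ω y| * NI z c x y ≤ |f ω x - f ω y| * 1 := mul_le_mul_of_nonneg_left (NI_le_one _ _ _ _) (abs_nonneg _)
      _ ≤ 2 * F := by rw [mul_one]; exact h1
  have b1 : ∀ (T : Env × Finset ℕ → Px Q → Prop) ω x y, ind72 T ω x * rh z c (f ω) x y ≤ (N : ℝ) ^ K' := fun T ω x y => by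
    calc ind72 T ω x * rh z c (f ω) x y ≤ 1 * rh z c (f ω) x y :=
          mul_le_mul_of_nonneg_right (ind72_le_one _ _ _) (rh_nonneg _ _ _)
      _ ≤ (N : ℝ) ^ K' := by rw [one_mul]; exact (b0 ω x y).trans hF
  have b2 : ∀ (T : Env × Finset ℕ → Px Q → Prop) ω x y, 0 ≤ ind72 T ω x * rh z c (f ω) x y := fun T ω x y =>
    mul_nonneg (ind72_nonneg _ _ _) (rh_nonneg _ _ _)
  have b3 : ∀ T : Env × Finset ℕ → Px Q → Prop, (∀ S, MeasurableSet {ω | T ω S}) → ∀ x y,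
      Measurable fun ω => ind72 T ω x * rh z c (f ω) x y := fun T hT x y =>
    (meas_ind72 hT x).mul (((hf.meas x).sub (hf.meas y)).abs.mul_const _)
  refine e0_PP45 hE hum (b2 T) (b1 T) (b2 T') (b1 T') (b3 T hT.meas) (b3 T' hT.meas') (fun ω x x' y y' h h' => ?_)
    fun A η ζ h1 h2 x y => ?_
  · have hp : ∀ k, c0 + K ≤ k → ps x k = ps x' k := fun k hk => ps_of_pB72 h hk
    have hp' : ∀ k, c0 + K ≤ k → ps y k = ps y' k := fun k hk => ps_of_pB72 h' hk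
    have e1 : ind72 T ω x = ind72 T ω x' := by
      unfold ind72
      rw [show T ω x = T ω x' from propext (hT.beh ω x x' h)]
    have e2 : rh z c (f ω) x y = rh z c (f ω) x' y' := by
      unfold rh
      rw [NI_congr (m := z) (u := c) (S := x) (S' := y) (fun k hk _ => hp k (by omega)) (fun k hk _ => hp' k (by omega)),
        hf.rk ω x x' (fun k hk => hp k (by omega)), hf.rk ω y y' (fun k hk => hp' k (by omega))]
    rw [e1, e2]
  · rw [show f (ζ, A) = f (η, A) from (hf.blind A η ζ h1).symm]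
    refine mul_le_mul_of_nonneg_right ?_ (rh_nonneg _ _ _)
    unfold ind72
    by_cases h5 : T (η, A) x
    · rw [if_pos h5, if_pos (hT.rob A η ζ h1 h2 x h5)]
    · rw [if_neg h5]
      split_ifs <;> norm_num

/-! ### The micro tie for every environment -/

/-- **The input of the micro tie** (rows `m ∈ J`): two replicas given what is behind the row `m` have the same value of `g`, up to the
robust event `T m`, a bad event `bad m` which is paid at the tilted weights, and `e2`. -/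
structure Mic45 (μ : Measure ℝ) (s : ℝ) (N : ℕ) (Q : Finset (Finset ℕ)) (u : Finset ℕ → Env → Px Q → ℝ) (g : Env × Finset ℕ → Px Q → ℝ)
    (J : Finset ℕ) (c0 K : ℕ) (θ B e2 rr : ℝ) (T T' : ℕ → Env × Finset ℕ → Px Q → Prop) : Prop where
  gB : ∀ ω x y, |g ω x - g ω y| ≤ B
  ms : ∀ S, Measurable fun ω => g ω S
  rb : ∀ m ∈ J, Rb72 Q c0 K θ (T m) (T' m)
  e0 : 0 ≤ e2
  tt : ∃ bad : ℕ → Env × Finset ℕ → Px Q → ℝ, (∀ m S, Measurable fun ω => bad m ω S) ∧ (∀ m ω S, 0 ≤ bad m ω S ∧ bad m ω S ≤ 1) ∧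
    (∀ m ∈ J, ∀ ω S, cE2 (wu μ s N Q u ω) (pJ 0 m) (fun z z' => |g ω z - g ω z'|) S S ≤
      B * ind72 (T m) ω S + (B * bad m ω S + e2)) ∧
    ∀ m ∈ J, ∫ ω, gm (wu μ s N Q u ω) (bad m ω) ∂(Pm μ N) ≤ rr

/-! ### The passage -/

/-- The own functional `V` may be replaced by the indicator of `E` in every two replica mean. -/
def OwnE (w : Env × Finset ℕ → Px Q → ℝ) (V : Env × Finset ℕ → Px Q → ℝ) (E : Env × Finset ℕ → Px Q → Prop) (e1 : ℝ) : Prop :=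
  ∀ ω, ∀ F : Px Q → Px Q → ℝ, ∀ Λ : ℝ, (∀ x y, 0 ≤ F x y) → (∀ x y, F x y ≤ Λ) →
    PP (w ω) (fun x y => V ω x * F x y) ≤ PP (w ω) (fun x y => ind72 E ω x * F x y) + Λ * e1

theorem rh_le45 {z c c0 K : ℕ} {F : ℝ} {f : Env × Finset ℕ → Px Q → ℝ} (hf : Sp72 Q c F c0 K f) (ω : Env × Finset ℕ) (x y : Px Q) :
    rh z c (f ω) x y ≤ 2 * F := by
  unfold rh
  have h1 : |f ω x - f ω y| ≤ 2 * F := (abs_sub _ _).trans (by linarith [hf.bdd ω x, hf.bdd ω y])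
  calc |f ω x - f ω y| * NI z c x y ≤ |f ω x - f ω y| * 1 := mul_le_mul_of_nonneg_left (NI_le_one _ _ _ _) (abs_nonneg _)
    _ ≤ 2 * F := by rw [mul_one]; exact h1

theorem meas_rh45 {z c c0 K : ℕ} {F : ℝ} {f : Env × Finset ℕ → Px Q → ℝ} (hf : Sp72 Q c F c0 K f) (x y : Px Q) :
    Measurable fun ω => rh z c (f ω) x y := ((hf.meas x).sub (hf.meas y)).abs.mul_const _

theorem abs_PP_le45 (w : Px Q → ℝ) {F : Px Q → Px Q → ℝ} {Λ : ℝ} (h0 : ∀ x y, 0 ≤ F x y) (h : ∀ x y, F x y ≤ Λ) : |PP w F| ≤ Λ := by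
  rw [abs_of_nonneg (PP_nonneg _ h0)]
  exact (PP_mono _ h).trans (PP_const _ _).le

/-- **The own term at the corner.** -/
theorem own_pass45 (hE : ∀ A, E0X μ s 2 N Q c0 K (pB (c0 + K)) θ (u A) ε K')
    (hum : ∀ S, Measurable fun ω : Env × Finset ℕ => u ω.2 ω.1 S) {z c : ℕ} (hz : c0 + K ≤ z) (hc : z ≤ c) {F : ℝ}
    {f : Env × Finset ℕ → Px Q → ℝ} (hf : Sp72 Q c F c0 K f) (hF : 2 * F ≤ (N : ℝ) ^ K')
    {V : Env × Finset ℕ → Px Q → ℝ} {E E' : Env × Finset ℕ → Px Q → Prop} {e1 : ℝ}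
    (hV : OwnE (wu μ s N Q u) V E e1) (hT : Rb72 Q c0 K θ E E') (V0 : ∀ ω S, 0 ≤ V ω S) (V1 : ∀ ω S, V ω S ≤ 1)
    (Vm : ∀ S, Measurable fun ω => V ω S) :
    ∫ ω, PP (wu μ s N Q u ω) (fun x y => V ω x * rh z c (f ω) x y) ∂(Pm μ N) ≤
      (N : ℝ) ^ ε * (∫ ω, PP (wm μ s N Q ω) (fun x y => ind72 E' ω x * rh z c (f ω) x y) ∂(Pm μ N) + (N : ℝ) ^ (-K')) +
        2 * F * e1 := by
  have h1 := e0_ev45 hE hum hz hc hf hF hT
  have hF0 : 0 ≤ 2 * F := by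
    obtain ⟨S₀⟩ : Nonempty (Px Q) := inferInstance
    exact (rh_nonneg _ _ _).trans (rh_le45 (z := z) hf (fun _ => 0, ∅) S₀ S₀)
  have m1 : Measurable fun ω => PP (wu μ s N Q u ω) (fun x y => V ω x * rh z c (f ω) x y) :=
    meas_PP45 (meas_wu hum) fun x y => (Vm x).mul (meas_rh45 hf x y)
  have m2 : Measurable fun ω => PP (wu μ s N Q u ω) (fun x y => ind72 E ω x * rh z c (f ω) x y) :=
    meas_PP45 (meas_wu hum) fun x y => (meas_ind72 hT.meas x).mul (meas_rh45 hf x y)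
  have i1 : Integrable (fun ω => PP (wu μ s N Q u ω) (fun x y => V ω x * rh z c (f ω) x y)) (Pm μ N) :=
    int_bdd (M := 1 * (2 * F)) m1 fun ω => abs_PP_le45 _ (fun x y => mul_nonneg (V0 _ _) (rh_nonneg _ _ _)) fun x y =>
      mul_le_mul (V1 _ _) (rh_le45 hf ω x y) (rh_nonneg _ _ _) zero_le_one
  have i2 : Integrable (fun ω => PP (wu μ s N Q u ω) (fun x y => ind72 E ω x * rh z c (f ω) x y)) (Pm μ N) :=
    int_bdd (M := 1 * (2 * F)) m2 fun ω => abs_PP_le45 _ (fun x y => mul_nonneg (ind72_nonneg _ _ _) (rh_nonneg _ _ _)) fun x y =>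
      mul_le_mul (ind72_le_one _ _ _) (rh_le45 hf ω x y) (rh_nonneg _ _ _) zero_le_one
  have h2 := integral_mono i1 (i2.add (integrable_const (2 * F * e1))) fun ω =>
    hV ω (fun x y => rh z c (f ω) x y) (2 * F) (fun x y => rh_nonneg _ _ _) (rh_le45 hf ω)
  refine h2.trans ?_
  have e := integral_add i2 (integrable_const (μ := Pm μ N) (2 * F * e1))
  simp only [Pi.add_apply] at e ⊢
  rw [e, integral_const, measureReal_def, measure_univ, ENNReal.toReal_one, one_smul]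
  linarith

/-- **THE OWN PAIR AND THE MICRO TIE AT THE CORNER.** -/
theorem mic_pass45 (hE : ∀ A, E0X μ s 2 N Q c0 K (pB (c0 + K)) θ (u A) ε K')
    (hum : ∀ S, Measurable fun ω : Env × Finset ℕ => u ω.2 ω.1 S) {B e2 rr : ℝ} (hB : 0 ≤ B) {z c : ℕ}
    {g : Env × Finset ℕ → Px Q → ℝ} {J : Finset ℕ} {T T' : ℕ → Env × Finset ℕ → Px Q → Prop}
    (hmic : Mic45 μ s N Q u g J c0 K θ B e2 rr T T')
    (hJ0 : J.Nonempty) (hJ : ∀ m ∈ J, c0 + K ≤ m ∧ m ≤ z) (hc : z ≤ c) {F : ℝ}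
    {f : Env × Finset ℕ → Px Q → ℝ} (hf : Sp72 Q c F c0 K f) (hF : 2 * F ≤ (N : ℝ) ^ K')
    {V : Env × Finset ℕ → Px Q → ℝ} {E E' : Env × Finset ℕ → Px Q → Prop} {e1 : ℝ}
    (hV : OwnE (wu μ s N Q u) V E e1) (hT : Rb72 Q c0 K θ E E')
    (hEm : ∀ m ∈ J, ∀ ω S S', pJ 0 m S = pJ 0 m S' → (E ω S ↔ E ω S')) (V0 : ∀ ω S, 0 ≤ V ω S) (V1 : ∀ ω S, V ω S ≤ 1)
    (Vm : ∀ S, Measurable fun ω => V ω S) :
    ∫ ω, PP (wu μ s N Q u ω) (fun x y => V ω x *
        (nn (wu μ s N Q u ω) J (pJ 0) (g ω) x * rh z c (f ω) x y)) ∂(Pm μ N) ≤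
      B * ((J.card : ℝ)⁻¹ * ∑ m ∈ J, (N : ℝ) ^ ε * (∫ ω, PP (wm μ s N Q ω)
          (fun x y => ind72 (fun ω S => E' ω S ∧ T' m ω S) ω x * rh z c (f ω) x y) ∂(Pm μ N) + (N : ℝ) ^ (-K'))) +
      (B * (2 * F) * e1 + (B * rr + e2) * (2 * F)) := by
  obtain ⟨bad, bm, b01, htt, hrr⟩ := hmic.tt
  obtain ⟨S₀⟩ : Nonempty (Px Q) := inferInstance
  have hF0 : 0 ≤ 2 * F := (rh_nonneg _ _ _).trans (rh_le45 (z := z) hf (fun _ => 0, ∅) S₀ S₀)
  have hcard : (0 : ℝ) < J.card := Nat.cast_pos.2 (card_pos.2 hJ0)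
  have he20 := hmic.e0
  have hgB := hmic.gB
  have hgm := hmic.ms
  -- the micro tie is bounded
  have n0 : ∀ ω x, 0 ≤ nn (wu μ s N Q u ω) J (pJ 0) (g ω) x := fun ω x => by
    unfold nn
    exact mul_nonneg (inv_nonneg.2 hcard.le) (sum_nonneg fun m _ => cE_nonneg _ _ (fun y => abs_nonneg _) x)
  have n1 : ∀ ω x, nn (wu μ s N Q u ω) J (pJ 0) (g ω) x ≤ B := fun ω x => by
    unfold nn
    rw [inv_mul_le_iff₀ hcard]
    refine (sum_le_sum fun m _ => ?_).trans (le_of_eq (by rw [sum_const, nsmul_eq_mul]))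
    have h1 := cE_mono (wu μ s N Q u ω) (pJ 0 m) (f := fun T => |g ω x - g ω T|) (g := B • fun _ => (1 : ℝ)) (fun y => by
      rw [Pi.smul_apply, smul_eq_mul, mul_one]
      exact hgB ω x y) x
    rwa [cE_smul, Pi.smul_apply, smul_eq_mul, congrFun (cE_one _ _) x, mul_one] at h1
  have nm : ∀ x, Measurable fun ω => nn (wu μ s N Q u ω) J (pJ 0) (g ω) x := fun x => by
    unfold nn
    refine Measurable.const_mul (Finset.measurable_fun_sum _ fun m _ => ?_) _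
    exact meas_cE (meas_wu hum) (f := fun ω T => |g ω x - g ω T|) (fun T => ((hgm x).sub (hgm T)).abs) _ x
  set ET : ℕ → Env × Finset ℕ → Px Q → Prop := fun m ω S => E ω S ∧ T m ω S with hTd
  -- every environment
  have hpt : ∀ ω, PP (wu μ s N Q u ω) (fun x y => V ω x * (nn (wu μ s N Q u ω) J (pJ 0) (g ω) x * rh z c (f ω) x y)) ≤
      (J.card : ℝ)⁻¹ * ∑ m ∈ J, (B * PP (wu μ s N Q u ω) (fun x y => ind72 (ET m) ω x * rh z c (f ω) x y) +
        2 * F * B * gm (wu μ s N Q u ω) (bad m ω)) + (B * (2 * F) * e1 + e2 * (2 * F)) := fun ω => by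
    set w := wu μ s N Q u ω with hw
    have h1 := hV ω (fun x y => nn w J (pJ 0) (g ω) x * rh z c (f ω) x y) (B * (2 * F))
      (fun x y => mul_nonneg (n0 ω x) (rh_nonneg _ _ _)) (fun x y => mul_le_mul (n1 ω x) (rh_le45 hf ω x y) (rh_nonneg _ _ _) hB)
    have h2 : PP w (fun x y => ind72 E ω x * (nn w J (pJ 0) (g ω) x * rh z c (f ω) x y)) =
        (J.card : ℝ)⁻¹ * ∑ m ∈ J, PP w fun x y => cE2 w (pJ 0 m) (fun z z' => |g ω z - g ω z'|) x x *
          (ind72 E ω x * rh z c (f ω) x y) := by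
      rw [← nn_av45 w (fun m => pJ 0 m) (g ω) (R := fun x y => ind72 E ω x * rh z c (f ω) x y)]
      · congr 1
        funext x y
        show ind72 E ω x * (nn w J (pJ 0) (g ω) x * rh z c (f ω) x y) = nn w J (pJ 0) (g ω) x * (ind72 E ω x * rh z c (f ω) x y)
        ring
      · intro m hm y x x' hx
        show ind72 E ω x * rh z c (f ω) x y = ind72 E ω x' * rh z c (f ω) x' y
        have e3 : ind72 E ω x = ind72 E ω x' := by
          unfold ind72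
          rw [show E ω x = E ω x' from propext (hEm m hm ω x x' hx)]
        have e4 : rh z c (f ω) x y = rh z c (f ω) x' y := by
          have hp : ∀ k, m ≤ k → ps x k = ps x' k := fun k hk => ps_of_ge hx hk
          unfold rh
          rw [NI_congr (m := z) (u := c) (S := x) (S' := y) (fun k hk _ => hp k ((hJ m hm).2.trans hk)) (fun k _ _ => rfl),
            hf.rk ω x x' (fun k hk => hp k ((hJ m hm).2.trans (hc.trans hk)))]
        rw [e3, e4]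
    have h3 : ∀ m ∈ J, PP w (fun x y => cE2 w (pJ 0 m) (fun z z' => |g ω z - g ω z'|) x x * (ind72 E ω x * rh z c (f ω) x y)) ≤
        (B * PP w (fun x y => ind72 (ET m) ω x * rh z c (f ω) x y) + 2 * F * B * gm w (bad m ω)) + e2 * (2 * F) := fun m hm => by
      have h4 : ∀ x y, cE2 w (pJ 0 m) (fun z z' => |g ω z - g ω z'|) x x * (ind72 E ω x * rh z c (f ω) x y) ≤
          (B * (ind72 (ET m) ω x * rh z c (f ω) x y) + 2 * F * B * bad m ω x) + e2 * (2 * F) := fun x y => by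
        have h5 := htt m hm ω x
        have h6 : 0 ≤ ind72 E ω x * rh z c (f ω) x y := mul_nonneg (ind72_nonneg _ _ _) (rh_nonneg _ _ _)
        have h7 : ind72 E ω x * rh z c (f ω) x y ≤ 2 * F := by
          calc ind72 E ω x * rh z c (f ω) x y ≤ 1 * rh z c (f ω) x y :=
                mul_le_mul_of_nonneg_right (ind72_le_one _ _ _) (rh_nonneg _ _ _)
            _ ≤ 2 * F := by rw [one_mul]; exact rh_le45 hf ω x y
        have h8 : ind72 (ET m) ω x = ind72 (T m) ω x * ind72 E ω x := by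
          unfold ind72
          simp only [hTd]
          by_cases a1 : E ω x
          · by_cases a2 : T m ω x
            · rw [if_pos a1, if_pos a2, if_pos (⟨a1, a2⟩ : E ω x ∧ _), mul_one]
            · rw [if_pos a1, if_neg a2, if_neg fun h => a2 h.2, zero_mul]
          · rw [if_neg a1, if_neg fun h => a1 h.1, mul_zero]
        rw [h8]
        have h9 : 0 ≤ B * bad m ω x + e2 := add_nonneg (mul_nonneg hB (b01 m ω x).1) he20
        calc cE2 w (pJ 0 m) (fun z z' => |g ω z - g ω z'|) x x * (ind72 E ω x * rh z c (f ω) x y) ≤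
              (B * ind72 (T m) ω x + (B * bad m ω x + e2)) * (ind72 E ω x * rh z c (f ω) x y) :=
              mul_le_mul_of_nonneg_right h5 h6
          _ = B * (ind72 (T m) ω x * ind72 E ω x * rh z c (f ω) x y) +
              (B * bad m ω x + e2) * (ind72 E ω x * rh z c (f ω) x y) := by ring
          _ ≤ B * (ind72 (T m) ω x * ind72 E ω x * rh z c (f ω) x y) + (B * bad m ω x + e2) * (2 * F) :=
              add_le_add le_rfl (mul_le_mul_of_nonneg_left h7 h9)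
          _ = _ := by ring
      refine (PP_mono w h4).trans (le_of_eq ?_)
      rw [PP_add w (fun x y => B * (ind72 (ET m) ω x * rh z c (f ω) x y) + 2 * F * B * bad m ω x) (fun _ _ => e2 * (2 * F)),
        PP_const, PP_add w (fun x y => B * (ind72 (ET m) ω x * rh z c (f ω) x y)) (fun x _ => 2 * F * B * bad m ω x), PP_smul,
        PP_smul w (2 * F * B) (fun x _ => bad m ω x), PP_fst]
    have h4 := mul_le_mul_of_nonneg_left (sum_le_sum h3) (inv_nonneg.2 hcard.le)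
    rw [sum_add_distrib, sum_const, nsmul_eq_mul, mul_add, ← mul_assoc (J.card : ℝ)⁻¹ (J.card : ℝ), inv_mul_cancel₀ hcard.ne',
      one_mul] at h4
    rw [h2] at h1
    linarith
  -- integrals
  have hTm : ∀ m ∈ J, Rb72 Q c0 K θ (ET m) fun ω S => E' ω S ∧ T' m ω S := fun m hm => Rb72.and hT (hmic.rb m hm)
  have i1 : Integrable (fun ω => PP (wu μ s N Q u ω) (fun x y => V ω x *
      (nn (wu μ s N Q u ω) J (pJ 0) (g ω) x * rh z c (f ω) x y))) (Pm μ N) :=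
    int_bdd (M := 1 * (B * (2 * F))) (meas_PP45 (meas_wu hum) fun x y => (Vm x).mul ((nm x).mul (meas_rh45 hf x y)))
      fun ω => abs_PP_le45 _ (fun x y => mul_nonneg (V0 _ _) (mul_nonneg (n0 ω x) (rh_nonneg _ _ _))) fun x y =>
        mul_le_mul (V1 _ _) (mul_le_mul (n1 ω x) (rh_le45 hf ω x y) (rh_nonneg _ _ _) hB)
          (mul_nonneg (n0 ω x) (rh_nonneg _ _ _)) zero_le_one
  have i2 : ∀ m ∈ J, Integrable (fun ω => B * PP (wu μ s N Q u ω) (fun x y => ind72 (ET m) ω x * rh z c (f ω) x y)) (Pm μ N) :=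
    fun m hm => (int_bdd (M := 1 * (2 * F)) (meas_PP45 (meas_wu hum) fun x y =>
      (meas_ind72 (hTm m hm).meas x).mul (meas_rh45 hf x y)) fun ω =>
        abs_PP_le45 _ (fun x y => mul_nonneg (ind72_nonneg _ _ _) (rh_nonneg _ _ _)) fun x y =>
          mul_le_mul (ind72_le_one _ _ _) (rh_le45 hf ω x y) (rh_nonneg _ _ _) zero_le_one).const_mul B
  have i4 : ∀ m, Integrable (fun ω => 2 * F * B * gm (wu μ s N Q u ω) (bad m ω)) (Pm μ N) := fun m =>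
    (int_bdd (M := 1) (meas_gm (meas_wu hum) (bm m)) fun ω => by
      rw [abs_of_nonneg (gm_nonneg _ fun S => (b01 m ω S).1)]
      exact (gm_mono _ (g := fun _ => 1) fun S => (b01 m ω S).2).trans (gm_const _ _).le).const_mul _
  have i5 : ∀ m ∈ J, Integrable (fun ω => B * PP (wu μ s N Q u ω) (fun x y => ind72 (ET m) ω x * rh z c (f ω) x y) +
      2 * F * B * gm (wu μ s N Q u ω) (bad m ω)) (Pm μ N) := fun m hm => (i2 m hm).add (i4 m)
  have i3 : Integrable (fun ω => (J.card : ℝ)⁻¹ * ∑ m ∈ J, (B * PP (wu μ s N Q u ω)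
      (fun x y => ind72 (ET m) ω x * rh z c (f ω) x y) + 2 * F * B * gm (wu μ s N Q u ω) (bad m ω))) (Pm μ N) :=
    (integrable_finsetSum _ i5).const_mul _
  refine (integral_mono i1 (i3.add (integrable_const _)) hpt).trans ?_
  have e := integral_add i3 (integrable_const (μ := Pm μ N) (B * (2 * F) * e1 + e2 * (2 * F)))
  simp only [Pi.add_apply] at e ⊢
  rw [e, integral_const, measureReal_def, measure_univ, ENNReal.toReal_one, one_smul, integral_const_mul,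
    integral_finsetSum _ i5]
  have h5 : ∀ m ∈ J, ∫ ω, (B * PP (wu μ s N Q u ω) (fun x y => ind72 (ET m) ω x * rh z c (f ω) x y) +
      2 * F * B * gm (wu μ s N Q u ω) (bad m ω)) ∂(Pm μ N) ≤
      B * ((N : ℝ) ^ ε * (∫ ω, PP (wm μ s N Q ω)
          (fun x y => ind72 (fun ω S => E' ω S ∧ T' m ω S) ω x * rh z c (f ω) x y) ∂(Pm μ N) + (N : ℝ) ^ (-K'))) +
        2 * F * B * rr := fun m hm => by
    rw [integral_add (i2 m hm) (i4 m), integral_const_mul, integral_const_mul]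
    exact add_le_add (mul_le_mul_of_nonneg_left (e0_ev45 hE hum ((hJ m hm).1.trans (hJ m hm).2) hc hf hF (hTm m hm)) hB)
      (mul_le_mul_of_nonneg_left (hrr m hm) (mul_nonneg hF0 hB))
  have h6 := mul_le_mul_of_nonneg_left (sum_le_sum h5) (inv_nonneg.2 hcard.le)
  rw [sum_add_distrib, sum_const, nsmul_eq_mul, mul_add, ← mul_assoc (J.card : ℝ)⁻¹ (J.card : ℝ), inv_mul_cancel₀ hcard.ne',
    one_mul, ← mul_sum] at h6
  refine (add_le_add h6 le_rfl).trans (le_of_eq ?_)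
  ring

/-! ### The own functionals -/

omit [SwQ Q] in
/-- The own mass, at the tilted weights, told from the path itself. -/
theorem ownE_nta (hQ : Full N Q) {Du : ℝ} (hu : ∀ A η S, |u A η S| ≤ Du) {c1 z i j : ℕ} (hc : c1 ≤ z) (hz : z ≤ N) (hi : c1 ≤ i)
    (hj : j ≤ z) (M κ : ℝ) : OwnE (wu μ s N Q u) (fun ω => mI (wu μ s N Q u ω) (pJ c1 z) i j)
      (fun ω => Nta (wm μ s N Q ω) (pJ 0 z) i j (M + κ))
      (Real.exp (2 * Du) * ((N + 1 : ℝ) ^ 2 * Real.exp (-κ)) + Real.exp (2 * Du - M)) := fun ω F Λ hF0 hF => by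
  classical
  have h := own_le45 (μ := μ) (s := s) hQ ω.1 (A := fun S => u ω.2 ω.1 S) (D := Du) (fun S => hu _ _ S) (q := pJ (Q := Q) 0 z)
    (crs_pJ (Nat.zero_le _) le_rfl) hc hz hi hj M κ (F := F) hF0 hF
  refine le_trans (le_of_eq ?_) (h.trans (le_of_eq ?_))
  · rfl
  · rfl

omit [SwQ Q] in
/-- The averaged own mass. -/
theorem ownE_avg (hQ : Full N Q) {Du : ℝ} (hu : ∀ A η S, |u A η S| ≤ Du) {c1 z i j : ℕ} (hc : c1 ≤ z) (hz : z ≤ N) (hi : c1 ≤ i)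
    (hj : j ≤ z) (M κ : ℝ) : OwnE (wu μ s N Q u)
      (fun ω => cE (wu μ s N Q u ω) (pJ c1 z) (mI (wu μ s N Q u ω) (pJ c1 z) i j))
      (fun ω => TauM (wm μ s N Q ω) (pJ 0 z) (pJ c1 z) i j (M + κ / 5))
      (Real.exp (2 * Du) * ((N + 1 : ℝ) ^ 2 * Real.exp (-κ)) + Real.exp (4 * Du - 5 * M)) := fun ω F Λ hF0 hF => by
  classical
  have h := own_avg45 (μ := μ) (s := s) hQ ω.1 (A := fun S => u ω.2 ω.1 S) (D := Du) (fun S => hu _ _ S) (q := pJ (Q := Q) 0 z)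
    (crs_pJ (Nat.zero_le _) le_rfl) hc hz hi hj M κ (F := F) hF0 hF
  refine le_trans (le_of_eq ?_) (h.trans (le_of_eq ?_))
  · rfl
  · rfl

omit [SwQ Q] in
/-- The own mass averaged over what is behind the block. -/
theorem ownE_tau {Du : ℝ} (hu : ∀ A η S, |u A η S| ≤ Du) {Y' : Type*} [DecidableEq Y'] (q : Px Q → Y') (p : Px Q → Y) (i j : ℕ) (M : ℝ) :
    OwnE (wu μ s N Q u) (fun ω => cE (wu μ s N Q u ω) q (mI (wu μ s N Q u ω) p i j))
      (fun ω => TauM (wm μ s N Q ω) q p i j M) (Real.exp (4 * Du - 5 * M)) := fun ω F Λ hF0 hF => by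
  classical
  obtain ⟨S₀⟩ : Nonempty (Px Q) := inferInstance
  have hΛ : 0 ≤ Λ := (hF0 S₀ S₀).trans (hF S₀ S₀)
  have h1 : ∀ x y, cE (wu μ s N Q u ω) q (mI (wu μ s N Q u ω) p i j) x * F x y ≤
      ind72 (fun ω => TauM (wm μ s N Q ω) q p i j M) ω x * F x y + Λ * Real.exp (4 * Du - 5 * M) := fun x y => by
    have h2 : cE (wu μ s N Q u ω) q (mI (wu μ s N Q u ω) p i j) x ≤
        (if TauM (wm μ s N Q ω) q p i j M x then 1 else 0) + Real.exp (4 * Du - 5 * M) :=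
      cE_mI_tau (w := wm μ s N Q ω) (A := fun S => u ω.2 ω.1 S) (fun S => hu _ _ S) q p i j M x
    have h3 : ind72 (fun ω => TauM (wm μ s N Q ω) q p i j M) ω x = if TauM (wm μ s N Q ω) q p i j M x then 1 else 0 := by
      unfold ind72
      congr
    rw [h3]
    have h4 := mul_le_mul_of_nonneg_right h2 (hF0 x y)
    have h5 := mul_le_mul_of_nonneg_left (hF x y) (Real.exp_pos (4 * Du - 5 * M)).le
    rw [add_mul] at h4
    linarith
  refine (PP_mono _ h1).trans (le_of_eq ?_)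
  rw [PP_add (wu μ s N Q u ω) (fun x y => ind72 (fun ω => TauM (wm μ s N Q ω) q p i j M) ω x * F x y)
    (fun _ _ => Λ * Real.exp (4 * Du - 5 * M)), PP_const]

omit [IsProbabilityMeasure μ] [SwQ Q] [Nonempty (Px Q)] in
theorem meas_mI45 {w : Env × Finset ℕ → Px Q → ℝ} (hw : ∀ S, Measurable fun ω => w ω S) (p : Px Q → Y) (i j : ℕ) (S : Px Q) :
    Measurable fun ω => mI (w ω) p i j S := meas_cE hw (f := fun _ => NI i j S) (fun _ => measurable_const) p S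

theorem rh_mp45 {c1 z zf c : ℕ} (hz : z ≤ zf) (hc : zf ≤ c) {f : Px Q → ℝ} (hf : Rk c f) (y : Px Q) :
    Mp (pJ c1 z) fun x => rh zf c f x y := by
  intro x x' hx
  have hp : ∀ k, zf ≤ k → ps x k = ps x' k := fun k hk => ps_of_ge hx (hz.trans hk)
  show rh zf c f x y = rh zf c f x' y
  unfold rh
  rw [NI_congr (m := zf) (u := c) (S := x) (S' := y) (fun k hk _ => hp k hk) (fun k _ _ => rfl),
    hf x x' (fun k hk => hp k (hc.trans hk))]

/-! ### The terms of the master page, part R -/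

section R

variable {Du B e2 rr M₁ M₂ κ D F : ℝ} {c1 be wr z zf c : ℕ} {J : Finset ℕ} {f g : Env × Finset ℕ → Px Q → ℝ}
variable {T T' : ℕ → Env × Finset ℕ → Px Q → Prop}

/-- **THE MAIN TERM, PART R**: the own pair behind the window. -/
theorem ownR45 (hE : ∀ A, E0X μ s 2 N Q c0 K (pB (c0 + K)) θ (u A) ε K') (hQ : Full N Q)
    (hum : ∀ S, Measurable fun ω : Env × Finset ℕ => u ω.2 ω.1 S) (hu : ∀ A η S, |u A η S| ≤ Du)
    (hD : 0 ≤ D) (hθ : θ ≤ D / K) (hM₁ : M₁ + κ + 2 * D ≤ M₂) (h1 : c1 ≤ be) (h2 : c0 + K ≤ be) (h3 : be ≤ wr) (h4 : wr ≤ z)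
    (hz : z ≤ N) (hzf : z ≤ zf) (hc : zf ≤ c) (hf : Sp72 Q c F c0 K f) (hF : 2 * F ≤ (N : ℝ) ^ K') :
    ∫ ω, PP (wu μ s N Q u ω) (fun x y => mI (wu μ s N Q u ω) (pJ c1 z) be wr x * rh zf c (f ω) x y) ∂(Pm μ N) ≤
      (N : ℝ) ^ ε * (∫ ω, PP (wm μ s N Q ω)
          (fun x y => ind72 (fun ω => Nta (wm μ s N Q ω) (pJ 0 z) be wr M₂) ω x * rh zf c (f ω) x y) ∂(Pm μ N) +
        (N : ℝ) ^ (-K')) +
        2 * F * (Real.exp (2 * Du) * ((N + 1 : ℝ) ^ 2 * Real.exp (-κ)) + Real.exp (2 * Du - M₁)) :=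
  own_pass45 (V := fun ω => mI (wu μ s N Q u ω) (pJ c1 z) be wr) hE hum (by omega) hc hf hF
    (ownE_nta hQ hu (by omega) hz h1 h4 M₁ κ) (nta_rb hD hθ (by omega) h2 hM₁)
    (fun ω S => mI_nonneg _ _ _ _ _) (fun ω S => mI_le_one _ _ _ _ _) fun S => meas_mI45 (meas_wu hum) _ _ _ S

/-- **THE MAIN TERM, PART L** (any window of the own pair inside of the block): the mass of the pairs, averaged given what is behind the
row `z`, in front of the tie of `f`. -/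
theorem ownL45 (hE : ∀ A, E0X μ s 2 N Q c0 K (pB (c0 + K)) θ (u A) ε K')
    (hum : ∀ S, Measurable fun ω : Env × Finset ℕ => u ω.2 ω.1 S) (hu : ∀ A η S, |u A η S| ≤ Du)
    (hD : 0 ≤ D) (hθ : θ ≤ D / K) (hM₁ : 5 * M₁ + 4 * D ≤ 5 * M₂) {wl al : ℕ} (p : Px Q → Y) (h2 : c0 + K ≤ z) (hzf : z ≤ zf)
    (hc : zf ≤ c) (hf : Sp72 Q c F c0 K f) (hF : 2 * F ≤ (N : ℝ) ^ K') :
    ∫ ω, PP (wu μ s N Q u ω) (fun x y => mI (wu μ s N Q u ω) p wl al x * rh zf c (f ω) x y) ∂(Pm μ N) ≤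
      (N : ℝ) ^ ε * (∫ ω, PP (wm μ s N Q ω)
          (fun x y => ind72 (fun ω => TauM (wm μ s N Q ω) (pJ 0 z) p wl al M₂) ω x * rh zf c (f ω) x y) ∂(Pm μ N) +
        (N : ℝ) ^ (-K')) + 2 * F * Real.exp (4 * Du - 5 * M₁) := by
  have e : ∀ ω, PP (wu μ s N Q u ω) (fun x y => mI (wu μ s N Q u ω) p wl al x * rh zf c (f ω) x y) =
      PP (wu μ s N Q u ω) (fun x y => cE (wu μ s N Q u ω) (pJ 0 z) (mI (wu μ s N Q u ω) p wl al) x *
        rh zf c (f ω) x y) := fun ω =>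
    PP_pull45 (q := pJ 0 z) (wu μ s N Q u ω) _ fun y => rh_mp45 hzf hc (hf.rk ω) y
  simp only [e]
  exact own_pass45 (V := fun ω => cE (wu μ s N Q u ω) (pJ 0 z) (mI (wu μ s N Q u ω) p wl al)) hE hum (h2.trans hzf) hc hf hF
    (ownE_tau hu (pJ 0 z) p wl al M₁) (tauM_rb hD hθ h2 p hM₁)
    (fun ω S => cE_nonneg _ _ (fun T => mI_nonneg _ _ _ _ _) S) (fun ω S => cE_mI_le_one _ _ _ _ _ S)
    fun S => meas_cE (meas_wu hum) (fun T => meas_mI45 (meas_wu hum) _ _ _ T) _ S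

/-- **THE TERM `T2`, PART R.** -/
theorem T2R45 (hE : ∀ A, E0X μ s 2 N Q c0 K (pB (c0 + K)) θ (u A) ε K') (hQ : Full N Q)
    (hum : ∀ S, Measurable fun ω : Env × Finset ℕ => u ω.2 ω.1 S) (hu : ∀ A η S, |u A η S| ≤ Du)
    (hB : 0 ≤ B) (hmic : Mic45 μ s N Q u g J c0 K θ B e2 rr T T')
    (hD : 0 ≤ D) (hθ : θ ≤ D / K) (hM₁ : M₁ + κ + 2 * D ≤ M₂)
    (hJ0 : J.Nonempty) (hJ : ∀ m ∈ J, c0 + K ≤ m ∧ m ≤ be) (h1 : c1 ≤ be) (h3 : be ≤ wr) (h4 : wr ≤ z)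
    (hz : z ≤ N) (hzf : z ≤ zf) (hc : zf ≤ c) (hf : Sp72 Q c F c0 K f) (hF : 2 * F ≤ (N : ℝ) ^ K') :
    ∫ ω, PP (wu μ s N Q u ω) (fun x y => mI (wu μ s N Q u ω) (pJ c1 z) be wr x *
        (nn (wu μ s N Q u ω) J (pJ 0) (g ω) x * rh zf c (f ω) x y)) ∂(Pm μ N) ≤
      B * ((J.card : ℝ)⁻¹ * ∑ m ∈ J, (N : ℝ) ^ ε * (∫ ω, PP (wm μ s N Q ω)
          (fun x y => ind72 (fun ω S => Nta (wm μ s N Q ω) (pJ 0 z) be wr M₂ S ∧
            T' m ω S) ω x * rh zf c (f ω) x y) ∂(Pm μ N) + (N : ℝ) ^ (-K'))) +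
      (B * (2 * F) * (Real.exp (2 * Du) * ((N + 1 : ℝ) ^ 2 * Real.exp (-κ)) + Real.exp (2 * Du - M₁)) +
        (B * rr + e2) * (2 * F)) := by
  obtain ⟨m₀, hm₀⟩ := hJ0
  have h2 : c0 + K ≤ be := (hJ m₀ hm₀).1.trans (hJ m₀ hm₀).2
  exact mic_pass45 (V := fun ω => mI (wu μ s N Q u ω) (pJ c1 z) be wr) hE hum hB hmic ⟨m₀, hm₀⟩
    (fun m hm => ⟨(hJ m hm).1, (hJ m hm).2.trans (h3.trans (h4.trans hzf))⟩) hc hf hF
    (ownE_nta hQ hu (by omega) hz h1 h4 M₁ κ) (nta_rb hD hθ (by omega) h2 hM₁)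
    (fun m hm ω S S' hS => nta_behind (hJ m hm).2 (ps_of_ge hS le_rfl) (by
        have h5 := congrArg Prod.fst hS
        unfold pJ at h5
        simpa only [range_eq_Ico] using h5) (crs_pJ (Nat.zero_le _) ((hJ m hm).2.trans (h3.trans h4)) S S' hS))
    (fun ω S => mI_nonneg _ _ _ _ _) (fun ω S => mI_le_one _ _ _ _ _) fun S => meas_mI45 (meas_wu hum) _ _ _ S

/-- **THE TERM `Tp`, PART R**: the own mass is averaged instead of the micro tie. -/
theorem TpR45 (hE : ∀ A, E0X μ s 2 N Q c0 K (pB (c0 + K)) θ (u A) ε K') (hQ : Full N Q)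
    (hum : ∀ S, Measurable fun ω : Env × Finset ℕ => u ω.2 ω.1 S) (hu : ∀ A η S, |u A η S| ≤ Du)
    (hB : 0 ≤ B) (hmic : Mic45 μ s N Q u g J c0 K θ B e2 rr T T')
    (hD : 0 ≤ D) (hθ : θ ≤ D / K) (hM₁ : 5 * (M₁ + κ / 5) + 4 * D ≤ 5 * M₂)
    (hJ0 : J.Nonempty) (hJ : ∀ m ∈ J, c0 + K ≤ m ∧ m ≤ be) (h1 : c1 ≤ be) (h3 : be ≤ wr) (h4 : wr ≤ z)
    (hz : z ≤ N) (hzf : z ≤ zf) (hc : zf ≤ c) (hf : Sp72 Q c F c0 K f) (hF : 2 * F ≤ (N : ℝ) ^ K') :
    ∫ ω, PP (wu μ s N Q u ω) (fun x y => mI (wu μ s N Q u ω) (pJ c1 z) be wr x *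
        (cE (wu μ s N Q u ω) (pJ c1 z) (nn (wu μ s N Q u ω) J (pJ 0) (g ω)) x *
          rh zf c (f ω) x y)) ∂(Pm μ N) ≤
      B * ((J.card : ℝ)⁻¹ * ∑ m ∈ J, (N : ℝ) ^ ε * (∫ ω, PP (wm μ s N Q ω)
          (fun x y => ind72 (fun ω S => TauM (wm μ s N Q ω) (pJ 0 z) (pJ c1 z) be wr M₂ S ∧
            T' m ω S) ω x * rh zf c (f ω) x y) ∂(Pm μ N) + (N : ℝ) ^ (-K'))) +
      (B * (2 * F) * (Real.exp (2 * Du) * ((N + 1 : ℝ) ^ 2 * Real.exp (-κ)) + Real.exp (4 * Du - 5 * M₁)) +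
        (B * rr + e2) * (2 * F)) := by
  obtain ⟨m₀, hm₀⟩ := hJ0
  have h2 : c0 + K ≤ be := (hJ m₀ hm₀).1.trans (hJ m₀ hm₀).2
  have e : ∀ ω, PP (wu μ s N Q u ω) (fun x y => mI (wu μ s N Q u ω) (pJ c1 z) be wr x *
      (cE (wu μ s N Q u ω) (pJ c1 z) (nn (wu μ s N Q u ω) J (pJ 0) (g ω)) x * rh zf c (f ω) x y)) =
      PP (wu μ s N Q u ω) (fun x y => cE (wu μ s N Q u ω) (pJ c1 z) (mI (wu μ s N Q u ω) (pJ c1 z) be wr) x *
        (nn (wu μ s N Q u ω) J (pJ 0) (g ω) x * rh zf c (f ω) x y)) := fun ω =>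
    PP_exch45 (p := pJ c1 z) (wu μ s N Q u ω) _ _ fun y => rh_mp45 hzf hc (hf.rk ω) y
  simp only [e]
  exact mic_pass45 (V := fun ω => cE (wu μ s N Q u ω) (pJ c1 z) (mI (wu μ s N Q u ω) (pJ c1 z) be wr)) hE hum hB hmic ⟨m₀, hm₀⟩
    (fun m hm => ⟨(hJ m hm).1, (hJ m hm).2.trans (h3.trans (h4.trans hzf))⟩) hc hf hF
    (ownE_avg hQ hu (by omega) hz h1 h4 M₁ κ) (tauM_rb hD hθ (by omega) (pJ c1 z) hM₁)
    (fun m hm ω S S' hS => tauM_meas _ _ _ _ _ _ (crs_pJ (Nat.zero_le _) ((hJ m hm).2.trans (h3.trans h4)) S S' hS))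
    (fun ω S => cE_nonneg _ _ (fun T => mI_nonneg _ _ _ _ _) S) (fun ω S => cE_mI_le_one _ _ _ _ _ S)
    fun S => meas_cE (meas_wu hum) (fun T => meas_mI45 (meas_wu hum) _ _ _ T) _ S

/-- **THE TERM `T0Q`** (helper14's H4): the own mass of ANY condition `p` and window, averaged given what is behind the row `m'`, in front of
the tie of `f`; the micro tie given what is behind the rows of `J`. -/
theorem T0Q45 (hE : ∀ A, E0X μ s 2 N Q c0 K (pB (c0 + K)) θ (u A) ε K')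
    (hum : ∀ S, Measurable fun ω : Env × Finset ℕ => u ω.2 ω.1 S) (hu : ∀ A η S, |u A η S| ≤ Du)
    (hB : 0 ≤ B) (hmic : Mic45 μ s N Q u g J c0 K θ B e2 rr T T')
    (hD : 0 ≤ D) (hθ : θ ≤ D / K) (hM₁ : 5 * M₁ + 4 * D ≤ 5 * M₂)
    (hJ0 : J.Nonempty) {m' : ℕ} (hJ : ∀ m ∈ J, c0 + K ≤ m ∧ m ≤ m') (p : Px Q → Y) {w1 w2 : ℕ} (hzf : m' ≤ zf) (hc : zf ≤ c)
    (hf : Sp72 Q c F c0 K f) (hF : 2 * F ≤ (N : ℝ) ^ K') :
    ∫ ω, PP (wu μ s N Q u ω) (fun x y => cE (wu μ s N Q u ω) (pJ 0 m') (mI (wu μ s N Q u ω) p w1 w2) x *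
        (nn (wu μ s N Q u ω) J (pJ 0) (g ω) x * rh zf c (f ω) x y)) ∂(Pm μ N) ≤
      B * ((J.card : ℝ)⁻¹ * ∑ m ∈ J, (N : ℝ) ^ ε * (∫ ω, PP (wm μ s N Q ω)
          (fun x y => ind72 (fun ω S => TauM (wm μ s N Q ω) (pJ 0 m') p w1 w2 M₂ S ∧
            T' m ω S) ω x * rh zf c (f ω) x y) ∂(Pm μ N) + (N : ℝ) ^ (-K'))) +
      (B * (2 * F) * Real.exp (4 * Du - 5 * M₁) +
        (B * rr + e2) * (2 * F)) := by
  obtain ⟨m₀, hm₀⟩ := hJ0
  exact mic_pass45 (V := fun ω => cE (wu μ s N Q u ω) (pJ 0 m') (mI (wu μ s N Q u ω) p w1 w2)) hE hum hB hmic ⟨m₀, hm₀⟩ (fun m hm => ⟨(hJ m hm).1, (hJ m hm).2.trans hzf⟩) hc hf hF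
    (ownE_tau hu (pJ 0 m') p w1 w2 M₁) (tauM_rb hD hθ ((hJ m₀ hm₀).1.trans (hJ m₀ hm₀).2) p hM₁)
    (fun m hm ω S S' hS => tauM_meas _ _ _ _ _ _ (crs_pJ (Nat.zero_le _) (hJ m hm).2 S S' hS))
    (fun ω S => cE_nonneg _ _ (fun T => mI_nonneg _ _ _ _ _) S) (fun ω S => cE_mI_le_one _ _ _ _ _ S)
    fun S => meas_cE (meas_wu hum) (fun T => meas_mI45 (meas_wu hum) _ _ _ T) _ S

end R

/-! ### At the corner: the events in terms of the alternatives of the base path -/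

/-- An event of the base path is replaced by another one. -/
theorem pp_swap45 {z c : ℕ} {F : ℝ} {f : Env × Finset ℕ → Px Q → ℝ} (hf : Sp72 Q c F c0 K f)
    {T T' : Env × Finset ℕ → Px Q → Prop} (hT : ∀ S, MeasurableSet {ω | T ω S}) (hT' : ∀ S, MeasurableSet {ω | T' ω S})
    {e : ℝ} (he : ∀ ω, gm (wm μ s N Q ω) (ind72 (fun ω S => T ω S ∧ ¬ T' ω S) ω) ≤ e) :
    ∫ ω, PP (wm μ s N Q ω) (fun x y => ind72 T ω x * rh z c (f ω) x y) ∂(Pm μ N) ≤
      ∫ ω, PP (wm μ s N Q ω) (fun x y => ind72 T' ω x * rh z c (f ω) x y) ∂(Pm μ N) + 2 * F * e := by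
  obtain ⟨S₀⟩ : Nonempty (Px Q) := inferInstance
  have hF0 : 0 ≤ 2 * F := (rh_nonneg _ _ _).trans (rh_le45 (z := z) hf (fun _ => 0, ∅) S₀ S₀)
  have hpt : ∀ ω, PP (wm μ s N Q ω) (fun x y => ind72 T ω x * rh z c (f ω) x y) ≤
      PP (wm μ s N Q ω) (fun x y => ind72 T' ω x * rh z c (f ω) x y) + 2 * F * e := fun ω => by
    have h1 : ∀ x y, ind72 T ω x * rh z c (f ω) x y ≤ ind72 T' ω x * rh z c (f ω) x y +
        2 * F * ind72 (fun ω S => T ω S ∧ ¬ T' ω S) ω x := fun x y => by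
      have h2 := rh_nonneg (z := z) (c := c) (f ω) x y
      have h3 := rh_le45 (z := z) hf ω x y
      have a2 := ind72_nonneg (fun ω S => T ω S ∧ ¬ T' ω S) ω x
      have h0 : ind72 T ω x ≤ ind72 T' ω x + ind72 (fun ω S => T ω S ∧ ¬ T' ω S) ω x := by
        have a1 := ind72_nonneg T' ω x
        by_cases h6 : T ω x
        · have e0 : ind72 T ω x = 1 := if_pos h6
          by_cases h7 : T' ω x
          · have e1 : ind72 T' ω x = 1 := if_pos h7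
            linarith
          · have e1 : ind72 (fun ω S => T ω S ∧ ¬ T' ω S) ω x = 1 := if_pos ⟨h6, h7⟩
            linarith
        · have e0 : ind72 T ω x = 0 := if_neg h6
          linarith
      have h6 := mul_le_mul_of_nonneg_right h0 h2
      have h7 := mul_le_mul_of_nonneg_left h3 a2
      rw [add_mul] at h6
      linarith
    refine (PP_mono _ h1).trans ?_
    rw [PP_add (wm μ s N Q ω) (fun x y => ind72 T' ω x * rh z c (f ω) x y)
      (fun x _ => 2 * F * ind72 (fun ω S => T ω S ∧ ¬ T' ω S) ω x),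
      PP_smul (wm μ s N Q ω) (2 * F) (fun x _ => ind72 (fun ω S => T ω S ∧ ¬ T' ω S) ω x), PP_fst]
    have h8 := mul_le_mul_of_nonneg_left (he ω) hF0
    linarith
  have hint : ∀ T : Env × Finset ℕ → Px Q → Prop, (∀ S, MeasurableSet {ω | T ω S}) → Integrable (fun ω : Env × Finset ℕ =>
      PP (wm μ s N Q ω) (fun x y => ind72 T ω x * rh z c (f ω) x y)) (Pm μ N) := fun T hT =>
    int_bdd (M := 1 * (2 * F)) (meas_PP45 meas_wm fun x y => (meas_ind72 hT x).mul (meas_rh45 hf x y)) fun ω =>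
      abs_PP_le45 _ (fun x y => mul_nonneg (ind72_nonneg _ _ _) (rh_nonneg _ _ _)) fun x y =>
        mul_le_mul (ind72_le_one _ _ _) (rh_le45 hf ω x y) (rh_nonneg _ _ _) zero_le_one
  have hI := integral_mono (hint T hT) ((hint T' hT').add (integrable_const _)) hpt
  refine hI.trans (le_of_eq ?_)
  have e1 := integral_add (hint T' hT') (integrable_const (μ := Pm μ N) (2 * F * e))
  simp only [Pi.add_apply] at e1 ⊢
  rw [e1, integral_const, measureReal_def, measure_univ, ENNReal.toReal_one, one_smul]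

omit [SwQ Q] [IsProbabilityMeasure μ] [Nonempty (Px Q)] in
theorem ind72_mono45 {T T' : Env × Finset ℕ → Px Q → Prop} {ω : Env × Finset ℕ} {S : Px Q} (h : T ω S → T' ω S) :
    ind72 T ω S ≤ ind72 T' ω S := by
  unfold ind72
  by_cases h1 : T ω S
  · rw [if_pos h1, if_pos (h h1)]
  · rw [if_neg h1]
    split_ifs <;> norm_num

omit [SwQ Q] [IsProbabilityMeasure μ] [Nonempty (Px Q)] in
theorem meas_tau45 {w : Env × Finset ℕ → Px Q → ℝ} (hw : ∀ S, Measurable fun ω => w ω S) {Y' : Type*} [DecidableEq Y'] (q : Px Q → Y')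
    (p : Px Q → Y) (i j : ℕ) (M : ℝ) (S : Px Q) : MeasurableSet {ω | TauM (w ω) q p i j M S} :=
  measurableSet_le measurable_const (meas_cE hw (f := fun ω => mI (w ω) p i j)
    (fun T => meas_cE hw (f := fun _ => NI i j T) (fun _ => measurable_const) _ T) _ S)

open Pool.Agent.W_7d29a1_C0.EvT50 (RpM tau_rpM meas_Rp50 meas_RpM meas_tauM) in
/-- **The micro tie at the corner**: a piece of the window of the row `j` where the base path has an alternative. -/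
theorem mic_rp45 [MxQ Q] {z c : ℕ} {F : ℝ} {f : Env × Finset ℕ → Px Q → ℝ} (hf : Sp72 Q c F c0 K f)
    {E : Env × Finset ℕ → Px Q → Prop} (hE : ∀ S, MeasurableSet {ω | E ω S}) (m : ℕ) {b j l q : ℕ} {M : ℝ} (hM : 8 ≤ M)
    (hq : 10 * M ≤ q) (hq' : (q : ℝ) ≤ 20 * M) (h1 : b ≤ j) (h2 : 3 * q * (l + 1) ≤ b) :
    ∫ ω, PP (wm μ s N Q ω) (fun x y => ind72 (fun ω S => E ω S ∧
        Pool.Agent.W_7d29a1_C0.EvT50.TauM (wm μ s N Q ω) (pJ 0 m) b j M S) ω x * rh z c (f ω) x y) ∂(Pm μ N) ≤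
      ∫ ω, PP (wm μ s N Q ω) (fun x y => ind72 (fun ω S => E ω S ∧ RpM (wm μ s N Q ω) (pJ 0 m) b j l q M S) ω x *
        rh z c (f ω) x y) ∂(Pm μ N) + 2 * F * (2 * Real.exp (-M)) := by
  refine pp_swap45 (T := fun ω S => E ω S ∧ Pool.Agent.W_7d29a1_C0.EvT50.TauM (wm μ s N Q ω) (pJ 0 m) b j M S)
    (T' := fun ω S => E ω S ∧ RpM (wm μ s N Q ω) (pJ 0 m) b j l q M S) hf
    (fun S => (hE S).inter (meas_tauM _ _ _ _ S)) (fun S => (hE S).inter (meas_RpM _ _ _ _ _ _ S)) fun ω => ?_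
  have h3 : j - b + 3 * q * (l + 1) ≤ j := by omega
  refine le_trans (gm_mono _ fun S => ?_) (tau_rpM (μ := μ) (s := s) (N := N) (Q := Q) (b := b) (j := j) (l := l) (q := q) ω.1 m hM hq
    hq' h3 h2)
  unfold ind72
  by_cases h4 : (E ω S ∧ Pool.Agent.W_7d29a1_C0.EvT50.TauM (wm μ s N Q ω) (pJ 0 m) b j M S) ∧
      ¬ (E ω S ∧ RpM (wm μ s N Q ω) (pJ 0 m) b j l q M S)
  · rw [if_pos h4, if_pos (⟨h4.1.2, fun h5 => h4.2 ⟨h4.1.1, h5⟩⟩ :
      Pool.Agent.W_7d29a1_C0.EvT50.TauM (lw μ s ω.1 N Q) (pJ 0 m) b j M S ∧ ¬ RpM (lw μ s ω.1 N Q) (pJ 0 m) b j l q M S)]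
  · rw [if_neg h4]
    split_ifs <;> norm_num

open Pool.Agent.W_7d29a1_C0.EvT50 (meas_Rp50) in
/-- **The averaged own mass at the corner**: a piece of the own window where the base path has an alternative, given `q`. -/
theorem own_rp45 [MxQ Q] {z c : ℕ} {F : ℝ} {f : Env × Finset ℕ → Px Q → ℝ} (hf : Sp72 Q c F c0 K f)
    {E : Env × Finset ℕ → Px Q → Prop} (hE : ∀ S, MeasurableSet {ω | E ω S}) {Y' : Type*} [DecidableEq Y'] {q : Px Q → Y'}
    {p : Px Q → Y} (hc : Crs q p) (hq : SwP q) {a b : ℕ} (hp : BlP p a b) (τ l k : ℕ) {M : ℝ} (hM : 8 ≤ M) (hk : 10 * M ≤ k)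
    (hk' : (k : ℝ) ≤ 20 * M) {L : ℕ} (ha : a ≤ τ) (hL : τ + 3 * k * (l + 1) ≤ L) (hb : L ≤ b) :
    ∫ ω, PP (wm μ s N Q ω) (fun x y => ind72 (fun ω S => TauM (wm μ s N Q ω) q p τ L M S ∧ E ω S) ω x *
        rh z c (f ω) x y) ∂(Pm μ N) ≤
      ∫ ω, PP (wm μ s N Q ω) (fun x y => ind72 (fun ω S => Rp (wm μ s N Q ω) q τ l k M S ∧ E ω S) ω x *
        rh z c (f ω) x y) ∂(Pm μ N) + 2 * F * Real.exp (-M) := by
  refine pp_swap45 (T := fun ω S => TauM (wm μ s N Q ω) q p τ L M S ∧ E ω S)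
    (T' := fun ω S => Rp (wm μ s N Q ω) q τ l k M S ∧ E ω S) hf
    (fun S => (meas_tau45 meas_wm q p τ L M S).inter (hE S)) (fun S => (meas_Rp50 q τ l k M S).inter (hE S)) fun ω => ?_
  classical
  have h0 := tauM_rp (μ := μ) (s := s) (N := N) (Q := Q) ω.1 hc hq hp τ l k hM hk hk' ha hL hb
  refine le_trans (gm_mono _ fun S => ?_) h0
  unfold ind72
  by_cases h4 : (TauM (wm μ s N Q ω) q p τ L M S ∧ E ω S) ∧ ¬ (Rp (wm μ s N Q ω) q τ l k M S ∧ E ω S)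
  · rw [if_pos h4, if_pos (⟨h4.1.1, fun h5 => h4.2 ⟨h5, h4.1.2⟩⟩ :
      TauM (lw μ s ω.1 N Q) q p τ L M S ∧ ¬ Rp (lw μ s ω.1 N Q) q τ l k M S)]
  · rw [if_neg h4]
    split_ifs <;> norm_num

end E0

end

end Pool.W7d29a1.C0.C45
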