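import Pool.Agent.W_7d29a1_C0.Loc7U

/-!
CURV0 (MP_7d29a1_pr), leaf E0D: THE TWO SIDED COMPARISON, part 4: OVER THE SIGNS (helper7).

`E0D.pm`: over `Pm` (tilt, functional and passenger depend on the signs). `e0_wtD`: for the measure `wt` of the window of the row `j`: the
level is the one of `(t - a_j) g_j`.
-/

set_option autoImplicit false

namespace Pool.W7d29a1.C0.H7

open Finset MeasureTheory Filter Topology Pool.Agent.W_7d29a1_F Pool.Agent.W_7d29a1_X Pool.Agent.W_7d29a1_C0.Mod92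
  Pool.Agent.W_7d29a1_C0.H32 Pool.W7d29a1.C0.H27
open Pool.W7d29a1.C0 (gz gm gz_pos)
open scoped ENNReal

noncomputable section

variable {μ : Measure ℝ} {s : ℝ} {N : ℕ} {P : Finset (Finset ℕ)}

/-- **E0D over `Pm`.** -/
theorem E0D.pm [IsProbabilityMeasure μ] [Nonempty (Px P)] {k c K : ℕ} {F : Fin k → Prop} {δ ρ ε K' : ℝ}
    {u : Finset ℕ → Env → Px P → ℝ} (h : ∀ A, E0D μ s k N P F δ c K ρ (u A) ε K') (hum : ∀ A S, Measurable fun η => u A η S)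
    {G : Set Env} (hG : MeasurableSet G)
    {Ψ Ψ' : Env × Finset ℕ → (Fin k → Px P) → ℝ} (h0 : ∀ ω x, 0 ≤ Ψ ω x) (hΛ : ∀ ω x, Ψ ω x ≤ (N : ℝ) ^ K')
    (h0' : ∀ ω x, 0 ≤ Ψ' ω x) (hΛ' : ∀ ω x, Ψ' ω x ≤ (N : ℝ) ^ K') (hm : ∀ x A, Measurable fun η => Ψ (η, A) x)
    (hm' : ∀ x A, Measurable fun η => Ψ' (η, A) x)
    (hΨ : ∀ ω, ∀ x x' : Fin k → Px P, (∀ i, F i → x i = x' i) → (∀ i, pB (c + K) (x i) = pB (c + K) (x' i)) → Ψ ω x = Ψ ω x')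
    (hNL : ∀ A, ∀ η ∈ G, ∀ x, Ψ (η, A) x ≠ 0 → ∀ i, F i → NL7 (lw μ s η N P) (u A η) δ c K (x i))
    (hpas : ∀ A, ∀ η ∈ G, ∀ ζ : Env, (∀ q, q ∉ slb c K → ζ q = η q) → (∀ q, |ζ q - η q| ≤ ρ) →
      ∀ x, Ψ (η, A) x ≤ Ψ' (ζ, A) x) :
    ∫ ω, rep k (fun S => lw μ s ω.1 N P S + u ω.2 ω.1 S) (Ψ ω) ∂(Pm μ N) ≤
      (N : ℝ) ^ ε * (∫ ω, rep k (lw μ s ω.1 N P) (Ψ' ω) ∂(Pm μ N) + (N : ℝ) ^ (-K')) + (N : ℝ) ^ K' * (law μ Gᶜ).toReal := by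
  have m1 : ∀ A, Measurable fun η => rep k (fun S => lw μ s η N P S + u A η S) (Ψ (η, A)) := fun A =>
    meas_rep (fun S => (meas_lw S).add (hum A S)) fun x => hm x A
  have m2 : ∀ A, Measurable fun η => rep k (lw μ s η N P) (Ψ' (η, A)) := fun A =>
    meas_rep (fun S => meas_lw S) fun x => hm' x A
  have i1 : ∀ A, Integrable (fun η => rep k (fun S => lw μ s η N P S + u A η S) (Ψ (η, A))) (law μ) := fun A =>
    Integrable.of_bound (m1 A).aestronglyMeasurable ((N : ℝ) ^ K') (Eventually.of_forall fun η => by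
      rw [Real.norm_eq_abs, abs_of_nonneg (rep_nonneg7 _ (h0 (η, A)))]
      exact rep_le_const7 _ (hΛ (η, A)))
  have i2 : ∀ A, Integrable (fun η => rep k (lw μ s η N P) (Ψ' (η, A))) (law μ) := fun A =>
    Integrable.of_bound (m2 A).aestronglyMeasurable ((N : ℝ) ^ K') (Eventually.of_forall fun η => by
      rw [Real.norm_eq_abs, abs_of_nonneg (rep_nonneg7 _ (h0' (η, A)))]
      exact rep_le_const7 _ (hΛ' (η, A)))
  rw [int_Pm (Φ := fun ω : Env × Finset ℕ => rep k (fun S => lw μ s ω.1 N P S + u ω.2 ω.1 S) (Ψ ω))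
      (fun A _ => i1 A) (fun A => m1 A),
    int_Pm (Φ := fun ω : Env × Finset ℕ => rep k (lw μ s ω.1 N P) (Ψ' ω)) (fun A _ => i2 A) (fun A => m2 A)]
  have hcard : ((2 : ℝ) ^ N)⁻¹ * ∑ _A ∈ (range N).powerset, (1 : ℝ) = 1 := by
    rw [sum_const, card_powerset, card_range, nsmul_eq_mul, mul_one]
    push_cast
    field_simp
  have hA : ∀ A ∈ (range N).powerset, ∫ η, rep k (fun S => lw μ s η N P S + u A η S) (Ψ (η, A)) ∂(law μ) ≤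
      (N : ℝ) ^ ε * (∫ η, rep k (lw μ s η N P) (Ψ' (η, A)) ∂(law μ) + (N : ℝ) ^ (-K')) + (N : ℝ) ^ K' * (law μ Gᶜ).toReal :=
    fun A _ => h A G hG (fun η => Ψ (η, A)) (fun η => Ψ' (η, A)) (fun η => h0 (η, A)) (fun η => hΛ (η, A))
      (fun η => h0' (η, A)) (fun η => hΛ' (η, A)) (fun x => hm x A) (fun x => hm' x A) (fun η => hΨ (η, A)) (hNL A) (hpas A)
  have h1 := mul_le_mul_of_nonneg_left (sum_le_sum hA) (by positivity : (0 : ℝ) ≤ ((2 : ℝ) ^ N)⁻¹)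
  refine h1.trans (le_of_eq ?_)
  rw [sum_add_distrib, ← mul_sum, sum_add_distrib, mul_add]
  have e : ∀ x : ℝ, ((2 : ℝ) ^ N)⁻¹ * ∑ _A ∈ (range N).powerset, x = x := fun x => by
    have e1 : ∑ _A ∈ (range N).powerset, x = (∑ _A ∈ (range N).powerset, (1 : ℝ)) * x := by
      rw [sum_mul]
      simp only [one_mul]
    rw [e1, ← mul_assoc, hcard, one_mul]
  rw [e]
  congr 1
  rw [mul_left_comm, mul_add, e]

/-- **E0D for the measure `wt` of the window of the row `j`.** `F` = the replicas seen in full. -/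
theorem e0_wtD [IsProbabilityMeasure μ] [Nonempty (Px P)] {k c K : ℕ} {F : Fin k → Prop} {δ' B ε K' : ℝ}
    (h : ∀ U : Env → Finset ℕ → ℝ, PA c B U → E0D μ s k N P F δ' c K (2 * B / K) (tA c U) ε K') (hB : 0 ≤ B) {δ t : ℝ}
    (ht : |t| ≤ 1) {b j : ℕ} (hc : j + b ≤ c) {G : Set Env} (hG : MeasurableSet G)
    {Ψ Ψ' : Env × Finset ℕ → (Fin k → Px P) → ℝ} (h0 : ∀ ω x, 0 ≤ Ψ ω x) (hΛ : ∀ ω x, Ψ ω x ≤ (N : ℝ) ^ K')
    (h0' : ∀ ω x, 0 ≤ Ψ' ω x) (hΛ' : ∀ ω x, Ψ' ω x ≤ (N : ℝ) ^ K') (hm : ∀ x A, Measurable fun η => Ψ (η, A) x)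
    (hm' : ∀ x A, Measurable fun η => Ψ' (η, A) x)
    (hΨ : ∀ ω, ∀ x x' : Fin k → Px P, (∀ i, F i → x i = x' i) → (∀ i, pB (c + K) (x i) = pB (c + K) (x' i)) → Ψ ω x = Ψ ω x')
    (hNL : ∀ A, ∀ η ∈ G, ∀ x, Ψ (η, A) x ≠ 0 → ∀ i, F i →
      NL7 (lw μ s η N P) (fun S => (t - sg A j) * gj μ s η δ B b j (sg A j) S) δ' c K (x i))
    (hpas : ∀ A, ∀ η ∈ G, ∀ ζ : Env, (∀ q, q ∉ slb c K → ζ q = η q) → (∀ q, |ζ q - η q| ≤ 2 * B / K) →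
      ∀ x, Ψ (η, A) x ≤ Ψ' (ζ, A) x) :
    ∫ ω, rep k (wt μ s ω.1 N P δ B b j (sg ω.2 j) t) (Ψ ω) ∂(Pm μ N) ≤
      (N : ℝ) ^ ε * (∫ ω, rep k (wm μ s N P ω) (Ψ' ω) ∂(Pm μ N) + (N : ℝ) ^ (-K')) + (N : ℝ) ^ K' * (law μ Gᶜ).toReal := by
  have e : ∀ A (η : Env), tA (P := P) c (gwU μ s δ B b j (sg A j) t) η = fun S => (t - sg A j) * gj μ s η δ B b j (sg A j) S :=
    fun A η => funext fun S => gwU_tA (P := P) (t := t) (δ := δ) (B := B) (a := sg A j) hc η S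
  have h1 := E0D.pm (u := fun A => tA c (gwU μ s δ B b j (sg A j) t)) (fun A => h _ (gwU_PA hB (abs_sg A j).le ht hc))
    (fun A S => (gwU_PA (μ := μ) (s := s) (δ := δ) hB (abs_sg A j).le ht hc).ms _) hG h0 hΛ h0' hΛ' hm hm' hΨ
    (fun A η hη x hx i hi => by
      simp only [e]
      exact hNL A η hη x hx i hi) hpas
  refine le_trans (le_of_eq ?_) h1
  refine integral_congr_ae (Eventually.of_forall fun ω => ?_)
  simp only [wt_tA (N := N) (P := P) (t := t) (δ := δ) (B := B) (a := sg ω.2 j) hc]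

end

end Pool.W7d29a1.C0.H7
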