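import Pool.Agent.W_7d29a1_C0.Cor45N
import Pool.Agent.W_7d29a1_C0.Loc7V

/-!
MP_7d29a1_pr, [CURV0] / [C0], leaf E2.6, PART L (helper45): **THE EVENTS OF THE WHOLE BASE PATH AT THE CORNER.**

`RbW45`: an event of the whole path which is robust under changes of the environment in the slab. `e0D_ev45`: `E0D` (`Loc7U`) for the
functional `1[T x] 1[NL x] rh x y`, where the base path `x` is seen in full. `split45`: the event at the tilted weights is the sum of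
the part where the level of the tilt is seen at the slab (`nlA45`), the part where it is seen from the other corner (`nlB45`), which is
passed by the flip, and the third term (levels above and below). `cornerL45`: the three together.
-/

set_option autoImplicit false
set_option linter.unusedSectionVars false
set_option linter.unusedVariables false

namespace Pool.W7d29a1.C0.C45

open Finset MeasureTheory Filter Topology Pool.Agent.W_7d29a1_F Pool.Agent.W_7d29a1_X Pool.Agent.W_7d29a1_C0.Mod92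
open Pool.Agent.W_7d29a1_C0.Swap57 Pool.Agent.W_7d29a1_C0.Blk18 Pool.Agent.W_7d29a1_C0.NM82
open Pool.Agent.W_7d29a1_C0.MicE14 (rh rh_nonneg nn Cq)
open Pool.Agent.W_7d29a1_C0.CutT57 (NI_congr NI_le_one)
open Pool.Agent.W_7d29a1_C0.T72 (Sp72 Rb72 ind72 ind72_nonneg ind72_le_one meas_ind72 meas_fix crs_pB72 ps_of_pB72)
open Pool.W7d29a1.C0 (gz gm gz_ne gz_pos gm_nonneg gm_mono gm_const PP PP_eq PP_mono PP_nonneg PP_add PP_smul rep bs)
open Pool.W7d29a1.C0.VT31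
open Pool.W7d29a1.C0.R43
open Pool.W7d29a1.C0.H7 (E0D NL7)
open Pool.W7d29a1.C0.H27 (pB slb)
open Pool.W7d29a1.C0.Row39 (PP_fst PP_const PP_sum)

noncomputable section

section D

variable {μ : Measure ℝ} {s : ℝ} {N : ℕ} {Q : Finset (Finset ℕ)} [IsProbabilityMeasure μ] [SwQ Q] [Nonempty (Px Q)]
variable {c0 K : ℕ} {θ ε K' : ℝ} {u : Finset ℕ → Env → Px Q → ℝ} {Y Y' : Type*} [DecidableEq Y] [DecidableEq Y']

/-- An event of the whole path which is robust under the changes of the environment in the slab. -/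
structure RbW45 (Q : Finset (Finset ℕ)) (c0 K : ℕ) (θ : ℝ) (T T' : Env × Finset ℕ → Px Q → Prop) : Prop where
  meas : ∀ S, MeasurableSet {ω | T ω S}
  meas' : ∀ S, MeasurableSet {ω | T' ω S}
  rob : ∀ A η ζ, (∀ q, q ∉ slb c0 K → ζ q = η q) → (∀ q, |ζ q - η q| ≤ θ) → ∀ S, T (η, A) S → T' (ζ, A) S

omit [SwQ Q] [Nonempty (Px Q)] in
theorem RbW45.and {T T' U U' : Env × Finset ℕ → Px Q → Prop} (h : RbW45 Q c0 K θ T T') (h' : RbW45 Q c0 K θ U U') :
    RbW45 Q c0 K θ (fun ω S => T ω S ∧ U ω S) fun ω S => T' ω S ∧ U' ω S where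
  meas S := (h.meas S).inter (h'.meas S)
  meas' S := (h.meas' S).inter (h'.meas' S)
  rob A η ζ h1 h2 S hS := ⟨h.rob A η ζ h1 h2 S hS.1, h'.rob A η ζ h1 h2 S hS.2⟩

theorem nta_rbW {D : ℝ} (hD : 0 ≤ D) (hθ : θ ≤ D / K) (p : Px Q → Y) (i j : ℕ) {M M' : ℝ} (hM : M + 2 * D ≤ M') :
    RbW45 Q c0 K θ (fun ω => Nta (wm μ s N Q ω) p i j M) fun ω => Nta (wm μ s N Q ω) p i j M' where
  meas S := meas_nta45 p i j M S
  meas' S := meas_nta45 p i j M' S
  rob A η ζ h1 h2 S hS := nta_tilt (fun x => lw_near45 hD hθ h1 h2 A x) hM hS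

theorem tauM_rbW {D : ℝ} (hD : 0 ≤ D) (hθ : θ ≤ D / K) (q : Px Q → Y') (p : Px Q → Y) (i j : ℕ) {M M' : ℝ}
    (hM : 5 * M + 4 * D ≤ 5 * M') :
    RbW45 Q c0 K θ (fun ω => TauM (wm μ s N Q ω) q p i j M) fun ω => TauM (wm μ s N Q ω) q p i j M' where
  meas S := meas_tau45 meas_wm q p i j M S
  meas' S := meas_tau45 meas_wm q p i j M' S
  rob A η ζ h1 h2 S hS := tauM_tilt (fun x => lw_near45 hD hθ h1 h2 A x) hM hS

theorem tauX_rbW {D : ℝ} (hD : 0 ≤ D) (hθ : θ ≤ D / K) (r : Px Q → Y) (q : Px Q → Y') (b j : ℕ) {M M' : ℝ}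
    (hM : 5 * M + 4 * D ≤ 5 * M') :
    RbW45 Q c0 K θ (fun ω => TauX45 (wm μ s N Q ω) r q b j M) fun ω => TauX45 (wm μ s N Q ω) r q b j M' where
  meas S := meas_tauX45 r q b j M S
  meas' S := meas_tauX45 r q b j M' S
  rob A η ζ h1 h2 S hS := tauX_tilt45 (fun x => lw_near45 hD hθ h1 h2 A x) hM hS

/-! ### The levels -/

open Classical in
/-- The level `u S - δ` has the conditional mass at least `q0` given the path behind the row `m`, for all `m` in the slab. -/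
def NLq45 (w u : Px Q → ℝ) (q0 δ : ℝ) (c K : ℕ) (S : Px Q) : Prop :=
  ∀ m, c < m → m ≤ c + K → q0 ≤ cE w (pJ 0 m) (fun S' => if u S - δ ≤ u S' then 1 else 0) S

omit [SwQ Q] [Nonempty (Px Q)] [IsProbabilityMeasure μ] in
theorem nlq_nl7 (w u : Px Q → ℝ) (δ : ℝ) (c K : ℕ) (S : Px Q) : NLq45 w u (1 / 4) δ c K S ↔ NL7 w u δ c K S := Iff.rfl

omit [SwQ Q] [Nonempty (Px Q)] in
theorem meas_nlq45 {w u : Env × Finset ℕ → Px Q → ℝ} (hw : ∀ S, Measurable fun ω => w ω S) (hu : ∀ S, Measurable fun ω => u ω S)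
    (q0 δ : ℝ) (c K : ℕ) (S : Px Q) : MeasurableSet {ω | NLq45 (w ω) (u ω) q0 δ c K S} := by
  classical
  have e : {ω | NLq45 (w ω) (u ω) q0 δ c K S} = ⋂ m : ℕ, ⋂ _ : c < m, ⋂ _ : m ≤ c + K,
      {ω | q0 ≤ cE (w ω) (pJ 0 m) (fun S' => if u ω S - δ ≤ u ω S' then 1 else 0) S} := by
    ext ω
    simp only [Set.mem_iInter]
    exact Iff.rfl
  rw [e]
  refine MeasurableSet.iInter fun m => MeasurableSet.iInter fun _ => MeasurableSet.iInter fun _ =>
    measurableSet_le measurable_const ?_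
  refine meas_cE hw (f := fun ω S' => if u ω S - δ ≤ u ω S' then (1 : ℝ) else 0) (fun S' => ?_) _ S
  exact Measurable.ite (measurableSet_le ((hu S).sub_const δ) (hu S')) measurable_const measurable_const

/-! ### `E0D` for one full replica and one replica behind the slab -/

open Classical in
/-- **A robust event of the whole base path and the pair of the spectator, at the corner**, the level of the tilt seen at the slab. -/
theorem e0D_ev45 {δ : ℝ} (hE : ∀ A, E0D μ s 2 N Q (fun i => i = 0) δ c0 K θ (u A) ε K')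
    (hum : ∀ S, Measurable fun ω : Env × Finset ℕ => u ω.2 ω.1 S) {z c : ℕ} (hz : c0 + K ≤ z) (hc : z ≤ c) {F : ℝ}
    {f : Env × Finset ℕ → Px Q → ℝ} (hf : Sp72 Q c F c0 K f) (hF : 2 * F ≤ (N : ℝ) ^ K')
    {T T' : Env × Finset ℕ → Px Q → Prop} (hT : RbW45 Q c0 K θ T T') :
    ∫ ω, PP (wu μ s N Q u ω) (fun x y => ind72 (fun ω S => T ω S ∧ NL7 (wm μ s N Q ω) (u ω.2 ω.1) δ c0 K S) ω x *
        rh z c (f ω) x y) ∂(Pm μ N) ≤
      (N : ℝ) ^ ε * (∫ ω, PP (wm μ s N Q ω) (fun x y => ind72 T' ω x * rh z c (f ω) x y) ∂(Pm μ N) + (N : ℝ) ^ (-K')) := by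
  set NL : Env × Finset ℕ → Px Q → Prop := fun ω S => T ω S ∧ NL7 (wm μ s N Q ω) (u ω.2 ω.1) δ c0 K S with hNL
  have hNm : ∀ S, MeasurableSet {ω | NL ω S} := fun S =>
    (hT.meas S).inter (meas_nlq45 (w := fun ω => wm μ s N Q ω) (u := fun ω => u ω.2 ω.1) meas_wm hum (1 / 4) δ c0 K S)
  have b0 : ∀ ω x y, rh z c (f ω) x y ≤ 2 * F := fun ω x y => rh_le45 hf ω x y
  have b1 : ∀ (T : Env × Finset ℕ → Px Q → Prop) ω x y, ind72 T ω x * rh z c (f ω) x y ≤ (N : ℝ) ^ K' := fun T ω x y => by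
    calc ind72 T ω x * rh z c (f ω) x y ≤ 1 * rh z c (f ω) x y :=
          mul_le_mul_of_nonneg_right (ind72_le_one _ _ _) (rh_nonneg _ _ _)
      _ ≤ (N : ℝ) ^ K' := by rw [one_mul]; exact (b0 ω x y).trans hF
  have b2 : ∀ (T : Env × Finset ℕ → Px Q → Prop) ω x y, 0 ≤ ind72 T ω x * rh z c (f ω) x y := fun T ω x y =>
    mul_nonneg (ind72_nonneg _ _ _) (rh_nonneg _ _ _)
  have b3 : ∀ T : Env × Finset ℕ → Px Q → Prop, (∀ S, MeasurableSet {ω | T ω S}) → ∀ x y,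
      Measurable fun ω => ind72 T ω x * rh z c (f ω) x y := fun T hT x y =>
    (meas_ind72 hT x).mul (meas_rh45 hf x y)
  have h := E0D.pm (k := 2) (F := fun i => i = 0) (u := u) hE (fun A S => meas_fix (hum S) A) (G := Set.univ) MeasurableSet.univ
    (Ψ := fun ω x => ind72 NL ω (x 0) * rh z c (f ω) (x 0) (x 1)) (Ψ' := fun ω x => ind72 T' ω (x 0) * rh z c (f ω) (x 0) (x 1))
    (fun ω x => b2 NL ω _ _) (fun ω x => b1 NL ω _ _) (fun ω x => b2 T' ω _ _) (fun ω x => b1 T' ω _ _)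
    (fun x A => meas_fix (b3 NL hNm _ _) A) (fun x A => meas_fix (b3 T' hT.meas' _ _) A) (fun ω x x' h0 hp => ?_)
    (fun A η _ x hx i hi => ?_) (fun A η _ ζ h1 h2 x => ?_)
  · rw [Set.compl_univ, measure_empty, ENNReal.toReal_zero, mul_zero, add_zero] at h
    exact h
  · have e0 : x 0 = x' 0 := h0 0 rfl
    have hp' : ∀ k, c0 + K ≤ k → ps (x 1) k = ps (x' 1) k := fun k hk => ps_of_pB72 (hp 1) hk
    have e2 : rh z c (f ω) (x 0) (x 1) = rh z c (f ω) (x' 0) (x' 1) := by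
      unfold rh
      rw [e0, NI_congr (m := z) (u := c) (S := x' 0) (S' := x 1) (fun k _ _ => rfl) (fun k hk _ => hp' k (by omega)),
        hf.rk ω (x 1) (x' 1) (fun k hk => hp' k (by omega))]
    show ind72 NL ω (x 0) * rh z c (f ω) (x 0) (x 1) = ind72 NL ω (x' 0) * rh z c (f ω) (x' 0) (x' 1)
    rw [e2, e0]
  · have hi' : i = 0 := hi
    subst hi'
    by_contra hcon
    refine hx ?_
    show ind72 NL (η, A) (x 0) * rh z c (f (η, A)) (x 0) (x 1) = 0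
    have e1 : ind72 NL (η, A) (x 0) = 0 := if_neg fun h5 => hcon h5.2
    rw [e1, zero_mul]
  · show ind72 NL (η, A) (x 0) * rh z c (f (η, A)) (x 0) (x 1) ≤ ind72 T' (ζ, A) (x 0) * rh z c (f (ζ, A)) (x 0) (x 1)
    rw [show f (ζ, A) = f (η, A) from (hf.blind A η ζ h1).symm]
    refine mul_le_mul_of_nonneg_right ?_ (rh_nonneg _ _ _)
    unfold ind72
    by_cases h5 : NL (η, A) (x 0)
    · rw [if_pos h5, if_pos (hT.rob A η ζ h1 h2 (x 0) h5.1)]
    · rw [if_neg h5]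
      split_ifs <;> norm_num

/-! ### The three parts -/

/-- The level is seen at the slab or from the other corner, or neither. -/
theorem split45 (hum : ∀ S, Measurable fun ω : Env × Finset ℕ => u ω.2 ω.1 S) {z c : ℕ} {F : ℝ}
    {f : Env × Finset ℕ → Px Q → ℝ} (hf : Sp72 Q c F c0 K f) {A A₂ E n₁ n₂ : Env × Finset ℕ → Px Q → Prop}
    (hA : ∀ ω S, A ω S → A₂ ω S) (hE : ∀ ω S, A ω S → E ω S) (mA : ∀ S, MeasurableSet {ω | A ω S})
    (mA₂ : ∀ S, MeasurableSet {ω | A₂ ω S}) (mE : ∀ S, MeasurableSet {ω | E ω S}) (m₁ : ∀ S, MeasurableSet {ω | n₁ ω S})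
    (m₂ : ∀ S, MeasurableSet {ω | n₂ ω S}) :
    ∫ ω, PP (wu μ s N Q u ω) (fun x y => ind72 A ω x * rh z c (f ω) x y) ∂(Pm μ N) ≤
      ∫ ω, PP (wu μ s N Q u ω) (fun x y => ind72 (fun ω S => A ω S ∧ n₁ ω S) ω x * rh z c (f ω) x y) ∂(Pm μ N) +
      ∫ ω, PP (wu μ s N Q u ω) (fun x y => ind72 (fun ω S => A₂ ω S ∧ n₂ ω S) ω x * rh z c (f ω) x y) ∂(Pm μ N) +
      ∫ ω, PP (wu μ s N Q u ω) (fun x y => ind72 (fun ω S => E ω S ∧ (¬ n₁ ω S ∧ ¬ n₂ ω S)) ω x * rh z c (f ω) x y) ∂(Pm μ N) := by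
  have hint : ∀ T : Env × Finset ℕ → Px Q → Prop, (∀ S, MeasurableSet {ω | T ω S}) → Integrable (fun ω : Env × Finset ℕ =>
      PP (wu μ s N Q u ω) (fun x y => ind72 T ω x * rh z c (f ω) x y)) (Pm μ N) := fun T hT =>
    int_bdd (M := 1 * (2 * F)) (meas_PP45 (meas_wu hum) fun x y => (meas_ind72 hT x).mul (meas_rh45 hf x y)) fun ω =>
      abs_PP_le45 _ (fun x y => mul_nonneg (ind72_nonneg _ _ _) (rh_nonneg _ _ _)) fun x y =>
        mul_le_mul (ind72_le_one _ _ _) (rh_le45 hf ω x y) (rh_nonneg _ _ _) zero_le_one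
  have i1 := hint (fun ω S => A ω S ∧ n₁ ω S) fun S => (mA S).inter (m₁ S)
  have i2 := hint (fun ω S => A₂ ω S ∧ n₂ ω S) fun S => (mA₂ S).inter (m₂ S)
  have i3 := hint (fun ω S => E ω S ∧ (¬ n₁ ω S ∧ ¬ n₂ ω S)) fun S => (mE S).inter ((m₁ S).compl.inter (m₂ S).compl)
  have hpt : ∀ ω, PP (wu μ s N Q u ω) (fun x y => ind72 A ω x * rh z c (f ω) x y) ≤
      PP (wu μ s N Q u ω) (fun x y => ind72 (fun ω S => A ω S ∧ n₁ ω S) ω x * rh z c (f ω) x y) +
      PP (wu μ s N Q u ω) (fun x y => ind72 (fun ω S => A₂ ω S ∧ n₂ ω S) ω x * rh z c (f ω) x y) +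
      PP (wu μ s N Q u ω) (fun x y => ind72 (fun ω S => E ω S ∧ (¬ n₁ ω S ∧ ¬ n₂ ω S)) ω x * rh z c (f ω) x y) := fun ω => by
    rw [← PP_add, ← PP_add (wu μ s N Q u ω) (fun x y => ind72 (fun ω S => A ω S ∧ n₁ ω S) ω x * rh z c (f ω) x y +
      ind72 (fun ω S => A₂ ω S ∧ n₂ ω S) ω x * rh z c (f ω) x y)]
    refine PP_mono _ fun x y => ?_
    rw [← add_mul, ← add_mul]
    refine mul_le_mul_of_nonneg_right ?_ (rh_nonneg _ _ _)
    have a1 := ind72_nonneg (fun ω S => A ω S ∧ n₁ ω S) ω x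
    have a2 := ind72_nonneg (fun ω S => A₂ ω S ∧ n₂ ω S) ω x
    have a3 := ind72_nonneg (fun ω S => E ω S ∧ (¬ n₁ ω S ∧ ¬ n₂ ω S)) ω x
    by_cases h : A ω x
    · have e0 : ind72 A ω x = 1 := if_pos h
      rw [e0]
      by_cases h1 : n₁ ω x
      · have e1 : ind72 (fun ω S => A ω S ∧ n₁ ω S) ω x = 1 := if_pos ⟨h, h1⟩
        linarith
      · by_cases h2 : n₂ ω x
        · have e1 : ind72 (fun ω S => A₂ ω S ∧ n₂ ω S) ω x = 1 := if_pos ⟨hA ω x h, h2⟩
          linarith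
        · have e1 : ind72 (fun ω S => E ω S ∧ (¬ n₁ ω S ∧ ¬ n₂ ω S)) ω x = 1 := if_pos ⟨hE ω x h, h1, h2⟩
          linarith
    · have e0 : ind72 A ω x = 0 := if_neg h
      rw [e0]
      linarith
  refine (integral_mono (hint A mA) ((i1.add i2).add i3) hpt).trans (le_of_eq ?_)
  have e1 := integral_add (i1.add i2) i3
  have e2 := integral_add i1 i2
  simp only [Pi.add_apply] at e1 e2 ⊢
  rw [e1, e2]

end D

end

end Pool.W7d29a1.C0.C45
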