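import Pool.Agent.W_7d29a1_C0.Cor45D

/-!
MP_7d29a1_pr, [CURV0] / [C0], leaf E2.6, PART L (helper45): **THE MICRO MEAN STAYS A FUNCTIONAL UNTIL THE FLIP IS DONE.**

`nX45`: the mean of `|g a - g b|`, `a` given `r`, `b` given `q`, at the tilted weights. `own_nn45`: the own pair and the micro tie are at
most the mean of `1[E] nX`; `splitN45`: the split by the levels with the factor `nX`; `nn_ev45`: at the actual corner `nX` is replaced by
the micro event; `nx_corner45`: the part whose level is seen at the slab, at the corner. `T2N45`, `TpN45`, `T0QN45`: the terms of part L.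
-/

set_option autoImplicit false
set_option linter.unusedSectionVars false
set_option linter.unusedVariables false

namespace Pool.W7d29a1.C0.C45

open Finset MeasureTheory Filter Topology Pool.Agent.W_7d29a1_F Pool.Agent.W_7d29a1_X Pool.Agent.W_7d29a1_C0.Mod92
open Pool.Agent.W_7d29a1_C0.Swap57 Pool.Agent.W_7d29a1_C0.Blk18 Pool.Agent.W_7d29a1_C0.NM82
open Pool.Agent.W_7d29a1_C0.MicE14 (rh rh_nonneg nn Cq)
open Pool.Agent.W_7d29a1_C0.CutT57 (NI_congr NI_le_one)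
open Pool.Agent.W_7d29a1_C0.T72 (Sp72 Rb72 ind72 ind72_nonneg ind72_le_one meas_ind72 meas_fix crs_pB72 ps_of_pB72)
open Pool.W7d29a1.C0 (gz gm gz_ne gz_pos gm_nonneg gm_mono gm_const PP PP_eq PP_mono PP_nonneg PP_add PP_smul)
open Pool.W7d29a1.C0.VT31
open Pool.W7d29a1.C0.R43
open Pool.W7d29a1.C0.H7 (E0D NL7)
open Pool.W7d29a1.C0.H27 (pB slb)
open Pool.W7d29a1.C0.Row39 (PP_fst PP_const PP_sum)

noncomputable section

section F

variable {μ : Measure ℝ} {s : ℝ} {N : ℕ} {Q : Finset (Finset ℕ)} [IsProbabilityMeasure μ] [SwQ Q] [Nonempty (Px Q)]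
variable {c0 K : ℕ} {θ ε K' : ℝ} {u : Finset ℕ → Env → Px Q → ℝ} {Y Y' : Type*} [DecidableEq Y] [DecidableEq Y']

/-- The micro mean at the log weight `w`. -/
def nX45 (w : Px Q → ℝ) (r : Px Q → Y) (q : Px Q → Y') (g : Px Q → ℝ) (S : Px Q) : ℝ :=
  cE w r (fun x => cE w q (fun y => |g x - g y|) x) S

omit [SwQ Q] in
theorem nX_nonneg45 (w : Px Q → ℝ) (r : Px Q → Y) (q : Px Q → Y') (g : Px Q → ℝ) (S : Px Q) : 0 ≤ nX45 w r q g S :=
  cE_nonneg _ _ (fun x => cE_nonneg _ _ (fun y => abs_nonneg _) _) _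

omit [SwQ Q] in
theorem nX_le45 (w : Px Q → ℝ) (r : Px Q → Y) (q : Px Q → Y') {g : Px Q → ℝ} {B : ℝ} (hg : ∀ x y, |g x - g y| ≤ B) (S : Px Q) :
    nX45 w r q g S ≤ B := by
  have h1 : ∀ x, cE w q (fun y => |g x - g y|) x ≤ B := fun x => by
    have h := cE_mono w q (f := fun y => |g x - g y|) (g := B • fun _ => (1 : ℝ)) (fun y => by
      rw [Pi.smul_apply, smul_eq_mul, mul_one]
      exact hg x y) x
    rwa [cE_smul, Pi.smul_apply, smul_eq_mul, congrFun (cE_one _ _) x, mul_one] at h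
  have h := cE_mono w r (f := fun x => cE w q (fun y => |g x - g y|) x) (g := B • fun _ => (1 : ℝ)) (fun x => by
    rw [Pi.smul_apply, smul_eq_mul, mul_one]
    exact h1 x) S
  rwa [cE_smul, Pi.smul_apply, smul_eq_mul, congrFun (cE_one _ _) S, mul_one] at h

omit [IsProbabilityMeasure μ] [SwQ Q] [Nonempty (Px Q)] in
theorem meas_nX45 {w : Env × Finset ℕ → Px Q → ℝ} (hw : ∀ S, Measurable fun ω => w ω S) {g : Env × Finset ℕ → Px Q → ℝ}
    (hg : ∀ S, Measurable fun ω => g ω S) (r : Px Q → Y) (q : Px Q → Y') (S : Px Q) : Measurable fun ω => nX45 (w ω) r q (g ω) S :=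
  meas_cE hw (f := fun ω x => cE (w ω) q (fun y => |g ω x - g ω y|) x)
    (fun x => meas_cE hw (f := fun ω y => |g ω x - g ω y|) (fun y => ((hg x).sub (hg y)).abs) _ x) _ S

/-- The integral of a two replica mean with an event, a bounded factor and the tie of `f`. -/
theorem int_rh45 (hum : ∀ S, Measurable fun ω : Env × Finset ℕ => u ω.2 ω.1 S) {z c : ℕ} {F : ℝ}
    {f : Env × Finset ℕ → Px Q → ℝ} (hf : Sp72 Q c F c0 K f) {B : ℝ} {n : Env × Finset ℕ → Px Q → ℝ} (n0 : ∀ ω S, 0 ≤ n ω S)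
    (n1 : ∀ ω S, n ω S ≤ B) (nm : ∀ S, Measurable fun ω => n ω S) {V : Env × Finset ℕ → Px Q → ℝ} (V0 : ∀ ω S, 0 ≤ V ω S)
    (V1 : ∀ ω S, V ω S ≤ 1) (Vm : ∀ S, Measurable fun ω => V ω S) :
    Integrable (fun ω => PP (wu μ s N Q u ω) (fun x y => V ω x * (n ω x * rh z c (f ω) x y))) (Pm μ N) := by
  obtain ⟨S₀⟩ : Nonempty (Px Q) := inferInstance
  have hB : 0 ≤ B := (n0 (fun _ => 0, ∅) S₀).trans (n1 _ S₀)
  exact int_bdd (M := 1 * (B * (2 * F))) (meas_PP45 (meas_wu hum) fun x y => (Vm x).mul ((nm x).mul (meas_rh45 hf x y)))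
    fun ω => abs_PP_le45 _ (fun x y => mul_nonneg (V0 _ _) (mul_nonneg (n0 ω x) (rh_nonneg _ _ _))) fun x y =>
      mul_le_mul (V1 _ _) (mul_le_mul (n1 ω x) (rh_le45 hf ω x y) (rh_nonneg _ _ _) hB)
        (mul_nonneg (n0 ω x) (rh_nonneg _ _ _)) zero_le_one

/-- **THE OWN PAIR AND THE MICRO TIE**: the own functional is replaced by its event, the micro tie by its mean. -/
theorem own_nn45 (hum : ∀ S, Measurable fun ω : Env × Finset ℕ => u ω.2 ω.1 S) {B : ℝ} {z c : ℕ}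
    {g : Env × Finset ℕ → Px Q → ℝ} (hgB : ∀ ω x y, |g ω x - g ω y| ≤ B) (hgm : ∀ S, Measurable fun ω => g ω S)
    {J : Finset ℕ} {r : ℕ → Px Q → Y} {q : ℕ → Px Q → Y'} (hJ0 : J.Nonempty) {F : ℝ}
    {f : Env × Finset ℕ → Px Q → ℝ} (hf : Sp72 Q c F c0 K f)
    {V : Env × Finset ℕ → Px Q → ℝ} {E : Env × Finset ℕ → Px Q → Prop} {e1 : ℝ}
    (hV : OwnE (wu μ s N Q u) V E e1) (hEs : ∀ S, MeasurableSet {ω | E ω S})
    (hEm : ∀ m ∈ J, ∀ ω S S', r m S = r m S' → (E ω S ↔ E ω S'))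
    (hrh : ∀ m ∈ J, ∀ ω y, Mp (r m) fun x => rh z c (f ω) x y) (V0 : ∀ ω S, 0 ≤ V ω S) (V1 : ∀ ω S, V ω S ≤ 1)
    (Vm : ∀ S, Measurable fun ω => V ω S) :
    ∫ ω, PP (wu μ s N Q u ω) (fun x y => V ω x * (nn (wu μ s N Q u ω) J q (g ω) x * rh z c (f ω) x y)) ∂(Pm μ N) ≤
      (J.card : ℝ)⁻¹ * ∑ m ∈ J, ∫ ω, PP (wu μ s N Q u ω)
          (fun x y => ind72 E ω x * (nX45 (wu μ s N Q u ω) (r m) (q m) (g ω) x * rh z c (f ω) x y)) ∂(Pm μ N) +
      B * (2 * F) * e1 := by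
  obtain ⟨S₀⟩ : Nonempty (Px Q) := inferInstance
  have hB : 0 ≤ B := (abs_nonneg _).trans (hgB (fun _ => 0, ∅) S₀ S₀)
  have hF0 : 0 ≤ 2 * F := (rh_nonneg _ _ _).trans (rh_le45 (z := z) hf (fun _ => 0, ∅) S₀ S₀)
  have hcard : (0 : ℝ) < J.card := Nat.cast_pos.2 (card_pos.2 hJ0)
  have n0 : ∀ ω x, 0 ≤ nn (wu μ s N Q u ω) J q (g ω) x := fun ω x => by
    unfold nn
    exact mul_nonneg (inv_nonneg.2 hcard.le) (sum_nonneg fun m _ => cE_nonneg _ _ (fun y => abs_nonneg _) x)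
  have n1 : ∀ ω x, nn (wu μ s N Q u ω) J q (g ω) x ≤ B := fun ω x => by
    unfold nn
    rw [inv_mul_le_iff₀ hcard]
    refine (sum_le_sum fun m _ => ?_).trans (le_of_eq (by rw [sum_const, nsmul_eq_mul]))
    have h1 := cE_mono (wu μ s N Q u ω) (q m) (f := fun T => |g ω x - g ω T|) (g := B • fun _ => (1 : ℝ)) (fun y => by
      rw [Pi.smul_apply, smul_eq_mul, mul_one]
      exact hgB ω x y) x
    rwa [cE_smul, Pi.smul_apply, smul_eq_mul, congrFun (cE_one _ _) x, mul_one] at h1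
  have nm : ∀ x, Measurable fun ω => nn (wu μ s N Q u ω) J q (g ω) x := fun x => by
    unfold nn
    refine Measurable.const_mul (Finset.measurable_fun_sum _ fun m _ => ?_) _
    exact meas_cE (meas_wu hum) (f := fun ω T => |g ω x - g ω T|) (fun T => ((hgm x).sub (hgm T)).abs) _ x
  have hpt : ∀ ω, PP (wu μ s N Q u ω) (fun x y => V ω x * (nn (wu μ s N Q u ω) J q (g ω) x * rh z c (f ω) x y)) ≤
      (J.card : ℝ)⁻¹ * ∑ m ∈ J, PP (wu μ s N Q u ω)
          (fun x y => ind72 E ω x * (nX45 (wu μ s N Q u ω) (r m) (q m) (g ω) x * rh z c (f ω) x y)) + B * (2 * F) * e1 := fun ω => by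
    set w := wu μ s N Q u ω with hw
    have h1 := hV ω (fun x y => nn w J q (g ω) x * rh z c (f ω) x y) (B * (2 * F))
      (fun x y => mul_nonneg (n0 ω x) (rh_nonneg _ _ _)) (fun x y => mul_le_mul (n1 ω x) (rh_le45 hf ω x y) (rh_nonneg _ _ _) hB)
    have h2 : PP w (fun x y => ind72 E ω x * (nn w J q (g ω) x * rh z c (f ω) x y)) =
        (J.card : ℝ)⁻¹ * ∑ m ∈ J, PP w fun x y => ind72 E ω x * (nX45 w (r m) (q m) (g ω) x * rh z c (f ω) x y) := by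
      have e1 : (fun x y => ind72 E ω x * (nn w J q (g ω) x * rh z c (f ω) x y)) =
          fun x y => nn w J q (g ω) x * (ind72 E ω x * rh z c (f ω) x y) := by
        funext x y
        ring
      rw [e1, nn_avL45 w r q (g ω) (R := fun x y => ind72 E ω x * rh z c (f ω) x y)]
      · congr 1
        refine sum_congr rfl fun m _ => ?_
        congr 1
        funext x y
        unfold nX45
        ring
      · intro m hm y x x' hx
        show ind72 E ω x * rh z c (f ω) x y = ind72 E ω x' * rh z c (f ω) x' y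
        have e3 : ind72 E ω x = ind72 E ω x' := by
          unfold ind72
          rw [show E ω x = E ω x' from propext (hEm m hm ω x x' hx)]
        have e4 : rh z c (f ω) x y = rh z c (f ω) x' y := hrh m hm ω y x x' hx
        rw [e3, e4]
    rw [← h2]
    exact h1
  have i1 : Integrable (fun ω => PP (wu μ s N Q u ω) (fun x y => V ω x *
      (nn (wu μ s N Q u ω) J q (g ω) x * rh z c (f ω) x y))) (Pm μ N) := int_rh45 hum hf (z := z) (B := B) n0 n1 nm V0 V1 Vm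
  have i2 : ∀ m ∈ J, Integrable (fun ω => PP (wu μ s N Q u ω)
      (fun x y => ind72 E ω x * (nX45 (wu μ s N Q u ω) (r m) (q m) (g ω) x * rh z c (f ω) x y))) (Pm μ N) := fun m _ =>
    int_rh45 hum hf (z := z) (B := B) (fun ω S => nX_nonneg45 _ _ _ _ _) (fun ω S => nX_le45 _ _ _ (hgB ω) S)
      (fun S => meas_nX45 (meas_wu hum) hgm _ _ S) (fun ω S => ind72_nonneg _ _ _) (fun ω S => ind72_le_one _ _ _)
      fun S => meas_ind72 hEs S
  have i3 := (integrable_finsetSum J i2).const_mul (J.card : ℝ)⁻¹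
  refine (integral_mono i1 (i3.add (integrable_const _)) hpt).trans (le_of_eq ?_)
  have e := integral_add i3 (integrable_const (μ := Pm μ N) (B * (2 * F) * e1))
  simp only [Pi.add_apply] at e ⊢
  rw [e, integral_const, measureReal_def, measure_univ, ENNReal.toReal_one, one_smul, integral_const_mul, integral_finsetSum _ i2]

/-- **THE SPLIT BY THE LEVELS**, with the micro mean. -/
theorem splitN45 (hum : ∀ S, Measurable fun ω : Env × Finset ℕ => u ω.2 ω.1 S) {z c : ℕ} {F : ℝ}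
    {f : Env × Finset ℕ → Px Q → ℝ} (hf : Sp72 Q c F c0 K f) {B : ℝ} {n : Env × Finset ℕ → Px Q → ℝ} (n0 : ∀ ω S, 0 ≤ n ω S)
    (n1 : ∀ ω S, n ω S ≤ B) (nm : ∀ S, Measurable fun ω => n ω S) {A A₂ E n₁ n₂ : Env × Finset ℕ → Px Q → Prop}
    (hA : ∀ ω S, A ω S → A₂ ω S) (hE : ∀ ω S, A ω S → E ω S) (mA : ∀ S, MeasurableSet {ω | A ω S})
    (mA₂ : ∀ S, MeasurableSet {ω | A₂ ω S}) (mE : ∀ S, MeasurableSet {ω | E ω S}) (m₁ : ∀ S, MeasurableSet {ω | n₁ ω S})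
    (m₂ : ∀ S, MeasurableSet {ω | n₂ ω S}) :
    ∫ ω, PP (wu μ s N Q u ω) (fun x y => ind72 A ω x * (n ω x * rh z c (f ω) x y)) ∂(Pm μ N) ≤
      ∫ ω, PP (wu μ s N Q u ω) (fun x y => ind72 (fun ω S => A ω S ∧ n₁ ω S) ω x * (n ω x * rh z c (f ω) x y)) ∂(Pm μ N) +
      ∫ ω, PP (wu μ s N Q u ω) (fun x y => ind72 (fun ω S => A₂ ω S ∧ n₂ ω S) ω x * (n ω x * rh z c (f ω) x y)) ∂(Pm μ N) +
      B * ∫ ω, PP (wu μ s N Q u ω) (fun x y => ind72 (fun ω S => E ω S ∧ (¬ n₁ ω S ∧ ¬ n₂ ω S)) ω x *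
        rh z c (f ω) x y) ∂(Pm μ N) := by
  have hint : ∀ T : Env × Finset ℕ → Px Q → Prop, (∀ S, MeasurableSet {ω | T ω S}) → Integrable (fun ω : Env × Finset ℕ =>
      PP (wu μ s N Q u ω) (fun x y => ind72 T ω x * (n ω x * rh z c (f ω) x y))) (Pm μ N) := fun T hT =>
    int_rh45 hum hf (z := z) n0 n1 nm (fun ω S => ind72_nonneg _ _ _) (fun ω S => ind72_le_one _ _ _) fun S => meas_ind72 hT S
  have i1 := hint (fun ω S => A ω S ∧ n₁ ω S) fun S => (mA S).inter (m₁ S)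
  have i2 := hint (fun ω S => A₂ ω S ∧ n₂ ω S) fun S => (mA₂ S).inter (m₂ S)
  have i3 : Integrable (fun ω : Env × Finset ℕ => PP (wu μ s N Q u ω)
      (fun x y => ind72 (fun ω S => E ω S ∧ (¬ n₁ ω S ∧ ¬ n₂ ω S)) ω x * rh z c (f ω) x y)) (Pm μ N) :=
    int_bdd (M := 1 * (2 * F)) (meas_PP45 (meas_wu hum) fun x y =>
      (meas_ind72 (fun S => (mE S).inter ((m₁ S).compl.inter (m₂ S).compl)) x).mul (meas_rh45 hf x y)) fun ω =>
        abs_PP_le45 _ (fun x y => mul_nonneg (ind72_nonneg _ _ _) (rh_nonneg _ _ _)) fun x y =>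
          mul_le_mul (ind72_le_one _ _ _) (rh_le45 hf ω x y) (rh_nonneg _ _ _) zero_le_one
  have hpt : ∀ ω, PP (wu μ s N Q u ω) (fun x y => ind72 A ω x * (n ω x * rh z c (f ω) x y)) ≤
      PP (wu μ s N Q u ω) (fun x y => ind72 (fun ω S => A ω S ∧ n₁ ω S) ω x * (n ω x * rh z c (f ω) x y)) +
      PP (wu μ s N Q u ω) (fun x y => ind72 (fun ω S => A₂ ω S ∧ n₂ ω S) ω x * (n ω x * rh z c (f ω) x y)) +
      B * PP (wu μ s N Q u ω) (fun x y => ind72 (fun ω S => E ω S ∧ (¬ n₁ ω S ∧ ¬ n₂ ω S)) ω x * rh z c (f ω) x y) := fun ω => by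
    rw [← PP_smul, ← PP_add, ← PP_add (wu μ s N Q u ω) (fun x y => ind72 (fun ω S => A ω S ∧ n₁ ω S) ω x * (n ω x * rh z c (f ω) x y) +
      ind72 (fun ω S => A₂ ω S ∧ n₂ ω S) ω x * (n ω x * rh z c (f ω) x y))]
    refine PP_mono _ fun x y => ?_
    have r0 := rh_nonneg (z := z) (c := c) (f ω) x y
    have a1 := ind72_nonneg (fun ω S => A ω S ∧ n₁ ω S) ω x
    have a2 := ind72_nonneg (fun ω S => A₂ ω S ∧ n₂ ω S) ω x
    have a3 := ind72_nonneg (fun ω S => E ω S ∧ (¬ n₁ ω S ∧ ¬ n₂ ω S)) ω x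
    have p0 : 0 ≤ n ω x * rh z c (f ω) x y := mul_nonneg (n0 ω x) r0
    have p1 : n ω x * rh z c (f ω) x y ≤ B * rh z c (f ω) x y := mul_le_mul_of_nonneg_right (n1 ω x) r0
    have q1 := mul_nonneg a1 p0
    have q2 := mul_nonneg a2 p0
    have q3 : 0 ≤ B * (ind72 (fun ω S => E ω S ∧ (¬ n₁ ω S ∧ ¬ n₂ ω S)) ω x * rh z c (f ω) x y) :=
      mul_nonneg ((n0 ω x).trans (n1 ω x)) (mul_nonneg a3 r0)
    by_cases h : A ω x
    · have e0 : ind72 A ω x = 1 := if_pos h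
      rw [e0]
      by_cases h1 : n₁ ω x
      · have e1 : ind72 (fun ω S => A ω S ∧ n₁ ω S) ω x = 1 := if_pos ⟨h, h1⟩
        rw [e1] at q1 ⊢
        linarith
      · by_cases h2 : n₂ ω x
        · have e1 : ind72 (fun ω S => A₂ ω S ∧ n₂ ω S) ω x = 1 := if_pos ⟨hA ω x h, h2⟩
          rw [e1] at q2 ⊢
          linarith
        · have e1 : ind72 (fun ω S => E ω S ∧ (¬ n₁ ω S ∧ ¬ n₂ ω S)) ω x = 1 := if_pos ⟨hE ω x h, h1, h2⟩
          rw [e1] at q3 ⊢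
          linarith
    · have e0 : ind72 A ω x = 0 := if_neg h
      rw [e0]
      linarith
  refine (integral_mono (hint A mA) ((i1.add i2).add (i3.const_mul B)) hpt).trans (le_of_eq ?_)
  have e1 := integral_add (i1.add i2) (i3.const_mul B)
  have e2 := integral_add i1 i2
  simp only [Pi.add_apply] at e1 e2 ⊢
  rw [e1, e2, integral_const_mul]

/-- **AT THE ACTUAL CORNER THE MICRO MEAN IS REPLACED BY THE MICRO EVENT.** -/
theorem nn_ev45 (hum : ∀ S, Measurable fun ω : Env × Finset ℕ => u ω.2 ω.1 S) {B e2 rr : ℝ} (hB : 0 ≤ B) {z c : ℕ}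
    {g : Env × Finset ℕ → Px Q → ℝ} {J : Finset ℕ} {r : ℕ → Px Q → Y} {q : ℕ → Px Q → Y'} {T : ℕ → Env × Finset ℕ → Px Q → Prop}
    (hmic : MicL45 μ s N Q u g J r q B e2 rr T) {F : ℝ}
    {f : Env × Finset ℕ → Px Q → ℝ} (hf : Sp72 Q c F c0 K f) {G : Env × Finset ℕ → Px Q → Prop}
    (mG : ∀ S, MeasurableSet {ω | G ω S}) {m : ℕ} (hm : m ∈ J) :
    ∫ ω, PP (wu μ s N Q u ω) (fun x y => ind72 G ω x * (nX45 (wu μ s N Q u ω) (r m) (q m) (g ω) x * rh z c (f ω) x y)) ∂(Pm μ N) ≤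
      B * ∫ ω, PP (wu μ s N Q u ω) (fun x y => ind72 (fun ω S => T m ω S ∧ G ω S) ω x * rh z c (f ω) x y) ∂(Pm μ N) +
        (B * rr + e2) * (2 * F) := by
  obtain ⟨bad, bm, b01, htt, hrr⟩ := hmic.tt
  obtain ⟨S₀⟩ : Nonempty (Px Q) := inferInstance
  have hF0 : 0 ≤ 2 * F := (rh_nonneg _ _ _).trans (rh_le45 (z := z) hf (fun _ => 0, ∅) S₀ S₀)
  have he20 := hmic.e0
  have mT : ∀ S, MeasurableSet {ω | T m ω S ∧ G ω S} := fun S => (hmic.tm m hm S).inter (mG S)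
  have hpt : ∀ ω, PP (wu μ s N Q u ω) (fun x y => ind72 G ω x * (nX45 (wu μ s N Q u ω) (r m) (q m) (g ω) x * rh z c (f ω) x y)) ≤
      (B * PP (wu μ s N Q u ω) (fun x y => ind72 (fun ω S => T m ω S ∧ G ω S) ω x * rh z c (f ω) x y) +
        2 * F * B * gm (wu μ s N Q u ω) (bad m ω)) + e2 * (2 * F) := fun ω => by
    set w := wu μ s N Q u ω with hw
    have h4 : ∀ x y, ind72 G ω x * (nX45 w (r m) (q m) (g ω) x * rh z c (f ω) x y) ≤
        (B * (ind72 (fun ω S => T m ω S ∧ G ω S) ω x * rh z c (f ω) x y) + 2 * F * B * bad m ω x) + e2 * (2 * F) := fun x y => by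
      have h5 : nX45 w (r m) (q m) (g ω) x ≤ B * ind72 (T m) ω x + (B * bad m ω x + e2) := htt m hm ω x
      have h6 : 0 ≤ ind72 G ω x * rh z c (f ω) x y := mul_nonneg (ind72_nonneg _ _ _) (rh_nonneg _ _ _)
      have h7 : ind72 G ω x * rh z c (f ω) x y ≤ 2 * F := by
        calc ind72 G ω x * rh z c (f ω) x y ≤ 1 * rh z c (f ω) x y :=
              mul_le_mul_of_nonneg_right (ind72_le_one _ _ _) (rh_nonneg _ _ _)
          _ ≤ 2 * F := by rw [one_mul]; exact rh_le45 hf ω x y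
      have h8 : ind72 (fun ω S => T m ω S ∧ G ω S) ω x = ind72 (T m) ω x * ind72 G ω x := by
        unfold ind72
        by_cases a1 : T m ω x
        · by_cases a2 : G ω x
          · rw [if_pos a1, if_pos a2, if_pos (⟨a1, a2⟩ : T m ω x ∧ G ω x), mul_one]
          · rw [if_pos a1, if_neg a2, if_neg fun h => a2 h.2, mul_zero]
        · rw [if_neg a1, if_neg fun h => a1 h.1, zero_mul]
      rw [h8]
      have h9 : 0 ≤ B * bad m ω x + e2 := add_nonneg (mul_nonneg hB (b01 m ω x).1) he20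
      calc ind72 G ω x * (nX45 w (r m) (q m) (g ω) x * rh z c (f ω) x y) =
            nX45 w (r m) (q m) (g ω) x * (ind72 G ω x * rh z c (f ω) x y) := by ring
        _ ≤ (B * ind72 (T m) ω x + (B * bad m ω x + e2)) * (ind72 G ω x * rh z c (f ω) x y) :=
            mul_le_mul_of_nonneg_right h5 h6
        _ = B * (ind72 (T m) ω x * ind72 G ω x * rh z c (f ω) x y) +
            (B * bad m ω x + e2) * (ind72 G ω x * rh z c (f ω) x y) := by ring
        _ ≤ B * (ind72 (T m) ω x * ind72 G ω x * rh z c (f ω) x y) + (B * bad m ω x + e2) * (2 * F) :=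
            add_le_add le_rfl (mul_le_mul_of_nonneg_left h7 h9)
        _ = _ := by ring
    refine (PP_mono w h4).trans (le_of_eq ?_)
    rw [PP_add w (fun x y => B * (ind72 (fun ω S => T m ω S ∧ G ω S) ω x * rh z c (f ω) x y) + 2 * F * B * bad m ω x)
      (fun _ _ => e2 * (2 * F)), PP_const,
      PP_add w (fun x y => B * (ind72 (fun ω S => T m ω S ∧ G ω S) ω x * rh z c (f ω) x y)) (fun x _ => 2 * F * B * bad m ω x),
      PP_smul, PP_smul w (2 * F * B) (fun x _ => bad m ω x), PP_fst]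
  have i1 : Integrable (fun ω => PP (wu μ s N Q u ω)
      (fun x y => ind72 G ω x * (nX45 (wu μ s N Q u ω) (r m) (q m) (g ω) x * rh z c (f ω) x y))) (Pm μ N) :=
    int_rh45 hum hf (z := z) (B := B) (fun ω S => nX_nonneg45 _ _ _ _ _) (fun ω S => nX_le45 _ _ _ (hmic.gB ω) S)
      (fun S => meas_nX45 (meas_wu hum) hmic.ms _ _ S) (fun ω S => ind72_nonneg _ _ _) (fun ω S => ind72_le_one _ _ _)
      fun S => meas_ind72 mG S
  have i2 : Integrable (fun ω => B * PP (wu μ s N Q u ω) (fun x y => ind72 (fun ω S => T m ω S ∧ G ω S) ω x *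
      rh z c (f ω) x y)) (Pm μ N) :=
    (int_bdd (M := 1 * (2 * F)) (meas_PP45 (meas_wu hum) fun x y =>
      (meas_ind72 mT x).mul (meas_rh45 hf x y)) fun ω =>
        abs_PP_le45 _ (fun x y => mul_nonneg (ind72_nonneg _ _ _) (rh_nonneg _ _ _)) fun x y =>
          mul_le_mul (ind72_le_one _ _ _) (rh_le45 hf ω x y) (rh_nonneg _ _ _) zero_le_one).const_mul B
  have i4 : Integrable (fun ω => 2 * F * B * gm (wu μ s N Q u ω) (bad m ω)) (Pm μ N) :=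
    (int_bdd (M := 1) (meas_gm (meas_wu hum) (bm m)) fun ω => by
      rw [abs_of_nonneg (gm_nonneg _ fun S => (b01 m ω S).1)]
      exact (gm_mono _ (g := fun _ => 1) fun S => (b01 m ω S).2).trans (gm_const _ _).le).const_mul _
  refine (integral_mono i1 ((i2.add i4).add (integrable_const _)) hpt).trans ?_
  have e1 := integral_add (i2.add i4) (integrable_const (μ := Pm μ N) (e2 * (2 * F)))
  have e3 := integral_add i2 i4
  simp only [Pi.add_apply] at e1 e3 ⊢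
  rw [e1, e3, integral_const, measureReal_def, measure_univ, ENNReal.toReal_one, one_smul, integral_const_mul, integral_const_mul]
  have h5 := mul_le_mul_of_nonneg_left (hrr m hm) (mul_nonneg hF0 hB)
  linarith

/-- **THE PART WHOSE LEVEL IS SEEN AT THE SLAB, AT THE CORNER.** -/
theorem nx_corner45 {δ : ℝ} (hE : ∀ A, E0D μ s 2 N Q (fun i => i = 0) δ c0 K θ (u A) ε K')
    (hum : ∀ S, Measurable fun ω : Env × Finset ℕ => u ω.2 ω.1 S) {B e2 rr : ℝ} (hB : 0 ≤ B) {z c : ℕ} (hz : c0 + K ≤ z)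
    (hc : z ≤ c) {g : Env × Finset ℕ → Px Q → ℝ} {J : Finset ℕ} {r : ℕ → Px Q → Y} {q : ℕ → Px Q → Y'}
    {T T' : ℕ → Env × Finset ℕ → Px Q → Prop} (hmic : MicL45 μ s N Q u g J r q B e2 rr T) {F : ℝ}
    {f : Env × Finset ℕ → Px Q → ℝ} (hf : Sp72 Q c F c0 K f) (hF : 2 * F ≤ (N : ℝ) ^ K') {E E' : Env × Finset ℕ → Px Q → Prop}
    (hR : RbW45 Q c0 K θ E E') {m : ℕ} (hm : m ∈ J) (hT : RbW45 Q c0 K θ (T m) (T' m)) :
    ∫ ω, PP (wu μ s N Q u ω) (fun x y => ind72 (fun ω S => E ω S ∧ NL7 (wm μ s N Q ω) (u ω.2 ω.1) δ c0 K S) ω x *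
        (nX45 (wu μ s N Q u ω) (r m) (q m) (g ω) x * rh z c (f ω) x y)) ∂(Pm μ N) ≤
      B * ((N : ℝ) ^ ε * (∫ ω, PP (wm μ s N Q ω) (fun x y => ind72 (fun ω S => E' ω S ∧ T' m ω S) ω x *
        rh z c (f ω) x y) ∂(Pm μ N) + (N : ℝ) ^ (-K'))) + (B * rr + e2) * (2 * F) := by
  have mG : ∀ S, MeasurableSet {ω : Env × Finset ℕ | E ω S ∧ NL7 (wm μ s N Q ω) (u ω.2 ω.1) δ c0 K S} := fun S =>
    (hR.meas S).inter (meas_nlq45 (w := fun ω => wm μ s N Q ω) (u := fun ω => u ω.2 ω.1) meas_wm hum (1 / 4) δ c0 K S)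
  have h1 := nn_ev45 hum hB hmic hf (z := z) (G := fun ω S => E ω S ∧ NL7 (wm μ s N Q ω) (u ω.2 ω.1) δ c0 K S) mG hm
  refine h1.trans (add_le_add (mul_le_mul_of_nonneg_left ?_ hB) le_rfl)
  have h2 := e0D_ev45 hE hum hz hc hf hF (T := fun ω S => E ω S ∧ T m ω S) (T' := fun ω S => E' ω S ∧ T' m ω S) (RbW45.and hR hT)
  refine le_trans (le_of_eq ?_) h2
  congr 1
  funext ω
  congr 1
  funext x y
  congr 1
  unfold ind72
  by_cases h : E ω x ∧ NL7 (wm μ s N Q ω) (u ω.2 ω.1) δ c0 K x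
  · by_cases h3 : T m ω x
    · rw [if_pos ⟨h3, h⟩, if_pos ⟨⟨h.1, h3⟩, h.2⟩]
    · rw [if_neg fun h4 => h3 h4.1, if_neg fun h4 => h3 h4.1.2]
  · rw [if_neg fun h4 => h h4.2, if_neg fun h4 => h ⟨h4.1.1, h4.2⟩]

/-! ### The terms of part L -/

section Terms

variable {Du B M F : ℝ} {c1 z e zf c wl al : ℕ} {J : Finset ℕ} {f g : Env × Finset ℕ → Px Q → ℝ}

/-- **THE TERM `T2`, PART L**, with the micro mean. -/
theorem T2N45 (hum : ∀ S, Measurable fun ω : Env × Finset ℕ => u ω.2 ω.1 S) (hu : ∀ A η S, |u A η S| ≤ Du)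
    (hgB : ∀ ω x y, |g ω x - g ω y| ≤ B) (hgm : ∀ S, Measurable fun ω => g ω S) (hJ0 : J.Nonempty)
    (hJ : ∀ m ∈ J, c1 ≤ m ∧ al ≤ m) (hzf : z ≤ zf) (hc : zf ≤ c) (hf : Sp72 Q c F c0 K f) (M : ℝ) :
    ∫ ω, PP (wu μ s N Q u ω) (fun x y => mI (wu μ s N Q u ω) (pJ c1 z) wl al x *
        (nn (wu μ s N Q u ω) J (fun m => pJ m e) (g ω) x * rh zf c (f ω) x y)) ∂(Pm μ N) ≤
      (J.card : ℝ)⁻¹ * ∑ m ∈ J, ∫ ω, PP (wu μ s N Q u ω)
          (fun x y => ind72 (fun ω => Nta (wm μ s N Q ω) (pJ c1 z) wl al M) ω x *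
            (nX45 (wu μ s N Q u ω) (pJ m z) (pJ m e) (g ω) x * rh zf c (f ω) x y)) ∂(Pm μ N) +
      B * (2 * F) * Real.exp (2 * Du - M) :=
  own_nn45 (V := fun ω => mI (wu μ s N Q u ω) (pJ c1 z) wl al) (r := fun m => pJ m z) (q := fun m => pJ m e) hum hgB hgm hJ0 hf
    (ownE_self hu (pJ c1 z) wl al M)
    (fun S => meas_nta45 _ _ _ _ S) (fun m hm ω S S' h => nta_mp45 (hJ m hm).1 (hJ m hm).2 _ M h)
    (fun m hm ω y => rh_mp45 hzf hc (hf.rk ω) y) (fun ω S => mI_nonneg _ _ _ _ _) (fun ω S => mI_le_one _ _ _ _ _)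
    fun S => meas_mI45 (meas_wu hum) _ _ _ S

/-- **THE TERM `Tp`, PART L**, with the micro mean. -/
theorem TpN45 (hum : ∀ S, Measurable fun ω : Env × Finset ℕ => u ω.2 ω.1 S) (hu : ∀ A η S, |u A η S| ≤ Du)
    (hgB : ∀ ω x y, |g ω x - g ω y| ≤ B) (hgm : ∀ S, Measurable fun ω => g ω S) (hJ0 : J.Nonempty)
    (hJ : ∀ m ∈ J, c1 ≤ m) (hzf : z ≤ zf) (hc : zf ≤ c) (hf : Sp72 Q c F c0 K f) (M : ℝ) :
    ∫ ω, PP (wu μ s N Q u ω) (fun x y => mI (wu μ s N Q u ω) (pJ c1 z) wl al x *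
        (cE (wu μ s N Q u ω) (pJ c1 z) (nn (wu μ s N Q u ω) J (fun m => pJ m e) (g ω)) x *
          rh zf c (f ω) x y)) ∂(Pm μ N) ≤
      (J.card : ℝ)⁻¹ * ∑ m ∈ J, ∫ ω, PP (wu μ s N Q u ω)
          (fun x y => ind72 (fun ω => TauM (wm μ s N Q ω) (pJ c1 z) (pJ c1 z) wl al M) ω x *
            (nX45 (wu μ s N Q u ω) (pJ m z) (pJ m e) (g ω) x * rh zf c (f ω) x y)) ∂(Pm μ N) +
      B * (2 * F) * Real.exp (4 * Du - 5 * M) := by
  have e0 : ∀ ω, PP (wu μ s N Q u ω) (fun x y => mI (wu μ s N Q u ω) (pJ c1 z) wl al x *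
      (cE (wu μ s N Q u ω) (pJ c1 z) (nn (wu μ s N Q u ω) J (fun m => pJ m e) (g ω)) x * rh zf c (f ω) x y)) =
      PP (wu μ s N Q u ω) (fun x y => cE (wu μ s N Q u ω) (pJ c1 z) (mI (wu μ s N Q u ω) (pJ c1 z) wl al) x *
        (nn (wu μ s N Q u ω) J (fun m => pJ m e) (g ω) x * rh zf c (f ω) x y)) := fun ω =>
    PP_exch45 (p := pJ c1 z) (wu μ s N Q u ω) _ _ fun y => rh_mp45 hzf hc (hf.rk ω) y
  simp only [e0]
  exact own_nn45 (V := fun ω => cE (wu μ s N Q u ω) (pJ c1 z) (mI (wu μ s N Q u ω) (pJ c1 z) wl al)) (r := fun m => pJ m z)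
    (q := fun m => pJ m e) hum hgB hgm hJ0 hf
    (ownE_tau hu (pJ c1 z) (pJ c1 z) wl al M) (fun S => meas_tau45 meas_wm _ _ _ _ _ S)
    (fun m hm ω S S' h => tauM_meas _ _ _ _ _ _ (crs_pJ (hJ m hm) le_rfl S S' h))
    (fun m hm ω y => rh_mp45 hzf hc (hf.rk ω) y) (fun ω S => cE_nonneg _ _ (fun T => mI_nonneg _ _ _ _ _) S)
    (fun ω S => cE_mI_le_one _ _ _ _ _ S) fun S => meas_cE (meas_wu hum) (fun T => meas_mI45 (meas_wu hum) _ _ _ T) _ S

/-- **THE TERM `T0Q`, PART L**, with the micro mean. -/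
theorem T0QN45 (hum : ∀ S, Measurable fun ω : Env × Finset ℕ => u ω.2 ω.1 S) (hu : ∀ A η S, |u A η S| ≤ Du)
    (hgB : ∀ ω x y, |g ω x - g ω y| ≤ B) (hgm : ∀ S, Measurable fun ω => g ω S) (hJ0 : J.Nonempty)
    {m' : ℕ} (he : e ≤ m') (hzf : m' ≤ zf) (hc : zf ≤ c) (hf : Sp72 Q c F c0 K f) (p : Px Q → Y) (w1 w2 : ℕ) (M : ℝ) :
    ∫ ω, PP (wu μ s N Q u ω) (fun x y => cE (wu μ s N Q u ω) (pJ 0 m') (mI (wu μ s N Q u ω) p w1 w2) x *
        (nn (wu μ s N Q u ω) J (fun m => pJ m e) (g ω) x * rh zf c (f ω) x y)) ∂(Pm μ N) ≤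
      (J.card : ℝ)⁻¹ * ∑ m ∈ J, ∫ ω, PP (wu μ s N Q u ω)
          (fun x y => ind72 (fun ω => TauM (wm μ s N Q ω) (pJ 0 m') p w1 w2 M) ω x *
            (nX45 (wu μ s N Q u ω) (pJ m e) (pJ m e) (g ω) x * rh zf c (f ω) x y)) ∂(Pm μ N) +
      B * (2 * F) * Real.exp (4 * Du - 5 * M) :=
  own_nn45 (V := fun ω => cE (wu μ s N Q u ω) (pJ 0 m') (mI (wu μ s N Q u ω) p w1 w2)) (r := fun m => pJ m e)
    (q := fun m => pJ m e) hum hgB hgm hJ0 hf
    (ownE_tau hu (pJ 0 m') p w1 w2 M) (fun S => meas_tau45 meas_wm _ _ _ _ _ S)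
    (fun m hm ω S S' h => tauM_meas _ _ _ _ _ _ (crs_pJ (Nat.zero_le _) he S S' h))
    (fun m hm ω y => rh_mp45 (he.trans hzf) hc (hf.rk ω) y) (fun ω S => cE_nonneg _ _ (fun T => mI_nonneg _ _ _ _ _) S)
    (fun ω S => cE_mI_le_one _ _ _ _ _ S) fun S => meas_cE (meas_wu hum) (fun T => meas_mI45 (meas_wu hum) _ _ _ T) _ S

end Terms

end F

end

end Pool.W7d29a1.C0.C45
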