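import Pool.Agent.W_7d29a1_C0.Cor1

/-!
MP_7d29a1_pr, [CURV0] / [C0], leaf E0C (helper1): THREE LEVELS TOGETHER WITH AN OWN PAIR, TOLD FROM ONE PATH. One environment.

`p` is the outside of a large block, `q0 = pJ c e` the outside of the window `W0`, `g` a function whose differences are controlled by the
non meeting of two resamples in `W0` (`Dif w q0 (NM c al be e) Lg g`). `T4 x`: the mass, in the fibre of `p`, of `(y, y', z, z')` with
`g z' + δ < g y < g z - δ` and `y`, `y'` apart on the own region. For a path `x` of the fibre let `v` be of the class `miss` if it does not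
meet `x` on `[g0, g1]` (outside of `W0`): two of three replicas have the same class, which is common to their resamples. `Gz`: given `x`,
the paths of the class `meet` meet `x` in every piece of the region `Z`, those of the class `miss` miss `x` on all of `Z`, and two of
them are not apart from each other on `Z`. `pair_le`: for such `x`, pairs of the same class are not apart on `Z`. `T4_le`: if `x` is `Gz` for
the two margins whenever it has ties in the regions in front of and behind, then `T4` is small.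
-/

set_option autoImplicit false
set_option linter.unusedSectionVars false

namespace Pool.W7d29a1.C0.O1

open Finset MeasureTheory Pool.Agent.W_7d29a1_C0.Swap57 Pool.Agent.W_7d29a1_C0 Pool.Agent.W_7d29a1_C0.Mod92
open Pool.Agent.W_7d29a1_F Pool.Agent.W_7d29a1_X
open Pool.W7d29a1.C0 Pool.W7d29a1.C0.VT31 Pool.W7d29a1.C0.R43 Pool.W7d29a1.C0.S1 Pool.W7d29a1.C0.K1

noncomputable section

/-! ### Rules -/

section Rul

variable {X : Type*} [Fintype X] [Nonempty X] {Y Z : Type*} [DecidableEq Y] [DecidableEq Z]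

theorem cE_fib_mono (w : X → ℝ) (p : X → Y) {f f' : X → ℝ} {x0 : X} (h : ∀ x, p x = p x0 → f x ≤ f' x) :
    cE w p f x0 ≤ cE w p f' x0 := by
  unfold cE
  refine div_le_div_of_nonneg_right (sum_le_sum fun x _ => ?_) (fz_pos _ _ _).le
  split_ifs with hx
  · exact mul_le_mul_of_nonneg_left (h x hx) (Real.exp_pos _).le
  · exact le_rfl

theorem cE_fib_congr (w : X → ℝ) (p : X → Y) {f f' : X → ℝ} {x0 : X} (h : ∀ x, p x = p x0 → f x = f' x) :
    cE w p f x0 = cE w p f' x0 :=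
  le_antisymm (cE_fib_mono w p fun x hx => (h x hx).le) (cE_fib_mono w p fun x hx => (h x hx).ge)

theorem cE_addf (w : X → ℝ) (p : X → Y) (f f' : X → ℝ) (x : X) :
    cE w p (fun z => f z + f' z) x = cE w p f x + cE w p f' x := congrFun (cE_add w p f f') x

theorem cE_mulf (w : X → ℝ) (p : X → Y) (c : ℝ) (f : X → ℝ) (x : X) :
    cE w p (fun z => c * f z) x = c * cE w p f x := congrFun (cE_smul w p c f) x

theorem cE_constf (w : X → ℝ) (p : X → Y) (c : ℝ) (x : X) : cE w p (fun _ => c) x = c := by rw [cE_const]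

theorem cE_sumf {ι : Type*} (w : X → ℝ) (p : X → Y) (S : Finset ι) (f : ι → X → ℝ) (x : X) :
    cE w p (fun z => ∑ i ∈ S, f i z) x = ∑ i ∈ S, cE w p (f i) x := by
  have h := congrFun (cE_sum w p S f) x
  rw [Finset.sum_apply] at h
  rw [← h]
  congr 1
  funext z
  rw [Finset.sum_apply]

theorem cE2_left (w : X → ℝ) (p : X → Y) (f : X → ℝ) (x x' : X) : cE2 w p (fun z _ => f z) x x' = cE w p f x := by
  unfold cE2
  exact cE_congr w p (fun z => cE_constf w p _ _) x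

theorem cE2_right (w : X → ℝ) (p : X → Y) (f : X → ℝ) (x x' : X) : cE2 w p (fun _ z' => f z') x x' = cE w p f x' := by
  unfold cE2
  rw [cE_constf]

theorem cE2_fib (w : X → ℝ) (p : X → Y) (K : X → X → ℝ) {x x' x0 x0' : X} (h : p x = p x0) (h' : p x' = p x0') :
    cE2 w p K x x' = cE2 w p K x0 x0' := by
  unfold cE2
  rw [cE_eq_of w p _ h]
  exact cE_congr w p (fun z => cE_eq_of w p _ h') x0

/-- A factor which is a function of `(p z, p z')`. -/
theorem cE2_pull (w : X → ℝ) (p : X → Y) {S : X → X → ℝ} {x x' : X} (hS : ∀ z z', p z = p x → p z' = p x' → S z z' = S x x')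
    (K : X → X → ℝ) : cE2 w p (fun z z' => S z z' * K z z') x x' = S x x' * cE2 w p K x x' := by
  rw [← cE2_mul]
  unfold cE2
  refine cE_fib_congr w p fun z hz => cE_fib_congr w p fun z' hz' => ?_
  beta_reduce
  rw [hS z z' hz hz']

theorem cE_ite_mul (w : X → ℝ) (p : X → Y) {A : X → Prop} [DecidablePred A] {f : X → ℝ} {x0 : X} {c : ℝ}
    (h : ∀ x, p x = p x0 → A x → f x ≤ c) (hc : 0 ≤ c) : cE w p (fun x => if A x then f x else 0) x0 ≤ c := by
  have h1 := cE_fib_mono w p (f := fun x => if A x then f x else 0) (f' := fun _ => c) (x0 := x0) fun x hx => by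
    split_ifs with ha
    · exact h x hx ha
    · exact hc
  rwa [cE_constf] at h1

end Rul

/-! ### The exchange of three replicas -/

variable {μ : Measure ℝ} {s : ℝ} {N : ℕ} {Q : Finset (Finset ℕ)} {Y : Type*} [DecidableEq Y] [Nonempty (Px Q)]

theorem NI_le_one (i j : ℕ) (S S' : Px Q) : NI i j S S' ≤ 1 := by
  unfold NI
  split_ifs <;> norm_num

theorem NI_symm (i j : ℕ) (S S' : Px Q) : NI i j S S' = NI i j S' S := by
  unfold NI
  exact if_congr ⟨fun h k hk hk' => (h k hk hk').symm, fun h k hk hk' => (h k hk hk').symm⟩ rfl rfl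

theorem NI_one {i j : ℕ} {S S' : Px Q} (h : Nm i j S.1 S'.1) : NI i j S S' = 1 := if_pos h

theorem NI_zero {i j : ℕ} {S S' : Px Q} (h : ¬ Nm i j S.1 S'.1) : NI i j S S' = 0 := if_neg h

open Classical in
/-- `x` meets `h` in the pieces `3 i`, `3 i + 2` and `h'` in the pieces `3 i + 1`, where `h` and `h'` do not meet. -/
def exI (τ l q : ℕ) (x h h' : Finset ℕ) : ℝ :=
  if MA τ l (range q) x h ∧ (∀ i ∈ range q, ¬ Nm (st τ l (3 * i + 1)) (st τ l (3 * i + 1) + l) x h') ∧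
    ∀ i ∈ range q, Nm (st τ l (3 * i + 1)) (st τ l (3 * i + 1) + l) h h' then 1 else 0

/-- **The exchange bound in the fibre.** -/
theorem ex3 [MxQ Q] (η : Env) {p : Px Q → Y} (hp : SwP p) (S0 : Px Q) (τ l q : ℕ) :
    cE (lw μ s η N Q) p (fun x => cE (lw μ s η N Q) p (fun h => cE (lw μ s η N Q) p (fun h' =>
      exI τ l q x.1 h.1 h'.1) S0) S0) S0 ≤ (1 / 2) ^ q := by
  classical
  set w := lw μ s η N Q with hw
  set R := fbQ p S0 with hR
  set v := fbw w p S0 with hv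
  have h1 := gd_le (swF_fb (μ := μ) (s := s) (N := N) η hp S0) τ l q
  have a1 : ∀ S T, ∑ U ∈ R, v U * exI τ l q S T U = cE w p (fun h' => exI τ l q S T h'.1) S0 := fun S T => sum_fbQ w p S0 _
  have a2 : ∀ S, ∑ T ∈ R, v T * cE w p (fun h' => exI τ l q S T h'.1) S0 =
      cE w p (fun h => cE w p (fun h' => exI τ l q S h.1 h'.1) S0) S0 := fun S =>
    sum_fbQ w p S0 fun T => cE w p (fun h' => exI τ l q S T h'.1) S0
  have a3 : ∑ S ∈ R, v S * cE w p (fun h => cE w p (fun h' => exI τ l q S h.1 h'.1) S0) S0 =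
      cE w p (fun x => cE w p (fun h => cE w p (fun h' => exI τ l q x.1 h.1 h'.1) S0) S0) S0 :=
    sum_fbQ w p S0 fun S => cE w p (fun h => cE w p (fun h' => exI τ l q S h.1 h'.1) S0) S0
  have e1 : cE w p (fun x => cE w p (fun h => cE w p (fun h' => exI τ l q x.1 h.1 h'.1) S0) S0) S0 =
      ∑ x ∈ R ×ˢ R ×ˢ R, wt v x * exI τ l q x.1 x.2.1 x.2.2 := by
    rw [← a3, sum_product]
    refine sum_congr rfl fun S _ => ?_
    rw [← a2, mul_sum, sum_product]
    refine sum_congr rfl fun T _ => ?_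
    rw [← a1, mul_sum, mul_sum]
    refine sum_congr rfl fun U _ => ?_
    show v S * (v T * (v U * _)) = v S * v T * v U * _
    ring
  have e2 : ∑ x ∈ R ×ˢ R ×ˢ R, wt v x * exI τ l q x.1 x.2.1 x.2.2 = ∑ x ∈ R43.Gd R τ l q, wt v x := by
    unfold R43.Gd
    rw [sum_filter]
    refine sum_congr rfl fun x _ => ?_
    unfold exI
    split_ifs <;> ring
  have h2 : ∑ x ∈ R43.Gd R τ l q, wt v x ≤ (1 / 2) ^ q := by
    rw [div_pow, one_pow, le_div_iff₀ (by positivity), mul_comm]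
    exact h1
  rw [e1, e2]
  exact h2

/-! ### Pairs of the same class -/

/-- The two replicas have the same class: both meet `x` on `[g0, g1]`, or none of them. -/
def sc (g0 g1 : ℕ) (x h h' : Px Q) : ℝ :=
  NI g0 g1 x h * NI g0 g1 x h' + (1 - NI g0 g1 x h) * (1 - NI g0 g1 x h')

theorem NI01 (i j : ℕ) (S S' : Px Q) : NI i j S S' = 0 ∨ NI i j S S' = 1 := by
  unfold NI
  split_ifs
  · exact Or.inr rfl
  · exact Or.inl rfl

theorem sc01 (g0 g1 : ℕ) (x h h' : Px Q) : sc g0 g1 x h h' = 0 ∨ sc g0 g1 x h h' = 1 := by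
  unfold sc
  rcases NI01 g0 g1 x h with h1 | h1 <;> rcases NI01 g0 g1 x h' with h2 | h2 <;> rw [h1, h2] <;> norm_num

theorem sc_nonneg (g0 g1 : ℕ) (x u v : Px Q) : 0 ≤ sc g0 g1 x u v := by
  rcases sc01 g0 g1 x u v with h | h
  · rw [h]
  · rw [h]
    norm_num

theorem sc_le_one (g0 g1 : ℕ) (x u v : Px Q) : sc g0 g1 x u v ≤ 1 := by
  rcases sc01 g0 g1 x u v with h | h
  · rw [h]
    norm_num
  · rw [h]

/-- Of three replicas two have the same class. -/
theorem sc_three (g0 g1 : ℕ) (x a b c : Px Q) : 1 ≤ sc g0 g1 x a b + (sc g0 g1 x a c + sc g0 g1 x b c) := by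
  unfold sc
  rcases NI01 g0 g1 x a with h1 | h1 <;> rcases NI01 g0 g1 x b with h2 | h2 <;> rcases NI01 g0 g1 x c with h3 | h3 <;>
    rw [h1, h2, h3] <;> norm_num

/-- The missing of the class condition by one replica. -/
def bad (τ l q L g0 g1 : ℕ) (x h : Px Q) : ℝ :=
  ∑ n ∈ range (3 * q), NI (st τ l n) (st τ l n + l) x h * (1 - NI g0 g1 x h) + NI g0 g1 x h * (1 - NI τ L x h)

theorem bad_nonneg (τ l q L g0 g1 : ℕ) (x h : Px Q) : 0 ≤ bad τ l q L g0 g1 x h := by
  unfold bad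
  refine add_nonneg (sum_nonneg fun n _ => mul_nonneg (NI_nonneg _ _ _ _) ?_) (mul_nonneg (NI_nonneg _ _ _ _) ?_)
  · linarith [NI_le_one g0 g1 x h]
  · linarith [NI_le_one τ L x h]

theorem bad_ge {τ l q L g0 g1 n : ℕ} (hn : n < 3 * q) {x h : Px Q} (h1 : Nm (st τ l n) (st τ l n + l) x.1 h.1)
    (h2 : NI g0 g1 x h = 0) : 1 ≤ bad τ l q L g0 g1 x h := by
  have h3 : NI (st τ l n) (st τ l n + l) x h * (1 - NI g0 g1 x h) = 1 := by
    rw [NI_one h1, h2]
    norm_num
  have h4 := single_le_sum (f := fun n => NI (st τ l n) (st τ l n + l) x h * (1 - NI g0 g1 x h)) (s := range (3 * q))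
    (fun n _ => mul_nonneg (NI_nonneg _ _ _ _) (by linarith [NI_le_one g0 g1 x h])) (mem_range.2 hn)
  beta_reduce at h4
  rw [h3] at h4
  have h5 : 0 ≤ NI g0 g1 x h * (1 - NI τ L x h) := mul_nonneg (NI_nonneg _ _ _ _) (by linarith [NI_le_one τ L x h])
  unfold bad
  linarith

/-- **The pointwise inequality.** -/
theorem sc_le {τ l q L g0 g1 : ℕ} (hL : τ + 3 * q * (l + 1) ≤ L) (x h h' : Px Q) :
    sc g0 g1 x h h' * NI τ L h h' ≤ exI τ l q x.1 h.1 h'.1 + (NI τ L x h * (NI τ L x h' * NI τ L h h') +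
      (bad τ l q L g0 g1 x h + bad τ l q L g0 g1 x h')) := by
  classical
  have e0 : 0 ≤ exI τ l q x.1 h.1 h'.1 := by
    unfold exI
    split_ifs <;> norm_num
  have b0 := bad_nonneg τ l q L g0 g1 x h
  have b1 := bad_nonneg τ l q L g0 g1 x h'
  have n0 : 0 ≤ NI τ L x h * (NI τ L x h' * NI τ L h h') :=
    mul_nonneg (NI_nonneg _ _ _ _) (mul_nonneg (NI_nonneg _ _ _ _) (NI_nonneg _ _ _ _))
  by_cases hh : Nm τ L h.1 h'.1
  · rw [NI_one hh, mul_one]
    rw [NI_one hh] at n0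
    rcases NI01 g0 g1 x h with g1' | g1' <;> rcases NI01 g0 g1 x h' with g2' | g2'
    · -- both meet
      have e1 : sc g0 g1 x h h' = 1 := by
        unfold sc
        rw [g1', g2']
        norm_num
      rw [e1]
      by_cases hg : MA τ l (range q) x.1 h.1 ∧ (∀ i ∈ range q, ¬ Nm (st τ l (3 * i + 1)) (st τ l (3 * i + 1) + l) x.1 h'.1) ∧
          ∀ i ∈ range q, Nm (st τ l (3 * i + 1)) (st τ l (3 * i + 1) + l) h.1 h'.1
      · have e2 : exI τ l q x.1 h.1 h'.1 = 1 := if_pos hg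
        rw [e2]
        linarith
      · have hmid : ∀ i ∈ range q, Nm (st τ l (3 * i + 1)) (st τ l (3 * i + 1) + l) h.1 h'.1 := fun i hi k hk1 hk2 => by
          rw [mem_range] at hi
          have g3 := le_st τ l (3 * i + 1)
          have g4 := st_end (τ := τ) (l := l) (q := q) (n := 3 * i + 1) (by omega)
          exact hh k (by omega) (by omega)
        by_cases hM : MA τ l (range q) x.1 h.1
        · have h3 : ¬ ∀ i ∈ range q, ¬ Nm (st τ l (3 * i + 1)) (st τ l (3 * i + 1) + l) x.1 h'.1 := fun h3 => hg ⟨hM, h3, hmid⟩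
          push Not at h3
          obtain ⟨i, hi, h4⟩ := h3
          rw [mem_range] at hi
          have := bad_ge (L := L) (show 3 * i + 1 < 3 * q by omega) h4 g2'
          linarith
        · unfold MA at hM
          push Not at hM
          obtain ⟨i, hi, h4⟩ := hM
          rw [mem_range] at hi
          by_cases h5 : Nm (st τ l (3 * i)) (st τ l (3 * i) + l) x.1 h.1
          · have := bad_ge (L := L) (show 3 * i < 3 * q by omega) h5 g1'
            linarith
          · have := bad_ge (L := L) (show 3 * i + 2 < 3 * q by omega) (h4 h5) g1'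
            linarith
    · have e1 : sc g0 g1 x h h' = 0 := by
        unfold sc
        rw [g1', g2']
        norm_num
      rw [e1]
      linarith
    · have e1 : sc g0 g1 x h h' = 0 := by
        unfold sc
        rw [g1', g2']
        norm_num
      rw [e1]
      linarith
    · -- both miss
      have e1 : sc g0 g1 x h h' = 1 := by
        unfold sc
        rw [g1', g2']
        norm_num
      have bb : ∀ v : Px Q, NI g0 g1 x v = 1 → 1 - NI τ L x v ≤ bad τ l q L g0 g1 x v := by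
        intro v hv
        unfold bad
        rw [hv]
        have : 0 ≤ ∑ n ∈ range (3 * q), NI (st τ l n) (st τ l n + l) x v * (1 - 1) := by
          rw [sub_self]
          simp
        linarith
      have b2 := bb h g1'
      have b3 := bb h' g2'
      rw [e1]
      rcases NI01 τ L x h with k1 | k1
      · rw [k1] at b2 n0 ⊢
        linarith
      · rcases NI01 τ L x h' with k2 | k2
        · rw [k2] at b3 n0 ⊢
          linarith
        · rw [k1, k2]
          linarith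
  · rw [NI_zero hh, mul_zero]
    rw [NI_zero hh] at n0
    linarith

/-- Given `x`: few paths of the class `meet` miss `x` in a piece, few of the class `miss` meet `x` in the region, and few pairs are apart
from `x` and from each other. -/
def Gz (w : Px Q → ℝ) (p : Px Q → Y) (τ l q L g0 g1 : ℕ) (e1 d3 : ℝ) (x : Px Q) : Prop :=
  (∀ n < 3 * q, cE w p (fun v => NI (st τ l n) (st τ l n + l) x v * (1 - NI g0 g1 x v)) x ≤ e1) ∧
    cE w p (fun v => NI g0 g1 x v * (1 - NI τ L x v)) x ≤ e1 ∧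
    cE2 w p (fun u v => NI τ L x u * (NI τ L x v * NI τ L u v)) x x ≤ d3

theorem cE_bad {w : Px Q → ℝ} {p : Px Q → Y} {τ l q L g0 g1 : ℕ} {e1 d3 : ℝ} {x : Px Q} (h : Gz w p τ l q L g0 g1 e1 d3 x) :
    cE w p (bad τ l q L g0 g1 x) x ≤ (3 * q + 1) * e1 := by
  unfold bad
  rw [cE_addf, cE_sumf]
  have h1 : ∑ n ∈ range (3 * q), cE w p (fun v => NI (st τ l n) (st τ l n + l) x v * (1 - NI g0 g1 x v)) x ≤ 3 * q * e1 := by
    refine (sum_le_sum fun n hn => h.1 n (mem_range.1 hn)).trans (le_of_eq ?_)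
    rw [sum_const, card_range, nsmul_eq_mul]
    push_cast
    ring
  linarith [h.2.1]

open Classical in
/-- **Two replicas of the same class are not apart.** -/
theorem pair_le [MxQ Q] (η : Env) {p : Px Q → Y} (hp : SwP p) (S0 : Px Q) {τ l q L g0 g1 : ℕ} (hL : τ + 3 * q * (l + 1) ≤ L)
    {e1 d3 : ℝ} (he : 0 ≤ e1) (hd : 0 ≤ d3) :
    cE (lw μ s η N Q) p (fun x => if Gz (lw μ s η N Q) p τ l q L g0 g1 e1 d3 x then
      cE2 (lw μ s η N Q) p (fun h h' => sc g0 g1 x h h' * NI τ L h h') x x else 0) S0 ≤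
      (1 / 2) ^ q + (d3 + 2 * ((3 * q + 1) * e1)) := by
  set w := lw μ s η N Q with hw
  have hx0 : ∀ x h h' : Px Q, 0 ≤ exI τ l q x.1 h.1 h'.1 := fun x h h' => by
    unfold exI
    split_ifs <;> norm_num
  have h1 : ∀ x, p x = p S0 → (if Gz w p τ l q L g0 g1 e1 d3 x then
      cE2 w p (fun h h' => sc g0 g1 x h h' * NI τ L h h') x x else 0) ≤
      cE w p (fun h => cE w p (fun h' => exI τ l q x.1 h.1 h'.1) S0) S0 + (d3 + 2 * ((3 * q + 1) * e1)) := by
    intro x hx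
    have c0 : 0 ≤ cE w p (fun h => cE w p (fun h' => exI τ l q x.1 h.1 h'.1) S0) S0 :=
      cE_nonneg w p (fun h => cE_nonneg w p (fun h' => hx0 x h h') _) _
    have c1 : 0 ≤ 2 * ((3 * (q : ℝ) + 1) * e1) := by positivity
    split_ifs with hg
    · have h2 := cE2_mono w p (fun h h' => sc_le (g0 := g0) (g1 := g1) hL x h h') x x
      have e2 : cE2 w p (fun h h' => exI τ l q x.1 h.1 h'.1) x x =
          cE w p (fun h => cE w p (fun h' => exI τ l q x.1 h.1 h'.1) S0) S0 := cE2_fib w p _ hx hx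
      rw [cE2_add, cE2_add, cE2_add, cE2_left, cE2_right, e2] at h2
      have h3 := cE_bad hg
      have h4 := hg.2.2
      linarith
    · linarith
  have h2 := cE_fib_mono w p h1
  rw [cE_addf, cE_constf] at h2
  exact h2.trans (add_le_add_left (ex3 η hp S0 τ l q) _)

/-! ### The mass of (own pair, three levels) -/

theorem cE_prod2 {X : Type*} [Fintype X] [Nonempty X] {Y : Type*} [DecidableEq Y] (v2 v3 : X → ℝ) (p : X → Y) (f f' : X → ℝ)
    (x : X) : cE v2 p f x * cE v3 p f' x = cE v2 p (fun z => cE v3 p (fun z' => f z * f' z') x) x := by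
  have a1 : (fun z => cE v3 p (fun z' => f z * f' z') x) = fun z => cE v3 p f' x * f z := by
    funext z
    rw [cE_mulf]
    ring
  rw [a1, cE_mulf]
  ring

/-- The mass of `(y, z, z')` with `g z' + δ < g y < g z - δ`, with the own factor `A y ∈ [0, 1]`. -/
def T4 (w : Px Q → ℝ) (p : Px Q → Y) (g : Px Q → ℝ) (δ : ℝ) (A : Px Q → ℝ) (x : Px Q) : ℝ :=
  cE w p (fun y => A y * (cE w p (upI g δ y) x * cE w p (dnI g δ y) x)) x

section T4s

variable {w g : Px Q → ℝ} {p : Px Q → Y} {δ : ℝ} {A : Px Q → ℝ}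

theorem T4_fib {x x0 : Px Q} (h : p x = p x0) : T4 w p g δ A x = T4 w p g δ A x0 := by
  unfold T4
  rw [cE_eq_of w p _ h]
  refine cE_congr w p (fun y => ?_) x0
  rw [cE_eq_of w p (upI g δ y) h, cE_eq_of w p (dnI g δ y) h]

theorem Mp_T4 : Mp p (T4 w p g δ A) := fun _ _ h => T4_fib h

theorem ud_mem (x y : Px Q) : 0 ≤ cE w p (upI g δ y) x * cE w p (dnI g δ y) x ∧
    cE w p (upI g δ y) x * cE w p (dnI g δ y) x ≤ 1 :=
  ⟨mul_nonneg (cE_nonneg _ _ (fun z => (upI_mem g δ y z).1) _) (cE_nonneg _ _ (fun z => (dnI_mem g δ y z).1) _),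
    mul_le_one₀ (cE_mem _ _ (fun z => (upI_mem g δ y z).1) (fun z => (upI_mem g δ y z).2) _).2
      (cE_nonneg _ _ (fun z => (dnI_mem g δ y z).1) _)
      (cE_mem _ _ (fun z => (dnI_mem g δ y z).1) (fun z => (dnI_mem g δ y z).2) _).2⟩

theorem T4_nonneg (hA0 : ∀ y, 0 ≤ A y) (x : Px Q) : 0 ≤ T4 w p g δ A x :=
  cE_nonneg w p (fun y => mul_nonneg (hA0 y) (ud_mem x y).1) x

theorem T4_le_own (hA0 : ∀ y, 0 ≤ A y) (x : Px Q) : T4 w p g δ A x ≤ cE w p A x :=
  cE_mono w p (fun y => mul_le_of_le_one_right (hA0 y) (ud_mem x y).2) x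

/-- Only pairs of the same class are needed. -/
theorem T4_le_pairs (hA1 : ∀ y, A y ≤ 1) {Z : Type*} [DecidableEq Z] {q0 : Px Q → Z} {NN : Px Q → Px Q → ℝ} {Lg : ℝ} (hδ : 0 < δ)
    (hL : Dif w q0 NN Lg g) (hc : Crs p q0) {g0 g1 : ℕ}
    (hout : ∀ u v : Px Q, q0 u = q0 v → ∀ k, g0 ≤ k → k ≤ g1 → ps u k = ps v k) (x : Px Q) :
    T4 w p g δ A x ≤ 3 * Lg / δ * cE2 w p (fun h h' => sc g0 g1 x h h' * NN h h') x x := by
  set K : Px Q → Px Q → ℝ := fun u v => sc g0 g1 x u v * |g u - g v| with hK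
  have sc0 : ∀ u v, 0 ≤ sc g0 g1 x u v := fun u v => sc_nonneg g0 g1 x u v
  have hK0 : ∀ u v, 0 ≤ K u v := fun u v => mul_nonneg (sc0 u v) (abs_nonneg _)
  have h1 : ∀ y z z' : Px Q, upI g δ y z * dnI g δ y z' ≤ δ⁻¹ * (K y z + (K y z' + K z z')) := by
    intro y z z'
    have k1 := hK0 y z
    have k2 := hK0 y z'
    have k3 := hK0 z z'
    have kk : 0 ≤ δ⁻¹ * (K y z + (K y z' + K z z')) := mul_nonneg (inv_nonneg.2 hδ.le) (by linarith)
    unfold upI dnI
    split_ifs with a1 a2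
    · rw [mul_one, ← div_eq_inv_mul, one_le_div hδ]
      have b1 : δ ≤ |g y - g z| := by
        rw [abs_sub_comm]
        exact le_trans (by linarith) (le_abs_self _)
      have b2 : δ ≤ |g y - g z'| := le_trans (by linarith) (le_abs_self _)
      have b3 : δ ≤ |g z - g z'| := le_trans (by linarith) (le_abs_self _)
      have c1 := mul_le_mul_of_nonneg_left b1 (sc0 y z)
      have c2 := mul_le_mul_of_nonneg_left b2 (sc0 y z')
      have c3 := mul_le_mul_of_nonneg_left b3 (sc0 z z')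
      have c4 := mul_le_mul_of_nonneg_right (sc_three g0 g1 x y z z') hδ.le
      show δ ≤ sc g0 g1 x y z * |g y - g z| + (sc g0 g1 x y z' * |g y - g z'| + sc g0 g1 x z z' * |g z - g z'|)
      linarith
    · rw [mul_zero]
      exact kk
    · rw [zero_mul]
      exact kk
    · rw [zero_mul]
      exact kk
  have h2 : ∀ y, cE w p (upI g δ y) x * cE w p (dnI g δ y) x ≤
      δ⁻¹ * (cE w p (K y) x + (cE w p (K y) x + cE2 w p K x x)) := by
    intro y
    rw [cE_prod2]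
    have a1 : ∀ z, cE w p (fun z' => upI g δ y z * dnI g δ y z') x ≤ δ⁻¹ * (K y z + (cE w p (K y) x + cE w p (K z) x)) := by
      intro z
      refine (cE_mono w p (h1 y z) x).trans (le_of_eq ?_)
      rw [cE_mulf, cE_addf, cE_constf, cE_addf]
    refine (cE_mono w p a1 x).trans (le_of_eq ?_)
    rw [cE_mulf, cE_addf, cE_addf, cE_constf]
    rfl
  have h3 : T4 w p g δ A x ≤ δ⁻¹ * (3 * cE2 w p K x x) := by
    have a1 : T4 w p g δ A x ≤ cE w p (fun y => δ⁻¹ * (cE w p (K y) x + (cE w p (K y) x + cE2 w p K x x))) x :=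
      cE_mono w p (fun y => (mul_le_of_le_one_left (ud_mem x y).1 (hA1 y)).trans (h2 y)) x
    refine a1.trans (le_of_eq ?_)
    rw [cE_mulf, cE_addf, cE_addf, cE_constf]
    show δ⁻¹ * (cE2 w p K x x + (cE2 w p K x x + cE2 w p K x x)) = _
    ring
  have h4 : cE2 w p K x x ≤ Lg * cE2 w p (fun h h' => sc g0 g1 x h h' * NN h h') x x := by
    have a1 : ∀ u v, K u v ≤ Lg * cE2 w q0 (fun h h' => sc g0 g1 x h h' * NN h h') u v := by
      intro u v
      have b1 : cE2 w q0 (fun h h' => sc g0 g1 x h h' * NN h h') u v = sc g0 g1 x u v * cE2 w q0 NN u v := by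
        refine cE2_pull w q0 (fun z z' hz hz' => ?_) NN
        have c1 : NI g0 g1 x z = NI g0 g1 x u := by
          unfold NI
          refine if_congr (forall_congr' fun k => forall_congr' fun h1 => forall_congr' fun h2 => ?_) rfl rfl
          rw [hout z u hz k h1 h2]
        have c2 : NI g0 g1 x z' = NI g0 g1 x v := by
          unfold NI
          refine if_congr (forall_congr' fun k => forall_congr' fun h1 => forall_congr' fun h2 => ?_) rfl rfl
          rw [hout z' v hz' k h1 h2]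
        unfold sc
        rw [c1, c2]
      rw [b1]
      have b2 := mul_le_mul_of_nonneg_left (hL u v) (sc0 u v)
      show sc g0 g1 x u v * |g u - g v| ≤ _
      refine b2.trans (le_of_eq ?_)
      ring
    have a2 := cE2_mono w p a1 x x
    rw [cE2_mul, cE2_tower w hc] at a2
    exact a2
  calc T4 w p g δ A x ≤ δ⁻¹ * (3 * cE2 w p K x x) := h3
    _ ≤ δ⁻¹ * (3 * (Lg * cE2 w p (fun h h' => sc g0 g1 x h h' * NN h h') x x)) :=
        mul_le_mul_of_nonneg_left (mul_le_mul_of_nonneg_left h4 (by norm_num)) (inv_nonneg.2 hδ.le)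
    _ = _ := by
        rw [div_eq_mul_inv]
        ring

end T4s

/-! ### The theorem -/

/-- The end of the region of `3 q` pieces. -/
def en (τ l q : ℕ) : ℕ := τ + 3 * q * (l + 1)

/-- `x` is told: an own tie (`¬ Bo x`) and a tie in the region `1` imply the class condition in the region `2`. -/
def okE (w : Px Q → ℝ) (p : Px Q → Y) (Bo : Px Q → Prop) (q : ℕ) (d e1 d3 : ℝ) (g0 g1 τ1 l1 τ2 l2 : ℕ) (x : Px Q) : Prop :=
  ¬ Bo x → bI w p τ1 l1 q d x = 0 → Gz w p τ2 l2 q (en τ2 l2 q) g0 g1 e1 d3 x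

theorem bI01 (w : Px Q → ℝ) (p : Px Q → Y) (τ l q : ℕ) (d : ℝ) (S : Px Q) : bI w p τ l q d S = 0 ∨ bI w p τ l q d S = 1 := by
  classical
  unfold bI
  split_ifs
  · exact Or.inr rfl
  · exact Or.inl rfl

theorem NI_sub {i j i' j' : ℕ} (h : i ≤ i') (h' : j' ≤ j) (S S' : Px Q) : NI i j S S' ≤ NI i' j' S S' := NI_mono h h' S S'

open Classical in
/-- One margin of the window. -/
def mg (w : Px Q → ℝ) (p : Px Q → Y) (q : ℕ) (d e1 d3 : ℝ) (g0 g1 τ1 l1 τ2 l2 : ℕ) (S0 x : Px Q) : ℝ :=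
  cE2 w p (NI τ1 (en τ1 l1 q)) S0 S0 * bI w p τ1 l1 q d x +
    (if Gz w p τ2 l2 q (en τ2 l2 q) g0 g1 e1 d3 x then
      cE2 w p (fun h h' => sc g0 g1 x h h' * NI τ2 (en τ2 l2 q) h h') x x else 0)

section Fin

variable {q : ℕ} {d e1 d3 : ℝ} {g0 g1 : ℕ}

theorem mg_nonneg (w : Px Q → ℝ) (p : Px Q → Y) (τ1 l1 τ2 l2 : ℕ) (S0 x : Px Q) :
    0 ≤ mg w p q d e1 d3 g0 g1 τ1 l1 τ2 l2 S0 x := by
  unfold mg
  refine add_nonneg (mul_nonneg (cE2_nonneg _ _ (fun _ _ => NI_nonneg _ _ _ _) _ _) ?_) ?_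
  · rcases bI01 w p τ1 l1 q d x with h | h <;> rw [h]
    norm_num
  · split_ifs
    · exact cE2_nonneg _ _ (fun _ _ => mul_nonneg (sc_nonneg _ _ _ _ _) (NI_nonneg _ _ _ _)) _ _
    · exact le_rfl

theorem mg_ge (w : Px Q → ℝ) (p : Px Q → Y) {c al τ1 l1 τ2 l2 : ℕ} (h1 : c ≤ τ1) (h1' : en τ1 l1 q ≤ al) (h2 : c ≤ τ2)
    (h2' : en τ2 l2 q ≤ al) {S0 x : Px Q} (hx : p x = p S0)
    (hok : bI w p τ1 l1 q d x = 0 → Gz w p τ2 l2 q (en τ2 l2 q) g0 g1 e1 d3 x) :
    cE2 w p (fun h h' => sc g0 g1 x h h' * NI c al h h') x x ≤ mg w p q d e1 d3 g0 g1 τ1 l1 τ2 l2 S0 x := by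
  unfold mg
  rcases bI01 w p τ1 l1 q d x with hb | hb
  · rw [if_pos (hok hb), hb, mul_zero, zero_add]
    exact cE2_mono w p (fun h h' => mul_le_mul_of_nonneg_left (NI_sub h2 h2' h h') (sc_nonneg _ _ _ _ _)) x x
  · rw [hb, mul_one, ← cE2_fib w p _ hx hx]
    have k1 : cE2 w p (fun h h' => sc g0 g1 x h h' * NI c al h h') x x ≤ cE2 w p (NI τ1 (en τ1 l1 q)) x x :=
      cE2_mono w p (fun h h' => by
        have a1 := NI_sub h1 h1' h h'
        have a2 := sc_le_one g0 g1 x h h'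
        have a3 := NI_nonneg c al h h'
        nlinarith) x x
    refine k1.trans (le_add_of_nonneg_right ?_)
    split_ifs
    · exact cE2_nonneg _ _ (fun _ _ => mul_nonneg (sc_nonneg _ _ _ _ _) (NI_nonneg _ _ _ _)) _ _
    · exact le_rfl

/-- The mean of one margin. -/
theorem cE_mg [MxQ Q] (η : Env) {p : Px Q → Y} (hp : SwP p) (S0 : Px Q) (hd : 0 ≤ d) (he : 0 ≤ e1) (hd3 : 0 ≤ d3)
    (τ1 l1 τ2 l2 : ℕ) :
    cE (lw μ s η N Q) p (mg (lw μ s η N Q) p q d e1 d3 g0 g1 τ1 l1 τ2 l2 S0) S0 ≤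
      ((1 / 2) ^ q + 3 * q * d) + ((1 / 2) ^ q + (d3 + 2 * ((3 * q + 1) * e1))) := by
  unfold mg
  rw [cE_addf, cE_mulf]
  refine add_le_add ?_ (pair_le η hp S0 le_rfl he hd3)
  rw [mul_comm]
  exact robP η hp S0 τ1 l1 q hd le_rfl

open Classical in
/-- **THREE LEVELS TOGETHER WITH AN OWN FACTOR ARE TOLD FROM ONE PATH.** `Bo x`: the path `x` has no own tie; then the own factor is small in
the mean (`hBA`). No order of the regions is assumed. -/
theorem T4A_small [MxQ Q] (η : Env) {p : Px Q → Y} (hp : SwP p) {Z : Type*} [DecidableEq Z] {q0 : Px Q → Z} (hc : Crs p q0)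
    {g : Px Q → ℝ} {δ Lg : ℝ} (hδ : 0 < δ) (hLg : 0 ≤ Lg) {c al be e : ℕ} (hL : Dif (lw μ s η N Q) q0 (NM c al be e) Lg g)
    (hout : ∀ u v : Px Q, q0 u = q0 v → ∀ k, g0 ≤ k → k ≤ g1 → ps u k = ps v k)
    {A : Px Q → ℝ} (hA0 : ∀ y, 0 ≤ A y) (hA1' : ∀ y, A y ≤ 1) {Bo : Px Q → Prop} {eo : ℝ} (S0 : Px Q)
    (hBA : cE (lw μ s η N Q) p (fun x => if Bo x then 1 else 0) S0 * cE (lw μ s η N Q) p A S0 ≤ eo)
    {a1 m1 a2 m2 : ℕ} (hA1 : c ≤ a1) (hA1e : en a1 m1 q ≤ al) (hA2 : c ≤ a2) (hA2e : en a2 m2 q ≤ al)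
    {b1 n1 b2 n2 : ℕ} (hB1 : be ≤ b1) (hB1e : en b1 n1 q ≤ e) (hB2 : be ≤ b2) (hB2e : en b2 n2 q ≤ e)
    (hd : 0 ≤ d) (he : 0 ≤ e1) (hd3 : 0 ≤ d3) :
    cE (lw μ s η N Q) p (fun x => if okE (lw μ s η N Q) p Bo q d e1 d3 g0 g1 a1 m1 a2 m2 x ∧
      okE (lw μ s η N Q) p Bo q d e1 d3 g0 g1 b1 n1 b2 n2 x then 1 else 0) S0 * T4 (lw μ s η N Q) p g δ A S0 ≤
      eo + 2 * (3 * Lg / δ) * (((1 / 2) ^ q + 3 * q * d) + ((1 / 2) ^ q + (d3 + 2 * ((3 * q + 1) * e1)))) := by
  set w := lw μ s η N Q with hw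
  have hC : 0 ≤ 3 * Lg / δ := by positivity
  set MA' : Px Q → ℝ := mg w p q d e1 d3 g0 g1 a1 m1 a2 m2 S0 with hMA
  set MB' : Px Q → ℝ := mg w p q d e1 d3 g0 g1 b1 n1 b2 n2 S0 with hMB
  have hA' := cE_nonneg w p hA0 S0
  have key : ∀ x, p x = p S0 → T4 w p g δ A S0 * (if okE w p Bo q d e1 d3 g0 g1 a1 m1 a2 m2 x ∧
      okE w p Bo q d e1 d3 g0 g1 b1 n1 b2 n2 x then 1 else 0) ≤
      cE w p A S0 * (if Bo x then 1 else 0) + (3 * Lg / δ) * (MA' x + MB' x) := by
    intro x hx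
    have m1' := mg_nonneg (q := q) (d := d) (e1 := e1) (d3 := d3) (g0 := g0) (g1 := g1) w p a1 m1 a2 m2 S0 x
    have m2' := mg_nonneg (q := q) (d := d) (e1 := e1) (d3 := d3) (g0 := g0) (g1 := g1) w p b1 n1 b2 n2 S0 x
    have m3 : 0 ≤ (3 * Lg / δ) * (MA' x + MB' x) := mul_nonneg hC (add_nonneg m1' m2')
    by_cases hb : Bo x
    · rw [if_pos hb, mul_one]
      have k1 : T4 w p g δ A S0 ≤ cE w p A S0 := T4_le_own hA0 S0
      have k2 := T4_nonneg (w := w) (p := p) (g := g) (δ := δ) hA0 S0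
      split_ifs
      · linarith
      · linarith
    · rw [if_neg hb, mul_zero, zero_add]
      split_ifs with hok
      · rw [mul_one, ← T4_fib hx]
        refine (T4_le_pairs hA1' hδ hL hc hout x).trans (mul_le_mul_of_nonneg_left ?_ hC)
        have k1 := cE2_mono w p (K := fun h h' => sc g0 g1 x h h' * NM c al be e h h')
          (K' := fun h h' => sc g0 g1 x h h' * NI c al h h' + sc g0 g1 x h h' * NI be e h h') (fun h h' => by
            rw [← mul_add]
            exact mul_le_mul_of_nonneg_left (NM_le c al be e h h') (sc_nonneg _ _ _ _ _)) x x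
        rw [cE2_add] at k1
        exact k1.trans (add_le_add (mg_ge w p hA1 hA1e hA2 hA2e hx (hok.1 hb)) (mg_ge w p hB1 hB1e hB2 hB2e hx (hok.2 hb)))
      · rw [mul_zero]
        exact m3
  have h1 := cE_fib_mono w p key
  rw [cE_mulf, cE_addf, cE_mulf, cE_mulf, cE_addf] at h1
  have h3 := cE_mg (q := q) (d := d) (e1 := e1) (d3 := d3) (g0 := g0) (g1 := g1) η hp S0 hd he hd3 a1 m1 a2 m2
    (μ := μ) (s := s) (N := N)
  have h4 := cE_mg (q := q) (d := d) (e1 := e1) (d3 := d3) (g0 := g0) (g1 := g1) η hp S0 hd he hd3 b1 n1 b2 n2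
    (μ := μ) (s := s) (N := N)
  have h5 := mul_le_mul_of_nonneg_left (add_le_add h3 h4) hC
  rw [mul_comm]
  rw [mul_comm] at hBA
  refine h1.trans ((add_le_add hBA h5).trans (le_of_eq ?_))
  ring

open Classical in
/-- **THE SAME WITH AN OWN PAIR OF THE FIBRE**: `A y` = mass of the paths of the fibre apart from `y` on `[o0, o1]`. -/
theorem T4_small [MxQ Q] (η : Env) {p : Px Q → Y} (hp : SwP p) {Z : Type*} [DecidableEq Z] {q0 : Px Q → Z} (hc : Crs p q0)
    {g : Px Q → ℝ} {δ Lg : ℝ} (hδ : 0 < δ) (hLg : 0 ≤ Lg) {c al be e : ℕ} (hL : Dif (lw μ s η N Q) q0 (NM c al be e) Lg g)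
    (hout : ∀ u v : Px Q, q0 u = q0 v → ∀ k, g0 ≤ k → k ≤ g1 → ps u k = ps v k)
    {o0 o1 τo lo : ℕ} (ho : o0 ≤ τo) (ho' : en τo lo q ≤ o1)
    {a1 m1 a2 m2 : ℕ} (hA1 : c ≤ a1) (hA1e : en a1 m1 q ≤ al) (hA2 : c ≤ a2) (hA2e : en a2 m2 q ≤ al)
    {b1 n1 b2 n2 : ℕ} (hB1 : be ≤ b1) (hB1e : en b1 n1 q ≤ e) (hB2 : be ≤ b2) (hB2e : en b2 n2 q ≤ e)
    (hd : 0 ≤ d) (he : 0 ≤ e1) (hd3 : 0 ≤ d3) (S0 : Px Q) :
    cE (lw μ s η N Q) p (fun x => if okE (lw μ s η N Q) p (fun x => bI (lw μ s η N Q) p τo lo q d x = 1) q d e1 d3 g0 g1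
      a1 m1 a2 m2 x ∧ okE (lw μ s η N Q) p (fun x => bI (lw μ s η N Q) p τo lo q d x = 1) q d e1 d3 g0 g1 b1 n1 b2 n2 x
      then 1 else 0) S0 * T4 (lw μ s η N Q) p g δ (mI (lw μ s η N Q) p o0 o1) S0 ≤
      ((1 / 2) ^ q + 3 * q * d) + 2 * (3 * Lg / δ) * (((1 / 2) ^ q + 3 * q * d) +
        ((1 / 2) ^ q + (d3 + 2 * ((3 * q + 1) * e1)))) := by
  refine T4A_small η hp hc hδ hLg hL hout (mI_nonneg _ _ _ _) (fun y => ?_) S0 ?_ hA1 hA1e hA2 hA2e hB1 hB1e hB2 hB2e hd he hd3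
  · exact (cE_mem _ p (fun _ => NI_nonneg _ _ _ _) (fun _ => NI_le_one _ _ _ _) y).2
  · have h2 := robP (μ := μ) (s := s) (N := N) η hp S0 τo lo q hd (L := en τo lo q) le_rfl
    refine le_trans (mul_le_mul (le_of_eq (cE_congr _ p (fun x => ?_) S0)) ?_ (cE_nonneg _ _ (mI_nonneg _ _ _ _) _)
      (cE_nonneg _ _ (fun x => ?_) _)) h2
    · rcases bI01 (lw μ s η N Q) p τo lo q d x with h | h
      · rw [h, if_neg (by norm_num)]
      · rw [h, if_pos rfl]
    · rw [← cE2_mI]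
      exact cE2_mono _ p (fun h h' => NI_sub ho ho' h h') S0 S0
    · rcases bI01 (lw μ s η N Q) p τo lo q d x with h | h
      · rw [h]
      · rw [h]
        norm_num

end Fin

end

end Pool.W7d29a1.C0.O1
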