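import Pool.Agent.W_7d29a1_C0.Loc7Y
import Pool.Agent.W_7d29a1_C0.Own1

/-!
CURV0 (MP_7d29a1_pr), leaf T4: THE THIRD TERM OF THE TWO SIDED COMPARISON WITH A FACTOR OF THE WHOLE PATH (helper7).

`t4_abs`: as `t3_abs`, with a factor `A` in `[0, 1]` of the whole path; `t4_mod`: in the frame, in terms of `O1.T4`; `t4_wtD`, `t4_wtP`:
the transport (plain replicas over `E0D`, plans over `E0X`).
-/

set_option autoImplicit false

namespace Pool.W7d29a1.C0.H7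

open Finset MeasureTheory Filter Topology Pool.Agent.W_7d29a1_F Pool.Agent.W_7d29a1_X Pool.Agent.W_7d29a1_C0.Mod92
  Pool.Agent.W_7d29a1_C0.H32 Pool.W7d29a1.C0.H27
open Pool.W7d29a1.C0 (gz gm gz_pos rep rep_mono rep_smul)
open Pool.W7d29a1.C0.VT31
open Pool.W7d29a1.C0.K1 (upI dnI upI_mem dnI_mem)
open Pool.W7d29a1.C0.O1 (T4 T4_fib Mp_T4 T4_nonneg)
open Pool.Agent.W_7d29a1_C0.Swap57 (Ifb Obl)
open Pool.W7d29a1.C0.I52 (Plan ev)
open scoped ENNReal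

noncomputable section

/-! ### Abstract part -/

section Abs

variable {X : Type*} [Fintype X] [Nonempty X] {Y Y' V ι : Type*} [DecidableEq Y] [DecidableEq Y'] [DecidableEq V]

open Classical in
/-- **The dichotomy with a factor of the whole path.** -/
theorem t4_abs {w w1 w2 : X → ℝ} {B m : ℝ} (h1 : ∀ x, |w1 x - w x| ≤ B) (h12 : ∀ x, |w1 x - w2 x| ≤ B)
    (h2 : ∀ x, |w2 x - w x| ≤ B) {q : X → Y'} {R : Finset ι} {p : ι → X → Y} (hc : ∀ r ∈ R, Crs q (p r)) {σ : ι → X → V}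
    {Vs : Finset V} (hV : ∀ r ∈ R, ∀ x, σ r x ∈ Vs) {up dn : X → X → ℝ} (hu0 : ∀ x a, 0 ≤ up x a) (hd0 : ∀ x a, 0 ≤ dn x a)
    (hu : ∀ r ∈ R, ∀ x y y', σ r y = σ r y' → cE w (p r) (up x) y = cE w (p r) (up x) y')
    (hd : ∀ r ∈ R, ∀ x y y', σ r y = σ r y' → cE w2 (p r) (dn x) y = cE w2 (p r) (dn x) y') {A : X → ℝ}
    (hA0 : ∀ x, 0 ≤ A x) (hA1 : ∀ x, A x ≤ 1) {n : ℝ} (hn0 : 0 < n) (hn : ((R.card * Vs.card : ℕ) : ℝ) ≤ n)
    (hm : 32 * n ^ 2 * Real.exp (8 * B) ≤ Real.exp m) (S : X) :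
    cE w1 q (fun x => A x *
        if (∃ r ∈ R, 1 / 2 ≤ cE w (p r) (up x) x) ∧ ∃ r ∈ R, 1 / 2 ≤ cE w2 (p r) (dn x) x then 1 else 0) S ≤
      Real.exp (-m) +
        if Real.exp (-(4 * m)) ≤ cE w q (fun x => A x * (cE w q (up x) S * cE w q (dn x) S)) S then 1 else 0 := by
  set LB : X → Prop := fun x => (∃ r ∈ R, 1 / 2 ≤ cE w (p r) (up x) x) ∧ ∃ r ∈ R, 1 / 2 ≤ cE w2 (p r) (dn x) x with hLB
  set θ : ℝ := Real.exp (-m) / (2 * n) with hθ
  have hθ0 : 0 < θ := div_pos (Real.exp_pos _) (by linarith)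
  set Lt : X → Prop := fun x => ∃ r ∈ R, cE w1 q (fun y => if σ r y = σ r x then 1 else 0) S < θ with hLt
  have hAm : ∀ (x : X) {a : ℝ}, 0 ≤ a → 0 ≤ A x * a ∧ A x * a ≤ a := fun x a ha => ⟨mul_nonneg (hA0 x) ha, by
    nlinarith [hA1 x]⟩
  by_cases hbig : cE w1 q (fun x => A x * if LB x then 1 else 0) S ≤ Real.exp (-m)
  · refine hbig.trans ?_
    have : (0 : ℝ) ≤ if Real.exp (-(4 * m)) ≤ cE w q (fun x => A x * (cE w q (up x) S * cE w q (dn x) S)) S then 1 else 0 := by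
      split_ifs <;> norm_num
    linarith
  rw [not_le] at hbig
  have hle1 : cE w1 q (fun x => A x * if LB x then 1 else 0) S ≤ 1 := by
    have h3 := cE_mono w1 q (f := fun x => A x * if LB x then (1 : ℝ) else 0) (g := fun _ => 1)
      (fun x => by
        refine (hAm x ?_).2.trans ?_ <;> split_ifs <;> norm_num) S
    rwa [cE_one] at h3
  -- the heavy paths
  have h3 : Real.exp (-m) / 2 ≤ cE w1 q (fun x => A x * if LB x ∧ ¬ Lt x then 1 else 0) S := by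
    have h4 := light7 w1 q R σ Vs hV hθ0.le S
    have h5 : cE w1 q (fun x => A x * if LB x then 1 else 0) S ≤ cE w1 q (fun x => A x * if LB x ∧ ¬ Lt x then 1 else 0) S +
        cE w1 q (fun x => if Lt x then 1 else 0) S := by
      have e := congrFun (cE_add w1 q (fun x => A x * if LB x ∧ ¬ Lt x then (1 : ℝ) else 0) (fun x => if Lt x then 1 else 0)) S
      rw [Pi.add_apply] at e
      rw [← e]
      refine cE_mono w1 q (fun x => ?_) S
      rw [Pi.add_apply]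
      by_cases h6 : LB x <;> by_cases h7 : Lt x <;> simp [h6, h7, hA1 x]
    have h6 : ((R.card * Vs.card : ℕ) : ℝ) * θ ≤ Real.exp (-m) / 2 := by
      rw [hθ, mul_div_assoc', div_le_div_iff₀ (by linarith) (by norm_num)]
      nlinarith [Real.exp_pos (-m)]
    have h7 : cE w1 q (fun x => if Lt x then 1 else 0) S ≤ ((R.card * Vs.card : ℕ) : ℝ) * θ := h4
    linarith
  have hB2 : 0 < Real.exp (-(2 * B)) := Real.exp_pos _
  have h4 : Real.exp (-(2 * B)) * (Real.exp (-m) / 2) ≤ cE w q (fun x => A x * if LB x ∧ ¬ Lt x then 1 else 0) S :=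
    (mul_le_mul_of_nonneg_left h3 hB2.le).trans (cE_tl7 h1 q (fun x => (hAm x (by split_ifs <;> norm_num)).1) S)
  -- the masses of the two alternatives
  set κu : ℝ := 1 / 2 * (Real.exp (-(2 * B)) * θ) with hκu
  set κd : ℝ := Real.exp (-(2 * B)) * (1 / 2 * (Real.exp (-(2 * B)) * θ)) with hκd
  have hκu0 : 0 < κu := by positivity
  have hκd0 : 0 < κd := by positivity
  have h5 : ∀ x, LB x ∧ ¬ Lt x → κu * κd ≤ cE w q (up x) S * cE w q (dn x) S := by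
    rintro x ⟨⟨⟨r, hr, h6⟩, r', hr', h7⟩, h8⟩
    rw [hLt] at h8
    push Not at h8
    have h9 : κu ≤ cE w q (up x) S := by
      refine le_trans ?_ (mass_site7 (hc r hr) (hu0 x) (hu r hr x) h6 S)
      rw [hκu]
      refine mul_le_mul_of_nonneg_left ?_ (by norm_num)
      exact (mul_le_mul_of_nonneg_left (h8 r hr) hB2.le).trans (cE_tl7 h1 q (fun x => by split_ifs <;> norm_num) S)
    have h10 : κd ≤ cE w q (dn x) S := by
      refine le_trans ?_ (cE_tl7 h2 q (hd0 x) S)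
      rw [hκd]
      refine mul_le_mul_of_nonneg_left ?_ hB2.le
      refine le_trans ?_ (mass_site7 (hc r' hr') (hd0 x) (hd r' hr' x) h7 S)
      refine mul_le_mul_of_nonneg_left ?_ (by norm_num)
      exact (mul_le_mul_of_nonneg_left (h8 r' hr') hB2.le).trans (cE_tl7 h12 q (fun x => by split_ifs <;> norm_num) S)
    exact mul_le_mul h9 h10 hκd0.le (hκu0.le.trans h9)
  have h6 : Real.exp (-(4 * m)) ≤ cE w q (fun x => A x * (cE w q (up x) S * cE w q (dn x) S)) S := by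
    have h7 : cE w q (fun x => κu * κd * (A x * if LB x ∧ ¬ Lt x then 1 else 0)) S ≤
        cE w q (fun x => A x * (cE w q (up x) S * cE w q (dn x) S)) S := by
      refine cE_mono w q (fun x => ?_) S
      have h8 : 0 ≤ cE w q (up x) S * cE w q (dn x) S := mul_nonneg (cE_nonneg w q (hu0 x) S) (cE_nonneg w q (hd0 x) S)
      by_cases h : LB x ∧ ¬ Lt x
      · rw [if_pos h, mul_one, mul_comm]
        exact mul_le_mul_of_nonneg_left (h5 x h) (hA0 x)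
      · rw [if_neg h, mul_zero, mul_zero]
        exact mul_nonneg (hA0 x) h8
    rw [cE_smul7] at h7
    refine le_trans ?_ h7
    refine le_trans ?_ (mul_le_mul_of_nonneg_left h4 (mul_pos hκu0 hκd0).le)
    -- numbers
    have e1 : κu * κd * (Real.exp (-(2 * B)) * (Real.exp (-m) / 2)) =
        Real.exp (-(2 * B)) ^ 4 * Real.exp (-m) ^ 3 / (32 * n ^ 2) := by
      rw [hκu, hκd, hθ]
      field_simp
      ring
    rw [e1, le_div_iff₀ (by positivity)]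
    have e2 : Real.exp (-(2 * B)) ^ 4 = Real.exp (-(8 * B)) := by
      rw [← Real.exp_nat_mul]
      congr 1
      push_cast
      ring
    have e3 : Real.exp (-m) ^ 3 = Real.exp (-(3 * m)) := by
      rw [← Real.exp_nat_mul]
      congr 1
      push_cast
      ring
    rw [e2, e3]
    have e4 : Real.exp (-(4 * m)) * (32 * n ^ 2) = Real.exp (-(4 * m)) * (32 * n ^ 2 * Real.exp (8 * B)) * Real.exp (-(8 * B)) := by
      have : Real.exp (8 * B) * Real.exp (-(8 * B)) = 1 := by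
        rw [← Real.exp_add, add_neg_cancel, Real.exp_zero]
      calc Real.exp (-(4 * m)) * (32 * n ^ 2) = Real.exp (-(4 * m)) * (32 * n ^ 2) * 1 := by ring
        _ = Real.exp (-(4 * m)) * (32 * n ^ 2) * (Real.exp (8 * B) * Real.exp (-(8 * B))) := by rw [this]
        _ = _ := by ring
    rw [e4]
    have e5 : Real.exp (-(3 * m)) = Real.exp (-(4 * m)) * Real.exp m := by
      rw [← Real.exp_add]
      congr 1
      ring
    rw [e5]
    calc Real.exp (-(4 * m)) * (32 * n ^ 2 * Real.exp (8 * B)) * Real.exp (-(8 * B)) ≤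
          Real.exp (-(4 * m)) * Real.exp m * Real.exp (-(8 * B)) :=
        mul_le_mul_of_nonneg_right (mul_le_mul_of_nonneg_left hm (Real.exp_pos _).le) (Real.exp_pos _).le
      _ = _ := by ring
  rw [if_pos h6]
  have := Real.exp_pos (-m)
  linarith

end Abs

variable {μ : Measure ℝ} {s : ℝ} {N : ℕ} {P : Finset (Finset ℕ)}

/-! ### Levels -/

theorem lv7_mono {w u : Px P → ℝ} {δ δ' : ℝ} (h : δ' ≤ δ) (m : ℕ) (S : Px P) : lv7 w u δ' m S ≤ lv7 w u δ m S := by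
  have : Nonempty (Px P) := ⟨S⟩
  unfold lv7
  refine cE_mono w _ (fun S' => ?_) S
  split_ifs with h1 h2
  · exact le_rfl
  · exact absurd (by linarith) h2
  · norm_num
  · exact le_rfl

/-- A level which is missed with threshold `1 / 4` and `δ` is missed with threshold `1 / 2` and a smaller `δ`. -/
theorem not_HL7_of {w u : Px P → ℝ} {δ δ' : ℝ} (hδ : δ' ≤ δ) {c K : ℕ} {S : Px P} (h : ¬ NL7 w u δ c K S) :
    ¬ HL7 w u δ' c K S := fun h' => h fun m h1 h2 => by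
  have h3 := (h' m h1 h2).trans (lv7_mono hδ m S)
  exact (by norm_num : (1 / 4 : ℝ) ≤ 1 / 2).trans h3

/-- The two failures of the users. -/
theorem Ms7.of_nl {δ B : ℝ} {b j : ℕ} {t δ1 δ2 : ℝ} {c K : ℕ} {η : Env} {a : ℤ} {S : Px P} (hδ : δ2 ≤ δ1)
    (h1 : ¬ NL7 (lw μ s η N P) (fun S => (t - a) * gj μ s η δ B b j a S) δ1 c K S)
    (h2 : ¬ HL7 (wt μ s η N P δ B b j a (-a)) (fun S => (t + a) * gj μ s η δ B b j a S) δ2 c K S) :
    Ms7 μ s N P δ B b j t δ2 c K η a S := ⟨not_HL7_of hδ h1, h2⟩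

/-! ### `T4` -/

theorem T4_mono_env {w w' : Px P → ℝ} [Nonempty (Px P)] {D : ℝ} (h : ∀ x, |w' x - w x| ≤ D) {Y : Type*} [DecidableEq Y]
    (q : Px P → Y) (g : Px P → ℝ) (δ : ℝ) {A A' : Px P → ℝ} (hA0 : ∀ x, 0 ≤ A x) (hA : ∀ x, A x ≤ A' x) (S : Px P) :
    Real.exp (-(6 * D)) * T4 w' q g δ A S ≤ T4 w q g δ A' S := by
  have e : Real.exp (-(6 * D)) = Real.exp (-(2 * D)) * (Real.exp (-(2 * D)) * Real.exp (-(2 * D))) := by
    rw [← Real.exp_add, ← Real.exp_add]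
    congr 1
    ring
  have hp := Real.exp_pos (-(2 * D))
  have hn : ∀ y, 0 ≤ cE w q (upI g δ y) S * cE w q (dnI g δ y) S := fun y =>
    mul_nonneg (cE_nonneg w q (fun z => (upI_mem g δ y z).1) S) (cE_nonneg w q (fun z => (dnI_mem g δ y z).1) S)
  unfold T4
  have h1 : Real.exp (-(2 * D)) * cE w' q (fun y => A y * (cE w q (upI g δ y) S * cE w q (dnI g δ y) S)) S ≤
      cE w q (fun y => A y * (cE w q (upI g δ y) S * cE w q (dnI g δ y) S)) S :=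
    cE_tl7 h q (fun y => mul_nonneg (hA0 y) (hn y)) S
  have h2 : cE w q (fun y => A y * (cE w q (upI g δ y) S * cE w q (dnI g δ y) S)) S ≤
      cE w q (fun y => A' y * (cE w q (upI g δ y) S * cE w q (dnI g δ y) S)) S :=
    cE_mono w q (fun y => mul_le_mul_of_nonneg_right (hA y) (hn y)) S
  refine le_trans ?_ (h1.trans h2)
  rw [e, mul_assoc]
  refine mul_le_mul_of_nonneg_left ?_ hp.le
  rw [← cE_smul7]
  refine cE_mono w' q (fun y => ?_) S
  have h3 := cE_tl7 h q (fun z => (upI_mem g δ y z).1) S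
  have h4 := cE_tl7 h q (fun z => (dnI_mem g δ y z).1) S
  have h5 := mul_le_mul h3 h4 (mul_nonneg hp.le (cE_nonneg w' q (fun z => (dnI_mem g δ y z).1) S))
    (cE_nonneg w q (fun z => (upI_mem g δ y z).1) S)
  calc Real.exp (-(2 * D)) * Real.exp (-(2 * D)) * (A y * (cE w' q (upI g δ y) S * cE w' q (dnI g δ y) S)) =
        A y * (Real.exp (-(2 * D)) * cE w' q (upI g δ y) S * (Real.exp (-(2 * D)) * cE w' q (dnI g δ y) S)) := by ring
    _ ≤ _ := mul_le_mul_of_nonneg_left h5 (hA0 y)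

/-- The masses above and below, at the two corners. -/
theorem updn7 {w : Px P → ℝ} [Nonempty (Px P)] {Y : Type*} [DecidableEq Y] (q : Px P → Y) (g : Px P → ℝ) {a t δ : ℝ}
    (ha : a = 1 ∨ a = -1) (ht : |t| ≤ 1) (hδ : 0 ≤ δ) (x S : Px P) :
    cE w q (fun y => if (t - a) * g x - δ ≤ (t - a) * g y then 0 else 1) S *
      cE w q (fun y => if (t + a) * g x - δ ≤ (t + a) * g y then 0 else 1) S ≤
      cE w q (upI g (δ / 2) x) S * cE w q (dnI g (δ / 2) x) S := by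
  obtain ⟨t1, t2⟩ := abs_le.1 ht
  have k0 : ∀ τ : ℝ, ∀ y : Px P, (0 : ℝ) ≤ if τ * g x - δ ≤ τ * g y then 0 else 1 := fun τ y => by split_ifs <;> norm_num
  -- a positive coefficient: below; a negative one: above
  have kd : ∀ τ : ℝ, 0 ≤ τ → τ ≤ 2 → ∀ y : Px P, (if τ * g x - δ ≤ τ * g y then (0 : ℝ) else 1) ≤ dnI g (δ / 2) x y := by
    intro τ h0 h2 y
    unfold dnI
    split_ifs with h3 h4 h5
    · norm_num
    · exact le_rfl
    · exact le_rfl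
    · exfalso
      rw [not_le] at h3
      rw [not_lt] at h5
      by_cases h6 : g x - g y ≤ 0
      · nlinarith
      · rw [not_le] at h6
        nlinarith
  have ku : ∀ τ : ℝ, τ ≤ 0 → -2 ≤ τ → ∀ y : Px P, (if τ * g x - δ ≤ τ * g y then (0 : ℝ) else 1) ≤ upI g (δ / 2) x y := by
    intro τ h0 h2 y
    unfold upI
    split_ifs with h3 h4 h5
    · norm_num
    · exact le_rfl
    · exact le_rfl
    · exfalso
      rw [not_le] at h3
      rw [not_lt] at h5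
      by_cases h6 : g y - g x ≤ 0
      · nlinarith
      · rw [not_le] at h6
        nlinarith
  rcases ha with rfl | rfl
  · exact mul_le_mul (cE_mono w q (ku _ (by linarith) (by linarith)) S) (cE_mono w q (kd _ (by linarith) (by linarith)) S)
      (cE_nonneg w q (k0 _) S) (cE_nonneg w q (fun z => (upI_mem g _ x z).1) S)
  · rw [mul_comm (cE w q (upI g (δ / 2) x) S)]
    exact mul_le_mul (cE_mono w q (kd _ (by linarith) (by linarith)) S) (cE_mono w q (ku _ (by linarith) (by linarith)) S)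
      (cE_nonneg w q (k0 _) S) (cE_nonneg w q (fun z => (dnI_mem g _ x z).1) S)

open Classical in
/-- **T4 in the frame.** -/
theorem t4_mod [Nonempty (Px P)] (hP : ∀ r ≤ N, Fam N r P) {c K : ℕ} (hN : c + K ≤ N) {B : ℝ} {A : Env → Finset ℕ → ℝ}
    (hA : PA c (B / 2) A) {a t δ m : ℝ} (ha : a = 1 ∨ a = -1) (ht : |t| ≤ 1) (hδ : 0 ≤ δ)
    (hm : 8 * B + 4 * Real.log (N + 1) + 4 ≤ m) (η : Env) {V : Px P → ℝ} (hV0 : ∀ x, 0 ≤ V x) (hV1 : ∀ x, V x ≤ 1) (S : Px P) :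
    cE (fun S => lw μ s η N P S + (t - a) * tA c A η S) (pJ 0 (c + K))
        (fun x => V x * if LB7 (lw μ s η N P) (fun S => lw μ s η N P S + (-a - a) * tA c A η S)
          (fun S => (t - a) * tA c A η S) (fun S => (t + a) * tA c A η S) δ c K x then 1 else 0) S ≤
      Real.exp (-m) + if Real.exp (-(4 * m)) ≤ T4 (lw μ s η N P) (pJ 0 (c + K)) (tA c A η) (δ / 2) V S then 1 else 0 := by
  have hg : ∀ x : Px P, |tA c A η x| ≤ B / 2 := fun x => hA.bd η _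
  have hab : |a| = 1 := by rcases ha with rfl | rfl <;> norm_num
  have b1 : ∀ τ : ℝ, |τ| ≤ 2 → ∀ x : Px P, |τ * tA c A η x| ≤ B := fun τ hτ x => by
    rw [abs_mul]
    calc |τ| * |tA c A η x| ≤ 2 * (B / 2) := mul_le_mul hτ (hg x) (abs_nonneg _) (by norm_num)
      _ = B := by ring
  have b2 : |t - a| ≤ 2 := (abs_sub _ _).trans (by linarith)
  have b3 : |t + a| ≤ 2 := (abs_add_le _ _).trans (by linarith)
  have b4 : |-a - a| ≤ 2 := (abs_sub _ _).trans (by rw [abs_neg]; linarith)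
  have key := t4_abs (X := Px P) (w := lw μ s η N P) (w1 := fun S => lw μ s η N P S + (t - a) * tA c A η S)
    (w2 := fun S => lw μ s η N P S + (-a - a) * tA c A η S) (B := B) (m := m)
    (fun x => by
      simp only [add_sub_cancel_left]
      exact b1 _ b2 x)
    (fun x => by
      have e : lw μ s η N P x + (t - a) * tA c A η x - (lw μ s η N P x + (-a - a) * tA c A η x) = (t + a) * tA c A η x := by ring
      rw [e]
      exact b1 _ b3 x)
    (fun x => by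
      simp only [add_sub_cancel_left]
      exact b1 _ b4 x)
    (q := pJ 0 (c + K)) (R := Ioc c (c + K)) (p := fun r => pJ 0 r)
    (fun r hr => crs_pJ le_rfl (mem_Ioc.1 hr).2) (σ := fun r x => ps x r) (Vs := Icc (0 : ℤ) N)
    (fun r hr x => mem_Icc.2 ⟨ps_nonneg x _, (ps_le x _).trans (by
      have := (mem_Ioc.1 hr).2
      exact_mod_cast this.trans hN)⟩)
    (up := fun x y => if (t - a) * tA c A η x - δ ≤ (t - a) * tA c A η y then 0 else 1)
    (dn := fun x y => if (t + a) * tA c A η x - δ ≤ (t + a) * tA c A η y then 0 else 1)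
    (fun x y => by split_ifs <;> norm_num) (fun x y => by split_ifs <;> norm_num)
    (fun r hr x y y' h => site7 (mem_Ioc.1 hr).1.le ((mem_Ioc.1 hr).2.trans hN) (hP _ ((mem_Ioc.1 hr).2.trans hN)) η
      (fun T => if (t - a) * tA c A η x - δ ≤ (t - a) * A η T then 0 else 1) h)
    (fun r hr x y y' h => site7t (mem_Ioc.1 hr).1.le ((mem_Ioc.1 hr).2.trans hN) (hP _ ((mem_Ioc.1 hr).2.trans hN)) η
      (fun T => (-a - a) * A η T) (fun T => if (t + a) * tA c A η x - δ ≤ (t + a) * A η T then 0 else 1) h)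
    (A := V) hV0 hV1 (n := (N + 1 : ℝ) * (N + 1)) (by positivity)
    (by
      rw [Nat.card_Ioc, Int.card_Icc]
      have e1 : c + K - c = K := by omega
      have e2 : ((N : ℤ) + 1 - 0).toNat = N + 1 := by omega
      rw [e1, e2]
      push_cast
      have h1 : (K : ℝ) ≤ N + 1 := by
        have : K ≤ N + 1 := by omega
        exact_mod_cast this
      exact mul_le_mul_of_nonneg_right h1 (by positivity))
    (num_t3 hm) S
  refine le_trans (cE_mono _ _ (fun x => ?_) S) (key.trans ?_)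
  · refine mul_le_mul_of_nonneg_left ?_ (hV0 x)
    by_cases h : LB7 (lw μ s η N P) (fun S => lw μ s η N P S + (-a - a) * tA c A η S) (fun S => (t - a) * tA c A η S)
          (fun S => (t + a) * tA c A η S) δ c K x
    · have h1 := not_HL7 h.1
      have h2 := not_HL7 h.2
      rw [if_pos h, if_pos ⟨h1, h2⟩]
    · rw [if_neg h]
      split_ifs <;> norm_num
  · refine add_le_add le_rfl ?_
    have h3 : cE (lw μ s η N P) (pJ 0 (c + K)) (fun x => V x *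
        (cE (lw μ s η N P) (pJ 0 (c + K)) (fun y => if (t - a) * tA c A η x - δ ≤ (t - a) * tA c A η y then 0 else 1) S *
          cE (lw μ s η N P) (pJ 0 (c + K)) (fun y => if (t + a) * tA c A η x - δ ≤ (t + a) * tA c A η y then 0 else 1) S)) S ≤
        T4 (lw μ s η N P) (pJ 0 (c + K)) (tA c A η) (δ / 2) V S :=
      cE_mono _ _ (fun x => mul_le_mul_of_nonneg_left (updn7 _ _ ha ht hδ x S) (hV0 x)) S
    split_ifs with h4 h5 h5
    · exact le_rfl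
    · exact absurd (h4.trans h3) h5
    · norm_num
    · exact le_rfl

open Classical in
/-- **T4, one environment.** -/
theorem ms7_leA [Nonempty (Px P)] (hP : ∀ r ≤ N, Fam N r P) {c K : ℕ} (hN : c + K ≤ N) {δ B : ℝ} (hB : 0 ≤ B) {b j : ℕ}
    (hc : j + b ≤ c) {a : ℤ} (ha : a = 1 ∨ a = -1) {t δ1 m : ℝ} (ht : |t| ≤ 1) (hδ : 0 ≤ δ1)
    (hm : 8 * B + 4 * Real.log (N + 1) + 4 ≤ m) (η : Env) {V : Px P → ℝ} (hV0 : ∀ x, 0 ≤ V x) (hV1 : ∀ x, V x ≤ 1) (S : Px P) :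
    cE (wt μ s η N P δ B b j a t) (pJ 0 (c + K)) (fun x => V x * iM7 μ s N P δ B b j t δ1 c K η a x) S ≤
      Real.exp (-m) +
        if Real.exp (-(4 * m)) ≤ T4 (lw μ s η N P) (pJ 0 (c + K)) (gj μ s η δ B b j a) (δ1 / 2) V S then 1 else 0 := by
  have ha' : |(a : ℝ)| ≤ 1 := by rcases ha with rfl | rfl <;> norm_num
  have ha2 : (a : ℝ) = 1 ∨ (a : ℝ) = -1 := by rcases ha with rfl | rfl <;> norm_num
  have h1 := t4_mod (μ := μ) (s := s) hP hN (gjU_PA (μ := μ) (s := s) (δ := δ) hB ha' hc) ha2 ht hδ hm η hV0 hV1 S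
  rw [gjU_tA hc] at h1
  have e1 : ∀ τ : ℝ, wt μ s η N P δ B b j a τ = fun S => lw μ s η N P S + (τ - a) * gj μ s η δ B b j a S := fun τ => by
    funext S
    unfold wt
    rw [Pi.add_apply, Pi.smul_apply, smul_eq_mul]
  unfold iM7 Ms7
  rw [e1 t, e1 (-a)]
  exact h1

/-! ### The cut off of the future -/

section Tr

variable [Nonempty (Px P)]

/-- The mass `T4` with the factor `V` is at least `exp (- m)`: a function of what the path does behind the row `z`. -/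
def jA7 (μ : Measure ℝ) (s : ℝ) (N : ℕ) (P : Finset (Finset ℕ)) [Nonempty (Px P)] (δ B : ℝ) (b j z : ℕ) (d m : ℝ)
    (V : Px P → ℝ) (η : Env) (a : ℤ) (S : Px P) : ℝ :=
  if Real.exp (-m) ≤ T4 (lw μ s η N P) (pJ 0 z) (gj μ s η δ B b j a) d V S then 1 else 0

theorem jA7_01 {δ B : ℝ} {b j z : ℕ} {d m : ℝ} {V : Px P → ℝ} {η : Env} {a : ℤ} {S : Px P} :
    0 ≤ jA7 μ s N P δ B b j z d m V η a S ∧ jA7 μ s N P δ B b j z d m V η a S ≤ 1 := by
  unfold jA7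
  split_ifs <;> norm_num

theorem jA7_mp (δ B : ℝ) (b j z : ℕ) (d m : ℝ) (V : Px P → ℝ) (η : Env) (a : ℤ) :
    Mp (pJ 0 z) (jA7 μ s N P δ B b j z d m V η a) := by
  intro S S' h
  unfold jA7
  rw [Mp_T4 (w := lw μ s η N P) (p := pJ 0 z) (g := gj μ s η δ B b j a) (δ := d) (A := V) S S' h]

theorem meas_ud7 (δ B : ℝ) (b j : ℕ) (a : ℤ) (d : ℝ) (x y : Px P) :
    (Measurable fun η => upI (gj μ s η δ B b j a) d x y) ∧ Measurable fun η => dnI (gj μ s η δ B b j a) d x y := by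
  unfold upI dnI
  refine ⟨Measurable.ite ?_ measurable_const measurable_const, Measurable.ite ?_ measurable_const measurable_const⟩
  · exact measurableSet_lt ((meas_gj7 δ B b j a x).add_const d) (meas_gj7 δ B b j a y)
  · exact measurableSet_lt (meas_gj7 δ B b j a y) ((meas_gj7 δ B b j a x).sub_const d)

theorem meas_jA7 (δ B : ℝ) (b j z : ℕ) (d m : ℝ) (a : ℤ) {V : Env → Px P → ℝ} (hV : ∀ x, Measurable fun η => V η x) (S : Px P) :
    Measurable fun η => jA7 μ s N P δ B b j z d m (V η) η a S := by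
  unfold jA7 T4
  refine Measurable.ite (measurableSet_le measurable_const ?_) measurable_const measurable_const
  refine meas_cE (fun x => meas_lw x) (fun x => (hV x).mul ?_) _ _
  exact (meas_cE (fun x => meas_lw x) (fun y => (meas_ud7 δ B b j a d x y).1) _ _).mul
    (meas_cE (fun x => meas_lw x) (fun y => (meas_ud7 δ B b j a d x y).2) _ _)

/-- **T4, one environment, for any weights of the tuples.** -/
theorem t4_one (hP : ∀ r ≤ N, Fam N r P) {c K : ℕ} (hN : c + K ≤ N) {δ B : ℝ} (hB : 0 ≤ B) {b j : ℕ} (hc : j + b ≤ c) {a : ℤ}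
    (ha : a = 1 ∨ a = -1) {t δ1 m : ℝ} (ht : |t| ≤ 1) (hδ : 0 ≤ δ1) (hm : 8 * B + 4 * Real.log (N + 1) + 4 ≤ m) (η : Env)
    {V : Px P → ℝ} (hV0 : ∀ x, 0 ≤ V x) (hV1 : ∀ x, V x ≤ 1) {k : ℕ} {ρ Ψ : (Fin k → Px P) → ℝ} {i : Fin k}
    (h : Ifb (wt μ s η N P δ B b j a t) (pJ 0 (c + K)) ρ i) (hρ : ∀ x, 0 ≤ ρ x) (hΨ0 : ∀ x, 0 ≤ Ψ x)
    (hΨ : Obl (pJ 0 (c + K)) Ψ i) {Λ : ℝ} (hΛ : ∀ x, Ψ x ≤ Λ) :
    ∑ x, ρ x * (V (x i) * iM7 μ s N P δ B b j t δ1 c K η a (x i) * Ψ x) ≤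
      ∑ x, ρ x * (jA7 μ s N P δ B b j (c + K) (δ1 / 2) (4 * m) V η a (x i) * Ψ x) + Λ * Real.exp (-m) * ∑ x, ρ x := by
  have h1 := t3_sum h hρ hΨ0 hΨ (f := fun x => V x * iM7 μ s N P δ B b j t δ1 c K η a x)
    (g := fun S => Real.exp (-m) + jA7 μ s N P δ B b j (c + K) (δ1 / 2) (4 * m) V η a S)
    (fun S => ms7_leA hP hN hB hc ha ht hδ hm η hV0 hV1 S)
  refine h1.trans ?_
  rw [mul_sum, ← sum_add_distrib]
  refine sum_le_sum fun x _ => ?_
  have h2 := mul_le_mul_of_nonneg_left (mul_le_mul_of_nonneg_left (hΛ x) (Real.exp_pos (-m)).le) (hρ x)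
  linarith

/-- The passenger. -/
theorem pasA7 {c K : ℕ} {δ B : ℝ} (hB : 0 ≤ B) {b j : ℕ} (hc : j + b ≤ c) {a : ℤ} {d m : ℝ}
    (hm : 12 * B ≤ m) {V V' : Px P → ℝ} (hV0 : ∀ x, 0 ≤ V x) (hV : ∀ x, V x ≤ V' x) {η ζ : Env}
    (h1 : ∀ q, q ∉ slb c K → ζ q = η q) (h2 : ∀ q, |ζ q - η q| ≤ 2 * B / K) (S : Px P) :
    jA7 μ s N P δ B b j (c + K) d (4 * m) V η a S ≤ jA7 μ s N P δ B b j (c + K) d (5 * m) V' ζ a S := by
  unfold jA7
  split_ifs with h3 h4 h4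
  · exact le_rfl
  · exfalso
    refine h4 ?_
    rw [gj_loc7 hc h1]
    have h5 := T4_mono_env (w := lw μ s ζ N P) (w' := lw μ s η N P) (D := 2 * B)
      (fun x => by
        rw [abs_sub_comm]
        exact lw_near7 (by linarith) h1 h2 x) (pJ 0 (c + K)) (gj μ s η δ B b j a) d hV0 hV S
    refine le_trans ?_ h5
    refine le_trans ?_ (mul_le_mul_of_nonneg_left h3 (Real.exp_pos _).le)
    rw [← Real.exp_add]
    exact Real.exp_le_exp.2 (by linarith)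
  · norm_num
  · exact le_rfl

/-- **T4 over E0D**: plain replicas; the replicas of `F` are seen in full, the replica `i` is not one of them. -/
theorem t4_wtD [IsProbabilityMeasure μ] (hP : ∀ r ≤ N, Fam N r P) {k c K : ℕ} {F : Fin k → Prop}
    {δ' B ε K' : ℝ} (h : ∀ U : Env → Finset ℕ → ℝ, PA c B U → E0D μ s k N P F δ' c K (2 * B / K) (tA c U) ε K') (hB : 0 ≤ B)
    (hN : c + K ≤ N) {δ t : ℝ} (ht : |t| ≤ 1) {b j : ℕ} (hc : j + b ≤ c) {G : Set Env} (hG : MeasurableSet G)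
    {Ψ Ψ' : Env × Finset ℕ → (Fin k → Px P) → ℝ} (h0 : ∀ ω x, 0 ≤ Ψ ω x) (hΛ : ∀ ω x, Ψ ω x ≤ (N : ℝ) ^ K')
    (h0' : ∀ ω x, 0 ≤ Ψ' ω x) (hΛ' : ∀ ω x, Ψ' ω x ≤ (N : ℝ) ^ K') (hm : ∀ x A, Measurable fun η => Ψ (η, A) x)
    (hm' : ∀ x A, Measurable fun η => Ψ' (η, A) x)
    (hΨ : ∀ ω, ∀ x x' : Fin k → Px P, (∀ i, F i → x i = x' i) → (∀ i, pB (c + K) (x i) = pB (c + K) (x' i)) → Ψ ω x = Ψ ω x')
    (hNL : ∀ A, ∀ η ∈ G, ∀ x, Ψ (η, A) x ≠ 0 → ∀ i, F i →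
      NL7 (lw μ s η N P) (fun S => (t - sg A j) * gj μ s η δ B b j (sg A j) S) δ' c K (x i))
    (hpas : ∀ A, ∀ η ∈ G, ∀ ζ : Env, (∀ q, q ∉ slb c K → ζ q = η q) → (∀ q, |ζ q - η q| ≤ 2 * B / K) →
      ∀ x, Ψ (η, A) x ≤ Ψ' (ζ, A) x) {i : Fin k} (hi : ¬ F i)
    {V V' : Env × Finset ℕ → Px P → ℝ} (hV0 : ∀ ω x, 0 ≤ V ω x) (hV1 : ∀ ω x, V ω x ≤ 1)
    (hVm : ∀ x A, Measurable fun η => V (η, A) x) (hVm' : ∀ x A, Measurable fun η => V' (η, A) x)
    (hVp : ∀ A, ∀ η ∈ G, ∀ ζ : Env, (∀ q, q ∉ slb c K → ζ q = η q) → (∀ q, |ζ q - η q| ≤ 2 * B / K) →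
      ∀ x, V (η, A) x ≤ V' (ζ, A) x) {δ1 m : ℝ} (hδ1 : 0 ≤ δ1) (hmB : 12 * B + 4 * Real.log (N + 1) + 4 ≤ m) :
    ∫ ω, rep k (wt μ s ω.1 N P δ B b j (sg ω.2 j) t)
        (fun x => V ω (x i) * iM7 μ s N P δ B b j t δ1 c K ω.1 (sg ω.2 j) (x i) * Ψ ω x) ∂(Pm μ N) ≤
      (N : ℝ) ^ ε * (∫ ω, rep k (wm μ s N P ω)
          (fun x => jA7 μ s N P δ B b j (c + K) (δ1 / 2) (5 * m) (V' ω) ω.1 (sg ω.2 j) (x i) * Ψ' ω x) ∂(Pm μ N) +
        (N : ℝ) ^ (-K')) + (N : ℝ) ^ K' * (law μ Gᶜ).toReal + (N : ℝ) ^ K' * Real.exp (-m) := by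
  have hlog : 0 ≤ Real.log (N + 1) := Real.log_nonneg (by
    have : (0 : ℝ) ≤ N := Nat.cast_nonneg _
    linarith)
  have hNK : 0 ≤ (N : ℝ) ^ K' := Real.rpow_nonneg (Nat.cast_nonneg _) _
  obtain ⟨Φ, hΦ⟩ : ∃ Φ : Env × Finset ℕ → (Fin k → Px P) → ℝ, ∀ ω x, Φ ω x =
    jA7 μ s N P δ B b j (c + K) (δ1 / 2) (4 * m) (V ω) ω.1 (sg ω.2 j) (x i) * Ψ ω x := ⟨_, fun _ _ => rfl⟩
  have hΦm : ∀ x A, Measurable fun η => Φ (η, A) x := fun x A => by
    simp only [hΦ]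
    exact (meas_jA7 δ B b j (c + K) (δ1 / 2) (4 * m) (sg A j) (V := fun η => V (η, A)) (fun x => hVm x A) (x i)).mul (hm x A)
  have hΦ0 : ∀ ω x, 0 ≤ Φ ω x := fun ω x => by
    rw [hΦ]
    exact mul_nonneg jA7_01.1 (h0 ω x)
  have hΦΛ : ∀ ω x, Φ ω x ≤ (N : ℝ) ^ K' := fun ω x => by
    rw [hΦ]
    exact mul_le7 jA7_01 (h0 ω x) (hΛ ω x)
  have key := e0_wtD (μ := μ) (s := s) h hB (δ := δ) ht hc hG hΦ0 hΦΛ
    (Ψ' := fun ω x => jA7 μ s N P δ B b j (c + K) (δ1 / 2) (5 * m) (V' ω) ω.1 (sg ω.2 j) (x i) * Ψ' ω x)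
    (fun ω x => mul_nonneg jA7_01.1 (h0' ω x)) (fun ω x => mul_le7 jA7_01 (h0' ω x) (hΛ' ω x)) hΦm
    (fun x A => (meas_jA7 δ B b j (c + K) (δ1 / 2) (5 * m) (sg A j) (V := fun η => V' (η, A)) (fun x => hVm' x A) (x i)).mul
      (hm' x A))
    (fun ω x x' hF hx => by
      rw [hΦ, hΦ, hΨ ω x x' hF hx, jA7_mp δ B b j (c + K) (δ1 / 2) (4 * m) (V ω) ω.1 (sg ω.2 j) (x i) (x' i)
        (crs_pJ0 le_rfl _ _ (hx i))])
    (fun A η hη x hx => hNL A η hη x fun h => hx (by rw [hΦ, h, mul_zero]))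
    (fun A η hη ζ hz1 hz2 x => by
      rw [hΦ]
      exact mul_le_mul (pasA7 hB hc (by linarith) (hV0 _) (hVp A η hη ζ hz1 hz2) hz1 hz2 (x i)) (hpas A η hη ζ hz1 hz2 x)
        (h0 _ _) jA7_01.1)
  -- one environment
  have h1 : ∀ ω : Env × Finset ℕ, rep k (wt μ s ω.1 N P δ B b j (sg ω.2 j) t)
      (fun x => V ω (x i) * iM7 μ s N P δ B b j t δ1 c K ω.1 (sg ω.2 j) (x i) * Ψ ω x) ≤
      rep k (wt μ s ω.1 N P δ B b j (sg ω.2 j) t) (Φ ω) + (N : ℝ) ^ K' * Real.exp (-m) := fun ω => by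
    have hi1 : Obl (pJ 0 (c + K)) (Ψ ω) i := fun x S hS => by
      refine hΨ ω _ _ (fun l hl => ?_) fun l => ?_
      · rw [Function.update_of_ne]
        rintro rfl
        exact hi hl
      · by_cases hl : l = i
        · subst hl
          rw [Function.update_self]
          exact crs_Bp _ _ hS
        · rw [Function.update_of_ne hl]
    have h2 := t4_one (μ := μ) (s := s) (δ := δ) (m := m) hP hN hB hc (sg_or ω.2 j) ht hδ1 (by linarith) ω.1 (hV0 ω) (hV1 ω)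
      (ifb_rep7 (wt μ s ω.1 N P δ B b j (sg ω.2 j) t) (pJ 0 (c + K)) i)
      (fun x => div_nonneg (Real.exp_pos _).le (pow_nonneg (gz_pos _).le _)) (h0 ω) hi1 (hΛ ω)
    have e1 := H41.rep_one k (wt μ s ω.1 N P δ B b j (sg ω.2 j) t)
    rw [rep_sum7] at e1
    simp only [mul_one] at e1
    rw [e1, mul_one] at h2
    rw [rep_sum7, rep_sum7]
    simp only [hΦ]
    exact h2
  have hint : Integrable (fun ω => rep k (wt μ s ω.1 N P δ B b j (sg ω.2 j) t) (Φ ω)) (Pm μ N) := by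
    refine Integrable.of_bound (meas_pm7 (fun A => ?_)).aestronglyMeasurable ((N : ℝ) ^ K') (Eventually.of_forall fun ω => ?_)
    · refine meas_rep (fun S => ?_) fun x => hΦm x A
      simp only [wt_tA (N := N) (P := P) (t := t) (δ := δ) (B := B) (a := sg A j) hc]
      exact (meas_lw S).add ((gwU_PA (μ := μ) (s := s) (δ := δ) hB (abs_sg A j).le ht hc).ms _)
    · rw [Real.norm_eq_abs, abs_of_nonneg (rep_nonneg7 _ (hΦ0 ω))]
      exact rep_le_const7 _ (hΦΛ ω)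
  have h2 : ∫ ω, rep k (wt μ s ω.1 N P δ B b j (sg ω.2 j) t)
      (fun x => V ω (x i) * iM7 μ s N P δ B b j t δ1 c K ω.1 (sg ω.2 j) (x i) * Ψ ω x) ∂(Pm μ N) ≤
      ∫ ω, (rep k (wt μ s ω.1 N P δ B b j (sg ω.2 j) t) (Φ ω) + (N : ℝ) ^ K' * Real.exp (-m)) ∂(Pm μ N) :=
    integral_mono_of_nonneg (Eventually.of_forall fun ω => rep_nonneg7 _ fun x =>
      mul_nonneg (mul_nonneg (hV0 ω (x i)) iM7_01.1) (h0 ω x)) (hint.add (integrable_const _)) (Eventually.of_forall h1)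
  rw [integral_add hint (integrable_const _), integral_const, probReal_univ, one_smul] at h2
  exact h2.trans (add_le_add key le_rfl)

/-- **T4 over E0X**: plans; all the replicas are seen behind the slab only, besides the factor `V` of the replica `i`. -/
theorem t4_wtP [IsProbabilityMeasure μ] (hP : ∀ r ≤ N, Fam N r P) {k c K : ℕ} {B ε K' : ℝ}
    (h : ∀ U : Env → Finset ℕ → ℝ, PA c B U → E0X μ s k N P c K (pB (c + K)) (2 * B / K) (tA c U) ε K') (hB : 0 ≤ B)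
    (hN : c + K ≤ N) {δ t : ℝ} (ht : |t| ≤ 1) {b j : ℕ} (hc : j + b ≤ c) {Pl : Plan (Px P) k} (hMg : Marg Pl)
    (hSt : Sat (pB (c + K)) Pl) {G : Set Env} (hG : MeasurableSet G)
    {Ψ Ψ' : Env × Finset ℕ → (Fin k → Px P) → ℝ} (h0 : ∀ ω x, 0 ≤ Ψ ω x) (hΛ : ∀ ω x, Ψ ω x ≤ (N : ℝ) ^ K')
    (h0' : ∀ ω x, 0 ≤ Ψ' ω x) (hΛ' : ∀ ω x, Ψ' ω x ≤ (N : ℝ) ^ K') (hm : ∀ x A, Measurable fun η => Ψ (η, A) x)
    (hm' : ∀ x A, Measurable fun η => Ψ' (η, A) x)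
    (hΨ : ∀ ω, ∀ x x' : Fin k → Px P, (∀ i, pB (c + K) (x i) = pB (c + K) (x' i)) → Ψ ω x = Ψ ω x')
    (hpas : ∀ A, ∀ η ∈ G, ∀ ζ : Env, (∀ q, q ∉ slb c K → ζ q = η q) → (∀ q, |ζ q - η q| ≤ 2 * B / K) →
      ∀ x, Ψ (η, A) x ≤ Ψ' (ζ, A) x) (i : Fin k)
    {V V' : Env × Finset ℕ → Px P → ℝ} (hV0 : ∀ ω x, 0 ≤ V ω x) (hV1 : ∀ ω x, V ω x ≤ 1)
    (hVm : ∀ x A, Measurable fun η => V (η, A) x) (hVm' : ∀ x A, Measurable fun η => V' (η, A) x)
    (hVp : ∀ A, ∀ η ∈ G, ∀ ζ : Env, (∀ q, q ∉ slb c K → ζ q = η q) → (∀ q, |ζ q - η q| ≤ 2 * B / K) →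
      ∀ x, V (η, A) x ≤ V' (ζ, A) x) {δ1 m : ℝ} (hδ1 : 0 ≤ δ1) (hmB : 12 * B + 4 * Real.log (N + 1) + 4 ≤ m) :
    ∫ ω, ev Pl (wt μ s ω.1 N P δ B b j (sg ω.2 j) t)
        (fun x => V ω (x i) * iM7 μ s N P δ B b j t δ1 c K ω.1 (sg ω.2 j) (x i) * Ψ ω x) ∂(Pm μ N) ≤
      (N : ℝ) ^ ε * (∫ ω, ev Pl (wm μ s N P ω)
          (fun x => jA7 μ s N P δ B b j (c + K) (δ1 / 2) (5 * m) (V' ω) ω.1 (sg ω.2 j) (x i) * Ψ' ω x) ∂(Pm μ N) +
        (N : ℝ) ^ (-K')) + (N : ℝ) ^ K' * (law μ Gᶜ).toReal + (N : ℝ) ^ K' * Real.exp (-m) := by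
  have hlog : 0 ≤ Real.log (N + 1) := Real.log_nonneg (by
    have : (0 : ℝ) ≤ N := Nat.cast_nonneg _
    linarith)
  have hNK : 0 ≤ (N : ℝ) ^ K' := Real.rpow_nonneg (Nat.cast_nonneg _) _
  obtain ⟨Φ, hΦ⟩ : ∃ Φ : Env × Finset ℕ → (Fin k → Px P) → ℝ, ∀ ω x, Φ ω x =
    jA7 μ s N P δ B b j (c + K) (δ1 / 2) (4 * m) (V ω) ω.1 (sg ω.2 j) (x i) * Ψ ω x := ⟨_, fun _ _ => rfl⟩
  have hΦm : ∀ x A, Measurable fun η => Φ (η, A) x := fun x A => by
    simp only [hΦ]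
    exact (meas_jA7 δ B b j (c + K) (δ1 / 2) (4 * m) (sg A j) (V := fun η => V (η, A)) (fun x => hVm x A) (x i)).mul (hm x A)
  have hΦ0 : ∀ ω x, 0 ≤ Φ ω x := fun ω x => by
    rw [hΦ]
    exact mul_nonneg jA7_01.1 (h0 ω x)
  have hΦΛ : ∀ ω x, Φ ω x ≤ (N : ℝ) ^ K' := fun ω x => by
    rw [hΦ]
    exact mul_le7 jA7_01 (h0 ω x) (hΛ ω x)
  have key := e0_wtP (μ := μ) (s := s) h hB (δ := δ) ht hc hMg hSt hG hΦ0 hΦΛ
    (Ψ' := fun ω x => jA7 μ s N P δ B b j (c + K) (δ1 / 2) (5 * m) (V' ω) ω.1 (sg ω.2 j) (x i) * Ψ' ω x)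
    (fun ω x => mul_nonneg jA7_01.1 (h0' ω x)) (fun ω x => mul_le7 jA7_01 (h0' ω x) (hΛ' ω x)) hΦm
    (fun x A => (meas_jA7 δ B b j (c + K) (δ1 / 2) (5 * m) (sg A j) (V := fun η => V' (η, A)) (fun x => hVm' x A) (x i)).mul
      (hm' x A))
    (fun ω x x' hx => by
      rw [hΦ, hΦ, hΨ ω x x' hx, jA7_mp δ B b j (c + K) (δ1 / 2) (4 * m) (V ω) ω.1 (sg ω.2 j) (x i) (x' i)
        (crs_pJ0 le_rfl _ _ (hx i))])
    (fun A η hη ζ hz1 hz2 x => by
      rw [hΦ]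
      exact mul_le_mul (pasA7 hB hc (by linarith) (hV0 _) (hVp A η hη ζ hz1 hz2) hz1 hz2 (x i)) (hpas A η hη ζ hz1 hz2 x)
        (h0 _ _) jA7_01.1)
  -- one environment
  have h1 : ∀ ω : Env × Finset ℕ, ev Pl (wt μ s ω.1 N P δ B b j (sg ω.2 j) t)
      (fun x => V ω (x i) * iM7 μ s N P δ B b j t δ1 c K ω.1 (sg ω.2 j) (x i) * Ψ ω x) ≤
      ev Pl (wt μ s ω.1 N P δ B b j (sg ω.2 j) t) (Φ ω) + (N : ℝ) ^ K' * Real.exp (-m) := fun ω => by
    have hi1 : Obl (pJ 0 (c + K)) (Ψ ω) i := fun x S hS => by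
      refine hΨ ω _ _ fun l => ?_
      by_cases hl : l = i
      · subst hl
        rw [Function.update_self]
        exact crs_Bp _ _ hS
      · rw [Function.update_of_ne hl]
    have h2 := t4_one (μ := μ) (s := s) (δ := δ) (m := m) hP hN hB hc (sg_or ω.2 j) ht hδ1 (by linarith) ω.1 (hV0 ω) (hV1 ω)
      ((hSt.ifb (wt μ s ω.1 N P δ B b j (sg ω.2 j) t) i).of_crs crs_Bp)
      (fun x => I52.wt_nonneg Pl _ x) (h0 ω) hi1 (hΛ ω)
    have e1 : ∑ x, I52.wt Pl (wt μ s ω.1 N P δ B b j (sg ω.2 j) t) x = 1 := by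
      have e2 := I52.ev_one Pl (wt μ s ω.1 N P δ B b j (sg ω.2 j) t)
      unfold ev at e2
      simpa only [mul_one] using e2
    rw [e1, mul_one] at h2
    unfold ev
    simp only [hΦ]
    exact h2
  have hint : Integrable (fun ω => ev Pl (wt μ s ω.1 N P δ B b j (sg ω.2 j) t) (Φ ω)) (Pm μ N) := by
    refine Integrable.of_bound (meas_pm7 (fun A => ?_)).aestronglyMeasurable ((N : ℝ) ^ K') (Eventually.of_forall fun ω => ?_)
    · refine meas_evP (fun S => ?_) Pl fun x => hΦm x A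
      simp only [wt_tA (N := N) (P := P) (t := t) (δ := δ) (B := B) (a := sg A j) hc]
      exact (meas_lw S).add ((gwU_PA (μ := μ) (s := s) (δ := δ) hB (abs_sg A j).le ht hc).ms _)
    · rw [Real.norm_eq_abs, abs_of_nonneg (I52.ev_nonneg Pl _ (hΦ0 ω))]
      exact ev_le_const Pl _ (hΦΛ ω)
  have h2 : ∫ ω, ev Pl (wt μ s ω.1 N P δ B b j (sg ω.2 j) t)
      (fun x => V ω (x i) * iM7 μ s N P δ B b j t δ1 c K ω.1 (sg ω.2 j) (x i) * Ψ ω x) ∂(Pm μ N) ≤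
      ∫ ω, (ev Pl (wt μ s ω.1 N P δ B b j (sg ω.2 j) t) (Φ ω) + (N : ℝ) ^ K' * Real.exp (-m)) ∂(Pm μ N) :=
    integral_mono_of_nonneg (Eventually.of_forall fun ω => I52.ev_nonneg Pl _ fun x =>
      mul_nonneg (mul_nonneg (hV0 ω (x i)) iM7_01.1) (h0 ω x)) (hint.add (integrable_const _)) (Eventually.of_forall h1)
  rw [integral_add hint (integrable_const _), integral_const, probReal_univ, one_smul] at h2
  exact h2.trans (add_le_add key le_rfl)

end Tr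

end

end Pool.W7d29a1.C0.H7
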