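import Pool.Agent.W_7d29a1_C0.GwNM50

/-!
CURV0 (MP_7d29a1_pr): `gw50` of helper50 with the right order of the constants: the exponent `c'` of the additive error of `GwW` depends on
`κ` and `ε` only, only the cone `δ₁` depends on the clipping level `δ`. The proof is that of `gw50` (GwNM50). (helper73)
-/

set_option autoImplicit false

namespace Pool.Agent.W_7d29a1_C0.GwA50

open Finset MeasureTheory Filter Topology Pool.Agent.W_7d29a1_F Pool.Agent.W_7d29a1_X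
open Pool.Agent.W_7d29a1_Z74 (ZJ)
open Pool.Agent.W_7d29a1_H (sl Dirs vA)
open Pool.Agent.W_7d29a1_HS (In wd)
open Pool.Agent.W_7d29a1_HZ (gp NSp wd')
open Pool.Agent.W_7d29a1_HZ.Z74 (ev_pow ev_pow_le ev_exp shj mp_shj)
open Pool.Agent.W_7d29a1_C0.K14 (KU kick14_unit ZJ_row0 ZJ_pos)
open Pool.Agent.W_7d29a1_C0.Loc14 (Qp LocG loc14)
open Pool.W7d29a1.C0.VT31 (cE)
open Pool.Agent.W_7d29a1_C0.Mod92
open Pool.Agent.W_7d29a1_C0.Blk18
open Pool.Agent.W_7d29a1_C0.LocM18 (Cn)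
open Pool.Agent.W_7d29a1_C0.Swap57 (cE2 NM)
open scoped ENNReal

noncomputable section

variable {μ : Measure ℝ} {s : ℝ} {N : ℕ} [IsProbabilityMeasure μ] {c C : ℝ} {n₀ : ℕ}

/-- **THE HALF RESPONSE OF A WINDOW FOR TWO PATHS**, the exponent `c'` of the error is chosen before the clipping level `δ`. -/
theorem gw_ord73 (h : In μ s c C n₀) {κ ε : ℝ} (hκ : 0 < κ) (hε : 0 < ε) :
    ∃ c' : ℝ, 0 < c' ∧ ∀ δ : ℝ, 0 < δ → ∃ δ₁ : ℝ, 0 < δ₁ ∧ δ₁ < δ ∧ ∃ N₀ : ℕ, ∀ N : ℕ, N₀ ≤ N →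
      law μ {η | ¬ GwW μ s N κ δ δ₁ ε c' η} ≤ ENNReal.ofReal (Real.exp (-(N : ℝ) ^ c')) := by
  -- the exponents
  obtain ⟨εK, hεK⟩ : ∃ e : ℝ, e = min (ε / 2) κ := ⟨_, rfl⟩
  have hεK0 : 0 < εK := by rw [hεK]; exact lt_min (by positivity) hκ
  have hεK1 : εK ≤ ε / 2 := by rw [hεK]; exact min_le_left _ _
  have hεK2 : εK ≤ κ := by rw [hεK]; exact min_le_right _ _
  obtain ⟨δK, cK, hδK, hcK, N₁, hN₁⟩ := kick14_unit h hεK0
  obtain ⟨a, ha, hrng⟩ := cone_rng h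
  obtain ⟨d, hd⟩ : ∃ d : ℝ, d = min δK a := ⟨_, rfl⟩
  have hd0 : 0 < d := by rw [hd]; exact lt_min hδK ha
  have hdK : d ≤ δK := by rw [hd]; exact min_le_left _ _
  have hda : d ≤ a := by rw [hd]; exact min_le_right _ _
  obtain ⟨εL, hεL⟩ : ∃ e : ℝ, e = κ * (d / 2) := ⟨_, rfl⟩
  have hεL0 : 0 < εL := by rw [hεL]; positivity
  obtain ⟨δL, cL, hδL, hcL, N₂, hN₂⟩ := loc14 h hκ εL hεL0
  obtain ⟨ε₂, hε₂⟩ : ∃ e : ℝ, e = min (cL / 2) εK := ⟨_, rfl⟩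
  have hε₂0 : 0 < ε₂ := by rw [hε₂]; exact lt_min (by positivity) hεK0
  have hε₂L : ε₂ ≤ cL / 2 := by rw [hε₂]; exact min_le_left _ _
  have hε₂K : ε₂ ≤ εK := by rw [hε₂]; exact min_le_right _ _
  obtain ⟨δ₂, c₂, hδ₂, hc₂, N₃, hN₃⟩ := kick14_unit h hε₂0
  obtain ⟨c', hc'⟩ : ∃ e : ℝ, e = min (min (cK / 2) (c₂ / 2)) (min (εK / 4) (cL / 4)) := ⟨_, rfl⟩
  have hc'0 : 0 < c' := by
    rw [hc']
    exact lt_min (lt_min (by positivity) (by positivity)) (lt_min (by positivity) (by positivity))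
  have hc'K : c' ≤ cK / 2 := by rw [hc']; exact (min_le_left _ _).trans (min_le_left _ _)
  have hc'2 : c' ≤ c₂ / 2 := by rw [hc']; exact (min_le_left _ _).trans (min_le_right _ _)
  have hc'ε : c' ≤ εK / 4 := by rw [hc']; exact (min_le_right _ _).trans (min_le_left _ _)
  have hc'L : c' ≤ cL / 4 := by rw [hc']; exact (min_le_right _ _).trans (min_le_right _ _)
  refine ⟨c', hc'0, fun δ hδ => ?_⟩
  obtain ⟨δ₁, hδ₁⟩ : ∃ e : ℝ, e = min (min δ₂ δL) (min d δ) / 2 := ⟨_, rfl⟩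
  have hδ₁0 : 0 < δ₁ := by
    rw [hδ₁]
    have : 0 < min (min δ₂ δL) (min d δ) := lt_min (lt_min hδ₂ hδL) (lt_min hd0 hδ)
    linarith
  have hmin : δ₁ < min (min δ₂ δL) (min d δ) := by
    have : 2 * δ₁ = min (min δ₂ δL) (min d δ) := by rw [hδ₁]; ring
    linarith
  have h12 : δ₁ < δ₂ := hmin.trans_le ((min_le_left _ _).trans (min_le_left _ _))
  have h1L : δ₁ < δL := hmin.trans_le ((min_le_left _ _).trans (min_le_right _ _))
  have h1d : δ₁ < d := hmin.trans_le ((min_le_right _ _).trans (min_le_left _ _))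
  have h1δ : δ₁ < δ := hmin.trans_le ((min_le_right _ _).trans (min_le_right _ _))
  refine ⟨δ₁, hδ₁0, h1δ, ?_⟩
  -- the numbers
  have hNu := ev_Nu (μ := μ) (s := s) h (κ := κ) (δ := d) (ε := εK) (δ₂ := δ₂) (ε₂ := ε₂) (δL := δL) (εL := εL) (δ₁ := δ₁) hκ hεK2
    (hε₂K.trans hεK2) hd0 hεL0.le hεL.le hδ₁0.le h12 h1L h1d (hrng d hda)
  have hev := hNu.and ((eventually_ge_atTop N₁).and ((eventually_ge_atTop N₃).and ((law_SB (μ := μ) h.em hεK0).and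
    ((law_loc hcL (eventually_atTop.2 ⟨N₂, hN₂⟩)).and ((ev_of hκ (ev_wd h hδ₁0.le h1δ)).and
    ((ev_pow_le (show εK < ε by linarith) (K := 5) one_pos).and ((ev_pow_le (show cL / 2 < cL by linarith) (K := 5) one_pos).and
    (ev_pow (show (0 : ℝ) < c' by linarith) 10))))))))
  obtain ⟨N₀, hN₀⟩ := hev.exists_forall_of_atTop
  refine ⟨N₀, fun N hN => ?_⟩
  obtain ⟨g1, g2, g3, g4, g5, g6, g7, g8, g9⟩ := hN₀ N hN
  have hN1 : (1 : ℝ) ≤ N := by exact_mod_cast g1.one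
  -- the good event
  have hsub : {η | ¬ GwW μ s N κ δ δ₁ ε c' η} ⊆ (({η | ¬ KU μ s N δK εK η} ∪ {η | ¬ KU μ s N δ₂ ε₂ η}) ∪ {η | ¬ SB N εK η}) ∪
      {η : Env | ¬ ∀ k : ℕ, k ≤ N → ∀ v : ℤ, (v = 1 ∨ v = -1) → LocG μ s N κ δL εL cL (shj (k : ℤ) v η)} := by
    intro η hη
    by_contra hno
    simp only [Set.mem_union, Set.mem_ofPred_eq, not_or, not_not] at hno
    obtain ⟨⟨⟨q1, q2⟩, q3⟩, q4⟩ := hno
    rw [Set.mem_ofPred_eq] at hη
    refine hη ?_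
    intro Q hne hQ c₀ m n hjN hm hn B a ha S S' hS hS'
    have hGd : Gd μ s N κ d εK δ₂ ε₂ δL εL cL η := ⟨KU_mono hdK q1, q2, q3, q4⟩
    have hv : (-a = 1 ∨ -a = -1) := by omega
    have hmain := lk50 (Q := Q) hQ hGd g1 hjN hm hn hv S S' hS hS'
    have hb : (N : ℝ) ^ κ ≤ ((m + n : ℕ) : ℝ) := hm.trans (by exact_mod_cast Nat.le_add_right m n)
    have hflat : ∀ S : Px Q, Cn μ s δ₁ c₀ (c₀ + (m + n)) S → Flat μ s δ (m + n) a (ps S (c₀ + (m + n)) - ps S c₀) := by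
      intro S hS
      unfold Cn at hS
      rw [Nat.add_sub_cancel_left] at hS
      have h1 := g6 (m + n) hb
      have h2 : |(a : ℝ) / 2| ≤ 1 := by
        rcases ha with h | h <;> rw [h] <;> norm_num [abs_le]
      unfold Flat
      have h3 : ((ps S (c₀ + (m + n)) - ps S c₀ : ℤ) : ℝ) + (a : ℝ) / 2 - sl μ s * ((m + n : ℕ) : ℝ) =
          (((ps S (c₀ + (m + n)) - ps S c₀ : ℤ) : ℝ) - sl μ s * ((m + n : ℕ) : ℝ)) + (a : ℝ) / 2 := by ring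
      rw [h3]
      refine (abs_add_le _ _).trans ?_
      linarith
    have ha1 : |(a : ℝ)| ≤ 1 := by rcases ha with h | h <;> rw [h] <;> norm_num
    have hgw := gw_sub_le (μ := μ) (s := s) η (δ := δ) (B := B) ha1 (c := c₀) (l := m + n) (k := m)
      (hflat S hS) (hflat S' hS')
    obtain ⟨K, hK⟩ : ∃ K, K = cE2 (lw μ s η N Q) (pJ c₀ (c₀ + (m + n))) (NM c₀ (c₀ + m) (c₀ + m) (c₀ + (m + n))) S S' :=
      ⟨_, rfl⟩
    have hK0 : 0 ≤ K := by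
      rw [hK]
      exact Pool.Agent.W_7d29a1_C0.Swap57.cE2_nonneg _ _ (fun z z' => Pool.Agent.W_7d29a1_C0.Swap57.NM_nonneg _ _ _ _ z z') S S'
    rw [← hK] at hmain ⊢
    refine hgw.trans ((mul_le_mul_of_nonneg_left hmain (by norm_num)).trans ?_)
    have p1 : (N : ℝ) ^ ε₂ ≤ (N : ℝ) ^ εK := Real.rpow_le_rpow_of_exponent_le hN1 hε₂K
    have p2 : (N : ℝ) ^ ε₂ ≤ (N : ℝ) ^ (cL / 2) := Real.rpow_le_rpow_of_exponent_le hN1 hε₂L
    have p3 : (N : ℝ) ^ c' ≤ (N : ℝ) ^ (cL / 2) := Real.rpow_le_rpow_of_exponent_le hN1 (by linarith)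
    have p4 : 1 ≤ (N : ℝ) ^ (cL / 2) := Real.one_le_rpow hN1 (by positivity)
    have p5 : 0 ≤ (N : ℝ) ^ ε := Real.rpow_nonneg (by linarith) _
    have p6 : 0 ≤ (N : ℝ) ^ εK := Real.rpow_nonneg (by linarith) _
    have r1 : Real.exp ((N : ℝ) ^ ε₂) * Real.exp (3 * (N : ℝ) ^ εK) ≤ Real.exp ((N : ℝ) ^ ε) := by
      rw [← Real.exp_add]
      exact Real.exp_le_exp.2 (by linarith)
    have r2 : 2 * (Real.exp ((N : ℝ) ^ ε₂) * (Real.exp (-(N : ℝ) ^ cL) * Real.exp ((N : ℝ) ^ ε₂))) ≤ Real.exp (-(N : ℝ) ^ c') := by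
      have r3 : (2 : ℝ) ≤ Real.exp 1 := by
        have := Real.add_one_le_exp (1 : ℝ)
        linarith
      calc 2 * (Real.exp ((N : ℝ) ^ ε₂) * (Real.exp (-(N : ℝ) ^ cL) * Real.exp ((N : ℝ) ^ ε₂)))
          ≤ Real.exp 1 * (Real.exp ((N : ℝ) ^ ε₂) * (Real.exp (-(N : ℝ) ^ cL) * Real.exp ((N : ℝ) ^ ε₂))) :=
            mul_le_mul_of_nonneg_right r3 (by positivity)
        _ = Real.exp (1 + ((N : ℝ) ^ ε₂ + (-(N : ℝ) ^ cL + (N : ℝ) ^ ε₂))) := by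
            rw [Real.exp_add, Real.exp_add, Real.exp_add]
        _ ≤ Real.exp (-(N : ℝ) ^ c') := Real.exp_le_exp.2 (by linarith)
    calc 1 / 2 * (Real.exp ((N : ℝ) ^ ε₂) * (2 * Real.exp (3 * (N : ℝ) ^ εK) * K +
          4 * (Real.exp (-(N : ℝ) ^ cL) * Real.exp ((N : ℝ) ^ ε₂))))
        = (Real.exp ((N : ℝ) ^ ε₂) * Real.exp (3 * (N : ℝ) ^ εK)) * K +
          2 * (Real.exp ((N : ℝ) ^ ε₂) * (Real.exp (-(N : ℝ) ^ cL) * Real.exp ((N : ℝ) ^ ε₂))) := by ring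
      _ ≤ Real.exp ((N : ℝ) ^ ε) * K + Real.exp (-(N : ℝ) ^ c') := add_le_add (mul_le_mul_of_nonneg_right r1 hK0) r2
  -- the probability
  have hex : ∀ e : ℝ, 2 * c' ≤ e → Real.exp (-(N : ℝ) ^ e) ≤ 1 / 4 * Real.exp (-(N : ℝ) ^ c') := by
    intro e he
    have h1 : (N : ℝ) ^ (2 * c') ≤ (N : ℝ) ^ e := Real.rpow_le_rpow_of_exponent_le hN1 he
    have h2 : (N : ℝ) ^ (2 * c') = (N : ℝ) ^ c' * (N : ℝ) ^ c' := by
      rw [← Real.rpow_add (by linarith)]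
      congr 1
      ring
    have h3 : 10 * (N : ℝ) ^ c' ≤ (N : ℝ) ^ c' * (N : ℝ) ^ c' := mul_le_mul_of_nonneg_right g9 (by linarith)
    have h4 : Real.exp (-(N : ℝ) ^ e) ≤ Real.exp (-3 + -(N : ℝ) ^ c') := Real.exp_le_exp.2 (by linarith)
    have h5 : Real.exp (-3) ≤ 1 / 4 := by
      rw [Real.exp_neg, inv_le_comm₀ (Real.exp_pos _) (by norm_num)]
      have := Real.add_one_le_exp (3 : ℝ)
      linarith
    rw [Real.exp_add] at h4
    exact h4.trans (mul_le_mul_of_nonneg_right h5 (Real.exp_pos _).le)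
  have x1 := hex cK (by linarith)
  have x2 := hex c₂ (by linarith)
  have x3 := hex (εK / 2) (by linarith)
  have x4 := hex (cL / 2) (by linarith)
  have E0 : ∀ e : ℝ, 0 ≤ Real.exp (-(N : ℝ) ^ e) := fun e => (Real.exp_pos _).le
  refine (measure_mono hsub).trans ((measure_union_le _ _).trans ((add_le_add ((measure_union_le _ _).trans
    (add_le_add ((measure_union_le _ _).trans (add_le_add (hN₁ N g2) (hN₃ N g3))) g4)) g5).trans ?_))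
  have t2 := E0 (εK / 2)
  have t3 := E0 (cL / 2)
  rw [← ENNReal.ofReal_add (E0 _) (E0 _), ← ENNReal.ofReal_add (add_nonneg (E0 _) (E0 _)) (by linarith),
    ← ENNReal.ofReal_add (add_nonneg (add_nonneg (E0 _) (E0 _)) (by linarith)) (by linarith)]
  refine ENNReal.ofReal_le_ofReal ?_
  linarith [E0 c']



end

end Pool.Agent.W_7d29a1_C0.GwA50
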