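import Pool.Agent.W_7d29a1_C0.EvU50
import Pool.Agent.W_7d29a1_C0.GwO73

/-!
MP_7d29a1_pr, [CURV0] / [C0], leaf (T): THE MICRO TERMS WITH THE RIGHT ORDER OF THE CONSTANTS. (helper50)

The part of the paths out of the cone of the window is kept at the measure of the tilt, only the near ties `TauM` are passed to the
corner. `two_ev`: for EVERY environment, `cE2 (lw + A) p |g - g'| ≤ B 1[TauM] + e + 2 B cE (lw + A) p nC + B 1[not GW1]`. `e0_micV`: the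
passage to the corner with an additional term `V`. `micV50`: the micro terms.
-/

set_option autoImplicit false
set_option linter.unusedSectionVars false

namespace Pool.Agent.W_7d29a1_C0.EvT50

open Finset MeasureTheory Filter Topology Pool.Agent.W_7d29a1_F Pool.Agent.W_7d29a1_X Pool.Agent.W_7d29a1_C0.Mod92
open Pool.Agent.W_7d29a1_C0.Swap57
open Pool.W7d29a1.C0 (gz gm gm_mono gm_const gm_nonneg)
open Pool.W7d29a1.C0.VT31
open Pool.W7d29a1.C0.R43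
open Pool.W7d29a1.C0.H27 (pB slb)
open Pool.Agent.W_7d29a1_C0.LocM18 (Cn)
open Pool.Agent.W_7d29a1_C0.T72 (Rb72 crs_pB72 Sp72 ind72 ind72_nonneg ind72_le_one meas_ind72 meas_chi3 chi3_nonneg chi3_le
  chi3_mono marg_P3 e0_ind abs_fT72_le3)
open Pool.Agent.W_7d29a1_C0.CutT57 (chi3 P3)
open Pool.Agent.W_7d29a1_C0.NM82 (HdAll Rk Lk_mono markov_cC)
open Pool.W7d29a1.C0.T72 (fT72)
open Pool.W7d29a1.C0.H7 (E0X meas_evP)
open Pool.W7d29a1.C0.I52 (ev ev_mono ev_nonneg ev_smul ev_add ev_const)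

noncomputable section

variable {μ : Measure ℝ} {s : ℝ} {N : ℕ} {Q : Finset (Finset ℕ)}

open Classical in
/-- The indicator of the bad environments of the window of the row `j`. -/
def bG (μ : Measure ℝ) (s : ℝ) (N : ℕ) (Q : Finset (Finset ℕ)) (δ δ₁ B R e0 : ℝ) (b j : ℕ) (η : Env) : ℝ :=
  if GW1 μ s N Q δ δ₁ B R e0 b j η then 0 else 1

theorem bG_nonneg (δ δ₁ B R e0 : ℝ) (b j : ℕ) (η : Env) : 0 ≤ bG μ s N Q δ δ₁ B R e0 b j η := by
  unfold bG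
  split_ifs <;> norm_num

theorem bG_le_one (δ δ₁ B R e0 : ℝ) (b j : ℕ) (η : Env) : bG μ s N Q δ δ₁ B R e0 b j η ≤ 1 := by
  unfold bG
  split_ifs <;> norm_num

theorem meas_bG (δ δ₁ B R e0 : ℝ) (b j : ℕ) : Measurable fun η : Env => bG μ s N Q δ δ₁ B R e0 b j η :=
  Measurable.ite (meas_GW1 δ δ₁ B R e0 b j) measurable_const measurable_const

theorem int_bG [IsProbabilityMeasure μ] (δ δ₁ B R e0 : ℝ) (b j : ℕ) :
    ∫ η, bG μ s N Q δ δ₁ B R e0 b j η ∂(law μ) = (law μ {η | ¬ GW1 μ s N Q δ δ₁ B R e0 b j η}).toReal := by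
  classical
  have e4 : (fun η => bG μ s N Q δ δ₁ B R e0 b j η) = Set.indicator {η | ¬ GW1 μ s N Q δ δ₁ B R e0 b j η} 1 := by
    funext η
    simp only [bG, Set.indicator, Set.mem_ofPred_eq, Pi.one_apply]
    by_cases h1 : GW1 μ s N Q δ δ₁ B R e0 b j η <;> simp [h1]
  have hms : MeasurableSet {η | ¬ GW1 μ s N Q δ δ₁ B R e0 b j η} := (meas_GW1 δ δ₁ B R e0 b j).compl
  rw [e4, integral_indicator_one hms]
  rfl

section Ev

variable [Nonempty (Px Q)] {δ δ₁ B R e0 M M' D : ℝ} {b j m : ℕ}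

/-- **THE DIFFERENCE OF TWO RESPONSES FOR EVERY ENVIRONMENT.** -/
theorem two_ev {ω : Env × Finset ℕ} {A : Px Q → ℝ} (hA : ∀ S, |A S| ≤ D) (hB : 0 ≤ B) (hR : 0 ≤ R) (he : 0 ≤ e0)
    (hm : j + b ≤ m) (S : Px Q) :
    cE2 (wm μ s N Q ω + A) (pJ 0 m) (fun z z' => |gg μ s Q δ B b ω j z - gg μ s Q δ B b ω j z'|) S S ≤
      B * ind72 (fun ω => TauM (wm μ s N Q ω) (pJ 0 m) b j M) ω S + Real.exp (4 * D) * (R * (2 * Real.exp (-(5 * M))) + e0) +
        (2 * B * cE (wm μ s N Q ω + A) (pJ 0 m) (nC μ s δ₁ Q b j) S + B * bG μ s N Q δ δ₁ B R e0 b j ω.1) := by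
  have hBd : ∀ z z' : Px Q, |gg μ s Q δ B b ω j z - gg μ s Q δ B b ω j z'| ≤ B := fun z z' => by
    have h5 := abs_gj (μ := μ) (s := s) (δ := δ) ω.1 hB (abs_sg ω.2 j).le b j z
    have h6 := abs_gj (μ := μ) (s := s) (δ := δ) ω.1 hB (abs_sg ω.2 j).le b j z'
    exact (abs_sub _ _).trans (by unfold gg; linarith)
  have hC0 : 0 ≤ cE (wm μ s N Q ω + A) (pJ 0 m) (nC μ s δ₁ Q b j) S := cE_nonneg _ _ (nC_nonneg δ₁ b j) S
  have hE0 : 0 ≤ Real.exp (4 * D) * (R * (2 * Real.exp (-(5 * M))) + e0) := by positivity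
  have hbG := bG_nonneg (μ := μ) (s := s) (N := N) (Q := Q) δ δ₁ B R e0 b j ω.1
  have h4 := cE2_mono (wm μ s N Q ω + A) (pJ 0 m) (K := fun z z' => |gg μ s Q δ B b ω j z - gg μ s Q δ B b ω j z'|)
    (K' := fun _ _ => B * 1) (fun z z' => by rw [mul_one]; exact hBd z z') S S
  rw [cE2_mul _ _ B (fun _ _ => 1), cE2_one, mul_one] at h4
  have hi : 0 ≤ ind72 (fun ω => TauM (wm μ s N Q ω) (pJ 0 m) b j M) ω S := by
    unfold ind72
    split_ifs <;> norm_num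
  by_cases hG : GW1 μ s N Q δ δ₁ B R e0 b j ω.1
  · by_cases hT : TauM (wm μ s N Q ω) (pJ 0 m) b j M S
    · have h2 : ind72 (fun ω => TauM (wm μ s N Q ω) (pJ 0 m) b j M) ω S = 1 := if_pos hT
      rw [h2, mul_one]
      linarith [mul_nonneg hB hC0, mul_nonneg hB hbG]
    · have h2 : ind72 (fun ω => TauM (wm μ s N Q ω) (pJ 0 m) b j M) ω S = 0 := if_neg hT
      rw [h2, mul_zero, zero_add]
      have h5 := cE2_mono (wm μ s N Q ω + A) (pJ 0 m) (K := fun z z' => |gg μ s Q δ B b ω j z - gg μ s Q δ B b ω j z'|)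
        (K' := fun z z' => (R * cE2 (wm μ s N Q ω) (pJ (j - b) (j + b)) (NM (j - b) j j (j + b)) z z' + e0) +
          B * (nC μ s δ₁ Q b j z + nC μ s δ₁ Q b j z')) (fun z z' => by
            have h6 := hG.all hB hR he ω.2 z z'
            exact h6) S S
      rw [cE2_add, cE2_mul, cE2_add (wm μ s N Q ω + A) (pJ 0 m) (fun z _ => nC μ s δ₁ Q b j z) (fun _ z' => nC μ s δ₁ Q b j z')]
        at h5
      have e2 : cE2 (wm μ s N Q ω + A) (pJ 0 m) (fun z _ => nC μ s δ₁ Q b j z) S S =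
          cE (wm μ s N Q ω + A) (pJ 0 m) (nC μ s δ₁ Q b j) S := by
        unfold cE2
        congr 1
        funext z
        have hh : Mp (pJ (Q := Q) 0 m) (fun _ : Px Q => nC μ s δ₁ Q b j z) := fun _ _ _ => rfl
        exact congrFun (cE_of_meas (wm μ s N Q ω + A) hh) S
      have e3 : cE2 (wm μ s N Q ω + A) (pJ 0 m) (fun _ z' => nC μ s δ₁ Q b j z') S S =
          cE (wm μ s N Q ω + A) (pJ 0 m) (nC μ s δ₁ Q b j) S := by
        unfold cE2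
        have hh : Mp (pJ (Q := Q) 0 m) (fun _ : Px Q => cE (wm μ s N Q ω + A) (pJ 0 m) (nC μ s δ₁ Q b j) S) := fun _ _ _ => rfl
        exact congrFun (cE_of_meas (wm μ s N Q ω + A) hh) S
      rw [e2, e3] at h5
      have h7 := cE2_tilt hA (w := wm μ s N Q ω) (pJ 0 m) (K := fun z z' =>
        R * cE2 (wm μ s N Q ω) (pJ (j - b) (j + b)) (NM (j - b) j j (j + b)) z z' + e0) (fun z z' =>
          add_nonneg (mul_nonneg hR (cE2_nonneg _ _ (fun _ _ => NM_nonneg _ _ _ _ _ _) _ _)) he) S S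
      have h8 : cE2 (wm μ s N Q ω) (pJ 0 m) (fun z z' =>
          R * cE2 (wm μ s N Q ω) (pJ (j - b) (j + b)) (NM (j - b) j j (j + b)) z z' + e0) S S =
          R * cE2 (wm μ s N Q ω) (pJ 0 m) (NM (j - b) j j (j + b)) S S + e0 := by
        have e5 := cE2_add (wm μ s N Q ω) (pJ 0 m) (fun z z' =>
          R * cE2 (wm μ s N Q ω) (pJ (j - b) (j + b)) (NM (j - b) j j (j + b)) z z') (fun _ _ => e0 * 1) S S
        rw [cE2_mul, cE2_mul _ _ e0 (fun _ _ => 1), cE2_one, mul_one,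
          cE2_tower _ (crs_pJ (Nat.zero_le _) hm)] at e5
        exact e5
      rw [h8] at h7
      have h9 := mul_le_mul_of_nonneg_left (cE2_NM_le hT) hR
      have h10 := mul_le_mul_of_nonneg_left (add_le_add_left h9 e0) (Real.exp_pos (4 * D)).le
      linarith [mul_nonneg hB hbG]
  · have h2 : bG μ s N Q δ δ₁ B R e0 b j ω.1 = 1 := if_neg hG
    rw [h2, mul_one]
    linarith [mul_nonneg hB hC0, mul_nonneg hB hi]

/-- **THE MICRO COVARIANCE FOR EVERY ENVIRONMENT.** -/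
theorem micV_ev {ω : Env × Finset ℕ} {A : Px Q → ℝ} (hA : ∀ S, |A S| ≤ D) (hB : 0 ≤ B) (hR : 0 ≤ R) (he : 0 ≤ e0)
    (hm : j + b ≤ m) {γ : Px Q → ℝ} {G : ℝ} (hγ : ∀ S, |γ S| ≤ G) (S : Px Q) :
    |cC (wm μ s N Q ω + A) (pJ 0 m) (gg μ s Q δ B b ω j) γ S| ≤
      G * B * ind72 (fun ω => TauM (wm μ s N Q ω) (pJ 0 m) b j M) ω S +
        G * (Real.exp (4 * D) * (R * (2 * Real.exp (-(5 * M))) + e0)) +
        G * (2 * B * cE (wm μ s N Q ω + A) (pJ 0 m) (nC μ s δ₁ Q b j) S + B * bG μ s N Q δ δ₁ B R e0 b j ω.1) := by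
  have hG0 : 0 ≤ G := (abs_nonneg _).trans (hγ S)
  refine (abs_cC_le_two (wm μ s N Q ω + A) (pJ 0 m) (gg μ s Q δ B b ω j) γ hγ S).trans ?_
  rw [mul_assoc G B, ← mul_add, ← mul_add]
  exact mul_le_mul_of_nonneg_left (two_ev hA hB hR he hm S) hG0

/-- **THE NEAR TIES ARE ROBUST.** -/
theorem rb_tau {c0 K : ℕ} {θ : ℝ} (hm : c0 + K ≤ m) (hD : 0 ≤ D) (hθ : θ ≤ D / K) (hM : 5 * M + 4 * D ≤ 5 * M') :
    Rb72 Q c0 K θ (fun ω => TauM (wm μ s N Q ω) (pJ 0 m) b j M) (fun ω => TauM (wm μ s N Q ω) (pJ 0 m) b j M') where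
  meas S := meas_tauM (pJ 0 m) b j M S
  meas' S := meas_tauM (pJ 0 m) b j M' S
  beh ω S S' h := by
    have hp : pJ (Q := Q) 0 m S = pJ 0 m S' := crs_pB72 hm S S' h
    unfold TauM
    rw [tau_meas _ _ _ _ _ hp, tau_meas _ _ _ _ _ hp]
  rob A η ζ h1 h2 S h := by
    have h3 : ∀ T : Px Q, |lw μ s η N Q T - lw μ s ζ N Q T| ≤ D := fun T => by
      rw [abs_sub_comm]
      exact Pool.W7d29a1.C0.H7.lw_near7 hD h1 (fun q => (h2 q).trans hθ) T
    have e1 : wm μ s N Q (η, A) = wm μ s N Q (ζ, A) + fun T => lw μ s η N Q T - lw μ s ζ N Q T := by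
      funext T
      rw [Pi.add_apply]
      unfold wm
      ring
    rw [e1] at h
    exact h.tilt h3 hM

end Ev

/-! ### The passage to the corner with an additional term -/

section E0

variable [IsProbabilityMeasure μ] [SwQ Q] [Nonempty (Px Q)] {c0 K : ℕ} {θ ε K' : ℝ} {u : Finset ℕ → Env → Px Q → ℝ}
  {z z' c : ℕ}

/-- **The micro terms at the corner**: `|κ| ≤ a 1[T] + e + V`, the term `V` stays at the measure of the tilt. -/
theorem e0_micV (hE : ∀ A, E0X μ s 3 N Q c0 K (pB (c0 + K)) θ (u A) ε K') (hum : ∀ S, Measurable fun ω : Env × Finset ℕ => u ω.2 ω.1 S)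
    {h : ℕ} (h1 : c0 + K ≤ h) (h2 : h ≤ z) (h3 : z ≤ z') (h4 : z' ≤ c) {F : ℝ} (hF0 : 0 ≤ F)
    {f : Env × Finset ℕ → Px Q → ℝ} (hf : Sp72 Q c F c0 K f) (hF : 2 * F ≤ (N : ℝ) ^ K')
    {T T' : Env × Finset ℕ → Px Q → Prop} (hT : Rb72 Q c0 K θ T T')
    {κ b V : Env × Finset ℕ → Px Q → ℝ} {M a e v : ℝ} (ha : 0 ≤ a) (he : 0 ≤ e) (hM0 : 0 ≤ M)
    (hw : ∀ ω : Env × Finset ℕ, HdAll h (fun S => lw μ s ω.1 N Q S + u ω.2 ω.1 S)) (hκ : ∀ ω, Lk 0 h (κ ω))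
    (hb : ∀ ω, Lk 0 h (b ω)) (hM : ∀ ω S, |b ω S| ≤ M) (hV0 : ∀ ω S, 0 ≤ V ω S) (hVv : ∀ ω S, V ω S ≤ v)
    (hVm : ∀ S, Measurable fun ω => V ω S)
    (hκT : ∀ ω S, |κ ω S| ≤ a * ind72 T ω S + e + V ω S) :
    ∫ ω, |fT72 (pJ 0 z') (pJ 0 z) (κ ω) (b ω) (f ω) (fun S => lw μ s ω.1 N Q S + u ω.2 ω.1 S)| ∂(Pm μ N) ≤
      2 * M * (a * ((N : ℝ) ^ ε * (∫ ω, ev (P3 (pJ 0 z')) (wm μ s N Q ω) (chi3 h z z' c (ind72 T' ω) (f ω)) ∂(Pm μ N) +
        (N : ℝ) ^ (-K'))) + e * (2 * F) +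
        2 * F * ∫ ω, gm (fun S => lw μ s ω.1 N Q S + u ω.2 ω.1 S) (V ω) ∂(Pm μ N)) := by
  have hwm : ∀ S : Px Q, Measurable fun ω : Env × Finset ℕ => lw μ s ω.1 N Q S + u ω.2 ω.1 S := fun S =>
    ((meas_lw S).comp measurable_fst).add (hum S)
  have hint : Integrable (fun ω : Env × Finset ℕ => ev (P3 (pJ 0 z')) (fun S => lw μ s ω.1 N Q S + u ω.2 ω.1 S)
      (chi3 h z z' c (ind72 T ω) (f ω))) (Pm μ N) := by
    refine int_bdd (M := 1 * (2 * F)) (meas_evP hwm _ fun x => meas_chi3 (L := ind72 T) (meas_ind72 hT.meas) hf.meas x)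
      fun ω => ?_
    rw [abs_of_nonneg (ev_nonneg _ _ fun x => chi3_nonneg (fun S => ind72_nonneg T ω S) _ x)]
    exact Pool.W7d29a1.C0.H7.ev_le_const _ _ fun x => chi3_le (fun S => ind72_nonneg T ω S)
      (fun S => ind72_le_one T ω S) (hf.bdd ω) x
  have hintV : Integrable (fun ω : Env × Finset ℕ => gm (fun S => lw μ s ω.1 N Q S + u ω.2 ω.1 S) (V ω)) (Pm μ N) :=
    int_bdd (M := v) (meas_gm hwm hVm) fun ω => by
      rw [abs_of_nonneg (gm_nonneg _ (hV0 ω))]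
      exact (gm_mono _ (g := fun _ => v) (hVv ω)).trans (gm_const _ _).le
  have hpt : ∀ ω : Env × Finset ℕ, |fT72 (pJ 0 z') (pJ 0 z) (κ ω) (b ω) (f ω) (fun S => lw μ s ω.1 N Q S + u ω.2 ω.1 S)| ≤
      2 * M * (a * ev (P3 (pJ 0 z')) (fun S => lw μ s ω.1 N Q S + u ω.2 ω.1 S) (chi3 h z z' c (ind72 T ω) (f ω)) +
        (2 * F * gm (fun S => lw μ s ω.1 N Q S + u ω.2 ω.1 S) (V ω) + e * (2 * F))) := fun ω => by
    refine (abs_fT72_le3 (hw ω) h2 h3 h4 (hκ ω) (hb ω) (hM ω) (hf.rk ω)).trans ?_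
    refine mul_le_mul_of_nonneg_left ?_ (by positivity)
    have hx : ∀ x : Fin 3 → Px Q, chi3 h z z' c (fun S => |κ ω S|) (f ω) x ≤
        a * chi3 h z z' c (ind72 T ω) (f ω) x + (2 * F * V ω (x 2) + e * (2 * F)) := fun x => by
      have h5 : chi3 h z z' c (fun S => |κ ω S|) (f ω) x ≤
          a * chi3 h z z' c (ind72 T ω) (f ω) x + (e + V ω (x 2)) * chi3 h z z' c (fun _ => 1) (f ω) x := by
        refine (chi3_mono (hκT ω) (f ω) x).trans (le_of_eq ?_)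
        unfold chi3
        ring
      have h6 := chi3_le (a0 := h) (z := z) (z' := z') (c := c) (L := fun _ : Px Q => (1 : ℝ)) (f := f ω)
        (fun _ => zero_le_one) (fun _ => le_rfl) (hf.bdd ω) x
      rw [one_mul] at h6
      linarith [mul_le_mul_of_nonneg_left h6 (add_nonneg he (hV0 ω (x 2)))]
    refine (ev_mono _ _ hx).trans (le_of_eq ?_)
    rw [ev_add, ev_smul, ev_add _ _ (fun x : Fin 3 → Px Q => 2 * F * V ω (x 2)) (fun _ => e * (2 * F)), ev_smul, ev_const,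
      Pool.W7d29a1.C0.H7.Marg.ev (marg_P3 (pJ (Q := Q) 0 z')) 2 _ (V ω)]
  have hI : Integrable (fun ω : Env × Finset ℕ => 2 * M * (a * ev (P3 (pJ 0 z')) (fun S => lw μ s ω.1 N Q S + u ω.2 ω.1 S)
      (chi3 h z z' c (ind72 T ω) (f ω)) + (2 * F * gm (fun S => lw μ s ω.1 N Q S + u ω.2 ω.1 S) (V ω) + e * (2 * F)))) (Pm μ N) :=
    ((hint.const_mul a).add ((hintV.const_mul (2 * F)).add (integrable_const _))).const_mul _
  refine (integral_mono_of_nonneg (Filter.Eventually.of_forall fun ω => abs_nonneg _) hI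
    (Filter.Eventually.of_forall hpt)).trans ?_
  have i23 : Integrable (fun ω : Env × Finset ℕ => 2 * F * gm (fun S => lw μ s ω.1 N Q S + u ω.2 ω.1 S) (V ω) + e * (2 * F))
      (Pm μ N) := (hintV.const_mul (2 * F)).add (integrable_const _)
  have h7 := e0_ind hE hum h1 h2 h3 h4 hf hF hT
  have h8 : (Pm μ N).real Set.univ = 1 := by
    rw [measureReal_def, measure_univ, ENNReal.toReal_one]
  rw [integral_const_mul, integral_add (hint.const_mul a) i23, integral_const_mul,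
    integral_add (hintV.const_mul (2 * F)) (integrable_const _), integral_const_mul, integral_const, h8, smul_eq_mul, one_mul]
  refine mul_le_mul_of_nonneg_left ?_ (by positivity)
  linarith [mul_le_mul_of_nonneg_left h7 ha]

/-- **THE MICRO TERMS AT THE CORNER**, the paths out of the cone and the bad environments are not passed. -/
theorem micV50 (hE : ∀ A, E0X μ s 3 N Q c0 K (pB (c0 + K)) θ (u A) ε K')
    (hum : ∀ S, Measurable fun ω : Env × Finset ℕ => u ω.2 ω.1 S) {Du : ℝ} (hu : ∀ A η S, |u A η S| ≤ Du)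
    {δ δ₁ B R e0 M M' D : ℝ} {b j m h : ℕ} (hB : 0 ≤ B) (hR : 0 ≤ R) (he : 0 ≤ e0)
    (hj : j + b ≤ c0) (hm : c0 + K ≤ m) (h1 : m ≤ h) (h2 : h ≤ z) (h3 : z ≤ z') (h4 : z' ≤ c) {F : ℝ} (hF0 : 0 ≤ F)
    {f : Env × Finset ℕ → Px Q → ℝ} (hf : Sp72 Q c F c0 K f) (hF : 2 * F ≤ (N : ℝ) ^ K')
    (hD : 0 ≤ D) (hθ : θ ≤ D / K) (hM : 5 * M + 4 * D ≤ 5 * M')
    {γ b' : Env × Finset ℕ → Px Q → ℝ} {G Mb : ℝ} (hG0 : 0 ≤ G) (hMb : 0 ≤ Mb) (hγ : ∀ ω S, |γ ω S| ≤ G)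
    (hb : ∀ ω S, |b' ω S| ≤ Mb) (hw : ∀ ω : Env × Finset ℕ, HdAll m (fun S => lw μ s ω.1 N Q S + u ω.2 ω.1 S))
    (hγL : ∀ ω, Lk 0 m (γ ω)) (hbL : ∀ ω, Lk 0 h (b' ω)) :
    ∫ ω, |fT72 (pJ 0 z') (pJ 0 z) (cC (fun S => lw μ s ω.1 N Q S + u ω.2 ω.1 S) (pJ 0 m)
        (gg μ s Q δ B b ω j) (γ ω)) (b' ω) (f ω) (fun S => lw μ s ω.1 N Q S + u ω.2 ω.1 S)| ∂(Pm μ N) ≤
      2 * Mb * (G * B * ((N : ℝ) ^ ε * (∫ ω, ev (P3 (pJ 0 z')) (wm μ s N Q ω)
          (chi3 h z z' c (ind72 (fun ω => TauM (wm μ s N Q ω) (pJ 0 m) b j M') ω) (f ω)) ∂(Pm μ N) + (N : ℝ) ^ (-K'))) +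
        G * (Real.exp (4 * Du) * (R * (2 * Real.exp (-(5 * M))) + e0)) * (2 * F) +
        2 * F * (G * (2 * B * ∫ ω, gm (fun S => lw μ s ω.1 N Q S + u ω.2 ω.1 S) (nC μ s δ₁ Q b j) ∂(Pm μ N) +
          B * (law μ {η | ¬ GW1 μ s N Q δ δ₁ B R e0 b j η}).toReal))) := by
  have hg : ∀ ω : Env × Finset ℕ, Lk 0 m (gg μ s Q δ B b ω j) := fun ω => by
    intro S S' hS
    unfold gg gj
    rw [hS _ (Nat.zero_le _) (by omega), hS _ (Nat.zero_le _) (by omega)]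
  have hwm : ∀ S : Px Q, Measurable fun ω : Env × Finset ℕ => lw μ s ω.1 N Q S + u ω.2 ω.1 S := fun S =>
    ((meas_lw S).comp measurable_fst).add (hum S)
  have hV0 : ∀ (ω : Env × Finset ℕ) (S : Px Q), 0 ≤ G * (2 * B * cE (fun S => lw μ s ω.1 N Q S + u ω.2 ω.1 S) (pJ 0 m)
      (nC μ s δ₁ Q b j) S + B * bG μ s N Q δ δ₁ B R e0 b j ω.1) := fun ω S =>
    mul_nonneg hG0 (add_nonneg (mul_nonneg (by positivity) (cE_nonneg _ _ (nC_nonneg δ₁ b j) S))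
      (mul_nonneg hB (bG_nonneg _ _ _ _ _ _ _ _)))
  have hVv : ∀ (ω : Env × Finset ℕ) (S : Px Q), G * (2 * B * cE (fun S => lw μ s ω.1 N Q S + u ω.2 ω.1 S) (pJ 0 m)
      (nC μ s δ₁ Q b j) S + B * bG μ s N Q δ δ₁ B R e0 b j ω.1) ≤ G * (2 * B * 1 + B * 1) := fun ω S => by
    refine mul_le_mul_of_nonneg_left (add_le_add (mul_le_mul_of_nonneg_left ?_ (by positivity))
      (mul_le_mul_of_nonneg_left (bG_le_one _ _ _ _ _ _ _ _) hB)) hG0
    exact (cE_mono _ _ (nC_le_one δ₁ b j) S).trans (le_of_eq (congrFun (cE_one _ _) S))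
  have h5 := e0_micV hE hum (h := h) (by omega) h2 h3 h4 hF0 hf hF
    (rb_tau (μ := μ) (s := s) (N := N) (Q := Q) (b := b) (j := j) hm hD hθ hM)
    (κ := fun ω => cC (fun S => lw μ s ω.1 N Q S + u ω.2 ω.1 S) (pJ 0 m) (gg μ s Q δ B b ω j) (γ ω))
    (b := b') (M := Mb) (a := G * B) (e := G * (Real.exp (4 * Du) * (R * (2 * Real.exp (-(5 * M))) + e0)))
    (V := fun ω S => G * (2 * B * cE (fun S => lw μ s ω.1 N Q S + u ω.2 ω.1 S) (pJ 0 m) (nC μ s δ₁ Q b j) S +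
      B * bG μ s N Q δ δ₁ B R e0 b j ω.1)) (v := G * (2 * B * 1 + B * 1))
    (mul_nonneg hG0 hB) (by positivity) hMb (fun ω k v hk hv => hw ω k v (h1.trans hk) hv)
    (fun ω => Lk_mono (Nat.zero_le _) h1 (markov_cC (hw ω m m le_rfl le_rfl) (hg ω) (hγL ω))) hbL hb hV0 hVv
    (fun S => (((meas_cE hwm (f := fun _ => nC μ s δ₁ Q b j) (fun _ => measurable_const) _ S).const_mul _).add
      (((meas_bG δ δ₁ B R e0 b j).comp measurable_fst).const_mul B)).const_mul G)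
    (fun ω S => micV_ev (A := fun S => u ω.2 ω.1 S) (fun S => hu _ _ S) hB hR he (by omega) (hγ ω) S)
  refine h5.trans (mul_le_mul_of_nonneg_left ?_ (by positivity))
  have i1 : Integrable (fun ω : Env × Finset ℕ => gm (fun S => lw μ s ω.1 N Q S + u ω.2 ω.1 S) (nC μ s δ₁ Q b j)) (Pm μ N) :=
    int_bdd (M := 1) (meas_gm hwm fun S => measurable_const) fun ω => by
      rw [abs_of_nonneg (gm_nonneg _ (nC_nonneg δ₁ b j))]
      exact (gm_mono _ (g := fun _ => 1) (nC_le_one δ₁ b j)).trans (gm_const _ _).le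
  have i2 : Integrable (fun ω : Env × Finset ℕ => bG μ s N Q δ δ₁ B R e0 b j ω.1) (Pm μ N) :=
    int_bdd (M := 1) ((meas_bG δ δ₁ B R e0 b j).comp measurable_fst) fun ω => by
      rw [abs_of_nonneg (bG_nonneg _ _ _ _ _ _ _ _)]
      exact bG_le_one _ _ _ _ _ _ _ _
  have e1 : ∀ ω : Env × Finset ℕ, gm (fun S => lw μ s ω.1 N Q S + u ω.2 ω.1 S)
      (fun S => G * (2 * B * cE (fun S => lw μ s ω.1 N Q S + u ω.2 ω.1 S) (pJ 0 m) (nC μ s δ₁ Q b j) S +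
        B * bG μ s N Q δ δ₁ B R e0 b j ω.1)) =
      G * (2 * B * gm (fun S => lw μ s ω.1 N Q S + u ω.2 ω.1 S) (nC μ s δ₁ Q b j) + B * bG μ s N Q δ δ₁ B R e0 b j ω.1) := fun ω => by
    have e2 : (fun S => G * (2 * B * cE (fun S => lw μ s ω.1 N Q S + u ω.2 ω.1 S) (pJ 0 m) (nC μ s δ₁ Q b j) S +
        B * bG μ s N Q δ δ₁ B R e0 b j ω.1)) = G • ((2 * B) • cE (fun S => lw μ s ω.1 N Q S + u ω.2 ω.1 S) (pJ 0 m)
          (nC μ s δ₁ Q b j) + fun _ => B * bG μ s N Q δ δ₁ B R e0 b j ω.1) := by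
      funext S
      simp only [Pi.smul_apply, Pi.add_apply, smul_eq_mul]
    rw [e2, Pool.W7d29a1.C0.gm_smul, Pool.W7d29a1.C0.gm_add, Pool.W7d29a1.C0.gm_smul, gm_cE, gm_const]
  have e3 := int_fst (N := N) (μ := μ) (Φ := fun η => bG μ s N Q δ δ₁ B R e0 b j η) (meas_bG δ δ₁ B R e0 b j) (M := 1)
    (fun η => by rw [abs_of_nonneg (bG_nonneg _ _ _ _ _ _ _ _)]; exact bG_le_one _ _ _ _ _ _ _ _)
  simp only [e1]
  rw [integral_const_mul, integral_add (i1.const_mul (2 * B)) (i2.const_mul B), integral_const_mul, integral_const_mul, e3, int_bG]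

end E0

end

end Pool.Agent.W_7d29a1_C0.EvT50
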