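import Pool.Agent.W_7d29a1_C0.TvD48
import Pool.Agent.W_7d29a1_C0.LocM18

/-!
MP_7d29a1_pr, [CURV0] / [C0]: THE MASS OF THE PATHS OUT OF THE CONE OF A WINDOW, AT EVERY TILT OF THE KICK OF THE WINDOW. (helper50)

`steep50`: for the pinned polymer, `|t| ≤ 1`, the mean mass of the paths whose displacement over the window `[j - b, j + b)` is not in the
cone `δ₁` under the measure `wt` is at most `exp (- N ^ c')`, for every clip level `B ≥ 0`; `c'` is chosen last. On one environment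
(`mf_tilt50`) the mass is at most `4 exp (2 u)` times the masses under the measures with no and with one exact kick, `u` the size of the
kicks in a smaller cone (tools of helper48).
-/

set_option autoImplicit false
set_option linter.unusedSectionVars false

namespace Pool.Agent.W_7d29a1_C0.EvW50

open Pool.Agent.W_7d29a1_F hiding W_pos W_nonneg W_add
open Finset MeasureTheory Filter Topology Pool.Agent.W_7d29a1_X Pool.Agent.W_7d29a1_HZ
open Pool.Agent.W_7d29a1_HS (In wd)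
open Pool.Agent.W_7d29a1_H (sl)
open Pool.Agent.W_7d29a1_Z74
open Pool.Agent.W_7d29a1_HZ.Z74
open Pool.Agent.W_7d29a1_C0.Flip61 (Rk)
open Pool.Agent.W_7d29a1_C0.Mod92 (Px Pn ps lk cl Flat gw gj lw wt)
open Pool.Agent.W_7d29a1_C0.Loc14 (Qp Qp_nonneg measurable_Qp)
open Pool.Agent.W_7d29a1_C0.K14 (KU kick14_unit)
open Pool.Agent.W_7d29a1_C0.Tv48
open Pool.Agent.W_7d29a1_C0.LocM18 (Cn)
open Pool.W7d29a1.C0 (gz gm)

noncomputable section

/-! ### One environment -/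

section Abs

variable {X : Type*} [Fintype X]

theorem mf_tilt50 [Nonempty X] {A ρ R : X → ℝ} {st s1 : X → Prop} {u : ℝ} (hA : ∀ x, 0 < A x) (hR : ∀ x, 0 ≤ R x)
    (hρ : ∀ x, 0 < ρ x) (hρ1 : ∀ x, ρ x ≤ 1 + R x) (h3 : ∀ x, ¬ s1 x → R x ≤ Real.exp u ∧ Real.exp (-u) ≤ ρ x) (hu : 0 ≤ u)
    (m1 : mf A (fun _ => 1) s1 ≤ 1 / 2) (m2 : mf A R s1 ≤ 1 / 2) :
    mf A ρ st ≤ 4 * Real.exp (2 * u) * (mf A (fun _ => 1) st + mf A R st) := by
  classical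
  have hA0 : ∀ x, 0 ≤ A x := fun x => (hA x).le
  have hSA : 0 < ∑ x, A x := sum_pos (fun x _ => hA x) univ_nonempty
  have h1 := sum_le_of_mf hA0 hR m2 (fun x hx => (h3 x hx).1) (Real.exp_pos u).le
  have h2 := le_sum_of_mf hA0 (fun x => (hρ x).le) m1 (fun x hx => (h3 x hx).2) (Real.exp_pos (-u)).le
  have n1 := mf_nonneg hA0 (fun _ => zero_le_one) st
  have n2 := mf_nonneg hA0 hR st
  have h4 : (∑ x, if st x then A x * ρ x else 0) ≤ (mf A (fun _ => 1) st + mf A R st * (2 * Real.exp u)) * ∑ x, A x := by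
    have e1 : (∑ x, if st x then A x * ρ x else 0) ≤
        (∑ x, if st x then A x * 1 else 0) + ∑ x, if st x then A x * R x else 0 := by
      rw [← sum_add_distrib]
      refine sum_le_sum fun x _ => ?_
      split_ifs
      · have := mul_le_mul_of_nonneg_left (hρ1 x) (hA0 x)
        linarith
      · linarith
    rw [mf_mul hA0 (fun _ => zero_le_one) st, mf_mul hA0 hR st] at e1
    simp only [mul_one] at e1
    have e2 := mul_le_mul_of_nonneg_left h1 n2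
    linarith
  have h5 : 0 < ∑ x, A x * ρ x := sum_pos (fun x _ => mul_pos (hA x) (hρ x)) univ_nonempty
  have e3 : mf A ρ st = (∑ x, if st x then A x * ρ x else 0) / ∑ x, A x * ρ x := rfl
  rw [e3, div_le_iff₀ h5]
  refine h4.trans ?_
  have h6 : (∑ x, A x) ≤ 2 * Real.exp u * ∑ x, A x * ρ x := by
    have e4 : Real.exp u * Real.exp (-u) = 1 := by rw [← Real.exp_add, add_neg_cancel, Real.exp_zero]
    have e5 := mul_le_mul_of_nonneg_left h2 (by positivity : 0 ≤ 2 * Real.exp u)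
    have e6 : 2 * Real.exp u * (Real.exp (-u) / 2 * ∑ x, A x) = (Real.exp u * Real.exp (-u)) * ∑ x, A x := by ring
    rw [e6, e4, one_mul] at e5
    exact e5
  have n3 : 0 ≤ mf A (fun _ => 1) st + mf A R st * (2 * Real.exp u) := add_nonneg n1 (mul_nonneg n2 (by positivity))
  refine (mul_le_mul_of_nonneg_left h6 n3).trans ?_
  have h7 : 1 ≤ Real.exp u := Real.one_le_exp hu
  have h8 : mf A (fun _ => 1) st + mf A R st * (2 * Real.exp u) ≤ 2 * Real.exp u * (mf A (fun _ => 1) st + mf A R st) := by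
    nlinarith
  have h9 : Real.exp (2 * u) = Real.exp u * Real.exp u := by
    rw [← Real.exp_add]
    congr 1
    ring
  have h10 := mul_le_mul_of_nonneg_right h8 (by positivity : 0 ≤ 2 * Real.exp u * ∑ x, A x * ρ x)
  rw [h9]
  linarith

end Abs

variable {μ : Measure ℝ} {s : ℝ}

theorem cl_pos_le {B z : ℝ} (hB : 0 ≤ B) : cl B z ≤ max 0 z := by
  unfold cl
  refine max_le ?_ ((min_le_right _ _).trans (le_max_right _ _))
  exact (neg_nonpos.2 hB).trans (le_max_left _ _)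

/-- The tilt by the kick of a window is at most `1` plus the exact kick. -/
theorem tilt_le50 {η : Env} {δ B : ℝ} (hB : 0 ≤ B) {a : ℤ} (ha : a = 1 ∨ a = -1) {t R : ℝ} (ht : |t| ≤ 1) (hR : 0 ≤ R) {c l k : ℕ}
    {x y : ℤ} (h : Flat μ s δ l a (y - x) → Real.exp (lk μ s η c l k (-a) x y) = R) :
    Real.exp ((t - a) * gw μ s η δ B a c l k x y) ≤ 1 + R := by
  by_cases hf : Flat μ s δ l a (y - x)
  · rw [kick_flat ha hf t, ← h hf]
    obtain ⟨r1, r2⟩ := theta_mem ht ha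
    have q := cl_pos_le (z := lk μ s η c l k (-a) x y) hB
    have q1 : (1 - t * a) / 2 * cl B (lk μ s η c l k (-a) x y) ≤ max 0 (lk μ s η c l k (-a) x y) := by
      have q2 := mul_le_mul_of_nonneg_left q r1
      have q3 : (1 - t * a) / 2 * max 0 (lk μ s η c l k (-a) x y) ≤ max 0 (lk μ s η c l k (-a) x y) :=
        mul_le_of_le_one_left (le_max_left _ _) r2
      linarith
    refine (Real.exp_le_exp.2 q1).trans ?_
    rcases le_total 0 (lk μ s η c l k (-a) x y) with r3 | r3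
    · rw [max_eq_right r3]
      linarith
    · rw [max_eq_left r3, Real.exp_zero]
      linarith [Real.exp_pos (lk μ s η c l k (-a) x y)]
  · rw [kick_steep hf, mul_zero, Real.exp_zero]
    linarith

variable [IsProbabilityMeasure μ] {c C : ℝ} {n₀ : ℕ}

open Classical in
/-- The mass of a set of displacements over a window, under the law with the exact kick of the window. -/
theorem mass_kick50 {N y c l k : ℕ} {v : ℤ} (hv : |v| ≤ 1) (hk : k ≤ l) (hc : c + l ≤ N) {ε E : ℝ} (P : ℤ → Prop)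
    (hP : ∀ S, NSp μ s N N ε S → ∀ u : ℤ, |u| ≤ 1 → ¬ P (dw c l S + u))
    (hin : ∀ S, NSp μ s N N ε S → ∀ u : ℤ, |u| ≤ 1 → 0 ≤ dw c l S + u ∧ dw c l S + u ≤ l)
    (h0 : 0 ≤ (y : ℤ) - v) (h1 : (y : ℤ) - v ≤ N) (hE : ∫ η, Qp μ s η N ε (y - v) ∂(law μ) ≤ E) :
    ∃ q : Env → ℝ, Integrable q (law μ) ∧ (∀ η, 0 ≤ q η) ∧ ∫ η, q η ∂(law μ) ≤ E ∧ ∀ η,
      mf (fun S : Px (Pn N y) => pth μ s η N S.1) (fun S => Rw μ s c l k v η S.1) (fun S => P (dw c l S.1)) ≤ 2 * q η := by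
  obtain ⟨T, A, hT, hA0, hA1, hA, hF⟩ := flp_A (μ := μ) (s := s) (cb := c + l) (lb := 0) v hk le_rfl (by omega : c + l + 0 ≤ N)
  refine ⟨fun η => Qp μ s (T η) N ε (y - v), ?_, fun η => Qp_nonneg _ _ _ _, ?_, fun η => ?_⟩
  · exact (hT.integrable_comp (measurable_Qp N ε (y - v)).aestronglyMeasurable).2 (integrable_Qp h0 h1)
  · refine le_trans (le_of_eq ?_) hE
    rw [← hT.map_eq, integral_map hT.measurable.aemeasurable (measurable_Qp N ε (y - v)).aestronglyMeasurable, hT.map_eq]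
  · have hd : ∀ S : Finset ℕ, dw (c + l) 0 S = 0 := fun S => by
      unfold dw
      rw [add_zero, sub_self]
    exact mf_of_flip (hF η) hA0 hA1 (fun S hS => hA S (hin S hS v hv) (by rw [hd]; norm_num)) (fun d _ => P d)
      (fun S hS => hP S hS v hv) h0 h1

open Classical in
/-- The mass of a set of displacements over a window. -/
theorem mass_free50 {N y c l : ℕ} {ε E : ℝ} (P : ℤ → Prop)
    (hP : ∀ S, NSp μ s N N ε S → ∀ u : ℤ, |u| ≤ 1 → ¬ P (dw c l S + u))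
    (h0 : 0 ≤ (y : ℤ) - 0) (h1 : (y : ℤ) - 0 ≤ N) (hE : ∫ η, Qp μ s η N ε (y - 0) ∂(law μ) ≤ E) :
    ∃ q : Env → ℝ, Integrable q (law μ) ∧ (∀ η, 0 ≤ q η) ∧ ∫ η, q η ∂(law μ) ≤ E ∧ ∀ η,
      mf (fun S : Px (Pn N y) => pth μ s η N S.1) (fun _ => 1) (fun S => P (dw c l S.1)) ≤ 2 * q η := by
  refine ⟨fun η => Qp μ s η N ε (y - 0), integrable_Qp h0 h1, fun η => Qp_nonneg _ _ _ _, hE, fun η => ?_⟩
  refine mf_of_flip (μ := μ) (s := s) (η := η) (η' := η) (ca := c) (la := l) (cb := c) (lb := l) (ua := 0) (ub := 0) (w := 0)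
    (ε := ε) (Λ := fun _ => 1) (A := fun _ => 1) (fun Ψ => by simp) (fun _ => zero_le_one) (fun _ => le_rfl) (fun _ _ => rfl)
    (fun d _ => P d) (fun S hS => hP S hS 0 (by norm_num)) h0 h1

/-- The mass of a set of paths under the measure `wt`. -/
theorem gm_mf50 {η : Env} {N y : ℕ} {δ B t : ℝ} {b j : ℕ} {a : ℤ} {T : Px (Pn N y) → Prop} [DecidablePred T] {P : ℤ → Prop}
    {c₁ l : ℕ} (hT : ∀ S, T S ↔ ¬ P (dw c₁ l S.1)) :
    gm (wt μ s η N (Pn N y) δ B b j a t) (fun S => if T S then 0 else 1) =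
      mf (fun S : Px (Pn N y) => pth μ s η N S.1) (fun S => Real.exp ((t - a) * gj μ s η δ B b j a S))
        (fun S => P (dw c₁ l S.1)) := by
  classical
  have e1 : ∀ S : Px (Pn N y), Real.exp (wt μ s η N (Pn N y) δ B b j a t S) =
      pth μ s η N S.1 * Real.exp ((t - a) * gj μ s η δ B b j a S) := fun S => by
    unfold Mod92.wt
    rw [Pi.add_apply, Pi.smul_apply, smul_eq_mul, Real.exp_add, Mod92.exp_lw]
  unfold gm gz mf
  congr 1
  · refine sum_congr rfl fun S _ => ?_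
    rw [e1 S]
    beta_reduce
    by_cases q : P (dw c₁ l S.1)
    · rw [if_pos q, if_neg fun q' => (hT S).1 q' q, mul_one]
    · rw [if_neg q, if_pos ((hT S).2 q), mul_zero]
  · exact sum_congr rfl fun S _ => e1 S

/-- One environment: the mass of a set of displacements at the tilt. -/
theorem steep_pt50 {η : Env} {N y : ℕ} {δ B t u : ℝ} {b j : ℕ} {a : ℤ} (ha : a = 1 ∨ a = -1) (ht : |t| ≤ 1) (hB : 0 ≤ B)
    (hu : 0 ≤ u) [Nonempty (Px (Pn N y))] {P P1 : ℤ → Prop} {c₁ l k : ℕ} (hc₁ : c₁ = j - b) (hl : l = j + b - (j - b))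
    (hk : k = j - (j - b)) {qa1 qa2 qb1 qb2 : ℝ} (h1 : 0 ≤ qa1) (h2 : 0 ≤ qa2) (h3 : 0 ≤ qb1) (h4 : 0 ≤ qb2)
    (H1 : mf (fun S : Px (Pn N y) => pth μ s η N S.1) (fun _ => 1) (fun S => P (dw c₁ l S.1)) ≤ 2 * qa1)
    (H2 : mf (fun S : Px (Pn N y) => pth μ s η N S.1) (fun S => Rw μ s c₁ l k (-a) η S.1) (fun S => P (dw c₁ l S.1)) ≤ 2 * qa2)
    (I1 : mf (fun S : Px (Pn N y) => pth μ s η N S.1) (fun _ => 1) (fun S => P1 (dw c₁ l S.1)) ≤ 2 * qb1)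
    (I2 : mf (fun S : Px (Pn N y) => pth μ s η N S.1) (fun S => Rw μ s c₁ l k (-a) η S.1) (fun S => P1 (dw c₁ l S.1)) ≤ 2 * qb2)
    (hf : ∀ S : Px (Pn N y), Flat μ s δ l a (ps S (c₁ + l) - ps S c₁) →
      Real.exp (lk μ s η c₁ l k (-a) (ps S c₁) (ps S (c₁ + l))) = Rw μ s c₁ l k (-a) η S.1)
    (hs : ∀ S : Px (Pn N y), ¬ P1 (dw c₁ l S.1) → |lk μ s η c₁ l k (-a) (ps S c₁) (ps S (c₁ + l))| ≤ u ∧
      Real.exp (lk μ s η c₁ l k (-a) (ps S c₁) (ps S (c₁ + l))) = Rw μ s c₁ l k (-a) η S.1) :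
    mf (fun S : Px (Pn N y) => pth μ s η N S.1) (fun S => Real.exp ((t - a) * gj μ s η δ B b j a S))
        (fun S => P (dw c₁ l S.1)) ≤ 8 * Real.exp (2 * u) * (qa1 + qa2) + 4 * (qb1 + qb2) := by
  have hA0 : ∀ S : Px (Pn N y), 0 ≤ pth μ s η N S.1 := fun S => (Mod92.pth_pos η N S.1).le
  have hΛ0 : ∀ S : Px (Pn N y), 0 ≤ Real.exp ((t - a) * gj μ s η δ B b j a S) := fun S => (Real.exp_pos _).le
  have t2 := mf_le_one hA0 hΛ0 (fun S => P (dw c₁ l S.1))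
  have p1 : 0 ≤ 8 * Real.exp (2 * u) * (qa1 + qa2) := mul_nonneg (by positivity) (by linarith only [h1, h2])
  by_cases m1 : mf (fun S : Px (Pn N y) => pth μ s η N S.1) (fun _ => 1) (fun S => P1 (dw c₁ l S.1)) ≤ 1 / 2
  swap
  · rw [not_le] at m1
    linarith only [I1, m1, t2, p1, h3, h4]
  by_cases m2 : mf (fun S : Px (Pn N y) => pth μ s η N S.1) (fun S => Rw μ s c₁ l k (-a) η S.1) (fun S => P1 (dw c₁ l S.1)) ≤ 1 / 2
  swap
  · rw [not_le] at m2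
    linarith only [I2, m2, t2, p1, h3, h4]
  have hgj : ∀ S : Px (Pn N y), gj μ s η δ B b j a S = gw μ s η δ B a c₁ l k (ps S c₁) (ps S (c₁ + l)) := fun S => by
    unfold Mod92.gj
    rw [hc₁, hl, hk, show j - b + (j + b - (j - b)) = j + b by omega]
  have hT := mf_tilt50 (A := fun S : Px (Pn N y) => pth μ s η N S.1) (ρ := fun S => Real.exp ((t - a) * gj μ s η δ B b j a S))
    (R := fun S => Rw μ s c₁ l k (-a) η S.1) (st := fun S => P (dw c₁ l S.1)) (s1 := fun S => P1 (dw c₁ l S.1)) (u := u)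
    (fun S => Mod92.pth_pos η N S.1) (fun S => Rw_nonneg _ _ _ _ _ _) (fun S => Real.exp_pos _)
    (fun S => by
      rw [hgj S]
      exact tilt_le50 hB ha ht (Rw_nonneg _ _ _ _ _ _) (hf S))
    (fun S hS => by
      obtain ⟨q3, q4⟩ := hs S hS
      rw [← q4, hgj S]
      exact ⟨Real.exp_le_exp.2 (abs_le.1 q3).2, Real.exp_le_exp.2 (part_ge hB ha ht hu q3)⟩) hu m1 m2
  refine hT.trans ?_
  have s5 : 0 ≤ 4 * Real.exp (2 * u) := by positivity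
  have s6 := mul_le_mul_of_nonneg_left (add_le_add H1 H2) s5
  refine s6.trans ?_
  linarith only [h3, h4]

open Classical in
/-- **THE MASS OF THE PATHS OUT OF THE CONE, AT EVERY TILT.** -/
theorem steep50 (h : In μ s c C n₀) {θ : ℝ} (hθ : 0 < θ) : ∃ δ₀ : ℝ, 0 < δ₀ ∧ ∀ δ : ℝ, 0 < δ → δ ≤ δ₀ → ∀ δ₁ : ℝ, 0 < δ₁ →
    ∃ δ' c' : ℝ, 0 < δ' ∧ 0 < c' ∧ ∃ N₀ : ℕ, ∀ N : ℕ, N₀ ≤ N → ∀ y : ℕ, EndOk μ s δ' N y → ∀ B : ℝ, 0 ≤ B →
    ∀ b j : ℕ, (N : ℝ) ^ θ ≤ b → j + b ≤ N → ∀ a : ℤ, (a = 1 ∨ a = -1) → ∀ t : ℝ, |t| ≤ 1 →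
    ∫ η, gm (wt μ s η N (Pn N y) δ B b j a t) (fun S => if Cn μ s δ₁ (j - b) (j + b) S then 0 else 1) ∂(law μ) ≤
      Real.exp (-(N : ℝ) ^ c') := by
  obtain ⟨a₀, ha₀, ha₀1, hcA, hcB, hcC⟩ := cone_num h hθ
  refine ⟨a₀ / 2, by positivity, fun δ hδ hδa δ₁ hδ₁ => ?_⟩
  -- the exponent of the paths without steep places, first event
  obtain ⟨δ₂, hδ₂⟩ : ∃ δ₂ : ℝ, δ₂ = min δ₁ (a₀ / 2) := ⟨_, rfl⟩
  have hδ₂0 : 0 < δ₂ := hδ₂ ▸ lt_min hδ₁ (by linarith)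
  have hδ₂1 : δ₂ ≤ δ₁ := hδ₂ ▸ min_le_left _ _
  have hδ₂a : δ₂ < a₀ := lt_of_le_of_lt (hδ₂ ▸ min_le_right _ _) (by linarith)
  obtain ⟨εa, hεa⟩ : ∃ εa : ℝ, εa = θ * δ₂ / 2 := ⟨_, rfl⟩
  have hεa0 : 0 < εa := by rw [hεa]; positivity
  have hεa1 : εa < θ * δ₂ := by rw [hεa]; nlinarith [mul_pos hθ hδ₂0]
  obtain ⟨δa, hδa, ca, hca, N₂, hQa⟩ := int_Qp (μ := μ) (s := s) h hεa0
  -- the size of the kicks in the smaller cone
  obtain ⟨ε₁, hε₁⟩ : ∃ ε₁ : ℝ, ε₁ = min (ca / 2) θ := ⟨_, rfl⟩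
  have hε₁0 : 0 < ε₁ := hε₁ ▸ lt_min (by linarith) hθ
  have hε₁a : ε₁ < ca := lt_of_le_of_lt (hε₁ ▸ min_le_left _ _) (by linarith)
  have hε₁θ : ε₁ ≤ θ := hε₁ ▸ min_le_right _ _
  obtain ⟨δL, cL, hδL, hcL, N₃, hL⟩ := kick14_unit h hε₁0
  obtain ⟨κ₁, hκ₁⟩ : ∃ κ₁ : ℝ, κ₁ = min δL (a₀ / 2) := ⟨_, rfl⟩
  have hκ₁0 : 0 < κ₁ := hκ₁ ▸ lt_min hδL (by linarith)
  have hκ₁L : κ₁ ≤ δL := hκ₁ ▸ min_le_left _ _
  have hκ₁a : κ₁ < a₀ := lt_of_le_of_lt (hκ₁ ▸ min_le_right _ _) (by linarith)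
  obtain ⟨εb, hεb⟩ : ∃ εb : ℝ, εb = θ * (κ₁ / 2) / 2 := ⟨_, rfl⟩
  have hεb0 : 0 < εb := by rw [hεb]; positivity
  have hεb1 : εb < θ * (κ₁ / 2) := by rw [hεb]; nlinarith [mul_pos hθ hκ₁0]
  obtain ⟨δb, hδb, cb, hcb, N₄, hQb⟩ := int_Qp (μ := μ) (s := s) h hεb0
  -- the numbers
  obtain ⟨M₁, hM₁⟩ := hcA κ₁ hκ₁0 hκ₁a
  obtain ⟨M₂, hM₂⟩ := hcB (κ₁ / 2) κ₁ (by positivity) (by linarith)
  obtain ⟨M₃, hM₃⟩ := hcC δ₂ εa hδ₂0 hεa0 hεa1
  obtain ⟨M₇, hM₇⟩ := hcA δ₂ hδ₂0 hδ₂a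
  obtain ⟨M₄, hM₄⟩ := hcC (κ₁ / 2) εb (by positivity) hεb0 hεb1
  obtain ⟨M₅, hM₅⟩ := hcA (a₀ * (2 / 3)) (by positivity) (by linarith)
  obtain ⟨M₆, hM₆⟩ := hcB δ (a₀ * (2 / 3)) hδ (by linarith)
  obtain ⟨n₁, hn₁⟩ := wd'_eq h
  obtain ⟨c', hc'⟩ : ∃ c' : ℝ, c' = min cL (min ca cb) / 2 := ⟨_, rfl⟩
  have hm0 : 0 < min cL (min ca cb) := lt_min hcL (lt_min hca hcb)
  have hc'0 : 0 < c' := by rw [hc']; linarith only [hm0]
  have hc'L : c' < cL := by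
    have := min_le_left cL (min ca cb)
    rw [hc']; linarith only [this, hm0]
  have hc'a : c' < ca := by
    have := (min_le_right cL (min ca cb)).trans (min_le_left _ _)
    rw [hc']; linarith only [this, hm0]
  have hc'b : c' < cb := by
    have := (min_le_right cL (min ca cb)).trans (min_le_right _ _)
    rw [hc']; linarith only [this, hm0]
  have x2 : ∀ᶠ N : ℕ in atTop, 4 * (N : ℝ) ^ (0 : ℝ) * Real.exp (-(1 * (N : ℝ) ^ cL)) ≤ 1 / 2 * Real.exp (-(N : ℝ) ^ c') :=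
    ev_exp (by norm_num) one_pos hcL hc'L 0
  have x3 : ∀ᶠ N : ℕ in atTop, 64 * (N : ℝ) ^ (0 : ℝ) * Real.exp (-(1 / 2 * (N : ℝ) ^ ca)) ≤ 1 / 2 * Real.exp (-(N : ℝ) ^ c') :=
    ev_exp (by norm_num) (by norm_num) hca hc'a 0
  have x4 : ∀ᶠ N : ℕ in atTop, 32 * (N : ℝ) ^ (0 : ℝ) * Real.exp (-(1 * (N : ℝ) ^ cb)) ≤ 1 / 2 * Real.exp (-(N : ℝ) ^ c') :=
    ev_exp (by norm_num) one_pos hcb hc'b 0
  have x5 : ∀ᶠ N : ℕ in atTop, 2 * (N : ℝ) ^ ε₁ ≤ 1 / 2 * (N : ℝ) ^ ca := ev_pow_le hε₁a (by norm_num)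
  have x6 : ∀ᶠ N : ℕ in atTop, (n₁ : ℝ) + 1 ≤ (N : ℝ) ^ θ := ev_pow hθ _
  obtain ⟨M₀, hM₀⟩ := ((x2.and (x3.and x4)).and ((x5.and x6).and (eventually_ge_atTop 1))).exists_forall_of_atTop
  refine ⟨min δa δb, c', lt_min hδa hδb, hc'0, M₀ + N₂ + N₃ + N₄ + M₁ + M₂ + M₃ + M₄ + M₅ + M₆ + M₇, ?_⟩
  intro N hN y hy B hB0 b j hb hjN a ha t ht
  obtain ⟨⟨y2, y3, y4⟩, ⟨y5, y7⟩, y6⟩ := hM₀ N (by omega)
  rw [Real.rpow_zero] at y2 y3 y4
  have hNR : (1 : ℝ) ≤ N := by exact_mod_cast y6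
  -- the window
  obtain ⟨c₁, hc₁⟩ : ∃ c₁ : ℕ, c₁ = j - b := ⟨_, rfl⟩
  obtain ⟨l, hl'⟩ : ∃ l : ℕ, l = j + b - (j - b) := ⟨_, rfl⟩
  obtain ⟨k, hk'⟩ : ∃ k : ℕ, k = j - (j - b) := ⟨_, rfl⟩
  have hb1 : 1 ≤ b := by
    have h1 : (1 : ℝ) ≤ b := (Real.one_le_rpow hNR hθ.le).trans hb
    exact_mod_cast h1
  have hcl : c₁ + l = j + b := by omega
  have hclN : c₁ + l ≤ N := by omega
  have hkl : k < l := by omega
  have hl1 : 1 ≤ l := by omega
  have hl : (N : ℝ) ^ θ ≤ l := by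
    have h2 : b ≤ l := by omega
    exact hb.trans (by exact_mod_cast h2)
  have hln : n₁ ≤ l := by
    have : (n₁ : ℝ) ≤ l := by linarith
    exact_mod_cast this
  have hwd : 0 ≤ wd μ s l := by
    unfold Pool.Agent.W_7d29a1_HS.wd
    exact mul_nonneg (Nat.cast_nonneg _) (h.vA_nonneg l)
  have hwd' : wd' μ s l = wd μ s l := (hn₁ l hln).1
  have ia : |(-a : ℤ)| ≤ 1 := by rcases ha with e | e <;> rw [e] <;> norm_num
  have ia' : |(a : ℤ)| ≤ 1 := by rcases ha with e | e <;> rw [e] <;> norm_num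
  -- the sets of ends
  obtain ⟨P, hPd⟩ : ∃ P : ℤ → Prop, P = fun d : ℤ => ¬ |(d : ℝ) - sl μ s * l| ≤ (l : ℝ) ^ δ₁ * wd' μ s l := ⟨_, rfl⟩
  obtain ⟨P1, hP1d⟩ : ∃ P1 : ℤ → Prop, P1 = fun d : ℤ => ¬ |(d : ℝ) - sl μ s * l| ≤ (l : ℝ) ^ κ₁ * wd μ s l := ⟨_, rfl⟩
  have hnsp : ∀ {ε : ℝ} {S : Finset ℕ}, NSp μ s N N ε S → |((dw c₁ l S : ℤ) : ℝ) - sl μ s * l| ≤ (N : ℝ) ^ ε * wd' μ s l :=
    fun hS => hS _ _ hl1 hclN
  have hPa : ∀ S, NSp μ s N N εa S → ∀ u : ℤ, |u| ≤ 1 → ¬ P (dw c₁ l S + u) := by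
    intro S hS u hu
    rw [hPd, not_not, hwd']
    have q1 := hnsp hS
    have q2 := hM₃ N (by omega) l hl
    have q4 : (l : ℝ) ^ δ₂ * wd μ s l ≤ (l : ℝ) ^ δ₁ * wd μ s l :=
      mul_le_mul_of_nonneg_right (Real.rpow_le_rpow_of_exponent_le (by exact_mod_cast hl1) hδ₂1) hwd
    have hu' : |(u : ℝ)| ≤ 1 := by exact_mod_cast hu
    obtain ⟨u1, u2⟩ := abs_le.1 hu'
    obtain ⟨d1, d2⟩ := abs_le.1 q1
    rw [abs_le]
    push_cast
    constructor <;> linarith only [u1, u2, d1, d2, q2, q4]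
  have hia : ∀ S, NSp μ s N N εa S → ∀ u : ℤ, |u| ≤ 1 → 0 ≤ dw c₁ l S + u ∧ dw c₁ l S + u ≤ l := fun S hS u hu => by
    have q2 := hM₃ N (by omega) l hl
    have q3 := hM₇ N (by omega) l hl
    exact in_of_cone q3.1 q3.2 ((hnsp hS).trans (by linarith only [q2])) u hu
  have hrb : (N : ℝ) ^ εb * wd' μ s l + 2 ≤ (l : ℝ) ^ κ₁ * wd μ s l := by
    have q2 := hM₄ N (by omega) l hl
    have q3 := hM₂ N (by omega) l hl
    linarith only [q2, q3]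
  have hPb : ∀ S, NSp μ s N N εb S → ∀ u : ℤ, |u| ≤ 1 → ¬ P1 (dw c₁ l S + u) := by
    intro S hS u hu
    rw [hP1d, not_not]
    have q1 := hnsp hS
    have hu' : |(u : ℝ)| ≤ 1 := by exact_mod_cast hu
    obtain ⟨u1, u2⟩ := abs_le.1 hu'
    obtain ⟨d1, d2⟩ := abs_le.1 q1
    rw [abs_le]
    push_cast
    constructor <;> linarith only [u1, u2, d1, d2, hrb]
  have hib : ∀ S, NSp μ s N N εb S → ∀ u : ℤ, |u| ≤ 1 → 0 ≤ dw c₁ l S + u ∧ dw c₁ l S + u ≤ l := fun S hS u hu => by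
    have q3 := hM₁ N (by omega) l hl
    exact in_of_cone q3.1 q3.2 ((hnsp hS).trans (by linarith only [hrb])) u hu
  -- the masses
  have w0 : |(0 : ℤ)| ≤ 2 := by norm_num
  have w1 : |(-a : ℤ)| ≤ 2 := ia.trans (by norm_num)
  obtain ⟨z0, z1, z2⟩ := hQa N (by omega) y (hy.mono (min_le_left _ _) y6) 0 w0
  obtain ⟨-, -, z3⟩ := hQb N (by omega) y (hy.mono (min_le_right _ _) y6) 0 w0
  obtain ⟨z4, z5, z6⟩ := hQa N (by omega) y (hy.mono (min_le_left _ _) y6) (-a) w1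
  obtain ⟨-, -, z7⟩ := hQb N (by omega) y (hy.mono (min_le_right _ _) y6) (-a) w1
  obtain ⟨qa1, A1, C1, E1, H1⟩ := mass_free50 (c := c₁) (l := l) P hPa z0 z1 z2
  obtain ⟨qb1, B1, D1, G1, I1⟩ := mass_free50 (c := c₁) (l := l) P1 hPb z0 z1 z3
  obtain ⟨qa2, A2, C2, E2, H2⟩ := mass_kick50 (k := k) ia hkl.le hclN P hPa hia z4 z5 z6
  obtain ⟨qb2, B2, D2, G2, I2⟩ := mass_kick50 (k := k) ia hkl.le hclN P1 hPb hib z4 z5 z7
  -- the bad event of the kicks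
  obtain ⟨G, hG⟩ : ∃ G : Set Env, G = toMeasurable (law μ) {η | ¬ KU μ s N δL ε₁ η} := ⟨_, rfl⟩
  have mG : MeasurableSet G := by rw [hG]; exact measurableSet_toMeasurable _ _
  have hGs : {η | ¬ KU μ s N δL ε₁ η} ⊆ G := by rw [hG]; exact subset_toMeasurable _ _
  have hGm : (law μ).real G ≤ Real.exp (-(N : ℝ) ^ cL) := by
    have q1 : law μ G ≤ ENNReal.ofReal (Real.exp (-(N : ℝ) ^ cL)) := by
      rw [hG, measure_toMeasurable]
      exact hL N (by omega)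
    exact ENNReal.toReal_le_of_le_ofReal (Real.exp_pos _).le q1
  obtain ⟨u, hu⟩ : ∃ u : ℝ, u = (N : ℝ) ^ ε₁ := ⟨_, rfl⟩
  have hu0 : 0 ≤ u := by rw [hu]; positivity
  have hne : Nonempty (Px (Pn N y)) := Mod92.ne_Pn (by
    have : (y : ℤ) ≤ N := by linarith
    exact_mod_cast this)
  -- the measure as a mass
  have hmf : ∀ η, gm (wt μ s η N (Pn N y) δ B b j a t) (fun S => if Cn μ s δ₁ (j - b) (j + b) S then 0 else 1) =
      mf (fun S : Px (Pn N y) => pth μ s η N S.1) (fun S => Real.exp ((t - a) * gj μ s η δ B b j a S))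
        (fun S => P (dw c₁ l S.1)) := fun η => gm_mf50 fun S => by
    rw [hPd, not_not, hl', hc₁]
    unfold dw
    rw [show j - b + (j + b - (j - b)) = j + b by omega]
    exact Iff.rfl
  -- the pointwise bound
  have hpos : ∀ S : Px (Pn N y), |ps S c₁| ≤ 2 * (N : ℤ) := by
    intro S
    have q1 := Mod92.ps_nonneg S c₁
    have q2 := Mod92.ps_le S c₁
    rw [abs_of_nonneg q1]
    omega
  have q5 := hM₁ N (by omega) l hl
  have q6 := hM₅ N (by omega) l hl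
  have q7 := hM₆ N (by omega) l hl
  have key : ∀ η, gm (wt μ s η N (Pn N y) δ B b j a t) (fun S => if Cn μ s δ₁ (j - b) (j + b) S then 0 else 1) ≤
      G.indicator (fun _ => (1 : ℝ)) η + (8 * Real.exp (2 * u) * (qa1 η + qa2 η) + 4 * (qb1 η + qb2 η)) := by
    intro η
    rw [hmf η]
    by_cases hη : η ∈ G
    · have hA0 : ∀ S : Px (Pn N y), 0 ≤ pth μ s η N S.1 := fun S => (Mod92.pth_pos η N S.1).le
      have hΛ0 : ∀ S : Px (Pn N y), 0 ≤ Real.exp ((t - a) * gj μ s η δ B b j a S) := fun S => (Real.exp_pos _).le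
      have t2 := mf_le_one hA0 hΛ0 (fun S => P (dw c₁ l S.1))
      have p1 : 0 ≤ 8 * Real.exp (2 * u) * (qa1 η + qa2 η) := mul_nonneg (by positivity) (add_nonneg (C1 η) (C2 η))
      have p2 : 0 ≤ 4 * (qb1 η + qb2 η) := mul_nonneg (by norm_num) (add_nonneg (D1 η) (D2 η))
      rw [Set.indicator_of_mem hη]
      linarith only [t2, p1, p2]
    rw [Set.indicator_of_notMem hη, zero_add]
    have kL : KU μ s N δL ε₁ η := by
      by_contra hc
      exact hη (hGs hc)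
    refine steep_pt50 ha ht hB0 hu0 hc₁ hl' hk' (C1 η) (C2 η) (D1 η) (D2 η) (H1 η) (H2 η) (I1 η) (I2 η) (fun S hf => ?_)
      fun S hS => ?_
    · have q1 := cone_of_flat ha q7 hf
      have r1 := in_of_cone q6.1 q6.2 q1 a ia'
      have r2 := in_of_cone q6.1 q6.2 q1 0 (by norm_num)
      rw [add_zero] at r2
      exact exp_lk η hkl.le (by linarith only [r1.1]) (by linarith only [r1.2]) r2.1 r2.2
    · rw [hP1d, not_not] at hS
      have hd' : |((ps S (c₁ + l) - ps S c₁ : ℤ) : ℝ) - sl μ s * l| ≤ (l : ℝ) ^ κ₁ * wd μ s l := hS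
      have q3 : |lk μ s η c₁ l k (-a) (ps S c₁) (ps S (c₁ + l))| ≤ u := by
        rw [hu]
        exact kick_bd kL hclN ((Real.rpow_le_rpow_of_exponent_le hNR hε₁θ).trans hl) hkl (hpos S) ia hκ₁L hd' hwd
      have r1 := in_of_cone q5.1 q5.2 hd' a ia'
      have r2 := in_of_cone q5.1 q5.2 hd' 0 (by norm_num)
      rw [add_zero] at r2
      exact ⟨q3, exp_lk η hkl.le (by linarith only [r1.1]) (by linarith only [r1.2]) r2.1 r2.2⟩
  -- the integral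
  have iG : Integrable (fun x => G.indicator (fun _ => (1 : ℝ)) x) (law μ) := (integrable_const _).indicator mG
  have iA : Integrable (fun x => 8 * Real.exp (2 * u) * (qa1 x + qa2 x)) (law μ) := (A1.add A2).const_mul _
  have iB : Integrable (fun x => 4 * (qb1 x + qb2 x)) (law μ) := (B1.add B2).const_mul _
  have iAB : Integrable (fun x => 8 * Real.exp (2 * u) * (qa1 x + qa2 x) + 4 * (qb1 x + qb2 x)) (law μ) := iA.add iB
  refine (integral_mono_of_nonneg (Eventually.of_forall fun η => ?_) (iG.add iAB) (Eventually.of_forall key)).trans ?_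
  · rw [hmf η]
    have hA0 : ∀ S : Px (Pn N y), 0 ≤ pth μ s η N S.1 := fun S => (Mod92.pth_pos η N S.1).le
    have hΛ0 : ∀ S : Px (Pn N y), 0 ≤ Real.exp ((t - a) * gj μ s η δ B b j a S) := fun S => (Real.exp_pos _).le
    exact mf_nonneg hA0 hΛ0 _
  have e1 := integral_add iG iAB
  have e2 := integral_add iA iB
  have e3 := integral_add A1 A2
  have e4 := integral_add B1 B2
  simp only [Pi.add_apply] at e1 ⊢
  rw [e1, e2, integral_const_mul, integral_const_mul, e3, e4, integral_indicator mG]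
  have e5 : ∫ x in G, (1 : ℝ) ∂(law μ) = (law μ).real G := by simp
  rw [e5]
  have g1 : 8 * Real.exp (2 * u) * (∫ η, qa1 η ∂(law μ) + ∫ η, qa2 η ∂(law μ)) ≤
      8 * Real.exp (2 * u) * (2 * Real.exp (-(N : ℝ) ^ ca)) :=
    mul_le_mul_of_nonneg_left (by linarith only [E1, E2]) (by positivity)
  have g2 : Real.exp (2 * u) * Real.exp (-(N : ℝ) ^ ca) ≤ Real.exp (-(1 / 2 * (N : ℝ) ^ ca)) := by
    rw [← Real.exp_add]
    refine Real.exp_le_exp.2 ?_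
    rw [hu]
    linarith only [y5]
  rw [one_mul] at y2 y4
  have z9 := Real.exp_pos (-(N : ℝ) ^ cL)
  linarith only [g1, g2, y2, y3, y4, z9, hGm, G1, G2]

end

end Pool.Agent.W_7d29a1_C0.EvW50
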