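import Pool.Agent.W_7d29a1_C0.Loc7Q

/-!
CURV0 (MP_7d29a1_pr), leaf E0: PLANS, FORWARD, FINAL FORM (helper7).

`e0_finP`: for every plan of `k` replicas which draws through `pB (c + K)` (free replicas, replicas given `pB z` or `pJ 0 z` of an old one, `c + K ≤ z`,
shadows): the statement `E0X`. `e0_wtP`: for the measure `wt` of `Mod92`, over `Pm`.
-/

set_option autoImplicit false

namespace Pool.W7d29a1.C0.H7

open Finset MeasureTheory Filter Topology Pool.Agent.W_7d29a1_F Pool.Agent.W_7d29a1_X Pool.Agent.W_7d29a1_C0.Mod92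
  Pool.Agent.W_7d29a1_C0.H32 Pool.W7d29a1.C0.H27
open Pool.Agent.W_7d29a1_H (sl)
open Pool.Agent.W_7d29a1_HS (In wd)
open Pool.Agent.W_7d29a1_HZ (NSp wd' gp)
open Pool.W7d29a1.C0 (gz gm gz_pos)
open Pool.W7d29a1.C0.VT31 (Crs)
open Pool.W7d29a1.C0.I52 (Plan ev av zs ev_mono ev_nonneg ev_const ev_sum ev_congr abs_ev_le)
open Pool.Agent.W_7d29a1_C0.Loc14 (Qp Qf LocG loc14 far_le)
open Pool.Agent.W_7d29a1_C0.LocM18 (Ns Cna Cn gm_pin gm_free sh_zero)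
open scoped ENNReal

noncomputable section

variable {μ : Measure ℝ} {s : ℝ} {N : ℕ} {P : Finset (Finset ℕ)}

/-! ### The maps -/

/-- `pB z` is a function of `pB c1`, `c1 ≤ z`. -/
theorem crs_pB {c1 z : ℕ} (h : c1 ≤ z) : Crs (pB (P := P) z) (pB c1) := by
  intro S S' hS
  have h1 : ps S c1 = ps S' c1 := congrArg Prod.fst hS
  have h2 : S.1 \ range c1 = S'.1 \ range c1 := congrArg Prod.snd hS
  have h3 : ∀ S : Finset ℕ, S \ range z = (S \ range c1) \ range z := fun S => by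
    ext i
    simp only [Finset.mem_sdiff, Finset.mem_range]
    constructor
    · rintro ⟨h3, h4⟩
      exact ⟨⟨h3, by omega⟩, h4⟩
    · rintro ⟨⟨h3, _⟩, h4⟩
      exact ⟨h3, h4⟩
  unfold pB
  refine Prod.ext ?_ ?_
  · show ps S z = ps S' z
    unfold ps at h1 ⊢
    rw [pos_split h S.1, pos_split h S'.1, h1, h2]
  · show S.1 \ range z = S'.1 \ range z
    rw [h3 S.1, h3 S'.1, h2]

/-- `pJ 0 z` is a function of `pB c1`, `c1 ≤ z`. -/
theorem crs_pJ0 {c1 z : ℕ} (h : c1 ≤ z) : Crs (pJ (Q := P) 0 z) (pB c1) := by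
  intro S S' hS
  have h1 := crs_pB (P := P) h S S' hS
  have h2 : ps S z = ps S' z := congrArg Prod.fst h1
  have h3 : S.1 \ range z = S'.1 \ range z := congrArg Prod.snd h1
  unfold pJ
  have e : Ico 0 z = range z := by rw [range_eq_Ico]
  rw [e]
  refine Prod.ext h3 ?_
  show (S.1 ∩ range z).card = (S'.1 ∩ range z).card
  unfold ps pos at h2
  exact_mod_cast h2

/-! ### The fields -/

open Classical in
/-- **E0 forward for plans**, the localisation as a hypothesis. -/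
theorem e0_modP [IsProbabilityMeasure μ] [Nonempty (Px P)] {c K : ℕ} {M σ R : ℝ} {U : Env → Finset ℕ → ℝ}
    (hP : Fam N (c + K) P) (hK0 : 0 < K) (hN : c + K ≤ N)
    (hM : 0 ≤ M) (hU : PA c M U) (hR : 0 ≤ R) {p C θ0 : ℝ} (hp : 1 ≤ p) (hC : 0 ≤ C) (hQ : QI μ p C θ0)
    (hθ : 2 * M / K ≤ θ0) {Cn : Finset Pt} (hCn : Cn ⊆ slb c K) {δ0 ε : ℝ} (hδ0 : 0 ≤ δ0) (hε0 : 0 ≤ ε)
    {Ω : Set Env} (hΩ : MeasurableSet Ω)
    (hg1 : ∀ η ∈ Ω, ∀ j < K, ∀ z : ℤ, (((c + j + 1 : ℕ) : ℤ), z) ∈ Cn →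
      FarM μ s η c σ R j z ≤ δ0 * Mt μ s η (c + j + 1) (fun _ => 1) z)
    (hg2 : ∀ η ∈ Ω, gm (lw μ s η N P) (fun S => if Out7 c K Cn S.1 then 1 else 0) ≤ ε)
    (hg3 : ∀ η ∈ Ω, gm (lw μ s η N P) (fun S => if ps S c ∈ nbC c K σ R (ps S (c + K)) then 0 else 1) ≤ ε)
    {k : ℕ} {Pl : Plan (Px P) k} (hMg : Marg Pl) (hSt : Sat (pB (c + K)) Pl)
    {Λ : ℝ} {Ψ Ψ' : Env → (Fin k → Px P) → ℝ} (h0 : ∀ η x, 0 ≤ Ψ η x) (hΛ : ∀ η x, Ψ η x ≤ Λ)
    (h0' : ∀ η x, 0 ≤ Ψ' η x) (hΛ' : ∀ η x, Ψ' η x ≤ Λ) (hm : ∀ x, Measurable fun η => Ψ' η x)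
    (hΨ : ∀ η, ∀ x x' : Fin k → Px P, (∀ i, pB (c + K) (x i) = pB (c + K) (x' i)) → Ψ η x = Ψ η x')
    (hpas : ∀ η ∈ Ω, ∀ ζ : Env, (∀ q, q ∉ slb c K → ζ q = η q) → (∀ q, |ζ q - η q| ≤ 2 * M / K) → ∀ x, Ψ η x ≤ Ψ' ζ x) :
    ∫⁻ η, ENNReal.ofReal (ev Pl (fun S => lw μ s η N P S + tA c U η S) (Ψ η)) ∂(law μ) ≤
      ENNReal.ofReal (Real.exp (C * (k * K * (4 * R + 1) * (2 * M / K) ^ 2 + (slb c K).card * (Real.exp (4 * M) * δ0) ^ 2))) *
        ((((N + 1 : ℕ) : ℝ≥0∞) ^ k) ^ (1 - 1 / p) *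
          (∫⁻ η, ENNReal.ofReal (ev Pl (lw μ s η N P) (Ψ' η)) ^ p ∂(law μ)) ^ (1 / p)) +
      ENNReal.ofReal ((N + 1 : ℝ) ^ k * (4 * k * Real.exp (12 * M) * ε * Λ) + Λ * k * (Real.exp (2 * M) * ε)) +
      ENNReal.ofReal Λ * law μ Ωᶜ := by
  have h2M : 0 ≤ 2 * M := by linarith
  set Bb : (Fin k → ℤ) → Finset ℤ := fun b => (H43.bx b).biUnion (nbC c K σ R) with hBb
  set δ : ℝ := Real.exp (4 * M) * δ0 with hδ
  have hδn : 0 ≤ δ := mul_nonneg (Real.exp_pos _).le hδ0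
  have hPA : ∀ b, PA c (2 * M) (Ab c U M (Bb b)) := fun b => Ab_PA hM hU _
  set f0 : (Fin k → ℤ) → Pt → Env → ℝ := fun b => fG μ s c K (slb c K) (Ab c U M (Bb b)) with hf0
  set φ : (Fin k → ℤ) → Pt → Env → ℝ := fun b => swS (f0 b) Cn (nearS c K σ R b) δ with hφ
  have hΛ0 : ∀ η : Env, 0 ≤ Λ := fun η => (h0 η fun _ => Classical.arbitrary _).trans (hΛ η _)
  have hΛn : 0 ≤ Λ := hΛ0 fun _ => 0
  have hf0b : ∀ b, ∀ q ∈ slb c K, ∀ η, |f0 b q η| ≤ 2 * M / K := fun b q _ η => fG_bd h2M (hPA b) q η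
  refine e0_coreP (p := p) (C := C) (θ0 := θ0) (Qs := slb c K) (Ω := Ω) (ε := ε) (k := k) hMg (M := M)
    (u := fun η S => tA c U η S) (fun η S => hU.bd η _)
    (fun S => ps S c) (fun S => ps S (c + K)) (fun S => mem_Icc.2 ⟨ps_nonneg S _, (ps_le S _).trans (by exact_mod_cast hN)⟩)
    (nbC c K σ R) hp hC hQ (fun q => q.1) φ (fun b q _ => swS_meas (fG_meas (hPA b) q))
    (fun b => swS_pred (fG_pred (rws_slb c K) (hPA b)))
    (fun b q hq η => ((swS_le q η).trans (hf0b b q hq η)).trans hθ)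
    (fun b η => (swS_sq (hf0b b) hδn η).trans (by
      refine add_le_add (mul_le_mul_of_nonneg_right (card_nearS c K hR b) (sq_nonneg _)) le_rfl))
    hΩ hg3 h0 hΛ h0' hm (by positivity) (fun η hη b => ?_)
  have e1 : (fun S => lw μ s η N P S + (if ps S c ∈ Bb b then tA c U η S + M else 0)) =
      fun S : Px P => lw μ s η N P S + tA c (Ab c U M (Bb b)) η S := by
    funext S
    rw [tA_Ab]
  have hsm := fG_small (μ := μ) (s := s) hM hU hCn hδ0 (hg1 η hη) b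
  have key := sw_stepP (μ := μ) (s := s) (N := N) (P := P) (c := c) (K := K) (D := 2 * M) (δ := δ) (φ := f0 b) (Cn := Cn)
    (Nb := nearS c K σ R b) hMg hSt (η := η) (w1 := fun S => lw μ s η N P S + tA c (Ab c U M (Bb b)) η S)
    (fun b' => (trans_lw_slb (μ := μ) (s := s) hP hK0 hN (hPA b) η b').symm) h2M (fun q hq => hf0b b q hq η)
    (fun q hq hn => hsm q hq hn)
    (Ψ := fun x => if (fun i => ps (x i) (c + K)) = b then Ψ η x else 0)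
    (Ψ' := fun x => if (fun i => ps (x i) (c + K)) = b then Ψ' (Sh (slb c K) (φ b) η) x else 0) (Λ := Λ) (ε := ε)
    (fun x x' hx => by
      have hb : (fun i => ps (x i) (c + K)) = fun i => ps (x' i) (c + K) := funext fun i => congrArg Prod.fst (hx i)
      rw [hb, hΨ η x x' hx])
    (fun x => by
      by_cases hb : (fun i => ps (x i) (c + K)) = b
      · simp only [hb, if_true]
        refine hpas η hη _ (fun q hq => Sh_out _ _ hq) (fun q => ?_) x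
        by_cases hq : q ∈ slb c K
        · rw [Sh_in _ _ hq, add_sub_cancel_left]
          exact (swS_le q η).trans (hf0b b q hq η)
        · rw [Sh_out _ _ hq, sub_self, abs_zero]
          positivity
      · simp only [hb, if_false, le_refl])
    (fun x => by
      by_cases hb : (fun i => ps (x i) (c + K)) = b
      · simp only [hb, if_true]
        rw [abs_of_nonneg (h0' _ x)]
        exact hΛ' _ x
      · simp only [hb, if_false, abs_zero]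
        exact hΛn)
    (hg2 η hη)
  rw [e1]
  refine key.trans (le_of_eq ?_)
  rw [show 6 * (2 * M) = 12 * M by ring]

/-- **E0, FINAL FORM, FORWARD, PLANS.** -/
theorem e0_finP [IsProbabilityMeasure μ] {c₀ C₀ : ℝ} {n₀ : ℕ} (h : In μ s c₀ C₀ n₀)
    (hQI : ∀ p : ℝ, 1 < p → ∃ C θ0 : ℝ, 0 ≤ C ∧ 0 < θ0 ∧ QI μ p C θ0) {κ : ℝ} (hκ : 0 < κ) (hκ1 : κ ≤ 1) (k : ℕ) {ε K' : ℝ}
    (hε : 0 < ε) (hK' : 0 ≤ K') : ∃ δ' ε₁ : ℝ, 0 < δ' ∧ 0 < ε₁ ∧ ∃ N₀ : ℕ, ∀ N : ℕ, N₀ ≤ N →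
      ∀ P : Finset (Finset ℕ), Pok μ s N δ' P → ∀ c K : ℕ, (N : ℝ) ^ κ ≤ c → (N : ℝ) ^ κ ≤ K → c + K ≤ N →
      ∀ M : ℝ, 0 ≤ M → M ≤ (N : ℝ) ^ ε₁ → ∀ U : Env → Finset ℕ → ℝ, PA c M U →
        E0X μ s k N P c K (pB (c + K)) (2 * M / K) (tA c U) ε K' := by
  classical
  obtain ⟨a, K₁, ha, ha1, hK1, hw⟩ := Pool.Agent.W_7d29a1_HZ.wd'_pow h
  obtain ⟨e2, he2⟩ : ∃ e2 : ℝ, e2 = a * κ / 4 := ⟨_, rfl⟩
  have he20 : 0 < e2 := by rw [he2]; positivity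
  obtain ⟨δa, ga, hδa, hga, Na, hLa⟩ := loc14 h hκ e2 he20
  obtain ⟨e3, he3⟩ : ∃ e3 : ℝ, e3 = min e2 (κ * δa) := ⟨_, rfl⟩
  have he30 : 0 < e3 := by rw [he3]; exact lt_min he20 (by positivity)
  have he32 : e3 ≤ e2 := by rw [he3]; exact min_le_left _ _
  have he33 : e3 ≤ κ * δa := by rw [he3]; exact min_le_right _ _
  obtain ⟨δb, gb, hδb, hgb, Nb, hLb⟩ := loc14 h hκ e3 he30
  obtain ⟨g, hg⟩ : ∃ g : ℝ, g = min ga gb := ⟨_, rfl⟩
  have hg0 : 0 < g := by rw [hg]; exact lt_min hga hgb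
  have hg1 : g ≤ ga := by rw [hg]; exact min_le_left _ _
  have hg2 : g ≤ gb := by rw [hg]; exact min_le_right _ _
  obtain ⟨e1, he1⟩ : ∃ e1 : ℝ, e1 = min (a * κ / 8) (min (g / 2) (κ / 2)) := ⟨_, rfl⟩
  have he10 : 0 < e1 := by rw [he1]; exact lt_min (by positivity) (lt_min (by positivity) (by positivity))
  have hp1 : 1 < p7 k ε K' := p7_gt hε hK'
  obtain ⟨C, θ0, hC, hθ, hQ⟩ := hQI (p7 k ε K') hp1
  have hw1 : 1 ≤ wd' μ s 1 := le_max_left _ _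
  have hK1w : 1 ≤ K₁ * wd' μ s 1 := by nlinarith
  have n1 := num7 k (K' := K') (K₁ := K₁ * wd' μ s 1) (C := C) (e1 := e1) (e2 := e2) hκ ha hK1w hg0 hC hθ
    (by rw [he1]; exact min_le_left _ _) (by rw [he1]; exact (min_le_right _ _).trans (min_le_left _ _))
    (by rw [he1]; exact (min_le_right _ _).trans (min_le_right _ _)) he20.le (le_of_eq he2)
  have n2 := fin7 k hε hK'
  have n3 := Pool.Agent.W_7d29a1_HZ.Z74.ev_exp (A := 8) (a := 1) (b := g) (c := g / 2) (by norm_num) one_pos hg0 (by linarith)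
    (2 * K')
  have n4 := Pool.Agent.W_7d29a1_HZ.Z74.ev_pow (show 0 < e1 / 2 by positivity) 3
  obtain ⟨N₁, hN₁⟩ := eventually_atTop.1 (n1.and (n2.and (n3.and n4)))
  refine ⟨δb, e1 / 2, hδb, by positivity, max (max Na Nb) (max N₁ 1), fun N hN P hP c K hc hK hcK M hM0 hM U hU Pl hMg hSt G hG
    Ψ Ψ' h0 hΛ h0' hΛ' hmΨ hm hΨ hpas => ?_⟩
  have k1 : Na ≤ N := (le_max_left _ _).trans ((le_max_left _ _).trans hN)
  have k2 : Nb ≤ N := (le_max_right _ _).trans ((le_max_left _ _).trans hN)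
  have k3 : N₁ ≤ N := (le_max_left _ _).trans ((le_max_right _ _).trans hN)
  have k4 : 1 ≤ N := (le_max_right _ _).trans ((le_max_right _ _).trans hN)
  obtain ⟨⟨m1, m2⟩, m3, m4, m5⟩ := hN₁ N k3
  have hNR : (1 : ℝ) ≤ N := by exact_mod_cast k4
  have hN0 : (0 : ℝ) < N := by linarith
  have hKp : (0 : ℝ) < K := (Real.rpow_pos_of_pos hN0 κ).trans_le hK
  have hK0 : 0 < K := by exact_mod_cast hKp
  have := hP.ne
  -- the width
  obtain ⟨w1, _, w3⟩ := hw 1 K le_rfl hK0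
  have hW1 : 1 ≤ wd' μ s K := le_max_left _ _
  have hW : wd' μ s K ≤ K₁ * wd' μ s 1 * (K : ℝ) ^ (1 - a) := by
    refine w3.trans (le_of_eq ?_)
    rw [Nat.cast_one, div_one]
    ring
  have h3M : 3 * M ≤ (N : ℝ) ^ e1 := by
    have e : (N : ℝ) ^ e1 = (N : ℝ) ^ (e1 / 2) * (N : ℝ) ^ (e1 / 2) := by
      rw [← Real.rpow_add hN0]
      congr 1
      ring
    rw [e]
    exact mul_le_mul m5 hM hM0 (Real.rpow_nonneg hN0.le _)
  obtain ⟨q1, q2, q3⟩ := m2 c K (3 * M) (wd' μ s K) hK hcK (by linarith) h3M hW1 hW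
  set R : ℝ := K₁ * wd' μ s 1 * (N : ℝ) ^ e2 * wd' μ s K with hR
  have hNe : 0 < (N : ℝ) ^ e2 := Real.rpow_pos_of_pos hN0 _
  have hR0 : 0 ≤ R := by rw [hR]; positivity
  have hRi : ∀ i : ℕ, 1 ≤ i → i ≤ K → (N : ℝ) ^ e2 * wd' μ s i ≤ R := fun i hi hiK => by
    have h1 := (hw i K hi hiK).1
    have h2 : K₁ * wd' μ s K ≤ K₁ * wd' μ s 1 * wd' μ s K := by
      have : 0 ≤ K₁ * wd' μ s K := by positivity
      nlinarith
    calc (N : ℝ) ^ e2 * wd' μ s i ≤ (N : ℝ) ^ e2 * (K₁ * wd' μ s 1 * wd' μ s K) :=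
          mul_le_mul_of_nonneg_left (h1.trans h2) hNe.le
      _ = R := by rw [hR]; ring
  -- the good event
  obtain ⟨Ω, hΩm, hΩ, hΩc⟩ := good7 (μ := μ) fun η => LocG μ s N κ δa e2 ga η ∧ LocG μ s N κ δb e3 gb η
  set ε0 := Real.exp (-(N : ℝ) ^ g) with hε0
  have hε00 : 0 < ε0 := Real.exp_pos _
  have mono_g : ∀ x : ℝ, g ≤ x → Real.exp (-(N : ℝ) ^ x) ≤ ε0 := fun x hx =>
    Real.exp_le_exp.2 (neg_le_neg (Real.rpow_le_rpow_of_exponent_le hNR hx))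
  have hlocal : ∀ η ∈ Ω, gm (lw μ s η N P) (fun S => if Ns μ s e2 0 N S ∧ Cna μ s N κ δa S then 0 else 1) ≤ ε0 := fun η hη =>
    (Pok.loc (hΩ η hη).2 hδa.le k4 hκ1 he33 he32 hP).trans (mono_g _ hg2)
  have hq1 : 2 * M / K ≤ θ0 := by
    refine le_trans ?_ q1
    refine div_le_div_of_nonneg_right ?_ hKp.le
    linarith
  have key := e0_modP (μ := μ) (s := s) (σ := sl μ s) (R := R) (Cn := Cn7 μ s δa c K) (δ0 := ε0) (ε := ε0) (Ω := Ω ∩ G)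
    (hP.fam (by omega : c + K ≤ N)) hK0 hcK hM0 hU hR0 hp1.le hC hQ hq1 (filter_subset _ _) hε00.le
    hε00.le (hΩm.inter hG)
    (fun η hη j hj z hz => (g1_7 (hΩ η hη.1).1 hc hcK he20.le hRi j hj z hz).trans
      (mul_le_mul_of_nonneg_right (mono_g _ hg1) (Mt_nonneg _ _ (fun _ => zero_le_one) _)))
    (fun η hη => (Pool.W7d29a1.C0.gm_mono _ fun S => g2_7 hc hcK S).trans (hlocal η hη.1))
    (fun η hη => (Pool.W7d29a1.C0.gm_mono _ fun S => g3_7 hK0 hcK (hRi K hK0 le_rfl) S).trans (hlocal η hη.1))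
    hMg hSt h0 hΛ h0' hΛ' hm hΨ (fun η hη => hpas η hη.2)
  -- the exponent
  have hG' : ∀ η, 0 ≤ ev Pl (lw μ s η N P) (Ψ' η) := fun η => ev_nonneg Pl _ (h0' η)
  have hZ := lint_pow7 (law μ) hG' (fun η => ev_le_const Pl _ (hΛ' η)) hp1.le (τ := (N : ℝ) ^ (-(K' + 1)))
    (Real.rpow_pos_of_pos hN0 _)
  have hE : (N + 1 : ℝ) ^ k * (4 * k * Real.exp (12 * M) * ε0 * (N : ℝ) ^ K') + (N : ℝ) ^ K' * k * (Real.exp (2 * M) * ε0) ≤
      (N : ℝ) ^ (-K') / 4 := by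
    refine le_trans (add_le_add (le_of_eq ?_) ?_) q3
    · rw [show 4 * (3 * M) = 12 * M by ring]
    · have h1 : Real.exp (2 * M) ≤ Real.exp (2 * (3 * M)) := Real.exp_le_exp.2 (by linarith)
      have h2 := Real.rpow_nonneg hN0.le K'
      gcongr
  have hB : C * (k * K * (4 * R + 1) * (2 * M / K) ^ 2 + (slb c K).card * (Real.exp (4 * M) * ε0) ^ 2) ≤ 1 := by
    refine le_trans (mul_le_mul_of_nonneg_left (add_le_add ?_ ?_) hC) q2
    · have h1 : (2 * M / K) ^ 2 ≤ (2 * (3 * M) / K) ^ 2 := by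
        refine pow_le_pow_left₀ (by positivity) ?_ 2
        refine div_le_div_of_nonneg_right ?_ hKp.le
        linarith
      exact mul_le_mul_of_nonneg_left h1 (by positivity)
    · have h1 : (Real.exp (4 * M) * ε0) ^ 2 ≤ (Real.exp (4 * (3 * M)) * ε0) ^ 2 := by
        refine pow_le_pow_left₀ (by positivity) ?_ 2
        refine mul_le_mul_of_nonneg_right (Real.exp_le_exp.2 ?_) hε00.le
        linarith
      exact mul_le_mul_of_nonneg_left h1 (Nat.cast_nonneg _)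
  have hL : ENNReal.ofReal ((N : ℝ) ^ K') * law μ Ωᶜ ≤ ENNReal.ofReal ((N : ℝ) ^ (-K') / 4) := by
    have h1 : law μ Ωᶜ ≤ ENNReal.ofReal (2 * ε0) := by
      rw [hΩc]
      have hsub : {η | ¬(LocG μ s N κ δa e2 ga η ∧ LocG μ s N κ δb e3 gb η)} ⊆
          {η | ¬ LocG μ s N κ δa e2 ga η} ∪ {η | ¬ LocG μ s N κ δb e3 gb η} := by
        intro η hη
        by_contra hcon
        rw [Set.mem_union, not_or] at hcon
        exact hη ⟨not_not.1 hcon.1, not_not.1 hcon.2⟩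
      refine (measure_mono hsub).trans ((measure_union_le _ _).trans ((add_le_add (hLa N k1) (hLb N k2)).trans ?_))
      rw [← ENNReal.ofReal_add (Real.exp_pos _).le (Real.exp_pos _).le]
      refine ENNReal.ofReal_le_ofReal ?_
      have h3 := mono_g ga hg1
      have h4 := mono_g gb hg2
      linarith
    refine (mul_le_mul_right h1 _).trans ?_
    rw [← ENNReal.ofReal_mul (Real.rpow_nonneg hN0.le _)]
    refine ENNReal.ofReal_le_ofReal ?_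
    have hpos := Real.rpow_pos_of_pos hN0 K'
    have e : (N : ℝ) ^ (2 * K') = (N : ℝ) ^ K' * (N : ℝ) ^ K' := by
      rw [← Real.rpow_add hN0]
      congr 1
      ring
    have h5 : 8 * ((N : ℝ) ^ K' * (N : ℝ) ^ K') * ε0 ≤ 1 := by
      rw [← e]
      rw [one_mul] at m4
      refine m4.trans ?_
      have : Real.exp (-(N : ℝ) ^ (g / 2)) ≤ 1 := by
        rw [Real.exp_le_one_iff]
        linarith [Real.rpow_pos_of_pos hN0 (g / 2)]
      linarith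
    rw [Real.rpow_neg hN0.le, le_div_iff₀ (by norm_num), ← one_div, le_div_iff₀ hpos]
    linarith
  have hcompl : ENNReal.ofReal ((N : ℝ) ^ K') * law μ (Ω ∩ G)ᶜ ≤
      ENNReal.ofReal ((N : ℝ) ^ K') * law μ Ωᶜ + ENNReal.ofReal ((N : ℝ) ^ K') * law μ Gᶜ := by
    rw [← mul_add, Set.compl_inter]
    exact mul_le_mul_right (measure_union_le _ _) _
  have fin := m3 _ _ _ _ _ _ _ (key.trans (add_le_add le_rfl hcompl)) hZ hB hE hL
  refine real7 (fun η => ev_nonneg Pl _ (h0 η)) (fun η => ev_nonneg Pl _ (h0' η)) ?_ ?_ (fun η => ev_le_const Pl _ (hΛ' η))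
    (Real.rpow_nonneg (Nat.cast_nonneg _) _) (Real.rpow_nonneg (Nat.cast_nonneg _) _) (Real.rpow_nonneg (Nat.cast_nonneg _) _) fin
  · exact meas_evP (fun S => (meas_lw S).add (hU.ms _)) Pl hmΨ
  · exact meas_evP (fun S => meas_lw S) Pl hm

/-- **E0 for plans and the measure `wt` of the window of the row `j`**, over the environment and the signs. -/
theorem e0_wtP [IsProbabilityMeasure μ] [Nonempty (Px P)] {k c K : ℕ} {B ε K' : ℝ}
    (h : ∀ U : Env → Finset ℕ → ℝ, PA c B U → E0X μ s k N P c K (pB (c + K)) (2 * B / K) (tA c U) ε K') (hB : 0 ≤ B) {δ t : ℝ}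
    (ht : |t| ≤ 1) {b j : ℕ} (hc : j + b ≤ c) {Pl : Plan (Px P) k} (hMg : Marg Pl)
    (hSt : Sat (pB (c + K)) Pl) {G : Set Env} (hG : MeasurableSet G)
    {Ψ Ψ' : Env × Finset ℕ → (Fin k → Px P) → ℝ} (h0 : ∀ ω x, 0 ≤ Ψ ω x) (hΛ : ∀ ω x, Ψ ω x ≤ (N : ℝ) ^ K')
    (h0' : ∀ ω x, 0 ≤ Ψ' ω x) (hΛ' : ∀ ω x, Ψ' ω x ≤ (N : ℝ) ^ K') (hm : ∀ x A, Measurable fun η => Ψ (η, A) x)
    (hm' : ∀ x A, Measurable fun η => Ψ' (η, A) x)
    (hΨ : ∀ ω, ∀ x x' : Fin k → Px P, (∀ i, pB (c + K) (x i) = pB (c + K) (x' i)) → Ψ ω x = Ψ ω x')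
    (hpas : ∀ A, ∀ η ∈ G, ∀ ζ : Env, (∀ q, q ∉ slb c K → ζ q = η q) → (∀ q, |ζ q - η q| ≤ 2 * B / K) →
      ∀ x, Ψ (η, A) x ≤ Ψ' (ζ, A) x) :
    ∫ ω, ev Pl (wt μ s ω.1 N P δ B b j (sg ω.2 j) t) (Ψ ω) ∂(Pm μ N) ≤
      (N : ℝ) ^ ε * (∫ ω, ev Pl (wm μ s N P ω) (Ψ' ω) ∂(Pm μ N) + (N : ℝ) ^ (-K')) + (N : ℝ) ^ K' * (law μ Gᶜ).toReal := by
  have h1 := E0X.pm (u := fun A => tA c (gwU μ s δ B b j (sg A j) t)) (fun A => h _ (gwU_PA hB (abs_sg A j).le ht hc))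
    (fun A S => (gwU_PA (μ := μ) (s := s) (δ := δ) hB (abs_sg A j).le ht hc).ms _) hMg hSt hG h0 hΛ h0' hΛ' hm hm' hΨ hpas
  refine le_trans (le_of_eq ?_) h1
  refine integral_congr_ae (Eventually.of_forall fun ω => ?_)
  simp only [wt_tA (N := N) (P := P) (t := t) (δ := δ) (B := B) (a := sg ω.2 j) hc]

end

end Pool.W7d29a1.C0.H7
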