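import Pool.Agent.W_7d29a1_C0.TM72
import Pool.Agent.W_7d29a1_C0.EvU50
import Pool.Agent.W_7d29a1_C0.Loc7R

/-!
CURV0 (MP_7d29a1_pr), leaf (T), THE NUMBERS OF ONE ROW (helper72): the tilt of the row as a function of the past (`tA_uj72`), `E0X` for it
(`e0_uj72`), and `rowN72`: `rowM72` with the gain of the slab in numbers; the micro terms stay a hypothesis.
-/

set_option autoImplicit false
set_option linter.unusedSectionVars false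
set_option linter.unusedVariables false

namespace Pool.Agent.W_7d29a1_C0.T72

open Finset MeasureTheory Filter Topology
open Pool.Agent.W_7d29a1_C0 Pool.Agent.W_7d29a1_C0.Mod92 Pool.Agent.W_7d29a1_C0.Swap57 Pool.Agent.W_7d29a1_C0.NM82
open Pool.Agent.W_7d29a1_C0.CutT57 Pool.Agent.W_7d29a1_C0.Base5
open Pool.Agent.W_7d29a1_F Pool.Agent.W_7d29a1_X
open Pool.Agent.W_7d29a1_H (sl)
open Pool.Agent.W_7d29a1_HS (In wd)
open Pool.Agent.W_7d29a1_HZ (wd')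
open Pool.Agent.W_7d29a1_C0.FP63 (WF Rd gf tf wf_gf wf_tf at2 lA lA_tf at2_gf at2_meas cf)
open Pool.Agent.W_7d29a1_C0.H32
open Pool.Agent.W_7d29a1_C0.InT57 (CF CF_eq FV57 FV57_eq psi6 psi6_nonneg bnt57 bnt57_le ins_T57 QA57 df57 ds57 ds57_nonneg ds57_le_one
  df57_nonneg tail_num57)
open Pool.Agent.W_7d29a1_C0.CrA44 (ge)
open Pool.Agent.W_7d29a1_C0.EvT50 (ev_pw50 ev_exp50)
open Pool.W7d29a1.C0 Pool.W7d29a1.C0.VT31 Pool.W7d29a1.C0.T72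
open Pool.W7d29a1.C0.H41 (tail1)
open Pool.W7d29a1.C0.H7 (E0X Marg Sat meas_evP Pok e0_finP)
open Pool.W7d29a1.C0.H27 (pB slb mem_slb PA tA QI)

noncomputable section

variable {μ : Measure ℝ} {s : ℝ} {N : ℕ}

/-! ### The tilt of the row as a function of the past -/

/-- The tilt of the row `j` on the paths cut at any row behind its window. -/
def ut72 (μ : Measure ℝ) (s : ℝ) (δ B : ℝ) (b j : ℕ) (t : ℝ) (A : Finset ℕ) (η : Env) (S : Finset ℕ) : ℝ :=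
  tf μ s δ B b j (sg A j) t η (pos S)

theorem tA_uj72 {Q : Finset (Finset ℕ)} {c0 : ℕ} (δ B : ℝ) {b j : ℕ} (hj : j + b ≤ c0) (hB : 0 ≤ B) (t : ℝ) (A : Finset ℕ) :
    uj72 μ s Q δ B b j t A = tA c0 (ut72 μ s δ B b j t A) := by
  funext η S
  show tf μ s δ B b j (sg A j) t η (ps S) = tf μ s δ B b j (sg A j) t η (pos (S.1 ∩ range c0))
  refine (wf_tf (μ := μ) (s := s) hB δ b j (abs_sg A j).le t).rd η _ _ fun r _ hr => ?_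
  rw [Pool.Agent.W_7d29a1_C0.E1M82.pos_cut S.1 (hr.trans hj)]
  rfl

theorem pA_ut72 {c0 : ℕ} {B : ℝ} (hB : 0 ≤ B) (δ : ℝ) {b j : ℕ} (hj : j + b ≤ c0) {t : ℝ} (ht : |t| ≤ 1) (A : Finset ℕ) :
    PA c0 B (ut72 μ s δ B b j t A) where
  bd η S := by
    refine ((wf_tf (μ := μ) (s := s) hB δ b j (abs_sg A j).le t).bd η _).trans ?_
    have h2 : |t - (sg A j : ℝ)| ≤ 2 := (abs_sub _ _).trans (by rw [abs_sg]; linarith)
    calc |t - (sg A j : ℝ)| * (B / 2) ≤ 2 * (B / 2) := mul_le_mul_of_nonneg_right h2 (by linarith)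
      _ = B := by ring
  bl η u x hu := by
    funext S
    have h := (wf_tf (μ := μ) (s := s) hB δ b j (abs_sg A j).le t).blind η u x (Or.inr (by omega))
    exact congrFun h _
  ms S := (wf_tf (μ := μ) (s := s) hB δ b j (abs_sg A j).le t).meas _

/-- **E0 FOR THE TILT OF A ROW.** -/
theorem e0_uj72 [IsProbabilityMeasure μ] {c₀ C₀ : ℝ} {n₀ : ℕ} (h : In μ s c₀ C₀ n₀)
    (hQI : ∀ p : ℝ, 1 < p → ∃ C θ0 : ℝ, 0 ≤ C ∧ 0 < θ0 ∧ QI μ p C θ0) {κ : ℝ} (hκ : 0 < κ) (hκ1 : κ ≤ 1) (k : ℕ) {ε K' : ℝ}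
    (hε : 0 < ε) (hK' : 0 ≤ K') : ∃ δ' β : ℝ, 0 < δ' ∧ 0 < β ∧ ∃ N₀ : ℕ, ∀ N : ℕ, N₀ ≤ N →
      ∀ P : Finset (Finset ℕ), Pok μ s N δ' P → ∀ c0 K : ℕ, (N : ℝ) ^ κ ≤ c0 → (N : ℝ) ^ κ ≤ K → c0 + K ≤ N →
      ∀ B : ℝ, 0 ≤ B → B ≤ (N : ℝ) ^ β → ∀ (δ : ℝ) (b j : ℕ), j + b ≤ c0 → ∀ t : ℝ, |t| ≤ 1 → ∀ A : Finset ℕ,
        E0X μ s k N P c0 K (pB (c0 + K)) (2 * B / K) (uj72 μ s P δ B b j t A) ε K' := by
  obtain ⟨δ', β, hδ', hβ, N₀, hN₀⟩ := e0_finP h hQI hκ hκ1 k hε hK'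
  refine ⟨δ', β, hδ', hβ, N₀, fun N hN P hP c0 K hc hK hcK B hB hBβ δ b j hj t ht A => ?_⟩
  rw [tA_uj72 δ B hj hB t A]
  exact hN₀ N hN P hP c0 K hc hK hcK B hB hBβ _ (pA_ut72 hB δ hj ht A)

/-! ### The numbers -/

theorem Pok.mono72 {δ δ' : ℝ} (hN : 1 ≤ N) (h : δ ≤ δ') (hw : 0 ≤ wd' μ s N) {y : ℕ}
    (hy : |(y : ℝ) - sl μ s * N| ≤ (N : ℝ) ^ δ * wd' μ s N) : |(y : ℝ) - sl μ s * N| ≤ (N : ℝ) ^ δ' * wd' μ s N :=
  hy.trans (mul_le_mul_of_nonneg_right (Real.rpow_le_rpow_of_exponent_le (by exact_mod_cast hN) h) hw)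

/-- The gain of the slab of `n` rows with tubes of width `R`. -/
def gn72 (N : ℕ) (ε B R : ℝ) (n : ℕ) : ℝ := (N : ℝ) ^ ε * √(7 * (5 : ℕ) * R * (B / 2) ^ 2 / n)

theorem gn72_nonneg (N : ℕ) (ε B R : ℝ) (n : ℕ) : 0 ≤ gn72 N ε B R n := by
  unfold gn72
  positivity

theorem gn72_le {ε B R : ℝ} (hN : 1 ≤ N) (hB : 0 ≤ B) (hBN : B ≤ N) (hR0 : 0 ≤ R) (hR : R ≤ (N : ℝ) ^ 2) {n : ℕ} (hn : 1 ≤ n) :
    gn72 N ε B R n ≤ 3 * ((N : ℝ) ^ ε * (N : ℝ) ^ 2) := by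
  have hN1 : (1 : ℝ) ≤ N := by exact_mod_cast hN
  have h1 : 7 * (5 : ℕ) * R * (B / 2) ^ 2 / n ≤ (3 * (N : ℝ) ^ 2) ^ 2 := by
    have hn1 : (1 : ℝ) ≤ n := by exact_mod_cast hn
    have h2 : 7 * (5 : ℕ) * R * (B / 2) ^ 2 / n ≤ 7 * (5 : ℕ) * R * (B / 2) ^ 2 := div_le_self (by positivity) hn1
    have h3 : B ^ 2 ≤ (N : ℝ) ^ 2 := pow_le_pow_left₀ hB hBN 2
    have h4 : R * B ^ 2 ≤ (N : ℝ) ^ 2 * (N : ℝ) ^ 2 := mul_le_mul hR h3 (by positivity) (by positivity)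
    have e1 : 7 * ((5 : ℕ) : ℝ) * R * (B / 2) ^ 2 = 35 / 4 * (R * B ^ 2) := by
      push_cast
      ring
    have e2 : (3 * (N : ℝ) ^ 2) ^ 2 = 9 * ((N : ℝ) ^ 2 * (N : ℝ) ^ 2) := by ring
    rw [e1] at h2
    rw [e1, e2]
    have h5 : 0 ≤ (N : ℝ) ^ 2 * (N : ℝ) ^ 2 := by positivity
    linarith
  unfold gn72
  have h6 : √(7 * (5 : ℕ) * R * (B / 2) ^ 2 / n) ≤ 3 * (N : ℝ) ^ 2 := by
    rw [← Real.sqrt_sq (by positivity : 0 ≤ 3 * (N : ℝ) ^ 2)]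
    exact Real.sqrt_le_sqrt h1
  calc (N : ℝ) ^ ε * √(7 * (5 : ℕ) * R * (B / 2) ^ 2 / n) ≤ (N : ℝ) ^ ε * (3 * (N : ℝ) ^ 2) :=
        mul_le_mul_of_nonneg_left h6 (Real.rpow_nonneg (by linarith) _)
    _ = _ := by ring

/-- **ONE ROW OF ONE LEVEL, WITH THE NUMBERS**, the micro terms as a hypothesis. -/
theorem rowN72 [IsProbabilityMeasure μ] {c₀ C₀ : ℝ} {n₀ : ℕ} (h : In μ s c₀ C₀ n₀)
    (hQI : ∀ p : ℝ, 1 < p → ∃ C θ0 : ℝ, 0 ≤ C ∧ 0 < θ0 ∧ QI μ p C θ0) {f₀ f₀' : ℝ → ℝ} (hf₀ : DenLaw μ f₀ f₀')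
    {κ ε K' : ℝ} (hκ : 0 < κ) (hκ1 : κ ≤ 1) (hε : 0 < ε) (hε1 : ε ≤ 1) (hK' : 0 ≤ K') :
    ∃ δ' β : ℝ, 0 < δ' ∧ 0 < β ∧ ∃ N₀ : ℕ, ∀ N : ℕ, N₀ ≤ N → ∀ y : ℕ, y ≤ N → |(y : ℝ) - sl μ s * N| ≤ (N : ℝ) ^ δ' * wd' μ s N →
      ∀ [Nonempty (Px (Pn N y))], ∀ B : ℝ, 1 ≤ B → B ≤ (N : ℝ) ^ β → ∀ (δ : ℝ) (b0 b j c0 K a0 n z z' c cc d : ℕ), b0 ≤ b →
      (N : ℝ) ^ κ ≤ c0 → (N : ℝ) ^ κ ≤ K → j + b ≤ c0 → c0 + K ≤ a0 → 1 ≤ n → a0 + n < z → z ≤ z' → z' ≤ c → c ≤ d → d ≤ N →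
      ∀ R : ℝ, 1 ≤ R → R ≤ (N : ℝ) ^ 2 → (∀ k : ℕ, 1 ≤ k → k ≤ z' - a0 → (N : ℝ) ^ ε * wd' μ s k ≤ R / 4) →
      ∀ (D : ℝ) (f : Fam N), 0 ≤ D → D ≤ (N : ℝ) ^ 3 → Cls59 N cc d D f → ∀ t : ℝ, |t| ≤ 1 → ∀ (L : ℕ → Fam N) (A2 e2 : ℝ),
      (∀ m ∈ Ioc a0 (a0 + n), |MX72 μ s N (Pn N y) δ B b0 j t z z'
        (KX72 μ s N (Pn N y) δ B b0 j t m fun ω => ge μ s N (Pn N y) δ B b0 b ω j)
        (fun ω => gg μ s (Pn N y) δ B b0 ω j) (f y)| ≤ A2 * RX72 μ s N (Pn N y) (a0 + n) z z' c (L m y) (f y) + e2) →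
      (∀ m ∈ Ioc a0 (a0 + n), |MX72 μ s N (Pn N y) δ B b0 j t z z'
        (KX72 μ s N (Pn N y) δ B b0 j t m fun ω => gg μ s (Pn N y) δ B b0 ω j)
        (fun ω => ge μ s N (Pn N y) δ B b0 b ω j) (f y)| ≤ A2 * RX72 μ s N (Pn N y) (a0 + n) z z' c (L m y) (f y) + e2) →
      |TI72 μ s N (Pn N y) δ B b0 j t (pJ 0 z') (pJ 0 z) (fun ω => ge μ s N (Pn N y) δ B b0 b ω j) (f y)| ≤
        B ^ 2 * gn72 N ε B R n * (N : ℝ) ^ ε * RX72 μ s N (Pn N y) a0 z z' c (fun _ _ => 1) (f y) +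
        B ^ 3 * (N : ℝ) ^ ε * ∫ ω, FV57 (wm μ s N (Pn N y) ω) a0 z z' c R (f y ω) ∂(Pm μ N) +
        2 * A2 * ((n : ℝ)⁻¹ * ∑ m ∈ Ioc a0 (a0 + n), RX72 μ s N (Pn N y) (a0 + n) z z' c (L m y) (f y)) +
        (2 * e2 + (N : ℝ) ^ (-K')) := by
  obtain ⟨Kd, θ0, hs⟩ := hf₀.sg
  have hKd := hs.2.1
  have hθ0 := hs.2.2.1
  obtain ⟨θ, hθd⟩ : ∃ θ, θ = min θ0 1 := ⟨_, rfl⟩
  have hθ : 0 < θ := by rw [hθd]; exact lt_min hθ0 one_pos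
  have hθθ : θ ≤ θ0 := by rw [hθd]; exact min_le_left _ _
  obtain ⟨δ3, β3, hδ3, hβ3, N3, hN3⟩ := e0_uj72 h hQI hκ hκ1 3 hε (show 0 ≤ K' + 20 by linarith)
  obtain ⟨δ6, β6, hδ6, hβ6, N6, hN6⟩ := e0_uj72 h hQI hκ hκ1 6 hε (show 0 ≤ K' + 20 by linarith)
  obtain ⟨δb, cb, hδb, hcb, Nb, hNb⟩ := bnt57_le h hε
  obtain ⟨δ', hδ'⟩ : ∃ x, x = min δ3 (min δ6 δb) := ⟨_, rfl⟩
  obtain ⟨β, hβ⟩ : ∃ x, x = min (min β3 β6) (min (cb / 2) 1) := ⟨_, rfl⟩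
  have hδ'0 : 0 < δ' := by rw [hδ']; exact lt_min hδ3 (lt_min hδ6 hδb)
  have hβ0 : 0 < β := by rw [hβ]; exact lt_min (lt_min hβ3 hβ6) (lt_min (by linarith) one_pos)
  have d3 : δ' ≤ δ3 := by rw [hδ']; exact min_le_left _ _
  have d6 : δ' ≤ δ6 := by rw [hδ']; exact (min_le_right _ _).trans (min_le_left _ _)
  have db : δ' ≤ δb := by rw [hδ']; exact (min_le_right _ _).trans (min_le_right _ _)
  have b3 : β ≤ β3 := by rw [hβ]; exact (min_le_left _ _).trans (min_le_left _ _)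
  have b6 : β ≤ β6 := by rw [hβ]; exact (min_le_left _ _).trans (min_le_right _ _)
  have bc : β ≤ cb / 2 := by rw [hβ]; exact (min_le_right _ _).trans (min_le_left _ _)
  have b1 : β ≤ 1 := by rw [hβ]; exact (min_le_right _ _).trans (min_le_right _ _)
  have ev1 := ev_exp50 (32 * (4 * (3 / θ)) * Real.exp (Kd * θ ^ 2)) (K' + 20) (a := θ / 2) (by linarith) hε
  have ev2 := ev_exp50 17 (K' + 20) (a := 1 / 2) (by norm_num) hcb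
  have ev3 := ev_pw50 (show β < cb by linarith) 4
  obtain ⟨N1, hN1⟩ := eventually_atTop.1 (ev1.and (ev2.and ev3))
  refine ⟨δ', β, hδ'0, hβ0, max (max N3 N6) (max (max Nb N1) 8), ?_⟩
  intro N hN y hy hyc _ B hB1 hBβ δ b0 b j c0 K a0 n z z' c cc d hb hc0 hK hj hcK hn hz hzz hzc hcd hdN R hR1 hR2 hRw D f hD0 hD hf
    t ht L A2 e2 hm1 hm2
  have k3 : N3 ≤ N := (le_max_left _ _).trans ((le_max_left _ _).trans hN)
  have k6 : N6 ≤ N := (le_max_right _ _).trans ((le_max_left _ _).trans hN)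
  have kb : Nb ≤ N := (le_max_left _ _).trans ((le_max_left _ _).trans ((le_max_right _ _).trans hN))
  have k1 : N1 ≤ N := (le_max_right _ _).trans ((le_max_left _ _).trans ((le_max_right _ _).trans hN))
  have k8 : 8 ≤ N := (le_max_right _ _).trans ((le_max_right _ _).trans hN)
  obtain ⟨a1, a2, a3⟩ := hN1 N k1
  have hN1' : (1 : ℝ) ≤ N := by exact_mod_cast (show 1 ≤ N by omega)
  have hN8 : (8 : ℝ) ≤ N := by exact_mod_cast k8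
  have hN0 : (0 : ℝ) < N := by linarith
  have hB0 : 0 ≤ B := by linarith
  have hBN : B ≤ N := hBβ.trans (by
    calc (N : ℝ) ^ β ≤ (N : ℝ) ^ (1 : ℝ) := Real.rpow_le_rpow_of_exponent_le hN1' b1
      _ = N := Real.rpow_one _)
  have hw0 : 0 ≤ wd' μ s N := zero_le_one.trans (le_max_left _ _)
  have hp : ∀ {x : ℝ}, β ≤ x → B ≤ (N : ℝ) ^ x := fun hx => hBβ.trans (Real.rpow_le_rpow_of_exponent_le hN1' hx)
  have hok : ∀ {x : ℝ}, δ' ≤ x → Pok μ s N x (Pn N y) := fun hx =>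
    Or.inr ⟨y, hy, Pok.mono72 (by omega) hx hw0 hyc, rfl⟩
  -- the slab
  obtain ⟨J, hJd⟩ : ∃ J, J = Ioc a0 (a0 + n) := ⟨_, rfl⟩
  have hJc : J.card = n := by
    rw [hJd, Nat.card_Ioc]
    omega
  have hJm : ∀ r ∈ J, a0 < r ∧ r ≤ a0 + n := fun r hr => by
    rw [hJd] at hr
    exact mem_Ioc.1 hr
  have hJ0 : J.Nonempty := card_pos.1 (by omega)
  have hn1 : (1 : ℝ) ≤ n := by exact_mod_cast hn
  have hn0 : (0 : ℝ) < n := by linarith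
  -- the tail
  obtain ⟨q, hq⟩ : ∃ q : ℝ, q = 7 * (5 : ℕ) * R * (B / 2) ^ 2 / n := ⟨_, rfl⟩
  have hq0 : 0 < q := by
    rw [hq]
    positivity
  have hqs : 0 < √q := Real.sqrt_pos.2 hq0
  have hg : gn72 N ε B R n = (N : ℝ) ^ ε * √q := by rw [hq]; rfl
  have hgle := gn72_le (N := N) (ε := ε) (by omega) hB0 hBN (by linarith) hR2 hn
  have hτM : θ / √q * (B / 2 / J.card) ≤ θ0 := by
    rw [hJc]
    refine le_trans ?_ hθθ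
    have h1 : B / 2 / n ≤ √q := by
      rw [← Real.sqrt_sq (by positivity : 0 ≤ B / 2 / n)]
      refine Real.sqrt_le_sqrt ?_
      rw [hq, div_pow]
      have h2 : (B / 2) ^ 2 / (n : ℝ) ^ 2 ≤ (B / 2) ^ 2 / n := by
        refine div_le_div_of_nonneg_left (by positivity) hn0 ?_
        calc (n : ℝ) = n * 1 := (mul_one _).symm
          _ ≤ n * n := mul_le_mul_of_nonneg_left hn1 hn0.le
          _ = (n : ℝ) ^ 2 := by ring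
      have h3 : (B / 2) ^ 2 / (n : ℝ) ≤ 7 * (5 : ℕ) * R * (B / 2) ^ 2 / n := by
        refine div_le_div_of_nonneg_right ?_ hn0.le
        push_cast
        nlinarith [sq_nonneg (B / 2)]
      linarith
    calc θ / √q * (B / 2 / n) ≤ θ / √q * √q := mul_le_mul_of_nonneg_left h1 (by positivity)
      _ = θ := div_mul_cancel₀ _ hqs.ne'
  have hD2 : 2 * D ≤ (N : ℝ) ^ (K' + 20) := by
    calc 2 * D ≤ N * (N : ℝ) ^ 3 := mul_le_mul (by linarith) hD hD0 hN0.le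
      _ = (N : ℝ) ^ (4 : ℝ) := by
          rw [show (4 : ℝ) = ((4 : ℕ) : ℝ) by norm_num, Real.rpow_natCast]
          ring
      _ ≤ _ := Real.rpow_le_rpow_of_exponent_le hN1' (by linarith)
  have heb : ∀ A : Finset ℕ, bnt57 μ s N (Pn N y) (tf μ s δ B b0 j (sg A j) t) J z z' (sl μ s) R ((a0 : ℕ) : ℤ) ≤
      2 * Real.exp (2 * B - (N : ℝ) ^ cb) := fun A => by
    have hwf : WF (j - b0) (j + b0) (|t - (sg A j : ℤ)| * (B / 2)) (tf μ s δ B b0 j (sg A j) t) :=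
      wf_tf (μ := μ) (s := s) hB0 δ b0 j (abs_sg A j).le t
    have h2 : |t - (sg A j : ℝ)| ≤ 2 := (abs_sub _ _).trans (by rw [abs_sg]; linarith)
    have h3 : |t - (sg A j : ℤ)| * (B / 2) ≤ B := by
      calc |t - (sg A j : ℝ)| * (B / 2) ≤ 2 * (B / 2) := mul_le_mul_of_nonneg_right h2 (by linarith)
        _ = B := by ring
    refine (hNb N kb y hy (Pok.mono72 (by omega) db hw0 hyc) inferInstance _ _ _ _ hwf J z z' a0 z' a0 (fun i hi => ?_) le_rfl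
      (by omega) (by omega) R (by linarith) hRw).trans ?_
    · rcases mem_insert.1 hi with rfl | hi
      · omega
      · rcases mem_insert.1 hi with rfl | hi
        · omega
        · have := hJm i hi
          omega
    · refine mul_le_mul_of_nonneg_left (Real.exp_le_exp.2 ?_) (by norm_num)
      linarith
  have key := rowM72 (μ := μ) (s := s) (N := N) (y := y) (δ := δ) (B := B) (b0 := b0) (b := b) (j := j) (t := t) (a0 := a0)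
    (h := a0 + n) (z := z) (z' := z') (c := c) (cc := cc) (d := d) (f := f) (D := D) (J := J) (c0 := c0) (K := K)
    (θE := 2 * B / K) (ε := ε) (K' := K' + 20) hf₀ hs hB0 hb
    (fun A => hN3 N k3 _ (hok d3) c0 K hc0 hK (by omega) B hB0 (hp b3) δ b0 j (by omega) t ht A)
    (fun A => hN6 N k6 _ (hok d6) c0 K hc0 hK (by omega) B hB0 (hp b6) δ b0 j (by omega) t ht A)
    (by omega) hcK hJm hJ0 hz hzz hzc hcd hdN hf hD0 hD2 (sl := sl μ s) (R := R) hR1 (m0 := ((a0 : ℕ) : ℤ)) (by omega)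
    (τ := θ / √q) (a := gn72 N ε B R n) (div_pos hθ hqs) (gn72_nonneg _ _ _ _ _) hτM heb (L := L) (A2 := A2) (e2 := e2)
    (by rw [hJd]; exact hm1) (by rw [hJd]; exact hm2)
  refine key.trans ?_
  rw [hJc]
  obtain ⟨X1, hX1⟩ : ∃ X1, X1 = RX72 μ s N (Pn N y) a0 z z' c (fun _ _ => 1) (f y) := ⟨_, rfl⟩
  obtain ⟨X2, hX2⟩ : ∃ X2, X2 = ∫ ω, FV57 (wm μ s N (Pn N y) ω) a0 z z' c R (f y ω) ∂(Pm μ N) := ⟨_, rfl⟩
  have hX10 : 0 ≤ X1 := by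
    rw [hX1]
    exact integral_nonneg fun ω => Pool.W7d29a1.C0.I52.ev_nonneg _ _ fun x => chi3_nonneg (fun _ => zero_le_one) _ x
  have hX20 : 0 ≤ X2 := by
    rw [hX2]
    refine integral_nonneg fun ω => ?_
    exact Pool.Agent.W_7d29a1_C0.InT57.FV57_nonneg hzz hzc _ R (Pool.Agent.W_7d29a1_C0.E1M82.rk_cls hf hcd y ω)
  rw [← hX1, ← hX2, hJd]
  have g0 := gn72_nonneg N ε B R n
  have pe : 0 ≤ (N : ℝ) ^ ε := Real.rpow_nonneg hN0.le _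
  have pB2 : 0 ≤ B ^ 2 := sq_nonneg _
  have pB3 : 0 ≤ B ^ 3 := by positivity
  -- the error terms
  obtain ⟨Z, hZ⟩ : ∃ Z : ℝ, Z = (N : ℝ) ^ (-K') := ⟨_, rfl⟩
  have hZ0 : 0 ≤ Z := by rw [hZ]; exact Real.rpow_nonneg hN0.le _
  have zz : ∀ k : ℕ, k ≤ 20 → (N : ℝ) ^ k * (N : ℝ) ^ (-(K' + 20)) ≤ (N : ℝ) ^ ((k : ℝ) - 20) * Z := fun k hk => by
    rw [hZ, ← Real.rpow_natCast, ← Real.rpow_add hN0, ← Real.rpow_add hN0]
    refine le_of_eq ?_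
    congr 1
    ring
  have zp : ∀ k : ℕ, k ≤ 19 → (N : ℝ) ^ k * (N : ℝ) ^ (-(K' + 20)) ≤ Z / 8 := fun k hk => by
    refine (zz k (by omega)).trans ?_
    have h1 : (N : ℝ) ^ ((k : ℝ) - 20) ≤ (N : ℝ) ^ (-1 : ℝ) := Real.rpow_le_rpow_of_exponent_le hN1' (by
      have : (k : ℝ) ≤ 19 := by exact_mod_cast hk
      linarith)
    have h2 : (N : ℝ) ^ (-1 : ℝ) ≤ 1 / 8 := by
      rw [Real.rpow_neg_one, ← one_div]
      exact one_div_le_one_div_of_le (by norm_num) hN8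
    have h3 := mul_le_mul_of_nonneg_right (h1.trans h2) hZ0
    linarith
  have hNe : (N : ℝ) ^ ε ≤ N := by
    calc (N : ℝ) ^ ε ≤ (N : ℝ) ^ (1 : ℝ) := Real.rpow_le_rpow_of_exponent_le hN1' hε1
      _ = N := Real.rpow_one _
  have hB2N : B ^ 2 ≤ (N : ℝ) ^ 2 := pow_le_pow_left₀ hB0 hBN 2
  have hB3N : B ^ 3 ≤ (N : ℝ) ^ 3 := pow_le_pow_left₀ hB0 hBN 3
  have hgN : gn72 N ε B R n ≤ 3 * (N : ℝ) ^ 3 := by
    refine hgle.trans ?_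
    have h1 : (N : ℝ) ^ ε * (N : ℝ) ^ 2 ≤ N * (N : ℝ) ^ 2 := mul_le_mul_of_nonneg_right hNe (by positivity)
    calc 3 * ((N : ℝ) ^ ε * (N : ℝ) ^ 2) ≤ 3 * (N * (N : ℝ) ^ 2) := by linarith
      _ = 3 * (N : ℝ) ^ 3 := by ring
  have w0 : 0 ≤ (N : ℝ) ^ (-(K' + 20)) := Real.rpow_nonneg hN0.le _
  have t1 : (gn72 N ε B R n * (B ^ 2 / 2) + B ^ 3 / 2) * ((N : ℝ) ^ ε * (N : ℝ) ^ (-(K' + 20))) ≤ Z / 4 := by
    have h1 : gn72 N ε B R n * (B ^ 2 / 2) ≤ 3 * (N : ℝ) ^ 3 * ((N : ℝ) ^ 2 / 2) :=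
      mul_le_mul hgN (by linarith) (by positivity) (by positivity)
    have h2 : gn72 N ε B R n * (B ^ 2 / 2) + B ^ 3 / 2 ≤ 2 * (N : ℝ) ^ 5 := by
      have h3 : (N : ℝ) ^ 3 ≤ (N : ℝ) ^ 5 := pow_le_pow_right₀ hN1' (by norm_num)
      have e1 : 3 * (N : ℝ) ^ 3 * ((N : ℝ) ^ 2 / 2) = 3 / 2 * (N : ℝ) ^ 5 := by ring
      linarith
    have h4 : (N : ℝ) ^ ε * (N : ℝ) ^ (-(K' + 20)) ≤ N * (N : ℝ) ^ (-(K' + 20)) := mul_le_mul_of_nonneg_right hNe w0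
    calc (gn72 N ε B R n * (B ^ 2 / 2) + B ^ 3 / 2) * ((N : ℝ) ^ ε * (N : ℝ) ^ (-(K' + 20)))
        ≤ 2 * (N : ℝ) ^ 5 * (N * (N : ℝ) ^ (-(K' + 20))) := mul_le_mul h2 h4 (by positivity) (by positivity)
      _ = 2 * ((N : ℝ) ^ 6 * (N : ℝ) ^ (-(K' + 20))) := by ring
      _ ≤ 2 * (Z / 8) := mul_le_mul_of_nonneg_left (zp 6 (by norm_num)) (by norm_num)
      _ = Z / 4 := by ring
  have t2 : ((N + 1 : ℕ) : ℝ) ^ 5 * tail1 Kd (B ^ 2 * D) (θ / √q) (gn72 N ε B R n) (7 * (5 : ℕ) * R * (B / 2) ^ 2 / n) ≤ Z / 8 := by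
    rw [hg, ← hq, tail_num57 hq0 hθ]
    have h1 : √q / θ ≤ 3 / θ * (N : ℝ) ^ 2 := by
      have h2 : √q ≤ 3 * (N : ℝ) ^ 2 := by
        have h3 := gn72_le (N := N) (ε := 0) (by omega) hB0 hBN (by linarith) hR2 hn
        unfold gn72 at h3
        rw [Real.rpow_zero, one_mul, one_mul, ← hq] at h3
        exact h3
      rw [div_mul_eq_mul_div]
      exact div_le_div_of_nonneg_right h2 hθ.le
    have h4 : B ^ 2 * D ≤ (N : ℝ) ^ 5 := by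
      calc B ^ 2 * D ≤ (N : ℝ) ^ 2 * (N : ℝ) ^ 3 := mul_le_mul hB2N hD hD0 (by positivity)
        _ = (N : ℝ) ^ 5 := by ring
    have h5 : ((N + 1 : ℕ) : ℝ) ^ 5 ≤ 32 * (N : ℝ) ^ 5 := by
      calc ((N + 1 : ℕ) : ℝ) ^ 5 ≤ (2 * N) ^ 5 := by
            refine pow_le_pow_left₀ (by positivity) ?_ 5
            push_cast
            linarith
        _ = 32 * (N : ℝ) ^ 5 := by ring
    have h6 : Real.exp (Kd * θ ^ 2 - θ * (N : ℝ) ^ ε / 2) = Real.exp (Kd * θ ^ 2) * Real.exp (-(θ / 2 * (N : ℝ) ^ ε)) := by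
      rw [← Real.exp_add]
      congr 1
      ring
    rw [h6]
    have h7 : 4 * (B ^ 2 * D) * (√q / θ) ≤ 4 * (N : ℝ) ^ 5 * (3 / θ * (N : ℝ) ^ 2) :=
      mul_le_mul (by linarith) h1 (by positivity) (by positivity)
    calc ((N + 1 : ℕ) : ℝ) ^ 5 * (4 * (B ^ 2 * D) * (√q / θ) * (Real.exp (Kd * θ ^ 2) * Real.exp (-(θ / 2 * (N : ℝ) ^ ε))))
        ≤ 32 * (N : ℝ) ^ 5 * (4 * (N : ℝ) ^ 5 * (3 / θ * (N : ℝ) ^ 2) *
          (Real.exp (Kd * θ ^ 2) * Real.exp (-(θ / 2 * (N : ℝ) ^ ε)))) := by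
          refine mul_le_mul h5 (mul_le_mul_of_nonneg_right h7 (by positivity)) (by positivity) (by positivity)
      _ = (N : ℝ) ^ 12 * (32 * (4 * (3 / θ)) * Real.exp (Kd * θ ^ 2) * Real.exp (-(θ / 2 * (N : ℝ) ^ ε))) := by ring
      _ ≤ (N : ℝ) ^ 12 * (N : ℝ) ^ (-(K' + 20)) := mul_le_mul_of_nonneg_left a1 (by positivity)
      _ ≤ Z / 8 := zp 12 (by norm_num)
  have t3 : 17 / 2 * B ^ 3 * D * (2 * Real.exp (2 * B - (N : ℝ) ^ cb)) ≤ Z / 8 := by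
    have h1 : 4 * B ≤ (N : ℝ) ^ cb := (mul_le_mul_of_nonneg_left hBβ (by norm_num)).trans a3
    have h2 : Real.exp (2 * B - (N : ℝ) ^ cb) ≤ Real.exp (-(1 / 2 * (N : ℝ) ^ cb)) := Real.exp_le_exp.2 (by linarith)
    have h3 : B ^ 3 * D ≤ (N : ℝ) ^ 6 := by
      calc B ^ 3 * D ≤ (N : ℝ) ^ 3 * (N : ℝ) ^ 3 := mul_le_mul hB3N hD hD0 (by positivity)
        _ = (N : ℝ) ^ 6 := by ring
    calc 17 / 2 * B ^ 3 * D * (2 * Real.exp (2 * B - (N : ℝ) ^ cb)) = (B ^ 3 * D) * (17 * Real.exp (2 * B - (N : ℝ) ^ cb)) := by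
          ring
      _ ≤ (N : ℝ) ^ 6 * (17 * Real.exp (-(1 / 2 * (N : ℝ) ^ cb))) :=
          mul_le_mul h3 (by linarith) (by positivity) (by positivity)
      _ ≤ (N : ℝ) ^ 6 * (N : ℝ) ^ (-(K' + 20)) := mul_le_mul_of_nonneg_left a2 (by positivity)
      _ ≤ Z / 8 := zp 6 (by norm_num)
  have m1 : gn72 N ε B R n * (B ^ 2 / 2) * (N : ℝ) ^ ε * X1 ≤ B ^ 2 * gn72 N ε B R n * (N : ℝ) ^ ε * X1 := by
    have h1 : 0 ≤ gn72 N ε B R n * B ^ 2 * (N : ℝ) ^ ε * X1 := by positivity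
    have e1 : gn72 N ε B R n * (B ^ 2 / 2) * (N : ℝ) ^ ε * X1 = 1 / 2 * (gn72 N ε B R n * B ^ 2 * (N : ℝ) ^ ε * X1) := by ring
    have e2 : B ^ 2 * gn72 N ε B R n * (N : ℝ) ^ ε * X1 = gn72 N ε B R n * B ^ 2 * (N : ℝ) ^ ε * X1 := by ring
    linarith
  have m2 : B ^ 3 / 2 * (N : ℝ) ^ ε * X2 ≤ B ^ 3 * (N : ℝ) ^ ε * X2 := by
    have h1 : 0 ≤ B ^ 3 * (N : ℝ) ^ ε * X2 := by positivity
    have e1 : B ^ 3 / 2 * (N : ℝ) ^ ε * X2 = 1 / 2 * (B ^ 3 * (N : ℝ) ^ ε * X2) := by ring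
    linarith
  have s1 : 4 * (B / 2) ^ 2 * D = B ^ 2 * D := by ring
  rw [← hZ]
  linarith

end

end Pool.Agent.W_7d29a1_C0.T72
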