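import Pool.Agent.W_7d29a1_C0.Cor45B
import Pool.Agent.W_7d29a1_C0.EvV50
import Pool.Agent.W_7d29a1_C0.EvW50
import Pool.Agent.W_7d29a1_C0.TN72

/-!
MP_7d29a1_pr, [CURV0] / [C0], leaf E2 (helper96): **THE INPUT OF THE MICRO TIE AND THE CORNER IN NUMBERS.**

`mic96`: the instance of `Mic45` (helper45) for the half response of a window and the tilt of the same row, from `two_ev` (helper50), with
the numbers in the order of the exponents of the frame (the clip level last): the bad part is priced at the tilted weights by `steep50`.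
-/

set_option autoImplicit false
set_option linter.unusedSectionVars false
set_option linter.unusedVariables false

namespace Pool.Agent.W_7d29a1_C0.MicN96

open Finset MeasureTheory Filter Topology Pool.Agent.W_7d29a1_F Pool.Agent.W_7d29a1_X Pool.Agent.W_7d29a1_C0.Mod92
open Pool.Agent.W_7d29a1_HS (In)
open Pool.Agent.W_7d29a1_HZ (wd')
open Pool.Agent.W_7d29a1_H (sl)
open Pool.Agent.W_7d29a1_C0.Swap57 Pool.Agent.W_7d29a1_C0.Blk18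
open Pool.Agent.W_7d29a1_C0.Tv48 (EndOk)
open Pool.Agent.W_7d29a1_C0.MicE14 (rh rh_nonneg nn)
open Pool.Agent.W_7d29a1_C0.T72 (Sp72 Rb72 ind72 uj72 abs_uj72 meas_uj72)
open Pool.Agent.W_7d29a1_C0.EvT50 (nC nC_nonneg nC_le_one bG bG_nonneg bG_le_one meas_bG int_bG GW1 two_ev rb_tau ev_pw50 ev_exp50
  int_fst full_Pok50)
open Pool.Agent.W_7d29a1_C0.GwA50 (GwW gw_ord73)
open Pool.W7d29a1.C0 (gz gm gm_nonneg gm_mono gm_const PP)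
open Pool.W7d29a1.C0.VT31
open Pool.W7d29a1.C0.R43
open Pool.W7d29a1.C0.H7 (E0X)
open Pool.W7d29a1.C0.H27 (pB slb)
open Pool.W7d29a1.C0.C45 (Mic45 wu meas_wu)
open Pool.W7d29a1.C0

noncomputable section

variable {μ : Measure ℝ} {s : ℝ} {N : ℕ} {Q : Finset (Finset ℕ)}

/-! ### The bad part -/

/-- The bad part of the micro tie: the paths out of the cone, given what is behind the row `m`, and the bad environments. -/
def bd96 (μ : Measure ℝ) (s : ℝ) (N : ℕ) (Q : Finset (Finset ℕ)) (u : Finset ℕ → Env → Px Q → ℝ) (δ δ₁ B R e0 : ℝ) (b j m : ℕ)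
    (ω : Env × Finset ℕ) (S : Px Q) : ℝ :=
  min 1 (2 * cE (wu μ s N Q u ω) (pJ 0 m) (nC μ s δ₁ Q b j) S + bG μ s N Q δ δ₁ B R e0 b j ω.1)

section Bad

variable [IsProbabilityMeasure μ] [SwQ Q] [Nonempty (Px Q)] {u : Finset ℕ → Env → Px Q → ℝ} {δ δ₁ B R e0 : ℝ} {b j m : ℕ}

theorem bd0_96 (ω : Env × Finset ℕ) (S : Px Q) :
    0 ≤ 2 * cE (wu μ s N Q u ω) (pJ 0 m) (nC μ s δ₁ Q b j) S + bG μ s N Q δ δ₁ B R e0 b j ω.1 :=
  add_nonneg (mul_nonneg (by norm_num) (cE_nonneg _ _ (nC_nonneg δ₁ b j) S)) (bG_nonneg _ _ _ _ _ _ _ _)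

theorem bd_mem96 (ω : Env × Finset ℕ) (S : Px Q) :
    0 ≤ bd96 μ s N Q u δ δ₁ B R e0 b j m ω S ∧ bd96 μ s N Q u δ δ₁ B R e0 b j m ω S ≤ 1 :=
  ⟨le_min zero_le_one (bd0_96 ω S), min_le_left _ _⟩

theorem meas_bd96 (hum : ∀ S, Measurable fun ω : Env × Finset ℕ => u ω.2 ω.1 S) (S : Px Q) :
    Measurable fun ω => bd96 μ s N Q u δ δ₁ B R e0 b j m ω S := by
  unfold bd96
  exact measurable_const.min (((meas_cE (meas_wu hum) (f := fun _ => nC μ s δ₁ Q b j) (fun _ => measurable_const) _ S).const_mul _).add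
    ((meas_bG δ δ₁ B R e0 b j).comp measurable_fst))

/-- **The micro tie for every environment**, with the bad part. -/
theorem tt96 {D M : ℝ} (hu : ∀ A η S, |u A η S| ≤ D) (hB : 0 ≤ B) (hR : 0 ≤ R) (he : 0 ≤ e0) (hm : j + b ≤ m)
    (ω : Env × Finset ℕ) (S : Px Q) :
    cE2 (wu μ s N Q u ω) (pJ 0 m) (fun z z' => |gg μ s Q δ B b ω j z - gg μ s Q δ B b ω j z'|) S S ≤
      B * ind72 (fun ω => EvT50.TauM (wm μ s N Q ω) (pJ 0 m) b j M) ω S +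
        (B * bd96 μ s N Q u δ δ₁ B R e0 b j m ω S + Real.exp (4 * D) * (R * (2 * Real.exp (-(5 * M))) + e0)) := by
  have e : wu μ s N Q u ω = wm μ s N Q ω + fun S => u ω.2 ω.1 S := rfl
  have h1 := two_ev (μ := μ) (s := s) (N := N) (Q := Q) (δ := δ) (δ₁ := δ₁) (B := B) (R := R) (e0 := e0) (M := M) (b := b) (j := j)
    (ω := ω) (A := fun S => u ω.2 ω.1 S) (D := D) (fun S => hu _ _ S) hB hR he hm S
  rw [← e] at h1
  have hBd : ∀ z z' : Px Q, |gg μ s Q δ B b ω j z - gg μ s Q δ B b ω j z'| ≤ B := fun z z' => by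
    have h5 := abs_gj (μ := μ) (s := s) (δ := δ) ω.1 hB (abs_sg ω.2 j).le b j z
    have h6 := abs_gj (μ := μ) (s := s) (δ := δ) ω.1 hB (abs_sg ω.2 j).le b j z'
    exact (abs_sub _ _).trans (by unfold gg; linarith)
  have h4 := cE2_mono (wu μ s N Q u ω) (pJ 0 m) (K := fun z z' => |gg μ s Q δ B b ω j z - gg μ s Q δ B b ω j z'|)
    (K' := fun _ _ => B * 1) (fun z z' => by rw [mul_one]; exact hBd z z') S S
  rw [cE2_mul _ _ B (fun _ _ => 1), cE2_one, mul_one] at h4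
  have hi := T72.ind72_nonneg (fun ω => EvT50.TauM (wm μ s N Q ω) (pJ 0 m) b j M) ω S
  have hE0 : 0 ≤ Real.exp (4 * D) * (R * (2 * Real.exp (-(5 * M))) + e0) := by positivity
  have h2 : B * bd96 μ s N Q u δ δ₁ B R e0 b j m ω S = min B (2 * B * cE (wu μ s N Q u ω) (pJ 0 m) (nC μ s δ₁ Q b j) S +
      B * bG μ s N Q δ δ₁ B R e0 b j ω.1) := by
    unfold bd96
    rw [mul_min_of_nonneg _ _ hB, mul_one]
    congr 1
    ring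
  rw [h2]
  rcases min_choice B (2 * B * cE (wu μ s N Q u ω) (pJ 0 m) (nC μ s δ₁ Q b j) S + B * bG μ s N Q δ δ₁ B R e0 b j ω.1) with h3 | h3
  · rw [h3]
    linarith [mul_nonneg hB hi]
  · rw [h3]
    linarith

end Bad

section Int

variable [IsProbabilityMeasure μ] [SwQ Q] {δ δ₁ B R e0 : ℝ} {b j m : ℕ} {t : ℝ}

/-- The mass of the paths out of the cone at the tilted weights, over the signs. -/
theorem out96 [Nonempty (Px Q)] {e : ℝ} (he : ∀ a : ℤ, (a = 1 ∨ a = -1) →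
    ∫ η, gm (wt μ s η N Q δ B b j a t) (nC μ s δ₁ Q b j) ∂(law μ) ≤ e) :
    ∫ ω, gm (wu μ s N Q (uj72 μ s Q δ B b j t) ω) (nC μ s δ₁ Q b j) ∂(Pm μ N) ≤ 2 * e := by
  have hm : ∀ a : ℤ, Measurable fun η : Env => gm (wt μ s η N Q δ B b j a t) (nC μ s δ₁ Q b j) := fun a =>
    meas_gm (fun S => (meas_lw S).add ((meas_gj δ B b j a S).const_mul _)) fun S => measurable_const
  have h0 : ∀ w : Px Q → ℝ, 0 ≤ gm w (nC μ s δ₁ Q b j) := fun w => gm_nonneg _ (nC_nonneg δ₁ b j)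
  have h1 : ∀ w : Px Q → ℝ, gm w (nC μ s δ₁ Q b j) ≤ 1 := fun w =>
    (gm_mono _ (g := fun _ => 1) (nC_le_one δ₁ b j)).trans (gm_const _ _).le
  have hb : ∀ (a : ℤ) (η : Env), |gm (wt μ s η N Q δ B b j a t) (nC μ s δ₁ Q b j)| ≤ 1 := fun a η => by
    rw [abs_of_nonneg (h0 _)]
    exact h1 _
  have i1 : ∀ a : ℤ, Integrable (fun ω : Env × Finset ℕ => gm (wt μ s ω.1 N Q δ B b j a t) (nC μ s δ₁ Q b j)) (Pm μ N) := fun a =>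
    int_bdd (M := 1) ((hm a).comp measurable_fst) fun ω => hb a ω.1
  have i0 : Integrable (fun ω : Env × Finset ℕ => gm (wu μ s N Q (uj72 μ s Q δ B b j t) ω) (nC μ s δ₁ Q b j)) (Pm μ N) :=
    int_bdd (M := 1) (meas_gm (meas_wu (meas_uj72 δ B b j t)) fun S => measurable_const) fun ω => by
      rw [abs_of_nonneg (h0 _)]
      exact h1 _
  have hpt : ∀ ω : Env × Finset ℕ, gm (wu μ s N Q (uj72 μ s Q δ B b j t) ω) (nC μ s δ₁ Q b j) ≤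
      gm (wt μ s ω.1 N Q δ B b j 1 t) (nC μ s δ₁ Q b j) + gm (wt μ s ω.1 N Q δ B b j (-1) t) (nC μ s δ₁ Q b j) := fun ω => by
    have e1 : wu μ s N Q (uj72 μ s Q δ B b j t) ω = wt μ s ω.1 N Q δ B b j (sg ω.2 j) t := by
      funext S
      unfold wu uj72 Mod92.wt
      rw [Pi.add_apply, Pi.smul_apply, smul_eq_mul]
    rw [e1]
    rcases sg_or ω.2 j with h | h
    · rw [h]
      linarith [h0 (wt μ s ω.1 N Q δ B b j (-1) t)]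
    · rw [h]
      linarith [h0 (wt μ s ω.1 N Q δ B b j 1 t)]
  have h2 := integral_mono i0 ((i1 1).add (i1 (-1))) hpt
  have e2 := integral_add (i1 1) (i1 (-1))
  simp only [Pi.add_apply] at e2 h2
  rw [e2] at h2
  have e3 := int_fst (μ := μ) (N := N) (Φ := fun η : Env => gm (wt μ s η N Q δ B b j 1 t) (nC μ s δ₁ Q b j)) (hm 1) (hb 1)
  have e4 := int_fst (μ := μ) (N := N) (Φ := fun η : Env => gm (wt μ s η N Q δ B b j (-1) t) (nC μ s δ₁ Q b j)) (hm (-1)) (hb (-1))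
  beta_reduce at e3 e4
  rw [e3, e4] at h2
  have h3 := he 1 (Or.inl rfl)
  have h4 := he (-1) (Or.inr rfl)
  linarith

/-- **The price of the bad part**, at the tilted weights. -/
theorem rr96 [Nonempty (Px Q)] {e e' : ℝ} (he : ∀ a : ℤ, (a = 1 ∨ a = -1) →
    ∫ η, gm (wt μ s η N Q δ B b j a t) (nC μ s δ₁ Q b j) ∂(law μ) ≤ e)
    (he' : (law μ {η | ¬ GW1 μ s N Q δ δ₁ B R e0 b j η}).toReal ≤ e') (m : ℕ) :
    ∫ ω, gm (wu μ s N Q (uj72 μ s Q δ B b j t) ω) (bd96 μ s N Q (uj72 μ s Q δ B b j t) δ δ₁ B R e0 b j m ω) ∂(Pm μ N) ≤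
      4 * e + e' := by
  set U := uj72 μ s Q δ B b j t with hU
  have h0 : ∀ w : Px Q → ℝ, 0 ≤ gm w (nC μ s δ₁ Q b j) := fun w => gm_nonneg _ (nC_nonneg δ₁ b j)
  have h1 : ∀ w : Px Q → ℝ, gm w (nC μ s δ₁ Q b j) ≤ 1 := fun w =>
    (gm_mono _ (g := fun _ => 1) (nC_le_one δ₁ b j)).trans (gm_const _ _).le
  have hpt : ∀ ω : Env × Finset ℕ, gm (wu μ s N Q U ω) (bd96 μ s N Q U δ δ₁ B R e0 b j m ω) ≤
      2 * gm (wu μ s N Q U ω) (nC μ s δ₁ Q b j) + bG μ s N Q δ δ₁ B R e0 b j ω.1 := fun ω => by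
    have h2 := gm_mono (wu μ s N Q U ω) (f := bd96 μ s N Q U δ δ₁ B R e0 b j m ω)
      (g := (2 : ℝ) • cE (wu μ s N Q U ω) (pJ 0 m) (nC μ s δ₁ Q b j) + fun _ => bG μ s N Q δ δ₁ B R e0 b j ω.1)
      (fun S => min_le_right _ _)
    rw [Pool.W7d29a1.C0.gm_add, Pool.W7d29a1.C0.gm_smul, gm_cE, gm_const] at h2
    exact h2
  have i1 : Integrable (fun ω : Env × Finset ℕ => gm (wu μ s N Q U ω) (nC μ s δ₁ Q b j)) (Pm μ N) :=
    int_bdd (M := 1) (meas_gm (meas_wu (meas_uj72 δ B b j t)) fun S => measurable_const) fun ω => by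
      rw [abs_of_nonneg (h0 _)]
      exact h1 _
  have i2 : Integrable (fun ω : Env × Finset ℕ => bG μ s N Q δ δ₁ B R e0 b j ω.1) (Pm μ N) :=
    int_bdd (M := 1) ((meas_bG δ δ₁ B R e0 b j).comp measurable_fst) fun ω => by
      rw [abs_of_nonneg (bG_nonneg _ _ _ _ _ _ _ _)]
      exact bG_le_one _ _ _ _ _ _ _ _
  have i0 : Integrable (fun ω : Env × Finset ℕ => gm (wu μ s N Q U ω) (bd96 μ s N Q U δ δ₁ B R e0 b j m ω)) (Pm μ N) :=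
    int_bdd (M := 1) (meas_gm (meas_wu (meas_uj72 δ B b j t)) fun S => meas_bd96 (meas_uj72 δ B b j t) S) fun ω => by
      rw [abs_of_nonneg (gm_nonneg _ fun S => (bd_mem96 ω S).1)]
      exact (gm_mono _ (g := fun _ => 1) fun S => (bd_mem96 ω S).2).trans (gm_const _ _).le
  have h2 := integral_mono i0 ((i1.const_mul 2).add i2) hpt
  have e2 := integral_add (i1.const_mul 2) i2
  simp only [Pi.add_apply] at e2 h2
  rw [e2, integral_const_mul] at h2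
  have e3 := int_fst (N := N) (μ := μ) (Φ := fun η => bG μ s N Q δ δ₁ B R e0 b j η) (meas_bG δ δ₁ B R e0 b j) (M := 1)
    (fun η => by rw [abs_of_nonneg (bG_nonneg _ _ _ _ _ _ _ _)]; exact bG_le_one _ _ _ _ _ _ _ _)
  rw [int_bG] at e3
  have h3 := out96 (μ := μ) (s := s) (N := N) (Q := Q) (b := b) (j := j) (t := t) he
  rw [e3] at h2
  linarith

/-- **THE INSTANCE.** -/
theorem mk96 [Nonempty (Px Q)] {D M M' e e' θ : ℝ} {J : Finset ℕ} {c0 K : ℕ} (ht : |t| ≤ 1) (hB : 0 ≤ B) (hR : 0 ≤ R)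
    (he0 : 0 ≤ e0) (hj : j + b ≤ c0) (hJ : ∀ m ∈ J, c0 + K ≤ m) (hD : 0 ≤ D) (hθ : θ ≤ D / K) (hM : 5 * M + 4 * D ≤ 5 * M')
    (he : ∀ a : ℤ, (a = 1 ∨ a = -1) → ∫ η, gm (wt μ s η N Q δ B b j a t) (nC μ s δ₁ Q b j) ∂(law μ) ≤ e)
    (he' : (law μ {η | ¬ GW1 μ s N Q δ δ₁ B R e0 b j η}).toReal ≤ e') :
    Mic45 μ s N Q (uj72 μ s Q δ B b j t) (fun ω => gg μ s Q δ B b ω j) J c0 K θ B
      (Real.exp (4 * B) * (R * (2 * Real.exp (-(5 * M))) + e0)) (4 * e + e')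
      (fun m ω => EvT50.TauM (wm μ s N Q ω) (pJ 0 m) b j M) (fun m ω => EvT50.TauM (wm μ s N Q ω) (pJ 0 m) b j M') where
  gB ω x y := by
    have h5 := abs_gj (μ := μ) (s := s) (δ := δ) ω.1 hB (abs_sg ω.2 j).le b j x
    have h6 := abs_gj (μ := μ) (s := s) (δ := δ) ω.1 hB (abs_sg ω.2 j).le b j y
    exact (abs_sub _ _).trans (by unfold gg; linarith)
  ms S := meas_gg δ B b j S
  rb m hm := rb_tau (hJ m hm) hD hθ hM
  e0 := by positivity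
  tt := ⟨fun m => bd96 μ s N Q (uj72 μ s Q δ B b j t) δ δ₁ B R e0 b j m, fun m S => meas_bd96 (meas_uj72 δ B b j t) S,
    fun m ω S => bd_mem96 ω S, fun m hm ω S => tt96 (fun A η S => abs_uj72 hB b j ht A η S) hB hR he0
      (by have := hJ m hm; omega) ω S, fun m hm => rr96 he he' m⟩

end Int

/-- **THE INSTANCE IN NUMBERS**: the exponents in the order of the frame, the clip level last. -/
theorem mic96 [IsProbabilityMeasure μ] {c C : ℝ} {n₀ : ℕ} (h : In μ s c C n₀) {κ εM : ℝ} (K' : ℝ) (hκ : 0 < κ) (hεM : 0 < εM) :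
    ∃ β γ₀ : ℝ, 0 < β ∧ 0 < γ₀ ∧ ∀ γ : ℝ, 0 < γ → γ ≤ γ₀ → ∃ δ' : ℝ, 0 < δ' ∧ ∃ N₀ : ℕ, ∀ N : ℕ, N₀ ≤ N → ∀ y : ℕ,
      EndOk μ s δ' N y → ∀ [Nonempty (Px (Pn N y))] [SwQ (Pn N y)], ∀ B : ℝ, 0 ≤ B → B ≤ (N : ℝ) ^ β → ∀ b j : ℕ, (N : ℝ) ^ κ ≤ b → b ≤ j → j + b ≤ N →
      ∀ M : ℝ, (N : ℝ) ^ εM ≤ M → ∀ t : ℝ, |t| ≤ 1 → ∀ (J : Finset ℕ) (c0 K : ℕ), j + b ≤ c0 → (∀ m ∈ J, c0 + K ≤ m) →
        Mic45 μ s N (Pn N y) (uj72 μ s (Pn N y) γ B b j t) (fun ω => gg μ s (Pn N y) γ B b ω j) J c0 K (2 * B / K) B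
          ((N : ℝ) ^ (-K')) ((N : ℝ) ^ (-K')) (fun m ω => EvT50.TauM (wm μ s N (Pn N y) ω) (pJ 0 m) b j (M - 8 / 5 * B))
          (fun m ω => EvT50.TauM (wm μ s N (Pn N y) ω) (pJ 0 m) b j M) := by
  obtain ⟨c₁, hc₁, hgw⟩ := gw_ord73 h hκ (half_pos hεM)
  obtain ⟨γ₀, hγ₀, hst⟩ := EvW50.steep50 h hκ
  obtain ⟨β, hβ⟩ : ∃ x : ℝ, x = min c₁ εM / 2 := ⟨_, rfl⟩
  have hβ0 : 0 < β := by rw [hβ]; exact half_pos (lt_min hc₁ hεM)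
  have hβ1 : β < c₁ := by
    have : min c₁ εM ≤ c₁ := min_le_left _ _
    linarith
  have hβ2 : β < εM := by
    have : min c₁ εM ≤ εM := min_le_right _ _
    linarith
  refine ⟨β, γ₀, hβ0, hγ₀, fun γ hγ hγ' => ?_⟩
  obtain ⟨δ₁, hδ₁, hδ₁', N₁, hN₁⟩ := hgw γ hγ
  obtain ⟨δ', c₂, hδ', hc₂, N₂, hN₂⟩ := hst γ hγ hγ' δ₁ hδ₁
  have ev1 := ev_pw50 hβ1 16
  have ev2 := ev_pw50 hβ2 16
  have ev3 := ev_pw50 (half_lt_self hεM) 16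
  have ev5 := ev_exp50 4 K' (a := 1) one_pos hεM
  have ev6 := ev_exp50 2 K' (a := 1 / 4) (by norm_num) hc₁
  have ev7 := ev_exp50 8 K' (a := 1) one_pos hc₂
  obtain ⟨N₃, hN₃⟩ := eventually_atTop.1 (ev1.and (ev2.and (ev3.and (ev5.and (ev6.and ev7)))))
  refine ⟨δ', hδ', max (max N₁ N₂) (max N₃ 1), ?_⟩
  intro N hN y hy _ _ B hB0 hB b j hb hbj hjN M hM t ht J c0 K hj hJ
  have k1 : N₁ ≤ N := (le_max_left _ _).trans ((le_max_left _ _).trans hN)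
  have k2 : N₂ ≤ N := (le_max_right _ _).trans ((le_max_left _ _).trans hN)
  have k3 : N₃ ≤ N := (le_max_left _ _).trans ((le_max_right _ _).trans hN)
  have k0 : 1 ≤ N := (le_max_right _ _).trans ((le_max_right _ _).trans hN)
  have k4 : (1 : ℝ) ≤ N := by exact_mod_cast k0
  have k5 : (0 : ℝ) < N := by linarith
  obtain ⟨a1, a2, a3, a5, a6, a7⟩ := hN₃ N k3
  obtain ⟨X, hX⟩ : ∃ x : ℝ, x = (N : ℝ) ^ c₁ := ⟨_, rfl⟩
  obtain ⟨Y, hY⟩ : ∃ x : ℝ, x = (N : ℝ) ^ c₂ := ⟨_, rfl⟩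
  obtain ⟨Z, hZ⟩ : ∃ x : ℝ, x = (N : ℝ) ^ (-K') := ⟨_, rfl⟩
  have hX0 : 0 ≤ X := by rw [hX]; exact Real.rpow_nonneg k5.le _
  have hZ0 : 0 ≤ Z := by rw [hZ]; exact Real.rpow_nonneg k5.le _
  rw [← hX] at a1 a6
  rw [← hY] at a7
  rw [← hZ] at a5 a6 a7 ⊢
  rw [one_mul] at a5 a7
  have hM0 : 0 ≤ M := (Real.rpow_nonneg k5.le _).trans hM
  have c1 : 16 * B ≤ X := (mul_le_mul_of_nonneg_left hB (by norm_num)).trans a1
  have c2 : 16 * B ≤ M := ((mul_le_mul_of_nonneg_left hB (by norm_num)).trans a2).trans hM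
  have c3 : 16 * (N : ℝ) ^ (εM / 2) ≤ M := a3.trans hM
  have c5 : 4 * Real.exp (-M) ≤ Z :=
    (mul_le_mul_of_nonneg_left (Real.exp_le_exp.2 (neg_le_neg hM)) (by norm_num)).trans a5
  obtain ⟨M0, hM0'⟩ : ∃ x : ℝ, x = M - 8 / 5 * B := ⟨_, rfl⟩
  rw [← hM0']
  have hFull : Full N (Pn N y) := full_Pn N y
  have p1 : Real.exp (4 * B) * (Real.exp ((N : ℝ) ^ (εM / 2)) * (2 * Real.exp (-(5 * M0))) + Real.exp (-X)) ≤ Z := by
    have q1 : Real.exp (4 * B) * (Real.exp ((N : ℝ) ^ (εM / 2)) * (2 * Real.exp (-(5 * M0)))) ≤ 2 * Real.exp (-M) := by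
      have e1 : Real.exp (4 * B) * (Real.exp ((N : ℝ) ^ (εM / 2)) * (2 * Real.exp (-(5 * M0)))) =
          2 * Real.exp (4 * B + (N : ℝ) ^ (εM / 2) + -(5 * M0)) := by
        rw [Real.exp_add, Real.exp_add]
        ring
      rw [e1]
      refine mul_le_mul_of_nonneg_left (Real.exp_le_exp.2 ?_) (by norm_num)
      rw [hM0']
      linarith
    have q2 : Real.exp (4 * B) * Real.exp (-X) ≤ Real.exp (-(1 / 4 * X)) := by
      rw [← Real.exp_add]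
      exact Real.exp_le_exp.2 (by linarith)
    rw [mul_add]
    linarith
  have p2 : (law μ {η | ¬ GW1 μ s N (Pn N y) γ δ₁ B (Real.exp ((N : ℝ) ^ (εM / 2))) (Real.exp (-X)) b j η}).toReal ≤
      Real.exp (-X) := by
    have h1 : {η | ¬ GW1 μ s N (Pn N y) γ δ₁ B (Real.exp ((N : ℝ) ^ (εM / 2))) (Real.exp (-X)) b j η} ⊆
        {η | ¬ GwW μ s N κ γ δ₁ (εM / 2) c₁ η} := fun η hη hG => by
      refine hη ?_
      rw [hX]
      exact EvT50.GwW.gw1 hG hFull hjN (by rw [Nat.sub_sub_self hbj]; exact hb) hb B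
    refine ENNReal.toReal_le_of_le_ofReal (Real.exp_pos _).le ((measure_mono h1).trans ?_)
    rw [hX]
    exact hN₁ N k1
  have p3 : ∀ a : ℤ, (a = 1 ∨ a = -1) → ∫ η, gm (wt μ s η N (Pn N y) γ B b j a t) (nC μ s δ₁ (Pn N y) b j) ∂(law μ) ≤
      Real.exp (-Y) := fun a ha => by
    rw [hY]
    exact hN₂ N k2 y hy B hB0 b j hb hjN a ha t ht
  have key := mk96 (μ := μ) (s := s) (N := N) (Q := Pn N y) (δ := γ) (δ₁ := δ₁) (B := B) (R := Real.exp ((N : ℝ) ^ (εM / 2)))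
    (e0 := Real.exp (-X)) (b := b) (j := j) (t := t) (D := 2 * B) (M := M0) (M' := M) (θ := 2 * B / K) (J := J) (c0 := c0) (K := K)
    ht hB0 (Real.exp_pos _).le (Real.exp_pos _).le hj hJ (by linarith) le_rfl (by rw [hM0']; linarith) p3 p2
  have e1 : Real.exp (-X) ≤ Real.exp (-(1 / 4 * X)) := Real.exp_le_exp.2 (by linarith)
  exact ⟨key.gB, key.ms, key.rb, hZ0, by
    obtain ⟨bad, b1, b2, b3, b4⟩ := key.tt
    refine ⟨bad, b1, b2, fun m hm ω S => (b3 m hm ω S).trans ?_, fun m hm => (b4 m hm).trans ?_⟩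
    · linarith
    · linarith⟩

/-! ### The corner in numbers -/

/-- **THE DATA OF ONE ROW**: `E0X` for two free replicas at the tilt of the row, the input of the micro tie, the numbers. -/
structure Rw96 (μ : Measure ℝ) (s : ℝ) (N : ℕ) (Q : Finset (Finset ℕ)) (γ B : ℝ) (b j : ℕ) (t : ℝ) (c0 K : ℕ) (ε εM K' : ℝ) :
    Prop where
  hE : ∀ A, E0X μ s 2 N Q c0 K (pB (c0 + K)) (2 * B / K) (uj72 μ s Q γ B b j t A) ε K'
  mic : ∀ (J : Finset ℕ) (M : ℝ), (∀ m ∈ J, c0 + K ≤ m) → (N : ℝ) ^ εM ≤ M →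
    Mic45 μ s N Q (uj72 μ s Q γ B b j t) (fun ω => gg μ s Q γ B b ω j) J c0 K (2 * B / K) B ((N : ℝ) ^ (-K')) ((N : ℝ) ^ (-K'))
      (fun m ω => EvT50.TauM (wm μ s N Q ω) (pJ 0 m) b j (M - 8 / 5 * B)) (fun m ω => EvT50.TauM (wm μ s N Q ω) (pJ 0 m) b j M)
  full : Full N Q
  B0 : 0 ≤ B
  BN : B ≤ N
  ht : |t| ≤ 1
  N1 : (64 : ℝ) ≤ N
  BM : 64 * B ≤ (N : ℝ) ^ εM
  M8 : 8 ≤ (N : ℝ) ^ εM
  ex : (N + 1 : ℝ) ^ 2 * Real.exp (-(1 / 8 * (N : ℝ) ^ εM)) ≤ (N : ℝ) ^ (-K')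
  ε0 : 0 ≤ ε
  ε1 : ε ≤ 1
  K4 : 4 ≤ K'

/-- The error of one row. -/
def er96 (N : ℕ) (K' : ℝ) : ℝ := (N : ℝ) ^ 6 * (N : ℝ) ^ (-K')

section Row

variable [IsProbabilityMeasure μ] [SwQ Q] [MxQ Q] [Nonempty (Px Q)] {γ B : ℝ} {b j : ℕ} {t : ℝ} {c0 K : ℕ} {ε εM K' : ℝ}

theorem Rw96.exp_le (R : Rw96 μ s N Q γ B b j t c0 K ε εM K') {M : ℝ} (hM : (N : ℝ) ^ εM ≤ M) :
    16 * B ≤ M ∧ 0 ≤ M ∧ 8 ≤ M ∧ Real.exp (-M) ≤ (N : ℝ) ^ (-K') ∧ Real.exp (4 * B - 5 * (M / 2)) ≤ (N : ℝ) ^ (-K') ∧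
      Real.exp (2 * B) * ((N + 1 : ℝ) ^ 2 * Real.exp (-(M / 4))) ≤ (N : ℝ) ^ (-K') ∧
      Real.exp (2 * B - M / 2) ≤ (N : ℝ) ^ (-K') := by
  have h1 := R.BM
  have h2 := R.M8
  have h3 := R.B0
  have h4 := R.ex
  have h5 := R.N1
  have h6 : (1 : ℝ) ≤ (N + 1 : ℝ) ^ 2 := by nlinarith
  have h7 : Real.exp (-(1 / 8 * (N : ℝ) ^ εM)) ≤ (N : ℝ) ^ (-K') :=
    (le_mul_of_one_le_left (Real.exp_pos _).le h6).trans h4
  refine ⟨by linarith, by linarith, by linarith, (Real.exp_le_exp.2 (by linarith)).trans h7,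
    (Real.exp_le_exp.2 (by linarith)).trans h7, ?_, (Real.exp_le_exp.2 (by linarith)).trans h7⟩
  have e1 : Real.exp (2 * B) * ((N + 1 : ℝ) ^ 2 * Real.exp (-(M / 4))) = (N + 1 : ℝ) ^ 2 * Real.exp (2 * B + -(M / 4)) := by
    rw [Real.exp_add]
    ring
  rw [e1]
  exact (mul_le_mul_of_nonneg_left (Real.exp_le_exp.2 (by linarith)) (by positivity)).trans h4

omit [IsProbabilityMeasure μ] [SwQ Q] [MxQ Q] [Nonempty (Px Q)] in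
/-- The numbers of the own term. -/
theorem fin_own96 {F Z X x e : ℝ} (hN : (64 : ℝ) ≤ N) (hF0 : 0 ≤ F) (hF : F ≤ (N : ℝ) ^ 3) (hε1 : ε ≤ 1) (hZ : 0 ≤ Z) (he : e ≤ 2 * Z)
    (h : x ≤ (N : ℝ) ^ ε * (X + Z) + 2 * F * e) : x ≤ (N : ℝ) ^ ε * X + (N : ℝ) ^ 6 * Z := by
  have h1 : (N : ℝ) ^ ε ≤ N := by
    have := Real.rpow_le_rpow_of_exponent_le (show (1 : ℝ) ≤ N by linarith) hε1
    rwa [Real.rpow_one] at this
  have h2 : (N : ℝ) ^ ε * Z ≤ N * Z := mul_le_mul_of_nonneg_right h1 hZ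
  have h3 : 2 * F * e ≤ 2 * (N : ℝ) ^ 3 * (2 * Z) := by
    refine (mul_le_mul_of_nonneg_left he (by linarith)).trans (mul_le_mul_of_nonneg_right (by linarith) (by linarith))
  have h4 : (N : ℝ) + 4 * (N : ℝ) ^ 3 ≤ (N : ℝ) ^ 6 := by
    have a1 : (N : ℝ) ≤ (N : ℝ) ^ 3 := by nlinarith [mul_self_nonneg ((N : ℝ) - 1)]
    have a2 : 5 * (N : ℝ) ^ 3 ≤ (N : ℝ) ^ 3 * (N : ℝ) ^ 3 := mul_le_mul_of_nonneg_right (by linarith) (by positivity)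
    calc (N : ℝ) + 4 * (N : ℝ) ^ 3 ≤ 5 * (N : ℝ) ^ 3 := by linarith
      _ ≤ _ := by
        refine a2.trans (le_of_eq ?_)
        ring
  have h5 := mul_le_mul_of_nonneg_right h4 hZ
  rw [add_mul] at h5
  rw [mul_add] at h
  linarith

omit [IsProbabilityMeasure μ] [SwQ Q] [MxQ Q] [Nonempty (Px Q)] in
/-- The numbers of the terms with the micro tie. -/
theorem fin_mic96 {F Z x e : ℝ} {J : Finset ℕ} {X X' : ℕ → ℝ} (hJ : J.Nonempty) (hN : (64 : ℝ) ≤ N) (hF0 : 0 ≤ F)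
    (hF : F ≤ (N : ℝ) ^ 3) (hε1 : ε ≤ 1) (hB0 : 0 ≤ B) (hB : B ≤ N) (hZ : 0 ≤ Z) (he : e ≤ 2 * F * (4 * B * Z + Z))
    (hX : ∀ m ∈ J, X m ≤ X' m + 2 * F * (2 * Z))
    (h : x ≤ B * ((J.card : ℝ)⁻¹ * ∑ m ∈ J, (N : ℝ) ^ ε * (X m + Z)) + e) :
    x ≤ B * ((N : ℝ) ^ ε * ((J.card : ℝ)⁻¹ * ∑ m ∈ J, X' m)) + (N : ℝ) ^ 6 * Z := by
  have hcard : (0 : ℝ) < J.card := Nat.cast_pos.2 (card_pos.2 hJ)
  have hNe0 : 0 ≤ (N : ℝ) ^ ε := Real.rpow_nonneg (by linarith) _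
  have h1 : (N : ℝ) ^ ε ≤ N := by
    have := Real.rpow_le_rpow_of_exponent_le (show (1 : ℝ) ≤ N by linarith) hε1
    rwa [Real.rpow_one] at this
  have h2 : (J.card : ℝ)⁻¹ * ∑ m ∈ J, (N : ℝ) ^ ε * (X m + Z) ≤
      (N : ℝ) ^ ε * ((J.card : ℝ)⁻¹ * ∑ m ∈ J, X' m) + (N : ℝ) ^ ε * (4 * F * Z + Z) := by
    have e1 : ∑ m ∈ J, (N : ℝ) ^ ε * (X m + Z) ≤ ∑ m ∈ J, ((N : ℝ) ^ ε * X' m + (N : ℝ) ^ ε * (4 * F * Z + Z)) :=
      sum_le_sum fun m hm => by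
        rw [← mul_add]
        exact mul_le_mul_of_nonneg_left (by linarith [hX m hm]) hNe0
    refine (mul_le_mul_of_nonneg_left e1 (inv_nonneg.2 hcard.le)).trans (le_of_eq ?_)
    rw [sum_add_distrib, sum_const, nsmul_eq_mul, mul_add, ← mul_assoc (J.card : ℝ)⁻¹ (J.card : ℝ), inv_mul_cancel₀ hcard.ne',
      one_mul, ← mul_sum]
    ring
  have h3 := mul_le_mul_of_nonneg_left h2 hB0
  rw [mul_add] at h3
  have h4 : B * ((N : ℝ) ^ ε * (4 * F * Z + Z)) ≤ N * (N * (4 * (N : ℝ) ^ 3 * Z + Z)) := by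
    have a1 : 4 * F * Z + Z ≤ 4 * (N : ℝ) ^ 3 * Z + Z := by
      have := mul_le_mul_of_nonneg_right hF hZ
      linarith
    have a0 : 0 ≤ 4 * F * Z + Z := by positivity
    exact mul_le_mul hB (mul_le_mul h1 a1 a0 (by linarith)) (mul_nonneg hNe0 a0) (by linarith)
  have h5 : e ≤ 2 * (N : ℝ) ^ 3 * (4 * N * Z + Z) := by
    refine he.trans (mul_le_mul (by linarith) ?_ (by positivity) (by positivity))
    have := mul_le_mul_of_nonneg_right hB hZ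
    linarith
  have h6 : N * (N * (4 * (N : ℝ) ^ 3 + 1)) + 2 * (N : ℝ) ^ 3 * (4 * N + 1) ≤ (N : ℝ) ^ 6 := by
    have p0 : (0 : ℝ) ≤ N := by linarith
    have b1 : (1 : ℝ) ≤ N := by linarith
    have b5 : 0 ≤ (N : ℝ) ^ 5 := by positivity
    have b2 : (N : ℝ) ^ 2 ≤ (N : ℝ) ^ 5 := pow_le_pow_right₀ b1 (by norm_num)
    have b3 : (N : ℝ) ^ 3 ≤ (N : ℝ) ^ 5 := pow_le_pow_right₀ b1 (by norm_num)
    have b4 : (N : ℝ) ^ 4 ≤ (N : ℝ) ^ 5 := pow_le_pow_right₀ b1 (by norm_num)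
    have b6 : 64 * (N : ℝ) ^ 5 ≤ (N : ℝ) ^ 6 := by
      have := mul_le_mul_of_nonneg_right hN b5
      calc 64 * (N : ℝ) ^ 5 ≤ N * (N : ℝ) ^ 5 := this
        _ = (N : ℝ) ^ 6 := by ring
    have e1 : N * (N * (4 * (N : ℝ) ^ 3 + 1)) + 2 * (N : ℝ) ^ 3 * (4 * N + 1) =
        4 * (N : ℝ) ^ 5 + (N : ℝ) ^ 2 + 8 * (N : ℝ) ^ 4 + 2 * (N : ℝ) ^ 3 := by ring
    rw [e1]
    linarith
  have h7 := mul_le_mul_of_nonneg_right h6 hZ
  have e3 : (N * (N * (4 * (N : ℝ) ^ 3 + 1)) + 2 * (N : ℝ) ^ 3 * (4 * N + 1)) * Z =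
      N * (N * (4 * (N : ℝ) ^ 3 * Z + Z)) + 2 * (N : ℝ) ^ 3 * (4 * N * Z + Z) := by ring
  rw [e3] at h7
  linarith

variable {c1 be wr z zf cc : ℕ} {F M : ℝ} {J : Finset ℕ} {f : Env × Finset ℕ → Px Q → ℝ}

omit [MxQ Q] in
/-- The class of the spectator as an input: bound at most `N ^ 3`. -/
theorem F0_96 (hf : Sp72 Q cc F c0 K f) : 0 ≤ F := by
  obtain ⟨S₀⟩ : Nonempty (Px Q) := inferInstance
  exact (abs_nonneg _).trans (hf.bdd (fun _ => 0, ∅) S₀)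

omit [IsProbabilityMeasure μ] [SwQ Q] [MxQ Q] [Nonempty (Px Q)] in
theorem Rw96.twoF (R : Rw96 μ s N Q γ B b j t c0 K ε εM K') (hF : F ≤ (N : ℝ) ^ 3) : 2 * F ≤ (N : ℝ) ^ K' := by
  have h1 := R.N1
  have h2 : (N : ℝ) ^ (4 : ℝ) ≤ (N : ℝ) ^ K' := Real.rpow_le_rpow_of_exponent_le (by linarith) R.K4
  have h3 : (N : ℝ) ^ (4 : ℝ) = N * (N : ℝ) ^ 3 := by
    rw [show (4 : ℝ) = ((4 : ℕ) : ℝ) by norm_num, Real.rpow_natCast]
    ring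
  have h4 : 2 * (N : ℝ) ^ 3 ≤ N * (N : ℝ) ^ 3 := mul_le_mul_of_nonneg_right (by linarith) (by positivity)
  rw [h3] at h2
  exact (mul_le_mul_of_nonneg_left hF zero_le_two).trans (h4.trans h2)

theorem Rw96.Z0 (R : Rw96 μ s N Q γ B b j t c0 K ε εM K') : 0 ≤ (N : ℝ) ^ (-K') :=
  Real.rpow_nonneg (by linarith [R.N1]) _

/-- **THE OWN TERM, PART R.** -/
theorem Rw96.ownR (R : Rw96 μ s N Q γ B b j t c0 K ε εM K') (hM : (N : ℝ) ^ εM ≤ M) (h1 : c1 ≤ be) (h2 : c0 + K ≤ be)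
    (h3 : be ≤ wr) (h4 : wr ≤ z) (hz : z ≤ N) (hzf : z ≤ zf) (hc : zf ≤ cc) (hf : Sp72 Q cc F c0 K f) (hF : F ≤ (N : ℝ) ^ 3) :
    ∫ ω, PP (wu μ s N Q (uj72 μ s Q γ B b j t) ω) (fun x y => mI (wu μ s N Q (uj72 μ s Q γ B b j t) ω) (pJ c1 z) be wr x *
        rh zf cc (f ω) x y) ∂(Pm μ N) ≤
      (N : ℝ) ^ ε * ∫ ω, PP (wm μ s N Q ω)
          (fun x y => ind72 (fun ω => R43.Nta (wm μ s N Q ω) (pJ 0 z) be wr M) ω x * rh zf cc (f ω) x y) ∂(Pm μ N) + er96 N K' := by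
  obtain ⟨b1, b2, b3, b4, b5, b6, b7⟩ := R.exp_le hM
  have key := C45.ownR45 (μ := μ) (s := s) (N := N) (Q := Q) (θ := 2 * B / K) (Du := B) (D := 2 * B) (M₁ := M / 2) (M₂ := M)
    (κ := M / 4) (c1 := c1) (be := be) (wr := wr) (z := z) (zf := zf) (c := cc) R.hE R.full (meas_uj72 γ B b j t)
    (fun A η S => abs_uj72 R.B0 b j R.ht A η S) (by linarith [R.B0]) le_rfl (by linarith) h1 h2 h3 h4 hz hzf hc hf (R.twoF hF)
  exact fin_own96 R.N1 (F0_96 hf) hF R.ε1 R.Z0 (by linarith) key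

/-- **THE OWN TERM, PART L.** -/
theorem Rw96.ownL {Y : Type*} [DecidableEq Y] (R : Rw96 μ s N Q γ B b j t c0 K ε εM K') (hM : (N : ℝ) ^ εM ≤ M) {wl al : ℕ}
    (p : Px Q → Y) (h2 : c0 + K ≤ z) (hzf : z ≤ zf) (hc : zf ≤ cc) (hf : Sp72 Q cc F c0 K f) (hF : F ≤ (N : ℝ) ^ 3) :
    ∫ ω, PP (wu μ s N Q (uj72 μ s Q γ B b j t) ω) (fun x y => mI (wu μ s N Q (uj72 μ s Q γ B b j t) ω) p wl al x *
        rh zf cc (f ω) x y) ∂(Pm μ N) ≤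
      (N : ℝ) ^ ε * ∫ ω, PP (wm μ s N Q ω)
          (fun x y => ind72 (fun ω => R43.TauM (wm μ s N Q ω) (pJ 0 z) p wl al M) ω x * rh zf cc (f ω) x y) ∂(Pm μ N) +
        er96 N K' := by
  obtain ⟨b1, b2, b3, b4, b5, b6, b7⟩ := R.exp_le hM
  have key := C45.ownL45 (μ := μ) (s := s) (N := N) (Q := Q) (θ := 2 * B / K) (Du := B) (D := 2 * B) (M₁ := M / 2) (M₂ := M)
    (wl := wl) (al := al) (z := z) (zf := zf) (c := cc) R.hE (meas_uj72 γ B b j t)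
    (fun A η S => abs_uj72 R.B0 b j R.ht A η S) (by linarith [R.B0]) le_rfl (by linarith) p h2 hzf hc hf (R.twoF hF)
  exact fin_own96 R.N1 (F0_96 hf) hF R.ε1 R.Z0 (by linarith [R.Z0]) key

/-- A micro term at the corner: from the near ties to the alternatives of the base path. -/
theorem Rw96.swp (R : Rw96 μ s N Q γ B b j t c0 K ε εM K') (hM : (N : ℝ) ^ εM ≤ M) (hf : Sp72 Q cc F c0 K f)
    {E : Env × Finset ℕ → Px Q → Prop} (hE : ∀ S, MeasurableSet {ω | E ω S}) (m : ℕ) {l q : ℕ}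
    (hq : 10 * M ≤ q) (hq' : (q : ℝ) ≤ 20 * M) (h1 : b ≤ j) (h2 : 3 * q * (l + 1) ≤ b) :
    ∫ ω, PP (wm μ s N Q ω) (fun x y => ind72 (fun ω S => E ω S ∧ EvT50.TauM (wm μ s N Q ω) (pJ 0 m) b j M S) ω x *
        rh zf cc (f ω) x y) ∂(Pm μ N) ≤
      ∫ ω, PP (wm μ s N Q ω) (fun x y => ind72 (fun ω S => E ω S ∧ EvT50.RpM (wm μ s N Q ω) (pJ 0 m) b j l q M S) ω x *
        rh zf cc (f ω) x y) ∂(Pm μ N) + 2 * F * (2 * (N : ℝ) ^ (-K')) := by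
  obtain ⟨b1, b2, b3, b4, b5, b6, b7⟩ := R.exp_le hM
  refine (C45.mic_rp45 (z := zf) hf hE m b3 hq hq' h1 h2).trans ?_
  have h0 := F0_96 hf
  have h3 := mul_le_mul_of_nonneg_left (mul_le_mul_of_nonneg_left b4 zero_le_two) (by linarith : 0 ≤ 2 * F)
  linarith

/-- **THE TERM `T2`, PART R.** -/
theorem Rw96.T2R (R : Rw96 μ s N Q γ B b j t c0 K ε εM K') (hM : (N : ℝ) ^ εM ≤ M) {l q : ℕ}
    (hq : 10 * M ≤ q) (hq' : (q : ℝ) ≤ 20 * M) (hbj : b ≤ j) (hl : 3 * q * (l + 1) ≤ b)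
    (hJ0 : J.Nonempty) (hJ : ∀ m ∈ J, c0 + K ≤ m ∧ m ≤ be) (h1 : c1 ≤ be) (h3 : be ≤ wr) (h4 : wr ≤ z)
    (hz : z ≤ N) (hzf : z ≤ zf) (hc : zf ≤ cc) (hf : Sp72 Q cc F c0 K f) (hF : F ≤ (N : ℝ) ^ 3) :
    ∫ ω, PP (wu μ s N Q (uj72 μ s Q γ B b j t) ω) (fun x y => mI (wu μ s N Q (uj72 μ s Q γ B b j t) ω) (pJ c1 z) be wr x *
        (nn (wu μ s N Q (uj72 μ s Q γ B b j t) ω) J (pJ 0) (gg μ s Q γ B b ω j) x * rh zf cc (f ω) x y)) ∂(Pm μ N) ≤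
      B * ((N : ℝ) ^ ε * ((J.card : ℝ)⁻¹ * ∑ m ∈ J, ∫ ω, PP (wm μ s N Q ω)
          (fun x y => ind72 (fun ω S => R43.Nta (wm μ s N Q ω) (pJ 0 z) be wr M S ∧
            EvT50.RpM (wm μ s N Q ω) (pJ 0 m) b j l q M S) ω x * rh zf cc (f ω) x y) ∂(Pm μ N))) + er96 N K' := by
  obtain ⟨b1, b2, b3, b4, b5, b6, b7⟩ := R.exp_le hM
  have key := C45.T2R45 (μ := μ) (s := s) (N := N) (Q := Q) (θ := 2 * B / K) (Du := B) (D := 2 * B) (M₁ := M / 2) (M₂ := M)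
    (κ := M / 4) (c1 := c1) (be := be) (wr := wr) (z := z) (zf := zf) (c := cc) R.hE R.full (meas_uj72 γ B b j t)
    (fun A η S => abs_uj72 R.B0 b j R.ht A η S) R.B0 (R.mic J M (fun m hm => (hJ m hm).1) hM) (by linarith [R.B0]) le_rfl
    (by linarith) hJ0 hJ h1 h3 h4 hz hzf hc hf (R.twoF hF)
  refine fin_mic96 hJ0 R.N1 (F0_96 hf) hF R.ε1 R.B0 R.BN R.Z0 ?_ (fun m hm => R.swp hM hf (E := fun ω S =>
    R43.Nta (wm μ s N Q ω) (pJ 0 z) be wr M S) (fun S => (C45.nta_rb (μ := μ) (s := s) (N := N) (Q := Q) (c0 := 0) (K := 0)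
      (θ := 0) (D := 0) (z := z) (i := be) (j := wr) (M := M) (M' := M) le_rfl (by simp) (by omega) (by omega)
      (by linarith)).meas S) m hq hq' hbj hl) key
  have h5 := R.Z0
  have h6 := R.B0
  have h7 := F0_96 hf
  have h8 : B * (2 * F) * (Real.exp (2 * B) * ((N + 1 : ℝ) ^ 2 * Real.exp (-(M / 4))) + Real.exp (2 * B - M / 2)) ≤
      B * (2 * F) * (2 * (N : ℝ) ^ (-K')) := mul_le_mul_of_nonneg_left (by linarith) (by positivity)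
  have h9 : 0 ≤ B * F * (N : ℝ) ^ (-K') := by positivity
  have e1 : 2 * F * (4 * B * (N : ℝ) ^ (-K') + (N : ℝ) ^ (-K')) = B * (2 * F) * (2 * (N : ℝ) ^ (-K')) +
      (B * (N : ℝ) ^ (-K') + (N : ℝ) ^ (-K')) * (2 * F) + 2 * (B * F * (N : ℝ) ^ (-K')) := by ring
  rw [e1]
  linarith

/-- **THE TERM `Tp`, PART R.** -/
theorem Rw96.TpR (R : Rw96 μ s N Q γ B b j t c0 K ε εM K') (hM : (N : ℝ) ^ εM ≤ M) {l q : ℕ}
    (hq : 10 * M ≤ q) (hq' : (q : ℝ) ≤ 20 * M) (hbj : b ≤ j) (hl : 3 * q * (l + 1) ≤ b)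
    (hJ0 : J.Nonempty) (hJ : ∀ m ∈ J, c0 + K ≤ m ∧ m ≤ be) (h1 : c1 ≤ be) (h3 : be ≤ wr) (h4 : wr ≤ z)
    (hz : z ≤ N) (hzf : z ≤ zf) (hc : zf ≤ cc) (hf : Sp72 Q cc F c0 K f) (hF : F ≤ (N : ℝ) ^ 3) :
    ∫ ω, PP (wu μ s N Q (uj72 μ s Q γ B b j t) ω) (fun x y => mI (wu μ s N Q (uj72 μ s Q γ B b j t) ω) (pJ c1 z) be wr x *
        (cE (wu μ s N Q (uj72 μ s Q γ B b j t) ω) (pJ c1 z) (nn (wu μ s N Q (uj72 μ s Q γ B b j t) ω) J (pJ 0)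
          (gg μ s Q γ B b ω j)) x * rh zf cc (f ω) x y)) ∂(Pm μ N) ≤
      B * ((N : ℝ) ^ ε * ((J.card : ℝ)⁻¹ * ∑ m ∈ J, ∫ ω, PP (wm μ s N Q ω)
          (fun x y => ind72 (fun ω S => R43.TauM (wm μ s N Q ω) (pJ 0 z) (pJ c1 z) be wr M S ∧
            EvT50.RpM (wm μ s N Q ω) (pJ 0 m) b j l q M S) ω x * rh zf cc (f ω) x y) ∂(Pm μ N))) + er96 N K' := by
  obtain ⟨b1, b2, b3, b4, b5, b6, b7⟩ := R.exp_le hM
  have key := C45.TpR45 (μ := μ) (s := s) (N := N) (Q := Q) (θ := 2 * B / K) (Du := B) (D := 2 * B) (M₁ := M / 2) (M₂ := M)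
    (κ := M / 4) (c1 := c1) (be := be) (wr := wr) (z := z) (zf := zf) (c := cc) R.hE R.full (meas_uj72 γ B b j t)
    (fun A η S => abs_uj72 R.B0 b j R.ht A η S) R.B0 (R.mic J M (fun m hm => (hJ m hm).1) hM) (by linarith [R.B0]) le_rfl
    (by linarith) hJ0 hJ h1 h3 h4 hz hzf hc hf (R.twoF hF)
  refine fin_mic96 hJ0 R.N1 (F0_96 hf) hF R.ε1 R.B0 R.BN R.Z0 ?_ (fun m hm => R.swp hM hf (E := fun ω S =>
    R43.TauM (wm μ s N Q ω) (pJ 0 z) (pJ c1 z) be wr M S) (fun S => C45.meas_tau45 meas_wm _ _ _ _ _ S) m hq hq' hbj hl) key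
  have h5 := R.Z0
  have h6 := R.B0
  have h7 := F0_96 hf
  have h8 : B * (2 * F) * (Real.exp (2 * B) * ((N + 1 : ℝ) ^ 2 * Real.exp (-(M / 4))) + Real.exp (4 * B - 5 * (M / 2))) ≤
      B * (2 * F) * (2 * (N : ℝ) ^ (-K')) := mul_le_mul_of_nonneg_left (by linarith) (by positivity)
  have h9 : 0 ≤ B * F * (N : ℝ) ^ (-K') := by positivity
  have e1 : 2 * F * (4 * B * (N : ℝ) ^ (-K') + (N : ℝ) ^ (-K')) = B * (2 * F) * (2 * (N : ℝ) ^ (-K')) +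
      (B * (N : ℝ) ^ (-K') + (N : ℝ) ^ (-K')) * (2 * F) + 2 * (B * F * (N : ℝ) ^ (-K')) := by ring
  rw [e1]
  linarith

/-- **THE TERM `T0Q`.** -/
theorem Rw96.T0Q {Y : Type*} [DecidableEq Y] (R : Rw96 μ s N Q γ B b j t c0 K ε εM K') (hM : (N : ℝ) ^ εM ≤ M) {l q : ℕ}
    (hq : 10 * M ≤ q) (hq' : (q : ℝ) ≤ 20 * M) (hbj : b ≤ j) (hl : 3 * q * (l + 1) ≤ b)
    (hJ0 : J.Nonempty) {m' : ℕ} (hJ : ∀ m ∈ J, c0 + K ≤ m ∧ m ≤ m') (p : Px Q → Y) {w1 w2 : ℕ} (hzf : m' ≤ zf) (hc : zf ≤ cc)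
    (hf : Sp72 Q cc F c0 K f) (hF : F ≤ (N : ℝ) ^ 3) :
    ∫ ω, PP (wu μ s N Q (uj72 μ s Q γ B b j t) ω) (fun x y => cE (wu μ s N Q (uj72 μ s Q γ B b j t) ω) (pJ 0 m')
        (mI (wu μ s N Q (uj72 μ s Q γ B b j t) ω) p w1 w2) x *
        (nn (wu μ s N Q (uj72 μ s Q γ B b j t) ω) J (pJ 0) (gg μ s Q γ B b ω j) x * rh zf cc (f ω) x y)) ∂(Pm μ N) ≤
      B * ((N : ℝ) ^ ε * ((J.card : ℝ)⁻¹ * ∑ m ∈ J, ∫ ω, PP (wm μ s N Q ω)
          (fun x y => ind72 (fun ω S => R43.TauM (wm μ s N Q ω) (pJ 0 m') p w1 w2 M S ∧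
            EvT50.RpM (wm μ s N Q ω) (pJ 0 m) b j l q M S) ω x * rh zf cc (f ω) x y) ∂(Pm μ N))) + er96 N K' := by
  obtain ⟨b1, b2, b3, b4, b5, b6, b7⟩ := R.exp_le hM
  have key := C45.T0Q45 (μ := μ) (s := s) (N := N) (Q := Q) (θ := 2 * B / K) (Du := B) (D := 2 * B) (M₁ := M / 2) (M₂ := M)
    (m' := m') (w1 := w1) (w2 := w2) (zf := zf) (c := cc) R.hE (meas_uj72 γ B b j t)
    (fun A η S => abs_uj72 R.B0 b j R.ht A η S) R.B0 (R.mic J M (fun m hm => (hJ m hm).1) hM) (by linarith [R.B0]) le_rfl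
    (by linarith) hJ0 hJ p hzf hc hf (R.twoF hF)
  refine fin_mic96 hJ0 R.N1 (F0_96 hf) hF R.ε1 R.B0 R.BN R.Z0 ?_ (fun m hm => R.swp hM hf (E := fun ω S =>
    R43.TauM (wm μ s N Q ω) (pJ 0 m') p w1 w2 M S) (fun S => C45.meas_tau45 meas_wm _ _ _ _ _ S) m hq hq' hbj hl) key
  have h5 := R.Z0
  have h6 := R.B0
  have h7 := F0_96 hf
  have h8 : B * (2 * F) * Real.exp (4 * B - 5 * (M / 2)) ≤ B * (2 * F) * (N : ℝ) ^ (-K') :=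
    mul_le_mul_of_nonneg_left b5 (by positivity)
  have h9 : 0 ≤ B * F * (N : ℝ) ^ (-K') := by positivity
  have e1 : 2 * F * (4 * B * (N : ℝ) ^ (-K') + (N : ℝ) ^ (-K')) = B * (2 * F) * (N : ℝ) ^ (-K') +
      (B * (N : ℝ) ^ (-K') + (N : ℝ) ^ (-K')) * (2 * F) + 4 * (B * F * (N : ℝ) ^ (-K')) := by ring
  rw [e1]
  linarith

end Row

/-- **THE DATA OF A ROW EXIST**: exponents in the order of the frame. -/
theorem rw96 [IsProbabilityMeasure μ] {c C : ℝ} {n₀ : ℕ} (h : In μ s c C n₀)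
    (hQI : ∀ p : ℝ, 1 < p → ∃ C θ0 : ℝ, 0 ≤ C ∧ 0 < θ0 ∧ H27.QI μ p C θ0) {κ ε εM K' : ℝ} (hκ : 0 < κ) (hκ1 : κ ≤ 1) (hε : 0 < ε)
    (hε1 : ε ≤ 1) (hεM : 0 < εM) (hK' : 4 ≤ K') :
    ∃ β γ₀ : ℝ, 0 < β ∧ 0 < γ₀ ∧ ∀ γ : ℝ, 0 < γ → γ ≤ γ₀ → ∃ δ' : ℝ, 0 < δ' ∧ ∃ N₀ : ℕ, ∀ N : ℕ, N₀ ≤ N → ∀ y : ℕ, y ≤ N →
      EndOk μ s δ' N y → ∀ [Nonempty (Px (Pn N y))], ∀ B : ℝ, 0 ≤ B → B ≤ (N : ℝ) ^ β → ∀ b j : ℕ, (N : ℝ) ^ κ ≤ b → b ≤ j →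
      ∀ t : ℝ, |t| ≤ 1 → ∀ c0 K : ℕ, j + b ≤ c0 → (N : ℝ) ^ κ ≤ K → c0 + K ≤ N →
        Rw96 μ s N (Pn N y) γ B b j t c0 K ε εM K' := by
  obtain ⟨β₁, γ₀, hβ₁, hγ₀, hmic⟩ := mic96 (μ := μ) (s := s) h K' hκ hεM
  obtain ⟨δ₂, β₂, hδ₂, hβ₂, N₂, hE⟩ := T72.e0_uj72 (μ := μ) (s := s) h hQI hκ hκ1 2 hε (by linarith : 0 ≤ K')
  obtain ⟨β, hβ⟩ : ∃ x : ℝ, x = min (min β₁ β₂) (min εM 1) / 2 := ⟨_, rfl⟩
  have hβm : 0 < min (min β₁ β₂) (min εM 1) := lt_min (lt_min hβ₁ hβ₂) (lt_min hεM one_pos)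
  have hβ0 : 0 < β := by rw [hβ]; exact half_pos hβm
  have x1 : β ≤ β₁ := by
    have : min (min β₁ β₂) (min εM 1) ≤ β₁ := (min_le_left _ _).trans (min_le_left _ _)
    linarith
  have x2 : β ≤ β₂ := by
    have : min (min β₁ β₂) (min εM 1) ≤ β₂ := (min_le_left _ _).trans (min_le_right _ _)
    linarith
  have x3 : β < εM := by
    have : min (min β₁ β₂) (min εM 1) ≤ εM := (min_le_right _ _).trans (min_le_left _ _)
    linarith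
  have x4 : β ≤ 1 := by
    have : min (min β₁ β₂) (min εM 1) ≤ 1 := (min_le_right _ _).trans (min_le_right _ _)
    linarith
  refine ⟨β, γ₀, hβ0, hγ₀, fun γ hγ hγ' => ?_⟩
  obtain ⟨δ₁, hδ₁, N₁, hN₁⟩ := hmic γ hγ hγ'
  have ev1 := ev_pw50 x3 64
  have ev2 := ev_pw50 hεM 8
  have ev3 := ev_exp50 4 (K' + 2) (a := 1 / 8) (by norm_num) hεM
  obtain ⟨N₃, hN₃⟩ := eventually_atTop.1 (ev1.and (ev2.and ev3))
  refine ⟨min δ₁ δ₂, lt_min hδ₁ hδ₂, max (max N₁ N₂) (max N₃ 64), ?_⟩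
  intro N hN y hyN hy _ B hB0 hB b j hb hbj t ht c0 K hj hK hcK
  have k1 : N₁ ≤ N := (le_max_left _ _).trans ((le_max_left _ _).trans hN)
  have k2 : N₂ ≤ N := (le_max_right _ _).trans ((le_max_left _ _).trans hN)
  have k3 : N₃ ≤ N := (le_max_left _ _).trans ((le_max_right _ _).trans hN)
  have k0 : 64 ≤ N := (le_max_right _ _).trans ((le_max_right _ _).trans hN)
  have k4 : (64 : ℝ) ≤ N := by exact_mod_cast k0
  have k5 : (0 : ℝ) < N := by linarith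
  have k6 : (1 : ℝ) ≤ N := by linarith
  obtain ⟨a1, a2, a3⟩ := hN₃ N k3
  rw [Real.rpow_zero, mul_one] at a2
  have hB1 : B ≤ (N : ℝ) ^ β₁ := hB.trans (Real.rpow_le_rpow_of_exponent_le k6 x1)
  have hB2 : B ≤ (N : ℝ) ^ β₂ := hB.trans (Real.rpow_le_rpow_of_exponent_le k6 x2)
  have hPok : H7.Pok μ s N δ₂ (Pn N y) := Or.inr ⟨y, hyN, hy.mono (min_le_right _ _) (by omega), rfl⟩
  refine ⟨fun A => hE N k2 (Pn N y) hPok c0 K ?_ hK hcK B hB0 hB2 γ b j hj t ht A, fun J M hJ hM => ?_, full_Pn N y, hB0, ?_, ht, k4,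
    (mul_le_mul_of_nonneg_left hB (by norm_num)).trans a1, a2, ?_, hε.le, hε1, hK'⟩
  · have : b ≤ c0 := by omega
    exact hb.trans (by exact_mod_cast this)
  · exact hN₁ N k1 y (hy.mono (min_le_left _ _) (by omega)) B hB0 hB1 b j hb hbj (by omega) M hM t ht J c0 K hj hJ
  · calc B ≤ (N : ℝ) ^ β := hB
      _ ≤ (N : ℝ) ^ (1 : ℝ) := Real.rpow_le_rpow_of_exponent_le k6 x4
      _ = N := Real.rpow_one _
  · have e1 : (N + 1 : ℝ) ^ 2 ≤ 4 * (N : ℝ) ^ 2 := by nlinarith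
    have e2 : (N : ℝ) ^ (-(K' + 2)) * (N : ℝ) ^ 2 = (N : ℝ) ^ (-K') := by
      rw [← Real.rpow_natCast (N : ℝ) 2, ← Real.rpow_add k5]
      congr 1
      push_cast
      ring
    have e3 := mul_le_mul_of_nonneg_right a3 (by positivity : (0 : ℝ) ≤ (N : ℝ) ^ 2)
    rw [e2] at e3
    refine le_trans ?_ e3
    have e4 := mul_le_mul_of_nonneg_right e1 (Real.exp_pos (-(1 / 8 * (N : ℝ) ^ εM))).le
    linarith

end

end Pool.Agent.W_7d29a1_C0.MicN96
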