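import Pool.Agent.W_7d29a1_C0.Cor45F
import Pool.Agent.W_7d29a1_C0.MicN96
import Pool.Agent.W_7d29a1_C0.Loc7Z
import Pool.Agent.W_7d29a1_C0.Cr59

/-!
MP_7d29a1_pr, [CURV0] / [C0], leaf E2.6, PART L (helper45): **THE CORNER OF PART L, WITH THE NUMBERS.**

`RL45`: the data of one row, part L (`Rw96` of helper96, `E0D` of helper7 for two replicas, the micro input with two partitions).
`Ev45`: own events. `RL45.nx`: the part whose level is seen at the slab, at the corner, as events of the base path. `RL45.third`: the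
part whose level is missed at both corners, in terms of `O1.T4`. `pP45`, `pM45`: the parts to be flipped.
-/

set_option autoImplicit false
set_option linter.unusedSectionVars false
set_option linter.unusedVariables false

namespace Pool.W7d29a1.C0.C45

open Finset MeasureTheory Filter Topology Pool.Agent.W_7d29a1_F Pool.Agent.W_7d29a1_X Pool.Agent.W_7d29a1_C0.Mod92
open Pool.Agent.W_7d29a1_C0.Swap57 Pool.Agent.W_7d29a1_C0.Blk18 Pool.Agent.W_7d29a1_C0.NM82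
open Pool.Agent.W_7d29a1_C0.MicE14 (rh rh_nonneg nn Cq)
open Pool.Agent.W_7d29a1_C0.CutT57 (NI_congr NI_le_one)
open Pool.Agent.W_7d29a1_C0.T72 (Sp72 Rb72 ind72 ind72_nonneg ind72_le_one meas_ind72 meas_fix crs_pB72 ps_of_pB72 uj72 abs_uj72
  meas_uj72 tA_uj72 pA_ut72)
open Pool.Agent.W_7d29a1_C0.MicN96 (Rw96 er96 F0_96)
open Pool.Agent.W_7d29a1_C0.EvT50 (RpM meas_RpM)
open Pool.W7d29a1.C0 (gz gm gz_ne gz_pos gm_nonneg gm_mono gm_const PP PP_eq PP_mono PP_nonneg PP_add PP_smul)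
open Pool.W7d29a1.C0.VT31
open Pool.W7d29a1.C0.R43
open Pool.W7d29a1.C0.H7 (E0D NL7 HL7 Ms7 iM7 jA7 jA7_01)
open Pool.W7d29a1.C0.H27 (pB slb PA tA)
open Pool.W7d29a1.C0.Row39 (PP_fst PP_const PP_sum)

noncomputable section

/-! ### The data of a row -/

/-- **The data of one row, part L.** -/
structure RL45 (μ : Measure ℝ) (s : ℝ) (N : ℕ) (Q : Finset (Finset ℕ)) (γ B : ℝ) (b j : ℕ) (t : ℝ) (c0 K : ℕ) (ε εM K' : ℝ) :
    Prop extends Rw96 μ s N Q γ B b j t c0 K ε εM K' where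
  hD : ∀ (F : Fin 2 → Prop) (δ : ℝ), 0 ≤ δ → δ ≤ 1 → ∀ U : Env → Finset ℕ → ℝ, PA c0 B U →
    E0D μ s 2 N Q F δ c0 K (2 * B / K) (tA c0 U) ε K'
  micL : ∀ M : ℝ, (N : ℝ) ^ εM ≤ M → ∀ (Y Y' : Type) [DecidableEq Y] [DecidableEq Y'] (J : Finset ℕ) (r : ℕ → Px Q → Y)
    (q : ℕ → Px Q → Y'), (∀ m ∈ J, Crs (r m) (pJ (j - b) (j + b))) → (∀ m ∈ J, Crs (q m) (r m)) →
    MicL45 μ s N Q (uj72 μ s Q γ B b j t) (fun ω => gg μ s Q γ B b ω j) J r q B ((N : ℝ) ^ (-K')) ((N : ℝ) ^ (-K'))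
      (fun m ω => TauX45 (wm μ s N Q ω) (r m) (q m) b j M)
  fam : ∀ r ≤ N, H27.Fam N r Q
  hjc : j + b ≤ c0
  hcN : c0 + K ≤ N
  exM : (N : ℝ) ^ K' * Real.exp (-(N : ℝ) ^ εM) ≤ (N : ℝ) ^ (-K')
  lgM : 12 * B + 4 * Real.log (N + 1) + 4 ≤ (N : ℝ) ^ εM

section Row

variable {μ : Measure ℝ} {s : ℝ} {N : ℕ} {Q : Finset (Finset ℕ)} [IsProbabilityMeasure μ] [SwQ Q] [MxQ Q] [Nonempty (Px Q)]
variable {γ B : ℝ} {b j : ℕ} {t : ℝ} {c0 K : ℕ} {ε εM K' : ℝ}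

omit [IsProbabilityMeasure μ] [SwQ Q] [MxQ Q] [Nonempty (Px Q)] in
/-- The numbers. -/
theorem RL45.num (R : RL45 μ s N Q γ B b j t c0 K ε εM K') {M : ℝ} (hM : (N : ℝ) ^ εM ≤ M) :
    64 * B ≤ M ∧ 8 ≤ M ∧ Real.exp (-(M / 8)) ≤ (N : ℝ) ^ (-K') ∧ (N : ℝ) ^ K' * Real.exp (-M) ≤ (N : ℝ) ^ (-K') ∧
      12 * B + 4 * Real.log (N + 1) + 4 ≤ M ∧ 0 ≤ (N : ℝ) ^ (-K') ∧ 0 ≤ B ∧ 0 ≤ (N : ℝ) ^ ε ∧ (N : ℝ) ^ ε ≤ N := by
  have h5 := R.N1
  have h6 : (1 : ℝ) ≤ (N + 1 : ℝ) ^ 2 := by nlinarith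
  have h7 : Real.exp (-(1 / 8 * (N : ℝ) ^ εM)) ≤ (N : ℝ) ^ (-K') :=
    (le_mul_of_one_le_left (Real.exp_pos _).le h6).trans R.ex
  refine ⟨R.BM.trans hM, R.M8.trans hM, (Real.exp_le_exp.2 (by linarith)).trans h7, ?_, R.lgM.trans hM,
    Real.rpow_nonneg (by linarith) _, R.B0, Real.rpow_nonneg (by linarith) _, ?_⟩
  · exact (mul_le_mul_of_nonneg_left (Real.exp_le_exp.2 (by linarith)) (Real.rpow_nonneg (by linarith) _)).trans R.exM
  · have h := Real.rpow_le_rpow_of_exponent_le (show (1 : ℝ) ≤ N by linarith) R.ε1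
    rwa [Real.rpow_one] at h

omit [IsProbabilityMeasure μ] [SwQ Q] [MxQ Q] [Nonempty (Px Q)] in
/-- `E0D` for the tilt of the row. -/
theorem RL45.hU (R : RL45 μ s N Q γ B b j t c0 K ε εM K') (F : Fin 2 → Prop) {δ : ℝ} (h0 : 0 ≤ δ) (h1 : δ ≤ 1) (A : Finset ℕ) :
    E0D μ s 2 N Q F δ c0 K (2 * B / K) (uj72 μ s Q γ B b j t A) ε K' := by
  rw [tA_uj72 γ B R.hjc R.B0 t A]
  exact R.hD F δ h0 h1 _ (pA_ut72 R.B0 γ R.hjc R.ht A)

/-- The weights of the tilted measure. -/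
theorem wu_uj45 (ω : Env × Finset ℕ) :
    wu μ s N Q (uj72 μ s Q γ B b j t) ω = Pool.Agent.W_7d29a1_C0.Mod92.wt μ s ω.1 N Q γ B b j (sg ω.2 j) t :=
  wu_ut45 γ B b j t ω

variable (μ s N Q γ B b j) in
/-- The weights at the other corner. -/
def wf45 (ω : Env × Finset ℕ) : Px Q → ℝ := Pool.Agent.W_7d29a1_C0.Mod92.wt μ s ω.1 N Q γ B b j (sg ω.2 j) (-(sg ω.2 j : ℝ))

theorem near_wf45 (hB : 0 ≤ B) (ω : Env × Finset ℕ) (x : Px Q) : |wf45 μ s N Q γ B b j ω x - wm μ s N Q ω x| ≤ B := by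
  have e : wf45 μ s N Q γ B b j ω x - wm μ s N Q ω x = (-(sg ω.2 j : ℝ) - sg ω.2 j) * gj μ s ω.1 γ B b j (sg ω.2 j) x := by
    unfold wf45 wm Pool.Agent.W_7d29a1_C0.Mod92.wt
    rw [Pi.add_apply, Pi.smul_apply, smul_eq_mul]
    ring
  rw [e, abs_mul]
  have h1 : |-(sg ω.2 j : ℝ) - sg ω.2 j| ≤ 2 := (abs_sub _ _).trans (by rw [abs_neg, abs_sg]; norm_num)
  have h2 := abs_gj (μ := μ) (s := s) (Q := Q) (δ := γ) ω.1 hB (abs_sg ω.2 j).le b j x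
  calc |-(sg ω.2 j : ℝ) - sg ω.2 j| * |gj μ s ω.1 γ B b j (sg ω.2 j) x| ≤ 2 * (B / 2) :=
        mul_le_mul h1 h2 (abs_nonneg _) (by norm_num)
    _ = B := by ring

theorem meas_wf45 (S : Px Q) : Measurable fun ω : Env × Finset ℕ => wf45 μ s N Q γ B b j ω S := by
  have e : (fun ω : Env × Finset ℕ => wf45 μ s N Q γ B b j ω S) =
      fun ω => wm μ s N Q ω S + (-(sg ω.2 j : ℝ) - sg ω.2 j) * gj μ s ω.1 γ B b j (sg ω.2 j) S := by
    funext ω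
    unfold wf45 wm Pool.Agent.W_7d29a1_C0.Mod92.wt
    rw [Pi.add_apply, Pi.smul_apply, smul_eq_mul]
  rw [e]
  have h1 : Measurable fun ω : Env × Finset ℕ => (sg ω.2 j : ℝ) := (measurable_of_countable fun A : Finset ℕ => (sg A j : ℝ)).comp measurable_snd
  exact (meas_wm S).add ((h1.neg.sub h1).mul (meas_gs45 γ B b j S))

variable (μ s Q γ B b j t) in
/-- The tilt seen from the other corner. -/
def uf45 (ω : Env × Finset ℕ) (S : Px Q) : ℝ := (t + sg ω.2 j) * gj μ s ω.1 γ B b j (sg ω.2 j) S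

theorem meas_uf45 (S : Px Q) : Measurable fun ω : Env × Finset ℕ => uf45 μ s Q γ B b j t ω S := by
  have h1 : Measurable fun ω : Env × Finset ℕ => (sg ω.2 j : ℝ) := (measurable_of_countable fun A : Finset ℕ => (sg A j : ℝ)).comp measurable_snd
  exact (h1.const_add t).mul (meas_gs45 γ B b j S)

/-! ### Own events -/

/-- An event of the base path which is told by the weights, with a level. -/
structure Ev45 (ev : (Px Q → ℝ) → ℝ → Px Q → Prop) : Prop where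
  tilt : ∀ {w w' : Px Q → ℝ} {D M M' : ℝ}, (∀ x, |w' x - w x| ≤ D) → M + 2 * D ≤ M' → ∀ S, ev w M S → ev w' M' S
  meas : ∀ {w : Env × Finset ℕ → Px Q → ℝ}, (∀ S, Measurable fun ω => w ω S) → ∀ (M : ℝ) (S : Px Q), MeasurableSet {ω | ev (w ω) M S}

theorem Ev45.nta {Y : Type*} [DecidableEq Y] (p : Px Q → Y) (i k : ℕ) : Ev45 fun w M => Nta w p i k M where
  tilt hA hM S h := nta_tilt hA hM h
  meas hw M S := measurableSet_le measurable_const (meas_cE hw (f := fun _ => NI i k S) (fun _ => measurable_const) _ S)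

theorem Ev45.tau {Y Y' : Type*} [DecidableEq Y] [DecidableEq Y'] (q : Px Q → Y') (p : Px Q → Y) (i k : ℕ) :
    Ev45 fun w M => TauM w q p i k M where
  tilt {w w' D M M'} hA hM S h := by
    have hD : 0 ≤ D := (abs_nonneg _).trans (hA S)
    exact tauM_tilt hA (by linarith) h
  meas hw M S := meas_tau45 hw q p i k M S

variable {ev : (Px Q → ℝ) → ℝ → Px Q → Prop}

theorem Ev45.mono (h : Ev45 ev) {w : Px Q → ℝ} {M M' : ℝ} (hM : M ≤ M') {S : Px Q} (h1 : ev w M S) : ev w M' S :=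
  h.tilt (D := 0) (fun x => by simp) (by linarith) S h1

theorem Ev45.rbW (h : Ev45 ev) {θ D M M' : ℝ} (hD : 0 ≤ D) (hθ : θ ≤ D / K) (hM : M + 2 * D ≤ M') :
    RbW45 Q c0 K θ (fun ω => ev (wm μ s N Q ω) M) fun ω => ev (wm μ s N Q ω) M' where
  meas S := h.meas meas_wm M S
  meas' S := h.meas meas_wm M' S
  rob A η ζ h1 h2 S hS := h.tilt (fun x => lw_near45 hD hθ h1 h2 A x) hM S hS

/-! ### The parts -/

variable {Y Y' : Type} [DecidableEq Y] [DecidableEq Y']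

variable (μ s N Q γ B b j t) in
/-- The micro functional with an event, tilted weights. -/
def pT45 (T : Env × Finset ℕ → Px Q → Prop) (r : Px Q → Y) (q : Px Q → Y') (zf cc : ℕ) (f : Env × Finset ℕ → Px Q → ℝ) : ℝ :=
  ∫ ω, PP (wu μ s N Q (uj72 μ s Q γ B b j t) ω) (fun x y => ind72 T ω x *
    (nX45 (wu μ s N Q (uj72 μ s Q γ B b j t) ω) r q (gg μ s Q γ B b ω j) x * rh zf cc (f ω) x y)) ∂(Pm μ N)

variable (μ s N Q γ B b j t) in
/-- The level of the tilt is seen at the slab, from the actual corner. -/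
def nP45 (δ : ℝ) (c0 K : ℕ) (ω : Env × Finset ℕ) (S : Px Q) : Prop :=
  NL7 (wm μ s N Q ω) (uj72 μ s Q γ B b j t ω.2 ω.1) δ c0 K S

variable (μ s N Q γ B b j t) in
/-- The level of the tilt is seen at the slab, from the other corner, with mass one half. -/
def nM45 (δ : ℝ) (c0 K : ℕ) (ω : Env × Finset ℕ) (S : Px Q) : Prop :=
  HL7 (wf45 μ s N Q γ B b j ω) (uf45 μ s Q γ B b j t ω) δ c0 K S

theorem meas_nP45 (δ : ℝ) (S : Px Q) : MeasurableSet {ω : Env × Finset ℕ | nP45 μ s N Q γ B b j t δ c0 K ω S} :=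
  meas_nlq45 (w := fun ω => wm μ s N Q ω) (u := fun ω => uj72 μ s Q γ B b j t ω.2 ω.1) meas_wm (meas_uj72 γ B b j t) (1 / 4) δ c0 K S

theorem meas_nM45 (δ : ℝ) (S : Px Q) : MeasurableSet {ω : Env × Finset ℕ | nM45 μ s N Q γ B b j t δ c0 K ω S} :=
  meas_nlq45 (w := fun ω => wf45 μ s N Q γ B b j ω) (u := fun ω => uf45 μ s Q γ B b j t ω) meas_wf45 meas_uf45 (1 / 2) δ c0 K S

theorem gg_bd45 (hB : 0 ≤ B) (ω : Env × Finset ℕ) (x y : Px Q) : |gg μ s Q γ B b ω j x - gg μ s Q γ B b ω j y| ≤ B := by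
  have h5 := abs_gj (μ := μ) (s := s) (δ := γ) ω.1 hB (abs_sg ω.2 j).le b j x
  have h6 := abs_gj (μ := μ) (s := s) (δ := γ) ω.1 hB (abs_sg ω.2 j).le b j y
  exact (abs_sub _ _).trans (by unfold gg; linarith)

variable {zf cc : ℕ} {F M : ℝ} {f : Env × Finset ℕ → Px Q → ℝ}

/-- A larger event. -/
theorem pT_mono45 (hB : 0 ≤ B) (hf : Sp72 Q cc F c0 K f) {T T' : Env × Finset ℕ → Px Q → Prop} (hT : ∀ S, MeasurableSet {ω | T ω S})
    (hT' : ∀ S, MeasurableSet {ω | T' ω S}) (h : ∀ ω S, T ω S → T' ω S) (r : Px Q → Y) (q : Px Q → Y') :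
    pT45 μ s N Q γ B b j t T r q zf cc f ≤ pT45 μ s N Q γ B b j t T' r q zf cc f := by
  have hi : ∀ T : Env × Finset ℕ → Px Q → Prop, (∀ S, MeasurableSet {ω | T ω S}) → Integrable (fun ω =>
      PP (wu μ s N Q (uj72 μ s Q γ B b j t) ω) (fun x y => ind72 T ω x *
        (nX45 (wu μ s N Q (uj72 μ s Q γ B b j t) ω) r q (gg μ s Q γ B b ω j) x * rh zf cc (f ω) x y))) (Pm μ N) := fun T hT =>
    int_rh45 (meas_uj72 γ B b j t) hf (z := zf) (B := B) (fun ω S => nX_nonneg45 _ _ _ _ _) (fun ω S => nX_le45 _ _ _ (gg_bd45 hB ω) S)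
      (fun S => meas_nX45 (meas_wu (meas_uj72 γ B b j t)) (meas_gs45 γ B b j) _ _ S) (fun ω S => ind72_nonneg _ _ _)
      (fun ω S => ind72_le_one _ _ _) fun S => meas_ind72 hT S
  refine integral_mono (hi T hT) (hi T' hT') fun ω => PP_mono _ fun x y => ?_
  refine mul_le_mul_of_nonneg_right ?_ (mul_nonneg (nX_nonneg45 _ _ _ _ _) (rh_nonneg _ _ _))
  unfold ind72
  by_cases h1 : T ω x
  · rw [if_pos h1, if_pos (h ω x h1)]
  · rw [if_neg h1]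
    split_ifs <;> norm_num

/-- **THE PART WHOSE LEVEL IS SEEN AT THE SLAB, AT THE CORNER**: events of the base path. -/
theorem RL45.nx (R : RL45 μ s N Q γ B b j t c0 K ε εM K') (hM : (N : ℝ) ^ εM ≤ M / 2) {δ : ℝ} (hδ : 0 ≤ δ) (hδ1 : δ ≤ 1) {l k : ℕ}
    (hk : 10 * M ≤ k) (hk' : (k : ℝ) ≤ 20 * M) (hbj : b ≤ j) (hl : 3 * k * (l + 1) ≤ b) (hz : c0 + K ≤ zf) (hc : zf ≤ cc)
    (hf : Sp72 Q cc F c0 K f) (hF : F ≤ (N : ℝ) ^ 3) {E E' : Env × Finset ℕ → Px Q → Prop} (hR : RbW45 Q c0 K (2 * B / K) E E')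
    {r : Px Q → Y} {q : Px Q → Y'} (hr : Crs r (pJ (j - b) (j + b))) (hq : Crs q r) (hs : SwP r) :
    pT45 μ s N Q γ B b j t (fun ω S => E ω S ∧ nP45 μ s N Q γ B b j t δ c0 K ω S) r q zf cc f ≤
      B * ((N : ℝ) ^ ε * ∫ ω, PP (wm μ s N Q ω) (fun x y => ind72 (fun ω S => E' ω S ∧
        (RpM (wm μ s N Q ω) r b j l k M S ∨ RpM (wm μ s N Q ω) q b j l k M S)) ω x * rh zf cc (f ω) x y) ∂(Pm μ N)) +
      er96 N K' := by
  obtain ⟨n1, n2, n3, n4, n5, n6, n7, n8, n9⟩ := R.num hM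
  have hM' : (N : ℝ) ^ εM ≤ M := hM.trans (by linarith)
  obtain ⟨m1, m2, m3, m4, m5, m6, m7, m8, m9⟩ := R.num hM'
  have hF0 := F0_96 hf
  have hNR := R.N1
  have k1 := nx_corner45 (μ := μ) (s := s) (N := N) (Q := Q) (u := uj72 μ s Q γ B b j t) (ε := ε) (K' := K') (θ := 2 * B / K)
    (R.hU (fun i => i = 0) hδ hδ1) (meas_uj72 γ B b j t) (B := B) n7 hz hc
    (R.micL (M / 2) hM Y Y' {0} (fun _ => r) (fun _ => q) (fun _ _ => hr) fun _ _ => hq) hf (R.toRw96.twoF hF) hR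
    (m := 0) (mem_singleton_self 0)
    (T' := fun _ ω => TauX45 (wm μ s N Q ω) r q b j M)
    (tauX_rbW (D := 2 * B) (by linarith) le_rfl r q b j (by linarith))
  have k2 := micL_rp45 (μ := μ) (s := s) (N := N) (Q := Q) (z := zf) (l := l) hf (E := E') hR.meas' hq hs m2 hk hk' hbj hl
  refine k1.trans ?_
  have e1 : B * ((N : ℝ) ^ ε * (∫ ω, PP (wm μ s N Q ω) (fun x y => ind72 (fun ω S => E' ω S ∧ TauX45 (wm μ s N Q ω) r q b j M S) ω x *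
      rh zf cc (f ω) x y) ∂(Pm μ N) + (N : ℝ) ^ (-K'))) ≤
      B * ((N : ℝ) ^ ε * ((∫ ω, PP (wm μ s N Q ω) (fun x y => ind72 (fun ω S => E' ω S ∧
        (RpM (wm μ s N Q ω) r b j l k M S ∨ RpM (wm μ s N Q ω) q b j l k M S)) ω x * rh zf cc (f ω) x y) ∂(Pm μ N) +
        2 * F * (2 * (N : ℝ) ^ (-K'))) + (N : ℝ) ^ (-K'))) := by
    refine mul_le_mul_of_nonneg_left (mul_le_mul_of_nonneg_left (add_le_add (k2.trans (add_le_add le_rfl ?_)) le_rfl) n8) n7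
    refine mul_le_mul_of_nonneg_left (mul_le_mul_of_nonneg_left ?_ zero_le_two) (by linarith)
    exact (Real.exp_le_exp.2 (by linarith)).trans m3
  refine (add_le_add e1 le_rfl).trans ?_
  -- numbers
  set X := ∫ ω, PP (wm μ s N Q ω) (fun x y => ind72 (fun ω S => E' ω S ∧
        (RpM (wm μ s N Q ω) r b j l k M S ∨ RpM (wm μ s N Q ω) q b j l k M S)) ω x * rh zf cc (f ω) x y) ∂(Pm μ N) with hX
  set Z := (N : ℝ) ^ (-K') with hZ
  have hBN := R.BN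
  have a1 : B * ((N : ℝ) ^ ε * (X + 2 * F * (2 * Z) + Z)) = B * ((N : ℝ) ^ ε * X) + B * (N : ℝ) ^ ε * (4 * F + 1) * Z := by ring
  rw [a1]
  have hF3 : 0 ≤ (N : ℝ) ^ 3 := by positivity
  have a2 : B * (N : ℝ) ^ ε * (4 * F + 1) * Z ≤ N * N * (4 * (N : ℝ) ^ 3 + 1) * Z := by
    refine mul_le_mul_of_nonneg_right ?_ n6
    refine mul_le_mul (mul_le_mul hBN n9 n8 (by linarith)) (by linarith) (by linarith) (by positivity)
  have a3 : (B * Z + Z) * (2 * F) ≤ (N + 1) * (2 * (N : ℝ) ^ 3) * Z := by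
    have b1 : (B * Z + Z) * (2 * F) = (B + 1) * (2 * F) * Z := by ring
    rw [b1]
    refine mul_le_mul_of_nonneg_right ?_ n6
    exact mul_le_mul (by linarith) (by linarith) (by linarith) (by linarith)
  unfold er96
  have a4 : N * N * (4 * (N : ℝ) ^ 3 + 1) + (N + 1) * (2 * (N : ℝ) ^ 3) ≤ (N : ℝ) ^ 6 := by
    have b1 : (1 : ℝ) ≤ N := by linarith
    have b2 : (N : ℝ) ^ 2 ≤ (N : ℝ) ^ 5 := pow_le_pow_right₀ b1 (by norm_num)
    have b3 : (N : ℝ) ^ 3 ≤ (N : ℝ) ^ 5 := pow_le_pow_right₀ b1 (by norm_num)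
    have b4 : (N : ℝ) ^ 4 ≤ (N : ℝ) ^ 5 := pow_le_pow_right₀ b1 (by norm_num)
    have b6 : 64 * (N : ℝ) ^ 5 ≤ (N : ℝ) ^ 6 := by
      have := mul_le_mul_of_nonneg_right hNR (by positivity : 0 ≤ (N : ℝ) ^ 5)
      calc 64 * (N : ℝ) ^ 5 ≤ N * (N : ℝ) ^ 5 := this
        _ = (N : ℝ) ^ 6 := by ring
    have b7 : N * N * (4 * (N : ℝ) ^ 3 + 1) + (N + 1) * (2 * (N : ℝ) ^ 3) =
        4 * (N : ℝ) ^ 5 + (N : ℝ) ^ 2 + 2 * (N : ℝ) ^ 4 + 2 * (N : ℝ) ^ 3 := by ring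
    rw [b7]
    have b8 : 0 ≤ (N : ℝ) ^ 5 := by positivity
    linarith
  have a5 := mul_le_mul_of_nonneg_right a4 n6
  have a6 : (N * N * (4 * (N : ℝ) ^ 3 + 1) + (N + 1) * (2 * (N : ℝ) ^ 3)) * Z =
      N * N * (4 * (N : ℝ) ^ 3 + 1) * Z + (N + 1) * (2 * (N : ℝ) ^ 3) * Z := by ring
  rw [a6] at a5
  linarith

/-- **THE PART WHOSE LEVEL IS MISSED AT BOTH CORNERS**, in terms of `O1.T4`: `E₁` is an event of the whole base path (it stays in the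
factor of `T4`), `E₂` an event of its future. -/
theorem RL45.third (R : RL45 μ s N Q γ B b j t c0 K ε εM K') (hM : (N : ℝ) ^ εM ≤ M) {δ : ℝ} (hδ : 0 ≤ δ) (hz : c0 + K ≤ zf)
    (hc : zf ≤ cc) (hf : Sp72 Q cc F c0 K f) (hF : F ≤ (N : ℝ) ^ 3) {E₁ E₁' E₂ E₂' : Env × Finset ℕ → Px Q → Prop}
    (h1 : RbW45 Q c0 K (2 * B / K) E₁ E₁') (h2 : Rb72 Q c0 K (2 * B / K) E₂ E₂') :
    ∫ ω, PP (wu μ s N Q (uj72 μ s Q γ B b j t) ω) (fun x y => ind72 (fun ω S => (E₁ ω S ∧ E₂ ω S) ∧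
        (¬ nP45 μ s N Q γ B b j t δ c0 K ω S ∧ ¬ nM45 μ s N Q γ B b j t (δ / 2) c0 K ω S)) ω x * rh zf cc (f ω) x y) ∂(Pm μ N) ≤
      (N : ℝ) ^ ε * ∫ ω, PP (wm μ s N Q ω) (fun x y => jA7 μ s N Q γ B b j (c0 + K) (δ / 4) (5 * M) (ind72 E₁' ω) ω.1 (sg ω.2 j) x *
        (ind72 E₂' ω x * rh zf cc (f ω) x y)) ∂(Pm μ N) + er96 N K' := by
  obtain ⟨n1, n2, n3, n4, n5, n6, n7, n8, n9⟩ := R.num hM
  have hF0 := F0_96 hf
  have hNR := R.N1
  have hFK := R.toRw96.twoF hF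
  have mMs : ∀ S, MeasurableSet {ω : Env × Finset ℕ | Ms7 μ s N Q γ B b j t (δ / 2) c0 K ω.1 (sg ω.2 j) S} := fun S =>
    (meas_nlq45 (w := fun ω => wm μ s N Q ω) (u := fun ω => uj72 μ s Q γ B b j t ω.2 ω.1) meas_wm (meas_uj72 γ B b j t) (1 / 2) (δ / 2)
      c0 K S).compl.inter (meas_nM45 (δ / 2) S).compl
  have mI7 : ∀ S, Measurable fun ω : Env × Finset ℕ => iM7 μ s N Q γ B b j t (δ / 2) c0 K ω.1 (sg ω.2 j) S := fun S => by
    unfold iM7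
    exact Measurable.ite (mMs S) measurable_const measurable_const
  have i01 : ∀ (ω : Env × Finset ℕ) (S : Px Q), 0 ≤ iM7 μ s N Q γ B b j t (δ / 2) c0 K ω.1 (sg ω.2 j) S ∧
      iM7 μ s N Q γ B b j t (δ / 2) c0 K ω.1 (sg ω.2 j) S ≤ 1 := fun ω S => by
    unfold iM7
    split_ifs <;> norm_num
  have b0 : ∀ ω x y, rh zf cc (f ω) x y ≤ 2 * F := fun ω x y => rh_le45 hf ω x y
  have b1 : ∀ (T : Env × Finset ℕ → Px Q → Prop) ω x y, ind72 T ω x * rh zf cc (f ω) x y ≤ 2 * F := fun T ω x y => by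
    calc ind72 T ω x * rh zf cc (f ω) x y ≤ 1 * rh zf cc (f ω) x y :=
          mul_le_mul_of_nonneg_right (ind72_le_one _ _ _) (rh_nonneg _ _ _)
      _ ≤ 2 * F := by rw [one_mul]; exact b0 ω x y
  have b2 : ∀ (T : Env × Finset ℕ → Px Q → Prop) ω x y, 0 ≤ ind72 T ω x * rh zf cc (f ω) x y := fun T ω x y =>
    mul_nonneg (ind72_nonneg _ _ _) (rh_nonneg _ _ _)
  have b3 : ∀ T : Env × Finset ℕ → Px Q → Prop, (∀ S, MeasurableSet {ω | T ω S}) → ∀ x y,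
      Measurable fun ω => ind72 T ω x * rh zf cc (f ω) x y := fun T hT x y => (meas_ind72 hT x).mul (meas_rh45 hf x y)
  -- the passage
  have key := Pool.W7d29a1.C0.H7.t4_wtD (μ := μ) (s := s) (N := N) (P := Q) R.fam (k := 2) (F := fun _ => False) (δ' := 0) (ε := ε) (K' := K')
    (fun U hU => R.hD (fun _ => False) 0 le_rfl zero_le_one U hU) R.B0 R.hcN (δ := γ) R.ht R.hjc (G := Set.univ) MeasurableSet.univ
    (Ψ := fun ω x => ind72 E₂ ω (x 0) * rh zf cc (f ω) (x 0) (x 1)) (Ψ' := fun ω x => ind72 E₂' ω (x 0) * rh zf cc (f ω) (x 0) (x 1))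
    (fun ω x => b2 E₂ ω _ _) (fun ω x => (b1 E₂ ω _ _).trans hFK) (fun ω x => b2 E₂' ω _ _) (fun ω x => (b1 E₂' ω _ _).trans hFK)
    (fun x A => meas_fix (b3 E₂ h2.meas _ _) A) (fun x A => meas_fix (b3 E₂' h2.meas' _ _) A) (fun ω x x' _ hp => ?_)
    (fun A η _ x _ i hi => absurd hi id) (fun A η _ ζ g1 g2 x => ?_) (i := 0) id
    (V := fun ω => ind72 E₁ ω) (V' := fun ω => ind72 E₁' ω) (fun ω x => ind72_nonneg _ _ _) (fun ω x => ind72_le_one _ _ _)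
    (fun x A => meas_fix (meas_ind72 h1.meas x) A) (fun x A => meas_fix (meas_ind72 h1.meas' x) A) (fun A η _ ζ g1 g2 x => ?_)
    (δ1 := δ / 2) (m := M) (by linarith) n5
  · rw [Set.compl_univ, measure_empty, ENNReal.toReal_zero, mul_zero, add_zero] at key
    have i1 : Integrable (fun ω => PP (wu μ s N Q (uj72 μ s Q γ B b j t) ω) (fun x y => ind72 (fun ω S => (E₁ ω S ∧ E₂ ω S) ∧
        (¬ nP45 μ s N Q γ B b j t δ c0 K ω S ∧ ¬ nM45 μ s N Q γ B b j t (δ / 2) c0 K ω S)) ω x * rh zf cc (f ω) x y)) (Pm μ N) :=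
      int_bdd (M := 2 * F) (meas_PP45 (meas_wu (meas_uj72 γ B b j t)) fun x y => b3 _ (fun S =>
        ((h1.meas S).inter (h2.meas S)).inter ((meas_nP45 δ S).compl.inter (meas_nM45 (δ / 2) S).compl)) x y) fun ω =>
          abs_PP_le45 _ (fun x y => b2 _ ω x y) fun x y => b1 _ ω x y
    have i2 : Integrable (fun ω => PP (wu μ s N Q (uj72 μ s Q γ B b j t) ω) (fun x y => ind72 E₁ ω x *
        iM7 μ s N Q γ B b j t (δ / 2) c0 K ω.1 (sg ω.2 j) x * (ind72 E₂ ω x * rh zf cc (f ω) x y))) (Pm μ N) :=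
      int_bdd (M := 1 * 1 * (2 * F)) (meas_PP45 (meas_wu (meas_uj72 γ B b j t)) fun x y =>
        ((meas_ind72 h1.meas x).mul (mI7 x)).mul (b3 _ h2.meas x y)) fun ω =>
          abs_PP_le45 _ (fun x y => mul_nonneg (mul_nonneg (ind72_nonneg _ _ _) (i01 ω x).1) (b2 _ ω x y)) fun x y =>
            mul_le_mul (mul_le_mul (ind72_le_one _ _ _) (i01 ω x).2 (i01 ω x).1 zero_le_one) (b1 _ ω x y) (b2 _ ω x y) (by norm_num)
    have hle : ∫ ω, PP (wu μ s N Q (uj72 μ s Q γ B b j t) ω) (fun x y => ind72 (fun ω S => (E₁ ω S ∧ E₂ ω S) ∧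
        (¬ nP45 μ s N Q γ B b j t δ c0 K ω S ∧ ¬ nM45 μ s N Q γ B b j t (δ / 2) c0 K ω S)) ω x * rh zf cc (f ω) x y) ∂(Pm μ N) ≤
        ∫ ω, PP (wu μ s N Q (uj72 μ s Q γ B b j t) ω) (fun x y => ind72 E₁ ω x *
        iM7 μ s N Q γ B b j t (δ / 2) c0 K ω.1 (sg ω.2 j) x * (ind72 E₂ ω x * rh zf cc (f ω) x y)) ∂(Pm μ N) := by
      refine integral_mono i1 i2 fun ω => PP_mono _ fun x y => ?_
      have r0 := rh_nonneg (z := zf) (c := cc) (f ω) x y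
      by_cases g : (E₁ ω x ∧ E₂ ω x) ∧
          (¬ nP45 μ s N Q γ B b j t δ c0 K ω x ∧ ¬ nM45 μ s N Q γ B b j t (δ / 2) c0 K ω x)
      · have e1 : ind72 (fun ω S => (E₁ ω S ∧ E₂ ω S) ∧
          (¬ nP45 μ s N Q γ B b j t δ c0 K ω S ∧ ¬ nM45 μ s N Q γ B b j t (δ / 2) c0 K ω S)) ω x = 1 := if_pos g
        have e2 : ind72 E₁ ω x = 1 := if_pos g.1.1
        have e3 : ind72 E₂ ω x = 1 := if_pos g.1.2
        have e4 : iM7 μ s N Q γ B b j t (δ / 2) c0 K ω.1 (sg ω.2 j) x = 1 :=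
          if_pos (Ms7.of_nl (μ := μ) (s := s) (N := N) (P := Q) (δ := γ) (B := B) (b := b) (j := j) (t := t) (δ1 := δ) (δ2 := δ / 2)
            (by linarith) g.2.1 g.2.2)
        rw [e1, e2, e3, e4, one_mul, one_mul, one_mul]
      · have e1 : ind72 (fun ω S => (E₁ ω S ∧ E₂ ω S) ∧
          (¬ nP45 μ s N Q γ B b j t δ c0 K ω S ∧ ¬ nM45 μ s N Q γ B b j t (δ / 2) c0 K ω S)) ω x = 0 := if_neg g
        rw [e1, zero_mul]
        exact mul_nonneg (mul_nonneg (ind72_nonneg _ _ _) (i01 ω x).1) (b2 _ ω x y)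
    refine hle.trans ?_
    have e0 : ∀ ω, wu μ s N Q (uj72 μ s Q γ B b j t) ω = Pool.Agent.W_7d29a1_C0.Mod92.wt μ s ω.1 N Q γ B b j (sg ω.2 j) t := wu_uj45
    simp only [e0]
    refine (le_of_eq rfl).trans (key.trans ?_)
    have e4 : δ / 2 / 2 = δ / 4 := by ring
    rw [e4]
    set X := ∫ ω, Pool.W7d29a1.C0.rep 2 (wm μ s N Q ω) (fun x => jA7 μ s N Q γ B b j (c0 + K) (δ / 4) (5 * M) (ind72 E₁' ω) ω.1
      (sg ω.2 j) (x 0) * (ind72 E₂' ω (x 0) * rh zf cc (f ω) (x 0) (x 1))) ∂(Pm μ N) with hX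
    have hXX : X = ∫ ω, PP (wm μ s N Q ω) (fun x y => jA7 μ s N Q γ B b j (c0 + K) (δ / 4) (5 * M) (ind72 E₁' ω) ω.1 (sg ω.2 j) x *
        (ind72 E₂' ω x * rh zf cc (f ω) x y)) ∂(Pm μ N) := rfl
    rw [← hXX]
    have a1 : (N : ℝ) ^ ε * (N : ℝ) ^ (-K') ≤ N * (N : ℝ) ^ (-K') := mul_le_mul_of_nonneg_right n9 n6
    have a2 : (N + 1) * (N : ℝ) ^ (-K') ≤ er96 N K' := by
      unfold er96
      refine mul_le_mul_of_nonneg_right ?_ n6
      have c1 : (1 : ℝ) ≤ N := by linarith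
      have c2 : (N : ℝ) ^ 2 ≤ (N : ℝ) ^ 6 := pow_le_pow_right₀ c1 (by norm_num)
      nlinarith
    have a3 : (N + 1) * (N : ℝ) ^ (-K') = N * (N : ℝ) ^ (-K') + (N : ℝ) ^ (-K') := by ring
    rw [mul_add]
    linarith
  · have hp' : ∀ i k, c0 + K ≤ k → ps (x i) k = ps (x' i) k := fun i k hk => ps_of_pB72 (hp i) hk
    have e1 : ind72 E₂ ω (x 0) = ind72 E₂ ω (x' 0) := by
      unfold ind72
      rw [show E₂ ω (x 0) = E₂ ω (x' 0) from propext (h2.beh ω _ _ (hp 0))]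
    have e2 : rh zf cc (f ω) (x 0) (x 1) = rh zf cc (f ω) (x' 0) (x' 1) := by
      unfold rh
      rw [NI_congr (m := zf) (u := cc) (S := x 0) (T := x' 0) (S' := x 1) (T' := x' 1) (fun k hk _ => hp' 0 k (by omega))
        (fun k hk _ => hp' 1 k (by omega)), hf.rk ω (x 0) (x' 0) (fun k hk => hp' 0 k (by omega)),
        hf.rk ω (x 1) (x' 1) (fun k hk => hp' 1 k (by omega))]
    show ind72 E₂ ω (x 0) * rh zf cc (f ω) (x 0) (x 1) = ind72 E₂ ω (x' 0) * rh zf cc (f ω) (x' 0) (x' 1)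
    rw [e1, e2]
  · show ind72 E₂ (η, A) (x 0) * rh zf cc (f (η, A)) (x 0) (x 1) ≤ ind72 E₂' (ζ, A) (x 0) * rh zf cc (f (ζ, A)) (x 0) (x 1)
    rw [show f (ζ, A) = f (η, A) from (hf.blind A η ζ g1).symm]
    refine mul_le_mul_of_nonneg_right ?_ (rh_nonneg _ _ _)
    unfold ind72
    by_cases h5 : E₂ (η, A) (x 0)
    · rw [if_pos h5, if_pos (h2.rob A η ζ g1 g2 (x 0) h5)]
    · rw [if_neg h5]
      split_ifs <;> norm_num
  · unfold ind72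
    by_cases h5 : E₁ (η, A) x
    · rw [if_pos h5, if_pos (h1.rob A η ζ g1 g2 x h5)]
    · rw [if_neg h5]
      split_ifs <;> norm_num

variable (μ s N Q γ B b j t) in
/-- The raw third part. -/
def th45 (δ : ℝ) (c0 K : ℕ) (E : Env × Finset ℕ → Px Q → Prop) (zf cc : ℕ) (f : Env × Finset ℕ → Px Q → ℝ) : ℝ :=
  ∫ ω, PP (wu μ s N Q (uj72 μ s Q γ B b j t) ω) (fun x y => ind72 (fun ω S => E ω S ∧
    (¬ nP45 μ s N Q γ B b j t δ c0 K ω S ∧ ¬ nM45 μ s N Q γ B b j t (δ / 2) c0 K ω S)) ω x * rh zf cc (f ω) x y) ∂(Pm μ N)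

/-- **THE SPLIT**: `M₁ = M / 2 + 2 B`; the second part is the one to be flipped. -/
theorem RL45.pre (R : RL45 μ s N Q γ B b j t c0 K ε εM K') (hev : Ev45 ev) {δ : ℝ} (hf : Sp72 Q cc F c0 K f) (r : Px Q → Y) (q : Px Q → Y') :
    pT45 μ s N Q γ B b j t (fun ω => ev (wm μ s N Q ω) (M / 2)) r q zf cc f ≤
      pT45 μ s N Q γ B b j t (fun ω S => ev (wm μ s N Q ω) (M / 2 + 2 * B + 1) S ∧ nP45 μ s N Q γ B b j t δ c0 K ω S) r q zf cc f +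
      pT45 μ s N Q γ B b j t (fun ω S => ev (wf45 μ s N Q γ B b j ω) (M / 2 + 2 * B) S ∧ nM45 μ s N Q γ B b j t (δ / 2) c0 K ω S)
        r q zf cc f +
      B * th45 μ s N Q γ B b j t δ c0 K (fun ω => ev (wm μ s N Q ω) (M / 2)) zf cc f := by
  have h1 := splitN45 (μ := μ) (s := s) (N := N) (Q := Q) (u := uj72 μ s Q γ B b j t) (meas_uj72 γ B b j t) (z := zf) hf (B := B)
    (n := fun ω => nX45 (wu μ s N Q (uj72 μ s Q γ B b j t) ω) r q (gg μ s Q γ B b ω j)) (fun ω S => nX_nonneg45 _ _ _ _ _)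
    (fun ω S => nX_le45 _ _ _ (gg_bd45 R.B0 ω) S) (fun S => meas_nX45 (meas_wu (meas_uj72 γ B b j t)) (meas_gs45 γ B b j) _ _ S)
    (A := fun ω => ev (wm μ s N Q ω) (M / 2)) (A₂ := fun ω => ev (wf45 μ s N Q γ B b j ω) (M / 2 + 2 * B))
    (E := fun ω => ev (wm μ s N Q ω) (M / 2)) (n₁ := nP45 μ s N Q γ B b j t δ c0 K) (n₂ := nM45 μ s N Q γ B b j t (δ / 2) c0 K)
    (fun ω S h => hev.tilt (near_wf45 R.B0 ω) le_rfl S h) (fun ω S h => h) (hev.meas meas_wm _) (hev.meas meas_wf45 _)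
    (hev.meas meas_wm _) (meas_nP45 δ) (meas_nM45 (δ / 2))
  have h2 := pT_mono45 (μ := μ) (s := s) (N := N) (Q := Q) (γ := γ) (b := b) (j := j) (t := t) (zf := zf) (cc := cc) (f := f) R.B0 hf
    (T := fun ω S => ev (wm μ s N Q ω) (M / 2) S ∧ nP45 μ s N Q γ B b j t δ c0 K ω S)
    (T' := fun ω S => ev (wm μ s N Q ω) (M / 2 + 2 * B + 1) S ∧ nP45 μ s N Q γ B b j t δ c0 K ω S)
    (fun S => (hev.meas meas_wm _ S).inter (meas_nP45 δ S)) (fun S => (hev.meas meas_wm _ S).inter (meas_nP45 δ S))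
    (fun ω S h => ⟨hev.mono (by linarith [R.B0]) h.1, h.2⟩) r q
  unfold pT45 th45 at *
  linarith

end Row

/-! ### The mean over the ends -/

section Ends

variable {μ : Measure ℝ} {s : ℝ} {N : ℕ} [IsProbabilityMeasure μ] {γ B : ℝ} {b j : ℕ} {t : ℝ} {c0 K : ℕ} {ε εM K' : ℝ}
variable {Y Y' : Type} [DecidableEq Y] [DecidableEq Y']

/-- **THE FLIP OF THE SECOND PART** (owner: helper4, `FlipR4`), in the mean over the ends. -/
def Flp45 (μ : Measure ℝ) (s : ℝ) (N : ℕ) (ys : Finset ℕ) (γ B : ℝ) (b j : ℕ) (t δ : ℝ) (c0 K zf cc : ℕ) (f : Fam N)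
    (ev : ∀ y, (Px (Pn N y) → ℝ) → ℝ → Px (Pn N y) → Prop) (r : ∀ y, Px (Pn N y) → Y) (q : ∀ y, Px (Pn N y) → Y') (M₁ e : ℝ) : Prop :=
  avy ys (fun y => pT45 μ s N (Pn N y) γ B b j t (fun ω S => ev y (wf45 μ s N (Pn N y) γ B b j ω) M₁ S ∧
      nM45 μ s N (Pn N y) γ B b j t (δ / 2) c0 K ω S) (r y) (q y) zf cc (f y)) ≤
    avy ys (fun y => pT45 μ s N (Pn N y) γ B b j t (fun ω S => ev y (wm μ s N (Pn N y) ω) (M₁ + 1) S ∧
      nP45 μ s N (Pn N y) γ B b j t δ c0 K ω S) (r y) (q y) zf cc (f y)) + e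

/-- **THE CORNER OF PART L, IN THE MEAN OVER THE ENDS.** -/
theorem corL45 {ys : Finset ℕ} (hys : ∀ y ∈ ys, y ≤ N) (R : ∀ y ∈ ys, RL45 μ s N (Pn N y) γ B b j t c0 K ε εM K') {M : ℝ}
    (hM : (N : ℝ) ^ εM ≤ M / 2) (hN : (64 : ℝ) ≤ N) (hBN : B ≤ N) {δ : ℝ} (hδ : 0 ≤ δ) (hδ1 : δ ≤ 1) {l k : ℕ} (hk : 10 * M ≤ k) (hk' : (k : ℝ) ≤ 20 * M)
    (hbj : b ≤ j) (hl : 3 * k * (l + 1) ≤ b) {zf cc : ℕ} (hz : c0 + K ≤ zf) (hc : zf ≤ cc) {F : ℝ} {f : Fam N}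
    (hf : ∀ y ∈ ys, Sp72 (Pn N y) cc F c0 K (f y)) (hF : F ≤ (N : ℝ) ^ 3)
    {ev : ∀ y, (Px (Pn N y) → ℝ) → ℝ → Px (Pn N y) → Prop} (hev : ∀ y ∈ ys, Ev45 (ev y)) {J : Finset ℕ} (hJ : J.Nonempty)
    {r : ℕ → ∀ y, Px (Pn N y) → Y} {q : ℕ → ∀ y, Px (Pn N y) → Y'}
    (hr : ∀ m ∈ J, ∀ y ∈ ys, Crs (r m y) (pJ (Q := Pn N y) (j - b) (j + b))) (hq : ∀ m ∈ J, ∀ y ∈ ys, Crs (q m y) (r m y))
    (hs : ∀ m ∈ J, ∀ y ∈ ys, SwP (r m y)) {X : ℕ → ℝ} {e₀ : ℝ} (he₀ : 0 ≤ e₀)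
    (hX : ∀ y ∈ ys, X y ≤ (J.card : ℝ)⁻¹ * ∑ m ∈ J, pT45 μ s N (Pn N y) γ B b j t (fun ω => ev y (wm μ s N (Pn N y) ω) (M / 2))
      (r m y) (q m y) zf cc (f y) + e₀) {Th : ℕ → ℝ}
    (hTh : ∀ y ∈ ys, th45 μ s N (Pn N y) γ B b j t δ c0 K (fun ω => ev y (wm μ s N (Pn N y) ω) (M / 2)) zf cc (f y) ≤ Th y) {e : ℝ}
    (hflp : ∀ m ∈ J, Flp45 μ s N ys γ B b j t δ c0 K zf cc f ev (r m) (q m) (M / 2 + 2 * B) e) :
    avy ys X ≤ 2 * (B * ((N : ℝ) ^ ε * ((J.card : ℝ)⁻¹ * ∑ m ∈ J, avy ys fun y => ∫ ω, PP (wm μ s N (Pn N y) ω)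
        (fun x z => ind72 (fun ω S => ev y (wm μ s N (Pn N y) ω) M S ∧ (RpM (wm μ s N (Pn N y) ω) (r m y) b j l k M S ∨
          RpM (wm μ s N (Pn N y) ω) (q m y) b j l k M S)) ω x * rh zf cc (f y ω) x z) ∂(Pm μ N)))) +
      B * avy ys Th + (2 * er96 N K' + e₀ + e) := by
  have hNK : 0 ≤ er96 N K' := by
    unfold er96
    positivity
  have hcard : (0 : ℝ) < J.card := Nat.cast_pos.2 (card_pos.2 hJ)
  have av_le : ∀ x : ℝ, 0 ≤ x → avy ys (fun _ => x) ≤ x := fun x hx => by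
    rcases ys.eq_empty_or_nonempty with h | h
    · rw [h]
      simpa [avy] using hx
    · exact (avy_const h x).le
  -- the parts
  obtain ⟨P, hP⟩ : ∃ P : ℕ → ℕ → ℝ, ∀ m y, P m y = pT45 μ s N (Pn N y) γ B b j t (fun ω S => ev y (wm μ s N (Pn N y) ω) (M / 2 + 2 * B + 1) S ∧
      nP45 μ s N (Pn N y) γ B b j t δ c0 K ω S) (r m y) (q m y) zf cc (f y) := ⟨_, fun _ _ => rfl⟩
  obtain ⟨P', hP'⟩ : ∃ P : ℕ → ℕ → ℝ, ∀ m y, P m y = pT45 μ s N (Pn N y) γ B b j t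
      (fun ω S => ev y (wf45 μ s N (Pn N y) γ B b j ω) (M / 2 + 2 * B) S ∧
      nM45 μ s N (Pn N y) γ B b j t (δ / 2) c0 K ω S) (r m y) (q m y) zf cc (f y) := ⟨_, fun _ _ => rfl⟩
  obtain ⟨W, hW⟩ : ∃ W : ℕ → ℕ → ℝ, ∀ m y, W m y = ∫ ω, PP (wm μ s N (Pn N y) ω)
        (fun x z => ind72 (fun ω S => ev y (wm μ s N (Pn N y) ω) M S ∧ (RpM (wm μ s N (Pn N y) ω) (r m y) b j l k M S ∨
          RpM (wm μ s N (Pn N y) ω) (q m y) b j l k M S)) ω x * rh zf cc (f y ω) x z) ∂(Pm μ N) := ⟨_, fun _ _ => rfl⟩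
  have s1 : ∀ y ∈ ys, X y ≤ (J.card : ℝ)⁻¹ * ∑ m ∈ J, (P m y + P' m y) + B * Th y + e₀ := fun y hy => by
    have := ne_Pn (hys y hy)
    have g1 : ∀ m ∈ J, pT45 μ s N (Pn N y) γ B b j t (fun ω => ev y (wm μ s N (Pn N y) ω) (M / 2)) (r m y) (q m y) zf cc (f y) ≤
        (P m y + P' m y) + B * Th y := fun m hm => by
      have g2 := (R y hy).pre (M := M) (zf := zf) (hev y hy) (δ := δ) (hf y hy) (r m y) (q m y)
      have g3 := mul_le_mul_of_nonneg_left (hTh y hy) (R y hy).B0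
      rw [hP, hP']
      linarith
    have g2 := mul_le_mul_of_nonneg_left (sum_le_sum g1) (inv_nonneg.2 hcard.le)
    rw [sum_add_distrib, sum_const, nsmul_eq_mul, mul_add, ← mul_assoc (J.card : ℝ)⁻¹ (J.card : ℝ), inv_mul_cancel₀ hcard.ne',
      one_mul] at g2
    have g3 := hX y hy
    linarith
  have s2 := avy_mono (ys := ys) s1
  have e1 : avy ys (fun y => (J.card : ℝ)⁻¹ * ∑ m ∈ J, (P m y + P' m y) + B * Th y + e₀) =
      (J.card : ℝ)⁻¹ * ∑ m ∈ J, (avy ys (P m) + avy ys (P' m)) + B * avy ys Th + avy ys fun _ => e₀ := by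
    rw [avy_add, avy_add, avy_mul, avy_mul]
    congr 3
    have e2 := avy_sum ys J fun m y => P m y + P' m y
    rw [e2]
    exact sum_congr rfl fun m _ => avy_add ys (P m) (P' m)
  rw [e1] at s2
  have s3 : ∀ m ∈ J, avy ys (P m) + avy ys (P' m) ≤ 2 * avy ys (P m) + e := fun m hm => by
    have g := hflp m hm
    unfold Flp45 at g
    have e3 : avy ys (P' m) = avy ys (fun y => pT45 μ s N (Pn N y) γ B b j t (fun ω S => ev y (wf45 μ s N (Pn N y) γ B b j ω)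
        (M / 2 + 2 * B) S ∧ nM45 μ s N (Pn N y) γ B b j t (δ / 2) c0 K ω S) (r m y) (q m y) zf cc (f y)) := by
      congr 1
      funext y
      exact hP' m y
    have e4 : avy ys (P m) = avy ys (fun y => pT45 μ s N (Pn N y) γ B b j t (fun ω S => ev y (wm μ s N (Pn N y) ω)
        (M / 2 + 2 * B + 1) S ∧ nP45 μ s N (Pn N y) γ B b j t δ c0 K ω S) (r m y) (q m y) zf cc (f y)) := by
      congr 1
      funext y
      exact hP m y
    rw [← e3, ← e4] at g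
    linarith
  have s4 : ∀ m ∈ J, avy ys (P m) ≤ B * ((N : ℝ) ^ ε * avy ys (W m)) + er96 N K' := fun m hm => by
    have g1 : ∀ y ∈ ys, P m y ≤ B * ((N : ℝ) ^ ε * W m y) + er96 N K' := fun y hy => by
      have := ne_Pn (hys y hy)
      rw [hP, hW]
      have hR := R y hy
      have hM' : (N : ℝ) ^ εM ≤ M := by
        have := hR.M8
        linarith
      obtain ⟨n1, n2, -⟩ := hR.num hM'
      exact hR.nx hM hδ hδ1 hk hk' hbj hl hz hc (hf y hy) hF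
        ((hev y hy).rbW (D := 2 * B) (by linarith [hR.B0]) le_rfl (M' := M) (by linarith)) (hr m hm y hy) (hq m hm y hy) (hs m hm y hy)
    refine (avy_mono g1).trans ?_
    rw [avy_add, avy_mul, avy_mul]
    exact add_le_add le_rfl (av_le _ hNK)
  have s5 : (J.card : ℝ)⁻¹ * ∑ m ∈ J, (avy ys (P m) + avy ys (P' m)) ≤
      2 * (B * ((N : ℝ) ^ ε * ((J.card : ℝ)⁻¹ * ∑ m ∈ J, avy ys (W m)))) + (2 * er96 N K' + e) := by
    have g1 : ∀ m ∈ J, avy ys (P m) + avy ys (P' m) ≤ 2 * (B * ((N : ℝ) ^ ε * avy ys (W m))) + (2 * er96 N K' + e) := fun m hm => by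
      have a1 := s3 m hm
      have a2 := s4 m hm
      linarith
    refine (mul_le_mul_of_nonneg_left (sum_le_sum g1) (inv_nonneg.2 hcard.le)).trans (le_of_eq ?_)
    rw [sum_add_distrib, sum_const, nsmul_eq_mul, mul_add, ← mul_assoc (J.card : ℝ)⁻¹ (J.card : ℝ), inv_mul_cancel₀ hcard.ne',
      one_mul, ← mul_sum, ← mul_sum, ← mul_sum]
    ring
  have s6 := av_le e₀ he₀
  have e5 : (∑ m ∈ J, avy ys fun y => ∫ ω, PP (wm μ s N (Pn N y) ω)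
        (fun x z => ind72 (fun ω S => ev y (wm μ s N (Pn N y) ω) M S ∧ (RpM (wm μ s N (Pn N y) ω) (r m y) b j l k M S ∨
          RpM (wm μ s N (Pn N y) ω) (q m y) b j l k M S)) ω x * rh zf cc (f y ω) x z) ∂(Pm μ N)) = ∑ m ∈ J, avy ys (W m) :=
    sum_congr rfl fun m _ => by
      congr 1
      funext y
      exact (hW m y).symm
  rw [e5]
  linarith

end Ends

end

end Pool.W7d29a1.C0.C45
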