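import Pool.Agent.W_7d29a1_C0.Cor45G

/-!
MP_7d29a1_pr, [CURV0] / [C0], leaf E2.6, PART L (helper45): **THE TERMS OF PART L AT THE CORNER, in the mean over the ends.**

`cP45`: the corner functional of an event of the base path. `jT45`: the response of the row has alternatives on both sides, together with
the own event `V` (`O1.T4`). `T2L45H`, `TpL45H`, `T0QL45H`: the micro terms; `RL45.ownH`, `RL45.lngH`: the terms without the micro tie (no flip).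
-/

set_option autoImplicit false
set_option linter.unusedSectionVars false
set_option linter.unusedVariables false

namespace Pool.W7d29a1.C0.C45

open Finset MeasureTheory Filter Topology Pool.Agent.W_7d29a1_F Pool.Agent.W_7d29a1_X Pool.Agent.W_7d29a1_C0.Mod92
open Pool.Agent.W_7d29a1_C0.Swap57 Pool.Agent.W_7d29a1_C0.Blk18 Pool.Agent.W_7d29a1_C0.NM82
open Pool.Agent.W_7d29a1_C0.MicE14 (rh rh_nonneg nn Cq)
open Pool.Agent.W_7d29a1_C0.T72 (Sp72 Rb72 ind72 ind72_nonneg ind72_le_one meas_ind72 meas_fix crs_pB72 ps_of_pB72 uj72 abs_uj72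
  meas_uj72 tA_uj72 pA_ut72)
open Pool.Agent.W_7d29a1_C0.MicN96 (Rw96 er96 F0_96)
open Pool.Agent.W_7d29a1_C0.EvT50 (RpM meas_RpM)
open Pool.W7d29a1.C0 (gz gm gz_ne gz_pos gm_nonneg gm_mono gm_const PP PP_eq PP_mono PP_nonneg PP_add PP_smul)
open Pool.W7d29a1.C0.VT31
open Pool.W7d29a1.C0.K1 (upI dnI)
open Pool.W7d29a1.C0.R43
open Pool.W7d29a1.C0.H7 (E0D NL7 HL7 Ms7 iM7 jA7 jA7_01)
open Pool.W7d29a1.C0.H27 (pB slb PA tA)
open Pool.W7d29a1.C0.Row39 (PP_fst PP_const PP_sum)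

noncomputable section

section Defs

variable (μ : Measure ℝ) (s : ℝ) (N : ℕ) (Q : Finset (Finset ℕ))

/-- The corner functional of an event of the base path. -/
def cP45 (T : Env × Finset ℕ → Px Q → Prop) (zf cc : ℕ) (f : Env × Finset ℕ → Px Q → ℝ) : ℝ :=
  ∫ ω, PP (wm μ s N Q ω) (fun x z => ind72 T ω x * rh zf cc (f ω) x z) ∂(Pm μ N)

/-- The response of the row `j` has alternatives above and below (by `d`), together with the own event `V`, given what is behind the row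
`z`, with mass at least `exp (- m)`. -/
def jT45 (γ B : ℝ) (b j z : ℕ) (d m : ℝ) (V : Env × Finset ℕ → Px Q → Prop) (ω : Env × Finset ℕ) (S : Px Q) : Prop :=
  Real.exp (-m) ≤ O1.T4 (wm μ s N Q ω) (pJ 0 z) (gg μ s Q γ B b ω j) d (ind72 V ω) S

end Defs

theorem ind_and45 {Q : Finset (Finset ℕ)} (A B : Env × Finset ℕ → Px Q → Prop) (ω : Env × Finset ℕ) (x : Px Q) :
    ind72 (fun ω S => A ω S ∧ B ω S) ω x = ind72 A ω x * ind72 B ω x := by
  by_cases h1 : A ω x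
  · have e1 : ind72 A ω x = 1 := if_pos h1
    by_cases h2 : B ω x
    · have e2 : ind72 B ω x = 1 := if_pos h2
      have e3 : ind72 (fun ω S => A ω S ∧ B ω S) ω x = 1 := if_pos ⟨h1, h2⟩
      rw [e1, e2, e3, mul_one]
    · have e2 : ind72 B ω x = 0 := if_neg h2
      have e3 : ind72 (fun ω S => A ω S ∧ B ω S) ω x = 0 := if_neg fun h => h2 h.2
      rw [e2, e3, mul_zero]
  · have e1 : ind72 A ω x = 0 := if_neg h1
    have e3 : ind72 (fun ω S => A ω S ∧ B ω S) ω x = 0 := if_neg fun h => h1 h.1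
    rw [e1, e3, zero_mul]

section Row

variable {μ : Measure ℝ} {s : ℝ} {N : ℕ} {Q : Finset (Finset ℕ)} [IsProbabilityMeasure μ] [SwQ Q] [MxQ Q] [Nonempty (Px Q)]
variable {γ B : ℝ} {b j : ℕ} {t : ℝ} {c0 K : ℕ} {ε εM K' : ℝ}

theorem jA_ind45 (z : ℕ) (d m : ℝ) (V : Env × Finset ℕ → Px Q → Prop) (ω : Env × Finset ℕ) (x : Px Q) :
    jA7 μ s N Q γ B b j z d m (ind72 V ω) ω.1 (sg ω.2 j) x = ind72 (jT45 μ s N Q γ B b j z d m V) ω x := by
  unfold jA7 ind72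
  by_cases h : jT45 μ s N Q γ B b j z d m V ω x
  · have h' := h
    unfold jT45 at h'
    rw [if_pos h]
    exact if_pos h'
  · have h' := h
    unfold jT45 at h'
    rw [if_neg h]
    exact if_neg h'

theorem meas_jT45 (z : ℕ) (d m : ℝ) {V : Env × Finset ℕ → Px Q → Prop} (hV : ∀ S, MeasurableSet {ω | V ω S}) (S : Px Q) :
    MeasurableSet {ω | jT45 μ s N Q γ B b j z d m V ω S} := by
  have hu : ∀ x y : Px Q, (Measurable fun ω : Env × Finset ℕ => upI (gg μ s Q γ B b ω j) d x y) ∧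
      Measurable fun ω : Env × Finset ℕ => dnI (gg μ s Q γ B b ω j) d x y := fun x y => by
    unfold upI dnI
    refine ⟨Measurable.ite ?_ measurable_const measurable_const, Measurable.ite ?_ measurable_const measurable_const⟩
    · exact measurableSet_lt ((meas_gs45 γ B b j x).add_const d) (meas_gs45 γ B b j y)
    · exact measurableSet_lt (meas_gs45 γ B b j y) ((meas_gs45 γ B b j x).sub_const d)
  refine measurableSet_le measurable_const ?_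
  unfold O1.T4
  refine meas_cE meas_wm (f := fun ω x => ind72 V ω x * (cE (wm μ s N Q ω) (pJ 0 z) (upI (gg μ s Q γ B b ω j) d x) S *
    cE (wm μ s N Q ω) (pJ 0 z) (dnI (gg μ s Q γ B b ω j) d x) S)) (fun x => (meas_ind72 hV x).mul ?_) _ _
  exact (meas_cE meas_wm (f := fun ω y => upI (gg μ s Q γ B b ω j) d x y) (fun y => (hu x y).1) _ _).mul
    (meas_cE meas_wm (f := fun ω y => dnI (gg μ s Q γ B b ω j) d x y) (fun y => (hu x y).2) _ _)

variable {zf cc : ℕ} {F M : ℝ} {f : Env × Finset ℕ → Px Q → ℝ}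

theorem cP_mono45 (hf : Sp72 Q cc F c0 K f) {T T' : Env × Finset ℕ → Px Q → Prop} (hT : ∀ S, MeasurableSet {ω | T ω S})
    (hT' : ∀ S, MeasurableSet {ω | T' ω S}) (h : ∀ ω S, T ω S → T' ω S) : cP45 μ s N Q T zf cc f ≤ cP45 μ s N Q T' zf cc f := by
  have hi : ∀ T : Env × Finset ℕ → Px Q → Prop, (∀ S, MeasurableSet {ω | T ω S}) → Integrable (fun ω =>
      PP (wm μ s N Q ω) (fun x z => ind72 T ω x * rh zf cc (f ω) x z)) (Pm μ N) := fun T hT =>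
    int_bdd (M := 1 * (2 * F)) (meas_PP45 meas_wm fun x y => (meas_ind72 hT x).mul (meas_rh45 hf x y)) fun ω =>
      abs_PP_le45 _ (fun x y => mul_nonneg (ind72_nonneg _ _ _) (rh_nonneg _ _ _)) fun x y =>
        mul_le_mul (ind72_le_one _ _ _) (rh_le45 hf ω x y) (rh_nonneg _ _ _) zero_le_one
  refine integral_mono (hi T hT) (hi T' hT') fun ω => PP_mono _ fun x y => mul_le_mul_of_nonneg_right ?_ (rh_nonneg _ _ _)
  unfold ind72
  by_cases h1 : T ω x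
  · rw [if_pos h1, if_pos (h ω x h1)]
  · rw [if_neg h1]
    split_ifs <;> norm_num

theorem cP_nonneg45 (T : Env × Finset ℕ → Px Q → Prop) (zf cc : ℕ) (f : Env × Finset ℕ → Px Q → ℝ) : 0 ≤ cP45 μ s N Q T zf cc f :=
  integral_nonneg fun ω => PP_nonneg _ fun x y => mul_nonneg (ind72_nonneg _ _ _) (rh_nonneg _ _ _)

omit [IsProbabilityMeasure μ] [SwQ Q] [MxQ Q] [Nonempty (Px Q)] in
/-- The numbers of the errors. -/
theorem RL45.tiny (R : RL45 μ s N Q γ B b j t c0 K ε εM K') (hM : (N : ℝ) ^ εM ≤ M) (hF0 : 0 ≤ F) (hF : F ≤ (N : ℝ) ^ 3) {x : ℝ}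
    (hx : x ≤ -(M / 8)) : B * (2 * F) * Real.exp x ≤ er96 N K' ∧ 2 * F * Real.exp x ≤ er96 N K' := by
  obtain ⟨n1, n2, n3, n4, n5, n6, n7, n8, n9⟩ := R.num hM
  have hNR := R.N1
  have hBN := R.BN
  have h1 : Real.exp x ≤ (N : ℝ) ^ (-K') := (Real.exp_le_exp.2 hx).trans n3
  have c1 : (1 : ℝ) ≤ N := by linarith
  have h2 : 2 * F ≤ (N : ℝ) ^ 4 := by
    have : (N : ℝ) ^ 4 = N * (N : ℝ) ^ 3 := by ring
    rw [this]
    have h3 : 2 * (N : ℝ) ^ 3 ≤ N * (N : ℝ) ^ 3 := mul_le_mul_of_nonneg_right (by linarith) (by positivity)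
    linarith
  have h4 : (N : ℝ) * (N : ℝ) ^ 4 ≤ (N : ℝ) ^ 6 := by
    have : (N : ℝ) * (N : ℝ) ^ 4 = (N : ℝ) ^ 5 := by ring
    rw [this]
    exact pow_le_pow_right₀ c1 (by norm_num)
  have h5 : (N : ℝ) ^ 4 ≤ (N : ℝ) ^ 6 := pow_le_pow_right₀ c1 (by norm_num)
  unfold er96
  refine ⟨?_, ?_⟩
  · refine mul_le_mul ?_ h1 (Real.exp_pos _).le (by positivity)
    exact (mul_le_mul hBN h2 (by positivity) (by positivity)).trans h4
  · exact mul_le_mul (h2.trans h5) h1 (Real.exp_pos _).le (by positivity)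

/-- The averaged own mass as pieces of the own window. -/
theorem RL45.rp (R : RL45 μ s N Q γ B b j t c0 K ε εM K') (hM : (N : ℝ) ^ εM ≤ M) (hf : Sp72 Q cc F c0 K f) (hF : F ≤ (N : ℝ) ^ 3)
    {E : Env × Finset ℕ → Px Q → Prop} (hE : ∀ S, MeasurableSet {ω | E ω S}) {Y Y' : Type*} [DecidableEq Y] [DecidableEq Y']
    {q : Px Q → Y'} {p : Px Q → Y} (hc : Crs q p) (hq : SwP q) {a a' : ℕ} (hp : BlP p a a') {wl al lo k : ℕ} (hk : 10 * M ≤ k)
    (hk' : (k : ℝ) ≤ 20 * M) (ha : a ≤ wl) (hL : wl + 3 * k * (lo + 1) ≤ al) (hb : al ≤ a') :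
    cP45 μ s N Q (fun ω S => TauM (wm μ s N Q ω) q p wl al M S ∧ E ω S) zf cc f ≤
      cP45 μ s N Q (fun ω S => Rp (wm μ s N Q ω) q wl lo k M S ∧ E ω S) zf cc f + er96 N K' := by
  obtain ⟨n1, n2, n3, n4, n5, n6, n7, n8, n9⟩ := R.num hM
  have h := own_rp45 (μ := μ) (s := s) (N := N) (z := zf) hf hE hc hq hp wl lo k n2 hk hk' ha hL hb
  refine h.trans (add_le_add le_rfl (R.tiny hM (F0_96 hf) hF ?_).2)
  linarith

/-- **THE OWN TERM, PART L**, pieces of the own window. -/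
theorem RL45.ownH (R : RL45 μ s N Q γ B b j t c0 K ε εM K') (hM : (N : ℝ) ^ εM ≤ M) {Y : Type*} [DecidableEq Y] {p : Px Q → Y}
    {wl al z lo k a a' : ℕ} (hcr : Crs (pJ 0 z) p) (hp : BlP p a a') (hk : 10 * M ≤ k) (hk' : (k : ℝ) ≤ 20 * M) (ha : a ≤ wl)
    (hL : wl + 3 * k * (lo + 1) ≤ al) (hb : al ≤ a') (h2 : c0 + K ≤ z) (hzf : z ≤ zf) (hc : zf ≤ cc) (hf : Sp72 Q cc F c0 K f)
    (hF : F ≤ (N : ℝ) ^ 3) :
    ∫ ω, PP (wu μ s N Q (uj72 μ s Q γ B b j t) ω) (fun x y => mI (wu μ s N Q (uj72 μ s Q γ B b j t) ω) p wl al x *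
        rh zf cc (f ω) x y) ∂(Pm μ N) ≤
      (N : ℝ) ^ ε * cP45 μ s N Q (fun ω => Rp (wm μ s N Q ω) (pJ 0 z) wl lo k M) zf cc f + 2 * N * er96 N K' := by
  obtain ⟨n1, n2, n3, n4, n5, n6, n7, n8, n9⟩ := R.num hM
  have hNR := R.N1
  have he : 0 ≤ er96 N K' := by unfold er96; positivity
  have h1 := R.toRw96.ownL hM (wl := wl) (al := al) p h2 hzf hc hf hF
  have h3 := R.rp hM (zf := zf) hf hF (E := fun _ _ => True) (fun S => MeasurableSet.const True) hcr (swP_pJ (Nat.zero_le z)) hp (lo := lo)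
    hk hk' ha hL hb
  simp only [and_true] at h3
  have h4 := mul_le_mul_of_nonneg_left h3 n8
  have h5 : (N : ℝ) ^ ε * er96 N K' ≤ N * er96 N K' := mul_le_mul_of_nonneg_right n9 he
  have h6 : er96 N K' ≤ N * er96 N K' := le_mul_of_one_le_left he (by linarith)
  refine h1.trans ?_
  rw [mul_add] at h4
  unfold cP45 at h4 ⊢
  linarith

/-- **LONG, PART L.** -/
theorem RL45.lngH (R : RL45 μ s N Q γ B b j t c0 K ε εM K') (hM : (N : ℝ) ^ εM ≤ M) {Y : Type*} [DecidableEq Y] {p : Px Q → Y}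
    {wl al z lo k a a' z' e m' : ℕ} (hcr : Crs (pJ 0 z) p) (hp : BlP p a a') (hk : 10 * M ≤ k) (hk' : (k : ℝ) ≤ 20 * M) (ha : a ≤ wl)
    (hL : wl + 3 * k * (lo + 1) ≤ al) (hb : al ≤ a') (h2 : c0 + K ≤ z) (hz' : z ≤ z') (he : z' ≤ e) (hm' : e ≤ m') (hzf : m' ≤ zf)
    (hc : zf ≤ cc) (hf : Sp72 Q cc F c0 K f) (hF : F ≤ (N : ℝ) ^ 3) :
    ∫ ω, PP (wu μ s N Q (uj72 μ s Q γ B b j t) ω) (fun x y => mI (wu μ s N Q (uj72 μ s Q γ B b j t) ω) p wl al x *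
        (mI (wu μ s N Q (uj72 μ s Q γ B b j t) ω) (pJ 0 m') z' e x * rh zf cc (f ω) x y)) ∂(Pm μ N) ≤
      (N : ℝ) ^ ε * cP45 μ s N Q (fun ω S => Rp (wm μ s N Q ω) (pJ 0 z) wl lo k M S ∧ Nta (wm μ s N Q ω) (pJ 0 m') z' e M S) zf cc f +
        2 * N * er96 N K' := by
  obtain ⟨n1, n2, n3, n4, n5, n6, n7, n8, n9⟩ := R.num hM
  have hNR := R.N1
  have her : 0 ≤ er96 N K' := by unfold er96; positivity
  have hFK := R.toRw96.twoF hF
  have hF0 := F0_96 hf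
  have h1 := longL45 (μ := μ) (s := s) (N := N) (Q := Q) (θ := 2 * B / K) (Du := B) (D := 2 * B) (M₁ := M / 2) (M₂ := M) R.hE
    (meas_uj72 γ B b j t) (fun A η S => abs_uj72 R.B0 b j R.ht A η S) (by linarith) le_rfl (by linarith) (by linarith)
    (wl := wl) (al := al) p h2 hz' he hm' hzf hc hf hFK
  have h3 := R.rp hM (zf := zf) hf hF (E := fun ω => Nta (wm μ s N Q ω) (pJ 0 m') z' e M) (fun S => meas_nta45 _ _ _ _ S) hcr
    (swP_pJ (Nat.zero_le z)) hp (lo := lo) hk hk' ha hL hb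
  have h4 := mul_le_mul_of_nonneg_left h3 n8
  have h5 : (N : ℝ) ^ ε * er96 N K' ≤ N * er96 N K' := mul_le_mul_of_nonneg_right n9 her
  have h7 := (R.tiny hM hF0 hF (x := 4 * B - 5 * (M / 2)) (by linarith)).2
  have h8 := (R.tiny hM hF0 hF (x := 2 * B - M / 2) (by linarith)).2
  have h9 : (N : ℝ) ^ ε * (N : ℝ) ^ (-K') ≤ er96 N K' := by
    unfold er96
    refine mul_le_mul_of_nonneg_right (n9.trans ?_) n6
    have := pow_le_pow_right₀ (show (1 : ℝ) ≤ N by linarith) (show 1 ≤ 6 by norm_num)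
    rwa [pow_one] at this
  have h10 : 64 * er96 N K' ≤ N * er96 N K' := mul_le_mul_of_nonneg_right hNR her
  refine h1.trans ?_
  rw [mul_add] at h4 ⊢
  unfold cP45 at h4 ⊢
  linarith

/-- The third part at the corner: an event of the whole path. -/
theorem RL45.thV (R : RL45 μ s N Q γ B b j t c0 K ε εM K') (hM : (N : ℝ) ^ εM ≤ M) {δ : ℝ} (hδ : 0 ≤ δ) (hz : c0 + K ≤ zf)
    (hc : zf ≤ cc) (hf : Sp72 Q cc F c0 K f) (hF : F ≤ (N : ℝ) ^ 3) {ev : (Px Q → ℝ) → ℝ → Px Q → Prop} (hev : Ev45 ev) :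
    th45 μ s N Q γ B b j t δ c0 K (fun ω => ev (wm μ s N Q ω) (M / 2)) zf cc f ≤
      (N : ℝ) ^ ε * cP45 μ s N Q (jT45 μ s N Q γ B b j (c0 + K) (δ / 4) (5 * M) fun ω => ev (wm μ s N Q ω) M) zf cc f + er96 N K' := by
  obtain ⟨n1, n2, n3, n4, n5, n6, n7, n8, n9⟩ := R.num hM
  have h := R.third hM hδ hz hc hf hF (E₁ := fun ω => ev (wm μ s N Q ω) (M / 2)) (E₁' := fun ω => ev (wm μ s N Q ω) M)
    (E₂ := fun _ _ => True) (E₂' := fun _ _ => True) (hev.rbW (D := 2 * B) (by linarith) le_rfl (by linarith))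
    ⟨fun _ => MeasurableSet.const True, fun _ => MeasurableSet.const True, fun _ _ _ _ => Iff.rfl, fun _ _ _ _ _ _ _ => trivial⟩
  simp only [and_true] at h
  have e1 : ∀ ω (x : Px Q), ind72 (fun (_ : Env × Finset ℕ) (_ : Px Q) => True) ω x = 1 := fun ω x => if_pos trivial
  simp only [e1, one_mul, jA_ind45] at h
  exact h

/-- The third part at the corner: an event of the future. -/
theorem RL45.thQ (R : RL45 μ s N Q γ B b j t c0 K ε εM K') (hM : (N : ℝ) ^ εM ≤ M) {δ : ℝ} (hδ : 0 ≤ δ) (hz : c0 + K ≤ zf)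
    (hc : zf ≤ cc) (hf : Sp72 Q cc F c0 K f) (hF : F ≤ (N : ℝ) ^ 3) {E E' : Env × Finset ℕ → Px Q → Prop}
    (hE : Rb72 Q c0 K (2 * B / K) E E') :
    th45 μ s N Q γ B b j t δ c0 K E zf cc f ≤
      (N : ℝ) ^ ε * cP45 μ s N Q (fun ω S => E' ω S ∧
        jT45 μ s N Q γ B b j (c0 + K) (δ / 4) (5 * M) (fun _ _ => True) ω S) zf cc f + er96 N K' := by
  have h := R.third hM hδ hz hc hf hF (E₁ := fun _ _ => True) (E₁' := fun _ _ => True)
    (E₂ := E) (E₂' := E')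
    ⟨fun _ => MeasurableSet.const True, fun _ => MeasurableSet.const True, fun _ _ _ _ _ _ _ => trivial⟩ hE
  simp only [true_and] at h
  simp only [jA_ind45] at h
  refine h.trans (le_of_eq ?_)
  congr 2
  unfold cP45
  congr 1
  funext ω
  congr 1
  funext x z
  rw [← mul_assoc]
  congr 1
  have e := ind_and45 E' (jT45 μ s N Q γ B b j (c0 + K) (δ / 4) (5 * M) (fun _ _ => True)) ω x
  rw [e, mul_comm]

end Row

/-! ### The mean over the ends -/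

section Ends

variable {μ : Measure ℝ} {s : ℝ} {N : ℕ} [IsProbabilityMeasure μ] {γ B : ℝ} {b j : ℕ} {t : ℝ} {c0 K : ℕ} {ε εM K' : ℝ}

/-- The final numbers of a micro term. -/
theorem fin45 {ys : Finset ℕ} (hN : (64 : ℝ) ≤ N) (hB0 : 0 ≤ B) (hBN : B ≤ N) {A e : ℝ} {W Th : ℕ → ℝ}
    (hTh : ∀ y ∈ ys, Th y ≤ (N : ℝ) ^ ε * W y + er96 N K') {x : ℝ}
    (h : x ≤ A + B * avy ys Th + (2 * er96 N K' + er96 N K' + e)) :
    x ≤ A + B * ((N : ℝ) ^ ε * avy ys W) + (2 * N * er96 N K' + e) := by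
  have her : 0 ≤ er96 N K' := by unfold er96; positivity
  have h1 := avy_mono hTh
  rw [avy_add, avy_mul] at h1
  have av_le : avy ys (fun _ => er96 N K') ≤ er96 N K' := by
    rcases ys.eq_empty_or_nonempty with h | h
    · rw [h]
      simpa [avy] using her
    · exact (avy_const h _).le
  have h2 : B * avy ys Th ≤ B * ((N : ℝ) ^ ε * avy ys W + er96 N K') :=
    mul_le_mul_of_nonneg_left (h1.trans (add_le_add le_rfl av_le)) hB0
  rw [mul_add] at h2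
  have h3 : B * er96 N K' ≤ N * er96 N K' := mul_le_mul_of_nonneg_right hBN her
  have h4 : 64 * er96 N K' ≤ N * er96 N K' := mul_le_mul_of_nonneg_right hN her
  linarith

variable {ys : Finset ℕ} {M δ : ℝ} {l k zf cc : ℕ} {F : ℝ} {f : Fam N} {c1 z e wl al : ℕ} {J : Finset ℕ}

/-- **THE TERM `T2`, PART L, AT THE CORNER.** -/
theorem T2L45H (hys : ∀ y ∈ ys, y ≤ N) (R : ∀ y ∈ ys, RL45 μ s N (Pn N y) γ B b j t c0 K ε εM K')
    (hM : (N : ℝ) ^ εM ≤ M / 2) (hN : (64 : ℝ) ≤ N) (hB0 : 0 ≤ B) (hBN : B ≤ N) (hδ : 0 ≤ δ) (hδ1 : δ ≤ 1) (hk : 10 * M ≤ k)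
    (hk' : (k : ℝ) ≤ 20 * M) (hbj : b ≤ j) (hl : 3 * k * (l + 1) ≤ b) (hf : ∀ y ∈ ys, Sp72 (Pn N y) cc F c0 K (f y))
    (hF : F ≤ (N : ℝ) ^ 3) (hJ : J.Nonempty) (hJm : ∀ m ∈ J, c1 ≤ m ∧ al ≤ m ∧ m ≤ j - b) (hz : c0 + K ≤ z) (hze : z ≤ e)
    (hjz : j + b ≤ z) (hzf : z ≤ zf) (hc : zf ≤ cc) {e0 : ℝ}
    (hflp : ∀ m ∈ J, Flp45 μ s N ys γ B b j t δ c0 K zf cc f (fun y w M => Nta w (pJ (Q := Pn N y) c1 z) wl al M)
      (fun y => pJ (Q := Pn N y) m z) (fun y => pJ (Q := Pn N y) m e) (M / 2 + 2 * B) e0) :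
    avy ys (fun y => ∫ ω, PP (wu μ s N (Pn N y) (uj72 μ s (Pn N y) γ B b j t) ω) (fun x x' =>
        mI (wu μ s N (Pn N y) (uj72 μ s (Pn N y) γ B b j t) ω) (pJ c1 z) wl al x *
        (nn (wu μ s N (Pn N y) (uj72 μ s (Pn N y) γ B b j t) ω) J (fun m => pJ m e) (gg μ s (Pn N y) γ B b ω j) x *
          rh zf cc (f y ω) x x')) ∂(Pm μ N)) ≤
      2 * (B * ((N : ℝ) ^ ε * ((J.card : ℝ)⁻¹ * ∑ m ∈ J, avy ys fun y => cP45 μ s N (Pn N y) (fun ω S =>
        Nta (wm μ s N (Pn N y) ω) (pJ c1 z) wl al M S ∧ (RpM (wm μ s N (Pn N y) ω) (pJ m z) b j l k M S ∨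
          RpM (wm μ s N (Pn N y) ω) (pJ m e) b j l k M S)) zf cc (f y)))) +
      B * ((N : ℝ) ^ ε * avy ys fun y => cP45 μ s N (Pn N y) (jT45 μ s N (Pn N y) γ B b j (c0 + K) (δ / 4) (5 * M) fun ω =>
        Nta (wm μ s N (Pn N y) ω) (pJ c1 z) wl al M) zf cc (f y)) + (2 * N * er96 N K' + e0) := by
  have her : 0 ≤ er96 N K' := by unfold er96; positivity
  have hM' : (N : ℝ) ^ εM ≤ M := hM.trans (by
    have : 0 ≤ (N : ℝ) ^ εM := Real.rpow_nonneg (by linarith) _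
    linarith)
  have h := corL45 (μ := μ) (s := s) (N := N) (γ := γ) (B := B) (b := b) (j := j) (t := t) (c0 := c0) (K := K) (ε := ε) (εM := εM)
    (K' := K') hys R hM hN hBN hδ hδ1 hk hk' hbj hl (zf := zf) (cc := cc) (hz.trans hzf) hc hf hF
    (ev := fun y w M => Nta w (pJ (Q := Pn N y) c1 z) wl al M) (fun y hy => by
      have := ne_Pn (hys y hy)
      exact Ev45.nta _ _ _) hJ
    (r := fun m y => pJ (Q := Pn N y) m z) (q := fun m y => pJ (Q := Pn N y) m e)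
    (fun m hm y hy => crs_pJ (hJm m hm).2.2 hjz) (fun m hm y hy => crs_pJ le_rfl hze)
    (fun m hm y hy => swP_pJ (by
      have := (hJm m hm).2.2
      omega)) (X := fun y => ∫ ω, PP (wu μ s N (Pn N y) (uj72 μ s (Pn N y) γ B b j t) ω) (fun x x' =>
        mI (wu μ s N (Pn N y) (uj72 μ s (Pn N y) γ B b j t) ω) (pJ c1 z) wl al x *
        (nn (wu μ s N (Pn N y) (uj72 μ s (Pn N y) γ B b j t) ω) J (fun m => pJ m e) (gg μ s (Pn N y) γ B b ω j) x *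
          rh zf cc (f y ω) x x')) ∂(Pm μ N)) her (fun y hy => by
      have := ne_Pn (hys y hy)
      have hR := R y hy
      obtain ⟨n1, n2, n3, n4, n5, n6, n7, n8, n9⟩ := hR.num hM'
      refine (T2N45 (μ := μ) (s := s) (N := N) (Q := Pn N y) (u := uj72 μ s (Pn N y) γ B b j t) (Du := B) (B := B) (c1 := c1) (z := z)
        (e := e) (zf := zf) (c := cc) (wl := wl) (al := al) (J := J) (g := fun ω => gg μ s (Pn N y) γ B b ω j)
        (meas_uj72 γ B b j t) (fun A η S => abs_uj72 hR.B0 b j hR.ht A η S) (gg_bd45 hR.B0) (meas_gs45 γ B b j) hJ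
        (fun m hm => ⟨(hJm m hm).1, (hJm m hm).2.1⟩) hzf hc (hf y hy) (M / 2)).trans ?_
      refine add_le_add (le_of_eq rfl) (hR.tiny hM' (F0_96 (hf y hy)) hF ?_).1
      linarith)
    (Th := fun y => th45 μ s N (Pn N y) γ B b j t δ c0 K (fun ω => Nta (wm μ s N (Pn N y) ω) (pJ c1 z) wl al (M / 2)) zf cc (f y))
    (fun y hy => le_rfl) hflp
  exact fin45 hN hB0 hBN (fun y hy => by
    have := ne_Pn (hys y hy)
    exact (R y hy).thV hM' hδ (hz.trans hzf) hc (hf y hy) hF (Ev45.nta _ _ _)) h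

/-- **THE TERM `Tp`, PART L, AT THE CORNER.** -/
theorem TpL45H (hys : ∀ y ∈ ys, y ≤ N) (R : ∀ y ∈ ys, RL45 μ s N (Pn N y) γ B b j t c0 K ε εM K')
    (hM : (N : ℝ) ^ εM ≤ M / 2) (hN : (64 : ℝ) ≤ N) (hB0 : 0 ≤ B) (hBN : B ≤ N) (hδ : 0 ≤ δ) (hδ1 : δ ≤ 1) (hk : 10 * M ≤ k)
    (hk' : (k : ℝ) ≤ 20 * M) (hbj : b ≤ j) (hl : 3 * k * (l + 1) ≤ b) (hf : ∀ y ∈ ys, Sp72 (Pn N y) cc F c0 K (f y))
    (hF : F ≤ (N : ℝ) ^ 3) (hJ : J.Nonempty) (hJm : ∀ m ∈ J, c1 ≤ m ∧ m ≤ j - b) (hz : c0 + K ≤ z) (hze : z ≤ e)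
    (hjz : j + b ≤ z) (hzf : z ≤ zf) (hc : zf ≤ cc) {e0 : ℝ}
    (hflp : ∀ m ∈ J, Flp45 μ s N ys γ B b j t δ c0 K zf cc f
      (fun y w M => TauM w (pJ (Q := Pn N y) c1 z) (pJ (Q := Pn N y) c1 z) wl al M)
      (fun y => pJ (Q := Pn N y) m z) (fun y => pJ (Q := Pn N y) m e) (M / 2 + 2 * B) e0) :
    avy ys (fun y => ∫ ω, PP (wu μ s N (Pn N y) (uj72 μ s (Pn N y) γ B b j t) ω) (fun x x' =>
        mI (wu μ s N (Pn N y) (uj72 μ s (Pn N y) γ B b j t) ω) (pJ c1 z) wl al x *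
        (cE (wu μ s N (Pn N y) (uj72 μ s (Pn N y) γ B b j t) ω) (pJ c1 z)
          (nn (wu μ s N (Pn N y) (uj72 μ s (Pn N y) γ B b j t) ω) J (fun m => pJ m e) (gg μ s (Pn N y) γ B b ω j)) x *
          rh zf cc (f y ω) x x')) ∂(Pm μ N)) ≤
      2 * (B * ((N : ℝ) ^ ε * ((J.card : ℝ)⁻¹ * ∑ m ∈ J, avy ys fun y => cP45 μ s N (Pn N y) (fun ω S =>
        TauM (wm μ s N (Pn N y) ω) (pJ c1 z) (pJ c1 z) wl al M S ∧ (RpM (wm μ s N (Pn N y) ω) (pJ m z) b j l k M S ∨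
          RpM (wm μ s N (Pn N y) ω) (pJ m e) b j l k M S)) zf cc (f y)))) +
      B * ((N : ℝ) ^ ε * avy ys fun y => cP45 μ s N (Pn N y) (jT45 μ s N (Pn N y) γ B b j (c0 + K) (δ / 4) (5 * M) fun ω =>
        TauM (wm μ s N (Pn N y) ω) (pJ c1 z) (pJ c1 z) wl al M) zf cc (f y)) + (2 * N * er96 N K' + e0) := by
  have her : 0 ≤ er96 N K' := by unfold er96; positivity
  have hM' : (N : ℝ) ^ εM ≤ M := hM.trans (by
    have : 0 ≤ (N : ℝ) ^ εM := Real.rpow_nonneg (by linarith) _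
    linarith)
  have h := corL45 (μ := μ) (s := s) (N := N) (γ := γ) (B := B) (b := b) (j := j) (t := t) (c0 := c0) (K := K) (ε := ε) (εM := εM)
    (K' := K') hys R hM hN hBN hδ hδ1 hk hk' hbj hl (zf := zf) (cc := cc) (hz.trans hzf) hc hf hF
    (ev := fun y w M => TauM w (pJ (Q := Pn N y) c1 z) (pJ (Q := Pn N y) c1 z) wl al M) (fun y hy => by
      have := ne_Pn (hys y hy)
      exact Ev45.tau _ _ _ _) hJ
    (r := fun m y => pJ (Q := Pn N y) m z) (q := fun m y => pJ (Q := Pn N y) m e)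
    (fun m hm y hy => crs_pJ (hJm m hm).2 hjz) (fun m hm y hy => crs_pJ le_rfl hze)
    (fun m hm y hy => swP_pJ (by
      have := (hJm m hm).2
      omega)) (X := fun y => ∫ ω, PP (wu μ s N (Pn N y) (uj72 μ s (Pn N y) γ B b j t) ω) (fun x x' =>
        mI (wu μ s N (Pn N y) (uj72 μ s (Pn N y) γ B b j t) ω) (pJ c1 z) wl al x *
        (cE (wu μ s N (Pn N y) (uj72 μ s (Pn N y) γ B b j t) ω) (pJ c1 z)
          (nn (wu μ s N (Pn N y) (uj72 μ s (Pn N y) γ B b j t) ω) J (fun m => pJ m e) (gg μ s (Pn N y) γ B b ω j)) x *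
          rh zf cc (f y ω) x x')) ∂(Pm μ N)) her (fun y hy => by
      have := ne_Pn (hys y hy)
      have hR := R y hy
      obtain ⟨n1, n2, n3, n4, n5, n6, n7, n8, n9⟩ := hR.num hM'
      refine (TpN45 (μ := μ) (s := s) (N := N) (Q := Pn N y) (u := uj72 μ s (Pn N y) γ B b j t) (Du := B) (B := B) (c1 := c1) (z := z)
        (e := e) (zf := zf) (c := cc) (wl := wl) (al := al) (J := J) (g := fun ω => gg μ s (Pn N y) γ B b ω j)
        (meas_uj72 γ B b j t) (fun A η S => abs_uj72 hR.B0 b j hR.ht A η S) (gg_bd45 hR.B0) (meas_gs45 γ B b j) hJ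
        (fun m hm => (hJm m hm).1) hzf hc (hf y hy) (M / 2)).trans ?_
      refine add_le_add (le_of_eq rfl) (hR.tiny hM' (F0_96 (hf y hy)) hF ?_).1
      linarith)
    (Th := fun y => th45 μ s N (Pn N y) γ B b j t δ c0 K (fun ω => TauM (wm μ s N (Pn N y) ω) (pJ c1 z) (pJ c1 z) wl al (M / 2))
      zf cc (f y)) (fun y hy => le_rfl) hflp
  exact fin45 hN hB0 hBN (fun y hy => by
    have := ne_Pn (hys y hy)
    exact (R y hy).thV hM' hδ (hz.trans hzf) hc (hf y hy) hF (Ev45.tau _ _ _ _)) h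

/-- **THE TERM `T0Q`, PART L, AT THE CORNER.** -/
theorem T0QL45H {Y : Type} [DecidableEq Y] (hys : ∀ y ∈ ys, y ≤ N) (R : ∀ y ∈ ys, RL45 μ s N (Pn N y) γ B b j t c0 K ε εM K')
    (hM : (N : ℝ) ^ εM ≤ M / 2) (hN : (64 : ℝ) ≤ N) (hB0 : 0 ≤ B) (hBN : B ≤ N) (hδ : 0 ≤ δ) (hδ1 : δ ≤ 1) (hk : 10 * M ≤ k)
    (hk' : (k : ℝ) ≤ 20 * M) (hbj : b ≤ j) (hl : 3 * k * (l + 1) ≤ b) (hf : ∀ y ∈ ys, Sp72 (Pn N y) cc F c0 K (f y))
    (hF : F ≤ (N : ℝ) ^ 3) (hJ : J.Nonempty) (hJm : ∀ m ∈ J, m ≤ j - b) (hz : c0 + K ≤ e) (hje : j + b ≤ e) {m' : ℕ}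
    (hem : e ≤ m') (hzf : m' ≤ zf) (hc : zf ≤ cc) (p : ∀ y, Px (Pn N y) → Y) {e0 : ℝ}
    (hflp : ∀ m ∈ J, Flp45 μ s N ys γ B b j t δ c0 K zf cc f
      (fun y w M => TauM w (pJ (Q := Pn N y) 0 m') (p y) wl al M)
      (fun y => pJ (Q := Pn N y) m e) (fun y => pJ (Q := Pn N y) m e) (M / 2 + 2 * B) e0) :
    avy ys (fun y => ∫ ω, PP (wu μ s N (Pn N y) (uj72 μ s (Pn N y) γ B b j t) ω) (fun x x' =>
        cE (wu μ s N (Pn N y) (uj72 μ s (Pn N y) γ B b j t) ω) (pJ 0 m')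
          (mI (wu μ s N (Pn N y) (uj72 μ s (Pn N y) γ B b j t) ω) (p y) wl al) x *
        (nn (wu μ s N (Pn N y) (uj72 μ s (Pn N y) γ B b j t) ω) J (fun m => pJ m e) (gg μ s (Pn N y) γ B b ω j) x *
          rh zf cc (f y ω) x x')) ∂(Pm μ N)) ≤
      2 * (B * ((N : ℝ) ^ ε * ((J.card : ℝ)⁻¹ * ∑ m ∈ J, avy ys fun y => cP45 μ s N (Pn N y) (fun ω S =>
        TauM (wm μ s N (Pn N y) ω) (pJ 0 m') (p y) wl al M S ∧ (RpM (wm μ s N (Pn N y) ω) (pJ m e) b j l k M S ∨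
          RpM (wm μ s N (Pn N y) ω) (pJ m e) b j l k M S)) zf cc (f y)))) +
      B * ((N : ℝ) ^ ε * avy ys fun y => cP45 μ s N (Pn N y) (fun ω S => TauM (wm μ s N (Pn N y) ω) (pJ 0 m') (p y) wl al M S ∧
        jT45 μ s N (Pn N y) γ B b j (c0 + K) (δ / 4) (5 * M) (fun _ _ => True) ω S) zf cc (f y)) + (2 * N * er96 N K' + e0) := by
  have her : 0 ≤ er96 N K' := by unfold er96; positivity
  have hM' : (N : ℝ) ^ εM ≤ M := hM.trans (by
    have : 0 ≤ (N : ℝ) ^ εM := Real.rpow_nonneg (by linarith) _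
    linarith)
  have h := corL45 (μ := μ) (s := s) (N := N) (γ := γ) (B := B) (b := b) (j := j) (t := t) (c0 := c0) (K := K) (ε := ε) (εM := εM)
    (K' := K') hys R hM hN hBN hδ hδ1 hk hk' hbj hl (zf := zf) (cc := cc) (hz.trans (hem.trans hzf)) hc hf hF
    (ev := fun y w M => TauM w (pJ (Q := Pn N y) 0 m') (p y) wl al M) (fun y hy => by
      have := ne_Pn (hys y hy)
      exact Ev45.tau _ _ _ _) hJ
    (r := fun m y => pJ (Q := Pn N y) m e) (q := fun m y => pJ (Q := Pn N y) m e)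
    (fun m hm y hy => crs_pJ (hJm m hm) hje) (fun m hm y hy => crs_pJ le_rfl le_rfl)
    (fun m hm y hy => swP_pJ (by
      have := hJm m hm
      omega)) (X := fun y => ∫ ω, PP (wu μ s N (Pn N y) (uj72 μ s (Pn N y) γ B b j t) ω) (fun x x' =>
        cE (wu μ s N (Pn N y) (uj72 μ s (Pn N y) γ B b j t) ω) (pJ 0 m')
          (mI (wu μ s N (Pn N y) (uj72 μ s (Pn N y) γ B b j t) ω) (p y) wl al) x *
        (nn (wu μ s N (Pn N y) (uj72 μ s (Pn N y) γ B b j t) ω) J (fun m => pJ m e) (gg μ s (Pn N y) γ B b ω j) x *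
          rh zf cc (f y ω) x x')) ∂(Pm μ N)) her (fun y hy => by
      have := ne_Pn (hys y hy)
      have hR := R y hy
      obtain ⟨n1, n2, n3, n4, n5, n6, n7, n8, n9⟩ := hR.num hM'
      refine (T0QN45 (μ := μ) (s := s) (N := N) (Q := Pn N y) (u := uj72 μ s (Pn N y) γ B b j t) (Du := B) (B := B)
        (e := e) (zf := zf) (c := cc) (J := J) (g := fun ω => gg μ s (Pn N y) γ B b ω j)
        (meas_uj72 γ B b j t) (fun A η S => abs_uj72 hR.B0 b j hR.ht A η S) (gg_bd45 hR.B0) (meas_gs45 γ B b j) hJ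
        hem hzf hc (hf y hy) (p y) wl al (M / 2)).trans ?_
      refine add_le_add (le_of_eq rfl) (hR.tiny hM' (F0_96 (hf y hy)) hF ?_).1
      linarith)
    (Th := fun y => th45 μ s N (Pn N y) γ B b j t δ c0 K (fun ω => TauM (wm μ s N (Pn N y) ω) (pJ 0 m') (p y) wl al (M / 2))
      zf cc (f y)) (fun y hy => le_rfl) hflp
  exact fin45 hN hB0 hBN (fun y hy => by
    have := ne_Pn (hys y hy)
    have hR := R y hy
    obtain ⟨n1, n2, n3, n4, n5, n6, n7, n8, n9⟩ := hR.num hM'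
    exact hR.thQ hM' hδ (hz.trans (hem.trans hzf)) hc (hf y hy) hF
      (tauM_rb (D := 2 * B) (by linarith) le_rfl (hz.trans hem) (p y) (by linarith))) h

end Ends

end

end Pool.W7d29a1.C0.C45
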