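import Pool.Agent.W_7d29a1_C0.TvH48
import Pool.Agent.W_7d29a1_C0.LocM18
import Pool.Agent.W_7d29a1_X.NR89

/-!
MP_7d29a1_pr, [CURV0], leaf E7b, complement: masses of events under a clipped partial kick of a window at ANY level of the clip. (helper48)
-/

set_option autoImplicit false

namespace Pool.Agent.W_7d29a1_C0.Tv48

open Pool.Agent.W_7d29a1_F hiding W_pos W_nonneg W_add
open Finset MeasureTheory Filter Topology Pool.Agent.W_7d29a1_X Pool.Agent.W_7d29a1_HZ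
open Pool.Agent.W_7d29a1_HS (In wd)
open Pool.Agent.W_7d29a1_H (sl)
open Pool.Agent.W_7d29a1_Z74
open Pool.Agent.W_7d29a1_HZ.Z74
open Pool.Agent.W_7d29a1_C0.Flip61 (Rk cn sum_flip pos_split Rk_nonneg)
open Pool.Agent.W_7d29a1_C0.Mod92 (Px Pn ps lk cl Flat gw lw)
open Pool.Agent.W_7d29a1_C0.K14 (KU kick14_unit ZJ_pos)
open Pool.Agent.W_7d29a1_C0.LocM18 (Cn)
open Pool.W7d29a1.C0 (gz gm)
open scoped ENNReal

noncomputable section

section Abs

variable {X : Type*} [Fintype X]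

/-- The mean of a function which is supported by the event `E` under a partial kick `x`, by the masses of `E` under the actual law and the
law with the exact kick `R`, if the kick is within `± u` off the event `bad`. -/
theorem gm_tilt {w x f A R : X → ℝ} {u : ℝ} {E bad : X → Prop} (hA : ∀ S, 0 < A S) (hw : ∀ S, Real.exp (w S) = A S)
    (hR : ∀ S, 0 ≤ R S) (hu : 0 ≤ u) (h1 : ∀ S, Real.exp (x S) ≤ 1 + R S) (h2 : ∀ S, ¬ bad S → -u ≤ x S)
    (h3 : ∀ S, ¬ bad S → R S ≤ Real.exp u) (f1 : ∀ S, f S ≤ 1) (f2 : ∀ S, ¬ E S → f S = 0) :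
    gm (w + x) f ≤ 4 * Real.exp (2 * u) * (mf A (fun _ => 1) E + mf A R E) + 2 * (mf A (fun _ => 1) bad + mf A R bad) := by
  classical
  have hA' : ∀ S, 0 ≤ A S := fun S => (hA S).le
  have k1 := mf_nonneg hA' (fun _ => zero_le_one) E
  have k2 := mf_nonneg hA' hR E
  have k3 := mf_nonneg hA' (fun _ => zero_le_one) bad
  have k4 := mf_nonneg hA' hR bad
  have e1 : 0 < Real.exp (2 * u) := Real.exp_pos _
  have k5 : 0 ≤ 4 * Real.exp (2 * u) * (mf A (fun _ => 1) E + mf A R E) := by positivity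
  have hwx : ∀ S, Real.exp ((w + x) S) = A S * Real.exp (x S) := fun S => by
    rw [Pi.add_apply, Real.exp_add, hw]
  have hZ0 : 0 ≤ ∑ S, A S * Real.exp (x S) := sum_nonneg fun S _ => mul_nonneg (hA' S) (Real.exp_pos _).le
  have g0 : gm (w + x) f = (∑ S, A S * Real.exp (x S) * f S) / ∑ S, A S * Real.exp (x S) := by
    unfold gm gz
    simp only [hwx]
  have g1 : gm (w + x) f ≤ 1 := by
    rw [g0]
    refine div_le_one_of_le₀ (sum_le_sum fun S _ => ?_) hZ0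
    exact mul_le_of_le_one_right (mul_nonneg (hA' S) (Real.exp_pos _).le) (f1 S)
  by_cases m1 : mf A (fun _ => 1) bad ≤ 1 / 2
  swap
  · rw [not_le] at m1
    linarith only [m1, g1, k5, k4]
  by_cases m2 : mf A R bad ≤ 1 / 2
  swap
  · rw [not_le] at m2
    linarith only [m2, g1, k5, k3]
  obtain ⟨Z, hZ⟩ : ∃ Z : ℝ, Z = ∑ S, A S := ⟨_, rfl⟩
  have hZp0 : 0 ≤ Z := by rw [hZ]; exact sum_nonneg fun S _ => hA' S
  rcases hZp0.eq_or_lt with hZ' | hZ'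
  · have hE : IsEmpty X := by
      rw [← not_nonempty_iff]
      rintro ⟨S⟩
      have : 0 < ∑ S, A S := sum_pos (fun S _ => hA S) ⟨S, mem_univ S⟩
      rw [← hZ, ← hZ'] at this
      exact lt_irrefl _ this
    have h0 : gm (w + x) f = 0 := by
      rw [g0]
      simp
    rw [h0]
    linarith only [k5, k3, k4]
  have hD : Real.exp (-u) / 2 * Z ≤ ∑ S, A S * Real.exp (x S) := by
    rw [hZ]
    exact le_sum_of_mf hA' (fun S => (Real.exp_pos _).le) m1 (fun S hS => Real.exp_le_exp.2 (h2 S hS)) (Real.exp_pos _).le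
  have hT : ∑ S, A S * R S ≤ 2 * Real.exp u * Z := by
    rw [hZ]
    exact sum_le_of_mf hA' hR m2 (fun S hS => h3 S hS) (Real.exp_pos _).le
  have hN : ∑ S, A S * Real.exp (x S) * f S ≤ mf A (fun _ => 1) E * Z + mf A R E * ∑ S, A S * R S := by
    have n1 : ∀ S, A S * Real.exp (x S) * f S ≤ (if E S then A S * 1 else 0) + (if E S then A S * R S else 0) := by
      intro S
      by_cases hS : E S
      · rw [if_pos hS, if_pos hS]
        calc A S * Real.exp (x S) * f S ≤ A S * Real.exp (x S) :=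
              mul_le_of_le_one_right (mul_nonneg (hA' S) (Real.exp_pos _).le) (f1 S)
          _ ≤ A S * (1 + R S) := mul_le_mul_of_nonneg_left (h1 S) (hA' S)
          _ = A S * 1 + A S * R S := by ring
      · rw [if_neg hS, if_neg hS, f2 S hS, mul_zero, add_zero]
    refine (sum_le_sum fun S _ => n1 S).trans ?_
    rw [sum_add_distrib, mf_mul hA' (fun _ => zero_le_one) E, mf_mul hA' hR E]
    simp only [mul_one]
    rw [← hZ]
  have hDp : 0 < Real.exp (-u) / 2 * Z := mul_pos (half_pos (Real.exp_pos _)) hZ'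
  have hN2 : ∑ S, A S * Real.exp (x S) * f S ≤ 2 * Real.exp u * (mf A (fun _ => 1) E + mf A R E) * Z := by
    have b1 := mul_le_mul_of_nonneg_left hT k2
    have b2 : 1 ≤ Real.exp u := Real.one_le_exp hu
    have b3 : mf A (fun _ => 1) E * Z ≤ 2 * Real.exp u * (mf A (fun _ => 1) E * Z) :=
      le_mul_of_one_le_left (mul_nonneg k1 hZp0) (by linarith only [b2])
    calc ∑ S, A S * Real.exp (x S) * f S ≤ mf A (fun _ => 1) E * Z + mf A R E * ∑ S, A S * R S := hN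
      _ ≤ 2 * Real.exp u * (mf A (fun _ => 1) E * Z) + mf A R E * (2 * Real.exp u * Z) := add_le_add b3 b1
      _ = 2 * Real.exp u * (mf A (fun _ => 1) E + mf A R E) * Z := by ring
  have hfin : gm (w + x) f ≤ 4 * Real.exp (2 * u) * (mf A (fun _ => 1) E + mf A R E) := by
    rw [g0, div_le_iff₀ (hDp.trans_le hD)]
    refine hN2.trans ?_
    have e3 : 4 * Real.exp (2 * u) * (mf A (fun _ => 1) E + mf A R E) * (Real.exp (-u) / 2 * Z) =
        2 * Real.exp u * (mf A (fun _ => 1) E + mf A R E) * Z := by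
      have e4 : Real.exp (2 * u) * Real.exp (-u) = Real.exp u := by
        rw [← Real.exp_add]
        ring_nf
      calc 4 * Real.exp (2 * u) * (mf A (fun _ => 1) E + mf A R E) * (Real.exp (-u) / 2 * Z) =
            2 * (Real.exp (2 * u) * Real.exp (-u)) * (mf A (fun _ => 1) E + mf A R E) * Z := by ring
        _ = _ := by rw [e4]
    rw [← e3]
    exact mul_le_mul_of_nonneg_left hD k5
  linarith only [hfin, k3, k4]

end Abs

variable {μ : Measure ℝ} {s : ℝ}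

theorem Rw_le_exp {η : Env} {c l k : ℕ} {v : ℤ} (hk : k ≤ l) (S : Finset ℕ) :
    Rw μ s c l k v η S ≤ Real.exp (lk μ s η c l k v (pos S c) (pos S (c + l))) := by
  have e : k + (l - k) = l := by omega
  have d0 : 0 ≤ pos S (c + l) - pos S c := pos_sub_nonneg S c l
  have d1 : pos S (c + l) - pos S c ≤ l := pos_sub_le S c l
  have hW : 0 < W μ s η ((c : ℤ), pos S c) l (pos S (c + l) - pos S c) := Pool.Agent.W_7d29a1_Z74.W_pos η _ d0 d1
  rcases (ZJ_nonneg (μ := μ) (s := s) η ((c : ℤ), pos S c) k (l - k) v (pos S (c + l) - pos S c)).eq_or_lt with h | h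
  · have e1 : Rw μ s c l k v η S = 0 := by
      unfold Rw Rk
      rw [← h, zero_div]
    rw [e1]
    exact (Real.exp_pos _).le
  · refine le_of_eq ?_
    unfold Rw lk Rk
    rw [Real.exp_sub, Real.exp_log h, Real.exp_log hW, e]

theorem cl_le {B : ℝ} (hB : 0 ≤ B) (u : ℝ) : cl B u ≤ max u 0 := by
  unfold cl
  refine max_le ?_ ((min_le_right _ _).trans (le_max_left _ _))
  exact (by linarith : -B ≤ 0).trans (le_max_right _ _)

/-- A partial clipped kick is at most one plus the exact kick, at any level of the clip. -/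
theorem part_le2 {η : Env} {δ B : ℝ} (hB : 0 ≤ B) {a : ℤ} (ha : a = 1 ∨ a = -1) {t R : ℝ} (ht : |t| ≤ 1) (hR : 0 ≤ R)
    {c l k : ℕ} {x y : ℤ} (h : Flat μ s δ l a (y - x) → Real.exp (lk μ s η c l k (-a) x y) = R) :
    Real.exp ((t - a) * gw μ s η δ B a c l k x y) ≤ 1 + R := by
  by_cases hf : Flat μ s δ l a (y - x)
  · rw [kick_flat ha hf t, ← h hf]
    obtain ⟨r1, r2⟩ := theta_mem ht ha
    have r3 := mul_le_mul_of_nonneg_left (cl_le hB (lk μ s η c l k (-a) x y)) r1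
    have r5 := Real.exp_pos (lk μ s η c l k (-a) x y)
    rcases le_total 0 (lk μ s η c l k (-a) x y) with r4 | r4
    · rw [max_eq_left r4] at r3
      have r6 := mul_le_of_le_one_left r4 r2
      linarith [Real.exp_le_exp.2 (r3.trans r6)]
    · rw [max_eq_right r4, mul_zero] at r3
      linarith [Real.exp_le_one_iff.2 r3]
  · rw [kick_steep hf, mul_zero, Real.exp_zero]
    linarith

variable [IsProbabilityMeasure μ] {c₀ C : ℝ} {n₀ : ℕ}

/-- **ANY EVENT UNDER A PARTIAL CLIPPED KICK**, at any level of the clip. -/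
theorem tiltE48 (h : In μ s c₀ C n₀) {θ : ℝ} (hθ : 0 < θ) : ∃ δ₀ : ℝ, 0 < δ₀ ∧ ∀ ε : ℝ, 0 < ε → ∃ δ' : ℝ, 0 < δ' ∧
    ∃ cc : ℝ, 0 < cc ∧ ∃ N₀ : ℕ, ∀ N : ℕ, N₀ ≤ N → ∀ y : ℕ, EndOk μ s δ' N y → ∀ δ : ℝ, δ ≤ δ₀ → ∀ B : ℝ, 0 ≤ B →
    ∀ c l k : ℕ, (N : ℝ) ^ θ ≤ l → k < l → c + l ≤ N → ∀ a : ℤ, (a = 1 ∨ a = -1) → ∀ t : ℝ, |t| ≤ 1 →
    ∀ (f : Env → Px (Pn N y) → ℝ) (E : Env → Px (Pn N y) → Prop) (e1 e2 : ℝ),
    (∀ η S, f η S ≤ 1) → (∀ η S, ¬ E η S → f η S = 0) →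
    Dom μ (fun η => mf (fun S : Px (Pn N y) => pth μ s η N S.1) (fun _ => 1) (E η)) e1 →
    Dom μ (fun η => mf (fun S : Px (Pn N y) => pth μ s η N S.1) (fun S => Rw μ s c l k (-a) η S.1) (E η)) e2 →
    Dom μ (fun η => gm (wk μ s η N y δ B c l k a t) (f η))
      (4 * Real.exp (2 * (N : ℝ) ^ ε) * (e1 + e2) + Real.exp (-(N : ℝ) ^ cc)) := by
  obtain ⟨A, hA, hA1, hcA, hcB, -⟩ := cone_num h hθ
  obtain ⟨M₁, hM₁⟩ := hcA (A / 2) (by linarith) (by linarith)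
  obtain ⟨M₂, hM₂⟩ := hcB (A / 4) (A / 2) (by linarith) (by linarith)
  refine ⟨A / 4, by linarith, fun ε hε => ?_⟩
  obtain ⟨δ', hδ', c1, hc1, N₁, hN₁⟩ := small48 h hθ hε
  have x1 : ∀ᶠ N : ℕ in atTop, 4 * (N : ℝ) ^ (0 : ℝ) * Real.exp (-(1 * (N : ℝ) ^ c1)) ≤ 1 / 2 * Real.exp (-(N : ℝ) ^ (c1 / 2)) :=
    ev_exp (by norm_num) one_pos hc1 (by linarith) 0
  obtain ⟨M₀, hM₀⟩ := (x1.and (eventually_ge_atTop 1)).exists_forall_of_atTop
  refine ⟨δ', hδ', c1 / 2, by linarith, M₀ + N₁ + M₁ + M₂, fun N hN y hy δ hδ B hB c l k hl hk hcl a ha t ht f E e1 e2 f1 f2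
    hD1 hD2 => ?_⟩
  obtain ⟨y1, y2⟩ := hM₀ N (by omega)
  rw [Real.rpow_zero, one_mul, mul_one] at y1
  have y3 := Real.exp_pos (-(N : ℝ) ^ (c1 / 2))
  have hl1 : (1 : ℝ) ≤ l := by
    have : 1 ≤ l := by omega
    exact_mod_cast this
  have hwd : 0 ≤ wd μ s l := by
    unfold Pool.Agent.W_7d29a1_HS.wd
    exact mul_nonneg (Nat.cast_nonneg _) (h.vA_nonneg l)
  have ia : |(-a : ℤ)| ≤ 1 ∧ |(a : ℤ)| ≤ 1 := by rcases ha with e | e <;> rw [e] <;> norm_num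
  obtain ⟨b1, b2⟩ := hN₁ N (by omega) y hy c l k c l k hl hk.le le_rfl le_rfl hcl hk (-a) ia.1 (-a) ia.1
  obtain ⟨u, hu⟩ : ∃ u : ℝ, u = (N : ℝ) ^ ε := ⟨_, rfl⟩
  have hu0 : 0 ≤ u := by rw [hu]; positivity
  obtain ⟨bad, hbad⟩ : ∃ bad : Env → Px (Pn N y) → Prop, bad = fun η S =>
    ¬ |lk μ s η c l k (-a) (ps S c) (ps S (c + l))| ≤ (N : ℝ) ^ ε := ⟨_, rfl⟩
  have b1' : Dom μ (fun η => mf (fun S : Px (Pn N y) => pth μ s η N S.1) (fun _ => 1) (bad η)) (Real.exp (-(N : ℝ) ^ c1)) := by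
    rw [hbad]
    exact b1
  have b2' : Dom μ (fun η => mf (fun S : Px (Pn N y) => pth μ s η N S.1) (fun S => Rw μ s c l k (-a) η S.1) (bad η))
      (Real.exp (-(N : ℝ) ^ c1)) := by
    rw [hbad]
    exact b2
  have hflat : ∀ (η : Env) (S : Px (Pn N y)), Flat μ s δ l a (ps S (c + l) - ps S c) →
      Real.exp (lk μ s η c l k (-a) (ps S c) (ps S (c + l))) = Rw μ s c l k (-a) η S.1 := by
    intro η S hf
    have hf' : Flat μ s (A / 4) l a (ps S (c + l) - ps S c) := by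
      unfold Flat at hf ⊢
      exact hf.trans (mul_le_mul_of_nonneg_right (Real.rpow_le_rpow_of_exponent_le hl1 hδ) hwd)
    have q1 := cone_of_flat ha (hM₂ N (by omega) l hl) hf'
    have q2 := hM₁ N (by omega) l hl
    have r1 := in_of_cone q2.1 q2.2 q1 a ia.2
    have r2 := in_of_cone q2.1 q2.2 q1 0 (by norm_num)
    rw [add_zero] at r2
    exact exp_lk η hk.le (by linarith only [r1.1]) (by linarith only [r1.2]) r2.1 r2.2
  have key : ∀ η, gm (wk μ s η N y δ B c l k a t) (f η) ≤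
      4 * Real.exp (2 * u) * (mf (fun S : Px (Pn N y) => pth μ s η N S.1) (fun _ => 1) (E η) +
        mf (fun S : Px (Pn N y) => pth μ s η N S.1) (fun S => Rw μ s c l k (-a) η S.1) (E η)) +
      2 * (mf (fun S : Px (Pn N y) => pth μ s η N S.1) (fun _ => 1) (bad η) +
        mf (fun S : Px (Pn N y) => pth μ s η N S.1) (fun S => Rw μ s c l k (-a) η S.1) (bad η)) := by
    intro η
    have ew : wk μ s η N y δ B c l k a t = lw μ s η N (Pn N y) +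
        fun S : Px (Pn N y) => (t - a) * gw μ s η δ B a c l k (ps S c) (ps S (c + l)) := rfl
    rw [ew]
    refine gm_tilt (A := fun S : Px (Pn N y) => pth μ s η N S.1) (R := fun S : Px (Pn N y) => Rw μ s c l k (-a) η S.1) (E := E η)
      (bad := bad η) (fun S => Mod92.pth_pos η N S.1) (fun S => Mod92.exp_lw η S) (fun S => Rw_nonneg _ _ _ _ _ _) hu0
      (fun S => part_le2 hB ha ht (Rw_nonneg _ _ _ _ _ _) (hflat η S)) (fun S hS => ?_) (fun S hS => ?_) (f1 η) (f2 η)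
    · rw [hbad, not_not, ← hu] at hS
      exact part_ge hB ha ht hu0 hS
    · rw [hbad, not_not, ← hu] at hS
      exact (Rw_le_exp hk.le S.1).trans (Real.exp_le_exp.2 (abs_le.1 hS).2)
  refine (((hD1.add hD2).const_mul (r := 4 * Real.exp (2 * u)) (by positivity)).add
    ((b1'.add b2').const_mul (r := 2) (by norm_num))).mono key ?_
  rw [hu]
  linarith only [y1, y3]

/-- **THE MASS OUT OF THE CONE UNDER A PARTIAL CLIPPED KICK**, at any level of the clip; the cone is arbitrary. -/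
theorem tilt48 (h : In μ s c₀ C n₀) {θ : ℝ} (hθ : 0 < θ) : ∃ δ₀ : ℝ, 0 < δ₀ ∧ ∀ κ : ℝ, 0 < κ → ∃ δ' : ℝ, 0 < δ' ∧
    ∃ cc : ℝ, 0 < cc ∧ ∃ N₀ : ℕ, ∀ N : ℕ, N₀ ≤ N → ∀ y : ℕ, EndOk μ s δ' N y → ∀ δ : ℝ, δ ≤ δ₀ → ∀ B : ℝ, 0 ≤ B →
    ∀ c l k c' l' : ℕ, (N : ℝ) ^ θ ≤ l → k < l → c' ≤ c → c + l ≤ c' + l' → c' + l' ≤ N → ∀ a : ℤ, (a = 1 ∨ a = -1) →
    ∀ t : ℝ, |t| ≤ 1 → ∀ f : Env → Px (Pn N y) → ℝ, (∀ η S, f η S ≤ 1) → (∀ η S, ¬ OutC μ s κ c' l' S.1 → f η S = 0) →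
    Dom μ (fun η => gm (wk μ s η N y δ B c l k a t) (f η)) (Real.exp (-(N : ℝ) ^ cc)) := by
  obtain ⟨δ₀, hδ₀, hT⟩ := tiltE48 (μ := μ) (s := s) h hθ
  refine ⟨δ₀, hδ₀, fun κ hκ => ?_⟩
  obtain ⟨δa, hδa, c1, hc1, N₁, hN₁⟩ := cone48 h hθ hκ
  obtain ⟨δb, hδb, c2, hc2, N₂, hN₂⟩ := hT (c1 / 4) (by linarith)
  obtain ⟨m, hm⟩ : ∃ m : ℝ, m = min (c1 / 2) c2 := ⟨_, rfl⟩
  have hm0 : 0 < m := hm ▸ lt_min (by linarith) hc2
  have hm1 : m ≤ c1 / 2 := hm ▸ min_le_left _ _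
  have hm2 : m ≤ c2 := hm ▸ min_le_right _ _
  have x1 : ∀ᶠ N : ℕ in atTop, 9 * (N : ℝ) ^ (0 : ℝ) * Real.exp (-(1 * (N : ℝ) ^ m)) ≤ 1 / 2 * Real.exp (-(N : ℝ) ^ (m / 2)) :=
    ev_exp (by norm_num) one_pos hm0 (by linarith) 0
  have x2 : ∀ᶠ N : ℕ in atTop, 2 * (N : ℝ) ^ (c1 / 4) ≤ 1 / 4 * (N : ℝ) ^ (c1 / 2) := ev_pow_le (by linarith) (by norm_num)
  have x3 : ∀ᶠ N : ℕ in atTop, 2 * (N : ℝ) ^ (c1 / 2) ≤ 1 * (N : ℝ) ^ c1 := ev_pow_le (by linarith) (by norm_num)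
  obtain ⟨M₀, hM₀⟩ := ((x1.and (x2.and x3)).and (eventually_ge_atTop 1)).exists_forall_of_atTop
  refine ⟨min δa δb, lt_min hδa hδb, m / 2, by linarith, M₀ + N₁ + N₂, fun N hN y hy δ hδ B hB c l k c' l' hl hk h1 h2 h3 a ha t ht f
    f1 f2 => ?_⟩
  obtain ⟨⟨y1, y2, y3⟩, y4⟩ := hM₀ N (by omega)
  rw [Real.rpow_zero, one_mul, mul_one] at y1
  have hNR : (1 : ℝ) ≤ N := by exact_mod_cast y4
  have ia : |(-a : ℤ)| ≤ 1 := by rcases ha with e | e <;> rw [e] <;> norm_num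
  obtain ⟨q1, q2⟩ := hN₁ N (by omega) y (hy.mono (min_le_left _ _) y4) c l k c' l' hl hk.le h1 h2 h3 (-a) ia
  refine (hN₂ N (by omega) y (hy.mono (min_le_right _ _) y4) δ hδ B hB c l k hl hk (by omega) a ha t ht f
    (fun _ S => OutC μ s κ c' l' S.1) _ _ f1 f2 q1 q2).mono (fun _ => le_rfl) ?_
  have z1 : Real.exp (2 * (N : ℝ) ^ (c1 / 4)) * Real.exp (-(N : ℝ) ^ c1) ≤ Real.exp (-(N : ℝ) ^ m) := by
    rw [← Real.exp_add]
    refine Real.exp_le_exp.2 ?_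
    have z2 : (N : ℝ) ^ m ≤ (N : ℝ) ^ (c1 / 2) := Real.rpow_le_rpow_of_exponent_le hNR hm1
    have z3 : 0 ≤ (N : ℝ) ^ (c1 / 2) := by positivity
    linarith only [y2, y3, z2, z3]
  have z4 : Real.exp (-(N : ℝ) ^ c2) ≤ Real.exp (-(N : ℝ) ^ m) :=
    Real.exp_le_exp.2 (neg_le_neg (Real.rpow_le_rpow_of_exponent_le hNR hm2))
  have z5 := Real.exp_pos (-(N : ℝ) ^ (m / 2))
  linarith only [y1, z1, z4, z5]

/-- The same at the frame: centred windows, the event `not in the cone` of a window which contains the window of the row. -/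
theorem tiltC48 (h : In μ s c₀ C n₀) {θ : ℝ} (hθ : 0 < θ) : ∃ δ₀ : ℝ, 0 < δ₀ ∧ ∀ δ₁ : ℝ, 0 < δ₁ → ∃ δ' : ℝ, 0 < δ' ∧
    ∃ cc : ℝ, 0 < cc ∧ ∃ N₀ : ℕ, ∀ N : ℕ, N₀ ≤ N → ∀ y : ℕ, EndOk μ s δ' N y → ∀ δ : ℝ, δ ≤ δ₀ → ∀ B : ℝ, 0 ≤ B →
    ∀ b j c' d' : ℕ, (N : ℝ) ^ θ ≤ b → b ≤ j → c' ≤ j - b → j + b ≤ d' → d' ≤ N → ∀ a : ℤ, (a = 1 ∨ a = -1) →
    ∀ t : ℝ, |t| ≤ 1 → ∀ f : Env → Px (Pn N y) → ℝ, (∀ η S, f η S ≤ 1) → (∀ η S, Cn μ s δ₁ c' d' S → f η S = 0) →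
    Dom μ (fun η => gm (Mod92.wt μ s η N (Pn N y) δ B b j a t) (f η)) (Real.exp (-(N : ℝ) ^ cc)) := by
  obtain ⟨δ₀, hδ₀, hT⟩ := tilt48 (μ := μ) (s := s) h hθ
  refine ⟨δ₀, hδ₀, fun δ₁ hδ₁ => ?_⟩
  obtain ⟨δ', hδ', cc, hcc, N₀, hN₀⟩ := hT δ₁ hδ₁
  refine ⟨δ', hδ', cc, hcc, N₀ + 1, fun N hN y hy δ hδ B hB b j c' d' hb hbj h1 h2 h3 a ha t ht f f1 f2 => ?_⟩
  have hNR : (1 : ℝ) ≤ N := by exact_mod_cast (show 1 ≤ N by omega)
  have hb1 : (1 : ℝ) ≤ b := (Real.one_le_rpow hNR hθ.le).trans hb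
  have hb1' : 1 ≤ b := by exact_mod_cast hb1
  have hl : (N : ℝ) ^ θ ≤ ((j + b - (j - b) : ℕ) : ℝ) := by
    have : b ≤ j + b - (j - b) := by omega
    have q2 : (b : ℝ) ≤ ((j + b - (j - b) : ℕ) : ℝ) := by exact_mod_cast this
    exact hb.trans q2
  have e1 : j - b + (j + b - (j - b)) = j + b := by omega
  have hdw : 1 ≤ d' - c' := by omega
  have hkey := hN₀ N (by omega) y hy δ hδ B hB (j - b) (j + b - (j - b)) (j - (j - b)) c' (d' - c') hl (by omega) h1 (by omega)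
    (by omega) a ha t ht f f1 fun η S hS => f2 η S (by
      unfold OutC at hS
      rw [not_not] at hS
      unfold LocM18.Cn
      have e2 : ((ps S d' - ps S c' : ℤ) : ℝ) = ((dw c' (d' - c') S.1 : ℤ) : ℝ) := by
        unfold dw ps
        rw [show c' + (d' - c') = d' by omega]
      rw [e2]
      have e3 : wd μ s (d' - c') ≤ wd' μ s (d' - c') := le_max_right _ _
      have e4 : (0 : ℝ) ≤ ((d' - c' : ℕ) : ℝ) ^ δ₁ := by positivity
      have e5 := mul_le_mul_of_nonneg_left e3 e4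
      linarith only [hS, e5])
  refine hkey.mono (fun η => le_of_eq ?_) le_rfl
  have e6 : Mod92.wt μ s η N (Pn N y) δ B b j a t = wk μ s η N y δ B (j - b) (j + b - (j - b)) (j - (j - b)) a t := by
    funext S
    unfold Mod92.wt wk Mod92.gj
    rw [e1]
    simp
  rw [e6]

end

end Pool.Agent.W_7d29a1_C0.Tv48
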