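import Pool.Agent.W_7d29a1_C0.Cor45M
import Pool.Agent.W_7d29a1_C0.EvV50
import Pool.Agent.W_7d29a1_C0.TvI48

/-!
MP_7d29a1_pr, [CURV0] / [C0], leaf E2.6 (helper45): **THE INPUTS OF THE MICRO TIE, WITH THE NUMBERS.** `Mic45` (part R) and `MicL45`
(part L) for the half response of the window of the row `j`, at the tilted weights `wt .. t`, in the right order of the constants: the
level `B ≤ N ^ β` first, then the clip exponent `δ`, then the cone. Errors `exp (- N ^ cc)`.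
-/

set_option autoImplicit false
set_option linter.unusedSectionVars false
set_option linter.unusedVariables false

namespace Pool.W7d29a1.C0.C45

open Finset MeasureTheory Filter Topology Pool.Agent.W_7d29a1_F Pool.Agent.W_7d29a1_X Pool.Agent.W_7d29a1_C0.Mod92
open Pool.Agent.W_7d29a1_C0.Swap57 Pool.Agent.W_7d29a1_C0.Blk18 Pool.Agent.W_7d29a1_C0.NM82
open Pool.Agent.W_7d29a1_HS (In wd)
open Pool.Agent.W_7d29a1_C0.MicE14 (rh rh_nonneg nn Cq)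
open Pool.Agent.W_7d29a1_C0.T72 (Sp72 Rb72 ind72 ind72_nonneg ind72_le_one meas_ind72 meas_fix crs_pB72 ps_of_pB72)
open Pool.Agent.W_7d29a1_C0.EvT50 (nC nC_nonneg nC_le_one GW1 GwW.gw1 RpM cE2_diag rb_tau ev_pw50 ev_exp50 full_Pok50)
open Pool.Agent.W_7d29a1_C0.GwA50 (GwW)
open Pool.Agent.W_7d29a1_C0.Tv48 (Dom EndOk tiltC48)
open Pool.W7d29a1.C0 (gz gm gz_ne gz_pos gm_nonneg gm_mono gm_const PP PP_eq PP_mono PP_nonneg PP_add PP_smul)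
open Pool.W7d29a1.C0.VT31
open Pool.W7d29a1.C0.R43

noncomputable section

section Mod

variable {μ : Measure ℝ} {s : ℝ} {N : ℕ} {Q : Finset (Finset ℕ)} [IsProbabilityMeasure μ] [SwQ Q] [Nonempty (Px Q)]
variable {c0 K : ℕ} {u : Finset ℕ → Env → Px Q → ℝ} {Y Y' : Type*} [DecidableEq Y] [DecidableEq Y']

omit [IsProbabilityMeasure μ] [SwQ Q] in
theorem tauX_self45 (w : Px Q → ℝ) (r : Px Q → Y) (b j : ℕ) (M : ℝ) (S : Px Q) :
    TauX45 w r r b j M S ↔ Pool.Agent.W_7d29a1_C0.EvT50.TauM w r b j M S :=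
  or_congr (tauM_self w r _ _ M S) (tauM_self w r _ _ M S)

theorem MicL45.mono {g : Env × Finset ℕ → Px Q → ℝ} {J : Finset ℕ} {r : ℕ → Px Q → Y} {q : ℕ → Px Q → Y'} {B e2 e2' rr rr' : ℝ}
    {T : ℕ → Env × Finset ℕ → Px Q → Prop} (h : MicL45 μ s N Q u g J r q B e2 rr T) (he : e2 ≤ e2') (hr : rr ≤ rr') :
    MicL45 μ s N Q u g J r q B e2' rr' T := by
  obtain ⟨h1, h2, h3, h4, bad, h5, h6, h7, h8⟩ := h
  exact ⟨h1, h2, h3, h4.trans he, bad, h5, h6, fun m hm ω S => (h7 m hm ω S).trans (by linarith), fun m hm => (h8 m hm).trans hr⟩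

/-- **PART R FROM PART L**: one condition `pJ 0 m`. -/
theorem MicL45.mic {θ D M M' B e2 rr : ℝ} {b j : ℕ} {g : Env × Finset ℕ → Px Q → ℝ} {J : Finset ℕ} (hD : 0 ≤ D) (hθ : θ ≤ D / K)
    (hM : 5 * M + 4 * D ≤ 5 * M') (hJ : ∀ m ∈ J, c0 + K ≤ m)
    (h : MicL45 μ s N Q u g J (fun m => pJ 0 m) (fun m => pJ 0 m) B e2 rr (fun m ω => TauX45 (wm μ s N Q ω) (pJ 0 m) (pJ 0 m) b j M)) :
    Mic45 μ s N Q u g J c0 K θ B e2 rr (fun m ω => Pool.Agent.W_7d29a1_C0.EvT50.TauM (wm μ s N Q ω) (pJ 0 m) b j M)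
      (fun m ω => Pool.Agent.W_7d29a1_C0.EvT50.TauM (wm μ s N Q ω) (pJ 0 m) b j M') := by
  obtain ⟨h1, h2, h3, h4, bad, h5, h6, h7, h8⟩ := h
  refine ⟨h1, h2, fun m hm => rb_tau (hJ m hm) hD hθ hM, h4, bad, h5, h6, fun m hm ω S => ?_, h8⟩
  have k := h7 m hm ω S
  rw [cE2_diag (wu μ s N Q u ω) (pJ 0 m) (fun z z' => |g ω z - g ω z'|) S] at k
  have e : ind72 (fun ω => TauX45 (wm μ s N Q ω) (pJ 0 m) (pJ 0 m) b j M) ω S =
      ind72 (fun ω => Pool.Agent.W_7d29a1_C0.EvT50.TauM (wm μ s N Q ω) (pJ 0 m) b j M) ω S := by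
    unfold ind72
    by_cases hh : Pool.Agent.W_7d29a1_C0.EvT50.TauM (wm μ s N Q ω) (pJ 0 m) b j M S
    · rw [if_pos hh, if_pos ((tauX_self45 _ _ _ _ _ _).2 hh)]
    · rw [if_neg hh, if_neg fun h => hh ((tauX_self45 _ _ _ _ _ _).1 h)]
  rwa [e] at k

end Mod

/-! ### The tilt of the row -/

section Tilt

variable {μ : Measure ℝ} {s : ℝ} {N : ℕ} {Q : Finset (Finset ℕ)}

/-- The tilt of the row `j` at the parameter `t`. -/
def ut45 (μ : Measure ℝ) (s : ℝ) (Q : Finset (Finset ℕ)) (δ B : ℝ) (b j : ℕ) (t : ℝ) (A : Finset ℕ) (η : Env) (S : Px Q) : ℝ :=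
  (t - sg A j) * gj μ s η δ B b j (sg A j) S

theorem abs_ut45 {δ B : ℝ} (hB : 0 ≤ B) (b j : ℕ) {t : ℝ} (ht : |t| ≤ 1) (A : Finset ℕ) (η : Env) (S : Px Q) :
    |ut45 μ s Q δ B b j t A η S| ≤ B := by
  unfold ut45
  rw [abs_mul]
  have h1 : |t - sg A j| ≤ 2 := by
    refine (abs_sub _ _).trans ?_
    have := abs_sg A j
    rw [this]
    linarith
  have h2 := abs_gj (μ := μ) (s := s) (δ := δ) η hB (abs_sg A j).le b j S
  calc |t - sg A j| * |gj μ s η δ B b j (sg A j) S| ≤ 2 * (B / 2) := mul_le_mul h1 h2 (abs_nonneg _) (by norm_num)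
    _ = B := by ring

theorem meas_ut45 (δ B : ℝ) (b j : ℕ) (t : ℝ) (S : Px Q) : Measurable fun ω : Env × Finset ℕ => ut45 μ s Q δ B b j t ω.2 ω.1 S :=
  meas_om fun A => by
    show Measurable fun η : Env => (t - sg A j) * gj μ s η δ B b j (sg A j) S
    exact (meas_gj δ B b j (sg A j) S).const_mul _

theorem meas_gs45 (δ B : ℝ) (b j : ℕ) (S : Px Q) : Measurable fun ω : Env × Finset ℕ => gj μ s ω.1 δ B b j (sg ω.2 j) S :=
  meas_om fun A => meas_gj δ B b j (sg A j) S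

theorem wu_ut45 (δ B : ℝ) (b j : ℕ) (t : ℝ) (ω : Env × Finset ℕ) :
    wu μ s N Q (ut45 μ s Q δ B b j t) ω = Pool.Agent.W_7d29a1_C0.Mod92.wt μ s ω.1 N Q δ B b j (sg ω.2 j) t := by
  funext S
  unfold wu ut45 Pool.Agent.W_7d29a1_C0.Mod92.wt
  rw [Pi.add_apply, Pi.smul_apply, smul_eq_mul]

end Tilt

/-! ### The numbers -/

section Num

variable {μ : Measure ℝ} {s : ℝ} [IsProbabilityMeasure μ] {c C : ℝ} {n₀ : ℕ}

/-- **THE MICRO INPUT OF PART L, WITH THE NUMBERS** (the constants: `δ₀`, `β`, then the clip exponent `δ`, then `δ'`, `cc`). -/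
theorem micL_num45 (hin : In μ s c C n₀) {κ εM : ℝ} (hκ : 0 < κ) (hεM : 0 < εM) :
    ∃ δ₀ β : ℝ, 0 < δ₀ ∧ 0 < β ∧ ∀ δ : ℝ, 0 < δ → δ ≤ δ₀ → ∃ δ' cc : ℝ, 0 < δ' ∧ 0 < cc ∧ ∃ N₀ : ℕ, ∀ N : ℕ, N₀ ≤ N →
      ∀ y : ℕ, EndOk μ s δ' N y → ∀ [Nonempty (Px (Pn N y))], ∀ B : ℝ, 0 ≤ B → B ≤ (N : ℝ) ^ β → ∀ b j : ℕ, (N : ℝ) ^ κ ≤ b → b ≤ j →
      j + b ≤ N → ∀ t : ℝ, |t| ≤ 1 → ∀ M : ℝ, (N : ℝ) ^ εM ≤ M → ∀ (Y Y' : Type) [DecidableEq Y] [DecidableEq Y'] (J : Finset ℕ)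
      (r : ℕ → Px (Pn N y) → Y) (q : ℕ → Px (Pn N y) → Y'), (∀ m ∈ J, Crs (r m) (pJ (Q := Pn N y) (j - b) (j + b))) →
      (∀ m ∈ J, Crs (q m) (r m)) →
      MicL45 μ s N (Pn N y) (ut45 μ s (Pn N y) δ B b j t) (fun ω => gj μ s ω.1 δ B b j (sg ω.2 j)) J r q B
        (Real.exp (-(N : ℝ) ^ cc)) (Real.exp (-(N : ℝ) ^ cc)) (fun m ω => TauX45 (wm μ s N (Pn N y) ω) (r m) (q m) b j M) := by
  obtain ⟨ε, hε⟩ : ∃ x : ℝ, x = εM / 2 := ⟨_, rfl⟩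
  have hε0 : 0 < ε := by rw [hε]; positivity
  obtain ⟨c₁, hc₁, hG⟩ := Pool.Agent.W_7d29a1_C0.GwA50.gw_ord73 hin hκ hε0
  obtain ⟨δ₀, hδ₀, hT⟩ := tiltC48 (μ := μ) (s := s) hin hκ
  refine ⟨δ₀, ε, hδ₀, hε0, fun δ hδ hδ1 => ?_⟩
  obtain ⟨δ₁, hδ₁, hδ₁', N₁, hN₁⟩ := hG δ hδ
  obtain ⟨δ', hδ', c₂, hc₂, N₂, hN₂⟩ := hT δ₁ hδ₁
  obtain ⟨cc, hcc⟩ : ∃ x : ℝ, x = min (min c₁ c₂) εM / 2 := ⟨_, rfl⟩
  have hcc0 : 0 < cc := by rw [hcc]; exact half_pos (lt_min (lt_min hc₁ hc₂) hεM)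
  have hc1' : cc < c₁ := by
    rw [hcc]
    have h1 : min (min c₁ c₂) εM ≤ c₁ := (min_le_left _ _).trans (min_le_left _ _)
    have h2 : 0 < min (min c₁ c₂) εM := lt_min (lt_min hc₁ hc₂) hεM
    linarith
  have hc2' : cc < c₂ := by
    rw [hcc]
    have h1 : min (min c₁ c₂) εM ≤ c₂ := (min_le_left _ _).trans (min_le_right _ _)
    have h2 : 0 < min (min c₁ c₂) εM := lt_min (lt_min hc₁ hc₂) hεM
    linarith
  have hc3' : cc < εM := by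
    rw [hcc]
    have h1 : min (min c₁ c₂) εM ≤ εM := min_le_right _ _
    have h2 : 0 < min (min c₁ c₂) εM := lt_min (lt_min hc₁ hc₂) hεM
    linarith
  have v1 := ev_pw50 hc1' 2
  have v2 := ev_pw50 hc2' 2
  have v3 := ev_pw50 hc3' 1
  have v4 := ev_pw50 (show ε < εM by rw [hε]; linarith) 8
  have v5 := ev_pw50 hcc0 8
  obtain ⟨N₃, hN₃⟩ := eventually_atTop.1 (v1.and (v2.and (v3.and (v4.and v5))))
  refine ⟨δ', cc, hδ', hcc0, max (max N₁ N₂) (max N₃ 1), fun N hN y hy hne B hB hBN b j hb hbj hjN t ht M hM Y Y' _ _ J r q hr hq => ?_⟩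
  have k1 : N₁ ≤ N := (le_max_left _ _).trans ((le_max_left _ _).trans hN)
  have k2 : N₂ ≤ N := (le_max_right _ _).trans ((le_max_left _ _).trans hN)
  have k3 : N₃ ≤ N := (le_max_left _ _).trans ((le_max_right _ _).trans hN)
  have k4 : 1 ≤ N := (le_max_right _ _).trans ((le_max_right _ _).trans hN)
  obtain ⟨m1, m2, m3, m4, m5⟩ := hN₃ N k3
  have hNR : (1 : ℝ) ≤ N := by exact_mod_cast k4
  rw [Real.rpow_zero, mul_one] at m5
  have p1 : (0 : ℝ) < (N : ℝ) ^ cc := Real.rpow_pos_of_pos (by linarith) _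
  -- the environments
  have h1 : (law μ {η | ¬ GW1 μ s N (Pn N y) δ δ₁ B (Real.exp ((N : ℝ) ^ ε)) (Real.exp (-(N : ℝ) ^ c₁)) b j η}).toReal ≤
      Real.exp (-(N : ℝ) ^ c₁) := by
    have e1 : {η | ¬ GW1 μ s N (Pn N y) δ δ₁ B (Real.exp ((N : ℝ) ^ ε)) (Real.exp (-(N : ℝ) ^ c₁)) b j η} ⊆
        {η | ¬ GwW μ s N κ δ δ₁ ε c₁ η} := fun η hη hG' =>
      hη (GwW.gw1 hG' (full_Pn N y) hjN (by rw [Nat.sub_sub_self hbj]; exact hb) hb B)
    exact ENNReal.toReal_le_of_le_ofReal (Real.exp_pos _).le ((measure_mono e1).trans (hN₁ N k1))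
  -- the cone
  have h2 : ∫ ω, gm (wu μ s N (Pn N y) (ut45 μ s (Pn N y) δ B b j t) ω) (nC μ s δ₁ (Pn N y) b j) ∂(Pm μ N) ≤
      Real.exp (-(N : ℝ) ^ c₂) := by
    have e0 : ∀ A : Finset ℕ, ∀ η : Env, wu μ s N (Pn N y) (ut45 μ s (Pn N y) δ B b j t) (η, A) =
        Pool.Agent.W_7d29a1_C0.Mod92.wt μ s η N (Pn N y) δ B b j (sg A j) t := fun A η => wu_ut45 δ B b j t (η, A)
    have mm : ∀ A : Finset ℕ, Measurable fun η : Env =>
        gm (wu μ s N (Pn N y) (ut45 μ s (Pn N y) δ B b j t) (η, A)) (nC μ s δ₁ (Pn N y) b j) := fun A =>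
      meas_gm (w := fun η : Env => wu μ s N (Pn N y) (ut45 μ s (Pn N y) δ B b j t) (η, A))
        (fun S => (meas_lw S).add (meas_fix (meas_ut45 δ B b j t S) A)) (f := fun _ => nC μ s δ₁ (Pn N y) b j) fun S => measurable_const
    have ii : ∀ A : Finset ℕ, Integrable (fun η : Env =>
        gm (wu μ s N (Pn N y) (ut45 μ s (Pn N y) δ B b j t) (η, A)) (nC μ s δ₁ (Pn N y) b j)) (law μ) := fun A =>
      Integrable.of_bound (mm A).aestronglyMeasurable 1 (Filter.Eventually.of_forall fun η => by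
        rw [Real.norm_eq_abs, abs_of_nonneg (gm_nonneg _ (nC_nonneg δ₁ b j))]
        exact (gm_mono _ (g := fun _ => 1) (nC_le_one δ₁ b j)).trans (gm_const _ _).le)
    rw [int_Pm (Φ := fun ω => gm (wu μ s N (Pn N y) (ut45 μ s (Pn N y) δ B b j t) ω) (nC μ s δ₁ (Pn N y) b j)) (fun A _ => ii A) mm]
    have h3 : ∀ A ∈ (range N).powerset, ∫ η, gm (wu μ s N (Pn N y) (ut45 μ s (Pn N y) δ B b j t) (η, A)) (nC μ s δ₁ (Pn N y) b j) ∂(law μ) ≤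
        Real.exp (-(N : ℝ) ^ c₂) := fun A _ => by
      have h4 := hN₂ N k2 y hy δ hδ1 B hB b j (j - b) (j + b) hb hbj le_rfl le_rfl hjN (sg A j) (by
        unfold sg
        by_cases h6 : j ∈ A <;> simp [h6]) t ht (fun _ => nC μ s δ₁ (Pn N y) b j) (fun η S => nC_le_one δ₁ b j S)
        (fun η S hS => if_pos hS)
      have h5 := h4.int fun η => gm_nonneg _ (nC_nonneg δ₁ b j)
      simp only [e0]
      exact h5
    have h4 := mul_le_mul_of_nonneg_left (sum_le_sum h3) (show (0 : ℝ) ≤ (2 ^ N : ℝ)⁻¹ by positivity)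
    refine h4.trans (le_of_eq ?_)
    rw [sum_const, card_powerset, card_range, nsmul_eq_mul]
    push_cast
    rw [← mul_assoc, inv_mul_cancel₀ (by positivity), one_mul]
  have h3 := micL_of45 (μ := μ) (s := s) (N := N) (Q := Pn N y) (u := ut45 μ s (Pn N y) δ B b j t) (meas_ut45 δ B b j t)
    (Du := B) (fun A η S => abs_ut45 hB b j ht A η S) (δ := δ) (δ₁ := δ₁) (B := B) (M := M) (b := b) (j := j) hB (Real.exp_pos _).le
    (Real.exp_pos _).le (J := J) (r := r) (q := q) (meas_gs45 δ B b j) hr hq h1 h2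
  -- the numbers
  have q1 : Real.exp (-(N : ℝ) ^ c₁) ≤ Real.exp (-(2 * (N : ℝ) ^ cc)) := Real.exp_le_exp.2 (by linarith)
  have q2 : Real.exp (-(N : ℝ) ^ c₂) ≤ Real.exp (-(2 * (N : ℝ) ^ cc)) := Real.exp_le_exp.2 (by linarith)
  have q4 : Real.exp (-(2 * (N : ℝ) ^ cc)) ≤ Real.exp (-(N : ℝ) ^ cc) / 4 := by
    have e1 : Real.exp (-(2 * (N : ℝ) ^ cc)) = Real.exp (-(N : ℝ) ^ cc) * Real.exp (-(N : ℝ) ^ cc) := by
      rw [← Real.exp_add]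
      congr 1
      ring
    have e2 : Real.exp (-(N : ℝ) ^ cc) ≤ 1 / 4 := by
      have e3 : Real.exp (-(N : ℝ) ^ cc) ≤ Real.exp (-8) := Real.exp_le_exp.2 (by linarith)
      refine e3.trans ?_
      rw [Real.exp_neg, one_div]
      refine inv_anti₀ (by norm_num) ?_
      have := Real.add_one_le_exp (8 : ℝ)
      linarith
    rw [e1]
    have := mul_le_mul_of_nonneg_left e2 (Real.exp_pos (-(N : ℝ) ^ cc)).le
    linarith
  have q3 : Real.exp (4 * B) * (Real.exp ((N : ℝ) ^ ε) * (2 * Real.exp (-(5 * M)))) ≤ 2 * Real.exp (-(2 * (N : ℝ) ^ cc)) := by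
    have e1 : Real.exp (4 * B) * (Real.exp ((N : ℝ) ^ ε) * (2 * Real.exp (-(5 * M)))) =
        2 * Real.exp (4 * B + (N : ℝ) ^ ε + -(5 * M)) := by
      rw [Real.exp_add, Real.exp_add]
      ring
    rw [e1]
    have e2 : 4 * B + (N : ℝ) ^ ε + -(5 * M) ≤ -(2 * (N : ℝ) ^ cc) := by linarith
    have := Real.exp_le_exp.2 e2
    linarith
  have q5 := (Real.exp_pos (-(N : ℝ) ^ cc)).le
  refine h3.mono ?_ ?_
  · linarith
  · linarith

end Num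

end

end Pool.W7d29a1.C0.C45
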