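import Pool.Agent.W_7d29a1_C0.Cor45H
import Pool.Agent.W_7d29a1_C0.Cor45N

/-!
MP_7d29a1_pr, [CURV0] / [C0], leaf E2.6, PART L (helper45): **THE DATA OF A ROW EXIST** (`rl45`), exponents in the order of the frame.
-/

set_option autoImplicit false
set_option linter.unusedSectionVars false
set_option linter.unusedVariables false

namespace Pool.W7d29a1.C0.C45

open Finset MeasureTheory Filter Topology Pool.Agent.W_7d29a1_F Pool.Agent.W_7d29a1_X Pool.Agent.W_7d29a1_C0.Mod92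
open Pool.Agent.W_7d29a1_HS (In)
open Pool.Agent.W_7d29a1_C0.Tv48 (EndOk)
open Pool.Agent.W_7d29a1_C0.T72 (uj72)
open Pool.Agent.W_7d29a1_C0.MicN96 (Rw96 rw96)
open Pool.Agent.W_7d29a1_C0.EvT50 (ev_pw50 ev_exp50 full_Pok50)
open Pool.W7d29a1.C0.VT31
open Pool.W7d29a1.C0.H27 (PA tA)

noncomputable section

variable {μ : Measure ℝ} {s : ℝ}

/-- The logarithm is smaller than any power. -/
theorem ev_log45 {x : ℝ} (hx : 0 < x) (C : ℝ) : ∀ᶠ N : ℕ in atTop, C * Real.log (N + 1) ≤ (N : ℝ) ^ x := by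
  have h1 := ev_pw50 (show x / 2 < x by linarith) (|C| * (2 ^ (x / 2) * (2 / x)))
  filter_upwards [h1, eventually_ge_atTop 1] with N h2 hN1
  have hN : (1 : ℝ) ≤ N := by exact_mod_cast hN1
  have h3 : Real.log (N + 1) ≤ (N + 1 : ℝ) ^ (x / 2) / (x / 2) := Real.log_le_rpow_div (by linarith) (by linarith)
  have h4 : (N + 1 : ℝ) ^ (x / 2) ≤ 2 ^ (x / 2) * (N : ℝ) ^ (x / 2) := by
    rw [← Real.mul_rpow (by norm_num) (by linarith)]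
    exact Real.rpow_le_rpow (by linarith) (by linarith) (by linarith)
  have h5 : 0 ≤ Real.log (N + 1) := Real.log_nonneg (by linarith)
  calc C * Real.log (N + 1) ≤ |C| * Real.log (N + 1) := mul_le_mul_of_nonneg_right (le_abs_self C) h5
    _ ≤ |C| * ((N + 1 : ℝ) ^ (x / 2) / (x / 2)) := mul_le_mul_of_nonneg_left h3 (abs_nonneg C)
    _ ≤ |C| * ((2 ^ (x / 2) * (N : ℝ) ^ (x / 2)) / (x / 2)) := by gcongr
    _ = |C| * (2 ^ (x / 2) * (2 / x)) * (N : ℝ) ^ (x / 2) := by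
      field_simp
    _ ≤ _ := h2

/-- **THE DATA OF A ROW, PART L, EXIST.** -/
theorem rl45 [IsProbabilityMeasure μ] {c C : ℝ} {n₀ : ℕ} (h : In μ s c C n₀)
    (hQI : ∀ p : ℝ, 1 < p → ∃ C θ0 : ℝ, 0 ≤ C ∧ 0 < θ0 ∧ H27.QI μ p C θ0) {κ ε εM K' : ℝ} (hκ : 0 < κ) (hκ1 : κ ≤ 1) (hε : 0 < ε)
    (hε1 : ε ≤ 1) (hεM : 0 < εM) (hK' : 4 ≤ K') :
    ∃ β γ₀ : ℝ, 0 < β ∧ 0 < γ₀ ∧ ∀ γ : ℝ, 0 < γ → γ ≤ γ₀ → ∃ δ' : ℝ, 0 < δ' ∧ ∃ N₀ : ℕ, ∀ N : ℕ, N₀ ≤ N → ∀ y : ℕ, y ≤ N →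
      EndOk μ s δ' N y → ∀ [Nonempty (Px (Pn N y))], ∀ B : ℝ, 0 ≤ B → B ≤ (N : ℝ) ^ β → ∀ b j : ℕ, (N : ℝ) ^ κ ≤ b → b ≤ j →
      ∀ t : ℝ, |t| ≤ 1 → ∀ c0 K : ℕ, j + b ≤ c0 → (N : ℝ) ^ κ ≤ K → c0 + K ≤ N →
        RL45 μ s N (Pn N y) γ B b j t c0 K ε εM K' := by
  obtain ⟨β₁, γ₁, hβ₁, hγ₁, hR⟩ := rw96 (μ := μ) (s := s) h hQI hκ hκ1 hε hε1 hεM hK'
  obtain ⟨γ₂, β₂, hγ₂, hβ₂, hmic⟩ := micL_num45 (μ := μ) (s := s) h hκ hεM
  obtain ⟨δ₃, β₃, hδ₃, hβ₃, N₃, hE⟩ := H7.e0_finD (μ := μ) (s := s) h hQI hκ hκ1 2 hε (by linarith : 0 ≤ K')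
  obtain ⟨β, hβ⟩ : ∃ x : ℝ, x = min (min β₁ β₂) (min β₃ εM) / 2 := ⟨_, rfl⟩
  have hβm : 0 < min (min β₁ β₂) (min β₃ εM) := lt_min (lt_min hβ₁ hβ₂) (lt_min hβ₃ hεM)
  have hβ0 : 0 < β := by rw [hβ]; exact half_pos hβm
  have x1 : β ≤ β₁ := by
    have : min (min β₁ β₂) (min β₃ εM) ≤ β₁ := (min_le_left _ _).trans (min_le_left _ _)
    linarith
  have x2 : β ≤ β₂ := by
    have : min (min β₁ β₂) (min β₃ εM) ≤ β₂ := (min_le_left _ _).trans (min_le_right _ _)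
    linarith
  have x3 : β ≤ β₃ := by
    have : min (min β₁ β₂) (min β₃ εM) ≤ β₃ := (min_le_right _ _).trans (min_le_left _ _)
    linarith
  have x4 : β < εM := by
    have : min (min β₁ β₂) (min β₃ εM) ≤ εM := (min_le_right _ _).trans (min_le_right _ _)
    linarith
  refine ⟨β, min γ₁ γ₂, hβ0, lt_min hγ₁ hγ₂, fun γ hγ hγ' => ?_⟩
  obtain ⟨δ₁, hδ₁, N₁, hN₁⟩ := hR γ hγ (hγ'.trans (min_le_left _ _))
  obtain ⟨δ₂, cc, hδ₂, hcc, N₂, hN₂⟩ := hmic γ hγ (hγ'.trans (min_le_right _ _))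
  have ev1 := ev_pw50 x4 48
  have ev2 := ev_log45 hεM 16
  have ev3 := ev_pw50 hεM 16
  have ev4 := ev_exp50 1 K' (a := 1) one_pos hcc
  have ev5 := ev_exp50 1 (2 * K') (a := 1) one_pos hεM
  obtain ⟨N₄, hN₄⟩ := eventually_atTop.1 (ev1.and (ev2.and (ev3.and (ev4.and ev5))))
  refine ⟨min δ₁ (min δ₂ δ₃), lt_min hδ₁ (lt_min hδ₂ hδ₃), max (max N₁ N₂) (max N₃ (max N₄ 64)), ?_⟩
  intro N hN y hyN hy _ B hB0 hB b j hb hbj t ht c0 K hj hK hcK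
  have k1 : N₁ ≤ N := (le_max_left _ _).trans ((le_max_left _ _).trans hN)
  have k2 : N₂ ≤ N := (le_max_right _ _).trans ((le_max_left _ _).trans hN)
  have k3 : N₃ ≤ N := (le_max_left _ _).trans ((le_max_right _ _).trans hN)
  have k4' : N₄ ≤ N := (le_max_left _ _).trans ((le_max_right _ _).trans ((le_max_right _ _).trans hN))
  have k0 : 64 ≤ N := (le_max_right _ _).trans ((le_max_right _ _).trans ((le_max_right _ _).trans hN))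
  have k4 : (64 : ℝ) ≤ N := by exact_mod_cast k0
  have k5 : (0 : ℝ) < N := by linarith
  have k6 : (1 : ℝ) ≤ N := by linarith
  obtain ⟨a1, a2, a3, a4, a5⟩ := hN₄ N k4'
  rw [Real.rpow_zero, mul_one] at a3
  rw [one_mul, one_mul] at a4 a5
  have hB1 : B ≤ (N : ℝ) ^ β₁ := hB.trans (Real.rpow_le_rpow_of_exponent_le k6 x1)
  have hB2 : B ≤ (N : ℝ) ^ β₂ := hB.trans (Real.rpow_le_rpow_of_exponent_le k6 x2)
  have hB3 : B ≤ (N : ℝ) ^ β₃ := hB.trans (Real.rpow_le_rpow_of_exponent_le k6 x3)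
  have hPok : H7.Pok μ s N δ₃ (Pn N y) :=
    Or.inr ⟨y, hyN, hy.mono ((min_le_right _ _).trans (min_le_right _ _)) (by omega), rfl⟩
  have hR' := hN₁ N k1 y hyN (hy.mono (min_le_left _ _) (by omega)) B hB0 hB1 b j hb hbj t ht c0 K hj hK hcK
  refine ⟨hR', fun F δ hδ hδ1 U hU => ?_, fun M hM Y Y' _ _ J r q hr hq => ?_, fun r hr => ?_, hj, hcK, ?_, ?_⟩
  · refine hE N k3 (Pn N y) hPok c0 K ?_ hK hcK B hB0 hB3 U hU F δ hδ hδ1
    have : b ≤ c0 := by omega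
    exact hb.trans (by exact_mod_cast this)
  · have h1 := hN₂ N k2 y (hy.mono ((min_le_right _ _).trans (min_le_left _ _)) (by omega)) B hB0 hB2 b j hb hbj (by omega) t ht M hM
      Y Y' J r q hr hq
    exact h1.mono a4 a4
  · exact H27.fam_Pn hr y
  · have e1 : (N : ℝ) ^ K' * (N : ℝ) ^ (-(2 * K')) = (N : ℝ) ^ (-K') := by
      rw [← Real.rpow_add k5]
      congr 1
      ring
    rw [← e1]
    exact mul_le_mul_of_nonneg_left a5 (Real.rpow_nonneg k5.le _)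
  · have : 48 * B ≤ (N : ℝ) ^ εM := (mul_le_mul_of_nonneg_left hB (by norm_num)).trans a1
    linarith

end

end Pool.W7d29a1.C0.C45
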