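import Pool.Agent.W_7d29a1_C0.Cor45H

/-!
MP_7d29a1_pr, [CURV0] / [C0], leaf E2.6, PART L (helper45): **THE TERMS `T2`, `Tp` OF PART L AT THE CORNER, THE OWN EVENT OUTSIDE OF THE THREE
LEVELS.** In `Cor45H` the third part of `T2`, `Tp` has the own event `V` (block `(c1, z)`) inside of `T4` (fibre `pJ 0 (c0 + K)`, `c0 + K ≤ z`). Here: `V`
implies the averaged own event `TauM (pJ 0 z) (pJ c1 z)`, up to a small mass at the tilt (`fut45`), and this is an event of the future at the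
corner. So the third parts of `T2`, `Tp` have the form of the one of `T0Q`: an event of the base path and `jT45` with `V = True`.
-/

set_option autoImplicit false
set_option linter.unusedSectionVars false
set_option linter.unusedVariables false

namespace Pool.W7d29a1.C0.C45

open Finset MeasureTheory Filter Topology Pool.Agent.W_7d29a1_F Pool.Agent.W_7d29a1_X Pool.Agent.W_7d29a1_C0.Mod92
open Pool.Agent.W_7d29a1_C0.Swap57 Pool.Agent.W_7d29a1_C0.Blk18 Pool.Agent.W_7d29a1_C0.NM82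
open Pool.Agent.W_7d29a1_C0.MicE14 (rh rh_nonneg nn Cq)
open Pool.Agent.W_7d29a1_C0.T72 (Sp72 Rb72 ind72 ind72_nonneg ind72_le_one meas_ind72 meas_fix crs_pB72 ps_of_pB72 uj72 abs_uj72
  meas_uj72 tA_uj72 pA_ut72)
open Pool.Agent.W_7d29a1_C0.MicN96 (Rw96 er96 F0_96)
open Pool.Agent.W_7d29a1_C0.EvT50 (RpM meas_RpM)
open Pool.W7d29a1.C0 (gz gm gz_ne gz_pos gm_nonneg gm_mono gm_const PP PP_eq PP_mono PP_nonneg PP_add PP_smul)
open Pool.W7d29a1.C0.VT31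
open Pool.W7d29a1.C0.K1 (upI dnI)
open Pool.W7d29a1.C0.R43
open Pool.W7d29a1.C0.H7 (E0D NL7 HL7 Ms7 iM7 jA7 jA7_01)
open Pool.W7d29a1.C0.H27 (pB slb PA tA)
open Pool.W7d29a1.C0.Row39 (PP_fst PP_const PP_sum)

noncomputable section

section Path

variable {Q : Finset (Finset ℕ)} [Nonempty (Px Q)] {Y : Type*} [DecidableEq Y]

/-- **An event of the whole path is an event of the future, up to a small mass.** -/
theorem fut45 {w A : Px Q → ℝ} {D : ℝ} (hA : ∀ x, |A x| ≤ D) (q : Px Q → Y) {h : Px Q → ℝ} (h0 : ∀ x, 0 ≤ h x) {C θ : ℝ}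
    (hC : 0 ≤ C) (hθ : 0 ≤ θ) {E T : Px Q → Prop} (hE : ∀ x, E x → 1 ≤ C * h x) (hTm : ∀ x x', q x = q x' → (T x ↔ T x'))
    (hT : ∀ x, ¬ T x → cE w q h x ≤ θ) {g : Px Q → ℝ} (hg1 : ∀ x, g x ≤ 1) (hg : ∀ x, ¬ (E x ∧ ¬ T x) → g x ≤ 0) :
    gm (w + A) g ≤ Real.exp (2 * D) * (C * θ) := by
  have hc : 0 ≤ Real.exp (2 * D) * (C * θ) := mul_nonneg (Real.exp_pos _).le (mul_nonneg hC hθ)
  rw [← gm_cE (w + A) q g]
  refine (gm_mono _ (g := fun _ => Real.exp (2 * D) * (C * θ)) fun x => ?_).trans (gm_const _ _).le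
  by_cases hx : T x
  · refine (O1.cE_fib_mono (w + A) q (f' := fun _ => 0) fun x' hx' => ?_).trans ((O1.cE_constf _ _ _ _).le.trans hc)
    exact hg x' fun h => h.2 ((hTm x' x hx').2 hx)
  · have h1 : cE (w + A) q g x ≤ cE (w + A) q (C • h) x := cE_mono _ _ (fun x' => by
      rw [Pi.smul_apply, smul_eq_mul]
      by_cases h2 : E x' ∧ ¬ T x'
      · exact (hg1 x').trans (hE x' h2.1)
      · exact (hg x' h2).trans (mul_nonneg hC (h0 x'))) x
    rw [cE_smul, Pi.smul_apply, smul_eq_mul] at h1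
    have h2 := cE_tilt hA q h0 x (w := w)
    have h3 := hT x hx
    calc cE (w + A) q g x ≤ C * cE (w + A) q h x := h1
      _ ≤ C * (Real.exp (2 * D) * cE w q h x) := mul_le_mul_of_nonneg_left h2 hC
      _ ≤ C * (Real.exp (2 * D) * θ) := mul_le_mul_of_nonneg_left (mul_le_mul_of_nonneg_left h3 (Real.exp_pos _).le) hC
      _ = _ := by ring

end Path

section Row

variable {μ : Measure ℝ} {s : ℝ} {N : ℕ} {Q : Finset (Finset ℕ)} [IsProbabilityMeasure μ] [SwQ Q] [MxQ Q] [Nonempty (Px Q)]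
variable {γ B : ℝ} {b j : ℕ} {t : ℝ} {c0 K : ℕ} {ε εM K' M F : ℝ} {zf cc : ℕ} {f : Env × Finset ℕ → Px Q → ℝ}

/-- An event of the base path is replaced by another one, any weights. -/
theorem pp_swapU45 {w : Env × Finset ℕ → Px Q → ℝ} (hw : ∀ S, Measurable fun ω => w ω S) {z c : ℕ} (hf : Sp72 Q c F c0 K f)
    {T T' : Env × Finset ℕ → Px Q → Prop} (hT : ∀ S, MeasurableSet {ω | T ω S}) (hT' : ∀ S, MeasurableSet {ω | T' ω S})
    {e : ℝ} (he : ∀ ω, gm (w ω) (ind72 (fun ω S => T ω S ∧ ¬ T' ω S) ω) ≤ e) :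
    ∫ ω, PP (w ω) (fun x y => ind72 T ω x * rh z c (f ω) x y) ∂(Pm μ N) ≤
      ∫ ω, PP (w ω) (fun x y => ind72 T' ω x * rh z c (f ω) x y) ∂(Pm μ N) + 2 * F * e := by
  obtain ⟨S₀⟩ : Nonempty (Px Q) := inferInstance
  have hF0 : 0 ≤ 2 * F := (rh_nonneg _ _ _).trans (rh_le45 (z := z) hf (fun _ => 0, ∅) S₀ S₀)
  have hpt : ∀ ω, PP (w ω) (fun x y => ind72 T ω x * rh z c (f ω) x y) ≤
      PP (w ω) (fun x y => ind72 T' ω x * rh z c (f ω) x y) + 2 * F * e := fun ω => by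
    have h1 : ∀ x y, ind72 T ω x * rh z c (f ω) x y ≤ ind72 T' ω x * rh z c (f ω) x y +
        2 * F * ind72 (fun ω S => T ω S ∧ ¬ T' ω S) ω x := fun x y => by
      have h2 := rh_nonneg (z := z) (c := c) (f ω) x y
      have h3 := rh_le45 (z := z) hf ω x y
      have a2 := ind72_nonneg (fun ω S => T ω S ∧ ¬ T' ω S) ω x
      have h0 : ind72 T ω x ≤ ind72 T' ω x + ind72 (fun ω S => T ω S ∧ ¬ T' ω S) ω x := by
        have a1 := ind72_nonneg T' ω x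
        by_cases h6 : T ω x
        · have e0 : ind72 T ω x = 1 := if_pos h6
          by_cases h7 : T' ω x
          · have e1 : ind72 T' ω x = 1 := if_pos h7
            linarith
          · have e1 : ind72 (fun ω S => T ω S ∧ ¬ T' ω S) ω x = 1 := if_pos ⟨h6, h7⟩
            linarith
        · have e0 : ind72 T ω x = 0 := if_neg h6
          linarith
      have h6 := mul_le_mul_of_nonneg_right h0 h2
      have h7 := mul_le_mul_of_nonneg_left h3 a2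
      rw [add_mul] at h6
      linarith
    refine (PP_mono _ h1).trans ?_
    rw [PP_add (w ω) (fun x y => ind72 T' ω x * rh z c (f ω) x y)
      (fun x _ => 2 * F * ind72 (fun ω S => T ω S ∧ ¬ T' ω S) ω x),
      PP_smul (w ω) (2 * F) (fun x _ => ind72 (fun ω S => T ω S ∧ ¬ T' ω S) ω x), PP_fst]
    have h8 := mul_le_mul_of_nonneg_left (he ω) hF0
    linarith
  have hint : ∀ T : Env × Finset ℕ → Px Q → Prop, (∀ S, MeasurableSet {ω | T ω S}) → Integrable (fun ω : Env × Finset ℕ =>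
      PP (w ω) (fun x y => ind72 T ω x * rh z c (f ω) x y)) (Pm μ N) := fun T hT =>
    int_bdd (M := 1 * (2 * F)) (meas_PP45 hw fun x y => (meas_ind72 hT x).mul (meas_rh45 hf x y)) fun ω =>
      abs_PP_le45 _ (fun x y => mul_nonneg (ind72_nonneg _ _ _) (rh_nonneg _ _ _)) fun x y =>
        mul_le_mul (ind72_le_one _ _ _) (rh_le45 hf ω x y) (rh_nonneg _ _ _) zero_le_one
  have hI := integral_mono (hint T hT) ((hint T' hT').add (integrable_const _)) hpt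
  refine hI.trans (le_of_eq ?_)
  have e1 := integral_add (hint T' hT') (integrable_const (μ := Pm μ N) (2 * F * e))
  simp only [Pi.add_apply] at e1 ⊢
  rw [e1, integral_const, measureReal_def, measure_univ, ENNReal.toReal_one, one_smul]

/-- The third part with another event. -/
theorem th_swap45 (δ : ℝ) (hf : Sp72 Q cc F c0 K f) {V E : Env × Finset ℕ → Px Q → Prop} (hV : ∀ S, MeasurableSet {ω | V ω S})
    (hE : ∀ S, MeasurableSet {ω | E ω S}) {e : ℝ}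
    (he : ∀ ω, gm (wu μ s N Q (uj72 μ s Q γ B b j t) ω) (ind72 (fun ω S => V ω S ∧ ¬ E ω S) ω) ≤ e) :
    th45 μ s N Q γ B b j t δ c0 K V zf cc f ≤ th45 μ s N Q γ B b j t δ c0 K E zf cc f + 2 * F * e := by
  unfold th45
  refine pp_swapU45 (meas_wu (meas_uj72 γ B b j t)) hf
    (T := fun ω S => V ω S ∧ (¬ nP45 μ s N Q γ B b j t δ c0 K ω S ∧ ¬ nM45 μ s N Q γ B b j t (δ / 2) c0 K ω S))
    (T' := fun ω S => E ω S ∧ (¬ nP45 μ s N Q γ B b j t δ c0 K ω S ∧ ¬ nM45 μ s N Q γ B b j t (δ / 2) c0 K ω S))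
    (fun S => (hV S).inter ((meas_nP45 δ S).compl.inter (meas_nM45 (δ / 2) S).compl))
    (fun S => (hE S).inter ((meas_nP45 δ S).compl.inter (meas_nM45 (δ / 2) S).compl)) fun ω => ?_
  refine (gm_mono _ fun x => ?_).trans (he ω)
  unfold ind72
  by_cases h : (V ω x ∧ ¬ nP45 μ s N Q γ B b j t δ c0 K ω x ∧ ¬ nM45 μ s N Q γ B b j t (δ / 2) c0 K ω x) ∧
      ¬ (E ω x ∧ ¬ nP45 μ s N Q γ B b j t δ c0 K ω x ∧ ¬ nM45 μ s N Q γ B b j t (δ / 2) c0 K ω x)
  · rw [if_pos h, if_pos ⟨h.1.1, fun h2 => h.2 ⟨h2, h.1.2⟩⟩]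
  · rw [if_neg h]
    split_ifs <;> norm_num

/-- The weights at the tilt of the row. -/
theorem wu_add45 (u : Finset ℕ → Env → Px Q → ℝ) (ω : Env × Finset ℕ) : wu μ s N Q u ω = wm μ s N Q ω + u ω.2 ω.1 := rfl

/-- **The third part, own event given the outside of the block `p`.** -/
theorem RL45.thF (R : RL45 μ s N Q γ B b j t c0 K ε εM K') (hM : (N : ℝ) ^ εM ≤ M) {δ : ℝ} (hδ : 0 ≤ δ) {z : ℕ} (hz : c0 + K ≤ z)
    (hzf : z ≤ zf) (hc : zf ≤ cc) (hf : Sp72 Q cc F c0 K f) (hF : F ≤ (N : ℝ) ^ 3) {Y : Type*} [DecidableEq Y] {p : Px Q → Y}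
    {wl al : ℕ} {V : Env × Finset ℕ → Px Q → Prop} (hV : ∀ S, MeasurableSet {ω | V ω S}) {h : Env × Finset ℕ → Px Q → ℝ}
    (h0 : ∀ ω x, 0 ≤ h ω x) (hVh : ∀ ω x, V ω x → 1 ≤ Real.exp (5 / 2 * M) * h ω x)
    (hh : ∀ ω x, cE (wm μ s N Q ω) (pJ 0 z) (h ω) x = cE (wm μ s N Q ω) (pJ 0 z) (mI (wm μ s N Q ω) p wl al) x) :
    th45 μ s N Q γ B b j t δ c0 K V zf cc f ≤
      (N : ℝ) ^ ε * cP45 μ s N Q (fun ω S => TauM (wm μ s N Q ω) (pJ 0 z) p wl al M S ∧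
        jT45 μ s N Q γ B b j (c0 + K) (δ / 4) (5 * M) (fun _ _ => True) ω S) zf cc f + 2 * er96 N K' := by
  obtain ⟨n1, n2, n3, n4, n5, n6, n7, n8, n9⟩ := R.num hM
  have h1 := th_swap45 (μ := μ) (s := s) (N := N) (γ := γ) (B := B) (b := b) (j := j) (t := t) (zf := zf) δ hf hV
    (E := fun ω S => TauM (wm μ s N Q ω) (pJ 0 z) p wl al (3 / 4 * M) S) (fun S => meas_tau45 meas_wm _ _ _ _ _ S)
    (e := Real.exp (2 * B) * (Real.exp (5 / 2 * M) * Real.exp (-(5 * (3 / 4 * M))))) fun ω => by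
      rw [wu_add45]
      exact fut45 (fun x => abs_uj72 R.B0 b j R.ht ω.2 ω.1 x) (pJ (Q := Q) 0 z) (h0 ω) (Real.exp_pos _).le (Real.exp_pos _).le
        (hVh ω) (fun x x' hx => tauM_meas _ _ _ _ _ _ hx) (fun x hx => by
          rw [hh ω x]
          exact (not_le.1 hx).le) (fun x => ind72_le_one _ _ _) fun x hx => (if_neg hx).le
  have e1 : Real.exp (2 * B) * (Real.exp (5 / 2 * M) * Real.exp (-(5 * (3 / 4 * M)))) = Real.exp (2 * B - 5 / 4 * M) := by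
    rw [← Real.exp_add, ← Real.exp_add]
    congr 1
    ring
  rw [e1] at h1
  have h2 := (R.tiny hM (F0_96 hf) hF (x := 2 * B - 5 / 4 * M) (by linarith)).2
  have h3 := R.thQ hM hδ (hz.trans hzf) hc hf hF (tauM_rb (μ := μ) (s := s) (N := N) (Q := Q) (c0 := c0) (K := K) (D := 2 * B) (by linarith) le_rfl hz p
    (i := wl) (j := al) (M := 3 / 4 * M) (M' := M) (by linarith))
  linarith

end Row

section Ends

variable {μ : Measure ℝ} {s : ℝ} {N : ℕ} [IsProbabilityMeasure μ] {γ B : ℝ} {b j : ℕ} {t : ℝ} {c0 K : ℕ} {ε εM K' : ℝ}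

/-- The final numbers of a micro term. -/
theorem finJ45 {ys : Finset ℕ} (hN : (64 : ℝ) ≤ N) (hB0 : 0 ≤ B) (hBN : B ≤ N) {A e : ℝ} {W Th : ℕ → ℝ}
    (hTh : ∀ y ∈ ys, Th y ≤ (N : ℝ) ^ ε * W y + 2 * er96 N K') {x : ℝ}
    (h : x ≤ A + B * avy ys Th + (2 * er96 N K' + er96 N K' + e)) :
    x ≤ A + B * ((N : ℝ) ^ ε * avy ys W) + (3 * N * er96 N K' + e) := by
  have her : 0 ≤ er96 N K' := by unfold er96; positivity
  have h1 := avy_mono hTh
  rw [avy_add, avy_mul] at h1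
  have av_le : avy ys (fun _ => 2 * er96 N K') ≤ 2 * er96 N K' := by
    rcases ys.eq_empty_or_nonempty with h | h
    · rw [h]
      simp [avy]
      linarith
    · exact (avy_const h _).le
  have h2 : B * avy ys Th ≤ B * ((N : ℝ) ^ ε * avy ys W + 2 * er96 N K') :=
    mul_le_mul_of_nonneg_left (h1.trans (add_le_add le_rfl av_le)) hB0
  rw [mul_add] at h2
  have h3 : B * er96 N K' ≤ N * er96 N K' := mul_le_mul_of_nonneg_right hBN her
  have h4 : 64 * er96 N K' ≤ N * er96 N K' := mul_le_mul_of_nonneg_right hN her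
  linarith

variable {ys : Finset ℕ} {M δ : ℝ} {l k zf cc : ℕ} {F : ℝ} {f : Fam N} {c1 z e wl al : ℕ} {J : Finset ℕ}

/-- **THE TERM `T2`, PART L, AT THE CORNER**, own outside of the three levels. **** -/
theorem T2L45J (hys : ∀ y ∈ ys, y ≤ N) (R : ∀ y ∈ ys, RL45 μ s N (Pn N y) γ B b j t c0 K ε εM K')
    (hM : (N : ℝ) ^ εM ≤ M / 2) (hN : (64 : ℝ) ≤ N) (hB0 : 0 ≤ B) (hBN : B ≤ N) (hδ : 0 ≤ δ) (hδ1 : δ ≤ 1) (hk : 10 * M ≤ k)
    (hk' : (k : ℝ) ≤ 20 * M) (hbj : b ≤ j) (hl : 3 * k * (l + 1) ≤ b) (hf : ∀ y ∈ ys, Sp72 (Pn N y) cc F c0 K (f y))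
    (hF : F ≤ (N : ℝ) ^ 3) (hJ : J.Nonempty) (hJm : ∀ m ∈ J, c1 ≤ m ∧ al ≤ m ∧ m ≤ j - b) (hz : c0 + K ≤ z) (hze : z ≤ e)
    (hjz : j + b ≤ z) (hzf : z ≤ zf) (hc : zf ≤ cc) {e0 : ℝ}
    (hflp : ∀ m ∈ J, Flp45 μ s N ys γ B b j t δ c0 K zf cc f (fun y w M => Nta w (pJ (Q := Pn N y) c1 z) wl al M)
      (fun y => pJ (Q := Pn N y) m z) (fun y => pJ (Q := Pn N y) m e) (M / 2 + 2 * B) e0) :
    avy ys (fun y => ∫ ω, PP (wu μ s N (Pn N y) (uj72 μ s (Pn N y) γ B b j t) ω) (fun x x' =>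
        mI (wu μ s N (Pn N y) (uj72 μ s (Pn N y) γ B b j t) ω) (pJ c1 z) wl al x *
        (nn (wu μ s N (Pn N y) (uj72 μ s (Pn N y) γ B b j t) ω) J (fun m => pJ m e) (gg μ s (Pn N y) γ B b ω j) x *
          rh zf cc (f y ω) x x')) ∂(Pm μ N)) ≤
      2 * (B * ((N : ℝ) ^ ε * ((J.card : ℝ)⁻¹ * ∑ m ∈ J, avy ys fun y => cP45 μ s N (Pn N y) (fun ω S =>
        Nta (wm μ s N (Pn N y) ω) (pJ c1 z) wl al M S ∧ (RpM (wm μ s N (Pn N y) ω) (pJ m z) b j l k M S ∨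
          RpM (wm μ s N (Pn N y) ω) (pJ m e) b j l k M S)) zf cc (f y)))) +
      B * ((N : ℝ) ^ ε * avy ys fun y => cP45 μ s N (Pn N y) (fun ω S => TauM (wm μ s N (Pn N y) ω) (pJ 0 z) (pJ c1 z) wl al M S ∧
        jT45 μ s N (Pn N y) γ B b j (c0 + K) (δ / 4) (5 * M) (fun _ _ => True) ω S) zf cc (f y)) + (3 * N * er96 N K' + e0) := by
  have her : 0 ≤ er96 N K' := by unfold er96; positivity
  have hM' : (N : ℝ) ^ εM ≤ M := hM.trans (by
    have : 0 ≤ (N : ℝ) ^ εM := Real.rpow_nonneg (by linarith) _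
    linarith)
  have h := corL45 (μ := μ) (s := s) (N := N) (γ := γ) (B := B) (b := b) (j := j) (t := t) (c0 := c0) (K := K) (ε := ε) (εM := εM)
    (K' := K') hys R hM hN hBN hδ hδ1 hk hk' hbj hl (zf := zf) (cc := cc) (hz.trans hzf) hc hf hF
    (ev := fun y w M => Nta w (pJ (Q := Pn N y) c1 z) wl al M) (fun y hy => by
      have := ne_Pn (hys y hy)
      exact Ev45.nta _ _ _) hJ
    (r := fun m y => pJ (Q := Pn N y) m z) (q := fun m y => pJ (Q := Pn N y) m e)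
    (fun m hm y hy => crs_pJ (hJm m hm).2.2 hjz) (fun m hm y hy => crs_pJ le_rfl hze)
    (fun m hm y hy => swP_pJ (by
      have := (hJm m hm).2.2
      omega)) (X := fun y => ∫ ω, PP (wu μ s N (Pn N y) (uj72 μ s (Pn N y) γ B b j t) ω) (fun x x' =>
        mI (wu μ s N (Pn N y) (uj72 μ s (Pn N y) γ B b j t) ω) (pJ c1 z) wl al x *
        (nn (wu μ s N (Pn N y) (uj72 μ s (Pn N y) γ B b j t) ω) J (fun m => pJ m e) (gg μ s (Pn N y) γ B b ω j) x *
          rh zf cc (f y ω) x x')) ∂(Pm μ N)) her (fun y hy => by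
      have := ne_Pn (hys y hy)
      have hR := R y hy
      obtain ⟨n1, n2, n3, n4, n5, n6, n7, n8, n9⟩ := hR.num hM'
      refine (T2N45 (μ := μ) (s := s) (N := N) (Q := Pn N y) (u := uj72 μ s (Pn N y) γ B b j t) (Du := B) (B := B) (c1 := c1) (z := z)
        (e := e) (zf := zf) (c := cc) (wl := wl) (al := al) (J := J) (g := fun ω => gg μ s (Pn N y) γ B b ω j)
        (meas_uj72 γ B b j t) (fun A η S => abs_uj72 hR.B0 b j hR.ht A η S) (gg_bd45 hR.B0) (meas_gs45 γ B b j) hJ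
        (fun m hm => ⟨(hJm m hm).1, (hJm m hm).2.1⟩) hzf hc (hf y hy) (M / 2)).trans ?_
      refine add_le_add (le_of_eq rfl) (hR.tiny hM' (F0_96 (hf y hy)) hF ?_).1
      linarith)
    (Th := fun y => th45 μ s N (Pn N y) γ B b j t δ c0 K (fun ω => Nta (wm μ s N (Pn N y) ω) (pJ c1 z) wl al (M / 2)) zf cc (f y))
    (fun y hy => le_rfl) hflp
  exact finJ45 hN hB0 hBN (fun y hy => by
    have := ne_Pn (hys y hy)
    refine (R y hy).thF hM' hδ hz hzf hc (hf y hy) hF (fun S => meas_nta45 _ _ _ _ S)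
      (h := fun ω => mI (wm μ s N (Pn N y) ω) (pJ c1 z) wl al) (fun ω x => mI_nonneg _ _ _ _ _) (fun ω x hx => ?_) fun ω x => rfl
    have h5 := mul_le_mul_of_nonneg_left hx (Real.exp_pos (M / 2)).le
    rw [← Real.exp_add, add_neg_cancel, Real.exp_zero] at h5
    have hM0 : 0 ≤ M := (Real.rpow_nonneg (by linarith) _).trans hM'
    exact h5.trans (mul_le_mul_of_nonneg_right (Real.exp_le_exp.2 (by linarith)) (mI_nonneg _ _ _ _ _))) h

/-- **THE TERM `Tp`, PART L, AT THE CORNER**, own outside of the three levels. **** -/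
theorem TpL45J (hys : ∀ y ∈ ys, y ≤ N) (R : ∀ y ∈ ys, RL45 μ s N (Pn N y) γ B b j t c0 K ε εM K')
    (hM : (N : ℝ) ^ εM ≤ M / 2) (hN : (64 : ℝ) ≤ N) (hB0 : 0 ≤ B) (hBN : B ≤ N) (hδ : 0 ≤ δ) (hδ1 : δ ≤ 1) (hk : 10 * M ≤ k)
    (hk' : (k : ℝ) ≤ 20 * M) (hbj : b ≤ j) (hl : 3 * k * (l + 1) ≤ b) (hf : ∀ y ∈ ys, Sp72 (Pn N y) cc F c0 K (f y))
    (hF : F ≤ (N : ℝ) ^ 3) (hJ : J.Nonempty) (hJm : ∀ m ∈ J, c1 ≤ m ∧ m ≤ j - b) (hz : c0 + K ≤ z) (hze : z ≤ e)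
    (hjz : j + b ≤ z) (hzf : z ≤ zf) (hc : zf ≤ cc) {e0 : ℝ}
    (hflp : ∀ m ∈ J, Flp45 μ s N ys γ B b j t δ c0 K zf cc f
      (fun y w M => TauM w (pJ (Q := Pn N y) c1 z) (pJ (Q := Pn N y) c1 z) wl al M)
      (fun y => pJ (Q := Pn N y) m z) (fun y => pJ (Q := Pn N y) m e) (M / 2 + 2 * B) e0) :
    avy ys (fun y => ∫ ω, PP (wu μ s N (Pn N y) (uj72 μ s (Pn N y) γ B b j t) ω) (fun x x' =>
        mI (wu μ s N (Pn N y) (uj72 μ s (Pn N y) γ B b j t) ω) (pJ c1 z) wl al x *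
        (cE (wu μ s N (Pn N y) (uj72 μ s (Pn N y) γ B b j t) ω) (pJ c1 z)
          (nn (wu μ s N (Pn N y) (uj72 μ s (Pn N y) γ B b j t) ω) J (fun m => pJ m e) (gg μ s (Pn N y) γ B b ω j)) x *
          rh zf cc (f y ω) x x')) ∂(Pm μ N)) ≤
      2 * (B * ((N : ℝ) ^ ε * ((J.card : ℝ)⁻¹ * ∑ m ∈ J, avy ys fun y => cP45 μ s N (Pn N y) (fun ω S =>
        TauM (wm μ s N (Pn N y) ω) (pJ c1 z) (pJ c1 z) wl al M S ∧ (RpM (wm μ s N (Pn N y) ω) (pJ m z) b j l k M S ∨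
          RpM (wm μ s N (Pn N y) ω) (pJ m e) b j l k M S)) zf cc (f y)))) +
      B * ((N : ℝ) ^ ε * avy ys fun y => cP45 μ s N (Pn N y) (fun ω S => TauM (wm μ s N (Pn N y) ω) (pJ 0 z) (pJ c1 z) wl al M S ∧
        jT45 μ s N (Pn N y) γ B b j (c0 + K) (δ / 4) (5 * M) (fun _ _ => True) ω S) zf cc (f y)) + (3 * N * er96 N K' + e0) := by
  have her : 0 ≤ er96 N K' := by unfold er96; positivity
  have hM' : (N : ℝ) ^ εM ≤ M := hM.trans (by
    have : 0 ≤ (N : ℝ) ^ εM := Real.rpow_nonneg (by linarith) _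
    linarith)
  have h := corL45 (μ := μ) (s := s) (N := N) (γ := γ) (B := B) (b := b) (j := j) (t := t) (c0 := c0) (K := K) (ε := ε) (εM := εM)
    (K' := K') hys R hM hN hBN hδ hδ1 hk hk' hbj hl (zf := zf) (cc := cc) (hz.trans hzf) hc hf hF
    (ev := fun y w M => TauM w (pJ (Q := Pn N y) c1 z) (pJ (Q := Pn N y) c1 z) wl al M) (fun y hy => by
      have := ne_Pn (hys y hy)
      exact Ev45.tau _ _ _ _) hJ
    (r := fun m y => pJ (Q := Pn N y) m z) (q := fun m y => pJ (Q := Pn N y) m e)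
    (fun m hm y hy => crs_pJ (hJm m hm).2 hjz) (fun m hm y hy => crs_pJ le_rfl hze)
    (fun m hm y hy => swP_pJ (by
      have := (hJm m hm).2
      omega)) (X := fun y => ∫ ω, PP (wu μ s N (Pn N y) (uj72 μ s (Pn N y) γ B b j t) ω) (fun x x' =>
        mI (wu μ s N (Pn N y) (uj72 μ s (Pn N y) γ B b j t) ω) (pJ c1 z) wl al x *
        (cE (wu μ s N (Pn N y) (uj72 μ s (Pn N y) γ B b j t) ω) (pJ c1 z)
          (nn (wu μ s N (Pn N y) (uj72 μ s (Pn N y) γ B b j t) ω) J (fun m => pJ m e) (gg μ s (Pn N y) γ B b ω j)) x *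
          rh zf cc (f y ω) x x')) ∂(Pm μ N)) her (fun y hy => by
      have := ne_Pn (hys y hy)
      have hR := R y hy
      obtain ⟨n1, n2, n3, n4, n5, n6, n7, n8, n9⟩ := hR.num hM'
      refine (TpN45 (μ := μ) (s := s) (N := N) (Q := Pn N y) (u := uj72 μ s (Pn N y) γ B b j t) (Du := B) (B := B) (c1 := c1) (z := z)
        (e := e) (zf := zf) (c := cc) (wl := wl) (al := al) (J := J) (g := fun ω => gg μ s (Pn N y) γ B b ω j)
        (meas_uj72 γ B b j t) (fun A η S => abs_uj72 hR.B0 b j hR.ht A η S) (gg_bd45 hR.B0) (meas_gs45 γ B b j) hJ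
        (fun m hm => (hJm m hm).1) hzf hc (hf y hy) (M / 2)).trans ?_
      refine add_le_add (le_of_eq rfl) (hR.tiny hM' (F0_96 (hf y hy)) hF ?_).1
      linarith)
    (Th := fun y => th45 μ s N (Pn N y) γ B b j t δ c0 K (fun ω => TauM (wm μ s N (Pn N y) ω) (pJ c1 z) (pJ c1 z) wl al (M / 2))
      zf cc (f y)) (fun y hy => le_rfl) hflp
  exact finJ45 hN hB0 hBN (fun y hy => by
    have := ne_Pn (hys y hy)
    refine (R y hy).thF hM' hδ hz hzf hc (hf y hy) hF (fun S => meas_tau45 meas_wm _ _ _ _ _ S)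
      (h := fun ω => cE (wm μ s N (Pn N y) ω) (pJ c1 z) (mI (wm μ s N (Pn N y) ω) (pJ c1 z) wl al))
      (fun ω x => cE_nonneg _ _ (mI_nonneg _ _ _ _) _) (fun ω x hx => ?_)
      fun ω x => congrFun (cE_tower _ (crs_pJ (Nat.zero_le _) le_rfl) _) x
    have h5 := mul_le_mul_of_nonneg_left hx (Real.exp_pos (5 * (M / 2))).le
    rw [← Real.exp_add, add_neg_cancel, Real.exp_zero] at h5
    exact h5.trans (le_of_eq (by
      congr 2
      ring))) h

end Ends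

end

end Pool.W7d29a1.C0.C45
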