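import Pool.Agent.W_7d29a1_C0.Rob45

/-!
MP_7d29a1_pr, [CURV0] / [C0]: THE MIXED ROBUST STEP, OUTER CONDITION FINER THAN THE INNER ONE (helper45). Leaf E2.6, part L.

A path `T` is drawn given the FINE condition `r` (for instance `pJ m z`) and a path `U` given the COARSE condition `q` of `T` (for instance
`pJ m e`, `z ≤ e`). If `T` and `U` do not meet in `[τ, L]` with mass at least `exp (- 5 M)`, then every path `S`, up to a mass `exp (- M)`,
has in one of the `3 k` pieces of `[τ, L]` an alternative of mass more than `exp (- 7 M)` given `r` or given `q` (`tauM_rpB`). Proof: given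
`r`, the paths `T` and `U` are independent, and the exchange of pieces of `S` and `T` keeps the weights.
-/

set_option autoImplicit false
set_option linter.unusedSectionVars false

namespace Pool.W7d29a1.C0.R43

open Finset MeasureTheory Pool.Agent.W_7d29a1_F Pool.Agent.W_7d29a1_X Pool.Agent.W_7d29a1_C0.Mod92
open Pool.Agent.W_7d29a1_C0.Swap57
open Pool.W7d29a1.C0 (gz gm lse gz_pos gz_ne gm_nonneg gm_mono gm_const)
open Pool.W7d29a1.C0.VT31

noncomputable section

section Two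

variable {Q Q' : Finset (Finset ℕ)} {w v : Finset ℕ → ℝ}

open Classical in
/-- The triples which can be exchanged, the first two in `Q`. -/
def GdB (Q Q' : Finset (Finset ℕ)) (τ l k : ℕ) : Finset (Finset ℕ × Finset ℕ × Finset ℕ) :=
  (Gd Q' τ l k).filter fun x => x.1 ∈ Q ∧ x.2.1 ∈ Q

/-- The weight of a triple. -/
def wB (w v : Finset ℕ → ℝ) (x : Finset ℕ × Finset ℕ × Finset ℕ) : ℝ := w x.1 * w x.2.1 * v x.2.2

theorem phB_mem (h : SwF Q w) {τ l k : ℕ} {A : Finset ℕ} (hA : A ⊆ range k) {x : Finset ℕ × Finset ℕ × Finset ℕ}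
    (hx : x ∈ GdB Q Q' τ l k) : Ph τ l A x ∈ Q ×ˢ Q ×ˢ Q' ∧ wB w v (Ph τ l A x) = wB w v x := by
  classical
  unfold GdB at hx
  rw [mem_filter] at hx
  obtain ⟨hx, hx1, hx2⟩ := hx
  unfold Gd at hx
  rw [mem_filter, mem_product, mem_product] at hx
  obtain ⟨⟨-, -, h3⟩, h4, -, -⟩ := hx
  have hb := bd_IA (h4.sub hA)
  refine ⟨?_, ?_⟩
  · rw [mem_product, mem_product]
    exact ⟨h.mem _ _ hx1 _ hx2 hb, h.mem _ _ hx2 _ hx1 hb.symm, h3⟩
  · show w (mx _ x.1 x.2.1) * w (mx _ x.2.1 x.1) * v x.2.2 = w x.1 * w x.2.1 * v x.2.2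
    rw [h.mul _ _ hx1 _ hx2 hb]

/-- **The entropy bound.** -/
theorem gdB_le (h : SwF Q w) (hv : ∀ U ∈ Q', 0 ≤ v U) (hv1 : ∑ U ∈ Q', v U ≤ 1) (τ l k : ℕ) :
    2 ^ k * ∑ x ∈ GdB Q Q' τ l k, wB w v x ≤ 1 := by
  classical
  have hw0 : ∀ x ∈ Q ×ˢ Q ×ˢ Q', 0 ≤ wB w v x := by
    intro x hx
    rw [mem_product, mem_product] at hx
    exact mul_nonneg (mul_nonneg (h.nn _ hx.1) (h.nn _ hx.2.1)) (hv _ hx.2.2)
  have hsub : ∀ x ∈ GdB Q Q' τ l k, x ∈ Gd Q' τ l k := fun x hx => (mem_filter.1 hx).1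
  have hinj : ∀ A ⊆ range k, Set.InjOn (Ph τ l A) (GdB Q Q' τ l k : Set (Finset ℕ × Finset ℕ × Finset ℕ)) := by
    intro A hA x hx x' hx' hxx
    have h1 : MA τ l A x.1 x.2.1 := ((mem_filter.1 (hsub x (mem_coe.1 hx))).2.1).sub hA
    have h2 : MA τ l A x'.1 x'.2.1 := ((mem_filter.1 (hsub x' (mem_coe.1 hx'))).2.1).sub hA
    rw [← Ph_Ph h1, ← Ph_Ph h2, hxx]
  have hdis : Set.PairwiseDisjoint ((range k).powerset : Set (Finset ℕ)) fun A => (GdB Q Q' τ l k).image (Ph τ l A) := by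
    intro A hA A' hA' hne
    rw [mem_coe, mem_powerset] at hA hA'
    rw [Function.onFun, disjoint_left]
    intro z hz hz'
    rw [mem_image] at hz hz'
    obtain ⟨x, hx, hxz⟩ := hz
    obtain ⟨x', hx', hxz'⟩ := hz'
    refine hne ?_
    ext i
    by_cases hi : i ∈ range k
    · rw [← ph_pat hA (hsub x hx) hi, ← ph_pat hA' (hsub x' hx') hi, hxz, hxz']
    · exact iff_of_false (fun h1 => hi (hA h1)) fun h1 => hi (hA' h1)
  have e1 : ∑ A ∈ (range k).powerset, ∑ z ∈ (GdB Q Q' τ l k).image (Ph τ l A), wB w v z =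
      2 ^ k * ∑ x ∈ GdB Q Q' τ l k, wB w v x := by
    rw [sum_congr rfl fun A hA => ?_, sum_const, card_powerset, card_range, nsmul_eq_mul]
    · push_cast
      rfl
    · rw [mem_powerset] at hA
      rw [sum_image (hinj A hA)]
      exact sum_congr rfl fun x hx => (phB_mem h hA hx).2
  rw [← e1, ← sum_biUnion hdis]
  calc _ ≤ ∑ z ∈ Q ×ˢ Q ×ˢ Q', wB w v z := by
        refine sum_le_sum_of_subset_of_nonneg ?_ fun z hz _ => hw0 z hz
        intro z hz
        rw [mem_biUnion] at hz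
        obtain ⟨A, hA, hz⟩ := hz
        rw [mem_powerset] at hA
        rw [mem_image] at hz
        obtain ⟨x, hx, rfl⟩ := hz
        exact (phB_mem (v := v) h hA hx).1
    _ = (∑ S ∈ Q, w S) * ((∑ T ∈ Q, w T) * ∑ U ∈ Q', v U) := by
        rw [sum_product, sum_mul]
        refine sum_congr rfl fun S _ => ?_
        rw [sum_product, sum_mul, mul_sum]
        refine sum_congr rfl fun T _ => ?_
        rw [mul_sum, mul_sum]
        refine sum_congr rfl fun U _ => ?_
        unfold wB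
        ring
    _ ≤ 1 * (1 * 1) := by
        have h0 : 0 ≤ ∑ S ∈ Q, w S := sum_nonneg h.nn
        have h1 : 0 ≤ ∑ U ∈ Q', v U := sum_nonneg hv
        exact mul_le_mul h.tot (mul_le_mul h.tot hv1 h1 zero_le_one) (mul_nonneg h0 h1) zero_le_one
    _ = 1 := by norm_num

open Classical in
/-- The mass of the paths of `Q` without an alternative, in `Q` or in `Q'`, in all the pieces. -/
def gBB (Q Q' : Finset (Finset ℕ)) (w v : Finset ℕ → ℝ) (τ l k : ℕ) (d : ℝ) : ℝ :=
  ∑ S ∈ Q, if ∀ n < 3 * k, mn Q w τ l n S ≤ d ∧ mn Q' v τ l n S ≤ d then w S else 0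

open Classical in
/-- The mass of the pairs which do not meet in `[i, j]`. -/
def pB45 (Q Q' : Finset (Finset ℕ)) (w v : Finset ℕ → ℝ) (i j : ℕ) : ℝ :=
  ∑ T ∈ Q, ∑ U ∈ Q', if Nm i j T U then w T * v U else 0

/-- **THE ROBUST STEP for an independent pair.** -/
theorem robB (hQ : Q ⊆ Q') (h : SwF Q w) (hv : ∀ U ∈ Q', 0 ≤ v U) (hv1 : ∑ U ∈ Q', v U ≤ 1) (τ l k : ℕ) {d : ℝ} (hd : 0 ≤ d)
    {L : ℕ} (hL : τ + 3 * k * (l + 1) ≤ L) :
    gBB Q Q' w v τ l k d * pB45 Q Q' w v τ L ≤ (1 / 2) ^ k + 3 * k * d := by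
  classical
  have hw0 := h.nn
  have htot := h.tot
  set B : Finset ℕ → Prop := fun S => ∀ n < 3 * k, mn Q w τ l n S ≤ d ∧ mn Q' v τ l n S ≤ d with hB
  have e1 : gBB Q Q' w v τ l k d * pB45 Q Q' w v τ L =
      ∑ S ∈ Q, ∑ T ∈ Q, ∑ U ∈ Q', if B S ∧ Nm τ L T U then w S * (w T * v U) else 0 := by
    unfold gBB pB45
    rw [sum_mul]
    refine sum_congr rfl fun S _ => ?_
    rw [mul_sum]
    refine sum_congr rfl fun T _ => ?_
    rw [mul_sum]
    refine sum_congr rfl fun U _ => ?_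
    by_cases h1 : B S
    · by_cases h2 : Nm τ L T U
      · rw [if_pos h1, if_pos h2, if_pos ⟨h1, h2⟩]
      · rw [if_neg h2, if_neg (show ¬ (B S ∧ Nm τ L T U) from fun h3 => h2 h3.2), mul_zero]
    · rw [if_neg (show ¬ (∀ n < 3 * k, mn Q w τ l n S ≤ d ∧ mn Q' v τ l n S ≤ d) from h1),
        if_neg (show ¬ (B S ∧ Nm τ L T U) from fun h3 => h1 h3.1), zero_mul]
  have key : ∀ S ∈ Q, ∀ T ∈ Q, ∀ U ∈ Q', (if B S ∧ Nm τ L T U then w S * (w T * v U) else 0) ≤
      (if (S, T, U) ∈ GdB Q Q' τ l k then w S * (w T * v U) else 0) +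
      ∑ n ∈ range (3 * k), ((if B S ∧ n % 3 ≠ 1 ∧ Nm (st τ l n) (st τ l n + l) S T then w S * (w T * v U) else 0) +
        (if B S ∧ n % 3 = 1 ∧ Nm (st τ l n) (st τ l n + l) S U then w S * (w T * v U) else 0)) := by
    intro S hS T hT U hU
    have hp : 0 ≤ w S * (w T * v U) := mul_nonneg (hw0 S hS) (mul_nonneg (hw0 T hT) (hv U hU))
    have hite : ∀ (c : Prop) [Decidable c], 0 ≤ (if c then w S * (w T * v U) else 0) := fun c _ => by
      split_ifs
      · exact hp
      · exact le_rfl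
    have hsn : ∀ n, 0 ≤ (if B S ∧ n % 3 ≠ 1 ∧ Nm (st τ l n) (st τ l n + l) S T then w S * (w T * v U) else 0) +
        (if B S ∧ n % 3 = 1 ∧ Nm (st τ l n) (st τ l n + l) S U then w S * (w T * v U) else 0) := fun n =>
      add_nonneg (hite _) (hite _)
    have hsum0 := sum_nonneg fun n (_ : n ∈ range (3 * k)) => hsn n
    have hg0 : 0 ≤ (if (S, T, U) ∈ GdB Q Q' τ l k then w S * (w T * v U) else 0) := hite _
    by_cases hBN : B S ∧ Nm τ L T U
    · rw [if_pos hBN]
      by_cases hg : (S, T, U) ∈ GdB Q Q' τ l k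
      · rw [if_pos hg]
        linarith
      · have hex : ∃ n ∈ range (3 * k), (n % 3 ≠ 1 ∧ Nm (st τ l n) (st τ l n + l) S T) ∨
            (n % 3 = 1 ∧ Nm (st τ l n) (st τ l n + l) S U) := by
          by_contra hcon
          push Not at hcon
          refine hg ?_
          unfold GdB
          rw [mem_filter]
          refine ⟨?_, hS, hT⟩
          unfold Gd
          rw [mem_filter, mem_product, mem_product]
          refine ⟨⟨hQ hS, hQ hT, hU⟩, ?_, ?_, ?_⟩
          · intro i hi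
            rw [mem_range] at hi
            refine ⟨(hcon (3 * i) (mem_range.2 (by omega))).1 (by omega),
              (hcon (3 * i + 2) (mem_range.2 (by omega))).1 (by omega)⟩
          · intro i hi
            rw [mem_range] at hi
            exact (hcon (3 * i + 1) (mem_range.2 (by omega))).2 (by omega)
          · intro i hi j hk1 hk2
            rw [mem_range] at hi
            have g1 := le_st τ l (3 * i + 1)
            have g2 := st_end (τ := τ) (l := l) (q := k) (n := 3 * i + 1) (by omega)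
            exact hBN.2 j (by omega) (by omega)
        obtain ⟨n, hn, hor⟩ := hex
        have h1 : w S * (w T * v U) ≤ (if B S ∧ n % 3 ≠ 1 ∧ Nm (st τ l n) (st τ l n + l) S T then w S * (w T * v U) else 0) +
            (if B S ∧ n % 3 = 1 ∧ Nm (st τ l n) (st τ l n + l) S U then w S * (w T * v U) else 0) := by
          rcases hor with ho | ho
          · rw [if_pos ⟨hBN.1, ho⟩]
            have := hite (B S ∧ n % 3 = 1 ∧ Nm (st τ l n) (st τ l n + l) S U)
            linarith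
          · rw [if_pos (show B S ∧ n % 3 = 1 ∧ Nm (st τ l n) (st τ l n + l) S U from ⟨hBN.1, ho⟩)]
            have := hite (B S ∧ n % 3 ≠ 1 ∧ Nm (st τ l n) (st τ l n + l) S T)
            linarith
        have h2 := single_le_sum
          (f := fun n => (if B S ∧ n % 3 ≠ 1 ∧ Nm (st τ l n) (st τ l n + l) S T then w S * (w T * v U) else 0) +
            (if B S ∧ n % 3 = 1 ∧ Nm (st τ l n) (st τ l n + l) S U then w S * (w T * v U) else 0)) (fun n _ => hsn n) hn
        linarith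
    · rw [if_neg hBN]
      linarith
  have hv0 : 0 ≤ ∑ U ∈ Q', v U := sum_nonneg hv
  have hws0 : 0 ≤ ∑ T ∈ Q, w T := sum_nonneg hw0
  have hmiss : ∀ n ∈ range (3 * k), ∑ S ∈ Q, ∑ T ∈ Q, ∑ U ∈ Q',
      ((if B S ∧ n % 3 ≠ 1 ∧ Nm (st τ l n) (st τ l n + l) S T then w S * (w T * v U) else 0) +
        (if B S ∧ n % 3 = 1 ∧ Nm (st τ l n) (st τ l n + l) S U then w S * (w T * v U) else 0)) ≤ d := by
    intro n hn
    rw [mem_range] at hn
    have hS1 : ∀ S ∈ Q, ∑ T ∈ Q, ∑ U ∈ Q',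
        ((if B S ∧ n % 3 ≠ 1 ∧ Nm (st τ l n) (st τ l n + l) S T then w S * (w T * v U) else 0) +
          (if B S ∧ n % 3 = 1 ∧ Nm (st τ l n) (st τ l n + l) S U then w S * (w T * v U) else 0)) ≤ w S * d := by
      intro S hS
      by_cases hBS : B S
      · have hm := hBS n hn
        by_cases h3 : n % 3 = 1
        · have e2 : ∑ T ∈ Q, ∑ U ∈ Q', ((if B S ∧ n % 3 ≠ 1 ∧ Nm (st τ l n) (st τ l n + l) S T then w S * (w T * v U) else 0) +
              (if B S ∧ n % 3 = 1 ∧ Nm (st τ l n) (st τ l n + l) S U then w S * (w T * v U) else 0)) =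
              w S * ((∑ T ∈ Q, w T) * mn Q' v τ l n S) := by
            unfold mn
            rw [sum_mul, mul_sum]
            refine sum_congr rfl fun T _ => ?_
            rw [mul_sum, mul_sum]
            refine sum_congr rfl fun U _ => ?_
            rw [if_neg fun h4 => h4.2.1 h3, zero_add]
            by_cases h5 : Nm (st τ l n) (st τ l n + l) S U
            · rw [if_pos ⟨hBS, h3, h5⟩, if_pos h5]
            · rw [if_neg fun h6 => h5 h6.2.2, if_neg h5, mul_zero, mul_zero]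
          rw [e2]
          refine mul_le_mul_of_nonneg_left ?_ (hw0 S hS)
          have hmn : 0 ≤ mn Q' v τ l n S := by
            unfold mn
            refine sum_nonneg fun U hU => ?_
            split_ifs
            · exact hv U hU
            · exact le_rfl
          calc (∑ T ∈ Q, w T) * mn Q' v τ l n S ≤ 1 * mn Q' v τ l n S := mul_le_mul_of_nonneg_right htot hmn
            _ ≤ d := by rw [one_mul]; exact hm.2
        · have e2 : ∑ T ∈ Q, ∑ U ∈ Q', ((if B S ∧ n % 3 ≠ 1 ∧ Nm (st τ l n) (st τ l n + l) S T then w S * (w T * v U) else 0) +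
              (if B S ∧ n % 3 = 1 ∧ Nm (st τ l n) (st τ l n + l) S U then w S * (w T * v U) else 0)) =
              w S * (mn Q w τ l n S * ∑ U ∈ Q', v U) := by
            unfold mn
            rw [sum_mul, mul_sum]
            refine sum_congr rfl fun T _ => ?_
            rw [mul_sum, mul_sum]
            refine sum_congr rfl fun U _ => ?_
            rw [if_neg (show ¬ (B S ∧ n % 3 = 1 ∧ Nm (st τ l n) (st τ l n + l) S U) from fun h4 => h3 h4.2.1), add_zero]
            by_cases h5 : Nm (st τ l n) (st τ l n + l) S T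
            · rw [if_pos ⟨hBS, h3, h5⟩, if_pos h5]
            · rw [if_neg fun h6 => h5 h6.2.2, if_neg h5, zero_mul, mul_zero]
          rw [e2]
          refine mul_le_mul_of_nonneg_left ?_ (hw0 S hS)
          have hmn : 0 ≤ mn Q w τ l n S := by
            unfold mn
            refine sum_nonneg fun T hT => ?_
            split_ifs
            · exact hw0 T hT
            · exact le_rfl
          calc mn Q w τ l n S * ∑ U ∈ Q', v U ≤ mn Q w τ l n S * 1 := mul_le_mul_of_nonneg_left hv1 hmn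
            _ ≤ d := by rw [mul_one]; exact hm.1
      · rw [sum_eq_zero fun T _ => sum_eq_zero fun U _ => by
          rw [if_neg fun h4 => hBS h4.1, if_neg fun h4 => hBS h4.1, add_zero]]
        exact mul_nonneg (hw0 S hS) hd
    refine (sum_le_sum hS1).trans ?_
    rw [← sum_mul]
    calc _ ≤ 1 * d := mul_le_mul_of_nonneg_right htot hd
      _ = d := one_mul d
  rw [e1]
  have e3 : ∑ S ∈ Q, ∑ T ∈ Q, ∑ U ∈ Q', (if (S, T, U) ∈ GdB Q Q' τ l k then w S * (w T * v U) else 0) =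
      ∑ x ∈ GdB Q Q' τ l k, wB w v x := by
    have e4 : ∑ x ∈ Q ×ˢ Q ×ˢ Q', (if x ∈ GdB Q Q' τ l k then wB w v x else 0) = ∑ x ∈ GdB Q Q' τ l k, wB w v x := by
      rw [← sum_filter]
      refine sum_congr ?_ fun _ _ => rfl
      ext x
      rw [mem_filter]
      refine ⟨fun h1 => h1.2, fun h1 => ⟨?_, h1⟩⟩
      have h2 := h1
      unfold GdB at h2
      rw [mem_filter] at h2
      obtain ⟨h2, h3, h4⟩ := h2
      unfold Gd at h2
      have h5 := (mem_filter.1 h2).1
      rw [mem_product, mem_product] at h5 ⊢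
      exact ⟨h3, h4, h5.2.2⟩
    rw [← e4, sum_product]
    refine sum_congr rfl fun S _ => ?_
    rw [sum_product]
    refine sum_congr rfl fun T _ => ?_
    refine sum_congr rfl fun U _ => ?_
    unfold wB
    simp only [mul_assoc]
  have hgd := gdB_le (Q' := Q') (v := v) h hv hv1 τ l k
  have hgd' : ∑ x ∈ GdB Q Q' τ l k, wB w v x ≤ (1 / 2) ^ k := by
    rw [one_div, inv_pow]
    rw [← one_div, le_div_iff₀ (by positivity)]
    linarith
  calc _ ≤ ∑ S ∈ Q, ∑ T ∈ Q, ∑ U ∈ Q', ((if (S, T, U) ∈ GdB Q Q' τ l k then w S * (w T * v U) else 0) +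
      ∑ n ∈ range (3 * k), ((if B S ∧ n % 3 ≠ 1 ∧ Nm (st τ l n) (st τ l n + l) S T then w S * (w T * v U) else 0) +
        (if B S ∧ n % 3 = 1 ∧ Nm (st τ l n) (st τ l n + l) S U then w S * (w T * v U) else 0))) :=
        sum_le_sum fun S hS => sum_le_sum fun T hT => sum_le_sum fun U hU => key S hS T hT U hU
    _ = ∑ x ∈ GdB Q Q' τ l k, wB w v x + ∑ n ∈ range (3 * k), ∑ S ∈ Q, ∑ T ∈ Q, ∑ U ∈ Q',
        ((if B S ∧ n % 3 ≠ 1 ∧ Nm (st τ l n) (st τ l n + l) S T then w S * (w T * v U) else 0) +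
        (if B S ∧ n % 3 = 1 ∧ Nm (st τ l n) (st τ l n + l) S U then w S * (w T * v U) else 0)) := by
        rw [← e3, sum_comm (s := range (3 * k)), ← sum_add_distrib]
        refine sum_congr rfl fun S _ => ?_
        rw [sum_comm (s := range (3 * k)), ← sum_add_distrib]
        refine sum_congr rfl fun T _ => ?_
        rw [sum_comm (s := range (3 * k)), ← sum_add_distrib]
    _ ≤ (1 / 2) ^ k + ∑ n ∈ range (3 * k), d := add_le_add hgd' (sum_le_sum hmiss)
    _ = (1 / 2) ^ k + 3 * k * d := by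
        rw [sum_const, card_range, nsmul_eq_mul]
        push_cast
        ring

end Two

/-! ### In the model -/

section Fib

variable {μ : Measure ℝ} {s : ℝ} {N : ℕ} {Q : Finset (Finset ℕ)}
variable {Y Y' : Type*} [DecidableEq Y] [DecidableEq Y'] [Nonempty (Px Q)]

open Classical in
/-- The paths without an alternative given `r` or given `q` in the pieces. -/
def bI2 (w : Px Q → ℝ) (r : Px Q → Y') (q : Px Q → Y) (τ l k : ℕ) (d : ℝ) (S : Px Q) : ℝ :=
  if ∀ n < 3 * k, mI w r (st τ l n) (st τ l n + l) S ≤ d ∧ mI w q (st τ l n) (st τ l n + l) S ≤ d then 1 else 0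

theorem gBB_fb (w : Px Q → ℝ) {r : Px Q → Y'} {q : Px Q → Y} (hc : Crs q r) (S₀ : Px Q) (τ l k : ℕ) (d : ℝ) :
    gBB (fbQ r S₀) (fbQ q S₀) (fbw w r S₀) (fbw w q S₀) τ l k d = cE w r (bI2 w r q τ l k d) S₀ := by
  classical
  unfold gBB
  have h := sum_fbQ w r S₀ fun S => if ∀ n < 3 * k, mn (fbQ r S₀) (fbw w r S₀) τ l n S ≤ d ∧
    mn (fbQ q S₀) (fbw w q S₀) τ l n S ≤ d then 1 else 0
  have h1 : cE w r (fun T : Px Q => if ∀ n < 3 * k, mn (fbQ r S₀) (fbw w r S₀) τ l n T.1 ≤ d ∧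
      mn (fbQ q S₀) (fbw w q S₀) τ l n T.1 ≤ d then (1 : ℝ) else 0) S₀ = cE w r (bI2 w r q τ l k d) S₀ := by
    unfold cE
    congr 1
    refine sum_congr rfl fun T _ => ?_
    by_cases hT : r T = r S₀
    · rw [if_pos hT, if_pos hT]
      congr 1
      unfold bI2
      simp only [mn_fb w r S₀ T hT, mn_fb w q S₀ T (hc _ _ hT)]
    · rw [if_neg hT, if_neg hT]
  rw [← h1, ← h]
  refine sum_congr rfl fun S _ => ?_
  split_ifs
  · rw [mul_one]
  · rw [mul_zero]

theorem pB_fb (w : Px Q → ℝ) {r : Px Q → Y'} {q : Px Q → Y} (hc : Crs q r) (S₀ : Px Q) (i j : ℕ) :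
    pB45 (fbQ r S₀) (fbQ q S₀) (fbw w r S₀) (fbw w q S₀) i j = cE w r (mI w q i j) S₀ := by
  classical
  have h3 := sum_fbQ w r S₀ fun S => if hS : S ∈ Q then mI w q i j ⟨S, hS⟩ else 0
  have h4 : cE w r (fun T : Px Q => if hS : T.1 ∈ Q then mI w q i j ⟨T.1, hS⟩ else 0) S₀ = cE w r (mI w q i j) S₀ := by
    congr 1
    funext T
    rw [dif_pos T.2]
  rw [← h4, ← h3]
  unfold pB45
  refine sum_congr rfl fun T hT => ?_
  obtain ⟨hT1, hT2⟩ := mem_fbQ.1 hT
  rw [dif_pos hT1]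
  have h := sum_fbQ w q S₀ fun U => if Nm i j T U then 1 else 0
  have h5 : mI w q i j ⟨T, hT1⟩ = cE w q (fun U : Px Q => if Nm i j T U.1 then (1 : ℝ) else 0) S₀ := by
    unfold mI
    rw [← nm_NI]
    exact cE_meas w q _ _ _ (hc _ _ hT2)
  rw [h5, ← h, mul_sum]
  refine sum_congr rfl fun U _ => ?_
  split_ifs
  · ring
  · ring

/-- **THE MIXED ROBUST STEP IN THE MODEL**, outer condition `r` finer than the inner one `q`. -/
theorem robBM [MxQ Q] (η : Env) {r : Px Q → Y'} {q : Px Q → Y} (hc : Crs q r) (hr : SwP r) (S₀ : Px Q) (τ l k : ℕ) {d : ℝ}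
    (hd : 0 ≤ d) {L : ℕ} (hL : τ + 3 * k * (l + 1) ≤ L) :
    cE (lw μ s η N Q) r (bI2 (lw μ s η N Q) r q τ l k d) S₀ * cE (lw μ s η N Q) r (mI (lw μ s η N Q) q τ L) S₀ ≤
      (1 / 2) ^ k + 3 * k * d := by
  classical
  have h0 : ∀ U ∈ fbQ q S₀, 0 ≤ fbw (lw μ s η N Q) q S₀ U := fun U _ => by
    unfold fbw
    split_ifs
    · exact div_nonneg (Real.exp_pos _).le (fz_pos _ _ _).le
    · exact le_rfl
  have h1 : ∑ U ∈ fbQ q S₀, fbw (lw μ s η N Q) q S₀ U ≤ 1 := by
    have h := sum_fbQ (lw μ s η N Q) q S₀ fun _ => 1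
    simp only [mul_one] at h
    rw [h]
    exact le_of_eq (congrFun (cE_one _ _) S₀)
  have hsub : fbQ r S₀ ⊆ fbQ q S₀ := fun T hT => by
    obtain ⟨hT1, hT2⟩ := mem_fbQ.1 hT
    exact mem_fbQ.2 ⟨hT1, hc _ _ hT2⟩
  have h := robB hsub (swF_fb (μ := μ) (s := s) (N := N) η hr S₀) h0 h1 τ l k hd hL
  rwa [gBB_fb _ hc, pB_fb _ hc] at h

theorem rob_tauB [MxQ Q] (η : Env) {r : Px Q → Y'} {q : Px Q → Y} (hc : Crs q r) (hr : SwP r) (S₀ : Px Q) (τ l k : ℕ) {M : ℝ}
    (hM : 8 ≤ M) (hk : 10 * M ≤ k) (hk' : (k : ℝ) ≤ 20 * M) {L : ℕ} (hL : τ + 3 * k * (l + 1) ≤ L)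
    (h : TauM (lw μ s η N Q) r q τ L M S₀) :
    cE (lw μ s η N Q) r (bI2 (lw μ s η N Q) r q τ l k (Real.exp (-(7 * M)))) S₀ ≤ Real.exp (-M) := by
  refine num45 hM hk hk' (le_trans ?_ (robBM (μ := μ) (s := s) (N := N) η hc hr S₀ τ l k (Real.exp_pos (-(7 * M))).le hL))
  refine mul_le_mul_of_nonneg_left h (cE_nonneg _ _ (fun S => ?_) _)
  unfold bI2
  split_ifs
  · exact zero_le_one
  · exact le_rfl

open Classical in
/-- **The paths with `TauM` (outer `r` finer than the inner `q`) and with neither `Rp` given `r` nor `Rp` given `q` have mass at most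
`exp (- M)`.** -/
theorem tauM_rpB [MxQ Q] (η : Env) {r : Px Q → Y'} {q : Px Q → Y} (hc : Crs q r) (hr : SwP r)
    (τ l k : ℕ) {M : ℝ} (hM : 8 ≤ M) (hk : 10 * M ≤ k) (hk' : (k : ℝ) ≤ 20 * M) {L : ℕ} (hL : τ + 3 * k * (l + 1) ≤ L) :
    gm (lw μ s η N Q) (fun S => if TauM (lw μ s η N Q) r q τ L M S ∧
        ¬ (Rp (lw μ s η N Q) r τ l k M S ∨ Rp (lw μ s η N Q) q τ l k M S) then 1 else 0) ≤ Real.exp (-M) := by
  set w := lw μ s η N Q with hw
  have e1 : (fun S => if TauM w r q τ L M S ∧ ¬ (Rp w r τ l k M S ∨ Rp w q τ l k M S) then (1 : ℝ) else 0) =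
      (fun S => if TauM w r q τ L M S then (1 : ℝ) else 0) * bI2 w r q τ l k (Real.exp (-(7 * M))) := by
    funext S
    rw [Pi.mul_apply]
    unfold bI2 Rp
    by_cases h1 : TauM w r q τ L M S
    · by_cases h2 : ∀ n < 3 * k, mI w r (st τ l n) (st τ l n + l) S ≤ Real.exp (-(7 * M)) ∧
        mI w q (st τ l n) (st τ l n + l) S ≤ Real.exp (-(7 * M))
      · rw [if_pos h1, if_pos h2, if_pos ⟨h1, by
          push Not
          exact ⟨fun n hn => (h2 n hn).1, fun n hn => (h2 n hn).2⟩⟩, mul_one]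
      · rw [if_neg h2, if_neg, mul_zero]
        rintro ⟨-, h3⟩
        push Not at h3
        exact h2 fun n hn => ⟨h3.1 n hn, h3.2 n hn⟩
    · rw [if_neg h1, if_neg fun h3 => h1 h3.1, zero_mul]
  have hmp : Mp r (fun S => if TauM w r q τ L M S then (1 : ℝ) else 0) := fun S S' h => by
    simp only [tauM_meas w r q τ L M h]
  rw [e1, ← gm_mul_cE w hmp]
  refine (gm_mono w (g := fun _ => Real.exp (-M)) fun S => ?_).trans (gm_const w _).le
  rw [Pi.mul_apply]
  split_ifs with h1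
  · rw [one_mul]
    exact rob_tauB η hc hr S τ l k hM hk hk' hL h1
  · rw [zero_mul]
    exact (Real.exp_pos _).le

end Fib

end

end Pool.W7d29a1.C0.R43
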