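import Pool.Agent.W_7d29a1_C0.Cor45B
import Pool.Agent.W_7d29a1_C0.Rob45B

/-!
MP_7d29a1_pr, [CURV0] / [C0], leaf E2.6, PART L (helper45): **THE MAJORANTS OF PART L, TOLD FROM THE BASE PATH, AT THE TILTED WEIGHTS.**

The micro tie is told given `q m` (`pJ m e`) and averaged exactly over a finer (or equal) condition `r m` (`pJ m z`, `pJ m e`) of which the
own pair and the tie of `f` are functions (`nn_avL45`). `MicL45`: its input; `mic_stat45`: the general passage from the functionals to the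
events of the base path; `T2L45`, `TpL45`, `T0QL45`. `tauX_rp45`: the mixed micro event at the actual weights is replaced by an alternative
of the base path, given `r` or given `q`. `mix_ev45`: the input of `MicL45` for every environment.
-/

set_option autoImplicit false
set_option linter.unusedSectionVars false
set_option linter.unusedVariables false

namespace Pool.W7d29a1.C0.C45

open Finset MeasureTheory Pool.Agent.W_7d29a1_F Pool.Agent.W_7d29a1_X Pool.Agent.W_7d29a1_C0.Mod92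
open Pool.Agent.W_7d29a1_C0.Swap57 Pool.Agent.W_7d29a1_C0.Blk18 Pool.Agent.W_7d29a1_C0.NM82
open Pool.Agent.W_7d29a1_C0.MicE14 (rh rh_nonneg nn Cq)
open Pool.Agent.W_7d29a1_C0.CutT57 (NI_congr NI_le_one)
open Pool.Agent.W_7d29a1_C0.T72 (Sp72 Rb72 ind72 ind72_nonneg ind72_le_one meas_ind72 meas_fix crs_pB72 ps_of_pB72)
open Pool.Agent.W_7d29a1_C0.EvT50 (cE2_diag nC nC_nonneg nC_le_one)
open Pool.W7d29a1.C0 (gz gm gz_ne gz_pos gm_nonneg gm_mono gm_const PP PP_eq PP_mono PP_nonneg PP_add PP_smul)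
open Pool.W7d29a1.C0.VT31
open Pool.W7d29a1.C0.R43
open Pool.W7d29a1.C0.H27 (pB slb)
open Pool.W7d29a1.C0.Row39 (PP_fst PP_const PP_sum)

noncomputable section

section Two

variable {X : Type*} [Fintype X] [Nonempty X] [DecidableEq X] {Y Y' : Type*} [DecidableEq Y] [DecidableEq Y']

/-- **The micro tie averaged over any condition of which the rest is a function.** -/
theorem nn_avL45 (w : X → ℝ) {J : Finset ℕ} (r : ℕ → X → Y) (q : ℕ → X → Y') (g : X → ℝ) {R : X → X → ℝ}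
    (hR : ∀ m ∈ J, ∀ y, Mp (r m) fun x => R x y) :
    PP w (fun x y => nn w J q g x * R x y) =
      (J.card : ℝ)⁻¹ * ∑ m ∈ J, PP w fun x y => cE w (r m) (fun z => cE w (q m) (fun T => |g z - g T|) z) x * R x y := by
  have e1 : (fun x y => nn w J q g x * R x y) = fun x y =>
      (J.card : ℝ)⁻¹ * ∑ m ∈ J, cE w (q m) (fun T => |g x - g T|) x * R x y := by
    funext x y
    unfold nn
    rw [mul_assoc, sum_mul]
  rw [e1, PP_smul, PP_sum]
  congr 1
  refine sum_congr rfl fun m hm => ?_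
  exact PP_pull45 (q := r m) w (fun x => cE w (q m) (fun T => |g x - g T|) x) (hR m hm)

end Two

section L

variable {μ : Measure ℝ} {s : ℝ} {N : ℕ} {Q : Finset (Finset ℕ)} [IsProbabilityMeasure μ] [SwQ Q] [Nonempty (Px Q)]
variable {c0 K : ℕ} {u : Finset ℕ → Env → Px Q → ℝ} {Y Y' : Type*} [DecidableEq Y] [DecidableEq Y']

/-- **The input of the micro tie, part L**: `y` given `q m` of a path `x` drawn given `r m` has the same value of `g`, up to the event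
`T m`, a bad event `bad m` which is paid at the tilted weights, and `e2`. -/
structure MicL45 (μ : Measure ℝ) (s : ℝ) (N : ℕ) (Q : Finset (Finset ℕ)) (u : Finset ℕ → Env → Px Q → ℝ) (g : Env × Finset ℕ → Px Q → ℝ)
    (J : Finset ℕ) (r : ℕ → Px Q → Y) (q : ℕ → Px Q → Y') (B e2 rr : ℝ) (T : ℕ → Env × Finset ℕ → Px Q → Prop) : Prop where
  gB : ∀ ω x y, |g ω x - g ω y| ≤ B
  ms : ∀ S, Measurable fun ω => g ω S
  tm : ∀ m ∈ J, ∀ S, MeasurableSet {ω | T m ω S}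
  e0 : 0 ≤ e2
  tt : ∃ bad : ℕ → Env × Finset ℕ → Px Q → ℝ, (∀ m S, Measurable fun ω => bad m ω S) ∧ (∀ m ω S, 0 ≤ bad m ω S ∧ bad m ω S ≤ 1) ∧
    (∀ m ∈ J, ∀ ω S, cE (wu μ s N Q u ω) (r m) (fun x => cE (wu μ s N Q u ω) (q m) (fun y => |g ω x - g ω y|) x) S ≤
      B * ind72 (T m) ω S + (B * bad m ω S + e2)) ∧
    ∀ m ∈ J, ∫ ω, gm (wu μ s N Q u ω) (bad m ω) ∂(Pm μ N) ≤ rr

/-- **THE OWN PAIR AND THE MICRO TIE, TOLD FROM THE BASE PATH, AT THE TILTED WEIGHTS.** -/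
theorem mic_stat45 (hum : ∀ S, Measurable fun ω : Env × Finset ℕ => u ω.2 ω.1 S) {B e2 rr : ℝ} (hB : 0 ≤ B) {z c : ℕ}
    {g : Env × Finset ℕ → Px Q → ℝ} {J : Finset ℕ} {r : ℕ → Px Q → Y} {q : ℕ → Px Q → Y'} {T : ℕ → Env × Finset ℕ → Px Q → Prop}
    (hmic : MicL45 μ s N Q u g J r q B e2 rr T) (hJ0 : J.Nonempty) {F : ℝ}
    {f : Env × Finset ℕ → Px Q → ℝ} (hf : Sp72 Q c F c0 K f)
    {V : Env × Finset ℕ → Px Q → ℝ} {E : Env × Finset ℕ → Px Q → Prop} {e1 : ℝ}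
    (hV : OwnE (wu μ s N Q u) V E e1) (hEs : ∀ S, MeasurableSet {ω | E ω S})
    (hEm : ∀ m ∈ J, ∀ ω S S', r m S = r m S' → (E ω S ↔ E ω S'))
    (hrh : ∀ m ∈ J, ∀ ω y, Mp (r m) fun x => rh z c (f ω) x y) (V0 : ∀ ω S, 0 ≤ V ω S) (V1 : ∀ ω S, V ω S ≤ 1)
    (Vm : ∀ S, Measurable fun ω => V ω S) :
    ∫ ω, PP (wu μ s N Q u ω) (fun x y => V ω x *
        (nn (wu μ s N Q u ω) J q (g ω) x * rh z c (f ω) x y)) ∂(Pm μ N) ≤
      B * ((J.card : ℝ)⁻¹ * ∑ m ∈ J, ∫ ω, PP (wu μ s N Q u ω)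
          (fun x y => ind72 (fun ω S => E ω S ∧ T m ω S) ω x * rh z c (f ω) x y) ∂(Pm μ N)) +
      (B * (2 * F) * e1 + (B * rr + e2) * (2 * F)) := by
  obtain ⟨bad, bm, b01, htt, hrr⟩ := hmic.tt
  obtain ⟨S₀⟩ : Nonempty (Px Q) := inferInstance
  have hF0 : 0 ≤ 2 * F := (rh_nonneg _ _ _).trans (rh_le45 (z := z) hf (fun _ => 0, ∅) S₀ S₀)
  have hcard : (0 : ℝ) < J.card := Nat.cast_pos.2 (card_pos.2 hJ0)
  have he20 := hmic.e0
  have hgB := hmic.gB
  have hgm := hmic.ms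
  have n0 : ∀ ω x, 0 ≤ nn (wu μ s N Q u ω) J q (g ω) x := fun ω x => by
    unfold nn
    exact mul_nonneg (inv_nonneg.2 hcard.le) (sum_nonneg fun m _ => cE_nonneg _ _ (fun y => abs_nonneg _) x)
  have n1 : ∀ ω x, nn (wu μ s N Q u ω) J q (g ω) x ≤ B := fun ω x => by
    unfold nn
    rw [inv_mul_le_iff₀ hcard]
    refine (sum_le_sum fun m _ => ?_).trans (le_of_eq (by rw [sum_const, nsmul_eq_mul]))
    have h1 := cE_mono (wu μ s N Q u ω) (q m) (f := fun T => |g ω x - g ω T|) (g := B • fun _ => (1 : ℝ)) (fun y => by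
      rw [Pi.smul_apply, smul_eq_mul, mul_one]
      exact hgB ω x y) x
    rwa [cE_smul, Pi.smul_apply, smul_eq_mul, congrFun (cE_one _ _) x, mul_one] at h1
  have nm : ∀ x, Measurable fun ω => nn (wu μ s N Q u ω) J q (g ω) x := fun x => by
    unfold nn
    refine Measurable.const_mul (Finset.measurable_fun_sum _ fun m _ => ?_) _
    exact meas_cE (meas_wu hum) (f := fun ω T => |g ω x - g ω T|) (fun T => ((hgm x).sub (hgm T)).abs) _ x
  set ET : ℕ → Env × Finset ℕ → Px Q → Prop := fun m ω S => E ω S ∧ T m ω S with hTd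
  have hpt : ∀ ω, PP (wu μ s N Q u ω) (fun x y => V ω x * (nn (wu μ s N Q u ω) J q (g ω) x * rh z c (f ω) x y)) ≤
      (J.card : ℝ)⁻¹ * ∑ m ∈ J, (B * PP (wu μ s N Q u ω) (fun x y => ind72 (ET m) ω x * rh z c (f ω) x y) +
        2 * F * B * gm (wu μ s N Q u ω) (bad m ω)) + (B * (2 * F) * e1 + e2 * (2 * F)) := fun ω => by
    set w := wu μ s N Q u ω with hw
    have h1 := hV ω (fun x y => nn w J q (g ω) x * rh z c (f ω) x y) (B * (2 * F))
      (fun x y => mul_nonneg (n0 ω x) (rh_nonneg _ _ _)) (fun x y => mul_le_mul (n1 ω x) (rh_le45 hf ω x y) (rh_nonneg _ _ _) hB)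
    have h2 : PP w (fun x y => ind72 E ω x * (nn w J q (g ω) x * rh z c (f ω) x y)) =
        (J.card : ℝ)⁻¹ * ∑ m ∈ J, PP w fun x y => cE w (r m) (fun z => cE w (q m) (fun T => |g ω z - g ω T|) z) x *
          (ind72 E ω x * rh z c (f ω) x y) := by
      rw [← nn_avL45 w r q (g ω) (R := fun x y => ind72 E ω x * rh z c (f ω) x y)]
      · congr 1
        funext x y
        show ind72 E ω x * (nn w J q (g ω) x * rh z c (f ω) x y) = nn w J q (g ω) x * (ind72 E ω x * rh z c (f ω) x y)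
        ring
      · intro m hm y x x' hx
        show ind72 E ω x * rh z c (f ω) x y = ind72 E ω x' * rh z c (f ω) x' y
        have e3 : ind72 E ω x = ind72 E ω x' := by
          unfold ind72
          rw [show E ω x = E ω x' from propext (hEm m hm ω x x' hx)]
        have e4 : rh z c (f ω) x y = rh z c (f ω) x' y := hrh m hm ω y x x' hx
        rw [e3, e4]
    have h3 : ∀ m ∈ J, PP w (fun x y => cE w (r m) (fun z => cE w (q m) (fun T => |g ω z - g ω T|) z) x *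
          (ind72 E ω x * rh z c (f ω) x y)) ≤
        (B * PP w (fun x y => ind72 (ET m) ω x * rh z c (f ω) x y) + 2 * F * B * gm w (bad m ω)) + e2 * (2 * F) := fun m hm => by
      have h4 : ∀ x y, cE w (r m) (fun z => cE w (q m) (fun T => |g ω z - g ω T|) z) x * (ind72 E ω x * rh z c (f ω) x y) ≤
          (B * (ind72 (ET m) ω x * rh z c (f ω) x y) + 2 * F * B * bad m ω x) + e2 * (2 * F) := fun x y => by
        have h5 := htt m hm ω x
        have h6 : 0 ≤ ind72 E ω x * rh z c (f ω) x y := mul_nonneg (ind72_nonneg _ _ _) (rh_nonneg _ _ _)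
        have h7 : ind72 E ω x * rh z c (f ω) x y ≤ 2 * F := by
          calc ind72 E ω x * rh z c (f ω) x y ≤ 1 * rh z c (f ω) x y :=
                mul_le_mul_of_nonneg_right (ind72_le_one _ _ _) (rh_nonneg _ _ _)
            _ ≤ 2 * F := by rw [one_mul]; exact rh_le45 hf ω x y
        have h8 : ind72 (ET m) ω x = ind72 (T m) ω x * ind72 E ω x := by
          unfold ind72
          simp only [hTd]
          by_cases a1 : E ω x
          · by_cases a2 : T m ω x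
            · rw [if_pos a1, if_pos a2, if_pos (⟨a1, a2⟩ : E ω x ∧ _), mul_one]
            · rw [if_pos a1, if_neg a2, if_neg fun h => a2 h.2, zero_mul]
          · rw [if_neg a1, if_neg fun h => a1 h.1, mul_zero]
        rw [h8]
        have h9 : 0 ≤ B * bad m ω x + e2 := add_nonneg (mul_nonneg hB (b01 m ω x).1) he20
        calc cE w (r m) (fun z => cE w (q m) (fun T => |g ω z - g ω T|) z) x * (ind72 E ω x * rh z c (f ω) x y) ≤
              (B * ind72 (T m) ω x + (B * bad m ω x + e2)) * (ind72 E ω x * rh z c (f ω) x y) :=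
              mul_le_mul_of_nonneg_right h5 h6
          _ = B * (ind72 (T m) ω x * ind72 E ω x * rh z c (f ω) x y) +
              (B * bad m ω x + e2) * (ind72 E ω x * rh z c (f ω) x y) := by ring
          _ ≤ B * (ind72 (T m) ω x * ind72 E ω x * rh z c (f ω) x y) + (B * bad m ω x + e2) * (2 * F) :=
              add_le_add le_rfl (mul_le_mul_of_nonneg_left h7 h9)
          _ = _ := by ring
      refine (PP_mono w h4).trans (le_of_eq ?_)
      rw [PP_add w (fun x y => B * (ind72 (ET m) ω x * rh z c (f ω) x y) + 2 * F * B * bad m ω x) (fun _ _ => e2 * (2 * F)),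
        PP_const, PP_add w (fun x y => B * (ind72 (ET m) ω x * rh z c (f ω) x y)) (fun x _ => 2 * F * B * bad m ω x), PP_smul,
        PP_smul w (2 * F * B) (fun x _ => bad m ω x), PP_fst]
    have h4 := mul_le_mul_of_nonneg_left (sum_le_sum h3) (inv_nonneg.2 hcard.le)
    rw [sum_add_distrib, sum_const, nsmul_eq_mul, mul_add, ← mul_assoc (J.card : ℝ)⁻¹ (J.card : ℝ), inv_mul_cancel₀ hcard.ne',
      one_mul] at h4
    rw [h2] at h1
    linarith
  have hTm : ∀ m ∈ J, ∀ S, MeasurableSet {ω | ET m ω S} := fun m hm S => (hEs S).inter (hmic.tm m hm S)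
  have i1 : Integrable (fun ω => PP (wu μ s N Q u ω) (fun x y => V ω x *
      (nn (wu μ s N Q u ω) J q (g ω) x * rh z c (f ω) x y))) (Pm μ N) :=
    int_bdd (M := 1 * (B * (2 * F))) (meas_PP45 (meas_wu hum) fun x y => (Vm x).mul ((nm x).mul (meas_rh45 hf x y)))
      fun ω => abs_PP_le45 _ (fun x y => mul_nonneg (V0 _ _) (mul_nonneg (n0 ω x) (rh_nonneg _ _ _))) fun x y =>
        mul_le_mul (V1 _ _) (mul_le_mul (n1 ω x) (rh_le45 hf ω x y) (rh_nonneg _ _ _) hB)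
          (mul_nonneg (n0 ω x) (rh_nonneg _ _ _)) zero_le_one
  have i2 : ∀ m ∈ J, Integrable (fun ω => B * PP (wu μ s N Q u ω) (fun x y => ind72 (ET m) ω x * rh z c (f ω) x y)) (Pm μ N) :=
    fun m hm => (int_bdd (M := 1 * (2 * F)) (meas_PP45 (meas_wu hum) fun x y =>
      (meas_ind72 (hTm m hm) x).mul (meas_rh45 hf x y)) fun ω =>
        abs_PP_le45 _ (fun x y => mul_nonneg (ind72_nonneg _ _ _) (rh_nonneg _ _ _)) fun x y =>
          mul_le_mul (ind72_le_one _ _ _) (rh_le45 hf ω x y) (rh_nonneg _ _ _) zero_le_one).const_mul B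
  have i4 : ∀ m, Integrable (fun ω => 2 * F * B * gm (wu μ s N Q u ω) (bad m ω)) (Pm μ N) := fun m =>
    (int_bdd (M := 1) (meas_gm (meas_wu hum) (bm m)) fun ω => by
      rw [abs_of_nonneg (gm_nonneg _ fun S => (b01 m ω S).1)]
      exact (gm_mono _ (g := fun _ => 1) fun S => (b01 m ω S).2).trans (gm_const _ _).le).const_mul _
  have i5 : ∀ m ∈ J, Integrable (fun ω => B * PP (wu μ s N Q u ω) (fun x y => ind72 (ET m) ω x * rh z c (f ω) x y) +
      2 * F * B * gm (wu μ s N Q u ω) (bad m ω)) (Pm μ N) := fun m hm => (i2 m hm).add (i4 m)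
  have i3 : Integrable (fun ω => (J.card : ℝ)⁻¹ * ∑ m ∈ J, (B * PP (wu μ s N Q u ω)
      (fun x y => ind72 (ET m) ω x * rh z c (f ω) x y) + 2 * F * B * gm (wu μ s N Q u ω) (bad m ω))) (Pm μ N) :=
    (integrable_finsetSum _ i5).const_mul _
  refine (integral_mono i1 (i3.add (integrable_const _)) hpt).trans ?_
  have e := integral_add i3 (integrable_const (μ := Pm μ N) (B * (2 * F) * e1 + e2 * (2 * F)))
  simp only [Pi.add_apply] at e ⊢
  rw [e, integral_const, measureReal_def, measure_univ, ENNReal.toReal_one, one_smul, integral_const_mul,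
    integral_finsetSum _ i5]
  have h5 : ∀ m ∈ J, ∫ ω, (B * PP (wu μ s N Q u ω) (fun x y => ind72 (ET m) ω x * rh z c (f ω) x y) +
      2 * F * B * gm (wu μ s N Q u ω) (bad m ω)) ∂(Pm μ N) ≤
      B * (∫ ω, PP (wu μ s N Q u ω)
          (fun x y => ind72 (fun ω S => E ω S ∧ T m ω S) ω x * rh z c (f ω) x y) ∂(Pm μ N)) +
        2 * F * B * rr := fun m hm => by
    rw [integral_add (i2 m hm) (i4 m), integral_const_mul, integral_const_mul]
    exact add_le_add le_rfl (mul_le_mul_of_nonneg_left (hrr m hm) (mul_nonneg hF0 hB))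
  have h6 := mul_le_mul_of_nonneg_left (sum_le_sum h5) (inv_nonneg.2 hcard.le)
  rw [sum_add_distrib, sum_const, nsmul_eq_mul, mul_add, ← mul_assoc (J.card : ℝ)⁻¹ (J.card : ℝ), inv_mul_cancel₀ hcard.ne',
    one_mul, ← mul_sum] at h6
  refine (add_le_add h6 le_rfl).trans (le_of_eq ?_)
  ring

/-! ### The own functionals of part L -/

omit [IsProbabilityMeasure μ] [SwQ Q] in
/-- The own mass itself. -/
theorem ownE_self {Du : ℝ} (hu : ∀ A η S, |u A η S| ≤ Du) (p : Px Q → Y) (i j : ℕ) (M : ℝ) :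
    OwnE (wu μ s N Q u) (fun ω => mI (wu μ s N Q u ω) p i j) (fun ω => Nta (wm μ s N Q ω) p i j M)
      (Real.exp (2 * Du - M)) := fun ω F Λ hF0 hF => by
  classical
  obtain ⟨S₀⟩ : Nonempty (Px Q) := inferInstance
  have h1 : ∀ x y, mI (wu μ s N Q u ω) p i j x * F x y ≤
      ind72 (fun ω => Nta (wm μ s N Q ω) p i j M) ω x * F x y + Λ * Real.exp (2 * Du - M) := fun x y => by
    have h2 : mI (wu μ s N Q u ω) p i j x ≤
        (if Nta (wm μ s N Q ω) p i j M x then 1 else 0) + Real.exp (2 * Du - M) := by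
      by_cases h : Nta (wm μ s N Q ω) p i j M x
      · rw [if_pos h]
        have := mI_le_one (wu μ s N Q u ω) p i j x
        have := (Real.exp_pos (2 * Du - M)).le
        linarith
      · rw [if_neg h, zero_add]
        have h3 := mI_tilt (w := wm μ s N Q ω) (A := fun S => u ω.2 ω.1 S) (D := Du) (fun S => hu _ _ S) p i j x
        refine (show mI (wu μ s N Q u ω) p i j x ≤ Real.exp (2 * Du) * mI (wm μ s N Q ω) p i j x from h3).trans ?_
        unfold Nta at h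
        rw [not_le] at h
        rw [sub_eq_add_neg, Real.exp_add]
        exact mul_le_mul_of_nonneg_left h.le (Real.exp_pos _).le
    have h3 : ind72 (fun ω => Nta (wm μ s N Q ω) p i j M) ω x = if Nta (wm μ s N Q ω) p i j M x then 1 else 0 := by
      unfold ind72
      congr
    rw [h3]
    have h4 := mul_le_mul_of_nonneg_right h2 (hF0 x y)
    have h5 := mul_le_mul_of_nonneg_left (hF x y) (Real.exp_pos (2 * Du - M)).le
    rw [add_mul] at h4
    linarith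
  refine (PP_mono _ h1).trans (le_of_eq ?_)
  rw [PP_add (wu μ s N Q u ω) (fun x y => ind72 (fun ω => Nta (wm μ s N Q ω) p i j M) ω x * F x y)
    (fun _ _ => Λ * Real.exp (2 * Du - M)), PP_const]

omit [IsProbabilityMeasure μ] [SwQ Q] [Nonempty (Px Q)] in
theorem meas_nta45 (p : Px Q → Y) (i j : ℕ) (M : ℝ) (S : Px Q) : MeasurableSet {ω : Env × Finset ℕ | Nta (wm μ s N Q ω) p i j M S} :=
  measurableSet_le measurable_const (meas_cE meas_wm (f := fun _ => NI i j S) (fun _ => measurable_const) _ S)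

/-- The own mass of a path is a function of `pJ m z`, when the own window is in front of the row `m`. -/
theorem nta_mp45 {c1 z i j m : ℕ} (h1 : c1 ≤ m) (hj : j ≤ m) (w : Px Q → ℝ) (M : ℝ) {S S' : Px Q} (h : pJ m z S = pJ m z S') :
    Nta w (pJ c1 z) i j M S ↔ Nta w (pJ c1 z) i j M S' := by
  have hp : pJ c1 z S = pJ c1 z S' := crs_pJ h1 le_rfl S S' h
  have hps : ∀ k, k ≤ m → ps S k = ps S' k := fun k hk => ps_of_le h hk
  unfold Nta mI
  have e1 : NI i j S = NI i j S' := funext fun T => NI_congr (fun k _ hk => hps k (hk.trans hj)) fun _ _ _ => rfl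
  rw [e1, cE_meas w (pJ c1 z) (NI i j S') S S' hp]

/-- The product of two own functionals. -/
theorem OwnE.mul {w V₁ V₂ : Env × Finset ℕ → Px Q → ℝ} {E₁ E₂ : Env × Finset ℕ → Px Q → Prop} {e₁ e₂ : ℝ} (h₁ : OwnE w V₁ E₁ e₁)
    (h₂ : OwnE w V₂ E₂ e₂) (hV : ∀ ω x, 0 ≤ V₂ ω x) (hV' : ∀ ω x, V₂ ω x ≤ 1) :
    OwnE w (fun ω x => V₁ ω x * V₂ ω x) (fun ω x => E₁ ω x ∧ E₂ ω x) (e₁ + e₂) := fun ω F Λ hF0 hF => by
  obtain ⟨S₀⟩ : Nonempty (Px Q) := inferInstance
  have h1 := h₁ ω (fun x y => V₂ ω x * F x y) Λ (fun x y => mul_nonneg (hV ω x) (hF0 x y)) fun x y => by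
    calc V₂ ω x * F x y ≤ 1 * F x y := mul_le_mul_of_nonneg_right (hV' ω x) (hF0 x y)
      _ ≤ Λ := by rw [one_mul]; exact hF x y
  have h2 := h₂ ω (fun x y => ind72 E₁ ω x * F x y) Λ (fun x y => mul_nonneg (ind72_nonneg _ _ _) (hF0 x y)) fun x y => by
    calc ind72 E₁ ω x * F x y ≤ 1 * F x y := mul_le_mul_of_nonneg_right (ind72_le_one _ _ _) (hF0 x y)
      _ ≤ Λ := by rw [one_mul]; exact hF x y
  have e1 : (fun x y => V₁ ω x * V₂ ω x * F x y) = fun x y => V₁ ω x * (V₂ ω x * F x y) := by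
    funext x y
    ring
  have e2 : (fun x y => ind72 E₁ ω x * (V₂ ω x * F x y)) = fun x y => V₂ ω x * (ind72 E₁ ω x * F x y) := by
    funext x y
    ring
  have e3 : (fun x y => ind72 (fun ω x => E₁ ω x ∧ E₂ ω x) ω x * F x y) = fun x y => ind72 E₂ ω x * (ind72 E₁ ω x * F x y) := by
    funext x y
    have e4 : ind72 (fun ω x => E₁ ω x ∧ E₂ ω x) ω x = ind72 E₂ ω x * ind72 E₁ ω x := by
      unfold ind72
      by_cases a1 : E₁ ω x
      · by_cases a2 : E₂ ω x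
        · rw [if_pos a1, if_pos a2, if_pos (⟨a1, a2⟩ : E₁ ω x ∧ E₂ ω x), mul_one]
        · rw [if_neg a2, if_neg fun h => a2 h.2, zero_mul]
      · rw [if_neg a1, if_neg fun h => a1 h.1, mul_zero]
    rw [e4, mul_assoc]
  rw [e1, e3]
  rw [e2] at h1
  linarith

/-! ### The terms of part L -/

section Terms

variable {Du B e2 rr M F : ℝ} {c1 z e zf c wl al : ℕ} {J : Finset ℕ} {f g : Env × Finset ℕ → Px Q → ℝ}
variable {T : ℕ → Env × Finset ℕ → Px Q → Prop}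

/-- **THE TERM `T2`, PART L.** -/
theorem T2L45 (hum : ∀ S, Measurable fun ω : Env × Finset ℕ => u ω.2 ω.1 S) (hu : ∀ A η S, |u A η S| ≤ Du) (hB : 0 ≤ B)
    (hmic : MicL45 μ s N Q u g J (fun m => pJ m z) (fun m => pJ m e) B e2 rr T) (hJ0 : J.Nonempty)
    (hJ : ∀ m ∈ J, c1 ≤ m ∧ al ≤ m) (hzf : z ≤ zf) (hc : zf ≤ c) (hf : Sp72 Q c F c0 K f) (M : ℝ) :
    ∫ ω, PP (wu μ s N Q u ω) (fun x y => mI (wu μ s N Q u ω) (pJ c1 z) wl al x *
        (nn (wu μ s N Q u ω) J (fun m => pJ m e) (g ω) x * rh zf c (f ω) x y)) ∂(Pm μ N) ≤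
      B * ((J.card : ℝ)⁻¹ * ∑ m ∈ J, ∫ ω, PP (wu μ s N Q u ω)
          (fun x y => ind72 (fun ω S => Nta (wm μ s N Q ω) (pJ c1 z) wl al M S ∧ T m ω S) ω x * rh zf c (f ω) x y) ∂(Pm μ N)) +
      (B * (2 * F) * Real.exp (2 * Du - M) + (B * rr + e2) * (2 * F)) :=
  mic_stat45 (V := fun ω => mI (wu μ s N Q u ω) (pJ c1 z) wl al) hum hB hmic hJ0 hf (ownE_self hu (pJ c1 z) wl al M)
    (fun S => meas_nta45 _ _ _ _ S) (fun m hm ω S S' h => nta_mp45 (hJ m hm).1 (hJ m hm).2 _ M h)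
    (fun m hm ω y => rh_mp45 hzf hc (hf.rk ω) y) (fun ω S => mI_nonneg _ _ _ _ _) (fun ω S => mI_le_one _ _ _ _ _)
    fun S => meas_mI45 (meas_wu hum) _ _ _ S

/-- **THE TERM `Tp`, PART L.** -/
theorem TpL45 (hum : ∀ S, Measurable fun ω : Env × Finset ℕ => u ω.2 ω.1 S) (hu : ∀ A η S, |u A η S| ≤ Du) (hB : 0 ≤ B)
    (hmic : MicL45 μ s N Q u g J (fun m => pJ m z) (fun m => pJ m e) B e2 rr T) (hJ0 : J.Nonempty)
    (hJ : ∀ m ∈ J, c1 ≤ m) (hzf : z ≤ zf) (hc : zf ≤ c) (hf : Sp72 Q c F c0 K f) (M : ℝ) :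
    ∫ ω, PP (wu μ s N Q u ω) (fun x y => mI (wu μ s N Q u ω) (pJ c1 z) wl al x *
        (cE (wu μ s N Q u ω) (pJ c1 z) (nn (wu μ s N Q u ω) J (fun m => pJ m e) (g ω)) x *
          rh zf c (f ω) x y)) ∂(Pm μ N) ≤
      B * ((J.card : ℝ)⁻¹ * ∑ m ∈ J, ∫ ω, PP (wu μ s N Q u ω)
          (fun x y => ind72 (fun ω S => TauM (wm μ s N Q ω) (pJ c1 z) (pJ c1 z) wl al M S ∧ T m ω S) ω x *
            rh zf c (f ω) x y) ∂(Pm μ N)) +
      (B * (2 * F) * Real.exp (4 * Du - 5 * M) + (B * rr + e2) * (2 * F)) := by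
  have e0 : ∀ ω, PP (wu μ s N Q u ω) (fun x y => mI (wu μ s N Q u ω) (pJ c1 z) wl al x *
      (cE (wu μ s N Q u ω) (pJ c1 z) (nn (wu μ s N Q u ω) J (fun m => pJ m e) (g ω)) x * rh zf c (f ω) x y)) =
      PP (wu μ s N Q u ω) (fun x y => cE (wu μ s N Q u ω) (pJ c1 z) (mI (wu μ s N Q u ω) (pJ c1 z) wl al) x *
        (nn (wu μ s N Q u ω) J (fun m => pJ m e) (g ω) x * rh zf c (f ω) x y)) := fun ω =>
    PP_exch45 (p := pJ c1 z) (wu μ s N Q u ω) _ _ fun y => rh_mp45 hzf hc (hf.rk ω) y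
  simp only [e0]
  exact mic_stat45 (V := fun ω => cE (wu μ s N Q u ω) (pJ c1 z) (mI (wu μ s N Q u ω) (pJ c1 z) wl al)) hum hB hmic hJ0 hf
    (ownE_tau hu (pJ c1 z) (pJ c1 z) wl al M) (fun S => meas_tau45 meas_wm _ _ _ _ _ S)
    (fun m hm ω S S' h => tauM_meas _ _ _ _ _ _ (crs_pJ (hJ m hm) le_rfl S S' h))
    (fun m hm ω y => rh_mp45 hzf hc (hf.rk ω) y) (fun ω S => cE_nonneg _ _ (fun T => mI_nonneg _ _ _ _ _) S)
    (fun ω S => cE_mI_le_one _ _ _ _ _ S) fun S => meas_cE (meas_wu hum) (fun T => meas_mI45 (meas_wu hum) _ _ _ T) _ S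

/-- **THE TERM `T0Q`, PART L**: the own mass averaged given what is behind the row `m'`, the micro tie in the block `(m, e)`, `e ≤ m'`. -/
theorem T0QL45 (hum : ∀ S, Measurable fun ω : Env × Finset ℕ => u ω.2 ω.1 S) (hu : ∀ A η S, |u A η S| ≤ Du) (hB : 0 ≤ B)
    (hmic : MicL45 μ s N Q u g J (fun m => pJ m e) (fun m => pJ m e) B e2 rr T) (hJ0 : J.Nonempty)
    {m' : ℕ} (he : e ≤ m') (hzf : m' ≤ zf) (hc : zf ≤ c) (hf : Sp72 Q c F c0 K f) (p : Px Q → Y) (w1 w2 : ℕ) (M : ℝ) :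
    ∫ ω, PP (wu μ s N Q u ω) (fun x y => cE (wu μ s N Q u ω) (pJ 0 m') (mI (wu μ s N Q u ω) p w1 w2) x *
        (nn (wu μ s N Q u ω) J (fun m => pJ m e) (g ω) x * rh zf c (f ω) x y)) ∂(Pm μ N) ≤
      B * ((J.card : ℝ)⁻¹ * ∑ m ∈ J, ∫ ω, PP (wu μ s N Q u ω)
          (fun x y => ind72 (fun ω S => TauM (wm μ s N Q ω) (pJ 0 m') p w1 w2 M S ∧ T m ω S) ω x *
            rh zf c (f ω) x y) ∂(Pm μ N)) +
      (B * (2 * F) * Real.exp (4 * Du - 5 * M) + (B * rr + e2) * (2 * F)) :=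
  mic_stat45 (V := fun ω => cE (wu μ s N Q u ω) (pJ 0 m') (mI (wu μ s N Q u ω) p w1 w2)) hum hB hmic hJ0 hf
    (ownE_tau hu (pJ 0 m') p w1 w2 M) (fun S => meas_tau45 meas_wm _ _ _ _ _ S)
    (fun m hm ω S S' h => tauM_meas _ _ _ _ _ _ (crs_pJ (Nat.zero_le _) he S S' h))
    (fun m hm ω y => rh_mp45 (he.trans hzf) hc (hf.rk ω) y) (fun ω S => cE_nonneg _ _ (fun T => mI_nonneg _ _ _ _ _) S)
    (fun ω S => cE_mI_le_one _ _ _ _ _ S) fun S => meas_cE (meas_wu hum) (fun T => meas_mI45 (meas_wu hum) _ _ _ T) _ S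

end Terms

/-! ### The term LONG -/

section Long

open Pool.W7d29a1.C0.H7 (E0X)

variable {θ ε K' : ℝ} {Du M₁ M₂ D F : ℝ} {c1 z zf c : ℕ} {f : Env × Finset ℕ → Px Q → ℝ}

/-- **LONG**: the own pair of the block, and a path given what is behind the row `m'` apart from the base path on `[z', e]`, behind the
block. The own mass is averaged exactly given what is behind the row `z`. -/
theorem longL45 (hE : ∀ A, E0X μ s 2 N Q c0 K (pB (c0 + K)) θ (u A) ε K')
    (hum : ∀ S, Measurable fun ω : Env × Finset ℕ => u ω.2 ω.1 S) (hu : ∀ A η S, |u A η S| ≤ Du)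
    (hD : 0 ≤ D) (hθ : θ ≤ D / K) (hM₁ : M₁ + 2 * D ≤ M₂) (hM₂ : 0 ≤ M₂ - M₁) {wl al z' e m' : ℕ} (p : Px Q → Y) (h2 : c0 + K ≤ z)
    (hz' : z ≤ z') (he : z' ≤ e) (hm' : e ≤ m') (hzf : m' ≤ zf) (hc : zf ≤ c) (hf : Sp72 Q c F c0 K f)
    (hF : 2 * F ≤ (N : ℝ) ^ K') :
    ∫ ω, PP (wu μ s N Q u ω) (fun x y => mI (wu μ s N Q u ω) p wl al x *
        (mI (wu μ s N Q u ω) (pJ 0 m') z' e x * rh zf c (f ω) x y)) ∂(Pm μ N) ≤
      (N : ℝ) ^ ε * (∫ ω, PP (wm μ s N Q ω)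
          (fun x y => ind72 (fun ω S => TauM (wm μ s N Q ω) (pJ 0 z) p wl al M₂ S ∧ Nta (wm μ s N Q ω) (pJ 0 m') z' e M₂ S) ω x *
            rh zf c (f ω) x y) ∂(Pm μ N) +
        (N : ℝ) ^ (-K')) + 2 * F * (Real.exp (4 * Du - 5 * M₁) + Real.exp (2 * Du - M₁)) := by
  have hk : ∀ ω y, Mp (pJ 0 z) fun x => mI (wu μ s N Q u ω) (pJ 0 m') z' e x * rh zf c (f ω) x y := fun ω y x x' h => by
    have hps : ∀ k, z ≤ k → ps x k = ps x' k := fun k hk => ps_of_ge h hk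
    have hp : pJ 0 m' x = pJ 0 m' x' := crs_pJ le_rfl (hz'.trans (he.trans hm')) x x' h
    have e1 : NI z' e x = NI z' e x' := funext fun T => NI_congr (fun k hk _ => hps k (hz'.trans hk)) fun _ _ _ => rfl
    have e2 : mI (wu μ s N Q u ω) (pJ 0 m') z' e x = mI (wu μ s N Q u ω) (pJ 0 m') z' e x' := by
      unfold mI
      rw [e1, cE_meas _ (pJ 0 m') (NI z' e x') x x' hp]
    have e3 : rh zf c (f ω) x y = rh zf c (f ω) x' y := rh_mp45 (by omega) hc (hf.rk ω) y x x' h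
    show mI (wu μ s N Q u ω) (pJ 0 m') z' e x * rh zf c (f ω) x y = mI (wu μ s N Q u ω) (pJ 0 m') z' e x' * rh zf c (f ω) x' y
    rw [e2, e3]
  have e0 : ∀ ω, PP (wu μ s N Q u ω) (fun x y => mI (wu μ s N Q u ω) p wl al x *
      (mI (wu μ s N Q u ω) (pJ 0 m') z' e x * rh zf c (f ω) x y)) =
      PP (wu μ s N Q u ω) (fun x y => (cE (wu μ s N Q u ω) (pJ 0 z) (mI (wu μ s N Q u ω) p wl al) x *
        mI (wu μ s N Q u ω) (pJ 0 m') z' e x) * rh zf c (f ω) x y) := fun ω => by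
    rw [PP_pull45 (q := pJ 0 z) (wu μ s N Q u ω) _ (hk ω)]
    congr 1
    funext x y
    ring
  simp only [e0]
  refine own_pass45 (V := fun ω x => cE (wu μ s N Q u ω) (pJ 0 z) (mI (wu μ s N Q u ω) p wl al) x *
      mI (wu μ s N Q u ω) (pJ 0 m') z' e x) hE hum (by omega) hc hf hF
    (OwnE.mul (ownE_tau hu (pJ 0 z) p wl al M₁) (ownE_self hu (pJ 0 m') z' e M₁) (fun ω x => mI_nonneg _ _ _ _ _)
      fun ω x => mI_le_one _ _ _ _ _)
    (Rb72.and (tauM_rb hD hθ h2 p (by linarith)) (nta_rb hD hθ (by omega) (by omega) hM₁)) (fun ω S => ?_) (fun ω S => ?_) fun S => ?_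
  · exact mul_nonneg (cE_nonneg _ _ (fun T => mI_nonneg _ _ _ _ _) S) (mI_nonneg _ _ _ _ _)
  · calc cE (wu μ s N Q u ω) (pJ 0 z) (mI (wu μ s N Q u ω) p wl al) S * mI (wu μ s N Q u ω) (pJ 0 m') z' e S ≤ 1 * 1 :=
          mul_le_mul (cE_mI_le_one _ _ _ _ _ S) (mI_le_one _ _ _ _ _) (mI_nonneg _ _ _ _ _) zero_le_one
      _ = 1 := one_mul 1
  · exact (meas_cE (meas_wu hum) (fun T => meas_mI45 (meas_wu hum) _ _ _ T) _ S).mul (meas_mI45 (meas_wu hum) _ _ _ S)

end Long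

end L

end

end Pool.W7d29a1.C0.C45
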