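import Pool.Agent.W_7d29a1_C0.Cor45L

/-!
MP_7d29a1_pr, [CURV0] / [C0], leaf E2.6, PART L (helper45): **THE MICRO TIE OF PART L**: the input `MicL45` of `Cor45L` for the half
response of a window, and the micro event at the actual weights in terms of the alternatives of the base path.

`cM45 w r q K`: the mean of `K x y`, `x` given `r`, `y` given `q` (`q` coarser than `r`). `mix_ev45`: the mean of `|g x - g y|` at a
tilted weight, for every environment: the mass of the pairs which do not meet in the window, and the cone terms, which stay at the tilted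
weight. `TauX45`: the event; `micL_of45`: `MicL45`; `tauX_rp45`, `micL_rp45`: `TauX45` is replaced by `RpM` given `r` or given `q`.
-/

set_option autoImplicit false
set_option linter.unusedSectionVars false
set_option linter.unusedVariables false

namespace Pool.W7d29a1.C0.C45

open Finset MeasureTheory Pool.Agent.W_7d29a1_F Pool.Agent.W_7d29a1_X Pool.Agent.W_7d29a1_C0.Mod92
open Pool.Agent.W_7d29a1_C0.Swap57 Pool.Agent.W_7d29a1_C0.Blk18 Pool.Agent.W_7d29a1_C0.NM82
open Pool.Agent.W_7d29a1_C0.MicE14 (rh rh_nonneg nn Cq)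
open Pool.Agent.W_7d29a1_C0.CutT57 (NI_congr NI_le_one)
open Pool.Agent.W_7d29a1_C0.T72 (Sp72 Rb72 ind72 ind72_nonneg ind72_le_one meas_ind72 meas_fix crs_pB72 ps_of_pB72)
open Pool.Agent.W_7d29a1_C0.EvT50 (nC nC_nonneg nC_le_one GW1 RpM meas_RpM meas_GW1)
open Pool.W7d29a1.C0 (gz gm gz_ne gz_pos gm_nonneg gm_mono gm_const PP PP_eq PP_mono PP_nonneg PP_add PP_smul)
open Pool.W7d29a1.C0.VT31
open Pool.W7d29a1.C0.R43

noncomputable section

section Two

variable {X : Type*} [Fintype X] [Nonempty X] [DecidableEq X] {Y Y' Y'' : Type*} [DecidableEq Y] [DecidableEq Y'] [DecidableEq Y'']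

/-- The mean of `K x y`, `x` given `r`, `y` given `q`. -/
def cM45 (w : X → ℝ) (r : X → Y) (q : X → Y') (K : X → X → ℝ) (S : X) : ℝ := cE w r (fun x => cE w q (K x) S) S

theorem cM_eq45 (w : X → ℝ) {r : X → Y} {q : X → Y'} (hc : Crs q r) (K : X → X → ℝ) (S : X) :
    cE w r (fun x => cE w q (K x) x) S = cM45 w r q K S := by
  classical
  unfold cM45 cE
  congr 1
  refine sum_congr rfl fun x _ => ?_
  split_ifs with h
  · congr 1
    exact cE_meas w q (K x) _ _ (hc _ _ h)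
  · rfl

theorem cM_mono45 (w : X → ℝ) (r : X → Y) (q : X → Y') {K K' : X → X → ℝ} (h : ∀ x y, K x y ≤ K' x y) (S : X) :
    cM45 w r q K S ≤ cM45 w r q K' S := cE_mono _ _ (fun x => cE_mono _ _ (fun y => h x y) S) S

theorem cM_add45 (w : X → ℝ) (r : X → Y) (q : X → Y') (K K' : X → X → ℝ) (S : X) :
    cM45 w r q (fun x y => K x y + K' x y) S = cM45 w r q K S + cM45 w r q K' S := by
  unfold cM45
  have e1 : (fun x => cE w q (fun y => K x y + K' x y) S) = (fun x => cE w q (K x) S) + fun x => cE w q (K' x) S := by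
    funext x
    rw [Pi.add_apply]
    exact congrFun (cE_add w q (K x) (K' x)) S
  rw [e1, cE_add, Pi.add_apply]

theorem cM_smul45 (w : X → ℝ) (r : X → Y) (q : X → Y') (c : ℝ) (K : X → X → ℝ) (S : X) :
    cM45 w r q (fun x y => c * K x y) S = c * cM45 w r q K S := by
  unfold cM45
  have e1 : (fun x => cE w q (fun y => c * K x y) S) = c • fun x => cE w q (K x) S := by
    funext x
    rw [Pi.smul_apply, smul_eq_mul]
    exact congrFun (cE_smul w q c (K x)) S
  rw [e1, cE_smul, Pi.smul_apply, smul_eq_mul]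

theorem cM_fst45 (w : X → ℝ) (r : X → Y) (q : X → Y') (f : X → ℝ) (S : X) : cM45 w r q (fun x _ => f x) S = cE w r f S := by
  unfold cM45
  congr 1
  funext x
  have h : Mp q (fun _ : X => f x) := fun _ _ _ => rfl
  exact congrFun (cE_of_meas w h) S

theorem cM_snd45 (w : X → ℝ) (r : X → Y) (q : X → Y') (f : X → ℝ) (S : X) : cM45 w r q (fun _ y => f y) S = cE w q f S := by
  unfold cM45
  have h : Mp r (fun _ : X => cE w q f S) := fun _ _ _ => rfl
  exact congrFun (cE_of_meas w h) S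

theorem cM_const45 (w : X → ℝ) (r : X → Y) (q : X → Y') (c : ℝ) (S : X) : cM45 w r q (fun _ _ => c) S = c := by
  rw [cM_fst45]
  have h : Mp r (fun _ : X => c) := fun _ _ _ => rfl
  exact congrFun (cE_of_meas w h) S

/-- Two conditional means commute. -/
theorem cE_fub45 (w : X → ℝ) (q : X → Y') (p : X → Y'') (F : X → X → ℝ) (x S : X) :
    cE w q (fun y => cE w p (fun z => F z y) x) S = cE w p (fun z => cE w q (F z) S) x := by
  classical
  have e1 : (fun y => cE w p (fun z => F z y) x) =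
      ∑ z : X, ((if p z = p x then Real.exp (w z) else 0) / fz w p x) • F z := by
    funext y
    rw [Finset.sum_apply]
    unfold cE
    rw [sum_div]
    refine sum_congr rfl fun z _ => ?_
    rw [Pi.smul_apply, smul_eq_mul]
    split_ifs
    · ring
    · rw [zero_div, zero_mul]
  rw [e1, cE_sum, Finset.sum_apply]
  have e2 : cE w p (fun z => cE w q (F z) S) x = ∑ z : X, ((if p z = p x then Real.exp (w z) else 0) / fz w p x) * cE w q (F z) S := by
    rw [show cE w p (fun z => cE w q (F z) S) x = (∑ z : X, if p z = p x then Real.exp (w z) * cE w q (F z) S else 0) / fz w p x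
      from rfl, sum_div]
    refine sum_congr rfl fun z _ => ?_
    split_ifs
    · ring
    · rw [zero_div, zero_mul]
  rw [e2]
  refine sum_congr rfl fun z _ => ?_
  rw [cE_smul, Pi.smul_apply, smul_eq_mul]

theorem cM_tower45 (w : X → ℝ) {r : X → Y} {q : X → Y'} {p : X → Y''} (hr : Crs r p) (hq : Crs q p) (K : X → X → ℝ) (S : X) :
    cM45 w r q (cE2 w p K) S = cM45 w r q K S := by
  unfold cM45
  have e1 : (fun x => cE w q (cE2 w p K x) S) = cE w p fun z => cE w q (K z) S := by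
    funext x
    have e2 : cE2 w p K x = fun y => cE w p (fun z => cE w p (K z) y) x := rfl
    rw [e2, cE_fub45 w q p (fun z y => cE w p (K z) y) x S]
    congr 1
    funext z
    exact congrFun (cE_tower w hq (K z)) S
  rw [e1, congrFun (cE_tower w hr _) S]

theorem cM_tilt45 {w A : X → ℝ} {D : ℝ} (hA : ∀ x, |A x| ≤ D) (r : X → Y) (q : X → Y') {K : X → X → ℝ} (hK : ∀ x y, 0 ≤ K x y)
    (S : X) : cM45 (w + A) r q K S ≤ Real.exp (4 * D) * cM45 w r q K S := by
  unfold cM45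
  have h1 := cE_tilt hA r (f := fun x => cE (w + A) q (K x) S) (fun x => cE_nonneg _ _ (hK x) _) S (w := w)
  have h2 : cE w r (fun x => cE (w + A) q (K x) S) S ≤ cE w r (Real.exp (2 * D) • fun x => cE w q (K x) S) S :=
    cE_mono w r (fun x => cE_tilt hA q (hK x) S) S
  rw [cE_smul, Pi.smul_apply, smul_eq_mul] at h2
  have h3 : Real.exp (4 * D) = Real.exp (2 * D) * Real.exp (2 * D) := by
    rw [← Real.exp_add]
    congr 1
    ring
  rw [h3, mul_assoc]
  exact h1.trans (mul_le_mul_of_nonneg_left h2 (Real.exp_pos _).le)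

/-- **The micro tie at a tilted weight, for every environment.** The cone terms stay at the tilted weight. -/
theorem mix_ev45 {w A : X → ℝ} {D : ℝ} (hA : ∀ x, |A x| ≤ D) {r : X → Y} {q : X → Y'} {p : X → Y''} (hr : Crs r p) (hq : Crs q p)
    {g χ : X → ℝ} {K : X → X → ℝ} (hK : ∀ x y, 0 ≤ K x y) {R B e0 : ℝ} (hR : 0 ≤ R)
    (hg : ∀ x y, |g x - g y| ≤ R * cE2 w p K x y + e0 + B * (χ x + χ y)) {k : ℝ} {S : X} (hk : cM45 w r q K S ≤ k) :
    cM45 (w + A) r q (fun x y => |g x - g y|) S ≤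
      Real.exp (4 * D) * (R * k) + e0 + B * (cE (w + A) r χ S + cE (w + A) q χ S) := by
  have h1 := cM_mono45 (w + A) r q (K := fun x y => |g x - g y|)
    (K' := fun x y => R * cE2 w p K x y + (e0 + B * (χ x + χ y))) (fun x y => by have := hg x y; linarith) S
  refine h1.trans ?_
  rw [cM_add45, cM_smul45, cM_add45 (w + A) r q (fun _ _ => e0) (fun x y => B * (χ x + χ y)), cM_const45,
    cM_smul45 (w + A) r q B (fun x y => χ x + χ y), cM_add45 (w + A) r q (fun x _ => χ x) (fun _ y => χ y), cM_fst45, cM_snd45]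
  have h2 := cM_tilt45 hA r q (K := cE2 w p K) (fun x y => cE2_nonneg _ _ hK _ _) S (w := w)
  rw [cM_tower45 w hr hq] at h2
  have h3 : Real.exp (4 * D) * cM45 w r q K S ≤ Real.exp (4 * D) * k := mul_le_mul_of_nonneg_left hk (Real.exp_pos _).le
  have h4 := mul_le_mul_of_nonneg_left (h2.trans h3) hR
  have h5 : R * (Real.exp (4 * D) * k) = Real.exp (4 * D) * (R * k) := by ring
  rw [h5] at h4
  linarith

end Two

section Mod

variable {μ : Measure ℝ} {s : ℝ} {N : ℕ} {Q : Finset (Finset ℕ)} [IsProbabilityMeasure μ] [SwQ Q] [Nonempty (Px Q)]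
variable {c0 K : ℕ} {u : Finset ℕ → Env → Px Q → ℝ} {Y Y' : Type*} [DecidableEq Y] [DecidableEq Y']

/-- One of the two sides of the window of the row `j` is a near tie: `x` given `r`, `y` given `q`. -/
def TauX45 (w : Px Q → ℝ) (r : Px Q → Y) (q : Px Q → Y') (b j : ℕ) (M : ℝ) (S : Px Q) : Prop :=
  TauM w r q (j - b) j M S ∨ TauM w r q j (j + b) M S

omit [IsProbabilityMeasure μ] [SwQ Q] [Nonempty (Px Q)] in
theorem meas_tauX45 (r : Px Q → Y) (q : Px Q → Y') (b j : ℕ) (M : ℝ) (S : Px Q) :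
    MeasurableSet {ω : Env × Finset ℕ | TauX45 (wm μ s N Q ω) r q b j M S} :=
  (meas_tau45 meas_wm r q _ _ _ S).union (meas_tau45 meas_wm r q _ _ _ S)

theorem tauX_tilt45 {w w' : Px Q → ℝ} {D : ℝ} (hA : ∀ x, |w' x - w x| ≤ D) {r : Px Q → Y} {q : Px Q → Y'} {b j : ℕ} {M M' : ℝ}
    {S : Px Q} (hM : 5 * M + 4 * D ≤ 5 * M') (h : TauX45 w r q b j M S) : TauX45 w' r q b j M' S :=
  h.imp (tauM_tilt hA hM) (tauM_tilt hA hM)

/-- No near tie: the pairs which do not meet on both sides. -/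
theorem cM_NM_le45 {w : Px Q → ℝ} {r : Px Q → Y} {q : Px Q → Y'} (hc : Crs q r) {b j : ℕ} {M : ℝ} {S : Px Q}
    (h : ¬ TauX45 w r q b j M S) : cM45 w r q (NM (j - b) j j (j + b)) S ≤ 2 * Real.exp (-(5 * M)) := by
  unfold TauX45 TauM at h
  push Not at h
  have h1 := cM_mono45 w r q (K' := fun z z' => NI (j - b) j z z' + NI j (j + b) z z') (fun z z' => NM_le _ _ _ _ z z') S
  rw [cM_add45] at h1
  have h2 := h.1
  have h3 := h.2
  have e2 : cE w r (mI w q (j - b) j) S = cM45 w r q (NI (j - b) j) S := cM_eq45 w hc (NI (j - b) j) S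
  have e3 : cE w r (mI w q j (j + b)) S = cM45 w r q (NI j (j + b)) S := cM_eq45 w hc (NI j (j + b)) S
  rw [e2] at h2
  rw [e3] at h3
  have h1' : cM45 w r q (NM (j - b) j j (j + b)) S ≤ cM45 w r q (NI (j - b) j) S + cM45 w r q (NI j (j + b)) S := h1
  linarith

/-- **THE INPUT OF THE MICRO TIE, PART L**, for the half response of the window of the row `j`: `r1` = the mass of the environments where
the response is not as it should be, `r2` = the mass of the paths out of the cone, at the tilted weights. -/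
theorem micL_of45 (hum : ∀ S, Measurable fun ω : Env × Finset ℕ => u ω.2 ω.1 S) {Du : ℝ} (hu : ∀ A η S, |u A η S| ≤ Du)
    {δ δ₁ B R e0 M r1 r2 : ℝ} {b j : ℕ} (hB : 0 ≤ B) (hR : 0 ≤ R) (he : 0 ≤ e0) {J : Finset ℕ} {r : ℕ → Px Q → Y} {q : ℕ → Px Q → Y'}
    (hgm : ∀ S : Px Q, Measurable fun ω : Env × Finset ℕ => gj μ s ω.1 δ B b j (sg ω.2 j) S)
    (hr : ∀ m ∈ J, Crs (r m) (pJ (Q := Q) (j - b) (j + b))) (hq : ∀ m ∈ J, Crs (q m) (r m))
    (h1 : (law μ {η | ¬ GW1 μ s N Q δ δ₁ B R e0 b j η}).toReal ≤ r1)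
    (h2 : ∫ ω, gm (wu μ s N Q u ω) (nC μ s δ₁ Q b j) ∂(Pm μ N) ≤ r2) :
    MicL45 μ s N Q u (fun ω => gj μ s ω.1 δ B b j (sg ω.2 j)) J r q B (Real.exp (4 * Du) * (R * (2 * Real.exp (-(5 * M)))) + e0)
      (r1 + 2 * r2) (fun m ω => TauX45 (wm μ s N Q ω) (r m) (q m) b j M) := by
  classical
  have hgB : ∀ (ω : Env × Finset ℕ) (x y : Px Q), |gj μ s ω.1 δ B b j (sg ω.2 j) x - gj μ s ω.1 δ B b j (sg ω.2 j) y| ≤ B :=
    fun ω x y => by
      have h1 := abs_gj (μ := μ) (s := s) (δ := δ) ω.1 hB (abs_sg ω.2 j).le b j x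
      have h2 := abs_gj (μ := μ) (s := s) (δ := δ) ω.1 hB (abs_sg ω.2 j).le b j y
      exact (abs_sub _ _).trans (by linarith)
  set bad0 : ℕ → Env × Finset ℕ → Px Q → ℝ := fun m ω S => (if GW1 μ s N Q δ δ₁ B R e0 b j ω.1 then 0 else 1) +
    (cE (wu μ s N Q u ω) (r m) (nC μ s δ₁ Q b j) S + cE (wu μ s N Q u ω) (q m) (nC μ s δ₁ Q b j) S) with hbad0
  have b0 : ∀ m ω S, 0 ≤ bad0 m ω S := fun m ω S => by
    have k1 := cE_nonneg (wu μ s N Q u ω) (r m) (f := nC μ s δ₁ Q b j) (nC_nonneg δ₁ b j) S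
    have k2 := cE_nonneg (wu μ s N Q u ω) (q m) (f := nC μ s δ₁ Q b j) (nC_nonneg δ₁ b j) S
    have k3 : (0 : ℝ) ≤ if GW1 μ s N Q δ δ₁ B R e0 b j ω.1 then 0 else 1 := by split_ifs <;> norm_num
    show 0 ≤ _ + (_ + _)
    linarith
  have hms : ∀ m S, Measurable fun ω => bad0 m ω S := fun m S => by
    refine Measurable.add ?_ (Measurable.add ?_ ?_)
    · exact Measurable.ite (measurable_fst (meas_GW1 δ δ₁ B R e0 b j)) measurable_const measurable_const
    · exact meas_cE (meas_wu hum) (f := fun _ => nC μ s δ₁ Q b j) (fun _ => measurable_const) _ S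
    · exact meas_cE (meas_wu hum) (f := fun _ => nC μ s δ₁ Q b j) (fun _ => measurable_const) _ S
  have hpt : ∀ m ∈ J, ∀ ω S, cM45 (wu μ s N Q u ω) (r m) (q m)
      (fun x y => |gj μ s ω.1 δ B b j (sg ω.2 j) x - gj μ s ω.1 δ B b j (sg ω.2 j) y|) S ≤
      B * ind72 (fun ω => TauX45 (wm μ s N Q ω) (r m) (q m) b j M) ω S + (B * min 1 (bad0 m ω S) +
        (Real.exp (4 * Du) * (R * (2 * Real.exp (-(5 * M)))) + e0)) := fun m hm ω S => by
    have k0 : cM45 (wu μ s N Q u ω) (r m) (q m)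
        (fun x y => |gj μ s ω.1 δ B b j (sg ω.2 j) x - gj μ s ω.1 δ B b j (sg ω.2 j) y|) S ≤ B := by
      have := cM_mono45 (wu μ s N Q u ω) (r m) (q m) (K' := fun _ _ => B) (fun x y => hgB ω x y) S
      rwa [cM_const45] at this
    have ke : 0 ≤ Real.exp (4 * Du) * (R * (2 * Real.exp (-(5 * M)))) + e0 := by positivity
    have ki : 0 ≤ B * ind72 (fun ω => TauX45 (wm μ s N Q ω) (r m) (q m) b j M) ω S := mul_nonneg hB (ind72_nonneg _ _ _)
    have km : 0 ≤ B * min 1 (bad0 m ω S) := mul_nonneg hB (le_min zero_le_one (b0 m ω S))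
    by_cases hT : TauX45 (wm μ s N Q ω) (r m) (q m) b j M S
    · have e1 : ind72 (fun ω => TauX45 (wm μ s N Q ω) (r m) (q m) b j M) ω S = 1 := if_pos hT
      rw [e1] at ki ⊢
      linarith
    · by_cases h1b : 1 ≤ bad0 m ω S
      · rw [min_eq_left h1b]
        linarith
      · rw [not_le] at h1b
        rw [min_eq_right h1b.le]
        have hG : GW1 μ s N Q δ δ₁ B R e0 b j ω.1 := by
          by_contra hG
          have k1 := cE_nonneg (wu μ s N Q u ω) (r m) (f := nC μ s δ₁ Q b j) (nC_nonneg δ₁ b j) S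
          have k2 := cE_nonneg (wu μ s N Q u ω) (q m) (f := nC μ s δ₁ Q b j) (nC_nonneg δ₁ b j) S
          have k3 : bad0 m ω S = 1 + (cE (wu μ s N Q u ω) (r m) (nC μ s δ₁ Q b j) S + cE (wu μ s N Q u ω) (q m) (nC μ s δ₁ Q b j) S) := by
            show (if GW1 μ s N Q δ δ₁ B R e0 b j ω.1 then (0 : ℝ) else 1) + _ = _
            rw [if_neg hG]
          linarith
        have e3 : bad0 m ω S = cE (wu μ s N Q u ω) (r m) (nC μ s δ₁ Q b j) S + cE (wu μ s N Q u ω) (q m) (nC μ s δ₁ Q b j) S := by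
          show (if GW1 μ s N Q δ δ₁ B R e0 b j ω.1 then (0 : ℝ) else 1) + _ = _
          rw [if_pos hG, zero_add]
        have hc : Crs (q m) (pJ (Q := Q) (j - b) (j + b)) := fun x y h => hq m hm x y (hr m hm x y h)
        have k1 := mix_ev45 (w := wm μ s N Q ω) (A := fun S => u ω.2 ω.1 S) (D := Du) (fun S => hu _ _ S) (hr m hm) hc
          (K := NM (j - b) j j (j + b)) (fun x y => NM_nonneg _ _ _ _ _ _) hR (e0 := e0) (B := B) (χ := nC μ s δ₁ Q b j)
          (g := gj μ s ω.1 δ B b j (sg ω.2 j)) (fun x y => hG.all hB hR he ω.2 x y) (cM_NM_le45 (hq m hm) hT)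
        have e4 : (wm μ s N Q ω + fun S => u ω.2 ω.1 S) = wu μ s N Q u ω := rfl
        rw [e4] at k1
        rw [e3]
        linarith
  refine ⟨hgB, hgm, fun m _ S => meas_tauX45 _ _ _ _ _ S, by positivity, fun m ω S => min 1 (bad0 m ω S),
    fun m S => measurable_const.min (hms m S), fun m ω S => ⟨le_min zero_le_one (b0 m ω S), min_le_left _ _⟩,
    fun m hm ω S => ?_, fun m hm => ?_⟩
  · rw [cM_eq45 _ (hq m hm)]
    exact hpt m hm ω S
  · have hle : ∀ ω, gm (wu μ s N Q u ω) (fun S => min 1 (bad0 m ω S)) ≤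
        (if GW1 μ s N Q δ δ₁ B R e0 b j ω.1 then 0 else 1) + 2 * gm (wu μ s N Q u ω) (nC μ s δ₁ Q b j) := fun ω => by
      refine (gm_mono _ (g := fun S => bad0 m ω S) fun S => min_le_right _ _).trans (le_of_eq ?_)
      have e1 : (fun S => bad0 m ω S) = (fun _ => (if GW1 μ s N Q δ δ₁ B R e0 b j ω.1 then (0 : ℝ) else 1)) +
          (cE (wu μ s N Q u ω) (r m) (nC μ s δ₁ Q b j) + cE (wu μ s N Q u ω) (q m) (nC μ s δ₁ Q b j)) := rfl
      rw [e1, Pool.W7d29a1.C0.gm_add, Pool.W7d29a1.C0.gm_add, gm_cE, gm_cE, gm_const]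
      ring
    have mG : Measurable fun ω : Env × Finset ℕ => (if GW1 μ s N Q δ δ₁ B R e0 b j ω.1 then (0 : ℝ) else 1) :=
      Measurable.ite (measurable_fst (meas_GW1 δ δ₁ B R e0 b j)) measurable_const measurable_const
    have mn : Measurable fun ω => gm (wu μ s N Q u ω) (nC μ s δ₁ Q b j) :=
      meas_gm (meas_wu hum) (f := fun _ => nC μ s δ₁ Q b j) fun S => measurable_const
    have i1 : Integrable (fun ω : Env × Finset ℕ => (if GW1 μ s N Q δ δ₁ B R e0 b j ω.1 then (0 : ℝ) else 1)) (Pm μ N) :=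
      int_bdd (M := 1) mG fun ω => by split_ifs <;> norm_num
    have i2 : Integrable (fun ω => gm (wu μ s N Q u ω) (nC μ s δ₁ Q b j)) (Pm μ N) := int_bdd (M := 1) mn fun ω => by
      rw [abs_of_nonneg (gm_nonneg _ (nC_nonneg δ₁ b j))]
      exact (gm_mono _ (g := fun _ => 1) (nC_le_one δ₁ b j)).trans (gm_const _ _).le
    have i3 : Integrable (fun ω => gm (wu μ s N Q u ω) (fun S => min 1 (bad0 m ω S))) (Pm μ N) :=
      int_bdd (M := 1) (meas_gm (meas_wu hum) fun S => measurable_const.min (hms m S)) fun ω => by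
        rw [abs_of_nonneg (gm_nonneg _ fun S => le_min zero_le_one (b0 m ω S))]
        exact (gm_mono _ (g := fun _ => 1) fun S => min_le_left _ _).trans (gm_const _ _).le
    refine (integral_mono i3 (i1.add (i2.const_mul 2)) hle).trans ?_
    have e1 := integral_add i1 (i2.const_mul 2)
    simp only [Pi.add_apply] at e1 ⊢
    rw [e1, integral_const_mul]
    have e2 : ∫ ω : Env × Finset ℕ, (if GW1 μ s N Q δ δ₁ B R e0 b j ω.1 then (0 : ℝ) else 1) ∂(Pm μ N) =
        (law μ {η | ¬ GW1 μ s N Q δ δ₁ B R e0 b j η}).toReal := by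
      have e3 := Pool.Agent.W_7d29a1_C0.EvT50.int_fst (μ := μ) (N := N) (Φ := fun η : Env => if GW1 μ s N Q δ δ₁ B R e0 b j η then (0 : ℝ) else 1)
        (Measurable.ite (meas_GW1 δ δ₁ B R e0 b j) measurable_const measurable_const) (M := 1)
        fun η => by split_ifs <;> norm_num
      rw [e3]
      have e4 : (fun η : Env => if GW1 μ s N Q δ δ₁ B R e0 b j η then (0 : ℝ) else 1) =
          Set.indicator {η | ¬ GW1 μ s N Q δ δ₁ B R e0 b j η} fun _ => (1 : ℝ) := by
        funext η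
        by_cases h : GW1 μ s N Q δ δ₁ B R e0 b j η
        · rw [if_pos h, Set.indicator_of_notMem (show η ∉ {η | ¬ GW1 μ s N Q δ δ₁ B R e0 b j η} from fun h' => h' h)]
        · rw [if_neg h, Set.indicator_of_mem (show η ∈ {η | ¬ GW1 μ s N Q δ δ₁ B R e0 b j η} from h)]
      have mN : MeasurableSet {η : Env | ¬ GW1 μ s N Q δ δ₁ B R e0 b j η} := (meas_GW1 δ δ₁ B R e0 b j).compl
      rw [e4, integral_indicator_const _ mN, smul_eq_mul, mul_one]
      rfl
    rw [e2]
    linarith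

/-! ### At the corner: the micro event in terms of the alternatives of the base path -/

open Classical in
omit [IsProbabilityMeasure μ] [SwQ Q] in
/-- The paths with `TauX45` and without an alternative given `r` or given `q`. -/
theorem tauX_rp45 [MxQ Q] (η : Env) {r : Px Q → Y} {q : Px Q → Y'} (hc : Crs q r) (hr : SwP r) {b j l k : ℕ} {M : ℝ} (hM : 8 ≤ M)
    (hk : 10 * M ≤ k) (hk' : (k : ℝ) ≤ 20 * M) (h1 : b ≤ j) (h2 : 3 * k * (l + 1) ≤ b) :
    gm (lw μ s η N Q) (fun S => if TauX45 (lw μ s η N Q) r q b j M S ∧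
      ¬ (RpM (lw μ s η N Q) r b j l k M S ∨ RpM (lw μ s η N Q) q b j l k M S) then 1 else 0) ≤ 2 * Real.exp (-M) := by
  have a1 := tauM_rpB (μ := μ) (s := s) (N := N) (Q := Q) η hc hr (j - b) l k hM hk hk' (L := j) (by omega)
  have a2 := tauM_rpB (μ := μ) (s := s) (N := N) (Q := Q) η hc hr j l k hM hk hk' (L := j + b) (by omega)
  have h3 := gm_mono (lw μ s η N Q)
    (f := fun S => if TauX45 (lw μ s η N Q) r q b j M S ∧
      ¬ (RpM (lw μ s η N Q) r b j l k M S ∨ RpM (lw μ s η N Q) q b j l k M S) then (1 : ℝ) else 0)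
    (g := (fun S => if TauM (lw μ s η N Q) r q (j - b) j M S ∧
        ¬ (Rp (lw μ s η N Q) r (j - b) l k M S ∨ Rp (lw μ s η N Q) q (j - b) l k M S) then (1 : ℝ) else 0) +
      fun S => if TauM (lw μ s η N Q) r q j (j + b) M S ∧
        ¬ (Rp (lw μ s η N Q) r j l k M S ∨ Rp (lw μ s η N Q) q j l k M S) then (1 : ℝ) else 0) (fun S => by
      rw [Pi.add_apply]
      have c1 : (0 : ℝ) ≤ if TauM (lw μ s η N Q) r q (j - b) j M S ∧
        ¬ (Rp (lw μ s η N Q) r (j - b) l k M S ∨ Rp (lw μ s η N Q) q (j - b) l k M S) then (1 : ℝ) else 0 := by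
        split_ifs <;> norm_num
      have c2 : (0 : ℝ) ≤ if TauM (lw μ s η N Q) r q j (j + b) M S ∧
        ¬ (Rp (lw μ s η N Q) r j l k M S ∨ Rp (lw μ s η N Q) q j l k M S) then (1 : ℝ) else 0 := by split_ifs <;> norm_num
      by_cases h : TauX45 (lw μ s η N Q) r q b j M S ∧
        ¬ (RpM (lw μ s η N Q) r b j l k M S ∨ RpM (lw μ s η N Q) q b j l k M S)
      · rw [if_pos h]
        obtain ⟨h4, h5⟩ := h
        unfold RpM at h5
        push Not at h5
        rcases h4 with h4 | h4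
        · rw [if_pos (⟨h4, by push Not; exact ⟨h5.1.1, h5.2.1⟩⟩ : TauM (lw μ s η N Q) r q (j - b) j M S ∧
            ¬ (Rp (lw μ s η N Q) r (j - b) l k M S ∨ Rp (lw μ s η N Q) q (j - b) l k M S))]
          linarith
        · have e1 : (if TauM (lw μ s η N Q) r q j (j + b) M S ∧
            ¬ (Rp (lw μ s η N Q) r j l k M S ∨ Rp (lw μ s η N Q) q j l k M S) then (1 : ℝ) else 0) = 1 :=
            if_pos ⟨h4, by push Not; exact ⟨h5.1.2, h5.2.2⟩⟩
          rw [e1]
          linarith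
      · rw [if_neg h]
        linarith)
  refine h3.trans ?_
  rw [Pool.W7d29a1.C0.gm_add]
  linarith

/-- **The micro tie of part L at the corner**: a piece of the window of the row `j` where the base path has an alternative, given `r` or
given `q`. -/
theorem micL_rp45 [MxQ Q] {z c : ℕ} {F : ℝ} {f : Env × Finset ℕ → Px Q → ℝ} (hf : Sp72 Q c F c0 K f)
    {E : Env × Finset ℕ → Px Q → Prop} (hE : ∀ S, MeasurableSet {ω | E ω S}) {r : Px Q → Y} {q : Px Q → Y'} (hc : Crs q r) (hr : SwP r)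
    {b j l k : ℕ} {M : ℝ} (hM : 8 ≤ M) (hk : 10 * M ≤ k) (hk' : (k : ℝ) ≤ 20 * M) (h1 : b ≤ j) (h2 : 3 * k * (l + 1) ≤ b) :
    ∫ ω, PP (wm μ s N Q ω) (fun x y => ind72 (fun ω S => E ω S ∧ TauX45 (wm μ s N Q ω) r q b j M S) ω x *
        rh z c (f ω) x y) ∂(Pm μ N) ≤
      ∫ ω, PP (wm μ s N Q ω) (fun x y => ind72 (fun ω S => E ω S ∧
          (RpM (wm μ s N Q ω) r b j l k M S ∨ RpM (wm μ s N Q ω) q b j l k M S)) ω x *
        rh z c (f ω) x y) ∂(Pm μ N) + 2 * F * (2 * Real.exp (-M)) := by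
  refine pp_swap45 (T := fun ω S => E ω S ∧ TauX45 (wm μ s N Q ω) r q b j M S)
    (T' := fun ω S => E ω S ∧ (RpM (wm μ s N Q ω) r b j l k M S ∨ RpM (wm μ s N Q ω) q b j l k M S)) hf
    (fun S => (hE S).inter (meas_tauX45 _ _ _ _ _ S))
    (fun S => (hE S).inter ((meas_RpM _ _ _ _ _ _ S).union (meas_RpM _ _ _ _ _ _ S))) fun ω => ?_
  classical
  refine le_trans (gm_mono _ fun S => ?_) (tauX_rp45 (μ := μ) (s := s) (N := N) (Q := Q) ω.1 hc hr hM hk hk' h1 h2)
  unfold ind72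
  by_cases h4 : (E ω S ∧ TauX45 (wm μ s N Q ω) r q b j M S) ∧
      ¬ (E ω S ∧ (RpM (wm μ s N Q ω) r b j l k M S ∨ RpM (wm μ s N Q ω) q b j l k M S))
  · rw [if_pos h4, if_pos (⟨h4.1.2, fun h5 => h4.2 ⟨h4.1.1, h5⟩⟩ : TauX45 (lw μ s ω.1 N Q) r q b j M S ∧
      ¬ (RpM (lw μ s ω.1 N Q) r b j l k M S ∨ RpM (lw μ s ω.1 N Q) q b j l k M S))]
  · rw [if_neg h4]
    split_ifs <;> norm_num

end Mod

end

end Pool.W7d29a1.C0.C45
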