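import Pool.Agent.W_7d29a1_C0.CrCl44
import Pool.Agent.W_7d29a1_C0.Base5C

/-!
CURV0 (MP_7d29a1_pr, helper44): THE DOUBLE TIE (E2b) WITHOUT THE INNER TIE. `fE2c` = `1/3` of the half difference over both corners of
`Cov_a(cC_B(ge, g0 - ge), f)`; it is the fourth term of the row identity (`E_four44`), equal to the integral of (E2b) over the inner tilt
(`tie44`). **`CR59_of44c`**: the cross term from (E1), (T), (E2), (E2a) and `PE2c`. `fE2g`: the same with the clipped response `gg b`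
(`PE2c_of_g`: the error from the means at both corners, as in `PCl_of44`).
-/

set_option autoImplicit false
set_option linter.unusedSectionVars false
set_option linter.unusedVariables false

namespace Pool.W7d29a1.C0

open Finset Filter Topology MeasureTheory intervalIntegral
open Pool.Agent.W_7d29a1_C0 Pool.W7d29a1.C0.VT31

noncomputable section

variable {X : Type*} [Fintype X] [Nonempty X] {Y : Type*} [DecidableEq Y] {Z : Type*} [DecidableEq Z]
variable {Ω : Type*} [MeasurableSpace Ω] (P : Measure Ω) [IsProbabilityMeasure P]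

/-- The fourth term of the row identity, with the inner tie. -/
theorem E_tie44 {p : X → Y} {q : X → Z} (hc : Crs p q) {g w f : Ω → X → ℝ} (mg : Measurable g) (mw : Measurable w)
    (mf : Measurable f) {M : ℝ} (hM : 0 ≤ M) (bg : ∀ ω x, |g ω x| ≤ M) (bf : ∀ ω x, |f ω x| ≤ M) :
    (1 / 3 : ℝ) * Dc (fun a => ∫ ω, gc (w ω + a • g ω) (cC (w ω + a • g ω) p (gb81 (w ω) (g ω) q)
      (g ω - gb81 (w ω) (g ω) q)) (f ω) ∂P) = (1 / 6) * Ac (fun a => ∫ u in (-1 : ℝ)..1, (1 + a * u) *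
        ∫ ω, gc (w ω + a • g ω) (cC (w ω + a • g ω) p (gb81 (w ω) (g ω) q) (cV (w ω + u • g ω) q (g ω))) (f ω) ∂P) := by
  have mγ : Measurable fun ω => gb81 (w ω) (g ω) q := meas_gb81 q mw mg
  have bγ : ∀ ω x, |gb81 (w ω) (g ω) q x| ≤ M := fun ω x => abs_gb81_le (w ω) q (bg ω) x
  have mwt : ∀ t : ℝ, Measurable fun ω => w ω + t • g ω := fun t => meas_line mg mw t
  have hV : ∀ (u : ℝ) (ω : Ω) (x : X), |cV (w ω + u • g ω) q (g ω) x| ≤ M + 2 * (M * M) := fun u ω x =>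
    (abs_cC_le_X (w ω + u • g ω) q (bg ω) (bg ω) x).trans (by linarith)
  have cT : ∀ (a : ℝ) (ω : Ω), Continuous fun u : ℝ => gc (w ω + a • g ω) (cC (w ω + a • g ω) p (gb81 (w ω) (g ω) q)
      (cV (w ω + u • g ω) q (g ω))) (f ω) := fun a ω =>
    continuous_gc continuous_const (continuous_pi fun x =>
      continuous_cC continuous_const continuous_const (continuous_cV_line q (w ω) (g ω)) p x) (f ω)
  have mT : ∀ (a u : ℝ), Measurable fun ω => gc (w ω + a • g ω) (cC (w ω + a • g ω) p (gb81 (w ω) (g ω) q)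
      (cV (w ω + u • g ω) q (g ω))) (f ω) := fun a u =>
    meas_gcX (mwt a) (meas_cCX p (mwt a) mγ (meas_cVX q (mwt u) mg)) mf
  have bT : ∀ (a u : ℝ) (ω : Ω), |gc (w ω + a • g ω) (cC (w ω + a • g ω) p (gb81 (w ω) (g ω) q)
      (cV (w ω + u • g ω) q (g ω))) (f ω)| ≤ 2 * ((2 * (M * (M + 2 * (M * M)))) * M) := fun a u ω =>
    abs_gc_le_X _ (fun x => abs_cC_le_X _ p (bγ ω) (hV u ω) x) (bf ω)
  have k4 : ∀ a : ℝ, (a = 1 ∨ a = -1) → a * ∫ ω, gc (w ω + a • g ω) (cC (w ω + a • g ω) p (gb81 (w ω) (g ω) q)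
      (g ω - gb81 (w ω) (g ω) q)) (f ω) ∂P = (1 / 2) * ∫ u in (-1 : ℝ)..1, (1 + a * u) *
        ∫ ω, gc (w ω + a • g ω) (cC (w ω + a • g ω) p (gb81 (w ω) (g ω) q) (cV (w ω + u • g ω) q (g ω))) (f ω) ∂P := fun a ha => by
    rw [← int_swap44 P (cT a) (mT a) (bT a) (c := fun u => 1 + a * u) (by fun_prop) (by norm_num : (-1 : ℝ) ≤ 1),
      ← MeasureTheory.integral_const_mul, ← MeasureTheory.integral_const_mul]
    refine MeasureTheory.integral_congr_ae (Eventually.of_forall fun ω => ?_)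
    obtain ⟨L, hL⟩ : ∃ L : (X → ℝ) →L[ℝ] ℝ, ∀ F, L F = gc (w ω + a • g ω) (cC (w ω + a • g ω) p (gb81 (w ω) (g ω) q) F) (f ω) := by
      refine ⟨LinearMap.toContinuousLinearMap
        { toFun := fun F => gc (w ω + a • g ω) (cC (w ω + a • g ω) p (gb81 (w ω) (g ω) q) F) (f ω)
          map_add' := fun F F' => by rw [cC_add_right, gc_add_left]
          map_smul' := fun c F => by rw [cC_smul_right, gc_smul_left]; rfl }, fun F => rfl⟩
    have h1 := E2b81 L (w ω) (g ω) q ha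
    simp_rw [hL] at h1
    show a * gc (w ω + a • g ω) (cC (w ω + a • g ω) p (gb81 (w ω) (g ω) q) (g ω - gb81 (w ω) (g ω) q)) (f ω) =
      1 / 2 * ∫ u in (-1 : ℝ)..1, (1 + a * u) * gc (w ω + a • g ω) (cC (w ω + a • g ω) p (gb81 (w ω) (g ω) q)
        (cV (w ω + u • g ω) q (g ω))) (f ω)
    rw [← h1]
    congr 2
    have h2 : ∀ F : X → ℝ, cC (w ω + a • g ω) p (gb81 (w ω) (g ω) q) (F - gb81 (w ω) (g ω) q) =
        cC (w ω + a • g ω) p (gb81 (w ω) (g ω) q) F - cC (w ω + a • g ω) p (gb81 (w ω) (g ω) q) (gb81 (w ω) (g ω) q) := fun F => by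
      have h3 := cC_add_right (w ω + a • g ω) p (gb81 (w ω) (g ω) q) (F - gb81 (w ω) (g ω) q) (gb81 (w ω) (g ω) q)
      rw [sub_add_cancel] at h3
      rw [h3, add_sub_cancel_right]
    rw [h2, h2, cC_pull hc (mp_gb81 (w ω) (g ω) q) (g ω)]
  have k1 := k4 1 (Or.inl rfl)
  have k2 := k4 (-1) (Or.inr rfl)
  unfold Dc Ac
  beta_reduce
  linarith

end

end Pool.W7d29a1.C0

namespace Pool.Agent.W_7d29a1_C0.CrA44

open Finset MeasureTheory Pool.Agent.W_7d29a1_F Pool.Agent.W_7d29a1_X Pool.Agent.W_7d29a1_H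
open Pool.Agent.W_7d29a1_C0.Mod92 Pool.Agent.W_7d29a1_C0.Base5 Pool.Agent.W_7d29a1_C0
open Pool.W7d29a1.C0 (gz gm lse gz_pos gz_ne gm_nonneg gm_mono Ac Dc Mc gb81 cm Kn81)
open Pool.W7d29a1.C0.VT31

noncomputable section

section defs

variable (μ : Measure ℝ) (s : ℝ) (N : ℕ) (δ B : ℝ) (b0 b σ : ℕ) (f : Fam N)

/-- **(E2b) untied**: `1/3` of the half difference over both corners of `Cov_a(cC_B(ge, g0 - ge), f)`. -/
def fE2c (y j : ℕ) : ℝ :=
  1 / 3 * Dc (fun a => ∫ ω, gc (wj μ s N (Pn N y) δ B b0 j ω a) (cC (wj μ s N (Pn N y) δ B b0 j ω a) (pS σ j)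
    (ge μ s N (Pn N y) δ B b0 b ω j) (gg μ s (Pn N y) δ B b0 ω j - ge μ s N (Pn N y) δ B b0 b ω j)) (f y ω) ∂(Pm μ N))

/-- The same with the clipped response `gg b`. -/
def fE2g (y j : ℕ) : ℝ :=
  1 / 3 * Dc (fun a => ∫ ω, gc (wj μ s N (Pn N y) δ B b0 j ω a) (cC (wj μ s N (Pn N y) δ B b0 j ω a) (pS σ j)
    (gg μ s (Pn N y) δ B b ω j) (gg μ s (Pn N y) δ B b0 ω j - gg μ s (Pn N y) δ B b ω j)) (f y ω) ∂(Pm μ N))

variable (ys R : Finset ℕ) (c d : ℕ) (κ e : ℝ)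

/-- The contract for the untied double tie. -/
def PE2c : Prop := |∑ j ∈ Rw R c d, avy ys (fE2c μ s N δ B b0 b σ f · j)| ≤ κ * √(avy ys (varF μ s N f)) + e

/-- The contract with the clipped response. -/
def PE2g : Prop := |∑ j ∈ Rw R c d, avy ys (fE2g μ s N δ B b0 b σ f · j)| ≤ κ * √(avy ys (varF μ s N f)) + e

end defs

variable {μ : Measure ℝ} {s : ℝ} {N : ℕ}

section row

variable [IsProbabilityMeasure μ] {δ B : ℝ} {b0 b σ : ℕ} {c d : ℕ} {D : ℝ} {f : Fam N}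

/-- The untied form is the integral over the inner tilt. -/
theorem tie44 (hB : 0 ≤ B) (hf : Cls59 N c d D f) {y : ℕ} [Nonempty (Px (Pn N y))] {j : ℕ}
    (hW : Crs (pS (Q := Pn N y) σ j) (pW b j)) : fE2c μ s N δ B b0 b σ f y j =
      (1 / 6) * Ac (fun a => ∫ u in (-1 : ℝ)..1, (1 + a * u) * fE2b μ s N δ B b0 b σ f a u y j) := by
  obtain ⟨h0, h1, h2⟩ := bds44 (μ := μ) (s := s) (δ := δ) (b0 := b0) hB hf (y := y) j
  have h := Pool.W7d29a1.C0.E_tie44 (Pm μ N) hW (g := fun ω => gg μ s (Pn N y) δ B b0 ω j)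
    (w := fun ω => w5 μ s N (Pn N y) δ B b0 ω j) (f := f y) (mG δ B b0 j) (mW δ B b0 j) (mF hf y) h0 h1 h2
  simp only [← wj_line] at h
  exact h

/-- **The row identity**, untied. -/
theorem row44c (hB : 0 ≤ B) (hf : Cls59 N c d D f) {y : ℕ} [Nonempty (Px (Pn N y))] {j : ℕ}
    (hW : Crs (pS (Q := Pn N y) σ j) (pW b j)) (hj : (j / σ + 1) * σ ≤ d) :
    rowE μ s N δ B b0 b σ f y j - rowD μ s N δ B b0 f y j - fE2c μ s N δ B b0 b σ f y j =
      (1 / 4) * (∫ t in (-1 : ℝ)..1, (1 - t ^ 2) * fP μ s N δ B b0 b σ f t y j) -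
      (1 / 12) * (∫ t in (-1 : ℝ)..1, t * (1 - t ^ 2) * fE2 μ s N δ B b0 b σ f t y j) -
      (∫ u in (-1 : ℝ)..1, ∫ t in (-1 : ℝ)..1, Kn81 t u * fE2a μ s N δ B b0 b f t u y j) +
      (1 / 6) * Ac (fun a => ∫ u in (-1 : ℝ)..1, (1 + a * u) * (0 : ℝ)) := by
  rw [tie44 hB hf hW, row44 hB hf hW hj]
  unfold Ac
  simp only [mul_zero, intervalIntegral.integral_zero]
  ring

end row

/-- **THE CROSS TERM FROM THE FIVE ESTIMATES, THE DOUBLE TIE UNTIED.** -/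
theorem CR59_of44c [IsProbabilityMeasure μ] {ys R : Finset ℕ} (hys : ∀ y ∈ ys, y ≤ N) {δ B : ℝ} (hB : 0 ≤ B) {b0 b σ : ℕ}
    (hb : Deep R b σ) {c d : ℕ} {D : ℝ} {f : Fam N} (hf : Cls59 N c d D f) {J : Finset ℕ} {θ : ℕ → ℝ} (hθ : ∑ z ∈ J, θ z = 1)
    (hθ0 : ∀ z ∈ J, 0 ≤ θ z) (hJd : ∀ z ∈ J, z ≤ d) (hJ : ∀ z ∈ J, ∀ j ∈ Rw R c d, (j / σ + 1) * σ ≤ z)
    {κ₁ κT κ₂ κa κb e₁ eT e₂ ea eb ec : ℝ} (h1 : PE1 μ s N δ B b0 b f ys R c d κ₁ e₁ J θ)
    (hT : ∀ z ∈ J, PT μ s N δ B b0 b σ f ys R c d κT eT z) (h2 : PE2 μ s N δ B b0 b σ f ys R c d κ₂ e₂)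
    (h2a : PE2a μ s N δ B b0 b f ys R c d κa ea) (h2b : PE2c μ s N δ B b0 b σ f ys R c d κb eb)
    (hcl : PCl μ s N δ B b0 b σ f ys R c d ec) :
    CR59 μ s N ys δ B b0 b σ R c d (κ₁ + κT + κ₂ + κa + κb) (e₁ + eT + e₂ + ea + eb + ec) f := by
  have hJne : J.Nonempty := by
    rcases J.eq_empty_or_nonempty with h | h
    · rw [h, sum_empty] at hθ
      exact absurd hθ zero_ne_one
    · exact h
  have hjd : ∀ j ∈ Rw R c d, (j / σ + 1) * σ ≤ d := fun j hj => by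
    obtain ⟨z, hz⟩ := hJne
    exact (hJ z hz j hj).trans (hJd z hz)
  have hdeep : ∀ j ∈ Rw R c d, j ∈ R := fun j hj => by
    unfold Rw at hj
    exact (mem_inter.1 hj).1
  unfold CR59
  obtain ⟨V, hV⟩ : ∃ V, V = √(avy ys (varF μ s N f)) := ⟨_, rfl⟩
  have hP : ∀ t ∈ Set.Icc (-1 : ℝ) 1, |SS ys (Rw R c d) (fun y j => fP μ s N δ B b0 b σ f t y j)| ≤
      (κ₁ * V + e₁) + (κT * V + eT) := by
    intro t ht
    have e : SS ys (Rw R c d) (fun y j => fP μ s N δ B b0 b σ f t y j) =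
        SS ys (Rw R c d) (fun y j => ∑ z ∈ J, θ z * fE1 μ s N δ B b0 b f z t y j) +
          ∑ z ∈ J, θ z * SS ys (Rw R c d) (fun y j => fT μ s N δ B b0 b σ f z t y j) := by
      rw [← SS_sum ys (Rw R c d) J θ (fun z y j => fT μ s N δ B b0 b σ f z t y j), ← SS_add]
      refine SS_congr fun y hy j hj => ?_
      have := ne_Pn (hys y hy)
      have e2 : ∀ z ∈ J, θ z * fE1 μ s N δ B b0 b f z t y j + θ z * fT μ s N δ B b0 b σ f z t y j =
          θ z * fP μ s N δ B b0 b σ f t y j := fun z hz => by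
        rw [split44 hB hf (hJd z hz) (hJ z hz j hj) t]
        ring
      rw [← sum_add_distrib, sum_congr rfl e2, ← sum_mul, hθ, one_mul]
    rw [e]
    have h1' := h1 t ht
    rw [← hV] at h1'
    refine (abs_add_le _ _).trans (add_le_add h1' ?_)
    calc |∑ z ∈ J, θ z * SS ys (Rw R c d) (fun y j => fT μ s N δ B b0 b σ f z t y j)| ≤
          ∑ z ∈ J, θ z * (κT * V + eT) := by
            refine (abs_sum_le_sum_abs _ _).trans (sum_le_sum fun z hz => ?_)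
            rw [abs_mul, abs_of_nonneg (hθ0 z hz)]
            have h3 := hT z hz t ht
            rw [← hV] at h3
            exact mul_le_mul_of_nonneg_left h3 (hθ0 z hz)
      _ = κT * V + eT := by rw [← sum_mul, hθ, one_mul]
  have hmain := sum44 (ys := ys) (I := Rw R c d)
    (Δ := fun y j => rowE μ s N δ B b0 b σ f y j - rowD μ s N δ B b0 f y j - fE2c μ s N δ B b0 b σ f y j)
    (P := fun y j t => fP μ s N δ B b0 b σ f t y j) (E := fun y j t => fE2 μ s N δ B b0 b σ f t y j)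
    (Ea := fun y j t u => fE2a μ s N δ B b0 b f t u y j) (Eb := fun _ _ _ _ => 0)
    (KP := (κ₁ * V + e₁) + (κT * V + eT)) (KE := κ₂ * V + e₂) (Ka := κa * V + ea) (Kb := 0)
    (fun y hy j hj => by
      have := ne_Pn (hys y hy)
      exact cont_fP hB hf (hjd j hj))
    (fun y hy j hj => by
      have := ne_Pn (hys y hy)
      exact cont_fE2 hB hf (hjd j hj))
    (fun y hy j _ => by
      have := ne_Pn (hys y hy)
      exact cont_fE2a hB hf j)
    (fun a y hy j _ => continuous_const)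
    (fun y hy j hj => by
      have := ne_Pn (hys y hy)
      exact row44c hB hf (crs_pS hb (hdeep j hj)) (hjd j hj))
    hP (fun t ht => by rw [hV]; exact h2 t ht) (fun t ht u hu => by rw [hV]; exact h2a t ht u hu)
    (fun a ha u hu => by
      unfold SS avy
      simp)
  have esp : ∑ j ∈ Rw R c d, (avy ys (fun y => rowC μ s N δ B b0 b σ f y j) - avy ys (fun y => rowD μ s N δ B b0 f y j)) =
      (∑ j ∈ Rw R c d, (avy ys (fun y => rowC μ s N δ B b0 b σ f y j) - avy ys (fun y => rowE μ s N δ B b0 b σ f y j))) +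
        (SS ys (Rw R c d) (fun y j => rowE μ s N δ B b0 b σ f y j - rowD μ s N δ B b0 f y j - fE2c μ s N δ B b0 b σ f y j) +
          SS ys (Rw R c d) (fun y j => fE2c μ s N δ B b0 b σ f y j)) := by
    rw [SS_sub, SS_sub]
    unfold SS
    rw [← sum_sub_distrib, sub_add_cancel, ← sum_add_distrib]
    exact sum_congr rfl fun j _ => by ring
  have hc : |SS ys (Rw R c d) (fun y j => fE2c μ s N δ B b0 b σ f y j)| ≤ κb * V + eb := by
    rw [hV]
    exact h2b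
  rw [esp, ← hV]
  refine (abs_add_le _ _).trans ((add_le_add hcl ((abs_add_le _ _).trans (add_le_add hmain hc))).trans (le_of_eq ?_))
  ring

/-! ### The clip error -/

section abs

variable {X : Type*} [Fintype X] [Nonempty X] {Y : Type*} [DecidableEq Y]

/-- Two responses in the kernel of the double tie. -/
theorem gm_cC_sub44 (w : X → ℝ) (p : X → Y) {g0 γ γ' : X → ℝ} {M : ℝ} (h0 : ∀ x, |g0 x| ≤ M) (h : ∀ x, |γ x| ≤ M)
    (h' : ∀ x, |γ' x| ≤ M) : (gm w fun x => |(cC w p γ (g0 - γ) - cC w p γ' (g0 - γ')) x|) ≤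
      6 * M * gm w fun x => |γ x - γ' x| := by
  classical
  have e1 : cC w p γ (g0 - γ) - cC w p γ' (g0 - γ') = cC w p (g0 - γ) (γ - γ') - cC w p γ' (γ - γ') := by
    have k1 : cC w p (g0 - γ) (γ - γ') = cC w p (g0 - γ) γ + cC w p (g0 - γ) (-γ') := by
      rw [← cC_add_right, ← sub_eq_add_neg]
    have k2 : cC w p (g0 - γ) (-γ') = -cC w p (g0 - γ) γ' := by
      rw [← neg_one_smul ℝ γ', cC_smul_right, neg_one_smul]
    have k3 : cC w p γ' (g0 - γ') = cC w p γ' (g0 - γ) + cC w p γ' (γ - γ') := by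
      rw [← cC_add_right, sub_add_sub_cancel]
    rw [k1, k2, k3, cC_symm w p γ, cC_symm w p γ' (g0 - γ)]
    ring
  have hg : ∀ x, |(g0 - γ) x| ≤ 2 * M := fun x => by
    rw [Pi.sub_apply]
    exact (abs_sub _ _).trans (by linarith [h0 x, h x])
  have h1 := gm_abs_cC w p (g := γ - γ') hg
  have h2 := gm_abs_cC w p (g := γ - γ') h'
  have e2 : (fun x => |(γ - γ') x|) = fun x => |γ x - γ' x| := rfl
  rw [e2] at h1 h2
  have e3 : (gm w fun x => |(cC w p γ (g0 - γ) - cC w p γ' (g0 - γ')) x|) ≤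
      gm w fun x => |cC w p (g0 - γ) (γ - γ') x| + |cC w p γ' (γ - γ') x| := gm_mono w fun x => by
    rw [e1, Pi.sub_apply]
    exact abs_sub _ _
  rw [gm_add5] at e3
  linarith

end abs

/-- **THE CLIP ERROR OF THE DOUBLE TIE** from the two corners. -/
theorem PE2c_of_g [IsProbabilityMeasure μ] {ys R : Finset ℕ} (hys : ∀ y ∈ ys, y ≤ N) {δ B : ℝ} (hB : 0 ≤ B) {b0 b σ : ℕ}
    {c d : ℕ} {D : ℝ} {f : Fam N} (hf : Cls59 N c d D f) {ε : ℝ} (h : ∀ j ∈ Rw R c d, ∀ a : ℝ, (a = 1 ∨ a = -1) →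
      avy ys (fun y => ∫ ω, (gm (wj μ s N (Pn N y) δ B b0 j ω a) fun S => |gg μ s (Pn N y) δ B b ω j S -
        ge μ s N (Pn N y) δ B b0 b ω j S|) ∂(Pm μ N)) ≤ ε) {κ e : ℝ} (hg : PE2g μ s N δ B b0 b σ f ys R c d κ e) :
    PE2c μ s N δ B b0 b σ f ys R c d κ (e + (Rw R c d).card * (2 * |D| * B * ε)) := by
  unfold PE2c PE2g at *
  -- one row
  have row : ∀ j, ∀ y ∈ ys, |fE2c μ s N δ B b0 b σ f y j - fE2g μ s N δ B b0 b σ f y j| ≤
      |D| * B * ∫ ω, (gm (wj μ s N (Pn N y) δ B b0 j ω 1) fun S => |gg μ s (Pn N y) δ B b ω j S -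
        ge μ s N (Pn N y) δ B b0 b ω j S|) ∂(Pm μ N) +
      |D| * B * ∫ ω, (gm (wj μ s N (Pn N y) δ B b0 j ω (-1)) fun S => |gg μ s (Pn N y) δ B b ω j S -
        ge μ s N (Pn N y) δ B b0 b ω j S|) ∂(Pm μ N) := fun j y hy => by
    have := ne_Pn (hys y hy)
    have mg0 := mG (μ := μ) (s := s) (Q := Pn N y) δ B b0 j
    have mg := mG (μ := μ) (s := s) (Q := Pn N y) δ B b j
    have mw : ∀ t : ℝ, Measurable fun ω => wj μ s N (Pn N y) δ B b0 j ω t := fun t => by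
      simp only [wj_line]
      exact Pool.W7d29a1.C0.meas_line mg0 (mW δ B b0 j) t
    have mγ : Measurable fun ω => ge μ s N (Pn N y) δ B b0 b ω j := Pool.W7d29a1.C0.meas_gb81 _ (mW δ B b0 j) mg0
    have bg0 : ∀ ω S, |gg μ s (Pn N y) δ B b0 ω j S| ≤ B / 2 := fun ω S => abs_gg hB b0 ω j S
    have bg : ∀ ω S, |gg μ s (Pn N y) δ B b ω j S| ≤ B / 2 := fun ω S => abs_gg hB b ω j S
    have bγ : ∀ ω S, |ge μ s N (Pn N y) δ B b0 b ω j S| ≤ B / 2 := fun ω S =>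
      Pool.W7d29a1.C0.abs_gb81_le _ _ (abs_gg hB b0 ω j) S
    have bf : ∀ ω S, |f y ω S| ≤ |D| := fun ω S => (hf.bdd y ω S).trans (le_abs_self D)
    have mC : ∀ (a : ℝ) {γ : Env × Finset ℕ → Px (Pn N y) → ℝ}, Measurable γ → Measurable fun ω =>
        gc (wj μ s N (Pn N y) δ B b0 j ω a) (cC (wj μ s N (Pn N y) δ B b0 j ω a) (pS σ j) (γ ω)
          (gg μ s (Pn N y) δ B b0 ω j - γ ω)) (f y ω) := fun a γ hγ =>
      Pool.W7d29a1.C0.meas_gcX (mw a) (Pool.W7d29a1.C0.meas_cCX _ (mw a) hγ (mg0.sub hγ)) (mF hf y)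
    have bC : ∀ (a : ℝ) {γ : Env × Finset ℕ → Px (Pn N y) → ℝ}, (∀ ω S, |γ ω S| ≤ B / 2) → ∀ ω,
        |gc (wj μ s N (Pn N y) δ B b0 j ω a) (cC (wj μ s N (Pn N y) δ B b0 j ω a) (pS σ j) (γ ω)
          (gg μ s (Pn N y) δ B b0 ω j - γ ω)) (f y ω)| ≤ 2 * ((2 * (B / 2 * B)) * |D|) := fun a γ hγ ω =>
      Pool.W7d29a1.C0.abs_gc_le_X _ (fun x => Pool.W7d29a1.C0.abs_cC_le_X _ _ (hγ ω) (fun x => by
        rw [Pi.sub_apply]
        exact (abs_sub _ _).trans (by linarith [bg0 ω x, hγ ω x])) x) (bf ω)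
    have iC : ∀ (a : ℝ) {γ : Env × Finset ℕ → Px (Pn N y) → ℝ}, Measurable γ → (∀ ω S, |γ ω S| ≤ B / 2) → Integrable (fun ω =>
        gc (wj μ s N (Pn N y) δ B b0 j ω a) (cC (wj μ s N (Pn N y) δ B b0 j ω a) (pS σ j) (γ ω)
          (gg μ s (Pn N y) δ B b0 ω j - γ ω)) (f y ω)) (Pm μ N) := fun a γ hγ hb =>
      Pool.W7d29a1.C0.int_of_bdd44 (Pm μ N) (mC a hγ) (bC a hb)
    have mD : ∀ a : ℝ, Measurable fun ω => gm (wj μ s N (Pn N y) δ B b0 j ω a) fun S => |gg μ s (Pn N y) δ B b ω j S -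
        ge μ s N (Pn N y) δ B b0 b ω j S| := fun a => Pool.W7d29a1.C0.meas_gmX (mw a)
      (measurable_pi_lambda _ fun S => (((measurable_pi_apply S).comp mg).sub ((measurable_pi_apply S).comp mγ)).abs)
    have bD : ∀ (a : ℝ) (ω : Env × Finset ℕ), |(gm (wj μ s N (Pn N y) δ B b0 j ω a) (fun S => |gg μ s (Pn N y) δ B b ω j S -
        ge μ s N (Pn N y) δ B b0 b ω j S|))| ≤ B := fun a ω => Pool.W7d29a1.C0.abs_gm_le_X _ fun S => by
      rw [abs_abs]
      exact (abs_sub _ _).trans (by linarith [bg ω S, bγ ω S])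
    have iD : ∀ a : ℝ, Integrable (fun ω => gm (wj μ s N (Pn N y) δ B b0 j ω a) fun S => |gg μ s (Pn N y) δ B b ω j S -
        ge μ s N (Pn N y) δ B b0 b ω j S|) (Pm μ N) := fun a => Pool.W7d29a1.C0.int_of_bdd44 (Pm μ N) (mD a) (bD a)
    have one : ∀ a : ℝ, |(∫ ω, gc (wj μ s N (Pn N y) δ B b0 j ω a) (cC (wj μ s N (Pn N y) δ B b0 j ω a) (pS σ j)
        (ge μ s N (Pn N y) δ B b0 b ω j) (gg μ s (Pn N y) δ B b0 ω j - ge μ s N (Pn N y) δ B b0 b ω j)) (f y ω) ∂(Pm μ N)) -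
        ∫ ω, gc (wj μ s N (Pn N y) δ B b0 j ω a) (cC (wj μ s N (Pn N y) δ B b0 j ω a) (pS σ j)
        (gg μ s (Pn N y) δ B b ω j) (gg μ s (Pn N y) δ B b0 ω j - gg μ s (Pn N y) δ B b ω j)) (f y ω) ∂(Pm μ N)| ≤
        6 * |D| * B * ∫ ω, (gm (wj μ s N (Pn N y) δ B b0 j ω a) fun S => |gg μ s (Pn N y) δ B b ω j S -
          ge μ s N (Pn N y) δ B b0 b ω j S|) ∂(Pm μ N) := fun a => by
      rw [← integral_sub (iC a mγ bγ) (iC a mg bg), ← integral_const_mul]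
      refine (abs_integral_le_integral_abs).trans (integral_mono_of_nonneg (Filter.Eventually.of_forall fun ω => abs_nonneg _)
        ((iD a).const_mul _) (Filter.Eventually.of_forall fun ω => ?_))
      beta_reduce
      rw [← Pool.W7d29a1.C0.gc_sub_left]
      refine (abs_gc_gm _ (bf ω) _).trans ?_
      have h1 := gm_cC_sub44 (wj μ s N (Pn N y) δ B b0 j ω a) (pS σ j) (bg0 ω) (bγ ω) (bg ω)
      have h2 := mul_le_mul_of_nonneg_left h1 (by positivity : 0 ≤ 2 * |D|)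
      refine h2.trans (le_of_eq ?_)
      have e : (fun S => |ge μ s N (Pn N y) δ B b0 b ω j S - gg μ s (Pn N y) δ B b ω j S|) =
          fun S => |gg μ s (Pn N y) δ B b ω j S - ge μ s N (Pn N y) δ B b0 b ω j S| := funext fun S => abs_sub_comm _ _
      rw [e]
      ring
    have p1 := one 1
    have p2 := one (-1)
    unfold fE2c fE2g Dc
    beta_reduce
    rw [abs_le] at p1 p2 ⊢
    constructor <;> linarith [p1.1, p1.2, p2.1, p2.2]
  have hsum : |∑ j ∈ Rw R c d, (avy ys (fun y => fE2c μ s N δ B b0 b σ f y j) - avy ys (fun y => fE2g μ s N δ B b0 b σ f y j))| ≤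
      (Rw R c d).card * (2 * |D| * B * ε) := by
    refine (abs_sum_le_sum_abs _ _).trans ?_
    rw [← nsmul_eq_mul]
    refine sum_le_card_nsmul _ _ _ fun j hj => ?_
    have e1 : avy ys (fun y => fE2c μ s N δ B b0 b σ f y j) - avy ys (fun y => fE2g μ s N δ B b0 b σ f y j) =
        (ys.card : ℝ)⁻¹ * ∑ y ∈ ys, (fE2c μ s N δ B b0 b σ f y j - fE2g μ s N δ B b0 b σ f y j) := by
      unfold avy
      rw [sum_sub_distrib]
      ring
    rw [e1, abs_mul, abs_of_nonneg (by positivity : (0 : ℝ) ≤ (ys.card : ℝ)⁻¹)]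
    have h1 := h j hj 1 (Or.inl rfl)
    have h2 := h j hj (-1) (Or.inr rfl)
    unfold avy at h1 h2
    have hc : 0 ≤ |D| * B := by positivity
    calc (ys.card : ℝ)⁻¹ * |∑ y ∈ ys, (fE2c μ s N δ B b0 b σ f y j - fE2g μ s N δ B b0 b σ f y j)| ≤
          (ys.card : ℝ)⁻¹ * ∑ y ∈ ys, (|D| * B * (∫ ω, (gm (wj μ s N (Pn N y) δ B b0 j ω 1) fun S =>
            |gg μ s (Pn N y) δ B b ω j S - ge μ s N (Pn N y) δ B b0 b ω j S|) ∂(Pm μ N)) +
            |D| * B * ∫ ω, (gm (wj μ s N (Pn N y) δ B b0 j ω (-1)) fun S =>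
            |gg μ s (Pn N y) δ B b ω j S - ge μ s N (Pn N y) δ B b0 b ω j S|) ∂(Pm μ N)) :=
          mul_le_mul_of_nonneg_left ((abs_sum_le_sum_abs _ _).trans (sum_le_sum (row j))) (by positivity)
      _ ≤ |D| * B * ε + |D| * B * ε := by
          rw [sum_add_distrib, ← mul_sum, ← mul_sum]
          nlinarith [mul_le_mul_of_nonneg_left h1 hc, mul_le_mul_of_nonneg_left h2 hc]
      _ = 2 * |D| * B * ε := by ring
  have e : ∑ j ∈ Rw R c d, avy ys (fun y => fE2c μ s N δ B b0 b σ f y j) =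
      ∑ j ∈ Rw R c d, avy ys (fun y => fE2g μ s N δ B b0 b σ f y j) +
        ∑ j ∈ Rw R c d, (avy ys (fun y => fE2c μ s N δ B b0 b σ f y j) - avy ys (fun y => fE2g μ s N δ B b0 b σ f y j)) := by
    rw [← sum_add_distrib]
    exact sum_congr rfl fun j _ => by ring
  rw [e]
  refine (abs_add_le _ _).trans ((add_le_add hg hsum).trans (le_of_eq ?_))
  ring

end

end Pool.Agent.W_7d29a1_C0.CrA44
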