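import Pool.Agent.W_7d29a1_C0.Cum52

/-!
CURV0 (MP_7d29a1_pr, helper52): derivatives of the Gibbs cumulants along a path of log weights, and the law of total cumulance.
-/

set_option autoImplicit false

namespace Pool.Agent.W_7d29a1_C0

open Finset

noncomputable section

variable {ι : Type*}

/-- The weights `exp G`. -/
def ew (G : ι → ℝ) : ι → ℝ := fun i => Real.exp (G i)

theorem ew_pos (G : ι → ℝ) (i : ι) : 0 < ew G i := Real.exp_pos _

theorem ew_nonneg (G : ι → ℝ) (S : Finset ι) : ∀ i ∈ S, 0 ≤ ew G i := fun _ _ => (Real.exp_pos _).le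

theorem sum_ew_pos {S : Finset ι} (hS : S.Nonempty) (G : ι → ℝ) : 0 < ∑ i ∈ S, ew G i :=
  Finset.sum_pos (fun i _ => ew_pos G i) hS

section Der

variable {S : Finset ι} {G : ℝ → ι → ℝ} {G' : ι → ℝ} {t : ℝ}

theorem hasDerivAt_sum_ew (hG : ∀ i ∈ S, HasDerivAt (fun u => G u i) (G' i) t) :
    HasDerivAt (fun u => ∑ i ∈ S, ew (G u) i) (∑ i ∈ S, ew (G t) i * G' i) t := by
  refine HasDerivAt.fun_sum fun i hi => ?_
  exact (hG i hi).exp

/-- **The derivative of the free energy.** -/
theorem hasDerivAt_lse (hS : S.Nonempty) (hG : ∀ i ∈ S, HasDerivAt (fun u => G u i) (G' i) t) :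
    HasDerivAt (fun u => Real.log (∑ i ∈ S, ew (G u) i)) (gav S (ew (G t)) G') t := by
  exact (hasDerivAt_sum_ew hG).log (sum_ew_pos hS (G t)).ne'

/-- **The derivative of an average.** -/
theorem hasDerivAt_gav (hS : S.Nonempty) (hG : ∀ i ∈ S, HasDerivAt (fun u => G u i) (G' i) t)
    {f : ℝ → ι → ℝ} {f' : ι → ℝ} (hf : ∀ i ∈ S, HasDerivAt (fun u => f u i) (f' i) t) :
    HasDerivAt (fun u => gav S (ew (G u)) (f u)) (gav S (ew (G t)) f' + gcov S (ew (G t)) (f t) G') t := by
  have h1 : HasDerivAt (fun u => ∑ i ∈ S, ew (G u) i * f u i)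
      (∑ i ∈ S, (ew (G t) i * G' i * f t i + ew (G t) i * f' i)) t :=
    HasDerivAt.fun_sum fun i hi => ((hG i hi).exp).mul (hf i hi)
  have hZ := sum_ew_pos hS (G t)
  have h2 := h1.div (hasDerivAt_sum_ew hG) hZ.ne'
  refine (h2.congr_deriv ?_ : HasDerivAt (fun u => (∑ i ∈ S, ew (G u) i * f u i) / ∑ i ∈ S, ew (G u) i) _ t)
  unfold gcov gav
  rw [Finset.sum_add_distrib]
  have e1 : ∑ i ∈ S, ew (G t) i * (f t i * G' i) = ∑ i ∈ S, ew (G t) i * G' i * f t i :=
    Finset.sum_congr rfl fun i _ => by ring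
  rw [e1]
  field_simp
  ring

/-- **The derivative of a covariance.** -/
theorem hasDerivAt_gcov (hS : S.Nonempty) (hG : ∀ i ∈ S, HasDerivAt (fun u => G u i) (G' i) t)
    {f g : ℝ → ι → ℝ} {f' g' : ι → ℝ} (hf : ∀ i ∈ S, HasDerivAt (fun u => f u i) (f' i) t)
    (hg : ∀ i ∈ S, HasDerivAt (fun u => g u i) (g' i) t) :
    HasDerivAt (fun u => gcov S (ew (G u)) (f u) (g u))
      (gcov S (ew (G t)) f' (g t) + gcov S (ew (G t)) (f t) g' + gk3 S (ew (G t)) (f t) (g t) G') t := by
  have hfg := hasDerivAt_gav hS hG (f := fun u i => f u i * g u i) (f' := fun i => f' i * g t i + f t i * g' i)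
    fun i hi => (hf i hi).mul (hg i hi)
  have hF := hasDerivAt_gav hS hG hf
  have hH := hasDerivAt_gav hS hG hg
  refine ((hfg.sub (hF.mul hH)).congr_deriv ?_ : HasDerivAt (fun u => gav S (ew (G u)) (fun i => f u i * g u i)
    - gav S (ew (G u)) (f u) * gav S (ew (G u)) (g u)) _ t)
  rw [gav_add (fun i => f' i * g t i) (fun i => f t i * g' i)]
  unfold gk3 gcov
  ring

/-- **The derivative of a third cumulant.** -/
theorem hasDerivAt_gk3 (hS : S.Nonempty) (hG : ∀ i ∈ S, HasDerivAt (fun u => G u i) (G' i) t)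
    {f g h : ℝ → ι → ℝ} {f' g' h' : ι → ℝ} (hf : ∀ i ∈ S, HasDerivAt (fun u => f u i) (f' i) t)
    (hg : ∀ i ∈ S, HasDerivAt (fun u => g u i) (g' i) t) (hh : ∀ i ∈ S, HasDerivAt (fun u => h u i) (h' i) t) :
    HasDerivAt (fun u => gk3 S (ew (G u)) (f u) (g u) (h u))
      (gk3 S (ew (G t)) f' (g t) (h t) + gk3 S (ew (G t)) (f t) g' (h t) + gk3 S (ew (G t)) (f t) (g t) h'
        + gk4 S (ew (G t)) (f t) (g t) (h t) G') t := by
  have m3 := hasDerivAt_gav hS hG (f := fun u i => f u i * g u i * h u i)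
    (f' := fun i => (f' i * g t i + f t i * g' i) * h t i + f t i * g t i * h' i)
    fun i hi => ((hf i hi).mul (hg i hi)).mul (hh i hi)
  have mfg := hasDerivAt_gav hS hG (f := fun u i => f u i * g u i) (f' := fun i => f' i * g t i + f t i * g' i)
    fun i hi => (hf i hi).mul (hg i hi)
  have mfh := hasDerivAt_gav hS hG (f := fun u i => f u i * h u i) (f' := fun i => f' i * h t i + f t i * h' i)
    fun i hi => (hf i hi).mul (hh i hi)
  have mgh := hasDerivAt_gav hS hG (f := fun u i => g u i * h u i) (f' := fun i => g' i * h t i + g t i * h' i)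
    fun i hi => (hg i hi).mul (hh i hi)
  have mf := hasDerivAt_gav hS hG hf
  have mg := hasDerivAt_gav hS hG hg
  have mh := hasDerivAt_gav hS hG hh
  have key := (((m3.sub (mfg.mul mh)).sub (mfh.mul mg)).sub (mgh.mul mf)).add (((mf.mul mg).mul mh).const_mul 2)
  refine (key.congr_deriv ?_ : HasDerivAt (fun u => gav S (ew (G u)) (fun i => f u i * g u i * h u i)
    - gav S (ew (G u)) (fun i => f u i * g u i) * gav S (ew (G u)) (h u)
    - gav S (ew (G u)) (fun i => f u i * h u i) * gav S (ew (G u)) (g u)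
    - gav S (ew (G u)) (fun i => g u i * h u i) * gav S (ew (G u)) (f u)
    + 2 * (gav S (ew (G u)) (f u) * gav S (ew (G u)) (g u) * gav S (ew (G u)) (h u))) _ t)
  rw [gav_add (fun i => f' i * g t i) (fun i => f t i * g' i), gav_add (fun i => f' i * h t i) (fun i => f t i * h' i),
    gav_add (fun i => g' i * h t i) (fun i => g t i * h' i),
    show (fun i => (f' i * g t i + f t i * g' i) * h t i + f t i * g t i * h' i) =
      fun i => (f' i * g t i * h t i + f t i * g' i * h t i) + f t i * g t i * h' i from funext fun i => by ring,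
    gav_add (fun i => f' i * g t i * h t i + f t i * g' i * h t i) (fun i => f t i * g t i * h' i),
    gav_add (fun i => f' i * g t i * h t i) (fun i => f t i * g' i * h t i)]
  simp only [Pi.mul_apply]
  unfold gk4 gk3 gcov
  ring

end Der

/-! ### Total cumulance over a map -/

section Tot

variable {κ : Type*} [DecidableEq κ]

/-- The fibre of `p` over `c`. -/
def fib (S : Finset ι) (p : ι → κ) (c : κ) : Finset ι := S.filter (fun i => p i = c)

/-- The weight of a fibre. -/
def fw (S : Finset ι) (w : ι → ℝ) (p : ι → κ) (c : κ) : ℝ := ∑ i ∈ fib S p c, w i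

variable {S : Finset ι} {w : ι → ℝ} {p : ι → κ} {O : Finset κ}

theorem fw_nonneg (hw : ∀ i ∈ S, 0 ≤ w i) (c : κ) : 0 ≤ fw S w p c :=
  Finset.sum_nonneg fun i hi => hw i (Finset.mem_filter.1 hi).1

theorem sum_fw (hp : ∀ i ∈ S, p i ∈ O) : ∑ c ∈ O, fw S w p c = ∑ i ∈ S, w i :=
  Finset.sum_fiberwise_of_maps_to hp _

theorem fw_mul_gav (hw : ∀ i ∈ S, 0 ≤ w i) (f : ι → ℝ) (c : κ) :
    fw S w p c * gav (fib S p c) w f = ∑ i ∈ fib S p c, w i * f i := by
  unfold gav fw
  rcases eq_or_ne (∑ i ∈ fib S p c, w i) 0 with h | h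
  · rw [h, zero_mul]
    have h1 := (Finset.sum_eq_zero_iff_of_nonneg fun i hi => hw i (Finset.mem_filter.1 hi).1).1 h
    exact (Finset.sum_eq_zero fun i hi => by rw [h1 i hi, zero_mul]).symm
  · field_simp

/-- **The total average.** -/
theorem gav_total (hw : ∀ i ∈ S, 0 ≤ w i) (hp : ∀ i ∈ S, p i ∈ O) (f : ι → ℝ) :
    gav S w f = gav O (fw S w p) (fun c => gav (fib S p c) w f) := by
  have e : ∑ c ∈ O, fw S w p c * gav (fib S p c) w f = ∑ i ∈ S, w i * f i := by
    rw [← Finset.sum_fiberwise_of_maps_to hp (fun i => w i * f i)]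
    exact Finset.sum_congr rfl fun c _ => fw_mul_gav hw f c
  unfold gav at e ⊢
  rw [e, sum_fw hp]

/-- **The total covariance.** -/
theorem gcov_total (hw : ∀ i ∈ S, 0 ≤ w i) (hp : ∀ i ∈ S, p i ∈ O) (f g : ι → ℝ) :
    gcov S w f g = gav O (fw S w p) (fun c => gcov (fib S p c) w f g)
      + gcov O (fw S w p) (fun c => gav (fib S p c) w f) (fun c => gav (fib S p c) w g) := by
  unfold gcov
  rw [gav_sub (fun c => gav (fib S p c) w (fun i => f i * g i)) (fun c => gav (fib S p c) w f * gav (fib S p c) w g),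
    gav_total hw hp f, gav_total hw hp g, gav_total hw hp (fun i => f i * g i)]
  ring

/-- **The total cumulance of order three.** -/
theorem gk3_total (hw : ∀ i ∈ S, 0 ≤ w i) (hp : ∀ i ∈ S, p i ∈ O) (f g h : ι → ℝ) :
    gk3 S w f g h = gav O (fw S w p) (fun c => gk3 (fib S p c) w f g h)
      + gcov O (fw S w p) (fun c => gav (fib S p c) w f) (fun c => gcov (fib S p c) w g h)
      + gcov O (fw S w p) (fun c => gav (fib S p c) w g) (fun c => gcov (fib S p c) w f h)
      + gcov O (fw S w p) (fun c => gav (fib S p c) w h) (fun c => gcov (fib S p c) w f g)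
      + gk3 O (fw S w p) (fun c => gav (fib S p c) w f) (fun c => gav (fib S p c) w g)
        (fun c => gav (fib S p c) w h) := by
  unfold gk3 gcov
  rw [gav_total hw hp f, gav_total hw hp g, gav_total hw hp h, gav_total hw hp (fun i => f i * g i),
    gav_total hw hp (fun i => f i * h i), gav_total hw hp (fun i => g i * h i),
    gav_total hw hp (fun i => f i * g i * h i)]
  generalize fw S w p = W
  generalize hA : (fun c => gav (fib S p c) w f) = A
  generalize hB : (fun c => gav (fib S p c) w g) = B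
  generalize hC : (fun c => gav (fib S p c) w h) = C
  generalize hAB : (fun c => gav (fib S p c) w (fun i => f i * g i)) = AB
  generalize hAC : (fun c => gav (fib S p c) w (fun i => f i * h i)) = AC
  generalize hBC : (fun c => gav (fib S p c) w (fun i => g i * h i)) = BC
  generalize hABC : (fun c => gav (fib S p c) w (fun i => f i * g i * h i)) = ABC
  have eA : ∀ c, gav (fib S p c) w f = A c := fun c => congrFun hA c
  have eB : ∀ c, gav (fib S p c) w g = B c := fun c => congrFun hB c
  have eC : ∀ c, gav (fib S p c) w h = C c := fun c => congrFun hC c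
  have eAB : ∀ c, gav (fib S p c) w (fun i => f i * g i) = AB c := fun c => congrFun hAB c
  have eAC : ∀ c, gav (fib S p c) w (fun i => f i * h i) = AC c := fun c => congrFun hAC c
  have eBC : ∀ c, gav (fib S p c) w (fun i => g i * h i) = BC c := fun c => congrFun hBC c
  have eABC : ∀ c, gav (fib S p c) w (fun i => f i * g i * h i) = ABC c := fun c => congrFun hABC c
  simp only [eA, eB, eC, eAB, eAC, eBC, eABC]
  have n1 : (fun c => ABC c - AB c * C c - AC c * B c - BC c * A c + 2 * (A c * B c * C c)) =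
      fun c => (ABC c - AB c * C c - AC c * B c - BC c * A c) + 2 * (A c * B c * C c) := rfl
  have n2 : (fun c => A c * (BC c - B c * C c)) = fun c => BC c * A c - A c * B c * C c := funext fun c => by ring
  have n3 : (fun c => B c * (AC c - A c * C c)) = fun c => AC c * B c - A c * B c * C c := funext fun c => by ring
  have n4 : (fun c => C c * (AB c - A c * B c)) = fun c => AB c * C c - A c * B c * C c := funext fun c => by ring
  rw [n2, n3, n4, gav_add (fun c => ABC c - AB c * C c - AC c * B c - BC c * A c) (fun c => 2 * (A c * B c * C c)),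
    gav_sub (fun c => ABC c - AB c * C c - AC c * B c) (fun c => BC c * A c),
    gav_sub (fun c => ABC c - AB c * C c) (fun c => AC c * B c), gav_sub ABC (fun c => AB c * C c),
    gav_const_mul, gav_sub (fun c => BC c * A c) (fun c => A c * B c * C c),
    gav_sub (fun c => AC c * B c) (fun c => A c * B c * C c), gav_sub (fun c => AB c * C c) (fun c => A c * B c * C c),
    gav_sub BC (fun c => B c * C c), gav_sub AC (fun c => A c * C c), gav_sub AB (fun c => A c * B c)]
  ring

end Tot

end

end Pool.Agent.W_7d29a1_C0
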