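import Pool.Agent.W_7d29a1_C0.Trap82
import Pool.Agent.W_7d29a1_C0.Cum52D

/-!
CURV0 (MP_7d29a1_pr, helper52): the Euler - Maclaurin functional of helper38 (board 70022): the one variable remainder and the exact
telescoping identity at the actual corner.
-/

set_option autoImplicit false

namespace Pool.Agent.W_7d29a1_C0

open Finset MeasureTheory intervalIntegral
open Pool.W7d29a1.C0

noncomputable section

/-! ### One variable -/

/-- The Euler - Maclaurin remainder, as a function of the fourth derivative. -/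
def Nc (φ4 : ℝ → ℝ) : ℝ := - (1 / 48) * ∫ t in (-1 : ℝ)..1, (1 - t ^ 2) ^ 2 * φ4 t

/-- **Euler - Maclaurin**: corner average of `φ - (a/3) φ'` = mean + remainder. -/
theorem Ac_em {φ φ1 φ2 φ3 φ4 : ℝ → ℝ} (h1 : ∀ t, HasDerivAt φ (φ1 t) t) (h2 : ∀ t, HasDerivAt φ1 (φ2 t) t)
    (h3 : ∀ t, HasDerivAt φ2 (φ3 t) t) (h4 : ∀ t, HasDerivAt φ3 (φ4 t) t) (hc : Continuous φ4) :
    Ac (fun a => φ a - a / 3 * φ1 a) = Mc φ + Nc φ4 := by
  have c0 : Continuous φ := continuous_iff_continuousAt.2 fun t => (h1 t).continuousAt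
  have c1 : Continuous φ1 := continuous_iff_continuousAt.2 fun t => (h2 t).continuousAt
  have hd : ∀ t : ℝ, HasDerivAt (fun t => (1 - t ^ 2) ^ 2 * φ3 t - (4 * t ^ 3 - 4 * t) * φ2 t + (12 * t ^ 2 - 4) * φ1 t
      - 24 * t * φ t) ((1 - t ^ 2) ^ 2 * φ4 t - 24 * φ t) t := fun t => by
    have p0 : HasDerivAt (fun t : ℝ => (1 - t ^ 2) ^ 2) (4 * t ^ 3 - 4 * t) t := by
      have := (((hasDerivAt_const t (1 : ℝ)).sub ((hasDerivAt_id t).pow 2)).pow 2)
      refine this.congr_deriv ?_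
      simp only [id_eq, Pi.sub_apply, Pi.pow_apply, Nat.cast_ofNat, Nat.add_one_sub_one, pow_one]
      ring
    have p1 : HasDerivAt (fun t : ℝ => 4 * t ^ 3 - 4 * t) (12 * t ^ 2 - 4) t := by
      have := (((hasDerivAt_id t).pow 3).const_mul (4 : ℝ)).sub ((hasDerivAt_id t).const_mul (4 : ℝ))
      refine this.congr_deriv ?_
      simp only [id_eq, Nat.cast_ofNat, Nat.add_one_sub_one]
      ring
    have p2 : HasDerivAt (fun t : ℝ => 12 * t ^ 2 - 4) (24 * t) t := by
      have := (((hasDerivAt_id t).pow 2).const_mul (12 : ℝ)).sub (hasDerivAt_const t (4 : ℝ))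
      refine this.congr_deriv ?_
      simp only [id_eq, Nat.cast_ofNat, Nat.add_one_sub_one, pow_one]
      ring
    have p3 : HasDerivAt (fun t : ℝ => 24 * t) 24 t := by
      have := (hasDerivAt_id t).const_mul (24 : ℝ)
      refine this.congr_deriv ?_
      ring
    refine ((((p0.mul (h4 t)).sub (p1.mul (h3 t))).add (p2.mul (h2 t))).sub (p3.mul (h1 t))).congr_deriv ?_
    ring
  have hi : ∫ t in (-1 : ℝ)..1, ((1 - t ^ 2) ^ 2 * φ4 t - 24 * φ t) = 8 * (φ1 1 - φ1 (-1)) - 24 * (φ 1 + φ (-1)) := by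
    rw [integral_eq_sub_of_hasDerivAt (f := fun t => (1 - t ^ 2) ^ 2 * φ3 t - (4 * t ^ 3 - 4 * t) * φ2 t
      + (12 * t ^ 2 - 4) * φ1 t - 24 * t * φ t) (fun t _ => hd t) (Continuous.intervalIntegrable (by fun_prop) _ _)]
    norm_num
    ring
  rw [intervalIntegral.integral_sub (Continuous.intervalIntegrable (by fun_prop) _ _)
    (Continuous.intervalIntegrable (by fun_prop) _ _), intervalIntegral.integral_const_mul] at hi
  unfold Ac Mc Nc
  linarith

/-- The remainder is at most `sup |φ4| / 45`; here the crude constant. -/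
theorem abs_Nc_le {φ4 : ℝ → ℝ} {B : ℝ} (h : ∀ t ∈ Set.Icc (-1 : ℝ) 1, |φ4 t| ≤ B) :
    |Nc φ4| ≤ B / 24 := by
  have h1 : ‖∫ t in (-1 : ℝ)..1, (1 - t ^ 2) ^ 2 * φ4 t‖ ≤ B * |1 - (-1 : ℝ)| := by
    refine intervalIntegral.norm_integral_le_of_norm_le_const fun t ht => ?_
    rw [Set.uIoc_of_le (by norm_num)] at ht
    have ht' : t ∈ Set.Icc (-1 : ℝ) 1 := ⟨ht.1.le, ht.2⟩
    have h2 : |(1 - t ^ 2) ^ 2| ≤ 1 := by
      rw [abs_of_nonneg (sq_nonneg _)]
      have h3 : t ^ 2 ≤ 1 := by nlinarith [ht'.1, ht'.2]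
      nlinarith [sq_nonneg t]
    rw [Real.norm_eq_abs, abs_mul]
    have h4 := h t ht'
    have h5 := mul_le_mul h2 h4 (abs_nonneg _) zero_le_one
    linarith
  rw [Real.norm_eq_abs] at h1
  unfold Nc
  rw [abs_mul, abs_neg, abs_of_pos (by norm_num : (0 : ℝ) < 1 / 48)]
  have h6 : |1 - (-1 : ℝ)| = 2 := by norm_num
  rw [h6] at h1
  linarith

/-! ### Symmetries of the cumulants -/

variable {ι : Type*} {S : Finset ι} {w : ι → ℝ}

theorem gk3_swap12 (f g h : ι → ℝ) : gk3 S w f g h = gk3 S w g f h := by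
  unfold gk3
  rw [show (fun i => f i * g i * h i) = fun i => g i * f i * h i from funext fun i => by ring,
    show (fun i => f i * g i) = fun i => g i * f i from funext fun i => by ring]
  ring

theorem gk3_swap23 (f g h : ι → ℝ) : gk3 S w f g h = gk3 S w f h g := by
  unfold gk3
  rw [show (fun i => f i * g i * h i) = fun i => f i * h i * g i from funext fun i => by ring,
    show (fun i => g i * h i) = fun i => h i * g i from funext fun i => by ring]
  ring

theorem gk3_add_right (f g h h' : ι → ℝ) :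
    gk3 S w f g (fun i => h i + h' i) = gk3 S w f g h + gk3 S w f g h' := by
  unfold gk3
  rw [show (fun i => f i * g i * (h i + h' i)) = fun i => f i * g i * h i + f i * g i * h' i from
      funext fun i => by ring,
    show (fun i => f i * (h i + h' i)) = fun i => f i * h i + f i * h' i from funext fun i => by ring,
    show (fun i => g i * (h i + h' i)) = fun i => g i * h i + g i * h' i from funext fun i => by ring,
    gav_add (fun i => f i * g i * h i), gav_add (fun i => f i * h i), gav_add (fun i => g i * h i), gav_add h h']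
  ring

theorem gk3_const_mul_right (c : ℝ) (f g h : ι → ℝ) : gk3 S w f g (fun i => c * h i) = c * gk3 S w f g h := by
  unfold gk3
  rw [show (fun i => f i * g i * (c * h i)) = fun i => c * (f i * g i * h i) from funext fun i => by ring,
    show (fun i => f i * (c * h i)) = fun i => c * (f i * h i) from funext fun i => by ring,
    show (fun i => g i * (c * h i)) = fun i => c * (g i * h i) from funext fun i => by ring,
    gav_const_mul, gav_const_mul, gav_const_mul, gav_const_mul]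
  ring

theorem gk3_sub_mul_right (c : ℝ) (f g h h' : ι → ℝ) :
    gk3 S w f g (fun i => h i - c * h' i) = gk3 S w f g h - c * gk3 S w f g h' := by
  rw [show (fun i => h i - c * h' i) = fun i => h i + (-c) * h' i from funext fun i => by ring,
    gk3_add_right, gk3_const_mul_right]
  ring

theorem gcov_sub_mul_right (c : ℝ) (f h h' : ι → ℝ) :
    gcov S w f (fun i => h i - c * h' i) = gcov S w f h - c * gcov S w f h' := by
  rw [show (fun i => h i - c * h' i) = fun i => h i + (-c) * h' i from funext fun i => by ring,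
    gcov_add_right, gcov_const_mul_right]
  ring

theorem gcov_sub_mul_left (c : ℝ) (f h h' : ι → ℝ) :
    gcov S w (fun i => h i - c * h' i) f = gcov S w h f - c * gcov S w h' f := by
  rw [gcov_comm, gcov_sub_mul_right, gcov_comm f h, gcov_comm f h']

/-! ### The exact telescoping at the corner -/

/-- `∂_t ∂_s` of the free energy. -/
def Pm (S : Finset ι) (w lt ls lts : ι → ℝ) : ℝ := gav S w lts + gcov S w lt ls

/-- `∂_t^2 ∂_s` of the free energy. -/
def Pt (S : Finset ι) (w lt ls ltt lts ltts : ι → ℝ) : ℝ :=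
  gav S w ltts + 2 * gcov S w lts lt + gcov S w ltt ls + gk3 S w lt lt ls

/-- `∂_t ∂_s^2` of the free energy. -/
def Ps (S : Finset ι) (w lt ls lss lts ltss : ι → ℝ) : ℝ :=
  gav S w ltss + 2 * gcov S w lts ls + gcov S w lt lss + gk3 S w lt ls ls

/-- `∂_t^2 ∂_s^2` of the free energy. -/
def Pts (S : Finset ι) (w lt ls ltt lss lts ltts ltss lttss : ι → ℝ) : ℝ :=
  gav S w lttss + 2 * gcov S w ltts ls + 2 * gcov S w ltss lt + 2 * gcov S w lts lts + gcov S w ltt lss
    + 4 * gk3 S w lts lt ls + gk3 S w ltt ls ls + gk3 S w lt lt lss + gk4 S w lt lt ls ls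

/-- `(1 - (a/3) ∂_t) (1 - (b/3) ∂_s) ∂_t ∂_s` of the free energy. -/
def Om (S : Finset ι) (w lt ls ltt lss lts ltts ltss lttss : ι → ℝ) (a b : ℝ) : ℝ :=
  Pm S w lt ls lts - a / 3 * Pt S w lt ls ltt lts ltts - b / 3 * Ps S w lt ls lss lts ltss
    + a * b / 9 * Pts S w lt ls ltt lss lts ltts ltss lttss

/-- The error of one cut. -/
def DelI (S : Finset ι) (w lt ls ltt lss lts ltts ltss : ι → ℝ) (a b : ℝ) : ℝ :=
  a / 3 * (gk3 S w lt lt (fun i => ls i - b / 3 * lss i) + 2 * gcov S w lt (fun i => lts i - b / 3 * ltss i))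
    + b / 3 * (gk3 S w ls ls (fun i => lt i - a / 3 * ltt i) + 2 * gcov S w ls (fun i => lts i - a / 3 * ltts i))
    - a * b / 9 * (gk4 S w lt lt ls ls + 4 * gk3 S w lt ls lts + 2 * gcov S w lts lts)

/-- **THE EXACT TELESCOPING** (helper38): inner `Om` averaged over the cut + covariance of the functionals `Z = F_t - (a/3) F_tt` =
`Om` of the interval + the error of the cut; everything at one corner. -/
theorem telescope (lt ls ltt lss lts ltts ltss lttss : ι → ℝ) (a b : ℝ) :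
    gav S w (fun i => lts i - a / 3 * ltts i - b / 3 * ltss i + a * b / 9 * lttss i)
      + gcov S w (fun i => lt i - a / 3 * ltt i) (fun i => ls i - b / 3 * lss i)
    = Om S w lt ls ltt lss lts ltts ltss lttss a b + DelI S w lt ls ltt lss lts ltts ltss a b := by
  have e1 : gav S w (fun i => lts i - a / 3 * ltts i - b / 3 * ltss i + a * b / 9 * lttss i) =
      gav S w lts - a / 3 * gav S w ltts - b / 3 * gav S w ltss + a * b / 9 * gav S w lttss := by
    rw [gav_add (fun i => lts i - a / 3 * ltts i - b / 3 * ltss i) (fun i => a * b / 9 * lttss i),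
      gav_sub (fun i => lts i - a / 3 * ltts i) (fun i => b / 3 * ltss i), gav_sub lts (fun i => a / 3 * ltts i),
      gav_const_mul, gav_const_mul, gav_const_mul]
  rw [e1, gcov_sub_mul_right, gcov_sub_mul_left, gcov_sub_mul_left]
  unfold Om DelI Pm Pt Ps Pts
  rw [gk3_sub_mul_right, gk3_sub_mul_right, gcov_sub_mul_right, gcov_sub_mul_right,
    gcov_comm lts lt, gcov_comm lts ls, gcov_comm ltts ls, gcov_comm ltss lt,
    gk3_swap12 lts lt ls, gk3_swap23 lt lts ls, gk3_swap23 lt ls ls]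
  have s1 : gk3 S w ls ls lt = gk3 S w lt ls ls := by rw [gk3_swap23, gk3_swap12]
  have s2 : gk3 S w ls ls ltt = gk3 S w ltt ls ls := by rw [gk3_swap23, gk3_swap12]
  rw [s1, s2]
  ring

/-! ### The derivatives of the free energy -/

section Der

variable {L lt ls ltt lss lts ltts ltss lttss : ℝ → ℝ → ι → ℝ} {t s : ℝ}

/-- The free energy of the cut. -/
def Fc (S : Finset ι) (L : ℝ → ℝ → ι → ℝ) (t s : ℝ) : ℝ := Real.log (∑ i ∈ S, ew (L t s) i)

theorem hasDerivAt_Fc_t (hS : S.Nonempty) (h1 : ∀ i ∈ S, HasDerivAt (fun t => L t s i) (lt t s i) t) :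
    HasDerivAt (fun t => Fc S L t s) (gav S (ew (L t s)) (lt t s)) t :=
  hasDerivAt_lse hS h1

/-- `∂_t^2 F = <l_tt> + Var l_t`. -/
theorem hasDerivAt_Fc_tt (hS : S.Nonempty) (h1 : ∀ i ∈ S, HasDerivAt (fun t => L t s i) (lt t s i) t)
    (h2 : ∀ i ∈ S, HasDerivAt (fun t => lt t s i) (ltt t s i) t) :
    HasDerivAt (fun t => gav S (ew (L t s)) (lt t s))
      (gav S (ew (L t s)) (ltt t s) + gcov S (ew (L t s)) (lt t s) (lt t s)) t :=
  hasDerivAt_gav hS h1 h2

/-- `∂_s ∂_t F`. -/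
theorem hasDerivAt_Fc_ts (hS : S.Nonempty) (h1 : ∀ i ∈ S, HasDerivAt (fun s => L t s i) (ls t s i) s)
    (h2 : ∀ i ∈ S, HasDerivAt (fun s => lt t s i) (lts t s i) s) :
    HasDerivAt (fun s => gav S (ew (L t s)) (lt t s)) (Pm S (ew (L t s)) (lt t s) (ls t s) (lts t s)) s :=
  hasDerivAt_gav hS h1 h2

/-- `∂_t (∂_t ∂_s F) = Pt`. -/
theorem hasDerivAt_Pm_t (hS : S.Nonempty) (h1 : ∀ i ∈ S, HasDerivAt (fun t => L t s i) (lt t s i) t)
    (h2 : ∀ i ∈ S, HasDerivAt (fun t => lt t s i) (ltt t s i) t)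
    (h3 : ∀ i ∈ S, HasDerivAt (fun t => ls t s i) (lts t s i) t)
    (h4 : ∀ i ∈ S, HasDerivAt (fun t => lts t s i) (ltts t s i) t) :
    HasDerivAt (fun t => Pm S (ew (L t s)) (lt t s) (ls t s) (lts t s))
      (Pt S (ew (L t s)) (lt t s) (ls t s) (ltt t s) (lts t s) (ltts t s)) t := by
  refine ((hasDerivAt_gav hS h1 h4).add (hasDerivAt_gcov hS h1 h2 h3)).congr_deriv ?_
  unfold Pt
  rw [gk3_swap23 (lt t s) (lt t s) (ls t s), gcov_comm (lt t s) (lts t s)]
  ring

/-- `∂_s (∂_t ∂_s F) = Ps`. -/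
theorem hasDerivAt_Pm_s (hS : S.Nonempty) (h1 : ∀ i ∈ S, HasDerivAt (fun s => L t s i) (ls t s i) s)
    (h2 : ∀ i ∈ S, HasDerivAt (fun s => ls t s i) (lss t s i) s)
    (h3 : ∀ i ∈ S, HasDerivAt (fun s => lt t s i) (lts t s i) s)
    (h4 : ∀ i ∈ S, HasDerivAt (fun s => lts t s i) (ltss t s i) s) :
    HasDerivAt (fun s => Pm S (ew (L t s)) (lt t s) (ls t s) (lts t s))
      (Ps S (ew (L t s)) (lt t s) (ls t s) (lss t s) (lts t s) (ltss t s)) s := by
  refine ((hasDerivAt_gav hS h1 h4).add (hasDerivAt_gcov hS h1 h3 h2)).congr_deriv ?_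
  unfold Ps
  ring

/-- `∂_s (∂_t^2 ∂_s F) = Pts`. -/
theorem hasDerivAt_Pt_s (hS : S.Nonempty) (h1 : ∀ i ∈ S, HasDerivAt (fun s => L t s i) (ls t s i) s)
    (h2 : ∀ i ∈ S, HasDerivAt (fun s => ls t s i) (lss t s i) s)
    (h3 : ∀ i ∈ S, HasDerivAt (fun s => lt t s i) (lts t s i) s)
    (h4 : ∀ i ∈ S, HasDerivAt (fun s => lts t s i) (ltss t s i) s)
    (h5 : ∀ i ∈ S, HasDerivAt (fun s => ltt t s i) (ltts t s i) s)
    (h6 : ∀ i ∈ S, HasDerivAt (fun s => ltts t s i) (lttss t s i) s) :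
    HasDerivAt (fun s => Pt S (ew (L t s)) (lt t s) (ls t s) (ltt t s) (lts t s) (ltts t s))
      (Pts S (ew (L t s)) (lt t s) (ls t s) (ltt t s) (lss t s) (lts t s) (ltts t s) (ltss t s) (lttss t s)) s := by
  have d1 := hasDerivAt_gav hS h1 h6
  have d2 := (hasDerivAt_gcov hS h1 h4 h3).const_mul (2 : ℝ)
  have d3 := hasDerivAt_gcov hS h1 h5 h2
  have d4 := hasDerivAt_gk3 hS h1 h3 h3 h2
  refine (((d1.add d2).add d3).add d4).congr_deriv ?_
  unfold Pts
  rw [gk3_swap12 (lt t s) (lts t s) (ls t s)]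
  ring

end Der

end

end Pool.Agent.W_7d29a1_C0
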