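import Pool.Agent.W_7d29a1_C0.Proj82
import Pool.Agent.W_7d29a1_C0.EM52

/-!
CURV0 (MP_7d29a1_pr, helper90): the cross term of VT (board 70204 (3), 70399). `g` is the log-kick of the row, `p` the data outside
of the block (ends included), `f` a function of these data which does not see the kick. `F = cc p g 1`, `V = cc p g 2`,
`K3 = cc p g 3`, `K4 = cc p g 4` at the weights `w + t g`; `CC p g w [f] ks t` is the joint cumulant, under the marginal over `p`, of
the conditional cumulants of orders `ks` and of `f`; `hg p g w [f] k` is the `k`-th derivative of `h t = E_t f`.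
-/

set_option autoImplicit false
set_option linter.unusedSectionVars false
set_option linter.unusedVariables false

namespace Pool.W7d29a1.C0

open Finset Filter Topology MeasureTheory intervalIntegral
open Pool.Agent.W_7d29a1_C0

noncomputable section

/-! ### One variable -/

theorem Ac_add90 (φ ψ : ℝ → ℝ) : Ac (fun a => φ a + ψ a) = Ac φ + Ac ψ := by
  unfold Ac
  ring

theorem Ac_sub90 (φ ψ : ℝ → ℝ) : Ac (fun a => φ a - ψ a) = Ac φ - Ac ψ := by
  unfold Ac
  ring

/-- The corner average against the sign is a half difference. -/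
theorem Ac_sign (c : ℝ) (φ : ℝ → ℝ) : Ac (fun a => a / c * φ a) = Dc φ / c := by
  unfold Ac Dc
  ring

/-- The integration by parts `∫ (1 - 3 t^2)/12 φ = - ∫ t (1 - t^2)/12 φ'`. -/
theorem ibp13 {φ φ1 : ℝ → ℝ} (h1 : ∀ t, HasDerivAt φ (φ1 t) t) (hc : Continuous φ1) :
    ∫ t in (-1 : ℝ)..1, (1 - 3 * t ^ 2) / 12 * φ t = - ∫ t in (-1 : ℝ)..1, t * (1 - t ^ 2) / 12 * φ1 t := by
  have c0 : Continuous φ := continuous_iff_continuousAt.2 fun t => (h1 t).continuousAt
  have hd : ∀ t : ℝ, HasDerivAt (fun t => t * (1 - t ^ 2) / 12 * φ t)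
      ((1 - 3 * t ^ 2) / 12 * φ t + t * (1 - t ^ 2) / 12 * φ1 t) t := fun t => by
    have p0 : HasDerivAt (fun t : ℝ => t * (1 - t ^ 2) / 12) ((1 - 3 * t ^ 2) / 12) t := by
      have := ((hasDerivAt_id t).mul ((hasDerivAt_const t (1 : ℝ)).sub ((hasDerivAt_id t).pow 2))).div_const 12
      refine this.congr_deriv ?_
      simp only [id_eq, Pi.sub_apply, Pi.pow_apply, Nat.cast_ofNat, Nat.add_one_sub_one, pow_one]
      ring
    exact p0.mul (h1 t)
  have hi : ∫ t in (-1 : ℝ)..1, ((1 - 3 * t ^ 2) / 12 * φ t + t * (1 - t ^ 2) / 12 * φ1 t) = 0 := by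
    rw [integral_eq_sub_of_hasDerivAt (f := fun t => t * (1 - t ^ 2) / 12 * φ t) (fun t _ => hd t)
      (Continuous.intervalIntegrable (by fun_prop) _ _)]
    norm_num
  rw [intervalIntegral.integral_add (Continuous.intervalIntegrable (by fun_prop) _ _)
    (Continuous.intervalIntegrable (by fun_prop) _ _)] at hi
  linarith

/-- **The corner average of `φ - (a/3) ψ`**, `ψ` arbitrary, with two derivatives of `φ` and one of `ψ`. -/
theorem Ac_cross {φ φ1 φ2 ψ ψ1 : ℝ → ℝ} (h1 : ∀ t, HasDerivAt φ (φ1 t) t) (h2 : ∀ t, HasDerivAt φ1 (φ2 t) t)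
    (h3 : ∀ t, HasDerivAt ψ (ψ1 t) t) (hc2 : Continuous φ2) (hc3 : Continuous ψ1) :
    Ac (fun a => φ a - a / 3 * ψ a) = Mc φ + ∫ t in (-1 : ℝ)..1, ((1 - t ^ 2) / 4 * φ2 t - 1 / 6 * ψ1 t) := by
  rw [Ac_sub90, Ac_sign, Ac_eq h1 h2 hc2, Dc_eq_Mc h3 hc3,
    intervalIntegral.integral_sub (Continuous.intervalIntegrable (by fun_prop) _ _)
      (Continuous.intervalIntegrable (by fun_prop) _ _), intervalIntegral.integral_const_mul]
  have e : (fun t : ℝ => (1 - t ^ 2) / 4 * φ2 t) = fun t : ℝ => 1 / 4 * ((1 - t ^ 2) * φ2 t) := by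
    funext t
    ring
  rw [e, intervalIntegral.integral_const_mul]
  unfold Tc Mc
  ring

/-- **Euler - Maclaurin with three derivatives** (helper42): corner average of `φ - (a/3) φ'` = mean
`- (1/12) ∫ t (1 - t^2) φ'''`. -/
theorem Ac_em3 {φ φ1 φ2 φ3 : ℝ → ℝ} (h1 : ∀ t, HasDerivAt φ (φ1 t) t) (h2 : ∀ t, HasDerivAt φ1 (φ2 t) t)
    (h3 : ∀ t, HasDerivAt φ2 (φ3 t) t) (hc : Continuous φ3) :
    Ac (fun a => φ a - a / 3 * φ1 a) = Mc φ - ∫ t in (-1 : ℝ)..1, t * (1 - t ^ 2) / 12 * φ3 t := by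
  have c2 : Continuous φ2 := continuous_iff_continuousAt.2 fun t => (h3 t).continuousAt
  rw [Ac_cross h1 h2 h2 c2 c2, sub_eq_add_neg, ← ibp13 h3 hc]
  congr 1
  refine intervalIntegral.integral_congr fun t _ => ?_
  ring

/-! ### The cross term -/

variable {X : Type*} [Fintype X] [Nonempty X] {Y : Type*} [Fintype Y] [Nonempty Y] [DecidableEq Y]

theorem continuous_CC {p : X → Y} (hp : Function.Surjective p) (g w : X → ℝ) (l : List (Y → ℝ)) (ks : List ℕ) :
    Continuous fun t => CC p g w l ks t :=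
  continuous_iff_continuousAt.2 fun t => (hasDerivAt_CC hp g w l ks t).continuousAt

theorem continuous_hg (p : X → Y) (g w : X → ℝ) (l : List (Y → ℝ)) (k : ℕ) : Continuous fun t => hg p g w l k t :=
  continuous_iff_continuousAt.2 fun t => (hasDerivAt_hg p g w l k t).continuousAt

/-- `CC` as a cumulant of the full Gibbs measure. -/
theorem CC_eq_cm {p : X → Y} (hp : Function.Surjective p) (g w : X → ℝ) (l : List (Y → ℝ)) (ks : List ℕ) (t : ℝ) :
    CC p g w l ks t = cm (ks.map (fun k => cc p g k (w + t • g) ∘ p) ++ l.map fun F => F ∘ p) (w + t • g) := by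
  unfold CC
  rw [← cm_marg hp, List.map_append, List.map_map]
  rfl

theorem hasDerivAt_CC11 {p : X → Y} (hp : Function.Surjective p) (g w : X → ℝ) (l : List (Y → ℝ)) (t : ℝ) :
    HasDerivAt (fun t => CC p g w l [1, 1] t) (CC p g w l [1, 1, 1] t + 2 * CC p g w l [2, 1] t) t := by
  have h := hasDerivAt_CC hp g w l [1, 1] t
  refine h.congr_deriv ?_
  have e1 : CC p g w l [1, 2] t = CC p g w l [2, 1] t := CC_perm p g w l (by decide) t
  simp only [incs, List.nil_append, add_zero]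
  norm_num
  rw [e1]
  ring

theorem hasDerivAt_CC2 {p : X → Y} (hp : Function.Surjective p) (g w : X → ℝ) (l : List (Y → ℝ)) (t : ℝ) :
    HasDerivAt (fun t => CC p g w l [2] t) (CC p g w l [2, 1] t + CC p g w l [3] t) t := by
  have h := hasDerivAt_CC hp g w l [2] t
  refine h.congr_deriv ?_
  have e1 : CC p g w l [1, 2] t = CC p g w l [2, 1] t := CC_perm p g w l (by decide) t
  simp only [incs, List.nil_append, add_zero]
  norm_num
  rw [e1]

theorem hasDerivAt_CC3 {p : X → Y} (hp : Function.Surjective p) (g w : X → ℝ) (l : List (Y → ℝ)) (t : ℝ) :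
    HasDerivAt (fun t => CC p g w l [3] t) (CC p g w l [3, 1] t + CC p g w l [4] t) t := by
  have h := hasDerivAt_CC hp g w l [3] t
  refine h.congr_deriv ?_
  have e1 : CC p g w l [1, 3] t = CC p g w l [3, 1] t := CC_perm p g w l (by decide) t
  simp only [incs, List.nil_append, add_zero]
  norm_num
  rw [e1]

/-- The mean of `h'` is the half difference of `h t = E_t f`. -/
theorem Mc_hg_one {p : X → Y} (g w : X → ℝ) (l : List (Y → ℝ)) : Mc (hg p g w l 1) = Dc (hg p g w l 0) :=
  (Dc_eq_Mc (fun t => hasDerivAt_hg p g w l 0 t) (continuous_hg p g w l 1)).symm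

/-- The covariance of `F - (a/3) V` with `f`, at the corner `a`. -/
theorem cov_Z {p : X → Y} (g w : X → ℝ) (f : Y → ℝ) (a t : ℝ) :
    cm [cc p g 1 (w + t • g) - (a / 3) • cc p g 2 (w + t • g), f] (wmarg p (w + t • g)) =
      CC p g w [f] [1] t - a / 3 * CC p g w [f] [2] t := by
  rw [cm_head_sub, cm_head_smul]
  rfl

/-- **The cross term, form of 70204 (3).** -/
theorem cross90 {p : X → Y} (hp : Function.Surjective p) (g w : X → ℝ) (f : Y → ℝ) :
    Ac (fun a => CC p g w [f] [1] a - a / 3 * CC p g w [f] [2] a) = Dc (hg p g w [f] 0) +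
      1 / 3 * Mc (fun t => CC p g w [f] [1, 1, 1] t + 2 * CC p g w [f] [2, 1] t) + Nc (hg p g w [f] 5) := by
  have e : (fun a => CC p g w [f] [1] a - a / 3 * CC p g w [f] [2] a) =
      fun a => (hg p g w [f] 1 a - a / 3 * hg p g w [f] 2 a) + a / 3 * CC p g w [f] [1, 1] a := by
    funext a
    rw [hg_one hp, hg_two hp]
    ring
  have hc : Continuous fun t => CC p g w [f] [1, 1, 1] t + 2 * CC p g w [f] [2, 1] t :=
    (continuous_CC hp g w [f] [1, 1, 1]).add ((continuous_CC hp g w [f] [2, 1]).const_mul 2)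
  rw [e, Ac_add90, Ac_sign, Ac_em (fun t => hasDerivAt_hg p g w [f] 1 t) (fun t => hasDerivAt_hg p g w [f] 2 t)
    (fun t => hasDerivAt_hg p g w [f] 3 t) (fun t => hasDerivAt_hg p g w [f] 4 t) (continuous_hg p g w [f] 5),
    Mc_hg_one, Dc_eq_Mc (fun t => hasDerivAt_CC11 hp g w [f] t) hc]
  ring

/-- **The cross term, form of helper42 70399**: cumulants of order at most four. -/
theorem cross90B {p : X → Y} (hp : Function.Surjective p) (g w : X → ℝ) (f : Y → ℝ) :
    Ac (fun a => CC p g w [f] [1] a - a / 3 * CC p g w [f] [2] a) = Dc (hg p g w [f] 0) +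
      ∫ t in (-1 : ℝ)..1, ((1 - t ^ 2) / 4 * CC p g w [f] [1, 1, 1] t + (7 - 9 * t ^ 2) / 12 * CC p g w [f] [2, 1] t -
        t * (1 - t ^ 2) / 12 * (CC p g w [f] [3, 1] t + CC p g w [f] [4] t)) := by
  have c111 := continuous_CC hp g w [f] [1, 1, 1]
  have c21 := continuous_CC hp g w [f] [2, 1]
  have c3 := continuous_CC hp g w [f] [3]
  have c31 := continuous_CC hp g w [f] [3, 1]
  have c4 := continuous_CC hp g w [f] [4]
  have e : (fun a => CC p g w [f] [1] a - a / 3 * CC p g w [f] [2] a) =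
      fun a => hg p g w [f] 1 a - a / 3 * CC p g w [f] [2] a := by
    funext a
    rw [hg_one hp]
  have hibp := ibp13 (fun t => hasDerivAt_CC3 hp g w [f] t) (c31.add c4)
  rw [e, Ac_cross (fun t => hasDerivAt_hg p g w [f] 1 t) (fun t => hasDerivAt_hg p g w [f] 2 t)
    (fun t => hasDerivAt_CC2 hp g w [f] t) (continuous_hg p g w [f] 3) (c21.add c3), Mc_hg_one]
  congr 1
  have e1 : ∀ t : ℝ, (1 - t ^ 2) / 4 * hg p g w [f] 3 t - 1 / 6 * (CC p g w [f] [2, 1] t + CC p g w [f] [3] t) =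
      ((1 - t ^ 2) / 4 * CC p g w [f] [1, 1, 1] t + (7 - 9 * t ^ 2) / 12 * CC p g w [f] [2, 1] t) +
        (1 - 3 * t ^ 2) / 12 * CC p g w [f] [3] t := fun t => by
    rw [hg_three hp]
    ring
  rw [intervalIntegral.integral_congr fun t _ => e1 t,
    intervalIntegral.integral_add (Continuous.intervalIntegrable (by fun_prop) _ _)
      (Continuous.intervalIntegrable (by fun_prop) _ _), hibp, ← sub_eq_add_neg,
    ← intervalIntegral.integral_sub (Continuous.intervalIntegrable (by fun_prop) _ _)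
      (Continuous.intervalIntegrable (by fun_prop) _ _)]

/-! ### Fixed ends -/

/-- **Fixed ends** (70204 (5), 70399): the corner average of `F - (a/3) V` is the half difference of the conditional free energy
minus `(1/12) ∫ t (1 - t^2) K4`. -/
theorem ends90 {p : X → Y} (hp : Function.Surjective p) (g w : X → ℝ) (y : Y) :
    Ac (fun a => cc p g 1 (w + a • g) y - a / 3 * cc p g 2 (w + a • g) y) = Dc (fun a => wmarg p (w + a • g) y) -
      ∫ t in (-1 : ℝ)..1, t * (1 - t ^ 2) / 12 * cc p g 4 (w + t • g) y := by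
  have hd : ∀ (k : ℕ) (t : ℝ), HasDerivAt (fun t : ℝ => cc p g k (w + t • g) y) (cc p g (k + 1) (w + t • g) y) t :=
    fun k t => (hasDerivAt_pi.1 (hasDerivAt_cc hp g w k t)) y
  have h0 : ∀ t : ℝ, HasDerivAt (fun t : ℝ => wmarg p (w + t • g) y) (cc p g 1 (w + t • g) y) t :=
    fun t => (hasDerivAt_pi.1 (hasDerivAt_wmarg hp g w t)) y
  have hc : ∀ k : ℕ, Continuous fun t : ℝ => cc p g k (w + t • g) y := fun k =>
    continuous_iff_continuousAt.2 fun t => (hd k t).continuousAt
  rw [Ac_em3 (hd 1) (hd 2) (hd 3) (hc 4), Dc_eq_Mc h0 (hc 1)]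

/-- The same, with the fifth order remainder. -/
theorem ends90N {p : X → Y} (hp : Function.Surjective p) (g w : X → ℝ) (y : Y) :
    Ac (fun a => cc p g 1 (w + a • g) y - a / 3 * cc p g 2 (w + a • g) y) = Dc (fun a => wmarg p (w + a • g) y) +
      Nc (fun t => cc p g 5 (w + t • g) y) := by
  have hd : ∀ (k : ℕ) (t : ℝ), HasDerivAt (fun t : ℝ => cc p g k (w + t • g) y) (cc p g (k + 1) (w + t • g) y) t :=
    fun k t => (hasDerivAt_pi.1 (hasDerivAt_cc hp g w k t)) y
  have h0 : ∀ t : ℝ, HasDerivAt (fun t : ℝ => wmarg p (w + t • g) y) (cc p g 1 (w + t • g) y) t :=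
    fun t => (hasDerivAt_pi.1 (hasDerivAt_wmarg hp g w t)) y
  have hc : ∀ k : ℕ, Continuous fun t : ℝ => cc p g k (w + t • g) y := fun k =>
    continuous_iff_continuousAt.2 fun t => (hd k t).continuousAt
  rw [Ac_em (hd 1) (hd 2) (hd 3) (hd 4) (hc 5), Dc_eq_Mc h0 (hc 1)]

end

end Pool.W7d29a1.C0
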