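import Pool.Agent.W_7d29a1_C0.SlabD82

/-!
CURV0 (MP_7d29a1_pr), master page (2.3): **the cross term in whole derivatives** (form X), for the functional
`Z_a = cE γ - (a/3) cC(γ, g)`; `γ = g` is helper38's functional, `γ` = the mean functional of section 7 (B). (helper82)
-/

set_option autoImplicit false
set_option linter.unusedSectionVars false
set_option linter.unusedVariables false

namespace Pool.W7d29a1.C0

open Finset Filter Topology MeasureTheory intervalIntegral
open Pool.Agent.W_7d29a1_C0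

noncomputable section

/-- **Form X, one variable**: `h1' = φ + ψ`. -/
theorem formX {h1 φ φ1 ψ ψ1 ψ2 : ℝ → ℝ} (dh : ∀ t, HasDerivAt h1 (φ t + ψ t) t) (dφ : ∀ t, HasDerivAt φ (φ1 t) t)
    (dψ : ∀ t, HasDerivAt ψ (ψ1 t) t) (dψ1 : ∀ t, HasDerivAt ψ1 (ψ2 t) t) (cφ1 : Continuous φ1) (cψ2 : Continuous ψ2) :
    Ac (fun a => h1 a - a / 3 * ψ a) = Mc h1 + (1 / 4) * (∫ t in (-1 : ℝ)..1, (1 - t ^ 2) * φ1 t) -
      (1 / 12) * ∫ t in (-1 : ℝ)..1, t * (1 - t ^ 2) * ψ2 t := by
  have c1 : Continuous h1 := continuous_iff_continuousAt.2 fun t => (dh t).continuousAt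
  have key : ∀ t, HasDerivAt (fun t => (1 / 4) * ((1 - t ^ 2) * φ t) - (1 / 12) * ((t - t ^ 3) * ψ1 t) +
      (1 / 12) * ((1 - 3 * t ^ 2) * ψ t) + (1 / 2) * (t * h1 t))
      ((1 / 4) * ((1 - t ^ 2) * φ1 t) - (1 / 12) * (t * (1 - t ^ 2) * ψ2 t) + (1 / 2) * h1 t) t := fun t => by
    have p2 : HasDerivAt (fun t : ℝ => 1 - t ^ 2) (-(2 * t)) t := by
      have := (hasDerivAt_pow 2 t).const_sub 1
      simpa using this
    have p3 : HasDerivAt (fun t : ℝ => t - t ^ 3) (1 - 3 * t ^ 2) t := by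
      have := (hasDerivAt_id' t).fun_sub (hasDerivAt_pow 3 t)
      simpa using this
    have p4 : HasDerivAt (fun t : ℝ => 1 - 3 * t ^ 2) (-(6 * t)) t := by
      have := ((hasDerivAt_pow 2 t).const_mul 3).const_sub 1
      refine this.congr_deriv ?_
      norm_num
      ring
    have a1 := ((p2.mul (dφ t)).const_mul (1 / 4 : ℝ))
    have a2 := ((p3.mul (dψ1 t)).const_mul (1 / 12 : ℝ))
    have a3 := ((p4.mul (dψ t)).const_mul (1 / 12 : ℝ))
    have a4 := (((hasDerivAt_id t).mul (dh t)).const_mul (1 / 2 : ℝ))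
    refine (((a1.sub a2).add a3).add a4).congr_deriv ?_
    simp only [id]
    ring
  have i1 : Continuous fun t : ℝ => (1 - t ^ 2) * φ1 t := by fun_prop
  have i2 : Continuous fun t : ℝ => t * (1 - t ^ 2) * ψ2 t := by fun_prop
  have h := integral_eq_sub_of_hasDerivAt (a := (-1 : ℝ)) (b := 1) (fun t _ => key t)
    ((((i1.const_mul (1 / 4 : ℝ)).sub (i2.const_mul (1 / 12 : ℝ))).add (c1.const_mul (1 / 2 : ℝ))).intervalIntegrable _ _)
  have j1 : Continuous fun t : ℝ => (1 / 4) * ((1 - t ^ 2) * φ1 t) := i1.const_mul _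
  have j2 : Continuous fun t : ℝ => (1 / 12) * (t * (1 - t ^ 2) * ψ2 t) := i2.const_mul _
  have j3 : Continuous fun t : ℝ => (1 / 2) * h1 t := c1.const_mul _
  have j4 : Continuous fun t : ℝ => (1 / 4) * ((1 - t ^ 2) * φ1 t) - (1 / 12) * (t * (1 - t ^ 2) * ψ2 t) := j1.sub j2
  rw [integral_add (j4.intervalIntegrable _ _) (j3.intervalIntegrable _ _), integral_sub (j1.intervalIntegrable _ _)
    (j2.intervalIntegrable _ _), intervalIntegral.integral_const_mul, intervalIntegral.integral_const_mul,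
    intervalIntegral.integral_const_mul] at h
  unfold Ac Mc
  linarith

variable {X : Type*} [Fintype X] [Nonempty X]
variable {Y : Type*} [Fintype Y] [Nonempty Y] [DecidableEq Y]

theorem continuous_rs (p : X → Y) (y : Y) : Continuous fun w : X → ℝ => rs p y w :=
  continuous_pi fun x => continuous_apply x.1

theorem continuous_cj {p : X → Y} (hp : Function.Surjective p) (gs : List (X → ℝ)) : Continuous fun w => cj p gs w := by
  refine continuous_pi fun y => ?_
  have := nonempty_fib hp y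
  exact (cm_continuous _).comp (continuous_rs p y)

theorem continuous_wmarg {p : X → Y} (hp : Function.Surjective p) : Continuous fun w => wmarg p w := by
  have h := continuous_cj hp []
  simp_rw [cj_nil hp] at h
  exact h

/-- `CJ` is a continuous function of the weights. -/
theorem continuous_CJ {p : X → Y} (hp : Function.Surjective p) (ls : List (List (X → ℝ))) (l : List (Y → ℝ)) :
    Continuous fun w => CJ p w ls l := by
  have h := continuous_cm (U := X → ℝ) (continuous_wmarg hp) (ls.map fun gs => fun w => cj p gs w) (fun f hf => by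
    obtain ⟨gs, _, rfl⟩ := List.mem_map.1 hf
    exact continuous_cj hp gs) l
  refine h.congr fun w => ?_
  unfold CJ
  rw [List.map_map]
  exact congrFun (cm_perm List.perm_append_comm) _

theorem continuous_djs {p : X → Y} (hp : Function.Surjective p) (C : X → ℝ) (l : List (Y → ℝ)) :
    ∀ ls pre : List (List (X → ℝ)), Continuous fun w => djs p w C l pre ls
  | [], pre => continuous_const
  | gs :: ls, pre => (continuous_CJ hp _ l).add (continuous_djs hp C l ls (pre ++ [gs]))

/-- `DJ` is a continuous function of the weights. -/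
theorem continuous_DJ {p : X → Y} (hp : Function.Surjective p) (C : X → ℝ) (ls : List (List (X → ℝ)))
    (l : List (Y → ℝ)) : Continuous fun w => DJ p w C ls l :=
  (continuous_CJ hp _ l).add (continuous_djs hp C l ls [])

theorem continuous_line (w g : X → ℝ) : Continuous fun t : ℝ => w + t • g := by fun_prop

/-- The derivative of `Cov(cC(γ, g), l)` in the direction `C`. -/
def D1 (p : X → Y) (w C γ g : X → ℝ) (l : List (Y → ℝ)) : ℝ := DJ p w C [[γ, g]] l

/-- The derivative in the direction `C` of `d_t Cov(cC(γ, g), l) = κ₃(cE g, cC(γ, g), l) + Cov(κ₃(g, γ, g|p), l)`. -/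
def D2 (p : X → Y) (w C γ g : X → ℝ) (l : List (Y → ℝ)) : ℝ := DJ p w C [[g], [γ, g]] l + DJ p w C [[g, γ, g]] l

theorem D1_self (p : X → Y) (w γ g : X → ℝ) (l : List (Y → ℝ)) :
    D1 p w g γ g l = CJ p w [[g], [γ, g]] l + CJ p w [[g, γ, g]] l := by
  simp [D1, DJ, djs]

theorem hasDerivAt_D1 {p : X → Y} (hp : Function.Surjective p) (w γ g : X → ℝ) (l : List (Y → ℝ)) (t : ℝ) :
    HasDerivAt (fun u : ℝ => D1 p (w + u • g) g γ g l) (D2 p (w + t • g) g γ g l) t := by
  have h := (hasDerivAt_CJ_line hp w g [[g], [γ, g]] l t).add (hasDerivAt_CJ_line hp w g [[g, γ, g]] l t)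
  refine h.congr_of_eventuallyEq (Eventually.of_forall fun u => ?_)
  exact D1_self p _ γ g l

theorem continuous_D2 {p : X → Y} (hp : Function.Surjective p) (C γ g : X → ℝ) (l : List (Y → ℝ)) :
    Continuous fun w => D2 p w C γ g l :=
  (continuous_DJ hp _ _ l).add (continuous_DJ hp _ _ l)

/-- **THE CROSS TERM IN WHOLE DERIVATIVES** (master page (2.3)), for `Z_a = cE γ - (a/3) cC(γ, g)` and the functions `l` of
the outside (`l = [f]`). `G_t` has the log weights `w + t g`. -/
theorem crossX_mean {p : X → Y} (hp : Function.Surjective p) (γ g w : X → ℝ) (l : List (Y → ℝ)) :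
    Ac (fun a => CJ p (w + a • g) [[γ]] l - a / 3 * CJ p (w + a • g) [[γ, g]] l) =
      Mc (fun t => CJ p (w + t • g) [[γ]] l) +
      (1 / 4) * (∫ t in (-1 : ℝ)..1, (1 - t ^ 2) * DJ p (w + t • g) g [[γ], [g]] l) -
      (1 / 12) * ∫ t in (-1 : ℝ)..1, t * (1 - t ^ 2) * D2 p (w + t • g) g γ g l := by
  refine formX (φ := fun t => CJ p (w + t • g) [[γ], [g]] l) (ψ1 := fun t => D1 p (w + t • g) g γ g l) (fun t => ?_)
    (fun t => hasDerivAt_CJ_line hp w g [[γ], [g]] l t) (fun t => hasDerivAt_CJ_line hp w g [[γ, g]] l t)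
    (fun t => hasDerivAt_D1 hp w γ g l t) ((continuous_DJ hp _ _ l).comp (continuous_line w g))
    ((continuous_D2 hp _ _ _ l).comp (continuous_line w g))
  refine (hasDerivAt_CJ_line hp w g [[γ]] l t).congr_deriv ?_
  have e1 : CJ p (w + t • g) [[g], [γ]] l = CJ p (w + t • g) [[γ], [g]] l := CJ_perm p _ (List.Perm.swap _ _ _) l
  have e2 : CJ p (w + t • g) [[g, γ]] l = CJ p (w + t • g) [[γ, g]] l := by
    unfold CJ
    simp only [List.map_cons, List.map_nil]
    rw [cj_perm hp (List.Perm.swap _ _ _)]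
  simp only [DJ, djs, List.nil_append, add_zero]
  rw [e1, e2]

/-- The mean over `[-1, 1]` of the covariance with `g` is the half difference of the mean of `f`. -/
theorem Mc_CJ_self {p : X → Y} (hp : Function.Surjective p) (g w : X → ℝ) (l : List (Y → ℝ)) :
    Mc (fun t => CJ p (w + t • g) [[g]] l) = Dc (fun t => cm l (wmarg p (w + t • g))) := by
  refine (Dc_eq_Mc (fun t => ?_) ((continuous_CJ hp _ l).comp (continuous_line w g))).symm
  refine (hasDerivAt_CJ_line hp w g [] l t).congr_deriv ?_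
  simp [DJ, djs]

/-- **Form X for helper38's functional** `F - (a/3) V`. -/
theorem crossX {p : X → Y} (hp : Function.Surjective p) (g w : X → ℝ) (l : List (Y → ℝ)) :
    Ac (fun a => CJ p (w + a • g) [[g]] l - a / 3 * CJ p (w + a • g) [[g, g]] l) =
      Dc (fun t => cm l (wmarg p (w + t • g))) +
      (1 / 4) * (∫ t in (-1 : ℝ)..1, (1 - t ^ 2) * DJ p (w + t • g) g [[g], [g]] l) -
      (1 / 12) * ∫ t in (-1 : ℝ)..1, t * (1 - t ^ 2) * D2 p (w + t • g) g g g l := by
  rw [crossX_mean hp g g w l, Mc_CJ_self hp g w l]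

/-- **Form X for the mean functional**: the linear term in `ν = γ - g`. -/
theorem crossX_nu {p : X → Y} (hp : Function.Surjective p) (γ g w : X → ℝ) (l : List (Y → ℝ)) :
    Ac (fun a => CJ p (w + a • g) [[γ]] l - a / 3 * CJ p (w + a • g) [[γ, g]] l) =
      Dc (fun t => cm l (wmarg p (w + t • g))) + Mc (fun t => CJ p (w + t • g) [[γ - g]] l) +
      (1 / 4) * (∫ t in (-1 : ℝ)..1, (1 - t ^ 2) * DJ p (w + t • g) g [[γ], [g]] l) -
      (1 / 12) * ∫ t in (-1 : ℝ)..1, t * (1 - t ^ 2) * D2 p (w + t • g) g γ g l := by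
  rw [crossX_mean hp γ g w l, ← Mc_CJ_self hp g w l]
  have e : Mc (fun t => CJ p (w + t • g) [[γ - g]] l) = Mc (fun t => CJ p (w + t • g) [[γ]] l) -
      Mc (fun t => CJ p (w + t • g) [[g]] l) := by
    unfold Mc
    have e1 : ∀ t : ℝ, CJ p (w + t • g) [[γ - g]] l = CJ p (w + t • g) [[γ]] l - CJ p (w + t • g) [[g]] l :=
      fun t => CJ_head_sub hp _ γ g [] [] l
    simp_rw [e1]
    have k1 : Continuous fun t : ℝ => CJ p (w + t • g) [[γ]] l := (continuous_CJ hp _ l).comp (continuous_line w g)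
    have k2 : Continuous fun t : ℝ => CJ p (w + t • g) [[g]] l := (continuous_CJ hp _ l).comp (continuous_line w g)
    rw [integral_sub (k1.intervalIntegrable _ _) (k2.intervalIntegrable _ _)]
    ring
  rw [e]
  ring

/-- The two whole derivatives written as cumulants: `d_t κ₃(F, F, l) = κ₄(F, F, F, l) + 2 κ₃(V, F, l)`. -/
theorem DJ_gg (p : X → Y) (w g : X → ℝ) (l : List (Y → ℝ)) :
    DJ p w g [[g], [g]] l = CJ p w [[g], [g], [g]] l + 2 * CJ p w [[g, g], [g]] l := DJ_FF p w g g l

/-- `d_t² Cov(V, l) = κ₄(F, F, V, l) + 2 κ₃(F, K₃, l) + κ₃(V, V, l) + Cov(K₄, l)`. -/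
theorem D2_gg (p : X → Y) (w g : X → ℝ) (l : List (Y → ℝ)) :
    D2 p w g g g l = CJ p w [[g], [g], [g, g]] l + CJ p w [[g, g], [g, g]] l + 2 * CJ p w [[g], [g, g, g]] l +
      CJ p w [[g, g, g, g]] l := by
  simp only [D2, DJ, djs, List.nil_append, List.cons_append, add_zero]
  ring

end

end Pool.W7d29a1.C0
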