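import Mathlib

/-!
CURV0 (MP_7d29a1_pr, helper52): the abstract cumulant library. Finite Gibbs averages `gav`, covariances `gcov`, third and fourth
cumulants `gk3`, `gk4`, their derivatives along a smooth path of weights, their bounds, and the law of total cumulance.
-/

set_option autoImplicit false

namespace Pool.Agent.W_7d29a1_C0

open Finset

noncomputable section

variable {ι : Type*}

/-- **The Gibbs average** of `f` over `S` with the weights `w`. -/
def gav (S : Finset ι) (w f : ι → ℝ) : ℝ := (∑ i ∈ S, w i * f i) / ∑ i ∈ S, w i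

/-- **The Gibbs covariance.** -/
def gcov (S : Finset ι) (w f g : ι → ℝ) : ℝ := gav S w (fun i => f i * g i) - gav S w f * gav S w g

/-- **The third Gibbs cumulant** (raw moments). -/
def gk3 (S : Finset ι) (w f g h : ι → ℝ) : ℝ :=
  gav S w (fun i => f i * g i * h i) - gav S w (fun i => f i * g i) * gav S w h
    - gav S w (fun i => f i * h i) * gav S w g - gav S w (fun i => g i * h i) * gav S w f
    + 2 * (gav S w f * gav S w g * gav S w h)

/-- **The fourth Gibbs cumulant** (raw moments). -/
def gk4 (S : Finset ι) (w f g h k : ι → ℝ) : ℝ :=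
  gav S w (fun i => f i * g i * h i * k i)
    - gav S w (fun i => f i * g i * h i) * gav S w k - gav S w (fun i => f i * g i * k i) * gav S w h
    - gav S w (fun i => f i * h i * k i) * gav S w g - gav S w (fun i => g i * h i * k i) * gav S w f
    - gav S w (fun i => f i * g i) * gav S w (fun i => h i * k i)
    - gav S w (fun i => f i * h i) * gav S w (fun i => g i * k i)
    - gav S w (fun i => f i * k i) * gav S w (fun i => g i * h i)
    + 2 * (gav S w (fun i => f i * g i) * gav S w h * gav S w k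
      + gav S w (fun i => f i * h i) * gav S w g * gav S w k
      + gav S w (fun i => f i * k i) * gav S w g * gav S w h
      + gav S w (fun i => g i * h i) * gav S w f * gav S w k
      + gav S w (fun i => g i * k i) * gav S w f * gav S w h
      + gav S w (fun i => h i * k i) * gav S w f * gav S w g)
    - 6 * (gav S w f * gav S w g * gav S w h * gav S w k)

/-! ### Linearity and bounds of the average -/

section Av

variable {S : Finset ι} {w : ι → ℝ}

theorem gav_congr {f g : ι → ℝ} (h : ∀ i ∈ S, f i = g i) : gav S w f = gav S w g := by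
  unfold gav
  rw [Finset.sum_congr rfl fun i hi => by rw [h i hi]]

theorem gav_add (f g : ι → ℝ) : gav S w (fun i => f i + g i) = gav S w f + gav S w g := by
  unfold gav
  rw [← add_div, ← Finset.sum_add_distrib]
  congr 1
  exact Finset.sum_congr rfl fun i _ => by ring

theorem gav_sub (f g : ι → ℝ) : gav S w (fun i => f i - g i) = gav S w f - gav S w g := by
  unfold gav
  rw [← sub_div, ← Finset.sum_sub_distrib]
  congr 1
  exact Finset.sum_congr rfl fun i _ => by ring

theorem gav_const_mul (c : ℝ) (f : ι → ℝ) : gav S w (fun i => c * f i) = c * gav S w f := by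
  unfold gav
  rw [← mul_div_assoc, Finset.mul_sum]
  congr 1
  exact Finset.sum_congr rfl fun i _ => by ring

theorem gav_mul_const (c : ℝ) (f : ι → ℝ) : gav S w (fun i => f i * c) = gav S w f * c := by
  rw [mul_comm, ← gav_const_mul]
  exact gav_congr fun i _ => mul_comm _ _

theorem gav_neg (f : ι → ℝ) : gav S w (fun i => - f i) = - gav S w f := by
  rw [show (fun i => - f i) = fun i => (-1) * f i from funext fun i => by ring, gav_const_mul]
  ring

theorem gav_const (hZ : 0 < ∑ i ∈ S, w i) (c : ℝ) : gav S w (fun _ => c) = c := by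
  unfold gav
  rw [← Finset.sum_mul]
  field_simp

theorem gav_sum {κ : Type*} (T : Finset κ) (f : κ → ι → ℝ) :
    gav S w (fun i => ∑ k ∈ T, f k i) = ∑ k ∈ T, gav S w (f k) := by
  unfold gav
  rw [← Finset.sum_div, Finset.sum_comm]
  congr 1
  exact Finset.sum_congr rfl fun i _ => by rw [Finset.mul_sum]

theorem gav_nonneg (hw : ∀ i ∈ S, 0 ≤ w i) {f : ι → ℝ} (hf : ∀ i ∈ S, 0 ≤ f i) : 0 ≤ gav S w f :=
  div_nonneg (Finset.sum_nonneg fun i hi => mul_nonneg (hw i hi) (hf i hi)) (Finset.sum_nonneg hw)

theorem gav_mono (hw : ∀ i ∈ S, 0 ≤ w i) {f g : ι → ℝ} (h : ∀ i ∈ S, f i ≤ g i) : gav S w f ≤ gav S w g :=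
  div_le_div_of_nonneg_right (Finset.sum_le_sum fun i hi => mul_le_mul_of_nonneg_left (h i hi) (hw i hi))
    (Finset.sum_nonneg hw)

theorem gav_le (hw : ∀ i ∈ S, 0 ≤ w i) (hZ : 0 < ∑ i ∈ S, w i) {f : ι → ℝ} {c : ℝ} (h : ∀ i ∈ S, f i ≤ c) :
    gav S w f ≤ c := by
  have h1 := gav_mono (w := w) hw (g := fun _ => c) h
  rwa [gav_const hZ] at h1

theorem le_gav (hw : ∀ i ∈ S, 0 ≤ w i) (hZ : 0 < ∑ i ∈ S, w i) {f : ι → ℝ} {c : ℝ} (h : ∀ i ∈ S, c ≤ f i) :
    c ≤ gav S w f := by
  have h1 := gav_mono (w := w) hw (f := fun _ => c) h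
  rwa [gav_const hZ] at h1

theorem abs_gav_le_gav_abs (hw : ∀ i ∈ S, 0 ≤ w i) (f : ι → ℝ) : |gav S w f| ≤ gav S w (fun i => |f i|) := by
  rw [abs_le]
  constructor
  · rw [← gav_neg]
    exact gav_mono hw fun i _ => neg_abs_le _
  · exact gav_mono hw fun i _ => le_abs_self _

theorem abs_gav_le (hw : ∀ i ∈ S, 0 ≤ w i) (hZ : 0 < ∑ i ∈ S, w i) {f : ι → ℝ} {c : ℝ} (h : ∀ i ∈ S, |f i| ≤ c) :
    |gav S w f| ≤ c :=
  (abs_gav_le_gav_abs hw f).trans (gav_le hw hZ h)

/-- **Cauchy - Schwarz** for the average. -/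
theorem sq_gav_mul_le (hw : ∀ i ∈ S, 0 ≤ w i) (f g : ι → ℝ) :
    gav S w (fun i => f i * g i) ^ 2 ≤ gav S w (fun i => f i ^ 2) * gav S w (fun i => g i ^ 2) := by
  unfold gav
  rw [div_pow, div_mul_div_comm, ← sq]
  refine div_le_div_of_nonneg_right ?_ (sq_nonneg _)
  have h := Finset.sum_mul_sq_le_sq_mul_sq S (fun i => Real.sqrt (w i) * f i) (fun i => Real.sqrt (w i) * g i)
  have e1 : ∑ i ∈ S, Real.sqrt (w i) * f i * (Real.sqrt (w i) * g i) = ∑ i ∈ S, w i * (f i * g i) :=
    Finset.sum_congr rfl fun i hi => by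
      have := Real.mul_self_sqrt (hw i hi)
      linear_combination (f i * g i) * this
  have e2 : ∀ u : ι → ℝ, ∑ i ∈ S, (Real.sqrt (w i) * u i) ^ 2 = ∑ i ∈ S, w i * u i ^ 2 := fun u =>
    Finset.sum_congr rfl fun i hi => by
      have := Real.sq_sqrt (hw i hi)
      rw [mul_pow, this]
  rw [e1, e2, e2] at h
  exact h

theorem abs_gav_mul_le (hw : ∀ i ∈ S, 0 ≤ w i) (f g : ι → ℝ) :
    |gav S w (fun i => f i * g i)| ≤ Real.sqrt (gav S w (fun i => f i ^ 2) * gav S w (fun i => g i ^ 2)) :=
  Real.abs_le_sqrt (sq_gav_mul_le hw f g)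

/-- Cauchy - Schwarz with the absolute values inside. -/
theorem gav_abs_mul_le (hw : ∀ i ∈ S, 0 ≤ w i) (f g : ι → ℝ) :
    gav S w (fun i => |f i * g i|) ≤ Real.sqrt (gav S w (fun i => f i ^ 2) * gav S w (fun i => g i ^ 2)) := by
  have h := abs_gav_mul_le hw (fun i => |f i|) (fun i => |g i|)
  rw [show (fun i => |f i| * |g i|) = fun i => |f i * g i| from funext fun i => (abs_mul _ _).symm,
    show (fun i => |f i| ^ 2) = fun i => f i ^ 2 from funext fun i => sq_abs _,
    show (fun i => |g i| ^ 2) = fun i => g i ^ 2 from funext fun i => sq_abs _] at h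
  exact (le_abs_self _).trans h

end Av

/-! ### Algebra of the cumulants -/

section Alg

variable {S : Finset ι} {w : ι → ℝ}

theorem gcov_comm (f g : ι → ℝ) : gcov S w f g = gcov S w g f := by
  unfold gcov
  rw [show (fun i => f i * g i) = fun i => g i * f i from funext fun i => mul_comm _ _]
  ring

theorem gcov_congr {f f' g g' : ι → ℝ} (h : ∀ i ∈ S, f i = f' i) (h' : ∀ i ∈ S, g i = g' i) :
    gcov S w f g = gcov S w f' g' := by
  unfold gcov
  rw [gav_congr h, gav_congr h', gav_congr (f := fun i => f i * g i) (g := fun i => f' i * g' i)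
    fun i hi => by rw [h i hi, h' i hi]]

theorem gcov_add_left (f f' g : ι → ℝ) : gcov S w (fun i => f i + f' i) g = gcov S w f g + gcov S w f' g := by
  unfold gcov
  rw [gav_add, show (fun i => (f i + f' i) * g i) = fun i => f i * g i + f' i * g i from funext fun i => by ring, gav_add]
  ring

theorem gcov_add_right (f g g' : ι → ℝ) : gcov S w f (fun i => g i + g' i) = gcov S w f g + gcov S w f g' := by
  rw [gcov_comm, gcov_add_left, gcov_comm g, gcov_comm g']

theorem gcov_const_mul_left (c : ℝ) (f g : ι → ℝ) : gcov S w (fun i => c * f i) g = c * gcov S w f g := by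
  unfold gcov
  rw [gav_const_mul, show (fun i => c * f i * g i) = fun i => c * (f i * g i) from funext fun i => by ring, gav_const_mul]
  ring

theorem gcov_const_mul_right (c : ℝ) (f g : ι → ℝ) : gcov S w f (fun i => c * g i) = c * gcov S w f g := by
  rw [gcov_comm, gcov_const_mul_left, gcov_comm]

theorem gcov_const_left (hZ : 0 < ∑ i ∈ S, w i) (c : ℝ) (g : ι → ℝ) : gcov S w (fun _ => c) g = 0 := by
  unfold gcov
  rw [gav_const hZ, gav_const_mul]
  ring

theorem gcov_const_right (hZ : 0 < ∑ i ∈ S, w i) (c : ℝ) (f : ι → ℝ) : gcov S w f (fun _ => c) = 0 := by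
  rw [gcov_comm, gcov_const_left hZ]

theorem gcov_sum_right {κ : Type*} (T : Finset κ) (f : ι → ℝ) (g : κ → ι → ℝ) :
    gcov S w f (fun i => ∑ k ∈ T, g k i) = ∑ k ∈ T, gcov S w f (g k) := by
  unfold gcov
  rw [gav_sum, Finset.sum_sub_distrib, ← Finset.mul_sum]
  congr 1
  rw [← gav_sum]
  exact gav_congr fun i _ => by rw [Finset.mul_sum]

/-- The covariance in centred form. -/
theorem gcov_eq_centred (hZ : 0 < ∑ i ∈ S, w i) (f g : ι → ℝ) :
    gcov S w f g = gav S w (fun i => (f i - gav S w f) * (g i - gav S w g)) := by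
  have e : (fun i => (f i - gav S w f) * (g i - gav S w g)) = fun i => f i * g i - gav S w g * f i
      - gav S w f * g i + gav S w f * gav S w g := funext fun i => by ring
  rw [e, gav_add (fun i => f i * g i - gav S w g * f i - gav S w f * g i) (fun _ => gav S w f * gav S w g),
    gav_sub (fun i => f i * g i - gav S w g * f i) (fun i => gav S w f * g i),
    gav_sub (fun i => f i * g i) (fun i => gav S w g * f i), gav_const_mul, gav_const_mul, gav_const hZ]
  unfold gcov
  ring

/-- The covariance sees only one centring. -/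
theorem gcov_eq_centred_left (hZ : 0 < ∑ i ∈ S, w i) (c : ℝ) (f g : ι → ℝ) :
    gcov S w f g = gav S w (fun i => (f i - c) * (g i - gav S w g)) := by
  have e : (fun i => (f i - c) * (g i - gav S w g)) = fun i => f i * g i - gav S w g * f i
      - c * g i + c * gav S w g := funext fun i => by ring
  rw [e, gav_add (fun i => f i * g i - gav S w g * f i - c * g i) (fun _ => c * gav S w g),
    gav_sub (fun i => f i * g i - gav S w g * f i) (fun i => c * g i),
    gav_sub (fun i => f i * g i) (fun i => gav S w g * f i), gav_const_mul, gav_const_mul, gav_const hZ]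
  unfold gcov
  ring

theorem gcov_self_nonneg (hw : ∀ i ∈ S, 0 ≤ w i) (hZ : 0 < ∑ i ∈ S, w i) (f : ι → ℝ) : 0 ≤ gcov S w f f := by
  rw [gcov_eq_centred hZ]
  exact gav_nonneg hw fun i _ => mul_self_nonneg _

theorem gcov_self_eq (hZ : 0 < ∑ i ∈ S, w i) (f : ι → ℝ) :
    gcov S w f f = gav S w (fun i => (f i - gav S w f) ^ 2) := by
  rw [gcov_eq_centred hZ]
  exact gav_congr fun i _ => (sq _).symm

/-- The variance is at most the second moment about any point. -/
theorem gcov_self_le (hZ : 0 < ∑ i ∈ S, w i) (c : ℝ) (f : ι → ℝ) :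
    gcov S w f f ≤ gav S w (fun i => (f i - c) ^ 2) := by
  have e : (fun i => (f i - c) ^ 2) = fun i => f i * f i - (2 * c) * f i + c ^ 2 := funext fun i => by ring
  rw [e, gav_add (fun i => f i * f i - (2 * c) * f i) (fun _ => c ^ 2), gav_sub (fun i => f i * f i) (fun i => (2 * c) * f i),
    gav_const_mul, gav_const hZ]
  unfold gcov
  nlinarith [sq_nonneg (gav S w f - c)]

theorem gcov_self_le_sq (hw : ∀ i ∈ S, 0 ≤ w i) (hZ : 0 < ∑ i ∈ S, w i) {f : ι → ℝ} {M : ℝ}
    (h : ∀ i ∈ S, |f i| ≤ M) : gcov S w f f ≤ M ^ 2 := by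
  refine (gcov_self_le hZ 0 f).trans (gav_le hw hZ fun i hi => ?_)
  rw [sub_zero, ← sq_abs]
  exact pow_le_pow_left₀ (abs_nonneg _) (h i hi) 2

/-- **Cauchy - Schwarz for the covariance.** -/
theorem abs_gcov_le (hw : ∀ i ∈ S, 0 ≤ w i) (hZ : 0 < ∑ i ∈ S, w i) (f g : ι → ℝ) :
    |gcov S w f g| ≤ Real.sqrt (gcov S w f f * gcov S w g g) := by
  rw [gcov_eq_centred hZ, gcov_self_eq hZ f, gcov_self_eq hZ g]
  exact abs_gav_mul_le hw _ _

theorem sq_gcov_le (hw : ∀ i ∈ S, 0 ≤ w i) (hZ : 0 < ∑ i ∈ S, w i) (f g : ι → ℝ) :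
    gcov S w f g ^ 2 ≤ gcov S w f f * gcov S w g g := by
  rw [gcov_eq_centred hZ, gcov_self_eq hZ f, gcov_self_eq hZ g]
  exact sq_gav_mul_le hw _ _

/-- The third cumulant in centred form. -/
theorem gk3_eq_centred (hZ : 0 < ∑ i ∈ S, w i) (f g h : ι → ℝ) :
    gk3 S w f g h = gav S w (fun i => (f i - gav S w f) * (g i - gav S w g) * (h i - gav S w h)) := by
  set a := gav S w f with ha
  set b := gav S w g with hb
  set c := gav S w h with hc
  have e : (fun i => (f i - a) * (g i - b) * (h i - c)) = fun i => (f i * g i * h i - c * (f i * g i)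
      - b * (f i * h i) - a * (g i * h i)) + (b * c * f i + a * c * g i + a * b * h i) - a * b * c :=
    funext fun i => by ring
  rw [e, gav_sub (fun i => (f i * g i * h i - c * (f i * g i)
      - b * (f i * h i) - a * (g i * h i)) + (b * c * f i + a * c * g i + a * b * h i)) (fun _ => a * b * c),
    gav_add (fun i => f i * g i * h i - c * (f i * g i) - b * (f i * h i) - a * (g i * h i))
      (fun i => b * c * f i + a * c * g i + a * b * h i),
    gav_sub (fun i => f i * g i * h i - c * (f i * g i) - b * (f i * h i)) (fun i => a * (g i * h i)),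
    gav_sub (fun i => f i * g i * h i - c * (f i * g i)) (fun i => b * (f i * h i)),
    gav_sub (fun i => f i * g i * h i) (fun i => c * (f i * g i)),
    gav_add (fun i => b * c * f i + a * c * g i) (fun i => a * b * h i),
    gav_add (fun i => b * c * f i) (fun i => a * c * g i), gav_const_mul, gav_const_mul, gav_const_mul, gav_const_mul,
    gav_const_mul, gav_const_mul, gav_const hZ]
  unfold gk3
  rw [← ha, ← hb, ← hc]
  ring

/-- The third cumulant as a covariance of a centred product. -/
theorem gk3_eq_gcov (f g h : ι → ℝ) :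
    gk3 S w f g h = gcov S w (fun i => f i * g i) h - gav S w f * gcov S w g h - gav S w g * gcov S w f h := by
  unfold gk3 gcov
  ring

/-- The fourth cumulant in centred form. -/
theorem gk4_eq_centred (hZ : 0 < ∑ i ∈ S, w i) (f g h k : ι → ℝ) :
    gk4 S w f g h k = gav S w (fun i => (f i - gav S w f) * (g i - gav S w g) * (h i - gav S w h) * (k i - gav S w k))
      - gcov S w f g * gcov S w h k - gcov S w f h * gcov S w g k - gcov S w f k * gcov S w g h := by
  set a := gav S w f with ha
  set b := gav S w g with hb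
  set c := gav S w h with hc
  set d := gav S w k with hd
  have e : (fun i => (f i - a) * (g i - b) * (h i - c) * (k i - d)) = fun i =>
      (f i * g i * h i * k i - d * (f i * g i * h i) - c * (f i * g i * k i) - b * (f i * h i * k i)
        - a * (g i * h i * k i))
      + (c * d * (f i * g i) + b * d * (f i * h i) + b * c * (f i * k i) + a * d * (g i * h i) + a * c * (g i * k i)
        + a * b * (h i * k i))
      - (b * c * d * f i + a * c * d * g i + a * b * d * h i + a * b * c * k i) + a * b * c * d :=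
    funext fun i => by ring
  rw [e, gav_add (fun i => (f i * g i * h i * k i - d * (f i * g i * h i) - c * (f i * g i * k i) - b * (f i * h i * k i)
        - a * (g i * h i * k i))
      + (c * d * (f i * g i) + b * d * (f i * h i) + b * c * (f i * k i) + a * d * (g i * h i) + a * c * (g i * k i)
        + a * b * (h i * k i))
      - (b * c * d * f i + a * c * d * g i + a * b * d * h i + a * b * c * k i)) (fun _ => a * b * c * d),
    gav_sub (fun i => (f i * g i * h i * k i - d * (f i * g i * h i) - c * (f i * g i * k i) - b * (f i * h i * k i)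
        - a * (g i * h i * k i))
      + (c * d * (f i * g i) + b * d * (f i * h i) + b * c * (f i * k i) + a * d * (g i * h i) + a * c * (g i * k i)
        + a * b * (h i * k i))) (fun i => b * c * d * f i + a * c * d * g i + a * b * d * h i + a * b * c * k i),
    gav_add (fun i => f i * g i * h i * k i - d * (f i * g i * h i) - c * (f i * g i * k i) - b * (f i * h i * k i)
        - a * (g i * h i * k i)) (fun i => c * d * (f i * g i) + b * d * (f i * h i) + b * c * (f i * k i)
        + a * d * (g i * h i) + a * c * (g i * k i) + a * b * (h i * k i)),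
    gav_sub (fun i => f i * g i * h i * k i - d * (f i * g i * h i) - c * (f i * g i * k i) - b * (f i * h i * k i))
      (fun i => a * (g i * h i * k i)),
    gav_sub (fun i => f i * g i * h i * k i - d * (f i * g i * h i) - c * (f i * g i * k i))
      (fun i => b * (f i * h i * k i)),
    gav_sub (fun i => f i * g i * h i * k i - d * (f i * g i * h i)) (fun i => c * (f i * g i * k i)),
    gav_sub (fun i => f i * g i * h i * k i) (fun i => d * (f i * g i * h i)),
    gav_add (fun i => c * d * (f i * g i) + b * d * (f i * h i) + b * c * (f i * k i) + a * d * (g i * h i)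
      + a * c * (g i * k i)) (fun i => a * b * (h i * k i)),
    gav_add (fun i => c * d * (f i * g i) + b * d * (f i * h i) + b * c * (f i * k i) + a * d * (g i * h i))
      (fun i => a * c * (g i * k i)),
    gav_add (fun i => c * d * (f i * g i) + b * d * (f i * h i) + b * c * (f i * k i)) (fun i => a * d * (g i * h i)),
    gav_add (fun i => c * d * (f i * g i) + b * d * (f i * h i)) (fun i => b * c * (f i * k i)),
    gav_add (fun i => c * d * (f i * g i)) (fun i => b * d * (f i * h i)),
    gav_add (fun i => b * c * d * f i + a * c * d * g i + a * b * d * h i) (fun i => a * b * c * k i),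
    gav_add (fun i => b * c * d * f i + a * c * d * g i) (fun i => a * b * d * h i),
    gav_add (fun i => b * c * d * f i) (fun i => a * c * d * g i)]
  simp only [gav_const_mul, gav_const hZ]
  unfold gk4 gcov
  rw [← ha, ← hb, ← hc, ← hd]
  ring

end Alg

/-! ### Bounds of the cumulants -/

section Bd

variable {S : Finset ι} {w : ι → ℝ}

theorem abs_sub_gav_le (hw : ∀ i ∈ S, 0 ≤ w i) (hZ : 0 < ∑ i ∈ S, w i) {f : ι → ℝ} {M : ℝ}
    (h : ∀ i ∈ S, |f i| ≤ M) {i : ι} (hi : i ∈ S) : |f i - gav S w f| ≤ 2 * M :=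
  (abs_sub _ _).trans (by linarith [h i hi, abs_gav_le hw hZ h])

/-- **Third cumulant**: `|kappa_3 (f, g, h)| ≤ 2 M (Var g Var h)^(1/2)` if `|f| ≤ M`. -/
theorem abs_gk3_le (hw : ∀ i ∈ S, 0 ≤ w i) (hZ : 0 < ∑ i ∈ S, w i) {f : ι → ℝ} {M : ℝ}
    (hf : ∀ i ∈ S, |f i| ≤ M) (g h : ι → ℝ) :
    |gk3 S w f g h| ≤ 2 * M * Real.sqrt (gcov S w g g * gcov S w h h) := by
  rw [gk3_eq_centred hZ]
  refine (abs_gav_le_gav_abs hw _).trans ?_
  have h1 : gav S w (fun i => |(f i - gav S w f) * (g i - gav S w g) * (h i - gav S w h)|) ≤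
      gav S w (fun i => 2 * M * |(g i - gav S w g) * (h i - gav S w h)|) := gav_mono hw fun i hi => by
    rw [mul_assoc, abs_mul]
    exact mul_le_mul_of_nonneg_right (abs_sub_gav_le hw hZ hf hi) (abs_nonneg _)
  refine h1.trans ?_
  rw [gav_const_mul, gcov_self_eq hZ g, gcov_self_eq hZ h]
  have hM : 0 ≤ 2 * M := by
    have hne : S.Nonempty := by
      rcases S.eq_empty_or_nonempty with h2 | h2
      · rw [h2, Finset.sum_empty] at hZ
        exact absurd hZ (lt_irrefl _)
      · exact h2
    obtain ⟨i, hi⟩ := hne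
    linarith [(abs_nonneg _).trans (hf i hi)]
  exact mul_le_mul_of_nonneg_left (gav_abs_mul_le hw _ _) hM

/-- **Fourth cumulant**: `|kappa_4 (f, f', g, h)| ≤ 7 M M' (Var g Var h)^(1/2)` if `|f| ≤ M`, `|f'| ≤ M'`. -/
theorem abs_gk4_le (hw : ∀ i ∈ S, 0 ≤ w i) (hZ : 0 < ∑ i ∈ S, w i) {f f' : ι → ℝ} {M M' : ℝ}
    (hf : ∀ i ∈ S, |f i| ≤ M) (hf' : ∀ i ∈ S, |f' i| ≤ M') (g h : ι → ℝ) :
    |gk4 S w f f' g h| ≤ 7 * (M * M') * Real.sqrt (gcov S w g g * gcov S w h h) := by
  have hne : S.Nonempty := by
    rcases S.eq_empty_or_nonempty with h2 | h2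
    · rw [h2, Finset.sum_empty] at hZ
      exact absurd hZ (lt_irrefl _)
    · exact h2
  obtain ⟨i₀, hi₀⟩ := hne
  have hM : 0 ≤ M := (abs_nonneg _).trans (hf i₀ hi₀)
  have hM' : 0 ≤ M' := (abs_nonneg _).trans (hf' i₀ hi₀)
  have vf := gcov_self_nonneg hw hZ f
  have vf' := gcov_self_nonneg hw hZ f'
  have vg := gcov_self_nonneg hw hZ g
  have vh := gcov_self_nonneg hw hZ h
  have bf := gcov_self_le_sq hw hZ hf
  have bf' := gcov_self_le_sq hw hZ hf'
  set s := Real.sqrt (gcov S w g g * gcov S w h h) with hs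
  have hs0 : 0 ≤ s := Real.sqrt_nonneg _
  rw [gk4_eq_centred hZ]
  -- the quadruple product
  have h1 : |gav S w (fun i => (f i - gav S w f) * (f' i - gav S w f') * (g i - gav S w g) * (h i - gav S w h))| ≤
      4 * (M * M') * s := by
    refine (abs_gav_le_gav_abs hw _).trans ?_
    have h2 : gav S w (fun i => |(f i - gav S w f) * (f' i - gav S w f') * (g i - gav S w g) * (h i - gav S w h)|) ≤
        gav S w (fun i => 4 * (M * M') * |(g i - gav S w g) * (h i - gav S w h)|) := gav_mono hw fun i hi => by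
      rw [mul_assoc, abs_mul, abs_mul (f i - gav S w f)]
      refine mul_le_mul_of_nonneg_right ?_ (abs_nonneg _)
      have h3 := mul_le_mul (abs_sub_gav_le hw hZ hf hi) (abs_sub_gav_le hw hZ hf' hi) (abs_nonneg _) (by linarith)
      linarith
    refine h2.trans ?_
    rw [gav_const_mul]
    refine mul_le_mul_of_nonneg_left ?_ (by positivity)
    rw [hs, gcov_self_eq hZ g, gcov_self_eq hZ h]
    exact gav_abs_mul_le hw _ _
  -- the three products of covariances
  have h2 : |gcov S w f f' * gcov S w g h| ≤ M * M' * s := by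
    rw [abs_mul]
    refine mul_le_mul ?_ (abs_gcov_le hw hZ g h) (abs_nonneg _) (by positivity)
    refine (abs_gcov_le hw hZ f f').trans ?_
    rw [Real.sqrt_le_left (by positivity), mul_pow]
    exact mul_le_mul bf bf' vf' (by positivity)
  have h3 : |gcov S w f g * gcov S w f' h| ≤ M * M' * s := by
    rw [abs_mul]
    refine (mul_le_mul (abs_gcov_le hw hZ f g) (abs_gcov_le hw hZ f' h) (abs_nonneg _) (Real.sqrt_nonneg _)).trans ?_
    rw [Real.sqrt_mul vf, Real.sqrt_mul vf', hs, Real.sqrt_mul vg]
    have e1 : Real.sqrt (gcov S w f f) ≤ M := by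
      rw [Real.sqrt_le_left hM]
      exact bf
    have e2 : Real.sqrt (gcov S w f' f') ≤ M' := by
      rw [Real.sqrt_le_left hM']
      exact bf'
    have e3 := mul_le_mul e1 e2 (Real.sqrt_nonneg _) hM
    calc Real.sqrt (gcov S w f f) * Real.sqrt (gcov S w g g) * (Real.sqrt (gcov S w f' f') * Real.sqrt (gcov S w h h))
        = Real.sqrt (gcov S w f f) * Real.sqrt (gcov S w f' f') * (Real.sqrt (gcov S w g g) * Real.sqrt (gcov S w h h)) := by
          ring
      _ ≤ M * M' * (Real.sqrt (gcov S w g g) * Real.sqrt (gcov S w h h)) :=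
          mul_le_mul_of_nonneg_right e3 (by positivity)
  have h4 : |gcov S w f h * gcov S w f' g| ≤ M * M' * s := by
    rw [abs_mul]
    refine (mul_le_mul (abs_gcov_le hw hZ f h) (abs_gcov_le hw hZ f' g) (abs_nonneg _) (Real.sqrt_nonneg _)).trans ?_
    rw [Real.sqrt_mul vf, Real.sqrt_mul vf', hs, Real.sqrt_mul vg]
    have e1 : Real.sqrt (gcov S w f f) ≤ M := by
      rw [Real.sqrt_le_left hM]
      exact bf
    have e2 : Real.sqrt (gcov S w f' f') ≤ M' := by
      rw [Real.sqrt_le_left hM']
      exact bf'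
    have e3 := mul_le_mul e1 e2 (Real.sqrt_nonneg _) hM
    calc Real.sqrt (gcov S w f f) * Real.sqrt (gcov S w h h) * (Real.sqrt (gcov S w f' f') * Real.sqrt (gcov S w g g))
        = Real.sqrt (gcov S w f f) * Real.sqrt (gcov S w f' f') * (Real.sqrt (gcov S w g g) * Real.sqrt (gcov S w h h)) := by
          ring
      _ ≤ M * M' * (Real.sqrt (gcov S w g g) * Real.sqrt (gcov S w h h)) :=
          mul_le_mul_of_nonneg_right e3 (by positivity)
  refine (abs_sub _ _).trans ?_
  have h5 := abs_sub (gav S w (fun i => (f i - gav S w f) * (f' i - gav S w f') * (g i - gav S w g) * (h i - gav S w h))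
    - gcov S w f f' * gcov S w g h) (gcov S w f g * gcov S w f' h)
  have h6 := abs_sub (gav S w (fun i => (f i - gav S w f) * (f' i - gav S w f') * (g i - gav S w g) * (h i - gav S w h)))
    (gcov S w f f' * gcov S w g h)
  linarith

end Bd

end

end Pool.Agent.W_7d29a1_C0
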