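import Pool.Agent.W_7d29a1_C0.Cum82
import Pool.Agent.W_7d29a1_C0.Cum52D

/-!
CURV0 (MP_7d29a1_pr): the joint cumulants `cm` of Cum82 in terms of the moment formulas of Cum52 (orders one to four), the
marginal over a map, and the derivative of a cumulant whose arguments are affine in the parameter. (helper82)
-/

set_option autoImplicit false
set_option linter.unusedSectionVars false
set_option linter.unusedVariables false

namespace Pool.W7d29a1.C0

open Finset Filter Topology
open Pool.Agent.W_7d29a1_C0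

noncomputable section

variable {X : Type*} [Fintype X] [Nonempty X]

/-! ### The orders one to four -/

theorem gz_eq (w : X → ℝ) : gz w = ∑ i ∈ univ, ew w i := rfl

theorem gm_eq_gav (w f : X → ℝ) : gm w f = gav univ (ew w) f := rfl

theorem line_coord (w f : X → ℝ) (t : ℝ) (i : X) : HasDerivAt (fun u : ℝ => (w + u • f) i) (f i) t := by
  have h := (hasDerivAt_pi.1 (hasDerivAt_line w f t)) i
  exact h

theorem cm_one (w f : X → ℝ) : cm [f] w = gav univ (ew w) f := by
  refine cm_cons_eq ?_
  have h := hasDerivAt_lse (S := univ) (G := fun u => w + u • f) (G' := f) (t := 0) univ_nonempty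
    fun i _ => line_coord w f 0 i
  simp only [zero_smul, add_zero] at h
  exact h

theorem cm_two (w f g : X → ℝ) : cm [f, g] w = gcov univ (ew w) f g := by
  rw [cm_swap f g []]
  refine cm_cons_eq ?_
  have h := hasDerivAt_gav (S := univ) (G := fun u => w + u • g) (G' := g) (t := 0) univ_nonempty
    (fun i _ => line_coord w g 0 i) (f := fun _ => f) (f' := 0) fun i _ => hasDerivAt_const _ _
  simp only [zero_smul, add_zero] at h
  have e : gav univ (ew w) (0 : X → ℝ) = 0 := by
    unfold gav
    simp
  rw [e, zero_add] at h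
  refine h.congr_of_eventuallyEq (Eventually.of_forall fun t => ?_)
  exact cm_one _ _

theorem gcov_zero_left (w g : X → ℝ) : gcov univ w (0 : X → ℝ) g = 0 := by
  unfold gcov gav
  simp

theorem gcov_zero_right (w g : X → ℝ) : gcov univ w g (0 : X → ℝ) = 0 := by
  unfold gcov gav
  simp

theorem cm_three (w f g h : X → ℝ) : cm [f, g, h] w = gk3 univ (ew w) f g h := by
  have hp : cm [f, g, h] = cm [h, f, g] := cm_perm (by
    rw [show [f, g, h] = [f, g] ++ h :: [] from rfl, show [h, f, g] = h :: ([f, g] ++ []) from rfl]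
    exact List.perm_middle)
  rw [hp]
  refine cm_cons_eq ?_
  have k := hasDerivAt_gcov (S := univ) (G := fun u => w + u • h) (G' := h) (t := 0) univ_nonempty
    (fun i _ => line_coord w h 0 i) (f := fun _ => f) (f' := 0) (g := fun _ => g) (g' := 0)
    (fun i _ => hasDerivAt_const _ _) (fun i _ => hasDerivAt_const _ _)
  simp only [zero_smul, add_zero] at k
  rw [gcov_zero_left, gcov_zero_right, zero_add, zero_add] at k
  refine k.congr_of_eventuallyEq (Eventually.of_forall fun t => ?_)
  exact cm_two _ _ _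

theorem gk3_zero_1 (w g h : X → ℝ) : gk3 univ w (0 : X → ℝ) g h = 0 := by
  unfold gk3 gav
  simp

theorem gk3_zero_2 (w g h : X → ℝ) : gk3 univ w g (0 : X → ℝ) h = 0 := by
  unfold gk3 gav
  simp

theorem gk3_zero_3 (w g h : X → ℝ) : gk3 univ w g h (0 : X → ℝ) = 0 := by
  unfold gk3 gav
  simp

theorem cm_four (w f g h k : X → ℝ) : cm [f, g, h, k] w = gk4 univ (ew w) f g h k := by
  have hp : cm [f, g, h, k] = cm [k, f, g, h] := cm_perm (by
    rw [show [f, g, h, k] = [f, g, h] ++ k :: [] from rfl, show [k, f, g, h] = k :: ([f, g, h] ++ []) from rfl]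
    exact List.perm_middle)
  rw [hp]
  refine cm_cons_eq ?_
  have q := hasDerivAt_gk3 (S := univ) (G := fun u => w + u • k) (G' := k) (t := 0) univ_nonempty
    (fun i _ => line_coord w k 0 i) (f := fun _ => f) (f' := 0) (g := fun _ => g) (g' := 0) (h := fun _ => h) (h' := 0)
    (fun i _ => hasDerivAt_const _ _) (fun i _ => hasDerivAt_const _ _) (fun i _ => hasDerivAt_const _ _)
  simp only [zero_smul, add_zero] at q
  rw [gk3_zero_1, gk3_zero_2, gk3_zero_3, zero_add, zero_add, zero_add] at q
  refine q.congr_of_eventuallyEq (Eventually.of_forall fun t => ?_)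
  exact cm_three _ _ _ _

/-! ### The marginal over a map -/

section Marg

variable {Y : Type*} [Fintype Y] [Nonempty Y] [DecidableEq Y]

/-- The logarithms of the weights of the marginal over `p`. -/
def wmarg (p : X → Y) (w : X → ℝ) : Y → ℝ := fun y => Real.log (∑ x ∈ univ.filter (fun x => p x = y), Real.exp (w x))

theorem fib_pos {p : X → Y} (hp : Function.Surjective p) (w : X → ℝ) (y : Y) :
    0 < ∑ x ∈ univ.filter (fun x => p x = y), Real.exp (w x) := by
  obtain ⟨x, hx⟩ := hp y
  exact Finset.sum_pos (fun x _ => Real.exp_pos _) ⟨x, by simp [hx]⟩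

theorem exp_wmarg {p : X → Y} (hp : Function.Surjective p) (w : X → ℝ) (y : Y) :
    Real.exp (wmarg p w y) = ∑ x ∈ univ.filter (fun x => p x = y), Real.exp (w x) := Real.exp_log (fib_pos hp w y)

theorem lse_wmarg {p : X → Y} (hp : Function.Surjective p) (w : X → ℝ) : lse (wmarg p w) = lse w := by
  unfold lse
  congr 1
  unfold gz
  simp only [exp_wmarg hp]
  exact Finset.sum_fiberwise univ p fun x => Real.exp (w x)

theorem wmarg_add {p : X → Y} (hp : Function.Surjective p) (w : X → ℝ) (F : Y → ℝ) :
    wmarg p (w + F ∘ p) = wmarg p w + F := by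
  funext y
  show Real.log (∑ x ∈ univ.filter (fun x => p x = y), Real.exp ((w + F ∘ p) x)) = wmarg p w y + F y
  have h : ∑ x ∈ univ.filter (fun x => p x = y), Real.exp ((w + F ∘ p) x) =
      (∑ x ∈ univ.filter (fun x => p x = y), Real.exp (w x)) * Real.exp (F y) := by
    rw [Finset.sum_mul]
    refine Finset.sum_congr rfl fun x hx => ?_
    have hx' : p x = y := (Finset.mem_filter.1 hx).2
    rw [Pi.add_apply, Real.exp_add, Function.comp_apply, hx']
  rw [h, Real.log_mul (fib_pos hp w y).ne' (Real.exp_pos _).ne', Real.log_exp]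
  rfl

/-- **Marginal**: the cumulants of functions of `p x` are the cumulants of the marginal. -/
theorem cm_marg {p : X → Y} (hp : Function.Surjective p) : ∀ (l : List (Y → ℝ)) (w : X → ℝ),
    cm (l.map fun F => F ∘ p) w = cm l (wmarg p w)
  | [], w => (lse_wmarg hp w).symm
  | F :: l, w => by
    show cm ((F ∘ p) :: l.map fun F => F ∘ p) w = _
    refine cm_cons_eq ?_
    have h := hasDerivAt_cm_line l (wmarg p w) F 0
    rw [zero_smul, add_zero] at h
    refine h.congr_of_eventuallyEq (Eventually.of_forall fun t => ?_)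
    show cm (l.map fun F => F ∘ p) (w + t • (F ∘ p)) = cm l (wmarg p w + t • F)
    rw [cm_marg hp l, show t • (F ∘ p) = (t • F) ∘ p from rfl, wmarg_add hp]

end Marg

/-! ### Arguments which are affine in the parameter -/

/-- The values at `t` of the affine functions `a + t b`. -/
def evl (t : ℝ) (l : List ((X → ℝ) × (X → ℝ))) : List (X → ℝ) := l.map fun q => q.1 + t • q.2

theorem evl_cons (t : ℝ) (q : (X → ℝ) × (X → ℝ)) (l : List ((X → ℝ) × (X → ℝ))) :
    evl t (q :: l) = (q.1 + t • q.2) :: evl t l := rfl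

/-- The sum over the arguments of the cumulants in which one affine argument is replaced by its derivative; `k` is a list of
constant arguments in front. -/
def dsum (t : ℝ) (w : X → ℝ) : List (X → ℝ) → List ((X → ℝ) × (X → ℝ)) → ℝ
  | _, [] => 0
  | k, q :: l => cm (k ++ q.2 :: evl t l) w + dsum t w (k ++ [q.1 + t • q.2]) l

/-- `dsum` is additive in a constant argument. -/
theorem dsum_affine (t : ℝ) (w a b : X → ℝ) : ∀ (l : List ((X → ℝ) × (X → ℝ))) (k m : List (X → ℝ)),
    dsum t w (k ++ (a + t • b) :: m) l = dsum t w (k ++ a :: m) l + t * dsum t w (k ++ b :: m) l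
  | [], k, m => by simp [dsum]
  | q :: l, k, m => by
    have h := dsum_affine t w a b l k (m ++ [q.1 + t • q.2])
    have e : ∀ c : X → ℝ, (k ++ c :: m) ++ [q.1 + t • q.2] = k ++ c :: (m ++ [q.1 + t • q.2]) := fun c => by simp
    have e2 : ∀ c : X → ℝ, (k ++ c :: m) ++ q.2 :: evl t l = k ++ c :: (m ++ q.2 :: evl t l) := fun c => by simp
    show cm ((k ++ (a + t • b) :: m) ++ q.2 :: evl t l) w + dsum t w ((k ++ (a + t • b) :: m) ++ [q.1 + t • q.2]) l =
      (cm ((k ++ a :: m) ++ q.2 :: evl t l) w + dsum t w ((k ++ a :: m) ++ [q.1 + t • q.2]) l) +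
      t * (cm ((k ++ b :: m) ++ q.2 :: evl t l) w + dsum t w ((k ++ b :: m) ++ [q.1 + t • q.2]) l)
    rw [e, e, e, h, e2, e2, e2, cm_mid_add, cm_mid_smul]
    ring

/-- **The derivative of a cumulant with affine arguments.** -/
theorem hasDerivAt_cm_affine {w : ℝ → X → ℝ} {w' : X → ℝ} {t : ℝ} (hw : HasDerivAt w w' t) :
    ∀ (l : List ((X → ℝ) × (X → ℝ))) (k : List (X → ℝ)),
      HasDerivAt (fun u => cm (k ++ evl u l) (w u)) (cm (w' :: (k ++ evl t l)) (w t) + dsum t (w t) k l) t
  | [], k => by
    have h := hasDerivAt_cm (k ++ []) hw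
    show HasDerivAt (fun u => cm (k ++ []) (w u)) (cm (w' :: (k ++ [])) (w t) + 0) t
    rw [add_zero]
    exact h
  | q :: l, k => by
    have h1 := hasDerivAt_cm_affine hw l (k ++ [q.1])
    have h2 := hasDerivAt_cm_affine hw l (k ++ [q.2])
    have h3 := h1.add ((hasDerivAt_id t).mul h2)
    have e : ∀ (c : X → ℝ) (u : ℝ), (k ++ [c]) ++ evl u l = k ++ c :: evl u l := fun c u => by simp
    refine (h3.congr_deriv ?_).congr_of_eventuallyEq (Eventually.of_forall fun u => ?_)
    · have e1 := cm_mid_add (w' :: k) (evl t l) q.1 (t • q.2) (w t)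
      have e2 := cm_mid_smul (w' :: k) (evl t l) t q.2 (w t)
      have e3 := dsum_affine t (w t) q.1 q.2 l k []
      simp only [List.cons_append] at e1 e2
      rw [e q.1 t, e q.2 t]
      show cm (w' :: (k ++ q.1 :: evl t l)) (w t) + dsum t (w t) (k ++ [q.1]) l + (1 * cm (k ++ q.2 :: evl t l) (w t) +
        t * (cm (w' :: (k ++ q.2 :: evl t l)) (w t) + dsum t (w t) (k ++ [q.2]) l)) =
        cm (w' :: (k ++ (q.1 + t • q.2) :: evl t l)) (w t) +
          (cm (k ++ q.2 :: evl t l) (w t) + dsum t (w t) (k ++ [q.1 + t • q.2]) l)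
      rw [e1, e2, e3]
      ring
    · show cm (k ++ (q.1 + u • q.2) :: evl u l) (w u) = cm ((k ++ [q.1]) ++ evl u l) (w u) +
        u * cm ((k ++ [q.2]) ++ evl u l) (w u)
      rw [e q.1 u, e q.2 u, cm_mid_add, cm_mid_smul]

end

end Pool.W7d29a1.C0
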