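import Pool.Agent.W_7d29a1_C0.Swap57

/-!
MP_7d29a1_pr, [CURV0], leaf E6 (helper57), on `Swap57`: TWO REPLICAS GIVEN TWO OUTSIDES OF A BLOCK.

`cE2 w p K x x'` is the mean of `K z z'` for independent replicas `z` given `p x` and `z'` given `p x'`; `gm2` without conditions.
`NM c al be d` is the indicator of: the two replicas have no common position in `[c, al]` or none in `[be, d]`; `NI i j` of: none in
`[i, j]`. `Dif w p K L F`: `|F x - F x'| ≤ L cE2 w p K x x'` (closed under the tower, sums, products); then the (conditional) variance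
of `F` is at most `L ^ 2 / 2` times the weight of `K` (`Dif.cV_le`, `Dif.gv_le`). For a functional of the rows `[al, be]` the conditional
mean and the conditional variance given the outside of `[c, d)` are `Dif` with `K = NM` (`dif_cE`, `dif_cV`). Model: `gv_Fm_le`,
`dif_Fm`, `dif_Vm`, `cV_Fm_le`, `gv_Vm_le`.
-/

set_option autoImplicit false
set_option linter.unusedSectionVars false

namespace Pool.Agent.W_7d29a1_C0.Swap57

open Finset MeasureTheory Pool.Agent.W_7d29a1_F Pool.Agent.W_7d29a1_X Pool.Agent.W_7d29a1_C0.Mod92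
open Pool.W7d29a1.C0 (gz gm lse gz_pos gz_ne gm_nonneg gm_mono)
open Pool.W7d29a1.C0.VT31

noncomputable section

variable {μ : Measure ℝ} {s : ℝ} {N : ℕ} {Q : Finset (Finset ℕ)}

/-! ### Two replicas given two outsides -/

section Two

variable {X : Type*} [Fintype X] [Nonempty X] {Y Y' : Type*} [DecidableEq Y] [DecidableEq Y']

/-- The mean of a functional of two independent replicas, given the outside of `x` and the outside of `x'`. -/
def cE2 (w : X → ℝ) (p : X → Y) (K : X → X → ℝ) (x x' : X) : ℝ := cE w p (fun z => cE w p (K z) x') x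

/-- The mean of a functional of two independent replicas. -/
def gm2 (w : X → ℝ) (K : X → X → ℝ) : ℝ := gm w fun z => gm w (K z)

theorem gm2_eq (w : X → ℝ) (K : X → X → ℝ) (x x' : X) : cE2 w (fun _ : X => ()) K x x' = gm2 w K := by
  unfold cE2 gm2
  rw [gm_eq_cE]
  congr 1

/-- Fubini. -/
theorem cE_comm (w : X → ℝ) (p : X → Y) (q : X → Y') (K : X → X → ℝ) (x x' : X) :
    cE w p (fun z => cE w q (K z) x') x = cE w q (fun z' => cE w p (fun z => K z z') x) x' := by
  unfold cE
  have e1 : ∀ z, (if p z = p x then Real.exp (w z) *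
      ((∑ z', if q z' = q x' then Real.exp (w z') * K z z' else 0) / fz w q x') else 0) =
      (∑ z', if p z = p x then (if q z' = q x' then Real.exp (w z) * (Real.exp (w z') * K z z') else 0) else 0) /
        fz w q x' := by
    intro z
    split_ifs
    · rw [← mul_div_assoc, mul_sum]
      congr 1
      refine sum_congr rfl fun z' _ => ?_
      split_ifs
      · rfl
      · ring
    · simp
  have e2 : ∀ z', (if q z' = q x' then Real.exp (w z') *
      ((∑ z, if p z = p x then Real.exp (w z) * K z z' else 0) / fz w p x) else 0) =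
      (∑ z, if p z = p x then (if q z' = q x' then Real.exp (w z) * (Real.exp (w z') * K z z') else 0) else 0) /
        fz w p x := by
    intro z'
    split_ifs
    · rw [← mul_div_assoc, mul_sum]
      congr 1
      refine sum_congr rfl fun z _ => ?_
      split_ifs
      · ring
      · ring
    · simp
  rw [sum_congr rfl fun z _ => e1 z, sum_congr rfl fun z' _ => e2 z', ← sum_div, ← sum_div, sum_comm, div_div, div_div,
    mul_comm (fz w q x')]

theorem cE2_add (w : X → ℝ) (p : X → Y) (K K' : X → X → ℝ) (x x' : X) :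
    cE2 w p (fun z z' => K z z' + K' z z') x x' = cE2 w p K x x' + cE2 w p K' x x' := by
  unfold cE2
  have e : (fun z => cE w p (fun z' => K z z' + K' z z') x') = (fun z => cE w p (K z) x') + fun z => cE w p (K' z) x' := by
    funext z
    have h := congrFun (cE_add w p (K z) (K' z)) x'
    exact h
  rw [e, cE_add]
  rfl

theorem cE2_mul (w : X → ℝ) (p : X → Y) (c : ℝ) (K : X → X → ℝ) (x x' : X) :
    cE2 w p (fun z z' => c * K z z') x x' = c * cE2 w p K x x' := by
  unfold cE2
  have e : (fun z => cE w p (fun z' => c * K z z') x') = c • fun z => cE w p (K z) x' := by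
    funext z
    have h := congrFun (cE_smul w p c (K z)) x'
    exact h
  rw [e, cE_smul]
  rfl

theorem cE2_mono (w : X → ℝ) (p : X → Y) {K K' : X → X → ℝ} (h : ∀ z z', K z z' ≤ K' z z') (x x' : X) :
    cE2 w p K x x' ≤ cE2 w p K' x x' := cE_mono w p (fun z => cE_mono w p (h z) x') x

theorem cE2_nonneg (w : X → ℝ) (p : X → Y) {K : X → X → ℝ} (h : ∀ z z', 0 ≤ K z z') (x x' : X) :
    0 ≤ cE2 w p K x x' := cE_nonneg w p (fun z => cE_nonneg w p (h z) x') x

theorem cE2_one (w : X → ℝ) (p : X → Y) (x x' : X) : cE2 w p (fun _ _ => 1) x x' = 1 := by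
  show cE w p (fun _ => cE w p (fun _ => 1) x') x = 1
  rw [cE_one, cE_one]

theorem cE2_le_one (w : X → ℝ) (p : X → Y) {K : X → X → ℝ} (h : ∀ z z', K z z' ≤ 1) (x x' : X) :
    cE2 w p K x x' ≤ 1 := (cE2_mono w p h x x').trans (cE2_one w p x x').le

theorem cE2_congr (w : X → ℝ) (p : X → Y) {K K' : X → X → ℝ} (h : ∀ z z', K z z' = K' z z') (x x' : X) :
    cE2 w p K x x' = cE2 w p K' x x' := by
  have e : K = K' := funext fun z => funext fun z' => h z z'
  rw [e]

/-- A difference of two conditional means. -/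
theorem cE_sub_eq (w : X → ℝ) (p : X → Y) (g : X → ℝ) (x x' : X) :
    cE w p g x - cE w p g x' = cE2 w p (fun z z' => g z - g z') x x' := by
  have e1 : cE2 w p (fun z z' => g z - g z') x x' =
      cE2 w p (fun z _ => g z) x x' + cE2 w p (fun _ z' => (-1) * g z') x x' := by
    rw [← cE2_add]
    exact cE2_congr w p (fun z z' => by ring) x x'
  have e2 : cE2 w p (fun z _ => g z) x x' = cE w p g x := by
    unfold cE2
    congr 1
    funext z
    have h : Mp p (fun _ : X => g z) := fun _ _ _ => rfl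
    exact congrFun (cE_of_meas w h) x'
  have e3 : cE2 w p (fun _ z' => (-1) * g z') x x' = (-1) * cE w p g x' := by
    rw [cE2_mul]
    congr 1
    unfold cE2
    have h : Mp p (fun _ : X => cE w p (fun z' => g z') x') := fun _ _ _ => rfl
    exact congrFun (cE_of_meas w h) x
  rw [e1, e2, e3]
  ring

/-- **The tower property for two replicas.** -/
theorem cE2_tower (w : X → ℝ) {q : X → Y'} {p : X → Y} (hc : Crs q p) (K : X → X → ℝ) (x x' : X) :
    cE2 w q (cE2 w p K) x x' = cE2 w q K x x' := by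
  unfold cE2
  rw [cE_comm w q q (fun z z' => cE w p (fun y => cE w p (K y) z') z) x x']
  have e1 : (fun z' => cE w q (fun z => cE w p (fun y => cE w p (K y) z') z) x) =
      fun z' => cE w q (fun y => cE w p (K y) z') x := by
    funext z'
    exact congrFun (cE_tower w hc fun y => cE w p (K y) z') x
  rw [e1, cE_comm w q q (fun y z' => cE w p (K y) z') x x' |>.symm]
  congr 1
  funext y
  exact congrFun (cE_tower w hc (K y)) x'

/-- The conditional variance through two replicas. -/
theorem cV_eq_two (w : X → ℝ) (p : X → Y) (f : X → ℝ) (x : X) :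
    cV w p f x = 1 / 2 * cE2 w p (fun z z' => (f z - f z') ^ 2) x x := by
  have e1 : cE2 w p (fun z z' => (f z - f z') ^ 2) x x =
      cE2 w p (fun z _ => f z * f z) x x + (cE2 w p (fun z z' => (-2) * (f z * f z')) x x +
        cE2 w p (fun _ z' => f z' * f z') x x) := by
    rw [← cE2_add, ← cE2_add]
    exact cE2_congr w p (fun z z' => by ring) x x
  have e2 : cE2 w p (fun z _ => f z * f z) x x = cE w p (f * f) x := by
    unfold cE2
    congr 1
    funext z
    have h : Mp p (fun _ : X => f z * f z) := fun _ _ _ => rfl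
    exact congrFun (cE_of_meas w h) x
  have e3 : cE2 w p (fun _ z' => f z' * f z') x x = cE w p (f * f) x := by
    unfold cE2
    have h : Mp p (fun _ : X => cE w p (fun z' => f z' * f z') x) := fun _ _ _ => rfl
    exact congrFun (cE_of_meas w h) x
  have e4 : cE2 w p (fun z z' => (-2) * (f z * f z')) x x = (-2) * (cE w p f x * cE w p f x) := by
    rw [cE2_mul]
    congr 1
    unfold cE2
    have e5 : (fun z => cE w p (fun z' => f z * f z') x) = cE w p f x • f := by
      funext z
      have h := congrFun (cE_smul w p (f z) f) x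
      rw [Pi.smul_apply, smul_eq_mul, mul_comm]
      exact h
    rw [e5, cE_smul, Pi.smul_apply, smul_eq_mul]
  rw [e1, e2, e3, e4]
  show (cC w p f f) x = _
  unfold cC
  rw [Pi.sub_apply, Pi.mul_apply]
  ring

/-- `F` differs between two outsides only through the event `K`. -/
def Dif (w : X → ℝ) (p : X → Y) (K : X → X → ℝ) (L : ℝ) (F : X → ℝ) : Prop :=
  ∀ x x', |F x - F x'| ≤ L * cE2 w p K x x'

theorem Dif.cV_le {w : X → ℝ} {q : X → Y'} {p : X → Y} (hc : Crs q p) {K : X → X → ℝ} (h0 : ∀ z z', 0 ≤ K z z')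
    (h1 : ∀ z z', K z z' ≤ 1) {L : ℝ} {F : X → ℝ} (h : Dif w p K L F) (x : X) :
    cV w q F x ≤ L ^ 2 / 2 * cE2 w q K x x := by
  rw [cV_eq_two]
  have e1 : ∀ z z', (F z - F z') ^ 2 ≤ L ^ 2 * cE2 w p K z z' := by
    intro z z'
    have a0 := cE2_nonneg w p h0 z z'
    have a1 := cE2_le_one w p h1 z z'
    have a2 := h z z'
    have a3 : (F z - F z') ^ 2 ≤ (L * cE2 w p K z z') ^ 2 := by
      rw [← sq_abs (F z - F z')]
      exact pow_le_pow_left₀ (abs_nonneg _) a2 2
    calc (F z - F z') ^ 2 ≤ (L * cE2 w p K z z') ^ 2 := a3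
      _ = L ^ 2 * (cE2 w p K z z' * cE2 w p K z z') := by ring
      _ ≤ L ^ 2 * (cE2 w p K z z' * 1) :=
          mul_le_mul_of_nonneg_left (mul_le_mul_of_nonneg_left a1 a0) (sq_nonneg L)
      _ = L ^ 2 * cE2 w p K z z' := by ring
  have e2 := cE2_mono w q e1 x x
  rw [cE2_mul, cE2_tower w hc] at e2
  linarith

theorem Dif.gv_le {w : X → ℝ} {p : X → Y} {K : X → X → ℝ} (h0 : ∀ z z', 0 ≤ K z z')
    (h1 : ∀ z z', K z z' ≤ 1) {L : ℝ} {F : X → ℝ} (h : Dif w p K L F) : gv w F ≤ L ^ 2 / 2 * gm2 w K := by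
  obtain ⟨x⟩ := (inferInstance : Nonempty X)
  have e := h.cV_le (q := fun _ : X => ()) (fun _ _ _ => rfl) h0 h1 x
  rwa [gv_eq_cV, gm2_eq] at e

/-- The difference for two outsides of a larger block. -/
theorem Dif.tower {w : X → ℝ} {q : X → Y'} {p : X → Y} (hc : Crs q p) {K : X → X → ℝ} {L : ℝ} {F : X → ℝ}
    (h : Dif w p K L F) : Dif w q K L (cE w q F) := by
  intro x x'
  rw [cE_sub_eq]
  have e1 : |cE2 w q (fun z z' => F z - F z') x x'| ≤ cE2 w q (fun z z' => L * cE2 w p K z z') x x' := by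
    rw [abs_le]
    constructor
    · rw [neg_le, ← neg_one_mul, ← cE2_mul]
      exact cE2_mono w q (fun z z' => by linarith [(abs_le.1 (h z z')).1]) x x'
    · exact cE2_mono w q (fun z z' => (abs_le.1 (h z z')).2) x x'
  rwa [cE2_mul, cE2_tower w hc] at e1

theorem Dif.add {w : X → ℝ} {p : X → Y} {K : X → X → ℝ} {L L' : ℝ} {F F' : X → ℝ} (h : Dif w p K L F)
    (h' : Dif w p K L' F') : Dif w p K (L + L') (F + F') := fun x x' => by
  have e1 := h x x'
  have e2 := h' x x'
  rw [Pi.add_apply, Pi.add_apply, show F x + F' x - (F x' + F' x') = (F x - F x') + (F' x - F' x') by ring, add_mul]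
  exact (abs_add_le _ _).trans (add_le_add e1 e2)

theorem Dif.smul {w : X → ℝ} {p : X → Y} {K : X → X → ℝ} {L : ℝ} {F : X → ℝ} (h : Dif w p K L F) (r : ℝ) :
    Dif w p K (|r| * L) (r • F) := fun x x' => by
  rw [Pi.smul_apply, Pi.smul_apply, smul_eq_mul, smul_eq_mul, ← mul_sub, abs_mul, mul_assoc]
  exact mul_le_mul_of_nonneg_left (h x x') (abs_nonneg r)

/-- Products of bounded functions. -/
theorem Dif.mul {w : X → ℝ} {p : X → Y} {K : X → X → ℝ} {L L' M M' : ℝ} {F F' : X → ℝ} (h : Dif w p K L F)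
    (h' : Dif w p K L' F') (hM : ∀ x, |F x| ≤ M) (hM' : ∀ x, |F' x| ≤ M') : Dif w p K (M * L' + M' * L) (F * F') :=
  fun x x' => by
  have e1 := h x x'
  have e2 := h' x x'
  rw [Pi.mul_apply, Pi.mul_apply, show F x * F' x - F x' * F' x' = F x * (F' x - F' x') + F' x' * (F x - F x') by ring]
  have e3 : |F x * (F' x - F' x')| ≤ M * (L' * cE2 w p K x x') := by
    rw [abs_mul]
    exact mul_le_mul (hM x) e2 (abs_nonneg _) ((abs_nonneg _).trans (hM x))
  have e4 : |F' x' * (F x - F x')| ≤ M' * (L * cE2 w p K x x') := by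
    rw [abs_mul]
    exact mul_le_mul (hM' x') e1 (abs_nonneg _) ((abs_nonneg _).trans (hM' x'))
  calc |F x * (F' x - F' x') + F' x' * (F x - F x')| ≤ |F x * (F' x - F' x')| + |F' x' * (F x - F x')| := abs_add_le _ _
    _ ≤ M * (L' * cE2 w p K x x') + M' * (L * cE2 w p K x x') := add_le_add e3 e4
    _ = (M * L' + M' * L) * cE2 w p K x x' := by ring

end Two

/-! ### The event that two replicas do not meet on both sides -/

open Classical in
/-- The indicator of: no common position in `[c, al]` or none in `[be, d]`. -/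
def NM (c al be d : ℕ) (S S' : Px Q) : ℝ := if Mt c al be d S S' then 0 else 1

theorem NM_of {c al be d : ℕ} {S S' : Px Q} (h : Mt c al be d S S') : NM c al be d S S' = 0 := by
  unfold NM
  exact if_pos h

theorem NM_of_not {c al be d : ℕ} {S S' : Px Q} (h : ¬Mt c al be d S S') : NM c al be d S S' = 1 := by
  unfold NM
  exact if_neg h

theorem NM_nonneg (c al be d : ℕ) (S S' : Px Q) : 0 ≤ NM c al be d S S' := by
  unfold NM
  split_ifs <;> norm_num

theorem NM_le_one (c al be d : ℕ) (S S' : Px Q) : NM c al be d S S' ≤ 1 := by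
  unfold NM
  split_ifs <;> norm_num

open Classical in
/-- The indicator of: no common position in `[i, j]`. -/
def NI (i j : ℕ) (S S' : Px Q) : ℝ := if ∀ k, i ≤ k → k ≤ j → ps S k ≠ ps S' k then 1 else 0

theorem NI_nonneg (i j : ℕ) (S S' : Px Q) : 0 ≤ NI i j S S' := by
  unfold NI
  split_ifs <;> norm_num

theorem NM_le (c al be d : ℕ) (S S' : Px Q) : NM c al be d S S' ≤ NI c al S S' + NI be d S S' := by
  by_cases h : Mt c al be d S S'
  · unfold NM
    rw [if_pos h]
    exact add_nonneg (NI_nonneg _ _ _ _) (NI_nonneg _ _ _ _)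
  · by_cases h1 : ∃ i, c ≤ i ∧ i ≤ al ∧ Eqp S S' i
    · have h2 : ∀ k, be ≤ k → k ≤ d → ps S k ≠ ps S' k := fun k hk hk' he => h ⟨h1, k, hk, hk', he⟩
      have e : NI be d S S' = 1 := by
        unfold NI
        exact if_pos h2
      rw [e]
      linarith [NM_le_one c al be d S S', NI_nonneg c al S S']
    · have h2 : ∀ k, c ≤ k → k ≤ al → ps S k ≠ ps S' k := fun k hk hk' he => h1 ⟨k, hk, hk', he⟩
      have e : NI c al S S' = 1 := by
        unfold NI
        exact if_pos h2
      rw [e]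
      linarith [NM_le_one c al be d S S', NI_nonneg be d S S']

/-- A smaller window is avoided by more pairs. -/
theorem NI_mono {i j i' j' : ℕ} (h : i ≤ i') (h' : j' ≤ j) (S S' : Px Q) : NI i j S S' ≤ NI i' j' S S' := by
  unfold NI
  by_cases h1 : ∀ k, i ≤ k → k ≤ j → ps S k ≠ ps S' k
  · rw [if_pos h1, if_pos fun k hk hk' => h1 k (h.trans hk) (hk'.trans h')]
  · rw [if_neg h1]
    split_ifs <;> norm_num

/-! ### The conditional means -/

section Est

variable [SwQ Q] [Nonempty (Px Q)] {c al be d : ℕ} {w : Px Q → ℝ}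

theorem cE2_Mt_zero (hab : al ≤ be) (hw : Wk c al be d w) {g : Px Q → ℝ} (hg : Lk al be g) (S0 S0' : Px Q) :
    cE2 w (pJ c d) (fun S S' => (1 - NM c al be d S S') * (g S - g S')) S0 S0' = 0 := by
  classical
  have h := swap_zero hab hw hg
    (fun S S' => if pJ c d S = pJ c d S0 then (if pJ c d S' = pJ c d S0' then (1 : ℝ) else 0) else 0)
    (fun S S' hm => by
      show (if pJ c d (sw c d S S') = pJ c d S0 then (if pJ c d (sw c d S' S) = pJ c d S0' then (1 : ℝ) else 0) else 0) = _
      rw [pJ_sw hab hm, pJ_sw hab (show Mt c al be d S' S by rw [Mt_symm]; exact hm)])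
  have e1 : cE2 w (pJ c d) (fun S S' => (1 - NM c al be d S S') * (g S - g S')) S0 S0' =
      (∑ S, ∑ S', (if Mt c al be d S S' then Real.exp (w S) * Real.exp (w S') *
        (if pJ c d S = pJ c d S0 then (if pJ c d S' = pJ c d S0' then (1 : ℝ) else 0) else 0) * (g S - g S') else 0)) /
        (fz w (pJ c d) S0 * fz w (pJ c d) S0') := by
    unfold cE2 cE
    rw [eq_comm, mul_comm (fz w (pJ c d) S0), ← div_div, sum_div]
    congr 1
    refine sum_congr rfl fun S _ => ?_
    split_ifs with h1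
    · rw [← mul_div_assoc, mul_sum]
      congr 1
      refine sum_congr rfl fun S' _ => ?_
      beta_reduce
      by_cases hm : Mt c al be d S S'
      · rw [NM_of hm, if_pos hm]
        split_ifs <;> ring
      · rw [NM_of_not hm, if_neg hm]
        split_ifs <;> ring
    · rw [div_eq_zero_iff]
      left
      refine sum_eq_zero fun S' _ => ?_
      split_ifs <;> ring
  rw [e1, h, zero_div]

/-- **The conditional means of a functional of the rows `[al, be]` given two outsides of the block `[c, d)`** differ only through the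
event that the two replicas do not meet on both sides. -/
theorem dif_cE (hab : al ≤ be) (hw : Wk c al be d w) {g : Px Q → ℝ} (hg : Lk al be g) {L : ℝ}
    (hL : ∀ S S', |g S - g S'| ≤ L) : Dif w (pJ c d) (NM c al be d) L (cE w (pJ c d) g) := by
  intro S0 S0'
  rw [cE_sub_eq]
  have e1 : cE2 w (pJ c d) (fun S S' => g S - g S') S0 S0' =
      cE2 w (pJ c d) (fun S S' => NM c al be d S S' * (g S - g S')) S0 S0' := by
    have e2 := cE2_Mt_zero hab hw hg S0 S0'
    have e3 : cE2 w (pJ c d) (fun S S' => g S - g S') S0 S0' =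
        cE2 w (pJ c d) (fun S S' => NM c al be d S S' * (g S - g S')) S0 S0' +
          cE2 w (pJ c d) (fun S S' => (1 - NM c al be d S S') * (g S - g S')) S0 S0' := by
      rw [← cE2_add]
      exact cE2_congr w _ (fun S S' => by ring) _ _
    rw [e3, e2, add_zero]
  rw [e1, ← cE2_mul, abs_le]
  constructor
  · rw [neg_le, ← neg_one_mul, ← cE2_mul]
    refine cE2_mono w _ (fun S S' => ?_) _ _
    have h0 := NM_nonneg c al be d S S'
    have h1 := (abs_le.1 (hL S S')).1
    nlinarith
  · refine cE2_mono w _ (fun S S' => ?_) _ _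
    have h0 := NM_nonneg c al be d S S'
    have h1 := (abs_le.1 (hL S S')).2
    nlinarith

/-- The same for the conditional variance. -/
theorem dif_cV (hab : al ≤ be) (hw : Wk c al be d w) {g : Px Q → ℝ} (hg : Lk al be g) {M : ℝ} (hM : ∀ S, |g S| ≤ M) :
    Dif w (pJ c d) (NM c al be d) (5 * M ^ 2) (cV w (pJ c d) g) := by
  have h1 : Dif w (pJ c d) (NM c al be d) (2 * M) (cE w (pJ c d) g) := dif_cE hab hw hg fun S S' => by
    have a := abs_le.1 (hM S)
    have b := abs_le.1 (hM S')
    rw [abs_le]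
    constructor <;> linarith [a.1, a.2, b.1, b.2]
  have hg2 : Lk al be (g * g) := fun S S' h => by rw [Pi.mul_apply, Pi.mul_apply, hg S S' h]
  have h2 : Dif w (pJ c d) (NM c al be d) (M ^ 2) (cE w (pJ c d) (g * g)) := dif_cE hab hw hg2 fun S S' => by
    rw [Pi.mul_apply, Pi.mul_apply, abs_le]
    have a : g S * g S ≤ M ^ 2 := by
      rw [← sq, ← sq_abs]
      exact pow_le_pow_left₀ (abs_nonneg _) (hM S) 2
    have b : g S' * g S' ≤ M ^ 2 := by
      rw [← sq, ← sq_abs]
      exact pow_le_pow_left₀ (abs_nonneg _) (hM S') 2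
    have a0 := mul_self_nonneg (g S)
    have b0 := mul_self_nonneg (g S')
    constructor <;> linarith
  have h3 : ∀ S, |cE w (pJ c d) g S| ≤ M := fun S => by
    rw [abs_le]
    constructor
    · have e := cE_mono w (pJ c d) (f := fun _ => -M) (g := g) (fun S => (abs_le.1 (hM S)).1) S
      rwa [cE_of_meas w (show Mp (pJ c d) (fun _ : Px Q => -M) from fun _ _ _ => rfl)] at e
    · have e := cE_mono w (pJ c d) (f := g) (g := fun _ => M) (fun S => (abs_le.1 (hM S)).2) S
      rwa [cE_of_meas w (show Mp (pJ c d) (fun _ : Px Q => M) from fun _ _ _ => rfl)] at e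
  have h4 := (h1.mul h1 h3 h3).smul (-1)
  have h5 := h2.add h4
  intro S S'
  have e := h5 S S'
  have e1 : cE w (pJ c d) (g * g) + (-1 : ℝ) • (cE w (pJ c d) g * cE w (pJ c d) g) = cV w (pJ c d) g := by
    rw [neg_one_smul, ← sub_eq_add_neg]
    rfl
  rw [e1] at e
  refine e.trans (le_of_eq ?_)
  rw [abs_neg, abs_one]
  ring

/-- **E6, the path side**: the variance of the response seen from outside of a block. -/
theorem gv_cE_le_NM (hab : al ≤ be) (hw : Wk c al be d w) {g : Px Q → ℝ} (hg : Lk al be g) {M : ℝ} (hM : ∀ S, |g S| ≤ M) :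
    gv w (cE w (pJ c d) g) ≤ 2 * M ^ 2 * gm2 w (NM c al be d) := by
  have h1 : Dif w (pJ c d) (NM c al be d) (2 * M) (cE w (pJ c d) g) := dif_cE hab hw hg fun S S' => by
    have a := abs_le.1 (hM S)
    have b := abs_le.1 (hM S')
    rw [abs_le]
    constructor <;> linarith [a.1, a.2, b.1, b.2]
  have h2 := h1.gv_le (NM_nonneg c al be d) (NM_le_one c al be d)
  calc gv w (cE w (pJ c d) g) ≤ (2 * M) ^ 2 / 2 * gm2 w (NM c al be d) := h2
    _ = 2 * M ^ 2 * gm2 w (NM c al be d) := by ring

end Est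

/-! ### The model -/

/-- The window of the row `j` (the only place which knows its form). -/
theorem Lk_gg (δ B : ℝ) (b j : ℕ) (ω : Env × Finset ℕ) {al be : ℕ} (h1 : al ≤ j - b) (h2 : j + b ≤ be) :
    Lk al be (gg μ s Q δ B b ω j) := by
  intro S S' h
  unfold gg gj
  rw [h _ h1 (by omega), h _ (by omega) h2]

theorem gm2_lw (η : Env) (K : Finset ℕ → Finset ℕ → ℝ) :
    gm2 (lw μ s η N (Fr N)) (fun S S' => K S.1 S'.1) =
      ∑ S ∈ (range N).powerset, ∑ S' ∈ (range N).powerset, GS μ s η N S * GS μ s η N S' * K S S' := by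
  unfold gm2
  have e : (fun S : Px (Fr N) => gm (lw μ s η N (Fr N)) fun S' : Px (Fr N) => K S.1 S'.1) =
      fun S : Px (Fr N) => (fun S : Finset ℕ => ∑ S' ∈ (range N).powerset, GS μ s η N S' * K S S') S.1 := by
    funext S
    exact gm_lw η (K S.1)
  rw [e]
  refine (gm_lw η fun S : Finset ℕ => ∑ S' ∈ (range N).powerset, GS μ s η N S' * K S S').trans ?_
  refine sum_congr rfl fun S _ => ?_
  rw [mul_sum]
  exact sum_congr rfl fun S' _ => by ring

variable [Nonempty (Px Q)]

theorem gm2_mono {w : Px Q → ℝ} {K K' : Px Q → Px Q → ℝ} (h : ∀ S S', K S S' ≤ K' S S') : gm2 w K ≤ gm2 w K' := by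
  obtain ⟨x⟩ := (inferInstance : Nonempty (Px Q))
  rw [← gm2_eq w K x x, ← gm2_eq w K' x x]
  exact cE2_mono w _ h x x

theorem gm2_add (w : Px Q → ℝ) (K K' : Px Q → Px Q → ℝ) :
    gm2 w (fun S S' => K S S' + K' S S') = gm2 w K + gm2 w K' := by
  obtain ⟨x⟩ := (inferInstance : Nonempty (Px Q))
  rw [← gm2_eq w K x x, ← gm2_eq w K' x x, ← gm2_eq w _ x x]
  exact cE2_add w _ K K' x x

/-- The two sides of the event. -/
theorem gm2_NM_le (w : Px Q → ℝ) (c al be d : ℕ) : gm2 w (NM c al be d) ≤ gm2 w (NI c al) + gm2 w (NI be d) := by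
  rw [← gm2_add]
  exact gm2_mono (NM_le c al be d)

variable [SwQ Q]

/-- **The variance of the response of the row `j` seen from outside of the block `[c, d)`**; `[al, be]` contains the window of `j`. -/
theorem gv_Fm_le {δ B : ℝ} (hB : 0 ≤ B) {b al be j : ℕ} (hab : al ≤ be) {ω : Env × Finset ℕ}
    (hL : Lk al be (gg μ s Q δ B b ω j)) (c d : ℕ) :
    gv (wm μ s N Q ω) (Fm μ s N Q δ B b c d ω j) ≤
      B ^ 2 / 2 * (gm2 (wm μ s N Q ω) (NI c al) + gm2 (wm μ s N Q ω) (NI be d)) := by
  have h := gv_cE_le_NM (w := wm μ s N Q ω) (g := gg μ s Q δ B b ω j) (c := c) (al := al) (be := be) (d := d)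
    hab (Wk_lw ω.1 hab) hL (M := B / 2) (fun S => abs_gg hB b ω j S)
  calc gv (wm μ s N Q ω) (Fm μ s N Q δ B b c d ω j)
      ≤ 2 * (B / 2) ^ 2 * gm2 (wm μ s N Q ω) (NM c al be d) := h
    _ = B ^ 2 / 2 * gm2 (wm μ s N Q ω) (NM c al be d) := by ring
    _ ≤ _ := mul_le_mul_of_nonneg_left (gm2_NM_le _ _ _ _ _) (by positivity)

/-- The response and its conditional variance change only on the event `NM`. -/
theorem dif_Fm {δ B : ℝ} (hB : 0 ≤ B) {b al be j : ℕ} (hab : al ≤ be) {ω : Env × Finset ℕ}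
    (hL : Lk al be (gg μ s Q δ B b ω j)) (c d : ℕ) :
    Dif (wm μ s N Q ω) (pJ c d) (NM c al be d) B (Fm μ s N Q δ B b c d ω j) :=
  dif_cE hab (Wk_lw ω.1 hab) hL fun S S' => by
    have a := abs_le.1 (abs_gg (μ := μ) (s := s) (δ := δ) hB b ω j S)
    have a' := abs_le.1 (abs_gg (μ := μ) (s := s) (δ := δ) hB b ω j S')
    rw [abs_le]
    constructor
    · linarith [a.1, a'.2]
    · linarith [a.2, a'.1]

theorem dif_Vm {δ B : ℝ} (hB : 0 ≤ B) {b al be j : ℕ} (hab : al ≤ be) {ω : Env × Finset ℕ}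
    (hL : Lk al be (gg μ s Q δ B b ω j)) (c d : ℕ) :
    Dif (wm μ s N Q ω) (pJ c d) (NM c al be d) (5 * (B / 2) ^ 2) (Vm μ s N Q δ B b c d ω j) :=
  dif_cV hab (Wk_lw ω.1 hab) hL (fun S => abs_gg (μ := μ) (s := s) (δ := δ) hB b ω j S)

/-- The conditional variance of the response given the outside of a larger block `[c', d')`. -/
theorem cV_Fm_le {δ B : ℝ} (hB : 0 ≤ B) {b al be j : ℕ} (hab : al ≤ be) {ω : Env × Finset ℕ}
    (hL : Lk al be (gg μ s Q δ B b ω j)) {c d c' d' : ℕ} (hc : c' ≤ c) (hd : d ≤ d') (S : Px Q) :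
    cV (wm μ s N Q ω) (pJ c' d') (Fm μ s N Q δ B b c d ω j) S ≤
      B ^ 2 / 2 * cE2 (wm μ s N Q ω) (pJ c' d') (NM c al be d) S S :=
  (dif_Fm hB hab hL c d).cV_le (crs_pJ hc hd) (NM_nonneg _ _ _ _) (NM_le_one _ _ _ _) S

theorem gv_Vm_le {δ B : ℝ} (hB : 0 ≤ B) {b al be j : ℕ} (hab : al ≤ be) {ω : Env × Finset ℕ}
    (hL : Lk al be (gg μ s Q δ B b ω j)) (c d : ℕ) :
    gv (wm μ s N Q ω) (Vm μ s N Q δ B b c d ω j) ≤
      (5 * (B / 2) ^ 2) ^ 2 / 2 * gm2 (wm μ s N Q ω) (NM c al be d) :=
  (dif_Vm hB hab hL c d).gv_le (NM_nonneg _ _ _ _) (NM_le_one _ _ _ _)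

end

end Pool.Agent.W_7d29a1_C0.Swap57
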