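import Pool.Agent.W_7d29a1_C0.Ins52
import Pool.Agent.W_7d29a1_C0.Two57

/-!
CURV0 (MP_7d29a1_pr), section E2: THE FUNCTIONAL `Cov (Cov (γ, g | q), f)` AS A PLAN OF THREE REPLICAS, AND ITS CUT.

`x 2` is free, `x 1` is drawn given what `q` sees of `x 2`, `x 0` is free; `f` is a function of `q`. If `γ` sees only the two ends of the
window `[c, d)` and `g` sees only the rows `[al, be]` inside, the pairs `x 2`, `x 1` which meet in `[c, al]` and in `[be, d]` contribute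
nothing: the rest is `psR` (apart on all the rows `[be, d]`) plus `psL` (apart on all the rows `[c, al]`). (helper14)
-/

set_option autoImplicit false
set_option linter.unusedSectionVars false

namespace Pool.Agent.W_7d29a1_C0.CutE14

open Finset MeasureTheory Pool.Agent.W_7d29a1_F Pool.Agent.W_7d29a1_X Pool.Agent.W_7d29a1_C0.Mod92
open Pool.W7d29a1.C0 (gz gm lse gz_pos gz_ne gm_nonneg gm_mono)
open Pool.W7d29a1.C0.VT31 Pool.W7d29a1.C0.I52 Pool.Agent.W_7d29a1_C0.Swap57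

noncomputable section

section Abs

variable {X : Type*} [Fintype X] [DecidableEq X] [Nonempty X] {Y : Type*} [DecidableEq Y]

/-- The plan: free, given `q` of it, free. -/
def P3 (q : X → Y) : Plan X 3 := ((Plan.nil.fr).gi q 0).fr

/-- The integrand of `Cov (Cov (γ, g | q), f)`. -/
def psi (γ g f : X → ℝ) (x : Fin 3 → X) : ℝ := 1 / 2 * (γ (x 2) - γ (x 1)) * (g (x 2) - g (x 1)) * (f (x 2) - f (x 0))

theorem wt_P3 (q : X → Y) (w : X → ℝ) (x : Fin 3 → X) :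
    wt (P3 q) w x = ker w univ (x 2) * ker w (univ.filter fun s => q s = q (x 2)) (x 1) * ker w univ (x 0) := by
  show wt Plan.nil w (Fin.tail (Fin.tail (Fin.tail x))) * ker w univ (Fin.tail (Fin.tail x) 0) *
    ker w (univ.filter fun s => q s = q (Fin.tail (Fin.tail x) 0)) (Fin.tail x 0) * ker w univ (x 0) = _
  show 1 * ker w univ (x 2) * ker w (univ.filter fun s => q s = q (x 2)) (x 1) * ker w univ (x 0) = _
  rw [one_mul]

theorem ev_P3 (q : X → Y) (w : X → ℝ) (F : X → X → X → ℝ) :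
    ev (P3 q) w (fun x => F (x 2) (x 1) (x 0)) = gm w fun a => cE w q (fun b => gm w (F a b)) a := by
  have e1 : ev (P3 q) w (fun x => F (x 2) (x 1) (x 0)) = ev ((Plan.nil.fr).gi q 0) w fun x => gm w (F (x 1) (x 0)) := by
    show ev (Plan.cons _ _ _) w _ = _
    rw [ev_cons]
    refine ev_congr _ _ fun x => ?_
    rw [gm_eq_av]
    rfl
  have e2 : ev ((Plan.nil.fr).gi q 0) w (fun x => gm w (F (x 1) (x 0))) =
      ev (Plan.nil.fr) w fun x => cE w q (fun b => gm w (F (x 0) b)) (x 0) := by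
    show ev (Plan.cons _ _ _) w _ = _
    rw [ev_cons]
    refine ev_congr _ _ fun x => ?_
    rw [cE_eq_av]
    rfl
  have e3 : ev (Plan.nil.fr) w (fun x => cE w q (fun b => gm w (F (x 0) b)) (x 0)) =
      gm w fun a => cE w q (fun b => gm w (F a b)) a := by
    show ev (Plan.cons _ _ _) w _ = _
    rw [ev_cons, ev_nil, gm_eq_av]
    rfl
  rw [e1, e2, e3]

/-- The conditional covariance by two replicas. -/
theorem cC_two (w : X → ℝ) (q : X → Y) (γ g : X → ℝ) (a : X) :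
    cE w q (fun a => cE w q (fun b => 1 / 2 * (γ a - γ b) * (g a - g b)) a) a = cC w q γ g a := by
  have e1 : ∀ a, cE w q (fun b => 1 / 2 * (γ a - γ b) * (g a - g b)) a =
      ((1 / 2 : ℝ) • (γ * g) - (1 / 2 : ℝ) • (γ * cE w q g) - (1 / 2 : ℝ) • (g * cE w q γ) + (1 / 2 : ℝ) • cE w q (γ * g)) a := by
    intro a
    have h1 : (fun b => 1 / 2 * (γ a - γ b) * (g a - g b)) =
        (1 / 2 * (γ a * g a)) • (fun _ : X => (1 : ℝ)) + (-(1 / 2 * γ a)) • g + (-(1 / 2 * g a)) • γ + (1 / 2 : ℝ) • (γ * g) := by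
      funext b
      simp only [Pi.add_apply, Pi.smul_apply, Pi.mul_apply, smul_eq_mul]
      ring
    rw [h1, cE_add, cE_add, cE_add, cE_smul, cE_smul, cE_smul, cE_smul, cE_one]
    simp only [Pi.add_apply, Pi.sub_apply, Pi.smul_apply, Pi.mul_apply, smul_eq_mul]
    ring
  rw [show (fun a => cE w q (fun b => 1 / 2 * (γ a - γ b) * (g a - g b)) a) =
      ((1 / 2 : ℝ) • (γ * g) - (1 / 2 : ℝ) • (γ * cE w q g) - (1 / 2 : ℝ) • (g * cE w q γ) + (1 / 2 : ℝ) • cE w q (γ * g)) from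
    funext e1]
  rw [cE_add, cE_sub, cE_sub, cE_smul, cE_smul, cE_smul, cE_smul, cE_of_meas w (cE_meas w q (γ * g)), mul_comm γ (cE w q g),
    mul_comm g (cE w q γ), cE_pull w (cE_meas w q g), cE_pull w (cE_meas w q γ)]
  unfold cC
  simp only [Pi.add_apply, Pi.sub_apply, Pi.smul_apply, Pi.mul_apply, smul_eq_mul]
  ring

/-- **THE PLAN OF THREE REPLICAS.** -/
theorem cov_plan (q : X → Y) (w : X → ℝ) (γ g : X → ℝ) {f : X → ℝ} (hf : Mp q f) :
    ev (P3 q) w (psi γ g f) = gc w (cC w q γ g) f := by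
  have h1 : ev (P3 q) w (psi γ g f) = gm w fun a => cE w q (fun b => gm w fun z =>
      1 / 2 * (γ a - γ b) * (g a - g b) * (f a - f z)) a :=
    ev_P3 q w fun a b z => 1 / 2 * (γ a - γ b) * (g a - g b) * (f a - f z)
  have hgm : ∀ (c : ℝ) (k : X → ℝ), gm w (fun z => c * k z) = c * gm w k := by
    intro c k
    rw [gm_eq_av, gm_eq_av, av_smul]
  have hone : gm w (fun _ => (1 : ℝ)) = 1 := by
    rw [gm_eq_av, av_const w univ_nonempty]
  obtain ⟨F, hF⟩ : ∃ F : X → ℝ, F = fun a => f a - gm w f := ⟨_, rfl⟩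
  have hFm : Mp q F := by
    intro a b h
    rw [hF]
    show f a - _ = f b - _
    rw [hf a b h]
  have h2 : ∀ a b, gm w (fun z => 1 / 2 * (γ a - γ b) * (g a - g b) * (f a - f z)) =
      1 / 2 * (γ a - γ b) * (g a - g b) * F a := by
    intro a b
    rw [hgm, gm_eq_av, av_sub w univ (fun _ => f a) f, av_const w univ_nonempty, hF, gm_eq_av]
  have h3 : ∀ a, cE w q (fun b => gm w fun z => 1 / 2 * (γ a - γ b) * (g a - g b) * (f a - f z)) a =
      F a * cE w q (fun b => 1 / 2 * (γ a - γ b) * (g a - g b)) a := by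
    intro a
    rw [show (fun b => gm w fun z => 1 / 2 * (γ a - γ b) * (g a - g b) * (f a - f z)) =
        F a • fun b => 1 / 2 * (γ a - γ b) * (g a - g b) from
      funext fun b => by rw [h2, Pi.smul_apply, smul_eq_mul]; ring, cE_smul, Pi.smul_apply, smul_eq_mul]
  rw [h1, show (fun a => cE w q (fun b => gm w fun z => 1 / 2 * (γ a - γ b) * (g a - g b) * (f a - f z)) a) =
      F * fun a => cE w q (fun b => 1 / 2 * (γ a - γ b) * (g a - g b)) a from funext fun a => by rw [h3, Pi.mul_apply],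
    ← gm_mul_cE w hFm, show cE w q (fun a => cE w q (fun b => 1 / 2 * (γ a - γ b) * (g a - g b)) a) = cC w q γ g from
      funext fun a => cC_two w q γ g a]
  unfold gc
  rw [show F * cC w q γ g = fun a => (cC w q γ g * f) a - gm w f * cC w q γ g a from
    funext fun a => by rw [Pi.mul_apply, Pi.mul_apply, hF]; ring, gm_eq_av, av_sub w univ (cC w q γ g * f) fun a =>
      gm w f * cC w q γ g a, av_smul, ← gm_eq_av, ← gm_eq_av]
  ring

theorem abs_psi_le {γ g f : X → ℝ} {Mγ Mg : ℝ} (hγ : ∀ S, |γ S| ≤ Mγ) (hg : ∀ S, |g S| ≤ Mg) (x : Fin 3 → X) :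
    |psi γ g f x| ≤ 2 * Mγ * Mg * |f (x 2) - f (x 0)| := by
  unfold psi
  rw [abs_mul, abs_mul, abs_mul, abs_of_pos (by norm_num : (0 : ℝ) < 1 / 2)]
  refine mul_le_mul_of_nonneg_right ?_ (abs_nonneg _)
  have h1 : |γ (x 2) - γ (x 1)| ≤ 2 * Mγ := (abs_sub _ _).trans (by linarith [hγ (x 2), hγ (x 1)])
  have h2 : |g (x 2) - g (x 1)| ≤ 2 * Mg := (abs_sub _ _).trans (by linarith [hg (x 2), hg (x 1)])
  have h3 := mul_le_mul h1 h2 (abs_nonneg _) ((abs_nonneg _).trans h1)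
  linarith

end Abs

section Cut

variable {Q : Finset (Finset ℕ)} [Nonempty (Px Q)] {Y : Type*} [DecidableEq Y]

open Classical in
/-- The part of the pairs which are apart on all the rows `[be, d]`. -/
def psR (be d : ℕ) (γ g f : Px Q → ℝ) (x : Fin 3 → Px Q) : ℝ :=
  if ∃ i, be ≤ i ∧ i ≤ d ∧ Eqp (x 2) (x 1) i then 0 else psi γ g f x

open Classical in
/-- The part of the pairs which meet in `[be, d]` and are apart on all the rows `[c, al]`. -/
def psL (c al be d : ℕ) (γ g f : Px Q → ℝ) (x : Fin 3 → Px Q) : ℝ :=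
  if (∃ i, be ≤ i ∧ i ≤ d ∧ Eqp (x 2) (x 1) i) ∧ ¬∃ i, c ≤ i ∧ i ≤ al ∧ Eqp (x 2) (x 1) i then psi γ g f x else 0

theorem psR_psL (c al be d : ℕ) (γ g f : Px Q → ℝ) (x : Fin 3 → Px Q) [Decidable (Mt c al be d (x 2) (x 1))] :
    (if Mt c al be d (x 2) (x 1) then 0 else psi γ g f x) = psR be d γ g f x + psL c al be d γ g f x := by
  have hM : Swap57.Mt c al be d (x 2) (x 1) ↔ (∃ i, c ≤ i ∧ i ≤ al ∧ Eqp (x 2) (x 1) i) ∧
    ∃ i, be ≤ i ∧ i ≤ d ∧ Eqp (x 2) (x 1) i := Iff.rfl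
  unfold psR psL
  by_cases h1 : ∃ i, be ≤ i ∧ i ≤ d ∧ Eqp (x 2) (x 1) i
  · by_cases h2 : ∃ i, c ≤ i ∧ i ≤ al ∧ Eqp (x 2) (x 1) i
    · rw [if_pos (hM.2 ⟨h2, h1⟩), if_pos h1, if_neg (fun h => h.2 h2), add_zero]
    · rw [if_neg (fun h => h2 (hM.1 h).1), if_pos h1, if_pos ⟨h1, h2⟩, zero_add]
  · rw [if_neg (fun h => h1 (hM.1 h).2), if_neg h1, if_neg (fun h => h1 h.1), add_zero]

theorem abs_psR_le {be d : ℕ} {γ g f : Px Q → ℝ} {Mγ Mg : ℝ} (hγ : ∀ S, |γ S| ≤ Mγ) (hg : ∀ S, |g S| ≤ Mg)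
    (x : Fin 3 → Px Q) :
    |psR be d γ g f x| ≤ 2 * Mγ * Mg * |f (x 2) - f (x 0)| * NI be d (x 2) (x 1) := by
  unfold psR NI
  by_cases h : ∃ i, be ≤ i ∧ i ≤ d ∧ Eqp (x 2) (x 1) i
  · obtain ⟨i, h1, h2, h3⟩ := h
    rw [if_pos ⟨i, h1, h2, h3⟩, if_neg fun h => h i h1 h2 h3, abs_zero, mul_zero]
  · have hn : ∀ k, be ≤ k → k ≤ d → ps (x 2) k ≠ ps (x 1) k := fun i h1 h2 h3 => h ⟨i, h1, h2, h3⟩
    rw [if_neg h, if_pos hn, mul_one]
    exact abs_psi_le hγ hg x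

theorem abs_psL_le {c al be d : ℕ} {γ g f : Px Q → ℝ} {Mγ Mg : ℝ} (hγ : ∀ S, |γ S| ≤ Mγ) (hg : ∀ S, |g S| ≤ Mg)
    (x : Fin 3 → Px Q) :
    |psL c al be d γ g f x| ≤ 2 * Mγ * Mg * |f (x 2) - f (x 0)| * NI c al (x 2) (x 1) := by
  have hM : 0 ≤ 2 * Mγ * Mg * |f (x 2) - f (x 0)| := (abs_nonneg _).trans (abs_psi_le hγ hg x)
  unfold psL NI
  by_cases h : (∃ i, be ≤ i ∧ i ≤ d ∧ Eqp (x 2) (x 1) i) ∧ ¬∃ i, c ≤ i ∧ i ≤ al ∧ Eqp (x 2) (x 1) i
  · have hn : ∀ k, c ≤ k → k ≤ al → ps (x 2) k ≠ ps (x 1) k := fun i h1 h2 h3 => h.2 ⟨i, h1, h2, h3⟩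
    rw [if_pos h, if_pos hn, mul_one]
    exact abs_psi_le hγ hg x
  · rw [if_neg h, abs_zero]
    split_ifs
    · rw [mul_one]
      exact hM
    · rw [mul_zero]

variable [SwQ Q]

/-- The middle swap of the replicas `2` and `1`. -/
def mid (c d : ℕ) (x : Fin 3 → Px Q) : Fin 3 → Px Q := ![x 0, sw c d (x 1) (x 2), sw c d (x 2) (x 1)]

open Classical in
/-- The middle swap where it is defined. -/
def cs (c al be d : ℕ) (x : Fin 3 → Px Q) : Fin 3 → Px Q := if Mt c al be d (x 2) (x 1) then mid c d x else x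

theorem cs_pos {c al be d : ℕ} {x : Fin 3 → Px Q} (h : Mt c al be d (x 2) (x 1)) : cs c al be d x = mid c d x := by
  unfold cs
  rw [if_pos h]

theorem cs_neg {c al be d : ℕ} {x : Fin 3 → Px Q} (h : ¬Mt c al be d (x 2) (x 1)) : cs c al be d x = x := by
  unfold cs
  rw [if_neg h]

theorem Mt_cs {c al be d : ℕ} (hab : al ≤ be) (x : Fin 3 → Px Q) :
    Mt c al be d (cs c al be d x 2) (cs c al be d x 1) ↔ Mt c al be d (x 2) (x 1) := by
  by_cases h : Mt c al be d (x 2) (x 1)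
  · rw [cs_pos h]
    exact ⟨fun _ => h, fun _ => Mt_sw hab h⟩
  · rw [cs_neg h]

theorem cs_cs {c al be d : ℕ} (hab : al ≤ be) : Function.Involutive (cs (Q := Q) c al be d) := by
  intro x
  by_cases h : Mt c al be d (x 2) (x 1)
  · have h' : Mt c al be d (x 1) (x 2) := by rw [Mt_symm]; exact h
    have h2 : Mt c al be d (cs c al be d x 2) (cs c al be d x 1) := (Mt_cs hab x).2 h
    rw [cs_pos h2, cs_pos h]
    funext i
    fin_cases i
    · rfl
    · exact sw_sw hab h'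
    · exact sw_sw hab h
  · rw [cs_neg (by rw [cs_neg h]; exact h), cs_neg h]

theorem wt_cs {c al be d : ℕ} (hab : al ≤ be) {q : Px Q → Y} (hq : Crs q (pJ c d)) {w : Px Q → ℝ} (hw : Wk c al be d w)
    (x : Fin 3 → Px Q) : Pool.W7d29a1.C0.I52.wt (P3 q) w (cs c al be d x) = Pool.W7d29a1.C0.I52.wt (P3 q) w x := by
  by_cases h : Mt c al be d (x 2) (x 1)
  · have h' : Mt c al be d (x 1) (x 2) := by rw [Mt_symm]; exact h
    have e2 : q (sw c d (x 2) (x 1)) = q (x 2) := hq _ _ (pJ_sw hab h)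
    have e1 : q (sw c d (x 1) (x 2)) = q (x 1) := hq _ _ (pJ_sw hab h')
    rw [cs_pos h, wt_P3, wt_P3]
    show ker w univ (sw c d (x 2) (x 1)) * ker w (univ.filter fun s => q s = q (sw c d (x 2) (x 1))) (sw c d (x 1) (x 2)) *
      ker w univ (x 0) = _
    rw [e2]
    congr 1
    have hu : ∀ s : Px Q, ker w univ s = Real.exp (w s) / zs w univ := fun s => by
      unfold ker
      rw [if_pos (mem_univ s)]
    rw [hu, hu]
    unfold ker
    by_cases hf : q (x 1) = q (x 2)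
    · rw [if_pos (by rw [mem_filter]; exact ⟨mem_univ _, by rw [e1, hf]⟩), if_pos (by rw [mem_filter]; exact ⟨mem_univ _, hf⟩),
        div_mul_div_comm, div_mul_div_comm, ← Real.exp_add, ← Real.exp_add, hw _ _ h]
    · rw [if_neg (by rw [mem_filter]; exact fun hh => hf (by rw [← e1]; exact hh.2)),
        if_neg (by rw [mem_filter]; exact fun hh => hf hh.2), mul_zero, mul_zero]
  · rw [cs_neg h]

/-- **THE CUT**: for all weights with the swap property. -/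
theorem cutE {c al be d : ℕ} (hab : al ≤ be) {q : Px Q → Y} (hq : Crs q (pJ c d)) {w : Px Q → ℝ} (hw : Wk c al be d w)
    {γ g f : Px Q → ℝ} (hγ : Mp (pJ c d) γ) (hg : Lk al be g) (hf : Mp q f) :
    gc w (cC w q γ g) f = ev (P3 q) w (psR be d γ g f) + ev (P3 q) w (psL c al be d γ g f) := by
  classical
  rw [← cov_plan q w γ g hf, ← ev_add]
  rw [ev_swap (P3 q) w (cs c al be d) (cs_cs hab) (wt_cs hab hq hw) (fun x => Mt c al be d (x 2) (x 1)) (Mt_cs hab) ?_]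
  · exact ev_congr _ _ fun x => psR_psL c al be d γ g f x
  · intro x h
    have h' : Mt c al be d (x 1) (x 2) := by rw [Mt_symm]; exact h
    rw [cs_pos h]
    show 1 / 2 * (γ (sw c d (x 2) (x 1)) - γ (sw c d (x 1) (x 2))) * (g (sw c d (x 2) (x 1)) - g (sw c d (x 1) (x 2))) *
      (f (sw c d (x 2) (x 1)) - f (x 0)) = -(1 / 2 * (γ (x 2) - γ (x 1)) * (g (x 2) - g (x 1)) * (f (x 2) - f (x 0)))
    rw [hγ _ _ (pJ_sw hab h), hγ _ _ (pJ_sw hab h'), hg.sw h, hg.sw h', hf _ _ (hq _ _ (pJ_sw hab h))]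
    ring

/-- Sums over the rows of functions of the positions (the fields of the slabs) have the swap property. -/
theorem Wk_site {c al be d : ℕ} (hab : al ≤ be) (T : Finset ℕ) (φ : ℕ → ℤ → ℝ) :
    Wk (Q := Q) c al be d fun S => ∑ i ∈ T, φ i (ps S i) := by
  intro S S' h
  show ∑ i ∈ T, φ i (ps (sw c d S S') i) + ∑ i ∈ T, φ i (ps (sw c d S' S) i) = ∑ i ∈ T, φ i (ps S i) + ∑ i ∈ T, φ i (ps S' i)
  rw [← sum_add_distrib, ← sum_add_distrib]
  refine sum_congr rfl fun i _ => ?_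
  unfold sw
  rw [tF_symm c S S', uF_symm d S S']
  rcases ps_swP (sw_times hab h) (tF_spec h).2.2 (uF_spec h).2.2 i with ⟨h1, h2, _⟩ | ⟨h1, h2, _⟩
  · rw [h1, h2]
  · rw [h1, h2, add_comm]

/-- **THE CUT IN THE MODEL**: centred windows `[j - b₀, j + b₀)` inside `[j - b, j + b)`, `q` = outside of a larger block or everything
behind a row, `γ` = any function of the ends of the larger window, any weights `lw + u g + A`. -/
theorem cutE_gg {μ : Measure ℝ} {s : ℝ} {N : ℕ} {δ' B' : ℝ} {b b0 j : ℕ} {q : Px Q → Y} (hq : Crs q (pJ (j - b) (j + b)))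
    (ω : Env × Finset ℕ) (u : ℝ) {A : Px Q → ℝ} (hA : Wk (j - b) (j - b0) (j + b0) (j + b) A) {γ : Px Q → ℝ}
    (hγ : Mp (pJ (j - b) (j + b)) γ) {f : Px Q → ℝ} (hf : Mp q f) :
    gc (lw μ s ω.1 N Q + u • gg μ s Q δ' B' b0 ω j + A) (cC (lw μ s ω.1 N Q + u • gg μ s Q δ' B' b0 ω j + A) q
      γ (gg μ s Q δ' B' b0 ω j)) f =
    ev (P3 q) (lw μ s ω.1 N Q + u • gg μ s Q δ' B' b0 ω j + A) (psR (j + b0) (j + b) γ (gg μ s Q δ' B' b0 ω j) f) +
    ev (P3 q) (lw μ s ω.1 N Q + u • gg μ s Q δ' B' b0 ω j + A)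
      (psL (j - b) (j - b0) (j + b0) (j + b) γ (gg μ s Q δ' B' b0 ω j) f) := by
  have hg : Lk (j - b0) (j + b0) (gg μ s Q δ' B' b0 ω j) := Lk_gg δ' B' b0 j ω le_rfl le_rfl
  have hab : j - b0 ≤ j + b0 := by omega
  exact cutE hab hq (((Wk_lw ω.1 hab).add (hg.Wk.smul u)).add hA) hγ hg hf

end Cut

end

end Pool.Agent.W_7d29a1_C0.CutE14
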