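import Pool.Agent.W_7d29a1_C0.E1A19
import Pool.Agent.W_7d29a1_C0.Mod92B

/-!
CURV0 (MP_7d29a1_pr), leaf E1g, second file: the theorem `e1_bound`. (helper19)
-/

set_option autoImplicit false
set_option linter.unusedSectionVars false
set_option linter.unusedVariables false

namespace Pool.W7d29a1.C0.E1A

open Finset MeasureTheory
open Pool.Agent.W_7d29a1_F Pool.Agent.W_7d29a1_X Pool.Agent.W_7d29a1_C0.H32
open Pool.Agent.W_7d29a1_C0 Pool.Agent.W_7d29a1_C0.Mod92 Pool.Agent.W_7d29a1_C0.Swap57 Pool.Agent.W_7d29a1_C0.NM82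
open Pool.W7d29a1.C0 Pool.W7d29a1.C0.VT31 Pool.W7d29a1.C0.H41 Pool.W7d29a1.C0.Fld19

noncomputable section

variable {μ : Measure ℝ} {s : ℝ} {N : ℕ} {Q : Finset (Finset ℕ)} {B : Type*} [Fintype B] [DecidableEq B]

/-! ### Tubes -/

/-- **The boxes of `k` replicas and their tubes over the rows `I`**: `χ β` = cut-off by the tubes of the boxes `β`, at most `R` sites in
every row; `o β S` = 1 if `S` leaves the tubes of `β`; `ow S` = 1 if `S` leaves the tube of its own box. -/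
structure Tb (N : ℕ) (k : ℕ) (b : Px Q → B) (I : Finset ℕ) (χ : (Fin k → B) → Pt → ℝ) (o : (Fin k → B) → Px Q → ℝ)
    (ow : Px Q → ℝ) (R : ℝ) : Prop where
  z : ∀ β p, 0 ≤ χ β p
  u : ∀ β p, χ β p ≤ 1
  n : ∀ β, ∀ i ∈ I, (((range (N + 1)).filter fun y : ℕ => χ β ((i : ℤ), (y : ℤ)) ≠ 0).card : ℝ) ≤ R
  far : ∀ β S, (∃ i ∈ I, χ β ((i : ℤ), ps S i) ≠ 1) → 1 ≤ o β S
  o0 : ∀ β S, 0 ≤ o β S
  o1 : ∀ β S, o β S ≤ 1
  own : ∀ β i S, b S = β i → o β S ≤ ow S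
  w0 : ∀ S, 0 ≤ ow S
  w1 : ∀ S, ow S ≤ 1

variable {U H HW : Env → Finset ℕ → ℝ} {c : ℕ} {θ M : ℝ}

theorem abs_fq_le (hU : Past c U) (hH : Past c H) (hM : ∀ η S, |H η S| ≤ M) {q : Pt} (hq : (c : ℤ) < q.1) (η : Env) :
    |fq s U H q η| ≤ M := by
  have h := BF_fq (s := s) hU hH hM (S1 := {q}) (by intro r hr; rw [mem_singleton] at hr; rw [hr]; exact hq)
  exact h.bd q (mem_singleton_self q) η

/-- **The quadratic variation of the near part of the field.** -/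
theorem QV_cut_le (hU : Past c U) (hH : Past c H) (hM : ∀ η S, |H η S| ≤ M) {J : Finset ℕ} (hJ : ∀ i ∈ J, c < i) {χ : Pt → ℝ}
    (z : ∀ p, 0 ≤ χ p) (u : ∀ p, χ p ≤ 1) {R : ℝ}
    (n : ∀ i ∈ J, (((range (N + 1)).filter fun y : ℕ => χ ((i : ℤ), (y : ℤ)) ≠ 0).card : ℝ) ≤ R) (η : Env) :
    QV (Sl J N) (cut χ (cf θ s U H)) η ≤ J.card * (R * (θ * M) ^ 2) := by
  unfold QV Sl
  rw [sum_map, sum_product]
  refine (Finset.sum_le_sum (f := fun i => _) (g := fun _ => R * (θ * M) ^ 2) fun i hi => ?_).trans_eq ?_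
  · show ∑ y ∈ range (N + 1), cut χ (cf θ s U H) ((i : ℤ), (y : ℤ)) η ^ 2 ≤ R * (θ * M) ^ 2
    have h1 : ∀ y ∈ range (N + 1), cut χ (cf θ s U H) ((i : ℤ), (y : ℤ)) η ^ 2 ≤
        if χ ((i : ℤ), (y : ℤ)) ≠ 0 then (θ * M) ^ 2 else 0 := fun y _ => by
      unfold cut cf
      split_ifs with h
      · have h2 := abs_fq_le (s := s) hU hH hM (q := ((i : ℤ), (y : ℤ))) (by show (c : ℤ) < (i : ℤ); exact_mod_cast hJ i hi) η
        have h3 : |χ ((i : ℤ), (y : ℤ)) * (θ * fq s U H ((i : ℤ), (y : ℤ)) η)| ≤ |θ * M| := by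
          rw [abs_mul, abs_mul, abs_mul, abs_of_nonneg (z _)]
          have hMM : M ≤ |M| := le_abs_self M
          have h4 : |θ| * |fq s U H ((i : ℤ), (y : ℤ)) η| ≤ |θ| * |M| :=
            mul_le_mul_of_nonneg_left (h2.trans hMM) (abs_nonneg _)
          exact (mul_le_mul (u _) h4 (by positivity) zero_le_one).trans (by rw [one_mul])
        exact sq_le_sq.2 h3
      · rw [not_not] at h
        rw [h, zero_mul]
        norm_num
    refine (Finset.sum_le_sum h1).trans ?_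
    rw [← Finset.sum_filter, Finset.sum_const, nsmul_eq_mul]
    exact mul_le_mul_of_nonneg_right (n i hi) (sq_nonneg _)
  · rw [Finset.sum_const, nsmul_eq_mul]

theorem abs_cE_le_cE {X Y : Type*} [Fintype X] [Nonempty X] [DecidableEq Y] (w : X → ℝ) (p : X → Y) (f : X → ℝ) (x : X) :
    |cE w p f x| ≤ cE w p (fun z => |f z|) x := by
  unfold cE
  rw [abs_div, abs_of_pos (fz_pos w p x)]
  refine div_le_div_of_nonneg_right ((Finset.abs_sum_le_sum_abs _ _).trans (Finset.sum_le_sum fun S' _ => ?_))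
    (fz_pos w p x).le
  split_ifs
  · rw [abs_mul, abs_of_pos (Real.exp_pos _)]
  · rw [abs_zero]

theorem cE_smul' {X Y : Type*} [Fintype X] [Nonempty X] [DecidableEq Y] (w : X → ℝ) (p : X → Y) (a : ℝ) (f : X → ℝ) (x : X) :
    cE w p (fun z => a * f z) x = a * cE w p f x := by
  have h := congrFun (cE_smul w p a f) x
  exact h

theorem abs_cC_le_cE {X Y : Type*} [Fintype X] [Nonempty X] [DecidableEq Y] (w : X → ℝ) (p : X → Y) {A g : X → ℝ} {M : ℝ}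
    (hg : ∀ x, |g x| ≤ M) (x : X) : |cC w p A g x| ≤ 2 * M * cE w p (fun z => |A z|) x := by
  have hM : 0 ≤ M := (abs_nonneg _).trans (hg x)
  have h1 : |cE w p (A * g) x| ≤ M * cE w p (fun z => |A z|) x := by
    rw [← cE_smul']
    refine (abs_cE_le_cE w p _ x).trans (cE_mono w p (fun z => ?_) x)
    rw [Pi.mul_apply, abs_mul, mul_comm]
    exact mul_le_mul_of_nonneg_right (hg z) (abs_nonneg _)
  have h2 : |cE w p A x * cE w p g x| ≤ cE w p (fun z => |A z|) x * M := by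
    rw [abs_mul]
    exact mul_le_mul (abs_cE_le_cE w p A x) (abs_cE_le w p hg x) (abs_nonneg _) (cE_nonneg w p (fun z => abs_nonneg _) x)
  show |cE w p (A * g) x - cE w p A x * cE w p g x| ≤ _
  exact (abs_sub _ _).trans (by linarith)

section pathwise

variable [Nonempty (Px Q)] {k : ℕ} {b : Px Q → B} {I : Finset ℕ} {χ : (Fin k → B) → Pt → ℝ} {o : (Fin k → B) → Px Q → ℝ}
  {ow : Px Q → ℝ} {R : ℝ}

/-- **The far part of the field** sees the paths outside of the tubes only. -/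
theorem farF_le (T : Tb N k b I χ o ow R) (hU : Past c U) (hH : Past c H) (hM : ∀ η S, |H η S| ≤ M) {J : Finset ℕ}
    (hJI : J ⊆ I) (hJ : ∀ i ∈ J, c < i) (hN : ∀ i ∈ J, i ≤ N) (hθ : (J.card : ℝ) * θ = 1) (hθ0 : 0 ≤ θ) (η : Env)
    (β : Fin k → B) (S : Px Q) :
    |farF χ (Sl J N) (cf θ s U H) (fun q (S : Px Q) => NNs q S) η β S| ≤ M * o β S := by
  have hM0 : 0 ≤ M := (abs_nonneg _).trans (hM η ∅)
  show |H19.Cf (Sl J N) (cut' (χ β) (cf θ s U H)) (fun q (S : Px Q) => nn q S.1) η S| ≤ M * o β S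
  rw [Cf_Px]
  show |Ph (Sl J N) (cut' (χ β) (cf θ s U H)) η S.1| ≤ M * o β S
  rw [Ph_Sl (fun i hi => by have := hJ i hi; omega) _ η (ps_le_N hN S)]
  by_cases h : ∃ i ∈ I, χ β ((i : ℤ), ps S i) ≠ 1
  · have h1 := T.far β S h
    have h2 : |∑ i ∈ J, cut' (χ β) (cf θ s U H) ((i : ℤ), pos S.1 i) η| ≤ ∑ _i ∈ J, θ * M := by
      refine (Finset.abs_sum_le_sum_abs _ _).trans (Finset.sum_le_sum fun i hi => ?_)
      unfold cut' cf
      have h3 := abs_fq_le (s := s) hU hH hM (q := ((i : ℤ), pos S.1 i)) (by show (c : ℤ) < (i : ℤ); exact_mod_cast hJ i hi) η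
      have h4 := T.z β ((i : ℤ), pos S.1 i)
      have h5 := T.u β ((i : ℤ), pos S.1 i)
      rw [abs_mul, abs_mul, abs_of_nonneg (by linarith : 0 ≤ 1 - χ β ((i : ℤ), pos S.1 i)), abs_of_nonneg hθ0]
      have h6 : θ * |fq s U H ((i : ℤ), pos S.1 i) η| ≤ θ * M := mul_le_mul_of_nonneg_left h3 hθ0
      have h7 : 0 ≤ θ * |fq s U H ((i : ℤ), pos S.1 i) η| := by positivity
      nlinarith
    rw [Finset.sum_const, nsmul_eq_mul, ← mul_assoc, hθ, one_mul] at h2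
    exact h2.trans (by nlinarith)
  · push Not at h
    have h2 : ∑ i ∈ J, cut' (χ β) (cf θ s U H) ((i : ℤ), pos S.1 i) η = 0 := by
      refine Finset.sum_eq_zero fun i hi => ?_
      have h3 : χ β ((i : ℤ), pos S.1 i) = 1 := h i (hJI hi)
      unfold cut'
      rw [h3, sub_self, zero_mul]
    rw [h2, abs_zero]
    exact mul_nonneg hM0 (T.o0 β S)

/-- **The derivative of the field along the far part.** -/
theorem dwF_le (hQ : GQ N Q) (T : Tb N k b I χ o ow R) (hU : Past c U) (hH : Past c H) (hM : ∀ η S, |H η S| ≤ M)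
    {J J' : Finset ℕ} (hJI : J ⊆ I) (hJ : ∀ i ∈ J, c < i) (hJ' : ∀ z ∈ J', c < z) (hN : ∀ i ∈ J, i ≤ N) (hN' : ∀ z ∈ J', z ≤ N)
    (hJJ : ∀ i ∈ J, ∀ z ∈ J', i < z) {θ' : ℝ} (hθ : (J.card : ℝ) * θ = 1) (hθ0 : 0 ≤ θ) (hθ0' : 0 ≤ θ') (η : Env)
    (β : Fin k → B) (S : Px Q) :
    |dwF χ (Sl J N) (Sl J' N) (cf θ s U H) (cf' θ' s U H) (fun q (S : Px Q) => NNs q S) η β S| ≤
      2 * M ^ 2 * avC (wU μ s N Q U η) J' (fun _ => θ') (fun z => pJ 0 z) (o β) S := by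
  have hM0 : 0 ≤ M := (abs_nonneg _).trans (hM η ∅)
  have bf := BF_mul' (BF_cf (s := s) hU hH hM hJ N θ) (T.z β) (T.u β)
  have hbl : ∀ q ∈ Sl J N, ∀ (η : Env) (r : Pt) (x : ℝ), q.1 < r.1 →
      cut' (χ β) (cf θ s U H) q (Function.update η r x) = cut' (χ β) (cf θ s U H) q η := by
    intro q hq η r x hr
    obtain ⟨i, hi, e1⟩ := row_Sl hq
    have h1 := hJ i hi
    unfold cut' cf
    rw [fq_blind hU hH (by omega) hr.le]
  unfold dwF
  rw [Cf_Dcf (μ := μ) (s := s) hQ hU hH hJ hJ' hN hN' hJJ bf.meas hbl η]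
  unfold avC
  rw [Finset.sum_apply, Finset.sum_apply, Finset.mul_sum]
  refine (Finset.abs_sum_le_sum_abs _ _).trans (Finset.sum_le_sum fun z hz => ?_)
  rw [Pi.smul_apply, Pi.smul_apply, smul_eq_mul, smul_eq_mul, abs_mul, abs_of_nonneg hθ0']
  have h1 := abs_cC_le_cE (wU μ s N Q U η) (pJ (Q := Q) 0 z)
    (A := H19.Cf (Sl J N) (cut' (χ β) (cf θ s U H)) (fun q (S : Px Q) => NNs q S) η) (g := fun S => H η S.1)
    (fun S => hM η S.1) S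
  have h2 : cE (wU μ s N Q U η) (pJ (Q := Q) 0 z)
      (fun S => |H19.Cf (Sl J N) (cut' (χ β) (cf θ s U H)) (fun q (S : Px Q) => NNs q S) η S|) S ≤
      M * cE (wU μ s N Q U η) (pJ (Q := Q) 0 z) (o β) S := by
    rw [← cE_smul']
    exact cE_mono _ _ (fun S' => farF_le T hU hH hM hJI hJ hN hθ hθ0 η β S') S
  have h3 : |cC (wU μ s N Q U η) (pJ (Q := Q) 0 z)
      (H19.Cf (Sl J N) (cut' (χ β) (cf θ s U H)) (fun q (S : Px Q) => NNs q S) η) (fun S => H η S.1) S| ≤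
      2 * M ^ 2 * cE (wU μ s N Q U η) (pJ (Q := Q) 0 z) (o β) S := by
    refine h1.trans ((mul_le_mul_of_nonneg_left h2 (by positivity)).trans_eq ?_)
    ring
  exact (mul_le_mul_of_nonneg_left h3 hθ0').trans_eq (by ring)

end pathwise

/-! ### Observables -/

theorem NI_le_one' (m u : ℕ) (S S' : Px Q) : NI m u S S' ≤ 1 := by
  unfold NI
  split_ifs <;> norm_num

theorem abs_QN_le (m0 m1 : ℕ) {a F : Px Q → ℝ} {A : ℝ} (ha : ∀ S, |a S| ≤ A) (x : Fin 2 → Px Q) :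
    |QN m0 m1 a F x| ≤ A * (|F (x 0) - F (x 1)| * NI m0 m1 (x 0) (x 1)) := by
  unfold QN
  have h0 := NI_nonneg m0 m1 (x 0) (x 1)
  have h1 : |a (x 0) - a (x 1)| ≤ 2 * A := (abs_sub _ _).trans (by linarith [ha (x 0), ha (x 1)])
  rw [abs_mul, abs_mul, abs_mul, abs_of_nonneg h0, abs_of_nonneg (by norm_num : (0 : ℝ) ≤ 1 / 2)]
  have h2 : 0 ≤ |F (x 0) - F (x 1)| * NI m0 m1 (x 0) (x 1) := mul_nonneg (abs_nonneg _) h0
  have h3 : |a (x 0) - a (x 1)| * (|F (x 0) - F (x 1)| * NI m0 m1 (x 0) (x 1)) ≤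
      2 * A * (|F (x 0) - F (x 1)| * NI m0 m1 (x 0) (x 1)) := mul_le_mul_of_nonneg_right h1 h2
  linarith

theorem obs_QN {m0 m1 : ℕ} {a F : Env → Px Q → ℝ} (ma : ∀ S, Measurable fun η => a η S) (mF : ∀ S, Measurable fun η => F η S)
    {A D : ℝ} (ba : ∀ η S, |a η S| ≤ A) (bF : ∀ η S, |F η S| ≤ D) :
    Obs (fun η => QN m0 m1 (a η) (F η)) (2 * (A * D)) := by
  refine ⟨measurable_pi_lambda _ fun x => ?_, fun η x => ?_⟩
  · unfold QN
    exact ((((ma _).sub (ma _)).mul ((mF _).sub (mF _))).mul_const _).const_mul _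
  · refine (abs_QN_le m0 m1 (ba η) x).trans ?_
    have h0 := NI_nonneg m0 m1 (x 0) (x 1)
    have h1 := NI_le_one' m0 m1 (x 0) (x 1)
    have h2 : |F η (x 0) - F η (x 1)| ≤ 2 * D := (abs_sub _ _).trans (by linarith [bF η (x 0), bF η (x 1)])
    have hA : 0 ≤ A := (abs_nonneg _).trans (ba η (x 0))
    have h3 : |F η (x 0) - F η (x 1)| * NI m0 m1 (x 0) (x 1) ≤ 2 * D * 1 :=
      mul_le_mul h2 h1 h0 ((abs_nonneg _).trans h2)
    calc A * (|F η (x 0) - F η (x 1)| * NI m0 m1 (x 0) (x 1)) ≤ A * (2 * D * 1) := mul_le_mul_of_nonneg_left h3 hA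
      _ = 2 * (A * D) := by ring

/-- The average of the conditional covariances given the future of the slab rows, as a function of the environment. -/
def nv (μ : Measure ℝ) (s : ℝ) (N : ℕ) (Q : Finset (Finset ℕ)) (U H K : Env → Finset ℕ → ℝ) (J : Finset ℕ) (θ : ℝ) (η : Env) :
    Px Q → ℝ := avN (wU μ s N Q U η) J (fun _ => θ) (fun m => pJ 0 m) (fun S => H η S.1) fun S => K η S.1

section nv

variable [Nonempty (Px Q)] {K : Env → Finset ℕ → ℝ} {J : Finset ℕ}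

theorem abs_nv (hθ : (J.card : ℝ) * θ = 1) (hθ0 : 0 ≤ θ) (hM : ∀ η S, |H η S| ≤ M) (hK : ∀ η S, |K η S| ≤ M) (η : Env) (S : Px Q) :
    |nv μ s N Q U H K J θ η S| ≤ 2 * M ^ 2 := by
  have hM0 : 0 ≤ M := (abs_nonneg _).trans (hM η ∅)
  unfold nv avN
  rw [Finset.sum_apply]
  refine (Finset.abs_sum_le_sum_abs _ _).trans ((Finset.sum_le_sum (g := fun _ => θ * (2 * M ^ 2)) fun i hi => ?_).trans_eq ?_)
  · rw [Pi.smul_apply, smul_eq_mul, abs_mul, abs_of_nonneg hθ0]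
    refine mul_le_mul_of_nonneg_left ?_ hθ0
    refine (abs_cC_le_cE _ _ (A := fun S : Px Q => H η S.1) (g := fun S => K η S.1) (fun S => hK η S.1) S).trans ?_
    have h1 := abs_cE_le (wU μ s N Q U η) (pJ (Q := Q) 0 i) (f := fun S => |H η S.1|) (M := M) (fun S => by
      rw [abs_abs]; exact hM η S.1) S
    have h2 := (le_abs_self _).trans h1
    calc 2 * M * cE (wU μ s N Q U η) (pJ (Q := Q) 0 i) (fun S => |H η S.1|) S ≤ 2 * M * M :=
          mul_le_mul_of_nonneg_left h2 (by positivity)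
      _ = 2 * M ^ 2 := by ring
  · rw [Finset.sum_const, nsmul_eq_mul, ← mul_assoc, hθ, one_mul]

theorem meas_nv (hU : Past c U) (hH : Past c H) (hK : Past c K) (S : Px Q) :
    Measurable fun η => nv μ s N Q U H K J θ η S := by
  unfold nv avN
  simp only [Finset.sum_apply, Pi.smul_apply, smul_eq_mul]
  refine Finset.measurable_fun_sum _ fun i _ => ?_
  refine Measurable.const_mul ?_ _
  exact meas_cC (w := fun η => wU μ s N Q U η) (f := fun η (S : Px Q) => H η S.1) (g := fun η (S : Px Q) => K η S.1)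
    (fun S => (measurable_pi_apply S).comp (measurable_wU hU)) (fun S => hH.ms S.1) (fun S => hK.ms S.1) _ S

/-- It does not see the rows behind the slab. -/
theorem nv_blind (hQ : GQ N Q) (hU : Past c U) (hH : Past c H) (hK : Past c K) (hJ : ∀ i ∈ J, c < i) (hN : ∀ i ∈ J, i ≤ N)
    {r : Pt} (hr : ∀ i ∈ J, (i : ℤ) ≤ r.1) (η : Env) (x : ℝ) :
    nv μ s N Q U H K J θ (Function.update η r x) = nv μ s N Q U H K J θ η := by
  unfold nv avN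
  refine Finset.sum_congr rfl fun i hi => ?_
  congr 1
  rw [cC_pJ, cC_pJ]
  funext S
  rw [cC_pb (μ := μ) (s := s) hQ (hJ i hi).le (hN i hi) hU (hH.mono (hJ i hi).le) (hK.mono (hJ i hi).le) (Function.update η r x) S,
    cC_pb (μ := μ) (s := s) hQ (hJ i hi).le (hN i hi) hU (hH.mono (hJ i hi).le) (hK.mono (hJ i hi).le) η S]
  unfold cq
  have h1 : (c : ℤ) < (i : ℤ) := by exact_mod_cast hJ i hi
  have h2 : (c : ℤ) < r.1 := lt_of_lt_of_le h1 (hr i hi)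
  rw [vq_blind (q := ((i : ℤ), ps S i)) hU h1 (hr i hi), rq_blind hH h2, rq_blind hK h2]

end nv

/-- The pairs which do not meet, with the difference of the spectator. -/
def XF (m0 m1 : ℕ) (F : Px Q → ℝ) : (Fin 2 → Px Q) → ℝ := fun x => |F (x 0) - F (x 1)| * NI m0 m1 (x 0) (x 1)

theorem XF_nonneg (m0 m1 : ℕ) (F : Px Q → ℝ) (x : Fin 2 → Px Q) : 0 ≤ XF m0 m1 F x := mul_nonneg (abs_nonneg _) (NI_nonneg _ _ _ _)

theorem obs_XF {m0 m1 : ℕ} {F : Env → Px Q → ℝ} (mF : ∀ S, Measurable fun η => F η S) {D : ℝ} (bF : ∀ η S, |F η S| ≤ D) :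
    Obs (fun η => XF m0 m1 (F η)) (2 * D) := by
  refine ⟨measurable_pi_lambda _ fun x => ?_, fun η x => ?_⟩
  · unfold XF
    have h := ((mF (x 0)).sub (mF (x 1))).norm
    simp only [Real.norm_eq_abs] at h
    exact h.mul_const _
  · rw [abs_of_nonneg (XF_nonneg _ _ _ _)]
    unfold XF
    have h0 := NI_nonneg m0 m1 (x 0) (x 1)
    have h1 := NI_le_one' m0 m1 (x 0) (x 1)
    have h2 : |F η (x 0) - F η (x 1)| ≤ 2 * D := (abs_sub _ _).trans (by linarith [bF η (x 0), bF η (x 1)])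
    have h3 : |F η (x 0) - F η (x 1)| * NI m0 m1 (x 0) (x 1) ≤ 2 * D * 1 :=
      mul_le_mul h2 h1 h0 ((abs_nonneg _).trans h2)
    linarith

section reps

variable {X : Type*} [Fintype X] [Nonempty X]

theorem obs_fr {k : ℕ} (b : X → B) {o : (Fin k → B) → X → ℝ} (h0 : ∀ β S, 0 ≤ o β S) (h1 : ∀ β S, o β S ≤ 1)
    {Ψ : Env → (Fin k → X) → ℝ} {D : ℝ} (h : Obs Ψ D) : Obs (fun η => fr k b o (Ψ η)) D := by
  refine ⟨measurable_pi_lambda _ fun y => ?_, fun η y => ?_⟩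
  · unfold fr
    have h2 := ((measurable_pi_apply (Fin.tail y)).comp h.meas).norm
    simp only [Real.norm_eq_abs] at h2
    exact h2.mul_const _
  · rw [abs_of_nonneg (fr_nonneg b h0 _ _)]
    unfold fr
    exact (mul_le_of_le_one_right (abs_nonneg _) (h1 _ _)).trans (h.bd η _)

theorem obs_FW {k : ℕ} (b : X → B) {o : (Fin k → B) → X → ℝ} (h0 : ∀ β S, 0 ≤ o β S) (h1 : ∀ β S, o β S ≤ 1)
    {Ψ : Env → (Fin k → X) → ℝ} {D : ℝ} (h : Obs Ψ D) : Obs (fun η => FW k b o (Ψ η)) (D * (2 * k)) :=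
  ⟨meas_FW b (o := fun _ => o) (fun _ _ => measurable_const) h.meas, fun η y => abs_FW_le b h0 h1 (h.bd η) y⟩

theorem int_rep [IsProbabilityMeasure μ] {m : ℕ} {Ψ : Env → (Fin m → X) → ℝ} {D : ℝ} (h : Obs Ψ D) {w : Env → X → ℝ}
    (hw : Measurable w) : Integrable (fun η => rep m (w η) (Ψ η)) (law μ) := by
  have h1 := h.int (μ := μ) (repEv X m) hw
  simp only [repEv_ev] at h1
  exact h1

theorem int_gm [IsProbabilityMeasure μ] {w : Env → X → ℝ} (hw : Measurable w) {g : X → ℝ} (h0 : ∀ S, 0 ≤ g S)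
    (h1 : ∀ S, g S ≤ 1) : Integrable (fun η => gm (w η) g) (law μ) := by
  have h2 := int_rep (μ := μ) (m := 1) (Ψ := fun _ x => g (x 0)) (D := 1)
    ⟨measurable_const, fun η x => by rw [abs_of_nonneg (h0 _)]; exact h1 _⟩ hw
  simp only [rep_at] at h2
  exact h2

theorem fr_le {k : ℕ} (b : X → B) {o : (Fin k → B) → X → ℝ} (h0 : ∀ β S, 0 ≤ o β S) {Ψ Φ : (Fin k → X) → ℝ} {A : ℝ}
    (hΦ : ∀ x, 0 ≤ Φ x) (h : ∀ x, |Ψ x| ≤ A * Φ x) (y : Fin (k + 1) → X) : fr k b o Ψ y ≤ A * fr k b o Φ y := by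
  unfold fr
  rw [abs_of_nonneg (hΦ _), ← mul_assoc]
  exact mul_le_mul_of_nonneg_right (h _) (h0 _ _)

theorem rep_fr_le {k : ℕ} (b : X → B) {o : (Fin k → B) → X → ℝ} (h0 : ∀ β S, 0 ≤ o β S) {Ψ Φ : (Fin k → X) → ℝ} {A : ℝ}
    (hΦ : ∀ x, 0 ≤ Φ x) (h : ∀ x, |Ψ x| ≤ A * Φ x) (w : X → ℝ) : rep (k + 1) w (fr k b o Ψ) ≤ A * rep (k + 1) w (fr k b o Φ) := by
  rw [← rep_smul]
  exact rep_mono _ _ fun y => fr_le b h0 hΦ h y

end reps

/-! ### The main bound -/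

/-- **The data of (E1)** at a fixed set of signs and a fixed tilt. -/
structure Dt (N : ℕ) (Q : Finset (Finset ℕ)) (c m0 m1 n : ℕ) (J J' : Finset ℕ) (M D : ℝ) (U H HW : Env → Finset ℕ → ℝ)
    (F : Env → Px Q → ℝ) : Prop where
  q : GQ N Q
  c1 : c ≤ m0
  c2 : m0 ≤ m1
  c3 : m1 ≤ N
  sJ : ∀ i ∈ J, c < i ∧ i ≤ m0
  sJ' : ∀ z ∈ J', m0 < z ∧ z ≤ m1
  nJ : J.card = n
  nJ' : J'.card = n
  n0 : 0 < n
  pU : Past c U
  pH : Past c H
  pW : Past c HW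
  bH : ∀ η S, |H η S| ≤ M
  bW : ∀ η S, |HW η S| ≤ M
  mF : ∀ S, Measurable fun η => F η S
  bF : ∀ η S, |F η S| ≤ D
  rF : ∀ η, Rk m1 (F η)
  bl : ∀ (η : Env) (r : Pt) (x : ℝ), (c : ℤ) < r.1 → r.1 ≤ m1 → F (Function.update η r x) = F η

section main

variable [SwQ Q] [Nonempty (Px Q)] {f f' : ℝ → ℝ} {m0 m1 n : ℕ} {J J' : Finset ℕ} {D : ℝ} {F : Env → Px Q → ℝ}

theorem hd_wU {U : Env → Finset ℕ → ℝ} (hU : Past c U) (η : Env) : HdAll (Q := Q) c (wU μ s N Q U η) :=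
  (HdAll_lw (μ := μ) (s := s) (N := N) η c).add (HdAll_Lk (Past.lk hU η))

/-- **The pointwise identity** in the names of the insertions. -/
theorem e1_point (X : Dt N Q c m0 m1 n J J' M D U H HW F) (η : Env) :
    ∑ z ∈ J', (n : ℝ)⁻¹ * DX (pJ 0 z) (wU μ s N Q U η) (fun S => H η S.1) [[fun S => HW η S.1], [fun S => H η S.1]] [F η] =
      ((repEv (Px Q) 4).ev (wU μ s N Q U η) ((repDr (Px Q) 3).ins (H19.Cf (Sl J' N) (cf (n : ℝ)⁻¹ s U H) (fun q S => NNs q S) η)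
        ((repDr (Px Q) 2).ins (H19.Cf (Sl J N) (cf (n : ℝ)⁻¹ s U H) (fun q S => NNs q S) η)
          (QN c m1 (fun S => HW η S.1) (F η)))) +
        (repEv (Px Q) 3).ev (wU μ s N Q U η) ((repDr (Px Q) 2).ins (H19.Cf (Sl J' N) (H19.Dc (Sl J N) (cf (n : ℝ)⁻¹ s U H)
          (cf' (n : ℝ)⁻¹ s U H)) (fun q S => NNs q S) η) (QN c m1 (fun S => HW η S.1) (F η)))) +
      ((repEv (Px Q) 3).ev (wU μ s N Q U η) ((repDr (Px Q) 2).ins (H19.Cf (Sl J' N) (cf (n : ℝ)⁻¹ s U H) (fun q S => NNs q S) η)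
          (QN m0 m1 (nv μ s N Q U H HW J (n : ℝ)⁻¹ η) (F η))) +
        (repEv (Px Q) 3).ev (wU μ s N Q U η) ((repDr (Px Q) 2).ins (H19.Cf (Sl J' N) (cf (n : ℝ)⁻¹ s U HW) (fun q S => NNs q S) η)
          (QN m0 m1 (nv μ s N Q U H H J (n : ℝ)⁻¹ η) (F η)))) := by
  have hJ : ∀ i ∈ J, c < i := fun i hi => (X.sJ i hi).1
  have hJ' : ∀ z ∈ J', c < z := fun z hz => lt_of_le_of_lt X.c1 (X.sJ' z hz).1
  have hN : ∀ i ∈ J, i ≤ N := fun i hi => ((X.sJ i hi).2.trans X.c2).trans X.c3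
  have hN' : ∀ z ∈ J', z ≤ N := fun z hz => (X.sJ' z hz).2.trans X.c3
  have hJJ : ∀ i ∈ J, ∀ z ∈ J', i < z := fun i hi z hz => lt_of_le_of_lt (X.sJ i hi).2 (X.sJ' z hz).1
  have hθ : ∑ m ∈ J, (fun _ : ℕ => (n : ℝ)⁻¹) m = 1 := by
    show ∑ _m ∈ J, (n : ℝ)⁻¹ = 1
    rw [Finset.sum_const, nsmul_eq_mul, X.nJ]
    have : (n : ℝ) ≠ 0 := by exact_mod_cast X.n0.ne'
    field_simp
  have h := E1_NI (θ' := fun _ => (n : ℝ)⁻¹) (hd_wU (μ := μ) (s := s) (N := N) X.pU η) (Past.lk X.pH η) (Past.lk X.pW η)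
    (X.rF η) X.c1 X.c2 (fun m hm => ⟨(hJ m hm).le, (X.sJ m hm).2⟩) (fun z hz => ⟨(X.sJ' z hz).1.le, (X.sJ' z hz).2⟩) hθ
  have bl1 : ∀ q ∈ Sl J N, ∀ (η : Env) (r : Pt) (x : ℝ), q.1 < r.1 →
      cf (n : ℝ)⁻¹ s U H q (Function.update η r x) = cf (n : ℝ)⁻¹ s U H q η := by
    intro q hq η r x hr
    obtain ⟨i, hi, e1⟩ := row_Sl hq
    have h1 := hJ i hi
    unfold cf
    rw [fq_blind X.pU X.pH (by omega) hr.le]
  have e1 := Cf_cf (μ := μ) (s := s) (θ := (n : ℝ)⁻¹) X.q X.pU X.pH hJ hN η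
  have e2 := Cf_cf (μ := μ) (s := s) (θ := (n : ℝ)⁻¹) X.q X.pU X.pH hJ' hN' η
  have e3 := Cf_cf (μ := μ) (s := s) (θ := (n : ℝ)⁻¹) X.q X.pU X.pW hJ' hN' η
  have e4 := Cf_Dcf (μ := μ) (s := s) (θ := (n : ℝ)⁻¹) X.q X.pU X.pH hJ hJ' hN hN' hJJ
    (BF_cf (s := s) X.pU X.pH X.bH hJ N (n : ℝ)⁻¹).meas bl1 η
  rw [h]
  simp only [repEv_ev, repDr_ins]
  rw [e4, e1, e2, e3]
  congr 2
  exact rep_swap 2 _ _ _ _

/-! The far terms, pathwise and integrated -/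

theorem FW_smul {X : Type*} {k : ℕ} (b : X → B) (o : (Fin k → B) → X → ℝ) {a : ℝ} (ha : 0 ≤ a) (Ψ : (Fin k → X) → ℝ)
    (y : Fin (k + 1) → X) : FW k b o (fun x => a * Ψ x) y = a * FW k b o Ψ y := by
  unfold FW
  rw [abs_mul, abs_of_nonneg ha, mul_assoc]

theorem int_le_lin {P : Measure Env} {φ ψ1 ψ2 : Env → ℝ} {a1 a2 : ℝ} (h : ∀ η, φ η ≤ a1 * ψ1 η + a2 * ψ2 η)
    (h0 : Integrable φ P) (h1 : Integrable ψ1 P) (h2 : Integrable ψ2 P) : ∫ η, φ η ∂P ≤ a1 * ∫ η, ψ1 η ∂P + a2 * ∫ η, ψ2 η ∂P := by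
  rw [← MeasureTheory.integral_const_mul, ← MeasureTheory.integral_const_mul, ← integral_add (h1.const_mul _) (h2.const_mul _)]
  exact integral_mono h0 ((h1.const_mul _).add (h2.const_mul _)) h

theorem far_one {X : Type*} [Fintype X] [Nonempty X] {b : X → B} {k : ℕ} {o : (Fin k → B) → X → ℝ} {ow : X → ℝ}
    (hw : ∀ β i S, b S = β i → o β S ≤ ow S) (w0 : ∀ S, 0 ≤ ow S) (o0 : ∀ β S, 0 ≤ o β S)
    {Ψ Φ : (Fin k → X) → ℝ} {A D0 M : ℝ} (hM : 0 ≤ M) (hΦ : ∀ x, 0 ≤ Φ x) (h : ∀ x, |Ψ x| ≤ A * Φ x) (hD : ∀ x, |Ψ x| ≤ D0)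
    {R : (Fin k → B) → X → ℝ} (hR : ∀ β S, |R β S| ≤ M * o β S) (w : X → ℝ) :
    rep (k + 1) w (fun y => |(repDr X k).insR b R Ψ y|) ≤
      M * (k * A) * rep (k + 1) w (fr k b o Φ) + M * (D0 * k) * gm w ow := by
  have h1 : rep (k + 1) w (fun y => |(repDr X k).insR b R Ψ y|) ≤ M * rep (k + 1) w (FW k b o Ψ) := by
    rw [← rep_smul]
    exact rep_mono _ _ fun y => abs_insR_le b hR Ψ y
  have h2 := rep_FW_le (k := k) hw w0 hD w
  have h3 := rep_fr_le (k := k) b o0 hΦ h w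
  refine h1.trans ((mul_le_mul_of_nonneg_left (h2.trans (add_le_add (mul_le_mul_of_nonneg_left h3 (Nat.cast_nonneg k)) le_rfl))
    hM).trans (le_of_eq ?_))
  ring

theorem far_avC {X : Type*} [Fintype X] [Nonempty X] {b : X → B} {k : ℕ} {o : (Fin k → B) → X → ℝ} {ow : X → ℝ}
    (hw : ∀ β i S, b S = β i → o β S ≤ ow S) (w0 : ∀ S, 0 ≤ ow S) (o0 : ∀ β S, 0 ≤ o β S)
    {Ψ Φ : (Fin k → X) → ℝ} {A D0 M : ℝ} (hM : 0 ≤ M) (hΦ : ∀ x, 0 ≤ Φ x) (h : ∀ x, |Ψ x| ≤ A * Φ x) (hD : ∀ x, |Ψ x| ≤ D0)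
    (w : X → ℝ) {κ Y : Type*} [DecidableEq Y] (J : Finset κ) {θ : κ → ℝ} (hθ : ∑ z ∈ J, θ z = 1) (hθ0 : ∀ z ∈ J, 0 ≤ θ z)
    (pz : κ → X → Y) (hb : ∀ z ∈ J, ∀ S S', pz z S = pz z S' → b S = b S')
    {R : (Fin k → B) → X → ℝ} (hR : ∀ β S, |R β S| ≤ M * avC w J θ pz (o β) S) :
    rep (k + 1) w (fun y => |(repDr X k).insR b R Ψ y|) ≤
      M * (k * A) * rep (k + 1) w (fr k b o Φ) + M * (D0 * k) * gm w ow := by
  have h1 : rep (k + 1) w (fun y => |(repDr X k).insR b R Ψ y|) ≤ M * rep (k + 1) w (FW k b (fun β => avC w J θ pz (o β)) Ψ) := by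
    rw [← rep_smul]
    exact rep_mono _ _ fun y => abs_insR_le b hR Ψ y
  have h2 := rep_FW_cE (k := k) hw w0 o0 hD w J hθ hθ0 pz hb
  have h3 := rep_fr_le (k := k) b o0 hΦ h w
  refine h1.trans ((mul_le_mul_of_nonneg_left (h2.trans (add_le_add (mul_le_mul_of_nonneg_left h3 (Nat.cast_nonneg k)) le_rfl))
    hM).trans (le_of_eq ?_))
  ring

theorem far_two {X : Type*} [Fintype X] [Nonempty X] {b : X → B} {o : (Fin 2 → B) → X → ℝ} {o' : (Fin 3 → B) → X → ℝ} {ow : X → ℝ}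
    (hw : ∀ β i S, b S = β i → o β S ≤ ow S) (hw' : ∀ β i S, b S = β i → o' β S ≤ ow S) (w0 : ∀ S, 0 ≤ ow S)
    (o0 : ∀ β S, 0 ≤ o β S) (o1 : ∀ β S, o β S ≤ 1) (o0' : ∀ β S, 0 ≤ o' β S) (o1' : ∀ β S, o' β S ≤ 1)
    {Ψ Φ : (Fin 2 → X) → ℝ} {A D0 M : ℝ} (hM : 0 ≤ M) (hA : 0 ≤ A) (hΦ : ∀ x, 0 ≤ Φ x) (h : ∀ x, |Ψ x| ≤ A * Φ x)
    (hD : ∀ x, |Ψ x| ≤ D0)
    {R : (Fin 2 → B) → X → ℝ} {R' : (Fin 3 → B) → X → ℝ} (hR : ∀ β S, |R β S| ≤ M * o β S) (hR' : ∀ β S, |R' β S| ≤ M * o' β S)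
    (w : X → ℝ) :
    rep 4 w (fun y => |(repDr X 3).insR b R' ((repDr X 2).insR b R Ψ) y|) ≤
      M ^ 2 * (6 * A) * rep 4 w (fr 3 b o' (fr 2 b o Φ)) + M ^ 2 * (D0 * 27) * gm w ow := by
  have h1 : rep 4 w (fun y => |(repDr X 3).insR b R' ((repDr X 2).insR b R Ψ) y|) ≤
      M * (M * rep 4 w (FW 3 b o' (FW 2 b o Ψ))) := by
    rw [← rep_smul, ← rep_smul]
    refine rep_mono _ _ fun y => (abs_insR_le b hR' _ y).trans ?_
    refine mul_le_mul_of_nonneg_left ?_ hM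
    refine (FW_mono b o0' (Φ := fun x => M * FW 2 b o Ψ x) (fun x => abs_insR_le b hR Ψ x) y).trans (le_of_eq ?_)
    exact FW_smul b o' hM _ y
  have h2 := rep_FW_two (k := 2) hw hw' w0 o0 o1 o0' o1' hD w
  have h3 : rep 4 w (fr 3 b o' (fr 2 b o Ψ)) ≤ A * rep 4 w (fr 3 b o' (fr 2 b o Φ)) :=
    rep_fr_le (k := 3) b o0' (fun x => fr_nonneg b o0 Φ x) (fun x => by
      rw [abs_of_nonneg (fr_nonneg b o0 Ψ x)]
      exact fr_le b o0 hΦ h x) w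
  push_cast at h2
  have h4 : rep 4 w (FW 3 b o' (FW 2 b o Ψ)) ≤ 6 * A * rep 4 w (fr 3 b o' (fr 2 b o Φ)) + D0 * 27 * gm w ow := by
    refine h2.trans ?_
    have e1 : ((2 : ℝ) + 1) * 2 = 6 := by norm_num
    have e2 : D0 * (3 * ((2 : ℝ) + 1) * (2 + 1) * gm w ow) = D0 * 27 * gm w ow := by ring
    rw [e1, e2]
    linarith
  refine h1.trans ((mul_le_mul_of_nonneg_left (mul_le_mul_of_nonneg_left h4 hM) hM).trans (le_of_eq ?_))
  ring

end main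

end

end Pool.W7d29a1.C0.E1A
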