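import Pool.Agent.W_7d29a1_C0.Fub44
import Pool.Agent.W_7d29a1_C0.BridgeX82

/-!
CURV0 (MP_7d29a1_pr, helper44): THE ROW IDENTITY of the cross term. `q` = what the spectator `f` sees (coarser than `p`, the outside
of the block), `γ` = the response of the window `W` (base `b`), `g` = the response of the finer window (base `b0`), weights `w + t g`.
`four44` (pathwise) and `E_four44` (in expectation, with `t` outside): the corner average of `Cov (Zr p a γ, f)` minus the half
difference of the mean of `f` is E1 + E2 + E2a + E2b + T (master page 684, (2.3)).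
-/

set_option autoImplicit false
set_option linter.unusedSectionVars false
set_option linter.unusedVariables false

namespace Pool.W7d29a1.C0

open Finset Filter Topology MeasureTheory intervalIntegral
open Pool.Agent.W_7d29a1_C0 Pool.W7d29a1.C0.VT31

noncomputable section

variable {X : Type*} [Fintype X] [Nonempty X] {Y : Type*} [DecidableEq Y] {Y' : Type*} [DecidableEq Y']

/-! ### Pathwise -/

theorem gc_sub_left (w a b f : X → ℝ) : gc w (a - b) f = gc w a f - gc w b f := by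
  rw [sub_eq_add_neg, ← neg_one_smul ℝ b, gc_add_left, gc_smul_left]
  ring

/-- The row functional of the block, seen by a spectator which is a function of `q`. -/
theorem gc_Zr_up (w : X → ℝ) {q : X → Y'} {p : X → Y} (hc : Crs q p) (a : ℝ) (γ g : X → ℝ) {f : X → ℝ} (hf : Mp q f) :
    gc w (Zr w p a γ) f = gc w (cE w q γ - (a / 3) • cC w q γ g) f + a / 3 * gc w (cC w q γ (g - γ)) f +
      a / 3 * gc w (cV w q (cE w p γ)) f := by
  have h1 : cE w q (Zr w p a γ) = (cE w q γ - (a / 3) • cC w q γ g) + (a / 3) • cC w q γ (g - γ) +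
      (a / 3) • cV w q (cE w p γ) := by
    have h2 := Zr_up w hc a γ
    have h3 : cC w q γ (g - γ) = cC w q γ g - cV w q γ := by
      have e : g = (g - γ) + γ := by abel
      have h4 := cC_add_right w q γ (g - γ) γ
      rw [← e] at h4
      show cC w q γ (g - γ) = cC w q γ g - cC w q γ γ
      rw [h4]
      abel
    have h5 : cE w q (Zr w p a γ) = Zr w q a γ + (a / 3) • cV w q (cE w p γ) := by
      rw [h2]
      abel
    rw [h5, h3]
    unfold Zr
    rw [smul_sub]
    abel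
  rw [← gc_cE_left w (Zr w p a γ) hf, h1, gc_add_left, gc_add_left, gc_smul_left, gc_smul_left]

theorem Ac_add3 (φ ψ χ : ℝ → ℝ) : Ac (fun a => φ a + ψ a + χ a) = Ac φ + Ac ψ + Ac χ := by
  unfold Ac
  ring

/-- **The row identity, pathwise.** -/
theorem four44 (γ g w : X → ℝ) {q : X → Y'} {p : X → Y} (hc : Crs q p) {f : X → ℝ} (hf : Mp q f) :
    Ac (fun a => gc (w + a • g) (Zr (w + a • g) p a γ) f) = Dc (fun t => gm (w + t • g) f) +
      Mc (fun t => gc (w + t • g) (γ - g) f) +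
      (1 / 4) * (∫ t in (-1 : ℝ)..1, (1 - t ^ 2) * DX q (w + t • g) g [[γ], [g]] [f]) -
      (1 / 12) * (∫ t in (-1 : ℝ)..1, t * (1 - t ^ 2) * D2X q (w + t • g) g γ g [f]) +
      1 / 3 * Dc (fun a => gc (w + a • g) (cC (w + a • g) q γ (g - γ)) f) +
      1 / 3 * Dc (fun a => gc (w + a • g) (cV (w + a • g) q (cE (w + a • g) p γ)) f) := by
  have e1 : ∀ a : ℝ, gc (w + a • g) (Zr (w + a • g) p a γ) f =
      gc (w + a • g) (cE (w + a • g) q γ - (a / 3) • cC (w + a • g) q γ g) f +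
      a / 3 * gc (w + a • g) (cC (w + a • g) q γ (g - γ)) f +
      a / 3 * gc (w + a • g) (cV (w + a • g) q (cE (w + a • g) p γ)) f := fun a => gc_Zr_up _ hc a γ g hf
  have e2 : ∀ t : ℝ, gc (w + t • g) (γ - g) f = gc (w + t • g) (cE (w + t • g) q (γ - g)) f := fun t =>
    (gc_cE_left _ _ hf).symm
  have e3 : ∀ φ : ℝ → ℝ, Ac (fun a => a / 3 * φ a) = 1 / 3 * Dc φ := fun φ => by
    unfold Ac Dc
    ring
  simp_rw [e1, e2]
  rw [Ac_add3, e3, e3, crossX_VT γ g w q hf]

/-! ### Measurability and bounds in the names of VT31 -/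

section Meas

variable {Ω : Type*} [MeasurableSpace Ω]

theorem meas_dsc (p : X → Y) {f : Ω → X → ℝ} (hf : Measurable f) : Measurable fun u => dsc p (f u) :=
  measurable_pi_lambda _ fun y => (measurable_pi_apply (pr_surj p y).choose).comp hf

theorem abs_dsc_le (p : X → Y) {f : X → ℝ} {M : ℝ} (h : ∀ x, |f x| ≤ M) (y : Im p) : |dsc p f y| ≤ M := h _

theorem one_dsc {p : X → Y} {f : X → ℝ} (hf : Mp p f) : [f] = [dsc p f].map fun F => F ∘ pr p := by
  rw [List.map_cons, dsc_pr hf, List.map_nil]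

/-- `DX` is measurable. -/
theorem meas_DX {q : X → Y} {w C : Ω → X → ℝ} (hw : Measurable w) (hC : Measurable C) (ls : List (List (Ω → X → ℝ)))
    (hls : ∀ gs ∈ ls, ∀ g ∈ gs, Measurable g) {f : Ω → X → ℝ} (hf : Measurable f) (hq : ∀ u, Mp q (f u)) :
    Measurable fun u => DX q (w u) (C u) (ls.map fun gs => gs.map fun g => g u) [f u] := by
  have h := meas_DJ (pr_surj q) hw hC ls hls [fun u => dsc q (f u)] (fun F hF => by
    rw [List.mem_singleton.1 hF]
    exact meas_dsc q hf)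
  have e : (fun u => DX q (w u) (C u) (ls.map fun gs => gs.map fun g => g u) [f u]) = fun u => DJ (pr q) (w u) (C u)
      (ls.map fun gs => gs.map fun g => g u) ([fun u => dsc q (f u)].map fun F => F u) := by
    funext u
    rw [one_dsc (hq u), DX_eq]
    rfl
  rw [e]
  exact h

theorem meas_gcX {w F f : Ω → X → ℝ} (hw : Measurable w) (hF : Measurable F) (hf : Measurable f) :
    Measurable fun u => gc (w u) (F u) (f u) := by
  have h := meas_cm hw [F, f] (fun g hg => by
    simp only [List.mem_cons, List.not_mem_nil, or_false] at hg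
    rcases hg with rfl | rfl
    · exact hF
    · exact hf) []
  have e : (fun u => gc (w u) (F u) (f u)) = fun u => cm ([] ++ [F, f].map fun g => g u) (w u) := by
    funext u
    rw [gc_eq_cm]
    rfl
  rw [e]
  exact h

theorem meas_gmX {w f : Ω → X → ℝ} (hw : Measurable w) (hf : Measurable f) : Measurable fun u => gm (w u) (f u) := by
  have h := meas_cm hw [f] (fun g hg => by rw [List.mem_singleton.1 hg]; exact hf) []
  have e : (fun u => gm (w u) (f u)) = fun u => cm ([] ++ [f].map fun g => g u) (w u) := by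
    funext u
    rw [gm_eq_cm]
    rfl
  rw [e]
  exact h

theorem meas_cEX (p : X → Y) {w F : Ω → X → ℝ} (hw : Measurable w) (hF : Measurable F) : Measurable fun u => cE (w u) p (F u) := by
  have h := meas_cj (pr_surj p) hw [F] (fun g hg => by rw [List.mem_singleton.1 hg]; exact hF)
  refine measurable_pi_lambda _ fun x => ?_
  have e : (fun u => cE (w u) p (F u) x) = fun u => cj (pr p) ([F].map fun g => g u) (w u) (pr p x) := by
    funext u
    exact (cj_one_apply p (w u) (F u) x).symm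
  rw [e]
  exact (measurable_pi_apply (pr p x)).comp h

theorem meas_cCX (p : X → Y) {w F G : Ω → X → ℝ} (hw : Measurable w) (hF : Measurable F) (hG : Measurable G) :
    Measurable fun u => cC (w u) p (F u) (G u) := by
  unfold cC
  exact (meas_cEX p hw (hF.mul hG)).sub ((meas_cEX p hw hF).mul (meas_cEX p hw hG))

end Meas

theorem abs_gm_le_X (w : X → ℝ) {f : X → ℝ} {M : ℝ} (hf : ∀ x, |f x| ≤ M) : |gm w f| ≤ M := by
  refine (abs_gm_le w f).trans ((gm_mono w (g := fun _ => M) hf).trans (le_of_eq (gm_const w M)))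

theorem abs_gc_le_X (w : X → ℝ) {F f : X → ℝ} {K M : ℝ} (hF : ∀ x, |F x| ≤ K) (hf : ∀ x, |f x| ≤ M) :
    |gc w F f| ≤ 2 * (K * M) := by
  obtain ⟨x⟩ := (inferInstance : Nonempty X)
  have hK : 0 ≤ K := (abs_nonneg _).trans (hF x)
  have hM : 0 ≤ M := (abs_nonneg _).trans (hf x)
  have h1 : |gm w (F * f)| ≤ K * M := abs_gm_le_X w fun x => by
    rw [Pi.mul_apply, abs_mul]
    exact mul_le_mul (hF x) (hf x) (abs_nonneg _) hK
  have h2 : |gm w F * gm w f| ≤ K * M := by
    rw [abs_mul]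
    exact mul_le_mul (abs_gm_le_X w hF) (abs_gm_le_X w hf) (abs_nonneg _) hK
  unfold gc
  exact (abs_sub _ _).trans (by linarith)

theorem abs_cE_le_X (w : X → ℝ) (p : X → Y) {f : X → ℝ} {M : ℝ} (hf : ∀ x, |f x| ≤ M) (x : X) : |cE w p f x| ≤ M := by
  have h1 := cE_mono w p (f := f) (g := fun _ => M) (fun x => (abs_le.1 (hf x)).2) x
  have h2 := cE_mono w p (f := fun _ => -M) (g := f) (fun x => (abs_le.1 (hf x)).1) x
  have e1 : cE w p (fun _ => M) = fun _ => M := cE_of_meas w (fun _ _ _ => rfl)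
  have e2 : cE w p (fun _ => -M) = fun _ => -M := cE_of_meas w (fun _ _ _ => rfl)
  rw [e1] at h1
  rw [e2] at h2
  exact abs_le.2 ⟨h2, h1⟩

theorem abs_cC_le_X (w : X → ℝ) (p : X → Y) {f g : X → ℝ} {K M : ℝ} (hf : ∀ x, |f x| ≤ K) (hg : ∀ x, |g x| ≤ M) (x : X) :
    |cC w p f g x| ≤ 2 * (K * M) := by
  have hK : 0 ≤ K := (abs_nonneg _).trans (hf x)
  have h1 : |cE w p (f * g) x| ≤ K * M := abs_cE_le_X w p (fun x => by
    rw [Pi.mul_apply, abs_mul]
    exact mul_le_mul (hf x) (hg x) (abs_nonneg _) hK) x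
  have h2 : |cE w p f x * cE w p g x| ≤ K * M := by
    rw [abs_mul]
    exact mul_le_mul (abs_cE_le_X w p hf x) (abs_cE_le_X w p hg x) (abs_nonneg _) hK
  show |cE w p (f * g) x - cE w p f x * cE w p g x| ≤ _
  exact (abs_sub _ _).trans (by linarith)

theorem abs_DX_le {q : X → Y} {M : ℝ} (hM : 0 ≤ M) {N : ℕ} (w C : X → ℝ) (hC : ∀ x, |C x| ≤ M) (ls : List (List (X → ℝ)))
    {f : X → ℝ} (hq : Mp q f) (hN : ls.length + 2 ≤ N)
    (hls : ∀ gs ∈ ls, gs ≠ [] ∧ gs.length + 1 ≤ N ∧ ∀ g ∈ gs, ∀ x, |g x| ≤ M) (hf : ∀ x, |f x| ≤ M) :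
    |DX q w C ls [f]| ≤ (ls.length + 1) * CB N M := by
  rw [one_dsc hq, DX_eq]
  exact abs_DJ_le (pr_surj q) hM w C hC ls _ (by simp only [List.length_cons, List.length_nil]; omega) hls fun F hF => by
    rw [List.mem_singleton.1 hF]
    exact abs_dsc_le q hf

/-! ### In expectation -/

section Exp

variable {Ω : Type*} [MeasurableSpace Ω] (P : Measure Ω) [IsProbabilityMeasure P]

/-- The integral over `t` of a bounded family is integrable. -/
theorem int_Ioc44 {Ψ : ℝ → Ω → ℝ} {c : ℝ → ℝ} {K : ℝ} (hc : ∀ ω, Continuous fun t => Ψ t ω) (hm : ∀ t, Measurable (Ψ t))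
    (hK : ∀ t ω, |Ψ t ω| ≤ K) (hcc : Continuous c) : Integrable (fun ω => ∫ t in (-1 : ℝ)..1, c t * Ψ t ω) P := by
  have hu : Measurable (Function.uncurry fun (t : ℝ) (ω : Ω) => Ψ t ω) :=
    measurable_uncurry_of_continuous_of_measurable hc hm
  have hq : Measurable fun q : Ω × ℝ => c q.2 * Ψ q.2 q.1 :=
    (hcc.measurable.comp measurable_snd).mul (hu.comp (measurable_snd.prodMk measurable_fst))
  refine Integrable.of_bound (C := (∫ t in (-1 : ℝ)..1, |c t|) * |K|) ?_ (Eventually.of_forall fun ω => ?_)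
  · simp_rw [intervalIntegral.integral_of_le (show (-1 : ℝ) ≤ 1 by norm_num)]
    exact (hq.stronglyMeasurable.integral_prod_right').aestronglyMeasurable
  · rw [Real.norm_eq_abs, ← intervalIntegral.integral_mul_const]
    refine (intervalIntegral.abs_integral_le_integral_abs (by norm_num)).trans ?_
    refine intervalIntegral.integral_mono_on (by norm_num) (Continuous.intervalIntegrable ((hcc.mul (hc ω)).abs) _ _)
      (Continuous.intervalIntegrable (by fun_prop) _ _) fun t _ => ?_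
    rw [abs_mul]
    exact mul_le_mul_of_nonneg_left ((hK t ω).trans (le_abs_self _)) (abs_nonneg _)

theorem int_of_bdd44 {Ψ : Ω → ℝ} (hm : Measurable Ψ) {K : ℝ} (hK : ∀ ω, |Ψ ω| ≤ K) : Integrable Ψ P :=
  Integrable.of_bound hm.aestronglyMeasurable K (Eventually.of_forall fun ω => by rw [Real.norm_eq_abs]; exact hK ω)

theorem int_Dc44 {Ψ : ℝ → Ω → ℝ} (hm : ∀ t, Measurable (Ψ t)) {K : ℝ} (hK : ∀ t ω, |Ψ t ω| ≤ K) :
    Integrable (fun ω => Dc fun t => Ψ t ω) P := by
  unfold Dc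
  exact ((int_of_bdd44 P (hm 1) (hK 1)).sub (int_of_bdd44 P (hm (-1)) (hK (-1)))).div_const 2

theorem Dc_int44 {Ψ : ℝ → Ω → ℝ} (hm : ∀ t, Measurable (Ψ t)) {K : ℝ} (hK : ∀ t ω, |Ψ t ω| ≤ K) :
    ∫ ω, Dc (fun t => Ψ t ω) ∂P = Dc fun t => ∫ ω, Ψ t ω ∂P := by
  unfold Dc
  rw [MeasureTheory.integral_div, MeasureTheory.integral_sub (int_of_bdd44 P (hm 1) (hK 1)) (int_of_bdd44 P (hm (-1)) (hK (-1)))]

/-- **The row identity in expectation**, `t` outside of the expectation: E1, E2, E2a, E2b, T. -/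
theorem E_four44 {q : X → Y'} {p : X → Y} (hc : Crs q p) {γ g w f : Ω → X → ℝ} (mγ : Measurable γ) (mg : Measurable g)
    (mw : Measurable w) (mf : Measurable f) (hf : ∀ ω, Mp q (f ω)) {M : ℝ} (hM : 0 ≤ M) (bγ : ∀ ω x, |γ ω x| ≤ M)
    (bg : ∀ ω x, |g ω x| ≤ M) (bf : ∀ ω x, |f ω x| ≤ M) :
    (∫ ω, Ac (fun a => gc (w ω + a • g ω) (Zr (w ω + a • g ω) p a (γ ω)) (f ω)) ∂P) -
      ∫ ω, Dc (fun t => gm (w ω + t • g ω) (f ω)) ∂P =
      (1 / 4) * (∫ t in (-1 : ℝ)..1, (1 - t ^ 2) * ∫ ω, DX q (w ω + t • g ω) (g ω) [[γ ω], [g ω]] [f ω] ∂P) -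
      (1 / 12) * (∫ t in (-1 : ℝ)..1, t * (1 - t ^ 2) * ∫ ω, D2X q (w ω + t • g ω) (g ω) (γ ω) (g ω) [f ω] ∂P) +
      Mc (fun t => ∫ ω, gc (w ω + t • g ω) (γ ω - g ω) (f ω) ∂P) +
      1 / 3 * Dc (fun a => ∫ ω, gc (w ω + a • g ω) (cC (w ω + a • g ω) q (γ ω) (g ω - γ ω)) (f ω) ∂P) +
      1 / 3 * Dc (fun a => ∫ ω, gc (w ω + a • g ω) (cV (w ω + a • g ω) q (cE (w ω + a • g ω) p (γ ω))) (f ω) ∂P) := by
  have mwt : ∀ t : ℝ, Measurable fun ω => w ω + t • g ω := fun t => meas_line mg mw t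
  have hl : ∀ ω, ∀ F ∈ [f ω], Mp q F := fun ω F hF => by rw [List.mem_singleton.1 hF]; exact hf ω
  -- E1
  have c1 : ∀ ω, Continuous fun t : ℝ => DX q (w ω + t • g ω) (g ω) [[γ ω], [g ω]] [f ω] := fun ω =>
    (continuous_DX (g ω) _ (hl ω)).comp (continuous_line (w ω) (g ω))
  have m1 : ∀ t : ℝ, Measurable fun ω => DX q (w ω + t • g ω) (g ω) [[γ ω], [g ω]] [f ω] := fun t =>
    meas_DX (mwt t) mg [[γ], [g]] (fun a ha b hb => by
      simp only [List.mem_cons, List.not_mem_nil, or_false] at ha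
      rcases ha with rfl | rfl
      · rw [List.mem_singleton.1 hb]; exact mγ
      · rw [List.mem_singleton.1 hb]; exact mg) mf hf
  have b1 : ∀ (t : ℝ) (ω : Ω), |DX q (w ω + t • g ω) (g ω) [[γ ω], [g ω]] [f ω]| ≤ 3 * CB 4 M := fun t ω => by
    refine (abs_DX_le hM (N := 4) _ _ (bg ω) _ (hf ω) (by simp) (fun a ha => ?_) (bf ω)).trans (le_of_eq ?_)
    · simp only [List.mem_cons, List.not_mem_nil, or_false] at ha
      rcases ha with rfl | rfl
      · exact ⟨by simp, by simp, fun b hb => by rw [List.mem_singleton.1 hb]; exact bγ ω⟩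
      · exact ⟨by simp, by simp, fun b hb => by rw [List.mem_singleton.1 hb]; exact bg ω⟩
    · simp only [List.length_cons, List.length_nil]
      push_cast
      ring
  -- E2
  have c2 : ∀ ω, Continuous fun t : ℝ => D2X q (w ω + t • g ω) (g ω) (γ ω) (g ω) [f ω] := fun ω =>
    ((continuous_DX (g ω) _ (hl ω)).comp (continuous_line (w ω) (g ω))).add
      ((continuous_DX (g ω) _ (hl ω)).comp (continuous_line (w ω) (g ω)))
  have m2 : ∀ t : ℝ, Measurable fun ω => D2X q (w ω + t • g ω) (g ω) (γ ω) (g ω) [f ω] := fun t => by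
    have h1 := meas_DX (q := q) (mwt t) mg [[g], [γ, g]] (fun a ha b hb => by
      simp only [List.mem_cons, List.not_mem_nil, or_false] at ha
      rcases ha with rfl | rfl
      · rw [List.mem_singleton.1 hb]; exact mg
      · simp only [List.mem_cons, List.not_mem_nil, or_false] at hb
        rcases hb with rfl | rfl
        · exact mγ
        · exact mg) mf hf
    have h2 := meas_DX (q := q) (mwt t) mg [[g, γ, g]] (fun a ha b hb => by
      rw [List.mem_singleton.1 ha] at hb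
      simp only [List.mem_cons, List.not_mem_nil, or_false] at hb
      rcases hb with rfl | rfl | rfl
      · exact mg
      · exact mγ
      · exact mg) mf hf
    exact h1.add h2
  have b2 : ∀ (t : ℝ) (ω : Ω), |D2X q (w ω + t • g ω) (g ω) (γ ω) (g ω) [f ω]| ≤ 5 * CB 5 M := fun t ω => by
    have h1 := abs_DX_le hM (N := 5) (w ω + t • g ω) _ (bg ω) [[g ω], [γ ω, g ω]] (hf ω) (by simp) (fun a ha => by
      simp only [List.mem_cons, List.not_mem_nil, or_false] at ha
      rcases ha with rfl | rfl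
      · exact ⟨by simp, by simp, fun b hb => by rw [List.mem_singleton.1 hb]; exact bg ω⟩
      · refine ⟨by simp, by simp, fun b hb => ?_⟩
        simp only [List.mem_cons, List.not_mem_nil, or_false] at hb
        rcases hb with rfl | rfl
        · exact bγ ω
        · exact bg ω) (bf ω)
    have h2 := abs_DX_le hM (N := 5) (w ω + t • g ω) _ (bg ω) [[g ω, γ ω, g ω]] (hf ω) (by simp) (fun a ha => by
      rw [List.mem_singleton.1 ha]
      refine ⟨by simp, by simp, fun b hb => ?_⟩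
      simp only [List.mem_cons, List.not_mem_nil, or_false] at hb
      rcases hb with rfl | rfl | rfl
      · exact bg ω
      · exact bγ ω
      · exact bg ω) (bf ω)
    unfold D2X
    refine (abs_add_le _ _).trans ((add_le_add h1 h2).trans (le_of_eq ?_))
    simp only [List.length_cons, List.length_nil]
    push_cast
    ring
  -- E2a
  have mgc : ∀ (t : ℝ) {F : Ω → X → ℝ}, Measurable F → Measurable fun ω => gc (w ω + t • g ω) (F ω) (f ω) :=
    fun t F hF => meas_gcX (mwt t) hF mf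
  have c3 : ∀ ω, Continuous fun t : ℝ => gc (w ω + t • g ω) (γ ω - g ω) (f ω) := fun ω => by
    simp_rw [gc_eq_cm]
    exact (cm_continuous _).comp (continuous_line (w ω) (g ω))
  have m3 : ∀ t : ℝ, Measurable fun ω => gc (w ω + t • g ω) (γ ω - g ω) (f ω) := fun t => mgc t (mγ.sub mg)
  have b3 : ∀ (t : ℝ) (ω : Ω), |gc (w ω + t • g ω) (γ ω - g ω) (f ω)| ≤ 2 * ((2 * M) * M) := fun t ω =>
    abs_gc_le_X _ (fun x => (abs_sub _ _).trans (by linarith [bγ ω x, bg ω x])) (bf ω)
  -- E2b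
  have m4 : ∀ t : ℝ, Measurable fun ω => gc (w ω + t • g ω) (cC (w ω + t • g ω) q (γ ω) (g ω - γ ω)) (f ω) := fun t =>
    mgc t (meas_cCX q (mwt t) mγ (mg.sub mγ))
  have b4 : ∀ (t : ℝ) (ω : Ω), |gc (w ω + t • g ω) (cC (w ω + t • g ω) q (γ ω) (g ω - γ ω)) (f ω)| ≤
      2 * ((2 * (M * (2 * M))) * M) := fun t ω =>
    abs_gc_le_X _ (fun x => abs_cC_le_X _ q (bγ ω) (fun x => (abs_sub _ _).trans (by linarith [bγ ω x, bg ω x])) x) (bf ω)
  -- T
  have m5 : ∀ t : ℝ, Measurable fun ω => gc (w ω + t • g ω) (cV (w ω + t • g ω) q (cE (w ω + t • g ω) p (γ ω))) (f ω) :=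
    fun t => mgc t (meas_cCX q (mwt t) (meas_cEX p (mwt t) mγ) (meas_cEX p (mwt t) mγ))
  have b5 : ∀ (t : ℝ) (ω : Ω), |gc (w ω + t • g ω) (cV (w ω + t • g ω) q (cE (w ω + t • g ω) p (γ ω))) (f ω)| ≤
      2 * ((2 * (M * M)) * M) := fun t ω =>
    abs_gc_le_X _ (fun x => abs_cC_le_X _ q (abs_cE_le_X _ p (bγ ω)) (abs_cE_le_X _ p (bγ ω)) x) (bf ω)
  -- the mean of f
  have m0 : ∀ t : ℝ, Measurable fun ω => gm (w ω + t • g ω) (f ω) := fun t => meas_gmX (mwt t) mf
  have b0 : ∀ (t : ℝ) (ω : Ω), |gm (w ω + t • g ω) (f ω)| ≤ M := fun t ω => abs_gm_le_X _ (bf ω)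
  have hA : ∀ ω, Ac (fun a => gc (w ω + a • g ω) (Zr (w ω + a • g ω) p a (γ ω)) (f ω)) = _ := fun ω =>
    four44 (γ ω) (g ω) (w ω) hc (hf ω)
  simp_rw [hA]
  have i0 := int_Dc44 P m0 b0
  have i1 := (int_Ioc44 P c1 m1 b1 (c := fun t => 1 - t ^ 2) (by fun_prop)).const_mul (1 / 4)
  have i2 := (int_Ioc44 P c2 m2 b2 (c := fun t => t * (1 - t ^ 2)) (by fun_prop)).const_mul (1 / 12)
  have i3 : Integrable (fun ω => Mc (fun t => gc (w ω + t • g ω) (γ ω - g ω) (f ω))) P := by
    have := (int_Ioc44 P c3 m3 b3 (c := fun _ => 1) continuous_const).const_mul (1 / 2)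
    simp only [one_mul] at this
    exact this
  have i4 := (int_Dc44 P m4 b4).const_mul (1 / 3)
  have i5 := (int_Dc44 P m5 b5).const_mul (1 / 3)
  have j3 : ∫ ω, Mc (fun t => gc (w ω + t • g ω) (γ ω - g ω) (f ω)) ∂P =
      Mc (fun t => ∫ ω, gc (w ω + t • g ω) (γ ω - g ω) (f ω) ∂P) := by
    have h := int_swap44 P c3 m3 b3 (c := fun _ => 1) continuous_const (by norm_num : (-1 : ℝ) ≤ 1)
    simp only [one_mul] at h
    unfold Mc
    rw [MeasureTheory.integral_const_mul, h]
  have a1 : Integrable (fun ω => Dc (fun t => gm (w ω + t • g ω) (f ω)) +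
      Mc (fun t => gc (w ω + t • g ω) (γ ω - g ω) (f ω))) P := i0.add i3
  have a2 := a1.add i1
  have a3 := a2.sub i2
  have a4 := a3.add i4
  have k5 := MeasureTheory.integral_add a4 i5
  have k4 := MeasureTheory.integral_add a3 i4
  have k3 := MeasureTheory.integral_sub a2 i2
  have k2 := MeasureTheory.integral_add a1 i1
  have k1 := MeasureTheory.integral_add i0 i3
  simp only [Pi.add_apply, Pi.sub_apply] at k5 k4 k3 k2
  rw [k5, k4, k3, k2, k1, j3, MeasureTheory.integral_const_mul, MeasureTheory.integral_const_mul,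
    MeasureTheory.integral_const_mul, MeasureTheory.integral_const_mul, Dc_int44 P m4 b4, Dc_int44 P m5 b5,
    int_swap44 P c1 m1 b1 (c := fun t => 1 - t ^ 2) (by fun_prop) (by norm_num : (-1 : ℝ) ≤ 1),
    int_swap44 P c2 m2 b2 (c := fun t => t * (1 - t ^ 2)) (by fun_prop) (by norm_num : (-1 : ℝ) ≤ 1)]
  ring

end Exp

end

end Pool.W7d29a1.C0
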