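import Pool.Agent.W_7d29a1_C0.FldP63
import Pool.Agent.W_7d29a1_C0.CrossW81
import Pool.Agent.W_7d29a1_C0.Base5
import Pool.Agent.W_7d29a1_C0.Cr59
import Pool.Agent.W_7d29a1_C0.Row44
import Pool.Agent.W_7d29a1_C0.E1B19

/-!
CURV0 (MP_7d29a1_pr, helper82): THE MODEL LINK OF (E1). At a fixed set of signs `A` the kick `gg b0`, the exact response of the window of
base `b` to it (`gb81`) and the tilt of the weights `wj` are functions of the past of the end of the window (`UM`, `HM`, `XM`, `Past`), so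
the bounds of (E1) at fixed signs apply (`dt_row`); the mean over the signs (`AvA`, `Gd.av`). The row bound itself is in `E1R82`.
-/

set_option autoImplicit false
set_option linter.unusedSectionVars false
set_option linter.unusedVariables false

namespace Pool.Agent.W_7d29a1_C0.E1M82

open Finset MeasureTheory Pool.Agent.W_7d29a1_F Pool.Agent.W_7d29a1_X Pool.Agent.W_7d29a1_H
open Pool.Agent.W_7d29a1_C0.Mod92 Pool.Agent.W_7d29a1_C0.Base5 Pool.Agent.W_7d29a1_C0
open Pool.Agent.W_7d29a1_C0.Blk18 (Full full_Pn)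
open Pool.Agent.W_7d29a1_C0.FP63 (WF Rd gf tf wf_gf wf_tf at2 lA lA_tf at2_gf cE_pm abs_pm_le pm_blind meas_pw)
open Pool.W7d29a1.C0 (gz gm lse Mc gb81 gb81_apply rep DX meas_DX abs_DX_le CB avN)
open Pool.W7d29a1.C0.E1A
open Pool.W7d29a1.C0.VT31 Pool.Agent.W_7d29a1_C0.H32 Pool.Agent.W_7d29a1_C0.Swap57 Pool.Agent.W_7d29a1_C0.NM82
open Pool.W7d29a1.C0.H41
open Pool.W7d29a1.C0.Fld19 (Past wU GQ gq_Pn)

noncomputable section

variable {μ : Measure ℝ} {s : ℝ} {N : ℕ}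

/-! ### Window functionals as functions of the past -/

/-- A functional of the trajectory as a function of the set of the steps. -/
def at0 (G : Env → (ℕ → ℤ) → ℝ) (η : Env) (S : Finset ℕ) : ℝ := G η (pos S)

theorem pos_cut (S : Finset ℕ) {r c : ℕ} (h : r ≤ c) : pos (S ∩ range c) r = pos S r := by
  unfold pos
  rw [inter_assoc, inter_eq_right.2 (range_subset_range.2 h)]

theorem past_at0 {al be c : ℕ} {D : ℝ} {G : Env → (ℕ → ℤ) → ℝ} (h : WF al be D G) (hbe : be ≤ c) : Past c (at0 G) where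
  cut η S := h.rd η _ _ fun r _ hr => (pos_cut S (hr.trans hbe)).symm
  bl η S r x hr := by
    show G (Function.update η r x) (pos S) = G η (pos S)
    rw [h.blind η r x (Or.inr (by omega))]
  ms S := h.meas _

/-! ### The exact response -/

/-- The exact response of the window of base `b` of the row `j` to the kick of base `b0`, as a functional of the trajectory. -/
def xf (μ : Measure ℝ) (s : ℝ) (δ B : ℝ) (b0 b j : ℕ) (a : ℤ) (η : Env) (f : ℕ → ℤ) : ℝ :=
  Mc fun u => FP63.pm μ s (tf μ s δ B b0 j a u) (gf μ s δ B b0 j a) (j - b) (j + b) (f (j - b)) (f (j + b)) η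

theorem meas_pm2 (δ B : ℝ) (b0 j : ℕ) {a : ℤ} (ha : |(a : ℝ)| ≤ 1) (hB : 0 ≤ B) (c m : ℕ) (x y : ℤ) :
    Measurable fun p : Env × ℝ => FP63.pm μ s (tf μ s δ B b0 j a p.2) (gf μ s δ B b0 j a) c m x y p.1 := by
  have hg : ∀ f, Measurable fun p : Env × ℝ => gf μ s δ B b0 j a p.1 f := fun f =>
    ((wf_gf (μ := μ) (s := s) hB δ b0 j ha).meas f).comp measurable_fst
  have ht : ∀ f, Measurable fun p : Env × ℝ => Real.exp (tf μ s δ B b0 j a p.2 p.1 f) := fun f =>
    ((measurable_snd.sub_const _).mul (hg f)).exp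
  unfold FP63.pm FP63.nm
  refine Measurable.div (Finset.measurable_fun_sum _ fun T _ => ?_) (Finset.measurable_fun_sum _ fun T _ => ?_)
  · split_ifs
    · exact ((meas_pw c m x T).comp measurable_fst).mul ((ht _).mul (hg _))
    · exact measurable_const
  · split_ifs
    · exact ((meas_pw c m x T).comp measurable_fst).mul ((ht _).mul measurable_const)
    · exact measurable_const

theorem abs_Mc_le {φ : ℝ → ℝ} {K : ℝ} (h : ∀ u, |φ u| ≤ K) : |Mc φ| ≤ K := by
  unfold Mc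
  have h1 := intervalIntegral.norm_integral_le_of_norm_le_const (a := (-1 : ℝ)) (b := 1) (f := φ) (C := K) fun t _ => by
    rw [Real.norm_eq_abs]
    exact h t
  rw [Real.norm_eq_abs] at h1
  have e : |(1 : ℝ) - -1| = 2 := by norm_num
  rw [e] at h1
  rw [abs_mul, abs_of_pos (by norm_num : (0 : ℝ) < 1 / 2)]
  linarith

/-- **The exact response is a window functional.** -/
theorem wf_xf {B : ℝ} (hB : 0 ≤ B) (δ : ℝ) {b0 b : ℕ} (hb : b0 ≤ b) (j : ℕ) {a : ℤ} (ha : |(a : ℝ)| ≤ 1) :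
    WF (j - b) (j + b) (B / 2) (xf μ s δ B b0 b j a) where
  meas := fun f => by
    unfold xf Mc
    refine Measurable.const_mul ?_ _
    simp_rw [intervalIntegral.integral_of_le (show (-1 : ℝ) ≤ 1 by norm_num)]
    exact ((meas_pm2 (μ := μ) (s := s) δ B b0 j ha hB (j - b) (j + b) _ _).stronglyMeasurable.integral_prod_right').measurable
  rd := fun η f g hfg => by
    unfold xf
    rw [hfg _ le_rfl (by omega), hfg _ (by omega) le_rfl]
  blind := fun η p t hp => by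
    funext f
    unfold xf
    congr 1
    funext u
    have h1 : p.1 ≤ ((j - b0 : ℕ) : ℤ) ∨ ((j + b0 : ℕ) : ℤ) < p.1 := by
      rcases hp with h | h
      · left
        have : ((j - b : ℕ) : ℤ) ≤ ((j - b0 : ℕ) : ℤ) := by exact_mod_cast Nat.sub_le_sub_left hb j
        omega
      · right
        push_cast at h ⊢
        have : (b0 : ℤ) ≤ b := by exact_mod_cast hb
        omega
    refine pm_blind (hp.imp id fun h => h.le) ?_ ?_ _ _
    · exact (wf_tf (μ := μ) (s := s) hB δ b0 j ha u).blind η p t h1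
    · exact (wf_gf (μ := μ) (s := s) hB δ b0 j ha).blind η p t h1
  bd := fun η f => abs_Mc_le fun u => abs_pm_le (by positivity) (fun f => (wf_gf (μ := μ) (s := s) hB δ b0 j ha).bd η f) _ _

/-- **The exact response of the model.** -/
theorem gb_eq {Q : Finset (Finset ℕ)} [Nonempty (Px Q)] (hQ : Full N Q) {B : ℝ} (hB : 0 ≤ B) (δ : ℝ) {b0 b : ℕ} (hb : b0 ≤ b) {j : ℕ} (hj : j + b ≤ N)
    (ω : Env × Finset ℕ) (S : Px Q) :
    gb81 (w5 μ s N Q δ B b0 ω j) (gg μ s Q δ B b0 ω j) (pW b j) S = xf μ s δ B b0 b j (sg ω.2 j) ω.1 (ps S) := by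
  rw [gb81_apply]
  unfold xf
  congr 1
  funext u
  rw [w5_add]
  have ha : |((sg ω.2 j : ℤ) : ℝ)| ≤ 1 := (abs_sg _ _).le
  have h1 := cE_pm (μ := μ) (s := s) hQ (wf_tf (μ := μ) (s := s) hB δ b0 j ha u).rd (wf_gf (μ := μ) (s := s) hB δ b0 j ha).rd ω.1
    (show j - b ≤ j + b by omega) (show j - b ≤ j - b0 by omega) (show j + b0 ≤ j + b by omega) hj S
  rw [lA_tf, at2_gf] at h1
  exact h1

/-! ### The data at fixed signs -/

/-- The tilt. -/
def UM (μ : Measure ℝ) (s : ℝ) (δ B : ℝ) (b0 j : ℕ) (A : Finset ℕ) (t : ℝ) : Env → Finset ℕ → ℝ := at0 (tf μ s δ B b0 j (sg A j) t)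

/-- The kick. -/
def HM (μ : Measure ℝ) (s : ℝ) (δ B : ℝ) (b0 j : ℕ) (A : Finset ℕ) : Env → Finset ℕ → ℝ := at0 (gf μ s δ B b0 j (sg A j))

/-- The exact response. -/
def XM (μ : Measure ℝ) (s : ℝ) (δ B : ℝ) (b0 b j : ℕ) (A : Finset ℕ) : Env → Finset ℕ → ℝ := at0 (xf μ s δ B b0 b j (sg A j))

section data

variable {B : ℝ} (hB : 0 ≤ B) (δ : ℝ) {b0 b j c : ℕ} (A : Finset ℕ)

include hB

theorem past_UM (hj : j + b0 ≤ c) (t : ℝ) : Past c (UM μ s δ B b0 j A t) :=
  past_at0 (wf_tf (μ := μ) (s := s) hB δ b0 j (abs_sg A j).le t) hj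

theorem past_HM (hj : j + b0 ≤ c) : Past c (HM μ s δ B b0 j A) := past_at0 (wf_gf (μ := μ) (s := s) hB δ b0 j (abs_sg A j).le) hj

theorem past_XM (hb : b0 ≤ b) (hj : j + b ≤ c) : Past c (XM μ s δ B b0 b j A) :=
  past_at0 (wf_xf (μ := μ) (s := s) hB δ hb j (abs_sg A j).le) hj

theorem abs_UM {t : ℝ} (ht : t ∈ Set.Icc (-1 : ℝ) 1) (η : Env) (S : Finset ℕ) : |UM μ s δ B b0 j A t η S| ≤ B := by
  refine ((wf_tf (μ := μ) (s := s) hB δ b0 j (abs_sg A j).le t).bd η _).trans ?_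
  have h1 : |t - (sg A j : ℤ)| ≤ 2 := by
    have h2 := (abs_sg A j).le
    rw [abs_le] at h2 ⊢
    constructor <;> linarith [ht.1, ht.2, h2.1, h2.2]
  nlinarith

theorem abs_HM (η : Env) (S : Finset ℕ) : |HM μ s δ B b0 j A η S| ≤ B / 2 :=
  (wf_gf (μ := μ) (s := s) hB δ b0 j (abs_sg A j).le).bd η _

theorem abs_XM (hb : b0 ≤ b) (η : Env) (S : Finset ℕ) : |XM μ s δ B b0 b j A η S| ≤ B / 2 :=
  (wf_xf (μ := μ) (s := s) hB δ hb j (abs_sg A j).le).bd η _

end data

/-- The weights of the row. -/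
theorem wU_UM {Q : Finset (Finset ℕ)} (δ B : ℝ) (b0 j : ℕ) (A : Finset ℕ) (t : ℝ) (η : Env) :
    wU μ s N Q (UM μ s δ B b0 j A t) η = wj μ s N Q δ B b0 j (η, A) t := rfl

theorem HM_eq {Q : Finset (Finset ℕ)} (δ B : ℝ) (b0 j : ℕ) (A : Finset ℕ) (η : Env) :
    (fun S : Px Q => HM μ s δ B b0 j A η S.1) = gg μ s Q δ B b0 (η, A) j := rfl

theorem XM_eq {Q : Finset (Finset ℕ)} [Nonempty (Px Q)] (hQ : Full N Q) {B : ℝ} (hB : 0 ≤ B) (δ : ℝ) {b0 b : ℕ} (hb : b0 ≤ b) {j : ℕ} (hj : j + b ≤ N)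
    (A : Finset ℕ) (η : Env) : (fun S : Px Q => XM μ s δ B b0 b j A η S.1) =
      gb81 (w5 μ s N Q δ B b0 (η, A) j) (gg μ s Q δ B b0 (η, A) j) (pW b j) :=
  funext fun S => (gb_eq hQ hB δ hb hj (η, A) S).symm

/-! ### The mean over the signs -/

/-- The mean over the sets of signs. -/
def AvA (N : ℕ) (φ : Finset ℕ → ℝ) : ℝ := (2 ^ N : ℝ)⁻¹ * ∑ A ∈ (range N).powerset, φ A

theorem AvA_add (φ ψ : Finset ℕ → ℝ) : AvA N (fun A => φ A + ψ A) = AvA N φ + AvA N ψ := by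
  unfold AvA
  rw [sum_add_distrib, mul_add]

theorem AvA_mul (k : ℝ) (φ : Finset ℕ → ℝ) : AvA N (fun A => k * φ A) = k * AvA N φ := by
  unfold AvA
  rw [← mul_sum]
  ring

theorem AvA_const (k : ℝ) : AvA N (fun _ => k) = k := by
  unfold AvA
  rw [sum_const, card_powerset, card_range, nsmul_eq_mul]
  push_cast
  rw [← mul_assoc, inv_mul_cancel₀ (by positivity), one_mul]

theorem AvA_sum {ι : Type*} (I : Finset ι) (φ : ι → Finset ℕ → ℝ) : AvA N (fun A => ∑ i ∈ I, φ i A) = ∑ i ∈ I, AvA N (φ i) := by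
  unfold AvA
  rw [sum_comm, mul_sum]

theorem abs_AvA_le {φ ψ : Finset ℕ → ℝ} (h : ∀ A, |φ A| ≤ ψ A) : |AvA N φ| ≤ AvA N ψ := by
  unfold AvA
  rw [abs_mul, abs_of_pos (by positivity : (0 : ℝ) < (2 ^ N : ℝ)⁻¹)]
  exact mul_le_mul_of_nonneg_left ((abs_sum_le_sum_abs _ _).trans (sum_le_sum fun A _ => h A)) (by positivity)

/-- Bounded functionals with measurable slices. -/
structure Gd (Φ : Env × Finset ℕ → ℝ) : Prop where
  ms : ∀ A, Measurable fun η => Φ (η, A)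
  bd : ∃ K, ∀ ω, |Φ ω| ≤ K

theorem Gd.int [IsProbabilityMeasure μ] {Φ : Env × Finset ℕ → ℝ} (h : Gd Φ) (A : Finset ℕ) :
    Integrable (fun η => Φ (η, A)) (law μ) := by
  obtain ⟨K, hK⟩ := h.bd
  exact Integrable.of_bound (h.ms A).aestronglyMeasurable K (ae_of_all _ fun η => by rw [Real.norm_eq_abs]; exact hK _)

theorem Gd.av [IsProbabilityMeasure μ] {Φ : Env × Finset ℕ → ℝ} (h : Gd Φ) :
    ∫ ω, Φ ω ∂(Pm μ N) = AvA N fun A => ∫ η, Φ (η, A) ∂(law μ) := int_Pm (fun A _ => h.int A) h.ms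

theorem gd_rep {Q : Finset (Finset ℕ)} [Nonempty (Px Q)] {m : ℕ} {w : Env × Finset ℕ → Px Q → ℝ}
    (hw : ∀ A, Measurable fun η => w (η, A)) {Ψ : Env × Finset ℕ → (Fin m → Px Q) → ℝ} {D : ℝ}
    (hΨ : ∀ A, Obs (fun η => Ψ (η, A)) D) : Gd fun ω => rep m (w ω) (Ψ ω) where
  ms A := by
    have h := meas_ev (repEv (Px Q) m) (hw A) (hΨ A).meas
    simp only [repEv_ev] at h
    exact h
  bd := ⟨D, fun ω => by
    have h := abs_ev_le_of (repEv (Px Q) m) (w ω) (fun x => (hΨ ω.2).bd ω.1 x)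
    simp only [repEv_ev] at h
    exact h⟩

/-! ### The spectators -/

theorem mp_z82 {c d : ℕ} {D : ℝ} {f : Fam N} (h : Cls59 N c d D f) {z : ℕ} (hz : z ≤ d) (y : ℕ) (ω : Env × Finset ℕ) :
    Mp (pJ (Q := Pn N y) 0 z) (f y ω) := by
  intro S S' e
  refine h.side y ω S S' ?_
  have h1 : S.1 \ Ico 0 z = S'.1 \ Ico 0 z := congrArg Prod.fst e
  have h2 : ∀ T : Finset ℕ, T \ range d = (T \ Ico 0 z) \ range d := fun T => by
    ext i
    simp only [mem_sdiff, mem_Ico, mem_range]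
    constructor
    · rintro ⟨h3, h4⟩
      exact ⟨⟨h3, fun h5 => h4 (by omega)⟩, h4⟩
    · rintro ⟨⟨h3, _⟩, h4⟩
      exact ⟨h3, h4⟩
  rw [h2 S.1, h2 S'.1, h1]

/-- The steps are told by the positions. -/
theorem mem_of_pos (S : Finset ℕ) (i : ℕ) : i ∈ S ↔ pos S (i + 1) = pos S i + 1 := by
  have h1 : S ∩ range (i + 1) = if i ∈ S then insert i (S ∩ range i) else S ∩ range i := by
    split_ifs with h
    · ext k
      simp only [mem_inter, mem_insert, mem_range]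
      constructor
      · rintro ⟨h2, h3⟩
        by_cases h4 : k = i
        · exact Or.inl h4
        · exact Or.inr ⟨h2, by omega⟩
      · rintro (h2 | ⟨h2, h3⟩)
        · subst h2
          exact ⟨h, by omega⟩
        · exact ⟨h2, by omega⟩
    · ext k
      simp only [mem_inter, mem_range]
      constructor
      · rintro ⟨h2, h3⟩
        refine ⟨h2, ?_⟩
        by_contra h4
        have : k = i := by omega
        subst this
        exact h h2
      · rintro ⟨h2, h3⟩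
        exact ⟨h2, by omega⟩
  unfold pos
  rw [h1]
  split_ifs with h
  · rw [card_insert_of_notMem fun h2 => by
      have := (mem_inter.1 h2).2
      rw [mem_range] at this
      omega]
    simp [h]
  · simp [h]

/-- The spectators read the positions behind the row `m <= d` only. -/
theorem rk_cls {c d m : ℕ} {D : ℝ} {f : Fam N} (h : Cls59 N c d D f) (hm : m ≤ d) (y : ℕ) (ω : Env × Finset ℕ) :
    Rk m (f y ω) := by
  intro S S' e
  refine h.side y ω S S' ?_
  have e1 : ∀ i, d ≤ i → (i ∈ S.1 ↔ i ∈ S'.1) := fun i hi => by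
    have h1 : pos S.1 i = pos S'.1 i := e i (by omega)
    have h2 : pos S.1 (i + 1) = pos S'.1 (i + 1) := e (i + 1) (by omega)
    rw [mem_of_pos, mem_of_pos S'.1 i, h1, h2]
  ext i
  simp only [mem_sdiff, mem_range, not_lt]
  constructor
  · rintro ⟨h1, h2⟩
    exact ⟨(e1 i h2).1 h1, h2⟩
  · rintro ⟨h1, h2⟩
    exact ⟨(e1 i h2).2 h1, h2⟩

/-! ### The row of the cross term -/

section row

variable {δ B : ℝ} {b0 b j c m0 m1 n c' d y : ℕ} {D : ℝ} {f : Fam N} {J J' : Finset ℕ}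

/-- The data of the slabs, behind the window of base `b` of the row `j`, in front of the spectator. -/
structure Slabs (N d b0 b j c m0 m1 n : ℕ) (J J' : Finset ℕ) : Prop where
  hb : b0 ≤ b
  hj : j + b ≤ c
  c1 : c ≤ m0
  c2 : m0 ≤ m1
  c3 : m1 ≤ d
  c4 : d ≤ N
  sJ : ∀ i ∈ J, c < i ∧ i ≤ m0
  sJ' : ∀ z ∈ J', m0 < z ∧ z ≤ m1
  nJ : J.card = n
  nJ' : J'.card = n
  n0 : 0 < n

theorem dt_row (hB : 0 ≤ B) (hf : Cls59 N c' d D f) (X : Slabs N d b0 b j c m0 m1 n J J') (A : Finset ℕ) (t : ℝ) :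
    Dt N (Pn N y) c m0 m1 n J J' (B / 2) D (UM μ s δ B b0 j A t) (HM μ s δ B b0 j A) (XM μ s δ B b0 b j A)
      (fun η => f y (η, A)) where
  q := gq_Pn N y
  c1 := X.c1
  c2 := X.c2
  c3 := X.c3.trans X.c4
  sJ := X.sJ
  sJ' := X.sJ'
  nJ := X.nJ
  nJ' := X.nJ'
  n0 := X.n0
  pU := past_UM hB δ A ((Nat.add_le_add_left X.hb j).trans X.hj) t
  pH := past_HM hB δ A ((Nat.add_le_add_left X.hb j).trans X.hj)
  pW := past_XM hB δ A X.hb X.hj
  bH := abs_HM hB δ A
  bW := abs_XM hB δ A X.hb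
  mF := fun S => (hf.meas y S).comp measurable_prodMk_right
  bF := fun η S => hf.bdd y (η, A) S
  rF := fun η => rk_cls hf X.c3 y (η, A)
  bl := fun η r x h1 h2 => by
    funext S
    have h3 : r.1 ≤ (d : ℤ) := h2.trans (by exact_mod_cast X.c3)
    have h4 : 0 < r.1 := lt_of_le_of_lt (Int.natCast_nonneg c) h1
    exact hf.env y η A S r.1 r.2 x h4 h3

section defs

variable (μ : Measure ℝ) (s : ℝ) (N : ℕ) (δ B : ℝ) (b0 b j : ℕ) (t : ℝ) (y : ℕ) (f : Fam N)

/-- The exact response (= `ge` of CrAsm44). -/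
def gX (ω : Env × Finset ℕ) : Px (Pn N y) → ℝ := gb81 (w5 μ s N (Pn N y) δ B b0 ω j) (gg μ s (Pn N y) δ B b0 ω j) (pW b j)

/-- The integrand of (E1) at the row `z`. -/
def e1X (z : ℕ) (ω : Env × Finset ℕ) : ℝ := DX (pJ 0 z) (wj μ s N (Pn N y) δ B b0 j ω t) (gg μ s (Pn N y) δ B b0 ω j)
  [[gX μ s N δ B b0 b j y ω], [gg μ s (Pn N y) δ B b0 ω j]] [f y ω]

/-- The micro functional with the exact response, averaged over the slab `J`. -/
def nX (J : Finset ℕ) (θ : ℝ) (ω : Env × Finset ℕ) : Px (Pn N y) → ℝ := avN (wj μ s N (Pn N y) δ B b0 j ω t) J (fun _ => θ)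
  (fun m => pJ 0 m) (gg μ s (Pn N y) δ B b0 ω j) (gX μ s N δ B b0 b j y ω)

/-- The micro functional with the kick twice. -/
def nG (J : Finset ℕ) (θ : ℝ) (ω : Env × Finset ℕ) : Px (Pn N y) → ℝ := avN (wj μ s N (Pn N y) δ B b0 j ω t) J (fun _ => θ)
  (fun m => pJ 0 m) (gg μ s (Pn N y) δ B b0 ω j) (gg μ s (Pn N y) δ B b0 ω j)

end defs

theorem abs_gb82 {X : Type*} [Fintype X] [Nonempty X] {Z : Type*} [DecidableEq Z] (w : X → ℝ) {g : X → ℝ} (q : X → Z) {M : ℝ}
    (h : ∀ x, |g x| ≤ M) (x : X) : |gb81 w g q x| ≤ M := by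
  rw [gb81_apply]
  exact abs_Mc_le fun u => Pool.W7d29a1.C0.abs_cE_le_X _ q h x

variable [Nonempty (Px (Pn N y))]

theorem XM_pt (hB : 0 ≤ B) (hb : b0 ≤ b) (hj : j + b ≤ N) (A : Finset ℕ) (η : Env) (S : Px (Pn N y)) :
    XM μ s δ B b0 b j A η S.1 = gX μ s N δ B b0 b j y (η, A) S := (gb_eq (full_Pn N y) hB δ hb hj (η, A) S).symm

theorem meas_wA (hB : 0 ≤ B) (A : Finset ℕ) (t : ℝ) : Measurable fun η => wj μ s N (Pn N y) δ B b0 j (η, A) t :=
  Pool.W7d29a1.C0.Fld19.measurable_wU (μ := μ) (s := s) (N := N) (Q := Pn N y) (past_UM (μ := μ) (s := s) (b0 := b0) (j := j) hB δ A le_rfl t)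

theorem gd_e1X (hB : 0 ≤ B) (hb : b0 ≤ b) (hj : j + b ≤ N) (hf : Cls59 N c' d D f) {z : ℕ} (hz : z ≤ d) (t : ℝ) :
    Gd (e1X μ s N δ B b0 b j t y f z) where
  ms A := by
    have mg : Measurable fun η => gg μ s (Pn N y) δ B b0 (η, A) j := measurable_pi_lambda _ fun S =>
      (wf_gf (μ := μ) (s := s) hB δ b0 j (abs_sg A j).le).meas _
    have mγ : Measurable fun η => gX μ s N δ B b0 b j y (η, A) := measurable_pi_lambda _ fun S => by
      have h := (past_XM (μ := μ) (s := s) hB δ A hb (le_refl (j + b))).ms S.1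
      simp only [XM_pt (N := N) (y := y) hB hb hj A] at h
      exact h
    exact meas_DX (meas_wA hB A t) mg [[fun η => gX μ s N δ B b0 b j y (η, A)], [fun η => gg μ s (Pn N y) δ B b0 (η, A) j]]
      (fun a ha b hb => by
        simp only [List.mem_cons, List.not_mem_nil, or_false] at ha
        rcases ha with rfl | rfl
        · rw [List.mem_singleton.1 hb]; exact mγ
        · rw [List.mem_singleton.1 hb]; exact mg) (measurable_pi_lambda _ fun S => (hf.meas y S).comp measurable_prodMk_right)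
      fun η => mp_z82 hf hz y (η, A)
  bd := by
    have h1 : ∀ ω S, |gg μ s (Pn N y) δ B b0 ω j S| ≤ |D| + B := fun ω S => (abs_gg hB b0 ω j S).trans (by
      have := abs_nonneg D
      linarith)
    refine ⟨((2 : ℕ) + 1) * CB 4 (|D| + B), fun ω => abs_DX_le (by positivity) (N := 4) _ _ (h1 ω) _ (mp_z82 hf hz y ω) (by simp)
      (fun a ha => ?_) fun S => (hf.bdd y ω S).trans ((le_abs_self D).trans (by linarith))⟩
    simp only [List.mem_cons, List.not_mem_nil, or_false] at ha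
    rcases ha with rfl | rfl
    · exact ⟨by simp, by simp, fun b hb => by rw [List.mem_singleton.1 hb]; exact abs_gb82 _ _ (h1 ω)⟩
    · exact ⟨by simp, by simp, fun b hb => by rw [List.mem_singleton.1 hb]; exact h1 ω⟩

end row

end

end Pool.Agent.W_7d29a1_C0.E1M82
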