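import Pool.Agent.W_7d29a1_C0.CutF59
import Pool.Agent.W_7d29a1_C0.CrAsm44
import Pool.Agent.W_7d29a1_C0.E1M82

/-!
MP_7d29a1_pr, [CURV0] (helper59), leaf E2P: THE MODEL INSTANCE OF `CutF59`. The cross term of the row `j` at the tilt `t` in the plan of
three replicas (`cutG59`), and (E2), the second derivative in the tilt, as the double insertion (`fE2_eq59`). Data: the block
`[c0, z) = [j / σ * σ, (j / σ + 1) * σ)`, the base window `[j - b, j + b)`, the kick `gg b0` inside of `[j - h, j + h]`, `b0 ≤ h`, the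
spectator `f` behind the row `d` (`Cls59`), its tie on `[e, d]`, `z ≤ e ≤ d`.
-/

set_option autoImplicit false
set_option linter.unusedSectionVars false

namespace Pool.Agent.W_7d29a1_C0.CutG59

open Finset MeasureTheory Pool.Agent.W_7d29a1_F Pool.Agent.W_7d29a1_X Pool.Agent.W_7d29a1_H
open Pool.Agent.W_7d29a1_C0 Pool.Agent.W_7d29a1_C0.Mod92 Pool.Agent.W_7d29a1_C0.Swap57 Pool.Agent.W_7d29a1_C0.NM82
open Pool.Agent.W_7d29a1_C0.Base5 Pool.Agent.W_7d29a1_C0.CrA44 Pool.Agent.W_7d29a1_C0.CutF59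
open Pool.Agent.W_7d29a1_C0.CutE14 (P3 psi psR psL cutE ev_P3)
open Pool.Agent.W_7d29a1_C0.Blk18 (Full full_Pn)
open Pool.Agent.W_7d29a1_C0.E1M82 (gb_eq wf_xf rk_cls)
open Pool.W7d29a1.C0
open Pool.W7d29a1.C0.VT31
open Pool.W7d29a1.C0.I52 (Plan ker av ev ev_congr KS)

noncomputable section

variable {μ : Measure ℝ} {s : ℝ} {N : ℕ} {δ B : ℝ} {b0 b σ j : ℕ}

/-! ### The weights and the functionals of the row -/

section row

variable {Q : Finset (Finset ℕ)}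

/-- The weights of the row in all the swaps of heads behind the window of the kick. -/
theorem hd_wj59 [SwQ Q] (δ B : ℝ) (ω : Env × Finset ℕ) (t : ℝ) {m u : ℕ} (hm : j + b0 ≤ m) (hu : m ≤ u) :
    Hd (Q := Q) m u (wj μ s N Q δ B b0 j ω t) := by
  have h1 : HdAll (Q := Q) m (wj μ s N Q δ B b0 j ω t) := by
    have e : wj μ s N Q δ B b0 j ω t = lw μ s ω.1 N Q + (t - (sg ω.2 j : ℤ)) • gg μ s Q δ B b0 ω j := by
      unfold wj wt Mod92.gg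
      rfl
    rw [e]
    exact (HdAll_lw ω.1 m).add ((HdAll_Lk (Lk_gg δ B b0 j ω (Nat.zero_le _) hm)).smul _)
  exact h1 m u le_rfl hu

/-- The weights of the row in the swaps of the windows around the kick. -/
theorem wk_wj59 [SwQ Q] (δ B : ℝ) (ω : Env × Finset ℕ) (t : ℝ) {wl al be wr : ℕ} (hab : al ≤ be) (h1 : al ≤ j - b0)
    (h2 : j + b0 ≤ be) : Wk (Q := Q) wl al be wr (wj μ s N Q δ B b0 j ω t) := by
  have e : wj μ s N Q δ B b0 j ω t = lw μ s ω.1 N Q + (t - (sg ω.2 j : ℤ)) • gg μ s Q δ B b0 ω j := by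
    unfold wj wt Mod92.gg
    rfl
  rw [e]
  exact (Wk_lw ω.1 hab).add ((Lk_gg δ B b0 j ω h1 h2).Wk.smul _)

end row

variable {y : ℕ} [Nonempty (Px (Pn N y))]

/-- The exact response reads the window `[j - b, j + b]`. -/
theorem lk_ge59 (hB : 0 ≤ B) (hb : b0 ≤ b) (hj : j + b ≤ N) (ω : Env × Finset ℕ) :
    Lk (j - b) (j + b) (ge μ s N (Pn N y) δ B b0 b ω j) := by
  intro S S' h
  unfold ge
  rw [gb_eq (full_Pn N y) hB δ hb hj ω S, gb_eq (full_Pn N y) hB δ hb hj ω S']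
  exact (wf_xf (μ := μ) (s := s) hB δ hb j (abs_sg ω.2 j).le).rd _ _ _ h

/-- The geometry of the row. The tie of the spectator is on `[e, d]`, `e` behind the block. -/
structure Geo59 (N b0 h b σ j e d : ℕ) : Prop where
  b0h : b0 ≤ h
  hb : h ≤ b
  lo : j / σ * σ + b ≤ j
  hi : j + b ≤ (j / σ + 1) * σ
  ze : (j / σ + 1) * σ ≤ e
  ed : e ≤ d
  dN : d ≤ N

theorem Geo59.zd {h e d : ℕ} (X : Geo59 N b0 h b σ j e d) : (j / σ + 1) * σ ≤ d := X.ze.trans X.ed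

theorem Geo59.of_deep {R : Finset ℕ} {h e d : ℕ} (hR : Deep R b σ) (hj : j ∈ R) (h1 : b0 ≤ h) (h2 : h ≤ b)
    (h3 : (j / σ + 1) * σ ≤ e) (h4 : e ≤ d) (h5 : d ≤ N) : Geo59 N b0 h b σ j e d :=
  ⟨h1, h2, (hR j hj).1, (hR j hj).2, h3, h4, h5⟩

variable {h c e d : ℕ} {D : ℝ} {f : Fam N}

/-- The right part of the row. -/
def pR (μ : Measure ℝ) (s : ℝ) (N : ℕ) (δ B : ℝ) (b0 h b j e d : ℕ) (f : Fam N) (y : ℕ) (ω : Env × Finset ℕ) :
    (Fin 3 → Px (Pn N y)) → ℝ :=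
  psRF (j + h) (j + b) e d (ge μ s N (Pn N y) δ B b0 b ω j) (gg μ s (Pn N y) δ B b0 ω j) (f y ω)

/-- The left part of the row. -/
def pL (μ : Measure ℝ) (s : ℝ) (N : ℕ) (δ B : ℝ) (b0 h b j e d : ℕ) (f : Fam N) (y : ℕ) (ω : Env × Finset ℕ) :
    (Fin 3 → Px (Pn N y)) → ℝ :=
  psLF (j - b) (j - h) (j + h) (j + b) e d (ge μ s N (Pn N y) δ B b0 b ω j) (gg μ s (Pn N y) δ B b0 ω j) (f y ω)

/-- **THE CROSS TERM OF THE ROW IN THE PLAN**, with the two indicators. -/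
theorem cutG59 (hB : 0 ≤ B) (X : Geo59 N b0 h b σ j e d) (hf : Cls59 N c d D f) (ω : Env × Finset ℕ) (t : ℝ) :
    gc (wj μ s N (Pn N y) δ B b0 j ω t) (cC (wj μ s N (Pn N y) δ B b0 j ω t) (pS σ j) (ge μ s N (Pn N y) δ B b0 b ω j)
        (gg μ s (Pn N y) δ B b0 ω j)) (f y ω) =
      ev (P3 (pS σ j)) (wj μ s N (Pn N y) δ B b0 j ω t) (pR μ s N δ B b0 h b j e d f y ω) +
      ev (P3 (pS σ j)) (wj μ s N (Pn N y) δ B b0 j ω t) (pL μ s N δ B b0 h b j e d f y ω) := by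
  obtain ⟨h1, h2, h3, h4, h5, h6, h7⟩ := X
  have hge : Lk (j - b) (j + b) (ge μ s N (Pn N y) δ B b0 b ω j) := lk_ge59 hB (h1.trans h2) (h4.trans (h5.trans (h6.trans h7))) ω
  exact cutEF59e (c0 := j / σ * σ) (by omega) (by omega) h4 (by omega) (by omega) (by omega) h5 h6
    (wk_wj59 δ B ω t (by omega) (by omega) (by omega)) (hd_wj59 δ B ω t (by omega) le_rfl) (hd_wj59 δ B ω t (by omega) h6)
    (mp_gb81 _ _ _) (Lk_mono (Nat.zero_le _) h4 hge) (Lk_gg δ B b0 j ω (by omega) (by omega)) (rk_cls hf le_rfl y ω)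

theorem mp_pS59 (X : Geo59 N b0 h b σ j e d) (hf : Cls59 N c d D f) (ω : Env × Finset ℕ) : Mp (pS (Q := Pn N y) σ j) (f y ω) :=
  fun _ _ e' => (mp_of_Rk ((rk_cls hf le_rfl y ω).mono X.zd)) _ _ (crs_pJ (Nat.zero_le _) le_rfl _ _ e')

/-- The derivative in the tilt. -/
theorem dX59 (hB : 0 ≤ B) (X : Geo59 N b0 h b σ j e d) (hf : Cls59 N c d D f) (ω : Env × Finset ℕ) (t : ℝ) :
    (P3 (pS σ j)).ks.dbl.toEv.ev (wj μ s N (Pn N y) δ B b0 j ω t)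
        ((P3 (pS σ j)).ks.dr.ins (gg μ s (Pn N y) δ B b0 ω j) (pR μ s N δ B b0 h b j e d f y ω)) +
      (P3 (pS σ j)).ks.dbl.toEv.ev (wj μ s N (Pn N y) δ B b0 j ω t)
        ((P3 (pS σ j)).ks.dr.ins (gg μ s (Pn N y) δ B b0 ω j) (pL μ s N δ B b0 h b j e d f y ω)) =
      DX (pS σ j) (wj μ s N (Pn N y) δ B b0 j ω t) (gg μ s (Pn N y) δ B b0 ω j)
        [[ge μ s N (Pn N y) δ B b0 b ω j, gg μ s (Pn N y) δ B b0 ω j]] [f y ω] := by
  simp only [wj_line]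
  refine DX_ins59 (P3 (pS σ j)) (mp_pS59 X hf ω) (fun t => ?_) t
  have h := cutG59 (y := y) (μ := μ) (s := s) (δ := δ) hB X hf ω t
  simp only [wj_line] at h
  exact h.symm

/-- **THE SECOND DERIVATIVE IN THE TILT.** -/
theorem d2X59 (hB : 0 ≤ B) (X : Geo59 N b0 h b σ j e d) (hf : Cls59 N c d D f) (ω : Env × Finset ℕ) (t : ℝ) :
    (P3 (pS σ j)).ks.dbl.dbl.toEv.ev (wj μ s N (Pn N y) δ B b0 j ω t) ((P3 (pS σ j)).ks.dbl.dr.ins (gg μ s (Pn N y) δ B b0 ω j)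
        ((P3 (pS σ j)).ks.dr.ins (gg μ s (Pn N y) δ B b0 ω j) (pR μ s N δ B b0 h b j e d f y ω))) +
      (P3 (pS σ j)).ks.dbl.dbl.toEv.ev (wj μ s N (Pn N y) δ B b0 j ω t) ((P3 (pS σ j)).ks.dbl.dr.ins (gg μ s (Pn N y) δ B b0 ω j)
        ((P3 (pS σ j)).ks.dr.ins (gg μ s (Pn N y) δ B b0 ω j) (pL μ s N δ B b0 h b j e d f y ω))) =
      D2X (pS σ j) (wj μ s N (Pn N y) δ B b0 j ω t) (gg μ s (Pn N y) δ B b0 ω j)
        (ge μ s N (Pn N y) δ B b0 b ω j) (gg μ s (Pn N y) δ B b0 ω j) [f y ω] := by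
  simp only [wj_line]
  refine D2X_ins59 (P3 (pS σ j)) (mp_pS59 X hf ω) (fun t => ?_) t
  have h := cutG59 (y := y) (μ := μ) (s := s) (δ := δ) hB X hf ω t
  simp only [wj_line] at h
  exact h.symm

/-- **(E2) IS THE DOUBLE INSERTION.** -/
theorem fE2_eq59 (hB : 0 ≤ B) (X : Geo59 N b0 h b σ j e d) (hf : Cls59 N c d D f) (t : ℝ) :
    fE2 μ s N δ B b0 b σ f t y j = ∫ ω, ((P3 (pS σ j)).ks.dbl.dbl.toEv.ev (wj μ s N (Pn N y) δ B b0 j ω t)
        ((P3 (pS σ j)).ks.dbl.dr.ins (gg μ s (Pn N y) δ B b0 ω j)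
          ((P3 (pS σ j)).ks.dr.ins (gg μ s (Pn N y) δ B b0 ω j) (pR μ s N δ B b0 h b j e d f y ω))) +
      (P3 (pS σ j)).ks.dbl.dbl.toEv.ev (wj μ s N (Pn N y) δ B b0 j ω t) ((P3 (pS σ j)).ks.dbl.dr.ins (gg μ s (Pn N y) δ B b0 ω j)
        ((P3 (pS σ j)).ks.dr.ins (gg μ s (Pn N y) δ B b0 ω j) (pL μ s N δ B b0 h b j e d f y ω)))) ∂(Pm μ N) := by
  unfold fE2
  refine integral_congr_ae (ae_of_all _ fun ω => ?_)
  exact (d2X59 hB X hf ω t).symm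

end

end Pool.Agent.W_7d29a1_C0.CutG59
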