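import Pool.Agent.W_7d29a1_C0.Refl63
import Pool.Agent.W_7d29a1_C0.BoxG41B

/-!
CURV0 (MP_7d29a1_pr), leaf E2 (and T, GS, E1): ONE AND TWO DERIVATIVES IN THE DIRECTION OF A WHOLE PATH FUNCTIONAL `T` (= the half
response `g_j`) of a replica system which MAY SEE the slabs, slabs of any direction (`DF`: forward or backward predictable
fields). Order of helper14: the second slab only on `Ψ` itself, the rest `T - C` of the first one with the whole derivative: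

`E ev₂(ins T (ins T Ψ)) = E ev Ψ δ₁ δ₂ + E δ₁ ev₁(ins (T - C₂) Ψ) + E ev₂(ins (T - C₁) (ins T Ψ))
  - E Σ_{S₁} c₁ p ev₁(ins T Ψ₁' p) - E δ₁ Σ_{S₂} c₂ p ev Ψ₂' p`  (`two_id`),

and its localised form `two_box`; `one_id`, `one_box` the same for one derivative. (helper63)
-/

set_option autoImplicit false
set_option linter.unusedSectionVars false
set_option linter.unusedVariables false

namespace Pool.W7d29a1.C0.R63

open MeasureTheory ProbabilityTheory Filter Topology Finset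
open Pool.Agent.W_7d29a1_F Pool.Agent.W_7d29a1_C0.H32 Pool.W7d29a1.C0 Pool.W7d29a1.C0.H41
open Pool.W7d29a1.C0.H19 (Cf BF int_exp_SS mul_le_tail)

noncomputable section

variable {μ : Measure ℝ} {f f' : ℝ → ℝ}

/-! ### Fields of any direction -/

/-- A bounded forward (`bk = false`) or backward (`bk = true`) predictable field. -/
def DF (bk : Bool) (S : Finset Pt) (c : Pt → Env → ℝ) (M : ℝ) : Prop := if bk then BB S c M else BF S c M

theorem DF.fwd {S : Finset Pt} {c : Pt → Env → ℝ} {M : ℝ} (h : BF S c M) : DF false S c M := by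
  unfold DF
  rw [if_neg (by decide)]
  exact h

theorem DF.bwd {S : Finset Pt} {c : Pt → Env → ℝ} {M : ℝ} (h : BB S c M) : DF true S c M := by
  unfold DF
  rw [if_pos rfl]
  exact h

theorem DF.cases {bk : Bool} {S : Finset Pt} {c : Pt → Env → ℝ} {M : ℝ} (h : DF bk S c M) :
    (bk = false ∧ BF S c M) ∨ (bk = true ∧ BB S c M) := by
  unfold DF at h
  cases bk
  · exact Or.inl ⟨rfl, by rwa [if_neg (by decide)] at h⟩
  · exact Or.inr ⟨rfl, by rwa [if_pos rfl] at h⟩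

variable {bk bk' : Bool}

theorem DF.meas {S : Finset Pt} {c : Pt → Env → ℝ} {M : ℝ} (h : DF bk S c M) : ∀ p ∈ S, Measurable (c p) := by
  rcases h.cases with ⟨_, h⟩ | ⟨_, h⟩
  · exact h.meas
  · exact h.meas

theorem DF.bd {S : Finset Pt} {c : Pt → Env → ℝ} {M : ℝ} (h : DF bk S c M) : ∀ p ∈ S, ∀ η, |c p η| ≤ M := by
  rcases h.cases with ⟨_, h⟩ | ⟨_, h⟩
  · exact h.bd
  · exact h.bd

theorem DF.gf [IsProbabilityMeasure μ] {s : ℝ → ℝ} {K θ0 : ℝ} (hs : SG μ s K θ0) {S : Finset Pt} {c : Pt → Env → ℝ} {M : ℝ}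
    (h : DF bk S c M) : GF μ s S c M := by
  rcases h.cases with ⟨_, h⟩ | ⟨_, h⟩
  · exact h.gf hs
  · exact h.gf hs

/-- The cut of a field by a deterministic function. -/
theorem DF.cut {S : Finset Pt} {c : Pt → Env → ℝ} {M : ℝ} (h : DF bk S c M) {χ : Pt → ℝ} (h0 : ∀ p, 0 ≤ χ p)
    (h1 : ∀ p, χ p ≤ 1) : DF bk S (H41.cut χ c) M := by
  rcases h.cases with ⟨e, h⟩ | ⟨e, h⟩
  · subst e
    exact DF.fwd (BF_mul h h0 h1)
  · subst e
    refine DF.bwd ⟨fun p hp => (h.meas p hp).const_mul _, fun p hp q hq hle η x => ?_, fun p hp η => ?_⟩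
    · unfold H41.cut
      rw [h.pred p hp q hq hle]
    · unfold H41.cut
      rw [abs_mul, abs_of_nonneg (h0 p)]
      calc χ p * |c p η| ≤ 1 * |c p η| := mul_le_mul_of_nonneg_right (h1 p) (abs_nonneg _)
        _ = |c p η| := one_mul _
        _ ≤ M := h.bd p hp η

theorem DF.cut' {S : Finset Pt} {c : Pt → Env → ℝ} {M : ℝ} (h : DF bk S c M) {χ : Pt → ℝ} (h0 : ∀ p, 0 ≤ χ p)
    (h1 : ∀ p, χ p ≤ 1) : DF bk S (H41.cut' χ c) M :=
  h.cut (χ := fun p => 1 - χ p) (fun p => by linarith [h1 p]) fun p => by linarith [h0 p]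

/-- The exponential moment of the score sum. -/
theorem DF.expm [IsProbabilityMeasure μ] {s : ℝ → ℝ} {K θ0 : ℝ} (hs : SG μ s K θ0) {S : Finset Pt} {c : Pt → Env → ℝ} {M : ℝ}
    (h : DF bk S c M) (hM0 : 0 ≤ M) {t B : ℝ} (ht : 0 ≤ t) (htM : t * M ≤ θ0) (hB : ∀ η, ∑ p ∈ S, c p η ^ 2 ≤ B) :
    Integrable (fun η => Real.exp (t * |SS s S c η|)) (law μ) ∧
      ∫ η, Real.exp (t * |SS s S c η|) ∂(law μ) ≤ 2 * Real.exp (K * t ^ 2 * B) := by
  rcases h.cases with ⟨_, h⟩ | ⟨_, h⟩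
  · exact int_exp_SS hs h hM0 ht htM hB
  · obtain ⟨i, j⟩ := int_exp_SS hs (h.refl 0) hM0 ht htM (sq_rc hB)
    have i2 := integrable_rf (0 : Pt) i
    simp_rw [SS_rc'] at i2
    refine ⟨i2, ?_⟩
    rw [← int_rf (0 : Pt)]
    simp_rw [SS_rc] at j
    exact j

section Est

variable [IsProbabilityMeasure μ]

/-- **One score factor.** -/
theorem est_oneD {s : ℝ → ℝ} {K θ0 : ℝ} (hs : SG μ s K θ0) {S : Finset Pt} {c : Pt → Env → ℝ} {M : ℝ}
    (b : DF bk S c M) (hM : 0 ≤ M) {t B a D : ℝ} (ht : 0 < t) (htM : t * M ≤ θ0) (hB : ∀ η, ∑ p ∈ S, c p η ^ 2 ≤ B)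
    {Ψ : Env → ℝ} (m0 : Integrable Ψ (law μ)) (hD : ∀ η, |Ψ η| ≤ D) :
    |∫ η, Ψ η * SS s S c η ∂(law μ)| ≤ a * ∫ η, |Ψ η| ∂(law μ) +
      D * (2 / t * Real.exp (-(t * a / 2)) * (2 * Real.exp (K * t ^ 2 * B))) := by
  rcases b.cases with ⟨_, b⟩ | ⟨_, b⟩
  · exact H19.est_one hs b hM ht htM hB m0 hD
  · exact est_oneB hs b hM ht htM hB m0 hD

/-- **Two score factors**, any two directions. -/
theorem est_twoD {s : ℝ → ℝ} {K θ0 : ℝ} (hs : SG μ s K θ0) {S1 S2 : Finset Pt} {c1 c2 : Pt → Env → ℝ} {M1 M2 : ℝ}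
    (b1 : DF bk S1 c1 M1) (b2 : DF bk' S2 c2 M2) (p1 : 0 ≤ M1) (p2 : 0 ≤ M2) {t1 t2 B1 B2 a1 a2 D : ℝ} (q1 : 0 < t1)
    (q2 : 0 < t2) (r1 : 2 * t1 * M1 ≤ θ0) (r2 : 2 * t2 * M2 ≤ θ0) (hB1 : ∀ η, ∑ p ∈ S1, c1 p η ^ 2 ≤ B1)
    (hB2 : ∀ η, ∑ p ∈ S2, c2 p η ^ 2 ≤ B2) (ha1 : 0 ≤ a1) (ha2 : 0 ≤ a2) {Ψ : Env → ℝ} (m0 : Integrable Ψ (law μ))
    (hD : ∀ η, |Ψ η| ≤ D) :
    |∫ η, Ψ η * (SS s S1 c1 η * SS s S2 c2 η) ∂(law μ)| ≤ a1 * a2 * ∫ η, |Ψ η| ∂(law μ) +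
      D * ((Real.exp (-(t1 * a1 / 2)) + Real.exp (-(t2 * a2 / 2))) / (t1 * t2) *
        (2 * Real.exp (4 * K * t1 ^ 2 * B1) + 2 * Real.exp (4 * K * t2 ^ 2 * B2))) := by
  have hD0 : 0 ≤ D := (abs_nonneg _).trans (hD (fun _ => 0))
  obtain ⟨i1, j1⟩ := b1.expm hs p1 (t := 2 * t1) (by positivity) r1 hB1
  obtain ⟨i2, j2⟩ := b2.expm hs p2 (t := 2 * t2) (by positivity) r2 hB2
  have k1 : K * (2 * t1) ^ 2 * B1 = 4 * K * t1 ^ 2 * B1 := by ring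
  have k2 : K * (2 * t2) ^ 2 * B2 = 4 * K * t2 ^ 2 * B2 := by ring
  rw [k1] at j1
  rw [k2] at j2
  set E : ℝ := (Real.exp (-(t1 * a1 / 2)) + Real.exp (-(t2 * a2 / 2))) / (t1 * t2) with hE
  have hE0 : 0 ≤ E := by positivity
  set G : Env → ℝ := fun η => a1 * a2 * |Ψ η| + D * (E * (Real.exp (2 * t1 * |SS s S1 c1 η|) +
    Real.exp (2 * t2 * |SS s S2 c2 η|))) with hG
  have hGi : Integrable G (law μ) := (m0.abs.const_mul _).add (((i1.add i2).const_mul E).const_mul D)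
  have hpt : ∀ η, ‖Ψ η * (SS s S1 c1 η * SS s S2 c2 η)‖ ≤ G η := fun η => by
    rw [Real.norm_eq_abs, abs_mul, abs_mul]
    have h1 := mul_le_tail (x := SS s S1 c1 η) (y := SS s S2 c2 η) q1 q2 ha1 ha2
    have h2 := mul_le_mul_of_nonneg_left h1 (abs_nonneg (Ψ η))
    have h3 : |Ψ η| * (E * (Real.exp (2 * t1 * |SS s S1 c1 η|) + Real.exp (2 * t2 * |SS s S2 c2 η|))) ≤
        D * (E * (Real.exp (2 * t1 * |SS s S1 c1 η|) + Real.exp (2 * t2 * |SS s S2 c2 η|))) :=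
      mul_le_mul_of_nonneg_right (hD η) (by positivity)
    show |Ψ η| * (|SS s S1 c1 η| * |SS s S2 c2 η|) ≤ a1 * a2 * |Ψ η| + D * (E * (Real.exp (2 * t1 * |SS s S1 c1 η|) +
      Real.exp (2 * t2 * |SS s S2 c2 η|)))
    rw [mul_add] at h2
    linarith
  have h5 : ∫ η, G η ∂(law μ) = a1 * a2 * ∫ η, |Ψ η| ∂(law μ) + D * (E * (∫ η, Real.exp (2 * t1 * |SS s S1 c1 η|) ∂(law μ) +
      ∫ η, Real.exp (2 * t2 * |SS s S2 c2 η|) ∂(law μ))) := by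
    have e1 : ∫ η, G η ∂(law μ) = ∫ η, a1 * a2 * |Ψ η| ∂(law μ) + ∫ η, D * (E * (Real.exp (2 * t1 * |SS s S1 c1 η|) +
        Real.exp (2 * t2 * |SS s S2 c2 η|))) ∂(law μ) :=
      integral_add (m0.abs.const_mul _) (((i1.add i2).const_mul E).const_mul D)
    have e2 : ∫ η, (Real.exp (2 * t1 * |SS s S1 c1 η|) + Real.exp (2 * t2 * |SS s S2 c2 η|)) ∂(law μ) =
        ∫ η, Real.exp (2 * t1 * |SS s S1 c1 η|) ∂(law μ) + ∫ η, Real.exp (2 * t2 * |SS s S2 c2 η|) ∂(law μ) :=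
      integral_add i1 i2
    rw [e1, integral_const_mul, integral_const_mul, integral_const_mul, e2]
  calc |∫ η, Ψ η * (SS s S1 c1 η * SS s S2 c2 η) ∂(law μ)| ≤ ∫ η, G η ∂(law μ) := by
        rw [← Real.norm_eq_abs]
        exact norm_integral_le_of_norm_le hGi (ae_of_all _ hpt)
    _ ≤ _ := by
        rw [h5]
        gcongr

end Est

/-! ### Exact identities -/

variable {X ι ι' ι2 : Type*} [Fintype X] [Nonempty X] [Fintype ι] [DecidableEq ι] [Fintype ι'] [DecidableEq ι']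
  [Fintype ι2] [DecidableEq ι2] {B : Type*} [Fintype B] [DecidableEq B] {E : Ev X ι} {E' : Ev X ι'} {E2 : Ev X ι2}

/-- The derivative of the value of an observable along a curve of weights and observables. -/
theorem hasDerivAt_ev (d : Dr E E') {W : ℝ → X → ℝ} {A : X → ℝ} {x : ℝ} (hW : HasDerivAt W A x)
    {Ψ : ℝ → (ι → X) → ℝ} {Ψ' : (ι → X) → ℝ} (hΨ : ∀ y, HasDerivAt (fun t => Ψ t y) (Ψ' y) x) :
    HasDerivAt (fun t => E.ev (W t) (Ψ t)) (E'.ev (W x) (d.ins A (Ψ x)) + E.ev (W x) Ψ') x := by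
  classical
  have h1 : ∀ y : ι → X, HasDerivAt (fun t => E.ρ (W t) y) (E'.ev (W x) (d.ins A (Pi.single y 1))) x := fun y => by
    have h2 := d.der' (Pi.single y (1 : ℝ)) hW
    refine h2.congr_of_eventuallyEq (Eventually.of_forall fun t => ?_)
    show E.ρ (W t) y = E.ev (W t) (Pi.single y 1)
    unfold Ev.ev
    rw [Finset.sum_eq_single y (fun z _ hz => by rw [Pi.single_eq_of_ne hz, mul_zero]) (fun h => absurd (mem_univ _) h),
      Pi.single_eq_same, mul_one]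
  have h3 : HasDerivAt (fun t => ∑ y, E.ρ (W t) y * Ψ t y)
      (∑ y, (E'.ev (W x) (d.ins A (Pi.single y 1)) * Ψ x y + E.ρ (W x) y * Ψ' y)) x :=
    HasDerivAt.fun_sum fun y _ => (h1 y).mul (hΨ y)
  refine h3.congr_deriv ?_
  rw [Finset.sum_add_distrib]
  congr 1
  have e1 : ∀ z, d.ins A (Ψ x) z = ∑ y, Ψ x y * d.ins A (Pi.single y 1) z := fun z => by
    unfold Dr.ins
    rw [Finset.sum_eq_single (fun i => z (d.emb i)) (fun y _ hy => by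
      rw [Pi.single_eq_of_ne (Ne.symm hy), zero_mul, mul_zero]) (fun h => absurd (mem_univ _) h), Pi.single_eq_same,
      one_mul]
  rw [ev_congr _ _ e1, ev_sum]
  exact Finset.sum_congr rfl fun y _ => by rw [ev_smul, mul_comm]

theorem ins_sub (d : Dr E E') (A A' : X → ℝ) (Ψ : (ι → X) → ℝ) (y : ι' → X) :
    d.ins (A - A') Ψ y = d.ins A Ψ y - d.ins A' Ψ y := by
  unfold Dr.ins
  rw [← mul_sub, ← Finset.sum_sub_distrib]
  congr 1
  exact Finset.sum_congr rfl fun j _ => by rw [Pi.sub_apply]; ring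

theorem ev_sub (E : Ev X ι) (w : X → ℝ) (Ψ Φ : (ι → X) → ℝ) : E.ev w (fun x => Ψ x - Φ x) = E.ev w Ψ - E.ev w Φ := by
  unfold Ev.ev
  rw [← Finset.sum_sub_distrib]
  exact Finset.sum_congr rfl fun x _ => by ring

/-- The site derivatives of an observable which sees the slab `S`. -/
def Sd (S : Finset Pt) (Ψ : Env → (ι → X) → ℝ) (Ψ' : Pt → Env → (ι → X) → ℝ) : Prop :=
  ∀ p ∈ S, ∀ (η : Env) (x : ℝ) (y : ι → X), HasDerivAt (fun t => Ψ (Function.update η p t) y)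
    (Ψ' p (Function.update η p x) y) x

/-- `T` does not see the slab. -/
def Bl (S : Finset Pt) (T : Env → X → ℝ) : Prop := ∀ p ∈ S, ∀ (η : Env) (x : ℝ), T (Function.update η p x) = T η

section Id

variable [IsProbabilityMeasure μ] {S S1 S2 : Finset Pt} {c c1 c2 : Pt → Env → ℝ} {M M1 M2 V D D1 D2 τ : ℝ}
  {w : Env → X → ℝ} {N : Pt → X → ℝ} {Ψ : Env → (ι → X) → ℝ} {Ψ' Ψ1 Ψ2 : Pt → Env → (ι → X) → ℝ} {T : Env → X → ℝ}

theorem site_ev (d : Dr E E') (hw : Wt S w N V) (hd : Sd S Ψ Ψ') : ∀ q ∈ S, ∀ (η : Env) (x : ℝ),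
    HasDerivAt (fun t => E.ev (w (Function.update η q t)) (Ψ (Function.update η q t)))
      (E'.ev (w (Function.update η q x)) (d.ins (N q) (Ψ (Function.update η q x))) +
        E.ev (w (Function.update η q x)) (Ψ' q (Function.update η q x))) x := fun q hq η x =>
  hasDerivAt_ev d (W := fun t => w (Function.update η q t)) (Ψ := fun t => Ψ (Function.update η q t)) (hw.der q hq η x)
    (hd q hq η x)

theorem memLp_site (d : Dr E E') (hw : Wt S w N V) (hΨ : Obs Ψ D) (hΨ' : ∀ p ∈ S, Obs (Ψ' p) D1) : ∀ q ∈ S,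
    MemLp (fun η => E'.ev (w η) (d.ins (N q) (Ψ η)) + E.ev (w η) (Ψ' q η)) 2 (law μ) := fun q hq =>
  ((hΨ.ins d (A := fun _ => N q) measurable_const fun η y => hw.bd q hq y).memLp E' hw.meas).add
    ((hΨ' q hq).memLp E hw.meas)

theorem sum_site (d : Dr E E') (S : Finset Pt) (c : Pt → Env → ℝ) (η : Env) :
    ∑ p ∈ S, c p η * (E'.ev (w η) (d.ins (N p) (Ψ η)) + E.ev (w η) (Ψ' p η)) =
      E'.ev (w η) (d.ins (Cf S c N η) (Ψ η)) + ∑ p ∈ S, c p η * E.ev (w η) (Ψ' p η) := by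
  rw [ev_ins_Cf, ← Finset.sum_add_distrib]
  exact Finset.sum_congr rfl fun p _ => by ring

theorem int_c_ev (b : GF μ (sc f f') S c M) (E : Ev X ι) (hw : Measurable w) (hΨ' : ∀ p ∈ S, Obs (Ψ' p) D1) :
    MemLp (fun η => ∑ p ∈ S, c p η * E.ev (w η) (Ψ' p η)) 2 (law μ) :=
  memLp_finsetSum _ fun p hp => H19.memLp_bd (b.meas p hp) (b.bd p hp) ((hΨ' p hp).memLp E hw)

theorem memLp_ins_Cf (b : GF μ (sc f f') S c M) (d : Dr E E') (hw : Wt S w N V) (hΨ : Obs Ψ D) :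
    MemLp (fun η => E'.ev (w η) (d.ins (Cf S c N η) (Ψ η))) 2 (law μ) :=
  (hΨ.ins d (meas_Cf b.meas N) fun η y => abs_Cf_le b.bd hw.bd η y).memLp E' hw.meas

/-- **Integration by parts over a slab of any direction**, the observable may see the slab. -/
theorem ibpG (d : Dr E E') (h : DenLaw μ f f') (b : GF μ (sc f f') S c M) (hw : Wt S w N V) (hΨ : Obs Ψ D)
    (hΨ' : ∀ p ∈ S, Obs (Ψ' p) D1) (hd : Sd S Ψ Ψ') :
    ∫ η, E'.ev (w η) (d.ins (Cf S c N η) (Ψ η)) ∂(law μ) + ∫ η, ∑ p ∈ S, c p η * E.ev (w η) (Ψ' p η) ∂(law μ) =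
      ∫ η, E.ev (w η) (Ψ η) * SS (sc f f') S c η ∂(law μ) := by
  rw [← slab1 h b (site_ev d hw hd) (hΨ.memLp E hw.meas) (memLp_site d hw hΨ hΨ'), ← integral_add]
  · exact integral_congr_ae (ae_of_all _ fun η => (sum_site d S c η).symm)
  · exact (memLp_ins_Cf b d hw hΨ).integrable (by norm_num)
  · exact (int_c_ev b E hw.meas hΨ').integrable (by norm_num)

/-- **The two slab form**, any two directions, the observable may see the second slab. -/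
theorem ibpG2 (d : Dr E E') (h : DenLaw μ f f') (hd12 : Disjoint S1 S2) (b1 : GF μ (sc f f') S1 c1 M1)
    (b2 : GF μ (sc f f') S2 c2 M2)
    (h12 : ∀ q1 ∈ S1, ∀ q2 ∈ S2, ∀ (η : Env) (x : ℝ), c1 q1 (Function.update η q2 x) = c1 q1 η)
    (hw : Wt S2 w N V) (hΨ : Obs Ψ D) (hΨ' : ∀ p ∈ S2, Obs (Ψ2 p) D2) (hd : Sd S2 Ψ Ψ2) :
    ∫ η, E'.ev (w η) (d.ins (Cf S2 c2 N η) (Ψ η)) * SS (sc f f') S1 c1 η ∂(law μ) +
      ∫ η, (∑ p ∈ S2, c2 p η * E.ev (w η) (Ψ2 p η)) * SS (sc f f') S1 c1 η ∂(law μ) =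
      ∫ η, E.ev (w η) (Ψ η) * (SS (sc f f') S1 c1 η * SS (sc f f') S2 c2 η) ∂(law μ) := by
  obtain ⟨K, θ0, hs⟩ := h.sg
  rw [← slab2 h hd12 b1 b2 h12 (site_ev d hw hd) (hΨ.memLp E hw.meas) (memLp_site d hw hΨ hΨ'), ← integral_add]
  · refine integral_congr_ae (ae_of_all _ fun η => ?_)
    show E'.ev (w η) (d.ins (Cf S2 c2 N η) (Ψ η)) * SS (sc f f') S1 c1 η +
      (∑ p ∈ S2, c2 p η * E.ev (w η) (Ψ2 p η)) * SS (sc f f') S1 c1 η = _
    rw [← add_mul, ← sum_site d S2 c2 η]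
  · exact (memLp_ins_Cf b2 d hw hΨ).integrable_mul (b1.memLp hs.1)
  · exact (int_c_ev b2 E hw.meas hΨ').integrable_mul (b1.memLp hs.1)

/-- **One derivative** in the direction of a whole path functional `T`. -/
theorem one_id (d : Dr E E') (h : DenLaw μ f f') (b : GF μ (sc f f') S c M) (hw : Wt S w N V) (hΨ : Obs Ψ D)
    (hΨ' : ∀ p ∈ S, Obs (Ψ' p) D1) (hd : Sd S Ψ Ψ') (hT : Measurable T) (hτ : ∀ η y, |T η y| ≤ τ) :
    ∫ η, E'.ev (w η) (d.ins (T η) (Ψ η)) ∂(law μ) =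
      ∫ η, E.ev (w η) (Ψ η) * SS (sc f f') S c η ∂(law μ) +
      ∫ η, E'.ev (w η) (d.ins (T η - Cf S c N η) (Ψ η)) ∂(law μ) -
      ∫ η, ∑ p ∈ S, c p η * E.ev (w η) (Ψ' p η) ∂(law μ) := by
  have hC := meas_Cf b.meas N
  have hCb : ∀ η y, |Cf S c N η y| ≤ S.card * (M * V) := fun η y => abs_Cf_le b.bd hw.bd η y
  have o1 : Obs (fun η => d.ins (Cf S c N η) (Ψ η)) (D * (d.sz * (S.card * (M * V)))) := hΨ.ins d hC hCb
  have o2 : Obs (fun η => d.ins (T η - Cf S c N η) (Ψ η)) (D * (d.sz * (τ + S.card * (M * V)))) :=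
    hΨ.ins d (hT.sub hC) fun η y => (abs_sub _ _).trans (add_le_add (hτ η y) (hCb η y))
  have e1 : ∀ η, E'.ev (w η) (d.ins (T η) (Ψ η)) =
      E'.ev (w η) (d.ins (Cf S c N η) (Ψ η)) + E'.ev (w η) (d.ins (T η - Cf S c N η) (Ψ η)) := fun η => by
    rw [← ev_add]
    exact ev_congr _ _ fun y => by rw [ins_sub]; ring
  have k := ibpG d h b hw hΨ hΨ' hd
  simp_rw [e1]
  rw [integral_add (o1.int E' hw.meas) (o2.int E' hw.meas)]
  linarith

/-- **Two derivatives** in the direction of a whole path functional `T`, in the order of helper14. -/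
theorem two_id (d : Dr E E') (d' : Dr E' E2) (h : DenLaw μ f f') (hd12 : Disjoint S1 S2) (b1 : GF μ (sc f f') S1 c1 M1)
    (b2 : GF μ (sc f f') S2 c2 M2)
    (h12 : ∀ q1 ∈ S1, ∀ q2 ∈ S2, ∀ (η : Env) (x : ℝ), c1 q1 (Function.update η q2 x) = c1 q1 η)
    (hw1 : Wt S1 w N V) (hw2 : Wt S2 w N V) (hΨ : Obs Ψ D) (hΨ1 : ∀ p ∈ S1, Obs (Ψ1 p) D1) (hΨ2 : ∀ p ∈ S2, Obs (Ψ2 p) D2)
    (hd1 : Sd S1 Ψ Ψ1) (hd2 : Sd S2 Ψ Ψ2) (hT : Measurable T) (hτ : ∀ η y, |T η y| ≤ τ) (hTb : Bl S1 T) :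
    ∫ η, E2.ev (w η) (d'.ins (T η) (d.ins (T η) (Ψ η))) ∂(law μ) =
      ∫ η, E.ev (w η) (Ψ η) * (SS (sc f f') S1 c1 η * SS (sc f f') S2 c2 η) ∂(law μ) +
      ∫ η, E'.ev (w η) (d.ins (T η - Cf S2 c2 N η) (Ψ η)) * SS (sc f f') S1 c1 η ∂(law μ) +
      ∫ η, E2.ev (w η) (d'.ins (T η - Cf S1 c1 N η) (d.ins (T η) (Ψ η))) ∂(law μ) -
      ∫ η, ∑ p ∈ S1, c1 p η * E'.ev (w η) (d.ins (T η) (Ψ1 p η)) ∂(law μ) -
      ∫ η, (∑ p ∈ S2, c2 p η * E.ev (w η) (Ψ2 p η)) * SS (sc f f') S1 c1 η ∂(law μ) := by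
  obtain ⟨K, θ0, hs⟩ := h.sg
  -- the first slab
  have o1 : Obs (fun η => d.ins (T η) (Ψ η)) (D * (d.sz * τ)) := hΨ.ins d hT hτ
  have o1' : ∀ p ∈ S1, Obs (fun η => d.ins (T η) (Ψ1 p η)) (D1 * (d.sz * τ)) := fun p hp => (hΨ1 p hp).ins d hT hτ
  have hd' : Sd S1 (fun η => d.ins (T η) (Ψ η)) fun p η => d.ins (T η) (Ψ1 p η) := fun p hp η x y => by
    unfold Dr.ins
    have e : ∀ t : ℝ, T (Function.update η p t) = T η := fun t => hTb p hp η t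
    simp only [e]
    exact (hd1 p hp η x _).mul_const _
  have k1 := one_id d' h b1 hw1 o1 o1' hd' hT hτ
  -- the second slab
  have k2 := ibpG2 d h hd12 b1 b2 h12 hw2 hΨ hΨ2 hd2
  have hC := meas_Cf b2.meas N
  have hCb : ∀ η y, |Cf S2 c2 N η y| ≤ S2.card * (M2 * V) := fun η y => abs_Cf_le b2.bd hw2.bd η y
  have o2 : Obs (fun η => d.ins (T η - Cf S2 c2 N η) (Ψ η)) (D * (d.sz * (τ + S2.card * (M2 * V)))) :=
    hΨ.ins d (hT.sub hC) fun η y => (abs_sub _ _).trans (add_le_add (hτ η y) (hCb η y))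
  have e1 : ∀ η, E'.ev (w η) (d.ins (T η) (Ψ η)) * SS (sc f f') S1 c1 η =
      E'.ev (w η) (d.ins (Cf S2 c2 N η) (Ψ η)) * SS (sc f f') S1 c1 η +
        E'.ev (w η) (d.ins (T η - Cf S2 c2 N η) (Ψ η)) * SS (sc f f') S1 c1 η := fun η => by
    rw [← add_mul, ← ev_add]
    congr 1
    exact ev_congr _ _ fun y => by rw [ins_sub]; ring
  have k3 : ∫ η, E'.ev (w η) (d.ins (T η) (Ψ η)) * SS (sc f f') S1 c1 η ∂(law μ) =
      ∫ η, E'.ev (w η) (d.ins (Cf S2 c2 N η) (Ψ η)) * SS (sc f f') S1 c1 η ∂(law μ) +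
        ∫ η, E'.ev (w η) (d.ins (T η - Cf S2 c2 N η) (Ψ η)) * SS (sc f f') S1 c1 η ∂(law μ) := by
    simp_rw [e1]
    exact integral_add ((memLp_ins_Cf b2 d hw2 hΨ).integrable_mul (b1.memLp hs.1))
      ((o2.memLp E' hw2.meas).integrable_mul (b1.memLp hs.1))
  linarith

end Id

end

end Pool.W7d29a1.C0.R63
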