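import Pool.Agent.W_7d29a1_C0.CutE14
import Pool.Agent.W_7d29a1_C0.Mod92B
import Pool.Agent.W_7d29a1_C0.Two63

/-!
CURV0 (MP_7d29a1_pr), section E2: THE SMOOTH FORM OF THE HALF RESPONSE OF THE WINDOW `W` AND ITS SLAB DERIVATIVES.

`gam w g a p S = (1/2) ∫_{-1}^1 cE (w + (t - a) g) p g S dt` (`p` = outside of `W`; `= D_j f_W = gW` off the clips): bounded by
`sup |g|`, a function of `p`, measurable, and differentiable in the weights: the derivative in the direction `A` is
`gamD w g A a p S = (1/2) ∫ cC (w + (t - a) g) p A g S dt` (`hasDerivAt_gam`), so `psR`, `psL` with `γ = gam` have the site derivatives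
`psR`, `psL` with `gamD` (`sd_psR`, `sd_psL`). If `A` sees only the rows `[m₀, d]` behind `W₀ = [al, be]`, then `gamD` is carried by the
pairs inside `W` which do not meet on `[be, m₀]` (`abs_cC_slab`, `abs_gamD_le`); the mirror image for the rows before `W₀`. (helper14)
-/

set_option autoImplicit false
set_option linter.unusedSectionVars false

namespace Pool.Agent.W_7d29a1_C0.DGam14

open Finset MeasureTheory Filter Topology Pool.Agent.W_7d29a1_F Pool.Agent.W_7d29a1_C0.Mod92
open Pool.W7d29a1.C0 (gz gm lse gz_pos gz_ne gm_nonneg gm_mono)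
open Pool.W7d29a1.C0.VT31 Pool.W7d29a1.C0.I52 Pool.Agent.W_7d29a1_C0.Swap57 Pool.Agent.W_7d29a1_C0.CutE14
open Pool.W7d29a1.C0.R63 (Sd)

noncomputable section

section Abs

variable {X : Type*} [Fintype X] [DecidableEq X] [Nonempty X] {Y : Type*} [DecidableEq Y]

theorem hasDerivAt_cE {V : ℝ → X → ℝ} {A : X → ℝ} {x : ℝ} (h : HasDerivAt V A x) (p : X → Y) (g : X → ℝ) (S : X) :
    HasDerivAt (fun x => cE (V x) p g S) (cC (V x) p A g S) x := by
  obtain ⟨F, hF⟩ : ∃ F : Finset X, F = univ.filter fun s => p s = p S := ⟨_, rfl⟩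
  have hne : F.Nonempty := by rw [hF]; exact fib_ne p S
  have e1 : (fun x => cE (V x) p g S) = fun x => ∑ s, ker (V x) F s * g s := by
    funext x
    rw [cE_eq_av, ← hF]
    rfl
  rw [e1]
  refine (HasDerivAt.fun_sum fun s _ => (hasDerivAt_ker h hne s).mul_const (g s)).congr_deriv ?_
  have e2 : cC (V x) p A g S = av (V x) F (A * g) - av (V x) F A * av (V x) F g := by
    unfold cC
    rw [Pi.sub_apply, Pi.mul_apply, cE_eq_av, cE_eq_av, cE_eq_av, ← hF]
  rw [e2]
  unfold av
  rw [Finset.mul_sum, ← Finset.sum_sub_distrib]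
  refine Finset.sum_congr rfl fun s _ => ?_
  rw [Pi.mul_apply]
  ring

theorem abs_cC_le (w : X → ℝ) (p : X → Y) {A g : X → ℝ} {K M : ℝ} (hA : ∀ x, |A x| ≤ K) (hg : ∀ x, |g x| ≤ M) (S : X) :
    |cC w p A g S| ≤ 2 * (K * M) := by
  have hK : 0 ≤ K := (abs_nonneg _).trans (hA S)
  have h1 : |cE w p (A * g) S| ≤ K * M := abs_cE_le w p (fun x => by
    rw [Pi.mul_apply, abs_mul]
    exact mul_le_mul (hA x) (hg x) (abs_nonneg _) hK) S
  have h2 : |cE w p A S * cE w p g S| ≤ K * M := by
    rw [abs_mul]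
    exact mul_le_mul (abs_cE_le w p hA S) (abs_cE_le w p hg S) (abs_nonneg _) hK
  unfold cC
  rw [Pi.sub_apply, Pi.mul_apply]
  exact (abs_sub _ _).trans (by linarith)

/-- The line of weights. -/
theorem lin_t (w g : X → ℝ) (a t : ℝ) : HasDerivAt (fun t : ℝ => w + (t - a) • g) g t := by
  refine hasDerivAt_pi.2 fun s => ?_
  have h := (((hasDerivAt_id t).sub_const a).mul_const (g s)).const_add (w s)
  simpa using h

theorem cont_cE (w g : X → ℝ) (a : ℝ) (p : X → Y) (f : X → ℝ) (S : X) : Continuous fun t : ℝ => cE (w + (t - a) • g) p f S :=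
  continuous_iff_continuousAt.2 fun t => (hasDerivAt_cE (lin_t w g a t) p f S).continuousAt

theorem cont_cC (w g : X → ℝ) (a : ℝ) (p : X → Y) (f h : X → ℝ) (S : X) :
    Continuous fun t : ℝ => cC (w + (t - a) • g) p f h S := by
  unfold cC
  exact (cont_cE w g a p (f * h) S).sub ((cont_cE w g a p f S).mul (cont_cE w g a p h S))

/-- The half response of the window, smooth form. -/
def gam (w g : X → ℝ) (a : ℝ) (p : X → Y) (S : X) : ℝ := 1 / 2 * ∫ t in (-1 : ℝ)..1, cE (w + (t - a) • g) p g S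

/-- Its derivative when the weights move in the direction `A`. -/
def gamD (w g A : X → ℝ) (a : ℝ) (p : X → Y) (S : X) : ℝ := 1 / 2 * ∫ t in (-1 : ℝ)..1, cC (w + (t - a) • g) p A g S

theorem mp_gam (w g : X → ℝ) (a : ℝ) (p : X → Y) : Mp p (gam w g a p) := by
  intro S S' h
  unfold gam
  congr 1
  refine intervalIntegral.integral_congr fun t _ => ?_
  exact cE_meas _ p g S S' h

theorem mp_gamD (w g A : X → ℝ) (a : ℝ) (p : X → Y) : Mp p (gamD w g A a p) := by
  intro S S' h
  unfold gamD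
  congr 1
  refine intervalIntegral.integral_congr fun t _ => ?_
  exact cC_meas _ p A g S S' h

theorem abs_gam_le (w : X → ℝ) {g : X → ℝ} {M : ℝ} (hg : ∀ x, |g x| ≤ M) (a : ℝ) (p : X → Y) (S : X) :
    |gam w g a p S| ≤ M := by
  unfold gam
  rw [abs_mul, abs_of_pos (by norm_num : (0 : ℝ) < 1 / 2)]
  have h := intervalIntegral.norm_integral_le_of_norm_le_const (a := (-1 : ℝ)) (b := 1)
    (f := fun t => cE (w + (t - a) • g) p g S) (C := M) fun t _ => by
      rw [Real.norm_eq_abs]
      exact abs_cE_le _ p hg S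
  rw [Real.norm_eq_abs] at h
  have e : |(1 : ℝ) - -1| = 2 := by norm_num
  rw [e] at h
  linarith

theorem abs_gamD_le_of (w : X → ℝ) {g A : X → ℝ} {K M : ℝ} (hA : ∀ x, |A x| ≤ K) (hg : ∀ x, |g x| ≤ M) (a : ℝ) (p : X → Y)
    (S : X) : |gamD w g A a p S| ≤ 2 * (K * M) := by
  unfold gamD
  rw [abs_mul, abs_of_pos (by norm_num : (0 : ℝ) < 1 / 2)]
  have h := intervalIntegral.norm_integral_le_of_norm_le_const (a := (-1 : ℝ)) (b := 1)
    (f := fun t => cC (w + (t - a) • g) p A g S) (C := 2 * (K * M)) fun t _ => by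
      rw [Real.norm_eq_abs]
      exact abs_cC_le _ p hA hg S
  rw [Real.norm_eq_abs] at h
  have e : |(1 : ℝ) - -1| = 2 := by norm_num
  rw [e] at h
  linarith

/-- **The derivative of `gam` along a line of weights.** -/
theorem hasDerivAt_gam {W : ℝ → X → ℝ} {A : X → ℝ} (hW : ∀ x, HasDerivAt W A x) (g : X → ℝ) (a : ℝ) (p : X → Y) (S : X)
    (x : ℝ) : HasDerivAt (fun x => gam (W x) g a p S) (gamD (W x) g A a p S) x := by
  have hA : ∀ y, |A y| ≤ ∑ z, |A z| := fun y => single_le_sum (f := fun z => |A z|) (fun z _ => abs_nonneg _) (mem_univ y)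
  have hg : ∀ y, |g y| ≤ ∑ z, |g z| := fun y => single_le_sum (f := fun z => |g z|) (fun z _ => abs_nonneg _) (mem_univ y)
  have h := intervalIntegral.hasDerivAt_integral_of_dominated_loc_of_deriv_le (μ := volume) (a := (-1 : ℝ)) (b := 1)
    (F := fun x t => cE (W x + (t - a) • g) p g S) (F' := fun x t => cC (W x + (t - a) • g) p A g S) (x₀ := x)
    (s := Set.univ) (bound := fun _ => 2 * ((∑ z, |A z|) * ∑ z, |g z|)) univ_mem
    (Eventually.of_forall fun y => (cont_cE (W y) g a p g S).aestronglyMeasurable)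
    ((cont_cE (W x) g a p g S).intervalIntegrable _ _)
    (cont_cC (W x) g a p A g S).aestronglyMeasurable
    (Eventually.of_forall fun t _ y _ => by
      rw [Real.norm_eq_abs]
      exact abs_cC_le _ p hA hg S)
    intervalIntegrable_const
    (Eventually.of_forall fun t _ y _ => hasDerivAt_cE (V := fun y => W y + (t - a) • g) ((hW y).add_const _) p g S)
  exact h.2.const_mul (1 / 2)

/-- `gamD` is linear in the direction. -/
theorem gamD_sum {J : Type*} (T : Finset J) (w g : X → ℝ) (c : J → ℝ) (A : J → X → ℝ) (a : ℝ) (p : X → Y) (S : X) :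
    ∑ q ∈ T, c q * gamD w g (A q) a p S = gamD w g (∑ q ∈ T, c q • A q) a p S := by
  unfold gamD
  have e1 : ∀ t : ℝ, cC (w + (t - a) • g) p (∑ q ∈ T, c q • A q) g S = ∑ q ∈ T, c q * cC (w + (t - a) • g) p (A q) g S := by
    intro t
    obtain ⟨v, hv⟩ : ∃ v : X → ℝ, v = w + (t - a) • g := ⟨_, rfl⟩
    rw [← hv]
    classical
    induction T using Finset.induction_on with
    | empty =>
      rw [sum_empty, sum_empty, cC_meas_left v (h := (0 : X → ℝ)) (fun _ _ _ => rfl) g]
      rfl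
    | insert q T hq ih => rw [sum_insert hq, sum_insert hq, cC_add_left, Pi.add_apply, ih, cC_smul_left, Pi.smul_apply, smul_eq_mul]
  simp only [e1]
  rw [intervalIntegral.integral_finsetSum fun q _ => ((cont_cC w g a p (A q) g S).const_mul (c q)).intervalIntegrable _ _,
    Finset.mul_sum]
  refine Finset.sum_congr rfl fun q _ => ?_
  rw [intervalIntegral.integral_const_mul]
  ring

theorem gamD_bd {w g A : X → ℝ} {a : ℝ} {p : X → Y} {S : X} {K : ℝ → ℝ} (hK : Continuous K)
    (h : ∀ t, |cC (w + (t - a) • g) p A g S| ≤ K t) : |gamD w g A a p S| ≤ 1 / 2 * ∫ t in (-1 : ℝ)..1, K t := by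
  unfold gamD
  rw [abs_mul, abs_of_pos (by norm_num : (0 : ℝ) < 1 / 2)]
  refine mul_le_mul_of_nonneg_left ?_ (by norm_num)
  refine (intervalIntegral.abs_integral_le_integral_abs (by norm_num)).trans ?_
  exact intervalIntegral.integral_mono_on (by norm_num) ((cont_cC w g a p A g S).abs.intervalIntegrable _ _)
    (hK.intervalIntegrable _ _) fun t _ => h t

variable {Ω : Type*} [MeasurableSpace Ω]

theorem meas_gam {w g : Ω → X → ℝ} {a : Ω → ℝ} (hw : ∀ x, Measurable fun ω => w ω x) (hg : ∀ x, Measurable fun ω => g ω x)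
    (ha : Measurable a) (p : X → Y) (S : X) : Measurable fun ω => gam (w ω) (g ω) (a ω) p S := by
  unfold gam
  have h1 : Measurable fun q : Ω × ℝ => cE (w q.1 + (q.2 - a q.1) • g q.1) p (g q.1) S :=
    meas_cE (fun x => ((hw x).comp measurable_fst).add
      ((measurable_snd.sub (ha.comp measurable_fst)).mul ((hg x).comp measurable_fst))) (fun x => (hg x).comp measurable_fst) p S
  have h2 : ∀ ω, ∫ t in (-1 : ℝ)..1, cE (w ω + (t - a ω) • g ω) p (g ω) S =
      ∫ t, cE (w ω + (t - a ω) • g ω) p (g ω) S ∂(volume.restrict (Set.Ioc (-1 : ℝ) 1)) := fun ω =>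
    intervalIntegral.integral_of_le (by norm_num)
  simp only [h2]
  exact ((h1.stronglyMeasurable.integral_prod_right' (ν := volume.restrict (Set.Ioc (-1 : ℝ) 1))).measurable).const_mul _

theorem meas_gamD {w g A : Ω → X → ℝ} {a : Ω → ℝ} (hw : ∀ x, Measurable fun ω => w ω x)
    (hg : ∀ x, Measurable fun ω => g ω x) (hA : ∀ x, Measurable fun ω => A ω x) (ha : Measurable a) (p : X → Y) (S : X) :
    Measurable fun ω => gamD (w ω) (g ω) (A ω) (a ω) p S := by
  unfold gamD
  have h1 : Measurable fun q : Ω × ℝ => cC (w q.1 + (q.2 - a q.1) • g q.1) p (A q.1) (g q.1) S :=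
    meas_cC (fun x => ((hw x).comp measurable_fst).add
      ((measurable_snd.sub (ha.comp measurable_fst)).mul ((hg x).comp measurable_fst))) (fun x => (hA x).comp measurable_fst)
      (fun x => (hg x).comp measurable_fst) p S
  have h2 : ∀ ω, ∫ t in (-1 : ℝ)..1, cC (w ω + (t - a ω) • g ω) p (A ω) (g ω) S =
      ∫ t, cC (w ω + (t - a ω) • g ω) p (A ω) (g ω) S ∂(volume.restrict (Set.Ioc (-1 : ℝ) 1)) := fun ω =>
    intervalIntegral.integral_of_le (by norm_num)
  simp only [h2]
  exact ((h1.stronglyMeasurable.integral_prod_right' (ν := volume.restrict (Set.Ioc (-1 : ℝ) 1))).measurable).const_mul _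

end Abs

section Site

variable {Q : Finset (Finset ℕ)} [Nonempty (Px Q)]

open Pool.W7d29a1.C0.H41 (Wt)
open Pool.W7d29a1.C0.R63 (Bl)

theorem hasDerivAt_psi {γ : ℝ → Px Q → ℝ} {γ' : Px Q → ℝ} {x : ℝ} (h : ∀ S, HasDerivAt (fun t => γ t S) (γ' S) x)
    (g f : Px Q → ℝ) (y : Fin 3 → Px Q) : HasDerivAt (fun t => psi (γ t) g f y) (psi γ' g f y) x := by
  unfold psi
  exact ((((h (y 2)).sub (h (y 1))).const_mul (1 / 2)).mul_const _).mul_const _

theorem hasDerivAt_psR {be d : ℕ} {γ : ℝ → Px Q → ℝ} {γ' : Px Q → ℝ} {x : ℝ} (h : ∀ S, HasDerivAt (fun t => γ t S) (γ' S) x)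
    (g f : Px Q → ℝ) (y : Fin 3 → Px Q) : HasDerivAt (fun t => psR be d (γ t) g f y) (psR be d γ' g f y) x := by
  unfold psR
  split_ifs
  · exact hasDerivAt_const x 0
  · exact hasDerivAt_psi h g f y

theorem hasDerivAt_psL {c al be d : ℕ} {γ : ℝ → Px Q → ℝ} {γ' : Px Q → ℝ} {x : ℝ}
    (h : ∀ S, HasDerivAt (fun t => γ t S) (γ' S) x) (g f : Px Q → ℝ) (y : Fin 3 → Px Q) :
    HasDerivAt (fun t => psL c al be d (γ t) g f y) (psL c al be d γ' g f y) x := by
  unfold psL
  split_ifs
  · exact hasDerivAt_psi h g f y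
  · exact hasDerivAt_const x 0

variable {Y : Type*} [DecidableEq Y] {S : Finset Pt} {w : Env → Px Q → ℝ} {N : Pt → Px Q → ℝ} {V : ℝ}
  {T F : Env → Px Q → ℝ}

/-- The site derivatives of `gam`. -/
theorem site_gam (hw : Wt S w N V) (hT : Bl S T) (a : ℝ) (p : Px Q → Y) : ∀ q ∈ S, ∀ (η : Env) (x : ℝ) (S0 : Px Q),
    HasDerivAt (fun t => gam (w (Function.update η q t)) (T (Function.update η q t)) a p S0)
      (gamD (w (Function.update η q x)) (T (Function.update η q x)) (N q) a p S0) x := by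
  intro q hq η x S0
  have e : ∀ t : ℝ, T (Function.update η q t) = T η := fun t => hT q hq η t
  simp only [e]
  exact hasDerivAt_gam (fun y => hw.der q hq η y) (T η) a p S0 x

/-- **The site derivatives of `psR` with `γ = gam`.** -/
theorem sd_psR (hw : Wt S w N V) (hT : Bl S T) (hF : Bl S F) (a : ℝ) (p : Px Q → Y) (be d : ℕ) :
    Sd S (fun η => psR be d (gam (w η) (T η) a p) (T η) (F η))
      (fun q η => psR be d (gamD (w η) (T η) (N q) a p) (T η) (F η)) := by
  intro q hq η x y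
  have eT : ∀ t : ℝ, T (Function.update η q t) = T η := fun t => hT q hq η t
  have eF : ∀ t : ℝ, F (Function.update η q t) = F η := fun t => hF q hq η t
  have h := fun S0 => site_gam hw hT a p q hq η x S0
  simp only [eT] at h
  show HasDerivAt (fun t => psR be d (gam (w (Function.update η q t)) (T (Function.update η q t)) a p)
    (T (Function.update η q t)) (F (Function.update η q t)) y) _ x
  simp only [eT, eF]
  exact hasDerivAt_psR h (T η) (F η) y

/-- **The site derivatives of `psL` with `γ = gam`.** -/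
theorem sd_psL (hw : Wt S w N V) (hT : Bl S T) (hF : Bl S F) (a : ℝ) (p : Px Q → Y) (c al be d : ℕ) :
    Sd S (fun η => psL c al be d (gam (w η) (T η) a p) (T η) (F η))
      (fun q η => psL c al be d (gamD (w η) (T η) (N q) a p) (T η) (F η)) := by
  intro q hq η x y
  have eT : ∀ t : ℝ, T (Function.update η q t) = T η := fun t => hT q hq η t
  have eF : ∀ t : ℝ, F (Function.update η q t) = F η := fun t => hF q hq η t
  have h := fun S0 => site_gam hw hT a p q hq η x S0
  simp only [eT] at h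
  show HasDerivAt (fun t => psL c al be d (gam (w (Function.update η q t)) (T (Function.update η q t)) a p)
    (T (Function.update η q t)) (F (Function.update η q t)) y) _ x
  simp only [eT, eF]
  exact hasDerivAt_psL h (T η) (F η) y

end Site

section Slab

variable {Q : Finset (Finset ℕ)} [Nonempty (Px Q)] [SwQ Q] {c al be d m0 : ℕ} {w : Px Q → ℝ}

/-- The general form: `A` is unchanged by the swap of the rows `[al', be']`, `g` is exchanged. -/
theorem cC_swap {c' d' : ℕ} (hc : c ≤ c') (hd : d' ≤ d) (hab : al ≤ be) (hw : Wk c' al be d' w) {g : Px Q → ℝ}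
    (hg : Lk al be g) {A : Px Q → ℝ} (hA : ∀ S S', Mt c' al be d' S S' → A (sw c' d' S S') = A S) {K M : ℝ}
    (hK : ∀ S, |A S| ≤ K) (hM : ∀ S, |g S| ≤ M) (S0 : Px Q) :
    |cC w (pJ c d) A g S0| ≤ 2 * (K * M) * cE2 w (pJ c d) (NM c' al be d') S0 S0 := by
  classical
  have hcr : Crs (pJ (Q := Q) c d) (pJ c' d') := crs_pJ hc hd
  have hinv : ∀ S S', Mt c' al be d' S S' → pJ c d (sw c' d' S S') = pJ c d S := fun S S' h => hcr _ _ (pJ_sw hab h)
  have hsy : ∀ {S S' : Px Q}, Mt c' al be d' S S' → Mt c' al be d' S' S := fun h => by rw [Mt_symm]; exact h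
  have h0 := swap_zero hab hw hg
    (fun S S' => (if pJ c d S = pJ c d S0 then (if pJ c d S' = pJ c d S0 then (1 : ℝ) else 0) else 0) * (A S - A S'))
    (fun S S' hm => by
      show (if pJ c d (sw c' d' S S') = pJ c d S0 then (if pJ c d (sw c' d' S' S) = pJ c d S0 then (1 : ℝ) else 0) else 0) *
        (A (sw c' d' S S') - A (sw c' d' S' S)) = _
      rw [hinv _ _ hm, hinv _ _ (hsy hm), hA _ _ hm, hA _ _ (hsy hm)])
  -- the two replica form
  have e1 : cC w (pJ c d) A g S0 = cE2 w (pJ c d) (fun S S' => 1 / 2 * (A S - A S') * (g S - g S')) S0 S0 := by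
    rw [← cC_two w (pJ c d) A g S0]
    unfold cE2
    have e2 : ∀ S, pJ c d S = pJ c d S0 → cE w (pJ c d) (fun b => 1 / 2 * (A S - A b) * (g S - g b)) S =
        cE w (pJ c d) (fun b => 1 / 2 * (A S - A b) * (g S - g b)) S0 := fun S hS => cE_meas w (pJ c d) _ S S0 hS
    show cE w (pJ c d) (fun a => cE w (pJ c d) (fun b => 1 / 2 * (A a - A b) * (g a - g b)) a) S0 =
      cE w (pJ c d) (fun z => cE w (pJ c d) (fun z' => 1 / 2 * (A z - A z') * (g z - g z')) S0) S0
    have e3 : ∀ k k' : Px Q → ℝ, (∀ S, pJ c d S = pJ c d S0 → k S = k' S) → cE w (pJ c d) k S0 = cE w (pJ c d) k' S0 := by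
      intro k k' hk
      unfold cE
      congr 1
      refine sum_congr rfl fun S _ => ?_
      split_ifs with h
      · rw [hk S h]
      · rfl
    exact e3 _ _ e2
  have e4 : cE2 w (pJ c d) (fun S S' => (1 - NM c' al be d' S S') * (1 / 2 * (A S - A S') * (g S - g S'))) S0 S0 = 0 := by
    have e5 : cE2 w (pJ c d) (fun S S' => (1 - NM c' al be d' S S') * (1 / 2 * (A S - A S') * (g S - g S'))) S0 S0 =
        1 / 2 * ((∑ S, ∑ S', (if Mt c' al be d' S S' then Real.exp (w S) * Real.exp (w S') *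
          ((if pJ c d S = pJ c d S0 then (if pJ c d S' = pJ c d S0 then (1 : ℝ) else 0) else 0) * (A S - A S')) *
            (g S - g S') else 0)) / (fz w (pJ c d) S0 * fz w (pJ c d) S0)) := by
      unfold cE2 cE
      rw [eq_comm, ← div_div, sum_div, mul_div_assoc', mul_sum]
      congr 1
      refine sum_congr rfl fun S _ => ?_
      split_ifs with h1
      · rw [mul_div_assoc', mul_div_assoc', mul_sum, mul_sum]
        congr 1
        refine sum_congr rfl fun S' _ => ?_
        beta_reduce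
        by_cases hm : Mt c' al be d' S S'
        · rw [NM_of hm, if_pos hm]
          split_ifs <;> ring
        · rw [NM_of_not hm, if_neg hm]
          split_ifs <;> ring
      · rw [mul_eq_zero]
        right
        rw [div_eq_zero_iff]
        left
        refine sum_eq_zero fun S' _ => ?_
        split_ifs <;> ring
    rw [e5, h0, zero_div, mul_zero]
  have e6 : cC w (pJ c d) A g S0 =
      cE2 w (pJ c d) (fun S S' => NM c' al be d' S S' * (1 / 2 * (A S - A S') * (g S - g S'))) S0 S0 := by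
    rw [e1, show (fun S S' => 1 / 2 * (A S - A S') * (g S - g S')) = fun S S' =>
      (1 - NM c' al be d' S S') * (1 / 2 * (A S - A S') * (g S - g S')) +
        NM c' al be d' S S' * (1 / 2 * (A S - A S') * (g S - g S')) from funext fun S => funext fun S' => by ring,
      cE2_add, e4, zero_add]
  have hKM : 0 ≤ 2 * (K * M) := by
    have h1 := (abs_nonneg _).trans (hK S0)
    have h2 := (abs_nonneg _).trans (hM S0)
    positivity
  have hpt : ∀ S S' : Px Q, |NM c' al be d' S S' * (1 / 2 * (A S - A S') * (g S - g S'))| ≤ 2 * (K * M) * NM c' al be d' S S' := by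
    intro S S'
    have h1 : |A S - A S'| ≤ 2 * K := (abs_sub _ _).trans (by linarith [hK S, hK S'])
    have h2 : |g S - g S'| ≤ 2 * M := (abs_sub _ _).trans (by linarith [hM S, hM S'])
    have h3 := mul_le_mul h1 h2 (abs_nonneg _) ((abs_nonneg _).trans h1)
    rw [abs_mul, abs_of_nonneg (NM_nonneg c' al be d' S S'), mul_comm (2 * (K * M))]
    refine mul_le_mul_of_nonneg_left ?_ (NM_nonneg _ _ _ _ _ _)
    rw [abs_mul, abs_mul, abs_of_pos (by norm_num : (0 : ℝ) < 1 / 2)]
    linarith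
  rw [e6, ← cE2_mul, abs_le]
  constructor
  · have h1 : cE2 w (pJ c d) (fun z z' => -1 * (2 * (K * M) * NM c' al be d' z z')) S0 S0 ≤
        cE2 w (pJ c d) (fun S S' => NM c' al be d' S S' * (1 / 2 * (A S - A S') * (g S - g S'))) S0 S0 :=
      cE2_mono w (pJ c d) (fun z z' => by linarith [(abs_le.1 (hpt z z')).1]) S0 S0
    rw [cE2_mul w (pJ c d) (-1)] at h1
    linarith
  · exact cE2_mono w (pJ c d) (fun z z' => (abs_le.1 (hpt z z')).2) S0 S0

theorem cE_mono_on (w : Px Q → ℝ) {Y : Type*} [DecidableEq Y] (p : Px Q → Y) {f g : Px Q → ℝ} (S0 : Px Q)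
    (h : ∀ S, p S = p S0 → f S ≤ g S) : cE w p f S0 ≤ cE w p g S0 := by
  unfold cE
  refine div_le_div_of_nonneg_right (sum_le_sum fun S _ => ?_) (fz_pos w p S0).le
  split_ifs with hS
  · exact mul_le_mul_of_nonneg_left (h S hS) (Real.exp_pos _).le
  · exact le_rfl

theorem cE2_mono_on (w : Px Q → ℝ) {Y : Type*} [DecidableEq Y] (p : Px Q → Y) {K K' : Px Q → Px Q → ℝ} (S0 S0' : Px Q)
    (h : ∀ S S', p S = p S0 → p S' = p S0' → K S S' ≤ K' S S') : cE2 w p K S0 S0' ≤ cE2 w p K' S0 S0' := by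
  unfold cE2
  exact cE_mono_on w p S0 fun S hS => cE_mono_on w p S0' fun S' hS' => h S S' hS hS'

theorem NI_of_meet {i j k : ℕ} (h1 : i ≤ k) (h2 : k ≤ j) {S S' : Px Q} (h : ps S k = ps S' k) : NI i j S S' = 0 := by
  unfold NI
  rw [if_neg fun hn => hn k h1 h2 h]

/-- **Forward slab inside the window**: `A` sees only the rows behind `m₀`. -/
theorem cC_slabR (hcal : c ≤ al) (hab : al ≤ be) (hm : m0 ≤ d) (hw : Wk c al be m0 w) {g : Px Q → ℝ} (hg : Lk al be g)
    {A : Px Q → ℝ} (hA : ∀ S S', (∀ i, m0 ≤ i → ps S i = ps S' i) → A S = A S') {K M : ℝ} (hK : ∀ S, |A S| ≤ K)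
    (hM : ∀ S, |g S| ≤ M) (S0 : Px Q) :
    |cC w (pJ c d) A g S0| ≤ 2 * (K * M) * cE2 w (pJ c d) (NI be m0) S0 S0 := by
  have hKM : 0 ≤ 2 * (K * M) := by
    have h1 := (abs_nonneg _).trans (hK S0)
    have h2 := (abs_nonneg _).trans (hM S0)
    positivity
  refine (cC_swap le_rfl hm hab hw hg (fun S S' h => hA _ _ fun i hi => ps_sw_out hab h (Or.inr hi)) hK hM S0).trans ?_
  refine mul_le_mul_of_nonneg_left (cE2_mono_on w _ S0 S0 fun S S' hS hS' => ?_) hKM
  have e : ps S c = ps S' c := ps_of_le (hS.trans hS'.symm) le_rfl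
  have h1 := NM_le c al be m0 S S'
  rwa [NI_of_meet le_rfl hcal e, zero_add] at h1

/-- **Backward slab inside the window**: `A` sees only the rows before `m₀`. -/
theorem cC_slabL (hbed : be ≤ d) (hab : al ≤ be) (hm : c ≤ m0) (hw : Wk m0 al be d w) {g : Px Q → ℝ} (hg : Lk al be g)
    {A : Px Q → ℝ} (hA : ∀ S S', (∀ i, i ≤ m0 → ps S i = ps S' i) → A S = A S') {K M : ℝ} (hK : ∀ S, |A S| ≤ K)
    (hM : ∀ S, |g S| ≤ M) (S0 : Px Q) :
    |cC w (pJ c d) A g S0| ≤ 2 * (K * M) * cE2 w (pJ c d) (NI m0 al) S0 S0 := by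
  have hKM : 0 ≤ 2 * (K * M) := by
    have h1 := (abs_nonneg _).trans (hK S0)
    have h2 := (abs_nonneg _).trans (hM S0)
    positivity
  refine (cC_swap hm le_rfl hab hw hg (fun S S' h => hA _ _ fun i hi => ps_sw_out hab h (Or.inl hi)) hK hM S0).trans ?_
  refine mul_le_mul_of_nonneg_left (cE2_mono_on w _ S0 S0 fun S S' hS hS' => ?_) hKM
  have e : ps S d = ps S' d := ps_of_ge (hS.trans hS'.symm) le_rfl
  have h1 := NM_le m0 al be d S S'
  rwa [NI_of_meet hbed le_rfl e, add_zero] at h1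

theorem cont_cE' {X : Type*} [Fintype X] [Nonempty X] {Y : Type*} [DecidableEq Y] {v f : ℝ → X → ℝ}
    (hv : ∀ x, Continuous fun t => v t x) (hf : ∀ x, Continuous fun t => f t x) (p : X → Y) (S : X) :
    Continuous fun t => cE (v t) p (f t) S := by
  unfold cE
  refine Continuous.div (continuous_finsetSum _ fun x _ => ?_) ?_ fun t => (fz_pos (v t) p S).ne'
  · split_ifs
    · exact (Real.continuous_exp.comp (hv x)).mul (hf x)
    · exact continuous_const
  · unfold fz
    refine continuous_finsetSum _ fun x _ => ?_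
    split_ifs
    · exact Real.continuous_exp.comp (hv x)
    · exact continuous_const

theorem cont_cE2' {X : Type*} [Fintype X] [Nonempty X] {Y : Type*} [DecidableEq Y] {v : ℝ → X → ℝ}
    (hv : ∀ x, Continuous fun t => v t x) (p : X → Y) (K : X → X → ℝ) (S S' : X) :
    Continuous fun t => cE (v t) p (fun z => cE (v t) p (fun z' => K z z') S') S :=
  cont_cE' (v := v) (f := fun t z => cE (v t) p (fun z' => K z z') S') hv
    (fun x => cont_cE' (v := v) (f := fun _ z' => K x z') hv (fun _ => continuous_const) p S') p S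

theorem cont_cE2 (w g : Px Q → ℝ) (a : ℝ) {Y : Type*} [DecidableEq Y] (p : Px Q → Y) (K : Px Q → Px Q → ℝ) (S0 S0' : Px Q) :
    Continuous fun t : ℝ => cE2 (w + (t - a) • g) p K S0 S0' :=
  cont_cE2' (v := fun t => w + (t - a) • g)
    (fun _ => continuous_const.add ((continuous_id.sub continuous_const).mul continuous_const)) p K S0 S0'

/-- **The slab derivative of `gam`, forward slab inside the window.** -/
theorem abs_gamD_R {a : ℝ} {g : Px Q → ℝ} (hcal : c ≤ al) (hab : al ≤ be) (hm : m0 ≤ d) (hw : Wk c al be m0 w)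
    (hg : Lk al be g) {A : Px Q → ℝ} (hA : ∀ S S', (∀ i, m0 ≤ i → ps S i = ps S' i) → A S = A S') {K M : ℝ}
    (hK : ∀ S, |A S| ≤ K) (hM : ∀ S, |g S| ≤ M) (S0 : Px Q) :
    |gamD w g A a (pJ c d) S0| ≤ K * M * ∫ t in (-1 : ℝ)..1, cE2 (w + (t - a) • g) (pJ c d) (NI be m0) S0 S0 := by
  have h := gamD_bd (w := w) (g := g) (A := A) (a := a) (p := pJ c d) (S := S0)
    (K := fun t => 2 * (K * M) * cE2 (w + (t - a) • g) (pJ c d) (NI be m0) S0 S0)
    ((cont_cE2 w g a (pJ c d) (NI be m0) S0 S0).const_mul _)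
    (fun t => cC_slabR hcal hab hm (hw.add (hg.Wk.smul (t - a))) hg hA hK hM S0)
  rw [intervalIntegral.integral_const_mul] at h
  refine h.trans (le_of_eq (by ring))

/-- **The slab derivative of `gam`, backward slab inside the window.** -/
theorem abs_gamD_L {a : ℝ} {g : Px Q → ℝ} (hbed : be ≤ d) (hab : al ≤ be) (hm : c ≤ m0) (hw : Wk m0 al be d w)
    (hg : Lk al be g) {A : Px Q → ℝ} (hA : ∀ S S', (∀ i, i ≤ m0 → ps S i = ps S' i) → A S = A S') {K M : ℝ}
    (hK : ∀ S, |A S| ≤ K) (hM : ∀ S, |g S| ≤ M) (S0 : Px Q) :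
    |gamD w g A a (pJ c d) S0| ≤ K * M * ∫ t in (-1 : ℝ)..1, cE2 (w + (t - a) • g) (pJ c d) (NI m0 al) S0 S0 := by
  have h := gamD_bd (w := w) (g := g) (A := A) (a := a) (p := pJ c d) (S := S0)
    (K := fun t => 2 * (K * M) * cE2 (w + (t - a) • g) (pJ c d) (NI m0 al) S0 S0)
    ((cont_cE2 w g a (pJ c d) (NI m0 al) S0 S0).const_mul _)
    (fun t => cC_slabL hbed hab hm (hw.add (hg.Wk.smul (t - a))) hg hA hK hM S0)
  rw [intervalIntegral.integral_const_mul] at h
  refine h.trans (le_of_eq (by ring))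

end Slab

end

end Pool.Agent.W_7d29a1_C0.DGam14
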