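import Pool.Agent.W_7d29a1_C0.N38

/-!
MP_7d29a1_pr, [CURV0], leaf E5.8 (helper23), on `N38`: the stretches `j / l` of length `l`, the rows far from the stretch `i` (distance at
least `H`). `n38_rows`: `av D² ≤ 2 n e + 3 ρ h A + 2 (n G)²`, `n = ρ / l + 2`, `h = l + 2 H ≤ ρ`.
-/

set_option autoImplicit false
set_option linter.unusedSectionVars false

namespace Pool.Agent.W_7d29a1_C0.N38

open Finset MeasureTheory

noncomputable section

/-- The row `k` is at the distance at least `H` of the stretch `[i l, (i + 1) l)`. -/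
def far38 (l H i k : ℕ) : Prop := k + H ≤ i * l ∨ (i + 1) * l + H ≤ k

instance (l H i k : ℕ) : Decidable (far38 l H i k) := by
  unfold far38
  infer_instance

theorem far38_lt {l H i k j : ℕ} (hl : 0 < l) (hj : j / l = i) (h : far38 l H i k) : k + H ≤ j ∨ j + H < k := by
  have h1 : i * l ≤ j := by
    rw [← hj]
    exact Nat.div_mul_le_self j l
  have h2 : j < (i + 1) * l := by
    rw [← hj]
    exact Nat.lt_mul_of_div_lt (Nat.lt_succ_self _) hl
  rcases h with h | h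
  · exact Or.inl (h.trans h1)
  · exact Or.inr (by omega)

/-- The rows near one stretch. -/
theorem card_near38 (l H i : ℕ) (S : Finset ℕ) : (S.filter fun k => ¬ far38 l H i k).card ≤ l + 2 * H := by
  have h1 : (S.filter fun k => ¬ far38 l H i k) ⊆ Ico (i * l - H) ((i + 1) * l + H) := by
    intro k hk
    have h2 := (mem_filter.1 hk).2
    unfold far38 at h2
    rw [mem_Ico]
    omega
  refine (card_le_card h1).trans ?_
  rw [Nat.card_Ico, Nat.succ_mul]
  omega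

/-- The number of the stretches. -/
theorem card_st38 {l c ρ : ℕ} {S : Finset ℕ} (hl : 0 < l) (hS : S ⊆ Ico c (c + ρ)) : (S.image fun j => j / l).card ≤ ρ / l + 2 := by
  have h1 : (S.image fun j => j / l) ⊆ Ico (c / l) (c / l + ρ / l + 2) := by
    intro i hi
    obtain ⟨j, hj, rfl⟩ := mem_image.1 hi
    have h2 := mem_Ico.1 (hS hj)
    rw [mem_Ico]
    refine ⟨Nat.div_le_div_right h2.1, ?_⟩
    rw [Nat.div_lt_iff_lt_mul hl]
    have e1 := Nat.div_add_mod c l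
    have e2 := Nat.div_add_mod ρ l
    have e3 := Nat.mod_lt c hl
    have e4 := Nat.mod_lt ρ hl
    have e5 : (c / l + ρ / l + 2) * l = l * (c / l) + l * (ρ / l) + 2 * l := by ring
    omega
  refine (card_le_card h1).trans ?_
  rw [Nat.card_Ico, Nat.add_assoc, Nat.add_sub_cancel_left]

section Main

variable {X : ℕ → Type*} [∀ y, Fintype (X y)] {Ω : Type*} [MeasurableSpace Ω] {ys : Finset ℕ} {P : Measure Ω} [IsProbabilityMeasure P]
  {w : ∀ y, Ω → X y → ℝ}

/-- **One row at a time, weighted form, the rows of a block.** -/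
theorem n38_rows (hX : ∀ y ∈ ys, Nonempty (X y)) (hw : ∀ y ∈ ys, ∀ x, Measurable fun ω => w y ω x)
    {S : Finset ℕ} {Y : ℕ → ∀ y, Ω → X y → ℝ} (hY : ∀ j ∈ S, BM ys (Y j)) {l H c ρ : ℕ} (hl : 0 < l) (hS : S ⊆ Ico c (c + ρ))
    (hρ : l + 2 * H ≤ ρ) {A G e : ℝ} (hA0 : 0 ≤ A) (hG : 0 ≤ G) (he : 0 ≤ e)
    (hA : ∀ j ∈ S, av ys P w (fun y ω x => Y j y ω x ^ 2) ≤ A)
    (hrow : ∀ i, ∑ j ∈ S.filter (fun j => j / l = i),
      av ys P w (fun y ω x => Y j y ω x * ∑ k ∈ S.filter (far38 l H i), Y k y ω x) ≤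
        G * av ys P w (fun y ω x => |∑ k ∈ S.filter (far38 l H i), Y k y ω x|) + e) :
    av ys P w (fun y ω x => (∑ j ∈ S, Y j y ω x) ^ 2) ≤
      2 * (((ρ / l + 2 : ℕ) : ℝ) * e) + 3 * (ρ * ((l + 2 * H : ℕ) : ℝ) * A) + 2 * (((ρ / l + 2 : ℕ) : ℝ) * G) ^ 2 := by
  have h1 := n38 (P := P) (w := w) hX hw hY (fun j => j / l) (far38 l H) hG he (card_st38 hl hS) (card_near38 l H · S) hA fun i _ => hrow i
  refine h1.trans ?_
  obtain ⟨n, hn⟩ : ∃ n : ℝ, n = ((ρ / l + 2 : ℕ) : ℝ) := ⟨_, rfl⟩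
  obtain ⟨h, hh⟩ : ∃ h : ℝ, h = ((l + 2 * H : ℕ) : ℝ) := ⟨_, rfl⟩
  rw [← hn, ← hh]
  have hn0 : 0 ≤ n := hn ▸ Nat.cast_nonneg _
  have hh0 : 0 ≤ h := hh ▸ Nat.cast_nonneg _
  have hhρ : h ≤ ρ := hh ▸ (by exact_mod_cast hρ)
  have hcard : (S.card : ℝ) ≤ ρ := by
    have := card_le_card hS
    rw [Nat.card_Ico, Nat.add_sub_cancel_left] at this
    exact_mod_cast this
  have hs0 := Real.sqrt_nonneg A
  have hs2 : Real.sqrt A ^ 2 = A := Real.sq_sqrt hA0
  have a1 : 2 * (n * G) * (h * Real.sqrt A) ≤ (n * G) ^ 2 + h ^ 2 * A := by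
    have := sq_nonneg (n * G - h * Real.sqrt A)
    nlinarith
  have a2 : h ^ 2 * A ≤ ρ * h * A := by
    have : h * h ≤ ρ * h := mul_le_mul_of_nonneg_right hhρ hh0
    have := mul_le_mul_of_nonneg_right this hA0
    nlinarith
  have a3 : (S.card : ℝ) * h * A ≤ ρ * h * A :=
    mul_le_mul_of_nonneg_right (mul_le_mul_of_nonneg_right hcard hh0) hA0
  nlinarith

end Main

end

end Pool.Agent.W_7d29a1_C0.N38
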