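import Pool.Agent.W_7d29a1_C0.BasRow33
import Pool.Agent.W_7d29a1_C0.Base5D
import Pool.Agent.W_7d29a1_C0.DGam14

/-!
CURV0 (MP_7d29a1_pr), leaf E5.8, helper38: THE PASSENGERS. The mixed conditional cumulants `kX p gs w` do not see the part of the weights
which is a function of `p` (`kX_add_mp`) and are Markov (`Lk_kX`). So the exact response `ge5`, the third order part `N5e`, the odd part
`M5e` of a row `k` see only the rows of the environment in their window (`ge5_rows`, `N5e_rows`, `M5e_rows`) and the positions in it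
(`ge5_Lk`, `N5e_Lk`, `M5e_Lk`). A function of the positions of `[al, be]` is a function of the outside of a window which is disjoint (`Mp_of_Lk`).
-/

set_option autoImplicit false
set_option linter.unusedSectionVars false

namespace Pool.W7d29a1.C0.L38

open Finset MeasureTheory Pool.Agent.W_7d29a1_F Pool.Agent.W_7d29a1_X Pool.Agent.W_7d29a1_H
open Pool.Agent.W_7d29a1_C0.Mod92 Pool.Agent.W_7d29a1_C0 Pool.W7d29a1.C0
open Pool.W7d29a1.C0.VT31
open Pool.Agent.W_7d29a1_C0.Swap57 Pool.Agent.W_7d29a1_C0.E4T32 Pool.Agent.W_7d29a1_C0.Row96 Pool.Agent.W_7d29a1_C0.Base5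

noncomputable section

section Abs

variable {X : Type*} [Fintype X] [DecidableEq X] [Nonempty X] {Y : Type*} [DecidableEq Y]

/-- **A change of the weights which is a function of `p` is not seen by the conditional cumulants.** -/
theorem kX_add_mp {p : X → Y} {h : X → ℝ} (hh : Mp p h) (x : X) : ∀ (gs : List (X → ℝ)), gs ≠ [] → ∀ w : X → ℝ,
    kX p gs (w + h) x = kX p gs w x
  | [], h0, _ => absurd rfl h0
  | [g], _, w => by rw [kX_one, kX_one, cE_add_mp w hh]
  | g :: g' :: gs, _, w => by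
    have ih := kX_add_mp hh x (g' :: gs) (List.cons_ne_nil _ _)
    have d1 := hasDerivAt_kX p (g' :: gs) (hasDerivAt_line (w + h) g 0) x
    have d2 := hasDerivAt_kX p (g' :: gs) (hasDerivAt_line w g 0) x
    have e : (fun u : ℝ => kX p (g' :: gs) (w + h + u • g) x) = fun u => kX p (g' :: gs) (w + u • g) x := by
      funext u
      rw [show w + h + u • g = (w + u • g) + h by abel]
      exact ih _
    rw [e] at d1
    have h3 := d1.unique d2
    rwa [zero_smul, add_zero, add_zero] at h3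

theorem gb81_add_mp (w g : X → ℝ) {p : X → Y} {h : X → ℝ} (hh : Mp p h) : gb81 (w + h) g p = gb81 w g p := by
  unfold gb81
  congr 1
  refine intervalIntegral.integral_congr fun t _ => ?_
  rw [show w + h + t • g = (w + t • g) + h by abel, cE_add_mp _ hh]

/-- The exact response as a function of the path. -/
theorem gb81_apply (w g : X → ℝ) (p : X → Y) (x : X) : gb81 w g p x = 1 / 2 * ∫ t in (-1 : ℝ)..1, cE (w + t • g) p g x := by
  have h := lin81 (ContinuousLinearMap.proj (R := ℝ) (φ := fun _ : X => ℝ) x) w g p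
  exact h

/-- The exact response at the actual weights: `gam`. -/
theorem gam_eq (w g : X → ℝ) (a : ℝ) (p : X → Y) : DGam14.gam w g a p = gb81 (w - a • g) g p := by
  funext x
  rw [gb81_apply]
  unfold DGam14.gam
  congr 1
  refine intervalIntegral.integral_congr fun t _ => ?_
  rw [show w + (t - a) • g = w - a • g + t • g by rw [sub_smul]; abel]

theorem N1g_add_mp (w g γ : X → ℝ) {p : X → Y} {h : X → ℝ} (hh : Mp p h) : N1g (w + h) g p γ = N1g w g p γ := by
  funext x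
  unfold N1g
  congr 2
  refine intervalIntegral.integral_congr fun t _ => ?_
  rw [show w + h + t • g = (w + t • g) + h by abel, kX_add_mp hh x _ (List.cons_ne_nil _ _)]

end Abs

section Mod

variable {μ : Measure ℝ} {s : ℝ} {N : ℕ} {Q : Finset (Finset ℕ)} [SwQ Q] [Nonempty (Px Q)]

/-- **The conditional cumulants are Markov.** -/
theorem Lk_kX {c d : ℕ} (hcd : c ≤ d) : ∀ (gs : List (Px Q → ℝ)), gs ≠ [] → (∀ g ∈ gs, Lk c d g) → ∀ w : Px Q → ℝ, Wk c c d d w →
    Lk c d (kX (pJ c d) gs w)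
  | [], h0, _, _, _ => absurd rfl h0
  | [g], _, hg, w, hw => by
    rw [kX_one]
    exact Lk_cE hcd hw (hg g (List.mem_singleton.2 rfl))
  | g :: g' :: gs, _, hg, w, hw => by
    have hg' : Lk c d g := hg g (List.mem_cons_self ..)
    have ih := Lk_kX hcd (g' :: gs) (List.cons_ne_nil _ _) (fun f hf => hg f (List.mem_cons_of_mem _ hf))
    intro S S' h
    have d1 := hasDerivAt_kX (pJ (Q := Q) c d) (g' :: gs) (hasDerivAt_line w g 0) S
    have d2 := hasDerivAt_kX (pJ (Q := Q) c d) (g' :: gs) (hasDerivAt_line w g 0) S'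
    have e : (fun u : ℝ => kX (pJ (Q := Q) c d) (g' :: gs) (w + u • g) S) = fun u => kX (pJ (Q := Q) c d) (g' :: gs) (w + u • g) S' := by
      funext u
      exact ih (w + u • g) (hw.add (hg'.Wk.smul u)) S S' h
    rw [e] at d1
    have h3 := d1.unique d2
    rwa [zero_smul, add_zero] at h3

theorem Lk_gb81 {c d : ℕ} (hcd : c ≤ d) {w g : Px Q → ℝ} (hw : Wk c c d d w) (hg : Lk c d g) : Lk c d (gb81 w g (pJ c d)) := by
  intro S S' h
  rw [gb81_apply, gb81_apply]
  congr 1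
  refine intervalIntegral.integral_congr fun t _ => ?_
  exact Lk_cE hcd (hw.add (hg.Wk.smul t)) hg S S' h

omit [SwQ Q] [Nonempty (Px Q)] in
/-- **A function of the positions of `[al, be]` is a function of the outside of a disjoint window.** -/
theorem Mp_of_Lk {al be c d : ℕ} {f : Px Q → ℝ} (hf : Lk al be f) (h : be ≤ c ∨ d ≤ al) : Mp (pJ c d) f := fun S S' e =>
  hf S S' fun i h1 h2 => by
    rcases h with h | h
    · exact ps_of_le e (h2.trans h)
    · exact ps_of_ge e (h.trans h1)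

theorem Wk_w5 (δ B : ℝ) (b0 : ℕ) (ω : Env × Finset ℕ) (j : ℕ) {c d : ℕ} (h1 : c ≤ j - b0) (h2 : j + b0 ≤ d) :
    Wk (Q := Q) c c d d (w5 μ s N Q δ B b0 ω j) := by
  have hL : Lk c d (gg μ s Q δ B b0 ω j) := Lk_mono (al := j - b0) (be := j + b0) h1 h2 (Lk_gg δ B b0 j ω le_rfl le_rfl)
  have h := (Wk_lw (μ := μ) (s := s) (N := N) ω.1 (show c ≤ d by omega)).add (hL.Wk.smul (-sr ω.2 j)) (c := c) (d := d)
  have e : w5 μ s N Q δ B b0 ω j = lw μ s ω.1 N Q + (-sr ω.2 j) • gg μ s Q δ B b0 ω j := by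
    unfold w5 wm
    rw [neg_smul, sub_eq_add_neg]
  rw [e]
  exact h

/-! ### The exact response -/

theorem ge5_Lk (δ B : ℝ) {b0 b : ℕ} (hb : b0 ≤ b) (ω : Env × Finset ℕ) (j : ℕ) :
    Lk (j - b) (j + b) (ge5 μ s N Q δ B b0 b ω j) :=
  Lk_gb81 (by omega) (Wk_w5 δ B b0 ω j (by omega) (by omega))
    (Lk_mono (al := j - b0) (be := j + b0) (by omega) (by omega) (Lk_gg δ B b0 j ω le_rfl le_rfl))

/-- The weights without the kick of the row `j`, at two environments which agree on the rows of a window. -/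
theorem w5_rows (δ B : ℝ) {b0 b : ℕ} (hb : b0 ≤ b) {η η' : Env} (A : Finset ℕ) {j : ℕ} (h : Ag (j - b) (j + b) η η') :
    ∃ u : Px Q → ℝ, Mp (pJ (j - b) (j + b)) u ∧ w5 μ s N Q δ B b0 (η', A) j = w5 μ s N Q δ B b0 (η, A) j + u := by
  refine ⟨lw μ s η' N Q - lw μ s η N Q, lw_rows h, ?_⟩
  have e : gg μ s Q δ B b0 (η, A) j = gg μ s Q δ B b0 (η', A) j := gg_rows δ B b0 A (h.mono (by omega) (by omega))
  unfold w5 wm
  rw [e]
  abel

theorem ge5_rows (δ B : ℝ) {b0 b : ℕ} (hb : b0 ≤ b) {η η' : Env} (A : Finset ℕ) {j : ℕ} (h : Ag (j - b) (j + b) η η') :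
    ge5 μ s N Q δ B b0 b (η, A) j = ge5 μ s N Q δ B b0 b (η', A) j := by
  obtain ⟨u, hu, e⟩ := w5_rows (μ := μ) (s := s) (N := N) (Q := Q) δ B hb A h
  unfold ge5
  rw [e, gb81_add_mp _ _ hu, gg_rows δ B b0 A (h.mono (by omega) (by omega))]

/-! ### The parts -/

/-- **The third order part of a row is a function of the positions in its window.** -/
theorem N5e_Lk (δ B : ℝ) {b0 b b' : ℕ} (h0 : b0 ≤ b) (hb : b ≤ b') (ω : Env × Finset ℕ) (j : ℕ) :
    Lk (j - b') (j + b') (N5e μ s N Q δ B b0 b b' ω j) := by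
  have hg : Lk (j - b') (j + b') (gg μ s Q δ B b0 ω j) :=
    Lk_mono (al := j - b0) (be := j + b0) (by omega) (by omega) (Lk_gg δ B b0 j ω le_rfl le_rfl)
  have hγ : Lk (j - b') (j + b') (ge5 μ s N Q δ B b0 b ω j) :=
    Lk_mono (al := j - b) (be := j + b) (by omega) (by omega) (ge5_Lk δ B h0 ω j)
  intro S S' h
  unfold N5e N1g
  congr 2
  refine intervalIntegral.integral_congr fun t _ => ?_
  congr 1
  refine Lk_kX (by omega) _ (List.cons_ne_nil _ _) (fun f hf => ?_) _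
    ((Wk_w5 δ B b0 ω j (by omega) (by omega)).add (hg.Wk.smul t)) S S' h
  simp only [List.mem_cons, List.not_mem_nil, or_false] at hf
  rcases hf with rfl | rfl | rfl | rfl <;> assumption

/-- **The third order part of a row sees the rows of its window.** -/
theorem N5e_rows (δ B : ℝ) {b0 b b' : ℕ} (h0 : b0 ≤ b) (hb : b ≤ b') {η η' : Env} (A : Finset ℕ) {j : ℕ}
    (h : Ag (j - b') (j + b') η η') : N5e μ s N Q δ B b0 b b' (η, A) j = N5e μ s N Q δ B b0 b b' (η', A) j := by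
  obtain ⟨u, hu, e⟩ := w5_rows (μ := μ) (s := s) (N := N) (Q := Q) δ B (h0.trans hb) A h
  funext S
  unfold N5e
  rw [e, ge5_rows δ B h0 A (h.mono (by omega) (by omega)), N1g_add_mp _ _ _ hu, gg_rows δ B b0 A (h.mono (by omega) (by omega))]

theorem Fg_Lk (δ B : ℝ) {b0 b b' : ℕ} (h0 : b0 ≤ b) (hb : b ≤ b') (ω : Env × Finset ℕ) (j : ℕ) (t : ℝ) :
    Lk (j - b') (j + b') fun S => Fg (w5 μ s N Q δ B b0 ω j) (gg μ s Q δ B b0 ω j) (pW b' j) (ge5 μ s N Q δ B b0 b ω j) S t := by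
  have hg : Lk (j - b') (j + b') (gg μ s Q δ B b0 ω j) :=
    Lk_mono (al := j - b0) (be := j + b0) (by omega) (by omega) (Lk_gg δ B b0 j ω le_rfl le_rfl)
  have hγ : Lk (j - b') (j + b') (ge5 μ s N Q δ B b0 b ω j) :=
    Lk_mono (al := j - b) (be := j + b) (by omega) (by omega) (ge5_Lk δ B h0 ω j)
  have hw := (Wk_w5 (μ := μ) (s := s) (N := N) (Q := Q) δ B b0 ω j (c := j - b') (d := j + b') (by omega) (by omega)).add (hg.Wk.smul t)
  unfold Fg VT31.Zr
  exact Lk_sub (Lk_cE (by omega) hw hγ) (BasRow33.Lk_smul (Lk_cV (by omega) hw hγ) _)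

/-- The odd part: positions. -/
theorem M5e_Lk (δ B : ℝ) {b0 b b' : ℕ} (h0 : b0 ≤ b) (hb : b ≤ b') (ω : Env × Finset ℕ) (j : ℕ) :
    Lk (j - b') (j + b') (M5e μ s N Q δ B b0 b b' ω j) := by
  intro S S' h
  unfold M5e Mg Dc
  have h1 := Fg_Lk (μ := μ) (s := s) (N := N) (Q := Q) δ B h0 hb ω j 1 S S' h
  have h2 := Fg_Lk (μ := μ) (s := s) (N := N) (Q := Q) δ B h0 hb ω j (-1) S S' h
  beta_reduce at h1 h2
  rw [h1, h2]

theorem Fg_rows (δ B : ℝ) {b0 b b' : ℕ} (h0 : b0 ≤ b) (hb : b ≤ b') {η η' : Env} (A : Finset ℕ) {j : ℕ}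
    (h : Ag (j - b') (j + b') η η') (S : Px Q) (t : ℝ) :
    Fg (w5 μ s N Q δ B b0 (η, A) j) (gg μ s Q δ B b0 (η, A) j) (pW b' j) (ge5 μ s N Q δ B b0 b (η, A) j) S t =
    Fg (w5 μ s N Q δ B b0 (η', A) j) (gg μ s Q δ B b0 (η', A) j) (pW b' j) (ge5 μ s N Q δ B b0 b (η', A) j) S t := by
  obtain ⟨u, hu, e⟩ := w5_rows (μ := μ) (s := s) (N := N) (Q := Q) δ B (h0.trans hb) A h
  rw [e, ge5_rows δ B h0 A (h.mono (by omega) (by omega)), gg_rows δ B b0 A (h.mono (by omega) (by omega))]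
  unfold Fg VT31.Zr
  rw [show w5 μ s N Q δ B b0 (η, A) j + u + t • gg μ s Q δ B b0 (η', A) j =
    (w5 μ s N Q δ B b0 (η, A) j + t • gg μ s Q δ B b0 (η', A) j) + u by abel]
  unfold cV cC
  rw [show (pW (Q := Q) b' j) = pJ (j - b') (j + b') from rfl, cE_add_mp _ hu, cE_add_mp _ hu]

/-- The odd part: rows of the environment. -/
theorem M5e_rows (δ B : ℝ) {b0 b b' : ℕ} (h0 : b0 ≤ b) (hb : b ≤ b') {η η' : Env} (A : Finset ℕ) {j : ℕ}
    (h : Ag (j - b') (j + b') η η') : M5e μ s N Q δ B b0 b b' (η, A) j = M5e μ s N Q δ B b0 b b' (η', A) j := by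
  funext S
  unfold M5e Mg Dc
  have h1 := Fg_rows (μ := μ) (s := s) (N := N) (Q := Q) δ B h0 hb A h S 1
  have h2 := Fg_rows (μ := μ) (s := s) (N := N) (Q := Q) δ B h0 hb A h S (-1)
  rw [h1, h2]

/-! ### A sum of passengers -/

omit [SwQ Q] [Nonempty (Px Q)] in
theorem Ag_update {c d : ℕ} (η : Env) (q : Pt) (x : ℝ) (hq : q.1 ≤ (c : ℤ) ∨ (d : ℤ) < q.1) : Ag c d (Function.update η q x) η :=
  fun r h1 h2 => Function.update_of_ne (fun e => by rw [e] at h1 h2; omega) _ _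

/-- **A passenger is not seen from the sites off its window.** -/
theorem N5e_update (δ B : ℝ) {b0 b b' : ℕ} (h0 : b0 ≤ b) (hb : b ≤ b') (η : Env) (A : Finset ℕ) {k : ℕ} (q : Pt) (x : ℝ)
    (hq : q.1 ≤ ((k - b' : ℕ) : ℤ) ∨ ((k + b' : ℕ) : ℤ) < q.1) :
    N5e μ s N Q δ B b0 b b' (Function.update η q x, A) k = N5e μ s N Q δ B b0 b b' (η, A) k :=
  N5e_rows δ B h0 hb A (Ag_update η q x hq)

/-- The sum of the passengers of `T`. -/
theorem Mp_passengers (δ B : ℝ) {b0 b b' : ℕ} (h0 : b0 ≤ b) (hb : b ≤ b') (ω : Env × Finset ℕ) {T : Finset ℕ} {j : ℕ}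
    (hT : ∀ k ∈ T, k + 2 * b' ≤ j ∨ j + 2 * b' ≤ k) :
    Mp (pW b' j) fun S : Px Q => ∑ k ∈ T, N5e μ s N Q δ B b0 b b' ω k S := fun S S' h =>
  sum_congr rfl fun k hk => Mp_of_Lk (N5e_Lk δ B h0 hb ω k) (by
    rcases hT k hk with h1 | h1
    · left
      omega
    · right
      omega) S S' h

end Mod

end

end Pool.W7d29a1.C0.L38
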