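import Pool.Agent.W_7d29a1_C0.Blk86B

/-!
C0, helper86: THE GENERAL PRICE (laminar families of gaps). Conditional replicas `i < k`, `k ≤ 8`, each one given the base path `S` outside
of its block, with a gap (any length, inside the TIE block `[c' i, d' i]`) around the window `[u i, v i]`; for `i < i'` the tie blocks are
disjoint, or the tie block of `i'` is small with respect to the window of `i` and outside of it. Price `∏ i, L ^ ε / EE' (v i - u i)` given
every event which does not see the rows of the tie blocks. Windows, scales, the order: all inside of the proof.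
-/

set_option autoImplicit false

namespace Pool.Agent.W_7d29a1_C0.P86

open MeasureTheory ProbabilityTheory Filter Topology Finset
open Pool.Agent.W_7d29a1_F Pool.Agent.W_7d29a1_X Pool.Agent.W_7d29a1_h4g Pool.Agent.W_7d29a1_H
open Pool.Agent.W_7d29a1_HS (In wd md)
open Pool.Agent.W_7d29a1_HZ Pool.Agent.W_7d29a1_HZ.R72 Pool.Agent.W_7d29a1_Z.Asm72
open Pool.Agent.W_7d29a1_HZ.Z86
open Pool.Agent.W_7d29a1_C0.Mod92 (Px Pn lw ps pJ ne_Pn ps_Pn pos_card ps_of_le ps_of_ge)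
open Pool.W7d29a1.C0 (gm gz gz_pos)
open Pool.W7d29a1.C0.VT31 (Mp cE gm_mul_cE fz cE_sum)
open scoped ENNReal

variable {μ : Measure ℝ} {s : ℝ} {N : ℕ}

/-! ### Conditional masses: monotone, union -/

/-- The conditional mean sees only the fibre. -/
theorem cE_mono_fib {X Y : Type*} [Fintype X] [DecidableEq Y] (w : X → ℝ) (p : X → Y) {f g : X → ℝ} (x : X)
    (h : ∀ x', p x' = p x → f x' ≤ g x') : cE w p f x ≤ cE w p g x := by
  unfold cE
  refine div_le_div_of_nonneg_right (sum_le_sum fun x' _ => ?_) ?_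
  · split_ifs with e
    · exact mul_le_mul_of_nonneg_left (h x' e) (Real.exp_pos _).le
    · exact le_rfl
  · unfold fz
    exact sum_nonneg fun x' _ => by split_ifs <;> positivity

/-- **Union bound for conditional masses**; the replica agrees with the base path outside of its block. -/
theorem mc_le_sum {ι : Type*} {y c d : ℕ} {A : Finset ℕ → Finset ℕ → Prop} (P : Finset ι) (B : ι → Finset ℕ → Finset ℕ → Prop)
    (h : ∀ S S', S ⊆ range N → S' ⊆ range N → pos S N = y → pos S' N = y → (∀ i, i ≤ c ∨ d ≤ i → pos S i = pos S' i) →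
      A S S' → ∃ p ∈ P, B p S S') (η : Env) (S : Finset ℕ) :
    mc μ s N y c d A η S ≤ ∑ p ∈ P, mc μ s N y c d (B p) η S := by
  classical
  unfold mc
  by_cases hS : S ∈ Pn N y
  · simp only [dif_pos hS]
    have : Nonempty (Px (Pn N y)) := ⟨⟨S, hS⟩⟩
    have h1 : ∑ p ∈ P, cE (lw μ s η N (Pn N y)) (pJ c d) (fun S' => if B p S S'.1 then (1 : ℝ) else 0) ⟨S, hS⟩ =
        cE (lw μ s η N (Pn N y)) (pJ c d) (∑ p ∈ P, fun S' => if B p S S'.1 then (1 : ℝ) else 0) ⟨S, hS⟩ := by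
      rw [cE_sum, Finset.sum_apply]
    rw [h1]
    refine cE_mono_fib _ _ _ fun S' e => ?_
    rw [Finset.sum_apply]
    by_cases hA : A S S'.1
    · rw [if_pos hA]
      obtain ⟨g1, g2⟩ := mem_powersetCard.1 hS
      obtain ⟨g3, g4⟩ := mem_powersetCard.1 S'.2
      obtain ⟨p, hp, hB⟩ := h S S'.1 g1 g3 (by rw [pos_card g1, g2]) (by rw [pos_card g3, g4]) (fun i hi => by
        rcases hi with hi | hi
        · exact (ps_of_le e hi : ps S' i = ps (⟨S, hS⟩ : Px (Pn N y)) i).symm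
        · exact (ps_of_ge e hi : ps S' i = ps (⟨S, hS⟩ : Px (Pn N y)) i).symm) hA
      have h2 := single_le_sum (f := fun p => if B p S S'.1 then (1 : ℝ) else 0) (fun p _ => by split_ifs <;> norm_num) hp
      refine le_trans (le_of_eq ?_) h2
      show (1 : ℝ) = if B p S S'.1 then 1 else 0
      rw [if_pos hB]
    · rw [if_neg hA]
      exact sum_nonneg fun p _ => by split_ifs <;> norm_num
  · simp only [dif_neg hS, sum_const_zero, le_refl]

/-- Monotonicity. -/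
theorem mc_mono {y c d : ℕ} {A B : Finset ℕ → Finset ℕ → Prop}
    (h : ∀ S S', S ⊆ range N → S' ⊆ range N → pos S N = y → pos S' N = y → (∀ i, i ≤ c ∨ d ≤ i → pos S i = pos S' i) →
      A S S' → B S S') (η : Env) (S : Finset ℕ) : mc μ s N y c d A η S ≤ mc μ s N y c d B η S := by
  have h1 := mc_le_sum (μ := μ) (s := s) (N := N) (y := y) (c := c) (d := d) (A := A) ({()} : Finset Unit) (fun _ => B)
    (fun S S' h1 h2 h3 h4 h5 h6 => ⟨(), mem_singleton_self _, h S S' h1 h2 h3 h4 h5 h6⟩) η S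
  rwa [sum_singleton] at h1

/-! ### Gaps of any length -/

/-- The two paths meet in `[c, d]` before `u` and behind `v`, and not in `[u, v]`. -/
def Gap (c d u v : ℕ) (S S' : Finset ℕ) : Prop := ∃ a b' : ℕ, c ≤ a ∧ a ≤ u ∧ v ≤ b' ∧ b' ≤ d ∧
  pos S a = pos S' a ∧ pos S b' = pos S' b' ∧ NoMeet u v S S'

theorem Gap.symm {c d u v : ℕ} {S S' : Finset ℕ} (h : Gap c d u v S S') : Gap c d u v S' S := by
  obtain ⟨a, b', h1, h2, h3, h4, h5, h6, h7⟩ := h
  exact ⟨a, b', h1, h2, h3, h4, h5.symm, h6.symm, h7.symm⟩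

theorem Gap.mono {c d u v c' d' u' v' : ℕ} {S S' : Finset ℕ} (h : Gap c d u v S S') (hc : c' ≤ c) (hd : d ≤ d') (hu : u ≤ u')
    (hv : v' ≤ v) : Gap c' d' u' v' S S' := by
  obtain ⟨a, b', h1, h2, h3, h4, h5, h6, h7⟩ := h
  exact ⟨a, b', hc.trans h1, h2.trans hu, hv.trans h3, h4.trans hd, h5, h6, fun k hk1 hk2 => h7 k (by omega) (by omega)⟩

/-- The maximal gap. -/
theorem Gap.max {c d u v : ℕ} {S S' : Finset ℕ} (huv : u ≤ v) (h : Gap c d u v S S') : ∃ a b' : ℕ, c ≤ a ∧ a < u ∧ v < b' ∧ b' ≤ d ∧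
    pos S a = pos S' a ∧ pos S b' = pos S' b' ∧ ∀ k, a < k → k < b' → pos S k ≠ pos S' k := by
  obtain ⟨a, b', h1, h2, h3, h4, h5, h6, h7⟩ := h
  have hau : a < u := lt_of_le_of_ne h2 fun e => h7 u le_rfl huv (e ▸ h5)
  have hvb : v < b' := lt_of_le_of_ne h3 fun e => h7 v huv le_rfl (e ▸ h6)
  have e1 : ∃ k, v ≤ k ∧ pos S k = pos S' k := ⟨b', h3, h6⟩
  classical
  obtain ⟨b₁, hb₁⟩ : ∃ b₁, b₁ = Nat.find e1 := ⟨_, rfl⟩
  have hs := Nat.find_spec e1
  rw [← hb₁] at hs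
  have hb2 : b₁ ≤ b' := hb₁ ▸ Nat.find_min' e1 ⟨h3, h6⟩
  have hb3 : ∀ k, v ≤ k → k < b₁ → pos S k ≠ pos S' k := fun k hk1 hk2 hk3 => Nat.find_min e1 (hb₁ ▸ hk2) ⟨hk1, hk3⟩
  obtain ⟨a₁, ha₁⟩ : ∃ a₁, a₁ = Nat.findGreatest (fun k => pos S k = pos S' k) u := ⟨_, rfl⟩
  have ha2 : pos S a₁ = pos S' a₁ := ha₁ ▸ Nat.findGreatest_spec (P := fun k => pos S k = pos S' k) h2 h5
  have ha3 : a ≤ a₁ := ha₁ ▸ Nat.le_findGreatest h2 h5
  have ha4 : a₁ ≤ u := ha₁ ▸ Nat.findGreatest_le u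
  have ha5 : ∀ k, a₁ < k → k ≤ u → pos S k ≠ pos S' k := fun k hk1 hk2 => Nat.findGreatest_is_greatest (ha₁ ▸ hk1) hk2
  refine ⟨a₁, b₁, by omega, lt_of_le_of_ne ha4 fun e => h7 u le_rfl huv (e ▸ ha2),
    lt_of_le_of_ne hs.1 fun e => h7 v huv le_rfl (e ▸ hs.2), by omega, ha2, hs.2, fun k hk1 hk2 => ?_⟩
  rcases le_total k u with g | g
  · exact ha5 k hk1 g
  · rcases le_total k v with g' | g'
    · exact h7 k g g'
    · exact hb3 k g' hk2

/-- One interval of at most `t` rows meets at most two cells of length `t`. -/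
theorem card_hit {t x p q : ℕ} (hpq : q ≤ p + t) :
    ((range 15).filter fun j => ¬ Disjoint (Ico (x + j * t) (x + j * t + t)) (Ioc p q)).card ≤ 2 := by
  set T := (range 15).filter fun j => ¬ Disjoint (Ico (x + j * t) (x + j * t + t)) (Ioc p q) with hT
  rcases T.eq_empty_or_nonempty with h0 | h0
  · rw [h0]
    simp
  · set j0 := T.min' h0 with hj0
    have hsub : T ⊆ {j0, j0 + 1} := by
      intro j hj
      have h1 : j0 ≤ j := T.min'_le j hj
      have h2 := (mem_filter.1 hj).2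
      have h3 := (mem_filter.1 (T.min'_mem h0)).2
      rw [not_disjoint_iff] at h2 h3
      obtain ⟨r, hr1, hr2⟩ := h2
      obtain ⟨r', hr1', hr2'⟩ := h3
      rw [mem_Ico] at hr1 hr1'
      rw [mem_Ioc] at hr2 hr2'
      rw [← hj0] at hr1'
      rw [mem_insert, mem_singleton]
      by_contra hcon
      rw [not_or] at hcon
      have h4 : j0 + 2 ≤ j := by omega
      have h5 : (j0 + 2) * t ≤ j * t := Nat.mul_le_mul_right t h4
      have h6 : (j0 + 2) * t = j0 * t + 2 * t := by ring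
      omega
    exact (card_le_card hsub).trans card_le_two

/-- **The window of a gap, away from at most seven small blocks.** -/
theorem gap_cover {c d u v D : ℕ} (hD : 1 ≤ D) (hD4 : u + 4 * D ≤ v) (Ob : Finset (ℕ × ℕ)) (hOb : Ob.card ≤ 7)
    (hsz : ∀ o ∈ Ob, o.2 ≤ o.1 + D) (hout : ∀ o ∈ Ob, o.2 ≤ u ∨ v ≤ o.1) {S S' : Finset ℕ} (h : Gap c d u v S S') :
    ∃ m i : ℕ, i ≤ 64 ∧ Gpc c d (2 ^ m * D) (u + 1 + i * (2 ^ m * D) - 32 * (2 ^ m * D)) S S' ∧
      c < u + 1 + i * (2 ^ m * D) - 32 * (2 ^ m * D) ∧ u + 1 + i * (2 ^ m * D) - 32 * (2 ^ m * D) + 2 ^ m * D ≤ d ∧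
      ∀ o ∈ Ob, Disjoint (Ico (u + 1 + i * (2 ^ m * D) - 32 * (2 ^ m * D)) (u + 1 + i * (2 ^ m * D) - 32 * (2 ^ m * D) + 2 ^ m * D))
        (Ioc o.1 o.2) := by
  obtain ⟨a, b', h1, h2, h3, h4, h5, h6, h7⟩ := h.max (by omega)
  have e1 : ∃ m, b' ≤ a + 32 * (2 ^ m * D) := by
    refine ⟨b', ?_⟩
    have g1 : b' < 2 ^ b' := Nat.lt_two_pow_self
    have g2 : 2 ^ b' * 1 ≤ 2 ^ b' * D := Nat.mul_le_mul_left _ hD
    omega
  classical
  obtain ⟨m, hm⟩ : ∃ m, m = Nat.find e1 := ⟨_, rfl⟩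
  have hs := Nat.find_spec e1
  rw [← hm] at hs
  have hmin : ∀ m', m' < m → a + 32 * (2 ^ m' * D) < b' := fun m' h => not_le.1 (Nat.find_min e1 (hm ▸ h))
  rcases Nat.eq_zero_or_pos m with h0 | h0
  · -- the shortest scale: the first cell of the window
    subst h0
    rw [pow_zero, one_mul] at hs
    refine ⟨0, 32, by norm_num, ?_⟩
    rw [pow_zero, one_mul]
    have e2 : u + 1 + 32 * D - 32 * D = u + 1 := by omega
    rw [e2]
    refine ⟨⟨a, b', h1, by omega, by omega, h4, hs, h5, h6, fun k hk1 hk2 => h7 k (by omega) (by omega)⟩, by omega, by omega, ?_⟩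
    intro o ho
    rw [disjoint_left]
    intro r hr1 hr2
    rw [mem_Ico] at hr1
    rw [mem_Ioc] at hr2
    rcases hout o ho with g | g <;> omega
  · obtain ⟨m', rfl⟩ : ∃ m', m = m' + 1 := ⟨m - 1, by omega⟩
    have h8 := hmin m' (by omega)
    obtain ⟨t, ht⟩ : ∃ t, t = 2 ^ (m' + 1) * D := ⟨_, rfl⟩
    have ht2 : t = 2 * (2 ^ m' * D) := by rw [ht]; ring
    have htD : D ≤ t := by
      have : 1 * D ≤ 2 ^ (m' + 1) * D := Nat.mul_le_mul_right D Nat.one_le_two_pow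
      omega
    have h9 : a + 16 * t < b' := by omega
    rw [← ht] at hs
    -- the first cell in the gap
    have e2 : ∃ i, 32 * t + a + 1 ≤ u + 1 + i * t := by
      refine ⟨33 + a, ?_⟩
      have : (33 + a) * t = 33 * t + a * t := by ring
      have g : a * 1 ≤ a * t := Nat.mul_le_mul_left a (by omega)
      omega
    obtain ⟨i₀, hi₀⟩ : ∃ i₀, i₀ = Nat.find e2 := ⟨_, rfl⟩
    have hs2 := Nat.find_spec e2
    rw [← hi₀] at hs2
    have hi1 : u + 1 + i₀ * t ≤ 32 * t + a + t := by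
      rcases Nat.eq_zero_or_pos i₀ with g | g
      · rw [g, zero_mul]
        omega
      · obtain ⟨i', rfl⟩ : ∃ i', i₀ = i' + 1 := ⟨i₀ - 1, by omega⟩
        have g1 := not_le.1 (Nat.find_min e2 (m := i') (by omega))
        have g2 : (i' + 1) * t = i' * t + t := by ring
        omega
    set x := u + 1 + i₀ * t - 32 * t with hx
    have hx1 : a + 1 ≤ x ∧ x ≤ a + t := by omega
    -- pigeonhole
    have hex : ∃ j ∈ range 15, ∀ o ∈ Ob, Disjoint (Ico (x + j * t) (x + j * t + t)) (Ioc o.1 o.2) := by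
      by_contra hcon
      push Not at hcon
      have hsub : range 15 ⊆ Ob.biUnion fun o => (range 15).filter fun j => ¬ Disjoint (Ico (x + j * t) (x + j * t + t)) (Ioc o.1 o.2) := by
        intro j hj
        obtain ⟨o, ho, hd⟩ := hcon j hj
        exact mem_biUnion.2 ⟨o, ho, mem_filter.2 ⟨hj, hd⟩⟩
      have g1 := card_le_card hsub
      have g2 := g1.trans (card_biUnion_le)
      have g3 : ∑ o ∈ Ob, ((range 15).filter fun j => ¬ Disjoint (Ico (x + j * t) (x + j * t + t)) (Ioc o.1 o.2)).card ≤ ∑ o ∈ Ob, 2 :=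
        sum_le_sum fun o ho => card_hit ((hsz o ho).trans (by omega))
      rw [sum_const, smul_eq_mul] at g3
      rw [card_range] at g2
      omega
    obtain ⟨j, hj, hjo⟩ := hex
    rw [mem_range] at hj
    have hjt : j * t ≤ 14 * t := Nat.mul_le_mul_right t (by omega)
    have e3 : u + 1 + (i₀ + j) * t - 32 * t = x + j * t := by
      have : (i₀ + j) * t = i₀ * t + j * t := by ring
      omega
    refine ⟨m' + 1, i₀ + j, ?_, ?_⟩
    · by_contra hcon
      have g1 : 65 * t ≤ (i₀ + j) * t := Nat.mul_le_mul_right t (by omega)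
      omega
    · rw [← ht, e3]
      exact ⟨⟨a, b', h1, by omega, by omega, h4, hs, h5, h6, fun k hk1 hk2 => h7 k (by omega) (by omega)⟩, by omega, by omega, hjo⟩

variable [IsProbabilityMeasure μ] {c₀ C₀ : ℝ} {n₀ : ℕ}

/-! ### The numbers -/

/-- The sum of the prices over the scales and the cells. -/
theorem price_sum (h : In μ s c₀ C₀ n₀) : ∀ ε θ : ℝ, 0 < ε → 0 < θ → ∃ L₀ : ℕ, ∀ L : ℕ, L₀ ≤ L → ∀ N l D : ℕ, N ≤ L → (L : ℝ) ^ θ ≤ l →
    l ≤ N → D = l / 4 →
    (∀ m : ℕ, (L : ℝ) ^ (θ / 2) ≤ ((2 ^ m * D : ℕ) : ℝ)) ∧ 1 ≤ D ∧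
    ∑ _p ∈ range (Nat.log 2 N + 1) ×ˢ range 65, (L : ℝ) ^ (ε / 2) * (EE' μ s (2 ^ _p.1 * D))⁻¹ ≤ (L : ℝ) ^ ε * (EE' μ s l)⁻¹ := by
  intro ε θ hε hθ
  obtain ⟨a, K, ha, ha1, hK, hE⟩ := EE'_pow h
  obtain ⟨L₁, hL₁⟩ := Pool.Agent.W_7d29a1_Z.NumI77.large (show 0 < θ / 2 by positivity) 8
  obtain ⟨L₂, hL₂⟩ := Pool.Agent.W_7d29a1_Z.NumI77.large (show 0 < ε / 2 by positivity) (2 * (195 * K ^ 2))
  refine ⟨L₁ + L₂ + 1, fun L hL N l D hNL hlL hlN hD => ?_⟩
  obtain ⟨hL1, hL8, -⟩ := hL₁ L (by omega)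
  obtain ⟨-, -, hLlog⟩ := hL₂ L (by omega)
  have hLR : (1 : ℝ) ≤ L := by exact_mod_cast hL1
  have hL0 : (0 : ℝ) < L := by linarith
  have hθ2 : (L : ℝ) ^ θ = (L : ℝ) ^ (θ / 2) * (L : ℝ) ^ (θ / 2) := by
    rw [← Real.rpow_add hL0]
    congr 1
    ring
  have hl8 : (8 : ℝ) * (L : ℝ) ^ (θ / 2) ≤ l := by
    rw [hθ2] at hlL
    nlinarith
  have hl8' : 8 ≤ l := by
    have : (8 : ℝ) ≤ l := by nlinarith
    exact_mod_cast this
  have hD1 : 1 ≤ D := by omega
  have hDl : l ≤ 8 * D := by omega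
  have hDR : (l : ℝ) ≤ 8 * D := by exact_mod_cast hDl
  refine ⟨fun m => ?_, hD1, ?_⟩
  · have h1 : (L : ℝ) ^ (θ / 2) ≤ D := by linarith
    refine h1.trans ?_
    have h2 : D ≤ 2 ^ m * D := Nat.le_mul_of_pos_left _ (by positivity)
    exact_mod_cast h2
  · have hE0 : ∀ t, 0 < EE' μ s t := fun t => lt_of_lt_of_le zero_lt_one (le_max_left _ _)
    have hlD : EE' μ s l ≤ 3 * K * EE' μ s D := by
      have h1 := (hE D l hD1 (by omega)).2.2
      refine h1.trans ?_
      have hD0 : (0 : ℝ) < D := by exact_mod_cast hD1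
      have h2 : Real.sqrt ((l : ℝ) / D) ≤ 3 := by
        rw [Real.sqrt_le_left (by norm_num)]
        rw [div_le_iff₀ hD0]
        nlinarith
      have h3 : K * Real.sqrt ((l : ℝ) / D) ≤ K * 3 := mul_le_mul_of_nonneg_left h2 (by linarith)
      calc K * Real.sqrt ((l : ℝ) / D) * EE' μ s D ≤ K * 3 * EE' μ s D := mul_le_mul_of_nonneg_right h3 (hE0 D).le
        _ = 3 * K * EE' μ s D := by ring
    have hterm : ∀ p ∈ range (Nat.log 2 N + 1) ×ˢ range 65, (L : ℝ) ^ (ε / 2) * (EE' μ s (2 ^ p.1 * D))⁻¹ ≤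
        (L : ℝ) ^ (ε / 2) * (3 * K ^ 2 * (EE' μ s l)⁻¹) := by
      intro p _
      refine mul_le_mul_of_nonneg_left ?_ (by positivity)
      have h1 := (hE D (2 ^ p.1 * D) hD1 (Nat.le_mul_of_pos_left _ (by positivity))).1
      rw [inv_le_comm₀ (hE0 _) (by have := hE0 l; positivity)]
      have h2 : (3 * K ^ 2 * (EE' μ s l)⁻¹)⁻¹ = EE' μ s l / (3 * K ^ 2) := by
        rw [mul_inv, inv_inv]
        ring
      rw [h2, div_le_iff₀ (by positivity)]
      calc EE' μ s l ≤ 3 * K * EE' μ s D := hlD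
        _ ≤ 3 * K * (K * EE' μ s (2 ^ p.1 * D)) := mul_le_mul_of_nonneg_left h1 (by positivity)
        _ = EE' μ s (2 ^ p.1 * D) * (3 * K ^ 2) := by ring
    refine (sum_le_sum hterm).trans ?_
    rw [sum_const, card_product, card_range, card_range, nsmul_eq_mul]
    have hlogN : ((Nat.log 2 N : ℕ) : ℝ) ≤ 2 * Real.log L := by
      have hN1 : (1 : ℝ) ≤ N := by exact_mod_cast (show 1 ≤ N by omega)
      have h1 : ((Nat.log 2 N : ℕ) : ℝ) ≤ Real.logb 2 N := by
        have := Real.natLog_le_logb N 2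
        exact_mod_cast this
      have h2 : Real.logb 2 N ≤ 2 * Real.log N := by
        unfold Real.logb
        rw [div_le_iff₀ (Real.log_pos (by norm_num))]
        have h3 : (0.5 : ℝ) ≤ Real.log 2 := by linarith [Real.log_two_gt_d9]
        have h4 : 0 ≤ Real.log N := Real.log_nonneg hN1
        nlinarith
      have h5 : Real.log N ≤ Real.log L := Real.log_le_log (by linarith) (by exact_mod_cast hNL)
      linarith
    have hlog0 : 0 ≤ Real.log L := Real.log_nonneg hLR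
    have hfin : (((Nat.log 2 N + 1) * 65 : ℕ) : ℝ) * (3 * K ^ 2) ≤ (L : ℝ) ^ (ε / 2) := by
      push_cast
      refine le_trans ?_ hLlog
      have : (((Nat.log 2 N : ℕ) : ℝ) + 1) * 65 * (3 * K ^ 2) = 195 * K ^ 2 * (((Nat.log 2 N : ℕ) : ℝ) + 1) := by ring
      rw [this]
      have h6 : (0 : ℝ) ≤ 195 * K ^ 2 := by positivity
      calc 195 * K ^ 2 * (((Nat.log 2 N : ℕ) : ℝ) + 1) ≤ 195 * K ^ 2 * (2 * Real.log L + 2) :=
            mul_le_mul_of_nonneg_left (by linarith) h6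
        _ = 2 * (195 * K ^ 2) * (Real.log L + 1) := by ring
    have hex : (L : ℝ) ^ ε = (L : ℝ) ^ (ε / 2) * (L : ℝ) ^ (ε / 2) := by
      rw [← Real.rpow_add hL0]
      congr 1
      ring
    rw [hex]
    have hE1 : 0 ≤ (EE' μ s l)⁻¹ := (inv_pos.2 (hE0 l)).le
    calc (((Nat.log 2 N + 1) * 65 : ℕ) : ℝ) * ((L : ℝ) ^ (ε / 2) * (3 * K ^ 2 * (EE' μ s l)⁻¹))
        = (L : ℝ) ^ (ε / 2) * ((((Nat.log 2 N + 1) * 65 : ℕ) : ℝ) * (3 * K ^ 2)) * (EE' μ s l)⁻¹ := by ring
      _ ≤ (L : ℝ) ^ (ε / 2) * (L : ℝ) ^ (ε / 2) * (EE' μ s l)⁻¹ :=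
        mul_le_mul_of_nonneg_right (mul_le_mul_of_nonneg_left hfin (by positivity)) hE1

/-! ### Weights instead of events -/

omit [IsProbabilityMeasure μ] in
/-- The weight does not see the rows `J`. -/
def OffW (J : Finset ℕ) (f : Env → Finset ℕ → ℝ≥0∞) : Prop :=
  ∀ (η η' : Env) (S : Finset ℕ), (∀ q : Pt, ¬ (0 ≤ q.1 ∧ q.1.toNat ∈ J) → η q = η' q) → f η S = f η' S

/-- **From events to weights** (layer cake). -/
theorem wt_of_ev {y : ℤ} {B : Env → Finset ℕ → Prop} (hB : Ms B) {R e : ℝ≥0∞} {JJ : Set (Finset ℕ)}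
    (h : ∀ F : Env → Finset ℕ → Prop, Ms F → (∀ J ∈ JJ, OffRows J F) → P1 μ s N y (fun η S => F η S ∧ B η S) ≤ R * P1 μ s N y F + e)
    {f : Env → Finset ℕ → ℝ≥0∞} (hf : ∀ S, Measurable fun η => f η S) (hf1 : ∀ η S, f η S ≤ 1) (hfo : ∀ J ∈ JJ, OffW J f) :
    Q1 μ s N y (fun η S => f η S * ind (B η S)) ≤ R * Q1 μ s N y f + e := by
  classical
  have hlay : ∀ a : ℝ≥0∞, a ≤ 1 → ∫⁻ u in Set.Ioo (0 : ℝ) 1, ind (ENNReal.ofReal u < a) = a := by
    intro a ha
    have ha' : a ≠ ∞ := ne_top_of_le_ne_top ENNReal.one_ne_top ha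
    have h1 : ∀ u ∈ Set.Ioo (0 : ℝ) 1, ind (ENNReal.ofReal u < a) = (Set.Ioo (0 : ℝ) a.toReal).indicator 1 u := by
      intro u hu
      by_cases g : ENNReal.ofReal u < a
      · rw [ind_of g, Set.indicator_of_mem]
        · rfl
        · exact ⟨hu.1, (ENNReal.ofReal_lt_iff_lt_toReal hu.1.le ha').1 g⟩
      · rw [ind_not g, Set.indicator_of_notMem]
        exact fun g' => g ((ENNReal.ofReal_lt_iff_lt_toReal hu.1.le ha').2 g'.2)
    rw [setLIntegral_congr_fun measurableSet_Ioo h1, lintegral_indicator_one measurableSet_Ioo, Measure.restrict_apply measurableSet_Ioo,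
      Set.inter_eq_left.2, Real.volume_Ioo, sub_zero, ENNReal.ofReal_toReal ha']
    intro u hu
    refine ⟨hu.1, lt_of_lt_of_le hu.2 ?_⟩
    have := ENNReal.toReal_mono ENNReal.one_ne_top ha
    simpa using this
  have hmI : ∀ (S : Finset ℕ) (C : Env → Prop), MeasurableSet {η | C η} →
      Measurable fun p : Env × ℝ => ENNReal.ofReal (gp μ s p.1 N y S) * (ind (ENNReal.ofReal p.2 < f p.1 S) * ind (C p.1)) := by
    intro S C hC
    refine Measurable.mul ?_ (Measurable.mul ?_ ?_)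
    · exact ((Pool.Agent.W_7d29a1_HZ.measurable_gp N y S).ennreal_ofReal).comp measurable_fst
    · unfold ind
      refine Measurable.ite ?_ measurable_const measurable_const
      exact measurableSet_lt (ENNReal.measurable_ofReal.comp measurable_snd) ((hf S).comp measurable_fst)
    · exact (meas_ind hC).comp measurable_fst
  -- the layers
  have key : ∀ C : Env → Finset ℕ → Prop, Ms C → Q1 μ s N y (fun η S => f η S * ind (C η S)) =
      ∫⁻ u in Set.Ioo (0 : ℝ) 1, P1 μ s N y (fun η S => ENNReal.ofReal u < f η S ∧ C η S) := by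
    intro C hC
    have e1 : ∀ u : ℝ, P1 μ s N y (fun η S => ENNReal.ofReal u < f η S ∧ C η S) =
        ∑ S ∈ (range N).powerset, ∫⁻ η, ENNReal.ofReal (gp μ s η N y S) * (ind (ENNReal.ofReal u < f η S) * ind (C η S)) ∂law μ := by
      intro u
      rw [← Q1_ind (ms_and (fun S => measurableSet_lt measurable_const (hf S)) hC)]
      unfold Q1
      rw [lintegral_finsetSum]
      · refine sum_congr rfl fun S _ => lintegral_congr fun η => ?_
        show _ * ind (ENNReal.ofReal u < f η S ∧ C η S) = _ * (ind (ENNReal.ofReal u < f η S) * ind (C η S))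
        congr 1
        by_cases g : ENNReal.ofReal u < f η S
        · by_cases g' : C η S
          · rw [ind_of (show ENNReal.ofReal u < f η S ∧ C η S from ⟨g, g'⟩), ind_of g, ind_of g', mul_one]
          · rw [ind_not (show ¬ (ENNReal.ofReal u < f η S ∧ C η S) from fun h => g' h.2), ind_not g', mul_zero]
        · rw [ind_not (show ¬ (ENNReal.ofReal u < f η S ∧ C η S) from fun h => g h.1), ind_not g, zero_mul]
      · intro S _
        exact (Pool.Agent.W_7d29a1_HZ.measurable_gp N y S).ennreal_ofReal.mul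
          (meas_ind ((measurableSet_lt measurable_const (hf S)).inter (hC S)))
    have e3 : ∫⁻ u in Set.Ioo (0 : ℝ) 1, P1 μ s N y (fun η S => ENNReal.ofReal u < f η S ∧ C η S) =
        ∑ S ∈ (range N).powerset, ∫⁻ u in Set.Ioo (0 : ℝ) 1, ∫⁻ η, ENNReal.ofReal (gp μ s η N y S) *
          (ind (ENNReal.ofReal u < f η S) * ind (C η S)) ∂law μ := by
      rw [lintegral_congr e1, lintegral_finsetSum]
      exact fun S _ => Measurable.lintegral_prod_left' (hmI S (fun η => C η S) (hC S))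
    rw [e3]
    have e4 : Q1 μ s N y (fun η S => f η S * ind (C η S)) = ∑ S ∈ (range N).powerset,
        ∫⁻ η, ENNReal.ofReal (gp μ s η N y S) * (f η S * ind (C η S)) ∂law μ := by
      unfold Q1
      exact lintegral_finsetSum _ fun S _ =>
        (Pool.Agent.W_7d29a1_HZ.measurable_gp N y S).ennreal_ofReal.mul ((hf S).mul (meas_ind (hC S)))
    rw [e4]
    refine sum_congr rfl fun S _ => ?_
    rw [lintegral_lintegral_swap (f := fun u η => ENNReal.ofReal (gp μ s η N y S) * (ind (ENNReal.ofReal u < f η S) * ind (C η S)))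
      ((hmI S (fun η => C η S) (hC S)).comp measurable_swap).aemeasurable]
    refine lintegral_congr fun η => ?_
    rw [lintegral_const_mul, lintegral_mul_const, hlay _ (hf1 η S)]
    · unfold ind
      exact Measurable.ite (measurableSet_lt ENNReal.measurable_ofReal measurable_const) measurable_const measurable_const
    · refine Measurable.mul_const ?_ _
      unfold ind
      exact Measurable.ite (measurableSet_lt ENNReal.measurable_ofReal measurable_const) measurable_const measurable_const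
  have hmT : Ms (fun (_ : Env) (_ : Finset ℕ) => True) := fun S => by simp
  have e2 : Q1 μ s N y f = ∫⁻ u in Set.Ioo (0 : ℝ) 1, P1 μ s N y (fun η S => ENNReal.ofReal u < f η S) := by
    have h1 := key (fun _ _ => True) hmT
    have h2 : (fun (η : Env) (S : Finset ℕ) => f η S * ind True) = f := by
      funext η S
      rw [ind_of trivial, mul_one]
    rw [h2] at h1
    rw [h1]
    refine lintegral_congr fun u => ?_
    congr 1
    funext η S
    simp
  rw [key B hB, e2]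
  have h3 : ∀ u : ℝ, P1 μ s N y (fun η S => ENNReal.ofReal u < f η S ∧ B η S) ≤
      R * P1 μ s N y (fun η S => ENNReal.ofReal u < f η S) + e := by
    intro u
    refine h _ (fun S => measurableSet_lt measurable_const (hf S)) fun J hJ η η' S hη => ?_
    rw [hfo J hJ η η' S hη]
  refine (lintegral_mono fun u => h3 u).trans ?_
  rw [lintegral_add_right _ measurable_const, setLIntegral_const, Real.volume_Ioo]
  refine add_le_add ?_ ?_
  · refine le_of_eq ?_
    have hmm : Measurable fun u : ℝ => P1 μ s N y (fun η S => ENNReal.ofReal u < f η S) := by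
      have h4 : ∀ u : ℝ, P1 μ s N y (fun η S => ENNReal.ofReal u < f η S) =
          ∑ S ∈ (range N).powerset, ∫⁻ η, ENNReal.ofReal (gp μ s η N y S) * (ind (ENNReal.ofReal u < f η S) * ind True) ∂law μ := by
        intro u
        rw [← Q1_ind (fun S => measurableSet_lt measurable_const (hf S))]
        unfold Q1
        rw [lintegral_finsetSum]
        · refine sum_congr rfl fun S _ => lintegral_congr fun η => ?_
          rw [ind_of trivial, mul_one]
        · intro S _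
          exact (Pool.Agent.W_7d29a1_HZ.measurable_gp N y S).ennreal_ofReal.mul (meas_ind (measurableSet_lt measurable_const (hf S)))
      simp only [h4]
      exact Finset.measurable_sum _ fun S _ => Measurable.lintegral_prod_left' (hmI S (fun _ => True) (by simp))
    rw [lintegral_const_mul _ hmm]
  · norm_num

/-! ### Families of places -/

theorem ms_ex {ι : Type*} (P : Finset ι) {A : ι → Env → Finset ℕ → Prop} (hA : ∀ i, Ms (A i)) : Ms fun η S => ∃ i ∈ P, A i η S := by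
  intro S
  have e : {η : Env | ∃ i ∈ P, A i η S} = ⋃ i ∈ P, {η | A i η S} := by
    ext η
    simp only [Set.mem_ofPred_eq, Set.mem_iUnion, exists_prop]
  rw [e]
  exact Finset.measurableSet_biUnion _ fun i _ => hA i S

/-- The product of the conditional masses against the events `NT`, with a weight. -/
theorem Q1_multW {y k : ℕ} (hy : y ≤ N) (c d : Fin k → ℕ) (hcd : ∀ i, c i ≤ d i ∧ d i ≤ N)
    (A : Fin k → Finset ℕ → Finset ℕ → Prop) (hA : ∀ i, On2 (c i) (d i) (A i)) (NT : Fin k → Env → Finset ℕ → Prop)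
    (hms : ∀ i, Ms (NT i)) {f : Env → Finset ℕ → ℝ≥0∞} (hf : ∀ S, Measurable fun η => f η S) (hf1 : ∀ η S, f η S ≤ 1) (x : ℝ) :
    Q1 μ s N y (fun η S => f η S * ∏ i, ENNReal.ofReal (mc μ s N y (c i) (d i) (A i) η S)) ≤
      Q1 μ s N y (fun η S => f η S * ind (∀ i, NT i η S)) +
        ∑ i, (ENNReal.ofReal (Real.exp x) * P2 μ s N y (fun _ => 0) (fun η S S' => A i S' S ∧ ¬ NT i η S') +
          ENNReal.ofReal (((N : ℝ) + 1) ^ 2 * Real.exp (-x))) := by
  classical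
  have hm : ∀ S' : Finset ℕ, Measurable fun η : Env => ENNReal.ofReal (gp μ s η N y S') := fun S' =>
    (Pool.Agent.W_7d29a1_HZ.measurable_gp N y S').ennreal_ofReal
  -- the pointwise bound
  have h1 : Q1 μ s N y (fun η S => f η S * ∏ i, ENNReal.ofReal (mc μ s N y (c i) (d i) (A i) η S)) ≤
      Q1 μ s N y (fun η S => f η S * ind (∀ i, NT i η S) + ∑ i ∈ (univ : Finset (Fin k)),
        (ENNReal.ofReal (Real.exp x) * ((∑ S' ∈ (range N).powerset, ENNReal.ofReal (gp μ s η N y S') * ind (A i S S')) *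
          ind (¬ NT i η S)) + ind (Ge μ s N y (c i) (d i) η S ≤ Real.exp (-x)))) := by
    refine Q1_mono fun η S hS hSy => ?_
    have hb : ∀ i, ENNReal.ofReal (mc μ s N y (c i) (d i) (A i) η S) ≤ 1 := fun i => by
      rw [← ENNReal.ofReal_one]
      exact ENNReal.ofReal_le_ofReal (mc_le_one η S)
    by_cases hNT : ∀ i, NT i η S
    · refine le_trans ?_ le_self_add
      rw [ind_of hNT]
      exact mul_le_mul' le_rfl (prod_le_one' fun i _ => hb i)
    · push Not at hNT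
      obtain ⟨i, hi⟩ := hNT
      refine le_trans ?_ le_add_self
      refine le_trans ?_ (single_le_sum (f := fun i => (ENNReal.ofReal (Real.exp x) *
        ((∑ S' ∈ (range N).powerset, ENNReal.ofReal (gp μ s η N y S') * ind (A i S S')) *
          ind (¬ NT i η S)) + ind (Ge μ s N y (c i) (d i) η S ≤ Real.exp (-x)))) (fun _ _ => zero_le) (mem_univ i))
      have h2 : f η S * ∏ i, ENNReal.ofReal (mc μ s N y (c i) (d i) (A i) η S) ≤
          ENNReal.ofReal (mc μ s N y (c i) (d i) (A i) η S) := by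
        refine (mul_le_of_le_one_left zero_le (hf1 η S)).trans ?_
        rw [← mul_prod_erase univ _ (mem_univ i)]
        exact mul_le_of_le_one_right zero_le (prod_le_one' fun i _ => hb i)
      refine h2.trans ((mc_le hy (hcd i).1 (hcd i).2 (hA i) x η hS hSy).trans ?_)
      rw [ind_of hi, mul_one]
  refine h1.trans ?_
  have hms1 : ∀ S, Measurable fun η : Env => f η S * ind (∀ i, NT i η S) := fun S => (hf S).mul (meas_ind ((ms_all hms) S))
  have hms2 : ∀ i S, Measurable fun η : Env => (∑ S' ∈ (range N).powerset, ENNReal.ofReal (gp μ s η N y S') * ind (A i S S')) *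
      ind (¬ NT i η S) := fun i S =>
    (Finset.measurable_sum _ fun S' _ => (hm S').mul_const _).mul (meas_ind ((hms i S).compl))
  have hms3 : ∀ i S, Measurable fun η : Env => ind (Ge μ s N y (c i) (d i) η S ≤ Real.exp (-x)) := fun i S => by
    refine meas_ind (measurableSet_le ?_ measurable_const)
    unfold Ge
    exact Finset.measurable_sum _ fun S' _ => (Pool.Agent.W_7d29a1_HZ.measurable_gp N y S').mul_const _
  have hU := Q1_sum (μ := μ) (s := s) (N := N) (y := (y : ℤ)) (univ : Finset (Fin k)) (f := fun i η S =>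
    ENNReal.ofReal (Real.exp x) * ((∑ S' ∈ (range N).powerset, ENNReal.ofReal (gp μ s η N y S') * ind (A i S S')) *
      ind (¬ NT i η S)) + ind (Ge μ s N y (c i) (d i) η S ≤ Real.exp (-x))) (fun i S => ((hms2 i S).const_mul _).add (hms3 i S))
  rw [Q1_add hms1, hU]
  refine add_le_add le_rfl (sum_le_sum fun i _ => ?_)
  rw [Q1_add fun S => (hms2 i S).const_mul _]
  refine add_le_add ?_ ?_
  · have e1 : Q1 μ s N y (fun η S => ENNReal.ofReal (Real.exp x) *
        ((∑ S' ∈ (range N).powerset, ENNReal.ofReal (gp μ s η N y S') * ind (A i S S')) * ind (¬ NT i η S))) =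
        ENNReal.ofReal (Real.exp x) * Q1 μ s N y (fun η S =>
          ((∑ S' ∈ (range N).powerset, ENNReal.ofReal (gp μ s η N y S') * ind (A i S S')) * ind (¬ NT i η S))) := by
      unfold Q1
      rw [← lintegral_const_mul]
      · refine lintegral_congr fun η => ?_
        rw [mul_sum]
        exact sum_congr rfl fun S _ => by ring
      · exact Finset.measurable_sum _ fun S _ => (hm S).mul (hms2 i S)
    rw [e1, Q1_pair (B := fun η S => ¬ NT i η S) fun S => (hms i S).compl, P2_comm]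
  · unfold Q1
    refine (lintegral_mono fun η => sum_Ge ((hcd i).1.trans (hcd i).2) (hcd i).2 η (Real.exp_pos _).le).trans ?_
    rw [lintegral_const, measure_univ, mul_one]

/-- **The product price for families of places, with a weight.** -/
theorem lam_core {ι : Type*} {k : ℕ} {y : ℕ} (hy : y ≤ N) (P : Fin k → Finset ι) (r : Fin k → ι → ℝ≥0∞) (pe : ℝ≥0∞)
    (B : Fin k → ι → Finset ℕ → Finset ℕ → Prop) (J V : Fin k → ι → Finset ℕ)
    (hP : ∀ i, ∀ p ∈ P i, Pl μ s N y (r i p) pe (B i p) (J i p) (V i p))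
    (hJV : ∀ i i', i < i' → ∀ p ∈ P i, ∀ p' ∈ P i', Disjoint (J i p) (V i' p')) (c d : Fin k → ℕ) (hcd : ∀ i, c i ≤ d i ∧ d i ≤ N)
    (A : Fin k → Finset ℕ → Finset ℕ → Prop)
    (hA : ∀ i S S', S ⊆ range N → S' ⊆ range N → pos S N = y → pos S' N = y → (∀ j, j ≤ c i ∨ d i ≤ j → pos S j = pos S' j) →
      A i S S' → ∃ p ∈ P i, B i p S S') (hB : ∀ i p, On2 (c i) (d i) (B i p)) {f : Env → Finset ℕ → ℝ≥0∞}
    (hf : ∀ S, Measurable fun η => f η S) (hf1 : ∀ η S, f η S ≤ 1) (hfo : ∀ i, ∀ p ∈ P i, OffW (J i p) f) (x : ℝ) :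
    Q1 μ s N y (fun η S => f η S * ∏ i, ENNReal.ofReal (mc μ s N y (c i) (d i) (A i) η S)) ≤
      (∏ i, ∑ p ∈ P i, r i p) * Q1 μ s N y f + (∏ i, ((P i).card : ℝ≥0∞)) * (k * pe) +
        ∑ i, (ENNReal.ofReal (Real.exp x) * ((P i).card * pe) + ENNReal.ofReal (((N : ℝ) + 1) ^ 2 * Real.exp (-x))) := by
  classical
  -- the near ties
  have hex : ∀ i p, ∃ NT : Env → Finset ℕ → Prop, Ms NT ∧ (p ∈ P i → (∀ J' : Finset ℕ, Disjoint J' (V i p) → OffRows J' NT) ∧
      P2 μ s N y (fun _ => 0) (fun η S S' => B i p S' S ∧ ¬ NT η S') ≤ pe ∧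
      ∀ F : Env → Finset ℕ → Prop, Ms F → OffRows (J i p) F → P1 μ s N y (fun η S => F η S ∧ NT η S) ≤ r i p * P1 μ s N y F + pe) := by
    intro i p
    by_cases hp : p ∈ P i
    · obtain ⟨NT, h1, h2, h3, h4⟩ := hP i p hp
      exact ⟨NT, h1, fun _ => ⟨h2, h3, h4⟩⟩
    · exact ⟨fun _ _ => False, fun S => by simp, fun h => absurd h hp⟩
  choose NT hms hNT using hex
  set A' : Fin k → Finset ℕ → Finset ℕ → Prop := fun i S S' => ∃ p ∈ P i, B i p S S' with hA'
  have hon : ∀ i, On2 (c i) (d i) (A' i) := fun i S S' S'' h => by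
    simp only [hA']
    exact exists_congr fun p => and_congr_right fun _ => hB i p S S' S'' h
  have h0 : Q1 μ s N y (fun η S => f η S * ∏ i, ENNReal.ofReal (mc μ s N y (c i) (d i) (A i) η S)) ≤
      Q1 μ s N y (fun η S => f η S * ∏ i, ENNReal.ofReal (mc μ s N y (c i) (d i) (A' i) η S)) := by
    refine Q1_mono fun η S _ _ => mul_le_mul' le_rfl (Finset.prod_le_prod' fun i _ => ENNReal.ofReal_le_ofReal ?_)
    exact mc_mono (fun S S' g1 g2 g3 g4 g5 g6 => hA i S S' g1 g2 g3 g4 g5 g6) η S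
  refine h0.trans ((Q1_multW hy c d hcd A' hon (fun i η S => ∃ p ∈ P i, NT i p η S) (fun i => ms_ex (P i) (hms i)) hf hf1 x).trans ?_)
  refine add_le_add ?_ (sum_le_sum fun i _ => add_le_add (mul_le_mul' le_rfl ?_) le_rfl)
  · -- the union over the choices
    refine wt_of_ev (JJ := {J' | ∃ i, ∃ p ∈ P i, J' = J i p}) (ms_all fun i => ms_ex (P i) (hms i)) (fun F hF hFo => ?_) hf hf1 ?_
    · have h1 : P1 μ s N y (fun η S => F η S ∧ ∀ i, ∃ p ∈ P i, NT i p η S) ≤
          P1 μ s N y (fun η S => ∃ π ∈ Fintype.piFinset P, F η S ∧ ∀ i, NT i (π i) η S) := by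
        refine A12.P1_mono' fun η S _ _ hev => ?_
        choose π hπ1 hπ2 using hev.2
        exact ⟨π, Fintype.mem_piFinset.2 hπ1, hev.1, hπ2⟩
      refine h1.trans ((A12.P1_exists (μ := μ) (s := s) (N := N) (y := y) (Fintype.piFinset P)
        fun π η S => F η S ∧ ∀ i, NT i (π i) η S).trans ?_)
      have h2 : ∀ π ∈ Fintype.piFinset P, P1 μ s N y (fun η S => F η S ∧ ∀ i, NT i (π i) η S) ≤
          (∏ i, r i (π i)) * P1 μ s N y F + k * pe := by
        intro π hπ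
        rw [Fintype.mem_piFinset] at hπ
        exact prodP k (fun i => NT i (π i)) (fun i => J i (π i)) (fun i => r i (π i)) pe (fun i => hms _ _)
          (fun i => (hNT i _ (hπ i)).2.2) (fun i i' hi => (hNT i' _ (hπ i')).1 _ (hJV i i' hi _ (hπ i) _ (hπ i'))) F hF
          fun i => hFo _ ⟨i, π i, hπ i, rfl⟩
      refine (sum_le_sum h2).trans (le_of_eq ?_)
      rw [sum_add_distrib, sum_const, Fintype.card_piFinset, nsmul_eq_mul, ← Finset.sum_mul, ← Finset.prod_univ_sum]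
      push_cast
      rfl
    · rintro J' ⟨i, p, hp, rfl⟩
      exact hfo i p hp
  · -- the production
    have h1 : P2 μ s N y (fun _ => 0) (fun η S S' => A' i S' S ∧ ¬ ∃ p ∈ P i, NT i p η S') ≤
        P2 μ s N y (fun _ => 0) (fun η S S' => ∃ p ∈ P i, B i p S' S ∧ ¬ NT i p η S') := by
      refine A12.P2_mono' fun η S S' _ _ _ _ hev => ?_
      obtain ⟨⟨p, hp, hb⟩, h⟩ := hev
      exact ⟨p, hp, hb, fun h' => h ⟨p, hp, h'⟩⟩
    exact h1.trans (Pool.Agent.W_7d29a1_HZ.Z74.P2_ex_le (P i) (fun p η S S' => B i p S' S ∧ ¬ NT i p η S') fun p hp =>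
      (hNT i p hp).2.1)

/-! ### The general price -/

omit [IsProbabilityMeasure μ] in
theorem On2.mono {c d c' d' : ℕ} {A : Finset ℕ → Finset ℕ → Prop} (h : On2 c' d' A) (hc : c ≤ c') (hd : d' ≤ d) : On2 c d A :=
  fun S S' S'' e => h S S' S'' fun i h1 h2 => e i (hc.trans h1) (h2.trans hd)

/-- **THE GENERAL PRICE.** -/
theorem lam86 (h : In μ s c₀ C₀ n₀) (k : ℕ) (hk : k ≤ 8) : ∀ ε θ : ℝ, 0 < ε → 0 < θ → ∃ δ c₂ : ℝ, 0 < δ ∧ 0 < c₂ ∧ ∃ L₀ : ℕ,
    ∀ L : ℕ, L₀ ≤ L → ∀ N : ℕ, L ≤ 16 * N → N ≤ L → ∀ y : ℕ, y ≤ N → |(y : ℝ) - sl μ s * N| ≤ ((L : ℝ) ^ δ * wd' μ s N) →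
    ∀ c d c' d' u v : Fin k → ℕ, (∀ i, c i ≤ c' i ∧ c' i ≤ u i ∧ v i ≤ d' i ∧ d' i ≤ d i ∧ d i ≤ N) →
    (∀ i, (L : ℝ) ^ θ ≤ ((v i - u i : ℕ) : ℝ)) →
    (∀ i i', i < i' → d' i ≤ c' i' ∨ d' i' ≤ c' i ∨ ((d' i' ≤ u i ∨ v i ≤ c' i') ∧ 4 * (d' i' - c' i') ≤ v i - u i)) →
    ∀ A : Fin k → Finset ℕ → Finset ℕ → Prop,
    (∀ i S S', S ⊆ range N → S' ⊆ range N → pos S N = y → pos S' N = y → (∀ j, j ≤ c i ∨ d i ≤ j → pos S j = pos S' j) →
      A i S S' → Gap (c' i) (d' i) (u i) (v i) S S') →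
    ∀ f : Env → Finset ℕ → ℝ≥0∞, (∀ S, Measurable fun η => f η S) → (∀ η S, f η S ≤ 1) → (∀ i, OffW (Ioo (c' i) (d' i)) f) →
    Q1 μ s N y (fun η S => f η S * ∏ i, ENNReal.ofReal (mc μ s N y (c i) (d i) (A i) η S)) ≤
      (∏ i, ENNReal.ofReal ((L : ℝ) ^ ε * (EE' μ s (v i - u i))⁻¹)) * Q1 μ s N y f + ENNReal.ofReal (Real.exp (-(L : ℝ) ^ c₂)) := by
  intro ε θ hε hθ
  obtain ⟨L₀, hnum⟩ := price_sum h ε θ hε hθ
  obtain ⟨δ, c₁, hδ, hc₁, L₁, hP⟩ := pl_lb h (ε / 2) (θ / 2) (by positivity) (by positivity)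
  obtain ⟨c₂, hc₂, -, L₂, hX⟩ := Pool.Agent.W_7d29a1_Z.NumI77.pow_exp (show 0 < c₁ / 2 by positivity) 20
  obtain ⟨L₃, hL₃⟩ := Pool.Agent.W_7d29a1_Z.NumI77.large (show 0 < c₁ / 2 by positivity) 2
  refine ⟨δ, c₂, hδ, hc₂, L₀ + L₁ + L₂ + L₃ + 100, ?_⟩
  intro L hL N hLN hNL y hyN hyc c d c' d' u v hblk hlen hsep A hA f hf hf1 hfo
  have hL10 : (100 : ℝ) ≤ L := by exact_mod_cast (show 100 ≤ L by omega)
  have hL0 : (0 : ℝ) < L := by linarith
  have hy0 : (0 : ℤ) ≤ y := by positivity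
  have hyN' : (y : ℤ) ≤ N := by exact_mod_cast hyN
  have hyc' : |((y : ℤ) : ℝ) - sl μ s * N| ≤ ((L : ℝ) ^ δ * wd' μ s N) := by
    push_cast
    exact hyc
  have hlN : ∀ i, v i - u i ≤ N := fun i => by
    have := hblk i
    omega
  have hnum' := fun i => hnum L (by omega) N (v i - u i) ((v i - u i) / 4) hNL (hlen i) (hlN i) rfl
  have huv : ∀ i, u i < v i := fun i => by
    have := (hnum' i).2.1
    omega
  obtain ⟨D, hD⟩ : ∃ D : Fin k → ℕ, ∀ i, D i = (v i - u i) / 4 := ⟨_, fun _ => rfl⟩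
  simp only [← hD] at hnum'
  set tt : Fin k → ℕ × ℕ → ℕ := fun i p => 2 ^ p.1 * D i with htt
  set ta : Fin k → ℕ × ℕ → ℕ := fun i p => u i + 1 + p.2 * tt i p - 32 * tt i p with hta
  set Ob : Fin k → Finset (ℕ × ℕ) := fun i => (univ.filter fun i' : Fin k => i < i' ∧ (d' i' ≤ u i ∨ v i ≤ c' i') ∧
    4 * (d' i' - c' i') ≤ v i - u i).image fun i' => (c' i', d' i') with hOb
  set P : Fin k → Finset (ℕ × ℕ) := fun i => (range (Nat.log 2 N + 1) ×ˢ range 65).filter fun p => c' i < ta i p ∧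
    ta i p + tt i p ≤ d' i ∧ ∀ o ∈ Ob i, Disjoint (Ico (ta i p) (ta i p + tt i p)) (Ioc o.1 o.2) with hPd
  have hPm : ∀ i, ∀ p ∈ P i, c' i < ta i p ∧ ta i p + tt i p ≤ d' i ∧
      ∀ o ∈ Ob i, Disjoint (Ico (ta i p) (ta i p + tt i p)) (Ioc o.1 o.2) := fun i p hp => (mem_filter.1 hp).2
  have hcard : ∀ i, (Ob i).card ≤ 7 := by
    intro i
    refine card_image_le.trans ?_
    have h1 : (univ.filter fun i' : Fin k => i < i' ∧ (d' i' ≤ u i ∨ v i ≤ c' i') ∧ 4 * (d' i' - c' i') ≤ v i - u i) ⊆ univ.erase i := by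
      intro i' hi'
      rw [mem_erase]
      exact ⟨(mem_filter.1 hi').2.1.ne', mem_univ _⟩
    have h2 := card_le_card h1
    rw [card_erase_of_mem (mem_univ i), card_univ, Fintype.card_fin] at h2
    omega
  have hcore := lam_core (μ := μ) (s := s) (N := N) hyN P (fun i p => ENNReal.ofReal ((L : ℝ) ^ (ε / 2) * (EE' μ s (tt i p))⁻¹))
    (ENNReal.ofReal (Real.exp (-(L : ℝ) ^ c₁))) (fun i p => Gpc (c' i) (d' i) (tt i p) (ta i p))
    (fun i p => Ico (ta i p) (ta i p + tt i p))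
    (fun i p => Ioc (max (c' i) (ta i p - 32 * tt i p)) (min (d' i) (ta i p + 33 * tt i p)))
    (fun i p hp => ?_) (fun i i' hi p hp p' hp' => ?_) c d (fun i => ?_) A (fun i S S' g1 g2 g3 g4 g5 g6 => ?_) (fun i p => ?_) hf hf1
    (fun i p hp => ?_) ((L : ℝ) ^ (c₁ / 2))
  · refine hcore.trans ?_
    set x : ℝ := (L : ℝ) ^ (c₁ / 2) with hx
    have hx0 : 0 ≤ x := by positivity
    have hcP : ∀ i, ((P i).card : ℝ) ≤ (L : ℝ) ^ 2 := by
      intro i
      have h1 : (P i).card ≤ (Nat.log 2 N + 1) * 65 := by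
        refine (card_filter_le _ _).trans ?_
        rw [card_product, card_range, card_range]
      have h2 : Nat.log 2 N ≤ N := Nat.log_le_self 2 N
      have h3 : (Nat.log 2 N + 1) * 65 ≤ L ^ 2 := by
        have h4 : (Nat.log 2 N + 1) * 65 ≤ (L + 1) * 65 := Nat.mul_le_mul_right 65 (by omega)
        nlinarith
      exact_mod_cast h1.trans h3
    have hcP' : ∀ i, ((P i).card : ℝ≥0∞) ≤ ENNReal.ofReal ((L : ℝ) ^ 2) := fun i => by
      rw [← ENNReal.ofReal_natCast]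
      exact ENNReal.ofReal_le_ofReal (hcP i)
    have hr : ∀ i, ∑ p ∈ P i, ENNReal.ofReal ((L : ℝ) ^ (ε / 2) * (EE' μ s (tt i p))⁻¹) ≤
        ENNReal.ofReal ((L : ℝ) ^ ε * (EE' μ s (v i - u i))⁻¹) := by
      intro i
      refine (sum_le_sum_of_subset (filter_subset _ _)).trans ?_
      have hE0 : ∀ t, 0 < EE' μ s t := fun t => lt_of_lt_of_le zero_lt_one (le_max_left _ _)
      rw [← ENNReal.ofReal_sum_of_nonneg fun p _ => by have := hE0 (tt i p); positivity]
      exact ENNReal.ofReal_le_ofReal (hnum' i).2.2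
    have hE : Real.exp (-(L : ℝ) ^ c₁) ≤ Real.exp (-2 * x) := by
      rw [Real.exp_le_exp]
      have e1 : (L : ℝ) ^ c₁ = x * x := by
        rw [hx, ← Real.rpow_add hL0]
        congr 1
        ring
      obtain ⟨-, h3, -⟩ := hL₃ L (by omega)
      rw [e1]
      nlinarith
    have hk8 : (k : ℝ) ≤ 8 := by exact_mod_cast hk
    have hprod : (∏ i : Fin k, ((P i).card : ℝ≥0∞)) ≤ ENNReal.ofReal ((L : ℝ) ^ 16) := by
      refine (Finset.prod_le_prod' fun i _ => hcP' i).trans ?_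
      rw [prod_const, card_univ, Fintype.card_fin, ← ENNReal.ofReal_pow (by positivity), ← pow_mul]
      refine ENNReal.ofReal_le_ofReal (pow_le_pow_right₀ (by linarith) (by omega))
    rw [add_assoc]
    refine add_le_add (mul_le_mul' (Finset.prod_le_prod' fun i _ => hr i) le_rfl) ?_
    have hk' : (k : ℝ≥0∞) ≤ ENNReal.ofReal 8 := by
      rw [← ENNReal.ofReal_natCast]
      exact ENNReal.ofReal_le_ofReal hk8
    have t1 : (∏ i : Fin k, ((P i).card : ℝ≥0∞)) * (k * ENNReal.ofReal (Real.exp (-(L : ℝ) ^ c₁))) ≤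
        ENNReal.ofReal ((L : ℝ) ^ 16 * (8 * Real.exp (-(L : ℝ) ^ c₁))) := by
      rw [ENNReal.ofReal_mul (by positivity), ENNReal.ofReal_mul (by norm_num)]
      exact mul_le_mul' hprod (mul_le_mul' hk' le_rfl)
    have t2 : ∑ i : Fin k, (ENNReal.ofReal (Real.exp x) * ((P i).card * ENNReal.ofReal (Real.exp (-(L : ℝ) ^ c₁))) +
        ENNReal.ofReal (((N : ℝ) + 1) ^ 2 * Real.exp (-x))) ≤
        ENNReal.ofReal (8 * (Real.exp x * ((L : ℝ) ^ 2 * Real.exp (-(L : ℝ) ^ c₁)) + ((N : ℝ) + 1) ^ 2 * Real.exp (-x))) := by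
      have t3 : ∀ i ∈ (univ : Finset (Fin k)), (ENNReal.ofReal (Real.exp x) * ((P i).card * ENNReal.ofReal (Real.exp (-(L : ℝ) ^ c₁))) +
          ENNReal.ofReal (((N : ℝ) + 1) ^ 2 * Real.exp (-x))) ≤
          ENNReal.ofReal (Real.exp x * ((L : ℝ) ^ 2 * Real.exp (-(L : ℝ) ^ c₁)) + ((N : ℝ) + 1) ^ 2 * Real.exp (-x)) := by
        intro i _
        rw [ENNReal.ofReal_add (by positivity) (by positivity), ENNReal.ofReal_mul (Real.exp_pos x).le,
          ENNReal.ofReal_mul (show (0 : ℝ) ≤ (L : ℝ) ^ 2 by positivity)]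
        exact add_le_add (mul_le_mul' le_rfl (mul_le_mul' (hcP' i) le_rfl)) le_rfl
      refine (sum_le_sum t3).trans ?_
      rw [sum_const, card_univ, Fintype.card_fin, nsmul_eq_mul, ENNReal.ofReal_mul (by norm_num)]
      exact mul_le_mul' hk' le_rfl
    refine (add_le_add t1 t2).trans ?_
    rw [← ENNReal.ofReal_add (by positivity) (by positivity)]
    refine ENNReal.ofReal_le_ofReal ?_
    have h5 := hX L (by omega)
    rw [← hx] at h5
    have e4 : (L : ℝ) ^ (20 : ℝ) = (L : ℝ) ^ 20 := by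
      rw [← Real.rpow_natCast]
      norm_num
    rw [e4] at h5
    refine le_trans ?_ h5
    have hNL' : (N : ℝ) ≤ L := by exact_mod_cast hNL
    have hp0 := (Real.exp_pos (-x)).le
    have h6 : Real.exp (-(L : ℝ) ^ c₁) ≤ Real.exp (-x) := hE.trans (Real.exp_le_exp.2 (by linarith))
    have h7 : Real.exp x * Real.exp (-(L : ℝ) ^ c₁) ≤ Real.exp (-x) := by
      refine (mul_le_mul_of_nonneg_left hE (Real.exp_pos x).le).trans (le_of_eq ?_)
      rw [← Real.exp_add]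
      congr 1
      ring
    have hLp : ∀ a b : ℕ, a ≤ b → (L : ℝ) ^ a ≤ (L : ℝ) ^ b := fun a b hab => pow_le_pow_right₀ (by linarith) hab
    have h8 : (L : ℝ) ^ 16 * (8 * Real.exp (-(L : ℝ) ^ c₁)) ≤ (L : ℝ) ^ 17 * Real.exp (-x) := by
      calc (L : ℝ) ^ 16 * (8 * Real.exp (-(L : ℝ) ^ c₁)) ≤ (L : ℝ) ^ 16 * (L * Real.exp (-x)) := by
            refine mul_le_mul_of_nonneg_left (mul_le_mul (by linarith) h6 (Real.exp_pos _).le hL0.le) (by positivity)
        _ = (L : ℝ) ^ 17 * Real.exp (-x) := by ring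
    have h9 : 8 * (Real.exp x * ((L : ℝ) ^ 2 * Real.exp (-(L : ℝ) ^ c₁)) + ((N : ℝ) + 1) ^ 2 * Real.exp (-x)) ≤
        (L : ℝ) ^ 17 * Real.exp (-x) := by
      have g1 : Real.exp x * ((L : ℝ) ^ 2 * Real.exp (-(L : ℝ) ^ c₁)) ≤ (L : ℝ) ^ 2 * Real.exp (-x) := by
        calc Real.exp x * ((L : ℝ) ^ 2 * Real.exp (-(L : ℝ) ^ c₁)) = (L : ℝ) ^ 2 * (Real.exp x * Real.exp (-(L : ℝ) ^ c₁)) := by ring
          _ ≤ _ := mul_le_mul_of_nonneg_left h7 (by positivity)
      have g2 : ((N : ℝ) + 1) ^ 2 ≤ 4 * (L : ℝ) ^ 2 := by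
        have : (0 : ℝ) ≤ N := Nat.cast_nonneg N
        nlinarith
      have g3 : 40 * (L : ℝ) ^ 2 ≤ (L : ℝ) ^ 17 := by
        calc 40 * (L : ℝ) ^ 2 ≤ L * (L : ℝ) ^ 2 := mul_le_mul_of_nonneg_right (by linarith) (by positivity)
          _ = (L : ℝ) ^ 3 := by ring
          _ ≤ (L : ℝ) ^ 17 := hLp _ _ (by norm_num)
      calc 8 * (Real.exp x * ((L : ℝ) ^ 2 * Real.exp (-(L : ℝ) ^ c₁)) + ((N : ℝ) + 1) ^ 2 * Real.exp (-x))
          ≤ 8 * ((L : ℝ) ^ 2 * Real.exp (-x) + 4 * (L : ℝ) ^ 2 * Real.exp (-x)) := by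
            refine mul_le_mul_of_nonneg_left (add_le_add g1 (mul_le_mul_of_nonneg_right g2 hp0)) (by norm_num)
        _ = 40 * (L : ℝ) ^ 2 * Real.exp (-x) := by ring
        _ ≤ _ := mul_le_mul_of_nonneg_right g3 hp0
    calc _ ≤ (L : ℝ) ^ 17 * Real.exp (-x) + (L : ℝ) ^ 17 * Real.exp (-x) := add_le_add h8 h9
      _ = 2 * (L : ℝ) ^ 17 * Real.exp (-x) := by ring
      _ ≤ (L : ℝ) ^ 20 * Real.exp (-x) := by
          refine mul_le_mul_of_nonneg_right ?_ hp0
          calc 2 * (L : ℝ) ^ 17 ≤ L * (L : ℝ) ^ 17 := mul_le_mul_of_nonneg_right (by linarith) (by positivity)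
            _ = (L : ℝ) ^ 18 := by ring
            _ ≤ _ := hLp _ _ (by norm_num)
  · -- the places
    obtain ⟨g1, g2, -⟩ := hPm i p hp
    have g3 := hblk i
    exact hP L (by omega) N (tt i p) hLN hNL ((hnum' i).1 p.1) (by omega) y hy0 hyN' hyc' (ta i p) (c' i) (d' i) (by omega)
  · -- disjoint
    obtain ⟨g1, g2, g3⟩ := hPm i p hp
    have g4 := hsep i i' hi
    rw [disjoint_left]
    intro a ha1 ha2
    rw [mem_Ico] at ha1
    rw [mem_Ioc] at ha2
    rcases g4 with g4 | g4 | g4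
    · omega
    · omega
    · have g5 := g3 (c' i', d' i') (mem_image.2 ⟨i', mem_filter.2 ⟨mem_univ _, hi, g4.1, g4.2⟩, rfl⟩)
      exact disjoint_left.1 g5 (mem_Ico.2 ha1) (mem_Ioc.2 (by omega))
  · have := hblk i
    have := huv i
    omega
  · -- the window
    have g7 := hblk i
    have g8 := (hnum' i).2.1
    have hDi := hD i
    obtain ⟨m, j, q1, q2, q3, q4, q5⟩ := gap_cover (D := D i) g8 (by omega) (Ob i) (hcard i) (fun o ho => by
      obtain ⟨i', hi', rfl⟩ := mem_image.1 ho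
      have := (mem_filter.1 hi').2.2.2
      show d' i' ≤ c' i' + D i
      omega) (fun o ho => by
      obtain ⟨i', hi', rfl⟩ := mem_image.1 ho
      exact (mem_filter.1 hi').2.2.1) (hA i S S' g1 g2 g3 g4 g5 g6)
    refine ⟨(m, j), mem_filter.2 ⟨?_, q3, q4, q5⟩, q2⟩
    rw [mem_product, mem_range, mem_range]
    refine ⟨?_, by omega⟩
    have h1 : 2 ^ m * D i ≤ N := by omega
    have h2 : 2 ^ m * 1 ≤ 2 ^ m * D i := Nat.mul_le_mul_left _ g8
    have h3 : m ≤ Nat.log 2 N := Nat.le_log_of_pow_le (by norm_num) (by omega)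
    show m < Nat.log 2 N + 1
    omega
  · have g7 := hblk i
    exact On2.mono (gpc_on2 _ _ _ _) g7.1 g7.2.2.2.1
  · obtain ⟨g1, g2, -⟩ := hPm i p hp
    intro η η' S hη
    refine hfo i η η' S fun q hq => hη q fun h1 => hq ⟨h1.1, ?_⟩
    have h2 := mem_Ico.1 h1.2
    rw [mem_Ioo]
    omega

/-- The general price, with an event. -/
theorem lam86E (h : In μ s c₀ C₀ n₀) (k : ℕ) (hk : k ≤ 8) : ∀ ε θ : ℝ, 0 < ε → 0 < θ → ∃ δ c₂ : ℝ, 0 < δ ∧ 0 < c₂ ∧ ∃ L₀ : ℕ,
    ∀ L : ℕ, L₀ ≤ L → ∀ N : ℕ, L ≤ 16 * N → N ≤ L → ∀ y : ℕ, y ≤ N → |(y : ℝ) - sl μ s * N| ≤ ((L : ℝ) ^ δ * wd' μ s N) →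
    ∀ c d c' d' u v : Fin k → ℕ, (∀ i, c i ≤ c' i ∧ c' i ≤ u i ∧ v i ≤ d' i ∧ d' i ≤ d i ∧ d i ≤ N) →
    (∀ i, (L : ℝ) ^ θ ≤ ((v i - u i : ℕ) : ℝ)) →
    (∀ i i', i < i' → d' i ≤ c' i' ∨ d' i' ≤ c' i ∨ ((d' i' ≤ u i ∨ v i ≤ c' i') ∧ 4 * (d' i' - c' i') ≤ v i - u i)) →
    ∀ A : Fin k → Finset ℕ → Finset ℕ → Prop,
    (∀ i S S', S ⊆ range N → S' ⊆ range N → pos S N = y → pos S' N = y → (∀ j, j ≤ c i ∨ d i ≤ j → pos S j = pos S' j) →
      A i S S' → Gap (c' i) (d' i) (u i) (v i) S S') →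
    ∀ F : Env → Finset ℕ → Prop, Ms F → (∀ i, OffRows (Ioo (c' i) (d' i)) F) →
    Q1 μ s N y (fun η S => ind (F η S) * ∏ i, ENNReal.ofReal (mc μ s N y (c i) (d i) (A i) η S)) ≤
      (∏ i, ENNReal.ofReal ((L : ℝ) ^ ε * (EE' μ s (v i - u i))⁻¹)) * P1 μ s N y F + ENNReal.ofReal (Real.exp (-(L : ℝ) ^ c₂)) := by
  intro ε θ hε hθ
  obtain ⟨δ, c₂, hδ, hc₂, L₀, hP⟩ := lam86 h k hk ε θ hε hθ
  refine ⟨δ, c₂, hδ, hc₂, L₀, fun L hL N hLN hNL y hyN hyc c d c' d' u v h1 h2 h3 A hA F hF hFo => ?_⟩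
  have h4 := hP L hL N hLN hNL y hyN hyc c d c' d' u v h1 h2 h3 A hA (fun η S => ind (F η S)) (fun S => meas_ind (hF S))
    (fun η S => ind_le _) (fun i η η' S hη => ?_)
  · rwa [Q1_ind hF] at h4
  · have h5 := hFo i η η' S hη
    show ind (F η S) = ind (F η' S)
    by_cases h6 : F η S
    · rw [ind_of h6, ind_of (h5.1 h6)]
    · rw [ind_not h6, ind_not fun h7 => h6 (h5.2 h7)]

omit [IsProbabilityMeasure μ] in
/-- The replica of the block `[c, d)` agrees with the base path outside: non meeting is a gap in the block. -/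
theorem gap_of_nm {c d u v : ℕ} (hu : c ≤ u) (hv : v ≤ d) {S S' : Finset ℕ} (h : ∀ j, j ≤ c ∨ d ≤ j → pos S j = pos S' j)
    (hn : NoMeet u v S S') : Gap c d u v S S' :=
  ⟨c, d, le_rfl, hu, hv, le_rfl, h c (Or.inl le_rfl), h d (Or.inr le_rfl), hn⟩

omit [IsProbabilityMeasure μ] in
/-- The gap closes before the row `m`, or it goes on up to `m`. -/
theorem nm_cutR {c u v m : ℕ} (hu : c ≤ u) {S S' : Finset ℕ} (hc : pos S c = pos S' c) (hn : NoMeet u v S S') :
    Gap c m u v S S' ∨ NoMeet u m S S' := by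
  by_cases h : ∃ k, v ≤ k ∧ k ≤ m ∧ pos S k = pos S' k
  · obtain ⟨k, h1, h2, h3⟩ := h
    exact Or.inl ⟨c, k, le_rfl, hu, h1, h2, hc, h3, hn⟩
  · push Not at h
    refine Or.inr fun k hk1 hk2 => ?_
    rcases le_total k v with g | g
    · exact hn k hk1 g
    · exact h k g hk2

omit [IsProbabilityMeasure μ] in
/-- The gap opens behind the row `m`, or it reaches back to `m`. -/
theorem nm_cutL {d u v m : ℕ} (hv : v ≤ d) {S S' : Finset ℕ} (hd : pos S d = pos S' d) (hn : NoMeet u v S S') :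
    Gap m d u v S S' ∨ NoMeet m v S S' := by
  by_cases h : ∃ k, m ≤ k ∧ k ≤ u ∧ pos S k = pos S' k
  · obtain ⟨k, h1, h2, h3⟩ := h
    exact Or.inl ⟨k, d, h1, h2, hv, le_rfl, h3, hd, hn⟩
  · push Not at h
    refine Or.inr fun k hk1 hk2 => ?_
    rcases le_total u k with g | g
    · exact hn k g hk2
    · exact h k hk1 g

omit [IsProbabilityMeasure μ] in
/-- The union bound for two events. -/
theorem mc_le_two {y c d : ℕ} {A B C : Finset ℕ → Finset ℕ → Prop}
    (h : ∀ S S', S ⊆ range N → S' ⊆ range N → pos S N = y → pos S' N = y → (∀ i, i ≤ c ∨ d ≤ i → pos S i = pos S' i) →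
      A S S' → B S S' ∨ C S S') (η : Env) (S : Finset ℕ) :
    mc μ s N y c d A η S ≤ mc μ s N y c d B η S + mc μ s N y c d C η S := by
  have h1 := mc_le_sum (μ := μ) (s := s) (N := N) (y := y) (c := c) (d := d) (A := A) (univ : Finset Bool)
    (fun b => if b then B else C) (fun S S' h1 h2 h3 h4 h5 h6 => by
      rcases h S S' h1 h2 h3 h4 h5 h6 with g | g
      · exact ⟨true, mem_univ _, by simpa using g⟩
      · exact ⟨false, mem_univ _, by simpa using g⟩) η S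
  simpa using h1

omit [IsProbabilityMeasure μ] in
/-- **TWO ROWS, ONE BLOCK**: the replicas of the block `[c, d)`, non meeting in `[u₁, v₁]` and in `[u₂, v₂]`, `v₁ ≤ m ≤ u₂`: both gaps are
cut by the row `m`, or one of them reaches `m`. -/
theorem mc_two {y c d u₁ v₁ u₂ v₂ m : ℕ} (hu : c ≤ u₁) (hv : v₂ ≤ d) (η : Env) (S : Finset ℕ) :
    mc μ s N y c d (NoMeet u₁ v₁) η S * mc μ s N y c d (NoMeet u₂ v₂) η S ≤
      mc μ s N y c d (Gap c m u₁ v₁) η S * mc μ s N y c d (Gap m d u₂ v₂) η S + mc μ s N y c d (NoMeet u₁ m) η S +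
        mc μ s N y c d (NoMeet m v₂) η S := by
  have h1 := mc_le_two (μ := μ) (s := s) (N := N) (y := y) (c := c) (d := d) (A := NoMeet u₁ v₁) (B := Gap c m u₁ v₁)
    (C := NoMeet u₁ m) (fun S S' _ _ _ _ h h' => nm_cutR hu (h c (Or.inl le_rfl)) h') η S
  have h2 := mc_le_two (μ := μ) (s := s) (N := N) (y := y) (c := c) (d := d) (A := NoMeet u₂ v₂) (B := Gap m d u₂ v₂)
    (C := NoMeet m v₂) (fun S S' _ _ _ _ h h' => nm_cutL hv (h d (Or.inr le_rfl)) h') η S
  have n := fun A => mc_nonneg (μ := μ) (s := s) (N := N) (y := y) (c := c) (d := d) (A := A) η S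
  have o := fun A => mc_le_one (μ := μ) (s := s) (N := N) (y := y) (c := c) (d := d) (A := A) η S
  calc _ ≤ (mc μ s N y c d (Gap c m u₁ v₁) η S + mc μ s N y c d (NoMeet u₁ m) η S) * mc μ s N y c d (NoMeet u₂ v₂) η S :=
        mul_le_mul_of_nonneg_right h1 (n _)
    _ = mc μ s N y c d (Gap c m u₁ v₁) η S * mc μ s N y c d (NoMeet u₂ v₂) η S +
        mc μ s N y c d (NoMeet u₁ m) η S * mc μ s N y c d (NoMeet u₂ v₂) η S := by ring
    _ ≤ mc μ s N y c d (Gap c m u₁ v₁) η S * (mc μ s N y c d (Gap m d u₂ v₂) η S + mc μ s N y c d (NoMeet m v₂) η S) +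
        mc μ s N y c d (NoMeet u₁ m) η S * 1 :=
        add_le_add (mul_le_mul_of_nonneg_left h2 (n _)) (mul_le_mul_of_nonneg_left (o _) (n _))
    _ ≤ _ := by
        have := mul_le_mul_of_nonneg_right (o (Gap c m u₁ v₁)) (n (NoMeet m v₂))
        linarith

end Pool.Agent.W_7d29a1_C0.P86
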