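import Pool.Agent.W_7d29a1_C0.StripW80
import Pool.Agent.W_7d29a1_C0.Lam86
import Pool.Agent.W_7d29a1_C0.Mod92B

/-!
MP_7d29a1_pr, [CURV0], leaf E5.2 (helper80): THE PRICE OF THE OUTER TIE WITH A WEIGHT.

`WPr`: the price of the event that a free replica does not meet the base path in `[i, j]`, given every weight `0 ≤ f ≤ 1` of
(environment, base path) which does not see the rows `J`; `wpr_of_pl` from the places of `Blk86`. `int_ms`: the same for real
functionals `D ^ 2`. `strip_law`, `strip_Pm`: the variance of the response of a functional `D` of a block, seen from the outside, is at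
most `4 r` times the mean of `D ^ 2`, `r` the price of the two margins.
-/

set_option autoImplicit false
set_option linter.unusedSectionVars false

namespace Pool.Agent.W_7d29a1_C0.Strip80

open Finset MeasureTheory Pool.Agent.W_7d29a1_F Pool.Agent.W_7d29a1_X Pool.Agent.W_7d29a1_H Pool.Agent.W_7d29a1_C0.Mod92
open Pool.Agent.W_7d29a1_HZ (gp P1 P2 OffRows Ms)
open Pool.Agent.W_7d29a1_C0.Blk18 (gm_Pn)
open Pool.Agent.W_7d29a1_C0.P86 (Q1 ind Pl Q1_ind Q1_pair Q1_mono Q1_add ind_of ind_not ind_le Bk NoMeet OffW wt_of_ev P2_comm meas_ind)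
open Pool.W7d29a1.C0 (gz gm lse gz_pos gz_ne gm_nonneg gm_mono)
open Pool.W7d29a1.C0.VT31
open Pool.Agent.W_7d29a1_C0.Swap57
open scoped ENNReal

variable {μ : Measure ℝ} {s : ℝ} {N : ℕ}

/-! ### The mass of a free replica -/

/-- The mass of the free replicas in the event `A`. -/
noncomputable def fr80 (μ : Measure ℝ) (s : ℝ) (N : ℕ) (y : ℤ) (A : Finset ℕ → Finset ℕ → Prop) (η : Env) (S : Finset ℕ) : ℝ≥0∞ :=
  ∑ S' ∈ (range N).powerset, ENNReal.ofReal (gp μ s η N y S') * ind (A S S')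

/-- The price of a free replica which does not meet the base path in `[i, j]`. -/
def WPr (μ : Measure ℝ) (s : ℝ) (N : ℕ) (y : ℤ) (r p : ℝ≥0∞) (i j : ℕ) (J : Finset ℕ) : Prop :=
  ∀ f : Env → Finset ℕ → ℝ≥0∞, (∀ S, Measurable fun η => f η S) → (∀ η S, f η S ≤ 1) → OffW J f →
    Q1 μ s N y (fun η S => f η S * fr80 μ s N y (NoMeet i j) η S) ≤ r * Q1 μ s N y f + p

theorem gpe_nonneg (η : Env) (N : ℕ) (y : ℤ) (S : Finset ℕ) : 0 ≤ gp μ s η N y S := Pool.Agent.W_7d29a1_HZ.gp_nonneg η N y S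

theorem fr80_le_one {y : ℤ} (h0 : 0 ≤ y) (h1 : y ≤ N) (A : Finset ℕ → Finset ℕ → Prop) (η : Env) (S : Finset ℕ) :
    fr80 μ s N y A η S ≤ 1 := by
  unfold fr80
  calc ∑ S' ∈ (range N).powerset, ENNReal.ofReal (gp μ s η N y S') * ind (A S S')
      ≤ ∑ S' ∈ (range N).powerset, ENNReal.ofReal (gp μ s η N y S') :=
        sum_le_sum fun S' _ => mul_le_of_le_one_right zero_le (ind_le _)
    _ = ENNReal.ofReal (∑ S' ∈ (range N).powerset, gp μ s η N y S') :=
        (ENNReal.ofReal_sum_of_nonneg fun S' _ => gpe_nonneg η N y S').symm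
    _ = 1 := by rw [Pool.Agent.W_7d29a1_HZ.gp_sum η h0 h1, ENNReal.ofReal_one]

theorem fr80_mono {y : ℤ} {A B : Finset ℕ → Finset ℕ → Prop} {η : Env} {S : Finset ℕ}
    (h : ∀ S', S' ⊆ range N → pos S' N = y → A S S' → B S S') : fr80 μ s N y A η S ≤ fr80 μ s N y B η S := by
  unfold fr80
  refine sum_le_sum fun S' hS' => ?_
  by_cases hy : pos S' N = y
  · by_cases hA : A S S'
    · rw [ind_of hA, ind_of (h S' (mem_powerset.1 hS') hy hA)]
    · rw [ind_not hA, mul_zero]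
      exact zero_le
  · have e : gp μ s η N y S' = 0 := by
      unfold gp
      rw [if_neg hy]
    rw [e, ENNReal.ofReal_zero, zero_mul, zero_mul]

theorem meas_fr80 (y : ℤ) (A : Finset ℕ → Finset ℕ → Prop) (S : Finset ℕ) : Measurable fun η => fr80 μ s N y A η S := by
  unfold fr80
  exact Finset.measurable_sum _ fun S' _ => ((Pool.Agent.W_7d29a1_HZ.measurable_gp N y S').ennreal_ofReal).mul_const _

variable [IsProbabilityMeasure μ]

/-- **From a place to the price of a free replica with a weight.** -/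
theorem wpr_of_pl {y : ℤ} (h0 : 0 ≤ y) (h1 : y ≤ N) {r p : ℝ≥0∞} {A : Finset ℕ → Finset ℕ → Prop} {J V : Finset ℕ}
    (hP : Pl μ s N y r p A J V) {i j : ℕ}
    (hA : ∀ S S' : Finset ℕ, S ⊆ range N → S' ⊆ range N → pos S N = y → pos S' N = y → NoMeet i j S S' → A S S') :
    WPr μ s N y r (p + p) i j J := by
  intro f hf hf1 hfo
  obtain ⟨NT, n1, -, n3, n4⟩ := hP
  have e1 : Q1 μ s N y (fun η S => f η S * fr80 μ s N y (NoMeet i j) η S) ≤
      Q1 μ s N y (fun η S => f η S * ind (NT η S) + fr80 μ s N y A η S * ind (¬ NT η S)) := by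
    refine Q1_mono fun η S hS hSy => ?_
    have e2 : fr80 μ s N y (NoMeet i j) η S ≤ fr80 μ s N y A η S := fr80_mono fun S' hS' hSy' h => hA S S' hS hS' hSy hSy' h
    by_cases h : NT η S
    · rw [ind_of h, mul_one]
      refine le_trans ?_ le_self_add
      exact mul_le_of_le_one_right zero_le (fr80_le_one h0 h1 _ η S)
    · rw [ind_of h, mul_one]
      refine le_trans ?_ le_add_self
      exact (mul_le_of_le_one_left zero_le (hf1 η S)).trans e2
  have m1 : ∀ S, Measurable fun η : Env => f η S * ind (NT η S) := fun S => (hf S).mul (meas_ind (n1 S))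
  refine e1.trans ?_
  rw [Q1_add m1]
  have e3 : Q1 μ s N y (fun η S => fr80 μ s N y A η S * ind (¬ NT η S)) ≤ p := by
    unfold fr80
    rw [Q1_pair (B := fun η S => ¬ NT η S) fun S => (n1 S).compl, P2_comm]
    exact n3
  have e4 : Q1 μ s N y (fun η S => f η S * ind (NT η S)) ≤ r * Q1 μ s N y f + p :=
    wt_of_ev n1 (JJ := {J}) (fun F hF hFo => n4 F hF (hFo J rfl)) hf hf1 fun J' hJ' => by
      rw [Set.mem_singleton_iff] at hJ'
      rw [hJ']
      exact hfo
  calc _ ≤ (r * Q1 μ s N y f + p) + p := add_le_add e4 e3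
    _ = r * Q1 μ s N y f + (p + p) := by rw [add_assoc]

theorem WPr.mono {y : ℤ} {r r' p p' : ℝ≥0∞} {i j i' j' : ℕ} {J J' : Finset ℕ} (h : WPr μ s N y r p i j J) (hr : r ≤ r') (hp : p ≤ p')
    (hi : i' ≤ i) (hj : j ≤ j') (hJ : J ⊆ J') : WPr μ s N y r' p' i' j' J' := by
  intro f hf hf1 hfo
  have hfo' : OffW J f := fun η η' S e => hfo η η' S fun q hq => e q fun h => hq ⟨h.1, hJ h.2⟩
  refine le_trans (Q1_mono fun η S _ _ => ?_) ((h f hf hf1 hfo').trans (add_le_add (mul_le_mul' hr le_rfl) hp))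
  exact mul_le_mul' le_rfl (fr80_mono fun S' _ _ hn k hk hk' => hn k (hi.trans hk) (hk'.trans hj))

/-! ### Real functionals -/

/-- A real functional of the pinned paths as a functional of all sets. -/
noncomputable def ex80 {y : ℕ} (D : Px (Pn N y) → ℝ) (S : Finset ℕ) : ℝ := by
  classical
  exact if h : S ∈ Pn N y then D ⟨S, h⟩ else 0

theorem ex80_val {y : ℕ} (D : Px (Pn N y) → ℝ) (S : Px (Pn N y)) : ex80 D S.1 = D S := by
  unfold ex80
  rw [dif_pos S.2]

theorem q1_real {y : ℕ} (hy : y ≤ N) {g : Env → Finset ℕ → ℝ} (g0 : ∀ η S, 0 ≤ g η S) {M : ℝ} (gM : ∀ η S, g η S ≤ M)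
    (gm' : ∀ S, Measurable fun η => g η S) :
    Q1 μ s N y (fun η S => ENNReal.ofReal (g η S)) =
      ENNReal.ofReal (∫ η, gm (lw μ s η N (Pn N y)) (fun S => g η S.1) ∂law μ) := by
  have hM : 0 ≤ M := (g0 (fun _ => 0) ∅).trans (gM _ _)
  have e0 : ∀ η : Env, gm (lw μ s η N (Pn N y)) (fun S => g η S.1) = ∑ S ∈ (range N).powerset, gp μ s η N y S * g η S := fun η =>
    gm_Pn η N y (g η)
  simp only [e0]
  have hn : ∀ η : Env, 0 ≤ ∑ S ∈ (range N).powerset, gp μ s η N y S * g η S := fun η =>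
    sum_nonneg fun S _ => mul_nonneg (gpe_nonneg η N y S) (g0 η S)
  have hms : Measurable fun η : Env => ∑ S ∈ (range N).powerset, gp μ s η N y S * g η S :=
    Finset.measurable_sum _ fun S _ => (Pool.Agent.W_7d29a1_HZ.measurable_gp N y S).mul (gm' S)
  have hb : ∀ η : Env, ∑ S ∈ (range N).powerset, gp μ s η N y S * g η S ≤ M := fun η => by
    calc ∑ S ∈ (range N).powerset, gp μ s η N y S * g η S ≤ ∑ S ∈ (range N).powerset, gp μ s η N y S * M :=
          sum_le_sum fun S _ => mul_le_mul_of_nonneg_left (gM η S) (gpe_nonneg η N y S)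
      _ = M := by rw [← sum_mul, Pool.Agent.W_7d29a1_HZ.gp_sum η (by positivity) (by exact_mod_cast hy), one_mul]
  have hint : Integrable (fun η : Env => ∑ S ∈ (range N).powerset, gp μ s η N y S * g η S) (law μ) :=
    Integrable.of_bound hms.aestronglyMeasurable M (Filter.Eventually.of_forall fun η => by
      rw [Real.norm_eq_abs, abs_of_nonneg (hn η)]
      exact hb η)
  rw [ofReal_integral_eq_lintegral_ofReal hint (Filter.Eventually.of_forall hn)]
  unfold Q1
  refine lintegral_congr fun η => ?_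
  rw [ENNReal.ofReal_sum_of_nonneg fun S _ => mul_nonneg (gpe_nonneg η N y S) (g0 η S)]
  exact sum_congr rfl fun S _ => (ENNReal.ofReal_mul (gpe_nonneg η N y S)).symm

theorem fr80_eq {y : ℕ} (η : Env) (i j : ℕ) (S : Px (Pn N y)) :
    fr80 μ s N y (NoMeet i j) η S.1 = ENNReal.ofReal (ms80 (lw μ s η N (Pn N y)) i j S) := by
  classical
  have e1 : ms80 (lw μ s η N (Pn N y)) i j S =
      ∑ S' ∈ (range N).powerset, gp μ s η N y S' * (if NoMeet i j S.1 S' then 1 else 0) := by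
    rw [← gm_Pn η N y fun S' => if NoMeet i j S.1 S' then (1 : ℝ) else 0]
    unfold ms80
    congr 1
    funext S'
    unfold NI NoMeet ps
    congr
  rw [e1, ENNReal.ofReal_sum_of_nonneg fun S' _ => mul_nonneg (gpe_nonneg η N y S') (by split_ifs <;> norm_num)]
  unfold fr80
  refine sum_congr rfl fun S' _ => ?_
  by_cases h : NoMeet i j S.1 S'
  · rw [ind_of h, if_pos h, mul_one, mul_one]
  · rw [ind_not h, if_neg h, mul_zero, mul_zero, ENNReal.ofReal_zero]

/-- **The price for the square of a real functional.** -/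
theorem int_ms {y : ℕ} (hy : y ≤ N) {r p : ℝ} (hr : 0 ≤ r) (hp : 0 ≤ p) {i j : ℕ} {J : Finset ℕ}
    (hW : WPr μ s N y (ENNReal.ofReal r) (ENNReal.ofReal p) i j J) {D : Env → Px (Pn N y) → ℝ} {M : ℝ} (hM : 0 < M)
    (hD : ∀ η S, |D η S| ≤ M) (hDm : ∀ S, Measurable fun η => D η S)
    (hDo : ∀ (η η' : Env) (S : Px (Pn N y)), (∀ q : Pt, ¬ (0 ≤ q.1 ∧ q.1.toNat ∈ J) → η q = η' q) → D η S = D η' S) :
    ∫ η, gm (lw μ s η N (Pn N y)) (fun S => D η S ^ 2 * ms80 (lw μ s η N (Pn N y)) i j S) ∂law μ ≤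
      r * (∫ η, gm (lw μ s η N (Pn N y)) (fun S => D η S ^ 2) ∂law μ) + M ^ 2 * p := by
  have hne : Nonempty (Px (Pn N y)) := ne_Pn hy
  obtain ⟨g, hg⟩ : ∃ g : Env → Finset ℕ → ℝ, g = fun η S => ex80 (D η) S ^ 2 / M ^ 2 := ⟨_, rfl⟩
  obtain ⟨m, hm⟩ : ∃ m : Env → Finset ℕ → ℝ, m = fun η S => (fr80 μ s N y (NoMeet i j) η S).toReal := ⟨_, rfl⟩
  have hM2 : 0 < M ^ 2 := by positivity
  have g0 : ∀ η S, 0 ≤ g η S := fun η S => by
    rw [hg]
    positivity
  have hexb : ∀ η S, |ex80 (D η) S| ≤ M := fun η S => by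
    unfold ex80
    split_ifs with h
    · exact hD η _
    · rw [abs_zero]
      exact hM.le
  have g1 : ∀ η S, g η S ≤ 1 := fun η S => by
    rw [hg]
    show ex80 (D η) S ^ 2 / M ^ 2 ≤ 1
    rw [div_le_one hM2, ← sq_abs]
    exact pow_le_pow_left₀ (abs_nonneg _) (hexb η S) 2
  have gms : ∀ S, Measurable fun η => g η S := fun S => by
    rw [hg]
    refine Measurable.div_const (Measurable.pow_const ?_ 2) _
    unfold ex80
    by_cases h : S ∈ Pn N y
    · simp only [dif_pos h]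
      exact hDm _
    · simp only [dif_neg h]
      exact measurable_const
  have hf1 : ∀ η S, fr80 μ s N y (NoMeet i j) η S ≤ 1 := fun η S => fr80_le_one (by positivity) (by exact_mod_cast hy) _ η S
  have hft : ∀ η S, fr80 μ s N y (NoMeet i j) η S ≠ ∞ := fun η S => ne_top_of_le_ne_top ENNReal.one_ne_top (hf1 η S)
  have m0 : ∀ η S, 0 ≤ m η S := fun η S => by
    rw [hm]
    exact ENNReal.toReal_nonneg
  have m1 : ∀ η S, m η S ≤ 1 := fun η S => by
    rw [hm]
    have := ENNReal.toReal_mono ENNReal.one_ne_top (hf1 η S)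
    simpa using this
  have mms : ∀ S, Measurable fun η => m η S := fun S => by
    rw [hm]
    exact (meas_fr80 y _ S).ennreal_toReal
  have hfm : ∀ η S, ENNReal.ofReal (m η S) = fr80 μ s N y (NoMeet i j) η S := fun η S => by
    rw [hm]
    exact ENNReal.ofReal_toReal (hft η S)
  have hoff : OffW J fun η S => ENNReal.ofReal (g η S) := by
    intro η η' S e
    show ENNReal.ofReal (g η S) = ENNReal.ofReal (g η' S)
    congr 1
    rw [hg]
    show ex80 (D η) S ^ 2 / M ^ 2 = ex80 (D η') S ^ 2 / M ^ 2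
    congr 2
    unfold ex80
    by_cases h : S ∈ Pn N y
    · rw [dif_pos h, dif_pos h]
      exact hDo η η' _ e
    · rw [dif_neg h, dif_neg h]
  have h1 := hW (fun η S => ENNReal.ofReal (g η S)) (fun S => (gms S).ennreal_ofReal) (fun η S => by
    rw [← ENNReal.ofReal_one]
    exact ENNReal.ofReal_le_ofReal (g1 η S)) hoff
  have e1 : (fun η S => ENNReal.ofReal (g η S) * fr80 μ s N y (NoMeet i j) η S) = fun η S => ENNReal.ofReal (g η S * m η S) := by
    funext η S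
    rw [ENNReal.ofReal_mul (g0 η S), hfm]
  rw [e1, q1_real (μ := μ) (s := s) hy (fun η S => mul_nonneg (g0 η S) (m0 η S)) (M := 1)
      (fun η S => mul_le_one₀ (g1 η S) (m0 η S) (m1 η S)) (fun S => (gms S).mul (mms S)),
    q1_real (μ := μ) (s := s) hy g0 g1 gms, ← ENNReal.ofReal_mul hr] at h1
  have hI0 : 0 ≤ ∫ η, gm (lw μ s η N (Pn N y)) (fun S => g η S.1) ∂law μ :=
    integral_nonneg fun η => gm_nonneg _ fun S => g0 η S.1
  rw [← ENNReal.ofReal_add (mul_nonneg hr hI0) hp, ENNReal.ofReal_le_ofReal_iff (add_nonneg (mul_nonneg hr hI0) hp)] at h1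
  have e2 : ∀ η : Env, gm (lw μ s η N (Pn N y)) (fun S => D η S ^ 2 * ms80 (lw μ s η N (Pn N y)) i j S) =
      M ^ 2 * gm (lw μ s η N (Pn N y)) (fun S => g η S.1 * m η S.1) := by
    intro η
    rw [← gm_mul_left]
    congr 1
    funext S
    have a1 : m η S.1 = ms80 (lw μ s η N (Pn N y)) i j S := by
      rw [hm]
      show (fr80 μ s N y (NoMeet i j) η S.1).toReal = _
      rw [fr80_eq, ENNReal.toReal_ofReal (ms80_nonneg _ _ _ _)]
    have a2 : g η S.1 = D η S ^ 2 / M ^ 2 := by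
      rw [hg]
      show ex80 (D η) S.1 ^ 2 / M ^ 2 = _
      rw [ex80_val]
    rw [a1, a2]
    field_simp
  have e3 : ∀ η : Env, gm (lw μ s η N (Pn N y)) (fun S => D η S ^ 2) = M ^ 2 * gm (lw μ s η N (Pn N y)) (fun S => g η S.1) := by
    intro η
    rw [← gm_mul_left]
    congr 1
    funext S
    have a2 : g η S.1 = D η S ^ 2 / M ^ 2 := by
      rw [hg]
      show ex80 (D η) S.1 ^ 2 / M ^ 2 = _
      rw [ex80_val]
    rw [a2]
    field_simp
  simp only [e2, e3, integral_const_mul]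
  have h2 := mul_le_mul_of_nonneg_left h1 hM2.le
  calc _ ≤ M ^ 2 * (r * (∫ η, gm (lw μ s η N (Pn N y)) (fun S => g η S.1) ∂law μ) + p) := h2
    _ = _ := by ring

/-! ### The strip in the mean -/

/-- The functional does not see the environment in the rows `J`. -/
def OffD (J : Finset ℕ) {y : ℕ} (D : Env × Finset ℕ → Px (Pn N y) → ℝ) : Prop :=
  ∀ (η η' : Env) (A : Finset ℕ) (S : Px (Pn N y)), (∀ q : Pt, ¬ (0 ≤ q.1 ∧ q.1.toNat ∈ J) → η q = η' q) → D (η, A) S = D (η', A) S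

/-- **The price for the square of a real functional, signs included.** -/
theorem int_msP {y : ℕ} (hy : y ≤ N) {r p : ℝ} (hr : 0 ≤ r) (hp : 0 ≤ p) {i j : ℕ} {J : Finset ℕ}
    (hW : WPr μ s N y (ENNReal.ofReal r) (ENNReal.ofReal p) i j J) {D : Env × Finset ℕ → Px (Pn N y) → ℝ} {M : ℝ} (hM : 0 < M)
    (hD : ∀ ω S, |D ω S| ≤ M) (hDm : ∀ S, Measurable fun ω => D ω S) (hDo : OffD J D) :
    ∫ ω, gm (wm μ s N (Pn N y) ω) (fun S => D ω S ^ 2 * ms80 (wm μ s N (Pn N y) ω) i j S) ∂(Pm μ N) ≤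
      r * (∫ ω, gm (wm μ s N (Pn N y) ω) (fun S => D ω S ^ 2) ∂(Pm μ N)) + M ^ 2 * p := by
  have hne : Nonempty (Px (Pn N y)) := ne_Pn hy
  have mw : ∀ S : Px (Pn N y), Measurable fun ω : Env × Finset ℕ => wm μ s N (Pn N y) ω S := meas_wm
  have mms : ∀ S : Px (Pn N y), Measurable fun ω : Env × Finset ℕ => ms80 (wm μ s N (Pn N y) ω) i j S := fun S => by
    unfold ms80
    exact meas_gm mw fun S' => measurable_const
  have mA : Measurable fun ω : Env × Finset ℕ =>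
      gm (wm μ s N (Pn N y) ω) (fun S => D ω S ^ 2 * ms80 (wm μ s N (Pn N y) ω) i j S) :=
    meas_gm mw fun S => ((hDm S).pow_const 2).mul (mms S)
  have mB : Measurable fun ω : Env × Finset ℕ => gm (wm μ s N (Pn N y) ω) (fun S => D ω S ^ 2) :=
    meas_gm mw fun S => (hDm S).pow_const 2
  have hD2 : ∀ ω S, D ω S ^ 2 ≤ M ^ 2 := fun ω S => by
    rw [← sq_abs]
    exact pow_le_pow_left₀ (abs_nonneg _) (hD ω S) 2
  have hms1 : ∀ (ω : Env × Finset ℕ) (S : Px (Pn N y)), ms80 (wm μ s N (Pn N y) ω) i j S ≤ 1 := fun ω S => by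
    unfold ms80
    refine (gm_mono _ (g := fun _ => 1) fun S' => ?_).trans_eq (Pool.W7d29a1.C0.gm_const _ _)
    unfold NI
    split_ifs <;> norm_num
  have bB : ∀ ω : Env × Finset ℕ, |gm (wm μ s N (Pn N y) ω) (fun S => D ω S ^ 2)| ≤ M ^ 2 := fun ω => by
    rw [abs_of_nonneg (gm_nonneg _ fun S => sq_nonneg _)]
    exact (gm_mono _ (hD2 ω)).trans_eq (Pool.W7d29a1.C0.gm_const _ _)
  have bA : ∀ ω : Env × Finset ℕ,
      |gm (wm μ s N (Pn N y) ω) (fun S => D ω S ^ 2 * ms80 (wm μ s N (Pn N y) ω) i j S)| ≤ M ^ 2 := fun ω => by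
    rw [abs_of_nonneg (gm_nonneg _ fun S => mul_nonneg (sq_nonneg _) (ms80_nonneg _ _ _ _))]
    refine (gm_mono _ fun S => ?_).trans_eq (Pool.W7d29a1.C0.gm_const _ _)
    calc D ω S ^ 2 * ms80 (wm μ s N (Pn N y) ω) i j S ≤ D ω S ^ 2 * 1 := mul_le_mul_of_nonneg_left (hms1 ω S) (sq_nonneg _)
      _ ≤ M ^ 2 := by rw [mul_one]; exact hD2 ω S
  have iA : ∀ A ∈ (range N).powerset, Integrable (fun η => gm (wm μ s N (Pn N y) (η, A))
      (fun S => D (η, A) S ^ 2 * ms80 (wm μ s N (Pn N y) (η, A)) i j S)) (law μ) := fun A _ =>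
    Integrable.of_bound (mA.comp (meas_pair A)).aestronglyMeasurable (M ^ 2) (Filter.Eventually.of_forall fun η => by
      rw [Real.norm_eq_abs]
      exact bA (η, A))
  have iB : ∀ A ∈ (range N).powerset, Integrable (fun η => gm (wm μ s N (Pn N y) (η, A)) (fun S => D (η, A) S ^ 2)) (law μ) :=
    fun A _ => Integrable.of_bound (mB.comp (meas_pair A)).aestronglyMeasurable (M ^ 2) (Filter.Eventually.of_forall fun η => by
      rw [Real.norm_eq_abs]
      exact bB (η, A))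
  rw [int_Pm iA fun A => mA.comp (meas_pair A), int_Pm iB fun A => mB.comp (meas_pair A)]
  have h1 : ∀ A ∈ (range N).powerset, ∫ η, gm (wm μ s N (Pn N y) (η, A))
      (fun S => D (η, A) S ^ 2 * ms80 (wm μ s N (Pn N y) (η, A)) i j S) ∂law μ ≤
      r * (∫ η, gm (wm μ s N (Pn N y) (η, A)) (fun S => D (η, A) S ^ 2) ∂law μ) + M ^ 2 * p := fun A _ =>
    int_ms hy hr hp hW (D := fun η => D (η, A)) hM (fun η S => hD (η, A) S) (fun S => (hDm S).comp (meas_pair A))
      fun η η' S e => hDo η η' A S e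
  have h2 := sum_le_sum h1
  rw [sum_add_distrib, ← mul_sum, sum_const, card_powerset, card_range, nsmul_eq_mul] at h2
  have hN : (0 : ℝ) < 2 ^ N := by positivity
  have h3 := mul_le_mul_of_nonneg_left h2 (inv_pos.2 hN).le
  refine h3.trans (le_of_eq ?_)
  push_cast
  field_simp

/-- **THE STRIP IN THE MEAN.** -/
theorem strip_Pm {y : ℕ} (hy : y ≤ N) {r p : ℝ} (hr : 0 ≤ r) (hp : 0 ≤ p) {c al be d : ℕ} (hab : al ≤ be) {J1 J2 : Finset ℕ}
    (hW1 : WPr μ s N y (ENNReal.ofReal r) (ENNReal.ofReal p) c al J1)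
    (hW2 : WPr μ s N y (ENNReal.ofReal r) (ENNReal.ofReal p) be d J2) {D : Env × Finset ℕ → Px (Pn N y) → ℝ} {M : ℝ}
    (hD : ∀ ω S, |D ω S| ≤ M) (hDm : ∀ S, Measurable fun ω => D ω S) (hDo1 : OffD J1 D) (hDo2 : OffD J2 D)
    (hL : ∀ ω, Lk al be (D ω)) :
    ∫ ω, gv (wm μ s N (Pn N y) ω) (cE (wm μ s N (Pn N y) ω) (pJ c d) (D ω)) ∂(Pm μ N) ≤
      4 * r * (∫ ω, gm (wm μ s N (Pn N y) ω) (fun S => D ω S ^ 2) ∂(Pm μ N)) + 4 * M ^ 2 * p := by
  have hne : Nonempty (Px (Pn N y)) := ne_Pn hy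
  rcases (abs_nonneg _).trans (hD ((fun _ => 0), ∅) hne.some) |>.eq_or_lt with hM | hM
  · have e : ∀ ω S, D ω S = 0 := fun ω S => by
      have := hD ω S
      rw [← hM] at this
      exact abs_nonpos_iff.1 this
    have e2 : ∀ ω, D ω = 0 := fun ω => funext fun S => e ω S
    have e3 : ∀ ω : Env × Finset ℕ, gv (wm μ s N (Pn N y) ω) (cE (wm μ s N (Pn N y) ω) (pJ c d) (D ω)) ≤ 0 := fun ω => by
      have h := gv_strip_mass (w := wm μ s N (Pn N y) ω) (c := c) (d := d) hab (Wk_lw ω.1 hab) (hL ω)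
      refine h.trans (le_of_eq ?_)
      simp only [e]
      unfold gm
      simp
    have e4 : ∫ ω, gv (wm μ s N (Pn N y) ω) (cE (wm μ s N (Pn N y) ω) (pJ c d) (D ω)) ∂(Pm μ N) ≤ 0 :=
      integral_nonpos fun ω => e3 ω
    refine e4.trans ?_
    have : 0 ≤ ∫ ω, gm (wm μ s N (Pn N y) ω) (fun S => D ω S ^ 2) ∂(Pm μ N) :=
      integral_nonneg fun ω => gm_nonneg _ fun S => sq_nonneg _
    positivity
  have mw : ∀ S : Px (Pn N y), Measurable fun ω : Env × Finset ℕ => wm μ s N (Pn N y) ω S := meas_wm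
  have mms : ∀ (i j : ℕ) (S : Px (Pn N y)), Measurable fun ω : Env × Finset ℕ => ms80 (wm μ s N (Pn N y) ω) i j S := fun i j S => by
    unfold ms80
    exact meas_gm mw fun S' => measurable_const
  have mA : ∀ i j : ℕ, Measurable fun ω : Env × Finset ℕ =>
      gm (wm μ s N (Pn N y) ω) (fun S => D ω S ^ 2 * ms80 (wm μ s N (Pn N y) ω) i j S) := fun i j =>
    meas_gm mw fun S => ((hDm S).pow_const 2).mul (mms i j S)
  have hms1 : ∀ (i j : ℕ) (ω : Env × Finset ℕ) (S : Px (Pn N y)), ms80 (wm μ s N (Pn N y) ω) i j S ≤ 1 := fun i j ω S => by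
    unfold ms80
    refine (gm_mono _ (g := fun _ => 1) fun S' => ?_).trans_eq (Pool.W7d29a1.C0.gm_const _ _)
    unfold NI
    split_ifs <;> norm_num
  have hD2 : ∀ ω S, D ω S ^ 2 ≤ M ^ 2 := fun ω S => by
    rw [← sq_abs]
    exact pow_le_pow_left₀ (abs_nonneg _) (hD ω S) 2
  have bA : ∀ (i j : ℕ) (ω : Env × Finset ℕ),
      |gm (wm μ s N (Pn N y) ω) (fun S => D ω S ^ 2 * ms80 (wm μ s N (Pn N y) ω) i j S)| ≤ M ^ 2 := fun i j ω => by
    rw [abs_of_nonneg (gm_nonneg _ fun S => mul_nonneg (sq_nonneg _) (ms80_nonneg _ _ _ _))]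
    refine (gm_mono _ fun S => ?_).trans_eq (Pool.W7d29a1.C0.gm_const _ _)
    calc D ω S ^ 2 * ms80 (wm μ s N (Pn N y) ω) i j S ≤ D ω S ^ 2 * 1 := mul_le_mul_of_nonneg_left (hms1 i j ω S) (sq_nonneg _)
      _ ≤ M ^ 2 := by rw [mul_one]; exact hD2 ω S
  have iA : ∀ i j : ℕ, Integrable (fun ω : Env × Finset ℕ => gm (wm μ s N (Pn N y) ω)
      (fun S => D ω S ^ 2 * ms80 (wm μ s N (Pn N y) ω) i j S)) (Pm μ N) := fun i j => int_bdd (mA i j) (bA i j)
  have h1 : ∫ ω, gv (wm μ s N (Pn N y) ω) (cE (wm μ s N (Pn N y) ω) (pJ c d) (D ω)) ∂(Pm μ N) ≤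
      ∫ ω, (2 * gm (wm μ s N (Pn N y) ω) (fun S => D ω S ^ 2 * ms80 (wm μ s N (Pn N y) ω) c al S) +
        2 * gm (wm μ s N (Pn N y) ω) (fun S => D ω S ^ 2 * ms80 (wm μ s N (Pn N y) ω) be d S)) ∂(Pm μ N) := by
    refine integral_mono_of_nonneg (Filter.Eventually.of_forall fun ω => gv_nonneg _ _)
      (((iA c al).const_mul 2).add ((iA be d).const_mul 2)) (Filter.Eventually.of_forall fun ω => ?_)
    exact gv_strip_mass hab (Wk_lw ω.1 hab) (hL ω)
  rw [integral_add ((iA c al).const_mul 2) ((iA be d).const_mul 2), integral_const_mul, integral_const_mul] at h1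
  have h2 := int_msP hy hr hp hW1 hM hD hDm hDo1
  have h3 := int_msP hy hr hp hW2 hM hD hDm hDo2
  linarith

end Pool.Agent.W_7d29a1_C0.Strip80
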