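import Pool.Agent.W_7d29a1_C0.EqvK33
import Pool.Agent.W_7d29a1_C0.Pas38
import Pool.Agent.W_7d29a1_C0.N38B
import Pool.Agent.W_7d29a1_C0.StripP80

/-!
MP_7d29a1_pr, [CURV0], leaf E5, helper33: THE PASSENGERS. `PasF33 N b' K I`: a family of row functionals, bounded by `K`, measurable, each
seeing the positions and the rows of its window only, and covariant for the flips of the rows with a disjoint window. Instances: `pas_N5e`,
`pas_N25e`, `pas_M5e`, `pas_srM5e`. For such a family the sum `YF_i` over the rows far from the stretch `i` (distance at least `4 b'`) and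
its absolute value are `Cov1` for every row `j` of the stretch (`yf_cov`, `yf_cov_abs`), do not see the rows within `3 b'` of the stretch
(`yf_off`) nor the path there (`yf_mp`).
-/

set_option autoImplicit false
set_option linter.unusedSectionVars false

namespace Pool.W7d29a1.C0.Ps33

open Pool.Agent.W_7d29a1_F hiding W_pos W_nonneg W_add
open Finset MeasureTheory Pool.Agent.W_7d29a1_X
open Pool.Agent.W_7d29a1_C0.Mod92 Pool.Agent.W_7d29a1_C0.Flip61 Pool.Agent.W_7d29a1_C0.Base5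
open Pool.W7d29a1.C0 Pool.W7d29a1.C0.EqK33 Pool.W7d29a1.C0.L38
open Pool.Agent.W_7d29a1_C0 Pool.Agent.W_7d29a1_C0.Row96 Pool.Agent.W_7d29a1_C0.E4T32
open Pool.Agent.W_7d29a1_C0.BasRow33 (Lk_cC)
open Pool.Agent.W_7d29a1_C0.Swap57
open Pool.Agent.W_7d29a1_C0.Strip80 (OffD)
open Pool.Agent.W_7d29a1_C0.N38 (far38 far38_lt)
open Pool.W7d29a1.C0.VT31 (Mp Crs cE cV cC fz gc gv)

noncomputable section

/-! ### The double ties of a row -/

section N25

variable {μ : Measure ℝ} {s : ℝ} {N : ℕ} {Q : Finset (Finset ℕ)} [SwQ Q] [Nonempty (Px Q)]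

/-- **The double ties of a row are a function of the positions in its window.** -/
theorem N25e_Lk (δ B : ℝ) {b0 b b' : ℕ} (h0 : b0 ≤ b) (hb : b ≤ b') (ω : Env × Finset ℕ) (j : ℕ) :
    Lk (j - b') (j + b') (N25e μ s N Q δ B b0 b b' ω j) := by
  have hg : Lk (j - b') (j + b') (gg μ s Q δ B b0 ω j) :=
    Lk_mono (al := j - b0) (be := j + b0) (by omega) (by omega) (Lk_gg δ B b0 j ω le_rfl le_rfl)
  have hgb : Lk (j - b) (j + b) (gg μ s Q δ B b0 ω j) :=
    Lk_mono (al := j - b0) (be := j + b0) (by omega) (by omega) (Lk_gg δ B b0 j ω le_rfl le_rfl)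
  have hγ : Lk (j - b') (j + b') (ge5 μ s N Q δ B b0 b ω j) :=
    Lk_mono (al := j - b) (be := j + b) (by omega) (by omega) (ge5_Lk δ B h0 ω j)
  have hV : ∀ t : ℝ, Lk (j - b') (j + b') (VT31.cV (w5 μ s N Q δ B b0 ω j + t • gg μ s Q δ B b0 ω j) (pJ (j - b) (j + b))
      (gg μ s Q δ B b0 ω j)) := fun t =>
    Lk_mono (al := j - b) (be := j + b) (by omega) (by omega)
      (Lk_cV (by omega) ((Wk_w5 δ B b0 ω j (by omega) (by omega)).add (hgb.Wk.smul t)) hgb)
  have hC : ∀ (t r : ℝ) {f : Px Q → ℝ}, Lk (j - b') (j + b') f →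
      Lk (j - b') (j + b') (VT31.cC (w5 μ s N Q δ B b0 ω j + t • gg μ s Q δ B b0 ω j) (pJ (j - b') (j + b')) f
        (VT31.cV (w5 μ s N Q δ B b0 ω j + r • gg μ s Q δ B b0 ω j) (pJ (j - b) (j + b)) (gg μ s Q δ B b0 ω j))) :=
    fun t r f hf => Lk_cC (by omega) ((Wk_w5 δ B b0 ω j (by omega) (by omega)).add (hg.Wk.smul t)) hf (hV r)
  intro S S' h
  have h1 := fun t r : ℝ => hC t r hg S S' h
  have h2 := fun t r : ℝ => hC t r hγ S S' h
  unfold N25e N2g pW
  simp only [h1, h2]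

theorem N2g_add_mp (w g γ : Px Q → ℝ) {c d c₀ d₀ : ℕ} (hc : c ≤ c₀) (hd : d₀ ≤ d) {u : Px Q → ℝ} (hu : Mp (pJ c d) u) :
    N2g (w + u) g (pJ c d) (pJ c₀ d₀) γ = N2g w g (pJ c d) (pJ c₀ d₀) γ := by
  have hu' : Mp (pJ c₀ d₀) u := hu.of_crs (crs_pJ hc hd)
  have e1 : ∀ t : ℝ, w + u + t • g = (w + t • g) + u := fun t => by abel
  have e2 : ∀ (t : ℝ) (f : Px Q → ℝ), VT31.cV (w + u + t • g) (pJ c₀ d₀) f = VT31.cV (w + t • g) (pJ c₀ d₀) f := fun t f => by
    unfold VT31.cV VT31.cC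
    rw [e1, cE_add_mp _ hu', cE_add_mp _ hu']
  have e3 : ∀ (t : ℝ) (f f' : Px Q → ℝ), VT31.cC (w + u + t • g) (pJ c d) f f' = VT31.cC (w + t • g) (pJ c d) f f' := fun t f f' => by
    unfold VT31.cC
    rw [e1, cE_add_mp _ hu, cE_add_mp _ hu, cE_add_mp _ hu]
  funext x
  unfold N2g
  simp only [e2, e3]

/-- **The double ties of a row see the rows of its window.** -/
theorem N25e_rows (δ B : ℝ) {b0 b b' : ℕ} (h0 : b0 ≤ b) (hb : b ≤ b') {η η' : Env} (A : Finset ℕ) {j : ℕ}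
    (h : Ag (j - b') (j + b') η η') : N25e μ s N Q δ B b0 b b' (η, A) j = N25e μ s N Q δ B b0 b b' (η', A) j := by
  obtain ⟨u, hu, e⟩ := w5_rows (μ := μ) (s := s) (N := N) (Q := Q) δ B (h0.trans hb) A h
  funext S
  unfold N25e
  rw [e, ge5_rows δ B h0 A (h.mono (by omega) (by omega)), N2g_add_mp _ _ _ (by omega) (by omega) hu,
    gg_rows δ B b0 A (h.mono (by omega) (by omega))]

end N25

/-! ### Families of passengers -/

/-- **A family of passengers**: row functionals which see their window only and are covariant for the flips of the other rows. -/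
structure PasF33 (N b' : ℕ) (K : ℝ) (I : ℕ → (y : ℕ) → Env × Finset ℕ → Px (Pn N y) → ℝ) : Prop where
  K0 : 0 ≤ K
  bdd : ∀ k y ω S, |I k y ω S| ≤ K
  mes : ∀ k y S, Measurable fun ω => I k y ω S
  lk : ∀ k y ω, Lk (k - b') (k + b') (I k y ω)
  rows : ∀ k y (η η' : Env) (A : Finset ℕ), Ag (k - b') (k + b') η η' → I k y (η, A) = I k y (η', A)
  cov : ∀ k j, (k + 2 * b' ≤ j ∨ j + 2 * b' ≤ k) → k + b' ≤ N → Cov1 N b' j (fun y ω => I k y ω) K

section Inst

variable {μ : Measure ℝ} {s : ℝ} {N b0 b b' : ℕ} (hb' : 0 < b') (h0 : b0 ≤ b) (hb : b ≤ b') (δ : ℝ) {B : ℝ} (hB : 0 ≤ B)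

include hb' h0 hb hB

theorem pas_N5e : PasF33 N b' (K5 B) fun k y ω => N5e μ s N (Pn N y) δ B b0 b b' ω k where
  K0 := K5_nonneg hB
  bdd k y ω S := have : Nonempty (Px (Pn N y)) := ⟨S⟩; abs_N5e hB b0 hb ω k S
  mes k y S := have : Nonempty (Px (Pn N y)) := ⟨S⟩; meas_N5e δ B b0 hb k S
  lk k y ω := fun S S' h => have : Nonempty (Px (Pn N y)) := ⟨S⟩; N5e_Lk δ B h0 hb ω k S S' h
  rows k y η η' A h := by
    funext S
    have : Nonempty (Px (Pn N y)) := ⟨S⟩
    rw [N5e_rows δ B h0 hb A h]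
  cov k j hk hkN := cov_N5e hb' hk hkN δ hB (h0.trans hb) hb

theorem pas_N25e : PasF33 N b' (K5 B) fun k y ω => N25e μ s N (Pn N y) δ B b0 b b' ω k where
  K0 := K5_nonneg hB
  bdd k y ω S := have : Nonempty (Px (Pn N y)) := ⟨S⟩; abs_N25e hB b0 b b' ω k S
  mes k y S := have : Nonempty (Px (Pn N y)) := ⟨S⟩; meas_N25e δ B b0 b b' k S
  lk k y ω := fun S S' h => have : Nonempty (Px (Pn N y)) := ⟨S⟩; N25e_Lk δ B h0 hb ω k S S' h
  rows k y η η' A h := by
    funext S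
    have : Nonempty (Px (Pn N y)) := ⟨S⟩
    rw [N25e_rows δ B h0 hb A h]
  cov k j hk hkN := cov_N25e hb' hk hkN δ hB (h0.trans hb) hb

theorem pas_M5e : PasF33 N b' (K5 B) fun k y ω => M5e μ s N (Pn N y) δ B b0 b b' ω k where
  K0 := K5_nonneg hB
  bdd k y ω S := have : Nonempty (Px (Pn N y)) := ⟨S⟩; abs_M5e hB b0 b b' ω k S
  mes k y S := have : Nonempty (Px (Pn N y)) := ⟨S⟩; meas_M5e δ B b0 b b' k S
  lk k y ω := fun S S' h => have : Nonempty (Px (Pn N y)) := ⟨S⟩; M5e_Lk δ B h0 hb ω k S S' h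
  rows k y η η' A h := by
    funext S
    have : Nonempty (Px (Pn N y)) := ⟨S⟩
    rw [M5e_rows δ B h0 hb A h]
  cov k j hk hkN := cov_M5e hb' hk hkN δ hB (h0.trans hb) hb

theorem pas_srM5e : PasF33 N b' (K5 B) fun k y ω S => sr ω.2 k * M5e μ s N (Pn N y) δ B b0 b b' ω k S where
  K0 := K5_nonneg hB
  bdd k y ω S := by
    have : Nonempty (Px (Pn N y)) := ⟨S⟩
    rw [abs_mul, abs_sr, one_mul]
    exact abs_M5e hB b0 b b' ω k S
  mes k y S := have : Nonempty (Px (Pn N y)) := ⟨S⟩; (meas_sr k).mul (meas_M5e δ B b0 b b' k S)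
  lk k y ω := fun S S' h => by
    have : Nonempty (Px (Pn N y)) := ⟨S⟩
    show sr ω.2 k * M5e μ s N (Pn N y) δ B b0 b b' ω k S = sr ω.2 k * M5e μ s N (Pn N y) δ B b0 b b' ω k S'
    rw [M5e_Lk δ B h0 hb ω k S S' h]
  rows k y η η' A h := by
    funext S
    have : Nonempty (Px (Pn N y)) := ⟨S⟩
    show sr A k * M5e μ s N (Pn N y) δ B b0 b b' (η, A) k S = sr A k * M5e μ s N (Pn N y) δ B b0 b b' (η', A) k S
    rw [M5e_rows δ B h0 hb A h]
  cov k j hk hkN := cov_srM5e hb' hk hkN δ hB (h0.trans hb) hb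

end Inst

/-! ### The sum over the far rows of a stretch -/

theorem far38_2 {l i k j b' : ℕ} (hl : 0 < l) (hj : j / l = i) (h : far38 l (4 * b') i k) : k + 4 * b' ≤ j ∨ j + 4 * b' < k :=
  far38_lt hl hj h

section Sum

variable {N b' : ℕ} {K : ℝ} {I : ℕ → (y : ℕ) → Env × Finset ℕ → Px (Pn N y) → ℝ} (hI : PasF33 N b' K I)

include hI

/-- The sum over any set of far rows. -/
theorem sum_cov {T : Finset ℕ} {j : ℕ} (hT : ∀ k ∈ T, (k + 2 * b' ≤ j ∨ j + 2 * b' ≤ k) ∧ k + b' ≤ N) :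
    Cov1 N b' j (fun y ω S => ∑ k ∈ T, I k y ω S) (T.card * K) := by
  have h := Cov1.sum (N := N) (b := b') (j := j) T (f := fun k y ω => I k y ω) (M := fun _ => K)
    fun k hk => hI.cov k j (hT k hk).1 (hT k hk).2
  rw [sum_const, nsmul_eq_mul] at h
  have e : (fun (y : ℕ) (ω : Env × Finset ℕ) => ∑ k ∈ T, I k y ω) = fun y ω S => ∑ k ∈ T, I k y ω S := by
    funext y ω S
    rw [Finset.sum_apply]
  rwa [e] at h

/-- **The sum over the rows far from the stretch is covariant for the flip of each row of the stretch.** -/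
theorem yf_cov {T : Finset ℕ} (hN : ∀ k ∈ T, k + b' ≤ N) {l i j : ℕ} (hl : 0 < l) (hj : j / l = i) :
    Cov1 N b' j (fun y ω S => ∑ k ∈ T.filter (far38 l (4 * b') i), I k y ω S) (T.card * K) := by
  have h := sum_cov hI (T := T.filter (far38 l (4 * b') i)) (j := j) fun k hk => by
    obtain ⟨h1, h2⟩ := mem_filter.1 hk
    have h3 := far38_2 hl hj h2
    exact ⟨by omega, hN k h1⟩
  refine h.mono (mul_le_mul_of_nonneg_right ?_ hI.K0)
  exact_mod_cast card_filter_le _ _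

/-- **Its absolute value.** -/
theorem yf_cov_abs {T : Finset ℕ} (hN : ∀ k ∈ T, k + b' ≤ N) {l i j : ℕ} (hl : 0 < l) (hj : j / l = i) :
    Cov1 N b' j (fun y ω S => |∑ k ∈ T.filter (far38 l (4 * b') i), I k y ω S|) (T.card * K) :=
  (yf_cov hI hN hl hj).abs33

theorem yf_bdd (T : Finset ℕ) (l i : ℕ) (y : ℕ) (ω : Env × Finset ℕ) (S : Px (Pn N y)) :
    |∑ k ∈ T.filter (far38 l (4 * b') i), I k y ω S| ≤ T.card * K := by
  refine (abs_sum_le_sum_abs _ _).trans ((sum_le_sum fun k _ => hI.bdd k y ω S).trans ?_)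
  rw [sum_const, nsmul_eq_mul]
  exact mul_le_mul_of_nonneg_right (by exact_mod_cast card_filter_le _ _) hI.K0

theorem yf_mes (T : Finset ℕ) (l i y : ℕ) (S : Px (Pn N y)) :
    Measurable fun ω => ∑ k ∈ T.filter (far38 l (4 * b') i), I k y ω S :=
  Finset.measurable_fun_sum _ fun k _ => hI.mes k y S

/-- **The sum does not see the path within `3 b'` of the stretch.** -/
theorem yf_mp (T : Finset ℕ) (l i y : ℕ) (ω : Env × Finset ℕ) :
    Mp (pJ (i * l - 3 * b') ((i + 1) * l + 3 * b')) fun S : Px (Pn N y) => ∑ k ∈ T.filter (far38 l (4 * b') i), I k y ω S :=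
  fun S S' e => sum_congr rfl fun k hk => by
    refine Mp_of_Lk (hI.lk k y ω) ?_ S S' e
    have h := (mem_filter.1 hk).2
    unfold far38 at h
    omega

/-- The windows of the rows of the stretch. -/
theorem yf_mpJ (T : Finset ℕ) {l i c d : ℕ} (hc : i * l ≤ c + 3 * b') (hd : d ≤ (i + 1) * l + 3 * b') (y : ℕ) (ω : Env × Finset ℕ) :
    Mp (pJ c d) fun S : Px (Pn N y) => ∑ k ∈ T.filter (far38 l (4 * b') i), I k y ω S :=
  fun S S' e => sum_congr rfl fun k hk => by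
    refine Mp_of_Lk (hI.lk k y ω) ?_ S S' e
    have h := (mem_filter.1 hk).2
    unfold far38 at h
    omega

/-- **The sum does not see the rows within `3 b'` of the stretch.** -/
theorem yf_rows (T : Finset ℕ) (l i y : ℕ) {η η' : Env} (A : Finset ℕ)
    (h : ∀ q : Pt, q.1 ≤ ((i * l - 3 * b' : ℕ) : ℤ) ∨ (((i + 1) * l + 3 * b' : ℕ) : ℤ) < q.1 → η q = η' q) (S : Px (Pn N y)) :
    ∑ k ∈ T.filter (far38 l (4 * b') i), I k y (η, A) S = ∑ k ∈ T.filter (far38 l (4 * b') i), I k y (η', A) S := by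
  refine sum_congr rfl fun k hk => ?_
  have h2 := (mem_filter.1 hk).2
  unfold far38 at h2
  obtain ⟨a, ha⟩ : ∃ a : ℕ, a = i * l := ⟨_, rfl⟩
  obtain ⟨d, hd⟩ : ∃ d : ℕ, d = (i + 1) * l := ⟨_, rfl⟩
  rw [← ha, ← hd] at h h2
  rw [hI.rows k y η η' A fun q h3 h4 => h q (by omega)]

theorem yf_off (T : Finset ℕ) (l i y : ℕ) {J : Finset ℕ}
    (hJ : ∀ n ∈ J, i * l - 3 * b' < n ∧ n ≤ (i + 1) * l + 3 * b') :
    OffD (N := N) (y := y) J fun ω S => ∑ k ∈ T.filter (far38 l (4 * b') i), I k y ω S := fun η η' A S h =>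
  yf_rows hI T l i y A (fun q hq => h q fun hq2 => by
    have h3 := hJ _ hq2.2
    have h4 : ((q.1.toNat : ℕ) : ℤ) = q.1 := Int.toNat_of_nonneg hq2.1
    omega) S

theorem yf_off_abs (T : Finset ℕ) (l i y : ℕ) {J : Finset ℕ}
    (hJ : ∀ n ∈ J, i * l - 3 * b' < n ∧ n ≤ (i + 1) * l + 3 * b') :
    OffD (N := N) (y := y) J fun ω S => |∑ k ∈ T.filter (far38 l (4 * b') i), I k y ω S| := fun η η' A S h => by
  have := yf_off hI T l i y hJ η η' A S h
  beta_reduce at this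
  show |∑ k ∈ T.filter (far38 l (4 * b') i), I k y (η, A) S| = |∑ k ∈ T.filter (far38 l (4 * b') i), I k y (η', A) S|
  rw [this]

/-- The rows of the window `Ioo (j - 3 b') (j + 3 b')` of a row of the stretch. -/
theorem yf_offJ (T : Finset ℕ) {l i j : ℕ} (hl : 0 < l) (hj : j / l = i) (y : ℕ) :
    OffD (N := N) (y := y) (Ioo (j - 3 * b') (j + 3 * b')) fun ω S => ∑ k ∈ T.filter (far38 l (4 * b') i), I k y ω S :=
  yf_off hI T l i y fun n hn => by
    rw [mem_Ioo] at hn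
    have h1 : i * l ≤ j := by
      rw [← hj]
      exact Nat.div_mul_le_self j l
    have h2 : j < (i + 1) * l := by
      rw [← hj]
      exact Nat.lt_mul_of_div_lt (Nat.lt_succ_self _) hl
    omega

/-- **One family at a fixed row is a function of its window**: rows off the window `Ioo (k - b') (k + b' + 1)`. -/
theorem one_off (k y : ℕ) {J : Finset ℕ} (hJ : ∀ n ∈ J, n ≤ k - b' ∨ k + b' < n) :
    OffD (N := N) (y := y) J fun ω S => I k y ω S := fun η η' A S h => by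
  show I k y (η, A) S = I k y (η', A) S
  rw [hI.rows k y η η' A fun q h3 h4 => h q fun hq2 => by
    have h5 := hJ _ hq2.2
    have h6 : ((q.1.toNat : ℕ) : ℤ) = q.1 := Int.toNat_of_nonneg hq2.1
    omega]

end Sum

theorem offD_mono {N y : ℕ} {J J' : Finset ℕ} (hJ : J' ⊆ J) {D : Env × Finset ℕ → Px (Pn N y) → ℝ} (h : OffD J D) : OffD J' D :=
  fun η η' A S h1 => h η η' A S fun q hq => h1 q fun h2 => hq ⟨h2.1, hJ h2.2⟩

end

end Pool.W7d29a1.C0.Ps33
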