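import Pool.Agent.W_7d29a1_C0.NTopF23
import Pool.Agent.W_7d29a1_C0.Pas33

/-!
MP_7d29a1_pr, [CURV0], leaf E5 (helper5): THE COMMON PRICE FORM FOR ROWS. `PsH`: the passengers of the stretch `k` (nonnegative, bounded,
blind within `3 b'` of the stretch for the path and for the rows, covariant for the flips of the rows of the stretch). `PrB`: the price of a
family of row functionals against all passengers, one stretch at a time, with long loops `Bl` which do not depend on the passenger.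
Closure: `PrB.add`, `PrB.smul`, `PrB.mono`, `PrB.num`, `prB_row`; the end: `rowB_of_prB`.
-/

set_option autoImplicit false
set_option linter.unusedSectionVars false

namespace Pool.Agent.W_7d29a1_C0.PrB5

open Finset MeasureTheory Filter Topology
open Pool.Agent.W_7d29a1_F Pool.Agent.W_7d29a1_X
open Pool.Agent.W_7d29a1_C0 Pool.Agent.W_7d29a1_C0.Mod92 Pool.Agent.W_7d29a1_C0.Asm96 Pool.Agent.W_7d29a1_C0.N38
open Pool.Agent.W_7d29a1_C0.NTop23 Pool.Agent.W_7d29a1_C0.Flip61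
open Pool.Agent.W_7d29a1_C0.Strip80 (OffD)
open Pool.W7d29a1.C0 (gz gm gz_pos gz_ne gm_nonneg gm_mono gm_const)
open Pool.W7d29a1.C0.VT31 (Mp Crs)
open Pool.W7d29a1.C0.Ps33

noncomputable section

/-- **The passengers of the stretch `k`.** -/
structure PsH (N b' l k : ℕ) (K : ℝ) (H : (y : ℕ) → Env × Finset ℕ → Px (Pn N y) → ℝ) : Prop where
  nn : ∀ y ω S, 0 ≤ H y ω S
  bdd : ∀ y ω S, H y ω S ≤ K
  mes : ∀ y S, Measurable fun ω => H y ω S
  mp : ∀ y ω, Mp (pJ (k * l - 3 * b') ((k + 1) * l + 3 * b')) (H y ω)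
  off : ∀ (y : ℕ) (J : Finset ℕ), (∀ n ∈ J, k * l - 3 * b' < n ∧ n ≤ (k + 1) * l + 3 * b') → OffD (N := N) (y := y) J (H y)
  cov : ∀ j, j / l = k → Cov1 N b' j H K

namespace PsH

variable {N b' l k : ℕ} {K : ℝ} {H : (y : ℕ) → Env × Finset ℕ → Px (Pn N y) → ℝ}

theorem mpJ (h : PsH N b' l k K H) {c d : ℕ} (hc : k * l ≤ c + 3 * b') (hd : d ≤ (k + 1) * l + 3 * b') (y : ℕ) (ω : Env × Finset ℕ) :
    Mp (pJ c d) (H y ω) := fun S S' e => by
  have : Nonempty (Px (Pn N y)) := ⟨S⟩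
  exact (h.mp y ω).of_crs (crs_pJ (by omega) hd) S S' e

theorem rows {l k j : ℕ} (hl : 0 < l) (hj : j / l = k) : k * l ≤ j ∧ j < (k + 1) * l := by
  constructor
  · rw [← hj]
    exact Nat.div_mul_le_self j l
  · rw [← hj]
    exact Nat.lt_mul_of_div_lt (Nat.lt_succ_self _) hl

theorem mpW (h : PsH N b' l k K H) {j : ℕ} (hl : 0 < l) (hj : j / l = k) (y : ℕ) (ω : Env × Finset ℕ) :
    Mp (pJ (j - b') (j + b')) (H y ω) := by
  obtain ⟨h1, h2⟩ := rows hl hj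
  exact h.mpJ (by omega) (by omega) y ω

theorem offJ (h : PsH N b' l k K H) {j : ℕ} (hl : 0 < l) (hj : j / l = k) (y : ℕ) :
    OffD (N := N) (y := y) (Ioo (j - 3 * b') (j + 3 * b')) (H y) := by
  obtain ⟨h1, h2⟩ := rows hl hj
  refine h.off y _ fun n hn => ?_
  rw [mem_Ioo] at hn
  constructor <;> omega

theorem abs_le (h : PsH N b' l k K H) (y : ℕ) (ω : Env × Finset ℕ) (S : Px (Pn N y)) : |H y ω S| ≤ K := by
  rw [abs_of_nonneg (h.nn y ω S)]
  exact h.bdd y ω S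

theorem bm (h : PsH N b' l k K H) (ys : Finset ℕ) : BM ys H := ⟨⟨K, fun y _ ω S => h.abs_le y ω S⟩, fun y _ S => h.mes y S⟩

end PsH

/-- **The passengers of `RowB`.** -/
theorem psH_yf {N b' : ℕ} {K : ℝ} {I : ℕ → (y : ℕ) → Env × Finset ℕ → Px (Pn N y) → ℝ} (hI : PasF33 N b' K I) {T : Finset ℕ}
    (hN : ∀ k ∈ T, k + b' ≤ N) {l : ℕ} (hl : 0 < l) (k : ℕ) :
    PsH N b' l k (T.card * K) fun y ω S => |∑ j ∈ T.filter (far38 l (4 * b') k), I j y ω S| where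
  nn _ _ _ := abs_nonneg _
  bdd y ω S := yf_bdd hI T l k y ω S
  mes y S := (yf_mes hI T l k y S).abs
  mp y ω := fun S S' e => by
    have h := yf_mp hI T l k y ω S S' e
    beta_reduce at h ⊢
    rw [h]
  off y _ hJ := yf_off_abs hI T l k y hJ
  cov _ hj := yf_cov_abs hI hN hl hj

variable (μ : Measure ℝ) (s : ℝ) (F : Frm96)

/-- The rows of the stretch `k` in the block. -/
def rws (m q i l k : ℕ) : Finset ℕ := (Rw (F.R m) (i * 2 ^ q) ((i + 1) * 2 ^ q)).filter fun j => j / l = k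

/-- **THE PRICE OF A FAMILY** against all passengers, one stretch of rows at a time. -/
def PrB (m q i l b' : ℕ) (K : ℝ) (X : (y : ℕ) → Env × Finset ℕ → ℕ → Px (Pn (F.L m) y) → ℝ) (g A₂ T e : ℝ) : Prop :=
  ∃ Bl : ℕ → ∀ y, Env × Finset ℕ → Px (Pn (F.L m) y) → ℝ, (∀ k, BM (F.ys m) (Bl k)) ∧ (∀ k, ∀ y ∈ F.ys m, ∀ ω S, 0 ≤ Bl k y ω S) ∧
    avF μ s F m (fun y ω S => (∑ k ∈ (Rw (F.R m) (i * 2 ^ q) ((i + 1) * 2 ^ q)).image fun j => j / l, Bl k y ω S) ^ 2) ≤ T ∧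
    (∀ k, avF μ s F m (fun y ω S => Bl k y ω S ^ 2) ≤ l ^ 2 * A₂) ∧
    ∀ (k : ℕ) (H : (y : ℕ) → Env × Finset ℕ → Px (Pn (F.L m) y) → ℝ), PsH (F.L m) b' l k K H →
      ∑ j ∈ rws F m q i l k, avF μ s F m (fun y ω S => X y ω j S * H y ω S) ≤
        l * g * avF μ s F m H + avF μ s F m (fun y ω S => Bl k y ω S * H y ω S) + e

variable {μ s F}

section Cl

variable {m q i l b' : ℕ} {K : ℝ} (hX : ∀ y ∈ F.ys m, Nonempty (Px (Pn (F.L m) y)))

theorem avF_mono [IsProbabilityMeasure μ] (hX : ∀ y ∈ F.ys m, Nonempty (Px (Pn (F.L m) y)))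
    {f g : ∀ y, Env × Finset ℕ → Px (Pn (F.L m) y) → ℝ} (hf : BM (F.ys m) f) (hg : BM (F.ys m) g)
    (h : ∀ y ∈ F.ys m, ∀ ω x, f y ω x ≤ g y ω x) : avF μ s F m f ≤ avF μ s F m g :=
  av_mono hX (fun _ _ S => meas_wm S) hf hg h

theorem avF_add [IsProbabilityMeasure μ] (hX : ∀ y ∈ F.ys m, Nonempty (Px (Pn (F.L m) y)))
    {f g : ∀ y, Env × Finset ℕ → Px (Pn (F.L m) y) → ℝ} (hf : BM (F.ys m) f) (hg : BM (F.ys m) g) :
    avF μ s F m (fun y ω S => f y ω S + g y ω S) = avF μ s F m f + avF μ s F m g :=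
  av_add hX (fun _ _ S => meas_wm S) hf hg

theorem avF_smul [IsProbabilityMeasure μ] (hX : ∀ y ∈ F.ys m, Nonempty (Px (Pn (F.L m) y)))
    {f : ∀ y, Env × Finset ℕ → Px (Pn (F.L m) y) → ℝ} (r : ℝ) : avF μ s F m (fun y ω S => r * f y ω S) = r * avF μ s F m f :=
  av_smul hX (fun _ _ S => meas_wm S) r

theorem avF_nonneg [IsProbabilityMeasure μ] (hX : ∀ y ∈ F.ys m, Nonempty (Px (Pn (F.L m) y)))
    {f : ∀ y, Env × Finset ℕ → Px (Pn (F.L m) y) → ℝ} (h : ∀ y ∈ F.ys m, ∀ ω x, 0 ≤ f y ω x) : 0 ≤ avF μ s F m f :=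
  av_nonneg hX (fun _ _ S => meas_wm S) h

theorem BM_smul {ys : Finset ℕ} {X : ℕ → Type*} {Ω : Type*} [MeasurableSpace Ω] [∀ y, Fintype (X y)] {f : ∀ y, Ω → X y → ℝ}
    (r : ℝ) (hf : BM ys f) : BM ys fun y ω x => r * f y ω x := by
  obtain ⟨⟨D, hD⟩, hm⟩ := hf
  refine ⟨⟨|r| * D, fun y hy ω x => ?_⟩, fun y hy x => (hm y hy x).const_mul r⟩
  rw [abs_mul]
  exact mul_le_mul_of_nonneg_left (hD y hy ω x) (abs_nonneg _)

/-- The square of a sum. -/
theorem avF_sq_add [IsProbabilityMeasure μ] (hX : ∀ y ∈ F.ys m, Nonempty (Px (Pn (F.L m) y)))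
    {f g : ∀ y, Env × Finset ℕ → Px (Pn (F.L m) y) → ℝ} (hf : BM (F.ys m) f) (hg : BM (F.ys m) g) :
    avF μ s F m (fun y ω S => (f y ω S + g y ω S) ^ 2) ≤
      2 * avF μ s F m (fun y ω S => f y ω S ^ 2) + 2 * avF μ s F m (fun y ω S => g y ω S ^ 2) := by
  have hf2 : BM (F.ys m) fun y ω S => f y ω S ^ 2 := by simpa only [sq] using hf.mul hf
  have hg2 : BM (F.ys m) fun y ω S => g y ω S ^ 2 := by simpa only [sq] using hg.mul hg
  have hs2 : BM (F.ys m) fun y ω S => (f y ω S + g y ω S) ^ 2 := by simpa only [sq] using (hf.add hg).mul (hf.add hg)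
  rw [← avF_smul hX, ← avF_smul hX, ← avF_add hX (BM_smul 2 hf2) (BM_smul 2 hg2)]
  exact avF_mono hX hs2 ((BM_smul 2 hf2).add (BM_smul 2 hg2)) fun y _ ω S => by nlinarith [sq_nonneg (f y ω S - g y ω S)]

/-- **Sum of two families.** -/
theorem PrB.add [IsProbabilityMeasure μ] (hX : ∀ y ∈ F.ys m, Nonempty (Px (Pn (F.L m) y)))
    {X X' : (y : ℕ) → Env × Finset ℕ → ℕ → Px (Pn (F.L m) y) → ℝ} {g A T e g' A' T' e' : ℝ}
    (h : PrB μ s F m q i l b' K X g A T e) (h' : PrB μ s F m q i l b' K X' g' A' T' e')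
    (hm : ∀ j ∈ Rw (F.R m) (i * 2 ^ q) ((i + 1) * 2 ^ q), BM (F.ys m) fun y ω S => X y ω j S)
    (hm' : ∀ j ∈ Rw (F.R m) (i * 2 ^ q) ((i + 1) * 2 ^ q), BM (F.ys m) fun y ω S => X' y ω j S) :
    PrB μ s F m q i l b' K (fun y ω j S => X y ω j S + X' y ω j S) (g + g') (2 * A + 2 * A') (2 * T + 2 * T') (e + e') := by
  obtain ⟨Bl, b1, b2, b3, b4, b5⟩ := h
  obtain ⟨Bl', b1', b2', b3', b4', b5'⟩ := h'
  refine ⟨fun k y ω S => Bl k y ω S + Bl' k y ω S, fun k => (b1 k).add (b1' k), fun k y hy ω S => add_nonneg (b2 k y hy ω S) (b2' k y hy ω S),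
    ?_, fun k => ?_, fun k H hH => ?_⟩
  · have e1 : avF μ s F m (fun y ω S => (∑ k ∈ (Rw (F.R m) (i * 2 ^ q) ((i + 1) * 2 ^ q)).image fun j => j / l,
        (Bl k y ω S + Bl' k y ω S)) ^ 2) =
        avF μ s F m (fun y ω S => ((∑ k ∈ (Rw (F.R m) (i * 2 ^ q) ((i + 1) * 2 ^ q)).image fun j => j / l, Bl k y ω S) +
          ∑ k ∈ (Rw (F.R m) (i * 2 ^ q) ((i + 1) * 2 ^ q)).image fun j => j / l, Bl' k y ω S) ^ 2) := by
      congr 1
      funext y ω S
      rw [sum_add_distrib]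
    rw [e1]
    exact (avF_sq_add hX (BM.sum _ fun k _ => b1 k) (BM.sum _ fun k _ => b1' k)).trans (by linarith)
  · refine (avF_sq_add hX (b1 k) (b1' k)).trans ?_
    have := b4 k
    have := b4' k
    nlinarith
  · have e1 : ∀ j ∈ rws F m q i l k, avF μ s F m (fun y ω S => (X y ω j S + X' y ω j S) * H y ω S) =
        avF μ s F m (fun y ω S => X y ω j S * H y ω S) + avF μ s F m (fun y ω S => X' y ω j S * H y ω S) := fun j hj => by
      rw [← avF_add hX ((hm j (mem_filter.1 hj).1).mul (hH.bm _)) ((hm' j (mem_filter.1 hj).1).mul (hH.bm _))]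
      congr 1
      funext y ω S
      ring
    have e2 : avF μ s F m (fun y ω S => (Bl k y ω S + Bl' k y ω S) * H y ω S) =
        avF μ s F m (fun y ω S => Bl k y ω S * H y ω S) + avF μ s F m (fun y ω S => Bl' k y ω S * H y ω S) := by
      rw [← avF_add hX ((b1 k).mul (hH.bm _)) ((b1' k).mul (hH.bm _))]
      congr 1
      funext y ω S
      ring
    rw [sum_congr rfl e1, sum_add_distrib, e2]
    have h1 := b5 k H hH
    have h2 := b5' k H hH
    nlinarith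

/-- **A constant factor.** -/
theorem PrB.smul [IsProbabilityMeasure μ] (hX : ∀ y ∈ F.ys m, Nonempty (Px (Pn (F.L m) y)))
    {X : (y : ℕ) → Env × Finset ℕ → ℕ → Px (Pn (F.L m) y) → ℝ} {g A T e : ℝ} (h : PrB μ s F m q i l b' K X g A T e) {C : ℝ} (hC : 0 ≤ C) :
    PrB μ s F m q i l b' K (fun y ω j S => C * X y ω j S) (C * g) (C ^ 2 * A) (C ^ 2 * T) (C * e) := by
  obtain ⟨Bl, b1, b2, b3, b4, b5⟩ := h
  refine ⟨fun k y ω S => C * Bl k y ω S, fun k => BM_smul C (b1 k), fun k y hy ω S => mul_nonneg hC (b2 k y hy ω S), ?_, fun k => ?_,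
    fun k H hH => ?_⟩
  · have e1 : (fun (y : ℕ) (ω : Env × Finset ℕ) (S : Px (Pn (F.L m) y)) =>
        (∑ k ∈ (Rw (F.R m) (i * 2 ^ q) ((i + 1) * 2 ^ q)).image fun j => j / l, C * Bl k y ω S) ^ 2) =
        fun y ω S => C ^ 2 * (∑ k ∈ (Rw (F.R m) (i * 2 ^ q) ((i + 1) * 2 ^ q)).image fun j => j / l, Bl k y ω S) ^ 2 := by
      funext y ω S
      rw [← mul_sum]
      ring
    rw [e1, avF_smul hX]
    exact mul_le_mul_of_nonneg_left b3 (sq_nonneg C)
  · have e1 : (fun (y : ℕ) (ω : Env × Finset ℕ) (S : Px (Pn (F.L m) y)) => (C * Bl k y ω S) ^ 2) = fun y ω S => C ^ 2 * Bl k y ω S ^ 2 := by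
      funext y ω S
      ring
    rw [e1, avF_smul hX]
    have := mul_le_mul_of_nonneg_left (b4 k) (sq_nonneg C)
    linarith
  · have e1 : ∀ j ∈ rws F m q i l k, avF μ s F m (fun y ω S => C * X y ω j S * H y ω S) =
        C * avF μ s F m (fun y ω S => X y ω j S * H y ω S) := fun j _ => by
      rw [← avF_smul hX]
      congr 1
      funext y ω S
      ring
    have e2 : avF μ s F m (fun y ω S => C * Bl k y ω S * H y ω S) = C * avF μ s F m (fun y ω S => Bl k y ω S * H y ω S) := by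
      rw [← avF_smul hX]
      congr 1
      funext y ω S
      ring
    rw [sum_congr rfl e1, ← mul_sum, e2]
    have := mul_le_mul_of_nonneg_left (b5 k H hH) hC
    linarith

/-- **Domination in the mean.** -/
theorem PrB.mono {X X' : (y : ℕ) → Env × Finset ℕ → ℕ → Px (Pn (F.L m) y) → ℝ} {g A T e e' : ℝ} (h : PrB μ s F m q i l b' K X' g A T e)
    (hm : ∀ (k : ℕ) (H : (y : ℕ) → Env × Finset ℕ → Px (Pn (F.L m) y) → ℝ), PsH (F.L m) b' l k K H →
      ∑ j ∈ rws F m q i l k, avF μ s F m (fun y ω S => X y ω j S * H y ω S) ≤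
        ∑ j ∈ rws F m q i l k, avF μ s F m (fun y ω S => X' y ω j S * H y ω S) + e') :
    PrB μ s F m q i l b' K X g A T (e + e') := by
  obtain ⟨Bl, b1, b2, b3, b4, b5⟩ := h
  refine ⟨Bl, b1, b2, b3, b4, fun k H hH => ?_⟩
  have h1 := b5 k H hH
  have h2 := hm k H hH
  linarith

/-- Domination for each path. -/
theorem PrB.mono_path [IsProbabilityMeasure μ] (hX : ∀ y ∈ F.ys m, Nonempty (Px (Pn (F.L m) y)))
    {X X' : (y : ℕ) → Env × Finset ℕ → ℕ → Px (Pn (F.L m) y) → ℝ} {g A T e : ℝ} (h : PrB μ s F m q i l b' K X' g A T e)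
    (hm : ∀ j ∈ Rw (F.R m) (i * 2 ^ q) ((i + 1) * 2 ^ q), BM (F.ys m) fun y ω S => X y ω j S)
    (hm' : ∀ j ∈ Rw (F.R m) (i * 2 ^ q) ((i + 1) * 2 ^ q), BM (F.ys m) fun y ω S => X' y ω j S)
    (hle : ∀ j ∈ Rw (F.R m) (i * 2 ^ q) ((i + 1) * 2 ^ q), ∀ y ∈ F.ys m, ∀ ω S, X y ω j S ≤ X' y ω j S) :
    PrB μ s F m q i l b' K X g A T e := by
  have h1 := h.mono (X := X) (e' := 0) fun k H hH => by
    rw [add_zero]
    refine sum_le_sum fun j hj => ?_
    have hj' := (mem_filter.1 hj).1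
    exact avF_mono hX ((hm j hj').mul (hH.bm _)) ((hm' j hj').mul (hH.bm _)) fun y hy ω S =>
      mul_le_mul_of_nonneg_right (hle j hj' y hy ω S) (hH.nn y ω S)
  rwa [add_zero] at h1

/-- The numbers may be increased. -/
theorem PrB.num [IsProbabilityMeasure μ] (hX : ∀ y ∈ F.ys m, Nonempty (Px (Pn (F.L m) y))) {X : (y : ℕ) → Env × Finset ℕ → ℕ → Px (Pn (F.L m) y) → ℝ}
    {g A T e g' A' T' e' : ℝ} (h : PrB μ s F m q i l b' K X g A T e) (hg : g ≤ g') (hA : A ≤ A') (hT : T ≤ T') (he : e ≤ e') :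
    PrB μ s F m q i l b' K X g' A' T' e' := by
  obtain ⟨Bl, b1, b2, b3, b4, b5⟩ := h
  refine ⟨Bl, b1, b2, b3.trans hT, fun k => (b4 k).trans (mul_le_mul_of_nonneg_left hA (sq_nonneg _)), fun k H hH => (b5 k H hH).trans ?_⟩
  have h1 : 0 ≤ avF μ s F m H := avF_nonneg hX fun y _ ω S => hH.nn y ω S
  have h2 : (l : ℝ) * g * avF μ s F m H ≤ l * g' * avF μ s F m H :=
    mul_le_mul_of_nonneg_right (mul_le_mul_of_nonneg_left hg (Nat.cast_nonneg _)) h1
  linarith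

theorem card_rws_le {m q i l k : ℕ} (hl : 0 < l) : (rws F m q i l k).card ≤ l := by
  refine (card_le_card (t := Ico (k * l) ((k + 1) * l)) fun j hj => ?_).trans ?_
  · have h1 := (mem_filter.1 hj).2
    rw [mem_Ico]
    constructor
    · rw [← h1]
      exact Nat.div_mul_le_self j l
    · rw [← h1]
      exact Nat.lt_mul_of_div_lt (Nat.lt_succ_self _) hl
  · rw [Nat.card_Ico, add_mul, one_mul]
    omega

/-- **A price for each row** (no long loops). -/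
theorem prB_row [IsProbabilityMeasure μ] (hX : ∀ y ∈ F.ys m, Nonempty (Px (Pn (F.L m) y))) (hl : 0 < l)
    {X : (y : ℕ) → Env × Finset ℕ → ℕ → Px (Pn (F.L m) y) → ℝ} {g e : ℝ} (hg : 0 ≤ g) (he : 0 ≤ e)
    (h : ∀ (k j : ℕ), j ∈ rws F m q i l k → ∀ (H : (y : ℕ) → Env × Finset ℕ → Px (Pn (F.L m) y) → ℝ), PsH (F.L m) b' l k K H →
      avF μ s F m (fun y ω S => X y ω j S * H y ω S) ≤ g * avF μ s F m H + e) :
    PrB μ s F m q i l b' K X g 0 0 (l * e) := by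
  refine ⟨fun _ _ _ _ => 0, fun _ => BM.zero, fun _ _ _ _ _ => le_rfl, ?_, fun k => ?_, fun k H hH => ?_⟩
  · refine le_of_eq ?_
    unfold avF av
    simp [gm]
  · refine le_of_eq ?_
    unfold avF av
    simp [gm]
  · have h1 : 0 ≤ avF μ s F m H := avF_nonneg hX fun y _ ω S => hH.nn y ω S
    have h2 := sum_le_sum fun j (hj : j ∈ rws F m q i l k) => h k j hj H hH
    rw [sum_const, nsmul_eq_mul] at h2
    have h3 : ((rws F m q i l k).card : ℝ) ≤ l := by exact_mod_cast card_rws_le hl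
    have h4 : ((rws F m q i l k).card : ℝ) * (g * avF μ s F m H + e) ≤ l * (g * avF μ s F m H + e) :=
      mul_le_mul_of_nonneg_right h3 (by positivity)
    have h5 : avF μ s F m (fun y ω S => (0 : ℝ) * H y ω S) = 0 := by
      unfold avF av
      simp [gm]
    rw [h5]
    linarith

/-- **THE END: the row estimate of `NTop23`** from the price of a family which dominates `|I|` in the mean. -/
theorem rowB_of_prB [IsProbabilityMeasure μ] (hX : ∀ y ∈ F.ys m, Nonempty (Px (Pn (F.L m) y))) (hl : 0 < l)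
    {I : (y : ℕ) → Env × Finset ℕ → ℕ → Px (Pn (F.L m) y) → ℝ} {KI : ℝ}
    (hI : PasF33 (F.L m) b' KI fun j y ω S => I y ω j S)
    (hN : ∀ j ∈ Rw (F.R m) (i * 2 ^ q) ((i + 1) * 2 ^ q), j + b' ≤ F.L m)
    (hK : ((Rw (F.R m) (i * 2 ^ q) ((i + 1) * 2 ^ q)).card : ℝ) * KI = K)
    {g A T e : ℝ} (h : PrB μ s F m q i l b' K (fun y ω j S => |I y ω j S|) g A T e) :
    RowB μ s F m q i l (4 * b') g A T e I := by
  obtain ⟨Bl, b1, b2, b3, b4, b5⟩ := h
  refine ⟨Bl, b1, b2, b3, b4, fun k => ?_⟩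
  have hP := psH_yf hI hN hl k
  rw [hK] at hP
  have h1 := b5 k _ hP
  refine le_trans (sum_le_sum fun j hj => ?_) h1
  have hbj : BM (F.ys m) fun y ω S => I y ω j S := ⟨⟨KI, fun y _ ω S => hI.bdd j y ω S⟩, fun y _ S => hI.mes j y S⟩
  have hbs : BM (F.ys m) fun y ω S => YF F m q i l (4 * b') k I y ω S :=
    BM.sum _ fun j _ => ⟨⟨KI, fun y _ ω S => hI.bdd j y ω S⟩, fun y _ S => hI.mes j y S⟩
  refine avF_mono hX (hbj.mul hbs) (hbj.abs.mul (hP.bm _)) fun y _ ω S => ?_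
  exact (le_abs_self _).trans (le_of_eq (abs_mul _ _))

end Cl

end

end Pool.Agent.W_7d29a1_C0.PrB5
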