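import Pool.Agent.W_7d29a1_C0.DT5S
import Pool.Agent.W_7d29a1_C0.PrB5

/-!
MP_7d29a1_pr, [CURV0], leaf E5.4 (helper5): THE SITE PRICE AT THE CONCRETE FRAME, in the common form `PrB`: `tkR` = the robust event or the
mass of a path as a real indicator; `prB_S1`: micro tie given the window of radius `b` (any window of length `l₀` inside of the half
window) times own tie given the window of radius `b'` (window at the end of `[j - b, j + b)`), all levels at most `n ^ κ'`.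
-/

set_option autoImplicit false

namespace Pool.Agent.W_7d29a1_C0.DT5

open Finset MeasureTheory Filter Topology
open Pool.Agent.W_7d29a1_F Pool.Agent.W_7d29a1_X
open Pool.Agent.W_7d29a1_H (EE EE_pos one_le_EE sl)
open Pool.Agent.W_7d29a1_HS (In wd)
open Pool.Agent.W_7d29a1_HZ (wd' EE')
open Pool.Agent.W_7d29a1_C0 Pool.Agent.W_7d29a1_C0.Mod92 Pool.Agent.W_7d29a1_C0.Asm96 Pool.Agent.W_7d29a1_C0.N38
open Pool.Agent.W_7d29a1_C0.Frm33 Pool.Agent.W_7d29a1_C0.Sz23 Pool.Agent.W_7d29a1_C0.NTop23 Pool.Agent.W_7d29a1_C0.PrB5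
open Pool.Agent.W_7d29a1_C0.Base5
open Pool.Agent.W_7d29a1_C0.Strip80 (OffD)
open Pool.Agent.W_7d29a1_C0.Own80 (TK ind_and80 ind_mono80)
open Pool.Agent.W_7d29a1_C0.P86 (TauS NoMeet mc mI_mc Q1 ind ind_of ind_not ind_le)
open Pool.Agent.W_7d29a1_C0.P3 (Hy)
open Pool.Agent.W_7d29a1_C0.Wp23 (WPs wps_av)
open Pool.Agent.W_7d29a1_C0.Swap57 (NI cE2)
open Pool.W7d29a1.C0.R43 (Tau mI)
open Pool.W7d29a1.C0.VT31 (cE)
open Pool.W7d29a1.C0.S1 (i1 i1_nonneg i1_of i1_not)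
open Pool.W7d29a1.C0 (gm)
open scoped ENNReal

noncomputable section

variable {μ : Measure ℝ} {s : ℝ}

/-- The robust event (`T`) or the mass, of level `M`, as a real number. -/
def tkR {Q : Finset (Finset ℕ)} (T : Prop) (w : Px Q → ℝ) (c d u v : ℕ) (M : ℝ) (S : Px Q) : ℝ :=
  i1 ((T ∧ Tau w (pJ c d) u v M S) ∨ (¬ T ∧ Real.exp (-(5 * M)) ≤ mI w (pJ c d) u v S))

section Tk

variable {Q : Finset (Finset ℕ)} {T : Prop} {w : Px Q → ℝ} {c d u v : ℕ} {M : ℝ} {S : Px Q}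

theorem tkR_nonneg : 0 ≤ tkR T w c d u v M S := i1_nonneg _

theorem tkR_le_one : tkR T w c d u v M S ≤ 1 := by
  unfold tkR i1
  split_ifs <;> norm_num

theorem tkR_tau (h : T) : tkR T w c d u v M S = i1 (Tau w (pJ c d) u v M S) := by
  unfold tkR
  congr 1
  exact propext ⟨fun g => g.elim (fun g => g.2) fun g => absurd h g.1, fun g => Or.inl ⟨h, g⟩⟩

theorem tkR_mass (h : ¬ T) : tkR T w c d u v M S = i1 (Real.exp (-(5 * M)) ≤ mI w (pJ c d) u v S) := by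
  unfold tkR
  congr 1
  exact propext ⟨fun g => g.elim (fun g => absurd g.1 h) fun g => g.2, fun g => Or.inr ⟨h, g⟩⟩

theorem meas_tkR {N y : ℕ} {T : Prop} {c d u v : ℕ} {M : ℝ} (S : Px (Pn N y)) :
    Measurable fun ω : Env × Finset ℕ => tkR T (wm μ s N (Pn N y) ω) c d u v M S := by
  have : Nonempty (Px (Pn N y)) := ⟨S⟩
  by_cases hT : T
  · simp only [tkR_tau hT]
    unfold i1
    refine Measurable.ite ?_ measurable_const measurable_const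
    exact measurableSet_le measurable_const (meas_cE (w := fun ω => wm μ s N (Pn N y) ω)
      (f := fun ω z => cE (wm μ s N (Pn N y) ω) (pJ c d) (NI u v z) S) meas_wm
      (fun z => meas_cE (w := fun ω => wm μ s N (Pn N y) ω) (f := fun _ => NI u v z) meas_wm (fun _ => measurable_const) _ _) _ _)
  · simp only [tkR_mass hT]
    unfold i1
    refine Measurable.ite ?_ measurable_const measurable_const
    exact measurableSet_le measurable_const (meas_cE (w := fun ω => wm μ s N (Pn N y) ω) (f := fun _ => NI u v S) meas_wm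
      (fun _ => measurable_const) _ _)

/-- From the real indicator to the event of helper80. -/
theorem tkR_ind {N y : ℕ} {T : Prop} {c d u v : ℕ} {M M' : ℝ} (hM : 0 < M) (hMM : M' ≤ M) (ω : Env × Finset ℕ) (S : Px (Pn N y)) :
    ENNReal.ofReal (tkR T (wm μ s N (Pn N y) ω) c d u v M' S) ≤ ind (TK μ s N T y c d u v M ω.1 S.1) := by
  have hlev : Real.exp (-(5 * M)) ≤ Real.exp (-(5 * M')) := Real.exp_le_exp.2 (by linarith)
  unfold tkR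
  by_cases g : (T ∧ Tau (wm μ s N (Pn N y) ω) (pJ c d) u v M' S) ∨ (¬ T ∧ Real.exp (-(5 * M')) ≤ mI (wm μ s N (Pn N y) ω) (pJ c d) u v S)
  · rw [i1_of g, ENNReal.ofReal_one, ind_of]
    rcases g with g | g
    · refine Or.inl ⟨g.1, S.2, ?_⟩
      have := g.2
      unfold Tau at this ⊢
      exact hlev.trans this
    · refine Or.inr ⟨g.1, ?_⟩
      unfold Hy
      rw [← mI_mc ω.1 S.2]
      refine lt_of_lt_of_le (Real.exp_lt_exp.2 (by linarith)) (hlev.trans g.2)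
  · rw [i1_not g, ENNReal.ofReal_zero]
    exact zero_le

end Tk

variable [IsProbabilityMeasure μ] {c₀ C₀ : ℝ} {n₀ : ℕ} {K : ℕ}

/-- **THE SITE PRICE AT THE FRAME.** -/
theorem prB_S1 (h : In μ s c₀ C₀ n₀) (hK : 32 ≤ K) {δ ε : ℝ} (hδ : 0 < δ) (hε : 0 < ε) : ∃ κ : ℝ, 0 < κ ∧
    ∀ κ' : ℝ, 0 < κ' → κ' ≤ κ → ∃ c₂ : ℝ, 0 < c₂ ∧ ∀ ι β γ : ℝ, ∀ᶠ m : ℕ in atTop, ∀ p p' q i : ℕ, δ * m ≤ p → p < p' →
      (∀ j ∈ Rw (R33 ι m) (i * 2 ^ q) ((i + 1) * 2 ^ q), 2 * 2 ^ p' ≤ j ∧ j + 2 ^ p' ≤ L33 K m) →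
      ∀ l₀ : ℕ, ((2 ^ m : ℕ) : ℝ) ^ (δ / 2) ≤ l₀ → l₀ ≤ 2 ^ p →
      ∀ u v : ℕ → ℕ, (∀ j ∈ Rw (R33 ι m) (i * 2 ^ q) ((i + 1) * 2 ^ q), j ≤ u j + 2 ^ p / 2 ∧ v j ≤ j + 2 ^ p / 2 ∧ u j + l₀ ≤ v j) →
      ∀ a e : ℕ → ℕ, ((∀ j ∈ Rw (R33 ι m) (i * 2 ^ q) ((i + 1) * 2 ^ q), e j = j + 2 ^ p ∧ a j + 2 ^ p / 4 ≤ j + 2 ^ p) ∨
        (∀ j ∈ Rw (R33 ι m) (i * 2 ^ q) ((i + 1) * 2 ^ q), a j = j - 2 ^ p ∧ j + 2 ^ p / 4 ≤ e j + 2 ^ p)) →
      ∀ (Tm To : Prop) (M : ℝ), M ≤ ((2 ^ m : ℕ) : ℝ) ^ κ' → ∀ K₀ : ℝ, 0 ≤ K₀ →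
      PrB μ s (frm33 μ s K ι β γ) m q i (2 ^ (p' - 6)) (2 ^ p') K₀
        (fun y ω j S => tkR Tm (wm μ s (L33 K m) (Pn (L33 K m) y) ω) (j - 2 ^ p) (j + 2 ^ p) (u j) (v j) M S *
          tkR To (wm μ s (L33 K m) (Pn (L33 K m) y) ω) (j - 2 ^ p') (j + 2 ^ p') (a j) (e j) M S)
        (((2 ^ m : ℕ) : ℝ) ^ ε * ((EE μ s l₀)⁻¹ * (EE μ s (2 ^ p))⁻¹)) 0 0 ((K₀ + 1) * Real.exp (-(((2 ^ m : ℕ) : ℝ) ^ c₂))) := by
  have hK0 : (0 : ℝ) < K := by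
    have : (32 : ℝ) ≤ K := by exact_mod_cast hK
    linarith
  have hK1 : (1 : ℝ) ≤ K := by
    have : (32 : ℝ) ≤ K := by exact_mod_cast hK
    linarith
  obtain ⟨δ₁, κ, c₂, hδ₁, hκ, hc₂, N₀, hP⟩ := s1_wps (μ := μ) (s := s) h (ε / K) (δ / 2 / K) (by positivity) (by positivity)
  refine ⟨κ, hκ, fun κ' hκ' hκκ => ⟨min c₂ κ' / 2, by positivity, fun ι β γ => ?_⟩⟩
  have hmin : 0 < min c₂ κ' := lt_min hc₂ hκ'
  filter_upwards [cone33 h hK hδ₁, ev_L (by omega : 1 ≤ K) N₀, ev_n hκ' 8, ev_n (show 0 < δ by positivity) 64,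
    ev_n (show 0 < min c₂ κ' / 2 by positivity) 2, ev_exp (show 0 < min c₂ κ' / 2 by positivity) (3 * K + 1),
    ev_n (one_pos : (0 : ℝ) < 1) 10, eventually_gt_atTop 0] with m h1 h2 h3 h4 h5 h6 h7 h8
  intro p p' q i hp hpp hrows l₀ hl₀ hl₀p u v huv a e hside Tm To M hM K₀ hK₀
  obtain ⟨n, hn⟩ : ∃ n : ℝ, n = ((2 ^ m : ℕ) : ℝ) := ⟨_, rfl⟩
  have hn1 : 1 ≤ n := hn ▸ n_ge1 m
  have hn0 : 0 < n := lt_of_lt_of_le one_pos hn1
  have hbn := two_ge hp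
  have eL1 : ((L33 K m : ℕ) : ℝ) ^ (δ / 2 / K) = n ^ (δ / 2) := by
    rw [L33_pow, ← hn]
    congr 1
    field_simp
  have eL2 : ((L33 K m : ℕ) : ℝ) ^ (ε / K) = n ^ ε := by
    rw [L33_pow, ← hn]
    congr 1
    field_simp
  have eL3 : n ^ κ' ≤ ((L33 K m : ℕ) : ℝ) ^ κ := by
    rw [L33_pow, ← hn]
    exact Real.rpow_le_rpow_of_exponent_le hn1 (hκκ.trans (le_mul_of_one_le_left hκ.le hK1))
  have eL4 : n ^ (min c₂ κ') ≤ ((L33 K m : ℕ) : ℝ) ^ c₂ := by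
    rw [L33_pow, ← hn]
    exact Real.rpow_le_rpow_of_exponent_le hn1 ((min_le_left _ _).trans (le_mul_of_one_le_left hc₂.le hK1))
  have eL5 : ((L33 K m : ℕ) : ℝ) ^ 3 = n ^ (3 * K : ℝ) := by
    have e1 : ((L33 K m : ℕ) : ℝ) ^ (3 : ℝ) = n ^ (K * 3 : ℝ) := by rw [L33_pow, ← hn]
    have e2 : ((L33 K m : ℕ) : ℝ) ^ (3 : ℝ) = ((L33 K m : ℕ) : ℝ) ^ 3 := by
      rw [← Real.rpow_natCast]
      norm_num
    rw [← e2, e1]
    congr 1
    ring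
  rw [← hn] at h3 h4 h5 h6 h7 hbn hl₀ hM ⊢
  -- the numbers
  have h64 : 64 ≤ 2 ^ p := by
    have : (64 : ℝ) ≤ ((2 ^ p : ℕ) : ℝ) := h4.trans hbn
    exact_mod_cast this
  have hp6 : 6 ≤ p := by
    by_contra hlt
    push Not at hlt
    have : 2 ^ p ≤ 2 ^ 5 := Nat.pow_le_pow_right two_pos (by omega)
    omega
  have hb2 : 2 * 2 ^ p ≤ 2 ^ p' := by
    calc 2 * 2 ^ p = 2 ^ (p + 1) := by rw [pow_succ]; ring
      _ ≤ 2 ^ p' := Nat.pow_le_pow_right two_pos (by omega)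
  have hst : 2 ^ p / 64 ≤ 2 ^ (p' - 6) := by
    have e1 : 2 ^ p = 2 ^ (p - 6) * 64 := by
      rw [show (64 : ℕ) = 2 ^ 6 by norm_num, ← pow_add]
      congr 1
      omega
    rw [e1, Nat.mul_div_cancel _ (by norm_num)]
    exact Nat.pow_le_pow_right two_pos (by omega)
  have hlpos : 0 < 2 ^ (p' - 6) := by positivity
  have hbL : n ^ (δ / 2) ≤ ((2 ^ p : ℕ) : ℝ) := (Real.rpow_le_rpow_of_exponent_le hn1 (by linarith)).trans hbn
  have hM8 : (8 : ℝ) ≤ n ^ κ' := h3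
  have herr : ((L33 K m : ℕ) : ℝ) ^ 3 * (2 * Real.exp (-((L33 K m : ℕ) : ℝ) ^ c₂) + 8 * Real.exp (-n ^ κ')) ≤
      Real.exp (-(n ^ (min c₂ κ' / 2))) := by
    obtain ⟨x, hx⟩ : ∃ x, x = min c₂ κ' := ⟨_, rfl⟩
    rw [← hx] at eL4 h5 h6 hmin ⊢
    have f0 : n ^ (x / 2) * n ^ (x / 2) = n ^ x := by
      rw [← Real.rpow_add hn0]
      congr 1
      ring
    have f1 : Real.exp (-((L33 K m : ℕ) : ℝ) ^ c₂) ≤ Real.exp (-(n ^ x)) := Real.exp_le_exp.2 (by linarith)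
    have f2 : Real.exp (-n ^ κ') ≤ Real.exp (-(n ^ x)) := Real.exp_le_exp.2 (by
      have := Real.rpow_le_rpow_of_exponent_le hn1 (hx ▸ min_le_right c₂ κ' : x ≤ κ')
      linarith)
    have f3 : Real.exp (-(n ^ x)) ≤ Real.exp (-(n ^ (x / 2))) * Real.exp (-(n ^ (x / 2))) := by
      rw [← Real.exp_add]
      refine Real.exp_le_exp.2 ?_
      have g1 : 2 * n ^ (x / 2) ≤ n ^ (x / 2) * n ^ (x / 2) := mul_le_mul_of_nonneg_right h5 (Real.rpow_nonneg hn0.le _)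
      linarith
    have f4 : n ^ (3 * K : ℝ) * (10 * Real.exp (-(n ^ (x / 2)))) ≤ 1 := by
      calc n ^ (3 * K : ℝ) * (10 * Real.exp (-(n ^ (x / 2)))) ≤ n ^ (3 * K : ℝ) * (n ^ (1 : ℝ) * n ^ (-(3 * K + 1 : ℝ))) := by gcongr
        _ = 1 := by
            rw [← Real.rpow_add hn0, ← Real.rpow_add hn0]
            rw [show (3 * K : ℝ) + (1 + -(3 * K + 1)) = 0 by ring, Real.rpow_zero]
    rw [eL5]
    calc n ^ (3 * K : ℝ) * (2 * Real.exp (-((L33 K m : ℕ) : ℝ) ^ c₂) + 8 * Real.exp (-n ^ κ'))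
        ≤ n ^ (3 * K : ℝ) * (2 * Real.exp (-(n ^ x)) + 8 * Real.exp (-(n ^ x))) := by gcongr
      _ = n ^ (3 * K : ℝ) * (10 * Real.exp (-(n ^ x))) := by ring
      _ ≤ n ^ (3 * K : ℝ) * (10 * (Real.exp (-(n ^ (x / 2))) * Real.exp (-(n ^ (x / 2))))) := by gcongr
      _ = (n ^ (3 * K : ℝ) * (10 * Real.exp (-(n ^ (x / 2))))) * Real.exp (-(n ^ (x / 2))) := by ring
      _ ≤ 1 * Real.exp (-(n ^ (x / 2))) := mul_le_mul_of_nonneg_right f4 (Real.exp_pos _).le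
      _ = _ := one_mul _
  have hys : ∀ y ∈ ys33 μ s K m, y ≤ L33 K m ∧ |(y : ℝ) - sl μ s * L33 K m| ≤ (L33 K m : ℝ) ^ δ₁ * wd' μ s (L33 K m) := fun y hy => by
    have hy2 := mem_Ico.1 (show y ∈ Ico (y33 μ s K m) (y33 μ s K m + M33 m) from hy)
    exact h1.2.2 y (by omega) (by omega)
  have hE0 : ∀ t, 0 < EE μ s t := fun t => EE_pos t
  have hne : ∀ y ∈ (frm33 μ s K ι β γ).ys m, Nonempty (Px (Pn ((frm33 μ s K ι β γ).L m) y)) := fun y hy => ne_Pn (hys y hy).1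
  refine ⟨fun _ _ _ _ => 0, fun _ => BM.zero, fun _ _ _ _ _ => le_rfl, ?_, fun k => ?_, fun k H hH => ?_⟩
  · refine le_of_eq ?_
    unfold avF av
    simp [gm]
  · refine le_of_eq ?_
    unfold avF av
    simp [gm]
  have hzero : avF μ s (frm33 μ s K ι β γ) m (fun y ω S => (0 : ℝ) * H y ω S) = 0 := by
    unfold avF av
    simp [gm]
  rw [hzero, add_zero]
  have hrw : ∀ j ∈ rws (frm33 μ s K ι β γ) m q i (2 ^ (p' - 6)) k, k * 2 ^ (p' - 6) ≤ j ∧ j < (k + 1) * 2 ^ (p' - 6) ∧ 2 * 2 ^ p' ≤ j ∧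
      j + 2 ^ p' ≤ L33 K m := fun j hj => by
    obtain ⟨g1, g2⟩ := mem_filter.1 hj
    obtain ⟨g3, g4⟩ := PsH.rows hlpos g2
    exact ⟨g3, g4, hrows j g1⟩
  have hkl : (k + 1) * 2 ^ (p' - 6) - k * 2 ^ (p' - 6) = 2 ^ (p' - 6) := by
    rw [add_mul, one_mul]
    omega
  have key := wps_av (μ := μ) (s := s) (N := L33 K m) (ys := ys33 μ s K m) (fun y hy => (hys y hy).1)
    (r := n ^ ε * (((2 ^ (p' - 6) : ℕ) : ℝ) * ((EE μ s l₀)⁻¹ * (EE μ s (2 ^ p))⁻¹)))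
    (p := Real.exp (-(n ^ (min c₂ κ' / 2)))) (mul_nonneg (Real.rpow_nonneg hn0.le _) (mul_nonneg (Nat.cast_nonneg _)
      (mul_nonneg (inv_pos.2 (hE0 _)).le (inv_pos.2 (hE0 _)).le))) (Real.exp_pos _).le
    (I := rws (frm33 μ s K ι β γ) m q i (2 ^ (p' - 6)) k)
    (A := fun y _ j η S => ind (TK μ s (L33 K m) Tm y (j - 2 ^ p) (j + 2 ^ p) (u j) (v j) (n ^ κ') η S ∧
      TK μ s (L33 K m) To y (j - 2 ^ p') (j + 2 ^ p') (a j) (e j) (n ^ κ') η S))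
    (J := Ioc (k * 2 ^ (p' - 6) - 3 * 2 ^ p') ((k + 1) * 2 ^ (p' - 6) + 3 * 2 ^ p')) (fun y hy T _ => ?_)
    (a := fun j y ω S => tkR Tm (wm μ s (L33 K m) (Pn (L33 K m) y) ω) (j - 2 ^ p) (j + 2 ^ p) (u j) (v j) M S *
          tkR To (wm μ s (L33 K m) (Pn (L33 K m) y) ω) (j - 2 ^ p') (j + 2 ^ p') (a j) (e j) M S)
    (fun j _ y _ ω S => mul_nonneg tkR_nonneg tkR_nonneg) (K := 1)
    (fun j _ y _ ω S => mul_le_one₀ tkR_le_one tkR_nonneg tkR_le_one)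
    (fun j _ y _ S => (meas_tkR S).mul (meas_tkR S)) (fun j _ y _ ω S => ?_) (D := H) (M := K₀ + 1) (by linarith)
    (fun y _ ω S => (hH.abs_le y ω S).trans (by linarith)) (fun y _ S => hH.mes y S) (fun y _ => hH.off y _ fun t ht => mem_Ioc.1 ht)
  · have e1 : ∀ j ∈ rws (frm33 μ s K ι β γ) m q i (2 ^ (p' - 6)) k,
        avF μ s (frm33 μ s K ι β γ) m (fun y ω S => tkR Tm (wm μ s (L33 K m) (Pn (L33 K m) y) ω) (j - 2 ^ p) (j + 2 ^ p) (u j) (v j) M S *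
          tkR To (wm μ s (L33 K m) (Pn (L33 K m) y) ω) (j - 2 ^ p') (j + 2 ^ p') (a j) (e j) M S * H y ω S) =
        av (ys33 μ s K m) (Pm μ (L33 K m)) (fun y => wm μ s (L33 K m) (Pn (L33 K m) y)) (fun y ω S => |H y ω S| *
          (tkR Tm (wm μ s (L33 K m) (Pn (L33 K m) y) ω) (j - 2 ^ p) (j + 2 ^ p) (u j) (v j) M S *
          tkR To (wm μ s (L33 K m) (Pn (L33 K m) y) ω) (j - 2 ^ p') (j + 2 ^ p') (a j) (e j) M S)) := fun j _ => by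
      unfold avF
      congr 1
      funext y ω S
      rw [abs_of_nonneg (hH.nn y ω S), mul_comm]
    have e2 : av (ys33 μ s K m) (Pm μ (L33 K m)) (fun y => wm μ s (L33 K m) (Pn (L33 K m) y)) (fun y ω S => |H y ω S|) =
        avF μ s (frm33 μ s K ι β γ) m H := by
      unfold avF
      congr 1
      funext y ω S
      exact abs_of_nonneg (hH.nn y ω S)
    rw [sum_congr rfl e1]
    refine key.trans (le_of_eq ?_)
    rw [e2]
    push_cast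
    ring
  · obtain ⟨hyL, hyc⟩ := hys y hy
    have g1 := hP (L33 K m) h2 (L33 K m) (by omega) le_rfl y hyL hyc (n ^ κ') h3 eL3 (2 ^ p) l₀ (2 ^ p') (k * 2 ^ (p' - 6))
      ((k + 1) * 2 ^ (p' - 6)) (by rw [eL1]; exact hbL) (by rw [eL1]; exact hl₀) hl₀p hb2 (by rw [hkl]; exact hst)
      (rws (frm33 μ s K ι β γ) m q i (2 ^ (p' - 6)) k) hrw u v (fun j hj => huv j (mem_filter.1 hj).1) a e (by
        rcases hside with g | g
        · exact Or.inl fun j hj => g j (mem_filter.1 hj).1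
        · exact Or.inr fun j hj => g j (mem_filter.1 hj).1) Tm To
    rw [eL2, hkl] at g1
    refine g1.mono (ENNReal.ofReal_le_ofReal (le_of_eq ?_)) (ENNReal.ofReal_le_ofReal herr) (fun j _ η S _ _ => le_rfl) (subset_refl _)
    rw [EE'_eq46, EE'_eq46]
  · rw [ind_and80, ENNReal.ofReal_mul tkR_nonneg]
    exact mul_le_mul' (tkR_ind (by linarith) hM ω S) (tkR_ind (by linarith) hM ω S)

end

end Pool.Agent.W_7d29a1_C0.DT5
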