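import Pool.Agent.W_7d29a1_C0.N25b
import Pool.Agent.W_7d29a1_C0.Bd73B

/-!
MP_7d29a1_pr, [CURV0], leaf E5.4 (helper5), part 3: THE DOUBLE TIES OF THE MODEL. `row_N25e`: `row_N2` for `N25e`; `mic_le`: the micro tie
(oscillation of the kick given the ends of the window) as a near tie at the row (both sides), off the paths which leave the cone;
`sites_N25e`: everything in terms of the masses of the paths which do not meet.
-/

set_option autoImplicit false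
set_option linter.unusedSectionVars false

namespace Pool.Agent.W_7d29a1_C0.N25

open Finset MeasureTheory Pool.Agent.W_7d29a1_F Pool.Agent.W_7d29a1_X Pool.Agent.W_7d29a1_H
open Pool.Agent.W_7d29a1_C0.Swap57 Pool.Agent.W_7d29a1_C0 Pool.Agent.W_7d29a1_C0.Mod92
open Pool.W7d29a1.C0 Pool.W7d29a1.C0.VT31 Pool.W7d29a1.C0.R43 Pool.W7d29a1.C0.S1 Pool.W7d29a1.C0.K1
open Pool.Agent.W_7d29a1_C0.Base5 Pool.Agent.W_7d29a1_C0.Sz23

noncomputable section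

variable {μ : Measure ℝ} {s : ℝ} {N : ℕ} {Q : Finset (Finset ℕ)} [SwQ Q] [Nonempty (Px Q)] {δ B : ℝ} {b0 b b' : ℕ}

theorem sr_or (A : Finset ℕ) (j : ℕ) : sr A j = 1 ∨ sr A j = -1 := by
  unfold sr
  rcases sg_or A j with h | h <;> rw [h] <;> norm_num

/-- The weights with the kick of the row `j` flipped (clipped flip). -/
def vm (μ : Measure ℝ) (s : ℝ) (N : ℕ) (Q : Finset (Finset ℕ)) (δ B : ℝ) (b0 : ℕ) (ω : Env × Finset ℕ) (j : ℕ) : Px Q → ℝ :=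
  wm μ s N Q ω - (2 * sr ω.2 j) • Mod92.gg μ s Q δ B b0 ω j

/-- The double tie of the row `j`. -/
def Gj (μ : Measure ℝ) (s : ℝ) (N : ℕ) (Q : Finset (Finset ℕ)) (δ B : ℝ) (b0 b b' : ℕ) (m : ℝ) (ω : Env × Finset ℕ) (j : ℕ) : Px Q → ℝ :=
  Gt (wm μ s N Q ω) (pW b' j) (j - b) (j - b0) (j + b0) (j + b) (Mod92.gg μ s Q δ B b0 ω j) m

/-- The own mass of the path, given the ends of `[j - b', j + b')`. -/
def owj (μ : Measure ℝ) (s : ℝ) (N : ℕ) (Q : Finset (Finset ℕ)) (b0 b b' : ℕ) (ω : Env × Finset ℕ) (j : ℕ) : Px Q → ℝ :=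
  ow (wm μ s N Q ω) (pW b' j) (j - b) (j - b0) (j + b0) (j + b)

/-- **THE DOUBLE TIES OF THE MODEL INSIDE THE GIBBS MEAN.** -/
theorem row_N25e (hB : 1 ≤ B) (hb : b ≤ b') (ω : Env × Finset ℕ) (j : ℕ) (m : ℝ) {t : ℝ} (ht : 0 ≤ t) {H : Px Q → ℝ}
    (hH : Mp (pW b' j) H) (hH0 : ∀ x, 0 ≤ H x) :
    gm (wm μ s N Q ω) (fun x => H x * |N25e μ s N Q δ B b0 b b' ω j x|) ≤
      4 * B ^ 3 * (Real.exp (2 * t) * (gm (wm μ s N Q ω) (fun x => H x * Gj μ s N Q δ B b0 b b' m ω j x) +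
        (gm (vm μ s N Q δ B b0 ω j) (fun x => H x * Gj μ s N Q δ B b0 b b' m ω j x) +
        gm (wm μ s N Q ω) (fun x => H x * (cE (vm μ s N Q δ B b0 ω j) (pW b' j) (Gj μ s N Q δ B b0 b b' m ω j) x *
          gm (vm μ s N Q δ B b0 ω j) (NM (j - b') (j - b0) (j + b0) (j + b') x))))) +
        gm (wm μ s N Q ω) (fun x => H x * min 1 (Real.exp (5 * m + 12 * B) *
          O1.T4 (wm μ s N Q ω) (pW b' j) (Mod92.gg μ s Q δ B b0 ω j) t (owj μ s N Q b0 b b' ω j) x))) +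
      16 * B ^ 3 * Real.exp (16 * B) * Real.exp (-(5 * m)) * gm (wm μ s N Q ω) H := by
  have hB0 : 0 ≤ B := by linarith
  have h := row_N2 (Q := Q) (c := j - b) (al := j - b0) (be := j + b0) (d := j + b) (c' := j - b') (d' := j + b')
    (w := w5 μ s N Q δ B b0 ω j) (g := Mod92.gg μ s Q δ B b0 ω j) (M := B) (τ := sr ω.2 j) (by omega) (wk5 δ B ω j _ _)
    (wk5 δ B ω j _ _) (Lk_gg δ B b0 j ω le_rfl le_rfl) hB (fun S => (abs_gg hB0 b0 ω j S).trans (by linarith)) (sr_or _ _)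
    (by omega) (by omega) m (γ := ge5 μ s N Q δ B b0 b ω j) (fun S => (abs_ge5 hB0 b0 b ω j S).trans (by linarith)) ht hH hH0
  rw [w5_back] at h
  have e : (fun x => H x * (cE (vm μ s N Q δ B b0 ω j) (pW b' j) (Gj μ s N Q δ B b0 b b' m ω j) x *
          gm (vm μ s N Q δ B b0 ω j) (NM (j - b') (j - b0) (j + b0) (j + b') x))) =
      fun x => H x * cE (vm μ s N Q δ B b0 ω j) (pW b' j) (Gj μ s N Q δ B b0 b b' m ω j) x *
          gm (vm μ s N Q δ B b0 ω j) (NM (j - b') (j - b0) (j + b0) (j + b') x) := by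
    funext x
    ring
  rw [e]
  exact h

/-! ### The micro tie -/

open Pool.Agent.W_7d29a1_C0.Blk18 (Full)
open Pool.Agent.W_7d29a1_C0.GwA50 (GwW)
open Pool.W7d29a1.C0.Bd73 (nCn nCn_nonneg gj_dif)

/-- **The micro tie** is a near tie at the row, on one of the two sides, or the window leaves the cone. -/
theorem mic_le {κ δ₁ ε c₁ : ℝ} {ω : Env × Finset ℕ} (hη : GwW μ s N κ δ δ₁ ε c₁ ω.1) (hQ : Full N Q) {j : ℕ} (hj : j + b0 ≤ N)
    (h1 : (N : ℝ) ^ κ ≤ ((j - (j - b0) : ℕ) : ℝ)) (h2 : (N : ℝ) ^ κ ≤ b0) (hB : 0 ≤ B) {q : Px Q → Finset ℕ × ℕ}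
    (hc : Crs q (pJ (j - b0) (j + b0))) {m m4 ρ : ℝ}
    (hn : Real.exp ((N : ℝ) ^ ε) * (2 * Real.exp (-(5 * m4))) + Real.exp (-(N : ℝ) ^ c₁) + 2 * B * ρ ≤ Real.exp (-(5 * m))) (z : Px Q) :
    i1 (Real.exp (-(5 * m)) ≤ osc (wm μ s N Q ω) q (Mod92.gg μ s Q δ B b0 ω j) z) ≤
      i1 (Tau (wm μ s N Q ω) q (j - b0) j m4 z) + i1 (Tau (wm μ s N Q ω) q j (j + b0) m4 z) +
        i1 (ρ ≤ cE (wm μ s N Q ω) q (nCn μ s δ₁ (j - b0) (j + b0)) z) := by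
  have p1 := i1_nonneg (Tau (wm μ s N Q ω) q (j - b0) j m4 z)
  have p2 := i1_nonneg (Tau (wm μ s N Q ω) q j (j + b0) m4 z)
  have p3 := i1_nonneg (ρ ≤ cE (wm μ s N Q ω) q (nCn μ s δ₁ (j - b0) (j + b0)) z)
  by_cases a1 : Tau (wm μ s N Q ω) q (j - b0) j m4 z
  · rw [i1_of a1]
    linarith [N25.i1_le_one (Real.exp (-(5 * m)) ≤ osc (wm μ s N Q ω) q (Mod92.gg μ s Q δ B b0 ω j) z)]
  by_cases a2 : Tau (wm μ s N Q ω) q j (j + b0) m4 z
  · rw [i1_of a2]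
    linarith [N25.i1_le_one (Real.exp (-(5 * m)) ≤ osc (wm μ s N Q ω) q (Mod92.gg μ s Q δ B b0 ω j) z)]
  by_cases a3 : ρ ≤ cE (wm μ s N Q ω) q (nCn μ s δ₁ (j - b0) (j + b0)) z
  · rw [i1_of a3]
    linarith [N25.i1_le_one (Real.exp (-(5 * m)) ≤ osc (wm μ s N Q ω) q (Mod92.gg μ s Q δ B b0 ω j) z)]
  unfold Tau at a1 a2
  push Not at a1 a2 a3
  have hgd := gj_dif hη hQ hj h1 h2 hB (sg_or ω.2 j)
  set K := Real.exp ((N : ℝ) ^ ε) with hK
  have K0 : 0 < K := Real.exp_pos _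
  have h3 : osc (wm μ s N Q ω) q (Mod92.gg μ s Q δ B b0 ω j) z ≤ K * cE2 (wm μ s N Q ω) q (NM (j - b0) j j (j + b0)) z z +
      Real.exp (-(N : ℝ) ^ c₁) + 2 * B * cE (wm μ s N Q ω) q (nCn μ s δ₁ (j - b0) (j + b0)) z := by
    have k1 := cE2_mono (wm μ s N Q ω) q (K := fun z z' => |Mod92.gg μ s Q δ B b0 ω j z - Mod92.gg μ s Q δ B b0 ω j z'|)
      (K' := fun z z' => (K * cE2 (wm μ s N Q ω) (pJ (j - b0) (j + b0)) (NM (j - b0) j j (j + b0)) z z' + Real.exp (-(N : ℝ) ^ c₁)) +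
        (B * nCn μ s δ₁ (j - b0) (j + b0) z + B * nCn μ s δ₁ (j - b0) (j + b0) z')) (fun z z' => by
          refine (hgd z z').trans (le_of_eq ?_)
          show K * cE2 (lw μ s ω.1 N Q) (pJ (j - b0) (j + b0)) (NM (j - b0) j j (j + b0)) z z' + Real.exp (-(N : ℝ) ^ c₁) + _ = _
          rw [mul_add]
          rfl) z z
    have k2 := cE2_add (wm μ s N Q ω) q (fun z z' => K * cE2 (wm μ s N Q ω) (pJ (j - b0) (j + b0)) (NM (j - b0) j j (j + b0)) z z' +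
      Real.exp (-(N : ℝ) ^ c₁)) (fun z z' => B * nCn μ s δ₁ (j - b0) (j + b0) z + B * nCn μ s δ₁ (j - b0) (j + b0) z') z z
    have k3 := cE2_add (wm μ s N Q ω) q (fun z z' => K * cE2 (wm μ s N Q ω) (pJ (j - b0) (j + b0)) (NM (j - b0) j j (j + b0)) z z')
      (fun _ _ => Real.exp (-(N : ℝ) ^ c₁)) z z
    have k4 := cE2_add (wm μ s N Q ω) q (fun z _ => B * nCn μ s δ₁ (j - b0) (j + b0) z) (fun _ z' => B * nCn μ s δ₁ (j - b0) (j + b0) z') z z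
    have k5 := cE2_mul (wm μ s N Q ω) q K (cE2 (wm μ s N Q ω) (pJ (j - b0) (j + b0)) (NM (j - b0) j j (j + b0))) z z
    have k6 : cE2 (wm μ s N Q ω) q (cE2 (wm μ s N Q ω) (pJ (j - b0) (j + b0)) (NM (j - b0) j j (j + b0))) z z =
        cE2 (wm μ s N Q ω) q (NM (j - b0) j j (j + b0)) z z := cE2_tower (wm μ s N Q ω) hc _ z z
    have k7 : cE2 (wm μ s N Q ω) q (fun _ _ => Real.exp (-(N : ℝ) ^ c₁)) z z = Real.exp (-(N : ℝ) ^ c₁) := by
      unfold cE2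
      rw [cE_fib (F' := fun _ => Real.exp (-(N : ℝ) ^ c₁)) _ _ (fun z' _ => cE_const' _ _ _ _), cE_const']
    have k8 := O1.cE2_left (wm μ s N Q ω) q (fun z => B * nCn μ s δ₁ (j - b0) (j + b0) z) z z
    have k9 := O1.cE2_right (wm μ s N Q ω) q (fun z => B * nCn μ s δ₁ (j - b0) (j + b0) z) z z
    have k10 := cE_mul' (wm μ s N Q ω) q B (nCn μ s δ₁ (j - b0) (j + b0)) z
    unfold osc
    rw [k2, k3, k4, k5, k6, k7, k8, k9] at k1
    beta_reduce at k1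
    rw [k10] at k1
    linarith
  have h4 : cE2 (wm μ s N Q ω) q (NM (j - b0) j j (j + b0)) z z ≤ cE2 (wm μ s N Q ω) q (NI (j - b0) j) z z +
      cE2 (wm μ s N Q ω) q (NI j (j + b0)) z z := cE2_NM_le _ _ _
  have h5 : osc (wm μ s N Q ω) q (Mod92.gg μ s Q δ B b0 ω j) z < Real.exp (-(5 * m)) := by
    have h6 : K * cE2 (wm μ s N Q ω) q (NM (j - b0) j j (j + b0)) z z < K * (2 * Real.exp (-(5 * m4))) :=
      mul_lt_mul_of_pos_left (by linarith) K0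
    have h7 : 2 * B * cE (wm μ s N Q ω) q (nCn μ s δ₁ (j - b0) (j + b0)) z ≤ 2 * B * ρ :=
      mul_le_mul_of_nonneg_left a3.le (by positivity)
    linarith
  rw [i1_not (not_le.2 h5)]
  linarith

end

end Pool.Agent.W_7d29a1_C0.N25
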