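import Pool.Agent.W_7d29a1_C0.DT5F
import Pool.Agent.W_7d29a1_C0.N25c
import Pool.Agent.W_7d29a1_C0.Bri36

/-!
MP_7d29a1_pr, [CURV0], leaf E5.4 (helper5): THE MICRO TIE IN TERMS OF THE KICK times an own tie, at the concrete frame: `osc_pt` one
environment (the oscillation of the kick given the ends of the window as a near tie at the row, both sides, `mic_le`), `osc_int` in the mean
(off the bad environments), `prB_osc` the price in the common form `PrB`, from the site price `prB_S1`.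
-/

set_option autoImplicit false
set_option linter.unusedSectionVars false

namespace Pool.Agent.W_7d29a1_C0.DT5

open Finset MeasureTheory Filter Topology
open Pool.Agent.W_7d29a1_F Pool.Agent.W_7d29a1_X
open Pool.Agent.W_7d29a1_H (EE EE_pos one_le_EE sl)
open Pool.Agent.W_7d29a1_HS (In wd)
open Pool.Agent.W_7d29a1_HZ (wd' EE')
open Pool.Agent.W_7d29a1_C0 Pool.Agent.W_7d29a1_C0.Mod92 Pool.Agent.W_7d29a1_C0.Asm96 Pool.Agent.W_7d29a1_C0.N38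
open Pool.Agent.W_7d29a1_C0.Frm33 Pool.Agent.W_7d29a1_C0.NTop23 Pool.Agent.W_7d29a1_C0.PrB5
open Pool.Agent.W_7d29a1_C0.Base5
open Pool.Agent.W_7d29a1_C0.Par92 (Est Sml)
open Pool.Agent.W_7d29a1_C0.GwA50 (GwW)
open Pool.Agent.W_7d29a1_C0.N25 (mic_le)
open Pool.W7d29a1.C0.Bd73 (nCn nCn_nonneg)
open Pool.W7d29a1.C0.R43 (Tau mI)
open Pool.W7d29a1.C0.VT31 (cE cE_nonneg gm_cE Crs)
open Pool.W7d29a1.C0.S1 (osc i1 i1_nonneg i1_of i1_not)
open Pool.W7d29a1.C0 (gm gm_mono gm_const gm_nonneg gm_add gm_smul)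

noncomputable section

variable {μ : Measure ℝ} {s : ℝ}

section Tk

variable {Q : Finset (Finset ℕ)} {T : Prop} {w : Px Q → ℝ} {c d u v : ℕ} {M M' : ℝ} {S : Px Q}

/-- A larger level, a larger event. -/
theorem tkR_mono (h : M ≤ M') : tkR T w c d u v M S ≤ tkR T w c d u v M' S := by
  have hl : Real.exp (-(5 * M')) ≤ Real.exp (-(5 * M)) := Real.exp_le_exp.2 (by linarith)
  unfold tkR
  refine N25.i1_mono fun g => g.elim (fun g => Or.inl ⟨g.1, ?_⟩) fun g => Or.inr ⟨g.1, hl.trans g.2⟩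
  have := g.2
  unfold Tau at this ⊢
  exact hl.trans this

end Tk

section Meas

variable {N : ℕ} {Q : Finset (Finset ℕ)} [Nonempty (Px Q)]

/-- The oscillation of the kick is measurable. -/
theorem meas_osc (δ B : ℝ) (b0 j c d : ℕ) (S : Px Q) :
    Measurable fun ω : Env × Finset ℕ => osc (wm μ s N Q ω) (pJ c d) (Mod92.gg μ s Q δ B b0 ω j) S := by
  unfold osc Swap57.cE2
  exact meas_cE (w := fun ω => wm μ s N Q ω) meas_wm (f := fun ω z => cE (wm μ s N Q ω) (pJ c d)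
    (fun z' => |Mod92.gg μ s Q δ B b0 ω j z - Mod92.gg μ s Q δ B b0 ω j z'|) S)
    (fun z => meas_cE (w := fun ω => wm μ s N Q ω) meas_wm (f := fun ω z' => |Mod92.gg μ s Q δ B b0 ω j z - Mod92.gg μ s Q δ B b0 ω j z'|)
      (fun z' => ((meas_gg δ B b0 j z).sub (meas_gg δ B b0 j z')).abs) _ S) _ S

theorem meas_iosc (δ B : ℝ) (b0 j c d : ℕ) (a : ℝ) (S : Px Q) :
    Measurable fun ω : Env × Finset ℕ => i1 (a ≤ osc (wm μ s N Q ω) (pJ c d) (Mod92.gg μ s Q δ B b0 ω j) S) := by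
  classical
  unfold i1
  exact Measurable.ite (measurableSet_le measurable_const (meas_osc δ B b0 j c d S)) measurable_const measurable_const

end Meas

/-- A bound which holds off a rare event of the environment. -/
theorem int_off5 [IsProbabilityMeasure μ] {N : ℕ} {Φ G : Env × Finset ℕ → ℝ} (hΦ : ∀ ω, 0 ≤ Φ ω) (hG0 : ∀ ω, 0 ≤ G ω)
    (hG : Integrable G (Pm μ N)) {K0 T P : ℝ} (hK : 0 ≤ K0) (hT0 : 0 ≤ T) (hP : 0 ≤ P) (hT : ∀ ω, Φ ω ≤ T) {bad : Set Env}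
    (hbad : law μ bad ≤ ENNReal.ofReal P) (h : ∀ ω : Env × Finset ℕ, ω.1 ∉ bad → Φ ω ≤ G ω + K0) :
    ∫ ω, Φ ω ∂(Pm μ N) ≤ ∫ ω, G ω ∂(Pm μ N) + (K0 + T * P) := by
  obtain ⟨E, hE⟩ : ∃ E : Set Env, E = toMeasurable (law μ) bad := ⟨_, rfl⟩
  have mE : MeasurableSet E := by
    rw [hE]
    exact measurableSet_toMeasurable _ _
  obtain ⟨φ, hφ⟩ : ∃ φ : Env → ℝ, φ = Set.indicator E 1 := ⟨_, rfl⟩
  have mφ : Measurable φ := by
    rw [hφ]
    exact measurable_one.indicator mE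
  have φ0 : ∀ η, 0 ≤ φ η := fun η => by
    rw [hφ]
    exact Set.indicator_nonneg (fun _ _ => zero_le_one) η
  have φ1 : ∀ η, φ η ≤ 1 := fun η => by
    rw [hφ]
    exact Set.indicator_le_self' (fun _ _ => zero_le_one) η
  have iφ : Integrable (fun ω : Env × Finset ℕ => φ ω.1) (Pm μ N) := int_bdd (M := 1) (mφ.comp measurable_fst) fun ω => by
    rw [abs_of_nonneg (φ0 _)]
    exact φ1 _
  have hpt : ∀ ω : Env × Finset ℕ, Φ ω ≤ G ω + (K0 + T * φ ω.1) := fun ω => by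
    by_cases hb : ω.1 ∈ E
    · have k1 : φ ω.1 = 1 := by
        rw [hφ]
        exact Set.indicator_of_mem hb _
      rw [k1, mul_one]
      linarith [hT ω, hG0 ω]
    · have hb' : ω.1 ∉ bad := fun h' => hb (by
        rw [hE]
        exact subset_toMeasurable _ _ h')
      have k2 := mul_nonneg hT0 (φ0 ω.1)
      linarith [h ω hb']
  have iK : Integrable (fun ω : Env × Finset ℕ => K0 + T * φ ω.1) (Pm μ N) := (integrable_const K0).add (iφ.const_mul T)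
  have hI := integral_mono_of_nonneg (μ := Pm μ N) (ae_of_all _ hΦ) (hG.add iK) (ae_of_all _ hpt)
  refine hI.trans ?_
  have e1 := integral_add hG iK
  simp only [Pi.add_apply] at e1 ⊢
  rw [e1, integral_add (integrable_const K0) (iφ.const_mul T), integral_const, integral_const_mul,
    Bri36.int_fst (Φ := φ) mφ (M := 1) fun η => by rw [abs_of_nonneg (φ0 _)]; exact φ1 _]
  have e3 : (Pm μ N).real Set.univ = 1 := by rw [measureReal_def, measure_univ, ENNReal.toReal_one]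
  have e4 : ∫ η, φ η ∂(law μ) ≤ P := by
    rw [hφ, integral_indicator_one mE, measureReal_def, hE, measure_toMeasurable]
    exact (ENNReal.toReal_mono ENNReal.ofReal_ne_top hbad).trans (ENNReal.toReal_ofReal hP).le
  rw [e3, one_smul]
  have e5 := mul_le_mul_of_nonneg_left e4 hT0
  linarith

section Pt

variable {N y : ℕ} [Nonempty (Px (Pn N y))] {κ δ δ₁ ε c₁ B m m4 ρ ϑ K₀ : ℝ} {b0 b j : ℕ}

/-- **One environment.** -/
theorem osc_pt {ω : Env × Finset ℕ} (hη : GwW μ s N κ δ δ₁ ε c₁ ω.1) (hj : j + b0 ≤ N) (h1 : (N : ℝ) ^ κ ≤ ((j - (j - b0) : ℕ) : ℝ))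
    (h2 : (N : ℝ) ^ κ ≤ b0) (hB : 0 ≤ B) (hb : b0 ≤ b)
    (hn : Real.exp ((N : ℝ) ^ ε) * (2 * Real.exp (-(5 * m4))) + Real.exp (-(N : ℝ) ^ c₁) + 2 * B * ρ ≤ Real.exp (-(5 * m)))
    (hρ : 0 < ρ) (hϑ : gm (lw μ s ω.1 N (Pn N y)) (nCn μ s δ₁ (j - b0) (j + b0)) ≤ ϑ) {O O' H : Px (Pn N y) → ℝ}
    (hO : ∀ x, 0 ≤ O x) (hOO : ∀ x, O x ≤ O' x) (hO1 : ∀ x, O' x ≤ 1) (hH : ∀ x, 0 ≤ H x) (hK : ∀ x, H x ≤ K₀) :
    gm (wm μ s N (Pn N y) ω) (fun x => i1 (Real.exp (-(5 * m)) ≤ osc (wm μ s N (Pn N y) ω) (pJ (j - b) (j + b))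
        (Mod92.gg μ s (Pn N y) δ B b0 ω j) x) * O x * H x) ≤
      gm (wm μ s N (Pn N y) ω) (fun x => (tkR True (wm μ s N (Pn N y) ω) (j - b) (j + b) (j - b0) j m4 x * O' x +
        tkR True (wm μ s N (Pn N y) ω) (j - b) (j + b) j (j + b0) m4 x * O' x) * H x) + K₀ * (ϑ / ρ) := by
  obtain ⟨W, hW⟩ : ∃ W : Px (Pn N y) → ℝ, W = wm μ s N (Pn N y) ω := ⟨_, rfl⟩
  have hK0 : 0 ≤ K₀ := (hH (Classical.arbitrary _)).trans (hK _)
  have hc : Crs (pJ (Q := Pn N y) (j - b) (j + b)) (pJ (j - b0) (j + b0)) := crs_pJ (by omega) (by omega)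
  have hpt : ∀ x, i1 (Real.exp (-(5 * m)) ≤ osc W (pJ (j - b) (j + b)) (Mod92.gg μ s (Pn N y) δ B b0 ω j) x) * O x * H x ≤
      ((fun x => (tkR True W (j - b) (j + b) (j - b0) j m4 x * O' x + tkR True W (j - b) (j + b) j (j + b0) m4 x * O' x) * H x) +
        (K₀ / ρ) • cE W (pJ (j - b) (j + b)) (nCn μ s δ₁ (j - b0) (j + b0))) x := fun x => by
    have k1 := mic_le (q := pJ (j - b) (j + b)) hη (Blk18.full_Pn N y) hj h1 h2 hB hc hn x
    rw [← hW] at k1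
    obtain ⟨I, hI⟩ : ∃ I, I = i1 (Real.exp (-(5 * m)) ≤ osc W (pJ (j - b) (j + b)) (Mod92.gg μ s (Pn N y) δ B b0 ω j) x) := ⟨_, rfl⟩
    obtain ⟨c, hcc⟩ : ∃ c, c = cE W (pJ (j - b) (j + b)) (nCn μ s δ₁ (j - b0) (j + b0)) x := ⟨_, rfl⟩
    obtain ⟨r, hr⟩ : ∃ r, r = i1 (ρ ≤ cE W (pJ (j - b) (j + b)) (nCn μ s δ₁ (j - b0) (j + b0)) x) := ⟨_, rfl⟩
    have hc0 : 0 ≤ c := by
      rw [hcc]
      exact cE_nonneg W _ (nCn_nonneg μ s δ₁ (j - b0) (j + b0)) x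
    have hrc : r ≤ c / ρ := by
      rw [hr, hcc]
      by_cases h : ρ ≤ cE W (pJ (j - b) (j + b)) (nCn μ s δ₁ (j - b0) (j + b0)) x
      · rw [i1_of h, le_div_iff₀ hρ, one_mul]
        exact h
      · rw [i1_not h, ← hcc]
        positivity
    have hr0 : 0 ≤ r := by
      rw [hr]
      exact i1_nonneg _
    rw [← hI, ← hr] at k1
    rw [← hI]
    simp only [Pi.add_apply, Pi.smul_apply, smul_eq_mul, tkR_tau trivial]
    rw [← hcc]
    obtain ⟨t1, ht1⟩ : ∃ t1, t1 = i1 (Tau W (pJ (j - b) (j + b)) (j - b0) j m4 x) := ⟨_, rfl⟩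
    obtain ⟨t2, ht2⟩ : ∃ t2, t2 = i1 (Tau W (pJ (j - b) (j + b)) j (j + b0) m4 x) := ⟨_, rfl⟩
    rw [← ht1, ← ht2] at k1 ⊢
    have t10 : 0 ≤ t1 := ht1 ▸ i1_nonneg _
    have t20 : 0 ≤ t2 := ht2 ▸ i1_nonneg _
    have a0 : 0 ≤ O x * H x := mul_nonneg (hO x) (hH x)
    have a1 := mul_le_mul_of_nonneg_right k1 a0
    have a2 : O x * H x ≤ O' x * H x := mul_le_mul_of_nonneg_right (hOO x) (hH x)
    have a3 : O x * H x ≤ K₀ := by
      calc O x * H x ≤ 1 * K₀ := mul_le_mul ((hOO x).trans (hO1 x)) (hK x) (hH x) zero_le_one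
        _ = K₀ := one_mul _
    have a4 : (t1 + t2) * (O x * H x) ≤ (t1 + t2) * (O' x * H x) := mul_le_mul_of_nonneg_left a2 (by linarith)
    have a5 : r * (O x * H x) ≤ c / ρ * K₀ := mul_le_mul hrc a3 a0 (by positivity)
    have a6 : c / ρ * K₀ = K₀ / ρ * c := by ring
    nlinarith
  rw [← hW]
  have k2 := gm_mono W hpt
  have e1 : gm W (((fun x => (tkR True W (j - b) (j + b) (j - b0) j m4 x * O' x + tkR True W (j - b) (j + b) j (j + b0) m4 x * O' x) * H x) +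
        (K₀ / ρ) • cE W (pJ (j - b) (j + b)) (nCn μ s δ₁ (j - b0) (j + b0)))) =
      gm W (fun x => (tkR True W (j - b) (j + b) (j - b0) j m4 x * O' x + tkR True W (j - b) (j + b) j (j + b0) m4 x * O' x) * H x) +
        K₀ / ρ * gm W (nCn μ s δ₁ (j - b0) (j + b0)) := by
    rw [gm_add, gm_smul, gm_cE]
  have k3 : gm W (nCn μ s δ₁ (j - b0) (j + b0)) ≤ ϑ := by
    rw [hW]
    exact hϑ
  have k4 := mul_le_mul_of_nonneg_left k3 (show 0 ≤ K₀ / ρ by positivity)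
  have e2 : K₀ * (ϑ / ρ) = K₀ / ρ * ϑ := by ring
  rw [e2]
  refine k2.trans ?_
  rw [e1]
  linarith

/-- **In the mean**, for one end. -/
theorem osc_int [IsProbabilityMeasure μ] {P1 P2 : ℝ} (hj : j + b0 ≤ N) (h1 : (N : ℝ) ^ κ ≤ ((j - (j - b0) : ℕ) : ℝ))
    (h2 : (N : ℝ) ^ κ ≤ b0) (hB : 0 ≤ B) (hb : b0 ≤ b)
    (hn : Real.exp ((N : ℝ) ^ ε) * (2 * Real.exp (-(5 * m4))) + Real.exp (-(N : ℝ) ^ c₁) + 2 * B * ρ ≤ Real.exp (-(5 * m)))
    (hρ : 0 < ρ) (hϑ : 0 ≤ ϑ) (hP1 : law μ {η | ¬ GwW μ s N κ δ δ₁ ε c₁ η} ≤ ENNReal.ofReal P1)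
    (hP2 : law μ {η | ϑ < gm (lw μ s η N (Pn N y)) (nCn μ s δ₁ (j - b0) (j + b0))} ≤ ENNReal.ofReal P2) (hP1' : 0 ≤ P1)
    (hP2' : 0 ≤ P2) {O O' H : Env × Finset ℕ → Px (Pn N y) → ℝ} (hO : ∀ ω x, 0 ≤ O ω x) (hOO : ∀ ω x, O ω x ≤ O' ω x)
    (hO1 : ∀ ω x, O' ω x ≤ 1) (hOm : ∀ x, Measurable fun ω => O' ω x) (hH : ∀ ω x, 0 ≤ H ω x) (hK : ∀ ω x, H ω x ≤ K₀)
    (hHm : ∀ x, Measurable fun ω => H ω x) :
    ∫ ω, gm (wm μ s N (Pn N y) ω) (fun x => i1 (Real.exp (-(5 * m)) ≤ osc (wm μ s N (Pn N y) ω) (pJ (j - b) (j + b))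
        (Mod92.gg μ s (Pn N y) δ B b0 ω j) x) * O ω x * H ω x) ∂(Pm μ N) ≤
      ∫ ω, gm (wm μ s N (Pn N y) ω) (fun x => (tkR True (wm μ s N (Pn N y) ω) (j - b) (j + b) (j - b0) j m4 x * O' ω x +
        tkR True (wm μ s N (Pn N y) ω) (j - b) (j + b) j (j + b0) m4 x * O' ω x) * H ω x) ∂(Pm μ N) + K₀ * (ϑ / ρ + (P1 + P2)) := by
  have hK0 : 0 ≤ K₀ := (hH (fun _ => 0, ∅) (Classical.arbitrary _)).trans (hK _ _)
  have g0 : ∀ ω x, 0 ≤ (tkR True (wm μ s N (Pn N y) ω) (j - b) (j + b) (j - b0) j m4 x * O' ω x +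
        tkR True (wm μ s N (Pn N y) ω) (j - b) (j + b) j (j + b0) m4 x * O' ω x) * H ω x := fun ω x =>
    mul_nonneg (add_nonneg (mul_nonneg tkR_nonneg ((hO ω x).trans (hOO ω x))) (mul_nonneg tkR_nonneg ((hO ω x).trans (hOO ω x)))) (hH ω x)
  have g1 : ∀ ω x, (tkR True (wm μ s N (Pn N y) ω) (j - b) (j + b) (j - b0) j m4 x * O' ω x +
        tkR True (wm μ s N (Pn N y) ω) (j - b) (j + b) j (j + b0) m4 x * O' ω x) * H ω x ≤ 2 * K₀ := fun ω x => by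
    refine mul_le_mul ?_ (hK ω x) (hH ω x) (by norm_num)
    have a1 : tkR True (wm μ s N (Pn N y) ω) (j - b) (j + b) (j - b0) j m4 x * O' ω x ≤ 1 :=
      mul_le_one₀ tkR_le_one ((hO ω x).trans (hOO ω x)) (hO1 ω x)
    have a2 : tkR True (wm μ s N (Pn N y) ω) (j - b) (j + b) j (j + b0) m4 x * O' ω x ≤ 1 :=
      mul_le_one₀ tkR_le_one ((hO ω x).trans (hOO ω x)) (hO1 ω x)
    linarith
  have hG0 : ∀ ω, 0 ≤ gm (wm μ s N (Pn N y) ω) (fun x => (tkR True (wm μ s N (Pn N y) ω) (j - b) (j + b) (j - b0) j m4 x * O' ω x +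
        tkR True (wm μ s N (Pn N y) ω) (j - b) (j + b) j (j + b0) m4 x * O' ω x) * H ω x) := fun ω => gm_nonneg _ (g0 ω)
  have hGi : Integrable (fun ω => gm (wm μ s N (Pn N y) ω) (fun x => (tkR True (wm μ s N (Pn N y) ω) (j - b) (j + b) (j - b0) j m4 x * O' ω x +
        tkR True (wm μ s N (Pn N y) ω) (j - b) (j + b) j (j + b0) m4 x * O' ω x) * H ω x)) (Pm μ N) :=
    int_bdd (M := 2 * K₀) (meas_gm meas_wm fun x => (((meas_tkR x).mul (hOm x)).add ((meas_tkR x).mul (hOm x))).mul (hHm x)) fun ω => by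
      rw [abs_of_nonneg (hG0 ω)]
      exact (gm_mono _ (g := fun _ => 2 * K₀) (g1 ω)).trans (gm_const _ _).le
  have key := int_off5 (μ := μ) (N := N)
    (Φ := fun ω => gm (wm μ s N (Pn N y) ω) (fun x => i1 (Real.exp (-(5 * m)) ≤ osc (wm μ s N (Pn N y) ω) (pJ (j - b) (j + b))
        (Mod92.gg μ s (Pn N y) δ B b0 ω j) x) * O ω x * H ω x))
    (G := fun ω => gm (wm μ s N (Pn N y) ω) (fun x => (tkR True (wm μ s N (Pn N y) ω) (j - b) (j + b) (j - b0) j m4 x * O' ω x +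
        tkR True (wm μ s N (Pn N y) ω) (j - b) (j + b) j (j + b0) m4 x * O' ω x) * H ω x))
    (K0 := K₀ * (ϑ / ρ)) (T := K₀) (P := P1 + P2)
    (bad := {η | ¬ GwW μ s N κ δ δ₁ ε c₁ η} ∪ {η | ϑ < gm (lw μ s η N (Pn N y)) (nCn μ s δ₁ (j - b0) (j + b0))})
    (fun ω => gm_nonneg _ fun x => mul_nonneg (mul_nonneg (i1_nonneg _) (hO ω x)) (hH ω x)) hG0 hGi (by positivity) hK0 (by positivity)
    (fun ω => (gm_mono _ (g := fun _ => K₀) fun x => ?_).trans (gm_const _ _).le)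
    ((measure_union_le _ _).trans (by
      rw [ENNReal.ofReal_add hP1' hP2']
      exact add_le_add hP1 hP2)) fun ω hω => ?_
  · refine key.trans (le_of_eq ?_)
    ring
  · calc _ ≤ 1 * K₀ := mul_le_mul (mul_le_one₀ (N25.i1_le_one _) (hO ω x) ((hOO ω x).trans (hO1 ω x))) (hK ω x) (hH ω x) zero_le_one
      _ = K₀ := one_mul _
  · rw [Set.mem_union, not_or] at hω
    exact osc_pt (not_not.1 hω.1) hj h1 h2 hB hb hn hρ (not_lt.1 hω.2) (hO ω) (hOO ω) (hO1 ω) (hH ω) (hK ω)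

end Pt

end

end Pool.Agent.W_7d29a1_C0.DT5
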