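import Pool.Agent.W_7d29a1_C0.Sz23
import Pool.Agent.W_7d29a1_C0.BasFr33
import Pool.Agent.W_7d29a1_C0.Num46P

/-!
MP_7d29a1_pr, [CURV0], leaf E5 (helper23): THE SIZES AT THE CONCRETE FRAME. `tjF`: the weighted price of the near tie `tj` of one kicked row,
averaged over the pinned ends; `szw_F`: the weighted price of `|I_j|`; `szF`: the second moment of `I_j`, for `I = N5e, N25e, sr * M5e`.
-/

set_option autoImplicit false
set_option linter.unusedSectionVars false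

namespace Pool.Agent.W_7d29a1_C0.Sz23

open Finset MeasureTheory Filter Topology Pool.Agent.W_7d29a1_F Pool.Agent.W_7d29a1_X Pool.Agent.W_7d29a1_H Pool.Agent.W_7d29a1_C0.Mod92
open Pool.Agent.W_7d29a1_HS (In)
open Pool.Agent.W_7d29a1_HZ (wd' EE')
open Pool.Agent.W_7d29a1_C0 Pool.Agent.W_7d29a1_C0.Asm96 Pool.Agent.W_7d29a1_C0.Frm33
open Pool.Agent.W_7d29a1_C0.Strip80 (OffD)
open Pool.Agent.W_7d29a1_C0.Swap57 Pool.Agent.W_7d29a1_C0.Base5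
open Pool.Agent.W_7d29a1_C0.Par92 (Sml Est)
open Pool.W7d29a1.C0 Pool.W7d29a1.C0.VT31 Pool.W7d29a1.C0.R43 Pool.W7d29a1.C0.S1

noncomputable section

variable {μ : Measure ℝ} {s : ℝ}

/-! ### Numbers -/

/-- Stretched exponentials are smaller than every power. -/
theorem ev_exp {κ : ℝ} (hκ : 0 < κ) (A : ℝ) :
    ∀ᶠ m : ℕ in atTop, Real.exp (-(((2 ^ m : ℕ) : ℝ) ^ κ)) ≤ ((2 ^ m : ℕ) : ℝ) ^ (-A) := by
  have h1 := (tendsto_rpow_mul_exp_neg_mul_atTop_nhds_zero (A / κ) 1 one_pos).comp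
    ((tendsto_rpow_atTop hκ).comp tend_n)
  filter_upwards [h1.eventually_le_const (one_pos : (0 : ℝ) < 1)] with m hm
  have hn0 : (0 : ℝ) < ((2 ^ m : ℕ) : ℝ) := lt_of_lt_of_le one_pos (n_ge1 m)
  simp only [Function.comp] at hm
  rw [← Real.rpow_mul hn0.le, mul_div_cancel₀ _ hκ.ne', neg_mul, one_mul] at hm
  rw [Real.rpow_neg hn0.le, ← one_div, le_div_iff₀ (Real.rpow_pos_of_pos hn0 _), mul_comm]
  exact hm

/-- The numbers of the sizes: `B = n ^ β`, the level `n ^ κ`. -/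
theorem num_sz {κ ε β : ℝ} (hκ : 0 < κ) (hε : 0 < ε) (hβ : 0 < β) (hβκ : β ≤ κ / 2) (hβε : β ≤ ε / 8) :
    ∀ᶠ m : ℕ in atTop, 1 ≤ B33 β m ∧ 8 * B33 β m ^ 4 ≤ ((2 ^ m : ℕ) : ℝ) ^ ε ∧ K5 (B33 β m) ≤ ((2 ^ m : ℕ) : ℝ) ^ ε ∧
      24 * B33 β m ^ 4 * Real.exp (16 * B33 β m) * Real.exp (-(5 * ((2 ^ m : ℕ) : ℝ) ^ κ)) ≤ Real.exp (-(((2 ^ m : ℕ) : ℝ) ^ κ)) := by
  filter_upwards [ev_n (show 0 < ε / 2 by positivity) 128, ev_n (show 0 < κ / 2 by positivity) 16, ev_exp hκ (4 * κ)] with m h1 h2 h3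
  obtain ⟨n, hn⟩ : ∃ n : ℝ, n = ((2 ^ m : ℕ) : ℝ) := ⟨_, rfl⟩
  have hn1 : 1 ≤ n := hn ▸ n_ge1 m
  have hn0 : 0 < n := by linarith
  obtain ⟨B, hB⟩ : ∃ B : ℝ, B = B33 β m := ⟨_, rfl⟩
  have hBn : B = n ^ β := by rw [hB, hn]; rfl
  rw [← hn] at h1 h2 h3 ⊢
  rw [← hB]
  have hB1 : 1 ≤ B := hBn ▸ Real.one_le_rpow hn1 hβ.le
  have hB0 : 0 < B := by linarith
  have hB4 : B ^ 4 = n ^ (4 * β) := by
    rw [hBn, ← Real.rpow_natCast, ← Real.rpow_mul hn0.le]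
    congr 1
    push_cast
    ring
  have e1 : B ^ 4 ≤ n ^ (ε / 2) := by
    rw [hB4]
    exact Real.rpow_le_rpow_of_exponent_le hn1 (by linarith)
  have e2 : n ^ (ε / 2) * n ^ (ε / 2) = n ^ ε := by
    rw [← Real.rpow_add hn0]
    congr 1
    ring
  have hp : 0 < n ^ (ε / 2) := Real.rpow_pos_of_pos hn0 _
  have hB34 : B ^ 3 ≤ B ^ 4 := pow_le_pow_right₀ hB1 (by norm_num)
  refine ⟨hB1, ?_, ?_, ?_⟩
  · calc 8 * B ^ 4 ≤ n ^ (ε / 2) * n ^ (ε / 2) := mul_le_mul (by linarith) e1 (by positivity) hp.le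
      _ = n ^ ε := e2
  · unfold K5
    calc 16 * (1 + B) ^ 3 ≤ 16 * (2 * B) ^ 3 := by
          have : (1 + B) ^ 3 ≤ (2 * B) ^ 3 := pow_le_pow_left₀ (by linarith) (by linarith) 3
          linarith
      _ = 128 * B ^ 3 := by ring
      _ ≤ n ^ (ε / 2) * n ^ (ε / 2) := mul_le_mul h1 (hB34.trans e1) (by positivity) hp.le
      _ = n ^ ε := e2
  · have f1 : B ^ 4 ≤ n ^ (2 * κ) := by
      rw [hB4]
      exact Real.rpow_le_rpow_of_exponent_le hn1 (by linarith)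
    have f2 : B ≤ n ^ (κ / 2) := hBn ▸ Real.rpow_le_rpow_of_exponent_le hn1 hβκ
    have f3 : n ^ (κ / 2) * n ^ (κ / 2) = n ^ κ := by
      rw [← Real.rpow_add hn0]
      congr 1
      ring
    have f4 : 16 * B ≤ n ^ κ := by
      calc 16 * B ≤ n ^ (κ / 2) * n ^ (κ / 2) := mul_le_mul h2 f2 (by linarith) (Real.rpow_nonneg hn0.le _)
        _ = n ^ κ := f3
    have f5 : 24 * B ^ 4 * Real.exp (-(n ^ κ)) ≤ 1 := by
      have g1 : 24 ≤ n ^ (2 * κ) := by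
        have g2 : (16 : ℝ) * 16 ≤ n ^ (κ / 2) * n ^ (κ / 2) := mul_le_mul h2 h2 (by norm_num) (Real.rpow_nonneg hn0.le _)
        rw [f3] at g2
        have g3 : n ^ κ ≤ n ^ (2 * κ) := Real.rpow_le_rpow_of_exponent_le hn1 (by linarith)
        linarith
      calc 24 * B ^ 4 * Real.exp (-(n ^ κ)) ≤ n ^ (2 * κ) * n ^ (2 * κ) * n ^ (-(4 * κ)) := by
            refine mul_le_mul (mul_le_mul g1 f1 (by positivity) (Real.rpow_nonneg hn0.le _)) h3 (Real.exp_pos _).le (by positivity)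
        _ = 1 := by
            rw [← Real.rpow_add hn0, ← Real.rpow_add hn0]
            rw [show 2 * κ + 2 * κ + -(4 * κ) = 0 by ring, Real.rpow_zero]
    have f6 : Real.exp (16 * B) * Real.exp (-(5 * n ^ κ)) ≤ Real.exp (-(n ^ κ)) * Real.exp (-(n ^ κ)) := by
      rw [← Real.exp_add, ← Real.exp_add]
      refine Real.exp_le_exp.2 ?_
      have : 0 ≤ n ^ κ := Real.rpow_nonneg hn0.le _
      linarith
    calc 24 * B ^ 4 * Real.exp (16 * B) * Real.exp (-(5 * n ^ κ))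
        = 24 * B ^ 4 * (Real.exp (16 * B) * Real.exp (-(5 * n ^ κ))) := by ring
      _ ≤ 24 * B ^ 4 * (Real.exp (-(n ^ κ)) * Real.exp (-(n ^ κ))) := mul_le_mul_of_nonneg_left f6 (by positivity)
      _ = (24 * B ^ 4 * Real.exp (-(n ^ κ))) * Real.exp (-(n ^ κ)) := by ring
      _ ≤ 1 * Real.exp (-(n ^ κ)) := mul_le_mul_of_nonneg_right f5 (Real.exp_pos _).le
      _ = _ := one_mul _

theorem gm_lin {X : Type*} [Fintype X] [Nonempty X] (w f : X → ℝ) (a e : ℝ) : gm w (fun S => a * f S + e) = a * gm w f + e := by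
  have e2 := gm_add w (fun S => a * f S) (fun _ => e)
  rw [gm_const] at e2
  have e3 : gm w (fun S => a * f S) = a * gm w f := gm_smul w a f
  rw [e3] at e2
  exact e2

/-! ### The pathwise sizes, one constant -/

section Path

variable {N : ℕ} {Q : Finset (Finset ℕ)} [SwQ Q] [Nonempty (Px Q)] {B δ : ℝ} {b0 b b' : ℕ}

/-- The size of one row: `|I| ≤ C tj + e`. -/
def Szp (μ : Measure ℝ) (s : ℝ) (N : ℕ) (Q : Finset (Finset ℕ)) (b0 b b' : ℕ) (x C e : ℝ) (I : Env × Finset ℕ → ℕ → Px Q → ℝ) : Prop :=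
  ∀ ω j S, |I ω j S| ≤ C * tj μ s N Q b0 b b' x ω j S + e

theorem Szp.mono {x C e C' e' : ℝ} {I : Env × Finset ℕ → ℕ → Px Q → ℝ} (h : Szp μ s N Q b0 b b' x C e I) (hC : C ≤ C') (he : e ≤ e') :
    Szp μ s N Q b0 b b' x C' e' I := fun ω j S => (h ω j S).trans (add_le_add (mul_le_mul_of_nonneg_right hC (tj_nonneg _ _ _ _ _ _ _ _)) he)

/-- **The three pieces, one size.** -/
theorem szp_all (hB : 1 ≤ B) (hb : b ≤ b') (x : ℝ) :
    Szp μ s N Q b0 b b' x (8 * B ^ 4) (24 * B ^ 4 * Real.exp (16 * B) * Real.exp (-(5 * x))) (fun ω j => N5e μ s N Q δ B b0 b b' ω j) ∧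
    Szp μ s N Q b0 b b' x (8 * B ^ 4) (24 * B ^ 4 * Real.exp (16 * B) * Real.exp (-(5 * x))) (fun ω j => N25e μ s N Q δ B b0 b b' ω j) ∧
    Szp μ s N Q b0 b b' x (8 * B ^ 4) (24 * B ^ 4 * Real.exp (16 * B) * Real.exp (-(5 * x)))
      (fun ω j S => sr ω.2 j * M5e μ s N Q δ B b0 b b' ω j S) := by
  have h34 : B ^ 3 ≤ B ^ 4 := pow_le_pow_right₀ hB (by norm_num)
  have h24 : B ^ 2 ≤ B ^ 4 := pow_le_pow_right₀ hB (by norm_num)
  have h0 : 0 ≤ B ^ 4 := by positivity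
  have he : 0 ≤ Real.exp (16 * B) * Real.exp (-(5 * x)) := by positivity
  refine ⟨?_, ?_, ?_⟩
  · have h1 : Szp μ s N Q b0 b b' x (8 * B ^ 4) (16 * B ^ 4 * Real.exp (16 * B) * Real.exp (-(5 * x)))
        (fun ω j => N5e μ s N Q δ B b0 b b' ω j) := fun ω j S => abs_N5e_tj hB hb ω j S x
    refine h1.mono le_rfl ?_
    rw [mul_assoc, mul_assoc (24 * B ^ 4)]
    exact mul_le_mul_of_nonneg_right (by linarith) he
  · have h1 : Szp μ s N Q b0 b b' x (4 * B ^ 3) ((20 * B ^ 3 + 4 * B ^ 2) * Real.exp (16 * B) * Real.exp (-(5 * x)))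
        (fun ω j => N25e μ s N Q δ B b0 b b' ω j) := fun ω j S => abs_N25e_tj hB hb ω j S x
    refine h1.mono (by linarith) ?_
    rw [mul_assoc, mul_assoc (24 * B ^ 4)]
    exact mul_le_mul_of_nonneg_right (by linarith) he
  · have h1 : Szp μ s N Q b0 b b' x (2 * B ^ 2) (8 * B ^ 2 * Real.exp (16 * B) * Real.exp (-(5 * x)))
        (fun ω j S => sr ω.2 j * M5e μ s N Q δ B b0 b b' ω j S) := fun ω j S => by
      rw [abs_mul, abs_sr, one_mul]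
      exact abs_M5e_tj hB hb ω j S x
    refine h1.mono (by linarith) ?_
    rw [mul_assoc, mul_assoc (24 * B ^ 4)]
    exact mul_le_mul_of_nonneg_right (by linarith) he

end Path

/-! ### The frame -/

section Frame

variable [IsProbabilityMeasure μ] {c₀ C₀ : ℝ} {n₀ : ℕ} {K : ℕ}

/-- The finer window is at most half of the window. -/
theorem b0_half {ι : ℝ} (hι : 0 < ι) {m p : ℕ} (hm : 0 < m) (hp : 0 < p) : 2 * 2 ^ (p - ⌈ι * (m : ℝ)⌉₊) ≤ 2 ^ p := by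
  have h1 : 0 < ⌈ι * (m : ℝ)⌉₊ := Nat.ceil_pos.2 (mul_pos hι (by exact_mod_cast hm))
  calc 2 * 2 ^ (p - ⌈ι * (m : ℝ)⌉₊) = 2 ^ (p - ⌈ι * (m : ℝ)⌉₊ + 1) := by rw [pow_succ]; ring
    _ ≤ 2 ^ p := Nat.pow_le_pow_right two_pos (by omega)

/-- **The weighted price of the near tie of one kicked row at the frame.** -/
theorem tjF (h : In μ s c₀ C₀ n₀) (hK : 32 ≤ K) {δ ε : ℝ} (hδ : 0 < δ) (hε : 0 < ε) : ∃ κ : ℝ, 0 < κ ∧
    ∀ κ' : ℝ, 0 < κ' → κ' ≤ κ → ∃ c₂ : ℝ, 0 < c₂ ∧ ∀ ι : ℝ, 0 < ι → ∀ᶠ m : ℕ in atTop, ∀ p p' j : ℕ, δ * m ≤ p → p ≤ p' →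
      2 ^ p' ≤ j → j + 2 ^ p' ≤ L33 K m →
      ∀ (D : ∀ y, Env × Finset ℕ → Px (Pn (L33 K m) y) → ℝ) (M : ℝ), 0 < M → (∀ y ∈ ys33 μ s K m, ∀ ω S, |D y ω S| ≤ M) →
      (∀ y ∈ ys33 μ s K m, ∀ S, Measurable fun ω => D y ω S) →
      (∀ y ∈ ys33 μ s K m, OffD (Ioo (j - 2 ^ p') (j + 2 ^ p')) (D y)) →
      avy (ys33 μ s K m) (fun y => ∫ ω, gm (wm μ s (L33 K m) (Pn (L33 K m) y) ω) (fun S => |D y ω S| *
        tj μ s (L33 K m) (Pn (L33 K m) y) (2 ^ (p - ⌈ι * (m : ℝ)⌉₊)) (2 ^ p) (2 ^ p') (((2 ^ m : ℕ) : ℝ) ^ κ') ω j S) ∂(Pm μ (L33 K m))) ≤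
      ((2 ^ m : ℕ) : ℝ) ^ ε / EE μ s (2 ^ p) *
        avy (ys33 μ s K m) (fun y => ∫ ω, gm (wm μ s (L33 K m) (Pn (L33 K m) y) ω) (fun S => |D y ω S|) ∂(Pm μ (L33 K m))) +
        M * Real.exp (-(((2 ^ m : ℕ) : ℝ) ^ c₂)) := by
  have hK0 : (0 : ℝ) < K := by
    have : (32 : ℝ) ≤ K := by exact_mod_cast hK
    linarith
  have hK1 : (1 : ℝ) ≤ K := by
    have : (32 : ℝ) ≤ K := by exact_mod_cast hK
    linarith
  obtain ⟨δ₁, κ, c₂, hδ₁, hκ, hc₂, N₀, hP⟩ := tj_price (μ := μ) (s := s) h (ε / 2 / K) (δ / 2 / K) (by positivity) (by positivity)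
  refine ⟨κ, hκ, fun κ' hκ' hκκ => ⟨min (min c₂ κ' / 2) 1, by positivity, fun ι hι => ?_⟩⟩
  have hmin : 0 < min c₂ κ' := lt_min hc₂ hκ'
  filter_upwards [cone33 h hK hδ₁, ev_L (by omega : 1 ≤ K) N₀, ev_n (show 0 < δ / 2 by positivity) 2, ev_n (show 0 < ε / 2 by positivity) 4,
    ev_n hκ' 8, ev_n (show 0 < min c₂ κ' / 2 by positivity) 3, eventually_gt_atTop 0] with m h1 h2 h3 h4 h5 h6 h7
  intro p p' j hp hpp hj hjL D M hM hD hDm hDo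
  obtain ⟨n, hn⟩ : ∃ n : ℝ, n = ((2 ^ m : ℕ) : ℝ) := ⟨_, rfl⟩
  have hn1 : 1 ≤ n := hn ▸ n_ge1 m
  have hn0 : 0 < n := by linarith
  have hm0 : (0 : ℝ) < m := by exact_mod_cast h7
  have hp0 : 0 < p := by
    have : (0 : ℝ) < p := lt_of_lt_of_le (by positivity) hp
    exact_mod_cast this
  have hb0 := b0_half (p := p) hι h7 hp0
  have hbn := two_ge hp
  have eL1 : ((L33 K m : ℕ) : ℝ) ^ (δ / 2 / K) = n ^ (δ / 2) := by
    rw [L33_pow, ← hn]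
    congr 1
    field_simp
  have eL2 : ((L33 K m : ℕ) : ℝ) ^ (ε / 2 / K) = n ^ (ε / 2) := by
    rw [L33_pow, ← hn]
    congr 1
    field_simp
  have eL3 : n ^ κ' ≤ ((L33 K m : ℕ) : ℝ) ^ κ := by
    rw [L33_pow, ← hn]
    exact Real.rpow_le_rpow_of_exponent_le hn1 (hκκ.trans (le_mul_of_one_le_left hκ.le hK1))
  have eL4 : n ^ (min c₂ κ') ≤ ((L33 K m : ℕ) : ℝ) ^ c₂ := by
    rw [L33_pow, ← hn]
    exact Real.rpow_le_rpow_of_exponent_le hn1 ((min_le_left _ _).trans (le_mul_of_one_le_left hc₂.le hK1))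
  rw [← hn] at h3 h4 h5 h6 hbn ⊢
  have hlen : n ^ (δ / 2) ≤ ((2 ^ p - 2 ^ (p - ⌈ι * (m : ℝ)⌉₊) : ℕ) : ℝ) := by
    have e1 : ((2 ^ p : ℕ) : ℝ) ≤ 2 * ((2 ^ p - 2 ^ (p - ⌈ι * (m : ℝ)⌉₊) : ℕ) : ℝ) := by
      have : 2 ^ p ≤ 2 * (2 ^ p - 2 ^ (p - ⌈ι * (m : ℝ)⌉₊)) := by omega
      exact_mod_cast this
    have e2 : n ^ δ = n ^ (δ / 2) * n ^ (δ / 2) := by
      rw [← Real.rpow_add hn0]
      congr 1
      ring
    have e3 : 2 * n ^ (δ / 2) ≤ n ^ (δ / 2) * n ^ (δ / 2) := mul_le_mul_of_nonneg_right h3 (Real.rpow_nonneg hn0.le _)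
    linarith
  have hEE : (EE' μ s (2 ^ p - 2 ^ (p - ⌈ι * (m : ℝ)⌉₊)))⁻¹ ≤ 2 / EE μ s (2 ^ p) := by
    have e1 := P86.EE'_le_mul86 h (m := 2 ^ p) (n := 2 ^ p - 2 ^ (p - ⌈ι * (m : ℝ)⌉₊)) (k := 2) (by norm_num) (by omega)
    rw [EE'_eq46 s (2 ^ p)] at e1
    push_cast at e1
    have e2 : 0 < EE μ s (2 ^ p) := EE_pos _
    have e3 : 0 < EE' μ s (2 ^ p - 2 ^ (p - ⌈ι * (m : ℝ)⌉₊)) := lt_of_lt_of_le one_pos (le_max_left _ _)
    rw [le_div_iff₀ e2, inv_mul_le_iff₀ e3]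
    linarith
  have hE0 : 0 < EE μ s (2 ^ p) := EE_pos _
  have hfac : 2 * (((L33 K m : ℕ) : ℝ) ^ (ε / 2 / K) * (EE' μ s (2 ^ p - 2 ^ (p - ⌈ι * (m : ℝ)⌉₊)))⁻¹) ≤ n ^ ε / EE μ s (2 ^ p) := by
    rw [eL2]
    calc 2 * (n ^ (ε / 2) * (EE' μ s (2 ^ p - 2 ^ (p - ⌈ι * (m : ℝ)⌉₊)))⁻¹) ≤ 2 * (n ^ (ε / 2) * (2 / EE μ s (2 ^ p))) := by gcongr
      _ = 4 * n ^ (ε / 2) / EE μ s (2 ^ p) := by ring
      _ ≤ n ^ (ε / 2) * n ^ (ε / 2) / EE μ s (2 ^ p) := by gcongr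
      _ = n ^ ε / EE μ s (2 ^ p) := by
          rw [← Real.rpow_add hn0]
          congr 2
          ring
  have herr : 2 * M * (Real.exp (-((L33 K m : ℕ) : ℝ) ^ c₂) + 2 * Real.exp (-n ^ κ')) ≤ M * Real.exp (-(n ^ (min (min c₂ κ' / 2) 1))) := by
    obtain ⟨a, ha⟩ : ∃ a, a = min c₂ κ' := ⟨_, rfl⟩
    rw [← ha] at eL4 h6 hmin ⊢
    have f0 : n ^ (a / 2) * n ^ (a / 2) = n ^ a := by
      rw [← Real.rpow_add hn0]
      congr 1
      ring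
    have f1 : Real.exp (-((L33 K m : ℕ) : ℝ) ^ c₂) ≤ Real.exp (-(n ^ a)) := Real.exp_le_exp.2 (by linarith)
    have f2 : Real.exp (-n ^ κ') ≤ Real.exp (-(n ^ a)) := Real.exp_le_exp.2 (by
      have := Real.rpow_le_rpow_of_exponent_le hn1 (ha ▸ min_le_right c₂ κ' : a ≤ κ')
      linarith)
    have f3 : n ^ (min (a / 2) 1) ≤ n ^ (a / 2) := Real.rpow_le_rpow_of_exponent_le hn1 (min_le_left _ _)
    have f4 : 6 * Real.exp (-(n ^ a)) ≤ Real.exp (-(n ^ (a / 2))) := by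
      have g1 : 6 ≤ Real.exp (n ^ (a / 2) * 2) := by
        have := Real.add_one_le_exp (n ^ (a / 2) * 2)
        linarith
      have g2 : n ^ (a / 2) * 2 ≤ n ^ a - n ^ (a / 2) := by
        have := mul_le_mul_of_nonneg_right h6 (Real.rpow_nonneg hn0.le (a / 2))
        linarith
      calc 6 * Real.exp (-(n ^ a)) ≤ Real.exp (n ^ (a / 2) * 2) * Real.exp (-(n ^ a)) :=
            mul_le_mul_of_nonneg_right g1 (Real.exp_pos _).le
        _ = Real.exp (n ^ (a / 2) * 2 - n ^ a) := by rw [← Real.exp_add]; ring_nf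
        _ ≤ Real.exp (-(n ^ (a / 2))) := Real.exp_le_exp.2 (by linarith)
    have f5 : Real.exp (-(n ^ (a / 2))) ≤ Real.exp (-(n ^ (min (a / 2) 1))) := Real.exp_le_exp.2 (by linarith)
    calc _ ≤ 2 * M * (Real.exp (-(n ^ a)) + 2 * Real.exp (-(n ^ a))) := by gcongr
      _ = M * (6 * Real.exp (-(n ^ a))) := by ring
      _ ≤ M * Real.exp (-(n ^ (min (a / 2) 1))) := mul_le_mul_of_nonneg_left (f4.trans f5) hM.le
  refine (avy_le96 (K := n ^ ε / EE μ s (2 ^ p)) (Y := fun y => ∫ ω, gm (wm μ s (L33 K m) (Pn (L33 K m) y) ω) (fun S => |D y ω S|)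
    ∂(Pm μ (L33 K m))) (e := M * Real.exp (-(n ^ (min (min c₂ κ' / 2) 1)))) (by positivity) fun y hy => ?_)
  have hy2 := mem_Ico.1 (show y ∈ Ico (y33 μ s K m) (y33 μ s K m + M33 m) from hy)
  obtain ⟨hyL, hyc⟩ := h1.2.2 y (by omega) (by omega)
  have hne : Nonempty (Px (Pn (L33 K m) y)) := ne_Pn hyL
  have h8 := hP (L33 K m) h2 (L33 K m) (by omega) le_rfl y hyL hyc (2 ^ (p - ⌈ι * (m : ℝ)⌉₊)) (2 ^ p) (2 ^ p') j (by omega)
    (Nat.pow_le_pow_right two_pos hpp) hj hjL (by rw [eL1]; exact hlen) (n ^ κ') h5 eL3 (D y) M hM (hD y hy) (hDm y hy) (hDo y hy)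
  refine h8.trans (add_le_add (mul_le_mul_of_nonneg_right hfac ?_) herr)
  exact integral_nonneg fun ω => gm_nonneg _ fun S => abs_nonneg _

/-- The three pieces of the change of base: `N5e`, `N25e`, `sr * M5e`. -/
def I5 (μ : Measure ℝ) (s : ℝ) (F : Frm96) (k : Fin 3) (m p p' y : ℕ) (ω : Env × Finset ℕ) (j : ℕ) (S : Px (Pn (F.L m) y)) : ℝ :=
  match k with
  | 0 => N5e μ s (F.L m) (Pn (F.L m) y) F.dl (F.B m) (F.b0 m p) (2 ^ p) (2 ^ p') ω j S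
  | 1 => N25e μ s (F.L m) (Pn (F.L m) y) F.dl (F.B m) (F.b0 m p) (2 ^ p) (2 ^ p') ω j S
  | 2 => sr ω.2 j * M5e μ s (F.L m) (Pn (F.L m) y) F.dl (F.B m) (F.b0 m p) (2 ^ p) (2 ^ p') ω j S

theorem meas_I5 (F : Frm96) (k : Fin 3) {m p p' : ℕ} (hpp : p ≤ p') (y j : ℕ) [Nonempty (Px (Pn (F.L m) y))] (S : Px (Pn (F.L m) y)) :
    Measurable fun ω => I5 μ s F k m p p' y ω j S := by
  fin_cases k
  · exact meas_N5e F.dl (F.B m) (F.b0 m p) (Nat.pow_le_pow_right two_pos hpp) j S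
  · exact meas_N25e F.dl (F.B m) (F.b0 m p) (2 ^ p) (2 ^ p') j S
  · exact (meas_sr j).mul (meas_M5e F.dl (F.B m) (F.b0 m p) (2 ^ p) (2 ^ p') j S)

theorem abs_I5 (F : Frm96) (k : Fin 3) {m p p' : ℕ} (hB : 0 ≤ F.B m) (hpp : p ≤ p') (y j : ℕ) [Nonempty (Px (Pn (F.L m) y))]
    (ω : Env × Finset ℕ) (S : Px (Pn (F.L m) y)) : |I5 μ s F k m p p' y ω j S| ≤ K5 (F.B m) := by
  fin_cases k
  · exact abs_N5e hB (F.b0 m p) (Nat.pow_le_pow_right two_pos hpp) ω j S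
  · exact abs_N25e hB (F.b0 m p) (2 ^ p) (2 ^ p') ω j S
  · show |sr ω.2 j * _| ≤ _
    rw [abs_mul, abs_sr, one_mul]
    exact abs_M5e hB (F.b0 m p) (2 ^ p) (2 ^ p') ω j S

theorem szp_I5 (F : Frm96) (k : Fin 3) {m p p' : ℕ} (hB : 1 ≤ F.B m) (hpp : p ≤ p') (y : ℕ) [Nonempty (Px (Pn (F.L m) y))] (x : ℝ) :
    Szp μ s (F.L m) (Pn (F.L m) y) (F.b0 m p) (2 ^ p) (2 ^ p') x (8 * F.B m ^ 4)
      (24 * F.B m ^ 4 * Real.exp (16 * F.B m) * Real.exp (-(5 * x))) (I5 μ s F k m p p' y) := by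
  obtain ⟨h0, h1, h2⟩ := szp_all (μ := μ) (s := s) (N := F.L m) (Q := Pn (F.L m) y) (δ := F.dl) (b0 := F.b0 m p) hB
    (Nat.pow_le_pow_right two_pos hpp : 2 ^ p ≤ 2 ^ p') x
  fin_cases k
  · exact h0
  · exact h1
  · exact h2

/-- **THE WEIGHTED SIZE of one row at the frame.** -/
theorem szwF (h : In μ s c₀ C₀ n₀) (hK : 32 ≤ K) {δ ε : ℝ} (hδ : 0 < δ) (hε : 0 < ε) : ∃ c₂ : ℝ, 0 < c₂ ∧
    Est fun ι β γ m => ∀ (k : Fin 3) (p p' j : ℕ), δ * m ≤ p → p ≤ p' → 2 ^ p' ≤ j → j + 2 ^ p' ≤ L33 K m →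
      ∀ (D : ∀ y, Env × Finset ℕ → Px (Pn (L33 K m) y) → ℝ) (M : ℝ), 0 < M → (∀ y ∈ ys33 μ s K m, ∀ ω S, |D y ω S| ≤ M) →
      (∀ y ∈ ys33 μ s K m, ∀ S, Measurable fun ω => D y ω S) →
      (∀ y ∈ ys33 μ s K m, OffD (Ioo (j - 2 ^ p') (j + 2 ^ p')) (D y)) →
      avy (ys33 μ s K m) (fun y => ∫ ω, gm (wm μ s (L33 K m) (Pn (L33 K m) y) ω) (fun S => |D y ω S| *
        |I5 μ s (frm33 μ s K ι β γ) k m p p' y ω j S|) ∂(Pm μ (L33 K m))) ≤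
      ((2 ^ m : ℕ) : ℝ) ^ ε / EE μ s (2 ^ p) *
        avy (ys33 μ s K m) (fun y => ∫ ω, gm (wm μ s (L33 K m) (Pn (L33 K m) y) ω) (fun S => |D y ω S|) ∂(Pm μ (L33 K m))) +
        M * Real.exp (-(((2 ^ m : ℕ) : ℝ) ^ c₂)) := by
  obtain ⟨κ, hκ, hP⟩ := tjF h hK hδ (show 0 < ε / 2 by positivity)
  obtain ⟨c₂, hc₂, hP⟩ := hP κ hκ le_rfl
  have hc : 0 < min c₂ κ := lt_min hc₂ hκ
  refine ⟨min c₂ κ / 2, by positivity, Sml.of fun ι hι => ?_⟩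
  refine ⟨min (κ / 2) (ε / 2 / 8), by positivity, fun β hβ hβ' => Sml.of fun γ _ => ?_⟩
  filter_upwards [hP ι hι, num_sz hκ (show 0 < ε / 2 by positivity) hβ (hβ'.trans (min_le_left _ _)) (hβ'.trans (min_le_right _ _)),
    ev_exp (show 0 < min c₂ κ / 2 by positivity) (ε / 2), ev_n (show 0 < min c₂ κ / 2 by positivity) 3, cone33 h hK one_pos] with m h1 h2 h3 h4 h5
  intro k p p' j hp hpp hj hjL D M hM hD hDm hDo
  obtain ⟨hB1, hB4, -, hBe⟩ := h2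
  have h6 := h1 p p' j hp hpp hj hjL D M hM hD hDm hDo
  obtain ⟨n, hn⟩ : ∃ n : ℝ, n = ((2 ^ m : ℕ) : ℝ) := ⟨_, rfl⟩
  have hn1 : 1 ≤ n := hn ▸ n_ge1 m
  have hn0 : 0 < n := by linarith
  rw [← hn] at h3 h4 h6 hB4 hBe ⊢
  obtain ⟨a, ha⟩ : ∃ a, a = min c₂ κ := ⟨_, rfl⟩
  rw [← ha] at h3 h4 hc ⊢
  obtain ⟨W, hW⟩ : ∃ W, W = avy (ys33 μ s K m) (fun y => ∫ ω, gm (wm μ s (L33 K m) (Pn (L33 K m) y) ω) (fun S => |D y ω S|)
    ∂(Pm μ (L33 K m))) := ⟨_, rfl⟩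
  obtain ⟨X, hX⟩ : ∃ X, X = avy (ys33 μ s K m) (fun y => ∫ ω, gm (wm μ s (L33 K m) (Pn (L33 K m) y) ω) (fun S => |D y ω S| *
        tj μ s (L33 K m) (Pn (L33 K m) y) (2 ^ (p - ⌈ι * (m : ℝ)⌉₊)) (2 ^ p) (2 ^ p') (n ^ κ) ω j S) ∂(Pm μ (L33 K m))) := ⟨_, rfl⟩
  rw [← hW, ← hX] at h6
  rw [← hW]
  have hle : ∀ y ∈ ys33 μ s K m, y ≤ L33 K m := fun y hy => by
    have hy2 := mem_Ico.1 (show y ∈ Ico (y33 μ s K m) (y33 μ s K m + M33 m) from hy)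
    exact (h5.2.2 y (by omega) (by omega)).1
  -- one end
  have h7 : avy (ys33 μ s K m) (fun y => ∫ ω, gm (wm μ s (L33 K m) (Pn (L33 K m) y) ω) (fun S => |D y ω S| *
        |I5 μ s (frm33 μ s K ι β γ) k m p p' y ω j S|) ∂(Pm μ (L33 K m))) ≤ n ^ (ε / 2) * X + M * Real.exp (-(n ^ κ)) := by
    rw [hX]
    refine avy_le96 (by positivity) fun y hy => ?_
    have hne : Nonempty (Px (Pn (L33 K m) y)) := ne_Pn (hle y hy)
    have hne' : Nonempty (Px (Pn ((frm33 μ s K ι β γ).L m) y)) := hne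
    have hmD := hDm y hy
    have hsz := szp_I5 (μ := μ) (s := s) (frm33 μ s K ι β γ) k hB1 hpp y (n ^ κ)
    have hi1 : Integrable (fun ω => gm (wm μ s (L33 K m) (Pn (L33 K m) y) ω) (fun S => |D y ω S| *
        |I5 μ s (frm33 μ s K ι β γ) k m p p' y ω j S|)) (Pm μ (L33 K m)) :=
      int_bdd (meas_gm meas_wm fun S => (hmD S).abs.mul (meas_I5 (frm33 μ s K ι β γ) k hpp y j S).abs) (M := M * K5 (B33 β m))
        fun ω => abs_gm96 _ fun S => by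
          rw [abs_mul, abs_abs, abs_abs]
          exact mul_le_mul (hD y hy ω S) (abs_I5 (frm33 μ s K ι β γ) k (zero_le_one.trans hB1) hpp y j ω S) (abs_nonneg _) hM.le
    have hi2 : Integrable (fun ω => gm (wm μ s (L33 K m) (Pn (L33 K m) y) ω) (fun S => |D y ω S| *
        tj μ s (L33 K m) (Pn (L33 K m) y) (2 ^ (p - ⌈ι * (m : ℝ)⌉₊)) (2 ^ p) (2 ^ p') (n ^ κ) ω j S)) (Pm μ (L33 K m)) :=
      int_bdd (meas_gm meas_wm fun S => (hmD S).abs.mul (meas_tj _ _ _ _ j S)) (M := M * 2) fun ω => abs_gm96 _ fun S => by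
        rw [abs_mul, abs_abs, abs_of_nonneg (tj_nonneg _ _ _ _ _ _ _ _)]
        exact mul_le_mul (hD y hy ω S) (tj_le _ _ _ _ _ _ _ _) (tj_nonneg _ _ _ _ _ _ _ _) hM.le
    have h8 : ∀ ω : Env × Finset ℕ, gm (wm μ s (L33 K m) (Pn (L33 K m) y) ω) (fun S => |D y ω S| *
        |I5 μ s (frm33 μ s K ι β γ) k m p p' y ω j S|) ≤ n ^ (ε / 2) * gm (wm μ s (L33 K m) (Pn (L33 K m) y) ω) (fun S => |D y ω S| *
        tj μ s (L33 K m) (Pn (L33 K m) y) (2 ^ (p - ⌈ι * (m : ℝ)⌉₊)) (2 ^ p) (2 ^ p') (n ^ κ) ω j S) + M * Real.exp (-(n ^ κ)) := by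
      intro ω
      rw [← gm_lin]
      refine gm_mono _ fun S => ?_
      have g1 := hsz ω j S
      have g2 := tj_nonneg (μ := μ) (s := s) (N := L33 K m) (Pn (L33 K m) y) (2 ^ (p - ⌈ι * (m : ℝ)⌉₊)) (2 ^ p) (2 ^ p') (n ^ κ) ω j S
      have g3 : |I5 μ s (frm33 μ s K ι β γ) k m p p' y ω j S| ≤
          n ^ (ε / 2) * tj μ s (L33 K m) (Pn (L33 K m) y) (2 ^ (p - ⌈ι * (m : ℝ)⌉₊)) (2 ^ p) (2 ^ p') (n ^ κ) ω j S + Real.exp (-(n ^ κ)) :=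
        g1.trans (add_le_add (mul_le_mul_of_nonneg_right hB4 g2) hBe)
      calc |D y ω S| * |I5 μ s (frm33 μ s K ι β γ) k m p p' y ω j S| ≤ |D y ω S| * (n ^ (ε / 2) * tj μ s (L33 K m) (Pn (L33 K m) y)
            (2 ^ (p - ⌈ι * (m : ℝ)⌉₊)) (2 ^ p) (2 ^ p') (n ^ κ) ω j S + Real.exp (-(n ^ κ))) := mul_le_mul_of_nonneg_left g3 (abs_nonneg _)
        _ = n ^ (ε / 2) * (|D y ω S| * tj μ s (L33 K m) (Pn (L33 K m) y) (2 ^ (p - ⌈ι * (m : ℝ)⌉₊)) (2 ^ p) (2 ^ p') (n ^ κ) ω j S) +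
            |D y ω S| * Real.exp (-(n ^ κ)) := by ring
        _ ≤ _ := add_le_add le_rfl (mul_le_mul_of_nonneg_right (hD y hy ω S) (Real.exp_pos _).le)
    have h9 := integral_mono hi1 ((hi2.const_mul (n ^ (ε / 2))).add (integrable_const (M * Real.exp (-(n ^ κ))))) h8
    refine h9.trans (le_of_eq ?_)
    simp only [Pi.add_apply]
    rw [integral_add (hi2.const_mul _) (integrable_const _), integral_const_mul]
    simp
  have hnε : 0 < n ^ (ε / 2) := Real.rpow_pos_of_pos hn0 _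
  have hE0 : 0 < EE μ s (2 ^ p) := EE_pos _
  have f0 : n ^ (a / 2) * n ^ (a / 2) = n ^ a := by
    rw [← Real.rpow_add hn0]
    congr 1
    ring
  have hap : 0 ≤ n ^ (a / 2) := Real.rpow_nonneg hn0.le _
  have f1 : Real.exp (-(n ^ c₂)) ≤ Real.exp (-(n ^ a)) := Real.exp_le_exp.2 (by
    have := Real.rpow_le_rpow_of_exponent_le hn1 (ha ▸ min_le_left c₂ κ : a ≤ c₂)
    linarith)
  have f2 : Real.exp (-(n ^ κ)) ≤ Real.exp (-(n ^ a)) := Real.exp_le_exp.2 (by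
    have := Real.rpow_le_rpow_of_exponent_le hn1 (ha ▸ min_le_right c₂ κ : a ≤ κ)
    linarith)
  have f3 : n ^ (ε / 2) * Real.exp (-(n ^ (a / 2))) ≤ 1 := by
    calc n ^ (ε / 2) * Real.exp (-(n ^ (a / 2))) ≤ n ^ (ε / 2) * n ^ (-(ε / 2)) := mul_le_mul_of_nonneg_left h3 hnε.le
      _ = 1 := by rw [← Real.rpow_add hn0, add_neg_cancel, Real.rpow_zero]
  have f4 : Real.exp (-(n ^ a)) ≤ Real.exp (-(n ^ (a / 2))) * (Real.exp (-(n ^ (a / 2))) * Real.exp (-1)) := by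
    rw [← Real.exp_add, ← Real.exp_add]
    refine Real.exp_le_exp.2 ?_
    have := mul_le_mul_of_nonneg_right h4 hap
    linarith
  have f5 : n ^ (ε / 2) * Real.exp (-(n ^ a)) + Real.exp (-(n ^ a)) ≤ Real.exp (-(n ^ (a / 2))) := by
    have g1 : (1 : ℝ) ≤ n ^ (ε / 2) := Real.one_le_rpow hn1 (by positivity)
    have g2 : Real.exp (-1) ≤ 1 / 2 := by
      have h10 := Real.exp_one_gt_d9
      rw [Real.exp_neg, inv_eq_one_div]
      exact one_div_le_one_div_of_le (by norm_num) (by linarith)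
    have g3 := Real.exp_pos (-(n ^ (a / 2)))
    calc n ^ (ε / 2) * Real.exp (-(n ^ a)) + Real.exp (-(n ^ a)) ≤ 2 * (n ^ (ε / 2) * Real.exp (-(n ^ a))) := by
          have := mul_le_mul_of_nonneg_right g1 (Real.exp_pos (-(n ^ a))).le
          linarith
      _ ≤ 2 * (n ^ (ε / 2) * (Real.exp (-(n ^ (a / 2))) * (Real.exp (-(n ^ (a / 2))) * Real.exp (-1)))) := by gcongr
      _ = (n ^ (ε / 2) * Real.exp (-(n ^ (a / 2)))) * (2 * Real.exp (-1)) * Real.exp (-(n ^ (a / 2))) := by ring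
      _ ≤ 1 * 1 * Real.exp (-(n ^ (a / 2))) := by
          refine mul_le_mul_of_nonneg_right (mul_le_mul f3 (by linarith) (by positivity) zero_le_one) g3.le
      _ = _ := by ring
  calc _ ≤ n ^ (ε / 2) * X + M * Real.exp (-(n ^ κ)) := h7
    _ ≤ n ^ (ε / 2) * (n ^ (ε / 2) / EE μ s (2 ^ p) * W + M * Real.exp (-(n ^ c₂))) + M * Real.exp (-(n ^ κ)) := by gcongr
    _ ≤ n ^ (ε / 2) * (n ^ (ε / 2) / EE μ s (2 ^ p) * W + M * Real.exp (-(n ^ a))) + M * Real.exp (-(n ^ a)) := by gcongr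
    _ = n ^ (ε / 2) * n ^ (ε / 2) / EE μ s (2 ^ p) * W + M * (n ^ (ε / 2) * Real.exp (-(n ^ a)) + Real.exp (-(n ^ a))) := by ring
    _ ≤ n ^ ε / EE μ s (2 ^ p) * W + M * Real.exp (-(n ^ (a / 2))) := by
        rw [← Real.rpow_add hn0, add_halves]
        exact add_le_add le_rfl (mul_le_mul_of_nonneg_left f5 hM.le)

/-- The bulk of the kicked windows: `EE (2 ^ p) ≤ n ^ 2` for `p ≤ m`. -/
theorem ev_EE (h : In μ s c₀ C₀ n₀) : ∀ᶠ m : ℕ in atTop, ∀ p : ℕ, p ≤ m → EE μ s (2 ^ p) ≤ ((2 ^ m : ℕ) : ℝ) ^ (2 : ℝ) := by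
  filter_upwards [ev_n one_pos (EE μ s 1)] with m h1 p hp
  have e1 : EE μ s (2 ^ p) ≤ (2 ^ m : ℕ) * EE μ s 1 :=
    EE_le_mul h.em s Nat.one_le_two_pow (by rw [mul_one]; exact Nat.pow_le_pow_right two_pos hp)
  have hn1 := n_ge1 m
  rw [Real.rpow_one] at h1
  calc EE μ s (2 ^ p) ≤ (2 ^ m : ℕ) * EE μ s 1 := e1
    _ ≤ ((2 ^ m : ℕ) : ℝ) * ((2 ^ m : ℕ) : ℝ) := mul_le_mul_of_nonneg_left h1 (by linarith)
    _ = ((2 ^ m : ℕ) : ℝ) ^ (2 : ℝ) := by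
        rw [Real.rpow_two, sq]

/-- **THE SECOND MOMENT of one row at the frame.** -/
theorem szF (h : In μ s c₀ C₀ n₀) (hK : 32 ≤ K) {δ ε : ℝ} (hδ : 0 < δ) (hε : 0 < ε) :
    Est fun ι β γ m => ∀ (k : Fin 3) (p p' j : ℕ), δ * m ≤ p → p ≤ m → p ≤ p' → 2 ^ p' ≤ j → j + 2 ^ p' ≤ L33 K m →
      avy (ys33 μ s K m) (fun y => ∫ ω, gm (wm μ s (L33 K m) (Pn (L33 K m) y) ω)
        (fun S => I5 μ s (frm33 μ s K ι β γ) k m p p' y ω j S ^ 2) ∂(Pm μ (L33 K m))) ≤ ((2 ^ m : ℕ) : ℝ) ^ ε / EE μ s (2 ^ p) := by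
  obtain ⟨c₂, hc₂, hP⟩ := szwF h hK hδ (show 0 < ε / 3 by positivity)
  have hβs : Est fun _ β _ _ => β ≤ ε / 3 / 8 := Est.beta (Sml.of fun _ _ => Sml.le (by positivity))
  refine (hP.and hβs).mono fun ι β γ hι hβ hγ => ?_
  filter_upwards [cone33 h hK one_pos, ev_exp hc₂ 2, ev_EE h, ev_n (show 0 < ε / 3 by positivity) 128] with m h5 h3 h4 h6 hh
  obtain ⟨h1, hβε⟩ := hh
  intro k p p' j hp hpm hpp hj hjL
  obtain ⟨n, hn⟩ : ∃ n : ℝ, n = ((2 ^ m : ℕ) : ℝ) := ⟨_, rfl⟩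
  have hn1 : 1 ≤ n := hn ▸ n_ge1 m
  have hn0 : 0 < n := by linarith
  have hB1 : 1 ≤ B33 β m := Real.one_le_rpow (n_ge1 m) hβ.le
  have hB0 : 0 ≤ B33 β m := by linarith
  have h7 := h1 k p p' j hp hpp hj hjL (fun _ _ _ => 1) 1 one_pos (fun _ _ _ _ => by rw [abs_one]) (fun _ _ _ => measurable_const)
    (fun _ _ _ _ _ _ _ => rfl)
  have h8 := h4 p hpm
  rw [← hn] at h3 h6 h7 h8 ⊢
  have hK5 : K5 (B33 β m) ≤ n ^ (2 * (ε / 3)) / 2 := by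
    have e1 : B33 β m ≤ n ^ (ε / 3 / 8) := by
      unfold B33
      rw [← hn]
      exact Real.rpow_le_rpow_of_exponent_le hn1 hβε
    have e2 : B33 β m ^ 3 ≤ n ^ (ε / 3) / 2 := by
      have e3 : B33 β m ^ 3 ≤ (n ^ (ε / 3 / 8)) ^ 3 := pow_le_pow_left₀ hB0 e1 3
      have e4 : (n ^ (ε / 3 / 8)) ^ 3 = n ^ (ε / 3 * (3 / 8)) := by
        rw [← Real.rpow_natCast, ← Real.rpow_mul hn0.le]
        congr 1
        push_cast
        ring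
      have e5 : n ^ (ε / 3 * (3 / 8)) ≤ n ^ (ε / 3 * (1 / 2)) := Real.rpow_le_rpow_of_exponent_le hn1 (by linarith)
      have e6 : n ^ (ε / 3 * (1 / 2)) * n ^ (ε / 3 * (1 / 2)) = n ^ (ε / 3) := by
        rw [← Real.rpow_add hn0]
        congr 1
        ring
      have e7 : 2 ≤ n ^ (ε / 3 * (1 / 2)) := by
        by_contra hlt
        have hlt' := not_le.1 hlt
        have e8 : 0 ≤ n ^ (ε / 3 * (1 / 2)) := Real.rpow_nonneg hn0.le _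
        nlinarith
      nlinarith
    unfold K5
    calc 16 * (1 + B33 β m) ^ 3 ≤ 16 * (2 * B33 β m) ^ 3 := by
          have : (1 + B33 β m) ^ 3 ≤ (2 * B33 β m) ^ 3 := pow_le_pow_left₀ (by linarith) (by linarith) 3
          linarith
      _ = 128 * B33 β m ^ 3 := by ring
      _ ≤ n ^ (ε / 3) * (n ^ (ε / 3) / 2) := mul_le_mul h6 e2 (by positivity) (Real.rpow_nonneg hn0.le _)
      _ = n ^ (2 * (ε / 3)) / 2 := by
          rw [← mul_div_assoc, ← Real.rpow_add hn0]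
          congr 2
          ring
  have hle : ∀ y ∈ ys33 μ s K m, y ≤ L33 K m := fun y hy => by
    have hy2 := mem_Ico.1 (show y ∈ Ico (y33 μ s K m) (y33 μ s K m + M33 m) from hy)
    exact (h5.2.2 y (by omega) (by omega)).1
  have h9 : avy (ys33 μ s K m) (fun y => ∫ ω, gm (wm μ s (L33 K m) (Pn (L33 K m) y) ω)
        (fun S => I5 μ s (frm33 μ s K ι β γ) k m p p' y ω j S ^ 2) ∂(Pm μ (L33 K m))) ≤
      K5 (B33 β m) * avy (ys33 μ s K m) (fun y => ∫ ω, gm (wm μ s (L33 K m) (Pn (L33 K m) y) ω)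
        (fun S => |(1 : ℝ)| * |I5 μ s (frm33 μ s K ι β γ) k m p p' y ω j S|) ∂(Pm μ (L33 K m))) + 0 := by
    refine avy_le96 le_rfl fun y hy => ?_
    have hne : Nonempty (Px (Pn (L33 K m) y)) := ne_Pn (hle y hy)
    have hne' : Nonempty (Px (Pn ((frm33 μ s K ι β γ).L m) y)) := hne
    rw [← integral_const_mul, add_zero]
    have hb := fun ω S => abs_I5 (μ := μ) (s := s) (frm33 μ s K ι β γ) k hB0 hpp y j ω S
    have hi : Integrable (fun ω => gm (wm μ s (L33 K m) (Pn (L33 K m) y) ω) (fun S => |(1 : ℝ)| *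
        |I5 μ s (frm33 μ s K ι β γ) k m p p' y ω j S|)) (Pm μ (L33 K m)) :=
      int_bdd (meas_gm meas_wm fun S => (meas_I5 (frm33 μ s K ι β γ) k hpp y j S).abs.const_mul _) (M := K5 (B33 β m))
        fun ω => abs_gm96 _ fun S => by
          rw [abs_one, one_mul, abs_abs]
          exact hb ω S
    refine integral_mono (int_sq33 (fun S => meas_I5 (frm33 μ s K ι β γ) k hpp y j S) hb) (hi.const_mul _) fun ω => ?_
    have e1 : K5 (B33 β m) * gm (wm μ s (L33 K m) (Pn (L33 K m) y) ω) (fun S => |(1 : ℝ)| * |I5 μ s (frm33 μ s K ι β γ) k m p p' y ω j S|) =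
        gm (wm μ s (L33 K m) (Pn (L33 K m) y) ω) (fun S => K5 (B33 β m) * (|(1 : ℝ)| * |I5 μ s (frm33 μ s K ι β γ) k m p p' y ω j S|)) :=
      (gm_smul _ _ _).symm
    show gm _ _ ≤ K5 (B33 β m) * gm _ _
    rw [e1]
    refine gm_mono _ fun S => ?_
    rw [abs_one, one_mul, ← sq_abs, sq]
    exact mul_le_mul_of_nonneg_right (hb ω S) (abs_nonneg _)
  have h10 : avy (ys33 μ s K m) (fun y => ∫ ω, gm (wm μ s (L33 K m) (Pn (L33 K m) y) ω) (fun _ => |(1 : ℝ)|) ∂(Pm μ (L33 K m))) ≤ 1 := by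
    have e1 := avy_le96 (ys := ys33 μ s K m) (X := fun y => ∫ ω, gm (wm μ s (L33 K m) (Pn (L33 K m) y) ω) (fun _ => |(1 : ℝ)|)
      ∂(Pm μ (L33 K m))) (Y := fun _ => 0) (K := 0) (e := 1) zero_le_one fun y hy => by
        have hne : Nonempty (Px (Pn (L33 K m) y)) := ne_Pn (hle y hy)
        simp only [gm_const, abs_one]
        simp
    simpa using e1
  have hE0 : 0 < EE μ s (2 ^ p) := EE_pos _
  have hE : 0 ≤ n ^ (ε / 3) / EE μ s (2 ^ p) := by positivity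
  have hr : Real.exp (-(n ^ c₂)) ≤ 1 / EE μ s (2 ^ p) := by
    refine h3.trans ?_
    rw [Real.rpow_neg hn0.le, ← one_div]
    exact one_div_le_one_div_of_le hE0 h8
  have hne1 : (1 : ℝ) ≤ n ^ (ε / 3) := by linarith
  have hK50 := K5_nonneg hB0
  calc _ ≤ K5 (B33 β m) * (n ^ (ε / 3) / EE μ s (2 ^ p) * 1 + 1 * Real.exp (-(n ^ c₂))) := by
        rw [add_zero] at h9
        refine h9.trans (mul_le_mul_of_nonneg_left (h7.trans ?_) hK50)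
        exact add_le_add (mul_le_mul_of_nonneg_left h10 hE) le_rfl
    _ ≤ (n ^ (2 * (ε / 3)) / 2) * (n ^ (ε / 3) / EE μ s (2 ^ p) * 1 + 1 * (n ^ (ε / 3) / EE μ s (2 ^ p))) := by
        refine mul_le_mul hK5 (add_le_add le_rfl (mul_le_mul_of_nonneg_left (hr.trans ?_) zero_le_one)) (by positivity) (by positivity)
        gcongr
    _ = n ^ (2 * (ε / 3)) * n ^ (ε / 3) / EE μ s (2 ^ p) := by ring
    _ = n ^ ε / EE μ s (2 ^ p) := by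
        rw [← Real.rpow_add hn0]
        congr 2
        ring

end Frame

end

end Pool.Agent.W_7d29a1_C0.Sz23
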