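import Pool.Agent.W_7d29a1_C0.NM82
import Pool.Agent.W_7d29a1_C0.TelT72

/-!
CURV0 (MP_7d29a1_pr), leaf (T), the absolute form with ONE base path (helper72). `z ≤ z'`, `q = pJ 0 z`, `q' = pJ 0 z'` (everything
behind the rows `z`, `z'`), `κ`, `b` functionals of the rows `≤ h`, `h ≤ z`, `f` a functional of the rows `≥ c`, `z' ≤ c`:
`abs_fT72_le`: `|Cov_G(cC_q'(cE_q κ, cE_q b), f)| ≤ 2 M PP [ |κ S| G(S, S'' apart on [h, z] | q' S) |f S - f S'| 1(S, S' apart on [z', c]) ]`,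
`M = sup |b|`: two free replicas, everything is told from the replica `S`. Used with `κ` = the micro covariance of a row. (helper72)
-/

set_option autoImplicit false
set_option linter.unusedSectionVars false
set_option linter.unusedVariables false

namespace Pool.Agent.W_7d29a1_C0.T72

open Finset
open Pool.Agent.W_7d29a1_C0 Pool.Agent.W_7d29a1_C0.Mod92 Pool.Agent.W_7d29a1_C0.Swap57 Pool.Agent.W_7d29a1_C0.NM82
open Pool.Agent.W_7d29a1_F Pool.Agent.W_7d29a1_X
open Pool.W7d29a1.C0 Pool.W7d29a1.C0.VT31 Pool.W7d29a1.C0.T72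

noncomputable section

/-! ### Abstract part -/

section Abs

variable {X : Type*} [Fintype X] [Nonempty X] {Y Y' : Type*} [DecidableEq Y] [DecidableEq Y']

/-- The conditional covariance through two replicas. -/
theorem cC_eq_two72 (w : X → ℝ) (p : X → Y) (F G : X → ℝ) (x : X) :
    cC w p F G x = 1 / 2 * cE2 w p (fun z z' => (F z - F z') * (G z - G z')) x x := by
  have h1 := cV_eq_two w p (F + G) x
  have h2 := cV_eq_two w p F x
  have h3 := cV_eq_two w p G x
  have h4 := congrFun (cV_add w p F G) x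
  rw [Pi.add_apply, Pi.add_apply, Pi.smul_apply, smul_eq_mul] at h4
  have e : cE2 w p (fun z z' => ((F + G) z - (F + G) z') ^ 2) x x =
      cE2 w p (fun z z' => (F z - F z') ^ 2) x x + (2 * cE2 w p (fun z z' => (F z - F z') * (G z - G z')) x x +
        cE2 w p (fun z z' => (G z - G z') ^ 2) x x) := by
    rw [← cE2_mul, ← cE2_add, ← cE2_add]
    exact cE2_congr w p (fun z z' => by simp only [Pi.add_apply]; ring) x x
  rw [e] at h1
  linarith

theorem abs_cE2_le72 (w : X → ℝ) (p : X → Y) {K K' : X → X → ℝ} (h : ∀ z z', |K z z'| ≤ K' z z') (x x' : X) :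
    |cE2 w p K x x'| ≤ cE2 w p K' x x' := by
  rw [abs_le]
  constructor
  · rw [neg_le, ← neg_one_mul, ← cE2_mul]
    exact cE2_mono w p (fun z z' => by linarith [(abs_le.1 (h z z')).1]) x x'
  · exact cE2_mono w p (fun z z' => (abs_le.1 (h z z')).2) x x'

theorem cE2_swap72 (w : X → ℝ) (p : X → Y) (K : X → X → ℝ) (x x' : X) :
    cE2 w p K x x' = cE2 w p (fun z z' => K z' z) x' x := by
  unfold cE2
  rw [cE_comm w p p K x x']

/-- One factor of the conditional covariance is bounded, the other one is told through an event. -/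
theorem abs_cC_le72 {w : X → ℝ} {q : X → Y'} {p : X → Y} (hc : Crs q p) {F G : X → ℝ} {κ : X → ℝ} {K : X → X → ℝ}
    (hs : ∀ z z', K z z' = K z' z) (hF : ∀ x x', |F x - F x'| ≤ cE2 w p (fun z z' => (|κ z| + |κ z'|) * K z z') x x')
    {M : ℝ} (hG : ∀ x, |G x| ≤ M) (x : X) : |cC w q F G x| ≤ 2 * M * cE2 w q (fun z z' => |κ z| * K z z') x x := by
  have hM : 0 ≤ M := (abs_nonneg _).trans (hG x)
  rw [cC_eq_two72]
  have e1 : ∀ z z', |(F z - F z') * (G z - G z')| ≤ 2 * M * cE2 w p (fun z z' => (|κ z| + |κ z'|) * K z z') z z' := by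
    intro z z'
    rw [abs_mul, mul_comm]
    have h1 : |G z - G z'| ≤ 2 * M := (abs_sub _ _).trans (by linarith [hG z, hG z'])
    exact mul_le_mul h1 (hF z z') (abs_nonneg _) (by linarith)
  have e2 := abs_cE2_le72 w q e1 x x
  rw [cE2_mul, cE2_tower w hc] at e2
  have e3 : cE2 w q (fun z z' => (|κ z| + |κ z'|) * K z z') x x =
      cE2 w q (fun z z' => |κ z| * K z z') x x + cE2 w q (fun z z' => |κ z'| * K z z') x x := by
    rw [← cE2_add]
    exact cE2_congr w q (fun z z' => by ring) x x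
  have e4 : cE2 w q (fun z z' => |κ z'| * K z z') x x = cE2 w q (fun z z' => |κ z| * K z z') x x := by
    rw [cE2_swap72]
    exact cE2_congr w q (fun z z' => by rw [hs z' z]) x x
  rw [e3, e4] at e2
  rw [abs_mul]
  have h2 : |(1 : ℝ) / 2| = 1 / 2 := by norm_num
  rw [h2]
  nlinarith

/-- The conditional mean sees the outside only. -/
theorem cE_fib72 (w : X → ℝ) {p : X → Y} (f : X → ℝ) {x x' : X} (h : p x = p x') : cE w p f x = cE w p f x' :=
  cE_meas w p f x x' h

theorem cE_congr_fib72 (w : X → ℝ) (p : X → Y) {f g : X → ℝ} (x : X) (h : ∀ x', p x' = p x → f x' = g x') :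
    cE w p f x = cE w p g x := by
  unfold cE
  congr 1
  refine sum_congr rfl fun x' _ => ?_
  split_ifs with e
  · rw [h x' e]
  · rfl

/-- The two replica mean with a factor of the first one. -/
theorem cE2_eq_pull72 (w : X → ℝ) (q : X → Y) (a : X → ℝ) (K : X → X → ℝ) (x : X) :
    cE2 w q (fun z z' => a z * K z z') x x = cE w q (fun z => a z * cE w q (K z) z) x := by
  unfold cE2
  refine cE_congr_fib72 w q x fun z hz => ?_
  have e : cE w q (fun z' => a z * K z z') x = a z * cE w q (K z) x := by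
    have h := congrFun (cE_smul w q (a z) (K z)) x
    rw [Pi.smul_apply, smul_eq_mul] at h
    exact h
  rw [e, cE_fib72 w (K z) hz]

theorem PP_mono72 (w : X → ℝ) {Q R : X → X → ℝ} (h : ∀ x y, Q x y ≤ R x y) : PP w Q ≤ PP w R := by
  rw [PP_eq, PP_eq]
  refine div_le_div_of_nonneg_right (sum_le_sum fun x _ => sum_le_sum fun y _ => ?_) (by positivity)
  exact mul_le_mul_of_nonneg_left (h x y) (mul_nonneg (Real.exp_pos _).le (Real.exp_pos _).le)

theorem abs_PP_le72 (w : X → ℝ) {Q R : X → X → ℝ} (h : ∀ x y, |Q x y| ≤ R x y) : |PP w Q| ≤ PP w R := by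
  rw [abs_le]
  constructor
  · have h1 := PP_mono72 w (Q := fun x y => (-1) * Q x y) (R := R) fun x y => by linarith [(abs_le.1 (h x y)).1]
    rw [PP_smul] at h1
    linarith
  · exact PP_mono72 w fun x y => (abs_le.1 (h x y)).2

end Abs

/-! ### The model part -/

section Mod

variable {Q : Finset (Finset ℕ)} [SwQ Q] [Nonempty (Px Q)] {w : Px Q → ℝ} {h z z' c : ℕ}

theorem NI_symm72 (i j : ℕ) (S S' : Px Q) : NI i j S S' = NI i j S' S := by
  unfold NI
  have e : (∀ k, i ≤ k → k ≤ j → ps S k ≠ ps S' k) ↔ ∀ k, i ≤ k → k ≤ j → ps S' k ≠ ps S k :=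
    ⟨fun h k h1 h2 => (h k h1 h2).symm, fun h k h1 h2 => (h k h1 h2).symm⟩
  by_cases h1 : ∀ k, i ≤ k → k ≤ j → ps S k ≠ ps S' k
  · rw [if_pos h1, if_pos (e.1 h1)]
  · rw [if_neg h1, if_neg fun h2 => h1 (e.2 h2)]

theorem NM_eq_NI72 (h z : ℕ) (S S' : Px Q) : NM 0 0 h z S S' = NI h z S S' := by
  classical
  rw [NI_eq]
  unfold NM
  congr

/-- **The difference of two conditional means given what is behind `z`**, of a functional of the rows `≤ h`: the two replicas are
apart on `[h, z]`. -/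
theorem dif_abs72 (hw : Hd h z w) {κ : Px Q → ℝ} (hκ : Lk 0 h κ) (S S' : Px Q) :
    |cE w (pJ 0 z) κ S - cE w (pJ 0 z) κ S'| ≤ cE2 w (pJ 0 z) (fun u u' => (|κ u| + |κ u'|) * NI h z u u') S S' := by
  rw [cE_sub_eq]
  have h0 := cE2_Mt_zero (Nat.zero_le h) hw hκ S S'
  have e : cE2 w (pJ 0 z) (fun u u' => κ u - κ u') S S' =
      cE2 w (pJ 0 z) (fun u u' => (1 - NM 0 0 h z u u') * (κ u - κ u')) S S' +
        cE2 w (pJ 0 z) (fun u u' => NI h z u u' * (κ u - κ u')) S S' := by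
    rw [← cE2_add]
    exact cE2_congr w _ (fun u u' => by rw [NM_eq_NI72]; ring) S S'
  rw [e, h0, zero_add]
  refine abs_cE2_le72 w _ (fun u u' => ?_) S S'
  rw [abs_mul, abs_of_nonneg (NI_nonneg h z u u'), mul_comm]
  exact mul_le_mul_of_nonneg_right (abs_sub _ _) (NI_nonneg h z u u')

/-- The covariance with the non meeting indicator, absolute. -/
theorem abs_gc_le72 (hw : Hd z' c w) {A f : Px Q → ℝ} (hA : Lk 0 z' A) (hf : Rk c f) :
    |gc w A f| ≤ PP w fun S S' => |A S| * (|f S - f S'| * NI z' c S S') := by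
  rw [← gc_eq_QN hw hA hf]
  have e1 : rep 2 w (QN z' c A f) = PP w fun S S' => (1 / 2) * (((A S - A S') * (f S - f S')) * NI z' c S S') :=
    rep_two_PP w _ fun x => rfl
  rw [e1]
  have e2 : ∀ S S' : Px Q, |(1 / 2) * (((A S - A S') * (f S - f S')) * NI z' c S S')| ≤
      (1 / 2) * (|A S| * (|f S - f S'| * NI z' c S S')) + (1 / 2) * (|A S'| * (|f S' - f S| * NI z' c S' S)) := by
    intro S S'
    have h1 : |(1 : ℝ) / 2| = 1 / 2 := by norm_num
    rw [abs_mul, abs_mul, abs_mul, h1, abs_of_nonneg (NI_nonneg z' c S S'), NI_symm72 z' c S' S, abs_sub_comm (f S') (f S)]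
    have h2 : |A S - A S'| ≤ |A S| + |A S'| := abs_sub _ _
    have h3 : 0 ≤ |f S - f S'| * NI z' c S S' := mul_nonneg (abs_nonneg _) (NI_nonneg _ _ _ _)
    nlinarith
  refine (abs_PP_le72 w e2).trans_eq ?_
  rw [PP_add w (fun S S' => (1 / 2) * (|A S| * (|f S - f S'| * NI z' c S S')))
    (fun S S' => (1 / 2) * (|A S'| * (|f S' - f S| * NI z' c S' S))), PP_smul w (1 / 2), PP_smul w (1 / 2),
    PP_swap w (fun S S' => |A S| * (|f S - f S'| * NI z' c S S'))]
  ring

/-- A functional told from the replica `S` may be taken inside of the conditional mean. -/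
theorem PP_base72 {V f : Px Q → ℝ} (hf : Rk c f) (hz : z' ≤ c) :
    (PP w fun S S' => cE w (pJ 0 z') V S * (|f S - f S'| * NI z' c S S')) =
      PP w fun S S' => V S * (|f S - f S'| * NI z' c S S') := by
  refine (PP_pull (q := pJ (Q := Q) 0 z') w V (k := fun S S' => |f S - f S'| * NI z' c S S') fun S' S1 S2 e => ?_).symm
  have h1 : f S1 = f S2 := hf S1 S2 fun i hi => ps_of_ge e (hz.trans hi)
  have h2 : NI z' c S1 S' = NI z' c S2 S' := by
    unfold NI
    have e' : (∀ k, z' ≤ k → k ≤ c → ps S1 k ≠ ps S' k) ↔ ∀ k, z' ≤ k → k ≤ c → ps S2 k ≠ ps S' k := by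
      constructor
      · intro h3 k h4 h5
        rw [← ps_of_ge e h4]
        exact h3 k h4 h5
      · intro h3 k h4 h5
        rw [ps_of_ge e h4]
        exact h3 k h4 h5
    by_cases h6 : ∀ k, z' ≤ k → k ≤ c → ps S1 k ≠ ps S' k
    · rw [if_pos h6, if_pos (e'.1 h6)]
    · rw [if_neg h6, if_neg fun h7 => h6 (e'.2 h7)]
  show |f S1 - f S'| * NI z' c S1 S' = |f S2 - f S'| * NI z' c S2 S'
  rw [h1, h2]

/-- The head swaps needed below. -/
theorem Hd_of_all {m0 : ℕ} (hw : HdAll m0 w) {m u : ℕ} (h1 : m0 ≤ m) (h2 : m ≤ u) : Hd m u w := hw m u h1 h2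

/-- **(T), the absolute form with one base path.** -/
theorem abs_fT72_le (hw : HdAll h w) (hh : h ≤ z) (hz : z ≤ z') (hc : z' ≤ c) {κ b f : Px Q → ℝ} (hκ : Lk 0 h κ)
    (hb : Lk 0 h b) {M : ℝ} (hM : ∀ S, |b S| ≤ M) (hf : Rk c f) :
    |fT72 (pJ 0 z') (pJ 0 z) κ b f w| ≤ 2 * M * PP w fun S S' =>
      (|κ S| * cE w (pJ 0 z') (NI h z S) S) * (|f S - f S'| * NI z' c S S') := by
  have hcr : Crs (pJ (Q := Q) 0 z') (pJ 0 z) := crs_pJ le_rfl hz
  have hFκ : Lk z z (cE w (pJ 0 z) κ) := markov_cE (hw z z hh le_rfl) (Lk_mono le_rfl hh hκ)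
  have hFb : Lk z z (cE w (pJ 0 z) b) := markov_cE (hw z z hh le_rfl) (Lk_mono le_rfl hh hb)
  have hX : Lk z' z' (cC w (pJ 0 z') (cE w (pJ 0 z) κ) (cE w (pJ 0 z) b)) :=
    markov_cC (hw z' z' (hh.trans hz) le_rfl) (Lk_mono (Nat.zero_le _) hz hFκ) (Lk_mono (Nat.zero_le _) hz hFb)
  have hX' : Lk 0 z' (cC w (pJ 0 z') (cE w (pJ 0 z) κ) (cE w (pJ 0 z) b)) := Lk_mono (Nat.zero_le _) le_rfl hX
  unfold fT72
  refine (abs_gc_le72 (hw z' c (hh.trans hz) hc) hX' hf).trans ?_
  have hb1 : ∀ S, |cE w (pJ 0 z) b S| ≤ M := fun S => by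
    have h1 := cE_mono w (pJ 0 z) (f := b) (g := fun _ => M) (fun x => (abs_le.1 (hM x)).2) S
    have h2 := cE_mono w (pJ 0 z) (f := fun _ => -M) (g := b) (fun x => (abs_le.1 (hM x)).1) S
    have e : ∀ r : ℝ, cE w (pJ (Q := Q) 0 z) (fun _ => r) S = r := fun r => by
      have h3 : Mp (pJ (Q := Q) 0 z) (fun _ : Px Q => r) := fun _ _ _ => rfl
      rw [cE_of_meas w h3]
    rw [e] at h1 h2
    exact abs_le.2 ⟨h2, h1⟩
  have e1 : ∀ S, |cC w (pJ 0 z') (cE w (pJ 0 z) κ) (cE w (pJ 0 z) b) S| ≤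
      2 * M * cE w (pJ 0 z') (fun u => |κ u| * cE w (pJ 0 z') (NI h z u) u) S := fun S => by
    have h1 := abs_cC_le72 hcr (fun u u' => NI_symm72 h z u u') (dif_abs72 (hw h z le_rfl hh) hκ) hb1 S
    rwa [cE2_eq_pull72] at h1
  have e2 : (PP w fun S S' => |cC w (pJ 0 z') (cE w (pJ 0 z) κ) (cE w (pJ 0 z) b) S| * (|f S - f S'| * NI z' c S S')) ≤
      PP w fun S S' => 2 * M * (cE w (pJ 0 z') (fun u => |κ u| * cE w (pJ 0 z') (NI h z u) u) S *
        (|f S - f S'| * NI z' c S S')) := by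
    refine PP_mono72 w fun S S' => ?_
    have h3 : 0 ≤ |f S - f S'| * NI z' c S S' := mul_nonneg (abs_nonneg _) (NI_nonneg _ _ _ _)
    exact (mul_le_mul_of_nonneg_right (e1 S) h3).trans_eq (by ring)
  rw [PP_smul, PP_base72 hf hc] at e2
  exact e2

end Mod

end

end Pool.Agent.W_7d29a1_C0.T72
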