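import Pool.Agent.W_7d29a1_C0.Loc7Q
import Pool.Agent.W_7d29a1_C0.PlT72
import Pool.Agent.W_7d29a1_C0.BrT57
import Pool.Agent.W_7d29a1_C0.Cr59

/-!
CURV0 (MP_7d29a1_pr), leaf (T), THE PASSAGE TO THE CORNER (helper72), from `E0X` (helper7) and the plans of `CutT57`, `PlT72`.
`ev_chi3`: the plan of three replicas in the form of two free replicas; `e0_planT`: a plan without passenger; `e0_XT`: the own pair;
`e0_mic`: the own pair with a factor `κ` told from the same path, `|κ| ≤ a 1[T] + e`, the event `T` robust under the shifts of the slab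
(`T` becomes `T'`). The slab of the passage = the rows `(c0, c0 + K]` between the window of the row `j` and the group row `a0`. (helper72)
-/

set_option autoImplicit false
set_option linter.unusedSectionVars false
set_option linter.unusedVariables false

namespace Pool.Agent.W_7d29a1_C0.T72

open Finset MeasureTheory
open Pool.Agent.W_7d29a1_C0 Pool.Agent.W_7d29a1_C0.Mod92 Pool.Agent.W_7d29a1_C0.Swap57 Pool.Agent.W_7d29a1_C0.NM82
open Pool.Agent.W_7d29a1_C0.CutT57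
open Pool.Agent.W_7d29a1_F Pool.Agent.W_7d29a1_X
open Pool.W7d29a1.C0 Pool.W7d29a1.C0.VT31 Pool.W7d29a1.C0.T72
open Pool.W7d29a1.C0.H7 (E0X Marg Sat meas_evP)
open Pool.W7d29a1.C0.H27 (pB slb)
open Pool.W7d29a1.C0.I52 (Plan ev ev_mono ev_nonneg ev_smul ev_add ev_congr gm_eq_av)

noncomputable section

/-! ### What is behind a row -/

section Beh

variable {Q : Finset (Finset ℕ)}

theorem ps_of_pB72 {c1 : ℕ} {S S' : Px Q} (h : pB c1 S = pB c1 S') {i : ℕ} (hi : c1 ≤ i) : ps S i = ps S' i := by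
  have h1 : ps S c1 = ps S' c1 := congrArg Prod.fst h
  have h2 : S.1 \ range c1 = S'.1 \ range c1 := congrArg Prod.snd h
  have e : ∀ T : Px Q, ps T i = ps T c1 + (((T.1 \ range c1) ∩ Ico c1 i).card : ℤ) := fun T => by
    unfold ps
    rw [pos_split T.1 hi]
    congr 3
    ext k
    simp only [mem_inter, mem_sdiff, mem_Ico, mem_range]
    constructor
    · rintro ⟨h1, h2, h3⟩
      exact ⟨⟨h1, by omega⟩, h2, h3⟩
    · rintro ⟨⟨h1, _⟩, h2, h3⟩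
      exact ⟨h1, h2, h3⟩
  rw [e, e, h1, h2]

theorem crs_pB72 {c1 z : ℕ} (h : c1 ≤ z) : Crs (pJ (Q := Q) 0 z) (pB c1) := fun _ _ e =>
  pJ_of_ps fun _ hi => ps_of_pB72 e (h.trans hi)

end Beh

variable {Q : Finset (Finset ℕ)} [SwQ Q] [Nonempty (Px Q)] {w : Px Q → ℝ} {a0 z z' c : ℕ}

/-! ### The plan of three replicas -/

/-- **The plan of three replicas in the form of two free replicas.** -/
theorem ev_chi3 (w : Px Q → ℝ) (a0 z z' c : ℕ) (L f : Px Q → ℝ) : ev (P3 (pJ 0 z')) w (chi3 a0 z z' c L f) =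
    PP w fun S S' => (L S * cE w (pJ 0 z') (NI a0 z S) S) * (|f S - f S'| * NI z' c S S') := by
  have h1 := ev_P3 (pJ 0 z') w (fun S x' S' => L S * NI a0 z S x' * (|f S - f S'| * NI z' c S S'))
  refine Eq.trans h1 ?_
  rw [← gm_gm_eq_PP]
  congr 1
  funext S
  have e1 : (fun x' => gm w fun S' => L S * NI a0 z S x' * (|f S - f S'| * NI z' c S S')) =
      fun x' => (L S * gm w fun S' => |f S - f S'| * NI z' c S S') * NI a0 z S x' := by
    funext x'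
    rw [gm_const_mul]
    ring
  have e2 : (fun S' => (L S * cE w (pJ 0 z') (NI a0 z S) S) * (|f S - f S'| * NI z' c S S')) =
      fun S' => (L S * cE w (pJ 0 z') (NI a0 z S) S) * (|f S - f S'| * NI z' c S S') := rfl
  rw [e1, cE_const_mul, gm_const_mul]
  ring

theorem XT_eq72 (w : Px Q → ℝ) (a0 z z' c : ℕ) (f : Px Q → ℝ) : XT w a0 z z' c f =
    PP w fun S S' => cE w (pJ 0 z') (NI a0 z S) S * (|f S - f S'| * NI z' c S S') := by
  unfold XT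
  rw [ev_chi3]
  simp only [one_mul]

/-- The micro bound of `PlT72` as a plan of three replicas. -/
theorem abs_fT72_le3 {h : ℕ} (hw : HdAll h w) (hh : h ≤ z) (hz : z ≤ z') (hc : z' ≤ c) {κ b f : Px Q → ℝ} (hκ : Lk 0 h κ)
    (hb : Lk 0 h b) {M : ℝ} (hM : ∀ S, |b S| ≤ M) (hf : Rk c f) :
    |fT72 (pJ 0 z') (pJ 0 z) κ b f w| ≤ 2 * M * ev (P3 (pJ 0 z')) w (chi3 h z z' c (fun S => |κ S|) f) := by
  rw [ev_chi3]
  exact abs_fT72_le hw hh hz hc hκ hb hM hf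

theorem chi3_nonneg {L : Px Q → ℝ} (hL : ∀ S, 0 ≤ L S) (f : Px Q → ℝ) (x : Fin 3 → Px Q) : 0 ≤ chi3 a0 z z' c L f x :=
  mul_nonneg (mul_nonneg (hL _) (NI_nonneg _ _ _ _)) (mul_nonneg (abs_nonneg _) (NI_nonneg _ _ _ _))

theorem chi3_le {L f : Px Q → ℝ} (hL : ∀ S, 0 ≤ L S) {l D : ℝ} (hl : ∀ S, L S ≤ l) (hD : ∀ S, |f S| ≤ D)
    (x : Fin 3 → Px Q) : chi3 a0 z z' c L f x ≤ l * (2 * D) := by
  unfold chi3
  have h1 : L (x 2) * NI a0 z (x 2) (x 1) ≤ l := by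
    calc L (x 2) * NI a0 z (x 2) (x 1) ≤ L (x 2) * 1 := mul_le_mul_of_nonneg_left (NI_le_one _ _ _ _) (hL _)
      _ ≤ l := by rw [mul_one]; exact hl _
  have h2 : |f (x 2) - f (x 0)| * NI z' c (x 2) (x 0) ≤ 2 * D := by
    have h3 : |f (x 2) - f (x 0)| ≤ 2 * D := (abs_sub _ _).trans (by linarith [hD (x 2), hD (x 0)])
    calc |f (x 2) - f (x 0)| * NI z' c (x 2) (x 0) ≤ |f (x 2) - f (x 0)| * 1 :=
          mul_le_mul_of_nonneg_left (NI_le_one _ _ _ _) (abs_nonneg _)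
      _ ≤ 2 * D := by rw [mul_one]; exact h3
  exact mul_le_mul h1 h2 (mul_nonneg (abs_nonneg _) (NI_nonneg _ _ _ _)) ((hL _).trans (hl (x 2)))

theorem chi3_mono {L L' : Px Q → ℝ} (h : ∀ S, L S ≤ L' S) (f : Px Q → ℝ) (x : Fin 3 → Px Q) :
    chi3 a0 z z' c L f x ≤ chi3 a0 z z' c L' f x :=
  mul_le_mul_of_nonneg_right (mul_le_mul_of_nonneg_right (h _) (NI_nonneg _ _ _ _))
    (mul_nonneg (abs_nonneg _) (NI_nonneg _ _ _ _))

theorem chi3_pB {c1 : ℕ} (h1 : c1 ≤ a0) (h2 : a0 ≤ z) (h3 : z ≤ z') (h4 : z' ≤ c) {L f : Px Q → ℝ}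
    (hL : ∀ S S', pB c1 S = pB c1 S' → L S = L S') (hf : Rk c f) (x x' : Fin 3 → Px Q) (h : ∀ i, pB c1 (x i) = pB c1 (x' i)) :
    chi3 a0 z z' c L f x = chi3 a0 z z' c L f x' := by
  have hp : ∀ i k, c1 ≤ k → ps (x i) k = ps (x' i) k := fun i k hk => ps_of_pB72 (h i) hk
  unfold chi3
  rw [hL _ _ (h 2), NI_congr (m := a0) (u := z) (S := x 2) (S' := x 1) (fun k hk _ => hp 2 k (h1.trans hk))
    (fun k hk _ => hp 1 k (h1.trans hk)), NI_congr (m := z') (u := c) (S := x 2) (S' := x 0)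
    (fun k hk _ => hp 2 k (by omega)) (fun k hk _ => hp 0 k (by omega)),
    hf (x 2) (x' 2) (fun k hk => hp 2 k (by omega)), hf (x 0) (x' 0) (fun k hk => hp 0 k (by omega))]

theorem marg_P3 (q' : Px Q → Finset ℕ × ℕ) : Marg (P3 q') := ((Marg.nil.fr).gi q' 0).fr

theorem sat_P3 {c1 : ℕ} (h : c1 ≤ z') : Sat (pB c1) (P3 (pJ (Q := Q) 0 z')) := ((Sat.nil.fr).gi (crs_pB72 h) 0).fr

theorem marg_P5 {Y Y' : Type*} [DecidableEq Y] [DecidableEq Y'] (q' : Px Q → Y') (q : Px Q → Y) : Marg (P5 q' q) :=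
  ((((Marg.nil.fr).gi q' 0).gi q 1).gi q 1).fr

theorem sat_P5 {c1 : ℕ} (h : c1 ≤ z) (h' : c1 ≤ z') : Sat (pB c1) (P5 (pJ (Q := Q) 0 z') (pJ 0 z)) :=
  ((((Sat.nil.fr).gi (crs_pB72 h') 0).gi (crs_pB72 h) 1).gi (crs_pB72 h) 1).fr

/-! ### The passage to the corner -/

/-- The tilt of the row `j`. -/
def uj72 (μ : Measure ℝ) (s : ℝ) (Q : Finset (Finset ℕ)) (δ B : ℝ) (b0 j : ℕ) (t : ℝ) (A : Finset ℕ) (η : Env) (S : Px Q) : ℝ :=
  (t - sg A j) * gj μ s η δ B b0 j (sg A j) S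

omit [SwQ Q] [Nonempty (Px Q)] in
/-- The weights of `CR59`. -/
theorem wj_eq72 {μ : Measure ℝ} {s : ℝ} {N : ℕ} (δ B : ℝ) (b0 j : ℕ) (ω : Env × Finset ℕ) (t : ℝ) :
    wj μ s N Q δ B b0 j ω t = fun S => lw μ s ω.1 N Q S + uj72 μ s Q δ B b0 j t ω.2 ω.1 S := by
  funext S
  unfold wj Mod92.wt uj72
  rw [Pi.add_apply, Pi.smul_apply, smul_eq_mul]

omit [SwQ Q] [Nonempty (Px Q)] in
theorem abs_uj72 {μ : Measure ℝ} {s : ℝ} {δ B : ℝ} (hB : 0 ≤ B) (b0 j : ℕ) {t : ℝ} (ht : |t| ≤ 1) (A : Finset ℕ) (η : Env)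
    (S : Px Q) : |uj72 μ s Q δ B b0 j t A η S| ≤ B := by
  unfold uj72
  rw [abs_mul]
  have h1 : |t - (sg A j : ℝ)| ≤ 2 := (abs_sub _ _).trans (by rw [abs_sg]; linarith)
  have h2 := abs_gj (μ := μ) (s := s) (Q := Q) (δ := δ) η hB (abs_sg A j).le b0 j S
  calc |t - (sg A j : ℝ)| * |gj μ s η δ B b0 j (sg A j) S| ≤ 2 * (B / 2) := mul_le_mul h1 h2 (abs_nonneg _) (by norm_num)
    _ = B := by ring

section E0

variable {μ : Measure ℝ} {s : ℝ} {N : ℕ} [IsProbabilityMeasure μ] {k c0 K : ℕ} {θ ε K' : ℝ} {u : Finset ℕ → Env → Px Q → ℝ}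

/-- **A plan without passenger.** -/
theorem e0_planT (hE : ∀ A, E0X μ s k N Q c0 K (pB (c0 + K)) θ (u A) ε K') (hum : ∀ A S, Measurable fun η => u A η S)
    {Pl : Plan (Px Q) k} (hMg : Marg Pl) (hSt : Sat (pB (c0 + K)) Pl) {Ψ : Env × Finset ℕ → (Fin k → Px Q) → ℝ}
    (h0 : ∀ ω x, 0 ≤ Ψ ω x) (hΛ : ∀ ω x, Ψ ω x ≤ (N : ℝ) ^ K') (hm : ∀ x A, Measurable fun η => Ψ (η, A) x)
    (hΨ : ∀ ω, ∀ x x' : Fin k → Px Q, (∀ i, pB (c0 + K) (x i) = pB (c0 + K) (x' i)) → Ψ ω x = Ψ ω x')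
    (hb : ∀ A, ∀ η ζ : Env, (∀ q, q ∉ slb c0 K → ζ q = η q) → ∀ x, Ψ (η, A) x = Ψ (ζ, A) x) :
    ∫ ω, ev Pl (fun S => lw μ s ω.1 N Q S + u ω.2 ω.1 S) (Ψ ω) ∂(Pm μ N) ≤
      (N : ℝ) ^ ε * (∫ ω, ev Pl (wm μ s N Q ω) (Ψ ω) ∂(Pm μ N) + (N : ℝ) ^ (-K')) := by
  have h := E0X.pm hE hum hMg hSt MeasurableSet.univ h0 hΛ h0 hΛ hm hm hΨ
    (fun A η _ ζ hζ _ x => (hb A η ζ hζ x).le)
  rw [Set.compl_univ, measure_empty, ENNReal.toReal_zero, mul_zero, add_zero] at h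
  exact h

/-- The assumptions on the spectator. -/
structure Sp72 (Q : Finset (Finset ℕ)) (c : ℕ) (D : ℝ) (c0 K : ℕ) (f : Env × Finset ℕ → Px Q → ℝ) : Prop where
  meas : ∀ S, Measurable fun ω => f ω S
  bdd : ∀ ω S, |f ω S| ≤ D
  rk : ∀ ω, Rk c (f ω)
  blind : ∀ A, ∀ η ζ : Env, (∀ q, q ∉ slb c0 K → ζ q = η q) → f (η, A) = f (ζ, A)

theorem meas_chi3 {L f : Env × Finset ℕ → Px Q → ℝ} (hL : ∀ S, Measurable fun ω => L ω S)
    (hf : ∀ S, Measurable fun ω => f ω S) (x : Fin 3 → Px Q) :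
    Measurable fun ω => chi3 a0 z z' c (L ω) (f ω) x := by
  unfold chi3
  exact ((hL _).mul_const _).mul ((((hf _).sub (hf _)).abs).mul_const _)

/-- Measurability for fixed signs. -/
theorem meas_fix {Φ : Env × Finset ℕ → ℝ} (h : Measurable Φ) (A : Finset ℕ) : Measurable fun η => Φ (η, A) :=
  h.comp (meas_pair A)

/-- **The own pair at the corner.** -/
theorem e0_XT (hE : ∀ A, E0X μ s 3 N Q c0 K (pB (c0 + K)) θ (u A) ε K') (hum : ∀ S, Measurable fun ω : Env × Finset ℕ => u ω.2 ω.1 S)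
    (h1 : c0 + K ≤ a0) (h2 : a0 ≤ z) (h3 : z ≤ z') (h4 : z' ≤ c) {D : ℝ} {f : Env × Finset ℕ → Px Q → ℝ}
    (hf : Sp72 Q c D c0 K f) (hD : 2 * D ≤ (N : ℝ) ^ K') :
    ∫ ω, XT (fun S => lw μ s ω.1 N Q S + u ω.2 ω.1 S) a0 z z' c (f ω) ∂(Pm μ N) ≤
      (N : ℝ) ^ ε * (∫ ω, XT (wm μ s N Q ω) a0 z z' c (f ω) ∂(Pm μ N) + (N : ℝ) ^ (-K')) := by
  refine e0_planT hE (fun A S => meas_fix (hum S) A) (marg_P3 _) (sat_P3 (by omega))
    (Ψ := fun ω => chi3 a0 z z' c (fun _ => 1) (f ω))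
    (fun ω x => chi3_nonneg (fun _ => zero_le_one) _ x) (fun ω x => ?_) (fun x A => ?_)
    (fun ω x x' h => chi3_pB h1 h2 h3 h4 (fun _ _ _ => rfl) (hf.rk ω) x x' h) fun A η ζ h x => ?_
  · exact (chi3_le (fun _ => zero_le_one) (fun _ => le_rfl) (hf.bdd ω) x).trans (by rw [one_mul]; exact hD)
  · exact meas_fix (meas_chi3 (L := fun _ _ => 1) (fun _ => measurable_const) hf.meas x) A
  · show chi3 a0 z z' c (fun _ => 1) (f (η, A)) x = chi3 a0 z z' c (fun _ => 1) (f (ζ, A)) x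
    rw [hf.blind A η ζ h]

open Classical in
/-- The indicator of an event. -/
def ind72 (T : Env × Finset ℕ → Px Q → Prop) (ω : Env × Finset ℕ) (S : Px Q) : ℝ := if T ω S then 1 else 0

theorem ind72_nonneg (T : Env × Finset ℕ → Px Q → Prop) (ω : Env × Finset ℕ) (S : Px Q) : 0 ≤ ind72 T ω S := by
  unfold ind72
  split_ifs <;> norm_num

theorem ind72_le_one (T : Env × Finset ℕ → Px Q → Prop) (ω : Env × Finset ℕ) (S : Px Q) : ind72 T ω S ≤ 1 := by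
  unfold ind72
  split_ifs <;> norm_num

/-- A robust event, told from a path through what is behind the slab of the passage. -/
structure Rb72 (Q : Finset (Finset ℕ)) (c0 K : ℕ) (θ : ℝ) (T T' : Env × Finset ℕ → Px Q → Prop) : Prop where
  meas : ∀ S, MeasurableSet {ω | T ω S}
  meas' : ∀ S, MeasurableSet {ω | T' ω S}
  beh : ∀ ω S S', pB (c0 + K) S = pB (c0 + K) S' → (T ω S ↔ T ω S')
  rob : ∀ A η ζ, (∀ q, q ∉ slb c0 K → ζ q = η q) → (∀ q, |ζ q - η q| ≤ θ) → ∀ S, T (η, A) S → T' (ζ, A) S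

theorem meas_ind72 {T : Env × Finset ℕ → Px Q → Prop} (h : ∀ S, MeasurableSet {ω | T ω S}) (S : Px Q) :
    Measurable fun ω => ind72 T ω S := by
  classical
  unfold ind72
  exact Measurable.ite (h S) measurable_const measurable_const

/-- **The own pair with an event, at the corner.** -/
theorem e0_ind (hE : ∀ A, E0X μ s 3 N Q c0 K (pB (c0 + K)) θ (u A) ε K') (hum : ∀ S, Measurable fun ω : Env × Finset ℕ => u ω.2 ω.1 S)
    (h1 : c0 + K ≤ a0) (h2 : a0 ≤ z) (h3 : z ≤ z') (h4 : z' ≤ c) {D : ℝ} {f : Env × Finset ℕ → Px Q → ℝ}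
    (hf : Sp72 Q c D c0 K f) (hD : 2 * D ≤ (N : ℝ) ^ K') {T T' : Env × Finset ℕ → Px Q → Prop} (hT : Rb72 Q c0 K θ T T') :
    ∫ ω, ev (P3 (pJ 0 z')) (fun S => lw μ s ω.1 N Q S + u ω.2 ω.1 S) (chi3 a0 z z' c (ind72 T ω) (f ω)) ∂(Pm μ N) ≤
      (N : ℝ) ^ ε * (∫ ω, ev (P3 (pJ 0 z')) (wm μ s N Q ω) (chi3 a0 z z' c (ind72 T' ω) (f ω)) ∂(Pm μ N) +
        (N : ℝ) ^ (-K')) := by
  have b1 : ∀ (T : Env × Finset ℕ → Px Q → Prop) ω x, chi3 a0 z z' c (ind72 T ω) (f ω) x ≤ (N : ℝ) ^ K' := fun T ω x =>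
    (chi3_le (fun S => ind72_nonneg T ω S) (fun S => ind72_le_one T ω S) (hf.bdd ω) x).trans (by rw [one_mul]; exact hD)
  have h := E0X.pm hE (fun A S => meas_fix (hum S) A) (marg_P3 (pJ (Q := Q) 0 z')) (sat_P3 (by omega)) MeasurableSet.univ
    (Ψ := fun ω => chi3 a0 z z' c (ind72 T ω) (f ω)) (Ψ' := fun ω => chi3 a0 z z' c (ind72 T' ω) (f ω))
    (fun ω x => chi3_nonneg (fun S => ind72_nonneg T ω S) _ x) (b1 T) (fun ω x => chi3_nonneg (fun S => ind72_nonneg T' ω S) _ x)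
    (b1 T') (fun x A => meas_fix (meas_chi3 (L := ind72 T) (meas_ind72 hT.meas) hf.meas x) A)
    (fun x A => meas_fix (meas_chi3 (L := ind72 T') (meas_ind72 hT.meas') hf.meas x) A)
    (fun ω x x' h => chi3_pB h1 h2 h3 h4 (fun S S' e => by
      unfold ind72
      rw [show T ω S = T ω S' from propext (hT.beh ω S S' e)]) (hf.rk ω) x x' h) (fun A η _ ζ hζ hθ x => ?_)
  · rw [Set.compl_univ, measure_empty, ENNReal.toReal_zero, mul_zero, add_zero] at h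
    exact h
  · show chi3 a0 z z' c (ind72 T (η, A)) (f (η, A)) x ≤ chi3 a0 z z' c (ind72 T' (ζ, A)) (f (ζ, A)) x
    rw [← hf.blind A η ζ hζ]
    refine chi3_mono (fun S => ?_) _ x
    unfold ind72
    by_cases h5 : T (η, A) S
    · rw [if_pos h5, if_pos (hT.rob A η ζ hζ hθ S h5)]
    · rw [if_neg h5]
      split_ifs <;> norm_num

/-- **The micro terms at the corner**: `|κ| ≤ a 1[T] + e`. -/
theorem e0_mic (hE : ∀ A, E0X μ s 3 N Q c0 K (pB (c0 + K)) θ (u A) ε K') (hum : ∀ S, Measurable fun ω : Env × Finset ℕ => u ω.2 ω.1 S)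
    {h : ℕ} (h1 : c0 + K ≤ h) (h2 : h ≤ z) (h3 : z ≤ z') (h4 : z' ≤ c) {D : ℝ} (hD0 : 0 ≤ D)
    {f : Env × Finset ℕ → Px Q → ℝ} (hf : Sp72 Q c D c0 K f) (hD : 2 * D ≤ (N : ℝ) ^ K')
    {T T' : Env × Finset ℕ → Px Q → Prop} (hT : Rb72 Q c0 K θ T T')
    {κ b : Env × Finset ℕ → Px Q → ℝ} {M a e : ℝ} (ha : 0 ≤ a) (he : 0 ≤ e) (hM0 : 0 ≤ M)
    (hw : ∀ ω : Env × Finset ℕ, HdAll h (fun S => lw μ s ω.1 N Q S + u ω.2 ω.1 S)) (hκ : ∀ ω, Lk 0 h (κ ω))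
    (hb : ∀ ω, Lk 0 h (b ω)) (hM : ∀ ω S, |b ω S| ≤ M) (hκT : ∀ ω S, |κ ω S| ≤ a * ind72 T ω S + e) :
    ∫ ω, |fT72 (pJ 0 z') (pJ 0 z) (κ ω) (b ω) (f ω) (fun S => lw μ s ω.1 N Q S + u ω.2 ω.1 S)| ∂(Pm μ N) ≤
      2 * M * (a * ((N : ℝ) ^ ε * (∫ ω, ev (P3 (pJ 0 z')) (wm μ s N Q ω) (chi3 h z z' c (ind72 T' ω) (f ω)) ∂(Pm μ N) +
        (N : ℝ) ^ (-K'))) + e * (2 * D)) := by
  have hwm : ∀ S : Px Q, Measurable fun ω : Env × Finset ℕ => lw μ s ω.1 N Q S + u ω.2 ω.1 S := fun S =>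
    ((meas_lw S).comp measurable_fst).add (hum S)
  have hint : Integrable (fun ω : Env × Finset ℕ => ev (P3 (pJ 0 z')) (fun S => lw μ s ω.1 N Q S + u ω.2 ω.1 S)
      (chi3 h z z' c (ind72 T ω) (f ω))) (Pm μ N) := by
    refine int_bdd (M := 1 * (2 * D)) (meas_evP hwm _ fun x => meas_chi3 (L := ind72 T) (meas_ind72 hT.meas) hf.meas x)
      fun ω => ?_
    rw [abs_of_nonneg (ev_nonneg _ _ fun x => chi3_nonneg (fun S => ind72_nonneg T ω S) _ x)]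
    exact Pool.W7d29a1.C0.H7.ev_le_const _ _ fun x => chi3_le (fun S => ind72_nonneg T ω S)
      (fun S => ind72_le_one T ω S) (hf.bdd ω) x
  have hpt : ∀ ω : Env × Finset ℕ, |fT72 (pJ 0 z') (pJ 0 z) (κ ω) (b ω) (f ω) (fun S => lw μ s ω.1 N Q S + u ω.2 ω.1 S)| ≤
      2 * M * (a * ev (P3 (pJ 0 z')) (fun S => lw μ s ω.1 N Q S + u ω.2 ω.1 S) (chi3 h z z' c (ind72 T ω) (f ω)) +
        e * (2 * D)) := fun ω => by
    refine (abs_fT72_le3 (hw ω) h2 h3 h4 (hκ ω) (hb ω) (hM ω) (hf.rk ω)).trans ?_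
    refine mul_le_mul_of_nonneg_left ?_ (by positivity)
    rw [← ev_smul]
    refine (ev_mono _ _ (Φ := fun x => a * chi3 h z z' c (ind72 T ω) (f ω) x + e * (2 * D)) fun x => ?_).trans (le_of_eq ?_)
    · have h5 : chi3 h z z' c (fun S => |κ ω S|) (f ω) x ≤
          a * chi3 h z z' c (ind72 T ω) (f ω) x + e * chi3 h z z' c (fun _ => 1) (f ω) x := by
        refine (chi3_mono (hκT ω) (f ω) x).trans (le_of_eq ?_)
        unfold chi3
        ring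
      have h6 := chi3_le (a0 := h) (z := z) (z' := z') (c := c) (L := fun _ : Px Q => (1 : ℝ)) (f := f ω)
        (fun _ => zero_le_one) (fun _ => le_rfl) (hf.bdd ω) x
      rw [one_mul] at h6
      linarith [mul_le_mul_of_nonneg_left h6 he]
    · rw [ev_add, Pool.W7d29a1.C0.I52.ev_const]
  have hI : Integrable (fun ω : Env × Finset ℕ => 2 * M * (a * ev (P3 (pJ 0 z')) (fun S => lw μ s ω.1 N Q S + u ω.2 ω.1 S)
      (chi3 h z z' c (ind72 T ω) (f ω)) + e * (2 * D))) (Pm μ N) :=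
    ((hint.const_mul a).add (integrable_const _)).const_mul _
  refine (integral_mono_of_nonneg (Filter.Eventually.of_forall fun ω => abs_nonneg _) hI
    (Filter.Eventually.of_forall hpt)).trans ?_
  rw [integral_const_mul, integral_add (hint.const_mul a) (integrable_const _), integral_const_mul, integral_const]
  have h7 := e0_ind hE hum h1 h2 h3 h4 hf hD hT
  have h8 : (Pm μ N).real Set.univ = 1 := by
    rw [measureReal_def, measure_univ, ENNReal.toReal_one]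
  rw [h8, smul_eq_mul, one_mul]
  refine mul_le_mul_of_nonneg_left ?_ (by positivity)
  linarith [mul_le_mul_of_nonneg_left h7 ha]

end E0

end

end Pool.Agent.W_7d29a1_C0.T72
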