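import Pool.Agent.W_7d29a1_C0.Rob43B
import Pool.Agent.W_7d29a1_C0.GwJ50
import Pool.Agent.W_7d29a1_C0.TE72

/-!
MP_7d29a1_pr, [CURV0] / [C0], leaf (T): THE ROBUST EVENTS OF THE MICRO TERMS. (helper50)

`cE_ev`, `cE2_ev`: a mass at the log weight `w + A`, `|A| ≤ D`, is at most the indicator of a mass `≥ exp (- t)` at `w` plus
`exp (2 D - t)`, `exp (4 D - t)`. `abs_cC_le_two`: the conditional covariance is at most `G` times the mean of `|f z - f z'|`.
`GW1`: the half response `gj` of the window of the row `j` for two paths in the cone (`GwW.gw1` from `gw50`); it is blind on the slabs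
behind the window (`gw1_blind`). `TauM`: one of the two sides of the window of the row `j` is a near tie (`Tau` of `Rob43B`), `NCn`: the
conditional mass of the paths which are not in the cone is not small, `BadT`: `TauM` or `NCn` or not `GW1`. **`mic_ev`**: for EVERY
environment, `|cC w p (gj ..) γ S| ≤ G (B 1[BadT] + e)`, `w` at distance at most `D` of `lw`. **`rb_bad`**: `BadT` is robust (`Rb72`).
-/

set_option autoImplicit false
set_option linter.unusedSectionVars false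

namespace Pool.Agent.W_7d29a1_C0.EvT50

open Finset MeasureTheory Pool.Agent.W_7d29a1_F Pool.Agent.W_7d29a1_X Pool.Agent.W_7d29a1_C0.Mod92
open Pool.Agent.W_7d29a1_C0.Swap57
open Pool.W7d29a1.C0 (gz gm gm_mono gm_const gm_nonneg)
open Pool.W7d29a1.C0.VT31
open Pool.W7d29a1.C0.R43
open Pool.W7d29a1.C0.H27 (pB slb)
open Pool.Agent.W_7d29a1_C0.LocM18 (Cn)
open Pool.Agent.W_7d29a1_C0.GwA50 (GwW)
open Pool.Agent.W_7d29a1_C0.T72 (Rb72 crs_pB72)

noncomputable section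

/-! ### Finite Gibbs measures -/

section Gen

variable {X : Type*} [Fintype X] [Nonempty X] {Y Y' : Type*} [DecidableEq Y] [DecidableEq Y']

open Classical in
/-- A conditional mass at a tilted log weight. -/
theorem cE_ev {w A : X → ℝ} {D : ℝ} (hA : ∀ x, |A x| ≤ D) (p : X → Y) {f : X → ℝ} (h0 : ∀ x, 0 ≤ f x) (h1 : ∀ x, f x ≤ 1)
    (t : ℝ) (x : X) : cE (w + A) p f x ≤ (if Real.exp (-t) ≤ cE w p f x then 1 else 0) + Real.exp (2 * D - t) := by
  split_ifs with h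
  · have h2 : cE (w + A) p f x ≤ 1 := (cE_mono _ p h1 x).trans (le_of_eq (congrFun (cE_one _ _) x))
    linarith [(Real.exp_pos (2 * D - t)).le]
  · rw [not_le] at h
    have h2 := cE_tilt hA p h0 x (w := w)
    rw [zero_add, sub_eq_add_neg, Real.exp_add]
    exact h2.trans (mul_le_mul_of_nonneg_left h.le (Real.exp_pos _).le)

open Classical in
/-- A conditional mass of pairs at a tilted log weight. -/
theorem cE2_ev {w A : X → ℝ} {D : ℝ} (hA : ∀ x, |A x| ≤ D) (p : X → Y) {K : X → X → ℝ} (h0 : ∀ z z', 0 ≤ K z z')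
    (h1 : ∀ z z', K z z' ≤ 1) (t : ℝ) (x x' : X) :
    cE2 (w + A) p K x x' ≤ (if Real.exp (-t) ≤ cE2 w p K x x' then 1 else 0) + Real.exp (4 * D - t) := by
  split_ifs with h
  · linarith [(Real.exp_pos (4 * D - t)).le, cE2_le_one (w + A) p h1 x x']
  · rw [not_le] at h
    have h2 := cE2_tilt hA p h0 x x' (w := w)
    rw [zero_add, sub_eq_add_neg, Real.exp_add]
    exact h2.trans (mul_le_mul_of_nonneg_left h.le (Real.exp_pos _).le)

theorem cE2_diag (w : X → ℝ) (p : X → Y) (K : X → X → ℝ) (x : X) :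
    cE w p (fun z => cE w p (K z) z) x = cE2 w p K x x := by
  classical
  unfold cE2 cE
  congr 1
  refine sum_congr rfl fun z _ => ?_
  split_ifs with h
  · congr 1
    exact cE_meas w p (K z) _ _ h
  · rfl

theorem abs_cE_le (w : X → ℝ) (p : X → Y) {f h : X → ℝ} (hh : ∀ x, |f x| ≤ h x) (x : X) : |cE w p f x| ≤ cE w p h x := by
  rw [abs_le]
  constructor
  · rw [neg_le, ← Pi.neg_apply, ← cE_neg]
    exact cE_mono w p (fun v => by
      rw [Pi.neg_apply]
      linarith [(abs_le.1 (hh v)).1]) x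
  · exact cE_mono w p (fun v => (abs_le.1 (hh v)).2) x

/-- **The conditional covariance and two replicas.** -/
theorem abs_cC_le_two (w : X → ℝ) (p : X → Y) (f g : X → ℝ) {G : ℝ} (hG : ∀ x, |g x| ≤ G) (x : X) :
    |cC w p f g x| ≤ G * cE2 w p (fun z z' => |f z - f z'|) x x := by
  have hG0 : 0 ≤ G := (abs_nonneg _).trans (hG x)
  have h1 : cC w p f g = cE w p (g * (f - cE w p f)) := by
    have e0 : g * (f - cE w p f) = f * g - cE w p f * g := by ring
    rw [e0, cE_sub, cE_pull w (cE_meas w p f) g]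
    rfl
  have h2 : ∀ z, |f z - cE w p f z| ≤ cE w p (fun z' => |f z - f z'|) z := fun z => by
    have e1 : f z - cE w p f z = cE w p (fun z' => f z - f z') z := by
      have e2 : (fun z' => f z - f z') = f z • (fun _ : X => (1 : ℝ)) - f := by
        funext z'
        simp
      rw [e2, cE_sub, cE_smul, cE_one]
      simp
    rw [e1]
    exact abs_cE_le w p (fun _ => le_rfl) z
  rw [h1, ← cE2_diag]
  have h3 : cE w p (fun z => G * cE w p (fun z' => |f z - f z'|) z) x =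
      G * cE w p (fun z => cE w p (fun z' => |f z - f z'|) z) x :=
    congrFun (cE_smul w p G fun z => cE w p (fun z' => |f z - f z'|) z) x
  rw [← h3]
  refine abs_cE_le w p (fun z => ?_) x
  rw [Pi.mul_apply, Pi.sub_apply, abs_mul]
  exact mul_le_mul (hG z) (h2 z) (abs_nonneg _) hG0

/-- **A response for two outsides at a tilted log weight.** -/
theorem resp_ev {w A : X → ℝ} {D : ℝ} (hA : ∀ x, |A x| ≤ D) {p : X → Y} {q : X → Y'} (hc : Crs p q) {K : X → X → ℝ}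
    {g χ : X → ℝ} {L R e0 : ℝ} (hR : 0 ≤ R) (hL : 0 ≤ L)
    (h : ∀ x x', |g x - g x'| ≤ R * cE2 w q K x x' + e0 + L * (χ x + χ x')) {k1 k2 : ℝ} {x : X}
    (hK : cE2 w p K x x ≤ k1) (hχ : cE w p χ x ≤ k2) :
    cE2 (w + A) p (fun z z' => |g z - g z'|) x x ≤ Real.exp (4 * D) * (R * k1 + e0 + 2 * L * k2) := by
  refine (cE2_tilt hA p (fun _ _ => abs_nonneg _) x x).trans (mul_le_mul_of_nonneg_left ?_ (Real.exp_pos _).le)
  have h1 := cE2_mono w p (K := fun z z' => |g z - g z'|)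
    (K' := fun z z' => R * cE2 w q K z z' + (e0 * 1 + L * (χ z + χ z'))) (fun z z' => by have := h z z'; linarith) x x
  refine h1.trans ?_
  rw [cE2_add, cE2_mul, cE2_tower w hc, cE2_add, cE2_mul w p e0 (fun _ _ => 1), cE2_one, cE2_mul,
    cE2_add w p (fun z _ => χ z) (fun _ z' => χ z')]
  have e2 : cE2 w p (fun z _ => χ z) x x = cE w p χ x := by
    unfold cE2
    congr 1
    funext z
    have hh : Mp p (fun _ : X => χ z) := fun _ _ _ => rfl
    exact congrFun (cE_of_meas w hh) x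
  have e3 : cE2 w p (fun _ z' => χ z') x x = cE w p χ x := by
    unfold cE2
    have hh : Mp p (fun _ : X => cE w p χ x) := fun _ _ _ => rfl
    exact congrFun (cE_of_meas w hh) x
  rw [e2, e3]
  have h2 := mul_le_mul_of_nonneg_left hK hR
  have h3 := mul_le_mul_of_nonneg_left hχ hL
  linarith

/-- A function of the condition in the log weight does not change the conditional mean. -/
theorem cE_mp_add {w A : X → ℝ} {p : X → Y} (hA : Mp p A) (f : X → ℝ) (x : X) : cE (w + A) p f x = cE w p f x := by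
  unfold cE fz
  have e1 : ∀ x', (if p x' = p x then Real.exp ((w + A) x') * f x' else 0) =
      Real.exp (A x) * (if p x' = p x then Real.exp (w x') * f x' else 0) := fun x' => by
    split_ifs with h
    · rw [Pi.add_apply, Real.exp_add, hA _ _ h]
      ring
    · rw [mul_zero]
  have e2 : ∀ x', (if p x' = p x then Real.exp ((w + A) x') else 0) =
      Real.exp (A x) * (if p x' = p x then Real.exp (w x') else 0) := fun x' => by
    split_ifs with h
    · rw [Pi.add_apply, Real.exp_add, hA _ _ h]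
      ring
    · rw [mul_zero]
  rw [sum_congr rfl fun x' _ => e1 x', sum_congr rfl fun x' _ => e2 x', ← mul_sum, ← mul_sum,
    mul_div_mul_left _ _ (Real.exp_pos _).ne']

theorem cE2_mp_add {w A : X → ℝ} {p : X → Y} (hA : Mp p A) (K : X → X → ℝ) (x x' : X) :
    cE2 (w + A) p K x x' = cE2 w p K x x' := by
  unfold cE2
  rw [cE_mp_add hA]
  congr 1
  funext z
  exact cE_mp_add hA (K z) x'

theorem cE2_congr_p (w : X → ℝ) (p : X → Y) (K : X → X → ℝ) {x x' y y' : X} (h : p x = p y) (h' : p x' = p y') :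
    cE2 w p K x x' = cE2 w p K y y' := by
  unfold cE2
  rw [cE_meas w p _ _ _ h]
  congr 1
  funext z
  exact cE_meas w p _ _ _ h'

end Gen

/-! ### The response of a window -/

variable {μ : Measure ℝ} {s : ℝ} {N : ℕ} {Q : Finset (Finset ℕ)}

open Classical in
/-- The indicator of the paths which are not in the cone over the window of the row `j`. -/
def nC (μ : Measure ℝ) (s δ₁ : ℝ) (Q : Finset (Finset ℕ)) (b j : ℕ) (S : Px Q) : ℝ := if Cn μ s δ₁ (j - b) (j + b) S then 0 else 1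

theorem nC_nonneg (δ₁ : ℝ) (b j : ℕ) (S : Px Q) : 0 ≤ nC μ s δ₁ Q b j S := by
  unfold nC
  split_ifs <;> norm_num

theorem nC_le_one (δ₁ : ℝ) (b j : ℕ) (S : Px Q) : nC μ s δ₁ Q b j S ≤ 1 := by
  unfold nC
  split_ifs <;> norm_num

/-- The response of the window of the row `j` for two paths in the cone, both signs. -/
def GW1 (μ : Measure ℝ) (s : ℝ) (N : ℕ) (Q : Finset (Finset ℕ)) (δ δ₁ B R e0 : ℝ) (b j : ℕ) (η : Env) : Prop :=
  ∀ a : Bool, ∀ S S' : Px Q, Cn μ s δ₁ (j - b) (j + b) S → Cn μ s δ₁ (j - b) (j + b) S' →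
    |gj μ s η δ B b j (if a then 1 else -1) S - gj μ s η δ B b j (if a then 1 else -1) S'| ≤
      R * cE2 (lw μ s η N Q) (pJ (j - b) (j + b)) (NM (j - b) j j (j + b)) S S' + e0

theorem GwW.gw1 {κ δ δ₁ ε c' : ℝ} {η : Env} (h : GwW μ s N κ δ δ₁ ε c' η) [Nonempty (Px Q)] (hQ : Blk18.Full N Q) {b j : ℕ}
    (hj : j + b ≤ N) (h1 : (N : ℝ) ^ κ ≤ ((j - (j - b) : ℕ) : ℝ)) (h2 : (N : ℝ) ^ κ ≤ b) (B : ℝ) :
    GW1 μ s N Q δ δ₁ B (Real.exp ((N : ℝ) ^ ε)) (Real.exp (-(N : ℝ) ^ c')) b j η := by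
  intro a S S' hS hS'
  refine h.gj hQ hj h1 h2 B ?_ hS hS'
  split_ifs
  · exact Or.inl rfl
  · exact Or.inr rfl

theorem GW1.all {δ δ₁ B R e0 : ℝ} {b j : ℕ} {η : Env} (h : GW1 μ s N Q δ δ₁ B R e0 b j η) [Nonempty (Px Q)] (hB : 0 ≤ B)
    (hR : 0 ≤ R) (he : 0 ≤ e0) (A : Finset ℕ) (S S' : Px Q) : |gj μ s η δ B b j (sg A j) S - gj μ s η δ B b j (sg A j) S'| ≤
      R * cE2 (lw μ s η N Q) (pJ (j - b) (j + b)) (NM (j - b) j j (j + b)) S S' + e0 +
        B * (nC μ s δ₁ Q b j S + nC μ s δ₁ Q b j S') := by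
  have k1 : |gj μ s η δ B b j (sg A j) S - gj μ s η δ B b j (sg A j) S'| ≤ B := by
    have h1 := abs_gj (μ := μ) (s := s) (δ := δ) η hB (abs_sg A j).le b j S
    have h2 := abs_gj (μ := μ) (s := s) (δ := δ) η hB (abs_sg A j).le b j S'
    exact (abs_sub _ _).trans (by linarith)
  have k2 : 0 ≤ R * cE2 (lw μ s η N Q) (pJ (j - b) (j + b)) (NM (j - b) j j (j + b)) S S' :=
    mul_nonneg hR (cE2_nonneg _ _ (fun _ _ => NM_nonneg _ _ _ _ _ _) _ _)
  by_cases h1 : Cn μ s δ₁ (j - b) (j + b) S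
  · by_cases h2 : Cn μ s δ₁ (j - b) (j + b) S'
    · have h3 : |gj μ s η δ B b j (sg A j) S - gj μ s η δ B b j (sg A j) S'| ≤
          R * cE2 (lw μ s η N Q) (pJ (j - b) (j + b)) (NM (j - b) j j (j + b)) S S' + e0 := by
        have h4 := h (decide (j ∈ A)) S S' h1 h2
        have h5 : (if decide (j ∈ A) = true then (1 : ℤ) else -1) = sg A j := by
          unfold sg
          by_cases h6 : j ∈ A <;> simp [h6]
        rw [h5] at h4
        exact h4
      have h4 := mul_nonneg hB (add_nonneg (nC_nonneg (μ := μ) (s := s) δ₁ b j S) (nC_nonneg (μ := μ) (s := s) δ₁ b j S'))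
      linarith
    · have h3 : nC μ s δ₁ Q b j S' = 1 := if_neg h2
      have h4 := mul_nonneg hB (nC_nonneg (μ := μ) (s := s) δ₁ b j S)
      rw [h3]
      linarith
  · have h3 : nC μ s δ₁ Q b j S = 1 := if_neg h1
    have h4 := mul_nonneg hB (nC_nonneg (μ := μ) (s := s) δ₁ b j S')
    rw [h3]
    linarith

/-! ### Blindness -/

theorem lw_eq50 (η : Env) (S : Px Q) :
    lw μ s η N Q S = s * (ps S N : ℝ) - N * lam μ s + ∑ i ∈ range N, η ((i : ℤ) + 1, ps S (i + 1)) := by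
  unfold lw pth ps
  rw [← Real.exp_sum, ← Real.exp_add, Real.log_exp]

/-- The log weights at two environments which are equal up to the row `e`. -/
theorem lw_mp {η ζ : Env} {c e : ℕ} (h : ∀ q : Pt, q.1 ≤ (e : ℤ) → ζ q = η q) :
    Mp (pJ c e) (fun S : Px Q => lw μ s ζ N Q S - lw μ s η N Q S) := by
  intro S S' hS
  show lw μ s ζ N Q S - lw μ s η N Q S = lw μ s ζ N Q S' - lw μ s η N Q S'
  rw [lw_eq50, lw_eq50, lw_eq50, lw_eq50]
  have e1 : ∀ i ∈ range N, ζ ((i : ℤ) + 1, ps S (i + 1)) - η ((i : ℤ) + 1, ps S (i + 1)) =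
      ζ ((i : ℤ) + 1, ps S' (i + 1)) - η ((i : ℤ) + 1, ps S' (i + 1)) := fun i _ => by
    by_cases hi : i + 1 ≤ e
    · have hi' : ((i : ℤ) + 1) ≤ (e : ℤ) := by exact_mod_cast hi
      rw [h ((i : ℤ) + 1, ps S (i + 1)) hi', h ((i : ℤ) + 1, ps S' (i + 1)) hi', sub_self, sub_self]
    · rw [ps_of_ge hS (by omega)]
  have e2 := sum_congr rfl e1
  rw [sum_sub_distrib, sum_sub_distrib] at e2
  linarith

theorem gw_rows {η ζ : Env} {e : ℕ} (h : ∀ q : Pt, q.1 ≤ (e : ℤ) → ζ q = η q) (δ B : ℝ) (a : ℤ) {c' l k : ℕ} (hk : k ≤ l)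
    (hc : c' + l ≤ e) (x y : ℤ) : gw μ s ζ δ B a c' l k x y = gw μ s η δ B a c' l k x y := by
  have hW : ∀ (u : Pt) (n : ℕ) (z : ℤ), u.1 + n ≤ (e : ℤ) → W μ s ζ u n z = W μ s η u n z := fun u n z hu =>
    Pool.Agent.W_7d29a1_HZ.Z74.W_rows s u n z fun q _ hq => h q (by omega)
  have h1 : ∀ (p q : ℤ), Pool.Agent.W_7d29a1_Z74.ZJ μ s ζ ((c' : ℤ), x) k (l - k) p q =
      Pool.Agent.W_7d29a1_Z74.ZJ μ s η ((c' : ℤ), x) k (l - k) p q := fun p q => by
    unfold Pool.Agent.W_7d29a1_Z74.ZJ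
    refine sum_congr rfl fun z _ => ?_
    rw [hW _ _ _ (by simp only; omega), hW _ _ _ (by simp only; omega)]
  unfold gw lk
  rw [h1, hW _ _ _ (by simp only; omega)]

theorem gj_blind {η ζ : Env} {e : ℕ} (h : ∀ q : Pt, q.1 ≤ (e : ℤ) → ζ q = η q) (δ B : ℝ) {b j : ℕ} (hj : j + b ≤ e) (a : ℤ)
    (S : Px Q) : gj μ s ζ δ B b j a S = gj μ s η δ B b j a S := gw_rows h δ B a (by omega) (by omega) _ _

/-- **The event of the window is blind behind the window.** -/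
theorem gw1_blind [Nonempty (Px Q)] {η ζ : Env} {e : ℕ} (h : ∀ q : Pt, q.1 ≤ (e : ℤ) → ζ q = η q) {δ δ₁ B R e0 : ℝ} {b j : ℕ}
    (hj : j + b ≤ e) (hG : GW1 μ s N Q δ δ₁ B R e0 b j ζ) : GW1 μ s N Q δ δ₁ B R e0 b j η := by
  intro a S S' hS hS'
  have h1 := hG a S S' hS hS'
  have e1 : lw μ s ζ N Q = lw μ s η N Q + fun S => lw μ s ζ N Q S - lw μ s η N Q S := by
    funext T
    rw [Pi.add_apply]
    ring
  have hm : Mp (pJ (j - b) (j + b)) (fun S : Px Q => lw μ s ζ N Q S - lw μ s η N Q S) :=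
    lw_mp fun q hq => h q (hq.trans (by exact_mod_cast hj))
  rw [e1, cE2_mp_add hm, gj_blind h δ B hj, gj_blind h δ B hj] at h1
  exact h1

theorem slb_blind {c0 K : ℕ} {η ζ : Env} (h : ∀ q, q ∉ slb c0 K → ζ q = η q) (q : Pt) (hq : q.1 ≤ (c0 : ℤ)) : ζ q = η q := by
  refine h q fun hm => ?_
  have := (Pool.W7d29a1.C0.H27.mem_slb.1 hm).1.1
  omega

/-! ### The events -/

/-- One of the two sides of the window of the row `j` is a near tie, seen from the condition `p`. -/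
def TauM {Y : Type*} [DecidableEq Y] (w : Px Q → ℝ) (p : Px Q → Y) (b j : ℕ) (M : ℝ) (S : Px Q) : Prop :=
  Tau w p (j - b) j M S ∨ Tau w p j (j + b) M S

/-- The conditional mass of the paths which are not in the cone over the window is not small. -/
def NCn {Y : Type*} [DecidableEq Y] (μ : Measure ℝ) (s δ₁ : ℝ) (w : Px Q → ℝ) (p : Px Q → Y) (b j : ℕ) (t : ℝ) (S : Px Q) : Prop :=
  Real.exp (-t) ≤ cE w p (nC μ s δ₁ Q b j) S

/-- The event of the micro term of the row `j`, seen from behind the row `m`. -/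
def BadT (μ : Measure ℝ) (s : ℝ) (N : ℕ) (Q : Finset (Finset ℕ)) (δ δ₁ B R e0 : ℝ) (b j m : ℕ) (M t : ℝ) (ω : Env × Finset ℕ)
    (S : Px Q) : Prop :=
  TauM (wm μ s N Q ω) (pJ 0 m) b j M S ∨ NCn μ s δ₁ (wm μ s N Q ω) (pJ 0 m) b j t S ∨ ¬ GW1 μ s N Q δ δ₁ B R e0 b j ω.1

section Ev

variable [Nonempty (Px Q)] {Y : Type*} [DecidableEq Y] {δ δ₁ B R e0 M M' t t' D : ℝ} {b j m : ℕ}

theorem tau_tilt {w A : Px Q → ℝ} (hA : ∀ S, |A S| ≤ D) (p : Px Q → Y) (i k : ℕ) (hM : 5 * M + 4 * D ≤ 5 * M') {S : Px Q}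
    (h : Tau (w + A) p i k M S) : Tau w p i k M' S := by
  unfold Tau at h ⊢
  have h1 := cE2_tilt hA p (K := NI i k) (fun z z' => NI_nonneg i k z z') S S (w := w)
  have h2 : Real.exp (-(5 * M')) ≤ Real.exp (-(4 * D)) * Real.exp (-(5 * M)) := by
    rw [← Real.exp_add]
    exact Real.exp_le_exp.2 (by linarith)
  refine h2.trans ?_
  have h3 : Real.exp (-(4 * D)) * Real.exp (4 * D) = 1 := by rw [← Real.exp_add, neg_add_cancel, Real.exp_zero]
  calc Real.exp (-(4 * D)) * Real.exp (-(5 * M)) ≤ Real.exp (-(4 * D)) * (Real.exp (4 * D) * cE2 w p (NI i k) S S) :=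
        mul_le_mul_of_nonneg_left (h.trans h1) (Real.exp_pos _).le
    _ = _ := by rw [← mul_assoc, h3, one_mul]

theorem TauM.tilt {w A : Px Q → ℝ} (hA : ∀ S, |A S| ≤ D) {p : Px Q → Y} (hM : 5 * M + 4 * D ≤ 5 * M') {S : Px Q}
    (h : TauM (w + A) p b j M S) : TauM w p b j M' S :=
  h.imp (fun h => tau_tilt hA p _ _ hM h) fun h => tau_tilt hA p _ _ hM h

theorem NCn.tilt {w A : Px Q → ℝ} (hA : ∀ S, |A S| ≤ D) {p : Px Q → Y} (ht : t + 2 * D ≤ t') {S : Px Q}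
    (h : NCn μ s δ₁ (w + A) p b j t S) : NCn μ s δ₁ w p b j t' S := by
  unfold NCn at h ⊢
  have h1 := cE_tilt hA p (f := nC μ s δ₁ Q b j) (nC_nonneg δ₁ b j) S (w := w)
  have h2 : Real.exp (-t') ≤ Real.exp (-(2 * D)) * Real.exp (-t) := by
    rw [← Real.exp_add]
    exact Real.exp_le_exp.2 (by linarith)
  refine h2.trans ?_
  have h3 : Real.exp (-(2 * D)) * Real.exp (2 * D) = 1 := by rw [← Real.exp_add, neg_add_cancel, Real.exp_zero]
  calc Real.exp (-(2 * D)) * Real.exp (-t) ≤ Real.exp (-(2 * D)) * (Real.exp (2 * D) * cE w p (nC μ s δ₁ Q b j) S) :=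
        mul_le_mul_of_nonneg_left (h.trans h1) (Real.exp_pos _).le
    _ = _ := by rw [← mul_assoc, h3, one_mul]

/-- No near tie: the pairs which do not meet on both sides. -/
theorem cE2_NM_le {w : Px Q → ℝ} {p : Px Q → Y} {S : Px Q} (h : ¬ TauM w p b j M S) :
    cE2 w p (NM (j - b) j j (j + b)) S S ≤ 2 * Real.exp (-(5 * M)) := by
  unfold TauM Tau at h
  push Not at h
  have h1 := cE2_mono w p (K' := fun z z' => NI (j - b) j z z' + NI j (j + b) z z') (fun z z' => NM_le _ _ _ _ z z') S S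
  rw [cE2_add] at h1
  linarith [h.1, h.2]

/-- **THE MICRO TERM FOR EVERY ENVIRONMENT.** -/
theorem mic_ev {ω : Env × Finset ℕ} {A : Px Q → ℝ} (hA : ∀ S, |A S| ≤ D) (hB : 0 ≤ B) (hR : 0 ≤ R) (he : 0 ≤ e0)
    (hm : j + b ≤ m) {γ : Px Q → ℝ} {G : ℝ} (hγ : ∀ S, |γ S| ≤ G) (S : Px Q) :
    |cC (wm μ s N Q ω + A) (pJ 0 m) (gj μ s ω.1 δ B b j (sg ω.2 j)) γ S| ≤
      G * B * T72.ind72 (BadT μ s N Q δ δ₁ B R e0 b j m M t) ω S +
        G * (Real.exp (4 * D) * (R * (2 * Real.exp (-(5 * M))) + e0 + 2 * B * Real.exp (-t))) := by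
  have hG0 : 0 ≤ G := (abs_nonneg _).trans (hγ S)
  have h1 := abs_cC_le_two (wm μ s N Q ω + A) (pJ 0 m) (gj μ s ω.1 δ B b j (sg ω.2 j)) γ hγ S
  refine h1.trans ?_
  rw [mul_assoc G B, ← mul_add]
  refine mul_le_mul_of_nonneg_left ?_ hG0
  by_cases hT : BadT μ s N Q δ δ₁ B R e0 b j m M t ω S
  · have h2 : T72.ind72 (BadT μ s N Q δ δ₁ B R e0 b j m M t) ω S = 1 := if_pos hT
    rw [h2, mul_one]
    have h3 : cE2 (wm μ s N Q ω + A) (pJ 0 m)
        (fun z z' => |gj μ s ω.1 δ B b j (sg ω.2 j) z - gj μ s ω.1 δ B b j (sg ω.2 j) z'|) S S ≤ B := by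
      have h4 := cE2_mono (wm μ s N Q ω + A) (pJ 0 m) (K' := fun _ _ => B * 1) (fun z z' => by
        have h5 := abs_gj (μ := μ) (s := s) (δ := δ) ω.1 hB (abs_sg ω.2 j).le b j z
        have h6 := abs_gj (μ := μ) (s := s) (δ := δ) ω.1 hB (abs_sg ω.2 j).le b j z'
        exact (abs_sub _ _).trans (by linarith)) S S
        (K := fun z z' => |gj μ s ω.1 δ B b j (sg ω.2 j) z - gj μ s ω.1 δ B b j (sg ω.2 j) z'|)
      rw [cE2_mul _ _ B (fun _ _ => 1), cE2_one, mul_one] at h4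
      exact h4
    have h4 : 0 ≤ Real.exp (4 * D) * (R * (2 * Real.exp (-(5 * M))) + e0 + 2 * B * Real.exp (-t)) := by positivity
    linarith
  · have h2 : T72.ind72 (BadT μ s N Q δ δ₁ B R e0 b j m M t) ω S = 0 := if_neg hT
    rw [h2, mul_zero, zero_add]
    unfold BadT at hT
    push Not at hT
    obtain ⟨h3, h4, h5⟩ := hT
    exact resp_ev hA (p := pJ 0 m) (q := pJ (j - b) (j + b)) (crs_pJ (Nat.zero_le _) hm)
      (K := NM (j - b) j j (j + b)) (g := gj μ s ω.1 δ B b j (sg ω.2 j)) (χ := nC μ s δ₁ Q b j) (w := wm μ s N Q ω)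
      (x := S) hR hB (h5.all hB hR he ω.2) (cE2_NM_le h3) (not_le.1 h4).le

/-! ### Measurability, robustness -/

omit [Nonempty (Px Q)] in
theorem meas_cE2' {Ω : Type*} [MeasurableSpace Ω] {w : Ω → Px Q → ℝ} (hw : ∀ S, Measurable fun ω => w ω S) (p : Px Q → Y)
    (K : Px Q → Px Q → ℝ) (S S' : Px Q) : Measurable fun ω => cE2 (w ω) p K S S' :=
  meas_cE hw (f := fun ω z => cE (w ω) p (K z) S')
    (fun z => meas_cE hw (f := fun _ => K z) (fun _ => measurable_const) p S') p S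

omit [Nonempty (Px Q)] in
theorem meas_tauM (p : Px Q → Y) (b j : ℕ) (M : ℝ) (S : Px Q) :
    MeasurableSet {ω : Env × Finset ℕ | TauM (wm μ s N Q ω) p b j M S} := by
  have h : ∀ i k : ℕ, MeasurableSet {ω : Env × Finset ℕ | Tau (wm μ s N Q ω) p i k M S} := fun i k =>
    measurableSet_le measurable_const (meas_cE2' meas_wm p (NI i k) S S)
  exact (h _ _).union (h _ _)

omit [Nonempty (Px Q)] in
theorem meas_NCn (δ₁ : ℝ) (p : Px Q → Y) (b j : ℕ) (t : ℝ) (S : Px Q) :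
    MeasurableSet {ω : Env × Finset ℕ | NCn μ s δ₁ (wm μ s N Q ω) p b j t S} :=
  measurableSet_le measurable_const (meas_cE meas_wm (f := fun _ => nC μ s δ₁ Q b j) (fun _ => measurable_const) p S)

omit [Nonempty (Px Q)] in
theorem meas_GW1 (δ δ₁ B R e0 : ℝ) (b j : ℕ) : MeasurableSet {η : Env | GW1 μ s N Q δ δ₁ B R e0 b j η} := by
  have e : {η : Env | GW1 μ s N Q δ δ₁ B R e0 b j η} = ⋂ a : Bool, ⋂ S : Px Q, ⋂ S' : Px Q,
      {η : Env | Cn μ s δ₁ (j - b) (j + b) S → Cn μ s δ₁ (j - b) (j + b) S' →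
        |gj μ s η δ B b j (if a then 1 else -1) S - gj μ s η δ B b j (if a then 1 else -1) S'| ≤
          R * cE2 (lw μ s η N Q) (pJ (j - b) (j + b)) (NM (j - b) j j (j + b)) S S' + e0} := by
    ext η
    simp only [Set.mem_iInter]
    exact Iff.rfl
  rw [e]
  refine MeasurableSet.iInter fun a => MeasurableSet.iInter fun S => MeasurableSet.iInter fun S' => ?_
  by_cases h1 : Cn μ s δ₁ (j - b) (j + b) S
  · by_cases h2 : Cn μ s δ₁ (j - b) (j + b) S'
    · have h3 : MeasurableSet {η : Env | |gj μ s η δ B b j (if a then 1 else -1) S -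
          gj μ s η δ B b j (if a then 1 else -1) S'| ≤
          R * cE2 (lw μ s η N Q) (pJ (j - b) (j + b)) (NM (j - b) j j (j + b)) S S' + e0} := by
        have h4 : Measurable fun η : Env => |gj μ s η δ B b j (if a then 1 else -1) S -
            gj μ s η δ B b j (if a then 1 else -1) S'| := ((meas_gj δ B b j _ S).sub (meas_gj δ B b j _ S')).abs
        exact measurableSet_le h4 (((meas_cE2' meas_lw _ _ S S').const_mul R).add_const e0)
      refine h3.congr ?_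
      ext η
      exact ⟨fun h _ _ => h, fun h => h h1 h2⟩
    · refine MeasurableSet.univ.congr ?_
      ext η
      exact ⟨fun _ _ h => absurd h h2, fun _ => trivial⟩
  · refine MeasurableSet.univ.congr ?_
    ext η
    exact ⟨fun _ h => absurd h h1, fun _ => trivial⟩

omit [Nonempty (Px Q)] in
theorem meas_bad (δ δ₁ B R e0 : ℝ) (b j m : ℕ) (M t : ℝ) (S : Px Q) :
    MeasurableSet {ω | BadT μ s N Q δ δ₁ B R e0 b j m M t ω S} :=
  (meas_tauM (pJ 0 m) b j M S).union ((meas_NCn δ₁ (pJ 0 m) b j t S).union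
    ((meas_GW1 δ δ₁ B R e0 b j).preimage measurable_fst).compl)

/-- **THE EVENT OF THE MICRO TERM IS ROBUST.** -/
theorem rb_bad {c0 K : ℕ} {θ : ℝ} (hj : j + b ≤ c0) (hm : c0 + K ≤ m) (hD : 0 ≤ D) (hθ : θ ≤ D / K)
    (hM : 5 * M + 4 * D ≤ 5 * M') (ht : t + 2 * D ≤ t') :
    Rb72 Q c0 K θ (BadT μ s N Q δ δ₁ B R e0 b j m M t) (BadT μ s N Q δ δ₁ B R e0 b j m M' t') where
  meas S := meas_bad δ δ₁ B R e0 b j m M t S
  meas' S := meas_bad δ δ₁ B R e0 b j m M' t' S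
  beh ω S S' h := by
    have hp : pJ (Q := Q) 0 m S = pJ 0 m S' := crs_pB72 hm S S' h
    unfold BadT TauM NCn
    rw [tau_meas _ _ _ _ _ hp, tau_meas _ _ _ _ _ hp, cE_meas _ (pJ 0 m) _ _ _ hp]
  rob A η ζ h1 h2 S h := by
    have h3 : ∀ T : Px Q, |lw μ s η N Q T - lw μ s ζ N Q T| ≤ D := fun T => by
      rw [abs_sub_comm]
      exact Pool.W7d29a1.C0.H7.lw_near7 hD h1 (fun q => (h2 q).trans hθ) T
    have e1 : wm μ s N Q (η, A) = wm μ s N Q (ζ, A) + fun T => lw μ s η N Q T - lw μ s ζ N Q T := by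
      funext T
      rw [Pi.add_apply]
      unfold wm
      ring
    rcases h with h | h | h
    · rw [e1] at h
      exact Or.inl (h.tilt h3 hM)
    · rw [e1] at h
      exact Or.inr (Or.inl (h.tilt h3 ht))
    · refine Or.inr (Or.inr fun hG => h ?_)
      exact gw1_blind (slb_blind h1) hj hG

end Ev

/-! ### The micro terms at the corner -/

section Mic

open Pool.Agent.W_7d29a1_C0.T72 (Sp72 ind72 ind72_nonneg ind72_le_one e0_mic meas_ind72 meas_chi3 chi3_nonneg chi3_le marg_P3)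
open Pool.Agent.W_7d29a1_C0.CutT57 (chi3 P3)
open Pool.Agent.W_7d29a1_C0.NM82 (HdAll Rk Lk_mono markov_cC)
open Pool.W7d29a1.C0.T72 (fT72)
open Pool.W7d29a1.C0.H7 (E0X meas_evP)
open Pool.W7d29a1.C0.I52 (ev ev_mono ev_nonneg ev_smul ev_add ev_const)

variable [IsProbabilityMeasure μ]

/-- A functional of the environment only. -/
theorem int_fst {Φ : Env → ℝ} (hm : Measurable Φ) {M : ℝ} (hb : ∀ η, |Φ η| ≤ M) :
    ∫ ω, Φ ω.1 ∂(Pm μ N) = ∫ η, Φ η ∂(law μ) := by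
  have h1 : Integrable Φ (law μ) := Integrable.of_bound hm.aestronglyMeasurable M (Filter.Eventually.of_forall hb)
  rw [int_Pm (Φ := fun ω : Env × Finset ℕ => Φ ω.1) (fun A _ => h1) (fun A => hm)]
  show (2 ^ N : ℝ)⁻¹ * ∑ _A ∈ (range N).powerset, ∫ η, Φ η ∂(law μ) = _
  rw [sum_const, card_powerset, card_range, nsmul_eq_mul]
  push_cast
  rw [← mul_assoc, inv_mul_cancel₀ (by positivity), one_mul]

/-- The price of the paths out of the cone and of the bad environments. -/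
def rare50 (μ : Measure ℝ) (s : ℝ) (N : ℕ) (Q : Finset (Finset ℕ)) (δ δ₁ B R e0 : ℝ) (b j : ℕ) (t : ℝ) : ℝ :=
  Real.exp t * ∫ ω, gm (wm μ s N Q ω) (nC μ s δ₁ Q b j) ∂(Pm μ N) +
    (law μ {η | ¬ GW1 μ s N Q δ δ₁ B R e0 b j η}).toReal

variable [SwQ Q] [Nonempty (Px Q)] {c0 K : ℕ} {θ ε K' : ℝ} {u : Finset ℕ → Env → Px Q → ℝ}

open Classical in
/-- The plan of the own pair with the event of the micro term. -/
theorem bad_tau {δ δ₁ B R e0 M t : ℝ} {b j m h z z' c : ℕ} {F : ℝ} (hF0 : 0 ≤ F) {f : Env × Finset ℕ → Px Q → ℝ}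
    (hf : Sp72 Q c F c0 K f) :
    ∫ ω, ev (P3 (pJ 0 z')) (wm μ s N Q ω) (chi3 h z z' c (ind72 (BadT μ s N Q δ δ₁ B R e0 b j m M t) ω) (f ω)) ∂(Pm μ N) ≤
      ∫ ω, ev (P3 (pJ 0 z')) (wm μ s N Q ω)
        (chi3 h z z' c (ind72 (fun ω => TauM (wm μ s N Q ω) (pJ 0 m) b j M) ω) (f ω)) ∂(Pm μ N) +
      2 * F * rare50 μ s N Q δ δ₁ B R e0 b j t := by
  set T1 : Env × Finset ℕ → Px Q → Prop := fun ω => TauM (wm μ s N Q ω) (pJ 0 m) b j M with hT1
  set T2 : Env × Finset ℕ → Px Q → Prop := fun ω => NCn μ s δ₁ (wm μ s N Q ω) (pJ 0 m) b j t with hT2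
  set T0 : Env × Finset ℕ → Px Q → Prop := BadT μ s N Q δ δ₁ B R e0 b j m M t with hT0
  set i3 : Env → ℝ := fun η => if GW1 μ s N Q δ δ₁ B R e0 b j η then 0 else 1 with hi3
  have i30 : ∀ η, 0 ≤ i3 η := fun η => by
    simp only [hi3]
    split_ifs <;> norm_num
  have i31 : ∀ η, i3 η ≤ 1 := fun η => by
    simp only [hi3]
    split_ifs <;> norm_num
  have hmi : Measurable i3 := Measurable.ite (meas_GW1 δ δ₁ B R e0 b j) measurable_const measurable_const
  have hmT1 : ∀ S, MeasurableSet {ω | T1 ω S} := fun S => meas_tauM _ _ _ _ S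
  have hmT2 : ∀ S, MeasurableSet {ω | T2 ω S} := fun S => meas_NCn _ _ _ _ _ S
  have hmT0 : ∀ S, MeasurableSet {ω | T0 ω S} := fun S => meas_bad _ _ _ _ _ _ _ _ _ _ S
  have hind : ∀ ω S, ind72 T0 ω S ≤ ind72 T1 ω S + (ind72 T2 ω S + i3 ω.1) := fun ω S => by
    have a1 := ind72_nonneg T1 ω S
    have a2 := ind72_nonneg T2 ω S
    have a3 := i30 ω.1
    by_cases h0 : T0 ω S
    · have e0 : ind72 T0 ω S = 1 := if_pos h0
      rw [e0]
      rcases h0 with h1 | h1 | h1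
      · have e1 : ind72 T1 ω S = 1 := if_pos h1
        linarith
      · have e1 : ind72 T2 ω S = 1 := if_pos h1
        linarith
      · have e1 : i3 ω.1 = 1 := if_neg h1
        linarith
    · have e0 : ind72 T0 ω S = 0 := if_neg h0
      rw [e0]
      linarith
  have hpt : ∀ ω, ev (P3 (pJ 0 z')) (wm μ s N Q ω) (chi3 h z z' c (ind72 T0 ω) (f ω)) ≤
      ev (P3 (pJ 0 z')) (wm μ s N Q ω) (chi3 h z z' c (ind72 T1 ω) (f ω)) +
        (2 * F * (Real.exp t * gm (wm μ s N Q ω) (nC μ s δ₁ Q b j)) + 2 * F * i3 ω.1) := fun ω => by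
    have h1 : ∀ x : Fin 3 → Px Q, chi3 h z z' c (ind72 T0 ω) (f ω) x ≤ chi3 h z z' c (ind72 T1 ω) (f ω) x +
        (2 * F * ind72 T2 ω (x 2) + 2 * F * i3 ω.1) := fun x => by
      have h2 : 0 ≤ NI h z (x 2) (x 1) * (|f ω (x 2) - f ω (x 0)| * NI z' c (x 2) (x 0)) :=
        mul_nonneg (NI_nonneg _ _ _ _) (mul_nonneg (abs_nonneg _) (NI_nonneg _ _ _ _))
      have h3 : NI h z (x 2) (x 1) * (|f ω (x 2) - f ω (x 0)| * NI z' c (x 2) (x 0)) ≤ 2 * F := by
        have h4 := chi3_le (a0 := h) (z := z) (z' := z') (c := c) (L := fun _ : Px Q => (1 : ℝ)) (f := f ω)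
          (fun _ => zero_le_one) (fun _ => le_rfl) (hf.bdd ω) x
        unfold chi3 at h4
        linarith
      have h5 : ∀ L : Px Q → ℝ, chi3 h z z' c L (f ω) x =
          L (x 2) * (NI h z (x 2) (x 1) * (|f ω (x 2) - f ω (x 0)| * NI z' c (x 2) (x 0))) := fun L => by
        unfold chi3
        ring
      rw [h5, h5]
      have h6 := mul_le_mul_of_nonneg_right (hind ω (x 2)) h2
      have h7 : (ind72 T2 ω (x 2) + i3 ω.1) * (NI h z (x 2) (x 1) * (|f ω (x 2) - f ω (x 0)| * NI z' c (x 2) (x 0))) ≤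
          (ind72 T2 ω (x 2) + i3 ω.1) * (2 * F) :=
        mul_le_mul_of_nonneg_left h3 (add_nonneg (ind72_nonneg _ _ _) (i30 _))
      rw [add_mul] at h6
      linarith
    refine (ev_mono _ _ h1).trans ?_
    rw [ev_add, ev_add _ _ (fun x : Fin 3 → Px Q => 2 * F * ind72 T2 ω (x 2)) (fun _ => 2 * F * i3 ω.1), ev_smul, ev_const,
      Pool.W7d29a1.C0.H7.Marg.ev (marg_P3 (pJ (Q := Q) 0 z')) 2 (wm μ s N Q ω) (ind72 T2 ω)]
    have h8 : gm (wm μ s N Q ω) (ind72 T2 ω) ≤ Real.exp t * gm (wm μ s N Q ω) (nC μ s δ₁ Q b j) := by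
      have h9 : gm (wm μ s N Q ω) (Real.exp t • cE (wm μ s N Q ω) (pJ 0 m) (nC μ s δ₁ Q b j)) =
          Real.exp t * gm (wm μ s N Q ω) (nC μ s δ₁ Q b j) := by
        rw [Pool.W7d29a1.C0.gm_smul, gm_cE]
      rw [← h9]
      refine gm_mono _ fun S => ?_
      rw [Pi.smul_apply, smul_eq_mul]
      have h10 : 0 ≤ cE (wm μ s N Q ω) (pJ 0 m) (nC μ s δ₁ Q b j) S := cE_nonneg _ _ (nC_nonneg δ₁ b j) S
      by_cases h11 : T2 ω S
      · have e1 : ind72 T2 ω S = 1 := if_pos h11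
        rw [e1]
        have h12 : Real.exp t * Real.exp (-t) = 1 := by rw [← Real.exp_add, add_neg_cancel, Real.exp_zero]
        rw [← h12]
        exact mul_le_mul_of_nonneg_left h11 (Real.exp_pos _).le
      · have e1 : ind72 T2 ω S = 0 := if_neg h11
        rw [e1]
        exact mul_nonneg (Real.exp_pos _).le h10
    have h13 := mul_le_mul_of_nonneg_left h8 (by positivity : 0 ≤ 2 * F)
    linarith
  have bch : ∀ (T : Env × Finset ℕ → Px Q → Prop) ω, |ev (P3 (pJ 0 z')) (wm μ s N Q ω) (chi3 h z z' c (ind72 T ω) (f ω))| ≤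
      1 * (2 * F) := fun T ω => by
    rw [abs_of_nonneg (ev_nonneg _ _ fun x => chi3_nonneg (fun S => ind72_nonneg T ω S) _ x)]
    exact Pool.W7d29a1.C0.H7.ev_le_const _ _ fun x => chi3_le (fun S => ind72_nonneg T ω S)
      (fun S => ind72_le_one T ω S) (hf.bdd ω) x
  have hint : ∀ T : Env × Finset ℕ → Px Q → Prop, (∀ S, MeasurableSet {ω | T ω S}) → Integrable (fun ω : Env × Finset ℕ =>
      ev (P3 (pJ 0 z')) (wm μ s N Q ω) (chi3 h z z' c (ind72 T ω) (f ω))) (Pm μ N) := fun T hT =>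
    int_bdd (meas_evP meas_wm _ fun x => meas_chi3 (L := ind72 T) (meas_ind72 hT) hf.meas x) (bch T)
  have hintC : Integrable (fun ω : Env × Finset ℕ => gm (wm μ s N Q ω) (nC μ s δ₁ Q b j)) (Pm μ N) :=
    int_bdd (M := 1) (meas_gm meas_wm fun S => measurable_const) fun ω => by
      rw [abs_of_nonneg (gm_nonneg _ (nC_nonneg δ₁ b j))]
      exact (gm_mono _ (g := fun _ => 1) (nC_le_one δ₁ b j)).trans (gm_const _ _).le
  have hinti : Integrable (fun ω : Env × Finset ℕ => i3 ω.1) (Pm μ N) :=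
    int_bdd (M := 1) (hmi.comp measurable_fst) fun ω => by
      rw [abs_of_nonneg (i30 _)]
      exact i31 _
  have hI := integral_mono (hint T0 hmT0)
    ((hint T1 hmT1).add (((hintC.const_mul (Real.exp t)).const_mul (2 * F)).add (hinti.const_mul (2 * F)))) hpt
  refine hI.trans (le_of_eq ?_)
  have e1 := integral_add (hint T1 hmT1)
    (((hintC.const_mul (Real.exp t)).const_mul (2 * F)).add (hinti.const_mul (2 * F)))
  have e2 := integral_add ((hintC.const_mul (Real.exp t)).const_mul (2 * F)) (hinti.const_mul (2 * F))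
  simp only [Pi.add_apply] at e1 ⊢
  rw [e1, e2, integral_const_mul, integral_const_mul, integral_const_mul,
    int_fst (Φ := i3) hmi (M := 1) (fun η => by rw [abs_of_nonneg (i30 _)]; exact i31 _)]
  have e3 : ∫ η, i3 η ∂(law μ) = (law μ {η | ¬ GW1 μ s N Q δ δ₁ B R e0 b j η}).toReal := by
    have e4 : i3 = Set.indicator {η | ¬ GW1 μ s N Q δ δ₁ B R e0 b j η} 1 := by
      funext η
      simp only [hi3, Set.indicator, Set.mem_ofPred_eq, Pi.one_apply]
      by_cases h1 : GW1 μ s N Q δ δ₁ B R e0 b j η <;> simp [h1]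
    have hms : MeasurableSet {η | ¬ GW1 μ s N Q δ δ₁ B R e0 b j η} := (meas_GW1 δ δ₁ B R e0 b j).compl
    rw [e4, integral_indicator_one hms]
    rfl
  rw [e3]
  unfold rare50
  ring

/-- **THE MICRO TERMS AT THE CORNER**: `κ` is the covariance, given everything behind the row `m`, of the response of the window of
the row `j` and of any bounded function. -/
theorem mic50 (hE : ∀ A, E0X μ s 3 N Q c0 K (pB (c0 + K)) θ (u A) ε K')
    (hum : ∀ S, Measurable fun ω : Env × Finset ℕ => u ω.2 ω.1 S) {Du : ℝ} (hu : ∀ A η S, |u A η S| ≤ Du)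
    {δ δ₁ B R e0 M M' t t' D : ℝ} {b j m h z z' c : ℕ} (hB : 0 ≤ B) (hR : 0 ≤ R) (he : 0 ≤ e0)
    (hj : j + b ≤ c0) (hm : c0 + K ≤ m) (h1 : m ≤ h) (h2 : h ≤ z) (h3 : z ≤ z') (h4 : z' ≤ c) {F : ℝ} (hF0 : 0 ≤ F)
    {f : Env × Finset ℕ → Px Q → ℝ} (hf : Sp72 Q c F c0 K f) (hF : 2 * F ≤ (N : ℝ) ^ K')
    (hD : 0 ≤ D) (hθ : θ ≤ D / K) (hM : 5 * M + 4 * D ≤ 5 * M') (ht : t + 2 * D ≤ t')
    {γ b' : Env × Finset ℕ → Px Q → ℝ} {G Mb : ℝ} (hG0 : 0 ≤ G) (hMb : 0 ≤ Mb) (hγ : ∀ ω S, |γ ω S| ≤ G)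
    (hb : ∀ ω S, |b' ω S| ≤ Mb) (hw : ∀ ω : Env × Finset ℕ, HdAll m (fun S => lw μ s ω.1 N Q S + u ω.2 ω.1 S))
    (hγL : ∀ ω, Lk 0 m (γ ω)) (hbL : ∀ ω, Lk 0 h (b' ω)) :
    ∫ ω, |fT72 (pJ 0 z') (pJ 0 z) (cC (fun S => lw μ s ω.1 N Q S + u ω.2 ω.1 S) (pJ 0 m)
        (gj μ s ω.1 δ B b j (sg ω.2 j)) (γ ω)) (b' ω) (f ω) (fun S => lw μ s ω.1 N Q S + u ω.2 ω.1 S)| ∂(Pm μ N) ≤
      2 * Mb * (G * B * ((N : ℝ) ^ ε * (∫ ω, ev (P3 (pJ 0 z')) (wm μ s N Q ω)
          (chi3 h z z' c (ind72 (fun ω => TauM (wm μ s N Q ω) (pJ 0 m) b j M') ω) (f ω)) ∂(Pm μ N) +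
        2 * F * rare50 μ s N Q δ δ₁ B R e0 b j t' + (N : ℝ) ^ (-K'))) +
        G * (Real.exp (4 * Du) * (R * (2 * Real.exp (-(5 * M))) + e0 + 2 * B * Real.exp (-t))) * (2 * F)) := by
  have hg : ∀ ω : Env × Finset ℕ, Lk 0 m (gj (Q := Q) μ s ω.1 δ B b j (sg ω.2 j)) := fun ω => by
    intro S S' hS
    unfold gj
    rw [hS _ (Nat.zero_le _) (by omega), hS _ (Nat.zero_le _) (by omega)]
  have h5 := e0_mic hE hum (h := h) (by omega) h2 h3 h4 hF0 hf hF
    (rb_bad (μ := μ) (s := s) (N := N) (Q := Q) (δ := δ) (δ₁ := δ₁) (B := B) (R := R) (e0 := e0) (j := j) hj hm hD hθ hM ht)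
    (κ := fun ω => cC (fun S => lw μ s ω.1 N Q S + u ω.2 ω.1 S) (pJ 0 m) (gj μ s ω.1 δ B b j (sg ω.2 j)) (γ ω))
    (b := b') (M := Mb) (a := G * B) (e := G * (Real.exp (4 * Du) * (R * (2 * Real.exp (-(5 * M))) + e0 + 2 * B * Real.exp (-t))))
    (mul_nonneg hG0 hB) (by positivity) hMb (fun ω k v hk hv => hw ω k v (h1.trans hk) hv)
    (fun ω => Lk_mono (Nat.zero_le _) h1 (markov_cC (hw ω m m le_rfl le_rfl) (hg ω) (hγL ω))) hbL hb
    (fun ω S => mic_ev (A := fun S => u ω.2 ω.1 S) (fun S => hu _ _ S) hB hR he (by omega) (hγ ω) S)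
  refine h5.trans (mul_le_mul_of_nonneg_left ?_ (by positivity))
  have h6 := bad_tau (δ := δ) (δ₁ := δ₁) (B := B) (R := R) (e0 := e0) (M := M') (t := t') (b := b) (j := j) (m := m) (h := h) (z := z)
    (z' := z') (μ := μ) (s := s) (N := N) hF0 hf
  have h7 := mul_le_mul_of_nonneg_left (add_le_add_left h6 ((N : ℝ) ^ (-K')))
    (Real.rpow_nonneg (Nat.cast_nonneg N) ε)
  have h8 := mul_le_mul_of_nonneg_left h7 (mul_nonneg hG0 hB)
  linarith

end Mic

end

end Pool.Agent.W_7d29a1_C0.EvT50
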