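import Pool.Agent.W_7d29a1_C0.PlT72
import Pool.Agent.W_7d29a1_C0.Bd73B
import Pool.Agent.W_7d29a1_C0.E1M82

/-!
CURV0 (MP_7d29a1_pr), leaf E1f (helper62): THE CONDITIONAL COVARIANCE OF THE HALF RESPONSE IS CARRIED BY THE NEAR TIES OF ITS WINDOW.
`g` differs between two paths only through the non meeting of the resampled middle pieces of its window (`GwJ50`); so its conditional
covariance with a bounded functional, given any coarser map `p` (what is behind a row, what is outside of a block), at any log weight at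
distance at most `D`, is bounded by the indicators `Tau` (`Rob43B`) of the two halves of the window, up to tiny terms (`tauN`, `tau_gj`).
With the pairs of replicas of `NM82` (`QN`): `qn_tau`.
-/

set_option autoImplicit false
set_option linter.unusedSectionVars false
set_option linter.unusedVariables false

namespace Pool.Agent.W_7d29a1_C0.E62

open Finset MeasureTheory
open Pool.Agent.W_7d29a1_F Pool.Agent.W_7d29a1_X Pool.Agent.W_7d29a1_C0 Pool.Agent.W_7d29a1_C0.Mod92 Pool.Agent.W_7d29a1_C0.Swap57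
open Pool.Agent.W_7d29a1_C0.T72 Pool.Agent.W_7d29a1_C0.NM82
open Pool.Agent.W_7d29a1_HS (In wd)
open Pool.Agent.W_7d29a1_C0.GwA50 (GwW)
open Pool.Agent.W_7d29a1_C0.LocM18 (Cn)
open Pool.W7d29a1.C0.Bd73 (nCn nCn_nonneg gj_dif)
open Pool.Agent.W_7d29a1_C0.Blk18 (Full)
open Pool.Agent.W_7d29a1_C0.E1M82 (nX nG gX)
open Pool.W7d29a1.C0 Pool.W7d29a1.C0.VT31 Pool.W7d29a1.C0.R43

noncomputable section

/-! ### A change of the weights which the map sees -/

section Abs

variable {X : Type*} [Fintype X] [Nonempty X] {Y Y' : Type*} [DecidableEq Y] [DecidableEq Y']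

theorem cE_add_mp (w : X → ℝ) {p : X → Y} {A : X → ℝ} (hA : Mp p A) (f : X → ℝ) : cE (w + A) p f = cE w p f := by
  funext x
  have h1 : (∑ x', if p x' = p x then Real.exp ((w + A) x') * f x' else 0) =
      Real.exp (A x) * ∑ x', if p x' = p x then Real.exp (w x') * f x' else 0 := by
    rw [mul_sum]
    refine sum_congr rfl fun x' _ => ?_
    split_ifs with h
    · rw [Pi.add_apply, Real.exp_add, hA x' x h]
      ring
    · rw [mul_zero]
  have h2 : fz (w + A) p x = Real.exp (A x) * fz w p x := by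
    unfold fz
    rw [mul_sum]
    refine sum_congr rfl fun x' _ => ?_
    split_ifs with h
    · rw [Pi.add_apply, Real.exp_add, hA x' x h]
      ring
    · rw [mul_zero]
  unfold cE
  rw [h1, h2, mul_div_mul_left _ _ (Real.exp_pos _).ne']

theorem cE2_add_mp (w : X → ℝ) {p : X → Y} {A : X → ℝ} (hA : Mp p A) (K : X → X → ℝ) (x x' : X) :
    cE2 (w + A) p K x x' = cE2 w p K x x' := by
  unfold cE2
  rw [cE_add_mp w hA]
  congr 1
  funext z
  rw [cE_add_mp w hA]

theorem cE2_fst (w : X → ℝ) (p : X → Y) (f : X → ℝ) (x x' : X) : cE2 w p (fun z _ => f z) x x' = cE w p f x := by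
  unfold cE2
  congr 1
  funext z
  have h : Mp p (fun _ : X => f z) := fun _ _ _ => rfl
  exact congrFun (cE_of_meas w h) x'

theorem cE2_snd (w : X → ℝ) (p : X → Y) (f : X → ℝ) (x x' : X) : cE2 w p (fun _ z' => f z') x x' = cE w p f x' := by
  unfold cE2
  have h : Mp p (fun _ : X => cE w p (fun z' => f z') x') := fun _ _ _ => rfl
  exact congrFun (cE_of_meas w h) x

theorem cE2_const (w : X → ℝ) (p : X → Y) (c : ℝ) (x x' : X) : cE2 w p (fun _ _ => c) x x' = c := by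
  have h := cE2_mul w p c (fun _ _ => (1 : ℝ)) x x'
  rw [cE2_one, mul_one] at h
  simpa using h

/-- One functional bounded, the other one differs between two points only through `A0 * E[K] + τ + 2 B (St + St)`. -/
theorem abs_cC_le62 {w : X → ℝ} {q : X → Y'} {p : X → Y} (hc : Crs q p) {h g : X → ℝ} {B A0 τ : ℝ} (hB : 0 ≤ B) (hh : ∀ x, |h x| ≤ B)
    {K : X → X → ℝ} {St : X → ℝ} (hG : ∀ z z', |g z - g z'| ≤ A0 * cE2 w p K z z' + τ + B * (St z + St z')) (x : X) :
    |cC w q h g x| ≤ B * (A0 * cE2 w q K x x + τ + 2 * B * cE w q St x) := by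
  rw [cC_eq_two72, abs_mul, abs_of_pos (show (0 : ℝ) < 1 / 2 by norm_num)]
  have h1 : |cE2 w q (fun z z' => (h z - h z') * (g z - g z')) x x| ≤
      cE2 w q (fun z z' => 2 * B * (A0 * cE2 w p K z z' + (τ + (B * St z + B * St z')))) x x := by
    refine abs_cE2_le72 w q (fun z z' => ?_) x x
    rw [abs_mul]
    have e1 : |h z - h z'| ≤ 2 * B := by
      have := abs_sub (h z) (h z')
      have h1 := hh z
      have h2 := hh z'
      linarith
    refine mul_le_mul e1 ((hG z z').trans (le_of_eq (by ring))) (abs_nonneg _) (by linarith)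
  have h2 : cE2 w q (fun z z' => 2 * B * (A0 * cE2 w p K z z' + (τ + (B * St z + B * St z')))) x x =
      2 * B * (A0 * cE2 w q K x x + (τ + (B * cE w q St x + B * cE w q St x))) := by
    rw [cE2_mul, cE2_add, cE2_mul, cE2_add, cE2_add, cE2_mul, cE2_mul, cE2_const, cE2_fst, cE2_snd]
    congr 2
    have h3 := cE2_tower w hc K x x
    rw [h3]
  rw [h2] at h1
  linarith

end Abs

/-! ### The near ties of a window -/

section Win

variable {Q : Finset (Finset ℕ)} [SwQ Q] [Nonempty (Px Q)] {Y Y' : Type*} [DecidableEq Y] [DecidableEq Y']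

open Classical in
/-- The indicator of the near ties of the window `[c, d]` cut at the row `j`. -/
def T2 (w : Px Q → ℝ) (p : Px Q → Y) (c j d : ℕ) (M : ℝ) (S : Px Q) : ℝ :=
  (if Tau w p c j M S then 1 else 0) + (if Tau w p j d M S then 1 else 0)

theorem T2_nonneg (w : Px Q → ℝ) (p : Px Q → Y) (c j d : ℕ) (M : ℝ) (S : Px Q) : 0 ≤ T2 w p c j d M S := by
  unfold T2
  split_ifs <;> norm_num

theorem T2_le (w : Px Q → ℝ) (p : Px Q → Y) (c j d : ℕ) (M : ℝ) (S : Px Q) : T2 w p c j d M S ≤ 2 := by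
  unfold T2
  split_ifs <;> norm_num

theorem mp_T2 (w : Px Q → ℝ) (p : Px Q → Y) (c j d : ℕ) (M : ℝ) : Mp p (T2 w p c j d M) := fun S S' h => by
  classical
  unfold T2
  rw [if_congr (tau_meas w p c j M h) rfl rfl, if_congr (tau_meas w p j d M h) rfl rfl]

/-- **The conditional covariance is carried by the near ties of the window**, at every log weight at distance at most `D`. -/
theorem tauN {w A : Px Q → ℝ} {D : ℝ} (hA : ∀ x, |A x| ≤ D) {p : Px Q → Y} {pW : Px Q → Y'} (hc : Crs p pW) (hAm : Mp pW A)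
    {h g : Px Q → ℝ} {B A0 τ : ℝ} (hB : 0 ≤ B) (hA0 : 0 ≤ A0) (hτ : 0 ≤ τ) (hh : ∀ x, |h x| ≤ B) (hg : ∀ x, |g x| ≤ B)
    {c j d : ℕ} {St : Px Q → ℝ} (hSt : ∀ x, 0 ≤ St x)
    (hG : ∀ z z', |g z - g z'| ≤ A0 * cE2 w pW (NM c j j d) z z' + τ + B * (St z + St z')) (M : ℝ) (S : Px Q) :
    |cC (w + A) p h g S| ≤ 2 * B ^ 2 * T2 w p c j d M S + (2 * B * A0 * Real.exp (4 * D - 5 * M) + B * τ) +
      2 * B ^ 2 * cE (w + A) p St S := by
  classical
  have hG' : ∀ z z', |g z - g z'| ≤ A0 * cE2 (w + A) pW (NM c j j d) z z' + τ + B * (St z + St z') := fun z z' => by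
    rw [cE2_add_mp w hAm]
    exact hG z z'
  have h1 := abs_cC_le62 (w := w + A) hc hB hh hG' S
  have h2 : cE2 (w + A) p (NM c j j d) S S ≤ cE2 (w + A) p (NI c j) S S + cE2 (w + A) p (NI j d) S S := by
    rw [← cE2_add]
    exact cE2_mono _ p (fun z z' => NM_le c j j d z z') S S
  have h3 := cE2_tau (w := w) hA p c j M S
  have h4 := cE2_tau (w := w) hA p j d M S
  have hSn := cE_nonneg (w + A) p hSt S
  have hE := (Real.exp_pos (4 * D - 5 * M)).le
  by_cases hT : Tau w p c j M S ∨ Tau w p j d M S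
  · -- the trivial bound
    have h5 : |cC (w + A) p h g S| ≤ 2 * B ^ 2 := by
      rw [cC_eq_two72, abs_mul, abs_of_pos (show (0 : ℝ) < 1 / 2 by norm_num)]
      have h6 : |cE2 (w + A) p (fun z z' => (h z - h z') * (g z - g z')) S S| ≤ cE2 (w + A) p (fun _ _ => 4 * B ^ 2) S S := by
        refine abs_cE2_le72 _ p (fun z z' => ?_) S S
        rw [abs_mul]
        have e1 : |h z - h z'| ≤ 2 * B := by
          have := abs_sub (h z) (h z')
          linarith [hh z, hh z']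
        have e2 : |g z - g z'| ≤ 2 * B := by
          have := abs_sub (g z) (g z')
          linarith [hg z, hg z']
        calc _ ≤ 2 * B * (2 * B) := mul_le_mul e1 e2 (abs_nonneg _) (by linarith)
          _ = 4 * B ^ 2 := by ring
      rw [cE2_const] at h6
      linarith
    have h7 : 1 ≤ T2 w p c j d M S := by
      unfold T2
      rcases hT with h8 | h8
      · rw [if_pos h8]
        split_ifs <;> norm_num
      · rw [if_pos h8]
        split_ifs <;> norm_num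
    have h9 : 2 * B ^ 2 * 1 ≤ 2 * B ^ 2 * T2 w p c j d M S := mul_le_mul_of_nonneg_left h7 (by positivity)
    have h10 : 0 ≤ 2 * B * A0 * Real.exp (4 * D - 5 * M) + B * τ := by positivity
    have h11 : 0 ≤ 2 * B ^ 2 * cE (w + A) p St S := by positivity
    linarith
  · push Not at hT
    rw [if_neg hT.1, zero_add] at h3
    rw [if_neg hT.2, zero_add] at h4
    have h5 : cE2 (w + A) p (NM c j j d) S S ≤ 2 * Real.exp (4 * D - 5 * M) := by linarith
    have h6 : A0 * cE2 (w + A) p (NM c j j d) S S ≤ A0 * (2 * Real.exp (4 * D - 5 * M)) := mul_le_mul_of_nonneg_left h5 hA0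
    have h7 : 0 ≤ 2 * B ^ 2 * T2 w p c j d M S := mul_nonneg (by positivity) (T2_nonneg w p c j d M S)
    have h8 : B * (A0 * cE2 (w + A) p (NM c j j d) S S + τ + 2 * B * cE (w + A) p St S) ≤
        B * (A0 * (2 * Real.exp (4 * D - 5 * M)) + τ + 2 * B * cE (w + A) p St S) :=
      mul_le_mul_of_nonneg_left (by linarith) hB
    have h9 : B * (A0 * (2 * Real.exp (4 * D - 5 * M)) + τ + 2 * B * cE (w + A) p St S) =
        (2 * B * A0 * Real.exp (4 * D - 5 * M) + B * τ) + 2 * B ^ 2 * cE (w + A) p St S := by ring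
    linarith

end Win

/-! ### The half response of the model -/

section Model

variable {μ : Measure ℝ} {s : ℝ} {N : ℕ} {Q : Finset (Finset ℕ)} [SwQ Q] [Nonempty (Px Q)] {Y : Type*} [DecidableEq Y]

/-- **The conditional covariance of the half response** of the window of the row `j` at the tilted log weight. -/
theorem tau_gj {κ δ δ₁ ε c' : ℝ} {η : Env} (hη : GwW μ s N κ δ δ₁ ε c' η) (hQ : Full N Q) {b j : ℕ} (hj : j + b ≤ N)
    (h1 : (N : ℝ) ^ κ ≤ ((j - (j - b) : ℕ) : ℝ)) (h2 : (N : ℝ) ^ κ ≤ b) {B : ℝ} (hB : 0 ≤ B) {a : ℤ}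
    (ha : a = 1 ∨ a = -1) {p : Px Q → Y} (hc : Crs p (pJ (j - b) (j + b))) {A : Px Q → ℝ} {D : ℝ} (hA : ∀ x, |A x| ≤ D)
    (hAm : Mp (pJ (j - b) (j + b)) A) {h : Px Q → ℝ} (hh : ∀ x, |h x| ≤ B) (M : ℝ) (S : Px Q) :
    |cC (lw μ s η N Q + A) p h (gj μ s η δ B b j a) S| ≤
      2 * B ^ 2 * T2 (lw μ s η N Q) p (j - b) j (j + b) M S +
      (2 * B * Real.exp ((N : ℝ) ^ ε) * Real.exp (4 * D - 5 * M) + B * Real.exp (-(N : ℝ) ^ c')) +
      2 * B ^ 2 * cE (lw μ s η N Q + A) p (nCn μ s δ₁ (j - b) (j + b)) S := by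
  have ha' : |(a : ℝ)| ≤ 1 := by
    rcases ha with h | h <;> rw [h] <;> norm_num
  refine tauN hA hc hAm hB (Real.exp_pos _).le (Real.exp_pos _).le hh (fun x => ?_) (nCn_nonneg μ s δ₁ _ _)
    (gj_dif hη hQ hj h1 h2 hB ha) M S
  exact (abs_gj η hB ha' b j x).trans (by linarith)

/-- **The micro functional, averaged over the slab `J`**, at the measure with the kick of the row `j` at `t`. -/
theorem tau_av {κ δ δ₁ ε c' : ℝ} {ω : Env × Finset ℕ} (hη : GwW μ s N κ δ δ₁ ε c' ω.1) (hQ : Full N Q) {b j : ℕ} (hj : j + b ≤ N)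
    (h1 : (N : ℝ) ^ κ ≤ ((j - (j - b) : ℕ) : ℝ)) (h2 : (N : ℝ) ^ κ ≤ b) {B : ℝ} (hB : 0 ≤ B) {t : ℝ} (ht : |t| ≤ 1)
    {J : Finset ℕ} (hJ : ∀ m ∈ J, j + b ≤ m) {θ : ℝ} (hθ : 0 ≤ θ) {h : Px Q → ℝ} (hh : ∀ x, |h x| ≤ B) (M : ℝ) (S : Px Q) :
    |avN (wj μ s N Q δ B b j ω t) J (fun _ => θ) (fun m => pJ 0 m) (gg μ s Q δ B b ω j) h S| ≤
      ∑ m ∈ J, θ * (2 * B ^ 2 * T2 (lw μ s ω.1 N Q) (pJ 0 m) (j - b) j (j + b) M S +
      (2 * B * Real.exp ((N : ℝ) ^ ε) * Real.exp (4 * B - 5 * M) + B * Real.exp (-(N : ℝ) ^ c')) +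
      2 * B ^ 2 * cE (wj μ s N Q δ B b j ω t) (pJ 0 m) (nCn μ s δ₁ (j - b) (j + b)) S) := by
  have e1 : wj μ s N Q δ B b j ω t = lw μ s ω.1 N Q + (t - (sg ω.2 j : ℤ)) • gj (Q := Q) μ s ω.1 δ B b j (sg ω.2 j) := rfl
  have ha := abs_sg ω.2 j
  have hA : ∀ x, |((t - (sg ω.2 j : ℤ)) • gj (Q := Q) μ s ω.1 δ B b j (sg ω.2 j)) x| ≤ B := fun x => by
    rw [Pi.smul_apply, smul_eq_mul, abs_mul]
    have e2 := abs_gj (μ := μ) (s := s) ω.1 (δ := δ) hB ha.le b j x
    have e3 : |t - (sg ω.2 j : ℤ)| ≤ 2 := (abs_sub _ _).trans (by rw [ha]; linarith)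
    calc |t - (sg ω.2 j : ℤ)| * |gj (Q := Q) μ s ω.1 δ B b j (sg ω.2 j) x| ≤ 2 * (B / 2) :=
          mul_le_mul e3 e2 (abs_nonneg _) (by norm_num)
      _ = B := by ring
  have hAm : Mp (pJ (j - b) (j + b)) ((t - (sg ω.2 j : ℤ)) • gj (Q := Q) μ s ω.1 δ B b j (sg ω.2 j)) := fun S S' hS => by
    rw [Pi.smul_apply, Pi.smul_apply, mp_gj (μ := μ) (s := s) ω.1 δ B b j (sg ω.2 j) S S' hS]
  unfold avN
  rw [Finset.sum_apply]
  refine (abs_sum_le_sum_abs _ _).trans (sum_le_sum fun m hm => ?_)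
  rw [Pi.smul_apply, smul_eq_mul, abs_mul, abs_of_nonneg hθ]
  refine mul_le_mul_of_nonneg_left ?_ hθ
  rw [cC_symm, e1]
  exact tau_gj hη hQ hj h1 h2 hB (sg_or ω.2 j) (crs_pJ (Nat.zero_le _) (hJ m hm)) hA hAm hh M S

end Model

/-! ### Pairs of replicas -/

section Pair

variable {Q : Finset (Finset ℕ)} [SwQ Q] [Nonempty (Px Q)]

/-- The pair functional of `NM82` with a functional `n` bounded by `u`. -/
theorem abs_QN_le (m0 m1 : ℕ) {n u f : Px Q → ℝ} (hu : ∀ S, |n S| ≤ u S) (x : Fin 2 → Px Q) :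
    |QN m0 m1 n f x| ≤ (1 / 2) * ((u (x 0) + u (x 1)) * (NI m0 m1 (x 0) (x 1) * |f (x 0) - f (x 1)|)) := by
  unfold QN
  rw [abs_mul, abs_mul, abs_mul, abs_of_pos (show (0 : ℝ) < 1 / 2 by norm_num), abs_of_nonneg (NI_nonneg m0 m1 (x 0) (x 1))]
  refine mul_le_mul_of_nonneg_left ?_ (by norm_num)
  have h1 : |n (x 0) - n (x 1)| ≤ u (x 0) + u (x 1) := (abs_sub _ _).trans (add_le_add (hu _) (hu _))
  have h2 : 0 ≤ NI m0 m1 (x 0) (x 1) * |f (x 0) - f (x 1)| := mul_nonneg (NI_nonneg _ _ _ _) (abs_nonneg _)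
  calc |n (x 0) - n (x 1)| * |f (x 0) - f (x 1)| * NI m0 m1 (x 0) (x 1)
      = |n (x 0) - n (x 1)| * (NI m0 m1 (x 0) (x 1) * |f (x 0) - f (x 1)|) := by ring
    _ ≤ _ := mul_le_mul_of_nonneg_right h1 h2

end Pair

end

end Pool.Agent.W_7d29a1_C0.E62
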