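import Pool.Agent.W_7d29a1_C0.XFc34
import Pool.Agent.W_7d29a1_C0.TauN62
import Pool.Agent.W_7d29a1_C0.EvT50
import Pool.Agent.W_7d29a1_C0.NSc61

/-!
MP_7d29a1_pr, [CURV0], leaf E1f, F2 (helper34): THE MICRO TERMS OF `e1_rowP` AT THE CORNER, over `TauN62` (helper62). `e0_rob34`: E0 for
a functional with a passenger. `tauE0_34` (F2a): the near ties `T2` pass to the corner, `M` becomes `M'`, `5 M + 8 B ≤ 5 M'`.
`steep_wt34` (F2b): the mass of the paths out of the cone at the interpolated weights, in two levels. `micE34` (F2c): the micro term of one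
row is at most `2 B ^ 2 N ^ ε` times the average over the rows of the slab of the no meeting term with a near tie on the first path.
-/

set_option autoImplicit false
set_option linter.unusedSectionVars false
set_option linter.unusedVariables false

namespace Pool.Agent.W_7d29a1_C0.TauE34

open Finset MeasureTheory Filter Topology Pool.Agent.W_7d29a1_F Pool.Agent.W_7d29a1_X Pool.Agent.W_7d29a1_H
open Pool.Agent.W_7d29a1_HS (In)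
open Pool.Agent.W_7d29a1_HZ (wd' EE')
open Pool.Agent.W_7d29a1_C0 Pool.Agent.W_7d29a1_C0.Mod92 Pool.Agent.W_7d29a1_C0.Swap57
open Pool.W7d29a1.C0 Pool.W7d29a1.C0.VT31
open Pool.W7d29a1.C0.Fld19 Pool.W7d29a1.C0.H27 Pool.Agent.W_7d29a1_C0.Q32
open Pool.W7d29a1.C0.E1A (XF obs_XF)
open Pool.Agent.W_7d29a1_C0.Far34
open Pool.Agent.W_7d29a1_C0.NM82 (QN)
open Pool.Agent.W_7d29a1_C0.EvT50 (tau_tilt meas_cE2')
open Pool.Agent.W_7d29a1_C0.E62 (T2 T2_nonneg T2_le mp_T2 tau_av abs_QN_le)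
open Pool.Agent.W_7d29a1_C0.GwA50 (GwW)
open Pool.W7d29a1.C0.Bd73 (nCn nCn_nonneg)
open Pool.W7d29a1.C0.R43 (Tau tau_meas)
open Pool.Agent.W_7d29a1_C0.E1M82 (UM Gd AvA abs_UM past_UM nX nG gX abs_gb82)
open Pool.W7d29a1.C0.H41 (Obs)

noncomputable section

variable {μ : Measure ℝ} {s : ℝ} {N : ℕ}

/-- **E0 FOR A FUNCTIONAL WITH A PASSENGER**, real form. -/
theorem e0_rob34 [IsProbabilityMeasure μ] {c₀ C₀ : ℝ} {n₀ : ℕ} (h : In μ s c₀ C₀ n₀)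
    (hQI : ∀ p : ℝ, 1 < p → ∃ C θ0 : ℝ, 0 ≤ C ∧ 0 < θ0 ∧ QI μ p C θ0) {κ : ℝ} (hκ : 0 < κ) (hκ1 : κ ≤ 1) (k : ℕ) {ε K' : ℝ}
    (hε : 0 < ε) (hK' : 0 ≤ K') : ∃ δ' ε₁ : ℝ, 0 < δ' ∧ 0 < ε₁ ∧ ∃ N₀ : ℕ, ∀ N : ℕ, N₀ ≤ N →
      ∀ P : Finset (Finset ℕ), H7.Pok μ s N δ' P → ∀ c K : ℕ, (N : ℝ) ^ κ ≤ c → (N : ℝ) ^ κ ≤ K → c + K ≤ N →
      ∀ M : ℝ, 0 ≤ M → M ≤ (N : ℝ) ^ ε₁ → ∀ U : Env → Finset ℕ → ℝ, Past c U → (∀ η S, |U η S| ≤ M) →
      ∀ Ψ Ψ' : Env → (Fin k → Px P) → ℝ, (∀ η x, 0 ≤ Ψ η x) → (∀ η x, Ψ η x ≤ (N : ℝ) ^ K') → (∀ x, Measurable fun η => Ψ η x) →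
      (∀ η x, 0 ≤ Ψ' η x) → (∀ η x, Ψ' η x ≤ (N : ℝ) ^ K') → (∀ x, Measurable fun η => Ψ' η x) →
      (∀ η, ∀ x x' : Fin k → Px P, (∀ i, pB (c + K) (x i) = pB (c + K) (x' i)) → Ψ η x = Ψ η x') →
      (∀ η ζ : Env, (∀ q, q ∉ slb c K → ζ q = η q) → (∀ q, |ζ q - η q| ≤ 2 * M / K) → ∀ x, Ψ η x ≤ Ψ' ζ x) →
      ∫ η, rep k (wU μ s N P U η) (Ψ η) ∂(law μ) ≤
        (N : ℝ) ^ ε * (∫ η, rep k (lw μ s η N P) (Ψ' η) ∂(law μ) + (N : ℝ) ^ (-K')) := by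
  obtain ⟨δ', ε₁, hδ', hε₁, N₀, hN₀⟩ := H7.e0_fin7 h hQI hκ hκ1 k hε hK'
  refine ⟨δ', ε₁, hδ', hε₁, N₀, fun N hN P hP c K hc hK hcK M hM0 hM U hU hUM Ψ Ψ' h0 hΛ hm h0' hΛ' hm' hΨ hbl => ?_⟩
  have hne := hP.ne
  have key := hN₀ N hN P hP c K hc hK hcK M hM0 hM U (PA_of hU hUM) Set.univ MeasurableSet.univ Ψ Ψ' h0 hΛ h0' hΛ' hm' hΨ
    (fun η _ ζ hζ hθ x => hbl η ζ hζ hθ x)
  rw [Set.compl_univ, measure_empty, mul_zero, add_zero] at key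
  simp only [← wU_eq hU] at key
  exact int_of_lint (H41.meas_rep (measurable_wU hU) (measurable_pi_lambda _ hm)) (H41.meas_rep meas_lw (measurable_pi_lambda _ hm'))
    (fun η => H41.rep_nonneg k _ (h0 η)) (fun η => (rep_mono k _ (hΛ η)).trans_eq (H41.rep_const k _ _))
    (fun η => H41.rep_nonneg k _ (h0' η)) (fun η => (rep_mono k _ (hΛ' η)).trans_eq (H41.rep_const k _ _))
    (Real.rpow_nonneg (Nat.cast_nonneg _) _) (Real.rpow_nonneg (Nat.cast_nonneg _) _) key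

/-! ### The near ties -/

section T

variable {Q : Finset (Finset ℕ)}

theorem XF_le_two {m0 m1 : ℕ} {F : Px Q → ℝ} {D : ℝ} (hF : ∀ S, |F S| ≤ D) (x : Fin 2 → Px Q) : XF m0 m1 F x ≤ 2 * D := by
  have h := Zf_le (m0 := m0) (m1 := m1) hF (x 0) (x 1)
  have e := congrFun (XF_eq (m0 := m0) (m1 := m1) F) x
  rw [← e]
  exact h

variable [SwQ Q] [Nonempty (Px Q)]

/-- The no meeting term with a near tie of the window `[c, d]`, cut at the row `j`, on one of the two paths. -/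
def tX (μ : Measure ℝ) (s : ℝ) (N : ℕ) (Q : Finset (Finset ℕ)) (m c j d : ℕ) (M : ℝ) (m0 m1 : ℕ) (F : Px Q → ℝ) (η : Env)
    (x : Fin 2 → Px Q) : ℝ :=
  (T2 (lw μ s η N Q) (pJ 0 m) c j d M (x 0) + T2 (lw μ s η N Q) (pJ 0 m) c j d M (x 1)) * XF m0 m1 F x

theorem tX_nonneg (m c j d : ℕ) (M : ℝ) (m0 m1 : ℕ) (F : Px Q → ℝ) (η : Env) (x : Fin 2 → Px Q) :
    0 ≤ tX μ s N Q m c j d M m0 m1 F η x :=
  mul_nonneg (add_nonneg (T2_nonneg _ _ _ _ _ _ _) (T2_nonneg _ _ _ _ _ _ _)) (Pool.W7d29a1.C0.E1A.XF_nonneg _ _ _ _)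

theorem tX_le (m c j d : ℕ) (M : ℝ) {m0 m1 : ℕ} {F : Px Q → ℝ} {D : ℝ} (hF : ∀ S, |F S| ≤ D) (η : Env) (x : Fin 2 → Px Q) :
    tX μ s N Q m c j d M m0 m1 F η x ≤ 8 * D := by
  have h1 := XF_le_two (m0 := m0) (m1 := m1) hF x
  have h2 := Pool.W7d29a1.C0.E1A.XF_nonneg m0 m1 F x
  have h3 := T2_le (lw μ s η N Q) (pJ (Q := Q) 0 m) c j d M (x 0)
  have h4 := T2_le (lw μ s η N Q) (pJ (Q := Q) 0 m) c j d M (x 1)
  unfold tX
  calc _ ≤ 4 * XF m0 m1 F x := mul_le_mul_of_nonneg_right (by linarith) h2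
    _ ≤ 8 * D := by linarith

theorem meas_tauS (p : Px Q → Finset ℕ × ℕ) (i k : ℕ) (M : ℝ) (S : Px Q) :
    MeasurableSet {η : Env | Tau (lw μ s η N Q) p i k M S} :=
  measurableSet_le measurable_const (meas_cE2' (fun S => meas_lw S) p (NI i k) S S)

theorem meas_T2 (p : Px Q → Finset ℕ × ℕ) (c j d : ℕ) (M : ℝ) (S : Px Q) :
    Measurable fun η : Env => T2 (lw μ s η N Q) p c j d M S := by
  classical
  unfold T2
  exact (Measurable.ite (meas_tauS p c j M S) measurable_const measurable_const).add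
    (Measurable.ite (meas_tauS p j d M S) measurable_const measurable_const)

/-- The near ties are robust. -/
theorem T2_rob {η ζ : Env} {c0 K : ℕ} {θ D : ℝ} (hD : 0 ≤ D) (hθ : θ ≤ D / K) (h1 : ∀ q, q ∉ slb c0 K → ζ q = η q)
    (h2 : ∀ q, |ζ q - η q| ≤ θ) (p : Px Q → Finset ℕ × ℕ) (c j d : ℕ) {M M' : ℝ} (hM : 5 * M + 4 * D ≤ 5 * M') (S : Px Q) :
    T2 (lw μ s η N Q) p c j d M S ≤ T2 (lw μ s ζ N Q) p c j d M' S := by
  have h3 : ∀ T : Px Q, |lw μ s η N Q T - lw μ s ζ N Q T| ≤ D := fun T => by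
    rw [abs_sub_comm]
    exact Pool.W7d29a1.C0.H7.lw_near7 hD h1 (fun q => (h2 q).trans hθ) T
  have e1 : lw μ s η N Q = lw μ s ζ N Q + fun T => lw μ s η N Q T - lw μ s ζ N Q T := by
    funext T
    rw [Pi.add_apply]
    ring
  have h4 : ∀ i k, Tau (lw μ s η N Q) p i k M S → Tau (lw μ s ζ N Q) p i k M' S := fun i k h => by
    rw [e1] at h
    exact tau_tilt h3 p i k hM h
  unfold T2
  refine add_le_add ?_ ?_
  · by_cases h5 : Tau (lw μ s η N Q) p c j M S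
    · rw [if_pos h5, if_pos (h4 _ _ h5)]
    · rw [if_neg h5]
      split_ifs <;> norm_num
  · by_cases h5 : Tau (lw μ s η N Q) p j d M S
    · rw [if_pos h5, if_pos (h4 _ _ h5)]
    · rw [if_neg h5]
      split_ifs <;> norm_num

end T

section E0

variable [IsProbabilityMeasure μ]

theorem obs_tX {cb e y : ℕ} [Nonempty (Px (Pn N y))] {D : ℝ} {f : Fam N} (hf : Cls59 N cb e D f) (m c j d : ℕ) (M : ℝ) (m0 m1 : ℕ)
    (A : Finset ℕ) : Obs (fun η => tX μ s N (Pn N y) m c j d M m0 m1 (f y (η, A)) η) (8 * D) := by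
  refine ⟨measurable_pi_lambda _ fun x => ?_, fun η x => ?_⟩
  · unfold tX
    exact ((meas_T2 _ _ _ _ _ _).add (meas_T2 _ _ _ _ _ _)).mul (measurable_pi_iff.1 (obs_cls hf y m0 m1 A).meas x)
  · rw [abs_of_nonneg (tX_nonneg _ _ _ _ _ _ _ _ _ _)]
    exact tX_le _ _ _ _ _ (fun S => hf.bdd y (η, A) S) _ x

/-- **THE NEAR TIES AT THE CORNER** (F2a). -/
theorem tauE0_34 {c₀ C₀ : ℝ} {n₀ : ℕ} (h : In μ s c₀ C₀ n₀)
    (hQI : ∀ p : ℝ, 1 < p → ∃ C θ0 : ℝ, 0 ≤ C ∧ 0 < θ0 ∧ QI μ p C θ0) {κ : ℝ} (hκ : 0 < κ) (hκ1 : κ ≤ 1) {ε K' : ℝ}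
    (hε : 0 < ε) (hK' : 0 ≤ K') : ∃ δ' ε₁ : ℝ, 0 < δ' ∧ 0 < ε₁ ∧ ∃ N₀ : ℕ, ∀ N : ℕ, N₀ ≤ N →
      ∀ y : ℕ, y ≤ N → |(y : ℝ) - sl μ s * N| ≤ ((N : ℝ) ^ δ' * wd' μ s N) →
      ∀ c0 K : ℕ, (N : ℝ) ^ κ ≤ c0 → (N : ℝ) ^ κ ≤ K → c0 + K ≤ N → ∀ (δk B : ℝ) (b0 j : ℕ), 0 ≤ B → B ≤ (N : ℝ) ^ ε₁ → j + b0 ≤ c0 →
      ∀ (cb e : ℕ) (D : ℝ) (f : Fam N), Cls59 N cb e D f → c0 + K ≤ e → 8 * D ≤ (N : ℝ) ^ K' → ∀ m0 m1 : ℕ, c0 + K ≤ m0 →
      ∀ t ∈ Set.Icc (-1 : ℝ) 1, ∀ (m c d : ℕ) (M M' : ℝ), c0 + K ≤ m → 5 * M + 8 * B ≤ 5 * M' →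
      ∫ ω, rep 2 (wj μ s N (Pn N y) δk B b0 j ω t) (tX μ s N (Pn N y) m c j d M m0 m1 (f y ω) ω.1) ∂(Pm μ N) ≤
        (N : ℝ) ^ ε * (∫ ω, rep 2 (wm μ s N (Pn N y) ω) (tX μ s N (Pn N y) m c j d M' m0 m1 (f y ω) ω.1) ∂(Pm μ N) +
          (N : ℝ) ^ (-K')) := by
  obtain ⟨δ', ε₁, hδ', hε₁, N₀, h0⟩ := e0_rob34 h hQI hκ hκ1 2 hε hK'
  refine ⟨δ', ε₁, hδ', hε₁, max N₀ 1, fun N hN y hy hyc c0 K hc hK hcK δk B b0 j hB hBN hj cb e D f hf hcd hDN m0 m1 hm t ht m c d M M'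
    hcm hM => ?_⟩
  have hne := ne_Pn hy
  have k1 : N₀ ≤ N := (le_max_left _ _).trans hN
  have k2 : 1 ≤ N := (le_max_right _ _).trans hN
  have hK0 : (0 : ℝ) < K := lt_of_lt_of_le (Real.rpow_pos_of_pos (by exact_mod_cast k2) κ) hK
  have hP : H7.Pok μ s N δ' (Pn N y) := Or.inr ⟨y, hy, hyc, rfl⟩
  rw [(gd_wj (Ψ := fun ω => tX μ s N (Pn N y) m c j d M m0 m1 (f y ω) ω.1) hB (obs_tX hf m c j d M m0 m1) t).av,
    (gd_wm (Ψ := fun ω => tX μ s N (Pn N y) m c j d M' m0 m1 (f y ω) ω.1) (obs_tX hf m c j d M' m0 m1)).av]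
  obtain ⟨G, hG⟩ : ∃ G : Finset ℕ → ℝ, G = fun A =>
    ∫ η, rep 2 (wm μ s N (Pn N y) (η, A)) (tX μ s N (Pn N y) m c j d M' m0 m1 (f y (η, A)) η) ∂(law μ) := ⟨_, rfl⟩
  have e1 : (N : ℝ) ^ ε * (AvA N G + (N : ℝ) ^ (-K')) = AvA N fun A => (N : ℝ) ^ ε * (G A + (N : ℝ) ^ (-K')) := by
    rw [E1M82.AvA_mul, E1M82.AvA_add, E1M82.AvA_const]
  rw [← hG, e1]
  refine AvA_mono fun A => ?_
  rw [hG]
  have oT := obs_tX (μ := μ) (s := s) (y := y) hf m c j d M m0 m1 A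
  have oT' := obs_tX (μ := μ) (s := s) (y := y) hf m c j d M' m0 m1 A
  refine h0 N k1 (Pn N y) hP c0 K hc hK hcK B hB hBN (UM μ s δk B b0 j A t) (past_UM hB δk A hj t) (abs_UM hB δk A ht)
    (fun η => tX μ s N (Pn N y) m c j d M m0 m1 (f y (η, A)) η) (fun η => tX μ s N (Pn N y) m c j d M' m0 m1 (f y (η, A)) η)
    (fun η x => tX_nonneg _ _ _ _ _ _ _ _ _ _)
    (fun η x => (tX_le _ _ _ _ _ (fun S => hf.bdd y (η, A) S) _ x).trans hDN) (fun x => measurable_pi_iff.1 oT.meas x)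
    (fun η x => tX_nonneg _ _ _ _ _ _ _ _ _ _) (fun η x => (tX_le _ _ _ _ _ (fun S => hf.bdd y (η, A) S) _ x).trans hDN)
    (fun x => measurable_pi_iff.1 oT'.meas x) (fun η x x' hx => ?_) fun η ζ hζ hθ x => ?_
  · have hsp := sp_of_cls hf y A
    have e2 := Zf_pB hsp (m1 := m1) hm hcd η hx
    have e3 := mp_T2 (lw μ s η N (Pn N y)) (pJ 0 m) c j d M (x 0) (x' 0) (T72.crs_pB72 hcm _ _ (hx 0))
    have e5 := mp_T2 (lw μ s η N (Pn N y)) (pJ 0 m) c j d M (x 1) (x' 1) (T72.crs_pB72 hcm _ _ (hx 1))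
    have e4 := congrFun (XF_eq (m0 := m0) (m1 := m1) (f y (η, A)))
    unfold tX
    rw [e3, e5, ← e4 x, ← e4 x', e2]
  · have ef : f y (ζ, A) = f y (η, A) := blind_of_upd (fun η => f y (η, A)) (slb c0 K) (fun q hq η u => by
      have hq' := (mem_slb.1 hq).1
      refine (sp_of_cls hf y A).upd (by omega) ?_ η u
      have h3 : ((c0 + K : ℕ) : ℤ) ≤ e := by exact_mod_cast hcd
      push_cast at h3
      omega) η ζ hζ
    unfold tX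
    rw [ef]
    exact mul_le_mul_of_nonneg_right (add_le_add
      (T2_rob (D := 2 * B) (by positivity) le_rfl hζ hθ _ c j d (by linarith) (x 0))
      (T2_rob (D := 2 * B) (by positivity) le_rfl hζ hθ _ c j d (by linarith) (x 1))) (Pool.W7d29a1.C0.E1A.XF_nonneg _ _ _ _)

/-! ### The paths out of the cone -/

theorem nCn_le_one {Q : Finset (Finset ℕ)} (δ₁ : ℝ) (c d : ℕ) (S : Px Q) : nCn μ s δ₁ c d S ≤ 1 := by
  unfold nCn
  split_ifs <;> norm_num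

open Classical in
/-- The mass of the paths out of the cone over one block, and the mass of the steep paths. -/
theorem nCn_ms {y : ℕ} {ε δ₁ : ℝ} {c d : ℕ} (hcd : c ≤ d) (hdN : d ≤ N) (h1 : 1 ≤ d - c)
    (hε : (N : ℝ) ^ ε ≤ ((d - c : ℕ) : ℝ) ^ δ₁) (η : Env) :
    gm (lw μ s η N (Pn N y)) (nCn μ s δ₁ c d) ≤ NS61.ms61 μ s N N ε (d - c) (y : ℤ) η := by
  obtain ⟨φ, hφ⟩ : ∃ φ : Finset ℕ → ℝ, φ = fun T =>
    if |((pos T d - pos T c : ℤ) : ℝ) - sl μ s * ((d - c : ℕ) : ℝ)| ≤ ((d - c : ℕ) : ℝ) ^ δ₁ * wd' μ s (d - c) then 0 else 1 :=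
    ⟨_, rfl⟩
  have e1 : (nCn μ s δ₁ c d : Px (Pn N y) → ℝ) = fun S => φ S.1 := by
    rw [hφ]
    rfl
  rw [e1, Bri36.gm_Pn]
  unfold NS61.ms61
  refine sum_le_sum fun S _ => ?_
  have hg := Pool.Agent.W_7d29a1_HZ.gp_nonneg36 (μ := μ) (s := s) η N (y : ℤ) S
  by_cases hS : NS61.NSm μ s N N ε (d - c) S
  · rw [if_pos hS]
    have h2 := hS c (d - c) le_rfl h1 (by omega)
    have e2 : c + (d - c) = d := by omega
    rw [e2] at h2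
    have h3 : φ S = 0 := by
      rw [hφ]
      exact if_pos (h2.trans (mul_le_mul_of_nonneg_right hε (zero_le_one.trans (le_max_left _ _))))
    rw [h3, mul_zero]
  · rw [if_neg hS]
    have h3 : φ S ≤ 1 := by
      rw [hφ]
      beta_reduce
      split_ifs <;> norm_num
    calc _ ≤ Pool.Agent.W_7d29a1_HZ.gp μ s η N (y : ℤ) S * 1 := mul_le_mul_of_nonneg_left h3 hg
      _ = _ := mul_one _

/-- **THE PATHS OUT OF THE CONE, TWO LEVELS**: the level `exp (- N ^ a₁)` of the mass does not depend on the width of the cone. -/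
theorem nCn34 {c₀ C₀ : ℝ} {n₀ : ℕ} (h : In μ s c₀ C₀ n₀) {κ : ℝ} (hκ : 0 < κ) : ∃ a₁ : ℝ, 0 < a₁ ∧ ∀ δ₁ : ℝ, 0 < δ₁ →
    ∃ δ' c' : ℝ, 0 < δ' ∧ 0 < c' ∧ ∃ N₀ : ℕ, ∀ N : ℕ, N₀ ≤ N → ∀ y : ℕ, y ≤ N → |(y : ℝ) - sl μ s * N| ≤ ((N : ℝ) ^ δ' * wd' μ s N) →
    ∀ c d : ℕ, (N : ℝ) ^ κ ≤ ((d - c : ℕ) : ℝ) → d ≤ N →
    law μ {η | Real.exp (-(N : ℝ) ^ a₁) < gm (lw μ s η N (Pn N y)) (nCn μ s δ₁ c d)} ≤ ENNReal.ofReal (Real.exp (-(N : ℝ) ^ c')) := by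
  obtain ⟨a, K, ha, ha1, hK, hE⟩ := Pool.Agent.W_7d29a1_HZ.EE'_pow h
  obtain ⟨n₁, hn₁⟩ := Pool.Agent.W_7d29a1_HZ.wd'_eq h
  have hb : 0 < κ * a := mul_pos hκ ha
  refine ⟨κ * a / 2, by positivity, fun δ₁ hδ₁ => ?_⟩
  obtain ⟨δ', c', hδ', hc', L₀, hL⟩ := NS61.ns2_61 h (κ * δ₁) (mul_pos hκ hδ₁)
  obtain ⟨L₁, hL₁⟩ := Pool.Agent.W_7d29a1_Z.NumI77.large hκ (n₁ + 1)
  obtain ⟨L₂, hL₂⟩ := Pool.Agent.W_7d29a1_Z.NumI77.large (show 0 < κ * a / 2 by positivity) (16 * K)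
  refine ⟨δ', c', hδ', hc', max L₀ (max L₁ L₂), fun N hN y hy hyc c d hcd hdN => ?_⟩
  obtain ⟨g1, g2, -⟩ := hL₁ N ((le_max_left _ _).trans ((le_max_right _ _).trans hN))
  obtain ⟨-, g3, g4⟩ := hL₂ N ((le_max_right _ _).trans ((le_max_right _ _).trans hN))
  have hNR : (1 : ℝ) ≤ N := by exact_mod_cast g1
  have hN0 : (0 : ℝ) < N := by linarith
  have hn : n₁ + 1 ≤ d - c := by exact_mod_cast g2.trans hcd
  have hε : (N : ℝ) ^ (κ * δ₁) ≤ ((d - c : ℕ) : ℝ) ^ δ₁ := by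
    rw [Real.rpow_mul hN0.le]
    exact Real.rpow_le_rpow (by positivity) hcd hδ₁.le
  have hEE : K⁻¹ * (N : ℝ) ^ (κ * a) ≤ EE μ s (d - c) := by
    rw [← (hn₁ (d - c) (by omega)).2.1]
    have h2 := (hE 1 (d - c) le_rfl (by omega)).2.1
    have h3 : (1 : ℝ) ≤ EE' μ s 1 := le_max_left _ _
    have h4 : (N : ℝ) ^ (κ * a) ≤ ((d - c : ℕ) : ℝ) ^ a := by
      rw [Real.rpow_mul hN0.le]
      exact Real.rpow_le_rpow (by positivity) hcd ha.le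
    rw [Nat.cast_one, div_one] at h2
    calc K⁻¹ * (N : ℝ) ^ (κ * a) ≤ K⁻¹ * ((d - c : ℕ) : ℝ) ^ a * EE' μ s 1 := by
          have h5 : 0 ≤ K⁻¹ * ((d - c : ℕ) : ℝ) ^ a := by positivity
          have h6 : K⁻¹ * (N : ℝ) ^ (κ * a) ≤ K⁻¹ * ((d - c : ℕ) : ℝ) ^ a := mul_le_mul_of_nonneg_left h4 (by positivity)
          nlinarith
      _ ≤ _ := h2
  have hth : ((N : ℝ) + 1) ^ 4 * Real.exp (-((N : ℝ) ^ (κ * δ₁ / 3) * EE μ s (d - c))) ≤ Real.exp (-(N : ℝ) ^ (κ * a / 2)) := by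
    have h2 : (1 : ℝ) ≤ (N : ℝ) ^ (κ * δ₁ / 3) := Real.one_le_rpow hNR (by positivity)
    have e0 : (N : ℝ) ^ (κ * a) = (N : ℝ) ^ (κ * a / 2) * (N : ℝ) ^ (κ * a / 2) := by
      rw [← Real.rpow_add hN0]
      ring_nf
    obtain ⟨x, hx⟩ : ∃ x : ℝ, x = (N : ℝ) ^ (κ * a / 2) := ⟨_, rfl⟩
    have hx0 : 0 < x := by rw [hx]; positivity
    have hK0 : 0 < K := by linarith
    have h3 : 16 * x ≤ EE μ s (d - c) := by
      have h4 : 16 * x ≤ K⁻¹ * (N : ℝ) ^ (κ * a) := by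
        rw [e0, ← hx, inv_mul_eq_div, le_div_iff₀ hK0]
        rw [← hx] at g3
        nlinarith
      exact h4.trans hEE
    have h5 : 16 * x ≤ (N : ℝ) ^ (κ * δ₁ / 3) * EE μ s (d - c) := by nlinarith
    have h6 : ((N : ℝ) + 1) ^ 4 ≤ Real.exp (8 * x) := by
      have h7 : (N : ℝ) + 1 ≤ Real.exp (2 * x) := by
        have h8 : Real.log N + 1 ≤ x := by
          rw [← hx] at g4
          have h9 : 0 ≤ Real.log N := Real.log_nonneg hNR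
          nlinarith
        have h10 : (N : ℝ) ≤ Real.exp (x - 1) := by
          rw [← Real.log_le_iff_le_exp hN0]
          linarith
        have h11 : Real.exp (x - 1) * Real.exp 1 = Real.exp x := by
          rw [← Real.exp_add]
          ring_nf
        have h12 : (2 : ℝ) ≤ Real.exp 1 := by
          have := Real.add_one_le_exp (1 : ℝ)
          linarith
        have h13 : Real.exp x ≤ Real.exp (2 * x) := Real.exp_le_exp.2 (by linarith)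
        have h14 := Real.exp_pos (x - 1)
        nlinarith
      calc ((N : ℝ) + 1) ^ 4 ≤ Real.exp (2 * x) ^ 4 := pow_le_pow_left₀ (by positivity) h7 4
        _ = Real.exp (8 * x) := by
          rw [← Real.exp_nat_mul]
          ring_nf
    calc _ ≤ Real.exp (8 * x) * Real.exp (-(16 * x)) := mul_le_mul h6 (Real.exp_le_exp.2 (by linarith)) (Real.exp_pos _).le (Real.exp_pos _).le
      _ = Real.exp (-(8 * x)) := by
        rw [← Real.exp_add]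
        ring_nf
      _ ≤ Real.exp (-x) := Real.exp_le_exp.2 (by linarith)
      _ = _ := by rw [hx]
  refine (measure_mono fun η hη => ?_).trans (hL N ((le_max_left _ _).trans hN) N (by omega) le_rfl (y : ℤ) (Int.natCast_nonneg y)
    (by exact_mod_cast hy) (by push_cast; exact hyc))
  have hη' : Real.exp (-(N : ℝ) ^ (κ * a / 2)) < gm (lw μ s η N (Pn N y)) (nCn μ s δ₁ c d) := hη
  exact ⟨d - c, hth.trans_lt (hη'.trans_le (nCn_ms (by omega) hdN (by omega) hε η))⟩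

/-- **The mass of a rare set of paths at the interpolated weights**, two levels (F2b). -/
theorem steep_wt34 {y : ℕ} [Nonempty (Px (Pn N y))] {δk B t : ℝ} {b0 j : ℕ} (hB : 0 ≤ B) (ht : t ∈ Set.Icc (-1 : ℝ) 1)
    {g : Px (Pn N y) → ℝ} (g0 : ∀ S, 0 ≤ g S) (g1 : ∀ S, g S ≤ 1) {ϑ : ℝ} (hϑ : 0 ≤ ϑ) :
    ∫ ω, gm (wj μ s N (Pn N y) δk B b0 j ω t) g ∂(Pm μ N) ≤
      Real.exp (2 * B) * ϑ + (law μ {η | ϑ < gm (lw μ s η N (Pn N y)) g}).toReal := by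
  have hms : MeasurableSet {η | ϑ < gm (lw μ s η N (Pn N y)) g} :=
    measurableSet_lt measurable_const (meas_gm (fun S => meas_lw S) fun S => measurable_const)
  obtain ⟨φ, hφ⟩ : ∃ φ : Env → ℝ, φ = Set.indicator {η | ϑ < gm (lw μ s η N (Pn N y)) g} 1 := ⟨_, rfl⟩
  have mφ : Measurable φ := by
    rw [hφ]
    exact measurable_one.indicator hms
  have φ0 : ∀ η, 0 ≤ φ η := fun η => by
    rw [hφ]
    exact Set.indicator_nonneg (fun _ _ => zero_le_one) η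
  have φ1 : ∀ η, φ η ≤ 1 := fun η => by
    rw [hφ]
    exact Set.indicator_le_self' (fun _ _ => zero_le_one) η
  have hpt : ∀ ω : Env × Finset ℕ, gm (wj μ s N (Pn N y) δk B b0 j ω t) g ≤ Real.exp (2 * B) * ϑ + φ ω.1 := fun ω => by
    by_cases h1 : ϑ < gm (lw μ s ω.1 N (Pn N y)) g
    · have h2 : φ ω.1 = 1 := by
        rw [hφ]
        exact Set.indicator_of_mem (show ω.1 ∈ {η | ϑ < gm (lw μ s η N (Pn N y)) g} from h1) _
      rw [h2]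
      have h3 : gm (wj μ s N (Pn N y) δk B b0 j ω t) g ≤ 1 := (gm_mono _ g1).trans (gm_const _ _).le
      have h4 : 0 ≤ Real.exp (2 * B) * ϑ := by positivity
      linarith
    · have h2 := gm_tilt34 (w := lw μ s ω.1 N (Pn N y)) (w' := wj μ s N (Pn N y) δk B b0 j ω t) (D := B) (fun x => by
        rw [T72.wj_eq72]
        show |lw μ s ω.1 N (Pn N y) x + T72.uj72 μ s (Pn N y) δk B b0 j t ω.2 ω.1 x - lw μ s ω.1 N (Pn N y) x| ≤ B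
        rw [add_sub_cancel_left]
        exact T72.abs_uj72 hB b0 j (abs_le.2 ht) ω.2 ω.1 x) g0
      have h3 := mul_le_mul_of_nonneg_left (not_lt.1 h1) (Real.exp_pos (2 * B)).le
      linarith [φ0 ω.1]
  have iφ : Integrable (fun ω : Env × Finset ℕ => φ ω.1) (Pm μ N) := int_bdd (M := 1) (mφ.comp measurable_fst) fun ω => by
    rw [abs_of_nonneg (φ0 _)]
    exact φ1 _
  have h1 := integral_mono_of_nonneg (μ := Pm μ N) (ae_of_all _ fun ω => gm_nonneg (wj μ s N (Pn N y) δk B b0 j ω t) g0)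
    ((integrable_const (Real.exp (2 * B) * ϑ)).add iφ) (ae_of_all _ hpt)
  refine h1.trans (le_of_eq ?_)
  have h2 := integral_add (integrable_const (Real.exp (2 * B) * ϑ)) iφ
  simp only [Pi.add_apply] at h2 ⊢
  rw [h2, integral_const, Bri36.int_fst (Φ := φ) mφ (M := 1) fun η => by rw [abs_of_nonneg (φ0 _)]; exact φ1 _]
  have h3 : (Pm μ N).real Set.univ = 1 := by rw [measureReal_def, measure_univ, ENNReal.toReal_one]
  rw [h3, one_smul]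
  congr 1
  rw [hφ, integral_indicator_one hms]
  rfl

end E0

end

end Pool.Agent.W_7d29a1_C0.TauE34
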