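import Pool.Agent.W_7d29a1_C0.DT5G
import Pool.Agent.W_7d29a1_C0.SzF23
import Pool.Agent.W_7d29a1_C0.TauE34
import Pool.Agent.W_7d29a1_C0.GwO73

/-!
MP_7d29a1_pr, [CURV0], leaf E5.4 (helper5): THE MICRO TIE IN TERMS OF THE KICK TIMES AN OWN TIE AT THE FRAME, in the form `PrB`: `prB_osc`.
The own tie (pair or mass, level at most `n ^ κ`) is told from the ends of `[j - b', j + b')`, its window ends at the end of `[j - b, j + b)`.
-/

set_option autoImplicit false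
set_option linter.unusedSectionVars false

namespace Pool.Agent.W_7d29a1_C0.DT5

open Finset MeasureTheory Filter Topology
open Pool.Agent.W_7d29a1_F Pool.Agent.W_7d29a1_X
open Pool.Agent.W_7d29a1_H (EE EE_pos one_le_EE sl)
open Pool.Agent.W_7d29a1_HS (In wd)
open Pool.Agent.W_7d29a1_HZ (wd' EE')
open Pool.Agent.W_7d29a1_C0 Pool.Agent.W_7d29a1_C0.Mod92 Pool.Agent.W_7d29a1_C0.Asm96 Pool.Agent.W_7d29a1_C0.N38
open Pool.Agent.W_7d29a1_C0.Frm33 Pool.Agent.W_7d29a1_C0.NTop23 Pool.Agent.W_7d29a1_C0.PrB5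
open Pool.Agent.W_7d29a1_C0.Base5
open Pool.Agent.W_7d29a1_C0.Par92 (Est Sml)
open Pool.Agent.W_7d29a1_C0.GwA50 (GwW gw_ord73)
open Pool.W7d29a1.C0.Bd73 (nCn nCn_nonneg)
open Pool.W7d29a1.C0.R43 (Tau mI)
open Pool.W7d29a1.C0.S1 (osc i1 i1_nonneg i1_of i1_not)
open Pool.W7d29a1.C0 (gm gm_mono gm_const gm_nonneg)

noncomputable section

variable {μ : Measure ℝ} {s : ℝ}

/-- The numbers. -/
theorem num_osc {K : ℕ} (hK : 1 ≤ K) {κS c₁ a₁ c₂ κ β : ℝ} (hc₁ : 0 < c₁) (hc₂ : 0 < c₂) (hκ : 0 < κ)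
    (k1 : κ ≤ κS / 2) (k2 : κ ≤ K * c₁ / 2) (k3 : κ ≤ K * a₁ / 2) (hβ1 : β ≤ 1) (A : ℝ) :
    ∀ᶠ m : ℕ in atTop, (∀ M : ℝ, M ≤ ((2 ^ m : ℕ) : ℝ) ^ κ → Real.exp (((L33 K m : ℕ) : ℝ) ^ (κS / 2 / K)) *
        (2 * Real.exp (-(5 * ((2 ^ m : ℕ) : ℝ) ^ κS))) + Real.exp (-((L33 K m : ℕ) : ℝ) ^ c₁) +
        2 * B33 β m * (Real.exp (-(5 * ((2 ^ m : ℕ) : ℝ) ^ κ)) / (4 * B33 β m + 4)) ≤ Real.exp (-(5 * M))) ∧
      Real.exp (-((L33 K m : ℕ) : ℝ) ^ a₁) / (Real.exp (-(5 * ((2 ^ m : ℕ) : ℝ) ^ κ)) / (4 * B33 β m + 4)) +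
        (Real.exp (-((L33 K m : ℕ) : ℝ) ^ c₁) + Real.exp (-((L33 K m : ℕ) : ℝ) ^ c₂)) ≤ ((2 ^ m : ℕ) : ℝ) ^ (-A) := by
  have hK0 : (0 : ℝ) < K := by exact_mod_cast hK
  filter_upwards [ev_n hκ 8, Sz23.ev_exp hκ (A + 3), Sz23.ev_exp (show 0 < K * c₁ by positivity) (A + 1),
    Sz23.ev_exp (show 0 < K * c₂ by positivity) (A + 1), ev_n (one_pos : (0 : ℝ) < 1) 40] with m h1 h2 h3 h4 h5
  obtain ⟨n, hn⟩ : ∃ n : ℝ, n = ((2 ^ m : ℕ) : ℝ) := ⟨_, rfl⟩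
  obtain ⟨B, hB⟩ : ∃ B : ℝ, B = B33 β m := ⟨_, rfl⟩
  have hn1 : 1 ≤ n := hn ▸ n_ge1 m
  have hn0 : 0 < n := lt_of_lt_of_le one_pos hn1
  have hB0 : 0 < B := by
    rw [hB]
    unfold B33
    exact Real.rpow_pos_of_pos (by positivity) _
  have hBn : B ≤ n := by
    rw [hB]
    unfold B33
    rw [← hn]
    calc n ^ β ≤ n ^ (1 : ℝ) := Real.rpow_le_rpow_of_exponent_le hn1 hβ1
      _ = n := Real.rpow_one n
  rw [← hB]
  have eN : ∀ a : ℝ, ((L33 K m : ℕ) : ℝ) ^ a = n ^ (K * a) := fun a => by rw [L33_pow, ← hn]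
  rw [eN, eN, eN, eN]
  rw [← hn] at h1 h2 h3 h4 h5 ⊢
  rw [Real.rpow_one] at h5
  have e0 : K * (κS / 2 / K) = κS / 2 := by
    field_simp
  rw [e0]
  obtain ⟨x, hx⟩ : ∃ x : ℝ, x = n ^ κ := ⟨_, rfl⟩
  rw [← hx] at h1 h2 ⊢
  have hxx : n ^ (2 * κ) = x * x := by
    rw [hx, ← Real.rpow_add hn0]
    congr 1
    ring
  have hx2 : ∀ a : ℝ, 2 * κ ≤ a → 8 * x ≤ n ^ a := fun a ha => by
    have g1 := Real.rpow_le_rpow_of_exponent_le hn1 ha
    rw [hxx] at g1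
    have g2 : 8 * x ≤ x * x := mul_le_mul_of_nonneg_right h1 (by linarith)
    linarith
  have hs : ∃ t : ℝ, t = n ^ (κS / 2) := ⟨_, rfl⟩
  obtain ⟨t, ht⟩ := hs
  have htx : x ≤ t := by
    rw [hx, ht]
    exact Real.rpow_le_rpow_of_exponent_le hn1 k1
  have htt : n ^ κS = t * t := by
    rw [ht, ← Real.rpow_add hn0]
    congr 1
    ring
  have hE5 := Real.exp_pos (-(5 * x))
  have g2 := hx2 (K * c₁) (by linarith)
  have g3 := hx2 (K * a₁) (by linarith)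
  refine ⟨fun M hM => ?_, ?_⟩
  · rw [← ht, htt]
    have f1 : Real.exp t * (2 * Real.exp (-(5 * (t * t)))) ≤ 1 / 4 * Real.exp (-(5 * x)) := by
      have g1 : t + -(5 * (t * t)) ≤ -(5 * x) + -(34 * x) := by nlinarith
      have g4 : Real.exp (-(34 * x)) ≤ 1 / 8 := by
        rw [Real.exp_neg]
        have g5 : (8 : ℝ) ≤ Real.exp (34 * x) := by
          have := Real.add_one_le_exp (34 * x)
          linarith
        rw [one_div]
        exact inv_anti₀ (by norm_num) g5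
      calc Real.exp t * (2 * Real.exp (-(5 * (t * t)))) = 2 * Real.exp (t + -(5 * (t * t))) := by
            rw [Real.exp_add]
            ring
        _ ≤ 2 * Real.exp (-(5 * x) + -(34 * x)) := by gcongr
        _ = 2 * (Real.exp (-(5 * x)) * Real.exp (-(34 * x))) := by rw [Real.exp_add]
        _ ≤ 2 * (Real.exp (-(5 * x)) * (1 / 8)) := by gcongr
        _ = 1 / 4 * Real.exp (-(5 * x)) := by ring
    have f2 : Real.exp (-n ^ (K * c₁)) ≤ 1 / 4 * Real.exp (-(5 * x)) := by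
      have g4 : Real.exp (-(3 * x)) ≤ 1 / 4 := by
        rw [Real.exp_neg]
        have g5 : (4 : ℝ) ≤ Real.exp (3 * x) := by
          have := Real.add_one_le_exp (3 * x)
          linarith
        rw [one_div]
        exact inv_anti₀ (by norm_num) g5
      calc Real.exp (-n ^ (K * c₁)) ≤ Real.exp (-(5 * x) + -(3 * x)) := Real.exp_le_exp.2 (by linarith)
        _ = Real.exp (-(5 * x)) * Real.exp (-(3 * x)) := Real.exp_add _ _
        _ ≤ Real.exp (-(5 * x)) * (1 / 4) := by gcongr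
        _ = 1 / 4 * Real.exp (-(5 * x)) := by ring
    have f3 : 2 * B * (Real.exp (-(5 * x)) / (4 * B + 4)) ≤ 1 / 2 * Real.exp (-(5 * x)) := by
      rw [← mul_div_assoc, div_le_iff₀ (by linarith)]
      nlinarith
    have f4 : Real.exp (-(5 * x)) ≤ Real.exp (-(5 * M)) := Real.exp_le_exp.2 (by linarith)
    linarith
  · have f1 : Real.exp (-n ^ (K * a₁)) / (Real.exp (-(5 * x)) / (4 * B + 4)) ≤ 1 / 3 * n ^ (-A) := by
      have e1 : Real.exp (-n ^ (K * a₁)) / (Real.exp (-(5 * x)) / (4 * B + 4)) = (4 * B + 4) * Real.exp (-n ^ (K * a₁) + 5 * x) := by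
        rw [div_div_eq_mul_div, Real.exp_add, Real.exp_neg (5 * x)]
        field_simp
      rw [e1]
      have g4 : Real.exp (-n ^ (K * a₁) + 5 * x) ≤ n ^ (-(A + 3)) := (Real.exp_le_exp.2 (by linarith)).trans h2
      have g5 : n ^ (-(A + 3)) = n ^ (-A) * (n ^ 3)⁻¹ := by
        rw [← Real.rpow_natCast, ← Real.rpow_neg hn0.le, ← Real.rpow_add hn0]
        congr 1
        push_cast
        ring
      have g6 : (4 * B + 4) * (n ^ 3)⁻¹ ≤ 1 / 3 := by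
        rw [← div_eq_mul_inv, div_le_iff₀ (by positivity)]
        have g7 : (1600 : ℝ) ≤ n ^ 2 := by nlinarith
        have g8 : n ^ 3 = n ^ 2 * n := by ring
        nlinarith
      have g7 : 0 < n ^ (-A) := Real.rpow_pos_of_pos hn0 _
      calc (4 * B + 4) * Real.exp (-n ^ (K * a₁) + 5 * x) ≤ (4 * B + 4) * (n ^ (-A) * (n ^ 3)⁻¹) := by
            rw [← g5]
            gcongr
        _ = ((4 * B + 4) * (n ^ 3)⁻¹) * n ^ (-A) := by ring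
        _ ≤ 1 / 3 * n ^ (-A) := by gcongr
    have e2 : n ^ (-(A + 1)) = n ^ (-A) * n⁻¹ := by
      rw [← Real.rpow_neg_one, ← Real.rpow_add hn0]
      congr 1
      ring
    have g8 : n⁻¹ ≤ 1 / 40 := by
      rw [one_div]
      exact inv_anti₀ (by norm_num) h5
    have g7 : 0 < n ^ (-A) := Real.rpow_pos_of_pos hn0 _
    have g9 : n ^ (-A) * n⁻¹ ≤ n ^ (-A) * (1 / 40) := by gcongr
    rw [e2] at h3 h4
    linarith

/-- A row by row comparison of averages. -/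
theorem avF_le_add {F : Frm96} {m : ℕ} {f g : ∀ y, Env × Finset ℕ → Px (Pn (F.L m) y) → ℝ} {e : ℝ} (he : 0 ≤ e)
    (h : ∀ y ∈ F.ys m, ∫ ω, gm (wm μ s (F.L m) (Pn (F.L m) y) ω) (f y ω) ∂(Pm μ (F.L m)) ≤
      ∫ ω, gm (wm μ s (F.L m) (Pn (F.L m) y) ω) (g y ω) ∂(Pm μ (F.L m)) + e) : avF μ s F m f ≤ avF μ s F m g + e := by
  unfold avF av
  have h1 := sum_le_sum h
  rw [sum_add_distrib, sum_const, nsmul_eq_mul] at h1
  rcases (F.ys m).eq_empty_or_nonempty with h0 | h0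
  · rw [h0]
    simp only [card_empty, Nat.cast_zero, inv_zero, sum_empty, mul_zero, zero_add]
    exact he
  · have hc : (0 : ℝ) < (F.ys m).card := by exact_mod_cast h0.card_pos
    have h2 := mul_le_mul_of_nonneg_left h1 (inv_pos.2 hc).le
    rw [mul_add, inv_mul_cancel_left₀ hc.ne'] at h2
    exact h2

variable [IsProbabilityMeasure μ] {c₀ C₀ : ℝ} {n₀ : ℕ} {K : ℕ}

/-- **THE MICRO TIE IN TERMS OF THE KICK TIMES AN OWN TIE, AT THE FRAME.** -/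
theorem prB_osc (h : In μ s c₀ C₀ n₀) (hK : 32 ≤ K) {δ ε : ℝ} (hδ : 0 < δ) (hε : 0 < ε) : ∃ κ : ℝ, 0 < κ ∧ ∀ A : ℝ,
    Est fun ι β γ m => ∀ p p' q i : ℕ, δ * m ≤ p → p < p' →
      (∀ j ∈ Rw (R33 ι m) (i * 2 ^ q) ((i + 1) * 2 ^ q), 2 * 2 ^ p' ≤ j ∧ j + 2 ^ p' ≤ L33 K m) →
      ∀ a e : ℕ → ℕ, ((∀ j ∈ Rw (R33 ι m) (i * 2 ^ q) ((i + 1) * 2 ^ q), e j = j + 2 ^ p ∧ a j + 2 ^ p / 4 ≤ j + 2 ^ p) ∨
        (∀ j ∈ Rw (R33 ι m) (i * 2 ^ q) ((i + 1) * 2 ^ q), a j = j - 2 ^ p ∧ j + 2 ^ p / 4 ≤ e j + 2 ^ p)) →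
      ∀ (To : Prop) (M : ℝ), M ≤ ((2 ^ m : ℕ) : ℝ) ^ κ → ∀ K₀ : ℝ, 0 ≤ K₀ →
      PrB μ s (frm33 μ s K ι β γ) m q i (2 ^ (p' - 6)) (2 ^ p') K₀
        (fun y ω j S => i1 (Real.exp (-(5 * M)) ≤ osc (wm μ s (L33 K m) (Pn (L33 K m) y) ω) (pJ (j - 2 ^ p) (j + 2 ^ p))
            (Mod92.gg μ s (Pn (L33 K m) y) γ (B33 β m) (2 ^ (p - ⌈ι * (m : ℝ)⌉₊)) ω j) S) *
          tkR To (wm μ s (L33 K m) (Pn (L33 K m) y) ω) (j - 2 ^ p') (j + 2 ^ p') (a j) (e j) M S)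
        (2 * (((2 ^ m : ℕ) : ℝ) ^ ε * ((EE μ s (2 ^ (p - ⌈ι * (m : ℝ)⌉₊)))⁻¹ * (EE μ s (2 ^ p))⁻¹))) 0 0
        ((K₀ + 1) * ((2 ^ m : ℕ) : ℝ) ^ (-A)) := by
  have hK0 : (0 : ℝ) < K := by
    have : (32 : ℝ) ≤ K := by exact_mod_cast hK
    linarith
  obtain ⟨κS, hκS, hS⟩ := prB_S1 (μ := μ) (s := s) h hK (δ := δ / 2) (ε := ε) (by positivity) hε
  obtain ⟨c₂, hc₂, hS2⟩ := hS κS hκS le_rfl
  obtain ⟨c₁, hc₁, hG⟩ := gw_ord73 h (κ := δ / 4 / K) (ε := κS / 2 / K) (by positivity) (by positivity)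
  obtain ⟨a₁, ha₁, hN⟩ := TauE34.nCn34 h (κ := δ / 4 / K) (by positivity)
  obtain ⟨κ, hκd⟩ : ∃ κ : ℝ, κ = min (κS / 2) (min (K * c₁ / 2) (K * a₁ / 2)) := ⟨_, rfl⟩
  have k0 : 0 < κ := by
    rw [hκd]
    exact lt_min (by positivity) (lt_min (by positivity) (by positivity))
  have k1 : κ ≤ κS / 2 := by rw [hκd]; exact min_le_left _ _
  have k2 : κ ≤ K * c₁ / 2 := by rw [hκd]; exact (min_le_right _ _).trans (min_le_left _ _)
  have k3 : κ ≤ K * a₁ / 2 := by rw [hκd]; exact (min_le_right _ _).trans (min_le_right _ _)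
  refine ⟨κ, k0, fun A => ⟨δ / 4, by positivity, fun ι hι hι4 => ⟨1, one_pos, fun β hβ hβ1 => Sml.of fun γ hγ => ?_⟩⟩⟩
  obtain ⟨δ₁, hδ₁, -, N₀, hG⟩ := hG γ hγ
  obtain ⟨δ', c₃, hδ', hc₃, N₁, hN⟩ := hN δ₁ hδ₁
  filter_upwards [hS2 ι β γ, b0_33 hδ hι4, num_osc (by omega : 1 ≤ K) (a₁ := a₁) hc₁ hc₃ k0 k1 k2 k3 hβ1 (A + K + 1), ev_L (by omega : 1 ≤ K) N₀,
    ev_L (by omega : 1 ≤ K) N₁, cone33 h hK hδ', Sz23.ev_exp hc₂ (A + 1), ev_n (one_pos : (0 : ℝ) < 1) 8, eventually_gt_atTop 0]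
    with m h1 h2 h3 h4 h5 h6 h7 h8 h9
  obtain ⟨h3, h3'⟩ := h3
  intro p p' q i hp hpp hrows a e hside To M hM K₀ hK₀
  obtain ⟨n, hn⟩ : ∃ n : ℝ, n = ((2 ^ m : ℕ) : ℝ) := ⟨_, rfl⟩
  obtain ⟨b0, hb0⟩ : ∃ b0 : ℕ, b0 = 2 ^ (p - ⌈ι * (m : ℝ)⌉₊) := ⟨_, rfl⟩
  obtain ⟨b, hb⟩ : ∃ b : ℕ, b = 2 ^ p := ⟨_, rfl⟩
  have hn1 : 1 ≤ n := hn ▸ n_ge1 m
  have hn0 : 0 < n := lt_of_lt_of_le one_pos hn1
  have hm0 : (0 : ℝ) < m := by exact_mod_cast h9
  have hp1 : 1 ≤ p := by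
    have : 0 < (p : ℝ) := lt_of_lt_of_le (by positivity) hp
    have : 0 < p := by exact_mod_cast this
    omega
  have hceil : 0 < ⌈ι * (m : ℝ)⌉₊ := Nat.ceil_pos.2 (by positivity)
  have hb0b : b0 ≤ b / 2 := by
    have e1 : b = 2 * 2 ^ (p - 1) := by
      rw [hb, ← pow_succ']
      congr 1
      omega
    rw [e1, Nat.mul_div_cancel_left _ two_pos, hb0]
    exact Nat.pow_le_pow_right two_pos (by omega)
  have hb0n : n ^ (δ / 4) ≤ b0 := by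
    rw [hn, hb0]
    exact h2 p hp
  have hbb : 2 * b ≤ 2 ^ p' := by
    rw [hb, ← pow_succ']
    exact Nat.pow_le_pow_right two_pos (by omega)
  have hM2 : M ≤ n ^ κS := by
    refine hM.trans ?_
    rw [← hn]
    exact Real.rpow_le_rpow_of_exponent_le hn1 (by linarith)
  have hys : ∀ y ∈ ys33 μ s K m, y ≤ L33 K m ∧ |(y : ℝ) - sl μ s * L33 K m| ≤ (L33 K m : ℝ) ^ δ' * wd' μ s (L33 K m) := fun y hy => by
    have hy2 := mem_Ico.1 (show y ∈ Ico (y33 μ s K m) (y33 μ s K m + M33 m) from hy)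
    exact h6.2.2 y (by omega) (by omega)
  have hne : ∀ y ∈ (frm33 μ s K ι β γ).ys m, Nonempty (Px (Pn ((frm33 μ s K ι β γ).L m) y)) := fun y hy => ne_Pn (hys y hy).1
  have hpδ : δ / 2 * m ≤ p := by linarith [mul_pos hδ hm0]
  -- the two sites
  have hBM : ∀ (u v : ℕ → ℕ) (M : ℝ), ∀ j ∈ Rw ((frm33 μ s K ι β γ).R m) (i * 2 ^ q) ((i + 1) * 2 ^ q),
      BM ((frm33 μ s K ι β γ).ys m) fun y ω S => tkR True (wm μ s (L33 K m) (Pn (L33 K m) y) ω) (j - 2 ^ p) (j + 2 ^ p) (u j) (v j) M S *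
          tkR To (wm μ s (L33 K m) (Pn (L33 K m) y) ω) (j - 2 ^ p') (j + 2 ^ p') (a j) (e j) M S := fun u v M j _ =>
    ⟨⟨1, fun y _ ω S => by
      rw [abs_of_nonneg (mul_nonneg tkR_nonneg tkR_nonneg)]
      exact mul_le_one₀ tkR_le_one tkR_nonneg tkR_le_one⟩, fun y _ S => (meas_tkR S).mul (meas_tkR S)⟩
  have P1 := h1 p p' q i hpδ hpp hrows b0 (by rw [← hn, show δ / 2 / 2 = δ / 4 by ring]; exact hb0n) (by omega)
    (fun j => j - b0) (fun j => j) (fun j hj => by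
      have := hrows j hj
      rw [← hb]
      constructor
      · omega
      · omega) a e hside True To (n ^ κS) (by rw [hn]) K₀ hK₀
  have P2 := h1 p p' q i hpδ hpp hrows b0 (by rw [← hn, show δ / 2 / 2 = δ / 4 by ring]; exact hb0n) (by omega)
    (fun j => j) (fun j => j + b0) (fun j hj => by
      rw [← hb]
      constructor
      · omega
      · omega) a e hside True To (n ^ κS) (by rw [hn]) K₀ hK₀
  have P := PrB.add hne P1 P2 (hBM _ _ _) (hBM _ _ _)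
  rw [← hn] at h3 h3' h7 h8 hM ⊢
  rw [Real.rpow_one] at h8
  rw [← hn] at P
  have hA0 : 0 < n ^ (-A) := Real.rpow_pos_of_pos hn0 _
  have hA1 : n ^ (-(A + 1)) ≤ 1 / 8 * n ^ (-A) := by
    have e2 : n ^ (-(A + 1)) = n ^ (-A) * n⁻¹ := by
      rw [← Real.rpow_neg_one, ← Real.rpow_add hn0]
      congr 1
      ring
    have g8 : n⁻¹ ≤ 1 / 8 := by
      rw [one_div]
      exact inv_anti₀ (by norm_num) h8
    rw [e2]
    have : n ^ (-A) * n⁻¹ ≤ n ^ (-A) * (1 / 8) := by gcongr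
    linarith
  have P3 := P.mono (X := fun y ω j S => i1 (Real.exp (-(5 * M)) ≤ osc (wm μ s (L33 K m) (Pn (L33 K m) y) ω) (pJ (j - 2 ^ p) (j + 2 ^ p))
            (Mod92.gg μ s (Pn (L33 K m) y) γ (B33 β m) (2 ^ (p - ⌈ι * (m : ℝ)⌉₊)) ω j) S) *
          tkR To (wm μ s (L33 K m) (Pn (L33 K m) y) ω) (j - 2 ^ p') (j + 2 ^ p') (a j) (e j) M S) (e' := K₀ * n ^ (-(A + 1))) fun k H hH => ?_
  · refine P3.num hne (by rw [← hb0]; linarith) (by norm_num) (by norm_num) ?_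
    have g1 : (K₀ + 1) * Real.exp (-n ^ c₂) ≤ (K₀ + 1) * (1 / 8 * n ^ (-A)) := mul_le_mul_of_nonneg_left (h7.trans hA1) (by linarith)
    have g2 : K₀ * n ^ (-(A + 1)) ≤ (K₀ + 1) * (1 / 8 * n ^ (-A)) := by
      calc K₀ * n ^ (-(A + 1)) ≤ (K₀ + 1) * n ^ (-(A + 1)) := by gcongr; linarith
        _ ≤ (K₀ + 1) * (1 / 8 * n ^ (-A)) := by gcongr
    have g3 : 0 ≤ (K₀ + 1) * n ^ (-A) := by positivity
    linarith
  · have hrow : ∀ j ∈ rws (frm33 μ s K ι β γ) m q i (2 ^ (p' - 6)) k,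
        avF μ s (frm33 μ s K ι β γ) m (fun y ω S => i1 (Real.exp (-(5 * M)) ≤ osc (wm μ s (L33 K m) (Pn (L33 K m) y) ω)
            (pJ (j - 2 ^ p) (j + 2 ^ p)) (Mod92.gg μ s (Pn (L33 K m) y) γ (B33 β m) (2 ^ (p - ⌈ι * (m : ℝ)⌉₊)) ω j) S) *
          tkR To (wm μ s (L33 K m) (Pn (L33 K m) y) ω) (j - 2 ^ p') (j + 2 ^ p') (a j) (e j) M S * H y ω S) ≤
        avF μ s (frm33 μ s K ι β γ) m (fun y ω S => (tkR True (wm μ s (L33 K m) (Pn (L33 K m) y) ω) (j - 2 ^ p) (j + 2 ^ p) (j - b0) j (n ^ κS) S *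
          tkR To (wm μ s (L33 K m) (Pn (L33 K m) y) ω) (j - 2 ^ p') (j + 2 ^ p') (a j) (e j) (n ^ κS) S +
          tkR True (wm μ s (L33 K m) (Pn (L33 K m) y) ω) (j - 2 ^ p) (j + 2 ^ p) j (j + b0) (n ^ κS) S *
          tkR To (wm μ s (L33 K m) (Pn (L33 K m) y) ω) (j - 2 ^ p') (j + 2 ^ p') (a j) (e j) (n ^ κS) S) * H y ω S) +
          K₀ * n ^ (-(A + K + 1)) := fun j hj => by
      have hj2 := hrows j (mem_filter.1 hj).1
      refine avF_le_add (by positivity) fun y hy => ?_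
      obtain ⟨g1, g2⟩ := hys y hy
      have hnn : Nonempty (Px (Pn (L33 K m) y)) := ne_Pn g1
      have e1 : ((L33 K m : ℕ) : ℝ) ^ (δ / 4 / K) = n ^ (δ / 4) := by
        rw [L33_pow, ← hn]
        congr 1
        field_simp
      have g3 : j - (j - b0) = b0 := by omega
      have g4 : (n : ℝ) ^ (δ / 4) ≤ ((j + b0 - (j - b0) : ℕ) : ℝ) := by
        refine hb0n.trans ?_
        have : b0 ≤ j + b0 - (j - b0) := by omega
        exact_mod_cast this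
      have key := osc_int (μ := μ) (s := s) (N := L33 K m) (y := y) (κ := δ / 4 / K) (δ := γ) (δ₁ := δ₁) (ε := κS / 2 / K) (c₁ := c₁)
        (B := B33 β m) (m := M) (m4 := n ^ κS) (ρ := Real.exp (-(5 * n ^ κ)) / (4 * B33 β m + 4)) (ϑ := Real.exp (-((L33 K m : ℕ) : ℝ) ^ a₁))
        (K₀ := K₀) (b0 := b0) (b := b) (j := j) (P1 := Real.exp (-((L33 K m : ℕ) : ℝ) ^ c₁)) (P2 := Real.exp (-((L33 K m : ℕ) : ℝ) ^ c₃))
        (by omega) (by rw [e1, g3]; exact hb0n) (by rw [e1]; exact hb0n) (by unfold B33; positivity) (by omega) (h3 M hM)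
        (by unfold B33; positivity) (Real.exp_pos _).le (hG _ h4) (hN _ h5 y g1 g2 _ _ (by rw [e1]; exact g4) (by omega)) (Real.exp_pos _).le
        (Real.exp_pos _).le
        (O := fun ω S => tkR To (wm μ s (L33 K m) (Pn (L33 K m) y) ω) (j - 2 ^ p') (j + 2 ^ p') (a j) (e j) M S)
        (O' := fun ω S => tkR To (wm μ s (L33 K m) (Pn (L33 K m) y) ω) (j - 2 ^ p') (j + 2 ^ p') (a j) (e j) (n ^ κS) S)
        (H := H y) (fun _ _ => tkR_nonneg) (fun _ _ => tkR_mono hM2) (fun _ _ => tkR_le_one) (fun x => meas_tkR x) (fun ω x => hH.nn y ω x)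
        (fun ω x => hH.bdd y ω x) (fun x => hH.mes y x)
      rw [hb, hb0] at key
      rw [hb0]
      refine key.trans (add_le_add le_rfl (mul_le_mul_of_nonneg_left h3' hK₀))
    refine (sum_le_sum hrow).trans ?_
    rw [sum_add_distrib, sum_const, nsmul_eq_mul]
    refine add_le_add le_rfl ?_
    rcases (rws (frm33 μ s K ι β γ) m q i (2 ^ (p' - 6)) k).eq_empty_or_nonempty with hE | ⟨j, hj⟩
    · rw [hE]
      simp only [card_empty, Nat.cast_zero, zero_mul]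
      positivity
    · have g1 := hrows j (mem_filter.1 hj).1
      have g2 : (rws (frm33 μ s K ι β γ) m q i (2 ^ (p' - 6)) k).card ≤ L33 K m := by
        have g3 := card_rws_le (F := frm33 μ s K ι β γ) (m := m) (q := q) (i := i) (k := k) (show 0 < 2 ^ (p' - 6) by positivity)
        have g4 : 2 ^ (p' - 6) ≤ 2 ^ p' := Nat.pow_le_pow_right two_pos (Nat.sub_le _ _)
        omega
      have g3 : ((rws (frm33 μ s K ι β γ) m q i (2 ^ (p' - 6)) k).card : ℝ) ≤ n ^ (K : ℝ) := by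
        have g4 : ((L33 K m : ℕ) : ℝ) = n ^ (K : ℝ) := by
          have := L33_pow K m 1
          rw [Real.rpow_one, mul_one, ← hn] at this
          exact this
        rw [← g4]
        exact_mod_cast g2
      calc ((rws (frm33 μ s K ι β γ) m q i (2 ^ (p' - 6)) k).card : ℝ) * (K₀ * n ^ (-(A + K + 1))) ≤
          n ^ (K : ℝ) * (K₀ * n ^ (-(A + K + 1))) := by gcongr
        _ = K₀ * (n ^ (K : ℝ) * n ^ (-(A + K + 1))) := by ring
        _ = K₀ * n ^ (-(A + 1)) := by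
            rw [← Real.rpow_add hn0]
            congr 2
            ring

end

end Pool.Agent.W_7d29a1_C0.DT5
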