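import Pool.Agent.W_7d29a1_C0.SiteO80

/-!
MP_7d29a1_pr, [CURV0], leaf E5.4 (helper5): THE SITE SUM `micro tie given the window of radius b` times `own tie given the window of
radius b'`, over a stretch of any length, for weights which are blind within `3 b'` of the stretch: `siteM_R`, `siteM_L` of helper80 over the
pieces of length `b / 64`, and the long replicas as a second exclusive place (`s1_long`).
-/

set_option autoImplicit false

namespace Pool.Agent.W_7d29a1_C0.DT5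

open MeasureTheory ProbabilityTheory Filter Topology Finset
open Pool.Agent.W_7d29a1_F Pool.Agent.W_7d29a1_X Pool.Agent.W_7d29a1_h4g Pool.Agent.W_7d29a1_H
open Pool.Agent.W_7d29a1_HS (In wd md)
open Pool.Agent.W_7d29a1_HZ Pool.Agent.W_7d29a1_HZ.R72 Pool.Agent.W_7d29a1_Z.Asm72
open Pool.Agent.W_7d29a1_HZ.Z86
open Pool.Agent.W_7d29a1_C0.P86
open Pool.Agent.W_7d29a1_C0.P3 (Hy hy_ms hy_off er amp amp_ex)
open Pool.Agent.W_7d29a1_C0.Own80
open Pool.Agent.W_7d29a1_C0.Mod92 (Px Pn lw pJ meas_lw meas_cE)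
open Pool.Agent.W_7d29a1_C0.Swap57 (NI cE2)
open Pool.W7d29a1.C0.VT31 (cE)
open Pool.W7d29a1.C0.R43 (Tau)
open Pool.Agent.W_7d29a1_C0.Wp23 (WPs WPs.mono WPs.sum WPs.add wps_of_ev wps_rows)
open scoped ENNReal

variable {μ : Measure ℝ} {s : ℝ} {N : ℕ}

/-- A mass which is zero. -/
theorem mc_zero {y c d : ℕ} {A : Finset ℕ → Finset ℕ → Prop}
    (h : ∀ S S', S ⊆ range N → S' ⊆ range N → pos S N = y → pos S' N = y → (∀ i, i ≤ c ∨ d ≤ i → pos S i = pos S' i) → ¬ A S S')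
    (η : Env) (S : Finset ℕ) : mc μ s N y c d A η S = 0 := by
  classical
  refine le_antisymm ((mc_mono (B := fun _ _ => False) (fun S S' h1 h2 h3 h4 h5 h6 => h S S' h1 h2 h3 h4 h5 h6) η S).trans (le_of_eq ?_))
    (mc_nonneg _ _)
  unfold mc
  split_ifs with hS
  · simp [Pool.W7d29a1.C0.VT31.cE]
  · rfl

/-- No long replica in a short block. -/
theorem lg_not {y c d j b : ℕ} (hd : d ≤ j + 11 * b) (hj : j ≤ d + 11 * b) (x : ℝ) (η : Env) (S : Finset ℕ) :
    ¬ Lg μ s N y c d j b x η S := by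
  unfold Lg Hy
  rw [mc_zero (fun S S' _ _ _ _ h5 h6 => h6 d (by omega) hd (h5 d (Or.inr le_rfl)))]
  exact not_lt.2 (Real.exp_pos _).le

theorem tauS_ms {y c d i j : ℕ} {M : ℝ} : Ms (TauS μ s N y c d i j M) := fun S => by
  unfold TauS
  by_cases hS : S ∈ Pn N y
  · have e : {η : Env | ∃ h : S ∈ Pn N y, Tau (lw μ s η N (Pn N y)) (pJ c d) i j M ⟨S, h⟩} =
        {η : Env | Real.exp (-(5 * M)) ≤ cE2 (lw μ s η N (Pn N y)) (pJ c d) (NI i j) ⟨S, hS⟩ ⟨S, hS⟩} := by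
      ext η
      exact ⟨fun h => h.2, fun h => ⟨hS, h⟩⟩
    rw [e]
    have : Nonempty (Px (Pn N y)) := ⟨⟨S, hS⟩⟩
    exact measurableSet_le measurable_const (meas_cE (w := fun η => lw μ s η N (Pn N y))
      (f := fun η z => cE (lw μ s η N (Pn N y)) (pJ c d) (NI i j z) ⟨S, hS⟩) meas_lw
      (fun z => meas_cE (w := fun η => lw μ s η N (Pn N y)) (f := fun _ => NI i j z) meas_lw (fun _ => measurable_const) _ _) _ _)
  · have e : {η : Env | ∃ h : S ∈ Pn N y, Tau (lw μ s η N (Pn N y)) (pJ c d) i j M ⟨S, h⟩} = ∅ := by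
      ext η
      exact ⟨fun h => absurd h.1 hS, fun h => absurd h id⟩
    rw [e]
    exact MeasurableSet.empty

theorem tk_ms {T : Prop} {y c d i j : ℕ} {M : ℝ} : Ms (TK μ s N T y c d i j M) := fun S => by
  unfold TK
  by_cases hT : T
  · have e : {η : Env | (T ∧ TauS μ s N y c d i j M η S) ∨ (¬ T ∧ Hy μ s N y c d (NoMeet i j) (7 * M) η S)} =
        {η : Env | TauS μ s N y c d i j M η S} := by
      ext η
      exact ⟨fun h => h.elim (fun g => g.2) fun g => absurd hT g.1, fun h => Or.inl ⟨hT, h⟩⟩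
    rw [e]
    exact tauS_ms S
  · have e : {η : Env | (T ∧ TauS μ s N y c d i j M η S) ∨ (¬ T ∧ Hy μ s N y c d (NoMeet i j) (7 * M) η S)} =
        {η : Env | Hy μ s N y c d (NoMeet i j) (7 * M) η S} := by
      ext η
      exact ⟨fun h => h.elim (fun g => absurd g.1 hT) fun g => g.2, fun h => Or.inr ⟨hT, h⟩⟩
    rw [e]
    exact hy_ms _ _ S

/-- Union of the classes. -/
theorem wps_union {y : ℤ} {r : ℕ → ℝ≥0∞} {p : ℝ≥0∞} {JJ : Finset ℕ} {A : ℕ → Env → Finset ℕ → ℝ≥0∞} {J : Finset ℕ} (φ : ℕ → ℕ)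
    (h : ∀ k ∈ JJ.image φ, WPs μ s N y (r k) p (JJ.filter fun j => φ j = k) A J) :
    WPs μ s N y (∑ k ∈ JJ.image φ, r k) ((JJ.image φ).card * p) JJ A J := by
  intro f hf hf1 hfo
  have e : ∑ i ∈ JJ, Q1 μ s N y (fun η S => f η S * A i η S) =
      ∑ k ∈ JJ.image φ, ∑ i ∈ JJ.filter fun j => φ j = k, Q1 μ s N y (fun η S => f η S * A i η S) :=
    (sum_fiberwise_of_maps_to (fun j hj => mem_image_of_mem φ hj) _).symm
  rw [e]
  refine (sum_le_sum fun k hk => h k hk f hf hf1 hfo).trans (le_of_eq ?_)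
  rw [sum_add_distrib, sum_const, nsmul_eq_mul, sum_mul]

variable [IsProbabilityMeasure μ] {c₀ C₀ : ℝ} {n₀ : ℕ}

/-- **The long replicas**: micro tie given `[j - b, j + b)` and a replica given `[j - b', j + b')` without a meeting in
`[j - 11 b, j + 11 b]`, one row. -/
theorem s1_long (h : In μ s c₀ C₀ n₀) : ∀ ε θ : ℝ, 0 < ε → 0 < θ → ∃ δ κ c₂ : ℝ, 0 < δ ∧ 0 < κ ∧ 0 < c₂ ∧ ∃ L₀ : ℕ, ∀ L : ℕ, L₀ ≤ L →
    ∀ N : ℕ, L ≤ 16 * N → N ≤ L → ∀ y : ℕ, y ≤ N → |(y : ℝ) - sl μ s * N| ≤ ((L : ℝ) ^ δ * wd' μ s N) →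
    ∀ M : ℝ, 8 ≤ M → M ≤ (L : ℝ) ^ κ → ∀ b l b' j u v : ℕ, (L : ℝ) ^ θ ≤ b → (L : ℝ) ^ θ ≤ l → b ≤ b' → b' ≤ j → j + b' ≤ N →
    j ≤ u + b → v ≤ j + b → u + l ≤ v → ∀ Tm : Prop,
    WPs μ s N y (ENNReal.ofReal ((L : ℝ) ^ ε * ((EE' μ s l)⁻¹ * (EE' μ s b)⁻¹))) (ENNReal.ofReal (Real.exp (-(L : ℝ) ^ c₂) + 4 * Real.exp (-M)))
      ({j} : Finset ℕ) (fun j η S => ind (TK μ s N Tm y (j - b) (j + b) u v M η S ∧ Lg μ s N y (j - b') (j + b') j b (8 * M) η S))
      (Ioc (j - b') (j + b')) := by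
  intro ε θ hε hθ
  obtain ⟨δ, κ₁, c₂, hδ, hκ₁, hc₂, L₁, hP⟩ := tauQ h 2 (by norm_num) (ε / 2) θ (by positivity) hθ
  obtain ⟨L₂, h8⟩ := ev_mul86 8 (show κ₁ / 2 < κ₁ by linarith)
  refine ⟨δ, κ₁ / 2, c₂, hδ, by positivity, hc₂, L₁ + L₂ + 100, ?_⟩
  intro L hL N hLN hNL y hyN hyc M hM hML b l b' j u v hbL hlL hbb hbj hjN hu hv huv Tm f hf hf1 hfo
  have hL100 : (100 : ℝ) ≤ L := by exact_mod_cast (show 100 ≤ L by omega)
  have hL0 : (0 : ℝ) < L := by linarith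
  have hL1 : (1 : ℝ) ≤ L := by linarith
  have h8M : 8 * M ≤ (L : ℝ) ^ κ₁ := by
    have := h8 L (by omega)
    linarith
  have hMκ : M ≤ (L : ℝ) ^ κ₁ := by linarith
  have hκ1 : (1 : ℝ) ≤ (L : ℝ) ^ κ₁ := Real.one_le_rpow hL1 hκ₁.le
  rw [sum_singleton]
  by_cases hs : b' < 11 * b
  · have e : Q1 μ s N y (fun η S => f η S * ind (TK μ s N Tm y (j - b) (j + b) u v M η S ∧
        Lg μ s N y (j - b') (j + b') j b (8 * M) η S)) = 0 := by
      have e1 : (fun (η : Env) (S : Finset ℕ) => f η S * ind (TK μ s N Tm y (j - b) (j + b) u v M η S ∧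
          Lg μ s N y (j - b') (j + b') j b (8 * M) η S)) = fun _ _ => 0 := by
        funext η S
        rw [ind_not (fun g => lg_not (by omega) (by omega) _ η S g.2), mul_zero]
      rw [e1]
      simp [Q1]
    rw [e]
    exact zero_le
  · push Not at hs
    have hexp : (1 : ℝ≥0∞) ≤ ENNReal.ofReal (Real.exp ((L : ℝ) ^ κ₁)) := by
      rw [← ENNReal.ofReal_one]
      exact ENNReal.ofReal_le_ofReal (Real.one_le_exp (by positivity))
    have hy1 : ∀ {c d : ℕ} {A : Finset ℕ → Finset ℕ → Prop} {x : ℝ}, x ≤ 8 * M → ∀ (η : Env) (S : Finset ℕ),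
        ind (Hy μ s N y c d A x η S) ≤ ENNReal.ofReal (Real.exp ((L : ℝ) ^ κ₁)) * ENNReal.ofReal (mc μ s N y c d A η S) := by
      intro c d A x hx η S
      by_cases g : Hy μ s N y c d A x η S
      · rw [ind_of g, ← ENNReal.ofReal_mul (Real.exp_pos _).le, ← ENNReal.ofReal_one]
        refine ENNReal.ofReal_le_ofReal ?_
        unfold Hy at g
        have g2 := mul_le_mul_of_nonneg_left g.le (Real.exp_pos ((L : ℝ) ^ κ₁)).le
        rw [← Real.exp_add] at g2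
        exact (Real.one_le_exp (by linarith)).trans g2
      · rw [ind_not g]
        exact zero_le
    have key := hP L (by omega) N hLN hNL y hyN hyc ![j - b', j - b] ![j + b', j + b] ![j - b', j - b] ![j + b', j + b] ![j + b, u]
      ![j + 11 * b, v] ![b, l] (fun i => ?_) (fun i => ?_) ![False, Tm] ![Ioo (j + b) (j + b'), Ioo (j - b) (j + b)] (fun i => ?_) M hM hMκ
      ![fun η S => ind (Lg μ s N y (j - b') (j + b') j b (8 * M) η S), fun η S => ind (TK μ s N Tm y (j - b) (j + b) u v M η S)]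
      (fun i η S => ?_) (fun i hi => ?_) (fun i hi => ?_) f hf hf1 (fun i => ?_)
    · refine le_trans (le_of_eq ?_) (key.trans (le_of_eq ?_))
      · congr 1
        funext η S
        rw [Fin.prod_univ_two]
        show f η S * ind (TK μ s N Tm y (j - b) (j + b) u v M η S ∧ Lg μ s N y (j - b') (j + b') j b (8 * M) η S) =
          f η S * (ind (Lg μ s N y (j - b') (j + b') j b (8 * M) η S) * ind (TK μ s N Tm y (j - b) (j + b) u v M η S))
        rw [ind_and80, mul_comm (ind (TK μ s N Tm y (j - b) (j + b) u v M η S))]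
      · rw [Fin.prod_univ_two]
        have hE : ∀ n, (0 : ℝ) < EE' μ s n := fun n => lt_of_lt_of_le one_pos (le_max_left _ _)
        have e1 : ENNReal.ofReal ((L : ℝ) ^ (ε / 2) * (EE' μ s b)⁻¹) * ENNReal.ofReal ((L : ℝ) ^ (ε / 2) * (EE' μ s l)⁻¹) =
            ENNReal.ofReal ((L : ℝ) ^ ε * ((EE' μ s l)⁻¹ * (EE' μ s b)⁻¹)) := by
          rw [← ENNReal.ofReal_mul (mul_nonneg (Real.rpow_nonneg hL0.le _) (inv_nonneg.2 (hE _).le))]
          congr 1
          have e2 : (L : ℝ) ^ ε = (L : ℝ) ^ (ε / 2) * (L : ℝ) ^ (ε / 2) := by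
            rw [← Real.rpow_add hL0]
            congr 1
            ring
          rw [e2]
          ring
        have e3 : ENNReal.ofReal (Real.exp (-(L : ℝ) ^ c₂) + 4 * Real.exp (-M)) =
            ENNReal.ofReal (Real.exp (-(L : ℝ) ^ c₂)) + 2 * ((2 : ℕ) : ℝ≥0∞) * ENNReal.ofReal (Real.exp (-M)) := by
          rw [ENNReal.ofReal_add (Real.exp_pos _).le (by positivity), ENNReal.ofReal_mul (by norm_num)]
          congr 2
          norm_num
        rw [e3, ← add_assoc, ← e1]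
        rfl
    · fin_cases i
      · show j - b' ≤ j - b' ∧ j - b' ≤ j + b ∧ j + b ≤ j + 11 * b ∧ j + 11 * b ≤ j + b' ∧ j + b' ≤ j + b' ∧ j + b' ≤ N
        omega
      · show j - b ≤ j - b ∧ j - b ≤ u ∧ u ≤ v ∧ v ≤ j + b ∧ j + b ≤ j + b ∧ j + b ≤ N
        omega
    · fin_cases i
      · exact hbL
      · exact hlL
    · fin_cases i
      · refine Or.inr (Or.inl ⟨rfl, fun i' hi' => Or.inl ?_⟩)
        have : i' = 1 := by
          fin_cases i'
          · exact absurd hi' (lt_irrefl _)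
          · rfl
        rw [this]
        show j + b ≤ j + b
        exact le_rfl
      · refine Or.inl ⟨rfl, fun i' hi' => ?_⟩
        exfalso
        fin_cases i'
        · exact absurd hi' (by decide)
        · exact absurd hi' (lt_irrefl _)
    · fin_cases i
      · exact ind_le _
      · exact ind_le _
    · fin_cases i
      · refine ⟨NoMeet (j - 11 * b) (j + 11 * b), 1, fun _ => j + b, fun _ => j + 11 * b, by rwa [Nat.cast_one], fun n _ => ?_,
          fun S S' _ _ _ _ h5 h6 => ?_, fun η S => hy1 le_rfl η S⟩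
        · show j + b ≤ j + b ∧ j + b + b ≤ j + 11 * b ∧ j + 11 * b ≤ j + 11 * b
          omega
        · refine ⟨0, by norm_num, j - b', j + b', le_rfl, ?_, ?_, le_rfl, h5 _ (Or.inl le_rfl), h5 _ (Or.inr le_rfl), fun k hk1 hk2 => h6 k ?_ hk2⟩
          · show j - b' ≤ j + b
            omega
          · show j + 11 * b ≤ j + b'
            omega
          · have hk1' : j + b ≤ k := hk1
            omega
      · have hT : ¬ Tm := hi
        refine ⟨NoMeet u v, 1, fun _ => u, fun _ => v, by rwa [Nat.cast_one], fun n _ => ?_, fun S S' _ _ _ _ h5 h6 => ?_, fun η S => ?_⟩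
        · show u ≤ u ∧ u + l ≤ v ∧ v ≤ v
          omega
        · refine ⟨0, by norm_num, j - b, j + b, le_rfl, ?_, ?_, le_rfl, h5 _ (Or.inl le_rfl), h5 _ (Or.inr le_rfl), h6⟩
          · show j - b ≤ u
            omega
          · show v ≤ j + b
            omega
        · refine le_trans (ind_mono80 fun g => ?_) (hy1 (x := 7 * M) (by linarith) η S)
          rcases g with g | g
          · exact absurd g.1 hT
          · exact g.2
    · fin_cases i
      · exact absurd hi (fun g => g)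
      · have hT : Tm := hi
        refine ⟨rfl, rfl, huv, fun η S hnT => ?_⟩
        show ind (TK μ s N Tm y (j - b) (j + b) u v M η S) ≤ _
        rw [ind_not fun g => ?_]
        · exact zero_le
        · rcases g with g | g
          · exact hnT g.2
          · exact g.1 hT
    · have hsub : ∀ J' : Finset ℕ, J' ⊆ Ioc (j - b') (j + b') → OffW J' f := fun J' hJ' η η' S e =>
        hfo η η' S fun q hq => e q fun g => hq ⟨g.1, hJ' g.2⟩
      fin_cases i
      · refine hsub _ fun a ha => ?_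
        have ha' : a ∈ Ioo (j + b) (j + b') := ha
        rw [mem_Ioo] at ha'
        rw [mem_Ioc]
        omega
      · refine hsub _ fun a ha => ?_
        have ha' : a ∈ Ioo (j - b) (j + b) := ha
        rw [mem_Ioo] at ha'
        rw [mem_Ioc]
        omega

omit [IsProbabilityMeasure μ] in
/-- The number of the classes. -/
theorem card_cls {k0 k1 β : ℕ} (hβ : 1 ≤ β) {JJ : Finset ℕ} (hJ : ∀ j ∈ JJ, k0 ≤ j ∧ j < k1) (hn : β ≤ k1 - k0) :
    (JJ.image fun j => j / β).card * β ≤ 3 * (k1 - k0) := by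
  have h1 : (JJ.image fun j => j / β) ⊆ Icc (k0 / β) ((k1 - 1) / β) := fun k hk => by
    obtain ⟨j, hj, rfl⟩ := mem_image.1 hk
    obtain ⟨g1, g2⟩ := hJ j hj
    rw [mem_Icc]
    exact ⟨Nat.div_le_div_right g1, Nat.div_le_div_right (by omega)⟩
  have h2 := card_le_card h1
  rw [Nat.card_Icc] at h2
  have h3 : ((k1 - 1) / β + 1 - k0 / β) * β ≤ 3 * (k1 - k0) := by
    rw [Nat.sub_mul, add_mul, one_mul]
    have h4 := Nat.div_mul_le_self (k1 - 1) β
    have h5 := Nat.lt_div_mul_add (a := k0) (show 0 < β by omega)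
    omega
  exact (Nat.mul_le_mul_right β h2).trans h3

/-- **THE SITE SUM, a stretch of any length**, micro tie given the window of radius `b`, own tie given the window of radius `b'`. -/
theorem s1_wps (h : In μ s c₀ C₀ n₀) : ∀ ε θ : ℝ, 0 < ε → 0 < θ → ∃ δ κ c₂ : ℝ, 0 < δ ∧ 0 < κ ∧ 0 < c₂ ∧ ∃ L₀ : ℕ, ∀ L : ℕ, L₀ ≤ L →
    ∀ N : ℕ, L ≤ 16 * N → N ≤ L → ∀ y : ℕ, y ≤ N → |(y : ℝ) - sl μ s * N| ≤ ((L : ℝ) ^ δ * wd' μ s N) →
    ∀ M : ℝ, 8 ≤ M → M ≤ (L : ℝ) ^ κ → ∀ b l b' k0 k1 : ℕ, (L : ℝ) ^ θ ≤ b → (L : ℝ) ^ θ ≤ l → l ≤ b → 2 * b ≤ b' → b / 64 ≤ k1 - k0 →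
    ∀ JJ : Finset ℕ, (∀ j ∈ JJ, k0 ≤ j ∧ j < k1 ∧ 2 * b' ≤ j ∧ j + b' ≤ N) →
    ∀ u v : ℕ → ℕ, (∀ j ∈ JJ, j ≤ u j + b / 2 ∧ v j ≤ j + b / 2 ∧ u j + l ≤ v j) →
    ∀ a e : ℕ → ℕ, ((∀ j ∈ JJ, e j = j + b ∧ a j + b / 4 ≤ j + b) ∨ (∀ j ∈ JJ, a j = j - b ∧ j + b / 4 ≤ e j + b)) → ∀ Tm To : Prop,
    WPs μ s N y (ENNReal.ofReal ((L : ℝ) ^ ε * (((k1 - k0 : ℕ) : ℝ) * ((EE' μ s l)⁻¹ * (EE' μ s b)⁻¹))))
      (ENNReal.ofReal ((L : ℝ) ^ 3 * (2 * Real.exp (-(L : ℝ) ^ c₂) + 8 * Real.exp (-M)))) JJ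
      (fun j η S => ind (TK μ s N Tm y (j - b) (j + b) (u j) (v j) M η S ∧ TK μ s N To y (j - b') (j + b') (a j) (e j) M η S))
      (Ioc (k0 - 3 * b') (k1 + 3 * b')) := by
  intro ε θ hε hθ
  obtain ⟨δ₁, κ₁, c₁, hδ₁, hκ₁, hc₁, L₁, hR⟩ := siteM_R h (ε / 2) θ (by positivity) hθ
  obtain ⟨δ₂, κ₂, c₂, hδ₂, hκ₂, hc₂, L₂, hLf⟩ := siteM_L h (ε / 2) θ (by positivity) hθ
  obtain ⟨δ₃, κ₃, c₃, hδ₃, hκ₃, hc₃, L₃, hG⟩ := s1_long h (ε / 2) θ (by positivity) hθ
  obtain ⟨L₄, h4⟩ := ev_mul86 400 (show ε / 2 < ε by linarith)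
  obtain ⟨L₅, h5⟩ := ev_mul86 64 hθ
  refine ⟨min δ₁ (min δ₂ δ₃), min κ₁ (min κ₂ κ₃), min c₁ (min c₂ c₃), lt_min hδ₁ (lt_min hδ₂ hδ₃), lt_min hκ₁ (lt_min hκ₂ hκ₃),
    lt_min hc₁ (lt_min hc₂ hc₃), L₁ + L₂ + L₃ + L₄ + L₅ + 100, ?_⟩
  intro L hL N hLN hNL y hyN hyc M hM hML b l b' k0 k1 hbL hlL hlb hbb hβn JJ hJJ u v huv a e hside Tm To
  classical
  have hL100 : (100 : ℝ) ≤ L := by exact_mod_cast (show 100 ≤ L by omega)
  have hL0 : (0 : ℝ) < L := by linarith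
  have hL1 : (1 : ℝ) ≤ L := by linarith
  have hwd : ∀ n, 0 < wd' μ s n := fun n => lt_of_lt_of_le zero_lt_one (le_max_left _ _)
  have hcone : ∀ δ', min δ₁ (min δ₂ δ₃) ≤ δ' → |(y : ℝ) - sl μ s * N| ≤ ((L : ℝ) ^ δ' * wd' μ s N) := fun δ' hδ' =>
    hyc.trans (mul_le_mul_of_nonneg_right (Real.rpow_le_rpow_of_exponent_le hL1 hδ') (hwd N).le)
  have hMp : ∀ κ', min κ₁ (min κ₂ κ₃) ≤ κ' → M ≤ (L : ℝ) ^ κ' := fun κ' hκ' =>
    hML.trans (Real.rpow_le_rpow_of_exponent_le hL1 hκ')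
  have hE : ∀ n, (0 : ℝ) < EE' μ s n := fun n => lt_of_lt_of_le one_pos (le_max_left _ _)
  have hb64 : 64 ≤ b := by
    have := h5 L (by omega)
    rw [Real.rpow_zero, mul_one] at this
    exact_mod_cast this.trans hbL
  obtain ⟨β, hβ⟩ : ∃ β, β = b / 64 := ⟨_, rfl⟩
  have hβ1 : 1 ≤ β := by omega
  have hb128 : b ≤ 128 * β := by omega
  obtain ⟨n, hn⟩ : ∃ n, n = k1 - k0 := ⟨_, rfl⟩
  obtain ⟨J, hJ⟩ : ∃ J, J = Ioc (k0 - 3 * b') (k1 + 3 * b') := ⟨_, rfl⟩
  rw [← hJ, ← hn]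
  -- the near part
  obtain ⟨p₁, hp₁⟩ : ∃ p₁ : ℝ, p₁ = Real.exp (-(L : ℝ) ^ min c₁ (min c₂ c₃)) + 2 * (L : ℝ) ^ 2 * Real.exp (-M) := ⟨_, rfl⟩
  have hce : ∀ c', min c₁ (min c₂ c₃) ≤ c' → Real.exp (-(L : ℝ) ^ c') ≤ Real.exp (-(L : ℝ) ^ min c₁ (min c₂ c₃)) := fun c' hc' =>
    Real.exp_le_exp.2 (neg_le_neg (Real.rpow_le_rpow_of_exponent_le hL1 hc'))
  have hnear : ∀ k ∈ JJ.image fun j => j / β,
      WPs μ s N y (ENNReal.ofReal ((L : ℝ) ^ (ε / 2) * ((b * (EE' μ s b)⁻¹ + (JJ.filter fun j => j / β = k).card * (EE' μ s l)⁻¹) *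
        (EE' μ s b)⁻¹))) (ENNReal.ofReal p₁) (JJ.filter fun j => j / β = k)
        (fun j η S => ind (TK μ s N Tm y (j - b) (j + b) (u j) (v j) M η S ∧ TK μ s N To y (j - b') (j + b') (a j) (e j) M η S ∧
          ¬ Lg μ s N y (j - b') (j + b') j b (8 * M) η S)) J := by
    intro k hk
    obtain ⟨j₀, hj₀, hjk⟩ := mem_image.1 hk
    have hblk : ∀ j ∈ JJ.filter fun j => j / β = k, k * β ≤ j ∧ j < k * β + β := fun j hj => by
      have h1 := (mem_filter.1 hj).2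
      constructor
      · rw [← h1]
        exact Nat.div_mul_le_self j β
      · rw [← h1]
        have := Nat.lt_div_mul_add (a := j) (show 0 < β by omega)
        omega
    obtain ⟨P, hP⟩ : ∃ P, P = k * β := ⟨_, rfl⟩
    rw [← hP] at hblk
    have g0 := hblk j₀ (mem_filter.2 ⟨hj₀, hjk⟩)
    have g1 := hJJ j₀ hj₀
    rcases hside with hs | hs
    · have key := hR L (by omega) N hLN hNL y hyN (hcone δ₁ (min_le_left _ _)) M hM (hMp κ₁ (min_le_left _ _)) b l (P + β - 1 + b) hbL hlL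
        (by omega) (by omega) (JJ.filter fun j => j / β = k) (fun j hj => by
          have h1 := hblk j hj
          have h2 := hJJ j (mem_filter.1 hj).1
          omega) u v (fun j hj => by
          have h2 := huv j (mem_filter.1 hj).1
          omega) (fun j => j - b') (fun j => j + b') a (fun j hj => by
          have h1 := hs j (mem_filter.1 hj).1
          have h2 := hJJ j (mem_filter.1 hj).1
          show j - b' ≤ j ∧ j + b ≤ j + b' ∧ j + b' ≤ N ∧ a j + b / 4 ≤ j + b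
          omega) Tm To
      refine key.mono le_rfl (ENNReal.ofReal_le_ofReal ?_) (fun j hj η S _ _ => ?_) (fun t ht => ?_)
      · rw [hp₁]
        exact add_le_add (hce c₁ (min_le_left _ _)) le_rfl
      · rw [(hs j (mem_filter.1 hj).1).1]
      · rw [mem_Ioc] at ht
        rw [hJ, mem_Ioc]
        omega
    · have key := hLf L (by omega) N hLN hNL y hyN (hcone δ₂ ((min_le_right _ _).trans (min_le_left _ _))) M hM
        (hMp κ₂ ((min_le_right _ _).trans (min_le_left _ _))) b l (P - b) hbL hlL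
        (by omega) (JJ.filter fun j => j / β = k) (fun j hj => by
          have h1 := hblk j hj
          have h2 := hJJ j (mem_filter.1 hj).1
          omega) u v (fun j hj => by
          have h2 := huv j (mem_filter.1 hj).1
          omega) (fun j => j - b') (fun j => j + b') e (fun j hj => by
          have h1 := hs j (mem_filter.1 hj).1
          have h2 := hJJ j (mem_filter.1 hj).1
          show j - b' + b ≤ j ∧ j ≤ j + b' ∧ j + b' ≤ N ∧ j + b / 4 ≤ e j + b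
          omega) Tm To
      refine key.mono le_rfl (ENNReal.ofReal_le_ofReal ?_) (fun j hj η S _ _ => ?_) (fun t ht => ?_)
      · rw [hp₁]
        exact add_le_add (hce c₂ ((min_le_right _ _).trans (min_le_left _ _))) le_rfl
      · rw [(hs j (mem_filter.1 hj).1).1]
      · rw [mem_Ico] at ht
        rw [hJ, mem_Ioc]
        omega
  have h1 := wps_union (μ := μ) (s := s) (fun j => j / β) hnear
  -- the long part
  have hlong : ∀ i ∈ JJ, WPs μ s N y (ENNReal.ofReal ((L : ℝ) ^ (ε / 2) * ((EE' μ s l)⁻¹ * (EE' μ s b)⁻¹)))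
      (ENNReal.ofReal (Real.exp (-(L : ℝ) ^ min c₁ (min c₂ c₃)) + 4 * Real.exp (-M))) ({i} : Finset ℕ)
      (fun j η S => ind (TK μ s N Tm y (j - b) (j + b) (u j) (v j) M η S ∧ Lg μ s N y (j - b') (j + b') j b (8 * M) η S)) J := by
    intro i hi
    have g1 := hJJ i hi
    have g2 := huv i hi
    have key := hG L (by omega) N hLN hNL y hyN (hcone δ₃ ((min_le_right _ _).trans (min_le_right _ _))) M hM
      (hMp κ₃ ((min_le_right _ _).trans (min_le_right _ _))) b l b' i (u i) (v i) hbL hlL (by omega) (by omega) (by omega) (by omega)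
      (by omega) (by omega) Tm
    refine key.mono le_rfl (ENNReal.ofReal_le_ofReal (add_le_add (hce c₃ ((min_le_right _ _).trans (min_le_right _ _))) le_rfl))
      (fun j hj η S _ _ => ?_) (fun t ht => ?_)
    · rw [mem_singleton] at hj
      rw [hj]
    · rw [mem_Ioc] at ht
      rw [hJ, mem_Ioc]
      omega
  have h2 := wps_rows (μ := μ) (s := s) hlong
  have h3 := h2.add h1 fun i _ S => meas_ind (ms_and tk_ms (hy_ms _ _) S)
  have hcls := card_cls hβ1 (fun j hj => ⟨(hJJ j hj).1, (hJJ j hj).2.1⟩) (by omega) (JJ := JJ) (k0 := k0) (k1 := k1)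
  rw [← hn] at hcls
  have hcard : JJ.card ≤ n := by
    have h4 : JJ ⊆ Ico k0 k1 := fun j hj => by
      have := hJJ j hj
      rw [mem_Ico]
      omega
    refine (card_le_card h4).trans (le_of_eq ?_)
    rw [Nat.card_Ico, hn]
  have hcimg : (JJ.image fun j => j / β).card ≤ JJ.card := card_image_le
  rcases JJ.eq_empty_or_nonempty with h0 | ⟨j₀, hj₀⟩
  · intro f hf hf1 hfo
    rw [h0, sum_empty]
    exact zero_le
  have hjN := hJJ j₀ hj₀
  have hcN : JJ.card ≤ L := by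
    have h4 : JJ ⊆ range L := fun j hj => by
      have := hJJ j hj
      rw [mem_range]
      omega
    exact (card_le_card h4).trans (le_of_eq (card_range _))
  have hexp0 : 0 ≤ Real.exp (-(L : ℝ) ^ min c₁ (min c₂ c₃)) := (Real.exp_pos _).le
  have hM0 : 0 ≤ Real.exp (-M) := (Real.exp_pos _).le
  refine h3.mono ?_ ?_ (fun j _ η S _ _ => ?_) (subset_refl _)
  · -- the rate
    have i1 := (inv_pos.2 (hE l)).le
    have i2 := (inv_pos.2 (hE b)).le
    have i3 : (EE' μ s b)⁻¹ ≤ (EE' μ s l)⁻¹ := inv_anti₀ (hE l) (ZE.EE'_mono hlb)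
    have hLh : 0 ≤ (L : ℝ) ^ (ε / 2) := by positivity
    rw [← ENNReal.ofReal_natCast, ← ENNReal.ofReal_mul (Nat.cast_nonneg _), ← ENNReal.ofReal_sum_of_nonneg (fun k _ => by positivity),
      ← ENNReal.ofReal_add (by positivity) (sum_nonneg fun k _ => by positivity)]
    refine ENNReal.ofReal_le_ofReal ?_
    have e1 : ∑ k ∈ JJ.image fun j => j / β, (L : ℝ) ^ (ε / 2) * ((b * (EE' μ s b)⁻¹ + (JJ.filter fun j => j / β = k).card * (EE' μ s l)⁻¹) *
        (EE' μ s b)⁻¹) = (L : ℝ) ^ (ε / 2) * ((((JJ.image fun j => j / β).card : ℝ) * b * (EE' μ s b)⁻¹ + JJ.card * (EE' μ s l)⁻¹) *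
        (EE' μ s b)⁻¹) := by
      rw [← mul_sum, ← sum_mul, sum_add_distrib, sum_const, nsmul_eq_mul, ← sum_mul]
      congr 3
      · ring
      · congr 1
        rw [← Nat.cast_sum]
        congr 1
        exact (card_eq_sum_card_fiberwise fun j hj => mem_image_of_mem _ hj).symm
    rw [e1]
    have e2 : ((JJ.image fun j => j / β).card : ℝ) * b ≤ 384 * n := by
      have h5 : (JJ.image fun j => j / β).card * b ≤ 384 * n := by
        calc (JJ.image fun j => j / β).card * b ≤ (JJ.image fun j => j / β).card * (128 * β) := Nat.mul_le_mul_left _ hb128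
          _ = 128 * ((JJ.image fun j => j / β).card * β) := by ring
          _ ≤ 128 * (3 * n) := Nat.mul_le_mul_left _ hcls
          _ = 384 * n := by ring
      exact_mod_cast h5
    have e3 : (JJ.card : ℝ) ≤ n := by exact_mod_cast hcard
    have e4 := h4 L (by omega)
    obtain ⟨X, hX⟩ : ∃ X, X = (n : ℝ) * ((EE' μ s l)⁻¹ * (EE' μ s b)⁻¹) := ⟨_, rfl⟩
    have hX0 : 0 ≤ X := by
      rw [hX]
      positivity
    have e5 : (((JJ.image fun j => j / β).card : ℝ) * b * (EE' μ s b)⁻¹ + JJ.card * (EE' μ s l)⁻¹) * (EE' μ s b)⁻¹ ≤ 385 * X := by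
      have g1 : ((JJ.image fun j => j / β).card : ℝ) * b * (EE' μ s b)⁻¹ ≤ 384 * n * (EE' μ s l)⁻¹ :=
        mul_le_mul e2 i3 i2 (by positivity)
      have g2 : (JJ.card : ℝ) * (EE' μ s l)⁻¹ ≤ n * (EE' μ s l)⁻¹ := mul_le_mul_of_nonneg_right e3 i1
      have g3 : ((JJ.image fun j => j / β).card : ℝ) * b * (EE' μ s b)⁻¹ + JJ.card * (EE' μ s l)⁻¹ ≤ 385 * (n * (EE' μ s l)⁻¹) := by
        linarith
      refine (mul_le_mul_of_nonneg_right g3 i2).trans (le_of_eq ?_)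
      rw [hX]
      ring
    have e6 : (JJ.card : ℝ) * ((L : ℝ) ^ (ε / 2) * ((EE' μ s l)⁻¹ * (EE' μ s b)⁻¹)) ≤ (L : ℝ) ^ (ε / 2) * X := by
      rw [hX]
      calc (JJ.card : ℝ) * ((L : ℝ) ^ (ε / 2) * ((EE' μ s l)⁻¹ * (EE' μ s b)⁻¹)) ≤
          n * ((L : ℝ) ^ (ε / 2) * ((EE' μ s l)⁻¹ * (EE' μ s b)⁻¹)) := mul_le_mul_of_nonneg_right e3 (by positivity)
        _ = _ := by ring
    calc (JJ.card : ℝ) * ((L : ℝ) ^ (ε / 2) * ((EE' μ s l)⁻¹ * (EE' μ s b)⁻¹)) + (L : ℝ) ^ (ε / 2) *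
          ((((JJ.image fun j => j / β).card : ℝ) * b * (EE' μ s b)⁻¹ + JJ.card * (EE' μ s l)⁻¹) * (EE' μ s b)⁻¹)
        ≤ (L : ℝ) ^ (ε / 2) * X + (L : ℝ) ^ (ε / 2) * (385 * X) := add_le_add e6 (mul_le_mul_of_nonneg_left e5 hLh)
      _ = 386 * (L : ℝ) ^ (ε / 2) * X := by ring
      _ ≤ (L : ℝ) ^ ε * X := mul_le_mul_of_nonneg_right (by linarith) hX0
      _ = _ := by rw [hX]
  · -- the error
    rw [← ENNReal.ofReal_natCast, ← ENNReal.ofReal_natCast, ← ENNReal.ofReal_mul (Nat.cast_nonneg _),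
      ← ENNReal.ofReal_mul (Nat.cast_nonneg _), ← ENNReal.ofReal_add (by positivity) (by rw [hp₁]; positivity)]
    refine ENNReal.ofReal_le_ofReal ?_
    have g1 : (JJ.card : ℝ) ≤ L := by exact_mod_cast hcN
    have g2 : ((JJ.image fun j => j / β).card : ℝ) ≤ L := by exact_mod_cast hcimg.trans hcN
    have g3 : (L : ℝ) ≤ (L : ℝ) ^ 3 := le_self_pow₀ hL1 (by norm_num)
    rw [hp₁]
    obtain ⟨X, hX⟩ : ∃ X, X = Real.exp (-(L : ℝ) ^ min c₁ (min c₂ c₃)) := ⟨_, rfl⟩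
    obtain ⟨Y, hY⟩ : ∃ Y, Y = Real.exp (-M) := ⟨_, rfl⟩
    rw [← hX, ← hY]
    rw [← hX] at hexp0
    rw [← hY] at hM0
    calc (JJ.card : ℝ) * (X + 4 * Y) + ((JJ.image fun j => j / β).card : ℝ) * (X + 2 * (L : ℝ) ^ 2 * Y)
        ≤ L * (X + 4 * Y) + L * (X + 2 * (L : ℝ) ^ 2 * Y) :=
          add_le_add (mul_le_mul_of_nonneg_right g1 (by positivity)) (mul_le_mul_of_nonneg_right g2 (by positivity))
      _ = 2 * L * X + 4 * L * Y + 2 * (L : ℝ) ^ 3 * Y := by ring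
      _ ≤ (L : ℝ) ^ 3 * (2 * X + 8 * Y) := by nlinarith [mul_le_mul_of_nonneg_right g3 hexp0, mul_le_mul_of_nonneg_right g3 hM0]
  · -- the event
    by_cases g : TK μ s N Tm y (j - b) (j + b) (u j) (v j) M η S ∧ TK μ s N To y (j - b') (j + b') (a j) (e j) M η S
    · by_cases g' : Lg μ s N y (j - b') (j + b') j b (8 * M) η S
      · refine (ind_le _).trans (le_trans ?_ le_self_add)
        rw [ind_of ⟨g.1, g'⟩]
      · refine (ind_le _).trans (le_trans ?_ le_add_self)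
        rw [ind_of ⟨g.1, g.2, g'⟩]
    · rw [ind_not g]
      exact zero_le

end Pool.Agent.W_7d29a1_C0.DT5
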