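import Pool.Agent.W_7d29a1_C0.NumT80
import Pool.Agent.W_7d29a1_C0.PrB5
import Pool.Agent.W_7d29a1_C0.Own1

/-!
MP_7d29a1_pr, [CURV0], leaf E5 (helper80): THE T4 LINE AT THE CONCRETE FRAME. `T4M`: the model form of the price of three levels with an own
factor (helper23, `t4N`), `dt5t`: its price form `PrB` at `frm33`, for the four own factors, the stretches of any length, with the number
`N ^ (- c / 2) / E_q`.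
-/

set_option autoImplicit false
set_option linter.unusedSectionVars false

namespace Pool.Agent.W_7d29a1_C0.T4F80

open Finset MeasureTheory Filter Topology Pool.Agent.W_7d29a1_F Pool.Agent.W_7d29a1_X Pool.Agent.W_7d29a1_H
open Pool.Agent.W_7d29a1_HS (In wd)
open Pool.Agent.W_7d29a1_HZ (wd' EE')
open Pool.Agent.W_7d29a1_C0 Pool.Agent.W_7d29a1_C0.Mod92 Pool.Agent.W_7d29a1_C0.Asm96 Pool.Agent.W_7d29a1_C0.Frm33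
open Pool.Agent.W_7d29a1_C0.Sz23 Pool.Agent.W_7d29a1_C0.PrB5 Pool.Agent.W_7d29a1_C0.NumT80 Pool.Agent.W_7d29a1_C0.Pr46
open Pool.Agent.W_7d29a1_C0.NTop23 (avF)
open Pool.Agent.W_7d29a1_C0.Strip80 (OffD)
open Pool.Agent.W_7d29a1_C0.Par92 (Sml Est)
open Pool.W7d29a1.C0 (gm gm_nonneg)
open Pool.W7d29a1.C0.VT31 (Mp)
open Pool.W7d29a1.C0.R43 (mI Tau)
open Pool.W7d29a1.C0.S1 (i1)
open Pool.W7d29a1.C0.O1 (T4)

noncomputable section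

variable {μ : Measure ℝ} {s : ℝ}

/-- The own factor. -/
def Am (sd fm : Bool) (μ : Measure ℝ) (s : ℝ) (N : ℕ) (Q : Finset (Finset ℕ)) (b b' a : ℕ) (m1 : ℝ) (ω : Env × Finset ℕ) (j : ℕ) :
    Px Q → ℝ :=
  let U := if sd then a else j - b
  let V := if sd then j + b else a
  if fm then mI (wm μ s N Q ω) (pJ (j - b') (j + b')) U V else fun S => i1 (Tau (wm μ s N Q ω) (pJ (j - b') (j + b')) U V m1 S)

/-- **The model form.** -/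
def T4M (μ : Measure ℝ) (s : ℝ) (sd fm : Bool) : Prop := ∀ ε θ : ℝ, 0 < ε → 0 < θ → ∃ κ : ℝ, 0 < κ ∧ ∀ γ : ℝ, 0 < γ → ∃ δ c₂ : ℝ, 0 < δ ∧
  0 < c₂ ∧ ∃ N₀ : ℕ, ∀ N : ℕ, N₀ ≤ N → ∀ y : ℕ, y ≤ N → |(y : ℝ) - sl μ s * N| ≤ (N : ℝ) ^ δ * wd' μ s N →
  ∀ B m1 : ℝ, 0 ≤ B → B ≤ (N : ℝ) ^ κ → 0 ≤ m1 → m1 ≤ (N : ℝ) ^ κ → ∀ b0 b b' j l a : ℕ, 4 * b0 ≤ b → b ≤ b' → b' ≤ j → j + b' ≤ N →
  (N : ℝ) ^ θ ≤ l → (l : ℝ) * (N : ℝ) ^ ε ≤ b0 → (sd = true → j + b0 ≤ a ∧ 4 * a ≤ 4 * j + 3 * b) →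
  (sd = false → a + b0 ≤ j ∧ 4 * j ≤ 4 * a + 3 * b) → ∀ R : ℝ, 1 ≤ R → (∀ i : ℕ, 1 ≤ i → i ≤ 2 * b' → wd' μ s i ≤ R * wd' μ s l) →
  ∀ (H : Env × Finset ℕ → Px (Pn N y) → ℝ) (Mh : ℝ), 0 < Mh → (∀ ω S, 0 ≤ H ω S) → (∀ ω S, H ω S ≤ Mh) → (∀ S, Measurable fun ω => H ω S) →
  (∀ ω, Mp (pJ (j - b') (j + b')) (H ω)) → OffD (Ioo (j - b') (j + b')) H →
  ∫ ω, gm (wm μ s N (Pn N y) ω) (fun S => H ω S * min 1 (Real.exp (5 * m1 + 12 * B) * T4 (wm μ s N (Pn N y) ω) (pJ (j - b') (j + b'))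
    (gg μ s (Pn N y) γ B b0 ω j) 1 (Am sd fm μ s N (Pn N y) b b' a m1 ω j) S)) ∂(Pm μ N) ≤
    10 * (R * (N : ℝ) ^ ε * (EE' μ s l)⁻¹) ^ 2 * ∫ ω, gm (wm μ s N (Pn N y) ω) (H ω) ∂(Pm μ N) + Mh * Real.exp (-(N : ℝ) ^ c₂)

theorem offD_sub {N y : ℕ} {J J' : Finset ℕ} {D : Env × Finset ℕ → Px (Pn N y) → ℝ} (h : OffD J' D) (hJ : J ⊆ J') : OffD J D :=
  fun η η' A S e => h η η' A S fun q hq => e q fun g => hq ⟨g.1, hJ g.2⟩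

/-- **THE T4 LINE AT THE FRAME.** -/
theorem dt5t [IsProbabilityMeasure μ] (hT : ∀ sd fm : Bool, T4M μ s sd fm) {c₁ C : ℝ} {n₀ : ℕ} (h : In μ s c₁ C n₀)
    (hk : KapLe96 (EE μ s) (1 / 4)) {K : ℕ} (hK : 32 ≤ K) {c₀ Θ δ c η : ℝ} (hR : RegP46 μ s c₀ Θ) (hδ : 0 < δ) (hc : 0 < c)
    (hcδ : c ≤ δ / 64) (hη : 0 ≤ η) : ∃ κ : ℝ, 0 < κ ∧ ∀ A : ℝ, Est fun ι β γ m => ∀ p p' q i : ℕ, Chg96 (EE μ s) Θ δ c η m p p' q →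
      i < 2 ^ (m - q) → ∀ m1 : ℝ, 0 ≤ m1 → m1 ≤ ((2 ^ m : ℕ) : ℝ) ^ κ → ∀ (sd fm : Bool) (a : ℕ → ℕ),
      (sd = true → ∀ j ∈ Rw (R33 ι m) (i * 2 ^ q) ((i + 1) * 2 ^ q), j + 2 ^ (p - ⌈ι * (m : ℝ)⌉₊) ≤ a j ∧ 4 * a j ≤ 4 * j + 3 * 2 ^ p) →
      (sd = false → ∀ j ∈ Rw (R33 ι m) (i * 2 ^ q) ((i + 1) * 2 ^ q), a j + 2 ^ (p - ⌈ι * (m : ℝ)⌉₊) ≤ j ∧ 4 * j ≤ 4 * a j + 3 * 2 ^ p) →
      ∀ l : ℕ, 0 < l → l ≤ 2 ^ m → ∀ K₀ : ℝ, 0 < K₀ → PrB μ s (frm33 μ s K ι β γ) m q i l (2 ^ p') K₀ (fun y ω j S =>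
        min 1 (Real.exp (5 * m1 + 12 * B33 β m) * T4 (wm μ s (L33 K m) (Pn (L33 K m) y) ω) (pJ (j - 2 ^ p') (j + 2 ^ p'))
          (gg μ s (Pn (L33 K m) y) γ (B33 β m) (2 ^ (p - ⌈ι * (m : ℝ)⌉₊)) ω j) 1
            (Am sd fm μ s (L33 K m) (Pn (L33 K m) y) (2 ^ p) (2 ^ p') (a j) m1 ω j) S))
        (((2 ^ m : ℕ) : ℝ) ^ (-(c / 2)) / EE μ s (2 ^ q)) 0 0 (K₀ * ((2 ^ m : ℕ) : ℝ) ^ (-A)) := by
  have hK0 : (0 : ℝ) < K := by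
    have : (32 : ℝ) ≤ K := by exact_mod_cast hK
    linarith
  have hK1 : (1 : ℝ) ≤ K := by
    have : (32 : ℝ) ≤ K := by exact_mod_cast hK
    linarith
  have hT' : ∀ sd fm : Bool, ∃ κ : ℝ, 0 < κ ∧ ∀ κ' ≤ κ, ∀ γ : ℝ, 0 < γ → ∃ δ' c₂ : ℝ, 0 < δ' ∧
      0 < c₂ ∧ ∃ N₀ : ℕ, ∀ N : ℕ, N₀ ≤ N → ∀ y : ℕ, y ≤ N → |(y : ℝ) - sl μ s * N| ≤ (N : ℝ) ^ δ' * wd' μ s N →
      ∀ B m1 : ℝ, 0 ≤ B → B ≤ (N : ℝ) ^ κ' → 0 ≤ m1 → m1 ≤ (N : ℝ) ^ κ' → ∀ b0 b b' j l a : ℕ, 4 * b0 ≤ b → b ≤ b' → b' ≤ j → j + b' ≤ N →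
      (N : ℝ) ^ (δ / 8 / K) ≤ l → (l : ℝ) * (N : ℝ) ^ (c / 96 / K) ≤ b0 → (sd = true → j + b0 ≤ a ∧ 4 * a ≤ 4 * j + 3 * b) →
      (sd = false → a + b0 ≤ j ∧ 4 * j ≤ 4 * a + 3 * b) → ∀ R : ℝ, 1 ≤ R → (∀ i : ℕ, 1 ≤ i → i ≤ 2 * b' → wd' μ s i ≤ R * wd' μ s l) →
      ∀ (H : Env × Finset ℕ → Px (Pn N y) → ℝ) (Mh : ℝ), 0 < Mh → (∀ ω S, 0 ≤ H ω S) → (∀ ω S, H ω S ≤ Mh) →
      (∀ S, Measurable fun ω => H ω S) → (∀ ω, Mp (pJ (j - b') (j + b')) (H ω)) → OffD (Ioo (j - b') (j + b')) H →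
      ∫ ω, gm (wm μ s N (Pn N y) ω) (fun S => H ω S * min 1 (Real.exp (5 * m1 + 12 * B) * T4 (wm μ s N (Pn N y) ω) (pJ (j - b') (j + b'))
        (gg μ s (Pn N y) γ B b0 ω j) 1 (Am sd fm μ s N (Pn N y) b b' a m1 ω j) S)) ∂(Pm μ N) ≤
        10 * (R * (N : ℝ) ^ (c / 96 / K) * (EE' μ s l)⁻¹) ^ 2 * ∫ ω, gm (wm μ s N (Pn N y) ω) (H ω) ∂(Pm μ N) +
          Mh * Real.exp (-(N : ℝ) ^ c₂) := by
    intro sd fm
    obtain ⟨κ, hκ, H⟩ := hT sd fm (c / 96 / K) (δ / 8 / K) (by positivity) (by positivity)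
    refine ⟨κ, hκ, fun κ' hκ' γ hγ => ?_⟩
    obtain ⟨δ', c₂, h1, h2, N₀, hN⟩ := H γ hγ
    refine ⟨δ', c₂, h1, h2, N₀ + 1, fun N hNN y hy hyc B m1 hB hB' hm hm' => ?_⟩
    have hN1 : (1 : ℝ) ≤ N := by exact_mod_cast (show 1 ≤ N by omega)
    have hle : (N : ℝ) ^ κ' ≤ (N : ℝ) ^ κ := Real.rpow_le_rpow_of_exponent_le hN1 hκ'
    exact hN N (by omega) y hy hyc B m1 hB (hB'.trans hle) hm (hm'.trans hle)
  have hT2 : ∃ κ : ℝ, 0 < κ ∧ ∀ γ : ℝ, 0 < γ → ∃ δ' c₂ : ℝ, 0 < δ' ∧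
      0 < c₂ ∧ ∃ N₀ : ℕ, ∀ sd fm : Bool, ∀ N : ℕ, N₀ ≤ N → ∀ y : ℕ, y ≤ N → |(y : ℝ) - sl μ s * N| ≤ (N : ℝ) ^ δ' * wd' μ s N →
      ∀ B m1 : ℝ, 0 ≤ B → B ≤ (N : ℝ) ^ κ → 0 ≤ m1 → m1 ≤ (N : ℝ) ^ κ → ∀ b0 b b' j l a : ℕ, 4 * b0 ≤ b → b ≤ b' → b' ≤ j → j + b' ≤ N →
      (N : ℝ) ^ (δ / 8 / K) ≤ l → (l : ℝ) * (N : ℝ) ^ (c / 96 / K) ≤ b0 → (sd = true → j + b0 ≤ a ∧ 4 * a ≤ 4 * j + 3 * b) →
      (sd = false → a + b0 ≤ j ∧ 4 * j ≤ 4 * a + 3 * b) → ∀ R : ℝ, 1 ≤ R → (∀ i : ℕ, 1 ≤ i → i ≤ 2 * b' → wd' μ s i ≤ R * wd' μ s l) →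
      ∀ (H : Env × Finset ℕ → Px (Pn N y) → ℝ) (Mh : ℝ), 0 < Mh → (∀ ω S, 0 ≤ H ω S) → (∀ ω S, H ω S ≤ Mh) →
      (∀ S, Measurable fun ω => H ω S) → (∀ ω, Mp (pJ (j - b') (j + b')) (H ω)) → OffD (Ioo (j - b') (j + b')) H →
      ∫ ω, gm (wm μ s N (Pn N y) ω) (fun S => H ω S * min 1 (Real.exp (5 * m1 + 12 * B) * T4 (wm μ s N (Pn N y) ω) (pJ (j - b') (j + b'))
        (gg μ s (Pn N y) γ B b0 ω j) 1 (Am sd fm μ s N (Pn N y) b b' a m1 ω j) S)) ∂(Pm μ N) ≤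
        10 * (R * (N : ℝ) ^ (c / 96 / K) * (EE' μ s l)⁻¹) ^ 2 * ∫ ω, gm (wm μ s N (Pn N y) ω) (H ω) ∂(Pm μ N) +
          Mh * Real.exp (-(N : ℝ) ^ c₂) := by
    obtain ⟨κ1, k1, H1⟩ := hT' true true
    obtain ⟨κ2, k2, H2⟩ := hT' true false
    obtain ⟨κ3, k3, H3⟩ := hT' false true
    obtain ⟨κ4, k4, H4⟩ := hT' false false
    refine ⟨min (min κ1 κ2) (min κ3 κ4), lt_min (lt_min k1 k2) (lt_min k3 k4), fun γ hγ => ?_⟩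
    obtain ⟨d1, e1, hd1, he1, N1, G1⟩ := H1 (min (min κ1 κ2) (min κ3 κ4)) ((min_le_left _ _).trans (min_le_left _ _)) γ hγ
    obtain ⟨d2, e2, hd2, he2, N2, G2⟩ := H2 (min (min κ1 κ2) (min κ3 κ4)) ((min_le_left _ _).trans (min_le_right _ _)) γ hγ
    obtain ⟨d3, e3, hd3, he3, N3, G3⟩ := H3 (min (min κ1 κ2) (min κ3 κ4)) ((min_le_right _ _).trans (min_le_left _ _)) γ hγ
    obtain ⟨d4, e4, hd4, he4, N4, G4⟩ := H4 (min (min κ1 κ2) (min κ3 κ4)) ((min_le_right _ _).trans (min_le_right _ _)) γ hγ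
    refine ⟨min (min d1 d2) (min d3 d4), min (min e1 e2) (min e3 e4), lt_min (lt_min hd1 hd2) (lt_min hd3 hd4),
      lt_min (lt_min he1 he2) (lt_min he3 he4), N1 + N2 + N3 + N4 + 1, fun sd fm N hN y hy hyc B m1 hB hB' hm hm' b0 b b' j l a f1 f2 f3 f4
      f5 f6 f7 f8 R f9 f10 H Mh g1 g2 g3 g4 g5 g6 => ?_⟩
    have hN1 : (1 : ℝ) ≤ N := by exact_mod_cast (show 1 ≤ N by omega)
    have hw : 0 ≤ wd' μ s N := zero_le_one.trans (le_max_left _ _)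
    have hcone : ∀ {x d : ℝ}, x ≤ (N : ℝ) ^ (min (min d1 d2) (min d3 d4)) * wd' μ s N → min (min d1 d2) (min d3 d4) ≤ d →
        x ≤ (N : ℝ) ^ d * wd' μ s N := fun g g' => g.trans (mul_le_mul_of_nonneg_right (Real.rpow_le_rpow_of_exponent_le hN1 g') hw)
    have hexp : ∀ {x e : ℝ}, x ≤ 0 + Mh * Real.exp (-(N : ℝ) ^ e) → min (min e1 e2) (min e3 e4) ≤ e →
        x ≤ 0 + Mh * Real.exp (-(N : ℝ) ^ (min (min e1 e2) (min e3 e4))) := fun g g' => g.trans (add_le_add le_rfl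
          (mul_le_mul_of_nonneg_left (Real.exp_le_exp.2 (neg_le_neg (Real.rpow_le_rpow_of_exponent_le hN1 g'))) g1.le))
    have key : ∀ {x z e : ℝ}, x ≤ z + Mh * Real.exp (-(N : ℝ) ^ e) → min (min e1 e2) (min e3 e4) ≤ e →
        x ≤ z + Mh * Real.exp (-(N : ℝ) ^ (min (min e1 e2) (min e3 e4))) := fun g g' => g.trans (add_le_add le_rfl
          (mul_le_mul_of_nonneg_left (Real.exp_le_exp.2 (neg_le_neg (Real.rpow_le_rpow_of_exponent_le hN1 g'))) g1.le))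
    cases sd <;> cases fm
    · exact key (G4 N (by omega) y hy (hcone hyc ((min_le_right _ _).trans (min_le_right _ _))) B m1 hB hB' hm hm' b0 b b' j l a f1 f2 f3 f4
        f5 f6 f7 f8 R f9 f10 H Mh g1 g2 g3 g4 g5 g6) ((min_le_right _ _).trans (min_le_right _ _))
    · exact key (G3 N (by omega) y hy (hcone hyc ((min_le_right _ _).trans (min_le_left _ _))) B m1 hB hB' hm hm' b0 b b' j l a f1 f2 f3 f4
        f5 f6 f7 f8 R f9 f10 H Mh g1 g2 g3 g4 g5 g6) ((min_le_right _ _).trans (min_le_left _ _))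
    · exact key (G2 N (by omega) y hy (hcone hyc ((min_le_left _ _).trans (min_le_right _ _))) B m1 hB hB' hm hm' b0 b b' j l a f1 f2 f3 f4
        f5 f6 f7 f8 R f9 f10 H Mh g1 g2 g3 g4 g5 g6) ((min_le_left _ _).trans (min_le_right _ _))
    · exact key (G1 N (by omega) y hy (hcone hyc ((min_le_left _ _).trans (min_le_left _ _))) B m1 hB hB' hm hm' b0 b b' j l a f1 f2 f3 f4
        f5 f6 f7 f8 R f9 f10 H Mh g1 g2 g3 g4 g5 g6) ((min_le_left _ _).trans (min_le_left _ _))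
  obtain ⟨κ, hκ, hG⟩ := hT2
  refine ⟨κ, hκ, fun A => ?_⟩
  have hιs : Est fun ι _ _ _ => ι ≤ c / 96 := Est.iota (Sml.le (by positivity))
  have hβs : Est fun _ β _ _ => β ≤ κ := Est.beta (Sml.of fun _ _ => Sml.le hκ)
  refine (hιs.and (hβs.and (rows46 (Θ := Θ) h hk hK hδ hc.le hcδ hη))).mono fun ι β γ hι hβ hγ => ?_
  by_cases hιc : ι ≤ c / 96
  swap
  · exact Eventually.of_forall fun m g => absurd g.1 hιc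
  obtain ⟨δ₁, c₂, hδ₁, hc₂, N₀, hN⟩ := hG γ hγ
  filter_upwards [cone33 h hK hδ₁, ev_L (by omega : 1 ≤ K) N₀, num_t4 (Θ := Θ) (η := η) h hR hδ hc hcδ hη hι hιc, ev_exp hc₂ (A + 1)]
    with m h1 h2 h3 h4 hP
  obtain ⟨-, hβκ, hrow⟩ := hP
  intro p p' q i hC hi m1 hm0 hm1 sd fm a ha1 ha2 l hl hlm K₀ hK₀
  obtain ⟨h4b, ls, R, hR1, hls, hls', hRw, hnum⟩ := h3 p p' q hC
  obtain ⟨n, hn⟩ : ∃ n : ℝ, n = ((2 ^ m : ℕ) : ℝ) := ⟨_, rfl⟩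
  have hn1 : 1 ≤ n := hn ▸ n_ge1 m
  have hn0 : 0 < n := by linarith
  have eL1 : ((L33 K m : ℕ) : ℝ) ^ (δ / 8 / K) = n ^ (δ / 8) := by
    rw [L33_pow, ← hn]
    congr 1
    field_simp
  have eL2 : ((L33 K m : ℕ) : ℝ) ^ (c / 96 / K) = n ^ (c / 96) := by
    rw [L33_pow, ← hn]
    congr 1
    field_simp
  have eL3 : n ^ κ ≤ ((L33 K m : ℕ) : ℝ) ^ κ := by
    rw [L33_pow, ← hn]
    exact Real.rpow_le_rpow_of_exponent_le hn1 (le_mul_of_one_le_left hκ.le hK1)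
  have eL4 : n ^ c₂ ≤ ((L33 K m : ℕ) : ℝ) ^ c₂ := by
    rw [L33_pow, ← hn]
    exact Real.rpow_le_rpow_of_exponent_le hn1 (le_mul_of_one_le_left hc₂.le hK1)
  rw [← hn] at h4 hls hls' hnum hm1 ⊢
  have hB0 : 0 ≤ B33 β m := Real.rpow_nonneg (Nat.cast_nonneg _) _
  have hBk : B33 β m ≤ ((L33 K m : ℕ) : ℝ) ^ κ := by
    refine le_trans ?_ eL3
    unfold B33
    rw [← hn]
    exact Real.rpow_le_rpow_of_exponent_le hn1 hβκ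
  have hX : ∀ y ∈ (frm33 μ s K ι β γ).ys m, Nonempty (Px (Pn ((frm33 μ s K ι β γ).L m) y)) := fun y hy => by
    have hy2 := mem_Ico.1 (show y ∈ Ico (y33 μ s K m) (y33 μ s K m + M33 m) from hy)
    exact ne_Pn (h1.2.2 y (by omega) (by omega)).1
  have hEq : 0 < EE μ s (2 ^ q) := EE_pos _
  obtain ⟨e, he⟩ : ∃ e : ℝ, e = K₀ * Real.exp (-((L33 K m : ℕ) : ℝ) ^ c₂) := ⟨_, rfl⟩
  have he0 : 0 ≤ e := by rw [he]; positivity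
  have hle : (l : ℝ) * e ≤ K₀ * n ^ (-A) := by
    have f1 : Real.exp (-((L33 K m : ℕ) : ℝ) ^ c₂) ≤ n ^ (-(A + 1)) := (Real.exp_le_exp.2 (neg_le_neg eL4)).trans h4
    have f2 : (l : ℝ) ≤ n := by
      rw [hn]
      exact_mod_cast hlm
    calc (l : ℝ) * e ≤ n * (K₀ * n ^ (-(A + 1))) := by
          rw [he]
          exact mul_le_mul f2 (mul_le_mul_of_nonneg_left f1 hK₀.le) (by positivity) hn0.le
      _ = K₀ * (n ^ (1 : ℝ) * n ^ (-(A + 1))) := by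
          rw [Real.rpow_one]
          ring
      _ = K₀ * n ^ (-A) := by
          rw [← Real.rpow_add hn0]
          congr 2
          ring
  refine (prB_row hX hl (K := K₀) (g := n ^ (-(c / 2)) / EE μ s (2 ^ q)) (e := e) (by positivity) he0 fun k j hj H hH => ?_).num hX le_rfl
    le_rfl le_rfl hle
  have hj' := (mem_filter.1 hj).1
  have hjk := (mem_filter.1 hj).2
  obtain ⟨j1, -, j2⟩ := hrow p p' q i hC hi j hj'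
  refine avy_le96 (Y := fun y => ∫ ω, gm (wm μ s (L33 K m) (Pn (L33 K m) y) ω) (H y ω) ∂(Pm μ (L33 K m))) he0 fun y hy => ?_
  have hy2 := mem_Ico.1 (show y ∈ Ico (y33 μ s K m) (y33 μ s K m + M33 m) from hy)
  obtain ⟨hyL, hyc⟩ := h1.2.2 y (by omega) (by omega)
  have hne : Nonempty (Px (Pn (L33 K m) y)) := ne_Pn hyL
  have h8 := hN sd fm (L33 K m) h2 y hyL hyc (B33 β m) m1 hB0 hBk hm0 (hm1.trans eL3) (2 ^ (p - ⌈ι * (m : ℝ)⌉₊)) (2 ^ p) (2 ^ p') j ls (a j)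
    h4b (Nat.pow_le_pow_right two_pos hC.hpp) j1 j2 (by rw [eL1]; exact hls) (by rw [eL2]; exact hls') (fun g => ha1 g j hj')
    (fun g => ha2 g j hj') R hR1 hRw (H y) K₀ hK₀ (hH.nn y) (hH.bdd y) (hH.mes y) (fun ω => hH.mpW hl hjk y ω)
    (offD_sub (hH.offJ hl hjk y) fun x hx => by
      rw [mem_Ioo] at hx ⊢
      omega)
  rw [eL2] at h8
  refine le_trans (le_of_eq ?_) (h8.trans (add_le_add (mul_le_mul_of_nonneg_right hnum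
    (integral_nonneg fun ω => gm_nonneg _ fun S => hH.nn y ω S)) he.ge))
  congr 1
  funext ω
  congr 1
  funext S
  exact mul_comm _ _

end

end Pool.Agent.W_7d29a1_C0.T4F80
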