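import Pool.Agent.W_7d29a1_C0.OwnR27
import Pool.Agent.W_7d29a1_C0.Bd73B

/-!
MP_7d29a1_pr, [CURV0] / [C0], leaf E0C: THE INSTANCE OF `OwnR27` AT THE RESPONSE OF THE WINDOW OF A ROW. (helper27)

`difR_gj`: the half response `gj` of the window `[j - b, j + b]` satisfies `DifR` with `Lg = e ^ (N ^ ε)` and the error
`rgj = e ^ (- N ^ c') + B 1[the window leaves the cone]`. `own_mI`, `own_le`: the mass of the paths without own tie in the pieces times the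
mean of the own factor is small, for the mass of the paths apart and for any factor which is at most `C` times the mass of the pairs apart
(the indicator of `Tau`: `own_tau`). `gm_okE_gj`: `gm_okE` at the window, given the outside of any block `[c3, e3)` which contains it.
-/

set_option autoImplicit false
set_option linter.unusedSectionVars false

namespace Pool.W7d29a1.C0.O1r

open Finset MeasureTheory Pool.Agent.W_7d29a1_C0.Swap57 Pool.Agent.W_7d29a1_C0 Pool.Agent.W_7d29a1_C0.Mod92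
open Pool.Agent.W_7d29a1_F Pool.Agent.W_7d29a1_X
open Pool.W7d29a1.C0 Pool.W7d29a1.C0.VT31 Pool.W7d29a1.C0.R43 Pool.W7d29a1.C0.S1 Pool.W7d29a1.C0.K1
open Pool.W7d29a1.C0.O1 hiding T4_le_pairs T4A_small T4_small fibR fibL gm_gen
open Pool.Agent.W_7d29a1_C0.Blk18 (Full)
open Pool.Agent.W_7d29a1_C0.GwA50 (GwW)
open Pool.W7d29a1.C0.Bd73 (nCn nCn_nonneg gj_dif)

noncomputable section

variable {μ : Measure ℝ} {s : ℝ} {N : ℕ} {Q : Finset (Finset ℕ)} {Y : Type*} [DecidableEq Y] [Nonempty (Px Q)]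

/-! ### The response -/

/-- The error of the differences of the response. -/
def rgj (μ : Measure ℝ) (s : ℝ) (N : ℕ) (Q : Finset (Finset ℕ)) (δ₁ c' B : ℝ) (b j : ℕ) (z : Px Q) : ℝ :=
  Real.exp (-(N : ℝ) ^ c') + B * nCn μ s δ₁ (j - b) (j + b) z

theorem rgj_nonneg {δ₁ c' B : ℝ} (hB : 0 ≤ B) (b j : ℕ) (z : Px Q) : 0 ≤ rgj μ s N Q δ₁ c' B b j z :=
  add_nonneg (Real.exp_pos _).le (mul_nonneg hB (nCn_nonneg _ _ _ _ _ _))

/-- **The response of the window.** -/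
theorem difR_gj {κ δ δ₁ ε c' : ℝ} {η : Env} (h : GwW μ s N κ δ δ₁ ε c' η) (hQ : Full N Q) {b j : ℕ} (hj : j + b ≤ N)
    (h1 : (N : ℝ) ^ κ ≤ ((j - (j - b) : ℕ) : ℝ)) (h2 : (N : ℝ) ^ κ ≤ b) {B : ℝ} (hB : 0 ≤ B) {a : ℤ} (ha : a = 1 ∨ a = -1) :
    DifR (lw μ s η N Q) (pJ (j - b) (j + b)) (NM (j - b) j j (j + b)) (Real.exp ((N : ℝ) ^ ε)) (rgj μ s N Q δ₁ c' B b j)
      (gj μ s η δ B b j a) := fun u v => by
  refine (gj_dif h hQ hj h1 h2 hB ha u v).trans ?_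
  have := (Real.exp_pos (-(N : ℝ) ^ c')).le
  unfold rgj
  linarith

theorem gm_rgj (w : Px Q → ℝ) {δ₁ c' B : ℝ} (b j : ℕ) (H : Px Q → ℝ) :
    gm w (fun x => H x * rgj μ s N Q δ₁ c' B b j x) =
      Real.exp (-(N : ℝ) ^ c') * gm w H + B * gm w (fun x => H x * nCn μ s δ₁ (j - b) (j + b) x) := by
  rw [← gm_smul, ← gm_smul, ← gm_add]
  congr 1
  funext x
  simp only [Pi.add_apply, Pi.smul_apply, smul_eq_mul]
  unfold rgj
  ring

/-- The region `[g0, g1]` is outside of the window. -/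
theorem out_gj {c d g0 g1 : ℕ} (hg : g1 ≤ c ∨ d ≤ g0) (u v : Px Q) (h : pJ c d u = pJ c d v) (k : ℕ) (h0 : g0 ≤ k) (h1 : k ≤ g1) :
    ps u k = ps v k := by
  rcases hg with hg | hg
  · exact ps_of_le h (h1.trans hg)
  · exact ps_of_ge h (hg.trans h0)

/-! ### The own factor -/

theorem ind_bI (w : Px Q → ℝ) (p : Px Q → Y) (τ l q : ℕ) (d : ℝ) (x : Px Q) :
    ind (fun x => bI w p τ l q d x = 1) x = bI w p τ l q d x := by
  unfold ind
  beta_reduce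
  rcases bI01 w p τ l q d x with h | h
  · rw [h]
    norm_num
  · rw [h]
    norm_num

/-- **The own factor, the mass of the paths apart.** -/
theorem own_mI [MxQ Q] (η : Env) {p : Px Q → Y} (hp : SwP p) {o0 o1 τo lo q : ℕ} {d : ℝ} (hd : 0 ≤ d) (ho : o0 ≤ τo)
    (ho' : en τo lo q ≤ o1) (S0 : Px Q) :
    cE (lw μ s η N Q) p (ind fun x => bI (lw μ s η N Q) p τo lo q d x = 1) S0 *
      cE (lw μ s η N Q) p (mI (lw μ s η N Q) p o0 o1) S0 ≤ (1 / 2) ^ q + 3 * q * d := by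
  have h2 := robP (μ := μ) (s := s) (N := N) η hp S0 τo lo q hd (L := en τo lo q) le_rfl
  refine le_trans (mul_le_mul (le_of_eq (cE_congr _ p (fun x => ind_bI _ p τo lo q d x) S0)) ?_
    (cE_nonneg _ _ (mI_nonneg _ _ _ _) _) (cE_nonneg _ _ (fun x => ?_) _)) h2
  · rw [← cE2_mI]
    exact cE2_mono _ p (fun h h' => NI_sub ho ho' h h') S0 S0
  · rcases bI01 (lw μ s η N Q) p τo lo q d x with h | h
    · rw [h]
    · rw [h]
      norm_num

/-- **The own factor, any function which is at most `C` times the mass of the pairs apart.** -/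
theorem own_le [MxQ Q] (η : Env) {p : Px Q → Y} (hp : SwP p) {o0 o1 τo lo q : ℕ} {d : ℝ} (hd : 0 ≤ d) (ho : o0 ≤ τo)
    (ho' : en τo lo q ≤ o1) {A : Px Q → ℝ} {C : ℝ} (hC : 0 ≤ C) (hA : ∀ x, A x ≤ C * cE2 (lw μ s η N Q) p (NI o0 o1) x x)
    (S0 : Px Q) :
    cE (lw μ s η N Q) p (ind fun x => bI (lw μ s η N Q) p τo lo q d x = 1) S0 * cE (lw μ s η N Q) p A S0 ≤
      C * ((1 / 2) ^ q + 3 * q * d) := by
  set w := lw μ s η N Q with hw
  have h0 := cE_nonneg w p (ind_nonneg fun x => bI w p τo lo q d x = 1) S0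
  have h1 : cE w p A S0 ≤ C * cE w p (mI w p o0 o1) S0 := by
    have a1 := cE_fib_mono w p (f := A) (f' := fun _ => C * cE w p (mI w p o0 o1) S0) (x0 := S0) fun x hx => by
      refine (hA x).trans (le_of_eq ?_)
      rw [cE2_mI, cE_eq_of w p _ hx]
    rwa [cE_constf] at a1
  calc cE w p (ind fun x => bI w p τo lo q d x = 1) S0 * cE w p A S0 ≤
        cE w p (ind fun x => bI w p τo lo q d x = 1) S0 * (C * cE w p (mI w p o0 o1) S0) := mul_le_mul_of_nonneg_left h1 h0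
    _ = C * (cE w p (ind fun x => bI w p τo lo q d x = 1) S0 * cE w p (mI w p o0 o1) S0) := by ring
    _ ≤ _ := mul_le_mul_of_nonneg_left (own_mI η hp hd ho ho' S0) hC

/-- **The own factor, the indicator of a near tie of the fibre.** -/
theorem own_tau [MxQ Q] (η : Env) {p : Px Q → Y} (hp : SwP p) {o0 o1 τo lo q : ℕ} {d : ℝ} (hd : 0 ≤ d) (ho : o0 ≤ τo)
    (ho' : en τo lo q ≤ o1) {A : Px Q → ℝ} {M : ℝ} (hA1 : ∀ x, A x ≤ 1) (hA : ∀ x, ¬ Tau (lw μ s η N Q) p o0 o1 M x → A x ≤ 0)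
    (S0 : Px Q) :
    cE (lw μ s η N Q) p (ind fun x => bI (lw μ s η N Q) p τo lo q d x = 1) S0 * cE (lw μ s η N Q) p A S0 ≤
      Real.exp (5 * M) * ((1 / 2) ^ q + 3 * q * d) := by
  refine own_le η hp hd ho ho' (Real.exp_pos _).le (fun x => ?_) S0
  by_cases h : Tau (lw μ s η N Q) p o0 o1 M x
  · refine (hA1 x).trans ?_
    have h1 := mul_le_mul_of_nonneg_left h (Real.exp_pos (5 * M)).le
    rwa [← Real.exp_add, add_neg_cancel, Real.exp_zero] at h1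
  · exact (hA x h).trans (mul_nonneg (Real.exp_pos _).le (cE2_nonneg _ _ (fun _ _ => NI_nonneg _ _ _ _) _ _))

/-! ### At the window -/

/-- **`gm_okE` AT THE WINDOW**: given the outside of a block `[c3, e3)` which contains `[j - b, j + b]`; margins `[j - b, j]`, `[j, j + b]`. -/
theorem gm_okE_gj [MxQ Q] {κ δ δ₁ ε c' : ℝ} {η : Env} (h : GwW μ s N κ δ δ₁ ε c' η) (hQ : Full N Q) {b j : ℕ} (hj : j + b ≤ N)
    (hk1 : (N : ℝ) ^ κ ≤ ((j - (j - b) : ℕ) : ℝ)) (hk2 : (N : ℝ) ^ κ ≤ b) {B : ℝ} (hB : 0 ≤ B) {a : ℤ} (ha : a = 1 ∨ a = -1)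
    {c3 e3 : ℕ} (hc3 : c3 ≤ j - b) (he3 : j + b ≤ e3) {t : ℝ} (ht : 0 < t) {g0 g1 : ℕ} (hg : g1 ≤ j - b ∨ j + b ≤ g0)
    {A : Px Q → ℝ} (hA0 : ∀ y, 0 ≤ A y) (hA1' : ∀ y, A y ≤ 1) {Bo : Px Q → Prop} {eo : ℝ}
    (hBA : ∀ S0, cE (lw μ s η N Q) (pJ c3 e3) (ind Bo) S0 * cE (lw μ s η N Q) (pJ c3 e3) A S0 ≤ eo) {q : ℕ} {d e1 d3 : ℝ}
    {a1 m1 a2 m2 : ℕ} (hA1 : j - b ≤ a1) (hA1e : en a1 m1 q ≤ j) (hA2 : j - b ≤ a2) (hA2e : en a2 m2 q ≤ j)
    {b1 n1 b2 n2 : ℕ} (hB1 : j ≤ b1) (hB1e : en b1 n1 q ≤ j + b) (hB2 : j ≤ b2) (hB2e : en b2 n2 q ≤ j + b)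
    (hd : 0 ≤ d) (he : 0 ≤ e1) (hd3 : 0 ≤ d3) {H : Px Q → ℝ} (hH : Mp (pJ c3 e3) H) (hH0 : ∀ x, 0 ≤ H x) {C : ℝ} (hC : 0 ≤ C) :
    gm (lw μ s η N Q) (fun x => H x * min 1 (C * T4 (lw μ s η N Q) (pJ c3 e3) (gj μ s η δ B b j a) t A x)) ≤
      gm (lw μ s η N Q) (fun x => H x * ind (fun x => ¬ okE (lw μ s η N Q) (pJ c3 e3) Bo q d e1 d3 g0 g1 a1 m1 a2 m2 x ∨
        ¬ okE (lw μ s η N Q) (pJ c3 e3) Bo q d e1 d3 g0 g1 b1 n1 b2 n2 x) x) +
        C * (Kap eo (Real.exp ((N : ℝ) ^ ε)) t q d e1 d3 + 6 / t * Real.exp (-(N : ℝ) ^ c')) * gm (lw μ s η N Q) H +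
        C * (6 / t) * B * gm (lw μ s η N Q) (fun x => H x * nCn μ s δ₁ (j - b) (j + b) x) := by
  have h1 := gm_okE (μ := μ) (s := s) (N := N) η (swP_pJ (show c3 ≤ e3 by omega)) (crs_pJ hc3 he3) (rgj_nonneg hB b j) ht
    (Real.exp_pos _).le (difR_gj h hQ hj hk1 hk2 hB ha) (fun u v huv k h0 h1 => out_gj hg u v huv k h0 h1) hA0 hA1' hBA hA1 hA1e
    hA2 hA2e hB1 hB1e hB2 hB2e hd he hd3 hH hH0 hC
  rw [gm_rgj] at h1
  refine h1.trans (le_of_eq ?_)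
  ring

end

end Pool.W7d29a1.C0.O1r
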