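import Pool.Agent.W_7d29a1_C0.OkE15D
import Pool.Agent.W_7d29a1_C0.OwnS27
import Pool.Agent.W_7d29a1_C0.GwO73
import Pool.Agent.W_7d29a1_C0.TauE34
import Pool.Agent.W_7d29a1_C0.StripP80

/-!
MP_7d29a1_pr, [CURV0] / [C0], E5 (helper23): THE LINE OF `O1.T4` (three levels with an own factor, window `[j - b0, j + b0]`, given the outside
of `[j - b', j + b')`) IN MODEL FORM, `t4N`. Per environment `O1r.gm_okE_gj` (helper27), for a good environment (`GwW`, mass out of the cone at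
most `exp (- N ^ a₁)`: two levels, both before the cone); the price of the event is `P15.okE_bothR / L` (helper15). Own factors: `OwnF` (mass
of the paths apart, near tie of the fibre).
-/

set_option autoImplicit false
set_option linter.unusedSectionVars false

namespace Pool.Agent.W_7d29a1_C0.DT5T

open Finset MeasureTheory Filter Topology
open Pool.Agent.W_7d29a1_F Pool.Agent.W_7d29a1_X
open Pool.Agent.W_7d29a1_H (sl)
open Pool.Agent.W_7d29a1_HS (In)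
open Pool.Agent.W_7d29a1_HZ (wd' EE')
open Pool.Agent.W_7d29a1_C0 Pool.Agent.W_7d29a1_C0.Mod92
open Pool.Agent.W_7d29a1_C0.Swap57 (NI cE2 NI_nonneg)
open Pool.Agent.W_7d29a1_C0.Blk18 (Full full_Pn)
open Pool.Agent.W_7d29a1_C0.GwA50 (GwW)
open Pool.Agent.W_7d29a1_C0.Strip80 (OffD)
open Pool.Agent.W_7d29a1_C0.P15 (FinB ig15 gm01 iE iE_meas meas_okE meas_bI)
open Pool.W7d29a1.C0 (gm gm_nonneg gm_mono gm_const gm_add gm_smul)
open Pool.W7d29a1.C0.VT31 (Mp cE cE_nonneg cE_mono)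
open Pool.W7d29a1.C0.R43 (Tau mI bI st swP_pJ mI_nonneg MxQ SwP)
open Pool.W7d29a1.C0.S1 (i1 i1_nonneg i1_of i1_not)
open Pool.W7d29a1.C0.Bd73 (nCn nCn_nonneg)
open Pool.W7d29a1.C0.O1 (okE en T4 Kap ind ind_nonneg T4_nonneg)
open Pool.W7d29a1.C0.O1r (own_mI own_tau gm_okE_gj)

noncomputable section

variable {μ : Measure ℝ} {s : ℝ} {N : ℕ}

/-! ### The own factor -/

/-- The left end of the window of the own factor. -/
def UU (sd : Bool) (j b a : ℕ) : ℕ := if sd then a else j - b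

/-- The right end of the window of the own factor. -/
def VV (sd : Bool) (j b a : ℕ) : ℕ := if sd then j + b else a

/-- **The four own factors**: `fm`: mass of the paths apart (`true`), near tie of the fibre (`false`); `sd`: behind (`true`), in front. -/
def Am (sd fm : Bool) (μ : Measure ℝ) (s : ℝ) (N : ℕ) (Q : Finset (Finset ℕ)) (b b' a : ℕ) (m1 : ℝ) (ω : Env × Finset ℕ) (j : ℕ) :
    Px Q → ℝ := fun S =>
  if fm then mI (wm μ s N Q ω) (pJ (j - b') (j + b')) (UU sd j b a) (VV sd j b a) S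
  else i1 (Tau (wm μ s N Q ω) (pJ (j - b') (j + b')) (UU sd j b a) (VV sd j b a) m1 S)

/-- A function which is small in the mean on the paths without a tie in the pieces. -/
structure OwnF {Q : Finset (Finset ℕ)} {Y : Type*} [DecidableEq Y] (w : Px Q → ℝ) (p : Px Q → Y) (U V : ℕ) (m1 : ℝ) (A : Px Q → ℝ) :
    Prop where
  nn : ∀ x, 0 ≤ A x
  le : ∀ x, A x ≤ 1
  ba : ∀ (τo lo q : ℕ) (d : ℝ), 0 ≤ d → U ≤ τo → en τo lo q ≤ V → ∀ S0,
    cE w p (ind fun x => bI w p τo lo q d x = 1) S0 * cE w p A S0 ≤ Real.exp (5 * m1) * ((1 / 2) ^ q + 3 * q * d)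

theorem ownF_mI {Q : Finset (Finset ℕ)} [Nonempty (Px Q)] [MxQ Q] {Y : Type*} [DecidableEq Y] (η : Env) {p : Px Q → Y} (hp : SwP p)
    (U V : ℕ) {m1 : ℝ} (hm : 0 ≤ m1) : OwnF (lw μ s η N Q) p U V m1 (mI (lw μ s η N Q) p U V) := by
  refine ⟨mI_nonneg _ _ _ _, fun y => ?_, fun τo lo q d hd h1 h2 S0 => ?_⟩
  · exact (Pool.W7d29a1.C0.K1.cE_mem _ p (fun _ => NI_nonneg _ _ _ _) (fun _ => Pool.W7d29a1.C0.O1.NI_le_one _ _ _ _) y).2
  · have h3 := own_mI (μ := μ) (s := s) (N := N) η hp hd h1 h2 S0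
    have h4 : (0 : ℝ) ≤ (1 / 2) ^ q + 3 * q * d := by positivity
    have h5 : 1 ≤ Real.exp (5 * m1) := Real.one_le_exp (by linarith)
    exact h3.trans (le_mul_of_one_le_left h4 h5)

theorem ownF_tau {Q : Finset (Finset ℕ)} [Nonempty (Px Q)] [MxQ Q] {Y : Type*} [DecidableEq Y] (η : Env) {p : Px Q → Y} (hp : SwP p)
    (U V : ℕ) (m1 : ℝ) : OwnF (lw μ s η N Q) p U V m1 (fun S => i1 (Tau (lw μ s η N Q) p U V m1 S)) := by
  have hle : ∀ x, i1 (Tau (lw μ s η N Q) p U V m1 x) ≤ 1 := fun x => by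
    unfold i1
    split_ifs <;> norm_num
  exact ⟨fun x => i1_nonneg _, hle, fun τo lo q d hd h1 h2 S0 => own_tau η hp hd h1 h2 hle (fun x hx => (i1_not hx).le) S0⟩

/-- The four own factors are such. -/
theorem ownF_Am (sd fm : Bool) {y : ℕ} [Nonempty (Px (Pn N y))] (b b' a : ℕ) {m1 : ℝ} (hm : 0 ≤ m1) (ω : Env × Finset ℕ) (j : ℕ) :
    OwnF (wm μ s N (Pn N y) ω) (pJ (j - b') (j + b')) (UU sd j b a) (VV sd j b a) m1 (Am sd fm μ s N (Pn N y) b b' a m1 ω j) := by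
  cases fm
  · exact ownF_tau ω.1 (swP_pJ (by omega)) _ _ m1
  · exact ownF_mI ω.1 (swP_pJ (by omega)) _ _ hm

/-! ### Numbers -/

theorem ev1 {A a b c : ℝ} (hA : 0 < A) (ha : 0 < a) (hb : 0 < b) (hcb : c < b) :
    ∃ N₀ : ℕ, ∀ N : ℕ, N₀ ≤ N → A * Real.exp (-(a * (N : ℝ) ^ b)) ≤ 1 / 2 * Real.exp (-(N : ℝ) ^ c) := by
  obtain ⟨N₀, h⟩ := eventually_atTop.1 (Pool.Agent.W_7d29a1_HZ.Z74.ev_exp hA ha hb hcb 0)
  refine ⟨N₀, fun N hN => ?_⟩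
  have h1 := h N hN
  rwa [Real.rpow_zero, mul_one] at h1

theorem half_pow {M : ℝ} {q : ℕ} (hq : 10 * M ≤ q) : (1 / 2 : ℝ) ^ q ≤ Real.exp (-(69 / 10 * M)) := by
  have e1 : (1 / 2 : ℝ) = Real.exp (-Real.log 2) := by
    rw [Real.exp_neg, Real.exp_log (by norm_num)]
    norm_num
  rw [e1, ← Real.exp_nat_mul]
  refine Real.exp_le_exp.2 ?_
  have h1 : (0.69 : ℝ) ≤ Real.log 2 := by
    have := Real.log_two_gt_d9
    linarith
  nlinarith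

/-- **The bound of the fibre times the constant.** -/
theorem kap_le {m1 B x M : ℝ} {q : ℕ} (hM : 250 ≤ M) (hq : 10 * M ≤ q) (hq' : (q : ℝ) ≤ 20 * M) (hm : 0 ≤ m1) (hx : 0 ≤ x)
    (hs : 10 * m1 + 12 * B + x ≤ M) :
    Real.exp (5 * m1 + 12 * B) * Kap (Real.exp (5 * m1) * ((1 / 2) ^ q + 3 * q * Real.exp (-(7 * M)))) (Real.exp x) 1 q
      (Real.exp (-(7 * M))) (Real.exp (-(7 * M))) (Real.exp (-(7 * M))) ≤ 13 * Real.exp (-(4 * M)) := by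
  obtain ⟨D, hD⟩ : ∃ D, D = Real.exp (-(7 * M)) := ⟨_, rfl⟩
  obtain ⟨E, hE⟩ : ∃ E, E = Real.exp (-(5 * M)) := ⟨_, rfl⟩
  have E0 : 0 < E := by
    rw [hE]
    exact Real.exp_pos _
  have D0 : 0 < D := by
    rw [hD]
    exact Real.exp_pos _
  have k1 : (1 / 2 : ℝ) ^ q ≤ E / 2 := by
    refine (half_pow hq).trans ?_
    have e1 : E = Real.exp (-(69 / 10 * M)) * Real.exp (19 / 10 * M) := by
      rw [hE, ← Real.exp_add]
      congr 1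
      ring
    have e2 : (2 : ℝ) ≤ Real.exp (19 / 10 * M) := by
      have := Real.add_one_le_exp (19 / 10 * M)
      linarith
    have e3 := mul_le_mul_of_nonneg_left e2 (Real.exp_pos (-(69 / 10 * M))).le
    rw [e1]
    linarith
  have k2 : (6 * (q : ℝ) + 3) * D ≤ E / 2 := by
    have e1 : E = D * (Real.exp M * Real.exp M) := by
      rw [hE, hD, ← Real.exp_add, ← Real.exp_add]
      congr 1
      ring
    have e2 : M + 1 ≤ Real.exp M := Real.add_one_le_exp M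
    have e3 : (M + 1) * (M + 1) ≤ Real.exp M * Real.exp M := mul_le_mul e2 e2 (by linarith) (Real.exp_pos _).le
    have e4 : 2 * (6 * (q : ℝ) + 3) ≤ Real.exp M * Real.exp M := by nlinarith
    have e5 := mul_le_mul_of_nonneg_left e4 D0.le
    rw [e1]
    linarith
  have q0 : (0 : ℝ) ≤ q := by positivity
  have k3 : (1 / 2 : ℝ) ^ q + 3 * q * D ≤ E := by
    have := mul_nonneg (show 0 ≤ 3 * (q : ℝ) + 3 by linarith) D0.le
    linarith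
  have k4 : (1 / 2 : ℝ) ^ q + (D + 2 * ((3 * q + 1) * D)) ≤ E := by
    have : D + 2 * ((3 * (q : ℝ) + 1) * D) = (6 * q + 3) * D := by ring
    rw [this]
    linarith
  rw [← hD]
  unfold Kap
  have h1 : 1 ≤ Real.exp (5 * m1) := Real.one_le_exp (by linarith)
  have h2 : 1 ≤ Real.exp x := Real.one_le_exp hx
  have k5 : Real.exp (5 * m1) * ((1 / 2) ^ q + 3 * q * D) + 2 * (3 * Real.exp x / 1) *
      (((1 / 2) ^ q + 3 * q * D) + ((1 / 2) ^ q + (D + 2 * ((3 * q + 1) * D)))) ≤ 13 * (Real.exp (5 * m1) * Real.exp x * E) := by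
    have a1 : Real.exp (5 * m1) * ((1 / 2) ^ q + 3 * q * D) ≤ Real.exp (5 * m1) * E := mul_le_mul_of_nonneg_left k3 (by linarith)
    have a2 : 2 * (3 * Real.exp x / 1) * (((1 / 2) ^ q + 3 * q * D) + ((1 / 2) ^ q + (D + 2 * ((3 * q + 1) * D)))) ≤
        2 * (3 * Real.exp x / 1) * (E + E) := mul_le_mul_of_nonneg_left (by linarith) (by positivity)
    have a3 : Real.exp (5 * m1) * E ≤ Real.exp (5 * m1) * Real.exp x * E :=
      mul_le_mul_of_nonneg_right (le_mul_of_one_le_right (by linarith) h2) E0.le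
    have a4 : Real.exp x * E ≤ Real.exp (5 * m1) * Real.exp x * E :=
      mul_le_mul_of_nonneg_right (le_mul_of_one_le_left (by linarith) h1) E0.le
    linarith
  have k6 := mul_le_mul_of_nonneg_left k5 (Real.exp_pos (5 * m1 + 12 * B)).le
  refine k6.trans ?_
  have e6 : Real.exp (5 * m1 + 12 * B) * (13 * (Real.exp (5 * m1) * Real.exp x * E)) =
      13 * Real.exp (10 * m1 + 12 * B + x - 5 * M) := by
    have e7 : Real.exp (10 * m1 + 12 * B + x - 5 * M) =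
        Real.exp (5 * m1 + 12 * B) * (Real.exp (5 * m1) * Real.exp x * Real.exp (-(5 * M))) := by
      rw [← Real.exp_add, ← Real.exp_add, ← Real.exp_add]
      congr 1
      ring
    rw [hE, e7]
    ring
  rw [e6]
  exact mul_le_mul_of_nonneg_left (Real.exp_le_exp.2 (by linarith)) (by norm_num)

/-! ### One good environment -/

/-- The event of `O1r.gm_okE` with all the lengths `l` and all the levels `dd`. -/
def EvO {Q : Finset (Finset ℕ)} (w : Px Q → ℝ) (c d τo l q g0 g1 a1 a2 b1 b2 : ℕ) (dd : ℝ) (x : Px Q) : Prop :=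
  ¬ okE w (pJ c d) (fun x => bI w (pJ c d) τo l q dd x = 1) q dd dd dd g0 g1 a1 l a2 l x ∨
    ¬ okE w (pJ c d) (fun x => bI w (pJ c d) τo l q dd x = 1) q dd dd dd g0 g1 b1 l b2 l x

/-- **ONE GOOD ENVIRONMENT.** -/
theorem t4_env {κ δ δ₁ ε c' : ℝ} {η : Env} (h : GwW μ s N κ δ δ₁ ε c' η) {y : ℕ} (hy : y ≤ N) {b j : ℕ} (hbj : b ≤ j) (hj : j + b ≤ N)
    (hk : (N : ℝ) ^ κ ≤ b) {B : ℝ} (hB : 0 ≤ B) {a : ℤ} (ha : a = 1 ∨ a = -1)
    {c3 e3 : ℕ} (hc3 : c3 ≤ j - b) (he3 : j + b ≤ e3) {g0 g1 : ℕ} (hg : g1 ≤ j - b ∨ j + b ≤ g0)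
    {U V : ℕ} {m1 : ℝ} (hm : 0 ≤ m1) {A : Px (Pn N y) → ℝ} (hA : OwnF (lw μ s η N (Pn N y)) (pJ c3 e3) U V m1 A)
    {τo l q : ℕ} (hU : U ≤ τo) (hV : en τo l q ≤ V)
    {a1 a2 b1 b2 : ℕ} (hA1 : j - b ≤ a1) (hA1e : en a1 l q ≤ j) (hA2 : j - b ≤ a2) (hA2e : en a2 l q ≤ j)
    (hB1 : j ≤ b1) (hB1e : en b1 l q ≤ j + b) (hB2 : j ≤ b2) (hB2e : en b2 l q ≤ j + b)
    {M : ℝ} (hM : 250 ≤ M) (hq : 10 * M ≤ q) (hq' : (q : ℝ) ≤ 20 * M) (hs : 10 * m1 + 12 * B + (N : ℝ) ^ ε ≤ M)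
    {ϑ : ℝ} (hϑ : gm (lw μ s η N (Pn N y)) (nCn μ s δ₁ (j - b) (j + b)) ≤ ϑ)
    {H : Px (Pn N y) → ℝ} {Mh : ℝ} (hH : Mp (pJ c3 e3) H) (hH0 : ∀ x, 0 ≤ H x) (hH1 : ∀ x, H x ≤ Mh) :
    gm (lw μ s η N (Pn N y)) (fun x => H x * min 1 (Real.exp (5 * m1 + 12 * B) *
      T4 (lw μ s η N (Pn N y)) (pJ c3 e3) (gj μ s η δ B b j a) 1 A x)) ≤
      gm (lw μ s η N (Pn N y)) (fun x => H x * ind (EvO (lw μ s η N (Pn N y)) c3 e3 τo l q g0 g1 a1 a2 b1 b2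
        (Real.exp (-(7 * M)))) x) +
        Mh * (13 * Real.exp (-(4 * M)) + 6 * Real.exp (5 * m1 + 12 * B) * Real.exp (-(N : ℝ) ^ c') +
          6 * Real.exp (5 * m1 + 12 * B) * B * ϑ) := by
  have hne := ne_Pn hy
  have hMh : 0 ≤ Mh := by
    obtain ⟨x⟩ := hne
    exact (hH0 x).trans (hH1 x)
  have d0 := (Real.exp_pos (-(7 * M))).le
  have h1 := gm_okE_gj h (full_Pn N y) hj (by rw [show j - (j - b) = b by omega]; exact hk) hk hB ha hc3 he3 one_pos hg hA.nn hA.le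
    (hA.ba τo l q (Real.exp (-(7 * M))) d0 hU hV) hA1 hA1e hA2 hA2e hB1 hB1e hB2 hB2e d0 d0 d0 hH hH0
    (Real.exp_pos (5 * m1 + 12 * B)).le
  refine h1.trans ?_
  obtain ⟨w, hw⟩ : ∃ w, w = lw μ s η N (Pn N y) := ⟨_, rfl⟩
  rw [← hw] at hϑ ⊢
  have e1 : gm w H ≤ Mh := (gm_mono w hH1).trans (gm_const w _).le
  have e2 : gm w (fun x => H x * nCn μ s δ₁ (j - b) (j + b) x) ≤ Mh * ϑ := by
    refine (gm_mono w (g := Mh • nCn μ s δ₁ (j - b) (j + b)) fun x => ?_).trans ?_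
    · exact mul_le_mul_of_nonneg_right (hH1 x) (nCn_nonneg _ _ _ _ _ _)
    · rw [gm_smul]
      exact mul_le_mul_of_nonneg_left hϑ hMh
  have e3 := kap_le hM hq hq' hm (Real.rpow_nonneg (Nat.cast_nonneg N) ε) hs
  have E0 := (Real.exp_pos (5 * m1 + 12 * B)).le
  have E1 := (Real.exp_pos (-(N : ℝ) ^ c')).le
  have e4 : Real.exp (5 * m1 + 12 * B) * (Kap (Real.exp (5 * m1) * ((1 / 2) ^ q + 3 * q * Real.exp (-(7 * M))))
      (Real.exp ((N : ℝ) ^ ε)) 1 q (Real.exp (-(7 * M))) (Real.exp (-(7 * M))) (Real.exp (-(7 * M))) +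
      6 / 1 * Real.exp (-(N : ℝ) ^ c')) * gm w H ≤ (13 * Real.exp (-(4 * M)) + 6 * Real.exp (5 * m1 + 12 * B) *
        Real.exp (-(N : ℝ) ^ c')) * Mh := by
    refine mul_le_mul ?_ e1 (gm_nonneg w hH0) (by positivity)
    rw [mul_add]
    refine add_le_add e3 (le_of_eq ?_)
    ring
  have e5 : Real.exp (5 * m1 + 12 * B) * (6 / 1) * B * gm w (fun x => H x * nCn μ s δ₁ (j - b) (j + b) x) ≤
      Real.exp (5 * m1 + 12 * B) * (6 / 1) * B * (Mh * ϑ) := mul_le_mul_of_nonneg_left e2 (by positivity)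
  have e6 : (13 * Real.exp (-(4 * M)) + 6 * Real.exp (5 * m1 + 12 * B) * Real.exp (-(N : ℝ) ^ c')) * Mh +
      Real.exp (5 * m1 + 12 * B) * (6 / 1) * B * (Mh * ϑ) = Mh * (13 * Real.exp (-(4 * M)) +
        6 * Real.exp (5 * m1 + 12 * B) * Real.exp (-(N : ℝ) ^ c') + 6 * Real.exp (5 * m1 + 12 * B) * B * ϑ) := by ring
  rw [← e6, add_assoc]
  refine add_le_add (le_of_eq rfl) (add_le_add e4 e5)

/-! ### The price of the event -/

variable [IsProbabilityMeasure μ] {c₀ C₀ : ℝ} {n₀ : ℕ}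

/-- **THE PRICE, BOTH SIDES**, with the regions. -/
theorem priceO (h : In μ s c₀ C₀ n₀) : ∀ ε θ : ℝ, 0 < ε → 0 < θ → ∃ δ κ c₂ : ℝ, 0 < δ ∧ 0 < κ ∧ 0 < c₂ ∧ ∃ N₀ : ℕ,
    ∀ N : ℕ, N₀ ≤ N → ∀ y : ℕ, y ≤ N → |(y : ℝ) - sl μ s * N| ≤ ((N : ℝ) ^ δ * wd' μ s N) →
    ∀ M : ℝ, 8 ≤ M → M ≤ (N : ℝ) ^ κ → ∀ (sd : Bool) (b0 b b' j l a q : ℕ), 4 * b0 ≤ b → b ≤ b' → b' ≤ j → j + b' ≤ N → 1 ≤ q →
    3 * (q : ℝ) ≤ (N : ℝ) ^ κ → (N : ℝ) ^ θ ≤ l → 6 * q * (l + 1) ≤ b0 →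
    (sd = true → j + b0 ≤ a ∧ 4 * a ≤ 4 * j + 3 * b) → (sd = false → a + b0 ≤ j ∧ 4 * j ≤ 4 * a + 3 * b) →
    ∀ R : ℝ, 1 ≤ R → (∀ i : ℕ, 1 ≤ i → i ≤ 2 * b' → wd' μ s i ≤ R * wd' μ s l) → ∀ dd : ℝ, Real.exp (-(N : ℝ) ^ κ) ≤ dd →
    ∃ a1 a2 b1 b2 τo g0 g1 : ℕ, (j - b0 ≤ a1 ∧ en a1 l q ≤ j ∧ j - b0 ≤ a2 ∧ en a2 l q ≤ j ∧ j ≤ b1 ∧ en b1 l q ≤ j + b0 ∧ j ≤ b2 ∧
      en b2 l q ≤ j + b0) ∧ (g1 ≤ j - b0 ∨ j + b0 ≤ g0) ∧ (UU sd j b a ≤ τo ∧ en τo l q ≤ VV sd j b a) ∧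
      ∀ f : Env × Finset ℕ → Px (Pn N y) → ℝ, (∀ A x, Measurable fun η => f (η, A) x) → (∀ ω x, 0 ≤ f ω x) → (∀ ω x, f ω x ≤ 1) →
      FinB (Ioo (j - b') (j + b')) f →
      ∫ ω, gm (wm μ s N (Pn N y) ω) (fun x => f ω x * ind (EvO (wm μ s N (Pn N y) ω) (j - b') (j + b') τo l q g0 g1 a1 a2 b1 b2 dd) x)
        ∂(Pm μ N) ≤ 6 * (R * ((N : ℝ) ^ ε * (EE' μ s l)⁻¹)) ^ 2 * ∫ ω, gm (wm μ s N (Pn N y) ω) (f ω) ∂(Pm μ N) +
          (6 * Real.exp (-(N : ℝ) ^ c₂) + 16 * Real.exp (-M)) := by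
  intro ε θ hε hθ
  obtain ⟨δa, κa, ca, hδa, hκa, hca, La, hA⟩ := P15.okE_bothR h ε θ hε hθ
  obtain ⟨δb, κb, cb, hδb, hκb, hcb, Lb, hB⟩ := P15.okE_bothL h ε θ hε hθ
  refine ⟨min δa δb, min κa κb, min ca cb, lt_min hδa hδb, lt_min hκa hκb, lt_min hca hcb, La + Lb + 1, ?_⟩
  intro N hN y hyN hyc M hM hML sd b0 b b' j l a q h1 h2 h3 h4 hq1 hq hl h6 hsR hsL R hR hw dd hdd
  have hN1 : (1 : ℝ) ≤ N := by exact_mod_cast (show 1 ≤ N by omega)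
  have hwd : 0 ≤ wd' μ s N := zero_le_one.trans (le_max_left _ _)
  have hcone : ∀ δ', min δa δb ≤ δ' → |(y : ℝ) - sl μ s * N| ≤ ((N : ℝ) ^ δ' * wd' μ s N) := fun δ' hδ' =>
    hyc.trans (mul_le_mul_of_nonneg_right (Real.rpow_le_rpow_of_exponent_le hN1 hδ') hwd)
  have kA : (N : ℝ) ^ min κa κb ≤ (N : ℝ) ^ κa := Real.rpow_le_rpow_of_exponent_le hN1 (min_le_left _ _)
  have kB : (N : ℝ) ^ min κa κb ≤ (N : ℝ) ^ κb := Real.rpow_le_rpow_of_exponent_le hN1 (min_le_right _ _)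
  have eA : Real.exp (-(N : ℝ) ^ κa) ≤ dd := (Real.exp_le_exp.2 (by linarith)).trans hdd
  have eB : Real.exp (-(N : ℝ) ^ κb) ≤ dd := (Real.exp_le_exp.2 (by linarith)).trans hdd
  have cA : Real.exp (-(N : ℝ) ^ ca) ≤ Real.exp (-(N : ℝ) ^ min ca cb) :=
    Real.exp_le_exp.2 (neg_le_neg (Real.rpow_le_rpow_of_exponent_le hN1 (min_le_left _ _)))
  have cB : Real.exp (-(N : ℝ) ^ cb) ≤ Real.exp (-(N : ℝ) ^ min ca cb) :=
    Real.exp_le_exp.2 (neg_le_neg (Real.rpow_le_rpow_of_exponent_le hN1 (min_le_right _ _)))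
  obtain ⟨W, hW⟩ : ∃ W, W = 3 * q * (l + 1) := ⟨_, rfl⟩
  have hW2 : 2 * W ≤ b0 := by
    rw [hW]
    refine le_trans (le_of_eq ?_) h6
    ring
  have hen : ∀ τ, en τ l q = τ + W := fun τ => by rw [hW]; rfl
  have hlW : l + 1 ≤ W := by
    rw [hW]
    have : 1 * (l + 1) ≤ 3 * q * (l + 1) := Nat.mul_le_mul_right _ (by omega)
    omega
  cases sd
  · obtain ⟨h7, h8⟩ := hsL rfl
    have hU : UU false j b a = j - b := rfl
    have hV : VV false j b a = a := rfl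
    refine ⟨j - b0 + W, j - b0, j + W, j, j - b, j - 2 * b0, j - b0, ?_, Or.inl le_rfl, ?_, fun f hfm hf0 hf1 hfb => ?_⟩
    · simp only [hen]
      omega
    · rw [hU, hV, hen]
      omega
    · refine (hB N (by omega) N (by omega) le_rfl y hyN (hcone _ (min_le_right _ _)) M hM (hML.trans kB) (j - b') (j + b') (j - b0 + W) l
        (j - b0) l (j + W) l j l (j - b) l q (j - 2 * b0) (j - b0) l (by omega) (by rw [hen]; omega) (by omega) le_rfl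
        (by rw [hen]) (by rw [hen]; omega) (by omega) (by rw [hen]) (by rw [hen]; omega) (by omega) hq1 (hq.trans kB) hl
        le_rfl le_rfl le_rfl le_rfl le_rfl (2 * b') R hR hw (Or.inl (by omega)) (Or.inl (by omega)) dd dd dd eB eB eB f hfm hf0 hf1
        hfb).trans ?_
      linarith
  · obtain ⟨h7, h8⟩ := hsR rfl
    have hU : UU true j b a = a := rfl
    have hV : VV true j b a = j + b := rfl
    refine ⟨j - b0, j - b0 + W, j, j + W, j + b - W, j + b0, j + 2 * b0, ?_, Or.inr le_rfl, ?_, fun f hfm hf0 hf1 hfb => ?_⟩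
    · simp only [hen]
      omega
    · rw [hU, hV, hen]
      omega
    · refine (hA N (by omega) N (by omega) le_rfl y hyN (hcone _ (min_le_left _ _)) M hM (hML.trans kA) (j - b') (j + b') (j - b0) l
        (j - b0 + W) l j l (j + W) l (j + b - W) l q (j + b0) (j + 2 * b0) l (by omega) (by rw [hen]) (by rw [hen]; omega)
        (by omega) (by rw [hen]) (by rw [hen]; omega) (by omega) (by omega) (by rw [hen]; omega) (by omega) hq1 (hq.trans kA) hl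
        le_rfl le_rfl le_rfl le_rfl le_rfl (2 * b') R hR hw (Or.inl (by omega)) (Or.inl (by omega)) dd dd dd eA eA eA f hfm hf0 hf1
        hfb).trans ?_
      linarith

/-! ### Off a rare event of the environment -/

/-- A bound which holds off a rare event of the environment (the lemma of `E2aD81`). -/
theorem int_off23 {Φ G : Env × Finset ℕ → ℝ} (hΦ : ∀ ω, 0 ≤ Φ ω) (hG0 : ∀ ω, 0 ≤ G ω) (hG : Integrable G (Pm μ N)) {K0 T P : ℝ}
    (hK : 0 ≤ K0) (hT0 : 0 ≤ T) (hP : 0 ≤ P) (hT : ∀ ω, Φ ω ≤ T) {bad : Set Env} (hbad : law μ bad ≤ ENNReal.ofReal P)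
    (h : ∀ ω : Env × Finset ℕ, ω.1 ∉ bad → Φ ω ≤ G ω + K0) :
    ∫ ω, Φ ω ∂(Pm μ N) ≤ ∫ ω, G ω ∂(Pm μ N) + (K0 + T * P) := by
  obtain ⟨E, hE⟩ : ∃ E : Set Env, E = toMeasurable (law μ) bad := ⟨_, rfl⟩
  have mE : MeasurableSet E := by
    rw [hE]
    exact measurableSet_toMeasurable _ _
  obtain ⟨φ, hφ⟩ : ∃ φ : Env → ℝ, φ = Set.indicator E 1 := ⟨_, rfl⟩
  have mφ : Measurable φ := by
    rw [hφ]
    exact measurable_one.indicator mE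
  have φ0 : ∀ η, 0 ≤ φ η := fun η => by
    rw [hφ]
    exact Set.indicator_nonneg (fun _ _ => zero_le_one) η
  have φ1 : ∀ η, φ η ≤ 1 := fun η => by
    rw [hφ]
    exact Set.indicator_le_self' (fun _ _ => zero_le_one) η
  have iφ : Integrable (fun ω : Env × Finset ℕ => φ ω.1) (Pm μ N) := int_bdd (M := 1) (mφ.comp measurable_fst) fun ω => by
    rw [abs_of_nonneg (φ0 _)]
    exact φ1 _
  have hpt : ∀ ω : Env × Finset ℕ, Φ ω ≤ G ω + (K0 + T * φ ω.1) := fun ω => by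
    by_cases hb : ω.1 ∈ E
    · have k1 : φ ω.1 = 1 := by
        rw [hφ]
        exact Set.indicator_of_mem hb _
      rw [k1, mul_one]
      linarith [hT ω, hG0 ω]
    · have hb' : ω.1 ∉ bad := fun h' => hb (by
        rw [hE]
        exact subset_toMeasurable _ _ h')
      have k2 := mul_nonneg hT0 (φ0 ω.1)
      linarith [h ω hb']
  have iK : Integrable (fun ω : Env × Finset ℕ => K0 + T * φ ω.1) (Pm μ N) := (integrable_const K0).add (iφ.const_mul T)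
  have hI := integral_mono_of_nonneg (μ := Pm μ N) (ae_of_all _ hΦ) (hG.add iK) (ae_of_all _ hpt)
  refine hI.trans ?_
  have e1 := integral_add hG iK
  simp only [Pi.add_apply] at e1 ⊢
  rw [e1, integral_add (integrable_const K0) (iφ.const_mul T), integral_const, integral_const_mul,
    Bri36.int_fst (Φ := φ) mφ (M := 1) fun η => by rw [abs_of_nonneg (φ0 _)]; exact φ1 _]
  have e3 : (Pm μ N).real Set.univ = 1 := by rw [measureReal_def, measure_univ, ENNReal.toReal_one]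
  have e4 : ∫ η, φ η ∂(law μ) ≤ P := by
    rw [hφ, integral_indicator_one mE, measureReal_def, hE, measure_toMeasurable]
    exact (ENNReal.toReal_mono ENNReal.ofReal_ne_top hbad).trans (ENNReal.toReal_ofReal hP).le
  rw [e3, one_smul]
  have e5 := mul_le_mul_of_nonneg_left e4 hT0
  linarith

/-- **The sum of the errors.** -/
theorem ev_t4 {κ₂ c₁ a₁ cn cp κ : ℝ} (hκ₂ : 0 < κ₂) (hc₁ : 0 < c₁) (ha₁ : 0 < a₁) (hcn : 0 < cn) (hcp : 0 < cp)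
    (hκ : κ = min (κ₂ / 2) (min (c₁ / 2) (a₁ / 2))) : ∃ c₂ : ℝ, 0 < c₂ ∧ ∃ N₀ : ℕ, ∀ N : ℕ, N₀ ≤ N → ∀ B m1 : ℝ, 0 ≤ B →
      B ≤ (N : ℝ) ^ κ → 0 ≤ m1 → m1 ≤ (N : ℝ) ^ κ →
      (13 * Real.exp (-(4 * (N : ℝ) ^ κ₂)) + 6 * Real.exp (5 * m1 + 12 * B) * Real.exp (-(N : ℝ) ^ c₁) +
        6 * Real.exp (5 * m1 + 12 * B) * B * Real.exp (-(N : ℝ) ^ a₁)) + (Real.exp (-(N : ℝ) ^ c₁) + Real.exp (-(N : ℝ) ^ cn)) +
        (6 * Real.exp (-(N : ℝ) ^ cp) + 16 * Real.exp (-(N : ℝ) ^ κ₂)) ≤ Real.exp (-(N : ℝ) ^ c₂) := by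
  obtain ⟨c₂, hc₂⟩ : ∃ c : ℝ, c = min (κ₂ / 2) (min (c₁ / 2) (min (a₁ / 2) (min (cn / 2) (cp / 2)))) := ⟨_, rfl⟩
  have c0 : 0 < c₂ := by
    rw [hc₂]
    exact lt_min (by positivity) (lt_min (by positivity) (lt_min (by positivity) (lt_min (by positivity) (by positivity))))
  have d1 : c₂ < κ₂ := by
    have : c₂ ≤ κ₂ / 2 := by rw [hc₂]; exact min_le_left _ _
    linarith
  have d2 : c₂ < c₁ := by
    have : c₂ ≤ c₁ / 2 := by rw [hc₂]; exact (min_le_right _ _).trans (min_le_left _ _)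
    linarith
  have d3 : c₂ < a₁ := by
    have : c₂ ≤ a₁ / 2 := by rw [hc₂]; exact (min_le_right _ _).trans ((min_le_right _ _).trans (min_le_left _ _))
    linarith
  have d4 : c₂ < cn := by
    have : c₂ ≤ cn / 2 := by
      rw [hc₂]; exact (min_le_right _ _).trans ((min_le_right _ _).trans ((min_le_right _ _).trans (min_le_left _ _)))
    linarith
  have d5 : c₂ < cp := by
    have : c₂ ≤ cp / 2 := by
      rw [hc₂]; exact (min_le_right _ _).trans ((min_le_right _ _).trans ((min_le_right _ _).trans (min_le_right _ _)))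
    linarith
  have k1 : κ ≤ c₁ / 2 := by rw [hκ]; exact (min_le_right _ _).trans (min_le_left _ _)
  have k2 : κ ≤ a₁ / 2 := by rw [hκ]; exact (min_le_right _ _).trans (min_le_right _ _)
  obtain ⟨L1, hL1⟩ := ev1 (A := 512) (a := 1) (by norm_num) one_pos hκ₂ d1
  obtain ⟨L2, hL2⟩ := ev1 (A := 128) (a := 1 / 2) (by norm_num) (by norm_num) hc₁ d2
  obtain ⟨L3, hL3⟩ := ev1 (A := 128) (a := 1 / 2) (by norm_num) (by norm_num) ha₁ d3
  obtain ⟨L4, hL4⟩ := ev1 (A := 128) (a := 1) (by norm_num) one_pos hcn d4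
  obtain ⟨L5, hL5⟩ := ev1 (A := 128) (a := 1) (by norm_num) one_pos hcp d5
  obtain ⟨L6, hL6⟩ := Pool.Agent.W_7d29a1_Z.NumI77.large (show 0 < c₁ / 2 by positivity) 36
  obtain ⟨L7, hL7⟩ := Pool.Agent.W_7d29a1_Z.NumI77.large (show 0 < a₁ / 2 by positivity) 36
  refine ⟨c₂, c0, L1 + L2 + L3 + L4 + L5 + L6 + L7, fun N hN B m1 hB hBN hm hmN => ?_⟩
  have g1 := hL1 N (by omega)
  have g2 := hL2 N (by omega)
  have g3 := hL3 N (by omega)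
  have g4 := hL4 N (by omega)
  have g5 := hL5 N (by omega)
  obtain ⟨n1, n6, -⟩ := hL6 N (by omega)
  obtain ⟨-, n7, -⟩ := hL7 N (by omega)
  have hNR : (1 : ℝ) ≤ N := by exact_mod_cast n1
  have hN0 : (0 : ℝ) < N := by linarith
  obtain ⟨T, hT⟩ : ∃ T : ℝ, T = Real.exp (-(N : ℝ) ^ c₂) := ⟨_, rfl⟩
  rw [one_mul, ← hT] at g1 g4 g5
  rw [← hT] at g2 g3
  -- `x = N ^ (c₁ / 2)`, `z = N ^ (a₁ / 2)`
  obtain ⟨x, hx⟩ : ∃ x : ℝ, x = (N : ℝ) ^ (c₁ / 2) := ⟨_, rfl⟩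
  obtain ⟨z, hz⟩ : ∃ z : ℝ, z = (N : ℝ) ^ (a₁ / 2) := ⟨_, rfl⟩
  have hxx : (N : ℝ) ^ c₁ = x * x := by
    rw [hx, ← Real.rpow_add hN0]
    ring_nf
  have hzz : (N : ℝ) ^ a₁ = z * z := by
    rw [hz, ← Real.rpow_add hN0]
    ring_nf
  have b1 : (N : ℝ) ^ κ ≤ x := by rw [hx]; exact Real.rpow_le_rpow_of_exponent_le hNR k1
  have b2 : (N : ℝ) ^ κ ≤ z := by rw [hz]; exact Real.rpow_le_rpow_of_exponent_le hNR k2
  rw [← hx] at n6
  rw [← hz] at n7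
  have T0 : 0 ≤ T := by
    rw [hT]
    positivity
  have x36 : 36 * x ≤ x * x := mul_le_mul_of_nonneg_right n6 (by linarith)
  have z36 : 36 * z ≤ z * z := mul_le_mul_of_nonneg_right n7 (by linarith)
  have t1 : 13 * Real.exp (-(4 * (N : ℝ) ^ κ₂)) + 16 * Real.exp (-(N : ℝ) ^ κ₂) ≤ T / 16 := by
    have k3 : (0 : ℝ) ≤ (N : ℝ) ^ κ₂ := Real.rpow_nonneg hN0.le _
    have k4 : Real.exp (-(4 * (N : ℝ) ^ κ₂)) ≤ Real.exp (-(N : ℝ) ^ κ₂) := Real.exp_le_exp.2 (by linarith)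
    have k5 := (Real.exp_pos (-(N : ℝ) ^ κ₂)).le
    linarith
  have t2 : 6 * Real.exp (5 * m1 + 12 * B) * Real.exp (-(N : ℝ) ^ c₁) ≤ T / 16 := by
    have k3 : Real.exp (5 * m1 + 12 * B) * Real.exp (-(N : ℝ) ^ c₁) ≤ Real.exp (-(1 / 2 * (N : ℝ) ^ c₁)) := by
      rw [← Real.exp_add]
      refine Real.exp_le_exp.2 ?_
      rw [hxx]
      linarith
    have k4 := (Real.exp_pos (-(1 / 2 * (N : ℝ) ^ c₁))).le
    linarith
  have t3 : 6 * Real.exp (5 * m1 + 12 * B) * B * Real.exp (-(N : ℝ) ^ a₁) ≤ T / 16 := by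
    have kB : B ≤ Real.exp B := by
      have := Real.add_one_le_exp B
      linarith
    have k3 : Real.exp (5 * m1 + 12 * B) * B * Real.exp (-(N : ℝ) ^ a₁) ≤ Real.exp (-(1 / 2 * (N : ℝ) ^ a₁)) := by
      calc Real.exp (5 * m1 + 12 * B) * B * Real.exp (-(N : ℝ) ^ a₁) ≤
            Real.exp (5 * m1 + 12 * B) * Real.exp B * Real.exp (-(N : ℝ) ^ a₁) :=
            mul_le_mul_of_nonneg_right (mul_le_mul_of_nonneg_left kB (Real.exp_pos _).le) (Real.exp_pos _).le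
        _ = Real.exp (5 * m1 + 12 * B + B + -(N : ℝ) ^ a₁) := by rw [← Real.exp_add, ← Real.exp_add]
        _ ≤ _ := by
            refine Real.exp_le_exp.2 ?_
            rw [hzz]
            linarith
    have k4 := (Real.exp_pos (-(1 / 2 * (N : ℝ) ^ a₁))).le
    linarith
  have t4 : Real.exp (-(N : ℝ) ^ c₁) ≤ T / 16 := by
    have k3 : Real.exp (-(N : ℝ) ^ c₁) ≤ Real.exp (-(1 / 2 * (N : ℝ) ^ c₁)) := by
      refine Real.exp_le_exp.2 ?_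
      rw [hxx]
      linarith
    have k4 := (Real.exp_pos (-(1 / 2 * (N : ℝ) ^ c₁))).le
    linarith
  have t5 := (Real.exp_pos (-(N : ℝ) ^ cn)).le
  have t6 := (Real.exp_pos (-(N : ℝ) ^ cp)).le
  rw [← hT]
  linarith

/-! ### The line -/

/-- **THE LINE OF `T4` IN MODEL FORM.** -/
theorem t4N (h : In μ s c₀ C₀ n₀) : ∀ ε θ : ℝ, 0 < ε → 0 < θ → ∃ κ : ℝ, 0 < κ ∧ ∀ γ : ℝ, 0 < γ → ∃ δ' c₂ : ℝ, 0 < δ' ∧ 0 < c₂ ∧
    ∃ N₀ : ℕ, ∀ N : ℕ, N₀ ≤ N → ∀ y : ℕ, y ≤ N → |(y : ℝ) - sl μ s * N| ≤ (N : ℝ) ^ δ' * wd' μ s N →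
    ∀ B m1 : ℝ, 0 ≤ B → B ≤ (N : ℝ) ^ κ → 0 ≤ m1 → m1 ≤ (N : ℝ) ^ κ → ∀ (sd fm : Bool) (b0 b b' j l a : ℕ), 4 * b0 ≤ b → b ≤ b' →
    b' ≤ j → j + b' ≤ N → (N : ℝ) ^ θ ≤ l → (l : ℝ) * (N : ℝ) ^ ε ≤ b0 → (sd = true → j + b0 ≤ a ∧ 4 * a ≤ 4 * j + 3 * b) →
    (sd = false → a + b0 ≤ j ∧ 4 * j ≤ 4 * a + 3 * b) → ∀ R : ℝ, 1 ≤ R →
    (∀ i : ℕ, 1 ≤ i → i ≤ 2 * b' → wd' μ s i ≤ R * wd' μ s l) → ∀ (H : Env × Finset ℕ → Px (Pn N y) → ℝ) (Mh : ℝ), 0 < Mh →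
    (∀ ω S, 0 ≤ H ω S) → (∀ ω S, H ω S ≤ Mh) → (∀ S, Measurable fun ω => H ω S) → (∀ ω, Mp (pJ (j - b') (j + b')) (H ω)) →
    OffD (Ioo (j - b') (j + b')) H →
    ∫ ω, gm (wm μ s N (Pn N y) ω) (fun x => H ω x * min 1 (Real.exp (5 * m1 + 12 * B) *
      T4 (wm μ s N (Pn N y) ω) (pJ (j - b') (j + b')) (gg μ s (Pn N y) γ B b0 ω j) 1 (Am sd fm μ s N (Pn N y) b b' a m1 ω j) x))
        ∂(Pm μ N) ≤
      10 * (R * (N : ℝ) ^ ε * (EE' μ s l)⁻¹) ^ 2 * ∫ ω, gm (wm μ s N (Pn N y) ω) (H ω) ∂(Pm μ N) + Mh * Real.exp (-(N : ℝ) ^ c₂) := by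
  intro ε θ hε hθ
  obtain ⟨δp, κp, cp, hδp, hκp, hcp, Np, hP⟩ := priceO h ε θ hε hθ
  obtain ⟨κ₂, hκ₂⟩ : ∃ k : ℝ, k = min κp ε / 2 := ⟨_, rfl⟩
  have hmin : 0 < min κp ε := lt_min hκp hε
  have κ20 : 0 < κ₂ := by rw [hκ₂]; positivity
  have κ2p : 2 * κ₂ ≤ κp := by
    have : min κp ε ≤ κp := min_le_left _ _
    rw [hκ₂]
    linarith
  have κ2e : 2 * κ₂ ≤ ε := by
    have : min κp ε ≤ ε := min_le_right _ _
    rw [hκ₂]
    linarith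
  obtain ⟨c₁, hc₁, hG⟩ := GwA50.gw_ord73 h hθ (show 0 < κ₂ / 2 by positivity)
  obtain ⟨a₁, ha₁, hA⟩ := TauE34.nCn34 h hθ
  obtain ⟨κ, hκ⟩ : ∃ κ : ℝ, κ = min (κ₂ / 2) (min (c₁ / 2) (a₁ / 2)) := ⟨_, rfl⟩
  have κ0 : 0 < κ := by
    rw [hκ]
    exact lt_min (by positivity) (lt_min (by positivity) (by positivity))
  have κ1 : κ ≤ κ₂ / 2 := by rw [hκ]; exact min_le_left _ _
  refine ⟨κ, κ0, fun γ hγ => ?_⟩
  obtain ⟨δ₁, hδ₁, -, NG, hNG⟩ := hG γ hγ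
  obtain ⟨δn, cn, hδn, hcn, Nn, hNn⟩ := hA δ₁ hδ₁
  obtain ⟨c₂, hc₂, Ne, hNe⟩ := ev_t4 κ20 hc₁ ha₁ hcn hcp hκ
  obtain ⟨L1, hL1⟩ := Pool.Agent.W_7d29a1_Z.NumI77.large (show 0 < κ₂ / 2 by positivity) 23
  obtain ⟨L2, hL2⟩ := Pool.Agent.W_7d29a1_Z.NumI77.large κ20 250
  refine ⟨min δp δn, c₂, lt_min hδp hδn, hc₂, Np + NG + Nn + Ne + L1 + L2, ?_⟩
  intro N hN y hyN hyc B m1 hB hBN hm hmN sd fm b0 b b' j l a h1 h2 h3 h4 hl hlb hsR hsL R hR hw H Mh hMh hH0 hH1 hHm hHp hHo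
  have hne := ne_Pn hyN
  obtain ⟨n1, n2, -⟩ := hL1 N (by omega)
  obtain ⟨-, n3, -⟩ := hL2 N (by omega)
  have hN1 : (1 : ℝ) ≤ N := by exact_mod_cast n1
  have hN0 : (0 : ℝ) < N := by linarith
  have hwd : 0 ≤ wd' μ s N := zero_le_one.trans (le_max_left _ _)
  have hcone : ∀ δ', min δp δn ≤ δ' → |(y : ℝ) - sl μ s * N| ≤ ((N : ℝ) ^ δ' * wd' μ s N) := fun δ' hδ' =>
    hyc.trans (mul_le_mul_of_nonneg_right (Real.rpow_le_rpow_of_exponent_le hN1 hδ') hwd)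
  obtain ⟨M, hM⟩ : ∃ M : ℝ, M = (N : ℝ) ^ κ₂ := ⟨_, rfl⟩
  obtain ⟨z, hz⟩ : ∃ z : ℝ, z = (N : ℝ) ^ (κ₂ / 2) := ⟨_, rfl⟩
  have hMz : M = z * z := by
    rw [hM, hz, ← Real.rpow_add hN0]
    ring_nf
  have hM2 : M * M = (N : ℝ) ^ (2 * κ₂) := by
    rw [hM, ← Real.rpow_add hN0]
    ring_nf
  have hMp : M * M ≤ (N : ℝ) ^ κp := by
    rw [hM2]
    exact Real.rpow_le_rpow_of_exponent_le hN1 κ2p
  have hMe : M * M ≤ (N : ℝ) ^ ε := by
    rw [hM2]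
    exact Real.rpow_le_rpow_of_exponent_le hN1 κ2e
  rw [← hM] at n3
  rw [← hz] at n2
  have hbz : (N : ℝ) ^ κ ≤ z := by rw [hz]; exact Real.rpow_le_rpow_of_exponent_le hN1 κ1
  have hzz23 : 23 * z ≤ z * z := mul_le_mul_of_nonneg_right n2 (by linarith)
  have hsm : 10 * m1 + 12 * B + z ≤ M := by rw [hMz]; linarith
  obtain ⟨q, hq⟩ : ∃ q : ℕ, q = ⌈10 * M⌉₊ := ⟨_, rfl⟩
  have q1 : 10 * M ≤ q := by
    rw [hq]
    exact Nat.le_ceil _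
  have q2 : (q : ℝ) ≤ 20 * M := by
    have := (Nat.ceil_lt_add_one (show 0 ≤ 10 * M by linarith)).le
    rw [← hq] at this
    linarith
  have q3 : 1 ≤ q := by
    have : (1 : ℝ) ≤ q := by linarith
    exact_mod_cast this
  have hl1 : (1 : ℝ) ≤ l := (Real.one_le_rpow hN1 hθ.le).trans hl
  have hNe1 : (1 : ℝ) ≤ (N : ℝ) ^ ε := Real.one_le_rpow hN1 hε.le
  have hb0 : (N : ℝ) ^ θ ≤ b0 := hl.trans ((le_mul_of_one_le_right (by linarith) hNe1).trans hlb)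
  have hM240 : 240 * M ≤ M * M := mul_le_mul_of_nonneg_right (by linarith) (by linarith)
  have h6 : 6 * q * (l + 1) ≤ b0 := by
    have : 6 * (q : ℝ) * (l + 1) ≤ b0 := by
      calc 6 * (q : ℝ) * (l + 1) ≤ (120 * M) * (2 * l) := by
            refine mul_le_mul (by linarith) (by linarith) (by positivity) (by positivity)
        _ = (240 * M) * l := by ring
        _ ≤ (M * M) * l := mul_le_mul_of_nonneg_right hM240 (by linarith)
        _ ≤ (N : ℝ) ^ ε * l := mul_le_mul_of_nonneg_right hMe (by linarith)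
        _ ≤ b0 := by linarith
    exact_mod_cast this
  have hdd : Real.exp (-(N : ℝ) ^ κp) ≤ Real.exp (-(7 * M)) := Real.exp_le_exp.2 (by linarith)
  obtain ⟨a1, a2, b1, b2, τo, g0, g1, ⟨r1, r2, r3, r4, r5, r6, r7, r8⟩, hg, ⟨hU, hV⟩, hpr⟩ := hP N (by omega) y hyN
    (hcone _ (min_le_left _ _)) M (by linarith) (by linarith) sd b0 b b' j l a q h1 h2 h3 h4 q3 (by linarith) hl h6 hsR hsL R hR hw
    (Real.exp (-(7 * M))) hdd
  -- the two functionals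
  have hPb := hNn N (by omega) y hyN (hcone _ (min_le_right _ _)) (j - b0) (j + b0) (by
    refine hb0.trans ?_
    exact_mod_cast (by omega : b0 ≤ j + b0 - (j - b0))) (by omega)
  have hbad : law μ ({η | ¬ GwW μ s N θ γ δ₁ (κ₂ / 2) c₁ η} ∪
      {η | Real.exp (-(N : ℝ) ^ a₁) < gm (lw μ s η N (Pn N y)) (nCn μ s δ₁ (j - b0) (j + b0))}) ≤
      ENNReal.ofReal (Real.exp (-(N : ℝ) ^ c₁) + Real.exp (-(N : ℝ) ^ cn)) := by
    rw [ENNReal.ofReal_add (Real.exp_pos _).le (Real.exp_pos _).le]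
    exact (measure_union_le _ _).trans (add_le_add (hNG N (by omega)) hPb)
  have hHs : ∀ A x, Measurable fun η : Env => H (η, A) x := fun A x => (hHm x).comp (measurable_id.prodMk measurable_const)
  have hEm : ∀ (A : Finset ℕ) (x : Px (Pn N y)), Measurable fun η : Env => ind (EvO (wm μ s N (Pn N y) (η, A)) (j - b') (j + b') τo l q
      g0 g1 a1 a2 b1 b2 (Real.exp (-(7 * M)))) x := fun A x => by
    classical
    unfold ind
    refine Measurable.ite ?_ measurable_const measurable_const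
    exact (meas_okE (j - b') (j + b') (Bo := fun ω x => bI (wm μ s N (Pn N y) ω) (pJ (j - b') (j + b')) τo l q (Real.exp (-(7 * M))) x = 1)
      (fun A x => meas_bI _ _ τo l q _ A x) q _ _ _ g0 g1 a1 l a2 l A x).compl.union
      (meas_okE (j - b') (j + b') (Bo := fun ω x => bI (wm μ s N (Pn N y) ω) (pJ (j - b') (j + b')) τo l q (Real.exp (-(7 * M))) x = 1)
      (fun A x => meas_bI _ _ τo l q _ A x) q _ _ _ g0 g1 b1 l b2 l A x).compl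
  have i01 : ∀ (A : Px (Pn N y) → Prop) x, 0 ≤ ind A x ∧ ind A x ≤ 1 := fun A x => by
    unfold ind
    split_ifs <;> norm_num
  have hGi : Integrable (fun ω => gm (wm μ s N (Pn N y) ω) (fun x => H ω x * ind (EvO (wm μ s N (Pn N y) ω) (j - b') (j + b') τo l q
      g0 g1 a1 a2 b1 b2 (Real.exp (-(7 * M)))) x)) (Pm μ N) :=
    ig15 (μ := μ) (s := s) hyN (fun A x => (hHs A x).mul (hEm A x)) (fun ω x => mul_nonneg (hH0 ω x) (i01 _ x).1) (B := Mh)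
      fun ω x => (mul_le_of_le_one_right (hH0 ω x) (i01 _ x).2).trans (hH1 ω x)
  have hTA : ∀ ω x, 0 ≤ T4 (wm μ s N (Pn N y) ω) (pJ (j - b') (j + b')) (gg μ s (Pn N y) γ B b0 ω j) 1
      (Am sd fm μ s N (Pn N y) b b' a m1 ω j) x := fun ω x => T4_nonneg (ownF_Am sd fm b b' a hm ω j).nn x
  have hmn : ∀ ω x, 0 ≤ min 1 (Real.exp (5 * m1 + 12 * B) * T4 (wm μ s N (Pn N y) ω) (pJ (j - b') (j + b'))
      (gg μ s (Pn N y) γ B b0 ω j) 1 (Am sd fm μ s N (Pn N y) b b' a m1 ω j) x) := fun ω x =>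
    le_min zero_le_one (mul_nonneg (Real.exp_pos _).le (hTA ω x))
  have hK0 : 0 ≤ Mh * (13 * Real.exp (-(4 * M)) + 6 * Real.exp (5 * m1 + 12 * B) * Real.exp (-(N : ℝ) ^ c₁) +
      6 * Real.exp (5 * m1 + 12 * B) * B * Real.exp (-(N : ℝ) ^ a₁)) := by positivity
  have hI := int_off23 (μ := μ) (N := N) (Φ := fun ω => gm (wm μ s N (Pn N y) ω) (fun x => H ω x * min 1 (Real.exp (5 * m1 + 12 * B) *
      T4 (wm μ s N (Pn N y) ω) (pJ (j - b') (j + b')) (gg μ s (Pn N y) γ B b0 ω j) 1 (Am sd fm μ s N (Pn N y) b b' a m1 ω j) x)))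
    (fun ω => gm_nonneg _ fun x => mul_nonneg (hH0 ω x) (hmn ω x)) (fun ω => gm_nonneg _ fun x => mul_nonneg (hH0 ω x) (i01 _ x).1)
    hGi hK0 hMh.le (by positivity) (fun ω => by
      have k := gm_mono (wm μ s N (Pn N y) ω) (f := fun x => H ω x * min 1 (Real.exp (5 * m1 + 12 * B) *
        T4 (wm μ s N (Pn N y) ω) (pJ (j - b') (j + b')) (gg μ s (Pn N y) γ B b0 ω j) 1 (Am sd fm μ s N (Pn N y) b b' a m1 ω j) x))
        (g := fun _ => Mh) fun x => (mul_le_of_le_one_right (hH0 ω x) (min_le_left _ _)).trans (hH1 ω x)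
      rwa [gm_const] at k) hbad (fun ω hω => by
      simp only [Set.mem_union, Set.mem_ofPred_eq, not_or, not_not, not_lt] at hω
      exact t4_env hω.1 hyN (by omega) (by omega) hb0 hB (sg_or _ _) (by omega) (by omega) hg hm (ownF_Am sd fm b b' a hm ω j) hU hV
        r1 r2 r3 r4 r5 r6 r7 r8 n3 q1 q2 (by
          rw [← hz]
          exact hsm) hω.2 (hHp ω) (hH0 ω) (hH1 ω))
  refine hI.trans ?_
  -- the price
  have hMi : 0 < Mh⁻¹ := inv_pos.2 hMh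
  have hp := hpr (fun ω x => Mh⁻¹ * H ω x) (fun A x => (hHs A x).const_mul _) (fun ω x => mul_nonneg hMi.le (hH0 ω x))
    (fun ω x => by
      rw [inv_mul_le_iff₀ hMh, mul_one]
      exact hH1 ω x) (fun η η' A x ⟨E, hE1, hE2⟩ => by
      show Mh⁻¹ * H (η, A) x = Mh⁻¹ * H (η', A) x
      rw [hHo η η' A x fun p hp => hE2 p fun hpE => hp (hE1 p hpE)])
  have e1 : ∀ ω, gm (wm μ s N (Pn N y) ω) (fun x => Mh⁻¹ * H ω x * ind (EvO (wm μ s N (Pn N y) ω) (j - b') (j + b') τo l q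
      g0 g1 a1 a2 b1 b2 (Real.exp (-(7 * M)))) x) = Mh⁻¹ * gm (wm μ s N (Pn N y) ω) (fun x => H ω x *
        ind (EvO (wm μ s N (Pn N y) ω) (j - b') (j + b') τo l q g0 g1 a1 a2 b1 b2 (Real.exp (-(7 * M)))) x) := fun ω => by
    rw [← gm_smul]
    congr 1
    funext x
    simp only [Pi.smul_apply, smul_eq_mul]
    ring
  have e2 : ∀ ω, gm (wm μ s N (Pn N y) ω) (fun x => Mh⁻¹ * H ω x) = Mh⁻¹ * gm (wm μ s N (Pn N y) ω) (H ω) := fun ω => by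
    rw [← gm_smul]
    rfl
  simp only [e1, e2] at hp
  rw [integral_const_mul, integral_const_mul] at hp
  obtain ⟨I1, hI1⟩ : ∃ I, I = ∫ ω, gm (wm μ s N (Pn N y) ω) (fun x => H ω x * ind (EvO (wm μ s N (Pn N y) ω) (j - b') (j + b') τo l q
      g0 g1 a1 a2 b1 b2 (Real.exp (-(7 * M)))) x) ∂(Pm μ N) := ⟨_, rfl⟩
  obtain ⟨I2, hI2⟩ : ∃ I, I = ∫ ω, gm (wm μ s N (Pn N y) ω) (H ω) ∂(Pm μ N) := ⟨_, rfl⟩
  rw [← hI1, ← hI2] at hp
  rw [← hI1, ← hI2]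
  have I20 : 0 ≤ I2 := by
    rw [hI2]
    exact integral_nonneg fun ω => gm_nonneg _ (hH0 ω)
  have hp2 := mul_le_mul_of_nonneg_left hp hMh.le
  have e3 : Mh * (Mh⁻¹ * I1) = I1 := by
    rw [← mul_assoc, mul_inv_cancel₀ hMh.ne', one_mul]
  have e4 : Mh * (6 * (R * ((N : ℝ) ^ ε * (EE' μ s l)⁻¹)) ^ 2 * (Mh⁻¹ * I2) + (6 * Real.exp (-(N : ℝ) ^ cp) + 16 * Real.exp (-M))) =
      6 * (R * (N : ℝ) ^ ε * (EE' μ s l)⁻¹) ^ 2 * I2 + Mh * (6 * Real.exp (-(N : ℝ) ^ cp) + 16 * Real.exp (-M)) := by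
    field_simp
  rw [e3, e4] at hp2
  have e5 := hNe N (by omega) B m1 hB hBN hm hmN
  rw [← hM] at e5
  have e6 := mul_le_mul_of_nonneg_left e5 hMh.le
  have e7 : 0 ≤ (R * (N : ℝ) ^ ε * (EE' μ s l)⁻¹) ^ 2 * I2 := mul_nonneg (sq_nonneg _) I20
  have e8 : 6 * (R * (N : ℝ) ^ ε * (EE' μ s l)⁻¹) ^ 2 * I2 = 6 * ((R * (N : ℝ) ^ ε * (EE' μ s l)⁻¹) ^ 2 * I2) := by ring
  have e9 : 10 * (R * (N : ℝ) ^ ε * (EE' μ s l)⁻¹) ^ 2 * I2 = 10 * ((R * (N : ℝ) ^ ε * (EE' μ s l)⁻¹) ^ 2 * I2) := by ring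
  rw [e8] at hp2
  rw [e9]
  linarith

end

end Pool.Agent.W_7d29a1_C0.DT5T
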