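import Pool.Agent.W_7d29a1_C0.DT5TA
import Pool.Agent.W_7d29a1_C0.DT5T80

/-!
MP_7d29a1_pr, [CURV0], leaf E5 (helper23): THE T4 LINE, CLOSED. `t4M`: helper80's `T4M` is `DT5T.t4N`; `dt5tZ`: his `dt5t` without hypothesis.
-/

set_option autoImplicit false
set_option linter.unusedSectionVars false

namespace Pool.Agent.W_7d29a1_C0.DT5T

open Finset MeasureTheory Filter Topology Pool.Agent.W_7d29a1_F Pool.Agent.W_7d29a1_X Pool.Agent.W_7d29a1_H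
open Pool.Agent.W_7d29a1_HS (In wd)
open Pool.Agent.W_7d29a1_HZ (wd' EE')
open Pool.Agent.W_7d29a1_C0 Pool.Agent.W_7d29a1_C0.Mod92 Pool.Agent.W_7d29a1_C0.Asm96 Pool.Agent.W_7d29a1_C0.Frm33
open Pool.Agent.W_7d29a1_C0.Sz23 Pool.Agent.W_7d29a1_C0.PrB5 Pool.Agent.W_7d29a1_C0.NumT80 Pool.Agent.W_7d29a1_C0.Pr46
open Pool.Agent.W_7d29a1_C0.Par92 (Sml Est)
open Pool.W7d29a1.C0.O1 (T4)

variable {μ : Measure ℝ} {s : ℝ}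

theorem am_eq (sd fm : Bool) (N : ℕ) (Q : Finset (Finset ℕ)) (b b' a : ℕ) (m1 : ℝ) (ω : Env × Finset ℕ) (j : ℕ) :
    T4F80.Am sd fm μ s N Q b b' a m1 ω j = Am sd fm μ s N Q b b' a m1 ω j := by
  cases sd <;> cases fm <;> rfl

/-- **The model form.** -/
theorem t4M [IsProbabilityMeasure μ] {c₁ C : ℝ} {n₀ : ℕ} (h : In μ s c₁ C n₀) (sd fm : Bool) : T4F80.T4M μ s sd fm := by
  intro ε θ hε hθ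
  obtain ⟨κ, hκ, H⟩ := t4N h ε θ hε hθ
  refine ⟨κ, hκ, fun γ hγ => ?_⟩
  obtain ⟨δ, c₂, hδ, hc₂, N₀, H'⟩ := H γ hγ
  refine ⟨δ, c₂, hδ, hc₂, N₀, fun N hN y hy hyc B m1 hB hBN hm hmN b0 b b' j l a => ?_⟩
  simp only [am_eq]
  exact H' N hN y hy hyc B m1 hB hBN hm hmN sd fm b0 b b' j l a

/-- **THE T4 LINE AT THE FRAME, CLOSED.** -/
theorem dt5tZ [IsProbabilityMeasure μ] {c₁ C : ℝ} {n₀ : ℕ} (h : In μ s c₁ C n₀)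
    (hk : KapLe96 (EE μ s) (1 / 4)) {K : ℕ} (hK : 32 ≤ K) {c₀ Θ δ c η : ℝ} (hR : RegP46 μ s c₀ Θ) (hδ : 0 < δ) (hc : 0 < c)
    (hcδ : c ≤ δ / 64) (hη : 0 ≤ η) : ∃ κ : ℝ, 0 < κ ∧ ∀ A : ℝ, Est fun ι β γ m => ∀ p p' q i : ℕ, Chg96 (EE μ s) Θ δ c η m p p' q →
      i < 2 ^ (m - q) → ∀ m1 : ℝ, 0 ≤ m1 → m1 ≤ ((2 ^ m : ℕ) : ℝ) ^ κ → ∀ (sd fm : Bool) (a : ℕ → ℕ),
      (sd = true → ∀ j ∈ Rw (R33 ι m) (i * 2 ^ q) ((i + 1) * 2 ^ q), j + 2 ^ (p - ⌈ι * (m : ℝ)⌉₊) ≤ a j ∧ 4 * a j ≤ 4 * j + 3 * 2 ^ p) →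
      (sd = false → ∀ j ∈ Rw (R33 ι m) (i * 2 ^ q) ((i + 1) * 2 ^ q), a j + 2 ^ (p - ⌈ι * (m : ℝ)⌉₊) ≤ j ∧ 4 * j ≤ 4 * a j + 3 * 2 ^ p) →
      ∀ l : ℕ, 0 < l → l ≤ 2 ^ m → ∀ K₀ : ℝ, 0 < K₀ → PrB μ s (frm33 μ s K ι β γ) m q i l (2 ^ p') K₀ (fun y ω j S =>
        min 1 (Real.exp (5 * m1 + 12 * B33 β m) * T4 (wm μ s (L33 K m) (Pn (L33 K m) y) ω) (pJ (j - 2 ^ p') (j + 2 ^ p'))
          (gg μ s (Pn (L33 K m) y) γ (B33 β m) (2 ^ (p - ⌈ι * (m : ℝ)⌉₊)) ω j) 1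
            (T4F80.Am sd fm μ s (L33 K m) (Pn (L33 K m) y) (2 ^ p) (2 ^ p') (a j) m1 ω j) S))
        (((2 ^ m : ℕ) : ℝ) ^ (-(c / 2)) / EE μ s (2 ^ q)) 0 0 (K₀ * ((2 ^ m : ℕ) : ℝ) ^ (-A)) :=
  T4F80.dt5t (t4M h) h hk hK hR hδ hc hcδ hη

end Pool.Agent.W_7d29a1_C0.DT5T
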