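import Pool.Agent.W_7d29a1_C0.Mod92B
import Pool.Agent.W_7d29a1_C0.Pair86

/-!
MP_7d29a1_pr, [CURV0], section 9 (helper33): THE DENOMINATOR. In the frame of `Mod92`, pinned paths, the mean Gibbs variance of the
position at the time `n` is at most `L ^ ε * wd n ^ 2 / EE n`, for all the times `1 ≤ n ≤ N` (`den33`): two replicas which do not meet
in `[n - 2 ^ k, n]` have the weight `L ^ ε / EE (2 ^ k)` (`P86.pair86`), and if they meet there they differ at the time `n` by at most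
`L ^ ε wd (2 ^ k)` (`ns`). `cs33`: Cauchy - Schwarz for the root block against the position at the time `n`.
-/

set_option autoImplicit false

namespace Pool.Agent.W_7d29a1_C0.Den33

open Finset MeasureTheory Filter Topology
open Pool.Agent.W_7d29a1_F Pool.Agent.W_7d29a1_X Pool.Agent.W_7d29a1_H
open Pool.Agent.W_7d29a1_HS (In wd wd_ge_one wd_le_two wd_growth_one wd_lower_one)
open Pool.Agent.W_7d29a1_HZ
open Pool.Agent.W_7d29a1_C0.Mod92 Pool.Agent.W_7d29a1_C0.P86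
open Pool.W7d29a1.C0 (gz gm gz_pos)
open Pool.W7d29a1.C0.VT31
open scoped ENNReal

noncomputable section

variable {μ : Measure ℝ} {s : ℝ}

/-! ### The Gibbs mean over the pinned paths -/

/-- The Gibbs mean over the paths from the origin to `(N, y)`. -/
theorem gm_pin (η : Env) {N y : ℕ} (f : Finset ℕ → ℝ) :
    gm (lw μ s η N (Pn N y)) (fun S => f S.1) = ∑ S ∈ (range N).powerset, gp μ s η N y S * f S := by
  unfold gm
  rw [gz_Pn, sum_div]
  have h : Pn N y = (range N).powerset.filter fun S => pos S N = (y : ℤ) := by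
    ext S
    rw [mem_powersetCard, mem_filter, mem_powerset]
    refine and_congr_right fun h => ?_
    rw [pos_card h]
    exact Int.natCast_inj.symm
  have h1 : ∑ S : Px (Pn N y), Real.exp (lw μ s η N (Pn N y) S) * f S.1 / W μ s η 0 N y =
      ∑ S : Px (Pn N y), (fun S => pth μ s η N S * f S / W μ s η 0 N y) S.1 :=
    sum_congr rfl fun S _ => by rw [exp_lw]
  rw [h1, sum_Px (Q := Pn N y) fun S => pth μ s η N S * f S / W μ s η 0 N y, h, sum_filter]
  refine sum_congr rfl fun S _ => ?_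
  unfold gp
  split_ifs
  · ring
  · ring

theorem sum_gp33 (η : Env) {N y : ℕ} (hy : y ≤ N) : ∑ S ∈ (range N).powerset, gp μ s η N y S = 1 :=
  A12.sum_gp η (by positivity) (by exact_mod_cast hy)

/-- Twice the variance is the mean square of the difference of two replicas. -/
theorem two_gv (η : Env) {N y : ℕ} (hy : y ≤ N) (f : Finset ℕ → ℝ) :
    2 * gv (lw μ s η N (Pn N y)) (fun S => f S.1) =
      ∑ S ∈ (range N).powerset, ∑ S' ∈ (range N).powerset, gp μ s η N y S * gp μ s η N y S' * (f S - f S') ^ 2 := by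
  have e1 : gv (lw μ s η N (Pn N y)) (fun S => f S.1) = gm (lw μ s η N (Pn N y)) (fun S => f S.1 * f S.1) -
      gm (lw μ s η N (Pn N y)) (fun S => f S.1) * gm (lw μ s η N (Pn N y)) (fun S => f S.1) := rfl
  rw [e1, gm_pin η f, gm_pin η fun S => f S * f S]
  have h1 := sum_gp33 (μ := μ) (s := s) η hy
  have e2 : ∑ S ∈ (range N).powerset, ∑ S' ∈ (range N).powerset, gp μ s η N y S * gp μ s η N y S' * (f S - f S') ^ 2 =
      ∑ S ∈ (range N).powerset, ∑ S' ∈ (range N).powerset, ((gp μ s η N y S * (f S * f S)) * gp μ s η N y S' +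
        gp μ s η N y S * (gp μ s η N y S' * (f S' * f S')) - 2 * ((gp μ s η N y S * f S) * (gp μ s η N y S' * f S'))) :=
    sum_congr rfl fun S _ => sum_congr rfl fun S' _ => by ring
  rw [e2]
  simp only [sum_sub_distrib, sum_add_distrib, ← mul_sum, ← sum_mul]
  rw [h1]
  ring

/-! ### The annealed pair measure -/

open Classical in
/-- The indicator. -/
def ind (p : Prop) : ℝ := if p then 1 else 0

theorem ind_of {p : Prop} (h : p) : ind p = 1 := if_pos h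

theorem ind_not {p : Prop} (h : ¬ p) : ind p = 0 := if_neg h

theorem ind_nn (p : Prop) : 0 ≤ ind p := by
  by_cases h : p
  · rw [ind_of h]
    exact zero_le_one
  · rw [ind_not h]

/-- The annealed weight of a pair of paths. -/
def mm (μ : Measure ℝ) (s : ℝ) (N : ℕ) (y : ℤ) (S S' : Finset ℕ) : ℝ := ∫ η, gp μ s η N y S * gp μ s η N y S' ∂(law μ)

theorem mm_nonneg (N : ℕ) (y : ℤ) (S S' : Finset ℕ) : 0 ≤ mm μ s N y S S' :=
  integral_nonneg fun η => mul_nonneg (A12.gp_nonneg η N y S) (A12.gp_nonneg η N y S')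

theorem meas_gpgp (N : ℕ) (y : ℤ) (S S' : Finset ℕ) : Measurable fun η : Env => gp μ s η N y S * gp μ s η N y S' :=
  (A12.measurable_gp N y S).mul (A12.measurable_gp N y S')

variable [IsProbabilityMeasure μ]

theorem int_gpgp {N y : ℕ} (hy : y ≤ N) {S S' : Finset ℕ} (hS : S ∈ (range N).powerset) (hS' : S' ∈ (range N).powerset) :
    Integrable (fun η : Env => gp μ s η N y S * gp μ s η N y S') (law μ) := by
  refine (integrable_const (1 : ℝ)).mono' (meas_gpgp N y S S').aestronglyMeasurable (Eventually.of_forall fun η => ?_)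
  rw [Real.norm_eq_abs, abs_of_nonneg (mul_nonneg (A12.gp_nonneg _ _ _ _) (A12.gp_nonneg _ _ _ _))]
  exact mul_le_one₀ (A12.gp_le_one η (by positivity) (by exact_mod_cast hy) (mem_powerset.1 hS)) (A12.gp_nonneg _ _ _ _)
    (A12.gp_le_one η (by positivity) (by exact_mod_cast hy) (mem_powerset.1 hS'))

/-- The mean of a functional of two replicas. -/
theorem int_pair {N y : ℕ} (hy : y ≤ N) (K : Finset ℕ → Finset ℕ → ℝ) :
    ∫ η, ∑ S ∈ (range N).powerset, ∑ S' ∈ (range N).powerset, gp μ s η N y S * gp μ s η N y S' * K S S' ∂(law μ) =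
      ∑ S ∈ (range N).powerset, ∑ S' ∈ (range N).powerset, mm μ s N y S S' * K S S' := by
  rw [integral_finsetSum _ fun S hS => integrable_finsetSum _ fun S' hS' => (int_gpgp hy hS hS').mul_const _]
  refine sum_congr rfl fun S hS => ?_
  rw [integral_finsetSum _ fun S' hS' => (int_gpgp hy hS hS').mul_const _]
  refine sum_congr rfl fun S' hS' => ?_
  rw [integral_mul_const]
  rfl

theorem sum_mm {N y : ℕ} (hy : y ≤ N) :
    ∑ S ∈ (range N).powerset, ∑ S' ∈ (range N).powerset, mm μ s N y S S' = 1 := by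
  have h := int_pair (μ := μ) (s := s) hy fun _ _ => (1 : ℝ)
  simp only [mul_one] at h
  rw [← h]
  have e : ∀ η : Env, ∑ S ∈ (range N).powerset, ∑ S' ∈ (range N).powerset, gp μ s η N y S * gp μ s η N y S' = 1 := fun η => by
    simp only [← mul_sum, ← sum_mul]
    rw [sum_gp33 η hy, one_mul]
  simp only [e]
  simp

theorem shr_nul (η : Env) : shr 0 (fun _ => 0) η = η := P86.shr_zero 0 η

/-- The probability of an event of two replicas which does not depend on the environment. -/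
theorem P2_mm {N y : ℕ} (hy : y ≤ N) (A : Finset ℕ → Finset ℕ → Prop) :
    P2 μ s N y (fun _ => 0) (fun _ S S' => A S S') =
      ENNReal.ofReal (∑ S ∈ (range N).powerset, ∑ S' ∈ (range N).powerset, mm μ s N y S S' * ind (A S S')) := by
  have h0 : ∀ S S', 0 ≤ mm μ s N y S S' * ind (A S S') := fun S S' => by
    exact mul_nonneg (mm_nonneg _ _ _ _) (ind_nn _)
  rw [A12.P2_eq, ENNReal.ofReal_sum_of_nonneg fun S _ => sum_nonneg fun S' _ => h0 S S']
  refine sum_congr rfl fun S hS => ?_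
  rw [ENNReal.ofReal_sum_of_nonneg fun S' _ => h0 S S']
  refine sum_congr rfl fun S' hS' => ?_
  simp only [shr_nul]
  by_cases hA : A S S'
  · have e : {η : Env | A S S'} = Set.univ := by
      ext
      simp [hA]
    rw [e, Measure.restrict_univ, ind_of hA, mul_one]
    unfold mm
    rw [ofReal_integral_eq_lintegral_ofReal (int_gpgp hy hS hS')
      (Eventually.of_forall fun η => mul_nonneg (A12.gp_nonneg _ _ _ _) (A12.gp_nonneg _ _ _ _))]
  · have e : {η : Env | A S S'} = ∅ := by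
      ext
      simp [hA]
    rw [e, Measure.restrict_empty, lintegral_zero_measure, ind_not hA, mul_zero, ENNReal.ofReal_zero]

/-- The same, in the form in which it is used. -/
theorem mm_le {N y : ℕ} (hy : y ≤ N) {A : Finset ℕ → Finset ℕ → Prop} {q : ℝ} (hq : 0 ≤ q)
    (h : P2 μ s N y (fun _ => 0) (fun _ S S' => A S S') ≤ ENNReal.ofReal q) :
    ∑ S ∈ (range N).powerset, ∑ S' ∈ (range N).powerset, mm μ s N y S S' * ind (A S S') ≤ q := by
  rw [P2_mm hy A] at h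
  exact (ENNReal.ofReal_le_ofReal_iff hq).1 h

omit [IsProbabilityMeasure μ] in
/-- A mean over the environment and the signs of a functional of the environment. -/
theorem int_fst {N : ℕ} {Φ : Env → ℝ} (hm : Measurable Φ) (hi : Integrable Φ (law μ)) :
    ∫ ω, Φ ω.1 ∂(Pm μ N) = ∫ η, Φ η ∂(law μ) := by
  rw [int_Pm (Φ := fun ω => Φ ω.1) (fun _ _ => hi) fun _ => hm]
  have e : ∑ A ∈ (range N).powerset, ∫ η, (fun ω : Env × Finset ℕ => Φ ω.1) (η, A) ∂(law μ) =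
      ∑ _A ∈ (range N).powerset, ∫ η, Φ η ∂(law μ) := rfl
  rw [e, sum_const, card_powerset, card_range, nsmul_eq_mul]
  push_cast
  rw [← mul_assoc, inv_mul_cancel₀ (by positivity), one_mul]

/-! ### Pathwise -/

omit [IsProbabilityMeasure μ] in
/-- Two replicas which meet at the time `i` are close at the time `n`. -/
theorem close33 {L N : ℕ} {ε : ℝ} {S S' : Finset ℕ} (h : NSp μ s L N ε S) (h' : NSp μ s L N ε S') {i n : ℕ} (hin : i ≤ n)
    (hn : n ≤ N) (hm : pos S i = pos S' i) : |((pos S n : ℝ) - pos S' n)| ≤ 2 * ((L : ℝ) ^ ε * wd' μ s (n - i)) := by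
  rcases Nat.eq_or_lt_of_le hin with rfl | hlt
  · rw [hm, sub_self, abs_zero]
    have : 0 ≤ wd' μ s (i - i) := zero_le_one.trans (le_max_left _ _)
    positivity
  · have h1 := h i (n - i) (by omega) (by omega)
    have h2 := h' i (n - i) (by omega) (by omega)
    rw [show i + (n - i) = n by omega] at h1 h2
    have e : (pos S n : ℝ) - pos S' n = (((pos S n - pos S i : ℤ) : ℝ) - sl μ s * ((n - i : ℕ) : ℝ)) -
        (((pos S' n - pos S' i : ℤ) : ℝ) - sl μ s * ((n - i : ℕ) : ℝ)) := by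
      push_cast
      rw [hm]
      ring
    rw [e]
    refine (abs_sub _ _).trans ?_
    linarith

/-- The square of the difference at the time `n`, by the dyadic distance to the last meeting. -/
theorem path33 {c C : ℝ} {n₀ : ℕ} (h : In μ s c C n₀) {L N : ℕ} {ε : ℝ} {S S' : Finset ℕ} (hS : NSp μ s L N ε S)
    (hS' : NSp μ s L N ε S') {n : ℕ} (hn : n ≤ N) (k₀ k : ℕ) (hk : k₀ ≤ k)
    (hm : ∃ i, n - 2 ^ k ≤ i ∧ i ≤ n ∧ pos S i = pos S' i) :
    ((pos S n : ℝ) - pos S' n) ^ 2 ≤ 16 * ((L : ℝ) ^ ε) ^ 2 * (wd' μ s (2 ^ k₀) ^ 2 +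
      ∑ j ∈ Ico k₀ k, 16 * wd' μ s (2 ^ j) ^ 2 * ind (NoMeet (n - 2 ^ j) n S S')) := by
  have hw1 : ∀ m, 1 ≤ wd' μ s m := fun m => le_max_left _ _
  have hL0 : 0 ≤ (L : ℝ) ^ ε := Real.rpow_nonneg (Nat.cast_nonneg _) _
  -- a meeting in the last `2 ^ k` times
  have key : ∀ k : ℕ, (∃ i, n - 2 ^ k ≤ i ∧ i ≤ n ∧ pos S i = pos S' i) →
      ((pos S n : ℝ) - pos S' n) ^ 2 ≤ 16 * ((L : ℝ) ^ ε) ^ 2 * wd' μ s (2 ^ k) ^ 2 := by
    rintro k ⟨i, hi1, hi2, hi3⟩
    have h1 := close33 hS hS' hi2 hn hi3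
    have h2 : wd' μ s (n - i) ≤ 2 * wd' μ s (2 ^ k) := by
      rcases Nat.eq_zero_or_pos (n - i) with h0 | h0
      · rw [h0]
        have e0 : wd' μ s 0 = 1 := by
          unfold wd' wd
          rw [Nat.cast_zero, zero_mul, max_eq_left zero_le_one]
        have := hw1 (2 ^ k)
        linarith
      · have h3 := wd_le_two h (show 1 ≤ n - i by omega) (show n - i ≤ 2 ^ k by omega)
        unfold wd'
        refine max_le ?_ (h3.trans (mul_le_mul_of_nonneg_left (le_max_right _ _) zero_le_two))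
        have := le_max_left (1 : ℝ) (wd μ s (2 ^ k))
        linarith
    have h4 : |((pos S n : ℝ) - pos S' n)| ≤ 4 * ((L : ℝ) ^ ε * wd' μ s (2 ^ k)) := by
      refine h1.trans ?_
      nlinarith [mul_le_mul_of_nonneg_left h2 hL0]
    calc ((pos S n : ℝ) - pos S' n) ^ 2 = |((pos S n : ℝ) - pos S' n)| ^ 2 := (sq_abs _).symm
      _ ≤ (4 * ((L : ℝ) ^ ε * wd' μ s (2 ^ k))) ^ 2 := pow_le_pow_left₀ (abs_nonneg _) h4 2
      _ = 16 * ((L : ℝ) ^ ε) ^ 2 * wd' μ s (2 ^ k) ^ 2 := by ring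
  induction k, hk using Nat.le_induction with
  | base =>
    rw [Ico_self, sum_empty, add_zero]
    exact key k₀ hm
  | succ k hk ih =>
    rw [sum_Ico_succ_top hk, ← add_assoc, mul_add (16 * ((L : ℝ) ^ ε) ^ 2) (_ + _)]
    by_cases hno : NoMeet (n - 2 ^ k) n S S'
    · rw [ind_of hno, mul_one]
      have h1 := key (k + 1) hm
      have h2 : wd' μ s (2 ^ (k + 1)) ≤ 4 * wd' μ s (2 ^ k) := by
        have h3 := wd_lower_one h (m := 2 ^ k) (n := 2 ^ (k + 1)) Nat.one_le_two_pow (Nat.pow_le_pow_right two_pos (by omega))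
        have h4 : wd μ s (2 ^ (k + 1)) ≤ 4 * wd μ s (2 ^ k) := by
          push_cast at h3
          have h5 : (0 : ℝ) < 2 ^ k := by positivity
          have h6 : (2 : ℝ) ^ k * wd μ s (2 ^ (k + 1)) ≤ 2 ^ k * (4 * wd μ s (2 ^ k)) := by
            calc (2 : ℝ) ^ k * wd μ s (2 ^ (k + 1)) ≤ 2 * (2 ^ (k + 1) * wd μ s (2 ^ k)) := h3
              _ = 2 ^ k * (4 * wd μ s (2 ^ k)) := by
                rw [pow_succ]
                ring
          exact le_of_mul_le_mul_left h6 h5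
        unfold wd'
        refine max_le ?_ (h4.trans (mul_le_mul_of_nonneg_left (le_max_right _ _) (by norm_num)))
        have := le_max_left (1 : ℝ) (wd μ s (2 ^ k))
        linarith
      have h5 : wd' μ s (2 ^ (k + 1)) ^ 2 ≤ 16 * wd' μ s (2 ^ k) ^ 2 := by
        calc wd' μ s (2 ^ (k + 1)) ^ 2 ≤ (4 * wd' μ s (2 ^ k)) ^ 2 := pow_le_pow_left₀ (zero_le_one.trans (hw1 _)) h2 2
          _ = 16 * wd' μ s (2 ^ k) ^ 2 := by ring
      have h6 : 0 ≤ 16 * ((L : ℝ) ^ ε) ^ 2 * (wd' μ s (2 ^ k₀) ^ 2 +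
          ∑ j ∈ Ico k₀ k, 16 * wd' μ s (2 ^ j) ^ 2 * ind (NoMeet (n - 2 ^ j) n S S')) := by
        exact mul_nonneg (by positivity) (add_nonneg (by positivity) (sum_nonneg fun j _ =>
          mul_nonneg (by positivity) (ind_nn _)))
      have h7 : 16 * ((L : ℝ) ^ ε) ^ 2 * wd' μ s (2 ^ (k + 1)) ^ 2 ≤ 16 * ((L : ℝ) ^ ε) ^ 2 * (16 * wd' μ s (2 ^ k) ^ 2) :=
        mul_le_mul_of_nonneg_left h5 (by positivity)
      linarith
    · rw [ind_not hno, mul_zero, mul_zero, add_zero]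
      refine ih ?_
      unfold NoMeet at hno
      push Not at hno
      obtain ⟨i, h1, h2, h3⟩ := hno
      exact ⟨i, h1, h2, h3⟩

/-! ### The bound -/

omit [IsProbabilityMeasure μ] in
/-- The powers at the end of `den33`. -/
theorem fin33 {x A R W n z N : ℝ} (hx1 : 1 ≤ x) (hA1 : 1 ≤ A) (hR1 : 1 ≤ R) (hnx : n ≤ x)
    (hW : W ≤ 16 * A ^ 2 * x ^ 2) (hz : N ^ 2 * z ≤ 1) :
    16 * x ^ 2 * (W + n * (16 * (4 * x * R + A ^ 2))) + N ^ 2 * (z + z) ≤ 2000 * A ^ 2 * x ^ 4 * R := by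
  have hx0 : 0 < x := by linarith
  have hA2 : 1 ≤ A ^ 2 := one_le_pow₀ hA1
  have hxR : 1 ≤ x * R := by nlinarith
  have h1 : 4 * x * R + A ^ 2 ≤ 5 * A ^ 2 * (x * R) := by
    have h2 : A ^ 2 * 1 ≤ A ^ 2 * (x * R) := mul_le_mul_of_nonneg_left hxR (sq_nonneg _)
    have h3 : 1 * (x * R) ≤ A ^ 2 * (x * R) := mul_le_mul_of_nonneg_right hA2 (by positivity)
    linarith
  have h2 : n * (16 * (4 * x * R + A ^ 2)) ≤ x * (80 * A ^ 2 * (x * R)) :=
    mul_le_mul hnx (by linarith) (by positivity) hx0.le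
  have h3 : W ≤ 16 * A ^ 2 * x ^ 2 * R := hW.trans (le_mul_of_one_le_right (by positivity) hR1)
  have h4 : W + n * (16 * (4 * x * R + A ^ 2)) ≤ 96 * A ^ 2 * x ^ 2 * R := by
    have e : x * (80 * A ^ 2 * (x * R)) = 80 * A ^ 2 * x ^ 2 * R := by ring
    rw [e] at h2
    linarith
  have h5 := mul_le_mul_of_nonneg_left h4 (show 0 ≤ 16 * x ^ 2 by positivity)
  have h6 : N ^ 2 * (z + z) ≤ 2 := by linarith
  have h7 : (1 : ℝ) ≤ A ^ 2 * x ^ 4 * R :=
    one_le_mul_of_one_le_of_one_le (one_le_mul_of_one_le_of_one_le hA2 (one_le_pow₀ hx1)) hR1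
  calc _ ≤ 16 * x ^ 2 * (96 * A ^ 2 * x ^ 2 * R) + 2 := add_le_add h5 h6
    _ = 1536 * (A ^ 2 * x ^ 4 * R) + 2 := by ring
    _ ≤ 2000 * (A ^ 2 * x ^ 4 * R) := by linarith
    _ = 2000 * A ^ 2 * x ^ 4 * R := by ring

/-- The widths and the units, in the form in which they are used. -/
theorem wid33 {c C : ℝ} {n₀ : ℕ} (h : In μ s c C n₀) {m n : ℕ} (hm : 1 ≤ m) (hmn : m ≤ n) :
    wd' μ s m ^ 2 * (EE' μ s m)⁻¹ ≤ 4 * (wd μ s n ^ 2 / EE μ s n) := by
  have hEm := EE_pos (μ := μ) (s := s) m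
  have hEn := EE_pos (μ := μ) (s := s) n
  have e1 : EE' μ s m = EE μ s m := max_eq_right (one_le_EE m)
  have e2 : wd' μ s m = wd μ s m := by
    refine max_eq_right ?_
    have := wd_ge_one h hm
    have := one_le_EE (μ := μ) (s := s) m
    linarith
  have h1 := wd_growth_one h hm hmn
  have h2 := wd_le_two h hm hmn
  have h0 := h.wd_nonneg m
  have h0n := h.wd_nonneg n
  rw [e2, e1, ← div_eq_mul_inv, div_le_iff₀ hEm]
  have h3 : wd μ s m ^ 2 * EE μ s n ≤ 4 * wd μ s n ^ 2 * EE μ s m := by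
    calc wd μ s m ^ 2 * EE μ s n = wd μ s m * (wd μ s m * EE μ s n) := by ring
      _ ≤ wd μ s m * (2 * EE μ s m * wd μ s n) := mul_le_mul_of_nonneg_left h1 h0
      _ ≤ (2 * wd μ s n) * (2 * EE μ s m * wd μ s n) := mul_le_mul_of_nonneg_right h2 (by positivity)
      _ = 4 * wd μ s n ^ 2 * EE μ s m := by ring
  have h4 : 4 * (wd μ s n ^ 2 / EE μ s n) * EE μ s m = 4 * wd μ s n ^ 2 * EE μ s m / EE μ s n := by ring
  rw [h4, le_div_iff₀ hEn]
  exact h3

/-- The mean variance of the position as a mean over two replicas. -/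
theorem mean33 {N n y : ℕ} (hnN : n ≤ N) (hyN : y ≤ N) :
    2 * ∫ ω, gv (wm μ s N (Pn N y) ω) (fun S => (ps S n : ℝ)) ∂(Pm μ N) =
      ∑ S ∈ (range N).powerset, ∑ S' ∈ (range N).powerset, mm μ s N y S S' * ((pos S n : ℝ) - pos S' n) ^ 2 := by
  have := ne_Pn hyN
  have hgm : Measurable fun η : Env => gv (lw μ s η N (Pn N y)) (fun S => (ps S n : ℝ)) :=
    meas_gv meas_lw fun _ => measurable_const
  have hb : ∀ η : Env, |gv (lw μ s η N (Pn N y)) (fun S => (ps S n : ℝ))| ≤ (N : ℝ) ^ 2 := fun η =>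
    abs_gv_le _ fun S => by
      have q1 : (0 : ℝ) ≤ ps S n := by exact_mod_cast ps_nonneg S n
      rw [abs_of_nonneg q1]
      have q5 : ps S n ≤ (N : ℤ) := (ps_le S n).trans (by exact_mod_cast hnN)
      exact_mod_cast q5
  have hint : Integrable (fun η : Env => gv (lw μ s η N (Pn N y)) (fun S => (ps S n : ℝ))) (law μ) :=
    (integrable_const ((N : ℝ) ^ 2)).mono' hgm.aestronglyMeasurable (Eventually.of_forall fun η => by
      rw [Real.norm_eq_abs]
      exact hb η)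
  have e1 : ∫ ω, gv (wm μ s N (Pn N y) ω) (fun S => (ps S n : ℝ)) ∂(Pm μ N) =
      ∫ η, gv (lw μ s η N (Pn N y)) (fun S => (ps S n : ℝ)) ∂(law μ) :=
    int_fst (Φ := fun η => gv (lw μ s η N (Pn N y)) (fun S => (ps S n : ℝ))) hgm hint
  rw [e1, ← int_pair hyN, ← integral_const_mul]
  refine integral_congr_ae (Eventually.of_forall fun η => ?_)
  exact two_gv η hyN fun S => (pos S n : ℝ)

/-- The sum over the pairs. -/
theorem sum33 {N y : ℕ} (hyN : y ≤ N) {ι : Type*} (J : Finset ι) (a : ι → ℝ) (Ev : ι → Finset ℕ → Finset ℕ → Prop)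
    (B : Finset ℕ → Prop) {g W M z q : ℝ} (hg : 0 ≤ g) (hM : 0 ≤ M) {D : Finset ℕ → Finset ℕ → ℝ}
    (hD : ∀ S S', D S S' ≤ g * (W + ∑ j ∈ J, a j * ind (Ev j S S')) + M * (ind (B S) + ind (B S')))
    (hJ : ∀ j ∈ J, a j * ∑ S ∈ (range N).powerset, ∑ S' ∈ (range N).powerset, mm μ s N y S S' * ind (Ev j S S') ≤ q)
    (hB1 : ∑ S ∈ (range N).powerset, ∑ S' ∈ (range N).powerset, mm μ s N y S S' * ind (B S) ≤ z)
    (hB2 : ∑ S ∈ (range N).powerset, ∑ S' ∈ (range N).powerset, mm μ s N y S S' * ind (B S') ≤ z) :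
    ∑ S ∈ (range N).powerset, ∑ S' ∈ (range N).powerset, mm μ s N y S S' * D S S' ≤ g * (W + J.card * q) + M * (z + z) := by
  have e0 : ∑ S ∈ (range N).powerset, ∑ S' ∈ (range N).powerset, mm μ s N y S S' * D S S' ≤
      ∑ S ∈ (range N).powerset, ∑ S' ∈ (range N).powerset, mm μ s N y S S' *
        (g * (W + ∑ j ∈ J, a j * ind (Ev j S S')) + M * (ind (B S) + ind (B S'))) :=
    sum_le_sum fun S _ => sum_le_sum fun S' _ => mul_le_mul_of_nonneg_left (hD S S') (mm_nonneg _ _ _ _)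
  refine e0.trans ?_
  obtain ⟨T, hT⟩ : ∃ T : Finset ℕ → Finset ℕ → ℝ, ∀ S S', T S S' = ∑ j ∈ J, a j * ind (Ev j S S') := ⟨_, fun _ _ => rfl⟩
  have e2 : ∑ j ∈ J, a j * ∑ S ∈ (range N).powerset, ∑ S' ∈ (range N).powerset, mm μ s N y S S' * ind (Ev j S S') =
      ∑ S ∈ (range N).powerset, ∑ S' ∈ (range N).powerset, mm μ s N y S S' * T S S' := by
    simp only [hT, mul_sum]
    rw [sum_comm]
    refine sum_congr rfl fun S _ => ?_
    rw [sum_comm]
    refine sum_congr rfl fun S' _ => sum_congr rfl fun j _ => ?_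
    ring
  have e1 : ∑ S ∈ (range N).powerset, ∑ S' ∈ (range N).powerset, mm μ s N y S S' *
        (g * (W + ∑ j ∈ J, a j * ind (Ev j S S')) + M * (ind (B S) + ind (B S'))) =
      g * (W * (∑ S ∈ (range N).powerset, ∑ S' ∈ (range N).powerset, mm μ s N y S S') +
        ∑ j ∈ J, a j * ∑ S ∈ (range N).powerset, ∑ S' ∈ (range N).powerset, mm μ s N y S S' * ind (Ev j S S')) +
      M * ((∑ S ∈ (range N).powerset, ∑ S' ∈ (range N).powerset, mm μ s N y S S' * ind (B S)) +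
        ∑ S ∈ (range N).powerset, ∑ S' ∈ (range N).powerset, mm μ s N y S S' * ind (B S')) := by
    rw [e2]
    simp only [← hT]
    simp only [mul_sum, ← sum_add_distrib]
    refine sum_congr rfl fun S _ => sum_congr rfl fun S' _ => ?_
    ring
  rw [e1, sum_mm hyN, mul_one]
  have e3 : ∑ j ∈ J, a j * ∑ S ∈ (range N).powerset, ∑ S' ∈ (range N).powerset, mm μ s N y S S' * ind (Ev j S S') ≤
      (J.card : ℝ) * q := by
    refine (sum_le_card_nsmul _ _ _ hJ).trans ?_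
    rw [nsmul_eq_mul]
  refine add_le_add (mul_le_mul_of_nonneg_left (add_le_add le_rfl e3) hg) ?_
  exact mul_le_mul_of_nonneg_left (add_le_add hB1 hB2) hM

/-- **THE DENOMINATOR.** The mean variance of the position at the time `n`, for the pinned paths of length `N`. -/
theorem den33 {c C : ℝ} {n₀ : ℕ} (h : In μ s c C n₀) {ε : ℝ} (hε : 0 < ε) : ∃ δ : ℝ, 0 < δ ∧ ∃ N₀ : ℕ, ∀ N : ℕ, N₀ ≤ N →
    ∀ n : ℕ, 1 ≤ n → n ≤ N → ∀ y : ℕ, y ≤ N → |(y : ℝ) - sl μ s * N| ≤ (N : ℝ) ^ δ * wd' μ s N →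
    ∫ ω, gv (wm μ s N (Pn N y) ω) (fun S => (ps S n : ℝ)) ∂(Pm μ N) ≤ (N : ℝ) ^ ε * (wd μ s n ^ 2 / EE μ s n) := by
  set θ : ℝ := ε / 8 with hθd
  have hθ : 0 < θ := by positivity
  obtain ⟨δ₁, c₁, hδ₁, hc₁, N₁, hP⟩ := pair86 h θ θ hθ hθ
  obtain ⟨δ₂, c₂, hδ₂, hc₂, N₂, hS⟩ := ns h θ hθ
  set A : ℝ := max 1 (2 * wd μ s 1) with hA
  have hA1 : 1 ≤ A := le_max_left _ _
  obtain ⟨c₃, hc₃, -, N₃, hX⟩ := Pool.Agent.W_7d29a1_Z.NumI77.pow_exp (lt_min hc₁ hc₂) 2
  obtain ⟨N₄, hY⟩ := Pool.Agent.W_7d29a1_Z.NumI77.large (show 0 < ε / 2 by positivity) (2000 * A ^ 2)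
  obtain ⟨N₅, hZ⟩ := Pool.Agent.W_7d29a1_Z.NumI77.large hθ 4
  refine ⟨min δ₁ δ₂, lt_min hδ₁ hδ₂, N₁ + N₂ + N₃ + N₄ + N₅ + 2, ?_⟩
  intro N hN n hn1 hnN y hyN hyc
  have hN1 : (1 : ℝ) ≤ N := by exact_mod_cast (show 1 ≤ N by omega)
  have hN0 : (0 : ℝ) < N := by linarith
  have hw0 : 0 < wd' μ s N := lt_of_lt_of_le zero_lt_one (le_max_left _ _)
  have hcone : ∀ δ', min δ₁ δ₂ ≤ δ' → |((y : ℤ) : ℝ) - sl μ s * N| ≤ ((N : ℝ) ^ δ' * wd' μ s N) := fun δ' hδ' => by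
    rw [Int.cast_natCast]
    exact hyc.trans (mul_le_mul_of_nonneg_right (Real.rpow_le_rpow_of_exponent_le hN1 hδ') hw0.le)
  -- the unit of the bound
  have hEn := EE_pos (μ := μ) (s := s) n
  have hE1 := one_le_EE (μ := μ) (s := s) n
  have hwn := wd_ge_one h hn1
  set R : ℝ := wd μ s n ^ 2 / EE μ s n with hR
  have hR1 : 1 ≤ R := by
    rw [hR, le_div_iff₀ hEn]
    nlinarith
  have hR0 : 0 < R := by linarith
  -- the widths
  have hwd' : ∀ m, 1 ≤ m → wd' μ s m = wd μ s m := fun m hm => by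
    unfold wd'
    refine max_eq_right ?_
    have := wd_ge_one h hm
    have := one_le_EE (μ := μ) (s := s) m
    linarith
  have hwA : ∀ m, 1 ≤ m → wd' μ s m ≤ A * m := fun m hm => by
    have h1 := wd_lower_one h (m := 1) (n := m) le_rfl hm
    rw [Nat.cast_one, one_mul] at h1
    rw [hwd' m hm]
    have h2 : 2 * wd μ s 1 ≤ A := le_max_right _ _
    have h3 : (0 : ℝ) ≤ m := Nat.cast_nonneg _
    nlinarith
  have hwR : ∀ m, 1 ≤ m → m ≤ n → wd' μ s m ^ 2 * (EE' μ s m)⁻¹ ≤ 4 * R := fun m hm hmn => wid33 h hm hmn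
  -- the first scale
  set x : ℝ := (N : ℝ) ^ θ with hx
  obtain ⟨-, hx4, hxlog⟩ := hZ N (by omega)
  have hx0 : 0 < x := by linarith
  set a₀ : ℕ := ⌈x⌉₊ with ha₀
  have ha₀x : x ≤ a₀ := Nat.le_ceil _
  have ha₀y : (a₀ : ℝ) ≤ x + 1 := (Nat.ceil_lt_add_one hx0.le).le
  have ha₀0 : a₀ ≠ 0 := by
    intro h0
    rw [h0, Nat.cast_zero] at ha₀x
    linarith
  set k₀ : ℕ := Nat.log 2 a₀ + 1 with hk₀
  have hk₀a : a₀ < 2 ^ k₀ := Nat.lt_pow_succ_log_self one_lt_two a₀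
  have hk₀b : 2 ^ k₀ ≤ 2 * a₀ := by
    rw [hk₀, pow_succ]
    have := Nat.pow_log_le_self 2 ha₀0
    omega
  have hk₀c : (((2 ^ k₀ : ℕ) : ℝ)) ≤ 4 * x := by
    have h1 : (((2 ^ k₀ : ℕ) : ℝ)) ≤ 2 * a₀ := by exact_mod_cast hk₀b
    linarith
  have hk₀d : x ≤ ((2 ^ k₀ : ℕ) : ℝ) := ha₀x.trans (by exact_mod_cast hk₀a.le)
  set k₁ : ℕ := Nat.log 2 n + 1 with hk₁
  have hk₁a : n < 2 ^ k₁ := Nat.lt_pow_succ_log_self one_lt_two n
  have hk₁b : ∀ j, j < k₁ → 2 ^ j ≤ n := fun j hj => by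
    refine (Nat.pow_le_pow_right two_pos (show j ≤ Nat.log 2 n by omega)).trans ?_
    exact Nat.pow_log_le_self 2 (by omega)
  have hk₁c : (k₁ : ℝ) ≤ x := by
    have h1 : ((Nat.log 2 n : ℕ) : ℝ) ≤ 2 * Real.log N := by
      have h2 : (2 : ℝ) ^ (Nat.log 2 n) ≤ N := by exact_mod_cast (Nat.pow_log_le_self 2 (show n ≠ 0 by omega)).trans hnN
      have h3 := Real.log_le_log (by positivity) h2
      rw [Real.log_pow] at h3
      have h4 := Real.log_two_gt_d9
      have h5 : (0 : ℝ) ≤ (Nat.log 2 n : ℕ) := Nat.cast_nonneg _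
      nlinarith
    have h2 : 0 ≤ Real.log N := Real.log_nonneg hN1
    rw [hk₁]
    push_cast
    linarith
  -- the small probabilities
  have hY1 := hY N (by omega)
  set z : ℝ := Real.exp (-(N : ℝ) ^ (min c₁ c₂)) with hz
  have hz0 : 0 < z := Real.exp_pos _
  have hz1 : Real.exp (-(N : ℝ) ^ c₁) ≤ z :=
    Pool.Agent.W_7d29a1_Z.NumI77.exp_mono (min_le_left _ _) (by omega)
  have hz2 : Real.exp (-(N : ℝ) ^ c₂) ≤ z :=
    Pool.Agent.W_7d29a1_Z.NumI77.exp_mono (min_le_right _ _) (by omega)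
  have hz3 : (N : ℝ) ^ 2 * z ≤ 1 := by
    have h1 := hX N (by omega)
    have e2 : (N : ℝ) ^ (2 : ℝ) = (N : ℝ) ^ 2 := by
      rw [← Real.rpow_natCast]
      norm_num
    rw [← hz, e2] at h1
    exact h1.trans (Real.exp_le_one_iff.2 (by have := Real.rpow_nonneg hN0.le c₃; linarith))
  have hN16 : N ≤ 16 * N := by omega
  have hbad := hS N (by omega) N hN16 le_rfl (y : ℤ) (by positivity) (by exact_mod_cast hyN) (hcone _ (min_le_right _ _))
  have hb1 : P2 μ s N y (fun _ => 0) (fun _ S _ => ¬ NSp μ s N N θ S) ≤ ENNReal.ofReal z := by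
    rw [Pool.Agent.W_7d29a1_HZ.P2_fst (μ := μ) (s := s) (by positivity) (by exact_mod_cast hyN) (fun _ => 0)
      (fun _ S => ¬ NSp μ s N N θ S)]
    exact hbad.trans (ENNReal.ofReal_le_ofReal hz2)
  have hb2 : P2 μ s N y (fun _ => 0) (fun _ _ S' => ¬ NSp μ s N N θ S') ≤ ENNReal.ofReal z := by
    rw [Pool.Agent.W_7d29a1_HZ.P2_snd (μ := μ) (s := s) (by positivity) (by exact_mod_cast hyN) (fun _ => 0)
      (fun _ S => ¬ NSp μ s N N θ S)]
    exact hbad.trans (ENNReal.ofReal_le_ofReal hz2)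
  have hm1 := mm_le (A := fun S _ => ¬ NSp μ s N N θ S) hyN hz0.le hb1
  have hm2 := mm_le (A := fun _ S' => ¬ NSp μ s N N θ S') hyN hz0.le hb2
  have hm3 : ∀ j ∈ Ico k₀ (max k₀ k₁), 16 * wd' μ s (2 ^ j) ^ 2 * ∑ S ∈ (range N).powerset, ∑ S' ∈ (range N).powerset,
      mm μ s N y S S' * ind (NoMeet (n - 2 ^ j) n S S') ≤ 16 * (4 * x * R + A ^ 2) := by
    intro j hj
    rw [mem_Ico] at hj
    have hjn : 2 ^ j ≤ n := hk₁b j (by omega)
    have hj1 : 1 ≤ 2 ^ j := Nat.one_le_two_pow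
    have hjx : (N : ℝ) ^ θ ≤ ((2 ^ j : ℕ) : ℝ) := hk₀d.trans (by exact_mod_cast Nat.pow_le_pow_right two_pos hj.1)
    have h1 := hP N (by omega) N (2 ^ j) hN16 le_rfl hjx (n - 2 ^ j) (by omega) (y : ℤ) (by positivity) (by exact_mod_cast hyN)
      (hcone _ (min_le_left _ _))
    rw [show n - 2 ^ j + 2 ^ j = n by omega] at h1
    have hE0 : 0 < EE' μ s (2 ^ j) := lt_of_lt_of_le zero_lt_one (le_max_left _ _)
    have h2 := mm_le (A := fun S S' => NoMeet (n - 2 ^ j) n S S') hyN (q := x * (EE' μ s (2 ^ j))⁻¹ + z) (by positivity)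
      (h1.trans (ENNReal.ofReal_le_ofReal (by linarith)))
    have h3 : 0 ≤ wd' μ s (2 ^ j) ^ 2 := sq_nonneg _
    have h4 := hwR (2 ^ j) hj1 hjn
    have h5 : wd' μ s (2 ^ j) ^ 2 ≤ A ^ 2 * (N : ℝ) ^ 2 := by
      rw [← mul_pow]
      refine pow_le_pow_left₀ (zero_le_one.trans (le_max_left _ _)) ((hwA (2 ^ j) hj1).trans ?_) 2
      refine mul_le_mul_of_nonneg_left ?_ (by linarith)
      exact_mod_cast hjn.trans hnN
    have h6 : wd' μ s (2 ^ j) ^ 2 * z ≤ A ^ 2 := by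
      calc wd' μ s (2 ^ j) ^ 2 * z ≤ A ^ 2 * (N : ℝ) ^ 2 * z := mul_le_mul_of_nonneg_right h5 hz0.le
        _ = A ^ 2 * ((N : ℝ) ^ 2 * z) := by ring
        _ ≤ A ^ 2 * 1 := mul_le_mul_of_nonneg_left hz3 (sq_nonneg _)
        _ = A ^ 2 := mul_one _
    calc 16 * wd' μ s (2 ^ j) ^ 2 * ∑ S ∈ (range N).powerset, ∑ S' ∈ (range N).powerset,
          mm μ s N y S S' * ind (NoMeet (n - 2 ^ j) n S S')
        ≤ 16 * wd' μ s (2 ^ j) ^ 2 * (x * (EE' μ s (2 ^ j))⁻¹ + z) := mul_le_mul_of_nonneg_left h2 (by positivity)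
      _ = 16 * (x * (wd' μ s (2 ^ j) ^ 2 * (EE' μ s (2 ^ j))⁻¹) + wd' μ s (2 ^ j) ^ 2 * z) := by ring
      _ ≤ 16 * (x * (4 * R) + A ^ 2) := by
        have h7 := mul_le_mul_of_nonneg_left h4 hx0.le
        linarith
      _ = 16 * (4 * x * R + A ^ 2) := by ring
  -- the pathwise bound
  have hpath : ∀ S S' : Finset ℕ, ((pos S n : ℝ) - pos S' n) ^ 2 ≤ 16 * x ^ 2 * (wd' μ s (2 ^ k₀) ^ 2 +
      ∑ j ∈ Ico k₀ (max k₀ k₁), 16 * wd' μ s (2 ^ j) ^ 2 * ind (NoMeet (n - 2 ^ j) n S S')) +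
      (N : ℝ) ^ 2 * (ind (¬ NSp μ s N N θ S) + ind (¬ NSp μ s N N θ S')) := by
    intro S S'
    have hD1 : 0 ≤ 16 * x ^ 2 * (wd' μ s (2 ^ k₀) ^ 2 +
        ∑ j ∈ Ico k₀ (max k₀ k₁), 16 * wd' μ s (2 ^ j) ^ 2 * ind (NoMeet (n - 2 ^ j) n S S')) :=
      mul_nonneg (by positivity) (add_nonneg (by positivity) (sum_nonneg fun j _ =>
        mul_nonneg (by positivity) (ind_nn _)))
    have hN2 : 0 ≤ (N : ℝ) ^ 2 := by positivity
    by_cases h1 : NSp μ s N N θ S ∧ NSp μ s N N θ S'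
    · have h2 := path33 h h1.1 h1.2 hnN k₀ (max k₀ k₁) (le_max_left _ _) ⟨0, by
        have : 2 ^ k₁ ≤ 2 ^ (max k₀ k₁) := Nat.pow_le_pow_right two_pos (le_max_right _ _)
        omega, Nat.zero_le _, by rw [pos_zero, pos_zero]⟩
      rw [← hx] at h2
      refine h2.trans ?_
      rw [ind_not (not_not.2 h1.1), ind_not (not_not.2 h1.2), add_zero, mul_zero, add_zero]
    · have h2 : (1 : ℝ) ≤ ind (¬ NSp μ s N N θ S) + ind (¬ NSp μ s N N θ S') := by
        rcases not_and_or.1 h1 with h3 | h3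
        · rw [ind_of h3]
          linarith [ind_nn (¬ NSp μ s N N θ S')]
        · rw [ind_of h3]
          linarith [ind_nn (¬ NSp μ s N N θ S)]
      have h3 : ((pos S n : ℝ) - pos S' n) ^ 2 ≤ (N : ℝ) ^ 2 := by
        have q1 : (0 : ℝ) ≤ pos S n := by exact_mod_cast pos_nonneg S n
        have q2 : (0 : ℝ) ≤ pos S' n := by exact_mod_cast pos_nonneg S' n
        have q3 : (pos S n : ℝ) ≤ N := by
          have := pos_le S n
          have q5 : pos S n ≤ (N : ℤ) := this.trans (by exact_mod_cast hnN)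
          exact_mod_cast q5
        have q4 : (pos S' n : ℝ) ≤ N := by
          have := pos_le S' n
          have q5 : pos S' n ≤ (N : ℤ) := this.trans (by exact_mod_cast hnN)
          exact_mod_cast q5
        exact sq_le_sq' (by linarith) (by linarith)
      have h4 := mul_le_mul_of_nonneg_left h2 hN2
      rw [mul_one] at h4
      linarith
  have hsum := sum33 (μ := μ) (s := s) hyN (Ico k₀ (max k₀ k₁)) (fun j => 16 * wd' μ s (2 ^ j) ^ 2)
    (fun j S S' => NoMeet (n - 2 ^ j) n S S') (fun S => ¬ NSp μ s N N θ S) (by positivity) (by positivity) hpath hm3 hm1 hm2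
  rw [Nat.card_Ico] at hsum
  -- the powers
  have hkk : ((max k₀ k₁ - k₀ : ℕ) : ℝ) ≤ x := by
    have h1 : max k₀ k₁ - k₀ ≤ k₁ := by omega
    have h2 : ((max k₀ k₁ - k₀ : ℕ) : ℝ) ≤ k₁ := by exact_mod_cast h1
    linarith
  have hwk : wd' μ s (2 ^ k₀) ^ 2 ≤ 16 * A ^ 2 * x ^ 2 := by
    have h1 := hwA (2 ^ k₀) Nat.one_le_two_pow
    have h2 : wd' μ s (2 ^ k₀) ≤ A * (4 * x) := h1.trans (mul_le_mul_of_nonneg_left hk₀c (by linarith))
    calc wd' μ s (2 ^ k₀) ^ 2 ≤ (A * (4 * x)) ^ 2 := pow_le_pow_left₀ (zero_le_one.trans (le_max_left _ _)) h2 2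
      _ = 16 * A ^ 2 * x ^ 2 := by ring
  have hfin := fin33 (N := (N : ℝ)) (by linarith : 1 ≤ x) hA1 hR1 hkk hwk hz3
  have hx4' : x ^ 4 = (N : ℝ) ^ (ε / 2) := by
    rw [hx, ← Real.rpow_natCast, ← Real.rpow_mul hN0.le, hθd]
    congr 1
    push_cast
    ring
  have hεε : (N : ℝ) ^ ε = (N : ℝ) ^ (ε / 2) * (N : ℝ) ^ (ε / 2) := by
    rw [← Real.rpow_add hN0]
    congr 1
    ring
  have h9 : 2000 * A ^ 2 * x ^ 4 * R ≤ (N : ℝ) ^ ε * R := by
    rw [hx4', hεε]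
    have h10 : 0 ≤ (N : ℝ) ^ (ε / 2) * R := by positivity
    calc 2000 * A ^ 2 * (N : ℝ) ^ (ε / 2) * R = (2000 * A ^ 2) * ((N : ℝ) ^ (ε / 2) * R) := by ring
      _ ≤ (N : ℝ) ^ (ε / 2) * ((N : ℝ) ^ (ε / 2) * R) := mul_le_mul_of_nonneg_right hY1.2.1 h10
      _ = _ := by ring
  have h11 : 2 * ∫ ω, gv (wm μ s N (Pn N y) ω) (fun S => (ps S n : ℝ)) ∂(Pm μ N) ≤ (N : ℝ) ^ ε * R := by
    rw [mean33 hnN hyN]
    exact hsum.trans (hfin.trans h9)
  have h12 : 0 ≤ (N : ℝ) ^ ε * R := by positivity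
  linarith

end

end Pool.Agent.W_7d29a1_C0.Den33
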