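import Pool.Agent.W_7d29a1_C0.Site15

/-!
MP_7d29a1_pr, [C0], helper11: THE DOUBLE TIE AT A ROW, RIGHT END, FOR REPLICAS OF ANY BLOCKS (after `site_coreR` of helper15; slot lemma of
helper3). All prices are of type R: the price of a tie on the rows `[u, v]` which closes before `d` is given every event which does not see
the rows `(u, d)`. So the blocks of the replicas may start anywhere on the left (one sided conditions `pJ 0 z` allowed). `one_clR`: one tie.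
`site_coreG`: sum over the rows of a stretch of length `b / 64` of the price of (micro tie of the row, closed before `j + b`) and (own event).
`siteG`: own = the replica of the block `[co j, z j)` misses the path on `[ou j, j + b]`.
-/

set_option autoImplicit false

namespace Pool.Agent.W_7d29a1_C0.Dg11

open MeasureTheory ProbabilityTheory Filter Topology Finset
open Pool.Agent.W_7d29a1_F Pool.Agent.W_7d29a1_X Pool.Agent.W_7d29a1_h4g Pool.Agent.W_7d29a1_H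
open Pool.Agent.W_7d29a1_HS (In wd md)
open Pool.Agent.W_7d29a1_HZ Pool.Agent.W_7d29a1_HZ.R72 Pool.Agent.W_7d29a1_Z.Asm72
open Pool.Agent.W_7d29a1_HZ.Z86
open Pool.Agent.W_7d29a1_C0.P86
open Pool.Agent.W_7d29a1_C0.P15
open Pool.Agent.W_7d29a1_C0.P3 (Hy hy_ms hy_off hy_mono hy_mono_x slotR plNear er amp amp_ex)
open scoped ENNReal

variable {μ : Measure ℝ} {s : ℝ} {N : ℕ} [IsProbabilityMeasure μ] {c₀ C₀ : ℝ} {n₀ : ℕ}

/-! ### Places of type R -/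

/-- A gap as a place of type R. -/
theorem plR (h : In μ s c₀ C₀ n₀) : ∀ ε θ : ℝ, 0 < ε → 0 < θ → ∃ δ c₁ : ℝ, 0 < δ ∧ 0 < c₁ ∧ ∃ L₀ : ℕ,
    ∀ L : ℕ, L₀ ≤ L → ∀ N : ℕ, L ≤ 16 * N → N ≤ L → ∀ y : ℕ, y ≤ N → |(y : ℝ) - sl μ s * N| ≤ ((L : ℝ) ^ δ * wd' μ s N) →
    ∀ c' d' u v : ℕ, c' ≤ u → v ≤ d' → d' ≤ N → (L : ℝ) ^ θ ≤ ((v - u : ℕ) : ℝ) →
    Pl μ s N y (ENNReal.ofReal ((L : ℝ) ^ ε * (EE' μ s (v - u))⁻¹)) (ENNReal.ofReal (Real.exp (-(L : ℝ) ^ c₁))) (Gap c' d' u v)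
      (Ioo u d') (Ioc c' d') := by
  intro ε θ hε hθ
  obtain ⟨δ, c₁, hδ, hc₁, L₁, hP⟩ := pl_blk h ε θ hε hθ
  obtain ⟨L₂, hL₂⟩ := Pool.Agent.W_7d29a1_Z.NumI77.large hθ 4
  refine ⟨δ, c₁, hδ, hc₁, L₁ + L₂ + 100, ?_⟩
  intro L hL N hLN hNL y hyN hyc c' d' u v h1 h2 h3 hlen
  obtain ⟨-, hL4, -⟩ := hL₂ L (by omega)
  have hv4 : 4 ≤ v - u := by exact_mod_cast hL4.trans hlen
  have hy0 : (0 : ℤ) ≤ y := by positivity
  have hyN' : (y : ℤ) ≤ N := by exact_mod_cast hyN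
  have hyc' : |((y : ℤ) : ℝ) - sl μ s * N| ≤ ((L : ℝ) ^ δ * wd' μ s N) := by
    push_cast
    exact hyc
  have h5 := hP L (by omega) N (v - u) hLN hNL hlen (by omega) y hy0 hyN' hyc' (u + 1) c' d' (by omega) (by omega)
  have e : Ico (u + 1) d' = Ioo u d' := by
    ext a
    rw [mem_Ico, mem_Ioo]
    omega
  rw [e] at h5
  refine h5.mono fun S S' hg => ?_
  obtain ⟨a, b', k1, k2, k3, k4, k5, k6, k7⟩ := hg
  exact ⟨a, b', k1, by omega, by omega, k4, k5, k6, fun k hk1 hk2 => k7 k (by omega) (by omega)⟩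

/-- **A replica of the block `[c, a)`, for SOME closing time `a ∈ (v, m]`, which misses the base path on `[u, a)`: one price**, given every
event which does not see the rows `(u, m)`. -/
theorem mic_clR (h : In μ s c₀ C₀ n₀) : ∀ ε θ : ℝ, 0 < ε → 0 < θ → ∃ δ κ c₂ : ℝ, 0 < δ ∧ 0 < κ ∧ 0 < c₂ ∧ ∃ L₀ : ℕ, ∀ L : ℕ, L₀ ≤ L →
    ∀ N : ℕ, L ≤ 16 * N → N ≤ L → ∀ y : ℕ, y ≤ N → |(y : ℝ) - sl μ s * N| ≤ ((L : ℝ) ^ δ * wd' μ s N) →
    ∀ c m u v : ℕ, c ≤ u → v ≤ m → m ≤ N → (L : ℝ) ^ θ ≤ ((v - u : ℕ) : ℝ) → ∀ x : ℝ, x ≤ (L : ℝ) ^ κ →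
    ∀ F : Env → Finset ℕ → Prop, Ms F → OffRows (Ioo u m) F →
    P1 μ s N y (fun η S => F η S ∧ ∃ a ∈ Ioc v m, Hy μ s N y c a (NoMeet u (a - 1)) x η S) ≤
      ENNReal.ofReal ((L : ℝ) ^ ε * (EE' μ s (v - u))⁻¹) * P1 μ s N y F + ENNReal.ofReal (Real.exp (-(L : ℝ) ^ c₂)) := by
  intro ε θ hε hθ
  obtain ⟨δ, c₁, hδ, hc₁, L₁, hP⟩ := plR h ε θ hε hθ
  obtain ⟨κ, c₂, hκ, -, hc₂, L₂, hT⟩ := tiny15 hc₁
  refine ⟨δ, κ, c₂, hδ, hκ, hc₂, L₁ + L₂ + 100, ?_⟩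
  intro L hL N hLN hNL y hyN hyc c m u v h1 h2 h3 h4 x hx F hF hoff
  have hL100 : (100 : ℝ) ≤ L := by exact_mod_cast (show 100 ≤ L by omega)
  have hL0 : (0 : ℝ) < L := by linarith
  have hX0 : 0 ≤ (L : ℝ) ^ κ := by positivity
  obtain ⟨-, hTiny⟩ := hT L (by omega)
  set A' : ℕ → Finset ℕ → Finset ℕ → Prop := fun a S S' => pos S c = pos S' c ∧ pos S a = pos S' a ∧ NoMeet u (a - 1) S S' with hA'
  have huv : u < v := by
    have h5 : (0 : ℝ) < (L : ℝ) ^ θ := by positivity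
    have h6 : (0 : ℝ) < ((v - u : ℕ) : ℝ) := h5.trans_le h4
    have h7 : 0 < v - u := by exact_mod_cast h6
    omega
  have hon : ∀ a ∈ Ioc v m, On2 c a (A' a) := by
    intro a ha S S' S'' hS
    rw [mem_Ioc] at ha
    simp only [hA']
    rw [hS c le_rfl (by omega), hS a (by omega) le_rfl, nm_on2 h1 (Nat.sub_le _ _) S S' S'' hS]
  have hgap : ∀ a ∈ Ioc v m, ∀ S S', A' a S S' → Gap c m u v S S' := by
    intro a ha S S' hh
    rw [mem_Ioc] at ha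
    exact ⟨c, a, le_rfl, h1, ha.1.le, ha.2, hh.1, hh.2.1, fun k hk1 hk2 => hh.2.2 k (by omega) (by omega)⟩
  have hsub : P1 μ s N y (fun η S => F η S ∧ ∃ a ∈ Ioc v m, Hy μ s N y c a (NoMeet u (a - 1)) x η S) ≤
      P1 μ s N y (fun η S => F η S ∧ ∃ a ∈ Ioc v m, Hy μ s N y c a (A' a) x η S) := by
    refine A12.P1_mono fun η S ⟨g1, a, g2, g3⟩ => ⟨g1, a, g2, lt_of_lt_of_le g3 ?_⟩
    exact Pool.Agent.W_7d29a1_C0.P86.mc_mono (fun S S' _ _ _ _ h5 h6 => ⟨h5 c (Or.inl le_rfl), h5 a (Or.inr le_rfl), h6⟩) η S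
  refine hsub.trans ((amp_ex (Ioc v m) hyN (c := fun _ => c) (d := fun a => a) (fun a ha => by rw [mem_Ioc] at ha; omega)
    (fun a ha => (mem_Ioc.1 ha).2.trans h3) hon hgap (hP L (by omega) N hLN hNL y hyN hyc c m u v h1 h2 h3 h4) x (3 * (L : ℝ) ^ κ)
    hF hoff).trans ?_)
  refine add_le_add le_rfl (le_trans ?_ (hTiny N hNL x (by linarith)))
  rw [mul_add]
  refine add_le_add (le_mul_of_one_le_left zero_le ?_) (mul_le_mul' ?_ le_rfl)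
  · rw [← ENNReal.ofReal_one]
    exact ENNReal.ofReal_le_ofReal (one_le_pow₀ (by linarith))
  · rw [Nat.card_Ioc, ← ENNReal.ofReal_natCast]
    refine ENNReal.ofReal_le_ofReal ?_
    have g1 : ((m - v : ℕ) : ℝ) ≤ L := by exact_mod_cast (show m - v ≤ L by omega)
    have g2 : (L : ℝ) ≤ (L : ℝ) ^ 3 := by nlinarith [sq_nonneg (L : ℝ)]
    linarith

/-- **ONE TIE, type R**: the replica of the block `[c, d)` misses the path on `[u, v]`. -/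
theorem one_clR (h : In μ s c₀ C₀ n₀) : ∀ ε θ : ℝ, 0 < ε → 0 < θ → ∃ δ κ c₂ : ℝ, 0 < δ ∧ 0 < κ ∧ 0 < c₂ ∧ ∃ L₀ : ℕ, ∀ L : ℕ, L₀ ≤ L →
    ∀ N : ℕ, L ≤ 16 * N → N ≤ L → ∀ y : ℕ, y ≤ N → |(y : ℝ) - sl μ s * N| ≤ ((L : ℝ) ^ δ * wd' μ s N) →
    ∀ c d u v : ℕ, c ≤ u → v ≤ d → d ≤ N → (L : ℝ) ^ θ ≤ ((v - u : ℕ) : ℝ) → ∀ x : ℝ, x ≤ (L : ℝ) ^ κ →
    ∀ F : Env → Finset ℕ → Prop, Ms F → OffRows (Ioo u d) F →
    P1 μ s N y (fun η S => F η S ∧ Hy μ s N y c d (NoMeet u v) x η S) ≤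
      ENNReal.ofReal ((L : ℝ) ^ ε * (EE' μ s (v - u))⁻¹) * P1 μ s N y F + ENNReal.ofReal (Real.exp (-(L : ℝ) ^ c₂)) := by
  intro ε θ hε hθ
  obtain ⟨δ, c₁, hδ, hc₁, L₁, hP⟩ := plR h ε θ hε hθ
  obtain ⟨κ, c₂, hκ, -, hc₂, L₂, hT⟩ := tiny15 hc₁
  refine ⟨δ, κ, c₂, hδ, hκ, hc₂, L₁ + L₂ + 100, ?_⟩
  intro L hL N hLN hNL y hyN hyc c d u v h1 h2 h3 h4 x hx F hF hoff
  have hL100 : (100 : ℝ) ≤ L := by exact_mod_cast (show 100 ≤ L by omega)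
  have hL0 : (0 : ℝ) < L := by linarith
  have hX0 : 0 ≤ (L : ℝ) ^ κ := by positivity
  obtain ⟨-, hTiny⟩ := hT L (by omega)
  have huv : u < v := by
    have h5 : (0 : ℝ) < (L : ℝ) ^ θ := by positivity
    have h6 : (0 : ℝ) < ((v - u : ℕ) : ℝ) := h5.trans_le h4
    have h7 : 0 < v - u := by exact_mod_cast h6
    omega
  set A' : Finset ℕ → Finset ℕ → Prop := fun S S' => pos S c = pos S' c ∧ pos S d = pos S' d ∧ NoMeet u v S S' with hA'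
  have hon : On2 c d A' := by
    intro S S' S'' hS
    simp only [hA']
    rw [hS c le_rfl (by omega), hS d (by omega) le_rfl, nm_on2 h1 h2 S S' S'' hS]
  have hgap : ∀ S S', A' S S' → Gap c d u v S S' := by
    intro S S' hh
    exact ⟨c, d, le_rfl, h1, h2, le_rfl, hh.1, hh.2.1, fun k hk1 hk2 => hh.2.2 k (by omega) (by omega)⟩
  have hsub : P1 μ s N y (fun η S => F η S ∧ Hy μ s N y c d (NoMeet u v) x η S) ≤
      P1 μ s N y (fun η S => F η S ∧ Hy μ s N y c d A' x η S) := by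
    refine A12.P1_mono fun η S ⟨g1, g3⟩ => ⟨g1, lt_of_lt_of_le g3 ?_⟩
    exact Pool.Agent.W_7d29a1_C0.P86.mc_mono (fun S S' _ _ _ _ h5 h6 => ⟨h5 c (Or.inl le_rfl), h5 d (Or.inr le_rfl), h6⟩) η S
  refine hsub.trans ((amp hyN (by omega) h3 hon hgap (hP L (by omega) N hLN hNL y hyN hyc c d u v h1 h2 h3 h4) x (3 * (L : ℝ) ^ κ)
    hF hoff).trans ?_)
  refine add_le_add le_rfl (le_trans ?_ (hTiny N hNL x (by linarith)))
  refine le_mul_of_one_le_left zero_le ?_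
  rw [← ENNReal.ofReal_one]
  exact ENNReal.ofReal_le_ofReal (one_le_pow₀ (by linarith))

/-! ### One row -/

omit [IsProbabilityMeasure μ] in
/-- The decomposition of one row. -/
theorem rowG {y b j c u v T0 I : ℕ} (hN : j + b ≤ N) (hc : c ≤ u) (hv : v ≤ j + b / 2) (huv : u < v) (hb2 : 2 ≤ b)
    (hT0 : 1 ≤ T0) {x x' : ℝ} (hx : (N : ℝ) ≤ Real.exp (x' - x)) (Own F : Env → Finset ℕ → Prop) :
    P1 μ s N y (fun η S => F η S ∧ Hy μ s N y c (j + b) (NoMeet u v) x η S ∧ Own η S) ≤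
      P1 μ s N y (fun η S => F η S ∧ ∃ a ∈ Icc (j + b - 2 * (2 ^ 0 * T0)) (j + b), Hy μ s N y c a (NoMeet u (a - 1)) x' η S) +
      (∑ i ∈ range (I + 1), P1 μ s N y (fun η S => (F η S ∧ Am μ s N y c (j + b) (2 ^ i * T0) u x' η S) ∧ Own η S) +
        P1 μ s N y (fun η S => (F η S ∧ Bm μ s N y c (j + b - 2 * (2 ^ I * T0)) v u x' η S) ∧ Own η S)) := by
  have hmass : ∀ η S, Hy μ s N y c (j + b) (NoMeet u v) x η S →
      ∃ a ∈ Ioc v (j + b), Hy μ s N y c a (NoMeet u (a - 1)) x' η S := fun η S hh =>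
    hy_close (by omega) (by omega) (by omega) hN hx hh
  have hsub : P1 μ s N y (fun η S => F η S ∧ Hy μ s N y c (j + b) (NoMeet u v) x η S ∧ Own η S) ≤
      P1 μ s N y (fun η S => (F η S ∧ ∃ a ∈ Icc (j + b - 2 * (2 ^ 0 * T0)) (j + b), Hy μ s N y c a (NoMeet u (a - 1)) x' η S) ∨
        ((∃ i ∈ range (I + 1), (F η S ∧ Am μ s N y c (j + b) (2 ^ i * T0) u x' η S) ∧ Own η S) ∨
        ((F η S ∧ Bm μ s N y c (j + b - 2 * (2 ^ I * T0)) v u x' η S) ∧ Own η S))) := by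
    refine A12.P1_mono fun η S hev => ?_
    obtain ⟨f1, f2, f3⟩ := hev
    obtain ⟨a, ha, hHy⟩ := hmass η S f2
    rw [mem_Ioc] at ha
    by_cases hA : j + b - a ≤ 2 * T0
    · refine Or.inl ⟨f1, a, mem_Icc.2 ⟨?_, ha.2⟩, hHy⟩
      rw [pow_zero, one_mul]
      omega
    · by_cases hB : j + b - a ≤ 2 * (2 ^ I * T0)
      · obtain ⟨i, hi1, hi2, hi3⟩ := dyad hT0 (by omega) hB
        refine Or.inr (Or.inl ⟨i, mem_range.2 (by omega), ⟨f1, a, mem_Icc.2 ?_, hHy⟩, f3⟩)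
        omega
      · exact Or.inr (Or.inr ⟨⟨f1, a, mem_Ioc.2 ⟨ha.1, by omega⟩, hHy⟩, f3⟩)
  refine hsub.trans ((A12.P1_or _ _).trans (add_le_add le_rfl ((A12.P1_or _ _).trans (add_le_add ?_ le_rfl))))
  exact A12.P1_exists (μ := μ) (s := s) (N := N) (y := y) (range (I + 1)) _

omit [IsProbabilityMeasure μ] in
theorem srG {y b hi j c u T m : ℕ} (h2 : j + b ≤ hi) (hu : u ≤ j + b / 2) {x : ℝ} {F : Env → Finset ℕ → Prop} (hm : m ≤ j + b)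
    {η : Env} {S : Finset ℕ} (h : F η S ∧ ∃ a ∈ Icc (j + b - 2 * T) m, Hy μ s N y c a (NoMeet u (a - 1)) x η S) :
    SR μ s N y b hi T (j + b) c x F η S := by
  obtain ⟨f1, a, ha, hh⟩ := h
  rw [mem_Icc] at ha
  exact ⟨f1, a, mem_Icc.2 ⟨ha.1, by omega⟩, hy_mono (fun S' _ _ hm k hk1 hk2 => hm k (by omega) hk2) hh⟩

/-! ### The stretch -/

/-- **THE DOUBLE TIE, SUMMED OVER A STRETCH, any block starts**, for an abstract family of own events: `Own j` has the price `L ^ ε' / EE' T`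
given every event which does not see the rows `(j + b - T, top]`, for every `T`. -/
theorem site_coreG (h : In μ s c₀ C₀ n₀) : ∀ ε θ : ℝ, 0 < ε → 0 < θ → ∃ ε' θ' : ℝ, 0 < ε' ∧ 0 < θ' ∧ θ' ≤ θ ∧
    ∀ c₁ : ℝ, 0 < c₁ → ∃ δ κ c₂ : ℝ, 0 < δ ∧ 0 < κ ∧ 0 < c₂ ∧ ∃ L₀ : ℕ, ∀ L : ℕ, L₀ ≤ L →
    ∀ N : ℕ, L ≤ 16 * N → N ≤ L → ∀ y : ℕ, y ≤ N → |(y : ℝ) - sl μ s * N| ≤ ((L : ℝ) ^ δ * wd' μ s N) →
    ∀ b l lo hi top : ℕ, (L : ℝ) ^ θ ≤ b → (L : ℝ) ^ θ ≤ l → hi ≤ top → hi ≤ N →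
    ∀ JJ : Finset ℕ, (∀ j ∈ JJ, hi < j + b + b / 64 ∧ j + b ≤ hi) →
    ∀ c u v : ℕ → ℕ, (∀ j ∈ JJ, c j ≤ u j ∧ lo ≤ u j ∧ v j ≤ j + b / 2 ∧ u j + l ≤ v j) →
    ∀ Own : ℕ → Env → Finset ℕ → Prop,
    (∀ j ∈ JJ, ∀ T : ℕ, (L : ℝ) ^ θ' ≤ T → 4 * T ≤ b → ∀ G : Env → Finset ℕ → Prop, Ms G → OffRows (Ioc (j + b - T) top) G →
      P1 μ s N y (fun η S => G η S ∧ Own j η S) ≤
        ENNReal.ofReal ((L : ℝ) ^ ε' * (EE' μ s T)⁻¹) * P1 μ s N y G + ENNReal.ofReal (Real.exp (-(L : ℝ) ^ c₁))) →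
    ∀ x : ℝ, x ≤ (L : ℝ) ^ κ →
    ∀ F : Env → Finset ℕ → Prop, Ms F → OffRows (Ioc lo top) F →
    ∑ j ∈ JJ, P1 μ s N y (fun η S => F η S ∧ Hy μ s N y (c j) (j + b) (NoMeet (u j) (v j)) x η S ∧ Own j η S) ≤
      ENNReal.ofReal ((L : ℝ) ^ ε * ((b * (EE' μ s b)⁻¹ + JJ.card * (EE' μ s l)⁻¹) * (EE' μ s b)⁻¹)) * P1 μ s N y F +
        ENNReal.ofReal (Real.exp (-(L : ℝ) ^ c₂)) := by
  intro ε θ hε hθ
  obtain ⟨α, K, -, -, hK, hE⟩ := EE'_pow h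
  have hE0 : ∀ t, 0 < EE' μ s t := fun t => lt_of_lt_of_le zero_lt_one (le_max_left _ _)
  obtain ⟨ε', hε'⟩ : ∃ ε' : ℝ, ε' = ε / 3 := ⟨_, rfl⟩
  have hε0 : 0 < ε' := by rw [hε']; positivity
  obtain ⟨θ', hθ'⟩ : ∃ θ' : ℝ, θ' = min (θ / 2) ε' := ⟨_, rfl⟩
  have hθ0 : 0 < θ' := by rw [hθ']; exact lt_min (by positivity) hε0
  have hθ1 : 2 * θ' ≤ θ := by have := min_le_left (θ / 2) ε'; rw [← hθ'] at this; linarith
  have hθ2 : θ' ≤ ε' := by rw [hθ']; exact min_le_right _ _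
  refine ⟨ε', θ', hε0, hθ0, by linarith, fun c₁ hc₁ => ?_⟩
  obtain ⟨δ₂, κ₂, c₂, hδ₂, hκ₂, hc₂, L₂, hMic⟩ := mic_clR h ε' θ hε0 hθ
  obtain ⟨δ₃, c₃, hδ₃, hc₃, L₃, hSl⟩ := slotR h (plNear h) ε' θ' hε0 hθ0
  obtain ⟨cm, hcm⟩ : ∃ cm : ℝ, cm = min (min c₁ c₂) c₃ := ⟨_, rfl⟩
  have hcm0 : 0 < cm := by rw [hcm]; exact lt_min (lt_min hc₁ hc₂) hc₃
  obtain ⟨κ, hκ⟩ : ∃ κ : ℝ, κ = min κ₂ c₃ / 2 := ⟨_, rfl⟩
  have hκ0 : 0 < κ := by rw [hκ]; have := lt_min hκ₂ hc₃; positivity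
  obtain ⟨cp, hcp, L₄, hnum⟩ := num15 (μ := μ) (s := s) hK (fun m n h1 h2 => (hE m n h1 h2).2.2) hε0 hθ0 hθ2 hcm0
  obtain ⟨L₆, hL₆⟩ := Pool.Agent.W_7d29a1_Z.NumI77.large hκ0 2
  obtain ⟨L₇, hL₇⟩ := Pool.Agent.W_7d29a1_Z.NumI77.large hθ0 512
  refine ⟨min δ₂ δ₃, κ, cp, lt_min hδ₂ hδ₃, hκ0, hcp, L₂ + L₃ + L₄ + L₆ + L₇ + 100, ?_⟩
  intro L hL N hLN hNL y hyN hyc b l lo hi top hbL hlL htop hiN JJ hJJ c u v huv Own hOwn x hx F hF hoff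
  have hL2 : L₂ ≤ L := by omega
  have hL3 : L₃ ≤ L := by omega
  have hL4 : L₄ ≤ L := by omega
  have hL1 : 1 ≤ L := by omega
  have hL100 : (100 : ℝ) ≤ L := by exact_mod_cast (show 100 ≤ L by omega)
  obtain ⟨-, hX2, hXlog⟩ := hL₆ L (by omega)
  obtain ⟨-, hθ512, -⟩ := hL₇ L (by omega)
  clear hL hL₆ hL₇
  have hLR : (1 : ℝ) ≤ L := by linarith
  have hL0 : (0 : ℝ) < L := by linarith
  have hwd : ∀ n, 0 < wd' μ s n := fun n => lt_of_lt_of_le zero_lt_one (le_max_left _ _)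
  have hcone : ∀ δ', min δ₂ δ₃ ≤ δ' → |(y : ℝ) - sl μ s * N| ≤ ((L : ℝ) ^ δ' * wd' μ s N) := fun δ' hδ' =>
    hyc.trans (mul_le_mul_of_nonneg_right (Real.rpow_le_rpow_of_exponent_le hLR hδ') (hwd N).le)
  have hcy2 := hcone δ₂ (min_le_left _ _)
  have hcy3 := hcone δ₃ (min_le_right _ _)
  rcases JJ.eq_empty_or_nonempty with hJe | hJne
  · rw [hJe, sum_empty]
    exact zero_le
  obtain ⟨j₀, hj₀⟩ := hJne
  have hbN : b ≤ hi := by have h1 := hJJ j₀ hj₀; omega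
  have hl1 : 1 ≤ l := by
    have h1 : (0 : ℝ) < (L : ℝ) ^ θ := by positivity
    have h2 : (0 : ℝ) < l := h1.trans_le hlL
    exact_mod_cast h2
  have hlo : lo + b / 2 ≤ hi := by
    have h1 := hJJ j₀ hj₀
    have h2 := huv j₀ hj₀
    omega
  -- the amplification
  obtain ⟨x', hx'⟩ : ∃ x' : ℝ, x' = (L : ℝ) ^ (2 * κ) := ⟨_, rfl⟩
  have hxx : x' = (L : ℝ) ^ κ * (L : ℝ) ^ κ := by
    rw [hx', ← Real.rpow_add hL0]
    congr 1
    ring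
  have hx1 : (N : ℝ) ≤ Real.exp (x' - x) := by
    have h1 : (N : ℝ) ≤ L := by exact_mod_cast hNL
    refine h1.trans ?_
    rw [← Real.log_le_iff_le_exp hL0]
    have h2 : 0 ≤ Real.log L := Real.log_nonneg hLR
    have h3 : 2 * (L : ℝ) ^ κ ≤ (L : ℝ) ^ κ * (L : ℝ) ^ κ := mul_le_mul_of_nonneg_right hX2 (by linarith)
    linarith
  have hκle : ∀ κ', min κ₂ c₃ ≤ κ' → x' ≤ (L : ℝ) ^ κ' := fun κ' hκ' => by
    rw [hx']
    refine Real.rpow_le_rpow_of_exponent_le hLR ?_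
    rw [hκ]
    linarith
  have hx'2 := hκle κ₂ (min_le_left _ _)
  have hx'3 := hκle c₃ (min_le_right _ _)
  -- the scales
  obtain ⟨T0, hT0⟩ : ∃ T0 : ℕ, T0 = ⌈(L : ℝ) ^ θ'⌉₊ := ⟨_, rfl⟩
  have hT0a : (L : ℝ) ^ θ' ≤ T0 := hT0 ▸ Nat.le_ceil _
  have hT0b : (T0 : ℝ) ≤ 2 * (L : ℝ) ^ θ' := by
    have h1 : (T0 : ℝ) < (L : ℝ) ^ θ' + 1 := hT0 ▸ Nat.ceil_lt_add_one (by positivity)
    linarith
  have hT01 : 1 ≤ T0 := by
    have : (1 : ℝ) ≤ T0 := by linarith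
    exact_mod_cast this
  have hT0c : 256 * T0 ≤ b := by
    have h1 : (256 : ℝ) * T0 ≤ b := by
      calc (256 : ℝ) * T0 ≤ 512 * (L : ℝ) ^ θ' := by linarith
        _ ≤ (L : ℝ) ^ θ' * (L : ℝ) ^ θ' := mul_le_mul_of_nonneg_right hθ512 (by positivity)
        _ = (L : ℝ) ^ (2 * θ') := by
            rw [← Real.rpow_add hL0]
            congr 1
            ring
        _ ≤ (L : ℝ) ^ θ := Real.rpow_le_rpow_of_exponent_le hLR hθ1
        _ ≤ b := hbL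
    exact_mod_cast h1
  obtain ⟨I, hIb, hTI, hTI2⟩ := scales hT01 hT0c
  have hT0T : ∀ i, T0 ≤ 2 ^ i * T0 := fun i => by
    have : 1 * T0 ≤ 2 ^ i * T0 := Nat.mul_le_mul_right T0 Nat.one_le_two_pow
    omega
  have hTR : ∀ i, (L : ℝ) ^ θ' ≤ ((2 ^ i * T0 : ℕ) : ℝ) := fun i => hT0a.trans (by exact_mod_cast hT0T i)
  -- the errors
  have hp1 : ENNReal.ofReal (Real.exp (-(L : ℝ) ^ c₁)) ≤ ENNReal.ofReal (Real.exp (-(L : ℝ) ^ cm)) :=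
    ENNReal.ofReal_le_ofReal (Pool.Agent.W_7d29a1_Z.NumI77.exp_mono (by rw [hcm]; exact (min_le_left _ _).trans (min_le_left _ _)) hL1)
  have hp2 : ENNReal.ofReal (Real.exp (-(L : ℝ) ^ c₂)) ≤ ENNReal.ofReal (Real.exp (-(L : ℝ) ^ cm)) :=
    ENNReal.ofReal_le_ofReal (Pool.Agent.W_7d29a1_Z.NumI77.exp_mono (by rw [hcm]; exact (min_le_left _ _).trans (min_le_right _ _)) hL1)
  have hp3 : ENNReal.ofReal (Real.exp (-(L : ℝ) ^ c₃)) ≤ ENNReal.ofReal (Real.exp (-(L : ℝ) ^ cm)) :=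
    ENNReal.ofReal_le_ofReal (Pool.Agent.W_7d29a1_Z.NumI77.exp_mono (by rw [hcm]; exact min_le_right _ _) hL1)
  -- the slots
  have hSlj : ∀ i, i ≤ I → ∑ j ∈ JJ, P1 μ s N y (SR μ s N y b hi (2 ^ i * T0) (j + b) (c j) x' F) ≤
      ENNReal.ofReal ((L : ℝ) ^ ε' * ((((2 ^ i * T0 : ℕ) : ℝ) + b * (EE' μ s b)⁻¹) * (EE' μ s b)⁻¹)) * P1 μ s N y F +
        ENNReal.ofReal (Real.exp (-(L : ℝ) ^ cm)) := by
    intro i hi'
    have h1 := hSl L hL3 N hLN hNL y hyN hcy3 (2 ^ i * T0) b hi (hTR i) (hTI i hi') hbN hiN x' hx'3 (JJ.image (· + b))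
      (fun d' hd' => by
        obtain ⟨j, hj, rfl⟩ := mem_image.1 hd'
        exact hJJ j hj) (fun d' => c (d' - b)) (fun d' hd' => by
        obtain ⟨j, hj, rfl⟩ := mem_image.1 hd'
        have h5 := (hJJ j hj).2
        have h6 := huv j hj
        have e : j + b - b = j := by omega
        show c (j + b - b) + b / 8 ≤ hi
        rw [e]
        clear * - h5 h6 hl1
        omega) F hF (Pool.Agent.W_7d29a1_HZ.ZE.OffRows.mono36 (fun k hk => by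
        rw [mem_Ioc] at hk ⊢
        clear * - hk hlo htop
        omega) hoff)
    rw [sum_image (fun _ _ _ _ h => Nat.add_right_cancel h)] at h1
    refine le_trans (le_of_eq (sum_congr rfl fun j _ => ?_)) (h1.trans (add_le_add le_rfl hp3))
    have e : j + b - b = j := by omega
    show _ = P1 μ s N y (fun η S => F η S ∧ ∃ a ∈ Icc (j + b - 2 * (2 ^ i * T0)) (j + b),
      Hy μ s N y (c (j + b - b)) a (NoMeet (hi - b / 8) (a - 1)) x' η S)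
    rw [e]
    rfl
  -- one row
  have hrow : ∀ j ∈ JJ, P1 μ s N y (fun η S => F η S ∧ Hy μ s N y (c j) (j + b) (NoMeet (u j) (v j)) x η S ∧ Own j η S) ≤
      P1 μ s N y (SR μ s N y b hi (2 ^ 0 * T0) (j + b) (c j) x' F) +
      (∑ i ∈ range (I + 1), (ENNReal.ofReal ((L : ℝ) ^ ε' * (EE' μ s (2 ^ i * T0))⁻¹) *
          P1 μ s N y (SR μ s N y b hi (2 ^ i * T0) (j + b) (c j) x' F) + ENNReal.ofReal (Real.exp (-(L : ℝ) ^ cm))) +
        (ENNReal.ofReal ((L : ℝ) ^ ε' * (EE' μ s (2 ^ I * T0))⁻¹) * (ENNReal.ofReal ((L : ℝ) ^ ε' * (K * (EE' μ s l)⁻¹)) * P1 μ s N y F +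
          ENNReal.ofReal (Real.exp (-(L : ℝ) ^ cm))) + ENNReal.ofReal (Real.exp (-(L : ℝ) ^ cm)))) := by
    intro j hj
    obtain ⟨j1, j2⟩ := hJJ j hj
    obtain ⟨g0, g1, g2, g3⟩ := huv j hj
    refine (rowG (T0 := T0) (I := I) (j2.trans hiN) g0 g2 (by omega) (by omega) hT01 hx1 (Own j) F).trans
      (add_le_add ?_ (add_le_add (sum_le_sum fun i hi' => ?_) ?_))
    · exact A12.P1_mono fun η S hev => srG j2 (by clear * - g2 g3; omega) le_rfl hev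
    · have hiI : i ≤ I := by rw [mem_range] at hi'; omega
      have hTi := hTI i hiI
      refine (hOwn j hj (2 ^ i * T0) (hTR i) (by omega) _ (ms_and hF am_ms)
        (off_and (Pool.Agent.W_7d29a1_HZ.ZE.OffRows.mono36 (fun k hk => by
          rw [mem_Ioc] at hk ⊢
          clear * - hk hTi j1 j2 g1 g2 g3
          omega) hoff) (am_off (by clear * - hTi g0 g2 g3; omega) (j2.trans hiN) fun k hk => by
          rw [mem_Ioc] at hk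
          exact hk.1))).trans (add_le_add (mul_le_mul' le_rfl ?_) hp1)
      exact A12.P1_mono fun η S hev => srG j2 (by clear * - g2 g3; omega) (Nat.sub_le _ _) hev
    · have hTi := hTI I le_rfl
      have hT1 := hT0T I
      refine (hOwn j hj (2 ^ I * T0) (hTR I) (by omega) _ (ms_and hF bm_ms)
        (off_and (Pool.Agent.W_7d29a1_HZ.ZE.OffRows.mono36 (fun k hk => by
          rw [mem_Ioc] at hk ⊢
          clear * - hk hTi j1 j2 g1 g2 g3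
          omega) hoff) (bm_off (by clear * - g0 g3; omega) (by clear * - j2 hiN; omega) fun k hk => by
          rw [mem_Ioc] at hk
          clear * - hk hT1 hT01
          omega))).trans (add_le_add (mul_le_mul' le_rfl ?_) hp1)
      have hlv : (L : ℝ) ^ θ ≤ ((v j - u j : ℕ) : ℝ) := hlL.trans (by exact_mod_cast (show l ≤ v j - u j by omega))
      refine (hMic L hL2 N hLN hNL y hyN hcy2 (c j) (j + b - 2 * (2 ^ I * T0)) (u j) (v j) g0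
        (by clear * - g2 hTi; omega) (by clear * - j2 hiN; omega) hlv x' hx'2 F hF
        (Pool.Agent.W_7d29a1_HZ.ZE.OffRows.mono36 (fun k hk => by
          rw [mem_Ioo] at hk
          rw [mem_Ioc]
          clear * - hk j1 j2 g1 htop
          omega) hoff)).trans (add_le_add ?_ hp2)
      refine mul_le_mul' (ENNReal.ofReal_le_ofReal (mul_le_mul_of_nonneg_left ?_ (by positivity))) le_rfl
      have e3 := (hE l (v j - u j) hl1 (by omega)).1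
      rw [← div_eq_mul_inv, le_div_iff₀ (hE0 l), inv_mul_le_iff₀ (hE0 _)]
      linarith
  refine (asm15 (s := fun i => ENNReal.ofReal ((L : ℝ) ^ ε' * ((((2 ^ i * T0 : ℕ) : ℝ) + b * (EE' μ s b)⁻¹) * (EE' μ s b)⁻¹)))
    (r := fun i => ENNReal.ofReal ((L : ℝ) ^ ε' * (EE' μ s (2 ^ i * T0))⁻¹)) hrow hSlj).trans ?_
  have hfin := hnum L hL4 N b l T0 I JJ.card hNL (hbN.trans hiN) hl1
    ((card_of (by omega) fun j hj => (hJJ j hj).2).trans (hiN.trans hNL)) hT01 hT0b hIb hTI hTI2 (P1 μ s N y F)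
  have e9 : (3 : ℝ) * ε' = ε := by rw [hε']; ring
  rw [e9] at hfin
  exact hfin

/-- **THE DOUBLE TIE, SUMMED OVER A STRETCH**: the micro replica of the block `[c j, j + b)` misses the path on `[u j, v j]`, the own replica of
the block `[co j, z j)` misses it on `[ou j, j + b]`. Given every event which does not see the rows `(lo, top]`. -/
theorem siteG (h : In μ s c₀ C₀ n₀) : ∀ ε θ : ℝ, 0 < ε → 0 < θ → ∃ δ κ c₂ : ℝ, 0 < δ ∧ 0 < κ ∧ 0 < c₂ ∧ ∃ L₀ : ℕ, ∀ L : ℕ, L₀ ≤ L →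
    ∀ N : ℕ, L ≤ 16 * N → N ≤ L → ∀ y : ℕ, y ≤ N → |(y : ℝ) - sl μ s * N| ≤ ((L : ℝ) ^ δ * wd' μ s N) →
    ∀ b l lo hi top : ℕ, (L : ℝ) ^ θ ≤ b → (L : ℝ) ^ θ ≤ l → hi ≤ top → top ≤ N →
    ∀ JJ : Finset ℕ, (∀ j ∈ JJ, hi < j + b + b / 64 ∧ j + b ≤ hi) →
    ∀ c u v co ou z : ℕ → ℕ, (∀ j ∈ JJ, c j ≤ u j ∧ lo ≤ u j ∧ v j ≤ j + b / 2 ∧ u j + l ≤ v j) →
    (∀ j ∈ JJ, co j ≤ j ∧ ou j + b / 4 ≤ j + b ∧ j + b ≤ z j ∧ z j ≤ top) → ∀ x : ℝ, x ≤ (L : ℝ) ^ κ →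
    ∀ F : Env → Finset ℕ → Prop, Ms F → OffRows (Ioc lo top) F →
    ∑ j ∈ JJ, P1 μ s N y (fun η S => F η S ∧ Hy μ s N y (c j) (j + b) (NoMeet (u j) (v j)) x η S ∧
        Hy μ s N y (co j) (z j) (NoMeet (ou j) (j + b)) x η S) ≤
      ENNReal.ofReal ((L : ℝ) ^ ε * ((b * (EE' μ s b)⁻¹ + JJ.card * (EE' μ s l)⁻¹) * (EE' μ s b)⁻¹)) * P1 μ s N y F +
        ENNReal.ofReal (Real.exp (-(L : ℝ) ^ c₂)) := by
  intro ε θ hε hθ
  obtain ⟨ε', θ', hε', hθ', -, hC⟩ := site_coreG h ε θ hε hθ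
  obtain ⟨δ₁, κ₁, c₁, hδ₁, hκ₁, hc₁, L₁, hOwn⟩ := one_clR h ε' θ' hε' hθ'
  obtain ⟨δ₂, κ₂, c₂, hδ₂, hκ₂, hc₂, L₂, hP⟩ := hC c₁ hc₁
  refine ⟨min δ₁ δ₂, min κ₁ κ₂, c₂, lt_min hδ₁ hδ₂, lt_min hκ₁ hκ₂, hc₂, L₁ + L₂ + 1, ?_⟩
  intro L hL N hLN hNL y hyN hyc b l lo hi top hbL hlL htop htN JJ hJJ c u v co ou z huv hoz x hx F hF hoff
  have hLR : (1 : ℝ) ≤ L := by exact_mod_cast (show 1 ≤ L by omega)
  have hwd : ∀ n, 0 < wd' μ s n := fun n => lt_of_lt_of_le zero_lt_one (le_max_left _ _)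
  have hcone : ∀ δ', min δ₁ δ₂ ≤ δ' → |(y : ℝ) - sl μ s * N| ≤ ((L : ℝ) ^ δ' * wd' μ s N) := fun δ' hδ' =>
    hyc.trans (mul_le_mul_of_nonneg_right (Real.rpow_le_rpow_of_exponent_le hLR hδ') (hwd N).le)
  have hx' : ∀ κ', min κ₁ κ₂ ≤ κ' → x ≤ (L : ℝ) ^ κ' := fun κ' hκ' => hx.trans (Real.rpow_le_rpow_of_exponent_le hLR hκ')
  refine hP L (by omega) N hLN hNL y hyN (hcone _ (min_le_right _ _)) b l lo hi top hbL hlL htop (htop.trans htN) JJ hJJ c u v huv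
    (fun j => Hy μ s N y (co j) (z j) (NoMeet (ou j) (j + b)) x) (fun j hj T hT hTb G hG hGo => ?_) x (hx' _ (min_le_right _ _)) F hF hoff
  obtain ⟨h1, h2, h3, h4⟩ := hoz j hj
  have hT1 : (0 : ℝ) < T := lt_of_lt_of_le (Real.rpow_pos_of_pos (by linarith) _) hT
  have hT1' : 0 < T := by exact_mod_cast hT1
  have e1 : j + b - (j + b - T) = T := by omega
  have h5 := hOwn L (by omega) N hLN hNL y hyN (hcone _ (min_le_left _ _)) (co j) (z j) (j + b - T) (j + b) (by omega) h3 (h4.trans htN)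
    (by rw [e1]; exact hT) x (hx' _ (min_le_left _ _)) G hG (Pool.Agent.W_7d29a1_HZ.ZE.OffRows.mono36 (fun k hk => by
      rw [mem_Ioo] at hk
      rw [mem_Ioc]
      omega) hGo)
  rw [e1] at h5
  refine le_trans (A12.P1_mono fun η S hev => ⟨hev.1, hy_mono (fun S' _ _ hm k hk1 hk2 => hm k ?_ hk2) hev.2⟩) h5
  omega

end Pool.Agent.W_7d29a1_C0.Dg11
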