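import Pool.Agent.W_7d29a1_C0.Lam86B
import Pool.Agent.W_7d29a1_C0.Near86

/-!
C0, helper86: THE GENERAL PRICE, final form. Unions of families of places (`PFam.union`), the product for families with any polynomial
number of near ties (`lam_mainX`).
-/

set_option autoImplicit false

namespace Pool.Agent.W_7d29a1_C0.P86

open MeasureTheory ProbabilityTheory Filter Topology Finset
open Pool.Agent.W_7d29a1_F Pool.Agent.W_7d29a1_X Pool.Agent.W_7d29a1_h4g Pool.Agent.W_7d29a1_H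
open Pool.Agent.W_7d29a1_HS (In wd md)
open Pool.Agent.W_7d29a1_HZ Pool.Agent.W_7d29a1_HZ.R72 Pool.Agent.W_7d29a1_Z.Asm72
open Pool.Agent.W_7d29a1_HZ.Z86
open Pool.Agent.W_7d29a1_C0.Mod92 (Px Pn lw ps pJ ne_Pn ps_Pn pos_card ps_of_le ps_of_ge)
open Pool.W7d29a1.C0 (gm gz gz_pos)
open Pool.W7d29a1.C0.VT31 (Mp cE gm_mul_cE fz cE_sum)
open scoped ENNReal

variable {μ : Measure ℝ} {s : ℝ} {N : ℕ}
variable [IsProbabilityMeasure μ] {c₀ C₀ : ℝ} {n₀ : ℕ}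

/-! ### The product for families -/

/-- **THE PRICE FOR FAMILIES OF PLACES**, amplified form; families of at most `L ^ m` near ties. -/
theorem lam_mainX (k m : ℕ) {c₁ : ℝ} (hc₁ : 0 < c₁) : ∃ κ c₂ : ℝ, 0 < κ ∧ 0 < c₂ ∧ ∃ L₀ : ℕ, ∀ L : ℕ, L₀ ≤ L → ∀ N y : ℕ, N ≤ L → y ≤ N →
    ∀ (R : Fin k → ℝ≥0∞) (c d : Fin k → ℕ) (A : Fin k → Finset ℕ → Finset ℕ → Prop) (Jf : Fin k → Finset ℕ)
      (Ob : Fin k → Finset (Finset ℕ)) (V : Fin k → Finset ℕ),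
    (∀ i, PFam μ s N y (R i) (ENNReal.ofReal ((L : ℝ) ^ m)) (ENNReal.ofReal (Real.exp (-(L : ℝ) ^ c₁))) (c i) (d i) (A i) (Jf i) (Ob i)
      (V i)) → (∀ i i', i < i' → V i' ∈ Ob i) → (∀ i, c i ≤ d i ∧ d i ≤ N) →
    ∀ h : Fin k → Env → Finset ℕ → ℝ≥0∞, (∀ i η S, h i η S ≤ 1) →
    (∀ i η S, h i η S ≤ ENNReal.ofReal (Real.exp ((L : ℝ) ^ κ)) * ENNReal.ofReal (mc μ s N y (c i) (d i) (A i) η S)) →
    ∀ f : Env → Finset ℕ → ℝ≥0∞, (∀ S, Measurable fun η => f η S) → (∀ η S, f η S ≤ 1) → (∀ i, OffW (Jf i) f) →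
    Q1 μ s N y (fun η S => f η S * ∏ i, h i η S) ≤ (∏ i, R i) * Q1 μ s N y f + ENNReal.ofReal (Real.exp (-(L : ℝ) ^ c₂)) := by
  obtain ⟨c₂, hc₂, -, L₂, hX⟩ := Pool.Agent.W_7d29a1_Z.NumI77.pow_exp (show 0 < c₁ / 4 by positivity) (m * k + (m + 6))
  obtain ⟨L₃, hL₃⟩ := Pool.Agent.W_7d29a1_Z.NumI77.large (show 0 < c₁ / 4 by positivity) 4
  refine ⟨c₁ / 4, c₂, by positivity, hc₂, L₂ + L₃ + 10 * k + 100, ?_⟩
  intro L hL N y hNL hyN R c d A Jf Ob V hP hOb hcd h hh1 hhm f hf hf1 hfo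
  have hL100 : (100 : ℝ) ≤ L := by exact_mod_cast (show 100 ≤ L by omega)
  have hL0 : (0 : ℝ) < L := by linarith
  have hkL : 10 * (k : ℝ) ≤ L := by exact_mod_cast (show 10 * k ≤ L by omega)
  set x : ℝ := (L : ℝ) ^ (c₁ / 4) with hx
  obtain ⟨-, hx4, -⟩ := hL₃ L (by omega)
  rw [← hx] at hx4
  have hxx : (L : ℝ) ^ c₁ = x ^ 4 := by
    rw [hx, ← Real.rpow_natCast, ← Real.rpow_mul hL0.le]
    congr 1
    push_cast
    ring
  refine (lam_coreG hyN hP hOb hcd hh1 hhm hf hf1 hfo (2 * x)).trans ?_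
  rw [add_assoc]
  refine add_le_add le_rfl ?_
  have hk' : (k : ℝ≥0∞) = ENNReal.ofReal k := by rw [ENNReal.ofReal_natCast]
  have e1 : ENNReal.ofReal ((L : ℝ) ^ m) ^ k * (k * ENNReal.ofReal (Real.exp (-(L : ℝ) ^ c₁))) =
      ENNReal.ofReal (((L : ℝ) ^ m) ^ k * (k * Real.exp (-(L : ℝ) ^ c₁))) := by
    rw [hk', ENNReal.ofReal_mul (by positivity), ENNReal.ofReal_mul (Nat.cast_nonneg k),
      ENNReal.ofReal_pow (show (0 : ℝ) ≤ (L : ℝ) ^ m by positivity) k]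
  have e2 : ENNReal.ofReal (Real.exp x) * (k * (ENNReal.ofReal (Real.exp (2 * x)) * (ENNReal.ofReal ((L : ℝ) ^ m) *
      ENNReal.ofReal (Real.exp (-(L : ℝ) ^ c₁))) + ENNReal.ofReal (((N : ℝ) + 1) ^ 2 * Real.exp (-(2 * x))))) =
      ENNReal.ofReal (Real.exp x * (k * (Real.exp (2 * x) * ((L : ℝ) ^ m * Real.exp (-(L : ℝ) ^ c₁)) +
        ((N : ℝ) + 1) ^ 2 * Real.exp (-(2 * x))))) := by
    rw [hk', ENNReal.ofReal_mul (Real.exp_pos x).le, ENNReal.ofReal_mul (Nat.cast_nonneg k),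
      ENNReal.ofReal_add (by positivity) (by positivity), ENNReal.ofReal_mul (Real.exp_pos (2 * x)).le,
      ENNReal.ofReal_mul (show (0 : ℝ) ≤ (L : ℝ) ^ m by positivity)]
  rw [e1, e2, ← ENNReal.ofReal_add (by positivity) (by positivity)]
  refine ENNReal.ofReal_le_ofReal ?_
  have h5 := hX L (by omega)
  rw [← hx, Real.rpow_add hL0] at h5
  have e4 : (L : ℝ) ^ ((m : ℝ) + 6) = (L : ℝ) ^ m * (L : ℝ) ^ 6 := by
    rw [Real.rpow_add hL0, Real.rpow_natCast]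
    congr 1
    rw [← Real.rpow_natCast]
    norm_num
  have e5 : (L : ℝ) ^ ((m : ℝ) * (k : ℝ)) = ((L : ℝ) ^ m) ^ k := by
    rw [Real.rpow_mul hL0.le, Real.rpow_natCast, Real.rpow_natCast]
  rw [e4, e5] at h5
  refine le_trans ?_ h5
  set K : ℝ := ((L : ℝ) ^ m) ^ k with hK
  set Z : ℝ := (L : ℝ) ^ m with hZ
  have hZ1 : 1 ≤ Z := one_le_pow₀ (by linarith)
  have hK1 : 1 ≤ K := one_le_pow₀ hZ1
  have hE : Real.exp (-(L : ℝ) ^ c₁) ≤ Real.exp (-(4 * x)) := by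
    rw [Real.exp_le_exp, hxx]
    have : 4 * x ≤ x ^ 4 := by
      have h1 : (16 : ℝ) ≤ x ^ 3 := by nlinarith [sq_nonneg x]
      nlinarith
    linarith
  have hx0 : 0 ≤ x := by linarith
  have hNL' : (N : ℝ) ≤ L := by exact_mod_cast hNL
  have hN0 : (0 : ℝ) ≤ N := Nat.cast_nonneg N
  have hk0 : (0 : ℝ) ≤ k := Nat.cast_nonneg k
  have hp0 := (Real.exp_pos (-x)).le
  have t1 : K * (k * Real.exp (-(L : ℝ) ^ c₁)) ≤ K * (L * Real.exp (-x)) := by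
    refine mul_le_mul_of_nonneg_left (mul_le_mul (by linarith) (hE.trans (Real.exp_le_exp.2 (by linarith))) (Real.exp_pos _).le hL0.le)
      (by linarith)
  have t2 : Real.exp x * (k * (Real.exp (2 * x) * ((L : ℝ) ^ m * Real.exp (-(L : ℝ) ^ c₁)) + ((N : ℝ) + 1) ^ 2 * Real.exp (-(2 * x)))) ≤
      L * (Z + 4 * (L : ℝ) ^ 2) * Real.exp (-x) := by
    have g1 : Real.exp x * (Real.exp (2 * x) * Real.exp (-(L : ℝ) ^ c₁)) ≤ Real.exp (-x) := by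
      refine (mul_le_mul_of_nonneg_left (mul_le_mul_of_nonneg_left hE (Real.exp_pos _).le) (Real.exp_pos x).le).trans (le_of_eq ?_)
      rw [← Real.exp_add, ← Real.exp_add]
      congr 1
      ring
    have g2 : Real.exp x * Real.exp (-(2 * x)) = Real.exp (-x) := by
      rw [← Real.exp_add]
      congr 1
      ring
    have g3 : ((N : ℝ) + 1) ^ 2 ≤ 4 * (L : ℝ) ^ 2 := by nlinarith
    calc _ = k * (Z * (Real.exp x * (Real.exp (2 * x) * Real.exp (-(L : ℝ) ^ c₁))) +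
          ((N : ℝ) + 1) ^ 2 * (Real.exp x * Real.exp (-(2 * x)))) := by ring
      _ ≤ L * (Z * Real.exp (-x) + 4 * (L : ℝ) ^ 2 * Real.exp (-x)) := by
          refine mul_le_mul (by linarith) ?_ (by positivity) hL0.le
          refine add_le_add (mul_le_mul_of_nonneg_left g1 (by positivity)) ?_
          rw [g2]
          exact mul_le_mul_of_nonneg_right g3 hp0
      _ = _ := by ring
  refine (add_le_add t1 t2).trans ?_
  have h6 : L * (Z + 4 * (L : ℝ) ^ 2) * Real.exp (-x) ≤ K * (Z * (5 * (L : ℝ) ^ 3) * Real.exp (-x)) := by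
    have g1 : L * (Z + 4 * (L : ℝ) ^ 2) ≤ Z * (5 * (L : ℝ) ^ 3) := by
      have a1 : (L : ℝ) ≤ (L : ℝ) ^ 3 := by nlinarith [sq_nonneg (L : ℝ)]
      have a2 : L * Z ≤ Z * (L : ℝ) ^ 3 := by
        rw [mul_comm]
        exact mul_le_mul_of_nonneg_left a1 (by linarith)
      have a3 : 1 * (4 * (L : ℝ) ^ 3) ≤ Z * (4 * (L : ℝ) ^ 3) := mul_le_mul_of_nonneg_right hZ1 (by positivity)
      have a4 : L * (Z + 4 * (L : ℝ) ^ 2) = L * Z + 1 * (4 * (L : ℝ) ^ 3) := by ring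
      have a5 : Z * (5 * (L : ℝ) ^ 3) = Z * (L : ℝ) ^ 3 + Z * (4 * (L : ℝ) ^ 3) := by ring
      linarith
    have g2 : 1 * (Z * (5 * (L : ℝ) ^ 3) * Real.exp (-x)) ≤ K * (Z * (5 * (L : ℝ) ^ 3) * Real.exp (-x)) :=
      mul_le_mul_of_nonneg_right hK1 (by positivity)
    have g3 := mul_le_mul_of_nonneg_right g1 hp0
    linarith
  have h7' : (L : ℝ) + Z * (5 * (L : ℝ) ^ 3) ≤ Z * (L : ℝ) ^ 6 := by
    have h7 : (L : ℝ) + 5 * (L : ℝ) ^ 3 ≤ (L : ℝ) ^ 6 := by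
      have a1 : (L : ℝ) ≤ (L : ℝ) ^ 3 := by nlinarith [sq_nonneg (L : ℝ)]
      have a2 : 6 * (L : ℝ) ^ 3 ≤ (L : ℝ) ^ 3 * (L : ℝ) ^ 3 := mul_le_mul_of_nonneg_right (by nlinarith [sq_nonneg (L : ℝ)]) (by positivity)
      have a3 : (L : ℝ) ^ 3 * (L : ℝ) ^ 3 = (L : ℝ) ^ 6 := by ring
      linarith
    have g1 : 1 * (L : ℝ) ≤ Z * L := mul_le_mul_of_nonneg_right hZ1 hL0.le
    have g2 := mul_le_mul_of_nonneg_left h7 (show 0 ≤ Z by linarith)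
    linarith
  calc _ ≤ K * (L * Real.exp (-x)) + K * (Z * (5 * (L : ℝ) ^ 3) * Real.exp (-x)) := add_le_add le_rfl h6
    _ = K * ((L + Z * (5 * (L : ℝ) ^ 3)) * Real.exp (-x)) := by ring
    _ ≤ K * (Z * (L : ℝ) ^ 6 * Real.exp (-x)) := mul_le_mul_of_nonneg_left (mul_le_mul_of_nonneg_right h7' hp0) (by linarith)
    _ = _ := by ring

/-! ### Unions of families -/

omit [IsProbabilityMeasure μ] in
/-- **The union of families of places.** -/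
theorem PFam.union {N y : ℕ} {M : ℕ} {R X : ℕ → ℝ≥0∞} {pe : ℝ≥0∞} {c d : ℕ} {B : ℕ → Finset ℕ → Finset ℕ → Prop} {Jf : Finset ℕ}
    {Ob : Finset (Finset ℕ)} {V : Finset ℕ} (h : ∀ n, n < M → PFam μ s N y (R n) (X n) pe c d (B n) Jf Ob V)
    {A : Finset ℕ → Finset ℕ → Prop}
    (hA : ∀ S S', S ⊆ range N → S' ⊆ range N → pos S N = y → pos S' N = y → (∀ j, j ≤ c ∨ d ≤ j → pos S j = pos S' j) →
      A S S' → ∃ n < M, B n S S') :
    PFam μ s N y (∑ n ∈ range M, R n) (∑ n ∈ range M, X n) pe c d A Jf Ob V := by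
  classical
  have h' : ∀ n, ∃ (P : Finset (ℕ × ℕ)) (r : ℕ × ℕ → ℝ≥0∞) (B' : ℕ × ℕ → Finset ℕ → Finset ℕ → Prop) (J : ℕ × ℕ → Finset ℕ),
      n < M → ((∀ p ∈ P, Pl μ s N y (r p) pe (B' p) (J p) V) ∧
      (∀ S S', S ⊆ range N → S' ⊆ range N → pos S N = y → pos S' N = y → (∀ j, j ≤ c ∨ d ≤ j → pos S j = pos S' j) →
        B n S S' → ∃ p ∈ P, B' p S S') ∧ (∀ p, On2 c d (B' p)) ∧ ∑ p ∈ P, r p ≤ R n ∧ (P.card : ℝ≥0∞) ≤ X n ∧
      ∀ p ∈ P, J p ⊆ Jf ∧ ∀ O ∈ Ob, Disjoint (J p) O) := by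
    intro n
    by_cases hn : n < M
    · obtain ⟨P, r, B', J, g⟩ := h n hn
      exact ⟨P, r, B', J, fun _ => g⟩
    · exact ⟨∅, fun _ => 0, fun _ _ _ => False, fun _ => ∅, fun g => absurd g hn⟩
  choose P r B' J g using h'
  set e : ℕ → ℕ × ℕ → ℕ × ℕ := fun n p => (n, Nat.pair p.1 p.2) with he
  have hinj : ∀ n, Function.Injective (e n) := by
    intro n p p' hp
    have h1 : Nat.pair p.1 p.2 = Nat.pair p'.1 p'.2 := congrArg Prod.snd hp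
    rw [Nat.pair_eq_pair] at h1
    exact Prod.ext h1.1 h1.2
  have hun : ∀ n (p : ℕ × ℕ), Nat.unpair (e n p).2 = p := fun n p => by
    show Nat.unpair (Nat.pair p.1 p.2) = p
    rw [Nat.unpair_pair]
  have hfst : ∀ n (p : ℕ × ℕ), (e n p).1 = n := fun n p => rfl
  set PP : Finset (ℕ × ℕ) := (range M).biUnion fun n => (P n).image (e n) with hPP
  have hmem : ∀ q, q ∈ PP ↔ ∃ n < M, ∃ p ∈ P n, q = e n p := by
    intro q
    simp only [hPP, mem_biUnion, mem_range, mem_image]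
    constructor
    · rintro ⟨n, hn, p, hp, rfl⟩
      exact ⟨n, hn, p, hp, rfl⟩
    · rintro ⟨n, hn, p, hp, rfl⟩
      exact ⟨n, hn, p, hp, rfl⟩
  have hdis : (↑(range M) : Set ℕ).PairwiseDisjoint fun n => (P n).image (e n) := by
    intro n _ n' _ hnn
    rw [Function.onFun, disjoint_left]
    intro q hq hq'
    obtain ⟨p, -, rfl⟩ := mem_image.1 hq
    obtain ⟨p', -, h2⟩ := mem_image.1 hq'
    exact hnn (congrArg Prod.fst h2).symm
  refine ⟨PP, fun q => r q.1 (Nat.unpair q.2), fun q => if q.1 < M then B' q.1 (Nat.unpair q.2) else fun _ _ => False,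
    fun q => J q.1 (Nat.unpair q.2), fun q hq => ?_, fun S S' k1 k2 k3 k4 k5 k6 => ?_, fun q => ?_, ?_, ?_, fun q hq => ?_⟩
  · obtain ⟨n, hn, p, hp, rfl⟩ := (hmem q).1 hq
    simp only [hun, hfst, if_pos hn]
    exact (g n hn).1 p hp
  · obtain ⟨n, hn, hb⟩ := hA S S' k1 k2 k3 k4 k5 k6
    obtain ⟨p, hp, hb'⟩ := (g n hn).2.1 S S' k1 k2 k3 k4 k5 hb
    refine ⟨e n p, (hmem _).2 ⟨n, hn, p, hp, rfl⟩, ?_⟩
    simp only [hun, hfst, if_pos hn]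
    exact hb'
  · by_cases hn : q.1 < M
    · simp only [if_pos hn]
      exact (g q.1 hn).2.2.1 _
    · simp only [if_neg hn]
      exact fun S S' S'' _ => Iff.rfl
  · rw [hPP, sum_biUnion hdis]
    refine sum_le_sum fun n hn => ?_
    rw [sum_image fun p _ p' _ hp => hinj n hp]
    simp only [hun, hfst]
    exact (g n (mem_range.1 hn)).2.2.2.1
  · rw [hPP, card_biUnion fun n hn n' hn' hnn => hdis hn hn' hnn]
    push_cast
    refine sum_le_sum fun n hn => ?_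
    rw [card_image_of_injective _ (hinj n)]
    exact (g n (mem_range.1 hn)).2.2.2.2.1
  · obtain ⟨n, hn, p, hp, rfl⟩ := (hmem q).1 hq
    simp only [hun, hfst]
    exact (g n hn).2.2.2.2.2 p hp

omit [IsProbabilityMeasure μ] in
/-- The total price and the number of near ties may be enlarged. -/
theorem PFam.mono {N y : ℕ} {R R' X X' pe : ℝ≥0∞} {c d : ℕ} {A A' : Finset ℕ → Finset ℕ → Prop} {Jf Jf' : Finset ℕ}
    {Ob : Finset (Finset ℕ)} {V : Finset ℕ} (h : PFam μ s N y R X pe c d A Jf Ob V) (hR : R ≤ R') (hX : X ≤ X')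
    (hA : ∀ S S', S ⊆ range N → S' ⊆ range N → pos S N = y → pos S' N = y → (∀ j, j ≤ c ∨ d ≤ j → pos S j = pos S' j) →
      A' S S' → A S S') (hJ : Jf ⊆ Jf') : PFam μ s N y R' X' pe c d A' Jf' Ob V := by
  obtain ⟨P, r, B, J, h1, h2, h3, h4, h5, h6⟩ := h
  exact ⟨P, r, B, J, h1, fun S S' k1 k2 k3 k4 k5 k6 => h2 S S' k1 k2 k3 k4 k5 (hA S S' k1 k2 k3 k4 k5 k6), h3, h4.trans hR, h5.trans hX,
    fun p hp => ⟨(h6 p hp).1.trans hJ, (h6 p hp).2⟩⟩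

omit [IsProbabilityMeasure μ] in
/-- The gap seen from its left end: the scale `2 ^ m D` with the left end within `12` of these lengths of the place `[v - 2 ^ m D, v)`. -/
theorem gap_coverN {c d u v D : ℕ} (hD : 1 ≤ D) (hl : 4 * D ≤ v - u) {S S' : Finset ℕ} (h : Gap c d u v S S') :
    ∃ m : ℕ, c < v - 2 ^ m * D ∧ Gpn c d (2 ^ m * D) (v - 2 ^ m * D) S S' := by
  classical
  obtain ⟨a₀, b', h1, h2, h3, h4, h5, h6, h7⟩ := h
  obtain ⟨a, ha⟩ : ∃ a, a = Nat.findGreatest (fun k => pos S k = pos S' k) u := ⟨_, rfl⟩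
  have ha1 : pos S a = pos S' a := by
    rw [ha]
    exact Nat.findGreatest_spec (P := fun k => pos S k = pos S' k) h2 h5
  have ha2 : a₀ ≤ a := by
    rw [ha]
    exact Nat.le_findGreatest h2 h5
  have ha3 : a ≤ u := by
    rw [ha]
    exact Nat.findGreatest_le _
  have ha4 : ∀ k, a < k → k ≤ v → pos S k ≠ pos S' k := by
    intro k hk1 hk2
    by_cases hk : k ≤ u
    · rw [ha] at hk1
      exact Nat.findGreatest_is_greatest hk1 hk
    · exact h7 k (by omega) hk2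
  have hex : ∃ m : ℕ, v ≤ a + 13 * (2 ^ m * D) := by
    refine ⟨v, ?_⟩
    have e1 : v < 2 ^ v := Nat.lt_two_pow_self
    have e2 : 2 ^ v * 1 ≤ 2 ^ v * D := Nat.mul_le_mul_left _ hD
    omega
  obtain ⟨m, hm⟩ : ∃ m, m = Nat.find hex := ⟨_, rfl⟩
  have hm1 : v ≤ a + 13 * (2 ^ m * D) := by
    rw [hm]
    exact Nat.find_spec hex
  have hm2 : a < v - 2 ^ m * D := by
    rcases Nat.eq_zero_or_pos m with h0 | h0
    · rw [h0, pow_zero, one_mul]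
      omega
    · obtain ⟨m', hm'⟩ := Nat.exists_eq_succ_of_ne_zero h0.ne'
      have e1 : ¬ v ≤ a + 13 * (2 ^ m' * D) := Nat.find_min hex (by omega)
      have e2 : 2 ^ m * D = 2 * (2 ^ m' * D) := by
        rw [hm', Nat.succ_eq_add_one, pow_succ]
        ring
      have e3 : 2 ^ m' * 1 ≤ 2 ^ m' * D := Nat.mul_le_mul_left _ hD
      have e4 : 0 < 2 ^ m' := by positivity
      omega
  have hp : 1 ≤ 2 ^ m * D := Nat.mul_pos (by positivity) hD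
  refine ⟨m, by omega, a, b', by omega, by omega, by omega, h4, Or.inl (by omega), ha1, h6, fun k hk1 hk2 => ha4 k (by omega) (by omega)⟩

/-- **Type M**: the windows are in the rows `(c', v)`. -/
theorem pf_left (h : In μ s c₀ C₀ n₀) : ∀ ε θ : ℝ, 0 < ε → 0 < θ → ∃ δ c₁ : ℝ, 0 < δ ∧ 0 < c₁ ∧ ∃ L₀ : ℕ,
    ∀ L : ℕ, L₀ ≤ L → ∀ N : ℕ, L ≤ 16 * N → N ≤ L → ∀ y : ℕ, y ≤ N → |(y : ℝ) - sl μ s * N| ≤ ((L : ℝ) ^ δ * wd' μ s N) →
    ∀ c d c' d' u v : ℕ, c ≤ c' → c' ≤ u → v ≤ d' → d' ≤ d → d ≤ N → (L : ℝ) ^ θ ≤ ((v - u : ℕ) : ℝ) →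
    ∀ Ob : Finset (Finset ℕ), (∀ O ∈ Ob, Disjoint (Ioo c' v) O) →
    ∀ A : Finset ℕ → Finset ℕ → Prop,
    (∀ S S', S ⊆ range N → S' ⊆ range N → pos S N = y → pos S' N = y → (∀ j, j ≤ c ∨ d ≤ j → pos S j = pos S' j) →
      A S S' → Gap c' d' u v S S') →
    PFam μ s N y (ENNReal.ofReal ((L : ℝ) ^ ε * (EE' μ s (v - u))⁻¹)) (ENNReal.ofReal ((L : ℝ) ^ 2))
      (ENNReal.ofReal (Real.exp (-(L : ℝ) ^ c₁))) c d A (Ioo c' v) Ob (Icc c' d') := by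
  intro ε θ hε hθ
  obtain ⟨L₀, hnum⟩ := price_sum h ε θ hε hθ
  obtain ⟨δ, c₁, hδ, hc₁, L₁, hP⟩ := pl_near86 h (ε / 2) (θ / 2) (by positivity) (by positivity)
  refine ⟨δ, c₁, hδ, hc₁, L₀ + L₁ + 100, ?_⟩
  intro L hL N hLN hNL y hyN hyc c d c' d' u v hb1 hb2 hb3 hb4 hb5 hlen Ob hO A hA
  have hL10 : (100 : ℝ) ≤ L := by exact_mod_cast (show 100 ≤ L by omega)
  have hL0 : (0 : ℝ) < L := by linarith
  have hy0 : (0 : ℤ) ≤ y := by positivity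
  have hyN' : (y : ℤ) ≤ N := by exact_mod_cast hyN
  have hyc' : |((y : ℤ) : ℝ) - sl μ s * N| ≤ ((L : ℝ) ^ δ * wd' μ s N) := by
    push_cast
    exact hyc
  obtain ⟨D, hD⟩ : ∃ D : ℕ, D = (v - u) / 4 := ⟨_, rfl⟩
  obtain ⟨n1, n2, n3⟩ := hnum L (by omega) N (v - u) D hNL hlen (by omega) hD
  have huv : u < v := by omega
  set tt : ℕ × ℕ → ℕ := fun p => 2 ^ p.1 * D with htt
  set ta : ℕ × ℕ → ℕ := fun p => v - tt p with hta
  set P : Finset (ℕ × ℕ) := (range (Nat.log 2 N + 1) ×ˢ range 65).filter fun p => c' < ta p with hPd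
  have hPm : ∀ p ∈ P, c' < ta p := fun p hp => (mem_filter.1 hp).2
  have hPt : ∀ p ∈ P, ta p + tt p = v := fun p hp => by
    have h1 : c' < v - tt p := hPm p hp
    show v - tt p + tt p = v
    omega
  have hE0 : ∀ t, 0 < EE' μ s t := fun t => lt_of_lt_of_le zero_lt_one (le_max_left _ _)
  refine ⟨P, fun p => ENNReal.ofReal ((L : ℝ) ^ (ε / 2) * (EE' μ s (tt p))⁻¹), fun p => Gpn c' d' (tt p) (ta p),
    fun p => Ico (ta p) (ta p + tt p), fun p hp => ?_, fun S S' g1 g2 g3 g4 g5 g6 => ?_, fun p => ?_, ?_, ?_, fun p hp => ?_⟩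
  · have g1 := hPm p hp
    have g2 := hPt p hp
    refine Pl.mono_V (hP L (by omega) N (tt p) hLN hNL (n1 p.1) (by omega) y hy0 hyN' hyc' (ta p) c' d' (by omega)) ?_
    exact Ioc_subset_Icc_self
  · obtain ⟨m, q1, q2⟩ := gap_coverN (D := D) n2 (by omega) (hA S S' g1 g2 g3 g4 g5 g6)
    refine ⟨(m, 0), mem_filter.2 ⟨?_, q1⟩, q2⟩
    rw [mem_product, mem_range, mem_range]
    refine ⟨?_, by norm_num⟩
    have h2 : 2 ^ m * 1 ≤ 2 ^ m * D := Nat.mul_le_mul_left _ n2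
    have h3 : m ≤ Nat.log 2 N := Nat.le_log_of_pow_le (by norm_num) (by omega)
    show m < Nat.log 2 N + 1
    omega
  · exact On2.mono (gpn_on2 _ _ _ _) hb1 hb4
  · refine (sum_le_sum_of_subset (filter_subset _ _)).trans ?_
    rw [← ENNReal.ofReal_sum_of_nonneg fun p _ => by have := hE0 (tt p); positivity]
    exact ENNReal.ofReal_le_ofReal n3
  · have h1 : P.card ≤ (Nat.log 2 N + 1) * 65 := by
      refine (card_filter_le _ _).trans ?_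
      rw [card_product, card_range, card_range]
    have h2 : Nat.log 2 N ≤ N := Nat.log_le_self 2 N
    have h3 : (Nat.log 2 N + 1) * 65 ≤ L ^ 2 := by
      have h4 : (Nat.log 2 N + 1) * 65 ≤ (L + 1) * 65 := Nat.mul_le_mul_right 65 (by omega)
      nlinarith
    rw [← ENNReal.ofReal_natCast]
    refine ENNReal.ofReal_le_ofReal ?_
    exact_mod_cast h1.trans h3
  · have g1 := hPm p hp
    have g2 := hPt p hp
    have g3 : Ico (ta p) (ta p + tt p) ⊆ Ioo c' v := fun a ha => by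
      rw [mem_Ico] at ha
      rw [mem_Ioo]
      omega
    exact ⟨g3, fun O ho => disjoint_of_subset_left g3 (hO O ho)⟩

/-! ### Places with several windows (robust form) -/

omit [IsProbabilityMeasure μ] in
/-- **The types of a place** with the tie block `[c', d']`, the region `[U, V]` of the windows, windows of length at least `l`: `Jf` are the
rows used by the price, `Ob` the rows seen by the later places. L: the obstacles are outside of the tie block, or short and outside of the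
region; R: no obstacle meets `(U, d')`; M: no obstacle meets `(c', V)`. -/
def PlT (Jf : Finset ℕ) (c' d' U V l : ℕ) (Ob : Finset (Finset ℕ)) : Prop :=
  (Jf = Ioo c' d' ∧ ∀ O ∈ Ob, Disjoint (Ioo c' d') O ∨ ∃ p q, O ⊆ Icc p q ∧ (q ≤ U ∨ V ≤ p) ∧ 4 * (q - p) ≤ l) ∨
    (Jf = Ioo U d' ∧ ∀ O ∈ Ob, Disjoint (Ioo U d') O) ∨ (Jf = Ioo c' V ∧ ∀ O ∈ Ob, Disjoint (Ioo c' V) O)

/-- **A place of any type, with several windows.** -/
theorem pf_place (h : In μ s c₀ C₀ n₀) : ∀ ε θ : ℝ, 0 < ε → 0 < θ → ∃ δ c₁ : ℝ, 0 < δ ∧ 0 < c₁ ∧ ∃ L₀ : ℕ,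
    ∀ L : ℕ, L₀ ≤ L → ∀ N : ℕ, L ≤ 16 * N → N ≤ L → ∀ y : ℕ, y ≤ N → |(y : ℝ) - sl μ s * N| ≤ ((L : ℝ) ^ δ * wd' μ s N) →
    ∀ c d c' d' U V l M : ℕ, c ≤ c' → c' ≤ U → V ≤ d' → d' ≤ d → d ≤ N → (L : ℝ) ^ θ ≤ l → ∀ u v : ℕ → ℕ,
    (∀ n, n < M → U ≤ u n ∧ u n + l ≤ v n ∧ v n ≤ V) → (M : ℝ) ≤ (L : ℝ) ^ (ε / 4) → M ≤ L →
    ∀ (Jf : Finset ℕ) (Ob : Finset (Finset ℕ)), Ob.card ≤ 7 → PlT Jf c' d' U V l Ob →
    ∀ A : Finset ℕ → Finset ℕ → Prop,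
    (∀ S S', S ⊆ range N → S' ⊆ range N → pos S N = y → pos S' N = y → (∀ j, j ≤ c ∨ d ≤ j → pos S j = pos S' j) →
      A S S' → ∃ n < M, Gap c' d' (u n) (v n) S S') →
    PFam μ s N y (ENNReal.ofReal ((L : ℝ) ^ ε * (EE' μ s l)⁻¹)) (ENNReal.ofReal ((L : ℝ) ^ 3))
      (ENNReal.ofReal (Real.exp (-(L : ℝ) ^ c₁))) c d A Jf Ob (Icc c' d') := by
  intro ε θ hε hθ
  obtain ⟨a, K, ha, ha1, hK, hE⟩ := EE'_pow h
  obtain ⟨δ₁, c₁, hδ₁, hc₁, L₁, hP1⟩ := pf_lam h (ε / 4) θ (by positivity) hθ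
  obtain ⟨δ₂, c₂, hδ₂, hc₂, L₂, hP2⟩ := pf_right h (ε / 4) θ (by positivity) hθ
  obtain ⟨δ₃, c₃, hδ₃, hc₃, L₃, hP3⟩ := pf_left h (ε / 4) θ (by positivity) hθ
  obtain ⟨L₄, hL₄⟩ := Pool.Agent.W_7d29a1_Z.NumI77.large (show 0 < ε / 4 by positivity) K
  obtain ⟨L₅, hL₅⟩ := Pool.Agent.W_7d29a1_Z.NumI77.large hθ 1
  refine ⟨min δ₁ (min δ₂ δ₃), min c₁ (min c₂ c₃), lt_min hδ₁ (lt_min hδ₂ hδ₃), lt_min hc₁ (lt_min hc₂ hc₃),
    L₁ + L₂ + L₃ + L₄ + L₅ + 1, ?_⟩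
  intro L hL N hLN hNL y hyN hyc c d c' d' U V l M hb1 hb2 hb3 hb4 hb5 hlen u v huv hM hML Jf Ob hOb hT A hA
  have hL1 : 1 ≤ L := by omega
  have hLR : (1 : ℝ) ≤ L := by exact_mod_cast hL1
  have hL0 : (0 : ℝ) < L := by linarith
  have hwd : ∀ n, 0 < wd' μ s n := fun n => lt_of_lt_of_le zero_lt_one (le_max_left _ _)
  have hcone : ∀ δ', min δ₁ (min δ₂ δ₃) ≤ δ' → |(y : ℝ) - sl μ s * N| ≤ ((L : ℝ) ^ δ' * wd' μ s N) := fun δ' hδ' =>
    hyc.trans (mul_le_mul_of_nonneg_right (Real.rpow_le_rpow_of_exponent_le hLR hδ') (hwd N).le)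
  obtain ⟨-, hLK, -⟩ := hL₄ L (by omega)
  obtain ⟨-, hL1θ, -⟩ := hL₅ L (by omega)
  have hl1 : 1 ≤ l := by exact_mod_cast hL1θ.trans hlen
  have hE0 : ∀ t, 0 < EE' μ s t := fun t => lt_of_lt_of_le zero_lt_one (le_max_left _ _)
  have hlen' : ∀ n, n < M → (L : ℝ) ^ θ ≤ ((v n - u n : ℕ) : ℝ) := fun n hn => hlen.trans (by
    have := huv n hn
    exact_mod_cast (show l ≤ v n - u n by omega))
  have hfam : ∀ n, n < M → PFam μ s N y (ENNReal.ofReal ((L : ℝ) ^ (ε / 4) * (EE' μ s (v n - u n))⁻¹)) (ENNReal.ofReal ((L : ℝ) ^ 2))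
      (ENNReal.ofReal (Real.exp (-(L : ℝ) ^ (min c₁ (min c₂ c₃))))) c d (Gap c' d' (u n) (v n)) Jf Ob (Icc c' d') := by
    intro n hn
    obtain ⟨k1, k2, k3⟩ := huv n hn
    rcases hT with ⟨t1, t2⟩ | ⟨t1, t2⟩ | ⟨t1, t2⟩
    · rw [t1]
      refine (hP1 L (by omega) N hLN hNL y hyN (hcone _ (min_le_left _ _)) c d c' d' (u n) (v n) hb1 (by omega) (by omega) hb4 hb5
        (hlen' n hn) Ob hOb (fun O hO => ?_) _ (fun S S' _ _ _ _ _ hg => hg)).mono_p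
        (ENNReal.ofReal_le_ofReal (Pool.Agent.W_7d29a1_Z.NumI77.exp_mono (min_le_left _ _) hL1))
      rcases t2 O hO with g | ⟨p, q, g1, g2, g3⟩
      · exact Or.inl g
      · exact Or.inr ⟨p, q, g1, by omega, by omega⟩
    · rw [t1]
      refine ((hP2 L (by omega) N hLN hNL y hyN (hcone _ ((min_le_right _ _).trans (min_le_left _ _))) c d c' d' (u n) (v n) hb1
        (by omega) (by omega) hb4 hb5 (hlen' n hn) Ob (fun O hO => ?_) _ (fun S S' _ _ _ _ _ hg => hg)).mono_p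
        (ENNReal.ofReal_le_ofReal (Pool.Agent.W_7d29a1_Z.NumI77.exp_mono ((min_le_right _ _).trans (min_le_left _ _)) hL1))).mono
        le_rfl le_rfl (fun S S' _ _ _ _ _ hg => hg) ?_
      · refine disjoint_of_subset_left (fun a ha => ?_) (t2 O hO)
        rw [mem_Ioo] at ha ⊢
        omega
      · intro a ha
        rw [mem_Ioo] at ha ⊢
        omega
    · rw [t1]
      refine ((hP3 L (by omega) N hLN hNL y hyN (hcone _ ((min_le_right _ _).trans (min_le_right _ _))) c d c' d' (u n) (v n) hb1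
        (by omega) (by omega) hb4 hb5 (hlen' n hn) Ob (fun O hO => ?_) _ (fun S S' _ _ _ _ _ hg => hg)).mono_p
        (ENNReal.ofReal_le_ofReal (Pool.Agent.W_7d29a1_Z.NumI77.exp_mono ((min_le_right _ _).trans (min_le_right _ _)) hL1))).mono
        le_rfl le_rfl (fun S S' _ _ _ _ _ hg => hg) ?_
      · refine disjoint_of_subset_left (fun a ha => ?_) (t2 O hO)
        rw [mem_Ioo] at ha ⊢
        omega
      · intro a ha
        rw [mem_Ioo] at ha ⊢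
        omega
  refine (PFam.union hfam hA).mono ?_ ?_ (fun S S' _ _ _ _ _ hg => hg) (Subset.refl _)
  · have h1 : ∀ n ∈ range M, ENNReal.ofReal ((L : ℝ) ^ (ε / 4) * (EE' μ s (v n - u n))⁻¹) ≤
        ENNReal.ofReal ((L : ℝ) ^ (ε / 4) * (K * (EE' μ s l)⁻¹)) := by
      intro n hn
      obtain ⟨k1, k2, k3⟩ := huv n (mem_range.1 hn)
      refine ENNReal.ofReal_le_ofReal (mul_le_mul_of_nonneg_left ?_ (by positivity))
      have g1 := (hE l (v n - u n) hl1 (by omega)).1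
      rw [inv_le_comm₀ (hE0 _) (by have := hE0 l; positivity), mul_inv, inv_inv, inv_mul_le_iff₀ (by linarith)]
      exact g1
    refine (sum_le_sum h1).trans ?_
    rw [sum_const, card_range, nsmul_eq_mul]
    have e1 : (M : ℝ≥0∞) = ENNReal.ofReal M := by rw [ENNReal.ofReal_natCast]
    rw [e1, ← ENNReal.ofReal_mul (Nat.cast_nonneg M)]
    refine ENNReal.ofReal_le_ofReal ?_
    have hex : (L : ℝ) ^ ε = (L : ℝ) ^ (ε / 4) * (L : ℝ) ^ (ε / 4) * (L : ℝ) ^ (ε / 4) * (L : ℝ) ^ (ε / 4) := by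
      rw [← Real.rpow_add hL0, ← Real.rpow_add hL0, ← Real.rpow_add hL0]
      congr 1
      ring
    set x : ℝ := (L : ℝ) ^ (ε / 4) with hx
    have hx1 : 1 ≤ x := Real.one_le_rpow hLR (by positivity)
    have hi : 0 ≤ (EE' μ s l)⁻¹ := (inv_pos.2 (hE0 l)).le
    rw [hex]
    calc (M : ℝ) * (x * (K * (EE' μ s l)⁻¹)) ≤ x * (x * (x * (EE' μ s l)⁻¹)) := by
          refine mul_le_mul hM (mul_le_mul_of_nonneg_left (mul_le_mul_of_nonneg_right hLK hi) (by linarith)) (by positivity) (by linarith)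
      _ = 1 * (x * x * x * (EE' μ s l)⁻¹) := by ring
      _ ≤ x * (x * x * x * (EE' μ s l)⁻¹) := mul_le_mul_of_nonneg_right hx1 (by positivity)
      _ = x * x * x * x * (EE' μ s l)⁻¹ := by ring
  · rw [sum_const, card_range, nsmul_eq_mul]
    have e1 : (M : ℝ≥0∞) = ENNReal.ofReal M := by rw [ENNReal.ofReal_natCast]
    rw [e1, ← ENNReal.ofReal_mul (Nat.cast_nonneg M)]
    refine ENNReal.ofReal_le_ofReal ?_
    have hML' : (M : ℝ) ≤ L := by exact_mod_cast hML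
    calc (M : ℝ) * (L : ℝ) ^ 2 ≤ L * (L : ℝ) ^ 2 := mul_le_mul_of_nonneg_right hML' (by positivity)
      _ = (L : ℝ) ^ 3 := by ring

/-- **THE GENERAL PRICE, final form**: places of the types L, R, M with several windows each, amplified weights. -/
theorem lam86M (h : In μ s c₀ C₀ n₀) (k : ℕ) (hk : k ≤ 8) : ∀ ε θ : ℝ, 0 < ε → 0 < θ → ∃ δ κ c₂ : ℝ, 0 < δ ∧ 0 < κ ∧ 0 < c₂ ∧ ∃ L₀ : ℕ,
    ∀ L : ℕ, L₀ ≤ L → ∀ N : ℕ, L ≤ 16 * N → N ≤ L → ∀ y : ℕ, y ≤ N → |(y : ℝ) - sl μ s * N| ≤ ((L : ℝ) ^ δ * wd' μ s N) →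
    ∀ c d c' d' U V l M : Fin k → ℕ, (∀ i, c i ≤ c' i ∧ c' i ≤ U i ∧ U i ≤ V i ∧ V i ≤ d' i ∧ d' i ≤ d i ∧ d i ≤ N) →
    (∀ i, (L : ℝ) ^ θ ≤ l i) → ∀ u v : Fin k → ℕ → ℕ, (∀ i n, n < M i → U i ≤ u i n ∧ u i n + l i ≤ v i n ∧ v i n ≤ V i) →
    (∀ i, (M i : ℝ) ≤ (L : ℝ) ^ κ ∧ M i ≤ L) → ∀ Jf : Fin k → Finset ℕ,
    (∀ i, (Jf i = Ioo (c' i) (d' i) ∧ ∀ i', i < i' → d' i ≤ c' i' ∨ d' i' ≤ c' i ∨
        ((d' i' ≤ U i ∨ V i ≤ c' i') ∧ 4 * (d' i' - c' i') ≤ l i)) ∨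
      (Jf i = Ioo (U i) (d' i) ∧ ∀ i', i < i' → d' i' ≤ U i ∨ d' i ≤ c' i') ∨
      (Jf i = Ioo (c' i) (V i) ∧ ∀ i', i < i' → V i ≤ c' i' ∨ d' i' ≤ c' i)) →
    ∀ A : Fin k → Finset ℕ → Finset ℕ → Prop,
    (∀ i S S', S ⊆ range N → S' ⊆ range N → pos S N = y → pos S' N = y → (∀ j, j ≤ c i ∨ d i ≤ j → pos S j = pos S' j) →
      A i S S' → ∃ n < M i, Gap (c' i) (d' i) (u i n) (v i n) S S') →
    ∀ g : Fin k → Env → Finset ℕ → ℝ≥0∞, (∀ i η S, g i η S ≤ 1) →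
    (∀ i η S, g i η S ≤ ENNReal.ofReal (Real.exp ((L : ℝ) ^ κ)) * ENNReal.ofReal (mc μ s N y (c i) (d i) (A i) η S)) →
    ∀ f : Env → Finset ℕ → ℝ≥0∞, (∀ S, Measurable fun η => f η S) → (∀ η S, f η S ≤ 1) → (∀ i, OffW (Jf i) f) →
    Q1 μ s N y (fun η S => f η S * ∏ i, g i η S) ≤
      (∏ i, ENNReal.ofReal ((L : ℝ) ^ ε * (EE' μ s (l i))⁻¹)) * Q1 μ s N y f + ENNReal.ofReal (Real.exp (-(L : ℝ) ^ c₂)) := by
  intro ε θ hε hθ
  obtain ⟨δ, c₁, hδ, hc₁, L₁, hP⟩ := pf_place h ε θ hε hθ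
  obtain ⟨κ, c₂, hκ, hc₂, L₂, hM⟩ := lam_mainX (μ := μ) (s := s) k 3 hc₁
  refine ⟨δ, min κ (ε / 4), c₂, hδ, lt_min hκ (by positivity), hc₂, L₁ + L₂ + 1, ?_⟩
  intro L hL N hLN hNL y hyN hyc c d c' d' U V l M hblk hlen u v huv hMn Jf hT A hA g hg1 hgm f hf hf1 hfo
  have hL1 : 1 ≤ L := by omega
  have hLR : (1 : ℝ) ≤ L := by exact_mod_cast hL1
  have hp1 : (L : ℝ) ^ min κ (ε / 4) ≤ (L : ℝ) ^ κ := Real.rpow_le_rpow_of_exponent_le hLR (min_le_left _ _)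
  have hp2 : (L : ℝ) ^ min κ (ε / 4) ≤ (L : ℝ) ^ (ε / 4) := Real.rpow_le_rpow_of_exponent_le hLR (min_le_right _ _)
  set Ob : Fin k → Finset (Finset ℕ) := fun i => (univ.filter fun i' : Fin k => i < i').image fun i' => Icc (c' i') (d' i') with hOb
  have hio : ∀ {a b p q : ℕ}, (b ≤ p ∨ q ≤ a) → Disjoint (Ioo a b) (Icc p q) := fun {a b p q} hd =>
    disjoint_left.2 fun r hr1 hr2 => by
      rw [mem_Ioo] at hr1
      rw [mem_Icc] at hr2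
      omega
  refine hM L (by omega) N y hNL hyN (fun i => ENNReal.ofReal ((L : ℝ) ^ ε * (EE' μ s (l i))⁻¹)) c d A Jf Ob
    (fun i => Icc (c' i) (d' i)) (fun i => ?_) (fun i i' hi => mem_image.2 ⟨i', mem_filter.2 ⟨mem_univ _, hi⟩, rfl⟩)
    (fun i => by have := hblk i; omega) g hg1 (fun i η S => (hgm i η S).trans ?_) f hf hf1 hfo
  · obtain ⟨b1, b2, b3, b4, b5, b6⟩ := hblk i
    refine hP L (by omega) N hLN hNL y hyN hyc (c i) (d i) (c' i) (d' i) (U i) (V i) (l i) (M i) b1 b2 b4 b5 b6 (hlen i) (u i) (v i)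
      (huv i) ((hMn i).1.trans hp2) (hMn i).2 (Jf i) (Ob i) (card_ob hk i _) ?_ (A i) (hA i)
    rcases hT i with ⟨h1, h2⟩ | ⟨h1, h2⟩ | ⟨h1, h2⟩
    · refine Or.inl ⟨h1, fun O hO => ?_⟩
      obtain ⟨i', hi', rfl⟩ := mem_image.1 hO
      rcases h2 i' (mem_filter.1 hi').2 with g1 | g1 | g1
      · exact Or.inl (hio (Or.inl g1))
      · exact Or.inl (hio (Or.inr g1))
      · exact Or.inr ⟨c' i', d' i', Subset.refl _, g1.1, g1.2⟩
    · refine Or.inr (Or.inl ⟨h1, fun O hO => ?_⟩)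
      obtain ⟨i', hi', rfl⟩ := mem_image.1 hO
      exact hio (h2 i' (mem_filter.1 hi').2).symm
    · refine Or.inr (Or.inr ⟨h1, fun O hO => ?_⟩)
      obtain ⟨i', hi', rfl⟩ := mem_image.1 hO
      exact hio (h2 i' (mem_filter.1 hi').2)
  · exact mul_le_mul' (ENNReal.ofReal_le_ofReal (Real.exp_le_exp.2 hp1)) le_rfl

end Pool.Agent.W_7d29a1_C0.P86
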