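import Pool.Agent.W_7d29a1_C0.Site15L
import Pool.Agent.W_7d29a1_C0.Lam86C

/-!
MP_7d29a1_pr, [C0], helper11: THE DOUBLE TIE AT A ROW, LEFT END, FOR REPLICAS OF ANY BLOCKS: the mirror image of `DgA11` (after `site_coreL`
of helper15; slot lemma of helper3). All prices are of type M: the price of a tie on the rows `[u, v]` which opens behind `c` is given every
event which does not see the rows `(c, v)`. So the blocks of the replicas may end anywhere on the right. `one_opM`: one tie. `site_coreLG`,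
`siteLG`: sum over the rows of a stretch of length `b / 64`.
-/

set_option autoImplicit false

namespace Pool.Agent.W_7d29a1_C0.Dg11

open MeasureTheory ProbabilityTheory Filter Topology Finset
open Pool.Agent.W_7d29a1_F Pool.Agent.W_7d29a1_X Pool.Agent.W_7d29a1_h4g Pool.Agent.W_7d29a1_H
open Pool.Agent.W_7d29a1_HS (In wd md)
open Pool.Agent.W_7d29a1_HZ Pool.Agent.W_7d29a1_HZ.R72 Pool.Agent.W_7d29a1_Z.Asm72
open Pool.Agent.W_7d29a1_HZ.Z86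
open Pool.Agent.W_7d29a1_C0.P86
open Pool.Agent.W_7d29a1_C0.P15
open Pool.Agent.W_7d29a1_C0.P3 (Hy hy_ms hy_off hy_mono hy_mono_x slotL plNear er amp amp_ex)
open scoped ENNReal

variable {μ : Measure ℝ} {s : ℝ} {N : ℕ} [IsProbabilityMeasure μ] {c₀ C₀ : ℝ} {n₀ : ℕ}

/-! ### Places of type M -/

/-- A gap as a place of type M. -/
theorem plM (h : In μ s c₀ C₀ n₀) : ∀ ε θ : ℝ, 0 < ε → 0 < θ → ∃ δ c₁ : ℝ, 0 < δ ∧ 0 < c₁ ∧ ∃ L₀ : ℕ,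
    ∀ L : ℕ, L₀ ≤ L → ∀ N : ℕ, L ≤ 16 * N → N ≤ L → ∀ y : ℕ, y ≤ N → |(y : ℝ) - sl μ s * N| ≤ ((L : ℝ) ^ δ * wd' μ s N) →
    ∀ c' d' u v : ℕ, c' ≤ u → v ≤ d' → d' ≤ N → (L : ℝ) ^ θ ≤ ((v - u : ℕ) : ℝ) →
    Pl μ s N y (ENNReal.ofReal ((L : ℝ) ^ ε * (EE' μ s (v - u))⁻¹)) (ENNReal.ofReal (Real.exp (-(L : ℝ) ^ c₁))) (Gap c' d' u v)
      (Ioo c' v) (Icc c' d') := by
  intro ε θ hε hθ
  obtain ⟨δ, c₁, hδ, hc₁, L₁, hP⟩ := pf_left h ε θ hε hθ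
  obtain ⟨c₂, hc₂, -, L₂, hX⟩ := Pool.Agent.W_7d29a1_Z.NumI77.pow_exp hc₁ 2
  refine ⟨δ, c₂, hδ, hc₂, L₁ + L₂ + 100, ?_⟩
  intro L hL N hLN hNL y hyN hyc c' d' u v h1 h2 h3 h4
  have hL0 : (0 : ℝ) < L := by exact_mod_cast (show 0 < L by omega)
  have hpe : ENNReal.ofReal ((L : ℝ) ^ 2) * ENNReal.ofReal (Real.exp (-(L : ℝ) ^ c₁)) ≤ ENNReal.ofReal (Real.exp (-(L : ℝ) ^ c₂)) := by
    rw [← ENNReal.ofReal_mul (by positivity)]
    refine ENNReal.ofReal_le_ofReal ?_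
    have h5 := hX L (by omega)
    have e6 : (L : ℝ) ^ (2 : ℝ) = (L : ℝ) ^ 2 := by
      rw [← Real.rpow_natCast]
      norm_num
    rwa [e6] at h5
  obtain ⟨P, r, B, J, hPl, hA, hB, hR, hXc, hJ⟩ := hP L (by omega) N hLN hNL y hyN hyc 0 N c' d' u v (Nat.zero_le _) h1 h2 h3 le_rfl h4
    ∅ (by simp) (Gap c' d' u v) (fun _ _ _ _ _ _ _ h => h)
  have hex : ∀ p, ∃ NT : Env → Finset ℕ → Prop, Ms NT ∧ (p ∈ P → (∀ J' : Finset ℕ, Disjoint J' (Icc c' d') → OffRows J' NT) ∧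
      P2 μ s N y (fun _ => 0) (fun η S S' => B p S' S ∧ ¬ NT η S') ≤ ENNReal.ofReal (Real.exp (-(L : ℝ) ^ c₁)) ∧
      ∀ F : Env → Finset ℕ → Prop, Ms F → OffRows (J p) F →
        P1 μ s N y (fun η S => F η S ∧ NT η S) ≤ r p * P1 μ s N y F + ENNReal.ofReal (Real.exp (-(L : ℝ) ^ c₁))) := by
    intro p
    by_cases hp : p ∈ P
    · obtain ⟨NT, q1, q2, q3, q4⟩ := hPl p hp
      exact ⟨NT, q1, fun _ => ⟨q2, q3, q4⟩⟩
    · exact ⟨fun _ _ => False, fun S => by simp, fun h => absurd h hp⟩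
  choose NT hms hNT using hex
  refine ⟨fun η S => ∃ p ∈ P, NT p η S, ms_ex P hms, fun J' hJ' η η' S hη => ?_, ?_, fun F hF hoff => ?_⟩
  · exact exists_congr fun p => and_congr_right fun hp => (hNT p hp).1 J' hJ' η η' S hη
  · have q1 : P2 μ s N y (fun _ => 0) (fun η S S' => Gap c' d' u v S' S ∧ ¬ ∃ p ∈ P, NT p η S') ≤
        P2 μ s N y (fun _ => 0) (fun η S S' => ∃ p ∈ P, B p S' S ∧ ¬ NT p η S') := by
      refine A12.P2_mono' fun η S S' hS hS' hSy hSy' hev => ?_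
      have hout : ∀ T : Finset ℕ, T ⊆ range N → ∀ j, N ≤ j → pos T j = pos T N := fun T hT j hj => by
        unfold pos
        have e1 : T ∩ range j = T ∩ range N := by
          ext i
          simp only [mem_inter, mem_range]
          constructor
          · rintro ⟨q1, -⟩
            exact ⟨q1, mem_range.1 (hT q1)⟩
          · rintro ⟨q1, q2⟩
            exact ⟨q1, by omega⟩
        rw [e1]
      obtain ⟨p, hp, hb⟩ := hA S' S hS' hS hSy' hSy (fun j hj => by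
        rcases hj with hj | hj
        · have : j = 0 := by omega
          subst this
          rw [pos_zero, pos_zero]
        · rw [hout S hS j hj, hout S' hS' j hj, hSy, hSy']) hev.1
      exact ⟨p, hp, hb, fun h' => hev.2 ⟨p, hp, h'⟩⟩
    exact (q1.trans (Pool.Agent.W_7d29a1_HZ.Z74.P2_ex_le P (fun p η S S' => B p S' S ∧ ¬ NT p η S') fun p hp =>
      (hNT p hp).2.1)).trans ((mul_le_mul' hXc le_rfl).trans hpe)
  · have q1 : P1 μ s N y (fun η S => F η S ∧ ∃ p ∈ P, NT p η S) ≤ P1 μ s N y (fun η S => ∃ p ∈ P, F η S ∧ NT p η S) :=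
      A12.P1_mono' fun η S _ _ ⟨g1, p, g2, g3⟩ => ⟨p, g2, g1, g3⟩
    refine q1.trans ((A12.P1_exists (μ := μ) (s := s) (N := N) (y := y) P fun p η S => F η S ∧ NT p η S).trans ?_)
    refine (sum_le_sum fun p hp => (hNT p hp).2.2 F hF (Pool.Agent.W_7d29a1_HZ.ZE.OffRows.mono36 (hJ p hp).1 hoff)).trans ?_
    rw [sum_add_distrib, ← Finset.sum_mul, sum_const, nsmul_eq_mul]
    exact add_le_add (mul_le_mul' hR le_rfl) ((mul_le_mul' hXc le_rfl).trans hpe)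

/-- **A replica of the block `[a, d)`, for SOME opening time `a ∈ [m, u)`, which misses the base path on `(a, v]`: one price**, given every
event which does not see the rows `(m, v)`. -/
theorem mic_opM (h : In μ s c₀ C₀ n₀) : ∀ ε θ : ℝ, 0 < ε → 0 < θ → ∃ δ κ c₂ : ℝ, 0 < δ ∧ 0 < κ ∧ 0 < c₂ ∧ ∃ L₀ : ℕ, ∀ L : ℕ, L₀ ≤ L →
    ∀ N : ℕ, L ≤ 16 * N → N ≤ L → ∀ y : ℕ, y ≤ N → |(y : ℝ) - sl μ s * N| ≤ ((L : ℝ) ^ δ * wd' μ s N) →
    ∀ m d u v : ℕ, m ≤ u → v ≤ d → d ≤ N → (L : ℝ) ^ θ ≤ ((v - u : ℕ) : ℝ) → ∀ x : ℝ, x ≤ (L : ℝ) ^ κ →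
    ∀ F : Env → Finset ℕ → Prop, Ms F → OffRows (Ioo m v) F →
    P1 μ s N y (fun η S => F η S ∧ ∃ a ∈ Ico m u, Hy μ s N y a d (NoMeet (a + 1) v) x η S) ≤
      ENNReal.ofReal ((L : ℝ) ^ ε * (EE' μ s (v - u))⁻¹) * P1 μ s N y F + ENNReal.ofReal (Real.exp (-(L : ℝ) ^ c₂)) := by
  intro ε θ hε hθ
  obtain ⟨δ, c₁, hδ, hc₁, L₁, hP⟩ := plM h ε θ hε hθ
  obtain ⟨κ, c₂, hκ, -, hc₂, L₂, hT⟩ := tiny15 hc₁
  refine ⟨δ, κ, c₂, hδ, hκ, hc₂, L₁ + L₂ + 100, ?_⟩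
  intro L hL N hLN hNL y hyN hyc m d u v h1 h2 h3 h4 x hx F hF hoff
  have hL100 : (100 : ℝ) ≤ L := by exact_mod_cast (show 100 ≤ L by omega)
  have hL0 : (0 : ℝ) < L := by linarith
  have hX0 : 0 ≤ (L : ℝ) ^ κ := by positivity
  obtain ⟨-, hTiny⟩ := hT L (by omega)
  set A' : ℕ → Finset ℕ → Finset ℕ → Prop := fun a S S' => pos S a = pos S' a ∧ pos S d = pos S' d ∧ NoMeet (a + 1) v S S' with hA'
  have huv : u < v := by
    have h5 : (0 : ℝ) < (L : ℝ) ^ θ := by positivity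
    have h6 : (0 : ℝ) < ((v - u : ℕ) : ℝ) := h5.trans_le h4
    have h7 : 0 < v - u := by exact_mod_cast h6
    omega
  have hon : ∀ a ∈ Ico m u, On2 a d (A' a) := by
    intro a ha S S' S'' hS
    rw [mem_Ico] at ha
    simp only [hA']
    rw [hS a le_rfl (by omega), hS d (by omega) le_rfl, nm_on2 (Nat.le_succ a) h2 S S' S'' hS]
  have hgap : ∀ a ∈ Ico m u, ∀ S S', A' a S S' → Gap m d u v S S' := by
    intro a ha S S' hh
    rw [mem_Ico] at ha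
    exact ⟨a, d, ha.1, ha.2.le, h2, le_rfl, hh.1, hh.2.1, fun k hk1 hk2 => hh.2.2 k (by omega) (by omega)⟩
  have hsub : P1 μ s N y (fun η S => F η S ∧ ∃ a ∈ Ico m u, Hy μ s N y a d (NoMeet (a + 1) v) x η S) ≤
      P1 μ s N y (fun η S => F η S ∧ ∃ a ∈ Ico m u, Hy μ s N y a d (A' a) x η S) := by
    refine A12.P1_mono fun η S ⟨g1, a, g2, g3⟩ => ⟨g1, a, g2, lt_of_lt_of_le g3 ?_⟩
    exact Pool.Agent.W_7d29a1_C0.P86.mc_mono (fun S S' _ _ _ _ h5 h6 => ⟨h5 a (Or.inl le_rfl), h5 d (Or.inr le_rfl), h6⟩) η S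
  refine hsub.trans ((amp_ex (Ico m u) hyN (c := fun a => a) (d := fun _ => d) (fun a ha => by rw [mem_Ico] at ha; omega)
    (fun a _ => h3) hon hgap (hP L (by omega) N hLN hNL y hyN hyc m d u v h1 h2 h3 h4) x (3 * (L : ℝ) ^ κ)
    hF hoff).trans ?_)
  refine add_le_add le_rfl (le_trans ?_ (hTiny N hNL x (by linarith)))
  rw [mul_add]
  refine add_le_add (le_mul_of_one_le_left zero_le ?_) (mul_le_mul' ?_ le_rfl)
  · rw [← ENNReal.ofReal_one]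
    exact ENNReal.ofReal_le_ofReal (one_le_pow₀ (by linarith))
  · rw [Nat.card_Ico, ← ENNReal.ofReal_natCast]
    refine ENNReal.ofReal_le_ofReal ?_
    have g1 : ((u - m : ℕ) : ℝ) ≤ L := by exact_mod_cast (show u - m ≤ L by omega)
    have g2 : (L : ℝ) ≤ (L : ℝ) ^ 3 := by nlinarith [sq_nonneg (L : ℝ)]
    linarith

/-- **ONE TIE, type M**: the replica of the block `[c, d)` misses the path on `[u, v]`. -/
theorem one_opM (h : In μ s c₀ C₀ n₀) : ∀ ε θ : ℝ, 0 < ε → 0 < θ → ∃ δ κ c₂ : ℝ, 0 < δ ∧ 0 < κ ∧ 0 < c₂ ∧ ∃ L₀ : ℕ, ∀ L : ℕ, L₀ ≤ L →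
    ∀ N : ℕ, L ≤ 16 * N → N ≤ L → ∀ y : ℕ, y ≤ N → |(y : ℝ) - sl μ s * N| ≤ ((L : ℝ) ^ δ * wd' μ s N) →
    ∀ c d u v : ℕ, c ≤ u → v ≤ d → d ≤ N → (L : ℝ) ^ θ ≤ ((v - u : ℕ) : ℝ) → ∀ x : ℝ, x ≤ (L : ℝ) ^ κ →
    ∀ F : Env → Finset ℕ → Prop, Ms F → OffRows (Ioo c v) F →
    P1 μ s N y (fun η S => F η S ∧ Hy μ s N y c d (NoMeet u v) x η S) ≤
      ENNReal.ofReal ((L : ℝ) ^ ε * (EE' μ s (v - u))⁻¹) * P1 μ s N y F + ENNReal.ofReal (Real.exp (-(L : ℝ) ^ c₂)) := by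
  intro ε θ hε hθ
  obtain ⟨δ, c₁, hδ, hc₁, L₁, hP⟩ := plM h ε θ hε hθ
  obtain ⟨κ, c₂, hκ, -, hc₂, L₂, hT⟩ := tiny15 hc₁
  refine ⟨δ, κ, c₂, hδ, hκ, hc₂, L₁ + L₂ + 100, ?_⟩
  intro L hL N hLN hNL y hyN hyc c d u v h1 h2 h3 h4 x hx F hF hoff
  have hL100 : (100 : ℝ) ≤ L := by exact_mod_cast (show 100 ≤ L by omega)
  have hL0 : (0 : ℝ) < L := by linarith
  have hX0 : 0 ≤ (L : ℝ) ^ κ := by positivity
  obtain ⟨-, hTiny⟩ := hT L (by omega)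
  have huv : u < v := by
    have h5 : (0 : ℝ) < (L : ℝ) ^ θ := by positivity
    have h6 : (0 : ℝ) < ((v - u : ℕ) : ℝ) := h5.trans_le h4
    have h7 : 0 < v - u := by exact_mod_cast h6
    omega
  set A' : Finset ℕ → Finset ℕ → Prop := fun S S' => pos S c = pos S' c ∧ pos S d = pos S' d ∧ NoMeet u v S S' with hA'
  have hon : On2 c d A' := by
    intro S S' S'' hS
    simp only [hA']
    rw [hS c le_rfl (by omega), hS d (by omega) le_rfl, nm_on2 h1 h2 S S' S'' hS]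
  have hgap : ∀ S S', A' S S' → Gap c d u v S S' := by
    intro S S' hh
    exact ⟨c, d, le_rfl, h1, h2, le_rfl, hh.1, hh.2.1, fun k hk1 hk2 => hh.2.2 k (by omega) (by omega)⟩
  have hsub : P1 μ s N y (fun η S => F η S ∧ Hy μ s N y c d (NoMeet u v) x η S) ≤
      P1 μ s N y (fun η S => F η S ∧ Hy μ s N y c d A' x η S) := by
    refine A12.P1_mono fun η S ⟨g1, g3⟩ => ⟨g1, lt_of_lt_of_le g3 ?_⟩
    exact Pool.Agent.W_7d29a1_C0.P86.mc_mono (fun S S' _ _ _ _ h5 h6 => ⟨h5 c (Or.inl le_rfl), h5 d (Or.inr le_rfl), h6⟩) η S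
  refine hsub.trans ((amp hyN (by omega) h3 hon hgap (hP L (by omega) N hLN hNL y hyN hyc c d u v h1 h2 h3 h4) x (3 * (L : ℝ) ^ κ)
    hF hoff).trans ?_)
  refine add_le_add le_rfl (le_trans ?_ (hTiny N hNL x (by linarith)))
  refine le_mul_of_one_le_left zero_le ?_
  rw [← ENNReal.ofReal_one]
  exact ENNReal.ofReal_le_ofReal (one_le_pow₀ (by linarith))

/-! ### One row -/

omit [IsProbabilityMeasure μ] in
/-- The decomposition of one row. -/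
theorem rowLG {y b j d u v T0 I : ℕ} (hb : b ≤ j) (hN : d ≤ N) (hu : j ≤ u + b / 2) (hv : v ≤ d) (huv : u < v) (hb2 : 2 ≤ b)
    (hT0 : 1 ≤ T0) {x x' : ℝ} (hx : (N : ℝ) ≤ Real.exp (x' - x)) (Own F : Env → Finset ℕ → Prop) :
    P1 μ s N y (fun η S => F η S ∧ Hy μ s N y (j - b) d (NoMeet u v) x η S ∧ Own η S) ≤
      P1 μ s N y (fun η S => F η S ∧ ∃ a ∈ Icc (j - b) (j - b + 2 * (2 ^ 0 * T0)), Hy μ s N y a d (NoMeet (a + 1) v) x' η S) +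
      (∑ i ∈ range (I + 1), P1 μ s N y (fun η S => (F η S ∧ AmL μ s N y (j - b) d (2 ^ i * T0) v x' η S) ∧ Own η S) +
        P1 μ s N y (fun η S => (F η S ∧ BmL μ s N y (j - b + 2 * (2 ^ I * T0)) u d v x' η S) ∧ Own η S)) := by
  have hmass : ∀ η S, Hy μ s N y (j - b) d (NoMeet u v) x η S →
      ∃ a ∈ Ico (j - b) u, Hy μ s N y a d (NoMeet (a + 1) v) x' η S := fun η S hh =>
    hy_open (by omega) (by omega) (by omega) hN hx hh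
  have hsub : P1 μ s N y (fun η S => F η S ∧ Hy μ s N y (j - b) d (NoMeet u v) x η S ∧ Own η S) ≤
      P1 μ s N y (fun η S => (F η S ∧ ∃ a ∈ Icc (j - b) (j - b + 2 * (2 ^ 0 * T0)), Hy μ s N y a d (NoMeet (a + 1) v) x' η S) ∨
        ((∃ i ∈ range (I + 1), (F η S ∧ AmL μ s N y (j - b) d (2 ^ i * T0) v x' η S) ∧ Own η S) ∨
        ((F η S ∧ BmL μ s N y (j - b + 2 * (2 ^ I * T0)) u d v x' η S) ∧ Own η S))) := by
    refine A12.P1_mono fun η S hev => ?_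
    obtain ⟨f1, f2, f3⟩ := hev
    obtain ⟨a, ha, hHy⟩ := hmass η S f2
    rw [mem_Ico] at ha
    by_cases hA : a - (j - b) ≤ 2 * T0
    · refine Or.inl ⟨f1, a, mem_Icc.2 ⟨ha.1, ?_⟩, hHy⟩
      rw [pow_zero, one_mul]
      omega
    · by_cases hB : a - (j - b) ≤ 2 * (2 ^ I * T0)
      · obtain ⟨i, hi1, hi2, hi3⟩ := dyad hT0 (by omega) hB
        refine Or.inr (Or.inl ⟨i, mem_range.2 (by omega), ⟨f1, a, mem_Icc.2 ?_, hHy⟩, f3⟩)
        omega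
      · exact Or.inr (Or.inr ⟨⟨f1, a, mem_Ico.2 ⟨by omega, ha.2⟩, hHy⟩, f3⟩)
  refine hsub.trans ((A12.P1_or _ _).trans (add_le_add le_rfl ((A12.P1_or _ _).trans (add_le_add ?_ le_rfl))))
  exact A12.P1_exists (μ := μ) (s := s) (N := N) (y := y) (range (I + 1)) _

omit [IsProbabilityMeasure μ] in
theorem slG {y b lo j d v T m : ℕ} (h2 : lo + b ≤ j) (hv : j ≤ v + b / 2) (hm : j - b ≤ m) {x : ℝ} {F : Env → Finset ℕ → Prop}
    {η : Env} {S : Finset ℕ} (h : F η S ∧ ∃ a ∈ Icc m (j - b + 2 * T), Hy μ s N y a d (NoMeet (a + 1) v) x η S) :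
    SLv μ s N y b lo T (j - b) d x F η S := by
  obtain ⟨f1, a, ha, hh⟩ := h
  rw [mem_Icc] at ha
  exact ⟨f1, a, mem_Icc.2 ⟨by omega, ha.2⟩, hy_mono (fun S' _ _ hm k hk1 hk2 => hm k hk1 (by omega)) hh⟩

/-! ### The stretch -/

/-- **THE DOUBLE TIE, LEFT END, SUMMED OVER A STRETCH, any block ends**, for an abstract family of own events: `Own j` has the price
`L ^ ε' / EE' T` given every event which does not see the rows `[bot, j - b + T)`, for every `T`. -/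
theorem site_coreLG (h : In μ s c₀ C₀ n₀) : ∀ ε θ : ℝ, 0 < ε → 0 < θ → ∃ ε' θ' : ℝ, 0 < ε' ∧ 0 < θ' ∧ θ' ≤ θ ∧
    ∀ c₁ : ℝ, 0 < c₁ → ∃ δ κ c₂ : ℝ, 0 < δ ∧ 0 < κ ∧ 0 < c₂ ∧ ∃ L₀ : ℕ, ∀ L : ℕ, L₀ ≤ L →
    ∀ N : ℕ, L ≤ 16 * N → N ≤ L → ∀ y : ℕ, y ≤ N → |(y : ℝ) - sl μ s * N| ≤ ((L : ℝ) ^ δ * wd' μ s N) →
    ∀ b l bot lo up : ℕ, (L : ℝ) ^ θ ≤ b → (L : ℝ) ^ θ ≤ l → b ≤ N → bot ≤ lo →
    ∀ JJ : Finset ℕ, (∀ j ∈ JJ, lo + b ≤ j ∧ j < lo + b + b / 64) →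
    ∀ u v d : ℕ → ℕ, (∀ j ∈ JJ, j ≤ u j + b / 2 ∧ v j ≤ up ∧ u j + l ≤ v j ∧ v j ≤ d j ∧ d j ≤ N) →
    ∀ Own : ℕ → Env → Finset ℕ → Prop,
    (∀ j ∈ JJ, ∀ T : ℕ, (L : ℝ) ^ θ' ≤ T → 4 * T ≤ b → ∀ G : Env → Finset ℕ → Prop, Ms G → OffRows (Ico bot (j - b + T)) G →
      P1 μ s N y (fun η S => G η S ∧ Own j η S) ≤
        ENNReal.ofReal ((L : ℝ) ^ ε' * (EE' μ s T)⁻¹) * P1 μ s N y G + ENNReal.ofReal (Real.exp (-(L : ℝ) ^ c₁))) →
    ∀ x : ℝ, x ≤ (L : ℝ) ^ κ →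
    ∀ F : Env → Finset ℕ → Prop, Ms F → OffRows (Ico bot up) F →
    ∑ j ∈ JJ, P1 μ s N y (fun η S => F η S ∧ Hy μ s N y (j - b) (d j) (NoMeet (u j) (v j)) x η S ∧ Own j η S) ≤
      ENNReal.ofReal ((L : ℝ) ^ ε * ((b * (EE' μ s b)⁻¹ + JJ.card * (EE' μ s l)⁻¹) * (EE' μ s b)⁻¹)) * P1 μ s N y F +
        ENNReal.ofReal (Real.exp (-(L : ℝ) ^ c₂)) := by
  intro ε θ hε hθ
  obtain ⟨α, K, -, -, hK, hE⟩ := EE'_pow h
  have hE0 : ∀ t, 0 < EE' μ s t := fun t => lt_of_lt_of_le zero_lt_one (le_max_left _ _)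
  obtain ⟨ε', hε'⟩ : ∃ ε' : ℝ, ε' = ε / 3 := ⟨_, rfl⟩
  have hε0 : 0 < ε' := by rw [hε']; positivity
  obtain ⟨θ', hθ'⟩ : ∃ θ' : ℝ, θ' = min (θ / 2) ε' := ⟨_, rfl⟩
  have hθ0 : 0 < θ' := by rw [hθ']; exact lt_min (by positivity) hε0
  have hθ1 : 2 * θ' ≤ θ := by have := min_le_left (θ / 2) ε'; rw [← hθ'] at this; linarith
  have hθ2 : θ' ≤ ε' := by rw [hθ']; exact min_le_right _ _
  refine ⟨ε', θ', hε0, hθ0, by linarith, fun c₁ hc₁ => ?_⟩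
  obtain ⟨δ₂, κ₂, c₂, hδ₂, hκ₂, hc₂, L₂, hMic⟩ := mic_opM h ε' θ hε0 hθ
  obtain ⟨δ₃, c₃, hδ₃, hc₃, L₃, hSl⟩ := slotL h (plNear h) ε' θ' hε0 hθ0
  obtain ⟨cm, hcm⟩ : ∃ cm : ℝ, cm = min (min c₁ c₂) c₃ := ⟨_, rfl⟩
  have hcm0 : 0 < cm := by rw [hcm]; exact lt_min (lt_min hc₁ hc₂) hc₃
  obtain ⟨κ, hκ⟩ : ∃ κ : ℝ, κ = min κ₂ c₃ / 2 := ⟨_, rfl⟩
  have hκ0 : 0 < κ := by rw [hκ]; have := lt_min hκ₂ hc₃; positivity
  obtain ⟨cp, hcp, L₄, hnum⟩ := num15 (μ := μ) (s := s) hK (fun m n h1 h2 => (hE m n h1 h2).2.2) hε0 hθ0 hθ2 hcm0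
  obtain ⟨L₆, hL₆⟩ := Pool.Agent.W_7d29a1_Z.NumI77.large hκ0 2
  obtain ⟨L₇, hL₇⟩ := Pool.Agent.W_7d29a1_Z.NumI77.large hθ0 512
  refine ⟨min δ₂ δ₃, κ, cp, lt_min hδ₂ hδ₃, hκ0, hcp, L₂ + L₃ + L₄ + L₆ + L₇ + 100, ?_⟩
  intro L hL N hLN hNL y hyN hyc b l bot lo up hbL hlL hbN hbot JJ hJJ u v d huv Own hOwn x hx F hF hoff
  have hL2 : L₂ ≤ L := by omega
  have hL3 : L₃ ≤ L := by omega
  have hL4 : L₄ ≤ L := by omega
  have hL1 : 1 ≤ L := by omega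
  have hL100 : (100 : ℝ) ≤ L := by exact_mod_cast (show 100 ≤ L by omega)
  obtain ⟨-, hX2, hXlog⟩ := hL₆ L (by omega)
  obtain ⟨-, hθ512, -⟩ := hL₇ L (by omega)
  clear hL hL₆ hL₇
  have hLR : (1 : ℝ) ≤ L := by linarith
  have hL0 : (0 : ℝ) < L := by linarith
  have hwd : ∀ n, 0 < wd' μ s n := fun n => lt_of_lt_of_le zero_lt_one (le_max_left _ _)
  have hcone : ∀ δ', min δ₂ δ₃ ≤ δ' → |(y : ℝ) - sl μ s * N| ≤ ((L : ℝ) ^ δ' * wd' μ s N) := fun δ' hδ' =>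
    hyc.trans (mul_le_mul_of_nonneg_right (Real.rpow_le_rpow_of_exponent_le hLR hδ') (hwd N).le)
  have hcy2 := hcone δ₂ (min_le_left _ _)
  have hcy3 := hcone δ₃ (min_le_right _ _)
  rcases JJ.eq_empty_or_nonempty with hJe | hJne
  · rw [hJe, sum_empty]
    exact zero_le
  obtain ⟨j₀, hj₀⟩ := hJne
  have hl1 : 1 ≤ l := by
    have h1 : (0 : ℝ) < (L : ℝ) ^ θ := by positivity
    have h2 : (0 : ℝ) < l := h1.trans_le hlL
    exact_mod_cast h2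
  -- the amplification
  obtain ⟨x', hx'⟩ : ∃ x' : ℝ, x' = (L : ℝ) ^ (2 * κ) := ⟨_, rfl⟩
  have hxx : x' = (L : ℝ) ^ κ * (L : ℝ) ^ κ := by
    rw [hx', ← Real.rpow_add hL0]
    congr 1
    ring
  have hx1 : (N : ℝ) ≤ Real.exp (x' - x) := by
    have h1 : (N : ℝ) ≤ L := by exact_mod_cast hNL
    refine h1.trans ?_
    rw [← Real.log_le_iff_le_exp hL0]
    have h2 : 0 ≤ Real.log L := Real.log_nonneg hLR
    have h3 : 2 * (L : ℝ) ^ κ ≤ (L : ℝ) ^ κ * (L : ℝ) ^ κ := mul_le_mul_of_nonneg_right hX2 (by linarith)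
    linarith
  have hκle : ∀ κ', min κ₂ c₃ ≤ κ' → x' ≤ (L : ℝ) ^ κ' := fun κ' hκ' => by
    rw [hx']
    refine Real.rpow_le_rpow_of_exponent_le hLR ?_
    rw [hκ]
    linarith
  have hx'2 := hκle κ₂ (min_le_left _ _)
  have hx'3 := hκle c₃ (min_le_right _ _)
  -- the scales
  obtain ⟨T0, hT0⟩ : ∃ T0 : ℕ, T0 = ⌈(L : ℝ) ^ θ'⌉₊ := ⟨_, rfl⟩
  have hT0a : (L : ℝ) ^ θ' ≤ T0 := hT0 ▸ Nat.le_ceil _
  have hT0b : (T0 : ℝ) ≤ 2 * (L : ℝ) ^ θ' := by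
    have h1 : (T0 : ℝ) < (L : ℝ) ^ θ' + 1 := hT0 ▸ Nat.ceil_lt_add_one (by positivity)
    linarith
  have hT01 : 1 ≤ T0 := by
    have : (1 : ℝ) ≤ T0 := by linarith
    exact_mod_cast this
  have hT0c : 256 * T0 ≤ b := by
    have h1 : (256 : ℝ) * T0 ≤ b := by
      calc (256 : ℝ) * T0 ≤ 512 * (L : ℝ) ^ θ' := by linarith
        _ ≤ (L : ℝ) ^ θ' * (L : ℝ) ^ θ' := mul_le_mul_of_nonneg_right hθ512 (by positivity)
        _ = (L : ℝ) ^ (2 * θ') := by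
            rw [← Real.rpow_add hL0]
            congr 1
            ring
        _ ≤ (L : ℝ) ^ θ := Real.rpow_le_rpow_of_exponent_le hLR hθ1
        _ ≤ b := hbL
    exact_mod_cast h1
  obtain ⟨I, hIb, hTI, hTI2⟩ := scales hT01 hT0c
  have hT0T : ∀ i, T0 ≤ 2 ^ i * T0 := fun i => by
    have : 1 * T0 ≤ 2 ^ i * T0 := Nat.mul_le_mul_right T0 Nat.one_le_two_pow
    omega
  have hTR : ∀ i, (L : ℝ) ^ θ' ≤ ((2 ^ i * T0 : ℕ) : ℝ) := fun i => hT0a.trans (by exact_mod_cast hT0T i)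
  -- the errors
  have hp1 : ENNReal.ofReal (Real.exp (-(L : ℝ) ^ c₁)) ≤ ENNReal.ofReal (Real.exp (-(L : ℝ) ^ cm)) :=
    ENNReal.ofReal_le_ofReal (Pool.Agent.W_7d29a1_Z.NumI77.exp_mono (by rw [hcm]; exact (min_le_left _ _).trans (min_le_left _ _)) hL1)
  have hp2 : ENNReal.ofReal (Real.exp (-(L : ℝ) ^ c₂)) ≤ ENNReal.ofReal (Real.exp (-(L : ℝ) ^ cm)) :=
    ENNReal.ofReal_le_ofReal (Pool.Agent.W_7d29a1_Z.NumI77.exp_mono (by rw [hcm]; exact (min_le_left _ _).trans (min_le_right _ _)) hL1)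
  have hp3 : ENNReal.ofReal (Real.exp (-(L : ℝ) ^ c₃)) ≤ ENNReal.ofReal (Real.exp (-(L : ℝ) ^ cm)) :=
    ENNReal.ofReal_le_ofReal (Pool.Agent.W_7d29a1_Z.NumI77.exp_mono (by rw [hcm]; exact min_le_right _ _) hL1)
  -- the slots
  have hSlj : ∀ i, i ≤ I → ∑ j ∈ JJ, P1 μ s N y (SLv μ s N y b lo (2 ^ i * T0) (j - b) (d j) x' F) ≤
      ENNReal.ofReal ((L : ℝ) ^ ε' * ((((2 ^ i * T0 : ℕ) : ℝ) + b * (EE' μ s b)⁻¹) * (EE' μ s b)⁻¹)) * P1 μ s N y F +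
        ENNReal.ofReal (Real.exp (-(L : ℝ) ^ cm)) := by
    intro i hi'
    have h1 := hSl L hL3 N hLN hNL y hyN hcy3 (2 ^ i * T0) b lo (hTR i) (hTI i hi') hbN x' hx'3 (JJ.image fun j => j - b)
      (fun d' hd' => by
        obtain ⟨j, hj, rfl⟩ := mem_image.1 hd'
        have h5 := hJJ j hj
        clear * - h5
        constructor <;> omega) (fun d' => d (d' + b)) (fun d' hd' => by
        obtain ⟨j, hj, rfl⟩ := mem_image.1 hd'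
        have h5 := hJJ j hj
        have h6 := huv j hj
        have e : j - b + b = j := by omega
        show lo + b / 8 ≤ d (j - b + b) ∧ d (j - b + b) ≤ N
        rw [e]
        clear * - h5 h6 hl1
        omega) F hF (Pool.Agent.W_7d29a1_HZ.ZE.OffRows.mono36 (fun k hk => by
        rw [mem_Ico] at hk ⊢
        have h5 := hJJ j₀ hj₀
        have h6 := huv j₀ hj₀
        clear * - hk h5 h6 hbot
        omega) hoff)
    rw [sum_image (fun j hj j' hj' h => by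
      have h5 := (hJJ j hj).1
      have h6 := (hJJ j' hj').1
      have h7 : j - b = j' - b := h
      clear * - h5 h6 h7
      omega)] at h1
    refine le_trans (le_of_eq (sum_congr rfl fun j hj => ?_)) (h1.trans (add_le_add le_rfl hp3))
    have h5 := (hJJ j hj).1
    have e : j - b + b = j := by clear * - h5; omega
    show _ = P1 μ s N y (fun η S => F η S ∧ ∃ a ∈ Icc (j - b) (j - b + 2 * (2 ^ i * T0)),
      Hy μ s N y a (d (j - b + b)) (NoMeet (a + 1) (lo + b / 8)) x' η S)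
    rw [e]
    rfl
  -- one row
  have hrow : ∀ j ∈ JJ, P1 μ s N y (fun η S => F η S ∧ Hy μ s N y (j - b) (d j) (NoMeet (u j) (v j)) x η S ∧ Own j η S) ≤
      P1 μ s N y (SLv μ s N y b lo (2 ^ 0 * T0) (j - b) (d j) x' F) +
      (∑ i ∈ range (I + 1), (ENNReal.ofReal ((L : ℝ) ^ ε' * (EE' μ s (2 ^ i * T0))⁻¹) *
          P1 μ s N y (SLv μ s N y b lo (2 ^ i * T0) (j - b) (d j) x' F) + ENNReal.ofReal (Real.exp (-(L : ℝ) ^ cm))) +
        (ENNReal.ofReal ((L : ℝ) ^ ε' * (EE' μ s (2 ^ I * T0))⁻¹) * (ENNReal.ofReal ((L : ℝ) ^ ε' * (K * (EE' μ s l)⁻¹)) * P1 μ s N y F +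
          ENNReal.ofReal (Real.exp (-(L : ℝ) ^ cm))) + ENNReal.ofReal (Real.exp (-(L : ℝ) ^ cm)))) := by
    intro j hj
    obtain ⟨j0, j1⟩ := hJJ j hj
    obtain ⟨g1, g2, g3, g4, g5⟩ := huv j hj
    have hvb : j ≤ v j + b / 2 := by clear * - g1 g3; omega
    have hbj : b ≤ j := by clear * - j0; omega
    refine (rowLG (T0 := T0) (I := I) hbj g5 g1 g4 (by omega) (by omega) hT01 hx1 (Own j) F).trans
      (add_le_add ?_ (add_le_add (sum_le_sum fun i hi' => ?_) ?_))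
    · exact A12.P1_mono fun η S hev => slG j0 hvb le_rfl hev
    · have hiI : i ≤ I := by rw [mem_range] at hi'; omega
      have hTi := hTI i hiI
      refine (hOwn j hj (2 ^ i * T0) (hTR i) (by omega) _ (ms_and hF amL_ms)
        (off_and (Pool.Agent.W_7d29a1_HZ.ZE.OffRows.mono36 (fun k hk => by
          rw [mem_Ico] at hk ⊢
          clear * - hk hTi j1 j0 g1 g2 g3
          omega) hoff) (amL_off (by clear * - hTi hbj g1 g3 g4 hl1; omega) g5 fun k hk => by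
          rw [mem_Ico] at hk
          exact hk.2))).trans (add_le_add (mul_le_mul' le_rfl ?_) hp1)
      exact A12.P1_mono fun η S hev => slG j0 hvb (Nat.le_add_right _ _) hev
    · have hTi := hTI I le_rfl
      have hT1 := hT0T I
      refine (hOwn j hj (2 ^ I * T0) (hTR I) (by omega) _ (ms_and hF bmL_ms)
        (off_and (Pool.Agent.W_7d29a1_HZ.ZE.OffRows.mono36 (fun k hk => by
          rw [mem_Ico] at hk ⊢
          clear * - hk hTi j1 j0 g1 g2 g3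
          omega) hoff) (bmL_off (by clear * - g4 g3; omega) g5 fun k hk => by
          rw [mem_Ico] at hk
          clear * - hk hT1 hT01
          omega))).trans (add_le_add (mul_le_mul' le_rfl ?_) hp1)
      have hlv : (L : ℝ) ^ θ ≤ ((v j - u j : ℕ) : ℝ) := hlL.trans (by exact_mod_cast (show l ≤ v j - u j by omega))
      refine (hMic L hL2 N hLN hNL y hyN hcy2 (j - b + 2 * (2 ^ I * T0)) (d j) (u j) (v j) (by clear * - g1 hTi hbj; omega)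
        g4 g5 hlv x' hx'2 F hF
        (Pool.Agent.W_7d29a1_HZ.ZE.OffRows.mono36 (fun k hk => by
          rw [mem_Ioo] at hk
          rw [mem_Ico]
          clear * - hk j1 j0 g2 hbot
          omega) hoff)).trans (add_le_add ?_ hp2)
      refine mul_le_mul' (ENNReal.ofReal_le_ofReal (mul_le_mul_of_nonneg_left ?_ (by positivity))) le_rfl
      have e3 := (hE l (v j - u j) hl1 (by omega)).1
      rw [← div_eq_mul_inv, le_div_iff₀ (hE0 l), inv_mul_le_iff₀ (hE0 _)]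
      linarith
  refine (asm15 (s := fun i => ENNReal.ofReal ((L : ℝ) ^ ε' * ((((2 ^ i * T0 : ℕ) : ℝ) + b * (EE' μ s b)⁻¹) * (EE' μ s b)⁻¹)))
    (r := fun i => ENNReal.ofReal ((L : ℝ) ^ ε' * (EE' μ s (2 ^ i * T0))⁻¹)) hrow hSlj).trans ?_
  have hcard : JJ.card ≤ N := by
    have h1 : JJ.card ≤ (Ico (lo + b) (lo + b + b / 64)).card := card_le_card fun j hj => mem_Ico.2 (hJJ j hj)
    rw [Nat.card_Ico] at h1
    omega
  have hfin := hnum L hL4 N b l T0 I JJ.card hNL hbN hl1 (hcard.trans hNL) hT01 hT0b hIb hTI hTI2 (P1 μ s N y F)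
  have e9 : (3 : ℝ) * ε' = ε := by rw [hε']; ring
  rw [e9] at hfin
  exact hfin

/-- **THE DOUBLE TIE, LEFT END, SUMMED OVER A STRETCH**: the micro replica of the block `[j - b, d j)` misses the path on `[u j, v j]`, the own
replica of the block `[z j, o j)` misses it on `[j - b, ov j]`. Given every event which does not see the rows `[bot, up)`. -/
theorem siteLG (h : In μ s c₀ C₀ n₀) : ∀ ε θ : ℝ, 0 < ε → 0 < θ → ∃ δ κ c₂ : ℝ, 0 < δ ∧ 0 < κ ∧ 0 < c₂ ∧ ∃ L₀ : ℕ, ∀ L : ℕ, L₀ ≤ L →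
    ∀ N : ℕ, L ≤ 16 * N → N ≤ L → ∀ y : ℕ, y ≤ N → |(y : ℝ) - sl μ s * N| ≤ ((L : ℝ) ^ δ * wd' μ s N) →
    ∀ b l bot lo up : ℕ, (L : ℝ) ^ θ ≤ b → (L : ℝ) ^ θ ≤ l → b ≤ N → bot ≤ lo →
    ∀ JJ : Finset ℕ, (∀ j ∈ JJ, lo + b ≤ j ∧ j < lo + b + b / 64) →
    ∀ u v d z ov o : ℕ → ℕ, (∀ j ∈ JJ, j ≤ u j + b / 2 ∧ v j ≤ up ∧ u j + l ≤ v j ∧ v j ≤ d j ∧ d j ≤ N) →
    (∀ j ∈ JJ, bot ≤ z j ∧ z j + b ≤ j ∧ j ≤ ov j + 3 * b / 4 ∧ j ≤ o j ∧ ov j ≤ o j ∧ o j ≤ N) → ∀ x : ℝ, x ≤ (L : ℝ) ^ κ →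
    ∀ F : Env → Finset ℕ → Prop, Ms F → OffRows (Ico bot up) F →
    ∑ j ∈ JJ, P1 μ s N y (fun η S => F η S ∧ Hy μ s N y (j - b) (d j) (NoMeet (u j) (v j)) x η S ∧
        Hy μ s N y (z j) (o j) (NoMeet (j - b) (ov j)) x η S) ≤
      ENNReal.ofReal ((L : ℝ) ^ ε * ((b * (EE' μ s b)⁻¹ + JJ.card * (EE' μ s l)⁻¹) * (EE' μ s b)⁻¹)) * P1 μ s N y F +
        ENNReal.ofReal (Real.exp (-(L : ℝ) ^ c₂)) := by
  intro ε θ hε hθ
  obtain ⟨ε', θ', hε', hθ', -, hC⟩ := site_coreLG h ε θ hε hθ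
  obtain ⟨δ₁, κ₁, c₁, hδ₁, hκ₁, hc₁, L₁, hOwn⟩ := one_opM h ε' θ' hε' hθ'
  obtain ⟨δ₂, κ₂, c₂, hδ₂, hκ₂, hc₂, L₂, hP⟩ := hC c₁ hc₁
  refine ⟨min δ₁ δ₂, min κ₁ κ₂, c₂, lt_min hδ₁ hδ₂, lt_min hκ₁ hκ₂, hc₂, L₁ + L₂ + 1, ?_⟩
  intro L hL N hLN hNL y hyN hyc b l bot lo up hbL hlL hbN hbot JJ hJJ u v d z ov o huv hoz x hx F hF hoff
  have hLR : (1 : ℝ) ≤ L := by exact_mod_cast (show 1 ≤ L by omega)
  have hwd : ∀ n, 0 < wd' μ s n := fun n => lt_of_lt_of_le zero_lt_one (le_max_left _ _)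
  have hcone : ∀ δ', min δ₁ δ₂ ≤ δ' → |(y : ℝ) - sl μ s * N| ≤ ((L : ℝ) ^ δ' * wd' μ s N) := fun δ' hδ' =>
    hyc.trans (mul_le_mul_of_nonneg_right (Real.rpow_le_rpow_of_exponent_le hLR hδ') (hwd N).le)
  have hx' : ∀ κ', min κ₁ κ₂ ≤ κ' → x ≤ (L : ℝ) ^ κ' := fun κ' hκ' => hx.trans (Real.rpow_le_rpow_of_exponent_le hLR hκ')
  refine hP L (by omega) N hLN hNL y hyN (hcone _ (min_le_right _ _)) b l bot lo up hbL hlL hbN hbot JJ hJJ u v d huv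
    (fun j => Hy μ s N y (z j) (o j) (NoMeet (j - b) (ov j)) x) (fun j hj T hT hTb G hG hGo => ?_) x (hx' _ (min_le_right _ _)) F hF hoff
  obtain ⟨h1, h2, h3, h4, h5, h6⟩ := hoz j hj
  have hT1 : (0 : ℝ) < T := lt_of_lt_of_le (Real.rpow_pos_of_pos (by linarith) _) hT
  have hT1' : 0 < T := by exact_mod_cast hT1
  have e1 : j - b + T - (j - b) = T := by omega
  have h7 := hOwn L (by omega) N hLN hNL y hyN (hcone _ (min_le_left _ _)) (z j) (o j) (j - b) (j - b + T) (by omega) (by omega) h6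
    (by rw [e1]; exact hT) x (hx' _ (min_le_left _ _)) G hG (Pool.Agent.W_7d29a1_HZ.ZE.OffRows.mono36 (fun k hk => by
      rw [mem_Ioo] at hk
      rw [mem_Ico]
      omega) hGo)
  rw [e1] at h7
  refine le_trans (A12.P1_mono fun η S hev => ⟨hev.1, hy_mono (fun S' _ _ hm k hk1 hk2 => hm k hk1 ?_) hev.2⟩) h7
  omega

end Pool.Agent.W_7d29a1_C0.Dg11
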