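import Pool.Agent.W_7d29a1_C0.Tf70
import Pool.Agent.W_7d29a1_C0.Num46B

/-!
STORM C0, leaf E2 (helper39): THE ARITHMETIC OF THE TERM E2 (own loops inside the blocks of length `s`, two derivatives, gap slabs of scale
`b`), lines E2.1 - E2.6 of the ledger (row 689), against the outer tie `1 / E r` (included) and in the absolute contract.

* `lam39` : both steps are box steps of scale `b` (second moment: `(w_b / b) ^ 2`), own ties only;
* `rem39` : the remainders: one more tie at each row (micro tie or far branch). Near rows `1 / (E_r E_b)`; rows in one block: one own tie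
  dropped (or the far branch shared by the rows); rows at any distance with a shared extra tie; different ties.

The mixed terms (one box step, one remainder) are below `rem39`, since the factors of the box steps are at most one.
-/

set_option autoImplicit false

namespace Pool.Agent.W_7d29a1_C0.E2N39

open Finset Filter Topology
open Pool.Agent.W_7d29a1_C0
open Pool.Agent.W_7d29a1_C0.GS4 (Phi sum_Phi_le)
open Pool.Agent.W_7d29a1_C0.Tf70 (fin70 ratio70)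

noncomputable section

variable {E w : ℕ → ℝ} {c₀ Θ δ a ε N c : ℝ} {b s r : ℕ}

/-- The sum over the distances `D < r` of the majorant `Phi`: near rows of scale `b`, rows in one block of scale `s`. -/
theorem five39 (R : Reg46 E w c₀ Θ δ a ε N) {A G H C e₁ e₂ x y : ℝ} (hA : 0 ≤ A) (hG : 0 ≤ G) (hH : 0 ≤ H) (he₁ : 0 ≤ e₁)
    (hb : 1 ≤ b) (hbs : b ≤ s) (hbr : b ≤ r) {hh s' : ℕ} (hh1 : (hh : ℝ) ≤ N ^ e₁ * b) (hs' : s ≤ s') (hs'1 : (s' : ℝ) ≤ N ^ e₁ * s)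
    (m1 : (b : ℝ) * A ≤ 4 * N ^ x) (m2 : G * ((s : ℝ) / E s) ≤ N ^ x) (m3 : H * ((r : ℝ) / E r) ≤ 2 * N ^ x)
    (m4 : (r : ℝ) * C ≤ 4 * N ^ x) (hy : x + e₁ + e₂ + 3 * ε ≤ y) :
    N ^ e₂ * ∑ D ∈ range r, Phi E A G H C hh b s' D ≤ N ^ y / 2 := by
  have hN := R.N0
  have hp2 : 0 < N ^ e₂ := Real.rpow_pos_of_pos hN _
  have hp1 : 0 < N ^ e₁ := Real.rpow_pos_of_pos hN _
  have hpe : 0 < N ^ ε := Real.rpow_pos_of_pos hN _
  have h2 := sum_Phi_le (E := E) (C := C) (l := hh) R.Epos hpe.le R.half hA hG hH hb (hbs.trans hs') hbr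
  have h3 := ratio70 R hs' hs'1
  refine (mul_le_mul_of_nonneg_left h2 hp2.le).trans (le_trans ?_ (fin70 R he₁ m1 m2 m3 m4 hy))
  refine mul_le_mul_of_nonneg_left (add_le_add (add_le_add (add_le_add ?_ ?_) ?_) le_rfl) hp2.le
  · calc (hh : ℝ) * A ≤ (N ^ e₁ * b) * A := by gcongr
      _ = _ := by ring
  · calc 3 * N ^ ε * G * ((s' : ℝ) / E s') ≤ 3 * N ^ ε * G * (N ^ e₁ * (s / E s)) := by gcongr
      _ = _ := by ring
  · exact (mul_assoc _ _ _).le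

/-! ### The monomials -/

/-- `x_b ≤ 3 / 4`: the base is well below the root. -/
theorem xb39 (R : Reg46 E w c₀ Θ δ a ε N) (h : Bs46 E δ c N b s r) : Real.logb N b ≤ 3 / 4 := by
  have hδ1 : δ ≤ 1 := (h.hb.lx R.N1).trans (h.hb.lx1 R.N1)
  linarith [R.lq h.hb, h.lup R, R.lE3 h.hr, mul_pos R.c₀0 R.δ0, h.cδ]

/-- (r1) `b / (E_r E_b)`. -/
theorem r1 (R : Reg46 E w c₀ Θ δ a ε N) (h : Bs46 E δ c N b s r) :
    (b : ℝ) * (1 / (E r * E b)) ≤ N ^ (3 / 4 * (Θ + ε) + 9 / 8 * c) := by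
  have hb' := h.hb.pos R.N1
  have hE := R.Epos r
  have hE' := R.Epos b
  refine le_pow46 R.N1 (by positivity) ?_
  simp (disch := positivity) only [Real.logb_mul, Real.logb_div, Real.logb_one]
  have h1 : (Θ + ε) * Real.logb N b ≤ (Θ + ε) * (3 / 4) := mul_le_mul_of_nonneg_left (xb39 R h) (by linarith [R.Θ0, R.ε0])
  linarith [R.lkap h.hb, h.lup R]

/-- (r2) `s / (E_s E_r E_b)`: rows in one block, one extra tie of scale `b`. -/
theorem r2 (R : Reg46 E w c₀ Θ δ a ε N) (h : Bs46 E δ c N b s r) :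
    (1 / (E r * E b)) * ((s : ℝ) / E s) ≤ N ^ (Θ + 2 * ε - 3 / 8 * c) := by
  have hs' := h.hs.pos R.N1
  have hE := R.Epos r
  have hE' := R.Epos b
  have hE'' := R.Epos s
  refine le_pow46 R.N1 (by positivity) ?_
  simp (disch := positivity) only [Real.logb_mul, Real.logb_div, Real.logb_one]
  linarith [R.lkap' h.hs, h.ls2 R, h.lup R, R.ε0]

/-- (r3) `r / (E_r ^ 2 E_b ^ 2)`: one extra tie shared by the rows. -/
theorem r3 (R : Reg46 E w c₀ Θ δ a ε N) (h : Bs46 E δ c N b s r) :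
    (1 / (E r * E b ^ 2)) * ((r : ℝ) / E r) ≤ N ^ (Θ + ε - c) := by
  have hr' := h.hr.pos R.N1
  have hE := R.Epos r
  have hE' := R.Epos b
  refine le_pow46 R.N1 (by positivity) ?_
  simp (disch := positivity) only [Real.logb_mul, Real.logb_div, Real.logb_pow, Real.logb_one, Nat.cast_ofNat]
  linarith [R.lkap' h.hr, h.lpin R]

/-- (r4) `r / (E_r E_b ^ 4)`: two ties at each row. -/
theorem r4 (R : Reg46 E w c₀ Θ δ a ε N) (h : Bs46 E δ c N b s r) :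
    (r : ℝ) * (1 / (E r * E b ^ 4)) ≤ N ^ (Θ + ε - 2 * c) := by
  have hr' := h.hr.pos R.N1
  have hE := R.Epos r
  have hE' := R.Epos b
  refine le_pow46 R.N1 (by positivity) ?_
  simp (disch := positivity) only [Real.logb_mul, Real.logb_div, Real.logb_pow, Real.logb_one, Nat.cast_ofNat]
  linarith [R.lkap' h.hr, h.lpin R]

/-- (l1) `b (w_b / b) ^ 2 / (E_r E_b)`. -/
theorem l1 (R : Reg46 E w c₀ Θ δ a ε N) (h : Bs46 E δ c N b s r) :
    (b : ℝ) * ((w b / b) ^ 2 / (E r * E b)) ≤ N ^ (2 * ε) := by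
  have hb' := h.hb.pos R.N1
  have hE := R.Epos r
  have hE' := R.Epos b
  have hw := R.w0 b (h.hb.npos R.N1)
  refine le_pow46 R.N1 (by positivity) ?_
  simp (disch := positivity) only [Real.logb_mul, Real.logb_div, Real.logb_pow, Nat.cast_ofNat]
  linarith [R.lw h.hb, R.lst' h.hb, mul_pos R.c₀0 R.δ0, R.lE0 r]

/-- (l2) `(w_b / b) ^ 2 s / (E_r E_s)`. -/
theorem l2 (R : Reg46 E w c₀ Θ δ a ε N) (h : Bs46 E δ c N b s r) :
    ((w b / b) ^ 2 / E r) * ((s : ℝ) / E s) ≤ N ^ (Θ + 4 * ε - δ / 8) := by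
  have hb' := h.hb.pos R.N1
  have hs' := h.hs.pos R.N1
  have hE := R.Epos r
  have hE' := R.Epos s
  have hw := R.w0 b (h.hb.npos R.N1)
  refine le_pow46 R.N1 (by positivity) ?_
  simp (disch := positivity) only [Real.logb_mul, Real.logb_div, Real.logb_pow, Nat.cast_ofNat]
  linarith [R.lw h.hb, R.lst' h.hb, mul_pos R.c₀0 R.δ0, R.lkap' h.hs, h.ls2 R, h.lup R, R.lq' h.hb, h.cδ, h.c0, R.ε0]

/-- (l4) `r (w_b / b) ^ 2 / (E_r E_b ^ 2)`. -/
theorem l4 (R : Reg46 E w c₀ Θ δ a ε N) (h : Bs46 E δ c N b s r) :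
    (r : ℝ) * ((w b / b) ^ 2 / (E r * E b ^ 2)) ≤ N ^ (Θ + 3 * ε - 2 * c) := by
  have hb' := h.hb.pos R.N1
  have hr' := h.hr.pos R.N1
  have hE := R.Epos r
  have hE' := R.Epos b
  have hw := R.w0 b (h.hb.npos R.N1)
  refine le_pow46 R.N1 (by positivity) ?_
  simp (disch := positivity) only [Real.logb_mul, Real.logb_div, Real.logb_pow, Nat.cast_ofNat]
  linarith [R.lw h.hb, R.lst' h.hb, mul_pos R.c₀0 R.δ0, R.lkap' h.hr, h.lpin R]

/-! ### The sums -/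

/-- **E2.1, E2.2: the main term**, two box steps of scale `b`. -/
theorem lam39 (R : Reg46 E w c₀ Θ δ a ε N) (h : Bs46 E δ c N b s r) {e₁ e₂ c₁ : ℝ} (he₁ : 0 ≤ e₁)
    {hh : ℕ} (hh1 : (hh : ℝ) ≤ N ^ e₁ * b) {s' : ℕ} (hs' : s ≤ s') (hs'1 : (s' : ℝ) ≤ N ^ e₁ * s)
    (q1 : c₁ + e₁ + e₂ + 7 * ε ≤ Θ) (q2 : c₁ + e₁ + e₂ + 7 * ε ≤ 2 * c) (q4 : c₁ + e₁ + e₂ + 7 * ε ≤ δ / 8) :
    N ^ e₂ * ∑ D ∈ range r, Phi E ((w b / b) ^ 2 / (E r * E b)) ((w b / b) ^ 2 / E r) 0 ((w b / b) ^ 2 / (E r * E b ^ 2))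
      hh b s' D ≤ N ^ (Θ - c₁) / 2 := by
  have hN := R.N0
  have hE := R.Epos r
  have hE' := R.Epos s
  have hE'' := R.Epos b
  have hw := R.w0 b (h.hb.npos R.N1)
  have hb0 := h.hb.pos R.N1
  have hε := R.ε0
  obtain ⟨x, hx⟩ : ∃ x, x = Θ - c₁ - e₁ - e₂ - 3 * ε := ⟨_, rfl⟩
  have e4 : 0 < N ^ x := Real.rpow_pos_of_pos hN _
  refine five39 R (by positivity) (by positivity) le_rfl he₁ (h.hb.npos R.N1) h.bs (h.bs.trans h.sr) hh1 hs' hs'1 ?_ ?_ ?_ ?_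
    (show x + e₁ + e₂ + 3 * ε ≤ Θ - c₁ by linarith)
  · have e1 := (l1 R h).trans (Real.rpow_le_rpow_of_exponent_le R.N1.le (show 2 * ε ≤ x by linarith))
    linarith
  · exact (l2 R h).trans (Real.rpow_le_rpow_of_exponent_le R.N1.le (by linarith))
  · rw [zero_mul]
    positivity
  · have e1 := (l4 R h).trans (Real.rpow_le_rpow_of_exponent_le R.N1.le (show Θ + 3 * ε - 2 * c ≤ x by linarith))
    linarith

/-- **E2.3 - E2.6: the remainders**, one more tie (micro tie or far branch) at each row. -/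
theorem rem39 (R : Reg46 E w c₀ Θ δ a ε N) (h : Bs46 E δ c N b s r) {e₁ e₂ c₁ : ℝ} (he₁ : 0 ≤ e₁)
    {hh : ℕ} (hh1 : (hh : ℝ) ≤ N ^ e₁ * b) {s' : ℕ} (hs' : s ≤ s') (hs'1 : (s' : ℝ) ≤ N ^ e₁ * s)
    (q1 : c₁ + e₁ + e₂ + 5 * ε + 9 / 8 * c ≤ Θ / 4) (q2 : c₁ + e₁ + e₂ + 5 * ε ≤ 3 / 8 * c) :
    N ^ e₂ * ∑ D ∈ range r, Phi E (1 / (E r * E b)) (1 / (E r * E b)) (1 / (E r * E b ^ 2)) (1 / (E r * E b ^ 4))
      hh b s' D ≤ N ^ (Θ - c₁) / 2 := by
  have hN := R.N0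
  have hE := R.Epos r
  have hE' := R.Epos s
  have hE'' := R.Epos b
  have hb0 := h.hb.pos R.N1
  have hε := R.ε0
  have hc := h.c0
  obtain ⟨x, hx⟩ : ∃ x, x = Θ - c₁ - e₁ - e₂ - 3 * ε := ⟨_, rfl⟩
  have e4 : 0 < N ^ x := Real.rpow_pos_of_pos hN _
  refine five39 R (by positivity) (by positivity) (by positivity) he₁ (h.hb.npos R.N1) h.bs (h.bs.trans h.sr) hh1 hs' hs'1 ?_ ?_ ?_ ?_
    (show x + e₁ + e₂ + 3 * ε ≤ Θ - c₁ by linarith)
  · have e1 := (r1 R h).trans (Real.rpow_le_rpow_of_exponent_le R.N1.le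
      (show 3 / 4 * (Θ + ε) + 9 / 8 * c ≤ x by linarith))
    linarith
  · exact (r2 R h).trans (Real.rpow_le_rpow_of_exponent_le R.N1.le (by linarith))
  · have e1 := (r3 R h).trans (Real.rpow_le_rpow_of_exponent_le R.N1.le (show Θ + ε - c ≤ x by linarith))
    linarith
  · have e1 := (r4 R h).trans (Real.rpow_le_rpow_of_exponent_le R.N1.le (show Θ + ε - 2 * c ≤ x by linarith))
    linarith

/-- The price at the scale `b0` of the windows against the one at `b`: `1 / E b0 ≤ N ^ (C / 2 + ε) / E b` for `b ≤ N ^ C b0`. -/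
theorem b0_39 (R : Reg46 E w c₀ Θ δ a ε N) {b0 : ℕ} {C : ℝ} (hb0 : 1 ≤ b0) (hb : b0 ≤ b) (hC : (b : ℝ) ≤ N ^ C * b0) :
    1 / E b0 ≤ N ^ (C / 2 + ε) * (1 / E b) := by
  have hE := R.Epos b
  have hE' := R.Epos b0
  have hN := R.N0
  have h1 := R.Esub hb0 hb hC
  rw [div_le_iff₀ hE']
  calc (1 : ℝ) = (1 / E b) * E b := by field_simp
    _ ≤ (1 / E b) * (N ^ (C / 2 + ε) * E b0) := mul_le_mul_of_nonneg_left h1 (by positivity)
    _ = _ := by ring

end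

end Pool.Agent.W_7d29a1_C0.E2N39
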