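import Pool.Agent.W_7d29a1_C0.E2S39
import Pool.Agent.W_7d29a1_C0.E2N39
import Pool.Agent.W_7d29a1_C0.Num46P

/-!
STORM C0, leaf E2 (helper39): THE TWO-ROW PRICES OF E2 AT THE CORNER, second part: the lists.

* `Cov` : a functional is at most a finite sum of products of places; `prC39` : the averaged price `avy (pr2 (NI zf c) U_j U_k)` of two
  rows as a function of their distance, from `Cov` for every pair of rows `k ≤ j` (with `rows39` it gives the row sum);
* `own39` : own event only: near rows and rows of one block keep one own event, rows of different blocks two;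
* `mic39` : own event and micro tie, both parts (R: blocks `(0, z)`, `(0, m)`; L: blocks `(c1, z)`, `(m, e)`);
* `long39` : own event and a long tie behind the block.
-/

set_option autoImplicit false
set_option linter.unusedSectionVars false
set_option linter.unusedVariables false

namespace Pool.Agent.W_7d29a1_C0.E2S39

open MeasureTheory ProbabilityTheory Filter Topology Finset
open Pool.Agent.W_7d29a1_F Pool.Agent.W_7d29a1_X Pool.Agent.W_7d29a1_h4g Pool.Agent.W_7d29a1_H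
open Pool.Agent.W_7d29a1_HS (In wd md)
open Pool.Agent.W_7d29a1_HZ Pool.Agent.W_7d29a1_HZ.R72 Pool.Agent.W_7d29a1_Z.Asm72
open Pool.Agent.W_7d29a1_HZ.Z86
open Pool.Agent.W_7d29a1_C0.P86
open Pool.Agent.W_7d29a1_C0.Mod92
open Pool.Agent.W_7d29a1_C0.Swap57 (NI cE2 NI_nonneg)
open Pool.Agent.W_7d29a1_C0.MicE14 (rh rh_nonneg)
open Pool.Agent.W_7d29a1_C0.T72 (ind72 meas_ind72)
open Pool.Agent.W_7d29a1_C0.T93 (rdist Fam2 pr2 rw2 grp93)
open Pool.W7d29a1.C0 (gz gm gz_pos gm_nonneg gm_mono gm_const PP PP_mono PP_nonneg)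
open scoped ENNReal

noncomputable section

variable {μ : Measure ℝ} {s : ℝ} {N : ℕ} [IsProbabilityMeasure μ] {ε θ κ M e : ℝ} {ys S : Finset ℕ} {c0 r zf c hh s' : ℕ}
variable {f : Fam N} {F : ℝ}

theorem rdist_comm39 (j k : ℕ) : rdist j k = rdist k j := by
  unfold rdist
  omega

theorem rdist_of_le39 {j k : ℕ} (h : k ≤ j) : rdist j k = j - k := by
  unfold rdist
  omega

/-- The functional `V` is at most a sum of products of places (lists in front of the spectator), total price at most `t`. -/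
def Cov (μ : Measure ℝ) (s : ℝ) (N y : ℕ) (ε X M θ e : ℝ) (zf c : ℕ) (V : Env × Finset ℕ → Px (Pn N y) → ℝ) (t : ℝ) : Prop :=
  ∃ Ls : List (List (Plc × (Env × Finset ℕ → Px (Pn N y) → ℝ))), (∀ Ps ∈ Ls, Lst μ s N y X M θ zf Ps) ∧
    (∀ ω x, V ω x ≤ (Ls.map fun Ps => (Ps.map fun P => P.2 ω x).prod).sum) ∧
    (Ls.map fun Ps => lpr μ s N ε (c - zf) (Ps.map fun P => P.1.l) + e).sum ≤ t

section CovL

variable {y : ℕ} {X : ℝ} {V V' V₁ V₂ : Env × Finset ℕ → Px (Pn N y) → ℝ} {t t' t₁ t₂ : ℝ}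

omit [IsProbabilityMeasure μ] in
theorem Cov.mono (h : Cov μ s N y ε X M θ e zf c V t) (hV : ∀ ω x, V' ω x ≤ V ω x) (ht : t ≤ t') :
    Cov μ s N y ε X M θ e zf c V' t' := by
  obtain ⟨Ls, h1, h2, h3⟩ := h
  exact ⟨Ls, h1, fun ω x => (hV ω x).trans (h2 ω x), h3.trans ht⟩

omit [IsProbabilityMeasure μ] in
theorem Cov.add (h : Cov μ s N y ε X M θ e zf c V₁ t₁) (h' : Cov μ s N y ε X M θ e zf c V₂ t₂)
    (hV : ∀ ω x, V ω x ≤ V₁ ω x + V₂ ω x) : Cov μ s N y ε X M θ e zf c V (t₁ + t₂) := by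
  obtain ⟨Ls, h1, h2, h3⟩ := h
  obtain ⟨Ls', h1', h2', h3'⟩ := h'
  refine ⟨Ls ++ Ls', fun Ps hPs => ?_, fun ω x => ?_, ?_⟩
  · rcases List.mem_append.1 hPs with g | g
    exacts [h1 Ps g, h1' Ps g]
  · rw [List.map_append, List.sum_append]
    exact (hV ω x).trans (add_le_add (h2 ω x) (h2' ω x))
  · rw [List.map_append, List.sum_append]
    exact add_le_add h3 h3'

omit [IsProbabilityMeasure μ] in
theorem Cov.one {Ps : List (Plc × (Env × Finset ℕ → Px (Pn N y) → ℝ))} (h : Lst μ s N y X M θ zf Ps)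
    (hV : ∀ ω x, V ω x ≤ (Ps.map fun P => P.2 ω x).prod) (ht : lpr μ s N ε (c - zf) (Ps.map fun P => P.1.l) + e ≤ t) :
    Cov μ s N y ε X M θ e zf c V t := by
  refine ⟨[Ps], fun Q hQ => ?_, fun ω x => ?_, ?_⟩
  · rw [List.mem_singleton] at hQ
    rw [hQ]
    exact h
  · rw [List.map_cons, List.map_nil, List.sum_cons, List.sum_nil, add_zero]
    exact hV ω x
  · rw [List.map_cons, List.map_nil, List.sum_cons, List.sum_nil, add_zero]
    exact ht

end CovL

/-- **THE PRICE OF TWO ROWS FROM LISTS OF PLACES**, averaged over the ends. -/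
theorem prC39 (hP : Pk39 μ s ε θ κ N ys M e) (hzc : zf ≤ c) (hcN : c ≤ N)
    (hlo : (N : ℝ) ^ θ ≤ ((c - zf : ℕ) : ℝ)) {U : ℕ → Fam N} (U0 : ∀ j ∈ S, ∀ y ω x, 0 ≤ U j y ω x)
    (Um : ∀ j ∈ S, ∀ y x, Measurable fun ω => U j y ω x) (hys : ys.Nonempty) {φ : ℕ → ℝ}
    (hp : ∀ y ∈ ys, ∀ k ∈ S, ∀ j ∈ S, k ≤ j →
      Cov μ s N y ε ((N : ℝ) ^ κ) M θ e zf c (fun ω x => U k y ω x * U j y ω x) (φ (j - k))) :
    ∀ j ∈ S, ∀ k ∈ S, avy ys (pr2 μ s N (fun y ω x z => NI zf c x z) (U j) (U k)) ≤ φ (rdist j k) := fun j hj k hk => by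
  have h1 : ∀ y ∈ ys, pr2 μ s N (fun y ω x z => NI zf c x z) (U j) (U k) y ≤ φ (rdist j k) := fun y hy => by
    rcases le_total k j with hkj | hkj
    · obtain ⟨Ls, l1, l2, l3⟩ := hp y hy k hk j hj hkj
      rw [rdist_of_le39 hkj]
      exact (pair39 hP hy hzc hcN hlo Ls l1 (fun ω x => mul_nonneg (U0 j hj y ω x) (U0 k hk y ω x)) (Um j hj y) (Um k hk y)
        fun ω x => (le_of_eq (mul_comm _ _)).trans (l2 ω x)).trans l3
    · obtain ⟨Ls, l1, l2, l3⟩ := hp y hy j hj k hk hkj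
      rw [rdist_comm39, rdist_of_le39 hkj]
      exact (pair39 hP hy hzc hcN hlo Ls l1 (fun ω x => mul_nonneg (U0 j hj y ω x) (U0 k hk y ω x)) (Um j hj y) (Um k hk y) l2).trans l3
  exact (avy_mono h1).trans (avy_const hys _).le

/-! ### Prices of the lists -/

omit [IsProbabilityMeasure μ] in
theorem lpr_nonneg (lo : ℕ) (ls : List ℕ) : 0 ≤ lpr μ s N ε lo ls := by
  have h1 : ∀ l, 0 ≤ (N : ℝ) ^ ε * (EE' μ s l)⁻¹ := fun l =>
    mul_nonneg (Real.rpow_nonneg (Nat.cast_nonneg _) _) (inv_nonneg.2 (zero_le_one.trans (le_max_left _ _)))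
  unfold lpr
  refine mul_nonneg (h1 _) (List.prod_nonneg fun a ha => ?_)
  obtain ⟨l, -, rfl⟩ := List.mem_map.1 ha
  exact h1 l

/-- A list of places is good if every place is. -/
theorem Lst.mk' {y zf : ℕ} {X M θ : ℝ} {Ps : List (Plc × (Env × Finset ℕ → Px (Pn N y) → ℝ))} (h1 : Ps.length ≤ 7)
    (h2 : ∀ P ∈ Ps, P.1.Ok N N θ ∧ P.1.d' ≤ zf ∧ Dom μ s N y X M P.1 P.2 ∧ ∀ x, Measurable fun ω => P.2 ω x)
    (h3 : Ps.Pairwise fun P P' => P.1.Bef P'.1) : Lst μ s N y X M θ zf Ps := ⟨h1, h2, h3⟩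

/-- The data of a family of places: the place `p j` and the functional `A j`, length `l`. -/
structure Fp (μ : Measure ℝ) (s : ℝ) (N : ℕ) (X M θ : ℝ) (zf : ℕ) (ys S : Finset ℕ) (p : ℕ → Plc) (A : ℕ → Fam N) (l : ℕ) : Prop where
  ok : ∀ j ∈ S, (p j).Ok N N θ ∧ (p j).d' ≤ zf ∧ (p j).l = l
  dom : ∀ j ∈ S, ∀ y ∈ ys, Dom μ s N y X M (p j) (A j y)
  ms : ∀ j ∈ S, ∀ y x, Measurable fun ω => A j y ω x
  a0 : ∀ j ∈ S, ∀ y ω x, 0 ≤ A j y ω x
  a1 : ∀ j ∈ S, ∀ y ω x, A j y ω x ≤ 1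

omit [IsProbabilityMeasure μ] in
theorem Fp.el {X : ℝ} {p : ℕ → Plc} {A : ℕ → Fam N} {l : ℕ} (h : Fp μ s N X M θ zf ys S p A l) {j : ℕ} (hj : j ∈ S) {y : ℕ} (hy : y ∈ ys) :
    (p j).Ok N N θ ∧ (p j).d' ≤ zf ∧ Dom μ s N y X M (p j) (A j y) ∧ ∀ x, Measurable fun ω => A j y ω x :=
  ⟨(h.ok j hj).1, (h.ok j hj).2.1, h.dom j hj y hy, h.ms j hj y⟩

/-- An element of a list of places. -/
def El (μ : Measure ℝ) (s : ℝ) (N y : ℕ) (X M θ : ℝ) (zf : ℕ) (P : Plc × (Env × Finset ℕ → Px (Pn N y) → ℝ)) : Prop :=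
  P.1.Ok N N θ ∧ P.1.d' ≤ zf ∧ Dom μ s N y X M P.1 P.2 ∧ ∀ x, Measurable fun ω => P.2 ω x

section Small

variable {y : ℕ} {X : ℝ} {P₁ P₂ P₃ P₄ : Plc × (Env × Finset ℕ → Px (Pn N y) → ℝ)}

omit [IsProbabilityMeasure μ] in
theorem lst1 (e1 : El μ s N y X M θ zf P₁) : Lst μ s N y X M θ zf [P₁] := by
  refine ⟨by simp, fun P hP => ?_, by simp⟩
  rw [List.mem_singleton.1 hP]
  exact e1

omit [IsProbabilityMeasure μ] in
theorem lst2 (e1 : El μ s N y X M θ zf P₁) (e2 : El μ s N y X M θ zf P₂) (b12 : P₁.1.Bef P₂.1) : Lst μ s N y X M θ zf [P₁, P₂] := by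
  refine ⟨by simp, ?_, by simpa using b12⟩
  simp only [List.mem_cons, List.not_mem_nil, or_false]
  rintro P (rfl | rfl)
  exacts [e1, e2]

omit [IsProbabilityMeasure μ] in
theorem lst3 (e1 : El μ s N y X M θ zf P₁) (e2 : El μ s N y X M θ zf P₂) (e3 : El μ s N y X M θ zf P₃) (b12 : P₁.1.Bef P₂.1)
    (b13 : P₁.1.Bef P₃.1) (b23 : P₂.1.Bef P₃.1) : Lst μ s N y X M θ zf [P₁, P₂, P₃] := by
  refine ⟨by simp, ?_, ?_⟩
  · simp only [List.mem_cons, List.not_mem_nil, or_false]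
    rintro P (rfl | rfl | rfl)
    exacts [e1, e2, e3]
  · simp only [List.pairwise_cons, List.mem_cons, List.not_mem_nil, or_false, forall_eq_or_imp, forall_eq, List.Pairwise.nil, and_true,
      IsEmpty.forall_iff, implies_true]
    exact ⟨⟨b12, b13⟩, b23⟩

omit [IsProbabilityMeasure μ] in
theorem lst4 (e1 : El μ s N y X M θ zf P₁) (e2 : El μ s N y X M θ zf P₂) (e3 : El μ s N y X M θ zf P₃) (e4 : El μ s N y X M θ zf P₄)
    (b12 : P₁.1.Bef P₂.1) (b13 : P₁.1.Bef P₃.1) (b14 : P₁.1.Bef P₄.1) (b23 : P₂.1.Bef P₃.1) (b24 : P₂.1.Bef P₄.1)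
    (b34 : P₃.1.Bef P₄.1) : Lst μ s N y X M θ zf [P₁, P₂, P₃, P₄] := by
  refine ⟨by simp, ?_, ?_⟩
  · simp only [List.mem_cons, List.not_mem_nil, or_false]
    rintro P (rfl | rfl | rfl | rfl)
    exacts [e1, e2, e3, e4]
  · simp only [List.pairwise_cons, List.mem_cons, List.not_mem_nil, or_false, forall_eq_or_imp, forall_eq, List.Pairwise.nil, and_true,
      IsEmpty.forall_iff, implies_true]
    exact ⟨⟨b12, b13, b14⟩, ⟨b23, b24⟩, b34⟩

end Small

section Lists

variable {p q g : ℕ → Plc} {A B G : ℕ → Fam N} {lo lm lg : ℕ}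

/-- The price of own events only. -/
def phO (μ : Measure ℝ) (s : ℝ) (N : ℕ) (ε e : ℝ) (lout lo hh D : ℕ) : ℝ :=
  (if D < hh then lpr μ s N ε lout [lo] + e else 0) + (lpr μ s N ε lout [lo, lo] + e)

/-- The price of an own event and a micro tie. -/
def phM (μ : Measure ℝ) (s : ℝ) (N : ℕ) (ε e : ℝ) (lout lo lm hh s' D : ℕ) : ℝ :=
  (if D < hh then lpr μ s N ε lout [lo] + e else 0) + (if D < s' then lpr μ s N ε lout [lo, lm, lm] + e else 0) +
    (lpr μ s N ε lout [lo, lm, lo, lm] + e)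

/-- The price of an own event and a long tie. -/
def phL (μ : Measure ℝ) (s : ℝ) (N : ℕ) (ε e : ℝ) (lout lo lg hh s' D : ℕ) : ℝ :=
  (if D < hh then lpr μ s N ε lout [lo] + e else 0) + (if D < s' then lpr μ s N ε lout [lg, lo] + e else 0) +
    (lpr μ s N ε lout [lg, lo, lo] + e)

omit [IsProbabilityMeasure μ] in
theorem ph_nonneg (he : 0 ≤ e) (lout lo lm hh s' D : ℕ) : 0 ≤ phO μ s N ε e lout lo hh D ∧ 0 ≤ phM μ s N ε e lout lo lm hh s' D ∧
    0 ≤ phL μ s N ε e lout lo lm hh s' D := by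
  have n1 := fun ls => lpr_nonneg (μ := μ) (s := s) (N := N) (ε := ε) lout ls
  have m1 := n1 [lo]
  have m2 := n1 [lo, lo]
  have m3 := n1 [lo, lm, lm]
  have m4 := n1 [lo, lm, lo, lm]
  have m5 := n1 [lm, lo]
  have m6 := n1 [lm, lo, lo]
  unfold phO phM phL
  refine ⟨?_, ?_, ?_⟩ <;> split_ifs <;> positivity

/-- **OWN EVENTS ONLY.** Rows at distance less than `hh` (near, or in one block) keep one own event. -/
theorem own39 (hP : Pk39 μ s ε θ κ N ys M e) (he : 0 ≤ e) (hzc : zf ≤ c) (hcN : c ≤ N)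
    (hlo : (N : ℝ) ^ θ ≤ ((c - zf : ℕ) : ℝ)) (hys : ys.Nonempty) (hA : Fp μ s N ((N : ℝ) ^ κ) M θ zf ys S p A lo)
    (ord : ∀ k ∈ S, ∀ j ∈ S, k + hh ≤ j → (p j).Bef (p k) ∨ (p k).Bef (p j)) :
    ∀ j ∈ S, ∀ k ∈ S, avy ys (pr2 μ s N (fun y ω x z => NI zf c x z) (A j) (A k)) ≤ phO μ s N ε e (c - zf) lo hh (rdist j k) := by
  have n1 := lpr_nonneg (μ := μ) (s := s) (N := N) (ε := ε) (c - zf) [lo]
  have n2 := lpr_nonneg (μ := μ) (s := s) (N := N) (ε := ε) (c - zf) [lo, lo]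
  refine prC39 hP hzc hcN hlo hA.a0 hA.ms hys fun y hy k hk j hj hkj => ?_
  unfold phO
  have ej : El μ s N y _ M θ zf (p j, A j y) := hA.el hj hy
  have ek : El μ s N y _ M θ zf (p k, A k y) := hA.el hk hy
  have lj := (hA.ok j hj).2.2
  have lk := (hA.ok k hk).2.2
  by_cases hD : j - k < hh
  · refine Cov.one (lst1 ej) (fun ω x => ?_) ?_
    · have a1 := hA.a0 j hj y ω x
      have a2 := hA.a1 k hk y ω x
      simp only [List.map_cons, List.map_nil, List.prod_cons, List.prod_nil, mul_one]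
      nlinarith
    · simp only [List.map_cons, List.map_nil, lj, if_pos hD]
      linarith
  · rcases ord k hk j hj (by omega) with o1 | o1
    · refine Cov.one (lst2 ej ek o1) (fun ω x => ?_) ?_
      · simp only [List.map_cons, List.map_nil, List.prod_cons, List.prod_nil, mul_one]
        exact le_of_eq (mul_comm _ _)
      · simp only [List.map_cons, List.map_nil, lj, lk, if_neg hD]
        linarith
    · refine Cov.one (lst2 ek ej o1) (fun ω x => ?_) ?_
      · simp only [List.map_cons, List.map_nil, List.prod_cons, List.prod_nil, mul_one]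
        exact le_rfl
      · simp only [List.map_cons, List.map_nil, lj, lk, if_neg hD]
        linarith

/-- The order of the places of two rows `k < j` in one block: one own event and the two micro ties. -/
def Os (p q : ℕ → Plc) (k j : ℕ) : Prop :=
  ((p j).Bef (q j) ∧ (p j).Bef (q k) ∧ (q j).Bef (q k)) ∨ ((p k).Bef (q k) ∧ (p k).Bef (q j) ∧ (q k).Bef (q j))

/-- The order of the places of two rows `k < j` in different blocks. -/
def Od (p q : ℕ → Plc) (k j : ℕ) : Prop :=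
  ((p j).Bef (q j) ∧ (p j).Bef (p k) ∧ (p j).Bef (q k) ∧ (q j).Bef (p k) ∧ (q j).Bef (q k) ∧ (p k).Bef (q k)) ∨
    ((p k).Bef (q k) ∧ (p k).Bef (p j) ∧ (p k).Bef (q j) ∧ (q k).Bef (p j) ∧ (q k).Bef (q j) ∧ (p j).Bef (q j))

/-- **OWN EVENT AND MICRO TIE** (both parts). -/
theorem mic39 (hP : Pk39 μ s ε θ κ N ys M e) (he : 0 ≤ e) (hzc : zf ≤ c) (hcN : c ≤ N)
    (hlo : (N : ℝ) ^ θ ≤ ((c - zf : ℕ) : ℝ)) (hys : ys.Nonempty) (hA : Fp μ s N ((N : ℝ) ^ κ) M θ zf ys S p A lo)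
    (hB : Fp μ s N ((N : ℝ) ^ κ) M θ zf ys S q B lm) (ord : ∀ k ∈ S, ∀ j ∈ S, k + hh ≤ j → (j < k + s' ∧ Os p q k j) ∨ Od p q k j) :
    ∀ j ∈ S, ∀ k ∈ S, avy ys (pr2 μ s N (fun y ω x z => NI zf c x z) (fun y ω x => A j y ω x * B j y ω x)
      (fun y ω x => A k y ω x * B k y ω x)) ≤ phM μ s N ε e (c - zf) lo lm hh s' (rdist j k) := by
  have n1 := lpr_nonneg (μ := μ) (s := s) (N := N) (ε := ε) (c - zf) [lo]
  have n2 := lpr_nonneg (μ := μ) (s := s) (N := N) (ε := ε) (c - zf) [lo, lm, lm]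
  have n3 := lpr_nonneg (μ := μ) (s := s) (N := N) (ε := ε) (c - zf) [lo, lm, lo, lm]
  refine prC39 hP hzc hcN hlo (U := fun j y ω x => A j y ω x * B j y ω x)
    (fun j hj y ω x => mul_nonneg (hA.a0 j hj y ω x) (hB.a0 j hj y ω x))
    (fun j hj y x => (hA.ms j hj y x).mul (hB.ms j hj y x)) hys fun y hy k hk j hj hkj => ?_
  unfold phM
  have ej : El μ s N y _ M θ zf (p j, A j y) := hA.el hj hy
  have ek : El μ s N y _ M θ zf (p k, A k y) := hA.el hk hy
  have fj : El μ s N y _ M θ zf (q j, B j y) := hB.el hj hy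
  have fk : El μ s N y _ M θ zf (q k, B k y) := hB.el hk hy
  have lj := (hA.ok j hj).2.2
  have lk := (hA.ok k hk).2.2
  have mj := (hB.ok j hj).2.2
  have mk := (hB.ok k hk).2.2
  have z1 : 0 ≤ (if j - k < hh then lpr μ s N ε (c - zf) [lo] + e else 0) := by split_ifs <;> positivity
  have z2 : 0 ≤ (if j - k < s' then lpr μ s N ε (c - zf) [lo, lm, lm] + e else 0) := by split_ifs <;> positivity
  by_cases hD : j - k < hh
  · refine Cov.one (lst1 ej) (fun ω x => ?_) ?_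
    · have a1 := hA.a0 j hj y ω x
      have a2 := hA.a1 k hk y ω x
      have a3 := hA.a0 k hk y ω x
      have b1 := hB.a0 j hj y ω x
      have b2 := hB.a1 j hj y ω x
      have b3 := hB.a0 k hk y ω x
      have b4 := hB.a1 k hk y ω x
      simp only [List.map_cons, List.map_nil, List.prod_cons, List.prod_nil, mul_one]
      have h1 : A k y ω x * B k y ω x ≤ 1 := mul_le_one₀ a2 b3 b4
      have h2 : A j y ω x * B j y ω x ≤ A j y ω x := mul_le_of_le_one_right a1 b2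
      have h3 := mul_le_mul h1 h2 (mul_nonneg a1 b1) zero_le_one
      linarith
    · rw [if_pos hD]
      simp only [List.map_cons, List.map_nil, lj]
      linarith
  · rcases ord k hk j hj (by omega) with ⟨hs, o1⟩ | o1
    · have hs2 : j - k < s' := by omega
      rcases o1 with ⟨o1, o2, o3⟩ | ⟨o1, o2, o3⟩
      · refine Cov.one (lst3 ej fj fk o1 o2 o3) (fun ω x => ?_) ?_
        · have a2 := hA.a1 k hk y ω x
          have h1 : 0 ≤ A j y ω x * (B j y ω x * B k y ω x) :=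
            mul_nonneg (hA.a0 j hj y ω x) (mul_nonneg (hB.a0 j hj y ω x) (hB.a0 k hk y ω x))
          simp only [List.map_cons, List.map_nil, List.prod_cons, List.prod_nil, mul_one]
          calc A k y ω x * B k y ω x * (A j y ω x * B j y ω x) = A k y ω x * (A j y ω x * (B j y ω x * B k y ω x)) := by ring
            _ ≤ 1 * (A j y ω x * (B j y ω x * B k y ω x)) := mul_le_mul_of_nonneg_right a2 h1
            _ = _ := one_mul _
        · rw [if_pos hs2]
          simp only [List.map_cons, List.map_nil, lj, mj, mk]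
          linarith
      · refine Cov.one (lst3 ek fk fj o1 o2 o3) (fun ω x => ?_) ?_
        · have a2 := hA.a1 j hj y ω x
          have h1 : 0 ≤ A k y ω x * (B k y ω x * B j y ω x) :=
            mul_nonneg (hA.a0 k hk y ω x) (mul_nonneg (hB.a0 k hk y ω x) (hB.a0 j hj y ω x))
          simp only [List.map_cons, List.map_nil, List.prod_cons, List.prod_nil, mul_one]
          calc A k y ω x * B k y ω x * (A j y ω x * B j y ω x) = A j y ω x * (A k y ω x * (B k y ω x * B j y ω x)) := by ring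
            _ ≤ 1 * (A k y ω x * (B k y ω x * B j y ω x)) := mul_le_mul_of_nonneg_right a2 h1
            _ = _ := one_mul _
        · rw [if_pos hs2]
          simp only [List.map_cons, List.map_nil, lk, mj, mk]
          linarith
    · rcases o1 with ⟨o1, o2, o3, o4, o5, o6⟩ | ⟨o1, o2, o3, o4, o5, o6⟩
      · refine Cov.one (lst4 ej fj ek fk o1 o2 o3 o4 o5 o6) (fun ω x => ?_) ?_
        · simp only [List.map_cons, List.map_nil, List.prod_cons, List.prod_nil, mul_one]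
          exact le_of_eq (by ring)
        · simp only [List.map_cons, List.map_nil, lj, lk, mj, mk]
          linarith
      · refine Cov.one (lst4 ek fk ej fj o1 o2 o3 o4 o5 o6) (fun ω x => ?_) ?_
        · simp only [List.map_cons, List.map_nil, List.prod_cons, List.prod_nil, mul_one]
          exact le_of_eq (by ring)
        · simp only [List.map_cons, List.map_nil, lj, lk, mj, mk]
          linarith

/-- **OWN EVENT AND A LONG TIE BEHIND THE BLOCK.** -/
theorem long39 (hP : Pk39 μ s ε θ κ N ys M e) (he : 0 ≤ e) (hzc : zf ≤ c) (hcN : c ≤ N)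
    (hlo : (N : ℝ) ^ θ ≤ ((c - zf : ℕ) : ℝ)) (hys : ys.Nonempty) (hA : Fp μ s N ((N : ℝ) ^ κ) M θ zf ys S p A lo)
    (hG : Fp μ s N ((N : ℝ) ^ κ) M θ zf ys S g G lg) (ord : ∀ k ∈ S, ∀ j ∈ S, k + hh ≤ j → (g j).Bef (p j) ∧
      (j < k + s' ∨ ((g j).Bef (p k) ∧ ((p j).Bef (p k) ∨ (p k).Bef (p j))))) :
    ∀ j ∈ S, ∀ k ∈ S, avy ys (pr2 μ s N (fun y ω x z => NI zf c x z) (fun y ω x => A j y ω x * G j y ω x)
      (fun y ω x => A k y ω x * G k y ω x)) ≤ phL μ s N ε e (c - zf) lo lg hh s' (rdist j k) := by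
  have n1 := lpr_nonneg (μ := μ) (s := s) (N := N) (ε := ε) (c - zf) [lo]
  have n2 := lpr_nonneg (μ := μ) (s := s) (N := N) (ε := ε) (c - zf) [lg, lo]
  have n3 := lpr_nonneg (μ := μ) (s := s) (N := N) (ε := ε) (c - zf) [lg, lo, lo]
  refine prC39 hP hzc hcN hlo (U := fun j y ω x => A j y ω x * G j y ω x)
    (fun j hj y ω x => mul_nonneg (hA.a0 j hj y ω x) (hG.a0 j hj y ω x))
    (fun j hj y x => (hA.ms j hj y x).mul (hG.ms j hj y x)) hys fun y hy k hk j hj hkj => ?_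
  unfold phL
  have ej : El μ s N y _ M θ zf (p j, A j y) := hA.el hj hy
  have ek : El μ s N y _ M θ zf (p k, A k y) := hA.el hk hy
  have fj : El μ s N y _ M θ zf (g j, G j y) := hG.el hj hy
  have lj := (hA.ok j hj).2.2
  have lk := (hA.ok k hk).2.2
  have mj := (hG.ok j hj).2.2
  have z1 : 0 ≤ (if j - k < hh then lpr μ s N ε (c - zf) [lo] + e else 0) := by split_ifs <;> positivity
  have z2 : 0 ≤ (if j - k < s' then lpr μ s N ε (c - zf) [lg, lo] + e else 0) := by split_ifs <;> positivity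
  have up : ∀ ω x, A k y ω x * G k y ω x * (A j y ω x * G j y ω x) ≤ G j y ω x * (A j y ω x * A k y ω x) := fun ω x => by
    have h1 : 0 ≤ G j y ω x * (A j y ω x * A k y ω x) :=
      mul_nonneg (hG.a0 j hj y ω x) (mul_nonneg (hA.a0 j hj y ω x) (hA.a0 k hk y ω x))
    have h2 := mul_le_mul_of_nonneg_left (hG.a1 k hk y ω x) h1
    nlinarith
  have up2 : ∀ ω x, G j y ω x * (A j y ω x * A k y ω x) ≤ G j y ω x * A j y ω x := fun ω x =>
    mul_le_mul_of_nonneg_left (mul_le_of_le_one_right (hA.a0 j hj y ω x) (hA.a1 k hk y ω x)) (hG.a0 j hj y ω x)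
  by_cases hD : j - k < hh
  · refine Cov.one (lst1 ej) (fun ω x => (up ω x).trans ((up2 ω x).trans ?_)) ?_
    · simp only [List.map_cons, List.map_nil, List.prod_cons, List.prod_nil, mul_one]
      exact mul_le_of_le_one_left (hA.a0 j hj y ω x) (hG.a1 j hj y ω x)
    · rw [if_pos hD]
      simp only [List.map_cons, List.map_nil, lj]
      linarith
  · obtain ⟨o0, o1⟩ := ord k hk j hj (by omega)
    rcases o1 with hs | ⟨o1, o2⟩
    · have hs2 : j - k < s' := by omega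
      refine Cov.one (lst2 fj ej o0) (fun ω x => (up ω x).trans ((up2 ω x).trans ?_)) ?_
      · simp only [List.map_cons, List.map_nil, List.prod_cons, List.prod_nil, mul_one]
        exact le_rfl
      · rw [if_pos hs2]
        simp only [List.map_cons, List.map_nil, lj, mj]
        linarith
    · rcases o2 with o2 | o2
      · refine Cov.one (lst3 fj ej ek o0 o1 o2) (fun ω x => (up ω x).trans ?_) ?_
        · simp only [List.map_cons, List.map_nil, List.prod_cons, List.prod_nil, mul_one]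
          exact le_rfl
        · simp only [List.map_cons, List.map_nil, lj, lk, mj]
          linarith
      · refine Cov.one (lst3 fj ek ej o1 o0 o2) (fun ω x => (up ω x).trans ?_) ?_
        · simp only [List.map_cons, List.map_nil, List.prod_cons, List.prod_nil, mul_one]
          exact le_of_eq (by ring)
        · simp only [List.map_cons, List.map_nil, lj, lk, mj]
          linarith

end Lists

end

end Pool.Agent.W_7d29a1_C0.E2S39
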