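import Pool.Agent.W_7d29a1_C0.E2G43
import Pool.Agent.W_7d29a1_C0.E2S39B
import Pool.Agent.W_7d29a1_C0.MicN96

/-!
MP_7d29a1_pr, [CURV0] (helper43), section E2: THE CONSTANTS OF THE ROWS OF (E2) AT THE CONCRETE FRAME. `Cst43`: the level `M` of the robust
events, the number `q` of the pieces, the prices `Pk39` of all the lists of places (loss `n ^ ι`), the corner data `Rw96` of all the rows
(loss `n ^ ι`, errors `L ^ (-8)`). `cst43_est`: they exist, in the order of the small exponents.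
-/

set_option autoImplicit false

namespace Pool.Agent.W_7d29a1_C0.E2K43

open Finset MeasureTheory Filter Topology Pool.Agent.W_7d29a1_F Pool.Agent.W_7d29a1_X
open Pool.Agent.W_7d29a1_H (EE sl)
open Pool.Agent.W_7d29a1_HS (In)
open Pool.Agent.W_7d29a1_HZ (wd')
open Pool.Agent.W_7d29a1_C0 Pool.Agent.W_7d29a1_C0.Mod92 Pool.Agent.W_7d29a1_C0.Asm96 Pool.Agent.W_7d29a1_C0.EstC46
open Pool.Agent.W_7d29a1_C0.Frm33 Pool.Agent.W_7d29a1_C0.E2G43 Pool.Agent.W_7d29a1_C0.E2S39 Pool.Agent.W_7d29a1_C0.MicN96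
open Pool.Agent.W_7d29a1_C0.Tv48 (EndOk)
open Pool.Agent.W_7d29a1_C0.EvT50 (ev_pw50 ev_exp50)
open Pool.Agent.W_7d29a1_C0.Par92 (Est Sml)
open Pool.W7d29a1.C0

noncomputable section

/-- **THE CONSTANTS AT ONE LENGTH.** -/
structure Cst43 (μ : Measure ℝ) (s : ℝ) (K : ℕ) (δ ι β γ : ℝ) (m : ℕ) (εM κ M e : ℝ) (q : ℕ) : Prop where
  εM0 : 0 < εM
  M8 : 8 ≤ M
  Me : ((L33 K m : ℕ) : ℝ) ^ εM ≤ M
  Mn : M ≤ ((2 ^ m : ℕ) : ℝ) ^ ι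
  q1 : 10 * M ≤ q
  q2 : (q : ℝ) ≤ 20 * M
  Mκ : 120 * M ≤ ((L33 K m : ℕ) : ℝ) ^ κ
  pk : Pk39 μ s (ι / K) (δ / (8 * K)) κ (L33 K m) (ys33 μ s K m) M e
  e0 : 0 ≤ e
  e8 : e ≤ ((L33 K m : ℕ) : ℝ) ^ (-8 : ℝ)
  rw : ∀ p : ℕ, δ * m ≤ p → ∀ y ∈ ys33 μ s K m, ∀ j : ℕ, 2 ^ (p - ⌈ι * (m : ℝ)⌉₊) ≤ j → ∀ t : ℝ, |t| ≤ 1 →
    ∀ c0 Kg : ℕ, j + 2 ^ (p - ⌈ι * (m : ℝ)⌉₊) ≤ c0 → 2 ^ (p - ⌈ι * (m : ℝ)⌉₊) ≤ Kg → c0 + Kg ≤ L33 K m →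
      Rw96 μ s (L33 K m) (Pn (L33 K m) y) γ (B33 β m) (2 ^ (p - ⌈ι * (m : ℝ)⌉₊)) j t c0 Kg (ι / K) εM 8
  eM : Real.exp (-M) ≤ ((L33 K m : ℕ) : ℝ) ^ (-8 : ℝ)

variable {μ : Measure ℝ} {s : ℝ}

/-- `L ^ (x / K) = n ^ x`. -/
theorem L_pow43 {K : ℕ} (hK : 1 ≤ K) (m : ℕ) (x : ℝ) : ((L33 K m : ℕ) : ℝ) ^ (x / K) = ((2 ^ m : ℕ) : ℝ) ^ x := by
  have h : (K : ℝ) ≠ 0 := by
    have : (1 : ℝ) ≤ K := by exact_mod_cast hK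
    linarith
  rw [L33_pow]
  congr 1
  field_simp

/-- **THE CONSTANTS EXIST.** -/
theorem cst43_est [IsProbabilityMeasure μ] {c C : ℝ} {n₀ : ℕ} (h : In μ s c C n₀)
    (hQI : ∀ p : ℝ, 1 < p → ∃ C θ0 : ℝ, 0 ≤ C ∧ 0 < θ0 ∧ H27.QI μ p C θ0) {K : ℕ} (hK : 32 ≤ K) {δ : ℝ} (hδ : 0 < δ) (hδ1 : δ ≤ 1) :
    Est fun ι β γ m => ∃ (εM κ M e : ℝ) (q : ℕ), Cst43 μ s K δ ι β γ m εM κ M e q := by
  have hK0 : (0 : ℝ) < K := by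
    have : (32 : ℝ) ≤ K := by exact_mod_cast hK
    linarith
  have hK1 : (1 : ℝ) ≤ K := by
    have : (32 : ℝ) ≤ K := by exact_mod_cast hK
    linarith
  refine ⟨δ / 4, by positivity, fun ι hι hιδ => ?_⟩
  obtain ⟨δp, κ, c₂, hδp, hκ, hc₂, L₀, hL₀, hP⟩ := pk39 (s := s) h (ι / K) (δ / (8 * K)) (by positivity) (by positivity)
  obtain ⟨εM, hεM⟩ : ∃ x : ℝ, x = min (ι / K) κ / 2 := ⟨_, rfl⟩
  have hεM0 : 0 < εM := by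
    rw [hεM]
    exact half_pos (lt_min (by positivity) hκ)
  have hεMκ : εM < κ := by
    have : min (ι / K) κ ≤ κ := min_le_right _ _
    linarith
  have hεMι : εM ≤ ι / K := by
    have : min (ι / K) κ ≤ ι / K := min_le_left _ _
    linarith
  have hιK : ι / K ≤ 1 := by
    rw [div_le_one hK0]
    linarith
  obtain ⟨β₀, γ₀, hβ₀, hγ₀, H⟩ := rw96 h hQI (κ := δ / (4 * K)) (ε := ι / K) (εM := εM) (K' := 8) (by positivity)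
    (by rw [div_le_one (by positivity)]; linarith) (by positivity) hιK hεM0 (by norm_num)
  refine ⟨β₀, hβ₀, fun β hβ hβ' => ⟨γ₀, hγ₀, fun γ hγ hγ' => ?_⟩⟩
  obtain ⟨δ', hδ', N₀, H⟩ := H γ hγ hγ'
  have evA : ∀ᶠ N : ℕ in atTop, 120 * (N : ℝ) ^ εM ≤ (N : ℝ) ^ κ ∧ 8 ≤ (N : ℝ) ^ εM ∧
      Real.exp (-(1 * (N : ℝ) ^ c₂)) ≤ (N : ℝ) ^ (-9 : ℝ) ∧ 16 * Real.exp (-(1 * (N : ℝ) ^ εM)) ≤ (N : ℝ) ^ (-9 : ℝ) ∧ 2 ≤ N := by
    filter_upwards [ev_pw50 hεMκ 120, ev_pw50 hεM0 8, ev_exp50 1 9 (a := 1) one_pos hc₂, ev_exp50 16 9 (a := 1) one_pos hεM0,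
      eventually_ge_atTop 2] with N h1 h2 h3 h4 h5
    rw [Real.rpow_zero, mul_one] at h2
    rw [one_mul] at h3
    exact ⟨h1, h2, h3, h4, h5⟩
  obtain ⟨N₁, hN₁⟩ := eventually_atTop.1 evA
  filter_upwards [ev_L (by omega : 1 ≤ K) (max N₀ (max L₀ N₁)), cone33 h hK hδ', cone33 h hK hδp, b0_33 hδ hιδ] with m h1 h2 h3 h4
  obtain ⟨N, hN⟩ : ∃ N : ℕ, N = L33 K m := ⟨_, rfl⟩
  rw [← hN] at h1
  have k0 : N₀ ≤ N := (le_max_left _ _).trans h1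
  have k1 : L₀ ≤ N := (le_max_left _ _).trans ((le_max_right _ _).trans h1)
  have k2 : N₁ ≤ N := (le_max_right _ _).trans ((le_max_right _ _).trans h1)
  obtain ⟨a1, a2, a3, a4, a5⟩ := hN₁ N k2
  have hN2 : (2 : ℝ) ≤ N := by exact_mod_cast a5
  have hN0 : (0 : ℝ) < N := by linarith
  have hn1 := n_ge1 m
  have hys : ∀ y ∈ ys33 μ s K m, y33 μ s K m ≤ y + 1 ∧ y ≤ y33 μ s K m + M33 m := fun y hy => by
    have := mem_Ico.1 (show y ∈ Ico (y33 μ s K m) (y33 μ s K m + M33 m) from hy)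
    omega
  have hMn : (N : ℝ) ^ εM ≤ ((2 ^ m : ℕ) : ℝ) ^ ι := by
    rw [← L_pow43 (by omega : 1 ≤ K) m ι, ← hN]
    exact Real.rpow_le_rpow_of_exponent_le (by linarith) hεMι
  obtain ⟨q, hq⟩ : ∃ q : ℕ, q = ⌈10 * (N : ℝ) ^ εM⌉₊ := ⟨_, rfl⟩
  have hq1 : 10 * (N : ℝ) ^ εM ≤ q := by
    rw [hq]
    exact Nat.le_ceil _
  have hq2 : (q : ℝ) ≤ 20 * (N : ℝ) ^ εM := by
    have : (q : ℝ) < 10 * (N : ℝ) ^ εM + 1 := by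
      rw [hq]
      exact Nat.ceil_lt_add_one (by positivity)
    linarith
  refine ⟨εM, κ, (N : ℝ) ^ εM, Real.exp (-(N : ℝ) ^ c₂) + 16 * Real.exp (-(N : ℝ) ^ εM), q, hεM0, a2, by rw [← hN], hMn, hq1, hq2,
    by rw [← hN]; exact a1, ?_, by positivity, ?_, ?_, ?_⟩
  · rw [← hN]
    refine hP N k1 (ys33 μ s K m) (fun y hy => ?_) _ a2 (by linarith [Real.rpow_nonneg hN0.le εM])
    have h5 := h3.2.2 y (hys y hy).1 (hys y hy).2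
    rw [hN]
    exact h5
  · rw [← hN]
    rw [one_mul] at a3 a4
    have e1 : (N : ℝ) ^ (-9 : ℝ) + (N : ℝ) ^ (-9 : ℝ) ≤ (N : ℝ) ^ (-8 : ℝ) := by
      have e2 : (N : ℝ) ^ (-8 : ℝ) = (N : ℝ) ^ (-9 : ℝ) * N := by
        rw [show (-8 : ℝ) = -9 + 1 by norm_num, Real.rpow_add hN0, Real.rpow_one]
      rw [e2]
      nlinarith [Real.rpow_pos_of_pos hN0 (-9)]
    linarith
  · intro p hp y hy j hj t ht c0 Kg hc hKg hcK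
    obtain ⟨hyL, hyc⟩ := h2.2.2 y (hys y hy).1 (hys y hy).2
    have hne : Nonempty (Px (Pn (L33 K m) y)) := ne_Pn hyL
    have e1 : ((L33 K m : ℕ) : ℝ) ^ (δ / (4 * K)) = ((2 ^ m : ℕ) : ℝ) ^ (δ / 4) := by
      rw [← L_pow43 (by omega : 1 ≤ K) m (δ / 4)]
      congr 1
      field_simp
    have hb := h4 p hp
    refine H (L33 K m) (by rw [← hN]; exact k0) y hyL hyc (B33 β m) (by unfold B33; positivity) ?_ _ j (by rw [e1]; exact hb) hj t ht c0 Kg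
      hc ?_ hcK
    · unfold B33
      rw [L33_pow]
      refine Real.rpow_le_rpow_of_exponent_le hn1 ?_
      nlinarith
    · rw [e1]
      exact hb.trans (by exact_mod_cast hKg)
  · rw [← hN]
    rw [one_mul] at a4
    have e1 : (N : ℝ) ^ (-9 : ℝ) ≤ (N : ℝ) ^ (-8 : ℝ) := Real.rpow_le_rpow_of_exponent_le (by linarith) (by norm_num)
    have e2 := Real.exp_pos (-(N : ℝ) ^ εM)
    linarith

end

end Pool.Agent.W_7d29a1_C0.E2K43
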