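import Pool.Agent.W_7d29a1_C0.DgM11B
import Pool.Agent.W_7d29a1_C0.E2K43

/-!
MP_7d29a1_pr, [C0], helper11: THE CONSTANTS OF (E2) WITH THE PRICE OF THE DOUBLE TIES. `cst11_est`: `cst43_est` of helper43 (the proof is its
proof) with the member `PkD11`.
-/

set_option autoImplicit false

namespace Pool.Agent.W_7d29a1_C0.Dg11

open Finset MeasureTheory Filter Topology Pool.Agent.W_7d29a1_F Pool.Agent.W_7d29a1_X
open Pool.Agent.W_7d29a1_H (EE sl)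
open Pool.Agent.W_7d29a1_HS (In)
open Pool.Agent.W_7d29a1_HZ (wd')
open Pool.Agent.W_7d29a1_C0 Pool.Agent.W_7d29a1_C0.Mod92 Pool.Agent.W_7d29a1_C0.Asm96 Pool.Agent.W_7d29a1_C0.EstC46
open Pool.Agent.W_7d29a1_C0.Frm33 Pool.Agent.W_7d29a1_C0.E2G43 Pool.Agent.W_7d29a1_C0.E2S39 Pool.Agent.W_7d29a1_C0.MicN96
open Pool.Agent.W_7d29a1_C0.E2K43
open Pool.Agent.W_7d29a1_C0.Tv48 (EndOk)
open Pool.Agent.W_7d29a1_C0.EvT50 (ev_pw50 ev_exp50)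
open Pool.Agent.W_7d29a1_C0.Par92 (Est Sml)
open Pool.W7d29a1.C0

noncomputable section

variable {μ : Measure ℝ} {s : ℝ}

/-- A smaller level. -/
theorem pk_mono11 {ε θ κ κ' : ℝ} {N : ℕ} {ys : Finset ℕ} {M e e' : ℝ} (h : Pk39 μ s ε θ κ N ys M e) (hκ : κ' ≤ κ) (hκ' : 0 ≤ κ')
    (he : e ≤ e') : Pk39 μ s ε θ κ' N ys M e' where
  N1 := h.N1
  yN := h.yN
  X1 := Real.one_le_rpow (by exact_mod_cast h.N1) hκ'
  pr y hy Ps hlen hok hpw hdom := (h.pr y hy Ps hlen hok hpw fun P hP => Dom.mono (hdom P hP)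
    (Real.rpow_le_rpow_of_exponent_le (by exact_mod_cast h.N1) hκ)).trans (by linarith)

/-- **THE CONSTANTS EXIST, WITH THE PRICE OF THE DOUBLE TIES.** -/
theorem cst11_est [IsProbabilityMeasure μ] {c C : ℝ} {n₀ : ℕ} (h : In μ s c C n₀)
    (hQI : ∀ p : ℝ, 1 < p → ∃ C θ0 : ℝ, 0 ≤ C ∧ 0 < θ0 ∧ H27.QI μ p C θ0) {K : ℕ} (hK : 32 ≤ K) {δ : ℝ} (hδ : 0 < δ) (hδ1 : δ ≤ 1) :
    Est fun ι β γ m => ∃ (εM κ M e : ℝ) (q : ℕ), Cst43 μ s K δ ι β γ m εM κ M e q ∧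
      PkD11 μ s (ι / K) (δ / (8 * K)) κ (L33 K m) (ys33 μ s K m) e := by
  have hK0 : (0 : ℝ) < K := by
    have : (32 : ℝ) ≤ K := by exact_mod_cast hK
    linarith
  have hK1 : (1 : ℝ) ≤ K := by
    have : (32 : ℝ) ≤ K := by exact_mod_cast hK
    linarith
  refine ⟨δ / 4, by positivity, fun ι hι hιδ => ?_⟩
  obtain ⟨δp, κ₁, c₂, hδp, hκ₁, hc₂, L₀, hL₀, hP⟩ := pk39 (s := s) h (ι / K) (δ / (8 * K)) (by positivity) (by positivity)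
  obtain ⟨δd, κ₂, c₃, hδd, hκ₂, hc₃, L₁, hL₁, hD⟩ := pkD11 (s := s) h (ι / K) (δ / (8 * K)) (by positivity) (by positivity)
  obtain ⟨κ, hκd⟩ : ∃ κ : ℝ, κ = min κ₁ κ₂ := ⟨_, rfl⟩
  have hκ : 0 < κ := by rw [hκd]; exact lt_min hκ₁ hκ₂
  obtain ⟨εM, hεM⟩ : ∃ x : ℝ, x = min (ι / K) κ / 2 := ⟨_, rfl⟩
  have hεM0 : 0 < εM := by
    rw [hεM]
    exact half_pos (lt_min (by positivity) hκ)
  have hεMκ : εM < κ := by
    have : min (ι / K) κ ≤ κ := min_le_right _ _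
    linarith
  have hεMι : εM ≤ ι / K := by
    have : min (ι / K) κ ≤ ι / K := min_le_left _ _
    linarith
  have hιK : ι / K ≤ 1 := by
    rw [div_le_one hK0]
    linarith
  obtain ⟨β₀, γ₀, hβ₀, hγ₀, H⟩ := rw96 h hQI (κ := δ / (4 * K)) (ε := ι / K) (εM := εM) (K' := 8) (by positivity)
    (by rw [div_le_one (by positivity)]; linarith) (by positivity) hιK hεM0 (by norm_num)
  refine ⟨β₀, hβ₀, fun β hβ hβ' => ⟨γ₀, hγ₀, fun γ hγ hγ' => ?_⟩⟩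
  obtain ⟨δ', hδ', N₀, H⟩ := H γ hγ hγ'
  have evA : ∀ᶠ N : ℕ in atTop, 120 * (N : ℝ) ^ εM ≤ (N : ℝ) ^ κ ∧ 8 ≤ (N : ℝ) ^ εM ∧
      Real.exp (-(1 * (N : ℝ) ^ (min c₂ c₃))) ≤ (N : ℝ) ^ (-9 : ℝ) ∧ 16 * Real.exp (-(1 * (N : ℝ) ^ εM)) ≤ (N : ℝ) ^ (-9 : ℝ) ∧ 2 ≤ N := by
    filter_upwards [ev_pw50 hεMκ 120, ev_pw50 hεM0 8, ev_exp50 1 9 (a := 1) one_pos (lt_min hc₂ hc₃), ev_exp50 16 9 (a := 1) one_pos hεM0,
      eventually_ge_atTop 2] with N h1 h2 h3 h4 h5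
    rw [Real.rpow_zero, mul_one] at h2
    rw [one_mul] at h3
    exact ⟨h1, h2, h3, h4, h5⟩
  obtain ⟨N₁, hN₁⟩ := eventually_atTop.1 evA
  filter_upwards [ev_L (by omega : 1 ≤ K) (max N₀ (max (max L₀ L₁) N₁)), cone33 h hK hδ', cone33 h hK hδp, cone33 h hK hδd,
    b0_33 hδ hιδ] with m h1 h2 h3 h3' h4
  obtain ⟨N, hN⟩ : ∃ N : ℕ, N = L33 K m := ⟨_, rfl⟩
  rw [← hN] at h1
  have k0 : N₀ ≤ N := (le_max_left _ _).trans h1
  have k1 : L₀ ≤ N := (le_max_left _ _).trans ((le_max_left _ _).trans ((le_max_right _ _).trans h1))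
  have k1' : L₁ ≤ N := (le_max_right _ _).trans ((le_max_left _ _).trans ((le_max_right _ _).trans h1))
  have k2 : N₁ ≤ N := (le_max_right _ _).trans ((le_max_right _ _).trans h1)
  obtain ⟨a1, a2, a3, a4, a5⟩ := hN₁ N k2
  have hN2 : (2 : ℝ) ≤ N := by exact_mod_cast a5
  have hN0 : (0 : ℝ) < N := by linarith
  have hn1 := n_ge1 m
  have hys : ∀ y ∈ ys33 μ s K m, y33 μ s K m ≤ y + 1 ∧ y ≤ y33 μ s K m + M33 m := fun y hy => by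
    have := mem_Ico.1 (show y ∈ Ico (y33 μ s K m) (y33 μ s K m + M33 m) from hy)
    omega
  have hMn : (N : ℝ) ^ εM ≤ ((2 ^ m : ℕ) : ℝ) ^ ι := by
    rw [← L_pow43 (by omega : 1 ≤ K) m ι, ← hN]
    exact Real.rpow_le_rpow_of_exponent_le (by linarith) hεMι
  obtain ⟨q, hq⟩ : ∃ q : ℕ, q = ⌈10 * (N : ℝ) ^ εM⌉₊ := ⟨_, rfl⟩
  have hq1 : 10 * (N : ℝ) ^ εM ≤ q := by
    rw [hq]
    exact Nat.le_ceil _
  have hq2 : (q : ℝ) ≤ 20 * (N : ℝ) ^ εM := by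
    have : (q : ℝ) < 10 * (N : ℝ) ^ εM + 1 := by
      rw [hq]
      exact Nat.ceil_lt_add_one (by positivity)
    linarith
  have x2 : Real.exp (-(N : ℝ) ^ c₂) ≤ Real.exp (-(N : ℝ) ^ (min c₂ c₃)) :=
    Real.exp_le_exp.2 (neg_le_neg (Real.rpow_le_rpow_of_exponent_le (by linarith) (min_le_left _ _)))
  have x3 : Real.exp (-(N : ℝ) ^ c₃) ≤ Real.exp (-(N : ℝ) ^ (min c₂ c₃)) :=
    Real.exp_le_exp.2 (neg_le_neg (Real.rpow_le_rpow_of_exponent_le (by linarith) (min_le_right _ _)))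
  refine ⟨εM, κ, (N : ℝ) ^ εM, Real.exp (-(N : ℝ) ^ (min c₂ c₃)) + 16 * Real.exp (-(N : ℝ) ^ εM), q, ⟨hεM0, a2, by rw [← hN], hMn, hq1, hq2,
    by rw [← hN]; exact a1, ?_, by positivity, ?_, ?_, ?_⟩, ?_⟩
  · rw [← hN]
    refine pk_mono11 (hP N k1 (ys33 μ s K m) (fun y hy => ?_) _ a2 ?_) (by rw [hκd]; exact min_le_left _ _) hκ.le (by linarith)
    · have h5 := h3.2.2 y (hys y hy).1 (hys y hy).2
      rw [hN]
      exact h5
    · refine le_trans ?_ (Real.rpow_le_rpow_of_exponent_le (by linarith) (show κ ≤ κ₁ by rw [hκd]; exact min_le_left _ _))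
      linarith [Real.rpow_nonneg hN0.le εM]
  · rw [← hN]
    rw [one_mul] at a3 a4
    have e1 : (N : ℝ) ^ (-9 : ℝ) + (N : ℝ) ^ (-9 : ℝ) ≤ (N : ℝ) ^ (-8 : ℝ) := by
      have e2 : (N : ℝ) ^ (-8 : ℝ) = (N : ℝ) ^ (-9 : ℝ) * N := by
        rw [show (-8 : ℝ) = -9 + 1 by norm_num, Real.rpow_add hN0, Real.rpow_one]
      rw [e2]
      nlinarith [Real.rpow_pos_of_pos hN0 (-9)]
    linarith
  · intro p hp y hy j hj t ht c0 Kg hc hKg hcK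
    obtain ⟨hyL, hyc⟩ := h2.2.2 y (hys y hy).1 (hys y hy).2
    have hne : Nonempty (Px (Pn (L33 K m) y)) := ne_Pn hyL
    have e1 : ((L33 K m : ℕ) : ℝ) ^ (δ / (4 * K)) = ((2 ^ m : ℕ) : ℝ) ^ (δ / 4) := by
      rw [← L_pow43 (by omega : 1 ≤ K) m (δ / 4)]
      congr 1
      field_simp
    have hb := h4 p hp
    refine H (L33 K m) (by rw [← hN]; exact k0) y hyL hyc (B33 β m) (by unfold B33; positivity) ?_ _ j (by rw [e1]; exact hb) hj t ht c0 Kg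
      hc ?_ hcK
    · unfold B33
      rw [L33_pow]
      refine Real.rpow_le_rpow_of_exponent_le hn1 ?_
      nlinarith
    · rw [e1]
      exact hb.trans (by exact_mod_cast hKg)
  · rw [← hN]
    rw [one_mul] at a4
    have e1 : (N : ℝ) ^ (-9 : ℝ) ≤ (N : ℝ) ^ (-8 : ℝ) := Real.rpow_le_rpow_of_exponent_le (by linarith) (by norm_num)
    have e2 := Real.exp_pos (-(N : ℝ) ^ εM)
    linarith
  · rw [← hN]
    refine hD N k1' (ys33 μ s K m) (fun y hy => ?_) κ (by rw [hκd]; exact min_le_right _ _) _ ?_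
    · have h5 := h3'.2.2 y (hys y hy).1 (hys y hy).2
      rw [hN]
      exact h5
    · linarith [Real.exp_pos (-(N : ℝ) ^ εM)]

end

end Pool.Agent.W_7d29a1_C0.Dg11
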