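import Pool.Agent.W_7d29a1_C0.MicT14

/-!
CURV0 (MP_7d29a1_pr), section E2, forward slabs: THE REMAINDERS WITHOUT THE TWO BRANCH TERMS. `N = g - Cq` (forward slab average), the
observable sees `x 0` only behind the slab. `one_box14`: one insertion, localised: only `x 2`, `x 1` and the shadow of `x 1`.
`two_h14`: `ev2 (ins N (ins g Ψ)) = ev1 (ins (g N) Ψ)` up to the same terms (EXACT cancellation at `x 0` and at the free shadows).
`mac14`: the remainder of the macro slab for `T = h`; `gam14`: the slab average `Γ (x 2)` is moved by an exact exchange: the inner pair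
is told given `pJ 0 m'`, in front of the tie of `f`. (helper14)
-/

set_option autoImplicit false
set_option linter.unusedSectionVars false
set_option linter.unusedVariables false

namespace Pool.Agent.W_7d29a1_C0.MicH14

open Finset MeasureTheory Pool.Agent.W_7d29a1_F Pool.Agent.W_7d29a1_X Pool.Agent.W_7d29a1_C0 Pool.Agent.W_7d29a1_C0.Mod92
open Pool.W7d29a1.C0 Pool.W7d29a1.C0.VT31 Pool.W7d29a1.C0.I52 Pool.Agent.W_7d29a1_C0.Swap57
open Pool.Agent.W_7d29a1_C0.CutE14 Pool.Agent.W_7d29a1_C0.MicE14 Pool.Agent.W_7d29a1_C0.MicT14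
open Pool.W7d29a1.C0.H41 (lcG)

noncomputable section

section Abs

variable {X : Type*} [Fintype X] [DecidableEq X] [Nonempty X] {Y Y' : Type*} [DecidableEq Y] [DecidableEq Y']
  {p : X → Y} {w : X → ℝ} {I ρ : X → X → ℝ} {K0 M : ℝ} {Ψ : (Fin 3 → X) → ℝ} {g n : X → ℝ} {J : Finset ℕ} {q : ℕ → X → Y'}

/-- The observable sees `x 0` only through `q m`, `m` in the slab. -/
def Ox (J : Finset ℕ) (q : ℕ → X → Y') (Ψ : (Fin 3 → X) → ℝ) : Prop :=
  ∃ F : X → X → X → ℝ, (∀ x, Ψ x = F (x 2) (x 1) (x 0)) ∧ ∀ m ∈ J, ∀ a b, Mp (q m) (F a b)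

/-- A function of `q m`, `m` in the slab, is orthogonal to the remainder. -/
theorem gm_orth (w : X → ℝ) (T : X → ℝ) {F : X → ℝ} (hF : ∀ m ∈ J, Mp (q m) F) (hJ : J.Nonempty) :
    gm w (fun e => F e * (T - Cq w J q T) e) = 0 := by
  have h0 : (J.card : ℝ) ≠ 0 := Nat.cast_ne_zero.2 (card_pos.2 hJ).ne'
  have e1 : (fun e => F e * (T - Cq w J q T) e) = fun e => F e * T e - (J.card : ℝ)⁻¹ * ∑ m ∈ J, F e * cE w (q m) T e := by
    funext e
    show F e * (T e - (J.card : ℝ)⁻¹ * ∑ m ∈ J, cE w (q m) T e) = _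
    rw [mul_sub, ← Finset.mul_sum]
    ring
  have e2 : ∀ m ∈ J, av w univ (fun e => F e * cE w (q m) T e) = gm w (F * T) := fun m hm => by
    rw [← gm_eq_av]
    exact gm_mul_cE w (hF m hm) T
  rw [e1, gm_eq_av, av_sub, av_smul, av_sum, Finset.sum_congr rfl e2, Finset.sum_const, nsmul_eq_mul, ← mul_assoc,
    inv_mul_cancel₀ h0, one_mul, gm_eq_av]
  exact sub_self _

/-- **`x 0` is orthogonal to the remainder.** -/
theorem x0_zero (hΨ : Ox J q Ψ) (hJ : J.Nonempty) (p : X → Y) (w T : X → ℝ) :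
    ev (P3 p) w (fun x => Ψ x * (T - Cq w J q T) (x 0)) = 0 := by
  obtain ⟨F, hF, hm⟩ := hΨ
  have e : ∀ x, Ψ x * (T - Cq w J q T) (x 0) = (fun a b e => F a b e * (T - Cq w J q T) e) (x 2) (x 1) (x 0) := fun x => by
    rw [hF x]
  rw [I52.ev_congr _ _ e, ev_P3 p w fun a b e => F a b e * (T - Cq w J q T) e]
  have e1 : (fun a => cE w p (fun b => gm w fun e => F a b e * (T - Cq w J q T) e) a) = fun _ => (0 : ℝ) := by
    funext a
    have e2 : (fun b => gm w fun e => F a b e * (T - Cq w J q T) e) = 0 := by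
      funext b
      exact gm_orth w T (fun m hm' => hm m hm' a b) hJ
    rw [e2, cE_zero]
    rfl
  rw [e1, gm_eq_av, av_const w univ_nonempty]

theorem Ox.lc {B : Type*} [Fintype B] [DecidableEq B] (hΨ : Ox J q Ψ) {b : X → B} (hb : ∀ m ∈ J, ∀ S S', q m S = q m S' → b S = b S')
    (β : Fin 3 → B) : Ox J q (lcG b β Ψ) := by
  obtain ⟨F, hF, hm⟩ := hΨ
  refine ⟨fun a c e => if (b e = β 0 ∧ b c = β 1) ∧ b a = β 2 then F a c e else 0, fun x => ?_, fun m hmJ a c e e' h => ?_⟩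
  · unfold lcG
    have h1 : (fun i => b (x i)) = β ↔ (b (x 0) = β 0 ∧ b (x 1) = β 1) ∧ b (x 2) = β 2 := by
      constructor
      · intro h
        exact ⟨⟨congrFun h 0, congrFun h 1⟩, congrFun h 2⟩
      · rintro ⟨⟨h0, h1⟩, h2⟩
        funext i
        fin_cases i
        · exact h0
        · exact h1
        · exact h2
    show (if (fun i => b (x i)) = β then Ψ x else 0) =
      if (b (x 0) = β 0 ∧ b (x 1) = β 1) ∧ b (x 2) = β 2 then F (x 2) (x 1) (x 0) else 0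
    by_cases h : (fun i => b (x i)) = β
    · rw [if_pos h, if_pos (h1.1 h), hF x]
    · rw [if_neg h, if_neg fun h' => h (h1.2 h')]
  · show (if (b e = β 0 ∧ b c = β 1) ∧ b a = β 2 then F a c e else 0) = if (b e' = β 0 ∧ b c = β 1) ∧ b a = β 2 then F a c e' else 0
    rw [hb m hmJ e e' h, hm m hmJ a c e e' h]

theorem Ox.mul (hΨ : Ox J q Ψ) (G : X → X → ℝ) : Ox J q fun x => Ψ x * G (x 2) (x 1) := by
  obtain ⟨F, hF, hm⟩ := hΨ
  refine ⟨fun a b e => F a b e * G a b, fun x => ?_, fun m hmJ a b e e' h => ?_⟩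
  · show Ψ x * G (x 2) (x 1) = F (x 2) (x 1) (x 0) * G (x 2) (x 1)
    rw [hF x]
  · show F a b e * G a b = F a b e' * G a b
    rw [hm m hmJ a b e e' h]

/-- The majorant without the two branch term. -/
def G1 (w : X → ℝ) (p : X → Y) (I ρ : X → X → ℝ) (n : X → ℝ) (α β : ℝ) : ℝ :=
  α * PP w (fun x x' => mi w p I x * (n x * ρ x x')) + β * PP w (fun x x' => mi w p I x * (cE w p n x * ρ x x'))

theorem own_in (hΨ : Bdp I ρ K0 Ψ) (hI : ∀ x y, I x y = I y x) (hρ : ∀ y, Mp p fun x => ρ x y) (n0 : ∀ x, 0 ≤ n x) :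
    ev (P3 p) w (fun x => |Ψ x| * (n (x 2) + n (x 1) + cE w p n (x 2))) ≤ K0 * G1 w p I ρ n 2 1 := by
  have e : ∀ x : Fin 3 → X, |Ψ x| * (n (x 2) + n (x 1) + cE w p n (x 2)) =
      (|Ψ x| * n (x 2) + |Ψ x| * n (x 1)) + |Ψ x| * cE w p n (x 2) := fun x => by ring
  rw [I52.ev_congr _ _ e, I52.ev_add, I52.ev_add]
  have h1 := own (p := p) (w := w) hΨ (fun x _ => n x) fun x _ => n0 x
  have h2 := own_mid (p := p) (w := w) hΨ hI hρ n0
  have h4 := own (p := p) (w := w) hΨ (fun x _ => cE w p n x) fun x _ => cE_n_nonneg n0 x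
  unfold G1
  linarith

/-- One insertion of a remainder. -/
theorem abs_one (hJ : J.Nonempty) {T : X → ℝ} (hN : ∀ x, |(T - Cq w J q T) x| ≤ n x) {Φ : (Fin 3 → X) → ℝ} (hΦ : Ox J q Φ) :
    |(P3 p).ks.dbl.toEv.ev w ((P3 p).ks.dr.ins (T - Cq w J q T) Φ)| ≤
      ev (P3 p) w fun x => |Φ x| * (n (x 2) + n (x 1) + cE w p n (x 2)) := by
  set N := T - Cq w J q T with hNdef
  have hG : gm w N = 0 := gm_sub_Cq hJ q T
  have a0 : ∀ x, av w ((P3 p).S 0 x) N = 0 := fun x => by rw [← hG, gm_eq_av]; rfl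
  have a2 : ∀ x, av w ((P3 p).S 2 x) N = 0 := fun x => by rw [← hG, gm_eq_av]; rfl
  have a1 : ∀ x, av w ((P3 p).S 1 x) N = cE w p N (x 2) := fun x => by rw [cE_eq_av]; rfl
  have e : ∀ x : Fin 3 → X, Φ x * ∑ i, (N (x i) - av w ((P3 p).S i x) N) =
      Φ x * (N (x 2) + N (x 1) - cE w p N (x 2)) + Φ x * N (x 0) := fun x => by
    rw [Fin.sum_univ_three, a0, a1, a2]
    ring
  rw [ks_ins, ins_eq, I52.ev_congr _ _ e, I52.ev_add, x0_zero hΦ hJ, add_zero]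
  refine I52.abs_ev_le _ _ fun x => ?_
  rw [abs_mul]
  refine mul_le_mul_of_nonneg_left ?_ (abs_nonneg _)
  have h1 := hN (x 1)
  have h2 := hN (x 2)
  have h3 := abs_cE_n (p := p) (w := w) hN (x 2)
  rw [abs_le] at *
  constructor <;> linarith [h1.1, h1.2, h2.1, h2.2, h3.1, h3.2]

/-- **(H1) ONE INSERTION, LOCALISED.** -/
theorem one_box14 {B : Type*} [Fintype B] [DecidableEq B] (b : X → B) (hJ : J.Nonempty) {T : X → ℝ}
    (hN : ∀ x, |(T - Cq w J q T) x| ≤ n x) (hO : Ox J q Ψ) (hb : ∀ m ∈ J, ∀ S S', q m S = q m S' → b S = b S')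
    (hΨ : Bdp I ρ K0 Ψ) (hI : ∀ x y, I x y = I y x) (hρ : ∀ y, Mp p fun x => ρ x y) :
    ∑ β : Fin 3 → B, |(P3 p).ks.dbl.toEv.ev w ((P3 p).ks.dr.ins (T - Cq w J q T) (lcG b β Ψ))| ≤ K0 * G1 w p I ρ n 2 1 := by
  have n0 : ∀ x, 0 ≤ n x := fun x => (abs_nonneg _).trans (hN x)
  refine (Finset.sum_le_sum fun β _ => abs_one hJ hN (hO.lc hb β)).trans ?_
  refine le_trans (le_of_eq ?_) (own_in hΨ hI hρ n0)
  rw [← I52.ev_sum]
  refine I52.ev_congr _ _ fun x => ?_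
  rw [← Finset.sum_mul, sum_lcG]

/-- **(H2) TWO INSERTIONS: the two branch terms are ONE insertion of `g * N`.** -/
theorem two_h14 (M0 : 0 ≤ M) (hg : ∀ x, |g x| ≤ M) (hJ : J.Nonempty) (hN : ∀ x, |(g - Cq w J q g) x| ≤ n x) (hO : Ox J q Ψ)
    (hΨ : Bdp I ρ K0 Ψ) (hI : ∀ x y, I x y = I y x) (hρ : ∀ y, Mp p fun x => ρ x y) :
    |(P3 p).ks.dbl.dbl.toEv.ev w ((P3 p).ks.dbl.dr.ins (g - Cq w J q g) ((P3 p).ks.dr.ins g Ψ)) -
      (P3 p).ks.dbl.toEv.ev w ((P3 p).ks.dr.ins (fun s => g s * (g - Cq w J q g) s) Ψ)| ≤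
      M * K0 * G1 w p I ρ n 14 19 := by
  set N := g - Cq w J q g with hNdef
  set K := (P3 p).ks with hK
  set h : X → ℝ := fun s => g s * N s with hh
  have n0 : ∀ x, 0 ≤ n x := fun x => (abs_nonneg _).trans (hN x)
  have hG : gm w N = 0 := gm_sub_Cq hJ q g
  have a0 : ∀ (x : Fin 3 → X) (F : X → ℝ), av w (K.A 0 x) F = gm w F := fun x F => by rw [gm_eq_av]; rfl
  have a2 : ∀ (x : Fin 3 → X) (F : X → ℝ), av w (K.A 2 x) F = gm w F := fun x F => by rw [gm_eq_av]; rfl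
  have a1 : ∀ (x : Fin 3 → X) (F : X → ℝ), av w (K.A 1 x) F = cE w p F (x 2) := fun x F => by rw [cE_eq_av]; rfl
  have hgO : Ox J q fun x => Ψ x * (g (x 2) + g (x 1) - cE w p g (x 2) - 2 * gm w g) :=
    hO.mul fun a b => g a + g b - cE w p g a - 2 * gm w g
  -- the double insertion
  have e1 : K.dbl.dbl.toEv.ev w (K.dbl.dr.ins N (K.dr.ins g Ψ)) =
      K.dbl.toEv.ev w fun y => K.dr.ins g Ψ y * ∑ j, (N (y j) - av w (K.dbl.A j y) N) := K.dbl.ins_ev w N (K.dr.ins g Ψ)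
  set R : (Fin 3 ⊕ Fin 3 → X) → ℝ := fun y => N (y (Sum.inl 1)) + N (y (Sum.inl 2)) +
    N (y (Sum.inr 1)) - 2 * cE w p N (y (Sum.inl 2)) with hR
  have e2 : ∀ y, K.dr.ins g Ψ y * ∑ j, (N (y j) - av w (K.dbl.A j y) N) =
      ((K.dr.ins g Ψ y * R y + K.dr.ins g Ψ y * N (y (Sum.inl 0))) + K.dr.ins g Ψ y * N (y (Sum.inr 0))) +
        K.dr.ins g Ψ y * N (y (Sum.inr 2)) := fun y => by
    have b : ∀ j : Fin 3, av w (K.dbl.A (Sum.inl j) y) N = av w (K.A j fun i => y (Sum.inl i)) N := fun j => rfl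
    have b' : ∀ j : Fin 3, av w (K.dbl.A (Sum.inr j) y) N = av w (K.A j fun i => y (Sum.inl i)) N := fun j => rfl
    rw [Fintype.sum_sum_type, Fin.sum_univ_three, Fin.sum_univ_three, b, b, b, b', b', b', a0, a1, a2, hG, hR]
    ring
  have e3 : K.dbl.toEv.ev w (fun y => K.dr.ins g Ψ y * N (y (Sum.inr 0))) = -gm w h * K.toEv.ev w Ψ :=
    shadow_free K w g N Ψ 0 (fun x => by rw [a0, hG]) fun x => a0 x _
  have e4 : K.dbl.toEv.ev w (fun y => K.dr.ins g Ψ y * N (y (Sum.inr 2))) = -gm w h * K.toEv.ev w Ψ :=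
    shadow_free K w g N Ψ 2 (fun x => by rw [a2, hG]) fun x => a2 x _
  -- the replica `0`
  have e5 : K.dbl.toEv.ev w (fun y => K.dr.ins g Ψ y * N (y (Sum.inl 0))) = ev (P3 p) w fun x => Ψ x * h (x 0) := by
    have k1 : ∀ y : Fin 3 ⊕ Fin 3 → X, K.dr.ins g Ψ y * N (y (Sum.inl 0)) =
        (fun x : Fin 3 → X => Ψ x * N (x 0)) (fun i => y (Sum.inl i)) * ∑ j, sgs j * g (y j) := fun y => by
      show Ψ (fun i => y (Sum.inl i)) * (∑ j, sgs j * g (y j)) * N (y (Sum.inl 0)) = _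
      ring
    have k2 : ∀ x : Fin 3 → X, (fun x : Fin 3 → X => Ψ x * N (x 0)) x * ∑ i, (g (x i) - av w (K.A i x) g) =
        Ψ x * h (x 0) + (Ψ x * (g (x 2) + g (x 1) - cE w p g (x 2) - 2 * gm w g)) * N (x 0) := fun x => by
      rw [Fin.sum_univ_three, a0, a1, a2, hh]
      ring
    rw [H41.ev_congr _ _ k1, K.ins_ev w g fun x => Ψ x * N (x 0), H41.ev_congr _ _ k2, hK, ks_ev, I52.ev_add,
      x0_zero hgO hJ p w g, add_zero]
  -- the single insertion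
  have e6 : K.dbl.toEv.ev w (K.dr.ins h Ψ) = ev (P3 p) w (fun x => Ψ x * (h (x 2) + h (x 1) - cE w p h (x 2))) +
      ev (P3 p) w (fun x => Ψ x * h (x 0)) - 2 * (gm w h * ev (P3 p) w Ψ) := by
    have k1 : K.dbl.toEv.ev w (K.dr.ins h Ψ) = K.toEv.ev w fun x => Ψ x * ∑ i, (h (x i) - av w (K.A i x) h) := K.ins_ev w h Ψ
    have k2 : ∀ x : Fin 3 → X, Ψ x * ∑ i, (h (x i) - av w (K.A i x) h) =
        (Ψ x * (h (x 2) + h (x 1) - cE w p h (x 2)) + Ψ x * h (x 0)) + -(2 * gm w h) * Ψ x := fun x => by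
      rw [Fin.sum_univ_three, a0, a1, a2]
      ring
    rw [k1, H41.ev_congr _ _ k2, hK, ks_ev, I52.ev_add, I52.ev_add, I52.ev_smul]
    ring
  have k7 : K.toEv.ev w Ψ = ev (P3 p) w Ψ := by rw [hK, ks_ev]
  rw [e1, H41.ev_congr _ _ e2, H41.ev_add, H41.ev_add, H41.ev_add, e3, e4, e5, e6, k7]
  -- the bounds
  have b1 : |K.dbl.toEv.ev w (fun y => K.dr.ins g Ψ y * R y)| ≤ 6 * M * (K0 * G1 w p I ρ n 2 3) := by
    refine (H41.abs_ev_le _ _ _).trans ?_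
    have h1 : ∀ y, |K.dr.ins g Ψ y * R y| ≤ 6 * M * ((fun x : Fin 3 → X =>
        |Ψ x| * (n (x 2) + n (x 1) + cE w p n (x 2)) + |Ψ x| * cE w p n (x 2)) (fun i => y (Sum.inl i)) +
        (fun (x : Fin 3 → X) (s : X) => |Ψ x| * n s) (fun i => y (Sum.inl i)) (y (Sum.inr 1))) := fun y => by
      rw [abs_mul]
      have h2 := abs_ins_g (p := p) hg Ψ y
      have h3 : |R y| ≤ n (y (Sum.inl 2)) + n (y (Sum.inl 1)) + cE w p n (y (Sum.inl 2)) +
          cE w p n (y (Sum.inl 2)) + n (y (Sum.inr 1)) := by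
        have c1 := hN (y (Sum.inl 1))
        have c2 := hN (y (Sum.inl 2))
        have c3 := hN (y (Sum.inr 1))
        have c4 := abs_cE_n (p := p) (w := w) hN (y (Sum.inl 2))
        simp only [hR]
        rw [abs_le] at *
        constructor <;> linarith [c1.1, c1.2, c2.1, c2.2, c3.1, c3.2, c4.1, c4.2]
      refine (mul_le_mul h2 h3 (abs_nonneg _) (mul_nonneg (by linarith) (abs_nonneg _))).trans (le_of_eq ?_)
      ring
    refine (H41.ev_mono _ _ h1).trans ?_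
    rw [H41.ev_smul, H41.ev_add]
    refine mul_le_mul_of_nonneg_left ?_ (by linarith)
    have h4 := K.dbl_old w (fun x : Fin 3 → X =>
        |Ψ x| * (n (x 2) + n (x 1) + cE w p n (x 2)) + |Ψ x| * cE w p n (x 2))
    have h5 := K.dbl_one w 1 (fun (x : Fin 3 → X) (s : X) => |Ψ x| * n s)
    rw [h4, h5, hK, ks_ev, ks_ev, I52.ev_add]
    have h6 := own_in (w := w) hΨ hI hρ n0
    have h7 := own (p := p) (w := w) hΨ (fun x _ => cE w p n x) fun x _ => cE_n_nonneg n0 x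
    have h8 : ev (P3 p) w (fun x => av w ((P3 p).ks.A 1 x) fun s => |Ψ x| * n s) =
        ev (P3 p) w fun x => |Ψ x| * cE w p n (x 2) := I52.ev_congr _ _ fun x => by
      rw [av_smul, cE_eq_av]
      rfl
    rw [h8]
    unfold G1 at h6 ⊢
    linarith
  have hhn : ∀ x, |h x| ≤ M * n x := fun x => by
    rw [hh]
    show |g x * N x| ≤ _
    rw [abs_mul]
    exact mul_le_mul (hg x) (hN x) (abs_nonneg _) M0
  have hcE : ∀ x, |cE w p h x| ≤ M * cE w p n x := fun x => by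
    have k1 := abs_cE_n (p := p) (w := w) (N := h) (n := fun s => M * n s) hhn x
    have k2 : cE w p (fun s => M * n s) x = M * cE w p n x := by rw [cE_eq_av, av_smul, ← cE_eq_av]
    rwa [k2] at k1
  have b2 : |ev (P3 p) w (fun x => Ψ x * (h (x 2) + h (x 1) - cE w p h (x 2)))| ≤ M * (K0 * G1 w p I ρ n 2 1) := by
    refine (I52.abs_ev_le (Φ := fun x => M * (|Ψ x| * (n (x 2) + n (x 1) + cE w p n (x 2)))) _ _ fun x => ?_).trans ?_
    · rw [abs_mul]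
      have c1 := hhn (x 1)
      have c2 := hhn (x 2)
      have c3 := hcE (x 2)
      have c4 : |h (x 2) + h (x 1) - cE w p h (x 2)| ≤ M * (n (x 2) + n (x 1) + cE w p n (x 2)) := by
        rw [abs_le] at *
        constructor <;> linarith [c1.1, c1.2, c2.1, c2.2, c3.1, c3.2]
      refine (mul_le_mul_of_nonneg_left c4 (abs_nonneg _)).trans (le_of_eq ?_)
      ring
    · rw [I52.ev_smul]
      exact mul_le_mul_of_nonneg_left (own_in (w := w) hΨ hI hρ n0) M0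
  have k3 : ∀ a b c d e : ℝ, a + b + -c * d + -c * d - (e + b - 2 * (c * d)) = a - e := fun a b c d e => by ring
  rw [k3]
  refine (abs_sub _ _).trans ?_
  unfold G1 at *
  linarith

/-! ### The macro slab -/

variable {J' : Finset ℕ} {Z : Type*} [DecidableEq Z] {q' : ℕ → X → Z} {h : X → ℝ} {G k : X → X → ℝ}

/-- The slab average is a function of `p`. -/
theorem mp_Cq (hc : ∀ m ∈ J', Crs (q' m) p) : Mp p (Cq w J' q' h) := fun x y hxy => by
  unfold Cq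
  congr 1
  exact Finset.sum_congr rfl fun m hm => cE_meas w (q' m) h x y (hc m hm x y hxy)

/-- **(H3) THE MACRO SLAB**, exact. -/
theorem mac_eq (hJ' : J'.Nonempty) (hO : Ox J' q' Ψ) (hc : ∀ m ∈ J', Crs (q' m) p) :
    (P3 p).ks.dbl.toEv.ev w ((P3 p).ks.dr.ins (h - Cq w J' q' h) Ψ) =
      ev (P3 p) w (fun x => Ψ x * (h (x 2) + h (x 1) - cE w p h (x 2))) - ev (P3 p) w fun x => Ψ x * Cq w J' q' h (x 2) := by
  set Γ := Cq w J' q' h with hΓ
  have hG : gm w (h - Γ) = 0 := gm_sub_Cq hJ' q' h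
  have a0 : ∀ x, av w ((P3 p).S 0 x) (h - Γ) = 0 := fun x => by rw [← hG, gm_eq_av]; rfl
  have a2 : ∀ x, av w ((P3 p).S 2 x) (h - Γ) = 0 := fun x => by rw [← hG, gm_eq_av]; rfl
  have hm := mp_Cq (w := w) (h := h) hc
  have a1 : ∀ x, av w ((P3 p).S 1 x) (h - Γ) = cE w p h (x 2) - Γ (x 2) := fun x => by
    have e : av w ((P3 p).S 1 x) (h - Γ) = cE w p (h - Γ) (x 2) := by rw [cE_eq_av]; rfl
    rw [e, cE_sub, cE_of_meas w hm]
    rfl
  have e : ∀ x : Fin 3 → X, wt (P3 p) w x ≠ 0 → Ψ x * ∑ i, ((h - Γ) (x i) - av w ((P3 p).S i x) (h - Γ)) =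
      (Ψ x * (h (x 2) + h (x 1) - cE w p h (x 2)) + (-1) * (Ψ x * Γ (x 2))) + Ψ x * (h - Γ) (x 0) := fun x hx => by
    have e1 : Γ (x 1) = Γ (x 2) := hm _ _ (p_eq hx)
    rw [Fin.sum_univ_three, a0, a1, a2, Pi.sub_apply, Pi.sub_apply, Pi.sub_apply, e1]
    ring
  have e3 : ∀ {Φ Φ' : (Fin 3 → X) → ℝ}, (∀ x, wt (P3 p) w x ≠ 0 → Φ x = Φ' x) → ev (P3 p) w Φ = ev (P3 p) w Φ' :=
    fun h => le_antisymm (ev_mono' _ _ fun x hx => (h x hx).le) (ev_mono' _ _ fun x hx => (h x hx).ge)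
  rw [ks_ins, ins_eq, e3 e, I52.ev_add, I52.ev_add, I52.ev_smul, x0_zero hO hJ' p w h]
  ring

/-- The inner pair given the slab. -/
def T0Q (w : X → ℝ) (p : X → Y) (J' : Finset ℕ) (q' : ℕ → X → Z) (I ρ : X → X → ℝ) (n : X → ℝ) : ℝ :=
  (J'.card : ℝ)⁻¹ * ∑ m ∈ J', PP w fun x x' => cE w (q' m) (mi w p I) x * (n x * ρ x x')

theorem PP_avg (w a : X → ℝ) (k : X → X → ℝ) (c : ℝ) (F : ℕ → X → ℝ) :
    PP w (fun x x' => a x * ((c * ∑ m ∈ J', F m x) * k x x')) = c * ∑ m ∈ J', PP w fun x x' => a x * (F m x * k x x') := by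
  have e1 : ∀ m, PP w (fun x x' => a x * (F m x * k x x')) = gm w fun y => gm w fun x => a x * (F m x * k x y) := fun m => PP_gm w _
  have e2 : (fun x x' : X => a x * ((c * ∑ m ∈ J', F m x) * k x x')) =
      fun x x' => c * ∑ m ∈ J', a x * (F m x * k x x') := by
    funext x x'
    rw [Finset.mul_sum, Finset.mul_sum, Finset.sum_mul, Finset.mul_sum]
    exact Finset.sum_congr rfl fun m _ => by ring
  rw [e2, PP_smul]
  congr 1
  have e3 := PP_gm w fun x x' => ∑ m ∈ J', a x * (F m x * k x x')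
  rw [e3, Finset.sum_congr rfl fun m _ => e1 m, gm_eq_av]
  have e4 : ∀ y, (gm w fun x => ∑ m ∈ J', a x * (F m x * k x y)) = ∑ m ∈ J', gm w fun x => a x * (F m x * k x y) := fun y => by
    rw [gm_eq_av, av_sum]
    exact Finset.sum_congr rfl fun m _ => by rw [gm_eq_av]
  simp only [e4]
  rw [av_sum]
  exact Finset.sum_congr rfl fun m _ => by rw [gm_eq_av]

/-- **(H4) THE SLAB AVERAGE AT `x 2`**: an exact exchange, then absolute values. -/
theorem gam14 {Mh : ℝ} (hGI : ∀ x y, |G x y| ≤ K0 * I x y) (hk : ∀ x y, |k x y| ≤ ρ x y) (K00 : 0 ≤ K0) (Mh0 : 0 ≤ Mh)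
    (hh : ∀ x, |h x| ≤ Mh * n x) (hkm : ∀ m ∈ J', ∀ y, Mp (q' m) fun x => k x y) (I0 : ∀ x y, 0 ≤ I x y) :
    |ev (P3 p) w (fun x => (G (x 2) (x 1) * k (x 2) (x 0)) * Cq w J' q' h (x 2))| ≤ Mh * K0 * T0Q w p J' q' I ρ n := by
  have e1 : ∀ x : Fin 3 → X, (G (x 2) (x 1) * k (x 2) (x 0)) * Cq w J' q' h (x 2) =
      G (x 2) (x 1) * (fun a c => Cq w J' q' h a * k a c) (x 2) (x 0) := fun x => by
    show (G (x 2) (x 1) * k (x 2) (x 0)) * Cq w J' q' h (x 2) = G (x 2) (x 1) * (Cq w J' q' h (x 2) * k (x 2) (x 0))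
    ring
  rw [I52.ev_congr _ _ e1, ev_P3_PP p w G fun a c => Cq w J' q' h a * k a c]
  have e2 : PP w (fun x x' => mi w p G x * (Cq w J' q' h x * k x x')) =
      (J'.card : ℝ)⁻¹ * ∑ m ∈ J', PP w fun x x' => cE w (q' m) (mi w p G) x * (h x * k x x') := by
    have e3 := PP_avg (J' := J') w (mi w p G) k (J'.card : ℝ)⁻¹ fun m => cE w (q' m) h
    rw [Finset.sum_congr rfl fun m hm => PP_sym w (q' m) (mi w p G) h (hkm m hm)] at e3
    exact e3
  rw [e2]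
  unfold T0Q
  rw [abs_mul, abs_of_nonneg (inv_nonneg.2 (Nat.cast_nonneg _)), ← mul_assoc, mul_comm (Mh * K0), mul_assoc]
  refine mul_le_mul_of_nonneg_left ?_ (inv_nonneg.2 (Nat.cast_nonneg _))
  rw [Finset.mul_sum]
  refine (Finset.abs_sum_le_sum_abs _ _).trans (Finset.sum_le_sum fun m hm => ?_)
  rw [← PP_smul]
  have c0 : ∀ x, 0 ≤ cE w (q' m) (mi w p I) x := fun x => cE_nonneg _ _ (fun y => cE_nonneg _ _ (I0 y) y) x
  have c1 : ∀ x, |cE w (q' m) (mi w p G) x| ≤ K0 * cE w (q' m) (mi w p I) x := fun x => by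
    rw [cE_eq_av, cE_eq_av, ← av_smul]
    refine (abs_av_le _ _ _).trans (av_mono _ _ fun s _ => ?_)
    unfold mi
    rw [cE_eq_av, cE_eq_av, ← av_smul]
    exact (abs_av_le _ _ _).trans (av_mono _ _ fun s' _ => hGI s s')
  have c2 : ∀ x x', |cE w (q' m) (mi w p G) x * (h x * k x x')| ≤
      Mh * K0 * (cE w (q' m) (mi w p I) x * (n x * ρ x x')) := fun x x' => by
    rw [abs_mul, abs_mul]
    have c3 := mul_le_mul (hh x) (hk x x') (abs_nonneg _) ((abs_nonneg _).trans (hh x))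
    have c4 := mul_le_mul (c1 x) c3 (mul_nonneg (abs_nonneg _) (abs_nonneg _)) (mul_nonneg K00 (c0 x))
    refine c4.trans (le_of_eq ?_)
    ring
  rw [abs_le]
  constructor
  · have h1 := PP_mono w (Q := fun x x' => (-1) * (Mh * K0 * (cE w (q' m) (mi w p I) x * (n x * ρ x x'))))
      (R := fun x x' => cE w (q' m) (mi w p G) x * (h x * k x x')) fun x x' => by
        have := (abs_le.1 (c2 x x')).1
        linarith
    rw [PP_smul w (-1)] at h1
    linarith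
  · exact PP_mono w fun x x' => (abs_le.1 (c2 x x')).2

/-- **(H3) + (H4): the remainder of the macro slab.** -/
theorem mac14 {Mh : ℝ} (hJ' : J'.Nonempty) (hO : Ox J' q' fun x => G (x 2) (x 1) * k (x 2) (x 0)) (hc : ∀ m ∈ J', Crs (q' m) p)
    (hGI : ∀ x y, |G x y| ≤ K0 * I x y) (hk : ∀ x y, |k x y| ≤ ρ x y) (K00 : 0 ≤ K0) (Mh0 : 0 ≤ Mh) (n0 : ∀ x, 0 ≤ n x)
    (hh : ∀ x, |h x| ≤ Mh * n x) (hkm : ∀ m ∈ J', ∀ y, Mp (q' m) fun x => k x y) (I0 : ∀ x y, 0 ≤ I x y)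
    (hI : ∀ x y, I x y = I y x) (hρ : ∀ y, Mp p fun x => ρ x y) :
    |(P3 p).ks.dbl.toEv.ev w ((P3 p).ks.dr.ins (h - Cq w J' q' h) fun x => G (x 2) (x 1) * k (x 2) (x 0))| ≤
      Mh * K0 * (G1 w p I ρ n 2 1 + T0Q w p J' q' I ρ n) := by
  have r0 : ∀ x y, 0 ≤ ρ x y := fun x y => (abs_nonneg _).trans (hk x y)
  have hB : Bdp I ρ K0 fun x => G (x 2) (x 1) * k (x 2) (x 0) := fun x => by
    show |G (x 2) (x 1) * k (x 2) (x 0)| ≤ _
    rw [abs_mul, ← mul_assoc]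
    exact mul_le_mul (hGI _ _) (hk _ _) (abs_nonneg _) (mul_nonneg K00 (I0 _ _))
  rw [mac_eq hJ' hO hc]
  have hcE : ∀ x, |cE w p h x| ≤ Mh * cE w p n x := fun x => by
    have k1 := abs_cE_n (p := p) (w := w) (N := h) (n := fun s => Mh * n s) hh x
    have k2 : cE w p (fun s => Mh * n s) x = Mh * cE w p n x := by rw [cE_eq_av, av_smul, ← cE_eq_av]
    rwa [k2] at k1
  have b2 : |ev (P3 p) w (fun x => (G (x 2) (x 1) * k (x 2) (x 0)) * (h (x 2) + h (x 1) - cE w p h (x 2)))| ≤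
      Mh * (K0 * G1 w p I ρ n 2 1) := by
    refine (I52.abs_ev_le (Φ := fun x => Mh * (|G (x 2) (x 1) * k (x 2) (x 0)| * (n (x 2) + n (x 1) + cE w p n (x 2)))) _ _
      fun x => ?_).trans ?_
    · rw [abs_mul]
      have c1 := hh (x 1)
      have c2 := hh (x 2)
      have c3 := hcE (x 2)
      have c4 : |h (x 2) + h (x 1) - cE w p h (x 2)| ≤ Mh * (n (x 2) + n (x 1) + cE w p n (x 2)) := by
        rw [abs_le] at *
        constructor <;> linarith [c1.1, c1.2, c2.1, c2.2, c3.1, c3.2]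
      refine (mul_le_mul_of_nonneg_left c4 (abs_nonneg _)).trans (le_of_eq ?_)
      ring
    · rw [I52.ev_smul]
      exact mul_le_mul_of_nonneg_left (own_in (w := w) hB hI hρ n0) Mh0
  have b3 := gam14 (p := p) (w := w) (J' := J') (q' := q') (h := h) hGI hk K00 Mh0 hh hkm I0
  refine (abs_sub _ _).trans ?_
  linarith

end Abs

/-! ### The model: forward slabs -/

section Fw

open Pool.Agent.W_7d29a1_C0.NM82 (Hd Rk)

variable {Q : Finset (Finset ℕ)} [SwQ Q] [Nonempty (Px Q)] {c0 z0 z c : ℕ} {w : Px Q → ℝ} {J J' : Finset ℕ} {g f : Px Q → ℝ}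
  {I G : Px Q → Px Q → ℝ} {K0 M : ℝ} {Y : Type*} [DecidableEq Y]

/-- The tie of `f` behind the row `z`, exact. -/
theorem ev_tie {p : Px Q → Y} (hw : Hd z c w) (hΦ : Lk 0 z (mi w p G)) (hf : Rk c f) :
    ev (P3 p) w (fun x => G (x 2) (x 1) * (f (x 2) - f (x 0))) = ev (P3 p) w (ob z c G f) := by
  have k : Hk z fun S _ : Px Q => mi w p G S := fun S S' T T' h1 h2 => hΦ S T fun i _ hi => h1 i hi
  rw [ev_ob, ← PP_far hw k hf]
  exact ev_P3_PP p w G fun a b => f a - f b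

/-- `f` and the indicator at a path see only what is behind the row `z`. -/
theorem mp_tie {m : ℕ} (hm : m ≤ z) (hzc : z ≤ c) (hf : Rk c f) (T : Px Q) :
    Mp (pJ 0 m) fun S => (f S - f T) * NI z c S T := fun S S' h => by
  have h1 : ∀ i, z ≤ i → ps S i = ps S' i := fun i hi => ps_of_ge h (hm.trans hi)
  show (f S - f T) * NI z c S T = (f S' - f T) * NI z c S' T
  rw [hf S S' fun i hi => h1 i (hzc.trans hi), CutT57.NI_congr (fun i hi _ => h1 i hi) fun i _ _ => rfl]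

theorem ox_ob (hJ : ∀ m ∈ J, m ≤ z) (hzc : z ≤ c) (hf : Rk c f) (G : Px Q → Px Q → ℝ) : Ox J (pJ 0) (ob z c G f) :=
  ⟨fun a b e => G a b * ((f a - f e) * NI z c a e), fun x => rfl, fun m hm a b e e' h => by
    have h1 : ∀ i, z ≤ i → ps e i = ps e' i := fun i hi => ps_of_ge h ((hJ m hm).trans hi)
    show G a b * ((f a - f e) * NI z c a e) = G a b * ((f a - f e') * NI z c a e')
    rw [hf e e' fun i hi => h1 i (hzc.trans hi), CutT57.NI_congr (fun i _ _ => rfl) fun i hi _ => h1 i hi]⟩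

/-- **One insertion, localised, forward.** -/
theorem fw_one {B : Type*} [Fintype B] [DecidableEq B] (b : Px Q → B) (hb : ∀ m ∈ J, ∀ S S', pJ 0 m S = pJ 0 m S' → b S = b S')
    (hJ : J.Nonempty) (hJz : ∀ m ∈ J, m ≤ z) (h0 : z0 ≤ z) (hzc : z ≤ c) (hf : Rk c f) (hGI : ∀ S S', |G S S'| ≤ K0 * I S S')
    (hI : ∀ S S', I S S' = I S' S) :
    ∑ β : Fin 3 → B, |(P3 (pJ c0 z0)).ks.dbl.toEv.ev w ((P3 (pJ c0 z0)).ks.dr.ins (g - Cq w J (pJ 0) g)
      (lcG b β (ob z c G f)))| ≤ K0 * G1 w (pJ c0 z0) I (rh z c f) (nn w J (pJ 0) g) 2 1 :=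
  one_box14 b hJ (abs_sub_Cq_le hJ (pJ 0) g) (ox_ob hJz hzc hf G) hb (bdp_ob hGI) hI fun S' S T h =>
    mp_rh (c0 := c0) hzc hf S' S T (crs_pJ_out h0 h)
where
  crs_pJ_out {c0 z0 z : ℕ} (h0 : z0 ≤ z) {S T : Px Q} (h : pJ c0 z0 S = pJ c0 z0 T) : pJ c0 z S = pJ c0 z T :=
    crs_pJ le_rfl h0 S T h

/-- The tie of `f` is a function of the outside of the block. -/
theorem mp_rh' (h0 : z0 ≤ z) (hzc : z ≤ c) (hf : Rk c f) (S' : Px Q) : Mp (pJ c0 z0) fun S => rh z c f S S' := fun S T h =>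
  mp_rh (c0 := c0) hzc hf S' S T (crs_pJ le_rfl h0 S T h)

/-- **Two insertions, forward.** -/
theorem fw_two (M0 : 0 ≤ M) (hg : ∀ S, |g S| ≤ M) (hJ : J.Nonempty) (hJz : ∀ m ∈ J, m ≤ z) (h0 : z0 ≤ z) (hzc : z ≤ c) (hf : Rk c f)
    (hGI : ∀ S S', |G S S'| ≤ K0 * I S S') (hI : ∀ S S', I S S' = I S' S) :
    |(P3 (pJ c0 z0)).ks.dbl.dbl.toEv.ev w ((P3 (pJ c0 z0)).ks.dbl.dr.ins (g - Cq w J (pJ 0) g)
        ((P3 (pJ c0 z0)).ks.dr.ins g (ob z c G f))) -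
      (P3 (pJ c0 z0)).ks.dbl.toEv.ev w ((P3 (pJ c0 z0)).ks.dr.ins (fun s => g s * (g - Cq w J (pJ 0) g) s) (ob z c G f))| ≤
      M * K0 * G1 w (pJ c0 z0) I (rh z c f) (nn w J (pJ 0) g) 14 19 :=
  two_h14 M0 hg hJ (abs_sub_Cq_le hJ (pJ 0) g) (ox_ob hJz hzc hf G) (bdp_ob hGI) hI (mp_rh' h0 hzc hf)

/-- **The macro slab, forward**, for any `h` with `|h| ≤ Mh * n` (`h = g * N`, `n = nn`). -/
theorem fw_mac {h n : Px Q → ℝ} {Mh : ℝ} (hJ' : J'.Nonempty) (hJz : ∀ m ∈ J', z0 ≤ m ∧ m ≤ z) (h0 : z0 ≤ z) (hzc : z ≤ c)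
    (hf : Rk c f) (hGI : ∀ S S', |G S S'| ≤ K0 * I S S') (K00 : 0 ≤ K0) (Mh0 : 0 ≤ Mh) (n0 : ∀ S, 0 ≤ n S)
    (hh : ∀ S, |h S| ≤ Mh * n S) (I0 : ∀ S S', 0 ≤ I S S') (hI : ∀ S S', I S S' = I S' S) :
    |(P3 (pJ c0 z0)).ks.dbl.toEv.ev w ((P3 (pJ c0 z0)).ks.dr.ins (h - Cq w J' (pJ 0) h) (ob z c G f))| ≤
      Mh * K0 * (G1 w (pJ c0 z0) I (rh z c f) n 2 1 + T0Q w (pJ c0 z0) J' (pJ 0) I (rh z c f) n) :=
  mac14 (G := G) (k := fun S S' => (f S - f S') * NI z c S S') hJ' (ox_ob (fun m hm => (hJz m hm).2) hzc hf G)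
    (fun m hm => crs_pJ (Nat.zero_le c0) (hJz m hm).1) hGI (fun S S' => (abs_rh f S S').le) K00 Mh0 n0 hh
    (fun m hm T => mp_tie (hJz m hm).2 hzc hf T) I0 hI (mp_rh' h0 hzc hf)

/-- `h = g * N` is bounded by the micro tie. -/
theorem abs_h_le (hg : ∀ S, |g S| ≤ M) (M0 : 0 ≤ M) (hJ : J.Nonempty) (S : Px Q) :
    |g S * (g - Cq w J (pJ 0) g) S| ≤ M * nn w J (pJ 0) g S := by
  rw [abs_mul]
  exact mul_le_mul (hg S) (abs_sub_Cq_le hJ (pJ 0) g S) (abs_nonneg _) M0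

end Fw

end

end Pool.Agent.W_7d29a1_C0.MicH14
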