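import Pool.Agent.W_7d29a1_C0.E2Q59
import Pool.Agent.W_7d29a1_C0.MicH14

/-!
MP_7d29a1_pr, [CURV0] (helper59), section E2: PATHWISE MAJORANTS of the far parts of the fields and of the derivatives of the exact
response. `far_one59`, `far_two59`: the insertions of the far part of a field in the plan of three replicas (`o β S` = the path leaves the
tubes of the boxes `β`). `abs_farF59`, `QV_cut59`: the fields of `FldP63`. `dgR59`, `dgL59`: the derivative of the two parts along a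
localised slab field inside of the window = own pair, times the mass of the pairs given the ends of the window without common point
between the kick and the slab.
-/

set_option autoImplicit false
set_option linter.unusedSectionVars false

namespace Pool.Agent.W_7d29a1_C0.E2F59

open Finset MeasureTheory Pool.Agent.W_7d29a1_F Pool.Agent.W_7d29a1_X Pool.Agent.W_7d29a1_H
open Pool.Agent.W_7d29a1_C0 Pool.Agent.W_7d29a1_C0.Mod92 Pool.Agent.W_7d29a1_C0.Swap57 Pool.Agent.W_7d29a1_C0.NM82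
open Pool.Agent.W_7d29a1_C0.CutF59
open Pool.Agent.W_7d29a1_C0.CutE14 (P3 psi psR psL)
open Pool.Agent.W_7d29a1_C0.DGam14 (gam gamD gamD_sum abs_gamD_R abs_gamD_L)
open Pool.Agent.W_7d29a1_C0.MicE14 (A_zero A_one A_two mi ev_P3_PP ev_P3_swap Bdp own_mid rh)
open Pool.Agent.W_7d29a1_C0.Blk18 (Full full_Pn)
open Pool.Agent.W_7d29a1_C0.FP63
open Pool.W7d29a1.C0
open Pool.W7d29a1.C0.VT31
open Pool.W7d29a1.C0.I52 (KS sgs av ev ks_ev gm_eq_av cE_eq_av Plan)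
open Pool.W7d29a1.C0.H19 (Cf)
open Pool.W7d29a1.C0.R63 (Dg)
open Pool.W7d29a1.C0.H41 (Ev Dr ev_sum ev_add ev_smul ev_mono ev_congr lcG farF cut cut' QV)

noncomputable section

/-! ### The far parts -/

section Far

variable {X ι : Type*} [Fintype X] [DecidableEq X] [Nonempty X] [Fintype ι] [DecidableEq ι]

theorem abs_sgs (j : ι ⊕ ι) : |sgs j| = 1 := by
  rcases j with i | i
  · show |(1 : ℝ)| = 1
    exact abs_one
  · show |(-1 : ℝ)| = 1
    rw [abs_neg, abs_one]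

/-- The insertion, absolute values. -/
theorem abs_ins_sum (K : KS X ι) (T : X → ℝ) (Ψ : (ι → X) → ℝ) (y : ι ⊕ ι → X) :
    |K.dr.ins T Ψ y| ≤ |Ψ fun i => y (Sum.inl i)| * ∑ j, |T (y j)| := by
  show |Ψ (fun i => y (Sum.inl i)) * ∑ j, sgs j * T (y j)| ≤ _
  rw [abs_mul]
  refine mul_le_mul_of_nonneg_left ((Finset.abs_sum_le_sum_abs _ _).trans (Finset.sum_le_sum fun j _ => ?_)) (abs_nonneg _)
  rw [abs_mul, abs_sgs, one_mul]

/-- The sum over the replicas and their shadows. -/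
theorem ev_all_one (K : KS X ι) (w : X → ℝ) (Φ : (ι → X) → ℝ) (u : (ι → X) → X → ℝ) :
    K.dbl.toEv.ev w (fun y => Φ (fun i => y (Sum.inl i)) * ∑ j, u (fun i => y (Sum.inl i)) (y j)) =
      K.toEv.ev w fun x => Φ x * (∑ i, u x (x i) + ∑ i, av w (K.A i x) (u x)) := by
  have e1 : ∀ y : ι ⊕ ι → X, Φ (fun i => y (Sum.inl i)) * ∑ j, u (fun i => y (Sum.inl i)) (y j) =
      ∑ i, (Φ (fun i => y (Sum.inl i)) * u (fun i => y (Sum.inl i)) (y (Sum.inl i))) +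
        ∑ i, (Φ (fun i => y (Sum.inl i)) * u (fun i => y (Sum.inl i)) (y (Sum.inr i))) := fun y => by
    rw [Fintype.sum_sum_type, mul_add, Finset.mul_sum, Finset.mul_sum]
  rw [ev_congr _ _ e1, ev_add, ev_sum, ev_sum]
  have e2 : ∀ i, K.dbl.toEv.ev w (fun y => Φ (fun i => y (Sum.inl i)) * u (fun i => y (Sum.inl i)) (y (Sum.inl i))) =
      K.toEv.ev w fun x => Φ x * u x (x i) := fun i => K.dbl_old w fun x => Φ x * u x (x i)
  have e3 : ∀ i, K.dbl.toEv.ev w (fun y => Φ (fun i => y (Sum.inl i)) * u (fun i => y (Sum.inl i)) (y (Sum.inr i))) =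
      K.toEv.ev w fun x => Φ x * av w (K.A i x) (u x) := fun i => by
    rw [K.dbl_one w i fun x s => Φ x * u x s]
    exact ev_congr _ _ fun x => I52.av_smul _ _ _ _
  rw [Finset.sum_congr rfl fun i _ => e2 i, Finset.sum_congr rfl fun i _ => e3 i, ← ev_sum, ← ev_sum, ← ev_add]
  exact ev_congr _ _ fun x => by
    rw [mul_add, Finset.mul_sum, Finset.mul_sum]

/-- The sum over the replicas, their shadows, and the shadows of all of them. -/
theorem ev_all_two (K : KS X ι) (w : X → ℝ) (Φ : (ι → X) → ℝ) (u : (ι → X) → X → ℝ) :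
    K.dbl.dbl.toEv.ev w (fun y => Φ (fun i => y (Sum.inl (Sum.inl i))) *
        ∑ j, u (fun i => y (Sum.inl (Sum.inl i))) (y j)) =
      K.toEv.ev w fun x => Φ x * (∑ i, u x (x i) + 3 * ∑ i, av w (K.A i x) (u x)) := by
  have h1 := ev_all_one K.dbl w (fun y => Φ fun i => y (Sum.inl i)) fun y => u fun i => y (Sum.inl i)
  refine h1.trans ?_
  have e1 : ∀ y : ι ⊕ ι → X, Φ (fun i => y (Sum.inl i)) * (∑ j, u (fun i => y (Sum.inl i)) (y j) +
      ∑ j, av w (K.dbl.A j y) (u fun i => y (Sum.inl i))) =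
      Φ (fun i => y (Sum.inl i)) * ∑ j, u (fun i => y (Sum.inl i)) (y j) +
        (fun x => Φ x * (2 * ∑ i, av w (K.A i x) (u x))) fun i => y (Sum.inl i) := fun y => by
    have e2 : ∑ j, av w (K.dbl.A j y) (u fun i => y (Sum.inl i)) =
        2 * ∑ i, av w (K.A i fun i => y (Sum.inl i)) (u fun i => y (Sum.inl i)) := by
      rw [Fintype.sum_sum_type, two_mul]
      rfl
    rw [e2]
    ring
  rw [ev_congr _ _ e1, ev_add, ev_all_one K w Φ u, K.dbl_old w fun x => Φ x * (2 * ∑ i, av w (K.A i x) (u x)), ← ev_add]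
  exact ev_congr _ _ fun x => by ring

variable {Y : Type*} [DecidableEq Y] {B : Type*}

theorem sum_A3 (p : X → Y) (w : X → ℝ) (x : Fin 3 → X) (u : X → ℝ) :
    ∑ i, av w ((P3 p).ks.A i x) u = 2 * gm w u + cE w p u (x 2) := by
  rw [Fin.sum_univ_three, A_zero, A_one, A_two, ← gm_eq_av, ← cE_eq_av]
  ring

/-- The far functional: `a` free replicas (times two) and `a` replicas in the fibre, which leave the tubes of the three boxes. -/
def FO (w : X → ℝ) (p : X → Y) (b : X → B) (o : (Fin 3 → B) → X → ℝ) (Ψ : (Fin 3 → X) → ℝ) (a : ℝ) : ℝ :=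
  ev (P3 p) w fun x => |Ψ x| * (∑ i, o (fun i => b (x i)) (x i) +
    a * (2 * gm w (o fun i => b (x i)) + cE w p (o fun i => b (x i)) (x 2)))

/-- **One insertion of a far part.** -/
theorem far_one59 (p : X → Y) (w : X → ℝ) (b : X → B) {A o : (Fin 3 → B) → X → ℝ} {Mf : ℝ} (hA : ∀ β y, |A β y| ≤ Mf * o β y)
    (Ψ : (Fin 3 → X) → ℝ) :
    (P3 p).ks.dbl.toEv.ev w (fun y => |(P3 p).ks.dr.insR b A Ψ y|) ≤ Mf * FO w p b o Ψ 1 := by
  have h1 : ∀ y : Fin 3 ⊕ Fin 3 → X, |(P3 p).ks.dr.insR b A Ψ y| ≤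
      Mf * ((fun x => |Ψ x|) (fun i => y (Sum.inl i)) *
        ∑ j, (fun x : Fin 3 → X => o fun i => b (x i)) (fun i => y (Sum.inl i)) (y j)) := fun y => by
    refine (abs_ins_sum (P3 p).ks (A fun i => b (y (Sum.inl i))) Ψ y).trans ?_
    have h2 : ∑ j, |A (fun i => b (y (Sum.inl i))) (y j)| ≤ ∑ j, Mf * o (fun i => b (y (Sum.inl i))) (y j) :=
      Finset.sum_le_sum fun j _ => hA _ _
    refine (mul_le_mul_of_nonneg_left h2 (abs_nonneg _)).trans (le_of_eq ?_)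
    rw [← Finset.mul_sum]
    ring
  refine (ev_mono _ _ h1).trans (le_of_eq ?_)
  rw [ev_smul, ev_all_one (P3 p).ks w (fun x => |Ψ x|) fun x => o fun i => b (x i), ks_ev]
  unfold FO
  congr 2
  funext x
  rw [sum_A3, one_mul]

/-- **The insertion of `g` and of a far part.** -/
theorem far_two59 (p : X → Y) (w : X → ℝ) (b : X → B) {A o : (Fin 3 → B) → X → ℝ} {Mf Mg : ℝ}
    (hA : ∀ β y, |A β y| ≤ Mf * o β y) {g : X → ℝ} (hg : ∀ x, |g x| ≤ Mg) (Ψ : (Fin 3 → X) → ℝ) :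
    (P3 p).ks.dbl.dbl.toEv.ev w (fun y => |(P3 p).ks.dbl.dr.ins (A fun i => b (y (Sum.inl (Sum.inl i))))
      ((P3 p).ks.dr.ins g Ψ) y|) ≤ 6 * Mg * Mf * FO w p b o Ψ 3 := by
  have hM0 : 0 ≤ Mg := (abs_nonneg _).trans (hg Classical.ofNonempty)
  have h1 : ∀ y : (Fin 3 ⊕ Fin 3) ⊕ (Fin 3 ⊕ Fin 3) → X,
      |(P3 p).ks.dbl.dr.ins (A fun i => b (y (Sum.inl (Sum.inl i)))) ((P3 p).ks.dr.ins g Ψ) y| ≤
      6 * Mg * Mf * ((fun x => |Ψ x|) (fun i => y (Sum.inl (Sum.inl i))) *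
        ∑ j, (fun x : Fin 3 → X => o fun i => b (x i)) (fun i => y (Sum.inl (Sum.inl i))) (y j)) := fun y => by
    refine (abs_ins_sum (P3 p).ks.dbl (A fun i => b (y (Sum.inl (Sum.inl i)))) ((P3 p).ks.dr.ins g Ψ) y).trans ?_
    have h2 : ∑ j, |A (fun i => b (y (Sum.inl (Sum.inl i)))) (y j)| ≤
        ∑ j, Mf * o (fun i => b (y (Sum.inl (Sum.inl i)))) (y j) := Finset.sum_le_sum fun j _ => hA _ _
    have h3 : |(P3 p).ks.dr.ins g Ψ fun i => y (Sum.inl i)| ≤ 6 * Mg * |Ψ fun i => y (Sum.inl (Sum.inl i))| :=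
      MicE14.abs_ins_g hg Ψ _
    have h4 : 0 ≤ ∑ j, |A (fun i => b (y (Sum.inl (Sum.inl i)))) (y j)| := Finset.sum_nonneg fun j _ => abs_nonneg _
    refine (mul_le_mul h3 h2 h4 (by positivity)).trans (le_of_eq ?_)
    rw [← Finset.mul_sum]
    ring
  refine (ev_mono _ _ h1).trans (le_of_eq ?_)
  rw [ev_smul, ev_all_two (P3 p).ks w (fun x => |Ψ x|) fun x => o fun i => b (x i), ks_ev]
  unfold FO
  congr 2
  funext x
  rw [sum_A3]

end Far

/-! ### The fields of a slab -/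

section Fld

variable {Q : Finset (Finset ℕ)} {N : ℕ} {J : Finset ℕ} {cc : Pt → Env → ℝ} {M R : ℝ} {χ : Pt → ℝ}

/-- The far part of a field on the slab `J`. -/
theorem abs_farF59 (hQ : Full N Q) (hJ : ∀ r ∈ J, 1 ≤ r ∧ r ≤ N) (hc : ∀ p ∈ sS J N, ∀ η, |cc p η| ≤ M / J.card)
    (z : ∀ p, 0 ≤ χ p) (u : ∀ p, χ p ≤ 1) {o : ℝ} (o0 : 0 ≤ o) (S : Px Q) (hM : 0 ≤ M)
    (far : (∃ i ∈ J, χ ((i : ℤ), ps S i) ≠ 1) → 1 ≤ o) (η : Env) :
    |Cf (sS J N) (cut' χ cc) (nq N) η S| ≤ M * o := by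
  rw [Cf_row hQ hJ]
  by_cases h : ∃ i ∈ J, χ ((i : ℤ), ps S i) ≠ 1
  · have ho := far h
    obtain ⟨i0, hi0, _⟩ := h
    have hJ0 : (0 : ℝ) < J.card := by exact_mod_cast Finset.card_pos.2 ⟨i0, hi0⟩
    have h1 : ∀ r ∈ J, |cut' χ cc ((r : ℤ), ps S r) η| ≤ M / J.card := fun r hr => by
      unfold cut'
      have hp : (((r : ℤ), ps S r) : Pt) ∈ sS J N := by
        have a1 := ps_nonneg S r
        have a2 := ps_le S r
        refine mem_sS.2 ⟨r, hr, (ps S r).toNat, by have := (hJ r hr).2; omega, ?_⟩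
        rw [Int.toNat_of_nonneg a1]
      rw [abs_mul, abs_of_nonneg (by linarith [u ((r : ℤ), ps S r)] : 0 ≤ 1 - χ ((r : ℤ), ps S r))]
      exact (mul_le_of_le_one_left (abs_nonneg _) (by linarith [z ((r : ℤ), ps S r)])).trans (hc _ hp η)
    calc |∑ r ∈ J, cut' χ cc ((r : ℤ), ps S r) η| ≤ ∑ r ∈ J, |cut' χ cc ((r : ℤ), ps S r) η| :=
          Finset.abs_sum_le_sum_abs _ _
      _ ≤ ∑ _r ∈ J, M / J.card := Finset.sum_le_sum h1
      _ = M := by
          rw [Finset.sum_const, nsmul_eq_mul]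
          field_simp
      _ ≤ M * o := le_mul_of_one_le_right hM ho
  · push Not at h
    rw [Finset.sum_eq_zero fun r hr => ?_, abs_zero]
    · positivity
    · unfold cut'
      rw [h r hr, sub_self, zero_mul]

/-- The quadratic variation of the near part of a field on the slab `J`. -/
theorem QV_cut59 (hc : ∀ p ∈ sS J N, ∀ η, |cc p η| ≤ M / J.card) (z : ∀ p, 0 ≤ χ p) (u : ∀ p, χ p ≤ 1)
    (n : ∀ i ∈ J, (((range (N + 1)).filter fun y : ℕ => χ ((i : ℤ), (y : ℤ)) ≠ 0).card : ℝ) ≤ R) (η : Env) :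
    QV (sS J N) (cut χ cc) η ≤ J.card * (R * (M / J.card) ^ 2) := by
  unfold QV
  rw [sum_sS]
  refine (Finset.sum_le_sum (g := fun _ => R * (M / J.card) ^ 2) fun i hi => ?_).trans_eq ?_
  · have h1 : ∀ y ∈ range (N + 1), cut χ cc ((i : ℤ), (y : ℤ)) η ^ 2 ≤
        if χ ((i : ℤ), (y : ℤ)) ≠ 0 then (M / J.card) ^ 2 else 0 := fun y hy => by
      unfold cut
      split_ifs with h
      · have h2 := hc ((i : ℤ), (y : ℤ)) (mem_sS.2 ⟨i, hi, y, by have := mem_range.1 hy; omega, rfl⟩) η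
        have h3 : |χ ((i : ℤ), (y : ℤ)) * cc ((i : ℤ), (y : ℤ)) η| ≤ M / J.card := by
          rw [abs_mul, abs_of_nonneg (z _)]
          exact (mul_le_of_le_one_left (abs_nonneg _) (u _)).trans h2
        exact sq_le_sq.2 (h3.trans (le_abs_self _))
      · push Not at h
        rw [h, zero_mul]
        norm_num
    refine (Finset.sum_le_sum h1).trans ?_
    rw [← Finset.sum_filter, Finset.sum_const, nsmul_eq_mul]
    exact mul_le_mul_of_nonneg_right (n i hi) (sq_nonneg _)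
  · rw [Finset.sum_const, nsmul_eq_mul]

/-- The near part of a field on the slab `J`: bounded, and it sees the rows `J` only. -/
theorem abs_Cf59 (hQ : Full N Q) (hJ : ∀ r ∈ J, 1 ≤ r ∧ r ≤ N) (hc : ∀ p ∈ sS J N, ∀ η, |cc p η| ≤ M / J.card)
    (z : ∀ p, 0 ≤ χ p) (u : ∀ p, χ p ≤ 1) (hM : 0 ≤ M) (η : Env) (S : Px Q) :
    |Cf (sS J N) (cut χ cc) (nq N) η S| ≤ M := by
  rw [Cf_row hQ hJ]
  have h1 : ∀ r ∈ J, |cut χ cc ((r : ℤ), ps S r) η| ≤ M / J.card := fun r hr => by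
    unfold cut
    have hp : (((r : ℤ), ps S r) : Pt) ∈ sS J N := by
      have a1 := ps_nonneg S r
      have a2 := ps_le S r
      refine mem_sS.2 ⟨r, hr, (ps S r).toNat, by have := (hJ r hr).2; omega, ?_⟩
      rw [Int.toNat_of_nonneg a1]
    rw [abs_mul, abs_of_nonneg (z _)]
    exact (mul_le_of_le_one_left (abs_nonneg _) (u _)).trans (hc _ hp η)
  calc |∑ r ∈ J, cut χ cc ((r : ℤ), ps S r) η| ≤ ∑ r ∈ J, |cut χ cc ((r : ℤ), ps S r) η| :=
        Finset.abs_sum_le_sum_abs _ _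
    _ ≤ ∑ _r ∈ J, M / J.card := Finset.sum_le_sum h1
    _ ≤ M := by
        rw [Finset.sum_const, nsmul_eq_mul]
        rcases Nat.eq_zero_or_pos J.card with h | h
        · rw [h]
          simpa using hM
        · have : (0 : ℝ) < J.card := by exact_mod_cast h
          exact le_of_eq (by field_simp)

theorem Cf_see59 (hQ : Full N Q) (hJ : ∀ r ∈ J, 1 ≤ r ∧ r ≤ N) (cc : Pt → Env → ℝ) (η : Env) {S S' : Px Q}
    (h : ∀ r ∈ J, ps S r = ps S' r) : Cf (sS J N) cc (nq N) η S = Cf (sS J N) cc (nq N) η S' := by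
  rw [Cf_row hQ hJ, Cf_row hQ hJ]
  exact Finset.sum_congr rfl fun r hr => by rw [h r hr]

end Fld

/-! ### The derivative of the exact response -/

section DG

variable {Q : Finset (Finset ℕ)} [Nonempty (Px Q)] [SwQ Q] {be wr wl al e d c0 z0 : ℕ} {w : Px Q → ℝ} {γ g f n : Px Q → ℝ} {Mg : ℝ}

theorem sum_psRF {T : Type*} (s : Finset T) (c : T → ℝ) (γ : T → Px Q → ℝ) (g f : Px Q → ℝ) (x : Fin 3 → Px Q) :
    ∑ q ∈ s, c q * psRF be wr e d (γ q) g f x = psRF be wr e d (fun S => ∑ q ∈ s, c q * γ q S) g f x := by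
  unfold psRF pR59
  by_cases h : ∃ i, be ≤ i ∧ i ≤ wr ∧ Eqp (x 2) (x 1) i
  · simp only [if_pos h, zero_mul, mul_zero, Finset.sum_const_zero]
  · simp only [if_neg h]
    rw [← Finset.sum_sub_distrib, Finset.mul_sum, Finset.sum_mul, Finset.sum_mul]
    exact Finset.sum_congr rfl fun q _ => by ring

theorem sum_psLF {T : Type*} (s : Finset T) (c : T → ℝ) (γ : T → Px Q → ℝ) (g f : Px Q → ℝ) (x : Fin 3 → Px Q) :
    ∑ q ∈ s, c q * psLF wl al be wr e d (γ q) g f x = psLF wl al be wr e d (fun S => ∑ q ∈ s, c q * γ q S) g f x := by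
  unfold psLF pL59
  by_cases h : (∃ i, be ≤ i ∧ i ≤ wr ∧ Eqp (x 2) (x 1) i) ∧ ¬∃ i, wl ≤ i ∧ i ≤ al ∧ Eqp (x 2) (x 1) i
  · simp only [if_pos h]
    rw [← Finset.sum_sub_distrib, Finset.mul_sum, Finset.sum_mul, Finset.sum_mul]
    exact Finset.sum_congr rfl fun q _ => by ring
  · simp only [if_neg h, zero_mul, mul_zero, Finset.sum_const_zero]

/-- A bound of the pair functionals by functions of one path. -/
theorem abs_pR_n (hg : ∀ S, |g S| ≤ Mg) (hn : ∀ S, |γ S| ≤ n S) (S T : Px Q) :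
    |pR59 be wr γ g S T| ≤ Mg * ((n S + n T) * NI be wr S T) := by
  have hM0 : 0 ≤ Mg := (abs_nonneg _).trans (hg S)
  unfold pR59 NI
  by_cases hh : ∃ i, be ≤ i ∧ i ≤ wr ∧ Eqp S T i
  · obtain ⟨i, h1, h2, h3⟩ := hh
    rw [if_pos ⟨i, h1, h2, h3⟩, if_neg fun h => h i h1 h2 h3, abs_zero, mul_zero, mul_zero]
  · have hn' : ∀ k, be ≤ k → k ≤ wr → ps S k ≠ ps T k := fun i h1 h2 h3 => hh ⟨i, h1, h2, h3⟩
    rw [if_neg hh, if_pos hn', mul_one, abs_mul, abs_mul, abs_of_pos (by norm_num : (0 : ℝ) < 1 / 2)]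
    have h1 : |γ S - γ T| ≤ n S + n T := (abs_sub _ _).trans (add_le_add (hn S) (hn T))
    have h2 : |g S - g T| ≤ 2 * Mg := (abs_sub _ _).trans (by linarith [hg S, hg T])
    have h3 := mul_le_mul h1 h2 (abs_nonneg _) ((abs_nonneg _).trans h1)
    linarith

theorem abs_pL_n (hg : ∀ S, |g S| ≤ Mg) (hn : ∀ S, |γ S| ≤ n S) (S T : Px Q) :
    |pL59 wl al be wr γ g S T| ≤ Mg * ((n S + n T) * NI wl al S T) := by
  have hM0 : 0 ≤ Mg := (abs_nonneg _).trans (hg S)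
  have hnn : 0 ≤ n S + n T := add_nonneg ((abs_nonneg _).trans (hn S)) ((abs_nonneg _).trans (hn T))
  unfold pL59 NI
  by_cases hh : (∃ i, be ≤ i ∧ i ≤ wr ∧ Eqp S T i) ∧ ¬∃ i, wl ≤ i ∧ i ≤ al ∧ Eqp S T i
  · have hn' : ∀ k, wl ≤ k → k ≤ al → ps S k ≠ ps T k := fun i h1 h2 h3 => hh.2 ⟨i, h1, h2, h3⟩
    rw [if_pos hh, if_pos hn', mul_one, abs_mul, abs_mul, abs_of_pos (by norm_num : (0 : ℝ) < 1 / 2)]
    have h1 : |γ S - γ T| ≤ n S + n T := (abs_sub _ _).trans (add_le_add (hn S) (hn T))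
    have h2 : |g S - g T| ≤ 2 * Mg := (abs_sub _ _).trans (by linarith [hg S, hg T])
    have h3 := mul_le_mul h1 h2 (abs_nonneg _) ((abs_nonneg _).trans h1)
    linarith
  · rw [if_neg hh, abs_zero]
    split_ifs
    · rw [mul_one]
      positivity
    · rw [mul_zero, mul_zero]

theorem NI_symm59 (i j : ℕ) (S S' : Px Q) : NI i j S S' = NI i j S' S := MicE14.NI_symm i j S S'

/-- The mean of a pair functional of the inner pair bounded by `n` at both paths. -/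
theorem ev_pair59 (hM : 0 ≤ Mg) {Ψ : (Fin 3 → Px Q) → ℝ} {I ρ : Px Q → Px Q → ℝ} {p : Px Q → Finset ℕ × ℕ} (n0 : ∀ S, 0 ≤ n S)
    (I0 : ∀ S S', 0 ≤ I S S') (r0 : ∀ S S', 0 ≤ ρ S S') (hI : ∀ S S', I S S' = I S' S) (hρ : ∀ T, Mp p fun S => ρ S T)
    (h : ∀ x, |Ψ x| ≤ Mg * ((n (x 2) + n (x 1)) * I (x 2) (x 1) * ρ (x 2) (x 0))) :
    ev (P3 p) w (fun x => |Ψ x|) ≤ 2 * Mg * PP w fun x x' => mi w p I x * (n x * ρ x x') := by
  have b1 : Bdp I ρ 1 fun x : Fin 3 → Px Q => I (x 2) (x 1) * ρ (x 2) (x 0) := fun x => by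
    rw [abs_of_nonneg (mul_nonneg (I0 _ _) (r0 _ _)), one_mul]
  have h1 : ev (P3 p) w (fun x : Fin 3 → Px Q => I (x 2) (x 1) * (n (x 2) * ρ (x 2) (x 0))) =
      PP w fun x x' => mi w p I x * (n x * ρ x x') := ev_P3_PP p w I fun x x' => n x * ρ x x'
  have h2 := own_mid (w := w) b1 hI hρ n0
  have h3 : ∀ x : Fin 3 → Px Q, |Ψ x| ≤ Mg * (I (x 2) (x 1) * (n (x 2) * ρ (x 2) (x 0))) +
      Mg * (|I (x 2) (x 1) * ρ (x 2) (x 0)| * n (x 1)) := fun x => by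
    rw [abs_of_nonneg (mul_nonneg (I0 _ _) (r0 _ _))]
    exact (h x).trans (le_of_eq (by ring))
  refine (I52.ev_mono _ _ h3).trans ?_
  rw [I52.ev_add, I52.ev_smul, I52.ev_smul, h1]
  rw [one_mul] at h2
  nlinarith [mul_le_mul_of_nonneg_left h2 hM]

/-- The mass, averaged over the tilts, of the pairs given `q` without common point on the rows `[i, k]`. -/
def Gm59 (w g : Px Q → ℝ) (a : ℝ) (q : Px Q → Finset ℕ × ℕ) (i k : ℕ) (S : Px Q) : ℝ :=
  ∫ t in (-1 : ℝ)..1, cE2 (w + (t - a) • g) q (NI i k) S S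

omit [SwQ Q] in
theorem Gm59_nonneg (w g : Px Q → ℝ) (a : ℝ) (q : Px Q → Finset ℕ × ℕ) (i k : ℕ) (S : Px Q) : 0 ≤ Gm59 w g a q i k S := by
  unfold Gm59
  refine intervalIntegral.integral_nonneg (by norm_num) fun t _ => ?_
  unfold cE2
  exact cE_nonneg _ _ (fun T => cE_nonneg _ _ (fun T' => NI_nonneg _ _ _ _) _) _

theorem rh_nonneg59 (e d : ℕ) (f : Px Q → ℝ) (S S' : Px Q) : 0 ≤ rh e d f S S' := MicE14.rh_nonneg f S S'

variable {B : Type*} {J : Finset ℕ} {cc : Pt → Env → ℝ} {M a : ℝ} {χ : (Fin 3 → B) → Pt → ℝ} {N c' al' be' m0 d' : ℕ}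
  {wE gE fE : Env → Px Q → ℝ}

/-- The derivative along a localised field is one `gamD`. -/
theorem dg_eqR59 (b : Px Q → B) (S : Finset Pt) (n : Pt → Px Q → ℝ) (q : Px Q → Finset ℕ × ℕ) (η : Env) (x : Fin 3 → Px Q) :
    Dg b χ S cc (fun p η => psRF be wr e d (gamD (wE η) (gE η) (n p) a q) (gE η) (fE η)) η x =
      psRF be wr e d (gamD (wE η) (gE η) (Cf S (cut (χ fun i => b (x i)) cc) n η) a q) (gE η) (fE η) x := by
  unfold Dg
  rw [sum_psRF]
  congr 1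
  funext T
  exact gamD_sum _ _ _ _ _ _ _ _

theorem dg_eqL59 (b : Px Q → B) (S : Finset Pt) (n : Pt → Px Q → ℝ) (q : Px Q → Finset ℕ × ℕ) (η : Env) (x : Fin 3 → Px Q) :
    Dg b χ S cc (fun p η => psLF wl al be wr e d (gamD (wE η) (gE η) (n p) a q) (gE η) (fE η)) η x =
      psLF wl al be wr e d (gamD (wE η) (gE η) (Cf S (cut (χ fun i => b (x i)) cc) n η) a q) (gE η) (fE η) x := by
  unfold Dg
  rw [sum_psLF]
  congr 1
  funext T
  exact gamD_sum _ _ _ _ _ _ _ _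

/-- **The derivative of the right part along a localised slab field inside of the window.** -/
theorem dgR59 (hQ : Full N Q) (b : Px Q → B) (hJ : ∀ r ∈ J, 1 ≤ r ∧ r ≤ N) (hm0 : ∀ r ∈ J, m0 ≤ r)
    (hc : ∀ p ∈ sS J N, ∀ η, |cc p η| ≤ M / J.card) (z : ∀ β p, 0 ≤ χ β p) (u : ∀ β p, χ β p ≤ 1) (hM : 0 ≤ M) {η : Env}
    (hcal : c' ≤ al') (hab : al' ≤ be') (hmd : m0 ≤ d') (hw : Wk c' al' be' m0 (wE η)) (hg : Lk al' be' (gE η))
    (hgM : ∀ S, |gE η S| ≤ Mg) (h0 : z0 ≤ e) (hed : e ≤ d) (hf : Rk d (fE η)) (wv : Px Q → ℝ) :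
    ev (P3 (pJ c0 z0)) wv (fun x => |Dg b χ (sS J N) cc
      (fun p η => psRF be wr e d (gamD (wE η) (gE η) (nq N p) a (pJ c' d')) (gE η) (fE η)) η x|) ≤
      2 * Mg * PP wv fun x x' => mi wv (pJ c0 z0) (NI be wr) x *
        ((M * Mg * Gm59 (wE η) (gE η) a (pJ c' d') be' m0 x) * rh e d (fE η) x x') := by
  have hM0 : 0 ≤ Mg := (abs_nonneg _).trans (hgM Classical.ofNonempty)
  refine ev_pair59 (n := fun S => M * Mg * Gm59 (wE η) (gE η) a (pJ c' d') be' m0 S) hM0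
    (fun S => mul_nonneg (mul_nonneg hM hM0) (Gm59_nonneg _ _ _ _ _ _ _)) (fun S S' => NI_nonneg _ _ _ _)
    (fun S S' => rh_nonneg59 e d (fE η) S S') (fun S S' => NI_symm59 _ _ S S')
    (fun T => MicH14.mp_rh' h0 hed hf T) fun x => ?_
  rw [dg_eqR59]
  have hA : ∀ S, |gamD (wE η) (gE η) (Cf (sS J N) (cut (χ fun i => b (x i)) cc) (nq N) η) a (pJ c' d') S| ≤
      M * Mg * Gm59 (wE η) (gE η) a (pJ c' d') be' m0 S := fun S =>
    abs_gamD_R hcal hab hmd hw hg (fun S S' h => Cf_see59 hQ hJ _ η fun r hr => h r (hm0 r hr))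
      (fun S => abs_Cf59 hQ hJ hc (z _) (u _) hM η S) hgM S
  unfold psRF
  rw [abs_mul, MicE14.abs_rh]
  refine (mul_le_mul_of_nonneg_right (abs_pR_n hgM hA (x 2) (x 1)) (rh_nonneg59 e d (fE η) _ _)).trans (le_of_eq ?_)
  ring

/-- **The derivative of the left part along a localised slab field inside of the window.** -/
theorem dgL59 (hQ : Full N Q) (b : Px Q → B) (hJ : ∀ r ∈ J, 1 ≤ r ∧ r ≤ N) (hm0 : ∀ r ∈ J, r ≤ m0)
    (hc : ∀ p ∈ sS J N, ∀ η, |cc p η| ≤ M / J.card) (z : ∀ β p, 0 ≤ χ β p) (u : ∀ β p, χ β p ≤ 1) (hM : 0 ≤ M) {η : Env}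
    (hbed : be' ≤ d') (hab : al' ≤ be') (hmc : c' ≤ m0) (hw : Wk m0 al' be' d' (wE η)) (hg : Lk al' be' (gE η))
    (hgM : ∀ S, |gE η S| ≤ Mg) (h0 : z0 ≤ e) (hed : e ≤ d) (hf : Rk d (fE η)) (wv : Px Q → ℝ) :
    ev (P3 (pJ c0 z0)) wv (fun x => |Dg b χ (sS J N) cc
      (fun p η => psLF wl al be wr e d (gamD (wE η) (gE η) (nq N p) a (pJ c' d')) (gE η) (fE η)) η x|) ≤
      2 * Mg * PP wv fun x x' => mi wv (pJ c0 z0) (NI wl al) x *
        ((M * Mg * Gm59 (wE η) (gE η) a (pJ c' d') m0 al' x) * rh e d (fE η) x x') := by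
  have hM0 : 0 ≤ Mg := (abs_nonneg _).trans (hgM Classical.ofNonempty)
  refine ev_pair59 (n := fun S => M * Mg * Gm59 (wE η) (gE η) a (pJ c' d') m0 al' S) hM0
    (fun S => mul_nonneg (mul_nonneg hM hM0) (Gm59_nonneg _ _ _ _ _ _ _)) (fun S S' => NI_nonneg _ _ _ _)
    (fun S S' => rh_nonneg59 e d (fE η) S S') (fun S S' => NI_symm59 _ _ S S')
    (fun T => MicH14.mp_rh' h0 hed hf T) fun x => ?_
  rw [dg_eqL59]
  have hA : ∀ S, |gamD (wE η) (gE η) (Cf (sS J N) (cut (χ fun i => b (x i)) cc) (nq N) η) a (pJ c' d') S| ≤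
      M * Mg * Gm59 (wE η) (gE η) a (pJ c' d') m0 al' S := fun S =>
    abs_gamD_L hbed hab hmc hw hg (fun S S' h => Cf_see59 hQ hJ _ η fun r hr => h r (hm0 r hr))
      (fun S => abs_Cf59 hQ hJ hc (z _) (u _) hM η S) hgM S
  unfold psLF
  rw [abs_mul, MicE14.abs_rh]
  refine (mul_le_mul_of_nonneg_right (abs_pL_n hgM hA (x 2) (x 1)) (rh_nonneg59 e d (fE η) _ _)).trans (le_of_eq ?_)
  ring

end DG

end

end Pool.Agent.W_7d29a1_C0.E2F59
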