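import Pool.Agent.W_7d29a1_C0.MicN96
import Pool.Agent.W_7d29a1_C0.Cor45L
import Pool.Agent.W_7d29a1_C0.E2F59

/-!
MP_7d29a1_pr, [CURV0] / [C0], leaf E2, part R (helper96): **THE CORNER OF THE TERM `D gam` TIMES OWN** (`dgR59` of helper59): the pairs given
the ends of the window which have no common point between the kick and the slab, at all tilts, are told from the path itself given what is
behind the window (`tau_cls96`, `pt96`); `Rw96.dgR`: with the own pair, both at the corner.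
-/

set_option autoImplicit false
set_option linter.unusedSectionVars false
set_option linter.unusedVariables false

namespace Pool.Agent.W_7d29a1_C0.MicN96

open Finset MeasureTheory Filter Topology Pool.Agent.W_7d29a1_F Pool.Agent.W_7d29a1_X Pool.Agent.W_7d29a1_C0.Mod92
open Pool.Agent.W_7d29a1_C0.Swap57 Pool.Agent.W_7d29a1_C0.Blk18
open Pool.Agent.W_7d29a1_C0.MicE14 (rh rh_nonneg nn)
open Pool.Agent.W_7d29a1_C0.T72 (Sp72 Rb72 ind72 ind72_nonneg ind72_le_one uj72 abs_uj72 meas_uj72)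
open Pool.Agent.W_7d29a1_C0.E2F59 (Gm59 Gm59_nonneg)
open Pool.W7d29a1.C0
open Pool.W7d29a1.C0 (gz gm gm_nonneg gm_mono gm_const PP PP_nonneg PP_mono PP_smul)
open Pool.W7d29a1.C0.VT31
open Pool.W7d29a1.C0.R43
open Pool.W7d29a1.C0.I52 (cE_eq_av av_mono)
open Pool.W7d29a1.C0.H7 (E0X)
open Pool.W7d29a1.C0.H27 (pB slb)
open Pool.W7d29a1.C0.C45 (wu meas_wu OwnE)

noncomputable section

variable {μ : Measure ℝ} {s : ℝ} {N : ℕ} {Q : Finset (Finset ℕ)}

section Cls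

variable [Nonempty (Px Q)] {c d : ℕ} {Y : Type*} [DecidableEq Y]

/-- **The pairs given the ends of the window, told given the coarse condition.** -/
theorem tau_cls96 (hQ : Full N Q) (η : Env) {q : Px Q → Y} (hq : Crs q (pJ c d)) (hcd : c ≤ d) (hd : d ≤ N) {i j : ℕ} (hi : c ≤ i)
    (hj : j ≤ d) {M κ : ℝ} {S : Px Q} (h1 : ¬ Sml (lw μ s η N Q) q c d κ S) (h2 : Tau (lw μ s η N Q) (pJ c d) i j M S) :
    Tau (lw μ s η N Q) q i j (M + 2 * κ / 5) S := by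
  unfold Sml at h1
  rw [not_lt] at h1
  set w := lw μ s η N Q with hw
  unfold Tau at h2 ⊢
  rw [cE2_mI] at h2 ⊢
  have h3 := pair_class (μ := μ) (s := s) hQ η hq hcd hd hi hj S
  rw [← hw] at h3
  rw [← h3] at h2
  -- the inner mass
  have h4 : cE w (fun S => (q S, en c d S)) (mI w (pJ c d) i j) S ≤
      cE w (fun S => (q S, en c d S)) (fun T => Real.exp κ * mI w q i j T) S := by
    rw [cE_eq_av, cE_eq_av]
    refine av_mono _ _ fun T hT => ?_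
    have hT' : (q T, en c d T) = (q S, en c d S) := (mem_filter.1 hT).2
    have hq1 : q T = q S := congrArg Prod.fst hT'
    have e1 : fz w q T = fz w q S := by
      unfold fz
      rw [hq1]
    have e2 : fz w (fun S => (q S, en c d S)) T = fz w (fun S => (q S, en c d S)) S := by
      unfold fz
      beta_reduce
      rw [hT']
    have h5 := cE_pair_le w q (en c d) (f := NI i j T) (fun U => NI_nonneg i j T U) T (κ := Real.exp (-κ)) (by
      rw [e1, e2]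
      exact h1)
    rw [mI_class hQ η hq hcd hd hi hj T, ← hw] at h5
    have h6 := mul_le_mul_of_nonneg_left h5 (Real.exp_pos κ).le
    rw [← mul_assoc, ← Real.exp_add, add_neg_cancel, Real.exp_zero, one_mul] at h6
    exact h6
  have e3 : cE w (fun S => (q S, en c d S)) (fun T => Real.exp κ * mI w q i j T) S =
      Real.exp κ * cE w (fun S => (q S, en c d S)) (mI w q i j) S := by
    have := congrFun (cE_smul w (fun S => (q S, en c d S)) (Real.exp κ) (mI w q i j)) S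
    rw [Pi.smul_apply, smul_eq_mul] at this
    exact this
  rw [e3] at h4
  have h7 := cE_pair_le w q (en c d) (f := mI w q i j) (fun T => mI_nonneg _ _ _ _ _) S (κ := Real.exp (-κ)) h1
  have h8 : Real.exp (-(5 * M)) ≤ Real.exp κ * cE w (fun S => (q S, en c d S)) (mI w q i j) S := h2.trans h4
  have h9 : cE w (fun S => (q S, en c d S)) (mI w q i j) S ≤ Real.exp κ * cE w q (mI w q i j) S := by
    have h6 := mul_le_mul_of_nonneg_left h7 (Real.exp_pos κ).le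
    rw [← mul_assoc, ← Real.exp_add, add_neg_cancel, Real.exp_zero, one_mul] at h6
    exact h6
  have h10 := h8.trans (mul_le_mul_of_nonneg_left h9 (Real.exp_pos κ).le)
  rw [← mul_assoc, ← Real.exp_add] at h10
  have h11 := mul_le_mul_of_nonneg_left h10 (Real.exp_pos (-(κ + κ))).le
  rw [← mul_assoc, ← Real.exp_add, ← Real.exp_add, neg_add_cancel, Real.exp_zero, one_mul] at h11
  refine le_trans (le_of_eq ?_) h11
  congr 1
  ring

/-- **The pairs given the ends of the window at every weight at distance at most `D`.** -/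
theorem pt96 (hQ : Full N Q) (η : Env) {A : Px Q → ℝ} {D : ℝ} (hA : ∀ S, |A S| ≤ D) {q : Px Q → Y} (hq : Crs q (pJ c d))
    (hcd : c ≤ d) (hd : d ≤ N) {i j : ℕ} (hi : c ≤ i) (hj : j ≤ d) (M κ : ℝ) (S : Px Q)
    [Decidable (Tau (lw μ s η N Q) q i j (M + 2 * κ / 5) S)] [Decidable (Sml (lw μ s η N Q) q c d κ S)] :
    cE2 (lw μ s η N Q + A) (pJ c d) (NI i j) S S ≤
      (if Tau (lw μ s η N Q) q i j (M + 2 * κ / 5) S then 1 else 0) +
      ((if Sml (lw μ s η N Q) q c d κ S then 1 else 0) + Real.exp (4 * D - 5 * M)) := by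
  classical
  rw [cE2_mI]
  have h0 := cE_mI_le_one (lw μ s η N Q + A) (pJ c d) (pJ c d) i j S
  have he := (Real.exp_pos (4 * D - 5 * M)).le
  by_cases h1 : Tau (lw μ s η N Q) (pJ c d) i j M S
  · by_cases h2 : Sml (lw μ s η N Q) q c d κ S
    · rw [if_pos h2]
      split_ifs <;> linarith
    · rw [if_pos (tau_cls96 hQ η hq hcd hd hi hj h2 h1)]
      split_ifs <;> linarith
  · have h3 := cE_mI_tau (w := lw μ s η N Q) hA (pJ c d) (pJ c d) i j M S
    rw [if_neg fun h4 => h1 ((tauM_self _ _ _ _ _ _).1 h4), zero_add] at h3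
    split_ifs <;> linarith

open Classical in
/-- The mass averaged over the tilts. -/
theorem gm59_le96 (hQ : Full N Q) (η : Env) {g : Px Q → ℝ} {a D : ℝ} (ha : |a| ≤ 1) (hg : ∀ S, |g S| ≤ D / 2) {q : Px Q → Y}
    (hq : Crs q (pJ c d)) (hcd : c ≤ d) (hd : d ≤ N) {i j : ℕ} (hi : c ≤ i) (hj : j ≤ d) (M κ : ℝ) (S : Px Q) :
    Gm59 (lw μ s η N Q) g a (pJ c d) i j S ≤ 2 * ((if Tau (lw μ s η N Q) q i j (M + 2 * κ / 5) S then 1 else 0) +
      ((if Sml (lw μ s η N Q) q c d κ S then 1 else 0) + Real.exp (4 * D - 5 * M))) := by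
  obtain ⟨X, hX⟩ : ∃ X : ℝ, X = (if Tau (lw μ s η N Q) q i j (M + 2 * κ / 5) S then (1 : ℝ) else 0) +
      ((if Sml (lw μ s η N Q) q c d κ S then 1 else 0) + Real.exp (4 * D - 5 * M)) := ⟨_, rfl⟩
  rw [← hX]
  have h1 : ∀ t ∈ Set.uIoc (-1 : ℝ) 1, ‖cE2 (lw μ s η N Q + (t - a) • g) (pJ c d) (NI i j) S S‖ ≤ X := fun t ht => by
    rw [Set.uIoc_of_le (by norm_num)] at ht
    have h2 : ∀ T, |((t - a) • g) T| ≤ D := fun T => by
      rw [Pi.smul_apply, smul_eq_mul, abs_mul]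
      have h3 : |t - a| ≤ 2 := (abs_sub _ _).trans (by
        have : |t| ≤ 1 := abs_le.2 ⟨ht.1.le, ht.2⟩
        linarith)
      calc |t - a| * |g T| ≤ 2 * (D / 2) := mul_le_mul h3 (hg T) (abs_nonneg _) (by norm_num)
        _ = D := by ring
    rw [Real.norm_eq_abs, abs_of_nonneg (by unfold cE2; exact cE_nonneg _ _ (fun T => cE_nonneg _ _ (fun T' => NI_nonneg _ _ _ _) _) _),
      hX]
    exact pt96 hQ η h2 hq hcd hd hi hj M κ S
  have h4 := intervalIntegral.norm_integral_le_of_norm_le_const h1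
  rw [Real.norm_eq_abs] at h4
  refine (le_abs_self _).trans (h4.trans (le_of_eq ?_))
  norm_num
  ring

open Classical in
/-- **The own functional of the pairs of the window.** -/
theorem ownE_gm96 (hQ : Full N Q) {u : Finset ℕ → Env → Px Q → ℝ} {Du : ℝ} (hu : ∀ A η S, |u A η S| ≤ Du)
    {g : Env × Finset ℕ → Px Q → ℝ} {a : Env × Finset ℕ → ℝ} (ha : ∀ ω, |a ω| ≤ 1) (hg : ∀ ω S, |g ω S| ≤ Du / 2)
    (hcd : c ≤ d) (hd : d ≤ N) {i j : ℕ} (hi : c ≤ i) (hj : j ≤ d) (M κ : ℝ) :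
    OwnE (wu μ s N Q u) (fun ω x => Gm59 (wm μ s N Q ω) (g ω) (a ω) (pJ c d) i j x / 2)
      (fun ω => Tau (wm μ s N Q ω) (pJ 0 d) i j (M + 2 * κ / 5))
      (Real.exp (2 * Du) * ((N + 1 : ℝ) ^ 2 * Real.exp (-κ)) + Real.exp (4 * Du - 5 * M)) := fun ω F Λ hF0 hF => by
  have h := pp_sml45 (μ := μ) (s := s) (N := N) (c := c) (d := d) ω.1 (A := fun S => u ω.2 ω.1 S) (D := Du) (fun S => hu _ _ S)
    (pJ (Q := Q) 0 d) (hcd.trans hd) hd κ (e := Real.exp (4 * Du - 5 * M)) (Real.exp_pos _).le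
    (V := fun x => Gm59 (wm μ s N Q ω) (g ω) (a ω) (pJ c d) i j x / 2)
    (E := fun x => Tau (lw μ s ω.1 N Q) (pJ 0 d) i j (M + 2 * κ / 5) x) (fun S => by
      have h1 := gm59_le96 (μ := μ) (s := s) hQ ω.1 (ha ω) (hg ω) (q := pJ (Q := Q) 0 d) (crs_pJ (Nat.zero_le _) le_rfl) hcd hd hi hj
        M κ S
      have e : wm μ s N Q ω = lw μ s ω.1 N Q := rfl
      rw [e]
      linarith) hF0 hF
  refine le_trans (le_of_eq ?_) (h.trans (le_of_eq ?_))
  · rfl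
  · congr 1

end Cls

section Row

variable [IsProbabilityMeasure μ] [SwQ Q] [MxQ Q] [Nonempty (Px Q)] {γ B : ℝ} {b j : ℕ} {t : ℝ} {c0 K : ℕ} {ε εM K' : ℝ}
variable {c1 be wr z zf cc c' d' be' m0 : ℕ} {F M : ℝ} {f : Env × Finset ℕ → Px Q → ℝ}

/-- **THE TERM `D gam` TIMES OWN, PART R.** -/
theorem Rw96.dgR (R : Rw96 μ s N Q γ B b j t c0 K ε εM K') (hM : (N : ℝ) ^ εM ≤ M) (h1 : c1 ≤ be) (h2 : c0 + K ≤ be)
    (h3 : be ≤ wr) (h4 : wr ≤ z) (hz : z ≤ N) (hzf : z ≤ zf) (hc : zf ≤ cc) (g1 : c' ≤ be') (g2 : m0 ≤ d') (g3 : c' ≤ d')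
    (g4 : c0 + K ≤ d') (g5 : d' ≤ N) (hf : Sp72 Q cc F c0 K f) (hF : F ≤ (N : ℝ) ^ 3) :
    ∫ ω, PP (wu μ s N Q (uj72 μ s Q γ B b j t) ω) (fun x y => mI (wu μ s N Q (uj72 μ s Q γ B b j t) ω) (pJ c1 z) be wr x *
        (Gm59 (wm μ s N Q ω) (gg μ s Q γ B b ω j) (sg ω.2 j : ℝ) (pJ c' d') be' m0 x * rh zf cc (f ω) x y)) ∂(Pm μ N) ≤
      2 * ((N : ℝ) ^ ε * ∫ ω, PP (wm μ s N Q ω)
          (fun x y => ind72 (fun ω S => R43.Nta (wm μ s N Q ω) (pJ 0 z) be wr M S ∧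
            Tau (wm μ s N Q ω) (pJ 0 d') be' m0 M S) ω x * rh zf cc (f ω) x y) ∂(Pm μ N)) + er96 N K' := by
  obtain ⟨b1, b2, b3, b4, b5, b6, b7⟩ := R.exp_le hM
  have hF0 := F0_96 hf
  have hB := R.B0
  have hN1 := R.N1
  have hZ := R.Z0
  have hg : ∀ (ω : Env × Finset ℕ) (S : Px Q), |gg μ s Q γ B b ω j S| ≤ B / 2 := fun ω S =>
    abs_gj (μ := μ) (s := s) (δ := γ) ω.1 hB (abs_sg ω.2 j).le b j S
  set U := uj72 μ s Q γ B b j t with hU
  have hu : ∀ A η S, |U A η S| ≤ B := fun A η S => abs_uj72 hB b j R.ht A η S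
  have own := C45.ownE_nta (μ := μ) (s := s) (N := N) (Q := Q) (u := U) R.full hu (c1 := c1) (z := z) (i := be) (j := wr)
    (by omega) hz h1 h4 (M / 2) (M / 4)
  have mic := ownE_gm96 (μ := μ) (s := s) (N := N) (Q := Q) R.full hu (g := fun ω => gg μ s Q γ B b ω j)
    (a := fun ω => (sg ω.2 j : ℝ)) (fun ω => (abs_sg ω.2 j).le) hg g3 g5 g1 g2 (M / 2) (M / 4)
  have G0 : ∀ (ω : Env × Finset ℕ) (x : Px Q), 0 ≤ Gm59 (wm μ s N Q ω) (gg μ s Q γ B b ω j) (sg ω.2 j : ℝ) (pJ c' d') be' m0 x / 2 :=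
    fun ω x => div_nonneg (Gm59_nonneg _ _ _ _ _ _ _) zero_le_two
  have G1 : ∀ (ω : Env × Finset ℕ) (x : Px Q), Gm59 (wm μ s N Q ω) (gg μ s Q γ B b ω j) (sg ω.2 j : ℝ) (pJ c' d') be' m0 x / 2 ≤ 1 :=
    fun ω x => by
      have h5 : ∀ τ ∈ Set.uIoc (-1 : ℝ) 1, ‖cE2 (wm μ s N Q ω + (τ - (sg ω.2 j : ℝ)) • gg μ s Q γ B b ω j) (pJ c' d')
          (NI be' m0) x x‖ ≤ 1 := fun τ _ => by
        rw [Real.norm_eq_abs, abs_of_nonneg (by unfold cE2; exact cE_nonneg _ _ (fun T => cE_nonneg _ _ (fun T' => NI_nonneg _ _ _ _) _) _),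
          cE2_mI]
        exact cE_mI_le_one _ _ _ _ _ _
      have h6 := intervalIntegral.norm_integral_le_of_norm_le_const h5
      have h7 : Gm59 (wm μ s N Q ω) (gg μ s Q γ B b ω j) (sg ω.2 j : ℝ) (pJ c' d') be' m0 x ≤ 1 * |(1 : ℝ) - -1| :=
        (le_abs_self _).trans h6
      norm_num at h7
      linarith
  have both := C45.OwnE.mul own mic G0 G1
  obtain ⟨e1, he1⟩ : ∃ e1 : ℝ, e1 = Real.exp (2 * B) * ((N + 1 : ℝ) ^ 2 * Real.exp (-(M / 4))) + Real.exp (2 * B - M / 2) +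
    (Real.exp (2 * B) * ((N + 1 : ℝ) ^ 2 * Real.exp (-(M / 4))) + Real.exp (4 * B - 5 * (M / 2))) := ⟨_, rfl⟩
  rw [← he1] at both
  have he1' : e1 ≤ 4 * (N : ℝ) ^ (-K') := by
    rw [he1]
    linarith
  -- the events are robust
  have hθ : (2 * B / K : ℝ) ≤ 2 * B / K := le_rfl
  have r1 := C45.nta_rb (μ := μ) (s := s) (N := N) (Q := Q) (c0 := c0) (K := K) (θ := 2 * B / K) (D := 2 * B) (z := z) (i := be)
    (j := wr) (M := M / 2 + M / 4) (M' := M) (by linarith) hθ (by omega) h2 (by linarith)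
  have r2 := C45.tauM_rb (μ := μ) (s := s) (N := N) (Q := Q) (c0 := c0) (K := K) (θ := 2 * B / K) (D := 2 * B) (z := d') (i := be')
    (j := m0) (by linarith) hθ g4 (pJ (Q := Q) 0 d') (M := M / 2 + 2 * (M / 4) / 5) (M' := M) (by linarith)
  have e3 : ∀ M₀ : ℝ, (fun ω => R43.TauM (wm μ s N Q ω) (pJ (Q := Q) 0 d') (pJ 0 d') be' m0 M₀) =
      fun ω => Tau (wm μ s N Q ω) (pJ 0 d') be' m0 M₀ := fun M₀ => by
    funext ω S
    exact propext (tauM_self _ _ _ _ _ _)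
  rw [e3, e3] at r2
  have r3 := C45.Rb72.and r1 r2
  have key := C45.e0_ev45 R.hE (meas_uj72 γ B b j t) (z := zf) (c := cc) (by omega) hc hf (R.twoF hF) r3
  rw [← hU] at key
  -- the pointwise bound
  set EV : Env × Finset ℕ → Px Q → Prop := fun ω S => R43.Nta (wm μ s N Q ω) (pJ 0 z) be wr (M / 2 + M / 4) S ∧
    Tau (wm μ s N Q ω) (pJ 0 d') be' m0 (M / 2 + 2 * (M / 4) / 5) S with hEV
  have hpt : ∀ ω, PP (wu μ s N Q U ω) (fun x y => mI (wu μ s N Q U ω) (pJ c1 z) be wr x *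
      (Gm59 (wm μ s N Q ω) (gg μ s Q γ B b ω j) (sg ω.2 j : ℝ) (pJ c' d') be' m0 x * rh zf cc (f ω) x y)) ≤
      2 * PP (wu μ s N Q U ω) (fun x y => ind72 EV ω x * rh zf cc (f ω) x y) + 2 * (2 * F * e1) := fun ω => by
    have h5 := both ω (fun x y => rh zf cc (f ω) x y) (2 * F) (fun x y => rh_nonneg _ _ _) (C45.rh_le45 hf ω)
    have e4 : (fun x y => mI (wu μ s N Q U ω) (pJ c1 z) be wr x *
        (Gm59 (wm μ s N Q ω) (gg μ s Q γ B b ω j) (sg ω.2 j : ℝ) (pJ c' d') be' m0 x * rh zf cc (f ω) x y)) =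
        fun x y => 2 * (mI (wu μ s N Q U ω) (pJ c1 z) be wr x *
          (Gm59 (wm μ s N Q ω) (gg μ s Q γ B b ω j) (sg ω.2 j : ℝ) (pJ c' d') be' m0 x / 2) * rh zf cc (f ω) x y) := by
      funext x y
      ring
    rw [e4, PP_smul]
    linarith
  have mE : ∀ S, MeasurableSet {ω | EV ω S} := r3.meas
  have i2 : Integrable (fun ω => PP (wu μ s N Q U ω) (fun x y => ind72 EV ω x * rh zf cc (f ω) x y)) (Pm μ N) :=
    int_bdd (M := 1 * (2 * F)) (C45.meas_PP45 (meas_wu (meas_uj72 γ B b j t)) fun x y =>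
      (T72.meas_ind72 mE x).mul (C45.meas_rh45 hf x y)) fun ω =>
        C45.abs_PP_le45 _ (fun x y => mul_nonneg (ind72_nonneg _ _ _) (rh_nonneg _ _ _)) fun x y =>
          mul_le_mul (ind72_le_one _ _ _) (C45.rh_le45 hf ω x y) (rh_nonneg _ _ _) zero_le_one
  have h6 : ∫ ω, PP (wu μ s N Q U ω) (fun x y => mI (wu μ s N Q U ω) (pJ c1 z) be wr x *
      (Gm59 (wm μ s N Q ω) (gg μ s Q γ B b ω j) (sg ω.2 j : ℝ) (pJ c' d') be' m0 x * rh zf cc (f ω) x y)) ∂(Pm μ N) ≤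
      2 * ∫ ω, PP (wu μ s N Q U ω) (fun x y => ind72 EV ω x * rh zf cc (f ω) x y) ∂(Pm μ N) + 2 * (2 * F * e1) := by
    refine (integral_mono_of_nonneg (Eventually.of_forall fun ω => PP_nonneg _ fun x y => mul_nonneg (mI_nonneg _ _ _ _ _)
      (mul_nonneg (Gm59_nonneg _ _ _ _ _ _ _) (rh_nonneg _ _ _))) ((i2.const_mul 2).add (integrable_const _))
      (Eventually.of_forall hpt)).trans (le_of_eq ?_)
    have e5 := integral_add (i2.const_mul 2) (integrable_const (μ := Pm μ N) (2 * (2 * F * e1)))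
    simp only [Pi.add_apply] at e5 ⊢
    rw [e5, integral_const_mul, integral_const, measureReal_def, measure_univ, ENNReal.toReal_one, one_smul]
  refine h6.trans ?_
  -- the numbers
  obtain ⟨X1, hX1⟩ : ∃ X1 : ℝ, X1 = ∫ ω, PP (wu μ s N Q U ω) (fun x y => ind72 EV ω x * rh zf cc (f ω) x y) ∂(Pm μ N) := ⟨_, rfl⟩
  obtain ⟨X2, hX2⟩ : ∃ X2 : ℝ, X2 = ∫ ω, PP (wm μ s N Q ω)
          (fun x y => ind72 (fun ω S => R43.Nta (wm μ s N Q ω) (pJ 0 z) be wr M S ∧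
            Tau (wm μ s N Q ω) (pJ 0 d') be' m0 M S) ω x * rh zf cc (f ω) x y) ∂(Pm μ N) := ⟨_, rfl⟩
  rw [← hX1, ← hX2]
  have key' : X1 ≤ (N : ℝ) ^ ε * (X2 + (N : ℝ) ^ (-K')) := by
    rw [hX1, hX2]
    exact key
  obtain ⟨Z, hZd⟩ : ∃ Z : ℝ, Z = (N : ℝ) ^ (-K') := ⟨_, rfl⟩
  unfold er96
  rw [← hZd] at key' he1' hZ ⊢
  have h7 : (N : ℝ) ^ ε ≤ N := by
    have := Real.rpow_le_rpow_of_exponent_le (show (1 : ℝ) ≤ N by linarith) R.ε1
    rwa [Real.rpow_one] at this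
  have h8 : (N : ℝ) ^ ε * Z ≤ N * Z := mul_le_mul_of_nonneg_right h7 hZ
  have h9 : 2 * (2 * F * e1) ≤ 16 * (N : ℝ) ^ 3 * Z := by
    have a1 : 2 * (2 * F * e1) ≤ 4 * F * (4 * Z) := by
      have := mul_le_mul_of_nonneg_left he1' (by linarith : 0 ≤ 4 * F)
      linarith
    have a2 := mul_le_mul_of_nonneg_right (mul_le_mul_of_nonneg_left hF (by norm_num : (0 : ℝ) ≤ 4)) (by linarith : 0 ≤ 4 * Z)
    linarith
  have h10 : 2 * (N : ℝ) + 16 * (N : ℝ) ^ 3 ≤ (N : ℝ) ^ 6 := by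
    have a1 : (N : ℝ) ≤ (N : ℝ) ^ 3 := by nlinarith [mul_self_nonneg ((N : ℝ) - 1)]
    have a3 : (64 : ℝ) ≤ (N : ℝ) ^ 3 := by linarith
    have a2 : 64 * (N : ℝ) ^ 3 ≤ (N : ℝ) ^ 3 * (N : ℝ) ^ 3 := mul_le_mul_of_nonneg_right a3 (by positivity)
    calc 2 * (N : ℝ) + 16 * (N : ℝ) ^ 3 ≤ 64 * (N : ℝ) ^ 3 := by linarith
      _ ≤ _ := by
        refine a2.trans (le_of_eq ?_)
        ring
  have h11 := mul_le_mul_of_nonneg_right h10 hZ
  rw [add_mul] at h11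
  rw [mul_add] at key'
  linarith

end Row

end

end Pool.Agent.W_7d29a1_C0.MicN96
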