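import Pool.Agent.W_7d29a1_C0.Par92

/-!
MP_7d29a1_pr, [CURV0] / [C0] (helper45): **THE CONSTANTS WITH A COMMON LEVEL EXPONENT.** `EstM P`: for all small `ι`, all small `εM` (given `ι`), all
small `β`, `γ`, eventually in `m`, `P ι εM β γ m`. All the prices and corner data with the level `M = L ^ εM` of the robust events can be stated in this
form, one by one, and joined by `EstM.and`; `EstM.est` gives back `Est` with `∃ εM`.
-/

set_option autoImplicit false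

namespace Pool.Agent.W_7d29a1_C0.EstM45

open Filter Topology
open Pool.Agent.W_7d29a1_C0.Par92 (Est Sml)

/-- For small `ι`, then small `εM`, then small `β`, then small `γ`, eventually in `m`. -/
def EstM (P : ℝ → ℝ → ℝ → ℝ → ℕ → Prop) : Prop :=
  Sml fun ι => Sml fun εM => Sml fun β => Sml fun γ => ∀ᶠ m : ℕ in atTop, P ι εM β γ m

theorem EstM.mono {P Q : ℝ → ℝ → ℝ → ℝ → ℕ → Prop} (h : EstM P)
    (k : ∀ ι εM β γ : ℝ, 0 < ι → 0 < εM → 0 < β → 0 < γ → ∀ᶠ m : ℕ in atTop, P ι εM β γ m → Q ι εM β γ m) : EstM Q :=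
  Sml.mono h fun ι hι h1 => Sml.mono h1 fun εM hM h2 => Sml.mono h2 fun β hβ h3 => Sml.mono h3 fun γ hγ h4 => by
    filter_upwards [h4, k ι εM β γ hι hM hβ hγ] with m h5 h6
    exact h6 h5

theorem EstM.and {P Q : ℝ → ℝ → ℝ → ℝ → ℕ → Prop} (h : EstM P) (k : EstM Q) :
    EstM fun ι εM β γ m => P ι εM β γ m ∧ Q ι εM β γ m :=
  (Sml.and h k).mono fun _ _ h1 => (Sml.and h1.1 h1.2).mono fun _ _ h2 => (Sml.and h2.1 h2.2).mono fun _ _ h3 =>
    (Sml.and h3.1 h3.2).mono fun _ _ h4 => h4.1.and h4.2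

/-- Back to `Est`. -/
theorem EstM.est {P : ℝ → ℝ → ℝ → ℝ → ℕ → Prop} (h : EstM P) : Est fun ι β γ m => ∃ εM : ℝ, 0 < εM ∧ P ι εM β γ m :=
  Sml.mono h fun _ _ h1 => by
    obtain ⟨εM, h2, h3⟩ := h1.exists
    exact h3.mono fun _ _ h4 => h4.mono fun _ _ h5 => h5.mono fun _ h6 => ⟨εM, h2, h6⟩

/-- A statement which does not need the level. -/
theorem EstM.of_est {P : ℝ → ℝ → ℝ → ℕ → Prop} (h : Est P) : EstM fun ι _ β γ m => P ι β γ m :=
  Sml.mono h fun _ _ h1 => Sml.of fun _ _ => h1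

/-- Back to `Est`, next to a statement without the level. -/
theorem EstM.est_and {P : ℝ → ℝ → ℝ → ℝ → ℕ → Prop} {Q : ℝ → ℝ → ℝ → ℕ → Prop} (h : EstM P) (k : Est Q) :
    Est fun ι β γ m => (∃ εM : ℝ, 0 < εM ∧ P ι εM β γ m) ∧ Q ι β γ m := h.est.and k

end Pool.Agent.W_7d29a1_C0.EstM45
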