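import Pool.Agent.W_7d29a1_C0.DgC11
import Pool.Agent.W_7d29a1_C0.EstM45

/-!
MP_7d29a1_pr, [C0], helper11: THE CONSTANTS OF THE DOUBLE TIES WITH A COMMON LEVEL EXPONENT. `PkD11.mono`, `cst_mono11`; `pkDM11`: the data `PkD11`
in the form `EstM` of helper45; `joinM11`: they join the constants `Cst43` of helper43 with one `κ` and one error.
-/

set_option autoImplicit false

namespace Pool.Agent.W_7d29a1_C0.Dg11

open Finset MeasureTheory Filter Topology Pool.Agent.W_7d29a1_F Pool.Agent.W_7d29a1_X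
open Pool.Agent.W_7d29a1_H (EE sl)
open Pool.Agent.W_7d29a1_HS (In)
open Pool.Agent.W_7d29a1_HZ (wd')
open Pool.Agent.W_7d29a1_C0 Pool.Agent.W_7d29a1_C0.Mod92 Pool.Agent.W_7d29a1_C0.Asm96 Pool.Agent.W_7d29a1_C0.EstC46
open Pool.Agent.W_7d29a1_C0.Frm33 Pool.Agent.W_7d29a1_C0.E2G43 Pool.Agent.W_7d29a1_C0.E2S39 Pool.Agent.W_7d29a1_C0.MicN96
open Pool.Agent.W_7d29a1_C0.E2K43
open Pool.Agent.W_7d29a1_C0.P3 (Hy hy_mono_x)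
open Pool.Agent.W_7d29a1_C0.Tv48 (EndOk)
open Pool.Agent.W_7d29a1_C0.EvT50 (ev_pw50 ev_exp50)
open Pool.Agent.W_7d29a1_C0.EstM45 (EstM)
open Pool.Agent.W_7d29a1_C0.Par92 (Est Sml)
open Pool.W7d29a1.C0

noncomputable section

variable {μ : Measure ℝ} {s : ℝ} {N : ℕ}

theorem phM_mono11 {ε e e' : ℝ} (h : e ≤ e') (lout lo lm hh s' D : ℕ) :
    phM μ s N ε e lout lo lm hh s' D ≤ phM μ s N ε e' lout lo lm hh s' D := by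
  unfold phM
  split_ifs <;> linarith

/-- Monotonicity of the data of the double ties in the level and in the error. -/
theorem PkD11.mono {ε θ κ κ' : ℝ} {ys : Finset ℕ} {e e' : ℝ} (h : PkD11 μ s ε θ κ N ys e) (hN : 1 ≤ N) (hκ : κ' ≤ κ) (he : e ≤ e') :
    PkD11 μ s ε θ κ' N ys e' := by
  have hN1 : (1 : ℝ) ≤ N := by exact_mod_cast hN
  have hx : (N : ℝ) ^ κ' ≤ (N : ℝ) ^ κ := Real.rpow_le_rpow_of_exponent_le hN1 hκ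
  have hs : ∀ r lout l b σ : ℕ, r * ∑ D ∈ range r, phM μ s N ε e lout l l b σ D ≤ r * ∑ D ∈ range r, phM μ s N ε e' lout l l b σ D :=
    fun r lout l b σ => mul_le_mul_of_nonneg_left (sum_le_sum fun D _ => phM_mono11 he _ _ _ _ _ _) (Nat.cast_nonneg _)
  refine ⟨?_, ?_⟩
  · intro b l σ n₁ r a zf cc hb hl hlb hbσ hσr hrN hn₁ hzc hcN hlo S c u v co ou z G hS U U0 U1 hU
    refine (h.prR b l σ n₁ r a zf cc hb hl hlb hbσ hσr hrN (hn₁.trans hx) hzc hcN hlo S c u v co ou z G hS U U0 U1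
      fun j hj y hy ω x hne => ?_).trans (hs _ _ _ _ _)
    obtain ⟨⟨n, hn, g1⟩, g2⟩ := hU j hj y hy ω x hne
    exact ⟨⟨n, hn, hy_mono_x hx g1⟩, hy_mono_x hx g2⟩
  · intro b l σ n₁ r a zf cc hb hl hlb hbσ hσr hrN hn₁ hzc hcN hlo S d u v z ov o G hS U U0 U1 hU
    refine (h.prL b l σ n₁ r a zf cc hb hl hlb hbσ hσr hrN (hn₁.trans hx) hzc hcN hlo S d u v z ov o G hS U U0 U1
      fun j hj y hy ω x hne => ?_).trans (hs _ _ _ _ _)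
    obtain ⟨⟨n, hn, g1⟩, g2⟩ := hU j hj y hy ω x hne
    exact ⟨⟨n, hn, hy_mono_x hx g1⟩, hy_mono_x hx g2⟩

/-- Monotonicity of the constants of helper43 in `κ` and in the error. -/
theorem cst_mono11 {K : ℕ} {δ ι β γ : ℝ} {m : ℕ} {εM κ κ' M e e' : ℝ} {q : ℕ} (h : Cst43 μ s K δ ι β γ m εM κ M e q) (hκ : κ' ≤ κ)
    (hM : 120 * M ≤ ((L33 K m : ℕ) : ℝ) ^ κ') (he : e ≤ e') (he' : e' ≤ ((L33 K m : ℕ) : ℝ) ^ (-8 : ℝ)) :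
    Cst43 μ s K δ ι β γ m εM κ' M e' q where
  εM0 := h.εM0
  M8 := h.M8
  Me := h.Me
  Mn := h.Mn
  q1 := h.q1
  q2 := h.q2
  Mκ := hM
  pk := {
    N1 := h.pk.N1
    yN := h.pk.yN
    X1 := by linarith [h.M8]
    pr := fun y hy Ps hlen hok hpw hdom => (h.pk.pr y hy Ps hlen hok hpw fun P hP => Dom.mono (hdom P hP)
      (Real.rpow_le_rpow_of_exponent_le (by exact_mod_cast h.pk.N1) hκ)).trans (by linarith) }
  e0 := h.e0.trans he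
  e8 := he'
  rw := h.rw
  eM := h.eM

/-- **One `κ`, one error.** -/
theorem join11 {K : ℕ} {δ ι β γ : ℝ} {m : ℕ} {εM κ₁ κ₂ M e₁ e₂ : ℝ} {q : ℕ} (h : Cst43 μ s K δ ι β γ m εM κ₁ M e₁ q)
    (hM : 120 * M ≤ ((L33 K m : ℕ) : ℝ) ^ κ₂) (he : e₂ ≤ ((L33 K m : ℕ) : ℝ) ^ (-8 : ℝ))
    (hD : PkD11 μ s (ι / K) (δ / (8 * K)) κ₂ (L33 K m) (ys33 μ s K m) e₂) :
    ∃ κ e : ℝ, Cst43 μ s K δ ι β γ m εM κ M e q ∧ PkD11 μ s (ι / K) (δ / (8 * K)) κ (L33 K m) (ys33 μ s K m) e := by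
  refine ⟨min κ₁ κ₂, max e₁ e₂, cst_mono11 h (min_le_left _ _) ?_ (le_max_left _ _) (max_le h.e8 he),
    hD.mono h.pk.N1 (min_le_right _ _) (le_max_right _ _)⟩
  rcases min_choice κ₁ κ₂ with g | g <;> rw [g]
  exacts [h.Mκ, hM]

/-- **THE DATA OF THE DOUBLE TIES AT THE CONCRETE FRAME, FOR ALL SMALL LEVELS.** -/
theorem pkDM11 [IsProbabilityMeasure μ] {c C : ℝ} {n₀ : ℕ} (h : In μ s c C n₀) {K : ℕ} (hK : 32 ≤ K) {δ : ℝ} (hδ : 0 < δ) :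
    EstM fun ι εM _ _ m => ∃ κ e : ℝ, 120 * ((L33 K m : ℕ) : ℝ) ^ εM ≤ ((L33 K m : ℕ) : ℝ) ^ κ ∧ 0 ≤ e ∧
      e ≤ ((L33 K m : ℕ) : ℝ) ^ (-8 : ℝ) ∧ PkD11 μ s (ι / K) (δ / (8 * K)) κ (L33 K m) (ys33 μ s K m) e := by
  have hK0 : (0 : ℝ) < K := by
    have : (32 : ℝ) ≤ K := by exact_mod_cast hK
    linarith
  refine ⟨1, one_pos, fun ι hι _ => ?_⟩
  obtain ⟨δd, κ, c₃, hδd, hκ, hc₃, L₁, hL₁, hD⟩ := pkD11 (s := s) h (ι / K) (δ / (8 * K)) (by positivity) (by positivity)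
  refine ⟨κ / 2, by positivity, fun εM hεM0 hεM => Sml.of fun β _ => Sml.of fun γ _ => ?_⟩
  have hεMκ : εM < κ := by linarith
  have evA : ∀ᶠ N : ℕ in atTop, 120 * (N : ℝ) ^ εM ≤ (N : ℝ) ^ κ ∧ Real.exp (-(1 * (N : ℝ) ^ c₃)) ≤ (N : ℝ) ^ (-8 : ℝ) := by
    filter_upwards [ev_pw50 hεMκ 120, ev_exp50 1 8 (a := 1) one_pos hc₃] with N h1 h3
    rw [one_mul] at h3
    exact ⟨h1, h3⟩
  obtain ⟨N₁, hN₁⟩ := eventually_atTop.1 evA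
  filter_upwards [ev_L (by omega : 1 ≤ K) (max L₁ N₁), cone33 h hK hδd] with m h1 h3
  obtain ⟨N, hN⟩ : ∃ N : ℕ, N = L33 K m := ⟨_, rfl⟩
  rw [← hN] at h1
  obtain ⟨a1, a3⟩ := hN₁ N ((le_max_right _ _).trans h1)
  rw [one_mul] at a3
  rw [← hN]
  refine ⟨κ, Real.exp (-(N : ℝ) ^ c₃), a1, (Real.exp_pos _).le, a3, ?_⟩
  refine hD N ((le_max_left _ _).trans h1) (ys33 μ s K m) (fun y hy => ?_) κ le_rfl _ le_rfl
  have h4 := mem_Ico.1 (show y ∈ Ico (y33 μ s K m) (y33 μ s K m + M33 m) from hy)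
  have h5 := h3.2.2 y (by omega) (by omega)
  rw [hN]
  exact h5

/-- **THE CONSTANTS OF (E2) WITH ONE LEVEL**, from helper45's form of the constants of helper43. -/
theorem joinM11 [IsProbabilityMeasure μ] {c C : ℝ} {n₀ : ℕ} (h : In μ s c C n₀) {K : ℕ} (hK : 32 ≤ K) {δ : ℝ} (hδ : 0 < δ)
    (hC : EstM fun ι εM β γ m => ∃ κ e : ℝ, Cst43 μ s K δ ι β γ m εM κ (((L33 K m : ℕ) : ℝ) ^ εM) e ⌈10 * ((L33 K m : ℕ) : ℝ) ^ εM⌉₊) :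
    EstM fun ι εM β γ m => ∃ κ e : ℝ, Cst43 μ s K δ ι β γ m εM κ (((L33 K m : ℕ) : ℝ) ^ εM) e ⌈10 * ((L33 K m : ℕ) : ℝ) ^ εM⌉₊ ∧
      PkD11 μ s (ι / K) (δ / (8 * K)) κ (L33 K m) (ys33 μ s K m) e := by
  refine (hC.and (pkDM11 (s := s) h hK hδ)).mono fun ι εM β γ _ _ _ _ => Eventually.of_forall fun m hm => ?_
  obtain ⟨⟨κ₁, e₁, h1⟩, κ₂, e₂, h2, -, h4, h5⟩ := hm
  exact join11 h1 h2 h4 h5

end

end Pool.Agent.W_7d29a1_C0.Dg11
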