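import Pool.Agent.W_7d29a1_C0.FlipC4
import Pool.Agent.W_7d29a1_C0.Cor45G

/-!
CURV0 (MP_7d29a1_pr), [C0], E2 part L (request of helper45): `Flp45`. (helper4)
-/

set_option autoImplicit false
set_option linter.unusedSectionVars false
set_option linter.unusedVariables false

namespace Pool.Agent.W_7d29a1_C0.FlipR4.C4

open Pool.Agent.W_7d29a1_F hiding W_pos W_nonneg W_add
open Finset MeasureTheory Pool.Agent.W_7d29a1_X Pool.Agent.W_7d29a1_HZ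
open Pool.Agent.W_7d29a1_Z74
open Pool.Agent.W_7d29a1_HZ.Z74
open Pool.Agent.W_7d29a1_C0.Mod92
open Pool.Agent.W_7d29a1_C0.Blk18
open Pool.Agent.W_7d29a1_C0.Pin18
open Pool.Agent.W_7d29a1_C0.Flip61
open Pool.W7d29a1.C0 (gz gm gz_pos gz_ne gm_const gm_mono gm_nonneg gm_sub PP PP_eq)
open Pool.W7d29a1.C0.VT31 (Mp Crs cE cV cC gc gv cE_mono cE_nonneg)
open Pool.Agent.W_7d29a1_C0.MicE14 (rh rh_nonneg)
open Pool.W7d29a1.C0.H7 (NL7 HL7 lv7)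
open Pool.Agent.W_7d29a1_C0.Swap57 (NI NI_nonneg)
open Pool.W7d29a1.C0.R43 (mI)
open Pool.W7d29a1.C0.R43
open Pool.W7d29a1.C0.C45 (Flp45 pT45 nM45 nP45 wf45 uf45 nX45 nX_nonneg45 wu wu_uj45)
open Pool.Agent.W_7d29a1_C0.T72 (ind72 uj72)

noncomputable section

variable {μ : Measure ℝ} {s : ℝ} {N b j : ℕ}

theorem ind_iv {Q : Finset (Finset ℕ)} (T : Env × Finset ℕ → Px Q → Prop) (ω : Env × Finset ℕ) (S : Px Q) : ind72 T ω S = iv (T ω S) := by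
  unfold ind72 iv
  rfl

variable [IsProbabilityMeasure μ] {δ B : ℝ} {y₀ n : ℕ} {θ ε : ℝ}

/-- The error of the flip; `F` = the bound of the differences of the spectator, `n` = the number of the ends. -/
def eC4 (B F L₁ : ℝ) (K n : ℕ) (θ ε : ℝ) : ℝ :=
  2 * (B * F) / n + (3 * (Real.exp (2 * B) * ((B * F * (L₁ + 8 * K) +
    (F * (Real.exp (4 * B) * (4 * B)) + B * (Real.exp (2 * B) * (2 * F)))) + 2 * (B * F))) * θ + 4 * (B * F) * ε)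

/-- **THE FLIP OF THE SECOND PART OF PART L**, the own event given by `TSw`. -/
theorem flp45 (hb0 : 0 < b) (hj : j + b ≤ N) (hB : 0 ≤ B) {t : ℝ} (ht : |t| ≤ 1) {dl : ℝ} (hdl : 0 < dl) {c0 K : ℕ} (hc : j + b ≤ c0)
    {f : Fam N} {c : ℕ → ℝ} {D F : ℝ} (hf : Cov1 N b j (fun y ω S => f y ω S - c y) D) (F0 : 0 ≤ F)
    (hF : ∀ y ω S S', |f y ω S - f y ω S'| ≤ F) {zf cc : ℕ} (hz : j + b ≤ zf)
    {ev : ∀ y, (Px (Pn N y) → ℝ) → ℝ → Px (Pn N y) → Prop} {M₁ L₁ : ℝ}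
    (hev : TSw μ s N δ B b j (fun y _ _ w ρ => ev y w M₁ (ρ 0)) (fun y _ _ w ρ => ev y w (M₁ + 1) (ρ 0)) L₁)
    {c1 d1 c2 d2 : ℕ} (h1 : c1 ≤ j - b) (h1' : j + b ≤ d1) (h2 : c2 ≤ j - b) (h2' : j + b ≤ d2)
    (hy : 1 ≤ y₀) (hn : 1 ≤ n) (hyN : y₀ + n ≤ N) (hE : FErr2 μ s N δ B b j y₀ n θ ε) :
    Flp45 μ s N (Ico y₀ (y₀ + n)) δ B b j t dl c0 K zf cc f ev (fun _ => pJ c1 d1) (fun _ => pJ c2 d2) M₁ (eC4 B F L₁ K n θ ε) := by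
  have hG := (trep_rh (μ := μ) (s := s) (δ := δ) hB ht hf F0 hF (zf := zf) (cc := cc) (Or.inr hz) 0)
  have hN := (trep_nX (μ := μ) (s := s) (N := N) (δ := δ) hB ht h1 h1' h2 h2' 0)
  have hNG := hN.mul hG
  have n0 : ∀ (y : ℕ) (ω : Env × Finset ℕ) (A : Finset ℕ) (t' : ℝ) (ρ : ℕ → Px (Pn N y)), 0 ≤ cE (wg μ s N δ B b j y ω t' + (tT (N := N) (b := b) (j := j) μ s δ hB t A).F y ω) (pJ c1 d1) (fun x =>
      cE (wg μ s N δ B b j y ω t' + (tT (N := N) (b := b) (j := j) μ s δ hB t A).F y ω) (pJ c2 d2)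
        (fun z => |Mod92.gg μ s (Pn N y) δ B b ω j x - Mod92.gg μ s (Pn N y) δ B b ω j z|) x) (ρ 0) *
      gm (wg μ s N δ B b j y ω t' + (tT (N := N) (b := b) (j := j) μ s δ hB t A).F y ω) (rh zf cc (f y ω) (ρ 0)) := fun y ω A t' ρ => by
    have n1 : Nonempty (Px (Pn N y)) := ⟨ρ 0⟩
    exact mul_nonneg (cE_nonneg _ _ (fun x => cE_nonneg _ _ (fun z => abs_nonneg _) _) _) (gm_nonneg _ fun x => rh_nonneg _ _ _)
  have key := flip_nl hb0 hj hB ht hdl (K := K) hc hev hNG n0 hy hn hyN hE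
  simp only [tT_wm, tT_wf] at key
  unfold Flp45 eC4
  refine le_trans (le_of_eq ?_) (key.trans (add_le_add (le_of_eq ?_) le_rfl))
  · unfold avy
    congr 1
    refine sum_congr rfl fun y hy' => ?_
    have n1 : Nonempty (Px (Pn N y)) := ne_Pn (by
      rw [mem_Ico] at hy'
      omega)
    unfold pT45
    beta_reduce
    refine integral_congr_ae (Filter.Eventually.of_forall fun ω => ?_)
    beta_reduce
    rw [wu_uj45, PP_one]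
    congr 1
  · unfold avy
    congr 1
    refine sum_congr rfl fun y hy' => ?_
    have n1 : Nonempty (Px (Pn N y)) := ne_Pn (by
      rw [mem_Ico] at hy'
      omega)
    unfold pT45
    beta_reduce
    refine integral_congr_ae (Filter.Eventually.of_forall fun ω => ?_)
    beta_reduce
    rw [wu_uj45, PP_one]
    congr 1

/-- **(T2)**: own mass of the path. -/
theorem flp45_nta (hb0 : 0 < b) (hj : j + b ≤ N) (hB : 0 ≤ B) {t : ℝ} (ht : |t| ≤ 1) {dl : ℝ} (hdl : 0 < dl) {c0 K : ℕ} (hc : j + b ≤ c0)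
    {f : Fam N} {c : ℕ → ℝ} {D F : ℝ} (hf : Cov1 N b j (fun y ω S => f y ω S - c y) D) (F0 : 0 ≤ F)
    (hF : ∀ y ω S S', |f y ω S - f y ω S'| ≤ F) {zf cc : ℕ} (hz : j + b ≤ zf)
    {cw dw wl al : ℕ} (hcw : cw ≤ j - b) (hdw : j + b ≤ dw) (hal : al ≤ j - b ∨ j + b ≤ wl) (M₁ : ℝ)
    {c1 d1 c2 d2 : ℕ} (h1 : c1 ≤ j - b) (h1' : j + b ≤ d1) (h2 : c2 ≤ j - b) (h2' : j + b ≤ d2)
    (hy : 1 ≤ y₀) (hn : 1 ≤ n) (hyN : y₀ + n ≤ N) (hE : FErr2 μ s N δ B b j y₀ n θ ε) :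
    Flp45 μ s N (Ico y₀ (y₀ + n)) δ B b j t dl c0 K zf cc f (fun _ w M => Nta w (pJ cw dw) wl al M) (fun _ => pJ c1 d1) (fun _ => pJ c2 d2) M₁
      (eC4 B F (4 * Real.exp M₁) K n θ ε) := by
  have h := tsw_ow1 (μ := μ) (s := s) (N := N) (δ := δ) (B := B) hcw hdw hal (a := M₁) (a' := M₁ + 1) le_rfl 0
  exact flp45 hb0 hj hB ht hdl hc hf F0 hF hz (ev := fun _ w M => Nta w (pJ cw dw) wl al M) h h1 h1' h2 h2' hy hn hyN hE

/-- **(Tp), (T0Q)**: the mean of the own mass. -/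
theorem flp45_tau (hb0 : 0 < b) (hj : j + b ≤ N) (hB : 0 ≤ B) {t : ℝ} (ht : |t| ≤ 1) {dl : ℝ} (hdl : 0 < dl) {c0 K : ℕ} (hc : j + b ≤ c0)
    {f : Fam N} {c : ℕ → ℝ} {D F : ℝ} (hf : Cov1 N b j (fun y ω S => f y ω S - c y) D) (F0 : 0 ≤ F)
    (hF : ∀ y ω S S', |f y ω S - f y ω S'| ≤ F) {zf cc : ℕ} (hz : j + b ≤ zf)
    {cq dq cw dw wl al : ℕ} (hcq : cq ≤ j - b) (hdq : j + b ≤ dq) (hcw : cw ≤ j - b) (hdw : j + b ≤ dw) (hal : al ≤ j - b ∨ j + b ≤ wl) (M₁ : ℝ)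
    {c1 d1 c2 d2 : ℕ} (h1 : c1 ≤ j - b) (h1' : j + b ≤ d1) (h2 : c2 ≤ j - b) (h2' : j + b ≤ d2)
    (hy : 1 ≤ y₀) (hn : 1 ≤ n) (hyN : y₀ + n ≤ N) (hE : FErr2 μ s N δ B b j y₀ n θ ε) :
    Flp45 μ s N (Ico y₀ (y₀ + n)) δ B b j t dl c0 K zf cc f (fun _ w M => TauM w (pJ cq dq) (pJ cw dw) wl al M) (fun _ => pJ c1 d1)
      (fun _ => pJ c2 d2) M₁ (eC4 B F (8 * Real.exp (5 * M₁)) K n θ ε) := by
  have h := tsw_tau (μ := μ) (s := s) (N := N) (δ := δ) (B := B) hcq hdq hcw hdw hal (a := 5 * M₁) (a' := 5 * (M₁ + 1)) (by linarith) 0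
  exact flp45 hb0 hj hB ht hdl hc hf F0 hF hz (ev := fun _ w M => TauM w (pJ cq dq) (pJ cw dw) wl al M) h h1 h1' h2 h2' hy hn hyN hE

end

end Pool.Agent.W_7d29a1_C0.FlipR4.C4
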