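import Pool.Agent.W_7d29a1_C0.DgC96
import Pool.Agent.W_7d29a1_C0.Cor45H
import Pool.Agent.W_7d29a1_C0.FlipC4B

/-!
MP_7d29a1_pr, [CURV0] / [C0], leaf E2, part L (helper96): **THE CORNER OF THE TERM `D gam` TIMES OWN, PART L** (`dgL59` of helper59), in the
mean over the ends. The own event and the pairs of the window are events of the whole base path (`Ev45`); the level of the tilt is split as in
`Cor45G`, the second part is flipped by `flip_nl` of helper4 (`FlpB96`), the third part is in terms of `O1.T4` with the own event.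
-/

set_option autoImplicit false
set_option linter.unusedSectionVars false
set_option linter.unusedVariables false

namespace Pool.Agent.W_7d29a1_C0.DgL96

open Finset MeasureTheory Filter Topology Pool.Agent.W_7d29a1_F Pool.Agent.W_7d29a1_X Pool.Agent.W_7d29a1_C0.Mod92
open Pool.Agent.W_7d29a1_C0.Swap57 Pool.Agent.W_7d29a1_C0.Blk18 Pool.Agent.W_7d29a1_C0.NM82
open Pool.Agent.W_7d29a1_C0.MicE14 (rh rh_nonneg nn)
open Pool.Agent.W_7d29a1_C0.T72 (Sp72 Rb72 ind72 ind72_nonneg ind72_le_one meas_ind72 uj72 abs_uj72 meas_uj72)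
open Pool.Agent.W_7d29a1_C0.E2F59 (Gm59 Gm59_nonneg)
open Pool.Agent.W_7d29a1_C0.MicN96 (Rw96 er96 F0_96)
open Pool.W7d29a1.C0
open Pool.W7d29a1.C0 (gz gm gm_nonneg gm_mono gm_const PP PP_nonneg PP_mono PP_smul)
open Pool.W7d29a1.C0.VT31
open Pool.W7d29a1.C0.R43
open Pool.W7d29a1.C0.H7 (E0X E0D NL7 HL7)
open Pool.W7d29a1.C0.H27 (pB slb)
open Pool.W7d29a1.C0.C45

noncomputable section

variable {μ : Measure ℝ} {s : ℝ} {N : ℕ} {Q : Finset (Finset ℕ)}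

/-! ### The pairs of the window, pathwise -/

section Path

variable [Nonempty (Px Q)] {Y : Type*} [DecidableEq Y]

open Classical in
/-- The mass of the pairs at all the tilts. -/
theorem gmL96 {w g : Px Q → ℝ} {a D : ℝ} (ha : |a| ≤ 1) (hg : ∀ S, |g S| ≤ D / 2) (p : Px Q → Finset ℕ × ℕ) (i k : ℕ) (M : ℝ)
    (S : Px Q) : Gm59 w g a p i k S ≤ 2 * ((if TauM w p p i k M S then 1 else 0) + Real.exp (4 * D - 5 * M)) := by
  obtain ⟨X, hX⟩ : ∃ X : ℝ, X = (if TauM w p p i k M S then (1 : ℝ) else 0) + Real.exp (4 * D - 5 * M) := ⟨_, rfl⟩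
  rw [← hX]
  have h1 : ∀ t ∈ Set.uIoc (-1 : ℝ) 1, ‖cE2 (w + (t - a) • g) p (NI i k) S S‖ ≤ X := fun t ht => by
    rw [Set.uIoc_of_le (by norm_num)] at ht
    have h2 : ∀ T, |((t - a) • g) T| ≤ D := fun T => by
      rw [Pi.smul_apply, smul_eq_mul, abs_mul]
      have h3 : |t - a| ≤ 2 := (abs_sub _ _).trans (by
        have : |t| ≤ 1 := abs_le.2 ⟨ht.1.le, ht.2⟩
        linarith)
      calc |t - a| * |g T| ≤ 2 * (D / 2) := mul_le_mul h3 (hg T) (abs_nonneg _) (by norm_num)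
        _ = D := by ring
    rw [Real.norm_eq_abs, abs_of_nonneg (by unfold cE2; exact cE_nonneg _ _ (fun T => cE_nonneg _ _ (fun T' => NI_nonneg _ _ _ _) _) _),
      hX, cE2_mI]
    exact cE_mI_tau h2 p p i k M S
  have h4 := intervalIntegral.norm_integral_le_of_norm_le_const h1
  rw [Real.norm_eq_abs] at h4
  refine (le_abs_self _).trans (h4.trans (le_of_eq ?_))
  norm_num
  ring

/-- **The own functional of the pairs of the window.** -/
theorem ownE_gmL96 {u : Finset ℕ → Env → Px Q → ℝ} {g : Env × Finset ℕ → Px Q → ℝ} {a : Env × Finset ℕ → ℝ} {D : ℝ}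
    (ha : ∀ ω, |a ω| ≤ 1) (hg : ∀ ω S, |g ω S| ≤ D / 2) (p : Px Q → Finset ℕ × ℕ) (i k : ℕ) (M : ℝ) :
    OwnE (wu μ s N Q u) (fun ω x => Gm59 (wm μ s N Q ω) (g ω) (a ω) p i k x / 2) (fun ω => TauM (wm μ s N Q ω) p p i k M)
      (Real.exp (4 * D - 5 * M)) := fun ω F Λ hF0 hF => by
  classical
  have h1 : ∀ x y, Gm59 (wm μ s N Q ω) (g ω) (a ω) p i k x / 2 * F x y ≤
      ind72 (fun ω => TauM (wm μ s N Q ω) p p i k M) ω x * F x y + Λ * Real.exp (4 * D - 5 * M) := fun x y => by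
    have h2 := gmL96 (w := wm μ s N Q ω) (ha ω) (hg ω) p i k M x
    have h3 : ind72 (fun ω => TauM (wm μ s N Q ω) p p i k M) ω x = if TauM (wm μ s N Q ω) p p i k M x then 1 else 0 := by
      unfold ind72
      congr
    rw [h3]
    have h4 := mul_le_mul_of_nonneg_right h2 (hF0 x y)
    have h5 := mul_le_mul_of_nonneg_left (hF x y) (Real.exp_pos (4 * D - 5 * M)).le
    rw [mul_assoc, add_mul] at h4
    linarith
  refine (PP_mono _ h1).trans (le_of_eq ?_)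
  rw [PP_add (wu μ s N Q u ω) (fun x y => ind72 (fun ω => TauM (wm μ s N Q ω) p p i k M) ω x * F x y)
    (fun _ _ => Λ * Real.exp (4 * D - 5 * M)), Row39.PP_const]

theorem gm01_96 (w g : Px Q → ℝ) (a : ℝ) (p : Px Q → Finset ℕ × ℕ) (i k : ℕ) (x : Px Q) : Gm59 w g a p i k x / 2 ≤ 1 := by
  have h5 : ∀ τ ∈ Set.uIoc (-1 : ℝ) 1, ‖cE2 (w + (τ - a) • g) p (NI i k) x x‖ ≤ 1 := fun τ _ => by
    rw [Real.norm_eq_abs, abs_of_nonneg (by unfold cE2; exact cE_nonneg _ _ (fun T => cE_nonneg _ _ (fun T' => NI_nonneg _ _ _ _) _) _),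
      cE2_mI]
    exact cE_mI_le_one _ _ _ _ _ _
  have h6 := intervalIntegral.norm_integral_le_of_norm_le_const h5
  have h7 : Gm59 w g a p i k x ≤ 1 * |(1 : ℝ) - -1| := (le_abs_self _).trans h6
  norm_num at h7
  linarith

end Path

theorem Ev45.and {ev ev' : (Px Q → ℝ) → ℝ → Px Q → Prop} (h : Ev45 ev) (h' : Ev45 ev') : Ev45 fun w M S => ev w M S ∧ ev' w M S where
  tilt hA hM S g := ⟨h.tilt hA hM S g.1, h'.tilt hA hM S g.2⟩
  meas hw M S := (h.meas hw M S).inter (h'.meas hw M S)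

/-! ### The bare event at the corner, in the mean over the ends -/

section Bare

variable [IsProbabilityMeasure μ] {γ B : ℝ} {b j : ℕ} {t : ℝ} {c0 K : ℕ} {ε εM K' : ℝ}

/-- The bare functional of an event at the tilted weights. -/
def bT96 (μ : Measure ℝ) (s : ℝ) (N : ℕ) (Q : Finset (Finset ℕ)) (γ B : ℝ) (b j : ℕ) (t : ℝ) (T : Env × Finset ℕ → Px Q → Prop)
    (zf cc : ℕ) (f : Env × Finset ℕ → Px Q → ℝ) : ℝ :=
  ∫ ω, PP (wu μ s N Q (uj72 μ s Q γ B b j t) ω) (fun x y => ind72 T ω x * rh zf cc (f ω) x y) ∂(Pm μ N)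

/-- The flip of the second part, bare. -/
def FlpB96 (μ : Measure ℝ) (s : ℝ) (N : ℕ) (ys : Finset ℕ) (γ B : ℝ) (b j : ℕ) (t δ : ℝ) (c0 K zf cc : ℕ) (f : Fam N)
    (ev : ∀ y, (Px (Pn N y) → ℝ) → ℝ → Px (Pn N y) → Prop) (M₁ e : ℝ) : Prop :=
  avy ys (fun y => bT96 μ s N (Pn N y) γ B b j t (fun ω S => ev y (wf45 μ s N (Pn N y) γ B b j ω) M₁ S ∧
      nM45 μ s N (Pn N y) γ B b j t (δ / 2) c0 K ω S) zf cc (f y)) ≤
    avy ys (fun y => bT96 μ s N (Pn N y) γ B b j t (fun ω S => ev y (wm μ s N (Pn N y) ω) (M₁ + 1) S ∧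
      nP45 μ s N (Pn N y) γ B b j t δ c0 K ω S) zf cc (f y)) + e

variable {Y Y' : Type} [DecidableEq Y] [DecidableEq Y']

theorem avc96 {ys : Finset ℕ} {x : ℝ} (hx : 0 ≤ x) : avy ys (fun _ => x) ≤ x := by
  rcases ys.eq_empty_or_nonempty with h | h
  · rw [h]
    simpa [avy] using hx
  · exact (avy_const h x).le

/-- **A BARE EVENT OF THE BASE PATH AT THE CORNER**, in the mean over the ends. -/
theorem bare96 {ys : Finset ℕ} (hys : ∀ y ∈ ys, y ≤ N) (R : ∀ y ∈ ys, RL45 μ s N (Pn N y) γ B b j t c0 K ε εM K') {M : ℝ}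
    (hM : (N : ℝ) ^ εM ≤ M / 2) {δ : ℝ} (hδ : 0 ≤ δ) (hδ1 : δ ≤ 1) {zf cc : ℕ} (hz : c0 + K ≤ zf) (hc : zf ≤ cc) {F : ℝ} {f : Fam N}
    (hf : ∀ y ∈ ys, Sp72 (Pn N y) cc F c0 K (f y)) (hF : F ≤ (N : ℝ) ^ 3)
    {ev : ∀ y, (Px (Pn N y) → ℝ) → ℝ → Px (Pn N y) → Prop} (hev : ∀ y ∈ ys, Ev45 (ev y)) {e : ℝ}
    (hflp : FlpB96 μ s N ys γ B b j t δ c0 K zf cc f ev (M / 2 + 2 * B) e) (hN : (64 : ℝ) ≤ N) :
    avy ys (fun y => bT96 μ s N (Pn N y) γ B b j t (fun ω => ev y (wm μ s N (Pn N y) ω) (M / 2)) zf cc (f y)) ≤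
      2 * ((N : ℝ) ^ ε * avy ys fun y => cP45 μ s N (Pn N y) (fun ω => ev y (wm μ s N (Pn N y) ω) M) zf cc (f y)) +
      (N : ℝ) ^ ε * avy ys (fun y => cP45 μ s N (Pn N y) (jT45 μ s N (Pn N y) γ B b j (c0 + K) (δ / 4) (5 * M)
        fun ω => ev y (wm μ s N (Pn N y) ω) M) zf cc (f y)) + (3 * er96 N K' + e) := by
  have hN0 : (0 : ℝ) < N := by linarith
  have her : 0 ≤ er96 N K' := by
    unfold er96
    exact mul_nonneg (by positivity) (Real.rpow_nonneg hN0.le _)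
  have hN8 : (0 : ℝ) ≤ (N : ℝ) ^ ε := Real.rpow_nonneg hN0.le _
  obtain ⟨P, hP⟩ : ∃ P : ℕ → ℝ, ∀ y, P y = bT96 μ s N (Pn N y) γ B b j t (fun ω S => ev y (wm μ s N (Pn N y) ω) (M / 2 + 2 * B + 1) S ∧
      nP45 μ s N (Pn N y) γ B b j t δ c0 K ω S) zf cc (f y) := ⟨_, fun _ => rfl⟩
  obtain ⟨P', hP'⟩ : ∃ P : ℕ → ℝ, ∀ y, P y = bT96 μ s N (Pn N y) γ B b j t (fun ω S => ev y (wf45 μ s N (Pn N y) γ B b j ω)
      (M / 2 + 2 * B) S ∧ nM45 μ s N (Pn N y) γ B b j t (δ / 2) c0 K ω S) zf cc (f y) := ⟨_, fun _ => rfl⟩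
  obtain ⟨W, hW⟩ : ∃ W : ℕ → ℝ, ∀ y, W y = cP45 μ s N (Pn N y) (fun ω => ev y (wm μ s N (Pn N y) ω) M) zf cc (f y) := ⟨_, fun _ => rfl⟩
  obtain ⟨U, hU⟩ : ∃ U : ℕ → ℝ, ∀ y, U y = cP45 μ s N (Pn N y) (jT45 μ s N (Pn N y) γ B b j (c0 + K) (δ / 4) (5 * M)
        fun ω => ev y (wm μ s N (Pn N y) ω) M) zf cc (f y) := ⟨_, fun _ => rfl⟩
  have s1 : ∀ y ∈ ys, bT96 μ s N (Pn N y) γ B b j t (fun ω => ev y (wm μ s N (Pn N y) ω) (M / 2)) zf cc (f y) ≤
      (P y + P' y) + ((N : ℝ) ^ ε * U y + er96 N K') := fun y hy => by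
    have := ne_Pn (hys y hy)
    have hR := R y hy
    have hM8 := hR.M8
    have hM' : (N : ℝ) ^ εM ≤ M := by linarith
    obtain ⟨n1, n2, n3, n4, n5, n6, n7, n8, n9⟩ := hR.num hM'
    have h1 := split45 (μ := μ) (s := s) (N := N) (Q := Pn N y) (u := uj72 μ s (Pn N y) γ B b j t) (meas_uj72 γ B b j t) (z := zf)
      (hf y hy) (A := fun ω => ev y (wm μ s N (Pn N y) ω) (M / 2)) (A₂ := fun ω => ev y (wf45 μ s N (Pn N y) γ B b j ω) (M / 2 + 2 * B))
      (E := fun ω => ev y (wm μ s N (Pn N y) ω) (M / 2)) (n₁ := nP45 μ s N (Pn N y) γ B b j t δ c0 K)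
      (n₂ := nM45 μ s N (Pn N y) γ B b j t (δ / 2) c0 K) (fun ω S h => (hev y hy).tilt (near_wf45 n7 ω) le_rfl S h) (fun ω S h => h)
      ((hev y hy).meas meas_wm _) ((hev y hy).meas meas_wf45 _) ((hev y hy).meas meas_wm _) (meas_nP45 δ) (meas_nM45 (δ / 2))
    have h2 := hR.thV hM' hδ hz hc (hf y hy) hF (hev y hy)
    have h3 : bT96 μ s N (Pn N y) γ B b j t (fun ω S => ev y (wm μ s N (Pn N y) ω) (M / 2) S ∧
        nP45 μ s N (Pn N y) γ B b j t δ c0 K ω S) zf cc (f y) ≤ P y := by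
      rw [hP]
      have hi : ∀ T : Env × Finset ℕ → Px (Pn N y) → Prop, (∀ S, MeasurableSet {ω | T ω S}) → Integrable (fun ω =>
          PP (wu μ s N (Pn N y) (uj72 μ s (Pn N y) γ B b j t) ω) (fun x z => ind72 T ω x * rh zf cc (f y ω) x z)) (Pm μ N) := fun T hT =>
        int_bdd (M := 1 * (2 * F)) (meas_PP45 (meas_wu (meas_uj72 γ B b j t)) fun x z => (meas_ind72 hT x).mul (meas_rh45 (hf y hy) x z))
          fun ω => abs_PP_le45 _ (fun x z => mul_nonneg (ind72_nonneg _ _ _) (rh_nonneg _ _ _)) fun x z =>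
            mul_le_mul (ind72_le_one _ _ _) (rh_le45 (hf y hy) ω x z) (rh_nonneg _ _ _) zero_le_one
      refine integral_mono (hi _ fun S => ((hev y hy).meas meas_wm _ S).inter (meas_nP45 δ S))
        (hi _ fun S => ((hev y hy).meas meas_wm _ S).inter (meas_nP45 δ S)) fun ω => PP_mono _ fun x z =>
          mul_le_mul_of_nonneg_right ?_ (rh_nonneg _ _ _)
      unfold ind72
      by_cases h5 : ev y (wm μ s N (Pn N y) ω) (M / 2) x ∧ nP45 μ s N (Pn N y) γ B b j t δ c0 K ω x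
      · rw [if_pos h5, if_pos ⟨(hev y hy).mono (by linarith) h5.1, h5.2⟩]
      · rw [if_neg h5]
        split_ifs <;> norm_num
    rw [hP', hU]
    unfold bT96 at h3 ⊢
    unfold th45 at h2
    linarith
  have s2 := avy_mono (ys := ys) s1
  rw [avy_add, avy_add, avy_add, avy_mul] at s2
  have s3 : avy ys P' ≤ avy ys P + e := by
    unfold FlpB96 at hflp
    have e3 : avy ys P' = avy ys (fun y => bT96 μ s N (Pn N y) γ B b j t (fun ω S => ev y (wf45 μ s N (Pn N y) γ B b j ω)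
        (M / 2 + 2 * B) S ∧ nM45 μ s N (Pn N y) γ B b j t (δ / 2) c0 K ω S) zf cc (f y)) := by
      congr 1
      funext y
      exact hP' y
    have e4 : avy ys P = avy ys (fun y => bT96 μ s N (Pn N y) γ B b j t (fun ω S => ev y (wm μ s N (Pn N y) ω)
        (M / 2 + 2 * B + 1) S ∧ nP45 μ s N (Pn N y) γ B b j t δ c0 K ω S) zf cc (f y)) := by
      congr 1
      funext y
      exact hP y
    rw [e3, e4]
    exact hflp
  have s4 : avy ys P ≤ (N : ℝ) ^ ε * avy ys W + er96 N K' := by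
    have g1 : ∀ y ∈ ys, P y ≤ (N : ℝ) ^ ε * W y + er96 N K' := fun y hy => by
      have := ne_Pn (hys y hy)
      have hR := R y hy
      have hM8 := hR.M8
      have hM' : (N : ℝ) ^ εM ≤ M := by linarith
      obtain ⟨n1, n2, n3, n4, n5, n6, n7, n8, n9⟩ := hR.num hM'
      rw [hP, hW]
      have h2 := e0D_ev45 (μ := μ) (s := s) (N := N) (Q := Pn N y) (u := uj72 μ s (Pn N y) γ B b j t) (hR.hU (fun i => i = 0) hδ hδ1)
        (meas_uj72 γ B b j t) hz hc (hf y hy) (hR.toRw96.twoF hF)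
        ((hev y hy).rbW (μ := μ) (s := s) (N := N) (c0 := c0) (K := K) (D := 2 * B) (by linarith) (le_refl (2 * B / (K : ℝ))) (M := M / 2 + 2 * B + 1) (M' := M)
          (by linarith))
      have a1 : (N : ℝ) ^ ε * (N : ℝ) ^ (-K') ≤ er96 N K' := by
        unfold er96
        refine mul_le_mul_of_nonneg_right (n9.trans ?_) n6
        have := pow_le_pow_right₀ (show (1 : ℝ) ≤ N by linarith) (show 1 ≤ 6 by norm_num)
        rwa [pow_one] at this
      rw [mul_add] at h2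
      unfold bT96 cP45
      unfold nP45
      exact h2.trans (add_le_add le_rfl a1)
    have g2 := avy_mono g1
    rw [avy_add, avy_mul] at g2
    exact g2.trans (add_le_add le_rfl (avc96 her))
  have s5 := avc96 (ys := ys) her
  have e5 : avy ys (fun y => cP45 μ s N (Pn N y) (fun ω => ev y (wm μ s N (Pn N y) ω) M) zf cc (f y)) = avy ys W := by
    congr 1
    funext y
    exact (hW y).symm
  have e6 : avy ys (fun y => cP45 μ s N (Pn N y) (jT45 μ s N (Pn N y) γ B b j (c0 + K) (δ / 4) (5 * M)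
        fun ω => ev y (wm μ s N (Pn N y) ω) M) zf cc (f y)) = avy ys U := by
    congr 1
    funext y
    exact (hU y).symm
  rw [e5, e6]
  linarith

end Bare

/-! ### The flip of the bare event -/

section Flip

open Pool.Agent.W_7d29a1_C0.FlipR4 Pool.Agent.W_7d29a1_C0.FlipR4.C4 Pool.Agent.W_7d29a1_C0.Flip61

variable [IsProbabilityMeasure μ] {b j : ℕ} {δ B : ℝ} {y₀ n : ℕ} {θ ε : ℝ}

theorem PP_bare96 {X : Type*} [Fintype X] [Nonempty X] (w : X → ℝ) (P : X → ℝ) (R : X → X → ℝ) :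
    PP w (fun x y => P x * R x y) = gm w fun x => P x * gm w (R x) := by
  have h := PP_one w P (fun _ => 1) R
  simpa only [one_mul] using h

/-- The error of the flip of a bare event. -/
def eB96 (B F L₁ : ℝ) (K n : ℕ) (θ ε : ℝ) : ℝ :=
  2 * F / n + (3 * (Real.exp (2 * B) * ((F * (L₁ + 8 * K) + Real.exp (2 * B) * (2 * F)) + 2 * F)) * θ + 4 * F * ε)

/-- **THE FLIP OF THE SECOND PART, BARE.** -/
theorem flpB96 (hb0 : 0 < b) (hj : j + b ≤ N) (hB : 0 ≤ B) {t : ℝ} (ht : |t| ≤ 1) {dl : ℝ} (hdl : 0 < dl) {c0 K : ℕ} (hc : j + b ≤ c0)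
    {f : Fam N} {c : ℕ → ℝ} {D F : ℝ} (hf : Cov1 N b j (fun y ω S => f y ω S - c y) D) (F0 : 0 ≤ F)
    (hF : ∀ y ω S S', |f y ω S - f y ω S'| ≤ F) {zf cc : ℕ} (hz : j + b ≤ zf)
    {ev : ∀ y, (Px (Pn N y) → ℝ) → ℝ → Px (Pn N y) → Prop} {M₁ L₁ : ℝ}
    (hev : TSw μ s N δ B b j (fun y _ _ w ρ => ev y w M₁ (ρ 0)) (fun y _ _ w ρ => ev y w (M₁ + 1) (ρ 0)) L₁)
    (hy : 1 ≤ y₀) (hn : 1 ≤ n) (hyN : y₀ + n ≤ N) (hE : FErr2 μ s N δ B b j y₀ n θ ε) :
    FlpB96 μ s N (Ico y₀ (y₀ + n)) δ B b j t dl c0 K zf cc f ev M₁ (eB96 B F L₁ K n θ ε) := by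
  have hG := (trep_rh (μ := μ) (s := s) (δ := δ) hB ht hf F0 hF (zf := zf) (cc := cc) (Or.inr hz) 0)
  have n0 : ∀ (y : ℕ) (ω : Env × Finset ℕ) (A : Finset ℕ) (t' : ℝ) (ρ : ℕ → Px (Pn N y)), 0 ≤
      gm (wg μ s N δ B b j y ω t' + (tT (N := N) (b := b) (j := j) μ s δ hB t A).F y ω) (rh zf cc (f y ω) (ρ 0)) := fun y ω A t' ρ => by
    have n1 : Nonempty (Px (Pn N y)) := ⟨ρ 0⟩
    exact gm_nonneg _ fun x => rh_nonneg _ _ _
  have key := flip_nl hb0 hj hB ht hdl (K := K) hc hev hG n0 hy hn hyN hE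
  simp only [tT_wm, tT_wf] at key
  unfold FlpB96 eB96
  refine le_trans (le_of_eq ?_) (key.trans (add_le_add (le_of_eq ?_) le_rfl))
  · unfold avy
    congr 1
    refine sum_congr rfl fun y hy' => ?_
    have n1 : Nonempty (Px (Pn N y)) := ne_Pn (by
      rw [mem_Ico] at hy'
      omega)
    unfold bT96
    beta_reduce
    refine integral_congr_ae (Filter.Eventually.of_forall fun ω => ?_)
    beta_reduce
    rw [wu_uj45, PP_bare96]
    congr 1
  · unfold avy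
    congr 1
    refine sum_congr rfl fun y hy' => ?_
    have n1 : Nonempty (Px (Pn N y)) := ne_Pn (by
      rw [mem_Ico] at hy'
      omega)
    unfold bT96
    beta_reduce
    refine integral_congr_ae (Filter.Eventually.of_forall fun ω => ?_)
    beta_reduce
    rw [wu_uj45, PP_bare96]
    congr 1

/-- **Own and the pairs of the window.** -/
theorem flpD96 (hb0 : 0 < b) (hj : j + b ≤ N) (hB : 0 ≤ B) {t : ℝ} (ht : |t| ≤ 1) {dl : ℝ} (hdl : 0 < dl) {c0 K : ℕ} (hc : j + b ≤ c0)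
    {f : Fam N} {c : ℕ → ℝ} {D F : ℝ} (hf : Cov1 N b j (fun y ω S => f y ω S - c y) D) (F0 : 0 ≤ F)
    (hF : ∀ y ω S S', |f y ω S - f y ω S'| ≤ F) {zf cc : ℕ} (hz : j + b ≤ zf)
    {cw dw wl al : ℕ} (hcw : cw ≤ j - b) (hdw : j + b ≤ dw) (hal : al ≤ j - b ∨ j + b ≤ wl)
    {cq dq i k : ℕ} (hcq : cq ≤ j - b) (hdq : j + b ≤ dq) (hik : k ≤ j - b ∨ j + b ≤ i) (M₁ : ℝ)
    (hy : 1 ≤ y₀) (hn : 1 ≤ n) (hyN : y₀ + n ≤ N) (hE : FErr2 μ s N δ B b j y₀ n θ ε) :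
    FlpB96 μ s N (Ico y₀ (y₀ + n)) δ B b j t dl c0 K zf cc f
      (fun _ w M S => Nta w (pJ cw dw) wl al M S ∧ TauM w (pJ cq dq) (pJ cq dq) i k M S) M₁
      (eB96 B F (4 * Real.exp M₁ + 8 * Real.exp (5 * M₁)) K n θ ε) := by
  have h := (tsw_ow1 (μ := μ) (s := s) (N := N) (δ := δ) (B := B) hcw hdw hal (a := M₁) (a' := M₁ + 1) le_rfl 0).and
    (tsw_tau (μ := μ) (s := s) (N := N) (δ := δ) (B := B) hcq hdq hcq hdq hik (a := 5 * M₁) (a' := 5 * (M₁ + 1)) (by linarith) 0)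
  exact flpB96 hb0 hj hB ht hdl hc hf F0 hF hz
    (ev := fun _ w M S => Nta w (pJ cw dw) wl al M S ∧ TauM w (pJ cq dq) (pJ cq dq) i k M S) h hy hn hyN hE

end Flip

/-! ### `D gam` times own, part L -/

section Dg

variable [IsProbabilityMeasure μ] {γ B : ℝ} {b j : ℕ} {t : ℝ} {c0 K : ℕ} {ε εM K' : ℝ}

/-- `jT45` is monotone in the own event. -/
theorem jT_mono96 [Nonempty (Px Q)] {z : ℕ} {d m : ℝ} {V V' : Env × Finset ℕ → Px Q → Prop} (h : ∀ ω S, V ω S → V' ω S)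
    {ω : Env × Finset ℕ} {S : Px Q} (h1 : jT45 μ s N Q γ B b j z d m V ω S) : jT45 μ s N Q γ B b j z d m V' ω S := by
  unfold jT45 at h1 ⊢
  refine h1.trans ?_
  unfold O1.T4
  refine cE_mono _ _ (fun y => mul_le_mul_of_nonneg_right ?_ (mul_nonneg ?_ ?_)) S
  · unfold ind72
    by_cases h5 : V ω y
    · rw [if_pos h5, if_pos (h ω y h5)]
    · rw [if_neg h5]
      split_ifs <;> norm_num
  · refine cE_nonneg _ _ (fun T => ?_) S
    unfold K1.upI
    split_ifs <;> norm_num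
  · refine cE_nonneg _ _ (fun T => ?_) S
    unfold K1.dnI
    split_ifs <;> norm_num

/-- **THE TERM `D gam` TIMES OWN, PART L, AT THE CORNER**, in the mean over the ends. -/
theorem dgL96 {ys : Finset ℕ} (hys : ∀ y ∈ ys, y ≤ N) (R : ∀ y ∈ ys, RL45 μ s N (Pn N y) γ B b j t c0 K ε εM K') {M : ℝ}
    (hM : (N : ℝ) ^ εM ≤ M / 2) (hN : (64 : ℝ) ≤ N) {δ : ℝ} (hδ : 0 ≤ δ) (hδ1 : δ ≤ 1) {zf cc : ℕ} (hz : c0 + K ≤ zf) (hc : zf ≤ cc)
    {F : ℝ} {f : Fam N} (hf : ∀ y ∈ ys, Sp72 (Pn N y) cc F c0 K (f y)) (hF0 : 0 ≤ F) (hF : F ≤ (N : ℝ) ^ 3) {c1 z wl al c' d' i k : ℕ} {e : ℝ}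
    (hflp : FlpB96 μ s N ys γ B b j t δ c0 K zf cc f
      (fun y w M S => Nta w (pJ (Q := Pn N y) c1 z) wl al M S ∧ TauM w (pJ (Q := Pn N y) c' d') (pJ c' d') i k M S) (M / 2 + 2 * B) e) :
    avy ys (fun y => ∫ ω, PP (wu μ s N (Pn N y) (uj72 μ s (Pn N y) γ B b j t) ω) (fun x x' =>
        mI (wu μ s N (Pn N y) (uj72 μ s (Pn N y) γ B b j t) ω) (pJ c1 z) wl al x *
        (Gm59 (wm μ s N (Pn N y) ω) (gg μ s (Pn N y) γ B b ω j) (sg ω.2 j : ℝ) (pJ c' d') i k x * rh zf cc (f y ω) x x')) ∂(Pm μ N)) ≤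
      4 * ((N : ℝ) ^ ε * avy ys fun y => cP45 μ s N (Pn N y) (fun ω S =>
        Nta (wm μ s N (Pn N y) ω) (pJ c1 z) wl al M S ∧ Tau (wm μ s N (Pn N y) ω) (pJ c' d') i k M S) zf cc (f y)) +
      2 * ((N : ℝ) ^ ε * avy ys fun y => cP45 μ s N (Pn N y) (jT45 μ s N (Pn N y) γ B b j (c0 + K) (δ / 4) (5 * M) fun ω =>
        Nta (wm μ s N (Pn N y) ω) (pJ c1 z) wl al M) zf cc (f y)) + (10 * er96 N K' + 2 * e) := by
  have hN0 : (0 : ℝ) < N := by linarith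
  have her : 0 ≤ er96 N K' := by
    unfold er96
    exact mul_nonneg (by positivity) (Real.rpow_nonneg hN0.le _)
  have hNe : (0 : ℝ) ≤ (N : ℝ) ^ ε := Real.rpow_nonneg hN0.le _
  have hev : ∀ y ∈ ys, Ev45 (Q := Pn N y) (fun w M S => Nta w (pJ (Q := Pn N y) c1 z) wl al M S ∧ TauM w (pJ (Q := Pn N y) c' d')
      (pJ c' d') i k M S) := fun y hy => by
    have := ne_Pn (hys y hy)
    exact Ev45.and (Ev45.nta _ _ _) (Ev45.tau _ _ _ _)
  have hb := bare96 (μ := μ) (s := s) (N := N) (γ := γ) (B := B) (b := b) (j := j) (t := t) (c0 := c0) (K := K) (ε := ε) (εM := εM)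
    (K' := K') hys R hM hδ hδ1 hz hc hf hF (ev := fun y w M S => Nta w (pJ (Q := Pn N y) c1 z) wl al M S ∧
      TauM w (pJ (Q := Pn N y) c' d') (pJ c' d') i k M S) hev hflp hN
  -- the static step
  have s1 : ∀ y ∈ ys, ∫ ω, PP (wu μ s N (Pn N y) (uj72 μ s (Pn N y) γ B b j t) ω) (fun x x' =>
        mI (wu μ s N (Pn N y) (uj72 μ s (Pn N y) γ B b j t) ω) (pJ c1 z) wl al x *
        (Gm59 (wm μ s N (Pn N y) ω) (gg μ s (Pn N y) γ B b ω j) (sg ω.2 j : ℝ) (pJ c' d') i k x * rh zf cc (f y ω) x x')) ∂(Pm μ N) ≤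
      2 * bT96 μ s N (Pn N y) γ B b j t (fun ω S => Nta (wm μ s N (Pn N y) ω) (pJ c1 z) wl al (M / 2) S ∧
        TauM (wm μ s N (Pn N y) ω) (pJ c' d') (pJ c' d') i k (M / 2) S) zf cc (f y) + 4 * er96 N K' := fun y hy => by
    have := ne_Pn (hys y hy)
    have hR := R y hy
    have hM8 := hR.M8
    have hM' : (N : ℝ) ^ εM ≤ M := by linarith
    obtain ⟨n1, n2, n3, n4, n5, n6, n7, n8, n9⟩ := hR.num hM'
    have hu : ∀ A η S, |uj72 μ s (Pn N y) γ B b j t A η S| ≤ B := fun A η S => abs_uj72 n7 b j hR.ht A η S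
    have own := ownE_self (μ := μ) (s := s) (N := N) (Q := Pn N y) (u := uj72 μ s (Pn N y) γ B b j t) hu (pJ (Q := Pn N y) c1 z) wl al
      (M / 2)
    have mic := ownE_gmL96 (μ := μ) (s := s) (N := N) (Q := Pn N y) (u := uj72 μ s (Pn N y) γ B b j t) (D := B)
      (g := fun ω => gg μ s (Pn N y) γ B b ω j) (a := fun ω => (sg ω.2 j : ℝ)) (fun ω => (abs_sg ω.2 j).le)
      (fun ω S => abs_gj (μ := μ) (s := s) (δ := γ) ω.1 n7 (abs_sg ω.2 j).le b j S) (pJ (Q := Pn N y) c' d') i k (M / 2)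
    have both := C45.OwnE.mul own mic (fun ω x => div_nonneg (Gm59_nonneg _ _ _ _ _ _ _) zero_le_two)
      (fun ω x => gm01_96 _ _ _ _ _ _ x)
    obtain ⟨e1, he1⟩ : ∃ e1 : ℝ, e1 = Real.exp (2 * B - M / 2) + Real.exp (4 * B - 5 * (M / 2)) := ⟨_, rfl⟩
    rw [← he1] at both
    obtain ⟨-, t1⟩ := hR.tiny hM' hF0 hF (x := 2 * B - M / 2) (by linarith)
    obtain ⟨-, t2⟩ := hR.tiny hM' hF0 hF (x := 4 * B - 5 * (M / 2)) (by linarith)
    have t3 : 2 * F * e1 ≤ 2 * er96 N K' := by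
      rw [he1, mul_add]
      linarith
    obtain ⟨EV, hEV⟩ : ∃ EV : Env × Finset ℕ → Px (Pn N y) → Prop, EV = fun ω S => Nta (wm μ s N (Pn N y) ω) (pJ c1 z) wl al (M / 2) S ∧
        TauM (wm μ s N (Pn N y) ω) (pJ c' d') (pJ c' d') i k (M / 2) S := ⟨_, rfl⟩
    have mE : ∀ S, MeasurableSet {ω | EV ω S} := fun S => by
      rw [hEV]
      exact (hev y hy).meas meas_wm (M / 2) S
    have hpt : ∀ ω, PP (wu μ s N (Pn N y) (uj72 μ s (Pn N y) γ B b j t) ω) (fun x x' =>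
        mI (wu μ s N (Pn N y) (uj72 μ s (Pn N y) γ B b j t) ω) (pJ c1 z) wl al x *
        (Gm59 (wm μ s N (Pn N y) ω) (gg μ s (Pn N y) γ B b ω j) (sg ω.2 j : ℝ) (pJ c' d') i k x * rh zf cc (f y ω) x x')) ≤
        2 * PP (wu μ s N (Pn N y) (uj72 μ s (Pn N y) γ B b j t) ω) (fun x x' => ind72 EV ω x * rh zf cc (f y ω) x x') +
          2 * (2 * F * e1) := fun ω => by
      have h5 := both ω (fun x y' => rh zf cc (f y ω) x y') (2 * F) (fun x y' => rh_nonneg _ _ _) (rh_le45 (hf y hy) ω)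
      have e4 : (fun x x' => mI (wu μ s N (Pn N y) (uj72 μ s (Pn N y) γ B b j t) ω) (pJ c1 z) wl al x *
        (Gm59 (wm μ s N (Pn N y) ω) (gg μ s (Pn N y) γ B b ω j) (sg ω.2 j : ℝ) (pJ c' d') i k x * rh zf cc (f y ω) x x')) =
          fun x x' => 2 * (mI (wu μ s N (Pn N y) (uj72 μ s (Pn N y) γ B b j t) ω) (pJ c1 z) wl al x *
            (Gm59 (wm μ s N (Pn N y) ω) (gg μ s (Pn N y) γ B b ω j) (sg ω.2 j : ℝ) (pJ c' d') i k x / 2) * rh zf cc (f y ω) x x') := by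
        funext x x'
        ring
      rw [e4, PP_smul]
      rw [hEV]
      linarith
    have i2 : Integrable (fun ω => PP (wu μ s N (Pn N y) (uj72 μ s (Pn N y) γ B b j t) ω)
        (fun x x' => ind72 EV ω x * rh zf cc (f y ω) x x')) (Pm μ N) :=
      int_bdd (M := 1 * (2 * F)) (C45.meas_PP45 (meas_wu (meas_uj72 γ B b j t)) fun x x' =>
        (T72.meas_ind72 mE x).mul (C45.meas_rh45 (hf y hy) x x')) fun ω =>
          C45.abs_PP_le45 _ (fun x x' => mul_nonneg (ind72_nonneg _ _ _) (rh_nonneg _ _ _)) fun x x' =>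
            mul_le_mul (ind72_le_one _ _ _) (C45.rh_le45 (hf y hy) ω x x') (rh_nonneg _ _ _) zero_le_one
    have h6 : ∫ ω, PP (wu μ s N (Pn N y) (uj72 μ s (Pn N y) γ B b j t) ω) (fun x x' =>
        mI (wu μ s N (Pn N y) (uj72 μ s (Pn N y) γ B b j t) ω) (pJ c1 z) wl al x *
        (Gm59 (wm μ s N (Pn N y) ω) (gg μ s (Pn N y) γ B b ω j) (sg ω.2 j : ℝ) (pJ c' d') i k x * rh zf cc (f y ω) x x')) ∂(Pm μ N) ≤
        2 * ∫ ω, PP (wu μ s N (Pn N y) (uj72 μ s (Pn N y) γ B b j t) ω) (fun x x' => ind72 EV ω x * rh zf cc (f y ω) x x') ∂(Pm μ N) +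
          2 * (2 * F * e1) := by
      refine (integral_mono_of_nonneg (Eventually.of_forall fun ω => PP_nonneg _ fun x x' => mul_nonneg (mI_nonneg _ _ _ _ _)
        (mul_nonneg (Gm59_nonneg _ _ _ _ _ _ _) (rh_nonneg _ _ _))) ((i2.const_mul 2).add (integrable_const _))
        (Eventually.of_forall hpt)).trans (le_of_eq ?_)
      have e5 := integral_add (i2.const_mul 2) (integrable_const (μ := Pm μ N) (2 * (2 * F * e1)))
      simp only [Pi.add_apply] at e5 ⊢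
      rw [e5, integral_const_mul, integral_const, measureReal_def, measure_univ, ENNReal.toReal_one, one_smul]
    refine h6.trans ?_
    unfold bT96
    rw [hEV]
    linarith
  have s2 := avy_mono (ys := ys) s1
  rw [avy_add, avy_mul] at s2
  have s3 := avc96 (ys := ys) (x := 4 * er96 N K') (by linarith)
  -- the events
  have e1 : avy ys (fun y => cP45 μ s N (Pn N y) (fun ω S => Nta (wm μ s N (Pn N y) ω) (pJ c1 z) wl al M S ∧
      TauM (wm μ s N (Pn N y) ω) (pJ c' d') (pJ c' d') i k M S) zf cc (f y)) ≤ avy ys (fun y => cP45 μ s N (Pn N y) (fun ω S =>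
        Nta (wm μ s N (Pn N y) ω) (pJ c1 z) wl al M S ∧ Tau (wm μ s N (Pn N y) ω) (pJ c' d') i k M S) zf cc (f y)) := by
    refine avy_mono fun y hy => le_of_eq ?_
    have := ne_Pn (hys y hy)
    have h5 : (fun (ω : Env × Finset ℕ) (S : Px (Pn N y)) => Nta (wm μ s N (Pn N y) ω) (pJ c1 z) wl al M S ∧
        TauM (wm μ s N (Pn N y) ω) (pJ c' d') (pJ c' d') i k M S) = fun ω S => Nta (wm μ s N (Pn N y) ω) (pJ c1 z) wl al M S ∧
          Tau (wm μ s N (Pn N y) ω) (pJ c' d') i k M S := by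
      funext ω S
      exact propext (and_congr_right fun _ => tauM_self _ _ _ _ _ _)
    rw [h5]
  have e2 : avy ys (fun y => cP45 μ s N (Pn N y) (jT45 μ s N (Pn N y) γ B b j (c0 + K) (δ / 4) (5 * M) fun ω S =>
      Nta (wm μ s N (Pn N y) ω) (pJ c1 z) wl al M S ∧ TauM (wm μ s N (Pn N y) ω) (pJ c' d') (pJ c' d') i k M S) zf cc (f y)) ≤
      avy ys (fun y => cP45 μ s N (Pn N y) (jT45 μ s N (Pn N y) γ B b j (c0 + K) (δ / 4) (5 * M) fun ω =>
        Nta (wm μ s N (Pn N y) ω) (pJ c1 z) wl al M) zf cc (f y)) := by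
    refine avy_mono fun y hy => ?_
    have := ne_Pn (hys y hy)
    have m1 : ∀ S, MeasurableSet {ω : Env × Finset ℕ | Nta (wm μ s N (Pn N y) ω) (pJ c1 z) wl al M S ∧
        TauM (wm μ s N (Pn N y) ω) (pJ c' d') (pJ c' d') i k M S} := fun S => (hev y hy).meas meas_wm M S
    have m2 : ∀ S, MeasurableSet {ω : Env × Finset ℕ | Nta (wm μ s N (Pn N y) ω) (pJ c1 z) wl al M S} := fun S =>
      meas_nta45 _ _ _ _ S
    have m3 := fun S => meas_jT45 (μ := μ) (s := s) (N := N) (γ := γ) (B := B) (b := b) (j := j) (c0 + K) (δ / 4) (5 * M) m1 S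
    have m4 := fun S => meas_jT45 (μ := μ) (s := s) (N := N) (γ := γ) (B := B) (b := b) (j := j) (c0 + K) (δ / 4) (5 * M) m2 S
    refine cP_mono45 (zf := zf) (hf y hy) m3 m4 fun ω S h => ?_
    exact jT_mono96 (V := fun ω S => Nta (wm μ s N (Pn N y) ω) (pJ c1 z) wl al M S ∧
        TauM (wm μ s N (Pn N y) ω) (pJ c' d') (pJ c' d') i k M S) (fun ω S h => h.1) h
  have e3 := mul_le_mul_of_nonneg_left e2 hNe
  have e4 := mul_le_mul_of_nonneg_left e1 hNe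
  linarith

end Dg

end

end Pool.Agent.W_7d29a1_C0.DgL96
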