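import Pool.Agent.W_7d29a1_C0.Num15
import Pool.Agent.W_7d29a1_C0.Blk86

/-!
MP_7d29a1_pr, [C0], helper11: THE ASSEMBLY OF THE SUMS OVER THE PAIRS OF ROWS OF THE PRICES OF DOUBLE TIES (`DgP11`, `DgQ11`). `pair_abs`: near
pairs, far pairs in one block, far pairs in different blocks. `num11`: the arithmetic. `pair_core`: from the prices of the own ties, of the
micro ties and of the double ties of sets of rows to the sum over the pairs (in one block the own tie of the second row is dropped).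
-/

set_option autoImplicit false

namespace Pool.Agent.W_7d29a1_C0.Dg11

open MeasureTheory ProbabilityTheory Filter Topology Finset
open Pool.Agent.W_7d29a1_F Pool.Agent.W_7d29a1_X Pool.Agent.W_7d29a1_h4g Pool.Agent.W_7d29a1_H
open Pool.Agent.W_7d29a1_HZ Pool.Agent.W_7d29a1_HZ.R72 Pool.Agent.W_7d29a1_Z.Asm72
open Pool.Agent.W_7d29a1_HZ.Z86
open scoped ENNReal

/-! ### The abstract sum -/

/-- **THE SUM OVER THE PAIRS**: near pairs, far pairs in one block, far pairs in different blocks. -/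
theorem pair_abs {S : Finset ℕ} {b : ℕ} (Fr Bl : ℕ → ℕ → Prop) [∀ k, DecidablePred (Fr k)] [∀ k, DecidablePred (Bl k)]
    (hFr : ∀ j k, ¬ Fr k j → ¬ Fr j k → j < k + 2 * b ∧ k < j + 2 * b) {a : ℕ → ℕ → ℝ≥0∞} (hs : ∀ j k, a j k = a k j) {o s1 s2 : ℝ≥0∞}
    (ho : ∀ j ∈ S, ∀ k ∈ S, a j k ≤ o) (h1 : ∀ k ∈ S, ∑ j ∈ S with Fr k j ∧ Bl k j, a k j ≤ s1)
    (h2 : ∑ k ∈ S, ∑ j ∈ S with Fr k j ∧ ¬ Bl k j, a k j ≤ s2) :
    ∑ j ∈ S, ∑ k ∈ S, a j k ≤ S.card * (((4 * b : ℕ) : ℝ≥0∞) * o) + 2 * (S.card * s1 + s2) := by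
  classical
  have e1 : ∀ j ∈ S, ∀ k ∈ S, a j k ≤ (if j < k + 2 * b ∧ k < j + 2 * b then o else 0) +
      ((if Fr k j then a k j else 0) + (if Fr j k then a j k else 0)) := by
    intro j hj k hk
    by_cases g1 : Fr k j
    · rw [if_pos g1, hs j k]
      exact le_add_of_nonneg_of_le zero_le (le_add_of_nonneg_right zero_le)
    · by_cases g2 : Fr j k
      · rw [if_pos g2]
        exact le_add_of_nonneg_of_le zero_le (le_add_of_nonneg_left zero_le)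
      · rw [if_pos (hFr j k g1 g2)]
        exact (ho j hj k hk).trans (le_add_of_nonneg_right zero_le)
  refine (sum_le_sum fun j hj => sum_le_sum fun k hk => e1 j hj k hk).trans ?_
  simp only [sum_add_distrib]
  have e2 : ∑ j ∈ S, ∑ k ∈ S, (if Fr k j then a k j else 0) = ∑ j ∈ S, ∑ k ∈ S, (if Fr j k then a j k else 0) := by
    rw [sum_comm]
  have e3 : ∑ j ∈ S, ∑ k ∈ S, (if Fr j k then a j k else 0) ≤ S.card * s1 + s2 := by
    have e4 : ∀ j ∈ S, ∑ k ∈ S, (if Fr j k then a j k else 0) =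
        ∑ k ∈ S with Fr j k ∧ Bl j k, a j k + ∑ k ∈ S with Fr j k ∧ ¬ Bl j k, a j k := by
      intro j _
      rw [sum_filter, sum_filter, ← sum_add_distrib]
      refine sum_congr rfl fun k _ => ?_
      by_cases g1 : Fr j k
      · by_cases g2 : Bl j k
        · rw [if_pos g1, if_pos ⟨g1, g2⟩, if_neg fun h => h.2 g2, add_zero]
        · rw [if_pos g1, if_neg fun h => g2 h.2, if_pos ⟨g1, g2⟩, zero_add]
      · rw [if_neg g1, if_neg fun h => g1 h.1, if_neg fun h => g1 h.1, add_zero]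
    rw [sum_congr rfl e4, sum_add_distrib]
    refine add_le_add ((sum_le_sum h1).trans (le_of_eq ?_)) h2
    rw [sum_const, nsmul_eq_mul]
  rw [e2, ← two_mul]
  refine add_le_add ?_ (mul_le_mul' le_rfl e3)
  have e5 : ∀ j ∈ S, ∑ k ∈ S, (if j < k + 2 * b ∧ k < j + 2 * b then o else 0) ≤ ((4 * b : ℕ) : ℝ≥0∞) * o := by
    intro j _
    rw [← sum_filter, sum_const, nsmul_eq_mul]
    refine mul_le_mul' ?_ le_rfl
    have h3 : S.filter (fun k => j < k + 2 * b ∧ k < j + 2 * b) ⊆ Ioo (j - 2 * b) (j + 2 * b) ∪ {j - 2 * b} := by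
      intro k hk
      have hk' := (mem_filter.1 hk).2
      rw [mem_union, mem_Ioo, mem_singleton]
      omega
    have h4 := (card_le_card h3).trans (card_union_le _ _)
    rw [Nat.card_Ioo, card_singleton] at h4
    rcases Nat.eq_zero_or_pos b with h5 | h5
    · have h6 : (S.filter (fun k => j < k + 2 * b ∧ k < j + 2 * b)) = ∅ := by
        rw [filter_eq_empty_iff]
        intro k _
        omega
      rw [h6, card_empty]
      simp
    · exact_mod_cast h4.trans (by omega)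
  refine (sum_le_sum e5).trans (le_of_eq ?_)
  rw [sum_const, nsmul_eq_mul]

/-! ### Numbers -/

/-- The value of the sum over the pairs. -/
noncomputable def val11 (E : ℕ → ℝ) (b l σ r : ℕ) : ℝ :=
  r * (b * (E b)⁻¹ + σ * ((E b)⁻¹ * (E l)⁻¹ ^ 2) + r * ((E b)⁻¹ ^ 2 * (E l)⁻¹ ^ 2))

/-- The final arithmetic. -/
theorem num11 {E : ℕ → ℝ} (hE1 : ∀ t, 1 ≤ E t) {K L q n : ℝ} {b l σ r nS : ℕ} (hK : 1 ≤ K) (hq : 12 * K ≤ q) (hn : n ≤ q) (hn0 : 0 ≤ n)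
    (hqL : q ≤ L) (hL : 100 ≤ L) (hb : (b : ℝ) ≤ L) (hσ : (σ : ℝ) ≤ L) (hr : (r : ℝ) ≤ L) (hnS : (nS : ℝ) ≤ r) {p : ℝ} (hp : 0 ≤ p) :
    nS * (4 * b * (q * (3 * K * (E b)⁻¹) + p)) +
      2 * (nS * (q * (σ * (E b)⁻¹ * (E l)⁻¹) * (n * (q * (K * (E l)⁻¹) + p)) + p) +
        (q * (r * (E b)⁻¹ * (E l)⁻¹) * (q * (r * (E b)⁻¹ * (E l)⁻¹) + p) + nS * p)) ≤
      q ^ 4 * val11 E b l σ r + L ^ 8 * p := by
  obtain ⟨B, hB⟩ : ∃ B : ℝ, B = (E b)⁻¹ := ⟨_, rfl⟩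
  obtain ⟨Λ, hΛ⟩ : ∃ Λ : ℝ, Λ = (E l)⁻¹ := ⟨_, rfl⟩
  have hB0 : 0 ≤ B := by rw [hB]; exact (inv_pos.2 (by linarith [hE1 b])).le
  have hB1 : B ≤ 1 := by rw [hB]; exact inv_le_one_of_one_le₀ (hE1 b)
  have hΛ0 : 0 ≤ Λ := by rw [hΛ]; exact (inv_pos.2 (by linarith [hE1 l])).le
  have hΛ1 : Λ ≤ 1 := by rw [hΛ]; exact inv_le_one_of_one_le₀ (hE1 l)
  unfold val11
  rw [← hB, ← hΛ]
  clear hB hΛ
  have hb0 : (0 : ℝ) ≤ b := Nat.cast_nonneg _
  have hσ0 : (0 : ℝ) ≤ σ := Nat.cast_nonneg _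
  have hr0 : (0 : ℝ) ≤ r := Nat.cast_nonneg _
  have hnS0 : (0 : ℝ) ≤ nS := Nat.cast_nonneg _
  generalize (b : ℝ) = b at *
  generalize (σ : ℝ) = σ at *
  generalize (r : ℝ) = r at *
  generalize (nS : ℝ) = m at *
  have hq1 : 1 ≤ q := by linarith
  have hq0 : 0 ≤ q := by linarith
  have hL0 : 0 ≤ L := by linarith
  have hK0 : 0 ≤ K := by linarith
  -- the main terms
  have t1 : m * (4 * b * (q * (3 * K * B))) ≤ q ^ 4 * (r * (b * B)) := by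
    calc m * (4 * b * (q * (3 * K * B))) = (12 * K) * q * 1 * 1 * (m * (b * B)) := by ring
      _ ≤ q * q * q * q * (r * (b * B)) := by gcongr
      _ = _ := by ring
  have t2 : 2 * (m * (q * (σ * B * Λ) * (n * (q * (K * Λ))))) ≤ q ^ 4 * (r * (σ * (B * Λ ^ 2))) := by
    calc 2 * (m * (q * (σ * B * Λ) * (n * (q * (K * Λ))))) = (2 * K) * q * q * n * (m * (σ * (B * Λ ^ 2))) := by ring
      _ ≤ q * q * q * q * (r * (σ * (B * Λ ^ 2))) := by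
          have g1 : 2 * K ≤ q := by linarith
          gcongr
      _ = _ := by ring
  have t3 : 2 * (q * (r * B * Λ) * (q * (r * B * Λ))) ≤ q ^ 4 * (r * (r * (B ^ 2 * Λ ^ 2))) := by
    calc 2 * (q * (r * B * Λ) * (q * (r * B * Λ))) = 2 * q * q * 1 * (r * (r * (B ^ 2 * Λ ^ 2))) := by ring
      _ ≤ q * q * q * q * (r * (r * (B ^ 2 * Λ ^ 2))) := by
          have g1 : 2 ≤ q := by linarith
          gcongr
      _ = _ := by ring
  -- the errors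
  have e1 : m * (4 * b * p) ≤ 4 * L ^ 2 * p := by
    calc m * (4 * b * p) = 4 * (m * b) * p := by ring
      _ ≤ 4 * (L * L) * p := by
          have g1 : m ≤ L := hnS.trans hr
          gcongr
      _ = _ := by ring
  have e2 : 2 * (m * (q * (σ * B * Λ) * (n * p) + p)) ≤ 4 * L ^ 4 * p := by
    have g1 : m ≤ L := hnS.trans hr
    have g2 : σ * B * Λ ≤ L := by
      calc σ * B * Λ ≤ L * 1 * 1 := by gcongr
        _ = L := by ring
    have g3 : n ≤ L := hn.trans hqL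
    have g4 : q * (σ * B * Λ) * (n * p) ≤ L * L * (L * p) := by gcongr
    have g5 : p ≤ L * L * (L * p) := by
      have g6 : 1 ≤ L * L * L := by nlinarith [sq_nonneg L]
      nlinarith
    calc 2 * (m * (q * (σ * B * Λ) * (n * p) + p)) ≤ 2 * (L * (L * L * (L * p) + L * L * (L * p))) := by gcongr
      _ = _ := by ring
  have e3 : 2 * (q * (r * B * Λ) * p + m * p) ≤ 4 * L ^ 2 * p := by
    have g1 : m ≤ L := hnS.trans hr
    have g2 : r * B * Λ ≤ L := by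
      calc r * B * Λ ≤ L * 1 * 1 := by gcongr
        _ = L := by ring
    have g3 : m ≤ L * L := by nlinarith
    calc 2 * (q * (r * B * Λ) * p + m * p) ≤ 2 * (L * L * p + L * L * p) := by gcongr
      _ = _ := by ring
  have e4 : 4 * L ^ 2 * p + 4 * L ^ 4 * p + 4 * L ^ 2 * p ≤ L ^ 8 * p := by
    have g1 : L ^ 2 ≤ L ^ 4 := pow_le_pow_right₀ (by linarith) (by norm_num)
    have g2 : 12 ≤ L ^ 4 := by
      have : 100 ^ 4 ≤ L ^ 4 := pow_le_pow_left₀ (by norm_num) hL 4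
      linarith
    have g3 : 12 * L ^ 4 ≤ L ^ 8 := by
      calc 12 * L ^ 4 ≤ L ^ 4 * L ^ 4 := mul_le_mul_of_nonneg_right g2 (by positivity)
        _ = L ^ 8 := by ring
    have g4 := mul_le_mul_of_nonneg_right (show 4 * L ^ 2 + 4 * L ^ 4 + 4 * L ^ 2 ≤ L ^ 8 by linarith) hp
    linarith
  linarith

/-! ### The assembly -/

/-- **THE ASSEMBLY**: `M` micro ties, `O` own ties, `Fr k j`: the row `j` is far from `k` and on its good side. -/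
theorem pair_core {μ : Measure ℝ} {s : ℝ} {N : ℕ} {y : ℤ} {S : Finset ℕ} {M O : ℕ → Env → Finset ℕ → Prop} {E : ℕ → ℝ}
    (hE1 : ∀ t, 1 ≤ E t) {K L q : ℝ} {b l σ r n₁ a : ℕ} (hK : 1 ≤ K) (hq : 12 * K ≤ q) (hn : (n₁ : ℝ) ≤ q) (hqL : q ≤ L) (hL : 100 ≤ L)
    (hb : (b : ℝ) ≤ L) (hσ : (σ : ℝ) ≤ L) (hr : (r : ℝ) ≤ L) (hS : ∀ j ∈ S, a ≤ j ∧ j < a + r) {p : ℝ} (hp0 : 0 ≤ p)
    (Fr : ℕ → ℕ → Prop) [∀ k, DecidablePred (Fr k)] (hFr : ∀ j k, ¬ Fr k j → ¬ Fr j k → j < k + 2 * b ∧ k < j + 2 * b)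
    (hown : ∀ j ∈ S, P1 μ s N y (O j) ≤ ENNReal.ofReal (q * (3 * K * (E b)⁻¹) + p))
    (hmic : ∀ k ∈ S, P1 μ s N y (M k) ≤ ENNReal.ofReal (n₁ * (q * (K * (E l)⁻¹) + p)))
    (h1 : ∀ k ∈ S, ∑ j ∈ S with Fr k j ∧ j / σ = k / σ, P1 μ s N y (fun η T => M k η T ∧ M j η T ∧ O j η T) ≤
      ENNReal.ofReal (q * (σ * (E b)⁻¹ * (E l)⁻¹)) * P1 μ s N y (M k) + ENNReal.ofReal p)
    (h2 : ∀ k ∈ S, ∑ j ∈ S with Fr k j ∧ ¬ j / σ = k / σ, P1 μ s N y (fun η T => (M k η T ∧ O k η T) ∧ M j η T ∧ O j η T) ≤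
      ENNReal.ofReal (q * (r * (E b)⁻¹ * (E l)⁻¹)) * P1 μ s N y (fun η T => M k η T ∧ O k η T) + ENNReal.ofReal p)
    (h3 : ∑ k ∈ S, P1 μ s N y (fun η T => M k η T ∧ O k η T) ≤ ENNReal.ofReal (q * (r * (E b)⁻¹ * (E l)⁻¹) + p)) :
    ∑ j ∈ S, ∑ k ∈ S, P1 μ s N y (fun η T => (M j η T ∧ O j η T) ∧ (M k η T ∧ O k η T)) ≤
      ENNReal.ofReal (q ^ 4 * val11 E b l σ r + L ^ 8 * p) := by
  have hbi : 0 ≤ (E b)⁻¹ := (inv_pos.2 (by linarith [hE1 b])).le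
  have hli : 0 ≤ (E l)⁻¹ := (inv_pos.2 (by linarith [hE1 l])).le
  have hq0 : 0 ≤ q := by linarith
  have hK0 : 0 ≤ K := by linarith
  have hnum := num11 (E := E) hE1 (b := b) (l := l) (σ := σ) (r := r) (nS := S.card) hK hq hn (Nat.cast_nonneg _) hqL hL hb hσ hr
    (by
      have g1 := card_le_card (show S ⊆ Ico a (a + r) from fun j hj => mem_Ico.2 (hS j hj))
      rw [Nat.card_Ico] at g1
      exact_mod_cast (show S.card ≤ r by omega)) hp0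
  obtain ⟨A₀, hA₀⟩ : ∃ A₀ : ℝ, A₀ = q * (3 * K * (E b)⁻¹) := ⟨_, rfl⟩
  obtain ⟨A₁, hA₁⟩ : ∃ A₁ : ℝ, A₁ = q * (σ * (E b)⁻¹ * (E l)⁻¹) := ⟨_, rfl⟩
  obtain ⟨A₂, hA₂⟩ : ∃ A₂ : ℝ, A₂ = q * (r * (E b)⁻¹ * (E l)⁻¹) := ⟨_, rfl⟩
  obtain ⟨A₃, hA₃⟩ : ∃ A₃ : ℝ, A₃ = n₁ * (q * (K * (E l)⁻¹) + p) := ⟨_, rfl⟩
  have a0 : 0 ≤ A₀ := by rw [hA₀]; positivity
  have a1 : 0 ≤ A₁ := by rw [hA₁]; positivity
  have a2 : 0 ≤ A₂ := by rw [hA₂]; positivity
  have a3 : 0 ≤ A₃ := by rw [hA₃]; positivity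
  rw [← hA₀, ← hA₁, ← hA₂, ← hA₃] at hnum
  rw [← hA₀] at hown
  rw [← hA₃] at hmic
  rw [← hA₁] at h1
  rw [← hA₂] at h2 h3
  refine (pair_abs (b := b) Fr (fun k j => j / σ = k / σ) hFr
    (a := fun j k => P1 μ s N y (fun η T => (M j η T ∧ O j η T) ∧ (M k η T ∧ O k η T)))
    (fun j k => by
      congr 1
      funext η T
      exact propext and_comm)
    (o := ENNReal.ofReal (A₀ + p)) (s1 := ENNReal.ofReal (A₁ * A₃ + p)) (s2 := ENNReal.ofReal (A₂ * (A₂ + p) + S.card * p))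
    (fun j hj k hk => (A12.P1_mono fun η T hev => hev.1.2).trans (hown j hj)) (fun k hk => ?_) ?_).trans ?_
  · refine (sum_le_sum fun j _ => A12.P1_mono fun η T hev => ⟨hev.1.1, hev.2⟩).trans ((h1 k hk).trans ?_)
    rw [ENNReal.ofReal_add (mul_nonneg a1 a3) hp0, ENNReal.ofReal_mul a1]
    exact add_le_add (mul_le_mul' le_rfl (hmic k hk)) le_rfl
  · refine (sum_le_sum h2).trans ?_
    rw [sum_add_distrib, ← mul_sum, sum_const, nsmul_eq_mul]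
    rw [ENNReal.ofReal_add (mul_nonneg a2 (add_nonneg a2 hp0)) (mul_nonneg (Nat.cast_nonneg _) hp0), ENNReal.ofReal_mul a2,
      ENNReal.ofReal_mul (Nat.cast_nonneg S.card), ENNReal.ofReal_natCast]
    exact add_le_add (mul_le_mul' le_rfl h3) le_rfl
  · have e1 : ∀ t : ℕ, (t : ℝ≥0∞) = ENNReal.ofReal t := fun t => by rw [ENNReal.ofReal_natCast]
    have e2 : (2 : ℝ≥0∞) = ENNReal.ofReal 2 := by norm_num
    have m0 : (0 : ℝ) ≤ S.card := Nat.cast_nonneg _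
    have m1 : (0 : ℝ) ≤ ((4 * b : ℕ) : ℝ) := Nat.cast_nonneg _
    have m2 : 0 ≤ A₀ + p := add_nonneg a0 hp0
    have m3 : 0 ≤ A₁ * A₃ + p := add_nonneg (mul_nonneg a1 a3) hp0
    have m4 : 0 ≤ A₂ * (A₂ + p) + S.card * p := add_nonneg (mul_nonneg a2 (add_nonneg a2 hp0)) (mul_nonneg m0 hp0)
    have m5 : 0 ≤ S.card * (A₁ * A₃ + p) := mul_nonneg m0 m3
    have m6 : 0 ≤ ((4 * b : ℕ) : ℝ) * (A₀ + p) := mul_nonneg m1 m2
    rw [e1 S.card, e1 (4 * b), e2, ← ENNReal.ofReal_mul m1, ← ENNReal.ofReal_mul m0,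
      ← ENNReal.ofReal_mul m0, ← ENNReal.ofReal_add m5 m4, ← ENNReal.ofReal_mul (by norm_num),
      ← ENNReal.ofReal_add (mul_nonneg m0 m6) (mul_nonneg (by norm_num) (add_nonneg m5 m4))]
    refine ENNReal.ofReal_le_ofReal (le_trans ?_ hnum)
    rw [Nat.cast_mul, Nat.cast_ofNat]

end Pool.Agent.W_7d29a1_C0.Dg11
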