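import Pool.Agent.W_7d29a1_C0.DgQ11
import Pool.Agent.W_7d29a1_C0.DgN11

/-!
MP_7d29a1_pr, [C0], helper11: THE SUM OVER ALL THE PAIRS OF ROWS OF THE PRICES OF DOUBLE TIES, LEFT END (`pairL`): the mirror image of `DgP11`.
-/

set_option autoImplicit false

namespace Pool.Agent.W_7d29a1_C0.Dg11

open MeasureTheory ProbabilityTheory Filter Topology Finset
open Pool.Agent.W_7d29a1_F Pool.Agent.W_7d29a1_X Pool.Agent.W_7d29a1_h4g Pool.Agent.W_7d29a1_H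
open Pool.Agent.W_7d29a1_HS (In wd md)
open Pool.Agent.W_7d29a1_HZ Pool.Agent.W_7d29a1_HZ.R72 Pool.Agent.W_7d29a1_Z.Asm72
open Pool.Agent.W_7d29a1_HZ.Z86
open Pool.Agent.W_7d29a1_C0.P86
open Pool.Agent.W_7d29a1_C0.P15
open Pool.Agent.W_7d29a1_C0.P3 (Hy hy_ms hy_off hy_mono hy_mono_x)
open scoped ENNReal

variable {μ : Measure ℝ} {s : ℝ} {N : ℕ} [IsProbabilityMeasure μ] {c₀ C₀ : ℝ} {n₀ : ℕ}

/-! ### The pairs -/

/-- **THE SUM OVER THE PAIRS OF ROWS**, left end. -/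
theorem pairL (h : In μ s c₀ C₀ n₀) : ∀ ε θ : ℝ, 0 < ε → 0 < θ → ∃ δ κ c₂ : ℝ, 0 < δ ∧ 0 < κ ∧ 0 < c₂ ∧ ∃ L₀ : ℕ, ∀ L : ℕ, L₀ ≤ L →
    ∀ N : ℕ, L ≤ 16 * N → N ≤ L → ∀ y : ℕ, y ≤ N → |(y : ℝ) - sl μ s * N| ≤ ((L : ℝ) ^ δ * wd' μ s N) →
    ∀ b l σ n₁ : ℕ, (L : ℝ) ^ θ ≤ b → (L : ℝ) ^ θ ≤ l → l ≤ b → b ≤ σ → σ ≤ N → (n₁ : ℝ) ≤ (L : ℝ) ^ κ → ∀ x : ℝ, x ≤ (L : ℝ) ^ κ →
    ∀ (S : Finset ℕ) (d : ℕ → ℕ) (u v : ℕ → ℕ → ℕ) (z ov o : ℕ → ℕ), GeoL N b l σ n₁ S d u v z ov o →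
    ∀ a r : ℕ, b ≤ r → r ≤ N → (∀ j ∈ S, a ≤ j ∧ j < a + r) →
    ∑ j ∈ S, ∑ k ∈ S, P1 μ s N y (fun η T => (MicGL μ s N y b n₁ d u v x j η T ∧ OwnGL μ s N y b z ov o x j η T) ∧
        (MicGL μ s N y b n₁ d u v x k η T ∧ OwnGL μ s N y b z ov o x k η T)) ≤
      ENNReal.ofReal ((L : ℝ) ^ ε * val11 (EE' μ s) b l σ r) + ENNReal.ofReal (Real.exp (-(L : ℝ) ^ c₂)) := by
  intro ε θ hε hθ
  obtain ⟨α, K, -, -, hK, hE⟩ := EE'_pow h
  have hE1 : ∀ t, 1 ≤ EE' μ s t := fun t => le_max_left _ _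
  have hE0 : ∀ t, 0 < EE' μ s t := fun t => lt_of_lt_of_le zero_lt_one (hE1 t)
  obtain ⟨ε', hε'⟩ : ∃ ε' : ℝ, ε' = min (ε / 4) 1 := ⟨_, rfl⟩
  have hε0 : 0 < ε' := by rw [hε']; exact lt_min (by positivity) one_pos
  have hε4 : 4 * ε' ≤ ε := by have := min_le_left (ε / 4) 1; rw [← hε'] at this; linarith
  have hε1 : ε' ≤ 1 := by rw [hε']; exact min_le_right _ _
  obtain ⟨δ₁, κ₁, c₁, hδ₁, hκ₁, hc₁, L₁, hJ⟩ := sumJL h ε' θ hε0 hθ
  obtain ⟨δ₂, κ₂, c₂, hδ₂, hκ₂, hc₂, L₂, hO⟩ := one_opM h ε' (θ / 2) hε0 (by positivity)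
  obtain ⟨cp, hcp, -, L₃, hX⟩ := Pool.Agent.W_7d29a1_Z.NumI77.pow_exp (lt_min hc₁ hc₂) 8
  obtain ⟨L₄, hL₄⟩ := Pool.Agent.W_7d29a1_Z.NumI77.large (show 0 < θ / 2 by positivity) 100
  obtain ⟨L₅, hL₅⟩ := Pool.Agent.W_7d29a1_Z.NumI77.large hε0 (12 * K)
  refine ⟨min δ₁ δ₂, min (min κ₁ κ₂) ε', cp, lt_min hδ₁ hδ₂, lt_min (lt_min hκ₁ hκ₂) hε0, hcp, L₁ + L₂ + L₃ + L₄ + L₅ + 100, ?_⟩
  intro L hL N hLN hNL y hyN hyc b l σ n₁ hbL hlL hlb hbσ hσN hn₁ x hx S d u v z ov o G a r hbr hrN hS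
  have hL100 : (100 : ℝ) ≤ L := by exact_mod_cast (show 100 ≤ L by omega)
  have hLR : (1 : ℝ) ≤ L := by linarith
  have hL0 : (0 : ℝ) < L := by linarith
  have hwd : ∀ n, 0 < wd' μ s n := fun n => lt_of_lt_of_le zero_lt_one (le_max_left _ _)
  have hcone : ∀ δ', min δ₁ δ₂ ≤ δ' → |(y : ℝ) - sl μ s * N| ≤ ((L : ℝ) ^ δ' * wd' μ s N) := fun δ' hδ' =>
    hyc.trans (mul_le_mul_of_nonneg_right (Real.rpow_le_rpow_of_exponent_le hLR hδ') (hwd N).le)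
  have hκle : ∀ {t κ' : ℝ}, t ≤ (L : ℝ) ^ (min (min κ₁ κ₂) ε') → min (min κ₁ κ₂) ε' ≤ κ' → t ≤ (L : ℝ) ^ κ' := fun ht hκ' =>
    ht.trans (Real.rpow_le_rpow_of_exponent_le hLR hκ')
  have hx1 : x ≤ (L : ℝ) ^ κ₁ := hκle hx ((min_le_left _ _).trans (min_le_left _ _))
  have hx2 : x ≤ (L : ℝ) ^ κ₂ := hκle hx ((min_le_left _ _).trans (min_le_right _ _))
  have hn1 : (n₁ : ℝ) ≤ (L : ℝ) ^ κ₁ := hκle hn₁ ((min_le_left _ _).trans (min_le_left _ _))
  have hn3 : (n₁ : ℝ) ≤ (L : ℝ) ^ ε' := hκle hn₁ (min_le_right _ _)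
  obtain ⟨-, hb100, -⟩ := hL₄ L (by omega)
  obtain ⟨-, hK12, -⟩ := hL₅ L (by omega)
  have hθ2 : (L : ℝ) ^ θ = (L : ℝ) ^ (θ / 2) * (L : ℝ) ^ (θ / 2) := by
    rw [← Real.rpow_add hL0]
    congr 1
    ring
  have hbig : ∀ t : ℕ, (L : ℝ) ^ θ ≤ t → 100 * (L : ℝ) ^ (θ / 2) ≤ t := fun t ht => by
    rw [hθ2] at ht
    nlinarith
  have hb1 : 100 ≤ b := by
    have : (100 : ℝ) ≤ b := by nlinarith [hbig b hbL]
    exact_mod_cast this
  have hl1 : 100 ≤ l := by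
    have : (100 : ℝ) ≤ l := by nlinarith [hbig l hlL]
    exact_mod_cast this
  obtain ⟨p, hp⟩ : ∃ p : ℝ, p = Real.exp (-(L : ℝ) ^ (min c₁ c₂)) := ⟨_, rfl⟩
  have hp0 : 0 ≤ p := by rw [hp]; positivity
  have hp1 : ENNReal.ofReal (Real.exp (-(L : ℝ) ^ c₁)) ≤ ENNReal.ofReal p :=
    ENNReal.ofReal_le_ofReal (by rw [hp]; exact Pool.Agent.W_7d29a1_Z.NumI77.exp_mono (min_le_left _ _) (by omega))
  have hp2 : ENNReal.ofReal (Real.exp (-(L : ℝ) ^ c₂)) ≤ ENNReal.ofReal p :=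
    ENNReal.ofReal_le_ofReal (by rw [hp]; exact Pool.Agent.W_7d29a1_Z.NumI77.exp_mono (min_le_right _ _) (by omega))
  have hTms : Ms (fun (_ : Env) (_ : Finset ℕ) => True) := fun T => by simp
  have hToff : ∀ J : Finset ℕ, OffRows J (fun (_ : Env) (_ : Finset ℕ) => True) := fun _ _ _ _ _ => Iff.rfl
  have hP1 : ∀ A : Env → Finset ℕ → Prop, P1 μ s N y A ≤ 1 := fun A =>
    A12.P1_le_one (by positivity) (by exact_mod_cast hyN) A
  obtain ⟨q, hq⟩ : ∃ q : ℝ, q = (L : ℝ) ^ ε' := ⟨_, rfl⟩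
  have hq1 : 1 ≤ q := by rw [hq]; exact Real.one_le_rpow hLR hε0.le
  have hqL : q ≤ L := by
    rw [hq]
    exact (Real.rpow_le_rpow_of_exponent_le hLR hε1).trans_eq (Real.rpow_one _)
  have hq4 : q ^ 4 ≤ (L : ℝ) ^ ε := by
    rw [hq, ← Real.rpow_natCast, ← Real.rpow_mul hL0.le]
    refine Real.rpow_le_rpow_of_exponent_le hLR ?_
    push_cast
    linarith
  rw [← hq] at hn3 hK12
  have hbi : 0 ≤ (EE' μ s b)⁻¹ := (inv_pos.2 (hE0 b)).le
  have hli : 0 ≤ (EE' μ s l)⁻¹ := (inv_pos.2 (hE0 l)).le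
  -- the own tie alone
  have hown : ∀ j ∈ S, P1 μ s N y (OwnGL μ s N y b z ov o x j) ≤ ENNReal.ofReal (q * (3 * K * (EE' μ s b)⁻¹) + p) := by
    intro j hj
    obtain ⟨g1, g2, g3, g4, g5⟩ := G.own j hj
    have e1 : j - b + b / 4 - (j - b) = b / 4 := by omega
    have hb4 : (L : ℝ) ^ (θ / 2) ≤ ((b / 4 : ℕ) : ℝ) := by
      have k1 : (b : ℝ) ≤ 8 * ((b / 4 : ℕ) : ℝ) := by exact_mod_cast (show b ≤ 8 * (b / 4) by omega)
      have k2 := hbig b hbL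
      have k3 : 0 ≤ (L : ℝ) ^ (θ / 2) := by positivity
      linarith
    have h1 := hO L (by omega) N hLN hNL y hyN (hcone _ (min_le_right _ _)) (z j) (o j) (j - b) (j - b + b / 4) (by omega) (by omega) g5
      (by rw [e1]; exact hb4) x hx2 (fun _ _ => True) hTms (hToff _)
    rw [e1] at h1
    have h2 : P1 μ s N y (OwnGL μ s N y b z ov o x j) ≤
        P1 μ s N y (fun η T => True ∧ Hy μ s N y (z j) (o j) (NoMeet (j - b) (j - b + b / 4)) x η T) :=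
      A12.P1_mono fun η T hev => ⟨trivial, hy_mono (fun S' _ _ hm k hk1 hk2 => hm k hk1 (by omega)) hev⟩
    refine h2.trans (h1.trans ?_)
    have hE4 : (EE' μ s (b / 4))⁻¹ ≤ 3 * K * (EE' μ s b)⁻¹ := by
      rw [← div_eq_mul_inv, le_div_iff₀ (hE0 b), inv_mul_le_iff₀ (hE0 _)]
      have k1 := (hE (b / 4) b (by omega) (Nat.div_le_self _ _)).2.2
      have k2 : Real.sqrt ((b : ℝ) / ((b / 4 : ℕ) : ℝ)) ≤ 3 := by
        have k3 : (0 : ℝ) < ((b / 4 : ℕ) : ℝ) := by exact_mod_cast (show 0 < b / 4 by omega)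
        rw [Real.sqrt_le_left (by norm_num), div_le_iff₀ k3]
        have k4 : (b : ℝ) ≤ 9 * ((b / 4 : ℕ) : ℝ) := by exact_mod_cast (show b ≤ 9 * (b / 4) by omega)
        linarith
      refine k1.trans ?_
      have k5 := (hE0 (b / 4)).le
      calc K * Real.sqrt ((b : ℝ) / ((b / 4 : ℕ) : ℝ)) * EE' μ s (b / 4) ≤ K * 3 * EE' μ s (b / 4) := by gcongr
        _ = _ := by ring
    rw [ENNReal.ofReal_add (by positivity) hp0, ← hq]
    refine add_le_add ?_ hp2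
    refine (mul_le_of_le_one_right zero_le (hP1 _)).trans (ENNReal.ofReal_le_ofReal ?_)
    gcongr
  -- the micro tie alone
  have hmic : ∀ k ∈ S, P1 μ s N y (MicGL μ s N y b n₁ d u v x k) ≤ ENNReal.ofReal (n₁ * (q * (K * (EE' μ s l)⁻¹) + p)) := by
    intro k hk
    have h1 : P1 μ s N y (MicGL μ s N y b n₁ d u v x k) ≤
        ∑ n ∈ range n₁, P1 μ s N y (fun η T => True ∧ Hy μ s N y (k - b) (d k) (NoMeet (u k n) (v k n)) x η T) := by
      refine le_trans (A12.P1_mono fun η T hev => ?_) (A12.P1_exists (μ := μ) (s := s) (N := N) (y := y) (range n₁)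
        fun n η T => True ∧ Hy μ s N y (k - b) (d k) (NoMeet (u k n) (v k n)) x η T)
      obtain ⟨n, hn, g⟩ := hev
      exact ⟨n, hn, trivial, g⟩
    refine h1.trans ?_
    have h2 : ∀ n ∈ range n₁, P1 μ s N y (fun η T => True ∧ Hy μ s N y (k - b) (d k) (NoMeet (u k n) (v k n)) x η T) ≤
        ENNReal.ofReal (q * (K * (EE' μ s l)⁻¹) + p) := by
      intro n hn
      obtain ⟨g1, g2, g3, g4, g6⟩ := G.win k hk n (mem_range.1 hn)
      have g5 := G.own k hk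
      have k0 : l ≤ v k n - u k n := by omega
      have k1 : (L : ℝ) ^ (θ / 2) ≤ ((v k n - u k n : ℕ) : ℝ) := by
        have k2 : (l : ℝ) ≤ ((v k n - u k n : ℕ) : ℝ) := by exact_mod_cast k0
        have k3 := hbig l hlL
        have k4 : 0 ≤ (L : ℝ) ^ (θ / 2) := by positivity
        linarith
      have h3 := hO L (by omega) N hLN hNL y hyN (hcone _ (min_le_right _ _)) (k - b) (d k) (u k n) (v k n) (by omega) g4 g6
        k1 x hx2 (fun _ _ => True) hTms (hToff _)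
      refine h3.trans ?_
      rw [ENNReal.ofReal_add (by positivity) hp0, ← hq]
      refine add_le_add ?_ hp2
      refine (mul_le_of_le_one_right zero_le (hP1 _)).trans (ENNReal.ofReal_le_ofReal (mul_le_mul_of_nonneg_left ?_ (by linarith)))
      rw [← div_eq_mul_inv, le_div_iff₀ (hE0 l), inv_mul_le_iff₀ (hE0 _)]
      have := (hE l (v k n - u k n) (by omega) k0).1
      linarith
    refine (sum_le_sum h2).trans (le_of_eq ?_)
    rw [sum_const, card_range, nsmul_eq_mul, ENNReal.ofReal_mul (Nat.cast_nonneg _), ENNReal.ofReal_natCast]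
  -- the price of a set of rows
  have hset : ∀ (a w m : ℕ) (J : Finset ℕ), J ⊆ S → b ≤ w → w ≤ N → (∀ j ∈ J, (a ≤ j ∧ j < a + w) ∧ j + b ≤ m) →
      ∀ F : Env → Finset ℕ → Prop, Ms F → OffRows (Ico 0 m) F →
      ∑ j ∈ J, P1 μ s N y (fun η T => F η T ∧ MicGL μ s N y b n₁ d u v x j η T ∧ OwnGL μ s N y b z ov o x j η T) ≤
        ENNReal.ofReal (q * (w * (EE' μ s b)⁻¹ * (EE' μ s l)⁻¹)) * P1 μ s N y F + ENNReal.ofReal p := by
    intro a w m J h1 h2 h3 h4 F hF hoff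
    rw [hq]
    exact (hJ L (by omega) N hLN hNL y hyN (hcone _ (min_le_left _ _)) b l σ n₁ hbL hlL hlb hn1 x hx1 S d u v z ov o G a w m J h1 h2 h3 h4
      F hF hoff).trans (add_le_add le_rfl hp1)
  have hσ0 : 0 < σ := by omega
  refine (pair_core (μ := μ) (s := s) (N := N) (y := y) (M := MicGL μ s N y b n₁ d u v x) (O := OwnGL μ s N y b z ov o x) hE1 hK
    hK12 hn3 hqL hL100 (by exact_mod_cast (show b ≤ L by omega)) (by exact_mod_cast (show σ ≤ L by omega))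
    (by exact_mod_cast (show r ≤ L by omega)) hS hp0 (fun k j => j + 2 * b ≤ k) (fun j k h1 h2 => by omega) hown hmic
    (fun k hk => ?_) (fun k hk => ?_) ?_).trans ?_
  rotate_right
  · have hv0 : 0 ≤ val11 (EE' μ s) b l σ r := by unfold val11; positivity
    rw [← ENNReal.ofReal_add (mul_nonneg (Real.rpow_nonneg hL0.le _) hv0) (Real.exp_pos _).le]
    refine ENNReal.ofReal_le_ofReal (add_le_add (mul_le_mul_of_nonneg_right hq4 hv0) ?_)
    have g1 := hX L (by omega)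
    have e4 : (L : ℝ) ^ (8 : ℝ) = (L : ℝ) ^ 8 := by
      rw [← Real.rpow_natCast]
      norm_num
    rw [e4, ← hp] at g1
    exact g1
  · -- one block
    have gk := G.own k hk
    exact hset (k / σ * σ) σ (k - b) (S.filter fun j => j + 2 * b ≤ k ∧ j / σ = k / σ) (filter_subset _ _) hbσ hσN (fun j hj => by
      have g1 := (mem_filter.1 hj).2
      have g2 := Nat.div_add_mod j σ
      have g3 := Nat.mod_lt j hσ0
      rw [g1.2] at g2
      have g4 : σ * (k / σ) = k / σ * σ := mul_comm _ _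
      have g5 := g1.1
      clear * - g2 g3 g4 g5
      refine ⟨⟨?_, ?_⟩, ?_⟩
      · omega
      · omega
      · omega) (MicGL μ s N y b n₁ d u v x k) micGL_ms (micGL_off G hk (by clear * - gk; omega))
  · -- different blocks
    have gk := G.own k hk
    exact hset a r (min (k - b) (z k)) (S.filter fun j => j + 2 * b ≤ k ∧ ¬ j / σ = k / σ) (filter_subset _ _) hbr hrN (fun j hj => by
        obtain ⟨g0, g1, g2⟩ := mem_filter.1 hj
        have g3 := hS j g0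
        have g4 := G.blk j g0 k hk (by omega) g2
        refine ⟨g3, ?_⟩
        clear * - g1 g4
        rw [Nat.min_def]
        split_ifs <;> omega) (fun η T => MicGL μ s N y b n₁ d u v x k η T ∧ OwnGL μ s N y b z ov o x k η T)
        (ms_and micGL_ms ownGL_ms) (off_and (micGL_off G hk (by
          clear * - gk
          rw [Nat.min_def]
          split_ifs <;> omega)) (ownGL_off G hk (min_le_right _ _)))
  · -- all the rows
    have h3 := hset a r (a + r + b) S (Subset.refl _) hbr hrN (fun j hj => ⟨hS j hj, by have := hS j hj; omega⟩) (fun _ _ => True) hTms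
      (hToff _)
    refine (sum_le_sum fun j _ => A12.P1_mono fun η T hev => ⟨trivial, hev⟩).trans (h3.trans ?_)
    rw [ENNReal.ofReal_add (by positivity) hp0]
    exact add_le_add (mul_le_of_le_one_right zero_le (hP1 _)) le_rfl

end Pool.Agent.W_7d29a1_C0.Dg11
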