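import Pool.Agent.W_7d29a1_C0.DgP11
import Pool.Agent.W_7d29a1_C0.DgR11
import Pool.Agent.W_7d29a1_C0.E2S39B

/-!
MP_7d29a1_pr, [C0], helper11: DOUBLE TIES IN THE MODEL FORM. `out_price`: the tie of the spectator on `[zf, cc]` in front of every event which does
not see the rows behind `zf`. `mod_core`: the sum over the pairs of rows of the two-row functionals `pr2`, from the sum of the probabilities.
-/

set_option autoImplicit false

namespace Pool.Agent.W_7d29a1_C0.Dg11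

open MeasureTheory ProbabilityTheory Filter Topology Finset
open Pool.Agent.W_7d29a1_F Pool.Agent.W_7d29a1_X Pool.Agent.W_7d29a1_h4g Pool.Agent.W_7d29a1_H
open Pool.Agent.W_7d29a1_HS (In wd md)
open Pool.Agent.W_7d29a1_HZ Pool.Agent.W_7d29a1_HZ.R72 Pool.Agent.W_7d29a1_Z.Asm72
open Pool.Agent.W_7d29a1_HZ.Z86
open Pool.Agent.W_7d29a1_C0.P86
open Pool.Agent.W_7d29a1_C0.P15
open Pool.Agent.W_7d29a1_C0.P3 (Hy hy_ms hy_off hy_mono hy_mono_x)
open Pool.Agent.W_7d29a1_C0.Mod92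
open Pool.Agent.W_7d29a1_C0.Swap57 (NI NI_nonneg)
open Pool.Agent.W_7d29a1_C0.T93 (pr2)
open Pool.Agent.W_7d29a1_C0.E2S39
open Pool.W7d29a1.C0 (gz gm gz_pos gm_nonneg gm_mono gm_const PP PP_mono PP_nonneg)
open scoped ENNReal

noncomputable section

variable {μ : Measure ℝ} {s : ℝ} {N : ℕ}

/-! ### Indicators -/

open Classical in
/-- The indicator of an event of the environment and of the base path. -/
def gi {y : ℕ} (G : Env → Finset ℕ → Prop) (ω : Env × Finset ℕ) (x : Px (Pn N y)) : ℝ := if G ω.1 x.1 then 1 else 0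

theorem gi0 {y : ℕ} (G : Env → Finset ℕ → Prop) (ω : Env × Finset ℕ) (x : Px (Pn N y)) : 0 ≤ gi G ω x := by
  unfold gi
  split_ifs <;> norm_num

theorem gi1 {y : ℕ} (G : Env → Finset ℕ → Prop) (ω : Env × Finset ℕ) (x : Px (Pn N y)) : gi G ω x ≤ 1 := by
  unfold gi
  split_ifs <;> norm_num

theorem gi_of {y : ℕ} {G : Env → Finset ℕ → Prop} {ω : Env × Finset ℕ} {x : Px (Pn N y)} (h : G ω.1 x.1) : gi G ω x = 1 := if_pos h

open Classical in
theorem gi_congr {y : ℕ} {G : Env → Finset ℕ → Prop} {ω ω' : Env × Finset ℕ} {x : Px (Pn N y)} (h : G ω.1 x.1 ↔ G ω'.1 x.1) :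
    gi G ω x = gi G ω' x := if_congr h rfl rfl

theorem gi_ms {y : ℕ} {G : Env → Finset ℕ → Prop} (hG : Ms G) (x : Px (Pn N y)) : Measurable fun ω => gi G ω x := by
  unfold gi
  exact Measurable.ite (measurable_fst (hG x.1)) measurable_const measurable_const

variable [IsProbabilityMeasure μ]

/-- The mean of an indicator is the annealed probability. -/
theorem int_gi {y : ℕ} (hy : y ≤ N) {G : Env → Finset ℕ → Prop} (hG : Ms G) :
    ∫ ω, gm (wm μ s N (Pn N y) ω) (gi G ω) ∂(Pm μ N) ≤ (P1 μ s N y G).toReal := by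
  have hP : P1 μ s N y G ≤ 1 := A12.P1_le_one (by positivity) (by exact_mod_cast hy) G
  have h1 := int_of_Q1 (μ := μ) (s := s) hy (X := gi G) (f := fun _ _ => 0) (fun ω x => gi0 G ω x) (fun A x => measurable_const)
    (fun ω x => le_rfl) (fun ω x => zero_le_one) (R := 0) (e := (P1 μ s N y G).toReal) le_rfl ENNReal.toReal_nonneg (fun A => ?_)
  · simpa using h1
  · rw [ENNReal.ofReal_zero, zero_mul, zero_add, ENNReal.ofReal_toReal (ne_top_of_le_ne_top ENNReal.one_ne_top hP), ← Q1_ind hG]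
    refine Q1_mono fun η S _ _ => ?_
    unfold exP
    split_ifs with hS
    · by_cases hg : G η S
      · rw [ind_of hg]
        exact (ENNReal.ofReal_le_ofReal (gi1 G (η, A) ⟨S, hS⟩)).trans (by simp)
      · have : gi G (η, A) (⟨S, hS⟩ : Px (Pn N y)) = 0 := if_neg hg
        rw [this, ENNReal.ofReal_zero]
        exact zero_le
    · rw [ENNReal.ofReal_zero]
      exact zero_le

/-! ### The tie of the spectator -/

variable {c₀ C₀ : ℝ} {n₀ : ℕ}

/-- **THE TIE OF THE SPECTATOR** on `[zf, cc]`, in front of every event which does not see the rows behind `zf`. -/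
theorem out_price (h : In μ s c₀ C₀ n₀) : ∀ ε θ : ℝ, 0 < ε → 0 < θ → ∃ δ c₂ : ℝ, 0 < δ ∧ 0 < c₂ ∧ ∃ L₀ : ℕ, ∀ N : ℕ, L₀ ≤ N →
    ∀ y : ℕ, y ≤ N → |(y : ℝ) - sl μ s * N| ≤ ((N : ℝ) ^ δ * wd' μ s N) → ∀ zf cc : ℕ, zf ≤ cc → cc ≤ N →
    (N : ℝ) ^ θ ≤ ((cc - zf : ℕ) : ℝ) → ∀ G : Env → Finset ℕ → Prop, Ms G → OffRows (Ioc zf N) G →
    ∫ ω, gm (wm μ s N (Pn N y) ω) (fun x => gi G ω x * out39 μ s N y zf cc ω x) ∂(Pm μ N) ≤
      ((N : ℝ) ^ ε * (EE' μ s (cc - zf))⁻¹) * (P1 μ s N y G).toReal + Real.exp (-(N : ℝ) ^ c₂) := by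
  intro ε θ hε hθ
  obtain ⟨δ, κ, c₁, hδ, hκ, hc₁, L₁, hP⟩ := price_list h 1 (by norm_num) ε θ hε hθ
  obtain ⟨c₂, hc₂, -, L₂, hX⟩ := Pool.Agent.W_7d29a1_Z.NumI77.pow_exp (lt_min hc₁ hκ) 2
  obtain ⟨L₃, hL₃⟩ := Pool.Agent.W_7d29a1_Z.NumI77.large hκ 8
  refine ⟨δ, c₂, hδ, hc₂, L₁ + L₂ + L₃ + 3, ?_⟩
  intro N hN y hyN hyc zf cc hzc hcN hlo G hG hoff
  have hN3 : (3 : ℝ) ≤ N := by exact_mod_cast (show 3 ≤ N by omega)
  obtain ⟨-, h8, -⟩ := hL₃ N (by omega)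
  have hκ1 := one_le_rp (show 1 ≤ N by omega) hκ
  have hE0 : ∀ t, 0 < EE' μ s t := fun t => lt_of_lt_of_le zero_lt_one (le_max_left _ _)
  have h1 := hP N (by omega) N (by omega) le_rfl y hyN hyc ((N : ℝ) ^ κ) h8 le_rfl [(pout N zf cc, out39 μ s N y zf cc)] rfl
    (fun P hPs => by
      rw [List.mem_singleton.1 hPs]
      refine ⟨?_, hlo⟩
      show 0 ≤ 0 ∧ 0 ≤ zf ∧ zf ≤ cc ∧ cc ≤ N ∧ N ≤ N ∧ N ≤ N
      omega)
    (List.pairwise_singleton _ _) (fun P hPs => by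
      rw [List.mem_singleton.1 hPs]
      exact dom_out hκ1 hzc hcN)
    (gi G) (fun A x => (gi_ms hG x).comp (measurable_id.prodMk measurable_const)) (fun ω x => gi0 G ω x) (fun ω x => gi1 G ω x)
    (fun P hPs η η' A x hq => by
      rw [List.mem_singleton.1 hPs] at hq
      have h2 : G η x.1 ↔ G η' x.1 := hoff η η' x.1 fun q hq' => hq q fun hq'' => hq' ⟨hq''.1, by
        have := hq''.2
        change q.1.toNat ∈ Ioo zf N at this
        rw [mem_Ioo] at this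
        rw [mem_Ioc]
        omega⟩
      exact gi_congr h2)
  simp only [List.map_cons, List.map_nil, List.prod_cons, List.prod_nil, mul_one] at h1
  have hA : 0 ≤ (N : ℝ) ^ ε * (EE' μ s (cc - zf))⁻¹ := mul_nonneg (Real.rpow_nonneg (Nat.cast_nonneg _) _) (inv_pos.2 (hE0 _)).le
  refine h1.trans (add_le_add (mul_le_mul_of_nonneg_left (int_gi hyN hG) hA) ?_)
  have g1 := hX N (by omega)
  have e1 : (N : ℝ) ^ (2 : ℝ) = (N : ℝ) ^ 2 := by
    rw [← Real.rpow_natCast]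
    norm_num
  rw [e1] at g1
  refine le_trans ?_ g1
  have g2 : Real.exp (-(N : ℝ) ^ c₁) ≤ Real.exp (-(N : ℝ) ^ (min c₁ κ)) :=
    Pool.Agent.W_7d29a1_Z.NumI77.exp_mono (min_le_left _ _) (by omega)
  have g3 : Real.exp (-(N : ℝ) ^ κ) ≤ Real.exp (-(N : ℝ) ^ (min c₁ κ)) :=
    Pool.Agent.W_7d29a1_Z.NumI77.exp_mono (min_le_right _ _) (by omega)
  have g4 := Real.exp_pos (-(N : ℝ) ^ (min c₁ κ))
  have g5 : 3 * Real.exp (-(N : ℝ) ^ (min c₁ κ)) ≤ (N : ℝ) ^ 2 * Real.exp (-(N : ℝ) ^ (min c₁ κ)) :=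
    mul_le_mul_of_nonneg_right (by nlinarith) g4.le
  push_cast
  linarith

/-! ### The sum over the pairs of rows -/

/-- **THE PAIRS OF ROWS IN THE MODEL FORM**, one end. -/
theorem mod_core {y : ℕ} (hy : y ≤ N) {zf cc : ℕ} {a e A : ℝ} (ha : 0 ≤ a) (he : 0 ≤ e) (hA : 0 ≤ A)
    (hout : ∀ G : Env → Finset ℕ → Prop, Ms G → OffRows (Ioc zf N) G →
      ∫ ω, gm (wm μ s N (Pn N y) ω) (fun x => gi G ω x * out39 μ s N y zf cc ω x) ∂(Pm μ N) ≤ a * (P1 μ s N y G).toReal + e)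
    {S : Finset ℕ} {G : ℕ → Env → Finset ℕ → Prop} (hG : ∀ j ∈ S, Ms (G j)) (hoff : ∀ j ∈ S, OffRows (Ioc zf N) (G j))
    (hsum : ∑ j ∈ S, ∑ k ∈ S, P1 μ s N y (fun η T => G j η T ∧ G k η T) ≤ ENNReal.ofReal A) {U : ℕ → Fam N}
    (U0 : ∀ j ∈ S, ∀ ω x, 0 ≤ U j y ω x) (U1 : ∀ j ∈ S, ∀ ω x, U j y ω x ≤ 1)
    (hU : ∀ j ∈ S, ∀ ω x, U j y ω x ≠ 0 → G j ω.1 x.1) :
    ∑ j ∈ S, ∑ k ∈ S, pr2 μ s N (fun y ω x z => NI zf cc x z) (U j) (U k) y ≤ a * A + S.card ^ 2 * e := by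
  have := ne_Pn hy
  have hone : ∀ j ∈ S, ∀ k ∈ S, pr2 μ s N (fun y ω x z => NI zf cc x z) (U j) (U k) y ≤
      a * (P1 μ s N y (fun η T => G j η T ∧ G k η T)).toReal + e := by
    intro j hj k hk
    refine le_trans ?_ (hout (fun η T => G j η T ∧ G k η T) (ms_and (hG j hj) (hG k hk)) (off_and (hoff j hj) (hoff k hk)))
    unfold pr2
    have e1 : ∀ ω, PP (wm μ s N (Pn N y) ω) (fun x z => NI zf cc x z * (U j y ω x * U k y ω x)) =
        gm (wm μ s N (Pn N y) ω) fun x => out39 μ s N y zf cc ω x * (U j y ω x * U k y ω x) := fun ω => by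
      rw [← Pool.Agent.W_7d29a1_C0.CutT57.gm_gm_eq_PP]
      congr 1
      funext x
      unfold out39
      have h1 : (fun z => NI zf cc x z * (U j y ω x * U k y ω x)) = fun z => (U j y ω x * U k y ω x) * NI zf cc x z := by
        funext z
        ring
      rw [h1, Pool.Agent.W_7d29a1_C0.CutT57.gm_const_mul]
      ring
    simp only [e1]
    have mo : ∀ x, Measurable fun ω => out39 μ s N y zf cc ω x := fun x =>
      meas_gm meas_wm (f := fun _ => NI zf cc x) fun _ => measurable_const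
    have mg := fun x => gi_ms (N := N) (y := y) (ms_and (hG j hj) (hG k hk)) x
    refine integral_mono_of_nonneg (Filter.Eventually.of_forall fun ω => ?_) ?_ (Filter.Eventually.of_forall fun ω => ?_)
    · exact gm_nonneg _ fun x => mul_nonneg (out39_nonneg _ _ _ _) (mul_nonneg (U0 j hj ω x) (U0 k hk ω x))
    · refine int_bdd (M := 1) (meas_gm meas_wm fun x => (mg x).mul (mo x)) fun ω => ?_
      rw [abs_of_nonneg (gm_nonneg _ fun x => mul_nonneg (gi0 _ _ _) (out39_nonneg _ _ _ _))]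
      refine (gm_mono _ (g := fun _ => 1) fun x => ?_).trans (gm_const _ _).le
      exact mul_le_one₀ (gi1 _ _ _) (out39_nonneg _ _ _ _) (out39_le_one _ _ _ _)
    · refine gm_mono _ fun x => ?_
      rw [mul_comm]
      refine mul_le_mul_of_nonneg_right ?_ (out39_nonneg _ _ _ _)
      by_cases h1 : U j y ω x = 0
      · rw [h1, zero_mul]
        exact gi0 _ _ _
      by_cases h2 : U k y ω x = 0
      · rw [h2, mul_zero]
        exact gi0 _ _ _
      rw [gi_of ⟨hU j hj ω x h1, hU k hk ω x h2⟩]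
      exact mul_le_one₀ (U1 j hj ω x) (U0 k hk ω x) (U1 k hk ω x)
  refine (sum_le_sum fun j hj => sum_le_sum fun k hk => hone j hj k hk).trans ?_
  have e2 : ∑ j ∈ S, ∑ k ∈ S, (a * (P1 μ s N y (fun η T => G j η T ∧ G k η T)).toReal + e) =
      a * (∑ j ∈ S, ∑ k ∈ S, (P1 μ s N y (fun η T => G j η T ∧ G k η T)).toReal) + S.card ^ 2 * e := by
    simp only [sum_add_distrib, sum_const, nsmul_eq_mul, ← mul_sum]
    ring
  rw [e2]
  refine add_le_add (mul_le_mul_of_nonneg_left ?_ ha) le_rfl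
  have hfin : ∀ A : Env → Finset ℕ → Prop, P1 μ s N y A ≠ ⊤ := fun A =>
    ne_top_of_le_ne_top ENNReal.one_ne_top (A12.P1_le_one (by positivity) (by exact_mod_cast hy) A)
  have e3 : ∑ j ∈ S, ∑ k ∈ S, (P1 μ s N y (fun η T => G j η T ∧ G k η T)).toReal =
      (∑ j ∈ S, ∑ k ∈ S, P1 μ s N y (fun η T => G j η T ∧ G k η T)).toReal := by
    rw [ENNReal.toReal_sum fun j _ => ENNReal.sum_ne_top.2 fun k _ => hfin _]
    refine sum_congr rfl fun j _ => ?_
    rw [ENNReal.toReal_sum fun k _ => hfin _]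
  rw [e3]
  exact ENNReal.toReal_le_of_le_ofReal hA hsum

end

end Pool.Agent.W_7d29a1_C0.Dg11
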