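import Pool.Agent.W_7d29a1_C0.DgM11

/-!
MP_7d29a1_pr, [C0], helper11: THE PRICE OF THE DOUBLE TIES OF ALL THE PAIRS OF ROWS IN THE FORM OF THE TERMS OF (E2). `PkD11`: the data at one
length, right end (`prR`) and left end (`prL`), the right side in the prices `phM` of helper39. `pkD11`: they exist.
-/

set_option autoImplicit false

namespace Pool.Agent.W_7d29a1_C0.Dg11

open MeasureTheory ProbabilityTheory Filter Topology Finset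
open Pool.Agent.W_7d29a1_F Pool.Agent.W_7d29a1_X Pool.Agent.W_7d29a1_h4g Pool.Agent.W_7d29a1_H
open Pool.Agent.W_7d29a1_HS (In wd md)
open Pool.Agent.W_7d29a1_HZ Pool.Agent.W_7d29a1_HZ.R72 Pool.Agent.W_7d29a1_Z.Asm72
open Pool.Agent.W_7d29a1_HZ.Z86
open Pool.Agent.W_7d29a1_C0.P86
open Pool.Agent.W_7d29a1_C0.P15
open Pool.Agent.W_7d29a1_C0.P3 (Hy hy_ms hy_off hy_mono hy_mono_x)
open Pool.Agent.W_7d29a1_C0.Mod92
open Pool.Agent.W_7d29a1_C0.Swap57 (NI NI_nonneg)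
open Pool.Agent.W_7d29a1_C0.T93 (pr2)
open Pool.Agent.W_7d29a1_C0.E2S39
open Pool.W7d29a1.C0 (gz gm gz_pos gm_nonneg gm_mono gm_const PP PP_mono PP_nonneg)
open scoped ENNReal

noncomputable section

variable {μ : Measure ℝ} {s : ℝ} {N : ℕ}

/-- **THE SUMS OVER THE PAIRS OF ROWS OF THE DOUBLE TIES**, at the length `N`. -/
structure PkD11 (μ : Measure ℝ) (s ε θ κ : ℝ) (N : ℕ) (ys : Finset ℕ) (e : ℝ) : Prop where
  prR : ∀ b l σ n₁ r a zf cc : ℕ, (N : ℝ) ^ θ ≤ b → (N : ℝ) ^ θ ≤ l → l ≤ b → b ≤ σ → σ ≤ r → r ≤ N → (n₁ : ℝ) ≤ (N : ℝ) ^ κ →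
    zf ≤ cc → cc ≤ N → (N : ℝ) ^ θ ≤ ((cc - zf : ℕ) : ℝ) →
    ∀ (S : Finset ℕ) (c : ℕ → ℕ) (u v : ℕ → ℕ → ℕ) (co ou z : ℕ → ℕ), GeoR N b l σ n₁ S c u v co ou z →
    (∀ j ∈ S, (a ≤ j ∧ j < a + r) ∧ z j ≤ zf) → ∀ U : ℕ → Fam N, (∀ j ∈ S, ∀ y ω x, 0 ≤ U j y ω x) →
    (∀ j ∈ S, ∀ y ω x, U j y ω x ≤ 1) → (∀ j ∈ S, ∀ y ∈ ys, ∀ ω x, U j y ω x ≠ 0 →
      MicG μ s N y b n₁ c u v ((N : ℝ) ^ κ) j ω.1 x.1 ∧ OwnG μ s N y b co ou z ((N : ℝ) ^ κ) j ω.1 x.1) →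
    ∑ j ∈ S, ∑ k ∈ S, avy ys (pr2 μ s N (fun _ _ x z => NI zf cc x z) (U j) (U k)) ≤
      r * ∑ D ∈ range r, phM μ s N ε e (cc - zf) l l b σ D
  prL : ∀ b l σ n₁ r a zf cc : ℕ, (N : ℝ) ^ θ ≤ b → (N : ℝ) ^ θ ≤ l → l ≤ b → b ≤ σ → σ ≤ r → r ≤ N → (n₁ : ℝ) ≤ (N : ℝ) ^ κ →
    zf ≤ cc → cc ≤ N → (N : ℝ) ^ θ ≤ ((cc - zf : ℕ) : ℝ) →
    ∀ (S : Finset ℕ) (d : ℕ → ℕ) (u v : ℕ → ℕ → ℕ) (z ov o : ℕ → ℕ), GeoL N b l σ n₁ S d u v z ov o →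
    (∀ j ∈ S, (a ≤ j ∧ j < a + r) ∧ d j ≤ zf ∧ o j ≤ zf) → ∀ U : ℕ → Fam N, (∀ j ∈ S, ∀ y ω x, 0 ≤ U j y ω x) →
    (∀ j ∈ S, ∀ y ω x, U j y ω x ≤ 1) → (∀ j ∈ S, ∀ y ∈ ys, ∀ ω x, U j y ω x ≠ 0 →
      MicGL μ s N y b n₁ d u v ((N : ℝ) ^ κ) j ω.1 x.1 ∧ OwnGL μ s N y b z ov o ((N : ℝ) ^ κ) j ω.1 x.1) →
    ∑ j ∈ S, ∑ k ∈ S, avy ys (pr2 μ s N (fun _ _ x z => NI zf cc x z) (U j) (U k)) ≤
      r * ∑ D ∈ range r, phM μ s N ε e (cc - zf) l l b σ D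

/-- The sum of the prices. -/
theorem sum_phM {ε e : ℝ} (he : 0 ≤ e) {lout l b σ r : ℕ} (hb : b ≤ σ) (hr : σ ≤ r) :
    b * lpr μ s N ε lout [l] + σ * lpr μ s N ε lout [l, l, l] + r * lpr μ s N ε lout [l, l, l, l] + r * e ≤
      ∑ D ∈ range r, phM μ s N ε e lout l l b σ D := by
  have n1 := lpr_nonneg (μ := μ) (s := s) (N := N) (ε := ε) lout [l]
  have n2 := lpr_nonneg (μ := μ) (s := s) (N := N) (ε := ε) lout [l, l, l]
  have key : ∀ (m : ℕ) (x : ℝ), m ≤ r → ∑ D ∈ range r, (if D < m then x else 0) = m * x := fun m x hm => by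
    rw [← sum_filter, sum_const, nsmul_eq_mul]
    have h1 : (range r).filter (fun D => D < m) = range m := by
      ext D
      rw [mem_filter, mem_range, mem_range]
      omega
    rw [h1, card_range]
  unfold phM
  rw [sum_add_distrib, sum_add_distrib, key b _ (hb.trans hr), key σ _ hr, sum_const, card_range, nsmul_eq_mul]
  have h1 : (0 : ℝ) ≤ b * e := by positivity
  have h2 : (0 : ℝ) ≤ σ * e := by positivity
  linarith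

variable [IsProbabilityMeasure μ] {c₀ C₀ : ℝ} {n₀ : ℕ}

/-- The numbers. -/
theorem numD11 {ε e e₁ : ℝ} (hN : 1 ≤ N) (hε : 0 < ε) {lout l b σ r m : ℕ} (hlb : l ≤ b) (hbσ : b ≤ σ) (hσr : σ ≤ r) (hr : 1 ≤ r)
    (hm : m ≤ r) (he₁ : 0 ≤ e₁) (he : ((N : ℝ) ^ ε + 1) * e₁ ≤ e) :
    ((N : ℝ) ^ ε * (EE' μ s lout)⁻¹) * ((N : ℝ) ^ ε * val11 (EE' μ s) b l σ r + e₁) + m ^ 2 * e₁ ≤
      r * ∑ D ∈ range r, phM μ s N ε e lout l l b σ D := by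
  have hE1 : ∀ t, 1 ≤ EE' μ s t := fun t => le_max_left _ _
  have hE0 : ∀ t, 0 < EE' μ s t := fun t => lt_of_lt_of_le zero_lt_one (hE1 t)
  obtain ⟨q, hq⟩ : ∃ q : ℝ, q = (N : ℝ) ^ ε := ⟨_, rfl⟩
  have hq1 : 1 ≤ q := by
    rw [hq]
    exact Real.one_le_rpow (by exact_mod_cast hN) hε.le
  have hq0 : 0 ≤ q := by linarith
  obtain ⟨o, ho⟩ : ∃ o : ℝ, o = (EE' μ s lout)⁻¹ := ⟨_, rfl⟩
  obtain ⟨p, hp⟩ : ∃ p : ℝ, p = (EE' μ s l)⁻¹ := ⟨_, rfl⟩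
  obtain ⟨β, hβ⟩ : ∃ β : ℝ, β = (EE' μ s b)⁻¹ := ⟨_, rfl⟩
  have ho0 : 0 ≤ o := by rw [ho]; exact (inv_pos.2 (hE0 _)).le
  have ho1 : o ≤ 1 := by rw [ho]; exact inv_le_one_of_one_le₀ (hE1 _)
  have hp0 : 0 ≤ p := by rw [hp]; exact (inv_pos.2 (hE0 _)).le
  have hβ0 : 0 ≤ β := by rw [hβ]; exact (inv_pos.2 (hE0 _)).le
  have hβp : β ≤ p := by
    rw [hβ, hp]
    exact inv_anti₀ (hE0 l) (max_le_max le_rfl (EE_mono hlb))
  have he0 : 0 ≤ e := le_trans (mul_nonneg (by rw [← hq]; linarith) he₁) he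
  have h1 := sum_phM (μ := μ) (s := s) (N := N) (ε := ε) (lout := lout) (l := l) he0 hbσ hσr
  have hr0 : (1 : ℝ) ≤ r := by exact_mod_cast hr
  refine le_trans ?_ (mul_le_mul_of_nonneg_left h1 (by linarith))
  have e1 : lpr μ s N ε lout [l] = (q * o) * (q * p) := by
    unfold lpr
    simp only [List.map_cons, List.map_nil, List.prod_cons, List.prod_nil, mul_one]
    rw [hq, ho, hp]
  have e2 : lpr μ s N ε lout [l, l, l] = (q * o) * ((q * p) * ((q * p) * (q * p))) := by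
    unfold lpr
    simp only [List.map_cons, List.map_nil, List.prod_cons, List.prod_nil, mul_one]
    rw [hq, ho, hp]
  have e3 : lpr μ s N ε lout [l, l, l, l] = (q * o) * ((q * p) * ((q * p) * ((q * p) * (q * p)))) := by
    unfold lpr
    simp only [List.map_cons, List.map_nil, List.prod_cons, List.prod_nil, mul_one]
    rw [hq, ho, hp]
  have ev : val11 (EE' μ s) b l σ r = r * (b * β + σ * (β * p ^ 2) + r * (β ^ 2 * p ^ 2)) := by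
    unfold val11
    rw [hβ, hp]
  rw [e1, e2, e3, ev, ← hq, ← ho]
  have g1 : q ^ 2 ≤ q ^ 4 := pow_le_pow_right₀ hq1 (by norm_num)
  have g2 : q ^ 2 ≤ q ^ 5 := pow_le_pow_right₀ hq1 (by norm_num)
  have g3 : β * p ^ 2 ≤ p ^ 3 := by
    calc β * p ^ 2 ≤ p * p ^ 2 := mul_le_mul_of_nonneg_right hβp (by positivity)
      _ = p ^ 3 := by ring
  have g4 : β ^ 2 * p ^ 2 ≤ p ^ 4 := by
    calc β ^ 2 * p ^ 2 ≤ p ^ 2 * p ^ 2 := mul_le_mul_of_nonneg_right (pow_le_pow_left₀ hβ0 hβp 2) (by positivity)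
      _ = p ^ 4 := by ring
  have hb0 : (0 : ℝ) ≤ b := Nat.cast_nonneg _
  have hσ0 : (0 : ℝ) ≤ σ := Nat.cast_nonneg _
  have t1 : q ^ 2 * o * (b * β) ≤ b * ((q * o) * (q * p)) := by
    calc q ^ 2 * o * (b * β) ≤ q ^ 2 * o * (b * p) := by gcongr
      _ = _ := by ring
  have t2 : q ^ 2 * o * (σ * (β * p ^ 2)) ≤ σ * ((q * o) * ((q * p) * ((q * p) * (q * p)))) := by
    calc q ^ 2 * o * (σ * (β * p ^ 2)) ≤ q ^ 4 * o * (σ * p ^ 3) := by gcongr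
      _ = _ := by ring
  have t3 : q ^ 2 * o * (r * (β ^ 2 * p ^ 2)) ≤ r * ((q * o) * ((q * p) * ((q * p) * ((q * p) * (q * p))))) := by
    calc q ^ 2 * o * (r * (β ^ 2 * p ^ 2)) ≤ q ^ 5 * o * (r * p ^ 4) := by gcongr
      _ = _ := by ring
  have t4 : q * o * e₁ + m ^ 2 * e₁ ≤ r * (r * e) := by
    have k1 : q * o ≤ q * 1 := mul_le_mul_of_nonneg_left ho1 hq0
    have k2 : (m : ℝ) ^ 2 ≤ r ^ 2 := pow_le_pow_left₀ (Nat.cast_nonneg _) (by exact_mod_cast hm) 2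
    have k3 : (1 : ℝ) ≤ r ^ 2 := one_le_pow₀ hr0
    calc q * o * e₁ + m ^ 2 * e₁ ≤ q * 1 * e₁ + r ^ 2 * e₁ := by gcongr
      _ ≤ r ^ 2 * (q * e₁) + r ^ 2 * e₁ := by
          have : q * 1 * e₁ ≤ r ^ 2 * (q * e₁) := by
            rw [mul_one]
            exact le_mul_of_one_le_left (mul_nonneg hq0 he₁) k3
          linarith
      _ = r ^ 2 * ((q + 1) * e₁) := by ring
      _ ≤ r ^ 2 * e := by
          rw [hq]
          exact mul_le_mul_of_nonneg_left he (by positivity)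
      _ = _ := by ring
  have t5 := mul_le_mul_of_nonneg_left (add_le_add (add_le_add t1 t2) t3) (show (0 : ℝ) ≤ r by linarith)
  calc q * o * (q * (r * (b * β + σ * (β * p ^ 2) + r * (β ^ 2 * p ^ 2))) + e₁) + m ^ 2 * e₁
      = r * (q ^ 2 * o * (b * β) + q ^ 2 * o * (σ * (β * p ^ 2)) + q ^ 2 * o * (r * (β ^ 2 * p ^ 2))) + (q * o * e₁ + m ^ 2 * e₁) := by ring
    _ ≤ r * (b * ((q * o) * (q * p)) + σ * ((q * o) * ((q * p) * ((q * p) * (q * p)))) +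
          r * ((q * o) * ((q * p) * ((q * p) * ((q * p) * (q * p)))))) + r * (r * e) := add_le_add t5 t4
    _ = _ := by ring

/-! ### The data exist -/

omit [IsProbabilityMeasure μ] in
theorem avy_le11 {ys : Finset ℕ} {Φ : ℕ → ℝ} {Y : ℝ} (hY : 0 ≤ Y) (h : ∀ y ∈ ys, Φ y ≤ Y) : avy ys Φ ≤ Y := by
  unfold avy
  rcases ys.eq_empty_or_nonempty with h0 | h0
  · subst h0
    simpa using hY
  · have hc : (0 : ℝ) < ys.card := by exact_mod_cast h0.card_pos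
    rw [inv_mul_le_iff₀ hc]
    refine (sum_le_sum h).trans (le_of_eq ?_)
    rw [sum_const, nsmul_eq_mul]

omit [IsProbabilityMeasure μ] in
/-- From one end to the mean. -/
theorem mean11 {ys S : Finset ℕ} {zf cc : ℕ} {U : ℕ → Fam N} {Y : ℝ} (hY : 0 ≤ Y)
    (h : ∀ y ∈ ys, ∑ j ∈ S, ∑ k ∈ S, pr2 μ s N (fun _ _ x z => NI zf cc x z) (U j) (U k) y ≤ Y) :
    ∑ j ∈ S, ∑ k ∈ S, avy ys (pr2 μ s N (fun _ _ x z => NI zf cc x z) (U j) (U k)) ≤ Y := by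
  have e1 : ∑ j ∈ S, ∑ k ∈ S, avy ys (pr2 μ s N (fun _ _ x z => NI zf cc x z) (U j) (U k)) =
      avy ys fun y => ∑ j ∈ S, ∑ k ∈ S, pr2 μ s N (fun _ _ x z => NI zf cc x z) (U j) (U k) y := by
    unfold avy
    rw [sum_comm (s := ys)]
    rw [mul_sum]
    refine sum_congr rfl fun j _ => ?_
    rw [sum_comm (s := ys), mul_sum]
  rw [e1]
  exact avy_le11 hY h

/-- **THE DATA OF THE DOUBLE TIES.** -/
theorem pkD11 (h : In μ s c₀ C₀ n₀) : ∀ ε θ : ℝ, 0 < ε → 0 < θ → ∃ δ κ c₂ : ℝ, 0 < δ ∧ 0 < κ ∧ 0 < c₂ ∧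
    ∃ L₀ : ℕ, 1 ≤ L₀ ∧ ∀ N : ℕ, L₀ ≤ N → ∀ ys : Finset ℕ, (∀ y ∈ ys, y ≤ N ∧ |(y : ℝ) - sl μ s * N| ≤ ((N : ℝ) ^ δ * wd' μ s N)) →
    ∀ κ' : ℝ, κ' ≤ κ → ∀ e : ℝ, Real.exp (-(N : ℝ) ^ c₂) ≤ e → PkD11 μ s ε θ κ' N ys e := by
  intro ε θ hε hθ
  obtain ⟨δ₁, κ₁, c₁, hδ₁, hκ₁, hc₁, L₁, hR⟩ := pairR (s := s) h ε θ hε hθ
  obtain ⟨δ₂, κ₂, c₂, hδ₂, hκ₂, hc₂, L₂, hL⟩ := pairL (s := s) h ε θ hε hθ
  obtain ⟨δ₃, c₃, hδ₃, hc₃, L₃, hO⟩ := out_price (s := s) h ε θ hε hθ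
  obtain ⟨δ, hδ⟩ : ∃ δ : ℝ, δ = min δ₁ (min δ₂ δ₃) := ⟨_, rfl⟩
  obtain ⟨cm, hcm⟩ : ∃ cm : ℝ, cm = min c₁ (min c₂ c₃) := ⟨_, rfl⟩
  have hcm0 : 0 < cm := by rw [hcm]; exact lt_min hc₁ (lt_min hc₂ hc₃)
  obtain ⟨c₄, hc₄, -, L₄, hX⟩ := Pool.Agent.W_7d29a1_Z.NumI77.pow_exp hcm0 (ε + 1)
  refine ⟨δ, min κ₁ κ₂, c₄, by rw [hδ]; exact lt_min hδ₁ (lt_min hδ₂ hδ₃), lt_min hκ₁ hκ₂, hc₄, L₁ + L₂ + L₃ + L₄ + 3, by omega, ?_⟩
  intro N hN ys hys κ' hκ' e he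
  have hN3 : (3 : ℝ) ≤ N := by exact_mod_cast (show 3 ≤ N by omega)
  have hN1 : (1 : ℝ) ≤ N := by linarith
  have hN0 : (0 : ℝ) < N := by linarith
  have hwd : ∀ n, 0 < wd' μ s n := fun n => lt_of_lt_of_le zero_lt_one (le_max_left _ _)
  have hE0 : ∀ t, 0 < EE' μ s t := fun t => lt_of_lt_of_le zero_lt_one (le_max_left _ _)
  have hcone : ∀ y ∈ ys, ∀ δ', δ ≤ δ' → |(y : ℝ) - sl μ s * N| ≤ ((N : ℝ) ^ δ' * wd' μ s N) := fun y hy δ' hδ' =>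
    (hys y hy).2.trans (mul_le_mul_of_nonneg_right (Real.rpow_le_rpow_of_exponent_le hN1 hδ') (hwd N).le)
  have hd1 : δ ≤ δ₁ := by rw [hδ]; exact min_le_left _ _
  have hd2 : δ ≤ δ₂ := by rw [hδ]; exact (min_le_right _ _).trans (min_le_left _ _)
  have hd3 : δ ≤ δ₃ := by rw [hδ]; exact (min_le_right _ _).trans (min_le_right _ _)
  have hκm : ∀ {t κ'' : ℝ}, t ≤ (N : ℝ) ^ κ' → min κ₁ κ₂ ≤ κ'' → t ≤ (N : ℝ) ^ κ'' := fun ht h2 =>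
    ht.trans (Real.rpow_le_rpow_of_exponent_le hN1 (hκ'.trans h2))
  obtain ⟨e₁, he₁⟩ : ∃ e₁ : ℝ, e₁ = Real.exp (-(N : ℝ) ^ cm) := ⟨_, rfl⟩
  have he₁0 : 0 ≤ e₁ := by rw [he₁]; positivity
  have x1 : Real.exp (-(N : ℝ) ^ c₁) ≤ e₁ := by
    rw [he₁, hcm]
    exact Pool.Agent.W_7d29a1_Z.NumI77.exp_mono (min_le_left _ _) (by omega)
  have x2 : Real.exp (-(N : ℝ) ^ c₂) ≤ e₁ := by
    rw [he₁, hcm]
    exact Pool.Agent.W_7d29a1_Z.NumI77.exp_mono ((min_le_right _ _).trans (min_le_left _ _)) (by omega)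
  have x3 : Real.exp (-(N : ℝ) ^ c₃) ≤ e₁ := by
    rw [he₁, hcm]
    exact Pool.Agent.W_7d29a1_Z.NumI77.exp_mono ((min_le_right _ _).trans (min_le_right _ _)) (by omega)
  have hee : ((N : ℝ) ^ ε + 1) * e₁ ≤ e := by
    refine le_trans ?_ ((hX N (by omega)).trans he)
    rw [← he₁]
    refine mul_le_mul_of_nonneg_right ?_ he₁0
    rw [Real.rpow_add hN0, Real.rpow_one]
    have k1 : 1 ≤ (N : ℝ) ^ ε := Real.one_le_rpow hN1 hε.le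
    nlinarith
  have he0 : 0 ≤ e := (Real.exp_pos _).le.trans he
  -- the end of both parts
  have fin : ∀ (b l σ r zf cc : ℕ) (S : Finset ℕ) (a : ℕ), l ≤ b → b ≤ σ → σ ≤ r → 1 ≤ r → zf ≤ cc → cc ≤ N →
      (N : ℝ) ^ θ ≤ ((cc - zf : ℕ) : ℝ) → (∀ j ∈ S, a ≤ j ∧ j < a + r) → ∀ G : ℕ → ℕ → Env → Finset ℕ → Prop,
      (∀ y ∈ ys, ∀ j ∈ S, Ms (G y j)) → (∀ y ∈ ys, ∀ j ∈ S, OffRows (Ioc zf N) (G y j)) →
      (∀ y ∈ ys, ∑ j ∈ S, ∑ k ∈ S, P1 μ s N y (fun η T => G y j η T ∧ G y k η T) ≤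
        ENNReal.ofReal ((N : ℝ) ^ ε * val11 (EE' μ s) b l σ r) + ENNReal.ofReal e₁) →
      ∀ U : ℕ → Fam N, (∀ j ∈ S, ∀ y ω x, 0 ≤ U j y ω x) → (∀ j ∈ S, ∀ y ω x, U j y ω x ≤ 1) →
      (∀ j ∈ S, ∀ y ∈ ys, ∀ ω x, U j y ω x ≠ 0 → G y j ω.1 x.1) →
      ∑ j ∈ S, ∑ k ∈ S, avy ys (pr2 μ s N (fun _ _ x z => NI zf cc x z) (U j) (U k)) ≤
        r * ∑ D ∈ range r, phM μ s N ε e (cc - zf) l l b σ D := by
    intro b l σ r zf cc S a hlb hbσ hσr hr1 hzc hcN hlo hS G hG hoff hsum U U0 U1 hU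
    have hv0 : 0 ≤ val11 (EE' μ s) b l σ r := by
      unfold val11
      have := hE0 b
      have := hE0 l
      positivity
    have hcard : S.card ≤ r := by
      have h6 : S.card ≤ (Ico a (a + r)).card := card_le_card fun j hj => mem_Ico.2 (hS j hj)
      rwa [Nat.card_Ico, Nat.add_sub_cancel_left] at h6
    have hnum := numD11 (μ := μ) (s := s) (N := N) (lout := cc - zf) (m := S.card) (by omega) hε hlb hbσ hσr hr1 hcard he₁0 hee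
    have hA0 : 0 ≤ (N : ℝ) ^ ε * (EE' μ s (cc - zf))⁻¹ := mul_nonneg (Real.rpow_nonneg hN0.le _) (inv_pos.2 (hE0 _)).le
    have hB0 : 0 ≤ (N : ℝ) ^ ε * val11 (EE' μ s) b l σ r := mul_nonneg (Real.rpow_nonneg hN0.le _) hv0
    refine (mean11 ?_ fun y hy => ?_).trans hnum
    · exact add_nonneg (mul_nonneg hA0 (add_nonneg hB0 he₁0)) (mul_nonneg (sq_nonneg _) he₁0)
    · refine mod_core (hys y hy).1 hA0 he₁0 (add_nonneg hB0 he₁0) (fun G' hG' hoff' => ?_) (hG y hy) (hoff y hy) ?_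
        (fun j hj ω x => U0 j hj y ω x) (fun j hj ω x => U1 j hj y ω x) (fun j hj ω x => hU j hj y hy ω x)
      · exact (hO N (by omega) y (hys y hy).1 (hcone y hy _ hd3) zf cc hzc hcN hlo G' hG' hoff').trans (add_le_add le_rfl x3)
      · rw [ENNReal.ofReal_add hB0 he₁0]
        exact hsum y hy
  refine ⟨?_, ?_⟩
  · intro b l σ n₁ r a zf cc hb hl hlb hbσ hσr hrN hn₁ hzc hcN hlo S c u v co ou z G hS U U0 U1 hU
    have hb1 : 1 ≤ b := by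
      have k1 : (1 : ℝ) ≤ (N : ℝ) ^ θ := Real.one_le_rpow hN1 hθ.le
      exact_mod_cast k1.trans hb
    refine fin b l σ r zf cc S a hlb hbσ hσr (by omega) hzc hcN hlo (fun j hj => (hS j hj).1)
      (fun y j η T => MicG μ s N y b n₁ c u v ((N : ℝ) ^ κ') j η T ∧ OwnG μ s N y b co ou z ((N : ℝ) ^ κ') j η T)
      (fun y _ j _ => ms_and micG_ms ownG_ms) (fun y _ j hj => ?_) (fun y hy => ?_) U U0 U1 hU
    · have g1 := G.own j hj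
      have g2 := (hS j hj).2
      exact off_and (micG_off G hj (by omega)) (ownG_off G hj g2)
    · refine (hR N (by omega) N (by omega) le_rfl y (hys y hy).1 (hcone y hy _ hd1) b l σ n₁ hb hl hlb hbσ (by omega)
        (hκm hn₁ (min_le_left _ _)) _ (hκm le_rfl (min_le_left _ _)) S c u v co ou z G a r (by omega) hrN (fun j hj => (hS j hj).1)).trans ?_
      exact add_le_add le_rfl (ENNReal.ofReal_le_ofReal x1)
  · intro b l σ n₁ r a zf cc hb hl hlb hbσ hσr hrN hn₁ hzc hcN hlo S d u v z ov o G hS U U0 U1 hU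
    have hb1 : 1 ≤ b := by
      have k1 : (1 : ℝ) ≤ (N : ℝ) ^ θ := Real.one_le_rpow hN1 hθ.le
      exact_mod_cast k1.trans hb
    refine fin b l σ r zf cc S a hlb hbσ hσr (by omega) hzc hcN hlo (fun j hj => (hS j hj).1)
      (fun y j η T => MicGL μ s N y b n₁ d u v ((N : ℝ) ^ κ') j η T ∧ OwnGL μ s N y b z ov o ((N : ℝ) ^ κ') j η T)
      (fun y _ j _ => ms_and micGL_ms ownGL_ms) (fun y _ j hj => ?_) (fun y hy => ?_) U U0 U1 hU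
    · obtain ⟨g2, g3, g4⟩ := hS j hj
      refine off_and ?_ ?_
      · intro η η' S' h'
        refine exists_congr fun n => and_congr_right fun hn => ?_
        have h1 := G.win j hj n (mem_range.1 hn)
        have h2 := G.own j hj
        exact hy_off (by omega) (by omega) _ _ (fun i hi => Or.inr (by rw [mem_Ioc] at hi; omega)) η η' S' h'
      · have h2 := G.own j hj
        exact hy_off (by omega) (by omega) _ _ (fun i hi => Or.inr (by rw [mem_Ioc] at hi; omega))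
    · refine (hL N (by omega) N (by omega) le_rfl y (hys y hy).1 (hcone y hy _ hd2) b l σ n₁ hb hl hlb hbσ (by omega)
        (hκm hn₁ (min_le_right _ _)) _ (hκm le_rfl (min_le_right _ _)) S d u v z ov o G a r (by omega) hrN (fun j hj => (hS j hj).1)).trans ?_
      exact add_le_add le_rfl (ENNReal.ofReal_le_ofReal x2)

end

end Pool.Agent.W_7d29a1_C0.Dg11
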