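import Pool.Agent.W_7d29a1_C0.DgA11

/-!
MP_7d29a1_pr, [C0], helper11: DOUBLE TIES, SUMMED OVER A SET OF ROWS, RIGHT END. `GeoR`: the geometry of the rows. `sumJ`: `siteG` summed over
the stretches and over the windows of the micro tie: the sum over a set of rows of `[a, a + w)` of the probability of (micro tie and own
tie at the row), given every event which does not see the rows behind `m ≤ j - b`, is at most `L ^ ε w / (E b E l)`.
-/

set_option autoImplicit false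

namespace Pool.Agent.W_7d29a1_C0.Dg11

open MeasureTheory ProbabilityTheory Filter Topology Finset
open Pool.Agent.W_7d29a1_F Pool.Agent.W_7d29a1_X Pool.Agent.W_7d29a1_h4g Pool.Agent.W_7d29a1_H
open Pool.Agent.W_7d29a1_HS (In wd md)
open Pool.Agent.W_7d29a1_HZ Pool.Agent.W_7d29a1_HZ.R72 Pool.Agent.W_7d29a1_Z.Asm72
open Pool.Agent.W_7d29a1_HZ.Z86
open Pool.Agent.W_7d29a1_C0.P86
open Pool.Agent.W_7d29a1_C0.P15
open Pool.Agent.W_7d29a1_C0.P3 (Hy hy_ms hy_off hy_mono hy_mono_x)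
open scoped ENNReal

/-- The number of the stretches. -/
theorem card_str {J : Finset ℕ} {a w d : ℕ} (hJ : ∀ j ∈ J, a ≤ j ∧ j < a + w) : (J.image (· / d)).card ≤ w / d + 2 := by
  rcases Nat.eq_zero_or_pos d with hd | hd
  · subst hd
    have h1 : J.image (· / 0) ⊆ {0} := by
      intro t ht
      obtain ⟨j, -, rfl⟩ := mem_image.1 ht
      simp
    have := card_le_card h1
    rw [card_singleton] at this
    omega
  have h1 : J.image (· / d) ⊆ Icc (a / d) ((a + w) / d) := by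
    intro t ht
    obtain ⟨j, hj, rfl⟩ := mem_image.1 ht
    have h2 := hJ j hj
    exact mem_Icc.2 ⟨Nat.div_le_div_right h2.1, Nat.div_le_div_right h2.2.le⟩
  have h2 := card_le_card h1
  rw [Nat.card_Icc] at h2
  have h3 : (a + w) / d ≤ a / d + w / d + 1 := by
    rw [Nat.div_le_iff_le_mul_add_pred hd]
    have h4 := Nat.div_add_mod a d
    have h5 := Nat.div_add_mod w d
    have h6 := Nat.mod_lt a hd
    have h7 := Nat.mod_lt w hd
    have h8 : d * (a / d + w / d + 1) = d * (a / d) + d * (w / d) + d := by ring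
    omega
  generalize w / d = W at *
  generalize a / d = A at *
  generalize (a + w) / d = X at *
  omega

variable {μ : Measure ℝ} {s : ℝ} {N : ℕ}

/-! ### The events of a row -/

/-- The micro tie, right end: one of `n₁` windows. -/
def MicG (μ : Measure ℝ) (s : ℝ) (N y b n₁ : ℕ) (c : ℕ → ℕ) (u v : ℕ → ℕ → ℕ) (x : ℝ) (j : ℕ) (η : Env) (S : Finset ℕ) : Prop :=
  ∃ n ∈ range n₁, Hy μ s N y (c j) (j + b) (NoMeet (u j n) (v j n)) x η S

/-- The own tie, right end. -/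
def OwnG (μ : Measure ℝ) (s : ℝ) (N y b : ℕ) (co ou z : ℕ → ℕ) (x : ℝ) (j : ℕ) (η : Env) (S : Finset ℕ) : Prop :=
  Hy μ s N y (co j) (z j) (NoMeet (ou j) (j + b)) x η S

/-- The geometry of the rows, right end: the windows of the micro ties, the own blocks. -/
structure GeoR (N b l σ n₁ : ℕ) (S : Finset ℕ) (c : ℕ → ℕ) (u v : ℕ → ℕ → ℕ) (co ou z : ℕ → ℕ) : Prop where
  win : ∀ j ∈ S, ∀ n < n₁, c j ≤ u j n ∧ j ≤ u j n + b ∧ v j n ≤ j + b / 2 ∧ u j n + l ≤ v j n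
  own : ∀ j ∈ S, co j ≤ j ∧ ou j + b / 4 ≤ j + b ∧ j + b ≤ z j ∧ z j ≤ N
  bj : ∀ j ∈ S, b ≤ j
  blk : ∀ j ∈ S, ∀ k ∈ S, k ≤ j → j / σ ≠ k / σ → z k + b ≤ j

variable {b l σ n₁ : ℕ} {S : Finset ℕ} {c : ℕ → ℕ} {u v : ℕ → ℕ → ℕ} {co ou z : ℕ → ℕ} {x : ℝ} {y : ℕ}

theorem micG_ms {j : ℕ} : Ms (MicG μ s N y b n₁ c u v x j) := ms_ex (range n₁) fun _ => hy_ms _ _

theorem ownG_ms {j : ℕ} : Ms (OwnG μ s N y b co ou z x j) := hy_ms _ _

theorem micG_off (G : GeoR N b l σ n₁ S c u v co ou z) {k m : ℕ} (hk : k ∈ S) (hm : k + b ≤ m) :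
    OffRows (Ioc m N) (MicG μ s N y b n₁ c u v x k) := by
  intro η η' S' h
  refine exists_congr fun n => and_congr_right fun hn => ?_
  have h1 := G.win k hk n (mem_range.1 hn)
  have h2 := G.own k hk
  exact hy_off (by omega) (by omega) _ x (fun j hj => Or.inr (by rw [mem_Ioc] at hj; omega)) η η' S' h

theorem ownG_off (G : GeoR N b l σ n₁ S c u v co ou z) {k m : ℕ} (hk : k ∈ S) (hm : z k ≤ m) :
    OffRows (Ioc m N) (OwnG μ s N y b co ou z x k) := by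
  have h2 := G.own k hk
  exact hy_off (by omega) (by omega) _ x (fun j hj => Or.inr (by rw [mem_Ioc] at hj; omega))

variable [IsProbabilityMeasure μ] {c₀ C₀ : ℝ} {n₀ : ℕ}

/-! ### Sums over sets of rows -/

/-- **THE SUM OVER A SET OF ROWS** in `[a, a + w)`, `w ≥ b`, given every event which does not see the rows behind `m ≤ j - b`. -/
theorem sumJ (h : In μ s c₀ C₀ n₀) : ∀ ε θ : ℝ, 0 < ε → 0 < θ → ∃ δ κ c₂ : ℝ, 0 < δ ∧ 0 < κ ∧ 0 < c₂ ∧ ∃ L₀ : ℕ, ∀ L : ℕ, L₀ ≤ L →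
    ∀ N : ℕ, L ≤ 16 * N → N ≤ L → ∀ y : ℕ, y ≤ N → |(y : ℝ) - sl μ s * N| ≤ ((L : ℝ) ^ δ * wd' μ s N) →
    ∀ b l σ n₁ : ℕ, (L : ℝ) ^ θ ≤ b → (L : ℝ) ^ θ ≤ l → l ≤ b → (n₁ : ℝ) ≤ (L : ℝ) ^ κ → ∀ x : ℝ, x ≤ (L : ℝ) ^ κ →
    ∀ (S : Finset ℕ) (c : ℕ → ℕ) (u v : ℕ → ℕ → ℕ) (co ou z : ℕ → ℕ), GeoR N b l σ n₁ S c u v co ou z →
    ∀ (a w m : ℕ) (J : Finset ℕ), J ⊆ S → b ≤ w → w ≤ N → (∀ j ∈ J, (a ≤ j ∧ j < a + w) ∧ m + b ≤ j) →
    ∀ F : Env → Finset ℕ → Prop, Ms F → OffRows (Ioc m N) F →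
    ∑ j ∈ J, P1 μ s N y (fun η S => F η S ∧ MicG μ s N y b n₁ c u v x j η S ∧ OwnG μ s N y b co ou z x j η S) ≤
      ENNReal.ofReal ((L : ℝ) ^ ε * (w * (EE' μ s b)⁻¹ * (EE' μ s l)⁻¹)) * P1 μ s N y F + ENNReal.ofReal (Real.exp (-(L : ℝ) ^ c₂)) := by
  intro ε θ hε hθ
  obtain ⟨α, K, -, -, hK, hE⟩ := EE'_pow h
  have hE0 : ∀ t, 0 < EE' μ s t := fun t => lt_of_lt_of_le zero_lt_one (le_max_left _ _)
  obtain ⟨δ, κ₁, c₁, hδ, hκ₁, hc₁, L₁, hP⟩ := siteG h (ε / 4) θ (by positivity) hθ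
  obtain ⟨c₂, hc₂, -, L₂, hX⟩ := Pool.Agent.W_7d29a1_Z.NumI77.pow_exp hc₁ 4
  obtain ⟨L₃, hL₃⟩ := Pool.Agent.W_7d29a1_Z.NumI77.large hθ 1000
  obtain ⟨L₄, hL₄⟩ := Pool.Agent.W_7d29a1_Z.NumI77.large (show 0 < ε / 4 by positivity) (1000 * K)
  refine ⟨δ, min κ₁ (min (ε / 4) 1), c₂, hδ, lt_min hκ₁ (lt_min (by positivity) one_pos), hc₂, L₁ + L₂ + L₃ + L₄ + 1000, ?_⟩
  intro L hL N hLN hNL y hyN hyc b l σ n₁ hbL hlL hlb hn₁ x hx S c u v co ou z G a w m J hJS hbw hwN hJ F hF hoff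
  have hL100 : (1000 : ℝ) ≤ L := by exact_mod_cast (show 1000 ≤ L by omega)
  have hLR : (1 : ℝ) ≤ L := by linarith
  have hL0 : (0 : ℝ) < L := by linarith
  obtain ⟨-, hb1000, -⟩ := hL₃ L (by omega)
  obtain ⟨-, hK1000, -⟩ := hL₄ L (by omega)
  have hb : 1000 ≤ b := by exact_mod_cast hb1000.trans hbL
  have hl : 1000 ≤ l := by exact_mod_cast hb1000.trans hlL
  have hn₁' : (n₁ : ℝ) ≤ (L : ℝ) ^ (ε / 4) := hn₁.trans (Real.rpow_le_rpow_of_exponent_le hLR ((min_le_right _ _).trans (min_le_left _ _)))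
  have hn₁1 : (n₁ : ℝ) ≤ L := by
    refine hn₁.trans ((Real.rpow_le_rpow_of_exponent_le hLR ((min_le_right _ _).trans (min_le_right _ _))).trans_eq ?_)
    exact Real.rpow_one _
  have hx' : x ≤ (L : ℝ) ^ κ₁ := hx.trans (Real.rpow_le_rpow_of_exponent_le hLR (min_le_left _ _))
  obtain ⟨R, hR⟩ : ∃ R : ℝ, R = (L : ℝ) ^ (ε / 4) * ((b * (EE' μ s b)⁻¹ + (b / 64 : ℕ) * (EE' μ s l)⁻¹) * (EE' μ s b)⁻¹) := ⟨_, rfl⟩
  have hbi := (inv_pos.2 (hE0 b)).le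
  have hli := (inv_pos.2 (hE0 l)).le
  have hR0 : 0 ≤ R := by rw [hR]; positivity
  obtain ⟨p, hp⟩ : ∃ p : ℝ≥0∞, p = ENNReal.ofReal (Real.exp (-(L : ℝ) ^ c₁)) := ⟨_, rfl⟩
  -- one stretch, one window
  have hst : ∀ τ n, n ∈ range n₁ → ∑ j ∈ J with j / (b / 64) = τ, P1 μ s N y (fun η S => F η S ∧
      Hy μ s N y (c j) (j + b) (NoMeet (u j n) (v j n)) x η S ∧ OwnG μ s N y b co ou z x j η S) ≤ ENNReal.ofReal R * P1 μ s N y F + p := by
    intro τ n hn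
    rcases (J.filter fun j => j / (b / 64) = τ).eq_empty_or_nonempty with h0 | h0
    · rw [h0, sum_empty]
      exact zero_le
    obtain ⟨j₁, hj₁, hmax⟩ := exists_max_image _ id h0
    obtain ⟨j₂, hj₂, hmin⟩ := exists_min_image _ id h0
    have hb64 : 0 < b / 64 := by omega
    have key : ∀ j ∈ J.filter (fun j => j / (b / 64) = τ), τ * (b / 64) ≤ j ∧ j < τ * (b / 64) + b / 64 := by
      intro j hj
      have g1 := (mem_filter.1 hj).2
      have g2 := Nat.div_add_mod j (b / 64)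
      have g3 := Nat.mod_lt j hb64
      rw [g1] at g2
      have g4 : b / 64 * τ = τ * (b / 64) := mul_comm _ _
      omega
    have hj₁S := hJS (mem_filter.1 hj₁).1
    have h1 := hP L (by omega) N hLN hNL y hyN hyc b l m (j₁ + b) N hbL hlL (by have := G.own j₁ hj₁S; omega) le_rfl
      (J.filter fun j => j / (b / 64) = τ) (fun j hj => by
        have g1 := key j hj
        have g2 := key j₁ hj₁
        have g3 : j ≤ j₁ := hmax j hj
        omega) c (fun j => u j n) (fun j => v j n) co ou z (fun j hj => by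
        have g0 := (mem_filter.1 hj).1
        have g1 := G.win j (hJS g0) n (mem_range.1 hn)
        have g2 := hJ j g0
        refine ⟨g1.1, ?_, g1.2.2.1, g1.2.2.2⟩
        omega) (fun j hj => G.own j (hJS (mem_filter.1 hj).1)) x hx' F hF hoff
    rw [← hp] at h1
    refine h1.trans (add_le_add (mul_le_mul' (ENNReal.ofReal_le_ofReal ?_) le_rfl) le_rfl)
    have h2 : (J.filter fun j => j / (b / 64) = τ).card ≤ b / 64 := by
      have g1 : (J.filter fun j => j / (b / 64) = τ) ⊆ Ico (τ * (b / 64)) (τ * (b / 64) + b / 64) := fun j hj => mem_Ico.2 (key j hj)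
      have g2 := card_le_card g1
      rw [Nat.card_Ico] at g2
      omega
    have h3 : (((J.filter fun j => j / (b / 64) = τ).card : ℕ) : ℝ) ≤ ((b / 64 : ℕ) : ℝ) := by exact_mod_cast h2
    rw [hR]
    gcongr
  -- all windows
  have hwin : ∀ j ∈ J, P1 μ s N y (fun η S => F η S ∧ MicG μ s N y b n₁ c u v x j η S ∧ OwnG μ s N y b co ou z x j η S) ≤
      ∑ n ∈ range n₁, P1 μ s N y (fun η S => F η S ∧
        Hy μ s N y (c j) (j + b) (NoMeet (u j n) (v j n)) x η S ∧ OwnG μ s N y b co ou z x j η S) := by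
    intro j _
    refine le_trans (A12.P1_mono fun η S hev => ?_) (A12.P1_exists (μ := μ) (s := s) (N := N) (y := y) (range n₁) fun n η S => F η S ∧
        Hy μ s N y (c j) (j + b) (NoMeet (u j n) (v j n)) x η S ∧ OwnG μ s N y b co ou z x j η S)
    obtain ⟨g1, ⟨n, hn, g2⟩, g3⟩ := hev
    exact ⟨n, hn, g1, g2, g3⟩
  refine (sum_le_sum hwin).trans ?_
  rw [sum_comm]
  have hall : ∀ n ∈ range n₁, ∑ j ∈ J, P1 μ s N y (fun η S => F η S ∧
      Hy μ s N y (c j) (j + b) (NoMeet (u j n) (v j n)) x η S ∧ OwnG μ s N y b co ou z x j η S) ≤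
      (((J.image (· / (b / 64))).card : ℕ) : ℝ≥0∞) * (ENNReal.ofReal R * P1 μ s N y F + p) := by
    intro n hn
    rw [← sum_fiberwise_of_maps_to (g := fun j => j / (b / 64)) (t := J.image (· / (b / 64))) fun j hj => mem_image_of_mem _ hj]
    refine (sum_le_sum fun τ _ => hst τ n hn).trans (le_of_eq ?_)
    rw [sum_const, nsmul_eq_mul]
  refine (sum_le_sum hall).trans ?_
  rw [sum_const, card_range, nsmul_eq_mul]
  -- the numbers
  have hcs := card_str (d := b / 64) fun j hj => (hJ j hj).1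
  obtain ⟨M, hM⟩ : ∃ M : ℝ, M = ((J.image (· / (b / 64))).card : ℕ) := ⟨_, rfl⟩
  have hb0 : (0 : ℝ) < b := by exact_mod_cast (show 0 < b by omega)
  have hM1 : M * b ≤ 200 * w := by
    have g1 : b ≤ 70 * (b / 64) := by omega
    have g2 : w / (b / 64) * (b / 64) ≤ w := Nat.div_mul_le_self _ _
    have g3 : (J.image (· / (b / 64))).card * b ≤ 200 * w := by
      calc (J.image (· / (b / 64))).card * b ≤ (w / (b / 64) + 2) * b := Nat.mul_le_mul_right _ hcs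
        _ = w / (b / 64) * b + 2 * b := by ring
        _ ≤ w / (b / 64) * (70 * (b / 64)) + 2 * b := by gcongr
        _ = 70 * (w / (b / 64) * (b / 64)) + 2 * b := by ring
        _ ≤ 70 * w + 2 * b := by gcongr
        _ ≤ 200 * w := by omega
    rw [hM]
    exact_mod_cast g3
  have hM0 : 0 ≤ M := by rw [hM]; positivity
  have hM2 : M ≤ 200 * L := by
    have g1 : (w : ℝ) ≤ L := by exact_mod_cast hwN.trans hNL
    have g2 : (1 : ℝ) ≤ b := by exact_mod_cast (show 1 ≤ b by omega)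
    nlinarith
  have e1 : (((J.image (· / (b / 64))).card : ℕ) : ℝ≥0∞) = ENNReal.ofReal M := by
    rw [hM, ENNReal.ofReal_natCast]
  have e2 : (n₁ : ℝ≥0∞) = ENNReal.ofReal n₁ := by rw [ENNReal.ofReal_natCast]
  have hn0 : (0 : ℝ) ≤ n₁ := Nat.cast_nonneg _
  have e3 : ENNReal.ofReal n₁ * (ENNReal.ofReal M * (ENNReal.ofReal R * P1 μ s N y F + p)) =
      ENNReal.ofReal (n₁ * M * R) * P1 μ s N y F + ENNReal.ofReal (n₁ * M * Real.exp (-(L : ℝ) ^ c₁)) := by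
    rw [ENNReal.ofReal_mul (mul_nonneg hn0 hM0), ENNReal.ofReal_mul hn0, ENNReal.ofReal_mul (mul_nonneg hn0 hM0), ENNReal.ofReal_mul hn0,
      hp]
    ring
  rw [e1, e2, e3]
  refine add_le_add (mul_le_mul' (ENNReal.ofReal_le_ofReal ?_) le_rfl) (ENNReal.ofReal_le_ofReal ?_)
  · -- the main term
    have g1 : ((b / 64 : ℕ) : ℝ) ≤ b := by exact_mod_cast Nat.div_le_self b 64
    have g2 : (EE' μ s b)⁻¹ ≤ K * (EE' μ s l)⁻¹ := by
      rw [← div_eq_mul_inv, le_div_iff₀ (hE0 l), inv_mul_le_iff₀ (hE0 b)]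
      have := (hE l b (by omega) hlb).1
      linarith
    have g3 : R ≤ (L : ℝ) ^ (ε / 4) * (b * (2 * K * (EE' μ s l)⁻¹) * (EE' μ s b)⁻¹) := by
      rw [hR]
      refine mul_le_mul_of_nonneg_left (mul_le_mul_of_nonneg_right ?_ hbi) (by positivity)
      calc (b : ℝ) * (EE' μ s b)⁻¹ + ((b / 64 : ℕ) : ℝ) * (EE' μ s l)⁻¹ ≤ b * (K * (EE' μ s l)⁻¹) + b * (1 * (EE' μ s l)⁻¹) := by
            rw [one_mul]
            exact add_le_add (mul_le_mul_of_nonneg_left g2 hb0.le) (mul_le_mul_of_nonneg_right g1 hli)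
        _ ≤ b * (K * (EE' μ s l)⁻¹) + b * (K * (EE' μ s l)⁻¹) := by gcongr
        _ = _ := by ring
    have hK0 : (0 : ℝ) ≤ K := by linarith
    have hq : (L : ℝ) ^ ε = (L : ℝ) ^ (ε / 4) * (L : ℝ) ^ (ε / 4) * (L : ℝ) ^ (ε / 4) * (L : ℝ) ^ (ε / 4) := by
      rw [← Real.rpow_add hL0, ← Real.rpow_add hL0, ← Real.rpow_add hL0]
      congr 1
      ring
    have hq0 : 0 ≤ (L : ℝ) ^ (ε / 4) := by positivity
    have hq1 : 1 ≤ (L : ℝ) ^ (ε / 4) := Real.one_le_rpow hLR (by positivity)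
    calc (n₁ : ℝ) * M * R ≤ (L : ℝ) ^ (ε / 4) * M * ((L : ℝ) ^ (ε / 4) * (b * (2 * K * (EE' μ s l)⁻¹) * (EE' μ s b)⁻¹)) := by gcongr
      _ = (L : ℝ) ^ (ε / 4) * (L : ℝ) ^ (ε / 4) * (2 * K) * (M * b) * ((EE' μ s b)⁻¹ * (EE' μ s l)⁻¹) := by ring
      _ ≤ (L : ℝ) ^ (ε / 4) * (L : ℝ) ^ (ε / 4) * (2 * K) * (200 * w) * ((EE' μ s b)⁻¹ * (EE' μ s l)⁻¹) := by gcongr
      _ = (L : ℝ) ^ (ε / 4) * (L : ℝ) ^ (ε / 4) * (400 * K) * 1 * (w * (EE' μ s b)⁻¹ * (EE' μ s l)⁻¹) := by ring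
      _ ≤ (L : ℝ) ^ (ε / 4) * (L : ℝ) ^ (ε / 4) * (L : ℝ) ^ (ε / 4) * (L : ℝ) ^ (ε / 4) * (w * (EE' μ s b)⁻¹ * (EE' μ s l)⁻¹) := by
          gcongr
          linarith
      _ = (L : ℝ) ^ ε * (w * (EE' μ s b)⁻¹ * (EE' μ s l)⁻¹) := by rw [← hq]
  · have g1 := hX L (by omega)
    have e4 : (L : ℝ) ^ (4 : ℝ) = (L : ℝ) ^ 4 := by
      rw [← Real.rpow_natCast]
      norm_num
    rw [e4] at g1
    refine le_trans ?_ g1
    refine mul_le_mul_of_nonneg_right ?_ (Real.exp_pos _).le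
    have g5 : (200 : ℝ) ≤ (L : ℝ) ^ 2 := by nlinarith
    calc (n₁ : ℝ) * M ≤ L * (200 * L) := by gcongr
      _ = 200 * (L : ℝ) ^ 2 := by ring
      _ ≤ (L : ℝ) ^ 2 * (L : ℝ) ^ 2 := mul_le_mul_of_nonneg_right g5 (by positivity)
      _ = (L : ℝ) ^ 4 := by ring

end Pool.Agent.W_7d29a1_C0.Dg11
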