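import Pool.Agent.W_7d29a1_C0.PrM14

/-!
CURV0 (MP_7d29a1_pr), leaf E5.8, helper14: THE TERM (Dgam) OF THE ROW INEQUALITY, pathwise. `tie_le14`: the tie of the response at all the
tilts is at most twice the robust event at the outer weights plus a small number; `dg_red14`: own pair and tie: both told at one path `y` of
the fibre: `Om` = the path `y` has an own replica, with a mass, which misses it on `[o0, o1]`.
-/

set_option autoImplicit false
set_option linter.unusedSectionVars false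
set_option linter.unusedVariables false

namespace Pool.W7d29a1.C0.PM14

open Finset Filter Topology MeasureTheory
open Pool.Agent.W_7d29a1_F Pool.Agent.W_7d29a1_C0 Pool.W7d29a1.C0 Pool.W7d29a1.C0.VT31
open Pool.Agent.W_7d29a1_C0.Swap57 Pool.Agent.W_7d29a1_C0.Mod92
open Pool.W7d29a1.C0.R43 (Tau mI mI_nonneg)
open Pool.W7d29a1.C0.S1 (i1 i1_nonneg i1_of i1_not cE_const)
open Pool.W7d29a1.C0.K1 (cE_cE_le)
open Pool.W7d29a1.C0.L38

noncomputable section

section Mdl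

variable {Q : Finset (Finset ℕ)} [SwQ Q] [Nonempty (Px Q)] {w wi : Px Q → ℝ} {D : ℝ}

/-- The own event of a path of the fibre: a replica with a mass which misses it on `[o0, o1]`. -/
def Om (w : Px Q → ℝ) (p : Px Q → Finset ℕ × ℕ) (o0 o1 : ℕ) (m : ℝ) (y : Px Q) : ℝ := i1 (Real.exp (-(5 * m)) ≤ mI w p o0 o1 y)

theorem Om_nonneg (w : Px Q → ℝ) (p : Px Q → Finset ℕ × ℕ) (o0 o1 : ℕ) (m : ℝ) (y : Px Q) : 0 ≤ Om w p o0 o1 m y := i1_nonneg _

theorem Om_le_one (w : Px Q → ℝ) (p : Px Q → Finset ℕ × ℕ) (o0 o1 : ℕ) (m : ℝ) (y : Px Q) : Om w p o0 o1 m y ≤ 1 := i1_le_one _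

/-- The own mass of a path at the inner weights. -/
theorem own_le14 (hD : ∀ x, |wi x - w x| ≤ D) (hD0 : 0 ≤ D) (p : Px Q → Finset ℕ × ℕ) {χ : Px Q → Px Q → ℝ} {o0 o1 : ℕ}
    (h0 : ∀ b c, 0 ≤ χ b c) (h1 : ∀ b c, χ b c ≤ NI o0 o1 b c) (m : ℝ) (y : Px Q) :
    cE wi p (χ y) y ≤ Om w p o0 o1 m y + Real.exp (2 * D) * Real.exp (-(5 * m)) := by
  have e1 : cE wi p (χ y) y ≤ 1 := by
    have h := cE_mono wi p (f := χ y) (g := fun _ => (1 : ℝ)) (fun z => (h1 y z).trans (NI_le_one _ _ _ _)) y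
    rwa [cE_const] at h
  have e2 : cE wi p (χ y) y ≤ Real.exp (2 * D) * mI w p o0 o1 y := by
    have e3 : wi = w + fun x => wi x - w x := by
      funext x
      rw [Pi.add_apply]
      ring
    have h2 := R43.cE_tilt (w := w) (A := fun x => wi x - w x) hD p (f := NI o0 o1 y) (fun x => NI_nonneg _ _ _ _) y
    rw [← e3] at h2
    exact (cE_mono wi p (fun z => h1 y z) y).trans h2
  unfold Om
  by_cases h : Real.exp (-(5 * m)) ≤ mI w p o0 o1 y
  · rw [i1_of h]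
    have : 0 ≤ Real.exp (2 * D) * Real.exp (-(5 * m)) := by positivity
    linarith
  · rw [i1_not h, zero_add]
    exact e2.trans (mul_le_mul_of_nonneg_left (not_le.1 h).le (Real.exp_pos _).le)

/-- The pair mass at the inner weights. -/
theorem pair_le14 (hD : ∀ x, |wi x - w x| ≤ D) (q : Px Q → Finset ℕ × ℕ) (U V : ℕ) (m : ℝ) (x : Px Q) :
    cE2 wi q (NI U V) x x ≤ i1 (Tau w q U V m x) + Real.exp (4 * D) * Real.exp (-(5 * m)) :=
  hb_le14 hD q (fun b c => NI_nonneg U V b c) (fun b c => le_rfl) m x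

/-- **The tie of the response over all the tilts.** -/
theorem tie_le14 {wt : ℝ → Px Q → ℝ} (hD : ∀ t, |t| ≤ 1 → ∀ x, |wt t x - w x| ≤ D) (q : Px Q → Finset ℕ × ℕ) (U V : ℕ) (m : ℝ) (x : Px Q) :
    ∫ t in (-1 : ℝ)..1, cE2 (wt t) q (NI U V) x x ≤ 2 * i1 (Tau w q U V m x) + 2 * (Real.exp (4 * D) * Real.exp (-(5 * m))) := by
  have h := intervalIntegral.norm_integral_le_of_norm_le_const (a := (-1 : ℝ)) (b := 1)
    (f := fun t => cE2 (wt t) q (NI U V) x x) (C := i1 (Tau w q U V m x) + Real.exp (4 * D) * Real.exp (-(5 * m))) fun t ht => by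
      rw [Set.uIoc_of_le (by norm_num : (-1 : ℝ) ≤ 1)] at ht
      rw [Real.norm_eq_abs, abs_of_nonneg (cE2_nonneg _ _ (fun b c => NI_nonneg U V b c) x x)]
      exact pair_le14 (hD t (abs_le.2 ⟨ht.1.le, ht.2⟩)) q U V m x
  have e : |(1 : ℝ) - -1| = 2 := by norm_num
  rw [Real.norm_eq_abs, e] at h
  have h2 := (le_abs_self _).trans h
  linarith

/-- Own pair and a factor at one of the two: both told at this one. -/
theorem dt_le14 (hD : ∀ x, |wi x - w x| ≤ D) (hD0 : 0 ≤ D) (p : Px Q → Finset ℕ × ℕ) {χ : Px Q → Px Q → ℝ} {o0 o1 : ℕ}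
    (h0 : ∀ b c, 0 ≤ χ b c) (h1 : ∀ b c, χ b c ≤ NI o0 o1 b c) (m : ℝ) {F G : Px Q → ℝ} {C e : ℝ} (hC : 0 ≤ C) (he : 0 ≤ e)
    (hF0 : ∀ y, 0 ≤ F y) (hG0 : ∀ y, 0 ≤ G y) (hG1 : ∀ y, G y ≤ 1) (hF : ∀ y, F y ≤ C * G y + e) (x : Px Q) :
    dt wi p χ F x ≤ C * cE wi p (fun y => Om w p o0 o1 m y * G y) x + (C * (Real.exp (2 * D) * Real.exp (-(5 * m))) + e) := by
  have e1 : dt wi p χ F x = cE wi p (fun y => F y * cE wi p (χ y) y) x := by
    unfold dt cE2
    have a1 : (fun z => cE wi p (fun c => F z * χ z c) x) = fun z => F z * cE wi p (χ z) x := by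
      funext z
      exact congrFun (cE_smul wi p (F z) (χ z)) x
    rw [a1]
    refine le_antisymm ?_ ?_
    · refine DGam14.cE_mono_on wi p x fun z hz => ?_
      rw [cE_meas wi p (χ z) z x hz]
    · refine DGam14.cE_mono_on wi p x fun z hz => ?_
      rw [cE_meas wi p (χ z) z x hz]
  obtain ⟨e2, he2⟩ : ∃ e2, e2 = Real.exp (2 * D) * Real.exp (-(5 * m)) := ⟨_, rfl⟩
  have he20 : 0 ≤ e2 := by
    rw [he2]
    positivity
  have e3 : ∀ y, F y * cE wi p (χ y) y ≤ C * (Om w p o0 o1 m y * G y) + (C * e2 + e) := fun y => by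
    have a1 := own_le14 hD hD0 p h0 h1 m y
    have a2 := Om_nonneg w p o0 o1 m y
    have a4 := cE_nonneg wi p (f := χ y) (fun z => h0 y z) y
    have a5 : cE wi p (χ y) y ≤ 1 := by
      have h := cE_mono wi p (f := χ y) (g := fun _ => (1 : ℝ)) (fun z => (h1 y z).trans (NI_le_one _ _ _ _)) y
      rwa [cE_const] at h
    rw [← he2] at a1
    calc F y * cE wi p (χ y) y ≤ (C * G y + e) * cE wi p (χ y) y := mul_le_mul_of_nonneg_right (hF y) a4
      _ = C * G y * cE wi p (χ y) y + e * cE wi p (χ y) y := by ring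
      _ ≤ C * G y * (Om w p o0 o1 m y + e2) + e * 1 :=
          add_le_add (mul_le_mul_of_nonneg_left a1 (mul_nonneg hC (hG0 y))) (mul_le_mul_of_nonneg_left a5 he)
      _ = C * (Om w p o0 o1 m y * G y) + (C * G y * e2 + e) := by ring
      _ ≤ C * (Om w p o0 o1 m y * G y) + (C * e2 + e) := by
          have : C * G y * e2 ≤ C * 1 * e2 := mul_le_mul_of_nonneg_right (mul_le_mul_of_nonneg_left (hG1 y) hC) he20
          linarith
  rw [e1]
  refine (cE_mono wi p e3 x).trans (le_of_eq ?_)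
  have e4 := congrFun (cE_add wi p (fun y => C * (Om w p o0 o1 m y * G y)) (fun _ => C * e2 + e)) x
  rw [Pi.add_apply, cE_const] at e4
  have e5 := congrFun (cE_smul wi p C (fun y => Om w p o0 o1 m y * G y)) x
  rw [← he2]
  refine e4.trans ?_
  rw [show cE wi p (fun y => C * (Om w p o0 o1 m y * G y)) x = C * cE wi p (fun y => Om w p o0 o1 m y * G y) x from e5]

end Mdl

/-! ### The model -/

section Mod

variable {μ : Measure ℝ} [IsProbabilityMeasure μ] {s : ℝ} {N : ℕ} {Q : Finset (Finset ℕ)} [SwQ Q] [Nonempty (Px Q)]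

/-- The weights of the kick at `t` are near the weights. -/
theorem wt_near14 {B : ℝ} (hB : 0 ≤ B) (η : Env) (δ : ℝ) (b0 j : ℕ) {a : ℤ} (ha : |(a : ℝ)| ≤ 1) {t : ℝ} (ht : |t| ≤ 1) (x : Px Q) :
    |wt μ s η N Q δ B b0 j a t x - lw μ s η N Q x| ≤ B := by
  have h1 : wt μ s η N Q δ B b0 j a t x - lw μ s η N Q x = (t - a) * gj μ s η δ B b0 j a x := by
    unfold Mod92.wt
    simp only [Pi.add_apply, Pi.smul_apply, smul_eq_mul]
    ring
  have h2 := abs_gj (μ := μ) (s := s) (δ := δ) η hB ha b0 j x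
  have h3 : |t - a| ≤ 2 := (abs_sub _ _).trans (by linarith)
  rw [h1, abs_mul]
  calc |t - a| * |gj μ s η δ B b0 j a x| ≤ 2 * (B / 2) := mul_le_mul h3 h2 (abs_nonneg _) (by norm_num)
    _ = B := by ring

/-- **(Dgam), right side.** -/
theorem dgR14 {B : ℝ} (hB : 0 ≤ B) (η : Env) (δ : ℝ) (b0 b b' j : ℕ) {a : ℤ} (ha : |(a : ℝ)| ≤ 1) {t : ℝ} (ht : |t| ≤ 1)
    {χ : Px Q → Px Q → ℝ} {o0 o1 : ℕ} (h0 : ∀ b c, 0 ≤ χ b c) (h1 : ∀ b c, χ b c ≤ NI o0 o1 b c) (m0 : ℕ) (m : ℝ) (x : Px Q) :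
    dt (wt μ s η N Q δ B b0 j a t) (pJ (j - b') (j + b')) χ (tieR38 μ s N Q δ B b0 b j a m0 η) x ≤
      2 * cE (wt μ s η N Q δ B b0 j a t) (pJ (j - b') (j + b')) (fun y => Om (lw μ s η N Q) (pJ (j - b') (j + b')) o0 o1 m y *
        i1 (Tau (lw μ s η N Q) (pJ (j - b) (j + b)) (j + b0) m0 m y)) x + 4 * (Real.exp (4 * B) * Real.exp (-(5 * m))) := by
  have hle : Real.exp (2 * B) ≤ Real.exp (4 * B) := Real.exp_le_exp.2 (by linarith)
  have hp := Real.exp_pos (-(5 * m))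
  have h := dt_le14 (w := lw μ s η N Q) (wi := wt μ s η N Q δ B b0 j a t) (D := B) (wt_near14 hB η δ b0 j ha ht) hB
    (pJ (j - b') (j + b')) h0 h1 m (F := tieR38 μ s N Q δ B b0 b j a m0 η)
    (G := fun y => i1 (Tau (lw μ s η N Q) (pJ (j - b) (j + b)) (j + b0) m0 m y)) (C := 2)
    (e := 2 * (Real.exp (4 * B) * Real.exp (-(5 * m)))) (by norm_num) (by positivity)
    (fun y => intervalIntegral.integral_nonneg (by norm_num) fun t _ => cE2_nonneg _ _ (fun b c => NI_nonneg _ _ b c) y y)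
    (fun y => i1_nonneg _) (fun y => i1_le_one _)
    (fun y => tie_le14 (wt := fun t => wt μ s η N Q δ B b0 j a t) (fun t ht x => wt_near14 hB η δ b0 j ha ht x) _ _ _ m y) x
  have h2 := mul_le_mul_of_nonneg_right hle hp.le
  linarith

/-- **(Dgam), left side.** -/
theorem dgL14 {B : ℝ} (hB : 0 ≤ B) (η : Env) (δ : ℝ) (b0 b b' j : ℕ) {a : ℤ} (ha : |(a : ℝ)| ≤ 1) {t : ℝ} (ht : |t| ≤ 1)
    {χ : Px Q → Px Q → ℝ} {o0 o1 : ℕ} (h0 : ∀ b c, 0 ≤ χ b c) (h1 : ∀ b c, χ b c ≤ NI o0 o1 b c) (m0 : ℕ) (m : ℝ) (x : Px Q) :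
    dt (wt μ s η N Q δ B b0 j a t) (pJ (j - b') (j + b')) χ (tieL38 μ s N Q δ B b0 b j a m0 η) x ≤
      2 * cE (wt μ s η N Q δ B b0 j a t) (pJ (j - b') (j + b')) (fun y => Om (lw μ s η N Q) (pJ (j - b') (j + b')) o0 o1 m y *
        i1 (Tau (lw μ s η N Q) (pJ (j - b) (j + b)) m0 (j - b0) m y)) x + 4 * (Real.exp (4 * B) * Real.exp (-(5 * m))) := by
  have hle : Real.exp (2 * B) ≤ Real.exp (4 * B) := Real.exp_le_exp.2 (by linarith)
  have hp := Real.exp_pos (-(5 * m))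
  have h := dt_le14 (w := lw μ s η N Q) (wi := wt μ s η N Q δ B b0 j a t) (D := B) (wt_near14 hB η δ b0 j ha ht) hB
    (pJ (j - b') (j + b')) h0 h1 m (F := tieL38 μ s N Q δ B b0 b j a m0 η)
    (G := fun y => i1 (Tau (lw μ s η N Q) (pJ (j - b) (j + b)) m0 (j - b0) m y)) (C := 2)
    (e := 2 * (Real.exp (4 * B) * Real.exp (-(5 * m)))) (by norm_num) (by positivity)
    (fun y => intervalIntegral.integral_nonneg (by norm_num) fun t _ => cE2_nonneg _ _ (fun b c => NI_nonneg _ _ b c) y y)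
    (fun y => i1_nonneg _) (fun y => i1_le_one _)
    (fun y => tie_le14 (wt := fun t => wt μ s η N Q δ B b0 j a t) (fun t ht x => wt_near14 hB η δ b0 j ha ht x) _ _ _ m y) x
  have h2 := mul_le_mul_of_nonneg_right hle hp.le
  linarith

end Mod

end

end Pool.W7d29a1.C0.PM14
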