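import Pool.Agent.W_7d29a1_C0.EstC46
import Pool.Agent.W_7d29a1_C0.CrB44
import Pool.Agent.W_7d29a1_C0.AsmV33
import Pool.Agent.W_7d29a1_C0.BasSt33

/-!
CURV0 (MP_7d29a1_pr, helper44, after helper46): THE CROSS TERM AT THE LENGTH `2 ^ m` FOR COVARIANT SPECTATORS (`CrNv` of helper33) from five
estimates and the clip error, the double tie untied (`PE2c`). `Bl44` is the shape `Bl46` with the hypothesis `CvF` on the spectator; `E1V`,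
`TV`, `E2V`, `E2aV`, `E2cV`, `ClV` are the literal targets (weaker than `E1N`, .., `ClN`: `Bl44.of46`). `CmN`: the means of
`|gg b - ge|` at both corners; `clv44` gives `ClN`.
-/

set_option autoImplicit false

namespace Pool.Agent.W_7d29a1_C0.EstD44

open Finset MeasureTheory Filter Topology Pool.Agent.W_7d29a1_F Pool.Agent.W_7d29a1_X Pool.Agent.W_7d29a1_H
open Pool.Agent.W_7d29a1_C0.Mod92 Pool.Agent.W_7d29a1_C0 Pool.Agent.W_7d29a1_C0.Asm96 Pool.Agent.W_7d29a1_C0.CrA44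
open Pool.Agent.W_7d29a1_C0.EstC46
open Pool.W7d29a1.C0 (gm)
open Pool.Agent.W_7d29a1_C0.Par92 (Est Sml)

noncomputable section

section defs

variable (μ : Measure ℝ) (s : ℝ) (F : Frm96) (E : ℕ → ℝ) (Θ δ c c₁ ι : ℝ)

/-- The shape of the estimates: all blocks of the grid, all bases of `St96`, all covariant spectators. -/
def Bl44 (m : ℕ) (P : ℕ → ℕ → ℕ → Fam (F.L m) → Prop) : Prop := ∀ p q i : ℕ, St96 E δ c m p q → i < 2 ^ (m - q) →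
  ∀ (D : ℝ) (f : Fam (F.L m)), D ≤ ((2 ^ m : ℕ) : ℝ) ^ 3 → Cls59 (F.L m) (i * 2 ^ q) ((i + 1) * 2 ^ q) D f →
    CvF (F.L m) (F.b0 m p) (F.R m) (i * 2 ^ q) ((i + 1) * 2 ^ q) (F.L m) f → P p q i f

variable {F E δ c} in
theorem Bl44.of46 {m : ℕ} {P : ℕ → ℕ → ℕ → Fam (F.L m) → Prop} (h : Bl46 F E δ c m P) : Bl44 F E δ c m P :=
  fun p q i hst hi D f hD hf _ => h p q i hst hi D f hD hf

/-- **(E1)**, uniform average over the rows of `zs46`. -/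
def E1V (m : ℕ) : Prop := Bl44 F E δ c m fun p q i f =>
  PE1 μ s (F.L m) F.dl (F.B m) (F.b0 m p) (2 ^ p) f (F.ys m) (F.R m) (i * 2 ^ q) ((i + 1) * 2 ^ q)
    (kp46 Θ c₁ m q) (1 / 8) (zs46 ι m q i) (fun _ => ((gl46 ι m q : ℕ) : ℝ)⁻¹)

/-- **(T)**, for every row of `zs46`. -/
def TV (m : ℕ) : Prop := Bl44 F E δ c m fun p q i f => ∀ z ∈ zs46 ι m q i,
  PT μ s (F.L m) F.dl (F.B m) (F.b0 m p) (2 ^ p) (2 ^ sg96 E c m p) f (F.ys m) (F.R m) (i * 2 ^ q) ((i + 1) * 2 ^ q)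
    (kp46 Θ c₁ m q) (1 / 8) z

/-- **(E2)**. -/
def E2V (m : ℕ) : Prop := Bl44 F E δ c m fun p q i f =>
  PE2 μ s (F.L m) F.dl (F.B m) (F.b0 m p) (2 ^ p) (2 ^ sg96 E c m p) f (F.ys m) (F.R m) (i * 2 ^ q) ((i + 1) * 2 ^ q)
    (kp46 Θ c₁ m q) (1 / 8)

/-- **(E2a)**. -/
def E2aV (m : ℕ) : Prop := Bl44 F E δ c m fun p q i f =>
  PE2a μ s (F.L m) F.dl (F.B m) (F.b0 m p) (2 ^ p) f (F.ys m) (F.R m) (i * 2 ^ q) ((i + 1) * 2 ^ q)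
    (kp46 Θ c₁ m q) (1 / 8)

/-- **(E2b)**, untied. -/
def E2cV (m : ℕ) : Prop := Bl44 F E δ c m fun p q i f =>
  PE2c μ s (F.L m) F.dl (F.B m) (F.b0 m p) (2 ^ p) (2 ^ sg96 E c m p) f (F.ys m) (F.R m) (i * 2 ^ q) ((i + 1) * 2 ^ q)
    (kp46 Θ c₁ m q) (1 / 8)

/-- **The clip error.** -/
def ClV (m : ℕ) : Prop := Bl44 F E δ c m fun p q i f =>
  PCl μ s (F.L m) F.dl (F.B m) (F.b0 m p) (2 ^ p) (2 ^ sg96 E c m p) f (F.ys m) (F.R m) (i * 2 ^ q) ((i + 1) * 2 ^ q) (1 / 8)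

/-- **The clip error of the response of the base window, at both corners of the finer window.** -/
def CmN (m : ℕ) : Prop := ∀ p q i : ℕ, St96 E δ c m p q → i < 2 ^ (m - q) → ∀ j ∈ Rw (F.R m) (i * 2 ^ q) ((i + 1) * 2 ^ q),
  ∀ a : ℝ, (a = 1 ∨ a = -1) → avy (F.ys m) (fun y => ∫ ω, (gm (wj μ s (F.L m) (Pn (F.L m) y) F.dl (F.B m) (F.b0 m p) j ω a)
    fun S => |gg μ s (Pn (F.L m) y) F.dl (F.B m) (2 ^ p) ω j S - ge μ s (F.L m) (Pn (F.L m) y) F.dl (F.B m) (F.b0 m p) (2 ^ p) ω j S|)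
      ∂(Pm μ (F.L m))) ≤ ((2 ^ m : ℕ) : ℝ) ^ (-6 : ℝ)

end defs

variable {μ : Measure ℝ} {s : ℝ} {F : Frm96} {E w : ℕ → ℝ} {Θ δ c c₁ c₀ a ε ι : ℝ} {m p q i : ℕ}

/-! ### The clip error -/

/-- The numbers of the errors: `k ≤ n` rows, `D ≤ n ^ 3`, `B ≤ n ^ (1 / 16)`. -/
theorem num44 {n k D B z : ℝ} (hn : 64 ≤ n) (hk0 : 0 ≤ k) (hk : k ≤ n) (hD : |D| ≤ n ^ 3) (hB : 0 ≤ B) (hBn : 1 + B ≤ n)
    (hz : z ≤ n ^ (-6 : ℝ)) : k * (2 * |D| * (1 + B) * z) ≤ 1 / 32 := by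
  have hn0 : 0 < n := by linarith
  have e6 : n ^ (-6 : ℝ) = (n ^ 6)⁻¹ := by
    rw [Real.rpow_neg hn0.le]
    congr 1
    rw [← Real.rpow_natCast]
    norm_num
  rw [e6] at hz
  have h1 : 2 * |D| * (1 + B) * z ≤ 2 * n ^ 3 * n * (n ^ 6)⁻¹ := by
    refine (mul_le_mul_of_nonneg_left hz (by positivity)).trans ?_
    refine mul_le_mul_of_nonneg_right ?_ (by positivity)
    have := abs_nonneg D
    nlinarith [mul_le_mul hD hBn (by linarith) (by positivity : (0 : ℝ) ≤ n ^ 3)]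
  calc k * (2 * |D| * (1 + B) * z) ≤ k * (2 * n ^ 3 * n * (n ^ 6)⁻¹) := mul_le_mul_of_nonneg_left h1 hk0
    _ ≤ n * (2 * n ^ 3 * n * (n ^ 6)⁻¹) := mul_le_mul_of_nonneg_right hk (by positivity)
    _ = 2 / n := by field_simp
    _ ≤ 1 / 32 := by
        rw [div_le_iff₀ hn0]
        linarith

theorem B_le44 (hF : F.Ok Θ m) (hΘ : Θ ≤ 1) (hn : 64 ≤ ((2 ^ m : ℕ) : ℝ)) : 1 + F.B m ≤ ((2 ^ m : ℕ) : ℝ) := by
  obtain ⟨n, hnd⟩ : ∃ n : ℝ, n = ((2 ^ m : ℕ) : ℝ) := ⟨_, rfl⟩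
  have h1 := hF.hB'
  rw [← hnd] at hn h1 ⊢
  have h2 : n ^ (Θ / 16) ≤ n ^ (1 / 2 : ℝ) := Real.rpow_le_rpow_of_exponent_le (by linarith) (by linarith)
  have h3 : n ^ (1 / 2 : ℝ) * n ^ (1 / 2 : ℝ) = n := by
    rw [← Real.rpow_add (by linarith)]
    norm_num
  have h4 : 0 ≤ n ^ (1 / 2 : ℝ) := by positivity
  nlinarith [sq_nonneg (n ^ (1 / 2 : ℝ) - 2)]

/-- **The clip error of the cross term** from the means at both corners. -/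
theorem clv44 [IsProbabilityMeasure μ] (hF : F.Ok Θ m) (hΘ : Θ ≤ 1) (hn : 64 ≤ ((2 ^ m : ℕ) : ℝ)) (h : CmN μ s F E δ c m) :
    ClN μ s F E δ c m := by
  intro p q i hst hi D f hD hf
  have hB : 0 ≤ F.B m := zero_le_one.trans hF.hB
  obtain ⟨D₀, hD₀, hD3, hf0⟩ : ∃ D₀ : ℝ, |D₀| ≤ ((2 ^ m : ℕ) : ℝ) ^ 3 ∧ 0 ≤ D₀ ∧
      Cls59 (F.L m) (i * 2 ^ q) ((i + 1) * 2 ^ q) D₀ f := by
    refine ⟨max D 0, ?_, le_max_right _ _, ⟨hf.meas, fun y ω S => (hf.bdd y ω S).trans (le_max_left _ _), hf.side, hf.env, hf.sgn⟩⟩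
    rw [abs_of_nonneg (le_max_right _ _)]
    exact max_le hD (by positivity)
  have key := PCl_of44 (μ := μ) (s := s) (δ := F.dl) (b0 := F.b0 m p) (b := 2 ^ p) (σ := 2 ^ sg96 E c m p) hF.hy hB hf0
    (h p q i hst hi)
  refine le_trans key (le_trans (num44 hn (Nat.cast_nonneg _) (card_Rw33 hF _ _) hD₀ hB (B_le44 hF hΘ hn) le_rfl) (by norm_num))

/-! ### The assembly at one length -/

/-- **`CrNv` at one length.** -/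
theorem crN44 [IsProbabilityMeasure μ] (hF : F.Ok Θ m) (hc : 0 < c) (hcδ : 64 * c ≤ δ)
    (R : Reg46 E w c₀ Θ δ a ε ((2 ^ m : ℕ) : ℝ)) (hε : ε ≤ c / 4) (hι0 : 0 ≤ ι) (hι : ι ≤ c) (hn : 16 ≤ ((2 ^ m : ℕ) : ℝ) ^ c)
    (hR : F.R m ⊆ Kr (2 ^ m) m (((2 ^ m : ℕ) : ℝ) ^ (-ι)))
    (hdeep : ∀ p q : ℕ, St96 E δ c m p q → Deep (F.R m) (2 ^ p) (2 ^ sg96 E c m p))
    (h5 : 5 ≤ ((2 ^ m : ℕ) : ℝ) ^ c₁) {x₁ x₂ x₃ x₄ x₅ : ℝ} (h₁ : 2 * c₁ ≤ x₁) (h₂ : 2 * c₁ ≤ x₂) (h₃ : 2 * c₁ ≤ x₃)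
    (h₄ : 2 * c₁ ≤ x₄) (h₅ : 2 * c₁ ≤ x₅) (H1 : E1V μ s F E Θ δ c x₁ ι m) (H2 : TV μ s F E Θ δ c x₂ ι m)
    (H3 : E2V μ s F E Θ δ c x₃ m) (H4 : E2aV μ s F E Θ δ c x₄ m) (H5 : E2cV μ s F E Θ δ c x₅ m) (H6 : ClV μ s F E δ c m) :
    CrNv μ s F E Θ δ c c₁ m := by
  intro p q i hst hi D f hD hf hv
  have hB : 0 ≤ F.B m := zero_le_one.trans hF.hB
  have hbs := bs46 R hc hcδ hst.hp hst.hps hst.hsq hst.hqm hst.leg hst.pin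
  have hl := gap46 R hε hbs hι hn
  have hN1 : (1 : ℝ) ≤ ((2 ^ m : ℕ) : ℝ) := by exact_mod_cast Nat.one_le_two_pow
  have hl' : 2 ^ sg96 E c m p ≤ gl46 ι m q := by
    have h1 : (1 : ℝ) * 2 ^ sg96 E c m p ≤ ((2 ^ m : ℕ) : ℝ) ^ (5 * c) * 2 ^ sg96 E c m p :=
      mul_le_mul_of_nonneg_right (Real.one_le_rpow hN1 (by positivity)) (by positivity)
    have h2 : (2 : ℝ) ^ sg96 E c m p ≤ gl46 ι m q := by linarith
    exact_mod_cast h2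
  have hl0 : 0 < gl46 ι m q := lt_of_lt_of_le (by positivity) hl'
  have hl8 := gl_le46 (m := m) (q := q) (i := i) hι0
  have hcard := card_zs46 (ι := ι) (m := m) (q := q) (i := i) (by omega)
  have hσ : 0 < 2 ^ sg96 E c m p := by positivity
  have key := CR59_of44c (μ := μ) (s := s) hF.hy hB (hdeep p q hst) hf (J := zs46 ι m q i) (θ := fun _ => ((gl46 ι m q : ℕ) : ℝ)⁻¹)
    (by
      rw [sum_const, hcard, nsmul_eq_mul]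
      exact mul_inv_cancel₀ (by exact_mod_cast hl0.ne')) (fun z _ => by positivity)
    (fun z hz => (zs_mem46 hR hst.hqm hσ hl' hz).1) (fun z hz => (zs_mem46 hR hst.hqm hσ hl' hz).2)
    (H1 p q i hst hi D f hD hf hv) (H2 p q i hst hi D f hD hf hv) (H3 p q i hst hi D f hD hf hv) (H4 p q i hst hi D f hD hf hv)
    (H5 p q i hst hi D f hD hf hv) (H6 p q i hst hi D f hD hf hv)
  exact cr_mono46 key (kp_sum46 h5 h₁ h₂ h₃ h₄ h₅) (by norm_num)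

/-- **The cross term from its five parts**, one gain `c₁`. -/
theorem cr44 [IsProbabilityMeasure μ] {F : ℝ → ℝ → ℝ → Frm96} (hc : 0 < c) (hcδ : c ≤ δ / 64)
    (hReg : ∃ c₀ a : ℝ, ∀ᶠ m : ℕ in atTop, Reg46 E w c₀ Θ δ a (c / 4) ((2 ^ m : ℕ) : ℝ))
    (hok : Est fun ι β γ m => (F ι β γ).Ok Θ m)
    (hdeep : Est fun ι β γ m => ∀ p q : ℕ, St96 E δ c m p q → Deep ((F ι β γ).R m) (2 ^ p) (2 ^ sg96 E c m p))
    (hR : ∀ ι β γ : ℝ, ∀ m : ℕ, (F ι β γ).R m ⊆ Kr (2 ^ m) m (((2 ^ m : ℕ) : ℝ) ^ (-ι)))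
    (h₁ : ∃ x : ℝ, 0 < x ∧ Est fun ι β γ m => E1V μ s (F ι β γ) E Θ δ c x ι m)
    (h₂ : ∃ x : ℝ, 0 < x ∧ Est fun ι β γ m => TV μ s (F ι β γ) E Θ δ c x ι m)
    (h₃ : ∃ x : ℝ, 0 < x ∧ Est fun ι β γ m => E2V μ s (F ι β γ) E Θ δ c x m)
    (h₄ : ∃ x : ℝ, 0 < x ∧ Est fun ι β γ m => E2aV μ s (F ι β γ) E Θ δ c x m)
    (h₅ : ∃ x : ℝ, 0 < x ∧ Est fun ι β γ m => E2cV μ s (F ι β γ) E Θ δ c x m)
    (h₆ : Est fun ι β γ m => ClV μ s (F ι β γ) E δ c m) :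
    ∃ c₁ : ℝ, 0 < c₁ ∧ Est fun ι β γ m => CrNv μ s (F ι β γ) E Θ δ c c₁ m := by
  obtain ⟨x₁, p₁, h₁⟩ := h₁
  obtain ⟨x₂, p₂, h₂⟩ := h₂
  obtain ⟨x₃, p₃, h₃⟩ := h₃
  obtain ⟨x₄, p₄, h₄⟩ := h₄
  obtain ⟨x₅, p₅, h₅⟩ := h₅
  obtain ⟨c₀, a, hReg⟩ := hReg
  obtain ⟨c₁, hc₁⟩ : ∃ c₁, c₁ = min x₁ (min x₂ (min x₃ (min x₄ x₅))) / 2 := ⟨_, rfl⟩
  have hc₁0 : 0 < c₁ := by
    rw [hc₁]
    positivity
  have q₁ : 2 * c₁ ≤ x₁ := by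
    rw [hc₁]
    linarith [min_le_left x₁ (min x₂ (min x₃ (min x₄ x₅)))]
  have q₂ : 2 * c₁ ≤ x₂ := by
    rw [hc₁]
    linarith [min_le_right x₁ (min x₂ (min x₃ (min x₄ x₅))), min_le_left x₂ (min x₃ (min x₄ x₅))]
  have q₃ : 2 * c₁ ≤ x₃ := by
    rw [hc₁]
    linarith [min_le_right x₁ (min x₂ (min x₃ (min x₄ x₅))), min_le_right x₂ (min x₃ (min x₄ x₅)), min_le_left x₃ (min x₄ x₅)]
  have q₄ : 2 * c₁ ≤ x₄ := by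
    rw [hc₁]
    linarith [min_le_right x₁ (min x₂ (min x₃ (min x₄ x₅))), min_le_right x₂ (min x₃ (min x₄ x₅)), min_le_right x₃ (min x₄ x₅),
      min_le_left x₄ x₅]
  have q₅ : 2 * c₁ ≤ x₅ := by
    rw [hc₁]
    linarith [min_le_right x₁ (min x₂ (min x₃ (min x₄ x₅))), min_le_right x₂ (min x₃ (min x₄ x₅)), min_le_right x₃ (min x₄ x₅),
      min_le_right x₄ x₅]
  refine ⟨c₁, hc₁0, ?_⟩
  have hall := (((hok.and hdeep).and (h₁.and h₂)).and ((h₃.and h₄).and (h₅.and h₆))).and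
    ((Est.iota (Sml.le hc)).and (Est.of_ev (hReg.and ((pow_ev96 hc 16).and (pow_ev96 hc₁0 5)))))
  refine hall.mono fun ι β γ hι _ _ => Eventually.of_forall fun m h => ?_
  obtain ⟨⟨⟨⟨g1, g2⟩, g3, g4⟩, ⟨g5, g6⟩, g7, g8⟩, g9, g10, g11, g12⟩ := h
  exact crN44 g1 hc (by linarith) g10 le_rfl hι.le g9 g11 (hR ι β γ m) g2 g12 q₁ q₂ q₃ q₄ q₅ g3 g4 g5 g6 g7 g8

end

end Pool.Agent.W_7d29a1_C0.EstD44
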