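import Pool.Agent.W_7d29a1_C0.TT72
import Pool.Agent.W_7d29a1_C0.MicE14
import Pool.Agent.W_7d29a1_C0.EstD44
import Pool.Agent.W_7d29a1_C0.Frm33B

/-!
STORM C0 (helper96): THE END OF E2. `grp96`: the sum over the rows of functionals `Q j` of two free replicas times `|f x - f z|` from the
averaged prices `avy E PP (Q j * Q k)` (any function `φ` of the distance). `Trm96`: one term of the row bound (gain `al`, average over
`u < n` of functionals `Q u j` of two free replicas at the actual weights, the sum of the prices of the pairs of rows; `ofDist`: from a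
price which is a function of the distance); `lev96`: the row bound by finitely many terms
gives the bound of the sum. `E2DecN`: the row bound of (E2) by at most `64` terms; `e2N96`, `e2E96`: it gives `E2V` (the target
of the cross terms for covariant spectators).
-/

set_option autoImplicit false
set_option linter.unusedSectionVars false

namespace Pool.Agent.W_7d29a1_C0.E2T96

open Finset MeasureTheory Filter Topology
open Pool.Agent.W_7d29a1_F Pool.Agent.W_7d29a1_X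
open Pool.Agent.W_7d29a1_C0 Pool.Agent.W_7d29a1_C0.Mod92 Pool.Agent.W_7d29a1_C0.Swap57 Pool.Agent.W_7d29a1_C0.NM82
open Pool.Agent.W_7d29a1_C0.Asm96 Pool.Agent.W_7d29a1_C0.CrA44 Pool.Agent.W_7d29a1_C0.EstC46 Pool.Agent.W_7d29a1_C0.Frm33
open Pool.Agent.W_7d29a1_C0.Par92 (Est Sml)
open Pool.Agent.W_7d29a1_C0.EstD44 (Bl44 E2V)
open Pool.Agent.W_7d29a1_C0.MicE14 (rh rh_nonneg)
open Pool.Agent.W_7d29a1_C0.T72 (meas_PP72 abs_PP_bd72 NN72)
open Pool.Agent.W_7d29a1_C0.T93 (Fam2 rdist dist_sum_le avy_sqrt_mul_le pr2)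
open Pool.Agent.W_7d29a1_H (EE)
open Pool.W7d29a1.C0
open Pool.W7d29a1.C0.VT31
open Pool.W7d29a1.C0.Row39 (row_PP PP_row_sum int_le_sqrt PP_sum)

noncomputable section

/-! ### The group bound for functionals of two replicas -/

section Grp

variable {μ : Measure ℝ} {s : ℝ} {N : ℕ}

/-- The product price of two rows, for the end `y`. -/
def pr96 (μ : Measure ℝ) (s : ℝ) (N : ℕ) (Q Q' : Fam2 N) (y : ℕ) : ℝ :=
  ∫ ω, PP (wm μ s N (Pn N y) ω) (fun x z => Q y ω x z * Q' y ω x z) ∂(Pm μ N)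

/-- The functional of one row, for the end `y`. -/
def rw96 (μ : Measure ℝ) (s : ℝ) (N : ℕ) (Q : Fam2 N) (f : Fam N) (y : ℕ) : ℝ :=
  ∫ ω, PP (wm μ s N (Pn N y) ω) (fun x z => Q y ω x z * |f y ω x - f y ω z|) ∂(Pm μ N)

/-- The functionals of the rows: between `0` and `1`, measurable. -/
structure Qb96 (N : ℕ) (Q : Fam2 N) : Prop where
  nn : ∀ y ω x z, 0 ≤ Q y ω x z
  le : ∀ y ω x z, Q y ω x z ≤ 1
  ms : ∀ y x z, Measurable fun ω => Q y ω x z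

variable [IsProbabilityMeasure μ]

/-- **The group bound for one end.** -/
theorem grp_one96 {y : ℕ} (hy : y ≤ N) {S : Finset ℕ} {Q : ℕ → Fam2 N} {f : Fam N} {D : ℝ} (hQ : ∀ j ∈ S, Qb96 N (Q j))
    (mf : ∀ y S, Measurable fun ω => f y ω S) (bf : ∀ y ω S, |f y ω S| ≤ D) :
    ∑ j ∈ S, rw96 μ s N (Q j) f y ≤
      Real.sqrt (∑ j ∈ S, ∑ k ∈ S, pr96 μ s N (Q j) (Q k) y) * Real.sqrt (2 * varF μ s N f y) := by
  have := ne_Pn hy
  have hI : ∀ j ∈ S, ∀ k ∈ S, Integrable (fun ω => PP (wm μ s N (Pn N y) ω) fun x z => Q j y ω x z * Q k y ω x z) (Pm μ N) :=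
    fun j hj k hk => int_bdd (M := 1 * 1) (meas_PP72 fun x z => ((hQ j hj).ms y x z).mul ((hQ k hk).ms y x z)) fun ω =>
      abs_PP_bd72 _ fun x z => by
        rw [abs_of_nonneg (mul_nonneg ((hQ j hj).nn y ω x z) ((hQ k hk).nn y ω x z))]
        exact mul_le_mul ((hQ j hj).le y ω x z) ((hQ k hk).le y ω x z) ((hQ k hk).nn y ω x z) zero_le_one
  have hJ : ∀ j ∈ S, Integrable (fun ω => PP (wm μ s N (Pn N y) ω) fun x z => Q j y ω x z * |f y ω x - f y ω z|) (Pm μ N) :=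
    fun j hj => int_bdd (M := 1 * (2 * D)) (meas_PP72 fun x z => ((hQ j hj).ms y x z).mul (((mf y x).sub (mf y z)).abs)) fun ω =>
      abs_PP_bd72 _ fun x z => by
        rw [abs_mul, abs_abs, abs_of_nonneg ((hQ j hj).nn y ω x z)]
        exact mul_le_mul ((hQ j hj).le y ω x z) ((abs_sub _ _).trans (by linarith [bf y ω x, bf y ω z])) (abs_nonneg _)
          zero_le_one
  have hf : Integrable (fun ω => gv (wm μ s N (Pn N y) ω) (f y ω)) (Pm μ N) :=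
    int_bdd (meas_gv meas_wm fun S => mf y S) fun ω => abs_gv_le _ (bf y ω)
  unfold rw96 pr96 varF
  rw [← integral_finsetSum _ hJ]
  have hPI : Integrable (fun ω => ∑ j ∈ S, ∑ k ∈ S, PP (wm μ s N (Pn N y) ω) fun x z => Q j y ω x z * Q k y ω x z)
      (Pm μ N) := integrable_finsetSum _ fun j hj => integrable_finsetSum _ fun k hk => hI j hj k hk
  have e1 : ∑ j ∈ S, ∑ k ∈ S, ∫ ω, PP (wm μ s N (Pn N y) ω) (fun x z => Q j y ω x z * Q k y ω x z) ∂(Pm μ N) =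
      ∫ ω, ∑ j ∈ S, ∑ k ∈ S, PP (wm μ s N (Pn N y) ω) (fun x z => Q j y ω x z * Q k y ω x z) ∂(Pm μ N) := by
    rw [integral_finsetSum _ fun j hj => integrable_finsetSum _ fun k hk => hI j hj k hk]
    exact sum_congr rfl fun j hj => (integral_finsetSum _ fun k hk => hI j hj k hk).symm
  have e2 : ∀ ω, ∑ j ∈ S, ∑ k ∈ S, PP (wm μ s N (Pn N y) ω) (fun x z => Q j y ω x z * Q k y ω x z) =
      PP (wm μ s N (Pn N y) ω) fun x z => (∑ j ∈ S, Q j y ω x z) ^ 2 := fun ω => by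
    have e3 : (fun x z => (∑ j ∈ S, Q j y ω x z) ^ 2) = fun x z => ∑ j ∈ S, ∑ k ∈ S, Q j y ω x z * Q k y ω x z := by
      funext x z
      rw [sq, sum_mul_sum]
    rw [e3, PP_sum]
    exact sum_congr rfl fun j _ => (PP_sum _ _ _).symm
  rw [e1, ← integral_const_mul]
  refine int_le_sqrt hPI (hf.const_mul 2) (fun ω => ?_) (fun ω => mul_nonneg (by norm_num) (gv_nonneg _ _)) (fun ω => ?_) fun ω => ?_
  · exact sum_nonneg fun j hj => sum_nonneg fun k hk => PP_nonneg _ fun x z => mul_nonneg ((hQ j hj).nn y ω x z) ((hQ k hk).nn y ω x z)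
  · exact sum_nonneg fun j hj => PP_nonneg _ fun x z => mul_nonneg ((hQ j hj).nn y ω x z) (abs_nonneg _)
  · rw [e2]
    exact row_PP (wm μ s N (Pn N y) ω) S (fun j x z => Q j y ω x z) (f y ω)

/-- **THE GROUP BOUND**, in terms of the averaged prices of the pairs of rows. -/
theorem grp_all96 {ys S : Finset ℕ} (hys : ∀ y ∈ ys, y ≤ N) {Q : ℕ → Fam2 N}
    {f : Fam N} {D : ℝ} (hQ : ∀ j ∈ S, Qb96 N (Q j)) (mf : ∀ y S, Measurable fun ω => f y ω S) (bf : ∀ y ω S, |f y ω S| ≤ D) :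
    ∑ j ∈ S, avy ys (rw96 μ s N (Q j) f) ≤
      Real.sqrt (∑ j ∈ S, ∑ k ∈ S, avy ys (pr96 μ s N (Q j) (Q k))) * Real.sqrt (2 * avy ys (varF μ s N f)) := by
  have v0 : ∀ y ∈ ys, 0 ≤ varF μ s N f y := fun y hy => by
    have := ne_Pn (hys y hy)
    exact integral_nonneg fun ω => gv_nonneg _ _
  have p0 : ∀ y ∈ ys, 0 ≤ ∑ j ∈ S, ∑ k ∈ S, pr96 μ s N (Q j) (Q k) y := fun y hy => by
    have := ne_Pn (hys y hy)
    exact sum_nonneg fun j hj => sum_nonneg fun k hk => integral_nonneg fun ω => PP_nonneg _ fun x z =>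
      mul_nonneg ((hQ j hj).nn y ω x z) ((hQ k hk).nn y ω x z)
  rw [← avy_sum]
  have h1 : avy ys (fun y => ∑ j ∈ S, rw96 μ s N (Q j) f y) ≤
      avy ys fun y => Real.sqrt (∑ j ∈ S, ∑ k ∈ S, pr96 μ s N (Q j) (Q k) y) * Real.sqrt (2 * varF μ s N f y) :=
    avy_mono fun y hy => grp_one96 (hys y hy) hQ mf bf
  refine h1.trans ((avy_sqrt_mul_le p0 (fun y hy => mul_nonneg (by norm_num) (v0 y hy))).trans ?_)
  rw [avy_mul, avy_sum]
  have e2 : ∀ j ∈ S, avy ys (fun y => ∑ k ∈ S, pr96 μ s N (Q j) (Q k) y) = ∑ k ∈ S, avy ys (pr96 μ s N (Q j) (Q k)) :=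
    fun j _ => avy_sum ys S fun k y => pr96 μ s N (Q j) (Q k) y
  rw [sum_congr rfl e2]

/-- **THE GROUP BOUND**: rows `S` of `[c, c + r)`, price `φ` of two rows at a given distance, averaged over the ends. -/
theorem grp96 {ys S : Finset ℕ} (hys : ∀ y ∈ ys, y ≤ N) {c r : ℕ} (hS : ∀ j ∈ S, c ≤ j ∧ j < c + r) {Q : ℕ → Fam2 N}
    {f : Fam N} {D : ℝ} (hQ : ∀ j ∈ S, Qb96 N (Q j)) (mf : ∀ y S, Measurable fun ω => f y ω S) (bf : ∀ y ω S, |f y ω S| ≤ D)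
    {φ : ℕ → ℝ} (hφ : ∀ D, 0 ≤ φ D) (hp : ∀ j ∈ S, ∀ k ∈ S, avy ys (pr96 μ s N (Q j) (Q k)) ≤ φ (rdist j k)) :
    ∑ j ∈ S, avy ys (rw96 μ s N (Q j) f) ≤
      Real.sqrt (2 * S.card * ∑ D ∈ range r, φ D) * Real.sqrt (2 * avy ys (varF μ s N f)) := by
  refine (grp_all96 hys hQ mf bf).trans (mul_le_mul_of_nonneg_right (Real.sqrt_le_sqrt ?_) (Real.sqrt_nonneg _))
  have h3 := dist_sum_le hS hφ (q := fun j k => avy ys (pr96 μ s N (Q j) (Q k))) hp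
  linarith

end Grp

/-! ### One path functionals -/

section One

variable {μ : Measure ℝ} {s : ℝ} {N : ℕ}

/-- The functional `L` of the base path, with the outer tie over `[zt, c]`. -/
def one96 (N : ℕ) (L : Fam N) (zt c : ℕ) : Fam2 N := fun y ω x z => L y ω x * NI zt c x z

theorem NI01 {Q : Finset (Finset ℕ)} (a b : ℕ) (x z : Px Q) : 0 ≤ NI a b x z ∧ NI a b x z ≤ 1 ∧ NI a b x z * NI a b x z = NI a b x z := by
  unfold NI
  split_ifs <;> norm_num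

theorem qb_one96 {L : Fam N} (h0 : ∀ y ω S, 0 ≤ L y ω S) (h1 : ∀ y ω S, L y ω S ≤ 1) (hm : ∀ y S, Measurable fun ω => L y ω S)
    (zt c : ℕ) : Qb96 N (one96 N L zt c) where
  nn y ω x z := mul_nonneg (h0 y ω x) (NI01 zt c x z).1
  le y ω x z := by
    calc L y ω x * NI zt c x z ≤ 1 * 1 := mul_le_mul (h1 y ω x) (NI01 zt c x z).2.1 (NI01 zt c x z).1 zero_le_one
      _ = 1 := one_mul 1
  ms y x z := (hm y x).mul_const _

/-- The price of two functionals of the base path. -/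
theorem pr_one96 (L L' : Fam N) (zt c : ℕ) (y : ℕ) :
    pr96 μ s N (one96 N L zt c) (one96 N L' zt c) y = pr2 μ s N (NN72 N zt c) L L' y := by
  unfold pr96 pr2
  congr 1
  funext ω
  congr 1
  funext x z
  show L y ω x * NI zt c x z * (L' y ω x * NI zt c x z) = NI zt c x z * (L y ω x * L' y ω x)
  have h := (NI01 zt c x z).2.2
  calc L y ω x * NI zt c x z * (L' y ω x * NI zt c x z) = (NI zt c x z * NI zt c x z) * (L y ω x * L' y ω x) := by ring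
    _ = _ := by rw [h]

/-- The functional of a row in the shape of the corner passages: a functional of the base path times the tie `rh z' c f`, `z' ≤ zt`. -/
theorem rw_one96 [IsProbabilityMeasure μ] {L f : Fam N} {D : ℝ} (h0 : ∀ y ω S, 0 ≤ L y ω S) (h1 : ∀ y ω S, L y ω S ≤ 1)
    (hm : ∀ y S, Measurable fun ω => L y ω S) (mf : ∀ y S, Measurable fun ω => f y ω S) (bf : ∀ y ω S, |f y ω S| ≤ D)
    {y z' zt c : ℕ} (hy : y ≤ N) (hz : z' ≤ zt) :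
    ∫ ω, PP (wm μ s N (Pn N y) ω) (fun x z => L y ω x * rh z' c (f y ω) x z) ∂(Pm μ N) ≤
      rw96 μ s N (one96 N L zt c) f y := by
  have := ne_Pn hy
  have bd : ∀ (ω : Env × Finset ℕ) (x z : Px (Pn N y)), |f y ω x - f y ω z| ≤ 2 * D := fun ω x z =>
    (abs_sub _ _).trans (by linarith [bf y ω x, bf y ω z])
  unfold rw96
  refine integral_mono ?_ ?_ fun ω => PP_mono _ fun x z => ?_
  · refine int_bdd (M := 1 * (2 * D * 1)) (meas_PP72 fun x z => (hm y x).mul ((((mf y x).sub (mf y z)).abs).mul_const _)) fun ω =>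
      abs_PP_bd72 _ fun x z => ?_
    have hD : 0 ≤ 2 * D := (abs_nonneg _).trans (bd ω x z)
    rw [abs_of_nonneg (mul_nonneg (h0 y ω x) (rh_nonneg _ _ _))]
    exact mul_le_mul (h1 y ω x) (mul_le_mul (bd ω x z) (NI01 z' c x z).2.1 (NI01 z' c x z).1 hD) (rh_nonneg _ _ _) zero_le_one
  · refine int_bdd (M := 1 * (2 * D)) (meas_PP72 fun x z => ((hm y x).mul_const _).mul (((mf y x).sub (mf y z)).abs)) fun ω =>
      abs_PP_bd72 _ fun x z => ?_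
    rw [abs_mul, abs_abs, abs_of_nonneg ((qb_one96 h0 h1 hm zt c).nn y ω x z)]
    exact mul_le_mul ((qb_one96 h0 h1 hm zt c).le y ω x z) (bd ω x z) (abs_nonneg _) zero_le_one
  · show L y ω x * (|f y ω x - f y ω z| * NI z' c x z) ≤ L y ω x * NI zt c x z * |f y ω x - f y ω z|
    have h2 : NI z' c x z ≤ NI zt c x z := NI_mono hz le_rfl x z
    have h3 := mul_le_mul_of_nonneg_left h2 (mul_nonneg (h0 y ω x) (abs_nonneg (f y ω x - f y ω z)))
    calc _ = L y ω x * |f y ω x - f y ω z| * NI z' c x z := by ring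
      _ ≤ _ := h3
      _ = _ := by ring

end One

/-! ### The level -/

/-- **One term of a row bound**: the gain `al`, the functionals `Q u j` of two free replicas (averaged over `u < n`), the sum of the prices
of all the pairs of rows (`X` = the level which the term has to reach). -/
structure Trm96 (μ : Measure ℝ) (s : ℝ) (N : ℕ) (ys S : Finset ℕ) (r : ℕ) (X : ℝ) where
  al : ℝ
  n : ℕ
  Q : ℕ → ℕ → Fam2 N
  al0 : 0 ≤ al
  hQ : ∀ u < n, ∀ j ∈ S, Qb96 N (Q u j)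
  sm : ∀ u < n, al ^ 2 * ∑ j ∈ S, ∑ k ∈ S, avy ys (pr96 μ s N (Q u j) (Q u k)) ≤ 2 * (r * X)

namespace Trm96

variable {μ : Measure ℝ} {s : ℝ} {N : ℕ} {ys S : Finset ℕ} {r : ℕ} {X : ℝ}

/-- **The term from the price of a pair of rows** as a function `φ` of the distance. -/
def ofDist {c : ℕ} (hS : ∀ j ∈ S, c ≤ j ∧ j < c + r) (al : ℝ) (n : ℕ) (Q : ℕ → ℕ → Fam2 N) (φ : ℕ → ℝ) (al0 : 0 ≤ al)
    (hQ : ∀ u < n, ∀ j ∈ S, Qb96 N (Q u j)) (φ0 : ∀ D, 0 ≤ φ D)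
    (pr : ∀ u < n, ∀ j ∈ S, ∀ k ∈ S, avy ys (pr96 μ s N (Q u j) (Q u k)) ≤ φ (rdist j k))
    (num : al ^ 2 * ∑ D ∈ range r, φ D ≤ X) : Trm96 μ s N ys S r X where
  al := al
  n := n
  Q := Q
  al0 := al0
  hQ := hQ
  sm u hu := by
    have h3 := dist_sum_le hS φ0 (q := fun j k => avy ys (pr96 μ s N (Q u j) (Q u k))) (pr u hu)
    have h4 : ∑ j ∈ S, ∑ k ∈ S, avy ys (pr96 μ s N (Q u j) (Q u k)) ≤ 2 * S.card * ∑ D ∈ range r, φ D := by linarith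
    have h5 : (S.card : ℝ) ≤ r := by
      have h6 : S.card ≤ (Ico c (c + r)).card := card_le_card fun j hj => mem_Ico.2 (hS j hj)
      rw [Nat.card_Ico, Nat.add_sub_cancel_left] at h6
      exact_mod_cast h6
    have h7 : 0 ≤ al ^ 2 * ∑ D ∈ range r, φ D := mul_nonneg (sq_nonneg _) (sum_nonneg fun D _ => φ0 D)
    calc al ^ 2 * ∑ j ∈ S, ∑ k ∈ S, avy ys (pr96 μ s N (Q u j) (Q u k)) ≤ al ^ 2 * (2 * S.card * ∑ D ∈ range r, φ D) :=
          mul_le_mul_of_nonneg_left h4 (sq_nonneg _)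
      _ = 2 * (S.card * (al ^ 2 * ∑ D ∈ range r, φ D)) := by ring
      _ ≤ 2 * (r * X) := mul_le_mul_of_nonneg_left (mul_le_mul h5 num h7 (Nat.cast_nonneg _)) (by norm_num)

/-- The contribution of the term to the row `j` and the end `y`. -/
def val (T : Trm96 μ s N ys S r X) (f : Fam N) (j y : ℕ) : ℝ :=
  T.al * ((T.n : ℝ)⁻¹ * ∑ u ∈ range T.n, rw96 μ s N (T.Q u j) f y)

/-- The sum over the rows of one term. -/
theorem sum_le [IsProbabilityMeasure μ] (T : Trm96 μ s N ys S r X) (hys : ∀ y ∈ ys, y ≤ N)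
    {f : Fam N} {D : ℝ} (mf : ∀ y S, Measurable fun ω => f y ω S) (bf : ∀ y ω S, |f y ω S| ≤ D) :
    ∑ j ∈ S, avy ys (T.val f j) ≤ 2 * Real.sqrt (r * X) * Real.sqrt (avy ys (varF μ s N f)) := by
  have h1 : ∀ u ∈ range T.n, T.al * ∑ j ∈ S, avy ys (rw96 μ s N (T.Q u j) f) ≤
      2 * Real.sqrt (r * X) * Real.sqrt (avy ys (varF μ s N f)) := fun u hu => by
    have h2 := mul_le_mul_of_nonneg_left (grp_all96 (μ := μ) (s := s) hys (fun j hj => T.hQ u (mem_range.1 hu) j hj) mf bf) T.al0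
    refine h2.trans ?_
    rw [← mul_assoc]
    have e1 : T.al * Real.sqrt (∑ j ∈ S, ∑ k ∈ S, avy ys (pr96 μ s N (T.Q u j) (T.Q u k))) ≤ Real.sqrt 2 * Real.sqrt (r * X) := by
      rw [← Real.sqrt_mul (by norm_num)]
      nth_rewrite 1 [← Real.sqrt_sq T.al0]
      rw [← Real.sqrt_mul (sq_nonneg _)]
      exact Real.sqrt_le_sqrt (T.sm u (mem_range.1 hu))
    have e4 : Real.sqrt (2 * avy ys (varF μ s N f)) = Real.sqrt 2 * Real.sqrt (avy ys (varF μ s N f)) :=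
      Real.sqrt_mul (by norm_num) _
    rw [e4]
    have e5 : Real.sqrt 2 * Real.sqrt 2 = 2 := Real.mul_self_sqrt (by norm_num)
    calc _ ≤ Real.sqrt 2 * Real.sqrt (r * X) * (Real.sqrt 2 * Real.sqrt (avy ys (varF μ s N f))) :=
          mul_le_mul_of_nonneg_right e1 (by positivity)
      _ = (Real.sqrt 2 * Real.sqrt 2) * Real.sqrt (r * X) * Real.sqrt (avy ys (varF μ s N f)) := by ring
      _ = _ := by rw [e5]
  have h2 : ∑ j ∈ S, avy ys (T.val f j) = (T.n : ℝ)⁻¹ * ∑ u ∈ range T.n, T.al * ∑ j ∈ S, avy ys (rw96 μ s N (T.Q u j) f) := by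
    have e1 : ∀ j ∈ S, avy ys (T.val f j) = (T.n : ℝ)⁻¹ * (T.al * ∑ u ∈ range T.n, avy ys (rw96 μ s N (T.Q u j) f)) := fun j _ => by
      have e2 : T.val f j = fun y => (T.al * (T.n : ℝ)⁻¹) * ∑ u ∈ range T.n, rw96 μ s N (T.Q u j) f y := by
        funext y
        unfold val
        ring
      rw [e2, avy_mul, avy_sum]
      ring
    rw [sum_congr rfl e1, ← mul_sum, ← mul_sum, sum_comm, mul_sum]
  rw [h2]
  rcases Nat.eq_zero_or_pos T.n with h0 | h0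
  · rw [h0]
    have h3 : 0 ≤ 2 * Real.sqrt (r * X) * Real.sqrt (avy ys (varF μ s N f)) := by positivity
    simpa using h3
  · have hn : (0 : ℝ) < T.n := by exact_mod_cast h0
    rw [inv_mul_le_iff₀ hn]
    refine (Finset.sum_le_sum h1).trans ?_
    rw [sum_const, card_range, nsmul_eq_mul]

end Trm96

theorem avy_abs96 (ys : Finset ℕ) (Φ : ℕ → ℝ) : |avy ys Φ| ≤ avy ys fun y => |Φ y| := by
  unfold avy
  rw [abs_mul, abs_of_nonneg (by positivity : (0 : ℝ) ≤ (ys.card : ℝ)⁻¹)]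
  exact mul_le_mul_of_nonneg_left (abs_sum_le_sum_abs _ _) (by positivity)

/-- **THE LEVEL**: a row bound by at most `k` terms, in the mean over the ends. -/
theorem lev96 {μ : Measure ℝ} {s : ℝ} {N : ℕ} [IsProbabilityMeasure μ] {ys S : Finset ℕ}
    (hys : ∀ y ∈ ys, y ≤ N) {r : ℕ} {f : Fam N} {D : ℝ}
    (mf : ∀ y S, Measurable fun ω => f y ω S) (bf : ∀ y ω S, |f y ω S| ≤ D) {X e : ℝ} {k : ℕ}
    (T : Fin k → Trm96 μ s N ys S r X)
    {Φ : ℕ → ℕ → ℝ} (h : ∀ j ∈ S, avy ys (fun y => |Φ j y|) ≤ ∑ i, avy ys ((T i).val f j) + e) :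
    |∑ j ∈ S, avy ys (Φ j)| ≤ k * (2 * Real.sqrt (r * X)) * Real.sqrt (avy ys (varF μ s N f)) + S.card * e := by
  have h1 : |∑ j ∈ S, avy ys (Φ j)| ≤ ∑ j ∈ S, (∑ i, avy ys ((T i).val f j) + e) :=
    (abs_sum_le_sum_abs _ _).trans (sum_le_sum fun j hj => (avy_abs96 ys (Φ j)).trans (h j hj))
  refine h1.trans ?_
  rw [sum_add_distrib, sum_comm, sum_const, nsmul_eq_mul]
  have h2 : ∑ i, ∑ j ∈ S, avy ys ((T i).val f j) ≤ ∑ _i : Fin k, 2 * Real.sqrt (r * X) * Real.sqrt (avy ys (varF μ s N f)) :=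
    sum_le_sum fun i _ => (T i).sum_le hys mf bf
  rw [sum_const, card_univ, Fintype.card_fin, nsmul_eq_mul] at h2
  linarith

/-! ### The end of E2 -/

section End

variable (μ : Measure ℝ) (s : ℝ) (F : Frm96) (E : ℕ → ℝ) (Θ δ c x : ℝ)

/-- **THE ROW BOUND OF (E2)**, in the mean over the ends: at most `64` terms, each at the level `N ^ (Θ - 2 x)`. -/
def E2DecN (m : ℕ) : Prop := Bl44 F E δ c m fun p q i f => ∀ t ∈ Set.Icc (-1 : ℝ) 1, ∃ (k : ℕ) (e : ℝ)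
    (T : Fin k → Trm96 μ s (F.L m) (F.ys m) (Rw (F.R m) (i * 2 ^ q) ((i + 1) * 2 ^ q)) (2 ^ q) (((2 ^ m : ℕ) : ℝ) ^ (Θ - 2 * x))),
  k ≤ 64 ∧ 2 ^ q * e ≤ 1 / 8 ∧ 0 ≤ e ∧ ∀ j ∈ Rw (F.R m) (i * 2 ^ q) ((i + 1) * 2 ^ q),
    avy (F.ys m) (fun y => |fE2 μ s (F.L m) F.dl (F.B m) (F.b0 m p) (2 ^ p) (2 ^ sg96 E c m p) f t y j|) ≤
      ∑ u, avy (F.ys m) ((T u).val f j) + e

variable {μ s F E Θ δ c x}

/-- The rows of a block. -/
theorem mem_rw96 {R : Finset ℕ} {i q j : ℕ} (hj : j ∈ Rw R (i * 2 ^ q) ((i + 1) * 2 ^ q)) :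
    i * 2 ^ q ≤ j ∧ j < i * 2 ^ q + 2 ^ q := by
  have h1 := mem_Ico.1 (mem_inter.1 hj).2
  have h2 : (i + 1) * 2 ^ q = i * 2 ^ q + 2 ^ q := by ring
  omega

/-- **(E2) at one length.** -/
theorem e2N96 [IsProbabilityMeasure μ] {m : ℕ} (hF : F.Ok Θ m) (hn : 128 ≤ ((2 ^ m : ℕ) : ℝ) ^ (x / 2))
    (h : E2DecN μ s F E Θ δ c x m) : E2V μ s F E Θ δ c (x / 2) m := by
  intro p q i hst hi D f hD hf hcv t ht
  obtain ⟨k, e, T, hk, he, he0, hrow⟩ := h p q i hst hi D f hD hf hcv t ht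
  have hcard : ((Rw (F.R m) (i * 2 ^ q) ((i + 1) * 2 ^ q)).card : ℝ) ≤ 2 ^ q := by
    have h1 : (Rw (F.R m) (i * 2 ^ q) ((i + 1) * 2 ^ q)).card ≤ (Ico (i * 2 ^ q) ((i + 1) * 2 ^ q)).card :=
      card_le_card inter_subset_right
    have h2 : (i + 1) * 2 ^ q - i * 2 ^ q = 2 ^ q := by
      rw [Nat.add_mul, Nat.one_mul, Nat.add_sub_cancel_left]
    rw [Nat.card_Ico, h2] at h1
    exact_mod_cast h1
  have hN1 : (1 : ℝ) ≤ ((2 ^ m : ℕ) : ℝ) := by exact_mod_cast Nat.one_le_two_pow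
  have hN0 : (0 : ℝ) < ((2 ^ m : ℕ) : ℝ) := by linarith
  have key := lev96 (μ := μ) (s := s) hF.hy (fun y S => hf.meas y S) (fun y ω S => hf.bdd y ω S) T
    (Φ := fun j y => fE2 μ s (F.L m) F.dl (F.B m) (F.b0 m p) (2 ^ p) (2 ^ sg96 E c m p) f t y j) hrow
  refine key.trans (add_le_add (mul_le_mul_of_nonneg_right ?_ (Real.sqrt_nonneg _)) ?_)
  · have h1 : Real.sqrt (((2 ^ q : ℕ) : ℝ) * ((2 ^ m : ℕ) : ℝ) ^ (Θ - 2 * x)) ≤
        ((2 ^ m : ℕ) : ℝ) ^ (-x) * Real.sqrt (2 ^ q * ((2 ^ m : ℕ) : ℝ) ^ Θ) := by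
      have e1 : ((2 ^ m : ℕ) : ℝ) ^ (-x) = Real.sqrt (((2 ^ m : ℕ) : ℝ) ^ (-(2 * x))) := by
        rw [Real.sqrt_eq_rpow, ← Real.rpow_mul hN0.le]
        congr 1
        ring
      rw [e1, ← Real.sqrt_mul (Real.rpow_nonneg hN0.le _)]
      refine Real.sqrt_le_sqrt (le_of_eq ?_)
      rw [show Θ - 2 * x = -(2 * x) + Θ by ring, Real.rpow_add hN0, Nat.cast_pow, Nat.cast_ofNat]
      ring
    have h2 : (k : ℝ) ≤ 64 := by exact_mod_cast hk
    have h3 : 0 ≤ Real.sqrt (2 ^ q * ((2 ^ m : ℕ) : ℝ) ^ Θ) := Real.sqrt_nonneg _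
    have h4 : 0 ≤ ((2 ^ m : ℕ) : ℝ) ^ (-x) := Real.rpow_nonneg hN0.le _
    unfold kp46
    calc (k : ℝ) * (2 * Real.sqrt (((2 ^ q : ℕ) : ℝ) * ((2 ^ m : ℕ) : ℝ) ^ (Θ - 2 * x)))
        ≤ 64 * (2 * (((2 ^ m : ℕ) : ℝ) ^ (-x) * Real.sqrt (2 ^ q * ((2 ^ m : ℕ) : ℝ) ^ Θ))) :=
          mul_le_mul h2 (mul_le_mul_of_nonneg_left h1 (by norm_num)) (by positivity) (by norm_num)
      _ = 128 * ((2 ^ m : ℕ) : ℝ) ^ (-x) * Real.sqrt (2 ^ q * ((2 ^ m : ℕ) : ℝ) ^ Θ) := by ring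
      _ ≤ ((2 ^ m : ℕ) : ℝ) ^ (x / 2) * ((2 ^ m : ℕ) : ℝ) ^ (-x) * Real.sqrt (2 ^ q * ((2 ^ m : ℕ) : ℝ) ^ Θ) :=
          mul_le_mul_of_nonneg_right (mul_le_mul_of_nonneg_right hn h4) h3
      _ = _ := by
          rw [← Real.rpow_add hN0]
          congr 2
          ring
  · exact (mul_le_mul_of_nonneg_right hcard he0).trans he

/-- A row bound for every end is a row bound in the mean. -/
theorem dec_of96 {m : ℕ} (hys : (F.ys m).Nonempty) (h : Bl44 F E δ c m fun p q i f => ∀ t ∈ Set.Icc (-1 : ℝ) 1, ∃ (k : ℕ) (e : ℝ)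
    (T : Fin k → Trm96 μ s (F.L m) (F.ys m) (Rw (F.R m) (i * 2 ^ q) ((i + 1) * 2 ^ q)) (2 ^ q) (((2 ^ m : ℕ) : ℝ) ^ (Θ - 2 * x))),
    k ≤ 64 ∧ 2 ^ q * e ≤ 1 / 8 ∧ 0 ≤ e ∧ ∀ j ∈ Rw (F.R m) (i * 2 ^ q) ((i + 1) * 2 ^ q), ∀ y ∈ F.ys m,
      |fE2 μ s (F.L m) F.dl (F.B m) (F.b0 m p) (2 ^ p) (2 ^ sg96 E c m p) f t y j| ≤ ∑ u, (T u).val f j y + e) :
    E2DecN μ s F E Θ δ c x m := by
  intro p q i hst hi D f hD hf hcv t ht
  obtain ⟨k, e, T, hk, he, he0, hrow⟩ := h p q i hst hi D f hD hf hcv t ht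
  refine ⟨k, e, T, hk, he, he0, fun j hj => ?_⟩
  have h1 := avy_mono (fun y hy => hrow j hj y hy)
  have h2 : avy (F.ys m) (fun y => ∑ u, (T u).val f j y + e) = ∑ u, avy (F.ys m) ((T u).val f j) + e := by
    have e1 : (fun y => ∑ u, (T u).val f j y + e) = fun y => (∑ u, (T u).val f j y) + (fun _ => e) y := rfl
    rw [e1, avy_add, avy_sum, avy_const hys]
  rwa [h2] at h1

/-- The estimate. -/
theorem e2E96 [IsProbabilityMeasure μ] {F : ℝ → ℝ → ℝ → Frm96} (hok : Est fun ι β γ m => (F ι β γ).Ok Θ m)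
    (h : ∃ x : ℝ, 0 < x ∧ Est fun ι β γ m => E2DecN μ s (F ι β γ) E Θ δ c x m) :
    ∃ x : ℝ, 0 < x ∧ Est fun ι β γ m => E2V μ s (F ι β γ) E Θ δ c x m := by
  obtain ⟨x, hx, h⟩ := h
  refine ⟨x / 2, by positivity, ((hok.and h).and (Est.of_ev (pow_ev96 (show 0 < x / 2 by positivity) 128))).mono
    fun ι β γ _ _ _ => Eventually.of_forall fun m h => ?_⟩
  exact e2N96 h.1.1 h.2 h.1.2

end End

/-- **THE END OF (E2).** -/
theorem e2L96 {μ : Measure ℝ} {s : ℝ} {K : ℕ} {Θ δ c : ℝ} [IsProbabilityMeasure μ] (hK : 6 ≤ K) (hΘ : 0 < Θ)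
    (h : ∃ x : ℝ, 0 < x ∧ Est fun ι β γ m => E2DecN μ s (frm33 μ s K ι β γ) (EE μ s) Θ δ c x m) :
    ∃ x : ℝ, 0 < x ∧ Est fun ι β γ m => E2V μ s (frm33 μ s K ι β γ) (EE μ s) Θ δ c x m :=
  e2E96 (ok33 hK hΘ) h

/-- The set of ends is not empty. -/
theorem ys_ne96 {μ : Measure ℝ} {s : ℝ} {K : ℕ} {ι β γ : ℝ} (m : ℕ) : ((frm33 μ s K ι β γ).ys m).Nonempty := by
  refine nonempty_Ico.2 ?_
  have : 0 < M33 m := by
    unfold M33
    positivity
  omega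

end

end Pool.Agent.W_7d29a1_C0.E2T96
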