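import Pool.Agent.W_7d29a1_C0.DgC96
import Pool.Agent.W_7d29a1_C0.E2T96

/-!
MP_7d29a1_pr, [CURV0] / [C0], leaf E2, part R (helper96): **THE CORNER IN THE FORM OF THE TERMS OF `E2T96`.** The events of the base path at
the corner as families `LO`, `LT2`, `LTp`, `LT0`, `LDg`; `ownC`, `g1C`, `t0C`, `dgC`: the majorants at the tilted weights (`mi`, `G1`, `T0Q`,
`Gm59` times own) are at most a coefficient times (the mean over a slab of) `rw96 (one96 L zt c)`, up to `er96`.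
-/

set_option autoImplicit false
set_option linter.unusedSectionVars false
set_option linter.unusedVariables false

namespace Pool.Agent.W_7d29a1_C0.E2C96

open Finset MeasureTheory Filter Topology Pool.Agent.W_7d29a1_F Pool.Agent.W_7d29a1_X Pool.Agent.W_7d29a1_C0.Mod92
open Pool.Agent.W_7d29a1_C0.Swap57 Pool.Agent.W_7d29a1_C0.Blk18
open Pool.Agent.W_7d29a1_C0.MicE14 (rh rh_nonneg nn mi)
open Pool.Agent.W_7d29a1_C0.MicH14 (G1 T0Q)
open Pool.Agent.W_7d29a1_C0.T72 (Sp72 Rb72 ind72 ind72_nonneg ind72_le_one meas_ind72 uj72 abs_uj72 meas_uj72)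
open Pool.Agent.W_7d29a1_C0.E2F59 (Gm59 Gm59_nonneg)
open Pool.Agent.W_7d29a1_C0.E2T96
open Pool.Agent.W_7d29a1_C0.MicN96
open Pool.Agent.W_7d29a1_C0.T93 (Fam2)
open Pool.W7d29a1.C0
open Pool.W7d29a1.C0 (gz gm gm_nonneg gm_mono gm_const PP PP_nonneg PP_mono PP_smul)
open Pool.W7d29a1.C0.VT31
open Pool.W7d29a1.C0.R43
open Pool.W7d29a1.C0.C45 (wu meas_wu OwnE)

noncomputable section

/-! ### The events of the base path at the corner -/

section Fam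

variable (μ : Measure ℝ) (s : ℝ) (N : ℕ)

/-- The indicator of an event of the base path, for all ends. -/
def evF (E : (y : ℕ) → Env × Finset ℕ → Px (Pn N y) → Prop) : Fam N := fun y ω S => ind72 (E y) ω S

/-- Own: given what is behind the row `z`, the alternatives on `[be, wr]` have mass at least `exp (- M)`. -/
def LO (z be wr : ℕ) (M : ℝ) : Fam N := evF N fun y ω S => R43.Nta (wm μ s N (Pn N y) ω) (pJ 0 z) be wr M S

/-- Own and micro tie of the window of the row `j` given what is behind the row `m`. -/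
def LT2 (z be wr b j l q : ℕ) (M : ℝ) (m : ℕ) : Fam N := evF N fun y ω S => R43.Nta (wm μ s N (Pn N y) ω) (pJ 0 z) be wr M S ∧
  EvT50.RpM (wm μ s N (Pn N y) ω) (pJ 0 m) b j l q M S

/-- The averaged own mass and micro tie. -/
def LTp (c1 z be wr b j l q : ℕ) (M : ℝ) (m : ℕ) : Fam N := evF N fun y ω S =>
  R43.TauM (wm μ s N (Pn N y) ω) (pJ 0 z) (pJ c1 z) be wr M S ∧ EvT50.RpM (wm μ s N (Pn N y) ω) (pJ 0 m) b j l q M S

/-- The own mass averaged given what is behind the row `m'`, and micro tie. -/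
def LT0 (c1 z be wr b j l q : ℕ) (M : ℝ) (m' m : ℕ) : Fam N := evF N fun y ω S =>
  R43.TauM (wm μ s N (Pn N y) ω) (pJ 0 m') (pJ c1 z) be wr M S ∧ EvT50.RpM (wm μ s N (Pn N y) ω) (pJ 0 m) b j l q M S

/-- Own and the pairs of the window given what is behind it. -/
def LDg (z be wr d' be' m0 : ℕ) (M : ℝ) : Fam N := evF N fun y ω S => R43.Nta (wm μ s N (Pn N y) ω) (pJ 0 z) be wr M S ∧
  Tau (wm μ s N (Pn N y) ω) (pJ 0 d') be' m0 M S

end Fam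

section FamP

variable {μ : Measure ℝ} {s : ℝ} {N : ℕ}

theorem evF_nonneg (E : (y : ℕ) → Env × Finset ℕ → Px (Pn N y) → Prop) (y : ℕ) (ω : Env × Finset ℕ) (S : Px (Pn N y)) :
    0 ≤ evF N E y ω S := by
  have : Nonempty (Px (Pn N y)) := ⟨S⟩
  exact ind72_nonneg _ _ _

theorem evF_le_one (E : (y : ℕ) → Env × Finset ℕ → Px (Pn N y) → Prop) (y : ℕ) (ω : Env × Finset ℕ) (S : Px (Pn N y)) :
    evF N E y ω S ≤ 1 := by
  have : Nonempty (Px (Pn N y)) := ⟨S⟩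
  exact ind72_le_one _ _ _

theorem meas_evF {E : (y : ℕ) → Env × Finset ℕ → Px (Pn N y) → Prop} (h : ∀ y S, MeasurableSet {ω | E y ω S}) (y : ℕ)
    (S : Px (Pn N y)) : Measurable fun ω => evF N E y ω S := by
  have : Nonempty (Px (Pn N y)) := ⟨S⟩
  exact meas_ind72 (h y) S

theorem meas_nta96 {Y : Type*} [DecidableEq Y] {Q : Finset (Finset ℕ)} (p : Px Q → Y) (i j : ℕ) (M : ℝ) (S : Px Q) :
    MeasurableSet {ω | R43.Nta (wm μ s N Q ω) p i j M S} :=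
  measurableSet_le measurable_const (meas_cE meas_wm (f := fun _ => NI i j S) (fun _ => measurable_const) _ S)

theorem meas_tau96 {Y : Type*} [DecidableEq Y] {Q : Finset (Finset ℕ)} (p : Px Q → Y) (i j : ℕ) (M : ℝ) (S : Px Q) :
    MeasurableSet {ω | Tau (wm μ s N Q ω) p i j M S} := by
  have : Nonempty (Px Q) := ⟨S⟩
  have e : {ω | Tau (wm μ s N Q ω) p i j M S} = {ω | R43.TauM (wm μ s N Q ω) p p i j M S} := by
    ext ω
    exact (tauM_self _ _ _ _ _ _).symm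
  rw [e]
  exact C45.meas_tau45 meas_wm _ _ _ _ _ S

theorem meas_LO (z be wr : ℕ) (M : ℝ) (y : ℕ) (S : Px (Pn N y)) : Measurable fun ω => LO μ s N z be wr M y ω S :=
  meas_evF (fun _ S => meas_nta96 _ _ _ _ S) y S

theorem meas_LT2 (z be wr b j l q : ℕ) (M : ℝ) (m : ℕ) (y : ℕ) (S : Px (Pn N y)) :
    Measurable fun ω => LT2 μ s N z be wr b j l q M m y ω S :=
  meas_evF (fun _ S => (meas_nta96 _ _ _ _ S).inter (EvT50.meas_RpM _ _ _ _ _ _ S)) y S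

theorem meas_LTp (c1 z be wr b j l q : ℕ) (M : ℝ) (m : ℕ) (y : ℕ) (S : Px (Pn N y)) :
    Measurable fun ω => LTp μ s N c1 z be wr b j l q M m y ω S :=
  meas_evF (fun _ S => (C45.meas_tau45 meas_wm _ _ _ _ _ S).inter (EvT50.meas_RpM _ _ _ _ _ _ S)) y S

theorem meas_LT0 (c1 z be wr b j l q : ℕ) (M : ℝ) (m' m : ℕ) (y : ℕ) (S : Px (Pn N y)) :
    Measurable fun ω => LT0 μ s N c1 z be wr b j l q M m' m y ω S :=
  meas_evF (fun _ S => (C45.meas_tau45 meas_wm _ _ _ _ _ S).inter (EvT50.meas_RpM _ _ _ _ _ _ S)) y S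

theorem meas_LDg (z be wr d' be' m0 : ℕ) (M : ℝ) (y : ℕ) (S : Px (Pn N y)) :
    Measurable fun ω => LDg μ s N z be wr d' be' m0 M y ω S :=
  meas_evF (fun _ S => (meas_nta96 _ _ _ _ S).inter (meas_tau96 _ _ _ _ S)) y S

/-- The functionals of the families are admissible. -/
theorem qb_evF {E : (y : ℕ) → Env × Finset ℕ → Px (Pn N y) → Prop} (h : ∀ y S, MeasurableSet {ω | E y ω S}) (zt c : ℕ) :
    Qb96 N (one96 N (evF N E) zt c) := qb_one96 (evF_nonneg E) (evF_le_one E) (meas_evF h) zt c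

/-- From the corner to the rows of `E2T96`. -/
theorem to_rw96 [IsProbabilityMeasure μ] {E : (y : ℕ) → Env × Finset ℕ → Px (Pn N y) → Prop} (h : ∀ y S, MeasurableSet {ω | E y ω S})
    {f : Fam N} {D : ℝ} (mf : ∀ y S, Measurable fun ω => f y ω S) (bf : ∀ y ω S, |f y ω S| ≤ D) {y z' zt c : ℕ} (hy : y ≤ N)
    (hz : z' ≤ zt) : ∫ ω, PP (wm μ s N (Pn N y) ω) (fun x z => ind72 (E y) ω x * rh z' c (f y ω) x z) ∂(Pm μ N) ≤
      rw96 μ s N (one96 N (evF N E) zt c) f y := rw_one96 (evF_nonneg E) (evF_le_one E) (meas_evF h) mf bf hy hz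

theorem sum_Ico96 (a n : ℕ) (F : ℕ → ℝ) :
    (((Ico a (a + n)).card : ℝ))⁻¹ * ∑ m ∈ Ico a (a + n), F m = (n : ℝ)⁻¹ * ∑ u ∈ range n, F (a + u) := by
  rw [Nat.card_Ico, Nat.add_sub_cancel_left, sum_Ico_eq_sum_range, Nat.add_sub_cancel_left]

/-- A double mean is a mean. -/
theorem dbl96 (n n' : ℕ) (F : ℕ → ℕ → ℝ) : (n' : ℝ)⁻¹ * ∑ v ∈ range n', (n : ℝ)⁻¹ * ∑ u ∈ range n, F v u =
    ((n' * n : ℕ) : ℝ)⁻¹ * ∑ u ∈ range (n' * n), F (u / n) (u % n) := by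
  rcases Nat.eq_zero_or_pos n with h0 | h0
  · subst h0
    simp
  · have e1 : ∀ m : ℕ, ∑ u ∈ range (m * n), F (u / n) (u % n) = ∑ v ∈ range m, ∑ u ∈ range n, F v u := by
      intro m
      induction m with
      | zero => simp
      | succ m ih =>
        rw [Nat.succ_mul, sum_range_add, ih, sum_range_succ]
        congr 1
        refine sum_congr rfl fun u hu => ?_
        have h1 := mem_range.1 hu
        have e2 : (m * n + u) / n = m := by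
          rw [Nat.mul_comm, Nat.mul_add_div h0, Nat.div_eq_of_lt h1, Nat.add_zero]
        have e3 : (m * n + u) % n = u := by
          rw [Nat.mul_comm, Nat.mul_add_mod, Nat.mod_eq_of_lt h1]
        rw [e2, e3]
    rw [e1, ← mul_sum]
    push_cast
    rw [mul_inv]
    ring

end FamP

/-! ### The majorants -/

section Row

variable {μ : Measure ℝ} {s : ℝ} {N : ℕ} [IsProbabilityMeasure μ] {y : ℕ} [Nonempty (Px (Pn N y))] {γ B : ℝ} {b j : ℕ} {t : ℝ} {c0 K : ℕ}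
  {ε εM K' : ℝ} {c1 be wr z zf zt cc : ℕ} {F M D : ℝ} {f : Fam N}

/-- The tilted weights of the row, for the end `y`. -/
def wv (μ : Measure ℝ) (s : ℝ) (N y : ℕ) (γ B : ℝ) (b j : ℕ) (t : ℝ) (ω : Env × Finset ℕ) : Px (Pn N y) → ℝ :=
  wu μ s N (Pn N y) (uj72 μ s (Pn N y) γ B b j t) ω

omit [IsProbabilityMeasure μ] [Nonempty (Px (Pn N y))] in
theorem wv_eq (ω : Env × Finset ℕ) : wv μ s N y γ B b j t ω = wj μ s N (Pn N y) γ B b j ω t := by
  rw [T72.wj_eq72]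
  rfl

omit [IsProbabilityMeasure μ] [Nonempty (Px (Pn N y))] in
theorem meas_wv (S : Px (Pn N y)) : Measurable fun ω => wv μ s N y γ B b j t ω S := by
  have h : Measurable fun ω : Env × Finset ℕ => wj μ s N (Pn N y) γ B b j ω t S := meas_wt γ B b j t S
  have e : (fun ω => wv μ s N y γ B b j t ω S) = fun ω => wj μ s N (Pn N y) γ B b j ω t S := by
    funext ω
    rw [wv_eq]
  rw [e]
  exact h

/-- The mean over `n` functionals of a row. -/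
def mR (μ : Measure ℝ) (s : ℝ) (N n : ℕ) (Q : ℕ → Fam2 N) (f : Fam N) (y : ℕ) : ℝ :=
  (n : ℝ)⁻¹ * ∑ u ∈ range n, rw96 μ s N (Q u) f y

omit [IsProbabilityMeasure μ] [Nonempty (Px (Pn N y))] in
theorem mR_one (Q : Fam2 N) : mR μ s N 1 (fun _ => Q) f y = rw96 μ s N Q f y := by
  unfold mR
  simp

/-- **The own term.** -/
theorem ownC (R : Rw96 μ s N (Pn N y) γ B b j t c0 K ε εM K') (hM : (N : ℝ) ^ εM ≤ M) (h1 : c1 ≤ be) (h2 : c0 + K ≤ be)
    (h3 : be ≤ wr) (h4 : wr ≤ z) (hz : z ≤ N) (hzf : z ≤ zf) (hc : zf ≤ cc) (hzt : zf ≤ zt)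
    (hf : Sp72 (Pn N y) cc F c0 K (f y)) (hF : F ≤ (N : ℝ) ^ 3) (mf : ∀ y S, Measurable fun ω => f y ω S)
    (bf : ∀ y ω S, |f y ω S| ≤ D) (hy : y ≤ N) :
    ∫ ω, PP (wv μ s N y γ B b j t ω) (fun x x' => mi (wv μ s N y γ B b j t ω) (pJ c1 z) (NI be wr) x *
        rh zf cc (f y ω) x x') ∂(Pm μ N) ≤
      (N : ℝ) ^ ε * rw96 μ s N (one96 N (LO μ s N z be wr M) zt cc) f y + er96 N K' := by
  refine (R.ownR hM h1 h2 h3 h4 hz hzf hc hf hF).trans (add_le_add (mul_le_mul_of_nonneg_left ?_ ?_) le_rfl)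
  · exact to_rw96 (E := fun y ω S => R43.Nta (wm μ s N (Pn N y) ω) (pJ 0 z) be wr M S) (fun _ S => meas_nta96 _ _ _ _ S) mf bf hy hzt
  · exact Real.rpow_nonneg (by linarith [R.N1]) _

/-- **The term `T2`.** -/
theorem t2C (R : Rw96 μ s N (Pn N y) γ B b j t c0 K ε εM K') (hM : (N : ℝ) ^ εM ≤ M) {l q a n : ℕ}
    (hq : 10 * M ≤ q) (hq' : (q : ℝ) ≤ 20 * M) (hbj : b ≤ j) (hl : 3 * q * (l + 1) ≤ b)
    (hn : 0 < n) (ha : c0 + K ≤ a) (ha' : a + n ≤ be + 1) (h1 : c1 ≤ be) (h3 : be ≤ wr) (h4 : wr ≤ z)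
    (hz : z ≤ N) (hzf : z ≤ zf) (hc : zf ≤ cc) (hzt : zf ≤ zt) (hf : Sp72 (Pn N y) cc F c0 K (f y)) (hF : F ≤ (N : ℝ) ^ 3)
    (mf : ∀ y S, Measurable fun ω => f y ω S) (bf : ∀ y ω S, |f y ω S| ≤ D) (hy : y ≤ N) :
    ∫ ω, PP (wv μ s N y γ B b j t ω) (fun x x' => mi (wv μ s N y γ B b j t ω) (pJ c1 z) (NI be wr) x *
        (nn (wv μ s N y γ B b j t ω) (Ico a (a + n)) (pJ 0) (gg μ s (Pn N y) γ B b ω j) x * rh zf cc (f y ω) x x')) ∂(Pm μ N) ≤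
      B * ((N : ℝ) ^ ε * mR μ s N n (fun u => one96 N (LT2 μ s N z be wr b j l q M (a + u)) zt cc) f y) + er96 N K' := by
  have hJ0 : (Ico a (a + n)).Nonempty := nonempty_Ico.2 (by omega)
  refine (R.T2R hM hq hq' hbj hl hJ0 (fun m hm => ?_) h1 h3 h4 hz hzf hc hf hF).trans (add_le_add (mul_le_mul_of_nonneg_left
    (mul_le_mul_of_nonneg_left ?_ ?_) R.B0) le_rfl)
  · have := mem_Ico.1 hm
    omega
  · rw [sum_Ico96]
    refine mul_le_mul_of_nonneg_left (sum_le_sum fun u _ => ?_) (by positivity)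
    exact to_rw96 (E := fun y ω S => R43.Nta (wm μ s N (Pn N y) ω) (pJ 0 z) be wr M S ∧
      EvT50.RpM (wm μ s N (Pn N y) ω) (pJ 0 (a + u)) b j l q M S)
      (fun _ S => (meas_nta96 _ _ _ _ S).inter (EvT50.meas_RpM _ _ _ _ _ _ S)) mf bf hy hzt
  · exact Real.rpow_nonneg (by linarith [R.N1]) _

/-- **The term `Tp`.** -/
theorem tpC (R : Rw96 μ s N (Pn N y) γ B b j t c0 K ε εM K') (hM : (N : ℝ) ^ εM ≤ M) {l q a n : ℕ}
    (hq : 10 * M ≤ q) (hq' : (q : ℝ) ≤ 20 * M) (hbj : b ≤ j) (hl : 3 * q * (l + 1) ≤ b)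
    (hn : 0 < n) (ha : c0 + K ≤ a) (ha' : a + n ≤ be + 1) (h1 : c1 ≤ be) (h3 : be ≤ wr) (h4 : wr ≤ z)
    (hz : z ≤ N) (hzf : z ≤ zf) (hc : zf ≤ cc) (hzt : zf ≤ zt) (hf : Sp72 (Pn N y) cc F c0 K (f y)) (hF : F ≤ (N : ℝ) ^ 3)
    (mf : ∀ y S, Measurable fun ω => f y ω S) (bf : ∀ y ω S, |f y ω S| ≤ D) (hy : y ≤ N) :
    ∫ ω, PP (wv μ s N y γ B b j t ω) (fun x x' => mi (wv μ s N y γ B b j t ω) (pJ c1 z) (NI be wr) x *
        (cE (wv μ s N y γ B b j t ω) (pJ c1 z) (nn (wv μ s N y γ B b j t ω) (Ico a (a + n)) (pJ 0) (gg μ s (Pn N y) γ B b ω j)) x *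
          rh zf cc (f y ω) x x')) ∂(Pm μ N) ≤
      B * ((N : ℝ) ^ ε * mR μ s N n (fun u => one96 N (LTp μ s N c1 z be wr b j l q M (a + u)) zt cc) f y) + er96 N K' := by
  have hJ0 : (Ico a (a + n)).Nonempty := nonempty_Ico.2 (by omega)
  refine (R.TpR hM hq hq' hbj hl hJ0 (fun m hm => ?_) h1 h3 h4 hz hzf hc hf hF).trans (add_le_add (mul_le_mul_of_nonneg_left
    (mul_le_mul_of_nonneg_left ?_ ?_) R.B0) le_rfl)
  · have := mem_Ico.1 hm
    omega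
  · rw [sum_Ico96]
    refine mul_le_mul_of_nonneg_left (sum_le_sum fun u _ => ?_) (by positivity)
    exact to_rw96 (E := fun y ω S => R43.TauM (wm μ s N (Pn N y) ω) (pJ 0 z) (pJ c1 z) be wr M S ∧
      EvT50.RpM (wm μ s N (Pn N y) ω) (pJ 0 (a + u)) b j l q M S)
      (fun _ S => (C45.meas_tau45 meas_wm _ _ _ _ _ S).inter (EvT50.meas_RpM _ _ _ _ _ _ S)) mf bf hy hzt
  · exact Real.rpow_nonneg (by linarith [R.N1]) _

/-- **The term `D gam` times own.** -/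
theorem dgC {c' d' be' m0 : ℕ} (R : Rw96 μ s N (Pn N y) γ B b j t c0 K ε εM K') (hM : (N : ℝ) ^ εM ≤ M) (h1 : c1 ≤ be)
    (h2 : c0 + K ≤ be) (h3 : be ≤ wr) (h4 : wr ≤ z) (hz : z ≤ N) (hzf : z ≤ zf) (hc : zf ≤ cc) (hzt : zf ≤ zt) (g1 : c' ≤ be')
    (g2 : m0 ≤ d') (g3 : c' ≤ d') (g4 : c0 + K ≤ d') (g5 : d' ≤ N) (hf : Sp72 (Pn N y) cc F c0 K (f y)) (hF : F ≤ (N : ℝ) ^ 3)
    (mf : ∀ y S, Measurable fun ω => f y ω S) (bf : ∀ y ω S, |f y ω S| ≤ D) (hy : y ≤ N) :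
    ∫ ω, PP (wv μ s N y γ B b j t ω) (fun x x' => mi (wv μ s N y γ B b j t ω) (pJ c1 z) (NI be wr) x *
        (Gm59 (wm μ s N (Pn N y) ω) (gg μ s (Pn N y) γ B b ω j) (sg ω.2 j : ℝ) (pJ c' d') be' m0 x * rh zf cc (f y ω) x x')) ∂(Pm μ N) ≤
      2 * ((N : ℝ) ^ ε * rw96 μ s N (one96 N (LDg μ s N z be wr d' be' m0 M) zt cc) f y) + er96 N K' := by
  refine (R.dgR hM h1 h2 h3 h4 hz hzf hc g1 g2 g3 g4 g5 hf hF).trans (add_le_add (mul_le_mul_of_nonneg_left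
    (mul_le_mul_of_nonneg_left ?_ ?_) zero_le_two) le_rfl)
  · exact to_rw96 (E := fun y ω S => R43.Nta (wm μ s N (Pn N y) ω) (pJ 0 z) be wr M S ∧ Tau (wm μ s N (Pn N y) ω) (pJ 0 d') be' m0 M S)
      (fun _ S => (meas_nta96 _ _ _ _ S).inter (meas_tau96 _ _ _ _ S)) mf bf hy hzt
  · exact Real.rpow_nonneg (by linarith [R.N1]) _

/-! ### Integrable majorants -/

omit [Nonempty (Px (Pn N y))] in
theorem int_pp96 {Fn : Env × Finset ℕ → Px (Pn N y) → Px (Pn N y) → ℝ} {Λ : ℝ} (hy : y ≤ N)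
    (hm : ∀ x x', Measurable fun ω => Fn ω x x') (h0 : ∀ ω x x', 0 ≤ Fn ω x x') (h : ∀ ω x x', Fn ω x x' ≤ Λ) :
    Integrable (fun ω => PP (wv μ s N y γ B b j t ω) (Fn ω)) (Pm μ N) := by
  have := ne_Pn hy
  exact int_bdd (M := Λ) (C45.meas_PP45 (fun S => meas_wv S) hm) fun ω => C45.abs_PP_le45 _ (h0 ω) (h ω)

variable {J : Finset ℕ}

theorem gB96 (hB : 0 ≤ B) (ω : Env × Finset ℕ) (x x' : Px (Pn N y)) :
    |gg μ s (Pn N y) γ B b ω j x - gg μ s (Pn N y) γ B b ω j x'| ≤ B := by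
  have h5 := abs_gj (μ := μ) (s := s) (δ := γ) ω.1 hB (abs_sg ω.2 j).le b j x
  have h6 := abs_gj (μ := μ) (s := s) (δ := γ) ω.1 hB (abs_sg ω.2 j).le b j x'
  exact (abs_sub _ _).trans (by unfold gg; linarith)

theorem nn_mem96 (hB : 0 ≤ B) (hJ : J.Nonempty) (w : Px (Pn N y) → ℝ) (ω : Env × Finset ℕ) (x : Px (Pn N y)) :
    0 ≤ nn w J (pJ 0) (gg μ s (Pn N y) γ B b ω j) x ∧ nn w J (pJ 0) (gg μ s (Pn N y) γ B b ω j) x ≤ B := by
  have hcard : (0 : ℝ) < J.card := Nat.cast_pos.2 (card_pos.2 hJ)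
  unfold nn
  refine ⟨mul_nonneg (inv_nonneg.2 hcard.le) (sum_nonneg fun m _ => cE_nonneg _ _ (fun y => abs_nonneg _) x), ?_⟩
  rw [inv_mul_le_iff₀ hcard]
  refine (sum_le_sum fun m _ => ?_).trans (le_of_eq (by rw [sum_const, nsmul_eq_mul]))
  have h1 := cE_mono w (pJ 0 m) (f := fun T => |gg μ s (Pn N y) γ B b ω j x - gg μ s (Pn N y) γ B b ω j T|)
    (g := B • fun _ => (1 : ℝ)) (fun T => by
      rw [Pi.smul_apply, smul_eq_mul, mul_one]
      exact gB96 hB ω x T) x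
  rwa [cE_smul, Pi.smul_apply, smul_eq_mul, congrFun (cE_one _ _) x, mul_one] at h1

theorem meas_nn96 (x : Px (Pn N y)) :
    Measurable fun ω => nn (wv μ s N y γ B b j t ω) J (pJ 0) (gg μ s (Pn N y) γ B b ω j) x := by
  unfold nn
  refine Measurable.const_mul (Finset.measurable_fun_sum _ fun m _ => ?_) _
  exact meas_cE (fun S => meas_wv S) (f := fun ω T => |gg μ s (Pn N y) γ B b ω j x - gg μ s (Pn N y) γ B b ω j T|)
    (fun T => ((meas_gg γ B b j x).sub (meas_gg γ B b j T)).abs) _ x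

theorem meas_mi96 {Y : Type*} [DecidableEq Y] (p : Px (Pn N y) → Y) (x : Px (Pn N y)) :
    Measurable fun ω => mi (wv μ s N y γ B b j t ω) p (NI be wr) x :=
  meas_cE (fun S => meas_wv S) (f := fun _ => NI be wr x) (fun _ => measurable_const) _ x

theorem mi_mem96 {Y : Type*} [DecidableEq Y] (w : Px (Pn N y) → ℝ) (p : Px (Pn N y) → Y) (x : Px (Pn N y)) :
    0 ≤ mi w p (NI be wr) x ∧ mi w p (NI be wr) x ≤ 1 := ⟨mI_nonneg _ _ _ _ _, mI_le_one _ _ _ _ _⟩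

/-- **The majorant `G1`.** -/
theorem g1C (R : Rw96 μ s N (Pn N y) γ B b j t c0 K ε εM K') (hM : (N : ℝ) ^ εM ≤ M) {l q a n : ℕ}
    (hq : 10 * M ≤ q) (hq' : (q : ℝ) ≤ 20 * M) (hbj : b ≤ j) (hl : 3 * q * (l + 1) ≤ b)
    (hn : 0 < n) (ha : c0 + K ≤ a) (ha' : a + n ≤ be + 1) (h1 : c1 ≤ be) (h3 : be ≤ wr) (h4 : wr ≤ z)
    (hz : z ≤ N) (hzf : z ≤ zf) (hc : zf ≤ cc) (hzt : zf ≤ zt) (hf : Sp72 (Pn N y) cc F c0 K (f y)) (hF : F ≤ (N : ℝ) ^ 3)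
    (mf : ∀ y S, Measurable fun ω => f y ω S) (bf : ∀ y ω S, |f y ω S| ≤ D) (hy : y ≤ N) {α β : ℝ} (hα : 0 ≤ α) (hβ : 0 ≤ β) :
    ∫ ω, G1 (wv μ s N y γ B b j t ω) (pJ c1 z) (NI be wr) (rh zf cc (f y ω))
        (nn (wv μ s N y γ B b j t ω) (Ico a (a + n)) (pJ 0) (gg μ s (Pn N y) γ B b ω j)) α β ∂(Pm μ N) ≤
      α * (B * ((N : ℝ) ^ ε * mR μ s N n (fun u => one96 N (LT2 μ s N z be wr b j l q M (a + u)) zt cc) f y)) +
      β * (B * ((N : ℝ) ^ ε * mR μ s N n (fun u => one96 N (LTp μ s N c1 z be wr b j l q M (a + u)) zt cc) f y)) +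
      (α + β) * er96 N K' := by
  have hJ0 : (Ico a (a + n)).Nonempty := nonempty_Ico.2 (by omega)
  have hB := R.B0
  have hF0 := F0_96 hf
  have e2 := t2C R hM hq hq' hbj hl hn ha ha' h1 h3 h4 hz hzf hc hzt hf hF mf bf hy
  have ep := tpC R hM hq hq' hbj hl hn ha ha' h1 h3 h4 hz hzf hc hzt hf hF mf bf hy
  have i2 : Integrable (fun ω => PP (wv μ s N y γ B b j t ω) (fun x x' => mi (wv μ s N y γ B b j t ω) (pJ c1 z) (NI be wr) x *
      (nn (wv μ s N y γ B b j t ω) (Ico a (a + n)) (pJ 0) (gg μ s (Pn N y) γ B b ω j) x * rh zf cc (f y ω) x x'))) (Pm μ N) :=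
    int_pp96 (Λ := 1 * (B * (2 * F))) hy (fun x x' => (meas_mi96 _ x).mul ((meas_nn96 x).mul (C45.meas_rh45 hf x x')))
      (fun ω x x' => mul_nonneg (mi_mem96 _ _ x).1 (mul_nonneg (nn_mem96 hB hJ0 _ ω x).1 (rh_nonneg _ _ _)))
      fun ω x x' => mul_le_mul (mi_mem96 _ _ x).2 (mul_le_mul (nn_mem96 hB hJ0 _ ω x).2 (C45.rh_le45 hf ω x x') (rh_nonneg _ _ _) hB)
        (mul_nonneg (nn_mem96 hB hJ0 _ ω x).1 (rh_nonneg _ _ _)) zero_le_one
  have cEm : ∀ (ω : Env × Finset ℕ) (x : Px (Pn N y)), 0 ≤ cE (wv μ s N y γ B b j t ω) (pJ c1 z)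
      (nn (wv μ s N y γ B b j t ω) (Ico a (a + n)) (pJ 0) (gg μ s (Pn N y) γ B b ω j)) x ∧
      cE (wv μ s N y γ B b j t ω) (pJ c1 z)
        (nn (wv μ s N y γ B b j t ω) (Ico a (a + n)) (pJ 0) (gg μ s (Pn N y) γ B b ω j)) x ≤ B := fun ω x => by
    refine ⟨cE_nonneg _ _ (fun T => (nn_mem96 hB hJ0 _ ω T).1) x, ?_⟩
    have h5 := cE_mono (wv μ s N y γ B b j t ω) (pJ c1 z)
      (f := nn (wv μ s N y γ B b j t ω) (Ico a (a + n)) (pJ 0) (gg μ s (Pn N y) γ B b ω j))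
      (g := B • fun _ => (1 : ℝ)) (fun T => by
        rw [Pi.smul_apply, smul_eq_mul, mul_one]
        exact (nn_mem96 hB hJ0 _ ω T).2) x
    rwa [cE_smul, Pi.smul_apply, smul_eq_mul, congrFun (cE_one _ _) x, mul_one] at h5
  have ip : Integrable (fun ω => PP (wv μ s N y γ B b j t ω) (fun x x' => mi (wv μ s N y γ B b j t ω) (pJ c1 z) (NI be wr) x *
      (cE (wv μ s N y γ B b j t ω) (pJ c1 z) (nn (wv μ s N y γ B b j t ω) (Ico a (a + n)) (pJ 0) (gg μ s (Pn N y) γ B b ω j)) x *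
        rh zf cc (f y ω) x x'))) (Pm μ N) :=
    int_pp96 (Λ := 1 * (B * (2 * F))) hy (fun x x' => (meas_mi96 _ x).mul ((meas_cE (fun S => meas_wv S)
      (f := fun ω => nn (wv μ s N y γ B b j t ω) (Ico a (a + n)) (pJ 0) (gg μ s (Pn N y) γ B b ω j)) (fun T => meas_nn96 T) _ x).mul
        (C45.meas_rh45 hf x x')))
      (fun ω x x' => mul_nonneg (mi_mem96 _ _ x).1 (mul_nonneg (cEm ω x).1 (rh_nonneg _ _ _)))
      fun ω x x' => mul_le_mul (mi_mem96 _ _ x).2 (mul_le_mul (cEm ω x).2 (C45.rh_le45 hf ω x x') (rh_nonneg _ _ _) hB)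
        (mul_nonneg (cEm ω x).1 (rh_nonneg _ _ _)) zero_le_one
  unfold G1
  rw [integral_add (i2.const_mul α) (ip.const_mul β), integral_const_mul, integral_const_mul]
  have s1 := mul_le_mul_of_nonneg_left e2 hα
  have s2 := mul_le_mul_of_nonneg_left ep hβ
  linarith

/-- **The majorant `T0Q`.** -/
theorem t0C (R : Rw96 μ s N (Pn N y) γ B b j t c0 K ε εM K') (hM : (N : ℝ) ^ εM ≤ M) {l q a n a' n' : ℕ}
    (hq : 10 * M ≤ q) (hq' : (q : ℝ) ≤ 20 * M) (hbj : b ≤ j) (hl : 3 * q * (l + 1) ≤ b)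
    (hn : 0 < n) (hn' : 0 < n') (ha : c0 + K ≤ a) (haa : a + n ≤ a' + 1) (hzf : a' + n' ≤ zf + 1) (hc : zf ≤ cc) (hzt : zf ≤ zt)
    (hf : Sp72 (Pn N y) cc F c0 K (f y)) (hF : F ≤ (N : ℝ) ^ 3) (mf : ∀ y S, Measurable fun ω => f y ω S)
    (bf : ∀ y ω S, |f y ω S| ≤ D) (hy : y ≤ N) :
    ∫ ω, T0Q (wv μ s N y γ B b j t ω) (pJ c1 z) (Ico a' (a' + n')) (pJ 0) (NI be wr) (rh zf cc (f y ω))
        (nn (wv μ s N y γ B b j t ω) (Ico a (a + n)) (pJ 0) (gg μ s (Pn N y) γ B b ω j)) ∂(Pm μ N) ≤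
      B * ((N : ℝ) ^ ε * mR μ s N (n' * n) (fun u => one96 N (LT0 μ s N c1 z be wr b j l q M (a' + u / n) (a + u % n)) zt cc) f y) +
      er96 N K' := by
  have hJ0 : (Ico a (a + n)).Nonempty := nonempty_Ico.2 (by omega)
  have hB := R.B0
  have hn0 : (0 : ℝ) < n' := by exact_mod_cast hn'
  have cEm : ∀ (m : ℕ) (ω : Env × Finset ℕ) (x : Px (Pn N y)), 0 ≤ cE (wv μ s N y γ B b j t ω) (pJ 0 m)
      (mi (wv μ s N y γ B b j t ω) (pJ c1 z) (NI be wr)) x ∧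
      cE (wv μ s N y γ B b j t ω) (pJ 0 m) (mi (wv μ s N y γ B b j t ω) (pJ c1 z) (NI be wr)) x ≤ 1 := fun m ω x =>
    ⟨cE_nonneg _ _ (fun T => (mi_mem96 _ _ T).1) x, cE_mI_le_one _ _ _ _ _ _⟩
  have i1 : ∀ m ∈ Ico a' (a' + n'), Integrable (fun ω => PP (wv μ s N y γ B b j t ω) (fun x x' =>
      cE (wv μ s N y γ B b j t ω) (pJ 0 m) (mi (wv μ s N y γ B b j t ω) (pJ c1 z) (NI be wr)) x *
      (nn (wv μ s N y γ B b j t ω) (Ico a (a + n)) (pJ 0) (gg μ s (Pn N y) γ B b ω j) x * rh zf cc (f y ω) x x'))) (Pm μ N) :=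
    fun m _ => int_pp96 (Λ := 1 * (B * (2 * F))) hy (fun x x' => (meas_cE (fun S => meas_wv S)
      (f := fun ω => mi (wv μ s N y γ B b j t ω) (pJ c1 z) (NI be wr)) (fun T => meas_mi96 _ T) _ x).mul
        ((meas_nn96 x).mul (C45.meas_rh45 hf x x')))
      (fun ω x x' => mul_nonneg (cEm m ω x).1 (mul_nonneg (nn_mem96 hB hJ0 _ ω x).1 (rh_nonneg _ _ _)))
      fun ω x x' => mul_le_mul (cEm m ω x).2 (mul_le_mul (nn_mem96 hB hJ0 _ ω x).2 (C45.rh_le45 hf ω x x') (rh_nonneg _ _ _) hB)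
        (mul_nonneg (nn_mem96 hB hJ0 _ ω x).1 (rh_nonneg _ _ _)) zero_le_one
  unfold T0Q
  rw [integral_const_mul, integral_finsetSum _ i1, sum_Ico96]
  have h5 : ∀ v ∈ range n', ∫ ω, PP (wv μ s N y γ B b j t ω) (fun x x' =>
      cE (wv μ s N y γ B b j t ω) (pJ 0 (a' + v)) (mi (wv μ s N y γ B b j t ω) (pJ c1 z) (NI be wr)) x *
      (nn (wv μ s N y γ B b j t ω) (Ico a (a + n)) (pJ 0) (gg μ s (Pn N y) γ B b ω j) x * rh zf cc (f y ω) x x')) ∂(Pm μ N) ≤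
      B * ((N : ℝ) ^ ε * ((n : ℝ)⁻¹ * ∑ u ∈ range n,
        rw96 μ s N (one96 N (LT0 μ s N c1 z be wr b j l q M (a' + v) (a + u)) zt cc) f y)) + er96 N K' := fun v hv => by
    have hv' := mem_range.1 hv
    refine (R.T0Q hM hq hq' hbj hl hJ0 (m' := a' + v) (fun m hm => ?_) (pJ (Q := Pn N y) c1 z) (w1 := be) (w2 := wr) (by omega) hc hf
      hF).trans (add_le_add (mul_le_mul_of_nonneg_left (mul_le_mul_of_nonneg_left ?_ ?_) hB) le_rfl)
    · have := mem_Ico.1 hm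
      omega
    · rw [sum_Ico96]
      refine mul_le_mul_of_nonneg_left (sum_le_sum fun u _ => ?_) (by positivity)
      exact to_rw96 (E := fun y ω S => R43.TauM (wm μ s N (Pn N y) ω) (pJ 0 (a' + v)) (pJ c1 z) be wr M S ∧
        EvT50.RpM (wm μ s N (Pn N y) ω) (pJ 0 (a + u)) b j l q M S)
        (fun _ S => (C45.meas_tau45 meas_wm _ _ _ _ _ S).inter (EvT50.meas_RpM _ _ _ _ _ _ S)) mf bf hy hzt
    · exact Real.rpow_nonneg (by linarith [R.N1]) _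
  refine (mul_le_mul_of_nonneg_left (sum_le_sum h5) (inv_nonneg.2 hn0.le)).trans (le_of_eq ?_)
  unfold mR
  rw [← dbl96 n n' fun v u => rw96 μ s N (one96 N (LT0 μ s N c1 z be wr b j l q M (a' + v) (a + u)) zt cc) f y, sum_add_distrib,
    sum_const, card_range, nsmul_eq_mul, mul_add, ← mul_assoc, ← mul_assoc, inv_mul_cancel₀ hn0.ne', one_mul]
  congr 1
  rw [mul_sum, mul_sum, mul_sum]
  refine sum_congr rfl fun v _ => ?_
  ring

end Row

end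

end Pool.Agent.W_7d29a1_C0.E2C96
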