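import Pool.Agent.W_7d29a1_C0.E2S39D
import Pool.Agent.W_7d29a1_C0.E2C96

/-!
STORM C0, leaf E2 (helper39): THE TERMS OF THE ROW BOUND OF (E2), LITERAL.

Blocks: `zz39 sg j` end of the block of the row `j`, `cc39 sg j` its start. Part R, with the names of helper96: `tLO`, `tT2`, `tTp`, `tT0`
(`LO`, `LT2`, and `LTp`, `LT0` with `Rp` instead of `TauM`). Part L: `lLO`, `lOb`, `lT2`, `lTp`, `lT0`, `lLg`. `rw_tau39`, `mR_tau39`: from
`TauM` to `Rp`. `mR_or39`: a union of two events.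
-/

set_option autoImplicit false
set_option linter.unusedSectionVars false
set_option linter.unusedVariables false

namespace Pool.Agent.W_7d29a1_C0.E2S39

open MeasureTheory ProbabilityTheory Filter Topology Finset
open Pool.Agent.W_7d29a1_F Pool.Agent.W_7d29a1_X Pool.Agent.W_7d29a1_h4g Pool.Agent.W_7d29a1_H
open Pool.Agent.W_7d29a1_HS (In wd md)
open Pool.Agent.W_7d29a1_HZ Pool.Agent.W_7d29a1_HZ.R72 Pool.Agent.W_7d29a1_Z.Asm72
open Pool.Agent.W_7d29a1_HZ.Z86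
open Pool.Agent.W_7d29a1_C0.P86
open Pool.Agent.W_7d29a1_C0.Mod92
open Pool.Agent.W_7d29a1_C0.Swap57 (NI cE2 NI_nonneg)
open Pool.Agent.W_7d29a1_C0.MicE14 (rh rh_nonneg)
open Pool.Agent.W_7d29a1_C0.T72 (Sp72 ind72 meas_ind72 NN72)
open Pool.Agent.W_7d29a1_C0.T93 (rdist Fam2 pr2 rw2 grp93)
open Pool.Agent.W_7d29a1_C0.EvT50 (RpM meas_Rp50 meas_RpM)
open Pool.Agent.W_7d29a1_C0.E2T96 (Trm96 one96 qb_one96 pr_one96 pr96 rw96)
open Pool.Agent.W_7d29a1_C0.E2C96 (evF evF_nonneg evF_le_one meas_evF meas_nta96 mR LO LT2 LTp LT0)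
open Pool.Agent.W_7d29a1_C0.E2G43 (G43)
open Pool.W7d29a1.C0 (gz gm gz_pos gm_nonneg gm_mono gm_const PP PP_mono PP_nonneg PP_add)
open Pool.W7d29a1.C0.VT31
open Pool.W7d29a1.C0.R43
open Pool.W7d29a1.C0.C45 (own_rp45 meas_PP45 meas_rh45 abs_PP_le45 rh_le45 meas_tau45)
open scoped ENNReal

noncomputable section

variable {μ : Measure ℝ} {s : ℝ} {N : ℕ}

/-! ### The blocks -/

/-- The end of the block of the row. -/
abbrev zz39 (sg j : ℕ) : ℕ := (j / sg + 1) * sg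

/-- The start of the block of the row. -/
abbrev cc39 (sg j : ℕ) : ℕ := j / sg * sg

theorem lin39 {b0 b sg gl d j : ℕ} (X : G43 N b0 b sg gl d j) : cc39 sg j + b ≤ j ∧ j + b ≤ zz39 sg j ∧ zz39 sg j + 7 * gl ≤ d ∧
    b ≤ gl ∧ 8 * gl ≤ j + 1 ∧ d ≤ N ∧ b / 8 + b / 8 = b / 4 ∧ b / 4 + b / 4 = b / 2 ∧ b / 2 + b / 2 = b ∧ b / 16 + b / 16 = b / 8 ∧
    b0 ≤ b / 16 ∧ 1 ≤ b0 ∧ 16 ≤ gl :=
  ⟨X.lo, X.hi, X.zd, X.bg, X.jg, X.dN, X.b8.1, X.b8.2.1, X.b8.2.2.1, X.b8.2.2.2.1, X.b8.2.2.2.2, X.b0p, X.glp⟩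

theorem blz39 {sg j k : ℕ} (hs : 0 < sg) (h : k ≤ j) : zz39 sg k ≤ cc39 sg j ∨ (zz39 sg k = zz39 sg j ∧ cc39 sg k = cc39 sg j ∧ j < k + sg) := by
  rcases blk39 hs h with g | ⟨g, g'⟩
  · exact Or.inl g
  · refine Or.inr ⟨?_, ?_, g'⟩
    · show (k / sg + 1) * sg = (j / sg + 1) * sg
      rw [g]
    · show k / sg * sg = j / sg * sg
      rw [g]

namespace Rd39

variable {c₀ Θ δ a ε n c ε' θ κ M e e₀ x : ℝ} {ys S : Finset ℕ} {b0 b sg gl d r l k r0 : ℕ}

section R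

variable [IsProbabilityMeasure μ] (H : Rd39 μ s c₀ Θ δ a ε n c ε' θ κ M e e₀ x N ys S b0 b sg gl d r l k r0) (al : ℝ) (al0 : 0 ≤ al)

/-- The own mass, part R. -/
def tLO {G : ℝ} (hG : G = (wd μ s b / b) ^ 2 ∨ G = wd μ s r / r) (hal : al ^ 2 ≤ n ^ e₀ * G) : Trm96 μ s N ys S r (n ^ (Θ - 2 * x)) :=
  H.tO al al0 hG hal (E := eNta μ s N (fun _ => 0) (zz39 sg) (fun j => j + b / 2) (fun j => j + b) M)
    (p := fun j => ⟨0, zz39 sg j, 0, zz39 sg j, j + b / 2, j + b, l, Ty.R, False⟩)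
    (H.fNta H.lθ fun j hj => by
      have h1 := lin39 (H.geo j hj)
      have h2 := H.lb
      show 0 ≤ j + b / 2 ∧ j + b / 2 + l ≤ j + b ∧ j + b ≤ zz39 sg j ∧ zz39 sg j ≤ d - gl
      omega)
    fun k hk j hj hkj => by
      have h1 := lin39 (H.geo j hj)
      have h2 := lin39 (H.geo k hk)
      have h3 := blz39 H.sgp (show k ≤ j by omega)
      exact Or.inl (befR (Or.inl (show zz39 sg k ≤ j + b / 2 by omega)))

theorem tLO_Q {G : ℝ} (hG : G = (wd μ s b / b) ^ 2 ∨ G = wd μ s r / r) (hal : al ^ 2 ≤ n ^ e₀ * G) (u j : ℕ) :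
    (H.tLO al al0 hG hal).Q u j = one96 N (LO μ s N (zz39 sg j) (j + b / 2) (j + b) M) (d - gl) d := rfl

variable (hal : al ^ 2 ≤ n ^ e₀) {A : ℕ → ℕ} {nn : ℕ} (hA : ∀ j ∈ S, j + b / 8 < A j ∧ A j + nn ≤ j + 3 * (b / 8) + 1)

/-- The micro ties of part R are dominated by places. -/
theorem fmR {u : ℕ} (hu : u < nn) (H : Rd39 μ s c₀ Θ δ a ε n c ε' θ κ M e e₀ x N ys S b0 b sg gl d r l k r0)
    (hA : ∀ j ∈ S, j + b / 8 < A j ∧ A j + nn ≤ j + 3 * (b / 8) + 1) :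
    Fp μ s N ((N : ℝ) ^ κ) M θ (d - gl) ys S (fun j => ⟨0, A j + u, 0, A j + u, j - b0, j + b0, l, Ty.R, False⟩)
      (fI (eRm μ s N (fun _ => 0) (fun j => A j + u) b0 l k M)) l :=
  H.fRm fun j hj => by
    have h1 := lin39 (H.geo j hj)
    have h2 := hA j hj
    show b0 ≤ j ∧ 0 ≤ j - b0 ∧ j + b0 ≤ A j + u ∧ A j + u ≤ d - gl
    omega

/-- The order of own places `(0, z)` and micro ties of part R. -/
theorem omR {u : ℕ} (hu : u < nn) (H : Rd39 μ s c₀ Θ δ a ε n c ε' θ κ M e e₀ x N ys S b0 b sg gl d r l k r0)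
    (hA : ∀ j ∈ S, j + b / 8 < A j ∧ A j + nn ≤ j + 3 * (b / 8) + 1) {k' j : ℕ} (hk : k' ∈ S) (hj : j ∈ S) (hkj : k' + b ≤ j) :
    (j < k' + sg ∧ Os (fun j => ⟨0, zz39 sg j, 0, zz39 sg j, j + b / 2, j + b, l, Ty.R, False⟩)
      (fun j => ⟨0, A j + u, 0, A j + u, j - b0, j + b0, l, Ty.R, False⟩) k' j) ∨
    Od (fun j => ⟨0, zz39 sg j, 0, zz39 sg j, j + b / 2, j + b, l, Ty.R, False⟩)
      (fun j => ⟨0, A j + u, 0, A j + u, j - b0, j + b0, l, Ty.R, False⟩) k' j := by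
  have h1 := lin39 (H.geo j hj)
  have h2 := lin39 (H.geo k' hk)
  have h3 := hA j hj
  have h4 := hA k' hk
  rcases blz39 H.sgp (show k' ≤ j by omega) with h5 | h5
  · exact Or.inr (Or.inl ⟨befR (Or.inl (show A j + u ≤ j + b / 2 by omega)), befR (Or.inl (show zz39 sg k' ≤ j + b / 2 by omega)),
      befR (Or.inl (show A k' + u ≤ j + b / 2 by omega)), befR (Or.inl (show zz39 sg k' ≤ j - b0 by omega)),
      befR (Or.inl (show A k' + u ≤ j - b0 by omega)), befR (Or.inl (show A k' + u ≤ k' + b / 2 by omega))⟩)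
  · exact Or.inl ⟨h5.2.2, Or.inl ⟨befR (Or.inl (show A j + u ≤ j + b / 2 by omega)), befR (Or.inl (show A k' + u ≤ j + b / 2 by omega)),
      befR (Or.inl (show A k' + u ≤ j - b0 by omega))⟩⟩

/-- Own mass and micro tie, part R. -/
def tT2 : Trm96 μ s N ys S r (n ^ (Θ - 2 * x)) :=
  H.tM al al0 hal nn (E := eNta μ s N (fun _ => 0) (zz39 sg) (fun j => j + b / 2) (fun j => j + b) M)
    (p := fun j => ⟨0, zz39 sg j, 0, zz39 sg j, j + b / 2, j + b, l, Ty.R, False⟩)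
    (H.fNta H.lθ fun j hj => by
      have h1 := lin39 (H.geo j hj)
      have h2 := H.lb
      show 0 ≤ j + b / 2 ∧ j + b / 2 + l ≤ j + b ∧ j + b ≤ zz39 sg j ∧ zz39 sg j ≤ d - gl
      omega) (T := fun u => eRm μ s N (fun _ => 0) (fun j => A j + u) b0 l k M)
    (q := fun u j => ⟨0, A j + u, 0, A j + u, j - b0, j + b0, l, Ty.R, False⟩) (fun u hu => fmR hu H hA)
    fun u hu k' hk j hj hkj => omR hu H hA hk hj hkj

theorem tT2_Q (u j : ℕ) : (H.tT2 al al0 hal hA).Q u j =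
    one96 N (LT2 μ s N (zz39 sg j) (j + b / 2) (j + b) b0 j l k M (A j + u)) (d - gl) d := rfl

theorem tT2_n : (H.tT2 al al0 hal hA).n = nn := rfl

/-- The alternative on the own window given `(0, z)`, and the micro tie, part R. -/
def tTp : Trm96 μ s N ys S r (n ^ (Θ - 2 * x)) :=
  H.tM al al0 hal nn (E := eRp μ s N (fun _ => 0) (zz39 sg) (fun j => j + b / 2) l k M)
    (p := fun j => ⟨0, zz39 sg j, 0, zz39 sg j, j + b / 2, j + b, l, Ty.R, False⟩)
    (H.fRp fun j hj => by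
      have h1 := lin39 (H.geo j hj)
      have h2 := H.kl
      show 0 ≤ j + b / 2 ∧ j + b / 2 + 3 * k * (l + 1) ≤ j + b ∧ j + b ≤ zz39 sg j ∧ zz39 sg j ≤ d - gl
      omega) (T := fun u => eRm μ s N (fun _ => 0) (fun j => A j + u) b0 l k M)
    (q := fun u j => ⟨0, A j + u, 0, A j + u, j - b0, j + b0, l, Ty.R, False⟩) (fun u hu => fmR hu H hA)
    fun u hu k' hk j hj hkj => omR hu H hA hk hj hkj

variable {a' nn' : ℕ} (ha' : ∀ j ∈ S, j + b + gl ≤ a') (ha2 : a' + nn' ≤ d - gl + 1)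

/-- **`T0Q`, PART R.** -/
def tT0 : Trm96 μ s N ys S r (n ^ (Θ - 2 * x)) :=
  H.tQ39 al al0 hal (nn' * nn) (E := fun u => eRp μ s N (fun _ => 0) (fun _ => a' + u / nn) (fun j => j + b / 2) l k M)
    (T := fun u => eRm μ s N (fun _ => 0) (fun j => A j + u % nn) b0 l k M)
    (p := fun u j => ⟨0, a' + u / nn, 0, a' + u / nn, j + b / 2, j + b, l, Ty.R, False⟩)
    (q := fun u j => ⟨0, A j + u % nn, 0, A j + u % nn, j - b0, j + b0, l, Ty.R, False⟩)
    (fun u hu => H.fRp fun j hj => by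
      have h1 := lin39 (H.geo j hj)
      have h2 := H.kl
      have h3 := ha' j hj
      have h4 : u / nn < nn' := Nat.div_lt_of_lt_mul (by rwa [Nat.mul_comm] at hu)
      show 0 ≤ j + b / 2 ∧ j + b / 2 + 3 * k * (l + 1) ≤ j + b ∧ j + b ≤ a' + u / nn ∧ a' + u / nn ≤ d - gl
      generalize u / nn = v1 at h4 ⊢
      omega)
    (fun u hu => fmR (Nat.mod_lt _ (Nat.pos_of_ne_zero fun h => by rw [h, Nat.mul_zero] at hu; exact Nat.not_lt_zero _ hu)) H hA)
    fun u hu => by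
      have h4 : u / nn < nn' := Nat.div_lt_of_lt_mul (by rwa [Nat.mul_comm] at hu)
      have h6 : u % nn < nn := Nat.mod_lt _ (Nat.pos_of_ne_zero fun h => by rw [h, Nat.mul_zero] at hu; exact Nat.not_lt_zero _ hu)
      refine t0qR39 (m' := a' + u / nn) (m := fun j => A j + u % nn) (u := fun j => j + b / 2) (v := fun j => j + b) H.P H.e0
        (Nat.sub_le d gl) H.dN (by rw [H.zd]; exact H.gθ) H.ne (H.fRp (z := fun _ => a' + u / nn) fun j hj => ?_)
        (fmR h6 H hA) (fun j hj => ?_) ?_ (by generalize u / nn = v1 at h4 ⊢; omega) H.bθ H.gθ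
      · have h1 := lin39 (H.geo j hj)
        have h2 := H.kl
        have h3 := ha' j hj
        show 0 ≤ j + b / 2 ∧ j + b / 2 + 3 * k * (l + 1) ≤ j + b ∧ j + b ≤ a' + u / nn ∧ a' + u / nn ≤ d - gl
        generalize u / nn = v1 at h4 ⊢
        omega
      · have h1 := lin39 (H.geo j hj)
        have h2 := H.lb
        have h3 := ha' j hj
        have h5 := hA j hj
        show gl + b0 ≤ j ∧ j + b0 ≤ A j + u % nn ∧ A j + u % nn ≤ j + b / 2 ∧ j + b / 2 + l ≤ j + b ∧ j + b ≤ j + b ∧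
          j + b + gl ≤ a' + u / nn
        generalize u / nn = v1 at h4 ⊢
        generalize u % nn = v2 at h6 ⊢
        omega
      · exact H.bb

end R

section L

variable [IsProbabilityMeasure μ] (H : Rd39 μ s c₀ Θ δ a ε n c ε' θ κ M e e₀ x N ys S b0 b sg gl d r l k r0) (al : ℝ) (al0 : 0 ≤ al)

/-- The alternatives on the own window of part L given `(c', z)`, `c'` any row in front of it. -/
theorem foL (H : Rd39 μ s c₀ Θ δ a ε n c ε' θ κ M e e₀ x N ys S b0 b sg gl d r l k r0) {c' z : ℕ → ℕ} {ty : Ty}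
    (hc : ∀ j ∈ S, c' j + b ≤ j) (hz : ∀ j ∈ S, j ≤ z j ∧ z j ≤ d - gl) :
    Fp μ s N ((N : ℝ) ^ κ) M θ (d - gl) ys S (fun j => ⟨c' j, z j, c' j, z j, j - b, j - b / 2, l, ty, False⟩)
      (fI (eRp μ s N c' z (fun j => j - b) l k M)) l :=
  H.fRp fun j hj => by
    have h1 := lin39 (H.geo j hj)
    have h2 := H.kl
    have h3 := hc j hj
    have h4 := hz j hj
    show c' j ≤ j - b ∧ j - b + 3 * k * (l + 1) ≤ j - b / 2 ∧ j - b / 2 ≤ z j ∧ z j ≤ d - gl
    omega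

/-- The own event of part L given `(0, z)`. -/
def lLO {G : ℝ} (hG : G = (wd μ s b / b) ^ 2 ∨ G = wd μ s r / r) (hal : al ^ 2 ≤ n ^ e₀ * G) : Trm96 μ s N ys S r (n ^ (Θ - 2 * x)) :=
  H.tO al al0 hG hal (E := eRp μ s N (fun _ => 0) (zz39 sg) (fun j => j - b) l k M)
    (p := fun j => ⟨0, zz39 sg j, 0, zz39 sg j, j - b, j - b / 2, l, Ty.R, False⟩)
    (foL H (c' := fun _ => 0) (fun j hj => by have h1 := lin39 (H.geo j hj); show 0 + b ≤ j; omega) fun j hj => by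
      have h1 := lin39 (H.geo j hj)
      omega)
    fun k hk j hj hkj => by
      have h1 := lin39 (H.geo j hj)
      have h2 := lin39 (H.geo k hk)
      have h3 := blz39 H.sgp (show k ≤ j by omega)
      exact Or.inl (befR (Or.inl (show zz39 sg k ≤ j - b by omega)))

/-- The own mass of part L given the block `(c1, z)`. -/
def lOb {G : ℝ} (hG : G = (wd μ s b / b) ^ 2 ∨ G = wd μ s r / r) (hal : al ^ 2 ≤ n ^ e₀ * G) : Trm96 μ s N ys S r (n ^ (Θ - 2 * x)) :=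
  H.tO al al0 hG hal (E := eNta μ s N (cc39 sg) (zz39 sg) (fun j => j - b) (fun j => j - b / 2) M)
    (p := fun j => ⟨cc39 sg j, zz39 sg j, cc39 sg j, zz39 sg j, j - b, j - b / 2, l, Ty.M, False⟩)
    (H.fNta H.lθ fun j hj => by
      have h1 := lin39 (H.geo j hj)
      have h2 := H.lb
      show cc39 sg j ≤ j - b ∧ j - b + l ≤ j - b / 2 ∧ j - b / 2 ≤ zz39 sg j ∧ zz39 sg j ≤ d - gl
      omega)
    fun k hk j hj hkj => by
      have h1 := lin39 (H.geo j hj)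
      have h2 := lin39 (H.geo k hk)
      have h3 := blz39 H.sgp (show k ≤ j by omega)
      exact Or.inr (befM (Or.inl (show k - b / 2 ≤ cc39 sg j by omega)))

variable (hal : al ^ 2 ≤ n ^ e₀) {A : ℕ → ℕ} {nn : ℕ} (hA : ∀ j ∈ S, j ≤ A j + 3 * (b / 8) ∧ A j + nn + b / 8 ≤ j + 1) {ee : ℕ → ℕ}
  (hee : ∀ j ∈ S, j + b0 ≤ ee j ∧ ee j ≤ d - gl)

/-- The micro ties of part L are dominated by places. -/
theorem fmL {u : ℕ} (hu : u < nn) (H : Rd39 μ s c₀ Θ δ a ε n c ε' θ κ M e e₀ x N ys S b0 b sg gl d r l k r0)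
    (hA : ∀ j ∈ S, j ≤ A j + 3 * (b / 8) ∧ A j + nn + b / 8 ≤ j + 1) (hee : ∀ j ∈ S, j + b0 ≤ ee j ∧ ee j ≤ d - gl) :
    Fp μ s N ((N : ℝ) ^ κ) M θ (d - gl) ys S (fun j => ⟨A j + u, ee j, A j + u, ee j, j - b0, j + b0, l, Ty.M, False⟩)
      (fI (eRm μ s N (fun j => A j + u) ee b0 l k M)) l :=
  H.fRm fun j hj => by
    have h1 := lin39 (H.geo j hj)
    have h2 := hA j hj
    have h3 := hee j hj
    show b0 ≤ j ∧ A j + u ≤ j - b0 ∧ j + b0 ≤ ee j ∧ ee j ≤ d - gl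
    omega

/-- The order of own places `(c1, z)` and micro ties of part L. -/
theorem omL {u : ℕ} (hu : u < nn) (H : Rd39 μ s c₀ Θ δ a ε n c ε' θ κ M e e₀ x N ys S b0 b sg gl d r l k r0)
    (hA : ∀ j ∈ S, j ≤ A j + 3 * (b / 8) ∧ A j + nn + b / 8 ≤ j + 1) {k' j : ℕ} (hk : k' ∈ S) (hj : j ∈ S) (hkj : k' + b ≤ j) :
    (j < k' + sg ∧ Os (fun j => ⟨cc39 sg j, zz39 sg j, cc39 sg j, zz39 sg j, j - b, j - b / 2, l, Ty.M, False⟩)
      (fun j => ⟨A j + u, ee j, A j + u, ee j, j - b0, j + b0, l, Ty.M, False⟩) k' j) ∨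
    Od (fun j => ⟨cc39 sg j, zz39 sg j, cc39 sg j, zz39 sg j, j - b, j - b / 2, l, Ty.M, False⟩)
      (fun j => ⟨A j + u, ee j, A j + u, ee j, j - b0, j + b0, l, Ty.M, False⟩) k' j := by
  have h1 := lin39 (H.geo j hj)
  have h2 := lin39 (H.geo k' hk)
  have h3 := hA j hj
  have h4 := hA k' hk
  rcases blz39 H.sgp (show k' ≤ j by omega) with h5 | h5
  · exact Or.inr (Or.inr ⟨befM (Or.inl (show k' - b / 2 ≤ A k' + u by omega)), befM (Or.inl (show k' - b / 2 ≤ cc39 sg j by omega)),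
      befM (Or.inl (show k' - b / 2 ≤ A j + u by omega)), befM (Or.inl (show k' + b0 ≤ cc39 sg j by omega)),
      befM (Or.inl (show k' + b0 ≤ A j + u by omega)), befM (Or.inl (show j - b / 2 ≤ A j + u by omega))⟩)
  · exact Or.inl ⟨h5.2.2, Or.inr ⟨befM (Or.inl (show k' - b / 2 ≤ A k' + u by omega)), befM (Or.inl (show k' - b / 2 ≤ A j + u by omega)),
      befM (Or.inl (show k' + b0 ≤ A j + u by omega))⟩⟩

/-- Own mass given `(c1, z)` and micro tie given `(m, ee)`, part L. -/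
def lT2 : Trm96 μ s N ys S r (n ^ (Θ - 2 * x)) :=
  H.tM al al0 hal nn (E := eNta μ s N (cc39 sg) (zz39 sg) (fun j => j - b) (fun j => j - b / 2) M)
    (p := fun j => ⟨cc39 sg j, zz39 sg j, cc39 sg j, zz39 sg j, j - b, j - b / 2, l, Ty.M, False⟩)
    (H.fNta H.lθ fun j hj => by
      have h1 := lin39 (H.geo j hj)
      have h2 := H.lb
      show cc39 sg j ≤ j - b ∧ j - b + l ≤ j - b / 2 ∧ j - b / 2 ≤ zz39 sg j ∧ zz39 sg j ≤ d - gl
      omega) (T := fun u => eRm μ s N (fun j => A j + u) ee b0 l k M)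
    (q := fun u j => ⟨A j + u, ee j, A j + u, ee j, j - b0, j + b0, l, Ty.M, False⟩) (fun u hu => fmL hu H hA hee)
    fun u hu k' hk j hj hkj => omL hu H hA hk hj hkj

/-- The alternatives on the own window given `(c1, z)` and micro tie given `(m, ee)`, part L. -/
def lTp : Trm96 μ s N ys S r (n ^ (Θ - 2 * x)) :=
  H.tM al al0 hal nn (E := eRp μ s N (cc39 sg) (zz39 sg) (fun j => j - b) l k M)
    (p := fun j => ⟨cc39 sg j, zz39 sg j, cc39 sg j, zz39 sg j, j - b, j - b / 2, l, Ty.M, False⟩)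
    (foL H (fun j hj => (lin39 (H.geo j hj)).1) fun j hj => by
      have h1 := lin39 (H.geo j hj)
      omega) (T := fun u => eRm μ s N (fun j => A j + u) ee b0 l k M)
    (q := fun u j => ⟨A j + u, ee j, A j + u, ee j, j - b0, j + b0, l, Ty.M, False⟩) (fun u hu => fmL hu H hA hee)
    fun u hu k' hk j hj hkj => omL hu H hA hk hj hkj

variable {a' nn' e1 : ℕ} (ha' : ∀ j ∈ S, j ≤ a') (ha2 : a' + nn' ≤ d - gl + 1) (he1 : ∀ j ∈ S, j + b0 + gl ≤ e1) (he2 : e1 ≤ d - gl)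

/-- **`T0Q`, PART L.** -/
def lT0 : Trm96 μ s N ys S r (n ^ (Θ - 2 * x)) :=
  H.tQ39 al al0 hal (nn' * nn) (E := fun u => eRp μ s N (fun _ => 0) (fun _ => a' + u / nn) (fun j => j - b) l k M)
    (T := fun u => eRm μ s N (fun j => A j + u % nn) (fun _ => e1) b0 l k M)
    (p := fun u j => ⟨0, a' + u / nn, 0, a' + u / nn, j - b, j - b / 2, l, Ty.R, False⟩)
    (q := fun u j => ⟨A j + u % nn, e1, A j + u % nn, e1, j - b0, j + b0, l, Ty.M, False⟩)
    (fun u hu => foL H (c' := fun _ => 0) (z := fun _ => a' + u / nn)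
      (fun j hj => by have h1 := lin39 (H.geo j hj); show 0 + b ≤ j; omega) fun j hj => by
        have h1 := lin39 (H.geo j hj)
        have h3 := ha' j hj
        have h4 : u / nn < nn' := Nat.div_lt_of_lt_mul (by rwa [Nat.mul_comm] at hu)
        show j ≤ a' + u / nn ∧ a' + u / nn ≤ d - gl
        generalize u / nn = v1 at h4 ⊢
        omega)
    (fun u hu => fmL (Nat.mod_lt _ (Nat.pos_of_ne_zero fun h => by rw [h, Nat.mul_zero] at hu; exact Nat.not_lt_zero _ hu)) H hA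
      (ee := fun _ => e1) fun j hj => by
        have h1 := lin39 (H.geo j hj)
        have h3 := he1 j hj
        show j + b0 ≤ e1 ∧ e1 ≤ d - gl
        omega)
    fun u hu => by
      have h4 : u / nn < nn' := Nat.div_lt_of_lt_mul (by rwa [Nat.mul_comm] at hu)
      have h6 : u % nn < nn := Nat.mod_lt _ (Nat.pos_of_ne_zero fun h => by rw [h, Nat.mul_zero] at hu; exact Nat.not_lt_zero _ hu)
      refine t0qL39 (m' := a' + u / nn) (m := fun j => A j + u % nn) (d := fun _ => e1) (u := fun j => j - b) (v := fun j => j - b / 2)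
        H.P H.e0 (Nat.sub_le d gl) H.dN (by rw [H.zd]; exact H.gθ) H.ne (foL H (c' := fun _ => 0) (z := fun _ => a' + u / nn)
          (fun j hj => ?_) fun j hj => ?_)
        (fmL h6 H hA (ee := fun _ => e1) fun j hj => ?_) (fun j hj => ?_) (fun j hj k' hk' hkj => ?_) H.bb
        (by generalize u / nn = v1 at h4 ⊢; omega) H.bθ H.gθ
      · have h1 := lin39 (H.geo j hj)
        show 0 + b ≤ j
        omega
      · have h1 := lin39 (H.geo j hj)
        have h3 := ha' j hj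
        show j ≤ a' + u / nn ∧ a' + u / nn ≤ d - gl
        generalize u / nn = v1 at h4 ⊢
        omega
      · have h1 := lin39 (H.geo j hj)
        have h3 := he1 j hj
        show j + b0 ≤ e1 ∧ e1 ≤ d - gl
        omega
      · have h1 := lin39 (H.geo j hj)
        have h2 := H.lb
        have h3 := ha' j hj
        have h5 := hA j hj
        have h7 := he1 j hj
        show gl ≤ A j + u % nn ∧ A j + u % nn + b0 ≤ j ∧ j - b / 2 ≤ A j + u % nn ∧ j - b + l ≤ j - b / 2 ∧ j ≤ j - b + b ∧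
          j + b0 + gl ≤ e1 ∧ e1 ≤ d - gl ∧ j ≤ a' + u / nn
        generalize u / nn = v1 at h4 ⊢
        generalize u % nn = v2 at h6 ⊢
        omega
      · have h3 := he1 j hj
        omega

/-- **`LONG`, PART L**: the own event given `(0, z)` and the long tie `[z, e1]` given `(0, m')`. -/
def lLg (hz : ∀ j ∈ S, zz39 sg j + gl ≤ e1) (he3 : e1 ≤ a') : Trm96 μ s N ys S r (n ^ (Θ - 2 * x)) :=
  H.tL al al0 hal nn' (E := eRp μ s N (fun _ => 0) (zz39 sg) (fun j => j - b) l k M)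
    (p := fun j => ⟨0, zz39 sg j, 0, zz39 sg j, j - b, j - b / 2, l, Ty.R, False⟩)
    (foL H (c' := fun _ => 0) (fun j hj => by have h1 := lin39 (H.geo j hj); show 0 + b ≤ j; omega) fun j hj => by
      have h1 := lin39 (H.geo j hj)
      omega) (T := fun u => eNta μ s N (fun _ => 0) (fun _ => a' + u) (zz39 sg) (fun _ => e1) M)
    (q := fun u j => ⟨0, a' + u, 0, a' + u, zz39 sg j, e1, gl, Ty.R, False⟩)
    (fun u hu => H.fNta (c1 := fun _ => 0) (z := fun _ => a' + u) (v := fun _ => e1) H.gθ fun j hj => by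
      have h1 := hz j hj
      show 0 ≤ zz39 sg j ∧ zz39 sg j + gl ≤ e1 ∧ e1 ≤ a' + u ∧ a' + u ≤ d - gl
      omega)
    fun u hu k' hk j hj hkj => by
      have h1 := lin39 (H.geo j hj)
      have h2 := lin39 (H.geo k' hk)
      refine ⟨befR (Or.inl (show zz39 sg j ≤ zz39 sg j from le_rfl)), ?_⟩
      rcases blz39 H.sgp (show k' ≤ j by omega) with h5 | h5
      · exact Or.inr ⟨befR (Or.inl (show zz39 sg k' ≤ zz39 sg j by omega)), Or.inl (befR (Or.inl (show zz39 sg k' ≤ j - b by omega)))⟩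
      · exact Or.inl h5.2.2

end L

end Rd39

/-! ### From `TauM` to `Rp`, unions -/

section Sw

variable [IsProbabilityMeasure μ] {y : ℕ} [Nonempty (Px (Pn N y))] {zt cc c0 Kg : ℕ} {F D M : ℝ} {f : Fam N}

omit [IsProbabilityMeasure μ] in
theorem rw_eq39 (E : (y : ℕ) → Env × Finset ℕ → Px (Pn N y) → Prop) :
    rw96 μ s N (one96 N (evF N E) zt cc) f y =
      ∫ ω, PP (wm μ s N (Pn N y) ω) (fun x x' => ind72 (E y) ω x * rh zt cc (f y ω) x x') ∂(Pm μ N) := by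
  unfold rw96
  congr 1
  funext ω
  congr 1
  funext x x'
  show ind72 (E y) ω x * NI zt cc x x' * |f y ω x - f y ω x'| = ind72 (E y) ω x * (|f y ω x - f y ω x'| * NI zt cc x x')
  ring

/-- The averaged own mass given `q` (of any condition `pJ c1 z`), in front of any event, is replaced by an alternative of the path. -/
theorem rw_tau39 (hf : Sp72 (Pn N y) cc F c0 Kg (f y)) {E : (y : ℕ) → Env × Finset ℕ → Px (Pn N y) → Prop}
    (hE : ∀ S, MeasurableSet {ω | E y ω S}) {c' z' c1 z be wr l k : ℕ} (hc : c' ≤ c1) (hz : z ≤ z') (h1 : c1 ≤ be) (h2 : wr ≤ z)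
    (hl : be + 3 * k * (l + 1) ≤ wr) (hM : 8 ≤ M) (hk : 10 * M ≤ k) (hk' : (k : ℝ) ≤ 20 * M) :
    rw96 μ s N (one96 N (evF N fun y ω S => TauM (wm μ s N (Pn N y) ω) (pJ c' z') (pJ c1 z) be wr M S ∧ E y ω S) zt cc) f y ≤
      rw96 μ s N (one96 N (evF N fun y ω S => Rp (wm μ s N (Pn N y) ω) (pJ c' z') be l k M S ∧ E y ω S) zt cc) f y +
        2 * F * Real.exp (-M) := by
  rw [rw_eq39, rw_eq39]
  exact own_rp45 (z := zt) hf hE (crs_pJ hc hz) (swP_pJ (by omega)) (blP_pJ (by omega)) be l k hM hk hk' h1 hl h2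

/-- The own event alone. -/
theorem rw_tauO39 (hf : Sp72 (Pn N y) cc F c0 Kg (f y)) {c' z' c1 z be wr l k : ℕ} (hc : c' ≤ c1) (hz : z ≤ z') (h1 : c1 ≤ be)
    (h2 : wr ≤ z) (hl : be + 3 * k * (l + 1) ≤ wr) (hM : 8 ≤ M) (hk : 10 * M ≤ k) (hk' : (k : ℝ) ≤ 20 * M) :
    rw96 μ s N (one96 N (evF N fun y ω S => TauM (wm μ s N (Pn N y) ω) (pJ c' z') (pJ c1 z) be wr M S) zt cc) f y ≤
      rw96 μ s N (one96 N (evF N fun y ω S => Rp (wm μ s N (Pn N y) ω) (pJ c' z') be l k M S) zt cc) f y +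
        2 * F * Real.exp (-M) := by
  have h := rw_tau39 (μ := μ) (s := s) (zt := zt) hf (E := fun _ _ _ => True) (fun S => MeasurableSet.const _) hc hz h1 h2 hl hM hk hk'
  simpa only [and_true] using h

/-- A mean of functionals. -/
theorem mR_le39 {n : ℕ} {Q Q' : ℕ → Fam2 N} {t : ℝ} (ht : 0 ≤ t) (h : ∀ u < n, rw96 μ s N (Q u) f y ≤ rw96 μ s N (Q' u) f y + t) :
    mR μ s N n Q f y ≤ mR μ s N n Q' f y + t := by
  unfold mR
  rcases Nat.eq_zero_or_pos n with h0 | h0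
  · subst h0
    simpa using ht
  · have hn : (0 : ℝ) < n := by exact_mod_cast h0
    have h1 : ∑ u ∈ range n, rw96 μ s N (Q u) f y ≤ ∑ u ∈ range n, rw96 μ s N (Q' u) f y + n * t := by
      refine (sum_le_sum fun u hu => h u (mem_range.1 hu)).trans (le_of_eq ?_)
      rw [sum_add_distrib, sum_const, card_range, nsmul_eq_mul]
    have h2 := mul_le_mul_of_nonneg_left h1 (inv_nonneg.2 hn.le)
    rw [mul_add, ← mul_assoc (n : ℝ)⁻¹ n t, inv_mul_cancel₀ hn.ne', one_mul] at h2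
    exact h2

/-- A union of two events. -/
theorem rw_or39 (hf : Sp72 (Pn N y) cc F c0 Kg (f y)) {E A A' : (y : ℕ) → Env × Finset ℕ → Px (Pn N y) → Prop}
    (hE : ∀ S, MeasurableSet {ω | E y ω S}) (hA : ∀ S, MeasurableSet {ω | A y ω S}) (hA' : ∀ S, MeasurableSet {ω | A' y ω S}) :
    rw96 μ s N (one96 N (evF N fun y ω S => E y ω S ∧ (A y ω S ∨ A' y ω S)) zt cc) f y ≤
      rw96 μ s N (one96 N (evF N fun y ω S => E y ω S ∧ A y ω S) zt cc) f y +
        rw96 μ s N (one96 N (evF N fun y ω S => E y ω S ∧ A' y ω S) zt cc) f y := by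
  rw [rw_eq39, rw_eq39, rw_eq39]
  have hint : ∀ T : Env × Finset ℕ → Px (Pn N y) → Prop, (∀ S, MeasurableSet {ω | T ω S}) → Integrable (fun ω : Env × Finset ℕ =>
      PP (wm μ s N (Pn N y) ω) (fun x x' => ind72 T ω x * rh zt cc (f y ω) x x')) (Pm μ N) := fun T hT =>
    int_bdd (M := 1 * (2 * F)) (meas_PP45 meas_wm fun x x' => (meas_ind72 hT x).mul (meas_rh45 hf x x')) fun ω =>
      abs_PP_le45 _ (fun x x' => mul_nonneg (i0 _ _ _) (rh_nonneg _ _ _)) fun x x' =>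
        mul_le_mul (i1 _ _ _) (rh_le45 hf ω x x') (rh_nonneg _ _ _) zero_le_one
  have j1 := hint (fun ω S => E y ω S ∧ A y ω S) fun S => (hE S).inter (hA S)
  have j2 := hint (fun ω S => E y ω S ∧ A' y ω S) fun S => (hE S).inter (hA' S)
  rw [← integral_add j1 j2]
  refine integral_mono (hint (fun ω S => E y ω S ∧ (A y ω S ∨ A' y ω S)) fun S => (hE S).inter ((hA S).union (hA' S))) (j1.add j2)
    fun ω => ?_
  show PP (wm μ s N (Pn N y) ω) (fun x x' => ind72 (fun ω S => E y ω S ∧ (A y ω S ∨ A' y ω S)) ω x * rh zt cc (f y ω) x x') ≤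
    PP (wm μ s N (Pn N y) ω) (fun x x' => ind72 (fun ω S => E y ω S ∧ A y ω S) ω x * rh zt cc (f y ω) x x') +
      PP (wm μ s N (Pn N y) ω) (fun x x' => ind72 (fun ω S => E y ω S ∧ A' y ω S) ω x * rh zt cc (f y ω) x x')
  rw [← PP_add]
  refine PP_mono _ fun x x' => ?_
  rw [← add_mul]
  refine mul_le_mul_of_nonneg_right ?_ (rh_nonneg _ _ _)
  have a1 := i0 (fun ω S => E y ω S ∧ A y ω S) ω x
  have a2 := i0 (fun ω S => E y ω S ∧ A' y ω S) ω x
  by_cases h : E y ω x ∧ (A y ω x ∨ A' y ω x)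
  · rcases h.2 with h' | h'
    · have e1 : ind72 (fun ω S => E y ω S ∧ A y ω S) ω x = 1 := if_pos ⟨h.1, h'⟩
      linarith [i1 (fun ω S => E y ω S ∧ (A y ω S ∨ A' y ω S)) ω x]
    · have e1 : ind72 (fun ω S => E y ω S ∧ A' y ω S) ω x = 1 := if_pos ⟨h.1, h'⟩
      linarith [i1 (fun ω S => E y ω S ∧ (A y ω S ∨ A' y ω S)) ω x]
  · have e1 : ind72 (fun ω S => E y ω S ∧ (A y ω S ∨ A' y ω S)) ω x = 0 := if_neg h
    linarith

end Sw

end

end Pool.Agent.W_7d29a1_C0.E2S39
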