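import Pool.Agent.W_7d29a1_C0.DgM11B
import Pool.Agent.W_7d29a1_C0.E2S39E

/-!
MP_7d29a1_pr, [C0], helper11: THE TERMS OF THE PAIRS OF THE WINDOW of (E2). Part R, `eDR`: own mass given `(0, z)` and alternatives, given
`(0, j + b)`, in the pieces of the window behind `j + b0`; `tDR`: the term `Trm96`, from `Rd39` and the price `PkD11` of the double ties. Part L,
`eDL`, `tDL`: own mass given the block `(c1, z)`, alternatives given `(j - b, j + b)` in the pieces behind `j - b / 8`.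
-/

set_option autoImplicit false
set_option linter.unusedSectionVars false
set_option linter.unusedVariables false

namespace Pool.Agent.W_7d29a1_C0.Dg11

open MeasureTheory ProbabilityTheory Filter Topology Finset
open Pool.Agent.W_7d29a1_F Pool.Agent.W_7d29a1_X Pool.Agent.W_7d29a1_h4g Pool.Agent.W_7d29a1_H
open Pool.Agent.W_7d29a1_HS (In wd md)
open Pool.Agent.W_7d29a1_HZ Pool.Agent.W_7d29a1_HZ.R72 Pool.Agent.W_7d29a1_Z.Asm72
open Pool.Agent.W_7d29a1_HZ.Z86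
open Pool.Agent.W_7d29a1_C0.P86
open Pool.Agent.W_7d29a1_C0.P3 (Hy)
open Pool.Agent.W_7d29a1_C0.Mod92
open Pool.Agent.W_7d29a1_C0.Swap57 (NI NI_nonneg)
open Pool.Agent.W_7d29a1_C0.T72 (ind72 meas_ind72 NN72)
open Pool.Agent.W_7d29a1_C0.T93 (pr2)
open Pool.Agent.W_7d29a1_C0.EvT50 (meas_Rp50)
open Pool.Agent.W_7d29a1_C0.E2T96 (Trm96 one96 qb_one96 pr_one96 pr96 rw96)
open Pool.Agent.W_7d29a1_C0.E2G43 (G43)
open Pool.Agent.W_7d29a1_C0.E2S39
open Pool.W7d29a1.C0 (gz gm gz_pos gm_nonneg gm_mono gm_const PP PP_mono PP_nonneg)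
open Pool.W7d29a1.C0.R43
open scoped ENNReal

noncomputable section

variable {μ : Measure ℝ} {s : ℝ} {N : ℕ}

variable (μ s N) in
/-- **The pairs of the window, part R**: own mass given `(0, z)` on `[j + b / 2, j + b]`, and an alternative given `(0, j + b)` in one of the
`3 k` pieces of `l` rows behind `j + b0`. -/
def eDR (sg b b0 l k : ℕ) (M : ℝ) : Evf N :=
  eAnd (eNta μ s N (fun _ => 0) (zz39 sg) (fun j => j + b / 2) (fun j => j + b) M)
    (eRp μ s N (fun _ => 0) (fun j => j + b) (fun j => j + b0) l k M)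

variable (μ s N) in
/-- **The pairs of the window, part L**: own mass given the block `(c1, z)` on `[j - b, j - b / 2]`, and an alternative given `(j - b, j + b)` in
one of the `3 k` pieces of `l` rows behind `j - b / 8`. -/
def eDL (sg b l k : ℕ) (M : ℝ) : Evf N :=
  eAnd (eNta μ s N (cc39 sg) (zz39 sg) (fun j => j - b) (fun j => j - b / 2) M)
    (eRp μ s N (fun j => j - b) (fun j => j + b) (fun j => j - b / 8) l k M)

theorem ms_fDL (sg b l k : ℕ) (M : ℝ) (j y : ℕ) (x : Px (Pn N y)) : Measurable fun ω => fI (eDL μ s N sg b l k M) j y ω x := by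
  have : Nonempty (Px (Pn N y)) := ⟨x⟩
  exact meas_ind72 (fun S => (meas_nta39 _ _ _ _ S).inter (meas_Rp50 _ _ _ _ _ S)) x

theorem meas_eDR (sg b b0 l k : ℕ) (M : ℝ) (j y : ℕ) (x : Px (Pn N y)) : MeasurableSet {ω | eDR μ s N sg b b0 l k M j y ω x} :=
  (meas_nta39 _ _ _ _ x).inter (meas_Rp50 _ _ _ _ _ x)

theorem ms_fDR (sg b b0 l k : ℕ) (M : ℝ) (j y : ℕ) (x : Px (Pn N y)) : Measurable fun ω => fI (eDR μ s N sg b b0 l k M) j y ω x := by
  have : Nonempty (Px (Pn N y)) := ⟨x⟩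
  exact meas_ind72 (fun S => meas_eDR _ _ _ _ _ _ _ _ S) x

/-- From the own mass to the event of the path. -/
theorem hy_nta {y c d u v : ℕ} {M X : ℝ} (h : M < X) {ω : Env × Finset ℕ} {x : Px (Pn N y)}
    (hx : Nta (wm μ s N (Pn N y) ω) (pJ c d) u v M x) : Hy μ s N y c d (NoMeet u v) X ω.1 x.1 := by
  have e1 : mI (wm μ s N (Pn N y) ω) (pJ c d) u v x = mc μ s N y c d (NoMeet u v) ω.1 x.1 := mI_mc ω.1 x.2
  have h1 : Real.exp (-M) ≤ mI (wm μ s N (Pn N y) ω) (pJ c d) u v x := hx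
  rw [e1] at h1
  exact lt_of_lt_of_le (Real.exp_lt_exp.2 (by linarith)) h1

/-- From the alternatives in the pieces to the event of the path. -/
theorem hy_rp {y c d τ l k : ℕ} {M X : ℝ} (h : 7 * M ≤ X) {ω : Env × Finset ℕ} {x : Px (Pn N y)}
    (hx : Rp (wm μ s N (Pn N y) ω) (pJ c d) τ l k M x) :
    ∃ n ∈ range (3 * k), Hy μ s N y c d (NoMeet (st τ l n) (st τ l n + l)) X ω.1 x.1 := by
  obtain ⟨n, hn, h1⟩ := hx
  have e1 : mI (wm μ s N (Pn N y) ω) (pJ c d) (st τ l n) (st τ l n + l) x =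
      mc μ s N y c d (NoMeet (st τ l n) (st τ l n + l)) ω.1 x.1 := mI_mc ω.1 x.2
  rw [e1] at h1
  exact ⟨n, mem_range.2 hn, lt_of_le_of_lt (Real.exp_le_exp.2 (by linarith)) h1⟩

/-- The end of a piece. -/
theorem st_end {τ l k n : ℕ} (hn : n < 3 * k) : τ ≤ st τ l n ∧ st τ l n + l ≤ τ + 3 * k * (l + 1) := by
  have h2 : (n + 1) * (l + 1) ≤ 3 * k * (l + 1) := Nat.mul_le_mul_right _ hn
  have h3 : (n + 1) * (l + 1) = n * (l + 1) + (l + 1) := by ring
  unfold st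
  omega

variable {c₀ Θ δ a ε n c ε' θ κ M e e₀ x : ℝ} {ys S : Finset ℕ} {b0 b sg gl d r l k r0 : ℕ}

/-- The levels. -/
theorem lev11 (H : Rd39 μ s c₀ Θ δ a ε n c ε' θ κ M e e₀ x N ys S b0 b sg gl d r l k r0) : M < (N : ℝ) ^ κ ∧ 7 * M ≤ (N : ℝ) ^ κ ∧
    ((3 * k : ℕ) : ℝ) ≤ (N : ℝ) ^ κ := by
  have h1 := H.MX
  have h2 := H.M0
  have h3 := H.P.X1
  have h4 := H.kX
  have h5 : (0 : ℝ) ≤ k := Nat.cast_nonneg _
  refine ⟨?_, h1, ?_⟩
  · rcases h2.eq_or_lt with h0 | h0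
    · rw [← h0]
      linarith
    · linarith
  · push_cast
    linarith

/-- The geometry of the double ties at the rows of a block, part R. -/
theorem geoR11 (H : Rd39 μ s c₀ Θ δ a ε n c ε' θ κ M e e₀ x N ys S b0 b sg gl d r l k r0) :
    GeoR N b l sg (3 * k) S (fun _ => 0) (fun j n => st (j + b0) l n) (fun j n => st (j + b0) l n + l) (fun _ => 0)
      (fun j => j + b / 2) (zz39 sg) where
  win j hj n hn := by
    have h1 := lin39 (H.geo j hj)
    have h2 := H.kl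
    obtain ⟨h3, h4⟩ := st_end (τ := j + b0) (l := l) hn
    generalize st (j + b0) l n = t at h3 h4 ⊢
    generalize 3 * k * (l + 1) = w at h2 h4
    omega
  own j hj := by
    have h1 := lin39 (H.geo j hj)
    show 0 ≤ j ∧ j + b / 2 + b / 4 ≤ j + b ∧ j + b ≤ zz39 sg j ∧ zz39 sg j ≤ N
    omega
  bj j hj := by
    have h1 := lin39 (H.geo j hj)
    omega
  blk j hj i hi hij hne := by
    have h1 := lin39 (H.geo j hj)
    rcases blk39 H.sgp hij with h3 | h3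
    · show zz39 sg i + b ≤ j
      have h4 : zz39 sg i ≤ cc39 sg j := h3
      omega
    · exact absurd h3.1.symm hne

/-- The geometry of the double ties at the rows of a block, part L. -/
theorem geoL11 (H : Rd39 μ s c₀ Θ δ a ε n c ε' θ κ M e e₀ x N ys S b0 b sg gl d r l k r0) :
    GeoL N b l sg (3 * k) S (fun j => j + b) (fun j n => st (j - b / 8) l n) (fun j n => st (j - b / 8) l n + l) (cc39 sg)
      (fun j => j - b / 2) (zz39 sg) where
  win j hj n hn := by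
    have h1 := lin39 (H.geo j hj)
    have h2 := H.kl
    obtain ⟨h3, h4⟩ := st_end (τ := j - b / 8) (l := l) hn
    generalize st (j - b / 8) l n = t at h3 h4 ⊢
    generalize 3 * k * (l + 1) = w at h2 h4
    omega
  own j hj := by
    have h1 := lin39 (H.geo j hj)
    show cc39 sg j + b ≤ j ∧ j ≤ j - b / 2 + 3 * b / 4 ∧ j ≤ zz39 sg j ∧ j - b / 2 ≤ zz39 sg j ∧ zz39 sg j ≤ N
    omega
  blk j hj i hi hij hne := by
    have h1 := lin39 (H.geo j hj)
    rcases blk39 H.sgp hij with h3 | h3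
    · show j + b ≤ cc39 sg i
      have h4 : zz39 sg j ≤ cc39 sg i := h3
      omega
    · exact absurd h3.1 hne

variable [IsProbabilityMeasure μ]

/-- The sum over the pairs of rows. -/
theorem sumDR (H : Rd39 μ s c₀ Θ δ a ε n c ε' θ κ M e e₀ x N ys S b0 b sg gl d r l k r0) (HD : PkD11 μ s ε' θ κ N ys e) (hr : r ≤ N) :
    ∑ j ∈ S, ∑ i ∈ S, avy ys (pr96 μ s N (one96 N (fI (eDR μ s N sg b b0 l k M) j) (d - gl) d)
      (one96 N (fI (eDR μ s N sg b b0 l k M) i) (d - gl) d)) ≤ r * ∑ D ∈ range r, phM μ s N ε' e gl l l b sg D := by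
  obtain ⟨v1, v2, v3⟩ := lev11 H
  have hlb := H.lb
  have hbb := H.bb
  have key := HD.prR b l sg (3 * k) r r0 (d - gl) d H.bθ H.lθ (by omega) H.bs.bs H.bs.sr hr v3 (Nat.sub_le _ _) H.dN
    (by rw [H.zd]; exact H.gθ) S _ _ _ _ _ _ (geoR11 H) (fun j hj => ⟨H.win j hj, by
      have h1 := lin39 (H.geo j hj)
      show zz39 sg j ≤ d - gl
      omega⟩) (fI (eDR μ s N sg b b0 l k M)) (fun j _ y ω x => i0 _ _ _) (fun j _ y ω x => i1 _ _ _) (fun j hj y hy ω x hx => by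
      obtain ⟨g1, g2⟩ : eDR μ s N sg b b0 l k M j y ω x := of_ind hx
      exact ⟨hy_rp v2 g2, hy_nta v1 g1⟩)
  rw [H.zd] at key
  refine le_trans (le_of_eq ?_) key
  refine sum_congr rfl fun j _ => sum_congr rfl fun i _ => ?_
  congr 1
  funext y
  exact pr_one96 _ _ _ _ y

/-- **THE TERM OF THE PAIRS OF THE WINDOW, PART R.** -/
def tDR (H : Rd39 μ s c₀ Θ δ a ε n c ε' θ κ M e e₀ x N ys S b0 b sg gl d r l k r0) (HD : PkD11 μ s ε' θ κ N ys e) (hr : r ≤ N)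
    (al : ℝ) (al0 : 0 ≤ al) (hal : al ^ 2 ≤ n ^ e₀) : Trm96 μ s N ys S r (n ^ (Θ - 2 * x)) where
  al := al
  n := 1
  Q _ j := one96 N (fI (eDR μ s N sg b b0 l k M) j) (d - gl) d
  al0 := al0
  hQ _ _ j hj := qb_one96 (fun y ω x => i0 _ _ _) (fun y ω x => i1 _ _ _) (fun y x => ms_fDR _ _ _ _ _ _ _ _ _) _ _
  sm u _ := by
    have h1 := sumDR H HD hr
    have e1 : (1 : ℝ) ≤ n ^ e₀ := Real.one_le_rpow H.R.N1.le H.X.e0
    have h2 : (0 : ℝ) ≤ sg := Nat.cast_nonneg _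
    have h3 : (0 : ℝ) ≤ b := Nat.cast_nonneg _
    have h4 : al ^ 2 * ∑ D ∈ range r, phM μ s N ε' e gl l l b sg D ≤ n ^ (Θ - 2 * x) :=
      numM39 H.R H.bs H.sc H.X le_rfl hal (by nlinarith) (by nlinarith) H.e0 (H.he' hal (by norm_num) (by norm_num))
    have h5 : 0 ≤ n ^ (Θ - 2 * x) := Real.rpow_nonneg H.R.N0.le _
    have h6 : (0 : ℝ) ≤ r := Nat.cast_nonneg _
    calc al ^ 2 * ∑ j ∈ S, ∑ i ∈ S, avy ys (pr96 μ s N (one96 N (fI (eDR μ s N sg b b0 l k M) j) (d - gl) d)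
          (one96 N (fI (eDR μ s N sg b b0 l k M) i) (d - gl) d))
        ≤ al ^ 2 * (r * ∑ D ∈ range r, phM μ s N ε' e gl l l b sg D) := mul_le_mul_of_nonneg_left h1 (sq_nonneg _)
      _ = r * (al ^ 2 * ∑ D ∈ range r, phM μ s N ε' e gl l l b sg D) := by ring
      _ ≤ r * n ^ (Θ - 2 * x) := mul_le_mul_of_nonneg_left h4 h6
      _ ≤ 2 * (r * n ^ (Θ - 2 * x)) := by nlinarith [mul_nonneg h6 h5]

theorem tDR_al (H : Rd39 μ s c₀ Θ δ a ε n c ε' θ κ M e e₀ x N ys S b0 b sg gl d r l k r0) (HD : PkD11 μ s ε' θ κ N ys e) (hr : r ≤ N)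
    (al : ℝ) (al0 : 0 ≤ al) (hal : al ^ 2 ≤ n ^ e₀) : (tDR H HD hr al al0 hal).al = al := rfl

theorem tDR_Q (H : Rd39 μ s c₀ Θ δ a ε n c ε' θ κ M e e₀ x N ys S b0 b sg gl d r l k r0) (HD : PkD11 μ s ε' θ κ N ys e) (hr : r ≤ N)
    (al : ℝ) (al0 : 0 ≤ al) (hal : al ^ 2 ≤ n ^ e₀) (u j : ℕ) : (tDR H HD hr al al0 hal).Q u j =
    one96 N (fI (eAnd (eNta μ s N (fun _ => 0) (zz39 sg) (fun j => j + b / 2) (fun j => j + b) M)
      (eRp μ s N (fun _ => 0) (fun j => j + b) (fun j => j + b0) l k M)) j) (d - gl) d := rfl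

/-! ### Part L -/

/-- The sum over the pairs of rows, part L. -/
theorem sumDL (H : Rd39 μ s c₀ Θ δ a ε n c ε' θ κ M e e₀ x N ys S b0 b sg gl d r l k r0) (HD : PkD11 μ s ε' θ κ N ys e) (hr : r ≤ N) :
    ∑ j ∈ S, ∑ i ∈ S, avy ys (pr96 μ s N (one96 N (fI (eDL μ s N sg b l k M) j) (d - gl) d)
      (one96 N (fI (eDL μ s N sg b l k M) i) (d - gl) d)) ≤ r * ∑ D ∈ range r, phM μ s N ε' e gl l l b sg D := by
  obtain ⟨v1, v2, v3⟩ := lev11 H
  have hlb := H.lb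
  have hbb := H.bb
  have key := HD.prL b l sg (3 * k) r r0 (d - gl) d H.bθ H.lθ (by omega) H.bs.bs H.bs.sr hr v3 (Nat.sub_le _ _) H.dN
    (by rw [H.zd]; exact H.gθ) S _ _ _ _ _ _ (geoL11 H) (fun j hj => ⟨H.win j hj, by
      have h1 := lin39 (H.geo j hj)
      show j + b ≤ d - gl ∧ zz39 sg j ≤ d - gl
      omega⟩) (fI (eDL μ s N sg b l k M)) (fun j _ y ω x => i0 _ _ _) (fun j _ y ω x => i1 _ _ _) (fun j hj y hy ω x hx => by
      obtain ⟨g1, g2⟩ : eDL μ s N sg b l k M j y ω x := of_ind hx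
      exact ⟨hy_rp v2 g2, hy_nta v1 g1⟩)
  rw [H.zd] at key
  refine le_trans (le_of_eq ?_) key
  refine sum_congr rfl fun j _ => sum_congr rfl fun i _ => ?_
  congr 1
  funext y
  exact pr_one96 _ _ _ _ y

/-- **THE TERM OF THE PAIRS OF THE WINDOW, PART L.** -/
def tDL (H : Rd39 μ s c₀ Θ δ a ε n c ε' θ κ M e e₀ x N ys S b0 b sg gl d r l k r0) (HD : PkD11 μ s ε' θ κ N ys e) (hr : r ≤ N)
    (al : ℝ) (al0 : 0 ≤ al) (hal : al ^ 2 ≤ n ^ e₀) : Trm96 μ s N ys S r (n ^ (Θ - 2 * x)) where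
  al := al
  n := 1
  Q _ j := one96 N (fI (eDL μ s N sg b l k M) j) (d - gl) d
  al0 := al0
  hQ _ _ j hj := qb_one96 (fun y ω x => i0 _ _ _) (fun y ω x => i1 _ _ _) (fun y x => ms_fDL _ _ _ _ _ _ _ _) _ _
  sm u _ := by
    have h1 := sumDL H HD hr
    have e1 : (1 : ℝ) ≤ n ^ e₀ := Real.one_le_rpow H.R.N1.le H.X.e0
    have h2 : (0 : ℝ) ≤ sg := Nat.cast_nonneg _
    have h3 : (0 : ℝ) ≤ b := Nat.cast_nonneg _
    have h4 : al ^ 2 * ∑ D ∈ range r, phM μ s N ε' e gl l l b sg D ≤ n ^ (Θ - 2 * x) :=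
      numM39 H.R H.bs H.sc H.X le_rfl hal (by nlinarith) (by nlinarith) H.e0 (H.he' hal (by norm_num) (by norm_num))
    have h5 : 0 ≤ n ^ (Θ - 2 * x) := Real.rpow_nonneg H.R.N0.le _
    have h6 : (0 : ℝ) ≤ r := Nat.cast_nonneg _
    calc al ^ 2 * ∑ j ∈ S, ∑ i ∈ S, avy ys (pr96 μ s N (one96 N (fI (eDL μ s N sg b l k M) j) (d - gl) d)
          (one96 N (fI (eDL μ s N sg b l k M) i) (d - gl) d))
        ≤ al ^ 2 * (r * ∑ D ∈ range r, phM μ s N ε' e gl l l b sg D) := mul_le_mul_of_nonneg_left h1 (sq_nonneg _)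
      _ = r * (al ^ 2 * ∑ D ∈ range r, phM μ s N ε' e gl l l b sg D) := by ring
      _ ≤ r * n ^ (Θ - 2 * x) := mul_le_mul_of_nonneg_left h4 h6
      _ ≤ 2 * (r * n ^ (Θ - 2 * x)) := by nlinarith [mul_nonneg h6 h5]

end

end Pool.Agent.W_7d29a1_C0.Dg11
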