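import Pool.Agent.W_7d29a1_C0.E1B19

/-!
CURV0 (MP_7d29a1_pr), leaf E1g, third file: **`e1_bound`** = (E1) at a fixed set of signs and a fixed tilt. (helper19)
-/

set_option autoImplicit false
set_option linter.unusedSectionVars false
set_option linter.unusedVariables false

namespace Pool.W7d29a1.C0.E1A

open Finset MeasureTheory
open Pool.Agent.W_7d29a1_F Pool.Agent.W_7d29a1_X Pool.Agent.W_7d29a1_C0.H32
open Pool.Agent.W_7d29a1_C0 Pool.Agent.W_7d29a1_C0.Mod92 Pool.Agent.W_7d29a1_C0.Swap57 Pool.Agent.W_7d29a1_C0.NM82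
open Pool.W7d29a1.C0 Pool.W7d29a1.C0.VT31 Pool.W7d29a1.C0.H41 Pool.W7d29a1.C0.Fld19

noncomputable section

variable {μ : Measure ℝ} {s : ℝ} {N : ℕ} {Q : Finset (Finset ℕ)} {B : Type*} [Fintype B] [DecidableEq B]

theorem card_Sl (J : Finset ℕ) (K : ℕ) : (Sl J K).card = J.card * (K + 1) := by
  unfold Sl
  rw [card_map, card_product, card_range]

theorem sz_rep2 (X : Type*) [Fintype X] [Nonempty X] : (repDr X 2).sz = 4 := by
  show ∑ j : Fin 3, |(Fin.cons (-((2 : ℕ) : ℝ)) fun _ => 1 : Fin 3 → ℝ) j| = 4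
  rw [Fin.sum_univ_succ, Fin.cons_zero]
  simp only [Fin.cons_succ]
  norm_num

/-- The exponentially small factor. -/
def ex19 (K t a V : ℝ) : ℝ := Real.exp (-(t * a / 2)) * Real.exp (4 * K * t ^ 2 * V)

theorem tail1_le {K D t a V : ℝ} (hD : 0 ≤ D) (ht : 0 < t) (hK : 0 ≤ K) (hV : 0 ≤ V) :
    tail1 K D t a V ≤ 4 * D / t * ex19 K t a V := by
  unfold tail1 ex19
  have h1 : Real.exp (K * t ^ 2 * V) ≤ Real.exp (4 * K * t ^ 2 * V) := Real.exp_le_exp.2 (by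
    have : 0 ≤ K * t ^ 2 * V := by positivity
    nlinarith)
  have h2 : D * (2 / t * Real.exp (-(t * a / 2)) * (2 * Real.exp (K * t ^ 2 * V))) =
      4 * D / t * (Real.exp (-(t * a / 2)) * Real.exp (K * t ^ 2 * V)) := by ring
  rw [h2]
  exact mul_le_mul_of_nonneg_left (mul_le_mul_of_nonneg_left h1 (Real.exp_pos _).le) (by positivity)

theorem tail2_eq {K D t a V : ℝ} : tail2 K D t t a a V V = 8 * D / t ^ 2 * ex19 K t a V := by
  unfold tail2 ex19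
  have : t * t = t ^ 2 := by ring
  rw [this]
  ring

section main

variable [SwQ Q] [Nonempty (Px Q)] {U H HW : Env → Finset ℕ → ℝ} {c : ℕ} {M : ℝ} {f f' : ℝ → ℝ} {m0 m1 n : ℕ}
  {J J' : Finset ℕ} {D : ℝ} {F : Env → Px Q → ℝ} {b : Px Q → B} {χ2 : (Fin 2 → B) → Pt → ℝ}
  {o2 : (Fin 2 → B) → Px Q → ℝ} {χ3 : (Fin 3 → B) → Pt → ℝ} {o3 : (Fin 3 → B) → Px Q → ℝ} {ow : Px Q → ℝ} {R : ℝ}

/-- One localised insertion of the field of the second slab. -/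
theorem e1_one [IsProbabilityMeasure μ] (h : DenLaw μ f f') {K θ0 : ℝ} (hs : SG μ (sc f f') K θ0)
    (X : Dt N Q c m0 m1 n J J' M D U H HW F) (T2 : Tb N 2 b (J ∪ J') χ2 o2 ow R)
    {G G' : Env → Finset ℕ → ℝ} (hG : Past c G) (bG : ∀ η S, |G η S| ≤ M) (hG' : Past c G') (bG' : ∀ η S, |G' η S| ≤ M)
    {t a V : ℝ} (ht : 0 < t) (ha : 0 ≤ a) (hV : R * M ^ 2 / n ≤ V) (htM : 2 * t * (M / n) ≤ θ0) :
    |∫ η, (repEv (Px Q) 3).ev (wU μ s N Q U η) ((repDr (Px Q) 2).ins (H19.Cf (Sl J' N) (cf (n : ℝ)⁻¹ s U G)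
        (fun q S => NNs q S) η) (QN m0 m1 (nv μ s N Q U H G' J (n : ℝ)⁻¹ η) (F η))) ∂(law μ)| ≤
      a * ∫ η, rep 2 (wU μ s N Q U η) (fun x => |QN m0 m1 (nv μ s N Q U H G' J (n : ℝ)⁻¹ η) (F η) x|) ∂(law μ) +
      (Fintype.card B : ℝ) ^ 2 * (4 * (4 * M ^ 2 * D) / t * ex19 K t a V) +
      (4 * M ^ 3 * ∫ η, rep 3 (wU μ s N Q U η) (fr 2 b o2 (XF m0 m1 (F η))) ∂(law μ) +
        8 * M ^ 3 * D * ∫ η, gm (wU μ s N Q U η) ow ∂(law μ)) := by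
  have hM0 : 0 ≤ M := (abs_nonneg _).trans (X.bH (fun _ => 0) ∅)
  have hD0 : 0 ≤ D := (abs_nonneg _).trans (X.bF (fun _ => 0) Classical.ofNonempty)
  have hn : (0 : ℝ) < n := by exact_mod_cast X.n0
  have hJ : ∀ i ∈ J, c < i := fun i hi => (X.sJ i hi).1
  have hJ' : ∀ z ∈ J', c < z := fun z hz => lt_of_le_of_lt X.c1 (X.sJ' z hz).1
  have hN : ∀ i ∈ J, i ≤ N := fun i hi => ((X.sJ i hi).2.trans X.c2).trans X.c3
  have hN' : ∀ z ∈ J', z ≤ N := fun z hz => (X.sJ' z hz).2.trans X.c3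
  have hJJ : ∀ i ∈ J, ∀ z ∈ J', i < z := fun i hi z hz => lt_of_le_of_lt (X.sJ i hi).2 (X.sJ' z hz).1
  have hθ : (J.card : ℝ) * (n : ℝ)⁻¹ = 1 := by rw [X.nJ]; exact mul_inv_cancel₀ hn.ne'
  have hθ' : (J'.card : ℝ) * (n : ℝ)⁻¹ = 1 := by rw [X.nJ']; exact mul_inv_cancel₀ hn.ne'
  have hθ0 : (0 : ℝ) ≤ (n : ℝ)⁻¹ := inv_nonneg.2 hn.le
  have mw : Measurable (wU μ s N Q U) := measurable_wU X.pU
  have hw2 : Wt (Sl J' N) (wU μ s N Q U) (fun q (S : Px Q) => NNs q S) 1 := wt_wU X.pU hJ' hN'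
  have oN : Obs (fun η => QN m0 m1 (nv μ s N Q U H G' J (n : ℝ)⁻¹ η) (F η)) (2 * (2 * M ^ 2 * D)) :=
    obs_QN (fun S => meas_nv X.pU X.pH hG' S) X.mF (fun η S => abs_nv hθ hθ0 X.bH bG' η S) X.bF
  have blN : ∀ q ∈ Sl J' N, ∀ (η : Env) (x : ℝ),
      QN m0 m1 (nv μ s N Q U H G' J (n : ℝ)⁻¹ (Function.update η q x)) (F (Function.update η q x)) =
        QN m0 m1 (nv μ s N Q U H G' J (n : ℝ)⁻¹ η) (F η) := by
    intro q hq η x
    obtain ⟨z, hz, e⟩ := row_Sl hq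
    have h1 := X.sJ' z hz
    have h2 := hJ' z hz
    rw [nv_blind X.q X.pU X.pH hG' hJ hN (fun i hi => by have := hJJ i hi z hz; omega) η x,
      X.bl η q x (by omega) (by omega)]
  have hQV : ∀ (β : Fin 2 → B) (η : Env), QV (Sl J' N) (cut (χ2 β) (cf (n : ℝ)⁻¹ s U G)) η ≤ V := fun β η => by
    refine (QV_cut_le X.pU hG bG hJ' (T2.z β) (T2.u β) (fun i hi => T2.n β i (mem_union_right _ hi)) η).trans
      (le_trans (le_of_eq ?_) hV)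
    rw [X.nJ']
    field_simp
  have htM1 : t * (|(n : ℝ)⁻¹| * M) ≤ θ0 := by
    rw [abs_of_nonneg hθ0]
    have e : (n : ℝ)⁻¹ * M = M / n := by ring
    rw [e]
    have : 0 ≤ t * (M / n) := by positivity
    linarith
  have hA := box_oneG (repDr (Px Q) 2) h hs (BF_cf (s := s) X.pU hG bG hJ' N (n : ℝ)⁻¹) (by positivity) hw2 oN blN b T2.z T2.u ht ha
    htM1 hQV
  have hV0 : 0 ≤ V := le_trans (Finset.sum_nonneg fun p _ => sq_nonneg _)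
    (hQV (fun _ => b Classical.ofNonempty) fun _ => 0)
  have hK : 0 ≤ K := hs.2.1.le
  simp only [repEv_ev] at hA ⊢
  refine hA.trans (add_le_add (add_le_add le_rfl ?_) ?_)
  · have h1 := tail1_le (K := K) (D := 2 * (2 * M ^ 2 * D)) (t := t) (a := a) (V := V) (by positivity) ht hK hV0
    have h2 : (Fintype.card (Fin 2 → B) : ℝ) = (Fintype.card B : ℝ) ^ 2 := by
      rw [Fintype.card_fun, Fintype.card_fin]
      push_cast
      ring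
    rw [h2]
    refine mul_le_mul_of_nonneg_left (h1.trans (le_of_eq ?_)) (by positivity)
    ring
  · have oI : Obs (fun η => (repDr (Px Q) 2).insR b (farF χ2 (Sl J' N) (cf (n : ℝ)⁻¹ s U G) (fun q S => NNs q S) η)
        (QN m0 m1 (nv μ s N Q U H G' J (n : ℝ)⁻¹ η) (F η)))
        (2 * (2 * M ^ 2 * D) * ((repDr (Px Q) 2).sz * ((Sl J' N).card * (|(n : ℝ)⁻¹| * M * 1)))) :=
      oN.insR (repDr (Px Q) 2) b (fun β => meas_Cf (BF_mul' (BF_cf (s := s) X.pU hG bG hJ' N (n : ℝ)⁻¹) (T2.z β) (T2.u β)).meas _)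
        fun η β y => abs_Cf_le (BF_mul' (BF_cf (s := s) X.pU hG bG hJ' N (n : ℝ)⁻¹) (T2.z β) (T2.u β)).bd hw2.bd η y
    refine (int_le_lin (fun η => far_one (k := 2) T2.own T2.w0 T2.o0 hM0 (XF_nonneg m0 m1 (F η))
      (fun x => abs_QN_le m0 m1 (abs_nv hθ hθ0 X.bH bG' η) x) (fun x => oN.bd η x)
      (fun β S => farF_le T2 X.pU hG bG subset_union_right hJ' hN' hθ' hθ0 η β S) (wU μ s N Q U η))
      (int_rep oI.abs mw) (int_rep (obs_fr b T2.o0 T2.o1 (obs_XF X.mF X.bF)) mw) (int_gm mw T2.w0 T2.w1)).trans (le_of_eq ?_)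
    push_cast
    ring

/-- The two localised insertions. -/
theorem e1_two [IsProbabilityMeasure μ] (h : DenLaw μ f f') {K θ0 : ℝ} (hs : SG μ (sc f f') K θ0)
    (X : Dt N Q c m0 m1 n J J' M D U H HW F) (T2 : Tb N 2 b (J ∪ J') χ2 o2 ow R) (T3 : Tb N 3 b (J ∪ J') χ3 o3 ow R)
    (hb : ∀ z ∈ J', ∀ S S' : Px Q, pJ 0 z S = pJ 0 z S' → b S = b S')
    {t a V : ℝ} (ht : 0 < t) (ha : 0 ≤ a) (hV : R * M ^ 2 / n ≤ V) (htM : 2 * t * (M / n) ≤ θ0) :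
    |∫ η, ((repEv (Px Q) 4).ev (wU μ s N Q U η) ((repDr (Px Q) 3).ins (H19.Cf (Sl J' N) (cf (n : ℝ)⁻¹ s U H) (fun q S => NNs q S) η)
        ((repDr (Px Q) 2).ins (H19.Cf (Sl J N) (cf (n : ℝ)⁻¹ s U H) (fun q S => NNs q S) η)
          (QN c m1 (fun S => HW η S.1) (F η)))) +
        (repEv (Px Q) 3).ev (wU μ s N Q U η) ((repDr (Px Q) 2).ins (H19.Cf (Sl J' N) (H19.Dc (Sl J N) (cf (n : ℝ)⁻¹ s U H)
          (cf' (n : ℝ)⁻¹ s U H)) (fun q S => NNs q S) η) (QN c m1 (fun S => HW η S.1) (F η)))) ∂(law μ)| ≤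
      M * a ^ 2 * ∫ η, rep 2 (wU μ s N Q U η) (XF c m1 (F η)) ∂(law μ) +
      (Fintype.card B : ℝ) ^ 3 * ((16 * M * D / t ^ 2 + 64 * M ^ 2 * D * (N + 1) / t) * ex19 K t a V) +
      (4 * M ^ 2 * (a + M) * ∫ η, rep 3 (wU μ s N Q U η) (fr 2 b o2 (XF c m1 (F η))) ∂(law μ) +
        6 * M ^ 3 * ∫ η, rep 4 (wU μ s N Q U η) (fr 3 b o3 (fr 2 b o2 (XF c m1 (F η)))) ∂(law μ)) +
      (8 * M ^ 2 * a + 62 * M ^ 3) * D * ∫ η, gm (wU μ s N Q U η) ow ∂(law μ) := by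
  have hM0 : 0 ≤ M := (abs_nonneg _).trans (X.bH (fun _ => 0) ∅)
  have hD0 : 0 ≤ D := (abs_nonneg _).trans (X.bF (fun _ => 0) Classical.ofNonempty)
  have hn : (0 : ℝ) < n := by exact_mod_cast X.n0
  have hJ : ∀ i ∈ J, c < i := fun i hi => (X.sJ i hi).1
  have hJ' : ∀ z ∈ J', c < z := fun z hz => lt_of_le_of_lt X.c1 (X.sJ' z hz).1
  have hN : ∀ i ∈ J, i ≤ N := fun i hi => ((X.sJ i hi).2.trans X.c2).trans X.c3
  have hN' : ∀ z ∈ J', z ≤ N := fun z hz => (X.sJ' z hz).2.trans X.c3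
  have hJJ : ∀ i ∈ J, ∀ z ∈ J', i < z := fun i hi z hz => lt_of_le_of_lt (X.sJ i hi).2 (X.sJ' z hz).1
  have hθ : (J.card : ℝ) * (n : ℝ)⁻¹ = 1 := by rw [X.nJ]; exact mul_inv_cancel₀ hn.ne'
  have hθ' : (J'.card : ℝ) * (n : ℝ)⁻¹ = 1 := by rw [X.nJ']; exact mul_inv_cancel₀ hn.ne'
  have hθ0 : (0 : ℝ) ≤ (n : ℝ)⁻¹ := inv_nonneg.2 hn.le
  have mw : Measurable (wU μ s N Q U) := measurable_wU X.pU
  have hw1 : Wt (Sl J N) (wU μ s N Q U) (fun q (S : Px Q) => NNs q S) 1 := wt_wU X.pU hJ hN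
  have hw2 : Wt (Sl J' N) (wU μ s N Q U) (fun q (S : Px Q) => NNs q S) 1 := wt_wU X.pU hJ' hN'
  have oW : Obs (fun η => QN c m1 (fun S : Px Q => HW η S.1) (F η)) (2 * (M * D)) :=
    obs_QN (fun S => X.pW.ms S.1) X.mF (fun η S => X.bW η S.1) X.bF
  have blW : ∀ (q : Pt), (c : ℤ) < q.1 → q.1 ≤ m1 → ∀ (η : Env) (x : ℝ),
      QN c m1 (fun S : Px Q => HW (Function.update η q x) S.1) (F (Function.update η q x)) =
        QN c m1 (fun S : Px Q => HW η S.1) (F η) := by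
    intro q h1 h2 η x
    rw [X.bl η q x h1 h2]
    congr 1
    funext S
    exact X.pW.bl η S.1 q x h1
  have bl1 : ∀ q ∈ Sl J N, ∀ (η : Env) (x : ℝ),
      QN c m1 (fun S : Px Q => HW (Function.update η q x) S.1) (F (Function.update η q x)) =
        QN c m1 (fun S : Px Q => HW η S.1) (F η) := by
    intro q hq η x
    obtain ⟨i, hi, e⟩ := row_Sl hq
    have h1 := X.sJ i hi
    have h2 := X.c2
    exact blW q (by omega) (by omega) η x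
  have bl2 : ∀ q ∈ Sl J' N, ∀ (η : Env) (x : ℝ),
      QN c m1 (fun S : Px Q => HW (Function.update η q x) S.1) (F (Function.update η q x)) =
        QN c m1 (fun S : Px Q => HW η S.1) (F η) := by
    intro q hq η x
    obtain ⟨z, hz, e⟩ := row_Sl hq
    have h1 := X.sJ' z hz
    have h2 := hJ' z hz
    exact blW q (by omega) (by omega) η x
  have hVe : ∀ {J : Finset ℕ}, J.card = n → (J.card : ℝ) * (R * ((n : ℝ)⁻¹ * M) ^ 2) ≤ V := fun {J} hJ => by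
    refine le_trans (le_of_eq ?_) hV
    rw [hJ]
    field_simp
  have q1 : ∀ (β : Fin 2 → B) (η : Env), QV (Sl J N) (cut (χ2 β) (cf (n : ℝ)⁻¹ s U H)) η ≤ V := fun β η =>
    (QV_cut_le X.pU X.pH X.bH hJ (T2.z β) (T2.u β) (fun i hi => T2.n β i (mem_union_left _ hi)) η).trans (hVe X.nJ)
  have q2 : ∀ (β : Fin 2 → B) (η : Env), QV (Sl J' N) (cut (χ2 β) (cf (n : ℝ)⁻¹ s U H)) η ≤ V := fun β η =>
    (QV_cut_le X.pU X.pH X.bH hJ' (T2.z β) (T2.u β) (fun i hi => T2.n β i (mem_union_right _ hi)) η).trans (hVe X.nJ')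
  have q3 : ∀ (β : Fin 3 → B) (η : Env), QV (Sl J' N) (cut (χ3 β) (cf (n : ℝ)⁻¹ s U H)) η ≤ V := fun β η =>
    (QV_cut_le X.pU X.pH X.bH hJ' (T3.z β) (T3.u β) (fun i hi => T3.n β i (mem_union_right _ hi)) η).trans (hVe X.nJ')
  have htM1 : 2 * t * (|(n : ℝ)⁻¹| * M) ≤ θ0 := by
    rw [abs_of_nonneg hθ0]
    have e : (n : ℝ)⁻¹ * M = M / n := by ring
    rw [e]
    exact htM
  have hV0 : 0 ≤ V := le_trans (Finset.sum_nonneg fun p _ => sq_nonneg _)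
    (q1 (fun _ => b Classical.ofNonempty) fun _ => 0)
  have hK : 0 ≤ K := hs.2.1.le
  have B1 := BF_cf (s := s) X.pU X.pH X.bH hJ N (n : ℝ)⁻¹
  have B2 := BF_cf (s := s) X.pU X.pH X.bH hJ' N (n : ℝ)⁻¹
  have B3 : ∀ p ∈ Sl J N, H19.BF (Sl J' N) (cf' (n : ℝ)⁻¹ s U H p) (|(n : ℝ)⁻¹| * (2 * (1 * M))) := fun p _ =>
    BF_cf' (s := s) X.pU X.pH X.bH hJ' N (n : ℝ)⁻¹ p
  have hA := box_seqG (repDr (Px Q) 2) (repDr (Px Q) 3) (fun w A A' Ψ => repDr_swap 2 w A A' Ψ) h hs (disj_Sl (K := N) hJJ)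
    B1 B2 B3 (by positivity) (by positivity) (cf_blind X.pU X.pH hJ hJJ (n : ℝ)⁻¹) (cf_der X.pU X.pH hJ hJJ (n : ℝ)⁻¹) hw1 hw2
    oW bl1 bl2 b T2.z T2.u T2.z T2.u T3.z T3.u ht ht htM1 htM1 q1 q2 q3 ha ha
  -- the far terms
  have iA : Integrable (fun η => rep 2 (wU μ s N Q U η) (XF c m1 (F η))) (law μ) := int_rep (obs_XF X.mF X.bF) mw
  have iB : Integrable (fun η => rep 3 (wU μ s N Q U η) (fr 2 b o2 (XF c m1 (F η)))) (law μ) :=
    int_rep (obs_fr b T2.o0 T2.o1 (obs_XF X.mF X.bF)) mw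
  have iC : Integrable (fun η => rep 4 (wU μ s N Q U η) (fr 3 b o3 (fr 2 b o2 (XF c m1 (F η))))) (law μ) :=
    int_rep (obs_fr b T3.o0 T3.o1 (obs_fr b T2.o0 T2.o1 (obs_XF X.mF X.bF))) mw
  have iO : Integrable (fun η => gm (wU μ s N Q U η) ow) (law μ) := int_gm mw T2.w0 T2.w1
  have xW : ∀ η x, |QN c m1 (fun S : Px Q => HW η S.1) (F η) x| ≤ M * XF c m1 (F η) x := fun η x =>
    abs_QN_le c m1 (fun S => X.bW η S.1) x
  have o1 : Obs (fun η => (repDr (Px Q) 2).insR b (farF χ2 (Sl J N) (cf (n : ℝ)⁻¹ s U H) (fun q S => NNs q S) η)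
      (QN c m1 (fun S : Px Q => HW η S.1) (F η)))
      (2 * (M * D) * ((repDr (Px Q) 2).sz * ((Sl J N).card * (|(n : ℝ)⁻¹| * M * 1)))) :=
    oW.insR (repDr (Px Q) 2) b (fun β => meas_Cf (BF_mul' B1 (T2.z β) (T2.u β)).meas _)
      fun η β y => abs_Cf_le (BF_mul' B1 (T2.z β) (T2.u β)).bd hw1.bd η y
  have o2' : Obs (fun η => (repDr (Px Q) 2).insR b (farF χ2 (Sl J' N) (cf (n : ℝ)⁻¹ s U H) (fun q S => NNs q S) η)
      (QN c m1 (fun S : Px Q => HW η S.1) (F η)))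
      (2 * (M * D) * ((repDr (Px Q) 2).sz * ((Sl J' N).card * (|(n : ℝ)⁻¹| * M * 1)))) :=
    oW.insR (repDr (Px Q) 2) b (fun β => meas_Cf (BF_mul' B2 (T2.z β) (T2.u β)).meas _)
      fun η β y => abs_Cf_le (BF_mul' B2 (T2.z β) (T2.u β)).bd hw2.bd η y
  have o3' : Obs (fun η => (repDr (Px Q) 3).insR b (farF χ3 (Sl J' N) (cf (n : ℝ)⁻¹ s U H) (fun q S => NNs q S) η)
      ((repDr (Px Q) 2).insR b (farF χ2 (Sl J N) (cf (n : ℝ)⁻¹ s U H) (fun q S => NNs q S) η)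
        (QN c m1 (fun S : Px Q => HW η S.1) (F η))))
      (2 * (M * D) * ((repDr (Px Q) 2).sz * ((Sl J N).card * (|(n : ℝ)⁻¹| * M * 1))) *
        ((repDr (Px Q) 3).sz * ((Sl J' N).card * (|(n : ℝ)⁻¹| * M * 1)))) :=
    o1.insR (repDr (Px Q) 3) b (fun β => meas_Cf (BF_mul' B2 (T3.z β) (T3.u β)).meas _)
      fun η β y => abs_Cf_le (BF_mul' B2 (T3.z β) (T3.u β)).bd hw2.bd η y
  have bD : ∀ β : Fin 2 → B, H19.BF (Sl J' N) (H19.Dc (Sl J N) (cut' (χ2 β) (cf (n : ℝ)⁻¹ s U H)) (cf' (n : ℝ)⁻¹ s U H))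
      ((Sl J N).card * (|(n : ℝ)⁻¹| * M * (|(n : ℝ)⁻¹| * (2 * (1 * M))))) := fun β =>
    (BF_mul' B1 (T2.z β) (T2.u β)).dc B3 fun p hp q hq η x => by
      unfold cut'
      rw [cf_blind X.pU X.pH hJ hJJ (n : ℝ)⁻¹ p hp q hq]
  have o4 : Obs (fun η => (repDr (Px Q) 2).insR b (dwF χ2 (Sl J N) (Sl J' N) (cf (n : ℝ)⁻¹ s U H) (cf' (n : ℝ)⁻¹ s U H)
      (fun q S => NNs q S) η) (QN c m1 (fun S : Px Q => HW η S.1) (F η))) _ :=
    oW.insR (repDr (Px Q) 2) b (fun β => meas_Cf (bD β).meas _) fun η β y => abs_Cf_le (bD β).bd hw2.bd η y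
  have g0 : ∫ η, rep 2 (wU μ s N Q U η) (fun x => |QN c m1 (fun S : Px Q => HW η S.1) (F η) x|) ∂(law μ) ≤
      M * ∫ η, rep 2 (wU μ s N Q U η) (XF c m1 (F η)) ∂(law μ) := by
    rw [← MeasureTheory.integral_const_mul]
    refine integral_mono (int_rep oW.abs mw) (iA.const_mul _) fun η => ?_
    show rep 2 (wU μ s N Q U η) (fun x => |QN c m1 (fun S : Px Q => HW η S.1) (F η) x|) ≤ M * rep 2 (wU μ s N Q U η) (XF c m1 (F η))
    rw [← rep_smul]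
    exact rep_mono _ _ (xW η)
  have g1 := int_le_lin (P := law μ) (fun η => far_one (k := 2) T2.own T2.w0 T2.o0 hM0 (XF_nonneg c m1 (F η)) (xW η)
    (fun x => oW.bd η x) (fun β S => farF_le (s := s) T2 X.pU X.pH X.bH subset_union_left hJ hN hθ hθ0 η β S) (wU μ s N Q U η))
    (int_rep o1.abs mw) iB iO
  have g2 := int_le_lin (P := law μ) (fun η => far_one (k := 2) T2.own T2.w0 T2.o0 hM0 (XF_nonneg c m1 (F η)) (xW η)
    (fun x => oW.bd η x) (fun β S => farF_le (s := s) T2 X.pU X.pH X.bH subset_union_right hJ' hN' hθ' hθ0 η β S)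
    (wU μ s N Q U η)) (int_rep o2'.abs mw) iB iO
  have g3 := int_le_lin (P := law μ) (fun η => far_two T2.own T3.own T2.w0 T2.o0 T2.o1 T3.o0 T3.o1 hM0 hM0
    (XF_nonneg c m1 (F η)) (xW η) (fun x => oW.bd η x)
    (fun β S => farF_le (s := s) T2 X.pU X.pH X.bH subset_union_left hJ hN hθ hθ0 η β S)
    (fun β S => farF_le (s := s) T3 X.pU X.pH X.bH subset_union_right hJ' hN' hθ' hθ0 η β S)
    (wU μ s N Q U η)) (int_rep o3'.abs mw) iC iO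
  have hS1 : ∑ z ∈ J', (fun _ : ℕ => (n : ℝ)⁻¹) z = 1 := by
    show ∑ _z ∈ J', (n : ℝ)⁻¹ = 1
    rw [Finset.sum_const, nsmul_eq_mul, hθ']
  have g4 := int_le_lin (P := law μ) (fun η => far_avC (k := 2) T2.own T2.w0 T2.o0 (M := 2 * M ^ 2) (by positivity)
    (XF_nonneg c m1 (F η)) (xW η) (fun x => oW.bd η x) (wU μ s N Q U η) J' hS1 (fun _ _ => hθ0) (fun z => pJ 0 z) hb
    (fun β S => dwF_le (s := s) X.q T2 X.pU X.pH X.bH subset_union_left hJ hJ' hN hN' hJJ hθ hθ0 hθ0 η β S))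
    (int_rep o4.abs mw) iB iO
  simp only [repEv_ev] at hA ⊢
  refine hA.trans ?_
  -- the exponentially small terms
  have c2 : (Fintype.card (Fin 2 → B) : ℝ) ≤ (Fintype.card B : ℝ) ^ 3 := by
    rw [Fintype.card_fun, Fintype.card_fin]
    push_cast
    have h1 : (1 : ℝ) ≤ (Fintype.card B : ℝ) := by
      have : 0 < Fintype.card B := Fintype.card_pos_iff.2 ⟨b Classical.ofNonempty⟩
      exact_mod_cast this
    exact pow_le_pow_right₀ h1 (by norm_num)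
  have c3 : (Fintype.card (Fin 3 → B) : ℝ) = (Fintype.card B : ℝ) ^ 3 := by
    rw [Fintype.card_fun, Fintype.card_fin]
    push_cast
    ring
  have e0 : 0 ≤ ex19 K t a V := mul_nonneg (Real.exp_pos _).le (Real.exp_pos _).le
  have k1 : (Fintype.card (Fin 2 → B) : ℝ) * tail2 K (2 * (M * D)) t t a a V V ≤
      (Fintype.card B : ℝ) ^ 3 * (16 * M * D / t ^ 2 * ex19 K t a V) := by
    rw [tail2_eq]
    refine (mul_le_mul_of_nonneg_right c2 (by positivity)).trans (le_of_eq ?_)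
    ring
  have eS : ∀ {J : Finset ℕ}, J.card = n → 2 * (M * D) * ((repDr (Px Q) 2).sz * ((Sl J N).card * (|(n : ℝ)⁻¹| * M * 1))) =
      8 * M ^ 2 * D * (N + 1) := fun {J} hJ => by
    rw [sz_rep2, card_Sl, hJ, abs_of_nonneg hθ0]
    push_cast
    field_simp
    ring
  have k2 : (Fintype.card (Fin 2 → B) : ℝ) *
      tail1 K (2 * (M * D) * ((repDr (Px Q) 2).sz * ((Sl J' N).card * (|(n : ℝ)⁻¹| * M * 1)))) t a V ≤
      (Fintype.card B : ℝ) ^ 3 * (32 * M ^ 2 * D * (N + 1) / t * ex19 K t a V) := by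
    rw [eS X.nJ']
    have h1 := tail1_le (K := K) (D := 8 * M ^ 2 * D * (N + 1)) (t := t) (a := a) (V := V) (by positivity) ht hK hV0
    have h2 : 0 ≤ 4 * (8 * M ^ 2 * D * ((N : ℝ) + 1)) / t * ex19 K t a V := by positivity
    refine (mul_le_mul_of_nonneg_left h1 (Nat.cast_nonneg _)).trans ((mul_le_mul_of_nonneg_right c2 h2).trans (le_of_eq ?_))
    ring
  have k3 : (Fintype.card (Fin 3 → B) : ℝ) *
      tail1 K (2 * (M * D) * ((repDr (Px Q) 2).sz * ((Sl J N).card * (|(n : ℝ)⁻¹| * M * 1)))) t a V ≤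
      (Fintype.card B : ℝ) ^ 3 * (32 * M ^ 2 * D * (N + 1) / t * ex19 K t a V) := by
    rw [eS X.nJ, c3]
    have h1 := tail1_le (K := K) (D := 8 * M ^ 2 * D * (N + 1)) (t := t) (a := a) (V := V) (by positivity) ht hK hV0
    refine (mul_le_mul_of_nonneg_left h1 (by positivity)).trans (le_of_eq ?_)
    ring
  have g0' := mul_le_mul_of_nonneg_left g0 (mul_nonneg ha ha)
  have g1' := mul_le_mul_of_nonneg_left g1 ha
  have g2' := mul_le_mul_of_nonneg_left g2 ha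
  refine (add_le_add (add_le_add (add_le_add (add_le_add g0' k1) (add_le_add g2' k2))
    (add_le_add (add_le_add g1' k3) g3)) g4).trans (le_of_eq ?_)
  push_cast
  ring

/-- **(E1) AT A FIXED SET OF SIGNS AND A FIXED TILT.** `w = lw + U`, `H` = the kick, `HW` = the first functional. -/
theorem e1_bound [IsProbabilityMeasure μ] (h : DenLaw μ f f') {K θ0 : ℝ} (hs : SG μ (sc f f') K θ0)
    (X : Dt N Q c m0 m1 n J J' M D U H HW F) (T2 : Tb N 2 b (J ∪ J') χ2 o2 ow R) (T3 : Tb N 3 b (J ∪ J') χ3 o3 ow R)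
    (hb : ∀ z ∈ J', ∀ S S' : Px Q, pJ 0 z S = pJ 0 z S' → b S = b S')
    {t a V : ℝ} (ht : 0 < t) (ha : 0 ≤ a) (hV : R * M ^ 2 / n ≤ V) (htM : 2 * t * (M / n) ≤ θ0) :
    |∫ η, ∑ z ∈ J', (n : ℝ)⁻¹ * DX (pJ 0 z) (wU μ s N Q U η) (fun S => H η S.1) [[fun S => HW η S.1], [fun S => H η S.1]]
        [F η] ∂(law μ)| ≤
      (M * a ^ 2 * ∫ η, rep 2 (wU μ s N Q U η) (XF c m1 (F η)) ∂(law μ) +
        a * (∫ η, rep 2 (wU μ s N Q U η) (fun x => |QN m0 m1 (nv μ s N Q U H HW J (n : ℝ)⁻¹ η) (F η) x|) ∂(law μ) +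
          ∫ η, rep 2 (wU μ s N Q U η) (fun x => |QN m0 m1 (nv μ s N Q U H H J (n : ℝ)⁻¹ η) (F η) x|) ∂(law μ))) +
      (4 * M ^ 2 * (a + M) * ∫ η, rep 3 (wU μ s N Q U η) (fr 2 b o2 (XF c m1 (F η))) ∂(law μ) +
        6 * M ^ 3 * ∫ η, rep 4 (wU μ s N Q U η) (fr 3 b o3 (fr 2 b o2 (XF c m1 (F η)))) ∂(law μ) +
        8 * M ^ 3 * ∫ η, rep 3 (wU μ s N Q U η) (fr 2 b o2 (XF m0 m1 (F η))) ∂(law μ)) +
      ((8 * M ^ 2 * a + 78 * M ^ 3) * D * ∫ η, gm (wU μ s N Q U η) ow ∂(law μ) +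
        (Fintype.card B : ℝ) ^ 3 * ((16 * M * D / t ^ 2 + 96 * M ^ 2 * D * (N + 1) / t) * ex19 K t a V)) := by
  have hM0 : 0 ≤ M := (abs_nonneg _).trans (X.bH (fun _ => 0) ∅)
  have hD0 : 0 ≤ D := (abs_nonneg _).trans (X.bF (fun _ => 0) Classical.ofNonempty)
  have hn : (0 : ℝ) < n := by exact_mod_cast X.n0
  have hJ : ∀ i ∈ J, c < i := fun i hi => (X.sJ i hi).1
  have hJ' : ∀ z ∈ J', c < z := fun z hz => lt_of_le_of_lt X.c1 (X.sJ' z hz).1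
  have hN : ∀ i ∈ J, i ≤ N := fun i hi => ((X.sJ i hi).2.trans X.c2).trans X.c3
  have hN' : ∀ z ∈ J', z ≤ N := fun z hz => (X.sJ' z hz).2.trans X.c3
  have hJJ : ∀ i ∈ J, ∀ z ∈ J', i < z := fun i hi z hz => lt_of_le_of_lt (X.sJ i hi).2 (X.sJ' z hz).1
  have hθ : (J.card : ℝ) * (n : ℝ)⁻¹ = 1 := by rw [X.nJ]; exact mul_inv_cancel₀ hn.ne'
  have hθ0 : (0 : ℝ) ≤ (n : ℝ)⁻¹ := inv_nonneg.2 hn.le
  have mw : Measurable (wU μ s N Q U) := measurable_wU X.pU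
  have hw1 : Wt (Sl J N) (wU μ s N Q U) (fun q (S : Px Q) => NNs q S) 1 := wt_wU X.pU hJ hN
  have hw2 : Wt (Sl J' N) (wU μ s N Q U) (fun q (S : Px Q) => NNs q S) 1 := wt_wU X.pU hJ' hN'
  have B1 := BF_cf (s := s) X.pU X.pH X.bH hJ N (n : ℝ)⁻¹
  have B2 := BF_cf (s := s) X.pU X.pH X.bH hJ' N (n : ℝ)⁻¹
  have B2' := BF_cf (s := s) X.pU X.pW X.bW hJ' N (n : ℝ)⁻¹
  have B3 : ∀ p ∈ Sl J N, H19.BF (Sl J' N) (cf' (n : ℝ)⁻¹ s U H p) (|(n : ℝ)⁻¹| * (2 * (1 * M))) := fun p _ =>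
    BF_cf' (s := s) X.pU X.pH X.bH hJ' N (n : ℝ)⁻¹ p
  have bDc : H19.BF (Sl J' N) (H19.Dc (Sl J N) (cf (n : ℝ)⁻¹ s U H) (cf' (n : ℝ)⁻¹ s U H))
      ((Sl J N).card * (|(n : ℝ)⁻¹| * M * (|(n : ℝ)⁻¹| * (2 * (1 * M))))) :=
    B1.dc B3 fun p hp q hq η x => cf_blind X.pU X.pH hJ hJJ (n : ℝ)⁻¹ p hp q hq η x
  have oW : Obs (fun η => QN c m1 (fun S : Px Q => HW η S.1) (F η)) (2 * (M * D)) :=
    obs_QN (fun S => X.pW.ms S.1) X.mF (fun η S => X.bW η S.1) X.bF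
  have oNW : Obs (fun η => QN m0 m1 (nv μ s N Q U H HW J (n : ℝ)⁻¹ η) (F η)) (2 * (2 * M ^ 2 * D)) :=
    obs_QN (fun S => meas_nv X.pU X.pH X.pW S) X.mF (fun η S => abs_nv hθ hθ0 X.bH X.bW η S) X.bF
  have oN : Obs (fun η => QN m0 m1 (nv μ s N Q U H H J (n : ℝ)⁻¹ η) (F η)) (2 * (2 * M ^ 2 * D)) :=
    obs_QN (fun S => meas_nv X.pU X.pH X.pH S) X.mF (fun η S => abs_nv hθ hθ0 X.bH X.bH η S) X.bF
  have mC : ∀ {S0 : Finset Pt} {c0 : Pt → Env → ℝ} {M0 : ℝ}, H19.BF S0 c0 M0 →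
      Measurable fun η => H19.Cf S0 c0 (fun q (S : Px Q) => NNs q S) η := fun b0 => meas_Cf b0.meas _
  have i1 := ((oW.ins (repDr (Px Q) 2) (mC B1) fun η y => abs_Cf_le B1.bd hw1.bd η y).ins (repDr (Px Q) 3) (mC B2)
    fun η y => abs_Cf_le B2.bd hw2.bd η y).int (μ := μ) (repEv (Px Q) 4) mw
  have i2 := (oW.ins (repDr (Px Q) 2) (mC bDc) fun η y => abs_Cf_le bDc.bd hw2.bd η y).int (μ := μ) (repEv (Px Q) 3) mw
  have i3 := (oNW.ins (repDr (Px Q) 2) (mC B2) fun η y => abs_Cf_le B2.bd hw2.bd η y).int (μ := μ) (repEv (Px Q) 3) mw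
  have i4 := (oN.ins (repDr (Px Q) 2) (mC B2') fun η y => abs_Cf_le B2'.bd hw2.bd η y).int (μ := μ) (repEv (Px Q) 3) mw
  have j1 := e1_two (s := s) h hs X T2 T3 hb ht ha hV htM
  have j2 := e1_one (s := s) h hs X T2 X.pH X.bH X.pW X.bW ht ha hV htM
  have j3 := e1_one (s := s) h hs X T2 X.pW X.bW X.pH X.bH ht ha hV htM
  have hV0 : 0 ≤ V := by
    obtain ⟨z, hz⟩ := Finset.card_pos.1 (X.nJ' ▸ X.n0)
    have h1 := T2.n (fun _ => b Classical.ofNonempty) z (mem_union_right _ hz)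
    have h2 : 0 ≤ R := (Nat.cast_nonneg _).trans h1
    exact le_trans (by positivity) hV
  have e0 : 0 ≤ ex19 K t a V := mul_nonneg (Real.exp_pos _).le (Real.exp_pos _).le
  simp_rw [e1_point (μ := μ) (s := s) X]
  have k5 := integral_add (i1.add i2) (i3.add i4)
  simp only [Pi.add_apply] at k5
  rw [k5, integral_add i3 i4]
  have k1 := abs_add_le (∫ η, ((repEv (Px Q) 4).ev (wU μ s N Q U η) ((repDr (Px Q) 3).ins (H19.Cf (Sl J' N) (cf (n : ℝ)⁻¹ s U H) (fun q S => NNs q S) η)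
        ((repDr (Px Q) 2).ins (H19.Cf (Sl J N) (cf (n : ℝ)⁻¹ s U H) (fun q S => NNs q S) η)
          (QN c m1 (fun S => HW η S.1) (F η)))) +
        (repEv (Px Q) 3).ev (wU μ s N Q U η) ((repDr (Px Q) 2).ins (H19.Cf (Sl J' N) (H19.Dc (Sl J N) (cf (n : ℝ)⁻¹ s U H)
          (cf' (n : ℝ)⁻¹ s U H)) (fun q S => NNs q S) η) (QN c m1 (fun S => HW η S.1) (F η)))) ∂(law μ))
    (∫ η, (repEv (Px Q) 3).ev (wU μ s N Q U η) ((repDr (Px Q) 2).ins (H19.Cf (Sl J' N) (cf (n : ℝ)⁻¹ s U H) (fun q S => NNs q S) η)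
          (QN m0 m1 (nv μ s N Q U H HW J (n : ℝ)⁻¹ η) (F η))) ∂(law μ) +
        ∫ η, (repEv (Px Q) 3).ev (wU μ s N Q U η) ((repDr (Px Q) 2).ins (H19.Cf (Sl J' N) (cf (n : ℝ)⁻¹ s U HW) (fun q S => NNs q S) η)
          (QN m0 m1 (nv μ s N Q U H H J (n : ℝ)⁻¹ η) (F η))) ∂(law μ))
  refine k1.trans ((add_le_add j1 ((abs_add_le _ _).trans (add_le_add j2 j3))).trans ?_)
  have t1 : (Fintype.card B : ℝ) ^ 2 * (4 * (4 * M ^ 2 * D) / t * ex19 K t a V) ≤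
      (Fintype.card B : ℝ) ^ 3 * (16 * M ^ 2 * D * (N + 1) / t * ex19 K t a V) := by
    have h1 : (1 : ℝ) ≤ (Fintype.card B : ℝ) := by
      have : 0 < Fintype.card B := Fintype.card_pos_iff.2 ⟨b Classical.ofNonempty⟩
      exact_mod_cast this
    have h2 : (Fintype.card B : ℝ) ^ 2 ≤ (Fintype.card B : ℝ) ^ 3 := pow_le_pow_right₀ h1 (by norm_num)
    have h3 : 4 * (4 * M ^ 2 * D) / t * ex19 K t a V ≤ 16 * M ^ 2 * D * (N + 1) / t * ex19 K t a V := by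
      refine mul_le_mul_of_nonneg_right (div_le_div_of_nonneg_right ?_ ht.le) e0
      have h4 : 0 ≤ M ^ 2 * D := by positivity
      have h5 : (0 : ℝ) ≤ N := Nat.cast_nonneg N
      nlinarith
    exact mul_le_mul h2 h3 (by positivity) (by positivity)
  refine (add_le_add le_rfl (add_le_add (add_le_add (add_le_add le_rfl t1) le_rfl) (add_le_add (add_le_add le_rfl t1) le_rfl))).trans
    (le_of_eq ?_)
  ring

end main

end

end Pool.W7d29a1.C0.E1A
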