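import Pool.Agent.W_7d29a1_C0.E2M59
import Pool.Agent.W_7d29a1_C0.E1C19

/-!
MP_7d29a1_pr, [CURV0] (helper59), section E2, PART R, AT FIXED SIGNS: `two_box` over two near slabs behind the window of the kick, inside
of the window of the exact response (near boxes of the three replicas), `fw_two` (the two insertions `g - C`, `g` are one insertion of
`h = g (g - C)`), `one_box` over a macro slab behind the block (`hf59` : `h` as a window functional), `fw_mac`. `e2R_raw`: the bound with free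
parameters.
-/

set_option autoImplicit false
set_option linter.unusedSectionVars false

namespace Pool.Agent.W_7d29a1_C0.E2R59

open Finset MeasureTheory Pool.Agent.W_7d29a1_F Pool.Agent.W_7d29a1_X Pool.Agent.W_7d29a1_H
open Pool.Agent.W_7d29a1_C0 Pool.Agent.W_7d29a1_C0.Mod92 Pool.Agent.W_7d29a1_C0.Swap57 Pool.Agent.W_7d29a1_C0.NM82
open Pool.Agent.W_7d29a1_C0.H32
open Pool.Agent.W_7d29a1_C0.CutF59 Pool.Agent.W_7d29a1_C0.CutG59 Pool.Agent.W_7d29a1_C0.E2Q59 Pool.Agent.W_7d29a1_C0.E2F59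
open Pool.Agent.W_7d29a1_C0.CrA44 (ge)
open Pool.Agent.W_7d29a1_C0.Base5
open Pool.Agent.W_7d29a1_C0.CutE14 (P3)
open Pool.Agent.W_7d29a1_C0.DGam14 (gam gamD)
open Pool.Agent.W_7d29a1_C0.MicE14 (Cq nn mi rh ob abs_ins_g ev_P3_PP own)
open Pool.Agent.W_7d29a1_C0.MicH14 (G1 T0Q fw_one fw_two fw_mac abs_h_le)
open Pool.Agent.W_7d29a1_C0.Blk18 (Full full_Pn)
open Pool.Agent.W_7d29a1_C0.FP63
open Pool.Agent.W_7d29a1_C0.E1M82 (rk_cls Gd)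
open Pool.Agent.W_7d29a1_C0.E2M59
open Pool.W7d29a1.C0
open Pool.W7d29a1.C0.VT31
open Pool.W7d29a1.C0.I52 (KS sgs av ev ks_ev Plan)
open Pool.W7d29a1.C0.H19 (Cf)
open Pool.W7d29a1.C0.R63 (Dg Sd Bl DF one_box two_box far2)
open Pool.W7d29a1.C0.H41 (Ev Dr Wt Obs farF cut QV tail1 tail2 lcG ev_mono)
open Pool.W7d29a1.C0.E1A (Tb)

noncomputable section

variable {μ : Measure ℝ} {s : ℝ} {N : ℕ} {δ B : ℝ} {b0 h b σ j e d y : ℕ}

/-! ### The product `g (g - C)` as a window functional -/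

/-- `h = g (g - C)`, `C` = the forward slab average over the rows `J`. -/
def hf59 (μ : Measure ℝ) (s : ℝ) (δ B : ℝ) (b0 j : ℕ) (a : ℤ) (t : ℝ) (J : Finset ℕ) (η : Env) (f : ℕ → ℤ) : ℝ :=
  gf μ s δ B b0 j a η f * (gf μ s δ B b0 j a η f -
    (J.card : ℝ)⁻¹ * ∑ r ∈ J, FP63.pm μ s (tf μ s δ B b0 j a t) (gf μ s δ B b0 j a) 0 r 0 (f r) η)

theorem abs_avg59 {J : Finset ℕ} {F : ℕ → ℝ} {M : ℝ} (hM : 0 ≤ M) (h : ∀ r ∈ J, |F r| ≤ M) :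
    |(J.card : ℝ)⁻¹ * ∑ r ∈ J, F r| ≤ M := by
  rcases Nat.eq_zero_or_pos J.card with h0 | h0
  · rw [h0]
    simpa using hM
  · have h1 : (0 : ℝ) < J.card := by exact_mod_cast h0
    rw [abs_mul, abs_of_pos (inv_pos.2 h1)]
    have h2 : |∑ r ∈ J, F r| ≤ J.card * M := (Finset.abs_sum_le_sum_abs _ _).trans ((Finset.sum_le_sum h).trans (le_of_eq (by
      rw [Finset.sum_const, nsmul_eq_mul])))
    calc (J.card : ℝ)⁻¹ * |∑ r ∈ J, F r| ≤ (J.card : ℝ)⁻¹ * (J.card * M) := mul_le_mul_of_nonneg_left h2 (inv_pos.2 h1).le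
      _ = M := by field_simp

theorem wf_hf59 (hB : 0 ≤ B) (δ : ℝ) (b0 j : ℕ) {a : ℤ} (ha : |(a : ℝ)| ≤ 1) (t : ℝ) {J : Finset ℕ} {m1 : ℕ}
    (hJ : ∀ r ∈ J, r ≤ m1) (hm : j + b0 ≤ m1) : WF 0 m1 (B / 2 * B) (hf59 μ s δ B b0 j a t J) where
  meas f := by
    have h1 : Measurable fun η => gf μ s δ B b0 j a η f := (wf_gf hB δ b0 j ha).meas f
    refine h1.mul (h1.sub (Measurable.const_mul (Finset.measurable_fun_sum _ fun r _ => ?_) _))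
    exact meas_pm (wf_tf hB δ b0 j ha t).meas (wf_gf hB δ b0 j ha).meas 0 (f r)
  rd η f g hfg := by
    unfold hf59
    rw [(wf_gf (μ := μ) (s := s) hB δ b0 j ha).rd η f g fun r _ h2 => hfg r (Nat.zero_le r) (h2.trans hm)]
    congr 2
    congr 1
    exact Finset.sum_congr rfl fun r hr => by rw [hfg r (Nat.zero_le r) (hJ r hr)]
  blind η p x hp := by
    funext f
    unfold hf59
    have hp' : p.1 ≤ ((j - b0 : ℕ) : ℤ) ∨ ((j + b0 : ℕ) : ℤ) < p.1 := by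
      rcases hp with h | h
      · left
        have : (0 : ℤ) ≤ ((j - b0 : ℕ) : ℤ) := Int.natCast_nonneg _
        push_cast at h
        omega
      · right
        have : ((j + b0 : ℕ) : ℤ) ≤ (m1 : ℤ) := by exact_mod_cast hm
        omega
    rw [(wf_gf (μ := μ) (s := s) hB δ b0 j ha).blind η p x hp']
    congr 2
    congr 1
    refine Finset.sum_congr rfl fun r hr => ?_
    refine pm_blind ?_ ((wf_tf (μ := μ) (s := s) hB δ b0 j ha t).blind η p x hp')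
      ((wf_gf (μ := μ) (s := s) hB δ b0 j ha).blind η p x hp') _ _
    rcases hp with h | h
    · left
      push_cast at h ⊢
      exact h
    · right
      have : (r : ℤ) ≤ (m1 : ℤ) := by exact_mod_cast hJ r hr
      omega
  bd η f := by
    have h1 : |gf μ s δ B b0 j a η f| ≤ B / 2 := (wf_gf hB δ b0 j ha).bd η f
    have h2 : |(J.card : ℝ)⁻¹ * ∑ r ∈ J, FP63.pm μ s (tf μ s δ B b0 j a t) (gf μ s δ B b0 j a) 0 r 0 (f r) η| ≤ B / 2 :=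
      abs_avg59 (by positivity) fun r _ => abs_pm_le (by positivity) ((wf_gf hB δ b0 j ha).bd η) _ _
    unfold hf59
    rw [abs_mul]
    refine mul_le_mul h1 ((abs_sub _ _).trans (by linarith)) (abs_nonneg _) (by positivity)

/-- The functional of the path. -/
theorem at2_hf59 {Q : Finset (Finset ℕ)} (hQ : Full N Q) (hB : 0 ≤ B) (δ : ℝ) (b0 j : ℕ) (A : Finset ℕ) (t : ℝ) {J : Finset ℕ}
    (hJ : ∀ r ∈ J, j + b0 < r ∧ r ≤ N) (η : Env) : at2 (Q := Q) (hf59 μ s δ B b0 j (sg A j) t J) η = fun S =>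
      gg μ s Q δ B b0 (η, A) j S *
        (gg μ s Q δ B b0 (η, A) j - Cq (wj μ s N Q δ B b0 j (η, A) t) J (pJ 0) (gg μ s Q δ B b0 (η, A) j)) S := by
  funext S
  have h1 := cf_Cq59 (μ := μ) (s := s) hQ hB δ b0 j A t hJ η
  have h2 : Cf (sS J N) (cf μ s (tf μ s δ B b0 j (sg A j) t) (gf μ s δ B b0 j (sg A j)) 0 0 J) (nq N) η S =
      (J.card : ℝ)⁻¹ * ∑ r ∈ J, FP63.pm μ s (tf μ s δ B b0 j (sg A j) t) (gf μ s δ B b0 j (sg A j)) 0 r 0 (ps S r) η := by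
    rw [Cf_row hQ fun r hr => ⟨by have := (hJ r hr).1; omega, (hJ r hr).2⟩, Finset.mul_sum]
    rfl
  rw [Pi.sub_apply, ← h1, h2]
  rfl

/-- **The macro field is the slab average of `h`.** -/
theorem cf_mac59 {Q : Finset (Finset ℕ)} (hQ : Full N Q) (hB : 0 ≤ B) (δ : ℝ) (b0 j : ℕ) (A : Finset ℕ) (t : ℝ) {J J4 : Finset ℕ}
    {m1 : ℕ} (hJ : ∀ r ∈ J, j + b0 < r ∧ r ≤ m1) (hm : j + b0 ≤ m1) (hm1 : m1 ≤ N) (hJ4 : ∀ r ∈ J4, m1 < r ∧ r ≤ N) (η : Env) :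
    Cf (sS J4 N) (cf μ s (tf μ s δ B b0 j (sg A j) t) (hf59 μ s δ B b0 j (sg A j) t J) 0 0 J4) (nq N) η =
      Cq (wj μ s N Q δ B b0 j (η, A) t) J4 (pJ 0) (fun S => gg μ s Q δ B b0 (η, A) j S *
        (gg μ s Q δ B b0 (η, A) j - Cq (wj μ s N Q δ B b0 j (η, A) t) J (pJ 0) (gg μ s Q δ B b0 (η, A) j)) S) := by
  funext S
  have hA := (wf_tf (μ := μ) (s := s) hB δ b0 j (abs_sg A j).le t).mono (al' := 0) (be' := m1) (Nat.zero_le _) hm le_rfl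
  have hG := wf_hf59 (μ := μ) (s := s) hB δ b0 j (abs_sg A j).le t (fun r hr => (hJ r hr).2) hm
  have h := Cf_cf (μ := μ) (s := s) (N := N) (c := 0) hQ hA.rd hG.rd le_rfl (Nat.zero_le _) hJ4 η S
  rw [ps_zero] at h
  rw [h, at2_hf59 hQ hB δ b0 j A t (fun r hr => ⟨(hJ r hr).1, (hJ r hr).2.trans hm1⟩) η]
  rfl

/-! ### The data -/

/-- The slabs of part R: near slabs `J1`, `J2` between the kick and the own place, macro slab `J4` between the block and the tie. -/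
structure RS59 (N b0 h b σ j e d m0 m1 : ℕ) (J1 J2 J4 : Finset ℕ) : Prop where
  geo : Geo59 N b0 h b σ j e d
  hm : j + b0 ≤ m0
  j1 : ∀ r ∈ J1, m0 < r ∧ r ≤ m1
  j2 : ∀ r ∈ J2, m1 < r ∧ r ≤ j + h
  j4 : ∀ r ∈ J4, (j / σ + 1) * σ ≤ r ∧ r ≤ e
  hm1 : m0 ≤ m1
  hm2 : m1 < j + h
  n1 : J1.Nonempty
  n2 : J2.Nonempty
  n4 : J4.Nonempty

variable {m0 m1 : ℕ} {J1 J2 J4 : Finset ℕ} [Nonempty (Px (Pn N y))] {BB B4 : Type*} [Fintype BB] [DecidableEq BB] [Fintype B4]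
  [DecidableEq B4] {c : ℕ} {D : ℝ} {f : Fam N}

/-- The right part is the observable of `MicE14`. -/
theorem pR_ob (ω : Env × Finset ℕ) : pR μ s N δ B b0 h b j e d f y ω =
    ob e d (pR59 (j + h) (j + b) (ge μ s N (Pn N y) δ B b0 b ω j) (gg μ s (Pn N y) δ B b0 ω j)) (f y ω) := rfl

theorem abs_GR (hB : 0 ≤ B) (ω : Env × Finset ℕ) (S S' : Px (Pn N y)) :
    |pR59 (j + h) (j + b) (ge μ s N (Pn N y) δ B b0 b ω j) (gg μ s (Pn N y) δ B b0 ω j) S S'| ≤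
      2 * (B / 2) * (B / 2) * NI (j + h) (j + b) S S' :=
  abs_pR59_le (abs_ge59 hB ω) (abs_gg hB b0 ω j) S S'

/-- The own functional. -/
def OW (μ : Measure ℝ) (s : ℝ) (N : ℕ) (δ B : ℝ) (b0 h b σ j e d : ℕ) (f : Fam N) (t : ℝ) (y : ℕ) [Nonempty (Px (Pn N y))]
    (ω : Env × Finset ℕ) : ℝ :=
  PP (wj μ s N (Pn N y) δ B b0 j ω t) fun x x' => mi (wj μ s N (Pn N y) δ B b0 j ω t) (pS σ j) (NI (j + h) (j + b)) x *
    rh e d (f y ω) x x'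

/-- Own and micro tie. -/
def OM (μ : Measure ℝ) (s : ℝ) (N : ℕ) (δ B : ℝ) (b0 h b σ j e d : ℕ) (f : Fam N) (t : ℝ) (y : ℕ) [Nonempty (Px (Pn N y))]
    (J : Finset ℕ) (α β : ℝ) (ω : Env × Finset ℕ) : ℝ :=
  G1 (wj μ s N (Pn N y) δ B b0 j ω t) (pS σ j) (NI (j + h) (j + b)) (rh e d (f y ω))
    (nn (wj μ s N (Pn N y) δ B b0 j ω t) J (pJ 0) (gg μ s (Pn N y) δ B b0 ω j)) α β

/-- Own (given a row of the macro slab) and micro tie. -/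
def OQ (μ : Measure ℝ) (s : ℝ) (N : ℕ) (δ B : ℝ) (b0 h b σ j e d : ℕ) (f : Fam N) (t : ℝ) (y : ℕ) [Nonempty (Px (Pn N y))]
    (J J4 : Finset ℕ) (ω : Env × Finset ℕ) : ℝ :=
  T0Q (wj μ s N (Pn N y) δ B b0 j ω t) (pS σ j) J4 (pJ 0) (NI (j + h) (j + b)) (rh e d (f y ω))
    (nn (wj μ s N (Pn N y) δ B b0 j ω t) J (pJ 0) (gg μ s (Pn N y) δ B b0 ω j))

/-- Own and the derivative of the exact response. -/
def OG (μ : Measure ℝ) (s : ℝ) (N : ℕ) (δ B : ℝ) (b0 h b σ j e d : ℕ) (f : Fam N) (t : ℝ) (y : ℕ) [Nonempty (Px (Pn N y))]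
    (m0 : ℕ) (ω : Env × Finset ℕ) : ℝ :=
  PP (wj μ s N (Pn N y) δ B b0 j ω t) fun x x' => mi (wj μ s N (Pn N y) δ B b0 j ω t) (pS σ j) (NI (j + h) (j + b)) x *
    ((B / 2 * (B / 2) * Gm59 (lw μ s ω.1 N (Pn N y)) (gg μ s (Pn N y) δ B b0 ω j) ((sg ω.2 j : ℤ) : ℝ) (pW b j) (j + b0) m0 x) *
      rh e d (f y ω) x x')

/-- The far functional. -/
def OF (μ : Measure ℝ) (s : ℝ) (N : ℕ) (δ B : ℝ) (b0 h b σ j e d : ℕ) (f : Fam N) (t : ℝ) (y : ℕ) [Nonempty (Px (Pn N y))]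
    {BB : Type*} (bx : Px (Pn N y) → BB) (o : (Fin 3 → BB) → Px (Pn N y) → ℝ) (a : ℝ) (ω : Env × Finset ℕ) : ℝ :=
  FO (wj μ s N (Pn N y) δ B b0 j ω t) (pS σ j) bx o (pR μ s N δ B b0 h b j e d f y ω) a

/-- The bound of a field at its sites. -/
theorem bd_cf59 (hB : 0 ≤ B) (δ : ℝ) (b0 j : ℕ) (A : Finset ℕ) (t : ℝ) {J : Finset ℕ} (hJ : ∀ r ∈ J, j + b0 < r) :
    DF false (sS J N) (cf μ s (tf μ s δ B b0 j (sg A j) t) (gf μ s δ B b0 j (sg A j)) 0 0 J) (B / 2 / J.card) :=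
  df_cf (wf_tf (μ := μ) (s := s) hB δ b0 j (abs_sg A j).le t)
    (wf_gf (μ := μ) (s := s) hB δ b0 j (abs_sg A j).le) 0 hJ N

/-- The derivative term. -/
theorem dg_le59 (hB : 0 ≤ B) (X : RS59 N b0 h b σ j e d m0 m1 J1 J2 J4) (hf : Cls59 N c d D f) (A : Finset ℕ) (t : ℝ)
    {J : Finset ℕ} (hJ : ∀ r ∈ J, m0 < r ∧ r ≤ j + h) (bx : Px (Pn N y) → BB) {χ : (Fin 3 → BB) → Pt → ℝ}
    (z : ∀ β p, 0 ≤ χ β p) (u : ∀ β p, χ β p ≤ 1) (η : Env) :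
    ev (P3 (pS σ j)) (wj μ s N (Pn N y) δ B b0 j (η, A) t) (fun x => |Dg bx χ (sS J N)
      (cf μ s (tf μ s δ B b0 j (sg A j) t) (gf μ s δ B b0 j (sg A j)) 0 0 J) (pR' μ s N δ B b0 h b j e d f y A) η x|) ≤
      2 * (B / 2) * OG μ s N δ B b0 h b σ j e d f t y m0 (η, A) := by
  obtain ⟨g1, g2, g3, g4, g5, g6, g7⟩ := X.geo
  have hm := X.hm
  have hm1 := X.hm1
  have hm2 := X.hm2
  have hJ' : ∀ r ∈ J, 1 ≤ r ∧ r ≤ N := fun r hr => by have := hJ r hr; omega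
  have h := dgR59 (Q := Pn N y) (c' := j - b) (d' := j + b) (al' := j - b0) (be' := j + b0) (m0 := m0) (be := j + h) (wr := j + b)
    (e := e) (d := d) (c0 := j / σ * σ) (z0 := (j / σ + 1) * σ) (M := B / 2) (Mg := B / 2) (χ := χ) (J := J)
    (wE := fun η => lw μ s η N (Pn N y)) (gE := fun η => gg μ s (Pn N y) δ B b0 (η, A) j) (fE := fun η => f y (η, A))
    (a := ((sg A j : ℤ) : ℝ)) (full_Pn N y) bx hJ' (fun r hr => (hJ r hr).1.le)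
    (fun p hp η => (bd_cf59 (μ := μ) (s := s) (N := N) hB δ b0 j A t fun r hr => by have := hJ r hr; omega).bd p hp η) z u
    (by positivity) (η := η) (by omega) (by omega : j - b0 ≤ j + b0) (by omega) (Wk_lw η (by omega))
    (Lk_gg δ B b0 j (η, A) le_rfl le_rfl) (abs_gg hB b0 (η, A) j) g5 g6 (rk_cls hf le_rfl y (η, A))
    (wj μ s N (Pn N y) δ B b0 j (η, A) t)
  exact h

/-- **Behind the block the exact response is blind.** -/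
theorem dg_zero59 (X : RS59 N b0 h b σ j e d m0 m1 J1 J2 J4) (bx : Px (Pn N y) → B4) (χ : (Fin 3 → B4) → Pt → ℝ)
    (cc : Pt → Env → ℝ) (A : Finset ℕ) (η : Env) (x : Fin 3 → Px (Pn N y)) :
    Dg bx χ (sS J4 N) cc (pR' μ s N δ B b0 h b j e d f y A) η x = 0 := by
  obtain ⟨g1, g2, g3, g4, g5, g6, g7⟩ := X.geo
  have hJ' : ∀ r ∈ J4, 1 ≤ r ∧ r ≤ N := fun r hr => by have := X.j4 r hr; have := X.hm2; omega
  have hdg := dg_eqR59 (be := j + h) (wr := j + b) (e := e) (d := d) (cc := cc) (χ := χ) (a := ((sg A j : ℤ) : ℝ))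
    (wE := fun η => lw μ s η N (Pn N y)) (gE := fun η => gg μ s (Pn N y) δ B b0 (η, A) j) (fE := fun η => f y (η, A)) bx
    (sS J4 N) (nq N) (pJ (j - b) (j + b)) η x
  have hz : gamD (lw μ s η N (Pn N y)) (gg μ s (Pn N y) δ B b0 (η, A) j)
      (Cf (sS J4 N) (cut (χ fun i => bx (x i)) cc) (nq N) η) ((sg A j : ℤ) : ℝ) (pJ (j - b) (j + b)) = 0 := by
    funext S
    have hmp : Mp (pJ (j - b) (j + b)) (Cf (sS J4 N) (cut (χ fun i => bx (x i)) cc) (nq N) η : Px (Pn N y) → ℝ) := fun S S' hS =>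
      Cf_see59 (full_Pn N y) hJ' _ η fun r hr => ps_of_ge hS (by have := X.j4 r hr; omega)
    unfold gamD
    have e1 : ∀ t : ℝ, cC (lw μ s η N (Pn N y) + (t - ((sg A j : ℤ) : ℝ)) • gg μ s (Pn N y) δ B b0 (η, A) j) (pJ (j - b) (j + b))
        (Cf (sS J4 N) (cut (χ fun i => bx (x i)) cc) (nq N) η) (gg μ s (Pn N y) δ B b0 (η, A) j) S = 0 := fun t => by
      rw [cC_meas_left _ hmp]
      rfl
    simp only [e1, intervalIntegral.integral_zero, mul_zero]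
    rfl
  have h2 : psRF (j + h) (j + b) e d (0 : Px (Pn N y) → ℝ) (gg μ s (Pn N y) δ B b0 (η, A) j) (f y (η, A)) x = 0 := by
    unfold psRF pR59
    simp
  refine Eq.trans (b := psRF (j + h) (j + b) e d (gamD (lw μ s η N (Pn N y)) (gg μ s (Pn N y) δ B b0 (η, A) j)
      (Cf (sS J4 N) (cut (χ fun i => bx (x i)) cc) (nq N) η) ((sg A j : ℤ) : ℝ) (pJ (j - b) (j + b)))
      (gg μ s (Pn N y) δ B b0 (η, A) j) (f y (η, A)) x) hdg ?_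
  rw [hz]
  exact h2

/-! ### The pathwise majorants -/

theorem bdp_R59 (hB : 0 ≤ B) (ω : Env × Finset ℕ) :
    MicE14.Bdp (NI (j + h) (j + b)) (rh e d (f y ω)) (2 * (B / 2) * (B / 2)) (pR μ s N δ B b0 h b j e d f y ω) :=
  MicE14.bdp_ob fun S S' => abs_GR hB ω S S'

/-- The own functional. -/
theorem maj_W59 (hB : 0 ≤ B) (t : ℝ) (ω : Env × Finset ℕ) :
    (P3 (pS σ j)).ks.toEv.ev (wj μ s N (Pn N y) δ B b0 j ω t) (fun x => |pR μ s N δ B b0 h b j e d f y ω x|) ≤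
      2 * (B / 2) * (B / 2) * OW μ s N δ B b0 h b σ j e d f t y ω := by
  have h1 := MicE14.own (p := pS σ j) (w := wj μ s N (Pn N y) δ B b0 j ω t) (bdp_R59 (μ := μ) (s := s) (δ := δ) (b0 := b0) (h := h)
    (b := b) (j := j) (e := e) (d := d) (f := f) (y := y) hB ω) (fun _ _ => 1) fun _ _ => zero_le_one
  simp only [mul_one, one_mul] at h1
  rw [ks_ev]
  exact h1

/-- The micro remainder of the second slab, localised. -/
theorem maj_M59 (hB : 0 ≤ B) (X : RS59 N b0 h b σ j e d m0 m1 J1 J2 J4) (hf : Cls59 N c d D f) (t : ℝ) (bx : Px (Pn N y) → BB)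
    (hbx : ∀ m ∈ J2, ∀ S S' : Px (Pn N y), pJ 0 m S = pJ 0 m S' → bx S = bx S') (ω : Env × Finset ℕ) :
    ∑ β : Fin 3 → BB, |(P3 (pS σ j)).ks.dbl.toEv.ev (wj μ s N (Pn N y) δ B b0 j ω t) ((P3 (pS σ j)).ks.dr.ins
      (gg μ s (Pn N y) δ B b0 ω j - Cq (wj μ s N (Pn N y) δ B b0 j ω t) J2 (pJ 0) (gg μ s (Pn N y) δ B b0 ω j))
      (lcG bx β (pR μ s N δ B b0 h b j e d f y ω)))| ≤
      2 * (B / 2) * (B / 2) * OM μ s N δ B b0 h b σ j e d f t y J2 2 1 ω := by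
  obtain ⟨g1, g2, g3, g4, g5, g6, g7⟩ := X.geo
  exact fw_one (w := wj μ s N (Pn N y) δ B b0 j ω t) (J := J2) (g := gg μ s (Pn N y) δ B b0 ω j) (f := f y ω) (z := e) (c := d)
    (c0 := j / σ * σ) (z0 := (j / σ + 1) * σ) (I := NI (j + h) (j + b)) (K0 := 2 * (B / 2) * (B / 2))
    (G := pR59 (j + h) (j + b) (ge μ s N (Pn N y) δ B b0 b ω j) (gg μ s (Pn N y) δ B b0 ω j)) bx hbx X.n2
    (fun m hm => by have := X.j2 m hm; omega) g5 g6 (rk_cls hf le_rfl y ω) (fun S S' => abs_GR hB ω S S')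
    (fun S S' => MicE14.NI_symm _ _ S S')

/-- **The two insertions of the micro remainder of the first slab and of `g`.** -/
theorem maj_T59 (hB : 0 ≤ B) (X : RS59 N b0 h b σ j e d m0 m1 J1 J2 J4) (hf : Cls59 N c d D f) (t : ℝ) (ω : Env × Finset ℕ) :
    |(P3 (pS σ j)).ks.dbl.dbl.toEv.ev (wj μ s N (Pn N y) δ B b0 j ω t) ((P3 (pS σ j)).ks.dbl.dr.ins
        (gg μ s (Pn N y) δ B b0 ω j - Cq (wj μ s N (Pn N y) δ B b0 j ω t) J1 (pJ 0) (gg μ s (Pn N y) δ B b0 ω j))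
        ((P3 (pS σ j)).ks.dr.ins (gg μ s (Pn N y) δ B b0 ω j) (pR μ s N δ B b0 h b j e d f y ω))) -
      (P3 (pS σ j)).ks.dbl.toEv.ev (wj μ s N (Pn N y) δ B b0 j ω t) ((P3 (pS σ j)).ks.dr.ins
        (fun S => gg μ s (Pn N y) δ B b0 ω j S *
          (gg μ s (Pn N y) δ B b0 ω j - Cq (wj μ s N (Pn N y) δ B b0 j ω t) J1 (pJ 0) (gg μ s (Pn N y) δ B b0 ω j)) S)
        (pR μ s N δ B b0 h b j e d f y ω))| ≤
      B / 2 * (2 * (B / 2) * (B / 2)) * OM μ s N δ B b0 h b σ j e d f t y J1 14 19 ω := by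
  obtain ⟨g1, g2, g3, g4, g5, g6, g7⟩ := X.geo
  exact fw_two (w := wj μ s N (Pn N y) δ B b0 j ω t) (J := J1) (g := gg μ s (Pn N y) δ B b0 ω j) (f := f y ω) (z := e) (c := d)
    (c0 := j / σ * σ) (z0 := (j / σ + 1) * σ) (I := NI (j + h) (j + b)) (K0 := 2 * (B / 2) * (B / 2)) (M := B / 2)
    (G := pR59 (j + h) (j + b) (ge μ s N (Pn N y) δ B b0 b ω j) (gg μ s (Pn N y) δ B b0 ω j)) (by positivity)
    (abs_gg hB b0 ω j) X.n1 (fun m hm => by have := X.j1 m hm; have := X.hm2; omega) g5 g6 (rk_cls hf le_rfl y ω)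
    (fun S S' => abs_GR hB ω S S') (fun S S' => MicE14.NI_symm _ _ S S')

theorem nn_nonneg59 {X Y : Type*} [Fintype X] [DecidableEq X] [Nonempty X] [DecidableEq Y] (w : X → ℝ) (J : Finset ℕ)
    (q : ℕ → X → Y) (g : X → ℝ) (S : X) : 0 ≤ nn w J q g S :=
  mul_nonneg (inv_nonneg.2 (Nat.cast_nonneg _)) (Finset.sum_nonneg fun _ _ => cE_nonneg _ _ (fun _ => abs_nonneg _) S)

/-- **The remainder of the macro slab.** -/
theorem maj_Q59 (hB : 0 ≤ B) (X : RS59 N b0 h b σ j e d m0 m1 J1 J2 J4) (hf : Cls59 N c d D f) (t : ℝ) (ω : Env × Finset ℕ) :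
    |(P3 (pS σ j)).ks.dbl.toEv.ev (wj μ s N (Pn N y) δ B b0 j ω t) ((P3 (pS σ j)).ks.dr.ins
      ((fun S => gg μ s (Pn N y) δ B b0 ω j S *
          (gg μ s (Pn N y) δ B b0 ω j - Cq (wj μ s N (Pn N y) δ B b0 j ω t) J1 (pJ 0) (gg μ s (Pn N y) δ B b0 ω j)) S) -
        Cq (wj μ s N (Pn N y) δ B b0 j ω t) J4 (pJ 0) (fun S => gg μ s (Pn N y) δ B b0 ω j S *
          (gg μ s (Pn N y) δ B b0 ω j - Cq (wj μ s N (Pn N y) δ B b0 j ω t) J1 (pJ 0) (gg μ s (Pn N y) δ B b0 ω j)) S))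
        (pR μ s N δ B b0 h b j e d f y ω))| ≤
      B / 2 * (2 * (B / 2) * (B / 2)) * (OM μ s N δ B b0 h b σ j e d f t y J1 2 1 ω +
        OQ μ s N δ B b0 h b σ j e d f t y J1 J4 ω) := by
  obtain ⟨g1, g2, g3, g4, g5, g6, g7⟩ := X.geo
  exact fw_mac (w := wj μ s N (Pn N y) δ B b0 j ω t) (J' := J4) (f := f y ω) (z := e) (c := d)
    (c0 := j / σ * σ) (z0 := (j / σ + 1) * σ) (I := NI (j + h) (j + b)) (K0 := 2 * (B / 2) * (B / 2)) (Mh := B / 2)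
    (G := pR59 (j + h) (j + b) (ge μ s N (Pn N y) δ B b0 b ω j) (gg μ s (Pn N y) δ B b0 ω j))
    (n := nn (wj μ s N (Pn N y) δ B b0 j ω t) J1 (pJ 0) (gg μ s (Pn N y) δ B b0 ω j)) X.n4 X.j4 g5 g6 (rk_cls hf le_rfl y ω)
    (fun S S' => abs_GR hB ω S S') (by positivity) (by positivity) (fun S => nn_nonneg59 _ _ _ _ S)
    (fun S => abs_h_le (abs_gg hB b0 ω j) (by positivity) X.n1 S) (fun S S' => NI_nonneg _ _ _ _)
    (fun S S' => MicE14.NI_symm _ _ S S')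

/-- One insertion of a far part. -/
theorem maj_F59 {L : Type*} (t : ℝ) (bx : Px (Pn N y) → L) {J : Finset ℕ} (hJ : ∀ r ∈ J, 1 ≤ r ∧ r ≤ N)
    {χ : (Fin 3 → L) → Pt → ℝ} {o : (Fin 3 → L) → Px (Pn N y) → ℝ} (z : ∀ β p, 0 ≤ χ β p) (u : ∀ β p, χ β p ≤ 1)
    (o0 : ∀ β S, 0 ≤ o β S) (far : ∀ β S, (∃ i ∈ J, χ β ((i : ℤ), ps S i) ≠ 1) → 1 ≤ o β S) {cc : Pt → Env → ℝ} {M : ℝ}
    (hM : 0 ≤ M) (hc : ∀ p ∈ sS J N, ∀ η, |cc p η| ≤ M / J.card) (A : Finset ℕ) (η : Env) :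
    (P3 (pS σ j)).ks.dbl.toEv.ev (wj μ s N (Pn N y) δ B b0 j (η, A) t) (fun x => |(P3 (pS σ j)).ks.dr.insR bx
      (H41.farF χ (sS J N) cc (nq N) η) (pR μ s N δ B b0 h b j e d f y (η, A)) x|) ≤
      M * OF μ s N δ B b0 h b σ j e d f t y bx o 1 (η, A) :=
  far_one59 (pS σ j) (wj μ s N (Pn N y) δ B b0 j (η, A) t) bx (A := H41.farF χ (sS J N) cc (nq N) η) (o := o) (Mf := M)
    (fun β S => abs_farF59 (full_Pn N y) hJ hc (z β) (u β) (o0 β S) S hM (far β S) η) (pR μ s N δ B b0 h b j e d f y (η, A))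

/-- The insertions of `g` and of a far part. -/
theorem maj_FF59 (hB : 0 ≤ B) {L : Type*} (t : ℝ) (bx : Px (Pn N y) → L) {J : Finset ℕ} (hJ : ∀ r ∈ J, 1 ≤ r ∧ r ≤ N)
    {χ : (Fin 3 → L) → Pt → ℝ} {o : (Fin 3 → L) → Px (Pn N y) → ℝ} (z : ∀ β p, 0 ≤ χ β p) (u : ∀ β p, χ β p ≤ 1)
    (o0 : ∀ β S, 0 ≤ o β S) (far : ∀ β S, (∃ i ∈ J, χ β ((i : ℤ), ps S i) ≠ 1) → 1 ≤ o β S) {cc : Pt → Env → ℝ} {M : ℝ}
    (hM : 0 ≤ M) (hc : ∀ p ∈ sS J N, ∀ η, |cc p η| ≤ M / J.card) (A : Finset ℕ) (η : Env) :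
    (P3 (pS σ j)).ks.dbl.dbl.toEv.ev (wj μ s N (Pn N y) δ B b0 j (η, A) t) (fun x => |far2 (P3 (pS σ j)).ks.dr
      (P3 (pS σ j)).ks.dbl.dr bx χ (sS J N) cc (nq N) (fun η => gg μ s (Pn N y) δ B b0 (η, A) j)
      (fun η => pR μ s N δ B b0 h b j e d f y (η, A)) η x|) ≤
      6 * (B / 2) * M * OF μ s N δ B b0 h b σ j e d f t y bx o 3 (η, A) :=
  far_two59 (pS σ j) (wj μ s N (Pn N y) δ B b0 j (η, A) t) bx (A := H41.farF χ (sS J N) cc (nq N) η) (o := o) (Mf := M)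
    (Mg := B / 2)
    (fun β S => abs_farF59 (full_Pn N y) hJ hc (z β) (u β) (o0 β S) S hM (far β S) η) (abs_gg hB b0 (η, A) j)
    (pR μ s N δ B b0 h b j e d f y (η, A))

/-! ### The integrals of the functionals -/

theorem mw59 (hB : 0 ≤ B) (δ : ℝ) (b0 j : ℕ) (t : ℝ) : Mw fun ω : Env × Finset ℕ => wj μ s N (Pn N y) δ B b0 j ω t := fun A x =>
  (measurable_pi_apply x).comp (meas_w59 hB δ b0 j t A)

theorem g1_g59 (hB : 0 ≤ B) (δ : ℝ) (b0 j : ℕ) : G1d fun ω : Env × Finset ℕ => gg μ s (Pn N y) δ B b0 ω j :=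
  ⟨fun A x => meas_gj δ B b0 j (sg A j) x, B / 2, fun ω x => abs_gg hB b0 ω j x⟩

theorem g1_f59 (hf : Cls59 N c d D f) : G1d fun ω : Env × Finset ℕ => f y ω :=
  ⟨fun _ S => (hf.meas y S).comp measurable_prodMk_right, D, fun ω S => hf.bdd y ω S⟩

theorem g2_rh59 (hf : Cls59 N c d D f) (e d' : ℕ) : G2d fun ω : Env × Finset ℕ => rh e d' (f y ω) :=
  (g1_f59 hf).dif.mul (G2d.cst (NI e d'))

theorem gd_OW59 (hB : 0 ≤ B) (hf : Cls59 N c d D f) (b0 h b σ j e : ℕ) (t : ℝ) : Gd (OW μ s N δ B b0 h b σ j e d f t y) :=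
  gd_own (mw59 hB δ b0 j t) (pS σ j) (NI (j + h) (j + b)) (g2_rh59 hf e d)

theorem gd_OM59 (hB : 0 ≤ B) (hf : Cls59 N c d D f) (b0 h b σ j e : ℕ) (t : ℝ) (J : Finset ℕ) (α β : ℝ) :
    Gd (OM μ s N δ B b0 h b σ j e d f t y J α β) :=
  gd_G1 (mw59 hB δ b0 j t) (pS σ j) (NI (j + h) (j + b)) (g2_rh59 hf e d)
    (g1_nn (mw59 hB δ b0 j t) J (pJ 0) (g1_g59 hB δ b0 j)) α β

theorem gd_OQ59 (hB : 0 ≤ B) (hf : Cls59 N c d D f) (b0 h b σ j e : ℕ) (t : ℝ) (J J4 : Finset ℕ) :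
    Gd (OQ μ s N δ B b0 h b σ j e d f t y J J4) :=
  gd_T0Q (mw59 hB δ b0 j t) (pS σ j) J4 (pJ 0) (NI (j + h) (j + b)) (g2_rh59 hf e d)
    (g1_nn (mw59 hB δ b0 j t) J (pJ 0) (g1_g59 hB δ b0 j))

theorem gd_OG59 (hB : 0 ≤ B) (hf : Cls59 N c d D f) (b0 h b σ j e : ℕ) (t : ℝ) (m0 : ℕ) :
    Gd (OG μ s N δ B b0 h b σ j e d f t y m0) :=
  gd_tie (mw59 hB δ b0 j t) (pS σ j) (NI (j + h) (j + b))
    ((g1_Gm (w := fun ω : Env × Finset ℕ => lw μ s ω.1 N (Pn N y)) (g := fun ω => gg μ s (Pn N y) δ B b0 ω j)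
      (fun _ x => meas_lw x) (g1_g59 hB δ b0 j).ms (fun A => ((sg A j : ℤ) : ℝ)) (pW b j) (j + b0) m0).smul (B / 2 * (B / 2)))
    (g2_rh59 hf e d)

theorem gd_OF59 (hB : 0 ≤ B) (hf : Cls59 N c d D f) (b0 h b σ j e : ℕ) (t : ℝ) {L : Type*} (bx : Px (Pn N y) → L)
    {o : (Fin 3 → L) → Px (Pn N y) → ℝ} (o0 : ∀ β S, 0 ≤ o β S) (o1 : ∀ β S, o β S ≤ 1) {a : ℝ} (ha : 0 ≤ a) :
    Gd (OF μ s N δ B b0 h b σ j e d f t y bx o a) :=
  gd_FO (mw59 hB δ b0 j t) (pS σ j) bx o0 o1 (fun A => obs_pR59 hB hf b0 h b j e A) ha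

theorem mono59 {ν : Measure Env} {F G : Env → ℝ} (hG : Integrable G ν) (h0 : ∀ η, 0 ≤ F η) (h : ∀ η, F η ≤ G η) :
    ∫ η, F η ∂ν ≤ ∫ η, G η ∂ν := integral_mono_of_nonneg (ae_of_all _ h0) hG (ae_of_all _ h)

theorem mono59c {ν : Measure Env} {F G : Env → ℝ} {k : ℝ} (hG : Integrable G ν) (h0 : ∀ η, 0 ≤ F η) (h : ∀ η, F η ≤ k * G η) :
    ∫ η, F η ∂ν ≤ k * ∫ η, G η ∂ν := (mono59 (hG.const_mul k) h0 h).trans_eq (integral_const_mul _ _)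

theorem ev0_59 {X ι : Type*} [Fintype X] [Fintype ι] [DecidableEq ι] (E : Ev X ι) (w : X → ℝ) {Φ : (ι → X) → ℝ}
    (h : ∀ x, 0 ≤ Φ x) : 0 ≤ E.ev w Φ := by
  have h1 := ev_mono E w h
  have h2 : E.ev w (fun _ => (0 : ℝ)) = 0 := by
    have h3 := H41.ev_smul E w 0 fun _ => (0 : ℝ)
    simpa using h3
  exact h2.symm.le.trans h1

theorem sz59 {X Y : Type*} [Fintype X] [DecidableEq X] [Nonempty X] [DecidableEq Y] (p : X → Y) : (P3 p).ks.dr.sz = 6 := by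
  unfold H41.Dr.sz
  have h1 : ∀ j : Fin 3 ⊕ Fin 3, |(P3 p).ks.dr.sg j| = 1 := fun j => abs_sgs j
  simp only [h1, Finset.sum_const, Finset.card_univ, Fintype.card_sum, Fintype.card_fin, nsmul_eq_mul]
  norm_num

section main

variable {χ : (Fin 3 → BB) → Pt → ℝ} {o : (Fin 3 → BB) → Px (Pn N y) → ℝ} {ow : Px (Pn N y) → ℝ} {R : ℝ}
  {χ4 : (Fin 3 → B4) → Pt → ℝ} {o4 : (Fin 3 → B4) → Px (Pn N y) → ℝ} {ow4 : Px (Pn N y) → ℝ} {R4 : ℝ}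
  {bx : Px (Pn N y) → BB} {b4 : Px (Pn N y) → B4}

theorem km59 [IsProbabilityMeasure μ] (hB : 0 ≤ B) (hf : Cls59 N c d D f) (X : RS59 N b0 h b σ j e d m0 m1 J1 J2 J4)
    (hbx : ∀ m ∈ J2, ∀ S S' : Px (Pn N y), pJ 0 m S = pJ 0 m S' → bx S = bx S') (t : ℝ) (A : Finset ℕ) :
    ∑ β : Fin 3 → BB, ∫ η, |(P3 (pS σ j)).ks.dbl.toEv.ev (wj μ s N (Pn N y) δ B b0 j (η, A) t) ((P3 (pS σ j)).ks.dr.ins
      (gg μ s (Pn N y) δ B b0 (η, A) j - Cf (sS J2 N)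
        (cf μ s (tf μ s δ B b0 j (sg A j) t) (gf μ s δ B b0 j (sg A j)) 0 0 J2) (nq N) η)
      (lcG bx β (pR μ s N δ B b0 h b j e d f y (η, A))))| ∂(law μ) ≤
      2 * (B / 2) * (B / 2) * ∫ η, OM μ s N δ B b0 h b σ j e d f t y J2 2 1 (η, A) ∂(law μ) := by
  obtain ⟨g1, g2, g3, g4, g5, g6, g7⟩ := X.geo
  have hJ2 : ∀ r ∈ J2, j + b0 < r ∧ r ≤ N := fun r hr => by have := X.j2 r hr; have := X.hm; have := X.hm1; omega
  have eC : ∀ η, Cf (sS J2 N) (cf μ s (tf μ s δ B b0 j (sg A j) t) (gf μ s δ B b0 j (sg A j)) 0 0 J2) (nq N) η =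
      Cq (wj μ s N (Pn N y) δ B b0 j (η, A) t) J2 (pJ 0) (gg μ s (Pn N y) δ B b0 (η, A) j) := fun η =>
    cf_Cq59 (full_Pn N y) hB δ b0 j A t hJ2 η
  simp only [eC]
  have gq : G1d fun ω : Env × Finset ℕ => gg μ s (Pn N y) δ B b0 ω j - Cq (wj μ s N (Pn N y) δ B b0 j ω t) J2 (pJ 0)
      (gg μ s (Pn N y) δ B b0 ω j) :=
    (g1_g59 hB δ b0 j).sub (g1_Cq (mw59 hB δ b0 j t) J2 (pJ 0) (g1_g59 hB δ b0 j))
  obtain ⟨KK, hKK⟩ := gq.bd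
  have hi : ∀ β : Fin 3 → BB, Integrable (fun η => |(P3 (pS σ j)).ks.dbl.toEv.ev (wj μ s N (Pn N y) δ B b0 j (η, A) t)
      ((P3 (pS σ j)).ks.dr.ins (gg μ s (Pn N y) δ B b0 (η, A) j - Cq (wj μ s N (Pn N y) δ B b0 j (η, A) t) J2 (pJ 0)
        (gg μ s (Pn N y) δ B b0 (η, A) j)) (lcG bx β (pR μ s N δ B b0 h b j e d f y (η, A))))|) (law μ) := fun β =>
    ((((obs_pR59 (μ := μ) (s := s) (δ := δ) (y := y) hB hf b0 h b j e A).lc bx β).ins (P3 (pS σ j)).ks.dr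
      (measurable_pi_lambda _ (gq.ms A)) fun η x => hKK (η, A) x).int (P3 (pS σ j)).ks.dbl.toEv (meas_w59 hB δ b0 j t A)).abs
  rw [← integral_finsetSum _ fun β _ => hi β]
  exact mono59c ((gd_OM59 (μ := μ) (s := s) (δ := δ) (y := y) hB hf b0 h b σ j e t J2 2 1).int A)
    (fun η => Finset.sum_nonneg fun β _ => abs_nonneg _) fun η => maj_M59 hB X hf t bx hbx (η, A)

/-- The insertion of `g` and a function of the three replicas. -/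
theorem ins_abs59 (hB : 0 ≤ B) (t : ℝ) (ω : Env × Finset ℕ) (Φ : (Fin 3 → Px (Pn N y)) → ℝ) :
    (P3 (pS σ j)).ks.dbl.toEv.ev (wj μ s N (Pn N y) δ B b0 j ω t) (fun x => |(P3 (pS σ j)).ks.dr.ins
      (gg μ s (Pn N y) δ B b0 ω j) Φ x|) ≤
      6 * (B / 2) * (P3 (pS σ j)).ks.toEv.ev (wj μ s N (Pn N y) δ B b0 j ω t) (fun x => |Φ x|) := by
  have h1 : ∀ x : Fin 3 ⊕ Fin 3 → Px (Pn N y), |(P3 (pS σ j)).ks.dr.ins (gg μ s (Pn N y) δ B b0 ω j) Φ x| ≤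
      6 * (B / 2) * |Φ fun i => x (Sum.inl i)| := fun x => abs_ins_g (abs_gg hB b0 ω j) Φ x
  refine (ev_mono _ _ h1).trans (le_of_eq ?_)
  rw [H41.ev_smul]
  congr 1
  exact (P3 (pS σ j)).ks.dbl_old (wj μ s N (Pn N y) δ B b0 j ω t) fun x => |Φ x|

/-- **THE NEAR SLABS OF PART R.** -/
theorem e2R_near59 [IsProbabilityMeasure μ] {ff ff' : ℝ → ℝ} (hd : DenLaw μ ff ff') {K θ0 : ℝ} (hs : SG μ (sc ff ff') K θ0)
    (hB : 0 ≤ B) (hf : Cls59 N c d D f) (X : RS59 N b0 h b σ j e d m0 m1 J1 J2 J4) (T : Tb N 3 bx (J1 ∪ J2) χ o ow R)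
    (hbx : ∀ m ∈ J2, ∀ S S' : Px (Pn N y), pJ 0 m S = pJ 0 m S' → bx S = bx S') {t0 a V : ℝ} (ht : 0 < t0) (ha : 0 ≤ a)
    (r1 : 2 * t0 * (B / 2 / J1.card) ≤ θ0) (r2 : 2 * t0 * (B / 2 / J2.card) ≤ θ0)
    (hV1 : J1.card * (R * (B / 2 / J1.card) ^ 2) ≤ V) (hV2 : J2.card * (R * (B / 2 / J2.card) ^ 2) ≤ V) (t : ℝ) (A : Finset ℕ) :
    |∫ η, vR μ s N δ B b0 h b σ j e d f t y (η, A) ∂(law μ)| ≤
      (a * a * (2 * (B / 2) * (B / 2) * ∫ η, OW μ s N δ B b0 h b σ j e d f t y (η, A) ∂(law μ)) +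
        (Fintype.card (Fin 3 → BB) : ℝ) * H41.tail2 K (2 * (B / 2) * (B / 2) * (2 * D)) t0 t0 a a V V) +
      (a * (2 * (B / 2) * ∫ η, OG μ s N δ B b0 h b σ j e d f t y m0 (η, A) ∂(law μ)) +
        (Fintype.card (Fin 3 → BB) : ℝ) * H41.tail1 K ((sS J2 N).card * (B / 2 / J2.card *
          (2 * (2 * (1 * (B / 2))) * (B / 2) * (2 * D)))) t0 a V) +
      (a * (2 * (B / 2) * (B / 2) * ∫ η, OM μ s N δ B b0 h b σ j e d f t y J2 2 1 (η, A) ∂(law μ)) +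
        (Fintype.card (Fin 3 → BB) : ℝ) * H41.tail1 K (2 * (B / 2) * (B / 2) * (2 * D) * (6 *
          (B / 2 + (sS J2 N).card * (B / 2 / J2.card * 1)))) t0 a V) +
      (a * (B / 2 * ∫ η, OF μ s N δ B b0 h b σ j e d f t y bx o 1 (η, A) ∂(law μ)) +
        (Fintype.card (Fin 3 → BB) : ℝ) * H41.tail1 K (2 * (B / 2) * (B / 2) * (2 * D) * (6 *
          ((sS J2 N).card * (B / 2 / J2.card * 1)))) t0 a V) +
      6 * (B / 2) * (2 * (B / 2) * ∫ η, OG μ s N δ B b0 h b σ j e d f t y m0 (η, A) ∂(law μ)) +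
      |∫ η, (P3 (pS σ j)).ks.dbl.dbl.toEv.ev (wj μ s N (Pn N y) δ B b0 j (η, A) t) ((P3 (pS σ j)).ks.dbl.dr.ins
        (gg μ s (Pn N y) δ B b0 (η, A) j - Cq (wj μ s N (Pn N y) δ B b0 j (η, A) t) J1 (pJ 0) (gg μ s (Pn N y) δ B b0 (η, A) j))
        ((P3 (pS σ j)).ks.dr.ins (gg μ s (Pn N y) δ B b0 (η, A) j) (pR μ s N δ B b0 h b j e d f y (η, A)))) ∂(law μ)| +
      6 * (B / 2) * (B / 2) * ∫ η, OF μ s N δ B b0 h b σ j e d f t y bx o 3 (η, A) ∂(law μ) := by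
  obtain ⟨g1, g2, g3, g4, g5, g6, g7⟩ := X.geo
  have hm := X.hm
  have hm1 := X.hm1
  have hm2 := X.hm2
  have hJ1 : ∀ r ∈ J1, j + b0 < r := fun r hr => by have := X.j1 r hr; omega
  have hJ2 : ∀ r ∈ J2, j + b0 < r := fun r hr => by have := X.j2 r hr; omega
  have hJ1N : ∀ r ∈ J1, 1 ≤ r ∧ r ≤ N := fun r hr => by have := X.j1 r hr; omega
  have hJ2N : ∀ r ∈ J2, 1 ≤ r ∧ r ≤ N := fun r hr => by have := X.j2 r hr; omega
  have hJ1d : ∀ r ∈ J1, 0 < r ∧ r ≤ d := fun r hr => by have := X.j1 r hr; omega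
  have hJ2d : ∀ r ∈ J2, 0 < r ∧ r ≤ d := fun r hr => by have := X.j2 r hr; omega
  have hM0 : 0 ≤ B / 2 := by positivity
  have hdis : Disjoint J1 J2 := Finset.disjoint_left.2 fun r h1 h2 => by have := X.j1 r h1; have := X.j2 r h2; omega
  have c1 := bd_cf59 (μ := μ) (s := s) (N := N) hB δ b0 j A t hJ1
  have c2 := bd_cf59 (μ := μ) (s := s) (N := N) hB δ b0 j A t hJ2
  have hs1 : (J1 : Finset ℕ) ⊆ J1 ∪ J2 := Finset.subset_union_left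
  have hs2 : (J2 : Finset ℕ) ⊆ J1 ∪ J2 := Finset.subset_union_right
  have hA := two_box (μ := μ) (X := Px (Pn N y)) (P3 (pS σ j)).ks.dr (P3 (pS σ j)).ks.dbl.dr hd hs (S1 := sS J1 N) (S2 := sS J2 N)
    (c1 := cf μ s (tf μ s δ B b0 j (sg A j) t) (gf μ s δ B b0 j (sg A j)) 0 0 J1)
    (c2 := cf μ s (tf μ s δ B b0 j (sg A j) t) (gf μ s δ B b0 j (sg A j)) 0 0 J2) (N := nq N)
    (w := fun η => wj μ s N (Pn N y) δ B b0 j (η, A) t) (T1 := fun η => gg μ s (Pn N y) δ B b0 (η, A) j)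
    (T2 := fun η => gg μ s (Pn N y) δ B b0 (η, A) j) (Ψ := fun η => pR μ s N δ B b0 h b j e d f y (η, A))
    (Ψ1 := pR' μ s N δ B b0 h b j e d f y A) (Ψ2 := pR' μ s N δ B b0 h b j e d f y A) (disj_sS hdis) c1 c2 (by positivity)
    (by positivity) (fun q1 h1 q2 h2 η x => ?_) (wt_row59 (Q := Pn N y) hB δ b0 j A t fun r hr => Or.inr (hJ1 r hr))
    (wt_row59 (Q := Pn N y) hB δ b0 j A t fun r hr => Or.inr (hJ2 r hr)) (obs_pR59 hB hf b0 h b j e A)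
    (fun p _ => obs_pR59' hB hf b0 h b j e A p) (fun p _ => obs_pR59' hB hf b0 h b j e A p)
    (sd_pR59 hB hf b0 h b j e A (fun r hr => Or.inr (hJ1 r hr)) hJ1d)
    (sd_pR59 hB hf b0 h b j e A (fun r hr => Or.inr (hJ2 r hr)) hJ2d) (meas_g59 δ B b0 j A)
    (fun η => abs_gg hB b0 (η, A) j) (meas_g59 δ B b0 j A) (fun η => abs_gg hB b0 (η, A) j)
    (bl_g59 hB δ b0 j A fun r hr => Or.inr (hJ1 r hr)) bx T.z T.u T.z T.u ht ht r1 r2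
    (fun β η => (QV_cut59 (fun p hp η => c1.bd p hp η) (T.z β) (T.u β) (fun i hi => T.n β i (hs1 hi)) η).trans hV1)
    (fun β η => (QV_cut59 (fun p hp η => c2.bd p hp η) (T.z β) (T.u β) (fun i hi => T.n β i (hs2 hi)) η).trans hV2) ha ha
  · have kW : ∫ η, (P3 (pS σ j)).ks.toEv.ev (wj μ s N (Pn N y) δ B b0 j (η, A) t)
        (fun x => |pR μ s N δ B b0 h b j e d f y (η, A) x|) ∂(law μ) ≤
        2 * (B / 2) * (B / 2) * ∫ η, OW μ s N δ B b0 h b σ j e d f t y (η, A) ∂(law μ) :=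
      mono59c ((gd_OW59 (μ := μ) (s := s) (δ := δ) (y := y) hB hf b0 h b σ j e t).int A)
        (fun η => ev0_59 _ _ fun x => abs_nonneg _) fun η => maj_W59 hB t (η, A)
    have kG1 : ∫ η, (P3 (pS σ j)).ks.toEv.ev (wj μ s N (Pn N y) δ B b0 j (η, A) t) (fun x => |Dg bx χ (sS J1 N)
        (cf μ s (tf μ s δ B b0 j (sg A j) t) (gf μ s δ B b0 j (sg A j)) 0 0 J1) (pR' μ s N δ B b0 h b j e d f y A) η x|) ∂(law μ) ≤
        2 * (B / 2) * ∫ η, OG μ s N δ B b0 h b σ j e d f t y m0 (η, A) ∂(law μ) :=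
      mono59c ((gd_OG59 (μ := μ) (s := s) (δ := δ) (y := y) hB hf b0 h b σ j e t m0).int A)
        (fun η => ev0_59 _ _ fun x => abs_nonneg _) fun η => by
          rw [ks_ev]
          exact dg_le59 hB X hf A t (fun r hr => by have := X.j1 r hr; omega) bx T.z T.u η
    have kG2 : ∫ η, (P3 (pS σ j)).ks.toEv.ev (wj μ s N (Pn N y) δ B b0 j (η, A) t) (fun x => |Dg bx χ (sS J2 N)
        (cf μ s (tf μ s δ B b0 j (sg A j) t) (gf μ s δ B b0 j (sg A j)) 0 0 J2) (pR' μ s N δ B b0 h b j e d f y A) η x|) ∂(law μ) ≤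
        2 * (B / 2) * ∫ η, OG μ s N δ B b0 h b σ j e d f t y m0 (η, A) ∂(law μ) :=
      mono59c ((gd_OG59 (μ := μ) (s := s) (δ := δ) (y := y) hB hf b0 h b σ j e t m0).int A)
        (fun η => ev0_59 _ _ fun x => abs_nonneg _) fun η => by
          rw [ks_ev]
          exact dg_le59 hB X hf A t (fun r hr => by have := X.j2 r hr; omega) bx T.z T.u η
    have kI : ∫ η, (P3 (pS σ j)).ks.dbl.toEv.ev (wj μ s N (Pn N y) δ B b0 j (η, A) t) (fun x => |(P3 (pS σ j)).ks.dr.ins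
        (gg μ s (Pn N y) δ B b0 (η, A) j) (Dg bx χ (sS J1 N)
        (cf μ s (tf μ s δ B b0 j (sg A j) t) (gf μ s δ B b0 j (sg A j)) 0 0 J1) (pR' μ s N δ B b0 h b j e d f y A) η) x|) ∂(law μ) ≤
        6 * (B / 2) * (2 * (B / 2)) * ∫ η, OG μ s N δ B b0 h b σ j e d f t y m0 (η, A) ∂(law μ) :=
      mono59c ((gd_OG59 (μ := μ) (s := s) (δ := δ) (y := y) hB hf b0 h b σ j e t m0).int A)
        (fun η => ev0_59 _ _ fun x => abs_nonneg _) fun η => by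
          refine (ins_abs59 hB t (η, A) _).trans ?_
          rw [ks_ev, mul_assoc (6 * (B / 2))]
          exact mul_le_mul_of_nonneg_left (dg_le59 hB X hf A t (fun r hr => by have := X.j1 r hr; omega) bx T.z T.u η)
            (by positivity)
    have kF : ∫ η, (P3 (pS σ j)).ks.dbl.toEv.ev (wj μ s N (Pn N y) δ B b0 j (η, A) t) (fun x => |(P3 (pS σ j)).ks.dr.insR bx
        (H41.farF χ (sS J2 N) (cf μ s (tf μ s δ B b0 j (sg A j) t) (gf μ s δ B b0 j (sg A j)) 0 0 J2) (nq N) η)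
        (pR μ s N δ B b0 h b j e d f y (η, A)) x|) ∂(law μ) ≤
        B / 2 * ∫ η, OF μ s N δ B b0 h b σ j e d f t y bx o 1 (η, A) ∂(law μ) :=
      mono59c ((gd_OF59 (μ := μ) (s := s) (δ := δ) (y := y) hB hf b0 h b σ j e t bx T.o0 T.o1 zero_le_one).int A)
        (fun η => ev0_59 _ _ fun x => abs_nonneg _) fun η =>
          maj_F59 t bx hJ2N T.z T.u T.o0 (fun β S ⟨i, hi, h⟩ => T.far β S ⟨i, hs2 hi, h⟩) hM0 (fun p hp η => c2.bd p hp η) A η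
    have kFF : ∫ η, (P3 (pS σ j)).ks.dbl.dbl.toEv.ev (wj μ s N (Pn N y) δ B b0 j (η, A) t) (fun x => |far2 (P3 (pS σ j)).ks.dr
        (P3 (pS σ j)).ks.dbl.dr bx χ (sS J1 N) (cf μ s (tf μ s δ B b0 j (sg A j) t) (gf μ s δ B b0 j (sg A j)) 0 0 J1) (nq N)
        (fun η => gg μ s (Pn N y) δ B b0 (η, A) j) (fun η => pR μ s N δ B b0 h b j e d f y (η, A)) η x|) ∂(law μ) ≤
        6 * (B / 2) * (B / 2) * ∫ η, OF μ s N δ B b0 h b σ j e d f t y bx o 3 (η, A) ∂(law μ) :=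
      mono59c ((gd_OF59 (μ := μ) (s := s) (δ := δ) (y := y) hB hf b0 h b σ j e t bx T.o0 T.o1 (by norm_num)).int A)
        (fun η => ev0_59 _ _ fun x => abs_nonneg _) fun η =>
          maj_FF59 hB t bx hJ1N T.z T.u T.o0 (fun β S ⟨i, hi, h⟩ => T.far β S ⟨i, hs1 hi, h⟩) hM0 (fun p hp η => c1.bd p hp η) A η
    have kM := km59 (μ := μ) (s := s) (δ := δ) (bx := bx) hB hf X hbx t A
    have eC : ∀ η, Cf (sS J1 N) (cf μ s (tf μ s δ B b0 j (sg A j) t) (gf μ s δ B b0 j (sg A j)) 0 0 J1) (nq N) η =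
        Cq (wj μ s N (Pn N y) δ B b0 j (η, A) t) J1 (pJ 0) (gg μ s (Pn N y) δ B b0 (η, A) j) := fun η =>
      cf_Cq59 (full_Pn N y) hB δ b0 j A t (fun r hr => ⟨hJ1 r hr, (hJ1N r hr).2⟩) η
    simp only [sz59, eC] at hA
    refine hA.trans (add_le_add (add_le_add (add_le_add (add_le_add (add_le_add (add_le_add ?_ ?_) ?_) ?_) ?_) le_rfl) kFF)
    · exact add_le_add (mul_le_mul_of_nonneg_left kW (mul_nonneg ha ha)) le_rfl
    · exact add_le_add (mul_le_mul_of_nonneg_left kG2 ha) le_rfl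
    · exact add_le_add (mul_le_mul_of_nonneg_left kM ha) le_rfl
    · exact add_le_add (mul_le_mul_of_nonneg_left kF ha) le_rfl
    · exact kI.trans (le_of_eq (mul_assoc _ _ _))
  · obtain ⟨r1', h1', z1', _, rfl⟩ := mem_sS.1 h1
    obtain ⟨r2', h2', z2', _, rfl⟩ := mem_sS.1 h2
    have a1 := X.j1 r1' h1'
    have a2 := X.j2 r2' h2'
    refine cf_blind (wf_tf (μ := μ) (s := s) hB δ b0 j (abs_sg A j).le t) (wf_gf (μ := μ) (s := s) hB δ b0 j (abs_sg A j).le) 0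
      hJ1 h1 (Or.inl ⟨?_, ?_⟩) η x
    · show ((j + b0 : ℕ) : ℤ) < (r2' : ℤ)
      exact_mod_cast (by omega : j + b0 < r2')
    · show (r1' : ℤ) ≤ (r2' : ℤ)
      exact_mod_cast (by omega : r1' ≤ r2')

/-- The insertion of `h`. -/
def hh59 (μ : Measure ℝ) (s : ℝ) (N : ℕ) (δ B : ℝ) (b0 j : ℕ) (t : ℝ) (y : ℕ) (J : Finset ℕ) (ω : Env × Finset ℕ) :
    Px (Pn N y) → ℝ := fun S => gg μ s (Pn N y) δ B b0 ω j S *
  (gg μ s (Pn N y) δ B b0 ω j - Cq (wj μ s N (Pn N y) δ B b0 j ω t) J (pJ 0) (gg μ s (Pn N y) δ B b0 ω j)) S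

theorem g1_h59 (hB : 0 ≤ B) (δ : ℝ) (b0 j : ℕ) (t : ℝ) (J : Finset ℕ) : G1d (hh59 μ s N δ B b0 j t y J) :=
  (g1_g59 hB δ b0 j).mul ((g1_g59 hB δ b0 j).sub (g1_Cq (mw59 hB δ b0 j t) J (pJ 0) (g1_g59 hB δ b0 j)))

/-- **THE MACRO SLAB OF PART R.** -/
theorem e2R_mac59 [IsProbabilityMeasure μ] {ff ff' : ℝ → ℝ} (hd : DenLaw μ ff ff') {K θ0 : ℝ} (hs : SG μ (sc ff ff') K θ0)
    (hB : 0 ≤ B) (hf : Cls59 N c d D f) (X : RS59 N b0 h b σ j e d m0 m1 J1 J2 J4) (T : Tb N 3 b4 J4 χ4 o4 ow4 R4)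
    {t4 a4 V4 : ℝ} (ht : 0 < t4) (ha : 0 ≤ a4) (r4 : t4 * (B / 2 * B / J4.card) ≤ θ0)
    (hV4 : J4.card * (R4 * (B / 2 * B / J4.card) ^ 2) ≤ V4) (t : ℝ) (A : Finset ℕ) :
    |∫ η, (P3 (pS σ j)).ks.dbl.toEv.ev (wj μ s N (Pn N y) δ B b0 j (η, A) t) ((P3 (pS σ j)).ks.dr.ins
        (hh59 μ s N δ B b0 j t y J1 (η, A)) (pR μ s N δ B b0 h b j e d f y (η, A))) ∂(law μ)| ≤
      a4 * (2 * (B / 2) * (B / 2) * ∫ η, OW μ s N δ B b0 h b σ j e d f t y (η, A) ∂(law μ)) +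
        (Fintype.card (Fin 3 → B4) : ℝ) * H41.tail1 K (2 * (B / 2) * (B / 2) * (2 * D)) t4 a4 V4 + 0 +
      B / 2 * (2 * (B / 2) * (B / 2)) * (∫ η, OM μ s N δ B b0 h b σ j e d f t y J1 2 1 (η, A) ∂(law μ) +
        ∫ η, OQ μ s N δ B b0 h b σ j e d f t y J1 J4 (η, A) ∂(law μ)) +
      B / 2 * B * ∫ η, OF μ s N δ B b0 h b σ j e d f t y b4 o4 1 (η, A) ∂(law μ) := by
  obtain ⟨g1, g2, g3, g4, g5, g6, g7⟩ := X.geo
  have hm := X.hm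
  have hm1 := X.hm1
  have hm2 := X.hm2
  have hJ1 : ∀ r ∈ J1, j + b0 < r ∧ r ≤ m1 := fun r hr => by have := X.j1 r hr; omega
  have hJ4 : ∀ r ∈ J4, m1 < r ∧ r ≤ N := fun r hr => by have := X.j4 r hr; omega
  have hJ4' : ∀ r ∈ J4, j + b0 < r := fun r hr => by have := X.j4 r hr; omega
  have hJ4N : ∀ r ∈ J4, 1 ≤ r ∧ r ≤ N := fun r hr => by have := X.j4 r hr; omega
  have hJ4d : ∀ r ∈ J4, 0 < r ∧ r ≤ d := fun r hr => by have := X.j4 r hr; omega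
  have hM0 : 0 ≤ B / 2 * B := by positivity
  have c4 : DF false (sS J4 N) (cf μ s (tf μ s δ B b0 j (sg A j) t) (hf59 μ s δ B b0 j (sg A j) t J1) 0 0 J4)
      (B / 2 * B / J4.card) :=
    df_cf ((wf_tf (μ := μ) (s := s) hB δ b0 j (abs_sg A j).le t).mono (al' := 0) (be' := m1) (Nat.zero_le _) (by omega) le_rfl)
      (wf_hf59 hB δ b0 j (abs_sg A j).le t (fun r hr => (hJ1 r hr).2) (by omega)) 0 (fun r hr => (hJ4 r hr).1) N
  have gh := g1_h59 (μ := μ) (s := s) (N := N) (y := y) hB δ b0 j t J1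
  obtain ⟨KK, hKK⟩ := gh.bd
  have hA := one_box (μ := μ) (X := Px (Pn N y)) (P3 (pS σ j)).ks.dr hd hs (S := sS J4 N)
    (c := cf μ s (tf μ s δ B b0 j (sg A j) t) (hf59 μ s δ B b0 j (sg A j) t J1) 0 0 J4) (N := nq N)
    (w := fun η => wj μ s N (Pn N y) δ B b0 j (η, A) t) (T := fun η => hh59 μ s N δ B b0 j t y J1 (η, A))
    (Ψ := fun η => pR μ s N δ B b0 h b j e d f y (η, A)) (Ψ' := pR' μ s N δ B b0 h b j e d f y A) c4 (by positivity)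
    (wt_row59 (Q := Pn N y) hB δ b0 j A t fun r hr => Or.inr (hJ4' r hr)) (obs_pR59 hB hf b0 h b j e A)
    (fun p _ => obs_pR59' hB hf b0 h b j e A p) (sd_pR59 hB hf b0 h b j e A (fun r hr => Or.inr (hJ4' r hr)) hJ4d)
    (measurable_pi_lambda _ (gh.ms A)) (fun η x => hKK (η, A) x) b4 T.z T.u ht ha r4
    (fun β η => (QV_cut59 (fun p hp η => c4.bd p hp η) (T.z β) (T.u β) (fun i hi => T.n β i hi) η).trans hV4)
  have kW : ∫ η, (P3 (pS σ j)).ks.toEv.ev (wj μ s N (Pn N y) δ B b0 j (η, A) t)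
      (fun x => |pR μ s N δ B b0 h b j e d f y (η, A) x|) ∂(law μ) ≤
      2 * (B / 2) * (B / 2) * ∫ η, OW μ s N δ B b0 h b σ j e d f t y (η, A) ∂(law μ) :=
    mono59c ((gd_OW59 (μ := μ) (s := s) (δ := δ) (y := y) hB hf b0 h b σ j e t).int A)
      (fun η => ev0_59 _ _ fun x => abs_nonneg _) fun η => maj_W59 hB t (η, A)
  have kG : ∫ η, (P3 (pS σ j)).ks.toEv.ev (wj μ s N (Pn N y) δ B b0 j (η, A) t) (fun x => |Dg b4 χ4 (sS J4 N)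
      (cf μ s (tf μ s δ B b0 j (sg A j) t) (hf59 μ s δ B b0 j (sg A j) t J1) 0 0 J4)
      (pR' μ s N δ B b0 h b j e d f y A) η x|) ∂(law μ) ≤ 0 := by
    have e0 : ∀ η, (P3 (pS σ j)).ks.toEv.ev (wj μ s N (Pn N y) δ B b0 j (η, A) t) (fun x => |Dg b4 χ4 (sS J4 N)
      (cf μ s (tf μ s δ B b0 j (sg A j) t) (hf59 μ s δ B b0 j (sg A j) t J1) 0 0 J4)
      (pR' μ s N δ B b0 h b j e d f y A) η x|) = 0 := fun η => by
      have h3 := H41.ev_smul (P3 (pS σ j)).ks.toEv (wj μ s N (Pn N y) δ B b0 j (η, A) t) 0 fun _ => (0 : ℝ)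
      simp only [dg_zero59 X b4 χ4 _ A η, abs_zero]
      simpa using h3
    simp only [e0, integral_zero, le_refl]
  have eC : ∀ η, Cf (sS J4 N) (cf μ s (tf μ s δ B b0 j (sg A j) t) (hf59 μ s δ B b0 j (sg A j) t J1) 0 0 J4) (nq N) η =
      Cq (wj μ s N (Pn N y) δ B b0 j (η, A) t) J4 (pJ 0) (hh59 μ s N δ B b0 j t y J1 (η, A)) := fun η =>
    cf_mac59 (full_Pn N y) hB δ b0 j A t hJ1 (by omega) (by omega) hJ4 η
  have kQ : |∫ η, (P3 (pS σ j)).ks.dbl.toEv.ev (wj μ s N (Pn N y) δ B b0 j (η, A) t) ((P3 (pS σ j)).ks.dr.ins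
      (hh59 μ s N δ B b0 j t y J1 (η, A) - Cf (sS J4 N) (cf μ s (tf μ s δ B b0 j (sg A j) t)
        (hf59 μ s δ B b0 j (sg A j) t J1) 0 0 J4) (nq N) η) (pR μ s N δ B b0 h b j e d f y (η, A))) ∂(law μ)| ≤
      B / 2 * (2 * (B / 2) * (B / 2)) * (∫ η, OM μ s N δ B b0 h b σ j e d f t y J1 2 1 (η, A) ∂(law μ) +
        ∫ η, OQ μ s N δ B b0 h b σ j e d f t y J1 J4 (η, A) ∂(law μ)) := by
    have i1 := (gd_OM59 (μ := μ) (s := s) (δ := δ) (y := y) hB hf b0 h b σ j e t J1 2 1).int (μ := μ) A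
    have i2 := (gd_OQ59 (μ := μ) (s := s) (δ := δ) (y := y) hB hf b0 h b σ j e t J1 J4).int (μ := μ) A
    simp only [eC]
    refine abs_integral_le_integral_abs.trans ?_
    rw [← integral_add i1 i2]
    exact mono59c (i1.add i2) (fun η => abs_nonneg _) fun η => maj_Q59 hB X hf t (η, A)
  have kF : ∫ η, (P3 (pS σ j)).ks.dbl.toEv.ev (wj μ s N (Pn N y) δ B b0 j (η, A) t) (fun x => |(P3 (pS σ j)).ks.dr.insR b4
      (H41.farF χ4 (sS J4 N) (cf μ s (tf μ s δ B b0 j (sg A j) t) (hf59 μ s δ B b0 j (sg A j) t J1) 0 0 J4) (nq N) η)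
      (pR μ s N δ B b0 h b j e d f y (η, A)) x|) ∂(law μ) ≤
      B / 2 * B * ∫ η, OF μ s N δ B b0 h b σ j e d f t y b4 o4 1 (η, A) ∂(law μ) :=
    mono59c ((gd_OF59 (μ := μ) (s := s) (δ := δ) (y := y) hB hf b0 h b σ j e t b4 T.o0 T.o1 zero_le_one).int A)
      (fun η => ev0_59 _ _ fun x => abs_nonneg _) fun η =>
        maj_F59 t b4 hJ4N T.z T.u T.o0 T.far hM0 (fun p hp η => c4.bd p hp η) A η
  exact hA.trans (add_le_add (add_le_add (add_le_add (add_le_add (mul_le_mul_of_nonneg_left kW ha) le_rfl) kG) kQ) kF)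

/-- **The two insertions: remainder of the first slab.** -/
theorem e2R_two59 [IsProbabilityMeasure μ] (hB : 0 ≤ B) (hf : Cls59 N c d D f) (X : RS59 N b0 h b σ j e d m0 m1 J1 J2 J4)
    (t : ℝ) (A : Finset ℕ) :
    |∫ η, (P3 (pS σ j)).ks.dbl.dbl.toEv.ev (wj μ s N (Pn N y) δ B b0 j (η, A) t) ((P3 (pS σ j)).ks.dbl.dr.ins
        (gg μ s (Pn N y) δ B b0 (η, A) j - Cq (wj μ s N (Pn N y) δ B b0 j (η, A) t) J1 (pJ 0) (gg μ s (Pn N y) δ B b0 (η, A) j))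
        ((P3 (pS σ j)).ks.dr.ins (gg μ s (Pn N y) δ B b0 (η, A) j) (pR μ s N δ B b0 h b j e d f y (η, A)))) ∂(law μ)| ≤
      B / 2 * (2 * (B / 2) * (B / 2)) * ∫ η, OM μ s N δ B b0 h b σ j e d f t y J1 14 19 (η, A) ∂(law μ) +
      |∫ η, (P3 (pS σ j)).ks.dbl.toEv.ev (wj μ s N (Pn N y) δ B b0 j (η, A) t) ((P3 (pS σ j)).ks.dr.ins
        (hh59 μ s N δ B b0 j t y J1 (η, A)) (pR μ s N δ B b0 h b j e d f y (η, A))) ∂(law μ)| := by
  have gq : G1d fun ω : Env × Finset ℕ => gg μ s (Pn N y) δ B b0 ω j - Cq (wj μ s N (Pn N y) δ B b0 j ω t) J1 (pJ 0)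
      (gg μ s (Pn N y) δ B b0 ω j) :=
    (g1_g59 hB δ b0 j).sub (g1_Cq (mw59 hB δ b0 j t) J1 (pJ 0) (g1_g59 hB δ b0 j))
  obtain ⟨K1, hK1⟩ := gq.bd
  have gh := g1_h59 (μ := μ) (s := s) (N := N) (y := y) hB δ b0 j t J1
  obtain ⟨K2, hK2⟩ := gh.bd
  have mw := meas_w59 (μ := μ) (s := s) (N := N) (y := y) hB δ b0 j t A
  have iF := (((obs_pR59 (μ := μ) (s := s) (δ := δ) (y := y) hB hf b0 h b j e A).ins (P3 (pS σ j)).ks.dr
    (meas_g59 (μ := μ) (s := s) δ B b0 j A) fun η => abs_gg hB b0 (η, A) j).ins (P3 (pS σ j)).ks.dbl.dr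
    (measurable_pi_lambda _ (gq.ms A)) fun η x => hK1 (η, A) x).int (μ := μ) (P3 (pS σ j)).ks.dbl.dbl.toEv mw
  have iG := ((obs_pR59 (μ := μ) (s := s) (δ := δ) (y := y) hB hf b0 h b j e A).ins (P3 (pS σ j)).ks.dr
    (measurable_pi_lambda _ (gh.ms A)) fun η x => hK2 (η, A) x).int (μ := μ) (P3 (pS σ j)).ks.dbl.toEv mw
  have h1 : ∀ u v : ℝ, |u| ≤ |u - v| + |v| := fun u v => by
    have := abs_add_le (u - v) v
    rwa [sub_add_cancel] at this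
  refine (h1 _ _).trans (add_le_add ?_ le_rfl)
  rw [← integral_sub iF iG]
  refine abs_integral_le_integral_abs.trans ?_
  exact mono59c ((gd_OM59 (μ := μ) (s := s) (δ := δ) (y := y) hB hf b0 h b σ j e t J1 14 19).int A) (fun η => abs_nonneg _)
    fun η => maj_T59 hB X hf t (η, A)

end main

end

end Pool.Agent.W_7d29a1_C0.E2R59
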