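import Pool.Agent.W_7d29a1_C0.E2D43
import Pool.Agent.W_7d29a1_C0.E2R59

/-!
MP_7d29a1_pr, [CURV0] (helper43), section E2: THE JOIN OF PART R. The functionals of `E2R59` are the majorants of `E2D96` (`eOW43` .. `eOG43`);
a coefficient times the mean of a row functional is one term of the list (`Dec43.coef`); `decR43`: a bound of the rows by the majorants of
`E2D96` gives the list of terms of part R.
-/

set_option autoImplicit false
set_option linter.unusedSectionVars false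
set_option linter.unusedVariables false

namespace Pool.Agent.W_7d29a1_C0.E2J43

open Finset MeasureTheory Filter Topology
open Pool.Agent.W_7d29a1_F Pool.Agent.W_7d29a1_X
open Pool.Agent.W_7d29a1_C0 Pool.Agent.W_7d29a1_C0.Mod92 Pool.Agent.W_7d29a1_C0.Swap57 Pool.Agent.W_7d29a1_C0.NM82
open Pool.Agent.W_7d29a1_C0.E2T96 Pool.Agent.W_7d29a1_C0.E2D96 Pool.Agent.W_7d29a1_C0.E2D43 Pool.Agent.W_7d29a1_C0.E2G43
open Pool.Agent.W_7d29a1_C0.E2C96 (mR mR_one)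
open Pool.Agent.W_7d29a1_C0.MicN96 (er96)
open Pool.Agent.W_7d29a1_C0.T93 (Fam2)
open Pool.W7d29a1.C0
open Pool.W7d29a1.C0.VT31

noncomputable section

section Coef

variable {μ : Measure ℝ} {s : ℝ} {N : ℕ} {ys S : Finset ℕ} {r : ℕ} {X : ℝ} {f : Fam N}

theorem rw_nonneg43 {Q : Fam2 N} (hQ : Qb96 N Q) (f : Fam N) {y : ℕ} (hy : y ≤ N) : 0 ≤ rw96 μ s N Q f y := by
  have := ne_Pn hy
  exact integral_nonneg fun ω => PP_nonneg _ fun x z => mul_nonneg (hQ.nn y ω x z) (abs_nonneg _)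

theorem mR_nonneg43 {n : ℕ} {Q : ℕ → Fam2 N} (hQ : ∀ u < n, Qb96 N (Q u)) (f : Fam N) {y : ℕ} (hy : y ≤ N) :
    0 ≤ mR μ s N n Q f y :=
  mul_nonneg (inv_nonneg.2 (Nat.cast_nonneg _)) (sum_nonneg fun u hu => rw_nonneg43 (hQ u (mem_range.1 hu)) f hy)

/-- **A coefficient times a functional below the mean of a term.** -/
theorem coef43 (hys : ∀ y ∈ ys, y ≤ N) (T : Trm96 μ s N ys S r X) {A e e' : ℝ} {m : ℕ → ℕ → ℝ} (hA0 : 0 ≤ A) (hA : A ≤ T.al) (he : A * e' ≤ e) (he0 : 0 ≤ e)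
    (h : ∀ j ∈ S, ∀ y ∈ ys, m j y ≤ mR μ s N T.n (fun u => T.Q u j) f y + e') :
    Dec43 μ s N ys S r X f (fun j y => A * m j y) 1 e := by
  have h1 : Dec43 μ s N ys S r X f (fun j y => T.al * mR μ s N T.n (fun u => T.Q u j) f y) 1 0 :=
    Dec43.one T fun _ _ _ _ => le_rfl
  have h2 : Dec43 μ s N ys S r X f (fun _ _ => e) 0 e := Dec43.small he0 fun _ _ _ _ => le_rfl
  refine ((h1.add h2).mono (fun j hj y hy => ?_) (le_of_eq (zero_add e)))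
  have h3 := mR_nonneg43 (μ := μ) (s := s) (n := T.n) (fun u hu => T.hQ u hu j hj) f (hys y hy)
  calc A * m j y ≤ A * (mR μ s N T.n (fun u => T.Q u j) f y + e') := mul_le_mul_of_nonneg_left (h j hj y hy) hA0
    _ = A * mR μ s N T.n (fun u => T.Q u j) f y + A * e' := by ring
    _ ≤ T.al * mR μ s N T.n (fun u => T.Q u j) f y + e := add_le_add (mul_le_mul_of_nonneg_right hA h3) he

end Coef

/-! ### The functionals of helper59 are the majorants of helper96 -/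

section Eq

variable {μ : Measure ℝ} {s : ℝ} {N : ℕ} {y : ℕ} [Nonempty (Px (Pn N y))] {γ B : ℝ} {b0 b σ gl d j : ℕ} {t : ℝ} {f : Fam N}

theorem eOW43 : ∫ ω, E2R59.OW μ s N γ B b0 (b / 2) b σ j (d - gl) d f t y ω ∂(Pm μ N) = mO μ s N y γ B b0 b σ gl d j t f := rfl

theorem eOM43 (J : Finset ℕ) (α β : ℝ) : ∫ ω, E2R59.OM μ s N γ B b0 (b / 2) b σ j (d - gl) d f t y J α β ω ∂(Pm μ N) =
    mG μ s N y γ B b0 b σ gl d j t f J α β := rfl

theorem eOQ43 (J J4 : Finset ℕ) : ∫ ω, E2R59.OQ μ s N γ B b0 (b / 2) b σ j (d - gl) d f t y J J4 ω ∂(Pm μ N) =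
    mT μ s N y γ B b0 b σ gl d j t f J4 J := rfl

theorem eOG43 (m0 : ℕ) : ∫ ω, E2R59.OG μ s N γ B b0 (b / 2) b σ j (d - gl) d f t y m0 ω ∂(Pm μ N) =
    B / 2 * (B / 2) * mD μ s N y γ B b0 b σ gl d j t f m0 := by
  unfold mD
  rw [← integral_const_mul]
  congr 1
  funext ω
  unfold E2R59.OG
  rw [← PP_smul]
  congr 1
  funext x x'
  have key : ∀ p q r g : ℝ, p * ((g * q) * r) = g * (p * (q * r)) := fun p q r g => by ring
  exact key _ _ _ _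

end Eq

/-! ### Part R -/

section PartR

variable {μ : Measure ℝ} {s : ℝ} {N : ℕ} {ys S : Finset ℕ} {r : ℕ} {X : ℝ} [IsProbabilityMeasure μ] {γ B : ℝ} {b0 b σ gl c d : ℕ} {t : ℝ}
  {ε εM K' M D : ℝ} {l q : ℕ} {f : Fam N}

/-- **A term above a row functional**: its mean is above the functional `m`, up to `e'`. -/
def Ab43 {μ : Measure ℝ} {s : ℝ} {N : ℕ} {ys S : Finset ℕ} {r : ℕ} {X : ℝ} (T : Trm96 μ s N ys S r X) (f : Fam N) (m : ℕ → ℕ → ℝ)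
    (e' : ℝ) : Prop := ∀ j ∈ S, ∀ y ∈ ys, m j y ≤ mR μ s N T.n (fun u => T.Q u j) f y + e'

/-- **THE LIST OF PART R.** `a1 .. a4` = the parts of the own coefficient (two steps, macro step, far near, far macro). -/
theorem decR43 (hys : ∀ y ∈ ys, y ≤ N) {Φ : ℕ → ℕ → ℝ} {m0 : ℕ → ℕ} (hm : ∀ j ∈ S, m0 j ≤ j + b)
    (Z : ∀ j ∈ S, ∀ y ∈ ys, Dr96 μ s N y γ B b0 b σ gl c d j t ε εM K' M D l q f)
    {a1 a2 a3 a4 A1 A2 A3 α β α' β' e eT eE : ℝ} (h1 : 0 ≤ a1) (h2 : 0 ≤ a2) (h3 : 0 ≤ a3) (h4 : 0 ≤ a4) (hA1 : 0 ≤ A1) (hA2 : 0 ≤ A2)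
    (hA3 : 0 ≤ A3) (hα : 0 ≤ α) (hβ : 0 ≤ β) (hα' : 0 ≤ α') (hβ' : 0 ≤ β') (hB : 0 ≤ B) (heT : 0 ≤ eT) (he : 0 ≤ e)
    (hV : ∀ j ∈ S, ∀ y ∈ ys, ∀ [Nonempty (Px (Pn N y))], Φ j y ≤ (a1 + a2 + a3 + a4) * mO μ s N y γ B b0 b σ gl d j t f +
      A1 * mG μ s N y γ B b0 b σ gl d j t f (nR2 b j) α β +
      A2 * (mG μ s N y γ B b0 b σ gl d j t f (nR1 b j) α' β' + mT μ s N y γ B b0 b σ gl d j t f (mc4 gl d) (nR1 b j)) +
      A3 * mD μ s N y γ B b0 b σ gl d j t f (m0 j) + e)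
    (T1 T2 T3 T4 T22 T2p T12 T1p T10 TD : Trm96 μ s N ys S r X)
    (u1 : a1 * (N : ℝ) ^ ε ≤ T1.al) (u2 : a2 * (N : ℝ) ^ ε ≤ T2.al) (u3 : a3 * (N : ℝ) ^ ε ≤ T3.al) (u4 : a4 * (N : ℝ) ^ ε ≤ T4.al)
    (u5 : A1 * α * B * (N : ℝ) ^ ε ≤ T22.al) (u6 : A1 * β * B * (N : ℝ) ^ ε ≤ T2p.al) (u7 : A2 * α' * B * (N : ℝ) ^ ε ≤ T12.al)
    (u8 : A2 * β' * B * (N : ℝ) ^ ε ≤ T1p.al) (u9 : A2 * B * (N : ℝ) ^ ε ≤ T10.al) (u10 : A3 * 2 * (N : ℝ) ^ ε ≤ TD.al)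
    (v1 : Ab43 T1 f (fun j y => rw96 μ s N (qOR μ s N b σ gl d M j) f y) eT)
    (v2 : Ab43 T2 f (fun j y => rw96 μ s N (qOR μ s N b σ gl d M j) f y) eT)
    (v3 : Ab43 T3 f (fun j y => rw96 μ s N (qOR μ s N b σ gl d M j) f y) eT)
    (v4 : Ab43 T4 f (fun j y => rw96 μ s N (qOR μ s N b σ gl d M j) f y) eT)
    (v5 : Ab43 T22 f (fun j y => mR μ s N (b / 8) (fun u => q2R2 μ s N b0 b σ gl d l q M u j) f y) eT)
    (v6 : Ab43 T2p f (fun j y => mR μ s N (b / 8) (fun u => qpR2 μ s N b0 b σ gl d l q M u j) f y) eT)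
    (v7 : Ab43 T12 f (fun j y => mR μ s N (b / 8) (fun u => q2R1 μ s N b0 b σ gl d l q M u j) f y) eT)
    (v8 : Ab43 T1p f (fun j y => mR μ s N (b / 8) (fun u => qpR1 μ s N b0 b σ gl d l q M u j) f y) eT)
    (v9 : Ab43 T10 f (fun j y => mR μ s N (gl * (b / 8)) (fun u => q0R1 μ s N b0 b σ gl d l q M u j) f y) eT)
    (v10 : Ab43 TD f (fun j y => rw96 μ s N (qDR μ s N b0 b σ gl d M m0 j) f y) eT)
    (hE : (a1 + a2 + a3 + a4 + A1 * (α + β) + A2 * (α' + β' + 1) + A3) * er96 N K' + e +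
      ((a1 + a2 + a3 + a4 + A1 * (α + β) * B + A2 * (α' + β' + 1) * B + 2 * A3) * (N : ℝ) ^ ε) * eT ≤ eE) :
    Dec43 μ s N ys S r X f Φ 10 eE := by
  have hN : 0 ≤ (N : ℝ) ^ ε := Real.rpow_nonneg (Nat.cast_nonneg _) _
  have er0 : 0 ≤ er96 N K' := by
    unfold er96
    positivity
  have d1 := coef43 (e := a1 * (N : ℝ) ^ ε * eT) hys T1 (mul_nonneg h1 hN) u1 le_rfl (by positivity) v1
  have d2 := coef43 (e := a2 * (N : ℝ) ^ ε * eT) hys T2 (mul_nonneg h2 hN) u2 le_rfl (by positivity) v2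
  have d3 := coef43 (e := a3 * (N : ℝ) ^ ε * eT) hys T3 (mul_nonneg h3 hN) u3 le_rfl (by positivity) v3
  have d4 := coef43 (e := a4 * (N : ℝ) ^ ε * eT) hys T4 (mul_nonneg h4 hN) u4 le_rfl (by positivity) v4
  have d5 := coef43 (e := A1 * α * B * (N : ℝ) ^ ε * eT) hys T22 (by positivity) u5 le_rfl (by positivity) v5
  have d6 := coef43 (e := A1 * β * B * (N : ℝ) ^ ε * eT) hys T2p (by positivity) u6 le_rfl (by positivity) v6
  have d7 := coef43 (e := A2 * α' * B * (N : ℝ) ^ ε * eT) hys T12 (by positivity) u7 le_rfl (by positivity) v7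
  have d8 := coef43 (e := A2 * β' * B * (N : ℝ) ^ ε * eT) hys T1p (by positivity) u8 le_rfl (by positivity) v8
  have d9 := coef43 (e := A2 * B * (N : ℝ) ^ ε * eT) hys T10 (by positivity) u9 le_rfl (by positivity) v9
  have d10 := coef43 (e := A3 * 2 * (N : ℝ) ^ ε * eT) hys TD (by positivity) u10 le_rfl (by positivity) v10
  have hC : 0 ≤ (a1 + a2 + a3 + a4 + A1 * (α + β) + A2 * (α' + β' + 1) + A3) * er96 N K' + e := by positivity
  have d0 : Dec43 μ s N ys S r X f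
      (fun _ _ => (a1 + a2 + a3 + a4 + A1 * (α + β) + A2 * (α' + β' + 1) + A3) * er96 N K' + e) 0 _ :=
    Dec43.small hC fun _ _ _ _ => le_rfl
  refine (((((((((((d1.add d2).add d3).add d4).add d5).add d6).add d7).add d8).add d9).add d10).add d0).mono
    (fun j hj y hy => ?_) ?_)
  · have := ne_Pn (hys y hy)
    have key := (Z j hj y hy).rowR (hm j hj) (A0 := a1 + a2 + a3 + a4) (by positivity) hA1 hA2 hA3 hα hβ hα' hβ' (hV j hj y hy)
    refine key.trans (le_of_eq ?_)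
    ring
  · refine le_trans (le_of_eq ?_) hE
    ring

end PartR

end

end Pool.Agent.W_7d29a1_C0.E2J43
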