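import Pool.Agent.W_7d29a1_C0.DgT11
import Pool.Agent.W_7d29a1_C0.E2J43

/-!
MP_7d29a1_pr, [C0], helper11: FROM THE PAIRS OF THE WINDOW TO THE TERMS `tDR`, `tDL`: the event `Tau` of the window is replaced by an alternative
of the path in one of the pieces (`rw_DR`, `rw_DL`; `ab_DR`, `ab_DL` in the form `Ab43` of helper43).
-/

set_option autoImplicit false
set_option linter.unusedSectionVars false
set_option linter.unusedVariables false

namespace Pool.Agent.W_7d29a1_C0.Dg11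

open MeasureTheory ProbabilityTheory Filter Topology Finset
open Pool.Agent.W_7d29a1_F Pool.Agent.W_7d29a1_X
open Pool.Agent.W_7d29a1_C0.Mod92
open Pool.Agent.W_7d29a1_C0.Swap57 (NI NI_nonneg)
open Pool.Agent.W_7d29a1_C0.T72 (Sp72 ind72 meas_ind72 sp72_of_cls)
open Pool.Agent.W_7d29a1_C0.E2T96 (Trm96 one96 rw96)
open Pool.Agent.W_7d29a1_C0.E2C96 (evF mR mR_one LDg)
open Pool.Agent.W_7d29a1_C0.E2D96 (qDR)
open Pool.Agent.W_7d29a1_C0.E2J43 (Ab43)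
open Pool.Agent.W_7d29a1_C0.E2G43 (G43)
open Pool.Agent.W_7d29a1_C0.E2S39
open Pool.W7d29a1.C0.R43

noncomputable section

variable {μ : Measure ℝ} {s : ℝ} {N : ℕ} [IsProbabilityMeasure μ]

/-- The event `Tau` behind another event is replaced by an alternative in the pieces. -/
theorem rw_tau11 {y : ℕ} (hy : y ≤ N) {zt cc c0 Kg : ℕ} {F M : ℝ} {f : Fam N} (hf : Sp72 (Pn N y) cc F c0 Kg (f y))
    {E : (y : ℕ) → Env × Finset ℕ → Px (Pn N y) → Prop} (hE : ∀ S, MeasurableSet {ω | E y ω S}) {c1 z be wr l k : ℕ} (h1 : c1 ≤ be)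
    (h2 : wr ≤ z) (hl : be + 3 * k * (l + 1) ≤ wr) (hM : 8 ≤ M) (hk : 10 * M ≤ k) (hk' : (k : ℝ) ≤ 20 * M) :
    rw96 μ s N (one96 N (evF N fun y ω S => E y ω S ∧ Tau (wm μ s N (Pn N y) ω) (pJ c1 z) be wr M S) zt cc) f y ≤
      rw96 μ s N (one96 N (evF N fun y ω S => E y ω S ∧ Rp (wm μ s N (Pn N y) ω) (pJ c1 z) be l k M S) zt cc) f y +
        2 * F * Real.exp (-M) := by
  have := ne_Pn hy
  have key := rw_tau39 (μ := μ) (s := s) (zt := zt) hf (E := E) hE (le_refl c1) (le_refl z) h1 h2 hl hM hk hk'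
  have e1 : (fun (y : ℕ) (ω : Env × Finset ℕ) (S : Px (Pn N y)) =>
      TauM (wm μ s N (Pn N y) ω) (pJ c1 z) (pJ c1 z) be wr M S ∧ E y ω S) =
      fun y ω S => E y ω S ∧ Tau (wm μ s N (Pn N y) ω) (pJ c1 z) be wr M S := by
    funext y ω S
    have : Nonempty (Px (Pn N y)) := ⟨S⟩
    exact propext ⟨fun h => ⟨h.2, (tauM_self _ _ _ _ _ _).1 h.1⟩, fun h => ⟨(tauM_self _ _ _ _ _ _).2 h.2, h.1⟩⟩
  have e2 : (fun (y : ℕ) (ω : Env × Finset ℕ) (S : Px (Pn N y)) => Rp (wm μ s N (Pn N y) ω) (pJ c1 z) be l k M S ∧ E y ω S) =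
      fun y ω S => E y ω S ∧ Rp (wm μ s N (Pn N y) ω) (pJ c1 z) be l k M S := by
    funext y ω S
    exact propext ⟨fun h => ⟨h.2, h.1⟩, fun h => ⟨h.2, h.1⟩⟩
  rw [e1, e2] at key
  exact key

variable {c₀ Θ δ a ε n c ε' θ κ M e e₀ x D : ℝ} {ys S : Finset ℕ} {b0 b sg gl d r l k r0 c' : ℕ} {f : Fam N}

/-- **PART R**: the functional of helper96 below the one of the term. -/
theorem rw_DR (H : Rd39 μ s c₀ Θ δ a ε n c ε' θ κ M e e₀ x N ys S b0 b sg gl d r l k r0) (hf : Cls59 N c' d D f) (hM : 8 ≤ M)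
    (hk : 10 * M ≤ k) (hk' : (k : ℝ) ≤ 20 * M) {m0 : ℕ → ℕ} {j : ℕ} (hj : j ∈ S) (hm : j + 2 * b0 ≤ m0 j) (hm' : m0 j ≤ j + b) {y : ℕ}
    (hy : y ∈ ys) : rw96 μ s N (qDR μ s N b0 b sg gl d M m0 j) f y ≤
      rw96 μ s N (one96 N (fI (eDR μ s N sg b b0 l k M) j) (d - gl) d) f y + 2 * D * Real.exp (-M) := by
  have h1 := lin39 (H.geo j hj)
  have hkl := H.kl
  have hSp : Sp72 (Pn N y) d D (j + b0) (b / 16) (f y) := sp72_of_cls hf le_rfl (by omega) y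
  exact rw_tau11 (H.P.yN y hy) hSp
    (E := fun y ω S => Nta (wm μ s N (Pn N y) ω) (pJ 0 (zz39 sg j)) (j + b / 2) (j + b) M S)
    (fun _ => meas_nta39 _ _ _ _ _) (c1 := 0) (z := j + b) (be := j + b0) (wr := m0 j) (Nat.zero_le _) hm'
    (by generalize 3 * k * (l + 1) = w at hkl ⊢; omega) hM hk hk'

/-- **PART R**, in the form of the list of helper43. -/
theorem ab_DR (H : Rd39 μ s c₀ Θ δ a ε n c ε' θ κ M e e₀ x N ys S b0 b sg gl d r l k r0) (HD : PkD11 μ s ε' θ κ N ys e) (hr : r ≤ N)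
    (al : ℝ) (al0 : 0 ≤ al) (hal : al ^ 2 ≤ n ^ e₀) (hf : Cls59 N c' d D f) (hM : 8 ≤ M) (hk : 10 * M ≤ k) (hk' : (k : ℝ) ≤ 20 * M)
    {m0 : ℕ → ℕ} (hm : ∀ j ∈ S, j + 2 * b0 ≤ m0 j ∧ m0 j ≤ j + b) :
    Ab43 (tDR H HD hr al al0 hal) f (fun j y => rw96 μ s N (qDR μ s N b0 b sg gl d M m0 j) f y) (2 * D * Real.exp (-M)) := by
  intro j hj y hy
  show _ ≤ mR μ s N 1 (fun _ => one96 N (fI (eDR μ s N sg b b0 l k M) j) (d - gl) d) f y + _
  rw [mR_one]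
  exact rw_DR H hf hM hk hk' hj (hm j hj).1 (hm j hj).2 hy

/-- **PART L**: the functional of helper96 (`qDL`, literally) below the one of the term. -/
theorem rw_DL (H : Rd39 μ s c₀ Θ δ a ε n c ε' θ κ M e e₀ x N ys S b0 b sg gl d r l k r0) (hf : Cls59 N c' d D f) (hM : 8 ≤ M)
    (hk : 10 * M ≤ k) (hk' : (k : ℝ) ≤ 20 * M) {j : ℕ} (hj : j ∈ S) {y : ℕ} (hy : y ∈ ys) :
    rw96 μ s N (one96 N (evF N fun y ω S => Nta (wm μ s N (Pn N y) ω) (pJ (j / sg * sg) ((j / sg + 1) * sg)) (j - b) (j - b / 2) M S ∧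
      Tau (wm μ s N (Pn N y) ω) (pJ (j - b) (j + b)) (j - b / 8) (j - b0) M S) (d - gl) d) f y ≤
      rw96 μ s N (one96 N (fI (eDL μ s N sg b l k M) j) (d - gl) d) f y + 2 * D * Real.exp (-M) := by
  have h1 := lin39 (H.geo j hj)
  have hkl := H.kl
  have hSp : Sp72 (Pn N y) d D (j + b0) (b / 16) (f y) := sp72_of_cls hf le_rfl (by omega) y
  exact rw_tau11 (H.P.yN y hy) hSp
    (E := fun y ω S => Nta (wm μ s N (Pn N y) ω) (pJ (cc39 sg j) (zz39 sg j)) (j - b) (j - b / 2) M S)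
    (fun _ => meas_nta39 _ _ _ _ _) (c1 := j - b) (z := j + b) (be := j - b / 8) (wr := j - b0) (by omega) (by omega)
    (by generalize 3 * k * (l + 1) = w at hkl ⊢; omega) hM hk hk'

/-- **PART L**, in the form of the list of helper43. -/
theorem ab_DL (H : Rd39 μ s c₀ Θ δ a ε n c ε' θ κ M e e₀ x N ys S b0 b sg gl d r l k r0) (HD : PkD11 μ s ε' θ κ N ys e) (hr : r ≤ N)
    (al : ℝ) (al0 : 0 ≤ al) (hal : al ^ 2 ≤ n ^ e₀) (hf : Cls59 N c' d D f) (hM : 8 ≤ M) (hk : 10 * M ≤ k) (hk' : (k : ℝ) ≤ 20 * M) :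
    Ab43 (tDL H HD hr al al0 hal) f (fun j y => rw96 μ s N (one96 N (evF N fun y ω S =>
      Nta (wm μ s N (Pn N y) ω) (pJ (j / sg * sg) ((j / sg + 1) * sg)) (j - b) (j - b / 2) M S ∧
      Tau (wm μ s N (Pn N y) ω) (pJ (j - b) (j + b)) (j - b / 8) (j - b0) M S) (d - gl) d) f y) (2 * D * Real.exp (-M)) := by
  intro j hj y hy
  show _ ≤ mR μ s N 1 (fun _ => one96 N (fI (eDL μ s N sg b l k M) j) (d - gl) d) f y + _
  rw [mR_one]
  exact rw_DL H hf hM hk hk' hj hy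

end

end Pool.Agent.W_7d29a1_C0.Dg11
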