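import Pool.Agent.W_7d29a1_Z15.DLloc

/-!
MP_7d29a1_pr, [CURV0] (helper90, after helper59 and helper15): the decoupling of near ties with cells, localised on both sides, FOR A
NORMALISATION WHICH IS NONDECREASING IN EVERY CELL ONLY (`DlrM`: `Dlr` with `Zmono` on the cells; `locM`: literally `loc`). Used for the
far price at tilted weights: the tilt does not see the cells, but it is not a monotone function of the environment.
-/

namespace Pool.Agent.W_7d29a1_Z15

open MeasureTheory ProbabilityTheory Finset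
open Pool.Agent.W_7d29a1_f21 Pool.Agent.W_7d29a1_X42 Pool.Agent.W_7d29a1_NP Pool.Agent.W_7d29a1_h48
open Pool.Agent.W_7d29a1_Z59

noncomputable section

variable {ι : Type*} {κ : Type*} {σ : Type*} {μ : Measure ℝ}

/-- The data of the decoupling at the scale of the cells: the normalisation is nondecreasing in every cell only. -/
structure DlrM (μ : Measure ℝ) (P : Finset σ) (Z : Finset κ) (p t : ℝ) (T : κ → Finset ι) (K : κ → (ι → ℝ) → ℝ)
    (a w : σ → (ι → ℝ) → ℝ) (Zf : (ι → ℝ) → ℝ) (r : σ → (ι → ℝ) → ℝ) (o q : σ → κ → (ι → ℝ) → ℝ) : Prop where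
  p0 : 0 < p
  disj : ∀ z ∈ Z, ∀ z' ∈ Z, z ≠ z' → Disjoint (T z) (T z')
  Km : ∀ z ∈ Z, Measurable (K z)
  Kdep : ∀ z ∈ Z, DependsOn (K z) (T z : Set ι)
  Kmono : ∀ z ∈ Z, Monotone (K z)
  prob : ∀ z ∈ Z, (lw ι μ).real {g | Real.exp t ≤ K z g} = p
  am : ∀ s ∈ P, Measurable (a s)
  a0 : ∀ s ∈ P, ∀ g, 0 ≤ a s g
  a1 : ∀ s ∈ P, ∀ g, a s g ≤ 1
  wm : ∀ s ∈ P, Measurable (w s)
  w0 : ∀ s ∈ P, ∀ g, 0 ≤ w s g
  awdep : ∀ s ∈ P, ∀ z ∈ Z, DependsOn (fun g => a s g * w s g) ((T z : Set ι)ᶜ)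
  Zm : Measurable Zf
  Z0 : ∀ g, 0 < Zf g
  Zmono : ∀ z ∈ Z, MonoOn (T z : Set ι) Zf
  sum : ∀ g, ∑ s ∈ P, w s g ≤ Zf g
  rm : ∀ s ∈ P, Measurable (r s)
  r0 : ∀ s ∈ P, ∀ g, 0 < r s g
  om : ∀ s ∈ P, ∀ z ∈ Z, Measurable (o s z)
  o0 : ∀ s ∈ P, ∀ z ∈ Z, ∀ g, 0 ≤ o s z g
  odep : ∀ s ∈ P, ∀ z ∈ Z, DependsOn (o s z) ((T z : Set ι)ᶜ)
  qmono : ∀ s ∈ P, ∀ z ∈ Z, MonoOn (T z : Set ι) (q s z)
  req : ∀ s ∈ P, ∀ z ∈ Z, ∀ g, r s g = o s z g * K z g + q s z g

variable {P : Finset σ} {Z : Finset κ} {p t : ℝ} {T : κ → Finset ι} {K : κ → (ι → ℝ) → ℝ}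
    {a w : σ → (ι → ℝ) → ℝ} {Zf : (ι → ℝ) → ℝ} {r : σ → (ι → ℝ) → ℝ} {o q : σ → κ → (ι → ℝ) → ℝ}

theorem DlrM.le_rsh (h : DlrM μ P Z p t T K a w Zf r o q) {s : σ} (hs : s ∈ P) {z : κ} (hz : z ∈ Z) (g : ι → ℝ) :
    r s g ≤ rsh t K r o s z g := by
  unfold rsh
  have h1 := h.o0 s hs z hz g
  have h2 : 0 ≤ max (K z g) (Real.exp t) - K z g := sub_nonneg.2 (le_max_left _ _)
  have := mul_nonneg h1 h2
  linarith

theorem DlrM.rsh_eq (h : DlrM μ P Z p t T K a w Zf r o q) {s : σ} (hs : s ∈ P) {z : κ} (hz : z ∈ Z) (g : ι → ℝ) :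
    rsh t K r o s z g = o s z g * max (K z g) (Real.exp t) + q s z g := by
  unfold rsh
  rw [h.req s hs z hz g]
  ring

theorem DlrM.rsh_mono (h : DlrM μ P Z p t T K a w Zf r o q) {s : σ} (hs : s ∈ P) {z : κ} (hz : z ∈ Z) :
    MonoOn (T z : Set ι) (rsh t K r o s z) := by
  intro g g' h1 h2
  rw [h.rsh_eq hs hz, h.rsh_eq hs hz]
  have e1 : o s z g = o s z g' := h.odep s hs z hz fun q hq => h2 q hq
  have e2 := h.qmono s hs z hz g g' h1 h2
  have e3 : max (K z g) (Real.exp t) ≤ max (K z g') (Real.exp t) := max_le_max (h.Kmono z hz h1) le_rfl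
  rw [e1]
  have := mul_le_mul_of_nonneg_left e3 (h.o0 s hs z hz g')
  linarith

theorem DlrM.rsh_meas (h : DlrM μ P Z p t T K a w Zf r o q) {s : σ} (hs : s ∈ P) {z : κ} (hz : z ∈ Z) :
    Measurable (rsh t K r o s z) :=
  (h.rm s hs).add ((h.om s hs z hz).mul (((h.Km z hz).max measurable_const).sub (h.Km z hz)))

theorem DlrM.aw_nonneg (h : DlrM μ P Z p t T K a w Zf r o q) {s : σ} (hs : s ∈ P) (g : ι → ℝ) :
    0 ≤ a s g * w s g / Zf g := div_nonneg (mul_nonneg (h.a0 s hs g) (h.w0 s hs g)) (h.Z0 g).le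

theorem DlrM.Hs_nonneg (h : DlrM μ P Z p t T K a w Zf r o q) {f : σ → (ι → ℝ) → ℝ} {g : ι → ℝ}
    (hf : ∀ s ∈ P, 0 ≤ f s g) : 0 ≤ Hs P a w Zf f g :=
  Finset.sum_nonneg fun s hs => mul_nonneg (h.aw_nonneg hs g) (hf s hs)

theorem DlrM.Hs_le_one (h : DlrM μ P Z p t T K a w Zf r o q) {f : σ → (ι → ℝ) → ℝ} {g : ι → ℝ}
    (hf1 : ∀ s ∈ P, f s g ≤ 1) : Hs P a w Zf f g ≤ 1 := by
  have h1 : Hs P a w Zf f g ≤ ∑ s ∈ P, w s g / Zf g := by
    refine Finset.sum_le_sum fun s hs => ?_
    have h2 : a s g * w s g / Zf g * f s g ≤ a s g * w s g / Zf g * 1 :=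
      mul_le_mul_of_nonneg_left (hf1 s hs) (h.aw_nonneg hs g)
    refine h2.trans ?_
    rw [mul_one]
    refine div_le_div_of_nonneg_right ?_ (h.Z0 g).le
    exact mul_le_of_le_one_left (h.w0 s hs g) (h.a1 s hs g)
  refine h1.trans ?_
  rw [← Finset.sum_div, div_le_one (h.Z0 g)]
  exact h.sum g

theorem DlrM.Hs_meas (h : DlrM μ P Z p t T K a w Zf r o q) {f : σ → (ι → ℝ) → ℝ} (hf : ∀ s ∈ P, Measurable (f s)) :
    Measurable (Hs P a w Zf f) :=
  Finset.measurable_sum _ fun s hs => (((h.am s hs).mul (h.wm s hs)).div h.Zm).mul (hf s hs)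

/-- **(DLr), LOCALISED ON BOTH SIDES.** -/
theorem locM [IsProbabilityMeasure μ] (h : DlrM μ P Z p t T K a w Zf r o q) {F0 : σ → κ → (ι → ℝ) → ℝ}
    (F0m : ∀ s ∈ P, ∀ z ∈ Z, Measurable (F0 s z)) (F0d : ∀ s ∈ P, ∀ z ∈ Z, DependsOn (F0 s z) ((T z : Set ι)ᶜ))
    (F0l : ∀ s ∈ P, ∀ z ∈ Z, ∀ g, F0 s z g ≤ Real.log (r s g)) {M M' : ℝ} (hM : 0 < M) (hM' : 0 < M')
    {E : Set (ι → ℝ)} (hE : MeasurableSet E)
    {Ga Ri : ℝ} (hGa : ∀ g ∈ E, ∀ s ∈ P, a s g ≠ 0 → |Real.log (r s g)| ≤ M →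
      Ga ≤ ∑ z ∈ Z, min (Real.log (rsh t K r o s z g) - Real.log (r s g)) M)
    (hdet : ∀ g ∈ E, ∀ s ∈ P, a s g ≠ 0 → -(4 * M' + 2 * M) ≤ Real.log (r s g) → ∀ z ∈ Z,
      Real.log (r s g) - F0 s z g ≤ M)
    (hRi0 : 0 ≤ Ri) (hRi : ∀ g ∈ E, ∀ s ∈ P, a s g ≠ 0 → -(4 * M' + 2 * M) ≤ Real.log (r s g) →
      ∑ z ∈ Z, min (Real.log (r s g) - F0 s z g) (4 * M') ≤ Ri) (u : ℝ) (hu : 0 ≤ u) :
    Ga / (4 * M) * ∫ g in E, Hs P a w Zf (fun s g => if |Real.log (r s g)| ≤ M then 1 else 0) g ∂(lw ι μ) ≤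
      (1 / p) * (Real.sqrt #Z * u + Ri / (4 * M')) *
        (∫ g, Hs P a w Zf (fun s g => if -(4 * M' + 2 * M) ≤ Real.log (r s g) ∧ Real.log (r s g) ≤ 2 * M then 1 else 0) g
          ∂(lw ι μ)) +
      (1 / p) * (Real.sqrt #Z * Real.exp (1 - u) + #Z * (lw ι μ).real Eᶜ) := by
  obtain ⟨F, hF⟩ : ∃ F : σ → (ι → ℝ) → ℝ, F = fun s g => Real.log (r s g) := ⟨_, rfl⟩
  obtain ⟨Fs, hFs⟩ : ∃ Fs : σ → κ → (ι → ℝ) → ℝ, Fs = fun s z g => Real.log (rsh t K r o s z g) := ⟨_, rfl⟩
  have hFm : ∀ s ∈ P, Measurable (F s) := fun s hs => by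
    rw [hF]
    exact (h.rm s hs).log
  have hFsm : ∀ s ∈ P, ∀ z ∈ Z, Measurable (Fs s z) := fun s hs z hz => by
    rw [hFs]
    exact (h.rsh_meas hs hz).log
  have hFFs : ∀ s ∈ P, ∀ z ∈ Z, ∀ g, F s g ≤ Fs s z g := fun s hs z hz g => by
    rw [hF, hFs]
    exact Real.log_le_log (h.r0 s hs g) (h.le_rsh hs hz g)
  have hF0F : ∀ s ∈ P, ∀ z ∈ Z, ∀ g, F0 s z g ≤ F s g := fun s hs z hz g => by
    rw [hF]
    exact F0l s hs z hz g
  -- the functions
  obtain ⟨H, hH⟩ : ∃ H : (ι → ℝ) → ℝ, H = Hs P a w Zf (fun s g => trap M M' (F s g)) := ⟨_, rfl⟩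
  obtain ⟨G, hG⟩ : ∃ G : κ → (ι → ℝ) → ℝ,
    G = fun z => Hs P a w Zf (fun s g => max 0 (ramp M (Fs s z g) - lramp M M' (F0 s z g))) := ⟨_, rfl⟩
  obtain ⟨R, hR⟩ : ∃ R : κ → (ι → ℝ) → ℝ,
    R = fun z => Hs P a w Zf (fun s g => lramp M M' (F0 s z g) - lramp M M' (F s g)) := ⟨_, rfl⟩
  have htr0 : ∀ x, 0 ≤ trap M M' x := fun x => sub_nonneg.2 (lramp_le_ramp hM hM' x)
  have htr1 : ∀ x, trap M M' x ≤ 1 := fun x => by
    have h1 := ramp_le_one M x
    have h2 := lramp_nonneg M M' x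
    unfold trap
    linarith
  have htrm : Measurable (trap M M') := (measurable_ramp M).sub (measurable_lramp M M')
  have hC : Cells μ Z p (fun z => {g | Real.exp t ≤ K z g}) T := by
    refine ⟨h.p0, fun z hz => measurableSet_le measurable_const (h.Km z hz), fun z hz g g' hg => ?_,
      fun z hz g g' hg hg1 => ?_, h.prob, h.disj⟩
    · show Real.exp t ≤ K z g ↔ Real.exp t ≤ K z g'
      rw [h.Kdep z hz hg]
    · exact le_trans (show Real.exp t ≤ K z g from hg1) (h.Kmono z hz hg)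
  have hHm : Measurable H := by
    rw [hH]
    exact h.Hs_meas fun s hs => htrm.comp (hFm s hs)
  have hH0 : ∀ g, 0 ≤ H g := fun g => by
    rw [hH]
    exact h.Hs_nonneg fun s _ => htr0 _
  have hH1 : ∀ g, H g ≤ 1 := fun g => by
    rw [hH]
    exact h.Hs_le_one fun s _ => htr1 _
  have hGm : ∀ z ∈ Z, Measurable (G z) := fun z hz => by
    rw [hG]
    exact h.Hs_meas fun s hs => measurable_const.max
      (((measurable_ramp M).comp (hFsm s hs z hz)).sub ((measurable_lramp M M').comp (F0m s hs z hz)))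
  have hG0 : ∀ z ∈ Z, ∀ g, 0 ≤ G z g := fun z _ g => by
    rw [hG]
    exact h.Hs_nonneg fun s _ => le_max_left _ _
  have hG1 : ∀ z ∈ Z, ∀ g, G z g ≤ 1 := fun z _ g => by
    rw [hG]
    refine h.Hs_le_one fun s _ => max_le zero_le_one ?_
    have h1 := ramp_le_one M (Fs s z g)
    have h2 := lramp_nonneg M M' (F0 s z g)
    linarith
  have hGmono : ∀ z ∈ Z, MonoOn (T z : Set ι) fun g => - G z g := by
    intro z hz g g' h1 h2
    refine neg_le_neg ?_
    rw [hG]
    refine Finset.sum_le_sum fun s hs => ?_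
    have e1 : a s g * w s g = a s g' * w s g' := h.awdep s hs z hz fun q hq => h2 q hq
    have e0 : F0 s z g = F0 s z g' := F0d s hs z hz fun q hq => h2 q hq
    have e2 : max 0 (ramp M (Fs s z g') - lramp M M' (F0 s z g')) ≤
        max 0 (ramp M (Fs s z g) - lramp M M' (F0 s z g)) := by
      rw [e0]
      refine max_le_max le_rfl (sub_le_sub_right ?_ _)
      refine ramp_anti hM ?_
      rw [hFs]
      exact Real.log_le_log ((h.r0 s hs g).trans_le (h.le_rsh hs hz g)) (h.rsh_mono hs hz g g' h1 h2)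
    have e3 : a s g' * w s g' / Zf g' ≤ a s g * w s g / Zf g := by
      rw [← e1]
      exact div_le_div_of_nonneg_left (mul_nonneg (h.a0 s hs g) (h.w0 s hs g)) (h.Z0 g) (h.Zmono z hz g g' h1 h2)
    exact mul_le_mul e3 e2 (le_max_left _ _) (h.aw_nonneg hs g)
  have hRm : ∀ z ∈ Z, Measurable (R z) := fun z hz => by
    rw [hR]
    exact h.Hs_meas fun s hs =>
      ((measurable_lramp M M').comp (F0m s hs z hz)).sub ((measurable_lramp M M').comp (hFm s hs))
  have hRp : ∀ s ∈ P, ∀ z ∈ Z, ∀ g, 0 ≤ lramp M M' (F0 s z g) - lramp M M' (F s g) := fun s hs z hz g =>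
    sub_nonneg.2 (lramp_anti hM' (hF0F s hs z hz g))
  have hRp1 : ∀ s ∈ P, ∀ z ∈ Z, ∀ g, lramp M M' (F0 s z g) - lramp M M' (F s g) ≤ 1 := fun s _ z _ g => by
    have h1 := lramp_le_one M M' (F0 s z g)
    have h2 := lramp_nonneg M M' (F s g)
    linarith
  have hR0 : ∀ z ∈ Z, ∀ g, 0 ≤ R z g := fun z hz g => by
    rw [hR]
    exact h.Hs_nonneg fun s hs => hRp s hs z hz g
  have hR1 : ∀ z ∈ Z, ∀ g, R z g ≤ 1 := fun z hz g => by
    rw [hR]
    exact h.Hs_le_one fun s hs => hRp1 s hs z hz g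
  have hGH : ∀ z ∈ Z, ∀ g ∈ {g | Real.exp t ≤ K z g}, H g ≤ G z g + R z g := by
    intro z hz g hg
    have hg' : Real.exp t ≤ K z g := hg
    rw [hG, hH, hR]
    unfold Hs
    simp only
    rw [← Finset.sum_add_distrib]
    refine Finset.sum_le_sum fun s hs => ?_
    rw [← mul_add]
    refine mul_le_mul_of_nonneg_left ?_ (h.aw_nonneg hs g)
    have e1 : Fs s z g = F s g := by
      rw [hFs, hF]
      show Real.log (rsh t K r o s z g) = Real.log (r s g)
      unfold rsh
      rw [max_eq_left hg', sub_self, mul_zero, add_zero]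
    rw [e1]
    have h2 := le_max_right 0 (ramp M (F s g) - lramp M M' (F0 s z g))
    unfold trap
    linarith
  have hdl := dlrR hC hHm hH0 hH1 hGm hG0 hG1 hGmono hRm hR0 hR1 hGH u
  -- the functions of the conclusion
  obtain ⟨f, hf⟩ : ∃ f : σ → (ι → ℝ) → ℝ, f = fun s g => if |Real.log (r s g)| ≤ M then 1 else 0 := ⟨_, rfl⟩
  obtain ⟨f', hf'⟩ : ∃ f' : σ → (ι → ℝ) → ℝ,
    f' = fun s g => if -(4 * M' + 2 * M) ≤ Real.log (r s g) ∧ Real.log (r s g) ≤ 2 * M then 1 else 0 := ⟨_, rfl⟩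
  have hfm : ∀ s ∈ P, Measurable (f s) := fun s hs => by
    rw [hf]
    exact Measurable.ite (measurableSet_le (measurable_norm.comp (h.rm s hs).log) measurable_const)
      measurable_const measurable_const
  have hfm' : ∀ s ∈ P, Measurable (f' s) := fun s hs => by
    rw [hf']
    exact Measurable.ite ((measurableSet_le measurable_const (h.rm s hs).log).inter
      (measurableSet_le (h.rm s hs).log measurable_const)) measurable_const measurable_const
  have hf01 : ∀ s g, 0 ≤ f s g ∧ f s g ≤ 1 := fun s g => by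
    rw [hf]
    show 0 ≤ (if |Real.log (r s g)| ≤ M then (1 : ℝ) else 0) ∧ (if |Real.log (r s g)| ≤ M then (1 : ℝ) else 0) ≤ 1
    split_ifs
    · exact ⟨zero_le_one, le_rfl⟩
    · exact ⟨le_rfl, zero_le_one⟩
  have hf01' : ∀ s g, 0 ≤ f' s g ∧ f' s g ≤ 1 := fun s g => by
    rw [hf']
    simp only
    split_ifs
    · exact ⟨zero_le_one, le_rfl⟩
    · exact ⟨le_rfl, zero_le_one⟩
  rw [← hf, ← hf']
  have hfi : Integrable (Hs P a w Zf f) (lw ι μ) := bdd_integrable (h.Hs_meas hfm) (B := 1) fun g => by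
    rw [abs_of_nonneg (h.Hs_nonneg fun s _ => (hf01 s g).1)]
    exact h.Hs_le_one fun s _ => (hf01 s g).2
  have hfi' : Integrable (Hs P a w Zf f') (lw ι μ) := bdd_integrable (h.Hs_meas hfm') (B := 1) fun g => by
    rw [abs_of_nonneg (h.Hs_nonneg fun s _ => (hf01' s g).1)]
    exact h.Hs_le_one fun s _ => (hf01' s g).2
  have hHi : Integrable H (lw ι μ) := bdd_integrable hHm (B := 1) fun g => by
    rw [abs_of_nonneg (hH0 g)]
    exact hH1 g
  have hGi : ∀ z ∈ Z, Integrable (G z) (lw ι μ) := fun z hz => bdd_integrable (hGm z hz) (B := 1) fun g => by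
    rw [abs_of_nonneg (hG0 z hz g)]
    exact hG1 z hz g
  have hRi' : ∀ z ∈ Z, Integrable (R z) (lw ι μ) := fun z hz => bdd_integrable (hRm z hz) (B := 1) fun g => by
    rw [abs_of_nonneg (hR0 z hz g)]
    exact hR1 z hz g
  -- the left side
  have hphi : ∀ s ∈ P, ∀ z ∈ Z, ∀ g, max 0 (ramp M (Fs s z g) - lramp M M' (F0 s z g)) ≤ trap M M' (F s g) := by
    intro s hs z hz g
    refine max_le (htr0 _) ?_
    have h1 := ramp_anti hM (hFFs s hs z hz g)
    have h2 := lramp_anti (M := M) hM' (hF0F s hs z hz g)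
    unfold trap
    linarith
  have hdiff : ∀ z ∈ Z, ∀ g, 0 ≤ H g - G z g := by
    intro z hz g
    rw [sub_nonneg, hG, hH]
    exact Finset.sum_le_sum fun s hs => mul_le_mul_of_nonneg_left (hphi s hs z hz g) (h.aw_nonneg hs g)
  have hSi : Integrable (fun g => ∑ z ∈ Z, (H g - G z g)) (lw ι μ) :=
    integrable_finsetSum _ fun z hz => hHi.sub (hGi z hz)
  have hleft : Ga / (4 * M) * ∫ g in E, Hs P a w Zf f g ∂(lw ι μ) ≤ ∑ z ∈ Z, ∫ g, (H g - G z g) ∂(lw ι μ) := by
    have hsum : ∑ z ∈ Z, ∫ g, (H g - G z g) ∂(lw ι μ) = ∫ g, ∑ z ∈ Z, (H g - G z g) ∂(lw ι μ) :=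
      (integral_finsetSum Z (f := fun z g => H g - G z g) fun z hz => hHi.sub (hGi z hz)).symm
    rw [hsum]
    have h1 : ∫ g in E, ∑ z ∈ Z, (H g - G z g) ∂(lw ι μ) ≤ ∫ g, ∑ z ∈ Z, (H g - G z g) ∂(lw ι μ) :=
      setIntegral_le_integral hSi (Filter.Eventually.of_forall fun g => Finset.sum_nonneg fun z hz => hdiff z hz g)
    refine le_trans ?_ h1
    rw [← integral_const_mul]
    refine setIntegral_mono_on (hfi.const_mul _).integrableOn hSi.integrableOn hE fun g hg => ?_
    have e1 : ∑ z ∈ Z, (H g - G z g) = ∑ s ∈ P, a s g * w s g / Zf g *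
        ∑ z ∈ Z, (trap M M' (F s g) - max 0 (ramp M (Fs s z g) - lramp M M' (F0 s z g))) := by
      have e2 : ∀ z, H g - G z g = ∑ s ∈ P, a s g * w s g / Zf g *
          (trap M M' (F s g) - max 0 (ramp M (Fs s z g) - lramp M M' (F0 s z g))) := by
        intro z
        rw [hG, hH]
        unfold Hs
        rw [← Finset.sum_sub_distrib]
        exact Finset.sum_congr rfl fun s _ => by ring
      simp only [e2]
      rw [Finset.sum_comm]
      exact Finset.sum_congr rfl fun s _ => by rw [Finset.mul_sum]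
    rw [e1]
    unfold Hs
    rw [Finset.mul_sum]
    refine Finset.sum_le_sum fun s hs => ?_
    have haw := h.aw_nonneg hs g
    have hterm : ∀ z ∈ Z, 0 ≤ trap M M' (F s g) - max 0 (ramp M (Fs s z g) - lramp M M' (F0 s z g)) := fun z hz =>
      sub_nonneg.2 (hphi s hs z hz g)
    have hsum0 := Finset.sum_nonneg hterm
    by_cases hr : |Real.log (r s g)| ≤ M
    · have hf1 : f s g = 1 := by
        rw [hf]
        exact if_pos hr
      rw [hf1, mul_one]
      by_cases ha : a s g = 0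
      · rw [ha]
        simp
      · have h2 := hGa g hg s hs ha hr
        have hlow : -(4 * M' + 2 * M) ≤ Real.log (r s g) := by
          have := (abs_le.1 hr).1
          linarith
        have h3 : Ga / (4 * M) ≤
            ∑ z ∈ Z, (trap M M' (F s g) - max 0 (ramp M (Fs s z g) - lramp M M' (F0 s z g))) := by
          have h4 : (∑ z ∈ Z, min (Real.log (rsh t K r o s z g) - Real.log (r s g)) M) / (4 * M) ≤
              ∑ z ∈ Z, (trap M M' (F s g) - max 0 (ramp M (Fs s z g) - lramp M M' (F0 s z g))) := by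
            rw [Finset.sum_div]
            refine Finset.sum_le_sum fun z hz => ?_
            have h5 : 0 ≤ Real.log (rsh t K r o s z g) - Real.log (r s g) :=
              sub_nonneg.2 (Real.log_le_log (h.r0 s hs g) (h.le_rsh hs hz g))
            have h6 := ramp_drop hM hr h5
            rw [add_sub_cancel] at h6
            have h7 := hdet g hg s hs ha hlow z hz
            have h8 : -(2 * M) ≤ F0 s z g := by
              have := (abs_le.1 hr).1
              linarith
            have h9 : lramp M M' (F0 s z g) = 0 := lramp_eq_zero hM' h8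
            have h10 : lramp M M' (F s g) = 0 := by
              refine lramp_eq_zero hM' ?_
              rw [hF]
              have := (abs_le.1 hr).1
              show -(2 * M) ≤ Real.log (r s g)
              linarith
            have h11 : max 0 (ramp M (Fs s z g) - lramp M M' (F0 s z g)) = ramp M (Fs s z g) := by
              rw [h9, sub_zero, max_eq_right (ramp_nonneg _ _)]
            rw [h11]
            unfold trap
            rw [h10, sub_zero, hF, hFs]
            exact h6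
          exact (div_le_div_of_nonneg_right h2 (by linarith)).trans h4
        calc Ga / (4 * M) * (a s g * w s g / Zf g) ≤
              (∑ z ∈ Z, (trap M M' (F s g) - max 0 (ramp M (Fs s z g) - lramp M M' (F0 s z g)))) *
                (a s g * w s g / Zf g) := mul_le_mul_of_nonneg_right h3 haw
          _ = _ := mul_comm _ _
    · have hf0 : f s g = 0 := by
        rw [hf]
        exact if_neg hr
      rw [hf0, mul_zero, mul_zero]
      exact mul_nonneg haw hsum0
  refine hleft.trans (hdl.trans ?_)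
  -- the right side
  have hp := h.p0
  have hp' : 0 ≤ 1 / p := by positivity
  have htrap : ∀ s g, trap M M' (F s g) ≤ f' s g := by
    intro s g
    rw [hf']
    simp only
    split_ifs with hc
    · exact htr1 _
    · rw [not_and_or, not_le, not_le] at hc
      rcases hc with hc | hc
      · have e1 : lramp M M' (F s g) = 1 := by
          refine lramp_eq_one hM' ?_
          rw [hF]
          exact hc.le
        have e2 := ramp_le_one M (F s g)
        unfold trap
        linarith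
      · have e1 : ramp M (F s g) = 0 := by
          refine ramp_eq_zero hM ?_
          rw [hF]
          exact hc.le
        have e2 := lramp_nonneg M M' (F s g)
        unfold trap
        linarith
  have hHf : ∫ g, H g ∂(lw ι μ) ≤ ∫ g, Hs P a w Zf f' g ∂(lw ι μ) := by
    refine integral_mono hHi hfi' fun g => ?_
    show H g ≤ Hs P a w Zf f' g
    rw [hH]
    exact Finset.sum_le_sum fun s hs => mul_le_mul_of_nonneg_left (htrap s g) (h.aw_nonneg hs g)
  have hRsum : ∑ z ∈ Z, ∫ g, R z g ∂(lw ι μ) ≤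
      Ri / (4 * M') * (∫ g, Hs P a w Zf f' g ∂(lw ι μ)) + #Z * (lw ι μ).real Eᶜ := by
    have e0 : ∑ z ∈ Z, ∫ g, R z g ∂(lw ι μ) = ∫ g, ∑ z ∈ Z, R z g ∂(lw ι μ) :=
      (integral_finsetSum Z (f := fun z g => R z g) fun z hz => hRi' z hz).symm
    have hind : Integrable (Eᶜ.indicator fun _ => (#Z : ℝ)) (lw ι μ) :=
      (integrable_const _).indicator hE.compl
    have e1 : ∫ g, ∑ z ∈ Z, R z g ∂(lw ι μ) ≤
        ∫ g, (Ri / (4 * M') * Hs P a w Zf f' g + Eᶜ.indicator (fun _ => (#Z : ℝ)) g) ∂(lw ι μ) := by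
      refine integral_mono (integrable_finsetSum _ fun z hz => hRi' z hz)
        ((hfi'.const_mul _).add hind) fun g => ?_
      show ∑ z ∈ Z, R z g ≤ Ri / (4 * M') * Hs P a w Zf f' g + Eᶜ.indicator (fun _ => (#Z : ℝ)) g
      have hfn : 0 ≤ Hs P a w Zf f' g := h.Hs_nonneg fun s _ => (hf01' s g).1
      have h4 : 0 < 4 * M' := by linarith
      by_cases hg : g ∈ E
      · rw [Set.indicator_of_notMem (by simpa using hg), add_zero]
        have e2 : ∑ z ∈ Z, R z g = ∑ s ∈ P, a s g * w s g / Zf g *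
            ∑ z ∈ Z, (lramp M M' (F0 s z g) - lramp M M' (F s g)) := by
          rw [hR]
          unfold Hs
          rw [Finset.sum_comm]
          exact Finset.sum_congr rfl fun s _ => by rw [Finset.mul_sum]
        rw [e2]
        unfold Hs
        rw [Finset.mul_sum]
        refine Finset.sum_le_sum fun s hs => ?_
        have haw := h.aw_nonneg hs g
        by_cases ha : a s g = 0
        · rw [ha]
          simp
        · have key : ∑ z ∈ Z, (lramp M M' (F0 s z g) - lramp M M' (F s g)) ≤ Ri / (4 * M') * f' s g := by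
            by_cases hlow : -(4 * M' + 2 * M) ≤ Real.log (r s g)
            · by_cases hup : Real.log (r s g) ≤ 2 * M
              · have hf1 : f' s g = 1 := by
                  rw [hf']
                  exact if_pos ⟨hlow, hup⟩
                rw [hf1, mul_one]
                have h5 : ∑ z ∈ Z, (lramp M M' (F0 s z g) - lramp M M' (F s g)) ≤
                    (∑ z ∈ Z, min (Real.log (r s g) - F0 s z g) (4 * M')) / (4 * M') := by
                  rw [Finset.sum_div]
                  refine Finset.sum_le_sum fun z hz => ?_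
                  have h6 := lramp_diff (M := M) hM' (hF0F s hs z hz g)
                  rw [hF] at h6 ⊢
                  exact h6
                exact h5.trans (div_le_div_of_nonneg_right (hRi g hg s hs ha hlow) h4.le)
              · have h5 : ∑ z ∈ Z, (lramp M M' (F0 s z g) - lramp M M' (F s g)) = 0 := by
                  refine Finset.sum_eq_zero fun z hz => ?_
                  have h6 := hdet g hg s hs ha hlow z hz
                  have h7 : -(2 * M) ≤ F0 s z g := by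
                    rw [not_le] at hup
                    linarith
                  have h8 : -(2 * M) ≤ F s g := h7.trans (hF0F s hs z hz g)
                  rw [lramp_eq_zero hM' h7, lramp_eq_zero hM' h8, sub_zero]
                rw [h5]
                exact mul_nonneg (div_nonneg hRi0 h4.le) (hf01' s g).1
            · have h5 : ∑ z ∈ Z, (lramp M M' (F0 s z g) - lramp M M' (F s g)) = 0 := by
                refine Finset.sum_eq_zero fun z hz => ?_
                rw [not_le] at hlow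
                have h8 : F s g ≤ -(4 * M' + 2 * M) := by
                  rw [hF]
                  exact hlow.le
                have h7 : F0 s z g ≤ -(4 * M' + 2 * M) := (hF0F s hs z hz g).trans h8
                rw [lramp_eq_one hM' h7, lramp_eq_one hM' h8, sub_self]
              rw [h5]
              exact mul_nonneg (div_nonneg hRi0 h4.le) (hf01' s g).1
          calc a s g * w s g / Zf g * ∑ z ∈ Z, (lramp M M' (F0 s z g) - lramp M M' (F s g)) ≤
                a s g * w s g / Zf g * (Ri / (4 * M') * f' s g) := mul_le_mul_of_nonneg_left key haw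
            _ = _ := by ring
      · rw [Set.indicator_of_mem (by simpa using hg)]
        have h5 : ∑ z ∈ Z, R z g ≤ #Z * 1 := by
          rw [← nsmul_eq_mul]
          exact Finset.sum_le_card_nsmul _ _ _ fun z hz => hR1 z hz g
        have h6 : 0 ≤ Ri / (4 * M') * Hs P a w Zf f' g := mul_nonneg (div_nonneg hRi0 h4.le) hfn
        linarith
    rw [e0]
    refine e1.trans (le_of_eq ?_)
    rw [integral_add (hfi'.const_mul _) hind, integral_const_mul, integral_indicator_const _ hE.compl, smul_eq_mul]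
    ring
  have hs0 : 0 ≤ Real.sqrt #Z := Real.sqrt_nonneg _
  have h1 : (1 / p) * Real.sqrt #Z * (u * ∫ g, H g ∂(lw ι μ) + Real.exp (1 - u)) ≤
      (1 / p) * Real.sqrt #Z * (u * ∫ g, Hs P a w Zf f' g ∂(lw ι μ) + Real.exp (1 - u)) := by
    refine mul_le_mul_of_nonneg_left ?_ (mul_nonneg hp' hs0)
    have := mul_le_mul_of_nonneg_left hHf hu
    linarith
  have h2 := mul_le_mul_of_nonneg_left hRsum hp'
  refine (add_le_add h1 h2).trans (le_of_eq ?_)
  ring

end

end Pool.Agent.W_7d29a1_Z15
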