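import Pool.Agent.W_7d29a1_C0.NM82
import Pool.Agent.W_7d29a1_C0.BoxS19
import Pool.Agent.W_7d29a1_C0.Fld19

/-!
CURV0 (MP_7d29a1_pr), leaf E1g: assembly of (E1) at a fixed set of signs and a fixed tilt. `w = lw + U`, `U`, `H` (the kick), `HW` are
functions of the environment and of the path up to the row `c` (`Past`), the slab rows are `J ⊂ (c, m0']`, `J' ⊂ (m0', m1]`, the
spectator `F` looks at the rows `≥ m1` and is blind to the environment of the slabs. `e1_bound`: the expectation of the average over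
`z ∈ J'` of the derivative of `κ₃(cE_z gW, cE_z g, f)` is at most
`a² E|ΨW| + a E|ΨW far2| + a E|ΨW far1| + E|ΨW far1 far3| + E|ΨW dw| + (a E|ΨNW| + E|ΨNW far2|) + (a E|ΨN| + E|ΨN far2W|)` and
exponentially small terms. (helper19)
-/

set_option autoImplicit false
set_option linter.unusedSectionVars false
set_option linter.unusedVariables false

namespace Pool.W7d29a1.C0.E1A

open Finset MeasureTheory
open Pool.Agent.W_7d29a1_F Pool.Agent.W_7d29a1_X Pool.Agent.W_7d29a1_C0.H32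
open Pool.Agent.W_7d29a1_C0 Pool.Agent.W_7d29a1_C0.Mod92 Pool.Agent.W_7d29a1_C0.Swap57 Pool.Agent.W_7d29a1_C0.NM82
open Pool.W7d29a1.C0 Pool.W7d29a1.C0.VT31 Pool.W7d29a1.C0.H41 Pool.W7d29a1.C0.Fld19

noncomputable section

variable {μ : Measure ℝ} {s : ℝ} {N : ℕ} {Q : Finset (Finset ℕ)}

/-! ### Small facts -/

theorem BF_smul {S : Finset Pt} {c : Pt → Env → ℝ} {M : ℝ} (b : H19.BF S c M) (θ : ℝ) :
    H19.BF S (fun p η => θ * c p η) (|θ| * M) := by
  refine ⟨fun p hp => (b.meas p hp).const_mul _, fun p hp q hq h η x => ?_, fun p hp η => ?_⟩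
  · show θ * c p (Function.update η q x) = θ * c p η
    rw [b.pred p hp q hq h]
  · rw [abs_mul]
    exact mul_le_mul_of_nonneg_left (b.bd p hp η) (abs_nonneg θ)

/-- The visit of a site, as a function on the paths. -/
def NNs (q : Pt) (S : Px Q) : ℝ := nn q S.1

theorem abs_NNs (q : Pt) (S : Px Q) : |NNs q S| ≤ 1 := abs_nn q S.1

theorem pb_iff_pJ {m : ℕ} {S S' : Px Q} : pb m S' = pb m S ↔ pJ 0 m S' = pJ 0 m S := by
  rw [pb_eq_iff]
  unfold pJ
  rw [Prod.mk.injEq, ← Finset.range_eq_Ico]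
  exact and_comm

theorem cE_pJ (w : Px Q → ℝ) (m : ℕ) (g : Px Q → ℝ) : cE w (pJ 0 m) g = cE w (pb m) g := by
  classical
  funext S
  unfold cE fz
  congr 1
  · refine Finset.sum_congr rfl fun S' _ => ?_
    by_cases h : pb m S' = pb m S
    · rw [if_pos h, if_pos (pb_iff_pJ.1 h)]
    · rw [if_neg h, if_neg fun h' => h (pb_iff_pJ.2 h')]
  · refine Finset.sum_congr rfl fun S' _ => ?_
    by_cases h : pb m S' = pb m S
    · rw [if_pos h, if_pos (pb_iff_pJ.1 h)]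
    · rw [if_neg h, if_neg fun h' => h (pb_iff_pJ.2 h')]

theorem cC_pJ (w : Px Q → ℝ) (m : ℕ) (g h : Px Q → ℝ) : cC w (pJ 0 m) g h = cC w (pb m) g h := by
  unfold cC
  rw [cE_pJ, cE_pJ, cE_pJ]

/-- A function of the past is a functional of the rows `≤ c`. -/
theorem Past.lk {c : ℕ} {H : Env → Finset ℕ → ℝ} (hH : Past c H) (η : Env) : Lk (Q := Q) 0 c fun S => H η S.1 := by
  intro S S' h
  show H η S.1 = H η S'.1
  have e : S.1 ∩ range c = S'.1 ∩ range c := by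
    ext k
    rw [mem_inter, mem_inter, mem_range]
    constructor
    · rintro ⟨h1, h2⟩
      refine ⟨?_, h2⟩
      rw [mem_iff_ps] at h1 ⊢
      rw [← h (k + 1) (Nat.zero_le _) h2, ← h k (Nat.zero_le _) h2.le]
      exact h1
    · rintro ⟨h1, h2⟩
      refine ⟨?_, h2⟩
      rw [mem_iff_ps] at h1 ⊢
      rw [h (k + 1) (Nat.zero_le _) h2, h k (Nat.zero_le _) h2.le]
      exact h1
  rw [hH.cut, e, ← hH.cut]

/-! ### The fields of a slab -/

/-- The field of the slab average. -/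
def cf (θ s : ℝ) (U H : Env → Finset ℕ → ℝ) : Pt → Env → ℝ := fun p η => θ * fq s U H p η

/-- Its derivative along the site `p`. -/
def cf' (θ s : ℝ) (U H : Env → Finset ℕ → ℝ) (p : Pt) : Pt → Env → ℝ := fun q η => θ * fq' s U H p q η

section slab

variable {U H : Env → Finset ℕ → ℝ} {c : ℕ} {θ : ℝ}

theorem row_Sl {J : Finset ℕ} {K : ℕ} {q : Pt} (h : q ∈ Sl J K) : ∃ i ∈ J, q.1 = (i : ℤ) := by
  obtain ⟨i, hi, y, _, rfl⟩ := mem_Sl.1 h
  exact ⟨i, hi, rfl⟩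

theorem BF_cf (hU : Past c U) (hH : Past c H) {M : ℝ} (hM : ∀ η S, |H η S| ≤ M) {J : Finset ℕ} (hJ : ∀ i ∈ J, c < i) (K : ℕ)
    (θ : ℝ) : H19.BF (Sl J K) (cf θ s U H) (|θ| * M) :=
  BF_smul (BF_fq hU hH hM fun q hq => by
    obtain ⟨i, hi, e⟩ := row_Sl hq
    have := hJ i hi
    omega) θ

theorem BF_cf' (hU : Past c U) (hH : Past c H) {M : ℝ} (hM : ∀ η S, |H η S| ≤ M) {J : Finset ℕ} (hJ : ∀ i ∈ J, c < i) (K : ℕ)
    (θ : ℝ) (p : Pt) : H19.BF (Sl J K) (cf' θ s U H p) (|θ| * (2 * (1 * M))) :=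
  BF_smul (BF_fq' hU hH hM (fun q hq => by
    obtain ⟨i, hi, e⟩ := row_Sl hq
    have := hJ i hi
    omega) p) θ

theorem cf_der (hU : Past c U) (hH : Past c H) {J J' : Finset ℕ} {K : ℕ} (hJ : ∀ i ∈ J, c < i)
    (hJJ : ∀ i ∈ J, ∀ z ∈ J', i < z) (θ : ℝ) : ∀ p ∈ Sl J K, ∀ q ∈ Sl J' K, ∀ (η : Env) (x : ℝ),
      HasDerivAt (fun t => cf θ s U H q (Function.update η p t)) (cf' θ s U H p q (Function.update η p x)) x := by
  intro p hp q hq η x
  obtain ⟨i, hi, e1⟩ := row_Sl hp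
  obtain ⟨z, hz, e2⟩ := row_Sl hq
  have h1 := hJ i hi
  have h2 := hJJ i hi z hz
  exact (hasDerivAt_fq hU hH (by omega) (by omega) η x).const_mul θ

theorem cf_blind (hU : Past c U) (hH : Past c H) {J J' : Finset ℕ} {K : ℕ} (hJ : ∀ i ∈ J, c < i)
    (hJJ : ∀ i ∈ J, ∀ z ∈ J', i < z) (θ : ℝ) : ∀ p ∈ Sl J K, ∀ q ∈ Sl J' K, ∀ (η : Env) (x : ℝ),
      cf θ s U H p (Function.update η q x) = cf θ s U H p η := by
  intro p hp q hq η x
  obtain ⟨i, hi, e1⟩ := row_Sl hp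
  obtain ⟨z, hz, e2⟩ := row_Sl hq
  have h1 := hJ i hi
  have h2 := hJJ i hi z hz
  show θ * fq s U H p (Function.update η q x) = θ * fq s U H p η
  rw [fq_blind hU hH (by omega) (by omega)]

theorem disj_Sl {J J' : Finset ℕ} {K : ℕ} (hJJ : ∀ i ∈ J, ∀ z ∈ J', i < z) : Disjoint (Sl J K) (Sl J' K) := by
  rw [disjoint_left]
  intro q h1 h2
  obtain ⟨i, hi, e1⟩ := row_Sl h1
  obtain ⟨z, hz, e2⟩ := row_Sl h2
  have := hJJ i hi z hz
  omega

theorem wt_wU (hU : Past c U) {J : Finset ℕ} {K : ℕ} (hJ : ∀ i ∈ J, c < i) (hN : ∀ i ∈ J, i ≤ N) :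
    Wt (Sl J K) (wU μ s N Q U) (fun q => NNs q) 1 := by
  refine ⟨measurable_wU hU, fun q hq η x => ?_, fun q _ S => abs_NNs q S⟩
  obtain ⟨i, hi, e1⟩ := row_Sl hq
  have h1 := hJ i hi
  have h2 := hN i hi
  exact hasDerivAt_wU hU (by omega) (by omega) η x

theorem ps_le_N {J : Finset ℕ} (hN : ∀ i ∈ J, i ≤ N) (S : Px Q) : ∀ i ∈ J, pos S.1 i ≤ (N : ℤ) := fun i hi => by
  have h1 := pos_le S.1 i
  have h2 := hN i hi
  omega

variable [Nonempty (Px Q)]

/-- **The path functional of the field is the slab average of the conditional means.** -/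
theorem Cf_cf (hQ : GQ N Q) (hU : Past c U) (hH : Past c H) {J : Finset ℕ} (hJ : ∀ i ∈ J, c < i) (hN : ∀ i ∈ J, i ≤ N)
    (η : Env) : H19.Cf (Sl J N) (cf θ s U H) (fun q (S : Px Q) => NNs q S) η =
      avC (wU μ s N Q U η) J (fun _ => θ) (fun m => pJ 0 m) fun S => H η S.1 := by
  show H19.Cf (Sl J N) (cf θ s U H) (fun q (S : Px Q) => nn q S.1) η = _
  rw [Cf_Px]
  funext S
  rw [Ph_Sl (fun i hi => by have := hJ i hi; omega) _ η (ps_le_N hN S)]
  unfold avC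
  rw [Finset.sum_apply]
  refine Finset.sum_congr rfl fun i hi => ?_
  rw [Pi.smul_apply, smul_eq_mul, cE_pJ]
  have h := cE_fq (μ := μ) (s := s) hQ (hJ i hi).le (hN i hi) hU (hH.mono (hJ i hi).le) η S
  rw [h]
  rfl

/-- **The derivative of the second field in the direction of a field of the first slab.** -/
theorem Cf_Dcf (hQ : GQ N Q) (hU : Past c U) (hH : Past c H) {J J' : Finset ℕ} (hJ : ∀ i ∈ J, c < i)
    (hJ' : ∀ z ∈ J', c < z) (hN : ∀ i ∈ J, i ≤ N) (hN' : ∀ z ∈ J', z ≤ N) (hJJ : ∀ i ∈ J, ∀ z ∈ J', i < z) {c1 : Pt → Env → ℝ}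
    (ms : ∀ q ∈ Sl J N, Measurable (c1 q))
    (bl : ∀ q ∈ Sl J N, ∀ (η : Env) (r : Pt) (x : ℝ), q.1 < r.1 → c1 q (Function.update η r x) = c1 q η) (η : Env) :
    H19.Cf (Sl J' N) (H19.Dc (Sl J N) c1 (cf' θ s U H)) (fun q (S : Px Q) => NNs q S) η =
      ∑ z ∈ J', θ • cC (wU μ s N Q U η) (pJ 0 z) (H19.Cf (Sl J N) c1 (fun q (S : Px Q) => NNs q S) η) fun S => H η S.1 := by
  show H19.Cf (Sl J' N) (H19.Dc (Sl J N) c1 (cf' θ s U H)) (fun q (S : Px Q) => nn q S.1) η =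
    ∑ z ∈ J', θ • cC (wU μ s N Q U η) (pJ 0 z) (H19.Cf (Sl J N) c1 (fun q (S : Px Q) => nn q S.1) η) fun S => H η S.1
  rw [Cf_Px, Cf_Px]
  funext S
  rw [Ph_Sl (fun i hi => by have := hJ' i hi; omega) _ η (ps_le_N hN' S), Finset.sum_apply]
  refine Finset.sum_congr rfl fun z hz => ?_
  rw [Pi.smul_apply, smul_eq_mul, cC_pJ]
  have hrow : ∀ q ∈ Sl J N, q.1 < (z : ℤ) := fun q hq => by
    obtain ⟨i, hi, e1⟩ := row_Sl hq
    have := hJJ i hi z hz
    omega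
  have h := Dc_fq (μ := μ) (s := s) hQ (hJ' z hz).le (hN' z hz) hU hH (S1 := Sl J N) (c1 := c1)
    (fun q hq => (hrow q hq).le) ms (fun q hq η r x hr => bl q hq η r x ((hrow q hq).trans hr)) η S
  rw [← h]
  unfold H19.Dc cf' ps
  rw [Finset.mul_sum]
  exact Finset.sum_congr rfl fun p _ => by ring

end slab

/-! ### The far part of an insertion -/

section far

variable {X B : Type*} [Fintype X] [Nonempty X] [Fintype B] [DecidableEq B]

/-- The observable with the far indicator `o β S` = `S` is outside of the boxes `β` of the own replicas. -/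
def FW (k : ℕ) (b : X → B) (o : (Fin k → B) → X → ℝ) (Ψ : (Fin k → X) → ℝ) : (Fin (k + 1) → X) → ℝ :=
  fun y => |Ψ (Fin.tail y)| * ((∑ i : Fin k, o (fun i => b (y i.succ)) (y i.succ)) + k * o (fun i => b (y i.succ)) (y 0))

theorem abs_insR_le {k : ℕ} (b : X → B) {R : (Fin k → B) → X → ℝ} {o : (Fin k → B) → X → ℝ} {M : ℝ}
    (h : ∀ β S, |R β S| ≤ M * o β S) (Ψ : (Fin k → X) → ℝ) (y : Fin (k + 1) → X) :
    |(repDr X k).insR b R Ψ y| ≤ M * FW k b o Ψ y := by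
  have e : (repDr X k).insR b R Ψ y = Ψ (Fin.tail y) * ((∑ i : Fin k, R (fun i => b (y i.succ)) (y i.succ)) -
      k * R (fun i => b (y i.succ)) (y 0)) := by
    show (repDr X k).ins (R fun i => b (y i.succ)) Ψ y = _
    rw [repDr_ins]
    rfl
  rw [e, abs_mul]
  unfold FW
  have h1 : |(∑ i : Fin k, R (fun i => b (y i.succ)) (y i.succ)) - k * R (fun i => b (y i.succ)) (y 0)| ≤
      (∑ i : Fin k, M * o (fun i => b (y i.succ)) (y i.succ)) + k * (M * o (fun i => b (y i.succ)) (y 0)) := by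
    refine (abs_sub _ _).trans (add_le_add ((Finset.abs_sum_le_sum_abs _ _).trans (Finset.sum_le_sum fun i _ => h _ _)) ?_)
    rw [abs_mul, Nat.abs_cast]
    exact mul_le_mul_of_nonneg_left (h _ _) (Nat.cast_nonneg _)
  refine (mul_le_mul_of_nonneg_left h1 (abs_nonneg _)).trans_eq ?_
  rw [← Finset.mul_sum]
  ring

theorem FW_nonneg {k : ℕ} (b : X → B) {o : (Fin k → B) → X → ℝ} (h : ∀ β S, 0 ≤ o β S) (Ψ : (Fin k → X) → ℝ)
    (y : Fin (k + 1) → X) : 0 ≤ FW k b o Ψ y := by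
  unfold FW
  have h1 : 0 ≤ ∑ i : Fin k, o (fun i => b (y i.succ)) (y i.succ) := Finset.sum_nonneg fun i _ => h _ _
  have h2 : (0 : ℝ) ≤ k * o (fun i => b (y i.succ)) (y 0) := mul_nonneg (Nat.cast_nonneg _) (h _ _)
  positivity

theorem FW_mono {k : ℕ} (b : X → B) {o : (Fin k → B) → X → ℝ} (ho : ∀ β S, 0 ≤ o β S) {Ψ Φ : (Fin k → X) → ℝ}
    (h : ∀ x, |Ψ x| ≤ Φ x) (y : Fin (k + 1) → X) : FW k b o Ψ y ≤ FW k b o Φ y := by
  unfold FW
  have h1 : 0 ≤ ∑ i : Fin k, o (fun i => b (y i.succ)) (y i.succ) := Finset.sum_nonneg fun i _ => ho _ _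
  have h2 : (0 : ℝ) ≤ k * o (fun i => b (y i.succ)) (y 0) := mul_nonneg (Nat.cast_nonneg _) (ho _ _)
  exact mul_le_mul_of_nonneg_right ((h _).trans (le_abs_self _)) (by positivity)

/-- Measurability of `FW`. -/
theorem meas_FW {k : ℕ} (b : X → B) {o : Env → (Fin k → B) → X → ℝ} (ho : ∀ β S, Measurable fun η => o η β S)
    {Ψ : Env → (Fin k → X) → ℝ} (hΨ : Measurable Ψ) : Measurable fun η => FW k b (o η) (Ψ η) := by
  refine measurable_pi_lambda _ fun y => ?_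
  unfold FW
  refine Measurable.mul ?_ ((Finset.measurable_fun_sum _ fun i _ => ho _ _).add ((ho _ _).const_mul _))
  have h := ((measurable_pi_apply (Fin.tail y)).comp hΨ).norm
  simpa [Real.norm_eq_abs] using h

theorem abs_FW_le {k : ℕ} (b : X → B) {o : (Fin k → B) → X → ℝ} (h0 : ∀ β S, 0 ≤ o β S) (h1 : ∀ β S, o β S ≤ 1)
    {Ψ : (Fin k → X) → ℝ} {D : ℝ} (hΨ : ∀ x, |Ψ x| ≤ D) (y : Fin (k + 1) → X) : |FW k b o Ψ y| ≤ D * (2 * k) := by
  rw [abs_of_nonneg (FW_nonneg b h0 Ψ y)]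
  unfold FW
  have h2 : ∑ i : Fin k, o (fun i => b (y i.succ)) (y i.succ) ≤ k := by
    refine (Finset.sum_le_sum fun i _ => h1 _ _).trans_eq ?_
    rw [Finset.sum_const, Finset.card_univ, Fintype.card_fin, nsmul_eq_mul, mul_one]
  have h3 : (k : ℝ) * o (fun i => b (y i.succ)) (y 0) ≤ k * 1 := mul_le_mul_of_nonneg_left (h1 _ _) (Nat.cast_nonneg _)
  have h4 : 0 ≤ ∑ i : Fin k, o (fun i => b (y i.succ)) (y i.succ) := Finset.sum_nonneg fun i _ => h0 _ _
  have h5 : (0 : ℝ) ≤ k * o (fun i => b (y i.succ)) (y 0) := mul_nonneg (Nat.cast_nonneg _) (h0 _ _)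
  exact mul_le_mul (hΨ _) (by linarith) (by positivity) ((abs_nonneg _).trans (hΨ (Fin.tail y)))

/-! ### Own and free replicas -/

theorem rep_at (w : X → ℝ) (g : X → ℝ) : ∀ (m : ℕ) (i : Fin m), rep m w (fun x => g (x i)) = gm w g := by
  intro m
  induction m with
  | zero => exact fun i => i.elim0
  | succ m ih =>
    refine Fin.cases ?_ fun i => ?_
    · have h := rep_cons m w g (fun _ => 1)
      simp only [mul_one] at h
      rw [h, rep_one, mul_one]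
    · exact (rep_tail m w fun x => g (x i)).trans (ih i)

/-- The first replica is free. -/
theorem rep_free (k : ℕ) (w : X → ℝ) (G : (Fin k → X) → X → ℝ) :
    rep (k + 1) w (fun y => G (Fin.tail y) (y 0)) = rep k w fun x => gm w (G x) := by
  unfold rep gm
  rw [sum_cons, Finset.sum_comm]
  have e : ∀ (x : Fin k → X) (y : X), Real.exp (∑ i, w ((Fin.cons y x : Fin (k + 1) → X) i)) *
      G (Fin.tail (Fin.cons y x : Fin (k + 1) → X)) ((Fin.cons y x : Fin (k + 1) → X) 0) =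
      Real.exp (∑ i, w (x i)) * (Real.exp (w y) * G x y) := fun x y => by
    rw [Fin.sum_univ_succ, Fin.cons_zero, Fin.tail_cons, Real.exp_add]
    simp only [Fin.cons_succ]
    ring
  simp_rw [e, ← Finset.mul_sum]
  have hz := gz_ne w
  rw [Finset.sum_div, Finset.sum_div]
  refine Finset.sum_congr rfl fun x _ => ?_
  rw [pow_succ]
  field_simp

/-- The observable with one free far replica. -/
def fr (k : ℕ) (b : X → B) (o : (Fin k → B) → X → ℝ) (Ψ : (Fin k → X) → ℝ) : (Fin (k + 1) → X) → ℝ :=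
  fun y => |Ψ (Fin.tail y)| * o (fun i => b (y i.succ)) (y 0)

theorem fr_nonneg {k : ℕ} (b : X → B) {o : (Fin k → B) → X → ℝ} (h : ∀ β S, 0 ≤ o β S) (Ψ : (Fin k → X) → ℝ)
    (y : Fin (k + 1) → X) : 0 ≤ fr k b o Ψ y := mul_nonneg (abs_nonneg _) (h _ _)

theorem FW_le {k : ℕ} {b : X → B} {o : (Fin k → B) → X → ℝ} {ow : X → ℝ} (hw : ∀ β i S, b S = β i → o β S ≤ ow S)
    (h0 : ∀ S, 0 ≤ ow S) {Ψ : (Fin k → X) → ℝ} {D : ℝ} (hΨ : ∀ x, |Ψ x| ≤ D) (y : Fin (k + 1) → X) :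
    FW k b o Ψ y ≤ k * fr k b o Ψ y + D * ∑ i : Fin k, ow (y i.succ) := by
  unfold FW fr
  have h1 : ∑ i : Fin k, o (fun i => b (y i.succ)) (y i.succ) ≤ ∑ i : Fin k, ow (y i.succ) :=
    Finset.sum_le_sum fun i _ => hw _ i _ rfl
  have h2 : 0 ≤ ∑ i : Fin k, ow (y i.succ) := Finset.sum_nonneg fun i _ => h0 _
  have h3 : |Ψ (Fin.tail y)| * ∑ i : Fin k, o (fun i => b (y i.succ)) (y i.succ) ≤ D * ∑ i : Fin k, ow (y i.succ) :=
    (mul_le_mul_of_nonneg_left h1 (abs_nonneg _)).trans (mul_le_mul_of_nonneg_right (hΨ _) h2)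
  rw [mul_add]
  have e : |Ψ (Fin.tail y)| * ((k : ℝ) * o (fun i => b (y i.succ)) (y 0)) =
      k * (|Ψ (Fin.tail y)| * o (fun i => b (y i.succ)) (y 0)) := by ring
  linarith

theorem rep_sum_own (k : ℕ) (w ow : X → ℝ) : rep (k + 1) w (fun y => ∑ i : Fin k, ow (y i.succ)) = k * gm w ow := by
  rw [rep_sum]
  rw [Finset.sum_congr rfl fun i _ => rep_at w ow (k + 1) (Fin.succ i), Finset.sum_const, Finset.card_univ,
    Fintype.card_fin, nsmul_eq_mul]

/-- **One far replica**: the far replica is free, or an own replica leaves its own box. -/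
theorem rep_FW_le {k : ℕ} {b : X → B} {o : (Fin k → B) → X → ℝ} {ow : X → ℝ} (hw : ∀ β i S, b S = β i → o β S ≤ ow S)
    (h0 : ∀ S, 0 ≤ ow S) {Ψ : (Fin k → X) → ℝ} {D : ℝ} (hΨ : ∀ x, |Ψ x| ≤ D) (w : X → ℝ) :
    rep (k + 1) w (FW k b o Ψ) ≤ k * rep (k + 1) w (fr k b o Ψ) + D * (k * gm w ow) := by
  rw [← rep_sum_own, ← rep_smul, ← rep_smul, ← rep_add]
  exact rep_mono _ _ fun y => FW_le hw h0 hΨ y

/-- The mean of the far indicator over a coarser future. -/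
theorem rep_FW_cE {k : ℕ} {b : X → B} {o : (Fin k → B) → X → ℝ} {ow : X → ℝ} (hw : ∀ β i S, b S = β i → o β S ≤ ow S)
    (h0 : ∀ S, 0 ≤ ow S) (ho : ∀ β S, 0 ≤ o β S) {Ψ : (Fin k → X) → ℝ} {D : ℝ} (hΨ : ∀ x, |Ψ x| ≤ D) (w : X → ℝ)
    {κ Y : Type*} [DecidableEq Y] (J : Finset κ) {θ : κ → ℝ} (hθ : ∑ z ∈ J, θ z = 1) (hθ0 : ∀ z ∈ J, 0 ≤ θ z)
    (pz : κ → X → Y) (hb : ∀ z ∈ J, ∀ S S', pz z S = pz z S' → b S = b S') :
    rep (k + 1) w (FW k b (fun β => avC w J θ pz (o β)) Ψ) ≤ k * rep (k + 1) w (fr k b o Ψ) + D * (k * gm w ow) := by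
  have hw' : ∀ (β : Fin k → B) i S, b S = β i → avC w J θ pz (o β) S ≤ avC w J θ pz ow S := by
    intro β i S h
    unfold avC
    rw [Finset.sum_apply, Finset.sum_apply]
    refine Finset.sum_le_sum fun z hz => ?_
    rw [Pi.smul_apply, Pi.smul_apply, smul_eq_mul, smul_eq_mul]
    refine mul_le_mul_of_nonneg_left ?_ (hθ0 z hz)
    have hpos := fz_pos w (pz z) S
    unfold cE
    refine div_le_div_of_nonneg_right (Finset.sum_le_sum fun S' _ => ?_) hpos.le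
    split_ifs with hp
    · exact mul_le_mul_of_nonneg_left (hw β i S' ((hb z hz S' S hp).trans h)) (Real.exp_pos _).le
    · exact le_rfl
  have h0' : ∀ S, 0 ≤ avC w J θ pz ow S := fun S => by
    unfold avC
    rw [Finset.sum_apply]
    exact Finset.sum_nonneg fun z hz => mul_nonneg (hθ0 z hz) (cE_nonneg w _ h0 S)
  have e1 : ∀ g : X → ℝ, gm w (avC w J θ pz g) = gm w g := fun g => by
    unfold avC
    have key : ∀ s : Finset κ, gm w (∑ m ∈ s, θ m • cE w (pz m) g) = ∑ m ∈ s, θ m * gm w g := fun s => by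
      classical
      induction s using Finset.induction_on with
      | empty => simp [gm]
      | insert i s hi ih => rw [Finset.sum_insert hi, Finset.sum_insert hi, gm_add, gm_smul, gm_cE, ih]
    rw [key, ← Finset.sum_mul, hθ, one_mul]
  refine (rep_FW_le hw' h0' hΨ w).trans (le_of_eq ?_)
  rw [e1]
  congr 2
  unfold fr
  have e2 := rep_free k w fun (x : Fin k → X) (S : X) => |Ψ x| * avC w J θ pz (o fun i => b (x i)) S
  have e3 := rep_free k w fun (x : Fin k → X) (S : X) => |Ψ x| * o (fun i => b (x i)) S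
  refine e2.trans (Eq.trans ?_ e3.symm)
  refine rep_congr _ _ fun x => ?_
  have e4 : ∀ g : X → ℝ, gm w (fun S => |Ψ x| * g S) = |Ψ x| * gm w g := fun g => gm_smul w _ g
  rw [e4, e4, e1]

/-- **Two far replicas.** -/
theorem rep_FW_two {k : ℕ} {b : X → B} {o : (Fin k → B) → X → ℝ} {o' : (Fin (k + 1) → B) → X → ℝ} {ow : X → ℝ}
    (hw : ∀ β i S, b S = β i → o β S ≤ ow S) (hw' : ∀ β i S, b S = β i → o' β S ≤ ow S) (h0 : ∀ S, 0 ≤ ow S)
    (ho : ∀ β S, 0 ≤ o β S) (ho1 : ∀ β S, o β S ≤ 1) (ho' : ∀ β S, 0 ≤ o' β S) (ho1' : ∀ β S, o' β S ≤ 1)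
    {Ψ : (Fin k → X) → ℝ} {D : ℝ} (hΨ : ∀ x, |Ψ x| ≤ D) (w : X → ℝ) :
    rep (k + 2) w (FW (k + 1) b o' (FW k b o Ψ)) ≤ (k + 1) * k * rep (k + 2) w (fr (k + 1) b o' (fr k b o Ψ)) +
      D * (3 * (k + 1) * (k + 1) * gm w ow) := by
  have hD : 0 ≤ D := by
    obtain ⟨x⟩ := (inferInstance : Nonempty X)
    exact (abs_nonneg _).trans (hΨ fun _ => x)
  have h1 := rep_FW_le (k := k + 1) hw' h0 (Ψ := FW k b o Ψ) (D := D * (2 * k)) (fun x => abs_FW_le b ho ho1 hΨ x) w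
  have h2 : rep (k + 2) w (fr (k + 1) b o' (FW k b o Ψ)) ≤ k * rep (k + 2) w (fr (k + 1) b o' (fr k b o Ψ)) +
      D * (k * gm w ow) := by
    have e : rep (k + 2) w (fun y => ∑ i : Fin k, ow (y i.succ.succ)) = k * gm w ow := by
      rw [rep_sum]
      rw [Finset.sum_congr rfl fun i _ => rep_at w ow (k + 2) (Fin.succ (Fin.succ i)), Finset.sum_const, Finset.card_univ,
        Fintype.card_fin, nsmul_eq_mul]
    rw [← e, ← rep_smul, ← rep_smul, ← rep_add]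
    refine rep_mono _ _ fun y => ?_
    have a1 := FW_le hw h0 hΨ (Fin.tail y)
    have a2 := FW_nonneg b ho Ψ (Fin.tail y)
    have a3 := fr_nonneg b ho Ψ (Fin.tail y)
    have a4 : 0 ≤ o' (fun i => b (y i.succ)) (y 0) := ho' _ _
    have a5 : o' (fun i => b (y i.succ)) (y 0) ≤ 1 := ho1' _ _
    have a6 : 0 ≤ D * ∑ i : Fin k, ow (y i.succ.succ) := mul_nonneg hD (Finset.sum_nonneg fun i _ => h0 _)
    show |FW k b o Ψ (Fin.tail y)| * o' (fun i => b (y i.succ)) (y 0) ≤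
      k * (|fr k b o Ψ (Fin.tail y)| * o' (fun i => b (y i.succ)) (y 0)) + D * ∑ i : Fin k, ow (y i.succ.succ)
    rw [abs_of_nonneg a2, abs_of_nonneg a3]
    refine (mul_le_mul_of_nonneg_right a1 a4).trans ?_
    rw [add_mul, mul_assoc]
    refine add_le_add le_rfl ?_
    exact mul_le_of_le_one_right a6 a5
  have h3 : 0 ≤ gm w ow := gm_nonneg w h0
  push_cast at h1
  have h4 : ((k : ℝ) + 1) * rep (k + 2) w (fr (k + 1) b o' (FW k b o Ψ)) ≤
      (k + 1) * (k * rep (k + 2) w (fr (k + 1) b o' (fr k b o Ψ)) + D * (k * gm w ow)) :=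
    mul_le_mul_of_nonneg_left h2 (by positivity)
  have h5 : 0 ≤ D * gm w ow := mul_nonneg hD h3
  have hk : (0 : ℝ) ≤ k := Nat.cast_nonneg k
  have h6 : D * (3 * (k + 1) * (k + 1) * gm w ow) = (D * gm w ow) * (3 * ((k : ℝ) + 1) * (k + 1)) := by ring
  have h7 : (k + 1) * (k * rep (k + 2) w (fr (k + 1) b o' (fr k b o Ψ)) + D * (k * gm w ow)) +
      D * (2 * k) * ((k + 1) * gm w ow) = (k + 1) * k * rep (k + 2) w (fr (k + 1) b o' (fr k b o Ψ)) +
      (D * gm w ow) * (3 * ((k : ℝ) + 1) * k) := by ring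
  rw [h6]
  have h8 : (D * gm w ow) * (3 * ((k : ℝ) + 1) * k) ≤ (D * gm w ow) * (3 * ((k : ℝ) + 1) * (k + 1)) :=
    mul_le_mul_of_nonneg_left (by nlinarith) h5
  linarith

end far

end

end Pool.W7d29a1.C0.E1A
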