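import Pool.Agent.W_7d29a1_C0.NM82
import Pool.Agent.W_7d29a1_C0.Fld19
import Pool.Agent.W_7d29a1_C0.BoxS19

/-!
CURV0 (MP_7d29a1_pr), leaf E1g, part A: (E1) in the model, for one kicked row and one tilt. The path functionals of `E1_NI` are
path functionals of the linear fields of `Fld19`; the expectation of (E1) is bounded by `box_seqG` (two slabs) and `box_oneG`
(the micro terms). (helper82, over helper19, helper41)
-/

set_option autoImplicit false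
set_option linter.unusedSectionVars false
set_option linter.unusedVariables false

namespace Pool.Agent.W_7d29a1_C0.E1A82

open Finset MeasureTheory
open Pool.Agent.W_7d29a1_C0 Pool.Agent.W_7d29a1_C0.Mod92 Pool.Agent.W_7d29a1_C0.Swap57 Pool.Agent.W_7d29a1_C0.NM82
open Pool.Agent.W_7d29a1_F Pool.Agent.W_7d29a1_X Pool.Agent.W_7d29a1_C0.H32
open Pool.W7d29a1.C0 Pool.W7d29a1.C0.VT31 Pool.W7d29a1.C0.Fld19 Pool.W7d29a1.C0.H41

noncomputable section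

/-! ### Knowledge -/

section Know

variable {X Y Z : Type*} [Fintype X] [Nonempty X] [DecidableEq Y] [DecidableEq Z]

theorem cE_congr {p : X → Y} {p' : X → Z} (h : ∀ x x', p x = p x' ↔ p' x = p' x') (w f : X → ℝ) : cE w p f = cE w p' f := by
  funext x
  unfold cE fz
  have e : ∀ x', (p x' = p x) = (p' x' = p' x) := fun x' => propext (h x' x)
  simp only [e]

theorem cC_congr {p : X → Y} {p' : X → Z} (h : ∀ x x', p x = p x' ↔ p' x = p' x') (w f g : X → ℝ) : cC w p f g = cC w p' f g := by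
  unfold cC
  rw [cE_congr h, cE_congr h, cE_congr h]

end Know

variable {μ : Measure ℝ} {s : ℝ} {N : ℕ} {Q : Finset (Finset ℕ)}

theorem pJ_iff_pb (m : ℕ) (S S' : Px Q) : pJ 0 m S = pJ 0 m S' ↔ pb m S = pb m S' := by
  rw [pb_eq_iff]
  unfold pJ
  rw [Prod.mk.injEq, ← Finset.range_eq_Ico]
  exact and_comm

variable [Nonempty (Px Q)]

theorem cE_pJ0 (w f : Px Q → ℝ) (m : ℕ) : cE w (pJ 0 m) f = cE w (pb m) f := cE_congr (pJ_iff_pb m) w f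

theorem cC_pJ0 (w f g : Px Q → ℝ) (m : ℕ) : cC w (pJ 0 m) f g = cC w (pb m) f g := cC_congr (pJ_iff_pb m) w f g

/-! ### The fields -/

/-- The visit of a site, for the paths of the family. -/
def nP (q : Pt) (S : Px Q) : ℝ := nn q S.1

/-- The field of `H`, averaged over the rows `J`. -/
def fl (J : Finset ℕ) (s : ℝ) (U H : Env → Finset ℕ → ℝ) : Pt → Env → ℝ := fun q η => (J.card : ℝ)⁻¹ * fq s U H q η

/-- Its derivative along the site `p`. -/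
def fl' (J : Finset ℕ) (s : ℝ) (U H : Env → Finset ℕ → ℝ) : Pt → Pt → Env → ℝ := fun p q η => (J.card : ℝ)⁻¹ * fq' s U H p q η

/-- A function of the past, on the paths of the family. -/
def fp (H : Env → Finset ℕ → ℝ) (η : Env) : Px Q → ℝ := fun S => H η S.1

theorem Cf_row {J : Finset ℕ} (hJ : ∀ i ∈ J, 1 ≤ i ∧ i ≤ N) (c : Pt → Env → ℝ) (η : Env) (S : Px Q) :
    H19.Cf (Sl J N) c nP η S = ∑ i ∈ J, c ((i : ℤ), ps S i) η := by
  have h : H19.Cf (Sl J N) c (nP (Q := Q)) η = fun S : Px Q => Ph (Sl J N) c η S.1 := Cf_Px (Q := Q) (Sl J N) c η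
  rw [h]
  exact Ph_Sl (fun i hi => (hJ i hi).1) c η fun i hi => (pos_le S.1 i).trans (by exact_mod_cast (hJ i hi).2)

/-- **The slab average of the conditional means is the path functional of the field.** -/
theorem avC_Cf (hQ : GQ N Q) {c0 : ℕ} {J : Finset ℕ} (hJ : ∀ m ∈ J, c0 < m ∧ m ≤ N) {U H : Env → Finset ℕ → ℝ}
    (hU : Past c0 U) (hH : Past c0 H) (η : Env) :
    avC (wU μ s N Q U η) J (fun _ => (J.card : ℝ)⁻¹) (fun m => pJ 0 m) (fp H η) = H19.Cf (Sl J N) (fl J s U H) nP η := by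
  funext S
  rw [Cf_row (fun i hi => ⟨by have := (hJ i hi).1; omega, (hJ i hi).2⟩)]
  unfold avC
  rw [Finset.sum_apply]
  refine Finset.sum_congr rfl fun m hm => ?_
  rw [Pi.smul_apply, smul_eq_mul, cE_pJ0]
  have h := cE_fq (μ := μ) (s := s) hQ (hJ m hm).1.le (hJ m hm).2 hU (hH.mono (hJ m hm).1.le) η S
  show (J.card : ℝ)⁻¹ * cE (wU μ s N Q U η) (pb m) (fun S' => H η S'.1) S = _
  rw [h]
  rfl

theorem fl_meas {c0 : ℕ} {J : Finset ℕ} {U H : Env → Finset ℕ → ℝ} (hU : Past c0 U) (hH : Past c0 H) (q : Pt) :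
    Measurable (fl J s U H q) := by
  have h1 := measurable_vq hU (s := s) q
  have h2 := measurable_rq hH q
  have h3 : Measurable (fq s U H q) := by
    show Measurable fun η => gm (vq s U q η) (rq H q η)
    exact H19.meas_gm h1 h2
  exact h3.const_mul _

/-- The field is bounded and predictable. -/
theorem fl_BF {c0 : ℕ} {J : Finset ℕ} {U H : Env → Finset ℕ → ℝ} (hU : Past c0 U) (hH : Past c0 H) {M : ℝ}
    (hM : ∀ η S, |H η S| ≤ M) {S1 : Finset Pt} (h1 : ∀ q ∈ S1, (c0 : ℤ) < q.1) :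
    H19.BF S1 (fl J s U H) ((J.card : ℝ)⁻¹ * M) := by
  have b := BF_fq (s := s) hU hH hM h1
  have hi : (0 : ℝ) ≤ (J.card : ℝ)⁻¹ := by positivity
  refine ⟨fun p hp => (b.meas p hp).const_mul _, fun q hq r hr hle η x => ?_, fun p hp η => ?_⟩
  · show (J.card : ℝ)⁻¹ * fq s U H q (Function.update η r x) = _
    rw [b.pred q hq r hr hle η x]
    rfl
  · show |(J.card : ℝ)⁻¹ * fq s U H p η| ≤ _
    rw [abs_mul, abs_of_nonneg hi]
    exact mul_le_mul_of_nonneg_left (b.bd p hp η) hi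

theorem fl_BF' {c0 : ℕ} {J : Finset ℕ} {U H : Env → Finset ℕ → ℝ} (hU : Past c0 U) (hH : Past c0 H) {M : ℝ}
    (hM : ∀ η S, |H η S| ≤ M) {S1 : Finset Pt} (h1 : ∀ q ∈ S1, (c0 : ℤ) < q.1) (p : Pt) :
    H19.BF S1 (fl' J s U H p) ((J.card : ℝ)⁻¹ * (2 * (1 * M))) := by
  have b := BF_fq' (s := s) hU hH hM h1 p
  have hi : (0 : ℝ) ≤ (J.card : ℝ)⁻¹ := by positivity
  refine ⟨fun q hq => (b.meas q hq).const_mul _, fun q hq r hr hle η x => ?_, fun q hq η => ?_⟩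
  · show (J.card : ℝ)⁻¹ * fq' s U H p q (Function.update η r x) = _
    rw [b.pred q hq r hr hle η x]
    rfl
  · show |(J.card : ℝ)⁻¹ * fq' s U H p q η| ≤ _
    rw [abs_mul, abs_of_nonneg hi]
    exact mul_le_mul_of_nonneg_left (b.bd q hq η) hi

theorem fl_der {c0 : ℕ} {J : Finset ℕ} {U H : Env → Finset ℕ → ℝ} (hU : Past c0 U) (hH : Past c0 H) {p q : Pt} (hp : p.1 < q.1)
    (hcp : (c0 : ℤ) < p.1) (η : Env) (x : ℝ) :
    HasDerivAt (fun t => fl J s U H q (Function.update η p t)) (fl' J s U H p q (Function.update η p x)) x :=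
  (hasDerivAt_fq hU hH hp hcp η x).const_mul _

/-- The field does not see the sites of its row and behind. -/
theorem fl_blind {c0 : ℕ} {J : Finset ℕ} {U H : Env → Finset ℕ → ℝ} (hU : Past c0 U) (hH : Past c0 H) {q r : Pt}
    (hcq : (c0 : ℤ) < q.1) (hr : q.1 ≤ r.1) (η : Env) (x : ℝ) :
    fl J s U H q (Function.update η r x) = fl J s U H q η := by
  show (J.card : ℝ)⁻¹ * fq s U H q (Function.update η r x) = _
  rw [fq_blind hU hH hcq hr]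
  rfl

theorem mem_Sl' {J : Finset ℕ} {q : Pt} (h : q ∈ Sl J N) : ∃ i ∈ J, q.1 = (i : ℤ) := by
  obtain ⟨i, hi, y, _, rfl⟩ := mem_Sl.1 h
  exact ⟨i, hi, rfl⟩

/-- **The insertion of the first field in the second one.** -/
theorem cC_Dc (hQ : GQ N Q) {c0 : ℕ} {J J' : Finset ℕ} (hJ : ∀ m ∈ J, c0 < m ∧ m ≤ N) (hJ' : ∀ z ∈ J', c0 < z ∧ z ≤ N)
    (hJJ : ∀ m ∈ J, ∀ z ∈ J', m ≤ z) {U H : Env → Finset ℕ → ℝ} (hU : Past c0 U) (hH : Past c0 H) (η : Env) :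
    (∑ z ∈ J', (J'.card : ℝ)⁻¹ • cC (wU μ s N Q U η) (pJ 0 z) (H19.Cf (Sl J N) (fl J s U H) nP η) (fp H η)) =
      H19.Cf (Sl J' N) (H19.Dc (Sl J N) (fl J s U H) (fl' J' s U H)) nP η := by
  funext S
  rw [Cf_row (fun i hi => ⟨by have := (hJ' i hi).1; omega, (hJ' i hi).2⟩), Finset.sum_apply]
  refine Finset.sum_congr rfl fun z hz => ?_
  rw [Pi.smul_apply, smul_eq_mul, cC_pJ0]
  have h1 : ∀ q ∈ Sl J N, q.1 ≤ (z : ℤ) := fun q hq => by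
    obtain ⟨i, hi, e⟩ := mem_Sl' hq
    rw [e]
    exact_mod_cast hJJ i hi z hz
  have h2 : ∀ q ∈ Sl J N, (c0 : ℤ) < q.1 := fun q hq => by
    obtain ⟨i, hi, e⟩ := mem_Sl' hq
    rw [e]
    exact_mod_cast (hJ i hi).1
  have h := Dc_fq (μ := μ) (s := s) hQ (hJ' z hz).1.le (hJ' z hz).2 hU hH h1 (fun q _ => fl_meas (J := J) (s := s) hU hH q)
    (fun q hq η r x hr => fl_blind hU hH (h2 q hq) ((h1 q hq).trans hr.le) η x) η S
  have e1 : H19.Cf (Sl J N) (fl J s U H) (nP (Q := Q)) η = fun S' : Px Q => Ph (Sl J N) (fl J s U H) η S'.1 :=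
    Cf_Px (Q := Q) (Sl J N) (fl J s U H) η
  rw [e1]
  show (J'.card : ℝ)⁻¹ * cC (wU μ s N Q U η) (pb z) (fun S' : Px Q => Ph (Sl J N) (fl J s U H) η S'.1)
    (fun S' : Px Q => H η S'.1) S = _
  rw [← h]
  unfold H19.Dc fl'
  rw [Finset.mul_sum]
  refine Finset.sum_congr rfl fun p _ => ?_
  ring

/-! ### The weights -/

theorem nP_bd (q : Pt) (S : Px Q) : |nP q S| ≤ 1 := abs_nn q S.1

theorem Wt_wU {c0 : ℕ} {J : Finset ℕ} (hJ : ∀ m ∈ J, c0 < m ∧ m ≤ N) {U : Env → Finset ℕ → ℝ} (hU : Past c0 U) :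
    Wt (Sl J N) (wU μ s N Q U) nP 1 := by
  refine ⟨measurable_wU hU, fun q hq η x => ?_, fun q _ S => nP_bd q S⟩
  obtain ⟨i, hi, e⟩ := mem_Sl' hq
  exact hasDerivAt_wU hU (by rw [e]; exact_mod_cast (hJ i hi).2) (by rw [e]; exact_mod_cast (hJ i hi).1) η x

omit [Nonempty (Px Q)] in
/-- A function of the past is a functional of the rows `≤ c`. -/
theorem Lk_past {c0 : ℕ} {H : Env → Finset ℕ → ℝ} (hH : Past c0 H) (η : Env) : Lk (Q := Q) 0 c0 (fp H η) := by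
  intro S S' h
  show H η S.1 = H η S'.1
  rw [hH.cut η S.1, hH.cut η S'.1]
  congr 1
  ext k
  simp only [mem_inter, mem_range]
  constructor
  · rintro ⟨h1, h2⟩
    refine ⟨?_, h2⟩
    rw [mem_iff_ps] at h1 ⊢
    rw [← h (k + 1) (Nat.zero_le _) (by omega), ← h k (Nat.zero_le _) (by omega)]
    exact h1
  · rintro ⟨h1, h2⟩
    refine ⟨?_, h2⟩
    rw [mem_iff_ps] at h1 ⊢
    rw [h (k + 1) (Nat.zero_le _) (by omega), h k (Nat.zero_le _) (by omega)]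
    exact h1

omit [Nonempty (Px Q)] in
theorem HdAll_wU [SwQ Q] {c0 : ℕ} {U : Env → Finset ℕ → ℝ} (hU : Past c0 U) (η : Env) : HdAll c0 (wU μ s N Q U η) := by
  have h : wU μ s N Q U η = lw μ s η N Q + fp U η := rfl
  rw [h]
  exact (HdAll_lw η c0).add (HdAll_Lk (Lk_past hU η))

/-! ### The observables -/

theorem cC_cq (hQ : GQ N Q) {c0 m : ℕ} (hm : c0 < m ∧ m ≤ N) {U H K : Env → Finset ℕ → ℝ} (hU : Past c0 U) (hH : Past c0 H)
    (hK : Past c0 K) (η : Env) (S : Px Q) :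
    cC (wU μ s N Q U η) (pJ 0 m) (fp H η) (fp K η) S = cq s U H K ((m : ℤ), ps S m) η := by
  rw [cC_pJ0]
  exact cC_pb hQ hm.1.le hm.2 hU (hH.mono hm.1.le) (hK.mono hm.1.le) η S

theorem cq_meas {c0 : ℕ} {U H K : Env → Finset ℕ → ℝ} (hU : Past c0 U) (hH : Past c0 H) (hK : Past c0 K) (q : Pt) :
    Measurable (cq s U H K q) := H19.meas_cm_two (measurable_vq hU (s := s) q) (measurable_rq hK q) (measurable_rq hH q)

theorem cq_blind {c0 : ℕ} {U H K : Env → Finset ℕ → ℝ} (hU : Past c0 U) (hH : Past c0 H) (hK : Past c0 K) {q r : Pt}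
    (hcq : (c0 : ℤ) < q.1) (hr : q.1 ≤ r.1) (η : Env) (x : ℝ) : cq s U H K q (Function.update η r x) = cq s U H K q η := by
  unfold cq
  rw [vq_blind hU hcq hr, rq_blind hH (lt_of_lt_of_le hcq hr), rq_blind hK (lt_of_lt_of_le hcq hr)]

theorem cq_bd {U H K : Env → Finset ℕ → ℝ} {M : ℝ} (hH : ∀ η S, |H η S| ≤ M) (hK : ∀ η S, |K η S| ≤ M) (q : Pt) (η : Env) :
    |cq s U H K q η| ≤ 2 * (M * M) := H19.abs_cm_two_le (fun T => hH η T.1) fun T => hK η T.1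

/-- The average over the rows `J` of the conditional covariances. -/
def Nf (μ : Measure ℝ) (s : ℝ) (N : ℕ) (J : Finset ℕ) (U H K : Env → Finset ℕ → ℝ) (η : Env) : Px Q → ℝ :=
  avN (wU μ s N Q U η) J (fun _ => (J.card : ℝ)⁻¹) (fun m => pJ 0 m) (fp H η) (fp K η)

theorem Nf_eq (hQ : GQ N Q) {c0 : ℕ} {J : Finset ℕ} (hJ : ∀ m ∈ J, c0 < m ∧ m ≤ N) {U H K : Env → Finset ℕ → ℝ}
    (hU : Past c0 U) (hH : Past c0 H) (hK : Past c0 K) (η : Env) :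
    Nf (Q := Q) μ s N J U H K η = fun S => ∑ m ∈ J, (J.card : ℝ)⁻¹ * cq s U H K ((m : ℤ), ps S m) η := by
  funext S
  unfold Nf avN
  rw [Finset.sum_apply]
  refine Finset.sum_congr rfl fun m hm => ?_
  rw [Pi.smul_apply, smul_eq_mul, cC_cq hQ (hJ m hm) hU hH hK]

theorem Nf_meas (hQ : GQ N Q) {c0 : ℕ} {J : Finset ℕ} (hJ : ∀ m ∈ J, c0 < m ∧ m ≤ N) {U H K : Env → Finset ℕ → ℝ}
    (hU : Past c0 U) (hH : Past c0 H) (hK : Past c0 K) : Measurable (Nf (Q := Q) μ s N J U H K) := by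
  refine measurable_pi_lambda _ fun S => ?_
  have e : (fun η => Nf (Q := Q) μ s N J U H K η S) = fun η => ∑ m ∈ J, (J.card : ℝ)⁻¹ * cq s U H K ((m : ℤ), ps S m) η := by
    funext η
    rw [Nf_eq hQ hJ hU hH hK]
  rw [e]
  exact Finset.measurable_fun_sum _ fun m _ => (cq_meas hU hH hK _).const_mul _

theorem Nf_blind (hQ : GQ N Q) {c0 : ℕ} {J : Finset ℕ} (hJ : ∀ m ∈ J, c0 < m ∧ m ≤ N) {U H K : Env → Finset ℕ → ℝ}
    (hU : Past c0 U) (hH : Past c0 H) (hK : Past c0 K) {r : Pt} (hr : ∀ m ∈ J, (m : ℤ) ≤ r.1) (η : Env) (x : ℝ) :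
    Nf (Q := Q) μ s N J U H K (Function.update η r x) = Nf μ s N J U H K η := by
  rw [Nf_eq hQ hJ hU hH hK, Nf_eq hQ hJ hU hH hK]
  funext S
  refine Finset.sum_congr rfl fun m hm => ?_
  rw [cq_blind hU hH hK (q := ((m : ℤ), ps S m)) (by
    show (c0 : ℤ) < (m : ℤ)
    exact_mod_cast (hJ m hm).1) (hr m hm)]

theorem Nf_bd (hQ : GQ N Q) {c0 : ℕ} {J : Finset ℕ} (hJ : ∀ m ∈ J, c0 < m ∧ m ≤ N) (hn : J.Nonempty)
    {U H K : Env → Finset ℕ → ℝ} (hU : Past c0 U) (hH : Past c0 H) (hK : Past c0 K) {M : ℝ} (bH : ∀ η S, |H η S| ≤ M)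
    (bK : ∀ η S, |K η S| ≤ M) (η : Env) (S : Px Q) : |Nf μ s N J U H K η S| ≤ 2 * (M * M) := by
  rw [Nf_eq hQ hJ hU hH hK]
  have hc : (0 : ℝ) < J.card := Nat.cast_pos.2 hn.card_pos
  refine (Finset.abs_sum_le_sum_abs _ _).trans ((Finset.sum_le_sum fun m _ => ?_).trans_eq (?_ :
    ∑ _m ∈ J, (J.card : ℝ)⁻¹ * (2 * (M * M)) = _))
  · rw [abs_mul, abs_of_nonneg (by positivity : (0 : ℝ) ≤ (J.card : ℝ)⁻¹)]
    exact mul_le_mul_of_nonneg_left (cq_bd bH bK _ η) (by positivity)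
  · rw [Finset.sum_const, nsmul_eq_mul]
    field_simp

theorem Obs_QN {m0 m1 : ℕ} {a f : Env → Px Q → ℝ} (ma : Measurable a) (mf : Measurable f) {A D : ℝ} (ba : ∀ η S, |a η S| ≤ A)
    (bf : ∀ η S, |f η S| ≤ D) : Obs (fun η => QN m0 m1 (a η) (f η)) (2 * (A * D)) := by
  have m1' : ∀ S, Measurable fun η => a η S := fun S => (measurable_pi_apply S).comp ma
  have m2' : ∀ S, Measurable fun η => f η S := fun S => (measurable_pi_apply S).comp mf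
  refine ⟨measurable_pi_lambda _ fun x => ?_, fun η x => ?_⟩
  · unfold QN
    exact ((((m1' _).sub (m1' _)).mul ((m2' _).sub (m2' _))).mul_const _).const_mul _
  · unfold QN
    have h1 : |a η (x 0) - a η (x 1)| ≤ 2 * A := (abs_sub _ _).trans (by linarith [ba η (x 0), ba η (x 1)])
    have h2 : |f η (x 0) - f η (x 1)| ≤ 2 * D := (abs_sub _ _).trans (by linarith [bf η (x 0), bf η (x 1)])
    have h3 : |NI m0 m1 (x 0) (x 1)| ≤ 1 := by
      unfold NI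
      split_ifs <;> norm_num
    have hA : 0 ≤ 2 * A := (abs_nonneg _).trans h1
    have hD : 0 ≤ 2 * D := (abs_nonneg _).trans h2
    rw [abs_mul, abs_mul, abs_mul, abs_of_nonneg (by norm_num : (0 : ℝ) ≤ 1 / 2)]
    have h4 := mul_le_mul h1 h2 (abs_nonneg _) hA
    have h5 := mul_le_mul h4 h3 (abs_nonneg _) (mul_nonneg hA hD)
    calc 1 / 2 * (|a η (x 0) - a η (x 1)| * |f η (x 0) - f η (x 1)| * |NI m0 m1 (x 0) (x 1)|) ≤
          1 / 2 * ((2 * A) * (2 * D) * 1) := mul_le_mul_of_nonneg_left h5 (by norm_num)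
      _ = 2 * (A * D) := by ring

/-! ### (E1), pathwise, in the fields -/

variable [SwQ Q]

/-- **(E1) averaged over `z` in the fields**: the two slab term, the derivative of the second field, the two micro terms. -/
theorem E1_fld (hQ : GQ N Q) {c0 m0' m1 : ℕ} {J J' : Finset ℕ} (h01 : c0 ≤ m0') (h11 : m0' ≤ m1) (h1N : m1 ≤ N)
    (hJ : ∀ m ∈ J, c0 < m ∧ m ≤ m0') (hJ' : ∀ z ∈ J', m0' < z ∧ z ≤ m1) (hn : J.Nonempty) {U H HW : Env → Finset ℕ → ℝ}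
    (hU : Past c0 U) (hH : Past c0 H) (hW : Past c0 HW) {f : Env → Px Q → ℝ} (hf : ∀ η, Rk m1 (f η)) (η : Env) :
    ∑ z ∈ J', (J'.card : ℝ)⁻¹ * DX (pJ 0 z) (wU μ s N Q U η) (fp H η) [[fp HW η], [fp H η]] [f η] =
      ((repEv (Px Q) 4).ev (wU μ s N Q U η) ((repDr (Px Q) 3).ins (H19.Cf (Sl J' N) (fl J' s U H) nP η)
          ((repDr (Px Q) 2).ins (H19.Cf (Sl J N) (fl J s U H) nP η) (QN c0 m1 (fp HW η) (f η)))) +
        (repEv (Px Q) 3).ev (wU μ s N Q U η) ((repDr (Px Q) 2).ins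
          (H19.Cf (Sl J' N) (H19.Dc (Sl J N) (fl J s U H) (fl' J' s U H)) nP η) (QN c0 m1 (fp HW η) (f η)))) +
      ((repEv (Px Q) 3).ev (wU μ s N Q U η) ((repDr (Px Q) 2).ins (H19.Cf (Sl J' N) (fl J' s U H) nP η)
          (QN m0' m1 (Nf μ s N J U H HW η) (f η))) +
        (repEv (Px Q) 3).ev (wU μ s N Q U η) ((repDr (Px Q) 2).ins (H19.Cf (Sl J' N) (fl J' s U HW) nP η)
          (QN m0' m1 (Nf μ s N J U H H η) (f η)))) := by
  have jN : ∀ m ∈ J, c0 < m ∧ m ≤ N := fun m hm => ⟨(hJ m hm).1, (hJ m hm).2.trans (h11.trans h1N)⟩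
  have jN' : ∀ z ∈ J', c0 < z ∧ z ≤ N := fun z hz => ⟨h01.trans_lt (hJ' z hz).1, (hJ' z hz).2.trans h1N⟩
  have hc : (J.card : ℝ) ≠ 0 := by
    have := hn.card_pos
    positivity
  have hθ : ∑ _m ∈ J, (J.card : ℝ)⁻¹ = 1 := by
    rw [Finset.sum_const, nsmul_eq_mul, mul_inv_cancel₀ hc]
  have key := E1_NI (m0 := c0) (m0' := m0') (m1 := m1) (J := J) (J' := J') (θ := fun _ => (J.card : ℝ)⁻¹)
    (θ' := fun _ => (J'.card : ℝ)⁻¹) (HdAll_wU (μ := μ) (s := s) (N := N) (Q := Q) hU η) (Lk_past hH η) (Lk_past hW η) (hf η) h01 h11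
    (fun m hm => ⟨(hJ m hm).1.le, (hJ m hm).2⟩) (fun z hz => ⟨(hJ' z hz).1.le, (hJ' z hz).2⟩) hθ
  rw [key, avC_Cf hQ jN hU hH, avC_Cf hQ jN' hU hH, avC_Cf hQ jN' hU hW,
    cC_Dc hQ jN jN' (fun m hm z hz => (hJ m hm).2.trans (hJ' z hz).1.le) hU hH]
  rw [repDr_swap, repEv_ev, repEv_ev, repEv_ev, repEv_ev]
  simp only [repDr_ins]
  rfl

/-! ### (E1) in expectation, with boxes -/

section Box

variable {B : Type*} [Fintype B] [DecidableEq B]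

/-- The mean of the absolute value of a pair functional. -/
def I2 (μ : Measure ℝ) (w : Env → Px Q → ℝ) (Ψ : Env → (Fin 2 → Px Q) → ℝ) : ℝ :=
  ∫ η, (repEv (Px Q) 2).ev (w η) (fun x => |Ψ η x|) ∂(law μ)

/-- The far term of one insertion in a pair functional. -/
def I3 (μ : Measure ℝ) (w : Env → Px Q → ℝ) (b : Px Q → B) (R : Env → (Fin 2 → B) → Px Q → ℝ)
    (Ψ : Env → (Fin 2 → Px Q) → ℝ) : ℝ :=
  ∫ η, (repEv (Px Q) 3).ev (w η) (fun y => |(repDr (Px Q) 2).insR b (R η) (Ψ η) y|) ∂(law μ)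

/-- The far term of two insertions in a pair functional. -/
def I4 (μ : Measure ℝ) (w : Env → Px Q → ℝ) (b : Px Q → B) (R' : Env → (Fin 3 → B) → Px Q → ℝ)
    (R : Env → (Fin 2 → B) → Px Q → ℝ) (Ψ : Env → (Fin 2 → Px Q) → ℝ) : ℝ :=
  ∫ η, (repEv (Px Q) 4).ev (w η) (fun y => |(repDr (Px Q) 3).insR b (R' η)
    ((repDr (Px Q) 2).insR b (R η) (Ψ η)) y|) ∂(law μ)

/-- **(E1) WITH BOXES**, one kicked row, one tilt. -/
theorem E1_box [IsProbabilityMeasure μ] {fd fd' : ℝ → ℝ} (h : DenLaw μ fd fd') {K θ0 : ℝ} (hs : SG μ (sc fd fd') K θ0)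
    (hQ : GQ N Q) {c0 m0' m1 : ℕ} {J J' : Finset ℕ} (h01 : c0 ≤ m0') (h11 : m0' ≤ m1) (h1N : m1 ≤ N)
    (hJ : ∀ m ∈ J, c0 < m ∧ m ≤ m0') (hJ' : ∀ z ∈ J', m0' < z ∧ z ≤ m1) (hn : J.Nonempty) (hn' : J'.Nonempty)
    {U H HW : Env → Finset ℕ → ℝ}
    (hU : Past c0 U) (hH : Past c0 H) (hW : Past c0 HW) {M : ℝ} (hM : 0 ≤ M) (bH : ∀ η S, |H η S| ≤ M)
    (bW : ∀ η S, |HW η S| ≤ M) {f : Env → Px Q → ℝ} {D : ℝ} (hf : ∀ η, Rk m1 (f η)) (mf : Measurable f)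
    (bf : ∀ η S, |f η S| ≤ D) (ff : ∀ q ∈ Sl J N, ∀ (η : Env) (x : ℝ), f (Function.update η q x) = f η)
    (ff' : ∀ q ∈ Sl J' N, ∀ (η : Env) (x : ℝ), f (Function.update η q x) = f η)
    (b : Px Q → B) {χ1 χ2 : (Fin 2 → B) → Pt → ℝ} {χ3 : (Fin 3 → B) → Pt → ℝ} (z1 : ∀ β p, 0 ≤ χ1 β p)
    (u1 : ∀ β p, χ1 β p ≤ 1) (z2 : ∀ β p, 0 ≤ χ2 β p) (u2 : ∀ β p, χ2 β p ≤ 1) (z3 : ∀ β p, 0 ≤ χ3 β p)
    (u3 : ∀ β p, χ3 β p ≤ 1) {t1 t2 a1 a2 Q1 Q2 Q3 : ℝ} (q1 : 0 < t1) (q2 : 0 < t2)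
    (r1 : 2 * t1 * ((J.card : ℝ)⁻¹ * M) ≤ θ0) (r2 : 2 * t2 * ((J'.card : ℝ)⁻¹ * M) ≤ θ0)
    (hQ1 : ∀ β η, QV (Sl J N) (cut (χ1 β) (fl J s U H)) η ≤ Q1)
    (hQ2 : ∀ β η, QV (Sl J' N) (cut (χ2 β) (fl J' s U H)) η ≤ Q2)
    (hQ2' : ∀ β η, QV (Sl J' N) (cut (χ2 β) (fl J' s U HW)) η ≤ Q2)
    (hQ3 : ∀ β η, QV (Sl J' N) (cut (χ3 β) (fl J' s U H)) η ≤ Q3) (ha1 : 0 ≤ a1) (ha2 : 0 ≤ a2) :
    |∫ η, ∑ z ∈ J', (J'.card : ℝ)⁻¹ * DX (pJ 0 z) (wU μ s N Q U η) (fp H η) [[fp HW η], [fp H η]] [f η] ∂(law μ)| ≤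
      ((a1 * a2 * I2 μ (wU μ s N Q U) (fun η => QN c0 m1 (fp HW η) (f η)) +
        (Fintype.card (Fin 2 → B) : ℝ) * tail2 K (2 * (M * D)) t1 t2 a1 a2 Q1 Q2) +
      (a1 * I3 μ (wU μ s N Q U) b (farF χ2 (Sl J' N) (fl J' s U H) nP) (fun η => QN c0 m1 (fp HW η) (f η)) +
        (Fintype.card (Fin 2 → B) : ℝ) * tail1 K (2 * (M * D) * ((repDr (Px Q) 2).sz * ((Sl J' N).card *
          ((J'.card : ℝ)⁻¹ * M * 1)))) t1 a1 Q1) +
      (a2 * I3 μ (wU μ s N Q U) b (farF χ1 (Sl J N) (fl J s U H) nP) (fun η => QN c0 m1 (fp HW η) (f η)) +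
        (Fintype.card (Fin 3 → B) : ℝ) * tail1 K (2 * (M * D) * ((repDr (Px Q) 2).sz * ((Sl J N).card *
          ((J.card : ℝ)⁻¹ * M * 1)))) t2 a2 Q3 +
        I4 μ (wU μ s N Q U) b (farF χ3 (Sl J' N) (fl J' s U H) nP) (farF χ1 (Sl J N) (fl J s U H) nP)
          (fun η => QN c0 m1 (fp HW η) (f η))) +
      I3 μ (wU μ s N Q U) b (dwF χ1 (Sl J N) (Sl J' N) (fl J s U H) (fl' J' s U H) nP)
        (fun η => QN c0 m1 (fp HW η) (f η))) +
      ((a2 * I2 μ (wU μ s N Q U) (fun η => QN m0' m1 (Nf μ s N J U H HW η) (f η)) +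
        (Fintype.card (Fin 2 → B) : ℝ) * tail1 K (2 * (2 * (M * M) * D)) t2 a2 Q2 +
        I3 μ (wU μ s N Q U) b (farF χ2 (Sl J' N) (fl J' s U H) nP) (fun η => QN m0' m1 (Nf μ s N J U H HW η) (f η))) +
      (a2 * I2 μ (wU μ s N Q U) (fun η => QN m0' m1 (Nf μ s N J U H H η) (f η)) +
        (Fintype.card (Fin 2 → B) : ℝ) * tail1 K (2 * (2 * (M * M) * D)) t2 a2 Q2 +
        I3 μ (wU μ s N Q U) b (farF χ2 (Sl J' N) (fl J' s U HW) nP) (fun η => QN m0' m1 (Nf μ s N J U H H η) (f η)))) := by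
  have jN : ∀ m ∈ J, c0 < m ∧ m ≤ N := fun m hm => ⟨(hJ m hm).1, (hJ m hm).2.trans (h11.trans h1N)⟩
  have jN' : ∀ z ∈ J', c0 < z ∧ z ≤ N := fun z hz => ⟨h01.trans_lt (hJ' z hz).1, (hJ' z hz).2.trans h1N⟩
  have s1 : ∀ q ∈ Sl J N, (c0 : ℤ) < q.1 := fun q hq => by
    obtain ⟨i, hi, e⟩ := mem_Sl' hq
    rw [e]
    exact_mod_cast (jN i hi).1
  have s2 : ∀ q ∈ Sl J' N, (c0 : ℤ) < q.1 := fun q hq => by
    obtain ⟨i, hi, e⟩ := mem_Sl' hq
    rw [e]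
    exact_mod_cast (jN' i hi).1
  have s12 : ∀ p ∈ Sl J N, ∀ q ∈ Sl J' N, p.1 < q.1 := fun p hp q hq => by
    obtain ⟨i, hi, e⟩ := mem_Sl' hp
    obtain ⟨k, hk, e'⟩ := mem_Sl' hq
    rw [e, e']
    exact_mod_cast (hJ i hi).2.trans_lt (hJ' k hk).1
  have hd : Disjoint (Sl J N) (Sl J' N) := Finset.disjoint_left.2 fun p hp hp' => lt_irrefl _ (s12 p hp p hp')
  have w1 := Wt_wU (μ := μ) (s := s) (Q := Q) jN hU
  have w2 := Wt_wU (μ := μ) (s := s) (Q := Q) jN' hU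
  have mH : ∀ {G : Env → Finset ℕ → ℝ}, Past c0 G → Measurable (fp (Q := Q) G) := fun hG =>
    measurable_pi_lambda _ fun S => hG.ms S.1
  have bHp : ∀ η (S : Px Q), |fp H η S| ≤ M := fun η S => bH η S.1
  have bWp : ∀ η (S : Px Q), |fp HW η S| ≤ M := fun η S => bW η S.1
  have oG : Obs (fun η => QN c0 m1 (fp (Q := Q) HW η) (f η)) (2 * (M * D)) := Obs_QN (mH hW) mf bWp bf
  have oN : Obs (fun η => QN m0' m1 (Nf (Q := Q) μ s N J U H HW η) (f η)) (2 * (2 * (M * M) * D)) :=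
    Obs_QN (Nf_meas hQ jN hU hH hW) mf (Nf_bd hQ jN hn hU hH hW bH bW) bf
  have oN' : Obs (fun η => QN m0' m1 (Nf (Q := Q) μ s N J U H H η) (f η)) (2 * (2 * (M * M) * D)) :=
    Obs_QN (Nf_meas hQ jN hU hH hH) mf (Nf_bd hQ jN hn hU hH hH bH bH) bf
  have pb : ∀ {G : Env → Finset ℕ → ℝ}, Past c0 G → ∀ q : Pt, (c0 : ℤ) < q.1 → ∀ (η : Env) (x : ℝ),
      fp (Q := Q) G (Function.update η q x) = fp G η := fun hG q hq η x => by
    funext S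
    exact hG.bl η S.1 q x hq
  have g1 : ∀ q ∈ Sl J N, ∀ (η : Env) (x : ℝ), QN c0 m1 (fp (Q := Q) HW (Function.update η q x)) (f (Function.update η q x)) =
      QN c0 m1 (fp HW η) (f η) := fun q hq η x => by rw [pb hW q (s1 q hq), ff q hq]
  have g2 : ∀ q ∈ Sl J' N, ∀ (η : Env) (x : ℝ), QN c0 m1 (fp (Q := Q) HW (Function.update η q x)) (f (Function.update η q x)) =
      QN c0 m1 (fp HW η) (f η) := fun q hq η x => by rw [pb hW q (s2 q hq), ff' q hq]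
  have nb : ∀ {G G' : Env → Finset ℕ → ℝ}, Past c0 G → Past c0 G' → ∀ q ∈ Sl J' N, ∀ (η : Env) (x : ℝ),
      QN m0' m1 (Nf (Q := Q) μ s N J U G G' (Function.update η q x)) (f (Function.update η q x)) =
        QN m0' m1 (Nf μ s N J U G G' η) (f η) := fun hG hG' q hq η x => by
    have hr : ∀ m ∈ J, (m : ℤ) ≤ q.1 := fun m hm => by
      obtain ⟨k, hk, e'⟩ := mem_Sl' hq
      rw [e']
      exact_mod_cast ((hJ m hm).2.trans_lt (hJ' k hk).1).le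
    rw [Nf_blind hQ jN hU hG hG' hr, ff' q hq]
  have iM : (0 : ℝ) ≤ (J.card : ℝ)⁻¹ * M := by positivity
  have iM' : (0 : ℝ) ≤ (J'.card : ℝ)⁻¹ * M := by positivity
  have b1 := fl_BF (s := s) (J := J) hU hH bH s1
  have b2 := fl_BF (s := s) (J := J') hU hH bH s2
  have b2' := fl_BF (s := s) (J := J') hU hW bW s2
  have b3 : ∀ p ∈ Sl J N, H19.BF (Sl J' N) (fl' J' s U H p) ((J'.card : ℝ)⁻¹ * (2 * (1 * M))) := fun p _ =>
    fl_BF' (s := s) (J := J') hU hH bH s2 p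
  have h12 : ∀ p ∈ Sl J N, ∀ q ∈ Sl J' N, ∀ (η : Env) (x : ℝ), fl J s U H p (Function.update η q x) = fl J s U H p η :=
    fun p hp q hq η x => fl_blind hU hH (s1 p hp) (s12 p hp q hq).le η x
  have hc2 : ∀ p ∈ Sl J N, ∀ q ∈ Sl J' N, ∀ (η : Env) (x : ℝ), HasDerivAt (fun t => fl J' s U H q (Function.update η p t))
      (fl' J' s U H p q (Function.update η p x)) x := fun p hp q hq η x => fl_der hU hH (s12 p hp q hq) (s1 p hp) η x
  have A := box_seqG (repDr (Px Q) 2) (repDr (Px Q) 3) (repDr_swap 2) h hs hd b1 b2 b3 iM iM' h12 hc2 w1 w2 oG g1 g2 b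
    z1 u1 z2 u2 z3 u3 q1 q2 r1 r2 hQ1 hQ2 hQ3 ha1 ha2
  have r2' : t2 * ((J'.card : ℝ)⁻¹ * M) ≤ θ0 := by nlinarith
  have B1 := box_oneG (repDr (Px Q) 2) h hs b2 iM' w2 oN (nb hH hW) b z2 u2 q2 ha2 r2' hQ2
  have B2 := box_oneG (repDr (Px Q) 2) h hs b2' iM' w2 oN' (nb hH hH) b z2 u2 q2 ha2 r2' hQ2'
  have c2 : ∀ η (y : Px Q), |H19.Cf (Sl J' N) (fl J' s U H) nP η y| ≤ (Sl J' N).card * ((J'.card : ℝ)⁻¹ * M * 1) :=
    fun η y => abs_Cf_le b2.bd w2.bd η y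
  have c2' : ∀ η (y : Px Q), |H19.Cf (Sl J' N) (fl J' s U HW) nP η y| ≤ (Sl J' N).card * ((J'.card : ℝ)⁻¹ * M * 1) :=
    fun η y => abs_Cf_le b2'.bd w2.bd η y
  have k1 := (oN.ins (repDr (Px Q) 2) (meas_Cf b2.meas nP) c2).int (μ := μ) (repEv (Px Q) 3) w1.meas
  have k2 := (oN'.ins (repDr (Px Q) 2) (meas_Cf b2'.meas nP) c2').int (μ := μ) (repEv (Px Q) 3) w1.meas
  have bD : H19.BF (Sl J' N) (H19.Dc (Sl J N) (fl J s U H) (fl' J' s U H)) ((Sl J N).card *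
      ((J.card : ℝ)⁻¹ * M * ((J'.card : ℝ)⁻¹ * (2 * (1 * M))))) := b1.dc b3 h12
  have c1 : ∀ η (y : Px Q), |H19.Cf (Sl J N) (fl J s U H) nP η y| ≤ (Sl J N).card * ((J.card : ℝ)⁻¹ * M * 1) :=
    fun η y => abs_Cf_le b1.bd w1.bd η y
  have k3 := ((oG.ins (repDr (Px Q) 2) (meas_Cf b1.meas nP) c1).ins (repDr (Px Q) 3) (meas_Cf b2.meas nP) c2).int (μ := μ)
    (repEv (Px Q) 4) w1.meas
  have k4 := (oG.ins (repDr (Px Q) 2) (meas_Cf bD.meas nP) fun η y => abs_Cf_le bD.bd w2.bd η y).int (μ := μ)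
    (repEv (Px Q) 3) w1.meas
  have e : ∀ η, ∑ z ∈ J', (J'.card : ℝ)⁻¹ * DX (pJ 0 z) (wU μ s N Q U η) (fp H η) [[fp HW η], [fp H η]] [f η] = _ :=
    fun η => E1_fld (μ := μ) (s := s) hQ h01 h11 h1N hJ hJ' hn hU hH hW hf η
  simp_rw [e]
  have k34 := k3.add k4
  have k12 := k1.add k2
  have i1 := integral_add k34 k12
  have i2 := integral_add k1 k2
  simp only [Pi.add_apply] at i1
  rw [i1, i2]
  refine (abs_add_le _ _).trans (add_le_add A ((abs_add_le _ _).trans (add_le_add B1 B2)))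

end Box

end

end Pool.Agent.W_7d29a1_C0.E1A82
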