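import Pool.Agent.W_7d29a1_C0.E1A82
import Pool.Agent.W_7d29a1_C0.Tube73

/-!
CURV0 (MP_7d29a1_pr), leaf E1g, part B: `E1_box` with the tubes of helper73: boxes of width `R` for the position at the row `mb`,
slabs of `≥ k` rows each, free parameter `A` (the score factors are `≤ A M (R / k) ^ (1/2)` up to `exp (-A / 2)`). (helper82)
-/

set_option autoImplicit false
set_option linter.unusedSectionVars false
set_option linter.unusedVariables false

namespace Pool.Agent.W_7d29a1_C0.E1B82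

open Finset MeasureTheory
open Pool.Agent.W_7d29a1_C0 Pool.Agent.W_7d29a1_C0.Mod92 Pool.Agent.W_7d29a1_C0.Swap57 Pool.Agent.W_7d29a1_C0.NM82
open Pool.Agent.W_7d29a1_C0.E1A82
open Pool.Agent.W_7d29a1_F Pool.Agent.W_7d29a1_X Pool.Agent.W_7d29a1_C0.H32
open Pool.W7d29a1.C0 Pool.W7d29a1.C0.VT31 Pool.W7d29a1.C0.Fld19 Pool.W7d29a1.C0.H41 Pool.W7d29a1.C0.T73

noncomputable section

variable {μ : Measure ℝ} {s : ℝ} {N : ℕ} {Q : Finset (Finset ℕ)}

/-- The position at an integer row. -/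
def pa (S : Px Q) (m : ℤ) : ℤ := ps S m.toNat

theorem vis_nP : Vis (pa (Q := Q)) nP where
  nonneg p S := nn_nonneg p S.1
  le_one p S := nn_le_one p S.1
  on p S h := by
    unfold nP nn at h
    by_contra h'
    exact h (if_neg fun h2 => h' h2.2)

/-- The rows as integers. -/
def Jz (J : Finset ℕ) : Finset ℤ := J.image fun m : ℕ => (m : ℤ)

theorem card_Jz (J : Finset ℕ) : (Jz J).card = J.card :=
  Finset.card_image_of_injective J fun a b h => by exact_mod_cast h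

theorem Jz_ne {J : Finset ℕ} (h : J.Nonempty) : (Jz J).Nonempty := h.image _

theorem Sl_Jz {J : Finset ℕ} : ∀ p ∈ Sl J N, p.1 ∈ Jz J := fun p hp => by
  obtain ⟨i, hi, e⟩ := mem_Sl' hp
  rw [e]
  exact Finset.mem_image_of_mem _ hi

theorem fq_bd {U H : Env → Finset ℕ → ℝ} {M : ℝ} (hH : ∀ η S, |H η S| ≤ M) (q : Pt) (η : Env) : |fq s U H q η| ≤ M :=
  H19.abs_gm_le_of fun T => hH η T.1

theorem fl_bd {J : Finset ℕ} {U H : Env → Finset ℕ → ℝ} {M : ℝ} (hH : ∀ η S, |H η S| ≤ M) (q : Pt) (η : Env) :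
    |fl J s U H q η| ≤ M / (Jz J).card := by
  rw [card_Jz]
  unfold fl
  rw [abs_mul, abs_of_nonneg (by positivity : (0 : ℝ) ≤ (J.card : ℝ)⁻¹), div_eq_inv_mul]
  exact mul_le_mul_of_nonneg_left (fq_bd hH q η) (by positivity)

/-- The quadratic variation of the field in the tubes of `≤ 3` boxes. -/
theorem QV_fl {ι : Type*} [Fintype ι] (hι : Fintype.card ι ≤ 3) {J : Finset ℕ} (hn : J.Nonempty) {U H : Env → Finset ℕ → ℝ} {M : ℝ}
    (hH : ∀ η S, |H η S| ≤ M) {sl R : ℝ} (hR : 1 ≤ R) (mb : ℤ) {n : ℕ} (β : ι → Fin (n + 1)) (η : Env) :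
    QV (Sl J N) (cut (chT sl R mb β) (fl J s U H)) η ≤ 21 * M ^ 2 * (R / J.card) := by
  have h := QV_chT (sl := sl) (R := R) (m0 := mb) (n := n) (J := Jz J) (S := Sl J N) Sl_Jz hR (Jz_ne hn) (c := fl J s U H)
    (M := M) η (fun p _ => fl_bd hH p η) β
  rw [card_Jz] at h
  refine h.trans ?_
  have h1 : (Fintype.card ι : ℝ) ≤ 3 := by exact_mod_cast hι
  have h2 : 0 ≤ R * M ^ 2 / J.card := by positivity
  calc 7 * (Fintype.card ι : ℝ) * R * M ^ 2 / J.card = (7 * (Fintype.card ι : ℝ)) * (R * M ^ 2 / J.card) := by ring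
    _ ≤ (7 * 3) * (R * M ^ 2 / J.card) := mul_le_mul_of_nonneg_right (by linarith) h2
    _ = 21 * M ^ 2 * (R / J.card) := by ring

theorem sz_two (X : Type*) [Fintype X] [Nonempty X] : (repDr X 2).sz = 4 := by
  show ∑ j, |(Fin.cons (-((2 : ℕ) : ℝ)) fun _ => 1 : Fin (2 + 1) → ℝ) j| = 4
  rw [Fin.sum_univ_succ]
  simp only [Fin.cons_zero, Fin.cons_succ, abs_one, Finset.sum_const, Finset.card_univ, Fintype.card_fin]
  norm_num

theorem sz_three (X : Type*) [Fintype X] [Nonempty X] : (repDr X 3).sz = 6 := by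
  show ∑ j, |(Fin.cons (-((3 : ℕ) : ℝ)) fun _ => 1 : Fin (3 + 1) → ℝ) j| = 6
  rw [Fin.sum_univ_succ]
  simp only [Fin.cons_zero, Fin.cons_succ, abs_one, Finset.sum_const, Finset.card_univ, Fintype.card_fin]
  norm_num

theorem card_Sl (J : Finset ℕ) : (Sl J N).card = J.card * (N + 1) := by
  unfold Sl
  rw [Finset.card_map, Finset.card_product, Finset.card_range]

/-- The exponentially small terms of one score factor. -/
theorem tail1_eq {K D r A : ℝ} (hr : 0 < r) : tail1 K D (1 / r) (A * r) (21 * r ^ 2) =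
    D * (4 * r * Real.exp (-(A / 2)) * Real.exp (21 * K)) := by
  unfold tail1
  have e1 : 1 / r * (A * r) / 2 = A / 2 := by field_simp
  have e2 : K * (1 / r) ^ 2 * (21 * r ^ 2) = 21 * K := by field_simp
  have e3 : 2 / (1 / r) = 2 * r := by field_simp
  rw [e1, e2, e3]
  ring

theorem tail2_eq {K D r A : ℝ} (hr : 0 < r) : tail2 K D (1 / r) (1 / r) (A * r) (A * r) (21 * r ^ 2) (21 * r ^ 2) =
    D * (8 * r ^ 2 * Real.exp (-(A / 2)) * Real.exp (84 * K)) := by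
  unfold tail2
  have e1 : 1 / r * (A * r) / 2 = A / 2 := by field_simp
  have e2 : 4 * K * (1 / r) ^ 2 * (21 * r ^ 2) = 84 * K := by
    field_simp
    ring
  rw [e1, e2]
  field_simp
  ring

variable [Nonempty (Px Q)] [SwQ Q]

/-- The exponentially small term of (E1). -/
def tE (K M D : ℝ) (N : ℕ) (A : ℝ) : ℝ := 112 * M ^ 3 * D * (N + 1) ^ 4 * Real.exp (84 * K) * Real.exp (-(A / 2))

/-- **(E1) WITH TUBES**, one kicked row, one tilt: gain `A M (R / k) ^ (1/2)` for every score factor. -/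
theorem E1_tube [IsProbabilityMeasure μ] {fd fd' : ℝ → ℝ} (h : DenLaw μ fd fd') {K θ0 : ℝ} (hs : SG μ (sc fd fd') K θ0)
    (hK : 0 ≤ K) (hQ : GQ N Q) {c0 m0' m1 : ℕ} {J J' : Finset ℕ} (h01 : c0 ≤ m0') (h11 : m0' ≤ m1) (h1N : m1 ≤ N)
    (hJ : ∀ m ∈ J, c0 < m ∧ m ≤ m0') (hJ' : ∀ z ∈ J', m0' < z ∧ z ≤ m1) {k : ℕ} (hk : 0 < k) (kJ : k ≤ J.card)
    (kJ' : k ≤ J'.card) {U H HW : Env → Finset ℕ → ℝ}
    (hU : Past c0 U) (hH : Past c0 H) (hW : Past c0 HW) {M : ℝ} (hM : 0 < M) (bH : ∀ η S, |H η S| ≤ M)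
    (bW : ∀ η S, |HW η S| ≤ M) {f : Env → Px Q → ℝ} {D : ℝ} (hD : 0 ≤ D) (hf : ∀ η, Rk m1 (f η)) (mf : Measurable f)
    (bf : ∀ η S, |f η S| ≤ D) (ff : ∀ q ∈ Sl J N, ∀ (η : Env) (x : ℝ), f (Function.update η q x) = f η)
    (ff' : ∀ q ∈ Sl J' N, ∀ (η : Env) (x : ℝ), f (Function.update η q x) = f η)
    {sl R : ℝ} (hR : 1 ≤ R) (hRk : R ≤ k) (mb : ℤ) (hθ : 2 ≤ θ0 * Real.sqrt (R * k)) {A : ℝ} (hA : 0 ≤ A) :
    |∫ η, ∑ z ∈ J', (J'.card : ℝ)⁻¹ * DX (pJ 0 z) (wU μ s N Q U η) (fp H η) [[fp HW η], [fp H η]] [f η] ∂(law μ)| ≤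
      ((A * (M * Real.sqrt (R / k))) ^ 2 * I2 μ (wU μ s N Q U) (fun η => QN c0 m1 (fp HW η) (f η)) +
      A * (M * Real.sqrt (R / k)) * (I2 μ (wU μ s N Q U) (fun η => QN m0' m1 (Nf μ s N J U H HW η) (f η)) +
        I2 μ (wU μ s N Q U) (fun η => QN m0' m1 (Nf μ s N J U H H η) (f η)))) +
      (A * (M * Real.sqrt (R / k)) * (I3 μ (wU μ s N Q U) (bx pa R mb N) (farF (chT sl R mb) (Sl J' N) (fl J' s U H) nP)
          (fun η => QN c0 m1 (fp HW η) (f η)) +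
        I3 μ (wU μ s N Q U) (bx pa R mb N) (farF (chT sl R mb) (Sl J N) (fl J s U H) nP)
          (fun η => QN c0 m1 (fp HW η) (f η))) +
      I4 μ (wU μ s N Q U) (bx pa R mb N) (farF (chT sl R mb) (Sl J' N) (fl J' s U H) nP)
        (farF (chT sl R mb) (Sl J N) (fl J s U H) nP) (fun η => QN c0 m1 (fp HW η) (f η)) +
      I3 μ (wU μ s N Q U) (bx pa R mb N) (dwF (chT sl R mb) (Sl J N) (Sl J' N) (fl J s U H) (fl' J' s U H) nP)
        (fun η => QN c0 m1 (fp HW η) (f η)) +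
      I3 μ (wU μ s N Q U) (bx pa R mb N) (farF (chT sl R mb) (Sl J' N) (fl J' s U H) nP)
        (fun η => QN m0' m1 (Nf μ s N J U H HW η) (f η)) +
      I3 μ (wU μ s N Q U) (bx pa R mb N) (farF (chT sl R mb) (Sl J' N) (fl J' s U HW) nP)
        (fun η => QN m0' m1 (Nf μ s N J U H H η) (f η))) + tE K M D N A := by
  have k0 : (0 : ℝ) < k := by exact_mod_cast hk
  have hJn : J.Nonempty := Finset.card_pos.1 (hk.trans_le kJ)
  have hJn' : J'.Nonempty := Finset.card_pos.1 (hk.trans_le kJ')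
  have cJ : (k : ℝ) ≤ J.card := by exact_mod_cast kJ
  have cJ' : (k : ℝ) ≤ J'.card := by exact_mod_cast kJ'
  have hRk0 : 0 < R / k := by positivity
  set r : ℝ := M * Real.sqrt (R / k) with hr
  have r0 : 0 < r := mul_pos hM (Real.sqrt_pos.2 hRk0)
  have rsq : r ^ 2 = M ^ 2 * (R / k) := by rw [hr, mul_pow, Real.sq_sqrt hRk0.le]
  have rM : r ≤ M := by
    have : Real.sqrt (R / k) ≤ 1 := Real.sqrt_le_one.2 ((div_le_one k0).2 hRk)
    calc r ≤ M * 1 := mul_le_mul_of_nonneg_left this hM.le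
      _ = M := mul_one M
  have hq : ∀ {c : ℝ}, (k : ℝ) ≤ c → 21 * M ^ 2 * (R / c) ≤ 21 * r ^ 2 := fun {c} hc => by
    rw [rsq]
    have h1 : R / c ≤ R / k := div_le_div_of_nonneg_left (by linarith) k0 hc
    have h2 : (0 : ℝ) ≤ 21 * M ^ 2 := by positivity
    nlinarith [mul_le_mul_of_nonneg_left h1 h2]
  have hθ' : ∀ {c : ℝ}, (k : ℝ) ≤ c → 2 * (1 / r) * (c⁻¹ * M) ≤ θ0 := fun {c} hc => by
    have hc0 : 0 < c := k0.trans_le hc
    have e1 : Real.sqrt (R / k) * k = Real.sqrt (R * k) := by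
      have : R * k = R / k * (k * k) := by field_simp
      rw [this, Real.sqrt_mul hRk0.le, Real.sqrt_mul_self k0.le]
    have hs0 := Real.sqrt_pos.2 hRk0
    have e2 : 2 * (1 / r) * (c⁻¹ * M) = 2 / (Real.sqrt (R / k) * c) := by
      rw [hr]
      field_simp
    rw [e2, div_le_iff₀ (mul_pos hs0 hc0)]
    have hθ0 : 0 ≤ θ0 := by
      by_contra hneg
      push Not at hneg
      have := mul_nonpos_of_nonpos_of_nonneg hneg.le (Real.sqrt_nonneg (R * k))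
      linarith
    have e3 : Real.sqrt (R * k) ≤ Real.sqrt (R / k) * c := by
      rw [← e1]
      exact mul_le_mul_of_nonneg_left hc hs0.le
    exact hθ.trans (mul_le_mul_of_nonneg_left e3 hθ0)
  have key := E1_box h hs hQ h01 h11 h1N hJ hJ' hJn hJn' hU hH hW hM.le bH bW hf mf bf ff ff' (bx pa R mb N)
    (χ1 := chT sl R mb) (χ2 := chT sl R mb) (χ3 := chT sl R mb) chT_nonneg chT_le_one chT_nonneg chT_le_one chT_nonneg
    chT_le_one (t1 := 1 / r) (t2 := 1 / r) (a1 := A * r) (a2 := A * r) (Q1 := 21 * r ^ 2) (Q2 := 21 * r ^ 2) (Q3 := 21 * r ^ 2)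
    (by positivity) (by positivity) (hθ' cJ) (hθ' cJ')
    (fun β η => (QV_fl (by simp) hJn bH hR mb β η).trans (hq cJ))
    (fun β η => (QV_fl (by simp) hJn' bH hR mb β η).trans (hq cJ'))
    (fun β η => (QV_fl (by simp) hJn' bW hR mb β η).trans (hq cJ'))
    (fun β η => (QV_fl (by simp) hJn' bH hR mb β η).trans (hq cJ')) (by positivity) (by positivity) (s := s)
  refine key.trans ?_
  have cB : (Fintype.card (Fin 2 → Fin (N + 1)) : ℝ) = ((N : ℝ) + 1) ^ 2 := by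
    rw [Fintype.card_fun, Fintype.card_fin, Fintype.card_fin]
    push_cast
    ring
  have cB3 : (Fintype.card (Fin 3 → Fin (N + 1)) : ℝ) = ((N : ℝ) + 1) ^ 3 := by
    rw [Fintype.card_fun, Fintype.card_fin, Fintype.card_fin]
    push_cast
    ring
  have cS : ∀ {I : Finset ℕ}, I.Nonempty → ((Sl I N).card : ℝ) * ((I.card : ℝ)⁻¹ * M * 1) = (N + 1) * M := fun {I} hI => by
    have : (I.card : ℝ) ≠ 0 := by
      have := hI.card_pos
      positivity
    rw [card_Sl]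
    push_cast
    field_simp
  rw [cB, cB3, cS hJn, cS hJn', sz_two, tail2_eq r0, tail1_eq r0, tail1_eq r0]
  have hT : ((N : ℝ) + 1) ^ 2 * (2 * (M * D) * (8 * r ^ 2 * Real.exp (-(A / 2)) * Real.exp (84 * K))) +
      ((N : ℝ) + 1) ^ 2 * (2 * (M * D) * (4 * ((N + 1) * M)) * (4 * r * Real.exp (-(A / 2)) * Real.exp (21 * K))) +
      ((N : ℝ) + 1) ^ 3 * (2 * (M * D) * (4 * ((N + 1) * M)) * (4 * r * Real.exp (-(A / 2)) * Real.exp (21 * K))) +
      2 * (((N : ℝ) + 1) ^ 2 * (2 * (2 * (M * M) * D) * (4 * r * Real.exp (-(A / 2)) * Real.exp (21 * K)))) ≤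
      tE K M D N A := by
    have hN : (1 : ℝ) ≤ (N : ℝ) + 1 := by
      have : (0 : ℝ) ≤ N := Nat.cast_nonneg N
      linarith
    have e21 : Real.exp (21 * K) ≤ Real.exp (84 * K) := Real.exp_le_exp.2 (by linarith)
    set n1 : ℝ := (N : ℝ) + 1 with hn1
    set x : ℝ := Real.exp (-(A / 2)) with hx
    set y : ℝ := Real.exp (84 * K) with hy
    set y' : ℝ := Real.exp (21 * K) with hy'
    have hx0 : 0 ≤ x := (Real.exp_pos _).le
    have hy0 : 0 ≤ y := (Real.exp_pos _).le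
    have hy0' : 0 ≤ y' := (Real.exp_pos _).le
    have n2 : n1 ^ 2 ≤ n1 ^ 4 := pow_le_pow_right₀ hN (by norm_num)
    have n3 : n1 ^ 3 ≤ n1 ^ 4 := pow_le_pow_right₀ hN (by norm_num)
    have r2 : r ^ 2 ≤ M ^ 2 := pow_le_pow_left₀ r0.le rM 2
    have b1 : n1 ^ 2 * (2 * (M * D) * (8 * r ^ 2 * x * y)) ≤ 16 * (M ^ 3 * D * n1 ^ 4 * y * x) := by
      have h1 : n1 ^ 2 * r ^ 2 ≤ n1 ^ 4 * M ^ 2 := mul_le_mul n2 r2 (by positivity) (by positivity)
      have h2 : (0 : ℝ) ≤ 16 * (M * D * x * y) := by positivity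
      have h3 := mul_le_mul_of_nonneg_left h1 h2
      calc n1 ^ 2 * (2 * (M * D) * (8 * r ^ 2 * x * y)) = 16 * (M * D * x * y) * (n1 ^ 2 * r ^ 2) := by ring
        _ ≤ 16 * (M * D * x * y) * (n1 ^ 4 * M ^ 2) := h3
        _ = 16 * (M ^ 3 * D * n1 ^ 4 * y * x) := by ring
    have h2 : (0 : ℝ) ≤ 32 * (M ^ 2 * D * x) := by positivity
    have bb : ∀ {v : ℝ}, 0 ≤ v → v ≤ n1 ^ 4 → 32 * (M ^ 2 * D * x) * (v * r * y') ≤ 32 * (M ^ 3 * D * n1 ^ 4 * y * x) :=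
      fun {v} v0 hv => by
        have h1 : v * r * y' ≤ n1 ^ 4 * M * y := mul_le_mul (mul_le_mul hv rM r0.le (by positivity)) e21 hy0' (by positivity)
        calc 32 * (M ^ 2 * D * x) * (v * r * y') ≤ 32 * (M ^ 2 * D * x) * (n1 ^ 4 * M * y) := mul_le_mul_of_nonneg_left h1 h2
          _ = 32 * (M ^ 3 * D * n1 ^ 4 * y * x) := by ring
    have b2 := bb (v := n1 ^ 3) (by positivity) n3
    have b3 := bb (v := n1 ^ 4) (by positivity) le_rfl
    have b4 := bb (v := n1 ^ 2) (by positivity) n2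
    have e2 : n1 ^ 2 * (2 * (M * D) * (4 * (n1 * M)) * (4 * r * x * y')) = 32 * (M ^ 2 * D * x) * (n1 ^ 3 * r * y') := by ring
    have e3 : n1 ^ 3 * (2 * (M * D) * (4 * (n1 * M)) * (4 * r * x * y')) = 32 * (M ^ 2 * D * x) * (n1 ^ 4 * r * y') := by ring
    have e4 : 2 * (n1 ^ 2 * (2 * (2 * (M * M) * D) * (4 * r * x * y'))) = 32 * (M ^ 2 * D * x) * (n1 ^ 2 * r * y') := by ring
    have e5 : 112 * M ^ 3 * D * n1 ^ 4 * y * x = 112 * (M ^ 3 * D * n1 ^ 4 * y * x) := by ring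
    unfold tE
    rw [← hn1, ← hx, ← hy, e5, e2, e3, e4]
    linarith [b1, b2, b3, b4]
  set i1 := I2 μ (wU μ s N Q U) fun η => QN c0 m1 (fp HW η) (f η)
  set i2 := I2 μ (wU μ s N Q U) fun η => QN m0' m1 (Nf μ s N J U H HW η) (f η)
  set i3 := I2 μ (wU μ s N Q U) fun η => QN m0' m1 (Nf μ s N J U H H η) (f η)
  have e6 : A * r * (A * r) * i1 = (A * r) ^ 2 * i1 := by ring
  linarith [hT]

end

end Pool.Agent.W_7d29a1_C0.E1B82
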