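import Pool.Agent.W_7d29a1_C0.Num46C

/-!
MP_7d29a1_pr, [CURV0], leaf E1 (helper19): THE NUMBERS OF (E1) at the block length `r`, base `b`, fine window `b0`, part `l` of the gap:
`num19`. Below `N ^ (1 - Θ / 8)` the tubes have the width of the slab, above it the cone is used.
-/

set_option autoImplicit false
set_option linter.unusedSimpArgs false

namespace Pool.Agent.W_7d29a1_C0.E1U19

open Pool.Agent.W_7d29a1_C0

/-- The scales of (E1), up to `N ^ ν`. -/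
structure Nm19 (E : ℕ → ℝ) (δ c ν N : ℝ) (b b0 r l : ℕ) : Prop where
  hr : Rg46 δ N r
  hl : Rg46 (δ / 2) N l
  l16 : 16 * l ≤ r
  lr : N ^ (-ν) * r ≤ l
  b1 : 1 ≤ b0
  bb : b0 ≤ b
  bl : N ^ (-ν) * b ≤ b0
  pin : N ^ c * E r ≤ E b ^ 2

variable {E w : ℕ → ℝ} {c₀ Θ δ a ε ν c N : ℝ} {b b0 r l d : ℕ}

namespace Nm19

theorem l1 (R : Reg46 E w c₀ Θ (δ / 2) a ε N) (X : Nm19 E δ c ν N b b0 r l) : 1 ≤ l := R.one_le X.hl.lo

theorem r0 (R : Reg46 E w c₀ Θ (δ / 2) a ε N) (X : Nm19 E δ c ν N b b0 r l) : (0 : ℝ) < r := X.hr.pos R.N1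

theorem hr' (R : Reg46 E w c₀ Θ (δ / 2) a ε N) (X : Nm19 E δ c ν N b b0 r l) : Rg46 (δ / 2) N r where
  lo := (Real.rpow_le_rpow_of_exponent_le R.N1.le (by linarith [R.δ0])).trans X.hr.lo
  hi := X.hr.hi

theorem h16 (R : Reg46 E w c₀ Θ (δ / 2) a ε N) (X : Nm19 E δ c ν N b b0 r l) : Rg46 (δ / 2) N (16 * l) where
  lo := X.hl.lo.trans (by exact_mod_cast (by omega : l ≤ 16 * l))
  hi := le_trans (by exact_mod_cast X.l16) X.hr.hi

/-- `x - ν ≤ y`. -/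
theorem f1 (R : Reg46 E w c₀ Θ (δ / 2) a ε N) (X : Nm19 E δ c ν N b b0 r l) :
    Real.logb N r - ν ≤ Real.logb N l := by
  have hN := R.N0
  have hr := X.r0 R
  have h := to_lg46 R.N1 (by positivity) X.lr
  rw [Real.logb_mul (by positivity) (by positivity), lgN46 R.N1] at h
  linarith

theorem f2 (R : Reg46 E w c₀ Θ (δ / 2) a ε N) (X : Nm19 E δ c ν N b b0 r l) (h : ε ≤ ν) :
    Real.logb N (E r) ≤ Real.logb N (E l) + 2 * ν := by
  have h1 := R.lhalf (X.l1 R) ((by omega : l ≤ 16 * l).trans X.l16)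
  have h2 := X.f1 R
  have h3 := R.ε0
  linarith

theorem f4 (R : Reg46 E w c₀ Θ (δ / 2) a ε N) (X : Nm19 E δ c ν N b b0 r l) (h : ε ≤ ν) :
    Real.logb N (w (16 * l)) ≤ 2 * Real.logb N (E r) + ν := by
  have h1 := R.lw (X.h16 R)
  have h2 := R.lmono (t := 16 * l) (r := r) X.l16
  linarith

theorem f5 (R : Reg46 E w c₀ Θ (δ / 2) a ε N) (X : Nm19 E δ c ν N b b0 r l) (h : ε ≤ ν) :
    c + Real.logb N (E r) ≤ 2 * Real.logb N (E b0) + 3 * ν := by
  have hN := R.N0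
  have hb : (0 : ℝ) < b := by exact_mod_cast (lt_of_lt_of_le X.b1 X.bb)
  have hEr := R.Epos r
  have hEb := R.Epos b
  have h1 := R.lhalf X.b1 X.bb
  have h2 := to_lg46 R.N1 (by positivity) X.bl
  rw [Real.logb_mul (by positivity) (by positivity), lgN46 R.N1] at h2
  have h3 := to_lg46 R.N1 (by positivity) X.pin
  rw [Real.logb_mul (by positivity) (by positivity), lgN46 R.N1, Real.logb_pow] at h3
  push_cast at h3
  linarith

/-- Two small monomials in one. -/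
theorem two (R : Reg46 E w c₀ Θ (δ / 2) a ε N) (h : ε ≤ ν) {A B C g : ℝ} (hC : 0 ≤ C) (hA : A ≤ N ^ (7 * ν - g) * C)
    (hB : B ≤ N ^ (7 * ν - g) * C) : A + B ≤ N ^ (8 * ν - g) * C := by
  have hN := R.N0
  have h1 : (2 : ℝ) ≤ N ^ ν := by
    have h2 := R.K
    have h3 : N ^ ε ≤ N ^ ν := Real.rpow_le_rpow_of_exponent_le R.N1.le h
    linarith
  have e : N ^ (8 * ν - g) * C = N ^ ν * (N ^ (7 * ν - g) * C) := by
    rw [← mul_assoc, ← Real.rpow_add hN]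
    congr 2
    ring
  rw [e]
  have h4 : 0 ≤ N ^ (7 * ν - g) * C := mul_nonneg (Real.rpow_nonneg hN.le _) hC
  nlinarith

end Nm19

/-- The terms of (E1) with the width `W` in logarithms at most `2 E_r + t`. -/
theorem terms19 (R : Reg46 E w c₀ Θ (δ / 2) a ε N) (h : ε ≤ ν) (X : Nm19 E δ c ν N b b0 r l) (hΘ1 : Θ ≤ 1) (hc : 0 ≤ c) {W : ℝ}
    (hW : 0 < W) (hW1 : Real.logb N W ≤ 2 * Real.logb N (E r) + Θ / 8 + 3 * ν) :
    r * (W / l * √((E l)⁻¹)) ≤ N ^ (7 * ν - Θ ^ 2 / 16) * √(r * N ^ Θ) ∧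
      √(W / l) * (r * (√((E r)⁻¹) * √((E l)⁻¹))) ≤ N ^ (7 * ν - Θ ^ 2 / 16) * √(r * N ^ Θ) ∧
      √(W / l) * (r * ((E b0)⁻¹ * √((E l)⁻¹))) ≤ N ^ (7 * ν - Θ ^ 2 / 16) * √(r * N ^ Θ) := by
  have hN := R.N0
  have hr := X.r0 R
  have hl : (0 : ℝ) < l := by exact_mod_cast X.l1 R
  have hEr := R.Epos r
  have hEl := R.Epos l
  have hEb := R.Epos b0
  have f1 := X.f1 R
  have f2 := X.f2 R h
  have f5 := X.f5 R h
  have st := R.lst (X.hr' R)
  have x0 : 0 ≤ Real.logb N r := by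
    have := X.hr.lx R.N1
    have := R.δ0
    linarith
  have st' : 3 * Real.logb N (E r) ≤ Real.logb N r := by
    have : 0 ≤ 3 * c₀ * Real.logb N r := mul_nonneg (by linarith [R.c₀0]) x0
    linarith
  have hg : Θ ^ 2 / 16 ≤ Θ / 16 := by
    have := R.Θ0
    nlinarith
  have hν : 0 < ν := lt_of_lt_of_le R.ε0 h
  have hΘ := R.Θ0
  refine ⟨of_lg46 R.N1 (by positivity) (by positivity) ?_, of_lg46 R.N1 (by positivity) (by positivity) ?_,
    of_lg46 R.N1 (by positivity) (by positivity) ?_⟩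
  · simp (disch := positivity) only [Real.sqrt_eq_rpow, Real.logb_mul, Real.logb_div, Real.logb_pow, Real.logb_inv,
      Real.logb_rpow_eq_mul_logb_of_pos, Real.logb_one, Nat.cast_ofNat, lgNN46 R.N1]
    linarith
  · simp (disch := positivity) only [Real.sqrt_eq_rpow, Real.logb_mul, Real.logb_div, Real.logb_pow, Real.logb_inv,
      Real.logb_rpow_eq_mul_logb_of_pos, Real.logb_one, Nat.cast_ofNat, lgNN46 R.N1]
    linarith
  · simp (disch := positivity) only [Real.sqrt_eq_rpow, Real.logb_mul, Real.logb_div, Real.logb_pow, Real.logb_inv,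
      Real.logb_rpow_eq_mul_logb_of_pos, Real.logb_one, Nat.cast_ofNat, lgNN46 R.N1]
    linarith

/-- **THE NUMBERS OF (E1).** -/
theorem num19 (R : Reg46 E w c₀ Θ (δ / 2) a ε N) (h : ε ≤ ν) (X : Nm19 E δ c ν N b b0 r l) (hΘ1 : Θ ≤ 1) (hc : 0 ≤ c)
    (hrd : r ≤ d) (hdN : (d : ℝ) ≤ N) : ∃ w' p' : ℝ, (w' = w (16 * l) / l ∧ p' = (E (16 * l))⁻¹ ∨ w' = w d / l ∧ p' = 0) ∧
      w' ≤ N ^ (3 * ν - δ / 6) ∧
      r * ((w' + p') * √((E l)⁻¹)) ≤ N ^ (8 * ν - Θ ^ 2 / 16) * √(r * N ^ Θ) ∧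
      √w' * (r * ((√((E r)⁻¹) + (E b0)⁻¹) * √((E l)⁻¹))) ≤ N ^ (8 * ν - Θ ^ 2 / 16) * √(r * N ^ Θ) := by
  have hN := R.N0
  have hr := X.r0 R
  have hl : (0 : ℝ) < l := by exact_mod_cast X.l1 R
  have hEr := R.Epos r
  have hEl := R.Epos l
  have hE16 := R.Epos (16 * l)
  have hν : 0 < ν := lt_of_lt_of_le R.ε0 h
  have hΘ := R.Θ0
  have hC : 0 ≤ √((r : ℝ) * N ^ Θ) := Real.sqrt_nonneg _
  have f1 := X.f1 R
  have f2 := X.f2 R h
  have f4 := X.f4 R h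
  have st := R.lst (X.hr' R)
  have lx := X.hr.lx R.N1
  have lx1 := X.hr.lx1 R.N1
  have hδ := R.δ0
  have st' : 3 * Real.logb N (E r) ≤ Real.logb N r := by
    have : 0 ≤ 3 * c₀ * Real.logb N r := mul_nonneg (by linarith [R.c₀0]) (by linarith)
    linarith
  rcases le_or_gt (Real.logb N r) (1 - Θ / 8) with hx | hx
  · have hw16 : 0 < w (16 * l) := R.w0 _ (by have := X.l1 R; omega)
    obtain ⟨t1, t2, t3⟩ := terms19 R h X hΘ1 hc hw16 (by linarith)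
    refine ⟨w (16 * l) / l, (E (16 * l))⁻¹, Or.inl ⟨rfl, rfl⟩, ?_, ?_, ?_⟩
    · refine le_pow46 R.N1 (by positivity) ?_
      rw [Real.logb_div (by positivity) (by positivity)]
      linarith
    · have e : (r : ℝ) * ((w (16 * l) / l + (E (16 * l))⁻¹) * √((E l)⁻¹)) =
          r * (w (16 * l) / l * √((E l)⁻¹)) + r * ((E (16 * l))⁻¹ * √((E l)⁻¹)) := by ring
      rw [e]
      refine Nm19.two R h hC t1 (of_lg46 R.N1 (by positivity) (by positivity) ?_)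
      have k1 := R.lkap (X.hr' R)
      have k2 : (Θ + ε) * Real.logb N r ≤ Θ * (1 - Θ / 8) + ε := by
        have k3 := mul_le_mul_of_nonneg_left hx hΘ.le
        have k4 := mul_le_mul_of_nonneg_left lx1 R.ε0.le
        linarith
      have k5 := R.lmono (t := l) (r := 16 * l) (by omega)
      simp (disch := positivity) only [Real.sqrt_eq_rpow, Real.logb_mul, Real.logb_div, Real.logb_pow, Real.logb_inv,
        Real.logb_rpow_eq_mul_logb_of_pos, Real.logb_one, Nat.cast_ofNat, lgNN46 R.N1]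
      nlinarith
    · have e : √(w (16 * l) / l) * (r * ((√((E r)⁻¹) + (E b0)⁻¹) * √((E l)⁻¹))) =
          √(w (16 * l) / l) * (r * (√((E r)⁻¹) * √((E l)⁻¹))) + √(w (16 * l) / l) * (r * ((E b0)⁻¹ * √((E l)⁻¹))) := by ring
      rw [e]
      exact Nm19.two R h hC t2 t3
  · have hd : Rg46 (δ / 2) N d := ⟨(X.hr' R).lo.trans (by exact_mod_cast hrd), hdN⟩
    have hwd : 0 < w d := R.w0 _ (hd.npos R.N1)
    have d1 := R.lw hd
    have d2 := R.lhalf (t := r) (r := d) (by exact_mod_cast (X.hr.npos R.N1)) hrd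
    have d3 := hd.lx1 R.N1
    obtain ⟨t1, t2, t3⟩ := terms19 R h X hΘ1 hc hwd (by linarith)
    refine ⟨w d / l, 0, Or.inr ⟨rfl, rfl⟩, ?_, ?_, ?_⟩
    · refine le_pow46 R.N1 (by positivity) ?_
      rw [Real.logb_div (by positivity) (by positivity)]
      have d4 := R.lst hd
      have d5 : 0 ≤ 3 * c₀ * Real.logb N d := mul_nonneg (by linarith [R.c₀0]) (by have := hd.lx R.N1; linarith)
      linarith
    · rw [add_zero]
      refine t1.trans (mul_le_mul_of_nonneg_right (Real.rpow_le_rpow_of_exponent_le R.N1.le (by linarith)) hC)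
    · have e : √(w d / l) * (r * ((√((E r)⁻¹) + (E b0)⁻¹) * √((E l)⁻¹))) =
          √(w d / l) * (r * (√((E r)⁻¹) * √((E l)⁻¹))) + √(w d / l) * (r * ((E b0)⁻¹ * √((E l)⁻¹))) := by ring
      rw [e]
      exact Nm19.two R h hC t2 t3

end Pool.Agent.W_7d29a1_C0.E1U19
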