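import Pool.Agent.W_7d29a1_C0.Te93
import Pool.Agent.W_7d29a1_C0.Two57

/-!
CURV0 (MP_7d29a1_pr), leaf (T), piece T.c: THE CLASSES OF THE OWN CLOSINGS. `M` = the rows at which the pair of replicas meets, the window
of the row is `[v, e]`. `ld M v` = distance to the last meeting at or before `v`, `rd M e` = distance to the first meeting at or behind `e`;
`dy u t` = dyadic index of `t` relative to the unit `u` (`0`: `t < u`; `k + 1`: `2 ^ k u ≤ t < 2 ^ (k + 1) u`). `Cls` = both indices are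
given; a function of the meetings outside of the window, so it is not sensitive to the inside of the window (`Cls_congr`, `Cls_mp`).
`sum_Cls` = the exact partition; `Cls_open` = open up to the slab; `Cls_clo` = the input of `T93.sum_win_le`; `Cls_op` = the input of
`T93.OpR_far`; `NM_Cls` = on the support `NM` one of the two cases holds. (helper93)
-/

set_option autoImplicit false
set_option linter.unusedSectionVars false
set_option linter.unusedVariables false

namespace Pool.Agent.W_7d29a1_C0.T93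

open Finset MeasureTheory
open Pool.Agent.W_7d29a1_C0.Clo14 (CloR CloL)

noncomputable section

/-! ### Distances to the meetings and dyadic indices -/

/-- The distance to the first meeting at or behind `e`. -/
def rd (M : ℕ → Prop) (e : ℕ) : ℕ := sInf {t | M (e + t)}

/-- The distance to the last meeting at or before `v`. -/
def ld (M : ℕ → Prop) (v : ℕ) : ℕ := sInf {t | t ≤ v ∧ M (v - t)}

/-- The dyadic index of `t` relative to the unit `u`. -/
def dy (u t : ℕ) : ℕ := if t < u then 0 else Nat.log 2 (t / u) + 1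

variable {M M' : ℕ → Prop} {v e : ℕ}

theorem rd_spec (h : ∃ m, e ≤ m ∧ M m) : M (e + rd M e) := by
  obtain ⟨m, h1, h2⟩ := h
  have h3 : ({t | M (e + t)} : Set ℕ).Nonempty := ⟨m - e, by
    show M (e + (m - e))
    rw [Nat.add_sub_cancel' h1]
    exact h2⟩
  exact Nat.sInf_mem h3

theorem rd_le {m : ℕ} (h1 : e ≤ m) (h2 : M m) : rd M e ≤ m - e := by
  refine Nat.sInf_le ?_
  show M (e + (m - e))
  rw [Nat.add_sub_cancel' h1]
  exact h2

/-- No meeting before the first one. -/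
theorem not_of_rd {i : ℕ} (h1 : e ≤ i) (h2 : i < e + rd M e) : ¬ M i := fun h => by
  have := rd_le h1 h
  omega

theorem ld_spec (hM0 : M 0) : ld M v ≤ v ∧ M (v - ld M v) := by
  have h3 : ({t | t ≤ v ∧ M (v - t)} : Set ℕ).Nonempty := ⟨v, le_rfl, by rw [Nat.sub_self]; exact hM0⟩
  exact Nat.sInf_mem h3

theorem ld_le {m : ℕ} (h1 : m ≤ v) (h2 : M m) : ld M v ≤ v - m := by
  refine Nat.sInf_le ⟨Nat.sub_le _ _, ?_⟩
  rw [Nat.sub_sub_self h1]
  exact h2

theorem not_of_ld {i : ℕ} (h1 : i ≤ v) (h2 : v < i + ld M v) : ¬ M i := fun h => by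
  have := ld_le h1 h
  omega

/-- The distances look at the rows outside of the window only. -/
theorem rd_congr (h : ∀ i, e ≤ i → (M i ↔ M' i)) : rd M e = rd M' e := by
  unfold rd
  congr 1
  ext t
  exact h (e + t) (Nat.le_add_right _ _)

theorem ld_congr (h : ∀ i, i ≤ v → (M i ↔ M' i)) : ld M v = ld M' v := by
  unfold ld
  congr 1
  ext t
  constructor
  · rintro ⟨h1, h2⟩
    exact ⟨h1, (h _ (Nat.sub_le _ _)).1 h2⟩
  · rintro ⟨h1, h2⟩
    exact ⟨h1, (h _ (Nat.sub_le _ _)).2 h2⟩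

theorem dy_zero {u t : ℕ} : dy u t = 0 ↔ t < u := by
  unfold dy
  by_cases h : t < u
  · rw [if_pos h]
    exact ⟨fun _ => h, fun _ => rfl⟩
  · rw [if_neg h]
    constructor
    · intro h'
      omega
    · exact fun h' => absurd h' h

theorem dy_succ {u t k : ℕ} (hu : 0 < u) : dy u t = k + 1 ↔ 2 ^ k * u ≤ t ∧ t < 2 ^ (k + 1) * u := by
  unfold dy
  by_cases h : t < u
  · rw [if_pos h]
    constructor
    · intro h'
      omega
    · rintro ⟨h1, _⟩
      have : 1 * u ≤ 2 ^ k * u := Nat.mul_le_mul_right _ Nat.one_le_two_pow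
      omega
  · rw [if_neg h]
    have hq : t / u ≠ 0 := by
      rw [Ne, Nat.div_eq_zero_iff]
      omega
    have h1 : Nat.log 2 (t / u) + 1 = k + 1 ↔ Nat.log 2 (t / u) = k := by omega
    rw [h1, Nat.log_eq_iff (Or.inr ⟨by norm_num, hq⟩), Nat.le_div_iff_mul_le hu, Nat.div_lt_iff_lt_mul hu]

/-- The index is bounded. -/
theorem dy_lt {u t K : ℕ} (hu : 0 < u) (h : t < 2 ^ K * u) : dy u t < K + 1 := by
  by_contra hc
  obtain ⟨k, hk⟩ : ∃ k, dy u t = k + 1 := ⟨dy u t - 1, by omega⟩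
  have h1 := ((dy_succ hu).1 hk).1
  have h2 : 2 ^ K ≤ 2 ^ k := Nat.pow_le_pow_right (by norm_num) (by omega)
  have h3 := Nat.mul_le_mul_right u h2
  omega

/-! ### The classes -/

/-- The left distance has the index `i` (unit `ρ`), the right distance has the index `k` (unit `u`). -/
def Cls (ρ u : ℕ) (M : ℕ → Prop) (v e i k : ℕ) : Prop := dy ρ (ld M v) = i ∧ dy u (rd M e) = k

theorem Cls_congr {ρ u i k : ℕ} (h1 : ∀ i, i ≤ v → (M i ↔ M' i)) (h2 : ∀ i, e ≤ i → (M i ↔ M' i)) :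
    Cls ρ u M v e i k ↔ Cls ρ u M' v e i k := by
  unfold Cls
  rw [ld_congr h1, rd_congr h2]

/-- **The exact partition.** -/
theorem sum_Cls {ρ u I K : ℕ} (hρ : 0 < ρ) (hu : 0 < u) (hl : ld M v < 2 ^ I * ρ) (hr : rd M e < 2 ^ K * u) :
    ∑ i ∈ range (I + 1), ∑ k ∈ range (K + 1), ind (Cls ρ u M v e i k) = 1 := by
  have h1 : dy ρ (ld M v) ∈ range (I + 1) := mem_range.2 (dy_lt hρ hl)
  have h2 : dy u (rd M e) ∈ range (K + 1) := mem_range.2 (dy_lt hu hr)
  rw [sum_eq_single_of_mem _ h1, sum_eq_single_of_mem _ h2]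
  · exact ind_of ⟨rfl, rfl⟩
  · intro k _ hk
    exact ind_of_not fun h => hk h.2.symm
  · intro i _ hi
    exact sum_eq_zero fun k _ => ind_of_not fun h => hi h.1.symm

/-- Open on the right over `2 ^ k u` rows: the slab `(e + 2 ^ k u / 4, e + 2 ^ k u / 2]` is before the closing. -/
theorem Cls_open {ρ u i k : ℕ} (hu : 0 < u) (h : Cls ρ u M v e i (k + 1)) {m : ℕ} (h1 : e ≤ m) (h2 : m < e + 2 ^ k * u) : ¬ M m :=
  not_of_rd h1 (by have := ((dy_succ hu).1 h.2).1; omega)

/-- The first meeting behind the window is within `2 ^ (k + 1) u` rows (`u` rows for the class `0`). -/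
theorem Cls_meet {ρ u i k : ℕ} (hu : 0 < u) (hex : ∃ m, e ≤ m ∧ M m) (h : Cls ρ u M v e i k) :
    ∃ m, e ≤ m ∧ m < e + 2 ^ k * u ∧ M m ∧ ∀ i, e ≤ i → i < m → ¬ M i := by
  refine ⟨e + rd M e, by omega, ?_, rd_spec hex, fun i h1 h2 => not_of_rd h1 h2⟩
  rcases k with _ | k
  · have := dy_zero.1 h.2
    rw [pow_zero, one_mul]
    omega
  · have := ((dy_succ hu).1 h.2).2
    omega

/-- Open on the left over `2 ^ i ρ` rows. -/
theorem Cls_left {ρ u i k : ℕ} (hρ : 0 < ρ) (h : Cls ρ u M v e (i + 1) k) {m : ℕ} (h1 : v < m + 2 ^ i * ρ) (h2 : m ≤ v) : ¬ M m :=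
  not_of_ld h2 (by have := ((dy_succ hρ).1 h.1).1; omega)

/-- **The input of the count** `sum_win_le`: left index `i + 1`, right index `k`, window of length at most `b`. -/
theorem Cls_clo {ρ u i k b : ℕ} (hρ : 0 < ρ) (hu : 0 < u) (hve : v ≤ e) (hb : e ≤ v + b) (hex : ∃ m, e ≤ m ∧ M m)
    (h : Cls ρ u M v e (i + 1) k) {ρ' : ℕ} (hρ' : ρ' < 2 ^ i * ρ) : CloR M ρ' 0 (b + 2 ^ k * u) v := by
  classical
  obtain ⟨m, h1, h2, h3, h4⟩ := Cls_meet hu hex h
  have hv : ¬ M v := Cls_left hρ h (m := v) (by omega) le_rfl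
  refine ⟨fun a ha1 ha2 => Cls_left hρ h (by omega) ha2, ?_⟩
  -- the first meeting behind `v`
  have hE : ∃ t, v < t ∧ M t := ⟨m, lt_of_le_of_ne (hve.trans h1) (fun hc => hv (hc ▸ h3)), h3⟩
  refine ⟨Nat.find hE, by have := (Nat.find_spec hE).1; omega, ?_, (Nat.find_spec hE).2, fun a ha1 ha2 hc => ?_⟩
  · have := Nat.find_min' hE (m := m) ⟨lt_of_le_of_ne (hve.trans h1) (fun hc => hv (hc ▸ h3)), h3⟩
    omega
  · exact Nat.find_min hE ha2 ⟨by omega, hc⟩

/-- **The input of** `OpR_far`: right index `k + 1`. -/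
theorem Cls_op {ρ u i k : ℕ} (hu : 0 < u) (hex : ∃ m, e ≤ m ∧ M m) (h : Cls ρ u M v e i (k + 1)) : OpR M (2 ^ k * u) e := by
  obtain ⟨m, h1, h2, h3, h4⟩ := Cls_meet hu hex h
  have h6 : e + 2 ^ k * u ≤ m := by
    by_contra hc
    exact Cls_open hu h h1 (by omega) h3
  have h7 : 2 ^ (k + 1) * u = 2 * (2 ^ k * u) := by ring
  rw [h7] at h2
  exact ⟨m, h6, h2, h3, h4⟩

/-- If the pair does not meet in `[c, v]` or does not meet in `[e, d]`, then the class is of the left type (open on the left over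
`ρ` rows) or of the right type (open on the right over `ρ` rows). -/
theorem Cls_supp {ρ u i k K0 c d : ℕ} (hρ : 0 < ρ) (hu : 0 < u) (hc : c + ρ ≤ v + 1) (hd : e + ρ ≤ d + 1) (hK : 2 ^ K0 * u ≤ ρ)
    (hM0 : M 0) (hex : ∃ m, e ≤ m ∧ M m) (h : Cls ρ u M v e i k)
    (hs : (∀ m, c ≤ m → m ≤ v → ¬ M m) ∨ ∀ m, e ≤ m → m ≤ d → ¬ M m) : 1 ≤ i ∨ K0 + 1 ≤ k := by
  rcases hs with hs | hs
  · left
    by_contra hi
    have hi0 : i = 0 := by omega
    rw [hi0] at h
    have h1 := dy_zero.1 h.1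
    obtain ⟨h2, h3⟩ := ld_spec (v := v) hM0
    exact hs (v - ld M v) (by omega) (by omega) h3
  · right
    by_contra hk
    have h1 : rd M e < ρ := by
      rcases k with _ | k
      · have h2 := dy_zero.1 h.2
        have h3 : 1 * u ≤ 2 ^ K0 * u := Nat.mul_le_mul_right _ Nat.one_le_two_pow
        omega
      · have h2 := ((dy_succ hu).1 h.2).2
        have h3 : 2 ^ (k + 1) ≤ 2 ^ K0 := Nat.pow_le_pow_right (by norm_num) (by omega)
        have h4 := Nat.mul_le_mul_right u h3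
        omega
    exact hs (e + rd M e) (by omega) (by omega) (rd_spec hex)

/-! ### The pair of paths -/

open Pool.Agent.W_7d29a1_C0.Mod92 Pool.Agent.W_7d29a1_C0.Swap57 Pool.Agent.W_7d29a1_F
open Pool.W7d29a1.C0.VT31 (Mp cE cV)

variable {Q : Finset (Finset ℕ)}

theorem Eqp_zero (S S' : Px Q) : Eqp S S' 0 := by
  unfold Eqp
  rw [ps_zero, ps_zero]

/-- The meetings outside of the block `[c, d)` depend on the outsides of the block only. -/
theorem Eqp_out {c d : ℕ} {S S' S1 : Px Q} (h : pJ c d S = pJ c d S1) {i : ℕ} (hi : i ≤ c ∨ d ≤ i) :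
    Eqp S S' i ↔ Eqp S1 S' i := by
  unfold Eqp
  rcases hi with hi | hi
  · rw [ps_of_le h hi]
  · rw [ps_of_ge h hi]

theorem Eqp_out' {c d : ℕ} {S S' S1 : Px Q} (h : pJ c d S = pJ c d S1) {i : ℕ} (hi : i ≤ c ∨ d ≤ i) :
    Eqp S' S i ↔ Eqp S' S1 i := by
  rw [Eqp_symm S S', Eqp_symm S1 S']
  exact Eqp_out h hi

/-- The class of a pair of paths. -/
def PCls (ρ u v e i k : ℕ) (S S' : Px Q) : Prop := Cls ρ u (Eqp S S') v e i k

/-- **The class does not look inside of the window**: first and second path. -/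
theorem PCls_out {ρ u v e i k : ℕ} {S S' S1 : Px Q} (h : pJ v e S = pJ v e S1) :
    PCls ρ u v e i k S S' ↔ PCls ρ u v e i k S1 S' :=
  Cls_congr (fun _ hi => Eqp_out h (Or.inl hi)) fun _ hi => Eqp_out h (Or.inr hi)

theorem PCls_symm {ρ u v e i k : ℕ} (S S' : Px Q) : PCls ρ u v e i k S' S ↔ PCls ρ u v e i k S S' := by
  unfold PCls
  rw [Eqp_symm]

theorem PCls_out' {ρ u v e i k : ℕ} {S S' S1 : Px Q} (h : pJ v e S = pJ v e S1) :
    PCls ρ u v e i k S' S ↔ PCls ρ u v e i k S' S1 := by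
  rw [PCls_symm S S', PCls_symm S1 S']
  exact PCls_out h

/-- A class of a window inside of the block `[c, d)` of the pair: outside of the block nothing has to be known if the two paths agree
there. -/
theorem Eqp_of_pJ {c d : ℕ} {S S' : Px Q} (h : pJ c d S = pJ c d S') {i : ℕ} (hi : i ≤ c ∨ d ≤ i) : Eqp S S' i := by
  unfold Eqp
  rcases hi with hi | hi
  · exact ps_of_le h hi
  · exact ps_of_ge h hi

/-- On the support `NM` the class is of the left type or of the right type. -/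
theorem NM_PCls {ρ u i k K0 c al be d : ℕ} (hρ : 0 < ρ) (hu : 0 < u) (hc : c + ρ ≤ al + 1) (hd : be + ρ ≤ d + 1)
    (hK : 2 ^ K0 * u ≤ ρ) {S S' : Px Q} (hex : ∃ m, be ≤ m ∧ Eqp S S' m) (h : PCls ρ u al be i k S S')
    (hs : NM c al be d S S' ≠ 0) : 1 ≤ i ∨ K0 + 1 ≤ k := by
  refine Cls_supp hρ hu hc hd hK (Eqp_zero S S') hex h ?_
  have h1 : ¬ Mt c al be d S S' := fun hm => hs (NM_of hm)
  by_contra hcon
  push Not at hcon
  obtain ⟨⟨m, m1, m2, m3⟩, m', m1', m2', m3'⟩ := hcon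
  exact h1 ⟨⟨m, m1, m2, m3⟩, m', m1', m2', m3'⟩

end

end Pool.Agent.W_7d29a1_C0.T93
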