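import Pool.Agent.W_7d29a1_C0.Row39B
import Pool.Agent.W_7d29a1_C0.Cr59
import Pool.Agent.W_7d29a1_C0.Tc93

/-!
CURV0 (MP_7d29a1_pr), leaf (T): THE GROUP BOUND. The sum over the rows of the functionals `PP w (N (U j y + U j z) |f y - f z|)`
(`y`, `z` two free replicas, `N` = they do not merge behind, `U j` = the own loop of the row `j`, told from one base path) against the
root of the variance of `f`: `grp93`. It is averaged over the environment, the signs and the pinned ends (`avy`). The price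
`avy E PP (N U_j U_k)` is any function `φ` of the distance of the two rows (`dist_sum_le`), the dyadic majorant is `dy_sum_le`
(classes of `T93.dy`). `grp_steps` = the same for the rows which are first compared with the common measure (E0, linear form).
(helper93)
-/

set_option autoImplicit false
set_option linter.unusedSectionVars false
set_option linter.unusedVariables false

namespace Pool.Agent.W_7d29a1_C0.T93

open Finset MeasureTheory Pool.Agent.W_7d29a1_F Pool.Agent.W_7d29a1_C0.Mod92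
open Pool.W7d29a1.C0 (gz gm PP PP_mono PP_nonneg)
open Pool.W7d29a1.C0.VT31 (gc gv gv_nonneg int_sqrt_mul_le)
open Pool.W7d29a1.C0.Row39 (row_PP PP_Q_sq PP_row_sum int_le_sqrt)

noncomputable section

/-! ### Double sums of a function of the distance -/

/-- The distance of two rows. -/
def rdist (j k : ℕ) : ℕ := (j - k) + (k - j)

/-- **The double sum of a function of the distance.** -/
theorem dist_sum_le {S : Finset ℕ} {c r : ℕ} (hS : ∀ j ∈ S, c ≤ j ∧ j < c + r) {φ : ℕ → ℝ} (hφ : ∀ D, 0 ≤ φ D)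
    {q : ℕ → ℕ → ℝ} (hq : ∀ j ∈ S, ∀ k ∈ S, q j k ≤ φ (rdist j k)) :
    ∑ j ∈ S, ∑ k ∈ S, q j k ≤ S.card * (2 * ∑ D ∈ range r, φ D) := by
  have h1 : ∀ j ∈ S, ∑ k ∈ S, q j k ≤ 2 * ∑ D ∈ range r, φ D := fun j hj => by
    have a1 : ∑ k ∈ S.filter (· ≤ j), φ (j - k) ≤ ∑ D ∈ range r, φ D := by
      rw [← sum_image (s := S.filter (· ≤ j)) (g := fun k => j - k) (f := φ)]
      · refine sum_le_sum_of_subset_of_nonneg ?_ fun D _ _ => hφ D
        intro D hD
        obtain ⟨k, hk, rfl⟩ := mem_image.1 hD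
        rw [mem_filter] at hk
        have := hS j hj
        have := hS k hk.1
        rw [mem_range]
        omega
      · intro k hk k' hk' he
        rw [mem_coe, mem_filter] at hk hk'
        dsimp only at he
        omega
    have a2 : ∑ k ∈ S.filter (fun k => ¬ k ≤ j), φ (k - j) ≤ ∑ D ∈ range r, φ D := by
      rw [← sum_image (s := S.filter (fun k => ¬ k ≤ j)) (g := fun k => k - j) (f := φ)]
      · refine sum_le_sum_of_subset_of_nonneg ?_ fun D _ _ => hφ D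
        intro D hD
        obtain ⟨k, hk, rfl⟩ := mem_image.1 hD
        rw [mem_filter] at hk
        have := hS j hj
        have := hS k hk.1
        rw [mem_range]
        omega
      · intro k hk k' hk' he
        rw [mem_coe, mem_filter] at hk hk'
        dsimp only at he
        omega
    have a3 : ∑ k ∈ S, q j k ≤ ∑ k ∈ S, φ (rdist j k) := sum_le_sum fun k hk => hq j hj k hk
    rw [← sum_filter_add_sum_filter_not S (· ≤ j)] at a3
    have b1 : ∑ k ∈ S.filter (· ≤ j), φ (rdist j k) = ∑ k ∈ S.filter (· ≤ j), φ (j - k) := by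
      refine sum_congr rfl fun k hk => ?_
      have := (mem_filter.1 hk).2
      congr 1
      unfold rdist
      omega
    have b2 : ∑ k ∈ S.filter (fun k => ¬ k ≤ j), φ (rdist j k) = ∑ k ∈ S.filter (fun k => ¬ k ≤ j), φ (k - j) := by
      refine sum_congr rfl fun k hk => ?_
      have := (mem_filter.1 hk).2
      congr 1
      unfold rdist
      omega
    rw [← sum_filter_add_sum_filter_not S (· ≤ j)]
    have a4 : ∑ k ∈ S, φ (rdist j k) = ∑ k ∈ S.filter (· ≤ j), φ (j - k) + ∑ k ∈ S.filter (fun k => ¬ k ≤ j), φ (k - j) := by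
      rw [← b1, ← b2, sum_filter_add_sum_filter_not]
    have a5 : ∑ k ∈ S, q j k ≤ ∑ k ∈ S, φ (rdist j k) := sum_le_sum fun k hk => hq j hj k hk
    rw [sum_filter_add_sum_filter_not]
    linarith
  calc ∑ j ∈ S, ∑ k ∈ S, q j k ≤ ∑ _j ∈ S, 2 * ∑ D ∈ range r, φ D := sum_le_sum h1
    _ = _ := by rw [sum_const, nsmul_eq_mul]

/-- **The dyadic majorant**: `ψ 0` for the distances below the unit `u`, `ψ (i + 1)` in `[2 ^ i u, 2 ^ (i + 1) u)`. -/
theorem dy_sum_le {u : ℕ} (hu : 0 < u) (K : ℕ) {ψ : ℕ → ℝ} (hψ : ∀ i, 0 ≤ ψ i) {r : ℕ} (hr : r ≤ 2 ^ K * u) :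
    ∑ D ∈ range r, ψ (dy u D) ≤ ∑ i ∈ range (K + 1), (2 : ℝ) ^ i * u * ψ i := by
  have h0 : ∑ D ∈ range r, ψ (dy u D) ≤ ∑ D ∈ range (2 ^ K * u), ψ (dy u D) :=
    sum_le_sum_of_subset_of_nonneg (range_subset_range.2 hr) fun D _ _ => hψ _
  refine h0.trans ?_
  have h1 : ∀ D ∈ range (2 ^ K * u), dy u D ∈ range (K + 1) := fun D hD => mem_range.2 (dy_lt hu (mem_range.1 hD))
  rw [← sum_fiberwise_of_maps_to h1 fun D => ψ (dy u D)]
  refine sum_le_sum fun i _ => ?_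
  have h2 : ∑ D ∈ (range (2 ^ K * u)).filter (fun D => dy u D = i), ψ (dy u D) =
      (((range (2 ^ K * u)).filter fun D => dy u D = i).card : ℝ) * ψ i := by
    rw [sum_congr rfl fun D hD => by rw [(mem_filter.1 hD).2], sum_const, nsmul_eq_mul]
  rw [h2]
  refine mul_le_mul_of_nonneg_right ?_ (hψ i)
  have h3 : ((range (2 ^ K * u)).filter fun D => dy u D = i).card ≤ 2 ^ i * u := by
    rcases i with _ | i
    · have h4 : ((range (2 ^ K * u)).filter fun D => dy u D = 0) ⊆ range u := fun D hD =>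
        mem_range.2 (dy_zero.1 (mem_filter.1 hD).2)
      have h5 := card_le_card h4
      rw [card_range] at h5
      rw [pow_zero, one_mul]
      exact h5
    · have h4 : ((range (2 ^ K * u)).filter fun D => dy u D = i + 1) ⊆ Ico (2 ^ i * u) (2 ^ (i + 1) * u) := fun D hD =>
        mem_Ico.2 ((dy_succ hu).1 (mem_filter.1 hD).2)
      have h5 := card_le_card h4
      rw [Nat.card_Ico] at h5
      have h6 : 2 ^ (i + 1) * u = 2 * (2 ^ i * u) := by ring
      omega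
  exact_mod_cast h3

/-! ### Averages over the pinned ends -/

/-- Cauchy - Schwarz for the average over the ends. -/
theorem avy_sqrt_mul_le {ys : Finset ℕ} {A B : ℕ → ℝ} (A0 : ∀ y ∈ ys, 0 ≤ A y) (B0 : ∀ y ∈ ys, 0 ≤ B y) :
    avy ys (fun y => Real.sqrt (A y) * Real.sqrt (B y)) ≤ Real.sqrt (avy ys A) * Real.sqrt (avy ys B) := by
  unfold avy
  have h0 : (0 : ℝ) ≤ (ys.card : ℝ)⁻¹ := by positivity
  have h1 := Real.sum_sqrt_mul_sqrt_le ys (f := fun y => |A y|) (g := fun y => |B y|) (fun y => abs_nonneg _) fun y => abs_nonneg _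
  have e1 : ∑ y ∈ ys, Real.sqrt |A y| * Real.sqrt |B y| = ∑ y ∈ ys, Real.sqrt (A y) * Real.sqrt (B y) :=
    sum_congr rfl fun y hy => by rw [abs_of_nonneg (A0 y hy), abs_of_nonneg (B0 y hy)]
  have e2 : ∑ y ∈ ys, |A y| = ∑ y ∈ ys, A y := sum_congr rfl fun y hy => abs_of_nonneg (A0 y hy)
  have e3 : ∑ y ∈ ys, |B y| = ∑ y ∈ ys, B y := sum_congr rfl fun y hy => abs_of_nonneg (B0 y hy)
  rw [e1, e2, e3] at h1
  rw [Real.sqrt_mul h0, Real.sqrt_mul h0]
  have h2 := Real.mul_self_sqrt h0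
  calc (ys.card : ℝ)⁻¹ * ∑ y ∈ ys, Real.sqrt (A y) * Real.sqrt (B y)
      ≤ (ys.card : ℝ)⁻¹ * (Real.sqrt (∑ y ∈ ys, A y) * Real.sqrt (∑ y ∈ ys, B y)) := mul_le_mul_of_nonneg_left h1 h0
    _ = _ := by
        rw [← h2]
        rw [Real.sqrt_mul_self (Real.sqrt_nonneg _)]
        ring

/-! ### The group bound -/

section Grp

variable {μ : Measure ℝ} {s : ℝ} {N : ℕ}

/-- Functionals of two pinned paths. -/
abbrev Fam2 (N : ℕ) := (y : ℕ) → Env × Finset ℕ → Px (Pn N y) → Px (Pn N y) → ℝ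

/-- The product price of two rows, for the end `y`. -/
def pr2 (μ : Measure ℝ) (s : ℝ) (N : ℕ) (Nn : Fam2 N) (U U' : Fam N) (y : ℕ) : ℝ :=
  ∫ ω, PP (wm μ s N (Pn N y) ω) (fun x z => Nn y ω x z * (U y ω x * U' y ω x)) ∂(Pm μ N)

/-- The functional of one row, for the end `y`. -/
def rw2 (μ : Measure ℝ) (s : ℝ) (N : ℕ) (Nn : Fam2 N) (U f : Fam N) (y : ℕ) : ℝ :=
  ∫ ω, PP (wm μ s N (Pn N y) ω) (fun x z => Nn y ω x z * (U y ω x + U y ω z) * |f y ω x - f y ω z|) ∂(Pm μ N)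

/-- **The group bound for one end.** -/
theorem grp_one {y : ℕ} (hy : y ≤ N) {S : Finset ℕ} {Nn : Fam2 N} {U : ℕ → Fam N} {f : Fam N}
    (N0 : ∀ ω x z, 0 ≤ Nn y ω x z) (N1 : ∀ ω x z, Nn y ω x z ≤ 1) (hN : ∀ ω x z, Nn y ω x z = Nn y ω z x)
    (U0 : ∀ j ∈ S, ∀ ω x, 0 ≤ U j y ω x)
    (hI : ∀ j ∈ S, ∀ k ∈ S, Integrable (fun ω => PP (wm μ s N (Pn N y) ω) fun x z => Nn y ω x z * (U j y ω x * U k y ω x)) (Pm μ N))
    (hJ : ∀ j ∈ S, Integrable (fun ω => PP (wm μ s N (Pn N y) ω) fun x z =>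
      Nn y ω x z * (U j y ω x + U j y ω z) * |f y ω x - f y ω z|) (Pm μ N))
    (hf : Integrable (fun ω => gv (wm μ s N (Pn N y) ω) (f y ω)) (Pm μ N)) :
    ∑ j ∈ S, rw2 μ s N Nn (U j) f y ≤
      Real.sqrt (4 * ∑ j ∈ S, ∑ k ∈ S, pr2 μ s N Nn (U j) (U k) y) * Real.sqrt (2 * varF μ s N f y) := by
  have := ne_Pn hy
  unfold rw2 pr2 varF
  rw [← integral_finsetSum _ hJ]
  have hPI : Integrable (fun ω => ∑ j ∈ S, ∑ k ∈ S, PP (wm μ s N (Pn N y) ω) fun x z => Nn y ω x z * (U j y ω x * U k y ω x))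
      (Pm μ N) := integrable_finsetSum _ fun j hj => integrable_finsetSum _ fun k hk => hI j hj k hk
  have e1 : ∑ j ∈ S, ∑ k ∈ S, ∫ ω, PP (wm μ s N (Pn N y) ω) (fun x z => Nn y ω x z * (U j y ω x * U k y ω x)) ∂(Pm μ N) =
      ∫ ω, ∑ j ∈ S, ∑ k ∈ S, PP (wm μ s N (Pn N y) ω) (fun x z => Nn y ω x z * (U j y ω x * U k y ω x)) ∂(Pm μ N) := by
    rw [integral_finsetSum _ fun j hj => integrable_finsetSum _ fun k hk => hI j hj k hk]
    exact sum_congr rfl fun j hj => (integral_finsetSum _ fun k hk => hI j hj k hk).symm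
  rw [e1, ← integral_const_mul, ← integral_const_mul]
  refine int_le_sqrt (hPI.const_mul 4) (hf.const_mul 2) (fun ω => ?_) (fun ω => mul_nonneg (by norm_num) (gv_nonneg _ _))
    (fun ω => ?_) fun ω => ?_
  · refine mul_nonneg (by norm_num) (sum_nonneg fun j hj => sum_nonneg fun k hk => PP_nonneg _ fun x z => ?_)
    exact mul_nonneg (N0 ω x z) (mul_nonneg (U0 j hj ω x) (U0 k hk ω x))
  · refine sum_nonneg fun j hj => PP_nonneg _ fun x z => ?_
    exact mul_nonneg (mul_nonneg (N0 ω x z) (add_nonneg (U0 j hj ω x) (U0 j hj ω z))) (abs_nonneg _)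
  · have h1 := row_PP (wm μ s N (Pn N y) ω) S (fun j x z => Nn y ω x z * (U j y ω x + U j y ω z)) (f y ω)
    refine h1.trans (mul_le_mul_of_nonneg_right (Real.sqrt_le_sqrt ?_) (Real.sqrt_nonneg _))
    have h2 := PP_Q_sq (w := wm μ s N (Pn N y) ω) (S := S) (Q := fun j x z => Nn y ω x z * (U j y ω x + U j y ω z))
      (U := fun j x => U j y ω x) (N := fun x z => Nn y ω x z) (N0 ω) (N1 ω) (hN ω)
      (fun j hj x z => mul_nonneg (N0 ω x z) (add_nonneg (U0 j hj ω x) (U0 j hj ω z))) fun j _ x z => le_rfl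
    rw [PP_row_sum (wm μ s N (Pn N y) ω) S (fun j x => U j y ω x) fun x z => Nn y ω x z] at h2
    exact h2

/-- **THE GROUP BOUND**: rows `S` of `[c, c + r)`, price `φ` of two rows at a given distance, averaged over the ends. -/
theorem grp93 {ys S : Finset ℕ} (hys : ∀ y ∈ ys, y ≤ N) {c r : ℕ} (hS : ∀ j ∈ S, c ≤ j ∧ j < c + r) {Nn : Fam2 N}
    {U : ℕ → Fam N} {f : Fam N} (N0 : ∀ y ω x z, 0 ≤ Nn y ω x z) (N1 : ∀ y ω x z, Nn y ω x z ≤ 1)
    (hN : ∀ y ω x z, Nn y ω x z = Nn y ω z x) (U0 : ∀ j ∈ S, ∀ y ω x, 0 ≤ U j y ω x)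
    (hI : ∀ y ∈ ys, ∀ j ∈ S, ∀ k ∈ S,
      Integrable (fun ω => PP (wm μ s N (Pn N y) ω) fun x z => Nn y ω x z * (U j y ω x * U k y ω x)) (Pm μ N))
    (hJ : ∀ y ∈ ys, ∀ j ∈ S, Integrable (fun ω => PP (wm μ s N (Pn N y) ω) fun x z =>
      Nn y ω x z * (U j y ω x + U j y ω z) * |f y ω x - f y ω z|) (Pm μ N))
    (hf : ∀ y ∈ ys, Integrable (fun ω => gv (wm μ s N (Pn N y) ω) (f y ω)) (Pm μ N))
    {φ : ℕ → ℝ} (hφ : ∀ D, 0 ≤ φ D)
    (hp : ∀ j ∈ S, ∀ k ∈ S, avy ys (pr2 μ s N Nn (U j) (U k)) ≤ φ (rdist j k)) :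
    ∑ j ∈ S, avy ys (rw2 μ s N Nn (U j) f) ≤
      Real.sqrt (8 * S.card * ∑ D ∈ range r, φ D) * Real.sqrt (2 * avy ys (varF μ s N f)) := by
  have v0 : ∀ y ∈ ys, 0 ≤ varF μ s N f y := fun y hy => by
    have := ne_Pn (hys y hy)
    exact integral_nonneg fun ω => gv_nonneg _ _
  have p0 : ∀ y ∈ ys, 0 ≤ ∑ j ∈ S, ∑ k ∈ S, pr2 μ s N Nn (U j) (U k) y := fun y hy => by
    have := ne_Pn (hys y hy)
    refine sum_nonneg fun j hj => sum_nonneg fun k hk => integral_nonneg fun ω => PP_nonneg _ fun x z => ?_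
    exact mul_nonneg (N0 y ω x z) (mul_nonneg (U0 j hj y ω x) (U0 k hk y ω x))
  rw [← avy_sum]
  have h1 : avy ys (fun y => ∑ j ∈ S, rw2 μ s N Nn (U j) f y) ≤
      avy ys fun y => Real.sqrt (4 * ∑ j ∈ S, ∑ k ∈ S, pr2 μ s N Nn (U j) (U k) y) * Real.sqrt (2 * varF μ s N f y) :=
    avy_mono fun y hy => grp_one (hys y hy) (N0 y) (N1 y) (hN y) (fun j hj => U0 j hj y) (hI y hy) (hJ y hy) (hf y hy)
  refine h1.trans ((avy_sqrt_mul_le (fun y hy => mul_nonneg (by norm_num) (p0 y hy))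
    (fun y hy => mul_nonneg (by norm_num) (v0 y hy))).trans ?_)
  rw [avy_mul, avy_mul, avy_sum]
  have e2 : ∀ j ∈ S, avy ys (fun y => ∑ k ∈ S, pr2 μ s N Nn (U j) (U k) y) = ∑ k ∈ S, avy ys (pr2 μ s N Nn (U j) (U k)) :=
    fun j _ => avy_sum ys S fun k y => pr2 μ s N Nn (U j) (U k) y
  rw [sum_congr rfl e2]
  refine mul_le_mul_of_nonneg_right (Real.sqrt_le_sqrt ?_) (Real.sqrt_nonneg _)
  have h3 := dist_sum_le hS hφ (q := fun j k => avy ys (pr2 μ s N Nn (U j) (U k))) hp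
  calc 4 * ∑ j ∈ S, ∑ k ∈ S, avy ys (pr2 μ s N Nn (U j) (U k)) ≤ 4 * (S.card * (2 * ∑ D ∈ range r, φ D)) :=
        mul_le_mul_of_nonneg_left h3 (by norm_num)
    _ = _ := by ring

/-- **The assembly of one level**: the row functionals `T j y` (at the row dependent measure) are at most `K` times finitely many row
functionals at the common measure, with the factors `a i` (gain), and an error. -/
theorem grp_steps {ys S : Finset ℕ} (hys : ys.Nonempty) {τ : Type*} (I : Finset τ) {T : ℕ → ℕ → ℝ} {a : τ → ℝ} {R : τ → ℕ → ℕ → ℝ}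
    {e : ℝ} (h : ∀ j ∈ S, ∀ y ∈ ys, |T j y| ≤ ∑ i ∈ I, a i * R i j y + e) {G : τ → ℝ} (ha : ∀ i ∈ I, 0 ≤ a i)
    (hG : ∀ i ∈ I, ∑ j ∈ S, avy ys (R i j) ≤ G i) :
    |∑ j ∈ S, avy ys (T j)| ≤ ∑ i ∈ I, a i * G i + S.card * e := by
  have h1 : ∀ j ∈ S, |avy ys (T j)| ≤ ∑ i ∈ I, a i * avy ys (R i j) + e := fun j hj => by
    have h2 : |avy ys (T j)| ≤ avy ys fun y => |T j y| := by
      unfold avy
      rw [abs_mul, abs_of_nonneg (by positivity : (0 : ℝ) ≤ (ys.card : ℝ)⁻¹)]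
      exact mul_le_mul_of_nonneg_left (abs_sum_le_sum_abs _ _) (by positivity)
    refine h2.trans ((avy_mono fun y hy => h j hj y hy).trans (le_of_eq ?_))
    rw [avy_add, avy_const hys, avy_sum]
    congr 1
    exact sum_congr rfl fun i _ => avy_mul ys (a i) (R i j)
  refine (abs_sum_le_sum_abs _ _).trans ((sum_le_sum h1).trans ?_)
  rw [sum_add_distrib, sum_comm, sum_const, nsmul_eq_mul]
  refine add_le_add (sum_le_sum fun i hi => ?_) le_rfl
  rw [← mul_sum]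
  exact mul_le_mul_of_nonneg_left (hG i hi) (ha i hi)

end Grp

end

end Pool.Agent.W_7d29a1_C0.T93
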