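import Pool.Agent.W_7d29a1_C0.TauE34
import Pool.Agent.W_7d29a1_C0.Tg93

/-!
MP_7d29a1_pr, [CURV0], leaf E1f, F2c (helper34): **`micE34`, THE MICRO TERM OF ONE ROW IN `e1_rowP` IS CARRIED BY THE NEAR TIES OF ITS
WINDOW, AT THE COMMON MEASURE**: at most `B ^ 2 N ^ ε` times the average over the rows `m` of the slab `J` of `T93.rw2` with `U` the near
ties `T2` given the block before `m` (`M` becomes `M'`, `5 M + 8 B ≤ 5 M'`), plus `B ^ 2 N ^ ε N ^ (-K')` and `D exp (- N ^ c')`. The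
clip level of the kick is chosen after the bound of `B`.
-/

set_option autoImplicit false
set_option linter.unusedSectionVars false
set_option linter.unusedVariables false

namespace Pool.Agent.W_7d29a1_C0.TauE34

open Finset MeasureTheory Filter Topology Pool.Agent.W_7d29a1_F Pool.Agent.W_7d29a1_X Pool.Agent.W_7d29a1_H
open Pool.Agent.W_7d29a1_HS (In)
open Pool.Agent.W_7d29a1_HZ (wd' EE')
open Pool.Agent.W_7d29a1_C0 Pool.Agent.W_7d29a1_C0.Mod92 Pool.Agent.W_7d29a1_C0.Swap57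
open Pool.W7d29a1.C0 Pool.W7d29a1.C0.VT31
open Pool.W7d29a1.C0.Fld19 Pool.W7d29a1.C0.H27 Pool.Agent.W_7d29a1_C0.Q32
open Pool.W7d29a1.C0.E1A (XF obs_XF)
open Pool.Agent.W_7d29a1_C0.Far34
open Pool.Agent.W_7d29a1_C0.NM82 (QN)
open Pool.Agent.W_7d29a1_C0.E62 (T2 T2_nonneg T2_le mp_T2 tau_av abs_QN_le)
open Pool.Agent.W_7d29a1_C0.GwA50 (GwW gw50)
open Pool.W7d29a1.C0.Bd73 (nCn nCn_nonneg)
open Pool.Agent.W_7d29a1_C0.E1M82 (Gd AvA nX nG gX abs_gb82)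
open Pool.W7d29a1.C0.H41 (Obs)
open Pool.Agent.W_7d29a1_C0.T93 (rw2)

noncomputable section

variable {μ : Measure ℝ} {s : ℝ} {N : ℕ}

theorem gd_int [IsProbabilityMeasure μ] {Φ : Env × Finset ℕ → ℝ} (h : Gd Φ) : Integrable Φ (Pm μ N) := by
  obtain ⟨K, hK⟩ := h.bd
  exact int_bdd (meas_om h.ms) hK

/-- The near tie term in the form of `grp93`. -/
theorem rw2_tX (m c j d : ℕ) (M : ℝ) (m0 m1 : ℕ) (f : Fam N) (y : ℕ) [Nonempty (Px (Pn N y))] :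
    ∫ ω, rep 2 (wm μ s N (Pn N y) ω) (tX μ s N (Pn N y) m c j d M m0 m1 (f y ω) ω.1) ∂(Pm μ N) =
      rw2 μ s N (fun _ _ x z => NI m0 m1 x z) (fun y ω x => T2 (lw μ s ω.1 N (Pn N y)) (pJ 0 m) c j d M x) f y := by
  unfold rw2 PP
  congr 1
  funext ω
  congr 1
  funext x
  unfold bs tX XF
  ring

section pt

variable {y : ℕ} [Nonempty (Px (Pn N y))] {κ δk δ₁ ε c' B t θ D : ℝ} {b0 j : ℕ} {J : Finset ℕ} {m0 m1 : ℕ}

theorem abs_gg34 (hB : 0 ≤ B) (ω : Env × Finset ℕ) (x : Px (Pn N y)) : |gg μ s (Pn N y) δk B b0 ω j x| ≤ B / 2 :=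
  abs_gj ω.1 hB (abs_sg ω.2 j).le b0 j x

/-- The micro term of one row, for a good environment. -/
theorem qn_pt {ω : Env × Finset ℕ} (hη : GwW μ s N κ δk δ₁ ε c' ω.1) (hj : j + b0 ≤ N)
    (h1 : (N : ℝ) ^ κ ≤ ((j - (j - b0) : ℕ) : ℝ)) (h2 : (N : ℝ) ^ κ ≤ b0) (hB : 0 ≤ B) (ht : |t| ≤ 1)
    (hJ : ∀ m ∈ J, j + b0 ≤ m) (hθ : 0 ≤ θ) {h : Px (Pn N y) → ℝ} (hh : ∀ x, |h x| ≤ B) {F : Px (Pn N y) → ℝ}
    (hF : ∀ S, |F S| ≤ D) (M : ℝ) :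
    rep 2 (wj μ s N (Pn N y) δk B b0 j ω t) (fun x => |QN m0 m1 (avN (wj μ s N (Pn N y) δk B b0 j ω t) J (fun _ => θ)
      (fun m => pJ 0 m) (gg μ s (Pn N y) δk B b0 ω j) h) F x|) ≤
      ∑ m ∈ J, θ * (B ^ 2 * rep 2 (wj μ s N (Pn N y) δk B b0 j ω t)
        (tX μ s N (Pn N y) m (j - b0) j (j + b0) M m0 m1 F ω.1) +
        (2 * D * (2 * B * Real.exp ((N : ℝ) ^ ε) * Real.exp (4 * B - 5 * M) + B * Real.exp (-(N : ℝ) ^ c')) +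
          4 * B ^ 2 * D * gm (wj μ s N (Pn N y) δk B b0 j ω t) (nCn μ s δ₁ (j - b0) (j + b0)))) := by
  obtain ⟨W, hW⟩ : ∃ W : Px (Pn N y) → ℝ, W = wj μ s N (Pn N y) δk B b0 j ω t := ⟨_, rfl⟩
  obtain ⟨e1, he1⟩ : ∃ e1 : ℝ, e1 = 2 * B * Real.exp ((N : ℝ) ^ ε) * Real.exp (4 * B - 5 * M) + B * Real.exp (-(N : ℝ) ^ c') :=
    ⟨_, rfl⟩
  have e10 : 0 ≤ e1 := by
    rw [he1]
    positivity
  have hu : ∀ S, |avN W J (fun _ => θ) (fun m => pJ 0 m) (gg μ s (Pn N y) δk B b0 ω j) h S| ≤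
      ∑ m ∈ J, θ * (2 * B ^ 2 * T2 (lw μ s ω.1 N (Pn N y)) (pJ 0 m) (j - b0) j (j + b0) M S + e1 +
        2 * B ^ 2 * cE W (pJ 0 m) (nCn μ s δ₁ (j - b0) (j + b0)) S) := fun S => by
    rw [hW, he1]
    exact tau_av hη (Blk18.full_Pn N y) hj h1 h2 hB ht hJ hθ hh M S
  rw [← hW, ← he1]
  have hpt : ∀ x : Fin 2 → Px (Pn N y), |QN m0 m1 (avN W J (fun _ => θ) (fun m => pJ 0 m) (gg μ s (Pn N y) δk B b0 ω j) h) F x| ≤
      ∑ m ∈ J, θ * (B ^ 2 * tX μ s N (Pn N y) m (j - b0) j (j + b0) M m0 m1 F ω.1 x + (2 * D * e1 +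
        2 * B ^ 2 * D * (cE W (pJ 0 m) (nCn μ s δ₁ (j - b0) (j + b0)) (x 0) +
          cE W (pJ 0 m) (nCn μ s δ₁ (j - b0) (j + b0)) (x 1)))) := fun x => by
    refine (abs_QN_le m0 m1 hu x).trans ?_
    have hX2 := XF_le_two (m0 := m0) (m1 := m1) hF x
    have hX0 := Pool.W7d29a1.C0.E1A.XF_nonneg m0 m1 F x
    have eX : NI m0 m1 (x 0) (x 1) * |F (x 0) - F (x 1)| = XF m0 m1 F x := by
      unfold XF
      ring
    rw [eX, ← sum_add_distrib, sum_mul, mul_sum]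
    refine sum_le_sum fun m hm => ?_
    have hc0 := cE_nonneg W (pJ (Q := Pn N y) 0 m) (nCn_nonneg μ s δ₁ (j - b0) (j + b0)) (x 0)
    have hc1 := cE_nonneg W (pJ (Q := Pn N y) 0 m) (nCn_nonneg μ s δ₁ (j - b0) (j + b0)) (x 1)
    have k1 : e1 * XF m0 m1 F x ≤ e1 * (2 * D) := mul_le_mul_of_nonneg_left hX2 e10
    have k2 : B ^ 2 * (cE W (pJ 0 m) (nCn μ s δ₁ (j - b0) (j + b0)) (x 0) +
          cE W (pJ 0 m) (nCn μ s δ₁ (j - b0) (j + b0)) (x 1)) * XF m0 m1 F x ≤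
        B ^ 2 * (cE W (pJ 0 m) (nCn μ s δ₁ (j - b0) (j + b0)) (x 0) +
          cE W (pJ 0 m) (nCn μ s δ₁ (j - b0) (j + b0)) (x 1)) * (2 * D) :=
      mul_le_mul_of_nonneg_left hX2 (by positivity)
    have k3 := mul_le_mul_of_nonneg_left (add_le_add k1 k2) hθ
    unfold tX
    calc _ = θ * (B ^ 2 * ((T2 (lw μ s ω.1 N (Pn N y)) (pJ 0 m) (j - b0) j (j + b0) M (x 0) +
          T2 (lw μ s ω.1 N (Pn N y)) (pJ 0 m) (j - b0) j (j + b0) M (x 1)) * XF m0 m1 F x)) + θ * (e1 * XF m0 m1 F x +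
          B ^ 2 * (cE W (pJ 0 m) (nCn μ s δ₁ (j - b0) (j + b0)) (x 0) +
          cE W (pJ 0 m) (nCn μ s δ₁ (j - b0) (j + b0)) (x 1)) * XF m0 m1 F x) := by ring
      _ ≤ _ := add_le_add le_rfl k3
      _ = _ := by ring
  refine (rep_mono 2 W hpt).trans (le_of_eq ?_)
  rw [H41.rep_sum]
  refine sum_congr rfl fun m hm => ?_
  rw [rep_smul, H41.rep_add, rep_smul, H41.rep_add, H41.rep_const, rep_smul, H41.rep_add,
    Far34.rep_coord 1 W (cE W (pJ 0 m) (nCn μ s δ₁ (j - b0) (j + b0))) 0,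
    Far34.rep_coord 1 W (cE W (pJ 0 m) (nCn μ s δ₁ (j - b0) (j + b0))) 1, gm_cE]
  ring

/-- The micro term of one row, the trivial bound. -/
theorem qn_triv (W : Px (Pn N y) → ℝ) (hθ : 0 ≤ θ) (hθJ : (J.card : ℝ) * θ ≤ 1) {g h F : Px (Pn N y) → ℝ} (hB : 0 ≤ B)
    (hg : ∀ x, |g x| ≤ B / 2) (hh : ∀ x, |h x| ≤ B / 2) (hF : ∀ S, |F S| ≤ D) :
    rep 2 W (fun x => |QN m0 m1 (avN W J (fun _ => θ) (fun m => pJ 0 m) g h) F x|) ≤ B ^ 2 * D := by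
  have h0 : ∀ S, |avN W J (fun _ => θ) (fun m => pJ 0 m) g h S| ≤ B ^ 2 / 2 := fun S => by
    unfold avN
    rw [Finset.sum_apply]
    refine (abs_sum_le_sum_abs _ _).trans ?_
    calc _ ≤ ∑ m ∈ J, θ * (B ^ 2 / 2) := sum_le_sum fun m hm => by
          rw [Pi.smul_apply, smul_eq_mul, abs_mul, abs_of_nonneg hθ]
          refine mul_le_mul_of_nonneg_left ?_ hθ
          have k1 := Pool.W7d29a1.C0.E1A.abs_cC_le_cE W (pJ (Q := Pn N y) 0 m) (A := g) hh S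
          have k2 := (le_abs_self _).trans (Pool.W7d29a1.C0.abs_cE_le_X W (pJ (Q := Pn N y) 0 m) (M := B / 2)
            (f := fun z => |g z|) (fun z => by rw [abs_abs]; exact hg z) S)
          have k3 := mul_le_mul_of_nonneg_left k2 (by positivity : (0 : ℝ) ≤ 2 * (B / 2))
          calc _ ≤ 2 * (B / 2) * (B / 2) := k1.trans k3
            _ = _ := by ring
      _ = (J.card : ℝ) * θ * (B ^ 2 / 2) := by
          rw [sum_const, nsmul_eq_mul]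
          ring
      _ ≤ 1 * (B ^ 2 / 2) := mul_le_mul_of_nonneg_right hθJ (by positivity)
      _ = _ := one_mul _
  have h1 : ∀ x : Fin 2 → Px (Pn N y), |QN m0 m1 (avN W J (fun _ => θ) (fun m => pJ 0 m) g h) F x| ≤ B ^ 2 * D := fun x => by
    refine (abs_QN_le m0 m1 (u := fun _ => B ^ 2 / 2) h0 x).trans ?_
    have hX2 := XF_le_two (m0 := m0) (m1 := m1) hF x
    have eX : NI m0 m1 (x 0) (x 1) * |F (x 0) - F (x 1)| = XF m0 m1 F x := by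
      unfold XF
      ring
    rw [eX]
    have h3 : B ^ 2 * XF m0 m1 F x ≤ B ^ 2 * (2 * D) := mul_le_mul_of_nonneg_left hX2 (by positivity)
    calc _ = (1 / 2) * (B ^ 2 * XF m0 m1 F x) := by ring
      _ ≤ (1 / 2) * (B ^ 2 * (2 * D)) := by linarith
      _ = _ := by ring
  exact (rep_mono 2 W h1).trans_eq (H41.rep_const 2 W _)

end pt

/-! ### The integrated form -/

section core

variable [IsProbabilityMeasure μ] {y : ℕ} [Nonempty (Px (Pn N y))] {κ δk δ₁ ε c' B t θ D ϑ P1 P2 : ℝ} {b0 j cb e : ℕ} {J : Finset ℕ}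
  {m0 m1 : ℕ} {f : Fam N}

theorem mic_core (hf : Cls59 N cb e D f) (hj : j + b0 ≤ N) (h1 : (N : ℝ) ^ κ ≤ ((j - (j - b0) : ℕ) : ℝ)) (h2 : (N : ℝ) ^ κ ≤ b0)
    (hB : 0 ≤ B) (ht : t ∈ Set.Icc (-1 : ℝ) 1) (hJ : ∀ m ∈ J, j + b0 ≤ m) (hθ : 0 ≤ θ) (hθJ : (J.card : ℝ) * θ ≤ 1)
    {h : Env × Finset ℕ → Px (Pn N y) → ℝ} (hh : ∀ ω x, |h ω x| ≤ B / 2) (M : ℝ) (hϑ : 0 ≤ ϑ)
    (hP1 : law μ {η | ¬ GwW μ s N κ δk δ₁ ε c' η} ≤ ENNReal.ofReal P1)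
    (hP2 : law μ {η | ϑ < gm (lw μ s η N (Pn N y)) (nCn μ s δ₁ (j - b0) (j + b0))} ≤ ENNReal.ofReal P2) (hP1' : 0 ≤ P1)
    (hP2' : 0 ≤ P2) :
    ∫ ω, rep 2 (wj μ s N (Pn N y) δk B b0 j ω t) (fun x => |QN m0 m1 (avN (wj μ s N (Pn N y) δk B b0 j ω t) J (fun _ => θ)
      (fun m => pJ 0 m) (gg μ s (Pn N y) δk B b0 ω j) (h ω)) (f y ω) x|) ∂(Pm μ N) ≤
      ∑ m ∈ J, θ * (B ^ 2 * ∫ ω, rep 2 (wj μ s N (Pn N y) δk B b0 j ω t)
        (tX μ s N (Pn N y) m (j - b0) j (j + b0) M m0 m1 (f y ω) ω.1) ∂(Pm μ N)) +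
      (2 * D * (2 * B * Real.exp ((N : ℝ) ^ ε) * Real.exp (4 * B - 5 * M) + B * Real.exp (-(N : ℝ) ^ c')) +
        4 * B ^ 2 * D * (Real.exp (2 * B) * ϑ)) + B ^ 2 * D * (P1 + P2) := by
  have hD : 0 ≤ D := by
    obtain ⟨S⟩ := ‹Nonempty (Px (Pn N y))›
    exact (abs_nonneg _).trans (hf.bdd y (default, ∅) S)
  obtain ⟨K0, hK0⟩ : ∃ K0 : ℝ, K0 = 2 * D * (2 * B * Real.exp ((N : ℝ) ^ ε) * Real.exp (4 * B - 5 * M) +
    B * Real.exp (-(N : ℝ) ^ c')) + 4 * B ^ 2 * D * (Real.exp (2 * B) * ϑ) := ⟨_, rfl⟩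
  have hK00 : 0 ≤ K0 := by
    rw [hK0]
    positivity
  obtain ⟨E1, hE1⟩ : ∃ E1 : Set Env, E1 = toMeasurable (law μ) {η | ¬ GwW μ s N κ δk δ₁ ε c' η} := ⟨_, rfl⟩
  obtain ⟨E2, hE2⟩ : ∃ E2 : Set Env, E2 = {η | ϑ < gm (lw μ s η N (Pn N y)) (nCn μ s δ₁ (j - b0) (j + b0))} := ⟨_, rfl⟩
  have mE1 : MeasurableSet E1 := by
    rw [hE1]
    exact measurableSet_toMeasurable _ _
  have mE2 : MeasurableSet E2 := by
    rw [hE2]
    exact measurableSet_lt measurable_const (meas_gm (fun S => meas_lw S) fun S => measurable_const)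
  obtain ⟨φ, hφ⟩ : ∃ φ : Env → ℝ, φ = Set.indicator (E1 ∪ E2) 1 := ⟨_, rfl⟩
  have mφ : Measurable φ := by
    rw [hφ]
    exact measurable_one.indicator (mE1.union mE2)
  have φ0 : ∀ η, 0 ≤ φ η := fun η => by
    rw [hφ]
    exact Set.indicator_nonneg (fun _ _ => zero_le_one) η
  have φ1 : ∀ η, φ η ≤ 1 := fun η => by
    rw [hφ]
    exact Set.indicator_le_self' (fun _ _ => zero_le_one) η
  have iφ : Integrable (fun ω : Env × Finset ℕ => φ ω.1) (Pm μ N) := int_bdd (M := 1) (mφ.comp measurable_fst) fun ω => by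
    rw [abs_of_nonneg (φ0 _)]
    exact φ1 _
  have hr0 : ∀ m ω, 0 ≤ rep 2 (wj μ s N (Pn N y) δk B b0 j ω t) (tX μ s N (Pn N y) m (j - b0) j (j + b0) M m0 m1 (f y ω) ω.1) :=
    fun m ω => H41.rep_nonneg 2 _ fun x => tX_nonneg _ _ _ _ _ _ _ _ _ _
  have hpt : ∀ ω : Env × Finset ℕ, rep 2 (wj μ s N (Pn N y) δk B b0 j ω t) (fun x => |QN m0 m1
      (avN (wj μ s N (Pn N y) δk B b0 j ω t) J (fun _ => θ) (fun m => pJ 0 m) (gg μ s (Pn N y) δk B b0 ω j) (h ω)) (f y ω) x|) ≤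
      ∑ m ∈ J, θ * (B ^ 2 * rep 2 (wj μ s N (Pn N y) δk B b0 j ω t)
        (tX μ s N (Pn N y) m (j - b0) j (j + b0) M m0 m1 (f y ω) ω.1)) + (K0 + B ^ 2 * D * φ ω.1) := fun ω => by
    have hS0 : 0 ≤ ∑ m ∈ J, θ * (B ^ 2 * rep 2 (wj μ s N (Pn N y) δk B b0 j ω t)
        (tX μ s N (Pn N y) m (j - b0) j (j + b0) M m0 m1 (f y ω) ω.1)) :=
      sum_nonneg fun m hm => mul_nonneg hθ (mul_nonneg (by positivity) (hr0 m ω))
    by_cases hE : ω.1 ∈ E1 ∪ E2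
    · have k1 : φ ω.1 = 1 := by
        rw [hφ]
        exact Set.indicator_of_mem hE _
      have k2 := qn_triv (m0 := m0) (m1 := m1) (wj μ s N (Pn N y) δk B b0 j ω t) hθ hθJ hB (abs_gg34 (μ := μ) (s := s) (δk := δk)
        (b0 := b0) (j := j) hB ω) (hh ω) (fun S => hf.bdd y ω S)
      rw [k1, mul_one]
      linarith
    · have k1 : φ ω.1 = 0 := by
        rw [hφ]
        exact Set.indicator_of_notMem hE _
      have hG : GwW μ s N κ δk δ₁ ε c' ω.1 := by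
        by_contra hG
        refine hE (Or.inl ?_)
        rw [hE1]
        exact subset_toMeasurable _ _ hG
      have hC : gm (lw μ s ω.1 N (Pn N y)) (nCn μ s δ₁ (j - b0) (j + b0)) ≤ ϑ := by
        by_contra hC
        refine hE (Or.inr ?_)
        rw [hE2]
        exact not_le.1 hC
      have k2 := qn_pt (m0 := m0) (m1 := m1) hG hj h1 h2 hB (abs_le.2 ht) hJ hθ (fun x => (hh ω x).trans (by linarith))
        (fun S => hf.bdd y ω S) M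
      have k3 := gm_tilt34 (w := lw μ s ω.1 N (Pn N y)) (w' := wj μ s N (Pn N y) δk B b0 j ω t) (D := B) (fun x => by
        rw [T72.wj_eq72]
        show |lw μ s ω.1 N (Pn N y) x + T72.uj72 μ s (Pn N y) δk B b0 j t ω.2 ω.1 x - lw μ s ω.1 N (Pn N y) x| ≤ B
        rw [add_sub_cancel_left]
        exact T72.abs_uj72 hB b0 j (abs_le.2 ht) ω.2 ω.1 x) (nCn_nonneg μ s δ₁ (j - b0) (j + b0))
      have k4 : gm (wj μ s N (Pn N y) δk B b0 j ω t) (nCn μ s δ₁ (j - b0) (j + b0)) ≤ Real.exp (2 * B) * ϑ :=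
        k3.trans (mul_le_mul_of_nonneg_left hC (Real.exp_pos _).le)
      rw [k1, mul_zero, add_zero]
      refine k2.trans ?_
      calc _ ≤ ∑ m ∈ J, (θ * (B ^ 2 * rep 2 (wj μ s N (Pn N y) δk B b0 j ω t)
            (tX μ s N (Pn N y) m (j - b0) j (j + b0) M m0 m1 (f y ω) ω.1)) + θ * K0) := sum_le_sum fun m hm => by
            rw [← mul_add]
            refine mul_le_mul_of_nonneg_left (add_le_add le_rfl ?_) hθ
            rw [hK0]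
            exact add_le_add le_rfl (mul_le_mul_of_nonneg_left k4 (by positivity))
        _ = ∑ m ∈ J, θ * (B ^ 2 * rep 2 (wj μ s N (Pn N y) δk B b0 j ω t)
            (tX μ s N (Pn N y) m (j - b0) j (j + b0) M m0 m1 (f y ω) ω.1)) + (J.card : ℝ) * θ * K0 := by
            rw [sum_add_distrib, sum_const, nsmul_eq_mul, mul_assoc]
        _ ≤ _ := by
            have := mul_le_mul_of_nonneg_right hθJ hK00
            linarith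
  have iR : ∀ m, Integrable (fun ω => rep 2 (wj μ s N (Pn N y) δk B b0 j ω t)
      (tX μ s N (Pn N y) m (j - b0) j (j + b0) M m0 m1 (f y ω) ω.1)) (Pm μ N) := fun m =>
    gd_int (gd_wj (Ψ := fun ω => tX μ s N (Pn N y) m (j - b0) j (j + b0) M m0 m1 (f y ω) ω.1) hB
      (obs_tX hf m (j - b0) j (j + b0) M m0 m1) t)
  have iS : Integrable (fun ω => ∑ m ∈ J, θ * (B ^ 2 * rep 2 (wj μ s N (Pn N y) δk B b0 j ω t)
      (tX μ s N (Pn N y) m (j - b0) j (j + b0) M m0 m1 (f y ω) ω.1))) (Pm μ N) :=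
    integrable_finsetSum _ fun m hm => ((iR m).const_mul _).const_mul _
  have iK : Integrable (fun ω : Env × Finset ℕ => K0 + B ^ 2 * D * φ ω.1) (Pm μ N) := (integrable_const K0).add (iφ.const_mul _)
  have hI := integral_mono_of_nonneg (μ := Pm μ N) (ae_of_all _ fun ω => H41.rep_nonneg 2 (wj μ s N (Pn N y) δk B b0 j ω t)
    (Ψ := fun x => |QN m0 m1 (avN (wj μ s N (Pn N y) δk B b0 j ω t) J (fun _ => θ) (fun m => pJ 0 m)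
      (gg μ s (Pn N y) δk B b0 ω j) (h ω)) (f y ω) x|) fun x => abs_nonneg _) (iS.add iK) (ae_of_all _ hpt)
  refine hI.trans ?_
  have e1 := integral_add iS iK
  simp only [Pi.add_apply] at e1 ⊢
  rw [e1, integral_finsetSum _ fun m hm => ((iR m).const_mul _).const_mul _, integral_add (integrable_const K0) (iφ.const_mul _),
    integral_const, integral_const_mul, Bri36.int_fst (Φ := φ) mφ (M := 1) fun η => by rw [abs_of_nonneg (φ0 _)]; exact φ1 _]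
  have e3 : (Pm μ N).real Set.univ = 1 := by rw [measureReal_def, measure_univ, ENNReal.toReal_one]
  have e4 : ∫ η, φ η ∂(law μ) ≤ P1 + P2 := by
    rw [hφ, integral_indicator_one (mE1.union mE2), measureReal_def]
    have k1 : law μ (E1 ∪ E2) ≤ ENNReal.ofReal (P1 + P2) := by
      rw [ENNReal.ofReal_add hP1' hP2']
      refine (measure_union_le _ _).trans (add_le_add ?_ ?_)
      · rw [hE1, measure_toMeasurable]
        exact hP1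
      · rw [hE2]
        exact hP2
    exact (ENNReal.toReal_mono ENNReal.ofReal_ne_top k1).trans (ENNReal.toReal_ofReal (by positivity)).le
  rw [e3, one_smul, ← hK0]
  have e5 : B ^ 2 * D * ∫ η, φ η ∂(law μ) ≤ B ^ 2 * D * (P1 + P2) := mul_le_mul_of_nonneg_left e4 (by positivity)
  have e6 : ∑ m ∈ J, ∫ ω, θ * (B ^ 2 * rep 2 (wj μ s N (Pn N y) δk B b0 j ω t)
      (tX μ s N (Pn N y) m (j - b0) j (j + b0) M m0 m1 (f y ω) ω.1)) ∂(Pm μ N) =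
      ∑ m ∈ J, θ * (B ^ 2 * ∫ ω, rep 2 (wj μ s N (Pn N y) δk B b0 j ω t)
        (tX μ s N (Pn N y) m (j - b0) j (j + b0) M m0 m1 (f y ω) ω.1) ∂(Pm μ N)) :=
    sum_congr rfl fun m hm => by rw [integral_const_mul, integral_const_mul]
  rw [e6]
  linarith

end core

/-! ### The numbers -/

theorem ev_small {aM a₁ c1 c2 : ℝ} (haM : 0 < aM) (ha₁ : 0 < a₁) (hc1 : 0 < c1) (hc2 : 0 < c2) : ∃ c' : ℝ, 0 < c' ∧ ∃ N₀ : ℕ,
    ∀ N : ℕ, N₀ ≤ N → ∀ B D M : ℝ, 0 ≤ B → 0 ≤ D → B ≤ (N : ℝ) ^ (min 1 (min (aM / 2) (a₁ / 2))) → (N : ℝ) ^ aM ≤ M →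
      2 * D * (2 * B * Real.exp ((N : ℝ) ^ (aM / 2)) * Real.exp (4 * B - 5 * M) + B * Real.exp (-(N : ℝ) ^ c1)) +
        4 * B ^ 2 * D * (Real.exp (2 * B) * Real.exp (-(N : ℝ) ^ a₁)) +
        B ^ 2 * D * (Real.exp (-(N : ℝ) ^ c1) + Real.exp (-(N : ℝ) ^ c2)) ≤ D * Real.exp (-(N : ℝ) ^ c') := by
  obtain ⟨c', hc'⟩ : ∃ c' : ℝ, c' = min (aM / 2) (min (c1 / 2) (min (a₁ / 2) (c2 / 2))) := ⟨_, rfl⟩
  have c0 : 0 < c' := by
    rw [hc']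
    exact lt_min (by positivity) (lt_min (by positivity) (lt_min (by positivity) (by positivity)))
  have cM : c' < aM := by
    have : c' ≤ aM / 2 := by rw [hc']; exact min_le_left _ _
    linarith
  have cc1 : c' < c1 := by
    have : c' ≤ c1 / 2 := by rw [hc']; exact (min_le_right _ _).trans (min_le_left _ _)
    linarith
  have ca : c' < a₁ := by
    have : c' ≤ a₁ / 2 := by rw [hc']; exact (min_le_right _ _).trans ((min_le_right _ _).trans (min_le_left _ _))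
    linarith
  have cc2 : c' < c2 := by
    have : c' ≤ c2 / 2 := by rw [hc']; exact (min_le_right _ _).trans ((min_le_right _ _).trans (min_le_right _ _))
    linarith
  have E1 := Pool.Agent.W_7d29a1_HZ.Z74.ev_exp (A := 16) (a := 1) (by norm_num) one_pos haM cM 2
  have E2 := Pool.Agent.W_7d29a1_HZ.Z74.ev_exp (A := 16) (a := 1) (by norm_num) one_pos hc1 cc1 2
  have E3 := Pool.Agent.W_7d29a1_HZ.Z74.ev_exp (A := 16) (a := 1 / 2) (by norm_num) (by norm_num) ha₁ ca 2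
  have E4 := Pool.Agent.W_7d29a1_HZ.Z74.ev_exp (A := 16) (a := 1) (by norm_num) one_pos hc2 cc2 2
  obtain ⟨L1, hL1⟩ := eventually_atTop.1 (E1.and (E2.and (E3.and E4)))
  obtain ⟨L2, hL2⟩ := Pool.Agent.W_7d29a1_Z.NumI77.large (show 0 < aM / 2 by positivity) 2
  obtain ⟨L3, hL3⟩ := Pool.Agent.W_7d29a1_Z.NumI77.large (show 0 < a₁ / 2 by positivity) 4
  refine ⟨c', c0, max L1 (max L2 L3), fun N hN B D M hB hD hBN hM => ?_⟩
  obtain ⟨g1, g2, g3, g4⟩ := hL1 N ((le_max_left _ _).trans hN)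
  obtain ⟨n1, n2, -⟩ := hL2 N ((le_max_left _ _).trans ((le_max_right _ _).trans hN))
  obtain ⟨-, n3, -⟩ := hL3 N ((le_max_right _ _).trans ((le_max_right _ _).trans hN))
  have hNR : (1 : ℝ) ≤ N := by exact_mod_cast n1
  have hN0 : (0 : ℝ) < N := by linarith
  have b1 : B ≤ N := by
    calc B ≤ (N : ℝ) ^ (min 1 (min (aM / 2) (a₁ / 2))) := hBN
      _ ≤ (N : ℝ) ^ (1 : ℝ) := Real.rpow_le_rpow_of_exponent_le hNR (min_le_left _ _)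
      _ = N := Real.rpow_one _
  have b2 : B ≤ (N : ℝ) ^ (aM / 2) := hBN.trans (Real.rpow_le_rpow_of_exponent_le hNR ((min_le_right _ _).trans (min_le_left _ _)))
  have b3 : B ≤ (N : ℝ) ^ (a₁ / 2) := hBN.trans (Real.rpow_le_rpow_of_exponent_le hNR ((min_le_right _ _).trans (min_le_right _ _)))
  obtain ⟨x, hx⟩ : ∃ x : ℝ, x = (N : ℝ) ^ (aM / 2) := ⟨_, rfl⟩
  obtain ⟨z, hz⟩ : ∃ z : ℝ, z = (N : ℝ) ^ (a₁ / 2) := ⟨_, rfl⟩
  have hxx : (N : ℝ) ^ aM = x * x := by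
    rw [hx, ← Real.rpow_add hN0]
    ring_nf
  have hzz : (N : ℝ) ^ a₁ = z * z := by
    rw [hz, ← Real.rpow_add hN0]
    ring_nf
  rw [← hx] at b2 n2
  rw [← hz] at b3 n3
  obtain ⟨T, hT⟩ : ∃ T : ℝ, T = Real.exp (-(N : ℝ) ^ c') := ⟨_, rfl⟩
  rw [one_mul, ← hT, Real.rpow_ofNat] at g1 g2 g4
  rw [← hT, Real.rpow_ofNat] at g3
  have T0 : 0 ≤ T := by
    rw [hT]
    positivity
  have hN2 : (N : ℝ) ≤ (N : ℝ) ^ 2 := by nlinarith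
  have hB2 : B ^ 2 ≤ (N : ℝ) ^ 2 := pow_le_pow_left₀ hB b1 2
  -- the four terms
  have t1 : 4 * B * (Real.exp x * Real.exp (4 * B - 5 * M)) ≤ T / 8 := by
    have k1 : Real.exp x * Real.exp (4 * B - 5 * M) ≤ Real.exp (-(N : ℝ) ^ aM) := by
      rw [← Real.exp_add]
      refine Real.exp_le_exp.2 ?_
      rw [hxx] at hM ⊢
      nlinarith
    have k2 := Real.exp_pos (-(N : ℝ) ^ aM)
    calc _ ≤ 4 * (N : ℝ) ^ 2 * Real.exp (-(N : ℝ) ^ aM) :=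
          mul_le_mul (by linarith) k1 (by positivity) (by positivity)
      _ ≤ T / 8 := by linarith
  have t2 : (2 * B + B ^ 2) * Real.exp (-(N : ℝ) ^ c1) ≤ T / 8 := by
    have k2 := Real.exp_pos (-(N : ℝ) ^ c1)
    calc _ ≤ (4 * (N : ℝ) ^ 2) * Real.exp (-(N : ℝ) ^ c1) := mul_le_mul_of_nonneg_right (by linarith) k2.le
      _ ≤ T / 8 := by linarith
  have t3 : 4 * B ^ 2 * (Real.exp (2 * B) * Real.exp (-(N : ℝ) ^ a₁)) ≤ T / 8 := by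
    have k1 : Real.exp (2 * B) * Real.exp (-(N : ℝ) ^ a₁) ≤ Real.exp (-(1 / 2 * (N : ℝ) ^ a₁)) := by
      rw [← Real.exp_add]
      refine Real.exp_le_exp.2 ?_
      rw [hzz]
      nlinarith
    calc _ ≤ 4 * (N : ℝ) ^ 2 * Real.exp (-(1 / 2 * (N : ℝ) ^ a₁)) :=
          mul_le_mul (by linarith) k1 (by positivity) (by positivity)
      _ ≤ T / 8 := by linarith
  have t4 : B ^ 2 * Real.exp (-(N : ℝ) ^ c2) ≤ T / 8 := by
    have k2 := Real.exp_pos (-(N : ℝ) ^ c2)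
    have k3 : B ^ 2 * Real.exp (-(N : ℝ) ^ c2) ≤ (N : ℝ) ^ 2 * Real.exp (-(N : ℝ) ^ c2) := mul_le_mul_of_nonneg_right hB2 k2.le
    have k4 : 0 ≤ (N : ℝ) ^ 2 * Real.exp (-(N : ℝ) ^ c2) := by positivity
    linarith
  rw [← hT]
  have t5 : 4 * B * (Real.exp x * Real.exp (4 * B - 5 * M)) + (2 * B + B ^ 2) * Real.exp (-(N : ℝ) ^ c1) +
      4 * B ^ 2 * (Real.exp (2 * B) * Real.exp (-(N : ℝ) ^ a₁)) + B ^ 2 * Real.exp (-(N : ℝ) ^ c2) ≤ T := by linarith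
  have t6 := mul_le_mul_of_nonneg_left t5 hD
  rw [← hx]
  refine le_trans (le_of_eq ?_) t6
  ring

/-- **THE MICRO TERM OF ONE ROW** (F2c), for a family of responses `h`. -/
theorem micE34 [IsProbabilityMeasure μ] {c₀ C₀ : ℝ} {n₀ : ℕ} (hIn : In μ s c₀ C₀ n₀)
    (hQI : ∀ p : ℝ, 1 < p → ∃ C θ0 : ℝ, 0 ≤ C ∧ 0 < θ0 ∧ QI μ p C θ0) {κ : ℝ} (hκ : 0 < κ) (hκ1 : κ ≤ 1) {ε K' aM : ℝ}
    (hε : 0 < ε) (hK' : 0 ≤ K') (haM : 0 < aM) : ∃ β₀ : ℝ, 0 < β₀ ∧ ∀ δk : ℝ, 0 < δk → ∃ δ' c' : ℝ, 0 < δ' ∧ 0 < c' ∧ ∃ N₀ : ℕ,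
      ∀ N : ℕ, N₀ ≤ N → ∀ y : ℕ, y ≤ N → |(y : ℝ) - sl μ s * N| ≤ ((N : ℝ) ^ δ' * wd' μ s N) →
      ∀ c0 K : ℕ, (N : ℝ) ^ κ ≤ c0 → (N : ℝ) ^ κ ≤ K → c0 + K ≤ N → ∀ (B : ℝ) (b0 j : ℕ), 0 ≤ B → B ≤ (N : ℝ) ^ β₀ →
      (N : ℝ) ^ κ ≤ b0 → b0 ≤ j → j + b0 ≤ c0 →
      ∀ (cb e : ℕ) (D : ℝ) (f : Fam N), Cls59 N cb e D f → c0 + K ≤ e → 8 * D ≤ (N : ℝ) ^ K' → ∀ m0 m1 : ℕ, c0 + K ≤ m0 →
      ∀ t ∈ Set.Icc (-1 : ℝ) 1, ∀ (J : Finset ℕ) (θ : ℝ), (∀ m ∈ J, c0 + K ≤ m) → 0 ≤ θ → (J.card : ℝ) * θ ≤ 1 →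
      ∀ M M' : ℝ, (N : ℝ) ^ aM ≤ M → 5 * M + 8 * B ≤ 5 * M' →
      ∀ h : Env × Finset ℕ → Px (Pn N y) → ℝ, (∀ ω x, |h ω x| ≤ B / 2) →
      ∫ ω, rep 2 (wj μ s N (Pn N y) δk B b0 j ω t) (fun x => |QN m0 m1 (avN (wj μ s N (Pn N y) δk B b0 j ω t) J (fun _ => θ)
        (fun m => pJ 0 m) (gg μ s (Pn N y) δk B b0 ω j) (h ω)) (f y ω) x|) ∂(Pm μ N) ≤
        ∑ m ∈ J, θ * (B ^ 2 * (N : ℝ) ^ ε) * rw2 μ s N (fun _ _ x z => NI m0 m1 x z)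
          (fun y ω x => T2 (lw μ s ω.1 N (Pn N y)) (pJ 0 m) (j - b0) j (j + b0) M' x) f y +
          (B ^ 2 * (N : ℝ) ^ ε * (N : ℝ) ^ (-K') + D * Real.exp (-(N : ℝ) ^ c')) := by
  obtain ⟨δ₀, ε₁, hδ₀, hε₁, N₁, hN₁⟩ := tauE0_34 hIn hQI hκ hκ1 hε hK'
  obtain ⟨a₁, ha₁, hA⟩ := nCn34 hIn hκ
  obtain ⟨β₀, hβ₀⟩ : ∃ β₀ : ℝ, β₀ = min ε₁ (min 1 (min (aM / 2) (a₁ / 2))) := ⟨_, rfl⟩
  refine ⟨β₀, by rw [hβ₀]; exact lt_min hε₁ (lt_min one_pos (lt_min (by positivity) (by positivity))), fun δk hδk => ?_⟩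
  obtain ⟨δ₁, c1, hδ₁, -, hc1, N₂, hN₂⟩ := gw50 hIn (ε := aM / 2) hκ hδk (by positivity)
  obtain ⟨δ₂, c2, hδ₂, hc2, N₃, hN₃⟩ := hA δ₁ hδ₁
  obtain ⟨c', hc', N₄, hN₄⟩ := ev_small haM ha₁ hc1 hc2
  refine ⟨min δ₀ δ₂, c', lt_min hδ₀ hδ₂, hc', max N₁ (max N₂ (max N₃ (max N₄ 1))), fun N hN y hy hyc c0 K hc hK hcK B b0 j hB hBN hb0 hbj
    hjc cb e D f hf hce hDN m0 m1 hm0 t ht J θ hJ hθ hθJ M M' hM hMM h hh => ?_⟩
  have hne := ne_Pn hy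
  have k1 : N₁ ≤ N := (le_max_left _ _).trans hN
  have k2 : N₂ ≤ N := (le_max_left _ _).trans ((le_max_right _ _).trans hN)
  have k3 : N₃ ≤ N := (le_max_left _ _).trans ((le_max_right _ _).trans ((le_max_right _ _).trans hN))
  have k4 : N₄ ≤ N := (le_max_left _ _).trans ((le_max_right _ _).trans ((le_max_right _ _).trans ((le_max_right _ _).trans hN)))
  have k5 : 1 ≤ N := (le_max_right _ _).trans ((le_max_right _ _).trans ((le_max_right _ _).trans ((le_max_right _ _).trans hN)))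
  have hNR : (1 : ℝ) ≤ N := by exact_mod_cast k5
  have w0 : 0 ≤ wd' μ s N := zero_le_one.trans (le_max_left _ _)
  have hy0 : |(y : ℝ) - sl μ s * N| ≤ (N : ℝ) ^ δ₀ * wd' μ s N :=
    hyc.trans (mul_le_mul_of_nonneg_right (Real.rpow_le_rpow_of_exponent_le hNR (min_le_left _ _)) w0)
  have hy2 : |(y : ℝ) - sl μ s * N| ≤ (N : ℝ) ^ δ₂ * wd' μ s N :=
    hyc.trans (mul_le_mul_of_nonneg_right (Real.rpow_le_rpow_of_exponent_le hNR (min_le_right _ _)) w0)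
  have hBe : B ≤ (N : ℝ) ^ ε₁ := hBN.trans (Real.rpow_le_rpow_of_exponent_le hNR (by rw [hβ₀]; exact min_le_left _ _))
  have hBs : B ≤ (N : ℝ) ^ (min 1 (min (aM / 2) (a₁ / 2))) :=
    hBN.trans (Real.rpow_le_rpow_of_exponent_le hNR (by rw [hβ₀]; exact min_le_right _ _))
  have hD : 0 ≤ D := by
    obtain ⟨S⟩ := hne
    exact (abs_nonneg _).trans (hf.bdd y (default, ∅) S)
  have hw1 : (N : ℝ) ^ κ ≤ ((j - (j - b0) : ℕ) : ℝ) := by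
    have e1 : j - (j - b0) = b0 := by omega
    rw [e1]
    exact hb0
  have hw2 : (N : ℝ) ^ κ ≤ ((j + b0 - (j - b0) : ℕ) : ℝ) := by
    refine hb0.trans ?_
    exact_mod_cast (by omega : b0 ≤ j + b0 - (j - b0))
  have core := mic_core (m0 := m0) (m1 := m1) (ϑ := Real.exp (-(N : ℝ) ^ a₁)) hf (by omega : j + b0 ≤ N) hw1 hb0 hB ht
    (fun m hm => hjc.trans ((Nat.le_add_right _ _).trans (hJ m hm))) hθ hθJ hh M (Real.exp_pos _).le (hN₂ N k2)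
    (hN₃ N k3 y hy hy2 (j - b0) (j + b0) hw2 (by omega)) (Real.exp_pos _).le (Real.exp_pos _).le
  refine core.trans ?_
  have hT := hN₄ N k4 B D M hB hD hBs hM
  have hS : ∑ m ∈ J, θ * (B ^ 2 * ∫ ω, rep 2 (wj μ s N (Pn N y) δk B b0 j ω t)
        (tX μ s N (Pn N y) m (j - b0) j (j + b0) M m0 m1 (f y ω) ω.1) ∂(Pm μ N)) ≤
      ∑ m ∈ J, θ * (B ^ 2 * (N : ℝ) ^ ε) * rw2 μ s N (fun _ _ x z => NI m0 m1 x z)
          (fun y ω x => T2 (lw μ s ω.1 N (Pn N y)) (pJ 0 m) (j - b0) j (j + b0) M' x) f y +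
        B ^ 2 * (N : ℝ) ^ ε * (N : ℝ) ^ (-K') := by
    have hX0 : 0 ≤ B ^ 2 * (N : ℝ) ^ ε * (N : ℝ) ^ (-K') := by positivity
    calc _ ≤ ∑ m ∈ J, (θ * (B ^ 2 * (N : ℝ) ^ ε) * rw2 μ s N (fun _ _ x z => NI m0 m1 x z)
          (fun y ω x => T2 (lw μ s ω.1 N (Pn N y)) (pJ 0 m) (j - b0) j (j + b0) M' x) f y +
          θ * (B ^ 2 * (N : ℝ) ^ ε * (N : ℝ) ^ (-K'))) := sum_le_sum fun m hm => by
          have q1 := hN₁ N k1 y hy hy0 c0 K hc hK hcK δk B b0 j hB hBe hjc cb e D f hf hce hDN m0 m1 hm0 t ht m (j - b0) (j + b0) M M'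
            (hJ m hm) hMM
          rw [rw2_tX] at q1
          have q2 := mul_le_mul_of_nonneg_left (mul_le_mul_of_nonneg_left q1 (sq_nonneg B)) hθ
          refine q2.trans (le_of_eq ?_)
          ring
      _ = ∑ m ∈ J, θ * (B ^ 2 * (N : ℝ) ^ ε) * rw2 μ s N (fun _ _ x z => NI m0 m1 x z)
          (fun y ω x => T2 (lw μ s ω.1 N (Pn N y)) (pJ 0 m) (j - b0) j (j + b0) M' x) f y +
          (J.card : ℝ) * θ * (B ^ 2 * (N : ℝ) ^ ε * (N : ℝ) ^ (-K')) := by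
          rw [sum_add_distrib, sum_const, nsmul_eq_mul, mul_assoc (J.card : ℝ) θ]
      _ ≤ _ := by
          have := mul_le_mul_of_nonneg_right hθJ hX0
          linarith
  linarith

theorem abs_gX34 {B : ℝ} (hB : 0 ≤ B) {δk : ℝ} {b0 b j y : ℕ} [Nonempty (Px (Pn N y))] (ω : Env × Finset ℕ) (x : Px (Pn N y)) :
    |gX μ s N δk B b0 b j y ω x| ≤ B / 2 := abs_gb82 _ _ (fun x => abs_gg34 hB ω x) x

/-- **THE MICRO TERMS OF `e1_rowP`** (F2c): the exact response `nX` and the kick twice `nG`, with the same bound. -/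
theorem micXG34 [IsProbabilityMeasure μ] {c₀ C₀ : ℝ} {n₀ : ℕ} (hIn : In μ s c₀ C₀ n₀)
    (hQI : ∀ p : ℝ, 1 < p → ∃ C θ0 : ℝ, 0 ≤ C ∧ 0 < θ0 ∧ QI μ p C θ0) {κ : ℝ} (hκ : 0 < κ) (hκ1 : κ ≤ 1) {ε K' aM : ℝ}
    (hε : 0 < ε) (hK' : 0 ≤ K') (haM : 0 < aM) : ∃ β₀ : ℝ, 0 < β₀ ∧ ∀ δk : ℝ, 0 < δk → ∃ δ' c' : ℝ, 0 < δ' ∧ 0 < c' ∧ ∃ N₀ : ℕ,
      ∀ N : ℕ, N₀ ≤ N → ∀ y : ℕ, y ≤ N → |(y : ℝ) - sl μ s * N| ≤ ((N : ℝ) ^ δ' * wd' μ s N) →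
      ∀ c0 K : ℕ, (N : ℝ) ^ κ ≤ c0 → (N : ℝ) ^ κ ≤ K → c0 + K ≤ N → ∀ (B : ℝ) (b0 j : ℕ), 0 ≤ B → B ≤ (N : ℝ) ^ β₀ →
      (N : ℝ) ^ κ ≤ b0 → b0 ≤ j → j + b0 ≤ c0 →
      ∀ (cb e : ℕ) (D : ℝ) (f : Fam N), Cls59 N cb e D f → c0 + K ≤ e → 8 * D ≤ (N : ℝ) ^ K' → ∀ m0 m1 : ℕ, c0 + K ≤ m0 →
      ∀ t ∈ Set.Icc (-1 : ℝ) 1, ∀ (J : Finset ℕ) (θ : ℝ), (∀ m ∈ J, c0 + K ≤ m) → 0 ≤ θ → (J.card : ℝ) * θ ≤ 1 →
      ∀ M M' : ℝ, (N : ℝ) ^ aM ≤ M → 5 * M + 8 * B ≤ 5 * M' → ∀ b : ℕ,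
      (∫ ω, rep 2 (wj μ s N (Pn N y) δk B b0 j ω t)
          (fun x => |QN m0 m1 (nX μ s N δk B b0 b j t y J θ ω) (f y ω) x|) ∂(Pm μ N) ≤
        ∑ m ∈ J, θ * (B ^ 2 * (N : ℝ) ^ ε) * rw2 μ s N (fun _ _ x z => NI m0 m1 x z)
          (fun y ω x => T2 (lw μ s ω.1 N (Pn N y)) (pJ 0 m) (j - b0) j (j + b0) M' x) f y +
          (B ^ 2 * (N : ℝ) ^ ε * (N : ℝ) ^ (-K') + D * Real.exp (-(N : ℝ) ^ c'))) ∧
      ∫ ω, rep 2 (wj μ s N (Pn N y) δk B b0 j ω t)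
          (fun x => |QN m0 m1 (nG μ s N δk B b0 j t y J θ ω) (f y ω) x|) ∂(Pm μ N) ≤
        ∑ m ∈ J, θ * (B ^ 2 * (N : ℝ) ^ ε) * rw2 μ s N (fun _ _ x z => NI m0 m1 x z)
          (fun y ω x => T2 (lw μ s ω.1 N (Pn N y)) (pJ 0 m) (j - b0) j (j + b0) M' x) f y +
          (B ^ 2 * (N : ℝ) ^ ε * (N : ℝ) ^ (-K') + D * Real.exp (-(N : ℝ) ^ c')) := by
  obtain ⟨β₀, hβ₀, H⟩ := micE34 hIn hQI hκ hκ1 hε hK' haM
  refine ⟨β₀, hβ₀, fun δk hδk => ?_⟩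
  obtain ⟨δ', c', hδ', hc', N₀, H1⟩ := H δk hδk
  refine ⟨δ', c', hδ', hc', N₀, fun N hN y hy hyc c0 K hc hK hcK B b0 j hB hBN hb0 hbj hjc cb e D f hf hce hDN m0 m1 hm0 t ht J θ hJ hθ
    hθJ M M' hM hMM b => ?_⟩
  have hne := ne_Pn hy
  have k := H1 N hN y hy hyc c0 K hc hK hcK B b0 j hB hBN hb0 hbj hjc cb e D f hf hce hDN m0 m1 hm0 t ht J θ hJ hθ hθJ M M' hM hMM
  exact ⟨k (fun ω => gX μ s N δk B b0 b j y ω) fun ω x => abs_gX34 hB ω x,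
    k (fun ω => gg μ s (Pn N y) δk B b0 ω j) fun ω x => abs_gg34 hB ω x⟩

end

end Pool.Agent.W_7d29a1_C0.TauE34
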