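import Pool.Agent.W_7d29a1_C0.TauR62
import Pool.Agent.W_7d29a1_C0.TauF34

/-!
CURV0 (MP_7d29a1_pr), leaf E1f (helper62): **THE MICRO SUM OF (E1).** `mic62`: the sum over the kicked rows of the two micro terms of
`e1_rowP`, averaged over the ends, against the root of the variance of the spectator: `micXG34` (helper34) carries every row to the common
measure, `cor62` sums the near ties.
-/

set_option autoImplicit false
set_option linter.unusedSectionVars false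
set_option linter.unusedVariables false

namespace Pool.Agent.W_7d29a1_C0.E62

open Finset MeasureTheory Filter
open Pool.Agent.W_7d29a1_F Pool.Agent.W_7d29a1_X Pool.Agent.W_7d29a1_H
open Pool.Agent.W_7d29a1_HS (In wd)
open Pool.Agent.W_7d29a1_HZ (EE' wd')
open Pool.Agent.W_7d29a1_C0.Mod92 (Px Pn lw ps pJ ne_Pn wm Pm meas_lw meas_cE meas_gm meas_gv meas_wm int_bdd abs_gv_le avy avy_mono avy_const
  avy_add avy_mul avy_nonneg Fam Cls59 varF wj)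
open Pool.Agent.W_7d29a1_C0.Swap57 (NI NI_nonneg cE2)
open Pool.Agent.W_7d29a1_C0.T93 (rdist rw2 pr2 grp93 grp_steps)
open Pool.Agent.W_7d29a1_C0.NM82 (QN)
open Pool.Agent.W_7d29a1_C0.E1M82 (nX nG)
open Pool.W7d29a1.C0.H27 (QI)
open Pool.Agent.W_7d29a1_HZ.Z86 (ev_const)
open Pool.W7d29a1.C0 (gm gz gz_pos gm_nonneg gm_mono gm_const PP PP_nonneg PP_mono rep)
open Pool.W7d29a1.C0.VT31 (Mp cE fz gv gv_nonneg)

noncomputable section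

variable {μ : Measure ℝ} {s : ℝ} {N y : ℕ}

/-- The factor of the micro sum. -/
def K62 (μ : Measure ℝ) (s : ℝ) (r l b : ℕ) : ℝ :=
  r * (Real.sqrt ((EE' μ s r)⁻¹ * (EE' μ s l)⁻¹) + (EE' μ s b)⁻¹ * Real.sqrt (EE' μ s l)⁻¹)

theorem K62_nonneg (r l b : ℕ) : 0 ≤ K62 μ s r l b :=
  mul_nonneg (Nat.cast_nonneg _) (add_nonneg (Real.sqrt_nonneg _) (mul_nonneg (inv_nn62 _) (Real.sqrt_nonneg _)))

/-- **The number of one row of the slab.** -/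
theorem g62 {b l r n : ℕ} {X e Kp V : ℝ} (hX : 0 ≤ X) (he : 0 ≤ e) (hKp : 0 ≤ Kp) (hV : 0 ≤ V)
    (hpow : ∀ t r : ℕ, 1 ≤ t → t ≤ r → EE' μ s r ≤ Kp * Real.sqrt ((r : ℝ) / t) * EE' μ s t) (hb : 1 ≤ b) (hbr : b ≤ r) (hn : n ≤ r) :
    Real.sqrt (8 * n * ∑ D ∈ range r, phi62 μ s b l X e D) * Real.sqrt (2 * V) ≤
      12 * Real.sqrt X * Real.sqrt (1 + Kp) * K62 μ s r l b * Real.sqrt V + 4 * r * Real.sqrt e * Real.sqrt V := by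
  have hi := fun n => inv_nn62 (μ := μ) (s := s) n
  have hE : ∀ n, 0 < EE' μ s n := fun n => lt_of_lt_of_le one_pos (le_max_left _ _)
  have hbR : (1 : ℝ) ≤ b := by exact_mod_cast hb
  have hrb : (b : ℝ) ≤ r := by exact_mod_cast hbr
  have hr1 : (1 : ℝ) ≤ r := hbR.trans hrb
  have hnr : (n : ℝ) ≤ r := by exact_mod_cast hn
  have hS := sum_phi62 (μ := μ) (s := s) (l := l) hX he hKp hpow hb hbr
  have hS0 : 0 ≤ ∑ D ∈ range r, phi62 μ s b l X e D := sum_nonneg fun D _ => phi62_nonneg hX he D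
  obtain ⟨a, ha⟩ : ∃ a, a = Real.sqrt ((EE' μ s r)⁻¹ * (EE' μ s l)⁻¹) := ⟨_, rfl⟩
  obtain ⟨c, hc⟩ : ∃ c, c = (EE' μ s b)⁻¹ * Real.sqrt (EE' μ s l)⁻¹ := ⟨_, rfl⟩
  obtain ⟨k, hk⟩ : ∃ k, k = Real.sqrt (1 + Kp) := ⟨_, rfl⟩
  obtain ⟨x, hx⟩ : ∃ x, x = Real.sqrt X := ⟨_, rfl⟩
  obtain ⟨u, hu⟩ : ∃ u, u = Real.sqrt e := ⟨_, rfl⟩
  have a0 : 0 ≤ a := by rw [ha]; exact Real.sqrt_nonneg _
  have c0 : 0 ≤ c := by rw [hc]; exact mul_nonneg (hi _) (Real.sqrt_nonneg _)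
  have k0 : 0 ≤ k := by rw [hk]; exact Real.sqrt_nonneg _
  have x0 : 0 ≤ x := by rw [hx]; exact Real.sqrt_nonneg _
  have u0 : 0 ≤ u := by rw [hu]; exact Real.sqrt_nonneg _
  have a2 : a ^ 2 = (EE' μ s r)⁻¹ * (EE' μ s l)⁻¹ := by rw [ha]; exact Real.sq_sqrt (mul_nonneg (hi _) (hi _))
  have c2 : c ^ 2 = (EE' μ s b)⁻¹ * (EE' μ s b)⁻¹ * (EE' μ s l)⁻¹ := by
    rw [hc, mul_pow, Real.sq_sqrt (hi _)]
    ring
  have k2 : k ^ 2 = 1 + Kp := by rw [hk]; exact Real.sq_sqrt (by linarith)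
  have x2 : x ^ 2 = X := by rw [hx]; exact Real.sq_sqrt hX
  have u2 : u ^ 2 = e := by rw [hu]; exact Real.sq_sqrt he
  -- `b / E_b` against `r / E_r`
  have hbE : (b : ℝ) * (EE' μ s b)⁻¹ ≤ Kp * (r * (EE' μ s r)⁻¹) := by
    have h1 := hpow b r hb hbr
    have h2 : Real.sqrt ((r : ℝ) / b) ≤ r / b := by
      have h3 : (1 : ℝ) ≤ r / b := by rw [le_div_iff₀ (by linarith)]; linarith
      rw [Real.sqrt_le_left (by linarith)]
      nlinarith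
    have h3 : EE' μ s r ≤ Kp * (r / b) * EE' μ s b :=
      h1.trans (mul_le_mul_of_nonneg_right (mul_le_mul_of_nonneg_left h2 hKp) (hE b).le)
    have h4 : (b : ℝ) * EE' μ s r ≤ Kp * r * EE' μ s b := by
      have h5 := mul_le_mul_of_nonneg_left h3 (show (0 : ℝ) ≤ b by linarith)
      refine h5.trans (le_of_eq ?_)
      field_simp
    have h6 := mul_le_mul_of_nonneg_left h4 (mul_nonneg (hi b) (hi r))
    have e1 : (EE' μ s b)⁻¹ * EE' μ s b = 1 := inv_mul_cancel₀ (hE b).ne'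
    have e2 : (EE' μ s r)⁻¹ * EE' μ s r = 1 := inv_mul_cancel₀ (hE r).ne'
    calc (b : ℝ) * (EE' μ s b)⁻¹ = (EE' μ s b)⁻¹ * (EE' μ s r)⁻¹ * (b * EE' μ s r) := by
          calc _ = (b : ℝ) * (EE' μ s b)⁻¹ * ((EE' μ s r)⁻¹ * EE' μ s r) := by rw [e2, mul_one]
            _ = _ := by ring
      _ ≤ _ := h6
      _ = Kp * (r * (EE' μ s r)⁻¹) * ((EE' μ s b)⁻¹ * EE' μ s b) := by ring
      _ = _ := by rw [e1, mul_one]
  have hA : 2 * (8 * n * ∑ D ∈ range r, phi62 μ s b l X e D) ≤ (4 * r * (x * (3 * k * (a + c)) + u)) ^ 2 := by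
    have s1 : ∑ D ∈ range r, phi62 μ s b l X e D ≤ r * (X * (7 * Kp * a ^ 2 + c ^ 2) + e) := by
      refine hS.trans ?_
      have t1 : (4 * b * (EE' μ s b)⁻¹ + 3 * Kp * (r / EE' μ s r) + r * ((EE' μ s b)⁻¹ * (EE' μ s b)⁻¹)) * (EE' μ s l)⁻¹ ≤
          r * (7 * Kp * a ^ 2 + c ^ 2) := by
        rw [a2, c2]
        have t2 : 4 * b * (EE' μ s b)⁻¹ + 3 * Kp * (r / EE' μ s r) + r * ((EE' μ s b)⁻¹ * (EE' μ s b)⁻¹) ≤
            7 * Kp * (r * (EE' μ s r)⁻¹) + r * ((EE' μ s b)⁻¹ * (EE' μ s b)⁻¹) := by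
          rw [div_eq_mul_inv]
          linarith
        calc _ ≤ (7 * Kp * (r * (EE' μ s r)⁻¹) + r * ((EE' μ s b)⁻¹ * (EE' μ s b)⁻¹)) * (EE' μ s l)⁻¹ :=
              mul_le_mul_of_nonneg_right t2 (hi _)
          _ = _ := by ring
      calc _ ≤ X * (r * (7 * Kp * a ^ 2 + c ^ 2)) + r * e := add_le_add (mul_le_mul_of_nonneg_left t1 hX) le_rfl
        _ = _ := by ring
    have s2 : 0 ≤ X * (7 * Kp * a ^ 2 + c ^ 2) + e := by positivity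
    have s3 : X * (7 * Kp * a ^ 2 + c ^ 2) + e ≤ (x * (3 * k * (a + c)) + u) ^ 2 := by
      have s4 : 7 * Kp * a ^ 2 + c ^ 2 ≤ (3 * k * (a + c)) ^ 2 := by
        have s5 : (3 * k * (a + c)) ^ 2 = 9 * (1 + Kp) * (a + c) ^ 2 := by
          rw [mul_pow, mul_pow, k2]
          ring
        rw [s5]
        have s6 : 0 ≤ a * c := mul_nonneg a0 c0
        have s7 : 0 ≤ Kp * (a * c) := mul_nonneg hKp s6
        have s8 : 0 ≤ Kp * a ^ 2 := by positivity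
        have s9 : 0 ≤ Kp * c ^ 2 := by positivity
        nlinarith [sq_nonneg a, sq_nonneg c]
      have s5 : X * (7 * Kp * a ^ 2 + c ^ 2) ≤ X * (3 * k * (a + c)) ^ 2 := mul_le_mul_of_nonneg_left s4 hX
      have s6 : (x * (3 * k * (a + c)) + u) ^ 2 = X * (3 * k * (a + c)) ^ 2 + e + 2 * (x * (3 * k * (a + c)) * u) := by
        rw [← x2, ← u2]
        ring
      rw [s6]
      have s7 : 0 ≤ x * (3 * k * (a + c)) * u := by positivity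
      linarith
    calc 2 * (8 * n * ∑ D ∈ range r, phi62 μ s b l X e D) = 16 * (n * ∑ D ∈ range r, phi62 μ s b l X e D) := by ring
      _ ≤ 16 * (r * (r * (X * (7 * Kp * a ^ 2 + c ^ 2) + e))) := by
          refine mul_le_mul_of_nonneg_left ?_ (by norm_num)
          exact mul_le_mul hnr s1 hS0 (by linarith)
      _ ≤ 16 * (r * (r * (x * (3 * k * (a + c)) + u) ^ 2)) := by
          refine mul_le_mul_of_nonneg_left ?_ (by norm_num)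
          refine mul_le_mul_of_nonneg_left ?_ (by linarith)
          exact mul_le_mul_of_nonneg_left s3 (by linarith)
      _ = _ := by ring
  have hB : Real.sqrt (8 * n * ∑ D ∈ range r, phi62 μ s b l X e D) * Real.sqrt (2 * V) =
      Real.sqrt (2 * (8 * n * ∑ D ∈ range r, phi62 μ s b l X e D)) * Real.sqrt V := by
    have p1 : 0 ≤ 8 * n * ∑ D ∈ range r, phi62 μ s b l X e D := by positivity
    rw [← Real.sqrt_mul p1, ← Real.sqrt_mul (by positivity)]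
    congr 1
    ring
  rw [hB]
  have hC : Real.sqrt (2 * (8 * n * ∑ D ∈ range r, phi62 μ s b l X e D)) ≤ 4 * r * (x * (3 * k * (a + c)) + u) := by
    refine (Real.sqrt_le_sqrt hA).trans_eq (Real.sqrt_sq ?_)
    have : (0 : ℝ) ≤ r := by linarith
    positivity
  refine (mul_le_mul_of_nonneg_right hC (Real.sqrt_nonneg V)).trans (le_of_eq ?_)
  unfold K62
  rw [← ha, ← hc, ← hk, ← hx, ← hu]
  ring

/-! ### The numbers -/

theorem num62 {ε K₁ c₃ c' : ℝ} (hε : 0 < ε) (hK₁ : 0 ≤ K₁) (hc₃ : 0 < c₃) (hc' : 0 < c') : ∃ L₀ : ℕ, ∀ N : ℕ, L₀ ≤ N →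
    1 ≤ N ∧ 24 * ((N : ℝ) ^ (ε / 3) * Real.sqrt ((N : ℝ) ^ (ε / 3))) ≤ (N : ℝ) ^ ε ∧
    ∀ B D r : ℝ, 0 ≤ B → 0 ≤ D → 0 ≤ r → B ≤ N → 8 * D ≤ (N : ℝ) ^ K₁ → r ≤ N →
      8 * (B ^ 2 * (N : ℝ) ^ (ε / 3)) * r * Real.sqrt (52 * Real.exp (-(N : ℝ) ^ c₃)) * D +
        r * (2 * (B ^ 2 * (N : ℝ) ^ (ε / 3) * (N : ℝ) ^ (-(K₁ + ε + 5)) + D * Real.exp (-(N : ℝ) ^ c'))) ≤ (N : ℝ) ^ (-K₁) := by
  have E1 := Pool.Agent.W_7d29a1_HZ.Z74.ev_exp (A := 8) (a := 1 / 2) (by norm_num) (by norm_num) hc₃ (show c₃ / 2 < c₃ by linarith)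
    (3 + ε / 3 + 2 * K₁)
  have E2 := Pool.Agent.W_7d29a1_HZ.Z74.ev_exp (A := 8) (a := 1) (by norm_num) (by norm_num) hc' (show c' / 2 < c' by linarith)
    (1 + 2 * K₁)
  obtain ⟨L1, hL1⟩ := eventually_atTop.1 (E1.and E2)
  obtain ⟨L2, hL2⟩ := ev_const (24 : ℝ) (show 0 < ε / 3 by positivity)
  refine ⟨L1 + L2 + 8, fun N hN => ?_⟩
  obtain ⟨g1, g2⟩ := hL1 N (by omega)
  have g3 := hL2 N (by omega)
  have hNR : (8 : ℝ) ≤ N := by exact_mod_cast (show 8 ≤ N by omega)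
  have hN1 : (1 : ℝ) ≤ N := by linarith
  have hN0 : (0 : ℝ) < N := by linarith
  obtain ⟨z, hz⟩ : ∃ z : ℝ, z = (N : ℝ) ^ (ε / 3) := ⟨_, rfl⟩
  have z0 : 0 < z := by rw [hz]; positivity
  have z1 : 1 ≤ z := by rw [hz]; exact Real.one_le_rpow hN1 (by positivity)
  have hz3 : (N : ℝ) ^ ε = z * z * z := by
    rw [hz, ← Real.rpow_add hN0, ← Real.rpow_add hN0]
    congr 1
    ring
  rw [← hz] at g3
  refine ⟨by omega, ?_, fun B D r hB hD hr hBN hDN hrN => ?_⟩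
  · rw [← hz, hz3]
    have h1 : Real.sqrt z ≤ z := by
      rw [Real.sqrt_le_left z0.le]
      nlinarith
    calc 24 * (z * Real.sqrt z) ≤ 24 * (z * z) := by
          refine mul_le_mul_of_nonneg_left (mul_le_mul_of_nonneg_left h1 z0.le) (by norm_num)
      _ ≤ z * (z * z) := mul_le_mul_of_nonneg_right g3 (by positivity)
      _ = _ := by ring
  · have hB2 : B ^ 2 ≤ (N : ℝ) ^ (2 : ℝ) := by
      rw [show ((2 : ℝ)) = ((2 : ℕ) : ℝ) by norm_num, Real.rpow_natCast]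
      exact pow_le_pow_left₀ hB hBN 2
    have hr' : r ≤ (N : ℝ) ^ (1 : ℝ) := by rw [Real.rpow_one]; exact hrN
    have hD' : D ≤ (N : ℝ) ^ K₁ / 8 := by linarith
    have hP : ∀ x : ℝ, 0 ≤ (N : ℝ) ^ x := fun x => Real.rpow_nonneg hN0.le x
    have w0 : 0 < (N : ℝ) ^ (-K₁) := Real.rpow_pos_of_pos hN0 _
    -- first error
    have s1 : Real.sqrt (52 * Real.exp (-(N : ℝ) ^ c₃)) ≤ 8 * Real.exp (-(1 / 2 * (N : ℝ) ^ c₃)) := by
      rw [Real.sqrt_le_left (by positivity), mul_pow, ← Real.exp_nat_mul]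
      have e1 : ((2 : ℕ) : ℝ) * (-(1 / 2 * (N : ℝ) ^ c₃)) = -(N : ℝ) ^ c₃ := by
        push_cast
        ring
      rw [e1]
      have := Real.exp_pos (-(N : ℝ) ^ c₃)
      nlinarith
    have m1 : B ^ 2 * (N : ℝ) ^ (ε / 3) * r * D ≤ (N : ℝ) ^ (3 + ε / 3 + 2 * K₁) * ((N : ℝ) ^ (-K₁) / 8) := by
      calc _ ≤ (N : ℝ) ^ (2 : ℝ) * (N : ℝ) ^ (ε / 3) * (N : ℝ) ^ (1 : ℝ) * ((N : ℝ) ^ K₁ / 8) := by
            refine mul_le_mul (mul_le_mul (mul_le_mul_of_nonneg_right hB2 (hP _)) hr' hr ?_) hD' hD ?_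
            · exact mul_nonneg (hP _) (hP _)
            · exact mul_nonneg (mul_nonneg (hP _) (hP _)) (hP _)
        _ = ((N : ℝ) ^ (2 : ℝ) * (N : ℝ) ^ (ε / 3) * (N : ℝ) ^ (1 : ℝ) * (N : ℝ) ^ K₁) / 8 := by ring
        _ = _ := by
            rw [← Real.rpow_add hN0, ← Real.rpow_add hN0, ← Real.rpow_add hN0, mul_div_assoc', ← Real.rpow_add hN0]
            congr 2
            ring
    have t1 : 8 * (B ^ 2 * (N : ℝ) ^ (ε / 3)) * r * Real.sqrt (52 * Real.exp (-(N : ℝ) ^ c₃)) * D ≤ (N : ℝ) ^ (-K₁) / 2 := by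
      have h0 : 0 ≤ B ^ 2 * (N : ℝ) ^ (ε / 3) * r * D := mul_nonneg (mul_nonneg (mul_nonneg (sq_nonneg _) (hP _)) hr) hD
      have h1 : Real.exp (-(N : ℝ) ^ (c₃ / 2)) ≤ 1 := Real.exp_le_one_iff.2 (neg_nonpos.2 (hP _))
      have h2 : (N : ℝ) ^ (3 + ε / 3 + 2 * K₁) * Real.exp (-(1 / 2 * (N : ℝ) ^ c₃)) ≤ 1 / 16 := by linarith
      calc _ = 8 * (B ^ 2 * (N : ℝ) ^ (ε / 3) * r * D) * Real.sqrt (52 * Real.exp (-(N : ℝ) ^ c₃)) := by ring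
        _ ≤ 8 * ((N : ℝ) ^ (3 + ε / 3 + 2 * K₁) * ((N : ℝ) ^ (-K₁) / 8)) * (8 * Real.exp (-(1 / 2 * (N : ℝ) ^ c₃))) :=
            mul_le_mul (mul_le_mul_of_nonneg_left m1 (by norm_num)) s1 (Real.sqrt_nonneg _)
              (mul_nonneg (by norm_num) (mul_nonneg (hP _) (by positivity)))
        _ = 8 * (N : ℝ) ^ (-K₁) * ((N : ℝ) ^ (3 + ε / 3 + 2 * K₁) * Real.exp (-(1 / 2 * (N : ℝ) ^ c₃))) := by ring
        _ ≤ 8 * (N : ℝ) ^ (-K₁) * (1 / 16) := mul_le_mul_of_nonneg_left h2 (by positivity)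
        _ = _ := by ring
    -- second error
    have m2 : r * (2 * (B ^ 2 * (N : ℝ) ^ (ε / 3) * (N : ℝ) ^ (-(K₁ + ε + 5)))) ≤ (N : ℝ) ^ (-K₁) / 4 := by
      have h1 : r * (B ^ 2 * (N : ℝ) ^ (ε / 3) * (N : ℝ) ^ (-(K₁ + ε + 5))) ≤ (N : ℝ) ^ (-K₁) * (N : ℝ) ^ (-(1 : ℝ)) := by
        calc _ ≤ (N : ℝ) ^ (1 : ℝ) * ((N : ℝ) ^ (2 : ℝ) * (N : ℝ) ^ (ε / 3) * (N : ℝ) ^ (-(K₁ + ε + 5))) := by
              refine mul_le_mul hr' (mul_le_mul_of_nonneg_right (mul_le_mul_of_nonneg_right hB2 (hP _)) (hP _)) ?_ (hP _)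
              exact mul_nonneg (mul_nonneg (sq_nonneg _) (hP _)) (hP _)
          _ = (N : ℝ) ^ (1 + (2 + ε / 3 + -(K₁ + ε + 5))) := by
              rw [← Real.rpow_add hN0, ← Real.rpow_add hN0, ← Real.rpow_add hN0]
          _ ≤ (N : ℝ) ^ (-K₁ + -(1 : ℝ)) := Real.rpow_le_rpow_of_exponent_le hN1 (by linarith)
          _ = _ := Real.rpow_add hN0 _ _
      have h2 : (N : ℝ) ^ (-(1 : ℝ)) ≤ 1 / 8 := by
        rw [Real.rpow_neg hN0.le, Real.rpow_one, one_div]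
        exact inv_anti₀ (by norm_num) hNR
      have h3 := mul_le_mul_of_nonneg_left h2 w0.le
      linarith
    -- third error
    have t3 : r * (2 * (D * Real.exp (-(N : ℝ) ^ c'))) ≤ (N : ℝ) ^ (-K₁) / 4 := by
      have m3 : r * D ≤ (N : ℝ) ^ (1 + 2 * K₁) * ((N : ℝ) ^ (-K₁) / 8) := by
        calc _ ≤ (N : ℝ) ^ (1 : ℝ) * ((N : ℝ) ^ K₁ / 8) := mul_le_mul hr' hD' hD (hP _)
          _ = ((N : ℝ) ^ (1 : ℝ) * (N : ℝ) ^ K₁) / 8 := by ring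
          _ = _ := by
              rw [← Real.rpow_add hN0, mul_div_assoc', ← Real.rpow_add hN0]
              congr 2
              ring
      have h1 : Real.exp (-(N : ℝ) ^ (c' / 2)) ≤ 1 := Real.exp_le_one_iff.2 (neg_nonpos.2 (hP _))
      rw [one_mul] at g2
      have h2 : (N : ℝ) ^ (1 + 2 * K₁) * Real.exp (-(N : ℝ) ^ c') ≤ 1 / 16 := by linarith
      have he := (Real.exp_pos (-(N : ℝ) ^ c')).le
      calc _ = 2 * (r * D) * Real.exp (-(N : ℝ) ^ c') := by ring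
        _ ≤ 2 * ((N : ℝ) ^ (1 + 2 * K₁) * ((N : ℝ) ^ (-K₁) / 8)) * Real.exp (-(N : ℝ) ^ c') :=
            mul_le_mul_of_nonneg_right (mul_le_mul_of_nonneg_left m3 (by norm_num)) he
        _ = (N : ℝ) ^ (-K₁) / 4 * ((N : ℝ) ^ (1 + 2 * K₁) * Real.exp (-(N : ℝ) ^ c')) := by ring
        _ ≤ (N : ℝ) ^ (-K₁) / 4 * (1 / 16) := mul_le_mul_of_nonneg_left h2 (by positivity)
        _ ≤ _ := by linarith
    calc _ = 8 * (B ^ 2 * (N : ℝ) ^ (ε / 3)) * r * Real.sqrt (52 * Real.exp (-(N : ℝ) ^ c₃)) * D +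
          (r * (2 * (B ^ 2 * (N : ℝ) ^ (ε / 3) * (N : ℝ) ^ (-(K₁ + ε + 5)))) + r * (2 * (D * Real.exp (-(N : ℝ) ^ c')))) := by ring
      _ ≤ (N : ℝ) ^ (-K₁) / 2 + ((N : ℝ) ^ (-K₁) / 4 + (N : ℝ) ^ (-K₁) / 4) := add_le_add t1 (add_le_add m2 t3)
      _ = _ := by ring

/-- The near ties of helper34's `micXG34` are `uT`. -/
theorem T2_uT62 (m b0 j : ℕ) (M : ℝ) (ω : Env × Finset ℕ) (x : Px (Pn N y)) :
    T2 (lw μ s ω.1 N (Pn N y)) (pJ 0 m) (j - b0) j (j + b0) M x = uT (wm μ s N (Pn N y) ω) m b0 M j x := rfl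

/-- **THE MICRO SUM OF (E1)**: both micro terms of `E1M82.e1_rowP`, summed over the kicked rows and averaged over the ends. -/
theorem mic62 [IsProbabilityMeasure μ] {c₀ C₀ : ℝ} {n₀ : ℕ} (h : In μ s c₀ C₀ n₀)
    (hQI : ∀ p : ℝ, 1 < p → ∃ C θ0 : ℝ, 0 ≤ C ∧ 0 < θ0 ∧ QI μ p C θ0) {θ ε K₁ : ℝ} (hθ : 0 < θ) (hθ1 : θ ≤ 1) (hε : 0 < ε)
    (hK₁ : 0 ≤ K₁) : ∃ β₀ : ℝ, 0 < β₀ ∧ ∀ δk : ℝ, 0 < δk → ∃ δ' : ℝ, 0 < δ' ∧ ∃ N₀ : ℕ, ∀ N : ℕ, N₀ ≤ N →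
      ∀ ys : Finset ℕ, ys.Nonempty → (∀ y ∈ ys, y ≤ N ∧ |(y : ℝ) - sl μ s * N| ≤ ((N : ℝ) ^ δ' * wd' μ s N)) →
      ∀ c0 Ks : ℕ, (N : ℝ) ^ θ ≤ c0 → (N : ℝ) ^ θ ≤ Ks → c0 + Ks ≤ N → ∀ (B : ℝ) (b0 : ℕ), 0 ≤ B → B ≤ (N : ℝ) ^ β₀ →
      (N : ℝ) ^ θ ≤ b0 → ∀ (cb e : ℕ) (D : ℝ) (f : Fam N), Cls59 N cb e D f → c0 + Ks ≤ e → 8 * D ≤ (N : ℝ) ^ K₁ →
      ∀ m0 m1 l : ℕ, c0 + Ks ≤ m0 → m0 + l ≤ m1 → m1 ≤ N → (N : ℝ) ^ θ ≤ l →
      ∀ (J : Finset ℕ) (ϑ : ℝ), (∀ m ∈ J, c0 + Ks ≤ m ∧ m ≤ m0) → 0 ≤ ϑ → (J.card : ℝ) * ϑ ≤ 1 →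
      ∀ (S : Finset ℕ) (c r : ℕ), (∀ j ∈ S, b0 ≤ j ∧ j + b0 ≤ c0 ∧ c ≤ j ∧ j < c + r) → b0 ≤ r → r ≤ N →
      ∀ Kp : ℝ, 0 ≤ Kp → (∀ t r : ℕ, 1 ≤ t → t ≤ r → EE' μ s r ≤ Kp * Real.sqrt ((r : ℝ) / t) * EE' μ s t) →
      ∀ t ∈ Set.Icc (-1 : ℝ) 1, ∀ b : ℕ,
      ∑ j ∈ S, avy ys (fun y =>
          ∫ ω, rep 2 (wj μ s N (Pn N y) δk B b0 j ω t)
            (fun x => |QN m0 m1 (nX μ s N δk B b0 b j t y J ϑ ω) (f y ω) x|) ∂(Pm μ N) +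
          ∫ ω, rep 2 (wj μ s N (Pn N y) δk B b0 j ω t)
            (fun x => |QN m0 m1 (nG μ s N δk B b0 j t y J ϑ ω) (f y ω) x|) ∂(Pm μ N)) ≤
        (N : ℝ) ^ ε * B ^ 2 * Real.sqrt (1 + Kp) * K62 μ s r l b0 * Real.sqrt (avy ys (varF μ s N f)) + (N : ℝ) ^ (-K₁) := by
  obtain ⟨δ₁, κ, c₂, hδ₁, hκ, hc₂, L₁, hcor⟩ := cor62 h (ε / 3) θ (by positivity) hθ
  obtain ⟨β₁, hβ₁, hmic⟩ := TauE34.micXG34 h hQI hθ hθ1 (ε := ε / 3) (K' := K₁ + ε + 5) (aM := κ / 2) (by positivity) (by linarith)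
    (by positivity)
  refine ⟨min β₁ (min 1 (κ / 2)), lt_min hβ₁ (lt_min one_pos (by positivity)), fun δk hδk => ?_⟩
  obtain ⟨δ₂, c', hδ₂, hc', L₂, hX⟩ := hmic δk hδk
  obtain ⟨c₃, hc₃⟩ : ∃ c₃, c₃ = min c₂ (κ / 2) := ⟨_, rfl⟩
  have hc₃0 : 0 < c₃ := by rw [hc₃]; exact lt_min hc₂ (by positivity)
  obtain ⟨L₃, hnum⟩ := num62 hε hK₁ hc₃0 hc'
  obtain ⟨L₄, h8⟩ := ev_const (8 : ℝ) (show 0 < κ / 2 by positivity)
  refine ⟨min δ₁ δ₂, lt_min hδ₁ hδ₂, L₁ + L₂ + L₃ + L₄ + 1, ?_⟩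
  intro N hN ys hne hys c0 Ks hc0 hKs hcK B b0 hB hBN hb0 cb e D f hf hce hDN m0 m1 l hcm hml hmN hl J ϑ hJ hϑ hJϑ S c r hS hbr hrN
    Kp hKp hpow t ht b
  obtain ⟨-, n2, n3⟩ := hnum N (by omega)
  have hNR : (1 : ℝ) ≤ N := by exact_mod_cast (show 1 ≤ N by omega)
  have hN0 : (0 : ℝ) < N := by linarith
  have hwd : 0 < wd' μ s N := lt_of_lt_of_le one_pos (le_max_left _ _)
  have hcone : ∀ δ', min δ₁ δ₂ ≤ δ' → ∀ y ∈ ys, y ≤ N ∧ |(y : ℝ) - sl μ s * N| ≤ ((N : ℝ) ^ δ' * wd' μ s N) := fun δ' hδ' y hy =>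
    ⟨(hys y hy).1, (hys y hy).2.trans (mul_le_mul_of_nonneg_right (Real.rpow_le_rpow_of_exponent_le hNR hδ') hwd.le)⟩
  have hD : 0 ≤ D := by
    obtain ⟨y, hy⟩ := hne
    obtain ⟨S⟩ := ne_Pn (hys y hy).1
    exact (abs_nonneg _).trans (hf.bdd y (default, ∅) S)
  have hB1 : B ≤ (N : ℝ) ^ β₁ := hBN.trans (Real.rpow_le_rpow_of_exponent_le hNR (min_le_left _ _))
  have hB2 : B ≤ N := by
    have h1 : (N : ℝ) ^ min β₁ (min 1 (κ / 2)) ≤ (N : ℝ) ^ (1 : ℝ) :=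
      Real.rpow_le_rpow_of_exponent_le hNR ((min_le_right _ _).trans (min_le_left _ _))
    rw [Real.rpow_one] at h1
    exact hBN.trans h1
  have hB3 : B ≤ (N : ℝ) ^ (κ / 2) :=
    hBN.trans (Real.rpow_le_rpow_of_exponent_le hNR ((min_le_right _ _).trans (min_le_right _ _)))
  have hb01 : 1 ≤ b0 := by
    have : (1 : ℝ) ≤ b0 := (Real.one_le_rpow hNR hθ.le).trans hb0
    exact_mod_cast this
  -- the level of the ties
  obtain ⟨M', hM'⟩ : ∃ M' : ℝ, M' = (N : ℝ) ^ (κ / 2) + 2 * B := ⟨_, rfl⟩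
  have hM8 : 8 ≤ M' := by
    have := h8 N (by omega)
    rw [hM']
    linarith
  have hMκ : M' ≤ (N : ℝ) ^ κ := by
    have e1 : (N : ℝ) ^ κ = (N : ℝ) ^ (κ / 2) * (N : ℝ) ^ (κ / 2) := by rw [← Real.rpow_add hN0, add_halves]
    have e2 := h8 N (by omega)
    rw [hM', e1]
    nlinarith
  have hMM : 5 * (N : ℝ) ^ (κ / 2) + 8 * B ≤ 5 * M' := by
    rw [hM']
    linarith
  obtain ⟨ee, hee⟩ : ∃ ee : ℝ, ee = 8 * Real.exp (-(N : ℝ) ^ c₂) + 44 * Real.exp (-M') := ⟨_, rfl⟩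
  have hee0 : 0 ≤ ee := by
    rw [hee]
    positivity
  have hee1 : ee ≤ 52 * Real.exp (-(N : ℝ) ^ c₃) := by
    have e1 : Real.exp (-(N : ℝ) ^ c₂) ≤ Real.exp (-(N : ℝ) ^ c₃) :=
      Real.exp_le_exp.2 (neg_le_neg (Real.rpow_le_rpow_of_exponent_le hNR (by rw [hc₃]; exact min_le_left _ _)))
    have e2 : Real.exp (-M') ≤ Real.exp (-(N : ℝ) ^ c₃) := by
      refine Real.exp_le_exp.2 (neg_le_neg ?_)
      have e3 : (N : ℝ) ^ c₃ ≤ (N : ℝ) ^ (κ / 2) := Real.rpow_le_rpow_of_exponent_le hNR (by rw [hc₃]; exact min_le_right _ _)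
      rw [hM']
      linarith
    rw [hee]
    linarith
  obtain ⟨V, hV⟩ : ∃ V : ℝ, V = avy ys (varF μ s N f) := ⟨_, rfl⟩
  have hV0 : 0 ≤ V := by
    rw [hV]
    refine avy_nonneg fun y hy => ?_
    have := ne_Pn (hys y hy).1
    exact integral_nonneg fun ω => gv_nonneg _ _
  have hVD : Real.sqrt V ≤ D := by
    have h1 : V ≤ D ^ 2 := by
      rw [hV, ← avy_const hne (D ^ 2)]
      refine avy_mono fun y hy => ?_
      have := ne_Pn (hys y hy).1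
      have h2 : ∀ ω : Env × Finset ℕ, gv (wm μ s N (Pn N y) ω) (f y ω) ≤ D ^ 2 := fun ω =>
        (le_abs_self _).trans (abs_gv_le _ (hf.bdd y ω))
      have h3 := integral_mono_of_nonneg (μ := Pm μ N) (Filter.Eventually.of_forall fun ω => gv_nonneg (wm μ s N (Pn N y) ω) (f y ω))
        (integrable_const (D ^ 2)) (Filter.Eventually.of_forall h2)
      rw [integral_const, probReal_univ, one_smul] at h3
      exact h3
    calc Real.sqrt V ≤ Real.sqrt (D ^ 2) := Real.sqrt_le_sqrt h1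
      _ = D := Real.sqrt_sq hD
  -- the number of elements of `S`
  have hSr : S.card ≤ r := by
    have h1 : S ⊆ Ico c (c + r) := fun j hj => mem_Ico.2 (hS j hj).2.2
    have h2 := card_le_card h1
    rw [Nat.card_Ico] at h2
    omega
  -- one level
  obtain ⟨G, hG⟩ : ∃ G : ℝ, G = Real.sqrt (8 * S.card * ∑ D ∈ range r, phi62 μ s b0 l ((N : ℝ) ^ (ε / 3)) ee D) *
    Real.sqrt (2 * V) := ⟨_, rfl⟩
  have hG0 : 0 ≤ G := by
    rw [hG]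
    exact mul_nonneg (Real.sqrt_nonneg _) (Real.sqrt_nonneg _)
  have key := grp_steps (ys := ys) (S := S) hne J
    (T := fun j y => ∫ ω, rep 2 (wj μ s N (Pn N y) δk B b0 j ω t)
            (fun x => |QN m0 m1 (nX μ s N δk B b0 b j t y J ϑ ω) (f y ω) x|) ∂(Pm μ N) +
          ∫ ω, rep 2 (wj μ s N (Pn N y) δk B b0 j ω t)
            (fun x => |QN m0 m1 (nG μ s N δk B b0 j t y J ϑ ω) (f y ω) x|) ∂(Pm μ N))
    (a := fun _ => 2 * (ϑ * (B ^ 2 * (N : ℝ) ^ (ε / 3))))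
    (R := fun m j y => rw2 μ s N (fun _ _ x z => NI m0 m1 x z)
          (fun y ω x => T2 (lw μ s ω.1 N (Pn N y)) (pJ 0 m) (j - b0) j (j + b0) M' x) f y)
    (e := 2 * (B ^ 2 * (N : ℝ) ^ (ε / 3) * (N : ℝ) ^ (-(K₁ + ε + 5)) + D * Real.exp (-(N : ℝ) ^ c')))
    (G := fun _ => G) ?_ ?_ ?_
  · have h1 := (le_abs_self _).trans key
    refine h1.trans ?_
    rw [sum_const, nsmul_eq_mul]
    have h2 : (J.card : ℝ) * (2 * (ϑ * (B ^ 2 * (N : ℝ) ^ (ε / 3))) * G) ≤ 2 * (B ^ 2 * (N : ℝ) ^ (ε / 3)) * G := by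
      have h3 : 0 ≤ 2 * (B ^ 2 * (N : ℝ) ^ (ε / 3)) * G := by positivity
      have h4 := mul_le_mul_of_nonneg_right hJϑ h3
      rw [one_mul] at h4
      refine le_trans (le_of_eq ?_) h4
      ring
    have h5 := g62 (μ := μ) (s := s) (b := b0) (l := l) (r := r) (n := S.card) (X := (N : ℝ) ^ (ε / 3)) (Real.rpow_nonneg hN0.le _)
      hee0 hKp hV0 hpow hb01 hbr hSr
    rw [← hG] at h5
    have h6 : 2 * (B ^ 2 * (N : ℝ) ^ (ε / 3)) * G ≤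
        (N : ℝ) ^ ε * B ^ 2 * Real.sqrt (1 + Kp) * K62 μ s r l b0 * Real.sqrt V +
        8 * (B ^ 2 * (N : ℝ) ^ (ε / 3)) * r * Real.sqrt (52 * Real.exp (-(N : ℝ) ^ c₃)) * D := by
      have p0 : 0 ≤ 2 * (B ^ 2 * (N : ℝ) ^ (ε / 3)) := by positivity
      have p1 : Real.sqrt ee * Real.sqrt V ≤ Real.sqrt (52 * Real.exp (-(N : ℝ) ^ c₃)) * D :=
        mul_le_mul (Real.sqrt_le_sqrt hee1) hVD (Real.sqrt_nonneg _) (Real.sqrt_nonneg _)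
      have p2 : 0 ≤ B ^ 2 * (Real.sqrt (1 + Kp) * K62 μ s r l b0 * Real.sqrt V) :=
        mul_nonneg (sq_nonneg _) (mul_nonneg (mul_nonneg (Real.sqrt_nonneg _) (K62_nonneg _ _ _)) (Real.sqrt_nonneg _))
      have p3 : 0 ≤ 8 * (B ^ 2 * (N : ℝ) ^ (ε / 3)) * r := by positivity
      calc _ ≤ 2 * (B ^ 2 * (N : ℝ) ^ (ε / 3)) * (12 * Real.sqrt ((N : ℝ) ^ (ε / 3)) * Real.sqrt (1 + Kp) * K62 μ s r l b0 * Real.sqrt V +
            4 * r * Real.sqrt ee * Real.sqrt V) := mul_le_mul_of_nonneg_left h5 p0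
        _ = 24 * ((N : ℝ) ^ (ε / 3) * Real.sqrt ((N : ℝ) ^ (ε / 3))) * (B ^ 2 * (Real.sqrt (1 + Kp) * K62 μ s r l b0 * Real.sqrt V)) +
            8 * (B ^ 2 * (N : ℝ) ^ (ε / 3)) * r * (Real.sqrt ee * Real.sqrt V) := by ring
        _ ≤ (N : ℝ) ^ ε * (B ^ 2 * (Real.sqrt (1 + Kp) * K62 μ s r l b0 * Real.sqrt V)) +
            8 * (B ^ 2 * (N : ℝ) ^ (ε / 3)) * r * (Real.sqrt (52 * Real.exp (-(N : ℝ) ^ c₃)) * D) :=
            add_le_add (mul_le_mul_of_nonneg_right n2 p2) (mul_le_mul_of_nonneg_left p1 p3)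
        _ = _ := by ring
    have h7 := n3 B D r hB hD (Nat.cast_nonneg _) hB2 hDN (by exact_mod_cast hrN)
    have h8 : (S.card : ℝ) * (2 * (B ^ 2 * (N : ℝ) ^ (ε / 3) * (N : ℝ) ^ (-(K₁ + ε + 5)) + D * Real.exp (-(N : ℝ) ^ c'))) ≤
        r * (2 * (B ^ 2 * (N : ℝ) ^ (ε / 3) * (N : ℝ) ^ (-(K₁ + ε + 5)) + D * Real.exp (-(N : ℝ) ^ c'))) :=
      mul_le_mul_of_nonneg_right (by exact_mod_cast hSr) (by positivity)
    rw [← hV]
    linarith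
  · intro j hj y hy
    have hny := ne_Pn (hys y hy).1
    obtain ⟨q1, q2⟩ := hX N (by omega) y (hys y hy).1 (hcone δ₂ (min_le_right _ _) y hy).2 c0 Ks hc0 hKs hcK B b0 j hB hB1 hb0
      (hS j hj).1 (hS j hj).2.1 cb e D f hf hce
      (hDN.trans (Real.rpow_le_rpow_of_exponent_le hNR (by linarith))) m0 m1 hcm t ht J ϑ (fun m hm => (hJ m hm).1) hϑ hJϑ
      ((N : ℝ) ^ (κ / 2)) M' le_rfl hMM b
    have q3 : 0 ≤ ∫ ω, rep 2 (wj μ s N (Pn N y) δk B b0 j ω t)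
            (fun x => |QN m0 m1 (nX μ s N δk B b0 b j t y J ϑ ω) (f y ω) x|) ∂(Pm μ N) :=
      integral_nonneg fun ω => Pool.W7d29a1.C0.H41.rep_nonneg 2 _ fun x => abs_nonneg _
    have q4 : 0 ≤ ∫ ω, rep 2 (wj μ s N (Pn N y) δk B b0 j ω t)
            (fun x => |QN m0 m1 (nG μ s N δk B b0 j t y J ϑ ω) (f y ω) x|) ∂(Pm μ N) :=
      integral_nonneg fun ω => Pool.W7d29a1.C0.H41.rep_nonneg 2 _ fun x => abs_nonneg _
    rw [abs_of_nonneg (add_nonneg q3 q4)]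
    refine (add_le_add q1 q2).trans (le_of_eq ?_)
    have q5 : ∑ m ∈ J, 2 * (ϑ * (B ^ 2 * (N : ℝ) ^ (ε / 3))) * rw2 μ s N (fun _ _ x z => NI m0 m1 x z)
          (fun y ω x => T2 (lw μ s ω.1 N (Pn N y)) (pJ 0 m) (j - b0) j (j + b0) M' x) f y =
        2 * ∑ m ∈ J, ϑ * (B ^ 2 * (N : ℝ) ^ (ε / 3)) * rw2 μ s N (fun _ _ x z => NI m0 m1 x z)
          (fun y ω x => T2 (lw μ s ω.1 N (Pn N y)) (pJ 0 m) (j - b0) j (j + b0) M' x) f y := by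
      rw [mul_sum]
      exact sum_congr rfl fun m _ => by ring
    rw [q5]
    ring
  · intro m hm
    positivity
  · intro m hm
    rw [hG, hV, hee]
    exact hcor N (by omega) ys (hcone δ₁ (min_le_left _ _)) m m0 m1 b0 l (hJ m hm).2 hml hmN hb0 hl M' hM8 hMκ S c r
      (fun j hj => ⟨(hS j hj).1, ((hS j hj).2.1.trans ((Nat.le_add_right _ _).trans (hJ m hm).1)), (hS j hj).2.2.1, (hS j hj).2.2.2⟩)
      cb e D f hf

end

end Pool.Agent.W_7d29a1_C0.E62
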