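import Pool.Agent.W_7d29a1_C0.E1T19
import Pool.Agent.W_7d29a1_C0.E1U19
import Pool.Agent.W_7d29a1_C0.TauS62
import Pool.Agent.W_7d29a1_C0.EstC46B
import Pool.Agent.W_7d29a1_C0.EstE44

/-!
MP_7d29a1_pr, [CURV0], leaf E1 (helper19): **(E1) IS CLOSED**: `e1L19 : E1L46 μ s K Θ` (the literal target of helper46) from the row theorem
`rowB19` (E1T19), the micro sum `mic62` (helper62, helper34) and the numbers `num19` (E1U19).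
-/

set_option autoImplicit false
set_option linter.unusedSectionVars false
set_option linter.unusedVariables false

namespace Pool.Agent.W_7d29a1_C0.E1F19

open Finset MeasureTheory Filter Topology Pool.Agent.W_7d29a1_F Pool.Agent.W_7d29a1_X Pool.Agent.W_7d29a1_H
open Pool.Agent.W_7d29a1_HS (In wd)
open Pool.Agent.W_7d29a1_HZ (wd' EE')
open Pool.Agent.W_7d29a1_C0 Pool.Agent.W_7d29a1_C0.Mod92 Pool.Agent.W_7d29a1_C0.Asm96 Pool.Agent.W_7d29a1_C0.CrA44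
open Pool.Agent.W_7d29a1_C0.H32 Pool.Agent.W_7d29a1_C0.Q32
open Pool.Agent.W_7d29a1_C0.EstC46 Pool.Agent.W_7d29a1_C0.Frm33
open Pool.Agent.W_7d29a1_C0.Par92 (Sml Est)
open Pool.Agent.W_7d29a1_C0.E1T19 (mc19 mc19_nonneg rowB19)
open Pool.Agent.W_7d29a1_C0.E1U19 (Nm19 num19)
open Pool.Agent.W_7d29a1_C0.E1M82 (e1X)
open Pool.Agent.W_7d29a1_C0.E62 (K62 mic62)
open Pool.W7d29a1.C0.H27 (QI)

noncomputable section

/-! ### The scales -/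

theorem cls_mono19 {N c d : ℕ} {D D' : ℝ} {f : Fam N} (hf : Cls59 N c d D f) (h : D ≤ D') : Cls59 N c d D' f :=
  { hf with bdd := fun y ω S => (hf.bdd y ω S).trans h }

/-- A kicked row of the block number `i`. -/
theorem row19 {ι : ℝ} {m q i : ℕ} {R : Finset ℕ} (hR : R ⊆ Kr (2 ^ m) m (((2 ^ m : ℕ) : ℝ) ^ (-ι))) (hq : q ≤ m) {j : ℕ}
    (hj : j ∈ Rw R (i * 2 ^ q) ((i + 1) * 2 ^ q)) : i * 2 ^ q ≤ j ∧ j < i * 2 ^ q + 2 ^ q ∧ 8 * gl46 ι m q ≤ j + 1 := by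
  unfold Rw at hj
  rw [Finset.mem_inter, Finset.mem_Ico] at hj
  have h1 := hR hj.1
  unfold Kr at h1
  simp only [Finset.mem_filter] at h1
  have h2 := (h1.2 q hq).1
  have h3 : 8 * (gl46 ι m q : ℝ) ≤ ((j % 2 ^ q : ℕ) : ℝ) + 1 := by
    have h4 : (gl46 ι m q : ℝ) ≤ ((2 ^ m : ℕ) : ℝ) ^ (-ι) * 2 ^ q / 8 := Nat.floor_le (by positivity)
    linarith
  have h4 : 8 * gl46 ι m q ≤ j % 2 ^ q + 1 := by exact_mod_cast h3
  have h5 := Nat.mod_le j (2 ^ q)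
  have h6 : (i + 1) * 2 ^ q = i * 2 ^ q + 2 ^ q := by ring
  exact ⟨hj.2.1, by omega, by omega⟩

theorem nm19_of {E w : ℕ → ℝ} {c₀ Θ δ a ε c ι : ℝ} {m p q : ℕ} (R : Reg46 E w c₀ Θ δ a ε ((2 ^ m : ℕ) : ℝ)) (hε : ε ≤ c / 4)
    (hc : 0 < c) (hcδ : 64 * c ≤ δ) (hι0 : 0 < ι) (hι : ι ≤ c) (hn : 16 ≤ ((2 ^ m : ℕ) : ℝ) ^ c) (hn2 : 16 ≤ ((2 ^ m : ℕ) : ℝ) ^ ι)
    (hst : St96 E δ c m p q) :
    Nm19 E δ c (2 * ι) ((2 ^ m : ℕ) : ℝ) (2 ^ p) (2 ^ (p - ⌈ι * m⌉₊)) (2 ^ q) (gl46 ι m q) ∧ 2 ^ p ≤ gl46 ι m q := by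
  have hbs := bs46 R hc hcδ hst.hp hst.hps hst.hsq hst.hqm hst.leg hst.pin
  have hl := gap46 R hε hbs hι hn
  obtain ⟨n, hnd⟩ : ∃ n : ℝ, n = ((2 ^ m : ℕ) : ℝ) := ⟨_, rfl⟩
  have hN1 := R.N1
  rw [← hnd] at hN1 hn2 hl
  have hN0 : 0 < n := by linarith
  have hlp : 2 ^ p ≤ gl46 ι m q := by
    have h1 : (1 : ℝ) * 2 ^ sg96 E c m p ≤ n ^ (5 * c) * 2 ^ sg96 E c m p :=
      mul_le_mul_of_nonneg_right (Real.one_le_rpow hN1.le (by positivity)) (by positivity)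
    have h2 : (2 : ℝ) ^ sg96 E c m p ≤ gl46 ι m q := by linarith
    have h3 : 2 ^ sg96 E c m p ≤ gl46 ι m q := by exact_mod_cast h2
    exact (Nat.pow_le_pow_right two_pos hst.hps).trans h3
  have hl1 : 1 ≤ gl46 ι m q := Nat.one_le_two_pow.trans hlp
  have hninv : n ^ (-ι) ≤ 1 / 16 := by
    rw [Real.rpow_neg hN0.le, one_div]
    exact inv_anti₀ (by norm_num) hn2
  have hn0 : 0 < n ^ (-ι) := Real.rpow_pos_of_pos hN0 _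
  have hfl : (gl46 ι m q : ℝ) ≤ n ^ (-ι) * 2 ^ q / 8 := by
    unfold gl46
    rw [← hnd]
    exact Nat.floor_le (by positivity)
  have hfl2 : n ^ (-ι) * 2 ^ q / 8 < (gl46 ι m q : ℝ) + 1 := by
    unfold gl46
    rw [← hnd]
    exact Nat.lt_floor_add_one _
  have h2q : (0 : ℝ) < 2 ^ q := by positivity
  have h16 : 16 * gl46 ι m q ≤ 2 ^ q := by
    have h1 : (16 : ℝ) * gl46 ι m q ≤ 2 ^ q := by
      have h2 : n ^ (-ι) * 2 ^ q ≤ 1 / 16 * 2 ^ q := mul_le_mul_of_nonneg_right hninv h2q.le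
      linarith
    exact_mod_cast h1
  have e2 : n ^ (-(2 * ι)) = n ^ (-ι) * n ^ (-ι) := by
    rw [← Real.rpow_add hN0]
    congr 1
    ring
  refine ⟨⟨hbs.hr, ⟨?_, ?_⟩, h16, ?_, Nat.one_le_two_pow, Nat.pow_le_pow_right two_pos (Nat.sub_le _ _), ?_, hst.leg⟩, hlp⟩
  · have h1 := hbs.hb.lo
    rw [← hnd] at h1 ⊢
    have h2 : n ^ (δ / 2) ≤ n ^ δ := Real.rpow_le_rpow_of_exponent_le hN1.le (by linarith [R.δ0])
    exact h2.trans (h1.trans (by exact_mod_cast hlp))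
  · have h1 := hbs.hr.hi
    refine le_trans ?_ h1
    exact_mod_cast (by omega : gl46 ι m q ≤ 2 ^ q)
  · rw [← hnd, e2]
    have h3 : (1 : ℝ) ≤ gl46 ι m q := by exact_mod_cast hl1
    have h4 : n ^ (-ι) * n ^ (-ι) * 2 ^ q ≤ n ^ (-ι) * (1 / 16) * 2 ^ q :=
      mul_le_mul_of_nonneg_right (mul_le_mul_of_nonneg_left hninv hn0.le) h2q.le
    push_cast
    linarith
  · obtain ⟨k, hk⟩ : ∃ k, k = ⌈ι * m⌉₊ := ⟨_, rfl⟩
    have hk1 : (k : ℝ) ≤ ι * m + 1 := by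
      rw [hk]
      exact (Nat.ceil_lt_add_one (by positivity)).le
    have h1 := two_pow_le96 (m := m) hk1
    rw [← hnd] at h1 ⊢
    rw [← hk]
    have h2 : (2 : ℝ) ^ p ≤ 2 ^ (p - k) * 2 ^ k := by
      rw [← pow_add]
      exact pow_le_pow_right₀ one_le_two (by omega)
    have h3 : (2 : ℝ) ^ (p - k) * 2 ^ k ≤ 2 ^ (p - k) * (2 * n ^ ι) := mul_le_mul_of_nonneg_left h1 (by positivity)
    have h4 : n ^ (-ι) * n ^ ι = 1 := by rw [← Real.rpow_add hN0, neg_add_cancel, Real.rpow_zero]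
    rw [e2]
    push_cast
    calc n ^ (-ι) * n ^ (-ι) * 2 ^ p ≤ n ^ (-ι) * n ^ (-ι) * (2 ^ (p - k) * (2 * n ^ ι)) :=
          mul_le_mul_of_nonneg_left (h2.trans h3) (by positivity)
      _ = 2 ^ (p - k) * (2 * n ^ (-ι)) * (n ^ (-ι) * n ^ ι) := by ring
      _ = 2 ^ (p - k) * (2 * n ^ (-ι)) := by rw [h4, mul_one]
      _ ≤ 2 ^ (p - k) * 1 := mul_le_mul_of_nonneg_left (by linarith) (by positivity)
      _ = 2 ^ (p - k) := mul_one _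

/-! ### The end -/

/-- The sum of the two parts in one gain. -/
theorem end19 {n ι β Θ r P w' X1 X2 sV k S1 S2 L : ℝ} (hn1 : 1 < n) (hn16 : 16 ≤ n) (hι : 0 < ι) (hι1 : ι ≤ 1) (hβ0 : 0 < β) (hβ : β ≤ ι)
    (hιΘ : 1000 * ι ≤ Θ ^ 2) (hk0 : 0 ≤ k) (hk : 16 + k ≤ n ^ ι) (hr0 : 0 ≤ r) (hrn : r ≤ n) (hsV : 0 ≤ sV) (hw0 : 0 ≤ w') (hw1 : w' ≤ 1)
    (hP : P = n ^ (8 * (2 * ι) - Θ ^ 2 / 16) * √(r * n ^ Θ)) (hX1 : X1 ≤ P) (hX2 : X2 ≤ P) (hL : n ^ 2 ≤ L)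
    (hS1 : S1 = n ^ ι * (√2 * sV * X1)) (hS2 : S2 ≤ n ^ ι * (n ^ ι * (n ^ β) ^ 2 * k * X2 * sV + √w' * L⁻¹)) :
    S1 + S2 + r * L⁻¹ ≤ n ^ (-(Θ ^ 2 / 32)) * √(r * n ^ Θ) * sV + 1 / 8 := by
  have hn0 : 0 < n := by linarith
  obtain ⟨A, hA⟩ : ∃ A : ℝ, A = n ^ ι := ⟨_, rfl⟩
  rw [← hA] at hk hS1 hS2
  have hA1 : 1 ≤ A := by linarith
  have hA0 : 0 ≤ A := by linarith
  have hP0 : 0 ≤ P := by
    rw [hP]
    positivity
  have hB2 : (n ^ β) ^ 2 ≤ A ^ 2 := by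
    rw [hA]
    exact pow_le_pow_left₀ (by positivity) (Real.rpow_le_rpow_of_exponent_le hn1.le hβ) 2
  have h2 : √2 ≤ 2 := by
    rw [Real.sqrt_le_left (by norm_num)]
    norm_num
  have hLp : 0 < L := lt_of_lt_of_le (by positivity) hL
  have m1 : S1 ≤ 2 * A * (P * sV) := by
    rw [hS1]
    calc A * (√2 * sV * X1) ≤ A * (2 * sV * P) := by
          refine mul_le_mul_of_nonneg_left ?_ hA0
          exact (mul_le_mul_of_nonneg_left hX1 (by positivity)).trans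
            (mul_le_mul_of_nonneg_right (mul_le_mul_of_nonneg_right h2 hsV) hP0)
      _ = 2 * A * (P * sV) := by ring
  have m2 : A * (A * (n ^ β) ^ 2 * k * X2 * sV) ≤ k * A ^ 4 * (P * sV) := by
    calc A * (A * (n ^ β) ^ 2 * k * X2 * sV) ≤ A * (A * A ^ 2 * k * P * sV) := by
          refine mul_le_mul_of_nonneg_left ?_ hA0
          refine mul_le_mul_of_nonneg_right ?_ hsV
          exact (mul_le_mul_of_nonneg_left hX2 (by positivity)).trans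
            (mul_le_mul_of_nonneg_right (mul_le_mul_of_nonneg_right (mul_le_mul_of_nonneg_left hB2 hA0) hk0) hP0)
      _ = k * A ^ 4 * (P * sV) := by ring
  have m3 : 2 * A * (P * sV) + k * A ^ 4 * (P * sV) ≤ A ^ 5 * (P * sV) := by
    have hPs : 0 ≤ P * sV := by positivity
    have h4 : A ≤ A ^ 4 := le_self_pow₀ hA1 (by norm_num)
    have h5 : 2 * A + k * A ^ 4 ≤ A ^ 5 := by
      have h6 : A ^ 5 = A * A ^ 4 := by ring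
      have h7 : (16 + k) * A ^ 4 ≤ A * A ^ 4 := mul_le_mul_of_nonneg_right hk (by positivity)
      have h8 : 0 ≤ A ^ 4 := by positivity
      rw [h6]
      linarith
    have := mul_le_mul_of_nonneg_right h5 hPs
    linarith
  have m4 : A ^ 5 * (P * sV) ≤ n ^ (-(Θ ^ 2 / 32)) * √(r * n ^ Θ) * sV := by
    have h4 : A ^ 5 = n ^ (5 * ι) := by
      rw [hA, ← Real.rpow_natCast, ← Real.rpow_mul hn0.le]
      congr 1
      push_cast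
      ring
    rw [h4, hP]
    calc n ^ (5 * ι) * (n ^ (8 * (2 * ι) - Θ ^ 2 / 16) * √(r * n ^ Θ) * sV) =
        n ^ (5 * ι) * n ^ (8 * (2 * ι) - Θ ^ 2 / 16) * √(r * n ^ Θ) * sV := by ring
      _ = n ^ (5 * ι + (8 * (2 * ι) - Θ ^ 2 / 16)) * √(r * n ^ Θ) * sV := by rw [Real.rpow_add hn0]
      _ ≤ n ^ (-(Θ ^ 2 / 32)) * √(r * n ^ Θ) * sV := by
          refine mul_le_mul_of_nonneg_right (mul_le_mul_of_nonneg_right ?_ (Real.sqrt_nonneg _)) hsV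
          exact Real.rpow_le_rpow_of_exponent_le hn1.le (by linarith)
  have m5 : A * (√w' * L⁻¹) + r * L⁻¹ ≤ 1 / 8 := by
    have h5 : √w' ≤ 1 := Real.sqrt_le_one.2 hw1
    have h6 : A ≤ n := by
      rw [hA]
      calc n ^ ι ≤ n ^ (1 : ℝ) := Real.rpow_le_rpow_of_exponent_le hn1.le hι1
        _ = n := Real.rpow_one n
    have h7 : L⁻¹ ≤ (n ^ 2)⁻¹ := inv_anti₀ (by positivity) hL
    have h8 : 0 ≤ L⁻¹ := by positivity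
    have h9 : A * (√w' * L⁻¹) ≤ n * (1 * (n ^ 2)⁻¹) :=
      mul_le_mul h6 (mul_le_mul h5 h7 h8 zero_le_one) (mul_nonneg (Real.sqrt_nonneg _) h8) hn0.le
    have h10 : r * L⁻¹ ≤ n * (n ^ 2)⁻¹ := mul_le_mul hrn h7 h8 hn0.le
    have h11 : n * (n ^ 2)⁻¹ ≤ 1 / 16 := by
      have e : n * (n ^ 2)⁻¹ = n⁻¹ := by
        field_simp
      rw [e, one_div]
      exact inv_anti₀ (by norm_num) hn16
    linarith
  have e : A * (A * (n ^ β) ^ 2 * k * X2 * sV + √w' * L⁻¹) = A * (A * (n ^ β) ^ 2 * k * X2 * sV) + A * (√w' * L⁻¹) := by ring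
  rw [e] at hS2
  linarith

section fixed

variable {μ : Measure ℝ} {s : ℝ} {K : ℕ} {Θ δ c ι β γ c₀ a Kp : ℝ} {m : ℕ}

theorem abs_avy19 (ys : Finset ℕ) (Φ : ℕ → ℝ) : |avy ys Φ| ≤ avy ys fun y => |Φ y| := by
  unfold avy
  rw [abs_mul, abs_of_nonneg (by positivity : (0 : ℝ) ≤ (ys.card : ℝ)⁻¹)]
  exact mul_le_mul_of_nonneg_left (abs_sum_le_sum_abs _ _) (by positivity)

/-- **(E1) at one length.** -/
theorem e1m19 [IsProbabilityMeasure μ] (hK : 32 ≤ K) (hΘ0 : 0 < Θ) (hΘ1 : Θ ≤ 1) (hc : 0 < c) (hcδ : 64 * c ≤ δ) (hι0 : 0 < ι)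
    (hι1 : ι ≤ 1) (hιc : ι ≤ c) (hιδ : 42 * ι ≤ δ) (hιΘ : 1000 * ι ≤ Θ ^ 2) (hβ0 : 0 < β) (hβι : β ≤ ι) (hKp : 0 ≤ Kp)
    (R1 : Reg46 (EE μ s) (wd μ s) c₀ Θ δ a (c / 4) ((2 ^ m : ℕ) : ℝ))
    (R2 : Reg46 (EE μ s) (wd μ s) c₀ Θ (δ / 2) a ι ((2 ^ m : ℕ) : ℝ))
    (hwd : ∀ r : ℕ, ((2 ^ m : ℕ) : ℝ) ^ (δ / 2) ≤ r → wd' μ s r = wd μ s r) (hn : 16 ≤ ((2 ^ m : ℕ) : ℝ) ^ c)
    (hn2 : 16 + Real.sqrt (1 + Kp) ≤ ((2 ^ m : ℕ) : ℝ) ^ ι)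
    (hrow : ∀ (b0 b j l d : ℕ), b0 ≤ b → ((2 ^ m : ℕ) : ℝ) ^ (δ / 2) ≤ l → j + b + 7 * l ≤ d → 16 * l ≤ d → d ≤ L33 K m →
      ∀ (cb : ℕ) (D : ℝ) (f : Fam (L33 K m)), Cls59 (L33 K m) cb d D f → 0 < D → 2 * D ≤ (L33 K m : ℝ) → ∀ t ∈ Set.Icc (-1 : ℝ) 1,
      ∀ w p : ℝ, (w = wd' μ s (16 * l) / l ∧ p = (EE' μ s (16 * l))⁻¹ ∨ w = wd' μ s d / l ∧ p = 0) →
      ((2 ^ m : ℕ) : ℝ) ^ ι * w ≤ 1 →
      avy (ys33 μ s K m) (fun y => |∑ z ∈ Ico (d - 2 * l) (d - l), (l : ℝ)⁻¹ *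
          ∫ ω, e1X μ s (L33 K m) γ (B33 β m) b0 b j t y f z ω ∂(Pm μ (L33 K m))|) ≤
        ((2 ^ m : ℕ) : ℝ) ^ ι * ((w + p) * (Real.sqrt (2 * avy (ys33 μ s K m) (varF μ s (L33 K m) f)) * Real.sqrt ((EE' μ s l)⁻¹)) +
          Real.sqrt w * avy (ys33 μ s K m) (mc19 μ s (L33 K m) γ (B33 β m) b0 b j t f (d - 3 * l) (d - l)
            (Ico (d - 4 * l) (d - 3 * l)) l)) + (L33 K m : ℝ)⁻¹)
    (hmic : ∀ (b0 b l d r cc : ℕ) (S : Finset ℕ), ((2 ^ m : ℕ) : ℝ) ^ (δ / 2) ≤ b0 → ((2 ^ m : ℕ) : ℝ) ^ (δ / 2) ≤ l → 8 * l ≤ d →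
      d ≤ L33 K m → (∀ j ∈ S, b0 ≤ j ∧ j + b0 + 7 * l ≤ d ∧ cc ≤ j ∧ j < cc + r) → b0 ≤ r → r ≤ L33 K m →
      ∀ (cb : ℕ) (D : ℝ) (f : Fam (L33 K m)), Cls59 (L33 K m) cb d D f → 8 * D ≤ (L33 K m : ℝ) → ∀ t ∈ Set.Icc (-1 : ℝ) 1,
      ∑ j ∈ S, avy (ys33 μ s K m) (mc19 μ s (L33 K m) γ (B33 β m) b0 b j t f (d - 3 * l) (d - l) (Ico (d - 4 * l) (d - 3 * l)) l) ≤
        ((2 ^ m : ℕ) : ℝ) ^ ι * B33 β m ^ 2 * Real.sqrt (1 + Kp) * K62 μ s r l b0 *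
          Real.sqrt (avy (ys33 μ s K m) (varF μ s (L33 K m) f)) + (L33 K m : ℝ)⁻¹) :
    E1N μ s (frm33 μ s K ι β γ) (EE μ s) Θ δ c (Θ ^ 2 / 32) ι m := by
  intro p q i hst hi D f hDn hf t ht
  obtain ⟨n, hnd⟩ : ∃ n : ℝ, n = ((2 ^ m : ℕ) : ℝ) := ⟨_, rfl⟩
  have hs16 : 0 ≤ Real.sqrt (1 + Kp) := Real.sqrt_nonneg _
  obtain ⟨X, hbl⟩ := nm19_of R1 le_rfl hc hcδ hι0 hιc hn (by linarith) hst
  obtain ⟨l, hl⟩ : ∃ l, l = gl46 ι m q := ⟨_, rfl⟩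
  obtain ⟨d, hd⟩ : ∃ d, d = (i + 1) * 2 ^ q := ⟨_, rfl⟩
  obtain ⟨b0, hb0⟩ : ∃ b0, b0 = 2 ^ (p - ⌈ι * m⌉₊) := ⟨_, rfl⟩
  have hdr : d = i * 2 ^ q + 2 ^ q := by rw [hd]; ring
  have hdm : d ≤ 2 ^ m := by
    rw [hd]
    calc (i + 1) * 2 ^ q ≤ 2 ^ (m - q) * 2 ^ q := Nat.mul_le_mul_right _ hi
      _ = 2 ^ m := by rw [← pow_add, Nat.sub_add_cancel hst.hqm]
  have hmL : 2 ^ m ≤ L33 K m := L33_ge (by omega) m
  have hdL : d ≤ L33 K m := hdm.trans hmL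
  rw [← hl] at hbl
  rw [← hl, ← hb0] at X
  have hkick : ∀ j ∈ Rw (R33 ι m) (i * 2 ^ q) d, i * 2 ^ q ≤ j ∧ j < i * 2 ^ q + 2 ^ q ∧ 8 * l ≤ j + 1 ∧ j + 8 * l ≤ d := by
    intro j hj
    rw [hd] at hj
    have h1 := row19 (ι := ι) (Finset.Subset.refl _) hst.hqm hj
    have h2 := kick46 (ι := ι) (Finset.Subset.refl _) hst.hqm hj
    rw [← hl] at h1 h2
    rw [← hd] at h2
    exact ⟨h1.1, h1.2.1, h1.2.2, h2⟩
  have hl1 : 1 ≤ l := Nat.one_le_two_pow.trans hbl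
  have h16 : 16 * l ≤ 2 ^ q := X.l16
  have hlo := X.hl.lo
  have hn1 := R1.N1
  have hEE : ∀ k, EE' μ s k = EE μ s k := fun k => EE'_eq46 s k
  -- the numbers
  obtain ⟨w', p', hwp, hwle, hA, hC⟩ := num19 R2 (by linarith : ι ≤ 2 * ι) X hΘ1 hc.le (d := d) (by omega) (by exact_mod_cast hdm)
  have hl0 : (0 : ℝ) < l := by exact_mod_cast hl1
  have hw'0 : 0 ≤ w' := by
    rcases hwp with ⟨h1, -⟩ | ⟨h1, -⟩
    · rw [h1]
      exact div_nonneg (R2.w0 _ (by omega)).le hl0.le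
    · rw [h1]
      exact div_nonneg (R2.w0 _ (by omega)).le hl0.le
  have hp'0 : 0 ≤ p' := by
    rcases hwp with ⟨-, h1⟩ | ⟨-, h1⟩
    · rw [h1]
      exact inv_nonneg.2 (zero_le_one.trans (R2.E1 _))
    · rw [h1]
  have hwp' : w' = wd' μ s (16 * l) / l ∧ p' = (EE' μ s (16 * l))⁻¹ ∨ w' = wd' μ s d / l ∧ p' = 0 := by
    rcases hwp with ⟨h1, h2⟩ | ⟨h1, h2⟩
    · left
      rw [hwd (16 * l) (hlo.trans (by exact_mod_cast (by omega : l ≤ 16 * l))), hEE]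
      exact ⟨h1, h2⟩
    · right
      rw [hwd d (hlo.trans (by exact_mod_cast (by omega : l ≤ d)))]
      exact ⟨h1, h2⟩
  rw [← hnd] at hn hn2 hn1 hwle hA hC hlo
  have hN0 : 0 < n := by linarith
  have hw'1 : n ^ ι * w' ≤ 1 := by
    calc n ^ ι * w' ≤ n ^ ι * n ^ (3 * (2 * ι) - δ / 6) := mul_le_mul_of_nonneg_left hwle (by positivity)
      _ = n ^ (ι + (3 * (2 * ι) - δ / 6)) := (Real.rpow_add hN0 _ _).symm
      _ ≤ 1 := Real.rpow_le_one_of_one_le_of_nonpos hn1.le (by linarith)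
  have hA1 : 1 ≤ n ^ ι := by linarith
  have hw'2 : w' ≤ 1 := (le_mul_of_one_le_left hw'0 hA1).trans hw'1
  -- the spectator
  obtain ⟨D', hD'⟩ : ∃ D' : ℝ, D' = max D 1 := ⟨_, rfl⟩
  have hD1 : 1 ≤ D' := by rw [hD']; exact le_max_right _ _
  have hn16 : 16 ≤ n := by
    have h1 : n ^ ι ≤ n := by
      calc n ^ ι ≤ n ^ (1 : ℝ) := Real.rpow_le_rpow_of_exponent_le hn1.le hι1
        _ = n := Real.rpow_one n
    linarith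
  have hD3 : D' ≤ n ^ 3 := by
    rw [hD', hnd]
    refine max_le hDn ?_
    rw [← hnd]
    exact one_le_pow₀ hn1.le
  have hLn : (L33 K m : ℝ) = n ^ K := by
    rw [L33_real, ← hnd, Real.rpow_natCast]
  have hL4 : n ^ 4 ≤ (L33 K m : ℝ) := by
    rw [hLn]
    exact pow_le_pow_right₀ hn1.le (by omega)
  have hL2 : n ^ 2 ≤ (L33 K m : ℝ) := (pow_le_pow_right₀ hn1.le (by norm_num)).trans hL4
  have h8D : 8 * D' ≤ (L33 K m : ℝ) := by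
    have h1 : 8 * n ^ 3 ≤ n * n ^ 3 := mul_le_mul_of_nonneg_right (by linarith) (by positivity)
    have e : n ^ 4 = n * n ^ 3 := by ring
    linarith
  have hf' : Cls59 (L33 K m) (i * 2 ^ q) d D' f := by
    rw [hd, hD']
    exact cls_mono19 hf (le_max_left _ _)
  have hzs : zs46 ι m q i = Ico (d - 2 * l) (d - l) := by
    unfold zs46
    rw [← hl, ← hd]
  obtain ⟨sV, hsV⟩ : ∃ sV : ℝ, sV = Real.sqrt (avy (ys33 μ s K m) (varF μ s (L33 K m) f)) := ⟨_, rfl⟩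
  have hsV0 : 0 ≤ sV := by rw [hsV]; exact Real.sqrt_nonneg _
  have h2V : Real.sqrt (2 * avy (ys33 μ s K m) (varF μ s (L33 K m) f)) = √2 * sV := by
    rw [hsV]
    exact Real.sqrt_mul (by norm_num) _
  -- one row
  obtain ⟨G, hG⟩ : ∃ G : ℕ → ℝ, G = fun j => avy (ys33 μ s K m) (mc19 μ s (L33 K m) γ (B33 β m) b0 (2 ^ p) j t f (d - 3 * l) (d - l)
            (Ico (d - 4 * l) (d - 3 * l)) l) := ⟨_, rfl⟩
  rw [← hnd] at hrow hmic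
  have h1 : ∀ j ∈ Rw (R33 ι m) (i * 2 ^ q) d, |avy (ys33 μ s K m) (fun y => ∑ z ∈ Ico (d - 2 * l) (d - l), (l : ℝ)⁻¹ *
      fE1 μ s (L33 K m) γ (B33 β m) b0 (2 ^ p) f z t y j)| ≤
        n ^ ι * ((w' + p') * (√2 * sV * Real.sqrt ((EE μ s l)⁻¹)) + Real.sqrt w' * G j) + (L33 K m : ℝ)⁻¹ := by
    intro j hj
    obtain ⟨k1, k2, k3, k4⟩ := hkick j hj
    have k5 := hrow b0 (2 ^ p) j l d X.bb hlo (by omega) (by omega) hdL (i * 2 ^ q) D' f hf' (by linarith) (by linarith) t ht w' p' hwp'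
      hw'1
    rw [h2V, hEE] at k5
    rw [hG]
    exact (abs_avy19 _ _).trans k5
  have hSr : ((Rw (R33 ι m) (i * 2 ^ q) d).card : ℝ) ≤ ((2 ^ q : ℕ) : ℝ) := by
    have k1 : Rw (R33 ι m) (i * 2 ^ q) d ⊆ Ico (i * 2 ^ q) (i * 2 ^ q + 2 ^ q) := fun j hj =>
      mem_Ico.2 ⟨(hkick j hj).1, (hkick j hj).2.1⟩
    have k2 := card_le_card k1
    rw [Nat.card_Ico] at k2
    exact_mod_cast (by omega : (Rw (R33 ι m) (i * 2 ^ q) d).card ≤ 2 ^ q)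
  -- the micro sum
  have hb0n : n ^ (δ / 2) ≤ b0 := by
    have k1 := X.bl
    rw [← hnd] at k1
    have k2 : n ^ δ ≤ ((2 ^ p : ℕ) : ℝ) := by
      rw [hnd]
      exact (rg46_two hst.hp (hst.hps.trans (hst.hsq.trans hst.hqm))).lo
    refine le_trans ?_ k1
    calc n ^ (δ / 2) ≤ n ^ (-(2 * ι) + δ) := Real.rpow_le_rpow_of_exponent_le hn1.le (by linarith)
      _ = n ^ (-(2 * ι)) * n ^ δ := Real.rpow_add hN0 _ _
      _ ≤ n ^ (-(2 * ι)) * ((2 ^ p : ℕ) : ℝ) := mul_le_mul_of_nonneg_left k2 (by positivity)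
  have hmc := hmic b0 (2 ^ p) l d (2 ^ q) (i * 2 ^ q) (Rw (R33 ι m) (i * 2 ^ q) d) hb0n hlo (by omega) hdL (fun j hj => by
    obtain ⟨k1, k2, k3, k4⟩ := hkick j hj
    have k5 := X.bb
    exact ⟨by omega, by omega, k1, k2⟩) (by have := X.bb; omega) ((Nat.pow_le_pow_right two_pos hst.hqm).trans hmL) (i * 2 ^ q) D' f hf'
    h8D t ht
  rw [← hsV] at hmc
  have hGs : ∑ j ∈ Rw (R33 ι m) (i * 2 ^ q) d, G j ≤ n ^ ι * B33 β m ^ 2 * Real.sqrt (1 + Kp) * K62 μ s (2 ^ q) l b0 * sV +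
      (L33 K m : ℝ)⁻¹ := by
    rw [hG]
    exact hmc
  -- the sum over the rows
  have hBn : B33 β m = n ^ β := by
    unfold B33
    rw [← hnd]
  obtain ⟨X1, hX1⟩ : ∃ X1 : ℝ, X1 = ((2 ^ q : ℕ) : ℝ) * ((w' + p') * √((EE μ s l)⁻¹)) := ⟨_, rfl⟩
  obtain ⟨X2, hX2⟩ : ∃ X2 : ℝ, X2 = √w' * (((2 ^ q : ℕ) : ℝ) * ((√((EE μ s (2 ^ q))⁻¹) + (EE μ s b0)⁻¹) * √((EE μ s l)⁻¹))) := ⟨_, rfl⟩
  rw [← hX1] at hA
  rw [← hX2] at hC
  have hK62 : √w' * K62 μ s (2 ^ q) l b0 = X2 := by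
    rw [hX2]
    unfold K62
    rw [hEE, hEE, hEE, Real.sqrt_mul (inv_nonneg.2 (zero_le_one.trans (R2.E1 _)))]
    ring
  have hLi : 0 ≤ (L33 K m : ℝ)⁻¹ := by positivity
  have hend := end19 (n := n) (ι := ι) (β := β) (Θ := Θ) (r := ((2 ^ q : ℕ) : ℝ)) (P := n ^ (8 * (2 * ι) - Θ ^ 2 / 16) *
      √(((2 ^ q : ℕ) : ℝ) * n ^ Θ)) (w' := w') (X1 := X1) (X2 := X2) (sV := sV) (k := Real.sqrt (1 + Kp))
      (S1 := n ^ ι * (√2 * sV * X1)) (S2 := n ^ ι * (√w' * ∑ j ∈ Rw (R33 ι m) (i * 2 ^ q) d, G j)) (L := (L33 K m : ℝ)) hn1 hn16 hι0 hι1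
      hβ0 hβι hιΘ hs16 hn2 (by positivity) (by rw [hnd]; exact_mod_cast Nat.pow_le_pow_right two_pos hst.hqm) hsV0 hw'0 hw'2 rfl hA hC
      hL2 rfl (by
        refine mul_le_mul_of_nonneg_left ?_ (by positivity)
        calc √w' * ∑ j ∈ Rw (R33 ι m) (i * 2 ^ q) d, G j ≤ √w' * (n ^ ι * B33 β m ^ 2 * Real.sqrt (1 + Kp) * K62 μ s (2 ^ q) l b0 * sV +
              (L33 K m : ℝ)⁻¹) := mul_le_mul_of_nonneg_left hGs (Real.sqrt_nonneg _)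
          _ = n ^ ι * B33 β m ^ 2 * Real.sqrt (1 + Kp) * (√w' * K62 μ s (2 ^ q) l b0) * sV + √w' * (L33 K m : ℝ)⁻¹ := by ring
          _ = _ := by rw [hK62, hBn])
  have hsum : |∑ j ∈ Rw (R33 ι m) (i * 2 ^ q) d, avy (ys33 μ s K m) (fun y => ∑ z ∈ Ico (d - 2 * l) (d - l), (l : ℝ)⁻¹ *
      fE1 μ s (L33 K m) γ (B33 β m) b0 (2 ^ p) f z t y j)| ≤ n ^ ι * (√2 * sV * X1) +
        n ^ ι * (√w' * ∑ j ∈ Rw (R33 ι m) (i * 2 ^ q) d, G j) + ((2 ^ q : ℕ) : ℝ) * (L33 K m : ℝ)⁻¹ := by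
    refine (abs_sum_le_sum_abs _ _).trans ((sum_le_sum h1).trans ?_)
    have e1 : ∑ j ∈ Rw (R33 ι m) (i * 2 ^ q) d, (n ^ ι * ((w' + p') * (√2 * sV * Real.sqrt ((EE μ s l)⁻¹)) + Real.sqrt w' * G j) +
        (L33 K m : ℝ)⁻¹) = ((Rw (R33 ι m) (i * 2 ^ q) d).card : ℝ) * (n ^ ι * ((w' + p') * (√2 * sV * Real.sqrt ((EE μ s l)⁻¹)))) +
        n ^ ι * (√w' * ∑ j ∈ Rw (R33 ι m) (i * 2 ^ q) d, G j) + ((Rw (R33 ι m) (i * 2 ^ q) d).card : ℝ) * (L33 K m : ℝ)⁻¹ := by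
      rw [mul_sum, mul_sum, sum_add_distrib, sum_const, nsmul_eq_mul]
      congr 1
      rw [← nsmul_eq_mul, ← sum_const, ← sum_add_distrib]
      exact sum_congr rfl fun j _ => by ring
    rw [e1]
    refine add_le_add (add_le_add ?_ le_rfl) (mul_le_mul_of_nonneg_right hSr hLi)
    have k1 : 0 ≤ n ^ ι * ((w' + p') * (√2 * sV * Real.sqrt ((EE μ s l)⁻¹))) := by positivity
    refine (mul_le_mul_of_nonneg_right hSr k1).trans (le_of_eq ?_)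
    rw [hX1]
    ring
  have hfin := hsum.trans hend
  show |∑ j ∈ Rw (R33 ι m) (i * 2 ^ q) ((i + 1) * 2 ^ q), avy (ys33 μ s K m) (fun y => ∑ z ∈ zs46 ι m q i,
    ((gl46 ι m q : ℕ) : ℝ)⁻¹ * fE1 μ s (L33 K m) γ (B33 β m) (2 ^ (p - ⌈ι * m⌉₊)) (2 ^ p) f z t y j)| ≤
      kp46 Θ (Θ ^ 2 / 32) m q * √(avy (ys33 μ s K m) (varF μ s (L33 K m) f)) + 1 / 8
  rw [hzs, ← hl, ← hb0, ← hd, ← hsV]
  unfold kp46
  rw [← hnd]
  push_cast at hfin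
  exact hfin

end fixed

theorem ys_ne19 (μ : Measure ℝ) (s : ℝ) (K m : ℕ) : (ys33 μ s K m).Nonempty := by
  have h : 0 < M33 m := by
    unfold M33
    positivity
  exact ⟨y33 μ s K m, mem_Ico.2 ⟨le_rfl, by omega⟩⟩

/-- **(E1), the literal target of helper46.** -/
theorem e1L19 {μ : Measure ℝ} [IsProbabilityMeasure μ] {s : ℝ} {c₂ C : ℝ} {n₀ : ℕ} (h : In μ s c₂ C n₀)
    (hQI : ∀ p : ℝ, 1 < p → ∃ C θ0 : ℝ, 0 ≤ C ∧ 0 < θ0 ∧ QI μ p C θ0) {ff ff' : ℝ → ℝ} (hd : DenLaw μ ff ff') {K : ℕ} (hK : 32 ≤ K)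
    {Θ c₀ : ℝ} (hΘ : 0 < Θ) (hΘ1 : Θ ≤ 1) (hR : RegP46 μ s c₀ Θ) : E1L46 μ s K Θ := by
  obtain ⟨a, -, -, hRe⟩ := hR
  obtain ⟨_, Kp, -, -, hKp, hEE⟩ := Pool.Agent.W_7d29a1_HZ.Z96.EE_all96 h
  have hK32 : (32 : ℝ) ≤ K := by exact_mod_cast hK
  have hK0 : (0 : ℝ) < K := by linarith
  refine (Sml.le one_pos).mono fun δ hδ hδ1 => ?_
  refine (Sml.le (show 0 < δ / 64 by positivity)).mono fun c hc hcδ => ⟨Θ ^ 2 / 32, by positivity, ?_⟩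
  refine (Sml.le (show 0 < min (min 1 c) (min (δ / 42) (Θ ^ 2 / 1000)) by positivity)).mono fun ι hι hι' => ?_
  have i1 : ι ≤ 1 := hι'.trans ((min_le_left _ _).trans (min_le_left _ _))
  have i2 : ι ≤ c := hι'.trans ((min_le_left _ _).trans (min_le_right _ _))
  have i3 : 42 * ι ≤ δ := by
    have := hι'.trans ((min_le_right _ _).trans (min_le_left _ _))
    linarith
  have i4 : 1000 * ι ≤ Θ ^ 2 := by
    have := hι'.trans ((min_le_right _ _).trans (min_le_right _ _))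
    linarith
  have hκ : 0 < δ / 2 / K := by positivity
  have hκ1 : δ / 2 / K ≤ 1 := by
    rw [div_le_one hK0]
    linarith
  have hε : 0 < ι / K := by positivity
  obtain ⟨δr, ε₁, hδr, hε₁, Nr, hrow⟩ := rowB19 h hQI hd hκ hκ1 hε zero_le_one
  obtain ⟨β₀, hβ₀, hmic⟩ := mic62 h hQI hκ hκ1 hε zero_le_one
  refine (Sml.le (show 0 < min ι (min (K * ε₁) (K * β₀)) by positivity)).mono fun β hβ hβ' => ?_
  have j1 : β ≤ ι := hβ'.trans (min_le_left _ _)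
  have j2 : β ≤ K * ε₁ := hβ'.trans ((min_le_right _ _).trans (min_le_left _ _))
  have j3 : β ≤ K * β₀ := hβ'.trans ((min_le_right _ _).trans (min_le_right _ _))
  refine Sml.of fun γ hγ => ?_
  obtain ⟨δm, hδm, Nm, hmic⟩ := hmic γ hγ
  filter_upwards [hRe δ (c / 4) hδ (by positivity), hRe (δ / 2) ι (by positivity) hι, cone33 h hK hδr, cone33 h hK hδm,
    ev_L (K := K) (by omega) Nr, ev_L (K := K) (by omega) Nm, ev_n hc 16, ev_n hι (16 + Real.sqrt (1 + Kp))]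
    with m g1 g2 g3 g4 g5 g6 g7 g8
  have eκ : (L33 K m : ℝ) ^ (δ / 2 / K) = ((2 ^ m : ℕ) : ℝ) ^ (δ / 2) := by
    rw [L33_pow]
    congr 1
    field_simp
  have eε : (L33 K m : ℝ) ^ (ι / K) = ((2 ^ m : ℕ) : ℝ) ^ ι := by
    rw [L33_pow]
    congr 1
    field_simp
  have e1 : (L33 K m : ℝ) ^ (1 : ℝ) = L33 K m := Real.rpow_one _
  have e2 : (L33 K m : ℝ) ^ (-(1 : ℝ)) = (L33 K m : ℝ)⁻¹ := Real.rpow_neg_one _
  have hB0 : 0 < B33 β m := by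
    unfold B33
    positivity
  have hBe : ∀ e : ℝ, β ≤ K * e → B33 β m ≤ (L33 K m : ℝ) ^ e := fun e he => by
    rw [L33_pow]
    exact Real.rpow_le_rpow_of_exponent_le (n_ge1 m) he
  have hys : ∀ δ' : ℝ, (∀ y : ℕ, y33 μ s K m ≤ y + 1 → y ≤ y33 μ s K m + M33 m → y ≤ L33 K m ∧
      |(y : ℝ) - sl μ s * L33 K m| ≤ (L33 K m : ℝ) ^ δ' * wd' μ s (L33 K m)) → ∀ y ∈ ys33 μ s K m, y ≤ L33 K m ∧
      |(y : ℝ) - sl μ s * L33 K m| ≤ ((L33 K m : ℝ) ^ δ' * wd' μ s (L33 K m)) := fun δ' hc' y hy => by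
    have hy' := mem_Ico.1 hy
    exact hc' y (by omega) (by omega)
  refine e1m19 hK hΘ hΘ1 hc (by linarith) hι i1 i2 i3 i4 hβ j1 (by linarith) g1.1 g2.1 g2.2 g7 g8 ?_ ?_
  · intro b0 b j l d hbb hl hjd h16 hdL cb D f hf hD hDL t ht w p hwp hw1
    have key := hrow (L33 K m) g5 (ys33 μ s K m) (hys δr g3.2.2) γ (B33 β m) b0 b j l d hB0 (hBe ε₁ j2) hbb (by rw [eκ]; exact hl)
      hjd h16 hdL cb D f hf hD (by rw [e1]; exact hDL) t ht w p hwp (by rw [eε]; exact hw1)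
    rw [eε, e2] at key
    exact key
  · intro b0 b l d r cc S hb0 hl h8 hdL hS hbr hrL cb D f hf hDL t ht
    have hl1 : (1 : ℝ) ≤ l := (Real.one_le_rpow (n_ge1 m) (by positivity)).trans hl
    have hl1' : 1 ≤ l := by exact_mod_cast hl1
    have key := hmic (L33 K m) g6 (ys33 μ s K m) (ys_ne19 μ s K m) (hys δm g4.2.2) (d - 7 * l) l
      (by rw [eκ]; exact hl.trans (by exact_mod_cast (by omega : l ≤ d - 7 * l))) (by rw [eκ]; exact hl) (by omega) (B33 β m) b0 hB0.le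
      (hBe β₀ j3) (by rw [eκ]; exact hb0) cb d D f hf (by omega) (by rw [e1]; exact hDL) (d - 3 * l) (d - l) l (by omega) (by omega)
      (by omega) (by rw [eκ]; exact hl) (Ico (d - 4 * l) (d - 3 * l)) ((l : ℝ)⁻¹) (fun k hk => by rw [mem_Ico] at hk; omega)
      (by positivity) (by
        rw [Nat.card_Ico, show d - 3 * l - (d - 4 * l) = l by omega]
        exact (mul_inv_cancel₀ (by linarith)).le) S cc r (fun j hj => by have := hS j hj; omega) hbr hrL Kp (by linarith)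
      (fun t r h1 h2 => (hEE t r h1 h2).2.2) t ht b
    rw [eε, e2] at key
    exact key

/-- **(E1) for the root.** -/
theorem e1V19 {μ : Measure ℝ} [IsProbabilityMeasure μ] {s : ℝ} {c₂ C : ℝ} {n₀ : ℕ} (h : In μ s c₂ C n₀)
    (hQI : ∀ p : ℝ, 1 < p → ∃ C θ0 : ℝ, 0 ≤ C ∧ 0 < θ0 ∧ QI μ p C θ0) {ff ff' : ℝ → ℝ} (hd : DenLaw μ ff ff') {K : ℕ} (hK : 32 ≤ K)
    {Θ c₀ : ℝ} (hΘ : 0 < Θ) (hΘ1 : Θ ≤ 1) (hR : RegP46 μ s c₀ Θ) : Sml fun δ => Sml fun c => ∃ x : ℝ, 0 < x ∧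
      Est fun ι β γ m => EstD44.E1V μ s (frm33 μ s K ι β γ) (EE μ s) Θ δ c x ι m :=
  (e1L19 h hQI hd hK hΘ hΘ1 hR).mono fun δ hδ h1 => h1.mono fun c hc h2 => by
    obtain ⟨x, hx, h3⟩ := h2
    exact ⟨x, hx, h3.mono fun ι β γ _ _ _ => Eventually.of_forall fun m h4 => EstD44.Bl44.of46 h4⟩

end

end Pool.Agent.W_7d29a1_C0.E1F19
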