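import Pool.Agent.W_7d29a1_C0.E1C19

/-!
CURV0 (MP_7d29a1_pr), leaf E1g, numbers: `e1_L` = `e1_bound` with `t = V ^ (-1/2)`, `a = L V ^ (1/2)`, one far term, one free
parameter `L`. (helper19)
-/

set_option autoImplicit false
set_option linter.unusedSectionVars false
set_option linter.unusedVariables false

namespace Pool.W7d29a1.C0.E1A

open Finset MeasureTheory
open Pool.Agent.W_7d29a1_F Pool.Agent.W_7d29a1_X Pool.Agent.W_7d29a1_C0.H32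
open Pool.Agent.W_7d29a1_C0 Pool.Agent.W_7d29a1_C0.Mod92 Pool.Agent.W_7d29a1_C0.Swap57 Pool.Agent.W_7d29a1_C0.NM82
open Pool.W7d29a1.C0 Pool.W7d29a1.C0.VT31 Pool.W7d29a1.C0.H41 Pool.W7d29a1.C0.Fld19

noncomputable section

variable {μ : Measure ℝ} {s : ℝ} {N : ℕ} {Q : Finset (Finset ℕ)} {B : Type*} [Fintype B] [DecidableEq B]

theorem XF_mono {m0 m0' m1 : ℕ} (h : m0 ≤ m0') (F : Px Q → ℝ) (x : Fin 2 → Px Q) : XF m0 m1 F x ≤ XF m0' m1 F x :=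
  mul_le_mul_of_nonneg_left (NI_mono h le_rfl _ _) (abs_nonneg _)

section main

variable [SwQ Q] [Nonempty (Px Q)] {U H HW : Env → Finset ℕ → ℝ} {c : ℕ} {M : ℝ} {f f' : ℝ → ℝ} {m0 m1 n : ℕ}
  {J J' : Finset ℕ} {D : ℝ} {F : Env → Px Q → ℝ} {b : Px Q → B} {χ2 : (Fin 2 → B) → Pt → ℝ}
  {o2 : (Fin 2 → B) → Px Q → ℝ} {χ3 : (Fin 3 → B) → Pt → ℝ} {o3 : (Fin 3 → B) → Px Q → ℝ} {ow : Px Q → ℝ} {R : ℝ}

/-- **(E1) at a fixed set of signs and a fixed tilt**, in the final form: `R` = number of sites of the tubes in a row, `n` = number of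
rows of a slab, `L` free. -/
theorem e1_L [IsProbabilityMeasure μ] (h : DenLaw μ f f') {K θ0 : ℝ} (hs : SG μ (sc f f') K θ0)
    (X : Dt N Q c m0 m1 n J J' M D U H HW F) (T2 : Tb N 2 b (J ∪ J') χ2 o2 ow R) (T3 : Tb N 3 b (J ∪ J') χ3 o3 ow R)
    (hb : ∀ z ∈ J', ∀ S S' : Px Q, pJ 0 z S = pJ 0 z S' → b S = b S') (hM : 0 < M) (hR : 0 < R) (hRn : R ≤ n)
    (hn : 4 ≤ θ0 ^ 2 * (n * R)) (hθ0 : 0 < θ0) {L : ℝ} (hL : 0 ≤ L) :
    |∫ η, ∑ z ∈ J', (n : ℝ)⁻¹ * DX (pJ 0 z) (wU μ s N Q U η) (fun S => H η S.1) [[fun S => HW η S.1], [fun S => H η S.1]]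
        [F η] ∂(law μ)| ≤
      (M ^ 3 * L ^ 2 * (R / n) * ∫ η, rep 2 (wU μ s N Q U η) (XF c m1 (F η)) ∂(law μ) +
        M * L * Real.sqrt (R / n) *
          (∫ η, rep 2 (wU μ s N Q U η) (fun x => |QN m0 m1 (nv μ s N Q U H HW J (n : ℝ)⁻¹ η) (F η) x|) ∂(law μ) +
          ∫ η, rep 2 (wU μ s N Q U η) (fun x => |QN m0 m1 (nv μ s N Q U H H J (n : ℝ)⁻¹ η) (F η) x|) ∂(law μ))) +
      M ^ 3 * (4 * L + 18) * ∫ η, rep 3 (wU μ s N Q U η) (fr 2 b o2 (XF m0 m1 (F η))) ∂(law μ) +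
      (M ^ 3 * (8 * L + 78) * D * ∫ η, gm (wU μ s N Q U η) ow ∂(law μ) +
        112 * M ^ 3 * D * (N + 1) * (Fintype.card B : ℝ) ^ 3 * Real.exp (4 * K - L / 2)) := by
  have hn0 : (0 : ℝ) < n := by exact_mod_cast X.n0
  have hD0 : 0 ≤ D := (abs_nonneg _).trans (X.bF (fun _ => 0) Classical.ofNonempty)
  have mw : Measurable (wU μ s N Q U) := measurable_wU X.pU
  set V : ℝ := R * M ^ 2 / n with hVd
  have hV : 0 < V := by positivity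
  have hsV : 0 < Real.sqrt V := Real.sqrt_pos.2 hV
  have hsq : Real.sqrt V ^ 2 = V := Real.sq_sqrt hV.le
  have hVM : V ≤ M ^ 2 := by
    rw [hVd, div_le_iff₀ hn0]
    nlinarith [sq_nonneg M]
  have hsVe : Real.sqrt V = M * Real.sqrt (R / n) := by
    rw [hVd, show R * M ^ 2 / (n : ℝ) = M ^ 2 * (R / n) by ring, Real.sqrt_mul (sq_nonneg M), Real.sqrt_sq hM.le]
  have hsVM : Real.sqrt V ≤ M := by
    rw [show M = Real.sqrt (M ^ 2) from (Real.sqrt_sq hM.le).symm]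
    exact Real.sqrt_le_sqrt hVM
  have ht : 0 < (Real.sqrt V)⁻¹ := inv_pos.2 hsV
  have htM : 2 * (Real.sqrt V)⁻¹ * (M / n) ≤ θ0 := by
    have h1 : 2 * (Real.sqrt V)⁻¹ * (M / n) = 2 * M / (n * Real.sqrt V) := by field_simp
    rw [h1, div_le_iff₀ (by positivity)]
    have h2 : (2 * M) ^ 2 ≤ (θ0 * (n * Real.sqrt V)) ^ 2 := by
      have h3 : (θ0 * (n * Real.sqrt V)) ^ 2 = θ0 ^ 2 * n ^ 2 * V := by
        rw [mul_pow, mul_pow, hsq]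
        ring
      have h4 : θ0 ^ 2 * (n : ℝ) ^ 2 * V = θ0 ^ 2 * (n * R) * M ^ 2 := by
        rw [hVd]
        field_simp
      rw [h3, h4]
      nlinarith [sq_nonneg M]
    exact le_of_sq_le_sq h2 (by positivity)
  have hA := e1_bound (s := s) h hs X T2 T3 hb (t := (Real.sqrt V)⁻¹) (a := L * Real.sqrt V) (V := V) ht
    (by positivity) le_rfl htM
  have iB0 : Integrable (fun η => rep 3 (wU μ s N Q U η) (fr 2 b o2 (XF c m1 (F η)))) (law μ) :=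
    int_rep (obs_fr b T2.o0 T2.o1 (obs_XF X.mF X.bF)) mw
  have iB1 : Integrable (fun η => rep 3 (wU μ s N Q U η) (fr 2 b o2 (XF m0 m1 (F η)))) (law μ) :=
    int_rep (obs_fr b T2.o0 T2.o1 (obs_XF X.mF X.bF)) mw
  have iC : Integrable (fun η => rep 4 (wU μ s N Q U η) (fr 3 b o3 (fr 2 b o2 (XF c m1 (F η))))) (law μ) :=
    int_rep (obs_fr b T3.o0 T3.o1 (obs_fr b T2.o0 T2.o1 (obs_XF X.mF X.bF))) mw
  have b01 : ∀ η, rep 3 (wU μ s N Q U η) (fr 2 b o2 (XF c m1 (F η))) ≤ rep 3 (wU μ s N Q U η) (fr 2 b o2 (XF m0 m1 (F η))) :=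
    fun η => rep_mono _ _ fun y => by
      unfold fr
      rw [abs_of_nonneg (XF_nonneg c m1 (F η) _), abs_of_nonneg (XF_nonneg m0 m1 (F η) _)]
      exact mul_le_mul_of_nonneg_right (XF_mono X.c1 _ _) (T2.o0 _ _)
  have bC0 : ∀ η, rep 4 (wU μ s N Q U η) (fr 3 b o3 (fr 2 b o2 (XF c m1 (F η)))) ≤
      rep 3 (wU μ s N Q U η) (fr 2 b o2 (XF c m1 (F η))) := fun η => by
    rw [← rep_tail 3 (wU μ s N Q U η) (fr 2 b o2 (XF c m1 (F η)))]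
    refine rep_mono _ _ fun y => ?_
    have h1 := fr_nonneg b T2.o0 (XF c m1 (F η)) (Fin.tail y)
    show |fr 2 b o2 (XF c m1 (F η)) (Fin.tail y)| * o3 (fun i => b (y i.succ)) (y 0) ≤ fr 2 b o2 (XF c m1 (F η)) (Fin.tail y)
    rw [abs_of_nonneg h1]
    exact mul_le_of_le_one_right h1 (T3.o1 _ _)
  have g0 : ∫ η, rep 3 (wU μ s N Q U η) (fr 2 b o2 (XF c m1 (F η))) ∂(law μ) ≤
      ∫ η, rep 3 (wU μ s N Q U η) (fr 2 b o2 (XF m0 m1 (F η))) ∂(law μ) := integral_mono iB0 iB1 b01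
  have g1 : ∫ η, rep 4 (wU μ s N Q U η) (fr 3 b o3 (fr 2 b o2 (XF c m1 (F η)))) ∂(law μ) ≤
      ∫ η, rep 3 (wU μ s N Q U η) (fr 2 b o2 (XF m0 m1 (F η))) ∂(law μ) :=
    (integral_mono iC iB0 bC0).trans g0
  have gB : 0 ≤ ∫ η, rep 3 (wU μ s N Q U η) (fr 2 b o2 (XF m0 m1 (F η))) ∂(law μ) :=
    integral_nonneg fun η => rep_nonneg _ _ fun y => fr_nonneg b T2.o0 _ y
  have gO : 0 ≤ ∫ η, gm (wU μ s N Q U η) ow ∂(law μ) := integral_nonneg fun η => gm_nonneg _ T2.w0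
  refine hA.trans ?_
  have haM : L * Real.sqrt V ≤ L * M := mul_le_mul_of_nonneg_left hsVM hL
  have k1 : M * (L * Real.sqrt V) ^ 2 = M ^ 3 * L ^ 2 * (R / n) := by
    rw [mul_pow, hsq, hVd]
    ring
  have k2 : L * Real.sqrt V = M * L * Real.sqrt (R / n) := by
    rw [hsVe]
    ring
  have k3 : 4 * M ^ 2 * (L * Real.sqrt V + M) * ∫ η, rep 3 (wU μ s N Q U η) (fr 2 b o2 (XF c m1 (F η))) ∂(law μ) +
      6 * M ^ 3 * ∫ η, rep 4 (wU μ s N Q U η) (fr 3 b o3 (fr 2 b o2 (XF c m1 (F η)))) ∂(law μ) +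
      8 * M ^ 3 * ∫ η, rep 3 (wU μ s N Q U η) (fr 2 b o2 (XF m0 m1 (F η))) ∂(law μ) ≤
      M ^ 3 * (4 * L + 18) * ∫ η, rep 3 (wU μ s N Q U η) (fr 2 b o2 (XF m0 m1 (F η))) ∂(law μ) := by
    have h1 : 4 * M ^ 2 * (L * Real.sqrt V + M) ≤ 4 * M ^ 2 * (L * M + M) :=
      mul_le_mul_of_nonneg_left (by linarith) (by positivity)
    have h2 := mul_le_mul h1 g0 (integral_nonneg fun η => rep_nonneg _ _ fun y => fr_nonneg b T2.o0 _ y) (by positivity)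
    have h3 := mul_le_mul_of_nonneg_left g1 (by positivity : 0 ≤ 6 * M ^ 3)
    refine (add_le_add (add_le_add h2 h3) le_rfl).trans (le_of_eq ?_)
    ring
  have k4 : (8 * M ^ 2 * (L * Real.sqrt V) + 78 * M ^ 3) * D * ∫ η, gm (wU μ s N Q U η) ow ∂(law μ) ≤
      M ^ 3 * (8 * L + 78) * D * ∫ η, gm (wU μ s N Q U η) ow ∂(law μ) := by
    have h1 : 8 * M ^ 2 * (L * Real.sqrt V) + 78 * M ^ 3 ≤ M ^ 3 * (8 * L + 78) := by
      have h2 : 8 * M ^ 2 * (L * Real.sqrt V) ≤ 8 * M ^ 2 * (L * M) := mul_le_mul_of_nonneg_left haM (by positivity)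
      nlinarith
    exact mul_le_mul_of_nonneg_right (mul_le_mul_of_nonneg_right h1 hD0) gO
  have k5 : ex19 K (Real.sqrt V)⁻¹ (L * Real.sqrt V) V = Real.exp (4 * K - L / 2) := by
    unfold ex19
    rw [← Real.exp_add]
    congr 1
    have h1 : (Real.sqrt V)⁻¹ * (L * Real.sqrt V) = L := by field_simp
    have h2 : (Real.sqrt V)⁻¹ ^ 2 * V = 1 := by
      rw [inv_pow, hsq]
      exact inv_mul_cancel₀ hV.ne'
    rw [h1]
    have h3 : 4 * K * (Real.sqrt V)⁻¹ ^ 2 * V = 4 * K * ((Real.sqrt V)⁻¹ ^ 2 * V) := by ring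
    rw [h3, h2]
    ring
  have k6 : (Fintype.card B : ℝ) ^ 3 * ((16 * M * D / (Real.sqrt V)⁻¹ ^ 2 + 96 * M ^ 2 * D * (N + 1) / (Real.sqrt V)⁻¹) *
      ex19 K (Real.sqrt V)⁻¹ (L * Real.sqrt V) V) ≤
      112 * M ^ 3 * D * (N + 1) * (Fintype.card B : ℝ) ^ 3 * Real.exp (4 * K - L / 2) := by
    rw [k5]
    have h1 : 16 * M * D / (Real.sqrt V)⁻¹ ^ 2 + 96 * M ^ 2 * D * (N + 1) / (Real.sqrt V)⁻¹ ≤ 112 * M ^ 3 * D * (N + 1) := by
      have h2 : 16 * M * D / (Real.sqrt V)⁻¹ ^ 2 = 16 * M * D * V := by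
        rw [inv_pow, hsq, div_inv_eq_mul]
      have h3 : 96 * M ^ 2 * D * (N + 1) / (Real.sqrt V)⁻¹ = 96 * M ^ 2 * D * (N + 1) * Real.sqrt V := div_inv_eq_mul _ _
      rw [h2, h3]
      have h4 : 16 * M * D * V ≤ 16 * M * D * M ^ 2 := mul_le_mul_of_nonneg_left hVM (by positivity)
      have h5 : 96 * M ^ 2 * D * (N + 1) * Real.sqrt V ≤ 96 * M ^ 2 * D * (N + 1) * M :=
        mul_le_mul_of_nonneg_left hsVM (by positivity)
      have h6 : 0 ≤ M ^ 3 * D * N := by positivity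
      nlinarith
    have h7 := mul_le_mul_of_nonneg_right h1 (Real.exp_pos (4 * K - L / 2)).le
    refine (mul_le_mul_of_nonneg_left h7 (by positivity)).trans (le_of_eq ?_)
    ring
  rw [k1, k2]
  rw [k2] at k3 k4 k6
  refine add_le_add (add_le_add le_rfl ?_) (add_le_add ?_ ?_)
  · exact k3
  · exact k4
  · exact k6

end main

end

end Pool.W7d29a1.C0.E1A
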