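import Pool.Agent.W_7d29a1_C0.E1M82
import Pool.Agent.W_7d29a1_C0.E1N19

/-!
CURV0 (MP_7d29a1_pr, helper82): (E1) OF ONE ROW of the cross term: at fixed signs (`e1_rowA`), in the mean over the environment and the
signs (`e1_rowP`).
-/

set_option autoImplicit false
set_option linter.unusedSectionVars false
set_option linter.unusedVariables false

namespace Pool.Agent.W_7d29a1_C0.E1M82

open Finset MeasureTheory Pool.Agent.W_7d29a1_F Pool.Agent.W_7d29a1_X Pool.Agent.W_7d29a1_H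
open Pool.Agent.W_7d29a1_C0.Mod92 Pool.Agent.W_7d29a1_C0.Base5 Pool.Agent.W_7d29a1_C0
open Pool.Agent.W_7d29a1_C0.Blk18 (Full full_Pn)
open Pool.W7d29a1.C0 (gz gm lse Mc gb81 gb81_apply rep DX avN)
open Pool.W7d29a1.C0.E1A
open Pool.W7d29a1.C0.VT31 Pool.Agent.W_7d29a1_C0.H32 Pool.Agent.W_7d29a1_C0.Swap57 Pool.Agent.W_7d29a1_C0.NM82
open Pool.W7d29a1.C0.H41
open Pool.W7d29a1.C0.Fld19 (Past wU GQ gq_Pn)

noncomputable section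

variable {μ : Measure ℝ} {s : ℝ} {N : ℕ} {δ B : ℝ} {b0 b j c m0 m1 n c' d y : ℕ} {D : ℝ} {f : Fam N} {J J' : Finset ℕ}
  [Nonempty (Px (Pn N y))] {BB : Type*} [Fintype BB] [DecidableEq BB] {bx : Px (Pn N y) → BB} {χ2 : (Fin 2 → BB) → Pt → ℝ}
  {o2 : (Fin 2 → BB) → Px (Pn N y) → ℝ} {χ3 : (Fin 3 → BB) → Pt → ℝ} {o3 : (Fin 3 → BB) → Px (Pn N y) → ℝ}
  {ow : Px (Pn N y) → ℝ} {R : ℝ}

/-- **(E1) OF ONE ROW AT FIXED SIGNS.** -/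
theorem e1_rowA [IsProbabilityMeasure μ] {ff ff' : ℝ → ℝ} (h : DenLaw μ ff ff') {K θ0 : ℝ} (hs : SG μ (sc ff ff') K θ0)
    (hB : 0 < B) (hf : Cls59 N c' d D f) (X : Slabs N d b0 b j c m0 m1 n J J')
    (T2 : Tb N 2 bx (J ∪ J') χ2 o2 ow R) (T3 : Tb N 3 bx (J ∪ J') χ3 o3 ow R)
    (hb : ∀ z ∈ J', ∀ S S' : Px (Pn N y), pJ 0 z S = pJ 0 z S' → bx S = bx S') (hR : 0 < R) (hRn : R ≤ n)
    (hn : 4 ≤ θ0 ^ 2 * (n * R)) (hθ0 : 0 < θ0) {L : ℝ} (hL : 0 ≤ L) (t : ℝ) (A : Finset ℕ) :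
    |∫ η, ∑ z ∈ J', (n : ℝ)⁻¹ * e1X μ s N δ B b0 b j t y f z (η, A) ∂(law μ)| ≤
      ((B / 2) ^ 3 * L ^ 2 * (R / n) *
          ∫ η, rep 2 (wj μ s N (Pn N y) δ B b0 j (η, A) t) (XF c m1 (f y (η, A))) ∂(law μ) +
        B / 2 * L * Real.sqrt (R / n) * (∫ η, rep 2 (wj μ s N (Pn N y) δ B b0 j (η, A) t)
            (fun x => |QN m0 m1 (nX μ s N δ B b0 b j t y J (n : ℝ)⁻¹ (η, A)) (f y (η, A)) x|) ∂(law μ) +
          ∫ η, rep 2 (wj μ s N (Pn N y) δ B b0 j (η, A) t)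
            (fun x => |QN m0 m1 (nG μ s N δ B b0 j t y J (n : ℝ)⁻¹ (η, A)) (f y (η, A)) x|) ∂(law μ))) +
      (B / 2) ^ 3 * (4 * L + 18) *
        ∫ η, rep 3 (wj μ s N (Pn N y) δ B b0 j (η, A) t) (fr 2 bx o2 (XF m0 m1 (f y (η, A)))) ∂(law μ) +
      ((B / 2) ^ 3 * (8 * L + 78) * D * ∫ η, gm (wj μ s N (Pn N y) δ B b0 j (η, A) t) ow ∂(law μ) +
        112 * (B / 2) ^ 3 * D * (N + 1) * (Fintype.card BB : ℝ) ^ 3 * Real.exp (4 * K - L / 2)) := by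
  have hjN : j + b ≤ N := X.hj.trans (X.c1.trans (X.c2.trans (X.c3.trans X.c4)))
  have eX : ∀ A η, nv μ s N (Pn N y) (UM μ s δ B b0 j A t) (HM μ s δ B b0 j A) (XM μ s δ B b0 b j A) J (n : ℝ)⁻¹ η =
      nX μ s N δ B b0 b j t y J (n : ℝ)⁻¹ (η, A) := fun A η => by
    unfold nv nX
    simp only [XM_pt (N := N) (y := y) hB.le X.hb hjN A]
    rfl
  have eG : ∀ A η, nv μ s N (Pn N y) (UM μ s δ B b0 j A t) (HM μ s δ B b0 j A) (HM μ s δ B b0 j A) J (n : ℝ)⁻¹ η =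
      nG μ s N δ B b0 j t y J (n : ℝ)⁻¹ (η, A) := fun A η => rfl
  have hA := e1_L (s := s) h hs (dt_row (μ := μ) (s := s) (δ := δ) (y := y) hB.le hf X A t) T2 T3 hb (by positivity) hR hRn hn hθ0 hL
  simp only [eX A, eG A, XM_pt (N := N) (y := y) hB.le X.hb hjN A] at hA
  exact hA

/-- **(E1) OF ONE ROW, IN THE MEAN OVER THE ENVIRONMENT AND THE SIGNS.** -/
theorem e1_rowP [IsProbabilityMeasure μ] {ff ff' : ℝ → ℝ} (h : DenLaw μ ff ff') {K θ0 : ℝ} (hs : SG μ (sc ff ff') K θ0)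
    (hB : 0 < B) (hf : Cls59 N c' d D f) (X : Slabs N d b0 b j c m0 m1 n J J')
    (T2 : Tb N 2 bx (J ∪ J') χ2 o2 ow R) (T3 : Tb N 3 bx (J ∪ J') χ3 o3 ow R)
    (hb : ∀ z ∈ J', ∀ S S' : Px (Pn N y), pJ 0 z S = pJ 0 z S' → bx S = bx S') (hR : 0 < R) (hRn : R ≤ n)
    (hn : 4 ≤ θ0 ^ 2 * (n * R)) (hθ0 : 0 < θ0) {L : ℝ} (hL : 0 ≤ L) (t : ℝ) :
    |∑ z ∈ J', (n : ℝ)⁻¹ * ∫ ω, e1X μ s N δ B b0 b j t y f z ω ∂(Pm μ N)| ≤
      ((B / 2) ^ 3 * L ^ 2 * (R / n) * ∫ ω, rep 2 (wj μ s N (Pn N y) δ B b0 j ω t) (XF c m1 (f y ω)) ∂(Pm μ N) +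
        B / 2 * L * Real.sqrt (R / n) * (∫ ω, rep 2 (wj μ s N (Pn N y) δ B b0 j ω t)
            (fun x => |QN m0 m1 (nX μ s N δ B b0 b j t y J (n : ℝ)⁻¹ ω) (f y ω) x|) ∂(Pm μ N) +
          ∫ ω, rep 2 (wj μ s N (Pn N y) δ B b0 j ω t)
            (fun x => |QN m0 m1 (nG μ s N δ B b0 j t y J (n : ℝ)⁻¹ ω) (f y ω) x|) ∂(Pm μ N))) +
      (B / 2) ^ 3 * (4 * L + 18) *
        ∫ ω, rep 3 (wj μ s N (Pn N y) δ B b0 j ω t) (fr 2 bx o2 (XF m0 m1 (f y ω))) ∂(Pm μ N) +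
      ((B / 2) ^ 3 * (8 * L + 78) * D * ∫ ω, gm (wj μ s N (Pn N y) δ B b0 j ω t) ow ∂(Pm μ N) +
        112 * (B / 2) ^ 3 * D * (N + 1) * (Fintype.card BB : ℝ) ^ 3 * Real.exp (4 * K - L / 2)) := by
  have hjN : j + b ≤ N := X.hj.trans (X.c1.trans (X.c2.trans (X.c3.trans X.c4)))
  have mw : ∀ A, Measurable fun η => wj μ s N (Pn N y) δ B b0 j (η, A) t := fun A => meas_wA hB.le A t
  have mF : ∀ A (S : Px (Pn N y)), Measurable fun η => f y (η, A) S := fun A S => (hf.meas y S).comp measurable_prodMk_right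
  have bF : ∀ A η (S : Px (Pn N y)), |f y (η, A) S| ≤ D := fun A η S => hf.bdd y (η, A) S
  have hn0 : (0 : ℝ) < n := by exact_mod_cast X.n0
  have hθ : (J.card : ℝ) * (n : ℝ)⁻¹ = 1 := by rw [X.nJ]; exact mul_inv_cancel₀ hn0.ne'
  have hθ1 : (0 : ℝ) ≤ (n : ℝ)⁻¹ := inv_nonneg.2 hn0.le
  have g1 : Gd fun ω => rep 2 (wj μ s N (Pn N y) δ B b0 j ω t) (XF c m1 (f y ω)) :=
    gd_rep mw fun A => obs_XF (mF A) (bF A)
  have g2 : Gd fun ω => rep 2 (wj μ s N (Pn N y) δ B b0 j ω t)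
      (fun x => |QN m0 m1 (nX μ s N δ B b0 b j t y J (n : ℝ)⁻¹ ω) (f y ω) x|) :=
    gd_rep mw fun A => by
      have X' := dt_row (μ := μ) (s := s) (δ := δ) (y := y) hB.le hf X A t
      have eX : ∀ η, nv μ s N (Pn N y) (UM μ s δ B b0 j A t) (HM μ s δ B b0 j A) (XM μ s δ B b0 b j A) J (n : ℝ)⁻¹ η =
          nX μ s N δ B b0 b j t y J (n : ℝ)⁻¹ (η, A) := fun η => by
        unfold nv nX
        simp only [XM_pt (N := N) (y := y) hB.le X.hb hjN A]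
        rfl
      have o1 : ∀ S, Measurable fun η => nX μ s N δ B b0 b j t y J (n : ℝ)⁻¹ (η, A) S := fun S => by
        have k := meas_nv (μ := μ) (s := s) (N := N) (θ := (n : ℝ)⁻¹) (J := J) X'.pU X'.pH X'.pW S
        simp only [eX] at k
        exact k
      have o2 : ∀ η S, |nX μ s N δ B b0 b j t y J (n : ℝ)⁻¹ (η, A) S| ≤ 2 * (B / 2) ^ 2 := fun η S => by
        have k := abs_nv (μ := μ) (s := s) (N := N) (U := UM μ s δ B b0 j A t) hθ hθ1 X'.bH X'.bW η S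
        rw [eX] at k
        exact k
      exact (obs_QN (m0 := m0) (m1 := m1) o1 (mF A) o2 (bF A)).abs
  have g3 : Gd fun ω => rep 2 (wj μ s N (Pn N y) δ B b0 j ω t)
      (fun x => |QN m0 m1 (nG μ s N δ B b0 j t y J (n : ℝ)⁻¹ ω) (f y ω) x|) :=
    gd_rep mw fun A => by
      have X' := dt_row (μ := μ) (s := s) (δ := δ) (y := y) hB.le hf X A t
      have o1 : ∀ S, Measurable fun η => nG μ s N δ B b0 j t y J (n : ℝ)⁻¹ (η, A) S := fun S =>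
        meas_nv (μ := μ) (s := s) (N := N) (θ := (n : ℝ)⁻¹) (J := J) X'.pU X'.pH X'.pH S
      have o2 : ∀ η S, |nG μ s N δ B b0 j t y J (n : ℝ)⁻¹ (η, A) S| ≤ 2 * (B / 2) ^ 2 := fun η S =>
        abs_nv (μ := μ) (s := s) (N := N) (U := UM μ s δ B b0 j A t) hθ hθ1 X'.bH X'.bH η S
      exact (obs_QN (m0 := m0) (m1 := m1) o1 (mF A) o2 (bF A)).abs
  have g4 : Gd fun ω => rep 3 (wj μ s N (Pn N y) δ B b0 j ω t) (fr 2 bx o2 (XF m0 m1 (f y ω))) :=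
    gd_rep mw fun A => obs_fr bx T2.o0 T2.o1 (obs_XF (mF A) (bF A))
  have g5 : Gd fun ω => gm (wj μ s N (Pn N y) δ B b0 j ω t) ow := by
    have h7 : Gd fun ω => rep 1 (wj μ s N (Pn N y) δ B b0 j ω t) (fun x => ow (x 0)) := gd_rep mw (D := 1) fun A =>
      ⟨measurable_const, fun η x => by rw [abs_of_nonneg (T2.w0 _)]; exact T2.w1 _⟩
    simp only [rep_at] at h7
    exact h7
  have gz : ∀ z ∈ J', Gd (e1X μ s N δ B b0 b j t y f z) := fun z hz => gd_e1X hB.le X.hb hjN hf ((X.sJ' z hz).2.trans X.c3) t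
  have eL : ∑ z ∈ J', (n : ℝ)⁻¹ * ∫ ω, e1X μ s N δ B b0 b j t y f z ω ∂(Pm μ N) =
      AvA N fun A => ∫ η, ∑ z ∈ J', (n : ℝ)⁻¹ * e1X μ s N δ B b0 b j t y f z (η, A) ∂(law μ) := by
    have e1 : ∀ A, ∫ η, ∑ z ∈ J', (n : ℝ)⁻¹ * e1X μ s N δ B b0 b j t y f z (η, A) ∂(law μ) =
        ∑ z ∈ J', (n : ℝ)⁻¹ * ∫ η, e1X μ s N δ B b0 b j t y f z (η, A) ∂(law μ) := fun A => by
      rw [integral_finsetSum _ fun z hz => ((gz z hz).int A).const_mul _]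
      exact sum_congr rfl fun z _ => integral_const_mul _ _
    simp_rw [e1]
    rw [AvA_sum]
    refine sum_congr rfl fun z hz => ?_
    rw [(gz z hz).av, AvA_mul]
  rw [eL, g1.av, g2.av, g3.av, g4.av, g5.av]
  rw [← AvA_const (N := N) (112 * (B / 2) ^ 3 * D * (N + 1) * (Fintype.card BB : ℝ) ^ 3 * Real.exp (4 * K - L / 2))]
  simp only [← AvA_add, ← AvA_mul]
  exact abs_AvA_le fun A => e1_rowA h hs hB hf X T2 T3 hb hR hRn hn hθ0 hL t A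

end

end Pool.Agent.W_7d29a1_C0.E1M82
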