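import Pool.Agent.W_7d29a1_C0.Far19B
import Pool.Agent.W_7d29a1_C0.E1B19

/-!
CURV0 (MP_7d29a1_pr), leaf E1: THE TUBES OF `Tube73`, `Far19` ARE AN INSTANCE of the structure `Tb` of helper19 (`E1B19`): `tb_far` (own box left
= not straight), `tb_farN` (own box left = a steep piece). (helper73)
-/

set_option autoImplicit false
set_option linter.unusedSectionVars false
set_option linter.unusedVariables false

namespace Pool.W7d29a1.C0.T73

open Finset MeasureTheory Pool.Agent.W_7d29a1_F Pool.Agent.W_7d29a1_X Pool.W7d29a1.C0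
open Pool.Agent.W_7d29a1_C0.Mod92 (Px Fr Pn lw ps ps_nonneg ps_le)
open Pool.Agent.W_7d29a1_H (sl)
open Pool.Agent.W_7d29a1_HZ (wd')
open Pool.Agent.W_7d29a1_C0.LocM18 (Ns)
open Pool.W7d29a1.C0.E1A (Tb)

noncomputable section

variable {μ : Measure ℝ} {s : ℝ} {N : ℕ} {Q : Finset (Finset ℕ)} {sl' R : ℝ} {n k0 k : ℕ} {I : Finset ℕ}

theorem card_tube' {ι : Type*} [Fintype ι] {S : Finset Pt} {J : Finset ℤ} {m0 : ℤ} (hS : ∀ p ∈ S, p.1 ∈ J) (hR : 1 ≤ R)
    (β : ι → Fin (n + 1)) (h : ∀ p ∈ S, ∃ i, dl sl' m0 (R * ((β i : ℕ) : ℝ)) p ≤ 3 * R) :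
    (S.card : ℝ) ≤ 7 * Fintype.card ι * R * J.card := by
  classical
  have h1 := card_tube (sl := sl') (m0 := m0) hS hR β
  rwa [filter_true_of_mem h] at h1

/-- The number of the sites of a row in the tube. -/
theorem card_row (hR : 1 ≤ R) {m0 : ℤ} (β : Fin k → Fin (n + 1)) (i : ℕ) :
    (((range (N + 1)).filter fun y : ℕ => chT sl' R m0 β ((i : ℤ), (y : ℤ)) ≠ 0).card : ℝ) ≤ 7 * k * R := by
  classical
  set T : Finset Pt := ((range (N + 1)).filter fun y : ℕ => chT sl' R m0 β ((i : ℤ), (y : ℤ)) ≠ 0).image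
    fun y : ℕ => (((i : ℤ), (y : ℤ)) : Pt) with hT
  have h1 : T.card = ((range (N + 1)).filter fun y : ℕ => chT sl' R m0 β ((i : ℤ), (y : ℤ)) ≠ 0).card :=
    card_image_of_injective _ fun a b h => by
      have := congrArg Prod.snd h
      simp only at this
      exact_mod_cast this
  have h2 : ∀ p ∈ T, ∃ j, dl sl' m0 (R * ((β j : ℕ) : ℝ)) p ≤ 3 * R := by
    intro p hp
    rw [hT, mem_image] at hp
    obtain ⟨y, hy, rfl⟩ := hp
    rw [mem_filter] at hy
    by_contra h3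
    exact hy.2 (if_neg h3)
  have h3 := card_tube' (S := T) (J := {(i : ℤ)}) (fun p hp => by
    rw [hT, mem_image] at hp
    obtain ⟨y, _, rfl⟩ := hp
    exact mem_singleton_self _) hR β h2
  rw [Fintype.card_fin, card_singleton, Nat.cast_one, mul_one, h1] at h3
  exact h3

open Classical in
/-- **The tubes**, with `ow` = not straight. -/
theorem tb_far (hR : 1 ≤ R) (hn : k0 ≤ n) :
    Tb N k (bx (pm (Q := Q)) R (k0 : ℤ) n) I (fun β => chT sl' R (k0 : ℤ) β)
      (fun β S => if OutB pm sl' R (k0 : ℤ) (JZ I) β S then 1 else 0)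
      (fun S => if Str pm sl' R (k0 : ℤ) (JZ I) S then 0 else 1) (7 * k * R) where
  z β p := chT_nonneg β p
  u β p := chT_le_one β p
  n β i _ := card_row hR β i
  far β S h := by
    rw [if_pos]
    obtain ⟨i, hi, h1⟩ := h
    exact OutB_iff.2 ⟨(i : ℤ), mem_JZ.2 ⟨i, hi, rfl⟩, by rw [pm_nat]; exact h1⟩
  o0 β S := by split_ifs <;> norm_num
  o1 β S := by split_ifs <;> norm_num
  own β i S h := by
    by_cases h1 : Str pm sl' R (k0 : ℤ) (JZ I) S
    · rw [if_pos h1, if_neg]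
      exact not_OutB hR (pm_nonneg _ _) (pm_le _ (by exact_mod_cast hn)) (i := i) h.symm h1
    · rw [if_neg h1]
      split_ifs <;> norm_num
  w0 S := by split_ifs <;> norm_num
  w1 S := by split_ifs <;> norm_num

open Classical in
/-- **The tubes**, with `ow` = a steep piece over `[c, d]`. -/
theorem tb_farN {ε : ℝ} {c d : ℕ} (hJ : ∀ i ∈ I, c ≤ i ∧ i ≤ d) (h0 : c ≤ k0) (h1 : k0 ≤ d) (hn : k0 ≤ n)
    (hR : 1 ≤ R) (hRk : ∀ k : ℕ, 1 ≤ k → k ≤ d - c → ((d - c : ℕ) : ℝ) ^ ε * wd' μ s k ≤ R) :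
    Tb N k (bx (pm (Q := Q)) R (k0 : ℤ) n) I (fun β => chT (sl μ s) R (k0 : ℤ) β)
      (fun β S => if OutB pm (sl μ s) R (k0 : ℤ) (JZ I) β S then 1 else 0)
      (fun S => if Ns μ s ε c d S then 0 else 1) (7 * k * R) where
  z β p := chT_nonneg β p
  u β p := chT_le_one β p
  n β i _ := card_row hR β i
  far β S h := by
    rw [if_pos]
    obtain ⟨i, hi, h1⟩ := h
    exact OutB_iff.2 ⟨(i : ℤ), mem_JZ.2 ⟨i, hi, rfl⟩, by rw [pm_nat]; exact h1⟩
  o0 β S := by split_ifs <;> norm_num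
  o1 β S := by split_ifs <;> norm_num
  own β i S h := by
    by_cases h2 : Ns μ s ε c d S
    · rw [if_pos h2, if_neg]
      exact not_OutB hR (pm_nonneg _ _) (pm_le _ (by exact_mod_cast hn)) (i := i) h.symm
        (Str_of_Ns h2 hJ h0 h1 (by linarith) hRk)
    · rw [if_neg h2]
      split_ifs <;> norm_num
  w0 S := by split_ifs <;> norm_num
  w1 S := by split_ifs <;> norm_num

end

end Pool.W7d29a1.C0.T73
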