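import Pool.Agent.W_7d29a1_C0.XFc34
import Pool.Agent.W_7d29a1_C0.Far19C
import Pool.Agent.W_7d29a1_HZ.Z22_PBox

/-!
MP_7d29a1_pr, [CURV0], leaf E1 (helper19): the parts of the row theorem `rowB19` of `E1T19`: the sum of the terms in one loss (`sum19`), the
cone as a tube (`tb_cone`), the tubes of helper73 and the cone in `e1_rowP` of helper82 (`tube19`, `cone19`), the numbers (`ev19`).
-/

set_option autoImplicit false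
set_option linter.unusedSectionVars false
set_option linter.unusedVariables false

namespace Pool.Agent.W_7d29a1_C0.E1T19

open Finset MeasureTheory Filter Topology Pool.Agent.W_7d29a1_F Pool.Agent.W_7d29a1_X Pool.Agent.W_7d29a1_H
open Pool.Agent.W_7d29a1_HS (In)
open Pool.Agent.W_7d29a1_HZ (wd' EE')
open Pool.Agent.W_7d29a1_C0.Mod92 Pool.Agent.W_7d29a1_C0
open Pool.W7d29a1.C0 (gz gm lse Mc gb81 gb81_apply rep DX avN)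
open Pool.W7d29a1.C0.VT31 Pool.Agent.W_7d29a1_C0.H32 Pool.Agent.W_7d29a1_C0.Swap57 Pool.Agent.W_7d29a1_C0.NM82
open Pool.W7d29a1.C0.E1A (fr XF Tb XF_nonneg)
open Pool.W7d29a1.C0.H27 (QI)
open Pool.Agent.W_7d29a1_C0.Q32
open Pool.W7d29a1.C0.T73 (pm JZ OutB bx Str chT tb_far mem_JZ pm_nat)
open Pool.Agent.W_7d29a1_C0.Far34 (vv xf_wt34 farP34 varF_nonneg34)
open Pool.Agent.W_7d29a1_C0.E1M82 (Slabs e1X nX nG e1_rowP)

noncomputable section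

theorem s1_19 {x M ρ w S Q z e I2 : ℝ} (hx : 112 ≤ x) (hM0 : 0 ≤ M) (hM : M ≤ x) (hρ0 : 0 ≤ ρ) (hρ : ρ ≤ x ^ 2 * w)
    (hw0 : 0 ≤ w) (hw1 : w ≤ 1) (hS : 0 ≤ S) (hQ : 0 ≤ Q) (hz : 0 ≤ z) (he : 0 ≤ e) (h2 : I2 ≤ x * (S * (x * Q + z) + e)) :
    M ^ 3 * x ^ 2 * ρ * I2 ≤ x ^ 9 * (w * (S * Q)) + x ^ 8 * (S * z) + x ^ 8 * e := by
  have hx0 : 0 ≤ x := by linarith
  have hM3 : M ^ 3 ≤ x ^ 3 := pow_le_pow_left₀ hM0 hM 3
  have n : 0 ≤ x * (S * (x * Q + z) + e) := by positivity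
  have a2 : M ^ 3 * x ^ 2 * ρ ≤ x ^ 3 * x ^ 2 * (x ^ 2 * w) :=
    mul_le_mul (mul_le_mul_of_nonneg_right hM3 (by positivity)) hρ hρ0 (by positivity)
  calc M ^ 3 * x ^ 2 * ρ * I2 ≤ M ^ 3 * x ^ 2 * ρ * (x * (S * (x * Q + z) + e)) := mul_le_mul_of_nonneg_left h2 (by positivity)
    _ ≤ x ^ 3 * x ^ 2 * (x ^ 2 * w) * (x * (S * (x * Q + z) + e)) := mul_le_mul_of_nonneg_right a2 n
    _ = x ^ 9 * (w * (S * Q)) + w * (x ^ 8 * (S * z)) + w * (x ^ 8 * e) := by ring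
    _ ≤ x ^ 9 * (w * (S * Q)) + x ^ 8 * (S * z) + x ^ 8 * e :=
      add_le_add (add_le_add le_rfl (mul_le_of_le_one_left (by positivity) hw1)) (mul_le_of_le_one_left (by positivity) hw1)

theorem s2_19 {x M ρ w mic : ℝ} (hx : 112 ≤ x) (hM0 : 0 ≤ M) (hM : M ≤ x) (hρ : ρ ≤ x ^ 2 * w) (hmic : 0 ≤ mic) :
    M * x * Real.sqrt ρ * mic ≤ x ^ 9 * (Real.sqrt w * mic) := by
  have hx0 : 0 ≤ x := by linarith
  have b1 : Real.sqrt ρ ≤ x * Real.sqrt w := by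
    have e := Real.sqrt_mul (sq_nonneg x) w
    rw [Real.sqrt_sq hx0] at e
    rw [← e]
    exact Real.sqrt_le_sqrt hρ
  have b0 : 0 ≤ Real.sqrt w * mic := mul_nonneg (Real.sqrt_nonneg _) hmic
  calc M * x * Real.sqrt ρ * mic ≤ x * x * (x * Real.sqrt w) * mic :=
      mul_le_mul_of_nonneg_right (mul_le_mul (mul_le_mul_of_nonneg_right hM hx0) b1 (Real.sqrt_nonneg _) (by positivity)) hmic
    _ = x ^ 3 * (Real.sqrt w * mic) := by ring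
    _ ≤ x ^ 9 * (Real.sqrt w * mic) := mul_le_mul_of_nonneg_right (pow_le_pow_right₀ (by linarith) (by norm_num)) b0

theorem s3_19 {x M p S Q z e D I3 : ℝ} (hx : 112 ≤ x) (hM0 : 0 ≤ M) (hM : M ≤ x) (hp0 : 0 ≤ p) (hp1 : p ≤ 1) (hS : 0 ≤ S)
    (hQ : 0 ≤ Q) (hz : 0 ≤ z) (he : 0 ≤ e) (hD : 0 ≤ D)
    (h3 : I3 ≤ x * (x * p * (S * (x * Q + z)) + 2 * D * z + e) + 4 * D * z) :
    M ^ 3 * (4 * x + 18) * I3 ≤ x ^ 9 * (p * (S * Q)) + x ^ 8 * (S * z) + x ^ 8 * e + x ^ 8 * (D * z) := by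
  have hx0 : 0 ≤ x := by linarith
  have hx1 : 1 ≤ x := by linarith
  have hM3 : M ^ 3 ≤ x ^ 3 := pow_le_pow_left₀ hM0 hM 3
  have n : 0 ≤ x * (x * p * (S * (x * Q + z)) + 2 * D * z + e) + 4 * D * z := by positivity
  have c2 : M ^ 3 * (4 * x + 18) ≤ x ^ 3 * (5 * x) := mul_le_mul hM3 (by linarith) (by positivity) (by positivity)
  have e1 : 5 * x ^ 7 ≤ x ^ 9 := by
    have h1 : x ^ 9 = x ^ 2 * x ^ 7 := by ring
    rw [h1]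
    exact mul_le_mul_of_nonneg_right (by linarith [le_self_pow₀ hx1 (two_ne_zero)]) (by positivity)
  have e2 : 5 * x ^ 6 ≤ x ^ 8 := by
    have h1 : x ^ 8 = x ^ 2 * x ^ 6 := by ring
    rw [h1]
    exact mul_le_mul_of_nonneg_right (by linarith [le_self_pow₀ hx1 (two_ne_zero)]) (by positivity)
  have e3 : 30 * x ^ 5 ≤ x ^ 8 := by
    have h1 : x ^ 8 = x ^ 3 * x ^ 5 := by ring
    rw [h1]
    exact mul_le_mul_of_nonneg_right (by linarith [le_self_pow₀ hx1 (three_ne_zero)]) (by positivity)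
  have e4 : 10 * x ^ 5 + 20 * x ^ 4 ≤ x ^ 8 := by
    have h45 : x ^ 4 ≤ x ^ 5 := pow_le_pow_right₀ hx1 (by norm_num)
    linarith
  have e5 : 5 * x ^ 5 ≤ x ^ 8 := by
    have : 0 ≤ x ^ 5 := by positivity
    linarith
  calc M ^ 3 * (4 * x + 18) * I3 ≤ M ^ 3 * (4 * x + 18) * (x * (x * p * (S * (x * Q + z)) + 2 * D * z + e) + 4 * D * z) :=
      mul_le_mul_of_nonneg_left h3 (by positivity)
    _ ≤ x ^ 3 * (5 * x) * (x * (x * p * (S * (x * Q + z)) + 2 * D * z + e) + 4 * D * z) := mul_le_mul_of_nonneg_right c2 n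
    _ = 5 * x ^ 7 * (p * (S * Q)) + p * (5 * x ^ 6 * (S * z)) + 5 * x ^ 5 * e + (10 * x ^ 5 + 20 * x ^ 4) * (D * z) := by ring
    _ ≤ x ^ 9 * (p * (S * Q)) + x ^ 8 * (S * z) + x ^ 8 * e + x ^ 8 * (D * z) := by
      refine add_le_add (add_le_add (add_le_add (mul_le_mul_of_nonneg_right e1 (by positivity)) ?_)
        (mul_le_mul_of_nonneg_right e5 he)) (mul_le_mul_of_nonneg_right e4 (by positivity))
      exact (mul_le_of_le_one_left (by positivity) hp1).trans (mul_le_mul_of_nonneg_right e2 (by positivity))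

theorem s4_19 {x M D Iw z : ℝ} (hx : 112 ≤ x) (hM0 : 0 ≤ M) (hM : M ≤ x) (hz : 0 ≤ z) (hD : 0 ≤ D) (hI : Iw ≤ z) :
    M ^ 3 * (8 * x + 78) * D * Iw ≤ x ^ 8 * (D * z) := by
  have hx0 : 0 ≤ x := by linarith
  have hx1 : 1 ≤ x := by linarith
  have hM3 : M ^ 3 ≤ x ^ 3 := pow_le_pow_left₀ hM0 hM 3
  have n3 : 0 ≤ D * z := by positivity
  have c2 : M ^ 3 * (8 * x + 78) ≤ x ^ 3 * (9 * x) := mul_le_mul hM3 (by linarith) (by positivity) (by positivity)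
  have c4 : x ^ 3 * (9 * x) ≤ x ^ 8 := by
    have e : x ^ 8 = x ^ 3 * (x ^ 4 * x) := by ring
    rw [e]
    refine mul_le_mul_of_nonneg_left (mul_le_mul_of_nonneg_right ?_ hx0) (by positivity)
    linarith [le_self_pow₀ hx1 (four_ne_zero)]
  calc M ^ 3 * (8 * x + 78) * D * Iw ≤ M ^ 3 * (8 * x + 78) * D * z := mul_le_mul_of_nonneg_left hI (by positivity)
    _ = M ^ 3 * (8 * x + 78) * (D * z) := by ring
    _ ≤ x ^ 8 * (D * z) := mul_le_mul_of_nonneg_right (c2.trans c4) n3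

/-- The sum of the terms of a row in one loss `x`. -/
theorem sum19 {x M ρ w p S Q z e D I2 mic I3 Iw T : ℝ} (hx : 112 ≤ x) (hM0 : 0 ≤ M) (hM : M ≤ x) (hρ0 : 0 ≤ ρ)
    (hρ : ρ ≤ x ^ 2 * w) (hw0 : 0 ≤ w) (hw1 : w ≤ 1) (hp0 : 0 ≤ p) (hp1 : p ≤ 1) (hS : 0 ≤ S) (hQ : 0 ≤ Q) (hz : 0 ≤ z)
    (he : 0 ≤ e) (hD : 0 ≤ D) (hmic : 0 ≤ mic) (h2 : I2 ≤ x * (S * (x * Q + z) + e))
    (h3 : I3 ≤ x * (x * p * (S * (x * Q + z)) + 2 * D * z + e) + 4 * D * z) (hI : Iw ≤ z) (hT : T ≤ D * z) :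
    (M ^ 3 * x ^ 2 * ρ * I2 + M * x * Real.sqrt ρ * mic) + M ^ 3 * (4 * x + 18) * I3 + (M ^ 3 * (8 * x + 78) * D * Iw + T) ≤
      x ^ 9 * ((w + p) * (S * Q) + Real.sqrt w * mic) + x ^ 9 * (S * z + e + D * z) := by
  have hx1 : 1 ≤ x := by linarith
  have t1 := s1_19 hx hM0 hM hρ0 hρ hw0 hw1 hS hQ hz he h2
  have t2 := s2_19 hx hM0 hM hρ hmic
  have t3 := s3_19 hx hM0 hM hp0 hp1 hS hQ hz he hD h3
  have t4 := s4_19 hx hM0 hM hz hD hI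
  have n3 : 0 ≤ D * z := mul_nonneg hD hz
  have t5 : T ≤ x ^ 8 * (D * z) := hT.trans (le_mul_of_one_le_left n3 (one_le_pow₀ hx1))
  have g : ∀ a : ℝ, 0 ≤ a → 4 * (x ^ 8 * a) ≤ x ^ 9 * a := fun a ha => by
    have e : x ^ 9 * a = x * (x ^ 8 * a) := by ring
    rw [e]
    exact mul_le_mul_of_nonneg_right (by linarith) (mul_nonneg (pow_nonneg (by linarith) 8) ha)
  have n8 : 0 ≤ x ^ 8 := pow_nonneg (by linarith) 8
  have g1 := g _ (mul_nonneg hS hz)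
  have g2 := g _ he
  have g3 := g _ n3
  have q1 := mul_nonneg n8 (mul_nonneg hS hz)
  have q2 := mul_nonneg n8 he
  have q3 := mul_nonneg n8 n3
  have e9 : x ^ 9 * ((w + p) * (S * Q) + Real.sqrt w * mic) + x ^ 9 * (S * z + e + D * z) =
      x ^ 9 * (w * (S * Q)) + x ^ 9 * (p * (S * Q)) + x ^ 9 * (Real.sqrt w * mic) + (x ^ 9 * (S * z) + x ^ 9 * e + x ^ 9 * (D * z)) := by
    ring
  rw [e9]
  linarith

theorem avy_c19 {ys : Finset ℕ} {p : ℝ} (hp : 0 ≤ p) : avy ys (fun _ => p) ≤ p := by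
  unfold avy
  rw [sum_const, nsmul_eq_mul]
  by_cases hc : ys.card = 0
  · rw [hc]
    simpa using hp
  · rw [← mul_assoc, inv_mul_cancel₀ (by exact_mod_cast hc), one_mul]

/-- The terms of a row, averaged over the ends. -/
theorem avy_row19 {ys : Finset ℕ} {E I2 mic I3 Iw : ℕ → ℝ} {a b c d T : ℝ} (hT : 0 ≤ T)
    (h : ∀ y ∈ ys, E y ≤ (a * I2 y + b * mic y) + c * I3 y + (d * Iw y + T)) :
    avy ys E ≤ (a * avy ys I2 + b * avy ys mic) + c * avy ys I3 + (d * avy ys Iw + T) := by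
  refine (avy_mono h).trans ?_
  rw [avy_add, avy_add, avy_add, avy_add, avy_mul, avy_mul, avy_mul, avy_mul]
  have := avy_c19 (ys := ys) hT
  linarith

/-- The root of the price. -/
theorem root19 {x a z : ℝ} (hx : 0 ≤ x) (ha : 0 ≤ a) (hz : 0 ≤ z) : Real.sqrt (x ^ 2 * a + z ^ 2) ≤ x * Real.sqrt a + z := by
  rw [Real.sqrt_le_left (add_nonneg (mul_nonneg hx (Real.sqrt_nonneg _)) hz)]
  have h := Real.sq_sqrt ha
  have h2 : 0 ≤ x * Real.sqrt a * z := mul_nonneg (mul_nonneg hx (Real.sqrt_nonneg _)) hz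
  have e : (x * Real.sqrt a + z) ^ 2 = x ^ 2 * Real.sqrt a ^ 2 + 2 * (x * Real.sqrt a * z) + z ^ 2 := by ring
  rw [e, h]
  linarith

/-! ### The cone as a tube -/

variable {μ : Measure ℝ} {s : ℝ} {N : ℕ} {Q : Finset (Finset ℕ)}

theorem Tb.mono {B : Type*} {k : ℕ} {b : Px Q → B} {I : Finset ℕ} {χ : (Fin k → B) → Pt → ℝ} {o : (Fin k → B) → Px Q → ℝ}
    {ow : Px Q → ℝ} {R R' : ℝ} (T : Tb N k b I χ o ow R) (h : R ≤ R') : Tb N k b I χ o ow R' :=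
  { T with n := fun β i hi => (T.n β i hi).trans h }

open Classical in
/-- The cone. -/
def chC (σ R : ℝ) (p : Pt) : ℝ := if |(p.2 : ℝ) - σ * (p.1 : ℝ)| ≤ R then 1 else 0

theorem card_cone {σ R : ℝ} (hR : 1 ≤ R) (i : ℕ) :
    (((range (N + 1)).filter fun y : ℕ => chC σ R ((i : ℤ), (y : ℤ)) ≠ 0).card : ℝ) ≤ 3 * R := by
  classical
  obtain ⟨a, ha⟩ : ∃ a : ℝ, a = σ * i := ⟨_, rfl⟩
  have h1 : ((range (N + 1)).filter fun y : ℕ => chC σ R ((i : ℤ), (y : ℤ)) ≠ 0).card ≤ (Icc ⌈a - R⌉ ⌊a + R⌋).card := by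
    refine card_le_card_of_injOn (fun y : ℕ => (y : ℤ)) (fun y hy => ?_) fun y _ z _ hyz => by simpa using hyz
    have hy2 := (mem_filter.1 (mem_coe.1 hy)).2
    have h2 : |((y : ℤ) : ℝ) - σ * (((i : ℕ) : ℤ) : ℝ)| ≤ R := by
      by_contra hc
      exact hy2 (by unfold chC; rw [if_neg hc])
    have e : σ * (((i : ℕ) : ℤ) : ℝ) = a := by
      rw [ha]
      push_cast
      ring
    rw [e, abs_le] at h2
    simp only [coe_Icc, Set.mem_Icc]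
    exact ⟨Int.ceil_le.2 (by linarith), Int.le_floor.2 (by linarith)⟩
  have h2 : ((Icc ⌈a - R⌉ ⌊a + R⌋).card : ℝ) ≤ 2 * R + 1 := by
    rw [Int.card_Icc]
    have h3 : ((⌊a + R⌋ + 1 - ⌈a - R⌉ : ℤ) : ℝ) ≤ 2 * R + 1 := by
      have h4 := Int.floor_le (a + R)
      have h5 := Int.le_ceil (a - R)
      push_cast
      linarith
    rcases le_total (⌊a + R⌋ + 1 - ⌈a - R⌉) 0 with h6 | h6
    · rw [Int.toNat_of_nonpos h6]
      push_cast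
      linarith
    · have h7 : (((⌊a + R⌋ + 1 - ⌈a - R⌉).toNat : ℕ) : ℝ) = ((⌊a + R⌋ + 1 - ⌈a - R⌉ : ℤ) : ℝ) := by
        have := Int.toNat_of_nonneg h6
        exact_mod_cast this
      rw [h7]
      exact h3
  have h3 : ((((range (N + 1)).filter fun y : ℕ => chC σ R ((i : ℤ), (y : ℤ)) ≠ 0).card : ℕ) : ℝ) ≤
      ((Icc ⌈a - R⌉ ⌊a + R⌋).card : ℝ) := by exact_mod_cast h1
  linarith

/-- **The cone as a tube**: one box, the paths out of it are not straight from the root. -/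
theorem tb_cone {σ R : ℝ} {k : ℕ} {I : Finset ℕ} (hR1 : 1 ≤ R) :
    Tb N k (fun _ : Px Q => ()) I (fun (_ : Fin k → Unit) => chC σ R)
      (fun _ S => Far34.i1 (¬ Str pm σ R ((0 : ℕ) : ℤ) (JZ I) S)) (fun S => Far34.i1 (¬ Str pm σ R ((0 : ℕ) : ℤ) (JZ I) S)) (3 * R) where
  z β p := by
    unfold chC
    split_ifs <;> norm_num
  u β p := by
    unfold chC
    split_ifs <;> norm_num
  n β i _ := card_cone hR1 i
  far β S h := by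
    obtain ⟨i, hi, h1⟩ := h
    have h2 : ¬ Str pm σ R ((0 : ℕ) : ℤ) (JZ I) S := fun hf => by
      refine h1 ?_
      unfold chC
      rw [if_pos]
      have h3 := hf (i : ℤ) (mem_JZ.2 ⟨i, hi, rfl⟩)
      unfold Pool.W7d29a1.C0.T73.dl at h3
      rw [pm_nat, pm_nat, ps_zero] at h3
      push_cast at h3 ⊢
      simpa using h3
    unfold Far34.i1
    rw [if_pos h2]
  o0 β S := Far34.i1_nonneg _
  o1 β S := by
    unfold Far34.i1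
    split_ifs <;> norm_num
  own β i S h := le_rfl
  w0 S := Far34.i1_nonneg _
  w1 S := by
    unfold Far34.i1
    split_ifs <;> norm_num

/-! ### The numbers -/

theorem ev19 {e0 K' κ θ0 c' : ℝ} (he0 : 0 < e0) (hκ : 0 < κ) (hθ0 : 0 < θ0) (hc' : 0 < c') (Kw Ks : ℝ) :
    ∀ᶠ N : ℕ in atTop, 2 ≤ N ∧ 112 ≤ (N : ℝ) ^ e0 ∧ Kw * (N : ℝ) ^ (e0 / 2) ≤ (N : ℝ) ^ e0 ∧ 4 ≤ θ0 ^ 2 * (N : ℝ) ^ κ ∧
      3 * (N : ℝ) ^ min (c' / 2) (e0 / 2) ≤ (N : ℝ) ^ c' ∧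
      4 * (N : ℝ) ^ (9 * e0 + 2 * K') * Real.exp (-(N : ℝ) ^ min (c' / 2) (e0 / 2)) ≤ 1 ∧
      112 * ((N : ℝ) ^ e0) ^ 3 * (N + 1) * ((N : ℝ) + 1) ^ 3 * Real.exp (4 * Ks - (N : ℝ) ^ e0 / 2) ≤
        Real.exp (-(N : ℝ) ^ min (c' / 2) (e0 / 2)) := by
  have hg : 0 < min (c' / 2) (e0 / 2) := lt_min (by linarith) (by linarith)
  have tn : ∀ a : ℝ, 0 < a → Tendsto (fun N : ℕ => (N : ℝ) ^ a) atTop atTop := fun a ha =>
    (tendsto_rpow_atTop ha).comp tendsto_natCast_atTop_atTop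
  filter_upwards [eventually_ge_atTop 2, (tn e0 he0).eventually_ge_atTop 112, (tn (e0 / 2) (by linarith)).eventually_ge_atTop Kw,
    (tn κ hκ).eventually_ge_atTop (4 / θ0 ^ 2), (tn (c' / 2) (by linarith)).eventually_ge_atTop 3,
    Pool.Agent.W_7d29a1_HZ.Z22.absorb 4 (9 * e0 + 2 * K') one_pos hg,
    Pool.Agent.W_7d29a1_HZ.Z22.absorb (112 * 16 * Real.exp (4 * Ks)) (3 * e0 + 4) (show (0 : ℝ) < 1 / 2 by norm_num) he0]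
    with N h0 h1 h2 h3 h4 h5 h6
  have hN2 : (2 : ℝ) ≤ N := by exact_mod_cast h0
  have hN1 : (1 : ℝ) ≤ N := by linarith
  have hN0 : (0 : ℝ) < N := by linarith
  refine ⟨h0, h1, ?_, ?_, ?_, ?_, ?_⟩
  · have e : (N : ℝ) ^ e0 = (N : ℝ) ^ (e0 / 2) * (N : ℝ) ^ (e0 / 2) := by rw [← Real.rpow_add hN0]; congr 1; ring
    rw [e]
    exact mul_le_mul_of_nonneg_right h2 (Real.rpow_nonneg hN0.le _)
  · rw [div_le_iff₀ (by positivity)] at h3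
    linarith
  · have e : (N : ℝ) ^ c' = (N : ℝ) ^ (c' / 2) * (N : ℝ) ^ (c' / 2) := by rw [← Real.rpow_add hN0]; congr 1; ring
    have h7 : (N : ℝ) ^ min (c' / 2) (e0 / 2) ≤ (N : ℝ) ^ (c' / 2) := Real.rpow_le_rpow_of_exponent_le hN1 (min_le_left _ _)
    rw [e]
    exact mul_le_mul h4 h7 (Real.rpow_nonneg hN0.le _) (Real.rpow_nonneg hN0.le _)
  · rw [one_mul] at h5
    exact h5.trans (Real.exp_le_one_iff.2 (neg_nonpos.2 (Real.rpow_nonneg hN0.le _)))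
  · have e1 : ((N : ℝ) ^ e0) ^ 3 = (N : ℝ) ^ (3 * e0) := by
      rw [← Real.rpow_natCast, ← Real.rpow_mul hN0.le]
      congr 1
      push_cast
      ring
    have e2 : (N : ℝ) ^ (3 * e0 + 4) = (N : ℝ) ^ (3 * e0) * (N : ℝ) ^ (4 : ℕ) := by
      rw [Real.rpow_add hN0]
      congr 1
      exact_mod_cast Real.rpow_natCast (N : ℝ) 4
    have e3 : Real.exp (4 * Ks - (N : ℝ) ^ e0 / 2) = Real.exp (4 * Ks) * Real.exp (-(1 / 2 * (N : ℝ) ^ e0)) := by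
      rw [← Real.exp_add]
      congr 1
      ring
    have e4 : ((N : ℝ) + 1) * ((N : ℝ) + 1) ^ 3 ≤ 16 * (N : ℝ) ^ (4 : ℕ) := by
      have h8 : (N : ℝ) + 1 ≤ 2 * N := by linarith
      have h9 : ((N : ℝ) + 1) ^ 4 ≤ (2 * (N : ℝ)) ^ 4 := pow_le_pow_left₀ (by linarith) h8 4
      calc ((N : ℝ) + 1) * ((N : ℝ) + 1) ^ 3 = ((N : ℝ) + 1) ^ 4 := by ring
        _ ≤ (2 * (N : ℝ)) ^ 4 := h9
        _ = 16 * (N : ℝ) ^ (4 : ℕ) := by ring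
    have h10 : Real.exp (-(N : ℝ) ^ (e0 / 2)) ≤ Real.exp (-(N : ℝ) ^ min (c' / 2) (e0 / 2)) :=
      Real.exp_le_exp.2 (neg_le_neg (Real.rpow_le_rpow_of_exponent_le hN1 (min_le_right _ _)))
    refine le_trans ?_ (h6.trans h10)
    rw [e1, e2, e3]
    have h11 : 0 ≤ 112 * (N : ℝ) ^ (3 * e0) * (Real.exp (4 * Ks) * Real.exp (-(1 / 2 * (N : ℝ) ^ e0))) :=
      mul_nonneg (mul_nonneg (by norm_num) (Real.rpow_nonneg hN0.le _)) (by positivity)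
    have h12 := mul_le_mul_of_nonneg_left e4 h11
    calc 112 * (N : ℝ) ^ (3 * e0) * (N + 1) * ((N : ℝ) + 1) ^ 3 * (Real.exp (4 * Ks) * Real.exp (-(1 / 2 * (N : ℝ) ^ e0))) =
        112 * (N : ℝ) ^ (3 * e0) * (Real.exp (4 * Ks) * Real.exp (-(1 / 2 * (N : ℝ) ^ e0))) * (((N : ℝ) + 1) * ((N : ℝ) + 1) ^ 3) := by ring
      _ ≤ 112 * (N : ℝ) ^ (3 * e0) * (Real.exp (4 * Ks) * Real.exp (-(1 / 2 * (N : ℝ) ^ e0))) * (16 * (N : ℝ) ^ (4 : ℕ)) := h12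
      _ = 112 * 16 * Real.exp (4 * Ks) * ((N : ℝ) ^ (3 * e0) * (N : ℝ) ^ (4 : ℕ)) * Real.exp (-(1 / 2 * (N : ℝ) ^ e0)) := by ring

/-! ### (E1) of one row -/

/-- The two micro terms of a row. -/
def mc19 (μ : Measure ℝ) (s : ℝ) (N : ℕ) (δk B : ℝ) (b0 b j : ℕ) (t : ℝ) (f : Fam N) (m0 m1 : ℕ) (J : Finset ℕ) (n : ℕ) (y : ℕ) : ℝ :=
  ∫ ω, rep 2 (wj μ s N (Pn N y) δk B b0 j ω t) (fun x => |QN m0 m1 (nX μ s N δk B b0 b j t y J (n : ℝ)⁻¹ ω) (f y ω) x|) ∂(Pm μ N) +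
    ∫ ω, rep 2 (wj μ s N (Pn N y) δk B b0 j ω t) (fun x => |QN m0 m1 (nG μ s N δk B b0 j t y J (n : ℝ)⁻¹ ω) (f y ω) x|) ∂(Pm μ N)

theorem mc19_nonneg {δk B : ℝ} {b0 b j : ℕ} {t : ℝ} {f : Fam N} {m0 m1 : ℕ} {J : Finset ℕ} {n y : ℕ} (hy : y ≤ N) :
    0 ≤ mc19 μ s N δk B b0 b j t f m0 m1 J n y := by
  have hne := ne_Pn hy
  exact add_nonneg (integral_nonneg fun ω => Pool.W7d29a1.C0.H41.rep_nonneg 2 _ fun x => abs_nonneg _)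
    (integral_nonneg fun ω => Pool.W7d29a1.C0.H41.rep_nonneg 2 _ fun x => abs_nonneg _)

theorem varF_le19 [IsProbabilityMeasure μ] {c d : ℕ} {D : ℝ} {f : Fam N} (hf : Cls59 N c d D f) {y : ℕ} (hy : y ≤ N) :
    varF μ s N f y ≤ D ^ 2 := by
  have hne := ne_Pn hy
  have h1 : ∀ ω, gv (wm μ s N (Pn N y) ω) (f y ω) ≤ D ^ 2 := fun ω => (le_abs_self _).trans (abs_gv_le _ (hf.bdd y ω))
  have mg : Measurable fun ω => gv (wm μ s N (Pn N y) ω) (f y ω) := meas_gv (fun S => meas_wm S) fun S => hf.meas y S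
  have i1 : Integrable (fun ω => gv (wm μ s N (Pn N y) ω) (f y ω)) (Pm μ N) :=
    Integrable.of_bound mg.aestronglyMeasurable (D ^ 2) (ae_of_all _ fun ω => by
      rw [Real.norm_eq_abs]
      exact abs_gv_le _ (hf.bdd y ω))
  calc varF μ s N f y ≤ ∫ ω, D ^ 2 ∂(Pm μ N) := integral_mono i1 (integrable_const _) h1
    _ = D ^ 2 := by rw [integral_const, probReal_univ, one_smul]

/-- A row in one loss, at fixed numbers. -/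
theorem fin19 {ys : Finset ℕ} {E I2 mi I3 Iw : ℕ → ℝ} {x M ρ w p S Qr z e D T : ℝ} (hx : 112 ≤ x) (hM0 : 0 ≤ M) (hM : M ≤ x)
    (hρ0 : 0 ≤ ρ) (hρ : ρ ≤ x ^ 2 * w) (hw0 : 0 ≤ w) (hw1 : w ≤ 1) (hp0 : 0 ≤ p) (hp1 : p ≤ 1) (hS : 0 ≤ S) (hQ : 0 ≤ Qr)
    (hz : 0 ≤ z) (he : 0 ≤ e) (hD : 0 ≤ D) (hmi : ∀ y ∈ ys, 0 ≤ mi y) (h2 : avy ys I2 ≤ x * (S * (x * Qr + z) + e))
    (h3 : avy ys I3 ≤ x * (x * p * (S * (x * Qr + z)) + 2 * D * z + e) + 4 * D * z) (hI : ∀ y ∈ ys, Iw y ≤ z) (hT0 : 0 ≤ T)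
    (hT : T ≤ D * z) (h : ∀ y ∈ ys, E y ≤ (M ^ 3 * x ^ 2 * ρ * I2 y + M * x * Real.sqrt ρ * mi y) + M ^ 3 * (4 * x + 18) * I3 y +
      (M ^ 3 * (8 * x + 78) * D * Iw y + T)) :
    avy ys E ≤ x ^ 9 * ((w + p) * (S * Qr) + Real.sqrt w * avy ys mi) + x ^ 9 * (S * z + e + D * z) :=
  (avy_row19 hT0 h).trans (sum19 hx hM0 hM hρ0 hρ hw0 hw1 hp0 hp1 hS hQ hz he hD (avy_nonneg hmi) h2 h3
    ((avy_mono hI).trans (avy_c19 hz)) hT)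

theorem x19 {x a : ℝ} (hx : 112 ≤ x) (ha : 1 ≤ a) : 1 ≤ x * a ∧ a ≤ x * a ∧ 21 * (x * a) ≤ x ^ 2 * a := by
  have h1 : a ≤ x * a := le_mul_of_one_le_left (by linarith) (by linarith)
  refine ⟨ha.trans h1, h1, ?_⟩
  have e : x ^ 2 * a = x * (x * a) := by ring
  rw [e]
  exact mul_le_mul_of_nonneg_right (by linarith) (by linarith)

theorem sq19 {V D : ℝ} (hD : 0 ≤ D) (h : V ≤ D ^ 2) : Real.sqrt (2 * V) ≤ 2 * D := by
  rw [Real.sqrt_le_left (by linarith)]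
  have := sq_nonneg D
  have e : (2 * D) ^ 2 = 4 * D ^ 2 := by ring
  rw [e]
  linarith

theorem err19 {e0 K' z S D e x : ℝ} (hN2 : (2 : ℝ) ≤ N) (he01 : 9 * e0 ≤ 1) (hz0 : 0 ≤ z) (hx : x = (N : ℝ) ^ e0)
    (he : e = (N : ℝ) ^ (-(K' + 3))) (v5 : 4 * (N : ℝ) ^ (9 * e0 + 2 * K') * z ≤ 1) (hSD : S ≤ 2 * D)
    (hDN : 2 * D ≤ (N : ℝ) ^ K') : x ^ 9 * (S * z + e + D * z) ≤ (N : ℝ) ^ (-K') := by
  have hN1 : (1 : ℝ) ≤ N := by linarith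
  have hN0 : (0 : ℝ) < N := by linarith
  have a1 : S * z + D * z ≤ 3 / 2 * ((N : ℝ) ^ K' * z) := by
    have : (S + D) * z ≤ (3 / 2 * (N : ℝ) ^ K') * z := mul_le_mul_of_nonneg_right (by linarith) hz0
    linarith
  have a2 : x ^ 9 = (N : ℝ) ^ (9 * e0) := by
    rw [hx, ← Real.rpow_natCast, ← Real.rpow_mul hN0.le]
    congr 1
    push_cast
    ring
  have a3 : (N : ℝ) ^ (9 * e0 + 2 * K') = (N : ℝ) ^ (9 * e0) * (N : ℝ) ^ K' * (N : ℝ) ^ K' := by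
    rw [← Real.rpow_add hN0, ← Real.rpow_add hN0]
    congr 1
    ring
  have a4 : (N : ℝ) ^ (-K') * (N : ℝ) ^ K' = 1 := by
    rw [← Real.rpow_add hN0, neg_add_cancel, Real.rpow_zero]
  have a5 : 0 ≤ (N : ℝ) ^ (-K') := Real.rpow_nonneg hN0.le _
  have a6 : (N : ℝ) ^ (9 * e0) * ((N : ℝ) ^ K' * z) ≤ (N : ℝ) ^ (-K') / 4 := by
    rw [a3] at v5
    have b1 := mul_le_mul_of_nonneg_left v5 a5
    have b2 : (N : ℝ) ^ (-K') * (4 * ((N : ℝ) ^ (9 * e0) * (N : ℝ) ^ K' * (N : ℝ) ^ K') * z) =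
        4 * ((N : ℝ) ^ (9 * e0) * ((N : ℝ) ^ K' * z)) * ((N : ℝ) ^ (-K') * (N : ℝ) ^ K') := by ring
    rw [b2, a4, mul_one, mul_one] at b1
    linarith
  have a7 : (N : ℝ) ^ (9 * e0) * e ≤ (N : ℝ) ^ (-K') / 4 := by
    rw [he, ← Real.rpow_add hN0]
    have b1 : (N : ℝ) ^ (9 * e0 + -(K' + 3)) ≤ (N : ℝ) ^ (-K' + -2) := Real.rpow_le_rpow_of_exponent_le hN1 (by linarith)
    have b2 : (N : ℝ) ^ (-K' + -2) = (N : ℝ) ^ (-K') * (N : ℝ) ^ (-2 : ℝ) := Real.rpow_add hN0 _ _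
    have b3 : (N : ℝ) ^ (-2 : ℝ) ≤ 1 / 4 := by
      rw [Real.rpow_neg hN0.le]
      have : (N : ℝ) ^ (2 : ℝ) = (N : ℝ) ^ (2 : ℕ) := by exact_mod_cast Real.rpow_natCast (N : ℝ) 2
      rw [this, one_div]
      exact inv_anti₀ (by norm_num) (by nlinarith)
    rw [b2] at b1
    have b4 := mul_le_mul_of_nonneg_left b3 a5
    linarith
  rw [a2]
  have a8 : (N : ℝ) ^ (9 * e0) * (S * z + e + D * z) ≤ (N : ℝ) ^ (9 * e0) * (3 / 2 * ((N : ℝ) ^ K' * z) + e) :=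
    mul_le_mul_of_nonneg_left (by linarith) (Real.rpow_nonneg hN0.le _)
  have a9 : (N : ℝ) ^ (9 * e0) * (3 / 2 * ((N : ℝ) ^ K' * z) + e) =
      3 / 2 * ((N : ℝ) ^ (9 * e0) * ((N : ℝ) ^ K' * z)) + (N : ℝ) ^ (9 * e0) * e := by ring
  linarith

theorem chain19 {n B D z x Ks q : ℝ} (hM0 : 0 ≤ B / 2) (hMx : B / 2 ≤ x) (hD : 0 ≤ D) (hn : 0 ≤ n) (hq0 : 0 ≤ q) (hq : q ≤ n + 1)
    (v6 : 112 * x ^ 3 * (n + 1) * (n + 1) ^ 3 * Real.exp (4 * Ks - x / 2) ≤ z) :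
    112 * (B / 2) ^ 3 * D * (n + 1) * q ^ 3 * Real.exp (4 * Ks - x / 2) ≤ D * z := by
  have b1 : (B / 2) ^ 3 ≤ x ^ 3 := pow_le_pow_left₀ hM0 hMx 3
  have b2 : q ^ 3 ≤ (n + 1) ^ 3 := pow_le_pow_left₀ hq0 hq 3
  have hx0 : 0 ≤ x := hM0.trans hMx
  have b3 : 112 * (B / 2) ^ 3 * (n + 1) * q ^ 3 * Real.exp (4 * Ks - x / 2) ≤
      112 * x ^ 3 * (n + 1) * (n + 1) ^ 3 * Real.exp (4 * Ks - x / 2) := by
    refine mul_le_mul_of_nonneg_right ?_ (Real.exp_pos _).le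
    exact mul_le_mul (mul_le_mul_of_nonneg_right (mul_le_mul_of_nonneg_left b1 (by norm_num)) (by positivity)) b2
      (pow_nonneg hq0 3) (by positivity)
  have b4 := mul_le_mul_of_nonneg_left (b3.trans v6) hD
  calc 112 * (B / 2) ^ 3 * D * (n + 1) * q ^ 3 * Real.exp (4 * Ks - x / 2) =
      D * (112 * (B / 2) ^ 3 * (n + 1) * q ^ 3 * Real.exp (4 * Ks - x / 2)) := by ring
    _ ≤ D * z := b4

/-- The free replica out of the cone. -/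
theorem fr_cone19 [IsProbabilityMeasure μ] {δk B : ℝ} {b0 j cb d y : ℕ} {D : ℝ} {f : Fam N} [Nonempty (Px (Pn N y))] (hB : 0 ≤ B)
    (hf : Cls59 N cb d D f) (hD : 0 ≤ D) (m0 m1 : ℕ) (t : ℝ) {ow : Px (Pn N y) → ℝ} (h0 : ∀ S, 0 ≤ ow S) (h1 : ∀ S, ow S ≤ 1) :
    ∫ ω, rep 3 (wj μ s N (Pn N y) δk B b0 j ω t) (fr 2 (fun _ : Px (Pn N y) => ()) (fun (_ : Fin 2 → Unit) S => ow S)
      (XF m0 m1 (f y ω))) ∂(Pm μ N) ≤ 2 * D * ∫ ω, gm (wj μ s N (Pn N y) δk B b0 j ω t) ow ∂(Pm μ N) := by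
  have g1 : E1M82.Gd fun ω => rep 3 (wj μ s N (Pn N y) δk B b0 j ω t) (fr 2 (fun _ : Px (Pn N y) => ())
      (fun (_ : Fin 2 → Unit) S => ow S) (XF m0 m1 (f y ω))) :=
    Far34.gd_wj hB (fun A => Pool.W7d29a1.C0.E1A.obs_fr _ (fun _ => h0) (fun _ => h1) (Far34.obs_cls hf y m0 m1 A)) t
  have g5 : E1M82.Gd fun ω => gm (wj μ s N (Pn N y) δk B b0 j ω t) ow := by
    have h7 : E1M82.Gd fun ω => rep 1 (wj μ s N (Pn N y) δk B b0 j ω t) (fun x => ow (x 0)) :=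
      Far34.gd_wj hB (D := 1) (fun A => ⟨measurable_const, fun η x => by rw [abs_of_nonneg (h0 _)]; exact h1 _⟩) t
    simp only [Pool.W7d29a1.C0.E1A.rep_at] at h7
    exact h7
  rw [g1.av, g5.av, ← E1M82.AvA_mul]
  refine Far34.AvA_mono fun A => ?_
  rw [← integral_const_mul]
  refine integral_mono (g1.int A) ((g5.int A).const_mul _) fun η => ?_
  have k := Pool.W7d29a1.C0.rep_mono 3 (wj μ s N (Pn N y) δk B b0 j (η, A) t)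
    (Ψ := fr 2 (fun _ : Px (Pn N y) => ()) (fun (_ : Fin 2 → Unit) S => ow S) (XF m0 m1 (f y (η, A))))
    (Φ := fun x => 2 * D * ow (x 0)) fun x => by
      unfold fr
      exact mul_le_mul_of_nonneg_right ((Far34.obs_cls hf y m0 m1 A).bd η _) (h0 _)
  refine k.trans (le_of_eq ?_)
  have k2 := Pool.W7d29a1.C0.E1A.rep_at (wj μ s N (Pn N y) δk B b0 j (η, A) t) (fun S => 2 * D * ow S) 3 0
  rw [k2]
  exact Pool.W7d29a1.C0.gm_smul _ (2 * D) ow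

/-- The tubes: the terms of `e1_rowP` with the far replica `I3` and the own tube `Iw`. -/
theorem tube19 [IsProbabilityMeasure μ] {ff ff' : ℝ → ℝ} (hd : DenLaw μ ff ff') {Ks θ0 : ℝ} (hs : SG μ (sc ff ff') Ks θ0)
    (hθ0 : 0 < θ0) {ys : Finset ℕ} (hys : ∀ y ∈ ys, y ≤ N) {δk B : ℝ} {b0 b j l d cb : ℕ} {D : ℝ} {f : Fam N} (hB : 0 < B)
    (hf : Cls59 N cb d D f)
    (X : Slabs N d b0 b j (d - 6 * l) (d - 3 * l) (d - l) l (Ico (d - 4 * l) (d - 3 * l)) (Ico (d - 2 * l) (d - l)))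
    {x W Rt z : ℝ} (v1 : 112 ≤ x) (hl : 1 ≤ l) (hW : 1 ≤ W) (hRt : Rt = x * W) (hxw : x ^ 2 * (W / l) ≤ 1) (hn : 4 ≤ θ0 ^ 2 * (l : ℝ))
    (t : ℝ) {I : ℕ → ℝ} (hF : ∀ y ∈ ys, (∀ o : (Fin 2 → Fin (N + 1)) → Px (Pn N y) → ℝ, (∀ β S, 0 ≤ o β S) → (∀ β S, o β S ≤ 1) →
      (∀ β S, o β S ≤ Far34.i1 (OutB pm (sl μ s) Rt ((d - l : ℕ) : ℤ) (JZ (Ico (d - 4 * l) (d - 3 * l) ∪ Ico (d - 2 * l) (d - l))) β S)) →
      ∫ ω, rep 3 (wj μ s N (Pn N y) δk B b0 j ω t) (fr 2 (bx pm Rt ((d - l : ℕ) : ℤ) N) o (XF (d - 3 * l) (d - l) (f y ω))) ∂(Pm μ N) ≤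
        I y) ∧ ∀ ow : Px (Pn N y) → ℝ, (∀ S, 0 ≤ ow S) → (∀ S, ow S ≤ 1) →
      (∀ S, ow S ≤ Far34.i1 (¬ Str pm (sl μ s) Rt ((d - l : ℕ) : ℤ) (JZ (Ico (d - 4 * l) (d - 3 * l) ∪ Ico (d - 2 * l) (d - l))) S)) →
      ∫ ω, gm (wj μ s N (Pn N y) δk B b0 j ω t) ow ∂(Pm μ N) ≤ z) :
    ∃ I3 Iw : ℕ → ℝ, (∀ y ∈ ys, Iw y ≤ z) ∧ (∀ y ∈ ys, I3 y ≤ I y) ∧ ∀ y ∈ ys,
      |∑ z ∈ Ico (d - 2 * l) (d - l), (l : ℝ)⁻¹ * ∫ ω, e1X μ s N δk B b0 b j t y f z ω ∂(Pm μ N)| ≤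
        ((B / 2) ^ 3 * x ^ 2 * (21 * Rt / l) * (∫ ω, rep 2 (wj μ s N (Pn N y) δk B b0 j ω t) (XF (d - 6 * l) (d - l) (f y ω)) ∂(Pm μ N)) +
          B / 2 * x * Real.sqrt (21 * Rt / l) *
            mc19 μ s N δk B b0 b j t f (d - 3 * l) (d - l) (Ico (d - 4 * l) (d - 3 * l)) l y) +
        (B / 2) ^ 3 * (4 * x + 18) * I3 y + ((B / 2) ^ 3 * (8 * x + 78) * D * Iw y +
          112 * (B / 2) ^ 3 * D * (N + 1) * ((N : ℝ) + 1) ^ 3 * Real.exp (4 * Ks - x / 2)) := by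
  classical
  have hl0 : (0 : ℝ) < l := by exact_mod_cast hl
  have hx0 : 0 ≤ x := by linarith
  obtain ⟨r1, r2, r3⟩ := x19 v1 hW
  rw [← hRt] at r1 r2 r3
  have hk0 : d - l ≤ N := (Nat.sub_le _ _).trans X.c4
  have T2 := fun y : ℕ => Tb.mono (tb_far (Q := Pn N y) (N := N) (k := 2) (n := N) (k0 := d - l)
    (I := Ico (d - 4 * l) (d - 3 * l) ∪ Ico (d - 2 * l) (d - l)) (sl' := sl μ s) r1 hk0) (R' := 21 * Rt) (by push_cast; linarith)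
  have T3 := fun y : ℕ => Tb.mono (tb_far (Q := Pn N y) (N := N) (k := 3) (n := N) (k0 := d - l)
    (I := Ico (d - 4 * l) (d - 3 * l) ∪ Ico (d - 2 * l) (d - l)) (sl' := sl μ s) r1 hk0) (R' := 21 * Rt) (by push_cast; linarith)
  have hRl : 21 * Rt ≤ l := by
    rw [← mul_div_assoc, div_le_one hl0] at hxw
    exact r3.trans hxw
  have hnR : 4 ≤ θ0 ^ 2 * ((l : ℝ) * (21 * Rt)) := by
    have b1 : (l : ℝ) * 1 ≤ (l : ℝ) * (21 * Rt) := mul_le_mul_of_nonneg_left (by linarith) hl0.le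
    rw [mul_one] at b1
    exact hn.trans (mul_le_mul_of_nonneg_left b1 (sq_nonneg _))
  have hbz : ∀ y : ℕ, ∀ z ∈ Ico (d - 2 * l) (d - l), ∀ S S' : Px (Pn N y), pJ 0 z S = pJ 0 z S' →
      bx pm Rt ((d - l : ℕ) : ℤ) N S = bx pm Rt ((d - l : ℕ) : ℤ) N S' := fun y z hz S S' hS => by
    have e1 : ps S (d - l) = ps S' (d - l) := ps_of_ge hS (mem_Ico.1 hz).2.le
    have e2 : pm S ((d - l : ℕ) : ℤ) = pm S' ((d - l : ℕ) : ℤ) := by rw [pm_nat, pm_nat, e1]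
    unfold bx
    simp only [e2]
  refine ⟨fun y => ∫ ω, rep 3 (wj μ s N (Pn N y) δk B b0 j ω t) (fr 2 (bx pm Rt ((d - l : ℕ) : ℤ) N)
      (fun β S => if OutB pm (sl μ s) Rt ((d - l : ℕ) : ℤ) (JZ (Ico (d - 4 * l) (d - 3 * l) ∪ Ico (d - 2 * l) (d - l))) β S then 1
        else 0) (XF (d - 3 * l) (d - l) (f y ω))) ∂(Pm μ N),
    fun y => ∫ ω, gm (wj μ s N (Pn N y) δk B b0 j ω t) (fun S => if Str pm (sl μ s) Rt ((d - l : ℕ) : ℤ)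
      (JZ (Ico (d - 4 * l) (d - 3 * l) ∪ Ico (d - 2 * l) (d - l))) S then 0 else 1) ∂(Pm μ N), fun y hy => ?_, fun y hy => ?_,
    fun y hy => ?_⟩
  · exact (hF y hy).2 _ (T2 y).w0 (T2 y).w1 (fun S => by
      unfold Far34.i1
      by_cases h : Str pm (sl μ s) Rt ((d - l : ℕ) : ℤ) (JZ (Ico (d - 4 * l) (d - 3 * l) ∪ Ico (d - 2 * l) (d - l))) S
      · rw [if_pos h, if_neg (not_not.2 h)]
      · rw [if_neg h, if_pos h])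
  · exact (hF y hy).1 _ (T2 y).o0 (T2 y).o1 (fun β S => le_rfl)
  · have hne := ne_Pn (hys y hy)
    have k1 := e1_rowP (s := s) (δ := δk) hd hs hB hf X (T2 y) (T3 y) (hbz y) (by linarith) hRl hnR hθ0 hx0 t
    rw [Fintype.card_fin, Nat.cast_add, Nat.cast_one] at k1
    exact k1

/-- The cone: the same. -/
theorem cone19 [IsProbabilityMeasure μ] {ff ff' : ℝ → ℝ} (hd : DenLaw μ ff ff') {Ks θ0 : ℝ} (hs : SG μ (sc ff ff') Ks θ0)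
    (hθ0 : 0 < θ0) {ys : Finset ℕ} (hys : ∀ y ∈ ys, y ≤ N) {δk B : ℝ} {b0 b j l d cb : ℕ} {D : ℝ} {f : Fam N} (hB : 0 < B)
    (hf : Cls59 N cb d D f) (hD : 0 ≤ D)
    (X : Slabs N d b0 b j (d - 6 * l) (d - 3 * l) (d - l) l (Ico (d - 4 * l) (d - 3 * l)) (Ico (d - 2 * l) (d - l)))
    {x W Rc z : ℝ} (v1 : 112 ≤ x) (hl : 1 ≤ l) (hW : 1 ≤ W) (hRc : Rc = x * W) (hxw : x ^ 2 * (W / l) ≤ 1) (hn : 4 ≤ θ0 ^ 2 * (l : ℝ))
    (t : ℝ) (hF : ∀ y ∈ ys, ∀ ow : Px (Pn N y) → ℝ, (∀ S, 0 ≤ ow S) → (∀ S, ow S ≤ 1) →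
      (∀ S, ow S ≤ Far34.i1 (¬ Str pm (sl μ s) Rc ((0 : ℕ) : ℤ) (JZ (Ico (d - 4 * l) (d - 3 * l) ∪ Ico (d - 2 * l) (d - l))) S)) →
      ∫ ω, gm (wj μ s N (Pn N y) δk B b0 j ω t) ow ∂(Pm μ N) ≤ z) :
    ∃ I3 Iw : ℕ → ℝ, (∀ y ∈ ys, Iw y ≤ z) ∧ (∀ y ∈ ys, I3 y ≤ 2 * D * z) ∧ ∀ y ∈ ys,
      |∑ z ∈ Ico (d - 2 * l) (d - l), (l : ℝ)⁻¹ * ∫ ω, e1X μ s N δk B b0 b j t y f z ω ∂(Pm μ N)| ≤
        ((B / 2) ^ 3 * x ^ 2 * (3 * Rc / l) * (∫ ω, rep 2 (wj μ s N (Pn N y) δk B b0 j ω t) (XF (d - 6 * l) (d - l) (f y ω)) ∂(Pm μ N)) +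
          B / 2 * x * Real.sqrt (3 * Rc / l) *
            mc19 μ s N δk B b0 b j t f (d - 3 * l) (d - l) (Ico (d - 4 * l) (d - 3 * l)) l y) +
        (B / 2) ^ 3 * (4 * x + 18) * I3 y + ((B / 2) ^ 3 * (8 * x + 78) * D * Iw y +
          112 * (B / 2) ^ 3 * D * (N + 1) * (1 : ℝ) ^ 3 * Real.exp (4 * Ks - x / 2)) := by
  have hl0 : (0 : ℝ) < l := by exact_mod_cast hl
  have hx0 : 0 ≤ x := by linarith
  obtain ⟨r1, r2, r3⟩ := x19 v1 hW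
  rw [← hRc] at r1 r2 r3
  have T2 := fun y : ℕ => tb_cone (Q := Pn N y) (N := N) (k := 2) (σ := sl μ s)
    (I := Ico (d - 4 * l) (d - 3 * l) ∪ Ico (d - 2 * l) (d - l)) r1
  have T3 := fun y : ℕ => tb_cone (Q := Pn N y) (N := N) (k := 3) (σ := sl μ s)
    (I := Ico (d - 4 * l) (d - 3 * l) ∪ Ico (d - 2 * l) (d - l)) r1
  have hRl : 3 * Rc ≤ l := by
    rw [← mul_div_assoc, div_le_one hl0] at hxw
    linarith
  have hnR : 4 ≤ θ0 ^ 2 * ((l : ℝ) * (3 * Rc)) := by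
    have b1 : (l : ℝ) * 1 ≤ (l : ℝ) * (3 * Rc) := mul_le_mul_of_nonneg_left (by linarith) hl0.le
    rw [mul_one] at b1
    exact hn.trans (mul_le_mul_of_nonneg_left b1 (sq_nonneg _))
  have hIw : ∀ y ∈ ys, ∫ ω, gm (wj μ s N (Pn N y) δk B b0 j ω t) (fun S => Far34.i1 (¬ Str pm (sl μ s) Rc ((0 : ℕ) : ℤ)
      (JZ (Ico (d - 4 * l) (d - 3 * l) ∪ Ico (d - 2 * l) (d - l))) S)) ∂(Pm μ N) ≤ z := fun y hy =>
    hF y hy _ (T2 y).w0 (T2 y).w1 fun S => le_rfl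
  refine ⟨fun y => ∫ ω, rep 3 (wj μ s N (Pn N y) δk B b0 j ω t) (fr 2 (fun _ : Px (Pn N y) => ())
        (fun (_ : Fin 2 → Unit) S => Far34.i1 (¬ Str pm (sl μ s) Rc ((0 : ℕ) : ℤ)
          (JZ (Ico (d - 4 * l) (d - 3 * l) ∪ Ico (d - 2 * l) (d - l))) S)) (XF (d - 3 * l) (d - l) (f y ω))) ∂(Pm μ N),
    fun y => ∫ ω, gm (wj μ s N (Pn N y) δk B b0 j ω t) (fun S => Far34.i1 (¬ Str pm (sl μ s) Rc ((0 : ℕ) : ℤ)
      (JZ (Ico (d - 4 * l) (d - 3 * l) ∪ Ico (d - 2 * l) (d - l))) S)) ∂(Pm μ N), hIw, fun y hy => ?_, fun y hy => ?_⟩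
  · have hne := ne_Pn (hys y hy)
    exact (fr_cone19 hB.le hf hD (d - 3 * l) (d - l) t (T2 y).w0 (T2 y).w1).trans
      (mul_le_mul_of_nonneg_left (hIw y hy) (by linarith))
  · have hne := ne_Pn (hys y hy)
    have k1 := e1_rowP (s := s) (δ := δk) hd hs hB hf X (T2 y) (T3 y) (fun z hz S S' hS => rfl) (by linarith) hRl hnR hθ0 hx0 t
    rw [Fintype.card_unit, Nat.cast_one] at k1
    exact k1

theorem vv19 {x e0 Kw W : ℝ} {k : ℕ} (h : wd' μ s k ≤ Kw * W) (hN : 0 ≤ (N : ℝ)) (v2 : Kw * (N : ℝ) ^ (e0 / 2) ≤ x) (hW : 0 ≤ W) :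
    vv μ s N (e0 / 2) k ≤ x * W := by
  unfold vv
  calc (N : ℝ) ^ (e0 / 2) * wd' μ s k ≤ (N : ℝ) ^ (e0 / 2) * (Kw * W) := mul_le_mul_of_nonneg_left h (Real.rpow_nonneg hN _)
    _ = Kw * (N : ℝ) ^ (e0 / 2) * W := by ring
    _ ≤ x * W := mul_le_mul_of_nonneg_right v2 hW

end

end Pool.Agent.W_7d29a1_C0.E1T19
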