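import Pool.Agent.W_7d29a1_C0.E1S19

/-!
MP_7d29a1_pr, [CURV0], leaf E1 (helper19): (E1) OF ONE ROW AT THE COMMON MEASURE, in one loss: `rowB19`. The linearised field of the row is
paid by the no meeting of two replicas over the slab (`xf_wt34`, helper34), by the far replica (`farP34`, helper34) or, in the cone case,
by the paths out of the cone, and by the two micro terms of `e1_rowP` (helper82), which stay.
-/

set_option autoImplicit false
set_option linter.unusedSectionVars false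
set_option linter.unusedVariables false

namespace Pool.Agent.W_7d29a1_C0.E1T19

open Finset MeasureTheory Filter Topology Pool.Agent.W_7d29a1_F Pool.Agent.W_7d29a1_X Pool.Agent.W_7d29a1_H
open Pool.Agent.W_7d29a1_HS (In)
open Pool.Agent.W_7d29a1_HZ (wd' EE')
open Pool.Agent.W_7d29a1_C0.Mod92 Pool.Agent.W_7d29a1_C0
open Pool.W7d29a1.C0 (gz gm lse Mc gb81 gb81_apply rep DX avN)
open Pool.W7d29a1.C0.VT31 Pool.Agent.W_7d29a1_C0.H32 Pool.Agent.W_7d29a1_C0.Swap57 Pool.Agent.W_7d29a1_C0.NM82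
open Pool.W7d29a1.C0.E1A (fr XF Tb XF_nonneg)
open Pool.W7d29a1.C0.H27 (QI)
open Pool.Agent.W_7d29a1_C0.Q32
open Pool.W7d29a1.C0.T73 (pm JZ OutB bx Str chT tb_far mem_JZ pm_nat)
open Pool.Agent.W_7d29a1_C0.Far34 (vv xf_wt34 farP34 varF_nonneg34)
open Pool.Agent.W_7d29a1_C0.E1M82 (Slabs e1X nX nG e1_rowP)

noncomputable section

variable {μ : Measure ℝ} {s : ℝ} {N : ℕ} {Q : Finset (Finset ℕ)}

/-- **(E1) OF ONE ROW AT THE COMMON MEASURE.** -/
theorem rowB19 [IsProbabilityMeasure μ] {c₀ C₀ : ℝ} {n₀ : ℕ} (h : In μ s c₀ C₀ n₀)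
    (hQI : ∀ p : ℝ, 1 < p → ∃ C θ0 : ℝ, 0 ≤ C ∧ 0 < θ0 ∧ QI μ p C θ0) {ff ff' : ℝ → ℝ} (hd : DenLaw μ ff ff') {κ : ℝ}
    (hκ : 0 < κ) (hκ1 : κ ≤ 1) {ε K' : ℝ} (hε : 0 < ε) (hK' : 0 ≤ K') : ∃ δ' ε₁ : ℝ, 0 < δ' ∧ 0 < ε₁ ∧ ∃ N₀ : ℕ,
      ∀ N : ℕ, N₀ ≤ N → ∀ (ys : Finset ℕ), (∀ y ∈ ys, y ≤ N ∧ |(y : ℝ) - sl μ s * N| ≤ ((N : ℝ) ^ δ' * wd' μ s N)) →
      ∀ (δk B : ℝ) (b0 b j l d : ℕ), 0 < B → B ≤ (N : ℝ) ^ ε₁ → b0 ≤ b → (N : ℝ) ^ κ ≤ l → j + b + 7 * l ≤ d → 16 * l ≤ d → d ≤ N →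
      ∀ (cb : ℕ) (D : ℝ) (f : Fam N), Cls59 N cb d D f → 0 < D → 2 * D ≤ (N : ℝ) ^ K' → ∀ t ∈ Set.Icc (-1 : ℝ) 1, ∀ w p : ℝ,
      (w = wd' μ s (16 * l) / l ∧ p = (EE' μ s (16 * l))⁻¹ ∨ w = wd' μ s d / l ∧ p = 0) → (N : ℝ) ^ ε * w ≤ 1 →
      avy ys (fun y => |∑ z ∈ Ico (d - 2 * l) (d - l), (l : ℝ)⁻¹ * ∫ ω, e1X μ s N δk B b0 b j t y f z ω ∂(Pm μ N)|) ≤
        (N : ℝ) ^ ε * ((w + p) * (Real.sqrt (2 * avy ys (varF μ s N f)) * Real.sqrt ((EE' μ s l)⁻¹)) +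
          Real.sqrt w * avy ys (mc19 μ s N δk B b0 b j t f (d - 3 * l) (d - l) (Ico (d - 4 * l) (d - 3 * l)) l)) +
        (N : ℝ) ^ (-K') := by
  obtain ⟨Ks, θ0, hs⟩ := hd.sg
  have hθ0 : 0 < θ0 := hs.2.2.1
  obtain ⟨_, Kw, _, _, hKw, hw⟩ := Pool.Agent.W_7d29a1_HZ.Z96.wd_all96 h
  obtain ⟨e0, he0⟩ : ∃ e0 : ℝ, e0 = min ε 1 / 9 := ⟨_, rfl⟩
  have he00 : 0 < e0 := by rw [he0]; have := lt_min hε one_pos; linarith
  have he0ε : 9 * e0 ≤ ε := by rw [he0]; have := min_le_left ε 1; linarith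
  have he01 : 9 * e0 ≤ 1 := by rw [he0]; have := min_le_right ε 1; linarith
  have hK3 : 0 ≤ K' + 3 := by linarith
  obtain ⟨δa, εa, ca, hδa, hεa, hca, Na, hA⟩ := xf_wt34 h hQI hκ hκ1 he00 hK3
  obtain ⟨δb, εb, cb', hδb, hεb, hcb, Nb, hF⟩ := farP34 h hQI hκ hκ1 he00 hK3 (half_pos he00)
  obtain ⟨c', hc'⟩ : ∃ c' : ℝ, c' = min ca cb' := ⟨_, rfl⟩
  have hc'0 : 0 < c' := by rw [hc']; exact lt_min hca hcb
  obtain ⟨g, hg⟩ : ∃ g : ℝ, g = min (c' / 2) (e0 / 2) := ⟨_, rfl⟩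
  have hg0 : 0 < g := by rw [hg]; exact lt_min (by linarith) (by linarith)
  obtain ⟨Nc, hC⟩ := eventually_atTop.1 (ev19 (K' := K') he00 hκ hθ0 hc'0 Kw Ks)
  refine ⟨min δa δb, min (min εa εb) g, lt_min hδa hδb, lt_min (lt_min hεa hεb) hg0, max (max Na Nb) Nc, fun N hN ys hys δk B b0 b j l d
    hB hBN hb hl hjd h16 hdN cb D f hf hD hDN t ht w p hwp hw1 => ?_⟩
  obtain ⟨v0, v1, v2, v3, v4, v5, v6⟩ := hC N ((le_max_right _ _).trans hN)
  rw [← hg] at v4 v5 v6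
  have kA : Na ≤ N := (le_max_left _ _).trans ((le_max_left _ _).trans hN)
  have kB : Nb ≤ N := (le_max_right _ _).trans ((le_max_left _ _).trans hN)
  have hN2 : (2 : ℝ) ≤ N := by exact_mod_cast v0
  have hN1 : (1 : ℝ) ≤ N := by linarith
  have hN0 : (0 : ℝ) < N := by linarith
  obtain ⟨x, hx⟩ : ∃ x : ℝ, x = (N : ℝ) ^ e0 := ⟨_, rfl⟩
  rw [← hx] at v1 v2 v6
  have hx0 : 0 ≤ x := by linarith
  have cone : ∀ y ∈ ys, ∀ e, min δa δb ≤ e → |(y : ℝ) - sl μ s * N| ≤ ((N : ℝ) ^ e * wd' μ s N) := fun y hy e he =>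
    (hys y hy).2.trans (mul_le_mul_of_nonneg_right (Real.rpow_le_rpow_of_exponent_le hN1 he) (zero_le_one.trans (le_max_left _ _)))
  have hlR : 1 ≤ (l : ℝ) := (Real.one_le_rpow hN1 hκ.le).trans hl
  have hl1 : 1 ≤ l := by exact_mod_cast hlR
  have hl0 : (0 : ℝ) < l := by linarith
  -- exponentials
  obtain ⟨z, hz⟩ : ∃ z : ℝ, z = Real.exp (-(N : ℝ) ^ g) := ⟨_, rfl⟩
  rw [← hz] at v5 v6
  have hz0 : 0 ≤ z := by rw [hz]; exact (Real.exp_pos _).le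
  have hBg : B ≤ (N : ℝ) ^ g := hBN.trans (Real.rpow_le_rpow_of_exponent_le hN1 (min_le_right _ _))
  have hg1 : 0 ≤ (N : ℝ) ^ g := Real.rpow_nonneg hN0.le _
  have hca' : (N : ℝ) ^ c' ≤ (N : ℝ) ^ ca := Real.rpow_le_rpow_of_exponent_le hN1 (by rw [hc']; exact min_le_left _ _)
  have hcb' : (N : ℝ) ^ c' ≤ (N : ℝ) ^ cb' := Real.rpow_le_rpow_of_exponent_le hN1 (by rw [hc']; exact min_le_right _ _)
  have z1 : Real.exp (-(N : ℝ) ^ ca) ≤ z ^ 2 := by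
    rw [hz, ← Real.exp_nat_mul]
    refine Real.exp_le_exp.2 ?_
    push_cast
    linarith
  have z2 : Real.exp (-(N : ℝ) ^ cb') ≤ z := by
    rw [hz]
    exact Real.exp_le_exp.2 (by linarith)
  have z3 : Real.exp (2 * B - (N : ℝ) ^ cb') ≤ z := by
    rw [hz]
    exact Real.exp_le_exp.2 (by linarith)
  -- numbers of the slab
  have hMx : B / 2 ≤ x := by
    have h1 : (N : ℝ) ^ g ≤ x := by
      rw [hx, hg]
      exact Real.rpow_le_rpow_of_exponent_le hN1 ((min_le_right _ _).trans (by linarith))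
    linarith
  have hM0 : 0 ≤ B / 2 := by linarith
  have X : Slabs N d b0 b j (d - 6 * l) (d - 3 * l) (d - l) l (Ico (d - 4 * l) (d - 3 * l)) (Ico (d - 2 * l) (d - l)) := by
    refine ⟨hb, by omega, by omega, by omega, by omega, hdN, fun i hi => ?_, fun i hi => ?_, ?_, ?_, by omega⟩
    · rw [mem_Ico] at hi
      omega
    · rw [mem_Ico] at hi
      omega
    · rw [Nat.card_Ico]
      omega
    · rw [Nat.card_Ico]
      omega
  have hIm : ∀ i ∈ Ico (d - 4 * l) (d - 3 * l) ∪ Ico (d - 2 * l) (d - l), d - 4 * l ≤ i ∧ i < d - l := fun i hi => by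
    rw [mem_union, mem_Ico, mem_Ico] at hi
    omega
  have hl8 : (N : ℝ) ^ κ ≤ ((d - 7 * l : ℕ) : ℝ) := hl.trans (by exact_mod_cast (by omega : l ≤ d - 7 * l))
  have hD3 : 2 * D ≤ (N : ℝ) ^ (K' + 3) := hDN.trans (Real.rpow_le_rpow_of_exponent_le hN1 (by linarith))
  have hEm : ∀ k, l ≤ k → (EE' μ s k)⁻¹ ≤ (EE' μ s l)⁻¹ := fun k hk =>
    inv_anti₀ (lt_of_lt_of_le one_pos (le_max_left _ _)) (max_le_max le_rfl (EE_mono hk))
  have hEl0 : 0 ≤ (EE' μ s l)⁻¹ := inv_nonneg.2 (zero_le_one.trans (le_max_left _ _))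
  obtain ⟨S, hS⟩ : ∃ S : ℝ, S = Real.sqrt (2 * avy ys (varF μ s N f)) := ⟨_, rfl⟩
  obtain ⟨Qr, hQr⟩ : ∃ Qr : ℝ, Qr = Real.sqrt ((EE' μ s l)⁻¹) := ⟨_, rfl⟩
  obtain ⟨e, he⟩ : ∃ e : ℝ, e = (N : ℝ) ^ (-(K' + 3)) := ⟨_, rfl⟩
  have hS0 : 0 ≤ S := by rw [hS]; exact Real.sqrt_nonneg _
  have hQ0 : 0 ≤ Qr := by rw [hQr]; exact Real.sqrt_nonneg _
  have hee : 0 ≤ e := by rw [he]; exact Real.rpow_nonneg hN0.le _
  have price : ∀ k, l ≤ k → S * Real.sqrt ((N : ℝ) ^ e0 * (EE' μ s k)⁻¹ + Real.exp (-(N : ℝ) ^ ca)) ≤ S * (x * Qr + z) := fun k hk => by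
    refine mul_le_mul_of_nonneg_left ?_ hS0
    rw [hQr]
    refine (Real.sqrt_le_sqrt ?_).trans (root19 hx0 hEl0 hz0)
    refine add_le_add ?_ z1
    rw [← hx]
    exact mul_le_mul (le_self_pow₀ (by linarith) two_ne_zero) (hEm k hk) (inv_nonneg.2 (zero_le_one.trans (le_max_left _ _))) (by positivity)
  have hA1 := hA N kA ys (fun y hy => ⟨(hys y hy).1, cone y hy _ (min_le_left _ _)⟩) (d - 7 * l) l hl8 hl (by omega) δk B b0 j hB.le
    (hBN.trans (Real.rpow_le_rpow_of_exponent_le hN1 ((min_le_left _ _).trans (min_le_left _ _)))) (by omega) cb d D f hf (by omega) hD3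
  have h2 : avy ys (fun y => ∫ ω, rep 2 (wj μ s N (Pn N y) δk B b0 j ω t) (XF (d - 6 * l) (d - l) (f y ω)) ∂(Pm μ N)) ≤
      x * (S * (x * Qr + z) + e) := by
    have k1 := (hA1 (d - 6 * l) (5 * l) (by omega) (hl.trans (by exact_mod_cast (by omega : l ≤ 5 * l))) (by omega) t ht).2.2
    rw [show d - 6 * l + 5 * l = d - l by omega, ← hS, ← he] at k1
    refine k1.trans ?_
    rw [← hx]
    exact mul_le_mul_of_nonneg_left (add_le_add (by have := price (5 * l) (by omega); rwa [← hx] at this) le_rfl) hx0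
  have h2' : avy ys (fun y => ∫ ω, rep 2 (wm μ s N (Pn N y) ω) (XF (d - 3 * l) (d - l) (f y ω)) ∂(Pm μ N)) ≤ S * (x * Qr + z) := by
    have k1 := (hA1 (d - 3 * l) (2 * l) (by omega) (hl.trans (by exact_mod_cast (by omega : l ≤ 2 * l))) (by omega) t ht).2.1
    rw [show d - 3 * l + 2 * l = d - l by omega, ← hS] at k1
    exact k1.trans (price (2 * l) (by omega))
  have hw0 : 0 ≤ w := by
    have n1 : ∀ k, 0 ≤ wd' μ s k / l := fun k => div_nonneg (zero_le_one.trans (le_max_left _ _)) hl0.le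
    rcases hwp with ⟨h1, _⟩ | ⟨h1, _⟩ <;> rw [h1] <;> exact n1 _
  have hNε : x ^ 9 ≤ (N : ℝ) ^ ε := by
    rw [hx, ← Real.rpow_natCast, ← Real.rpow_mul hN0.le]
    exact Real.rpow_le_rpow_of_exponent_le hN1 (by push_cast; linarith)
  have hx91 : 1 ≤ x ^ 9 := one_le_pow₀ (by linarith)
  have hw11 : x ^ 9 * w ≤ 1 := (mul_le_mul_of_nonneg_right hNε hw0).trans hw1
  have hw1' : w ≤ 1 := (le_mul_of_one_le_left hw0 hx91).trans hw11
  have hx2w : x ^ 2 * w ≤ 1 := (mul_le_mul_of_nonneg_right (pow_le_pow_right₀ (by linarith) (by norm_num)) hw0).trans hw11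
  have hp0 : 0 ≤ p := by
    rcases hwp with ⟨_, h1⟩ | ⟨_, h1⟩ <;> rw [h1]
    exact inv_nonneg.2 (zero_le_one.trans (le_max_left _ _))
  have hp1 : p ≤ 1 := by
    rcases hwp with ⟨_, h1⟩ | ⟨_, h1⟩ <;> rw [h1]
    · exact inv_le_one_of_one_le₀ (le_max_left _ _)
    · exact zero_le_one
  -- the final error
  have hvar : avy ys (varF μ s N f) ≤ D ^ 2 := (avy_mono fun y hy => varF_le19 hf (hys y hy).1).trans (avy_c19 (sq_nonneg D))
  have hSD : S ≤ 2 * D := by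
    rw [hS]
    exact sq19 hD.le hvar
  have herr : x ^ 9 * (S * z + e + D * z) ≤ (N : ℝ) ^ (-K') := err19 hN2 he01 hz0 hx he v5 hSD hDN
  -- the error of the chaining
  have hT : ∀ q : ℝ, 0 ≤ q → q ≤ (N : ℝ) + 1 →
      112 * (B / 2) ^ 3 * D * (N + 1) * q ^ 3 * Real.exp (4 * Ks - x / 2) ≤ D * z := fun q hq0 hq =>
    chain19 hM0 hMx hD.le hN0.le hq0 hq v6
  have hmi : ∀ y ∈ ys, 0 ≤ mc19 μ s N δk B b0 b j t f (d - 3 * l) (d - l) (Ico (d - 4 * l) (d - 3 * l)) l y := fun y hy =>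
    mc19_nonneg (hys y hy).1
  have hnl : 4 ≤ θ0 ^ 2 * (l : ℝ) := v3.trans (mul_le_mul_of_nonneg_left hl (sq_nonneg _))
  have n2D : 0 ≤ 2 * D * z := by positivity
  have n4D : 0 ≤ 4 * D * z := by positivity
  have goal : avy ys (fun y => |∑ z ∈ Ico (d - 2 * l) (d - l), (l : ℝ)⁻¹ * ∫ ω, e1X μ s N δk B b0 b j t y f z ω ∂(Pm μ N)|) ≤
      x ^ 9 * ((w + p) * (S * Qr) +
        Real.sqrt w * avy ys (mc19 μ s N δk B b0 b j t f (d - 3 * l) (d - l) (Ico (d - 4 * l) (d - 3 * l)) l)) +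
      x ^ 9 * (S * z + e + D * z) := by
    rcases hwp with ⟨hwe, hpe⟩ | ⟨hwe, hpe⟩
    · -- tubes
      obtain ⟨Rt, hRt⟩ : ∃ Rt : ℝ, Rt = x * wd' μ s (16 * l) := ⟨_, rfl⟩
      have hW1 : 1 ≤ wd' μ s (16 * l) := le_max_left _ _
      obtain ⟨r1, r2, r3⟩ := x19 v1 hW1
      rw [← hRt] at r1 r2 r3
      have hvv : ∀ k, 1 ≤ k → k ≤ 3 * l → vv μ s N (e0 / 2) k ≤ Rt := fun k hk hkl => by
        rw [hRt]
        exact vv19 (hw k (16 * l) hk (by omega)).1 hN0.le v2 (zero_le_one.trans hW1)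
      have hF1 := fun (y : ℕ) (hy : y ∈ ys) => hF N kB y (hys y hy).1 (cone y hy _ (min_le_right _ _)) (d - 7 * l) l hl8 hl (by omega)
        δk B b0 j hB.le (hBN.trans (Real.rpow_le_rpow_of_exponent_le hN1 ((min_le_left _ _).trans (min_le_right _ _)))) (by omega)
        cb d D f hf (by omega) hD hD3 (16 * l) (d - 4 * l) (hl.trans (by exact_mod_cast (by omega : l ≤ 16 * l))) (by omega) (by omega)
        (d - 3 * l) (d - 3 * l) (d - l) (d - l) (3 * l) (Ico (d - 4 * l) (d - 3 * l) ∪ Ico (d - 2 * l) (d - l)) Rt le_rfl (by omega)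
        (fun m hm => by have := hIm m hm; omega) (by omega) (fun i hi => by have := hIm i hi; omega) r1 hvv r2 t ht
      clear hA hF
      rw [hwe] at hx2w
      obtain ⟨I3, Iw, a1, a2, a3⟩ := tube19 (z := z) (I := fun y => x * (x * p * (∫ ω, rep 2 (wm μ s N (Pn N y) ω)
          (XF (d - 3 * l) (d - l) (f y ω)) ∂(Pm μ N)) + 2 * D * z + e) + 4 * D * z) hd hs hθ0 (fun y hy => (hys y hy).1) hB hf X v1 hl1
        hW1 hRt hx2w hnl t (fun y hy => ⟨fun o o0 o1 ho => by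
          have k1 := (hF1 y hy).1 o o0 o1 ho
          rw [← hx, ← he, ← hpe] at k1
          exact k1.trans (add_le_add (mul_le_mul_of_nonneg_left (add_le_add (add_le_add le_rfl
            (mul_le_mul_of_nonneg_left z2 (by linarith only [hD]))) le_rfl) hx0) (mul_le_mul_of_nonneg_left z3 (by linarith only [hD]))),
          fun ow w0 w1 how => ((hF1 y hy).2 ow w0 w1 how).trans z3⟩)
      clear hF1
      refine fin19 (M := B / 2) (ρ := 21 * Rt / l) v1 hM0 hMx (by positivity) ?_ hw0 hw1' hp0 hp1 hS0 hQ0 hz0 hee hD.le hmi h2 ?_ a1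
        (by positivity) (hT ((N : ℝ) + 1) (by positivity) le_rfl) a3
      · rw [hwe, ← mul_div_assoc]
        exact div_le_div_of_nonneg_right r3 hl0.le
      · refine (avy_mono a2).trans ?_
        have e1 : avy ys (fun y => x * (x * p * (∫ ω, rep 2 (wm μ s N (Pn N y) ω) (XF (d - 3 * l) (d - l) (f y ω)) ∂(Pm μ N)) +
            2 * D * z + e) + 4 * D * z) = x * (x * p * avy ys (fun y => ∫ ω, rep 2 (wm μ s N (Pn N y) ω)
            (XF (d - 3 * l) (d - l) (f y ω)) ∂(Pm μ N)) + avy ys (fun _ => 2 * D * z) + avy ys (fun _ => e)) +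
            avy ys (fun _ => 4 * D * z) := by
          rw [avy_add, avy_mul, avy_add, avy_add, avy_mul]
        rw [e1]
        refine add_le_add (mul_le_mul_of_nonneg_left (add_le_add (add_le_add ?_ (avy_c19 n2D)) (avy_c19 hee)) hx0) (avy_c19 n4D)
        exact mul_le_mul_of_nonneg_left h2' (mul_nonneg hx0 hp0)
    · -- the cone
      obtain ⟨Rc, hRc⟩ : ∃ Rc : ℝ, Rc = x * wd' μ s d := ⟨_, rfl⟩
      have hW1 : 1 ≤ wd' μ s d := le_max_left _ _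
      obtain ⟨r1, r2, r3⟩ := x19 v1 hW1
      rw [← hRc] at r1 r2 r3
      have hvv : ∀ k, 1 ≤ k → k ≤ d → vv μ s N (e0 / 2) k ≤ Rc := fun k hk hkl => by
        rw [hRc]
        exact vv19 (hw k d hk hkl).1 hN0.le v2 (zero_le_one.trans hW1)
      have hRcw : wd' μ s (16 * l) ≤ Rc := by
        have k2 : Kw ≤ x := by
          have k3 : 1 ≤ (N : ℝ) ^ (e0 / 2) := Real.one_le_rpow hN1 (half_pos he00).le
          have k4 : Kw ≤ Kw * (N : ℝ) ^ (e0 / 2) := le_mul_of_one_le_right (zero_le_one.trans hKw) k3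
          exact k4.trans v2
        rw [hRc]
        exact (hw (16 * l) d (by omega) (by omega)).1.trans (mul_le_mul_of_nonneg_right k2 (zero_le_one.trans hW1))
      have hF1 := fun (y : ℕ) (hy : y ∈ ys) => hF N kB y (hys y hy).1 (cone y hy _ (min_le_right _ _)) (d - 7 * l) l hl8 hl (by omega)
        δk B b0 j hB.le (hBN.trans (Real.rpow_le_rpow_of_exponent_le hN1 ((min_le_left _ _).trans (min_le_right _ _)))) (by omega)
        cb d D f hf (by omega) hD hD3 (16 * l) (d - 4 * l) (hl.trans (by exact_mod_cast (by omega : l ≤ 16 * l))) (by omega) (by omega)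
        (d - 3 * l) (d - 3 * l) (d - l) 0 d (Ico (d - 4 * l) (d - 3 * l) ∪ Ico (d - 2 * l) (d - l)) Rc le_rfl (by omega)
        (fun m hm => by have := hIm m hm; omega) (by omega) (fun i hi => by have := hIm i hi; omega) r1 hvv hRcw t ht
      clear hA hF
      rw [hwe] at hx2w
      obtain ⟨I3, Iw, a1, a2, a3⟩ := cone19 (z := z) hd hs hθ0 (fun y hy => (hys y hy).1) hB hf hD.le X v1 hl1 hW1 hRc hx2w hnl t
        (fun y hy ow w0 w1 how => ((hF1 y hy).2 ow w0 w1 how).trans z3)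
      clear hF1
      refine fin19 (M := B / 2) (ρ := 3 * Rc / l) v1 hM0 hMx (by positivity) ?_ hw0 hw1' hp0 hp1 hS0 hQ0 hz0 hee hD.le hmi h2 ?_ a1
        (by positivity) (hT 1 zero_le_one (by linarith only [hN0])) a3
      · rw [hwe, ← mul_div_assoc]
        refine div_le_div_of_nonneg_right ?_ hl0.le
        linarith only [r1, r3]
      · refine (avy_mono a2).trans ((avy_c19 n2D).trans ?_)
        have n2 : 0 ≤ x * (x * p * (S * (x * Qr + z)) + 2 * D * z + e) := by positivity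
        linarith only [n2, n4D, n2D]
  refine goal.trans (add_le_add ?_ herr)
  rw [← hS, ← hQr]
  exact mul_le_mul_of_nonneg_right hNε (add_nonneg (mul_nonneg (add_nonneg hw0 hp0) (mul_nonneg hS0 hQ0))
    (mul_nonneg (Real.sqrt_nonneg _) (avy_nonneg hmi)))

end

end Pool.Agent.W_7d29a1_C0.E1T19
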