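import Pool.Agent.W_7d29a1_C0.E2W43

/-!
MP_7d29a1_pr, [CURV0] (helper43), section E2: THE SMALL NUMBERS OF (E2) AT THE CONCRETE FRAME: the tails of the box steps, the errors of the
corner and of the far lines against `n ^ 60`, `n = 2 ^ m`.
-/

set_option autoImplicit false

namespace Pool.Agent.W_7d29a1_C0.E2Z43

open Finset MeasureTheory Filter Topology
open Pool.Agent.W_7d29a1_C0 Pool.Agent.W_7d29a1_C0.Asm96 Pool.Agent.W_7d29a1_C0.EstC46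
open Pool.Agent.W_7d29a1_C0.Frm33 Pool.Agent.W_7d29a1_C0.E2K43
open Pool.Agent.W_7d29a1_C0.EvT50 (ev_pw50 ev_exp50)
open Pool.Agent.W_7d29a1_C0.Par92 (Est Sml)

noncomputable section

/-- `(N + 1) ^ k ≤ N ^ (2 k)`. -/
theorem succ_pow43 {N : ℕ} (hN : 2 ≤ N) (k : ℕ) : ((N + 1 : ℕ) : ℝ) ^ k ≤ (N : ℝ) ^ (2 * (k : ℝ)) := by
  have h2 : (2 : ℝ) ≤ N := by exact_mod_cast hN
  have h1 : ((N + 1 : ℕ) : ℝ) ≤ (N : ℝ) ^ 2 := by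
    push_cast
    nlinarith
  calc ((N + 1 : ℕ) : ℝ) ^ k ≤ ((N : ℝ) ^ 2) ^ k := pow_le_pow_left₀ (by positivity) h1 k
    _ = (N : ℝ) ^ (2 * (k : ℝ)) := by
        rw [← pow_mul, ← Real.rpow_natCast]
        push_cast
        rfl

/-- **THE TAILS OF THE BOX STEPS.** -/
theorem tail43 {K : ℕ} (hK : 1 ≤ K) (Kg : ℝ) (k : ℕ) {a : ℝ} (ha : 0 < a) : Est fun ι _ _ m => (((L33 K m + 1 : ℕ) : ℝ)) ^ k *
    Real.exp (4 * Kg - a * ((2 ^ m : ℕ) : ℝ) ^ ι) ≤ ((L33 K m : ℕ) : ℝ) ^ (-8 : ℝ) := by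
  have hK0 : (0 : ℝ) < K := by exact_mod_cast hK
  refine ⟨1, one_pos, fun ι hι _ => Sml.of fun _ _ => Sml.of fun _ _ => ?_⟩
  obtain ⟨N₁, hN₁⟩ := eventually_atTop.1 (ev_exp50 (Real.exp (4 * Kg)) (2 * (k : ℝ) + 8) ha (show 0 < ι / K by positivity))
  filter_upwards [ev_L hK (max N₁ 2)] with m hm
  have h1 := hN₁ (L33 K m) ((le_max_left _ _).trans hm)
  have h2 := succ_pow43 ((le_max_right _ _).trans hm) k
  have hL : (2 : ℝ) ≤ ((L33 K m : ℕ) : ℝ) := by exact_mod_cast (le_max_right _ _).trans hm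
  rw [L_pow43 hK] at h1
  have e1 : Real.exp (4 * Kg - a * ((2 ^ m : ℕ) : ℝ) ^ ι) = Real.exp (4 * Kg) * Real.exp (-(a * ((2 ^ m : ℕ) : ℝ) ^ ι)) := by
    rw [← Real.exp_add]
    congr 1
  rw [e1]
  calc (((L33 K m + 1 : ℕ) : ℝ)) ^ k * (Real.exp (4 * Kg) * Real.exp (-(a * ((2 ^ m : ℕ) : ℝ) ^ ι))) ≤
        ((L33 K m : ℕ) : ℝ) ^ (2 * (k : ℝ)) * ((L33 K m : ℕ) : ℝ) ^ (-(2 * (k : ℝ) + 8)) :=
        mul_le_mul h2 h1 (by positivity) (by positivity)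
    _ = ((L33 K m : ℕ) : ℝ) ^ (-8 : ℝ) := by
        rw [← Real.rpow_add (by linarith)]
        congr 1
        ring

/-- **THE ERRORS OF THE CORNER**: `L ^ (-2)` is smaller than `n ^ (-60) / 16`. -/
theorem err43 {K : ℕ} (hK : 32 ≤ K) : ∀ᶠ m : ℕ in atTop, ((2 ^ m : ℕ) : ℝ) ^ (60 : ℕ) * ((L33 K m : ℕ) : ℝ) ^ (-2 : ℝ) ≤ 1 / 16 := by
  filter_upwards [pow_ev96 (show (0 : ℝ) < 4 by norm_num) 16] with m hm
  obtain ⟨n, hn⟩ : ∃ n : ℝ, n = ((2 ^ m : ℕ) : ℝ) := ⟨_, rfl⟩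
  have hn1 : 1 ≤ n := hn ▸ n_ge1 m
  have hn0 : 0 < n := by linarith
  rw [L33_pow, ← hn]
  rw [← hn] at hm
  have h1 : n ^ ((K : ℝ) * (-2 : ℝ)) ≤ n ^ (-64 : ℝ) := by
    refine Real.rpow_le_rpow_of_exponent_le hn1 ?_
    have : (32 : ℝ) ≤ K := by exact_mod_cast hK
    linarith
  calc n ^ (60 : ℕ) * n ^ ((K : ℝ) * (-2 : ℝ)) ≤ n ^ (60 : ℕ) * n ^ (-64 : ℝ) := mul_le_mul_of_nonneg_left h1 (by positivity)
    _ = n ^ (-4 : ℝ) := by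
        rw [← Real.rpow_natCast, ← Real.rpow_add hn0]
        norm_num
    _ = (n ^ (4 : ℝ))⁻¹ := Real.rpow_neg hn0.le _
    _ ≤ 1 / 16 := by
        rw [one_div]
        exact inv_anti₀ (by norm_num) hm

/-- The same for an error with a factor. -/
theorem err43_of {n L e A : ℝ} {q : ℕ} (hn1 : 1 ≤ n) (hq : (2 : ℝ) ^ q ≤ n) (hA0 : 0 ≤ A) (hA : A ≤ n ^ (50 : ℕ)) (he0 : 0 ≤ e) (he : e ≤ L)
    (h : n ^ (60 : ℕ) * L ≤ 1 / 16) : 2 ^ q * (A * e) ≤ 1 / 16 := by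
  have hL : 0 ≤ L := he0.trans he
  calc 2 ^ q * (A * e) ≤ n * (n ^ (50 : ℕ) * L) :=
        mul_le_mul hq (mul_le_mul hA he he0 (by positivity)) (by positivity) (by linarith)
    _ = n ^ (51 : ℕ) * L := by ring
    _ ≤ n ^ (60 : ℕ) * L := mul_le_mul_of_nonneg_right (pow_le_pow_right₀ hn1 (by norm_num)) hL
    _ ≤ _ := h

end

end Pool.Agent.W_7d29a1_C0.E2Z43
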