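import Pool.Agent.W_7d29a1_C0.E2J43
import Pool.Agent.W_7d29a1_C0.E2Z43
import Pool.Agent.W_7d29a1_C0.Far19C

/-!
MP_7d29a1_pr, [CURV0] (helper43), section E2: PART R AT THE CONCRETE FRAME. `rs43`: the slabs of `E2R59` in the geometry `G43`; `tbN43`,
`tbM43`: the near tubes (key row `j + b / 2`) and the macro tubes (key row `d - 2 gl`) of three replicas, width `rW43`.
-/

set_option autoImplicit false
set_option linter.unusedSectionVars false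
set_option linter.unusedVariables false

namespace Pool.Agent.W_7d29a1_C0.E2A43

open Finset MeasureTheory Filter Topology
open Pool.Agent.W_7d29a1_F Pool.Agent.W_7d29a1_X
open Pool.Agent.W_7d29a1_H (sl EE)
open Pool.Agent.W_7d29a1_C0 Pool.Agent.W_7d29a1_C0.Mod92 Pool.Agent.W_7d29a1_C0.Swap57 Pool.Agent.W_7d29a1_C0.NM82
open Pool.Agent.W_7d29a1_C0.Asm96 Pool.Agent.W_7d29a1_C0.EstC46 Pool.Agent.W_7d29a1_C0.Frm33
open Pool.Agent.W_7d29a1_C0.E2T96 Pool.Agent.W_7d29a1_C0.E2D96 Pool.Agent.W_7d29a1_C0.E2D43 Pool.Agent.W_7d29a1_C0.E2G43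
open Pool.Agent.W_7d29a1_C0.E2J43 Pool.Agent.W_7d29a1_C0.E2K43 Pool.Agent.W_7d29a1_C0.E2W43 Pool.Agent.W_7d29a1_C0.E2Z43
open Pool.Agent.W_7d29a1_C0.E2R59 (RS59)
open Pool.W7d29a1.C0 Pool.W7d29a1.C0.T73
open Pool.W7d29a1.C0.E1A (Tb)

noncomputable section

/-! ### The slabs -/

section Geo

variable {N b0 b σ gl d j : ℕ}

/-- **The slabs of part R.** -/
theorem rs43 (X : G43 N b0 b σ gl d j) : RS59 N b0 (b / 2) b σ j (d - gl) d (j + b / 8) (j + b / 4) (nR1 b j) (nR2 b j) (mc4 gl d) := by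
  obtain ⟨h1, h2, h3, h4, h5⟩ := X.b8
  have g0 := X.rng
  have g1 := X.bp
  have g2 := X.glp
  refine ⟨X.geo, by omega, fun r hr => ?_, fun r hr => ?_, fun r hr => ?_, by omega, by omega, ?_, ?_, ?_⟩
  · exact mem_Ioc.1 hr
  · have := mem_Ioc.1 hr
    omega
  · have := mem_Ioc.1 hr
    omega
  · exact nonempty_Ioc.2 (by omega)
  · exact nonempty_Ioc.2 (by omega)
  · exact nonempty_Ioc.2 (by omega)

theorem card_nR1 (X : G43 N b0 b σ gl d j) : (nR1 b j).card = b / 8 := by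
  obtain ⟨h1, h2, h3, h4, h5⟩ := X.b8
  unfold nR1
  rw [Nat.card_Ioc]
  omega

theorem card_nR2 (X : G43 N b0 b σ gl d j) : (nR2 b j).card = b / 8 := by
  obtain ⟨h1, h2, h3, h4, h5⟩ := X.b8
  unfold nR2
  rw [Nat.card_Ioc]
  omega

theorem card_mc4 (X : G43 N b0 b σ gl d j) : (mc4 gl d).card = gl := by
  have g0 := X.rng
  unfold mc4
  rw [Nat.card_Ioc]
  omega

end Geo

/-! ### The tubes -/

section Tubes

variable {μ : Measure ℝ} {s : ℝ} {N y : ℕ}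

/-- The boxes: the position at the row `k0`, in units of `R`. -/
def bx43 (N y : ℕ) (R : ℝ) (k0 : ℕ) : Px (Pn N y) → Fin (N + 1) := bx (pm (Q := Pn N y)) R ((k0 : ℕ) : ℤ) N

/-- The tubes of the boxes of three replicas. -/
def ch43 (μ : Measure ℝ) (s : ℝ) (N : ℕ) (R : ℝ) (k0 : ℕ) (β : Fin 3 → Fin (N + 1)) : Pt → ℝ := chT (sl μ s) R ((k0 : ℕ) : ℤ) β

open Classical in
/-- Out of the tubes over the rows `I`. -/
def o43 (μ : Measure ℝ) (s : ℝ) (N y : ℕ) (R : ℝ) (k0 : ℕ) (I : Finset ℕ) (β : Fin 3 → Fin (N + 1)) (S : Px (Pn N y)) : ℝ :=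
  if OutB pm (sl μ s) R ((k0 : ℕ) : ℤ) (JZ I) β S then 1 else 0

open Classical in
/-- Not straight over the rows `I`. -/
def ow43 (μ : Measure ℝ) (s : ℝ) (N y : ℕ) (R : ℝ) (k0 : ℕ) (I : Finset ℕ) (S : Px (Pn N y)) : ℝ :=
  if Str pm (sl μ s) R ((k0 : ℕ) : ℤ) (JZ I) S then 0 else 1

/-- **The tubes are an instance of `Tb`**, at most `21 R` sites in every row. -/
theorem tb43 {R : ℝ} (hR : 1 ≤ R) {k0 : ℕ} (hk : k0 ≤ N) (I : Finset ℕ) :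
    Tb N 3 (bx43 N y R k0) I (ch43 μ s N R k0) (o43 μ s N y R k0 I) (ow43 μ s N y R k0 I) (21 * R) := by
  have h := tb_far (N := N) (k := 3) (I := I) (Q := Pn N y) (sl' := sl μ s) hR hk
  have e : 7 * ((3 : ℕ) : ℝ) * R = 21 * R := by
    push_cast
    ring
  rw [e] at h
  exact h

/-- The boxes are told by what is behind a row in front of their key row. -/
theorem bx_of43 {R : ℝ} {k0 m : ℕ} (hm : m ≤ k0) {S S' : Px (Pn N y)} (h : pJ 0 m S = pJ 0 m S') :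
    bx43 N y R k0 S = bx43 N y R k0 S' := by
  have h1 : pm S ((k0 : ℕ) : ℤ) = pm S' ((k0 : ℕ) : ℤ) := by
    rw [pm_nat, pm_nat]
    exact ps_of_ge h hm
  unfold bx43 bx
  rw [Fin.mk.injEq, h1]

end Tubes

/-! ### The data of the rows at the frame -/

section Frame

variable {μ : Measure ℝ} {s : ℝ} [IsProbabilityMeasure μ] {K : ℕ} {δ ι β γ : ℝ} {m p : ℕ} {εM κ M e : ℝ} {q : ℕ}

/-- **THE DATA OF A ROW OF PART R AT THE FRAME.** -/
theorem dr43 (hK : 1 ≤ K) (C : Cst43 μ s K δ ι β γ m εM κ M e q) (hp : δ * m ≤ p) {σ gl c d j y l : ℕ}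
    (X : G43 (L33 K m) (2 ^ (p - ⌈ι * (m : ℝ)⌉₊)) (2 ^ p) σ gl d j) {t : ℝ} (ht : t ∈ Set.Icc (-1 : ℝ) 1)
    (hl : 3 * q * (l + 1) ≤ 2 ^ (p - ⌈ι * (m : ℝ)⌉₊)) {D : ℝ} {f : Fam (L33 K m)} (hf : Cls59 (L33 K m) c d D f)
    (hD : D ≤ ((2 ^ m : ℕ) : ℝ) ^ 3) (hy : y ∈ ys33 μ s K m) (hyL : y ≤ L33 K m) :
    Dr96 μ s (L33 K m) y γ (B33 β m) (2 ^ (p - ⌈ι * (m : ℝ)⌉₊)) (2 ^ p) σ gl c d j t (ι / K) εM 8 M D l q f := by
  obtain ⟨h1, h2, h3, h4, h5⟩ := X.b8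
  have g0 := X.rng
  have hL : ((2 ^ m : ℕ) : ℝ) ≤ ((L33 K m : ℕ) : ℝ) := by exact_mod_cast L33_ge hK m
  refine ⟨X, C.rw p hp y hy j (by omega) t (abs_le.2 ht) _ _ le_rfl h5 (by omega), C.Me, C.q1, C.q2, hl, hf, hD.trans ?_, hyL⟩
  exact pow_le_pow_left₀ (by positivity) hL 3

end Frame

end

end Pool.Agent.W_7d29a1_C0.E2A43
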