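import Pool.Agent.W_7d29a1_C0.E2AP43

/-!
MP_7d29a1_pr, [CURV0] (helper43), section E2: THE END OF (E2). `PhL43`: the functional of part L; `PtL43`: the list of part L for all blocks
and all spectators (at most `54` terms); `e2N43`: `E2DecN` at the concrete frame from the two parts; `e2Sml43`: the field `e2` of the last
composition.
-/

set_option autoImplicit false
set_option linter.unusedSectionVars false
set_option linter.unusedVariables false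

namespace Pool.Agent.W_7d29a1_C0.E2AE43

open Finset MeasureTheory Filter Topology
open Pool.Agent.W_7d29a1_F Pool.Agent.W_7d29a1_X
open Pool.Agent.W_7d29a1_H (sl EE)
open Pool.Agent.W_7d29a1_HS (In wd)
open Pool.Agent.W_7d29a1_C0 Pool.Agent.W_7d29a1_C0.Mod92 Pool.Agent.W_7d29a1_C0.Swap57 Pool.Agent.W_7d29a1_C0.NM82
open Pool.Agent.W_7d29a1_C0.Asm96 Pool.Agent.W_7d29a1_C0.EstC46 Pool.Agent.W_7d29a1_C0.Frm33
open Pool.Agent.W_7d29a1_C0.H32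
open Pool.Agent.W_7d29a1_C0.EstD44 (Bl44)
open Pool.Agent.W_7d29a1_C0.CrA44
open Pool.Agent.W_7d29a1_C0.E2G43 Pool.Agent.W_7d29a1_C0.E2K43
open Pool.Agent.W_7d29a1_C0.E2D43 Pool.Agent.W_7d29a1_C0.E2AS43 Pool.Agent.W_7d29a1_C0.E2AP43
open Pool.Agent.W_7d29a1_C0.E1M82 (AvA)
open Pool.Agent.W_7d29a1_C0.E2Q59 (vR vL fE2_av59)
open Pool.Agent.W_7d29a1_C0.E2T96 (E2DecN)
open Pool.Agent.W_7d29a1_C0.Par92 (Est Sml)
open Pool.W7d29a1.C0 Pool.W7d29a1.C0.VT31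

noncomputable section

open Classical in
/-- **The functional of part L.** -/
def PhL43 (μ : Measure ℝ) (s : ℝ) (N : ℕ) (γ B : ℝ) (b0 b σ gl d : ℕ) (f : Fam N) (t : ℝ) (j y : ℕ) : ℝ :=
  if h : Nonempty (Px (Pn N y)) then |AvA N fun A => ∫ η, vL μ s N γ B b0 (b / 2) b σ j (d - gl) d f t y (η, A) ∂(law μ)| else 0

theorem PhL43_eq {μ : Measure ℝ} {s : ℝ} {N : ℕ} {γ B : ℝ} {b0 b σ gl d : ℕ} {f : Fam N} {t : ℝ} {j y : ℕ}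
    [h : Nonempty (Px (Pn N y))] :
    PhL43 μ s N γ B b0 b σ gl d f t j y = |AvA N fun A => ∫ η, vL μ s N γ B b0 (b / 2) b σ j (d - gl) d f t y (η, A) ∂(law μ)| :=
  dif_pos h

/-- **THE LIST OF PART L** at one length. -/
def PtL43 (μ : Measure ℝ) (s : ℝ) (K : ℕ) (Θ δ c ι β γ : ℝ) (m : ℕ) : Prop :=
  Bl44 (frm33 μ s K ι β γ) (EE μ s) δ c m fun p q i f => ∀ t ∈ Set.Icc (-1 : ℝ) 1, ∃ (k : ℕ) (eE : ℝ), k ≤ 54 ∧ 0 ≤ eE ∧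
    2 ^ q * eE ≤ 1 / 16 ∧ Dec43 μ s (L33 K m) (ys33 μ s K m) (Rw (R33 ι m) (i * 2 ^ q) ((i + 1) * 2 ^ q)) (2 ^ q)
      (((2 ^ m : ℕ) : ℝ) ^ (Θ - 2 * (c / 4))) f (PhL43 μ s (L33 K m) γ (B33 β m) (2 ^ (p - ⌈ι * (m : ℝ)⌉₊)) (2 ^ p)
        (2 ^ sg96 (EE μ s) c m p) (gl46 ι m q) ((i + 1) * 2 ^ q) f t) k eE

variable {μ : Measure ℝ} [IsProbabilityMeasure μ] {s : ℝ}

/-- **(E2) IN TWO PARTS**: the modulus of the double insertion is at most the sum of the two functionals. -/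
theorem fE2_le43 {N c d : ℕ} {D γ B : ℝ} {b0 b σ gl j : ℕ} (hB : 0 ≤ B) (X : G43 N b0 b σ gl d j) {f : Fam N} (hf : Cls59 N c d D f)
    {y : ℕ} (hy : y ≤ N) (t : ℝ) : |fE2 μ s N γ B b0 b σ f t y j| ≤
      PhR43 μ s N γ B b0 b σ gl d f t j y + PhL43 μ s N γ B b0 b σ gl d f t j y := by
  have := ne_Pn hy
  rw [PhR43_eq, PhL43_eq, fE2_av59 hB X.geo hf t]
  exact abs_add_le _ _

/-- **`E2DecN` AT THE CONCRETE FRAME FROM THE TWO PARTS.** -/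
theorem e2N43 {c₁ C₁ : ℝ} {n₀ : ℕ} (h : In μ s c₁ C₁ n₀) {ff ff' : ℝ → ℝ} (hd : DenLaw μ ff ff') (hk : KapLe96 (EE μ s) (1 / 4))
    {K : ℕ} (hK : 32 ≤ K) {Θ c₀ : ℝ} (hΘ : 0 < Θ) (hR : RegP46 μ s c₀ Θ) {δ c : ℝ} (hδ : 0 < δ) (hc : 0 < c) (hcδ : c ≤ δ / 64)
    (hcΘ : c ≤ Θ / 8)
    (hT : Est fun ι β γ m => ∃ (εM κ M e : ℝ) (k : ℕ), Cst43 μ s K δ ι β γ m εM κ M e k ∧ TDS43 μ s K Θ δ c ι m M)
    (hL : Est fun ι β γ m => PtL43 μ s K Θ δ c ι β γ m) :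
    Est fun ι β γ m => E2DecN μ s (frm33 μ s K ι β γ) (EE μ s) Θ δ c (c / 4) m := by
  refine (((partR43 h hd hk hK hΘ hR hδ hc hcδ hcΘ hT).and hL).and (g43_est (K := K) h hk (by omega) hΘ hδ hc hcδ hR)).mono
    fun ι β γ hι _ _ => Eventually.of_forall fun m hm => ?_
  obtain ⟨⟨h1, h2⟩, h3⟩ := hm
  refine dec_two43 fun p q i hst hi D f hD hf hcv t ht => ?_
  obtain ⟨eR, r1, r2, r3⟩ := h1 p q i hst hi D f hD hf hcv t ht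
  obtain ⟨k, eL, l0, l1, l2, l3⟩ := h2 p q i hst hi D f hD hf hcv t ht
  have hB : 0 ≤ B33 β m := by
    unfold B33
    positivity
  refine ⟨_, _, 10, k, eR, eL, by omega, r1, l1, ?_, fun j hj y hy => ?_, r3, l3⟩
  · have e1 : (2 : ℝ) ^ q * (eR + eL) = 2 ^ q * eR + 2 ^ q * eL := by ring
    rw [e1]
    linarith
  · exact fE2_le43 (μ := μ) (s := s) hB (h3 p q i hst hi j hj) hf (hy33 (by omega) m y hy) t

/-- **THE FIELD `e2` OF THE LAST COMPOSITION.** -/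
theorem e2Sml43 {c₁ C₁ : ℝ} {n₀ : ℕ} (h : In μ s c₁ C₁ n₀) {ff ff' : ℝ → ℝ} (hd : DenLaw μ ff ff') (hk : KapLe96 (EE μ s) (1 / 4))
    {K : ℕ} (hK : 32 ≤ K) {Θ c₀ : ℝ} (hΘ : 0 < Θ) (hR : RegP46 μ s c₀ Θ)
    (hT : ∀ δ c : ℝ, 0 < δ → δ ≤ 1 → 0 < c → c ≤ δ / 64 → c ≤ Θ / 8 →
      Est fun ι β γ m => ∃ (εM κ M e : ℝ) (k : ℕ), Cst43 μ s K δ ι β γ m εM κ M e k ∧ TDS43 μ s K Θ δ c ι m M)
    (hL : ∀ δ c : ℝ, 0 < δ → δ ≤ 1 → 0 < c → c ≤ δ / 64 → c ≤ Θ / 8 → Est fun ι β γ m => PtL43 μ s K Θ δ c ι β γ m) :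
    Sml fun δ => Sml fun c => ∃ x : ℝ, 0 < x ∧ Est fun ι β γ m => E2DecN μ s (frm33 μ s K ι β γ) (EE μ s) Θ δ c x m := by
  refine (Sml.le one_pos).mono fun δ hδ hδ1 => ?_
  refine ((Sml.le (show 0 < δ / 64 by positivity)).and (Sml.le (show 0 < Θ / 8 by positivity))).mono fun c hc hcc => ?_
  exact ⟨c / 4, by positivity, e2N43 h hd hk hK hΘ hR hδ hc hcc.1 hcc.2 (hT δ c hδ hδ1 hc hcc.1 hcc.2) (hL δ c hδ hδ1 hc hcc.1 hcc.2)⟩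

end

end Pool.Agent.W_7d29a1_C0.E2AE43
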