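import Pool.Agent.W_7d29a1_C0.KeyL65
import Pool.Agent.W_7d29a1_C0.E2R59

/-!
CURV0 (MP_7d29a1_pr), section E2, PART L, THE FUNCTIONALS: `LS65` = the geometry (own place `[j - b, j - h]`, near slabs `J2`, `J1` in front
of the kick, pin `ep`, macro slabs `J3`, `J4`, tie of the spectator on `[e, d]`), `Key65`, `TL65` = keys and tubes; the functionals of one
environment and the signs: `LO` own, `LM` own and the micro tie given `pJ m ep`, `LQ`, `LLg` the two terms told given a macro row, `LG` own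
and the derivative of the exact response, `Lfa`, `Lfb`, `Lfc` the near far parts, `LFO` the macro far parts; all are `Gd`. (helper65)
-/

set_option autoImplicit false
set_option linter.unusedSectionVars false
set_option linter.unusedVariables false

namespace Pool.Agent.W_7d29a1_C0.EL65

open Finset MeasureTheory Pool.Agent.W_7d29a1_F Pool.Agent.W_7d29a1_X Pool.Agent.W_7d29a1_H Pool.Agent.W_7d29a1_C0
open Pool.Agent.W_7d29a1_C0.Mod92 Pool.Agent.W_7d29a1_C0.Blk18 Pool.Agent.W_7d29a1_C0.FP63 Pool.Agent.W_7d29a1_C0.Swap57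
open Pool.Agent.W_7d29a1_C0.NM82 Pool.Agent.W_7d29a1_C0.CutF59 Pool.Agent.W_7d29a1_C0.CutG59 Pool.Agent.W_7d29a1_C0.E2Q59
open Pool.Agent.W_7d29a1_C0.E2F59 Pool.Agent.W_7d29a1_C0.E2M59 Pool.Agent.W_7d29a1_C0.E2R59
open Pool.Agent.W_7d29a1_C0.CrA44 (ge)
open Pool.Agent.W_7d29a1_C0.Base5
open Pool.Agent.W_7d29a1_C0.CutE14 (P3)
open Pool.Agent.W_7d29a1_C0.MicE14 (Cq nn mi rh ob)
open Pool.Agent.W_7d29a1_C0.MicH14 (G1 T0Q Ox)
open Pool.Agent.W_7d29a1_C0.MicI14 (Kx lk14)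
open Pool.Agent.W_7d29a1_C0.MicL14 (Lng fa fb fc)
open Pool.Agent.W_7d29a1_C0.KL65 (FOk)
open Pool.Agent.W_7d29a1_C0.E1M82 (Gd rk_cls)
open Pool.W7d29a1.C0
open Pool.W7d29a1.C0.VT31
open Pool.W7d29a1.C0.I52 (KS av ev ks_ev Plan)
open Pool.W7d29a1.C0.H41 (Obs Ev)
open Pool.W7d29a1.C0.R63 (Bl Sd)

noncomputable section

/-! ### The data -/

/-- The slabs of part L. `m0` = upper end of the near slabs, `ep` = pin, `e3` = a row between the macro slabs. -/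
structure LS65 (N b0 h b σ j e d m0 ep e3 : ℕ) (J1 J2 J3 J4 : Finset ℕ) : Prop where
  geo : Geo59 N b0 h b σ j e d
  hm : m0 ≤ j - b0
  hb : h < j
  j1 : ∀ r ∈ J1, j - h < r ∧ r ≤ m0
  j2 : ∀ r ∈ J2, j - h < r ∧ r ≤ m0
  j21 : ∀ r ∈ J1, ∀ r' ∈ J2, r' < r
  zp : (j / σ + 1) * σ ≤ ep
  j3 : ∀ r ∈ J3, ep < r ∧ r ≤ e3
  j4 : ∀ r ∈ J4, e3 < r ∧ r ≤ e
  pe : ep ≤ e3
  ee : e3 ≤ e
  n1 : J1.Nonempty
  n2 : J2.Nonempty
  n3 : J3.Nonempty
  n4 : J4.Nonempty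

section Keys

variable {Q : Finset (Finset ℕ)} {T : Type*}

/-- The key: it knows the position of `x 2` at the pin, and sees `x 0` only behind the macro slabs. -/
structure Key65 (ep : ℕ) (J3 J4 : Finset ℕ) (kap : (Fin 3 → Px Q) → T) (ke : T → ℤ) : Prop where
  kk : ∀ x, ps (x 2) ep = ke (kap x)
  k3 : Kx J3 (pJ 0) kap
  k4 : Kx J4 (pJ 0) kap

/-- Tubes of the key over the rows `I`: at most `R` sites in every row; `o β S = 1` if `S` leaves the tubes of `β`. -/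
structure TL65 (N : ℕ) (I : Finset ℕ) (χ : T → Pt → ℝ) (o : T → Px Q → ℝ) (R : ℝ) : Prop where
  z : ∀ β p, 0 ≤ χ β p
  u : ∀ β p, χ β p ≤ 1
  n : ∀ β, ∀ i ∈ I, (((range (N + 1)).filter fun y : ℕ => χ β ((i : ℤ), (y : ℤ)) ≠ 0).card : ℝ) ≤ R
  far : ∀ β S, (∃ i ∈ I, χ β ((i : ℤ), ps S i) ≠ 1) → 1 ≤ o β S
  o0 : ∀ β S, 0 ≤ o β S
  o1 : ∀ β S, o β S ≤ 1

end Keys

/-! ### The functionals -/

section Fun

variable (μ : Measure ℝ) (s : ℝ) (N : ℕ) (δ B : ℝ) (b0 h b σ j e d : ℕ) (f : Fam N) (t : ℝ) (y : ℕ) [Nonempty (Px (Pn N y))]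

/-- Own. -/
def LO (ω : Env × Finset ℕ) : ℝ :=
  PP (wj μ s N (Pn N y) δ B b0 j ω t) fun x x' => mi (wj μ s N (Pn N y) δ B b0 j ω t) (pS σ j) (NI (j - b) (j - h)) x *
    rh e d (f y ω) x x'

/-- The micro tie, pinned at `ep`. -/
def nL (ep : ℕ) (J : Finset ℕ) (ω : Env × Finset ℕ) : Px (Pn N y) → ℝ :=
  nn (wj μ s N (Pn N y) δ B b0 j ω t) J (fun m => pJ m ep) (gg μ s (Pn N y) δ B b0 ω j)

/-- Own and micro tie. -/
def LM (ep : ℕ) (J : Finset ℕ) (α β : ℝ) (ω : Env × Finset ℕ) : ℝ :=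
  G1 (wj μ s N (Pn N y) δ B b0 j ω t) (pS σ j) (NI (j - b) (j - h)) (rh e d (f y ω)) (nL μ s N δ B b0 j t y ep J ω) α β

/-- Own (given a row of the macro slab `J'`) and micro tie. -/
def LQ (ep : ℕ) (J J' : Finset ℕ) (ω : Env × Finset ℕ) : ℝ :=
  T0Q (wj μ s N (Pn N y) δ B b0 j ω t) (pS σ j) J' (pJ 0) (NI (j - b) (j - h)) (rh e d (f y ω)) (nL μ s N δ B b0 j t y ep J ω)

/-- LONG: own and a path drawn given a row of the macro slab `J'`, apart between the block and the pin. -/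
def LLg (ep : ℕ) (J' : Finset ℕ) (ω : Env × Finset ℕ) : ℝ :=
  Lng (wj μ s N (Pn N y) δ B b0 j ω t) (pS σ j) J' ((j / σ + 1) * σ) ep (NI (j - b) (j - h)) (rh e d (f y ω))

/-- Own and the derivative of the exact response. -/
def LG (m0 : ℕ) (ω : Env × Finset ℕ) : ℝ :=
  PP (wj μ s N (Pn N y) δ B b0 j ω t) fun x x' => mi (wj μ s N (Pn N y) δ B b0 j ω t) (pS σ j) (NI (j - b) (j - h)) x *
    ((B / 2 * (B / 2) * Gm59 (lw μ s ω.1 N (Pn N y)) (gg μ s (Pn N y) δ B b0 ω j) ((sg ω.2 j : ℤ) : ℝ) (pW b j) m0 (j - b0) x) *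
      rh e d (f y ω) x x')

variable {T : Type*} (kap : (Fin 3 → Px (Pn N y)) → T) (o : T → Px (Pn N y) → ℝ)

/-- The near far part at the own paths. -/
def Lfa (ω : Env × Finset ℕ) : ℝ := fa (wj μ s N (Pn N y) δ B b0 j ω t) (pS σ j) kap o (pL μ s N δ B b0 h b j e d f y ω)

/-- The near far part at the shadow of the inner pair. -/
def Lfb (ω : Env × Finset ℕ) : ℝ := fb (wj μ s N (Pn N y) δ B b0 j ω t) (pS σ j) kap o (pL μ s N δ B b0 h b j e d f y ω)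

/-- The near far part at a path drawn given a row of the macro slab. -/
def Lfc (J' : Finset ℕ) (ω : Env × Finset ℕ) : ℝ :=
  fc (wj μ s N (Pn N y) δ B b0 j ω t) (pS σ j) J' (pJ 0) kap o (pL μ s N δ B b0 h b j e d f y ω)

/-- The macro far functional. -/
def LFO (a : ℝ) (ω : Env × Finset ℕ) : ℝ := FOk (wj μ s N (Pn N y) δ B b0 j ω t) (pS σ j) kap o (pL μ s N δ B b0 h b j e d f y ω) a

end Fun

/-! ### They are measurable and bounded -/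

section Meas

variable {μ : Measure ℝ} {s : ℝ} {N : ℕ} {δ B : ℝ} {c d : ℕ} {D : ℝ} {f : Fam N} {y : ℕ} [Nonempty (Px (Pn N y))]

theorem g1_nL65 (hB : 0 ≤ B) (δ : ℝ) (b0 j : ℕ) (t : ℝ) (ep : ℕ) (J : Finset ℕ) : G1d (nL μ s N δ B b0 j t y ep J) :=
  g1_nn (mw59 hB δ b0 j t) J (fun m => pJ m ep) (g1_g59 hB δ b0 j)

theorem gd_LO65 (hB : 0 ≤ B) (hf : Cls59 N c d D f) (b0 h b σ j e : ℕ) (t : ℝ) : Gd (LO μ s N δ B b0 h b σ j e d f t y) :=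
  gd_own (mw59 hB δ b0 j t) (pS σ j) (NI (j - b) (j - h)) (g2_rh59 hf e d)

theorem gd_LM65 (hB : 0 ≤ B) (hf : Cls59 N c d D f) (b0 h b σ j e : ℕ) (t : ℝ) (ep : ℕ) (J : Finset ℕ) (α β : ℝ) :
    Gd (LM μ s N δ B b0 h b σ j e d f t y ep J α β) :=
  gd_G1 (mw59 hB δ b0 j t) (pS σ j) (NI (j - b) (j - h)) (g2_rh59 hf e d) (g1_nL65 hB δ b0 j t ep J) α β

theorem gd_LQ65 (hB : 0 ≤ B) (hf : Cls59 N c d D f) (b0 h b σ j e : ℕ) (t : ℝ) (ep : ℕ) (J J' : Finset ℕ) :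
    Gd (LQ μ s N δ B b0 h b σ j e d f t y ep J J') :=
  gd_T0Q (mw59 hB δ b0 j t) (pS σ j) J' (pJ 0) (NI (j - b) (j - h)) (g2_rh59 hf e d) (g1_nL65 hB δ b0 j t ep J)

theorem gd_LL65 (hB : 0 ≤ B) (hf : Cls59 N c d D f) (b0 h b σ j e : ℕ) (t : ℝ) (ep : ℕ) (J' : Finset ℕ) :
    Gd (LLg μ s N δ B b0 h b σ j e d f t y ep J') :=
  Gd.smul59 (Gd.sum59 J' fun m _ => gd_tie (mw59 hB δ b0 j t) (pS σ j) (NI (j - b) (j - h))
    ((G2d.cst (NI ((j / σ + 1) * σ) ep)).cE (mw59 hB δ b0 j t) (pJ 0 m)) (g2_rh59 hf e d)) _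

theorem gd_LG65 (hB : 0 ≤ B) (hf : Cls59 N c d D f) (b0 h b σ j e : ℕ) (t : ℝ) (m0 : ℕ) :
    Gd (LG μ s N δ B b0 h b σ j e d f t y m0) :=
  gd_tie (mw59 hB δ b0 j t) (pS σ j) (NI (j - b) (j - h))
    ((g1_Gm (w := fun ω : Env × Finset ℕ => lw μ s ω.1 N (Pn N y)) (g := fun ω => gg μ s (Pn N y) δ B b0 ω j)
      (fun _ x => meas_lw x) (g1_g59 hB δ b0 j).ms (fun A => ((sg A j : ℤ) : ℝ)) (pW b j) m0 (j - b0)).smul (B / 2 * (B / 2)))
    (g2_rh59 hf e d)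

variable {T : Type*} {kap : (Fin 3 → Px (Pn N y)) → T} {o : T → Px (Pn N y) → ℝ}

/-- A functional of the plan with the observable `pL` in front. -/
theorem gd_far65 (hB : 0 ≤ B) (hf : Cls59 N c d D f) (b0 h b σ j e : ℕ) (t : ℝ) {V : Env × Finset ℕ → (Fin 3 → Px (Pn N y)) → ℝ} {K : ℝ}
    (mV : ∀ A x, Measurable fun η => V (η, A) x) (bV : ∀ ω x, |V ω x| ≤ K) :
    Gd fun ω => ev (P3 (pS σ j)) (wj μ s N (Pn N y) δ B b0 j ω t) fun x => |pL μ s N δ B b0 h b j e d f y ω x| * V ω x := by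
  have hmw : ∀ A, Measurable fun η => wj μ s N (Pn N y) δ B b0 j (η, A) t := fun A =>
    measurable_pi_lambda _ (mw59 (μ := μ) (s := s) hB δ b0 j t A)
  have hg := gd_ev59 (X := Px (Pn N y)) (ι := Fin 3) (P3 (pS σ j)).ks.toEv
    (w := fun ω : Env × Finset ℕ => wj μ s N (Pn N y) δ B b0 j ω t) hmw
    (Ψ := fun ω x => |pL μ s N δ B b0 h b j e d f y ω x| * V ω x) (K := 2 * (B / 2) * (B / 2) * (2 * D) * K) fun A => ?_
  · have e1 : (fun ω : Env × Finset ℕ => ev (P3 (pS σ j)) (wj μ s N (Pn N y) δ B b0 j ω t) fun x =>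
        |pL μ s N δ B b0 h b j e d f y ω x| * V ω x) = fun ω => (P3 (pS σ j)).ks.toEv.ev (wj μ s N (Pn N y) δ B b0 j ω t)
        fun x => |pL μ s N δ B b0 h b j e d f y ω x| * V ω x := by
      funext ω
      rw [ks_ev]
    rw [e1]
    exact hg
  · have hΨ := obs_pL59 (μ := μ) (s := s) (δ := δ) (y := y) hB hf b0 h b j e A
    refine ⟨measurable_pi_lambda _ fun x => ?_, fun η x => ?_⟩
    · exact (measurable_abs.comp ((measurable_pi_apply x).comp hΨ.meas)).mul (mV A x)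
    · have hK := hΨ.bd η x
      rw [abs_mul, abs_abs]
      exact mul_le_mul hK (bV (η, A) x) (abs_nonneg _) ((abs_nonneg _).trans hK)

theorem abs_o65 (o0 : ∀ β S, 0 ≤ o β S) (o1 : ∀ β S, o β S ≤ 1) (β : T) (S : Px (Pn N y)) : |o β S| ≤ 1 := by
  rw [abs_of_nonneg (o0 β S)]
  exact o1 β S

theorem gd_fa65 (hB : 0 ≤ B) (hf : Cls59 N c d D f) (o0 : ∀ β S, 0 ≤ o β S) (o1 : ∀ β S, o β S ≤ 1) (b0 h b σ j e : ℕ) (t : ℝ) :
    Gd (Lfa μ s N δ B b0 h b σ j e d f t y kap o) :=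
  gd_far65 (V := fun _ x => |o (kap x) (x 2)| + |o (kap x) (x 1)|) (K := 1 + 1) hB hf b0 h b σ j e t
    (fun A x => measurable_const) fun ω x => (abs_add_le _ _).trans (add_le_add (by rw [abs_abs]; exact abs_o65 o0 o1 _ _)
      (by rw [abs_abs]; exact abs_o65 o0 o1 _ _))

theorem gd_fb65 (hB : 0 ≤ B) (hf : Cls59 N c d D f) (o0 : ∀ β S, 0 ≤ o β S) (o1 : ∀ β S, o β S ≤ 1) (b0 h b σ j e : ℕ) (t : ℝ) :
    Gd (Lfb μ s N δ B b0 h b σ j e d f t y kap o) :=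
  gd_far65 (V := fun ω x => cE (wj μ s N (Pn N y) δ B b0 j ω t) (pS σ j) (fun y => |o (kap x) y|) (x 2)) (K := 1) hB hf b0 h b σ j e t
    (fun A x => ((G1d.cst fun y => |o (kap x) y|).cE (mw59 hB δ b0 j t) (pS σ j)).ms A (x 2)) fun ω x =>
      abs_cE_le _ _ (fun y => by rw [abs_abs]; exact abs_o65 o0 o1 _ _) _

theorem gd_fc65 (hB : 0 ≤ B) (hf : Cls59 N c d D f) (o0 : ∀ β S, 0 ≤ o β S) (o1 : ∀ β S, o β S ≤ 1) (b0 h b σ j e : ℕ) (t : ℝ)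
    {J' : Finset ℕ} : Gd (Lfc μ s N δ B b0 h b σ j e d f t y kap o J') := by
  have h1 : ∀ ω (x : Fin 3 → Px (Pn N y)), |Cq (wj μ s N (Pn N y) δ B b0 j ω t) J' (pJ 0) (fun y => |o (kap x) y|) (x 2)| ≤ 1 :=
    fun ω x => by
      unfold Cq
      exact abs_avg59 zero_le_one fun r _ => abs_cE_le _ _ (fun y => by rw [abs_abs]; exact abs_o65 o0 o1 _ _) _
  exact gd_far65 (V := fun ω x => Cq (wj μ s N (Pn N y) δ B b0 j ω t) J' (pJ 0) (fun y => |o (kap x) y|) (x 2)) (K := 1) hB hf b0 h b σ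
    j e t (fun A x => (g1_Cq (mw59 hB δ b0 j t) J' (pJ 0) (G1d.cst fun y => |o (kap x) y|)).ms A (x 2)) h1

theorem gd_FO65 (hB : 0 ≤ B) (hf : Cls59 N c d D f) (o0 : ∀ β S, 0 ≤ o β S) (o1 : ∀ β S, o β S ≤ 1) (b0 h b σ j e : ℕ) (t : ℝ)
    {a : ℝ} (ha : 0 ≤ a) : Gd (LFO μ s N δ B b0 h b σ j e d f t y kap o a) := by
  refine gd_far65 (V := fun ω x => ∑ i, o (kap x) (x i) + a * (2 * gm (wj μ s N (Pn N y) δ B b0 j ω t) (o (kap x)) +
    cE (wj μ s N (Pn N y) δ B b0 j ω t) (pS σ j) (o (kap x)) (x 2))) (K := 3 + a * 3) hB hf b0 h b σ j e t (fun A x => ?_)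
    fun ω x => ?_
  · refine measurable_const.add (Measurable.const_mul ?_ a)
    exact (Measurable.const_mul (((G1d.cst (o (kap x))).gm (mw59 hB δ b0 j t)).ms A) 2).add
      (((G1d.cst (o (kap x))).cE (mw59 hB δ b0 j t) (pS σ j)).ms A (x 2))
  · have ho : ∀ β S, |o β S| ≤ 1 := abs_o65 o0 o1
    have h1 : |∑ i, o (kap x) (x i)| ≤ 3 := by
      refine (Finset.abs_sum_le_sum_abs _ _).trans ((Finset.sum_le_sum fun i _ => ho _ _).trans_eq ?_)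
      rw [Finset.sum_const, Finset.card_univ, Fintype.card_fin]
      norm_num
    have h2 : |gm (wj μ s N (Pn N y) δ B b0 j ω t) (o (kap x))| ≤ 1 :=
      (abs_gm_le _ _).trans ((gm_mono _ fun y => ho _ y).trans_eq (gm_const _ 1))
    have h3 : |cE (wj μ s N (Pn N y) δ B b0 j ω t) (pS σ j) (o (kap x)) (x 2)| ≤ 1 := abs_cE_le _ _ (ho _) _
    refine (abs_add_le _ _).trans (add_le_add h1 ?_)
    rw [abs_mul, abs_of_nonneg ha]
    refine mul_le_mul_of_nonneg_left ((abs_add_le _ _).trans ?_) ha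
    rw [abs_mul, abs_two]
    linarith

end Meas

end

end Pool.Agent.W_7d29a1_C0.EL65
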