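import Pool.Agent.W_7d29a1_C0.FldL65
import Pool.Agent.W_7d29a1_C0.E2F59

/-!
CURV0 (MP_7d29a1_pr), section E2, part L: THE KEY AND THE MACRO FAR PARTS. `kapL` = the boxes of `x 2`, `x 1` at the row `r1` (in front of
the near slabs), the position of `x 2` at the pin `e`, the boxes of `x 2`, `x 0` at the row `r3` (behind the macro slabs); `kk_L`, `kx_L`:
the hypotheses of `HL` on the key. `FOk`: the far functional for a general key, `one_far65`, `two_far65`: the insertions of far parts,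
summed over the key. `abs_F3`, `abs_F4`, `qv_mac`: the macro fields of `e2_mac` cut to the tubes of the macro boxes. (helper65)
-/

set_option autoImplicit false
set_option linter.unusedSectionVars false
set_option linter.unusedVariables false

namespace Pool.Agent.W_7d29a1_C0.KL65

open Finset MeasureTheory Pool.Agent.W_7d29a1_F Pool.Agent.W_7d29a1_X Pool.Agent.W_7d29a1_H Pool.Agent.W_7d29a1_C0
open Pool.Agent.W_7d29a1_C0.Mod92 Pool.Agent.W_7d29a1_C0.Blk18 Pool.Agent.W_7d29a1_C0.FP63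
open Pool.Agent.W_7d29a1_C0.InT57 Pool.Agent.W_7d29a1_C0.FM63 Pool.Agent.W_7d29a1_C0.EM63 Pool.Agent.W_7d29a1_C0.Swap57
open Pool.Agent.W_7d29a1_C0.CutE14 Pool.Agent.W_7d29a1_C0.MicI14 Pool.Agent.W_7d29a1_C0.E2F59
open Pool.W7d29a1.C0 Pool.W7d29a1.C0.VT31 Pool.W7d29a1.C0.I52
open Pool.W7d29a1.C0.H19 (Cf)
open Pool.W7d29a1.C0.H41 (cut cut' QV)
open Pool.W7d29a1.C0.T73 (chT OutB bx)

noncomputable section

/-! ### The key -/

/-- The keys of part L. -/
abbrev TK (N : ℕ) : Type := (Fin 2 → Fin (N + 1)) × (Fin (N + 1) × (Fin 2 → Fin (N + 1)))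

theorem card_TK (N : ℕ) : Fintype.card (TK N) = (N + 1) ^ 5 := by
  rw [Fintype.card_prod, Fintype.card_prod, Fintype.card_fun, Fintype.card_fin, Fintype.card_fin]
  ring

section Key

variable {Q : Finset (Finset ℕ)} {N e r1 r3 : ℕ} {R1 R3 : ℝ}

/-- The position of the key at the pin. -/
def keL {N : ℕ} (β : TK N) : ℤ := ((β.2.1 : ℕ) : ℤ)

/-- The position at the row `e`. -/
def pf (N e : ℕ) (S : Px Q) : Fin (N + 1) := ⟨min N (ps S e).toNat, by omega⟩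

/-- The key of three paths. -/
def kapF (N : ℕ) (R1 R3 : ℝ) (r1 r3 e : ℕ) (a b c : Px Q) : TK N :=
  (fun i => if i = 0 then bx InT57.pz R1 r1 N a else bx InT57.pz R1 r1 N b,
    (pf N e a, fun i => if i = 0 then bx InT57.pz R3 r3 N a else bx InT57.pz R3 r3 N c))

/-- The key of the plan. -/
def kapL (N : ℕ) (R1 R3 : ℝ) (r1 r3 e : ℕ) (x : Fin 3 → Px Q) : TK N := kapF N R1 R3 r1 r3 e (x 2) (x 1) (x 0)

/-- The key knows the position of `x 2` at the pin. -/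
theorem kk_L (he : e ≤ N) (x : Fin 3 → Px Q) : ps (x 2) e = keL (kapL N R1 R3 r1 r3 e x) := by
  unfold keL kapL kapF pf
  have h1 := ps_nonneg (x 2) e
  have h2 := ps_le (x 2) e
  show ps (x 2) e = ((min N (ps (x 2) e).toNat : ℕ) : ℤ)
  omega

theorem bx_congr {R : ℝ} {r : ℕ} {S S' : Px Q} (h : ps S r = ps S' r) : bx InT57.pz R r N S = bx InT57.pz R r N S' := by
  unfold bx InT57.pz
  simp only [Int.toNat_natCast, h]

/-- The key sees `x 0` only behind the macro slab. -/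
theorem kx_L {J' : Finset ℕ} (hJ : ∀ m ∈ J', m ≤ r3) : Kx J' (pJ (Q := Q) 0) (kapL N R1 R3 r1 r3 e) :=
  ⟨kapF N R1 R3 r1 r3 e, fun x => rfl, fun m hm a b c c' h => by
    unfold kapF
    rw [bx_congr (ps_of_ge h (hJ m hm))]⟩

end Key

/-! ### The far functional -/

section Far

variable {X : Type*} [Fintype X] [DecidableEq X] [Nonempty X] {Y T : Type*} [DecidableEq Y] [Fintype T] [DecidableEq T]
  {p : X → Y} {w : X → ℝ} {kap : (Fin 3 → X) → T} {A o : T → X → ℝ} {Mf Mg : ℝ} {g : X → ℝ}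

/-- The far functional of the key `kap`: the old replicas, `2 a` free ones and `a` in the fibre. -/
def FOk (w : X → ℝ) (p : X → Y) (kap : (Fin 3 → X) → T) (o : T → X → ℝ) (Ψ : (Fin 3 → X) → ℝ) (a : ℝ) : ℝ :=
  ev (P3 p) w fun x => |Ψ x| * (∑ i, o (kap x) (x i) + a * (2 * gm w (o (kap x)) + cE w p (o (kap x)) (x 2)))

/-- **One insertion of a far part**, summed over the key. -/
theorem one_far65 (hA : ∀ β y, |A β y| ≤ Mf * o β y) (Ψ : (Fin 3 → X) → ℝ) :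
    ∑ β, |(P3 p).ks.dbl.toEv.ev w ((P3 p).ks.dr.ins (A β) (lk14 kap β Ψ))| ≤ Mf * FOk w p kap o Ψ 1 := by
  have h1 : ∀ β, |(P3 p).ks.dbl.toEv.ev w ((P3 p).ks.dr.ins (A β) (lk14 kap β Ψ))| ≤
      ev (P3 p) w fun x => |lk14 kap β Ψ x| * (Mf * (∑ i, o β (x i) + 1 * (2 * gm w (o β) + cE w p (o β) (x 2)))) := fun β => by
    have h2 : ∀ y : Fin 3 ⊕ Fin 3 → X, |(P3 p).ks.dr.ins (A β) (lk14 kap β Ψ) y| ≤
        Mf * ((fun x => |lk14 kap β Ψ x|) (fun i => y (Sum.inl i)) *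
          ∑ j, (fun _ : Fin 3 → X => o β) (fun i => y (Sum.inl i)) (y j)) := fun y => by
      refine (abs_ins_sum (P3 p).ks (A β) (lk14 kap β Ψ) y).trans ?_
      have h3 : ∑ j, |A β (y j)| ≤ ∑ j, Mf * o β (y j) := Finset.sum_le_sum fun j _ => hA _ _
      refine (mul_le_mul_of_nonneg_left h3 (abs_nonneg _)).trans (le_of_eq ?_)
      rw [← Finset.mul_sum]
      ring
    refine (H41.abs_ev_le _ _ _).trans ((H41.ev_mono _ _ h2).trans (le_of_eq ?_))
    rw [H41.ev_smul, ev_all_one (P3 p).ks w (fun x => |lk14 kap β Ψ x|) fun _ => o β, ks_ev, ← I52.ev_smul]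
    refine I52.ev_congr _ _ fun x => ?_
    rw [sum_A3]
    ring
  refine (Finset.sum_le_sum fun β _ => h1 β).trans ?_
  have h4 := sum_lk (p := p) (w := w) (Ψ := Ψ) (kap := kap)
    (fun β x => Mf * (∑ i, o β (x i) + 1 * (2 * gm w (o β) + cE w p (o β) (x 2)))) _ fun x _ => le_rfl
  refine h4.trans (le_of_eq ?_)
  unfold FOk
  rw [← I52.ev_smul]
  exact I52.ev_congr _ _ fun x => by ring

/-- One insertion of `g` times a far part. -/
theorem one_far65g (hA : ∀ β y, |A β y| ≤ Mf * o β y) (hg : ∀ x, |g x| ≤ Mg) (Ψ : (Fin 3 → X) → ℝ) :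
    ∑ β, |(P3 p).ks.dbl.toEv.ev w ((P3 p).ks.dr.ins (g * A β) (lk14 kap β Ψ))| ≤ Mg * Mf * FOk w p kap o Ψ 1 := by
  refine one_far65 (A := fun β => g * A β) (fun β y => ?_) Ψ
  rw [Pi.mul_apply, abs_mul, mul_assoc]
  exact mul_le_mul (hg y) (hA β y) (abs_nonneg _) ((abs_nonneg _).trans (hg y))

/-- **The insertion of `g` and of a far part**, summed over the key. -/
theorem two_far65 (hA : ∀ β y, |A β y| ≤ Mf * o β y) (hg : ∀ x, |g x| ≤ Mg) (Ψ : (Fin 3 → X) → ℝ) :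
    ∑ β, |(P3 p).ks.dbl.dbl.toEv.ev w ((P3 p).ks.dbl.dr.ins (A β) ((P3 p).ks.dr.ins g (lk14 kap β Ψ)))| ≤
      6 * Mg * Mf * FOk w p kap o Ψ 3 := by
  have hM0 : 0 ≤ Mg := (abs_nonneg _).trans (hg Classical.ofNonempty)
  have h1 : ∀ β, |(P3 p).ks.dbl.dbl.toEv.ev w ((P3 p).ks.dbl.dr.ins (A β) ((P3 p).ks.dr.ins g (lk14 kap β Ψ)))| ≤
      ev (P3 p) w fun x => |lk14 kap β Ψ x| *
        (6 * Mg * Mf * (∑ i, o β (x i) + 3 * (2 * gm w (o β) + cE w p (o β) (x 2)))) := fun β => by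
    have h2 : ∀ y : (Fin 3 ⊕ Fin 3) ⊕ (Fin 3 ⊕ Fin 3) → X,
        |(P3 p).ks.dbl.dr.ins (A β) ((P3 p).ks.dr.ins g (lk14 kap β Ψ)) y| ≤
        6 * Mg * Mf * ((fun x => |lk14 kap β Ψ x|) (fun i => y (Sum.inl (Sum.inl i))) *
          ∑ j, (fun _ : Fin 3 → X => o β) (fun i => y (Sum.inl (Sum.inl i))) (y j)) := fun y => by
      refine (abs_ins_sum (P3 p).ks.dbl (A β) ((P3 p).ks.dr.ins g (lk14 kap β Ψ)) y).trans ?_
      have h3 : ∑ j, |A β (y j)| ≤ ∑ j, Mf * o β (y j) := Finset.sum_le_sum fun j _ => hA _ _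
      have h4 : |(P3 p).ks.dr.ins g (lk14 kap β Ψ) fun i => y (Sum.inl i)| ≤
          6 * Mg * |lk14 kap β Ψ fun i => y (Sum.inl (Sum.inl i))| := MicE14.abs_ins_g hg _ _
      have h5 : 0 ≤ ∑ j, |A β (y j)| := Finset.sum_nonneg fun j _ => abs_nonneg _
      refine (mul_le_mul h4 h3 h5 (by positivity)).trans (le_of_eq ?_)
      rw [← Finset.mul_sum]
      ring
    refine (H41.abs_ev_le _ _ _).trans ((H41.ev_mono _ _ h2).trans (le_of_eq ?_))
    rw [H41.ev_smul, ev_all_two (P3 p).ks w (fun x => |lk14 kap β Ψ x|) fun _ => o β, ks_ev, ← I52.ev_smul]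
    refine I52.ev_congr _ _ fun x => ?_
    rw [sum_A3]
    ring
  refine (Finset.sum_le_sum fun β _ => h1 β).trans ?_
  have h4 := sum_lk (p := p) (w := w) (Ψ := Ψ) (kap := kap)
    (fun β x => 6 * Mg * Mf * (∑ i, o β (x i) + 3 * (2 * gm w (o β) + cE w p (o β) (x 2)))) _ fun x _ => le_rfl
  refine h4.trans (le_of_eq ?_)
  unfold FOk
  rw [← I52.ev_smul]
  exact I52.ev_congr _ _ fun x => by ring

end Far

/-! ### The macro fields -/

section Mac

variable {μ : Measure ℝ} {s : ℝ} {N al be e e3 : ℕ} {Q : Finset (Finset ℕ)} {A G : Env → (ℕ → ℤ) → ℝ} {J J3 J4 : Finset ℕ}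
  {D D' Dh τ : ℝ} {T : Type*} {c : T → Pt → Env → ℝ} {ι : Type*} [Fintype ι] {sl R : ℝ} {m0 : ℤ} {n : ℕ} {bxs : T → ι → Fin (n + 1)}

open Classical in
/-- Out of the tubes of the boxes of the key. -/
def oB (sl R : ℝ) (m0 : ℤ) (J : Finset ℕ) (bxs : T → ι → Fin (n + 1)) (β : T) (S : Px Q) : ℝ :=
  if OutB InT57.pz sl R m0 (JZ J) (bxs β) S then 1 else 0

theorem oB_nonneg (sl R : ℝ) (m0 : ℤ) (J : Finset ℕ) (bxs : T → ι → Fin (n + 1)) (β : T) (S : Px Q) :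
    0 ≤ oB sl R m0 J bxs β S := by
  unfold oB
  split_ifs
  · exact zero_le_one
  · exact le_rfl

theorem oB_le_one (sl R : ℝ) (m0 : ℤ) (J : Finset ℕ) (bxs : T → ι → Fin (n + 1)) (β : T) (S : Px Q) :
    oB sl R m0 J bxs β S ≤ 1 := by
  unfold oB
  split_ifs
  · exact le_rfl
  · exact zero_le_one

/-- **The far part of the macro field of the remainder.** -/
theorem abs_F3 (hA : WF al be D' A) (hF : ∀ β, WF 0 e D (nf G J (c β))) (hae : be ≤ e) (hj3 : ∀ r ∈ J3, e < r ∧ r ≤ N)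
    (hJ : J3.Nonempty) (β : T) (η : Env) (S : Px Q) :
    |F3 μ s N Q A G J c J3 (fun β => chT sl R m0 (bxs β)) β η S| ≤ D * oB sl R m0 J3 bxs β S :=
  abs_farS hJ ((abs_nonneg _).trans ((hF β).bd (fun _ => 0) fun _ => 0)) η (fun p hp =>
    (rf_mac (μ := μ) (s := s) hA (hF β) hae hj3).bdS hp η) (bxs β) S

/-- **The far part of the macro field of the product.** -/
theorem abs_F4 (hA : WF al be D' A) (hH : ∀ β, WF 0 e3 Dh (hh μ s A G J c J3 β)) (hae : be ≤ e3) (hj4 : ∀ r ∈ J4, e3 < r ∧ r ≤ N)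
    (hJ : J4.Nonempty) (β : T) (η : Env) (S : Px Q) :
    |F4 μ s N Q A G J c J3 J4 (fun β => chT sl R m0 (bxs β)) β η S| ≤ Dh * oB sl R m0 J4 bxs β S :=
  abs_farS hJ ((abs_nonneg _).trans ((hH β).bd (fun _ => 0) fun _ => 0)) η (fun p hp =>
    (rf_mac (μ := μ) (s := s) hA (hH β) hae hj4).bdS hp η) (bxs β) S

/-- The far part of the near field. -/
theorem abs_Ff (hG : WF al be τ G) (hJ0 : J.Nonempty) [Nonempty (Px Q)] {ke : T → ℤ} (β : T) (η : Env) (S : Px Q) :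
    |FL65.FfL μ s N Q A G e J ke (fun β => chT sl R m0 (bxs β)) β η S| ≤ τ * oB sl R m0 J bxs β S :=
  FL65.abs_FfL hG hJ0 β η S

/-- The quadratic variation of the fields cut to the tubes of the macro boxes. -/
theorem qv_mac (hR : 1 ≤ R) (hJ : J.Nonempty) (M : ℝ) (β : T) (η : Env) (cc : Pt → Env → ℝ)
    (h : ∀ p ∈ sS J N, |cc p η| ≤ M / J.card) :
    QV (sS J N) (cut (chT sl R m0 (bxs β)) cc) η ≤ 7 * Fintype.card ι * R * M ^ 2 / J.card := QV_sS hR hJ η h (bxs β)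

end Mac

end

end Pool.Agent.W_7d29a1_C0.KL65
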