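import Pool.Agent.W_7d29a1_C0.E2A43
import Pool.Agent.W_7d29a1_C0.E2L65
import Pool.Agent.W_7d29a1_C0.KeyL65

/-!
MP_7d29a1_pr, [CURV0] (helper43), section E2, PART L OF ONE ROW: THE SLABS, THE KEY, THE TUBES. `ls43`: the slabs of `G43` are slabs of
helper65; `key43`: his key; `tlN43`, `tlM43`: the tubes of the near and of the macro boxes; `arithL43`: the arithmetic of the row.
-/

set_option autoImplicit false
set_option linter.unusedSectionVars false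
set_option linter.unusedVariables false

namespace Pool.Agent.W_7d29a1_C0.E2AL43

open Finset MeasureTheory Filter Topology
open Pool.Agent.W_7d29a1_F Pool.Agent.W_7d29a1_X
open Pool.Agent.W_7d29a1_H (sl EE)
open Pool.Agent.W_7d29a1_C0 Pool.Agent.W_7d29a1_C0.Mod92 Pool.Agent.W_7d29a1_C0.Swap57
open Pool.Agent.W_7d29a1_C0.E2G43 Pool.Agent.W_7d29a1_C0.E2A43
open Pool.Agent.W_7d29a1_C0.EL65 (LS65 Key65 TL65)
open Pool.Agent.W_7d29a1_C0.KL65 (TK kapL keL kk_L kx_L oB oB_nonneg oB_le_one)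
open Pool.W7d29a1.C0 Pool.W7d29a1.C0.VT31
open Pool.W7d29a1.C0.T73 (chT OutB bx tb_far)

noncomputable section

section Geo

variable {N b0 b σ gl d j : ℕ}

/-- **The slabs of part L.** -/
theorem ls43 (X : G43 N b0 b σ gl d j) :
    LS65 N b0 (b / 2) b σ j (d - gl) d (j - b / 8) (d - 6 * gl) (d - 4 * gl) (nL1 b j) (nL2 b j) (mc3 gl d) (mc4 gl d) := by
  obtain ⟨h1, h2, h3, h4, h5⟩ := X.b8
  have g0 := X.rng
  have g1 := X.bp
  have g2 := X.glp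
  refine ⟨X.geo, by omega, by omega, fun r hr => ?_, fun r hr => ?_, fun r hr r' hr' => ?_, by omega, fun r hr => ?_, fun r hr => ?_,
    by omega, by omega, ?_, ?_, ?_, ?_⟩
  · have := mem_Ioc.1 hr
    omega
  · have := mem_Ioc.1 hr
    omega
  · have := mem_Ioc.1 hr
    have := mem_Ioc.1 hr'
    omega
  · have := mem_Ioc.1 hr
    omega
  · have := mem_Ioc.1 hr
    omega
  · exact nonempty_Ioc.2 (by omega)
  · exact nonempty_Ioc.2 (by omega)
  · exact nonempty_Ioc.2 (by omega)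
  · exact nonempty_Ioc.2 (by omega)

theorem card_nL1 (X : G43 N b0 b σ gl d j) : (nL1 b j).card = b / 8 := by
  obtain ⟨h1, h2, h3, h4, h5⟩ := X.b8
  have g0 := X.rng
  unfold nL1
  rw [Nat.card_Ioc]
  omega

theorem card_nL2 (X : G43 N b0 b σ gl d j) : (nL2 b j).card = b / 8 := by
  obtain ⟨h1, h2, h3, h4, h5⟩ := X.b8
  have g0 := X.rng
  unfold nL2
  rw [Nat.card_Ioc]
  omega

theorem card_mc3 (X : G43 N b0 b σ gl d j) : (mc3 gl d).card = gl := by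
  have g0 := X.rng
  unfold mc3
  rw [Nat.card_Ioc]
  omega

end Geo

/-! ### The key and the tubes -/

section Key

variable {μ : Measure ℝ} {s : ℝ} {N y b0 b σ gl d j : ℕ} {R1 R3 : ℝ}

/-- **The key.** -/
theorem key43 (X : G43 N b0 b σ gl d j) (R1 R3 : ℝ) (r1 : ℕ) : Key65 (Q := Pn N y) (d - 6 * gl) (mc3 gl d) (mc4 gl d)
    (kapL N R1 R3 r1 (d - 2 * gl) (d - 6 * gl)) keL := by
  have g0 := X.rng
  refine ⟨fun x => kk_L (by omega) x, kx_L fun m hm => ?_, kx_L fun m hm => ?_⟩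
  · have := mem_Ioc.1 hm
    omega
  · have := mem_Ioc.1 hm
    omega

/-- The tubes of the near boxes. -/
theorem tlN43 {R : ℝ} (hR : 1 ≤ R) {r1 : ℕ} (hk : r1 ≤ N) (I : Finset ℕ) :
    TL65 (Q := Pn N y) (T := TK N) N I (fun β => chT (sl μ s) R ((r1 : ℕ) : ℤ) β.1)
      (oB (sl μ s) R ((r1 : ℕ) : ℤ) I fun β => β.1) (21 * R) := by
  have h := tb_far (N := N) (k := 2) (I := I) (Q := Pn N y) (sl' := sl μ s) hR hk
  refine ⟨fun β p => h.z β.1 p, fun β p => h.u β.1 p, fun β i hi => (h.n β.1 i hi).trans ?_, fun β S hS => ?_,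
    fun β S => oB_nonneg _ _ _ _ _ _ _, fun β S => oB_le_one _ _ _ _ _ _ _⟩
  · push_cast
    linarith
  · exact h.far β.1 S hS

/-- The tubes of the macro boxes. -/
theorem tlM43 {R : ℝ} (hR : 1 ≤ R) {r3 : ℕ} (hk : r3 ≤ N) (I : Finset ℕ) :
    TL65 (Q := Pn N y) (T := TK N) N I (fun β => chT (sl μ s) R ((r3 : ℕ) : ℤ) β.2.2)
      (oB (sl μ s) R ((r3 : ℕ) : ℤ) I fun β => β.2.2) (21 * R) := by
  have h := tb_far (N := N) (k := 2) (I := I) (Q := Pn N y) (sl' := sl μ s) hR hk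
  refine ⟨fun β p => h.z β.2.2 p, fun β p => h.u β.2.2 p, fun β i hi => (h.n β.2.2 i hi).trans ?_, fun β S hS => ?_,
    fun β S => oB_nonneg _ _ _ _ _ _ _, fun β S => oB_le_one _ _ _ _ _ _ _⟩
  · push_cast
    linarith
  · exact h.far β.2.2 S hS

end Key

/-! ### The arithmetic of the row -/

/-- The arithmetic of the row of part L: `O` own, `P` the bare outer tie, `φ`, `φg` the factors of the far lines. -/
theorem arithL43 {v M z ρ A0 O P φ φg K0 fa fb c3 c4 F1 F3 Rst tl ea e1 e3 : ℝ} (hM : 0 ≤ M) (hz : 0 ≤ z) (hρ : 0 ≤ ρ)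
    (hv : v ≤ A0 * O + Rst + ((z * M ^ 2 * ρ * (fa + fb + 3 * c3) + M ^ 2 * (8 * fa + 20 * fb + 36 * c3 + 2 * c4)) +
      ((2 * z * M ^ 2 * ρ + 8 * M ^ 2) * F1 + 12 * M ^ 2 * F3) + tl))
    (ha : fa ≤ K0 * ea) (hb : fb ≤ K0 * (φ * O + φ ^ 2 * P + ea)) (h3 : c3 ≤ K0 * (φ * O + φ ^ 2 * P + ea))
    (h4 : c4 ≤ K0 * (φ * O + φ ^ 2 * P + ea)) (hf1 : F1 ≤ K0 * (3 * 1 * φg * O + e1)) (hf3 : F3 ≤ K0 * (3 * 3 * φg * O + e3)) :
    v ≤ (A0 + (4 * z * M ^ 2 * ρ + 58 * M ^ 2) * (K0 * φ) + (2 * z * M ^ 2 * ρ + 44 * M ^ 2) * (3 * K0 * φg)) * O + Rst +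
      (4 * z * M ^ 2 * ρ + 58 * M ^ 2) * (K0 * φ ^ 2) * P +
      (z * M ^ 2 * ρ * (5 * (K0 * ea)) + M ^ 2 * (66 * (K0 * ea)) + (2 * z * M ^ 2 * ρ + 8 * M ^ 2) * (K0 * e1) +
        12 * M ^ 2 * (K0 * e3) + tl) := by
  have p1 : 0 ≤ z * M ^ 2 * ρ := by positivity
  have p2 : 0 ≤ M ^ 2 := by positivity
  have k1 := mul_le_mul_of_nonneg_left (add_le_add (add_le_add ha hb) (mul_le_mul_of_nonneg_left h3 (by norm_num : (0 : ℝ) ≤ 3))) p1
  have k2 := mul_le_mul_of_nonneg_left (add_le_add (add_le_add (add_le_add (mul_le_mul_of_nonneg_left ha (by norm_num : (0 : ℝ) ≤ 8))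
    (mul_le_mul_of_nonneg_left hb (by norm_num : (0 : ℝ) ≤ 20))) (mul_le_mul_of_nonneg_left h3 (by norm_num : (0 : ℝ) ≤ 36)))
    (mul_le_mul_of_nonneg_left h4 (by norm_num : (0 : ℝ) ≤ 2))) p2
  have k3 := mul_le_mul_of_nonneg_left hf1 (show 0 ≤ 2 * z * M ^ 2 * ρ + 8 * M ^ 2 by positivity)
  have k4 := mul_le_mul_of_nonneg_left hf3 (show 0 ≤ 12 * M ^ 2 by positivity)
  refine hv.trans ((add_le_add (le_refl (A0 * O + Rst)) (add_le_add (add_le_add (add_le_add k1 k2) (add_le_add k3 k4))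
    (le_refl tl))).trans (le_of_eq ?_))
  ring

end

end Pool.Agent.W_7d29a1_C0.E2AL43
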