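import Pool.Agent.W_7d29a1_C0.E2AS43

/-!
MP_7d29a1_pr, [CURV0] (helper43), section E2: PART R AT THE CONCRETE FRAME. `lst43`: the list of part R at one length, one block, one
spectator; `partR43`: for all of them, in the order of the small exponents.
-/

set_option autoImplicit false
set_option linter.unusedSectionVars false
set_option linter.unusedVariables false

namespace Pool.Agent.W_7d29a1_C0.E2AP43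

open Finset MeasureTheory Filter Topology
open Pool.Agent.W_7d29a1_F Pool.Agent.W_7d29a1_X
open Pool.Agent.W_7d29a1_H (sl EE one_le_EE)
open Pool.Agent.W_7d29a1_HS (In wd)
open Pool.Agent.W_7d29a1_HZ (wd' EE')
open Pool.Agent.W_7d29a1_C0 Pool.Agent.W_7d29a1_C0.Mod92 Pool.Agent.W_7d29a1_C0.Swap57 Pool.Agent.W_7d29a1_C0.NM82
open Pool.Agent.W_7d29a1_C0.Asm96 Pool.Agent.W_7d29a1_C0.EstC46 Pool.Agent.W_7d29a1_C0.Frm33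
open Pool.Agent.W_7d29a1_C0.H32
open Pool.Agent.W_7d29a1_C0.EstD44 (Bl44)
open Pool.Agent.W_7d29a1_C0.E2G43 Pool.Agent.W_7d29a1_C0.E2K43 Pool.Agent.W_7d29a1_C0.E2W43 Pool.Agent.W_7d29a1_C0.E2A43
open Pool.Agent.W_7d29a1_C0.E2FR43 Pool.Agent.W_7d29a1_C0.E2FS43 Pool.Agent.W_7d29a1_C0.E2D96 Pool.Agent.W_7d29a1_C0.E2J43
open Pool.Agent.W_7d29a1_C0.E2D43 Pool.Agent.W_7d29a1_C0.E2Z43 Pool.Agent.W_7d29a1_C0.E2AR43 Pool.Agent.W_7d29a1_C0.E2AS43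
open Pool.Agent.W_7d29a1_C0.E1M82 (AvA)
open Pool.Agent.W_7d29a1_C0.E2Q59 (vR)
open Pool.Agent.W_7d29a1_C0.E2T96 (Trm96 rw96 mem_rw96)
open Pool.Agent.W_7d29a1_C0.MicN96 (er96)
open Pool.Agent.W_7d29a1_C0.E2S39 (Rd39 ll39 rd39_est price39)
open Pool.Agent.W_7d29a1_C0.NumR62 (pow62 coR62)
open Pool.Agent.W_7d29a1_C0.Par92 (Est Sml)
open Pool.W7d29a1.C0 Pool.W7d29a1.C0.VT31

noncomputable section

variable {μ : Measure ℝ} [IsProbabilityMeasure μ] {s : ℝ}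

/-- The end of the block is at most `2 ^ q` rows behind the window of a row. -/
theorem dj43 {N b0 b gl j i q sg : ℕ} (hq : sg ≤ q) (X : G43 N b0 b (2 ^ sg) gl ((i + 1) * 2 ^ q) j) (hj : i * 2 ^ q ≤ j) :
    (i + 1) * 2 ^ q ≤ j - b0 + 2 ^ q := by
  have h1 : i * 2 ^ q ≤ j / 2 ^ sg * 2 ^ sg := by
    have e1 : i * 2 ^ q = i * 2 ^ (q - sg) * 2 ^ sg := by
      rw [mul_assoc, ← pow_add]
      congr 2
      omega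
    rw [e1] at hj ⊢
    exact Nat.mul_le_mul_right _ ((Nat.le_div_iff_mul_le (by positivity)).2 hj)
  have h2 := X.lo
  have h3 := X.b16
  have h4 : (i + 1) * 2 ^ q = i * 2 ^ q + 2 ^ q := by ring
  omega

/-- **THE LIST OF PART R**, at one length, one block, one spectator. -/
theorem lst43 {K : ℕ} (hK : 32 ≤ K) {δ c ι β γ Θ c₀ a a' εM κ M e Kg θg K0 : ℝ} {m k : ℕ} (C : Cst43 μ s K δ ι β γ m εM κ M e k)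
    {ff ff' : ℝ → ℝ} (hd : DenLaw μ ff ff') (hs : SG μ (sc ff ff') Kg θg) (hT : TDS43 μ s K Θ δ c ι m M)
    (hF : FarAll43 μ s K δ ι β γ m) (R : Reg46 (EE μ s) (wd μ s) c₀ Θ δ a' (1 / 2 * ι) ((2 ^ m : ℕ) : ℝ)) (hι : 0 < ι) (hβ : β ≤ ι)
    (hι1 : ι ≤ 1 / 40) (h64 : 64 ≤ ((2 ^ m : ℕ) : ℝ) ^ ι)
    (hgl : ∀ q : ℕ, δ * m ≤ q → q ≤ m → 1 ≤ gl46 ι m q ∧ (2 : ℝ) ^ q ≤ ((2 ^ m : ℕ) : ℝ) ^ (2 * ι) * gl46 ι m q ∧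
      ((2 ^ m : ℕ) : ℝ) ^ (δ / 2) ≤ gl46 ι m q ∧ 8 * gl46 ι m q ≤ 2 ^ q)
    (htl : (((L33 K m + 1 : ℕ) : ℝ)) ^ 4 * Real.exp (4 * Kg - 1 / 2 * ((2 ^ m : ℕ) : ℝ) ^ ι) ≤ ((L33 K m : ℕ) : ℝ) ^ (-8 : ℝ))
    (her : ((2 ^ m : ℕ) : ℝ) ^ (60 : ℕ) * ((L33 K m : ℕ) : ℝ) ^ (-2 : ℝ) ≤ 1 / 16) {p q i : ℕ} (hst : St96 (EE μ s) δ c m p q)
    (hi : i < 2 ^ (m - q)) (W : Bx43 μ s K (θg / 2) K0 ι β m p q)
    (H : Rd39 μ s c₀ Θ δ a ι ((2 ^ m : ℕ) : ℝ) c (ι / K) (δ / (8 * K)) κ M e (40 * ι) (c / 4) (L33 K m) (ys33 μ s K m)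
        (Rw (R33 ι m) (i * 2 ^ q) ((i + 1) * 2 ^ q)) (2 ^ (p - ⌈ι * (m : ℝ)⌉₊)) (2 ^ p) (2 ^ sg96 (EE μ s) c m p) (gl46 ι m q)
        ((i + 1) * 2 ^ q) (2 ^ q) (ll39 (2 ^ (p - ⌈ι * (m : ℝ)⌉₊)) k) k (i * 2 ^ q))
    {cb : ℕ} {D : ℝ} {f : Fam (L33 K m)} (hf : Cls59 (L33 K m) cb ((i + 1) * 2 ^ q) D f) (hD : 0 < D) (hDn : D ≤ ((2 ^ m : ℕ) : ℝ) ^ 3)
    {t : ℝ} (ht : t ∈ Set.Icc (-1 : ℝ) 1) : ∃ eE : ℝ, 0 ≤ eE ∧ 2 ^ q * eE ≤ 1 / 16 ∧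
      Dec43 μ s (L33 K m) (ys33 μ s K m) (Rw (R33 ι m) (i * 2 ^ q) ((i + 1) * 2 ^ q)) (2 ^ q)
        (((2 ^ m : ℕ) : ℝ) ^ (Θ - 2 * (c / 4))) f (PhR43 μ s (L33 K m) γ (B33 β m) (2 ^ (p - ⌈ι * (m : ℝ)⌉₊)) (2 ^ p)
          (2 ^ sg96 (EE μ s) c m p) (gl46 ι m q) ((i + 1) * 2 ^ q) f t) 10 eE := by
  have hK1 : 1 ≤ K := by omega
  have hn1 := n_ge1 m
  have hn0 : (0 : ℝ) < ((2 ^ m : ℕ) : ℝ) := by linarith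
  have hys : ∀ y ∈ ys33 μ s K m, y ≤ L33 K m := hy33 (by omega) m
  obtain ⟨z, hz⟩ : ∃ z : ℝ, ((2 ^ m : ℕ) : ℝ) ^ ι = z := ⟨_, rfl⟩
  obtain ⟨B, hB⟩ : ∃ B : ℝ, B33 β m = B := ⟨_, rfl⟩
  obtain ⟨ρ, hρ⟩ : ∃ ρ : ℝ, √(21 * rW43 μ s (L33 K m) (ι / K) K0 (2 * 2 ^ p) / ((2 ^ p / 8 : ℕ) : ℝ)) = ρ := ⟨_, rfl⟩
  obtain ⟨ρ4, hρ4⟩ : ∃ ρ4 : ℝ, √(21 * rW43 μ s (L33 K m) (ι / K) K0 (2 ^ q) / gl46 ι m q) = ρ4 := ⟨_, rfl⟩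
  have hz0 : 0 < z := by
    rw [← hz]
    positivity
  have hB0 : 0 < B := by
    rw [← hB]
    unfold B33
    exact Real.rpow_pos_of_pos hn0 _
  have hBz : B ≤ z := by
    rw [← hB, ← hz]
    unfold B33
    exact Real.rpow_le_rpow_of_exponent_le hn1 hβ
  have hδq : δ * m ≤ q := hst.hp.trans (by exact_mod_cast hst.hps.trans hst.hsq)
  obtain ⟨g1, g2, g3, g4⟩ := hgl q hδq hst.hqm
  -- the base
  have nδ : ((2 ^ m : ℕ) : ℝ) ^ (δ / 2) ≤ ((2 ^ p : ℕ) : ℝ) := by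
    have e1 : ((2 ^ m : ℕ) : ℝ) ^ (δ / 2) = (2 : ℝ) ^ (δ / 2 * m) := by
      rw [Nat.cast_pow, Nat.cast_ofNat, ← Real.rpow_natCast, ← Real.rpow_mul (by norm_num)]
      congr 1
      ring
    rw [e1, Nat.cast_pow, Nat.cast_ofNat, ← Real.rpow_natCast 2 p]
    refine Real.rpow_le_rpow_of_exponent_le (by norm_num) (le_trans ?_ hst.hp)
    have h1 := R.δ0
    have h2 : (0 : ℝ) ≤ m := Nat.cast_nonneg _
    have h3 : 0 ≤ δ * m := by positivity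
    linarith
  -- the factors of the far lines
  obtain ⟨φb, hφb⟩ : ∃ φb : ℝ, ((2 ^ m : ℕ) : ℝ) ^ ι * (EE' μ s (2 ^ p))⁻¹ = φb := ⟨_, rfl⟩
  obtain ⟨φr, hφr⟩ : ∃ φr : ℝ, ((2 ^ m : ℕ) : ℝ) ^ ι * (EE' μ s (gl46 ι m q))⁻¹ = φr := ⟨_, rfl⟩
  obtain ⟨w1, w2⟩ := fac43 (Cf := 9) R hι hn1 h64 hB0.le (by rw [hz]; exact hBz) (by norm_num) le_rfl (t := 2 ^ p) (r := 2 ^ p)
    Nat.one_le_two_pow le_rfl (le_mul_of_one_le_left (by positivity) (Real.one_le_rpow hn1 (by positivity)))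
  obtain ⟨w3, w4⟩ := fac43 (Cf := 3) R hι hn1 h64 hB0.le (by rw [hz]; exact hBz) (by norm_num) (by norm_num) (t := gl46 ι m q)
    (r := 2 ^ q) g1 (by omega) (by rw [Nat.cast_pow 2 q, Nat.cast_ofNat]; exact g2)
  rw [hφb] at w1 w2
  rw [hφr] at w3 w4
  have Co := coR62 W hβ h64 (one_le_EE (2 ^ p)) (one_le_EE (2 ^ q)) w1 w2 w3 w4 hz hB hρ hρ4
  have eL : ((L33 K m : ℕ) : ℝ) ^ (ι / K) = ((2 ^ m : ℕ) : ℝ) ^ ι := L_pow43 hK1 m ι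
  -- the slot
  obtain ⟨TD, hTa, hTb⟩ := hT p q i hst hi _ (mul_nonneg (mul_nonneg Co.q3 (by norm_num)) (Real.rpow_nonneg hn0.le ι)) Co.c10
  have hgeo := H.geo
  -- the errors
  have hρ1 : ρ ≤ 1 := by
    rw [← hρ, Real.sqrt_le_one]
    have h1 := W.near.one
    have h2 := W.near.le
    rw [div_le_one (by linarith)]
    exact h2
  have hρ0 : 0 ≤ ρ := hρ ▸ Real.sqrt_nonneg _
  have hLR : (1 : ℝ) ≤ ((L33 K m : ℕ) : ℝ) := by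
    have h1 : ((2 ^ m : ℕ) : ℝ) ≤ ((L33 K m : ℕ) : ℝ) := by exact_mod_cast L33_ge hK1 m
    linarith
  have hLm : ∀ x : ℝ, x ≤ -2 → ((L33 K m : ℕ) : ℝ) ^ x ≤ ((L33 K m : ℕ) : ℝ) ^ (-2 : ℝ) := fun x hx =>
    Real.rpow_le_rpow_of_exponent_le hLR hx
  have p20 : ((2 ^ m : ℕ) : ℝ) ^ (20 * ι) ≤ ((2 ^ m : ℕ) : ℝ) := by
    calc ((2 ^ m : ℕ) : ℝ) ^ (20 * ι) ≤ ((2 ^ m : ℕ) : ℝ) ^ (1 : ℝ) := Real.rpow_le_rpow_of_exponent_le hn1 (by linarith)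
      _ = _ := Real.rpow_one _
  have hz64 : 64 ≤ z := by rw [← hz]; exact h64
  have hz5 : z ^ 5 ≤ ((2 ^ m : ℕ) : ℝ) := by
    rw [← hz, ← pow62 hn0.le 5]
    calc ((2 ^ m : ℕ) : ℝ) ^ (((5 : ℕ) : ℝ) * ι) ≤ ((2 ^ m : ℕ) : ℝ) ^ (1 : ℝ) :=
          Real.rpow_le_rpow_of_exponent_le hn1 (by push_cast; linarith)
      _ = _ := Real.rpow_one _
  have hn64 : 64 ≤ ((2 ^ m : ℕ) : ℝ) := by
    calc (64 : ℝ) ≤ z := hz64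
      _ ≤ z ^ 5 := le_self_pow₀ (by linarith) (by norm_num)
      _ ≤ _ := hz5
  have her96 : er96 (L33 K m) 8 = ((L33 K m : ℕ) : ℝ) ^ (-2 : ℝ) := by
    unfold er96
    rw [← Real.rpow_natCast, ← Real.rpow_add (by linarith)]
    norm_num
  have eN : (((L33 K m + 1 : ℕ)) : ℝ) = ((L33 K m : ℕ) : ℝ) + 1 := Nat.cast_succ _
  rw [eN, hz, show 4 * Kg - 1 / 2 * z = 4 * Kg - z / 2 by ring] at htl
  have num := num43 (S1 := _) (S2 := _) hn64 (by linarith) hz5 hB0.le hBz hρ0 hρ1 hD.le hDn (Co.s1.trans p20) (Co.s2.trans p20)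
    (ℓ := ((L33 K m : ℕ) : ℝ) ^ (-2 : ℝ)) (by positivity) (hLm (-9) (by norm_num)) (by positivity)
    (N1 := ((L33 K m : ℕ) : ℝ) + 1) (by linarith) (htl.trans (hLm (-8) (by norm_num))) (Real.exp_pos _).le
    (C.eM.trans (hLm (-8) (by norm_num))) (Real.exp_pos _).le (erN := er96 (L33 K m) 8) (by rw [her96]) (by rw [her96]; positivity)
  have dec := H.decR39 (Φ := PhR43 μ s (L33 K m) γ (B33 β m) (2 ^ (p - ⌈ι * (m : ℝ)⌉₊)) (2 ^ p) (2 ^ sg96 (EE μ s) c m p)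
      (gl46 ι m q) ((i + 1) * 2 ^ q) f t) (γ := γ) (B := B) (t := t) (εM := εM) (K' := 8) (D' := D) (ε₁ := ι / K) (cb := cb)
    hys (m0 := fun j => j + 2 ^ p / 8) (fun j _ => by
      show j + 2 ^ p / 8 ≤ j + 2 ^ p
      have := Nat.div_le_self (2 ^ p) 8
      omega)
    (fun j hj y hy => by
      rw [← hB]
      exact dr43 hK1 C hst.hp (hgeo j hj) ht H.kl hf hDn hy (hys y hy)) C.M8 C.q1 C.q2 hf hD.le Co.p1 Co.p2 Co.p3 Co.p4 Co.q1 Co.q2 Co.q3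
    (by norm_num : (0 : ℝ) ≤ 2) (by norm_num : (0 : ℝ) ≤ 1) (by norm_num : (0 : ℝ) ≤ 16) (by norm_num : (0 : ℝ) ≤ 20) hB0.le
    (er := z * (B / 2) ^ 2 * ρ * (2 * (B / 2) * (B / 2) * (36 * D * ((L33 K m : ℕ) : ℝ) ^ (-9 : ℝ))) +
        6 * (B / 2) ^ 2 * (2 * (B / 2) * (B / 2) * (96 * D * ((L33 K m : ℕ) : ℝ) ^ (-9 : ℝ))) +
        2 * (B / 2) ^ 2 * (2 * (B / 2) * (B / 2) * (36 * D * ((L33 K m : ℕ) : ℝ) ^ (-9 : ℝ))) +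
        352 * (B / 2) ^ 4 * D * (((L33 K m : ℕ) : ℝ) + 1) * (((L33 K m : ℕ) : ℝ) + 1) ^ 3 * Real.exp (4 * Kg - z / 2) +
        32 * (B / 2) ^ 4 * D * (((L33 K m : ℕ) : ℝ) + 1) ^ 3 * Real.exp (4 * Kg - z / 2)) (by positivity)
    (fun j hj y hy => by
      intro hne
      rw [PhR43_eq, hB]
      have hj' := mem_rw96 hj
      have r := row43 hd hs hF hy W (hgeo j hj) (dj43 hst.hsq (hgeo j hj) hj'.1) (abs_le.2 ht) hf hD nδ g3 g4 hz hB hρ hρ4 hφb hφr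
      rw [eN] at r
      exact r)
    (by rw [eL]; exact Co.c1) (by rw [eL]; exact Co.c2) (by rw [eL]; exact Co.c3) (by rw [eL]; exact Co.c4) (by rw [eL]; exact Co.c5)
    (by rw [eL]; exact Co.c6) (by rw [eL]; exact Co.c7) (by rw [eL]; exact Co.c8) (by rw [eL]; exact Co.c9) TD
    (by rw [eL, hTa]) (hTb cb D f hf hD.le) (eE := ((2 ^ m : ℕ) : ℝ) ^ 50 * ((L33 K m : ℕ) : ℝ) ^ (-2 : ℝ)) (by
      rw [eL, hz]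
      rw [hz] at num
      exact num)
  refine ⟨_, by positivity, ?_, dec⟩
  have h2q : (2 : ℝ) ^ q ≤ ((2 ^ m : ℕ) : ℝ) := by
    push_cast
    exact pow_le_pow_right₀ (by norm_num) hst.hqm
  exact err43_of hn1 h2q (by positivity) le_rfl (by positivity) le_rfl her

/-- A spectator is bounded by a positive number at most `n ^ 3`. -/
theorem cls43 {N c d : ℕ} {D n : ℝ} {f : Fam N} (hf : Cls59 N c d D f) (hn : 1 ≤ n) (hD : D ≤ n ^ 3) :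
    ∃ D' : ℝ, 0 < D' ∧ D' ≤ n ^ 3 ∧ Cls59 N c d D' f :=
  ⟨max D 1, lt_of_lt_of_le one_pos (le_max_right _ _), max_le hD (one_le_pow₀ hn),
    ⟨hf.meas, fun y ω S => (hf.bdd y ω S).trans (le_max_left _ _), hf.side, hf.env, hf.sgn⟩⟩

/-- **PART R AT THE CONCRETE FRAME.** -/
theorem partR43 {c₁ C₁ : ℝ} {n₀ : ℕ} (h : In μ s c₁ C₁ n₀) {ff ff' : ℝ → ℝ} (hd : DenLaw μ ff ff')
    (hk : KapLe96 (EE μ s) (1 / 4)) {K : ℕ} (hK : 32 ≤ K) {Θ c₀ : ℝ} (hΘ : 0 < Θ) (hR : RegP46 μ s c₀ Θ) {δ c : ℝ} (hδ : 0 < δ)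
    (hc : 0 < c) (hcδ : c ≤ δ / 64) (hcΘ : c ≤ Θ / 8)
    (hT : Est fun ι β γ m => ∃ (εM κ M e : ℝ) (k : ℕ), Cst43 μ s K δ ι β γ m εM κ M e k ∧ TDS43 μ s K Θ δ c ι m M) :
    Est fun ι β γ m => Bl44 (frm33 μ s K ι β γ) (EE μ s) δ c m fun p q i f => ∀ t ∈ Set.Icc (-1 : ℝ) 1, ∃ eE : ℝ, 0 ≤ eE ∧
      2 ^ q * eE ≤ 1 / 16 ∧ Dec43 μ s (L33 K m) (ys33 μ s K m) (Rw (R33 ι m) (i * 2 ^ q) ((i + 1) * 2 ^ q)) (2 ^ q)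
        (((2 ^ m : ℕ) : ℝ) ^ (Θ - 2 * (c / 4))) f (PhR43 μ s (L33 K m) γ (B33 β m) (2 ^ (p - ⌈ι * (m : ℝ)⌉₊)) (2 ^ p)
          (2 ^ sg96 (EE μ s) c m p) (gl46 ι m q) ((i + 1) * 2 ^ q) f t) 10 eE := by
  obtain ⟨Kg, θg, hs⟩ := hd.sg
  have hθg : 0 < θg := hs.2.2.1
  obtain ⟨a, hRd⟩ := rd39_est h hk hK hΘ hδ hc hcδ hcΘ hR (Q := 40) (by norm_num)
  obtain ⟨K0, hK0, hBx⟩ := bx43_est h (K := K) (by omega) hδ hc hcδ (θ0 := θg / 2) (by positivity) hR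
  obtain ⟨a', ha'0, ha'1, hRe⟩ := hR.est hδ (k := 1 / 2) (by norm_num)
  have hβ : Est fun ι β _ _ => β ≤ ι := Est.beta (Sml.of fun ι hι => Sml.le hι)
  have hpow : Est fun ι _ _ m => 64 ≤ ((2 ^ m : ℕ) : ℝ) ^ ι := ⟨1, one_pos, fun ι hι _ => Sml.of fun _ _ => Sml.of fun _ _ =>
    pow_ev96 hι 64⟩
  refine ((((hT.and hRd).and (hBx.and (farall43_est h hK hδ))).and ((hRe.and (glo43 hδ)).and
    ((tail43 (K := K) (by omega) Kg 4 (a := 1 / 2) (by norm_num)).and (Est.of_ev (err43 hK))))).and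
    ((hβ.and hpow).and (Est.iota (Sml.le (show (0 : ℝ) < 1 / 40 by norm_num))))).mono
    fun ι β γ hι _ _ => Eventually.of_forall fun m hm => ?_
  obtain ⟨⟨⟨⟨⟨εM, κ, M, e, k, C, hTD⟩, h2⟩, h3, h4⟩, ⟨⟨h5, -⟩, h6⟩, h7, h8⟩, ⟨h9, h10⟩, h11⟩ := hm
  intro p q i hst hi D f hD hf _ t ht
  obtain ⟨D', hD'0, hD'n, hf'⟩ := cls43 hf (n_ge1 m) hD
  exact lst43 hK C hd hs hTD h4 h5 hι h9 h11 h10 h6 h7 h8 hst hi (h3 p q hst) (h2 εM κ M e k C p q i hst hi) hf' hD'0 hD'n ht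

end

end Pool.Agent.W_7d29a1_C0.E2AP43
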