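import Pool.Agent.W_7d29a1_C0.E2R59

/-!
MP_7d29a1_pr, [CURV0] (helper59), section E2, PART R, NUMBERS AND MEAN OVER THE SIGNS. `e2R_raw59`: the sum of the three parts of
`E2R59`, free parameters; `e2R_A59`: `t = V ^ (-1/2)`, `a = L V ^ (1/2)`, one free parameter `L`; `e2R_P59`: in the mean over the
environment and the signs.
-/

set_option autoImplicit false
set_option linter.unusedSectionVars false

namespace Pool.Agent.W_7d29a1_C0.E2R59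

open Finset MeasureTheory Pool.Agent.W_7d29a1_F Pool.Agent.W_7d29a1_X Pool.Agent.W_7d29a1_H
open Pool.Agent.W_7d29a1_C0 Pool.Agent.W_7d29a1_C0.Mod92 Pool.Agent.W_7d29a1_C0.Swap57 Pool.Agent.W_7d29a1_C0.NM82
open Pool.Agent.W_7d29a1_C0.H32
open Pool.Agent.W_7d29a1_C0.CutF59 Pool.Agent.W_7d29a1_C0.CutG59 Pool.Agent.W_7d29a1_C0.E2Q59 Pool.Agent.W_7d29a1_C0.E2F59
open Pool.Agent.W_7d29a1_C0.CutE14 (P3)
open Pool.Agent.W_7d29a1_C0.FP63 (sS)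
open Pool.Agent.W_7d29a1_C0.E1M82 (Gd AvA AvA_add AvA_mul AvA_const abs_AvA_le)
open Pool.Agent.W_7d29a1_C0.E2M59
open Pool.W7d29a1.C0
open Pool.W7d29a1.C0.H41 (tail1 tail2)
open Pool.W7d29a1.C0.E1A (Tb ex19 tail1_le tail2_eq)

noncomputable section

/-! ### Numbers -/

section num

variable {M R n θ0 K L : ℝ}

/-- The bounds of the field of a slab with at least `n` rows, `R` sites in the tubes of a row. -/
theorem slab59 (hM : 0 < M) (hR : 0 < R) (hn0 : 0 < n) (hn : 4 ≤ θ0 ^ 2 * (n * R)) (hθ0 : 0 < θ0) {k : ℝ} (hk : n ≤ k) :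
    2 * (Real.sqrt (R * M ^ 2 / n))⁻¹ * (M / k) ≤ θ0 ∧ k * (R * (M / k) ^ 2) ≤ R * M ^ 2 / n := by
  have hk0 : 0 < k := hn0.trans_le hk
  set V : ℝ := R * M ^ 2 / n with hVd
  have hV : 0 < V := by positivity
  have hsV : 0 < Real.sqrt V := Real.sqrt_pos.2 hV
  have hsq : Real.sqrt V ^ 2 = V := Real.sq_sqrt hV.le
  constructor
  · have h0 : 2 * (Real.sqrt V)⁻¹ * (M / k) ≤ 2 * (Real.sqrt V)⁻¹ * (M / n) :=
      mul_le_mul_of_nonneg_left (div_le_div_of_nonneg_left hM.le hn0 hk) (by positivity)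
    refine h0.trans ?_
    have h1 : 2 * (Real.sqrt V)⁻¹ * (M / n) = 2 * M / (n * Real.sqrt V) := by field_simp
    rw [h1, div_le_iff₀ (by positivity)]
    have h2 : (2 * M) ^ 2 ≤ (θ0 * (n * Real.sqrt V)) ^ 2 := by
      have h3 : (θ0 * (n * Real.sqrt V)) ^ 2 = θ0 ^ 2 * n ^ 2 * V := by
        rw [mul_pow, mul_pow, hsq]
        ring
      have h4 : θ0 ^ 2 * n ^ 2 * V = θ0 ^ 2 * (n * R) * M ^ 2 := by
        rw [hVd]
        field_simp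
      rw [h3, h4]
      nlinarith [sq_nonneg M]
    exact le_of_sq_le_sq h2 (by positivity)
  · have h1 : k * (R * (M / k) ^ 2) = R * M ^ 2 / k := by field_simp
    rw [h1, hVd]
    exact div_le_div_of_nonneg_left (by positivity) hn0 hk

theorem sqV59 (hM : 0 < M) (R n : ℝ) : Real.sqrt (R * M ^ 2 / n) = M * Real.sqrt (R / n) := by
  rw [show R * M ^ 2 / n = M ^ 2 * (R / n) by ring, Real.sqrt_mul (sq_nonneg M), Real.sqrt_sq hM.le]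

theorem ex59 {V : ℝ} (hV : 0 < V) : ex19 K (Real.sqrt V)⁻¹ (L * Real.sqrt V) V = Real.exp (4 * K - L / 2) := by
  have hsV : 0 < Real.sqrt V := Real.sqrt_pos.2 hV
  have hsq : Real.sqrt V ^ 2 = V := Real.sq_sqrt hV.le
  unfold ex19
  rw [← Real.exp_add]
  congr 1
  have h1 : (Real.sqrt V)⁻¹ * (L * Real.sqrt V) = L := by field_simp
  have h2 : (Real.sqrt V)⁻¹ ^ 2 * V = 1 := by
    rw [inv_pow, hsq]
    exact inv_mul_cancel₀ hV.ne'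
  rw [h1]
  have h3 : 4 * K * (Real.sqrt V)⁻¹ ^ 2 * V = 4 * K * ((Real.sqrt V)⁻¹ ^ 2 * V) := by ring
  rw [h3, h2]
  ring

theorem tl1_59 {V D : ℝ} (hV : 0 < V) (hD : 0 ≤ D) (hK : 0 ≤ K) :
    tail1 K D (Real.sqrt V)⁻¹ (L * Real.sqrt V) V ≤ 4 * D * Real.sqrt V * Real.exp (4 * K - L / 2) := by
  refine (tail1_le hD (inv_pos.2 (Real.sqrt_pos.2 hV)) hK hV.le).trans (le_of_eq ?_)
  rw [ex59 hV, div_inv_eq_mul]

theorem tl59 {V D D' : ℝ} (hV : 0 < V) (hD : 0 ≤ D) (hK : 0 ≤ K) (h : D ≤ D') :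
    tail1 K D (Real.sqrt V)⁻¹ (L * Real.sqrt V) V ≤ 4 * D' * Real.sqrt V * Real.exp (4 * K - L / 2) := by
  refine (tl1_59 hV hD hK).trans ?_
  have h0 := Real.sqrt_nonneg V
  have h1 := (Real.exp_pos (4 * K - L / 2)).le
  exact mul_le_mul_of_nonneg_right (mul_le_mul_of_nonneg_right (by linarith) h0) h1

theorem tl2_59 {V D : ℝ} (hV : 0 < V) :
    tail2 K D (Real.sqrt V)⁻¹ (Real.sqrt V)⁻¹ (L * Real.sqrt V) (L * Real.sqrt V) V V =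
      8 * D * V * Real.exp (4 * K - L / 2) := by
  rw [tail2_eq, ex59 hV, inv_pow, Real.sq_sqrt hV.le, div_inv_eq_mul]

theorem card_sS59 (J : Finset ℕ) (N : ℕ) : ((sS J N).card : ℝ) ≤ J.card * (N + 1) := by
  have h : (sS J N).card ≤ J.card * (N + 1) := by
    unfold FP63.sS
    refine Finset.card_image_le.trans ?_
    rw [Finset.card_product, Finset.card_range]
  exact_mod_cast h

theorem sl59 {J : Finset ℕ} (hJ : J.Nonempty) (N : ℕ) (hM : 0 ≤ M) : ((sS J N).card : ℝ) * (M / J.card) ≤ (N + 1) * M := by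
  have h0 : (0 : ℝ) < J.card := by exact_mod_cast hJ.card_pos
  calc ((sS J N).card : ℝ) * (M / J.card) ≤ J.card * (N + 1) * (M / J.card) :=
        mul_le_mul_of_nonneg_right (card_sS59 J N) (by positivity)
    _ = (N + 1) * M := by field_simp

/-- The tails of the near slabs. -/
theorem tails59 {M R n K L C k m D : ℝ} (hM : 0 < M) (hR : 0 < R) (hn0 : 0 < n) (hK : 0 ≤ K) (hD : 0 ≤ D) (hm : 0 ≤ m) (hC : 0 ≤ C)
    (hk : 0 < k) (hs : C * (M / k) ≤ (m + 1) * M) :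
    tail2 K (2 * M * M * (2 * D)) (Real.sqrt (R * M ^ 2 / n))⁻¹ (Real.sqrt (R * M ^ 2 / n))⁻¹ (L * Real.sqrt (R * M ^ 2 / n))
      (L * Real.sqrt (R * M ^ 2 / n)) (R * M ^ 2 / n) (R * M ^ 2 / n) ≤
      8 * (2 * M * M * (2 * D)) * (M ^ 2 * Real.sqrt (R / n) ^ 2) * Real.exp (4 * K - L / 2) ∧
    tail1 K (C * (M / k * (2 * (2 * (1 * M)) * M * (2 * D)))) (Real.sqrt (R * M ^ 2 / n))⁻¹ (L * Real.sqrt (R * M ^ 2 / n))
      (R * M ^ 2 / n) ≤ 4 * (8 * M ^ 3 * D * (m + 1)) * (M * Real.sqrt (R / n)) * Real.exp (4 * K - L / 2) ∧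
    tail1 K (2 * M * M * (2 * D) * (6 * (M + C * (M / k * 1)))) (Real.sqrt (R * M ^ 2 / n))⁻¹ (L * Real.sqrt (R * M ^ 2 / n))
      (R * M ^ 2 / n) ≤ 4 * (48 * M ^ 3 * D * (m + 1)) * (M * Real.sqrt (R / n)) * Real.exp (4 * K - L / 2) ∧
    tail1 K (2 * M * M * (2 * D) * (6 * (C * (M / k * 1)))) (Real.sqrt (R * M ^ 2 / n))⁻¹ (L * Real.sqrt (R * M ^ 2 / n))
      (R * M ^ 2 / n) ≤ 4 * (24 * M ^ 3 * D * (m + 1)) * (M * Real.sqrt (R / n)) * Real.exp (4 * K - L / 2) := by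
  have hV : 0 < R * M ^ 2 / n := by positivity
  have hx2 : Real.sqrt (R / n) ^ 2 = R / n := Real.sq_sqrt (by positivity)
  have hV' : R * M ^ 2 / n = M ^ 2 * Real.sqrt (R / n) ^ 2 := by
    rw [hx2]
    ring
  have hs' : Real.sqrt (R * M ^ 2 / n) = M * Real.sqrt (R / n) := sqV59 hM R n
  have hD0 : 0 ≤ M ^ 2 * D := by positivity
  have hC0 : 0 ≤ C * (M / k) := mul_nonneg hC (div_nonneg hM.le hk.le)
  have ht1 : ∀ D1 D1' : ℝ, 0 ≤ D1 → D1 ≤ D1' → tail1 K D1 (Real.sqrt (R * M ^ 2 / n))⁻¹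
      (L * Real.sqrt (R * M ^ 2 / n)) (R * M ^ 2 / n) ≤
      4 * D1' * (M * Real.sqrt (R / n)) * Real.exp (4 * K - L / 2) := fun D1 D1' h0 h1 =>
    (tl59 (K := K) (L := L) hV h0 hK h1).trans_eq (by rw [hs'])
  refine ⟨le_of_eq ?_, ht1 _ _ ?_ ?_, ht1 _ _ ?_ ?_, ht1 _ _ ?_ ?_⟩
  · rw [tl2_59 hV, ← hV']
  · have h1 : C * (M / k * (2 * (2 * (1 * M)) * M * (2 * D))) = C * (M / k) * (8 * (M ^ 2 * D)) := by ring
    rw [h1]
    exact mul_nonneg hC0 (by linarith)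
  · have h1 : C * (M / k * (2 * (2 * (1 * M)) * M * (2 * D))) = C * (M / k) * (8 * (M ^ 2 * D)) := by ring
    rw [h1]
    refine (mul_le_mul_of_nonneg_right hs (by linarith)).trans (le_of_eq ?_)
    ring
  · have h1 : 2 * M * M * (2 * D) * (6 * (M + C * (M / k * 1))) = 24 * (M ^ 2 * D) * (M + C * (M / k)) := by ring
    rw [h1]
    exact mul_nonneg (by linarith) (by linarith)
  · have h1 : 2 * M * M * (2 * D) * (6 * (M + C * (M / k * 1))) = 24 * (M ^ 2 * D) * (M + C * (M / k)) := by ring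
    have h2 : 48 * M ^ 3 * D * (m + 1) = 24 * (M ^ 2 * D) * (2 * (m + 1) * M) := by ring
    rw [h1, h2]
    refine mul_le_mul_of_nonneg_left ?_ (by linarith)
    have h3 : 0 ≤ m * M := mul_nonneg hm hM.le
    linarith
  · have h1 : 2 * M * M * (2 * D) * (6 * (C * (M / k * 1))) = 24 * (M ^ 2 * D) * (C * (M / k)) := by ring
    rw [h1]
    exact mul_nonneg (by linarith) hC0
  · have h1 : 2 * M * M * (2 * D) * (6 * (C * (M / k * 1))) = 24 * (M ^ 2 * D) * (C * (M / k)) := by ring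
    have h2 : 24 * M ^ 3 * D * (m + 1) = 24 * (M ^ 2 * D) * ((m + 1) * M) := by ring
    rw [h1, h2]
    exact mul_le_mul_of_nonneg_left hs (by linarith)

/-- The tail of the macro slab. -/
theorem tailm59 {M R n K L D : ℝ} (hM : 0 < M) (hR : 0 < R) (hn0 : 0 < n) (hK : 0 ≤ K) (hD : 0 ≤ D) :
    tail1 K (2 * M * M * (2 * D)) (Real.sqrt (R * (2 * M ^ 2) ^ 2 / n))⁻¹ (L * Real.sqrt (R * (2 * M ^ 2) ^ 2 / n))
      (R * (2 * M ^ 2) ^ 2 / n) ≤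
      4 * (2 * M * M * (2 * D)) * (2 * M ^ 2 * Real.sqrt (R / n)) * Real.exp (4 * K - L / 2) := by
  have hV : 0 < R * (2 * M ^ 2) ^ 2 / n := by positivity
  have h0 : 0 ≤ 2 * M * M * (2 * D) := by positivity
  exact (tl59 (K := K) (L := L) hV h0 hK le_rfl).trans_eq (by rw [sqV59 (by positivity : 0 < 2 * M ^ 2)])

/-- The arithmetic of the row. -/
theorem comb59 {a a4 M x x4 L W G M2 F1 M14 M21 Q F3 F4 n D cB c4 E t2 s1 s2 s3 s4 v v2 v3 : ℝ} (hM : 0 < M) (hx : 0 ≤ x)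
    (hx1 : x ≤ 1) (hy1 : x4 ≤ 1) (hn : 0 ≤ n) (hD : 0 ≤ D) (hB : 0 ≤ cB) (h4 : 0 ≤ c4) (hE : 0 ≤ E)
    (ha : a = L * (M * x)) (ha4 : a4 = L * (2 * M ^ 2 * x4)) (ht2 : t2 ≤ 8 * (2 * M * M * (2 * D)) * (M ^ 2 * x ^ 2) * E)
    (hs1 : s1 ≤ 4 * (8 * M ^ 3 * D * (n + 1)) * (M * x) * E) (hs2 : s2 ≤ 4 * (48 * M ^ 3 * D * (n + 1)) * (M * x) * E)
    (hs3 : s3 ≤ 4 * (24 * M ^ 3 * D * (n + 1)) * (M * x) * E) (hs4 : s4 ≤ 4 * (2 * M * M * (2 * D)) * (2 * M ^ 2 * x4) * E)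
    (hN : v ≤ (a * a * (2 * M * M * W) + cB * t2) + (a * (2 * M * G) + cB * s1) +
      (a * (2 * M * M * M2) + cB * s2) + (a * (M * F1) + cB * s3) + 6 * M * (2 * M * G) + v2 + 6 * M * M * F3)
    (hT : v2 ≤ M * (2 * M * M) * M14 + v3)
    (hQ : v3 ≤ a4 * (2 * M * M * W) + c4 * s4 + 0 + M * (2 * M * M) * (M21 + Q) + 2 * M ^ 2 * F4) :
    v ≤ (L ^ 2 * M ^ 2 * x ^ 2 + 2 * L * M ^ 2 * x4) * (2 * M * M) * W + (2 * L * M ^ 2 * x + 12 * M ^ 2) * G +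
      L * M * x * (2 * M * M) * M2 + M * (2 * M * M) * (M14 + M21) + M * (2 * M * M) * Q + L * M ^ 2 * x * F1 +
      6 * M ^ 2 * F3 + 2 * M ^ 2 * F4 + 352 * M ^ 4 * D * (n + 1) * cB * E + 32 * M ^ 4 * D * c4 * E := by
  subst ha
  subst ha4
  have hP : 0 ≤ M ^ 4 * D * E := by positivity
  have hx2 : x ^ 2 ≤ 1 := pow_le_one₀ hx hx1
  have e2 : cB * t2 ≤ cB * (32 * (M ^ 4 * D * E) * (n + 1)) := by
    refine mul_le_mul_of_nonneg_left (ht2.trans ?_) hB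
    have h1 : 8 * (2 * M * M * (2 * D)) * (M ^ 2 * x ^ 2) * E = 32 * (M ^ 4 * D * E) * x ^ 2 := by ring
    rw [h1]
    exact mul_le_mul_of_nonneg_left (by linarith) (by positivity)
  have e3 : cB * s1 ≤ cB * (32 * (M ^ 4 * D * E) * (n + 1)) := by
    refine mul_le_mul_of_nonneg_left (hs1.trans ?_) hB
    have h1 : 4 * (8 * M ^ 3 * D * (n + 1)) * (M * x) * E = 32 * (M ^ 4 * D * E) * (n + 1) * x := by ring
    rw [h1]
    exact mul_le_of_le_one_right (by positivity) hx1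
  have e4 : cB * s2 ≤ cB * (192 * (M ^ 4 * D * E) * (n + 1)) := by
    refine mul_le_mul_of_nonneg_left (hs2.trans ?_) hB
    have h1 : 4 * (48 * M ^ 3 * D * (n + 1)) * (M * x) * E = 192 * (M ^ 4 * D * E) * (n + 1) * x := by ring
    rw [h1]
    exact mul_le_of_le_one_right (by positivity) hx1
  have e5 : cB * s3 ≤ cB * (96 * (M ^ 4 * D * E) * (n + 1)) := by
    refine mul_le_mul_of_nonneg_left (hs3.trans ?_) hB
    have h1 : 4 * (24 * M ^ 3 * D * (n + 1)) * (M * x) * E = 96 * (M ^ 4 * D * E) * (n + 1) * x := by ring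
    rw [h1]
    exact mul_le_of_le_one_right (by positivity) hx1
  have e6 : c4 * s4 ≤ c4 * (32 * (M ^ 4 * D * E)) := by
    refine mul_le_mul_of_nonneg_left (hs4.trans ?_) h4
    have h1 : 4 * (2 * M * M * (2 * D)) * (2 * M ^ 2 * x4) * E = 32 * (M ^ 4 * D * E) * x4 := by ring
    rw [h1]
    exact mul_le_of_le_one_right (by positivity) hy1
  have e7 : (L ^ 2 * M ^ 2 * x ^ 2 + 2 * L * M ^ 2 * x4) * (2 * M * M) * W + (2 * L * M ^ 2 * x + 12 * M ^ 2) * G +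
      L * M * x * (2 * M * M) * M2 + M * (2 * M * M) * (M14 + M21) + M * (2 * M * M) * Q + L * M ^ 2 * x * F1 +
      6 * M ^ 2 * F3 + 2 * M ^ 2 * F4 + 352 * M ^ 4 * D * (n + 1) * cB * E + 32 * M ^ 4 * D * c4 * E =
      (L * (M * x) * (L * (M * x)) * (2 * M * M * W) + cB * (32 * (M ^ 4 * D * E) * (n + 1))) +
      (L * (M * x) * (2 * M * G) + cB * (32 * (M ^ 4 * D * E) * (n + 1))) +
      (L * (M * x) * (2 * M * M * M2) + cB * (192 * (M ^ 4 * D * E) * (n + 1))) +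
      (L * (M * x) * (M * F1) + cB * (96 * (M ^ 4 * D * E) * (n + 1))) + 6 * M * (2 * M * G) +
      (M * (2 * M * M) * M14 + (L * (2 * M ^ 2 * x4) * (2 * M * M * W) + c4 * (32 * (M ^ 4 * D * E)) + 0 +
        M * (2 * M * M) * (M21 + Q) + 2 * M ^ 2 * F4)) + 6 * M * M * F3 := by ring
  rw [e7]
  linarith

end num

section row

variable {μ : Measure ℝ} {s : ℝ} {N : ℕ} {δ B : ℝ} {b0 h b σ j e d y m0 m1 : ℕ} {J1 J2 J4 : Finset ℕ}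
  [Nonempty (Px (Pn N y))] {BB B4 : Type*} [Fintype BB] [DecidableEq BB] [Fintype B4] [DecidableEq B4] {c : ℕ} {D : ℝ} {f : Fam N}
  {χ : (Fin 3 → BB) → Pt → ℝ} {o : (Fin 3 → BB) → Px (Pn N y) → ℝ} {ow : Px (Pn N y) → ℝ} {R : ℝ}
  {χ4 : (Fin 3 → B4) → Pt → ℝ} {o4 : (Fin 3 → B4) → Px (Pn N y) → ℝ} {ow4 : Px (Pn N y) → ℝ} {R4 : ℝ}
  {bx : Px (Pn N y) → BB} {b4 : Px (Pn N y) → B4}

/-- **PART R OF ONE ROW AT FIXED SIGNS.** -/
theorem e2R_A59 [IsProbabilityMeasure μ] {ff ff' : ℝ → ℝ} (hd : DenLaw μ ff ff') {K θ0 : ℝ} (hs : SG μ (sc ff ff') K θ0)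
    (hB : 0 < B) (hf : Cls59 N c d D f) (X : RS59 N b0 h b σ j e d m0 m1 J1 J2 J4) (T : Tb N 3 bx (J1 ∪ J2) χ o ow R)
    (hbx : ∀ m ∈ J2, ∀ S S' : Px (Pn N y), pJ 0 m S = pJ 0 m S' → bx S = bx S') (T4 : Tb N 3 b4 J4 χ4 o4 ow4 R4) {n n4 : ℝ}
    (hR : 0 < R) (hRn : R ≤ n) (hn : 4 ≤ θ0 ^ 2 * (n * R)) (hR4 : 0 < R4) (hRn4 : R4 ≤ n4) (hn4 : 4 ≤ θ0 ^ 2 * (n4 * R4))
    (k1 : n ≤ J1.card) (k2 : n ≤ J2.card) (k4 : n4 ≤ J4.card) {L : ℝ} (hL : 0 ≤ L) (t : ℝ) (A : Finset ℕ) :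
    |∫ η, vR μ s N δ B b0 h b σ j e d f t y (η, A) ∂(law μ)| ≤
      (L ^ 2 * (B / 2) ^ 2 * (R / n) + 2 * L * (B / 2) ^ 2 * Real.sqrt (R4 / n4)) * (2 * (B / 2) * (B / 2)) *
        ∫ η, OW μ s N δ B b0 h b σ j e d f t y (η, A) ∂(law μ) +
      (2 * L * (B / 2) ^ 2 * Real.sqrt (R / n) + 12 * (B / 2) ^ 2) *
        ∫ η, OG μ s N δ B b0 h b σ j e d f t y m0 (η, A) ∂(law μ) +
      L * (B / 2) * Real.sqrt (R / n) * (2 * (B / 2) * (B / 2)) *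
        ∫ η, OM μ s N δ B b0 h b σ j e d f t y J2 2 1 (η, A) ∂(law μ) +
      B / 2 * (2 * (B / 2) * (B / 2)) * ∫ η, OM μ s N δ B b0 h b σ j e d f t y J1 16 20 (η, A) ∂(law μ) +
      B / 2 * (2 * (B / 2) * (B / 2)) * ∫ η, OQ μ s N δ B b0 h b σ j e d f t y J1 J4 (η, A) ∂(law μ) +
      L * (B / 2) ^ 2 * Real.sqrt (R / n) * ∫ η, OF μ s N δ B b0 h b σ j e d f t y bx o 1 (η, A) ∂(law μ) +
      6 * (B / 2) ^ 2 * ∫ η, OF μ s N δ B b0 h b σ j e d f t y bx o 3 (η, A) ∂(law μ) +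
      2 * (B / 2) ^ 2 * ∫ η, OF μ s N δ B b0 h b σ j e d f t y b4 o4 1 (η, A) ∂(law μ) +
      352 * (B / 2) ^ 4 * D * (N + 1) * (Fintype.card BB : ℝ) ^ 3 * Real.exp (4 * K - L / 2) +
      32 * (B / 2) ^ 4 * D * (Fintype.card B4 : ℝ) ^ 3 * Real.exp (4 * K - L / 2) := by
  have hθ0 : 0 < θ0 := hs.2.2.1
  have hK : 0 ≤ K := hs.2.1.le
  have hD : 0 ≤ D := (abs_nonneg _).trans (hf.bdd y (fun _ => 0, A) (Classical.ofNonempty : Px (Pn N y)))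
  have hM : 0 < B / 2 := by positivity
  have hM4 : 0 < B / 2 * B := by positivity
  have hn0 : 0 < n := hR.trans_le hRn
  have hn40 : 0 < n4 := hR4.trans_le hRn4
  have hV : 0 < R * (B / 2) ^ 2 / n := by positivity
  have hV4 : 0 < R4 * (B / 2 * B) ^ 2 / n4 := by positivity
  obtain ⟨p1, p1'⟩ := slab59 (θ0 := θ0) hM hR hn0 hn hθ0 k1
  obtain ⟨p2, p2'⟩ := slab59 (θ0 := θ0) hM hR hn0 hn hθ0 k2
  obtain ⟨p4, p4'⟩ := slab59 (θ0 := θ0) hM4 hR4 hn40 hn4 hθ0 k4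
  have p4'' : (Real.sqrt (R4 * (B / 2 * B) ^ 2 / n4))⁻¹ * (B / 2 * B / J4.card) ≤ θ0 := by
    have h0 : 0 ≤ (Real.sqrt (R4 * (B / 2 * B) ^ 2 / n4))⁻¹ * (B / 2 * B / J4.card) := by positivity
    have h1 : 2 * (Real.sqrt (R4 * (B / 2 * B) ^ 2 / n4))⁻¹ * (B / 2 * B / J4.card) =
      2 * ((Real.sqrt (R4 * (B / 2 * B) ^ 2 / n4))⁻¹ * (B / 2 * B / J4.card)) := by ring
    rw [h1] at p4
    linarith
  have hN := e2R_near59 (μ := μ) (s := s) (δ := δ) hd hs hB.le hf X T hbx (t0 := (Real.sqrt (R * (B / 2) ^ 2 / n))⁻¹)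
    (a := L * Real.sqrt (R * (B / 2) ^ 2 / n)) (V := R * (B / 2) ^ 2 / n) (inv_pos.2 (Real.sqrt_pos.2 hV))
    (mul_nonneg hL (Real.sqrt_nonneg _)) p1 p2 p1' p2' t A
  have hT := e2R_two59 (μ := μ) (s := s) (δ := δ) (y := y) hB.le hf X t A
  have hQ := e2R_mac59 (μ := μ) (s := s) (δ := δ) hd hs hB.le hf X T4 (t4 := (Real.sqrt (R4 * (B / 2 * B) ^ 2 / n4))⁻¹)
    (a4 := L * Real.sqrt (R4 * (B / 2 * B) ^ 2 / n4)) (V4 := R4 * (B / 2 * B) ^ 2 / n4) (inv_pos.2 (Real.sqrt_pos.2 hV4))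
    (mul_nonneg hL (Real.sqrt_nonneg _)) p4'' p4' t A
  have hc1 : (Fintype.card (Fin 3 → BB) : ℝ) = (Fintype.card BB : ℝ) ^ 3 := by
    rw [Fintype.card_fun, Fintype.card_fin]
    push_cast
    rfl
  have hc4 : (Fintype.card (Fin 3 → B4) : ℝ) = (Fintype.card B4 : ℝ) ^ 3 := by
    rw [Fintype.card_fun, Fintype.card_fin]
    push_cast
    rfl
  rw [hc1] at hN
  rw [hc4] at hQ
  have hB2 : B / 2 * B = 2 * (B / 2) ^ 2 := by ring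
  have hx1 : Real.sqrt (R / n) ≤ 1 := Real.sqrt_le_one.2 ((div_le_one hn0).2 hRn)
  have hy1 : Real.sqrt (R4 / n4) ≤ 1 := Real.sqrt_le_one.2 ((div_le_one hn40).2 hRn4)
  have hN0 : (0 : ℝ) ≤ N := Nat.cast_nonneg N
  have hc0 : (0 : ℝ) < J2.card := by exact_mod_cast X.n2.card_pos
  have hC0 : (0 : ℝ) ≤ (sS J2 N).card := Nat.cast_nonneg _
  obtain ⟨u1, u2, u3, u4⟩ := tails59 (L := L) hM hR hn0 hK hD hN0 hC0 hc0 (sl59 (N := N) X.n2 hM.le)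
  have u5 := tailm59 (L := L) hM hR4 hn40 hK hD
  have e16 : ∫ η, OM μ s N δ B b0 h b σ j e d f t y J1 16 20 (η, A) ∂(law μ) =
      ∫ η, OM μ s N δ B b0 h b σ j e d f t y J1 14 19 (η, A) ∂(law μ) +
        ∫ η, OM μ s N δ B b0 h b σ j e d f t y J1 2 1 (η, A) ∂(law μ) := by
    rw [← integral_add ((gd_OM59 (μ := μ) (s := s) (δ := δ) (y := y) hB.le hf b0 h b σ j e t J1 14 19).int (μ := μ) A)
      ((gd_OM59 (μ := μ) (s := s) (δ := δ) (y := y) hB.le hf b0 h b σ j e t J1 2 1).int (μ := μ) A)]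
    congr 1
    funext η
    unfold OM MicH14.G1
    ring
  have ha : L * Real.sqrt (R * (B / 2) ^ 2 / n) = L * (B / 2 * Real.sqrt (R / n)) := by rw [sqV59 hM]
  have ha4 : L * Real.sqrt (R4 * (2 * (B / 2) ^ 2) ^ 2 / n4) = L * (2 * (B / 2) ^ 2 * Real.sqrt (R4 / n4)) := by
    rw [sqV59 (by positivity : 0 < 2 * (B / 2) ^ 2)]
  rw [hB2] at hQ
  have hfin := comb59 (L := L) hM (Real.sqrt_nonneg (R / n)) hx1 hy1 hN0 hD (by positivity : (0 : ℝ) ≤ (Fintype.card BB : ℝ) ^ 3)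
    (by positivity : (0 : ℝ) ≤ (Fintype.card B4 : ℝ) ^ 3) (Real.exp_pos (4 * K - L / 2)).le ha ha4 u1 u2 u3 u4 u5 hN hT hQ
  rw [Real.sq_sqrt (by positivity : 0 ≤ R / n)] at hfin
  rw [e16]
  exact hfin

/-- **PART R OF ONE ROW, IN THE MEAN OVER THE ENVIRONMENT AND THE SIGNS.** -/
theorem e2R_P59 [IsProbabilityMeasure μ] {ff ff' : ℝ → ℝ} (hd : DenLaw μ ff ff') {K θ0 : ℝ} (hs : SG μ (sc ff ff') K θ0)
    (hB : 0 < B) (hf : Cls59 N c d D f) (X : RS59 N b0 h b σ j e d m0 m1 J1 J2 J4) (T : Tb N 3 bx (J1 ∪ J2) χ o ow R)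
    (hbx : ∀ m ∈ J2, ∀ S S' : Px (Pn N y), pJ 0 m S = pJ 0 m S' → bx S = bx S') (T4 : Tb N 3 b4 J4 χ4 o4 ow4 R4) {n n4 : ℝ}
    (hR : 0 < R) (hRn : R ≤ n) (hn : 4 ≤ θ0 ^ 2 * (n * R)) (hR4 : 0 < R4) (hRn4 : R4 ≤ n4) (hn4 : 4 ≤ θ0 ^ 2 * (n4 * R4))
    (k1 : n ≤ J1.card) (k2 : n ≤ J2.card) (k4 : n4 ≤ J4.card) {L : ℝ} (hL : 0 ≤ L) (t : ℝ) :
    |AvA N fun A => ∫ η, vR μ s N δ B b0 h b σ j e d f t y (η, A) ∂(law μ)| ≤
      (L ^ 2 * (B / 2) ^ 2 * (R / n) + 2 * L * (B / 2) ^ 2 * Real.sqrt (R4 / n4)) * (2 * (B / 2) * (B / 2)) *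
        ∫ ω, OW μ s N δ B b0 h b σ j e d f t y ω ∂(Pm μ N) +
      (2 * L * (B / 2) ^ 2 * Real.sqrt (R / n) + 12 * (B / 2) ^ 2) *
        ∫ ω, OG μ s N δ B b0 h b σ j e d f t y m0 ω ∂(Pm μ N) +
      L * (B / 2) * Real.sqrt (R / n) * (2 * (B / 2) * (B / 2)) *
        ∫ ω, OM μ s N δ B b0 h b σ j e d f t y J2 2 1 ω ∂(Pm μ N) +
      B / 2 * (2 * (B / 2) * (B / 2)) * ∫ ω, OM μ s N δ B b0 h b σ j e d f t y J1 16 20 ω ∂(Pm μ N) +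
      B / 2 * (2 * (B / 2) * (B / 2)) * ∫ ω, OQ μ s N δ B b0 h b σ j e d f t y J1 J4 ω ∂(Pm μ N) +
      L * (B / 2) ^ 2 * Real.sqrt (R / n) * ∫ ω, OF μ s N δ B b0 h b σ j e d f t y bx o 1 ω ∂(Pm μ N) +
      6 * (B / 2) ^ 2 * ∫ ω, OF μ s N δ B b0 h b σ j e d f t y bx o 3 ω ∂(Pm μ N) +
      2 * (B / 2) ^ 2 * ∫ ω, OF μ s N δ B b0 h b σ j e d f t y b4 o4 1 ω ∂(Pm μ N) +
      352 * (B / 2) ^ 4 * D * (N + 1) * (Fintype.card BB : ℝ) ^ 3 * Real.exp (4 * K - L / 2) +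
      32 * (B / 2) ^ 4 * D * (Fintype.card B4 : ℝ) ^ 3 * Real.exp (4 * K - L / 2) := by
  have g1 := gd_OW59 (μ := μ) (s := s) (δ := δ) (y := y) hB.le hf b0 h b σ j e t
  have g2 := gd_OG59 (μ := μ) (s := s) (δ := δ) (y := y) hB.le hf b0 h b σ j e t m0
  have g3 := gd_OM59 (μ := μ) (s := s) (δ := δ) (y := y) hB.le hf b0 h b σ j e t J2 2 1
  have g4 := gd_OM59 (μ := μ) (s := s) (δ := δ) (y := y) hB.le hf b0 h b σ j e t J1 16 20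
  have g5 := gd_OQ59 (μ := μ) (s := s) (δ := δ) (y := y) hB.le hf b0 h b σ j e t J1 J4
  have g6 := gd_OF59 (μ := μ) (s := s) (δ := δ) (y := y) hB.le hf b0 h b σ j e t bx T.o0 T.o1 (a := 1) zero_le_one
  have g7 := gd_OF59 (μ := μ) (s := s) (δ := δ) (y := y) hB.le hf b0 h b σ j e t bx T.o0 T.o1 (a := 3) (by norm_num)
  have g8 := gd_OF59 (μ := μ) (s := s) (δ := δ) (y := y) hB.le hf b0 h b σ j e t b4 T4.o0 T4.o1 (a := 1) zero_le_one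
  rw [g1.av, g2.av, g3.av, g4.av, g5.av, g6.av, g7.av, g8.av]
  rw [← AvA_const (N := N) (352 * (B / 2) ^ 4 * D * (N + 1) * (Fintype.card BB : ℝ) ^ 3 * Real.exp (4 * K - L / 2)),
    ← AvA_const (N := N) (32 * (B / 2) ^ 4 * D * (Fintype.card B4 : ℝ) ^ 3 * Real.exp (4 * K - L / 2))]
  simp only [← AvA_add, ← AvA_mul]
  exact abs_AvA_le fun A => e2R_A59 hd hs hB hf X T hbx T4 hR hRn hn hR4 hRn4 hn4 k1 k2 k4 hL t A

end row

end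

end Pool.Agent.W_7d29a1_C0.E2R59
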