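import Pool.Agent.W_7d29a1_C0.E2W43

/-!
CURV0 (MP_7d29a1_pr), leaf E2 (helper62): THE COEFFICIENTS OF PART R. `core62`: from `n ^ ι = z ≥ 64`, `B ≤ z`, `L = z`, the widths `ρ, ρ4 ≤ 1`
with the gains of `Bx43`, the far factors `φ ≤ z ^ 8 / E_b`, `φ4 ≤ z ^ 8 / E_r`: the squares of the coefficients of `decR43` and their size.
`coR62`: the same at the concrete frame, from `Bx43`.
-/

set_option autoImplicit false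
set_option linter.unusedSectionVars false
set_option linter.unusedVariables false

namespace Pool.Agent.W_7d29a1_C0.NumR62

open Finset Filter Topology MeasureTheory
open Pool.Agent.W_7d29a1_C0 Pool.Agent.W_7d29a1_H
open Pool.Agent.W_7d29a1_HS (wd)
open Pool.Agent.W_7d29a1_C0.Frm33 Pool.Agent.W_7d29a1_C0.EstC46 Pool.Agent.W_7d29a1_C0.E2W43

noncomputable section

/-- `n ^ (k ι) = (n ^ ι) ^ k`. -/
theorem pow62 {n ι : ℝ} (hn : 0 ≤ n) (k : ℕ) : n ^ ((k : ℝ) * ι) = (n ^ ι) ^ k := by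
  rw [mul_comm, Real.rpow_mul hn, Real.rpow_natCast]

/-- **THE COEFFICIENTS OF PART R** (`decR43`): `a1 .. a4` = own (two steps, macro step, far near, far macro), `A1`, `A2` = micro, `A3` = response. -/
structure Co62 (n ι B W V Eb Er a1 a2 a3 a4 A1 A2 A3 : ℝ) : Prop where
  p1 : 0 ≤ a1
  p2 : 0 ≤ a2
  p3 : 0 ≤ a3
  p4 : 0 ≤ a4
  q1 : 0 ≤ A1
  q2 : 0 ≤ A2
  q3 : 0 ≤ A3
  c1 : (a1 * n ^ ι) ^ 2 ≤ n ^ (40 * ι) * W ^ 2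
  c2 : (a2 * n ^ ι) ^ 2 ≤ n ^ (40 * ι) * V
  c3 : (a3 * n ^ ι) ^ 2 ≤ n ^ (40 * ι) * (1 / Eb ^ 2)
  c4 : (a4 * n ^ ι) ^ 2 ≤ n ^ (40 * ι) * (1 / Er ^ 2)
  c5 : (A1 * 2 * B * n ^ ι) ^ 2 ≤ n ^ (40 * ι)
  c6 : (A1 * 1 * B * n ^ ι) ^ 2 ≤ n ^ (40 * ι)
  c7 : (A2 * 16 * B * n ^ ι) ^ 2 ≤ n ^ (40 * ι)
  c8 : (A2 * 20 * B * n ^ ι) ^ 2 ≤ n ^ (40 * ι)
  c9 : (A2 * B * n ^ ι) ^ 2 ≤ n ^ (40 * ι)
  c10 : (A3 * 2 * n ^ ι) ^ 2 ≤ n ^ (40 * ι)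
  /-- The factor of `er96` in `decR43`. -/
  s1 : a1 + a2 + a3 + a4 + A1 * (2 + 1) + A2 * (16 + 20 + 1) + A3 ≤ n ^ (20 * ι)
  /-- The factor of `eT` in `decR43`. -/
  s2 : (a1 + a2 + a3 + a4 + A1 * (2 + 1) * B + A2 * (16 + 20 + 1) * B + 2 * A3) * n ^ ι ≤ n ^ (20 * ι)

/-- The square of a coefficient. -/
theorem sq62 {z x : ℝ} (hz : 1 ≤ z) {k : ℕ} (hk : k ≤ 20) (h0 : 0 ≤ x) (h : x ≤ z ^ k) : x ^ 2 ≤ z ^ 40 := by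
  calc x ^ 2 ≤ (z ^ k) ^ 2 := pow_le_pow_left₀ h0 h 2
    _ = z ^ (k * 2) := (pow_mul _ _ _).symm
    _ ≤ z ^ 40 := pow_le_pow_right₀ hz (by omega)

/-- The square of a coefficient with a gain. -/
theorem sqG62 {z x G : ℝ} (hz : 1 ≤ z) {k : ℕ} (hk : k ≤ 20) (h0 : 0 ≤ x) (hG : 0 ≤ G) (h : x ≤ z ^ k * G) :
    x ^ 2 ≤ z ^ 40 * G ^ 2 := by
  calc x ^ 2 ≤ (z ^ k * G) ^ 2 := pow_le_pow_left₀ h0 h 2
    _ = z ^ (k * 2) * G ^ 2 := by rw [mul_pow, ← pow_mul]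
    _ ≤ z ^ 40 * G ^ 2 := mul_le_mul_of_nonneg_right (pow_le_pow_right₀ hz (by omega)) (sq_nonneg _)

section core

variable {z B ρ ρ4 φ φ4 W V Eb Er : ℝ}

/-- Two box steps of scale `b`: `L ^ 2 M ^ 2 ρ ^ 2 K0`. -/
theorem k1_62 (hz : 1 ≤ z) (hB : 0 ≤ B) (hBz : B ≤ z) (gn : (B * z * ρ) ^ 2 ≤ z ^ 9 * W) :
    z ^ 2 * (B / 2) ^ 2 * ρ ^ 2 * (2 * (B / 2) * (B / 2)) ≤ z ^ 11 * W ∧ 0 ≤ W := by
  have hz0 : 0 < z := by linarith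
  have h0 : 0 ≤ z ^ 9 * W := (sq_nonneg _).trans gn
  have hW : 0 ≤ W := by
    by_contra hW
    have h1 : z ^ 9 * W < 0 := mul_neg_of_pos_of_neg (by positivity) (not_le.1 hW)
    linarith
  refine ⟨?_, hW⟩
  have hB2 : B ^ 2 / 8 ≤ z ^ 2 := by
    have := pow_le_pow_left₀ hB hBz 2
    have := sq_nonneg B
    linarith
  calc z ^ 2 * (B / 2) ^ 2 * ρ ^ 2 * (2 * (B / 2) * (B / 2)) = (B * z * ρ) ^ 2 * (B ^ 2 / 8) := by ring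
    _ ≤ (z ^ 9 * W) * z ^ 2 := mul_le_mul gn hB2 (by positivity) h0
    _ = z ^ 11 * W := by ring

/-- One box step of scale `r`: `(2 L M ^ 2 ρ4 K0) ^ 2`. -/
theorem k2_62 (hz : 1 ≤ z) (hB : 0 ≤ B) (hBz : B ≤ z) (gm : (B * z * ρ4) ^ 2 ≤ z ^ 9 * V) :
    (2 * z * (B / 2) ^ 2 * ρ4 * (2 * (B / 2) * (B / 2)) * z) ^ 2 ≤ z ^ 17 * V := by
  have hz0 : 0 < z := by linarith
  have h0 : 0 ≤ z ^ 9 * V := (sq_nonneg _).trans gm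
  have hB6 : B ^ 6 / 16 * z ^ 2 ≤ z ^ 8 := by
    have h1 := pow_le_pow_left₀ hB hBz 6
    have h2 : 0 ≤ B ^ 6 := by positivity
    calc B ^ 6 / 16 * z ^ 2 ≤ z ^ 6 * z ^ 2 := mul_le_mul_of_nonneg_right (by linarith) (by positivity)
      _ = z ^ 8 := by ring
  calc (2 * z * (B / 2) ^ 2 * ρ4 * (2 * (B / 2) * (B / 2)) * z) ^ 2 = (B * z * ρ4) ^ 2 * (B ^ 6 / 16 * z ^ 2) := by ring
    _ ≤ (z ^ 9 * V) * z ^ 8 := mul_le_mul gm hB6 (by positivity) h0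
    _ = z ^ 17 * V := by ring

/-- **THE COEFFICIENTS, the arithmetic.** -/
theorem core62 {n ι : ℝ} (hn : 1 ≤ n) (hz : n ^ ι = z) (h64 : 64 ≤ z) (hB : 0 ≤ B) (hBz : B ≤ z) (hρ0 : 0 ≤ ρ) (hρ1 : ρ ≤ 1)
    (hρ40 : 0 ≤ ρ4) (hρ41 : ρ4 ≤ 1) (gn : (B * z * ρ) ^ 2 ≤ z ^ 9 * W) (gm : (B * z * ρ4) ^ 2 ≤ z ^ 9 * V) (hEb : 1 ≤ Eb)
    (hEr : 1 ≤ Er) (hφ0 : 0 ≤ φ) (hφ : φ ≤ z ^ 8 / Eb) (hφ40 : 0 ≤ φ4) (hφ4 : φ4 ≤ z ^ 8 / Er) :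
    Co62 n ι B W V Eb Er (z ^ 2 * (B / 2) ^ 2 * ρ ^ 2 * (2 * (B / 2) * (B / 2))) (2 * z * (B / 2) ^ 2 * ρ4 * (2 * (B / 2) * (B / 2)))
      (z * (B / 2) ^ 2 * ρ * φ + 6 * (B / 2) ^ 2 * φ) (2 * (B / 2) ^ 2 * φ4) (z * (B / 2) * ρ * (2 * (B / 2) * (B / 2)))
      (B / 2 * (2 * (B / 2) * (B / 2))) ((2 * z * (B / 2) ^ 2 * ρ + 12 * (B / 2) ^ 2) * (B / 2 * (B / 2))) := by
  have hz1 : 1 ≤ z := by linarith
  have hz0 : 0 < z := by linarith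
  have e40 : n ^ (40 * ι) = z ^ 40 := by
    rw [← hz, ← pow62 (by linarith) 40]
    norm_num
  have e20 : n ^ (20 * ι) = z ^ 20 := by
    rw [← hz, ← pow62 (by linarith) 20]
    norm_num
  obtain ⟨k1, hW⟩ := k1_62 hz1 hB hBz gn
  have k2 := k2_62 hz1 hB hBz gm
  -- the powers of `B`
  have B2 : B ^ 2 ≤ z ^ 2 := pow_le_pow_left₀ hB hBz 2
  have B3 : B ^ 3 ≤ z ^ 3 := pow_le_pow_left₀ hB hBz 3
  have B4 : B ^ 4 ≤ z ^ 4 := pow_le_pow_left₀ hB hBz 4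
  have up : ∀ {k l : ℕ}, k ≤ l → z ^ k ≤ z ^ l := fun h => pow_le_pow_right₀ hz1 h
  have hφb : φ ≤ z ^ 8 := hφ.trans (div_le_self (by positivity) hEb)
  have hφr : φ4 ≤ z ^ 8 := hφ4.trans (div_le_self (by positivity) hEr)
  -- sizes
  have r2 : ρ ^ 2 ≤ 1 := pow_le_one₀ hρ0 hρ1
  have t1 : z ^ 2 * (B / 2) ^ 2 * ρ ^ 2 * (2 * (B / 2) * (B / 2)) ≤ z ^ 6 := by
    calc z ^ 2 * (B / 2) ^ 2 * ρ ^ 2 * (2 * (B / 2) * (B / 2)) = z ^ 2 * B ^ 4 * ρ ^ 2 / 8 := by ring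
      _ ≤ z ^ 2 * z ^ 4 * 1 / 8 := by gcongr
      _ ≤ z ^ 6 := by
          have : 0 ≤ z ^ 6 := by positivity
          have e : z ^ 2 * z ^ 4 * 1 / 8 = z ^ 6 / 8 := by ring
          linarith
  have t2 : 2 * z * (B / 2) ^ 2 * ρ4 * (2 * (B / 2) * (B / 2)) ≤ z ^ 5 := by
    calc 2 * z * (B / 2) ^ 2 * ρ4 * (2 * (B / 2) * (B / 2)) = z * B ^ 4 * ρ4 / 4 := by ring
      _ ≤ z * z ^ 4 * 1 / 4 := by gcongr
      _ ≤ z ^ 5 := by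
          have : 0 ≤ z ^ 5 := by positivity
          have e : z * z ^ 4 * 1 / 4 = z ^ 5 / 4 := by ring
          linarith
  have z12 : z ^ 2 * 64 ≤ z ^ 3 := by
    calc z ^ 2 * 64 ≤ z ^ 2 * z := mul_le_mul_of_nonneg_left h64 (by positivity)
      _ = z ^ 3 := by ring
  have tt : z * (B / 2) ^ 2 * ρ + 6 * (B / 2) ^ 2 ≤ z ^ 3 := by
    have h1 : z * (B / 2) ^ 2 * ρ ≤ z ^ 3 / 4 := by
      calc z * (B / 2) ^ 2 * ρ = z * B ^ 2 * ρ / 4 := by ring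
        _ ≤ z * z ^ 2 * 1 / 4 := by gcongr
        _ = z ^ 3 / 4 := by ring
    have h2 : 6 * (B / 2) ^ 2 ≤ z ^ 3 / 4 := by
      calc 6 * (B / 2) ^ 2 = B ^ 2 * 6 / 4 := by ring
        _ ≤ z ^ 2 * 64 / 4 := by
            have := sq_nonneg B
            linarith
        _ ≤ z ^ 3 / 4 := by linarith
    have : 0 ≤ z ^ 3 := by positivity
    linarith
  have f3 : z * (B / 2) ^ 2 * ρ * φ + 6 * (B / 2) ^ 2 * φ = (z * (B / 2) ^ 2 * ρ + 6 * (B / 2) ^ 2) * φ := by ring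
  have t3 : z * (B / 2) ^ 2 * ρ * φ + 6 * (B / 2) ^ 2 * φ ≤ z ^ 11 := by
    rw [f3]
    calc _ ≤ z ^ 3 * z ^ 8 := mul_le_mul tt hφb hφ0 (by positivity)
      _ = z ^ 11 := by ring
  have t3G : z * (B / 2) ^ 2 * ρ * φ + 6 * (B / 2) ^ 2 * φ ≤ z ^ 11 * (1 / Eb) := by
    rw [f3]
    calc _ ≤ z ^ 3 * (z ^ 8 / Eb) := mul_le_mul tt hφ hφ0 (by positivity)
      _ = z ^ 11 * (1 / Eb) := by ring
  have t4' : 2 * (B / 2) ^ 2 ≤ z ^ 2 := by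
    have := sq_nonneg B
    have e : 2 * (B / 2) ^ 2 = B ^ 2 / 2 := by ring
    linarith
  have t4 : 2 * (B / 2) ^ 2 * φ4 ≤ z ^ 10 := by
    calc _ ≤ z ^ 2 * z ^ 8 := mul_le_mul t4' hφr hφ40 (by positivity)
      _ = z ^ 10 := by ring
  have t4G : 2 * (B / 2) ^ 2 * φ4 ≤ z ^ 10 * (1 / Er) := by
    calc _ ≤ z ^ 2 * (z ^ 8 / Er) := mul_le_mul t4' hφ4 hφ40 (by positivity)
      _ = z ^ 10 * (1 / Er) := by ring
  have t5 : z * (B / 2) * ρ * (2 * (B / 2) * (B / 2)) ≤ z ^ 4 / 4 := by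
    calc z * (B / 2) * ρ * (2 * (B / 2) * (B / 2)) = z * B ^ 3 * ρ / 4 := by ring
      _ ≤ z * z ^ 3 * 1 / 4 := by gcongr
      _ = z ^ 4 / 4 := by ring
  have t6 : B / 2 * (2 * (B / 2) * (B / 2)) ≤ z ^ 3 / 4 := by
    calc B / 2 * (2 * (B / 2) * (B / 2)) = B ^ 3 / 4 := by ring
      _ ≤ z ^ 3 / 4 := by linarith
  have t7 : (2 * z * (B / 2) ^ 2 * ρ + 12 * (B / 2) ^ 2) * (B / 2 * (B / 2)) ≤ z ^ 5 := by
    calc (2 * z * (B / 2) ^ 2 * ρ + 12 * (B / 2) ^ 2) * (B / 2 * (B / 2)) =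
          (z * (B / 2) ^ 2 * ρ + 6 * (B / 2) ^ 2) * (B ^ 2 / 2) := by ring
      _ ≤ z ^ 3 * z ^ 2 := mul_le_mul tt (by have := sq_nonneg B; linarith) (by positivity) (by positivity)
      _ = z ^ 5 := by ring
  have p1 : 0 ≤ z ^ 2 * (B / 2) ^ 2 * ρ ^ 2 * (2 * (B / 2) * (B / 2)) := by positivity
  have p2 : 0 ≤ 2 * z * (B / 2) ^ 2 * ρ4 * (2 * (B / 2) * (B / 2)) := by positivity
  have p3 : 0 ≤ z * (B / 2) ^ 2 * ρ * φ + 6 * (B / 2) ^ 2 * φ := by positivity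
  have p4 : 0 ≤ 2 * (B / 2) ^ 2 * φ4 := by positivity
  have p5 : 0 ≤ z * (B / 2) * ρ * (2 * (B / 2) * (B / 2)) := by positivity
  have p6 : 0 ≤ B / 2 * (2 * (B / 2) * (B / 2)) := by positivity
  have p7 : 0 ≤ (2 * z * (B / 2) ^ 2 * ρ + 12 * (B / 2) ^ 2) * (B / 2 * (B / 2)) := by positivity
  obtain ⟨a1, ha1⟩ : ∃ a1, a1 = z ^ 2 * (B / 2) ^ 2 * ρ ^ 2 * (2 * (B / 2) * (B / 2)) := ⟨_, rfl⟩
  obtain ⟨a2, ha2⟩ : ∃ a2, a2 = 2 * z * (B / 2) ^ 2 * ρ4 * (2 * (B / 2) * (B / 2)) := ⟨_, rfl⟩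
  obtain ⟨a3, ha3⟩ : ∃ a3, a3 = z * (B / 2) ^ 2 * ρ * φ + 6 * (B / 2) ^ 2 * φ := ⟨_, rfl⟩
  obtain ⟨a4, ha4⟩ : ∃ a4, a4 = 2 * (B / 2) ^ 2 * φ4 := ⟨_, rfl⟩
  obtain ⟨A1, hA1⟩ : ∃ A1, A1 = z * (B / 2) * ρ * (2 * (B / 2) * (B / 2)) := ⟨_, rfl⟩
  obtain ⟨A2, hA2⟩ : ∃ A2, A2 = B / 2 * (2 * (B / 2) * (B / 2)) := ⟨_, rfl⟩
  obtain ⟨A3, hA3⟩ : ∃ A3, A3 = (2 * z * (B / 2) ^ 2 * ρ + 12 * (B / 2) ^ 2) * (B / 2 * (B / 2)) := ⟨_, rfl⟩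
  rw [← ha1] at k1 t1 p1 ⊢
  rw [← ha2] at k2 t2 p2 ⊢
  rw [← ha3] at t3 t3G p3 ⊢
  rw [← ha4] at t4 t4G p4 ⊢
  rw [← hA1] at t5 p5 ⊢
  rw [← hA2] at t6 p6 ⊢
  rw [← hA3] at t7 p7 ⊢
  clear ha1 ha2 ha3 ha4 hA1 hA2 hA3 f3 tt t4' r2
  have mz : ∀ {x : ℝ} {k : ℕ}, x ≤ z ^ k → x * z ≤ z ^ (k + 1) := fun {x k} h => by
    rw [pow_succ]
    exact mul_le_mul_of_nonneg_right h hz0.le
  have u5 : A1 * 3 ≤ z ^ 4 := by linarith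
  have u5B : A1 * 3 * B ≤ z ^ 5 := by
    calc A1 * 3 * B ≤ z ^ 4 * z := mul_le_mul u5 hBz hB (by positivity)
      _ = z ^ 5 := by ring
  have u6 : A2 * 37 ≤ z ^ 4 := by
    calc A2 * 37 ≤ z ^ 3 / 4 * 37 := mul_le_mul_of_nonneg_right t6 (by norm_num)
      _ ≤ z ^ 3 * 64 := by
          have : 0 ≤ z ^ 3 := by positivity
          linarith
      _ ≤ z ^ 3 * z := mul_le_mul_of_nonneg_left h64 (by positivity)
      _ = z ^ 4 := by ring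
  have u6B : A2 * 37 * B ≤ z ^ 5 := by
    calc A2 * 37 * B ≤ z ^ 4 * z := mul_le_mul u6 hBz hB (by positivity)
      _ = z ^ 5 := by ring
  have AB1 : 0 ≤ A1 * B := mul_nonneg p5 hB
  have AB2 : 0 ≤ A2 * B := mul_nonneg p6 hB
  have sumle : a1 + a2 + a3 + a4 + A1 * 3 * B + A2 * 37 * B + 2 * A3 ≤ z ^ 12 := by
    have l1 := up (show 6 ≤ 11 by norm_num)
    have l2 := up (show 5 ≤ 11 by norm_num)
    have l3 := up (show 10 ≤ 11 by norm_num)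
    have l4 : z ^ 11 * 64 ≤ z ^ 12 := by
      calc z ^ 11 * 64 ≤ z ^ 11 * z := mul_le_mul_of_nonneg_left h64 (by positivity)
        _ = z ^ 12 := by ring
    have : 0 ≤ z ^ 11 := by positivity
    linarith
  have sumle' : a1 + a2 + a3 + a4 + A1 * (2 + 1) + A2 * (16 + 20 + 1) + A3 ≤ z ^ 12 := by
    have l1 := up (show 6 ≤ 11 by norm_num)
    have l2 := up (show 5 ≤ 11 by norm_num)
    have l3 := up (show 10 ≤ 11 by norm_num)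
    have l5 := up (show 4 ≤ 11 by norm_num)
    have l4 : z ^ 11 * 64 ≤ z ^ 12 := by
      calc z ^ 11 * 64 ≤ z ^ 11 * z := mul_le_mul_of_nonneg_left h64 (by positivity)
        _ = z ^ 12 := by ring
    have : 0 ≤ z ^ 11 := by positivity
    linarith
  refine ⟨p1, p2, p3, p4, p5, p6, p7, ?_, ?_, ?_, ?_, ?_, ?_, ?_, ?_, ?_, ?_, ?_, ?_⟩
  · rw [e40, hz]
    refine sqG62 hz1 (k := 12) (by norm_num) (mul_nonneg p1 hz0.le) hW ?_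
    calc a1 * z ≤ z ^ 11 * W * z := mul_le_mul_of_nonneg_right k1 hz0.le
      _ = z ^ 12 * W := by ring
  · rw [e40, hz]
    have hV : 0 ≤ z ^ 9 * V := (sq_nonneg _).trans gm
    have hV0 : 0 ≤ V := by
      by_contra hV1
      have h1 : z ^ 9 * V < 0 := mul_neg_of_pos_of_neg (by positivity) (not_le.1 hV1)
      linarith
    exact k2.trans (mul_le_mul_of_nonneg_right (up (by norm_num)) hV0)
  · rw [e40, hz]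
    have h1 := sqG62 hz1 (k := 12) (by norm_num) (mul_nonneg p3 hz0.le) (G := 1 / Eb) (by positivity) (x := a3 * z) (by
      calc a3 * z ≤ z ^ 11 * (1 / Eb) * z := mul_le_mul_of_nonneg_right t3G hz0.le
        _ = z ^ 12 * (1 / Eb) := by ring)
    rwa [div_pow, one_pow] at h1
  · rw [e40, hz]
    have h1 := sqG62 hz1 (k := 11) (by norm_num) (mul_nonneg p4 hz0.le) (G := 1 / Er) (by positivity) (x := a4 * z) (by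
      calc a4 * z ≤ z ^ 10 * (1 / Er) * z := mul_le_mul_of_nonneg_right t4G hz0.le
        _ = z ^ 11 * (1 / Er) := by ring)
    rwa [div_pow, one_pow] at h1
  · rw [e40, hz]
    exact sq62 hz1 (k := 6) (by norm_num) (by positivity) (mz (by linarith))
  · rw [e40, hz]
    exact sq62 hz1 (k := 6) (by norm_num) (by positivity) (mz (by linarith))
  · rw [e40, hz]
    exact sq62 hz1 (k := 6) (by norm_num) (by positivity) (mz (by linarith))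
  · rw [e40, hz]
    exact sq62 hz1 (k := 6) (by norm_num) (by positivity) (mz (by linarith))
  · rw [e40, hz]
    exact sq62 hz1 (k := 6) (by norm_num) (by positivity) (mz (by linarith))
  · rw [e40, hz]
    refine sq62 hz1 (k := 7) (by norm_num) (by positivity) (mz ?_)
    calc A3 * 2 ≤ z ^ 5 * 64 := mul_le_mul t7 (by norm_num) (by norm_num) (by positivity)
      _ ≤ z ^ 5 * z := mul_le_mul_of_nonneg_left h64 (by positivity)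
      _ = z ^ 6 := by ring
  · rw [e20]
    exact sumle'.trans (up (by norm_num))
  · rw [e20, hz]
    refine (mz (k := 12) ?_).trans (up (by norm_num))
    refine le_trans (le_of_eq ?_) sumle
    ring

end core

/-! ### At the concrete frame -/

variable {μ : Measure ℝ} {s : ℝ}

/-- **THE COEFFICIENTS OF PART R AT THE FRAME** (`M = B / 2`, `L = n ^ ι`, `K0 = 2 M M`). -/
theorem coR62 {K : ℕ} {θ0 K0 ι β : ℝ} {m p q : ℕ} (X : Bx43 μ s K θ0 K0 ι β m p q) (hβ : β ≤ ι)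
    (h64 : 64 ≤ ((2 ^ m : ℕ) : ℝ) ^ ι) {φ φ4 Eb Er : ℝ} (hEb : 1 ≤ Eb) (hEr : 1 ≤ Er) (hφ0 : 0 ≤ φ)
    (hφ : φ ≤ ((2 ^ m : ℕ) : ℝ) ^ (8 * ι) / Eb) (hφ40 : 0 ≤ φ4) (hφ4 : φ4 ≤ ((2 ^ m : ℕ) : ℝ) ^ (8 * ι) / Er) {ρ ρ4 z B : ℝ}
    (hz : ((2 ^ m : ℕ) : ℝ) ^ ι = z) (hB : B33 β m = B)
    (hρ : √(21 * rW43 μ s (L33 K m) (ι / K) K0 (2 * 2 ^ p) / ((2 ^ p / 8 : ℕ) : ℝ)) = ρ)
    (hρ4 : √(21 * rW43 μ s (L33 K m) (ι / K) K0 (2 ^ q) / gl46 ι m q) = ρ4) :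
    Co62 ((2 ^ m : ℕ) : ℝ) ι B (wd μ s (2 ^ p) / ((2 ^ p : ℕ) : ℝ)) (wd μ s (2 ^ q) / ((2 ^ q : ℕ) : ℝ)) Eb Er
      (z ^ 2 * (B / 2) ^ 2 * ρ ^ 2 * (2 * (B / 2) * (B / 2))) (2 * z * (B / 2) ^ 2 * ρ4 * (2 * (B / 2) * (B / 2)))
      (z * (B / 2) ^ 2 * ρ * φ + 6 * (B / 2) ^ 2 * φ) (2 * (B / 2) ^ 2 * φ4) (z * (B / 2) * ρ * (2 * (B / 2) * (B / 2)))
      (B / 2 * (2 * (B / 2) * (B / 2))) ((2 * z * (B / 2) ^ 2 * ρ + 12 * (B / 2) ^ 2) * (B / 2 * (B / 2))) := by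
  have hn : (1 : ℝ) ≤ ((2 ^ m : ℕ) : ℝ) := by exact_mod_cast Nat.one_le_two_pow
  have hn0 : (0 : ℝ) ≤ ((2 ^ m : ℕ) : ℝ) := by linarith
  have e8 : ((2 ^ m : ℕ) : ℝ) ^ (8 * ι) = z ^ 8 := by
    rw [← hz, ← pow62 hn0 8]
    norm_num
  have e9 : ((2 ^ m : ℕ) : ℝ) ^ (9 * ι) = z ^ 9 := by
    rw [← hz, ← pow62 hn0 9]
    norm_num
  have hB0 : 0 ≤ B := by
    rw [← hB]
    unfold B33
    exact Real.rpow_nonneg hn0 _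
  have hBz : B ≤ z := by
    rw [← hB, ← hz]
    unfold B33
    exact Real.rpow_le_rpow_of_exponent_le hn hβ
  have gn := X.gn
  have gm := X.gm
  rw [hB, hz, hρ, e9] at gn
  rw [hB, hz, hρ4, e9] at gm
  rw [e8] at hφ hφ4
  rw [hz] at h64
  have one : ∀ {x : ℝ} {k : ℕ}, 1 ≤ x → 21 * x ≤ k → √(21 * x / (k : ℝ)) ≤ 1 := fun {x k} h1 h2 => by
    rw [Real.sqrt_le_one]
    have hk : (0 : ℝ) < k := by linarith
    rw [div_le_one hk]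
    exact h2
  refine core62 hn hz h64 hB0 hBz (hρ ▸ Real.sqrt_nonneg _) (hρ ▸ one X.near.one X.near.le) (hρ4 ▸ Real.sqrt_nonneg _)
    (hρ4 ▸ one X.mac.one X.mac.le) gn gm hEb hEr hφ0 hφ hφ40 hφ4

end

end Pool.Agent.W_7d29a1_C0.NumR62
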