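import Pool.Agent.W_7d29a1_C0.E2FS43
import Pool.Agent.W_7d29a1_C0.E2R59B
import Pool.Agent.W_7d29a1_C0.NumR62

/-!
MP_7d29a1_pr, [CURV0] (helper43), section E2: PART R OF ONE ROW AT THE CONCRETE FRAME. `arith43`: the arithmetic of the row; `row43`: the
bound of helper59 with the boxes of `Bx43` and the far lines paid, in the form of `decR39`; `num43`: the errors.
-/

set_option autoImplicit false
set_option linter.unusedSectionVars false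
set_option linter.unusedVariables false

namespace Pool.Agent.W_7d29a1_C0.E2AR43

open Finset MeasureTheory Filter Topology
open Pool.Agent.W_7d29a1_F Pool.Agent.W_7d29a1_X
open Pool.Agent.W_7d29a1_H (sl EE)
open Pool.Agent.W_7d29a1_HS (In wd)
open Pool.Agent.W_7d29a1_HZ (wd' EE')
open Pool.Agent.W_7d29a1_C0 Pool.Agent.W_7d29a1_C0.Mod92 Pool.Agent.W_7d29a1_C0.Swap57 Pool.Agent.W_7d29a1_C0.NM82
open Pool.Agent.W_7d29a1_C0.Asm96 Pool.Agent.W_7d29a1_C0.EstC46 Pool.Agent.W_7d29a1_C0.Frm33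
open Pool.Agent.W_7d29a1_C0.H32
open Pool.Agent.W_7d29a1_C0.E2G43 Pool.Agent.W_7d29a1_C0.E2K43 Pool.Agent.W_7d29a1_C0.E2W43 Pool.Agent.W_7d29a1_C0.E2A43
open Pool.Agent.W_7d29a1_C0.E2FR43 Pool.Agent.W_7d29a1_C0.E2FS43 Pool.Agent.W_7d29a1_C0.E2D96 Pool.Agent.W_7d29a1_C0.E2J43
open Pool.Agent.W_7d29a1_C0.E1M82 (AvA)
open Pool.Agent.W_7d29a1_C0.E2Q59 (vR)
open Pool.Agent.W_7d29a1_C0.E2R59 (e2R_P59)
open Pool.Agent.W_7d29a1_C0.MicE14 (mi rh rh_nonneg)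
open Pool.W7d29a1.C0 Pool.W7d29a1.C0.VT31

noncomputable section

/-- The arithmetic of the row. -/
theorem arith43 {v M z ρ ρ4 Rn W G1 G2 T mD F1 F3 F4 K0 φb φr D ε E1 E2 : ℝ} (hM : 0 ≤ M) (hz : 0 ≤ z) (hρ : 0 ≤ ρ) (hW : 0 ≤ W)
    (hφb : 0 ≤ φb) (hK0 : 0 ≤ K0) (hRn : Rn = ρ ^ 2)
    (hv : v ≤ (z ^ 2 * M ^ 2 * Rn + 2 * z * M ^ 2 * ρ4) * K0 * W + (2 * z * M ^ 2 * ρ + 12 * M ^ 2) * (M * M * mD) +
      z * M * ρ * K0 * G2 + M * K0 * G1 + M * K0 * T + z * M ^ 2 * ρ * F1 + 6 * M ^ 2 * F3 + 2 * M ^ 2 * F4 + E1 + E2)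
    (h1 : F1 ≤ K0 * (3 * 1 * φb * W + 2 * D * ((3 + 15 * 1) * ε))) (h3 : F3 ≤ K0 * (3 * 3 * φb * W + 2 * D * ((3 + 15 * 3) * ε)))
    (h4 : F4 ≤ K0 * (3 * 1 * φr * W + 2 * D * ((3 + 15 * 1) * ε))) :
    v ≤ (z ^ 2 * M ^ 2 * ρ ^ 2 * K0 + 2 * z * M ^ 2 * ρ4 * K0 + (z * M ^ 2 * ρ * (9 * K0 * φb) + 6 * M ^ 2 * (9 * K0 * φb)) +
        2 * M ^ 2 * (3 * K0 * φr)) * W + z * M * ρ * K0 * G2 + M * K0 * (G1 + T) + (2 * z * M ^ 2 * ρ + 12 * M ^ 2) * (M * M) * mD +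
      (z * M ^ 2 * ρ * (K0 * (36 * D * ε)) + 6 * M ^ 2 * (K0 * (96 * D * ε)) + 2 * M ^ 2 * (K0 * (36 * D * ε)) + E1 + E2) := by
  subst hRn
  have k1 := mul_le_mul_of_nonneg_left h1 (show 0 ≤ z * M ^ 2 * ρ by positivity)
  have k3 := mul_le_mul_of_nonneg_left h3 (show 0 ≤ 6 * M ^ 2 by positivity)
  have k4 := mul_le_mul_of_nonneg_left h4 (show 0 ≤ 2 * M ^ 2 by positivity)
  have k5 : 0 ≤ z * M ^ 2 * ρ * (K0 * φb * W) := by positivity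
  have e1 : z * M ^ 2 * ρ * (K0 * (3 * 1 * φb * W + 2 * D * ((3 + 15 * 1) * ε))) + 6 * (z * M ^ 2 * ρ * (K0 * φb * W)) =
      z * M ^ 2 * ρ * (9 * K0 * φb) * W + z * M ^ 2 * ρ * (K0 * (36 * D * ε)) := by ring
  have e3 : 6 * M ^ 2 * (K0 * (3 * 3 * φb * W + 2 * D * ((3 + 15 * 3) * ε))) =
      6 * M ^ 2 * (9 * K0 * φb) * W + 6 * M ^ 2 * (K0 * (96 * D * ε)) := by ring
  have e4 : 2 * M ^ 2 * (K0 * (3 * 1 * φr * W + 2 * D * ((3 + 15 * 1) * ε))) =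
      2 * M ^ 2 * (3 * K0 * φr) * W + 2 * M ^ 2 * (K0 * (36 * D * ε)) := by ring
  rw [e3] at k3
  rw [e4] at k4
  have k1' : z * M ^ 2 * ρ * F1 ≤ z * M ^ 2 * ρ * (9 * K0 * φb) * W + z * M ^ 2 * ρ * (K0 * (36 * D * ε)) := by linarith
  refine hv.trans (le_of_eq_of_le ?_ (add_le_add (add_le_add (add_le_add (le_refl ((z ^ 2 * M ^ 2 * ρ ^ 2 + 2 * z * M ^ 2 * ρ4) * K0 * W +
    (2 * z * M ^ 2 * ρ + 12 * M ^ 2) * (M * M * mD) + z * M * ρ * K0 * G2 + M * K0 * G1 + M * K0 * T + E1 + E2)) k1') k3) k4) |>.trans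
    (le_of_eq ?_))
  · ring
  · ring

section Row

variable {μ : Measure ℝ} {s : ℝ} {K : ℕ} {δ ι β γ θg K0 : ℝ} {m p q : ℕ} {b0 σ c d j y : ℕ} {t D Kg : ℝ}

theorem mO_nonneg43 [IsProbabilityMeasure μ] {N y : ℕ} [Nonempty (Px (Pn N y))] {B : ℝ} {b0 b σ gl d j : ℕ} {t : ℝ} {f : Fam N} :
    0 ≤ mO μ s N y γ B b0 b σ gl d j t f :=
  integral_nonneg fun ω => PP_nonneg _ fun x x' => mul_nonneg (cE_nonneg _ _ (fun _ => NI_nonneg _ _ _ _) _) (rh_nonneg _ _ _)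

/-- **PART R OF ONE ROW.** -/
theorem row43 [IsProbabilityMeasure μ] {ff ff' : ℝ → ℝ} (hd : DenLaw μ ff ff') (hs : SG μ (sc ff ff') Kg θg)
    (hF : FarAll43 μ s K δ ι β γ m) (hy : y ∈ ys33 μ s K m) [Nonempty (Px (Pn (L33 K m) y))] (W : Bx43 μ s K (θg / 2) K0 ι β m p q)
    (X : G43 (L33 K m) b0 (2 ^ p) σ (gl46 ι m q) d j) (hdj : d ≤ j - b0 + 2 ^ q) (ht : |t| ≤ 1) {f : Fam (L33 K m)}
    (hf : Cls59 (L33 K m) c d D f) (hD : 0 < D) (ht0 : ((2 ^ m : ℕ) : ℝ) ^ (δ / 2) ≤ ((2 ^ p : ℕ) : ℝ))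
    (ht1 : ((2 ^ m : ℕ) : ℝ) ^ (δ / 2) ≤ (gl46 ι m q : ℝ)) (hgq : 8 * gl46 ι m q ≤ 2 ^ q) {z B ρ ρ4 : ℝ}
    (hz : ((2 ^ m : ℕ) : ℝ) ^ ι = z) (hB : B33 β m = B)
    (hρ : √(21 * rW43 μ s (L33 K m) (ι / K) K0 (2 * 2 ^ p) / ((2 ^ p / 8 : ℕ) : ℝ)) = ρ)
    (hρ4 : √(21 * rW43 μ s (L33 K m) (ι / K) K0 (2 ^ q) / gl46 ι m q) = ρ4) {φb φr : ℝ}
    (hφb : ((2 ^ m : ℕ) : ℝ) ^ ι * (EE' μ s (2 ^ p))⁻¹ = φb) (hφr : ((2 ^ m : ℕ) : ℝ) ^ ι * (EE' μ s (gl46 ι m q))⁻¹ = φr) :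
    |AvA (L33 K m) fun A => ∫ η, vR μ s (L33 K m) γ B b0 (2 ^ p / 2) (2 ^ p) σ j (d - gl46 ι m q) d f t y (η, A) ∂(law μ)| ≤
      (z ^ 2 * (B / 2) ^ 2 * ρ ^ 2 * (2 * (B / 2) * (B / 2)) + 2 * z * (B / 2) ^ 2 * ρ4 * (2 * (B / 2) * (B / 2)) +
        (z * (B / 2) ^ 2 * ρ * (9 * (2 * (B / 2) * (B / 2)) * φb) + 6 * (B / 2) ^ 2 * (9 * (2 * (B / 2) * (B / 2)) * φb)) +
        2 * (B / 2) ^ 2 * (3 * (2 * (B / 2) * (B / 2)) * φr)) * mO μ s (L33 K m) y γ B b0 (2 ^ p) σ (gl46 ι m q) d j t f +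
      z * (B / 2) * ρ * (2 * (B / 2) * (B / 2)) *
        mG μ s (L33 K m) y γ B b0 (2 ^ p) σ (gl46 ι m q) d j t f (nR2 (2 ^ p) j) 2 1 +
      B / 2 * (2 * (B / 2) * (B / 2)) * (mG μ s (L33 K m) y γ B b0 (2 ^ p) σ (gl46 ι m q) d j t f (nR1 (2 ^ p) j) 16 20 +
        mT μ s (L33 K m) y γ B b0 (2 ^ p) σ (gl46 ι m q) d j t f (mc4 (gl46 ι m q) d) (nR1 (2 ^ p) j)) +
      (2 * z * (B / 2) ^ 2 * ρ + 12 * (B / 2) ^ 2) * (B / 2 * (B / 2)) *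
        mD μ s (L33 K m) y γ B b0 (2 ^ p) σ (gl46 ι m q) d j t f (j + 2 ^ p / 8) +
      (z * (B / 2) ^ 2 * ρ * (2 * (B / 2) * (B / 2) * (36 * D * ((L33 K m : ℕ) : ℝ) ^ (-9 : ℝ))) +
        6 * (B / 2) ^ 2 * (2 * (B / 2) * (B / 2) * (96 * D * ((L33 K m : ℕ) : ℝ) ^ (-9 : ℝ))) +
        2 * (B / 2) ^ 2 * (2 * (B / 2) * (B / 2) * (36 * D * ((L33 K m : ℕ) : ℝ) ^ (-9 : ℝ))) +
        352 * (B / 2) ^ 4 * D * ((L33 K m : ℕ) + 1) * (((L33 K m + 1 : ℕ) : ℝ)) ^ 3 * Real.exp (4 * Kg - z / 2) +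
        32 * (B / 2) ^ 4 * D * (((L33 K m + 1 : ℕ) : ℝ)) ^ 3 * Real.exp (4 * Kg - z / 2)) := by
  have hn1 := n_ge1 m
  have hz0 : 0 ≤ z := by
    rw [← hz]
    positivity
  have hB0 : 0 < B := by
    rw [← hB]
    unfold B33
    exact Real.rpow_pos_of_pos (by linarith) _
  obtain ⟨g1, g2, g3, g4, g5, g6, g7, g8, g9, g10, g11, g12, g13, g14⟩ := geo96 X
  have g0 := X.rng
  have hW1 := W.near
  have hW4 := W.mac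
  have hg16 := X.glp
  have f1 := farN43 hF hy W X ht hf hD ht0 (a := 1) zero_le_one
  have f3 := farN43 hF hy W X ht hf hD ht0 (a := 3) (by norm_num)
  have f4 := farM43 hF hy W X hdj ht hf hD ht1 hgq (a := 1) zero_le_one
  rw [hB, hφb] at f1 f3
  rw [hB, hφr] at f4
  have key := e2R_P59 (μ := μ) (s := s) (δ := γ) (y := y) hd hs hB0 hf (rs43 X)
    (tb43 (μ := μ) (s := s) (y := y) hW1.one (k0 := j + 2 ^ p / 2) (by omega) (nR1 (2 ^ p) j ∪ nR2 (2 ^ p) j))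
    (fun r hr S S' h => bx_of43 (by have := X.mem_R2 hr; omega) h)
    (tb43 (μ := μ) (s := s) (y := y) hW4.one (k0 := d - 2 * gl46 ι m q) (by omega) (mc4 (gl46 ι m q) d))
    (n := ((2 ^ p / 8 : ℕ) : ℝ)) (n4 := (gl46 ι m q : ℝ)) (by linarith [hW1.one]) hW1.le (by linarith [hW1.th])
    (by linarith [hW4.one]) hW4.le (by linarith [hW4.th]) (by rw [card_nR1 X]) (by rw [card_nR2 X]) (by rw [card_mc4 X])
    (L := z) hz0 t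
  rw [eOW43, eOM43, eOM43, eOQ43, eOG43, hρ, hρ4, Fintype.card_fin] at key
  have hφ0 : 0 ≤ φb := by
    rw [← hφb]
    exact mul_nonneg (by positivity) (inv_nonneg.2 (zero_le_one.trans (le_max_left _ _)))
  exact arith43 (by positivity) hz0 (hρ ▸ Real.sqrt_nonneg _) mO_nonneg43 hφ0 (by positivity)
    (by rw [← hρ, Real.sq_sqrt (by have := hW1.one; positivity)]) key f1 f3 f4

end Row

end

end Pool.Agent.W_7d29a1_C0.E2AR43
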