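import Pool.Agent.W_7d29a1_C0.E2S39D
import Pool.Agent.W_7d29a1_C0.E2K43

/-!
STORM C0, leaf E2 (helper39): THE DATA OF A BLOCK OF ROWS AT THE CONCRETE FRAME. `rd39_est`: `Rd39` from the constants `Cst43` and the
geometry `G43` of helper43, with the exponents `x = c / 4`, `e₀ = Q ι` (any `Q ≥ 8`), `ε = ι`.
-/

set_option autoImplicit false
set_option linter.unusedSectionVars false
set_option linter.unusedVariables false

namespace Pool.Agent.W_7d29a1_C0.E2S39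

open MeasureTheory Filter Topology Finset
open Pool.Agent.W_7d29a1_F Pool.Agent.W_7d29a1_X
open Pool.Agent.W_7d29a1_H (EE sl)
open Pool.Agent.W_7d29a1_HS (In wd)
open Pool.Agent.W_7d29a1_HZ (wd' EE')
open Pool.Agent.W_7d29a1_C0 Pool.Agent.W_7d29a1_C0.Mod92 Pool.Agent.W_7d29a1_C0.Asm96 Pool.Agent.W_7d29a1_C0.EstC46
open Pool.Agent.W_7d29a1_C0.Frm33 Pool.Agent.W_7d29a1_C0.E2G43 Pool.Agent.W_7d29a1_C0.E2K43
open Pool.Agent.W_7d29a1_C0.E2T96 (ys_ne96 mem_rw96)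
open Pool.Agent.W_7d29a1_C0.Par92 (Est Sml)

noncomputable section

/-- The length of the pieces. -/
def ll39 (b0 k : ℕ) : ℕ := b0 / (3 * k) - 1

theorem ll_spec {b0 k : ℕ} (hk : 1 ≤ k) (hb : 12 * k ≤ b0) : 3 * k * (ll39 b0 k + 1) ≤ b0 ∧ b0 ≤ 6 * k * ll39 b0 k ∧ 1 ≤ ll39 b0 k := by
  obtain ⟨t, ht⟩ : ∃ t, t = b0 / (3 * k) := ⟨_, rfl⟩
  have h1 : 3 * k * t ≤ b0 := by
    rw [ht]
    exact Nat.mul_div_le _ _
  have h2 : b0 < 3 * k * (t + 1) := by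
    rw [ht]
    exact Nat.lt_mul_div_succ _ (by omega)
  have h3 : 4 ≤ t := by
    rw [ht, Nat.le_div_iff_mul_le (by omega)]
    linarith
  obtain ⟨v, rfl⟩ : ∃ v, t = v + 1 := ⟨t - 1, by omega⟩
  have e : ll39 b0 k = v := by
    unfold ll39
    rw [← ht]
    exact Nat.add_sub_cancel _ _
  rw [e]
  refine ⟨h1, ?_, by omega⟩
  nlinarith

section Sz

variable {μ : Measure ℝ} [IsProbabilityMeasure μ] {s : ℝ} {w : ℕ → ℝ} {c₀ Θ δ a ι n : ℝ}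

/-- **The price of a place whose length is comparable.** -/
theorem price39 (R : Reg46 (EE μ s) w c₀ Θ δ a ι n) {t r : ℕ} (ht : 1 ≤ t) (htr : t ≤ r) (hX : (r : ℝ) ≤ n ^ (4 * ι) * t) :
    n ^ ι * (EE' μ s t)⁻¹ ≤ n ^ (8 * ι) / EE μ s r := by
  have hN := R.N0
  have hE := R.Epos t
  have hE' := R.Epos r
  have ht0 : (0 : ℝ) < t := by exact_mod_cast ht
  have h1 := R.half t r ht htr
  have h2 : Real.sqrt ((r : ℝ) / t) ≤ n ^ (2 * ι) := by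
    rw [show n ^ (2 * ι) = Real.sqrt (n ^ (4 * ι)) by
      rw [Real.sqrt_eq_rpow, ← Real.rpow_mul hN.le]
      congr 1
      ring]
    refine Real.sqrt_le_sqrt ?_
    rwa [div_le_iff₀ ht0]
  have h3 : EE μ s r ≤ n ^ (7 * ι) * EE μ s t := by
    calc EE μ s r ≤ n ^ ι * Real.sqrt ((r : ℝ) / t) * EE μ s t := h1
      _ ≤ n ^ ι * n ^ (2 * ι) * EE μ s t := by gcongr
      _ = n ^ (3 * ι) * EE μ s t := by
          rw [← Real.rpow_add hN]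
          congr 2
          ring
      _ ≤ n ^ (7 * ι) * EE μ s t := by
          refine mul_le_mul_of_nonneg_right (Real.rpow_le_rpow_of_exponent_le R.N1.le ?_) hE.le
          linarith [R.ε0]
  rw [EE'_eq46, le_div_iff₀ hE', ← div_eq_mul_inv, div_mul_eq_mul_div, div_le_iff₀ hE]
  calc n ^ ι * EE μ s r ≤ n ^ ι * (n ^ (7 * ι) * EE μ s t) := mul_le_mul_of_nonneg_left h3 (Real.rpow_nonneg hN.le _)
    _ = n ^ (8 * ι) * EE μ s t := by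
        rw [← mul_assoc, ← Real.rpow_add hN]
        congr 2
        ring

end Sz

variable {μ : Measure ℝ} {s : ℝ} {c₀ Θ δ a c ι β γ εM κ M e e₀ : ℝ} {K m k : ℕ}

/-- **`Rd39` AT ONE LENGTH.** -/
theorem rd39_at [IsProbabilityMeasure μ] (R : Reg46 (EE μ s) (wd μ s) c₀ Θ δ a ι ((2 ^ m : ℕ) : ℝ)) (C : Cst43 μ s K δ ι β γ m εM κ M e k)
    (hK : 32 ≤ K) (hc : 0 < c) (hcδ : 64 * c ≤ δ) (hcΘ : 8 * c ≤ Θ) (he₀ : 8 * ι ≤ e₀) (hιc : 5 * ι + 9 * e₀ ≤ 3 / 8 * c) (hι1 : e₀ ≤ 1)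
    (hn : 128 ≤ ((2 ^ m : ℕ) : ℝ) ^ ι) {p q i : ℕ} (hst : St96 (EE μ s) δ c m p q) (hi : i < 2 ^ (m - q))
    (hb1 : ((2 ^ p : ℕ) : ℝ) ≤ ((2 ^ m : ℕ) : ℝ) ^ (2 * ι) * ((2 ^ (p - ⌈ι * (m : ℝ)⌉₊) : ℕ) : ℝ))
    (hb2 : ((2 ^ m : ℕ) : ℝ) ^ (δ / 4) ≤ ((2 ^ (p - ⌈ι * (m : ℝ)⌉₊) : ℕ) : ℝ))
    (hgeo : ∀ j ∈ Rw (R33 ι m) (i * 2 ^ q) ((i + 1) * 2 ^ q), G43 (L33 K m) (2 ^ (p - ⌈ι * (m : ℝ)⌉₊)) (2 ^ p)
      (2 ^ sg96 (EE μ s) c m p) (gl46 ι m q) ((i + 1) * 2 ^ q) j) :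
    Rd39 μ s c₀ Θ δ a ι ((2 ^ m : ℕ) : ℝ) c (ι / K) (δ / (8 * K)) κ M e e₀ (c / 4) (L33 K m) (ys33 μ s K m)
      (Rw (R33 ι m) (i * 2 ^ q) ((i + 1) * 2 ^ q)) (2 ^ (p - ⌈ι * (m : ℝ)⌉₊)) (2 ^ p) (2 ^ sg96 (EE μ s) c m p) (gl46 ι m q)
      ((i + 1) * 2 ^ q) (2 ^ q) (ll39 (2 ^ (p - ⌈ι * (m : ℝ)⌉₊)) k) k (i * 2 ^ q) := by
  have hbs := bs46 R hc hcδ hst.hp hst.hps hst.hsq hst.hqm hst.leg hst.pin
  have hι := R.ε0
  have hδ := R.δ0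
  have hK1 : 1 ≤ K := by omega
  have eN : ∀ x : ℝ, ((L33 K m : ℕ) : ℝ) ^ (x / K) = ((2 ^ m : ℕ) : ℝ) ^ x := L_pow43 hK1 m
  have eθ : ((L33 K m : ℕ) : ℝ) ^ (δ / (8 * K)) = ((2 ^ m : ℕ) : ℝ) ^ (δ / 8) := by
    rw [← eN (δ / 8)]
    congr 1
    field_simp
  obtain ⟨n, hnd⟩ : ∃ n : ℝ, n = ((2 ^ m : ℕ) : ℝ) := ⟨_, rfl⟩
  obtain ⟨b0, hb0⟩ : ∃ b0 : ℕ, b0 = 2 ^ (p - ⌈ι * (m : ℝ)⌉₊) := ⟨_, rfl⟩
  obtain ⟨gl, hgl⟩ : ∃ gl : ℕ, gl = gl46 ι m q := ⟨_, rfl⟩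
  have hN1 := R.N1
  have hmn := C.Mn
  have hM8 := C.M8
  have hMκ := C.Mκ
  have he8 := C.e8
  rw [← hnd] at hn hb1 hb2 hN1 hmn R hbs ⊢
  rw [← hb0] at hb1 hb2 hgeo ⊢
  rw [← hgl] at hgeo ⊢
  have hN0 : 0 < n := by linarith only [hN1]
  have mono : ∀ {x y : ℝ}, x ≤ y → n ^ x ≤ n ^ y := fun h => Real.rpow_le_rpow_of_exponent_le hN1.le h
  have up : ∀ t : ℕ, n ^ (8 * ι) / EE μ s t ≤ n ^ e₀ / EE μ s t := fun t =>
    div_le_div_of_nonneg_right (mono he₀) (R.Epos t).le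
  have n2 : n ^ (2 * ι) = n ^ ι * n ^ ι := by
    rw [← Real.rpow_add hN0]
    congr 1
    ring
  have n4 : n ^ (4 * ι) = n ^ (2 * ι) * n ^ (2 * ι) := by
    rw [← Real.rpow_add hN0]
    congr 1
    ring
  have n3 : n ^ (3 * ι) = n ^ (2 * ι) * n ^ ι := by
    rw [← Real.rpow_add hN0]
    congr 1
    ring
  have hnι : 0 < n ^ ι := Real.rpow_pos_of_pos hN0 _
  have hn2 : 1 ≤ n ^ (2 * ι) := Real.one_le_rpow hN1.le (by linarith only [hι])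
  -- the pieces
  have k1 : 80 ≤ (k : ℝ) := by linarith only [C.q1, hM8]
  have k1' : 1 ≤ k := by
    have : (1 : ℝ) ≤ k := by linarith only [k1]
    exact_mod_cast this
  have k2 : 6 * (k : ℝ) ≤ n ^ (2 * ι) := by
    have h1 : 6 * (k : ℝ) ≤ 120 * n ^ ι := by linarith only [C.q2, hmn]
    rw [n2]
    exact h1.trans (mul_le_mul_of_nonneg_right (by linarith only [hn]) hnι.le)
  have k3 : 12 * k ≤ b0 := by
    have h1 : 12 * (k : ℝ) ≤ b0 := by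
      calc 12 * (k : ℝ) = 2 * (6 * k) := by ring
        _ ≤ n ^ ι * n ^ (2 * ι) := mul_le_mul (by linarith only [hn]) k2 (by positivity) hnι.le
        _ = n ^ (3 * ι) := by rw [n3]; ring
        _ ≤ n ^ (δ / 4) := mono (by linarith only [hι, he₀, hιc, hcδ, hc])
        _ ≤ b0 := hb2
    exact_mod_cast h1
  obtain ⟨l1, l2, l3⟩ := ll_spec k1' k3
  obtain ⟨l, hl⟩ : ∃ l : ℕ, l = ll39 b0 k := ⟨_, rfl⟩
  rw [← hl] at l1 l2 l3 ⊢
  have l4 : (b0 : ℝ) ≤ n ^ (2 * ι) * l := by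
    have h1 : (b0 : ℝ) ≤ 6 * k * l := by exact_mod_cast l2
    exact h1.trans (mul_le_mul_of_nonneg_right k2 (Nat.cast_nonneg _))
  have l5 : ((2 ^ p : ℕ) : ℝ) ≤ n ^ (4 * ι) * l := by
    rw [n4, mul_assoc]
    exact hb1.trans (mul_le_mul_of_nonneg_left l4 (by positivity))
  have hbb : b0 ≤ 2 ^ p := by
    rw [hb0]
    exact Nat.pow_le_pow_right two_pos (Nat.sub_le _ _)
  have l6 : l ≤ b0 := by
    exact ((Nat.le_succ l).trans (Nat.le_mul_of_pos_left _ (by omega))).trans l1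
  -- the gap
  have hglr : (gl : ℝ) ≤ n ^ (-ι) * 2 ^ q / 8 := by
    rw [hgl, hnd]
    exact Nat.floor_le (by positivity)
  have hglr' : n ^ (-ι) * 2 ^ q / 8 < gl + 1 := by
    rw [hgl, hnd]
    exact Nat.lt_floor_add_one _
  have hq1 : n ^ δ ≤ (2 : ℝ) ^ q := by
    have := hbs.hr.lo
    push_cast at this
    exact this
  have hinv : n ^ (-ι) * n ^ ι = 1 := by
    rw [← Real.rpow_add hN0, neg_add_cancel, Real.rpow_zero]
  have hnι' : 0 < n ^ (-ι) := Real.rpow_pos_of_pos hN0 _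
  have g1 : (2 : ℝ) ^ q ≤ n ^ (2 * ι) * gl := by
    have h1 : 16 ≤ n ^ (-ι) * 2 ^ q := by
      calc (16 : ℝ) ≤ n ^ ι := by linarith only [hn]
        _ ≤ n ^ (-ι + δ) := mono (by linarith only [hι, he₀, hιc, hcδ, hc])
        _ = n ^ (-ι) * n ^ δ := Real.rpow_add hN0 _ _
        _ ≤ _ := mul_le_mul_of_nonneg_left hq1 hnι'.le
    have h2 : n ^ (-ι) * 2 ^ q ≤ 16 * gl := by linarith only [h1, hglr']
    calc (2 : ℝ) ^ q = n ^ ι * (n ^ (-ι) * 2 ^ q) := by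
          rw [← mul_assoc, mul_comm (n ^ ι), hinv, one_mul]
      _ ≤ n ^ ι * (16 * gl) := mul_le_mul_of_nonneg_left h2 hnι.le
      _ ≤ n ^ ι * (n ^ ι * gl) := by
          refine mul_le_mul_of_nonneg_left (mul_le_mul_of_nonneg_right (by linarith only [hn]) (Nat.cast_nonneg _)) hnι.le
      _ = _ := by rw [n2]; ring
  have g2 : gl ≤ 2 ^ q := by
    have h1 : n ^ (-ι) ≤ 1 := Real.rpow_le_one_of_one_le_of_nonpos hN1.le (by linarith only [hι])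
    have h2 : (gl : ℝ) ≤ (2 ^ q : ℕ) := by
      push_cast
      have h3 : n ^ (-ι) * (2 : ℝ) ^ q ≤ 1 * 2 ^ q := mul_le_mul_of_nonneg_right h1 (by positivity)
      have h4 : (0 : ℝ) < 2 ^ q := by positivity
      linarith only [hglr, h3, h4]
    exact_mod_cast h2
  have g3 : 1 ≤ gl := by
    rcases Nat.eq_zero_or_pos gl with h | h
    · exfalso
      rw [h, Nat.cast_zero, mul_zero] at g1
      have : (0 : ℝ) < 2 ^ q := by positivity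
      linarith only [g1, this]
    · exact h
  have g4 : ((2 ^ q : ℕ) : ℝ) ≤ n ^ (4 * ι) * gl := by
    push_cast
    refine g1.trans (mul_le_mul_of_nonneg_right (mono (by linarith only [hι])) (Nat.cast_nonneg _))
  have hp1 : n ^ δ ≤ ((2 ^ p : ℕ) : ℝ) := hbs.hb.lo
  have hd : (i + 1) * 2 ^ q ≤ 2 ^ m := by
    calc (i + 1) * 2 ^ q ≤ 2 ^ (m - q) * 2 ^ q := Nat.mul_le_mul_right _ hi
      _ = 2 ^ m := by
          rw [← pow_add]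
          congr 1
          have := hst.hqm
          omega
  have small : ∀ t : ℝ, n ^ δ ≤ n ^ (2 * ι) * t → n ^ (δ / 8) ≤ t := fun t ht => by
    have h1 : n ^ (2 * ι) * n ^ (δ / 8) ≤ n ^ (2 * ι) * t := by
      refine le_trans ?_ ht
      rw [← Real.rpow_add hN0]
      exact mono (by linarith only [hι, he₀, hιc, hcδ, hc, hδ])
    exact le_of_mul_le_mul_left h1 (by positivity)
  refine ⟨R, hbs, ⟨by linarith only [hι, he₀], by linarith only [hc], by linarith only [hι, he₀, hιc, hc], by linarith only [hι, he₀, hιc, hc, hcΘ]⟩,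
    by linarith only [hι, he₀], hgeo, fun j hj => mem_rw96 hj, hbb, ?_,
    hd.trans (L33_ge hK1 m), C.pk, ys_ne96 (ι := ι) (β := β) (γ := γ) m, C.e0, ?_, by linarith only [hM8],
    by linarith only [hMκ, hM8], by linarith only [C.q2, hMκ, hM8], l1, k1',
    ?_, ?_, ?_, ?_, ?_, ?_, ?_⟩
  · calc gl ≤ 1 * 2 ^ q := by rw [one_mul]; exact g2
      _ ≤ (i + 1) * 2 ^ q := Nat.mul_le_mul_right _ (by omega)
  · -- the error
    have hr : ((2 ^ q : ℕ) : ℝ) ≤ n := hbs.hr.hi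
    have h1 : e ≤ n ^ (-256 : ℝ) := by
      refine he8.trans ?_
      rw [L33_pow, ← hnd]
      refine mono ?_
      have : (32 : ℝ) ≤ K := by exact_mod_cast hK
      linarith only [this]
    have h6 : (6 : ℝ) ≤ n := by
      calc (6 : ℝ) ≤ n ^ ι := by linarith only [hn]
        _ ≤ n ^ (1 : ℝ) := mono (by linarith only [he₀, hι1, hι])
        _ = n := Real.rpow_one _
    have h7 : n ^ e₀ ≤ n := by
      calc n ^ e₀ ≤ n ^ (1 : ℝ) := mono hι1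
        _ = n := Real.rpow_one _
    have h8 : n ^ (-256 : ℝ) ≤ (n ^ 3)⁻¹ := by
      rw [← Real.rpow_natCast, ← Real.rpow_neg hN0.le]
      refine mono ?_
      push_cast
      norm_num
    calc n ^ e₀ * (((2 ^ q : ℕ) : ℝ) * (6 * e)) ≤ n * (n * (n * (n ^ 3)⁻¹)) := by
          have he0 := C.e0
          have h9 : 6 * e ≤ n * (n ^ 3)⁻¹ := mul_le_mul h6 (h1.trans h8) he0 hN0.le
          exact mul_le_mul h7 (mul_le_mul hr h9 (by positivity) hN0.le) (by positivity) hN0.le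
      _ = 1 := by field_simp
  · rw [eθ, ← hnd]
    have h1 : n ^ (δ / 4) ≤ n ^ (2 * ι) * l := hb2.trans l4
    have h2 : n ^ (2 * ι) * n ^ (δ / 8) ≤ n ^ (2 * ι) * l := by
      refine le_trans ?_ h1
      rw [← Real.rpow_add hN0]
      exact mono (by linarith only [hι, he₀, hιc, hcδ, hc])
    exact le_of_mul_le_mul_left h2 (by positivity)
  · rw [eθ, ← hnd]
    exact small _ (hq1.trans g1)
  · rw [eθ, ← hnd]
    exact (mono (by linarith only [hδ])).trans hp1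
  · rw [eN, ← hnd]
    exact mono (by linarith only [hι, he₀])
  · rw [eN, ← hnd]
    exact (price39 R l3 (l6.trans hbb) l5).trans (up _)
  · rw [eN, ← hnd]
    exact (price39 R g3 g2 g4).trans (up _)
  · intro D hD hDr
    rw [eN, ← hnd]
    have hp0 : 1 ≤ 2 ^ p := Nat.one_le_two_pow
    have d1 : 1 ≤ D / 64 := by omega
    have d2 : D ≤ 128 * (D / 64) := by omega
    refine (price39 R (le_min d1 g3) ((min_le_left _ _).trans (Nat.div_le_self _ _)) ?_).trans (up _)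
    rcases le_total (D / 64) gl with h | h
    · rw [min_eq_left h]
      have h1 : (D : ℝ) ≤ 128 * ((D / 64 : ℕ) : ℝ) := by exact_mod_cast d2
      have h2 : n ^ ι ≤ n ^ (4 * ι) := mono (by linarith only [hι])
      exact h1.trans (mul_le_mul_of_nonneg_right (hn.trans h2) (Nat.cast_nonneg _))
    · rw [min_eq_right h]
      refine le_trans ?_ g4
      exact_mod_cast hDr.le

/-- **`Rd39` AT THE CONCRETE FRAME.** -/
theorem rd39_est [IsProbabilityMeasure μ] {c₁ C : ℝ} {n₀ : ℕ} (h : In μ s c₁ C n₀) (hk : KapLe96 (EE μ s) (1 / 4)) (hK : 32 ≤ K)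
    (hΘ : 0 < Θ) (hδ : 0 < δ) (hc : 0 < c) (hcδ : c ≤ δ / 64) (hcΘ : c ≤ Θ / 8) (hR : RegP46 μ s c₀ Θ) {Q : ℝ} (hQ : 8 ≤ Q) :
    ∃ a : ℝ, Est fun ι β γ m => ∀ (εM κ M e : ℝ) (k : ℕ), Cst43 μ s K δ ι β γ m εM κ M e k → ∀ p q i : ℕ,
      St96 (EE μ s) δ c m p q → i < 2 ^ (m - q) →
      Rd39 μ s c₀ Θ δ a ι ((2 ^ m : ℕ) : ℝ) c (ι / K) (δ / (8 * K)) κ M e (Q * ι) (c / 4) (L33 K m) (ys33 μ s K m)
        (Rw (R33 ι m) (i * 2 ^ q) ((i + 1) * 2 ^ q)) (2 ^ (p - ⌈ι * (m : ℝ)⌉₊)) (2 ^ p) (2 ^ sg96 (EE μ s) c m p) (gl46 ι m q)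
        ((i + 1) * 2 ^ q) (2 ^ q) (ll39 (2 ^ (p - ⌈ι * (m : ℝ)⌉₊)) k) k (i * 2 ^ q) := by
  obtain ⟨a, ha, ha', hRe⟩ := hR.est hδ one_pos
  refine ⟨a, ?_⟩
  have hb : Est fun ι β γ m => (128 ≤ ((2 ^ m : ℕ) : ℝ) ^ ι ∧ ∀ p : ℕ, δ * m ≤ p →
      ((2 ^ p : ℕ) : ℝ) ≤ ((2 ^ m : ℕ) : ℝ) ^ (2 * ι) * ((2 ^ (p - ⌈ι * (m : ℝ)⌉₊) : ℕ) : ℝ) ∧
      ((2 ^ m : ℕ) : ℝ) ^ (δ / 4) ≤ ((2 ^ (p - ⌈ι * (m : ℝ)⌉₊) : ℕ) : ℝ)) := by
    refine ⟨δ / 4, by positivity, fun ι hι hιδ => Sml.of fun β _ => Sml.of fun γ _ => ?_⟩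
    filter_upwards [b0_43 hι hιδ hδ, b0_33 hδ hιδ, pow_ev96 hι 128] with m h1 h2 h3
    exact ⟨h3, fun p hp => ⟨(h1 p hp).2.2, h2 p hp⟩⟩
  have hall := ((hRe.and hb).and (g43_est (K := K) h hk (by omega) hΘ hδ hc hcδ hR)).and
    ((Est.iota (Sml.le (show 0 < 3 / 8 * c / (5 + 9 * Q) by positivity))).and (Est.iota (Sml.le (show (0 : ℝ) < 1 / Q by positivity))))
  refine hall.mono fun ι β γ hι _ _ => Eventually.of_forall fun m hm => ?_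
  obtain ⟨⟨⟨⟨g1, -⟩, g2, g3⟩, g4⟩, g5, g6⟩ := hm
  intro εM κ M e k C p q i hst hi
  rw [one_mul] at g1
  have h5 : ι * (5 + 9 * Q) ≤ 3 / 8 * c := (le_div_iff₀ (by linarith)).1 g5
  have h6 : ι * Q ≤ 1 := (le_div_iff₀ (by linarith)).1 g6
  exact rd39_at g1 C hK hc (by linarith) (by linarith) (mul_le_mul_of_nonneg_right hQ hι.le) (by linarith) (by linarith) g2 hst hi
    (g3 p hst.hp).1 (g3 p hst.hp).2 (g4 p q i hst hi)

end

end Pool.Agent.W_7d29a1_C0.E2S39
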