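import Pool.Agent.W_7d29a1_C0.E2N39C
import Pool.Agent.W_7d29a1_C0.E2T96

/-!
CURV0 (MP_7d29a1_pr), leaf E2 (helper62): MORE TERMS OF THE ROW BOUND OF E2 at the frame. `numG62`: own events with any gain; `numO62`: the
gains `(w_b / b) ^ 2`, `w_r / r`, `1 / E_b ^ 2`, `1 / E_r ^ 2`. `trmB62`: the bare outer tie with the gain `1 / E_b ^ 4`. `trmO62`: own
events as a term of `E2T96`.
-/

set_option autoImplicit false
set_option linter.unusedSectionVars false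
set_option linter.unusedVariables false

namespace Pool.Agent.W_7d29a1_C0.E2N62

open Finset Filter Topology MeasureTheory
open Pool.Agent.W_7d29a1_F
open Pool.Agent.W_7d29a1_C0 Pool.Agent.W_7d29a1_H Pool.Agent.W_7d29a1_HZ
open Pool.Agent.W_7d29a1_C0.E2N39 Pool.Agent.W_7d29a1_C0.E2S39
open Pool.Agent.W_7d29a1_C0.Mod92 (Px Pn wm Pm avy avy_mono avy_const Fam)
open Pool.Agent.W_7d29a1_C0.Swap57 (NI NI_nonneg)
open Pool.Agent.W_7d29a1_C0.P86 (Plc)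
open Pool.Agent.W_7d29a1_C0.T93 (rdist Fam2 pr2)
open Pool.Agent.W_7d29a1_C0.E2T96 (pr96 rw96 one96 pr_one96 qb_one96 Qb96 Trm96)

noncomputable section

section Nm

variable {E w : ℕ → ℝ} {c₀ Θ δ a ε n c : ℝ} {b s r : ℕ}
variable {μ : Measure ℝ} {sl : ℝ} {L : ℕ} {ε' e A al e₀ x : ℝ} {lout lo lm lg gl hh s' : ℕ}

/-- **OWN EVENTS ONLY**, any gain `G`. -/
theorem numG62 (R : Reg46 E w c₀ Θ δ a ε n) (h : Bs46 E δ c n b s r) (H : Sc39 μ sl L ε' E A lout lo lm lg b r) (X : Ex39 Θ c ε e₀ x)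
    (hA : A ≤ n ^ e₀) {G : ℝ} (hG0 : 0 ≤ G) (g1 : G * (s * (1 / (E r * E b))) ≤ n ^ (Θ + 4 * ε - c))
    (g2 : G * (r * (1 / (E r * E b ^ 2))) ≤ n ^ (Θ + 4 * ε - c)) (hal : al ^ 2 ≤ n ^ e₀ * G) (hh1 : (hh : ℝ) ≤ n ^ e₀ * s)
    (he0 : 0 ≤ e) (he : al ^ 2 * (r * (2 * e)) ≤ 1) :
    al ^ 2 * ∑ D ∈ range r, phO μ sl L ε' e lout lo hh D ≤ n ^ (Θ - 2 * x) := by
  obtain ⟨p1, p2, -, -, -, -⟩ := H.lists R.Epos
  have hE := R.Epos r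
  have hE' := R.Epos b
  have hb' := h.hb.pos R.N1
  have hr' := h.hr.pos R.N1
  have hε := R.ε0
  have X1 := X.q1
  have X2 := X.q2
  have X3 := X.e0
  have X4 := X.x0
  have m1 := loss39 R hG0 (show 0 ≤ 1 / (E r * E b) by positivity) (Nat.cast_nonneg hh) hal hh1 g1
  have one_e : (1 : ℝ) ≤ n ^ e₀ := Real.one_le_rpow R.N1.le X3
  have m2 := loss39 R hG0 (show 0 ≤ 1 / (E r * E b ^ 2) by positivity) (Nat.cast_nonneg r) hal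
    (show (r : ℝ) ≤ n ^ e₀ * r by nlinarith) g2
  have hs := sum_steps (α := lpr μ sl L ε' lout [lo]) (β := 0) (γ := lpr μ sl L ε' lout [lo, lo]) (e := 2 * e)
    (lpr_nonneg _ _) le_rfl (by linarith) hh 0 r (φ := phO μ sl L ε' e lout lo hh) (fun D => by
      unfold phO
      split_ifs <;> linarith)
  have hy : Θ + 4 * ε - c + 2 * e₀ ≤ Θ - 2 * x - 5 * e₀ - ε := by linarith
  have mono := fun {u : ℝ} (hu : u ≤ n ^ (Θ + 4 * ε - c + 2 * e₀)) => hu.trans (Real.rpow_le_rpow_of_exponent_le R.N1.le hy)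
  have hfin := comb39 (al := al) (hh := hh) (s' := 0) (e' := 2 * e) (y := Θ - 2 * x - 5 * e₀ - ε) (α₀ := 1 / (E r * E b)) (β₀ := 0)
    (γ₀ := 1 / (E r * E b ^ 2)) R (hs.trans ?_) H.A1 hA (mono m1) ?_ (mono m2) he (by linarith [R.Θ0, h.c0])
  · refine hfin.trans (le_of_eq ?_)
    congr 1
    ring
  · have t1 := mul_le_mul_of_nonneg_left p1 (Nat.cast_nonneg (α := ℝ) hh)
    have t2 := mul_le_mul_of_nonneg_left p2 (Nat.cast_nonneg (α := ℝ) r)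
    simp only [mul_zero, add_zero]
    linarith
  · simp only [mul_zero]
    exact (Real.rpow_pos_of_pos R.N0 _).le

/-- The gains of the own events. -/
structure Gn62 (E w : ℕ → ℝ) (Θ ε n c : ℝ) (b s r : ℕ) (G : ℝ) : Prop where
  g0 : 0 ≤ G
  g1 : G * (s * (1 / (E r * E b))) ≤ n ^ (Θ + 4 * ε - c)
  g2 : G * (r * (1 / (E r * E b ^ 2))) ≤ n ^ (Θ + 4 * ε - c)

/-- `(w_b / b) ^ 2`, two box steps of scale `b`. -/
theorem gn_ww62 (R : Reg46 E w c₀ Θ δ a ε n) (h : Bs46 E δ c n b s r) : Gn62 E w Θ ε n c b s r ((w b / b) ^ 2) :=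
  ⟨sq_nonneg _, q1 R h, q6 R h⟩

/-- `w_r / r`, one box step of scale `r`. -/
theorem gn_wr62 (R : Reg46 E w c₀ Θ δ a ε n) (h : Bs46 E δ c n b s r) : Gn62 E w Θ ε n c b s r (w r / r) :=
  ⟨div_nonneg (R.w0 r (h.hr.npos R.N1)).le (Nat.cast_nonneg _), q2 R h, q5 R h⟩

/-- `1 / E_b ^ 2`. -/
theorem gn_b62 (R : Reg46 E w c₀ Θ δ a ε n) (h : Bs46 E δ c n b s r) : Gn62 E w Θ ε n c b s r (1 / E b ^ 2) := by
  have hE := R.Epos r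
  have hE' := R.Epos b
  refine ⟨by positivity, le_trans (le_of_eq ?_) (q3 R h), le_trans (le_of_eq ?_) (q8 R h)⟩
  · field_simp
  · field_simp

/-- Smaller gains. -/
theorem Gn62.le (R : Reg46 E w c₀ Θ δ a ε n) {G G' : ℝ} (H : Gn62 E w Θ ε n c b s r G) (h0 : 0 ≤ G') (hG : G' ≤ G) :
    Gn62 E w Θ ε n c b s r G' := by
  have hE := R.Epos r
  have hE' := R.Epos b
  exact ⟨h0, (mul_le_mul_of_nonneg_right hG (by positivity)).trans H.g1, (mul_le_mul_of_nonneg_right hG (by positivity)).trans H.g2⟩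

/-- `1 / E_r ^ 2`. -/
theorem gn_r62 (R : Reg46 E w c₀ Θ δ a ε n) (h : Bs46 E δ c n b s r) : Gn62 E w Θ ε n c b s r (1 / E r ^ 2) := by
  have hE := R.Epos r
  have hE' := R.Epos b
  have hbr : E b ≤ E r := R.mono (h.bs.trans h.sr)
  refine (gn_b62 R h).le R (by positivity) ?_
  exact one_div_le_one_div_of_le (by positivity) (pow_le_pow_left₀ hE'.le hbr 2)

/-- **OWN EVENTS ONLY**, the gains `(w_b / b) ^ 2`, `w_r / r`, `1 / E_b ^ 2`, `1 / E_r ^ 2`. -/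
theorem numO62 (R : Reg46 E w c₀ Θ δ a ε n) (h : Bs46 E δ c n b s r) (H : Sc39 μ sl L ε' E A lout lo lm lg b r) (X : Ex39 Θ c ε e₀ x)
    (hA : A ≤ n ^ e₀) {G : ℝ} (hG : G = (w b / b) ^ 2 ∨ G = w r / r ∨ G = 1 / E b ^ 2 ∨ G = 1 / E r ^ 2) (hal : al ^ 2 ≤ n ^ e₀ * G)
    (hh1 : (hh : ℝ) ≤ n ^ e₀ * s) (he0 : 0 ≤ e) (he : al ^ 2 * (r * (2 * e)) ≤ 1) :
    al ^ 2 * ∑ D ∈ range r, phO μ sl L ε' e lout lo hh D ≤ n ^ (Θ - 2 * x) := by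
  have hg : Gn62 E w Θ ε n c b s r G := by
    rcases hG with rfl | rfl | rfl | rfl
    exacts [gn_ww62 R h, gn_wr62 R h, gn_b62 R h, gn_r62 R h]
  exact numG62 R h H X hA hg.g0 hg.g1 hg.g2 hal hh1 he0 he

/-- **THE BARE OUTER TIE**, the gain `1 / E_b ^ 4`. -/
theorem numB62 (R : Reg46 E w c₀ Θ δ a ε n) (h : Bs46 E δ c n b s r) (H : Sc39 μ sl L ε' E A lout lo lm lg b r) (X : Ex39 Θ c ε e₀ x)
    (hA : A ≤ n ^ e₀) (hal : al ^ 2 ≤ n ^ e₀ * (1 / E b ^ 4)) (he0 : 0 ≤ e) (he : al ^ 2 * (r * e) ≤ 1) :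
    al ^ 2 * ∑ _D ∈ range r, ((L : ℝ) ^ ε' * (EE' μ sl lout)⁻¹ + e) ≤ n ^ (Θ - 2 * x) := by
  have hE := R.Epos r
  have hE' := R.Epos b
  have hr' := h.hr.pos R.N1
  have hε := R.ε0
  have X1 := X.q1
  have X2 := X.q2
  have X3 := X.e0
  have X4 := X.x0
  have hA1 := H.A1
  have one_e : (1 : ℝ) ≤ n ^ e₀ := Real.one_le_rpow R.N1.le X3
  have g : 1 / E b ^ 4 * (r * (1 / E r)) ≤ n ^ (Θ + 4 * ε - c) := by
    refine le_trans (le_of_eq ?_) (q8 R h)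
    field_simp
  have m3 := loss39 (al := al) R (show 0 ≤ 1 / E b ^ 4 by positivity) (show 0 ≤ 1 / E r by positivity) (Nat.cast_nonneg r) hal
    (show (r : ℝ) ≤ n ^ e₀ * r by nlinarith) g
  have hy : Θ + 4 * ε - c + 2 * e₀ ≤ Θ - 2 * x - 5 * e₀ - ε := by linarith
  have mono := fun {u : ℝ} (hu : u ≤ n ^ (Θ + 4 * ε - c + 2 * e₀)) => hu.trans (Real.rpow_le_rpow_of_exponent_le R.N1.le hy)
  have hz : (0 : ℝ) ≤ n ^ (Θ - 2 * x - 5 * e₀ - ε) := (Real.rpow_pos_of_pos R.N0 _).le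
  have hfin := comb39 (al := al) (hh := 0) (s' := 0) (e' := e) (y := Θ - 2 * x - 5 * e₀ - ε) (α₀ := 0) (β₀ := 0)
    (γ₀ := 1 / E r) (φ := fun _ => (L : ℝ) ^ ε' * (EE' μ sl lout)⁻¹ + e) (r := r) R ?_ H.A1 hA ?_ ?_ (mono m3) he
    (by linarith [R.Θ0, h.c0])
  · refine hfin.trans (le_of_eq ?_)
    congr 1
    ring
  · rw [sum_const, card_range, nsmul_eq_mul]
    have t1 := H.po
    have t2 : A / E r ≤ A ^ 5 * (1 / E r) := by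
      rw [div_eq_mul_one_div]
      exact mul_le_mul_of_nonneg_right (le_self_pow₀ hA1 (by norm_num)) (by positivity)
    have t3 := mul_le_mul_of_nonneg_left (add_le_add (t1.trans t2) (le_refl e)) hr'.le
    simp only [mul_zero, add_zero, zero_add, Nat.cast_zero]
    linarith
  · simpa using hz
  · simpa using hz

end Nm

/-! ### The terms -/

section Trm

variable {μ : Measure ℝ} [IsProbabilityMeasure μ] {sl : ℝ} {N : ℕ} {ε' θ κ M e A al e₀ x : ℝ} {ys S : Finset ℕ} {c0 zf cc lo lm lg hh : ℕ}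
variable {E w : ℕ → ℝ} {c₀ Θ δ a ε n c : ℝ} {b s r : ℕ}

/-- The price of the bare outer tie. -/
theorem bare_pr62 (hP : Pk39 μ sl ε' θ κ N ys M e) {y : ℕ} (hy : y ∈ ys) (hzc : zf ≤ cc) (hcN : cc ≤ N)
    (hlo : (N : ℝ) ^ θ ≤ ((cc - zf : ℕ) : ℝ)) :
    pr96 μ sl N (one96 N (fun _ _ _ => 1) zf cc) (one96 N (fun _ _ _ => 1) zf cc) y ≤ (N : ℝ) ^ ε' * (EE' μ sl (cc - zf))⁻¹ + e := by
  rw [pr_one96]
  have h1 := pair39 hP hy hzc hcN hlo [[]] (fun Ps hPs => by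
    rw [List.mem_singleton] at hPs
    rw [hPs]
    exact ⟨by simp, by simp, by simp⟩) (U := fun _ _ _ => 1) (U' := fun _ _ _ => 1) (fun _ _ => by norm_num)
    (fun _ => measurable_const) (fun _ => measurable_const) (fun _ _ => by simp)
  refine h1.trans (le_of_eq ?_)
  simp [lpr]

/-- **THE TERM OF THE BARE OUTER TIE.** -/
def trmB62 (R : Reg46 E w c₀ Θ δ a ε n) (h : Bs46 E δ c n b s r) (H : Sc39 μ sl N ε' E A (cc - zf) lo lm lg b r) (X : Ex39 Θ c ε e₀ x)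
    (hA : A ≤ n ^ e₀) (hP : Pk39 μ sl ε' θ κ N ys M e) (hys : ys.Nonempty) (hzc : zf ≤ cc) (hcN : cc ≤ N)
    (hlo : (N : ℝ) ^ θ ≤ ((cc - zf : ℕ) : ℝ)) (hS : ∀ j ∈ S, c0 ≤ j ∧ j < c0 + r) (al0 : 0 ≤ al)
    (hal : al ^ 2 ≤ n ^ e₀ * (1 / E b ^ 4)) (he0 : 0 ≤ e) (he : al ^ 2 * (r * e) ≤ 1) : Trm96 μ sl N ys S r (n ^ (Θ - 2 * x)) :=
  Trm96.ofDist hS al 1 (fun _ _ => one96 N (fun _ _ _ => 1) zf cc) (fun _ => (N : ℝ) ^ ε' * (EE' μ sl (cc - zf))⁻¹ + e) al0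
    (fun _ _ _ _ => qb_one96 (fun _ _ _ => zero_le_one) (fun _ _ _ => le_rfl) (fun _ _ => measurable_const) _ _)
    (fun _ => add_nonneg (P0 μ sl N ε' _) he0)
    (fun _ _ _ _ _ _ => (avy_mono fun y hy => bare_pr62 hP hy hzc hcN hlo).trans (avy_const hys _).le)
    (numB62 R h H X hA hal he0 he)

theorem val_trmB62 (R : Reg46 E w c₀ Θ δ a ε n) (h : Bs46 E δ c n b s r) (H : Sc39 μ sl N ε' E A (cc - zf) lo lm lg b r)
    (X : Ex39 Θ c ε e₀ x) (hA : A ≤ n ^ e₀) (hP : Pk39 μ sl ε' θ κ N ys M e) (hys : ys.Nonempty) (hzc : zf ≤ cc) (hcN : cc ≤ N)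
    (hlo : (N : ℝ) ^ θ ≤ ((cc - zf : ℕ) : ℝ)) (hS : ∀ j ∈ S, c0 ≤ j ∧ j < c0 + r) (al0 : 0 ≤ al)
    (hal : al ^ 2 ≤ n ^ e₀ * (1 / E b ^ 4)) (he0 : 0 ≤ e) (he : al ^ 2 * (r * e) ≤ 1) (f : Fam N) (j y : ℕ) :
    (trmB62 R h H X hA hP hys hzc hcN hlo hS al0 hal he0 he).val f j y = al * rw96 μ sl N (one96 N (fun _ _ _ => 1) zf cc) f y := by
  unfold Trm96.val trmB62 Trm96.ofDist
  simp

/-- **THE TERM OF THE OWN EVENTS**, any gain `G`, averaged over `u < nn`. -/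
def trmO62 (R : Reg46 E w c₀ Θ δ a ε n) (h : Bs46 E δ c n b s r) (H : Sc39 μ sl N ε' E A (cc - zf) lo lm lg b r) (X : Ex39 Θ c ε e₀ x)
    (hA : A ≤ n ^ e₀) (hP : Pk39 μ sl ε' θ κ N ys M e) (hys : ys.Nonempty) (hzc : zf ≤ cc) (hcN : cc ≤ N)
    (hlo : (N : ℝ) ^ θ ≤ ((cc - zf : ℕ) : ℝ)) (hS : ∀ j ∈ S, c0 ≤ j ∧ j < c0 + r) (al0 : 0 ≤ al) {G : ℝ}
    (hG : Gn62 E w Θ ε n c b s r G) (hal : al ^ 2 ≤ n ^ e₀ * G) (hh1 : (hh : ℝ) ≤ n ^ e₀ * s) (he0 : 0 ≤ e)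
    (he : al ^ 2 * (r * (2 * e)) ≤ 1) (nn : ℕ) {p : ℕ → ℕ → Plc} {Fm : ℕ → ℕ → Fam N}
    (hF : ∀ u < nn, Fp μ sl N ((N : ℝ) ^ κ) M θ zf ys S (p u) (Fm u) lo)
    (ord : ∀ u < nn, ∀ k ∈ S, ∀ j ∈ S, k + hh ≤ j → (p u j).Bef (p u k) ∨ (p u k).Bef (p u j)) :
    Trm96 μ sl N ys S r (n ^ (Θ - 2 * x)) :=
  Trm96.ofDist hS al nn (fun u j => one96 N (Fm u j) zf cc) (phO μ sl N ε' e (cc - zf) lo hh) al0
    (fun u hu j hj => qb_one96 ((hF u hu).a0 j hj) ((hF u hu).a1 j hj) ((hF u hu).ms j hj) _ _)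
    (fun D => (ph_nonneg he0 _ lo lo hh 0 D).1)
    (fun u hu j hj k hk => by
      have e1 : pr96 μ sl N (one96 N (Fm u j) zf cc) (one96 N (Fm u k) zf cc) =
          pr2 μ sl N (fun y ω x z => NI zf cc x z) (Fm u j) (Fm u k) := funext fun y => pr_one96 _ _ _ _ _
      rw [e1]
      exact own39 hP he0 hzc hcN hlo hys (hF u hu) (ord u hu) j hj k hk)
    (numG62 R h H X hA hG.g0 hG.g1 hG.g2 hal hh1 he0 he)

theorem val_trmO62 (R : Reg46 E w c₀ Θ δ a ε n) (h : Bs46 E δ c n b s r) (H : Sc39 μ sl N ε' E A (cc - zf) lo lm lg b r)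
    (X : Ex39 Θ c ε e₀ x) (hA : A ≤ n ^ e₀) (hP : Pk39 μ sl ε' θ κ N ys M e) (hys : ys.Nonempty) (hzc : zf ≤ cc) (hcN : cc ≤ N)
    (hlo : (N : ℝ) ^ θ ≤ ((cc - zf : ℕ) : ℝ)) (hS : ∀ j ∈ S, c0 ≤ j ∧ j < c0 + r) (al0 : 0 ≤ al) {G : ℝ}
    (hG : Gn62 E w Θ ε n c b s r G) (hal : al ^ 2 ≤ n ^ e₀ * G) (hh1 : (hh : ℝ) ≤ n ^ e₀ * s) (he0 : 0 ≤ e)
    (he : al ^ 2 * (r * (2 * e)) ≤ 1) (nn : ℕ) {p : ℕ → ℕ → Plc} {Fm : ℕ → ℕ → Fam N}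
    (hF : ∀ u < nn, Fp μ sl N ((N : ℝ) ^ κ) M θ zf ys S (p u) (Fm u) lo)
    (ord : ∀ u < nn, ∀ k ∈ S, ∀ j ∈ S, k + hh ≤ j → (p u j).Bef (p u k) ∨ (p u k).Bef (p u j)) (f : Fam N) (j y : ℕ) :
    (trmO62 R h H X hA hP hys hzc hcN hlo hS al0 hG hal hh1 he0 he nn hF ord).val f j y =
      al * ((nn : ℝ)⁻¹ * ∑ u ∈ range nn, rw96 μ sl N (one96 N (Fm u j) zf cc) f y) := rfl

end Trm

end

end Pool.Agent.W_7d29a1_C0.E2N62
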