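import Pool.Agent.W_7d29a1_C0.E2S39E
import Pool.Agent.W_7d29a1_C0.E2N62
import Pool.Agent.W_7d29a1_C0.E2J43

/-!
STORM C0, leaf E2 (helper39): THE LIST OF PART R. The own terms with the four gains of helper62, and the list `decR43` of helper43 with its
terms and their functionals put in (`decR39`).
-/

set_option autoImplicit false
set_option linter.unusedSectionVars false
set_option linter.unusedVariables false

namespace Pool.Agent.W_7d29a1_C0.E2S39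

open MeasureTheory ProbabilityTheory Filter Topology Finset
open Pool.Agent.W_7d29a1_F Pool.Agent.W_7d29a1_X Pool.Agent.W_7d29a1_h4g Pool.Agent.W_7d29a1_H
open Pool.Agent.W_7d29a1_HS (In wd md)
open Pool.Agent.W_7d29a1_HZ Pool.Agent.W_7d29a1_HZ.R72 Pool.Agent.W_7d29a1_Z.Asm72
open Pool.Agent.W_7d29a1_HZ.Z86
open Pool.Agent.W_7d29a1_C0.P86
open Pool.Agent.W_7d29a1_C0.Mod92
open Pool.Agent.W_7d29a1_C0.Swap57 (NI cE2 NI_nonneg)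
open Pool.Agent.W_7d29a1_C0.T72 (Sp72 ind72 meas_ind72 NN72)
open Pool.Agent.W_7d29a1_C0.T93 (rdist Fam2 pr2 rw2 grp93)
open Pool.Agent.W_7d29a1_C0.EvT50 (RpM meas_Rp50 meas_RpM)
open Pool.Agent.W_7d29a1_C0.E2T96 (Trm96 one96 qb_one96 pr_one96 pr96 rw96)
open Pool.Agent.W_7d29a1_C0.E2C96 (evF evF_nonneg evF_le_one meas_evF meas_nta96 mR mR_one LO LT2 LTp LT0)
open Pool.Agent.W_7d29a1_C0.E2G43 (G43 nR1 nR2 mc4)
open Pool.Agent.W_7d29a1_C0.E2N62 (Gn62 gn_ww62 gn_wr62 gn_b62 gn_r62 numG62)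
open Pool.Agent.W_7d29a1_C0.E2D43 (Dec43)
open Pool.Agent.W_7d29a1_C0.E2J43 (Ab43 decR43)
open Pool.Agent.W_7d29a1_C0.E2D96
open Pool.Agent.W_7d29a1_C0.MicN96 (er96)
open Pool.W7d29a1.C0 (gz gm gz_pos gm_nonneg gm_mono gm_const PP PP_mono PP_nonneg PP_add)
open Pool.W7d29a1.C0.VT31
open Pool.W7d29a1.C0.R43
open scoped ENNReal

noncomputable section

variable {μ : Measure ℝ} {s : ℝ} {N : ℕ}

/-- The gains of the own terms. -/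
def Og39 (μ : Measure ℝ) (s : ℝ) (b r : ℕ) (G : ℝ) : Prop :=
  G = (wd μ s b / b) ^ 2 ∨ G = wd μ s r / r ∨ G = 1 / EE μ s b ^ 2 ∨ G = 1 / EE μ s r ^ 2

namespace Rd39

variable {c₀ Θ δ a ε n c ε' θ κ M e e₀ x : ℝ} {ys S : Finset ℕ} {b0 b sg gl d r l k r0 : ℕ}

section Og

variable (H : Rd39 μ s c₀ Θ δ a ε n c ε' θ κ M e e₀ x N ys S b0 b sg gl d r l k r0)
include H

theorem E1 {t : ℕ} (ht : Rg46 δ n t) : 1 ≤ EE μ s t := by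
  have h := H.R.quart t ht
  have h1 : (1 : ℝ) ≤ t := by exact_mod_cast ht.npos H.R.N1
  exact (Real.one_le_rpow h1 (by norm_num)).trans h

theorem gn39 {G : ℝ} (hG : Og39 μ s b r G) : Gn62 (EE μ s) (wd μ s) Θ ε n c b sg r G := by
  rcases hG with rfl | rfl | rfl | rfl
  exacts [gn_ww62 H.R H.bs, gn_wr62 H.R H.bs, gn_b62 H.R H.bs, gn_r62 H.R H.bs]

theorem og1 {G : ℝ} (hG : Og39 μ s b r G) : G ≤ 1 := by
  have hε : ε ≤ δ / 4 := by linarith [H.X.q1, H.X.x0, H.X.e0, H.bs.cδ, H.R.ε0, H.R.δ0]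
  have hb0 := H.bs.hb.pos H.R.N1
  have g0 : 0 ≤ wd μ s b / b := div_nonneg (H.R.w0 b (H.bs.hb.npos H.R.N1)).le hb0.le
  have inv1 : ∀ {E : ℝ}, 1 ≤ E → 1 / E ^ 2 ≤ 1 := fun hE => by
    rw [div_le_one (by positivity)]
    exact one_le_pow₀ hE
  rcases hG with rfl | rfl | rfl | rfl
  · exact pow_le_one₀ g0 (gain_le (c := c) H.R H.bs.hb hε)
  · exact gain_le (c := c) H.R H.bs.hr hε
  · exact inv1 (H.E1 H.bs.hb)
  · exact inv1 (H.E1 H.bs.hr)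

end Og

variable {E : Evf N} {p : ℕ → Plc}

/-- **OWN EVENT**, the four gains. -/
def tG39 [IsProbabilityMeasure μ] (H : Rd39 μ s c₀ Θ δ a ε n c ε' θ κ M e e₀ x N ys S b0 b sg gl d r l k r0) (al : ℝ) (al0 : 0 ≤ al)
    {G : ℝ} (hG : Og39 μ s b r G) (hal : al ^ 2 ≤ n ^ e₀ * G)
    (hE : Fp μ s N ((N : ℝ) ^ κ) M θ (d - gl) ys S p (fI E) l)
    (ord : ∀ k ∈ S, ∀ j ∈ S, k + sg ≤ j → (p j).Bef (p k) ∨ (p k).Bef (p j)) :
    Trm96 μ s N ys S r (n ^ (Θ - 2 * x)) :=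
  Trm96.ofDist H.win al 1 (fun _ j => one96 N (fI E j) (d - gl) d) (phO μ s N ε' e gl l sg) al0
    (fun _ _ j hj => qb_one96 (hE.a0 j hj) (hE.a1 j hj) (hE.ms j hj) _ _) (fun D => (ph_nonneg H.e0 _ _ l _ sg D).1)
    (fun _ _ j hj k hk => by
      have h1 := own39 (hh := sg) H.P H.e0 (Nat.sub_le d gl) H.dN (by rw [H.zd]; exact H.gθ) H.ne hE ord j hj k hk
      rw [H.zd] at h1
      exact pr_of39 h1)
    (by
      have hn := H.R.N0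
      have hs : (sg : ℝ) ≤ n ^ e₀ * sg := by
        have h1 : (1 : ℝ) ≤ n ^ e₀ := Real.one_le_rpow H.R.N1.le H.X.e0
        have h2 : (0 : ℝ) ≤ sg := Nat.cast_nonneg _
        nlinarith
      have hg := H.gn39 hG
      have hal' : al ^ 2 ≤ n ^ e₀ := hal.trans (mul_le_of_le_one_right (Real.rpow_nonneg hn.le _) (H.og1 hG))
      exact numG62 H.R H.bs H.sc H.X le_rfl hg.g0 hg.g1 hg.g2 hal hs H.e0 (H.he' hal' (by norm_num) (by norm_num)))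

section R

variable [IsProbabilityMeasure μ] (H : Rd39 μ s c₀ Θ δ a ε n c ε' θ κ M e e₀ x N ys S b0 b sg gl d r l k r0) (al : ℝ) (al0 : 0 ≤ al)

/-- The own mass of part R with the four gains. -/
def tOR {G : ℝ} (hG : Og39 μ s b r G) (hal : al ^ 2 ≤ n ^ e₀ * G) : Trm96 μ s N ys S r (n ^ (Θ - 2 * x)) :=
  H.tG39 al al0 hG hal (E := eNta μ s N (fun _ => 0) (zz39 sg) (fun j => j + b / 2) (fun j => j + b) M)
    (p := fun j => ⟨0, zz39 sg j, 0, zz39 sg j, j + b / 2, j + b, l, Ty.R, False⟩)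
    (H.fNta H.lθ fun j hj => by
      have h1 := lin39 (H.geo j hj)
      have h2 := H.lb
      show 0 ≤ j + b / 2 ∧ j + b / 2 + l ≤ j + b ∧ j + b ≤ zz39 sg j ∧ zz39 sg j ≤ d - gl
      omega)
    fun k hk j hj hkj => by
      have h1 := lin39 (H.geo j hj)
      have h2 := lin39 (H.geo k hk)
      have h3 := blz39 H.sgp (show k ≤ j by omega)
      exact Or.inl (befR (Or.inl (show zz39 sg k ≤ j + b / 2 by omega)))

theorem tOR_Q {G : ℝ} (hG : Og39 μ s b r G) (hal : al ^ 2 ≤ n ^ e₀ * G) (u j : ℕ) :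
    (H.tOR al al0 hG hal).Q u j = qOR μ s N b sg gl d M j := rfl

end R

section Ab

variable [IsProbabilityMeasure μ] {al : ℝ} {al0 : 0 ≤ al} {f : Fam N} {cb : ℕ} {D eT : ℝ}

/-- `v1 .. v4` of `decR43`. -/
theorem abO (H : Rd39 μ s c₀ Θ δ a ε n c ε' θ κ M e e₀ x N ys S b0 b sg gl d r l k r0) {G : ℝ} {hG : Og39 μ s b r G}
    {hal : al ^ 2 ≤ n ^ e₀ * G} (heT : 0 ≤ eT) :
    Ab43 (H.tOR al al0 hG hal) f (fun j y => rw96 μ s N (qOR μ s N b sg gl d M j) f y) eT := fun j hj y hy => by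
  have h1 : mR μ s N (H.tOR al al0 hG hal).n (fun u => (H.tOR al al0 hG hal).Q u j) f y = rw96 μ s N (qOR μ s N b sg gl d M j) f y :=
    mR_one _
  rw [h1]
  linarith

/-- The rows of the near slabs. -/
theorem hA1 (H : Rd39 μ s c₀ Θ δ a ε n c ε' θ κ M e e₀ x N ys S b0 b sg gl d r l k r0) :
    ∀ j ∈ S, j + b / 8 < j + b / 8 + 1 ∧ j + b / 8 + 1 + b / 8 ≤ j + 3 * (b / 8) + 1 := fun j _ => ⟨by omega, by omega⟩

theorem hA2 (H : Rd39 μ s c₀ Θ δ a ε n c ε' θ κ M e e₀ x N ys S b0 b sg gl d r l k r0) :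
    ∀ j ∈ S, j + b / 8 < j + b / 4 + 1 ∧ j + b / 4 + 1 + b / 8 ≤ j + 3 * (b / 8) + 1 := fun j hj => by
  have h1 := lin39 (H.geo j hj)
  exact ⟨by omega, by omega⟩

/-- `v5`. -/
theorem ab22 (H : Rd39 μ s c₀ Θ δ a ε n c ε' θ κ M e e₀ x N ys S b0 b sg gl d r l k r0) {hal : al ^ 2 ≤ n ^ e₀} (heT : 0 ≤ eT) :
    Ab43 (H.tT2 al al0 hal (A := fun j => j + b / 4 + 1) (nn := b / 8) H.hA2) f
      (fun j y => mR μ s N (b / 8) (fun u => q2R2 μ s N b0 b sg gl d l k M u j) f y) eT := fun j hj y hy =>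
  le_add_of_nonneg_right heT

/-- `v7`. -/
theorem ab12 (H : Rd39 μ s c₀ Θ δ a ε n c ε' θ κ M e e₀ x N ys S b0 b sg gl d r l k r0) {hal : al ^ 2 ≤ n ^ e₀} (heT : 0 ≤ eT) :
    Ab43 (H.tT2 al al0 hal (A := fun j => j + b / 8 + 1) (nn := b / 8) H.hA1) f
      (fun j y => mR μ s N (b / 8) (fun u => q2R1 μ s N b0 b sg gl d l k M u j) f y) eT := fun j hj y hy =>
  le_add_of_nonneg_right heT

/-- The own event as an alternative. -/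
theorem abP (H : Rd39 μ s c₀ Θ δ a ε n c ε' θ κ M e e₀ x N ys S b0 b sg gl d r l k r0) {hal : al ^ 2 ≤ n ^ e₀} {A : ℕ → ℕ} {nn : ℕ}
    {hA : ∀ j ∈ S, j + b / 8 < A j ∧ A j + nn ≤ j + 3 * (b / 8) + 1} (hf : Cls59 N cb d D f) (hys : ∀ y ∈ ys, y ≤ N)
    (hM : 8 ≤ M) (hk : 10 * M ≤ k) (hk' : (k : ℝ) ≤ 20 * M) (h0 : 0 ≤ 2 * D * Real.exp (-M)) :
    Ab43 (H.tTp al al0 hal hA) f
      (fun j y => mR μ s N nn (fun u => one96 N (LTp μ s N (cc39 sg j) (zz39 sg j) (j + b / 2) (j + b) b0 j l k M (A j + u)) (d - gl) d)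
        f y) (2 * D * Real.exp (-M)) := fun j hj y hy => by
  have := ne_Pn (hys y hy)
  have h1 := lin39 (H.geo j hj)
  have h2 := H.kl
  have hSp : Sp72 (Pn N y) d D (j + b0) (b / 16) (f y) := T72.sp72_of_cls hf le_rfl (by omega) y
  refine mR_le39 (Q' := fun u => (H.tTp al al0 hal hA).Q u j) h0 fun u hu => ?_
  exact rw_tau39 hSp (E := fun y ω S => RpM (wm μ s N (Pn N y) ω) (pJ 0 (A j + u)) b0 j l k M S) (fun S => meas_RpM _ _ _ _ _ _ S)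
    (Nat.zero_le _) le_rfl (show cc39 sg j ≤ j + b / 2 by omega) (show j + b ≤ zz39 sg j by omega)
    (show j + b / 2 + 3 * k * (l + 1) ≤ j + b by omega) hM hk hk'

/-- `v9`: the own event averaged given what is behind a macro row. -/
theorem abT (H : Rd39 μ s c₀ Θ δ a ε n c ε' θ κ M e e₀ x N ys S b0 b sg gl d r l k r0) {hal : al ^ 2 ≤ n ^ e₀} {A : ℕ → ℕ} {nn : ℕ}
    {hA : ∀ j ∈ S, j + b / 8 < A j ∧ A j + nn ≤ j + 3 * (b / 8) + 1} {a' nn' : ℕ} {ha' : ∀ j ∈ S, j + b + gl ≤ a'}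
    {ha2 : a' + nn' ≤ d - gl + 1} (hz : ∀ j ∈ S, zz39 sg j ≤ a') (hf : Cls59 N cb d D f) (hys : ∀ y ∈ ys, y ≤ N)
    (hM : 8 ≤ M) (hk : 10 * M ≤ k) (hk' : (k : ℝ) ≤ 20 * M) (h0 : 0 ≤ 2 * D * Real.exp (-M)) :
    Ab43 (H.tT0 al al0 hal hA ha' ha2) f
      (fun j y => mR μ s N (nn' * nn) (fun u => one96 N (LT0 μ s N (cc39 sg j) (zz39 sg j) (j + b / 2) (j + b) b0 j l k M (a' + u / nn)
        (A j + u % nn)) (d - gl) d) f y) (2 * D * Real.exp (-M)) := fun j hj y hy => by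
  have := ne_Pn (hys y hy)
  have h1 := lin39 (H.geo j hj)
  have h2 := H.kl
  have h3 := hz j hj
  have hSp : Sp72 (Pn N y) d D (j + b0) (b / 16) (f y) := T72.sp72_of_cls hf le_rfl (by omega) y
  refine mR_le39 (Q' := fun u => (H.tT0 al al0 hal hA ha' ha2).Q u j) h0 fun u hu => ?_
  exact rw_tau39 hSp (E := fun y ω S => RpM (wm μ s N (Pn N y) ω) (pJ 0 (A j + u % nn)) b0 j l k M S) (fun S => meas_RpM _ _ _ _ _ _ S)
    (Nat.zero_le _) (show zz39 sg j ≤ a' + u / nn from h3.trans (Nat.le_add_right _ _)) (show cc39 sg j ≤ j + b / 2 by omega)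
    (show j + b ≤ zz39 sg j by omega) (show j + b / 2 + 3 * k * (l + 1) ≤ j + b by omega) hM hk hk'

/-- **THE LIST OF PART R WITH ITS TERMS.** -/
theorem decR39 (H : Rd39 μ s c₀ Θ δ a ε n c ε' θ κ M e e₀ x N ys S b0 b sg gl d r l k r0) (hys : ∀ y ∈ ys, y ≤ N) {Φ : ℕ → ℕ → ℝ}
    {m0 : ℕ → ℕ} (hm : ∀ j ∈ S, m0 j ≤ j + b) {γ B t εM K' D' ε₁ : ℝ}
    (Z : ∀ j ∈ S, ∀ y ∈ ys, Dr96 μ s N y γ B b0 b sg gl cb d j t ε₁ εM K' M D' l k f)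
    (hM : 8 ≤ M) (hk : 10 * M ≤ k) (hk' : (k : ℝ) ≤ 20 * M) (hf : Cls59 N cb d D f) (hD : 0 ≤ D)
    {a1 a2 a3 a4 A1 A2 A3 α β α' β' er eE : ℝ} (h1 : 0 ≤ a1) (h2 : 0 ≤ a2) (h3 : 0 ≤ a3) (h4 : 0 ≤ a4) (hA1 : 0 ≤ A1) (hA2 : 0 ≤ A2)
    (hA3 : 0 ≤ A3) (hα : 0 ≤ α) (hβ : 0 ≤ β) (hα' : 0 ≤ α') (hβ' : 0 ≤ β') (hB : 0 ≤ B) (he : 0 ≤ er)
    (hV : ∀ j ∈ S, ∀ y ∈ ys, ∀ [Nonempty (Px (Pn N y))], Φ j y ≤ (a1 + a2 + a3 + a4) * mO μ s N y γ B b0 b sg gl d j t f +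
      A1 * mG μ s N y γ B b0 b sg gl d j t f (nR2 b j) α β +
      A2 * (mG μ s N y γ B b0 b sg gl d j t f (nR1 b j) α' β' + mT μ s N y γ B b0 b sg gl d j t f (mc4 gl d) (nR1 b j)) +
      A3 * mD μ s N y γ B b0 b sg gl d j t f (m0 j) + er)
    (c1 : (a1 * (N : ℝ) ^ ε₁) ^ 2 ≤ n ^ e₀ * (wd μ s b / b) ^ 2) (c2 : (a2 * (N : ℝ) ^ ε₁) ^ 2 ≤ n ^ e₀ * (wd μ s r / r))
    (c3 : (a3 * (N : ℝ) ^ ε₁) ^ 2 ≤ n ^ e₀ * (1 / EE μ s b ^ 2)) (c4 : (a4 * (N : ℝ) ^ ε₁) ^ 2 ≤ n ^ e₀ * (1 / EE μ s r ^ 2))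
    (c5 : (A1 * α * B * (N : ℝ) ^ ε₁) ^ 2 ≤ n ^ e₀) (c6 : (A1 * β * B * (N : ℝ) ^ ε₁) ^ 2 ≤ n ^ e₀)
    (c7 : (A2 * α' * B * (N : ℝ) ^ ε₁) ^ 2 ≤ n ^ e₀) (c8 : (A2 * β' * B * (N : ℝ) ^ ε₁) ^ 2 ≤ n ^ e₀)
    (c9 : (A2 * B * (N : ℝ) ^ ε₁) ^ 2 ≤ n ^ e₀)
    (TD : Trm96 μ s N ys S r (n ^ (Θ - 2 * x))) (u10 : A3 * 2 * (N : ℝ) ^ ε₁ ≤ TD.al)
    (v10 : Ab43 TD f (fun j y => rw96 μ s N (qDR μ s N b0 b sg gl d M m0 j) f y) (2 * D * Real.exp (-M)))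
    (hE : (a1 + a2 + a3 + a4 + A1 * (α + β) + A2 * (α' + β' + 1) + A3) * er96 N K' + er +
      ((a1 + a2 + a3 + a4 + A1 * (α + β) * B + A2 * (α' + β' + 1) * B + 2 * A3) * (N : ℝ) ^ ε₁) * (2 * D * Real.exp (-M)) ≤ eE) :
    Dec43 μ s N ys S r (n ^ (Θ - 2 * x)) f Φ 10 eE := by
  have hN : 0 ≤ (N : ℝ) ^ ε₁ := Real.rpow_nonneg (Nat.cast_nonneg _) _
  have h0 : 0 ≤ 2 * D * Real.exp (-M) := by positivity
  have mc : ∀ j ∈ S, j + b + gl ≤ d - 3 * gl + 1 ∧ zz39 sg j ≤ d - 3 * gl + 1 := fun j hj => by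
    have g1 := lin39 (H.geo j hj)
    exact ⟨by omega, by omega⟩
  rcases S.eq_empty_or_nonempty with h | ⟨j₀, hj₀⟩
  · exact ⟨fun _ => TD, fun j hj => absurd (h ▸ hj) (notMem_empty j)⟩
  have mc2 : d - 3 * gl + 1 + gl ≤ d - gl + 1 := by
    have g1 := lin39 (H.geo j₀ hj₀)
    omega
  exact decR43 hys hm Z h1 h2 h3 h4 hA1 hA2 hA3 hα hβ hα' hβ' hB h0 he hV
    (H.tOR _ (mul_nonneg h1 hN) (Or.inl rfl) c1) (H.tOR _ (mul_nonneg h2 hN) (Or.inr (Or.inl rfl)) c2)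
    (H.tOR _ (mul_nonneg h3 hN) (Or.inr (Or.inr (Or.inl rfl))) c3) (H.tOR _ (mul_nonneg h4 hN) (Or.inr (Or.inr (Or.inr rfl))) c4)
    (H.tT2 _ (by positivity) c5 (A := fun j => j + b / 4 + 1) (nn := b / 8) H.hA2)
    (H.tTp _ (by positivity) c6 (A := fun j => j + b / 4 + 1) (nn := b / 8) H.hA2)
    (H.tT2 _ (by positivity) c7 (A := fun j => j + b / 8 + 1) (nn := b / 8) H.hA1)
    (H.tTp _ (by positivity) c8 (A := fun j => j + b / 8 + 1) (nn := b / 8) H.hA1)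
    (H.tT0 _ (by positivity) c9 (A := fun j => j + b / 8 + 1) (nn := b / 8) H.hA1 (a' := d - 3 * gl + 1) (nn' := gl)
      (fun j hj => (mc j hj).1) mc2) TD
    le_rfl le_rfl le_rfl le_rfl le_rfl le_rfl le_rfl le_rfl le_rfl u10
    (H.abO h0) (H.abO h0) (H.abO h0) (H.abO h0) (H.ab22 h0) (H.abP hf hys hM hk hk' h0) (H.ab12 h0) (H.abP hf hys hM hk hk' h0)
    (H.abT (fun j hj => (mc j hj).2) hf hys hM hk hk' h0) v10 hE

end Ab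

end Rd39

end

end Pool.Agent.W_7d29a1_C0.E2S39
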