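import Pool.Agent.W_7d29a1_C0.E2AR43
import Pool.Agent.W_7d29a1_C0.E2S39F
import Pool.Agent.W_7d29a1_C0.E2S39G

/-!
MP_7d29a1_pr, [CURV0] (helper43), section E2: PART R AT THE CONCRETE FRAME. `TDS43`: the slot of the pairs of the window (helper11);
`partR43`: the list of part R for all blocks and all spectators, from the constants `Cst43` with the slot.
-/

set_option autoImplicit false
set_option linter.unusedSectionVars false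
set_option linter.unusedVariables false

namespace Pool.Agent.W_7d29a1_C0.E2AS43

open Finset MeasureTheory Filter Topology
open Pool.Agent.W_7d29a1_F Pool.Agent.W_7d29a1_X
open Pool.Agent.W_7d29a1_H (sl EE one_le_EE)
open Pool.Agent.W_7d29a1_HS (In wd)
open Pool.Agent.W_7d29a1_HZ (wd' EE')
open Pool.Agent.W_7d29a1_C0 Pool.Agent.W_7d29a1_C0.Mod92 Pool.Agent.W_7d29a1_C0.Swap57 Pool.Agent.W_7d29a1_C0.NM82
open Pool.Agent.W_7d29a1_C0.Asm96 Pool.Agent.W_7d29a1_C0.EstC46 Pool.Agent.W_7d29a1_C0.Frm33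
open Pool.Agent.W_7d29a1_C0.H32
open Pool.Agent.W_7d29a1_C0.EstD44 (Bl44)
open Pool.Agent.W_7d29a1_C0.E2G43 Pool.Agent.W_7d29a1_C0.E2K43 Pool.Agent.W_7d29a1_C0.E2W43 Pool.Agent.W_7d29a1_C0.E2A43
open Pool.Agent.W_7d29a1_C0.E2FR43 Pool.Agent.W_7d29a1_C0.E2FS43 Pool.Agent.W_7d29a1_C0.E2D96 Pool.Agent.W_7d29a1_C0.E2J43
open Pool.Agent.W_7d29a1_C0.E2D43 Pool.Agent.W_7d29a1_C0.E2Z43 Pool.Agent.W_7d29a1_C0.E2AR43
open Pool.Agent.W_7d29a1_C0.E1M82 (AvA)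
open Pool.Agent.W_7d29a1_C0.E2Q59 (vR)
open Pool.Agent.W_7d29a1_C0.E2T96 (Trm96 rw96 mem_rw96)
open Pool.Agent.W_7d29a1_C0.MicN96 (er96)
open Pool.Agent.W_7d29a1_C0.E2S39 (Rd39 ll39 rd39_est price39)
open Pool.Agent.W_7d29a1_C0.NumR62 (pow62 coR62)
open Pool.Agent.W_7d29a1_C0.Par92 (Est Sml)
open Pool.W7d29a1.C0 Pool.W7d29a1.C0.VT31

noncomputable section

/-! ### Numbers -/

/-- **The errors of part R.** -/
theorem num43 {n z B ρ D S1 S2 ℓ ℓ9 N1 ex eM erN : ℝ} (hn : 64 ≤ n) (hz1 : 1 ≤ z) (hz5 : z ^ 5 ≤ n) (hB : 0 ≤ B) (hBz : B ≤ z)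
    (hρ0 : 0 ≤ ρ) (hρ1 : ρ ≤ 1) (hD0 : 0 ≤ D) (hD : D ≤ n ^ 3) (hS1 : S1 ≤ n) (hS2 : S2 ≤ n) (hℓ : 0 ≤ ℓ) (h9 : ℓ9 ≤ ℓ) (h90 : 0 ≤ ℓ9)
    (hN1 : 1 ≤ N1) (hN : N1 ^ 4 * ex ≤ ℓ) (hex : 0 ≤ ex) (hM : eM ≤ ℓ) (hM0 : 0 ≤ eM) (her : erN ≤ ℓ) (her0 : 0 ≤ erN) :
    S1 * erN + (z * (B / 2) ^ 2 * ρ * (2 * (B / 2) * (B / 2) * (36 * D * ℓ9)) +
      6 * (B / 2) ^ 2 * (2 * (B / 2) * (B / 2) * (96 * D * ℓ9)) + 2 * (B / 2) ^ 2 * (2 * (B / 2) * (B / 2) * (36 * D * ℓ9)) +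
      352 * (B / 2) ^ 4 * D * N1 * N1 ^ 3 * ex + 32 * (B / 2) ^ 4 * D * N1 ^ 3 * ex) + S2 * (2 * D * eM) ≤ n ^ 50 * ℓ := by
  have hz0 : 0 ≤ z := by linarith
  have hn0 : 0 ≤ n := by linarith
  have hB4 : B ^ 4 ≤ n := by
    calc B ^ 4 ≤ z ^ 4 := pow_le_pow_left₀ hB hBz 4
      _ ≤ z ^ 5 := pow_le_pow_right₀ hz1 (by norm_num)
      _ ≤ n := hz5
  have hzB : z * B ^ 4 ≤ n := by
    calc z * B ^ 4 ≤ z * z ^ 4 := mul_le_mul_of_nonneg_left (pow_le_pow_left₀ hB hBz 4) hz0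
      _ = z ^ 5 := by ring
      _ ≤ n := hz5
  have hDl : D * ℓ9 ≤ n ^ 3 * ℓ := mul_le_mul hD h9 h90 (by positivity)
  have hB40 : 0 ≤ B ^ 4 := by positivity
  have h4 : n ^ 4 * ℓ = n * (n ^ 3 * ℓ) := by ring
  have hP : 0 ≤ n ^ 4 * ℓ := by positivity
  have t0 : S1 * erN ≤ n ^ 4 * ℓ := by
    calc S1 * erN ≤ n * ℓ := mul_le_mul hS1 her her0 hn0
      _ ≤ n ^ 4 * ℓ := mul_le_mul_of_nonneg_right (le_self_pow₀ (by linarith) (by norm_num)) hℓ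
  have t1 : z * (B / 2) ^ 2 * ρ * (2 * (B / 2) * (B / 2) * (36 * D * ℓ9)) ≤ 9 / 2 * (n ^ 4 * ℓ) := by
    have e1 : z * (B / 2) ^ 2 * ρ * (2 * (B / 2) * (B / 2) * (36 * D * ℓ9)) = 9 / 2 * ((z * B ^ 4 * ρ) * (D * ℓ9)) := by ring
    rw [e1, h4]
    refine mul_le_mul_of_nonneg_left (mul_le_mul ?_ hDl (by positivity) hn0) (by norm_num)
    calc z * B ^ 4 * ρ ≤ n * 1 := mul_le_mul hzB hρ1 hρ0 hn0
      _ = n := mul_one _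
  have t2 : 6 * (B / 2) ^ 2 * (2 * (B / 2) * (B / 2) * (96 * D * ℓ9)) ≤ 72 * (n ^ 4 * ℓ) := by
    have e1 : 6 * (B / 2) ^ 2 * (2 * (B / 2) * (B / 2) * (96 * D * ℓ9)) = 72 * (B ^ 4 * (D * ℓ9)) := by ring
    rw [e1, h4]
    exact mul_le_mul_of_nonneg_left (mul_le_mul hB4 hDl (by positivity) hn0) (by norm_num)
  have t3 : 2 * (B / 2) ^ 2 * (2 * (B / 2) * (B / 2) * (36 * D * ℓ9)) ≤ 9 * (n ^ 4 * ℓ) := by
    have e1 : 2 * (B / 2) ^ 2 * (2 * (B / 2) * (B / 2) * (36 * D * ℓ9)) = 9 * (B ^ 4 * (D * ℓ9)) := by ring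
    rw [e1, h4]
    exact mul_le_mul_of_nonneg_left (mul_le_mul hB4 hDl (by positivity) hn0) (by norm_num)
  have hDN : D * (N1 ^ 4 * ex) ≤ n ^ 3 * ℓ := mul_le_mul hD hN (by positivity) (by positivity)
  have t4 : 352 * (B / 2) ^ 4 * D * N1 * N1 ^ 3 * ex ≤ 22 * (n ^ 4 * ℓ) := by
    have e1 : 352 * (B / 2) ^ 4 * D * N1 * N1 ^ 3 * ex = 22 * (B ^ 4 * (D * (N1 ^ 4 * ex))) := by ring
    rw [e1, h4]
    exact mul_le_mul_of_nonneg_left (mul_le_mul hB4 hDN (by positivity) hn0) (by norm_num)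
  have t5 : 32 * (B / 2) ^ 4 * D * N1 ^ 3 * ex ≤ 2 * (n ^ 4 * ℓ) := by
    have e1 : 32 * (B / 2) ^ 4 * D * N1 ^ 3 * ex = 2 * (B ^ 4 * (D * (N1 ^ 3 * ex))) := by ring
    rw [e1, h4]
    refine mul_le_mul_of_nonneg_left (mul_le_mul hB4 (le_trans ?_ hDN) (by positivity) hn0) (by norm_num)
    refine mul_le_mul_of_nonneg_left (mul_le_mul_of_nonneg_right ?_ hex) hD0
    exact pow_le_pow_right₀ hN1 (by norm_num)
  have t6 : S2 * (2 * D * eM) ≤ 2 * (n ^ 4 * ℓ) := by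
    have e1 : S2 * (2 * D * eM) = 2 * (S2 * (D * eM)) := by ring
    rw [e1, h4]
    exact mul_le_mul_of_nonneg_left (mul_le_mul hS2 (mul_le_mul hD hM hM0 (by positivity)) (by positivity) hn0) (by norm_num)
  have t7 : 113 * (n ^ 4 * ℓ) ≤ n ^ 50 * ℓ := by
    have e1 : (113 : ℝ) ≤ n ^ 2 := by nlinarith
    calc 113 * (n ^ 4 * ℓ) ≤ n ^ 2 * (n ^ 4 * ℓ) := mul_le_mul_of_nonneg_right e1 hP
      _ = n ^ 6 * ℓ := by ring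
      _ ≤ n ^ 50 * ℓ := mul_le_mul_of_nonneg_right (pow_le_pow_right₀ (by linarith) (by norm_num)) hℓ
  linarith

section Phi

variable {μ : Measure ℝ} [IsProbabilityMeasure μ] {s : ℝ}

/-- **The factor of a far line.** -/
theorem fac43 {w : ℕ → ℝ} {c₀ Θ δ a ι n B Cf : ℝ} (R : Reg46 (EE μ s) w c₀ Θ δ a (1 / 2 * ι) n) (hι : 0 < ι) (hn : 1 ≤ n)
    (h64 : 64 ≤ n ^ ι) (hB0 : 0 ≤ B) (hB : B ≤ n ^ ι) (hC0 : 0 ≤ Cf) (hC : Cf ≤ 9) {t r : ℕ} (ht : 1 ≤ t) (htr : t ≤ r)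
    (hX : (r : ℝ) ≤ n ^ (2 * ι) * t) :
    0 ≤ Cf * (2 * (B / 2) * (B / 2)) * (n ^ ι * (EE' μ s t)⁻¹) ∧
      Cf * (2 * (B / 2) * (B / 2)) * (n ^ ι * (EE' μ s t)⁻¹) ≤ n ^ (8 * ι) / EE μ s r := by
  have hn0 : 0 < n := by linarith
  obtain ⟨z, hz⟩ : ∃ z : ℝ, z = n ^ ι := ⟨_, rfl⟩
  have hEi : 0 ≤ (EE' μ s t)⁻¹ := inv_nonneg.2 (zero_le_one.trans (le_max_left _ _))
  have h1 := price39 R ht htr (by
    rw [show 4 * (1 / 2 * ι) = 2 * ι by ring]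
    exact hX)
  rw [show 8 * (1 / 2 * ι) = ((4 : ℕ) : ℝ) * ι by push_cast; ring, pow62 hn0.le, ← hz] at h1
  have e8 : n ^ (8 * ι) = z ^ 8 := by
    rw [hz, ← pow62 hn0.le 8]
    norm_num
  have eh : n ^ (1 / 2 * ι) * n ^ (1 / 2 * ι) = z := by
    rw [← Real.rpow_add hn0, hz]
    congr 1
    ring
  have hh : 0 ≤ n ^ (1 / 2 * ι) := by positivity
  have hh1 : 1 ≤ n ^ (1 / 2 * ι) := Real.one_le_rpow hn (by positivity)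
  have hhz : n ^ (1 / 2 * ι) ≤ z := by
    rw [← eh]
    exact le_mul_of_one_le_left hh hh1
  rw [← hz] at h64 hB
  have hE : 0 < EE μ s r := lt_of_lt_of_le one_pos (one_le_EE r)
  rw [e8, ← hz]
  refine ⟨by positivity, ?_⟩
  have hB2 : B ^ 2 ≤ z ^ 2 := pow_le_pow_left₀ hB0 hB 2
  have hz0 : 0 ≤ z := by linarith
  calc Cf * (2 * (B / 2) * (B / 2)) * (z * (EE' μ s t)⁻¹) =
        Cf * (B ^ 2 / 2) * (n ^ (1 / 2 * ι) * (n ^ (1 / 2 * ι) * (EE' μ s t)⁻¹)) := by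
        rw [← eh]
        ring
    _ ≤ 9 * (z ^ 2 / 2) * (z * (z ^ 4 / EE μ s r)) := by gcongr
    _ = (9 / 2 * z ^ 7) / EE μ s r := by ring
    _ ≤ z ^ 8 / EE μ s r := by
        refine div_le_div_of_nonneg_right ?_ hE.le
        calc 9 / 2 * z ^ 7 ≤ z * z ^ 7 := mul_le_mul_of_nonneg_right (by linarith) (by positivity)
          _ = z ^ 8 := by ring

end Phi

/-! ### The slot and the functional -/

section Slot

variable {μ : Measure ℝ} {s : ℝ}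

/-- **The slot of the pairs of the window** (the double ties of helper11). -/
def TDS43 (μ : Measure ℝ) (s : ℝ) (K : ℕ) (Θ δ c ι : ℝ) (m : ℕ) (M : ℝ) : Prop := ∀ p q i : ℕ, St96 (EE μ s) δ c m p q →
  i < 2 ^ (m - q) → ∀ al : ℝ, 0 ≤ al → al ^ 2 ≤ ((2 ^ m : ℕ) : ℝ) ^ (40 * ι) →
  ∃ TD : Trm96 μ s (L33 K m) (ys33 μ s K m) (Rw (R33 ι m) (i * 2 ^ q) ((i + 1) * 2 ^ q)) (2 ^ q)
    (((2 ^ m : ℕ) : ℝ) ^ (Θ - 2 * (c / 4))), TD.al = al ∧ ∀ (cb : ℕ) (D : ℝ) (f : Fam (L33 K m)),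
      Cls59 (L33 K m) cb ((i + 1) * 2 ^ q) D f → 0 ≤ D →
      Ab43 TD f (fun j y => rw96 μ s (L33 K m) (qDR μ s (L33 K m) (2 ^ (p - ⌈ι * (m : ℝ)⌉₊)) (2 ^ p) (2 ^ sg96 (EE μ s) c m p)
        (gl46 ι m q) ((i + 1) * 2 ^ q) M (fun j => j + 2 ^ p / 8) j) f y) (2 * D * Real.exp (-M))

open Classical in
/-- **The functional of part R**: the modulus of the double insertion in the mean over the environment and the signs. -/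
def PhR43 (μ : Measure ℝ) (s : ℝ) (N : ℕ) (γ B : ℝ) (b0 b σ gl d : ℕ) (f : Fam N) (t : ℝ) (j y : ℕ) : ℝ :=
  if h : Nonempty (Px (Pn N y)) then |AvA N fun A => ∫ η, vR μ s N γ B b0 (b / 2) b σ j (d - gl) d f t y (η, A) ∂(law μ)| else 0

theorem PhR43_eq {N : ℕ} {γ B : ℝ} {b0 b σ gl d : ℕ} {f : Fam N} {t : ℝ} {j y : ℕ} [h : Nonempty (Px (Pn N y))] :
    PhR43 μ s N γ B b0 b σ gl d f t j y = |AvA N fun A => ∫ η, vR μ s N γ B b0 (b / 2) b σ j (d - gl) d f t y (η, A) ∂(law μ)| :=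
  dif_pos h

end Slot

end

end Pool.Agent.W_7d29a1_C0.E2AS43
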