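import Pool.Agent.W_7d29a1_C0.EstD44
import Pool.Agent.W_7d29a1_C0.Frm33B
import Pool.Agent.W_7d29a1_C0.CutG59

/-!
MP_7d29a1_pr, [CURV0] (helper43), section E2: THE GEOMETRY OF THE ROWS OF (E2) AT THE CONCRETE FRAME. `G43 N b0 b σ gl d j`: the
inequalities between the window `b0` of the kick, the base window `b`, the corrected scale `σ`, the gap `gl = gl46`, the end `d` of the
block and the kicked row `j`. Near slabs `nR1`, `nR2` (right), `nL1`, `nL2` (left), macro slabs `mc3`, `mc4`, tie of the spectator on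
`[d - gl, d]`. `g43_est`: all of it at `frm33`.
-/

set_option autoImplicit false

namespace Pool.Agent.W_7d29a1_C0.E2G43

open Finset MeasureTheory Filter Topology Pool.Agent.W_7d29a1_F Pool.Agent.W_7d29a1_X
open Pool.Agent.W_7d29a1_H (EE)
open Pool.Agent.W_7d29a1_HS (In)
open Pool.Agent.W_7d29a1_C0 Pool.Agent.W_7d29a1_C0.Mod92 Pool.Agent.W_7d29a1_C0.Asm96 Pool.Agent.W_7d29a1_C0.EstC46
open Pool.Agent.W_7d29a1_C0.Frm33 Pool.Agent.W_7d29a1_C0.CutG59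
open Pool.Agent.W_7d29a1_C0.Par92 (Est Sml)

noncomputable section

/-! ### The inequalities -/

/-- **THE GEOMETRY OF A ROW.** -/
structure G43 (N b0 b σ gl d j : ℕ) : Prop where
  b0p : 1 ≤ b0
  b16 : 16 * b0 ≤ b
  dv : 16 ∣ b
  lo : j / σ * σ + b ≤ j
  hi : j + b ≤ (j / σ + 1) * σ
  zd : (j / σ + 1) * σ + 7 * gl ≤ d
  bg : b ≤ gl
  jg : 8 * gl ≤ j + 1
  dN : d ≤ N

/-- The near slabs on the right. -/
def nR1 (b j : ℕ) : Finset ℕ := Ioc (j + b / 8) (j + b / 4)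

def nR2 (b j : ℕ) : Finset ℕ := Ioc (j + b / 4) (j + 3 * (b / 8))

/-- The near slabs on the left. -/
def nL1 (b j : ℕ) : Finset ℕ := Ioc (j - b / 4) (j - b / 8)

def nL2 (b j : ℕ) : Finset ℕ := Ioc (j - 3 * (b / 8)) (j - b / 4)

/-- The macro slabs. -/
def mc3 (gl d : ℕ) : Finset ℕ := Ioc (d - 5 * gl) (d - 4 * gl)

def mc4 (gl d : ℕ) : Finset ℕ := Ioc (d - 3 * gl) (d - 2 * gl)

namespace G43

variable {N b0 b σ gl d j : ℕ}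

theorem bp (X : G43 N b0 b σ gl d j) : 16 ≤ b := by
  have := X.b16
  have := X.b0p
  omega

theorem b8 (X : G43 N b0 b σ gl d j) : b / 8 + b / 8 = b / 4 ∧ b / 4 + b / 4 = b / 2 ∧ b / 2 + b / 2 = b ∧ b / 16 + b / 16 = b / 8 ∧
    b0 ≤ b / 16 := by
  obtain ⟨k, hk⟩ := X.dv
  have := X.b16
  omega

theorem glp (X : G43 N b0 b σ gl d j) : 16 ≤ gl := X.bp.trans X.bg

/-- The geometry of the cut, the tie of the spectator on `[d - gl, d]`. -/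
theorem geo (X : G43 N b0 b σ gl d j) : Geo59 N b0 (b / 2) b σ j (d - gl) d := by
  obtain ⟨h1, h2, h3, h4, h5⟩ := X.b8
  have := X.zd
  exact ⟨by omega, by omega, X.lo, X.hi, by omega, by omega, X.dN⟩

/-- The ranges: window, block, gap. -/
theorem rng (X : G43 N b0 b σ gl d j) : j + b ≤ (j / σ + 1) * σ ∧ (j / σ + 1) * σ + gl ≤ d - 6 * gl ∧ j + b + 7 * gl ≤ d ∧
    8 * b ≤ j + 1 ∧ b + b0 ≤ j ∧ gl + b0 ≤ j ∧ 6 * gl ≤ j ∧ d ≤ N := by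
  have := X.zd
  have := X.hi
  have := X.jg
  have := X.bg
  have := X.b16
  have := X.b0p
  have := X.glp
  exact ⟨X.hi, by omega, by omega, by omega, by omega, by omega, by omega, X.dN⟩

theorem card_R1 (X : G43 N b0 b σ gl d j) : (nR1 b j).card = b / 8 := by
  unfold nR1
  rw [Nat.card_Ioc]
  have := X.b8
  omega

theorem card_R2 (X : G43 N b0 b σ gl d j) : (nR2 b j).card = b / 8 := by
  unfold nR2
  rw [Nat.card_Ioc]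
  have := X.b8
  omega

theorem card_L1 (X : G43 N b0 b σ gl d j) : (nL1 b j).card = b / 8 := by
  unfold nL1
  rw [Nat.card_Ioc]
  have := X.b8
  have := X.rng
  omega

theorem card_L2 (X : G43 N b0 b σ gl d j) : (nL2 b j).card = b / 8 := by
  unfold nL2
  rw [Nat.card_Ioc]
  have := X.b8
  have := X.rng
  omega

theorem card_3 (X : G43 N b0 b σ gl d j) : (mc3 gl d).card = gl := by
  unfold mc3
  rw [Nat.card_Ioc]
  have := X.rng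
  omega

theorem card_4 (X : G43 N b0 b σ gl d j) : (mc4 gl d).card = gl := by
  unfold mc4
  rw [Nat.card_Ioc]
  have := X.rng
  omega

/-- The rows of the right near slabs: `c0 + K = j + b0 + b / 16`. -/
theorem mem_R1 (X : G43 N b0 b σ gl d j) {r : ℕ} (h : r ∈ nR1 b j) : j + b / 8 < r ∧ r ≤ j + b / 4 ∧ j + b0 + b / 16 ≤ r ∧
    j + b0 < r ∧ r ≤ j + b / 2 ∧ r ≤ d - 6 * gl ∧ r ≤ N := by
  have h1 := mem_Ioc.1 h
  have := X.b8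
  have := X.rng
  omega

theorem mem_R2 (X : G43 N b0 b σ gl d j) {r : ℕ} (h : r ∈ nR2 b j) : j + b / 4 < r ∧ r ≤ j + 3 * (b / 8) ∧ j + b0 + b / 16 ≤ r ∧
    j + b0 < r ∧ r ≤ j + b / 2 ∧ r ≤ d - 6 * gl ∧ r ≤ N := by
  have h1 := mem_Ioc.1 h
  have := X.b8
  have := X.rng
  omega

theorem mem_L1 (X : G43 N b0 b σ gl d j) {r : ℕ} (h : r ∈ nL1 b j) : j - b / 4 < r ∧ r + b / 8 ≤ j ∧ r ≤ j - b0 ∧
    j - b / 2 < r ∧ 1 ≤ r ∧ r + b0 ≤ j ∧ gl ≤ r ∧ r ≤ N := by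
  have h1 := mem_Ioc.1 h
  have := X.b8
  have := X.rng
  have := X.bg
  omega

theorem mem_L2 (X : G43 N b0 b σ gl d j) {r : ℕ} (h : r ∈ nL2 b j) : j - 3 * (b / 8) < r ∧ r + b / 4 ≤ j ∧ r ≤ j - b0 ∧
    j - b / 2 < r ∧ 1 ≤ r ∧ r + b0 ≤ j ∧ gl ≤ r ∧ r ≤ N := by
  have h1 := mem_Ioc.1 h
  have := X.b8
  have := X.rng
  have := X.bg
  omega

theorem mem_3 (X : G43 N b0 b σ gl d j) {r : ℕ} (h : r ∈ mc3 gl d) : (j / σ + 1) * σ < r ∧ d - 6 * gl < r ∧ d - 5 * gl < r ∧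
    r ≤ d - 4 * gl ∧ r ≤ N ∧ j + b + gl ≤ r ∧ j + b0 + gl ≤ r ∧ r ≤ d - gl := by
  have h1 := mem_Ioc.1 h
  have := X.b8
  have := X.rng
  omega

theorem mem_4 (X : G43 N b0 b σ gl d j) {r : ℕ} (h : r ∈ mc4 gl d) : (j / σ + 1) * σ < r ∧ d - 4 * gl < r ∧ d - 3 * gl < r ∧
    r ≤ d - 2 * gl ∧ r ≤ N ∧ j + b + gl ≤ r ∧ j + b0 + gl ≤ r ∧ r ≤ d - gl := by
  have h1 := mem_Ioc.1 h
  have := X.b8
  have := X.rng
  omega

theorem disR (b j : ℕ) : Disjoint (nR1 b j) (nR2 b j) :=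
  disjoint_left.2 fun r h1 h2 => by
    have := mem_Ioc.1 h1
    have := mem_Ioc.1 h2
    omega

theorem disL (b j : ℕ) : Disjoint (nL1 b j) (nL2 b j) :=
  disjoint_left.2 fun r h1 h2 => by
    have := mem_Ioc.1 h1
    have := mem_Ioc.1 h2
    omega

end G43

/-! ### At one length -/

variable {μ : Measure ℝ} {s : ℝ} {E w : ℕ → ℝ} {Θ δ c c₀ a ε ι : ℝ} {m p q i : ℕ}

theorem jg43 {R : Finset ℕ} (hR : R ⊆ Kr (2 ^ m) m (((2 ^ m : ℕ) : ℝ) ^ (-ι))) (hq : q ≤ m) {j : ℕ} (hj : j ∈ R) :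
    8 * gl46 ι m q ≤ j + 1 := by
  have h1 := hR hj
  unfold Kr at h1
  simp only [Finset.mem_filter] at h1
  have h2 := (h1.2 q hq).1
  have h3 : 8 * (gl46 ι m q : ℝ) ≤ ((j % 2 ^ q : ℕ) : ℝ) + 1 := by
    have h4 : (gl46 ι m q : ℝ) ≤ ((2 ^ m : ℕ) : ℝ) ^ (-ι) * 2 ^ q / 8 := Nat.floor_le (by positivity)
    linarith
  have h4 : 8 * gl46 ι m q ≤ j % 2 ^ q + 1 := by exact_mod_cast h3
  have h5 := Nat.mod_le j (2 ^ q)
  omega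

/-- **THE GEOMETRY AT ONE LENGTH.** -/
theorem g43_at (R : Reg46 E w c₀ Θ δ a ε ((2 ^ m : ℕ) : ℝ)) (hc : 0 < c) (hcδ : 64 * c ≤ δ) (hε : ε ≤ c / 4) (hι : ι ≤ c)
    (hn : 16 ≤ ((2 ^ m : ℕ) : ℝ) ^ c) {F : Frm96} (hF : F.Ok Θ m) (hR : F.R m ⊆ Kr (2 ^ m) m (((2 ^ m : ℕ) : ℝ) ^ (-ι)))
    (hst : St96 E δ c m p q) (hdeep : Deep (F.R m) (2 ^ p) (2 ^ sg96 E c m p)) (hb0 : 1 ≤ F.b0 m p) (hb1 : 16 * F.b0 m p ≤ 2 ^ p)
    (hi : i < 2 ^ (m - q)) {j : ℕ} (hj : j ∈ Rw (F.R m) (i * 2 ^ q) ((i + 1) * 2 ^ q)) :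
    G43 (F.L m) (F.b0 m p) (2 ^ p) (2 ^ sg96 E c m p) (gl46 ι m q) ((i + 1) * 2 ^ q) j := by
  have hjR : j ∈ F.R m := (mem_inter.1 hj).1
  have hbs := bs46 R hc hcδ hst.hp hst.hps hst.hsq hst.hqm hst.leg hst.pin
  have hl := gap46 R hε hbs hι hn
  have hN1 : (1 : ℝ) ≤ ((2 ^ m : ℕ) : ℝ) := by exact_mod_cast Nat.one_le_two_pow
  have hl' : 2 ^ sg96 E c m p ≤ gl46 ι m q := by
    have h1 : (1 : ℝ) * 2 ^ sg96 E c m p ≤ ((2 ^ m : ℕ) : ℝ) ^ (5 * c) * 2 ^ sg96 E c m p :=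
      mul_le_mul_of_nonneg_right (Real.one_le_rpow hN1 (by positivity)) (by positivity)
    have h2 : (2 : ℝ) ^ sg96 E c m p ≤ gl46 ι m q := by linarith
    exact_mod_cast h2
  have h1 := kick46 (ι := ι) hR hst.hqm hj
  have h2 : (j / 2 ^ sg96 E c m p + 1) * 2 ^ sg96 E c m p = j / 2 ^ sg96 E c m p * 2 ^ sg96 E c m p + 2 ^ sg96 E c m p :=
    Nat.succ_mul _ _
  have h3 := Nat.div_mul_le_self j (2 ^ sg96 E c m p)
  have h4 := hdeep j hjR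
  have h5 : 2 ^ p ≤ 2 ^ sg96 E c m p := Nat.pow_le_pow_right two_pos hst.hps
  have hd : (i + 1) * 2 ^ q ≤ 2 ^ m := by
    calc (i + 1) * 2 ^ q ≤ 2 ^ (m - q) * 2 ^ q := Nat.mul_le_mul_right _ hi
      _ = 2 ^ m := by
          rw [← pow_add]
          congr 1
          have := hst.hqm
          omega
  refine ⟨hb0, hb1, ?_, h4.1, h4.2, by omega, h5.trans hl', jg43 hR hst.hqm hjR, hd.trans hF.hL⟩
  have h6 : 4 ≤ p := by
    by_contra h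
    have h7 : 2 ^ p < 2 ^ 4 := Nat.pow_lt_pow_right one_lt_two (by omega)
    omega
  exact pow_dvd_pow 2 h6

/-! ### At the concrete frame -/

/-- The finer window is at most a sixteenth of the base window, and at least `N ^ (-2 ι)` of it. -/
theorem b0_43 {δ ι : ℝ} (hι : 0 < ι) (hιδ : ι ≤ δ / 4) (hδ : 0 < δ) : ∀ᶠ m : ℕ in atTop, ∀ p : ℕ, δ * m ≤ p →
    1 ≤ 2 ^ (p - ⌈ι * (m : ℝ)⌉₊) ∧ 16 * 2 ^ (p - ⌈ι * (m : ℝ)⌉₊) ≤ 2 ^ p ∧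
      ((2 ^ p : ℕ) : ℝ) ≤ ((2 ^ m : ℕ) : ℝ) ^ (2 * ι) * ((2 ^ (p - ⌈ι * (m : ℝ)⌉₊) : ℕ) : ℝ) := by
  have h1 : ∀ᶠ m : ℕ in atTop, 4 / ι + 4 / δ ≤ (m : ℝ) := tendsto_natCast_atTop_atTop.eventually_ge_atTop _
  filter_upwards [h1] with m hm p hp
  have hm1 : 4 ≤ ι * m := by
    have h2 : 4 / ι ≤ m := by
      have : 0 ≤ 4 / δ := by positivity
      linarith
    rwa [div_le_iff₀ hι, mul_comm] at h2
  have hm2 : 4 ≤ δ * m := by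
    have h2 : 4 / δ ≤ m := by
      have : 0 ≤ 4 / ι := by positivity
      linarith
    rwa [div_le_iff₀ hδ, mul_comm] at h2
  have h0 : (0 : ℝ) ≤ m := Nat.cast_nonneg _
  have hc1 : (⌈ι * (m : ℝ)⌉₊ : ℝ) < ι * m + 1 := Nat.ceil_lt_add_one (by positivity)
  have hc2 : 4 ≤ ⌈ι * (m : ℝ)⌉₊ := by
    have h3 : (4 : ℝ) ≤ ⌈ι * (m : ℝ)⌉₊ := hm1.trans (Nat.le_ceil _)
    exact_mod_cast h3
  have hc3 : ⌈ι * (m : ℝ)⌉₊ ≤ p := by
    have h4 : ι * m ≤ δ / 4 * m := mul_le_mul_of_nonneg_right hιδ h0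
    have : (⌈ι * (m : ℝ)⌉₊ : ℝ) ≤ p := by linarith
    exact_mod_cast this
  refine ⟨Nat.one_le_two_pow, ?_, ?_⟩
  · calc 16 * 2 ^ (p - ⌈ι * (m : ℝ)⌉₊) = 2 ^ (4 + (p - ⌈ι * (m : ℝ)⌉₊)) := by
          rw [pow_add]
          norm_num
      _ ≤ 2 ^ p := Nat.pow_le_pow_right two_pos (by omega)
  · have e1 : ((2 ^ p : ℕ) : ℝ) = (2 : ℝ) ^ ((⌈ι * (m : ℝ)⌉₊ : ℕ) : ℝ) * ((2 ^ (p - ⌈ι * (m : ℝ)⌉₊) : ℕ) : ℝ) := by
      rw [Real.rpow_natCast]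
      push_cast
      rw [← pow_add]
      congr 1
      omega
    have e2 : (2 : ℝ) ^ ((⌈ι * (m : ℝ)⌉₊ : ℕ) : ℝ) ≤ ((2 ^ m : ℕ) : ℝ) ^ (2 * ι) := by
      push_cast
      rw [← Real.rpow_natCast 2 m, ← Real.rpow_mul two_pos.le]
      refine Real.rpow_le_rpow_of_exponent_le one_le_two ?_
      linarith
    rw [e1]
    exact mul_le_mul_of_nonneg_right e2 (by positivity)

/-- **THE GEOMETRY AT THE CONCRETE FRAME.** -/
theorem g43_est [IsProbabilityMeasure μ] {c₁ C : ℝ} {n₀ : ℕ} (h : In μ s c₁ C n₀) (hk : KapLe96 (EE μ s) (1 / 4)) {K : ℕ}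
    (hK : 6 ≤ K) (hΘ : 0 < Θ) (hδ : 0 < δ) (hc : 0 < c) (hcδ : c ≤ δ / 64) (hR : RegP46 μ s c₀ Θ) :
    Est fun ι β γ m => ∀ p q i : ℕ, St96 (EE μ s) δ c m p q → i < 2 ^ (m - q) →
      ∀ j ∈ Rw ((frm33 μ s K ι β γ).R m) (i * 2 ^ q) ((i + 1) * 2 ^ q),
        G43 ((frm33 μ s K ι β γ).L m) ((frm33 μ s K ι β γ).b0 m p) (2 ^ p) (2 ^ sg96 (EE μ s) c m p) (gl46 ι m q)
          ((i + 1) * 2 ^ q) j := by
  obtain ⟨a, _, _, hRe⟩ := hR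
  have hb : Est fun ι β γ m => ∀ p : ℕ, δ * m ≤ p → 1 ≤ (frm33 μ s K ι β γ).b0 m p ∧ 16 * (frm33 μ s K ι β γ).b0 m p ≤ 2 ^ p := by
    refine ⟨δ / 4, by positivity, fun ι hι hιδ => Sml.of fun β _ => Sml.of fun γ _ => ?_⟩
    filter_upwards [b0_43 hι hιδ hδ] with m hm p hp
    exact ⟨(hm p hp).1, (hm p hp).2.1⟩
  have hev : ∀ᶠ m : ℕ in atTop, Reg46 (EE μ s) (Pool.Agent.W_7d29a1_HS.wd μ s) c₀ Θ δ a (c / 4) ((2 ^ m : ℕ) : ℝ) ∧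
      16 ≤ ((2 ^ m : ℕ) : ℝ) ^ c := by
    filter_upwards [hRe δ (c / 4) hδ (by positivity), pow_ev96 hc 16] with m h1 h2
    exact ⟨h1.1, h2⟩
  have hall := (((ok33 (μ := μ) (s := s) hK hΘ).and (deep33 (K := K) h hk hδ hc.le hcδ)).and hb).and
    ((Est.iota (Sml.le hc)).and (Est.of_ev hev))
  refine hall.mono fun ι β γ hι _ _ => Eventually.of_forall fun m hm => ?_
  obtain ⟨⟨⟨g1, g2⟩, g3⟩, g4, g5, g6⟩ := hm
  intro p q i hst hi j hj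
  exact g43_at g5 hc (by linarith) le_rfl g4 g6 g1 (Finset.Subset.refl _) hst (g2 p q hst) (g3 p hst.hp).1 (g3 p hst.hp).2 hi hj

end

end Pool.Agent.W_7d29a1_C0.E2G43
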