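import Pool.Agent.W_7d29a1_C0.E2L65
import Pool.Agent.W_7d29a1_C0.E2G43
import Pool.Agent.W_7d29a1_C0.Far19C

/-!
MP_7d29a1_pr, [CURV0] (helper93), section E2: THE DATA OF PART L AT THE CONCRETE FRAME. `ls93`: the slabs of `E2L65` in the geometry `G43`;
`tlN93`, `tlM93`: the near tubes (key row `j - b / 2`, boxes of `x 2`, `x 1`) and the macro tubes (key row `d - 2 gl`, boxes of `x 2`, `x 0`)
of the key `kapL`; `key93`: the key knows the pin `d - 6 gl` and sees `x 0` behind the macro slabs only.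
-/

set_option autoImplicit false
set_option linter.unusedSectionVars false
set_option linter.unusedVariables false

namespace Pool.Agent.W_7d29a1_C0.E2BL93

open Finset MeasureTheory Filter Topology
open Pool.Agent.W_7d29a1_F Pool.Agent.W_7d29a1_X
open Pool.Agent.W_7d29a1_H (sl)
open Pool.Agent.W_7d29a1_C0 Pool.Agent.W_7d29a1_C0.Mod92 Pool.Agent.W_7d29a1_C0.Swap57
open Pool.Agent.W_7d29a1_C0.E2G43 Pool.Agent.W_7d29a1_C0.EL65 Pool.Agent.W_7d29a1_C0.KL65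
open Pool.Agent.W_7d29a1_C0.InT57 (pz)
open Pool.W7d29a1.C0 Pool.W7d29a1.C0.T73

noncomputable section

/-! ### The slabs -/

section Geo

variable {N b0 b σ gl d j : ℕ}

/-- **The slabs of part L.** -/
theorem ls93 (X : G43 N b0 b σ gl d j) : LS65 N b0 (b / 2) b σ j (d - gl) d (j - b / 8) (d - 6 * gl) (d - 4 * gl) (nL1 b j) (nL2 b j)
    (mc3 gl d) (mc4 gl d) := by
  obtain ⟨h1, h2, h3, h4, h5⟩ := X.b8
  have g0 := X.rng
  have g1 := X.bp
  have g2 := X.glp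
  refine ⟨X.geo, by omega, by omega, fun r hr => ?_, fun r hr => ?_, fun r hr r' hr' => ?_, by omega, fun r hr => ?_, fun r hr => ?_,
    by omega, by omega, ?_, ?_, ?_, ?_⟩
  · have := mem_Ioc.1 hr
    omega
  · have := mem_Ioc.1 hr
    omega
  · have := mem_Ioc.1 hr
    have := mem_Ioc.1 hr'
    omega
  · have := mem_Ioc.1 hr
    omega
  · have := mem_Ioc.1 hr
    omega
  · exact nonempty_Ioc.2 (by omega)
  · exact nonempty_Ioc.2 (by omega)
  · exact nonempty_Ioc.2 (by omega)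
  · exact nonempty_Ioc.2 (by omega)

end Geo

/-! ### The tubes -/

section Tubes

variable {μ : Measure ℝ} {s : ℝ} {N y : ℕ}

/-- The near tubes of the key. -/
def chN93 (μ : Measure ℝ) (s : ℝ) (N : ℕ) (R : ℝ) (k0 : ℕ) (β : TK N) : Pt → ℝ := chT (sl μ s) R ((k0 : ℕ) : ℤ) β.1

/-- The macro tubes of the key. -/
def chM93 (μ : Measure ℝ) (s : ℝ) (N : ℕ) (R : ℝ) (k0 : ℕ) (β : TK N) : Pt → ℝ := chT (sl μ s) R ((k0 : ℕ) : ℤ) β.2.2

/-- Out of the near tubes over the rows `I`. -/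
def oN93 (μ : Measure ℝ) (s : ℝ) (N y : ℕ) (R : ℝ) (k0 : ℕ) (I : Finset ℕ) (β : TK N) (S : Px (Pn N y)) : ℝ :=
  oB (sl μ s) R ((k0 : ℕ) : ℤ) I (fun β : TK N => β.1) β S

/-- Out of the macro tubes over the rows `I`. -/
def oM93 (μ : Measure ℝ) (s : ℝ) (N y : ℕ) (R : ℝ) (k0 : ℕ) (I : Finset ℕ) (β : TK N) (S : Px (Pn N y)) : ℝ :=
  oB (sl μ s) R ((k0 : ℕ) : ℤ) I (fun β : TK N => β.2.2) β S

theorem tl93 {R : ℝ} (hR : 1 ≤ R) (k0 : ℕ) (I : Finset ℕ) (bxs : TK N → Fin 2 → Fin (N + 1)) :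
    TL65 N I (fun β => chT (sl μ s) R ((k0 : ℕ) : ℤ) (bxs β)) (fun β (S : Px (Pn N y)) => oB (sl μ s) R ((k0 : ℕ) : ℤ) I bxs β S)
      (21 * R) where
  z β p := chT_nonneg _ p
  u β p := chT_le_one _ p
  n β i _ := by
    refine (card_row hR (bxs β) i).trans ?_
    push_cast
    linarith
  far β S h := by
    obtain ⟨i, hi, h1⟩ := h
    unfold oB
    rw [if_pos]
    exact OutB_iff.2 ⟨(i : ℤ), mem_JZ.2 ⟨i, hi, rfl⟩, by
      show chT (sl μ s) R ((k0 : ℕ) : ℤ) (bxs β) ((i : ℤ), InT57.pz S (i : ℤ)) ≠ 1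
      unfold InT57.pz
      rw [Int.toNat_natCast]
      exact h1⟩
  o0 β S := oB_nonneg _ _ _ _ _ _ _
  o1 β S := oB_le_one _ _ _ _ _ _ _

/-- **The near tubes**, at most `21 R` sites in every row. -/
theorem tlN93 {R : ℝ} (hR : 1 ≤ R) (k0 : ℕ) (I : Finset ℕ) : TL65 N I (chN93 μ s N R k0) (oN93 μ s N y R k0 I) (21 * R) :=
  tl93 hR k0 I fun β : TK N => β.1

/-- **The macro tubes**, at most `21 R` sites in every row. -/
theorem tlM93 {R : ℝ} (hR : 1 ≤ R) (k0 : ℕ) (I : Finset ℕ) : TL65 N I (chM93 μ s N R k0) (oM93 μ s N y R k0 I) (21 * R) :=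
  tl93 hR k0 I fun β : TK N => β.2.2

/-- **The key of part L.** -/
theorem key93 {b0 b σ gl d j : ℕ} (X : G43 N b0 b σ gl d j) (R1 R3 : ℝ) : Key65 (d - 6 * gl) (mc3 gl d) (mc4 gl d)
    (kapL (Q := Pn N y) N R1 R3 (j - b / 2) (d - 2 * gl) (d - 6 * gl)) keL where
  kk := kk_L (by have := X.rng; omega)
  k3 := kx_L fun r hr => by
    have := X.mem_3 hr
    have := X.glp
    omega
  k4 := kx_L fun r hr => (X.mem_4 hr).2.2.2.1

end Tubes

end

end Pool.Agent.W_7d29a1_C0.E2BL93
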