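import Pool.Agent.W_7d29a1_C0.MicI14

/-!
CURV0 (MP_7d29a1_pr), section E2, part L: THE LIST OF THE REMAINDERS. The pinned remainders `A β = Nb (ke β) + F β` (honest part: pinned at
the position `ke β` of `x 2` at the row `e`; far part `F β`), minus the average over the macro slab `J'`. `one_L14`, `two_L14`, `mac_L14`:
the three sums over the key are bounded by the micro tie `n` at the own paths, by `TL` = the inner pair told given `pJ 0 m'` + LONG, and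
by three raw far quantities. (helper14)
-/

set_option autoImplicit false
set_option linter.unusedSectionVars false
set_option linter.unusedVariables false

namespace Pool.Agent.W_7d29a1_C0.MicL14

open Finset MeasureTheory Pool.Agent.W_7d29a1_F Pool.Agent.W_7d29a1_X Pool.Agent.W_7d29a1_C0 Pool.Agent.W_7d29a1_C0.Mod92
open Pool.W7d29a1.C0 Pool.W7d29a1.C0.VT31 Pool.W7d29a1.C0.I52 Pool.Agent.W_7d29a1_C0.Swap57
open Pool.Agent.W_7d29a1_C0.CutE14 Pool.Agent.W_7d29a1_C0.MicE14 Pool.Agent.W_7d29a1_C0.MicT14 Pool.Agent.W_7d29a1_C0.MicH14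
open Pool.Agent.W_7d29a1_C0.MicI14

noncomputable section

section Abs

variable {X : Type*} [Fintype X] [DecidableEq X] [Nonempty X] {Y Y' Z T E : Type*} [DecidableEq Y] [DecidableEq Y'] [DecidableEq Z]
  [Fintype T] [DecidableEq T] {p : X → Y} {w : X → ℝ} {I ρ : X → X → ℝ} {K0 M : ℝ} {Ψ Φ : (Fin 3 → X) → ℝ} {g A F n : X → ℝ}
  {J J' : Finset ℕ} {q : ℕ → X → Y'} {q' : ℕ → X → Z} {kap : (Fin 3 → X) → T} {r : X → Y}

/-! ### Slab averages -/

theorem Cq_mono {f h : X → ℝ} (hf : ∀ x, f x ≤ h x) (x : X) : Cq w J q f x ≤ Cq w J q h x :=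
  mul_le_mul_of_nonneg_left (Finset.sum_le_sum fun m _ => cE_mono w (q m) hf x) (inv_nonneg.2 (Nat.cast_nonneg _))

theorem Cq_nonneg {f : X → ℝ} (hf : ∀ x, 0 ≤ f x) (x : X) : 0 ≤ Cq w J q f x :=
  mul_nonneg (inv_nonneg.2 (Nat.cast_nonneg _)) (Finset.sum_nonneg fun m _ => cE_nonneg _ _ hf x)

theorem Cq_add (f h : X → ℝ) : Cq w J q (f + h) = Cq w J q f + Cq w J q h := by
  funext x
  show (J.card : ℝ)⁻¹ * ∑ m ∈ J, cE w (q m) (f + h) x = (J.card : ℝ)⁻¹ * (∑ m ∈ J, cE w (q m) f x) +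
    (J.card : ℝ)⁻¹ * ∑ m ∈ J, cE w (q m) h x
  rw [← mul_add, ← Finset.sum_add_distrib]
  congr 1
  exact Finset.sum_congr rfl fun m _ => by rw [cE_add, Pi.add_apply]

theorem Cq_mul (c : ℝ) (f : X → ℝ) (x : X) : Cq w J q (fun y => c * f y) x = c * Cq w J q f x := by
  show (J.card : ℝ)⁻¹ * ∑ m ∈ J, cE w (q m) (fun y => c * f y) x = c * ((J.card : ℝ)⁻¹ * ∑ m ∈ J, cE w (q m) f x)
  have e : ∀ m ∈ J, cE w (q m) (fun y => c * f y) x = c * cE w (q m) f x := fun m _ => by rw [cE_eq_av, av_smul, ← cE_eq_av]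
  rw [Finset.sum_congr rfl e, ← Finset.mul_sum, mul_left_comm]

theorem abs_Cq_le (f : X → ℝ) (x : X) : |Cq w J q f x| ≤ Cq w J q (fun y => |f y|) x := by
  show |(J.card : ℝ)⁻¹ * ∑ m ∈ J, cE w (q m) f x| ≤ (J.card : ℝ)⁻¹ * ∑ m ∈ J, cE w (q m) (fun y => |f y|) x
  rw [abs_mul, abs_of_nonneg (inv_nonneg.2 (Nat.cast_nonneg _))]
  exact mul_le_mul_of_nonneg_left ((Finset.abs_sum_le_sum_abs _ _).trans (Finset.sum_le_sum fun m _ =>
    abs_cE_n (fun y => le_rfl) x)) (inv_nonneg.2 (Nat.cast_nonneg _))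

/-- The average over a slab in front of the row. -/
theorem cE_Cq (hJ : J.Nonempty) (hc : ∀ m ∈ J, Crs r (q m)) (f : X → ℝ) (x : X) : cE w r (Cq w J q f) x = cE w r f x := by
  have h0 : (J.card : ℝ) ≠ 0 := Nat.cast_ne_zero.2 (card_pos.2 hJ).ne'
  have e : Cq w J q f = (J.card : ℝ)⁻¹ • ∑ m ∈ J, cE w (q m) f := by
    funext y
    rw [Pi.smul_apply, smul_eq_mul, Finset.sum_apply]
    rfl
  rw [e, cE_smul, Pi.smul_apply, smul_eq_mul, cE_sum, Finset.sum_apply,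
    Finset.sum_congr rfl fun m hm => congrFun (cE_tower w (hc m hm) f) x, Finset.sum_const, nsmul_eq_mul, ← mul_assoc,
    inv_mul_cancel₀ h0, one_mul]

theorem aN_le (x : X) : aN w J q A x ≤ |A x| + Cq w J q (fun y => |A y|) x :=
  (abs_sub _ _).trans (add_le_add le_rfl (abs_Cq_le A x))

theorem aN_add_le (x : X) : aN w J q (A + F) x ≤ aN w J q A x + aN w J q F x := by
  unfold aN
  rw [Cq_add, add_sub_add_comm]
  exact abs_add_le _ _

/-! ### The far part, raw -/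

/-- The far part at its own paths. -/
def fa (w : X → ℝ) (p : X → Y) (kap : (Fin 3 → X) → T) (F : T → X → ℝ) (Ψ : (Fin 3 → X) → ℝ) : ℝ :=
  ev (P3 p) w fun x => |Ψ x| * (|F (kap x) (x 2)| + |F (kap x) (x 1)|)

/-- The far part at the shadow of the inner pair. -/
def fb (w : X → ℝ) (p : X → Y) (kap : (Fin 3 → X) → T) (F : T → X → ℝ) (Ψ : (Fin 3 → X) → ℝ) : ℝ :=
  ev (P3 p) w fun x => |Ψ x| * cE w p (fun y => |F (kap x) y|) (x 2)

/-- The far part at a path drawn given `q m'` of `x 2`. -/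
def fc (w : X → ℝ) (p : X → Y) (J : Finset ℕ) (q : ℕ → X → Y') (kap : (Fin 3 → X) → T) (F : T → X → ℝ) (Ψ : (Fin 3 → X) → ℝ) : ℝ :=
  ev (P3 p) w fun x => |Ψ x| * Cq w J q (fun y => |F (kap x) y|) (x 2)

theorem ur_far (hc : ∀ m ∈ J, Crs (q m) p) (F : T → X → ℝ) {a b : ℝ} (a0 : 0 ≤ a) (b0 : 0 ≤ b) :
    Ur w p J q kap F a b Ψ ≤ a * fa w p kap F Ψ + b * fb w p kap F Ψ + (2 * a + b) * fc w p J q kap F Ψ := by
  unfold Ur fa fb fc
  rw [← I52.ev_smul, ← I52.ev_smul, ← I52.ev_smul, ← I52.ev_add, ← I52.ev_add]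
  refine ev_mono' _ _ fun x hx => ?_
  set G := F (kap x) with hG
  set C := Cq w J q (fun y => |G y|) with hC
  have hm : Mp p C := mp_Cq hc
  have h1 : aN w J q G (x 2) ≤ |G (x 2)| + C (x 2) := aN_le _
  have h2 : aN w J q G (x 1) ≤ |G (x 1)| + C (x 2) := by
    have h := aN_le (w := w) (J := J) (q := q) (A := G) (x 1)
    have e : C (x 1) = C (x 2) := hm _ _ (p_eq hx)
    rwa [← hC, e] at h
  have h3 : cE w p (aN w J q G) (x 2) ≤ cE w p (fun y => |G y|) (x 2) + C (x 2) := by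
    have h := cE_mono w p (f := aN w J q G) (g := (fun y => |G y|) + C) (fun y => aN_le y) (x 2)
    rwa [cE_add, Pi.add_apply, cE_of_meas w hm] at h
  have h4 := mul_le_mul_of_nonneg_left (add_le_add (mul_le_mul_of_nonneg_left (add_le_add h1 h2) a0)
    (mul_le_mul_of_nonneg_left h3 b0)) (abs_nonneg (Ψ x))
  refine h4.trans (le_of_eq ?_)
  ring

theorem ur_add (A F : T → X → ℝ) {a b : ℝ} (a0 : 0 ≤ a) (b0 : 0 ≤ b) :
    Ur w p J q kap (fun β => A β + F β) a b Ψ ≤ Ur w p J q kap A a b Ψ + Ur w p J q kap F a b Ψ := by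
  unfold Ur
  rw [← I52.ev_add]
  refine I52.ev_mono _ _ fun x => ?_
  have h1 := aN_add_le (w := w) (J := J) (q := q) (A := A (kap x)) (F := F (kap x)) (x 2)
  have h2 := aN_add_le (w := w) (J := J) (q := q) (A := A (kap x)) (F := F (kap x)) (x 1)
  have h3 : cE w p (aN w J q (A (kap x) + F (kap x))) (x 2) ≤
      cE w p (aN w J q (A (kap x))) (x 2) + cE w p (aN w J q (F (kap x))) (x 2) := by
    have h := cE_mono w p (f := aN w J q (A (kap x) + F (kap x))) (g := aN w J q (A (kap x)) + aN w J q (F (kap x)))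
      (fun y => aN_add_le y) (x 2)
    rwa [cE_add, Pi.add_apply] at h
  have h4 := mul_le_mul_of_nonneg_left (add_le_add (mul_le_mul_of_nonneg_left (add_le_add h1 h2) a0)
    (mul_le_mul_of_nonneg_left h3 b0)) (abs_nonneg (Ψ x))
  refine h4.trans (le_of_eq ?_)
  ring

/-- The majorant of a sum, the second function sees only `p`. -/
theorem G1_add {n2 : X → ℝ} (hm : Mp p n2) (α β : ℝ) :
    G1 w p I ρ (fun y => n y + n2 y) α β = G1 w p I ρ n α β + (α + β) * PP w fun x x' => mi w p I x * (n2 x * ρ x x') := by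
  have e : (fun y => n y + n2 y) = n + n2 := rfl
  have e0 : cE w p (n + n2) = fun x => cE w p n x + n2 x := by
    rw [cE_add, cE_of_meas w hm]
    rfl
  have e1 : PP w (fun x x' => mi w p I x * ((n x + n2 x) * ρ x x')) =
      PP w (fun x x' => mi w p I x * (n x * ρ x x')) + PP w fun x x' => mi w p I x * (n2 x * ρ x x') := by
    rw [← PP_add w (fun x x' => mi w p I x * (n x * ρ x x')) fun x x' => mi w p I x * (n2 x * ρ x x')]
    congr 1
    funext x x'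
    ring
  have e2 : PP w (fun x x' => mi w p I x * ((cE w p n x + n2 x) * ρ x x')) =
      PP w (fun x x' => mi w p I x * (cE w p n x * ρ x x')) + PP w fun x x' => mi w p I x * (n2 x * ρ x x') := by
    rw [← PP_add w (fun x x' => mi w p I x * (cE w p n x * ρ x x')) fun x x' => mi w p I x * (n2 x * ρ x x')]
    congr 1
    funext x x'
    ring
  unfold G1
  rw [e, e0]
  show α * PP w (fun x x' => mi w p I x * ((n x + n2 x) * ρ x x')) + β * PP w (fun x x' => mi w p I x * ((cE w p n x + n2 x) * ρ x x')) = _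
  rw [e1, e2]
  ring

end Abs

/-! ### The model -/

section L

open Pool.Agent.W_7d29a1_C0.NM82 (Hd Rk)

variable {Q : Finset (Finset ℕ)} [SwQ Q] [Nonempty (Px Q)] {z' e : ℕ} {w : Px Q → ℝ} {Y T E : Type*} [DecidableEq Y] [Fintype T]
  [DecidableEq T] {p : Px Q → Y} {J' J'' : Finset ℕ} {I ρ : Px Q → Px Q → ℝ} {K0 M Mb : ℝ} {Ψ : (Fin 3 → Px Q) → ℝ} {g n : Px Q → ℝ}
  {kap : (Fin 3 → Px Q) → T} {k : Px Q → E} {ke : T → E} {Nb : E → Px Q → ℝ} {F : T → Px Q → ℝ}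

/-- LONG: the own loop and a path drawn given `pJ 0 m'`, apart on `[z', e]`. -/
def Lng (w : Px Q → ℝ) (p : Px Q → Y) (J' : Finset ℕ) (z' e : ℕ) (I ρ : Px Q → Px Q → ℝ) : ℝ :=
  (J'.card : ℝ)⁻¹ * ∑ m ∈ J', PP w fun x y => mi w p I x * (cE w (pJ 0 m) (NI z' e x) x * ρ x y)

/-- The terms told given `pJ 0 m'`. -/
def TL (w : Px Q → ℝ) (p : Px Q → Y) (J' : Finset ℕ) (z' e : ℕ) (I ρ : Px Q → Px Q → ℝ) (n : Px Q → ℝ) (Mb : ℝ) : ℝ :=
  T0Q w p J' (pJ 0) I ρ n + Mb * Lng w p J' z' e I ρ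

/-- The pinned remainder, averaged over the macro slab, pinned at the own path. -/
def n2 (w : Px Q → ℝ) (J' : Finset ℕ) (k : Px Q → E) (Nb : E → Px Q → ℝ) (x : Px Q) : ℝ :=
  Cq w J' (pJ 0) (fun y => |Nb (k x) y|) x

/-- The data of part L. -/
structure HL (w : Px Q → ℝ) (p : Px Q → Y) (z' e : ℕ) (I ρ : Px Q → Px Q → ℝ) (K0 Mb : ℝ) (n : Px Q → ℝ)
    (kap : (Fin 3 → Px Q) → T) (k : Px Q → E) (ke : T → E) (Nb : E → Px Q → ℝ) (Ψ : (Fin 3 → Px Q) → ℝ) : Prop where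
  hd : Hd z' e w
  bd : Bdp I ρ K0 Ψ
  Is : ∀ x y, I x y = I y x
  I0 : ∀ x y, 0 ≤ I x y
  mpr : ∀ y, Mp p fun x => ρ x y
  r0 : ∀ x y, 0 ≤ ρ x y
  n0 : ∀ x, 0 ≤ n x
  lmi : Lk 0 z' (mi w p I)
  kp : ∀ y y', p y = p y' → k y = k y'
  ker : ∀ S S' : Px Q, (∀ i, e ≤ i → ps S i = ps S' i) → k S = k S'
  kk : ∀ x, wt (P3 p) w x ≠ 0 → k (x 2) = ke (kap x)
  lN : ∀ b, Lk 0 z' fun y => |Nb b y|
  bN : ∀ b S, |Nb b S| ≤ Mb
  nN : ∀ S, |Nb (k S) S| ≤ n S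

/-- A macro slab. -/
structure SL (p : Px Q → Y) (e : ℕ) (ρ : Px Q → Px Q → ℝ) (J' : Finset ℕ) : Prop where
  ne : J'.Nonempty
  le : ∀ m ∈ J', e ≤ m
  crs : ∀ m ∈ J', Crs (pJ 0 m) p
  mpr : ∀ m ∈ J', ∀ y, Mp (pJ 0 m) fun x => ρ x y

variable (H : HL w p z' e I ρ K0 Mb n kap k ke Nb Ψ) (hS : SL p e ρ J') (hS' : SL p e ρ J'')

include H

theorem HL.K00 : 0 ≤ Mb := (abs_nonneg _).trans (H.bN (k (Classical.arbitrary _)) (Classical.arbitrary _))

theorem HL.mi0 (x : Px Q) : 0 ≤ mi w p I x := cE_nonneg _ _ (fun y => H.I0 x y) x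

theorem HL.n20 (x : Px Q) : 0 ≤ n2 w J' k Nb x := Cq_nonneg (fun y => abs_nonneg _) x

include hS

theorem HL.mn2 : Mp p (n2 w J' k Nb) := fun x y h => by
  unfold n2
  rw [H.kp x y h]
  exact mp_Cq hS.crs x y h

/-- **(EX) over the slab.** -/
theorem HL.t2 : PP w (fun x y => mi w p I x * (n2 w J' k Nb x * ρ x y)) ≤ TL w p J' z' e I ρ n Mb := by
  have e1 := PP_avg (J' := J') w (mi w p I) ρ (J'.card : ℝ)⁻¹ fun m x => cE w (pJ 0 m) (fun y => |Nb (k x) y|) x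
  have e2 : PP w (fun x y => mi w p I x * (n2 w J' k Nb x * ρ x y)) =
      (J'.card : ℝ)⁻¹ * ∑ m ∈ J', PP w fun x y => mi w p I x * (cE w (pJ 0 m) (fun y => |Nb (k x) y|) x * ρ x y) := e1
  rw [e2]
  have h1 : ∀ m ∈ J', PP w (fun x y => mi w p I x * (cE w (pJ 0 m) (fun y => |Nb (k x) y|) x * ρ x y)) ≤
      PP w (fun x y => cE w (pJ 0 m) (mi w p I) x * (n x * ρ x y)) +
        Mb * PP w fun x y => mi w p I x * (cE w (pJ 0 m) (NI z' e x) x * ρ x y) := fun m hm => by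
    rw [← PP_sym w (pJ 0 m) (mi w p I) n (hS.mpr m hm)]
    exact ex14 (a := mi w p I) (n := n) (k := k) (ρ := ρ) (V := fun b y => |Nb b y|) (Mb := Mb) (hS.le m hm) H.hd H.lmi H.mi0 (hS.mpr m hm) H.r0 H.ker H.lN (fun b S => abs_nonneg _) H.bN H.nN
  have h2 := mul_le_mul_of_nonneg_left (Finset.sum_le_sum h1) (inv_nonneg.2 (Nat.cast_nonneg J'.card) : (0 : ℝ) ≤ (J'.card : ℝ)⁻¹)
  refine h2.trans (le_of_eq ?_)
  rw [Finset.sum_add_distrib, ← Finset.mul_sum, mul_add]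
  unfold TL T0Q Lng
  ring

theorem HL.kb : Kb w p kap (fun β => aN w J' (pJ 0) (Nb (ke β))) fun y => n y + n2 w J' k Nb y :=
  kb_of (k := k) (ke := ke) H.kp H.kk fun β y h => by
    have h1 := aN_le (w := w) (J := J') (q := pJ 0) (A := Nb (ke β)) y
    have h2 : |Nb (ke β) y| ≤ n y := by
      rw [← h]
      exact H.nN y
    have h3 : n2 w J' k Nb y = Cq w J' (pJ 0) (fun v => |Nb (ke β) v|) y := by
      unfold n2
      rw [h]
    show aN w J' (pJ 0) (Nb (ke β)) y ≤ n y + n2 w J' k Nb y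
    rw [h3]
    linarith

theorem HL.g1 {α β : ℝ} (h0 : 0 ≤ α + β) (hK : 0 ≤ K0) :
    K0 * G1 w p I ρ (fun y => n y + n2 w J' k Nb y) α β ≤ K0 * (G1 w p I ρ n α β + (α + β) * TL w p J' z' e I ρ n Mb) := by
  rw [G1_add (H.mn2 hS)]
  exact mul_le_mul_of_nonneg_left (add_le_add le_rfl (mul_le_mul_of_nonneg_left (H.t2 hS) h0)) hK

theorem HL.ur (hK : 0 ≤ K0) {a b : ℝ} (a0 : 0 ≤ a) (b0 : 0 ≤ b) :
    Ur w p J' (pJ 0) kap (fun β => Nb (ke β) + F β) a b Ψ ≤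
      K0 * (G1 w p I ρ n (2 * a) b + (2 * a + b) * TL w p J' z' e I ρ n Mb) +
        (a * fa w p kap F Ψ + b * fb w p kap F Ψ + (2 * a + b) * fc w p J' (pJ 0) kap F Ψ) := by
  refine (ur_add _ _ a0 b0).trans (add_le_add ?_ (ur_far hS.crs F a0 b0))
  refine (ur_le H.bd H.Is H.mpr (fun x => add_nonneg (H.n0 x) (H.n20 x)) (H.kb hS) a0 b0).trans ?_
  exact H.g1 hS (add_nonneg (mul_nonneg zero_le_two a0) b0) hK

/-- **PART L, ONE INSERTION.** -/
theorem HL.one (hK : 0 ≤ K0) (hO : Ox J' (pJ 0) Ψ) (hk : Kx J' (pJ 0) kap) :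
    ∑ β, |(P3 p).ks.dbl.toEv.ev w ((P3 p).ks.dr.ins ((Nb (ke β) + F β) - Cq w J' (pJ 0) (Nb (ke β) + F β)) (lk14 kap β Ψ))| ≤
      K0 * (G1 w p I ρ n 2 1 + 3 * TL w p J' z' e I ρ n Mb) +
        (fa w p kap F Ψ + fb w p kap F Ψ + 3 * fc w p J' (pJ 0) kap F Ψ) := by
  refine (sum_one_raw hS.ne (fun β => Nb (ke β) + F β) hO hk).trans ?_
  have h := H.ur hS (F := F) hK zero_le_one zero_le_one
  norm_num at h ⊢
  exact h

/-- **PART L, TWO INSERTIONS.** -/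
theorem HL.two (M0 : 0 ≤ M) (hg : ∀ x, |g x| ≤ M) (hK : 0 ≤ K0) (hO : Ox J' (pJ 0) Ψ) (hk : Kx J' (pJ 0) kap) :
    ∑ β, |(P3 p).ks.dbl.dbl.toEv.ev w ((P3 p).ks.dbl.dr.ins ((Nb (ke β) + F β) - Cq w J' (pJ 0) (Nb (ke β) + F β))
        ((P3 p).ks.dr.ins g (lk14 kap β Ψ))) -
      (P3 p).ks.dbl.toEv.ev w ((P3 p).ks.dr.ins
        (fun s => g s * ((Nb (ke β) + F β) - Cq w J' (pJ 0) (Nb (ke β) + F β)) s) (lk14 kap β Ψ))| ≤
      M * (K0 * (G1 w p I ρ n 14 19 + 33 * TL w p J' z' e I ρ n Mb) +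
        (7 * fa w p kap F Ψ + 19 * fb w p kap F Ψ + 33 * fc w p J' (pJ 0) kap F Ψ)) := by
  refine (sum_two_raw M0 hg hS.ne (fun β => Nb (ke β) + F β) hO hk).trans (mul_le_mul_of_nonneg_left ?_ M0)
  have h := H.ur hS (F := F) hK (a := 7) (b := 19) (by norm_num) (by norm_num)
  norm_num at h ⊢
  exact h

include hS'

/-- **PART L, THE SECOND MACRO SLAB**, behind the first one. -/
theorem HL.mac (M0 : 0 ≤ M) (hg : ∀ x, |g x| ≤ M) (hK : 0 ≤ K0) (hO : Ox J'' (pJ 0) Ψ) (hk : Kx J'' (pJ 0) kap)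
    (hJJ : ∀ m ∈ J', ∀ m' ∈ J'', m ≤ m') :
    ∑ β, |(P3 p).ks.dbl.toEv.ev w ((P3 p).ks.dr.ins
        ((fun s => g s * ((Nb (ke β) + F β) - Cq w J' (pJ 0) (Nb (ke β) + F β)) s) -
          Cq w J'' (pJ 0) fun s => g s * ((Nb (ke β) + F β) - Cq w J' (pJ 0) (Nb (ke β) + F β)) s) (lk14 kap β Ψ))| ≤
      M * (K0 * (G1 w p I ρ n 2 1 + 3 * TL w p J' z' e I ρ n Mb + 2 * TL w p J'' z' e I ρ n Mb) +
        (fa w p kap F Ψ + fb w p kap F Ψ + 3 * fc w p J' (pJ 0) kap F Ψ + 2 * fc w p J'' (pJ 0) kap F Ψ)) := by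
  set A : T → Px Q → ℝ := fun β => Nb (ke β) + F β with hA
  set h : T → Px Q → ℝ := fun β s => g s * (A β - Cq w J' (pJ 0) (A β)) s with hh
  have hh1 : ∀ β y, |h β y| ≤ M * aN w J' (pJ 0) (A β) y := fun β y => by
    rw [hh]
    show |g y * (A β - Cq w J' (pJ 0) (A β)) y| ≤ _
    rw [abs_mul]
    exact mul_le_mul (hg y) le_rfl (abs_nonneg _) M0
  refine (sum_mac_raw hS'.ne h hO hk hS'.crs).trans ?_
  have b1 : ev (P3 p) w (fun x => |Ψ x| * (|h (kap x) (x 2)| + |h (kap x) (x 1)| + cE w p (fun y => |h (kap x) y|) (x 2))) ≤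
      M * Ur w p J' (pJ 0) kap A 1 1 Ψ := by
    unfold Ur
    rw [← I52.ev_smul]
    refine I52.ev_mono _ _ fun x => ?_
    have h1 := hh1 (kap x) (x 2)
    have h2 := hh1 (kap x) (x 1)
    have h3 := cE_mono w p (f := fun y => |h (kap x) y|) (g := fun y => M * aN w J' (pJ 0) (A (kap x)) y) (hh1 (kap x)) (x 2)
    have h4 : cE w p (fun y => M * aN w J' (pJ 0) (A (kap x)) y) (x 2) = M * cE w p (aN w J' (pJ 0) (A (kap x))) (x 2) := by
      rw [cE_eq_av, av_smul, ← cE_eq_av]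
    rw [h4] at h3
    refine (mul_le_mul_of_nonneg_left (add_le_add (add_le_add h1 h2) h3) (abs_nonneg (Ψ x))).trans (le_of_eq ?_)
    ring
  have b2 : ∀ x : Fin 3 → Px Q, wt (P3 p) w x ≠ 0 → |Cq w J'' (pJ 0) (h (kap x)) (x 2)| ≤
      2 * M * n2 w J'' k Nb (x 2) + 2 * M * Cq w J'' (pJ 0) (fun y => |F (kap x) y|) (x 2) := fun x hx => by
    have e1 : ∀ y, |h (kap x) y| ≤ M * ((fun y => |A (kap x) y|) + Cq w J' (pJ 0) fun y => |A (kap x) y|) y := fun y =>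
      (hh1 (kap x) y).trans (mul_le_mul_of_nonneg_left (aN_le y) M0)
    have e2 : |Cq w J'' (pJ 0) (h (kap x)) (x 2)| ≤ M * Cq w J'' (pJ 0)
        ((fun y => |A (kap x) y|) + Cq w J' (pJ 0) fun y => |A (kap x) y|) (x 2) := by
      refine (abs_Cq_le _ _).trans ((Cq_mono e1 _).trans (le_of_eq ?_))
      rw [Cq_mul]
    have e3 : Cq w J'' (pJ 0) (Cq w J' (pJ 0) fun y => |A (kap x) y|) (x 2) = Cq w J'' (pJ 0) (fun y => |A (kap x) y|) (x 2) := by
      show (J''.card : ℝ)⁻¹ * _ = (J''.card : ℝ)⁻¹ * _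
      congr 1
      exact Finset.sum_congr rfl fun m' hm' => cE_Cq hS.ne (fun m hm => crs_pJ le_rfl (hJJ m hm m' hm')) _ _
    rw [Cq_add, Pi.add_apply, e3] at e2
    have e4 : Cq w J'' (pJ 0) (fun y => |A (kap x) y|) (x 2) ≤
        n2 w J'' k Nb (x 2) + Cq w J'' (pJ 0) (fun y => |F (kap x) y|) (x 2) := by
      have e5 := Cq_mono (w := w) (J := J'') (q := pJ 0) (f := fun y => |A (kap x) y|)
        (h := (fun y => |Nb (ke (kap x)) y|) + fun y => |F (kap x) y|) (fun y => abs_add_le _ _) (x 2)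
      rw [Cq_add, Pi.add_apply] at e5
      unfold n2
      rw [H.kk x hx]
      exact e5
    have e6 := mul_le_mul_of_nonneg_left e4 M0
    linarith
  have b3 : ev (P3 p) w (fun x => |Ψ x| * |Cq w J'' (pJ 0) (h (kap x)) (x 2)|) ≤
      2 * M * (K0 * TL w p J'' z' e I ρ n Mb) + 2 * M * fc w p J'' (pJ 0) kap F Ψ := by
    have c1 : ev (P3 p) w (fun x => |Ψ x| * |Cq w J'' (pJ 0) (h (kap x)) (x 2)|) ≤
        ev (P3 p) w fun x => 2 * M * (|Ψ x| * n2 w J'' k Nb (x 2)) +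
          2 * M * (|Ψ x| * Cq w J'' (pJ 0) (fun y => |F (kap x) y|) (x 2)) := ev_mono' _ _ fun x hx => by
      refine (mul_le_mul_of_nonneg_left (b2 x hx) (abs_nonneg _)).trans (le_of_eq ?_)
      ring
    rw [I52.ev_add, I52.ev_smul, I52.ev_smul] at c1
    have c2 := own (p := p) (w := w) H.bd (fun x _ => n2 w J'' k Nb x) fun x _ => H.n20 x
    have c3 := mul_le_mul_of_nonneg_left (H.t2 hS') hK
    have c4 := mul_le_mul_of_nonneg_left (c2.trans c3) (mul_nonneg zero_le_two M0)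
    refine c1.trans (add_le_add c4 (le_of_eq rfl))
  have b4 := H.ur hS (F := F) hK zero_le_one zero_le_one
  rw [← hA] at b4
  have b5 := mul_le_mul_of_nonneg_left b4 M0
  refine (add_le_add (b1.trans b5) b3).trans (le_of_eq ?_)
  norm_num
  ring

end L

end

end Pool.Agent.W_7d29a1_C0.MicL14
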