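import Pool.Agent.W_7d29a1_C0.Cor45J
import Pool.Agent.W_7d29a1_C0.E2CL45

/-!
MP_7d29a1_pr, [CURV0] / [C0], leaf E2, PART L (helper45): **THE MICRO MAJORANT `G1` OF PART L, THE THREE LEVELS IN THE FORM `cJ0`.** As `g1CL` of
`E2CL45`, but the parts with three levels have the own event on the base path (block `(0, z)`) and `V = True` inside of `T4`: the same form as for
`T0Q` (`t0CL`), with `m' = z`. (`keyJ45`: the step from `TauM (pJ 0 m') (pJ c1 z)` to the pieces, next to the three levels.)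
-/

set_option autoImplicit false
set_option linter.unusedSectionVars false
set_option linter.unusedVariables false

namespace Pool.Agent.W_7d29a1_C0.E2CM45

open Finset MeasureTheory Filter Topology Pool.Agent.W_7d29a1_F Pool.Agent.W_7d29a1_X Pool.Agent.W_7d29a1_C0.Mod92
open Pool.Agent.W_7d29a1_C0.Swap57 Pool.Agent.W_7d29a1_C0.Blk18
open Pool.Agent.W_7d29a1_C0.MicE14 (rh rh_nonneg nn mi)
open Pool.Agent.W_7d29a1_C0.MicH14 (G1 T0Q)
open Pool.Agent.W_7d29a1_C0.MicL14 (Lng)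
open Pool.Agent.W_7d29a1_C0.T72 (Sp72 Rb72 ind72 ind72_nonneg ind72_le_one meas_ind72 uj72 abs_uj72 meas_uj72)
open Pool.Agent.W_7d29a1_C0.E2T96
open Pool.Agent.W_7d29a1_C0.E2C96
open Pool.Agent.W_7d29a1_C0.E2CL45
open Pool.Agent.W_7d29a1_C0.MicN96
open Pool.Agent.W_7d29a1_C0.T93 (Fam2)
open Pool.Agent.W_7d29a1_C0.EvT50 (RpM meas_RpM meas_Rp50)
open Pool.W7d29a1.C0
open Pool.W7d29a1.C0 (gz gm gm_nonneg gm_mono gm_const PP PP_nonneg PP_mono PP_smul)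
open Pool.W7d29a1.C0.VT31
open Pool.W7d29a1.C0.R43
open Pool.W7d29a1.C0.C45

noncomputable section

section Ends

variable {μ : Measure ℝ} {s : ℝ} {N : ℕ} [IsProbabilityMeasure μ] {γ B : ℝ} {b j : ℕ} {t : ℝ} {c0 K : ℕ}
  {ε εM K' : ℝ} {c1 wl al z e zf zt cc lo k l : ℕ} {F M D δ : ℝ} {f : Fam N} {ys : Finset ℕ}

/-- The averaged own event next to the three levels, as pieces of the own window. -/
theorem keyJ45 (hys : ∀ y ∈ ys, y ≤ N) (R : ∀ y ∈ ys, RL45 μ s N (Pn N y) γ B b j t c0 K ε εM K')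
    (hM' : (N : ℝ) ^ εM ≤ M) (hk : 10 * M ≤ k) (hk' : (k : ℝ) ≤ 20 * M) (hf : ∀ y ∈ ys, Sp72 (Pn N y) cc F c0 K (f y))
    (hF : F ≤ (N : ℝ) ^ 3) (hwl : c1 ≤ wl) (hL : wl + 3 * k * (lo + 1) ≤ al) (hal : al ≤ z) {m' : ℕ} (hm : z ≤ m') :
    (avy ys fun y => cP45 μ s N (Pn N y) (fun ω S => TauM (wm μ s N (Pn N y) ω) (pJ 0 m') (pJ c1 z) wl al M S ∧
      jT45 μ s N (Pn N y) γ B b j (c0 + K) (δ / 4) (5 * M) (fun _ _ => True) ω S) zf cc (f y)) ≤
      avy ys (cJ0 μ s N γ B b j (c0 + K) δ M m' wl lo k zf cc f) + er96 N K' := by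
  have her : 0 ≤ er96 N K' := by unfold er96; positivity
  have g1 : (avy ys fun y => cP45 μ s N (Pn N y) (fun ω S => TauM (wm μ s N (Pn N y) ω) (pJ 0 m') (pJ c1 z) wl al M S ∧
      jT45 μ s N (Pn N y) γ B b j (c0 + K) (δ / 4) (5 * M) (fun _ _ => True) ω S) zf cc (f y)) ≤
      avy ys (fun y => cJ0 μ s N γ B b j (c0 + K) δ M m' wl lo k zf cc f y + er96 N K') := by
    refine avy_mono fun y hy => ?_
    have := ne_Pn (hys y hy)
    exact (R y hy).rp hM' (hf y hy) hF (fun S => meas_jT45 (c0 + K) (δ / 4) (5 * M) (V := fun _ _ => True)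
      (fun _ => MeasurableSet.const _) S) (crs_pJ (c := c1) (d := z) (Nat.zero_le _) hm)
        (swP_pJ (Nat.zero_le _)) (blP_pJ (by omega)) (lo := lo) hk hk' hwl hL hal
  refine g1.trans ?_
  rw [avy_add]
  exact add_le_add le_rfl (avy_cle her ys)

/-- **The term `T2`**, own on the base path. -/
theorem t2CM (hys : ∀ y ∈ ys, y ≤ N) (R : ∀ y ∈ ys, RL45 μ s N (Pn N y) γ B b j t c0 K ε εM K')
    (hM : (N : ℝ) ^ εM ≤ M / 2) (hN : (64 : ℝ) ≤ N) (hB0 : 0 ≤ B) (hBN : B ≤ N) (hδ : 0 ≤ δ) (hδ1 : δ ≤ 1) (hk : 10 * M ≤ k)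
    (hk' : (k : ℝ) ≤ 20 * M) (hbj : b ≤ j) (hl : 3 * k * (l + 1) ≤ b) (hf : ∀ y ∈ ys, Sp72 (Pn N y) cc F c0 K (f y))
    (hF : F ≤ (N : ℝ) ^ 3) {a n : ℕ} (hn : 0 < n) (h1 : c1 ≤ a) (h3 : al ≤ a) (ha : a + n ≤ j - b + 1) (hz : c0 + K ≤ z) (hze : z ≤ e)
    (hjz : j + b ≤ z) (hzf : z ≤ zf) (hc : zf ≤ cc) (hzt : zf ≤ zt) (hwl : c1 ≤ wl) (hL : wl + 3 * k * (lo + 1) ≤ al)
    (hal : al ≤ z) (hε0 : 0 ≤ ε) (hε1 : ε ≤ 1) (mf : ∀ y S, Measurable fun ω => f y ω S) (bf : ∀ y ω S, |f y ω S| ≤ D) {e0 : ℝ}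
    (hflp : ∀ m ∈ Ico a (a + n), Flp45 μ s N ys γ B b j t δ c0 K zf cc f (fun y w M => Nta w (pJ (Q := Pn N y) c1 z) wl al M)
      (fun y => pJ (Q := Pn N y) m z) (fun y => pJ (Q := Pn N y) m e) (M / 2 + 2 * B) e0) :
    avy ys (fun y => ∫ ω, PP (wv μ s N y γ B b j t ω) (fun x x' => mi (wv μ s N y γ B b j t ω) (pJ c1 z) (NI wl al) x *
        (nn (wv μ s N y γ B b j t ω) (Ico a (a + n)) (fun m => pJ m e) (gg μ s (Pn N y) γ B b ω j) x *
          rh zf cc (f y ω) x x')) ∂(Pm μ N)) ≤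
      2 * (B * ((N : ℝ) ^ ε * (avy ys (mR μ s N n (fun u => one96 N (LT2l μ s N c1 z wl al z b j l k M (a + u)) zt cc) f) +
        avy ys (mR μ s N n (fun u => one96 N (LT2l μ s N c1 z wl al e b j l k M (a + u)) zt cc) f)))) +
      B * ((N : ℝ) ^ ε * avy ys (cJ0 μ s N γ B b j (c0 + K) δ M z wl lo k zf cc f)) + (6 * N ^ 2 * er96 N K' + e0) := by
  have her : 0 ≤ er96 N K' := by unfold er96; positivity
  have hM' : (N : ℝ) ^ εM ≤ M := hM.trans (by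
    have : 0 ≤ (N : ℝ) ^ εM := Real.rpow_nonneg (by linarith) _
    linarith)
  have hNε0 : 0 ≤ (N : ℝ) ^ ε := Real.rpow_nonneg (by linarith) _
  have hNε : (N : ℝ) ^ ε ≤ N := by
    have h := Real.rpow_le_rpow_of_exponent_le (show (1 : ℝ) ≤ N by linarith) hε1
    rwa [Real.rpow_one] at h
  have BN : B * (N : ℝ) ^ ε ≤ N * N := mul_le_mul hBN hNε hNε0 (by linarith)
  have BN' : ∀ x : ℝ, 0 ≤ x → B * ((N : ℝ) ^ ε * x) ≤ N ^ 2 * x := fun x hx => by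
    have h5 := mul_le_mul_of_nonneg_right BN hx
    calc B * ((N : ℝ) ^ ε * x) = B * (N : ℝ) ^ ε * x := by ring
      _ ≤ N * N * x := h5
      _ = _ := by ring
  have hJ : (Ico a (a + n)).Nonempty := nonempty_Ico.2 (by omega)
  have h := T2L45J (μ := μ) (s := s) (N := N) (γ := γ) (B := B) (b := b) (j := j) (t := t) (c0 := c0) (K := K) (ε := ε) (εM := εM)
    (K' := K') (zf := zf) (cc := cc) (c1 := c1) (z := z) (e := e) (wl := wl) (al := al) (l := l) hys R hM hN hB0 hBN hδ hδ1 hk hk' hbj hl hf hF hJ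
    (fun m hm => by
      have := mem_Ico.1 hm
      omega) hz hze hjz hzf hc hflp
  have kJ := mul_le_mul_of_nonneg_left (mul_le_mul_of_nonneg_left (keyJ45 (μ := μ) (s := s) (N := N) (γ := γ) (B := B) (b := b) (j := j)
    (t := t) (c0 := c0) (K := K) (ε := ε) (εM := εM) (K' := K') (c1 := c1) (z := z) (wl := wl) (al := al) (zf := zf) (cc := cc)
    (lo := lo) (δ := δ) (f := f) hys R hM' hk hk' hf hF hwl hL hal (m' := z) le_rfl) hNε0) hB0
  rw [mul_add, mul_add] at kJ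
  have k4 := BN' _ her
  have k5 : 3 * N * er96 N K' ≤ 3 * N ^ 2 * er96 N K' := by
    refine mul_le_mul_of_nonneg_right ?_ her
    nlinarith
  have fin : ∀ {A A' J J' J'' : ℝ}, A ≤ A' → J ≤ J' + J'' → J'' ≤ N ^ 2 * er96 N K' →
      A + J + (3 * N * er96 N K' + e0) ≤ A' + J' + (6 * N ^ 2 * er96 N K' + e0) := fun h1 h2 h3 => by
    have h6 : 0 ≤ N ^ 2 * er96 N K' := by positivity
    linarith
  refine h.trans (fin (mul_le_mul_of_nonneg_left (mul_le_mul_of_nonneg_left (mul_le_mul_of_nonneg_left ?_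
    (Real.rpow_nonneg (by linarith) _)) hB0) zero_le_two) kJ k4)
  rw [sum_Ico96, avy_sum_inv, ← avy_add]
  refine avy_mono fun y hy => ?_
  have := ne_Pn (hys y hy)
  unfold mR
  rw [← mul_add, ← sum_add_distrib]
  refine mul_le_mul_of_nonneg_left (sum_le_sum fun u _ => ?_) (by positivity)
  refine (cP_or45 (hf y hy) (A := fun ω => Nta (wm μ s N (Pn N y) ω) (pJ c1 z) wl al M)
    (B := fun ω => RpM (wm μ s N (Pn N y) ω) (pJ (a + u) z) b j l k M) (C := fun ω => RpM (wm μ s N (Pn N y) ω) (pJ (a + u) e) b j l k M)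
    (fun S => meas_nta96 _ _ _ _ S) (fun S => EvT50.meas_RpM _ _ _ _ _ _ S) fun S => EvT50.meas_RpM _ _ _ _ _ _ S).trans
    (add_le_add ?_ ?_)
  · exact to_rwL (E := fun y ω S => Nta (wm μ s N (Pn N y) ω) (pJ c1 z) wl al M S ∧ RpM (wm μ s N (Pn N y) ω) (pJ (a + u) z) b j l k M S)
      (fun _ S => (meas_nta96 _ _ _ _ S).inter (EvT50.meas_RpM _ _ _ _ _ _ S)) mf bf (hys y hy) hzt
  · exact to_rwL (E := fun y ω S => Nta (wm μ s N (Pn N y) ω) (pJ c1 z) wl al M S ∧ RpM (wm μ s N (Pn N y) ω) (pJ (a + u) e) b j l k M S)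
      (fun _ S => (meas_nta96 _ _ _ _ S).inter (EvT50.meas_RpM _ _ _ _ _ _ S)) mf bf (hys y hy) hzt

/-- **The term `Tp`**, own on the base path. -/
theorem tpCM (hys : ∀ y ∈ ys, y ≤ N) (R : ∀ y ∈ ys, RL45 μ s N (Pn N y) γ B b j t c0 K ε εM K')
    (hM : (N : ℝ) ^ εM ≤ M / 2) (hN : (64 : ℝ) ≤ N) (hB0 : 0 ≤ B) (hBN : B ≤ N) (hδ : 0 ≤ δ) (hδ1 : δ ≤ 1) (hk : 10 * M ≤ k)
    (hk' : (k : ℝ) ≤ 20 * M) (hbj : b ≤ j) (hl : 3 * k * (l + 1) ≤ b) (hf : ∀ y ∈ ys, Sp72 (Pn N y) cc F c0 K (f y))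
    (hF : F ≤ (N : ℝ) ^ 3) {a n : ℕ} (hn : 0 < n) (h1 : c1 ≤ a) (ha : a + n ≤ j - b + 1) (hz : c0 + K ≤ z) (hze : z ≤ e)
    (hjz : j + b ≤ z) (hzf : z ≤ zf) (hc : zf ≤ cc) (hzt : zf ≤ zt) (hwl : c1 ≤ wl) (hL : wl + 3 * k * (lo + 1) ≤ al) (hal : al ≤ z)
    (hε0 : 0 ≤ ε) (hε1 : ε ≤ 1)
    (mf : ∀ y S, Measurable fun ω => f y ω S) (bf : ∀ y ω S, |f y ω S| ≤ D) {e0 : ℝ}
    (hflp : ∀ m ∈ Ico a (a + n), Flp45 μ s N ys γ B b j t δ c0 K zf cc f
      (fun y w M => TauM w (pJ (Q := Pn N y) c1 z) (pJ (Q := Pn N y) c1 z) wl al M)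
      (fun y => pJ (Q := Pn N y) m z) (fun y => pJ (Q := Pn N y) m e) (M / 2 + 2 * B) e0) :
    avy ys (fun y => ∫ ω, PP (wv μ s N y γ B b j t ω) (fun x x' => mi (wv μ s N y γ B b j t ω) (pJ c1 z) (NI wl al) x *
        (cE (wv μ s N y γ B b j t ω) (pJ c1 z)
          (nn (wv μ s N y γ B b j t ω) (Ico a (a + n)) (fun m => pJ m e) (gg μ s (Pn N y) γ B b ω j)) x *
          rh zf cc (f y ω) x x')) ∂(Pm μ N)) ≤
      2 * (B * ((N : ℝ) ^ ε * (avy ys (mR μ s N n (fun u => one96 N (LTpl μ s N c1 z wl lo z b j l k M (a + u)) zt cc) f) +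
        avy ys (mR μ s N n (fun u => one96 N (LTpl μ s N c1 z wl lo e b j l k M (a + u)) zt cc) f)))) +
      B * ((N : ℝ) ^ ε * avy ys (cJ0 μ s N γ B b j (c0 + K) δ M z wl lo k zf cc f)) + (6 * N ^ 2 * er96 N K' + e0) := by
  have her : 0 ≤ er96 N K' := by unfold er96; positivity
  have hM' : (N : ℝ) ^ εM ≤ M := hM.trans (by
    have : 0 ≤ (N : ℝ) ^ εM := Real.rpow_nonneg (by linarith) _
    linarith)
  have hNε0 : 0 ≤ (N : ℝ) ^ ε := Real.rpow_nonneg (by linarith) _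
  have hNε : (N : ℝ) ^ ε ≤ N := by
    have h := Real.rpow_le_rpow_of_exponent_le (show (1 : ℝ) ≤ N by linarith) hε1
    rwa [Real.rpow_one] at h
  have hcz : c1 ≤ z := by omega
  have hJ : (Ico a (a + n)).Nonempty := nonempty_Ico.2 (by omega)
  have h := TpL45J (μ := μ) (s := s) (N := N) (γ := γ) (B := B) (b := b) (j := j) (t := t) (c0 := c0) (K := K) (ε := ε) (εM := εM)
    (K' := K') (zf := zf) (cc := cc) (c1 := c1) (z := z) (e := e) (wl := wl) (al := al) (l := l) hys R hM hN hB0 hBN hδ hδ1 hk hk' hbj hl hf hF hJ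
    (fun m hm => by
      have := mem_Ico.1 hm
      omega) hz hze hjz hzf hc hflp
  refine h.trans ?_
  have key : (((Ico a (a + n)).card : ℝ))⁻¹ * ∑ m ∈ Ico a (a + n), avy ys (fun y => cP45 μ s N (Pn N y) (fun ω S =>
        TauM (wm μ s N (Pn N y) ω) (pJ c1 z) (pJ c1 z) wl al M S ∧ (RpM (wm μ s N (Pn N y) ω) (pJ m z) b j l k M S ∨
          RpM (wm μ s N (Pn N y) ω) (pJ m e) b j l k M S)) zf cc (f y)) ≤
      (avy ys (mR μ s N n (fun u => one96 N (LTpl μ s N c1 z wl lo z b j l k M (a + u)) zt cc) f) +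
        avy ys (mR μ s N n (fun u => one96 N (LTpl μ s N c1 z wl lo e b j l k M (a + u)) zt cc) f)) + 2 * er96 N K' := by
    rw [sum_Ico96, avy_sum_inv, ← avy_add]
    have hn0 : (0 : ℝ) < n := by exact_mod_cast hn
    have g1 : avy ys (fun y => (n : ℝ)⁻¹ * ∑ u ∈ range n, cP45 μ s N (Pn N y) (fun ω S =>
        TauM (wm μ s N (Pn N y) ω) (pJ c1 z) (pJ c1 z) wl al M S ∧ (RpM (wm μ s N (Pn N y) ω) (pJ (a + u) z) b j l k M S ∨
          RpM (wm μ s N (Pn N y) ω) (pJ (a + u) e) b j l k M S)) zf cc (f y)) ≤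
        avy ys (fun y => (mR μ s N n (fun u => one96 N (LTpl μ s N c1 z wl lo z b j l k M (a + u)) zt cc) f y +
          mR μ s N n (fun u => one96 N (LTpl μ s N c1 z wl lo e b j l k M (a + u)) zt cc) f y) + 2 * er96 N K') := by
      refine avy_mono fun y hy => ?_
      have := ne_Pn (hys y hy)
      unfold mR
      rw [← mul_add, ← sum_add_distrib]
      have g2 : ∀ u ∈ range n, cP45 μ s N (Pn N y) (fun ω S =>
          TauM (wm μ s N (Pn N y) ω) (pJ c1 z) (pJ c1 z) wl al M S ∧ (RpM (wm μ s N (Pn N y) ω) (pJ (a + u) z) b j l k M S ∨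
            RpM (wm μ s N (Pn N y) ω) (pJ (a + u) e) b j l k M S)) zf cc (f y) ≤
          (rw96 μ s N (one96 N (LTpl μ s N c1 z wl lo z b j l k M (a + u)) zt cc) f y +
            rw96 μ s N (one96 N (LTpl μ s N c1 z wl lo e b j l k M (a + u)) zt cc) f y) + 2 * er96 N K' := fun u _ => by
        have hE : ∀ (m d : ℕ) (S : Px (Pn N y)), MeasurableSet {ω | RpM (wm μ s N (Pn N y) ω) (pJ m d) b j l k M S} := fun m d S =>
          EvT50.meas_RpM _ _ _ _ _ _ S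
        have q1 := cP_or45 (μ := μ) (s := s) (N := N) (zf := zf) (hf y hy) (A := fun ω => TauM (wm μ s N (Pn N y) ω) (pJ c1 z) (pJ c1 z) wl al M)
          (B := fun ω => RpM (wm μ s N (Pn N y) ω) (pJ (a + u) z) b j l k M) (C := fun ω => RpM (wm μ s N (Pn N y) ω) (pJ (a + u) e) b j l k M)
          (fun S => meas_tau45 meas_wm _ _ _ _ _ S) (hE _ _) (hE _ _)
        have q2 : ∀ d : ℕ, cP45 μ s N (Pn N y) (fun ω S => TauM (wm μ s N (Pn N y) ω) (pJ c1 z) (pJ c1 z) wl al M S ∧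
            RpM (wm μ s N (Pn N y) ω) (pJ (a + u) d) b j l k M S) zf cc (f y) ≤
            rw96 μ s N (one96 N (LTpl μ s N c1 z wl lo d b j l k M (a + u)) zt cc) f y + er96 N K' := fun d => by
          refine ((R y hy).rp hM' (hf y hy) hF (hE (a + u) d) (crs_pJ (c := c1) (d := z) le_rfl le_rfl) (swP_pJ hcz) (blP_pJ hcz) (lo := lo)
            hk hk' hwl hL hal).trans (add_le_add ?_ le_rfl)
          exact to_rwL (E := fun y ω S => Rp (wm μ s N (Pn N y) ω) (pJ c1 z) wl lo k M S ∧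
            RpM (wm μ s N (Pn N y) ω) (pJ (a + u) d) b j l k M S)
            (fun _ S => (meas_Rp45 _ _ _ _ _ S).inter (EvT50.meas_RpM _ _ _ _ _ _ S)) mf bf (hys y hy) hzt
        have q3 := q2 z
        have q4 := q2 e
        linarith
      refine (mul_le_mul_of_nonneg_left (sum_le_sum g2) (inv_nonneg.2 hn0.le)).trans (le_of_eq ?_)
      rw [sum_add_distrib, sum_const, card_range, nsmul_eq_mul, mul_add, ← mul_assoc (n : ℝ)⁻¹ (n : ℝ), inv_mul_cancel₀ hn0.ne', one_mul]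
    refine g1.trans ?_
    rw [avy_add]
    exact add_le_add le_rfl (avy_cle (by linarith) ys)
  have k1 := mul_le_mul_of_nonneg_left (mul_le_mul_of_nonneg_left key hNε0) hB0
  have k2 : B * ((N : ℝ) ^ ε * (2 * er96 N K')) ≤ 2 * N ^ 2 * er96 N K' := by
    have : B * (N : ℝ) ^ ε ≤ N * N := mul_le_mul hBN hNε hNε0 (by linarith)
    have h5 := mul_le_mul_of_nonneg_right this (by linarith : 0 ≤ 2 * er96 N K')
    calc B * ((N : ℝ) ^ ε * (2 * er96 N K')) = B * (N : ℝ) ^ ε * (2 * er96 N K') := by ring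
      _ ≤ N * N * (2 * er96 N K') := h5
      _ = _ := by ring
  have k3 : 3 * N * er96 N K' ≤ N ^ 2 * er96 N K' := by
    refine mul_le_mul_of_nonneg_right ?_ her
    nlinarith
  rw [mul_add, mul_add] at k1
  have kJ := mul_le_mul_of_nonneg_left (mul_le_mul_of_nonneg_left (keyJ45 (μ := μ) (s := s) (N := N) (γ := γ) (B := B) (b := b) (j := j)
    (t := t) (c0 := c0) (K := K) (ε := ε) (εM := εM) (K' := K') (c1 := c1) (z := z) (wl := wl) (al := al) (zf := zf) (cc := cc)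
    (lo := lo) (δ := δ) (f := f) hys R hM' hk hk' hf hF hwl hL hal (m' := z) le_rfl) hNε0) hB0
  rw [mul_add, mul_add] at kJ
  have k4 : B * ((N : ℝ) ^ ε * er96 N K') ≤ N ^ 2 * er96 N K' := by
    have : B * (N : ℝ) ^ ε ≤ N * N := mul_le_mul hBN hNε hNε0 (by linarith)
    have h5 := mul_le_mul_of_nonneg_right this her
    calc B * ((N : ℝ) ^ ε * er96 N K') = B * (N : ℝ) ^ ε * er96 N K' := by ring
      _ ≤ N * N * er96 N K' := h5
      _ = _ := by ring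
  have k6 : 0 ≤ N ^ 2 * er96 N K' := by positivity
  linarith

/-- **The majorant `G1`**, own on the base path next to the three levels. -/
theorem g1CM (hys : ∀ y ∈ ys, y ≤ N) (R : ∀ y ∈ ys, RL45 μ s N (Pn N y) γ B b j t c0 K ε εM K')
    (hM : (N : ℝ) ^ εM ≤ M / 2) (hN : (64 : ℝ) ≤ N) (hB0 : 0 ≤ B) (hBN : B ≤ N) (hδ : 0 ≤ δ) (hδ1 : δ ≤ 1) (hk : 10 * M ≤ k)
    (hk' : (k : ℝ) ≤ 20 * M) (hbj : b ≤ j) (hl : 3 * k * (l + 1) ≤ b) (hf : ∀ y ∈ ys, Sp72 (Pn N y) cc F c0 K (f y))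
    (hF : F ≤ (N : ℝ) ^ 3) {a n : ℕ} (hn : 0 < n) (h1 : c1 ≤ a) (h3 : al ≤ a) (ha : a + n ≤ j - b + 1) (hz : c0 + K ≤ z) (hze : z ≤ e)
    (hjz : j + b ≤ z) (hzf : z ≤ zf) (hc : zf ≤ cc) (hzt : zf ≤ zt) (hwl : c1 ≤ wl) (hL : wl + 3 * k * (lo + 1) ≤ al) (hal : al ≤ z)
    (hε0 : 0 ≤ ε) (hε1 : ε ≤ 1)
    (mf : ∀ y S, Measurable fun ω => f y ω S) (bf : ∀ y ω S, |f y ω S| ≤ D) {e0 : ℝ}
    (hflp2 : ∀ m ∈ Ico a (a + n), Flp45 μ s N ys γ B b j t δ c0 K zf cc f (fun y w M => Nta w (pJ (Q := Pn N y) c1 z) wl al M)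
      (fun y => pJ (Q := Pn N y) m z) (fun y => pJ (Q := Pn N y) m e) (M / 2 + 2 * B) e0)
    (hflpp : ∀ m ∈ Ico a (a + n), Flp45 μ s N ys γ B b j t δ c0 K zf cc f
      (fun y w M => TauM w (pJ (Q := Pn N y) c1 z) (pJ (Q := Pn N y) c1 z) wl al M)
      (fun y => pJ (Q := Pn N y) m z) (fun y => pJ (Q := Pn N y) m e) (M / 2 + 2 * B) e0) {α β : ℝ} (hα : 0 ≤ α) (hβ : 0 ≤ β) :
    avy ys (fun y => ∫ ω, G1 (wv μ s N y γ B b j t ω) (pJ c1 z) (NI wl al) (rh zf cc (f y ω))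
        (nn (wv μ s N y γ B b j t ω) (Ico a (a + n)) (fun m => pJ m e) (gg μ s (Pn N y) γ B b ω j)) α β ∂(Pm μ N)) ≤
      α * (2 * (B * ((N : ℝ) ^ ε * (avy ys (mR μ s N n (fun u => one96 N (LT2l μ s N c1 z wl al z b j l k M (a + u)) zt cc) f) +
        avy ys (mR μ s N n (fun u => one96 N (LT2l μ s N c1 z wl al e b j l k M (a + u)) zt cc) f)))) +
        B * ((N : ℝ) ^ ε * avy ys (cJ0 μ s N γ B b j (c0 + K) δ M z wl lo k zf cc f))) +
      β * (2 * (B * ((N : ℝ) ^ ε * (avy ys (mR μ s N n (fun u => one96 N (LTpl μ s N c1 z wl lo z b j l k M (a + u)) zt cc) f) +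
        avy ys (mR μ s N n (fun u => one96 N (LTpl μ s N c1 z wl lo e b j l k M (a + u)) zt cc) f)))) +
        B * ((N : ℝ) ^ ε * avy ys (cJ0 μ s N γ B b j (c0 + K) δ M z wl lo k zf cc f))) +
      (α + β) * (6 * N ^ 2 * er96 N K' + e0) := by
  have her : 0 ≤ er96 N K' := by unfold er96; positivity
  have hJ0 : (Ico a (a + n)).Nonempty := nonempty_Ico.2 (by omega)
  have e2 := t2CM (μ := μ) (s := s) (N := N) (c1 := c1) (z := z) (wl := wl) (al := al) (e := e) (zf := zf) (cc := cc) (zt := zt)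
    (lo := lo) hys R hM hN hB0 hBN hδ hδ1 hk hk' hbj hl hf hF hn h1 h3 ha hz hze hjz hzf hc hzt hwl hL hal hε0 hε1 mf bf hflp2
  have ep := tpCM (μ := μ) (s := s) (N := N) (c1 := c1) (z := z) (wl := wl) (al := al) (e := e) (zf := zf) (cc := cc) (zt := zt)
    (lo := lo) hys R hM hN hB0 hBN hδ hδ1 hk hk' hbj hl hf hF hn h1 ha hz hze hjz hzf hc hzt hwl hL hal hε0 hε1 mf bf hflpp
  have eq1 : ∀ y ∈ ys, ∫ ω, G1 (wv μ s N y γ B b j t ω) (pJ c1 z) (NI wl al) (rh zf cc (f y ω))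
        (nn (wv μ s N y γ B b j t ω) (Ico a (a + n)) (fun m => pJ m e) (gg μ s (Pn N y) γ B b ω j)) α β ∂(Pm μ N) =
      α * (∫ ω, PP (wv μ s N y γ B b j t ω) (fun x x' => mi (wv μ s N y γ B b j t ω) (pJ c1 z) (NI wl al) x *
        (nn (wv μ s N y γ B b j t ω) (Ico a (a + n)) (fun m => pJ m e) (gg μ s (Pn N y) γ B b ω j) x *
          rh zf cc (f y ω) x x')) ∂(Pm μ N)) +
      β * (∫ ω, PP (wv μ s N y γ B b j t ω) (fun x x' => mi (wv μ s N y γ B b j t ω) (pJ c1 z) (NI wl al) x *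
        (cE (wv μ s N y γ B b j t ω) (pJ c1 z)
          (nn (wv μ s N y γ B b j t ω) (Ico a (a + n)) (fun m => pJ m e) (gg μ s (Pn N y) γ B b ω j)) x *
          rh zf cc (f y ω) x x')) ∂(Pm μ N)) := fun y hy => by
    have := ne_Pn (hys y hy)
    have hf' := hf y hy
    have i2 : Integrable (fun ω => PP (wv μ s N y γ B b j t ω) (fun x x' => mi (wv μ s N y γ B b j t ω) (pJ c1 z) (NI wl al) x *
        (nn (wv μ s N y γ B b j t ω) (Ico a (a + n)) (fun m => pJ m e) (gg μ s (Pn N y) γ B b ω j) x * rh zf cc (f y ω) x x'))) (Pm μ N) :=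
      int_pp96 (Λ := 1 * (B * (2 * F))) (hys y hy) (fun x x' => (meas_mi96 _ x).mul ((meas_nnL _ x).mul (C45.meas_rh45 hf' x x')))
        (fun ω x x' => mul_nonneg (mi_mem96 _ _ x).1 (mul_nonneg (nn_memL hB0 hJ0 _ _ ω x).1 (rh_nonneg _ _ _)))
        fun ω x x' => mul_le_mul (mi_mem96 _ _ x).2 (mul_le_mul (nn_memL hB0 hJ0 _ _ ω x).2 (C45.rh_le45 hf' ω x x') (rh_nonneg _ _ _) hB0)
          (mul_nonneg (nn_memL hB0 hJ0 _ _ ω x).1 (rh_nonneg _ _ _)) zero_le_one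
    have cEm : ∀ (ω : Env × Finset ℕ) (x : Px (Pn N y)), 0 ≤ cE (wv μ s N y γ B b j t ω) (pJ c1 z)
        (nn (wv μ s N y γ B b j t ω) (Ico a (a + n)) (fun m => pJ m e) (gg μ s (Pn N y) γ B b ω j)) x ∧
        cE (wv μ s N y γ B b j t ω) (pJ c1 z)
          (nn (wv μ s N y γ B b j t ω) (Ico a (a + n)) (fun m => pJ m e) (gg μ s (Pn N y) γ B b ω j)) x ≤ B := fun ω x => by
      refine ⟨cE_nonneg _ _ (fun T => (nn_memL hB0 hJ0 _ _ ω T).1) x, ?_⟩
      have h5 := cE_mono (wv μ s N y γ B b j t ω) (pJ c1 z)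
        (f := nn (wv μ s N y γ B b j t ω) (Ico a (a + n)) (fun m => pJ m e) (gg μ s (Pn N y) γ B b ω j))
        (g := B • fun _ => (1 : ℝ)) (fun T => by
          rw [Pi.smul_apply, smul_eq_mul, mul_one]
          exact (nn_memL hB0 hJ0 _ _ ω T).2) x
      rwa [cE_smul, Pi.smul_apply, smul_eq_mul, congrFun (cE_one _ _) x, mul_one] at h5
    have ip : Integrable (fun ω => PP (wv μ s N y γ B b j t ω) (fun x x' => mi (wv μ s N y γ B b j t ω) (pJ c1 z) (NI wl al) x *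
        (cE (wv μ s N y γ B b j t ω) (pJ c1 z)
          (nn (wv μ s N y γ B b j t ω) (Ico a (a + n)) (fun m => pJ m e) (gg μ s (Pn N y) γ B b ω j)) x *
          rh zf cc (f y ω) x x'))) (Pm μ N) :=
      int_pp96 (Λ := 1 * (B * (2 * F))) (hys y hy) (fun x x' => (meas_mi96 _ x).mul ((meas_cE (fun S => meas_wv S)
        (f := fun ω => nn (wv μ s N y γ B b j t ω) (Ico a (a + n)) (fun m => pJ m e) (gg μ s (Pn N y) γ B b ω j))
          (fun T => meas_nnL _ T) _ x).mul (C45.meas_rh45 hf' x x')))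
        (fun ω x x' => mul_nonneg (mi_mem96 _ _ x).1 (mul_nonneg (cEm ω x).1 (rh_nonneg _ _ _)))
        fun ω x x' => mul_le_mul (mi_mem96 _ _ x).2 (mul_le_mul (cEm ω x).2 (C45.rh_le45 hf' ω x x') (rh_nonneg _ _ _) hB0)
          (mul_nonneg (cEm ω x).1 (rh_nonneg _ _ _)) zero_le_one
    unfold G1
    rw [integral_add (i2.const_mul α) (ip.const_mul β), integral_const_mul, integral_const_mul]
  refine (avy_mono fun y hy => (eq1 y hy).le).trans ?_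
  rw [avy_add, avy_mul, avy_mul]
  have s1 := mul_le_mul_of_nonneg_left e2 hα
  have s2 := mul_le_mul_of_nonneg_left ep hβ
  linarith

end Ends

end

end Pool.Agent.W_7d29a1_C0.E2CM45
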