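import Pool.Agent.W_7d29a1_C0.E2D96

/-!
MP_7d29a1_pr, [CURV0] (helper43), section E2: THE COMBINATION OF THE LISTS OF TERMS. `Dec43 f Φ k e`: the functionals `Φ j y` of the rows
`j ∈ S` are at most `k` terms `Trm96` (at the level `X`) plus `e`, in the mean over the ends; sums, monotonicity, single terms, small terms.
`dec_end43`: from the parts R and L of (E2) (means over the signs, `abs_fE2_le59`) to `E2DecN`.
-/

set_option autoImplicit false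
set_option linter.unusedSectionVars false

namespace Pool.Agent.W_7d29a1_C0.E2D43

open Finset MeasureTheory Filter Topology
open Pool.Agent.W_7d29a1_F Pool.Agent.W_7d29a1_X
open Pool.Agent.W_7d29a1_C0 Pool.Agent.W_7d29a1_C0.Mod92 Pool.Agent.W_7d29a1_C0.Swap57 Pool.Agent.W_7d29a1_C0.NM82
open Pool.Agent.W_7d29a1_C0.Asm96 Pool.Agent.W_7d29a1_C0.CrA44 Pool.Agent.W_7d29a1_C0.EstC46 Pool.Agent.W_7d29a1_C0.Frm33
open Pool.Agent.W_7d29a1_C0.EstD44 (Bl44)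
open Pool.Agent.W_7d29a1_C0.E2T96
open Pool.Agent.W_7d29a1_C0.E2C96 (mR mR_one)
open Pool.Agent.W_7d29a1_C0.T93 (Fam2)
open Pool.W7d29a1.C0
open Pool.W7d29a1.C0.VT31

noncomputable section

variable {μ : Measure ℝ} {s : ℝ} {N : ℕ} {ys S : Finset ℕ} {r : ℕ} {X : ℝ} {f : Fam N}

/-- **THE LISTS OF TERMS**, in the mean over the ends. -/
def Dec43 (μ : Measure ℝ) (s : ℝ) (N : ℕ) (ys S : Finset ℕ) (r : ℕ) (X : ℝ) (f : Fam N) (Φ : ℕ → ℕ → ℝ) (k : ℕ) (e : ℝ) : Prop :=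
  ∃ T : Fin k → Trm96 μ s N ys S r X, ∀ j ∈ S, avy ys (Φ j) ≤ ∑ u, avy ys ((T u).val f j) + e

namespace Dec43

variable {Φ Ψ : ℕ → ℕ → ℝ} {k k' : ℕ} {e e' : ℝ}

/-- One term. -/
theorem trm (T : Trm96 μ s N ys S r X) : Dec43 μ s N ys S r X f (fun j y => T.val f j y) 1 0 := by
  refine ⟨fun _ => T, fun j _ => ?_⟩
  rw [Fin.sum_univ_one, add_zero]

/-- One term, with its coefficient and the mean of its functionals. -/
theorem one (T : Trm96 μ s N ys S r X) (h : ∀ j ∈ S, ∀ y ∈ ys, Φ j y ≤ T.al * mR μ s N T.n (fun u => T.Q u j) f y) :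
    Dec43 μ s N ys S r X f Φ 1 0 := by
  refine ⟨fun _ => T, fun j hj => ?_⟩
  rw [Fin.sum_univ_one, add_zero]
  exact avy_mono fun y hy => h j hj y hy

/-- A small functional. -/
theorem small (he : 0 ≤ e) (h : ∀ j ∈ S, ∀ y ∈ ys, Φ j y ≤ e) : Dec43 μ s N ys S r X f Φ 0 e := by
  refine ⟨fun i => i.elim0, fun j hj => ?_⟩
  rw [Finset.univ_eq_empty, sum_empty, zero_add]
  rcases ys.eq_empty_or_nonempty with h0 | h0
  · subst h0
    unfold avy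
    simpa using he
  · exact (avy_mono fun y hy => h j hj y hy).trans (le_of_eq (avy_const h0 e))

/-- The sum of two functionals. -/
theorem add (h : Dec43 μ s N ys S r X f Φ k e) (h' : Dec43 μ s N ys S r X f Ψ k' e') :
    Dec43 μ s N ys S r X f (fun j y => Φ j y + Ψ j y) (k + k') (e + e') := by
  obtain ⟨T, hT⟩ := h
  obtain ⟨T', hT'⟩ := h'
  refine ⟨Fin.append T T', fun j hj => ?_⟩
  have e1 : avy ys (fun y => Φ j y + Ψ j y) = avy ys (Φ j) + avy ys (Ψ j) := avy_add _ _ _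
  rw [e1, Fin.sum_univ_add]
  simp only [Fin.append_left, Fin.append_right]
  linarith [hT j hj, hT' j hj]

/-- Monotonicity, in the mean over the ends. -/
theorem mono_av (h : Dec43 μ s N ys S r X f Φ k e) (hΦ : ∀ j ∈ S, avy ys (Ψ j) ≤ avy ys (Φ j) + e') :
    Dec43 μ s N ys S r X f Ψ k (e + e') := by
  obtain ⟨T, hT⟩ := h
  refine ⟨T, fun j hj => ?_⟩
  linarith [hT j hj, hΦ j hj]

/-- Monotonicity. -/
theorem mono (h : Dec43 μ s N ys S r X f Φ k e) (hΦ : ∀ j ∈ S, ∀ y ∈ ys, Ψ j y ≤ Φ j y) (he : e ≤ e') :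
    Dec43 μ s N ys S r X f Ψ k e' := by
  obtain ⟨T, hT⟩ := h
  refine ⟨T, fun j hj => ?_⟩
  linarith [hT j hj, avy_mono (fun y hy => hΦ j hj y hy)]

/-- A larger number of terms is not needed: the bound as it stands. -/
theorem cast (h : Dec43 μ s N ys S r X f Φ k e) (hk : k = k') (he : e ≤ e') : Dec43 μ s N ys S r X f Φ k' e' := by
  subst hk
  exact h.mono (fun _ _ _ _ => le_rfl) he

end Dec43

/-! ### The end -/

section End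

variable {F : Frm96} {E : ℕ → ℝ} {Θ δ c x : ℝ}

/-- **FROM THE LISTS TO `E2DecN`.** -/
theorem decN43 {m : ℕ} (h : Bl44 F E δ c m fun p q i f => ∀ t ∈ Set.Icc (-1 : ℝ) 1, ∃ (k : ℕ) (e : ℝ), k ≤ 64 ∧ 2 ^ q * e ≤ 1 / 8 ∧
    0 ≤ e ∧ Dec43 μ s (F.L m) (F.ys m) (Rw (F.R m) (i * 2 ^ q) ((i + 1) * 2 ^ q)) (2 ^ q) (((2 ^ m : ℕ) : ℝ) ^ (Θ - 2 * x)) f
      (fun j y => |fE2 μ s (F.L m) F.dl (F.B m) (F.b0 m p) (2 ^ p) (2 ^ sg96 E c m p) f t y j|) k e) :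
    E2DecN μ s F E Θ δ c x m := by
  intro p q i hst hi D f hD hf hcv t ht
  obtain ⟨k, e, hk, he, he0, T, hT⟩ := h p q i hst hi D f hD hf hcv t ht
  exact ⟨k, e, T, hk, he, he0, hT⟩

/-- **THE TWO PARTS.** -/
theorem dec_two43 {m : ℕ} (h : Bl44 F E δ c m fun p q i f => ∀ t ∈ Set.Icc (-1 : ℝ) 1, ∃ (ΦR ΦL : ℕ → ℕ → ℝ) (kR kL : ℕ) (eR eL : ℝ),
    kR + kL ≤ 64 ∧ 0 ≤ eR ∧ 0 ≤ eL ∧ 2 ^ q * (eR + eL) ≤ 1 / 8 ∧
    (∀ j ∈ Rw (F.R m) (i * 2 ^ q) ((i + 1) * 2 ^ q), ∀ y ∈ F.ys m,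
      |fE2 μ s (F.L m) F.dl (F.B m) (F.b0 m p) (2 ^ p) (2 ^ sg96 E c m p) f t y j| ≤ ΦR j y + ΦL j y) ∧
    Dec43 μ s (F.L m) (F.ys m) (Rw (F.R m) (i * 2 ^ q) ((i + 1) * 2 ^ q)) (2 ^ q) (((2 ^ m : ℕ) : ℝ) ^ (Θ - 2 * x)) f ΦR kR eR ∧
    Dec43 μ s (F.L m) (F.ys m) (Rw (F.R m) (i * 2 ^ q) ((i + 1) * 2 ^ q)) (2 ^ q) (((2 ^ m : ℕ) : ℝ) ^ (Θ - 2 * x)) f ΦL kL eL) :
    E2DecN μ s F E Θ δ c x m := by
  refine decN43 fun p q i hst hi D f hD hf hcv t ht => ?_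
  obtain ⟨ΦR, ΦL, kR, kL, eR, eL, hk, h1, h2, h3, h4, h5, h6⟩ := h p q i hst hi D f hD hf hcv t ht
  exact ⟨kR + kL, eR + eL, hk, h3, by linarith, (h5.add h6).mono h4 le_rfl⟩

end End

end

end Pool.Agent.W_7d29a1_C0.E2D43
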