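import Pool.Agent.W_7d29a1_C0.Loc7N
import Pool.Agent.W_7d29a1_C0.LocM18

/-!
CURV0 (MP_7d29a1_pr), leaf E0: FINAL FORM, FORWARD (helper7). The hypotheses of `e0_mod7` from the localisation of `Loc14`.

`e0_fin7`: with `N ^ κ ≤ c, K`, `c + K ≤ N`, tilt `U` in front of the row `c` with `|U| ≤ M ≤ N ^ ε₁`, replica functionals
`0 ≤ Ψ, Ψ' ≤ N ^ K'`, `Ψ` a function of what the replicas do behind the row `c + K`, `Ψ η ≤ Ψ' ζ` for all `ζ` which differ from `η` on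
the slab only, by at most `2 M / K`:
`∫ rep k (lw + U) Ψ ≤ N ^ ε (∫ rep k lw Ψ' + N ^ (- K'))`.
-/

set_option autoImplicit false

namespace Pool.W7d29a1.C0.H7

open Finset MeasureTheory Filter Topology Pool.Agent.W_7d29a1_F Pool.Agent.W_7d29a1_X Pool.Agent.W_7d29a1_C0.Mod92
  Pool.Agent.W_7d29a1_C0.H32 Pool.W7d29a1.C0.H27
open Pool.Agent.W_7d29a1_H (sl)
open Pool.Agent.W_7d29a1_HS (In wd)
open Pool.Agent.W_7d29a1_HZ (NSp wd' gp)
open Pool.W7d29a1.C0 (gz gm)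
open Pool.Agent.W_7d29a1_C0.Loc14 (Qp Qf LocG loc14 far_le)
open Pool.Agent.W_7d29a1_C0.LocM18 (Ns Cna Cn gm_pin gm_free sh_zero)
open scoped ENNReal

noncomputable section

variable {μ : Measure ℝ} {s : ℝ} {N : ℕ}

/-! ### The families -/

/-- The families of the model: free end, or pinned end in the cone. -/
def Pok (μ : Measure ℝ) (s : ℝ) (N : ℕ) (δ' : ℝ) (P : Finset (Finset ℕ)) : Prop :=
  P = Fr N ∨ ∃ y : ℕ, y ≤ N ∧ |(y : ℝ) - sl μ s * N| ≤ (N : ℝ) ^ δ' * wd' μ s N ∧ P = Pn N y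

theorem Pok.fam {δ' : ℝ} {P : Finset (Finset ℕ)} (h : Pok μ s N δ' P) {c1 : ℕ} (hc : c1 ≤ N) : Fam N c1 P := by
  rcases h with rfl | ⟨y, _, _, rfl⟩
  · exact fam_Fr N c1
  · exact fam_Pn hc y

theorem Pok.ne {δ' : ℝ} {P : Finset (Finset ℕ)} (h : Pok μ s N δ' P) : Nonempty (Px P) := by
  rcases h with rfl | ⟨y, hy, _, rfl⟩
  · infer_instance
  · exact ne_Pn hy

open Classical in
/-- Localisation of the path measure of the family. -/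
theorem Pok.loc {κ δ δ' ε ε₁ c' : ℝ} {η : Env} (hL : LocG μ s N κ δ' ε₁ c' η) (hδ : 0 ≤ δ) (hN : 1 ≤ N) (hκ : κ ≤ 1)
    (he : ε₁ ≤ κ * δ) (he' : ε₁ ≤ ε) {P : Finset (Finset ℕ)} (h : Pok μ s N δ' P) :
    gm (lw μ s η N P) (fun S => if Ns μ s ε 0 N S ∧ Cna μ s N κ δ S then 0 else 1) ≤ Real.exp (-(N : ℝ) ^ c') := by
  rcases h with rfl | ⟨y, hy, hyc, rfl⟩
  · exact gm_free hL hδ hN hκ he he'
  · exact gm_pin hL hδ hN hκ he he' hy hyc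

/-! ### The cone sites and the posterior -/

open Classical in
/-- The cone sites of the slab. -/
def Cn7 (μ : Measure ℝ) (s δ : ℝ) (c K : ℕ) : Finset Pt :=
  (slb c K).filter fun p => p.2 ≤ p.1 ∧ |(p.2 : ℝ) - sl μ s * (p.1.toNat : ℝ)| ≤ (p.1.toNat : ℝ) ^ δ * wd' μ s p.1.toNat

theorem mem_Cn7 {δ : ℝ} {c K m : ℕ} {z : ℤ} : (((m : ℕ) : ℤ), z) ∈ Cn7 μ s δ c K ↔
    (((m : ℕ) : ℤ), z) ∈ slb c K ∧ z ≤ m ∧ |(z : ℝ) - sl μ s * (m : ℝ)| ≤ (m : ℝ) ^ δ * wd' μ s m := by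
  unfold Cn7
  rw [mem_filter]
  simp only [Int.toNat_natCast]

open Classical in
/-- The posterior of the row `c` at the site `(m, z)`. -/
theorem far7 {η : Env} {m c : ℕ} (hc : c < m) {z : ℤ} (hz0 : 0 ≤ z) (hzm : z ≤ m) {ε R e : ℝ}
    (hR : (m : ℝ) ^ ε * wd' μ s (m - c) ≤ R) (hQ : Qp μ s η m ε z ≤ e) :
    Mt μ s η m (fun S => if |((z : ℝ) - (pos S c : ℝ) - sl μ s * ((m - c : ℕ) : ℝ))| ≤ R then 0 else 1) z ≤
      e * Mt μ s η m (fun _ => 1) z := by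
  have hW : 0 < W μ s η 0 m z := W_pos _ _ hz0 hzm
  rw [Mt_one]
  have h1 : Mt μ s η m (fun S => if |((z : ℝ) - (pos S c : ℝ) - sl μ s * ((m - c : ℕ) : ℝ))| ≤ R then 0 else 1) z =
      (∑ S ∈ (range m).powerset, gp μ s η m z S *
        (if |((z : ℝ) - (pos S c : ℝ) - sl μ s * ((m - c : ℕ) : ℝ))| ≤ R then 0 else 1)) * W μ s η 0 m z := by
    unfold Mt
    rw [sum_mul]
    refine sum_congr rfl fun S _ => ?_
    unfold gp
    by_cases hS : pos S m = z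
    · rw [if_pos hS, if_pos hS]
      field_simp
    · rw [if_neg hS, if_neg hS]
      ring
  rw [h1]
  refine mul_le_mul_of_nonneg_right ?_ hW.le
  refine le_trans (sum_le_sum fun S _ => ?_) ((far_le (μ := μ) (s := s) (η := η) hc (ε := ε) (z := z)).trans hQ)
  refine mul_le_mul_of_nonneg_left ?_ (Pool.Agent.W_7d29a1_HZ.gp_nonneg _ _ _ _)
  by_cases h2 : |((z - pos S c : ℤ) : ℝ) - sl μ s * ((m - c : ℕ) : ℝ)| ≤ (m : ℝ) ^ ε * wd' μ s (m - c)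
  · have h3 : |((z : ℝ) - (pos S c : ℝ) - sl μ s * ((m - c : ℕ) : ℝ))| ≤ R := by
      push_cast at h2
      exact h2.trans hR
    rw [if_pos h2, if_pos h3]
  · rw [if_neg h2]
    split_ifs <;> norm_num

/-- The cone sites are good. -/
theorem g1_7 {η : Env} {κ δ ε g R : ℝ} (hL : LocG μ s N κ δ ε g η) {c K : ℕ} (hκc : (N : ℝ) ^ κ ≤ c) (hcK : c + K ≤ N)
    (hε : 0 ≤ ε) (hR : ∀ i : ℕ, 1 ≤ i → i ≤ K → (N : ℝ) ^ ε * wd' μ s i ≤ R) :
    ∀ j < K, ∀ z : ℤ, (((c + j + 1 : ℕ) : ℤ), z) ∈ Cn7 μ s δ c K →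
      FarM μ s η c (sl μ s) R j z ≤ Real.exp (-(N : ℝ) ^ g) * Mt μ s η (c + j + 1) (fun _ => 1) z := by
  intro j hj z hz
  obtain ⟨h1, h2, h3⟩ := mem_Cn7.1 hz
  have hz0 := (mem_slb.1 h1).2.1
  simp only at hz0
  have hm : (N : ℝ) ^ κ ≤ ((c + j + 1 : ℕ) : ℝ) := hκc.trans (by push_cast; linarith [(Nat.cast_nonneg j : (0 : ℝ) ≤ j)])
  have h4 := (hL 0 (Nat.zero_le _) 0 (by simp) (c + j + 1) hm (by omega)).1 z hz0 h2 h3
  rw [sh_zero] at h4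
  have h5 := far7 (μ := μ) (s := s) (c := c) (by omega : c < c + j + 1) hz0 h2 (R := R) (ε := ε) (by
    refine le_trans (mul_le_mul_of_nonneg_right ?_ (le_trans zero_le_one (le_max_left _ _))) (hR (c + j + 1 - c) (by omega) (by omega))
    exact Real.rpow_le_rpow (Nat.cast_nonneg _) (by exact_mod_cast (by omega : c + j + 1 ≤ N)) hε) h4
  refine le_trans (le_of_eq ?_) h5
  unfold FarM
  congr 1
  funext S
  have e : ((c + j + 1 - c : ℕ) : ℝ) = (j : ℝ) + 1 := by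
    rw [show c + j + 1 - c = j + 1 by omega]
    push_cast
    rfl
  rw [e]

open Classical in
theorem g2_7 {κ δ ε : ℝ} {P : Finset (Finset ℕ)} {c K : ℕ} (hκc : (N : ℝ) ^ κ ≤ c) (hcK : c + K ≤ N) (S : Px P) :
    (if Out7 c K (Cn7 μ s δ c K) S.1 then (1 : ℝ) else 0) ≤ if Ns μ s ε 0 N S ∧ Cna μ s N κ δ S then 0 else 1 := by
  by_cases h : Ns μ s ε 0 N S ∧ Cna μ s N κ δ S
  · have hO : ¬ Out7 c K (Cn7 μ s δ c K) S.1 := by
      rintro ⟨i, h1, h2, h3⟩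
      apply h3
      have e : ((i : ℤ) + 1) = (((i + 1 : ℕ) : ℕ) : ℤ) := by push_cast; rfl
      rw [e, mem_Cn7]
      have h4 := pos_nonneg S.1 (i + 1)
      have h5 := pos_le S.1 (i + 1)
      refine ⟨?_, h5, ?_⟩
      · rw [mem_slb]
        simp only
        push_cast at h5 ⊢
        omega
      · have h6 := h.2 0 (i + 1) (Nat.zero_le _) (by omega) (hκc.trans (by
          rw [Nat.sub_zero]
          exact_mod_cast (by omega : c ≤ i + 1)))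
        unfold Cn at h6
        rw [ps_zero, sub_zero, Nat.sub_zero] at h6
        exact h6
    rw [if_neg hO, if_pos h]
  · rw [if_neg h]
    split_ifs <;> norm_num

open Classical in
theorem g3_7 {κ δ ε R : ℝ} {P : Finset (Finset ℕ)} {c K : ℕ} (hK0 : 0 < K) (hcK : c + K ≤ N)
    (hR : (N : ℝ) ^ ε * wd' μ s K ≤ R) (S : Px P) :
    (if ps S c ∈ nbC c K (sl μ s) R (ps S (c + K)) then (0 : ℝ) else 1) ≤
      if Ns μ s ε 0 N S ∧ Cna μ s N κ δ S then 0 else 1 := by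
  by_cases h : Ns μ s ε 0 N S ∧ Cna μ s N κ δ S
  · have h1 : ps S c ∈ nbC c K (sl μ s) R (ps S (c + K)) := by
      unfold nbC
      rw [mem_filter, mem_Icc]
      refine ⟨⟨ps_nonneg S c, ps_le S c⟩, ?_⟩
      have h2 := h.1 c K hK0 (Nat.zero_le _) (by omega)
      rw [Nat.sub_zero] at h2
      push_cast at h2
      exact h2.trans hR
    rw [if_pos h1, if_pos h]
  · rw [if_neg h]
    split_ifs <;> norm_num

/-! ### The final form -/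

/-- The good event of the localisation, measurable version. -/
theorem good7 (E : Env → Prop) : ∃ Ω : Set Env, MeasurableSet Ω ∧ (∀ η ∈ Ω, E η) ∧ law μ Ωᶜ = law μ {η | ¬ E η} := by
  refine ⟨(toMeasurable (law μ) {η | ¬ E η})ᶜ, (measurableSet_toMeasurable _ _).compl, fun η hη => ?_, ?_⟩
  · by_contra hc
    exact hη (subset_toMeasurable (law μ) _ hc)
  · rw [compl_compl]
    exact measure_toMeasurable _

/-- **E0, FINAL FORM, FORWARD.** -/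
theorem e0_fin7 [IsProbabilityMeasure μ] {c₀ C₀ : ℝ} {n₀ : ℕ} (h : In μ s c₀ C₀ n₀)
    (hQI : ∀ p : ℝ, 1 < p → ∃ C θ0 : ℝ, 0 ≤ C ∧ 0 < θ0 ∧ QI μ p C θ0) {κ : ℝ} (hκ : 0 < κ) (hκ1 : κ ≤ 1) (k : ℕ) {ε K' : ℝ}
    (hε : 0 < ε) (hK' : 0 ≤ K') : ∃ δ' ε₁ : ℝ, 0 < δ' ∧ 0 < ε₁ ∧ ∃ N₀ : ℕ, ∀ N : ℕ, N₀ ≤ N →
      ∀ P : Finset (Finset ℕ), Pok μ s N δ' P → ∀ c K : ℕ, (N : ℝ) ^ κ ≤ c → (N : ℝ) ^ κ ≤ K → c + K ≤ N →
      ∀ M : ℝ, 0 ≤ M → M ≤ (N : ℝ) ^ ε₁ → ∀ U : Env → Finset ℕ → ℝ, PA c M U → ∀ G : Set Env, MeasurableSet G →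
      ∀ Ψ Ψ' : Env → (Fin k → Px P) → ℝ, (∀ η x, 0 ≤ Ψ η x) → (∀ η x, Ψ η x ≤ (N : ℝ) ^ K') →
      (∀ η x, 0 ≤ Ψ' η x) → (∀ η x, Ψ' η x ≤ (N : ℝ) ^ K') → (∀ x, Measurable fun η => Ψ' η x) →
      (∀ η, ∀ x x' : Fin k → Px P, (∀ i, pB (c + K) (x i) = pB (c + K) (x' i)) → Ψ η x = Ψ η x') →
      (∀ η ∈ G, ∀ ζ : Env, (∀ q, q ∉ slb c K → ζ q = η q) → (∀ q, |ζ q - η q| ≤ 2 * M / K) → ∀ x, Ψ η x ≤ Ψ' ζ x) →
      ∫⁻ η, ENNReal.ofReal (rep k (fun S => lw μ s η N P S + tA c U η S) (Ψ η)) ∂(law μ) ≤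
        ENNReal.ofReal ((N : ℝ) ^ ε) *
          (∫⁻ η, ENNReal.ofReal (rep k (lw μ s η N P) (Ψ' η)) ∂(law μ) + ENNReal.ofReal ((N : ℝ) ^ (-K'))) +
        ENNReal.ofReal ((N : ℝ) ^ K') * law μ Gᶜ := by
  classical
  obtain ⟨a, K₁, ha, ha1, hK1, hw⟩ := Pool.Agent.W_7d29a1_HZ.wd'_pow h
  obtain ⟨e2, he2⟩ : ∃ e2 : ℝ, e2 = a * κ / 4 := ⟨_, rfl⟩
  have he20 : 0 < e2 := by rw [he2]; positivity
  obtain ⟨δa, ga, hδa, hga, Na, hLa⟩ := loc14 h hκ e2 he20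
  obtain ⟨e3, he3⟩ : ∃ e3 : ℝ, e3 = min e2 (κ * δa) := ⟨_, rfl⟩
  have he30 : 0 < e3 := by rw [he3]; exact lt_min he20 (by positivity)
  have he32 : e3 ≤ e2 := by rw [he3]; exact min_le_left _ _
  have he33 : e3 ≤ κ * δa := by rw [he3]; exact min_le_right _ _
  obtain ⟨δb, gb, hδb, hgb, Nb, hLb⟩ := loc14 h hκ e3 he30
  obtain ⟨g, hg⟩ : ∃ g : ℝ, g = min ga gb := ⟨_, rfl⟩
  have hg0 : 0 < g := by rw [hg]; exact lt_min hga hgb
  have hg1 : g ≤ ga := by rw [hg]; exact min_le_left _ _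
  have hg2 : g ≤ gb := by rw [hg]; exact min_le_right _ _
  obtain ⟨e1, he1⟩ : ∃ e1 : ℝ, e1 = min (a * κ / 8) (min (g / 2) (κ / 2)) := ⟨_, rfl⟩
  have he10 : 0 < e1 := by rw [he1]; exact lt_min (by positivity) (lt_min (by positivity) (by positivity))
  have hp1 : 1 < p7 k ε K' := p7_gt hε hK'
  obtain ⟨C, θ0, hC, hθ, hQ⟩ := hQI (p7 k ε K') hp1
  have hw1 : 1 ≤ wd' μ s 1 := le_max_left _ _
  have hK1w : 1 ≤ K₁ * wd' μ s 1 := by nlinarith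
  have n1 := num7 k (K' := K') (K₁ := K₁ * wd' μ s 1) (C := C) (e1 := e1) (e2 := e2) hκ ha hK1w hg0 hC hθ
    (by rw [he1]; exact min_le_left _ _) (by rw [he1]; exact (min_le_right _ _).trans (min_le_left _ _))
    (by rw [he1]; exact (min_le_right _ _).trans (min_le_right _ _)) he20.le (le_of_eq he2)
  have n2 := fin7 k hε hK'
  have n3 := Pool.Agent.W_7d29a1_HZ.Z74.ev_exp (A := 8) (a := 1) (b := g) (c := g / 2) (by norm_num) one_pos hg0 (by linarith)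
    (2 * K')
  obtain ⟨N₁, hN₁⟩ := eventually_atTop.1 (n1.and (n2.and n3))
  refine ⟨δb, e1, hδb, he10, max (max Na Nb) (max N₁ 1), fun N hN P hP c K hc hK hcK M hM0 hM U hU G hG Ψ Ψ' h0 hΛ h0' hΛ' hm
    hΨ hpas => ?_⟩
  have k1 : Na ≤ N := (le_max_left _ _).trans ((le_max_left _ _).trans hN)
  have k2 : Nb ≤ N := (le_max_right _ _).trans ((le_max_left _ _).trans hN)
  have k3 : N₁ ≤ N := (le_max_left _ _).trans ((le_max_right _ _).trans hN)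
  have k4 : 1 ≤ N := (le_max_right _ _).trans ((le_max_right _ _).trans hN)
  obtain ⟨⟨m1, m2⟩, m3, m4⟩ := hN₁ N k3
  have hNR : (1 : ℝ) ≤ N := by exact_mod_cast k4
  have hN0 : (0 : ℝ) < N := by linarith
  have hKp : (0 : ℝ) < K := (Real.rpow_pos_of_pos hN0 κ).trans_le hK
  have hK0 : 0 < K := by exact_mod_cast hKp
  have := hP.ne
  -- the width
  obtain ⟨w1, _, w3⟩ := hw 1 K le_rfl hK0
  have hW1 : 1 ≤ wd' μ s K := le_max_left _ _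
  have hW : wd' μ s K ≤ K₁ * wd' μ s 1 * (K : ℝ) ^ (1 - a) := by
    refine w3.trans (le_of_eq ?_)
    rw [Nat.cast_one, div_one]
    ring
  obtain ⟨q1, q2, q3⟩ := m2 c K M (wd' μ s K) hK hcK hM0 hM hW1 hW
  set R : ℝ := K₁ * wd' μ s 1 * (N : ℝ) ^ e2 * wd' μ s K with hR
  have hNe : 0 < (N : ℝ) ^ e2 := Real.rpow_pos_of_pos hN0 _
  have hR0 : 0 ≤ R := by rw [hR]; positivity
  have hRi : ∀ i : ℕ, 1 ≤ i → i ≤ K → (N : ℝ) ^ e2 * wd' μ s i ≤ R := fun i hi hiK => by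
    have h1 := (hw i K hi hiK).1
    have h2 : K₁ * wd' μ s K ≤ K₁ * wd' μ s 1 * wd' μ s K := by
      have : 0 ≤ K₁ * wd' μ s K := by positivity
      nlinarith
    calc (N : ℝ) ^ e2 * wd' μ s i ≤ (N : ℝ) ^ e2 * (K₁ * wd' μ s 1 * wd' μ s K) :=
          mul_le_mul_of_nonneg_left (h1.trans h2) hNe.le
      _ = R := by rw [hR]; ring
  -- the good event
  obtain ⟨Ω, hΩm, hΩ, hΩc⟩ := good7 (μ := μ) fun η => LocG μ s N κ δa e2 ga η ∧ LocG μ s N κ δb e3 gb η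
  set ε0 := Real.exp (-(N : ℝ) ^ g) with hε0
  have mono_g : ∀ x : ℝ, g ≤ x → Real.exp (-(N : ℝ) ^ x) ≤ ε0 := fun x hx =>
    Real.exp_le_exp.2 (neg_le_neg (Real.rpow_le_rpow_of_exponent_le hNR hx))
  have hlocal : ∀ η ∈ Ω, gm (lw μ s η N P) (fun S => if Ns μ s e2 0 N S ∧ Cna μ s N κ δa S then 0 else 1) ≤ ε0 := fun η hη =>
    (Pok.loc (hΩ η hη).2 hδa.le k4 hκ1 he33 he32 hP).trans (mono_g _ hg2)
  have key := e0_mod7 (μ := μ) (s := s) (σ := sl μ s) (R := R) (Cn := Cn7 μ s δa c K) (δ0 := ε0) (ε := ε0) (Ω := Ω ∩ G)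
    (hP.fam (by omega : c + K ≤ N)) hK0 hcK hM0 hU hR0 hp1.le hC hQ q1 (filter_subset _ _) (Real.exp_pos _).le
    (Real.exp_pos _).le m1 (hΩm.inter hG)
    (fun η hη j hj z hz => (g1_7 (hΩ η hη.1).1 hc hcK he20.le hRi j hj z hz).trans
      (mul_le_mul_of_nonneg_right (mono_g _ hg1) (Mt_nonneg _ _ (fun _ => zero_le_one) _)))
    (fun η hη => (Pool.W7d29a1.C0.gm_mono _ fun S => g2_7 hc hcK S).trans (hlocal η hη.1))
    (fun η hη => (Pool.W7d29a1.C0.gm_mono _ fun S => g3_7 hK0 hcK (hRi K hK0 le_rfl) S).trans (hlocal η hη.1))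
    h0 hΛ h0' hΛ' hm hΨ (fun η hη => hpas η hη.2)
  -- the exponent
  have hG' : ∀ η, 0 ≤ rep k (lw μ s η N P) (Ψ' η) := fun η => rep_nonneg7 _ (h0' η)
  have hZ := lint_pow7 (law μ) hG' (fun η => rep_le_const7 _ (hΛ' η)) hp1.le (τ := (N : ℝ) ^ (-(K' + 1)))
    (Real.rpow_pos_of_pos hN0 _)
  have hE : (N + 1 : ℝ) ^ k * (4 * k * Real.exp (4 * M) * ε0 * (N : ℝ) ^ K') + (N : ℝ) ^ K' * k * (Real.exp (2 * M) * ε0) ≤
      (N : ℝ) ^ (-K') / 4 := q3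
  have hL : ENNReal.ofReal ((N : ℝ) ^ K') * law μ Ωᶜ ≤ ENNReal.ofReal ((N : ℝ) ^ (-K') / 4) := by
    have h1 : law μ Ωᶜ ≤ ENNReal.ofReal (2 * ε0) := by
      rw [hΩc]
      have hsub : {η | ¬(LocG μ s N κ δa e2 ga η ∧ LocG μ s N κ δb e3 gb η)} ⊆
          {η | ¬ LocG μ s N κ δa e2 ga η} ∪ {η | ¬ LocG μ s N κ δb e3 gb η} := by
        intro η hη
        by_contra hcon
        rw [Set.mem_union, not_or] at hcon
        exact hη ⟨not_not.1 hcon.1, not_not.1 hcon.2⟩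
      refine (measure_mono hsub).trans ((measure_union_le _ _).trans ((add_le_add (hLa N k1) (hLb N k2)).trans ?_))
      rw [← ENNReal.ofReal_add (Real.exp_pos _).le (Real.exp_pos _).le]
      refine ENNReal.ofReal_le_ofReal ?_
      have h3 := mono_g ga hg1
      have h4 := mono_g gb hg2
      linarith
    refine (mul_le_mul_right h1 _).trans ?_
    rw [← ENNReal.ofReal_mul (Real.rpow_nonneg hN0.le _)]
    refine ENNReal.ofReal_le_ofReal ?_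
    have hpos := Real.rpow_pos_of_pos hN0 K'
    have e : (N : ℝ) ^ (2 * K') = (N : ℝ) ^ K' * (N : ℝ) ^ K' := by
      rw [← Real.rpow_add hN0]
      congr 1
      ring
    have h5 : 8 * ((N : ℝ) ^ K' * (N : ℝ) ^ K') * ε0 ≤ 1 := by
      rw [← e]
      rw [one_mul] at m4
      refine m4.trans ?_
      have : Real.exp (-(N : ℝ) ^ (g / 2)) ≤ 1 := by
        rw [Real.exp_le_one_iff]
        linarith [Real.rpow_pos_of_pos hN0 (g / 2)]
      linarith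
    rw [Real.rpow_neg hN0.le, le_div_iff₀ (by norm_num), ← one_div, le_div_iff₀ hpos]
    linarith
  have hcompl : ENNReal.ofReal ((N : ℝ) ^ K') * law μ (Ω ∩ G)ᶜ ≤
      ENNReal.ofReal ((N : ℝ) ^ K') * law μ Ωᶜ + ENNReal.ofReal ((N : ℝ) ^ K') * law μ Gᶜ := by
    rw [← mul_add, Set.compl_inter]
    exact mul_le_mul_right (measure_union_le _ _) _
  refine m3 _ _ _ _ _ _ _ (key.trans (add_le_add le_rfl hcompl)) hZ ?_ hE hL
  exact q2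

end

end Pool.W7d29a1.C0.H7
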