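import Pool.Agent.W_7d29a1_C0.FarA34
import Pool.Agent.W_7d29a1_C0.Fld19
import Pool.Agent.W_7d29a1_C0.Loc7D

/-!
MP_7d29a1_pr, [CURV0] (helper34): E0 in the real form for a functional which does not see the slab of the transport (`e0_blind`), for
the log weights `wU` (any bounded function `U` of the past of the row `c`), and the far functional of E1 as an instance.
-/

set_option autoImplicit false
set_option linter.unusedSectionVars false
set_option linter.unusedVariables false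

namespace Pool.Agent.W_7d29a1_C0.Far34

open Finset MeasureTheory Filter Topology Pool.Agent.W_7d29a1_F Pool.Agent.W_7d29a1_X Pool.Agent.W_7d29a1_H
open Pool.Agent.W_7d29a1_HS (In)
open Pool.Agent.W_7d29a1_C0 Pool.Agent.W_7d29a1_C0.Mod92 Pool.Agent.W_7d29a1_C0.Swap57
open Pool.W7d29a1.C0
open Pool.W7d29a1.C0.VT31
open Pool.W7d29a1.C0.Fld19 Pool.W7d29a1.C0.H27 Pool.Agent.W_7d29a1_C0.Q32

noncomputable section

/-- From the lower integral to the integral. -/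
theorem int_of_lint {Ω : Type*} [MeasurableSpace Ω] {ν : Measure Ω} [IsProbabilityMeasure ν] {F G : Ω → ℝ} (mF : Measurable F)
    (mG : Measurable G) {D : ℝ} (F0 : ∀ x, 0 ≤ F x) (FD : ∀ x, F x ≤ D) (G0 : ∀ x, 0 ≤ G x) (GD : ∀ x, G x ≤ D) {a b : ℝ}
    (ha : 0 ≤ a) (hb : 0 ≤ b)
    (h : ∫⁻ x, ENNReal.ofReal (F x) ∂ν ≤ ENNReal.ofReal a * (∫⁻ x, ENNReal.ofReal (G x) ∂ν + ENNReal.ofReal b)) :
    ∫ x, F x ∂ν ≤ a * (∫ x, G x ∂ν + b) := by
  have iF : Integrable F ν := Integrable.of_bound mF.aestronglyMeasurable D (ae_of_all _ fun x => by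
    rw [Real.norm_eq_abs, abs_of_nonneg (F0 x)]
    exact FD x)
  have iG : Integrable G ν := Integrable.of_bound mG.aestronglyMeasurable D (ae_of_all _ fun x => by
    rw [Real.norm_eq_abs, abs_of_nonneg (G0 x)]
    exact GD x)
  have hG : 0 ≤ ∫ x, G x ∂ν := integral_nonneg G0
  rw [← ofReal_integral_eq_lintegral_ofReal iF (ae_of_all _ F0), ← ofReal_integral_eq_lintegral_ofReal iG (ae_of_all _ G0),
    ← ENNReal.ofReal_add hG hb, ← ENNReal.ofReal_mul ha] at h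
  exact (ENNReal.ofReal_le_ofReal_iff (mul_nonneg ha (add_nonneg hG hb))).1 h

theorem int_lin3 {Ω : Type*} [MeasurableSpace Ω] {ν : Measure Ω} {F G H : Ω → ℝ} (iF : Integrable F ν) (iG : Integrable G ν)
    (iH : Integrable H ν) (a b c : ℝ) :
    ∫ x, (a * F x + b * G x + c * H x) ∂ν = a * ∫ x, F x ∂ν + b * ∫ x, G x ∂ν + c * ∫ x, H x ∂ν := by
  have h1 : ∫ x, ((a * F x + b * G x) + c * H x) ∂ν = ∫ x, (a * F x + b * G x) ∂ν + ∫ x, c * H x ∂ν :=
    integral_add ((iF.const_mul a).add (iG.const_mul b)) (iH.const_mul c)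
  have h2 : ∫ x, (a * F x + b * G x) ∂ν = ∫ x, a * F x ∂ν + ∫ x, b * G x ∂ν := integral_add (iF.const_mul a) (iG.const_mul b)
  rw [h1, h2, integral_const_mul, integral_const_mul, integral_const_mul]

theorem intb_lin3 {Ω : Type*} [MeasurableSpace Ω] {ν : Measure Ω} {F G H : Ω → ℝ} (iF : Integrable F ν) (iG : Integrable G ν)
    (iH : Integrable H ν) (a b c : ℝ) : Integrable (fun x => a * F x + b * G x + c * H x) ν :=
  ((iF.const_mul a).add (iG.const_mul b)).add (iH.const_mul c)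

variable {μ : Measure ℝ} {s : ℝ} {N : ℕ}

/-- A bounded function of the past. -/
theorem PA_of {c : ℕ} {U : Env → Finset ℕ → ℝ} {M : ℝ} (hU : Past c U) (hM : ∀ η S, |U η S| ≤ M) : PA c M U where
  bd := hM
  bl η u x hu := by
    funext S
    exact hU.bl η S u x hu
  ms := hU.ms

theorem wU_eq {P : Finset (Finset ℕ)} {c : ℕ} {U : Env → Finset ℕ → ℝ} (hU : Past c U) (η : Env) :
    wU μ s N P U η = fun S => lw μ s η N P S + tA c U η S := by
  funext S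
  show lw μ s η N P S + U η S.1 = lw μ s η N P S + U η (S.1 ∩ range c)
  rw [← hU.cut]

/-- **E0 FOR A FUNCTIONAL WHICH DOES NOT SEE THE SLAB**, real form. -/
theorem e0_blind [IsProbabilityMeasure μ] {c₀ C₀ : ℝ} {n₀ : ℕ} (h : In μ s c₀ C₀ n₀)
    (hQI : ∀ p : ℝ, 1 < p → ∃ C θ0 : ℝ, 0 ≤ C ∧ 0 < θ0 ∧ QI μ p C θ0) {κ : ℝ} (hκ : 0 < κ) (hκ1 : κ ≤ 1) (k : ℕ) {ε K' : ℝ}
    (hε : 0 < ε) (hK' : 0 ≤ K') : ∃ δ' ε₁ : ℝ, 0 < δ' ∧ 0 < ε₁ ∧ ∃ N₀ : ℕ, ∀ N : ℕ, N₀ ≤ N →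
      ∀ P : Finset (Finset ℕ), H7.Pok μ s N δ' P → ∀ c K : ℕ, (N : ℝ) ^ κ ≤ c → (N : ℝ) ^ κ ≤ K → c + K ≤ N →
      ∀ M : ℝ, 0 ≤ M → M ≤ (N : ℝ) ^ ε₁ → ∀ U : Env → Finset ℕ → ℝ, Past c U → (∀ η S, |U η S| ≤ M) →
      ∀ Ψ : Env → (Fin k → Px P) → ℝ, (∀ η x, 0 ≤ Ψ η x) → (∀ η x, Ψ η x ≤ (N : ℝ) ^ K') → (∀ x, Measurable fun η => Ψ η x) →
      (∀ η, ∀ x x' : Fin k → Px P, (∀ i, pB (c + K) (x i) = pB (c + K) (x' i)) → Ψ η x = Ψ η x') →
      (∀ η ζ : Env, (∀ q, q ∉ slb c K → ζ q = η q) → Ψ ζ = Ψ η) →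
      ∫ η, rep k (wU μ s N P U η) (Ψ η) ∂(law μ) ≤
        (N : ℝ) ^ ε * (∫ η, rep k (lw μ s η N P) (Ψ η) ∂(law μ) + (N : ℝ) ^ (-K')) := by
  obtain ⟨δ', ε₁, hδ', hε₁, N₀, hN₀⟩ := H7.e0_fin7 h hQI hκ hκ1 k hε hK'
  refine ⟨δ', ε₁, hδ', hε₁, N₀, fun N hN P hP c K hc hK hcK M hM0 hM U hU hUM Ψ h0 hΛ hm hΨ hbl => ?_⟩
  have hne := hP.ne
  have key := hN₀ N hN P hP c K hc hK hcK M hM0 hM U (PA_of hU hUM) Set.univ MeasurableSet.univ Ψ Ψ h0 hΛ h0 hΛ hm hΨ
    (fun η _ ζ hζ _ x => le_of_eq (congrFun (hbl η ζ hζ) x).symm)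
  rw [Set.compl_univ, measure_empty, mul_zero, add_zero] at key
  have mΨ : Measurable Ψ := measurable_pi_lambda _ hm
  have ml : Measurable (fun η => lw μ s η N P) := by
    have h1 := measurable_wU (μ := μ) (s := s) (N := N) (Q := P) (Past.zero 0)
    have e : wU μ s N P (fun _ _ => 0) = fun η => lw μ s η N P := by
      funext η S
      show lw μ s η N P S + 0 = _
      rw [add_zero]
    rwa [e] at h1
  simp only [← wU_eq hU] at key
  exact int_of_lint (H41.meas_rep (measurable_wU hU) mΨ) (H41.meas_rep ml mΨ) (fun η => H41.rep_nonneg k _ (h0 η))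
    (fun η => (rep_mono k _ (hΛ η)).trans_eq (H41.rep_const k _ _)) (fun η => H41.rep_nonneg k _ (h0 η))
    (fun η => (rep_mono k _ (hΛ η)).trans_eq (H41.rep_const k _ _)) (Real.rpow_nonneg (Nat.cast_nonneg _) _)
    (Real.rpow_nonneg (Nat.cast_nonneg _) _) key

/-! ### The spectator -/

/-- A function which is blind to every site of a finite set does not see the set. -/
theorem blind_of_upd {α : Type*} (f : Env → α) (F : Finset Pt) (h : ∀ q ∈ F, ∀ (η : Env) (u : ℝ), f (Function.update η q u) = f η) :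
    ∀ η ζ : Env, (∀ q, q ∉ F → ζ q = η q) → f ζ = f η := by
  classical
  induction F using Finset.induction_on with
  | empty =>
    intro η ζ hζ
    have e : ζ = η := funext fun q => hζ q (by simp)
    rw [e]
  | insert p F hp ih =>
    intro η ζ hζ
    have h1 : f (Function.update ζ p (η p)) = f η := ih (fun q hq => h q (mem_insert_of_mem hq)) η (Function.update ζ p (η p))
      fun q hq => by
        by_cases hqp : q = p
        · subst hqp
          rw [Function.update_self]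
        · rw [Function.update_of_ne hqp]
          exact hζ q fun h2 => (mem_insert.1 h2).elim hqp hq
    rw [← h1, h p (mem_insert_self p F)]

/-- A spectator behind the row `d`: it does not see the environment in the rows `≤ d` and the path before the row `d`. -/
structure Sp (P : Finset (Finset ℕ)) (d : ℕ) (D : ℝ) (f : Env → Px P → ℝ) : Prop where
  meas : ∀ S, Measurable fun η => f η S
  bdd : ∀ η S, |f η S| ≤ D
  side : ∀ (η : Env) (S S' : Px P), S.1 \ range d = S'.1 \ range d → f η S = f η S'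
  env : ∀ (η : Env) (S : Px P) (t x : ℤ) (u : ℝ), 0 < t → t ≤ d → f (Function.update η (t, x) u) S = f η S

variable {P : Finset (Finset ℕ)} {d : ℕ} {D : ℝ} {f : Env → Px P → ℝ}

theorem Sp.upd (hf : Sp P d D f) {q : Pt} (h0 : 0 < q.1) (h1 : q.1 ≤ d) (η : Env) (u : ℝ) : f (Function.update η q u) = f η :=
  funext fun S => hf.env η S q.1 q.2 u h0 h1

/-- The positions behind the row. -/
theorem ps_of_pB {c1 : ℕ} {S S' : Px P} (h : pB c1 S = pB c1 S') {i : ℕ} (hi : c1 ≤ i) : ps S i = ps S' i := by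
  have h0 : pos S.1 c1 = pos S'.1 c1 := congrArg Prod.fst h
  have h1 : S.1 \ range c1 = S'.1 \ range c1 := congrArg Prod.snd h
  have e : ∀ A : Finset ℕ, A ∩ Ico c1 i = (A \ range c1) ∩ Ico c1 i := fun A => by
    ext k
    simp only [Finset.mem_inter, Finset.mem_sdiff, Finset.mem_range, Finset.mem_Ico]
    constructor
    · rintro ⟨h2, h3⟩
      exact ⟨⟨h2, by omega⟩, h3⟩
    · rintro ⟨⟨h2, _⟩, h3⟩
      exact ⟨h2, h3⟩
  show pos S.1 i = pos S'.1 i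
  rw [pos_split S.1 hi, pos_split S'.1 hi, h0, e, e S'.1, h1]

theorem sdiff_of_pB {c1 d : ℕ} {S S' : Px P} (h : pB c1 S = pB c1 S') (hd : c1 ≤ d) : S.1 \ range d = S'.1 \ range d := by
  have h1 : S.1 \ range c1 = S'.1 \ range c1 := congrArg Prod.snd h
  have e : ∀ A : Finset ℕ, A \ range d = (A \ range c1) \ range d := fun A => by
    ext k
    simp only [Finset.mem_sdiff, Finset.mem_range]
    constructor
    · rintro ⟨h2, h3⟩
      exact ⟨⟨h2, by omega⟩, h3⟩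
    · rintro ⟨⟨h2, _⟩, h3⟩
      exact ⟨h2, h3⟩
  rw [e, e S'.1, h1]

/-- The far functional, as an observable of three replicas. -/
def Ff (J : Finset ℕ) (R : ℝ) (m0 m1 : ℕ) (f : Env → Px P → ℝ) (η : Env) (y : Fin 3 → Px P) : ℝ :=
  farI J R (y 0) (y 1) (y 2) * Zf m0 m1 (f η) (y 1) (y 2)

theorem Ff_nonneg (J : Finset ℕ) (R : ℝ) (m0 m1 : ℕ) (f : Env → Px P → ℝ) (η : Env) (y : Fin 3 → Px P) : 0 ≤ Ff J R m0 m1 f η y :=
  mul_nonneg (farI_nonneg _ _ _ _ _) (Zf_nonneg _ _ _ _ _)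

theorem Ff_le (hf : Sp P d D f) (J : Finset ℕ) (R : ℝ) (m0 m1 : ℕ) (η : Env) (y : Fin 3 → Px P) : Ff J R m0 m1 f η y ≤ 2 * D := by
  unfold Ff
  calc farI J R (y 0) (y 1) (y 2) * Zf m0 m1 (f η) (y 1) (y 2) ≤ 1 * Zf m0 m1 (f η) (y 1) (y 2) :=
        mul_le_mul_of_nonneg_right (farI_le_one _ _ _ _ _) (Zf_nonneg _ _ _ _ _)
    _ ≤ 2 * D := by
        rw [one_mul]
        exact Zf_le (hf.bdd η) _ _

theorem meas_Zf (hf : Sp P d D f) (m0 m1 : ℕ) (S T : Px P) : Measurable fun η => Zf m0 m1 (f η) S T := by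
  unfold Zf
  exact ((hf.meas S).sub (hf.meas T)).abs.const_mul _

theorem meas_Ff (hf : Sp P d D f) (J : Finset ℕ) (R : ℝ) (m0 m1 : ℕ) (y : Fin 3 → Px P) : Measurable fun η => Ff J R m0 m1 f η y :=
  (meas_Zf hf m0 m1 _ _).const_mul _

theorem NI_of_ps {m0 m1 : ℕ} {S S' T T' : Px P} (h : ∀ i, m0 ≤ i → ps S i = ps S' i) (h' : ∀ i, m0 ≤ i → ps T i = ps T' i) :
    NI m0 m1 S T = NI m0 m1 S' T' := by
  unfold NI
  congr 1
  refine propext ⟨fun k i h1 h2 => ?_, fun k i h1 h2 => ?_⟩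
  · rw [← h i h1, ← h' i h1]
    exact k i h1 h2
  · rw [h i h1, h' i h1]
    exact k i h1 h2

theorem Ff_pB (hf : Sp P d D f) {J : Finset ℕ} {R : ℝ} {m0 m1 c1 : ℕ} (h0 : c1 ≤ m0) (hd : c1 ≤ d) (hJ : ∀ m ∈ J, m0 ≤ m) (η : Env)
    {x x' : Fin 3 → Px P} (h : ∀ i, pB c1 (x i) = pB c1 (x' i)) : Ff J R m0 m1 f η x = Ff J R m0 m1 f η x' := by
  have hp : ∀ i k, c1 ≤ k → ps (x i) k = ps (x' i) k := fun i k hk => ps_of_pB (h i) hk
  unfold Ff Zf farI
  rw [NI_of_ps (fun i hi => hp 1 i (h0.trans hi)) (fun i hi => hp 2 i (h0.trans hi)), hf.side η _ _ (sdiff_of_pB (h 1) hd),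
    hf.side η _ _ (sdiff_of_pB (h 2) hd)]
  congr 2
  unfold FarJ
  refine propext ⟨?_, ?_⟩
  · rintro ⟨m, hm, k1, k2⟩
    have hm0 := h0.trans (hJ m hm)
    rw [hp 0 m hm0, hp 1 m hm0] at k1
    rw [hp 0 m hm0, hp 2 m hm0] at k2
    exact ⟨m, hm, k1, k2⟩
  · rintro ⟨m, hm, k1, k2⟩
    have hm0 := h0.trans (hJ m hm)
    rw [← hp 0 m hm0, ← hp 1 m hm0] at k1
    rw [← hp 0 m hm0, ← hp 2 m hm0] at k2
    exact ⟨m, hm, k1, k2⟩

theorem Ff_blind (hf : Sp P d D f) (J : Finset ℕ) (R : ℝ) (m0 m1 : ℕ) {c K : ℕ} (hcK : c + K ≤ d) (η ζ : Env)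
    (h : ∀ q, q ∉ slb c K → ζ q = η q) : Ff J R m0 m1 f ζ = Ff J R m0 m1 f η := by
  have e : f ζ = f η := blind_of_upd f (slb c K) (fun q hq η u => hf.upd (by
    have := (mem_slb.1 hq).1.1
    omega) (by
    have := (mem_slb.1 hq).1.2
    have h3 : ((c + K : ℕ) : ℤ) ≤ d := by exact_mod_cast hcK
    push_cast at h3
    omega) η u) η ζ h
  funext y
  unfold Ff
  rw [e]

/-! ### The corner -/

/-- **The price of an extreme replica** against a weight of two own replicas which does not see the rows `(τ, τ + t]` (`far13` at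
`k = 1`). -/
def FP (μ : Measure ℝ) (s : ℝ) (N : ℕ) (P : Finset (Finset ℕ)) (r p e : ℝ) (τ t : ℕ) : Prop :=
  ∀ sg : ℤ, (sg = 1 ∨ sg = -1) → ∀ X : Env → (Fin 2 → Px P) → ℝ, (∀ η x, 0 ≤ X η x) → (∀ η x, X η x ≤ 1) →
    (∀ x, Measurable fun η => X η x) →
    (∀ (η : Env) (q : Pt) (u : ℝ), (τ : ℤ) < q.1 → q.1 ≤ ((τ + t : ℕ) : ℤ) → X (Function.update η q u) = X η) →
    ∫ η, rep 3 (lw μ s η N P) (fun y => exI sg r τ (y 0) (y 1) (y 2) * X η (Fin.tail y)) ∂(law μ) ≤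
      p * ∫ η, rep 2 (lw μ s η N P) (X η) ∂(law μ) + e

theorem meas_lw {P : Finset (Finset ℕ)} : Measurable (fun η => lw μ s η N P) := by
  have h1 := measurable_wU (μ := μ) (s := s) (N := N) (Q := P) (Past.zero 0)
  have e : wU μ s N P (fun _ _ => 0) = fun η => lw μ s η N P := by
    funext η S
    show lw μ s η N P S + 0 = _
    rw [add_zero]
  rwa [e] at h1

theorem int_rep [IsProbabilityMeasure μ] [Nonempty (Px P)] {k : ℕ} {w : Env → Px P → ℝ} (mw : Measurable w) {Ψ : Env → (Fin k → Px P) → ℝ}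
    (mΨ : ∀ x, Measurable fun η => Ψ η x) {D : ℝ} (h0 : ∀ η x, 0 ≤ Ψ η x) (h1 : ∀ η x, Ψ η x ≤ D) :
    Integrable (fun η => rep k (w η) (Ψ η)) (law μ) :=
  Integrable.of_bound (H41.meas_rep mw (measurable_pi_lambda _ mΨ)).aestronglyMeasurable D (ae_of_all _ fun η => by
    rw [Real.norm_eq_abs, abs_of_nonneg (H41.rep_nonneg k _ (h0 η))]
    exact (rep_mono k _ (h1 η)).trans_eq (H41.rep_const k _ _))

/-- **The far term at the corner.** -/
theorem far_corner [IsProbabilityMeasure μ] [Nonempty (Px P)] {σ : ℝ} {v : ℕ → ℝ} {J : Finset ℕ} {R r p e : ℝ} {τ t m0 m1 : ℕ}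
    (hFP : FP μ s N P r p e τ t) (hf : Sp P d D f) (hD : 0 < D) (hv : 0 ≤ v 0) (hr : 0 < r) (hR : ∀ k, k ≤ m1 - τ → r + 2 * v k ≤ R)
    (hτ : τ ≤ m0) (h1 : m1 ≤ N) (hJ : ∀ m ∈ J, m0 ≤ m ∧ m ≤ m1) (ht : τ + t ≤ d) :
    ∫ η, rep 3 (lw μ s η N P) (Ff J R m0 m1 f η) ∂(law μ) ≤
      6 * p * ∫ η, rep 2 (lw μ s η N P) (fun x => Zf m0 m1 (f η) (x 0) (x 1)) ∂(law μ) + 12 * D * e +
      6 * D * ∫ η, gm (lw μ s η N P) (nfl N σ v) ∂(law μ) := by
  obtain ⟨X, hX⟩ : ∃ X : Env → (Fin 2 → Px P) → ℝ, X = fun η x => (2 * D)⁻¹ * Zf m0 m1 (f η) (x 0) (x 1) := ⟨_, rfl⟩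
  have h2D : 0 < 2 * D := by positivity
  have X0 : ∀ η x, 0 ≤ X η x := fun η x => by
    rw [hX]
    exact mul_nonneg (by positivity) (Zf_nonneg _ _ _ _ _)
  have X1 : ∀ η x, X η x ≤ 1 := fun η x => by
    rw [hX]
    show (2 * D)⁻¹ * Zf m0 m1 (f η) (x 0) (x 1) ≤ 1
    rw [inv_mul_le_iff₀ h2D, mul_one]
    exact Zf_le (hf.bdd η) _ _
  have mX : ∀ x, Measurable fun η => X η x := fun x => by
    rw [hX]
    exact (meas_Zf hf m0 m1 _ _).const_mul _
  have bX : ∀ (η : Env) (q : Pt) (u : ℝ), (τ : ℤ) < q.1 → q.1 ≤ ((τ + t : ℕ) : ℤ) → X (Function.update η q u) = X η :=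
    fun η q u hq0 hq1 => by
      rw [hX]
      show (fun x : Fin 2 → Px P => (2 * D)⁻¹ * Zf m0 m1 (f (Function.update η q u)) (x 0) (x 1)) = _
      have h3 : ((τ + t : ℕ) : ℤ) ≤ d := by exact_mod_cast ht
      rw [hf.upd (by omega) (by omega)]
  have key : ∀ sg : ℤ, (sg = 1 ∨ sg = -1) →
      ∫ η, rep 3 (lw μ s η N P) (fun y => exI sg r τ (y 0) (y 1) (y 2) * Zf m0 m1 (f η) (y 1) (y 2)) ∂(law μ) ≤
        p * ∫ η, rep 2 (lw μ s η N P) (fun x => Zf m0 m1 (f η) (x 0) (x 1)) ∂(law μ) + 2 * D * e := fun sg hsg => by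
    have h2 := hFP sg hsg X X0 X1 mX bX
    have e1 : (fun η => rep 3 (lw μ s η N P) (fun y => exI sg r τ (y 0) (y 1) (y 2) * Zf m0 m1 (f η) (y 1) (y 2))) =
        fun η => 2 * D * rep 3 (lw μ s η N P) (fun y => exI sg r τ (y 0) (y 1) (y 2) * X η (Fin.tail y)) := by
      funext η
      unfold rep
      rw [← mul_div_assoc, mul_sum]
      congr 1
      refine sum_congr rfl fun y _ => ?_
      have e2 : X η (Fin.tail y) = (2 * D)⁻¹ * Zf m0 m1 (f η) (y 1) (y 2) := by rw [hX]; rfl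
      beta_reduce
      rw [e2]
      field_simp
    have e3 : (fun η => rep 2 (lw μ s η N P) (fun x => Zf m0 m1 (f η) (x 0) (x 1))) =
        fun η => 2 * D * rep 2 (lw μ s η N P) (X η) := by
      funext η
      unfold rep
      rw [← mul_div_assoc, mul_sum]
      congr 1
      refine sum_congr rfl fun y _ => ?_
      rw [hX]
      beta_reduce
      field_simp
    rw [e1, e3, integral_const_mul, integral_const_mul]
    have h3 := mul_le_mul_of_nonneg_left h2 h2D.le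
    linarith
  have iE : ∀ sg : ℤ, Integrable (fun η => rep 3 (lw μ s η N P) (fun y => exI sg r τ (y 0) (y 1) (y 2) * Zf m0 m1 (f η) (y 1) (y 2)))
      (law μ) := fun sg => int_rep meas_lw (fun y => (meas_Zf hf m0 m1 _ _).const_mul _)
    (fun η y => mul_nonneg (exI_nonneg _ _ _ _ _ _) (Zf_nonneg _ _ _ _ _)) (D := 2 * D) fun η y => by
      have h5 : exI sg r τ (y 0) (y 1) (y 2) ≤ 1 := by
        unfold exI
        split_ifs <;> norm_num
      calc exI sg r τ (y 0) (y 1) (y 2) * Zf m0 m1 (f η) (y 1) (y 2) ≤ 1 * Zf m0 m1 (f η) (y 1) (y 2) :=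
            mul_le_mul_of_nonneg_right h5 (Zf_nonneg _ _ _ _ _)
        _ ≤ 2 * D := by
            rw [one_mul]
            exact Zf_le (hf.bdd η) _ _
  have iN : Integrable (fun η => gm (lw μ s η N P) (nfl N σ v)) (law μ) := by
    have h6 := int_rep (μ := μ) (k := 1) (w := fun η => lw μ s η N P) meas_lw (Ψ := fun _ x => nfl N σ v (x 0))
      (fun x => measurable_const) (D := 1) (fun η x => nfl_nonneg _ _ _ _) fun η x => by
        unfold nfl
        split_ifs <;> norm_num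
    refine h6.congr (ae_of_all _ fun η => ?_)
    exact rep_coord 0 _ (nfl N σ v) 0
  have iF : Integrable (fun η => rep 3 (lw μ s η N P) (Ff J R m0 m1 f η)) (law μ) :=
    int_rep meas_lw (meas_Ff hf J R m0 m1) (Ff_nonneg J R m0 m1 f) (Ff_le hf J R m0 m1)
  have h4 : ∫ η, rep 3 (lw μ s η N P) (Ff J R m0 m1 f η) ∂(law μ) ≤
      3 * ∫ η, rep 3 (lw μ s η N P) (fun y => exI 1 r τ (y 0) (y 1) (y 2) * Zf m0 m1 (f η) (y 1) (y 2)) ∂(law μ) +
      3 * ∫ η, rep 3 (lw μ s η N P) (fun y => exI (-1) r τ (y 0) (y 1) (y 2) * Zf m0 m1 (f η) (y 1) (y 2)) ∂(law μ) +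
      6 * D * ∫ η, gm (lw μ s η N P) (nfl N σ v) ∂(law μ) := by
    rw [← int_lin3 (iE 1) (iE (-1)) iN]
    refine integral_mono iF (intb_lin3 (iE 1) (iE (-1)) iN _ _ _) fun η => ?_
    exact rep_far hv hr hR hτ h1 hJ (hf.bdd η) (lw μ s η N P)
  have h5 := key 1 (Or.inl rfl)
  have h6 := key (-1) (Or.inr rfl)
  linarith

end

end Pool.Agent.W_7d29a1_C0.Far34
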