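import Pool.Agent.W_7d29a1_C0.TE72
import Pool.Agent.W_7d29a1_C0.Row44
import Pool.Agent.W_7d29a1_C0.Tg93

/-!
CURV0 (MP_7d29a1_pr), leaf (T), THE ASSEMBLY (helper72). (a) `dT72` is measurable and bounded; the telescope in expectation
(`tel_int72`). (b) ONE ROW OF ONE LEVEL (`row72`): from the box insertion (TL3, TL4), the micro events and `E0X` (helper7). (c) ONE LEVEL
(`lev72`): the sum over the rows, by `grp_steps`, `grp93` (helper93) with the prices as hypotheses. (d) the sum over the levels.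
-/

set_option autoImplicit false
set_option linter.unusedSectionVars false
set_option linter.unusedVariables false

namespace Pool.Agent.W_7d29a1_C0.T72

open Finset MeasureTheory
open Pool.Agent.W_7d29a1_C0 Pool.Agent.W_7d29a1_C0.Mod92 Pool.Agent.W_7d29a1_C0.Swap57 Pool.Agent.W_7d29a1_C0.NM82
open Pool.Agent.W_7d29a1_C0.CutT57
open Pool.Agent.W_7d29a1_F Pool.Agent.W_7d29a1_X
open Pool.W7d29a1.C0 Pool.W7d29a1.C0.VT31 Pool.W7d29a1.C0.T72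
open Pool.W7d29a1.C0.H7 (E0X Marg Sat meas_evP)
open Pool.W7d29a1.C0.H27 (pB slb)
open Pool.W7d29a1.C0.I52 (Plan ev ins ev_mono ev_nonneg ev_smul ev_add ev_congr gm_eq_av)

noncomputable section

/-! ### `dT72` is measurable and bounded -/

section Abs

variable {X : Type*} [Fintype X] [Nonempty X] {Y Y' : Type*} [DecidableEq Y] [DecidableEq Y']

section Meas

variable {Ω : Type*} [MeasurableSpace Ω] {w A γ g f : Ω → X → ℝ}

theorem meas_c3 (p : X → Y) (hw : Measurable w) (hA : Measurable A) (hγ : Measurable γ) (hg : Measurable g) :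
    Measurable fun u => c3 (w u) p (A u) (γ u) (g u) := by
  unfold c3
  exact ((meas_cCX p hw hA (hγ.mul hg)).sub ((meas_cCX p hw hA hγ).mul (meas_cEX p hw hg))).sub
    ((meas_cEX p hw hγ).mul (meas_cCX p hw hA hg))

theorem meas_dX72 (q' : X → Y') (q : X → Y) (hw : Measurable w) (hA : Measurable A) (hγ : Measurable γ) (hg : Measurable g) :
    Measurable fun u => dX72 q' q (γ u) (g u) (w u) (A u) := by
  unfold dX72
  exact ((meas_c3 q' hw hA (meas_cEX q hw hγ) (meas_cEX q hw hg)).add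
    (meas_cCX q' hw (meas_cCX q hw hA hγ) (meas_cEX q hw hg))).add
    (meas_cCX q' hw (meas_cEX q hw hγ) (meas_cCX q hw hA hg))

theorem meas_dT72 (q' : X → Y') (q : X → Y) (hw : Measurable w) (hA : Measurable A) (hγ : Measurable γ) (hg : Measurable g)
    (hf : Measurable f) : Measurable fun u => dT72 q' q (γ u) (g u) (f u) (w u) (A u) := by
  have h0 : Measurable fun u => cC (w u) q' (cE (w u) q (γ u)) (cE (w u) q (g u)) :=
    meas_cCX q' hw (meas_cEX q hw hγ) (meas_cEX q hw hg)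
  unfold dT72 g3
  exact (((meas_gcX hw hA (h0.mul hf)).sub ((meas_gcX hw hA h0).mul (meas_gmX hw hf))).sub
    ((meas_gmX hw h0).mul (meas_gcX hw hA hf))).add (meas_gcX hw (meas_dX72 q' q hw hA hγ hg) hf)

end Meas

theorem abs_c3_le (w : X → ℝ) (p : X → Y) {A F G : X → ℝ} {a b c : ℝ} (hA : ∀ x, |A x| ≤ a) (hF : ∀ x, |F x| ≤ b)
    (hG : ∀ x, |G x| ≤ c) (x : X) : |c3 w p A F G x| ≤ 6 * (a * b * c) := by
  have ha : 0 ≤ a := (abs_nonneg _).trans (hA x)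
  have hb : 0 ≤ b := (abs_nonneg _).trans (hF x)
  have hc : 0 ≤ c := (abs_nonneg _).trans (hG x)
  have h1 : |cC w p A (F * G) x| ≤ 2 * (a * (b * c)) := abs_cC_le_X w p hA (fun x => by
    rw [Pi.mul_apply, abs_mul]
    exact mul_le_mul (hF x) (hG x) (abs_nonneg _) hb) x
  have h2 : |cC w p A F x * cE w p G x| ≤ 2 * (a * b) * c := by
    rw [abs_mul]
    exact mul_le_mul (abs_cC_le_X w p hA hF x) (abs_cE_le_X w p hG x) (abs_nonneg _) (by positivity)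
  have h3 : |cE w p F x * cC w p A G x| ≤ b * (2 * (a * c)) := by
    rw [abs_mul]
    exact mul_le_mul (abs_cE_le_X w p hF x) (abs_cC_le_X w p hA hG x) (abs_nonneg _) hb
  show |cC w p A (F * G) x - cC w p A F x * cE w p G x - cE w p F x * cC w p A G x| ≤ _
  refine (abs_sub _ _).trans ((add_le_add (abs_sub _ _) le_rfl).trans ?_)
  linarith

/-- A bound of the derivative. -/
theorem abs_dT72_le (q' : X → Y') (q : X → Y) {w A γ g f : X → ℝ} {M D : ℝ} (hA : ∀ x, |A x| ≤ M)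
    (hγ : ∀ x, |γ x| ≤ M) (hg : ∀ x, |g x| ≤ M) (hf : ∀ x, |f x| ≤ D) : |dT72 q' q γ g f w A| ≤ 40 * (M ^ 3 * D) := by
  obtain ⟨x0⟩ := (inferInstance : Nonempty X)
  have hM : 0 ≤ M := (abs_nonneg _).trans (hA x0)
  have hD : 0 ≤ D := (abs_nonneg _).trans (hf x0)
  have a1 : ∀ x, |cE w q γ x| ≤ M := fun x => abs_cE_le_X w q hγ x
  have a2 : ∀ x, |cE w q g x| ≤ M := fun x => abs_cE_le_X w q hg x
  have a3 : ∀ x, |cC w q' (cE w q γ) (cE w q g) x| ≤ 2 * (M * M) := fun x => abs_cC_le_X w q' a1 a2 x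
  have b1 : |g3 w A (cC w q' (cE w q γ) (cE w q g)) f| ≤ 6 * (M * (2 * (M * M)) * D) := by
    rw [← g3_eq_c3 w A _ f x0]
    exact abs_c3_le w _ hA a3 hf x0
  have b2 : ∀ x, |dX72 q' q γ g w A x| ≤ 14 * M ^ 3 := fun x => by
    have c1 := abs_c3_le w q' hA a1 a2 x
    have c2 := abs_cC_le_X w q' (fun x => abs_cC_le_X w q hA hγ x) a2 x
    have c3' := abs_cC_le_X w q' a1 (fun x => abs_cC_le_X w q hA hg x) x
    show |c3 w q' A (cE w q γ) (cE w q g) x + cC w q' (cC w q A γ) (cE w q g) x + cC w q' (cE w q γ) (cC w q A g) x| ≤ _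
    refine (abs_add_le _ _).trans ((add_le_add (abs_add_le _ _) le_rfl).trans ?_)
    nlinarith
  have b3 := abs_gc_le_X w b2 hf
  unfold dT72
  refine (abs_add_le _ _).trans ?_
  nlinarith

/-- A trivial bound of the functional. -/
theorem abs_fT72_triv (q' : X → Y') (q : X → Y) {w κ b f : X → ℝ} {K M D : ℝ} (hκ : ∀ x, |κ x| ≤ K) (hb : ∀ x, |b x| ≤ M)
    (hf : ∀ x, |f x| ≤ D) : |fT72 q' q κ b f w| ≤ 4 * (K * M * D) := by
  have h := abs_gc_le_X w (fun x => abs_cC_le_X w q' (fun x => abs_cE_le_X w q hκ x) (fun x => abs_cE_le_X w q hb x) x) hf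
  unfold fT72
  refine h.trans (le_of_eq ?_)
  ring

theorem meas_fT72 {Ω : Type*} [MeasurableSpace Ω] {w κ b f : Ω → X → ℝ} (q' : X → Y') (q : X → Y) (hw : Measurable w)
    (hκ : Measurable κ) (hb : Measurable b) (hf : Measurable f) : Measurable fun u => fT72 q' q (κ u) (b u) (f u) (w u) := by
  unfold fT72
  exact meas_gcX hw (meas_cCX q' hw (meas_cEX q hw hκ) (meas_cEX q hw hb)) hf

end Abs

/-! ### The weights of a row -/

section Wts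

variable {μ : Measure ℝ} {s : ℝ} {N : ℕ} {Q : Finset (Finset ℕ)}

theorem meas_wj72 (δ B : ℝ) (b j : ℕ) (t : ℝ) : Measurable fun ω => wj μ s N Q δ B b j ω t :=
  measurable_pi_lambda _ fun S => meas_wt δ B b j t S

theorem meas_gg72 (δ B : ℝ) (b j : ℕ) : Measurable fun ω => gg μ s Q δ B b ω j :=
  measurable_pi_lambda _ fun S => meas_gg δ B b j S

theorem meas_uj72 (δ B : ℝ) (b j : ℕ) (t : ℝ) (S : Px Q) :
    Measurable fun ω : Env × Finset ℕ => uj72 μ s Q δ B b j t ω.2 ω.1 S := by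
  have h : Measurable fun ω : Env × Finset ℕ => wt μ s ω.1 0 Q δ B b j (sg ω.2 j) t S - lw μ s ω.1 0 Q S :=
    (meas_wt δ B b j t S).sub ((meas_lw S).comp measurable_fst)
  refine (congrArg Measurable (funext fun ω => ?_)).mp h
  unfold Mod92.wt uj72
  rw [Pi.add_apply, Pi.smul_apply, smul_eq_mul]
  ring

theorem HdAll_wj72 [SwQ Q] (δ B : ℝ) {b j m0 : ℕ} (h : j + b ≤ m0) (ω : Env × Finset ℕ) (t : ℝ) :
    HdAll m0 (wj μ s N Q δ B b j ω t) := by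
  have h1 : Lk 0 m0 (gj (Q := Q) μ s ω.1 δ B b j (sg ω.2 j)) := Lk_gg (Q := Q) δ B b j ω (Nat.zero_le _) h
  exact (HdAll_lw ω.1 m0).add ((HdAll_Lk h1).smul _)

end Wts

/-! ### The telescope in expectation -/

section Exp

variable {μ : Measure ℝ} {s : ℝ} {N : ℕ} {Q : Finset (Finset ℕ)}

/-- The mean of the derivative `dT72 .. g` at the weights of the row `j` at `t`. -/
def TI72 (μ : Measure ℝ) (s : ℝ) (N : ℕ) (Q : Finset (Finset ℕ)) (δ B : ℝ) (b0 j : ℕ) (t : ℝ) (q' q : Px Q → Finset ℕ × ℕ)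
    (γ f : Env × Finset ℕ → Px Q → ℝ) : ℝ :=
  ∫ ω, dT72 q' q (γ ω) (gg μ s Q δ B b0 ω j) (f ω) (wj μ s N Q δ B b0 j ω t) (gg μ s Q δ B b0 ω j) ∂(Pm μ N)

variable [IsProbabilityMeasure μ] [Nonempty (Px Q)] {δ B : ℝ} {b0 j : ℕ} {t : ℝ} {γ f : Env × Finset ℕ → Px Q → ℝ} {M D : ℝ}

theorem abs_gg72 (hB : 0 ≤ B) (hBM : B ≤ 2 * M) (b j : ℕ) (ω : Env × Finset ℕ) (S : Px Q) :
    |gg μ s Q δ B b ω j S| ≤ M := (abs_gg hB b ω j S).trans (by linarith)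

theorem int_dT72 (hB : 0 ≤ B) (hBM : B ≤ 2 * M) (mγ : Measurable γ) (mf : Measurable f) (bγ : ∀ ω x, |γ ω x| ≤ M)
    (bf : ∀ ω x, |f ω x| ≤ D) (q' q : Px Q → Finset ℕ × ℕ) : Integrable (fun ω => dT72 q' q (γ ω) (gg μ s Q δ B b0 ω j) (f ω)
      (wj μ s N Q δ B b0 j ω t) (gg μ s Q δ B b0 ω j)) (Pm μ N) :=
  int_bdd (meas_dT72 q' q (meas_wj72 δ B b0 j t) (meas_gg72 δ B b0 j) mγ (meas_gg72 δ B b0 j) mf) fun ω =>
    abs_dT72_le q' q (fun x => abs_gg72 hB hBM b0 j ω x) (bγ ω) (fun x => abs_gg72 hB hBM b0 j ω x) (bf ω)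

/-- **The telescope in expectation.** -/
theorem tel_int72 (hB : 0 ≤ B) (hBM : B ≤ 2 * M) (mγ : Measurable γ) (mf : Measurable f) (bγ : ∀ ω x, |γ ω x| ≤ M)
    (bf : ∀ ω x, |f ω x| ≤ D) (q : ℕ → Px Q → Finset ℕ × ℕ) (k : ℕ) (hq : ∀ i < k, Crs (q (i + 1)) (q i))
    (hf : ∀ ω, Mp (q k) (f ω)) : TI72 μ s N Q δ B b0 j t (q k) (q 0) γ f =
      ∑ i ∈ Finset.range k, TI72 μ s N Q δ B b0 j t (q (i + 1)) (q i) γ f := by
  unfold TI72
  rw [← integral_finsetSum _ fun i _ => int_dT72 (μ := μ) (s := s) (N := N) (δ := δ) (b0 := b0) (j := j) (t := t) hB hBM mγ mf bγ bf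
    (q (i + 1)) (q i)]
  refine integral_congr_ae (Filter.Eventually.of_forall fun ω => ?_)
  exact dtel72 (γ ω) _ (f ω) _ _ q k hq (hf ω)

end Exp

/-! ### One row of one level -/

section Row

variable {μ : Measure ℝ} {s : ℝ} {N : ℕ} {Q : Finset (Finset ℕ)} [IsProbabilityMeasure μ] [SwQ Q] [Nonempty (Px Q)] {δ B : ℝ}
  {b0 j : ℕ} {t : ℝ} {γ f : Env × Finset ℕ → Px Q → ℝ} {M D : ℝ} {a0 h z z' c : ℕ}

/-- The functional at the corner: the own pair told from one path, with the factor `L`. -/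
def RX72 (μ : Measure ℝ) (s : ℝ) (N : ℕ) (Q : Finset (Finset ℕ)) [Nonempty (Px Q)] (a z z' c : ℕ) (L f : Env × Finset ℕ → Px Q → ℝ) : ℝ :=
  ∫ ω, ev (P3 (pJ 0 z')) (wm μ s N Q ω) (chi3 a z z' c (L ω) (f ω)) ∂(Pm μ N)

/-- The mean of the insertion of the slab field. -/
def IX72 (μ : Measure ℝ) (s : ℝ) (N : ℕ) (Q : Finset (Finset ℕ)) [Nonempty (Px Q)] (δ B : ℝ) (b0 j : ℕ) (t : ℝ) (a0 z z' c : ℕ) (J : Finset ℕ)
    (θ : ℕ → ℝ) (γ f : Env × Finset ℕ → Px Q → ℝ) : ℝ :=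
  ∫ ω, ins (P5 (pJ 0 z') (pJ 0 z)) (wj μ s N Q δ B b0 j ω t)
    (avC (wj μ s N Q δ B b0 j ω t) J θ (fun m => pJ 0 m) (gg μ s Q δ B b0 ω j))
    (psi5 a0 z z' c (γ ω) (gg μ s Q δ B b0 ω j) (f ω)) ∂(Pm μ N)

/-- The mean of a term with the micro factor `κ`. -/
def MX72 (μ : Measure ℝ) (s : ℝ) (N : ℕ) (Q : Finset (Finset ℕ)) (δ B : ℝ) (b0 j : ℕ) (t : ℝ) (z z' : ℕ)
    (κ b f : Env × Finset ℕ → Px Q → ℝ) : ℝ :=
  ∫ ω, fT72 (pJ 0 z') (pJ 0 z) (κ ω) (b ω) (f ω) (wj μ s N Q δ B b0 j ω t) ∂(Pm μ N)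

/-- The micro covariance. -/
def KX72 (μ : Measure ℝ) (s : ℝ) (N : ℕ) (Q : Finset (Finset ℕ)) (δ B : ℝ) (b0 j : ℕ) (t : ℝ) (m : ℕ)
    (γ : Env × Finset ℕ → Px Q → ℝ) (ω : Env × Finset ℕ) : Px Q → ℝ :=
  cC (wj μ s N Q δ B b0 j ω t) (pJ 0 m) (gg μ s Q δ B b0 ω j) (γ ω)

theorem meas_KX72 (m : ℕ) (mγ : Measurable γ) : Measurable (KX72 μ s N Q δ B b0 j t m γ) :=
  meas_cCX (pJ 0 m) (meas_wj72 δ B b0 j t) (meas_gg72 δ B b0 j) mγ

theorem abs_KX72 (hB : 0 ≤ B) (hBM : B ≤ 2 * M) (bγ : ∀ ω x, |γ ω x| ≤ M) (m : ℕ) (ω : Env × Finset ℕ) (S : Px Q) :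
    |KX72 μ s N Q δ B b0 j t m γ ω S| ≤ 2 * M ^ 2 :=
  (abs_cC_le_X _ _ (fun x => abs_gg72 hB hBM b0 j ω x) (bγ ω) S).trans (le_of_eq (by ring))

theorem Lk_KX72 (ha0 : j + b0 ≤ a0) (hγ : ∀ ω, Lk 0 a0 (γ ω)) {m : ℕ} (hm : a0 ≤ m) (hm' : m ≤ h) (ω : Env × Finset ℕ) :
    Lk 0 h (KX72 μ s N Q δ B b0 j t m γ ω) :=
  Lk_mono (Nat.zero_le _) hm' (markov_cC (HdAll_wj72 δ B ha0 ω t m m hm le_rfl)
    (Lk_mono le_rfl hm (Lk_gg (Q := Q) δ B b0 j ω (Nat.zero_le _) ha0)) (Lk_mono le_rfl hm (hγ ω)))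

/-- **The slab step of a row in expectation, exact.** -/
theorem TI72_slab (hB : 0 ≤ B) (hBM : B ≤ 2 * M) (ha0 : j + b0 ≤ a0) (haz : a0 ≤ z) (hzz : z ≤ z') (hzc : z' ≤ c)
    (mγ : Measurable γ) (hγ : ∀ ω, Lk 0 a0 (γ ω)) (bγ : ∀ ω x, |γ ω x| ≤ M) (mf : Measurable f) (hf : ∀ ω, Rk c (f ω))
    (bf : ∀ ω x, |f ω x| ≤ D) {J : Finset ℕ} {θ : ℕ → ℝ} (hθ : ∑ m ∈ J, θ m = 1) (hJ : ∀ m ∈ J, a0 ≤ m ∧ m ≤ z) :
    TI72 μ s N Q δ B b0 j t (pJ 0 z') (pJ 0 z) γ f = IX72 μ s N Q δ B b0 j t a0 z z' c J θ γ f +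
      ∑ m ∈ J, θ m * (MX72 μ s N Q δ B b0 j t z z' (KX72 μ s N Q δ B b0 j t m γ) (fun ω => gg μ s Q δ B b0 ω j) f +
        MX72 μ s N Q δ B b0 j t z z' (KX72 μ s N Q δ B b0 j t m fun ω => gg μ s Q δ B b0 ω j) γ f) := by
  have mg : Measurable fun ω => gg μ s Q δ B b0 ω j := meas_gg72 δ B b0 j
  have bg : ∀ ω x, |gg μ s Q δ B b0 ω j x| ≤ M := fun ω x => abs_gg72 hB hBM b0 j ω x
  have hg : ∀ ω, Lk 0 a0 (gg μ s Q δ B b0 ω j) := fun ω => Lk_gg (Q := Q) δ B b0 j ω (Nat.zero_le _) ha0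
  have hpt : ∀ ω, dT72 (pJ 0 z') (pJ 0 z) (γ ω) (gg μ s Q δ B b0 ω j) (f ω) (wj μ s N Q δ B b0 j ω t) (gg μ s Q δ B b0 ω j) =
      ins (P5 (pJ 0 z') (pJ 0 z)) (wj μ s N Q δ B b0 j ω t)
        (avC (wj μ s N Q δ B b0 j ω t) J θ (fun m => pJ 0 m) (gg μ s Q δ B b0 ω j))
        (psi5 a0 z z' c (γ ω) (gg μ s Q δ B b0 ω j) (f ω)) +
      ∑ m ∈ J, θ m * (fT72 (pJ 0 z') (pJ 0 z) (KX72 μ s N Q δ B b0 j t m γ ω) (gg μ s Q δ B b0 ω j) (f ω)
          (wj μ s N Q δ B b0 j ω t) +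
        fT72 (pJ 0 z') (pJ 0 z) (KX72 μ s N Q δ B b0 j t m (fun ω => gg μ s Q δ B b0 ω j) ω) (γ ω) (f ω)
          (wj μ s N Q δ B b0 j ω t)) := fun ω => by
    have hw := HdAll_wj72 (μ := μ) (s := s) (N := N) (Q := Q) δ B ha0 ω t
    rw [dT72_slab57 haz hzz hzc hw (hγ ω) (hg ω) (hf ω) hθ hJ]
    congr 1
    refine sum_congr rfl fun m hm => ?_
    rw [fT72_eq_ev haz hzz hzc hw (Lk_KX72 ha0 hγ (hJ m hm).1 (hJ m hm).2 ω) (hg ω) (hf ω),
      fT72_eq_ev haz hzz hzc hw (Lk_KX72 ha0 hg (hJ m hm).1 (hJ m hm).2 ω) (hγ ω) (hf ω)]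
    rfl
  have i0 := int_dT72 (μ := μ) (s := s) (N := N) (δ := δ) (b0 := b0) (j := j) (t := t) hB hBM mγ mf bγ bf
    (pJ (Q := Q) 0 z') (pJ 0 z)
  have i1 : ∀ m, Integrable (fun ω => fT72 (pJ 0 z') (pJ 0 z) (KX72 μ s N Q δ B b0 j t m γ ω) (gg μ s Q δ B b0 ω j) (f ω)
      (wj μ s N Q δ B b0 j ω t)) (Pm μ N) := fun m =>
    int_bdd (meas_fT72 _ _ (meas_wj72 δ B b0 j t) (meas_KX72 m mγ) mg mf) fun ω =>
      abs_fT72_triv _ _ (fun x => abs_KX72 hB hBM bγ m ω x) (bg ω) (bf ω)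
  have i2 : ∀ m, Integrable (fun ω => fT72 (pJ 0 z') (pJ 0 z) (KX72 μ s N Q δ B b0 j t m (fun ω => gg μ s Q δ B b0 ω j) ω) (γ ω)
      (f ω) (wj μ s N Q δ B b0 j ω t)) (Pm μ N) := fun m =>
    int_bdd (meas_fT72 _ _ (meas_wj72 δ B b0 j t) (meas_KX72 m mg) mγ mf) fun ω =>
      abs_fT72_triv _ _ (fun x => abs_KX72 hB hBM bg m ω x) (bγ ω) (bf ω)
  have i3 : Integrable (fun ω => ∑ m ∈ J, θ m * (fT72 (pJ 0 z') (pJ 0 z) (KX72 μ s N Q δ B b0 j t m γ ω)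
      (gg μ s Q δ B b0 ω j) (f ω) (wj μ s N Q δ B b0 j ω t) +
        fT72 (pJ 0 z') (pJ 0 z) (KX72 μ s N Q δ B b0 j t m (fun ω => gg μ s Q δ B b0 ω j) ω) (γ ω) (f ω)
          (wj μ s N Q δ B b0 j ω t))) (Pm μ N) :=
    integrable_finsetSum _ fun m _ => ((i1 m).add (i2 m)).const_mul _
  have e1 : IX72 μ s N Q δ B b0 j t a0 z z' c J θ γ f = TI72 μ s N Q δ B b0 j t (pJ 0 z') (pJ 0 z) γ f -
      ∫ ω, ∑ m ∈ J, θ m * (fT72 (pJ 0 z') (pJ 0 z) (KX72 μ s N Q δ B b0 j t m γ ω) (gg μ s Q δ B b0 ω j) (f ω)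
          (wj μ s N Q δ B b0 j ω t) +
        fT72 (pJ 0 z') (pJ 0 z) (KX72 μ s N Q δ B b0 j t m (fun ω => gg μ s Q δ B b0 ω j) ω) (γ ω) (f ω)
          (wj μ s N Q δ B b0 j ω t)) ∂(Pm μ N) := by
    refine Eq.trans ?_ (integral_sub i0 i3)
    refine integral_congr_ae (Filter.Eventually.of_forall fun ω => ?_)
    simp only [hpt ω]
    ring
  have e3 := integral_finsetSum J (μ := Pm μ N) (f := fun m ω => θ m * (fT72 (pJ 0 z') (pJ 0 z) (KX72 μ s N Q δ B b0 j t m γ ω)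
      (gg μ s Q δ B b0 ω j) (f ω) (wj μ s N Q δ B b0 j ω t) +
        fT72 (pJ 0 z') (pJ 0 z) (KX72 μ s N Q δ B b0 j t m (fun ω => gg μ s Q δ B b0 ω j) ω) (γ ω) (f ω)
          (wj μ s N Q δ B b0 j ω t))) fun m _ => ((i1 m).add (i2 m)).const_mul _
  rw [e3] at e1
  have e2 : ∀ m ∈ J, ∫ ω, θ m * (fT72 (pJ 0 z') (pJ 0 z) (KX72 μ s N Q δ B b0 j t m γ ω) (gg μ s Q δ B b0 ω j) (f ω)
          (wj μ s N Q δ B b0 j ω t) +
        fT72 (pJ 0 z') (pJ 0 z) (KX72 μ s N Q δ B b0 j t m (fun ω => gg μ s Q δ B b0 ω j) ω) (γ ω) (f ω)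
          (wj μ s N Q δ B b0 j ω t)) ∂(Pm μ N) =
      θ m * (MX72 μ s N Q δ B b0 j t z z' (KX72 μ s N Q δ B b0 j t m γ) (fun ω => gg μ s Q δ B b0 ω j) f +
        MX72 μ s N Q δ B b0 j t z z' (KX72 μ s N Q δ B b0 j t m fun ω => gg μ s Q δ B b0 ω j) γ f) := fun m _ => by
    rw [integral_const_mul, integral_add (i1 m) (i2 m)]
    rfl
  rw [sum_congr rfl e2] at e1
  linarith

variable {c0 K : ℕ} {θE ε K' : ℝ}

theorem Lk_zero72 (al be : ℕ) : Lk (Q := Q) al be 0 := fun _ _ _ => rfl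

theorem fT72_zero (q' q : Px Q → Finset ℕ × ℕ) (b f w : Px Q → ℝ) : fT72 q' q 0 b f w = 0 := by
  unfold fT72
  rw [cE_zero, cC_zero_left, gc_zero_left]

/-- **A micro term at the corner**: the pointwise bound of the factor `κ` holds on the good event `G`. -/
theorem MX72_le (hE : ∀ A, E0X μ s 3 N Q c0 K (pB (c0 + K)) θE (uj72 μ s Q δ B b0 j t A) ε K') (hc0 : j + b0 ≤ c0)
    (h1 : c0 + K ≤ h) (h2 : h ≤ z) (h3 : z ≤ z') (h4 : z' ≤ c) (hD0 : 0 ≤ D) (hf : Sp72 Q c D c0 K f)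
    (hD : 2 * D ≤ (N : ℝ) ^ K') {T T' : Env × Finset ℕ → Px Q → Prop} (hT : Rb72 Q c0 K θE T T')
    {κ b : Env × Finset ℕ → Px Q → ℝ} {a e k0 : ℝ} (ha : 0 ≤ a) (he : 0 ≤ e) (hM0 : 0 ≤ M) (mκ : Measurable κ)
    (mb : Measurable b) (hκ : ∀ ω, Lk 0 h (κ ω)) (hb : ∀ ω, Lk 0 h (b ω)) (hM : ∀ ω S, |b ω S| ≤ M)
    (hk0 : ∀ ω S, |κ ω S| ≤ k0) {G : Set (Env × Finset ℕ)} (hG : MeasurableSet G)
    (hκT : ∀ ω ∈ G, ∀ S, |κ ω S| ≤ a * ind72 T ω S + e) : |MX72 μ s N Q δ B b0 j t z z' κ b f| ≤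
      2 * M * (a * ((N : ℝ) ^ ε * (RX72 μ s N Q h z z' c (ind72 T') f + (N : ℝ) ^ (-K'))) + e * (2 * D)) +
        4 * (k0 * M * D) * (Pm μ N).real Gᶜ := by
  classical
  obtain ⟨S0⟩ := (inferInstance : Nonempty (Px Q))
  have hk : 0 ≤ k0 := (abs_nonneg _).trans (hk0 (fun _ => 0, ∅) S0)
  obtain ⟨κ', hκ'⟩ : ∃ κ' : Env × Finset ℕ → Px Q → ℝ, κ' = fun ω => if ω ∈ G then κ ω else 0 := ⟨_, rfl⟩
  have mf : Measurable f := measurable_pi_lambda _ hf.meas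
  have mκ' : Measurable κ' := by
    rw [hκ']
    exact Measurable.ite hG mκ measurable_const
  have bκ' : ∀ ω S, |κ' ω S| ≤ k0 := fun ω S => by
    rw [hκ']
    dsimp only
    split_ifs
    · exact hk0 ω S
    · rw [Pi.zero_apply, abs_zero]
      exact hk
  have lκ' : ∀ ω, Lk 0 h (κ' ω) := fun ω => by
    rw [hκ']
    dsimp only
    split_ifs
    · exact hκ ω
    · exact Lk_zero72 0 h
  have hκ2 : ∀ ω S, |κ' ω S| ≤ a * ind72 T ω S + e := fun ω S => by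
    rw [hκ']
    dsimp only
    split_ifs with h5
    · exact hκT ω h5 S
    · rw [Pi.zero_apply, abs_zero]
      exact add_nonneg (mul_nonneg ha (ind72_nonneg _ _ _)) he
  have hw : ∀ ω : Env × Finset ℕ, HdAll h (fun S => lw μ s ω.1 N Q S + uj72 μ s Q δ B b0 j t ω.2 ω.1 S) := fun ω => by
    rw [← wj_eq72 (N := N) δ B b0 j ω t]
    exact HdAll_wj72 δ B (by omega) ω t
  have key := e0_mic hE (meas_uj72 δ B b0 j t) h1 h2 h3 h4 hD0 hf hD hT ha he hM0 hw lκ' hb hM hκ2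
  have hpt : ∀ ω, |fT72 (pJ 0 z') (pJ 0 z) (κ ω) (b ω) (f ω) (wj μ s N Q δ B b0 j ω t)| ≤
      |fT72 (pJ 0 z') (pJ 0 z) (κ' ω) (b ω) (f ω) (wj μ s N Q δ B b0 j ω t)| +
        4 * (k0 * M * D) * Gᶜ.indicator (fun _ => (1 : ℝ)) ω := fun ω => by
    by_cases h5 : ω ∈ G
    · rw [Set.indicator_of_notMem (show ω ∉ Gᶜ from fun h6 => h6 h5), mul_zero, add_zero, hκ']
      simp only [if_pos h5]
      exact le_rfl
    · rw [Set.indicator_of_mem (show ω ∈ Gᶜ from h5), mul_one, hκ']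
      simp only [if_neg h5]
      rw [fT72_zero, abs_zero, zero_add]
      exact abs_fT72_triv _ _ (hk0 ω) (hM ω) (hf.bdd ω)
  have i1 : Integrable (fun ω => |fT72 (pJ 0 z') (pJ 0 z) (κ' ω) (b ω) (f ω) (wj μ s N Q δ B b0 j ω t)|) (Pm μ N) :=
    (int_bdd (meas_fT72 _ _ (meas_wj72 δ B b0 j t) mκ' mb mf) fun ω =>
      abs_fT72_triv _ _ (bκ' ω) (hM ω) (hf.bdd ω)).abs
  have i2 : Integrable (fun ω => 4 * (k0 * M * D) * Gᶜ.indicator (fun _ => (1 : ℝ)) ω) (Pm μ N) :=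
    ((integrable_const (1 : ℝ)).indicator hG.compl).const_mul _
  have h6 : |MX72 μ s N Q δ B b0 j t z z' κ b f| ≤
      ∫ ω, (|fT72 (pJ 0 z') (pJ 0 z) (κ' ω) (b ω) (f ω) (wj μ s N Q δ B b0 j ω t)| +
        4 * (k0 * M * D) * Gᶜ.indicator (fun _ => (1 : ℝ)) ω) ∂(Pm μ N) := by
    refine (abs_integral_le_integral_abs).trans ?_
    exact integral_mono_of_nonneg (Filter.Eventually.of_forall fun ω => abs_nonneg _) (i1.add i2)
      (Filter.Eventually.of_forall hpt)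
  rw [integral_add i1 i2, integral_const_mul, integral_indicator_const _ hG.compl, smul_eq_mul, mul_one] at h6
  refine h6.trans (add_le_add ?_ le_rfl)
  refine le_trans (le_of_eq ?_) key
  refine integral_congr_ae (Filter.Eventually.of_forall fun ω => ?_)
  simp only [wj_eq72]

/-- **ONE ROW OF ONE LEVEL**: main term (own pair), micro terms, the rest `F` of the box insertion. -/
theorem row72 (hE : ∀ A, E0X μ s 3 N Q c0 K (pB (c0 + K)) θE (uj72 μ s Q δ B b0 j t A) ε K') (hc0 : j + b0 ≤ c0)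
    (hK : c0 + K ≤ a0) (hah : a0 ≤ h) (hhz : h ≤ z) (hzz : z ≤ z') (hzc : z' ≤ c) (hB : 0 ≤ B) (hBM : B ≤ 2 * M)
    (hD0 : 0 ≤ D) (hf : Sp72 Q c D c0 K f) (hD : 2 * D ≤ (N : ℝ) ^ K') (mγ : Measurable γ) (hγ : ∀ ω, Lk 0 a0 (γ ω))
    (bγ : ∀ ω x, |γ ω x| ≤ M) {J : Finset ℕ} {θ : ℕ → ℝ} (hθ : ∑ m ∈ J, θ m = 1) (hθ0 : ∀ m ∈ J, 0 ≤ θ m)
    (hJ : ∀ m ∈ J, a0 ≤ m ∧ m ≤ h) {T T' : ℕ → Env × Finset ℕ → Px Q → Prop} (hT : ∀ m ∈ J, Rb72 Q c0 K θE (T m) (T' m))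
    {a e : ℝ} (ha : 0 ≤ a) (he : 0 ≤ e) {G : Set (Env × Finset ℕ)} (hG : MeasurableSet G)
    (hmic : ∀ m ∈ J, ∀ ω ∈ G, ∀ S, |KX72 μ s N Q δ B b0 j t m γ ω S| ≤ a * ind72 (T m) ω S + e)
    (hmic' : ∀ m ∈ J, ∀ ω ∈ G, ∀ S, |KX72 μ s N Q δ B b0 j t m (fun ω => gg μ s Q δ B b0 ω j) ω S| ≤
      a * ind72 (T m) ω S + e) {A1 F : ℝ} (hA1 : 0 ≤ A1)
    (hbox : |IX72 μ s N Q δ B b0 j t a0 z z' c J θ γ f| ≤
      A1 * ∫ ω, XT (wj μ s N Q δ B b0 j ω t) a0 z z' c (f ω) ∂(Pm μ N) + F) :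
    |TI72 μ s N Q δ B b0 j t (pJ 0 z') (pJ 0 z) γ f| ≤
      A1 * ((N : ℝ) ^ ε * (RX72 μ s N Q a0 z z' c (fun _ _ => 1) f + (N : ℝ) ^ (-K'))) +
      4 * M * (a * ((N : ℝ) ^ ε * (∑ m ∈ J, θ m * RX72 μ s N Q h z z' c (ind72 (T' m)) f + (N : ℝ) ^ (-K')))) +
      (F + 8 * (M * e * D) + 16 * (M ^ 3 * D) * (Pm μ N).real Gᶜ) := by
  have hM0 : 0 ≤ M := by linarith
  have mf : Measurable f := measurable_pi_lambda _ hf.meas
  have mg : Measurable fun ω => gg μ s Q δ B b0 ω j := meas_gg72 δ B b0 j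
  have bg : ∀ ω x, |gg μ s Q δ B b0 ω j x| ≤ M := fun ω x => abs_gg72 hB hBM b0 j ω x
  have ha0 : j + b0 ≤ a0 := by omega
  have hg : ∀ ω, Lk 0 a0 (gg μ s Q δ B b0 ω j) := fun ω => Lk_gg (Q := Q) δ B b0 j ω (Nat.zero_le _) ha0
  have e0 := TI72_slab (μ := μ) (s := s) (N := N) (δ := δ) (t := t) hB hBM ha0 (hah.trans hhz) hzz hzc mγ hγ bγ mf hf.rk hf.bdd hθ
    fun m hm => ⟨(hJ m hm).1, (hJ m hm).2.trans hhz⟩
  have e1 : ∫ ω, XT (wj μ s N Q δ B b0 j ω t) a0 z z' c (f ω) ∂(Pm μ N) ≤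
      (N : ℝ) ^ ε * (RX72 μ s N Q a0 z z' c (fun _ _ => 1) f + (N : ℝ) ^ (-K')) := by
    have h1 := e0_XT hE (meas_uj72 δ B b0 j t) hK (hah.trans hhz) hzz hzc hf hD
    refine le_trans (le_of_eq ?_) h1
    refine integral_congr_ae (Filter.Eventually.of_forall fun ω => ?_)
    simp only [wj_eq72]
  have e2 : ∀ m ∈ J, |MX72 μ s N Q δ B b0 j t z z' (KX72 μ s N Q δ B b0 j t m γ) (fun ω => gg μ s Q δ B b0 ω j) f| ≤
      2 * M * (a * ((N : ℝ) ^ ε * (RX72 μ s N Q h z z' c (ind72 (T' m)) f + (N : ℝ) ^ (-K'))) + e * (2 * D)) +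
        4 * (2 * M ^ 2 * M * D) * (Pm μ N).real Gᶜ := fun m hm =>
    MX72_le hE hc0 (by omega) hhz hzz hzc hD0 hf hD (hT m hm) ha he hM0 (meas_KX72 m mγ) mg
      (Lk_KX72 ha0 hγ (hJ m hm).1 (hJ m hm).2) (fun ω => Lk_mono le_rfl hah (hg ω)) bg (abs_KX72 hB hBM bγ m) hG (hmic m hm)
  have e3 : ∀ m ∈ J, |MX72 μ s N Q δ B b0 j t z z' (KX72 μ s N Q δ B b0 j t m fun ω => gg μ s Q δ B b0 ω j) γ f| ≤
      2 * M * (a * ((N : ℝ) ^ ε * (RX72 μ s N Q h z z' c (ind72 (T' m)) f + (N : ℝ) ^ (-K'))) + e * (2 * D)) +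
        4 * (2 * M ^ 2 * M * D) * (Pm μ N).real Gᶜ := fun m hm =>
    MX72_le hE hc0 (by omega) hhz hzz hzc hD0 hf hD (hT m hm) ha he hM0 (meas_KX72 m mg) mγ
      (Lk_KX72 ha0 hg (hJ m hm).1 (hJ m hm).2) (fun ω => Lk_mono le_rfl hah (hγ ω)) bγ (abs_KX72 hB hBM bg m) hG (hmic' m hm)
  have e4 : |∑ m ∈ J, θ m * (MX72 μ s N Q δ B b0 j t z z' (KX72 μ s N Q δ B b0 j t m γ) (fun ω => gg μ s Q δ B b0 ω j) f +
        MX72 μ s N Q δ B b0 j t z z' (KX72 μ s N Q δ B b0 j t m fun ω => gg μ s Q δ B b0 ω j) γ f)| ≤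
      ∑ m ∈ J, θ m * (4 * M * (a * ((N : ℝ) ^ ε * (RX72 μ s N Q h z z' c (ind72 (T' m)) f + (N : ℝ) ^ (-K')))) +
        (8 * (M * e * D) + 16 * (M ^ 3 * D) * (Pm μ N).real Gᶜ)) := by
    refine (abs_sum_le_sum_abs _ _).trans (sum_le_sum fun m hm => ?_)
    rw [abs_mul, abs_of_nonneg (hθ0 m hm)]
    refine mul_le_mul_of_nonneg_left ?_ (hθ0 m hm)
    refine (abs_add_le _ _).trans ((add_le_add (e2 m hm) (e3 m hm)).trans (le_of_eq ?_))
    ring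
  have e5 : ∑ m ∈ J, θ m * (4 * M * (a * ((N : ℝ) ^ ε * (RX72 μ s N Q h z z' c (ind72 (T' m)) f + (N : ℝ) ^ (-K')))) +
        (8 * (M * e * D) + 16 * (M ^ 3 * D) * (Pm μ N).real Gᶜ)) =
      4 * M * (a * ((N : ℝ) ^ ε * (∑ m ∈ J, θ m * RX72 μ s N Q h z z' c (ind72 (T' m)) f + (N : ℝ) ^ (-K')))) +
        (8 * (M * e * D) + 16 * (M ^ 3 * D) * (Pm μ N).real Gᶜ) := by
    have e6 : ∀ m ∈ J, θ m * (4 * M * (a * ((N : ℝ) ^ ε * (RX72 μ s N Q h z z' c (ind72 (T' m)) f + (N : ℝ) ^ (-K')))) +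
        (8 * (M * e * D) + 16 * (M ^ 3 * D) * (Pm μ N).real Gᶜ)) =
        (4 * M * a * (N : ℝ) ^ ε) * (θ m * RX72 μ s N Q h z z' c (ind72 (T' m)) f) +
          θ m * (4 * M * (a * ((N : ℝ) ^ ε * (N : ℝ) ^ (-K'))) + (8 * (M * e * D) + 16 * (M ^ 3 * D) * (Pm μ N).real Gᶜ)) :=
      fun m _ => by ring
    rw [sum_congr rfl e6, sum_add_distrib, ← mul_sum, ← sum_mul, hθ, one_mul]
    ring
  rw [e0]
  refine (abs_add_le _ _).trans ((add_le_add (hbox.trans (add_le_add (mul_le_mul_of_nonneg_left e1 hA1) le_rfl))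
    (e4.trans (le_of_eq e5))).trans (le_of_eq ?_))
  ring

end Row

/-! ### The functionals told from one path -/

section One

variable {μ : Measure ℝ} {s : ℝ} {N : ℕ}

/-- The own pair told from one path, with the factor `L`. -/
def UQ72 (μ : Measure ℝ) (s : ℝ) (N : ℕ) (a z z' : ℕ) (L : Fam N) : Fam N := fun y ω S =>
  L y ω S * cE (wm μ s N (Pn N y) ω) (pJ 0 z') (NI a z S) S

/-- The outer indicator. -/
def NN72 (N zt c : ℕ) : T93.Fam2 N := fun _ _ S S' => NI zt c S S'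

theorem NN72_nonneg (zt c : ℕ) (y : ℕ) (ω : Env × Finset ℕ) (x z : Px (Pn N y)) : 0 ≤ NN72 N zt c y ω x z := by
  unfold NN72 NI
  split_ifs <;> norm_num

theorem NN72_le_one (zt c : ℕ) (y : ℕ) (ω : Env × Finset ℕ) (x z : Px (Pn N y)) : NN72 N zt c y ω x z ≤ 1 := by
  unfold NN72 NI
  split_ifs <;> norm_num

theorem NN72_symm (zt c : ℕ) (y : ℕ) (ω : Env × Finset ℕ) (x z : Px (Pn N y)) : NN72 N zt c y ω x z = NN72 N zt c y ω z x := by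
  unfold NN72 NI
  have e : (∀ k, zt ≤ k → k ≤ c → ps x k ≠ ps z k) ↔ ∀ k, zt ≤ k → k ≤ c → ps z k ≠ ps x k :=
    ⟨fun h k h1 h2 => (h k h1 h2).symm, fun h k h1 h2 => (h k h1 h2).symm⟩
  by_cases h : ∀ k, zt ≤ k → k ≤ c → ps x k ≠ ps z k
  · rw [if_pos h, if_pos (e.1 h)]
  · rw [if_neg h, if_neg fun h' => h (e.2 h')]

section Q

variable {Q : Finset (Finset ℕ)} [SwQ Q] [Nonempty (Px Q)]

theorem meas_PP72 {K : Env × Finset ℕ → Px Q → Px Q → ℝ} (hK : ∀ x z, Measurable fun ω => K ω x z) :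
    Measurable fun ω => PP (wm μ s N Q ω) (K ω) := by
  have h : Measurable fun ω => gm (wm μ s N Q ω) fun S => gm (wm μ s N Q ω) (K ω S) :=
    meas_gm meas_wm fun y => meas_gm meas_wm fun z => hK y z
  refine (congrArg Measurable (funext fun ω => ?_)).mp h
  exact gm_gm_eq_PP _ _

theorem abs_PP_bd72 (w : Px Q → ℝ) {K : Px Q → Px Q → ℝ} {C : ℝ} (h : ∀ x z, |K x z| ≤ C) : |PP w K| ≤ C := by
  refine (abs_PP_le72 w (R := fun _ _ => C) h).trans (le_of_eq ?_)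
  rw [← gm_gm_eq_PP, gm_const, gm_const]

theorem meas_cEN72 (z' a z : ℕ) (S : Px Q) : Measurable fun ω => cE (wm μ s N Q ω) (pJ 0 z') (NI a z S) S :=
  meas_cE (f := fun _ => NI a z S) meas_wm (fun _ => measurable_const) _ S

theorem cEN_nonneg72 (w : Px Q → ℝ) (z' a z : ℕ) (S : Px Q) : 0 ≤ cE w (pJ 0 z') (NI a z S) S :=
  cE_nonneg w _ (fun _ => NI_nonneg _ _ _ _) S

theorem cEN_le_one72 (w : Px Q → ℝ) (z' a z : ℕ) (S : Px Q) : cE w (pJ 0 z') (NI a z S) S ≤ 1 :=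
  (cE_mono w _ (g := fun _ => (1 : ℝ)) (fun _ => NI_le_one _ _ _ _) S).trans
    (le_of_eq (congrFun (cE_of_meas w (fun _ _ _ => rfl)) S))

/-- One term: the outer indicator may be replaced by a common one. -/
theorem PP_one72 (w : Px Q → ℝ) {U f : Px Q → ℝ} (hU : ∀ S, 0 ≤ U S) {z' zt c : ℕ} (h : z' ≤ zt) :
    PP w (fun S S' => U S * (|f S - f S'| * NI z' c S S')) ≤
      1 / 2 * PP w fun x z => NI zt c x z * (U x + U z) * |f x - f z| := by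
  have hs : ∀ S S' : Px Q, NI zt c S S' = NI zt c S' S := fun S S' => by
    unfold NI
    have e : (∀ k, zt ≤ k → k ≤ c → ps S k ≠ ps S' k) ↔ ∀ k, zt ≤ k → k ≤ c → ps S' k ≠ ps S k :=
      ⟨fun h k h1 h2 => (h k h1 h2).symm, fun h k h1 h2 => (h k h1 h2).symm⟩
    by_cases h : ∀ k, zt ≤ k → k ≤ c → ps S k ≠ ps S' k
    · rw [if_pos h, if_pos (e.1 h)]
    · rw [if_neg h, if_neg fun h' => h (e.2 h')]
  have e1 : PP w (fun x z => NI zt c x z * (U x + U z) * |f x - f z|) =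
      PP w (fun S S' => U S * (|f S - f S'| * NI zt c S S')) + PP w fun S S' => U S' * (|f S' - f S| * NI zt c S' S) := by
    rw [← PP_add]
    congr 1
    funext S S'
    rw [hs S' S, abs_sub_comm (f S') (f S)]
    ring
  rw [e1, PP_symm w fun S S' => U S * (|f S - f S'| * NI zt c S S')]
  have e2 : PP w (fun S S' => U S * (|f S - f S'| * NI z' c S S')) ≤ PP w fun S S' => U S * (|f S - f S'| * NI zt c S S') :=
    PP_mono72 w fun S S' => mul_le_mul_of_nonneg_left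
      (mul_le_mul_of_nonneg_left (NI_mono h le_rfl S S') (abs_nonneg _)) (hU S)
  linarith

end Q

variable [IsProbabilityMeasure μ] {a z0 z' zt c : ℕ} {L f : Fam N} {D : ℝ} {y : ℕ}

theorem UQ72_nonneg (hL : ∀ y ω S, 0 ≤ L y ω S) (hy : y ≤ N) (ω : Env × Finset ℕ) (S : Px (Pn N y)) :
    0 ≤ UQ72 μ s N a z0 z' L y ω S := by
  have := ne_Pn hy
  exact mul_nonneg (hL y ω S) (cEN_nonneg72 _ _ _ _ S)

theorem UQ72_le_one (hL : ∀ y ω S, 0 ≤ L y ω S) (hL1 : ∀ y ω S, L y ω S ≤ 1) (hy : y ≤ N) (ω : Env × Finset ℕ)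
    (S : Px (Pn N y)) : UQ72 μ s N a z0 z' L y ω S ≤ 1 := by
  have := ne_Pn hy
  calc UQ72 μ s N a z0 z' L y ω S ≤ 1 * 1 := mul_le_mul (hL1 y ω S) (cEN_le_one72 _ _ _ _ S) (cEN_nonneg72 _ _ _ _ S) zero_le_one
    _ = 1 := one_mul 1

theorem meas_UQ72 (mL : ∀ y S, Measurable fun ω => L y ω S) (hy : y ≤ N) (S : Px (Pn N y)) :
    Measurable fun ω => UQ72 μ s N a z0 z' L y ω S := by
  have := ne_Pn hy
  exact (mL y S).mul (meas_cEN72 _ _ _ S)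

/-- The functional of `row72` in the shape of `grp93`. -/
theorem RX72_le (hL : ∀ y ω S, 0 ≤ L y ω S) (hL1 : ∀ y ω S, L y ω S ≤ 1) (mL : ∀ y S, Measurable fun ω => L y ω S)
    (mf : ∀ y S, Measurable fun ω => f y ω S) (bf : ∀ y ω S, |f y ω S| ≤ D) (hy : y ≤ N) [Nonempty (Px (Pn N y))]
    (h : z' ≤ zt) : RX72 μ s N (Pn N y) a z0 z' c (L y) (f y) ≤
      1 / 2 * T93.rw2 μ s N (NN72 N zt c) (UQ72 μ s N a z0 z' L) f y := by
  unfold RX72 T93.rw2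
  rw [← integral_const_mul]
  have m0 : ∀ S, Measurable fun ω => UQ72 μ s N a z0 z' L y ω S := fun S => meas_UQ72 mL hy S
  have b0 : ∀ ω S, |UQ72 μ s N a z0 z' L y ω S| ≤ 1 := fun ω S => by
    rw [abs_of_nonneg (UQ72_nonneg hL hy ω S)]
    exact UQ72_le_one hL hL1 hy ω S
  have hpt : ∀ ω, ev (P3 (pJ 0 z')) (wm μ s N (Pn N y) ω) (chi3 a z0 z' c (L y ω) (f y ω)) =
      PP (wm μ s N (Pn N y) ω) fun S S' => UQ72 μ s N a z0 z' L y ω S * (|f y ω S - f y ω S'| * NI z' c S S') := fun ω =>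
    ev_chi3 _ _ _ _ _ _ _
  have bd : ∀ (ω : Env × Finset ℕ) (x z : Px (Pn N y)), |f y ω x - f y ω z| ≤ 2 * D := fun ω x z =>
    (abs_sub _ _).trans (by linarith [bf y ω x, bf y ω z])
  have i1 : Integrable (fun ω => ev (P3 (pJ 0 z')) (wm μ s N (Pn N y) ω) (chi3 a z0 z' c (L y ω) (f y ω))) (Pm μ N) := by
    refine (integrable_congr (Filter.Eventually.of_forall hpt)).2 ?_
    refine int_bdd (M := 1 * (2 * D * 1)) (meas_PP72 fun S S' => (m0 S).mul ((((mf y S).sub (mf y S')).abs).mul_const _))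
      fun ω => abs_PP_bd72 _ fun S S' => ?_
    rw [abs_mul, abs_mul, abs_abs, abs_of_nonneg (NI_nonneg z' c S S')]
    have hD : 0 ≤ 2 * D := (abs_nonneg _).trans (bd ω S S')
    exact mul_le_mul (b0 ω S) (mul_le_mul (bd ω S S') (NI_le_one _ _ _ _) (NI_nonneg _ _ _ _) hD)
      (mul_nonneg (abs_nonneg _) (NI_nonneg _ _ _ _)) zero_le_one
  have b1 : ∀ ω (x z : Px (Pn N y)), |(NN72 N zt c y ω x z *
      (UQ72 μ s N a z0 z' L y ω x + UQ72 μ s N a z0 z' L y ω z) * |f y ω x - f y ω z|)| ≤ 1 * 2 * (2 * D) := fun ω x z => by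
    rw [abs_mul, abs_mul, abs_abs, abs_of_nonneg (NN72_nonneg zt c y ω x z)]
    have hD : 0 ≤ 2 * D := (abs_nonneg _).trans (bd ω x z)
    refine mul_le_mul (mul_le_mul (NN72_le_one _ _ _ _ _ _) ?_ (abs_nonneg _) zero_le_one) (bd ω x z) (abs_nonneg _)
      (by norm_num)
    refine (abs_add_le _ _).trans ?_
    linarith [b0 ω x, b0 ω z]
  have i2 : Integrable (fun ω => 1 / 2 * PP (wm μ s N (Pn N y) ω) fun x z => NN72 N zt c y ω x z *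
      (UQ72 μ s N a z0 z' L y ω x + UQ72 μ s N a z0 z' L y ω z) * |f y ω x - f y ω z|) (Pm μ N) :=
    (int_bdd (meas_PP72 fun x z => (measurable_const.mul ((m0 x).add (m0 z))).mul (((mf y x).sub (mf y z)).abs))
      fun ω => abs_PP_bd72 _ (b1 ω)).const_mul _
  refine integral_mono i1 i2 fun ω => ?_
  rw [hpt ω]
  exact PP_one72 _ (fun S => UQ72_nonneg hL hy ω S) h

end One

/-! ### One level -/

section Lev

variable {μ : Measure ℝ} {s : ℝ} {N : ℕ} [IsProbabilityMeasure μ]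

/-- The constant factor. -/
def one72 (N : ℕ) : Fam N := fun _ _ _ => 1

/-- **The group bound for own pairs told from one path.** -/
theorem grp72 {ys S : Finset ℕ} (hys : ∀ y ∈ ys, y ≤ N) {cb r : ℕ} (hS : ∀ j ∈ S, cb ≤ j ∧ j < cb + r) {a z z' : ℕ → ℕ}
    {zt c : ℕ} {L : ℕ → Fam N} (hL0 : ∀ j y ω S, 0 ≤ L j y ω S) (hL1 : ∀ j y ω S, L j y ω S ≤ 1)
    (mL : ∀ j y S, Measurable fun ω => L j y ω S) {f : Fam N} {D : ℝ} (mf : ∀ y S, Measurable fun ω => f y ω S)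
    (bf : ∀ y ω S, |f y ω S| ≤ D) {φ : ℕ → ℝ} (hφ : ∀ D, 0 ≤ φ D)
    (hp : ∀ j ∈ S, ∀ k ∈ S, avy ys (T93.pr2 μ s N (NN72 N zt c) (UQ72 μ s N (a j) (z j) (z' j) (L j))
      (UQ72 μ s N (a k) (z k) (z' k) (L k))) ≤ φ (T93.rdist j k)) :
    ∑ j ∈ S, avy ys (T93.rw2 μ s N (NN72 N zt c) (UQ72 μ s N (a j) (z j) (z' j) (L j)) f) ≤
      Real.sqrt (8 * S.card * ∑ D ∈ range r, φ D) * Real.sqrt (2 * avy ys (varF μ s N f)) := by
  classical
  -- the functionals, put to zero for the ends which do not occur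
  obtain ⟨U, hU⟩ : ∃ U : ℕ → Fam N, U = fun j y ω S => if y ≤ N then UQ72 μ s N (a j) (z j) (z' j) (L j) y ω S else 0 := ⟨_, rfl⟩
  have hUy : ∀ j, ∀ y, y ≤ N → U j y = UQ72 μ s N (a j) (z j) (z' j) (L j) y := fun j y hy => by
    rw [hU]
    funext ω S
    exact if_pos hy
  have U0 : ∀ j y ω S, 0 ≤ U j y ω S := fun j y ω S => by
    rw [hU]
    dsimp only
    split_ifs with hy
    · exact UQ72_nonneg (hL0 j) hy ω S
    · exact le_rfl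
  have U1 : ∀ j y ω S, U j y ω S ≤ 1 := fun j y ω S => by
    rw [hU]
    dsimp only
    split_ifs with hy
    · exact UQ72_le_one (hL0 j) (hL1 j) hy ω S
    · exact zero_le_one
  have mU : ∀ j y S, Measurable fun ω => U j y ω S := fun j y S => by
    rw [hU]
    dsimp only
    split_ifs with hy
    · exact meas_UQ72 (mL j) hy S
    · exact measurable_const
  have key := T93.grp93 (μ := μ) (s := s) (N := N) (Nn := NN72 N zt c) (U := U) (f := f) hys hS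
    (fun y => NN72_nonneg zt c y) (fun y => NN72_le_one zt c y) (fun y => NN72_symm zt c y) (fun j _ => U0 j)
    (fun y hy j _ k _ => by
      have := ne_Pn (hys y hy)
      refine int_bdd (M := 1) (meas_PP72 fun x z => measurable_const.mul ((mU j y x).mul (mU k y x))) fun ω =>
        abs_PP_bd72 _ fun x z => ?_
      rw [abs_of_nonneg (mul_nonneg (NN72_nonneg zt c y ω x z) (mul_nonneg (U0 j y ω x) (U0 k y ω x)))]
      calc NN72 N zt c y ω x z * (U j y ω x * U k y ω x) ≤ 1 * (1 * 1) :=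
            mul_le_mul (NN72_le_one _ _ _ _ _ _) (mul_le_mul (U1 j y ω x) (U1 k y ω x) (U0 k y ω x) zero_le_one)
              (mul_nonneg (U0 j y ω x) (U0 k y ω x)) zero_le_one
        _ = 1 := by norm_num)
    (fun y hy j _ => by
      have := ne_Pn (hys y hy)
      refine int_bdd (M := 1 * 2 * (2 * D)) (meas_PP72 fun x z => (measurable_const.mul ((mU j y x).add (mU j y z))).mul
        (((mf y x).sub (mf y z)).abs)) fun ω => abs_PP_bd72 _ fun x z => ?_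
      have bd : |f y ω x - f y ω z| ≤ 2 * D := (abs_sub _ _).trans (by linarith [bf y ω x, bf y ω z])
      rw [abs_mul, abs_mul, abs_abs, abs_of_nonneg (NN72_nonneg zt c y ω x z),
        abs_of_nonneg (add_nonneg (U0 j y ω x) (U0 j y ω z))]
      refine mul_le_mul (mul_le_mul (NN72_le_one _ _ _ _ _ _) ?_ (add_nonneg (U0 j y ω x) (U0 j y ω z)) zero_le_one) bd
        (abs_nonneg _) (by norm_num)
      linarith [U1 j y ω x, U1 j y ω z])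
    (fun y hy => by
      have := ne_Pn (hys y hy)
      exact int_bdd (meas_gv meas_wm fun S => mf y S) fun ω => abs_gv_le _ (bf y ω)) hφ
    (fun j hj k hk => by
      refine le_trans (le_of_eq ?_) (hp j hj k hk)
      unfold avy T93.pr2
      congr 1
      refine sum_congr rfl fun y hy => ?_
      rw [hUy j y (hys y hy), hUy k y (hys y hy)])
  refine le_trans (le_of_eq ?_) key
  refine sum_congr rfl fun j _ => ?_
  unfold avy T93.rw2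
  congr 1
  refine sum_congr rfl fun y hy => ?_
  rw [hUy j y (hys y hy)]

/-- **ONE LEVEL**: the row bounds (`row72` and `RX72_le`) and the prices give the bound of the level. -/
theorem lev72 {ys S : Finset ℕ} (hys0 : ys.Nonempty) (hys : ∀ y ∈ ys, y ≤ N) {cb r : ℕ} (hS : ∀ j ∈ S, cb ≤ j ∧ j < cb + r)
    {a0 h z z' : ℕ → ℕ} {zt c n : ℕ} {L : ℕ → ℕ → Fam N} (hL0 : ∀ m j y ω S, 0 ≤ L m j y ω S)
    (hL1 : ∀ m j y ω S, L m j y ω S ≤ 1) (mL : ∀ m j y S, Measurable fun ω => L m j y ω S) {f : Fam N} {D : ℝ}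
    (mf : ∀ y S, Measurable fun ω => f y ω S) (bf : ∀ y ω S, |f y ω S| ≤ D) {ι : Type*} {I : Finset ι} {aF : ι → ℝ}
    {RF : ι → ℕ → ℕ → ℝ} {GF : ι → ℝ} {α β e : ℝ} (hα : 0 ≤ α) (hβ : 0 ≤ β) (haF : ∀ i ∈ I, 0 ≤ aF i) {T : ℕ → ℕ → ℝ}
    (hrow : ∀ j ∈ S, ∀ y ∈ ys, |T j y| ≤
      α * T93.rw2 μ s N (NN72 N zt c) (UQ72 μ s N (a0 j) (z j) (z' j) (one72 N)) f y +
      β * ((n : ℝ)⁻¹ * ∑ m ∈ range n, T93.rw2 μ s N (NN72 N zt c) (UQ72 μ s N (h j) (z j) (z' j) (L m j)) f y) +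
      ∑ i ∈ I, aF i * RF i j y + e)
    {φ0 φ1 : ℕ → ℝ} (hφ0 : ∀ D, 0 ≤ φ0 D) (hφ1 : ∀ D, 0 ≤ φ1 D)
    (hp0 : ∀ j ∈ S, ∀ k ∈ S, avy ys (T93.pr2 μ s N (NN72 N zt c) (UQ72 μ s N (a0 j) (z j) (z' j) (one72 N))
      (UQ72 μ s N (a0 k) (z k) (z' k) (one72 N))) ≤ φ0 (T93.rdist j k))
    (hp1 : ∀ m ∈ range n, ∀ j ∈ S, ∀ k ∈ S, avy ys (T93.pr2 μ s N (NN72 N zt c) (UQ72 μ s N (h j) (z j) (z' j) (L m j))
      (UQ72 μ s N (h k) (z k) (z' k) (L m k))) ≤ φ1 (T93.rdist j k))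
    (hF : ∀ i ∈ I, ∑ j ∈ S, avy ys (RF i j) ≤ GF i) :
    |∑ j ∈ S, avy ys (T j)| ≤ (α * Real.sqrt (8 * S.card * ∑ D ∈ range r, φ0 D) +
      β * Real.sqrt (8 * S.card * ∑ D ∈ range r, φ1 D)) * Real.sqrt (2 * avy ys (varF μ s N f)) +
      ∑ i ∈ I, aF i * GF i + S.card * e := by
  have g0 := grp72 (μ := μ) (s := s) hys hS (a := a0) (z := z) (z' := z') (zt := zt) (c := c) (L := fun _ => one72 N)
    (fun _ _ _ _ => zero_le_one) (fun _ _ _ _ => le_rfl) (fun _ _ _ => measurable_const) mf bf hφ0 hp0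
  have g1 : ∀ m ∈ range n, ∑ j ∈ S, avy ys (T93.rw2 μ s N (NN72 N zt c) (UQ72 μ s N (h j) (z j) (z' j) (L m j)) f) ≤
      Real.sqrt (8 * S.card * ∑ D ∈ range r, φ1 D) * Real.sqrt (2 * avy ys (varF μ s N f)) := fun m hm =>
    grp72 (μ := μ) (s := s) hys hS (a := h) (z := z) (z' := z') (zt := zt) (c := c) (L := L m) (hL0 m) (hL1 m) (mL m) mf bf hφ1
      (hp1 m hm)
  -- the index set
  obtain ⟨av, hav⟩ : ∃ av : Option ℕ ⊕ ι → ℝ, av = Sum.elim (fun o => o.elim α fun _ => β * (n : ℝ)⁻¹) aF := ⟨_, rfl⟩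
  obtain ⟨Rv, hRv⟩ : ∃ Rv : Option ℕ ⊕ ι → ℕ → ℕ → ℝ, Rv = Sum.elim (fun o => o.elim
      (fun j y => T93.rw2 μ s N (NN72 N zt c) (UQ72 μ s N (a0 j) (z j) (z' j) (one72 N)) f y)
      fun m j y => T93.rw2 μ s N (NN72 N zt c) (UQ72 μ s N (h j) (z j) (z' j) (L m j)) f y) RF := ⟨_, rfl⟩
  obtain ⟨Gv, hGv⟩ : ∃ Gv : Option ℕ ⊕ ι → ℝ, Gv = Sum.elim (fun o => o.elim
      (Real.sqrt (8 * S.card * ∑ D ∈ range r, φ0 D) * Real.sqrt (2 * avy ys (varF μ s N f)))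
      fun _ => Real.sqrt (8 * S.card * ∑ D ∈ range r, φ1 D) * Real.sqrt (2 * avy ys (varF μ s N f))) GF := ⟨_, rfl⟩
  have sumI : ∀ F : Option ℕ ⊕ ι → ℝ, ∑ i ∈ (insertNone (range n)).disjSum I, F i =
      F (Sum.inl none) + ∑ m ∈ range n, F (Sum.inl (some m)) + ∑ i ∈ I, F (Sum.inr i) := fun F => by
    rw [sum_disjSum, Finset.sum_insertNone]
  have key := T93.grp_steps (S := S) hys0 ((insertNone (range n)).disjSum I) (T := T) (a := av) (R := Rv) (e := e)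
    (fun j hj y hy => by
      refine (hrow j hj y hy).trans (le_of_eq ?_)
      rw [sumI, hav, hRv]
      simp only [Sum.elim_inl, Sum.elim_inr, Option.elim_none, Option.elim_some]
      rw [← mul_sum, mul_assoc]) (G := Gv)
    (fun i hi => by
      rw [hav]
      rcases i with (_ | m) | i
      · exact hα
      · exact mul_nonneg hβ (by positivity)
      · exact haF i (Finset.inr_mem_disjSum.1 hi))
    (fun i hi => by
      rw [hRv, hGv]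
      rcases i with (_ | m) | i
      · exact g0
      · exact g1 m (by simpa using hi)
      · exact hF i (Finset.inr_mem_disjSum.1 hi))
  refine key.trans ?_
  rw [sumI, hav, hGv]
  simp only [Sum.elim_inl, Sum.elim_inr, Option.elim_none, Option.elim_some, sum_const, card_range, nsmul_eq_mul]
  have hn : (n : ℝ) * (β * (n : ℝ)⁻¹ * (Real.sqrt (8 * S.card * ∑ D ∈ range r, φ1 D) *
      Real.sqrt (2 * avy ys (varF μ s N f)))) ≤ β * (Real.sqrt (8 * S.card * ∑ D ∈ range r, φ1 D) *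
      Real.sqrt (2 * avy ys (varF μ s N f))) := by
    rcases Nat.eq_zero_or_pos n with rfl | h0
    · rw [Nat.cast_zero, zero_mul]
      positivity
    · have h1 : (n : ℝ) ≠ 0 := by positivity
      refine le_of_eq ?_
      field_simp
  nlinarith [hn]

end Lev

end

end Pool.Agent.W_7d29a1_C0.T72
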