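import Pool.Agent.W_7d29a1_C0.FarU57
import Pool.Agent.W_7d29a1_C0.BentT57
import Pool.Agent.W_7d29a1_C0.E1M82
import Pool.Agent.W_7d29a1_C0.CrAsm44
import Pool.Agent.W_7d29a1_C0.FarB34
import Pool.Agent.W_7d29a1_C0.TT72

/-!
CURV0 (MP_7d29a1_pr), leaf (T), THE MODEL LINK (helper72): the box insertion `ins_T57` (helper57) at the weights `wj` of a kicked row, for
the exact response `ge` and the kick `gg b0`, over the environment and the signs (`box72`); the far functional at the corner (`e0_FV72`);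
`sp72_of_cls`: a spectator of the contract; `rowM72`: ONE ROW OF ONE LEVEL in the model.
-/

set_option autoImplicit false
set_option linter.unusedSectionVars false
set_option linter.unusedVariables false

namespace Pool.Agent.W_7d29a1_C0.T72

open Finset MeasureTheory
open Pool.Agent.W_7d29a1_C0 Pool.Agent.W_7d29a1_C0.Mod92 Pool.Agent.W_7d29a1_C0.Swap57 Pool.Agent.W_7d29a1_C0.NM82
open Pool.Agent.W_7d29a1_C0.CutT57 Pool.Agent.W_7d29a1_C0.Base5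
open Pool.Agent.W_7d29a1_F Pool.Agent.W_7d29a1_X
open Pool.Agent.W_7d29a1_C0.Blk18 (Full full_Pn)
open Pool.Agent.W_7d29a1_C0.FP63 (WF Rd gf tf wf_gf wf_tf at2 lA lA_tf at2_gf at2_meas cf)
open Pool.Agent.W_7d29a1_C0.H32
open Pool.Agent.W_7d29a1_C0.E1M82 (xf wf_xf gb_eq AvA Gd AvA_add AvA_mul AvA_const abs_AvA_le)
open Pool.Agent.W_7d29a1_C0.InT57 (CF CF_eq FV57 FV57_eq psi6 psi6_nonneg bnt57 ins_T57 QA57 df57 ds57 ds57_nonneg ds57_le_one df57_nonneg)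
open Pool.Agent.W_7d29a1_C0.CrA44 (ge)
open Pool.W7d29a1.C0 Pool.W7d29a1.C0.VT31 Pool.W7d29a1.C0.T72
open Pool.W7d29a1.C0.H41 (tail1)
open Pool.W7d29a1.C0.H7 (E0X Marg Sat meas_evP)
open Pool.W7d29a1.C0.H27 (pB slb mem_slb)
open Pool.W7d29a1.C0.I52 (Plan ev ins ev_mono ev_nonneg ev_smul ev_add ev_congr gm_eq_av)

noncomputable section

/-! ### The spectators -/

section Spec

variable {N : ℕ}

/-- A spectator of the contract. -/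
theorem sp72_of_cls {c d : ℕ} {D : ℝ} {f : Fam N} (h : Cls59 N c d D f) {c0 K m : ℕ} (hm : m ≤ d) (hK : c0 + K ≤ d) (y : ℕ) :
    Sp72 (Pn N y) m D c0 K (f y) where
  meas S := h.meas y S
  bdd ω S := h.bdd y ω S
  rk ω := Pool.Agent.W_7d29a1_C0.E1M82.rk_cls h hm y ω
  blind A η ζ hζ := by
    have h1 := Pool.Agent.W_7d29a1_C0.Far34.blind_of_upd (fun η => f y (η, A)) (slb c0 K) (fun q hq η u => by
      obtain ⟨⟨h2, h3⟩, -⟩ := mem_slb.1 hq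
      funext S
      exact h.env y η A S q.1 q.2 u (by omega) (by omega)) η ζ hζ
    exact h1.symm

end Spec

/-! ### The exact response -/

section Resp

variable {μ : Measure ℝ} {s : ℝ} {N : ℕ} {y : ℕ} [Nonempty (Px (Pn N y))] {δ B : ℝ} {b0 b j : ℕ}

theorem ge_at2 (hB : 0 ≤ B) (hb : b0 ≤ b) (hj : j + b ≤ N) (η : Env) (A : Finset ℕ) :
    ge μ s N (Pn N y) δ B b0 b (η, A) j = at2 (xf μ s δ B b0 b j (sg A j)) η :=
  funext fun S => gb_eq (full_Pn N y) hB δ hb hj (η, A) S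

theorem meas_ge72 (δ B : ℝ) (b0 b j : ℕ) : Measurable fun ω => ge μ s N (Pn N y) δ B b0 b ω j :=
  meas_gb81 (pW b j) (Pool.Agent.W_7d29a1_C0.CrA44.mW δ B b0 j) (meas_gg72 δ B b0 j)

theorem abs_ge72 (hB : 0 ≤ B) (ω : Env × Finset ℕ) (S : Px (Pn N y)) : |ge μ s N (Pn N y) δ B b0 b ω j S| ≤ B / 2 :=
  abs_gb81_le _ _ (fun x => abs_gg hB b0 ω j x) S

theorem Lk_ge72 (hB : 0 ≤ B) (hb : b0 ≤ b) (hj : j + b ≤ N) {a0 : ℕ} (ha : j + b ≤ a0) (ω : Env × Finset ℕ) :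
    Lk 0 a0 (ge μ s N (Pn N y) δ B b0 b ω j) := by
  obtain ⟨η, A⟩ := ω
  rw [ge_at2 hB hb hj η A]
  intro S S' h
  exact (wf_xf (μ := μ) (s := s) hB δ hb j (abs_sg A j).le).rd η _ _ fun r _ hr => h r (Nat.zero_le r) (hr.trans ha)

end Resp

/-! ### The box insertion in the model -/

section Box

variable {μ : Measure ℝ} {s : ℝ} {N : ℕ} [IsProbabilityMeasure μ] {y : ℕ} [Nonempty (Px (Pn N y))] {δ B : ℝ} {b0 b j : ℕ}
  {t : ℝ} {a0 z z' c : ℕ} {cc d : ℕ} {f : Fam N} {D : ℝ} {J : Finset ℕ}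

/-- The path functional of the slab in the names of the telescope. -/
theorem CF_avC {Q : Finset (Finset ℕ)} [Nonempty (Px Q)] (hQ : Full N Q) {A G : Env → (ℕ → ℤ) → ℝ} {al be : ℕ} {D' M : ℝ}
    (hA : WF al be D' A) (hG : WF al be M G) (hab : al ≤ be) (hJ : ∀ r ∈ J, be < r ∧ r ≤ N) (η : Env) :
    CF μ s N Q A G J η = avC (lA μ s N Q A η) J (fun _ => (J.card : ℝ)⁻¹) (fun m => pJ 0 m) (at2 G η) := by
  funext S
  rw [CF_eq hQ hA hG hab hJ η S]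
  unfold avC
  rw [Finset.sum_apply, mul_sum]
  exact sum_congr rfl fun m _ => rfl

theorem gd_ev72 {Q : Finset (Finset ℕ)} [Nonempty (Px Q)] {m : ℕ} (Pl : Plan (Px Q) m) (t : ℝ)
    {Ψ : Env × Finset ℕ → (Fin m → Px Q) → ℝ} (mΨ : ∀ x, Measurable fun ω => Ψ ω x) {K : ℝ} (h0 : ∀ ω x, 0 ≤ Ψ ω x)
    (hK : ∀ ω x, Ψ ω x ≤ K) : Gd fun ω => ev Pl (wj μ s N Q δ B b0 j ω t) (Ψ ω) where
  ms A := (meas_evP (fun S => meas_wt δ B b0 j t S) Pl mΨ).comp (meas_pair A)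
  bd := ⟨K, fun ω => by
    rw [abs_of_nonneg (ev_nonneg Pl _ (h0 ω))]
    exact Pool.W7d29a1.C0.H7.ev_le_const Pl _ (hK ω)⟩

theorem meas_psi672 (R : ℝ) (hf : Cls59 N cc d D f) (x : Fin 6 → Px (Pn N y)) :
    Measurable fun ω => psi6 a0 z z' c R (f y ω) x := by
  unfold psi6 df57
  exact (((((hf.meas y _).sub (hf.meas y _)).abs.mul_const _).const_mul _).mul_const _)

theorem psi6_le72 (R : ℝ) (hf : Cls59 N cc d D f) (ω : Env × Finset ℕ) (x : Fin 6 → Px (Pn N y)) :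
    psi6 a0 z z' c R (f y ω) x ≤ 2 * D := by
  have hD : 0 ≤ D := (abs_nonneg _).trans (hf.bdd y ω (x 0))
  unfold psi6
  have h2 : NI a0 z (Fin.tail x 2) (Fin.tail x 1) * df57 z' c (f y ω) (Fin.tail x 4) (Fin.tail x 0) ≤ 1 * (2 * D) :=
    mul_le_mul (NI_le_one _ _ _ _) (Pool.Agent.W_7d29a1_C0.InT57.df57_le (hf.bdd y ω) _ _) (df57_nonneg _ _ _ _ _) zero_le_one
  calc NI a0 z (Fin.tail x 2) (Fin.tail x 1) * df57 z' c (f y ω) (Fin.tail x 4) (Fin.tail x 0) *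
        ds57 R z' (x 0) (Fin.tail x 2) (Fin.tail x 0) ≤ 1 * (2 * D) * 1 :=
        mul_le_mul h2 (ds57_le_one _ _ _ _ _) (ds57_nonneg _ _ _ _ _) (by linarith)
    _ = 2 * D := by ring

/-- **TL3 IN THE MODEL.** -/
theorem box72 {f₀ f₀' : ℝ → ℝ} (h : DenLaw μ f₀ f₀') {Kd θ0 : ℝ} (hs : SG μ (sc f₀ f₀') Kd θ0) (hB : 0 ≤ B) (hb : b0 ≤ b)
    (hj : j + b ≤ a0) (hJ : ∀ r ∈ J, a0 < r ∧ r < z) (hJ0 : J.Nonempty) (hzz : z ≤ z') (hzc : z' ≤ c) (hcd : c ≤ d)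
    (hdN : d ≤ N) (hf : Cls59 N cc d D f) {sl R : ℝ} (hR : 1 ≤ R) {m0 : ℤ} (hm0 : m0 ≤ N) {τ a : ℝ} (hτ : 0 < τ) (ha : 0 ≤ a)
    (hτM : τ * (B / 2 / J.card) ≤ θ0) {eb : ℝ} (heb : ∀ A : Finset ℕ, bnt57 μ s N (Pn N y) (tf μ s δ B b0 j (sg A j) t) J z z' sl R m0 ≤ eb) :
    |IX72 μ s N (Pn N y) δ B b0 j t a0 z z' c J (fun _ => (J.card : ℝ)⁻¹) (fun ω => ge μ s N (Pn N y) δ B b0 b ω j) (f y)| ≤
      a * (2 * (B / 2) * (B / 2) * ∫ ω, XT (wj μ s N (Pn N y) δ B b0 j ω t) a0 z z' c (f y ω) ∂(Pm μ N)) +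
      4 * (B / 2) * (B / 2) * (B / 2) * ∫ ω, FV57 (wj μ s N (Pn N y) δ B b0 j ω t) a0 z z' c R (f y ω) ∂(Pm μ N) +
      (((N + 1 : ℕ) : ℝ) ^ 5 * tail1 Kd (4 * (B / 2) ^ 2 * D) τ a (7 * (5 : ℕ) * R * (B / 2) ^ 2 / J.card) +
      68 * (B / 2) ^ 3 * D * eb) := by
  classical
  obtain ⟨S0⟩ := (inferInstance : Nonempty (Px (Pn N y)))
  have hD : 0 ≤ D := (abs_nonneg _).trans (hf.bdd y (fun _ => 0, ∅) S0)
  have hM : 0 ≤ B / 2 := by linarith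
  obtain ⟨r0, hr0⟩ := hJ0
  have hjN : j + b ≤ N := by
    have := hJ r0 hr0
    omega
  have haz : a0 ≤ z := by
    have := hJ r0 hr0
    omega
  have hrk : ∀ ω, Rk c (f y ω) := fun ω => Pool.Agent.W_7d29a1_C0.E1M82.rk_cls hf hcd y ω
  -- the three functionals
  obtain ⟨Φ, hΦ⟩ : ∃ Φ : Env × Finset ℕ → ℝ, Φ = fun ω => ins (P5 (pJ 0 z') (pJ 0 z)) (wj μ s N (Pn N y) δ B b0 j ω t)
      (avC (wj μ s N (Pn N y) δ B b0 j ω t) J (fun _ => (J.card : ℝ)⁻¹) (fun m => pJ 0 m) (gg μ s (Pn N y) δ B b0 ω j))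
      (psi5 a0 z z' c (ge μ s N (Pn N y) δ B b0 b ω j) (gg μ s (Pn N y) δ B b0 ω j) (f y ω)) := ⟨_, rfl⟩
  have hΦ2 : ∀ ω, Φ ω = dT72 (pJ 0 z') (pJ 0 z) (ge μ s N (Pn N y) δ B b0 b ω j) (gg μ s (Pn N y) δ B b0 ω j) (f y ω)
      (wj μ s N (Pn N y) δ B b0 j ω t)
      (avC (wj μ s N (Pn N y) δ B b0 j ω t) J (fun _ => (J.card : ℝ)⁻¹) (fun m => pJ 0 m) (gg μ s (Pn N y) δ B b0 ω j)) :=
    fun ω => by
      rw [hΦ]
      have hw := HdAll_wj72 (μ := μ) (s := s) (N := N) (Q := Pn N y) δ B (show j + b0 ≤ a0 by omega) ω t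
      have hg : Lk 0 a0 (gg μ s (Pn N y) δ B b0 ω j) := Lk_gg (Q := Pn N y) δ B b0 j ω (Nat.zero_le _) (by omega)
      exact (dT72_eq_ins haz hzz hzc hw (HdAll_avC hw hg (fun m hm => by have := hJ m hm; omega) a0)
        (Lk_mono le_rfl haz (Lk_ge72 hB hb hjN hj ω)) hg (hrk ω)).symm
  have bC : ∀ ω x, |avC (wj μ s N (Pn N y) δ B b0 j ω t) J (fun _ => (J.card : ℝ)⁻¹) (fun m => pJ 0 m)
      (gg μ s (Pn N y) δ B b0 ω j) x| ≤ B / 2 := fun ω x => by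
    have hc0 : (0 : ℝ) < J.card := Nat.cast_pos.2 (card_pos.2 ⟨r0, hr0⟩)
    unfold avC
    rw [Finset.sum_apply]
    refine (abs_sum_le_sum_abs _ _).trans ?_
    have h1 : ∀ m ∈ J, |((J.card : ℝ)⁻¹ • cE (wj μ s N (Pn N y) δ B b0 j ω t) (pJ 0 m) (gg μ s (Pn N y) δ B b0 ω j)) x| ≤
        (J.card : ℝ)⁻¹ * (B / 2) := fun m _ => by
      rw [Pi.smul_apply, smul_eq_mul, abs_mul, abs_of_nonneg (by positivity : (0 : ℝ) ≤ (J.card : ℝ)⁻¹)]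
      exact mul_le_mul_of_nonneg_left (abs_cE_le_X _ _ (fun x => abs_gg hB b0 ω j x) x) (by positivity)
    refine (sum_le_sum h1).trans (le_of_eq ?_)
    rw [sum_const, nsmul_eq_mul, ← mul_assoc, mul_inv_cancel₀ hc0.ne', one_mul]
  have mC : Measurable fun ω => avC (wj μ s N (Pn N y) δ B b0 j ω t) J (fun _ => (J.card : ℝ)⁻¹) (fun m => pJ 0 m)
      (gg μ s (Pn N y) δ B b0 ω j) := by
    unfold avC
    refine Finset.measurable_fun_sum _ fun m _ => measurable_pi_lambda _ fun x => ?_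
    exact ((measurable_pi_apply x).comp (meas_cEX (pJ 0 m) (meas_wj72 δ B b0 j t) (meas_gg72 δ B b0 j))).const_mul _
  have g1 : Gd Φ := by
    have e : Φ = fun ω => dT72 (pJ 0 z') (pJ 0 z) (ge μ s N (Pn N y) δ B b0 b ω j) (gg μ s (Pn N y) δ B b0 ω j) (f y ω)
      (wj μ s N (Pn N y) δ B b0 j ω t)
      (avC (wj μ s N (Pn N y) δ B b0 j ω t) J (fun _ => (J.card : ℝ)⁻¹) (fun m => pJ 0 m) (gg μ s (Pn N y) δ B b0 ω j)) :=
      funext hΦ2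
    rw [e]
    exact ⟨fun A => (meas_dT72 _ _ (meas_wj72 δ B b0 j t) mC (meas_ge72 δ B b0 b j) (meas_gg72 δ B b0 j)
      (measurable_pi_lambda _ fun S => hf.meas y S)).comp (meas_pair A),
      ⟨_, fun ω => abs_dT72_le _ _ (bC ω) (abs_ge72 hB ω) (fun x => abs_gg hB b0 ω j x) (hf.bdd y ω)⟩⟩
  have g2 : Gd fun ω => XT (wj μ s N (Pn N y) δ B b0 j ω t) a0 z z' c (f y ω) :=
    gd_ev72 (P3 (pJ 0 z')) t (meas_chi3 (L := fun _ _ => 1) (fun _ => measurable_const) (hf.meas y))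
      (fun ω x => chi3_nonneg (fun _ => zero_le_one) _ x) (K := 1 * (2 * D))
      fun ω x => chi3_le (fun _ => zero_le_one) (fun _ => le_rfl) (hf.bdd y ω) x
  have g3 : Gd fun ω => FV57 (wj μ s N (Pn N y) δ B b0 j ω t) a0 z z' c R (f y ω) := by
    have e : (fun ω => FV57 (wj μ s N (Pn N y) δ B b0 j ω t) a0 z z' c R (f y ω)) = fun ω =>
        ev ((P5 (pJ 0 z') (pJ 0 z)).sh 0) (wj μ s N (Pn N y) δ B b0 j ω t) (psi6 a0 z z' c R (f y ω)) :=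
      funext fun ω => (FV57_eq hzz hzc _ R (hrk ω)).symm
    rw [e]
    exact gd_ev72 _ t (meas_psi672 R hf) (fun ω x => psi6_nonneg R _ x) (psi6_le72 R hf)
  have e1 : IX72 μ s N (Pn N y) δ B b0 j t a0 z z' c J (fun _ => (J.card : ℝ)⁻¹)
      (fun ω => ge μ s N (Pn N y) δ B b0 b ω j) (f y) = ∫ ω, Φ ω ∂(Pm μ N) := by
    rw [hΦ]
    rfl
  rw [e1, g1.av, g2.av, g3.av]
  rw [← AvA_const (N := N) (((N + 1 : ℕ) : ℝ) ^ 5 * tail1 Kd (4 * (B / 2) ^ 2 * D) τ a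
    (7 * (5 : ℕ) * R * (B / 2) ^ 2 / J.card) + 68 * (B / 2) ^ 3 * D * eb)]
  simp only [← AvA_add, ← AvA_mul]
  refine abs_AvA_le fun A => ?_
  -- fixed signs
  have ha1 : |((sg A j : ℤ) : ℝ)| ≤ 1 := (abs_sg A j).le
  have key := ins_T57 (μ := μ) (s := s) (Q := Pn N y) (a0 := a0) (z := z) (z' := z') (c := c) (J := J) h hs
    (wf_tf (μ := μ) (s := s) hB δ b0 j ha1 t) (wf_gf (μ := μ) (s := s) hB δ b0 j ha1)
    (wf_xf (μ := μ) (s := s) hB δ hb j ha1) (by omega) hj hJ ⟨r0, hr0⟩ hzz hzc (hcd.trans hdN)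
    (f := fun η => f y (η, A)) (measurable_pi_lambda _ fun S => (hf.meas y S).comp (meas_pair A)) (fun η S => hf.bdd y (η, A) S)
    (fun η => hrk (η, A)) (fun q hq η x => by
      obtain ⟨r, hr, u, hu, rfl⟩ := Pool.Agent.W_7d29a1_C0.FP63.mem_sS.1 hq
      have h1 := hJ r hr
      funext S
      exact hf.env y η A S r u x (by omega) (by omega)) (sl := sl) hR hm0 hτ ha hτM
  have e2 : ∀ η, Φ (η, A) = ins (P5 (pJ 0 z') (pJ 0 z)) (lA μ s N (Pn N y) (tf μ s δ B b0 j (sg A j) t) η)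
      (CF μ s N (Pn N y) (tf μ s δ B b0 j (sg A j) t) (gf μ s δ B b0 j (sg A j)) J η)
      (psi5 a0 z z' c (at2 (xf μ s δ B b0 b j (sg A j)) η) (at2 (gf μ s δ B b0 j (sg A j)) η) (f y (η, A))) := fun η => by
    rw [hΦ, CF_avC (full_Pn N y) (wf_tf (μ := μ) (s := s) hB δ b0 j ha1 t) (wf_gf (μ := μ) (s := s) hB δ b0 j ha1) (by omega)
      (fun r hr => by have := hJ r hr; omega) η, ← ge_at2 hB hb hjN η A]
    rfl
  have h2 := heb A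
  have h3 : 0 ≤ 68 * (B / 2) ^ 3 * D := by positivity
  have h4 := mul_le_mul_of_nonneg_left h2 h3
  simp only [e2]
  refine key.trans ?_
  refine add_le_add le_rfl (add_le_add le_rfl h4)

end Box

/-! ### The far functional at the corner -/

section Far

variable {Q : Finset (Finset ℕ)} [SwQ Q] [Nonempty (Px Q)] {a0 z z' c : ℕ}

theorem psi6_pB {c1 : ℕ} (h1 : c1 ≤ a0) (h2 : a0 ≤ z) (h3 : z ≤ z') (h4 : z' ≤ c) (R : ℝ) {f : Px Q → ℝ} (hf : Rk c f)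
    (x x' : Fin 6 → Px Q) (h : ∀ i, pB c1 (x i) = pB c1 (x' i)) : psi6 a0 z z' c R f x = psi6 a0 z z' c R f x' := by
  have hp : ∀ i k, c1 ≤ k → ps (x i) k = ps (x' i) k := fun i k hk => ps_of_pB72 (h i) hk
  unfold psi6 df57 ds57
  have e1 : NI a0 z (Fin.tail x 2) (Fin.tail x 1) = NI a0 z (Fin.tail x' 2) (Fin.tail x' 1) :=
    NI_congr (fun k hk _ => hp 3 k (by omega)) (fun k hk _ => hp 2 k (by omega))
  have e2 : NI z' c (Fin.tail x 4) (Fin.tail x 0) = NI z' c (Fin.tail x' 4) (Fin.tail x' 0) :=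
    NI_congr (fun k hk _ => hp 5 k (by omega)) (fun k hk _ => hp 1 k (by omega))
  have e3 : f (Fin.tail x 4) = f (Fin.tail x' 4) := hf _ _ fun k hk => hp 5 k (by omega)
  have e4 : f (Fin.tail x 0) = f (Fin.tail x' 0) := hf _ _ fun k hk => hp 1 k (by omega)
  have e5 : ps (x 0) z' = ps (x' 0) z' := hp 0 z' (by omega)
  have e6 : ps (Fin.tail x 2) z' = ps (Fin.tail x' 2) z' := hp 3 z' (by omega)
  have e7 : ps (Fin.tail x 0) z' = ps (Fin.tail x' 0) z' := hp 1 z' (by omega)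
  rw [e1, e2, e3, e4, e5, e6, e7]

variable {μ : Measure ℝ} {s : ℝ} {N : ℕ} [IsProbabilityMeasure μ] {c0 K : ℕ} {θ ε K' : ℝ} {u : Finset ℕ → Env → Px Q → ℝ}

/-- **The far functional at the corner.** -/
theorem e0_FV72 (hE : ∀ A, E0X μ s 6 N Q c0 K (pB (c0 + K)) θ (u A) ε K')
    (hum : ∀ S, Measurable fun ω : Env × Finset ℕ => u ω.2 ω.1 S) (h1 : c0 + K ≤ a0) (h2 : a0 ≤ z) (h3 : z ≤ z')
    (h4 : z' ≤ c) (R : ℝ) {D : ℝ} {f : Env × Finset ℕ → Px Q → ℝ} (hf : Sp72 Q c D c0 K f) (hD : 2 * D ≤ (N : ℝ) ^ K') :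
    ∫ ω, FV57 (fun S => lw μ s ω.1 N Q S + u ω.2 ω.1 S) a0 z z' c R (f ω) ∂(Pm μ N) ≤
      (N : ℝ) ^ ε * (∫ ω, FV57 (wm μ s N Q ω) a0 z z' c R (f ω) ∂(Pm μ N) + (N : ℝ) ^ (-K')) := by
  have key := e0_planT hE (fun A S => meas_fix (hum S) A) ((marg_P5 (pJ (Q := Q) 0 z') (pJ (Q := Q) 0 z)).sh 0)
    ((sat_P5 (Q := Q) (c1 := c0 + K) (z := z) (z' := z') (by omega) (by omega)).sh 0)
    (Ψ := fun ω => psi6 a0 z z' c R (f ω)) (fun ω x => psi6_nonneg R _ x) (fun ω x => ?_) (fun x A => ?_)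
    (fun ω x x' h => psi6_pB h1 h2 h3 h4 R (hf.rk ω) x x' h) (fun A η ζ h x => ?_)
  · have e1 : ∀ w : Env × Finset ℕ → Px Q → ℝ, (fun ω => I52.ev ((P5 (pJ 0 z') (pJ 0 z)).sh 0) (w ω) (psi6 a0 z z' c R (f ω))) =
        fun ω => FV57 (w ω) a0 z z' c R (f ω) := fun w => funext fun ω => FV57_eq h3 h4 _ R (hf.rk ω)
    have e2 := congrFun (congrArg (fun g : Env × Finset ℕ → ℝ => fun _ : Unit => ∫ ω, g ω ∂(Pm μ N))
      (e1 (fun ω S => lw μ s ω.1 N Q S + u ω.2 ω.1 S))) ()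
    have e3 := congrFun (congrArg (fun g : Env × Finset ℕ → ℝ => fun _ : Unit => ∫ ω, g ω ∂(Pm μ N))
      (e1 (fun ω => wm μ s N Q ω))) ()
    rw [← e2, ← e3]
    exact key
  · have hD0 : 0 ≤ D := (abs_nonneg _).trans (hf.bdd ω (x 0))
    refine le_trans ?_ hD
    unfold psi6
    have h2 : NI a0 z (Fin.tail x 2) (Fin.tail x 1) * df57 z' c (f ω) (Fin.tail x 4) (Fin.tail x 0) ≤ 1 * (2 * D) :=
      mul_le_mul (NI_le_one _ _ _ _) (Pool.Agent.W_7d29a1_C0.InT57.df57_le (hf.bdd ω) _ _) (df57_nonneg _ _ _ _ _) zero_le_one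
    calc NI a0 z (Fin.tail x 2) (Fin.tail x 1) * df57 z' c (f ω) (Fin.tail x 4) (Fin.tail x 0) *
          ds57 R z' (x 0) (Fin.tail x 2) (Fin.tail x 0) ≤ 1 * (2 * D) * 1 :=
          mul_le_mul h2 (ds57_le_one _ _ _ _ _) (ds57_nonneg _ _ _ _ _) (by linarith)
      _ = 2 * D := by ring
  · refine meas_fix (Φ := fun ω => psi6 a0 z z' c R (f ω) x) ?_ A
    unfold psi6 df57
    exact (((((hf.meas _).sub (hf.meas _)).abs.mul_const _).const_mul _).mul_const _)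
  · show psi6 a0 z z' c R (f (η, A)) x = psi6 a0 z z' c R (f (ζ, A)) x
    rw [hf.blind A η ζ h]

end Far

/-! ### One row of one level -/

section RowM

variable {μ : Measure ℝ} {s : ℝ} {N : ℕ} [IsProbabilityMeasure μ] {y : ℕ} [Nonempty (Px (Pn N y))] {δ B : ℝ} {b0 b j : ℕ}
  {t : ℝ} {a0 h z z' c : ℕ} {cc d : ℕ} {f : Fam N} {D : ℝ} {J : Finset ℕ} {c0 K : ℕ} {θE ε K' : ℝ}

/-- **ONE ROW OF ONE LEVEL, IN THE MODEL**: the own pair, the far functional, the micro terms. -/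
theorem rowM72 {f₀ f₀' : ℝ → ℝ} (hf₀ : DenLaw μ f₀ f₀') {Kd θ0 : ℝ} (hs : SG μ (sc f₀ f₀') Kd θ0) (hB : 0 ≤ B) (hb : b0 ≤ b)
    (hE3 : ∀ A, E0X μ s 3 N (Pn N y) c0 K (pB (c0 + K)) θE (uj72 μ s (Pn N y) δ B b0 j t A) ε K')
    (hE6 : ∀ A, E0X μ s 6 N (Pn N y) c0 K (pB (c0 + K)) θE (uj72 μ s (Pn N y) δ B b0 j t A) ε K')
    (hj : j + b ≤ a0) (hK : c0 + K ≤ a0) (hJ : ∀ r ∈ J, a0 < r ∧ r ≤ h) (hJ0 : J.Nonempty) (hhz : h < z)
    (hzz : z ≤ z') (hzc : z' ≤ c) (hcd : c ≤ d) (hdN : d ≤ N) (hf : Cls59 N cc d D f) (hD0 : 0 ≤ D) (hD : 2 * D ≤ (N : ℝ) ^ K')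
    {sl R : ℝ} (hR : 1 ≤ R) {m0 : ℤ} (hm0 : m0 ≤ N) {τ a : ℝ} (hτ : 0 < τ) (ha : 0 ≤ a) (hτM : τ * (B / 2 / J.card) ≤ θ0)
    {eb : ℝ} (heb : ∀ A : Finset ℕ, bnt57 μ s N (Pn N y) (tf μ s δ B b0 j (sg A j) t) J z z' sl R m0 ≤ eb)
    {L : ℕ → Fam N} {A2 e2 : ℝ}
    (hm1 : ∀ m ∈ J, |MX72 μ s N (Pn N y) δ B b0 j t z z'
      (KX72 μ s N (Pn N y) δ B b0 j t m fun ω => ge μ s N (Pn N y) δ B b0 b ω j)
      (fun ω => gg μ s (Pn N y) δ B b0 ω j) (f y)| ≤ A2 * RX72 μ s N (Pn N y) h z z' c (L m y) (f y) + e2)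
    (hm2 : ∀ m ∈ J, |MX72 μ s N (Pn N y) δ B b0 j t z z'
      (KX72 μ s N (Pn N y) δ B b0 j t m fun ω => gg μ s (Pn N y) δ B b0 ω j)
      (fun ω => ge μ s N (Pn N y) δ B b0 b ω j) (f y)| ≤ A2 * RX72 μ s N (Pn N y) h z z' c (L m y) (f y) + e2) :
    |TI72 μ s N (Pn N y) δ B b0 j t (pJ 0 z') (pJ 0 z) (fun ω => ge μ s N (Pn N y) δ B b0 b ω j) (f y)| ≤
      a * (B ^ 2 / 2) * (N : ℝ) ^ ε * RX72 μ s N (Pn N y) a0 z z' c (fun _ _ => 1) (f y) +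
      B ^ 3 / 2 * (N : ℝ) ^ ε * ∫ ω, FV57 (wm μ s N (Pn N y) ω) a0 z z' c R (f y ω) ∂(Pm μ N) +
      2 * A2 * ((J.card : ℝ)⁻¹ * ∑ m ∈ J, RX72 μ s N (Pn N y) h z z' c (L m y) (f y)) +
      ((a * (B ^ 2 / 2) + B ^ 3 / 2) * ((N : ℝ) ^ ε * (N : ℝ) ^ (-K')) + 2 * e2 +
        (((N + 1 : ℕ) : ℝ) ^ 5 * tail1 Kd (B ^ 2 * D) τ a (7 * (5 : ℕ) * R * (B / 2) ^ 2 / J.card) +
        17 / 2 * B ^ 3 * D * eb)) := by
  classical
  have hjN : j + b ≤ N := by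
    obtain ⟨r0, hr0⟩ := hJ0
    have := hJ r0 hr0
    omega
  have haz : a0 ≤ z := by
    obtain ⟨r0, hr0⟩ := hJ0
    have := hJ r0 hr0
    omega
  have hc0d : c0 + K ≤ d := by omega
  have hc0 : (0 : ℝ) < J.card := Nat.cast_pos.2 (card_pos.2 hJ0)
  have hSp : Sp72 (Pn N y) c D c0 K (f y) := sp72_of_cls hf hcd hc0d y
  have hθ : ∑ _m ∈ J, ((J.card : ℝ))⁻¹ = 1 := by
    rw [sum_const, nsmul_eq_mul, mul_inv_cancel₀ hc0.ne']
  -- the exact slab step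
  have e0 := TI72_slab (μ := μ) (s := s) (N := N) (Q := Pn N y) (δ := δ) (B := B) (b0 := b0) (j := j) (t := t) (M := B / 2)
    (D := D) (a0 := a0) (z := z) (z' := z') (c := c) (γ := fun ω => ge μ s N (Pn N y) δ B b0 b ω j) (f := f y) hB (by linarith)
    (by omega) haz hzz hzc (meas_ge72 δ B b0 b j) (fun ω => Lk_ge72 hB hb hjN hj ω) (fun ω x => abs_ge72 hB ω x)
    (measurable_pi_lambda _ hSp.meas) hSp.rk hSp.bdd (J := J) (θ := fun _ => ((J.card : ℝ))⁻¹) hθ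
    (fun m hm => ⟨(hJ m hm).1.le, (hJ m hm).2.trans hhz.le⟩)
  -- the box insertion
  have e1 := box72 (μ := μ) (s := s) (N := N) (y := y) (δ := δ) (B := B) (b0 := b0) (b := b) (j := j) (t := t) (a0 := a0)
    (z := z) (z' := z') (c := c) (cc := cc) (d := d) (f := f) (D := D) (J := J) hf₀ hs hB hb hj
    (fun r hr => ⟨(hJ r hr).1, lt_of_le_of_lt (hJ r hr).2 hhz⟩) hJ0 hzz hzc hcd hdN hf hR hm0 hτ ha hτM heb
  -- the corner
  have e2' : ∫ ω, XT (wj μ s N (Pn N y) δ B b0 j ω t) a0 z z' c (f y ω) ∂(Pm μ N) ≤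
      (N : ℝ) ^ ε * (RX72 μ s N (Pn N y) a0 z z' c (fun _ _ => 1) (f y) + (N : ℝ) ^ (-K')) := by
    have h1 := e0_XT hE3 (meas_uj72 δ B b0 j t) hK haz hzz hzc hSp hD
    refine le_trans (le_of_eq ?_) h1
    refine integral_congr_ae (Filter.Eventually.of_forall fun ω => ?_)
    simp only [wj_eq72]
  have e3 : ∫ ω, FV57 (wj μ s N (Pn N y) δ B b0 j ω t) a0 z z' c R (f y ω) ∂(Pm μ N) ≤
      (N : ℝ) ^ ε * (∫ ω, FV57 (wm μ s N (Pn N y) ω) a0 z z' c R (f y ω) ∂(Pm μ N) + (N : ℝ) ^ (-K')) := by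
    have h1 := e0_FV72 hE6 (meas_uj72 δ B b0 j t) hK haz hzz hzc R hSp hD
    refine le_trans (le_of_eq ?_) h1
    refine integral_congr_ae (Filter.Eventually.of_forall fun ω => ?_)
    simp only [wj_eq72]
  -- the micro terms
  have e4 : |∑ m ∈ J, ((J.card : ℝ))⁻¹ * (MX72 μ s N (Pn N y) δ B b0 j t z z'
        (KX72 μ s N (Pn N y) δ B b0 j t m fun ω => ge μ s N (Pn N y) δ B b0 b ω j)
        (fun ω => gg μ s (Pn N y) δ B b0 ω j) (f y) + MX72 μ s N (Pn N y) δ B b0 j t z z'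
        (KX72 μ s N (Pn N y) δ B b0 j t m fun ω => gg μ s (Pn N y) δ B b0 ω j)
        (fun ω => ge μ s N (Pn N y) δ B b0 b ω j) (f y))| ≤
      ∑ m ∈ J, ((J.card : ℝ))⁻¹ * (2 * (A2 * RX72 μ s N (Pn N y) h z z' c (L m y) (f y) + e2)) := by
    refine (abs_sum_le_sum_abs _ _).trans (sum_le_sum fun m hm => ?_)
    rw [abs_mul, abs_of_nonneg (inv_nonneg.2 hc0.le)]
    refine mul_le_mul_of_nonneg_left ?_ (inv_nonneg.2 hc0.le)
    refine (abs_add_le _ _).trans ((add_le_add (hm1 m hm) (hm2 m hm)).trans (le_of_eq ?_))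
    ring
  have e5 : ∑ m ∈ J, ((J.card : ℝ))⁻¹ * (2 * (A2 * RX72 μ s N (Pn N y) h z z' c (L m y) (f y) + e2)) =
      2 * A2 * ((J.card : ℝ)⁻¹ * ∑ m ∈ J, RX72 μ s N (Pn N y) h z z' c (L m y) (f y)) + 2 * e2 := by
    have e6 : ∀ m ∈ J, ((J.card : ℝ))⁻¹ * (2 * (A2 * RX72 μ s N (Pn N y) h z z' c (L m y) (f y) + e2)) =
        2 * A2 * ((J.card : ℝ)⁻¹ * RX72 μ s N (Pn N y) h z z' c (L m y) (f y)) + ((J.card : ℝ))⁻¹ * (2 * e2) :=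
      fun m _ => by ring
    rw [sum_congr rfl e6, sum_add_distrib, ← mul_sum, ← mul_sum, ← sum_mul, hθ, one_mul]
  have q1 : 0 ≤ a * (2 * (B / 2) * (B / 2)) := by positivity
  have q2 : 0 ≤ 4 * (B / 2) * (B / 2) * (B / 2) := by positivity
  have r1 := mul_le_mul_of_nonneg_left e2' q1
  have r2 := mul_le_mul_of_nonneg_left e3 q2
  rw [e0]
  refine (abs_add_le _ _).trans ((add_le_add e1 (e4.trans (le_of_eq e5))).trans ?_)
  have s1 : 4 * (B / 2) ^ 2 * D = B ^ 2 * D := by ring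
  rw [s1]
  have s2 : a * (2 * (B / 2) * (B / 2) * ∫ ω, XT (wj μ s N (Pn N y) δ B b0 j ω t) a0 z z' c (f y ω) ∂(Pm μ N)) ≤
      a * (B ^ 2 / 2) * (N : ℝ) ^ ε * RX72 μ s N (Pn N y) a0 z z' c (fun _ _ => 1) (f y) +
      a * (B ^ 2 / 2) * ((N : ℝ) ^ ε * (N : ℝ) ^ (-K')) := by
    refine le_trans (le_of_eq (by ring)) (r1.trans (le_of_eq ?_))
    ring
  have s3 : 4 * (B / 2) * (B / 2) * (B / 2) * ∫ ω, FV57 (wj μ s N (Pn N y) δ B b0 j ω t) a0 z z' c R (f y ω) ∂(Pm μ N) ≤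
      B ^ 3 / 2 * (N : ℝ) ^ ε * ∫ ω, FV57 (wm μ s N (Pn N y) ω) a0 z z' c R (f y ω) ∂(Pm μ N) +
      B ^ 3 / 2 * ((N : ℝ) ^ ε * (N : ℝ) ^ (-K')) := by
    refine r2.trans (le_of_eq ?_)
    ring
  have s4 : 68 * (B / 2) ^ 3 * D * eb = 17 / 2 * B ^ 3 * D * eb := by ring
  rw [s4]
  linarith

end RowM

end

end Pool.Agent.W_7d29a1_C0.T72
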