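import Pool.Agent.W_7d29a1_C0.E2C96
import Pool.Agent.W_7d29a1_C0.E2G43
import Pool.Agent.W_7d29a1_C0.TM72

/-!
MP_7d29a1_pr, [CURV0] / [C0], leaf E2, part R (helper96): **THE END OF THE ROW, PART R.** A bound of the double insertion by the named
majorants at the tilted weights `w_t` (own term, `G1` for the two near slabs, `T0Q`, the pairs of the window) becomes the bound by the terms
of `E2T96`: `rowR96`, in the geometry `G43` of helper43 and for the spectators `Cls59`.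
-/

set_option autoImplicit false
set_option linter.unusedSectionVars false
set_option linter.unusedVariables false

namespace Pool.Agent.W_7d29a1_C0.E2D96

open Finset MeasureTheory Filter Topology Pool.Agent.W_7d29a1_F Pool.Agent.W_7d29a1_X Pool.Agent.W_7d29a1_C0.Mod92
open Pool.Agent.W_7d29a1_C0.Swap57 Pool.Agent.W_7d29a1_C0.Blk18
open Pool.Agent.W_7d29a1_C0.MicE14 (rh rh_nonneg nn mi)
open Pool.Agent.W_7d29a1_C0.MicH14 (G1 T0Q)
open Pool.Agent.W_7d29a1_C0.T72 (Sp72 Rb72 ind72 ind72_nonneg ind72_le_one meas_ind72 uj72 abs_uj72 meas_uj72 sp72_of_cls)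
open Pool.Agent.W_7d29a1_C0.E2F59 (Gm59 Gm59_nonneg)
open Pool.Agent.W_7d29a1_C0.E2T96
open Pool.Agent.W_7d29a1_C0.MicN96
open Pool.Agent.W_7d29a1_C0.E2C96
open Pool.Agent.W_7d29a1_C0.E2G43
open Pool.Agent.W_7d29a1_C0.Base5 (pW)
open Pool.Agent.W_7d29a1_C0.T93 (Fam2)
open Pool.W7d29a1.C0
open Pool.W7d29a1.C0 (gz gm gm_nonneg gm_mono gm_const PP PP_nonneg PP_mono PP_smul)
open Pool.W7d29a1.C0.VT31
open Pool.W7d29a1.C0.R43
open Pool.W7d29a1.C0.C45 (wu meas_wu OwnE)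

noncomputable section

/-! ### The functionals of the row `j` -/

section Q

variable (μ : Measure ℝ) (s : ℝ) (N b0 b σ gl d l q : ℕ) (M : ℝ)

/-- Own. -/
def qOR (j : ℕ) : Fam2 N := one96 N (LO μ s N ((j / σ + 1) * σ) (j + b / 2) (j + b) M) (d - gl) d

/-- Own and micro tie, first near slab. -/
def q2R1 (u j : ℕ) : Fam2 N :=
  one96 N (LT2 μ s N ((j / σ + 1) * σ) (j + b / 2) (j + b) b0 j l q M (j + b / 8 + 1 + u)) (d - gl) d

/-- Own and micro tie, second near slab. -/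
def q2R2 (u j : ℕ) : Fam2 N :=
  one96 N (LT2 μ s N ((j / σ + 1) * σ) (j + b / 2) (j + b) b0 j l q M (j + b / 4 + 1 + u)) (d - gl) d

/-- Averaged own mass and micro tie, first near slab. -/
def qpR1 (u j : ℕ) : Fam2 N :=
  one96 N (LTp μ s N (j / σ * σ) ((j / σ + 1) * σ) (j + b / 2) (j + b) b0 j l q M (j + b / 8 + 1 + u)) (d - gl) d

/-- Averaged own mass and micro tie, second near slab. -/
def qpR2 (u j : ℕ) : Fam2 N :=
  one96 N (LTp μ s N (j / σ * σ) ((j / σ + 1) * σ) (j + b / 2) (j + b) b0 j l q M (j + b / 4 + 1 + u)) (d - gl) d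

/-- The own mass averaged given what is behind a macro row, and micro tie, first near slab. -/
def q0R1 (u j : ℕ) : Fam2 N :=
  one96 N (LT0 μ s N (j / σ * σ) ((j / σ + 1) * σ) (j + b / 2) (j + b) b0 j l q M (d - 3 * gl + 1 + u / (b / 8))
    (j + b / 8 + 1 + u % (b / 8))) (d - gl) d

/-- Own and the pairs of the window. -/
def qDR (m0 : ℕ → ℕ) (j : ℕ) : Fam2 N :=
  one96 N (LDg μ s N ((j / σ + 1) * σ) (j + b / 2) (j + b) (j + b) (j + b0) (m0 j) M) (d - gl) d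

end Q

variable {μ : Measure ℝ} {s : ℝ} {N : ℕ} [IsProbabilityMeasure μ] {y : ℕ} [Nonempty (Px (Pn N y))] {γ B : ℝ} {b0 b σ gl c d j : ℕ} {t : ℝ}
  {ε εM K' M D : ℝ} {l q : ℕ} {f : Fam N}

/-- The named majorants of the row `j` of part R at the tilted weights: own. -/
def mO (μ : Measure ℝ) (s : ℝ) (N y : ℕ) (γ B : ℝ) (b0 b σ gl d j : ℕ) (t : ℝ) (f : Fam N) : ℝ :=
  ∫ ω, PP (wj μ s N (Pn N y) γ B b0 j ω t) (fun x x' => mi (wj μ s N (Pn N y) γ B b0 j ω t) (pJ (j / σ * σ) ((j / σ + 1) * σ))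
    (NI (j + b / 2) (j + b)) x * rh (d - gl) d (f y ω) x x') ∂(Pm μ N)

/-- `G1` for the near slab `J`. -/
def mG (μ : Measure ℝ) (s : ℝ) (N y : ℕ) (γ B : ℝ) (b0 b σ gl d j : ℕ) (t : ℝ) (f : Fam N) (J : Finset ℕ) (α β : ℝ) : ℝ :=
  ∫ ω, G1 (wj μ s N (Pn N y) γ B b0 j ω t) (pJ (j / σ * σ) ((j / σ + 1) * σ)) (NI (j + b / 2) (j + b)) (rh (d - gl) d (f y ω))
    (nn (wj μ s N (Pn N y) γ B b0 j ω t) J (pJ 0) (gg μ s (Pn N y) γ B b0 ω j)) α β ∂(Pm μ N)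

/-- `T0Q` for the near slab `J` and the macro slab `J'`. -/
def mT (μ : Measure ℝ) (s : ℝ) (N y : ℕ) (γ B : ℝ) (b0 b σ gl d j : ℕ) (t : ℝ) (f : Fam N) (J' J : Finset ℕ) : ℝ :=
  ∫ ω, T0Q (wj μ s N (Pn N y) γ B b0 j ω t) (pJ (j / σ * σ) ((j / σ + 1) * σ)) J' (pJ 0) (NI (j + b / 2) (j + b))
    (rh (d - gl) d (f y ω)) (nn (wj μ s N (Pn N y) γ B b0 j ω t) J (pJ 0) (gg μ s (Pn N y) γ B b0 ω j)) ∂(Pm μ N)

/-- The pairs of the window. -/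
def mD (μ : Measure ℝ) (s : ℝ) (N y : ℕ) (γ B : ℝ) (b0 b σ gl d j : ℕ) (t : ℝ) (f : Fam N) (m0 : ℕ) : ℝ :=
  ∫ ω, PP (wj μ s N (Pn N y) γ B b0 j ω t) (fun x x' => mi (wj μ s N (Pn N y) γ B b0 j ω t) (pJ (j / σ * σ) ((j / σ + 1) * σ))
    (NI (j + b / 2) (j + b)) x * (Gm59 (wm μ s N (Pn N y) ω) (gg μ s (Pn N y) γ B b0 ω j) (sg ω.2 j : ℝ) (pW b j) (j + b0) m0 x *
      rh (d - gl) d (f y ω) x x')) ∂(Pm μ N)

/-- The geometry of a row: what the corner asks. -/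
theorem geo96 (X : G43 N b0 b σ gl d j) : j / σ * σ ≤ j + b / 2 ∧ j + b0 + b / 16 ≤ j + b / 2 ∧ j + b / 2 ≤ j + b ∧
    j + b ≤ (j / σ + 1) * σ ∧ (j / σ + 1) * σ ≤ N ∧ (j / σ + 1) * σ ≤ d - gl ∧ d - gl ≤ d ∧ b0 ≤ j ∧ 0 < b / 8 ∧
    nR1 b j = Ico (j + b / 8 + 1) (j + b / 8 + 1 + b / 8) ∧ nR2 b j = Ico (j + b / 4 + 1) (j + b / 4 + 1 + b / 8) ∧
    mc4 gl d = Ico (d - 3 * gl + 1) (d - 3 * gl + 1 + gl) ∧ 0 < gl ∧ b / 4 = b / 8 + b / 8 := by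
  obtain ⟨h1, h2, h3, h4, h5⟩ := X.b8
  have g1 := X.rng
  have g2 := X.bp
  have g3 := X.lo
  have g4 := X.glp
  refine ⟨by omega, by omega, by omega, by omega, by omega, by omega, by omega, by omega, by omega, ?_, ?_, ?_, by omega, by omega⟩
  · ext r
    unfold nR1
    rw [mem_Ioc, mem_Ico]
    omega
  · ext r
    unfold nR2
    rw [mem_Ioc, mem_Ico]
    omega
  · ext r
    unfold mc4
    rw [mem_Ioc, mem_Ico]
    omega

/-! ### The bare outer line -/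

/-- Nothing but the tie of the spectator. -/
def LU (N : ℕ) : Fam N := fun _ _ _ => 1

/-- The functional of the bare outer line. -/
def qU (N gl d : ℕ) : Fam2 N := one96 N (LU N) (d - gl) d

theorem qb_LU (N zt c : ℕ) : Qb96 N (one96 N (LU N) zt c) :=
  qb_one96 (fun _ _ _ => zero_le_one) (fun _ _ _ => le_rfl) (fun _ _ => measurable_const) zt c

/-- **THE BARE OUTER LINE AT THE CORNER.** -/
theorem outC {b' j' c0 K zf zt cc : ℕ} {F D' : ℝ} (R : Rw96 μ s N (Pn N y) γ B b' j' t c0 K ε εM K') (hz : c0 + K ≤ zf) (hc : zf ≤ cc) (hzt : zf ≤ zt)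
    (hf : Sp72 (Pn N y) cc F c0 K (f y)) (hF : F ≤ (N : ℝ) ^ 3) (mf : ∀ y S, Measurable fun ω => f y ω S)
    (bf : ∀ y ω S, |f y ω S| ≤ D') (hy : y ≤ N) :
    ∫ ω, PP (wv μ s N y γ B b' j' t ω) (fun x x' => rh zf cc (f y ω) x x') ∂(Pm μ N) ≤
      (N : ℝ) ^ ε * rw96 μ s N (one96 N (LU N) zt cc) f y + er96 N K' := by
  have e1 : ∀ (ω : Env × Finset ℕ) (x : Px (Pn N y)), ind72 (fun _ _ => True) ω x = (1 : ℝ) := fun ω x => by
    unfold ind72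
    simp
  have key := C45.own_pass45 (μ := μ) (s := s) (N := N) (Q := Pn N y) (V := fun _ _ => (1 : ℝ)) (E := fun _ _ => True)
    (E' := fun _ _ => True) (e1 := 0) R.hE (meas_uj72 γ B b' j' t) hz hc hf (R.twoF hF)
    (fun ω Fn Λ _ _ => by simp only [e1]; simp) ⟨fun _ => by simp, fun _ => by simp, fun _ _ _ _ => Iff.rfl, fun _ _ _ _ _ _ _ => trivial⟩
    (fun _ _ => zero_le_one) (fun _ _ => le_rfl) (fun _ => measurable_const)
  simp only [e1, one_mul] at key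
  have h2 := fin_own96 R.N1 (F0_96 hf) hF R.ε1 R.Z0 (by linarith [R.Z0]) key
  refine h2.trans (add_le_add (mul_le_mul_of_nonneg_left ?_ ?_) le_rfl)
  · have h3 := rw_one96 (μ := μ) (s := s) (N := N) (L := LU N) (f := f) (fun _ _ _ => zero_le_one) (fun _ _ _ => le_rfl)
      (fun _ _ => measurable_const) mf bf (y := y) (z' := zf) (zt := zt) (c := cc) hy hzt
    unfold LU at h3 ⊢
    simpa only [one_mul] using h3
  · exact Real.rpow_nonneg (by linarith [R.N1]) _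

/-- The data of a row of part R. -/
structure Dr96 (μ : Measure ℝ) (s : ℝ) (N y : ℕ) (γ B : ℝ) (b0 b σ gl c d j : ℕ) (t : ℝ) (ε εM K' M D : ℝ) (l q : ℕ) (f : Fam N) : Prop where
  X : G43 N b0 b σ gl d j
  R : Rw96 μ s N (Pn N y) γ B b0 j t (j + b0) (b / 16) ε εM K'
  hM : (N : ℝ) ^ εM ≤ M
  hq : 10 * M ≤ q
  hq' : (q : ℝ) ≤ 20 * M
  hl : 3 * q * (l + 1) ≤ b0
  hf : Cls59 N c d D f
  hD : D ≤ (N : ℝ) ^ 3
  hy : y ≤ N

namespace Dr96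

variable {y : ℕ} [Nonempty (Px (Pn N y))]

theorem own (Z : Dr96 μ s N y γ B b0 b σ gl c d j t ε εM K' M D l q f) : mO μ s N y γ B b0 b σ gl d j t f ≤
    (N : ℝ) ^ ε * rw96 μ s N (qOR μ s N b σ gl d M j) f y + er96 N K' := by
  obtain ⟨g1, g2, g3, g4, g5, g6, g7, g8, g9, g10, g11, g12, g13, g14⟩ := geo96 Z.X
  have g0 := Z.X.rng
  obtain ⟨k1, k2, k3, k4, k5⟩ := Z.X.b8
  have hSp : Sp72 (Pn N y) d D (j + b0) (b / 16) (f y) := sp72_of_cls Z.hf le_rfl (by omega) y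
  have h := ownC (zt := d - gl) Z.R Z.hM g1 g2 g3 g4 g5 g6 g7 le_rfl hSp Z.hD Z.hf.meas Z.hf.bdd Z.hy
  unfold mO
  simp only [wv_eq] at h
  exact h

theorem g1 (Z : Dr96 μ s N y γ B b0 b σ gl c d j t ε εM K' M D l q f) {α β : ℝ} (hα : 0 ≤ α) (hβ : 0 ≤ β) :
    mG μ s N y γ B b0 b σ gl d j t f (nR1 b j) α β ≤
      α * (B * ((N : ℝ) ^ ε * mR μ s N (b / 8) (fun u => q2R1 μ s N b0 b σ gl d l q M u j) f y)) +
      β * (B * ((N : ℝ) ^ ε * mR μ s N (b / 8) (fun u => qpR1 μ s N b0 b σ gl d l q M u j) f y)) + (α + β) * er96 N K' := by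
  obtain ⟨g1, g2, g3, g4, g5, g6, g7, g8, g9, g10, g11, g12, g13, g14⟩ := geo96 Z.X
  have g0 := Z.X.rng
  obtain ⟨k1, k2, k3, k4, k5⟩ := Z.X.b8
  have hSp : Sp72 (Pn N y) d D (j + b0) (b / 16) (f y) := sp72_of_cls Z.hf le_rfl (by omega) y
  have h := g1C (zt := d - gl) Z.R Z.hM Z.hq Z.hq' g8 Z.hl g9 (a := j + b / 8 + 1) (by omega) (by omega) g1 g3 g4 g5 g6 g7 le_rfl hSp Z.hD
    Z.hf.meas Z.hf.bdd Z.hy hα hβ
  unfold mG
  rw [g10]
  simp only [wv_eq] at h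
  exact h

theorem g2 (Z : Dr96 μ s N y γ B b0 b σ gl c d j t ε εM K' M D l q f) {α β : ℝ} (hα : 0 ≤ α) (hβ : 0 ≤ β) :
    mG μ s N y γ B b0 b σ gl d j t f (nR2 b j) α β ≤
      α * (B * ((N : ℝ) ^ ε * mR μ s N (b / 8) (fun u => q2R2 μ s N b0 b σ gl d l q M u j) f y)) +
      β * (B * ((N : ℝ) ^ ε * mR μ s N (b / 8) (fun u => qpR2 μ s N b0 b σ gl d l q M u j) f y)) + (α + β) * er96 N K' := by
  obtain ⟨g1, g2, g3, g4, g5, g6, g7, g8, g9, g10, g11, g12, g13, g14⟩ := geo96 Z.X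
  have g0 := Z.X.rng
  obtain ⟨k1, k2, k3, k4, k5⟩ := Z.X.b8
  have hSp : Sp72 (Pn N y) d D (j + b0) (b / 16) (f y) := sp72_of_cls Z.hf le_rfl (by omega) y
  have h := g1C (zt := d - gl) Z.R Z.hM Z.hq Z.hq' g8 Z.hl g9 (a := j + b / 4 + 1) (by omega) (by omega) g1 g3 g4 g5 g6 g7 le_rfl hSp Z.hD
    Z.hf.meas Z.hf.bdd Z.hy hα hβ
  unfold mG
  rw [g11]
  simp only [wv_eq] at h
  exact h

theorem t0 (Z : Dr96 μ s N y γ B b0 b σ gl c d j t ε εM K' M D l q f) :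
    mT μ s N y γ B b0 b σ gl d j t f (mc4 gl d) (nR1 b j) ≤
      B * ((N : ℝ) ^ ε * mR μ s N (gl * (b / 8)) (fun u => q0R1 μ s N b0 b σ gl d l q M u j) f y) + er96 N K' := by
  obtain ⟨g1, g2, g3, g4, g5, g6, g7, g8, g9, g10, g11, g12, g13, g14⟩ := geo96 Z.X
  have g0 := Z.X.rng
  obtain ⟨k1, k2, k3, k4, k5⟩ := Z.X.b8
  have hSp : Sp72 (Pn N y) d D (j + b0) (b / 16) (f y) := sp72_of_cls Z.hf le_rfl (by omega) y
  have h := t0C (z := (j / σ + 1) * σ) (c1 := j / σ * σ) (be := j + b / 2) (wr := j + b) (zf := d - gl) (zt := d - gl) Z.R Z.hM Z.hq Z.hq'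
    g8 Z.hl g9 g13 (a := j + b / 8 + 1) (a' := d - 3 * gl + 1) (by omega) (by omega) (by omega) g7 le_rfl hSp Z.hD Z.hf.meas Z.hf.bdd Z.hy
  unfold mT
  rw [g10, g12]
  simp only [wv_eq] at h
  exact h

theorem dg (Z : Dr96 μ s N y γ B b0 b σ gl c d j t ε εM K' M D l q f) {m0 : ℕ → ℕ} (hm : m0 j ≤ j + b) :
    mD μ s N y γ B b0 b σ gl d j t f (m0 j) ≤
      2 * ((N : ℝ) ^ ε * rw96 μ s N (qDR μ s N b0 b σ gl d M m0 j) f y) + er96 N K' := by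
  obtain ⟨g1, g2, g3, g4, g5, g6, g7, g8, g9, g10, g11, g12, g13, g14⟩ := geo96 Z.X
  have g0 := Z.X.rng
  obtain ⟨k1, k2, k3, k4, k5⟩ := Z.X.b8
  have hSp : Sp72 (Pn N y) d D (j + b0) (b / 16) (f y) := sp72_of_cls Z.hf le_rfl (by omega) y
  have h := dgC (c' := j - b) (d' := j + b) (be' := j + b0) (m0 := m0 j) (zt := d - gl) Z.R Z.hM g1 g2 g3 g4 g5 g6 g7 le_rfl (by omega) hm
    (by omega) (by omega) (by omega) hSp Z.hD Z.hf.meas Z.hf.bdd Z.hy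
  unfold mD
  simp only [wv_eq] at h
  exact h

/-- **THE END OF THE ROW, PART R.** -/
theorem rowR (Z : Dr96 μ s N y γ B b0 b σ gl c d j t ε εM K' M D l q f) {m0 : ℕ → ℕ} (hm : m0 j ≤ j + b) {V A0 A1 A2 A3 α β α' β' e : ℝ}
    (hA0 : 0 ≤ A0) (hA1 : 0 ≤ A1) (hA2 : 0 ≤ A2) (hA3 : 0 ≤ A3) (hα : 0 ≤ α) (hβ : 0 ≤ β) (hα' : 0 ≤ α') (hβ' : 0 ≤ β')
    (hV : V ≤ A0 * mO μ s N y γ B b0 b σ gl d j t f + A1 * mG μ s N y γ B b0 b σ gl d j t f (nR2 b j) α β +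
      A2 * (mG μ s N y γ B b0 b σ gl d j t f (nR1 b j) α' β' + mT μ s N y γ B b0 b σ gl d j t f (mc4 gl d) (nR1 b j)) +
      A3 * mD μ s N y γ B b0 b σ gl d j t f (m0 j) + e) :
    V ≤ (A0 * (N : ℝ) ^ ε) * rw96 μ s N (qOR μ s N b σ gl d M j) f y +
      (A1 * α * B * (N : ℝ) ^ ε) * mR μ s N (b / 8) (fun u => q2R2 μ s N b0 b σ gl d l q M u j) f y +
      (A1 * β * B * (N : ℝ) ^ ε) * mR μ s N (b / 8) (fun u => qpR2 μ s N b0 b σ gl d l q M u j) f y +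
      (A2 * α' * B * (N : ℝ) ^ ε) * mR μ s N (b / 8) (fun u => q2R1 μ s N b0 b σ gl d l q M u j) f y +
      (A2 * β' * B * (N : ℝ) ^ ε) * mR μ s N (b / 8) (fun u => qpR1 μ s N b0 b σ gl d l q M u j) f y +
      (A2 * B * (N : ℝ) ^ ε) * mR μ s N (gl * (b / 8)) (fun u => q0R1 μ s N b0 b σ gl d l q M u j) f y +
      (A3 * 2 * (N : ℝ) ^ ε) * rw96 μ s N (qDR μ s N b0 b σ gl d M m0 j) f y +
      ((A0 + A1 * (α + β) + A2 * (α' + β' + 1) + A3) * er96 N K' + e) := by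
  have h0 := mul_le_mul_of_nonneg_left Z.own hA0
  have h1 := mul_le_mul_of_nonneg_left (Z.g2 hα hβ) hA1
  have h2 := mul_le_mul_of_nonneg_left (add_le_add (Z.g1 hα' hβ') Z.t0) hA2
  have h3 := mul_le_mul_of_nonneg_left (Z.dg hm) hA3
  linarith

end Dr96

end

end Pool.Agent.W_7d29a1_C0.E2D96
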