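import Pool.Agent.W_7d29a1_C0.E2CT45
import Pool.Agent.W_7d29a1_C0.E2D96
import Pool.Agent.W_7d29a1_C0.DgL96
import Pool.Agent.W_7d29a1_C0.E2L65

/-!
MP_7d29a1_pr, [CURV0] / [C0], leaf E2, part L (helper96): **THE END OF THE ROW, PART L.** A bound of the double insertion by the named
majorants at the tilted weights `w_t` (own term, `G1` for the two near slabs, `T0Q`, `Lng` for the macro slabs, the pairs of the window)
becomes, in the mean over the ends, the bound by the terms of `E2T96`: `Dl96.rowL`, in the geometry `G43` of helper43, for the spectators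
`Cls59`. The functionals of `E2L65` (helper65) are the majorants: `eLO96` .. `eLG96`.
-/

set_option autoImplicit false
set_option linter.unusedSectionVars false
set_option linter.unusedVariables false

namespace Pool.Agent.W_7d29a1_C0.E2DL96

open Finset MeasureTheory Filter Topology Pool.Agent.W_7d29a1_F Pool.Agent.W_7d29a1_X Pool.Agent.W_7d29a1_C0.Mod92
open Pool.Agent.W_7d29a1_C0.Swap57 Pool.Agent.W_7d29a1_C0.Blk18 Pool.Agent.W_7d29a1_C0.NM82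
open Pool.Agent.W_7d29a1_C0.MicE14 (rh rh_nonneg nn mi)
open Pool.Agent.W_7d29a1_C0.MicH14 (G1 T0Q)
open Pool.Agent.W_7d29a1_C0.MicL14 (Lng)
open Pool.Agent.W_7d29a1_C0.T72 (Sp72 Rb72 ind72 ind72_nonneg ind72_le_one meas_ind72 uj72 abs_uj72 meas_uj72 sp72_of_cls)
open Pool.Agent.W_7d29a1_C0.E2F59 (Gm59 Gm59_nonneg)
open Pool.Agent.W_7d29a1_C0.E2T96
open Pool.Agent.W_7d29a1_C0.MicN96
open Pool.Agent.W_7d29a1_C0.E2C96
open Pool.Agent.W_7d29a1_C0.E2CL45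
open Pool.Agent.W_7d29a1_C0.E2CT45
open Pool.Agent.W_7d29a1_C0.DgL96
open Pool.Agent.W_7d29a1_C0.E2D96 (geo96)
open Pool.Agent.W_7d29a1_C0.E2G43
open Pool.Agent.W_7d29a1_C0.Base5 (pW)
open Pool.Agent.W_7d29a1_C0.T93 (Fam2)
open Pool.Agent.W_7d29a1_C0.EvT50 (RpM meas_RpM meas_Rp50)
open Pool.W7d29a1.C0
open Pool.W7d29a1.C0 (gz gm gm_nonneg gm_mono gm_const PP PP_nonneg PP_mono PP_smul)
open Pool.W7d29a1.C0.VT31
open Pool.W7d29a1.C0.R43
open Pool.W7d29a1.C0.C45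

noncomputable section

/-! ### The pairs of the window at the corner, own outside of the three levels -/

section Dg

variable {μ : Measure ℝ} {s : ℝ} {N : ℕ} [IsProbabilityMeasure μ] {γ B : ℝ} {b j : ℕ} {t : ℝ} {c0 K : ℕ} {ε εM K' : ℝ}

/-- **A BARE EVENT OF THE BASE PATH AT THE CORNER**, in the mean over the ends, the third part abstract. -/
theorem bareT96 {ys : Finset ℕ} (hys : ∀ y ∈ ys, y ≤ N) (R : ∀ y ∈ ys, RL45 μ s N (Pn N y) γ B b j t c0 K ε εM K') {M : ℝ}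
    (hM : (N : ℝ) ^ εM ≤ M / 2) {δ : ℝ} (hδ : 0 ≤ δ) (hδ1 : δ ≤ 1) {zf cc : ℕ} (hz : c0 + K ≤ zf) (hc : zf ≤ cc) {F : ℝ} {f : Fam N}
    (hf : ∀ y ∈ ys, Sp72 (Pn N y) cc F c0 K (f y)) (hF : F ≤ (N : ℝ) ^ 3)
    {ev : ∀ y, (Px (Pn N y) → ℝ) → ℝ → Px (Pn N y) → Prop} (hev : ∀ y ∈ ys, Ev45 (ev y)) {e : ℝ}
    (hflp : FlpB96 μ s N ys γ B b j t δ c0 K zf cc f ev (M / 2 + 2 * B) e) (hN : (64 : ℝ) ≤ N) {Th : ℕ → ℝ}
    (hTh : ∀ y ∈ ys, th45 μ s N (Pn N y) γ B b j t δ c0 K (fun ω => ev y (wm μ s N (Pn N y) ω) (M / 2)) zf cc (f y) ≤ Th y) :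
    avy ys (fun y => bT96 μ s N (Pn N y) γ B b j t (fun ω => ev y (wm μ s N (Pn N y) ω) (M / 2)) zf cc (f y)) ≤
      2 * ((N : ℝ) ^ ε * avy ys fun y => cP45 μ s N (Pn N y) (fun ω => ev y (wm μ s N (Pn N y) ω) M) zf cc (f y)) +
      avy ys Th + (2 * er96 N K' + e) := by
  have hN0 : (0 : ℝ) < N := by linarith
  have her : 0 ≤ er96 N K' := by
    unfold er96
    exact mul_nonneg (by positivity) (Real.rpow_nonneg hN0.le _)
  obtain ⟨P, hP⟩ : ∃ P : ℕ → ℝ, ∀ y, P y = bT96 μ s N (Pn N y) γ B b j t (fun ω S => ev y (wm μ s N (Pn N y) ω) (M / 2 + 2 * B + 1) S ∧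
      nP45 μ s N (Pn N y) γ B b j t δ c0 K ω S) zf cc (f y) := ⟨_, fun _ => rfl⟩
  obtain ⟨P', hP'⟩ : ∃ P : ℕ → ℝ, ∀ y, P y = bT96 μ s N (Pn N y) γ B b j t (fun ω S => ev y (wf45 μ s N (Pn N y) γ B b j ω)
      (M / 2 + 2 * B) S ∧ nM45 μ s N (Pn N y) γ B b j t (δ / 2) c0 K ω S) zf cc (f y) := ⟨_, fun _ => rfl⟩
  obtain ⟨W, hW⟩ : ∃ W : ℕ → ℝ, ∀ y, W y = cP45 μ s N (Pn N y) (fun ω => ev y (wm μ s N (Pn N y) ω) M) zf cc (f y) := ⟨_, fun _ => rfl⟩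
  have s1 : ∀ y ∈ ys, bT96 μ s N (Pn N y) γ B b j t (fun ω => ev y (wm μ s N (Pn N y) ω) (M / 2)) zf cc (f y) ≤
      (P y + P' y) + Th y := fun y hy => by
    have := ne_Pn (hys y hy)
    have hR := R y hy
    have hM8 := hR.M8
    have hM' : (N : ℝ) ^ εM ≤ M := by linarith
    obtain ⟨n1, n2, n3, n4, n5, n6, n7, n8, n9⟩ := hR.num hM'
    have h1 := split45 (μ := μ) (s := s) (N := N) (Q := Pn N y) (u := uj72 μ s (Pn N y) γ B b j t) (meas_uj72 γ B b j t) (z := zf)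
      (hf y hy) (A := fun ω => ev y (wm μ s N (Pn N y) ω) (M / 2)) (A₂ := fun ω => ev y (wf45 μ s N (Pn N y) γ B b j ω) (M / 2 + 2 * B))
      (E := fun ω => ev y (wm μ s N (Pn N y) ω) (M / 2)) (n₁ := nP45 μ s N (Pn N y) γ B b j t δ c0 K)
      (n₂ := nM45 μ s N (Pn N y) γ B b j t (δ / 2) c0 K) (fun ω S h => (hev y hy).tilt (near_wf45 n7 ω) le_rfl S h) (fun ω S h => h)
      ((hev y hy).meas meas_wm _) ((hev y hy).meas meas_wf45 _) ((hev y hy).meas meas_wm _) (meas_nP45 δ) (meas_nM45 (δ / 2))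
    have h2 := hTh y hy
    have h3 : bT96 μ s N (Pn N y) γ B b j t (fun ω S => ev y (wm μ s N (Pn N y) ω) (M / 2) S ∧
        nP45 μ s N (Pn N y) γ B b j t δ c0 K ω S) zf cc (f y) ≤ P y := by
      rw [hP]
      have hi : ∀ T : Env × Finset ℕ → Px (Pn N y) → Prop, (∀ S, MeasurableSet {ω | T ω S}) → Integrable (fun ω =>
          PP (wu μ s N (Pn N y) (uj72 μ s (Pn N y) γ B b j t) ω) (fun x z => ind72 T ω x * rh zf cc (f y ω) x z)) (Pm μ N) := fun T hT =>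
        int_bdd (M := 1 * (2 * F)) (meas_PP45 (meas_wu (meas_uj72 γ B b j t)) fun x z => (meas_ind72 hT x).mul (meas_rh45 (hf y hy) x z))
          fun ω => abs_PP_le45 _ (fun x z => mul_nonneg (ind72_nonneg _ _ _) (rh_nonneg _ _ _)) fun x z =>
            mul_le_mul (ind72_le_one _ _ _) (rh_le45 (hf y hy) ω x z) (rh_nonneg _ _ _) zero_le_one
      refine integral_mono (hi _ fun S => ((hev y hy).meas meas_wm _ S).inter (meas_nP45 δ S))
        (hi _ fun S => ((hev y hy).meas meas_wm _ S).inter (meas_nP45 δ S)) fun ω => PP_mono _ fun x z =>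
          mul_le_mul_of_nonneg_right ?_ (rh_nonneg _ _ _)
      unfold ind72
      by_cases h5 : ev y (wm μ s N (Pn N y) ω) (M / 2) x ∧ nP45 μ s N (Pn N y) γ B b j t δ c0 K ω x
      · rw [if_pos h5, if_pos ⟨(hev y hy).mono (by linarith) h5.1, h5.2⟩]
      · rw [if_neg h5]
        split_ifs <;> norm_num
    rw [hP']
    unfold bT96 at h3 ⊢
    unfold th45 at h2
    linarith
  have s2 := avy_mono (ys := ys) s1
  rw [avy_add, avy_add] at s2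
  have s3 : avy ys P' ≤ avy ys P + e := by
    unfold FlpB96 at hflp
    have e3 : avy ys P' = avy ys (fun y => bT96 μ s N (Pn N y) γ B b j t (fun ω S => ev y (wf45 μ s N (Pn N y) γ B b j ω)
        (M / 2 + 2 * B) S ∧ nM45 μ s N (Pn N y) γ B b j t (δ / 2) c0 K ω S) zf cc (f y)) := by
      congr 1
      funext y
      exact hP' y
    have e4 : avy ys P = avy ys (fun y => bT96 μ s N (Pn N y) γ B b j t (fun ω S => ev y (wm μ s N (Pn N y) ω)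
        (M / 2 + 2 * B + 1) S ∧ nP45 μ s N (Pn N y) γ B b j t δ c0 K ω S) zf cc (f y)) := by
      congr 1
      funext y
      exact hP y
    rw [e3, e4]
    exact hflp
  have s4 : avy ys P ≤ (N : ℝ) ^ ε * avy ys W + er96 N K' := by
    have g1 : ∀ y ∈ ys, P y ≤ (N : ℝ) ^ ε * W y + er96 N K' := fun y hy => by
      have := ne_Pn (hys y hy)
      have hR := R y hy
      have hM8 := hR.M8
      have hM' : (N : ℝ) ^ εM ≤ M := by linarith
      obtain ⟨n1, n2, n3, n4, n5, n6, n7, n8, n9⟩ := hR.num hM'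
      rw [hP, hW]
      have h2 := e0D_ev45 (μ := μ) (s := s) (N := N) (Q := Pn N y) (u := uj72 μ s (Pn N y) γ B b j t) (hR.hU (fun i => i = 0) hδ hδ1)
        (meas_uj72 γ B b j t) hz hc (hf y hy) (hR.toRw96.twoF hF)
        ((hev y hy).rbW (μ := μ) (s := s) (N := N) (c0 := c0) (K := K) (D := 2 * B) (by linarith) (le_refl (2 * B / (K : ℝ))) (M := M / 2 + 2 * B + 1) (M' := M)
          (by linarith))
      have a1 : (N : ℝ) ^ ε * (N : ℝ) ^ (-K') ≤ er96 N K' := by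
        unfold er96
        refine mul_le_mul_of_nonneg_right (n9.trans ?_) n6
        have := pow_le_pow_right₀ (show (1 : ℝ) ≤ N by linarith) (show 1 ≤ 6 by norm_num)
        rwa [pow_one] at this
      rw [mul_add] at h2
      unfold bT96 cP45
      unfold nP45
      exact h2.trans (add_le_add le_rfl a1)
    have g2 := avy_mono g1
    rw [avy_add, avy_mul] at g2
    exact g2.trans (add_le_add le_rfl (avc96 her))
  have e5 : avy ys (fun y => cP45 μ s N (Pn N y) (fun ω => ev y (wm μ s N (Pn N y) ω) M) zf cc (f y)) = avy ys W := by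
    congr 1
    funext y
    exact (hW y).symm
  rw [e5]
  linarith

/-- **THE TERM `D gam` TIMES OWN, PART L, AT THE CORNER**, own outside of the three levels. -/
theorem dgM96 {ys : Finset ℕ} (hys : ∀ y ∈ ys, y ≤ N) (R : ∀ y ∈ ys, RL45 μ s N (Pn N y) γ B b j t c0 K ε εM K') {M : ℝ}
    (hM : (N : ℝ) ^ εM ≤ M / 2) (hN : (64 : ℝ) ≤ N) {δ : ℝ} (hδ : 0 ≤ δ) (hδ1 : δ ≤ 1) {zf zt cc : ℕ} {F D : ℝ} {f : Fam N} (hf : ∀ y ∈ ys, Sp72 (Pn N y) cc F c0 K (f y)) (hF0 : 0 ≤ F) (hF : F ≤ (N : ℝ) ^ 3)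
    {c1 z wl al c' d' i i' : ℕ} (hz : c0 + K ≤ z) (hzf : z ≤ zf) (hc : zf ≤ cc) (hzt : zf ≤ zt)
    (mf : ∀ y S, Measurable fun ω => f y ω S) (bf : ∀ y ω S, |f y ω S| ≤ D) {e : ℝ} (hflp : FlpB96 μ s N ys γ B b j t δ c0 K zf cc f
      (fun y w M S => Nta w (pJ (Q := Pn N y) c1 z) wl al M S ∧ TauM w (pJ (Q := Pn N y) c' d') (pJ c' d') i i' M S) (M / 2 + 2 * B) e) :
    avy ys (fun y => ∫ ω, PP (wv μ s N y γ B b j t ω) (fun x x' => mi (wv μ s N y γ B b j t ω) (pJ c1 z) (NI wl al) x *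
        (Gm59 (wm μ s N (Pn N y) ω) (gg μ s (Pn N y) γ B b ω j) (sg ω.2 j : ℝ) (pJ c' d') i i' x * rh zf cc (f y ω) x x')) ∂(Pm μ N)) ≤
      4 * ((N : ℝ) ^ ε * avy ys (rw96 μ s N (one96 N (evF N fun y ω S => Nta (wm μ s N (Pn N y) ω) (pJ c1 z) wl al M S ∧
        Tau (wm μ s N (Pn N y) ω) (pJ c' d') i i' M S) zt cc) f)) +
      2 * ((N : ℝ) ^ ε * avy ys (cJT μ s N γ B b j (c0 + K) δ M c1 z wl al z zf cc f)) + (12 * er96 N K' + 2 * e) := by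
  have hN0 : (0 : ℝ) < N := by linarith
  have her : 0 ≤ er96 N K' := by
    unfold er96
    exact mul_nonneg (by positivity) (Real.rpow_nonneg hN0.le _)
  have hNe : (0 : ℝ) ≤ (N : ℝ) ^ ε := Real.rpow_nonneg hN0.le _
  have hM' : (N : ℝ) ^ εM ≤ M := hM.trans (by
    have : 0 ≤ (N : ℝ) ^ εM := Real.rpow_nonneg hN0.le _
    linarith)
  have hM0 : 0 ≤ M := (Real.rpow_nonneg hN0.le _).trans hM'
  have hev : ∀ y ∈ ys, Ev45 (Q := Pn N y) (fun w M S => Nta w (pJ (Q := Pn N y) c1 z) wl al M S ∧ TauM w (pJ (Q := Pn N y) c' d')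
      (pJ c' d') i i' M S) := fun y hy => by
    have := ne_Pn (hys y hy)
    exact Ev45.and (Ev45.nta _ _ _) (Ev45.tau _ _ _ _)
  have hb := bareT96 (μ := μ) (s := s) (N := N) (γ := γ) (B := B) (b := b) (j := j) (t := t) (c0 := c0) (K := K) (ε := ε) (εM := εM)
    (K' := K') hys R hM hδ hδ1 (hz.trans hzf) hc hf hF (ev := fun y w M S => Nta w (pJ (Q := Pn N y) c1 z) wl al M S ∧
      TauM w (pJ (Q := Pn N y) c' d') (pJ c' d') i i' M S) hev hflp hN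
    (Th := fun y => (N : ℝ) ^ ε * cP45 μ s N (Pn N y) (fun ω S => TauM (wm μ s N (Pn N y) ω) (pJ 0 z) (pJ c1 z) wl al M S ∧
        jT45 μ s N (Pn N y) γ B b j (c0 + K) (δ / 4) (5 * M) (fun _ _ => True) ω S) zf cc (f y) + 2 * er96 N K') (fun y hy => by
      have := ne_Pn (hys y hy)
      refine (R y hy).thF hM' hδ hz hzf hc (hf y hy) hF (fun S => (hev y hy).meas meas_wm (M / 2) S)
        (h := fun ω => mI (wm μ s N (Pn N y) ω) (pJ c1 z) wl al) (fun ω x => mI_nonneg _ _ _ _ _) (fun ω x hx => ?_) fun ω x => rfl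
      have h5 := mul_le_mul_of_nonneg_left hx.1 (Real.exp_pos (M / 2)).le
      rw [← Real.exp_add, add_neg_cancel, Real.exp_zero] at h5
      exact h5.trans (mul_le_mul_of_nonneg_right (Real.exp_le_exp.2 (by linarith)) (mI_nonneg _ _ _ _ _)))
  -- the static step
  have s1 : ∀ y ∈ ys, ∫ ω, PP (wu μ s N (Pn N y) (uj72 μ s (Pn N y) γ B b j t) ω) (fun x x' =>
        mI (wu μ s N (Pn N y) (uj72 μ s (Pn N y) γ B b j t) ω) (pJ c1 z) wl al x *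
        (Gm59 (wm μ s N (Pn N y) ω) (gg μ s (Pn N y) γ B b ω j) (sg ω.2 j : ℝ) (pJ c' d') i i' x * rh zf cc (f y ω) x x')) ∂(Pm μ N) ≤
      2 * bT96 μ s N (Pn N y) γ B b j t (fun ω S => Nta (wm μ s N (Pn N y) ω) (pJ c1 z) wl al (M / 2) S ∧
        TauM (wm μ s N (Pn N y) ω) (pJ c' d') (pJ c' d') i i' (M / 2) S) zf cc (f y) + 4 * er96 N K' := fun y hy => by
    have := ne_Pn (hys y hy)
    have hR := R y hy
    have hM8 := hR.M8
    obtain ⟨n1, n2, n3, n4, n5, n6, n7, n8, n9⟩ := hR.num hM'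
    have hu : ∀ A η S, |uj72 μ s (Pn N y) γ B b j t A η S| ≤ B := fun A η S => abs_uj72 n7 b j hR.ht A η S
    have own := ownE_self (μ := μ) (s := s) (N := N) (Q := Pn N y) (u := uj72 μ s (Pn N y) γ B b j t) hu (pJ (Q := Pn N y) c1 z) wl al
      (M / 2)
    have mic := ownE_gmL96 (μ := μ) (s := s) (N := N) (Q := Pn N y) (u := uj72 μ s (Pn N y) γ B b j t) (D := B)
      (g := fun ω => gg μ s (Pn N y) γ B b ω j) (a := fun ω => (sg ω.2 j : ℝ)) (fun ω => (abs_sg ω.2 j).le)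
      (fun ω S => abs_gj (μ := μ) (s := s) (δ := γ) ω.1 n7 (abs_sg ω.2 j).le b j S) (pJ (Q := Pn N y) c' d') i i' (M / 2)
    have both := C45.OwnE.mul own mic (fun ω x => div_nonneg (Gm59_nonneg _ _ _ _ _ _ _) zero_le_two)
      (fun ω x => gm01_96 _ _ _ _ _ _ x)
    obtain ⟨e1, he1⟩ : ∃ e1 : ℝ, e1 = Real.exp (2 * B - M / 2) + Real.exp (4 * B - 5 * (M / 2)) := ⟨_, rfl⟩
    rw [← he1] at both
    obtain ⟨-, t1⟩ := hR.tiny hM' hF0 hF (x := 2 * B - M / 2) (by linarith)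
    obtain ⟨-, t2⟩ := hR.tiny hM' hF0 hF (x := 4 * B - 5 * (M / 2)) (by linarith)
    have t3 : 2 * F * e1 ≤ 2 * er96 N K' := by
      rw [he1, mul_add]
      linarith
    obtain ⟨EV, hEV⟩ : ∃ EV : Env × Finset ℕ → Px (Pn N y) → Prop, EV = fun ω S => Nta (wm μ s N (Pn N y) ω) (pJ c1 z) wl al (M / 2) S ∧
        TauM (wm μ s N (Pn N y) ω) (pJ c' d') (pJ c' d') i i' (M / 2) S := ⟨_, rfl⟩
    have mE : ∀ S, MeasurableSet {ω | EV ω S} := fun S => by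
      rw [hEV]
      exact (hev y hy).meas meas_wm (M / 2) S
    have hpt : ∀ ω, PP (wu μ s N (Pn N y) (uj72 μ s (Pn N y) γ B b j t) ω) (fun x x' =>
        mI (wu μ s N (Pn N y) (uj72 μ s (Pn N y) γ B b j t) ω) (pJ c1 z) wl al x *
        (Gm59 (wm μ s N (Pn N y) ω) (gg μ s (Pn N y) γ B b ω j) (sg ω.2 j : ℝ) (pJ c' d') i i' x * rh zf cc (f y ω) x x')) ≤
        2 * PP (wu μ s N (Pn N y) (uj72 μ s (Pn N y) γ B b j t) ω) (fun x x' => ind72 EV ω x * rh zf cc (f y ω) x x') +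
          2 * (2 * F * e1) := fun ω => by
      have h5 := both ω (fun x y' => rh zf cc (f y ω) x y') (2 * F) (fun x y' => rh_nonneg _ _ _) (rh_le45 (hf y hy) ω)
      have e4 : (fun x x' => mI (wu μ s N (Pn N y) (uj72 μ s (Pn N y) γ B b j t) ω) (pJ c1 z) wl al x *
        (Gm59 (wm μ s N (Pn N y) ω) (gg μ s (Pn N y) γ B b ω j) (sg ω.2 j : ℝ) (pJ c' d') i i' x * rh zf cc (f y ω) x x')) =
          fun x x' => 2 * (mI (wu μ s N (Pn N y) (uj72 μ s (Pn N y) γ B b j t) ω) (pJ c1 z) wl al x *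
            (Gm59 (wm μ s N (Pn N y) ω) (gg μ s (Pn N y) γ B b ω j) (sg ω.2 j : ℝ) (pJ c' d') i i' x / 2) * rh zf cc (f y ω) x x') := by
        funext x x'
        ring
      rw [e4, PP_smul]
      rw [hEV]
      linarith
    have i2 : Integrable (fun ω => PP (wu μ s N (Pn N y) (uj72 μ s (Pn N y) γ B b j t) ω)
        (fun x x' => ind72 EV ω x * rh zf cc (f y ω) x x')) (Pm μ N) :=
      int_bdd (M := 1 * (2 * F)) (C45.meas_PP45 (meas_wu (meas_uj72 γ B b j t)) fun x x' =>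
        (T72.meas_ind72 mE x).mul (C45.meas_rh45 (hf y hy) x x')) fun ω =>
          C45.abs_PP_le45 _ (fun x x' => mul_nonneg (ind72_nonneg _ _ _) (rh_nonneg _ _ _)) fun x x' =>
            mul_le_mul (ind72_le_one _ _ _) (C45.rh_le45 (hf y hy) ω x x') (rh_nonneg _ _ _) zero_le_one
    have h6 : ∫ ω, PP (wu μ s N (Pn N y) (uj72 μ s (Pn N y) γ B b j t) ω) (fun x x' =>
        mI (wu μ s N (Pn N y) (uj72 μ s (Pn N y) γ B b j t) ω) (pJ c1 z) wl al x *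
        (Gm59 (wm μ s N (Pn N y) ω) (gg μ s (Pn N y) γ B b ω j) (sg ω.2 j : ℝ) (pJ c' d') i i' x * rh zf cc (f y ω) x x')) ∂(Pm μ N) ≤
        2 * ∫ ω, PP (wu μ s N (Pn N y) (uj72 μ s (Pn N y) γ B b j t) ω) (fun x x' => ind72 EV ω x * rh zf cc (f y ω) x x') ∂(Pm μ N) +
          2 * (2 * F * e1) := by
      refine (integral_mono_of_nonneg (Eventually.of_forall fun ω => PP_nonneg _ fun x x' => mul_nonneg (mI_nonneg _ _ _ _ _)
        (mul_nonneg (Gm59_nonneg _ _ _ _ _ _ _) (rh_nonneg _ _ _))) ((i2.const_mul 2).add (integrable_const _))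
        (Eventually.of_forall hpt)).trans (le_of_eq ?_)
      have e5 := integral_add (i2.const_mul 2) (integrable_const (μ := Pm μ N) (2 * (2 * F * e1)))
      simp only [Pi.add_apply] at e5 ⊢
      rw [e5, integral_const_mul, integral_const, measureReal_def, measure_univ, ENNReal.toReal_one, one_smul]
    refine h6.trans ?_
    unfold bT96
    rw [hEV]
    linarith
  have s2 := avy_mono (ys := ys) s1
  rw [avy_add, avy_mul] at s2
  have s3 := avc96 (ys := ys) (x := 4 * er96 N K') (by linarith)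
  -- the events
  have e1 : avy ys (fun y => cP45 μ s N (Pn N y) (fun ω S => Nta (wm μ s N (Pn N y) ω) (pJ c1 z) wl al M S ∧
      TauM (wm μ s N (Pn N y) ω) (pJ c' d') (pJ c' d') i i' M S) zf cc (f y)) ≤ avy ys (rw96 μ s N (one96 N (evF N fun y ω S =>
        Nta (wm μ s N (Pn N y) ω) (pJ c1 z) wl al M S ∧ Tau (wm μ s N (Pn N y) ω) (pJ c' d') i i' M S) zt cc) f) := by
    refine avy_mono fun y hy => ?_
    have := ne_Pn (hys y hy)
    have h5 : (fun (ω : Env × Finset ℕ) (S : Px (Pn N y)) => Nta (wm μ s N (Pn N y) ω) (pJ c1 z) wl al M S ∧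
        TauM (wm μ s N (Pn N y) ω) (pJ c' d') (pJ c' d') i i' M S) = fun ω S => Nta (wm μ s N (Pn N y) ω) (pJ c1 z) wl al M S ∧
          Tau (wm μ s N (Pn N y) ω) (pJ c' d') i i' M S := by
      funext ω S
      exact propext (and_congr_right fun _ => tauM_self _ _ _ _ _ _)
    rw [h5]
    refine to_rwL (E := fun y ω S => Nta (wm μ s N (Pn N y) ω) (pJ c1 z) wl al M S ∧ Tau (wm μ s N (Pn N y) ω) (pJ c' d') i i' M S)
      (fun y' S => ?_) mf bf (hys y hy) hzt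
    have : Nonempty (Px (Pn N y')) := ⟨S⟩
    exact (meas_nta96 _ _ _ _ S).inter (meas_tau96 _ _ _ _ S)
  rw [avy_add, avy_mul] at hb
  have s4 := avc96 (ys := ys) (x := 2 * er96 N K') (by linarith)
  have e4 := mul_le_mul_of_nonneg_left e1 hNe
  unfold cJT
  have e7 : (avy ys fun y => ∫ ω, PP (wv μ s N y γ B b j t ω) (fun x x' => mi (wv μ s N y γ B b j t ω) (pJ c1 z) (NI wl al) x *
        (Gm59 (wm μ s N (Pn N y) ω) (gg μ s (Pn N y) γ B b ω j) (sg ω.2 j : ℝ) (pJ c' d') i i' x * rh zf cc (f y ω) x x')) ∂(Pm μ N)) =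
      avy ys fun y => ∫ ω, PP (wu μ s N (Pn N y) (uj72 μ s (Pn N y) γ B b j t) ω) (fun x x' =>
        mI (wu μ s N (Pn N y) (uj72 μ s (Pn N y) γ B b j t) ω) (pJ c1 z) wl al x *
        (Gm59 (wm μ s N (Pn N y) ω) (gg μ s (Pn N y) γ B b ω j) (sg ω.2 j : ℝ) (pJ c' d') i i' x * rh zf cc (f y ω) x x')) ∂(Pm μ N) := rfl
  rw [e7]
  linarith

end Dg

/-! ### The functionals of the row `j` -/

section Q

variable (μ : Measure ℝ) (s : ℝ) (N b0 b σ gl d l lo q : ℕ) (M : ℝ)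

/-- Own. -/
def qOL (j : ℕ) : Fam2 N := one96 N (LOl μ s N ((j / σ + 1) * σ) (j - b) lo q M) (d - gl) d

/-- Own mass and micro tie given the outside of `(m, e)`, first near slab (`e` = end of the block, or the pin). -/
def q2L1 (e u j : ℕ) : Fam2 N :=
  one96 N (LT2l μ s N (j / σ * σ) ((j / σ + 1) * σ) (j - b) (j - b / 2) e b0 j l q M (j - b / 4 + 1 + u)) (d - gl) d

/-- The same, second near slab. -/
def q2L2 (e u j : ℕ) : Fam2 N :=
  one96 N (LT2l μ s N (j / σ * σ) ((j / σ + 1) * σ) (j - b) (j - b / 2) e b0 j l q M (j - 3 * (b / 8) + 1 + u)) (d - gl) d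

/-- Averaged own mass and micro tie, first near slab. -/
def qpL1 (e u j : ℕ) : Fam2 N :=
  one96 N (LTpl μ s N (j / σ * σ) ((j / σ + 1) * σ) (j - b) lo e b0 j l q M (j - b / 4 + 1 + u)) (d - gl) d

/-- The same, second near slab. -/
def qpL2 (e u j : ℕ) : Fam2 N :=
  one96 N (LTpl μ s N (j / σ * σ) ((j / σ + 1) * σ) (j - b) lo e b0 j l q M (j - 3 * (b / 8) + 1 + u)) (d - gl) d

/-- The own mass averaged given what is behind a row of the macro slab (rows behind `a'`), and micro tie, first near slab. -/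
def q0L1 (a' u j : ℕ) : Fam2 N :=
  one96 N (LT0l μ s N (j - b) lo (d - 6 * gl) b0 j l q M (a' + u / (b / 8)) (j - b / 4 + 1 + u % (b / 8))) (d - gl) d

/-- The same, second near slab. -/
def q0L2 (a' u j : ℕ) : Fam2 N :=
  one96 N (LT0l μ s N (j - b) lo (d - 6 * gl) b0 j l q M (a' + u / (b / 8)) (j - 3 * (b / 8) + 1 + u % (b / 8))) (d - gl) d

/-- Own and long. -/
def qgL (a' u j : ℕ) : Fam2 N :=
  one96 N (LLg μ s N ((j / σ + 1) * σ) (j - b) lo q ((j / σ + 1) * σ) (d - 6 * gl) M (a' + u)) (d - gl) d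

/-- Own (mass) and the pairs of the window, events of the base path. -/
def LDl (j : ℕ) : Fam N := evF N fun y ω S => Nta (wm μ s N (Pn N y) ω) (pJ (j / σ * σ) ((j / σ + 1) * σ)) (j - b) (j - b / 2) M S ∧
  Tau (wm μ s N (Pn N y) ω) (pJ (j - b) (j + b)) (j - b / 8) (j - b0) M S

def qDL (j : ℕ) : Fam2 N := one96 N (LDl μ s N b0 b σ M j) (d - gl) d

end Q

/-! ### The named majorants of the row `j` of part L at the tilted weights -/

section Maj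

variable (μ : Measure ℝ) (s : ℝ) (N y : ℕ) (γ B : ℝ) (b0 b σ gl d j : ℕ) (t : ℝ) (f : Fam N)

/-- Own. -/
def lO : ℝ := ∫ ω, PP (wj μ s N (Pn N y) γ B b0 j ω t) (fun x x' => mi (wj μ s N (Pn N y) γ B b0 j ω t)
  (pJ (j / σ * σ) ((j / σ + 1) * σ)) (NI (j - b) (j - b / 2)) x * rh (d - gl) d (f y ω) x x') ∂(Pm μ N)

/-- `G1` for the near slab `J`, pinned at `d - 6 gl`. -/
def lG (J : Finset ℕ) (α β : ℝ) : ℝ := ∫ ω, G1 (wj μ s N (Pn N y) γ B b0 j ω t) (pJ (j / σ * σ) ((j / σ + 1) * σ))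
  (NI (j - b) (j - b / 2)) (rh (d - gl) d (f y ω)) (nn (wj μ s N (Pn N y) γ B b0 j ω t) J (fun m => pJ m (d - 6 * gl))
    (gg μ s (Pn N y) γ B b0 ω j)) α β ∂(Pm μ N)

/-- `T0Q` for the near slab `J` and the macro slab `J'`. -/
def lT (J' J : Finset ℕ) : ℝ := ∫ ω, T0Q (wj μ s N (Pn N y) γ B b0 j ω t) (pJ (j / σ * σ) ((j / σ + 1) * σ)) J' (pJ 0)
  (NI (j - b) (j - b / 2)) (rh (d - gl) d (f y ω)) (nn (wj μ s N (Pn N y) γ B b0 j ω t) J (fun m => pJ m (d - 6 * gl))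
    (gg μ s (Pn N y) γ B b0 ω j)) ∂(Pm μ N)

/-- Long, for the macro slab `J'`. -/
def lL (J' : Finset ℕ) : ℝ := ∫ ω, Lng (wj μ s N (Pn N y) γ B b0 j ω t) (pJ (j / σ * σ) ((j / σ + 1) * σ)) J' ((j / σ + 1) * σ)
  (d - 6 * gl) (NI (j - b) (j - b / 2)) (rh (d - gl) d (f y ω)) ∂(Pm μ N)

/-- The pairs of the window. -/
def lD : ℝ := ∫ ω, PP (wj μ s N (Pn N y) γ B b0 j ω t) (fun x x' => mi (wj μ s N (Pn N y) γ B b0 j ω t)
  (pJ (j / σ * σ) ((j / σ + 1) * σ)) (NI (j - b) (j - b / 2)) x * (Gm59 (wm μ s N (Pn N y) ω) (gg μ s (Pn N y) γ B b0 ω j)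
    (sg ω.2 j : ℝ) (pW b j) (j - b / 8) (j - b0) x * rh (d - gl) d (f y ω) x x')) ∂(Pm μ N)

/-- The part with three levels of the row `j`, own averaged given what is behind the row `m'`. -/
def lJ (μ : Measure ℝ) (s : ℝ) (N : ℕ) (γ B : ℝ) (b0 b σ gl d j : ℕ) (δ M : ℝ) (f : Fam N) (m' y : ℕ) : ℝ :=
  cJT μ s N γ B b0 j (j + b0 + b / 16) δ M (j / σ * σ) ((j / σ + 1) * σ) (j - b) (j - b / 2) m' (d - gl) d f y

end Maj

section Eq

variable {μ : Measure ℝ} {s : ℝ} {N y : ℕ} {γ B : ℝ} {b0 b σ gl d j : ℕ} {t : ℝ} {f : Fam N} [Nonempty (Px (Pn N y))]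

theorem eLO96 : ∫ ω, EL65.LO μ s N γ B b0 (b / 2) b σ j (d - gl) d f t y ω ∂(Pm μ N) = lO μ s N y γ B b0 b σ gl d j t f := rfl

theorem eLM96 (J : Finset ℕ) (α β : ℝ) : ∫ ω, EL65.LM μ s N γ B b0 (b / 2) b σ j (d - gl) d f t y (d - 6 * gl) J α β ω ∂(Pm μ N) =
    lG μ s N y γ B b0 b σ gl d j t f J α β := rfl

theorem eLQ96 (J J' : Finset ℕ) : ∫ ω, EL65.LQ μ s N γ B b0 (b / 2) b σ j (d - gl) d f t y (d - 6 * gl) J J' ω ∂(Pm μ N) =
    lT μ s N y γ B b0 b σ gl d j t f J' J := rfl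

theorem eLL96 (J' : Finset ℕ) : ∫ ω, EL65.LLg μ s N γ B b0 (b / 2) b σ j (d - gl) d f t y (d - 6 * gl) J' ω ∂(Pm μ N) =
    lL μ s N y γ B b0 b σ gl d j t f J' := rfl

theorem eLG96 : ∫ ω, EL65.LG μ s N γ B b0 (b / 2) b σ j (d - gl) d f t y (j - b / 8) ω ∂(Pm μ N) =
    B / 2 * (B / 2) * lD μ s N y γ B b0 b σ gl d j t f := by
  unfold lD
  rw [← integral_const_mul]
  congr 1
  funext ω
  unfold EL65.LG
  rw [← PP_smul]
  congr 1
  funext x x'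
  have key : ∀ p q r g : ℝ, p * ((g * q) * r) = g * (p * (q * r)) := fun p q r g => by ring
  exact key _ _ _ _

end Eq

/-! ### The data of a row -/

/-- The data of a row of part L, for the ends `ys`. The last four fields: the flips. -/
structure Dl96 (μ : Measure ℝ) (s : ℝ) (N : ℕ) (ys : Finset ℕ) (γ B : ℝ) (b0 b σ gl c d j : ℕ) (t : ℝ) (ε εM K' M D δ e0 : ℝ)
    (l lo q : ℕ) (f : Fam N) : Prop where
  X : G43 N b0 b σ gl d j
  hys : ∀ y ∈ ys, y ≤ N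
  R : ∀ y ∈ ys, RL45 μ s N (Pn N y) γ B b0 j t (j + b0) (b / 16) ε εM K'
  hM : (N : ℝ) ^ εM ≤ M / 2
  hN : (64 : ℝ) ≤ N
  hB0 : 0 ≤ B
  hBN : B ≤ N
  hδ : 0 ≤ δ
  hδ1 : δ ≤ 1
  hε0 : 0 ≤ ε
  hε1 : ε ≤ 1
  hq : 10 * M ≤ q
  hq' : (q : ℝ) ≤ 20 * M
  hl : 3 * q * (l + 1) ≤ b0
  hlo : 3 * q * (lo + 1) ≤ b / 2
  hf : Cls59 N c d D f
  hD0 : 0 ≤ D
  hD : D ≤ (N : ℝ) ^ 3
  f2 : ∀ m ∈ nL1 b j ∪ nL2 b j, Flp45 μ s N ys γ B b0 j t δ (j + b0) (b / 16) (d - gl) d f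
    (fun y w M => Nta w (pJ (Q := Pn N y) (j / σ * σ) ((j / σ + 1) * σ)) (j - b) (j - b / 2) M)
    (fun y => pJ (Q := Pn N y) m ((j / σ + 1) * σ)) (fun y => pJ (Q := Pn N y) m (d - 6 * gl)) (M / 2 + 2 * B) e0
  fp : ∀ m ∈ nL1 b j ∪ nL2 b j, Flp45 μ s N ys γ B b0 j t δ (j + b0) (b / 16) (d - gl) d f
    (fun y w M => TauM w (pJ (Q := Pn N y) (j / σ * σ) ((j / σ + 1) * σ)) (pJ (Q := Pn N y) (j / σ * σ) ((j / σ + 1) * σ))
      (j - b) (j - b / 2) M)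
    (fun y => pJ (Q := Pn N y) m ((j / σ + 1) * σ)) (fun y => pJ (Q := Pn N y) m (d - 6 * gl)) (M / 2 + 2 * B) e0
  f0 : ∀ m' ∈ mc3 gl d ∪ mc4 gl d, ∀ m ∈ nL1 b j ∪ nL2 b j, Flp45 μ s N ys γ B b0 j t δ (j + b0) (b / 16) (d - gl) d f
    (fun y w M => TauM w (pJ (Q := Pn N y) 0 m') (pJ (Q := Pn N y) (j / σ * σ) ((j / σ + 1) * σ)) (j - b) (j - b / 2) M)
    (fun y => pJ (Q := Pn N y) m (d - 6 * gl)) (fun y => pJ (Q := Pn N y) m (d - 6 * gl)) (M / 2 + 2 * B) e0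
  fD : FlpB96 μ s N ys γ B b0 j t δ (j + b0) (b / 16) (d - gl) d f
    (fun y w M S => Nta w (pJ (Q := Pn N y) (j / σ * σ) ((j / σ + 1) * σ)) (j - b) (j - b / 2) M S ∧
      TauM w (pJ (Q := Pn N y) (j - b) (j + b)) (pJ (j - b) (j + b)) (j - b / 8) (j - b0) M S) (M / 2 + 2 * B) e0

/-- The geometry of a row: what the corner asks, part L. -/
theorem geoL96 {N b0 b σ gl d j : ℕ} (X : G43 N b0 b σ gl d j) : j / σ * σ ≤ j - b ∧ j + b0 + b / 16 ≤ (j / σ + 1) * σ ∧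
    (j / σ + 1) * σ ≤ d - 6 * gl ∧ (j / σ + 1) * σ ≤ d - gl ∧ d - gl ≤ d ∧ b0 ≤ j ∧ 0 < b / 8 ∧ 0 < gl ∧ j + b0 ≤ (j / σ + 1) * σ ∧
    nL1 b j = Ico (j - b / 4 + 1) (j - b / 4 + 1 + b / 8) ∧ nL2 b j = Ico (j - 3 * (b / 8) + 1) (j - 3 * (b / 8) + 1 + b / 8) ∧
    mc3 gl d = Ico (d - 5 * gl + 1) (d - 5 * gl + 1 + gl) ∧ mc4 gl d = Ico (d - 3 * gl + 1) (d - 3 * gl + 1 + gl) ∧
    j - b / 2 ≤ (j / σ + 1) * σ ∧ j - b + b / 2 ≤ j - b / 2 ∧ j / σ * σ ≤ j - b / 4 + 1 ∧ j / σ * σ ≤ j - 3 * (b / 8) + 1 ∧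
    j - b / 2 ≤ j - b / 4 + 1 ∧ j - b / 2 ≤ j - 3 * (b / 8) + 1 ∧ j - b / 4 + 1 + b / 8 ≤ j - b0 + 1 ∧
    j - 3 * (b / 8) + 1 + b / 8 ≤ j - b0 + 1 ∧ d - 6 * gl ≤ d - 5 * gl + 1 ∧ d - 6 * gl ≤ d - 3 * gl + 1 ∧
    d - 5 * gl + 1 + gl ≤ d - gl + 1 ∧ d - 3 * gl + 1 + gl ≤ d - gl + 1 ∧ d ≤ N := by
  obtain ⟨h1, h2, h3, h4, h5⟩ := X.b8
  have g1 := X.rng
  have g2 := X.bp
  have g3 := X.lo
  have g4 := X.glp
  have g5 := X.b0p
  refine ⟨by omega, by omega, by omega, by omega, by omega, by omega, by omega, by omega, by omega, ?_, ?_, ?_, ?_, by omega, by omega,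
    by omega, by omega, by omega, by omega, by omega, by omega, by omega, by omega, by omega, by omega, by omega⟩
  · ext r
    unfold nL1
    rw [mem_Ioc, mem_Ico]
    omega
  · ext r
    unfold nL2
    rw [mem_Ioc, mem_Ico]
    omega
  · ext r
    unfold mc3
    rw [mem_Ioc, mem_Ico]
    omega
  · ext r
    unfold mc4
    rw [mem_Ioc, mem_Ico]
    omega

namespace Dl96

variable {μ : Measure ℝ} {s : ℝ} {N : ℕ} [IsProbabilityMeasure μ] {ys : Finset ℕ} {γ B : ℝ} {b0 b σ gl c d j : ℕ} {t : ℝ}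
  {ε εM K' M D δ e0 : ℝ} {l lo q : ℕ} {f : Fam N}

theorem sp (Z : Dl96 μ s N ys γ B b0 b σ gl c d j t ε εM K' M D δ e0 l lo q f) : ∀ y ∈ ys, Sp72 (Pn N y) d D (j + b0) (b / 16) (f y) :=
  fun y hy => by
    have g0 := Z.X.rng
    obtain ⟨k1, k2, k3, k4, k5⟩ := Z.X.b8
    have := ne_Pn (Z.hys y hy)
    exact sp72_of_cls Z.hf le_rfl (by omega) y

theorem own (Z : Dl96 μ s N ys γ B b0 b σ gl c d j t ε εM K' M D δ e0 l lo q f) : avy ys (fun y => lO μ s N y γ B b0 b σ gl d j t f) ≤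
    (N : ℝ) ^ ε * avy ys (rw96 μ s N (qOL μ s N b σ gl d lo q M j) f) + 6 * N ^ 2 * er96 N K' := by
  obtain ⟨g1, g2, g3, g4, g5, g6, g7, g8, g9, g10, g11, g12, g13, g14, g15, g16, g17, g18, g19, g20, g21, g22, g23, g24, g25, g26⟩ :=
    geoL96 Z.X
  have hN := Z.hN
  have her : 0 ≤ er96 N K' := by unfold er96; positivity
  have hM' : (N : ℝ) ^ εM ≤ M := Z.hM.trans (by
    have : 0 ≤ (N : ℝ) ^ εM := Real.rpow_nonneg (by linarith) _
    have := Z.hM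
    linarith)
  have h1 : avy ys (fun y => lO μ s N y γ B b0 b σ gl d j t f) ≤ avy ys (fun y => (N : ℝ) ^ ε *
      rw96 μ s N (qOL μ s N b σ gl d lo q M j) f y + 2 * N * er96 N K') := by
    refine avy_mono fun y hy => ?_
    have := ne_Pn (Z.hys y hy)
    have h := ownCL (zt := d - gl) (Z.R y hy) hM' Z.hq Z.hq' g1 (lo := lo) (by have := Z.hlo; omega) g14 g2 g4 g5 le_rfl (Z.sp y hy) Z.hD
      Z.hf.meas Z.hf.bdd (Z.hys y hy)
    unfold lO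
    simp only [wv_eq] at h
    exact h
  refine h1.trans ?_
  rw [avy_add, avy_mul]
  refine add_le_add le_rfl ((avy_cle (by positivity) ys).trans (mul_le_mul_of_nonneg_right ?_ her))
  nlinarith

/-- `G1` for the first near slab. -/
theorem g1 (Z : Dl96 μ s N ys γ B b0 b σ gl c d j t ε εM K' M D δ e0 l lo q f) {α β : ℝ} (hα : 0 ≤ α) (hβ : 0 ≤ β) :
    avy ys (fun y => lG μ s N y γ B b0 b σ gl d j t f (nL1 b j) α β) ≤
      α * (2 * (B * ((N : ℝ) ^ ε * (avy ys (mR μ s N (b / 8) (fun u => q2L1 μ s N b0 b σ gl d l q M ((j / σ + 1) * σ) u j) f) +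
        avy ys (mR μ s N (b / 8) (fun u => q2L1 μ s N b0 b σ gl d l q M (d - 6 * gl) u j) f)))) +
        B * ((N : ℝ) ^ ε * avy ys (lJ μ s N γ B b0 b σ gl d j δ M f ((j / σ + 1) * σ)))) +
      β * (2 * (B * ((N : ℝ) ^ ε * (avy ys (mR μ s N (b / 8) (fun u => qpL1 μ s N b0 b σ gl d l lo q M ((j / σ + 1) * σ) u j) f) +
        avy ys (mR μ s N (b / 8) (fun u => qpL1 μ s N b0 b σ gl d l lo q M (d - 6 * gl) u j) f)))) +
        B * ((N : ℝ) ^ ε * avy ys (lJ μ s N γ B b0 b σ gl d j δ M f ((j / σ + 1) * σ)))) +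
      (α + β) * (6 * N ^ 2 * er96 N K' + e0) := by
  obtain ⟨g1, g2, g3, g4, g5, g6, g7, g8, g9, g10, g11, g12, g13, g14, g15, g16, g17, g18, g19, g20, g21, g22, g23, g24, g25, g26⟩ :=
    geoL96 Z.X
  have h := g1CT (zt := d - gl) (lo := lo) Z.hys Z.R Z.hM Z.hN Z.hB0 Z.hBN Z.hδ Z.hδ1 Z.hq Z.hq' g6 Z.hl Z.sp Z.hD g7
    (a := j - b / 4 + 1) g16 g18 g20 g2 g3 g9 g4 g5 le_rfl g1 (by have := Z.hlo; omega) g14 Z.hε0 Z.hε1 Z.hf.meas Z.hf.bdd
    (e0 := e0) (fun m hm => Z.f2 m (mem_union_left _ (by rwa [g10]))) (fun m hm => Z.fp m (mem_union_left _ (by rwa [g10]))) hα hβ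
  unfold lG
  rw [g10]
  simp only [wv_eq] at h
  exact h

/-- `G1` for the second near slab. -/
theorem g2 (Z : Dl96 μ s N ys γ B b0 b σ gl c d j t ε εM K' M D δ e0 l lo q f) {α β : ℝ} (hα : 0 ≤ α) (hβ : 0 ≤ β) :
    avy ys (fun y => lG μ s N y γ B b0 b σ gl d j t f (nL2 b j) α β) ≤
      α * (2 * (B * ((N : ℝ) ^ ε * (avy ys (mR μ s N (b / 8) (fun u => q2L2 μ s N b0 b σ gl d l q M ((j / σ + 1) * σ) u j) f) +
        avy ys (mR μ s N (b / 8) (fun u => q2L2 μ s N b0 b σ gl d l q M (d - 6 * gl) u j) f)))) +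
        B * ((N : ℝ) ^ ε * avy ys (lJ μ s N γ B b0 b σ gl d j δ M f ((j / σ + 1) * σ)))) +
      β * (2 * (B * ((N : ℝ) ^ ε * (avy ys (mR μ s N (b / 8) (fun u => qpL2 μ s N b0 b σ gl d l lo q M ((j / σ + 1) * σ) u j) f) +
        avy ys (mR μ s N (b / 8) (fun u => qpL2 μ s N b0 b σ gl d l lo q M (d - 6 * gl) u j) f)))) +
        B * ((N : ℝ) ^ ε * avy ys (lJ μ s N γ B b0 b σ gl d j δ M f ((j / σ + 1) * σ)))) +
      (α + β) * (6 * N ^ 2 * er96 N K' + e0) := by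
  obtain ⟨g1, g2, g3, g4, g5, g6, g7, g8, g9, g10, g11, g12, g13, g14, g15, g16, g17, g18, g19, g20, g21, g22, g23, g24, g25, g26⟩ :=
    geoL96 Z.X
  have h := g1CT (zt := d - gl) (lo := lo) Z.hys Z.R Z.hM Z.hN Z.hB0 Z.hBN Z.hδ Z.hδ1 Z.hq Z.hq' g6 Z.hl Z.sp Z.hD g7
    (a := j - 3 * (b / 8) + 1) g17 g19 g21 g2 g3 g9 g4 g5 le_rfl g1 (by have := Z.hlo; omega) g14 Z.hε0 Z.hε1 Z.hf.meas Z.hf.bdd
    (e0 := e0) (fun m hm => Z.f2 m (mem_union_right _ (by rwa [g11]))) (fun m hm => Z.fp m (mem_union_right _ (by rwa [g11]))) hα hβ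
  unfold lG
  rw [g11]
  simp only [wv_eq] at h
  exact h

/-- `T0Q`, first near slab, first macro slab. -/
theorem t13 (Z : Dl96 μ s N ys γ B b0 b σ gl c d j t ε εM K' M D δ e0 l lo q f) :
    avy ys (fun y => lT μ s N y γ B b0 b σ gl d j t f (mc3 gl d) (nL1 b j)) ≤
      2 * (B * ((N : ℝ) ^ ε * avy ys (mR μ s N (gl * (b / 8)) (fun u => q0L1 μ s N b0 b gl d l lo q M (d - 5 * gl + 1) u j) f))) +
      B * ((N : ℝ) ^ ε * avy ys (fun y => (gl : ℝ)⁻¹ * ∑ v ∈ range gl, lJ μ s N γ B b0 b σ gl d j δ M f (d - 5 * gl + 1 + v) y)) +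
      (6 * N ^ 2 * er96 N K' + e0) := by
  obtain ⟨g1, g2, g3, g4, g5, g6, g7, g8, g9, g10, g11, g12, g13, g14, g15, g16, g17, g18, g19, g20, g21, g22, g23, g24, g25, g26⟩ :=
    geoL96 Z.X
  have hN := Z.hN
  have her : 0 ≤ er96 N K' := by unfold er96; positivity
  have h := t0CT (zt := d - gl) (lo := lo) (z := (j / σ + 1) * σ) (c1 := j / σ * σ) (wl := j - b) (al := j - b / 2) (e := d - 6 * gl)
    Z.hys Z.R Z.hM Z.hN Z.hB0 Z.hBN Z.hδ Z.hδ1 Z.hq Z.hq' g6 Z.hl Z.sp Z.hD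
    (a := j - b / 4 + 1) (a' := d - 5 * gl + 1) g7 g8 g20 (g2.trans g3) (g9.trans g3) g22 g24 g5 le_rfl g1 (by have := Z.hlo; omega) g14
    (g3.trans g22) Z.hε0 Z.hε1 Z.hf.meas Z.hf.bdd
    (e0 := e0) (fun v hv m hm => Z.f0 _ (mem_union_left _ (by rw [g12, mem_Ico]; omega)) m (mem_union_left _ (by rwa [g10])))
  have h5 : 5 * (N : ℝ) ^ 2 * er96 N K' + e0 ≤ 6 * N ^ 2 * er96 N K' + e0 := by
    have : 0 ≤ (N : ℝ) ^ 2 * er96 N K' := by positivity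
    linarith
  unfold lT
  rw [g10, g12]
  simp only [wv_eq] at h
  exact h.trans (add_le_add le_rfl h5)

/-- `T0Q`, second near slab, first macro slab. -/
theorem t23 (Z : Dl96 μ s N ys γ B b0 b σ gl c d j t ε εM K' M D δ e0 l lo q f) :
    avy ys (fun y => lT μ s N y γ B b0 b σ gl d j t f (mc3 gl d) (nL2 b j)) ≤
      2 * (B * ((N : ℝ) ^ ε * avy ys (mR μ s N (gl * (b / 8)) (fun u => q0L2 μ s N b0 b gl d l lo q M (d - 5 * gl + 1) u j) f))) +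
      B * ((N : ℝ) ^ ε * avy ys (fun y => (gl : ℝ)⁻¹ * ∑ v ∈ range gl, lJ μ s N γ B b0 b σ gl d j δ M f (d - 5 * gl + 1 + v) y)) +
      (6 * N ^ 2 * er96 N K' + e0) := by
  obtain ⟨g1, g2, g3, g4, g5, g6, g7, g8, g9, g10, g11, g12, g13, g14, g15, g16, g17, g18, g19, g20, g21, g22, g23, g24, g25, g26⟩ :=
    geoL96 Z.X
  have hN := Z.hN
  have her : 0 ≤ er96 N K' := by unfold er96; positivity
  have h := t0CT (zt := d - gl) (lo := lo) (z := (j / σ + 1) * σ) (c1 := j / σ * σ) (wl := j - b) (al := j - b / 2) (e := d - 6 * gl)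
    Z.hys Z.R Z.hM Z.hN Z.hB0 Z.hBN Z.hδ Z.hδ1 Z.hq Z.hq' g6 Z.hl Z.sp Z.hD
    (a := j - 3 * (b / 8) + 1) (a' := d - 5 * gl + 1) g7 g8 g21 (g2.trans g3) (g9.trans g3) g22 g24 g5 le_rfl g1 (by have := Z.hlo; omega)
    g14 (g3.trans g22) Z.hε0 Z.hε1 Z.hf.meas Z.hf.bdd
    (e0 := e0) (fun v hv m hm => Z.f0 _ (mem_union_left _ (by rw [g12, mem_Ico]; omega)) m (mem_union_right _ (by rwa [g11])))
  have h5 : 5 * (N : ℝ) ^ 2 * er96 N K' + e0 ≤ 6 * N ^ 2 * er96 N K' + e0 := by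
    have : 0 ≤ (N : ℝ) ^ 2 * er96 N K' := by positivity
    linarith
  unfold lT
  rw [g11, g12]
  simp only [wv_eq] at h
  exact h.trans (add_le_add le_rfl h5)

/-- `T0Q`, first near slab, second macro slab. -/
theorem t14 (Z : Dl96 μ s N ys γ B b0 b σ gl c d j t ε εM K' M D δ e0 l lo q f) :
    avy ys (fun y => lT μ s N y γ B b0 b σ gl d j t f (mc4 gl d) (nL1 b j)) ≤
      2 * (B * ((N : ℝ) ^ ε * avy ys (mR μ s N (gl * (b / 8)) (fun u => q0L1 μ s N b0 b gl d l lo q M (d - 3 * gl + 1) u j) f))) +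
      B * ((N : ℝ) ^ ε * avy ys (fun y => (gl : ℝ)⁻¹ * ∑ v ∈ range gl, lJ μ s N γ B b0 b σ gl d j δ M f (d - 3 * gl + 1 + v) y)) +
      (6 * N ^ 2 * er96 N K' + e0) := by
  obtain ⟨g1, g2, g3, g4, g5, g6, g7, g8, g9, g10, g11, g12, g13, g14, g15, g16, g17, g18, g19, g20, g21, g22, g23, g24, g25, g26⟩ :=
    geoL96 Z.X
  have hN := Z.hN
  have her : 0 ≤ er96 N K' := by unfold er96; positivity
  have h := t0CT (zt := d - gl) (lo := lo) (z := (j / σ + 1) * σ) (c1 := j / σ * σ) (wl := j - b) (al := j - b / 2) (e := d - 6 * gl)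
    Z.hys Z.R Z.hM Z.hN Z.hB0 Z.hBN Z.hδ Z.hδ1 Z.hq Z.hq' g6 Z.hl Z.sp Z.hD
    (a := j - b / 4 + 1) (a' := d - 3 * gl + 1) g7 g8 g20 (g2.trans g3) (g9.trans g3) g23 g25 g5 le_rfl g1 (by have := Z.hlo; omega) g14
    (g3.trans g23) Z.hε0 Z.hε1 Z.hf.meas Z.hf.bdd
    (e0 := e0) (fun v hv m hm => Z.f0 _ (mem_union_right _ (by rw [g13, mem_Ico]; omega)) m (mem_union_left _ (by rwa [g10])))
  have h5 : 5 * (N : ℝ) ^ 2 * er96 N K' + e0 ≤ 6 * N ^ 2 * er96 N K' + e0 := by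
    have : 0 ≤ (N : ℝ) ^ 2 * er96 N K' := by positivity
    linarith
  unfold lT
  rw [g10, g13]
  simp only [wv_eq] at h
  exact h.trans (add_le_add le_rfl h5)

/-- **LONG.** -/
theorem lg (Z : Dl96 μ s N ys γ B b0 b σ gl c d j t ε εM K' M D δ e0 l lo q f) {a' : ℕ} (h1 : d - 6 * gl ≤ a') (h2 : a' + gl ≤ d - gl + 1) :
    avy ys (fun y => lL μ s N y γ B b0 b σ gl d j t f (Ico a' (a' + gl))) ≤
      (N : ℝ) ^ ε * avy ys (mR μ s N gl (fun u => qgL μ s N b σ gl d lo q M a' u j) f) + 6 * N ^ 2 * er96 N K' := by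
  obtain ⟨g1, g2, g3, g4, g5, g6, g7, g8, g9, g10, g11, g12, g13, g14, g15, g16, g17, g18, g19, g20, g21, g22, g23, g24, g25, g26⟩ :=
    geoL96 Z.X
  have hN := Z.hN
  have her : 0 ≤ er96 N K' := by unfold er96; positivity
  have hM' : (N : ℝ) ^ εM ≤ M := Z.hM.trans (by
    have : 0 ≤ (N : ℝ) ^ εM := Real.rpow_nonneg (by linarith) _
    have := Z.hM
    linarith)
  have h3 : avy ys (fun y => lL μ s N y γ B b0 b σ gl d j t f (Ico a' (a' + gl))) ≤ avy ys (fun y => (N : ℝ) ^ ε *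
      mR μ s N gl (fun u => qgL μ s N b σ gl d lo q M a' u j) f y + 2 * N * er96 N K') := by
    refine avy_mono fun y hy => ?_
    have := ne_Pn (Z.hys y hy)
    have h := lgCL (zt := d - gl) (Z.R y hy) hM' Z.hq Z.hq' (lo := lo) (c1 := j / σ * σ) (z := (j / σ + 1) * σ) g1
      (by have := Z.hlo; omega) g14 g2 le_rfl g3 g8 h1 h2 g5 le_rfl (Z.sp y hy) Z.hD Z.hf.meas Z.hf.bdd (Z.hys y hy)
    unfold lL
    simp only [wv_eq] at h
    exact h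
  refine h3.trans ?_
  rw [avy_add, avy_mul]
  refine add_le_add le_rfl ((avy_cle (by positivity) ys).trans (mul_le_mul_of_nonneg_right ?_ her))
  nlinarith

/-- The pairs of the window. -/
theorem dg (Z : Dl96 μ s N ys γ B b0 b σ gl c d j t ε εM K' M D δ e0 l lo q f) :
    avy ys (fun y => lD μ s N y γ B b0 b σ gl d j t f) ≤
      4 * ((N : ℝ) ^ ε * avy ys (rw96 μ s N (qDL μ s N b0 b σ gl d M j) f)) +
      2 * ((N : ℝ) ^ ε * avy ys (lJ μ s N γ B b0 b σ gl d j δ M f ((j / σ + 1) * σ))) + (6 * N ^ 2 * er96 N K' + 2 * e0) := by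
  obtain ⟨g1, g2, g3, g4, g5, g6, g7, g8, g9, g10, g11, g12, g13, g14, g15, g16, g17, g18, g19, g20, g21, g22, g23, g24, g25, g26⟩ :=
    geoL96 Z.X
  have hN := Z.hN
  have her : 0 ≤ er96 N K' := by unfold er96; positivity
  have h := dgM96 (zt := d - gl) Z.hys Z.R Z.hM Z.hN Z.hδ Z.hδ1 Z.sp Z.hD0 Z.hD (c1 := j / σ * σ) (z := (j / σ + 1) * σ) (wl := j - b)
    (al := j - b / 2) g2 g4 g5 le_rfl Z.hf.meas Z.hf.bdd Z.fD
  have h5 : 12 * er96 N K' + 2 * e0 ≤ 6 * N ^ 2 * er96 N K' + 2 * e0 := by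
    have : 12 * er96 N K' ≤ 6 * N ^ 2 * er96 N K' := mul_le_mul_of_nonneg_right (by nlinarith) her
    linarith
  unfold lD
  simp only [wv_eq] at h
  exact h.trans (add_le_add le_rfl h5)

/-- The list of the row `j`, part L. -/
def lst (μ : Measure ℝ) (s : ℝ) (N : ℕ) (γ B : ℝ) (b0 b σ gl d j : ℕ) (ε M δ : ℝ) (l lo q : ℕ) (f : Fam N)
    (A0 A1 A2 A3 B1 B2 B3 D3 D4 α β α' β' : ℝ) (y : ℕ) : ℝ :=
  (A0 * (N : ℝ) ^ ε) * rw96 μ s N (qOL μ s N b σ gl d lo q M j) f y +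
  (2 * A1 * α * B * (N : ℝ) ^ ε) * mR μ s N (b / 8) (fun u => q2L2 μ s N b0 b σ gl d l q M ((j / σ + 1) * σ) u j) f y +
  (2 * A1 * α * B * (N : ℝ) ^ ε) * mR μ s N (b / 8) (fun u => q2L2 μ s N b0 b σ gl d l q M (d - 6 * gl) u j) f y +
  (2 * A1 * β * B * (N : ℝ) ^ ε) * mR μ s N (b / 8) (fun u => qpL2 μ s N b0 b σ gl d l lo q M ((j / σ + 1) * σ) u j) f y +
  (2 * A1 * β * B * (N : ℝ) ^ ε) * mR μ s N (b / 8) (fun u => qpL2 μ s N b0 b σ gl d l lo q M (d - 6 * gl) u j) f y +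
  (2 * A2 * α' * B * (N : ℝ) ^ ε) * mR μ s N (b / 8) (fun u => q2L1 μ s N b0 b σ gl d l q M ((j / σ + 1) * σ) u j) f y +
  (2 * A2 * α' * B * (N : ℝ) ^ ε) * mR μ s N (b / 8) (fun u => q2L1 μ s N b0 b σ gl d l q M (d - 6 * gl) u j) f y +
  (2 * A2 * β' * B * (N : ℝ) ^ ε) * mR μ s N (b / 8) (fun u => qpL1 μ s N b0 b σ gl d l lo q M ((j / σ + 1) * σ) u j) f y +
  (2 * A2 * β' * B * (N : ℝ) ^ ε) * mR μ s N (b / 8) (fun u => qpL1 μ s N b0 b σ gl d l lo q M (d - 6 * gl) u j) f y +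
  (2 * B1 * B * (N : ℝ) ^ ε) * mR μ s N (gl * (b / 8)) (fun u => q0L2 μ s N b0 b gl d l lo q M (d - 5 * gl + 1) u j) f y +
  (2 * B2 * B * (N : ℝ) ^ ε) * mR μ s N (gl * (b / 8)) (fun u => q0L1 μ s N b0 b gl d l lo q M (d - 5 * gl + 1) u j) f y +
  (2 * B3 * B * (N : ℝ) ^ ε) * mR μ s N (gl * (b / 8)) (fun u => q0L1 μ s N b0 b gl d l lo q M (d - 3 * gl + 1) u j) f y +
  (D3 * (N : ℝ) ^ ε) * mR μ s N gl (fun u => qgL μ s N b σ gl d lo q M (d - 5 * gl + 1) u j) f y +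
  (D4 * (N : ℝ) ^ ε) * mR μ s N gl (fun u => qgL μ s N b σ gl d lo q M (d - 3 * gl + 1) u j) f y +
  (4 * A3 * (N : ℝ) ^ ε) * rw96 μ s N (qDL μ s N b0 b σ gl d M j) f y +
  (((A1 * (α + β) + A2 * (α' + β')) * B + 2 * A3) * (N : ℝ) ^ ε) * lJ μ s N γ B b0 b σ gl d j δ M f ((j / σ + 1) * σ) y +
  ((B1 + B2) * B * (N : ℝ) ^ ε) * ((gl : ℝ)⁻¹ * ∑ v ∈ range gl, lJ μ s N γ B b0 b σ gl d j δ M f (d - 5 * gl + 1 + v) y) +
  (B3 * B * (N : ℝ) ^ ε) * ((gl : ℝ)⁻¹ * ∑ v ∈ range gl, lJ μ s N γ B b0 b σ gl d j δ M f (d - 3 * gl + 1 + v) y)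

/-- **THE END OF THE ROW, PART L.** -/
theorem rowL (Z : Dl96 μ s N ys γ B b0 b σ gl c d j t ε εM K' M D δ e0 l lo q f) {V : ℕ → ℝ}
    {A0 A1 A2 A3 B1 B2 B3 D3 D4 α β α' β' e : ℝ}
    (hA0 : 0 ≤ A0) (hA1 : 0 ≤ A1) (hA2 : 0 ≤ A2) (hA3 : 0 ≤ A3) (hB1 : 0 ≤ B1) (hB2 : 0 ≤ B2) (hB3 : 0 ≤ B3) (hD3 : 0 ≤ D3)
    (hD4 : 0 ≤ D4) (hα : 0 ≤ α) (hβ : 0 ≤ β) (hα' : 0 ≤ α') (hβ' : 0 ≤ β') (he0 : 0 ≤ e0) (he : 0 ≤ e)
    (hV : ∀ y ∈ ys, ∀ [Nonempty (Px (Pn N y))], V y ≤ A0 * lO μ s N y γ B b0 b σ gl d j t f +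
      A1 * lG μ s N y γ B b0 b σ gl d j t f (nL2 b j) α β + A2 * lG μ s N y γ B b0 b σ gl d j t f (nL1 b j) α' β' +
      B1 * lT μ s N y γ B b0 b σ gl d j t f (mc3 gl d) (nL2 b j) + B2 * lT μ s N y γ B b0 b σ gl d j t f (mc3 gl d) (nL1 b j) +
      B3 * lT μ s N y γ B b0 b σ gl d j t f (mc4 gl d) (nL1 b j) + D3 * lL μ s N y γ B b0 b σ gl d j t f (mc3 gl d) +
      D4 * lL μ s N y γ B b0 b σ gl d j t f (mc4 gl d) + A3 * lD μ s N y γ B b0 b σ gl d j t f + e) :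
    avy ys V ≤ avy ys (lst μ s N γ B b0 b σ gl d j ε M δ l lo q f A0 A1 A2 A3 B1 B2 B3 D3 D4 α β α' β') +
      ((A0 + A1 * (α + β) + A2 * (α' + β') + B1 + B2 + B3 + D3 + D4 + A3) * (6 * N ^ 2 * er96 N K' + 2 * e0) + e) := by
  obtain ⟨g1, g2, g3, g4, g5, g6, g7, g8, g9, g10, g11, g12, g13, g14, g15, g16, g17, g18, g19, g20, g21, g22, g23, g24, g25, g26⟩ :=
    geoL96 Z.X
  have hN := Z.hN
  have her : 0 ≤ er96 N K' := by unfold er96; positivity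
  have h1 := avy_mono (ys := ys) fun y hy => by
    have := ne_Pn (Z.hys y hy)
    exact hV y hy
  rw [avy_add, avy_add, avy_add, avy_add, avy_add, avy_add, avy_add, avy_add, avy_add, avy_mul, avy_mul, avy_mul, avy_mul, avy_mul,
    avy_mul, avy_mul, avy_mul, avy_mul] at h1
  have k0 := mul_le_mul_of_nonneg_left Z.own hA0
  have k1 := mul_le_mul_of_nonneg_left (Z.g2 hα hβ) hA1
  have k2 := mul_le_mul_of_nonneg_left (Z.g1 hα' hβ') hA2
  have k3 := mul_le_mul_of_nonneg_left Z.t23 hB1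
  have k4 := mul_le_mul_of_nonneg_left Z.t13 hB2
  have k5 := mul_le_mul_of_nonneg_left Z.t14 hB3
  have k6 := mul_le_mul_of_nonneg_left (Z.lg g22 g24) hD3
  have k7 := mul_le_mul_of_nonneg_left (Z.lg g23 g25) hD4
  have k8 := mul_le_mul_of_nonneg_left Z.dg hA3
  rw [← g12] at k6
  rw [← g13] at k7
  have k9 := avy_cle he ys
  have q1 := mul_nonneg hA0 he0
  have q2 := mul_nonneg (mul_nonneg hA1 (add_nonneg hα hβ)) he0
  have q3 := mul_nonneg (mul_nonneg hA2 (add_nonneg hα' hβ')) he0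
  have q4 := mul_nonneg hB1 he0
  have q5 := mul_nonneg hB2 he0
  have q6 := mul_nonneg hB3 he0
  have q7 := mul_nonneg hD3 he0
  have q8 := mul_nonneg hD4 he0
  unfold lst
  rw [avy_add, avy_add, avy_add, avy_add, avy_add, avy_add, avy_add, avy_add, avy_add, avy_add, avy_add, avy_add, avy_add, avy_add,
    avy_add, avy_add, avy_add, avy_mul, avy_mul, avy_mul, avy_mul, avy_mul, avy_mul, avy_mul, avy_mul, avy_mul, avy_mul, avy_mul,
    avy_mul, avy_mul, avy_mul, avy_mul, avy_mul, avy_mul ys _ (fun y => (gl : ℝ)⁻¹ * ∑ v ∈ range gl, lJ μ s N γ B b0 b σ gl d j δ M f (d - 5 * gl + 1 + v) y),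
    avy_mul ys _ (fun y => (gl : ℝ)⁻¹ * ∑ v ∈ range gl, lJ μ s N γ B b0 b σ gl d j δ M f (d - 3 * gl + 1 + v) y)]
  obtain ⟨E6, hE6⟩ : ∃ E6 : ℝ, E6 = 6 * N ^ 2 * er96 N K' := ⟨_, rfl⟩
  have hE : 0 ≤ E6 := by rw [hE6]; positivity
  rw [← hE6] at k0 k1 k2 k3 k4 k5 k6 k7 k8 ⊢
  generalize avy ys (rw96 μ s N (qOL μ s N b σ gl d lo q M j) f) = x0 at *
  generalize avy ys (mR μ s N (b / 8) (fun u => q2L2 μ s N b0 b σ gl d l q M ((j / σ + 1) * σ) u j) f) = x1 at *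
  generalize avy ys (mR μ s N (b / 8) (fun u => q2L2 μ s N b0 b σ gl d l q M (d - 6 * gl) u j) f) = x2 at *
  generalize avy ys (mR μ s N (b / 8) (fun u => qpL2 μ s N b0 b σ gl d l lo q M ((j / σ + 1) * σ) u j) f) = x3 at *
  generalize avy ys (mR μ s N (b / 8) (fun u => qpL2 μ s N b0 b σ gl d l lo q M (d - 6 * gl) u j) f) = x4 at *
  generalize avy ys (mR μ s N (b / 8) (fun u => q2L1 μ s N b0 b σ gl d l q M ((j / σ + 1) * σ) u j) f) = x5 at *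
  generalize avy ys (mR μ s N (b / 8) (fun u => q2L1 μ s N b0 b σ gl d l q M (d - 6 * gl) u j) f) = x6 at *
  generalize avy ys (mR μ s N (b / 8) (fun u => qpL1 μ s N b0 b σ gl d l lo q M ((j / σ + 1) * σ) u j) f) = x7 at *
  generalize avy ys (mR μ s N (b / 8) (fun u => qpL1 μ s N b0 b σ gl d l lo q M (d - 6 * gl) u j) f) = x8 at *
  generalize avy ys (mR μ s N (gl * (b / 8)) (fun u => q0L2 μ s N b0 b gl d l lo q M (d - 5 * gl + 1) u j) f) = x9 at *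
  generalize avy ys (mR μ s N (gl * (b / 8)) (fun u => q0L1 μ s N b0 b gl d l lo q M (d - 5 * gl + 1) u j) f) = x10 at *
  generalize avy ys (mR μ s N (gl * (b / 8)) (fun u => q0L1 μ s N b0 b gl d l lo q M (d - 3 * gl + 1) u j) f) = x11 at *
  generalize avy ys (mR μ s N gl (fun u => qgL μ s N b σ gl d lo q M (d - 5 * gl + 1) u j) f) = x12 at *
  generalize avy ys (mR μ s N gl (fun u => qgL μ s N b σ gl d lo q M (d - 3 * gl + 1) u j) f) = x13 at *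
  generalize avy ys (rw96 μ s N (qDL μ s N b0 b σ gl d M j) f) = x14 at *
  generalize avy ys (lJ μ s N γ B b0 b σ gl d j δ M f ((j / σ + 1) * σ)) = x15 at *
  generalize (avy ys fun y => (gl : ℝ)⁻¹ * ∑ v ∈ range gl, lJ μ s N γ B b0 b σ gl d j δ M f (d - 5 * gl + 1 + v) y) = x16 at *
  generalize (avy ys fun y => (gl : ℝ)⁻¹ * ∑ v ∈ range gl, lJ μ s N γ B b0 b σ gl d j δ M f (d - 3 * gl + 1 + v) y) = x17 at *
  linarith

end Dl96

end

end Pool.Agent.W_7d29a1_C0.E2DL96
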