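import Pool.Agent.W_7d29a1_C0.Rec96B
import Pool.Agent.W_7d29a1_HZ.PB

/-!
MP_7d29a1_pr, [CURV0] (helper33): THE REGIME of the base `b = 2 ^ p` and of its corrected scale `σ = 2 ^ sg96 E c m p`, `N = 2 ^ m`:
`N ^ (δ / 6) ≤ E_b` and `N ^ (δ / 8) b ≤ σ`, if `c ≤ δ / 64`.
-/

set_option autoImplicit false

namespace Pool.Agent.W_7d29a1_C0.Frm33

open Finset MeasureTheory Filter Topology
open Pool.Agent.W_7d29a1_H (EE EE_pos one_le_EE EE_mono)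
open Pool.Agent.W_7d29a1_HS (In)
open Pool.Agent.W_7d29a1_C0

noncomputable section

variable {μ : Measure ℝ} {s : ℝ}

theorem n_ge1 (m : ℕ) : (1 : ℝ) ≤ ((2 ^ m : ℕ) : ℝ) := by exact_mod_cast Nat.one_le_two_pow

theorem tend_n : Tendsto (fun m : ℕ => ((2 ^ m : ℕ) : ℝ)) atTop atTop :=
  tendsto_natCast_atTop_atTop.comp (tendsto_pow_atTop_atTop_of_one_lt one_lt_two)

theorem ev_n {a : ℝ} (ha : 0 < a) (C : ℝ) : ∀ᶠ m : ℕ in atTop, C ≤ ((2 ^ m : ℕ) : ℝ) ^ a :=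
  ((tendsto_rpow_atTop ha).comp tend_n).eventually_ge_atTop C

/-- The numbers `2 ^ p ≥ N ^ δ`. -/
theorem two_ge {δ : ℝ} {m p : ℕ} (hp : δ * m ≤ p) : ((2 ^ m : ℕ) : ℝ) ^ δ ≤ ((2 ^ p : ℕ) : ℝ) := by
  push_cast
  rw [← Real.rpow_natCast 2 m, ← Real.rpow_mul two_pos.le, ← Real.rpow_natCast 2 p]
  exact Real.rpow_le_rpow_of_exponent_le one_le_two (by linarith)

/-- An eventual fact about the numbers `r`, at all `2 ^ p ≥ N ^ δ`. -/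
theorem ev_two {P : ℕ → Prop} (h : ∀ᶠ r : ℕ in atTop, P r) {δ : ℝ} (hδ : 0 < δ) :
    ∀ᶠ m : ℕ in atTop, ∀ p : ℕ, δ * m ≤ p → P (2 ^ p) := by
  obtain ⟨r₀, h0⟩ := eventually_atTop.1 h
  filter_upwards [ev_n hδ r₀] with m hm p hp
  refine h0 _ ?_
  have := hm.trans (two_ge hp)
  exact_mod_cast this

/-- **The regime.** -/
theorem reg33 [IsProbabilityMeasure μ] {c₁ C : ℝ} {n₀ : ℕ} (h : In μ s c₁ C n₀) (hK : KapLe96 (EE μ s) (1 / 4)) {δ c : ℝ}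
    (hδ : 0 < δ) (hc : 0 ≤ c) (hcδ : c ≤ δ / 64) : ∀ᶠ m : ℕ in atTop, ∀ p : ℕ, δ * m ≤ p → p ≤ sg96 (EE μ s) c m p ∧
      ((2 ^ m : ℕ) : ℝ) ^ (δ / 6) ≤ EE μ s (2 ^ p) ∧
        ((2 ^ m : ℕ) : ℝ) ^ (δ / 8) * ((2 ^ p : ℕ) : ℝ) ≤ ((2 ^ sg96 (EE μ s) c m p : ℕ) : ℝ) := by
  obtain ⟨a, K₂, -, -, hK₂, hpow⟩ := Pool.Agent.W_7d29a1_HZ.EE'_pow h
  obtain ⟨n₁, hw⟩ := Pool.Agent.W_7d29a1_HZ.wd'_eq h
  have hK1 := hK (1 / 4) (by norm_num)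
  filter_upwards [ev_two hK1 hδ, ev_two (eventually_ge_atTop n₁) hδ, ev_n (show 0 < δ / 64 by positivity) (K₂ ^ 2)] with m h1 h2 h3 p hp
  obtain ⟨hps, hmem⟩ := sg_mem96 (fun n => one_le_EE (μ := μ) (s := s) n) (show (1 : ℝ) / 4 + 1 / 4 < 1 by norm_num) hK1 hc m p
  obtain ⟨q, hq⟩ : ∃ q, q = sg96 (EE μ s) c m p := ⟨_, rfl⟩
  rw [← hq] at hps hmem ⊢
  obtain ⟨n, hn⟩ : ∃ n : ℝ, n = ((2 ^ m : ℕ) : ℝ) := ⟨_, rfl⟩
  have hn1 : 1 ≤ n := hn ▸ n_ge1 m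
  have hn0 : 0 < n := by linarith
  rw [← hn] at hmem h3 ⊢
  have hb := h1 p hp
  have hbn := two_ge hp
  rw [← hn] at hbn
  obtain ⟨b, hbd⟩ : ∃ b : ℝ, b = ((2 ^ p : ℕ) : ℝ) := ⟨_, rfl⟩
  have hb1 : 1 ≤ b := hbd ▸ n_ge1 p
  have hb0 : 0 < b := by linarith
  rw [← hbd] at hb hbn ⊢
  obtain ⟨E, hE⟩ : ∃ E : ℝ, E = EE μ s (2 ^ p) := ⟨_, rfl⟩
  have hE1 : 1 ≤ E := hE ▸ one_le_EE _
  have hE0 : 0 < E := by linarith
  rw [← hE] at hb hmem ⊢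
  have e1 : n ^ (δ / 6) ≤ E := by
    have e2 : b ^ (1 / 2 : ℝ) * b ^ (1 / 2 : ℝ) = b := by
      rw [← Real.rpow_add hb0]
      norm_num
    have e3 : b ^ (1 / 2 : ℝ) ≤ E ^ 3 := by
      have e4 : (1 / 4 : ℝ) + 1 / 4 = 1 / 2 := by norm_num
      rw [e4] at hb
      have e5 : 0 < b ^ (1 / 2 : ℝ) := Real.rpow_pos_of_pos hb0 _
      have e6 : b ^ (1 / 2 : ℝ) * b ^ (1 / 2 : ℝ) ≤ b ^ (1 / 2 : ℝ) * E ^ 3 := by
        rw [e2]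
        exact hb
      exact le_of_mul_le_mul_left e6 e5
    have e4 : (n ^ (δ / 6)) ^ 3 ≤ E ^ 3 := by
      refine le_trans ?_ e3
      rw [← Real.rpow_natCast, ← Real.rpow_mul hn0.le]
      calc n ^ (δ / 6 * ((3 : ℕ) : ℝ)) = (n ^ δ) ^ (1 / 2 : ℝ) := by
            rw [← Real.rpow_mul hn0.le]
            congr 1
            push_cast
            ring
        _ ≤ b ^ (1 / 2 : ℝ) := Real.rpow_le_rpow (Real.rpow_nonneg hn0.le _) hbn (by norm_num)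
    exact le_of_pow_le_pow_left₀ (by norm_num) hE0.le e4
  refine ⟨hps, e1, ?_⟩
  -- the quotient of the scales
  obtain ⟨σ, hσ⟩ : ∃ σ : ℝ, σ = ((2 ^ q : ℕ) : ℝ) := ⟨_, rfl⟩
  have hσ1 : 1 ≤ σ := hσ ▸ n_ge1 q
  have hσ0 : 0 < σ := by linarith
  obtain ⟨E', hE'⟩ : ∃ E' : ℝ, E' = EE μ s (2 ^ q) := ⟨_, rfl⟩
  have hE'1 : 1 ≤ E' := hE' ▸ one_le_EE _
  have hE'0 : 0 < E' := by linarith
  have hu := (hpow (2 ^ p) (2 ^ q) Nat.one_le_two_pow (Nat.pow_le_pow_right two_pos hps)).2.2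
  rw [(hw _ (h2 p hp)).2.1, (hw _ ((h2 p hp).trans (Nat.pow_le_pow_right two_pos hps))).2.1, ← hσ, ← hbd, ← hE, ← hE'] at hu
  rw [← hσ]
  rw [← hE'] at hmem
  have hq1 : (1 : ℝ) ≤ σ / b := by
    rw [le_div_iff₀ hb0, one_mul, hσ, hbd]
    exact_mod_cast Nat.pow_le_pow_right two_pos hps
  -- fourth powers
  have f1 : E' ^ 4 ≤ K₂ ^ 4 * (σ / b) ^ 2 * E ^ 4 := by
    calc E' ^ 4 ≤ (K₂ * Real.sqrt (σ / b) * E) ^ 4 := pow_le_pow_left₀ hE'0.le hu 4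
      _ = K₂ ^ 4 * (Real.sqrt (σ / b) ^ 2) ^ 2 * E ^ 4 := by ring
      _ = K₂ ^ 4 * (σ / b) ^ 2 * E ^ 4 := by rw [Real.sq_sqrt (by linarith)]
  have f2 : E ^ 2 ≤ n ^ (3 * c) * (K₂ ^ 4 * (σ / b) ^ 2) := by
    have f3 : E ^ 4 * E ^ 2 ≤ E ^ 4 * (n ^ (3 * c) * (K₂ ^ 4 * (σ / b) ^ 2)) := by
      calc E ^ 4 * E ^ 2 = E ^ 6 := by ring
        _ ≤ n ^ (3 * c) * E' ^ 4 := hmem
        _ ≤ n ^ (3 * c) * (K₂ ^ 4 * (σ / b) ^ 2 * E ^ 4) := mul_le_mul_of_nonneg_left f1 (Real.rpow_nonneg hn0.le _)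
        _ = E ^ 4 * (n ^ (3 * c) * (K₂ ^ 4 * (σ / b) ^ 2)) := by ring
    exact le_of_mul_le_mul_left f3 (by positivity)
  have f3 : E ≤ n ^ (3 / 2 * c) * (K₂ ^ 2 * (σ / b)) := by
    refine le_of_pow_le_pow_left₀ (two_ne_zero) (mul_nonneg (Real.rpow_nonneg hn0.le _) (by positivity)) ?_
    calc E ^ 2 ≤ n ^ (3 * c) * (K₂ ^ 4 * (σ / b) ^ 2) := f2
      _ = (n ^ (3 / 2 * c) * (K₂ ^ 2 * (σ / b))) ^ 2 := by
          rw [mul_pow, ← Real.rpow_natCast (n ^ (3 / 2 * c)) 2, ← Real.rpow_mul hn0.le]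
          have : 3 / 2 * c * ((2 : ℕ) : ℝ) = 3 * c := by
            push_cast
            ring
          rw [this]
          ring
  have f4 : n ^ (δ / 6) ≤ n ^ (3 / 128 * δ + δ / 64) * (σ / b) := by
    calc n ^ (δ / 6) ≤ n ^ (3 / 2 * c) * (K₂ ^ 2 * (σ / b)) := e1.trans f3
      _ ≤ n ^ (3 / 128 * δ) * (n ^ (δ / 64) * (σ / b)) := by
          have g1 : n ^ (3 / 2 * c) ≤ n ^ (3 / 128 * δ) := Real.rpow_le_rpow_of_exponent_le hn1 (by linarith)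
          have g2 : K₂ ^ 2 * (σ / b) ≤ n ^ (δ / 64) * (σ / b) := mul_le_mul_of_nonneg_right h3 (by linarith)
          exact mul_le_mul g1 g2 (by positivity) (Real.rpow_nonneg hn0.le _)
      _ = n ^ (3 / 128 * δ + δ / 64) * (σ / b) := by
          rw [Real.rpow_add hn0]
          ring
  have f5 : n ^ (δ / 8) ≤ σ / b := by
    have f6 : n ^ (3 / 128 * δ + δ / 64) * n ^ (δ / 8) ≤ n ^ (3 / 128 * δ + δ / 64) * (σ / b) := by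
      rw [← Real.rpow_add hn0]
      refine le_trans (Real.rpow_le_rpow_of_exponent_le hn1 ?_) f4
      linarith
    exact le_of_mul_le_mul_left f6 (Real.rpow_pos_of_pos hn0 _)
  rw [le_div_iff₀ hb0] at f5
  exact f5

end

end Pool.Agent.W_7d29a1_C0.Frm33
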