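import Pool.Agent.W_7d29a1_C0.FlipD61
import Pool.Agent.W_7d29a1_C0.ClsR92
import Pool.Agent.W_7d29a1_C0.N59
import Pool.Agent.W_7d29a1_C0.OkM18
import Pool.Agent.W_7d29a1_C0.Reg33
import Pool.Agent.W_7d29a1_Z.NumI77

/-!
MP_7d29a1_pr, [CURV0] (helper33): THE CONCRETE FRAME. For the blocks in the rows `[0, n)`, `n = 2 ^ m`: paths of length
`L = 2 ^ (K m)`, `32 ≤ K`, pinned at the ends of `ys = Ico y₀ (y₀ + n ^ 6)`, `y₀ = ⌊sl L⌋` (all of them in the cone, `cone33`), kicked rows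
`Kr n m (n ^ (-ρ))`, clipping level `n ^ β`. The law invariance `FL59` at this frame
(`fl33_fF`, `fl33_Sn`), from the mass of the straight windows (`okM18`) and the error of the clipping (hypothesis `ClipP`).
-/

set_option autoImplicit false

namespace Pool.Agent.W_7d29a1_C0.Frm33

open Finset MeasureTheory Filter Topology
open Pool.Agent.W_7d29a1_F Pool.Agent.W_7d29a1_X
open Pool.Agent.W_7d29a1_H (sl)
open Pool.Agent.W_7d29a1_HS (In wd)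
open Pool.Agent.W_7d29a1_HZ (wd')
open Pool.Agent.W_7d29a1_C0.Mod92 Pool.Agent.W_7d29a1_C0.Flip61 Pool.Agent.W_7d29a1_C0.Pin18
open Pool.Agent.W_7d29a1_C0.OkM18 (okM18)

noncomputable section

variable {μ : Measure ℝ} {s : ℝ}

/-! ### The frame -/

/-- The length of the paths. -/
def L33 (K m : ℕ) : ℕ := 2 ^ (K * m)

/-- The number of the pinned ends. -/
def M33 (m : ℕ) : ℕ := 2 ^ (6 * m)

/-- The first pinned end (for all large `m` it is `⌊sl L⌋`). -/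
def y33 (μ : Measure ℝ) (s : ℝ) (K m : ℕ) : ℕ := min ⌊sl μ s * (L33 K m : ℕ)⌋₊ (L33 K m - M33 m)

/-- The pinned ends. -/
def ys33 (μ : Measure ℝ) (s : ℝ) (K m : ℕ) : Finset ℕ := Ico (y33 μ s K m) (y33 μ s K m + M33 m)

/-- The kicked rows. -/
def R33 (ρ : ℝ) (m : ℕ) : Finset ℕ := Kr (2 ^ m) m (((2 ^ m : ℕ) : ℝ) ^ (-ρ))

/-- The clipping level. -/
def B33 (β : ℝ) (m : ℕ) : ℝ := ((2 ^ m : ℕ) : ℝ) ^ β

/-- **The error of the clipping** (helper48): the hypothesis under which the frame is used. -/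
def ClipP (μ : Measure ℝ) (s : ℝ) : Prop :=
  ∀ κ β : ℝ, 0 < κ → 0 < β → ∃ γ₀ : ℝ, 0 < γ₀ ∧ ∀ γ : ℝ, 0 < γ → γ ≤ γ₀ → ∃ δ c' : ℝ, 0 < δ ∧ 0 < c' ∧ ∃ N₀ : ℕ, ∀ N : ℕ, N₀ ≤ N →
    ∀ y : ℕ, |(y : ℝ) - sl μ s * N| ≤ (N : ℝ) ^ δ * wd' μ s N → ∀ B : ℝ, (N : ℝ) ^ β ≤ B → ∀ b j : ℕ, (N : ℝ) ^ κ ≤ b →
      6 * b ≤ N → b ≤ j → j + b ≤ N → ∀ a : ℤ, a = 1 ∨ a = -1 →
        ∫ η, clip μ s N γ B b j a y η ∂(law μ) ≤ Real.exp (-(N : ℝ) ^ c')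

theorem L33_real (K m : ℕ) : ((L33 K m : ℕ) : ℝ) = ((2 ^ m : ℕ) : ℝ) ^ (K : ℝ) := by
  unfold L33
  rw [Real.rpow_natCast]
  push_cast
  rw [← pow_mul, mul_comm]

theorem M33_real (m : ℕ) : ((M33 m : ℕ) : ℝ) = ((2 ^ m : ℕ) : ℝ) ^ 6 := by
  unfold M33
  push_cast
  rw [← pow_mul, mul_comm]

theorem L33_pow (K m : ℕ) (a : ℝ) : ((L33 K m : ℕ) : ℝ) ^ a = ((2 ^ m : ℕ) : ℝ) ^ (K * a) := by
  rw [L33_real, ← Real.rpow_mul (by positivity)]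

theorem L33_ge {K : ℕ} (hK : 1 ≤ K) (m : ℕ) : 2 ^ m ≤ L33 K m :=
  Nat.pow_le_pow_right two_pos (by nlinarith)

theorem tend_L {K : ℕ} (hK : 1 ≤ K) : Tendsto (fun m : ℕ => L33 K m) atTop atTop :=
  tendsto_atTop_mono (fun m => L33_ge hK m) (tendsto_pow_atTop_atTop_of_one_lt one_lt_two)

theorem ev_L {K : ℕ} (hK : 1 ≤ K) (N₀ : ℕ) : ∀ᶠ m : ℕ in atTop, N₀ ≤ L33 K m := (tend_L hK).eventually_ge_atTop N₀

/-- **The pinned ends and their neighbours are in the cone.** -/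
theorem cone33 [IsProbabilityMeasure μ] {c C : ℝ} {n₀ : ℕ} (h : In μ s c C n₀) {K : ℕ} (hK : 32 ≤ K) {δ : ℝ} (hδ : 0 < δ) :
    ∀ᶠ m : ℕ in atTop, 2 ≤ y33 μ s K m ∧ y33 μ s K m + M33 m + 1 ≤ L33 K m ∧ ∀ y : ℕ, y33 μ s K m ≤ y + 1 →
      y ≤ y33 μ s K m + M33 m → y ≤ L33 K m ∧ |(y : ℝ) - sl μ s * L33 K m| ≤ (L33 K m : ℝ) ^ δ * wd' μ s (L33 K m) := by
  obtain ⟨n₁, hw⟩ := Pool.Agent.W_7d29a1_HZ.wd'_eq h
  have hs0 := h.sl_pos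
  have hs1 := h.sl_lt
  filter_upwards [ev_L (by omega : 1 ≤ K) n₁, ev_n one_pos (4 / sl μ s + 4 / (1 - sl μ s) + 4)] with m h1 h2
  obtain ⟨n, hn⟩ : ∃ n : ℝ, n = ((2 ^ m : ℕ) : ℝ) := ⟨_, rfl⟩
  obtain ⟨L, hL⟩ : ∃ L : ℝ, L = ((L33 K m : ℕ) : ℝ) := ⟨_, rfl⟩
  have hn1 : 1 ≤ n := hn ▸ n_ge1 m
  have hn0 : 0 < n := by linarith
  rw [← hn, Real.rpow_one] at h2
  have hp1 : 0 < 1 - sl μ s := by linarith
  have a1 : 4 / sl μ s ≤ n := by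
    have : 0 ≤ 4 / (1 - sl μ s) := by positivity
    linarith
  have a2 : 4 / (1 - sl μ s) ≤ n := by
    have : 0 ≤ 4 / sl μ s := by positivity
    linarith
  have a3 : 4 ≤ n := by
    have : 0 ≤ 4 / sl μ s := by positivity
    have : 0 ≤ 4 / (1 - sl μ s) := by positivity
    linarith
  have hM : ((M33 m : ℕ) : ℝ) = n ^ 6 := by rw [hn, M33_real]
  have hLn : n ^ 8 ≤ L ^ (1 / 4 : ℝ) := by
    rw [hL, L33_pow, ← hn, ← Real.rpow_natCast]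
    refine Real.rpow_le_rpow_of_exponent_le hn1 ?_
    have : (32 : ℝ) ≤ K := by exact_mod_cast hK
    push_cast
    linarith
  have hL8 : n ^ 8 ≤ L := by
    rw [hL, L33_real, ← hn, ← Real.rpow_natCast n 8]
    refine Real.rpow_le_rpow_of_exponent_le hn1 ?_
    have : (32 : ℝ) ≤ K := by exact_mod_cast hK
    push_cast
    linarith
  have h68 : n ^ 6 + 2 ≤ n ^ 7 := by
    have h6 : 1 ≤ n ^ 6 := one_le_pow₀ hn1
    calc n ^ 6 + 2 ≤ 4 * n ^ 6 := by linarith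
      _ ≤ n * n ^ 6 := mul_le_mul_of_nonneg_right a3 (by positivity)
      _ = n ^ 7 := by ring
  have h78 : n ^ 7 ≤ n ^ 8 := pow_le_pow_right₀ hn1 (by norm_num)
  have hL0 : 0 < L := lt_of_lt_of_le (by positivity) hL8
  have f1' : ((⌊sl μ s * (L33 K m : ℕ)⌋₊ : ℕ) : ℝ) ≤ sl μ s * L := by
    rw [← hL]
    exact Nat.floor_le (by positivity)
  have f2' : sl μ s * L < (⌊sl μ s * (L33 K m : ℕ)⌋₊ : ℕ) + 1 := by
    rw [← hL]
    exact Nat.lt_floor_add_one _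
  have g1 : 4 ≤ sl μ s * L := by
    rw [div_le_iff₀ hs0] at a1
    have : n ≤ L := (le_self_pow₀ hn1 (by norm_num : (8 : ℕ) ≠ 0)).trans hL8
    nlinarith
  have g2 : 4 * n ^ 7 ≤ (1 - sl μ s) * L := by
    rw [div_le_iff₀ hp1] at a2
    calc 4 * n ^ 7 ≤ (n * (1 - sl μ s)) * n ^ 7 := mul_le_mul_of_nonneg_right a2 (by positivity)
      _ = (1 - sl μ s) * n ^ 8 := by ring
      _ ≤ (1 - sl μ s) * L := mul_le_mul_of_nonneg_left hL8 hp1.le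
  have h7 : 1 ≤ n ^ 7 := one_le_pow₀ hn1
  have hyy : y33 μ s K m = ⌊sl μ s * (L33 K m : ℕ)⌋₊ := by
    have b0 : ⌊sl μ s * (L33 K m : ℕ)⌋₊ + M33 m ≤ L33 K m := by
      have : ((⌊sl μ s * (L33 K m : ℕ)⌋₊ : ℕ) : ℝ) + M33 m ≤ L33 K m := by
        rw [hM, ← hL]
        rw [← hL] at f1'
        linarith
      exact_mod_cast this
    unfold y33
    exact min_eq_left (by omega)
  have f1 : (y33 μ s K m : ℝ) ≤ sl μ s * L := by rw [hyy]; exact f1'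
  have f2 : sl μ s * L < y33 μ s K m + 1 := by rw [hyy]; exact f2'
  have b1 : y33 μ s K m + M33 m + 1 ≤ L33 K m := by
    have : (y33 μ s K m : ℝ) + M33 m + 1 ≤ L33 K m := by
      rw [hM, ← hL]
      linarith
    exact_mod_cast this
  refine ⟨?_, b1, fun y q1 q2 => ⟨by omega, ?_⟩⟩
  · have : (2 : ℝ) ≤ y33 μ s K m := by linarith
    exact_mod_cast this
  · have r1 : (y33 μ s K m : ℝ) ≤ y + 1 := by exact_mod_cast q1
    have r2 : (y : ℝ) ≤ y33 μ s K m + M33 m := by exact_mod_cast q2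
    rw [hM] at r2
    have r3 : |(y : ℝ) - sl μ s * L33 K m| ≤ n ^ 8 := by
      rw [← hL, abs_le]
      constructor <;> linarith
    have r4 : L ^ (1 / 4 : ℝ) ≤ wd' μ s (L33 K m) := by
      rw [(hw _ h1).1, hL]
      exact (hw _ h1).2.2
    have r5 : 1 ≤ (L33 K m : ℝ) ^ δ := Real.one_le_rpow (by
      have : (1 : ℝ) ≤ n ^ 8 := one_le_pow₀ hn1
      rw [← hL]
      linarith) hδ.le
    have r6 : 0 ≤ wd' μ s (L33 K m) := zero_le_one.trans (le_max_left _ _)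
    calc _ ≤ n ^ 8 := r3
      _ ≤ wd' μ s (L33 K m) := hLn.trans r4
      _ ≤ (L33 K m : ℝ) ^ δ * wd' μ s (L33 K m) := le_mul_of_one_le_left r6 r5

theorem R33_sub (ρ : ℝ) (m : ℕ) : R33 ρ m ⊆ range (2 ^ m) := by
  classical
  unfold R33 Kr
  exact filter_subset _ _

theorem R33_card (ρ : ℝ) (m : ℕ) : (R33 ρ m).card ≤ 2 ^ m := by
  have := card_le_card (R33_sub ρ m)
  rwa [card_range] at this

/-! ### The errors of the flips -/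

/-- **The errors of the flips at the frame.** -/
theorem ferr33 [IsProbabilityMeasure μ] {c C : ℝ} {n₀ : ℕ} (h : In μ s c C n₀) (hcl : ClipP μ s) {K : ℕ} (hK : 32 ≤ K)
    {κ β : ℝ} (hκ : 0 < κ) (hβ : 0 < β) : ∃ γ₀ : ℝ, 0 < γ₀ ∧ ∀ γ : ℝ, 0 < γ → γ ≤ γ₀ → ∃ c' : ℝ, 0 < c' ∧
      ∀ᶠ m : ℕ in atTop, ∀ B : ℝ, B33 β m ≤ B → ∀ b0 j : ℕ, ((2 ^ m : ℕ) : ℝ) ^ κ ≤ b0 → b0 ≤ 2 ^ m → b0 ≤ j →
        j + b0 ≤ L33 K m → FErr μ s (L33 K m) γ B b0 j (y33 μ s K m) (M33 m) (Real.exp (-(L33 K m : ℝ) ^ c')) := by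
  have hK0 : (0 : ℝ) < K := by
    have : (32 : ℝ) ≤ K := by exact_mod_cast hK
    linarith
  obtain ⟨δ₁, c₁, hδ₁, hc₁, N₁, h1⟩ := okM18 h (show 0 < κ / K by positivity)
  obtain ⟨γ₀, hγ₀, h2⟩ := hcl (κ / K) (β / K) (by positivity) (by positivity)
  refine ⟨γ₀, hγ₀, fun γ hγ hγ' => ?_⟩
  obtain ⟨δ₂, c₂, hδ₂, hc₂, N₂, h2⟩ := h2 γ hγ hγ'
  refine ⟨min c₁ c₂, lt_min hc₁ hc₂, ?_⟩
  filter_upwards [ev_L (by omega : 1 ≤ K) (max N₁ N₂), cone33 h hK hδ₁, cone33 h hK hδ₂, ev_n one_pos 6]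
    with m h3 h4 h5 h33 B hB b0 j hb hbn hbj hj
  have hL1 : (1 : ℝ) ≤ (L33 K m : ℝ) := by
    have : 1 ≤ L33 K m := Nat.one_le_two_pow
    exact_mod_cast this
  have hm : ∀ a : ℝ, min c₁ c₂ ≤ a → Real.exp (-(L33 K m : ℝ) ^ a) ≤ Real.exp (-(L33 K m : ℝ) ^ min c₁ c₂) := fun a ha =>
    Real.exp_le_exp.2 (neg_le_neg (Real.rpow_le_rpow_of_exponent_le hL1 ha))
  have ek : (L33 K m : ℝ) ^ (κ / K) = ((2 ^ m : ℕ) : ℝ) ^ κ := by
    rw [L33_pow]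
    congr 1
    field_simp
  have eβ : (L33 K m : ℝ) ^ (β / K) = B33 β m := by
    unfold B33
    rw [L33_pow]
    congr 1
    field_simp
  have h3b : 6 * b0 ≤ L33 K m := by
    rw [Real.rpow_one] at h33
    have e3 : 6 ≤ 2 ^ m := by exact_mod_cast h33
    have e4 : 2 ^ m * 2 ^ m ≤ L33 K m := by
      unfold L33
      rw [← pow_add]
      exact Nat.pow_le_pow_right two_pos (by nlinarith)
    exact (Nat.mul_le_mul e3 hbn).trans e4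
  constructor
  · intro A y hy
    rw [mem_Ico] at hy
    obtain ⟨q1, q2⟩ := h5.2.2 y (by omega) (by omega)
    exact (h2 (L33 K m) ((le_max_right _ _).trans h3) y q2 B (by rw [eβ]; exact hB) b0 j (by rw [ek]; exact hb) h3b hbj hj (sg A j)
      (sg_or A j)).trans (hm _ (min_le_right _ _))
  · intro A y hy
    rw [mem_Ico] at hy
    have hnb : nb (sg A j) y = y + 1 ∨ nb (sg A j) y = y - 1 := by
      rcases sg_or A j with h6 | h6 <;> rw [h6]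
      · exact Or.inl (nb_one y)
      · exact Or.inr (nb_neg y)
    have hlo : y33 μ s K m ≤ nb (sg A j) y + 1 := by
      rcases hnb with h6 | h6 <;> rw [h6] <;> omega
    have hup : nb (sg A j) y ≤ y33 μ s K m + M33 m := by
      rcases hnb with h6 | h6 <;> rw [h6] <;> omega
    obtain ⟨q1, q2⟩ := h4.2.2 _ hlo hup
    have hv : |(-sg A j : ℤ)| ≤ 1 := by
      rcases sg_or A j with h6 | h6 <;> rw [h6] <;> norm_num
    have hlen : ((b0 : ℕ) : ℝ) ≤ ((j + b0 - (j - b0) : ℕ) : ℝ) := by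
      have : b0 ≤ j + b0 - (j - b0) := by omega
      exact_mod_cast this
    exact ((h1 (L33 K m) ((le_max_left _ _).trans h3) (j - b0) (j + b0 - (j - b0)) (by omega)
      (by rw [ek]; exact hb.trans hlen) _ hv).1 _ q1 q2).trans
      (hm _ (min_le_left _ _))

/-! ### The law invariance -/

/-- The crude bound of the functional to the right. -/
theorem bR_le {B : ℝ} (hB : 1 ≤ B) {σ : ℕ} {R : Finset ℕ} {e : ℕ → ℕ} (he : Monotone e) {i M n : ℕ} (hM : e M ≤ n)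
    (hR : R.card ≤ n) : bR B σ R e i M ≤ (n : ℝ) ^ 2 * B ^ 2 := by
  have h1 : B / 2 + (B / 2) ^ 2 ≤ B ^ 2 := by nlinarith
  have h0 : 0 ≤ B / 2 + (B / 2) ^ 2 := by positivity
  have key : ∀ k : ℕ, ∑ l ∈ range k, (e (l + 1) / σ - e l / σ) ≤ e k := by
    intro k
    have h2 : ∑ l ∈ range k, (e (l + 1) / σ - e l / σ) = e k / σ - e 0 / σ := by
      induction k with
      | zero => simp
      | succ k ih =>
        rw [sum_range_succ, ih]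
        have h3 : e 0 / σ ≤ e k / σ := Nat.div_le_div_right (he (Nat.zero_le k))
        have h4 : e k / σ ≤ e (k + 1) / σ := Nat.div_le_div_right (he (Nat.le_succ k))
        generalize e 0 / σ = u0 at *
        generalize e k / σ = u1 at *
        generalize e (k + 1) / σ = u2 at *
        omega
    rw [h2]
    exact (Nat.sub_le _ _).trans (Nat.div_le_self _ _)
  have h2 : ∑ l ∈ Ico i M, (e (l + 1) / σ - e l / σ) ≤ n := by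
    refine le_trans ?_ ((key M).trans hM)
    refine sum_le_sum_of_subset fun l hl => ?_
    rw [mem_Ico] at hl
    exact mem_range.2 hl.2
  unfold bR
  rw [← sum_mul, ← Nat.cast_sum]
  have h3 : ((∑ l ∈ Ico i M, (e (l + 1) / σ - e l / σ) : ℕ) : ℝ) ≤ n := by exact_mod_cast h2
  have h4 : (R.card : ℝ) ≤ n := by exact_mod_cast hR
  calc ((∑ l ∈ Ico i M, (e (l + 1) / σ - e l / σ) : ℕ) : ℝ) * (R.card * (B / 2 + (B / 2) ^ 2))
      ≤ n * (n * B ^ 2) := by gcongr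
    _ = (n : ℝ) ^ 2 * B ^ 2 := by ring

/-- The numbers at the end: `D ≤ n² B²`, `n ≤ n³`. -/
theorem num33 {n B D z M L : ℝ} (hn : 64 ≤ n) (hB : 1 ≤ B) (hBn : B ^ 8 ≤ n) (hM : M = n ^ 6) (hD0 : 0 ≤ D)
    (hD : D ≤ n ^ 2 * B ^ 2) (hL : 1 ≤ L) (hz0 : 0 ≤ z) (hz : L ^ 2 * z ≤ (n ^ 4)⁻¹) {D' : ℝ} (hD'0 : 0 ≤ D') (hD' : D' ≤ L) :
    (B / 2 + (B / 2) ^ 2) * D / M + 36 * (B + 3 * B ^ 2) * D' * z ≤ n⁻¹ ∧ D / M + 3 * D' * z ≤ n⁻¹ := by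
  have hn0 : 0 < n := by linarith
  have hB0 : 0 < B := by linarith
  have h1 : B / 2 + (B / 2) ^ 2 ≤ B ^ 2 := by nlinarith
  have hB4 : B ^ 4 ≤ n := (pow_le_pow_right₀ hB (by norm_num)).trans hBn
  have hB2 : B ^ 2 ≤ n := (pow_le_pow_right₀ hB (by norm_num)).trans hBn
  have hB1 : 1 ≤ B ^ 2 := one_le_pow₀ hB
  have e1 : (B / 2 + (B / 2) ^ 2) * D / M ≤ (n ^ 3)⁻¹ := by
    rw [hM, div_le_iff₀ (by positivity)]
    calc (B / 2 + (B / 2) ^ 2) * D ≤ B ^ 2 * (n ^ 2 * B ^ 2) := mul_le_mul h1 hD hD0 (by positivity)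
      _ = n ^ 2 * B ^ 4 := by ring
      _ ≤ n ^ 2 * n := mul_le_mul_of_nonneg_left hB4 (by positivity)
      _ = (n ^ 3)⁻¹ * n ^ 6 := by field_simp
  have e2 : D / M ≤ (n ^ 3)⁻¹ := by
    rw [hM, div_le_iff₀ (by positivity)]
    calc D ≤ n ^ 2 * B ^ 2 := hD
      _ ≤ n ^ 2 * n := mul_le_mul_of_nonneg_left hB2 (by positivity)
      _ = (n ^ 3)⁻¹ * n ^ 6 := by field_simp
  have e3 : L * z ≤ (n ^ 4)⁻¹ := by
    refine le_trans ?_ hz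
    have : L ≤ L ^ 2 := by nlinarith
    exact mul_le_mul_of_nonneg_right this hz0
  have e4 : D' * z ≤ (n ^ 4)⁻¹ := (mul_le_mul_of_nonneg_right hD' hz0).trans e3
  have e5 : 36 * (B + 3 * B ^ 2) ≤ 144 * n := by nlinarith
  have e6 : 36 * (B + 3 * B ^ 2) * D' * z ≤ 144 * (n ^ 3)⁻¹ := by
    calc 36 * (B + 3 * B ^ 2) * D' * z = 36 * (B + 3 * B ^ 2) * (D' * z) := by ring
      _ ≤ (144 * n) * (n ^ 4)⁻¹ := mul_le_mul e5 e4 (by positivity) (by positivity)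
      _ = 144 * (n ^ 3)⁻¹ := by field_simp
  have e7 : 3 * D' * z ≤ 3 * (n ^ 4)⁻¹ := by
    rw [mul_assoc]
    exact mul_le_mul_of_nonneg_left e4 (by norm_num)
  have e8 : 145 * (n ^ 3)⁻¹ ≤ n⁻¹ := by
    have : (n ^ 3)⁻¹ = (n ^ 2)⁻¹ * n⁻¹ := by
      rw [← mul_inv]
      congr 1
    rw [this, ← mul_assoc]
    have h5 : 145 * (n ^ 2)⁻¹ ≤ 1 := by
      rw [← div_eq_mul_inv, div_le_one (by positivity)]
      nlinarith
    calc 145 * (n ^ 2)⁻¹ * n⁻¹ ≤ 1 * n⁻¹ := mul_le_mul_of_nonneg_right h5 (by positivity)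
      _ = n⁻¹ := one_mul _
  have e9 : (n ^ 4)⁻¹ ≤ (n ^ 3)⁻¹ := inv_anti₀ (by positivity) (pow_le_pow_right₀ (by linarith) (by norm_num))
  have e10 : 0 < (n ^ 3)⁻¹ := by positivity
  constructor <;> linarith

/-- The stretched exponential against the powers. -/
theorem ev_z {K : ℕ} (hK : 32 ≤ K) {c' : ℝ} (hc' : 0 < c') : ∀ᶠ m : ℕ in atTop,
    (L33 K m : ℝ) ^ 2 * Real.exp (-(L33 K m : ℝ) ^ c') ≤ (((2 ^ m : ℕ) : ℝ) ^ 4)⁻¹ := by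
  obtain ⟨c₁, hc₁, -, N₁, h1⟩ := Pool.Agent.W_7d29a1_Z.NumI77.pow_exp hc' 3
  filter_upwards [ev_L (by omega : 1 ≤ K) N₁] with m hm
  have h2 := h1 (L33 K m) hm
  obtain ⟨n, hn⟩ : ∃ n : ℝ, n = ((2 ^ m : ℕ) : ℝ) := ⟨_, rfl⟩
  obtain ⟨L, hL⟩ : ∃ L : ℝ, L = ((L33 K m : ℕ) : ℝ) := ⟨_, rfl⟩
  have hn1 : 1 ≤ n := hn ▸ n_ge1 m
  have hLn : n ^ 4 ≤ L := by
    rw [hL, L33_real, ← hn, ← Real.rpow_natCast n 4]
    refine Real.rpow_le_rpow_of_exponent_le hn1 ?_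
    have : (32 : ℝ) ≤ K := by exact_mod_cast hK
    push_cast
    linarith
  have hL0 : 0 < L := lt_of_lt_of_le (by positivity) hLn
  rw [← hL] at h2 ⊢
  rw [← hn]
  have e : L ^ (3 : ℝ) = L ^ 3 := by
    rw [← Real.rpow_natCast]
    norm_num
  rw [e] at h2
  have h3 : L ^ 3 * Real.exp (-L ^ c') ≤ 1 := h2.trans (Real.exp_le_one_iff.2 (by
    have := Real.rpow_nonneg hL0.le c₁
    linarith))
  rw [← one_div, le_div_iff₀ (by positivity)]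
  calc L ^ 2 * Real.exp (-L ^ c') * n ^ 4 ≤ L ^ 2 * Real.exp (-L ^ c') * L :=
        mul_le_mul_of_nonneg_left hLn (by positivity)
    _ = L ^ 3 * Real.exp (-L ^ c') := by ring
    _ ≤ 1 := h3

/-- **The law invariance at the frame**, `θ = 0`: the functional of the block `[c, d)` against the blocks to the right. -/
theorem fl33_fF [IsProbabilityMeasure μ] {c₁ C : ℝ} {n₀ : ℕ} (h : In μ s c₁ C n₀) (hcl : ClipP μ s) {K : ℕ} (hK : 32 ≤ K)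
    {κ β : ℝ} (hκ : 0 < κ) (hβ : 0 < β) (hβ1 : β ≤ 1 / 8) : ∃ γ₀ : ℝ, 0 < γ₀ ∧ ∀ γ : ℝ, 0 < γ → γ ≤ γ₀ → ∀ ρ : ℝ,
      ∀ᶠ m : ℕ in atTop, ∀ b0 b σ : ℕ, ((2 ^ m : ℕ) : ℝ) ^ κ ≤ b0 → b0 ≤ b → b ≤ 2 ^ m → Deep (R33 ρ m) b σ → 0 < σ → ∀ c d : ℕ, σ ∣ c → σ ∣ d →
      ∀ e : ℕ → ℕ, Monotone e → (∀ l, σ ∣ e l) → ∀ i M : ℕ, d ≤ e i → e M ≤ 2 ^ m → d ≤ 2 ^ m →
        FL59 μ s (L33 K m) (ys33 μ s K m) γ (B33 β m) b0 b σ (R33 ρ m) c d 0 (((2 ^ m : ℕ) : ℝ)⁻¹)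
          (fF μ s (L33 K m) γ (B33 β m) b σ (R33 ρ m) e i M) := by
  obtain ⟨γ₀, hγ₀, hF⟩ := ferr33 h hcl hK hκ hβ
  refine ⟨γ₀, hγ₀, fun γ hγ hγ' ρ => ?_⟩
  obtain ⟨c', hc', hF⟩ := hF γ hγ hγ'
  filter_upwards [hF, cone33 h hK one_pos, ev_z hK hc', ev_n one_pos 64] with m h1 h2 h3 h4 b0 b σ hb0 hbb hbn hdp hσ c d hσc hσd e he hσe i M
    hde hM hdn
  obtain ⟨n, hn⟩ : ∃ n : ℝ, n = ((2 ^ m : ℕ) : ℝ) := ⟨_, rfl⟩
  have hn1 : 1 ≤ n := hn ▸ n_ge1 m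
  have hn64 : 64 ≤ n := by
    rw [← hn, Real.rpow_one] at h4
    exact h4
  have hL : 2 ^ m ≤ L33 K m := L33_ge (by omega) m
  have hL1 : (1 : ℝ) ≤ (L33 K m : ℝ) := by
    have : 1 ≤ L33 K m := Nat.one_le_two_pow
    exact_mod_cast this
  have hB1 : 1 ≤ B33 β m := Real.one_le_rpow (n_ge1 m) hβ.le
  have hBn : B33 β m ^ 8 ≤ n := by
    unfold B33
    rw [← hn, ← Real.rpow_natCast, ← Real.rpow_mul (zero_le_one.trans hn1)]
    calc n ^ (β * ((8 : ℕ) : ℝ)) ≤ n ^ (1 : ℝ) := Real.rpow_le_rpow_of_exponent_le hn1 (by push_cast; linarith)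
      _ = n := Real.rpow_one n
  have hb0' : 0 < b0 := by
    rcases Nat.eq_zero_or_pos b0 with h5 | h5
    · rw [h5, ← hn, Nat.cast_zero] at hb0
      have := Real.rpow_pos_of_pos (lt_of_lt_of_le one_pos hn1) κ
      linarith
    · exact h5
  have hbR := bR_le hB1 (σ := σ) he (R := R33 ρ m) (i := i) (M := M) hM (R33_card ρ m)
  rw [← hn] at hbR
  have hbR0 : 0 ≤ bR (B33 β m) σ (R33 ρ m) e i M := by
    unfold bR
    positivity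
  have hBR2 : bR (B33 β m) σ (R33 ρ m) e i M ≤ (L33 K m : ℝ) := by
    have h5 : B33 β m ^ 2 ≤ n := (pow_le_pow_right₀ hB1 (by norm_num)).trans hBn
    have h6 : n ^ 3 ≤ (L33 K m : ℝ) := by
      rw [L33_real, ← hn, ← Real.rpow_natCast n 3]
      refine Real.rpow_le_rpow_of_exponent_le hn1 ?_
      have : (32 : ℝ) ≤ K := by exact_mod_cast hK
      push_cast
      linarith
    calc _ ≤ n ^ 2 * B33 β m ^ 2 := hbR
      _ ≤ n ^ 2 * n := mul_le_mul_of_nonneg_left h5 (by positivity)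
      _ = n ^ 3 := by ring
      _ ≤ _ := h6
  rw [← hn] at h3
  obtain ⟨g1, g2⟩ := num33 (M := ((M33 m : ℕ) : ℝ)) hn64 hB1 hBn (by rw [hn, M33_real]) hbR0 hbR hL1 (Real.exp_pos _).le h3 hbR0 hBR2
  rw [← hn]
  have hdL : d ≤ L33 K m := hdn.trans hL
  have hcls := cls_fR (μ := μ) (s := s) (N := L33 K m) (δ := γ) (zero_le_one.trans hB1) hσ hdp he (i := i) (M := M)
    (hM.trans hL) hσe (c := c) hde
  refine fl59_fR hb0' hσ hbb hdp hdp hσd hdL (zero_le_one.trans hB1) he hσe (hM.trans hL) hde hcls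
    (by have := h2.1; omega) (show 1 ≤ M33 m from Nat.one_le_two_pow) (by have := h2.2.1; omega)
    (fun j hj => h1 _ le_rfl b0 j hb0 (hbb.trans hbn) ?_ ?_) g1 g2
  · have := hdp.in_block hσ hσc hσd hj
    omega
  · have := hdp.in_block hσ hσc hσd hj
    omega

/-- **The law invariance at the frame**, `θ = 1 / 2`: the position at a row behind the block. -/
theorem fl33_Sn [IsProbabilityMeasure μ] {c₁ C : ℝ} {n₀ : ℕ} (h : In μ s c₁ C n₀) (hcl : ClipP μ s) {K : ℕ} (hK : 32 ≤ K)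
    {κ β : ℝ} (hκ : 0 < κ) (hβ : 0 < β) (hβ1 : β ≤ 1 / 8) : ∃ γ₀ : ℝ, 0 < γ₀ ∧ ∀ γ : ℝ, 0 < γ → γ ≤ γ₀ → ∀ ρ : ℝ,
      ∀ᶠ m : ℕ in atTop, ∀ b0 b σ : ℕ, ((2 ^ m : ℕ) : ℝ) ^ κ ≤ b0 → b0 ≤ b → b ≤ 2 ^ m → Deep (R33 ρ m) b σ → 0 < σ → ∀ c d : ℕ, σ ∣ c → σ ∣ d →
      ∀ t : ℕ, d ≤ t → t ≤ 2 ^ m →
        FL59 μ s (L33 K m) (ys33 μ s K m) γ (B33 β m) b0 b σ (R33 ρ m) c d (1 / 2) (((2 ^ m : ℕ) : ℝ)⁻¹) (Sn (L33 K m) t) := by
  obtain ⟨γ₀, hγ₀, hF⟩ := ferr33 h hcl hK hκ hβ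
  refine ⟨γ₀, hγ₀, fun γ hγ hγ' ρ => ?_⟩
  obtain ⟨c', hc', hF⟩ := hF γ hγ hγ'
  filter_upwards [hF, cone33 h hK one_pos, ev_z hK hc', ev_n one_pos 64] with m h1 h2 h3 h4 b0 b σ hb0 hbb hbn hdp hσ c d hσc hσd t hdt htn
  obtain ⟨n, hn⟩ : ∃ n : ℝ, n = ((2 ^ m : ℕ) : ℝ) := ⟨_, rfl⟩
  have hn1 : 1 ≤ n := hn ▸ n_ge1 m
  have hn64 : 64 ≤ n := by
    rw [← hn, Real.rpow_one] at h4
    exact h4
  have hL : 2 ^ m ≤ L33 K m := L33_ge (by omega) m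
  have hL1 : (1 : ℝ) ≤ (L33 K m : ℝ) := by
    have : 1 ≤ L33 K m := Nat.one_le_two_pow
    exact_mod_cast this
  have hB1 : 1 ≤ B33 β m := Real.one_le_rpow (n_ge1 m) hβ.le
  have hBn : B33 β m ^ 8 ≤ n := by
    unfold B33
    rw [← hn, ← Real.rpow_natCast, ← Real.rpow_mul (zero_le_one.trans hn1)]
    calc n ^ (β * ((8 : ℕ) : ℝ)) ≤ n ^ (1 : ℝ) := Real.rpow_le_rpow_of_exponent_le hn1 (by push_cast; linarith)
      _ = n := Real.rpow_one n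
  have hb0' : 0 < b0 := by
    rcases Nat.eq_zero_or_pos b0 with h5 | h5
    · rw [h5, ← hn, Nat.cast_zero] at hb0
      have := Real.rpow_pos_of_pos (lt_of_lt_of_le one_pos hn1) κ
      linarith
    · exact h5
  have htn' : (t : ℝ) ≤ n := by
    rw [hn]
    exact_mod_cast htn
  have hbR : (t : ℝ) ≤ n ^ 2 * B33 β m ^ 2 := by
    have h5 : 1 ≤ B33 β m ^ 2 := one_le_pow₀ hB1
    have h6 : n ≤ n ^ 2 := le_self_pow₀ hn1 two_ne_zero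
    nlinarith
  rw [← hn] at h3
  obtain ⟨g1, g2⟩ := num33 (M := ((M33 m : ℕ) : ℝ)) hn64 hB1 hBn (by rw [hn, M33_real]) (Nat.cast_nonneg t) hbR hL1
    (Real.exp_pos _).le h3 (Nat.cast_nonneg (L33 K m)) le_rfl
  rw [← hn]
  have hdL : d ≤ L33 K m := (hdt.trans htn).trans hL
  refine fl59_Sn hb0' hσ hbb hdp hσd hdL (zero_le_one.trans hB1) hdt (htn.trans hL) (cls_Sn hdt)
    (by have := h2.1; omega) (show 1 ≤ M33 m from Nat.one_le_two_pow) (by have := h2.2.1; omega)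
    (fun j hj => h1 _ le_rfl b0 j hb0 (hbb.trans hbn) ?_ ?_) g1 g2
  · have := hdp.in_block hσ hσc hσd hj
    omega
  · have := hdp.in_block hσ hσc hσd hj
    omega

end

end Pool.Agent.W_7d29a1_C0.Frm33
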