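import Pool.Agent.W_7d29a1_C0.FlipR61
import Pool.Agent.W_7d29a1_C0.ClipL4C
import Pool.Agent.W_7d29a1_C0.Frm33

/-!
CURV0 (MP_7d29a1_pr) (helper61): THE ERRORS OF THE FLIP IN TWO LEVELS AT THE CONCRETE FRAME. `ferr2_33`: the level `exp (-L ^ c₃)`, where `c₃`
does not depend on the clipping level `β` and on `γ`; the probability `exp (-L ^ c')`.
-/

set_option autoImplicit false
set_option linter.unusedSectionVars false

namespace Pool.Agent.W_7d29a1_C0.Ferr61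

open Finset MeasureTheory Filter Topology
open Pool.Agent.W_7d29a1_F Pool.Agent.W_7d29a1_X
open Pool.Agent.W_7d29a1_H (sl EE one_le_EE)
open Pool.Agent.W_7d29a1_HS (In wd)
open Pool.Agent.W_7d29a1_HZ (wd' EE')
open Pool.Agent.W_7d29a1_C0.Mod92 Pool.Agent.W_7d29a1_C0.Flip61 Pool.Agent.W_7d29a1_C0.Pin18
open Pool.Agent.W_7d29a1_C0.OkM18 (okM18)
open Pool.Agent.W_7d29a1_C0.Frm33
open Pool.W7d29a1.C0 (gm)

noncomputable section

variable {μ : Measure ℝ} {s : ℝ} [IsProbabilityMeasure μ]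

/-- Markov, in the form of a level. -/
theorem markov61 {f : Env → ℝ} (hf : Measurable f) (h0 : ∀ η, 0 ≤ f η) {M : ℝ} (hM : ∀ η, f η ≤ M) {θ x : ℝ} (hθ : 0 < θ)
    (h : ∫ η, f η ∂(law μ) ≤ x) : (law μ).real {η | θ < f η} ≤ x / θ := by
  have i1 : Integrable f (law μ) := Integrable.of_bound hf.aestronglyMeasurable M (Eventually.of_forall fun η => by
    rw [Real.norm_eq_abs, abs_of_nonneg (h0 η)]
    exact hM η)
  have h1 := mul_meas_ge_le_integral_of_nonneg (μ := law μ) (Eventually.of_forall h0) i1 θ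
  have h2 : (law μ).real {η | θ < f η} ≤ (law μ).real {η | θ ≤ f η} := measureReal_mono fun η hη => le_of_lt (show θ < f η from hη)
  rw [le_div_iff₀ hθ]
  have h3 : θ * (law μ).real {η | θ < f η} ≤ θ * (law μ).real {η | θ ≤ f η} := mul_le_mul_of_nonneg_left h2 hθ.le
  linarith

/-- The unit is at least a power. -/
theorem EE_low61 {c C : ℝ} {n₀ : ℕ} (h : In μ s c C n₀) : ∃ a k : ℝ, 0 < a ∧ 0 < k ∧ ∀ b : ℕ, 1 ≤ b → k * (b : ℝ) ^ a ≤ EE μ s b := by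
  obtain ⟨a, K, ha, -, hK, hp⟩ := Pool.Agent.W_7d29a1_HZ.EE'_pow h
  have e : ∀ n : ℕ, EE' μ s n = EE μ s n := fun n => max_eq_right (one_le_EE n)
  refine ⟨a, K⁻¹, ha, by positivity, fun b hb => ?_⟩
  have h1 := (hp 1 b le_rfl hb).2.1
  rw [e, e, Nat.cast_one, div_one] at h1
  have h2 : K⁻¹ * (b : ℝ) ^ a * 1 ≤ K⁻¹ * (b : ℝ) ^ a * EE μ s 1 := mul_le_mul_of_nonneg_left (one_le_EE 1) (by positivity)
  linarith

/-- **The errors of the flip in two levels at the concrete frame.** -/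
theorem ferr2_33 {c C : ℝ} {n₀ : ℕ} (h : In μ s c C n₀) {K : ℕ} (hK : 32 ≤ K) {κ : ℝ} (hκ : 0 < κ) :
    ∃ c₃ : ℝ, 0 < c₃ ∧ ∀ β : ℝ, 0 < β → ∃ γ₀ : ℝ, 0 < γ₀ ∧ ∀ γ : ℝ, 0 < γ → γ ≤ γ₀ → ∃ c' : ℝ, 0 < c' ∧
      ∀ᶠ m : ℕ in atTop, ∀ B : ℝ, B33 β m ≤ B → ∀ b0 j : ℕ, ((2 ^ m : ℕ) : ℝ) ^ κ ≤ b0 → b0 ≤ 2 ^ m → b0 ≤ j →
        j + b0 ≤ L33 K m → FErr2 μ s (L33 K m) γ B b0 j (y33 μ s K m) (M33 m) (Real.exp (-(L33 K m : ℝ) ^ c₃))
          (Real.exp (-(L33 K m : ℝ) ^ c')) := by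
  have hK0 : (0 : ℝ) < K := by
    have : (32 : ℝ) ≤ K := by exact_mod_cast hK
    linarith
  obtain ⟨a, k, ha, hk, hE⟩ := EE_low61 h
  obtain ⟨δ₁, c₁, hδ₁, hc₁, N₁, h1⟩ := okM18 h (show 0 < κ / K by positivity)
  have hx0 : 0 < κ * a / (2 * K) := by positivity
  refine ⟨min (c₁ / 2) (κ * a / (2 * K)), lt_min (by linarith) hx0, fun β hβ => ?_⟩
  obtain ⟨γ₀, hγ₀, h2⟩ := ClipL4.clip2_4 h (θ := κ / K) (εB := β / K) (by positivity) (by positivity)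
  refine ⟨γ₀, hγ₀, fun γ hγ hγ' => ?_⟩
  obtain ⟨δ₂, hδ₂, c₂, hc₂, h2⟩ := h2 γ hγ hγ'
  obtain ⟨N₂, h2⟩ := h2 1
  refine ⟨min (c₁ / 2) c₂, lt_min (by linarith) hc₂, ?_⟩
  filter_upwards [ev_L (by omega : 1 ≤ K) (max N₁ N₂), cone33 h hK hδ₁, cone33 h hK hδ₂, ev_n one_pos 6,
    ev_n (show 0 < κ * a / 2 by positivity) (k⁻¹), ev_n (show 0 < K * (c₁ / 2) by positivity) 2]
    with m h3 h4 h5 h33 h6 h7 B hB b0 j hb hbn hbj hj
  have hn1 : (1 : ℝ) ≤ ((2 ^ m : ℕ) : ℝ) := n_ge1 m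
  have hL1 : (1 : ℝ) ≤ (L33 K m : ℝ) := by
    have : 1 ≤ L33 K m := Nat.one_le_two_pow
    exact_mod_cast this
  have hpw : ∀ a b : ℝ, a ≤ b → (L33 K m : ℝ) ^ a ≤ (L33 K m : ℝ) ^ b := fun a b hab => Real.rpow_le_rpow_of_exponent_le hL1 hab
  have ek : (L33 K m : ℝ) ^ (κ / K) = ((2 ^ m : ℕ) : ℝ) ^ κ := by
    rw [L33_pow]
    congr 1
    field_simp
  have eβ : (L33 K m : ℝ) ^ (β / K) = B33 β m := by
    unfold B33
    rw [L33_pow]
    congr 1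
    field_simp
  have h3b : 6 * b0 ≤ L33 K m := by
    rw [Real.rpow_one] at h33
    have e3 : 6 ≤ 2 ^ m := by exact_mod_cast h33
    have e4 : 2 ^ m * 2 ^ m ≤ L33 K m := by
      unfold L33
      rw [← pow_add]
      exact Nat.pow_le_pow_right two_pos (by nlinarith)
    exact (Nat.mul_le_mul e3 hbn).trans e4
  have hb1 : 1 ≤ b0 := by
    have h8 : (1 : ℝ) ≤ ((2 ^ m : ℕ) : ℝ) ^ κ := Real.one_le_rpow hn1 hκ.le
    exact_mod_cast h8.trans hb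
  -- the level of the clipping
  have hEb : (L33 K m : ℝ) ^ min (c₁ / 2) (κ * a / (2 * K)) ≤ 1 * EE μ s b0 := by
    have e1 : (L33 K m : ℝ) ^ (κ * a / (2 * K)) = ((2 ^ m : ℕ) : ℝ) ^ (κ * a / 2) := by
      rw [L33_pow]
      congr 1
      field_simp
    have e2 : ((2 ^ m : ℕ) : ℝ) ^ (κ * a) ≤ (b0 : ℝ) ^ a := by
      rw [Real.rpow_mul (by positivity)]
      exact Real.rpow_le_rpow (by positivity) hb ha.le
    have e3 : ((2 ^ m : ℕ) : ℝ) ^ (κ * a) = ((2 ^ m : ℕ) : ℝ) ^ (κ * a / 2) * ((2 ^ m : ℕ) : ℝ) ^ (κ * a / 2) := by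
      rw [← Real.rpow_add (lt_of_lt_of_le one_pos hn1)]
      congr 1
      ring
    have e4 : 0 < ((2 ^ m : ℕ) : ℝ) ^ (κ * a / 2) := by positivity
    refine (hpw _ _ (min_le_right _ _)).trans ?_
    rw [e1, one_mul]
    refine le_trans ?_ (hE b0 hb1)
    calc ((2 ^ m : ℕ) : ℝ) ^ (κ * a / 2) = k * (k⁻¹ * ((2 ^ m : ℕ) : ℝ) ^ (κ * a / 2)) := by
          field_simp
      _ ≤ k * (((2 ^ m : ℕ) : ℝ) ^ (κ * a / 2) * ((2 ^ m : ℕ) : ℝ) ^ (κ * a / 2)) :=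
          mul_le_mul_of_nonneg_left (mul_le_mul_of_nonneg_right h6 e4.le) hk.le
      _ ≤ k * (b0 : ℝ) ^ a := by
          rw [← e3]
          exact mul_le_mul_of_nonneg_left e2 hk.le
  have hexp : ∀ a b : ℝ, a ≤ b → Real.exp (-b) ≤ Real.exp (-a) := fun a b hab => Real.exp_le_exp.2 (neg_le_neg hab)
  refine ⟨(Real.exp_pos _).le, fun A y hy => ?_, fun A y hy => ?_⟩
  · rw [mem_Ico] at hy
    obtain ⟨q1, q2⟩ := h5.2.2 y (by omega) (by omega)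
    have k1 := h2 (L33 K m) ((le_max_right _ _).trans h3) y q2 B (by rw [eβ]; exact hB) b0 j (by rw [ek]; exact hb) h3b hj (sg A j)
      (sg_or A j)
    have k2 : (law μ).real {η | Real.exp (-(1 * EE μ s b0)) < clip μ s (L33 K m) γ B b0 j (sg A j) y η} ≤
        Real.exp (-(L33 K m : ℝ) ^ c₂) := ENNReal.toReal_le_of_le_ofReal (Real.exp_pos _).le k1
    refine le_trans (measureReal_mono fun η hη => ?_) (k2.trans (hexp _ _ (hpw _ _ (min_le_right _ _))))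
    exact lt_of_le_of_lt (hexp _ _ hEb) hη
  · rw [mem_Ico] at hy
    have hnb : nb (sg A j) y = y + 1 ∨ nb (sg A j) y = y - 1 := by
      rcases sg_or A j with h6 | h6 <;> rw [h6]
      · exact Or.inl (nb_one y)
      · exact Or.inr (nb_neg y)
    have hlo : y33 μ s K m ≤ nb (sg A j) y + 1 := by
      rcases hnb with h6 | h6 <;> rw [h6] <;> omega
    have hup : nb (sg A j) y ≤ y33 μ s K m + M33 m := by
      rcases hnb with h6 | h6 <;> rw [h6] <;> omega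
    obtain ⟨q1, q2⟩ := h4.2.2 _ hlo hup
    have hv : |(-sg A j : ℤ)| ≤ 1 := by
      rcases sg_or A j with h6 | h6 <;> rw [h6] <;> norm_num
    have hlen : ((b0 : ℕ) : ℝ) ≤ ((j + b0 - (j - b0) : ℕ) : ℝ) := by
      have : b0 ≤ j + b0 - (j - b0) := by omega
      exact_mod_cast this
    have k1 := (h1 (L33 K m) ((le_max_left _ _).trans h3) (j - b0) (j + b0 - (j - b0)) (by omega)
      (by rw [ek]; exact hb.trans hlen) _ hv).1 _ q1 q2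
    have k2 := markov61 (μ := μ) (f := nok μ s (L33 K m) (j - b0) (j + b0 - (j - b0)) (-sg A j) (nb (sg A j) y)) (meas_nok _ _ _ _)
      (nok_nonneg _ _ _ _) (M := 1) (nok_le _ _ _ _) (θ := Real.exp (-(L33 K m : ℝ) ^ min (c₁ / 2) (κ * a / (2 * K))))
      (Real.exp_pos _) k1
    refine k2.trans ?_
    rw [← Real.exp_sub]
    refine Real.exp_le_exp.2 ?_
    have e1 : (L33 K m : ℝ) ^ min (c₁ / 2) (κ * a / (2 * K)) ≤ (L33 K m : ℝ) ^ (c₁ / 2) := hpw _ _ (min_le_left _ _)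
    have e2 : (L33 K m : ℝ) ^ min (c₁ / 2) c₂ ≤ (L33 K m : ℝ) ^ (c₁ / 2) := hpw _ _ (min_le_left _ _)
    have e3 : (L33 K m : ℝ) ^ c₁ = (L33 K m : ℝ) ^ (c₁ / 2) * (L33 K m : ℝ) ^ (c₁ / 2) := by
      rw [← Real.rpow_add (lt_of_lt_of_le one_pos hL1)]
      congr 1
      ring
    have e4 : (2 : ℝ) ≤ (L33 K m : ℝ) ^ (c₁ / 2) := by
      rw [L33_pow]
      exact h7
    have e5 : 2 * (L33 K m : ℝ) ^ (c₁ / 2) ≤ (L33 K m : ℝ) ^ c₁ := by
      rw [e3]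
      exact mul_le_mul_of_nonneg_right e4 (by positivity)
    linarith

end

end Pool.Agent.W_7d29a1_C0.Ferr61
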