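import Pool.Agent.W_7d29a1_C0.FlipC4B
import Pool.Agent.W_7d29a1_C0.Ferr61

/-!
CURV0 (MP_7d29a1_pr), [C0]: THE NUMBERS OF THE FLIP AT THE CONCRETE FRAME. `fl4_33`: the level `θ` of `FErr2` beats `exp (n ^ c₃)`, `n = 2 ^ m`,
with `c₃` before `β` and `γ`; `flp45_33`: `Flp45` at the frame with the error `F n^(-5)`. (helper4)
-/

set_option autoImplicit false
set_option linter.unusedSectionVars false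
set_option linter.unusedVariables false

namespace Pool.Agent.W_7d29a1_C0.FlipR4.C4

open Pool.Agent.W_7d29a1_F hiding W_pos W_nonneg W_add
open Finset MeasureTheory Filter Topology Pool.Agent.W_7d29a1_X Pool.Agent.W_7d29a1_HZ
open Pool.Agent.W_7d29a1_Z74
open Pool.Agent.W_7d29a1_HZ.Z74
open Pool.Agent.W_7d29a1_HS (In wd)
open Pool.Agent.W_7d29a1_C0.Mod92
open Pool.Agent.W_7d29a1_C0.Blk18
open Pool.Agent.W_7d29a1_C0.Pin18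
open Pool.Agent.W_7d29a1_C0.Flip61
open Pool.Agent.W_7d29a1_C0.Frm33
open Pool.Agent.W_7d29a1_C0.Ferr61 (ferr2_33)
open Pool.W7d29a1.C0 (gz gm gz_pos gz_ne gm_const gm_mono gm_nonneg gm_sub PP PP_eq)
open Pool.W7d29a1.C0.VT31 (Mp Crs cE cV cC gc gv cE_mono cE_nonneg)
open Pool.W7d29a1.C0.R43
open Pool.W7d29a1.C0.C45 (Flp45)

noncomputable section

variable {μ : Measure ℝ} {s : ℝ} [IsProbabilityMeasure μ]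

/-- The stretched exponential against a power of the scale. -/
theorem ev_exp4 {c : ℝ} (hc : 0 < c) (A : ℕ) : ∀ᶠ m : ℕ in atTop, Real.exp (-((2 ^ m : ℕ) : ℝ) ^ c) ≤ (((2 ^ m : ℕ) : ℝ) ^ A)⁻¹ := by
  obtain ⟨c₁, hc₁, -, N₁, h1⟩ := Pool.Agent.W_7d29a1_Z.NumI77.pow_exp hc A
  have h2 : ∀ᶠ m : ℕ in atTop, N₁ ≤ 2 ^ m := (tendsto_pow_atTop_atTop_of_one_lt one_lt_two).eventually_ge_atTop N₁
  filter_upwards [h2] with m hm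
  have h3 := h1 (2 ^ m) hm
  have h4 : (0 : ℝ) < ((2 ^ m : ℕ) : ℝ) ^ A := by positivity
  rw [Real.rpow_natCast] at h3
  have h5 : ((2 ^ m : ℕ) : ℝ) ^ A * Real.exp (-((2 ^ m : ℕ) : ℝ) ^ c) ≤ 1 := h3.trans (Real.exp_le_one_iff.2 (by
    have := Real.rpow_nonneg (show (0 : ℝ) ≤ ((2 ^ m : ℕ) : ℝ) by positivity) c₁
    linarith))
  rw [← one_div, le_div_iff₀ h4, mul_comm]
  exact h5

/-- **The errors of the flip at the frame**: the level beats `exp (n ^ c₃)`. -/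
theorem fl4_33 {c C : ℝ} {n₀ : ℕ} (h : In μ s c C n₀) {K : ℕ} (hK : 32 ≤ K) {κ : ℝ} (hκ : 0 < κ) (A : ℕ) :
    ∃ c₃ : ℝ, 0 < c₃ ∧ ∀ β : ℝ, 0 < β → ∃ γ₀ : ℝ, 0 < γ₀ ∧ ∀ γ : ℝ, 0 < γ → γ ≤ γ₀ →
      ∀ᶠ m : ℕ in atTop, (2 ≤ y33 μ s K m ∧ y33 μ s K m + M33 m + 1 ≤ L33 K m) ∧
        ∀ B : ℝ, B33 β m ≤ B → ∃ θ ε : ℝ, 0 ≤ θ ∧ θ * Real.exp (((2 ^ m : ℕ) : ℝ) ^ c₃) ≤ (((2 ^ m : ℕ) : ℝ) ^ A)⁻¹ ∧
          ε ≤ (((2 ^ m : ℕ) : ℝ) ^ A)⁻¹ ∧ ∀ b0 j : ℕ, ((2 ^ m : ℕ) : ℝ) ^ κ ≤ b0 → b0 ≤ 2 ^ m → b0 ≤ j → j + b0 ≤ L33 K m →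
            FErr2 μ s (L33 K m) γ B b0 j (y33 μ s K m) (M33 m) θ ε := by
  obtain ⟨c₃, hc₃, h1⟩ := ferr2_33 h hK hκ
  refine ⟨c₃, hc₃, fun β hβ => ?_⟩
  obtain ⟨γ₀, hγ₀, h1⟩ := h1 β hβ
  refine ⟨γ₀, hγ₀, fun γ hγ hγ' => ?_⟩
  obtain ⟨c', hc', h1⟩ := h1 γ hγ hγ'
  have hK0 : (32 : ℝ) ≤ K := by exact_mod_cast hK
  filter_upwards [h1, cone33 h hK one_pos, ev_n hc₃ 2, ev_exp4 hc₃ A, ev_exp4 hc' A] with m h2 h3 h4 h5 h6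
  have hn1 : (1 : ℝ) ≤ ((2 ^ m : ℕ) : ℝ) := n_ge1 m
  have hn0 : (0 : ℝ) < ((2 ^ m : ℕ) : ℝ) := lt_of_lt_of_le one_pos hn1
  refine ⟨⟨h3.1, h3.2.1⟩, fun B hB => ⟨_, _, (Real.exp_pos _).le, ?_, ?_, fun b0 j k1 k2 k3 k4 => h2 B hB b0 j k1 k2 k3 k4⟩⟩
  · refine le_trans ?_ h5
    rw [← Real.exp_add]
    refine Real.exp_le_exp.2 ?_
    have e1 : 2 * ((2 ^ m : ℕ) : ℝ) ^ c₃ ≤ (L33 K m : ℝ) ^ c₃ := by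
      rw [L33_pow]
      have e2 : ((2 ^ m : ℕ) : ℝ) ^ (c₃ + c₃) ≤ ((2 ^ m : ℕ) : ℝ) ^ ((K : ℝ) * c₃) :=
        Real.rpow_le_rpow_of_exponent_le hn1 (by nlinarith)
      refine le_trans ?_ e2
      rw [Real.rpow_add hn0]
      exact mul_le_mul_of_nonneg_right h4 (Real.rpow_nonneg hn0.le _)
    linarith
  · refine le_trans (Real.exp_le_exp.2 (neg_le_neg ?_)) h6
    rw [L33_pow]
    exact Real.rpow_le_rpow_of_exponent_le hn1 (by nlinarith)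

/-- The arithmetic. -/
theorem eC4_le {B F L₁ x θ ε n : ℝ} {K Mn : ℕ} (hB : 0 ≤ B) (hF : 0 ≤ F) (hx : 24 * B ≤ x) (hL : L₁ ≤ 8 * Real.exp (x / 2))
    (hK : 8 * (K : ℝ) ≤ Real.exp (x / 2)) (hx2 : 60 ≤ Real.exp (3 / 8 * x)) (hn : 2 ≤ n) (hBn : 4 * B ≤ n) (hMn : n ^ 6 = Mn)
    (hθ0 : 0 ≤ θ) (hθ : θ * Real.exp x ≤ (n ^ 8)⁻¹) (hε : ε ≤ (n ^ 8)⁻¹) : eC4 B F L₁ K Mn θ ε ≤ F * (n ^ 5)⁻¹ := by
  have hn0 : 0 < n := by linarith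
  have x0 : 0 ≤ x := by linarith
  have hBe : B ≤ Real.exp B := by
    have := Real.add_one_le_exp B
    linarith
  have e2 : Real.exp (2 * B) * B ≤ Real.exp (x / 8) := by
    calc Real.exp (2 * B) * B ≤ Real.exp (2 * B) * Real.exp B := mul_le_mul_of_nonneg_left hBe (Real.exp_pos _).le
      _ = Real.exp (3 * B) := by rw [← Real.exp_add]; congr 1; ring
      _ ≤ Real.exp (x / 8) := Real.exp_le_exp.2 (by linarith)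
  have e4 : Real.exp (4 * B) ≤ Real.exp (x / 2) := Real.exp_le_exp.2 (by linarith)
  have e5 : Real.exp (2 * B) ≤ Real.exp (x / 2) := Real.exp_le_exp.2 (by linarith)
  have e6 : (1 : ℝ) ≤ Real.exp (x / 2) := Real.one_le_exp (by linarith)
  -- the factor of θ
  have k1 : Real.exp (2 * B) * ((B * F * (L₁ + 8 * K) + (F * (Real.exp (4 * B) * (4 * B)) + B * (Real.exp (2 * B) * (2 * F)))) +
      2 * (B * F)) = F * ((Real.exp (2 * B) * B) * ((L₁ + 8 * K) + 4 * Real.exp (4 * B) + 2 * Real.exp (2 * B) + 2)) := by ring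
  have k2 : (L₁ + 8 * K) + 4 * Real.exp (4 * B) + 2 * Real.exp (2 * B) + 2 ≤ 17 * Real.exp (x / 2) := by linarith
  have k3 : (Real.exp (2 * B) * B) * ((L₁ + 8 * K) + 4 * Real.exp (4 * B) + 2 * Real.exp (2 * B) + 2) ≤
      Real.exp (x / 8) * (17 * Real.exp (x / 2)) := by
    have p0 : 0 ≤ Real.exp (2 * B) * B := mul_nonneg (Real.exp_pos _).le hB
    calc _ ≤ (Real.exp (2 * B) * B) * (17 * Real.exp (x / 2)) := mul_le_mul_of_nonneg_left k2 p0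
      _ ≤ _ := mul_le_mul_of_nonneg_right e2 (by positivity)
  have k4 : Real.exp (x / 8) * (17 * Real.exp (x / 2)) ≤ 1 / 3 * Real.exp x := by
    have e7 : Real.exp x = Real.exp (x / 8) * Real.exp (x / 2) * Real.exp (3 / 8 * x) := by
      rw [← Real.exp_add, ← Real.exp_add]
      congr 1
      ring
    rw [e7]
    have p1 : 0 < Real.exp (x / 8) * Real.exp (x / 2) := by positivity
    nlinarith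
  have k5 : 3 * (Real.exp (2 * B) * ((B * F * (L₁ + 8 * K) + (F * (Real.exp (4 * B) * (4 * B)) + B * (Real.exp (2 * B) * (2 * F)))) +
      2 * (B * F))) * θ ≤ F * (n ^ 8)⁻¹ := by
    rw [k1]
    have h1 := mul_le_mul_of_nonneg_left (k3.trans k4) hF
    have h2 := mul_le_mul_of_nonneg_right (mul_le_mul_of_nonneg_left h1 (show (0 : ℝ) ≤ 3 by norm_num)) hθ0
    refine h2.trans ?_
    calc 3 * (F * (1 / 3 * Real.exp x)) * θ = F * (θ * Real.exp x) := by ring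
      _ ≤ F * (n ^ 8)⁻¹ := mul_le_mul_of_nonneg_left hθ hF
  have k6 : 2 * (B * F) / (Mn : ℝ) ≤ 1 / 2 * (F * (n ^ 5)⁻¹) := by
    rw [← hMn, div_le_iff₀ (by positivity)]
    have h1 : 1 / 2 * (F * (n ^ 5)⁻¹) * n ^ 6 = 1 / 2 * F * n := by
      field_simp
    rw [h1]
    nlinarith
  have k7 : 4 * (B * F) * ε ≤ F * (n * (n ^ 8)⁻¹) := by
    have h1 : 4 * (B * F) * ε ≤ 4 * (B * F) * (n ^ 8)⁻¹ := mul_le_mul_of_nonneg_left hε (by positivity)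
    have h2 : 4 * (B * F) * (n ^ 8)⁻¹ ≤ F * (n * (n ^ 8)⁻¹) := by
      have h3 : 4 * (B * F) * (n ^ 8)⁻¹ = (4 * B) * (F * (n ^ 8)⁻¹) := by ring
      have h4 : F * (n * (n ^ 8)⁻¹) = n * (F * (n ^ 8)⁻¹) := by ring
      rw [h3, h4]
      exact mul_le_mul_of_nonneg_right hBn (by positivity)
    exact h1.trans h2
  have k8 : (n ^ 8)⁻¹ ≤ 1 / 8 * (n ^ 5)⁻¹ := by
    have h1 : (n ^ 8)⁻¹ = (n ^ 3)⁻¹ * (n ^ 5)⁻¹ := by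
      rw [← mul_inv]
      congr 1
      ring
    rw [h1]
    refine mul_le_mul_of_nonneg_right ?_ (by positivity)
    rw [one_div]
    refine inv_anti₀ (by norm_num) ?_
    calc (8 : ℝ) = 2 ^ 3 := by norm_num
      _ ≤ n ^ 3 := pow_le_pow_left₀ (by norm_num) hn 3
  have k9 : n * (n ^ 8)⁻¹ ≤ 1 / 4 * (n ^ 5)⁻¹ := by
    have h1 : n * (n ^ 8)⁻¹ = (n ^ 2)⁻¹ * (n ^ 5)⁻¹ := by
      rw [← mul_inv]
      field_simp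
    rw [h1]
    refine mul_le_mul_of_nonneg_right ?_ (by positivity)
    rw [one_div]
    refine inv_anti₀ (by norm_num) ?_
    calc (4 : ℝ) = 2 ^ 2 := by norm_num
      _ ≤ n ^ 2 := pow_le_pow_left₀ (by norm_num) hn 2
  have k10 := mul_le_mul_of_nonneg_left k8 hF
  have k11 := mul_le_mul_of_nonneg_left k9 hF
  have k12 : 0 ≤ F * (n ^ 5)⁻¹ := by positivity
  unfold eC4
  linarith

/-- The numbers at the frame, eventually. -/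
theorem ev_num4 {c₃ : ℝ} (hc : 0 < c₃) (K : ℕ) : ∀ᶠ m : ℕ in atTop, 2 ≤ ((2 ^ m : ℕ) : ℝ) ∧ 60 ≤ Real.exp (3 / 8 * ((2 ^ m : ℕ) : ℝ) ^ c₃) ∧
    8 * (L33 K m : ℝ) ≤ Real.exp (((2 ^ m : ℕ) : ℝ) ^ c₃ / 2) := by
  filter_upwards [ev_n one_pos 8, ev_n hc 160, ev_exp4 (show 0 < c₃ / 2 by linarith) (K + 1), ev_n (show 0 < c₃ / 2 by linarith) 2] with m h1 h2 h3 h4
  rw [Real.rpow_one] at h1
  obtain ⟨n, hn⟩ : ∃ n : ℝ, n = ((2 ^ m : ℕ) : ℝ) := ⟨_, rfl⟩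
  rw [← hn] at h1 h2 h3 h4 ⊢
  have hn0 : 0 < n := by linarith
  refine ⟨by linarith, ?_, ?_⟩
  · have h5 := Real.add_one_le_exp (3 / 8 * n ^ c₃)
    linarith
  · have h5 : (L33 K m : ℝ) = n ^ K := by
      rw [hn]
      unfold L33
      push_cast
      rw [← pow_mul, mul_comm]
    rw [h5]
    have h6 : n ^ (K + 1) ≤ Real.exp (n ^ (c₃ / 2)) := by
      rw [Real.exp_neg] at h3
      have h7 : 0 < n ^ (K + 1) := by positivity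
      exact (inv_le_inv₀ (Real.exp_pos _) h7).1 h3
    have h8 : n ^ (c₃ / 2) ≤ n ^ c₃ / 2 := by
      have e : n ^ c₃ = n ^ (c₃ / 2) * n ^ (c₃ / 2) := by
        rw [← Real.rpow_add hn0]
        congr 1
        ring
      rw [e]
      have h9 : 0 ≤ n ^ (c₃ / 2) := Real.rpow_nonneg hn0.le _
      nlinarith
    calc 8 * n ^ K ≤ n * n ^ K := mul_le_mul_of_nonneg_right h1 (by positivity)
      _ = n ^ (K + 1) := by ring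
      _ ≤ Real.exp (n ^ (c₃ / 2)) := h6
      _ ≤ _ := Real.exp_le_exp.2 h8

/-- **`Flp45` AT THE FRAME**: error `F n^(-5)`. -/
theorem flp45_33 {c C : ℝ} {n₀ : ℕ} (h : In μ s c C n₀) {K : ℕ} (hK : 32 ≤ K) {κ : ℝ} (hκ : 0 < κ) :
    ∃ c₃ : ℝ, 0 < c₃ ∧ ∀ β : ℝ, 0 < β → ∃ γ₀ : ℝ, 0 < γ₀ ∧ ∀ γ : ℝ, 0 < γ → γ ≤ γ₀ →
      ∀ᶠ m : ℕ in atTop, ∀ B : ℝ, B33 β m ≤ B → 24 * B ≤ ((2 ^ m : ℕ) : ℝ) ^ c₃ → 4 * B ≤ ((2 ^ m : ℕ) : ℝ) →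
        ∀ b j : ℕ, ((2 ^ m : ℕ) : ℝ) ^ κ ≤ b → b ≤ 2 ^ m → b ≤ j → j + b ≤ L33 K m → ∀ t : ℝ, |t| ≤ 1 → ∀ dl : ℝ, 0 < dl →
        ∀ c0 K₁ : ℕ, j + b ≤ c0 → K₁ ≤ L33 K m → ∀ (f : Fam (L33 K m)) (cf : ℕ → ℝ) (D F : ℝ),
        Cov1 (L33 K m) b j (fun y ω S => f y ω S - cf y) D → 0 ≤ F → (∀ y ω S S', |f y ω S - f y ω S'| ≤ F) →
        ∀ zf cc : ℕ, j + b ≤ zf → ∀ (ev : ∀ y, (Px (Pn (L33 K m) y) → ℝ) → ℝ → Px (Pn (L33 K m) y) → Prop) (M₁ L₁ : ℝ),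
        L₁ ≤ 8 * Real.exp (((2 ^ m : ℕ) : ℝ) ^ c₃ / 2) →
        TSw μ s (L33 K m) γ B b j (fun y _ _ w ρ => ev y w M₁ (ρ 0)) (fun y _ _ w ρ => ev y w (M₁ + 1) (ρ 0)) L₁ →
        ∀ c1 d1 c2 d2 : ℕ, c1 ≤ j - b → j + b ≤ d1 → c2 ≤ j - b → j + b ≤ d2 →
        Flp45 μ s (L33 K m) (ys33 μ s K m) γ B b j t dl c0 K₁ zf cc f ev (fun _ => pJ c1 d1) (fun _ => pJ c2 d2) M₁
          (F * (((2 ^ m : ℕ) : ℝ) ^ 5)⁻¹) := by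
  obtain ⟨c₃, hc₃, h1⟩ := fl4_33 h hK hκ 8
  refine ⟨c₃, hc₃, fun β hβ => ?_⟩
  obtain ⟨γ₀, hγ₀, h1⟩ := h1 β hβ
  refine ⟨γ₀, hγ₀, fun γ hγ hγ' => ?_⟩
  filter_upwards [h1 γ hγ hγ', ev_num4 hc₃ K, ev_n hκ 1] with m h2 h3 h4 B hB hB24 hB4 b j hb hbn hbj hj t ht dl hdl c0 K₁ hc0 hK₁ f cf D F
    hf F0 hF zf cc hz ev M₁ L₁ hL hev c1 d1 c2 d2 k1 k1' k2 k2'
  obtain ⟨⟨g1, g2⟩, h2⟩ := h2
  obtain ⟨θ, ε, hθ0, hθ, hε, hE⟩ := h2 B hB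
  have hB0 : 0 ≤ B := le_trans (by unfold B33; positivity) hB
  have hb1 : 0 < b := by
    have : (1 : ℝ) ≤ b := h4.trans hb
    exact_mod_cast this
  have key := flp45 (μ := μ) (s := s) (N := L33 K m) (δ := γ) (B := B) (y₀ := y33 μ s K m) (n := M33 m) (θ := θ) (ε := ε) hb1 hj hB0 ht hdl
    (c0 := c0) (K := K₁) hc0 hf F0 hF (zf := zf) (cc := cc) hz hev k1 k1' k2 k2' (by omega) Nat.one_le_two_pow (by omega)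
    (hE b j hb hbn hbj hj)
  have e : eC4 B F L₁ K₁ (M33 m) θ ε ≤ F * (((2 ^ m : ℕ) : ℝ) ^ 5)⁻¹ :=
    eC4_le hB0 F0 hB24 hL ((mul_le_mul_of_nonneg_left (Nat.cast_le.2 hK₁) (by norm_num)).trans h3.2.2) h3.2.1 h3.1 hB4
      (M33_real m).symm hθ0 hθ hε
  unfold Flp45 at key ⊢
  exact key.trans (add_le_add le_rfl e)

/-- **(T2) at the frame.** -/
theorem flp45_nta33 {c C : ℝ} {n₀ : ℕ} (h : In μ s c C n₀) {K : ℕ} (hK : 32 ≤ K) {κ : ℝ} (hκ : 0 < κ) :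
    ∃ c₃ : ℝ, 0 < c₃ ∧ ∀ β : ℝ, 0 < β → ∃ γ₀ : ℝ, 0 < γ₀ ∧ ∀ γ : ℝ, 0 < γ → γ ≤ γ₀ →
      ∀ᶠ m : ℕ in atTop, ∀ B : ℝ, B33 β m ≤ B → 24 * B ≤ ((2 ^ m : ℕ) : ℝ) ^ c₃ → 4 * B ≤ ((2 ^ m : ℕ) : ℝ) →
        ∀ b j : ℕ, ((2 ^ m : ℕ) : ℝ) ^ κ ≤ b → b ≤ 2 ^ m → b ≤ j → j + b ≤ L33 K m → ∀ t : ℝ, |t| ≤ 1 → ∀ dl : ℝ, 0 < dl →
        ∀ c0 K₁ : ℕ, j + b ≤ c0 → K₁ ≤ L33 K m → ∀ (f : Fam (L33 K m)) (cf : ℕ → ℝ) (D F : ℝ),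
        Cov1 (L33 K m) b j (fun y ω S => f y ω S - cf y) D → 0 ≤ F → (∀ y ω S S', |f y ω S - f y ω S'| ≤ F) →
        ∀ zf cc : ℕ, j + b ≤ zf → ∀ M₁ : ℝ, 10 * M₁ ≤ ((2 ^ m : ℕ) : ℝ) ^ c₃ →
        ∀ c1 d1 c2 d2 : ℕ, c1 ≤ j - b → j + b ≤ d1 → c2 ≤ j - b → j + b ≤ d2 →
        ∀ cw dw wl al : ℕ, cw ≤ j - b → j + b ≤ dw → (al ≤ j - b ∨ j + b ≤ wl) →
        Flp45 μ s (L33 K m) (ys33 μ s K m) γ B b j t dl c0 K₁ zf cc f (fun _ w M => Nta w (pJ cw dw) wl al M) (fun _ => pJ c1 d1)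
          (fun _ => pJ c2 d2) M₁ (F * (((2 ^ m : ℕ) : ℝ) ^ 5)⁻¹) := by
  obtain ⟨c₃, hc₃, h1⟩ := flp45_33 h hK hκ
  refine ⟨c₃, hc₃, fun β hβ => ?_⟩
  obtain ⟨γ₀, hγ₀, h1⟩ := h1 β hβ
  refine ⟨γ₀, hγ₀, fun γ hγ hγ' => ?_⟩
  filter_upwards [h1 γ hγ hγ', ev_n hc₃ 1] with m h2 h4 B hB hB24 hB4 b j hb hbn hbj hj t ht dl hdl c0 K₁ hc0 hK₁ f cf D F
    hf F0 hF zf cc hz M₁ hM c1 d1 c2 d2 k1 k1' k2 k2' cw dw wl al l1 l2 l3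
  have h := tsw_ow1 (μ := μ) (s := s) (N := L33 K m) (δ := γ) (B := B) l1 l2 l3 (a := M₁) (a' := M₁ + 1) le_rfl 0
  refine h2 B hB hB24 hB4 b j hb hbn hbj hj t ht dl hdl c0 K₁ hc0 hK₁ f cf D F hf F0 hF zf cc hz (fun _ w M => Nta w (pJ cw dw) wl al M) M₁
    (4 * Real.exp M₁) ?_ h c1 d1 c2 d2 k1 k1' k2 k2'
  have e1 : Real.exp M₁ ≤ Real.exp (((2 ^ m : ℕ) : ℝ) ^ c₃ / 2) := Real.exp_le_exp.2 (by linarith)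
  have e2 := Real.exp_pos (((2 ^ m : ℕ) : ℝ) ^ c₃ / 2)
  linarith

/-- **(Tp), (T0Q) at the frame.** -/
theorem flp45_tau33 {c C : ℝ} {n₀ : ℕ} (h : In μ s c C n₀) {K : ℕ} (hK : 32 ≤ K) {κ : ℝ} (hκ : 0 < κ) :
    ∃ c₃ : ℝ, 0 < c₃ ∧ ∀ β : ℝ, 0 < β → ∃ γ₀ : ℝ, 0 < γ₀ ∧ ∀ γ : ℝ, 0 < γ → γ ≤ γ₀ →
      ∀ᶠ m : ℕ in atTop, ∀ B : ℝ, B33 β m ≤ B → 24 * B ≤ ((2 ^ m : ℕ) : ℝ) ^ c₃ → 4 * B ≤ ((2 ^ m : ℕ) : ℝ) →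
        ∀ b j : ℕ, ((2 ^ m : ℕ) : ℝ) ^ κ ≤ b → b ≤ 2 ^ m → b ≤ j → j + b ≤ L33 K m → ∀ t : ℝ, |t| ≤ 1 → ∀ dl : ℝ, 0 < dl →
        ∀ c0 K₁ : ℕ, j + b ≤ c0 → K₁ ≤ L33 K m → ∀ (f : Fam (L33 K m)) (cf : ℕ → ℝ) (D F : ℝ),
        Cov1 (L33 K m) b j (fun y ω S => f y ω S - cf y) D → 0 ≤ F → (∀ y ω S S', |f y ω S - f y ω S'| ≤ F) →
        ∀ zf cc : ℕ, j + b ≤ zf → ∀ M₁ : ℝ, 10 * M₁ ≤ ((2 ^ m : ℕ) : ℝ) ^ c₃ →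
        ∀ c1 d1 c2 d2 : ℕ, c1 ≤ j - b → j + b ≤ d1 → c2 ≤ j - b → j + b ≤ d2 →
        ∀ cq dq cw dw wl al : ℕ, cq ≤ j - b → j + b ≤ dq → cw ≤ j - b → j + b ≤ dw → (al ≤ j - b ∨ j + b ≤ wl) →
        Flp45 μ s (L33 K m) (ys33 μ s K m) γ B b j t dl c0 K₁ zf cc f (fun _ w M => TauM w (pJ cq dq) (pJ cw dw) wl al M)
          (fun _ => pJ c1 d1) (fun _ => pJ c2 d2) M₁ (F * (((2 ^ m : ℕ) : ℝ) ^ 5)⁻¹) := by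
  obtain ⟨c₃, hc₃, h1⟩ := flp45_33 h hK hκ
  refine ⟨c₃, hc₃, fun β hβ => ?_⟩
  obtain ⟨γ₀, hγ₀, h1⟩ := h1 β hβ
  refine ⟨γ₀, hγ₀, fun γ hγ hγ' => ?_⟩
  filter_upwards [h1 γ hγ hγ', ev_n hc₃ 1] with m h2 h4 B hB hB24 hB4 b j hb hbn hbj hj t ht dl hdl c0 K₁ hc0 hK₁ f cf D F
    hf F0 hF zf cc hz M₁ hM c1 d1 c2 d2 k1 k1' k2 k2' cq dq cw dw wl al l0 l0' l1 l2 l3
  have h := tsw_tau (μ := μ) (s := s) (N := L33 K m) (δ := γ) (B := B) l0 l0' l1 l2 l3 (a := 5 * M₁) (a' := 5 * (M₁ + 1)) (by linarith) 0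
  refine h2 B hB hB24 hB4 b j hb hbn hbj hj t ht dl hdl c0 K₁ hc0 hK₁ f cf D F hf F0 hF zf cc hz
    (fun _ w M => TauM w (pJ cq dq) (pJ cw dw) wl al M) M₁ (8 * Real.exp (5 * M₁)) ?_ h c1 d1 c2 d2 k1 k1' k2 k2'
  have e1 : Real.exp (5 * M₁) ≤ Real.exp (((2 ^ m : ℕ) : ℝ) ^ c₃ / 2) := Real.exp_le_exp.2 (by linarith)
  linarith

end

end Pool.Agent.W_7d29a1_C0.FlipR4.C4
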