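import Pool.Agent.W_7d29a1_C0.DgL96
import Pool.Agent.W_7d29a1_C0.FlipC4C

/-!
MP_7d29a1_pr, [CURV0] / [C0], leaf E2, part L (helper96): **THE FLIP OF OWN AND THE PAIRS OF THE WINDOW AT THE CONCRETE FRAME**: `FlpB96` with
the error `F n^(-5)`.
-/

set_option autoImplicit false
set_option linter.unusedSectionVars false
set_option linter.unusedVariables false

namespace Pool.Agent.W_7d29a1_C0.DgL96

open Finset MeasureTheory Filter Topology Pool.Agent.W_7d29a1_F Pool.Agent.W_7d29a1_X Pool.Agent.W_7d29a1_C0.Mod92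
open Pool.Agent.W_7d29a1_HS (In)
open Pool.Agent.W_7d29a1_C0.Blk18 Pool.Agent.W_7d29a1_C0.Frm33 Pool.Agent.W_7d29a1_C0.FlipR4 Pool.Agent.W_7d29a1_C0.FlipR4.C4
open Pool.Agent.W_7d29a1_C0.Flip61
open Pool.W7d29a1.C0
open Pool.W7d29a1.C0.VT31
open Pool.W7d29a1.C0.R43
open Pool.W7d29a1.C0.C45

noncomputable section

variable {μ : Measure ℝ} {s : ℝ} [IsProbabilityMeasure μ]

/-- The error of the bare flip is at most the one of the micro flip. -/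
theorem eB_le96 {B F L₁ θ ε : ℝ} {K n : ℕ} (hB : 1 ≤ B) (hF : 0 ≤ F) (hL : 0 ≤ L₁) (hθ : 0 ≤ θ) (hε : 0 ≤ ε) :
    eB96 B F L₁ K n θ ε ≤ eC4 B F L₁ K n θ ε := by
  have hBF : F ≤ B * F := le_mul_of_one_le_left hF hB
  have hK : (0 : ℝ) ≤ 8 * K := by positivity
  have h1 : 2 * F / (n : ℝ) ≤ 2 * (B * F) / n := div_le_div_of_nonneg_right (by linarith) (Nat.cast_nonneg _)
  have h2 : 4 * F * ε ≤ 4 * (B * F) * ε := mul_le_mul_of_nonneg_right (by linarith) hε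
  have h3 : Real.exp (2 * B) * (2 * F) ≤ B * (Real.exp (2 * B) * (2 * F)) :=
    le_mul_of_one_le_left (by positivity) hB
  have h4 : F * (L₁ + 8 * K) ≤ B * F * (L₁ + 8 * K) := mul_le_mul_of_nonneg_right hBF (by linarith)
  have h5 : 0 ≤ F * (Real.exp (4 * B) * (4 * B)) := by
    have : 0 ≤ B := by linarith
    positivity
  have h6 : 3 * (Real.exp (2 * B) * ((F * (L₁ + 8 * K) + Real.exp (2 * B) * (2 * F)) + 2 * F)) * θ ≤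
      3 * (Real.exp (2 * B) * ((B * F * (L₁ + 8 * K) + (F * (Real.exp (4 * B) * (4 * B)) + B * (Real.exp (2 * B) * (2 * F)))) +
        2 * (B * F))) * θ := by
    refine mul_le_mul_of_nonneg_right (mul_le_mul_of_nonneg_left (mul_le_mul_of_nonneg_left ?_ (Real.exp_pos _).le) (by norm_num)) hθ
    linarith
  unfold eB96 eC4
  linarith

/-- **THE FLIP OF OWN AND THE PAIRS OF THE WINDOW AT THE FRAME.** -/
theorem flpD33 {c C : ℝ} {n₀ : ℕ} (h : In μ s c C n₀) {K : ℕ} (hK : 32 ≤ K) {κ : ℝ} (hκ : 0 < κ) :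
    ∃ c₃ : ℝ, 0 < c₃ ∧ ∀ β : ℝ, 0 < β → ∃ γ₀ : ℝ, 0 < γ₀ ∧ ∀ γ : ℝ, 0 < γ → γ ≤ γ₀ →
      ∀ᶠ m : ℕ in atTop, ∀ B : ℝ, B33 β m ≤ B → 24 * B ≤ ((2 ^ m : ℕ) : ℝ) ^ c₃ → 4 * B ≤ ((2 ^ m : ℕ) : ℝ) →
        ∀ b j : ℕ, ((2 ^ m : ℕ) : ℝ) ^ κ ≤ b → b ≤ 2 ^ m → b ≤ j → j + b ≤ L33 K m → ∀ t : ℝ, |t| ≤ 1 → ∀ dl : ℝ, 0 < dl →
        ∀ c0 K₁ : ℕ, j + b ≤ c0 → K₁ ≤ L33 K m → ∀ (f : Fam (L33 K m)) (cf : ℕ → ℝ) (D F : ℝ),
        Cov1 (L33 K m) b j (fun y ω S => f y ω S - cf y) D → 0 ≤ F → (∀ y ω S S', |f y ω S - f y ω S'| ≤ F) →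
        ∀ zf cc : ℕ, j + b ≤ zf → ∀ M₁ : ℝ, 12 * M₁ ≤ ((2 ^ m : ℕ) : ℝ) ^ c₃ → 0 ≤ M₁ →
        ∀ cw dw wl al : ℕ, cw ≤ j - b → j + b ≤ dw → (al ≤ j - b ∨ j + b ≤ wl) →
        ∀ cq dq i k : ℕ, cq ≤ j - b → j + b ≤ dq → (k ≤ j - b ∨ j + b ≤ i) →
        FlpB96 μ s (L33 K m) (ys33 μ s K m) γ B b j t dl c0 K₁ zf cc f
          (fun _ w M S => Nta w (pJ cw dw) wl al M S ∧ TauM w (pJ cq dq) (pJ cq dq) i k M S) M₁ (F * (((2 ^ m : ℕ) : ℝ) ^ 5)⁻¹) := by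
  obtain ⟨c₃, hc₃, h1⟩ := fl4_33 h hK hκ 8
  refine ⟨c₃, hc₃, fun β hβ => ?_⟩
  obtain ⟨γ₀, hγ₀, h1⟩ := h1 β hβ
  refine ⟨γ₀, hγ₀, fun γ hγ hγ' => ?_⟩
  filter_upwards [h1 γ hγ hγ', ev_num4 hc₃ K, ev_n hκ 1, ev_n hc₃ 6] with m h2 h3 h4 h6 B hB hB24 hB4 b j hb hbn hbj hj t ht dl hdl c0 K₁
    hc0 hK₁ f cf D F hf F0 hF zf cc hz M₁ hM hM0 cw dw wl al l1 l2 l3 cq dq i k l4 l5 l6
  obtain ⟨⟨g1, g2⟩, h2⟩ := h2
  obtain ⟨θ, ε, hθ0, hθ, hε, hE⟩ := h2 B hB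
  have hn1 := n_ge1 m
  have hB1 : 1 ≤ B := le_trans (by
    unfold B33
    exact Real.one_le_rpow hn1 hβ.le) hB
  have hB0 : 0 ≤ B := by linarith
  have hb1 : 0 < b := by
    have : (1 : ℝ) ≤ b := h4.trans hb
    exact_mod_cast this
  have hL : 4 * Real.exp M₁ + 8 * Real.exp (5 * M₁) ≤ 8 * Real.exp (((2 ^ m : ℕ) : ℝ) ^ c₃ / 2) := by
    have e1 : Real.exp M₁ ≤ Real.exp (5 * M₁) := Real.exp_le_exp.2 (by linarith)
    have e2 : Real.exp (5 * M₁) * Real.exp (1 / 2) ≤ Real.exp (((2 ^ m : ℕ) : ℝ) ^ c₃ / 2) := by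
      rw [← Real.exp_add]
      exact Real.exp_le_exp.2 (by linarith)
    have e3 : (3 / 2 : ℝ) ≤ Real.exp (1 / 2) := by
      have := Real.add_one_le_exp (1 / 2 : ℝ)
      linarith
    have e4 := Real.exp_pos (5 * M₁)
    nlinarith
  have key := flpD96 (μ := μ) (s := s) (N := L33 K m) (δ := γ) (B := B) (y₀ := y33 μ s K m) (n := M33 m) (θ := θ) (ε := ε) hb1 hj hB0 ht hdl
    (c0 := c0) (K := K₁) hc0 hf F0 hF (zf := zf) (cc := cc) hz l1 l2 l3 l4 l5 l6 M₁ (by omega) Nat.one_le_two_pow (by omega)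
    (hE b j hb hbn hbj hj)
  have e : eC4 B F (4 * Real.exp M₁ + 8 * Real.exp (5 * M₁)) K₁ (M33 m) θ (max ε 0) ≤ F * (((2 ^ m : ℕ) : ℝ) ^ 5)⁻¹ :=
    eC4_le hB0 F0 hB24 hL ((mul_le_mul_of_nonneg_left (Nat.cast_le.2 hK₁) (by norm_num)).trans h3.2.2) h3.2.1 h3.1 hB4
      (M33_real m).symm hθ0 hθ (max_le hε (by positivity))
  have e0 : eB96 B F (4 * Real.exp M₁ + 8 * Real.exp (5 * M₁)) K₁ (M33 m) θ ε ≤
      eB96 B F (4 * Real.exp M₁ + 8 * Real.exp (5 * M₁)) K₁ (M33 m) θ (max ε 0) := by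
    have := mul_le_mul_of_nonneg_left (le_max_left ε 0) (by linarith : 0 ≤ 4 * F)
    unfold eB96
    linarith
  have e' := (e0.trans (eB_le96 (K := K₁) (n := M33 m) hB1 F0 (by positivity) hθ0 (le_max_right _ _))).trans e
  unfold FlpB96 at key ⊢
  exact key.trans (add_le_add le_rfl e')

end

end Pool.Agent.W_7d29a1_C0.DgL96
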