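import Pool.Agent.W_7d29a1_C0.E2K43
import Pool.Agent.W_7d29a1_C0.FlpD96
import Pool.Agent.W_7d29a1_C0.Cor45I
import Pool.Agent.W_7d29a1_C0.EstM45

/-!
MP_7d29a1_pr, [CURV0] / [C0], leaf E2 (helper45): **THE CONSTANTS OF (E2) AT THE CONCRETE FRAME, WITH A FREE LEVEL EXPONENT.** `CstL45`: the corner data
`RL45` of all rows (part L) and the flips of the four terms (`T2`, `Tp`, `T0Q`: `Flp45`; pairs of the window: `FlpB96`). `cstML45`: they exist in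
the form `EstM`, level `M = L ^ εM`; `cstM43`: the constants `Cst43` of helper43 in the form `EstM`.
-/

set_option autoImplicit false
set_option linter.unusedSectionVars false
set_option linter.unusedVariables false

namespace Pool.Agent.W_7d29a1_C0.E2KL45

open Finset MeasureTheory Filter Topology Pool.Agent.W_7d29a1_F Pool.Agent.W_7d29a1_X
open Pool.Agent.W_7d29a1_H (EE sl)
open Pool.Agent.W_7d29a1_HS (In)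
open Pool.Agent.W_7d29a1_HZ (wd')
open Pool.Agent.W_7d29a1_C0 Pool.Agent.W_7d29a1_C0.Mod92 Pool.Agent.W_7d29a1_C0.Asm96 Pool.Agent.W_7d29a1_C0.EstC46
open Pool.Agent.W_7d29a1_C0.Frm33 Pool.Agent.W_7d29a1_C0.E2G43 Pool.Agent.W_7d29a1_C0.E2S39 Pool.Agent.W_7d29a1_C0.MicN96
open Pool.Agent.W_7d29a1_C0.Tv48 (EndOk)
open Pool.Agent.W_7d29a1_C0.EvT50 (ev_pw50 ev_exp50)
open Pool.Agent.W_7d29a1_C0.Par92 (Est Sml)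
open Pool.Agent.W_7d29a1_C0.EstM45 Pool.Agent.W_7d29a1_C0.E2K43
open Pool.Agent.W_7d29a1_C0.FlipR4 Pool.Agent.W_7d29a1_C0.FlipR4.C4 Pool.Agent.W_7d29a1_C0.DgL96 Pool.Agent.W_7d29a1_C0.Flip61
open Pool.W7d29a1.C0
open Pool.W7d29a1.C0.R43
open Pool.W7d29a1.C0.C45

noncomputable section

/-- **THE CONSTANTS OF PART L AT ONE LENGTH**: `εM` is the exponent of the smaller level of the corner data, `M` the level of the events. -/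
structure CstL45 (μ : Measure ℝ) (s : ℝ) (K : ℕ) (δ ι β γ : ℝ) (m : ℕ) (εM M : ℝ) : Prop where
  εM0 : 0 < εM
  Me : ((L33 K m : ℕ) : ℝ) ^ εM ≤ M / 2
  N64 : (64 : ℝ) ≤ ((L33 K m : ℕ) : ℝ)
  B0 : 0 ≤ B33 β m
  BN : B33 β m ≤ ((L33 K m : ℕ) : ℝ)
  rl : ∀ p : ℕ, δ * m ≤ p → ∀ y ∈ ys33 μ s K m, ∀ j : ℕ, 2 ^ (p - ⌈ι * (m : ℝ)⌉₊) ≤ j → ∀ t : ℝ, |t| ≤ 1 →
    ∀ c0 Kg : ℕ, j + 2 ^ (p - ⌈ι * (m : ℝ)⌉₊) ≤ c0 → 2 ^ (p - ⌈ι * (m : ℝ)⌉₊) ≤ Kg → c0 + Kg ≤ L33 K m →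
      RL45 μ s (L33 K m) (Pn (L33 K m) y) γ (B33 β m) (2 ^ (p - ⌈ι * (m : ℝ)⌉₊)) j t c0 Kg (ι / K) εM 14
  fN : ∀ p : ℕ, δ * m ≤ p → p ≤ m → ∀ j : ℕ, 2 ^ (p - ⌈ι * (m : ℝ)⌉₊) ≤ j → j + 2 ^ (p - ⌈ι * (m : ℝ)⌉₊) ≤ L33 K m →
    ∀ t : ℝ, |t| ≤ 1 → ∀ dl : ℝ, 0 < dl → ∀ c0 K₁ : ℕ, j + 2 ^ (p - ⌈ι * (m : ℝ)⌉₊) ≤ c0 → K₁ ≤ L33 K m →
    ∀ (f : Fam (L33 K m)) (cf : ℕ → ℝ) (D F : ℝ), Cov1 (L33 K m) (2 ^ (p - ⌈ι * (m : ℝ)⌉₊)) j (fun y ω S => f y ω S - cf y) D → 0 ≤ F →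
    (∀ y ω S S', |f y ω S - f y ω S'| ≤ F) → ∀ zf cc : ℕ, j + 2 ^ (p - ⌈ι * (m : ℝ)⌉₊) ≤ zf →
    ∀ c1 d1 c2 d2 : ℕ, c1 ≤ j - 2 ^ (p - ⌈ι * (m : ℝ)⌉₊) → j + 2 ^ (p - ⌈ι * (m : ℝ)⌉₊) ≤ d1 →
      c2 ≤ j - 2 ^ (p - ⌈ι * (m : ℝ)⌉₊) → j + 2 ^ (p - ⌈ι * (m : ℝ)⌉₊) ≤ d2 →
    ∀ cw dw wl al : ℕ, cw ≤ j - 2 ^ (p - ⌈ι * (m : ℝ)⌉₊) → j + 2 ^ (p - ⌈ι * (m : ℝ)⌉₊) ≤ dw →
      (al ≤ j - 2 ^ (p - ⌈ι * (m : ℝ)⌉₊) ∨ j + 2 ^ (p - ⌈ι * (m : ℝ)⌉₊) ≤ wl) →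
    Flp45 μ s (L33 K m) (ys33 μ s K m) γ (B33 β m) (2 ^ (p - ⌈ι * (m : ℝ)⌉₊)) j t dl c0 K₁ zf cc f (fun _ w M => Nta w (pJ cw dw) wl al M)
      (fun _ => pJ c1 d1) (fun _ => pJ c2 d2) (M / 2 + 2 * B33 β m) (F * (((2 ^ m : ℕ) : ℝ) ^ 5)⁻¹)
  fT : ∀ p : ℕ, δ * m ≤ p → p ≤ m → ∀ j : ℕ, 2 ^ (p - ⌈ι * (m : ℝ)⌉₊) ≤ j → j + 2 ^ (p - ⌈ι * (m : ℝ)⌉₊) ≤ L33 K m →
    ∀ t : ℝ, |t| ≤ 1 → ∀ dl : ℝ, 0 < dl → ∀ c0 K₁ : ℕ, j + 2 ^ (p - ⌈ι * (m : ℝ)⌉₊) ≤ c0 → K₁ ≤ L33 K m →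
    ∀ (f : Fam (L33 K m)) (cf : ℕ → ℝ) (D F : ℝ), Cov1 (L33 K m) (2 ^ (p - ⌈ι * (m : ℝ)⌉₊)) j (fun y ω S => f y ω S - cf y) D → 0 ≤ F →
    (∀ y ω S S', |f y ω S - f y ω S'| ≤ F) → ∀ zf cc : ℕ, j + 2 ^ (p - ⌈ι * (m : ℝ)⌉₊) ≤ zf →
    ∀ c1 d1 c2 d2 : ℕ, c1 ≤ j - 2 ^ (p - ⌈ι * (m : ℝ)⌉₊) → j + 2 ^ (p - ⌈ι * (m : ℝ)⌉₊) ≤ d1 →
      c2 ≤ j - 2 ^ (p - ⌈ι * (m : ℝ)⌉₊) → j + 2 ^ (p - ⌈ι * (m : ℝ)⌉₊) ≤ d2 →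
    ∀ cq dq cw dw wl al : ℕ, cq ≤ j - 2 ^ (p - ⌈ι * (m : ℝ)⌉₊) → j + 2 ^ (p - ⌈ι * (m : ℝ)⌉₊) ≤ dq →
      cw ≤ j - 2 ^ (p - ⌈ι * (m : ℝ)⌉₊) → j + 2 ^ (p - ⌈ι * (m : ℝ)⌉₊) ≤ dw →
      (al ≤ j - 2 ^ (p - ⌈ι * (m : ℝ)⌉₊) ∨ j + 2 ^ (p - ⌈ι * (m : ℝ)⌉₊) ≤ wl) →
    Flp45 μ s (L33 K m) (ys33 μ s K m) γ (B33 β m) (2 ^ (p - ⌈ι * (m : ℝ)⌉₊)) j t dl c0 K₁ zf cc f
      (fun _ w M => TauM w (pJ cq dq) (pJ cw dw) wl al M) (fun _ => pJ c1 d1) (fun _ => pJ c2 d2) (M / 2 + 2 * B33 β m)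
      (F * (((2 ^ m : ℕ) : ℝ) ^ 5)⁻¹)
  fD : ∀ p : ℕ, δ * m ≤ p → p ≤ m → ∀ j : ℕ, 2 ^ (p - ⌈ι * (m : ℝ)⌉₊) ≤ j → j + 2 ^ (p - ⌈ι * (m : ℝ)⌉₊) ≤ L33 K m →
    ∀ t : ℝ, |t| ≤ 1 → ∀ dl : ℝ, 0 < dl → ∀ c0 K₁ : ℕ, j + 2 ^ (p - ⌈ι * (m : ℝ)⌉₊) ≤ c0 → K₁ ≤ L33 K m →
    ∀ (f : Fam (L33 K m)) (cf : ℕ → ℝ) (D F : ℝ), Cov1 (L33 K m) (2 ^ (p - ⌈ι * (m : ℝ)⌉₊)) j (fun y ω S => f y ω S - cf y) D → 0 ≤ F →
    (∀ y ω S S', |f y ω S - f y ω S'| ≤ F) → ∀ zf cc : ℕ, j + 2 ^ (p - ⌈ι * (m : ℝ)⌉₊) ≤ zf →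
    ∀ cw dw wl al : ℕ, cw ≤ j - 2 ^ (p - ⌈ι * (m : ℝ)⌉₊) → j + 2 ^ (p - ⌈ι * (m : ℝ)⌉₊) ≤ dw →
      (al ≤ j - 2 ^ (p - ⌈ι * (m : ℝ)⌉₊) ∨ j + 2 ^ (p - ⌈ι * (m : ℝ)⌉₊) ≤ wl) →
    ∀ cq dq i k : ℕ, cq ≤ j - 2 ^ (p - ⌈ι * (m : ℝ)⌉₊) → j + 2 ^ (p - ⌈ι * (m : ℝ)⌉₊) ≤ dq →
      (k ≤ j - 2 ^ (p - ⌈ι * (m : ℝ)⌉₊) ∨ j + 2 ^ (p - ⌈ι * (m : ℝ)⌉₊) ≤ i) →
    FlpB96 μ s (L33 K m) (ys33 μ s K m) γ (B33 β m) (2 ^ (p - ⌈ι * (m : ℝ)⌉₊)) j t dl c0 K₁ zf cc f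
      (fun _ w M S => Nta w (pJ cw dw) wl al M S ∧ TauM w (pJ cq dq) (pJ cq dq) i k M S) (M / 2 + 2 * B33 β m)
      (F * (((2 ^ m : ℕ) : ℝ) ^ 5)⁻¹)

variable {μ : Measure ℝ} {s : ℝ}

/-- **The constants `Cst43`, level exponent free.** -/
theorem cstM43 [IsProbabilityMeasure μ] {c C : ℝ} {n₀ : ℕ} (h : In μ s c C n₀)
    (hQI : ∀ p : ℝ, 1 < p → ∃ C θ0 : ℝ, 0 ≤ C ∧ 0 < θ0 ∧ H27.QI μ p C θ0) {K : ℕ} (hK : 32 ≤ K) {δ : ℝ} (hδ : 0 < δ) (hδ1 : δ ≤ 1) :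
    EstM fun ι εM β γ m => ∃ κ e : ℝ, Cst43 μ s K δ ι β γ m εM κ (((L33 K m : ℕ) : ℝ) ^ εM) e ⌈10 * ((L33 K m : ℕ) : ℝ) ^ εM⌉₊ := by
  have hK0 : (0 : ℝ) < K := by
    have : (32 : ℝ) ≤ K := by exact_mod_cast hK
    linarith
  have hK1 : (1 : ℝ) ≤ K := by
    have : (32 : ℝ) ≤ K := by exact_mod_cast hK
    linarith
  refine ⟨δ / 4, by positivity, fun ι hι hιδ => ?_⟩
  obtain ⟨δp, κ, c₂, hδp, hκ, hc₂, L₀, hL₀, hP⟩ := pk39 (s := s) h (ι / K) (δ / (8 * K)) (by positivity) (by positivity)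
  refine ⟨min (ι / K) κ / 2, half_pos (lt_min (by positivity) hκ), fun εM hεM0 hεM => ?_⟩
  have hεMκ : εM < κ := by
    have : min (ι / K) κ ≤ κ := min_le_right _ _
    linarith
  have hεMι : εM ≤ ι / K := by
    have h1 : min (ι / K) κ ≤ ι / K := min_le_left _ _
    have h2 : 0 < ι / K := by positivity
    linarith
  have hιK : ι / K ≤ 1 := by
    rw [div_le_one hK0]
    linarith
  obtain ⟨β₀, γ₀, hβ₀, hγ₀, H⟩ := rw96 h hQI (κ := δ / (4 * K)) (ε := ι / K) (εM := εM) (K' := 8) (by positivity)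
    (by rw [div_le_one (by positivity)]; linarith) (by positivity) hιK hεM0 (by norm_num)
  refine ⟨β₀, hβ₀, fun β hβ hβ' => ⟨γ₀, hγ₀, fun γ hγ hγ' => ?_⟩⟩
  obtain ⟨δ', hδ', N₀, H⟩ := H γ hγ hγ'
  have evA : ∀ᶠ N : ℕ in atTop, 120 * (N : ℝ) ^ εM ≤ (N : ℝ) ^ κ ∧ 8 ≤ (N : ℝ) ^ εM ∧
      Real.exp (-(1 * (N : ℝ) ^ c₂)) ≤ (N : ℝ) ^ (-9 : ℝ) ∧ 16 * Real.exp (-(1 * (N : ℝ) ^ εM)) ≤ (N : ℝ) ^ (-9 : ℝ) ∧ 2 ≤ N := by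
    filter_upwards [ev_pw50 hεMκ 120, ev_pw50 hεM0 8, ev_exp50 1 9 (a := 1) one_pos hc₂, ev_exp50 16 9 (a := 1) one_pos hεM0,
      eventually_ge_atTop 2] with N h1 h2 h3 h4 h5
    rw [Real.rpow_zero, mul_one] at h2
    rw [one_mul] at h3
    exact ⟨h1, h2, h3, h4, h5⟩
  obtain ⟨N₁, hN₁⟩ := eventually_atTop.1 evA
  filter_upwards [ev_L (by omega : 1 ≤ K) (max N₀ (max L₀ N₁)), cone33 h hK hδ', cone33 h hK hδp, b0_33 hδ hιδ] with m h1 h2 h3 h4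
  obtain ⟨N, hN⟩ : ∃ N : ℕ, N = L33 K m := ⟨_, rfl⟩
  rw [← hN] at h1
  have k0 : N₀ ≤ N := (le_max_left _ _).trans h1
  have k1 : L₀ ≤ N := (le_max_left _ _).trans ((le_max_right _ _).trans h1)
  have k2 : N₁ ≤ N := (le_max_right _ _).trans ((le_max_right _ _).trans h1)
  obtain ⟨a1, a2, a3, a4, a5⟩ := hN₁ N k2
  have hN2 : (2 : ℝ) ≤ N := by exact_mod_cast a5
  have hN0 : (0 : ℝ) < N := by linarith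
  have hn1 := n_ge1 m
  have hys : ∀ y ∈ ys33 μ s K m, y33 μ s K m ≤ y + 1 ∧ y ≤ y33 μ s K m + M33 m := fun y hy => by
    have := mem_Ico.1 (show y ∈ Ico (y33 μ s K m) (y33 μ s K m + M33 m) from hy)
    omega
  have hMn : (N : ℝ) ^ εM ≤ ((2 ^ m : ℕ) : ℝ) ^ ι := by
    rw [← L_pow43 (by omega : 1 ≤ K) m ι, ← hN]
    exact Real.rpow_le_rpow_of_exponent_le (by linarith) hεMι
  obtain ⟨q, hq⟩ : ∃ q : ℕ, q = ⌈10 * (N : ℝ) ^ εM⌉₊ := ⟨_, rfl⟩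
  have hq1 : 10 * (N : ℝ) ^ εM ≤ q := by
    rw [hq]
    exact Nat.le_ceil _
  have hq2 : (q : ℝ) ≤ 20 * (N : ℝ) ^ εM := by
    have : (q : ℝ) < 10 * (N : ℝ) ^ εM + 1 := by
      rw [hq]
      exact Nat.ceil_lt_add_one (by positivity)
    linarith
  have goal : Cst43 μ s K δ ι β γ m εM κ ((N : ℝ) ^ εM) (Real.exp (-(N : ℝ) ^ c₂) + 16 * Real.exp (-(N : ℝ) ^ εM)) q := by
    refine ⟨hεM0, a2, by rw [← hN], hMn, hq1, hq2, by rw [← hN]; exact a1, ?_, by positivity, ?_, ?_, ?_⟩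
    · rw [← hN]
      refine hP N k1 (ys33 μ s K m) (fun y hy => ?_) _ a2 (by linarith [Real.rpow_nonneg hN0.le εM])
      have h5 := h3.2.2 y (hys y hy).1 (hys y hy).2
      rw [hN]
      exact h5
    · rw [← hN]
      rw [one_mul] at a3 a4
      have e1 : (N : ℝ) ^ (-9 : ℝ) + (N : ℝ) ^ (-9 : ℝ) ≤ (N : ℝ) ^ (-8 : ℝ) := by
        have e2 : (N : ℝ) ^ (-8 : ℝ) = (N : ℝ) ^ (-9 : ℝ) * N := by
          rw [show (-8 : ℝ) = -9 + 1 by norm_num, Real.rpow_add hN0, Real.rpow_one]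
        rw [e2]
        nlinarith [Real.rpow_pos_of_pos hN0 (-9)]
      linarith
    · intro p hp y hy j hj t ht c0 Kg hc hKg hcK
      obtain ⟨hyL, hyc⟩ := h2.2.2 y (hys y hy).1 (hys y hy).2
      have hne : Nonempty (Px (Pn (L33 K m) y)) := ne_Pn hyL
      have e1 : ((L33 K m : ℕ) : ℝ) ^ (δ / (4 * K)) = ((2 ^ m : ℕ) : ℝ) ^ (δ / 4) := by
        rw [← L_pow43 (by omega : 1 ≤ K) m (δ / 4)]
        congr 1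
        field_simp
      have hb := h4 p hp
      refine H (L33 K m) (by rw [← hN]; exact k0) y hyL hyc (B33 β m) (by unfold B33; positivity) ?_ _ j (by rw [e1]; exact hb) hj t ht c0 Kg
        hc ?_ hcK
      · unfold B33
        rw [L33_pow]
        refine Real.rpow_le_rpow_of_exponent_le hn1 ?_
        nlinarith
      · rw [e1]
        exact hb.trans (by exact_mod_cast hKg)
    · rw [← hN]
      rw [one_mul] at a4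
      have e1 : (N : ℝ) ^ (-9 : ℝ) ≤ (N : ℝ) ^ (-8 : ℝ) := Real.rpow_le_rpow_of_exponent_le (by linarith) (by norm_num)
      have e2 := Real.exp_pos (-(N : ℝ) ^ εM)
      linarith
  rw [hN, hq, hN] at goal
  exact ⟨_, _, goal⟩

theorem tendsto_pow45 : Tendsto (fun m : ℕ => 2 ^ m) atTop atTop := tendsto_pow_atTop_atTop_of_one_lt one_lt_two

/-- `n ^ (δ / 4)` as a power of the length. -/
theorem L_pow45 {K : ℕ} (hK : 1 ≤ K) {δ : ℝ} (m : ℕ) : ((L33 K m : ℕ) : ℝ) ^ (δ / (4 * K)) = ((2 ^ m : ℕ) : ℝ) ^ (δ / 4) := by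
  have hK0 : (K : ℝ) ≠ 0 := by
    have : (1 : ℝ) ≤ K := by exact_mod_cast hK
    linarith
  rw [← L_pow43 hK m (δ / 4)]
  congr 1
  field_simp

/-- **THE CONSTANTS OF PART L.** -/
theorem cstML45 [IsProbabilityMeasure μ] {c C : ℝ} {n₀ : ℕ} (h : In μ s c C n₀)
    (hQI : ∀ p : ℝ, 1 < p → ∃ C θ0 : ℝ, 0 ≤ C ∧ 0 < θ0 ∧ H27.QI μ p C θ0) {K : ℕ} (hK : 32 ≤ K) {δ : ℝ} (hδ : 0 < δ) (hδ1 : δ ≤ 1) :
    EstM fun ι εM β γ m => CstL45 μ s K δ ι β γ m (εM / 2) (((L33 K m : ℕ) : ℝ) ^ εM) := by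
  have hK0 : (0 : ℝ) < K := by
    have : (32 : ℝ) ≤ K := by exact_mod_cast hK
    linarith
  have hK1 : (1 : ℝ) ≤ K := by
    have : (32 : ℝ) ≤ K := by exact_mod_cast hK
    linarith
  have hκ : 0 < δ / 4 := by positivity
  obtain ⟨cN, hcN, HN⟩ := flp45_nta33 (μ := μ) (s := s) h hK hκ
  obtain ⟨cT, hcT, HT⟩ := flp45_tau33 (μ := μ) (s := s) h hK hκ
  obtain ⟨cD, hcD, HD⟩ := flpD33 (μ := μ) (s := s) h hK hκ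
  obtain ⟨cc, hcc⟩ : ∃ x : ℝ, x = min cN (min cT cD) := ⟨_, rfl⟩
  have hcc0 : 0 < cc := by
    rw [hcc]
    exact lt_min hcN (lt_min hcT hcD)
  have ccN : cc ≤ cN := by rw [hcc]; exact min_le_left _ _
  have ccT : cc ≤ cT := by rw [hcc]; exact (min_le_right _ _).trans (min_le_left _ _)
  have ccD : cc ≤ cD := by rw [hcc]; exact (min_le_right _ _).trans (min_le_right _ _)
  refine ⟨δ / 4, by positivity, fun ι hι hιδ => ?_⟩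
  have hιK : ι / K ≤ 1 := by
    rw [div_le_one hK0]
    linarith
  refine ⟨cc / (2 * K), by positivity, fun εM hεM0 hεM => ?_⟩
  have hKε : (K : ℝ) * εM ≤ cc / 2 := by
    have := mul_le_mul_of_nonneg_left hεM hK0.le
    calc (K : ℝ) * εM ≤ K * (cc / (2 * K)) := this
      _ = cc / 2 := by field_simp
  obtain ⟨β₀, γR, hβ₀, hγR, HR⟩ := rl45 (μ := μ) (s := s) h hQI (κ := δ / (4 * K)) (ε := ι / K) (εM := εM / 2) (K' := 14) (by positivity)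
    (by rw [div_le_one (by positivity)]; linarith) (by positivity) hιK (half_pos hεM0) (by norm_num)
  refine ⟨min β₀ (min (cc / 2) (1 / 2)), lt_min hβ₀ (lt_min (by positivity) (by norm_num)), fun β hβ hβ' => ?_⟩
  have b1 : β ≤ β₀ := hβ'.trans (min_le_left _ _)
  have b2 : β ≤ cc / 2 := hβ'.trans ((min_le_right _ _).trans (min_le_left _ _))
  have b3 : β ≤ 1 / 2 := hβ'.trans ((min_le_right _ _).trans (min_le_right _ _))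
  obtain ⟨γN, hγN, HN⟩ := HN β hβ
  obtain ⟨γT, hγT, HT⟩ := HT β hβ
  obtain ⟨γD, hγD, HD⟩ := HD β hβ
  refine ⟨min γR (min γN (min γT γD)), lt_min hγR (lt_min hγN (lt_min hγT hγD)), fun γ hγ hγ' => ?_⟩
  have g1 : γ ≤ γR := hγ'.trans (min_le_left _ _)
  have g2 : γ ≤ γN := hγ'.trans ((min_le_right _ _).trans (min_le_left _ _))
  have g3 : γ ≤ γT := hγ'.trans ((min_le_right _ _).trans ((min_le_right _ _).trans (min_le_left _ _)))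
  have g4 : γ ≤ γD := hγ'.trans ((min_le_right _ _).trans ((min_le_right _ _).trans (min_le_right _ _)))
  obtain ⟨δ', hδ', N₀, HR⟩ := HR γ hγ g1
  -- the numbers
  have evA : ∀ᶠ N : ℕ in atTop, 2 * (N : ℝ) ^ (εM / 2) ≤ (N : ℝ) ^ εM ∧ 64 ≤ N := by
    filter_upwards [ev_pw50 (by linarith : εM / 2 < εM) 2, eventually_ge_atTop 64] with N h1 h2
    exact ⟨h1, h2⟩
  obtain ⟨N₁, hN₁⟩ := eventually_atTop.1 evA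
  have evB : ∀ᶠ m : ℕ in atTop, 64 * ((2 ^ m : ℕ) : ℝ) ^ (cc / 2) ≤ ((2 ^ m : ℕ) : ℝ) ^ cc ∧ 8 * ((2 ^ m : ℕ) : ℝ) ^ (1 / 2 : ℝ) ≤ ((2 ^ m : ℕ) : ℝ) ^ (1 : ℝ) :=
    (tendsto_pow45.eventually (ev_pw50 (by linarith : cc / 2 < cc) 64)).and (tendsto_pow45.eventually (ev_pw50 (by norm_num : (1 / 2 : ℝ) < 1) 8))
  filter_upwards [ev_L (by omega : 1 ≤ K) (max N₀ N₁), cone33 h hK hδ', b0_33 hδ hιδ, HN γ hγ g2, HT γ hγ g3, HD γ hγ g4, evB]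
    with m h1 h2 h4 fN fT fD hB
  obtain ⟨N, hN⟩ : ∃ N : ℕ, N = L33 K m := ⟨_, rfl⟩
  rw [← hN] at h1
  have k0 : N₀ ≤ N := (le_max_left _ _).trans h1
  have k2 : N₁ ≤ N := (le_max_right _ _).trans h1
  obtain ⟨a1, a5⟩ := hN₁ N k2
  have hn1 := n_ge1 m
  have hn0 : (0 : ℝ) < ((2 ^ m : ℕ) : ℝ) := by linarith
  have hys : ∀ y ∈ ys33 μ s K m, y33 μ s K m ≤ y + 1 ∧ y ≤ y33 μ s K m + M33 m := fun y hy => by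
    have := mem_Ico.1 (show y ∈ Ico (y33 μ s K m) (y33 μ s K m + M33 m) from hy)
    omega
  have hN64 : (64 : ℝ) ≤ (N : ℝ) := by exact_mod_cast a5
  obtain ⟨q1, q2⟩ := hB
  have hnN : ((2 ^ m : ℕ) : ℝ) ≤ (N : ℝ) := by
    rw [hN]
    exact_mod_cast L33_ge (by omega : 1 ≤ K) m
  have hBc : B33 β m ≤ ((2 ^ m : ℕ) : ℝ) ^ (cc / 2) := by
    unfold B33
    exact Real.rpow_le_rpow_of_exponent_le hn1 b2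
  have hBh : B33 β m ≤ ((2 ^ m : ℕ) : ℝ) ^ (1 / 2 : ℝ) := by
    unfold B33
    exact Real.rpow_le_rpow_of_exponent_le hn1 b3
  have hB0 : 0 ≤ B33 β m := by unfold B33; positivity
  have hMc : ((L33 K m : ℕ) : ℝ) ^ εM ≤ ((2 ^ m : ℕ) : ℝ) ^ (cc / 2) := by
    rw [L33_pow]
    exact Real.rpow_le_rpow_of_exponent_le hn1 hKε
  have hM0 : 0 ≤ ((L33 K m : ℕ) : ℝ) ^ εM := Real.rpow_nonneg (Nat.cast_nonneg _) _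
  have pc : ∀ x : ℝ, cc ≤ x → ((2 ^ m : ℕ) : ℝ) ^ cc ≤ ((2 ^ m : ℕ) : ℝ) ^ x := fun x hx => Real.rpow_le_rpow_of_exponent_le hn1 hx
  have n24 : ∀ x : ℝ, cc ≤ x → 24 * B33 β m ≤ ((2 ^ m : ℕ) : ℝ) ^ x := fun x hx => by
    have := pc x hx
    have h0 : 0 ≤ ((2 ^ m : ℕ) : ℝ) ^ (cc / 2) := Real.rpow_nonneg hn0.le _
    linarith
  have n4 : 4 * B33 β m ≤ ((2 ^ m : ℕ) : ℝ) := by
    rw [Real.rpow_one] at q2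
    linarith
  have n12 : ∀ x : ℝ, cc ≤ x → 12 * (((L33 K m : ℕ) : ℝ) ^ εM / 2 + 2 * B33 β m) ≤ ((2 ^ m : ℕ) : ℝ) ^ x := fun x hx => by
    have := pc x hx
    linarith
  have hbn : ∀ p : ℕ, p ≤ m → 2 ^ (p - ⌈ι * (m : ℝ)⌉₊) ≤ 2 ^ m := fun p hp => Nat.pow_le_pow_right two_pos (by omega)
  refine ⟨half_pos hεM0, ?_, ?_, hB0, ?_, ?_, ?_, ?_, ?_⟩
  · rw [← hN]
    linarith
  · rw [← hN]
    exact hN64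
  · rw [← hN]
    calc B33 β m ≤ 4 * B33 β m := by linarith
      _ ≤ _ := n4
      _ ≤ _ := hnN
  · intro p hp y hy j hj t ht c0 Kg hc hKg hcK
    obtain ⟨hyL, hyc⟩ := h2.2.2 y (hys y hy).1 (hys y hy).2
    have hne : Nonempty (Px (Pn (L33 K m) y)) := ne_Pn hyL
    have e1 := L_pow45 (δ := δ) (by omega : 1 ≤ K) m
    have hb := h4 p hp
    refine HR (L33 K m) (by rw [← hN]; exact k0) y hyL hyc (B33 β m) hB0 ?_ _ j (by rw [e1]; exact hb) hj t ht c0 Kg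
      hc ?_ hcK
    · unfold B33
      rw [L33_pow]
      refine Real.rpow_le_rpow_of_exponent_le hn1 ?_
      nlinarith
    · rw [e1]
      exact hb.trans (by exact_mod_cast hKg)
  · intro p hp hpm j hj hjL t ht dl hdl c0 K₁ hc0 hK₁ f cf D F hf F0 hF zf cc' hz c1 d1 c2 d2 k1 k1' k2 k2' cw dw wl al l1 l2 l3
    exact fN (B33 β m) le_rfl (n24 _ ccN) n4 _ j (h4 p hp) (hbn p hpm) hj hjL t ht dl hdl c0 K₁ hc0 hK₁ f cf D F hf F0 hF zf cc' hz _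
      (by linarith [n12 _ ccN]) c1 d1 c2 d2 k1 k1' k2 k2' cw dw wl al l1 l2 l3
  · intro p hp hpm j hj hjL t ht dl hdl c0 K₁ hc0 hK₁ f cf D F hf F0 hF zf cc' hz c1 d1 c2 d2 k1 k1' k2 k2' cq dq cw dw wl al l0 l0' l1 l2 l3
    exact fT (B33 β m) le_rfl (n24 _ ccT) n4 _ j (h4 p hp) (hbn p hpm) hj hjL t ht dl hdl c0 K₁ hc0 hK₁ f cf D F hf F0 hF zf cc' hz _
      (by linarith [n12 _ ccT]) c1 d1 c2 d2 k1 k1' k2 k2' cq dq cw dw wl al l0 l0' l1 l2 l3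
  · intro p hp hpm j hj hjL t ht dl hdl c0 K₁ hc0 hK₁ f cf D F hf F0 hF zf cc' hz cw dw wl al l1 l2 l3 cq dq i k l4 l5 l6
    exact fD (B33 β m) le_rfl (n24 _ ccD) n4 _ j (h4 p hp) (hbn p hpm) hj hjL t ht dl hdl c0 K₁ hc0 hK₁ f cf D F hf F0 hF zf cc' hz _
      (n12 _ ccD) (by positivity) cw dw wl al l1 l2 l3 cq dq i k l4 l5 l6

end

end Pool.Agent.W_7d29a1_C0.E2KL45
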