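import Pool.Agent.W_7d29a1_C0.Pt4I50

/-!
MP_7d29a1_pr, [C0], the pair price of `¬ okE` at the corner (helper50), tenth part: the two forms of the pair price; the data of the mixed lists.
-/

set_option autoImplicit false
set_option linter.unusedSectionVars false
set_option linter.unusedVariables false

namespace Pool.Agent.W_7d29a1_C0.Pt450

open MeasureTheory ProbabilityTheory Filter Topology Finset
open Pool.Agent.W_7d29a1_F Pool.Agent.W_7d29a1_X Pool.Agent.W_7d29a1_h4g Pool.Agent.W_7d29a1_H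
open Pool.Agent.W_7d29a1_HS (In wd md)
open Pool.Agent.W_7d29a1_HZ Pool.Agent.W_7d29a1_HZ.R72 Pool.Agent.W_7d29a1_Z.Asm72
open Pool.Agent.W_7d29a1_HZ.Z86
open Pool.Agent.W_7d29a1_C0.P86
open Pool.Agent.W_7d29a1_C0.Mod92 (Px Pn lw ps pJ ne_Pn ps_Pn pos_card ps_of_le ps_of_ge wm Pm meas_lw meas_cE meas_gz meas_gm meas_wm int_Pm
  Fam avy avy_mono avy_const)
open Pool.Agent.W_7d29a1_C0.Swap57 (NI cE2 NI_nonneg)
open Pool.Agent.W_7d29a1_C0.N51 (mc3 mc3_nonneg mc3_le_one)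
open Pool.Agent.W_7d29a1_C0.N29 (Pla)
open Pool.Agent.W_7d29a1_C0.T93 (rdist Fam2 pr2)
open Pool.Agent.W_7d29a1_C0.E2S39 (meas_mc39 gap_cutL gap_cutR out39 out39_nonneg out39_le_one pout dom_out rdist_comm39 rdist_of_le39)
open Pool.Agent.W_7d29a1_C0.P15 (iE iE_mem iE_one iE_zero EvT EvI EvII TieP FinB ig15 gm01 meas_sec)
open Pool.W7d29a1.C0 (gm gz gz_pos gm_nonneg gm_mono gm_const gm_add PP)
open Pool.W7d29a1.C0.VT31 (Mp cE gm_mul_cE fz cE_sum cE_mono cE_nonneg)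
open Pool.W7d29a1.C0.R43 (Tau Rp mI bI st swP_pJ tau_rp st_end le_st)
open Pool.W7d29a1.C0.O1 (Gz okE en)
open scoped ENNReal

noncomputable section

variable {μ : Measure ℝ} {s : ℝ} {N : ℕ} [IsProbabilityMeasure μ] {ε θ κ M e w R : ℝ} {ys : Finset ℕ}

section Fin

variable {S : Finset ℕ} {zf oc b l lo l1 l2 q H c : ℕ} {od ou ov g0 g1 t1 t2 z : ℕ → ℕ} {dd e1 d3 : ℝ}

/-- **THE PAIR PRICE WITHOUT AN OUTER TIE.** -/
theorem pair50_one (hP : Pk50 μ s ε θ κ N ys M e) (G : Geo50 S N zf oc b l lo l1 l2 q H od ou ov g0 g1 t1 t2 z)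
    (hl : (N : ℝ) ^ θ ≤ l) (hR : 1 ≤ R) (hwd : ∀ i : ℕ, 1 ≤ i → i ≤ H → wd' μ s i ≤ R * wd' μ s l) (hq : 3 * (q : ℝ) ≤ (N : ℝ) ^ κ)
    (hdd : Real.exp (-(N : ℝ) ^ κ) ≤ dd) (he1 : Real.exp (-(N : ℝ) ^ κ) ≤ e1) (hd3 : Real.exp (-(N : ℝ) ^ κ) ≤ d3)
    {y : ℕ} (hy : y ∈ ys) {U Go : ℕ → Fn N y} {Bo : ℕ → Env × Finset ℕ → Px (Pn N y) → Prop}
    (hF : Fu50 μ s N y ((N : ℝ) ^ κ) M S oc lo l1 l2 q od ou ov g0 g1 t1 t2 z dd e1 d3 U Go Bo) :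
    ∀ j ∈ S, ∀ k ∈ S, ∫ ω, gm (wm μ s N (Pn N y) ω) (fun x => U j ω x * U k ω x) ∂(Pm μ N) ≤ phT μ s N ε R e 1 b l (rdist j k) := by
  intro j hj k hk
  have hA1 : 1 ≤ (N : ℝ) ^ ε := Real.one_le_rpow (by exact_mod_cast hP.N1) hP.ε0
  have e2 : ∀ i i' : ℕ, Ig μ s N y (fun _ _ => 1) (fun ω x => U i ω x * U i' ω x) =
      ∫ ω, gm (wm μ s N (Pn N y) ω) (fun x => U i ω x * U i' ω x) ∂(Pm μ N) := fun i i' => by
    unfold Ig
    simp only [one_mul]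
  rcases le_total k j with h | h
  · have h1 := pair50 hP hy G (out_one hP hy) hA1 hl hR hwd hq hdd he1 hd3 hF hk hj h
    rw [e2] at h1
    rw [rdist_of_le39 h]
    refine le_trans (le_of_eq ?_) h1
    congr 1
    funext ω
    congr 1
    funext x
    ring
  · have h1 := pair50 hP hy G (out_one hP hy) hA1 hl hR hwd hq hdd he1 hd3 hF hj hk h
    rw [e2] at h1
    rw [rdist_comm39, rdist_of_le39 h]
    exact h1

/-- **THE PAIR PRICE WITH THE TIE OF THE SPECTATOR**, averaged over the ends (the form of `rows39`). -/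
theorem pair50_tie (hP : Pk50 μ s ε θ κ N ys M e) (G : Geo50 S N zf oc b l lo l1 l2 q H od ou ov g0 g1 t1 t2 z)
    (hl : (N : ℝ) ^ θ ≤ l) (hR : 1 ≤ R) (hwd : ∀ i : ℕ, 1 ≤ i → i ≤ H → wd' μ s i ≤ R * wd' μ s l) (hq : 3 * (q : ℝ) ≤ (N : ℝ) ^ κ)
    (hdd : Real.exp (-(N : ℝ) ^ κ) ≤ dd) (he1 : Real.exp (-(N : ℝ) ^ κ) ≤ e1) (hd3 : Real.exp (-(N : ℝ) ^ κ) ≤ d3)
    (hzc : zf ≤ c) (hcN : c ≤ N) (hlo : (N : ℝ) ^ θ ≤ ((c - zf : ℕ) : ℝ)) (hys : ys.Nonempty) {U Go : ℕ → Fam N}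
    {Bo : ℕ → ∀ y : ℕ, Env × Finset ℕ → Px (Pn N y) → Prop}
    (hF : ∀ y ∈ ys, Fu50 μ s N y ((N : ℝ) ^ κ) M S oc lo l1 l2 q od ou ov g0 g1 t1 t2 z dd e1 d3 (fun j => U j y) (fun j => Go j y)
      (fun j => Bo j y)) :
    ∀ j ∈ S, ∀ k ∈ S, avy ys (pr2 μ s N (fun y ω x z => NI zf c x z) (U j) (U k)) ≤
      phT μ s N ε R e (po μ s N ε (c - zf)) b l (rdist j k) := by
  intro j hj k hk
  have e2 : ∀ y ∈ ys, ∀ i i' : ℕ, pr2 μ s N (fun y ω x z => NI zf c x z) (U i) (U i') y =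
      Ig μ s N y (out39 μ s N y zf c) (fun ω x => U i y ω x * U i' y ω x) := fun y hy i i' => by
    have := ne_Pn (N := N) (y := y) (hP.yN y hy)
    unfold pr2 Ig
    congr 1
    funext ω
    rw [← Pool.Agent.W_7d29a1_C0.CutT57.gm_gm_eq_PP]
    congr 1
    funext x
    unfold out39
    have h1 : (fun z => NI zf c x z * (U i y ω x * U i' y ω x)) = fun z => (U i y ω x * U i' y ω x) * NI zf c x z := by
      funext z
      ring
    rw [h1, Pool.Agent.W_7d29a1_C0.CutT57.gm_const_mul]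
    ring
  have key : ∀ y ∈ ys, pr2 μ s N (fun y ω x z => NI zf c x z) (U j) (U k) y ≤ phT μ s N ε R e (po μ s N ε (c - zf)) b l (rdist j k) :=
    fun y hy => by
    rw [e2 y hy]
    have hO := out_tie hP hy hzc hcN hlo
    have hw : po μ s N ε (c - zf) ≤ (N : ℝ) ^ ε := po_le ε _
    rcases le_total k j with h | h
    · have h1 := pair50 hP hy G hO hw hl hR hwd hq hdd he1 hd3 (hF y hy) hk hj h
      rw [rdist_of_le39 h]
      refine le_trans (le_of_eq ?_) h1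
      congr 1
      funext ω x
      ring
    · have h1 := pair50 hP hy G hO hw hl hR hwd hq hdd he1 hd3 (hF y hy) hj hk h
      rw [rdist_comm39, rdist_of_le39 h]
      exact h1
  exact (avy_mono key).trans (avy_const hys _).le

end Fin

/-! ### The data of the prices from the bounds -/

variable {c₀ C₀ : ℝ} {n₀ : ℕ}

/-- The conclusion of `price_mix'` for the lists of length `k`. -/
def MxK (μ : Measure ℝ) (s ε θ : ℝ) (k : ℕ) (δ κ c₂ : ℝ) (L₀ : ℕ) : Prop :=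
  ∀ L : ℕ, L₀ ≤ L → ∀ N : ℕ, L ≤ 16 * N → N ≤ L → ∀ y : ℕ, y ≤ N → |(y : ℝ) - sl μ s * N| ≤ ((L : ℝ) ^ δ * wd' μ s N) →
    ∀ M : ℝ, 8 ≤ M → M ≤ (L : ℝ) ^ κ →
    ∀ Ps : List (Pla N y), Ps.length = k → (∀ P ∈ Ps, P.p.Ok L N θ) → Ps.Pairwise Pla.Bef → (∀ P ∈ Ps, P.Dm μ s ((L : ℝ) ^ κ) M) →
    ∀ f : Env × Finset ℕ → Px (Pn N y) → ℝ, (∀ A x, Measurable fun η => f (η, A) x) → (∀ ω x, 0 ≤ f ω x) → (∀ ω x, f ω x ≤ 1) →
    (∀ P ∈ Ps, FinB P.J f) →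
    ∫ ω, gm (wm μ s N (Pn N y) ω) (fun x => f ω x * (Ps.map fun P => P.G ω x).prod) ∂(Pm μ N) ≤
      (Ps.map fun P => P.pr μ s L ε).prod * ∫ ω, gm (wm μ s N (Pn N y) ω) (f ω) ∂(Pm μ N) +
        (Real.exp (-(L : ℝ) ^ c₂) + 2 * k * Real.exp (-M))

theorem dm_mono {y : ℕ} {X X' M : ℝ} {P : Pla N y} (h : P.Dm μ s X M) (hX : X ≤ X') : P.Dm μ s X' M := by
  obtain ⟨p, G, tr⟩ := P
  cases tr with
  | none => exact E2S39.Dom.mono h hX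
  | some R =>
    obtain ⟨h1, h2, h3, h4, A, h5, h6⟩ := h
    refine ⟨h1, h2, h3, h4, A, h5, fun ω x => (h6 ω x).trans ?_⟩
    exact mul_le_mul_of_nonneg_right (Real.exp_le_exp.2 hX) (mc3_nonneg _ _)

theorem MxK.mono {ε θ : ℝ} {k : ℕ} {δ κ c₂ δ' κ' c₂' : ℝ} {L₀ L₀' : ℕ} (h : MxK μ s ε θ k δ κ c₂ L₀) (hδ : δ' ≤ δ) (hκ : κ' ≤ κ)
    (hc : c₂' ≤ c₂) (hL : L₀ ≤ L₀') (h1 : 1 ≤ L₀') : MxK μ s ε θ k δ' κ' c₂' L₀' := by
  intro L hL' N hLN hNL y hyN hyc M hM hML Ps hlen hok hpw hdom f f1 f2 f3 f4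
  have hL1 : (1 : ℝ) ≤ L := by exact_mod_cast h1.trans hL'
  have r1 := Real.rpow_le_rpow_of_exponent_le hL1 hδ
  have r2 := Real.rpow_le_rpow_of_exponent_le hL1 hκ
  have r3 := Real.rpow_le_rpow_of_exponent_le hL1 hc
  refine (h L (hL.trans hL') N hLN hNL y hyN (hyc.trans (mul_le_mul_of_nonneg_right r1 ?_)) M hM (hML.trans r2) Ps hlen hok hpw
    (fun P hP => dm_mono (hdom P hP) r2) f f1 f2 f3 f4).trans ?_
  · exact zero_le_one.trans (le_max_left _ _)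
  · have := Real.exp_le_exp.2 (neg_le_neg r3)
    linarith

theorem mx50 (h : In μ s c₀ C₀ n₀) (K : ℕ) (hK : K ≤ 8) : ∀ ε θ : ℝ, 0 < ε → 0 < θ → ∃ δ κ c₂ : ℝ, 0 < δ ∧ 0 < κ ∧ 0 < c₂ ∧
    ∃ L₀ : ℕ, 1 ≤ L₀ ∧ ∀ k ≤ K, MxK μ s ε θ k δ κ c₂ L₀ := by
  intro ε θ hε hθ
  induction K with
  | zero =>
    obtain ⟨δ, κ, c₂, hδ, hκ, hc₂, L₀, hP⟩ := N29.price_mix' h 0 (by norm_num) ε θ hε hθ
    refine ⟨δ, κ, c₂, hδ, hκ, hc₂, L₀ + 1, by omega, fun k hk => ?_⟩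
    obtain rfl : k = 0 := by omega
    exact MxK.mono (fun L hL => hP L hL) le_rfl le_rfl le_rfl (by omega) (by omega)
  | succ K ih =>
    obtain ⟨δ, κ, c₂, hδ, hκ, hc₂, L₀, hL₀, hP⟩ := ih (by omega)
    obtain ⟨δ', κ', c₂', hδ', hκ', hc₂', L₀', hP'⟩ := N29.price_mix' h (K + 1) hK ε θ hε hθ
    refine ⟨min δ δ', min κ κ', min c₂ c₂', lt_min hδ hδ', lt_min hκ hκ', lt_min hc₂ hc₂', max L₀ L₀', le_max_of_le_left hL₀,
      fun k hk => ?_⟩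
    rcases Nat.lt_or_ge k (K + 1) with hk' | hk'
    · exact MxK.mono (hP k (by omega)) (min_le_left _ _) (min_le_left _ _) (min_le_left _ _) (le_max_left _ _) (le_max_of_le_left hL₀)
    · obtain rfl : k = K + 1 := by omega
      exact MxK.mono (fun L hL => hP' L hL) (min_le_right _ _) (min_le_right _ _) (min_le_right _ _) (le_max_right _ _)
        (le_max_of_le_left hL₀)

end

end Pool.Agent.W_7d29a1_C0.Pt450
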