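import Pool.Agent.W_7d29a1_C0.Pt4P72
import Pool.Agent.W_7d29a1_C0.Pt4J50
import Pool.Agent.W_7d29a1_C0.EstM45
import Pool.Agent.W_7d29a1_C0.EvU50
import Pool.Agent.W_7d29a1_C0.Frm33

/-!
CURV0 (MP_7d29a1_pr), leaves E2, E2a, RQ (helper50): the data of the prices `Pk50` are monotone; at the concrete frame `frm33`, and in the form `EstM`.
-/

set_option autoImplicit false
set_option linter.unusedSectionVars false
set_option linter.unusedVariables false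

namespace Pool.Agent.W_7d29a1_C0.Pt450

open MeasureTheory ProbabilityTheory Filter Topology Finset
open Pool.Agent.W_7d29a1_F Pool.Agent.W_7d29a1_X Pool.Agent.W_7d29a1_h4g Pool.Agent.W_7d29a1_H
open Pool.Agent.W_7d29a1_HS (In wd md)
open Pool.Agent.W_7d29a1_HZ Pool.Agent.W_7d29a1_HZ.R72 Pool.Agent.W_7d29a1_Z.Asm72
open Pool.Agent.W_7d29a1_HZ.Z86
open Pool.Agent.W_7d29a1_C0.P86
open Pool.Agent.W_7d29a1_C0.Mod92 (Px Pn lw ps pJ ne_Pn ps_Pn pos_card ps_of_le ps_of_ge wm Pm meas_lw meas_cE meas_gz meas_gm meas_wm int_Pm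
  Fam avy avy_mono avy_const)
open Pool.Agent.W_7d29a1_C0.Swap57 (NI cE2 NI_nonneg)
open Pool.Agent.W_7d29a1_C0.N51 (mc3 mc3_nonneg mc3_le_one)
open Pool.Agent.W_7d29a1_C0.N29 (Pla)
open Pool.Agent.W_7d29a1_C0.T93 (rdist Fam2 pr2)
open Pool.Agent.W_7d29a1_C0.E2S39 (meas_mc39 gap_cutL gap_cutR out39 out39_nonneg out39_le_one pout dom_out rdist_comm39 rdist_of_le39)
open Pool.Agent.W_7d29a1_C0.P15 (iE iE_mem iE_one iE_zero EvT EvI EvII TieP FinB ig15 gm01 meas_sec)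
open Pool.W7d29a1.C0 (gm gz gz_pos gm_nonneg gm_mono gm_const gm_add PP)
open Pool.W7d29a1.C0.VT31 (Mp cE gm_mul_cE fz cE_sum cE_mono cE_nonneg)
open Pool.W7d29a1.C0.R43 (Tau Rp mI bI st swP_pJ tau_rp st_end le_st)
open Pool.W7d29a1.C0.O1 (Gz okE en)
open Pool.Agent.W_7d29a1_C0.Par92 (Est Sml)
open Pool.Agent.W_7d29a1_C0.EstM45 (EstM)
open Pool.Agent.W_7d29a1_C0.Frm33 (L33 M33 y33 ys33 ev_L cone33)
open Pool.Agent.W_7d29a1_C0.EvT50 (ev_pw50 ev_exp50)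
open scoped ENNReal


noncomputable section

variable {μ : Measure ℝ} {s : ℝ} {N : ℕ}

section Mono

variable [IsProbabilityMeasure μ] {ε θ κ κ' M e e' ε' θ' : ℝ} {ys ys' : Finset ℕ}

theorem T2f_mono {y d τ1 τ2 V : ℕ} {X X' : ℝ} (h : X ≤ X') (ω : Env × Finset ℕ) (x : Px (Pn N y)) :
    T2f μ s N y X d τ1 τ2 V ω x ≤ T2f μ s N y X' d τ1 τ2 V ω x :=
  min_le_min le_rfl (mul_le_mul_of_nonneg_right (Real.exp_le_exp.2 h) (mc3_nonneg _ _))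

/-- **The data of the prices are monotone**: smaller `κ`, larger `e`, larger `ε`, larger `θ`, fewer end points. -/
theorem Pk50.mono (hP : Pk50 μ s ε θ κ N ys M e) (hε : ε ≤ ε') (hθ : θ ≤ θ') (hκ0 : 0 ≤ κ') (hκ : κ' ≤ κ) (he : e ≤ e')
    (hys : ∀ y ∈ ys', y ∈ ys) : Pk50 μ s ε' θ' κ' N ys' M e' := by
  have hN1 : (1 : ℝ) ≤ N := by exact_mod_cast hP.N1
  have hX : (N : ℝ) ^ κ' ≤ (N : ℝ) ^ κ := Real.rpow_le_rpow_of_exponent_le hN1 hκ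
  have hT : (N : ℝ) ^ θ ≤ (N : ℝ) ^ θ' := Real.rpow_le_rpow_of_exponent_le hN1 hθ
  have hne : ∀ y ∈ ys', Nonempty (Px (Pn N y)) := fun y hy => ne_Pn (hP.yN y (hys y hy))
  refine ⟨hP.N1, fun y hy => hP.yN y (hys y hy), Real.one_le_rpow hN1 hκ0, hP.ε0.trans hε, hP.e0.trans he,
    fun y hy Ps hlen hok hpw hdm f hf hfb => ?_, fun y hy R H t1 t2 τ1 τ2 V d r1 hwR h1 h2 h3 h4 h5 h6 h7 h8 h9 f hf f1 f2 => ?_⟩
  · have g0 : 0 ≤ ∫ ω, gm (wm μ s N (Pn N y) ω) (f ω) ∂(Pm μ N) :=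
      integral_nonneg fun ω => (gm01 (μ := μ) (s := s) (hP.yN y (hys y hy)) hf.2.1 hf.2.2 ω).1
    have k1 := hP.mix y (hys y hy) Ps hlen (fun P hp => ?_) hpw (fun P hp => dm_mono (hdm P hp) hX) f hf hfb
    · have k2 := mul_le_mul_of_nonneg_right (prod_mono (μ := μ) (s := s) hP.N1 hε Ps).2 g0
      linarith
    · have := hok P hp
      exact ⟨this.1, hT.trans this.2⟩
  · have := hne y hy
    have g0 : 0 ≤ ∫ ω, gm (wm μ s N (Pn N y) ω) (f ω) ∂(Pm μ N) :=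
      integral_nonneg fun ω => (gm01 (μ := μ) (s := s) (hP.yN y (hys y hy)) hf.2.1 hf.2.2 ω).1
    have k1 := hP.ntd y (hys y hy) R H t1 t2 τ1 τ2 V d r1 hwR (hT.trans h1) (hT.trans h2) h3 h4 h5 h6 h7 h8 h9 f hf f1 f2
    have k2 : ∫ ω, gm (wm μ s N (Pn N y) ω) (fun x => f ω x * T2f μ s N y ((N : ℝ) ^ κ') d τ1 τ2 V ω x) ∂(Pm μ N) ≤
        ∫ ω, gm (wm μ s N (Pn N y) ω) (fun x => f ω x * T2f μ s N y ((N : ℝ) ^ κ) d τ1 τ2 V ω x) ∂(Pm μ N) :=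
      integral_mono (ig_int (hP.yN y (hys y hy)) hf (fun x => meas_T2f x) (fun ω x => (T2f01 ω x).1) (fun ω x => (T2f01 ω x).2))
        (ig_int (hP.yN y (hys y hy)) hf (fun x => meas_T2f x) (fun ω x => (T2f01 ω x).1) (fun ω x => (T2f01 ω x).2))
        (fun ω => gm_mono _ fun x => mul_le_mul_of_nonneg_left (T2f_mono hX ω x) (hf.2.1 ω x))
    have q1 : R * po μ s N ε t1 ≤ R * po μ s N ε' t1 := mul_le_mul_of_nonneg_left (po_mono (μ := μ) (s := s) hP.N1 hε t1) (by linarith)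
    have q2 : R * po μ s N ε t2 ≤ R * po μ s N ε' t2 := mul_le_mul_of_nonneg_left (po_mono (μ := μ) (s := s) hP.N1 hε t2) (by linarith)
    have q3 : 0 ≤ R * po μ s N ε t2 := mul_nonneg (by linarith) (po_nonneg _ _)
    have q4 : 0 ≤ R * po μ s N ε' t1 := mul_nonneg (by linarith) (po_nonneg _ _)
    have k3 := mul_le_mul_of_nonneg_right (mul_le_mul q1 q2 q3 q4) g0
    linarith

end Mono

section Frm

variable [IsProbabilityMeasure μ]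

/-- **THE DATA OF THE PRICES AT THE CONCRETE FRAME.** -/
theorem pk33_50 {c C : ℝ} {n₀ : ℕ} (h : In μ s c C n₀) {K : ℕ} (hK : 32 ≤ K) {ε θ : ℝ} (hε : 0 < ε) (hθ : 0 < θ) :
    ∃ κ : ℝ, 0 < κ ∧ ∀ A a : ℝ, 0 < a → a < κ → ∀ᶠ m : ℕ in atTop, 8 ≤ (L33 K m : ℝ) ^ a ∧ 120 * (L33 K m : ℝ) ^ a ≤ (L33 K m : ℝ) ^ κ ∧
      ∃ e : ℝ, 0 ≤ e ∧ e ≤ (L33 K m : ℝ) ^ (-A) ∧
        ∀ ys : Finset ℕ, (∀ y ∈ ys, y33 μ s K m ≤ y + 1 ∧ y ≤ y33 μ s K m + M33 m) →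
          Pk50 μ s ε θ κ (L33 K m) ys ((L33 K m : ℝ) ^ a) e := by
  obtain ⟨δ, κ, c₂, hδ, hκ, hc₂, N₀, hP⟩ := pk50_of h ε θ hε hθ
  refine ⟨κ, hκ, fun A a ha haκ => ?_⟩
  have evA : ∀ᶠ N : ℕ in atTop, 120 * (N : ℝ) ^ a ≤ (N : ℝ) ^ κ ∧ 8 * (N : ℝ) ^ (0 : ℝ) ≤ (N : ℝ) ^ a ∧
      1 * Real.exp (-(1 * (N : ℝ) ^ c₂)) ≤ (N : ℝ) ^ (-(A + 1)) ∧ 16 * Real.exp (-(1 * (N : ℝ) ^ a)) ≤ (N : ℝ) ^ (-(A + 1)) ∧ 2 ≤ N := by
    filter_upwards [ev_pw50 haκ 120, ev_pw50 ha 8, ev_exp50 1 (A + 1) (a := 1) one_pos hc₂, ev_exp50 16 (A + 1) (a := 1) one_pos ha,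
      eventually_ge_atTop 2] with N h1 h2 h3 h4 h5
    exact ⟨h1, h2, h3, h4, h5⟩
  obtain ⟨N₁, hN₁⟩ := eventually_atTop.1 evA
  filter_upwards [ev_L (by omega : 1 ≤ K) (max N₀ N₁), cone33 h hK hδ] with m h1 h2
  obtain ⟨h3, h4, h5, h6, h7⟩ := hN₁ _ ((le_max_right _ _).trans h1)
  rw [Real.rpow_zero, mul_one] at h4
  rw [one_mul, one_mul] at h5
  rw [one_mul] at h6
  have hN2 : (2 : ℝ) ≤ (L33 K m : ℝ) := by exact_mod_cast h7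
  refine ⟨h4, h3, _, by positivity, ?_, fun ys hys => hP _ ((le_max_left _ _).trans h1) ys (fun y hy => ?_) _ h4 (by linarith)⟩
  · have h8 : (L33 K m : ℝ) ^ (-A) = (L33 K m : ℝ) * (L33 K m : ℝ) ^ (-(A + 1)) := by
      rw [show -A = 1 + -(A + 1) by ring, Real.rpow_add (by linarith), Real.rpow_one]
    have h9 : 0 ≤ (L33 K m : ℝ) ^ (-(A + 1)) := Real.rpow_nonneg (by linarith) _
    rw [h8]
    nlinarith
  · obtain ⟨a1, a2⟩ := hys y hy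
    exact h2.2.2 y a1 a2

theorem ys33_mem {K m y : ℕ} (hy : y ∈ ys33 μ s K m) : y33 μ s K m ≤ y + 1 ∧ y ≤ y33 μ s K m + M33 m := by
  obtain ⟨h1, h2⟩ := Finset.mem_Ico.1 hy
  exact ⟨by omega, by omega⟩

/-- **The data of the prices at the concrete frame**, in the form `EstM`: the exponents `f ι`, `g ι`, the scale `κ ι`, the level
`M = L ^ εM`. -/
theorem pkM50 {c C : ℝ} {n₀ : ℕ} (h : In μ s c C n₀) {K : ℕ} (hK : 32 ≤ K) {f g : ℝ → ℝ} (hf : ∀ ι, 0 < ι → 0 < f ι)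
    (hg : ∀ ι, 0 < ι → 0 < g ι) : ∃ κ : ℝ → ℝ, (∀ ι, 0 < ι → 0 < κ ι) ∧ ∀ A : ℝ, EstM fun ι εM _ _ m => εM < κ ι ∧
      8 ≤ (L33 K m : ℝ) ^ εM ∧ 120 * (L33 K m : ℝ) ^ εM ≤ (L33 K m : ℝ) ^ κ ι ∧
        ∃ e : ℝ, 0 ≤ e ∧ e ≤ (L33 K m : ℝ) ^ (-A) ∧ Pk50 μ s (f ι) (g ι) (κ ι) (L33 K m) (ys33 μ s K m) ((L33 K m : ℝ) ^ εM) e := by
  classical
  have H : ∀ ι : ℝ, ∃ κ : ℝ, 0 < κ ∧ (0 < ι → ∀ A a : ℝ, 0 < a → a < κ → ∀ᶠ m : ℕ in atTop, 8 ≤ (L33 K m : ℝ) ^ a ∧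
      120 * (L33 K m : ℝ) ^ a ≤ (L33 K m : ℝ) ^ κ ∧ ∃ e : ℝ, 0 ≤ e ∧ e ≤ (L33 K m : ℝ) ^ (-A) ∧
        ∀ ys : Finset ℕ, (∀ y ∈ ys, y33 μ s K m ≤ y + 1 ∧ y ≤ y33 μ s K m + M33 m) →
          Pk50 μ s (f ι) (g ι) κ (L33 K m) ys ((L33 K m : ℝ) ^ a) e) := fun ι => by
    by_cases hι : 0 < ι
    · obtain ⟨κ, hκ, hp⟩ := pk33_50 (s := s) h hK (hf ι hι) (hg ι hι)
      exact ⟨κ, hκ, fun _ => hp⟩
    · exact ⟨1, one_pos, fun h0 => absurd h0 hι⟩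
  choose κ hκ hp using H
  refine ⟨κ, fun ι _ => hκ ι, fun A => ⟨1, one_pos, fun ι hι _ => ⟨κ ι / 2, half_pos (hκ ι), fun εM hM hM' => ?_⟩⟩⟩
  have hlt : εM < κ ι := by
    have := hκ ι
    linarith
  refine Sml.of fun β _ => Sml.of fun γ _ => ?_
  filter_upwards [hp ι hι A εM hM hlt] with m h1
  obtain ⟨h2, h3, e, h4, h5, h6⟩ := h1
  exact ⟨hlt, h2, h3, e, h4, h5, h6 _ fun y hy => ys33_mem hy⟩

end Frm

end

end Pool.Agent.W_7d29a1_C0.Pt450
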