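import Pool.Agent.W_7d29a1_C0.E2JS45
import Pool.Agent.W_7d29a1_C0.Pt4M50
import Pool.Agent.W_7d29a1_C0.E2KL45

/-!
MP_7d29a1_pr, [CURV0] / [C0], leaf E2, PART L (helper45): **THE SLOT OF THE PARTS WITH THREE LEVELS** (`E2LT43.JTS43`), at one length (`jts_at45`) and
in the order of the small exponents (`jts45`).
-/

set_option autoImplicit false
set_option linter.unusedSectionVars false
set_option linter.unusedVariables false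

namespace Pool.Agent.W_7d29a1_C0.E2JT45

open Finset MeasureTheory Filter Topology
open Pool.Agent.W_7d29a1_F Pool.Agent.W_7d29a1_X
open Pool.Agent.W_7d29a1_H (sl EE one_le_EE)
open Pool.Agent.W_7d29a1_HS (In wd)
open Pool.Agent.W_7d29a1_HZ (wd' EE')
open Pool.Agent.W_7d29a1_C0 Pool.Agent.W_7d29a1_C0.Mod92 Pool.Agent.W_7d29a1_C0.Swap57 Pool.Agent.W_7d29a1_C0.NM82
open Pool.Agent.W_7d29a1_C0.E2N39 Pool.Agent.W_7d29a1_C0.E2S39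
open Pool.Agent.W_7d29a1_C0.Par92 (Est Sml)
open Pool.Agent.W_7d29a1_C0.EstM45 (EstM)
open Pool.Agent.W_7d29a1_C0.E2T96
open Pool.Agent.W_7d29a1_C0.E2C96 (mR)
open Pool.Agent.W_7d29a1_C0.Asm96 Pool.Agent.W_7d29a1_C0.EstC46 Pool.Agent.W_7d29a1_C0.Frm33 Pool.Agent.W_7d29a1_C0.E2G43
open Pool.Agent.W_7d29a1_C0.E2K43
open Pool.Agent.W_7d29a1_C0.E2D43 (Dec43)
open Pool.Agent.W_7d29a1_C0.E2LT43
open Pool.Agent.W_7d29a1_C0.Pt4N82 (Tl82 tl82_est)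
open Pool.Agent.W_7d29a1_C0.Pt450 (po phT er Pk50 pkM50)
open Pool.Agent.W_7d29a1_C0.E2J45 (LJA LJB)
open Pool.Agent.W_7d29a1_C0.E2DL96 (lJ geoL96)
open Pool.Agent.W_7d29a1_C0.E2CT45 (cJT)
open Pool.Agent.W_7d29a1_C0.E2JS45
open Pool.Agent.W_7d29a1_C0.E2KL45
open Pool.Agent.W_7d29a1_C0.EvT50 (ev_pw50 ev_exp50)
open Pool.Agent.W_7d29a1_C0.Rq13 (Rg13 reg13 reg_ok13)
open Pool.W7d29a1.C0 Pool.W7d29a1.C0.VT31

noncomputable section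

/-- The bound of the functional with three levels by the two rows, at one length: the content of `Pt4J27.ptJ27_mR`. -/
def PJ45 (μ : Measure ℝ) (s : ℝ) (N : ℕ) (ys : Finset ℕ) (γ B κ κ₁ M E : ℝ) : Prop :=
  ∀ b j : ℕ, (N : ℝ) ^ κ ≤ b → b ≤ j → ∀ r : Rg13, j + b ≤ r.z → r.Ok b j →
    (N : ℝ) ^ κ₁ ≤ r.q → (r.q : ℝ) ≤ N → r.d ≤ Real.exp (-(N : ℝ) ^ κ₁) → r.e1 ≤ Real.exp (-(N : ℝ) ^ κ₁) →
    r.d3 ≤ Real.exp (-(N : ℝ) ^ κ₁) →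
    ∀ k c1 z wl lo al a' n' zf zt cc cb e : ℕ, 10 * M ≤ k → (k : ℝ) ≤ 20 * M → c1 ≤ wl → wl + 3 * k * (lo + 1) ≤ al → al ≤ z →
    z ≤ a' → r.z ≤ a' → 0 < n' → a' + n' ≤ zf + 1 → zf ≤ zt → zf ≤ cc → cc ≤ e → cc ≤ N → ∀ (D : ℝ) (f : Fam N), Cls59 N cb e D f →
    avy ys (fun y => (n' : ℝ)⁻¹ * ∑ v ∈ range n', cJT μ s N γ B b j r.z 1 M c1 z wl al (a' + v) zf cc f y) ≤
      avy ys (mR μ s N n' (fun v => one96 N (LJA μ s N r (a' + v) wl lo k M) zt cc) f) +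
      avy ys (mR μ s N n' (fun v => one96 N (LJB μ s N r (a' + v) wl lo k M) zt cc) f) + D * E

section At

variable {μ : Measure ℝ} [IsProbabilityMeasure μ] {s : ℝ}
variable {c₀ Θ δ a n c ι ε' θ κ κw κ₁ κp M e Rr eT C E : ℝ} {N : ℕ} {ys S : Finset ℕ} {b0 b sg gl d r l k q r0 lT : ℕ} {f : Fam N}

/-- **ONE BLOCK OF ROWS**, one slab `a' j + v`, `v < n'`. -/
theorem oneJ45 (H : Rd39 μ s c₀ Θ δ a ι n c ε' θ κ M e (20 * ι) (c / 4) N ys S b0 b sg gl d r l k r0)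
    (T : Tl82 μ s ε' θ n (20 * ι) N b0 b q lT Rr) (X : Ex39 Θ c ι (40 * ι) (c / 4)) (hkq : k ≤ q) (hll : lT ≤ l)
    (P : Pk50 μ s ε' θ κp N ys M eT) (q3 : 3 * (q : ℝ) ≤ (N : ℝ) ^ κp) (M7 : 7 * M ≤ (N : ℝ) ^ κp) (hκ : (N : ℝ) ^ κ₁ ≤ (N : ℝ) ^ κp)
    (he : n ^ (40 * ι) * (r * (3 * eT + 23 * er N ε' Rr eT)) ≤ 1) (hC : 0 ≤ C) (hC2 : C ^ 2 ≤ n ^ (40 * ι))
    {γ B : ℝ} (J : PJ45 μ s N ys γ B κw κ₁ M E) (hbw : (N : ℝ) ^ κw ≤ b0) (hq1 : (N : ℝ) ^ κ₁ ≤ q) (hq2 : (q : ℝ) ≤ N)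
    (hk1 : 10 * M ≤ k) (hk2 : (k : ℝ) ≤ 20 * M) {cb : ℕ} {D : ℝ} (hf : Cls59 N cb d D f)
    {n' : ℕ} {a' : ℕ → ℕ} (hn' : ∀ j ∈ S, 0 < n') (ha : ∀ j ∈ S, (j / sg + 1) * sg ≤ a' j ∧ a' j + n' ≤ d - gl + 1) :
    Dec43 μ s N ys S r (n ^ (Θ - 2 * (c / 4))) f
      (fun j y => C * ((n' : ℝ)⁻¹ * ∑ v ∈ range n', lJ μ s N γ B b0 b sg gl d j 1 M f (a' j + v) y)) 2 (C * (D * E)) := by
  have e40 : 2 * (20 * ι) = 40 * ι := by ring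
  have hdN := H.dN
  refine blkJ45 (dd := Real.exp (-(N : ℝ) ^ κ₁)) H T (by rw [e40]; exact X) hkq hll P q3 M7
    (Real.exp_le_exp.2 (by linarith)) (by rw [e40]; exact he) hC (by rw [e40]; exact hC2) (fun j hj => ?_) (fun j hj => ?_)
  · obtain ⟨h1, h2, h3, h4, _, _, _, _, h9, _, _⟩ := geoJ45 (H.geo j hj)
    have := ha j hj
    exact ⟨by omega, this.2⟩
  · obtain ⟨h1, h2, h3, h4, h5, h6, h7, h8, h9, h10, h11⟩ := geoJ45 (H.geo j hj)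
    have h12 := ha j hj
    have hkl := H.kl
    have hgd := H.gd
    exact J b0 j hbw h6 (reg13 (j + b0 + b / 16) q lT b0 j (Real.exp (-(N : ℝ) ^ κ₁))) (Nat.le_add_right _ _)
      (reg_ok13 (Real.exp_pos _).le h6 T.fit) hq1 hq2 le_rfl le_rfl le_rfl k (j / sg * sg) ((j / sg + 1) * sg) (j - b) l (j - b / 2) (a' j) n'
      (d - gl) (d - gl) d cb d hk1 hk2 h5 (by omega) h7 h12.1 (by show j + b0 + b / 16 ≤ a' j; omega) (hn' j hj) h12.2 le_rfl (Nat.sub_le _ _)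
      le_rfl hdN D f hf

/-- **THE SLOT AT ONE LENGTH.** -/
theorem jts_at45 {K m : ℕ} (hK : 32 ≤ K) {β γ : ℝ}
    (H1 : ∀ p r i : ℕ, St96 (EE μ s) δ c m p r → i < 2 ^ (m - r) →
      Rd39 μ s c₀ Θ δ a ι ((2 ^ m : ℕ) : ℝ) c (ι / K) (δ / (8 * K)) κ M e (20 * ι) (c / 4) (L33 K m) (ys33 μ s K m)
        (Rw (R33 ι m) (i * 2 ^ r) ((i + 1) * 2 ^ r)) (2 ^ (p - ⌈ι * (m : ℝ)⌉₊)) (2 ^ p) (2 ^ sg96 (EE μ s) c m p) (gl46 ι m r)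
        ((i + 1) * 2 ^ r) (2 ^ r) (ll39 (2 ^ (p - ⌈ι * (m : ℝ)⌉₊)) k) k (i * 2 ^ r))
    (H2 : ∀ p r i : ℕ, St96 (EE μ s) δ c m p r → i < 2 ^ (m - r) → Ex39 Θ c ι (40 * ι) (c / 4))
    (H3 : ∀ p : ℕ, δ * m ≤ p → Tl82 μ s (ι / K) (δ / (8 * K)) ((2 ^ m : ℕ) : ℝ) (20 * ι) (L33 K m) (2 ^ (p - ⌈ι * (m : ℝ)⌉₊)) (2 ^ p) q
      (ll39 (2 ^ (p - ⌈ι * (m : ℝ)⌉₊) / 2) q) (((2 ^ m : ℕ) : ℝ) ^ (8 * ι)))
    (P : Pk50 μ s (ι / K) (δ / (8 * K)) κp (L33 K m) (ys33 μ s K m) M eT) (heT : eT ≤ ((L33 K m : ℕ) : ℝ) ^ (-8 : ℝ))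
    (hkq : k ≤ q) (q3 : 3 * (q : ℝ) ≤ ((L33 K m : ℕ) : ℝ) ^ κp) (M7 : 7 * M ≤ ((L33 K m : ℕ) : ℝ) ^ κp)
    (hκ : ((L33 K m : ℕ) : ℝ) ^ κ₁ ≤ ((L33 K m : ℕ) : ℝ) ^ κp)
    (J : PJ45 μ s (L33 K m) (ys33 μ s K m) γ (B33 β m) (δ / (4 * K)) κ₁ M E) (hE0 : 0 ≤ E) (hE : E ≤ ((L33 K m : ℕ) : ℝ) ^ (-4 : ℝ))
    (hb : ∀ p : ℕ, δ * m ≤ p → ((2 ^ m : ℕ) : ℝ) ^ (δ / 4) ≤ ((2 ^ (p - ⌈ι * (m : ℝ)⌉₊) : ℕ) : ℝ))
    (hq1 : ((L33 K m : ℕ) : ℝ) ^ κ₁ ≤ q) (hq2 : (q : ℝ) ≤ ((L33 K m : ℕ) : ℝ)) (hk1 : 10 * M ≤ k) (hk2 : (k : ℝ) ≤ 20 * M)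
    (hι : 0 < ι) (hι1 : ι ≤ 1 / 40) (hn : 26 ≤ ((2 ^ m : ℕ) : ℝ)) : JTS43 μ s K Θ δ c ι β γ m M 1 := by
  intro p r i hst hi C hC hC2 cb D f hf hD0 hD
  have H := H1 p r i hst hi
  have X := H2 p r i hst hi
  have T := H3 p hst.hp
  have b4 := hb p hst.hp
  obtain ⟨n, hnd⟩ : ∃ n : ℝ, n = ((2 ^ m : ℕ) : ℝ) := ⟨_, rfl⟩
  have hK1 : 1 ≤ K := by omega
  have hrm : ((2 ^ r : ℕ) : ℝ) ≤ n := by
    rw [hnd]
    exact_mod_cast Nat.pow_le_pow_right two_pos hst.hqm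
  have hR8 : (((L33 K m : ℕ) : ℝ) ^ (ι / K)) = n ^ ι := by rw [hnd]; exact L_pow43 hK1 m ι
  have hbw : ((L33 K m : ℕ) : ℝ) ^ (δ / (4 * K)) ≤ ((2 ^ (p - ⌈ι * (m : ℝ)⌉₊) : ℕ) : ℝ) := by
    rw [L_pow45 hK1]
    exact b4
  have hLn : ((L33 K m : ℕ) : ℝ) ^ (-8 : ℝ) ≤ n ^ (-256 : ℝ) := by
    rw [L33_pow, ← hnd]
    refine Real.rpow_le_rpow_of_exponent_le (by rw [hnd]; linarith) ?_
    have : (32 : ℝ) ≤ K := by exact_mod_cast hK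
    linarith
  rw [← hnd] at hn b4 hC2 hD T H
  have hN1 : 1 ≤ n := by linarith
  have hN0 : 0 < n := by linarith
  have mono : ∀ {x y : ℝ}, x ≤ y → n ^ x ≤ n ^ y := fun h => Real.rpow_le_rpow_of_exponent_le hN1 h
  have n40 : n ^ (40 * ι) ≤ n := by
    calc n ^ (40 * ι) ≤ n ^ (1 : ℝ) := mono (by linarith)
      _ = n := Real.rpow_one _
  have hCn : C ≤ n := by
    have h1 : C ^ 2 ≤ n ^ 2 := hC2.trans (n40.trans (by nlinarith))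
    exact le_of_sq_le_sq h1 hN0.le
  have heT0 := P.e0
  have her : er (L33 K m) (ι / K) (n ^ (8 * ι)) eT ≤ n * eT := by
    unfold er
    rw [hR8, ← Real.rpow_natCast (n ^ (8 * ι)), ← Real.rpow_mul hN0.le, ← Real.rpow_natCast (n ^ ι), ← Real.rpow_mul hN0.le, ← Real.rpow_add hN0]
    refine mul_le_mul_of_nonneg_right ?_ heT0
    calc _ ≤ n ^ (1 : ℝ) := mono (by push_cast; linarith)
      _ = n := Real.rpow_one _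
  have he : n ^ (40 * ι) * (((2 ^ r : ℕ) : ℝ) * (3 * eT + 23 * er (L33 K m) (ι / K) (n ^ (8 * ι)) eT)) ≤ 1 := by
    have er0 : 0 ≤ er (L33 K m) (ι / K) (n ^ (8 * ι)) eT := by
      unfold er
      positivity
    have h1 : 3 * eT + 23 * er (L33 K m) (ι / K) (n ^ (8 * ι)) eT ≤ n * n * n ^ (-256 : ℝ) := by
      have h2 := heT.trans hLn
      have h3 : 3 * eT + 23 * (n * eT) ≤ 26 * n * eT := by nlinarith
      have h4 : 26 * n * eT ≤ n * n * eT := by nlinarith [mul_nonneg hN0.le heT0]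
      have h5 : n * n * eT ≤ n * n * n ^ (-256 : ℝ) := mul_le_mul_of_nonneg_left h2 (by positivity)
      linarith
    calc _ ≤ n * (n * (n * n * n ^ (-256 : ℝ))) := by
          refine mul_le_mul n40 (mul_le_mul hrm h1 (by positivity) hN0.le) (by positivity) hN0.le
      _ = n ^ (-252 : ℝ) := by
          have e1 : n * (n * (n * n * n ^ (-256 : ℝ))) = n ^ (4 : ℕ) * n ^ (-256 : ℝ) := by ring
          rw [e1, ← Real.rpow_natCast, ← Real.rpow_add hN0]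
          norm_num
      _ ≤ 1 := Real.rpow_le_one_of_one_le_of_nonpos hN1 (by norm_num)
  have hk0 := H.k1
  have hll : ll39 (2 ^ (p - ⌈ι * (m : ℝ)⌉₊) / 2) q ≤ ll39 (2 ^ (p - ⌈ι * (m : ℝ)⌉₊)) k := by
    unfold ll39
    refine Nat.sub_le_sub_right ?_ 1
    exact (Nat.div_le_div_right (Nat.div_le_self _ _)).trans (Nat.div_le_div_left (by omega) (by omega))
  have L0 : (0 : ℝ) < ((L33 K m : ℕ) : ℝ) := by
    have h1 := L33_ge hK1 m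
    have h2 : 0 < 2 ^ m := by positivity
    exact_mod_cast (by omega : 0 < L33 K m)
  have L4 : 0 < ((L33 K m : ℕ) : ℝ) ^ (-4 : ℝ) := Real.rpow_pos_of_pos L0 _
  have heJ : C * (D * E) ≤ n ^ 20 * ((L33 K m : ℕ) : ℝ) ^ (-4 : ℝ) := by
    calc C * (D * E) ≤ n * (n ^ 3 * ((L33 K m : ℕ) : ℝ) ^ (-4 : ℝ)) :=
          mul_le_mul hCn (mul_le_mul hD hE hE0 (by positivity)) (by positivity) hN0.le
      _ = n ^ 4 * ((L33 K m : ℕ) : ℝ) ^ (-4 : ℝ) := by ring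
      _ ≤ _ := mul_le_mul_of_nonneg_right (pow_le_pow_right₀ hN1 (by norm_num)) L4.le
  have heJ0 : 0 ≤ C * (D * E) := by positivity
  have geo := fun j hj => geoJ45 (H.geo j hj)
  have one := fun (n' : ℕ) (a' : ℕ → ℕ) (h1 : ∀ j ∈ Rw (R33 ι m) (i * 2 ^ r) ((i + 1) * 2 ^ r), 0 < n') h2 =>
    oneJ45 (C := C) (n' := n') (a' := a') H T X hkq hll P q3 M7 hκ he hC hC2 J hbw hq1 hq2 hk1 hk2 hf h1 h2
  refine ⟨⟨2, C * (D * E), by norm_num, heJ0, by rw [← hnd]; exact heJ, ?_⟩, ⟨2, C * (D * E), by norm_num, heJ0, by rw [← hnd]; exact heJ, ?_⟩,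
    ⟨2, C * (D * E), by norm_num, heJ0, by rw [← hnd]; exact heJ, ?_⟩⟩
  · have h1 := one 1 (fun j => (j / 2 ^ sg96 (EE μ s) c m p + 1) * 2 ^ sg96 (EE μ s) c m p) (fun _ _ => Nat.one_pos) fun j hj => ⟨le_rfl, by
      obtain ⟨_, _, _, h4, _, _, _, _, h9, _, _⟩ := geo j hj
      omega⟩
    rw [← hnd]
    refine h1.mono (fun j _ y _ => le_of_eq ?_) le_rfl
    rw [sum_range_one, Nat.cast_one, inv_one, one_mul]
    rfl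
  · rw [← hnd]
    exact one (gl46 ι m r) (fun _ => (i + 1) * 2 ^ r - 5 * gl46 ι m r + 1) (fun j hj => by
      obtain ⟨_, _, _, h4, _, _, _, _, h9, _, _⟩ := geo j hj
      omega) fun j hj => by
      obtain ⟨_, _, _, h4, _, _, _, _, h9, _, _⟩ := geo j hj
      exact ⟨by omega, by omega⟩
  · rw [← hnd]
    exact one (gl46 ι m r) (fun _ => (i + 1) * 2 ^ r - 3 * gl46 ι m r + 1) (fun j hj => by
      obtain ⟨_, _, _, h4, _, _, _, _, h9, _, _⟩ := geo j hj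
      omega) fun j hj => by
      obtain ⟨_, _, _, h4, _, _, _, _, h9, _, _⟩ := geo j hj
      exact ⟨by omega, by omega⟩

end At

section Fr

variable {μ : Measure ℝ} [IsProbabilityMeasure μ] {s : ℝ}

/-- The bound of the functionals at the concrete frame: the scale `g ι` of the pieces is chosen before the level. -/
theorem pjM45 {c₁ C₁ : ℝ} {n₀ : ℕ} (h : In μ s c₁ C₁ n₀) {K : ℕ} (hK : 32 ≤ K) {δ : ℝ} (hδ : 0 < δ) {g : ℝ → ℝ} (hg : ∀ ι, 0 < ι → 0 < g ι) :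
    EstM fun ι εM β γ m => ∃ E : ℝ, 0 ≤ E ∧ E ≤ ((L33 K m : ℕ) : ℝ) ^ (-4 : ℝ) ∧
      PJ45 μ s (L33 K m) (ys33 μ s K m) γ (B33 β m) (δ / (4 * K)) (g ι) (((L33 K m : ℕ) : ℝ) ^ εM) E := by
  have hK1 : (1 : ℝ) ≤ K := by
    have : (32 : ℝ) ≤ K := by exact_mod_cast hK
    linarith
  refine ⟨1, one_pos, fun ι hι _ => ?_⟩
  obtain ⟨β₀, hβ₀, H⟩ := Pt4J27.ptJ27_mR (s := s) h (κ := δ / (4 * K)) (κ₁ := g ι) (by positivity) (hg ι hι)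
  refine ⟨β₀ / 2, half_pos hβ₀, fun εM hεM hεM' => ⟨β₀, hβ₀, fun β hβ hβ' => Sml.of fun γ hγ => ?_⟩⟩
  obtain ⟨δ', c', hδ', hc', N₀, H⟩ := H εM hεM γ hγ
  have evA : ∀ᶠ N : ℕ in atTop, 8 * (N : ℝ) ^ (0 : ℝ) ≤ (N : ℝ) ^ εM ∧ 5 * (N : ℝ) ^ εM ≤ (N : ℝ) ^ β₀ ∧
      1 * Real.exp (-(1 * (N : ℝ) ^ c')) ≤ (N : ℝ) ^ (-4 : ℝ) ∧ 4 ≤ N := by
    filter_upwards [ev_pw50 hεM 8, ev_pw50 (show εM < β₀ by linarith) 5, ev_exp50 1 4 (a := 1) one_pos hc', eventually_ge_atTop 4]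
      with N h1 h2 h3 h4
    exact ⟨h1, h2, h3, h4⟩
  obtain ⟨N₁, hN₁⟩ := eventually_atTop.1 evA
  filter_upwards [ev_L (by omega : 1 ≤ K) (max N₀ N₁), cone33 h hK hδ'] with m h1 h2
  obtain ⟨a1, a2, a3, a4⟩ := hN₁ _ ((le_max_right _ _).trans h1)
  rw [Real.rpow_zero, mul_one] at a1
  rw [one_mul, one_mul] at a3
  refine ⟨Real.exp (-((L33 K m : ℕ) : ℝ) ^ c'), (Real.exp_pos _).le, a3, fun b j hb hbj r hz ho hq hqN hd he1 hd3 k c1 z wl lo al a' n' zf zt cc cb e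
    hk hk' hwl hL hal hzz hzm hn hm0 hzt hm hme hmN D f hf => ?_⟩
  refine H (L33 K m) ((le_max_left _ _).trans h1) (ys33 μ s K m) (fun y hy => ?_) (ys_ne96 (ι := ι) (β := β) (γ := γ) m) (B33 β m) b j
    (by unfold B33; positivity) ?_ hb hbj r hz ho hq hqN hd he1 hd3 1 (((L33 K m : ℕ) : ℝ) ^ εM) ?_ a1 le_rfl a2 k c1 z wl lo al a' n' zf zt cc cb e
    hk hk' hwl hL hal hzz hzm hn hm0 hzt hm hme hmN D f hf
  · obtain ⟨b1, b2⟩ := Pt450.ys33_mem hy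
    exact h2.2.2 y b1 b2
  · unfold B33
    rw [L33_pow]
    refine Real.rpow_le_rpow_of_exponent_le (n_ge1 m) ?_
    nlinarith
  · have h3 : (4 : ℝ) ≤ ((L33 K m : ℕ) : ℝ) := by exact_mod_cast a4
    have h4 : (((L33 K m : ℕ) : ℝ))⁻¹ ≤ 4⁻¹ := inv_anti₀ (by norm_num) h3
    linarith

/-- **THE SLOT OF THE PARTS WITH THREE LEVELS.** -/
theorem jts45 {c₁ C₁ : ℝ} {n₀ : ℕ} (h : In μ s c₁ C₁ n₀) (hk : KapLe96 (EE μ s) (1 / 4))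
    (hQI : ∀ p : ℝ, 1 < p → ∃ C θ0 : ℝ, 0 ≤ C ∧ 0 < θ0 ∧ H27.QI μ p C θ0) {K : ℕ} (hK : 32 ≤ K) {Θ δ c c₀ : ℝ} (hΘ : 0 < Θ) (hδ : 0 < δ)
    (hδ1 : δ ≤ 1) (hc : 0 < c) (hcδ : c ≤ δ / 64) (hcΘ : c ≤ Θ / 8) (hR : RegP46 μ s c₀ Θ) :
    EstM fun ι εM β γ m => JTS43 μ s K Θ δ c ι β γ m (((L33 K m : ℕ) : ℝ) ^ εM) 1 := by
  have hK1 : (1 : ℝ) ≤ K := by
    have : (32 : ℝ) ≤ K := by exact_mod_cast hK
    linarith
  obtain ⟨a, h20⟩ := rd39_est h hk hK hΘ hδ hc hcδ hcΘ hR (Q := 20) (by norm_num)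
  obtain ⟨a', h40⟩ := rd39_est h hk hK hΘ hδ hc hcδ hcΘ hR (Q := 40) (by norm_num)
  obtain ⟨κp, hκp, hP⟩ := pkM50 (s := s) h hK (f := fun ι => ι / K) (g := fun _ => δ / (8 * K)) (fun ι hι => by positivity)
    (fun ι hι => by positivity)
  obtain ⟨g, hg⟩ : ∃ g : ℝ → ℝ, g = fun ι : ℝ => min (min (ι / (K : ℝ)) (κp ι)) 1 / 2 := ⟨_, rfl⟩
  have hg0 : ∀ ι, 0 < ι → 0 < g ι := fun ι hι => by
    rw [hg]
    have := hκp ι hι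
    positivity
  have hT := tl82_est h (by omega : 1 ≤ K) hδ hR (Q := 20) (by norm_num)
  have hnum : EstM fun ι εM β γ m => ι ≤ 1 / 40 ∧ 26 ≤ ((2 ^ m : ℕ) : ℝ) ∧
      10 * ((L33 K m : ℕ) : ℝ) ^ εM ≤ ((L33 K m : ℕ) : ℝ) ^ g ι ∧ 1 ≤ ((L33 K m : ℕ) : ℝ) ^ g ι ∧
      6 * ((L33 K m : ℕ) : ℝ) ^ g ι ≤ ((L33 K m : ℕ) : ℝ) ^ κp ι ∧ ((L33 K m : ℕ) : ℝ) ^ g ι ≤ ((2 ^ m : ℕ) : ℝ) ^ ι ∧
      2 * ((L33 K m : ℕ) : ℝ) ^ g ι ≤ ((L33 K m : ℕ) : ℝ) ∧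
      ∀ p : ℕ, δ * m ≤ p → ((2 ^ m : ℕ) : ℝ) ^ (δ / 4) ≤ ((2 ^ (p - ⌈ι * (m : ℝ)⌉₊) : ℕ) : ℝ) := by
    refine ⟨min (1 / 40) (δ / 4), by positivity, fun ι hι hι' => ⟨g ι / 2, half_pos (hg0 ι hι), fun εM hεM hεM' => Sml.of fun β _ =>
      Sml.of fun γ _ => ?_⟩⟩
    have hι1 : ι ≤ 1 / 40 := hι'.trans (min_le_left _ _)
    have hι2 : ι ≤ δ / 4 := hι'.trans (min_le_right _ _)
    have g0 := hg0 ι hι
    have g1 : g ι < κp ι := by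
      have h1 := hκp ι hι
      have h2 : g ι ≤ κp ι / 2 := by
        rw [hg]
        have : min (min (ι / K) (κp ι)) 1 ≤ κp ι := (min_le_left _ _).trans (min_le_right _ _)
        show min (min (ι / K) (κp ι)) 1 / 2 ≤ κp ι / 2
        linarith
      linarith
    have g2 : g ι ≤ ι / K := by
      have h1 : 0 < ι / K := by positivity
      have h2 : min (min (ι / K) (κp ι)) 1 ≤ ι / K := (min_le_left _ _).trans (min_le_left _ _)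
      rw [hg]
      show min (min (ι / K) (κp ι)) 1 / 2 ≤ ι / K
      linarith
    have g3 : g ι < 1 := by
      have h2 : min (min (ι / K) (κp ι)) 1 ≤ 1 := min_le_right _ _
      rw [hg]
      show min (min (ι / K) (κp ι)) 1 / 2 < 1
      linarith
    have evA : ∀ᶠ N : ℕ in atTop, 10 * (N : ℝ) ^ εM ≤ (N : ℝ) ^ g ι ∧ 6 * (N : ℝ) ^ g ι ≤ (N : ℝ) ^ κp ι ∧
        2 * (N : ℝ) ^ g ι ≤ (N : ℝ) ^ (1 : ℝ) ∧ 1 ≤ N := by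
      filter_upwards [ev_pw50 (show εM < g ι by linarith) 10, ev_pw50 g1 6, ev_pw50 g3 2, eventually_ge_atTop 1] with N h1 h2 h3 h4
      exact ⟨h1, h2, h3, h4⟩
    obtain ⟨N₁, hN₁⟩ := eventually_atTop.1 evA
    filter_upwards [ev_L (by omega : 1 ≤ K) N₁, b0_33 hδ hι2, ev_n one_pos 26] with m h1 h2 h3
    obtain ⟨a1, a2, a3, a4⟩ := hN₁ _ h1
    have hL1 : (1 : ℝ) ≤ ((L33 K m : ℕ) : ℝ) := by exact_mod_cast a4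
    rw [Real.rpow_one] at h3 a3
    refine ⟨hι1, h3, a1, Real.one_le_rpow hL1 g0.le, a2, ?_, a3, h2⟩
    rw [← L_pow43 (by omega : 1 ≤ K) m ι]
    exact Real.rpow_le_rpow_of_exponent_le hL1 g2
  have hAll := (((((cstM43 h hQI hK hδ hδ1).and (EstM.of_est h20)).and (EstM.of_est h40)).and (EstM.of_est hT)).and (hP 8)).and
    ((pjM45 h hK hδ hg0).and hnum)
  refine hAll.mono fun ι εM β γ hι hεM hβ hγ => Eventually.of_forall fun m hm => ?_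
  obtain ⟨⟨⟨⟨⟨⟨κ, e, hC⟩, r20⟩, r40⟩, tl⟩, hεκ, hM8, hMκ, eT, heT0, heT, hPk⟩, ⟨E, hE0, hE, hJ⟩, hι1, hn, a1, a2, a3, a4, a5, a6⟩ := hm
  obtain ⟨q, hq⟩ : ∃ q : ℕ, q = ⌈((L33 K m : ℕ) : ℝ) ^ g ι⌉₊ := ⟨_, rfl⟩
  have q1 : ((L33 K m : ℕ) : ℝ) ^ g ι ≤ q := by
    rw [hq]
    exact Nat.le_ceil _
  have q2 : (q : ℝ) ≤ 2 * ((L33 K m : ℕ) : ℝ) ^ g ι := by
    have : (q : ℝ) < ((L33 K m : ℕ) : ℝ) ^ g ι + 1 := by
      rw [hq]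
      exact Nat.ceil_lt_add_one (by linarith)
    linarith
  have hq0 : 1 ≤ q := by
    have : (1 : ℝ) ≤ q := by linarith
    exact_mod_cast this
  have hkq : ⌈10 * ((L33 K m : ℕ) : ℝ) ^ εM⌉₊ ≤ q := by
    rw [hq]
    exact Nat.ceil_le_ceil a1
  exact jts_at45 hK (fun p r i hst hi => r20 _ _ _ _ _ hC p r i hst hi) (fun p r i hst hi => (r40 _ _ _ _ _ hC p r i hst hi).X)
    (fun p hp => tl p hp q hq0 (by linarith)) hPk heT hkq (by linarith) (by linarith) (by linarith) hJ hE0 hE a6 q1 (by linarith)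
    hC.q1 hC.q2 hι hι1 hn

end Fr

end

end Pool.Agent.W_7d29a1_C0.E2JT45
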