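import Pool.Agent.W_7d29a1_C0.E2AE43
import Pool.Agent.W_7d29a1_C0.DgC11
import Pool.Agent.W_7d29a1_C0.DgT11B

/-!
MP_7d29a1_pr, [CURV0] (helper33), section E2: the slot `TDS43` of part R (the double ties of helper11) at the concrete frame: `td33` = the
hypothesis `hT` of `partR43` and `e2Sml43`. `e2S33`: the field `e2` of the root from part L alone.
-/

set_option autoImplicit false

namespace Pool.Agent.W_7d29a1_C0.TdS33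

open Finset MeasureTheory Filter Topology
open Pool.Agent.W_7d29a1_F Pool.Agent.W_7d29a1_X
open Pool.Agent.W_7d29a1_H (sl EE one_le_EE)
open Pool.Agent.W_7d29a1_HS (In wd)
open Pool.Agent.W_7d29a1_HZ (wd' EE')
open Pool.Agent.W_7d29a1_C0 Pool.Agent.W_7d29a1_C0.Mod92
open Pool.Agent.W_7d29a1_C0.Asm96 Pool.Agent.W_7d29a1_C0.EstC46 Pool.Agent.W_7d29a1_C0.Frm33
open Pool.Agent.W_7d29a1_C0.H32
open Pool.Agent.W_7d29a1_C0.E2K43 Pool.Agent.W_7d29a1_C0.E2AS43 Pool.Agent.W_7d29a1_C0.E2AE43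
open Pool.Agent.W_7d29a1_C0.E2S39 (rd39_est)
open Pool.Agent.W_7d29a1_C0.Par92 (Est Sml)
open Pool.Agent.W_7d29a1_C0.Dg11

noncomputable section

variable {μ : Measure ℝ} [IsProbabilityMeasure μ] {s : ℝ} {K : ℕ} {Θ δ c c₀ : ℝ}

/-- **THE SLOT OF THE PAIRS OF THE WINDOW AT THE CONCRETE FRAME.** -/
theorem td33 {c₁ C₁ : ℝ} {n₀ : ℕ} (h : In μ s c₁ C₁ n₀)
    (hQI : ∀ p : ℝ, 1 < p → ∃ C θ0 : ℝ, 0 ≤ C ∧ 0 < θ0 ∧ Pool.W7d29a1.C0.H27.QI μ p C θ0) (hk : KapLe96 (EE μ s) (1 / 4))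
    (hK : 32 ≤ K) (hΘ : 0 < Θ) (hR : RegP46 μ s c₀ Θ) (hδ : 0 < δ) (hδ1 : δ ≤ 1) (hc : 0 < c) (hcδ : c ≤ δ / 64) (hcΘ : c ≤ Θ / 8) :
    Est fun ι β γ m => ∃ (εM κ M e : ℝ) (k : ℕ), Cst43 μ s K δ ι β γ m εM κ M e k ∧ TDS43 μ s K Θ δ c ι m M := by
  obtain ⟨a, hRd⟩ := rd39_est h hk hK hΘ hδ hc hcδ hcΘ hR (Q := 40) (by norm_num)
  refine ((cst11_est h hQI hK hδ hδ1).and hRd).mono fun ι β γ _ _ _ => Eventually.of_forall fun m hm => ?_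
  obtain ⟨⟨εM, κ, M, e, k, C, HD⟩, h2⟩ := hm
  refine ⟨εM, κ, M, e, k, C, fun p q i hst hi al al0 hal => ?_⟩
  have H := h2 εM κ M e k C p q i hst hi
  have hr : 2 ^ q ≤ L33 K m := by
    refine (Nat.pow_le_pow_right two_pos hst.hqm).trans ?_
    exact L33_ge (by omega : 1 ≤ K) m
  refine ⟨tDR H HD hr al al0 hal, tDR_al H HD hr al al0 hal, fun cb D f hf hD => ?_⟩
  refine ab_DR H HD hr al al0 hal hf C.M8 C.q1 C.q2 fun j hj => ?_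
  have g := H.geo j hj
  have g1 := g.b16
  constructor <;> omega

/-- **(E2) at the concrete frame from part L.** -/
theorem e2S33 {c₁ C₁ : ℝ} {n₀ : ℕ} (h : In μ s c₁ C₁ n₀)
    (hQI : ∀ p : ℝ, 1 < p → ∃ C θ0 : ℝ, 0 ≤ C ∧ 0 < θ0 ∧ Pool.W7d29a1.C0.H27.QI μ p C θ0) {ff ff' : ℝ → ℝ} (hd : DenLaw μ ff ff')
    (hk : KapLe96 (EE μ s) (1 / 4)) (hK : 32 ≤ K) (hΘ : 0 < Θ) (hR : RegP46 μ s c₀ Θ)
    (hL : ∀ δ c : ℝ, 0 < δ → δ ≤ 1 → 0 < c → c ≤ δ / 64 → c ≤ Θ / 8 → Est fun ι β γ m => PtL43 μ s K Θ δ c ι β γ m) :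
    Sml fun δ => Sml fun c => ∃ x : ℝ, 0 < x ∧ Est fun ι β γ m => E2T96.E2DecN μ s (frm33 μ s K ι β γ) (EE μ s) Θ δ c x m :=
  e2Sml43 h hd hk hK hΘ hR (fun _ _ hδ hδ1 hc hcδ hcΘ => td33 h hQI hk hK hΘ hR hδ hδ1 hc hcδ hcΘ) hL

end

end Pool.Agent.W_7d29a1_C0.TdS33
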