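import Pool.Agent.W_7d29a1_C0.E2LP43
import Pool.Agent.W_7d29a1_C0.E2JT45
import Pool.Agent.W_7d29a1_C0.DgE11
import Pool.Agent.W_7d29a1_C0.TdS33

/-!
MP_7d29a1_pr, [CURV0] (helper43), section E2: **PART L OF (E2) AND (E2) AT THE CONCRETE FRAME, NO PREMISE LEFT.** `stL43`: the constants and
the slots of part L exist (the constants of helper45, the double ties of helper11, the three levels of helper45); `pl43`: the field `pl` of the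
open Props; `e2F43`: the field `e2` of the last composition.
-/

set_option autoImplicit false
set_option linter.unusedSectionVars false
set_option linter.unusedVariables false

namespace Pool.Agent.W_7d29a1_C0.E2EN43

open Finset MeasureTheory Filter Topology
open Pool.Agent.W_7d29a1_F Pool.Agent.W_7d29a1_X
open Pool.Agent.W_7d29a1_H (sl EE one_le_EE)
open Pool.Agent.W_7d29a1_HS (In wd)
open Pool.Agent.W_7d29a1_C0 Pool.Agent.W_7d29a1_C0.Mod92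
open Pool.Agent.W_7d29a1_C0.Asm96 Pool.Agent.W_7d29a1_C0.EstC46 Pool.Agent.W_7d29a1_C0.Frm33
open Pool.Agent.W_7d29a1_C0.H32
open Pool.Agent.W_7d29a1_C0.E2G43 Pool.Agent.W_7d29a1_C0.E2K43
open Pool.Agent.W_7d29a1_C0.E2AE43 Pool.Agent.W_7d29a1_C0.E2LT43 Pool.Agent.W_7d29a1_C0.E2LP43
open Pool.Agent.W_7d29a1_C0.E2KL45 (cstM43 cstML45)
open Pool.Agent.W_7d29a1_C0.E2JT45 (jts45)
open Pool.Agent.W_7d29a1_C0.E2T96 (E2DecN)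
open Pool.Agent.W_7d29a1_C0.E2S39 (rd39_est)
open Pool.Agent.W_7d29a1_C0.Par92 (Est Sml)
open Pool.Agent.W_7d29a1_C0.EstM45 (EstM EstM.and EstM.est EstM.est_and)
open Pool.Agent.W_7d29a1_C0.Dg11

noncomputable section

variable {μ : Measure ℝ} [IsProbabilityMeasure μ] {s : ℝ} {K : ℕ} {Θ δ c c₀ : ℝ}

/-- **THE CONSTANTS AND THE SLOTS OF PART L EXIST.** -/
theorem stL43 {c₁ C₁ : ℝ} {n₀ : ℕ} (h : In μ s c₁ C₁ n₀)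
    (hQI : ∀ p : ℝ, 1 < p → ∃ C θ0 : ℝ, 0 ≤ C ∧ 0 < θ0 ∧ Pool.W7d29a1.C0.H27.QI μ p C θ0) (hk : KapLe96 (EE μ s) (1 / 4))
    (hK : 32 ≤ K) (hΘ : 0 < Θ) (hR : RegP46 μ s c₀ Θ) (hδ : 0 < δ) (hδ1 : δ ≤ 1) (hc : 0 < c) (hcδ : c ≤ δ / 64) (hcΘ : c ≤ Θ / 8) :
    Est fun ι β γ m => StL43 μ s K Θ δ c ι β γ m := by
  obtain ⟨a, hRd⟩ := rd39_est h hk hK hΘ hδ hc hcδ hcΘ hR (Q := 40) (by norm_num)
  refine (EstM.est_and (((joinM11 h hK hδ (cstM43 h hQI hK hδ hδ1)).and (cstML45 h hQI hK hδ hδ1)).and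
    (jts45 h hk hQI hK hΘ hδ hδ1 hc hcδ hcΘ hR)) hRd).mono fun ι β γ _ _ _ => Eventually.of_forall fun m hm => ?_
  obtain ⟨⟨εM, -, ⟨⟨κ, e, C, HD⟩, CL⟩, hJ⟩, h2⟩ := hm
  refine ⟨εM, εM / 2, κ, _, e, _, 1, C, CL, fun p q i hst hi al al0 hal => ?_, one_pos, le_rfl, hJ⟩
  have H := h2 εM κ _ e _ C p q i hst hi
  have hr : 2 ^ q ≤ L33 K m := (Nat.pow_le_pow_right two_pos hst.hqm).trans (L33_ge (by omega : 1 ≤ K) m)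
  exact ⟨tDL H HD hr al al0 hal, rfl, fun cb D f hf hD => ab_DL H HD hr al al0 hal hf C.M8 C.q1 C.q2⟩

/-- **THE FIELD `pl` OF THE OPEN PROPS**: part L of (E2) at the concrete frame. -/
theorem pl43 {c₁ C₁ : ℝ} {n₀ : ℕ} (h : In μ s c₁ C₁ n₀)
    (hQI : ∀ p : ℝ, 1 < p → ∃ C θ0 : ℝ, 0 ≤ C ∧ 0 < θ0 ∧ Pool.W7d29a1.C0.H27.QI μ p C θ0) {ff ff' : ℝ → ℝ} (hd : DenLaw μ ff ff')
    (hk : KapLe96 (EE μ s) (1 / 4)) (hK : 32 ≤ K) (hΘ : 0 < Θ) (hR : RegP46 μ s c₀ Θ) :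
    ∀ δ c : ℝ, 0 < δ → δ ≤ 1 → 0 < c → c ≤ δ / 64 → c ≤ Θ / 8 → Est fun ι β γ m => PtL43 μ s K Θ δ c ι β γ m :=
  fun δ c hδ hδ1 hc hcδ hcΘ => partL43 h hd hk hK hΘ hR hδ hc hcδ hcΘ (stL43 h hQI hk hK hΘ hR hδ hδ1 hc hcδ hcΘ)

/-- **(E2) AT THE CONCRETE FRAME.** -/
theorem e2F43 {c₁ C₁ : ℝ} {n₀ : ℕ} (h : In μ s c₁ C₁ n₀)
    (hQI : ∀ p : ℝ, 1 < p → ∃ C θ0 : ℝ, 0 ≤ C ∧ 0 < θ0 ∧ Pool.W7d29a1.C0.H27.QI μ p C θ0) {ff ff' : ℝ → ℝ} (hd : DenLaw μ ff ff')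
    (hk : KapLe96 (EE μ s) (1 / 4)) (hK : 32 ≤ K) (hΘ : 0 < Θ) (hR : RegP46 μ s c₀ Θ) :
    Sml fun δ => Sml fun c => ∃ x : ℝ, 0 < x ∧ Est fun ι β γ m => E2DecN μ s (frm33 μ s K ι β γ) (EE μ s) Θ δ c x m :=
  TdS33.e2S33 h hQI hd hk hK hΘ hR (pl43 h hQI hd hk hK hΘ hR)

end

end Pool.Agent.W_7d29a1_C0.E2EN43
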