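import Pool.Agent.W_7d29a1_C0.Far13
import Pool.Agent.W_7d29a1_C0.FarB34
import Pool.Agent.W_7d29a1_F.CoreB3

/-!
MP_7d29a1_pr, [CURV0] (helper34): `far13` FOR OBSERVABLES WHICH ARE BLIND SITE BY SITE. `OffX` (Far13) asks that `X` does not change when all
the sites of the rows are changed at once; the spectators of the contract (`Cls59.env`) are only blind to the change of one site (hence of
finitely many). Everything else in `far13` is a function of the sites of the box `[1, N] × [0, N]`, so one conditions on the environment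
outside of the box (`integral_glue`) and puts `0` on the sites of the rows in the box.
-/

set_option autoImplicit false
set_option linter.unusedSectionVars false
set_option linter.unusedVariables false

namespace Pool.Agent.W_7d29a1_C0.Far34

open Finset MeasureTheory Filter Topology Pool.Agent.W_7d29a1_F Pool.Agent.W_7d29a1_X Pool.Agent.W_7d29a1_H
open Pool.Agent.W_7d29a1_HS (In)
open Pool.Agent.W_7d29a1_HZ (wd' EE')
open Pool.Agent.W_7d29a1_C0 Pool.Agent.W_7d29a1_C0.Mod92 Pool.Agent.W_7d29a1_C0.Swap57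
open Pool.W7d29a1.C0 Pool.W7d29a1.C0.VT31
open Pool.Agent.W_7d29a1_C0.F13 (FarAt OffX rowsB pt far13)

noncomputable section

variable {μ : Measure ℝ} {s : ℝ} {N : ℕ}

/-- The sites which the weights see. -/
def bx0 (N : ℕ) : Finset Pt := (Finset.Icc (1 : ℤ) N) ×ˢ (Finset.Icc (0 : ℤ) N)

theorem lw_box {P : Finset (Finset ℕ)} {η η' : Env} (h : ∀ q ∈ bx0 N, η q = η' q) : lw μ s η N P = lw μ s η' N P := by
  funext S
  show Real.log (pth μ s η N S.1) = Real.log (pth μ s η' N S.1)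
  rw [Fld19.log_pth, Fld19.log_pth]
  congr 1
  refine sum_congr rfl fun i hi => h _ ?_
  rw [mem_range] at hi
  unfold bx0
  rw [mem_product, Finset.mem_Icc, Finset.mem_Icc]
  have h1 := pos_nonneg S.1 (i + 1)
  have h2 := pos_le S.1 (i + 1)
  refine ⟨⟨?_, ?_⟩, h1, ?_⟩
  · show (1 : ℤ) ≤ (i : ℤ) + 1
    omega
  · show (i : ℤ) + 1 ≤ N
    omega
  · push_cast at h2
    omega

/-- A replica average is a measurable function of the environment. -/
theorem meas_repX {P : Finset (Finset ℕ)} [Nonempty (Px P)] {k : ℕ} {Ψ : Env → (Fin k → Px P) → ℝ} (mΨ : ∀ x, Measurable fun η => Ψ η x) :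
    Measurable fun η => rep k (lw μ s η N P) (Ψ η) := H41.meas_rep meas_lw (measurable_pi_lambda _ mΨ)

open Classical in
/-- **`far13` FOR OBSERVABLES WHICH ARE BLIND SITE BY SITE.** -/
theorem far13_upd [IsProbabilityMeasure μ] {c C : ℝ} {n₀ : ℕ} (h : In μ s c C n₀) (k : ℕ) : ∀ ε θ : ℝ, 0 < ε → 0 < θ → ∃ δ c' : ℝ,
    0 < δ ∧ 0 < c' ∧ ∃ L₀ : ℕ, ∀ L : ℕ, L₀ ≤ L → ∀ N t : ℕ, L ≤ 16 * N → N ≤ L → (L : ℝ) ^ θ ≤ t → t ≤ N →
    ∀ y : ℕ, y ≤ N → |(y : ℝ) - sl μ s * N| ≤ ((L : ℝ) ^ δ * wd' μ s N) → ∀ (rt : Bool) (τ : ℕ)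
    (X : Env → (Fin (k + 1) → Px (Pn N y)) → ℝ), (∀ x, Measurable fun η => X η x) → (∀ η x, 0 ≤ X η x) → (∀ η x, X η x ≤ 1) →
    (∀ (η : Env) (q : Pt) (u : ℝ), 0 ≤ q.1 → q.1.toNat ∈ rowsB rt N t τ → X (Function.update η q u) = X η) →
    ∫ η, rep (k + 2) (lw μ s η N (Pn N y)) (fun x => (if FarAt μ s L δ N t τ (pt x) then 1 else 0) *
      X η (Fin.tail x)) ∂(law μ) ≤
      (L : ℝ) ^ ε * (EE' μ s t)⁻¹ * ∫ η, rep (k + 1) (lw μ s η N (Pn N y)) (X η) ∂(law μ) + Real.exp (-(L : ℝ) ^ c') := by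
  intro ε θ hε hθ
  obtain ⟨δ, c', hδ, hc', L₀, h0⟩ := far13 h k ε θ hε hθ
  refine ⟨δ, c', hδ, hc', L₀, fun L hL N t hLN hNL htL htN y hy hyc rt τ X mX X0 X1 hX => ?_⟩
  have hne : Nonempty (Px (Pn N y)) := ne_Pn hy
  -- the environment outside of the box
  obtain ⟨A, hA⟩ : ∃ A : Set Pt, A = {q | q ∉ bx0 N} := ⟨_, rfl⟩
  obtain ⟨gl, hgl⟩ : ∃ gl : Env → Env → Env, gl = fun η η' q => if q ∈ A then η q else η' q := ⟨_, rfl⟩
  obtain ⟨zg, hzg⟩ : ∃ zg : Env → Env → Env, zg = fun η η' q => if q ∈ A then η q else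
    if (0 ≤ q.1 ∧ q.1.toNat ∈ rowsB rt N t τ) then 0 else η' q := ⟨_, rfl⟩
  have mgl : ∀ η, Measurable (gl η) := fun η => by
    rw [hgl]
    refine measurable_pi_lambda _ fun q => ?_
    by_cases hq : q ∈ A
    · simp only [hq, if_true]
      exact measurable_const
    · simp only [hq, if_false]
      exact measurable_pi_apply q
  have mzg : ∀ η, Measurable (zg η) := fun η => by
    rw [hzg]
    refine measurable_pi_lambda _ fun q => ?_
    by_cases hq : q ∈ A
    · simp only [hq, if_true]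
      exact measurable_const
    · by_cases hr : 0 ≤ q.1 ∧ q.1.toNat ∈ rowsB rt N t τ
      · simp only [hq, if_false, hr]
        exact measurable_const
      · simp only [hq, if_false, hr]
        exact measurable_pi_apply q
  have elw : ∀ η η', lw μ s (gl η η') N (Pn N y) = lw μ s η' N (Pn N y) := fun η η' => lw_box fun q hq => by
    rw [hgl]
    exact if_neg (by rw [hA]; exact fun hc => hc hq)
  have eX : ∀ η η', X (gl η η') = X (zg η η') := fun η η' => by
    refine (blind_of_upd X ((bx0 N).filter fun q => 0 ≤ q.1 ∧ q.1.toNat ∈ rowsB rt N t τ) (fun q hq ζ u => ?_) (gl η η') (zg η η')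
      fun q hq => ?_).symm
    · have h2 := (mem_filter.1 hq).2
      exact hX ζ q u h2.1 h2.2
    · rw [hgl, hzg]
      by_cases h1 : q ∈ A
      · simp only [h1, if_true]
      · by_cases h2 : 0 ≤ q.1 ∧ q.1.toNat ∈ rowsB rt N t τ
        · have h4 : q ∈ bx0 N := by
            by_contra hc
            exact h1 (by rw [hA]; exact hc)
          have h5 : q ∈ (bx0 N).filter (fun q => 0 ≤ q.1 ∧ q.1.toNat ∈ rowsB rt N t τ) := mem_filter.2 ⟨h4, h2⟩
          exact absurd h5 hq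
        · simp only [h1, if_false, h2]
  have offX : ∀ η, OffX (rowsB rt N t τ) (fun η' => X (zg η η')) := fun η η1 η2 T h12 => by
    have e : zg η η1 = zg η η2 := by
      rw [hzg]
      funext q
      by_cases h1 : q ∈ A
      · simp only [h1, if_true]
      · by_cases h2 : 0 ≤ q.1 ∧ q.1.toNat ∈ rowsB rt N t τ
        · simp only [h1, if_false, h2]
          simp
        · simp only [h1, if_false, h2]
          exact h12 q h2
    show X (zg η η1) T = X (zg η η2) T
    rw [e]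
  -- the functional of the far replica
  obtain ⟨I, hI⟩ : ∃ I : (Fin (k + 2) → Px (Pn N y)) → ℝ, I = fun x => if FarAt μ s L δ N t τ (pt x) then 1 else 0 := ⟨_, rfl⟩
  have I0 : ∀ x, 0 ≤ I x := fun x => by rw [hI]; beta_reduce; split_ifs <;> norm_num
  have I1 : ∀ x, I x ≤ 1 := fun x => by rw [hI]; beta_reduce; split_ifs <;> norm_num
  have mIX : ∀ x : Fin (k + 2) → Px (Pn N y), Measurable fun η => I x * X η (Fin.tail x) := fun x => (mX _).const_mul _
  have IX0 : ∀ η x, 0 ≤ I x * X η (Fin.tail x) := fun η x => mul_nonneg (I0 x) (X0 _ _)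
  have IX1 : ∀ η x, I x * X η (Fin.tail x) ≤ 1 := fun η x => mul_le_one₀ (I1 x) (X0 _ _) (X1 _ _)
  have i1 : Integrable (fun η => rep (k + 2) (lw μ s η N (Pn N y)) (fun x => I x * X η (Fin.tail x))) (law μ) :=
    int_rep meas_lw mIX IX0 IX1
  have i2 : Integrable (fun η => rep (k + 1) (lw μ s η N (Pn N y)) (X η)) (law μ) := int_rep meas_lw mX X0 X1
  obtain ⟨e1, j1, _⟩ := integral_glue (μ := μ) A (meas_repX (μ := μ) (s := s) (N := N) mIX) i1
  obtain ⟨e2, j2, _⟩ := integral_glue (μ := μ) A (meas_repX (μ := μ) (s := s) (N := N) mX) i2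
  have key : ∀ η, ∫ η', rep (k + 2) (lw μ s (gl η η') N (Pn N y)) (fun x => I x * X (gl η η') (Fin.tail x)) ∂(law μ) ≤
      (L : ℝ) ^ ε * (EE' μ s t)⁻¹ * ∫ η', rep (k + 1) (lw μ s (gl η η') N (Pn N y)) (X (gl η η')) ∂(law μ) +
        Real.exp (-(L : ℝ) ^ c') := fun η => by
    have h3 := h0 L hL N t hLN hNL htL htN y hy hyc rt τ (fun η' => X (zg η η')) (fun x => (mX x).comp (mzg η))
      (fun η' x => X0 _ _) (fun η' x => X1 _ _) (offX η)
    have f1 : ∀ η', rep (k + 2) (lw μ s (gl η η') N (Pn N y)) (fun x => I x * X (gl η η') (Fin.tail x)) =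
        rep (k + 2) (lw μ s η' N (Pn N y)) (fun x => (if FarAt μ s L δ N t τ (pt x) then 1 else 0) * X (zg η η') (Fin.tail x)) :=
      fun η' => by rw [elw, eX, hI]
    have f2 : ∀ η', rep (k + 1) (lw μ s (gl η η') N (Pn N y)) (X (gl η η')) =
        rep (k + 1) (lw μ s η' N (Pn N y)) (X (zg η η')) := fun η' => by rw [elw, eX]
    simp only [f1, f2]
    exact h3
  have e1' : ∫ η, rep (k + 2) (lw μ s η N (Pn N y)) (fun x => I x * X η (Fin.tail x)) ∂(law μ) =
      ∫ η, ∫ η', rep (k + 2) (lw μ s (gl η η') N (Pn N y)) (fun x => I x * X (gl η η') (Fin.tail x)) ∂(law μ) ∂(law μ) := by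
    rw [e1, hgl]
  have e2' : ∫ η, rep (k + 1) (lw μ s η N (Pn N y)) (X η) ∂(law μ) =
      ∫ η, ∫ η', rep (k + 1) (lw μ s (gl η η') N (Pn N y)) (X (gl η η')) ∂(law μ) ∂(law μ) := by
    rw [e2, hgl]
  have j1' : Integrable (fun η => ∫ η', rep (k + 2) (lw μ s (gl η η') N (Pn N y)) (fun x => I x * X (gl η η') (Fin.tail x)) ∂(law μ))
      (law μ) := by
    rw [hgl]
    exact j1
  have j2' : Integrable (fun η => ∫ η', rep (k + 1) (lw μ s (gl η η') N (Pn N y)) (X (gl η η')) ∂(law μ)) (law μ) := by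
    rw [hgl]
    exact j2
  have fin : ∫ η, rep (k + 2) (lw μ s η N (Pn N y)) (fun x => I x * X η (Fin.tail x)) ∂(law μ) ≤
      (L : ℝ) ^ ε * (EE' μ s t)⁻¹ * ∫ η, rep (k + 1) (lw μ s η N (Pn N y)) (X η) ∂(law μ) + Real.exp (-(L : ℝ) ^ c') := by
    rw [e1', e2', ← integral_const_mul]
    have e3 : ∫ η : Env, ((L : ℝ) ^ ε * (EE' μ s t)⁻¹ * ∫ η', rep (k + 1) (lw μ s (gl η η') N (Pn N y)) (X (gl η η')) ∂(law μ) +
        Real.exp (-(L : ℝ) ^ c')) ∂(law μ) =
        ∫ η, (L : ℝ) ^ ε * (EE' μ s t)⁻¹ * ∫ η', rep (k + 1) (lw μ s (gl η η') N (Pn N y)) (X (gl η η')) ∂(law μ) ∂(law μ) +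
        Real.exp (-(L : ℝ) ^ c') := by
      rw [integral_add (j2'.const_mul _) (integrable_const _), integral_const]
      simp
    rw [← e3]
    exact integral_mono j1' ((j2'.const_mul _).add (integrable_const _)) key
  rw [hI] at fin
  exact fin

end

end Pool.Agent.W_7d29a1_C0.Far34
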