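import Pool.Agent.W_7d29a1_C0.FarF34
import Pool.Agent.W_7d29a1_C0.FarG34
import Pool.Agent.W_7d29a1_C0.E1B19

/-!
MP_7d29a1_pr, [CURV0], leaf E1f, F5 (helper34), CLOSED: THE FAR TERMS OF `e1_bound` (helper19) at the interpolated weights, from `far13`
(helper13), E0 (helper7) and the localisation (helper18). `farE1_34`: the average under `wU` of `fr 2 b o2 (XF ..)` is at most
`N ^ ε` times `N ^ ε / EE' t` times the average of `NI |f - f'|` at the corner, `t` = four times the length of the slabs, up to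
`N ^ (-K')` and exponentially small terms. `fr4_le`: the two far insertions are at most one. `ow34`: the mass of the steep paths.
-/

set_option autoImplicit false
set_option linter.unusedSectionVars false
set_option linter.unusedVariables false

namespace Pool.Agent.W_7d29a1_C0.Far34

open Finset MeasureTheory Filter Topology Pool.Agent.W_7d29a1_F Pool.Agent.W_7d29a1_X Pool.Agent.W_7d29a1_H
open Pool.Agent.W_7d29a1_HS (In)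
open Pool.Agent.W_7d29a1_HZ (wd' EE')
open Pool.Agent.W_7d29a1_C0 Pool.Agent.W_7d29a1_C0.Mod92 Pool.Agent.W_7d29a1_C0.Swap57
open Pool.W7d29a1.C0 Pool.W7d29a1.C0.VT31
open Pool.W7d29a1.C0.Fld19 Pool.W7d29a1.C0.H27 Pool.Agent.W_7d29a1_C0.Q32
open Pool.W7d29a1.C0.T73 (pm JZ OutB bx)
open Pool.W7d29a1.C0.E1A (fr XF)
open Pool.Agent.W_7d29a1_C0.F13 (FarAt rowsB pt)

noncomputable section

variable {μ : Measure ℝ} {s : ℝ} {N : ℕ}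

/-- **The far term at the corner**, from `far13`: no flatness, the new replica may be anywhere. -/
theorem far_corner13 [IsProbabilityMeasure μ] {c₀ C₀ : ℝ} {n₀ : ℕ} (h : In μ s c₀ C₀ n₀) {ε θ : ℝ} (hε : 0 < ε) (hθ : 0 < θ) :
    ∃ δ c' : ℝ, 0 < δ ∧ 0 < c' ∧ ∃ N₀ : ℕ, ∀ N : ℕ, N₀ ≤ N → ∀ y : ℕ, y ≤ N → |(y : ℝ) - sl μ s * N| ≤ ((N : ℝ) ^ δ * wd' μ s N) →
      ∀ (d : ℕ) (D : ℝ) (f : Env → Px (Pn N y) → ℝ), Sp (Pn N y) d D f → 0 < D → ∀ (t τ : ℕ), (N : ℝ) ^ θ ≤ t → t ≤ N →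
      τ + t / 4 ≤ d + 1 → ∀ (m0 m1 : ℕ) (J : Finset ℕ) (R : ℝ), (∀ m ∈ J, τ ≤ m ∧ m ≤ τ + t / 4 ∧ m ≤ N) → wd' μ s t ≤ R →
      ∫ η, rep 3 (lw μ s η N (Pn N y)) (Ff J R m0 m1 f η) ∂(law μ) ≤
        (N : ℝ) ^ ε * (EE' μ s t)⁻¹ * ∫ η, rep 2 (lw μ s η N (Pn N y)) (fun x => Zf m0 m1 (f η) (x 0) (x 1)) ∂(law μ) +
          2 * D * Real.exp (-(N : ℝ) ^ c') := by
  classical
  obtain ⟨δ, c', hδ, hc', L₀, h0⟩ := far13_upd h 1 ε θ hε hθ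
  refine ⟨δ, c', hδ, hc', max L₀ 1, fun N hN y hy hyc d D f hf hD t τ htN ht hτ m0 m1 J R hJ hR => ?_⟩
  have k1 : L₀ ≤ N := (le_max_left _ _).trans hN
  have k2 : 1 ≤ N := (le_max_right _ _).trans hN
  have hNR : (1 : ℝ) ≤ N := by exact_mod_cast k2
  have hne : Nonempty (Px (Pn N y)) := ne_Pn hy
  have h2D : 0 < 2 * D := by positivity
  obtain ⟨X, hX⟩ : ∃ X : Env → (Fin 2 → Px (Pn N y)) → ℝ, X = fun η x => (2 * D)⁻¹ * Zf m0 m1 (f η) (x 0) (x 1) := ⟨_, rfl⟩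
  have X0 : ∀ η x, 0 ≤ X η x := fun η x => by
    rw [hX]
    exact mul_nonneg (by positivity) (Zf_nonneg _ _ _ _ _)
  have X1 : ∀ η x, X η x ≤ 1 := fun η x => by
    rw [hX]
    show (2 * D)⁻¹ * Zf m0 m1 (f η) (x 0) (x 1) ≤ 1
    rw [inv_mul_le_iff₀ h2D, mul_one]
    exact Zf_le (hf.bdd η) _ _
  have mX : ∀ x, Measurable fun η => X η x := fun x => by
    rw [hX]
    exact (meas_Zf hf m0 m1 _ _).const_mul _
  have bX : ∀ (η : Env) (q : Pt) (u : ℝ), 0 ≤ q.1 → q.1.toNat ∈ rowsB false N t τ → X (Function.update η q u) = X η :=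
    fun η q u hq0 hq1 => by
      have h3 : q.1.toNat ∈ Ico 1 (τ + t / 4) := hq1
      rw [mem_Ico] at h3
      rw [hX]
      show (fun x : Fin 2 → Px (Pn N y) => (2 * D)⁻¹ * Zf m0 m1 (f (Function.update η q u)) (x 0) (x 1)) = _
      rw [hf.upd (q := q) (by omega) (by
        have h4 : q.1.toNat ≤ d := by omega
        have h5 : ((q.1.toNat : ℕ) : ℤ) = q.1 := Int.toNat_of_nonneg hq0
        omega)]
  have key := h0 N k1 N t (by omega) le_rfl htN ht y hy hyc false τ X mX X0 X1 bX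
  have Xe : ∀ η (x : Fin 2 → Px (Pn N y)), 2 * D * X η x = Zf m0 m1 (f η) (x 0) (x 1) := fun η x => by
    rw [hX]
    show 2 * D * ((2 * D)⁻¹ * Zf m0 m1 (f η) (x 0) (x 1)) = _
    rw [← mul_assoc, mul_inv_cancel₀ h2D.ne', one_mul]
  have farle : ∀ x : Fin 3 → Px (Pn N y), farI J R (x 0) (x 1) (x 2) ≤ if FarAt μ s N δ N t τ (pt x) then 1 else 0 := fun x => by
    unfold farI
    by_cases hF : FarJ J R (x 0) (x 1) (x 2)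
    · rw [if_pos hF, if_pos]
      obtain ⟨i, hi, d1, d2⟩ := hF
      refine ⟨i, (hJ i hi).1, (hJ i hi).2.1, (hJ i hi).2.2, fun m => ?_⟩
      have hw : (N : ℝ) ^ (-δ) * wd' μ s t ≤ R := by
        have h1 : (N : ℝ) ^ (-δ) ≤ 1 := Real.rpow_le_one_of_one_le_of_nonpos hNR (by linarith)
        have h2 : 0 ≤ wd' μ s t := zero_le_one.trans (le_max_left _ _)
        calc (N : ℝ) ^ (-δ) * wd' μ s t ≤ 1 * wd' μ s t := mul_le_mul_of_nonneg_right h1 h2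
          _ ≤ R := by rw [one_mul]; exact hR
      fin_cases m
      · refine hw.trans (d1.trans_eq ?_)
        rw [← Int.cast_abs]
        rfl
      · refine hw.trans (d2.trans_eq ?_)
        rw [← Int.cast_abs]
        rfl
    · rw [if_neg hF]
      split_ifs <;> norm_num
  obtain ⟨I, hI⟩ : ∃ I : (Fin 3 → Px (Pn N y)) → ℝ, I = fun x => if FarAt μ s N δ N t τ (pt x) then 1 else 0 := ⟨_, rfl⟩
  have I0 : ∀ x, 0 ≤ I x := fun x => by rw [hI]; beta_reduce; split_ifs <;> norm_num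
  have I1 : ∀ x, I x ≤ 1 := fun x => by rw [hI]; beta_reduce; split_ifs <;> norm_num
  have iI : Integrable (fun η => rep 3 (lw μ s η N (Pn N y)) (fun x => I x * X η (Fin.tail x))) (law μ) :=
    int_rep meas_lw (fun x => (mX _).const_mul _) (fun η x => mul_nonneg (I0 x) (X0 _ _)) (D := 1)
      fun η x => mul_le_one₀ (I1 x) (X0 _ _) (X1 _ _)
  have iF : Integrable (fun η => rep 3 (lw μ s η N (Pn N y)) (Ff J R m0 m1 f η)) (law μ) :=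
    int_rep meas_lw (meas_Ff hf J R m0 m1) (Ff_nonneg J R m0 m1 f) (Ff_le hf J R m0 m1)
  have s1 : ∫ η, rep 3 (lw μ s η N (Pn N y)) (Ff J R m0 m1 f η) ∂(law μ) ≤
      2 * D * ∫ η, rep 3 (lw μ s η N (Pn N y)) (fun x => I x * X η (Fin.tail x)) ∂(law μ) := by
    rw [← integral_const_mul]
    refine integral_mono iF (iI.const_mul _) fun η => ?_
    show rep 3 (lw μ s η N (Pn N y)) (Ff J R m0 m1 f η) ≤ 2 * D * rep 3 (lw μ s η N (Pn N y)) (fun x => I x * X η (Fin.tail x))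
    rw [← rep_smul]
    refine rep_mono 3 _ fun x => ?_
    have h2 : farI J R (x 0) (x 1) (x 2) ≤ I x := by
      rw [hI]
      exact farle x
    have h3 : 2 * D * X η (Fin.tail x) = Zf m0 m1 (f η) (x 1) (x 2) := Xe η (Fin.tail x)
    unfold Ff
    calc farI J R (x 0) (x 1) (x 2) * Zf m0 m1 (f η) (x 1) (x 2) ≤ I x * Zf m0 m1 (f η) (x 1) (x 2) :=
          mul_le_mul_of_nonneg_right h2 (Zf_nonneg _ _ _ _ _)
      _ = 2 * D * (I x * X η (Fin.tail x)) := by rw [← h3]; ring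
  have s2 : 2 * D * ∫ η, rep 2 (lw μ s η N (Pn N y)) (X η) ∂(law μ) =
      ∫ η, rep 2 (lw μ s η N (Pn N y)) (fun x => Zf m0 m1 (f η) (x 0) (x 1)) ∂(law μ) := by
    rw [← integral_const_mul]
    refine integral_congr_ae (ae_of_all _ fun η => ?_)
    show 2 * D * rep 2 (lw μ s η N (Pn N y)) (X η) = _
    rw [← rep_smul]
    exact H41.rep_congr 2 _ fun x => Xe η x
  have key' : ∫ η, rep 3 (lw μ s η N (Pn N y)) (fun x => I x * X η (Fin.tail x)) ∂(law μ) ≤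
      (N : ℝ) ^ ε * (EE' μ s t)⁻¹ * ∫ η, rep 2 (lw μ s η N (Pn N y)) (X η) ∂(law μ) + Real.exp (-(N : ℝ) ^ c') := by
    rw [hI]
    exact key
  have s3 := mul_le_mul_of_nonneg_left key' h2D.le
  rw [← s2]
  linarith

theorem Ff_pB' {P : Finset (Finset ℕ)} {d : ℕ} {D : ℝ} {f : Env → Px P → ℝ} (hf : Sp P d D f) {J : Finset ℕ} {R : ℝ} {m0 m1 c1 : ℕ}
    (h0 : c1 ≤ m0) (hd : c1 ≤ d) (hJ : ∀ m ∈ J, c1 ≤ m) (η : Env)
    {x x' : Fin 3 → Px P} (h : ∀ i, pB c1 (x i) = pB c1 (x' i)) : Ff J R m0 m1 f η x = Ff J R m0 m1 f η x' := by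
  have hp : ∀ i k, c1 ≤ k → ps (x i) k = ps (x' i) k := fun i k hk => ps_of_pB (h i) hk
  unfold Ff Zf farI
  rw [NI_of_ps (fun i hi => hp 1 i (h0.trans hi)) (fun i hi => hp 2 i (h0.trans hi)), hf.side η _ _ (sdiff_of_pB (h 1) hd),
    hf.side η _ _ (sdiff_of_pB (h 2) hd)]
  congr 2
  unfold FarJ
  refine propext ⟨?_, ?_⟩
  · rintro ⟨m, hm, k1, k2⟩
    have hm0 := hJ m hm
    rw [hp 0 m hm0, hp 1 m hm0] at k1
    rw [hp 0 m hm0, hp 2 m hm0] at k2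
    exact ⟨m, hm, k1, k2⟩
  · rintro ⟨m, hm, k1, k2⟩
    have hm0 := hJ m hm
    rw [← hp 0 m hm0, ← hp 1 m hm0] at k1
    rw [← hp 0 m hm0, ← hp 2 m hm0] at k2
    exact ⟨m, hm, k1, k2⟩

/-- **The far term at the interpolated weights.** -/
theorem far_wt13 [IsProbabilityMeasure μ] {c₀ C₀ : ℝ} {n₀ : ℕ} (h : In μ s c₀ C₀ n₀)
    (hQI : ∀ p : ℝ, 1 < p → ∃ C θ0 : ℝ, 0 ≤ C ∧ 0 < θ0 ∧ QI μ p C θ0) {κ : ℝ} (hκ : 0 < κ) (hκ1 : κ ≤ 1) {ε K' : ℝ}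
    (hε : 0 < ε) (hK' : 0 ≤ K') : ∃ δ' ε₁ c' : ℝ, 0 < δ' ∧ 0 < ε₁ ∧ 0 < c' ∧ ∃ N₀ : ℕ, ∀ N : ℕ, N₀ ≤ N →
      ∀ y : ℕ, y ≤ N → |(y : ℝ) - sl μ s * N| ≤ ((N : ℝ) ^ δ' * wd' μ s N) →
      ∀ c K : ℕ, (N : ℝ) ^ κ ≤ c → (N : ℝ) ^ κ ≤ K → c + K ≤ N →
      ∀ M : ℝ, 0 ≤ M → M ≤ (N : ℝ) ^ ε₁ → ∀ U : Env → Finset ℕ → ℝ, Past c U → (∀ η S, |U η S| ≤ M) →
      ∀ (d : ℕ) (D : ℝ) (f : Env → Px (Pn N y) → ℝ), Sp (Pn N y) d D f → c + K ≤ d → 0 < D → 2 * D ≤ (N : ℝ) ^ K' →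
      ∀ (t τ : ℕ), (N : ℝ) ^ κ ≤ t → t ≤ N → τ + t / 4 ≤ d + 1 → ∀ (m0 m1 : ℕ) (J : Finset ℕ) (R : ℝ), c + K ≤ m0 →
      (∀ m ∈ J, c + K ≤ m ∧ m ≤ N ∧ τ ≤ m ∧ m ≤ τ + t / 4) → wd' μ s t ≤ R →
      ∫ η, rep 3 (wU μ s N (Pn N y) U η) (Ff J R m0 m1 f η) ∂(law μ) ≤
        (N : ℝ) ^ ε * ((N : ℝ) ^ ε * (EE' μ s t)⁻¹ *
          ∫ η, rep 2 (lw μ s η N (Pn N y)) (fun x => Zf m0 m1 (f η) (x 0) (x 1)) ∂(law μ) +
          2 * D * Real.exp (-(N : ℝ) ^ c') + (N : ℝ) ^ (-K')) := by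
  obtain ⟨δa, ε₁, hδa, hε₁, Na, ha⟩ := e0_blind h hQI hκ hκ1 3 hε hK'
  obtain ⟨δb, c', hδb, hc', Nb, hb⟩ := far_corner13 h hε hκ
  refine ⟨min δa δb, ε₁, c', lt_min hδa hδb, hε₁, hc', max (max Na Nb) 1, fun N hN y hy hyc c K hc hK hcK M hM0 hM U hU hUM d D f hf
    hcd hD hDN t τ ht htN hτ m0 m1 J R hcm hJ hR => ?_⟩
  have k1 : Na ≤ N := (le_max_left _ _).trans ((le_max_left _ _).trans hN)
  have k2 : Nb ≤ N := (le_max_right _ _).trans ((le_max_left _ _).trans hN)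
  have k3 : 1 ≤ N := (le_max_right _ _).trans hN
  have hP : H7.Pok μ s N (min δa δb) (Pn N y) := Or.inr ⟨y, hy, hyc, rfl⟩
  have cone : ∀ e, min δa δb ≤ e → |(y : ℝ) - sl μ s * N| ≤ ((N : ℝ) ^ e * wd' μ s N) := fun e he =>
    hyc.trans (mul_le_mul_of_nonneg_right (Real.rpow_le_rpow_of_exponent_le (by exact_mod_cast k3) he)
      (zero_le_one.trans (le_max_left _ _)))
  have s1 := ha N k1 (Pn N y) (Pok_mono k3 (min_le_left _ _) hP) c K hc hK hcK M hM0 hM U hU hUM (Ff J R m0 m1 f) (Ff_nonneg J R m0 m1 f)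
    (fun η x => (Ff_le hf J R m0 m1 η x).trans hDN) (meas_Ff hf J R m0 m1)
    (fun η x x' hx => Ff_pB' hf hcm hcd (fun m hm => (hJ m hm).1) η hx) (fun η ζ hζ => Ff_blind hf J R m0 m1 hcd η ζ hζ)
  have s2 := hb N k2 y hy (cone _ (min_le_right _ _)) d D f hf hD t τ ht htN hτ m0 m1 J R
    (fun m hm => ⟨(hJ m hm).2.2.1, (hJ m hm).2.2.2, (hJ m hm).2.1⟩) hR
  refine s1.trans (mul_le_mul_of_nonneg_left ?_ (Real.rpow_nonneg (Nat.cast_nonneg _) _))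
  linarith

/-! ### The literal terms of `e1_bound` -/

variable {Q : Finset (Finset ℕ)} {σ : ℝ} {v : ℕ → ℝ} {R : ℝ} {L k0 n : ℕ} {J : Finset ℕ} {m0 m0' m1 : ℕ} {D : ℝ}

theorem NI_mono {m0 m0' m1 : ℕ} (h : m0 ≤ m0') (S T : Px Q) : NI m0 m1 S T ≤ NI m0' m1 S T := by
  unfold NI
  by_cases h1 : ∀ k : ℕ, m0 ≤ k → k ≤ m1 → ps S k ≠ ps T k
  · rw [if_pos h1, if_pos fun k hk hk1 => h1 k (h.trans hk) hk1]
  · rw [if_neg h1]
    split_ifs <;> norm_num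

theorem XF_le (h : m0 ≤ m0') (F : Px Q → ℝ) (x : Fin 2 → Px Q) : XF m0 m1 F x ≤ Zf m0' m1 F (x 0) (x 1) := by
  unfold XF Zf
  rw [mul_comm]
  exact mul_le_mul_of_nonneg_right (NI_mono h _ _) (abs_nonneg _)

theorem XF_eq (F : Px Q → ℝ) : (fun x : Fin 2 → Px Q => Zf m0 m1 F (x 0) (x 1)) = XF m0 m1 F := by
  funext x
  unfold XF Zf
  rw [mul_comm]

/-- **One free far replica**, pathwise. -/
theorem fr_le34 [Nonempty (Px Q)] (hR1 : 1 ≤ R) (hR : ∀ k, 1 ≤ k → k ≤ L → v k ≤ R) (hJN : ∀ i ∈ J, i ≤ N) (hk : k0 ≤ N)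
    (hJ : ∀ i ∈ J, i - k0 ≤ L ∧ k0 - i ≤ L) (hn : k0 ≤ n) {o : (Fin 2 → Fin (n + 1)) → Px Q → ℝ}
    (ho : ∀ β S, o β S ≤ i1 (OutB pm σ R (k0 : ℤ) (JZ J) β S)) {F : Px Q → ℝ} (hF : ∀ S, |F S| ≤ D) (hm : m0 ≤ m0') (w : Px Q → ℝ) :
    rep 3 w (fr 2 (bx pm R (k0 : ℤ) n) o (XF m0 m1 F)) ≤
      rep 3 w (fun y => farI J R (y 0) (y 1) (y 2) * Zf m0' m1 F (y 1) (y 2)) + 4 * D * gm w (nfl N σ v) := by
  have hG := geo34 (Q := Q) (N := N) (v := v) (σ := σ) hR1 hR hJN hk hJ hn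
  have h1 := rep_out (Z := Zf m0' m1 F) hG (Zf_nonneg m0' m1 F) (Zf_le hF) w
  have h3 : rep 3 w (fr 2 (bx pm R (k0 : ℤ) n) o (XF m0 m1 F)) ≤ rep 3 w (fun y => Zf m0' m1 F (y 1) (y 2) *
      i1 (OutB pm σ R (k0 : ℤ) (JZ J) (fun i : Fin 2 => bx pm R (k0 : ℤ) n (y i.succ)) (y 0))) := by
    refine rep_mono 3 w fun y => ?_
    obtain ⟨o', ho'⟩ : ∃ a : ℝ, a = o (fun i : Fin 2 => bx pm R (k0 : ℤ) n (y i.succ)) (y 0) := ⟨_, rfl⟩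
    obtain ⟨j, hj⟩ : ∃ a : ℝ, a = i1 (OutB pm σ R (k0 : ℤ) (JZ J) (fun i : Fin 2 => bx pm R (k0 : ℤ) n (y i.succ)) (y 0)) := ⟨_, rfl⟩
    have h4 : o' ≤ j := by
      rw [ho', hj]
      exact ho _ _
    have h5 : 0 ≤ j := by
      rw [hj]
      exact i1_nonneg _
    have h2 : |XF m0 m1 F (Fin.tail y)| ≤ Zf m0' m1 F (y 1) (y 2) := by
      rw [abs_of_nonneg (Pool.W7d29a1.C0.E1A.XF_nonneg m0 m1 F _)]
      exact XF_le hm F (Fin.tail y)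
    have e : fr 2 (bx pm R (k0 : ℤ) n) o (XF m0 m1 F) y = |XF m0 m1 F (Fin.tail y)| * o' := by
      rw [ho']
      rfl
    rw [e, ← hj]
    calc |XF m0 m1 F (Fin.tail y)| * o' ≤ |XF m0 m1 F (Fin.tail y)| * j := mul_le_mul_of_nonneg_left h4 (abs_nonneg _)
      _ ≤ _ := mul_le_mul_of_nonneg_right h2 h5
  have h6 : 2 * (2 * D) * gm w (nfl N σ v) = 4 * D * gm w (nfl N σ v) := by ring
  rw [h6] at h1
  exact h3.trans h1

/-- **Two far replicas**: at most one. -/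
theorem fr4_le {X B : Type*} [Fintype X] [Nonempty X] {b : X → B} {o : (Fin 3 → B) → X → ℝ} (ho : ∀ β S, o β S ≤ 1)
    {Φ : (Fin 3 → X) → ℝ} (hΦ : ∀ x, 0 ≤ Φ x) (w : X → ℝ) : rep 4 w (fr 3 b o Φ) ≤ rep 3 w Φ := by
  rw [← rep_tail 3 w Φ]
  refine rep_mono 4 w fun y => ?_
  show |Φ (Fin.tail y)| * o (fun i => b (y i.succ)) (y 0) ≤ Φ (Fin.tail y)
  rw [abs_of_nonneg (hΦ _)]
  calc Φ (Fin.tail y) * o (fun i => b (y i.succ)) (y 0) ≤ Φ (Fin.tail y) * 1 := mul_le_mul_of_nonneg_left (ho _ _) (hΦ _)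
    _ = _ := mul_one _

/-- A flat path is straight: the indicator. -/
theorem str_le34 (hR1 : 1 ≤ R) (hR : ∀ k, 1 ≤ k → k ≤ L → v k ≤ R) (hJN : ∀ i ∈ J, i ≤ N) (hk : k0 ≤ N)
    (hJ : ∀ i ∈ J, i - k0 ≤ L ∧ k0 - i ≤ L) (S : Px Q) : i1 (¬ T73.Str pm σ R (k0 : ℤ) (JZ J) S) ≤ nfl N σ v S :=
  i1_le (nfl_nonneg N σ v S) fun h => by
    by_cases hf : Fl N σ v S
    · exact absurd (str_of_fl hf (by linarith) hR hJN hk hJ) h
    · unfold nfl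
      rw [if_neg hf]

/-- **THE FAR TERMS OF `e1_bound`**, one free far replica, in expectation at the interpolated weights. -/
theorem farE1_34 [IsProbabilityMeasure μ] {c₀ C₀ : ℝ} {n₀ : ℕ} (h : In μ s c₀ C₀ n₀)
    (hQI : ∀ p : ℝ, 1 < p → ∃ C θ0 : ℝ, 0 ≤ C ∧ 0 < θ0 ∧ QI μ p C θ0) {κ : ℝ} (hκ : 0 < κ) (hκ1 : κ ≤ 1) {ε K' ε2 : ℝ}
    (hε : 0 < ε) (hK' : 0 ≤ K') (hε2 : 0 < ε2) : ∃ δ' ε₁ c' : ℝ, 0 < δ' ∧ 0 < ε₁ ∧ 0 < c' ∧ ∃ N₀ : ℕ, ∀ N : ℕ, N₀ ≤ N →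
      ∀ y : ℕ, y ≤ N → |(y : ℝ) - sl μ s * N| ≤ ((N : ℝ) ^ δ' * wd' μ s N) →
      ∀ c K : ℕ, (N : ℝ) ^ κ ≤ c → (N : ℝ) ^ κ ≤ K → c + K ≤ N →
      ∀ M : ℝ, 0 ≤ M → M ≤ (N : ℝ) ^ ε₁ → ∀ U : Env → Finset ℕ → ℝ, Past c U → (∀ η S, |U η S| ≤ M) →
      ∀ (d : ℕ) (D : ℝ) (f : Env → Px (Pn N y) → ℝ), Sp (Pn N y) d D f → c + K ≤ d → 0 < D → 2 * D ≤ (N : ℝ) ^ K' →
      ∀ (t τ : ℕ), (N : ℝ) ^ κ ≤ t → t ≤ N → τ + t / 4 ≤ d + 1 → ∀ (m0 m0' m1 k0 L : ℕ) (J : Finset ℕ) (R : ℝ), m0 ≤ m0' → c + K ≤ m0' →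
      (∀ m ∈ J, c + K ≤ m ∧ m ≤ N ∧ τ ≤ m ∧ m ≤ τ + t / 4) → k0 ≤ N → (∀ i ∈ J, i - k0 ≤ L ∧ k0 - i ≤ L) → 1 ≤ R →
      (∀ k, 1 ≤ k → k ≤ L → vv μ s N ε2 k ≤ R) → wd' μ s t ≤ R →
      (∀ o : (Fin 2 → Fin (N + 1)) → Px (Pn N y) → ℝ, (∀ β S, 0 ≤ o β S) →
        (∀ β S, o β S ≤ i1 (OutB pm (sl μ s) R (k0 : ℤ) (JZ J) β S)) →
        ∫ η, rep 3 (wU μ s N (Pn N y) U η) (fr 2 (bx pm R (k0 : ℤ) N) o (XF m0 m1 (f η))) ∂(law μ) ≤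
          (N : ℝ) ^ ε * ((N : ℝ) ^ ε * (EE' μ s t)⁻¹ * ∫ η, rep 2 (lw μ s η N (Pn N y)) (XF m0' m1 (f η)) ∂(law μ) +
            2 * D * Real.exp (-(N : ℝ) ^ c') + (N : ℝ) ^ (-K')) + 4 * D * Real.exp (2 * M - (N : ℝ) ^ c')) ∧
      ∀ ow : Px (Pn N y) → ℝ, (∀ S, 0 ≤ ow S) → (∀ S, ow S ≤ i1 (¬ T73.Str pm (sl μ s) R (k0 : ℤ) (JZ J) S)) →
        ∫ η, gm (wU μ s N (Pn N y) U η) ow ∂(law μ) ≤ Real.exp (2 * M - (N : ℝ) ^ c') := by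
  obtain ⟨δa, ε₁, ca, hδa, hε₁, hca, Na, ha⟩ := far_wt13 h hQI hκ hκ1 hε hK'
  obtain ⟨δb, cb, hδb, hcb, Nb, hb⟩ := steep34 h hε2
  refine ⟨min δa δb, ε₁, min ca cb, lt_min hδa hδb, hε₁, lt_min hca hcb, max (max Na Nb) 1, fun N hN y hy hyc c K hc hK hcK M hM0 hM U hU
    hUM d D f hf hcd hD hDN t τ ht htN hτ m0 m0' m1 k0 L J R hmm hcm hJ hk hJL hR1 hR hRt => ?_⟩
  have k1 : Na ≤ N := (le_max_left _ _).trans ((le_max_left _ _).trans hN)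
  have k2 : Nb ≤ N := (le_max_right _ _).trans ((le_max_left _ _).trans hN)
  have k3 : 1 ≤ N := (le_max_right _ _).trans hN
  have hNR : (1 : ℝ) ≤ N := by exact_mod_cast k3
  have hne : Nonempty (Px (Pn N y)) := ne_Pn hy
  have hP : H7.Pok μ s N (min δa δb) (Pn N y) := Or.inr ⟨y, hy, hyc, rfl⟩
  have cone : ∀ e, min δa δb ≤ e → |(y : ℝ) - sl μ s * N| ≤ ((N : ℝ) ^ e * wd' μ s N) := fun e he =>
    hyc.trans (mul_le_mul_of_nonneg_right (Real.rpow_le_rpow_of_exponent_le (by exact_mod_cast k3) he)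
      (zero_le_one.trans (le_max_left _ _)))
  have hJN : ∀ i ∈ J, i ≤ N := fun i hi => (hJ i hi).2.1
  have ex1 : ∀ a, min ca cb ≤ a → Real.exp (-(N : ℝ) ^ a) ≤ Real.exp (-(N : ℝ) ^ (min ca cb)) := fun a ha' =>
    Real.exp_le_exp.2 (neg_le_neg (Real.rpow_le_rpow_of_exponent_le hNR ha'))
  have steep : ∫ η, gm (wU μ s N (Pn N y) U η) (nfl N (sl μ s) (vv μ s N ε2)) ∂(law μ) ≤ Real.exp (2 * M - (N : ℝ) ^ (min ca cb)) := by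
    refine (hb N k2 (Pn N y) (Pok_mono k3 (min_le_right _ _) hP) c M U hU hUM).trans (Real.exp_le_exp.2 ?_)
    have := Real.rpow_le_rpow_of_exponent_le hNR (min_le_right ca cb)
    linarith
  refine ⟨fun o o0 ho => ?_, fun ow ow0 how => ?_⟩
  · have s1 := ha N k1 y hy (cone _ (min_le_left _ _)) c K hc hK hcK M hM0 hM U hU hUM d D f hf hcd hD hDN t τ ht htN hτ m0' m1 J R hcm
      hJ hRt
    have s2 := int_far34 (μ := μ) (s := s) hU hf (sl μ s) (vv μ s N ε2) J R m0' m1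
      (F := fun η => rep 3 (wU μ s N (Pn N y) U η) (fr 2 (bx pm R (k0 : ℤ) N) o (XF m0 m1 (f η)))) (a := 1) (b := 4 * D)
      (fun η => H41.rep_nonneg 3 _ fun x => mul_nonneg (abs_nonneg _) (o0 _ _)) (fun η => by
        rw [one_mul]
        exact fr_le34 hR1 hR hJN hk hJL hk ho (hf.bdd η) hmm _)
    rw [one_mul] at s2
    have s3 := mul_le_mul_of_nonneg_left steep (show 0 ≤ 4 * D by positivity)
    have s4 : 2 * D * Real.exp (-(N : ℝ) ^ ca) ≤ 2 * D * Real.exp (-(N : ℝ) ^ (min ca cb)) :=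
      mul_le_mul_of_nonneg_left (ex1 ca (min_le_left _ _)) (by positivity)
    have s5 : (N : ℝ) ^ ε * ((N : ℝ) ^ ε * (EE' μ s t)⁻¹ *
        ∫ η, rep 2 (lw μ s η N (Pn N y)) (fun x => Zf m0' m1 (f η) (x 0) (x 1)) ∂(law μ) +
          2 * D * Real.exp (-(N : ℝ) ^ ca) + (N : ℝ) ^ (-K')) ≤
        (N : ℝ) ^ ε * ((N : ℝ) ^ ε * (EE' μ s t)⁻¹ * ∫ η, rep 2 (lw μ s η N (Pn N y)) (XF m0' m1 (f η)) ∂(law μ) +
          2 * D * Real.exp (-(N : ℝ) ^ (min ca cb)) + (N : ℝ) ^ (-K')) := by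
      refine mul_le_mul_of_nonneg_left ?_ (Real.rpow_nonneg (Nat.cast_nonneg _) _)
      simp only [XF_eq]
      linarith
    linarith
  · refine le_trans (integral_mono_of_nonneg (ae_of_all _ fun η => ?_) ?_ (ae_of_all _ fun η => ?_)) steep
    · exact gm_ns_nonneg _ ow0
    · refine Integrable.of_bound (meas_gm_wU hU _).aestronglyMeasurable 1 (ae_of_all _ fun η => ?_)
      rw [← rep_coord 0 (wU μ s N (Pn N y) U η) (nfl N (sl μ s) (vv μ s N ε2)) 0, Real.norm_eq_abs,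
        abs_of_nonneg (H41.rep_nonneg 1 _ fun x => nfl_nonneg N (sl μ s) (vv μ s N ε2) (x 0))]
      exact (rep_mono 1 _ fun x => by
        unfold nfl
        split_ifs <;> norm_num).trans_eq (H41.rep_const 1 _ 1)
    · exact Pool.W7d29a1.C0.gm_mono _ fun S => (how S).trans (str_le34 hR1 hR hJN hk hJL S)

end

end Pool.Agent.W_7d29a1_C0.Far34
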