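import Pool.Agent.W_7d29a1_C0.FarPl13
import Pool.Agent.W_7d29a1_C0.FarH34
import Pool.Agent.W_7d29a1_C0.Cor45N
import Pool.Agent.W_7d29a1_C0.E2F59

/-!
MP_7d29a1_pr, [CURV0] / [C0], section E2 (helper34): **THE FAR LINES OF E2**, part 1: the price in the average over the signs, at the tilted
weights `wu`. `FarG`: the far price of a new replica given the outside of a block (`far_giT` of helper46, rows in front of the window of
the tilt). `FarG.line`: the same for any observable. `line34`: a new replica which leaves the tubes of all the old ones (`o x v` at most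
the indicator of `FarAt` and the steep paths).
-/

set_option autoImplicit false
set_option linter.unusedSectionVars false
set_option linter.unusedVariables false

namespace Pool.Agent.W_7d29a1_C0.E2F34

open Finset MeasureTheory Filter Topology Pool.Agent.W_7d29a1_F Pool.Agent.W_7d29a1_X Pool.Agent.W_7d29a1_H
open Pool.Agent.W_7d29a1_HS (In)
open Pool.Agent.W_7d29a1_HZ (wd' EE')
open Pool.Agent.W_7d29a1_C0 Pool.Agent.W_7d29a1_C0.Mod92 Pool.Agent.W_7d29a1_C0.Swap57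
open Pool.Agent.W_7d29a1_C0.F13
open Pool.Agent.W_7d29a1_C0.Far34 (nfl nfl_nonneg Fl vv)
open Pool.Agent.W_7d29a1_C0.MicE14 (rh rh_nonneg mi)
open Pool.W7d29a1.C0
open Pool.W7d29a1.C0.VT31
open Pool.W7d29a1.C0.C45 (wu meas_wu ut45)
open Pool.W7d29a1.C0.H7 (meas_evP)
open Pool.W7d29a1.C0.I52 (Plan ev ev_mono ev_nonneg ev_smul ev_add ev_congr ev_cons ev_nil gm_eq_av cE_eq_av)

noncomputable section

variable {μ : Measure ℝ} {s : ℝ} {N y : ℕ}

/-! ### Averages over the signs -/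

/-- A linear inequality for all signs. -/
theorem pm_lin [IsProbabilityMeasure μ] {Φ Φ' : Env × Finset ℕ → ℝ} (hm : ∀ A, Measurable fun η => Φ (η, A))
    (hm' : ∀ A, Measurable fun η => Φ' (η, A)) {M : ℝ} (hb : ∀ ω, |Φ ω| ≤ M) (hb' : ∀ ω, |Φ' ω| ≤ M) {G E : ℝ}
    (h : ∀ A, ∫ η, Φ (η, A) ∂(law μ) ≤ G * ∫ η, Φ' (η, A) ∂(law μ) + E) :
    ∫ ω, Φ ω ∂(Pm μ N) ≤ G * ∫ ω, Φ' ω ∂(Pm μ N) + E := by
  have i0 : ∀ A, Integrable (fun η => Φ (η, A)) (law μ) := fun A =>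
    Integrable.of_bound (hm A).aestronglyMeasurable M (Filter.Eventually.of_forall fun η => hb (η, A))
  have i0' : ∀ A, Integrable (fun η => Φ' (η, A)) (law μ) := fun A =>
    Integrable.of_bound (hm' A).aestronglyMeasurable M (Filter.Eventually.of_forall fun η => hb' (η, A))
  rw [int_Pm (Φ := Φ) (fun A _ => i0 A) hm, int_Pm (Φ := Φ') (fun A _ => i0' A) hm']
  have h1 : ∑ A ∈ (range N).powerset, ∫ η, Φ (η, A) ∂(law μ) ≤
      ∑ A ∈ (range N).powerset, (G * ∫ η, Φ' (η, A) ∂(law μ) + E) := sum_le_sum fun A _ => h A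
  rw [sum_add_distrib, ← mul_sum, sum_const, card_powerset, card_range, nsmul_eq_mul] at h1
  push_cast at h1
  have h2 : (0 : ℝ) < 2 ^ N := by positivity
  calc (2 ^ N : ℝ)⁻¹ * ∑ A ∈ (range N).powerset, ∫ η, Φ (η, A) ∂(law μ) ≤
        (2 ^ N : ℝ)⁻¹ * (G * ∑ A ∈ (range N).powerset, ∫ η, Φ' (η, A) ∂(law μ) + 2 ^ N * E) :=
        mul_le_mul_of_nonneg_left h1 (inv_pos.2 h2).le
    _ = G * ((2 ^ N : ℝ)⁻¹ * ∑ A ∈ (range N).powerset, ∫ η, Φ' (η, A) ∂(law μ)) + ((2 ^ N : ℝ)⁻¹ * 2 ^ N) * E := by ring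
    _ = _ := by rw [inv_mul_cancel₀ h2.ne', one_mul]

/-- The integral of a linear combination of three functions. -/
theorem int3_34 [IsProbabilityMeasure μ] {F G H : Env × Finset ℕ → ℝ} (iF : Integrable F (Pm μ N)) (iG : Integrable G (Pm μ N))
    (iH : Integrable H (Pm μ N)) (a b c : ℝ) : Integrable (fun ω => a * F ω + (b * G ω + c * H ω)) (Pm μ N) ∧
      ∫ ω, (a * F ω + (b * G ω + c * H ω)) ∂(Pm μ N) =
        a * ∫ ω, F ω ∂(Pm μ N) + (b * ∫ ω, G ω ∂(Pm μ N) + c * ∫ ω, H ω ∂(Pm μ N)) := by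
  have h1 := iF.const_mul a
  have h2 := iG.const_mul b
  have h3 := iH.const_mul c
  refine ⟨h1.add (h2.add h3), ?_⟩
  have e := integral_add h1 (h2.add h3)
  have e' := integral_add h2 h3
  simp only [Pi.add_apply] at e e'
  rw [e, e', integral_const_mul, integral_const_mul, integral_const_mul]

section Ev

variable {Q : Finset (Finset ℕ)} [Nonempty (Px Q)] {m : ℕ}

theorem abs_ev_le (P : Plan (Px Q) m) (w : Px Q → ℝ) {Ψ : (Fin m → Px Q) → ℝ} {Λ : ℝ} (h0 : ∀ x, 0 ≤ Ψ x) (h : ∀ x, Ψ x ≤ Λ) :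
    |ev P w Ψ| ≤ Λ := by
  rw [abs_of_nonneg (ev_nonneg P w h0)]
  exact (ev_mono P w h).trans (I52.ev_const P w Λ).le

/-- The last replica of a plan, drawn in a fibre. -/
theorem ev_gi34 {Y : Type*} [DecidableEq Y] (P : Plan (Px Q) m) (w : Px Q → ℝ) (p : Px Q → Y) (l : Fin m)
    (F : (Fin m → Px Q) → Px Q → ℝ) :
    ev (P.gi p l) w (fun z => F (Fin.tail z) (z 0)) = ev P w fun x => cE w p (F x) (x l) := by
  unfold Plan.gi
  rw [ev_cons]
  refine ev_congr P _ fun x => ?_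
  rw [cE_eq_av]
  refine congrArg (I52.av _ _) (funext fun v => ?_)
  rw [Fin.tail_cons, Fin.cons_zero]

/-- The last replica of a plan, free. -/
theorem ev_fr34 (P : Plan (Px Q) m) (w : Px Q → ℝ) (F : (Fin m → Px Q) → Px Q → ℝ) :
    ev P.fr w (fun z => F (Fin.tail z) (z 0)) = ev P w fun x => gm w (F x) := by
  show ev (Plan.cons _ _ _) w _ = _
  rw [ev_cons]
  refine ev_congr P _ fun x => ?_
  rw [gm_eq_av]
  refine congrArg (I52.av _ _) (funext fun v => ?_)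
  rw [Fin.tail_cons, Fin.cons_zero]

theorem cE_mulc {Y : Type*} [DecidableEq Y] (w : Px Q → ℝ) (p : Px Q → Y) (a : ℝ) (F : Px Q → ℝ) (x : Px Q) :
    cE w p (fun v => a * F v) x = a * cE w p F x := by
  rw [cE_eq_av, I52.av_smul, ← cE_eq_av]

theorem gm_mulc (w : Px Q → ℝ) (a : ℝ) (F : Px Q → ℝ) : gm w (fun v => a * F v) = a * gm w F := by
  rw [gm_eq_av, I52.av_smul, ← gm_eq_av]

end Ev

/-! ### The price -/

open scoped Classical in
/-- The indicator of the far event of the new replica `v`. -/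
def fI (μ : Measure ℝ) (s : ℝ) {N y : ℕ} (δ : ℝ) (t τ : ℕ) {k : ℕ} (x : Fin (k + 1) → Px (Pn N y)) (v : Px (Pn N y)) : ℝ :=
  if FarAt μ s N δ N t τ (pt (Fin.cons v x : Fin (k + 2) → Px (Pn N y))) then 1 else 0

theorem fI_nonneg {δ : ℝ} {t τ k : ℕ} (x : Fin (k + 1) → Px (Pn N y)) (v : Px (Pn N y)) : 0 ≤ fI μ s δ t τ x v := by
  unfold fI
  split_ifs <;> norm_num

theorem fI_le_one {δ : ℝ} {t τ k : ℕ} (x : Fin (k + 1) → Px (Pn N y)) (v : Px (Pn N y)) : fI μ s δ t τ x v ≤ 1 := by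
  unfold fI
  split_ifs <;> norm_num

/-- **The far price at the tilted weights**: a new replica, given the outside of the block `(c, d)` of the replica `l`, far from all the
replicas of the plan at the scale `t` at `τ`; observables which do not see the rows `rowsB false N t τ`. -/
def FarG (μ : Measure ℝ) (s : ℝ) {N y : ℕ} (u : Finset ℕ → Env → Px (Pn N y) → ℝ) (δ : ℝ) (t τ : ℕ) {k : ℕ}
    (P : Plan (Px (Pn N y)) (k + 1)) (c d : ℕ) (l : Fin (k + 1)) (G e : ℝ) : Prop :=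
  ∀ (A : Finset ℕ) (X : Env → (Fin (k + 1) → Px (Pn N y)) → ℝ), (∀ x, Measurable fun η => X η x) → (∀ η x, 0 ≤ X η x) →
    (∀ η x, X η x ≤ 1) → (∀ (η : Env) (q : Pt) (v : ℝ), 0 ≤ q.1 → q.1.toNat ∈ rowsB false N t τ → X (Function.update η q v) = X η) →
    ∫ η, ev P (wu μ s N (Pn N y) u (η, A)) (fun x => X η x * cE (wu μ s N (Pn N y) u (η, A)) (pJ c d) (fI μ s δ t τ x) (x l)) ∂(law μ) ≤
      G * ∫ η, ev P (wu μ s N (Pn N y) u (η, A)) (X η) ∂(law μ) + e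

/-- **The price, for any observable**, averaged over the signs. -/
theorem FarG.pm [IsProbabilityMeasure μ] [Nonempty (Px (Pn N y))] {u : Finset ℕ → Env → Px (Pn N y) → ℝ} {δ : ℝ} {t τ k : ℕ}
    {P : Plan (Px (Pn N y)) (k + 1)} {c d : ℕ} {l : Fin (k + 1)} {G e : ℝ} (hG : FarG μ s u δ t τ P c d l G e)
    (hum : ∀ S, Measurable fun ω : Env × Finset ℕ => u ω.2 ω.1 S) {Ψ : Env × Finset ℕ → (Fin (k + 1) → Px (Pn N y)) → ℝ} {Λ : ℝ}
    (hΛ : 0 < Λ) (mΨ : ∀ x, Measurable fun ω => Ψ ω x) (Ψ0 : ∀ ω x, 0 ≤ Ψ ω x) (Ψ1 : ∀ ω x, Ψ ω x ≤ Λ)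
    (hbl : ∀ (A : Finset ℕ) (η : Env) (q : Pt) (v : ℝ), 0 ≤ q.1 → q.1.toNat ∈ rowsB false N t τ →
      Ψ (Function.update η q v, A) = Ψ (η, A)) :
    ∫ ω, ev P (wu μ s N (Pn N y) u ω) (fun x => Ψ ω x * cE (wu μ s N (Pn N y) u ω) (pJ c d) (fI μ s δ t τ x) (x l)) ∂(Pm μ N) ≤
      G * ∫ ω, ev P (wu μ s N (Pn N y) u ω) (Ψ ω) ∂(Pm μ N) + Λ * e := by
  have mw : ∀ S, Measurable fun ω : Env × Finset ℕ => wu μ s N (Pn N y) u ω S := meas_wu hum
  have c0 : ∀ (w : Px (Pn N y) → ℝ) x, 0 ≤ cE w (pJ c d) (fI μ s δ t τ x) (x l) := fun w x => cE_nonneg _ _ (fI_nonneg x) _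
  have c1 : ∀ (w : Px (Pn N y) → ℝ) x, cE w (pJ c d) (fI μ s δ t τ x) (x l) ≤ 1 := fun w x =>
    (cE_mono w (pJ c d) (g := fun _ => 1) (fI_le_one x) (x l)).trans (congrFun (cE_one w (pJ c d)) (x l)).le
  have mf : ∀ x, Measurable fun ω => cE (wu μ s N (Pn N y) u ω) (pJ c d) (fI μ s δ t τ x) (x l) := fun x =>
    meas_cE mw (f := fun _ => fI μ s δ t τ x) (fun _ => measurable_const) _ _
  refine pm_lin (M := Λ) (fun A => ?_) (fun A => ?_) (fun ω => abs_ev_le P _ (fun x => mul_nonneg (Ψ0 ω x) (c0 _ x))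
    fun x => (mul_le_of_le_one_right (Ψ0 ω x) (c1 _ x)).trans (Ψ1 ω x)) (fun ω => abs_ev_le P _ (Ψ0 ω) (Ψ1 ω)) fun A => ?_
  · exact T72.meas_fix (meas_evP mw P fun x => (mΨ x).mul (mf x)) A
  · exact T72.meas_fix (meas_evP mw P mΨ) A
  · have h1 := hG A (fun η x => Λ⁻¹ * Ψ (η, A) x) (fun x => (T72.meas_fix (mΨ x) A).const_mul _)
      (fun η x => mul_nonneg (inv_pos.2 hΛ).le (Ψ0 _ x)) (fun η x => by
        rw [inv_mul_le_iff₀ hΛ, mul_one]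
        exact Ψ1 _ x) fun η q v h0 hq => by
        funext x
        rw [hbl A η q v h0 hq]
    have e1 : ∀ η : Env, ev P (wu μ s N (Pn N y) u (η, A)) (fun x => Λ⁻¹ * Ψ (η, A) x *
        cE (wu μ s N (Pn N y) u (η, A)) (pJ c d) (fI μ s δ t τ x) (x l)) = Λ⁻¹ * ev P (wu μ s N (Pn N y) u (η, A)) (fun x =>
        Ψ (η, A) x * cE (wu μ s N (Pn N y) u (η, A)) (pJ c d) (fI μ s δ t τ x) (x l)) := fun η => by
      rw [← ev_smul]
      exact ev_congr _ _ fun x => by ring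
    have e2 : ∀ η : Env, ev P (wu μ s N (Pn N y) u (η, A)) (fun x => Λ⁻¹ * Ψ (η, A) x) =
        Λ⁻¹ * ev P (wu μ s N (Pn N y) u (η, A)) (Ψ (η, A)) := fun η => ev_smul _ _ _ _
    simp only [e1, e2] at h1
    rw [integral_const_mul, integral_const_mul] at h1
    have h2 := mul_le_mul_of_nonneg_left h1 hΛ.le
    have e3 : Λ * Λ⁻¹ = 1 := mul_inv_cancel₀ hΛ.ne'
    rw [← mul_assoc, e3, one_mul] at h2
    refine h2.trans (le_of_eq ?_)
    have e4 : ∀ a b : ℝ, Λ * (G * (Λ⁻¹ * a) + b) = Λ * Λ⁻¹ * (G * a) + Λ * b := fun a b => by ring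
    rw [e4, e3, one_mul]

/-! ### One line -/

theorem gm_cE34 [Nonempty (Px (Pn N y))] {Y : Type*} [DecidableEq Y] (w : Px (Pn N y) → ℝ) (p : Px (Pn N y) → Y) (n : Px (Pn N y) → ℝ) :
    gm w (cE w p n) = gm w n := gm_cE w p n

theorem cE_full34 [Nonempty (Px (Pn N y))] (w F : Px (Pn N y) → ℝ) (x : Px (Pn N y)) : cE w (pJ 0 N) F x = gm w F := by
  rw [cE_eq_av, gm_eq_av]
  congr 1
  exact Finset.filter_true_of_mem fun s _ => pJ_full s x

/-- A new replica which leaves the tubes of the old ones, for given weights. -/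
theorem line_w [Nonempty (Px (Pn N y))] {k : ℕ} {P : Plan (Px (Pn N y)) (k + 1)} (hP : BP N y P) (w : Px (Pn N y) → ℝ) {c d : ℕ}
    {Ψ : (Fin (k + 1) → Px (Pn N y)) → ℝ} {Λ : ℝ} (Ψ0 : ∀ x, 0 ≤ Ψ x) (Ψ1 : ∀ x, Ψ x ≤ Λ)
    {J o : (Fin (k + 1) → Px (Pn N y)) → Px (Pn N y) → ℝ} {n : Px (Pn N y) → ℝ} (n0 : ∀ S, 0 ≤ n S)
    (ho : ∀ x v, o x v ≤ J x v + (∑ i, n (x i) + n v)) (l : Fin (k + 1)) :
    ev P w (fun x => Ψ x * cE w (pJ c d) (o x) (x l)) ≤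
      ev P w (fun x => Ψ x * cE w (pJ c d) (J x) (x l)) + Λ * ((k + 2) * gm w n) := by
  have h1 : ∀ x, Ψ x * cE w (pJ c d) (o x) (x l) ≤
      Ψ x * cE w (pJ c d) (J x) (x l) + Λ * (∑ i, n (x i) + cE w (pJ c d) n (x l)) := fun x => by
    have h2 := cE_mono w (pJ c d) (ho x) (x l)
    have e1 : cE w (pJ c d) (fun v => J x v + (∑ i, n (x i) + n v)) (x l) =
        cE w (pJ c d) (J x) (x l) + (∑ i, n (x i) + cE w (pJ c d) n (x l)) := by
      have e2 : (fun v => J x v + (∑ i, n (x i) + n v)) = J x + ((fun _ => ∑ i, n (x i)) + n) := rfl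
      rw [e2, cE_add, Pi.add_apply, cE_add, Pi.add_apply]
      congr 2
      have e3 : (fun _ : Px (Pn N y) => ∑ i, n (x i)) = (∑ i, n (x i)) • fun _ => (1 : ℝ) := by
        funext v
        rw [Pi.smul_apply, smul_eq_mul, mul_one]
      rw [e3, cE_smul, Pi.smul_apply, smul_eq_mul, congrFun (cE_one w (pJ c d)) (x l), mul_one]
    rw [e1] at h2
    have h3 : 0 ≤ ∑ i, n (x i) + cE w (pJ c d) n (x l) :=
      add_nonneg (Finset.sum_nonneg fun i _ => n0 _) (cE_nonneg _ _ n0 _)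
    calc Ψ x * cE w (pJ c d) (o x) (x l) ≤
          Ψ x * (cE w (pJ c d) (J x) (x l) + (∑ i, n (x i) + cE w (pJ c d) n (x l))) := mul_le_mul_of_nonneg_left h2 (Ψ0 x)
      _ = Ψ x * cE w (pJ c d) (J x) (x l) + Ψ x * (∑ i, n (x i) + cE w (pJ c d) n (x l)) := mul_add _ _ _
      _ ≤ _ := add_le_add le_rfl (mul_le_mul_of_nonneg_right (Ψ1 x) h3)
  refine (ev_mono P w h1).trans (le_of_eq ?_)
  rw [ev_add, ev_smul, ev_add, I52.ev_sum]
  have e1 : ∀ i : Fin (k + 1), ev P w (fun x => n (x i)) = gm w n := fun i => hP.ev i w n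
  rw [Finset.sum_congr rfl fun i _ => e1 i, Finset.sum_const, Finset.card_univ, Fintype.card_fin, nsmul_eq_mul,
    hP.ev l w (cE w (pJ c d) n), gm_cE34]
  push_cast
  ring

/-- **A new replica which leaves the tubes of all the old ones**: the price. -/
theorem FarG.line [IsProbabilityMeasure μ] [Nonempty (Px (Pn N y))] {u : Finset ℕ → Env → Px (Pn N y) → ℝ} {δ : ℝ} {t τ k : ℕ}
    {P : Plan (Px (Pn N y)) (k + 1)} {c d : ℕ} {l : Fin (k + 1)} {G e : ℝ} (hG : FarG μ s u δ t τ P c d l G e) (hP : BP N y P)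
    (hum : ∀ S, Measurable fun ω : Env × Finset ℕ => u ω.2 ω.1 S) {Ψ : Env × Finset ℕ → (Fin (k + 1) → Px (Pn N y)) → ℝ} {Λ : ℝ}
    (hΛ : 0 < Λ) (mΨ : ∀ x, Measurable fun ω => Ψ ω x) (Ψ0 : ∀ ω x, 0 ≤ Ψ ω x) (Ψ1 : ∀ ω x, Ψ ω x ≤ Λ)
    (hbl : ∀ (A : Finset ℕ) (η : Env) (q : Pt) (v : ℝ), 0 ≤ q.1 → q.1.toNat ∈ rowsB false N t τ →
      Ψ (Function.update η q v, A) = Ψ (η, A)) {o : (Fin (k + 1) → Px (Pn N y)) → Px (Pn N y) → ℝ} {n : Px (Pn N y) → ℝ}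
    (n0 : ∀ S, 0 ≤ n S) (n1 : ∀ S, n S ≤ 1) (ho : ∀ x v, o x v ≤ fI μ s δ t τ x v + (∑ i, n (x i) + n v)) (o0 : ∀ x v, 0 ≤ o x v)
    {e0 : ℝ} (hn : ∫ ω, gm (wu μ s N (Pn N y) u ω) n ∂(Pm μ N) ≤ e0) :
    ∫ ω, ev P (wu μ s N (Pn N y) u ω) (fun x => Ψ ω x * cE (wu μ s N (Pn N y) u ω) (pJ c d) (o x) (x l)) ∂(Pm μ N) ≤
      G * ∫ ω, ev P (wu μ s N (Pn N y) u ω) (Ψ ω) ∂(Pm μ N) + Λ * (e + (k + 2) * e0) := by
  have mw : ∀ S, Measurable fun ω : Env × Finset ℕ => wu μ s N (Pn N y) u ω S := meas_wu hum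
  have h1 := hG.pm hum hΛ mΨ Ψ0 Ψ1 hbl
  have c0 : ∀ (w : Px (Pn N y) → ℝ) x, 0 ≤ cE w (pJ c d) (fI μ s δ t τ x) (x l) := fun w x => cE_nonneg _ _ (fI_nonneg x) _
  have c1 : ∀ (w : Px (Pn N y) → ℝ) x, cE w (pJ c d) (fI μ s δ t τ x) (x l) ≤ 1 := fun w x =>
    (cE_mono w (pJ c d) (g := fun _ => 1) (fI_le_one x) (x l)).trans (congrFun (cE_one w (pJ c d)) (x l)).le
  have i1 : Integrable (fun ω => ev P (wu μ s N (Pn N y) u ω) (fun x =>
      Ψ ω x * cE (wu μ s N (Pn N y) u ω) (pJ c d) (fI μ s δ t τ x) (x l))) (Pm μ N) :=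
    int_bdd (M := Λ) (meas_evP mw P fun x => (mΨ x).mul (meas_cE mw (f := fun _ => fI μ s δ t τ x) (fun _ => measurable_const) _ _))
      fun ω => abs_ev_le P _ (fun x => mul_nonneg (Ψ0 ω x) (c0 _ x)) fun x => (mul_le_of_le_one_right (Ψ0 ω x) (c1 _ x)).trans (Ψ1 ω x)
  have i2 : Integrable (fun ω => gm (wu μ s N (Pn N y) u ω) n) (Pm μ N) :=
    int_bdd (M := 1) (meas_gm mw fun S => measurable_const) fun ω => by
      rw [abs_of_nonneg (gm_nonneg _ n0)]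
      exact (gm_mono _ (g := fun _ => 1) n1).trans (gm_const _ _).le
  have h2 : ∫ ω, ev P (wu μ s N (Pn N y) u ω) (fun x => Ψ ω x * cE (wu μ s N (Pn N y) u ω) (pJ c d) (o x) (x l)) ∂(Pm μ N) ≤
      ∫ ω, (ev P (wu μ s N (Pn N y) u ω) (fun x => Ψ ω x * cE (wu μ s N (Pn N y) u ω) (pJ c d) (fI μ s δ t τ x) (x l)) +
        Λ * ((k + 2) * gm (wu μ s N (Pn N y) u ω) n)) ∂(Pm μ N) :=
    integral_mono_of_nonneg (Filter.Eventually.of_forall fun ω => ev_nonneg P _ fun x =>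
      mul_nonneg (Ψ0 ω x) (cE_nonneg _ _ (o0 x) _)) (i1.add ((i2.const_mul _).const_mul _))
      (Filter.Eventually.of_forall fun ω => line_w hP _ (Ψ0 ω) (Ψ1 ω) n0 ho l)
  rw [integral_add i1 ((i2.const_mul _).const_mul _), integral_const_mul, integral_const_mul] at h2
  have h3 : Λ * ((k + 2) * ∫ ω, gm (wu μ s N (Pn N y) u ω) n ∂(Pm μ N)) ≤ Λ * ((k + 2) * e0) :=
    mul_le_mul_of_nonneg_left (mul_le_mul_of_nonneg_left hn (by positivity)) hΛ.le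
  have e1 : Λ * (e + (k + 2) * e0) = Λ * e + Λ * ((k + 2) * e0) := mul_add _ _ _
  rw [e1]
  linarith

/-! ### The far functional of one slab, boxes of all the own paths in the key -/

/-- The spectators: they do not see the environment of the rows `(0, d]`. -/
structure Sf (d : ℕ) (F : ℝ) (f : Env × Finset ℕ → Px (Pn N y) → ℝ) : Prop where
  meas : ∀ S, Measurable fun ω => f ω S
  bdd : ∀ ω S, |f ω S| ≤ F
  env : ∀ (η : Env) (A : Finset ℕ) (S : Px (Pn N y)) (t x : ℤ) (u : ℝ), 0 < t → t ≤ d → f (Function.update η (t, x) u, A) S = f (η, A) S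

theorem Sf.of_cls {c d : ℕ} {D : ℝ} {f : Fam N} (h : Cls59 N c d D f) (y : ℕ) : Sf d D (f y) :=
  ⟨h.meas y, h.bdd y, fun η A S t x u => h.env y η A S t x u⟩

theorem Sf.upd {d : ℕ} {F : ℝ} {f : Env × Finset ℕ → Px (Pn N y) → ℝ} (hf : Sf d F f) {t τ : ℕ} (hτ : τ + t / 4 ≤ d + 1)
    (A : Finset ℕ) (η : Env) (q : Pt) (v : ℝ) (h0 : 0 ≤ q.1) (hq : q.1.toNat ∈ rowsB false N t τ) :
    f (Function.update η q v, A) = f (η, A) := by
  have h3 : q.1.toNat ∈ Ico 1 (τ + t / 4) := hq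
  rw [mem_Ico] at h3
  have h5 : ((q.1.toNat : ℕ) : ℤ) = q.1 := Int.toNat_of_nonneg h0
  funext S
  exact hf.env η A S q.1 q.2 v (by omega) (by
    have : q.1.toNat ≤ d := by omega
    omega)

variable [Nonempty (Px (Pn N y))]

theorem rh_le34 {z c : ℕ} {F : ℝ} {g : Px (Pn N y) → ℝ} (hg : ∀ S, |g S| ≤ F) (x x' : Px (Pn N y)) : rh z c g x x' ≤ 2 * F := by
  unfold rh
  have h1 : |g x - g x'| ≤ 2 * F := (abs_sub _ _).trans (by linarith [hg x, hg x'])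
  calc |g x - g x'| * NI z c x x' ≤ |g x - g x'| * 1 := mul_le_mul_of_nonneg_left (CutT57.NI_le_one _ _ _ _) (abs_nonneg _)
    _ ≤ 2 * F := by rw [mul_one]; exact h1

open Pool.Agent.W_7d29a1_C0.CutE14 (P3)
open Pool.Agent.W_7d29a1_C0.E2F59 (FO)

/-- The own pair and the tie of the spectator. -/
def Ob34 (I : Px (Pn N y) → Px (Pn N y) → ℝ) (z c : ℕ) (g : Px (Pn N y) → ℝ) (x : Fin 3 → Px (Pn N y)) : ℝ :=
  I (x 2) (x 1) * rh z c g (x 2) (x 0)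

section Ob

variable {I : Px (Pn N y) → Px (Pn N y) → ℝ} {z cc d0 : ℕ} {F : ℝ} {f : Env × Finset ℕ → Px (Pn N y) → ℝ}

theorem Ob_nonneg (I0 : ∀ S S', 0 ≤ I S S') (g : Px (Pn N y) → ℝ) (x : Fin 3 → Px (Pn N y)) : 0 ≤ Ob34 I z cc g x :=
  mul_nonneg (I0 _ _) (rh_nonneg _ _ _)

theorem Ob_le (I1 : ∀ S S', I S S' ≤ 1) {g : Px (Pn N y) → ℝ} (hg : ∀ S, |g S| ≤ F) (x : Fin 3 → Px (Pn N y)) :
    Ob34 I z cc g x ≤ 2 * F := by
  unfold Ob34
  calc I (x 2) (x 1) * rh z cc g (x 2) (x 0) ≤ 1 * rh z cc g (x 2) (x 0) := mul_le_mul_of_nonneg_right (I1 _ _) (rh_nonneg _ _ _)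
    _ ≤ 2 * F := by rw [one_mul]; exact rh_le34 hg _ _

theorem Ob_meas (hf : Sf d0 F f) (x : Fin 3 → Px (Pn N y)) : Measurable fun ω => Ob34 I z cc (f ω) x :=
  (((hf.meas _).sub (hf.meas _)).abs.mul_const _).const_mul _

theorem Ob_ev (w : Px (Pn N y) → ℝ) (p : Px (Pn N y) → Finset ℕ × ℕ) (g : Px (Pn N y) → ℝ) :
    ev (P3 p) w (Ob34 I z cc g) = PP w fun x x' => mi w p I x * rh z cc g x x' :=
  MicE14.ev_P3_PP p w I fun x x' => rh z cc g x x'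

end Ob

theorem bp_P3 {c d : ℕ} (hcd : c ≤ d) (hd : d ≤ N) : BP N y (P3 (pJ (Q := Pn N y) c d)) :=
  ((BP.nil.fr).gi hcd hd 0).fr

/-- **THE FAR LINES, BOXES OF ALL THE OWN PATHS**: `FO` of helper59 at the tilted weights. -/
theorem fo34 [IsProbabilityMeasure μ] {u : Finset ℕ → Env → Px (Pn N y) → ℝ} {δ : ℝ} {t τ c d d0 z cc : ℕ}
    {G e e0 F K0 a : ℝ} (hcd : c ≤ d) (hd : d ≤ N) (hfr : FarG μ s u δ t τ (P3 (pJ c d)) 0 N 0 G e)
    (hgi : FarG μ s u δ t τ (P3 (pJ c d)) c d 2 G e) (hum : ∀ S, Measurable fun ω : Env × Finset ℕ => u ω.2 ω.1 S)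
    {I : Px (Pn N y) → Px (Pn N y) → ℝ} (I0 : ∀ S S', 0 ≤ I S S') (I1 : ∀ S S', I S S' ≤ 1)
    {f : Env × Finset ℕ → Px (Pn N y) → ℝ} (hf : Sf d0 F f) (hF : 0 < F) (hτ : τ + t / 4 ≤ d0 + 1)
    {T : Type*} {b : Px (Pn N y) → T} {o : (Fin 3 → T) → Px (Pn N y) → ℝ} (o0 : ∀ β S, 0 ≤ o β S) {n : Px (Pn N y) → ℝ}
    (n0 : ∀ S, 0 ≤ n S) (n1 : ∀ S, n S ≤ 1) (hown : ∀ (x : Fin 3 → Px (Pn N y)) i, o (fun i => b (x i)) (x i) ≤ n (x i))
    (ho : ∀ (x : Fin 3 → Px (Pn N y)) v, o (fun i => b (x i)) v ≤ fI μ s δ t τ x v + (∑ i, n (x i) + n v))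
    (hn : ∫ ω, gm (wu μ s N (Pn N y) u ω) n ∂(Pm μ N) ≤ e0) {Ψ : Env × Finset ℕ → (Fin 3 → Px (Pn N y)) → ℝ} (hK : 0 ≤ K0)
    (hΨ : ∀ ω x, |Ψ ω x| ≤ K0 * (I (x 2) (x 1) * rh z cc (f ω) (x 2) (x 0))) (ha : 0 ≤ a) :
    ∫ ω, FO (wu μ s N (Pn N y) u ω) (pJ c d) b o (Ψ ω) a ∂(Pm μ N) ≤
      K0 * (3 * a * G * ∫ ω, PP (wu μ s N (Pn N y) u ω) (fun x x' => mi (wu μ s N (Pn N y) u ω) (pJ c d) I x *
        rh z cc (f ω) x x') ∂(Pm μ N) + 2 * F * ((3 + 12 * a) * e0 + 3 * a * e)) := by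
  have mw : ∀ S, Measurable fun ω : Env × Finset ℕ => wu μ s N (Pn N y) u ω S := meas_wu hum
  have hP := bp_P3 (N := N) (y := y) hcd hd
  have hΛ : 0 < 2 * F := by positivity
  have b0 : ∀ ω x, 0 ≤ Ob34 I z cc (f ω) x := fun ω x => Ob_nonneg I0 _ x
  have b1 : ∀ ω x, Ob34 I z cc (f ω) x ≤ 2 * F := fun ω x => Ob_le I1 (hf.bdd ω) x
  have bm : ∀ x, Measurable fun ω => Ob34 I z cc (f ω) x := fun x => Ob_meas hf x
  have bb : ∀ (A : Finset ℕ) (η : Env) (q : Pt) (v : ℝ), 0 ≤ q.1 → q.1.toNat ∈ rowsB false N t τ →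
      Ob34 I z cc (f (Function.update η q v, A)) = Ob34 I z cc (f (η, A)) := fun A η q v h0 hq => by
    rw [hf.upd hτ A η q v h0 hq]
  have l1 := hfr.line hP hum hΛ bm b0 b1 bb n0 n1 ho (fun x v => o0 _ v) hn
  have l2 := hgi.line hP hum hΛ bm b0 b1 bb n0 n1 ho (fun x v => o0 _ v) hn
  simp only [cE_full34] at l1
  -- the parts of `FO` for the observable
  have g0 : ∀ (w : Px (Pn N y) → ℝ) (x : Fin 3 → Px (Pn N y)), 0 ≤ gm w (o fun i => b (x i)) := fun w x => gm_nonneg _ (o0 _)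
  have c0 : ∀ (w : Px (Pn N y) → ℝ) (x : Fin 3 → Px (Pn N y)), 0 ≤ cE w (pJ c d) (o fun i => b (x i)) (x 2) := fun w x =>
    cE_nonneg _ _ (o0 _) _
  have hole : ∀ (x : Fin 3 → Px (Pn N y)) v, o (fun i => b (x i)) v ≤ 5 := fun x v => by
    have h1 := ho x v
    have h2 := fI_le_one (μ := μ) (s := s) (δ := δ) (t := t) (τ := τ) x v
    have h3 : ∑ i, n (x i) ≤ 3 := by
      rw [Fin.sum_univ_three]
      linarith [n1 (x 0), n1 (x 1), n1 (x 2)]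
    linarith [n1 v]
  have g1 : ∀ (w : Px (Pn N y) → ℝ) (x : Fin 3 → Px (Pn N y)), gm w (o fun i => b (x i)) ≤ 5 := fun w x =>
    (gm_mono _ (g := fun _ => 5) (hole x)).trans (gm_const _ _).le
  have c1 : ∀ (w : Px (Pn N y) → ℝ) (x : Fin 3 → Px (Pn N y)), cE w (pJ c d) (o fun i => b (x i)) (x 2) ≤ 5 := fun w x => by
    have h := cE_mono w (pJ c d) (f := o fun i => b (x i)) (g := (5 : ℝ) • fun _ => (1 : ℝ)) (fun v => by
      rw [Pi.smul_apply, smul_eq_mul, mul_one]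
      exact hole x v) (x 2)
    rwa [cE_smul, Pi.smul_apply, smul_eq_mul, congrFun (cE_one w (pJ c d)) (x 2), mul_one] at h
  have hb3 : ∀ {Φ : Env × Finset ℕ → (Fin 3 → Px (Pn N y)) → ℝ}, (∀ ω x, 0 ≤ Φ ω x) → (∀ ω x, Φ ω x ≤ 5) →
      (∀ x, Measurable fun ω => Φ ω x) →
      Integrable (fun ω => ev (P3 (pJ c d)) (wu μ s N (Pn N y) u ω) (fun x => Ob34 I z cc (f ω) x * Φ ω x)) (Pm μ N) :=
    fun {Φ} h0 h1 hm => int_bdd (M := 2 * F * 5) (meas_evP mw _ fun x => (bm x).mul (hm x)) fun ω =>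
      abs_ev_le _ _ (fun x => mul_nonneg (b0 _ _) (h0 _ _)) fun x => mul_le_mul (b1 _ _) (h1 _ _) (h0 _ _) hΛ.le
  have i1 := hb3 (Φ := fun ω x => gm (wu μ s N (Pn N y) u ω) (o fun i => b (x i))) (fun ω x => g0 _ x) (fun ω x => g1 _ x)
    fun x => meas_gm mw fun S => measurable_const
  have i2 := hb3 (Φ := fun ω x => cE (wu μ s N (Pn N y) u ω) (pJ c d) (o fun i => b (x i)) (x 2)) (fun ω x => c0 _ x)
    (fun ω x => c1 _ x) fun x => meas_cE mw (f := fun _ => o fun i => b (x i)) (fun _ => measurable_const) _ _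
  have i3 : Integrable (fun ω => gm (wu μ s N (Pn N y) u ω) n) (Pm μ N) :=
    int_bdd (M := 1) (meas_gm mw fun S => measurable_const) fun ω => by
      rw [abs_of_nonneg (gm_nonneg _ n0)]
      exact (gm_mono _ (g := fun _ => 1) n1).trans (gm_const _ _).le
  have pt : ∀ ω, FO (wu μ s N (Pn N y) u ω) (pJ c d) b o (Ψ ω) a ≤
      K0 * (2 * F * (3 * gm (wu μ s N (Pn N y) u ω) n) +
        (2 * a * ev (P3 (pJ c d)) (wu μ s N (Pn N y) u ω) (fun x => Ob34 I z cc (f ω) x *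
            gm (wu μ s N (Pn N y) u ω) (o fun i => b (x i))) +
          a * ev (P3 (pJ c d)) (wu μ s N (Pn N y) u ω) (fun x => Ob34 I z cc (f ω) x *
            cE (wu μ s N (Pn N y) u ω) (pJ c d) (o fun i => b (x i)) (x 2)))) := fun ω => by
    set w := wu μ s N (Pn N y) u ω
    unfold FO
    have h1 : ∀ x : Fin 3 → Px (Pn N y), |Ψ ω x| * (∑ i, o (fun i => b (x i)) (x i) + a * (2 * gm w (o fun i => b (x i)) +
        cE w (pJ c d) (o fun i => b (x i)) (x 2))) ≤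
        K0 * (2 * F * ∑ i, n (x i) + (2 * a * (Ob34 I z cc (f ω) x * gm w (o fun i => b (x i))) +
          a * (Ob34 I z cc (f ω) x * cE w (pJ c d) (o fun i => b (x i)) (x 2)))) := fun x => by
      have h2 : |Ψ ω x| ≤ K0 * Ob34 I z cc (f ω) x := hΨ ω x
      have h3 : 0 ≤ ∑ i, o (fun i => b (x i)) (x i) + a * (2 * gm w (o fun i => b (x i)) +
          cE w (pJ c d) (o fun i => b (x i)) (x 2)) :=
        add_nonneg (Finset.sum_nonneg fun i _ => o0 _ _) (mul_nonneg ha (add_nonneg (mul_nonneg zero_le_two (g0 w x)) (c0 w x)))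
      have h4 : ∑ i, o (fun i => b (x i)) (x i) ≤ ∑ i, n (x i) := Finset.sum_le_sum fun i _ => hown x i
      have h5 : 0 ≤ ∑ i, n (x i) := Finset.sum_nonneg fun i _ => n0 _
      have h6 : Ob34 I z cc (f ω) x * ∑ i, o (fun i => b (x i)) (x i) ≤ 2 * F * ∑ i, n (x i) :=
        mul_le_mul (b1 ω x) h4 (Finset.sum_nonneg fun i _ => o0 _ _) hΛ.le
      refine (mul_le_mul_of_nonneg_right h2 h3).trans ?_
      have e1 : K0 * Ob34 I z cc (f ω) x * (∑ i, o (fun i => b (x i)) (x i) + a * (2 * gm w (o fun i => b (x i)) +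
          cE w (pJ c d) (o fun i => b (x i)) (x 2))) =
          K0 * (Ob34 I z cc (f ω) x * ∑ i, o (fun i => b (x i)) (x i) + (2 * a * (Ob34 I z cc (f ω) x * gm w (o fun i => b (x i))) +
          a * (Ob34 I z cc (f ω) x * cE w (pJ c d) (o fun i => b (x i)) (x 2)))) := by ring
      rw [e1]
      exact mul_le_mul_of_nonneg_left (add_le_add h6 le_rfl) hK
    refine (ev_mono _ _ h1).trans (le_of_eq ?_)
    rw [ev_smul, ev_add, ev_smul, ev_add, ev_smul, ev_smul, I52.ev_sum,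
      Finset.sum_congr rfl fun (i : Fin 3) _ => hP.ev i w n, Finset.sum_const, Finset.card_univ, Fintype.card_fin, nsmul_eq_mul]
    push_cast
    ring
  have j0 : ∀ ω, 0 ≤ FO (wu μ s N (Pn N y) u ω) (pJ c d) b o (Ψ ω) a := fun ω => ev_nonneg _ _ fun x =>
    mul_nonneg (abs_nonneg _) (add_nonneg (Finset.sum_nonneg fun i _ => o0 _ _)
      (mul_nonneg ha (add_nonneg (mul_nonneg zero_le_two (g0 _ x)) (c0 _ x))))
  obtain ⟨j1, j2⟩ := int3_34 i3 i1 i2 (2 * F * 3) (2 * a) a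
  have s1 : ∫ ω, FO (wu μ s N (Pn N y) u ω) (pJ c d) b o (Ψ ω) a ∂(Pm μ N) ≤
      ∫ ω, K0 * (2 * F * 3 * gm (wu μ s N (Pn N y) u ω) n +
        (2 * a * ev (P3 (pJ c d)) (wu μ s N (Pn N y) u ω) (fun x => Ob34 I z cc (f ω) x *
            gm (wu μ s N (Pn N y) u ω) (o fun i => b (x i))) +
          a * ev (P3 (pJ c d)) (wu μ s N (Pn N y) u ω) (fun x => Ob34 I z cc (f ω) x *
            cE (wu μ s N (Pn N y) u ω) (pJ c d) (o fun i => b (x i)) (x 2)))) ∂(Pm μ N) :=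
    integral_mono_of_nonneg (Filter.Eventually.of_forall j0) (j1.const_mul K0) (Filter.Eventually.of_forall fun ω =>
      (pt ω).trans (le_of_eq (by ring)))
  rw [integral_const_mul, j2] at s1
  refine s1.trans ?_
  have e1 : ∀ ω, ev (P3 (pJ c d)) (wu μ s N (Pn N y) u ω) (Ob34 I z cc (f ω)) =
      PP (wu μ s N (Pn N y) u ω) fun x x' => mi (wu μ s N (Pn N y) u ω) (pJ c d) I x * rh z cc (f ω) x x' := fun ω => Ob_ev _ _ _
  simp only [e1] at l1 l2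
  refine mul_le_mul_of_nonneg_left ?_ hK
  have k1 := mul_le_mul_of_nonneg_left l1 (mul_nonneg zero_le_two ha)
  have k2 := mul_le_mul_of_nonneg_left l2 ha
  have k3 := mul_le_mul_of_nonneg_left hn (by positivity : (0 : ℝ) ≤ 2 * F * 3)
  push_cast at k1 k2
  linarith

end

end Pool.Agent.W_7d29a1_C0.E2F34
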