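import Pool.Agent.W_7d29a1_C0.E2D96L
import Pool.Agent.W_7d29a1_C0.FlpD96

/-!
MP_7d29a1_pr, [CURV0] / [C0], leaf E2, part L (helper96): **THE DATA OF A ROW OF PART L** from the geometry `G43`, the data `RL45` of the rows and
the flips for arbitrary blocks: `dl96_at`.
-/

set_option autoImplicit false
set_option linter.unusedSectionVars false
set_option linter.unusedVariables false

namespace Pool.Agent.W_7d29a1_C0.E2DL96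

open Finset MeasureTheory Filter Topology Pool.Agent.W_7d29a1_F Pool.Agent.W_7d29a1_X Pool.Agent.W_7d29a1_C0.Mod92
open Pool.Agent.W_7d29a1_C0.Swap57 Pool.Agent.W_7d29a1_C0.Blk18 Pool.Agent.W_7d29a1_C0.NM82
open Pool.Agent.W_7d29a1_C0.E2G43
open Pool.Agent.W_7d29a1_C0.DgL96
open Pool.W7d29a1.C0
open Pool.W7d29a1.C0.VT31
open Pool.W7d29a1.C0.R43
open Pool.W7d29a1.C0.C45

noncomputable section

variable {μ : Measure ℝ} {s : ℝ} {N : ℕ} {ys : Finset ℕ} {γ B : ℝ} {b0 b σ gl c d j : ℕ} {t : ℝ} {ε εM K' M D δ e0 : ℝ} {l q : ℕ}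
  {f : Fam N}

/-- **The flips of a row**, for arbitrary blocks which contain the window of the tilt: own mass, its mean, own and the pairs of a window. -/
structure Fl96 (μ : Measure ℝ) (s : ℝ) (N : ℕ) (ys : Finset ℕ) (γ B : ℝ) (b0 j : ℕ) (t δ : ℝ) (c0 K zf cc : ℕ) (f : Fam N) (M₁ e0 : ℝ) :
    Prop where
  fN : ∀ c1 d1 c2 d2 cw dw wl al : ℕ, c1 ≤ j - b0 → j + b0 ≤ d1 → c2 ≤ j - b0 → j + b0 ≤ d2 → cw ≤ j - b0 → j + b0 ≤ dw →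
    (al ≤ j - b0 ∨ j + b0 ≤ wl) → Flp45 μ s N ys γ B b0 j t δ c0 K zf cc f (fun y w M => Nta w (pJ (Q := Pn N y) cw dw) wl al M)
      (fun y => pJ (Q := Pn N y) c1 d1) (fun y => pJ (Q := Pn N y) c2 d2) M₁ e0
  fT : ∀ c1 d1 c2 d2 cq dq cw dw wl al : ℕ, c1 ≤ j - b0 → j + b0 ≤ d1 → c2 ≤ j - b0 → j + b0 ≤ d2 → cq ≤ j - b0 → j + b0 ≤ dq →
    cw ≤ j - b0 → j + b0 ≤ dw → (al ≤ j - b0 ∨ j + b0 ≤ wl) →
    Flp45 μ s N ys γ B b0 j t δ c0 K zf cc f (fun y w M => TauM w (pJ (Q := Pn N y) cq dq) (pJ (Q := Pn N y) cw dw) wl al M)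
      (fun y => pJ (Q := Pn N y) c1 d1) (fun y => pJ (Q := Pn N y) c2 d2) M₁ e0
  fD : ∀ cw dw wl al cq dq i k : ℕ, cw ≤ j - b0 → j + b0 ≤ dw → (al ≤ j - b0 ∨ j + b0 ≤ wl) → cq ≤ j - b0 → j + b0 ≤ dq →
    (k ≤ j - b0 ∨ j + b0 ≤ i) → FlpB96 μ s N ys γ B b0 j t δ c0 K zf cc f
      (fun y w M S => Nta w (pJ (Q := Pn N y) cw dw) wl al M S ∧ TauM w (pJ (Q := Pn N y) cq dq) (pJ cq dq) i k M S) M₁ e0

/-- **THE DATA OF A ROW OF PART L.** -/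
theorem dl96_at (X : G43 N b0 b σ gl d j) (hys : ∀ y ∈ ys, y ≤ N)
    (R : ∀ y ∈ ys, RL45 μ s N (Pn N y) γ B b0 j t (j + b0) (b / 16) ε εM K') (hM : (N : ℝ) ^ εM ≤ M / 2) (hN : (64 : ℝ) ≤ N)
    (hB0 : 0 ≤ B) (hBN : B ≤ N) (hδ : 0 ≤ δ) (hδ1 : δ ≤ 1) (hε0 : 0 ≤ ε) (hε1 : ε ≤ 1) (hq : 10 * M ≤ q) (hq' : (q : ℝ) ≤ 20 * M)
    (hl : 3 * q * (l + 1) ≤ b0) (hf : Cls59 N c d D f) (hD0 : 0 ≤ D) (hD : D ≤ (N : ℝ) ^ 3)
    (Fl : Fl96 μ s N ys γ B b0 j t δ (j + b0) (b / 16) (d - gl) d f (M / 2 + 2 * B) e0) :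
    Dl96 μ s N ys γ B b0 b σ gl c d j t ε εM K' M D δ e0 l l q f := by
  obtain ⟨g1, g2, g3, g4, g5, g6, g7, g8, g9, g10, g11, g12, g13, g14, g15, g16, g17, g18, g19, g20, g21, g22, g23, g24, g25, g26⟩ :=
    geoL96 X
  obtain ⟨k1, k2, k3, k4, k5⟩ := X.b8
  have r0 := X.rng
  have hb := X.b16
  have c1 : j / σ * σ ≤ j - b0 := by omega
  have al : j - b / 2 ≤ j - b0 ∨ j + b0 ≤ j - b := Or.inl (by omega)
  have hJ : ∀ m ∈ nL1 b j ∪ nL2 b j, m ≤ j - b0 := fun m hm => by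
    rcases mem_union.1 hm with h | h
    · exact (X.mem_L1 h).2.2.1
    · exact (X.mem_L2 h).2.2.1
  have hJ' : ∀ m ∈ mc3 gl d ∪ mc4 gl d, j + b0 ≤ m := fun m hm => by
    rcases mem_union.1 hm with h | h
    · have := X.mem_3 h
      omega
    · have := X.mem_4 h
      omega
  exact ⟨X, hys, R, hM, hN, hB0, hBN, hδ, hδ1, hε0, hε1, hq, hq', hl, by omega, hf, hD0, hD,
    fun m hm => Fl.fN m _ m _ _ _ _ _ (hJ m hm) g9 (hJ m hm) (by omega) c1 g9 al,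
    fun m hm => Fl.fT m _ m _ _ _ _ _ _ _ (hJ m hm) g9 (hJ m hm) (by omega) c1 g9 c1 g9 al,
    fun m' hm' m hm => Fl.fT m _ m _ 0 m' _ _ _ _ (hJ m hm) (by omega) (hJ m hm) (by omega) (Nat.zero_le _) (hJ' m' hm') c1 g9 al,
    Fl.fD _ _ _ _ _ _ _ _ c1 g9 al (by omega) (by omega) (Or.inl le_rfl)⟩

end

end Pool.Agent.W_7d29a1_C0.E2DL96
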