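import Pool.Agent.W_7d29a1_C0.FarP13B
import Pool.Agent.W_7d29a1_C0.Ins52

/-!
C0, helper13: every plan of replicas (Ins52) built by free replicas and replicas given an old one outside of a block (`BP`) has a density
in the sense of `OwnD` (FarP13B): `own_plan`.
-/

set_option autoImplicit false

namespace Pool.Agent.W_7d29a1_C0.F13

open MeasureTheory ProbabilityTheory Filter Topology Finset
open Pool.Agent.W_7d29a1_F Pool.Agent.W_7d29a1_X Pool.Agent.W_7d29a1_H Pool.Agent.W_7d29a1_HZ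
open Pool.Agent.W_7d29a1_HS (In wd md)
open Pool.Agent.W_7d29a1_HZ.ZE
open Pool.Agent.W_7d29a1_HZ.Z15 (kC ZC)
open Pool.Agent.W_7d29a1_C0.Mod92 (Px Pn lw pos_card ne_Pn pJ ps_of_le ps_of_ge)
open Pool.W7d29a1.C0 (gz gm gz_pos gz_ne)
open Pool.W7d29a1.C0
open Pool.W7d29a1.C0.I52 (Plan zs ker av)
open scoped ENNReal

noncomputable section

variable {μ : Measure ℝ} {s : ℝ} {N y : ℕ}

/-! ### Plans of blocks -/

/-- A plan built by free replicas and replicas given an old one outside of a block. -/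
def BP (N y : ℕ) : {m : ℕ} → Plan (Px (Pn N y)) m → Prop
  | _, Plan.nil => True
  | _, @Plan.cons _ m P A _ => BP N y P ∧ ((∀ x, A x = univ) ∨ ∃ c d : ℕ, ∃ i : Fin m, c ≤ d ∧ d ≤ N ∧
      ∀ x, A x = univ.filter fun s => pJ c d s = pJ c d (x i))

theorem BP.nil : BP N y (Plan.nil : Plan (Px (Pn N y)) 0) := trivial

theorem BP.fr [Nonempty (Px (Pn N y))] {m : ℕ} {P : Plan (Px (Pn N y)) m} (h : BP N y P) : BP N y P.fr := ⟨h, Or.inl fun _ => rfl⟩

theorem BP.gi {m : ℕ} {P : Plan (Px (Pn N y)) m} (h : BP N y P) {c d : ℕ} (hcd : c ≤ d) (hd : d ≤ N) (i : Fin m) :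
    BP N y (P.gi (pJ c d) i) := ⟨h, Or.inr ⟨c, d, i, hcd, hd, fun _ => rfl⟩⟩

/-- The sets of a plan of blocks. -/
theorem BP.S : {m : ℕ} → {P : Plan (Px (Pn N y)) m} → BP N y P → ∀ i : Fin m, (∀ x, P.S i x = univ) ∨ ∃ c d : ℕ, ∃ j : Fin m, c ≤ d ∧ d ≤ N ∧
      ∀ x, P.S i x = univ.filter fun s => pJ c d s = pJ c d (x j)
  | _, Plan.nil, _, i => i.elim0
  | _, @Plan.cons _ m P A _, h, i => by
    refine Fin.cases ?_ (fun i' => ?_) i
    · rcases h.2 with h1 | ⟨c, d, j, hcd, hd, h1⟩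
      · left
        intro x
        exact h1 _
      · right
        exact ⟨c, d, j.succ, hcd, hd, fun x => h1 _⟩
    · rcases BP.S h.1 i' with h1 | ⟨c, d, j, hcd, hd, h1⟩
      · left
        intro x
        exact h1 _
      · right
        exact ⟨c, d, j.succ, hcd, hd, fun x => h1 _⟩

theorem BP.sh {m : ℕ} {P : Plan (Px (Pn N y)) m} (h : BP N y P) (i : Fin m) : BP N y (P.sh i) := ⟨h, h.S i⟩

/-- Every replica has the law of a free one. -/
theorem BP.ev [Nonempty (Px (Pn N y))] : {m : ℕ} → {P : Plan (Px (Pn N y)) m} → BP N y P → ∀ (i : Fin m) (w g : Px (Pn N y) → ℝ),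
    I52.ev P w (fun x => g (x i)) = gm w g
  | _, Plan.nil, _, i, _, _ => i.elim0
  | _, @Plan.cons _ m P A h, hm, i, w, g => by
    refine Fin.cases ?_ (fun j => ?_) i
    · rw [I52.ev_cons]
      simp only [Fin.cons_zero]
      rcases hm.2 with h1 | ⟨c, d, j, hcd, hd, h1⟩
      · have e : (fun x : Fin m → Px (Pn N y) => av w (A x) g) = fun _ => gm w g := by
          funext x
          rw [h1 x, I52.gm_eq_av]
        rw [e, I52.ev_const]
      · have e : (fun x : Fin m → Px (Pn N y) => av w (A x) g) = fun x => VT31.cE w (pJ c d) g (x j) := by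
          funext x
          rw [h1 x, I52.cE_eq_av]
        rw [e, BP.ev hm.1 j w (VT31.cE w (pJ c d) g), VT31.gm_cE]
    · have h1 := I52.ev_tail P A h w fun x => g (x j)
      have e : (fun x : Fin (m + 1) → Px (Pn N y) => g (x j.succ)) = fun x => g (Fin.tail x j) := rfl
      rw [e, h1]
      exact BP.ev hm.1 j w g

/-! ### The density -/

/-- The normalisation of a block with given ends. -/
def KfP (μ : Measure ℝ) (s : ℝ) (c d : ℕ) (a b : ℤ) (η : Env) : ℝ := by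
  classical
  exact if (W_7d29a1_Z.pcs 0 c a d b).Nonempty then W_7d29a1_Z.Kf μ s 0 η c a d b else 1

theorem KfP_meas (c d : ℕ) (a b : ℤ) : Measurable (KfP μ s c d a b) := by
  unfold KfP
  split_ifs
  · exact W_7d29a1_Z.Kf_meas _ _ _ _ _
  · exact measurable_const

theorem KfP_pos (c d : ℕ) (a b : ℤ) (η : Env) : 0 < KfP μ s c d a b η := by
  unfold KfP
  split_ifs with h
  · unfold W_7d29a1_Z.Kf
    exact sum_pos (fun S _ => W_7d29a1_Z.pw_pos _ _ _ _ _ _) h
  · exact one_pos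

theorem KfP_mono (c d : ℕ) (a b : ℤ) : Monotone (KfP μ s c d a b) := by
  intro η η' h
  unfold KfP
  split_ifs
  · exact W_7d29a1_Z.Kf_mono _ _ _ _ _ h
  · exact le_rfl

/-- The position as an element of a finite type. -/
def pF (S : Px (Pn N y)) (t : ℕ) : Fin (N + 1) := ⟨(pos S.1 t).toNat, by
  have h1 : (pos S.1 t) = ((S.1 ∩ range t).card : ℤ) := rfl
  have h2 : (S.1 ∩ range t).card ≤ N := by
    have h3 := (mem_Pn.1 S.2).1
    calc (S.1 ∩ range t).card ≤ S.1.card := card_le_card inter_subset_left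
      _ ≤ (range N).card := card_le_card h3
      _ = N := card_range N
  rw [h1]
  omega⟩

theorem pF_val (S : Px (Pn N y)) (t : ℕ) : (((pF S t : Fin (N + 1)) : ℕ) : ℤ) = pos S.1 t := by
  show (((pos S.1 t).toNat : ℕ) : ℤ) = pos S.1 t
  exact Int.toNat_of_nonneg (pos_nonneg _ _)

theorem KfP_eq (η : Env) {c d : ℕ} (hcd : c ≤ d) (hd : d ≤ N) (S : Px (Pn N y)) :
    KfP μ s c d (((pF S c : Fin (N + 1)) : ℕ) : ℤ) (((pF S d : Fin (N + 1)) : ℕ) : ℤ) η = W_7d29a1_Z.Kf μ s 0 η c (pos S.1 c) d (pos S.1 d) := by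
  rw [pF_val, pF_val]
  unfold KfP
  rw [if_pos]
  by_contra hne
  rw [not_nonempty_iff_eq_empty] at hne
  have h := Kf_pos13 (μ := μ) (s := s) η hcd hd S
  unfold W_7d29a1_Z.Kf at h
  rw [hne, sum_empty] at h
  exact lt_irrefl _ h

/-- The weight of a path sees only its sites. -/
theorem pth_onP {m : ℕ} {x : Fin m → Px (Pn N y)} (j : Fin m) {η η' : Env} (h : ∀ q : Pt, OnP x q → η q = η' q) :
    pth μ s η N (x j).1 = pth μ s η' N (x j).1 := by
  unfold pth
  congr 1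
  refine prod_congr rfl fun i hi => ?_
  rw [h _ ⟨j, i, mem_range.1 hi, rfl⟩]

theorem ko13_onP {m : ℕ} {x : Fin m → Px (Pn N y)} (j : Fin m) {η η' : Env} (h : ∀ q : Pt, OnP x q → η q = η' q) {c d : ℕ} (hcd : c ≤ d)
    (hd : d ≤ N) : ko13 μ s η N c d (x j).1 = ko13 μ s η' N c d (x j).1 := by
  have hs : ∀ t, 1 ≤ t → t ≤ N → η ((t : ℤ), pos (x j).1 t) = η' ((t : ℤ), pos (x j).1 t) := fun t h1 h2 => by
    refine h _ ⟨j, t - 1, by omega, ?_⟩
    have e1 : t - 1 + 1 = t := by omega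
    rw [e1]
    refine Prod.ext ?_ rfl
    show (t : ℤ) = ((t - 1 : ℕ) : ℤ) + 1
    omega
  unfold ko13
  congr 1
  · refine W_7d29a1_Z.pw_env 0 0 0 c _ fun t ht => ?_
    rw [mem_Ioc] at ht
    rw [W_7d29a1_Z.ps_pos]
    exact hs t (by omega) (by omega)
  · refine W_7d29a1_Z.pw_env 0 d _ N _ fun t ht => ?_
    rw [mem_Ioc] at ht
    have e2 := W_7d29a1_Z.ps_chain 0 0 (x j).1 (Nat.zero_le d) ht.1.le
    rw [W_7d29a1_Z.ps_pos, W_7d29a1_Z.ps_pos] at e2
    rw [e2]
    exact hs t (by omega) ht.2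

theorem OnP_tail {m : ℕ} {x : Fin (m + 1) → Px (Pn N y)} {q : Pt} (h : OnP (Fin.tail x) q) : OnP x q := by
  obtain ⟨j, i, h1, h2⟩ := h
  exact ⟨j.succ, i, h1, h2⟩

/-- What a plan gives. -/
def Den (μ : Measure ℝ) (s : ℝ) (N y : ℕ) {k : ℕ} (P : Plan (Px (Pn N y)) (k + 1)) (ι : Type) (kd : (Fin (k + 1) → Px (Pn N y)) → ι)
    (A : Env → (Fin (k + 1) → Px (Pn N y)) → ℝ) (Zq : ι → Env → ℝ) : Prop :=
  (∀ x, Measurable fun η => A η x) ∧ (∀ η x, 0 ≤ A η x) ∧
    (∀ (η η' : Env) (x : Fin (k + 1) → Px (Pn N y)), (∀ q : Pt, OnP x q → η q = η' q) → A η x = A η' x) ∧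
    (∀ κ, Measurable (Zq κ)) ∧ (∀ κ η, 0 < Zq κ η) ∧ (∀ κ, Monotone (Zq κ)) ∧
    ∀ η x, I52.wt P (lw μ s η N (Pn N y)) x = A η x / (Zq (kd x) η * ZC μ s N (y : ℤ) η)

theorem ker_univ [Nonempty (Px (Pn N y))] (η : Env) (S : Px (Pn N y)) :
    I52.ker (lw μ s η N (Pn N y)) univ S = pth μ s η N S.1 / ZC μ s N (y : ℤ) η := by
  unfold I52.ker I52.zs
  rw [if_pos (mem_univ _), exp_lw]
  have e : ∑ S : Px (Pn N y), Real.exp (lw μ s η N (Pn N y) S) = ZC μ s N (y : ℤ) η := gz_lw η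
  rw [e]

theorem ker_fib (η : Env) {c d : ℕ} (hcd : c ≤ d) (hd : d ≤ N) (S v : Px (Pn N y)) :
    I52.ker (lw μ s η N (Pn N y)) (univ.filter fun s => pJ c d s = pJ c d S) v =
      (if pJ c d v = pJ c d S then pth μ s η N v.1 / ko13 μ s η N c d S.1 else 0) /
        KfP μ s c d (((pF S c : Fin (N + 1)) : ℕ) : ℤ) (((pF S d : Fin (N + 1)) : ℕ) : ℤ) η := by
  have e : I52.zs (lw μ s η N (Pn N y)) (univ.filter fun s => pJ c d s = pJ c d S) =
      ko13 μ s η N c d S.1 * W_7d29a1_Z.Kf μ s 0 η c (pos S.1 c) d (pos S.1 d) := by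
    rw [← fz13 η hcd hd S]
    unfold I52.zs VT31.fz
    rw [sum_filter]
  unfold I52.ker
  rw [e, KfP_eq η hcd hd S]
  by_cases h : pJ c d v = pJ c d S
  · have hm : v ∈ univ.filter (fun s : Px (Pn N y) => pJ c d s = pJ c d S) := by
      rw [mem_filter]
      exact ⟨mem_univ _, h⟩
    rw [if_pos hm, if_pos h, exp_lw, div_div]
  · have hm : v ∉ univ.filter (fun s : Px (Pn N y) => pJ c d s = pJ c d S) := by
      rw [mem_filter]
      exact fun hc => h hc.2
    rw [if_neg hm, if_neg h, zero_div]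

open scoped Classical in
/-- Every plan of blocks has a density. -/
theorem den_plan [IsProbabilityMeasure μ] (hy : y ≤ N) : {k : ℕ} → (P : Plan (Px (Pn N y)) (k + 1)) → BP N y P →
    ∃ (ι : Type) (_ : Fintype ι) (kd : (Fin (k + 1) → Px (Pn N y)) → ι) (A : Env → (Fin (k + 1) → Px (Pn N y)) → ℝ)
      (Zq : ι → Env → ℝ), Den μ s N y P ι kd A Zq ∧ Fintype.card ι ≤ (N + 1) ^ (2 * k)
  | 0, @Plan.cons _ _ P A hA, h => by
    have : Nonempty (Px (Pn N y)) := ne_Pn hy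
    refine ⟨Unit, inferInstance, fun _ => (), fun η x => pth μ s η N (x 0).1, fun _ _ => 1, ⟨fun x => ?_, fun η x => ?_, fun η η' x hη => ?_,
      fun _ => measurable_const, fun _ _ => one_pos, fun _ => monotone_const, fun η x => ?_⟩, ?_⟩
    · exact Pool.Agent.W_7d29a1_C0.Mod92.meas_pth N (x 0).1
    · exact (pth_pos13 η N _).le
    · exact pth_onP 0 hη
    · rw [I52.wt_cons]
      have h1 : A (Fin.tail x) = univ := by
        rcases h.2 with h1 | ⟨c, d, i, -⟩
        · exact h1 _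
        · exact i.elim0
      have h2 : I52.wt P (lw μ s η N (Pn N y)) (Fin.tail x) = 1 := by
        cases P
        rfl
      rw [h1, h2, ker_univ, one_mul, one_mul]
    · simp
  | k + 1, @Plan.cons _ _ P A hA, h => by
    have : Nonempty (Px (Pn N y)) := ne_Pn hy
    obtain ⟨ι, hι, kd, A0, Zq, ⟨m1, m2, m3, m4, m5, m6, m7⟩, hc⟩ := den_plan hy P h.1
    rcases h.2 with h1 | ⟨c, d, i, hcd, hd, h1⟩
    · -- a free replica
      refine ⟨ι, hι, fun x => kd (Fin.tail x), fun η x => A0 η (Fin.tail x) * pth μ s η N (x 0).1,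
        fun κ η => Zq κ η * ZC μ s N (y : ℤ) η, ⟨fun x => ?_, fun η x => ?_, fun η η' x hη => ?_, fun κ => ?_, fun κ η => ?_,
          fun κ η η' hη => ?_, fun η x => ?_⟩, ?_⟩
      · exact (m1 _).mul (Pool.Agent.W_7d29a1_C0.Mod92.meas_pth N (x 0).1)
      · exact mul_nonneg (m2 _ _) (pth_pos13 η N _).le
      · dsimp only
        rw [pth_onP 0 hη, m3 η η' (Fin.tail x) fun q hq => hη q (OnP_tail hq)]
      · exact (m4 κ).mul (ZC_meas N (y : ℤ))
      · exact mul_pos (m5 κ η) (ZC_pos13 hy η)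
      · refine mul_le_mul (m6 κ hη) ?_ (ZC_pos13 hy η).le (m5 κ η').le
        have e : ∀ η : Env, ZC μ s N (y : ℤ) η = W_7d29a1_Z.Kf μ s 0 η 0 0 N (y : ℤ) := fun η => by
          unfold ZC
          rw [W_7d29a1_Z.W_eq_Kf0]
        rw [e, e]
        exact W_7d29a1_Z.Kf_mono _ _ _ _ _ hη
      · rw [I52.wt_cons, m7, h1, ker_univ]
        have hz := ZC_pos13 (μ := μ) (s := s) hy η
        have hz' := m5 (kd (Fin.tail x)) η
        field_simp
      · refine hc.trans (Nat.pow_le_pow_right (Nat.succ_pos N) (by omega))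
    · -- a replica given an old one
      refine ⟨ι × (Fin (N + 1) × Fin (N + 1)), inferInstance, fun x => (kd (Fin.tail x), (pF (Fin.tail x i) c, pF (Fin.tail x i) d)),
        fun η x => A0 η (Fin.tail x) * (if pJ c d (x 0) = pJ c d (Fin.tail x i) then pth μ s η N (x 0).1 / ko13 μ s η N c d (Fin.tail x i).1
          else 0),
        fun κ η => Zq κ.1 η * KfP μ s c d ((κ.2.1 : ℕ) : ℤ) ((κ.2.2 : ℕ) : ℤ) η, ⟨fun x => ?_, fun η x => ?_, fun η η' x hη => ?_,
          fun κ => ?_, fun κ η => ?_, fun κ η η' hη => ?_, fun η x => ?_⟩, ?_⟩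
      · refine (m1 _).mul ?_
        by_cases hp : pJ c d (x 0) = pJ c d (Fin.tail x i)
        · simp only [hp, if_true]
          exact (Pool.Agent.W_7d29a1_C0.Mod92.meas_pth N (x 0).1).div (ko13_meas N c d _)
        · simp only [hp, if_false]
          exact measurable_const
      · refine mul_nonneg (m2 _ _) ?_
        split_ifs
        · exact div_nonneg (pth_pos13 η N _).le (ko13_pos η N c d _).le
        · exact le_rfl
      · dsimp only
        rw [pth_onP 0 hη, m3 η η' (Fin.tail x) fun q hq => hη q (OnP_tail hq),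
          ko13_onP (x := Fin.tail x) i (fun q hq => hη q (OnP_tail hq)) hcd hd]
      · exact (m4 κ.1).mul (KfP_meas _ _ _ _)
      · exact mul_pos (m5 κ.1 η) (KfP_pos _ _ _ _ η)
      · exact mul_le_mul (m6 κ.1 hη) (KfP_mono _ _ _ _ hη) (KfP_pos _ _ _ _ η).le (m5 κ.1 η').le
      · rw [I52.wt_cons, m7, h1, ker_fib η hcd hd]
        have hz := ZC_pos13 (μ := μ) (s := s) hy η
        have hz' := m5 (kd (Fin.tail x)) η
        have hz2 := KfP_pos (μ := μ) (s := s) c d (((pF (Fin.tail x i) c : Fin (N + 1)) : ℕ) : ℤ)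
          (((pF (Fin.tail x i) d : Fin (N + 1)) : ℕ) : ℤ) η
        field_simp
      · rw [Fintype.card_prod, Fintype.card_prod, Fintype.card_fin]
        calc Fintype.card ι * ((N + 1) * (N + 1)) ≤ (N + 1) ^ (2 * k) * ((N + 1) * (N + 1)) := Nat.mul_le_mul_right _ hc
          _ = (N + 1) ^ (2 * (k + 1)) := by ring

/-- **Every plan of blocks is an own density.** -/
theorem own_plan [IsProbabilityMeasure μ] (hy : y ≤ N) {k : ℕ} (P : Plan (Px (Pn N y)) (k + 1)) (hP : BP N y P) :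
    ∃ (ι : Type) (_ : Fintype ι) (kd : (Fin (k + 1) → Px (Pn N y)) → ι) (A : Env → (Fin (k + 1) → Px (Pn N y)) → ℝ)
      (Zq : ι → Env → ℝ), OwnD μ s N y kd A Zq ∧ Fintype.card ι ≤ (N + 1) ^ (2 * k) ∧
      ∀ (η : Env) (Ψ : (Fin (k + 1) → Px (Pn N y)) → ℝ), I52.ev P (lw μ s η N (Pn N y)) Ψ = evD μ s N y kd A Zq η Ψ := by
  have : Nonempty (Px (Pn N y)) := ne_Pn hy
  obtain ⟨ι, hι, kd, A, Zq, ⟨m1, m2, m3, m4, m5, m6, m7⟩, hc⟩ := den_plan (μ := μ) (s := s) hy P hP
  have hev : ∀ (η : Env) (Ψ : (Fin (k + 1) → Px (Pn N y)) → ℝ), I52.ev P (lw μ s η N (Pn N y)) Ψ = evD μ s N y kd A Zq η Ψ := fun η Ψ => by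
    unfold I52.ev evD
    exact sum_congr rfl fun x _ => by rw [m7]
  refine ⟨ι, hι, kd, A, Zq, ⟨m1, m2, m3, m4, m5, m6, fun η l S => ?_⟩, hc, hev⟩
  have hz := ZC_pos13 (μ := μ) (s := s) hy η
  have h1 := hP.ev l (lw μ s η N (Pn N y)) fun S' => if S' = S then 1 else 0
  rw [hev] at h1
  have h2 : gm (lw μ s η N (Pn N y)) (fun S' => if S' = S then 1 else 0) = pth μ s η N S.1 / ZC μ s N (y : ℤ) η := by
    unfold gm
    rw [gz_lw]
    simp only [mul_ite, mul_one, mul_zero]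
    rw [sum_ite_eq', if_pos (mem_univ _), exp_lw]
  rw [h2] at h1
  have h3 : evD μ s N y kd A Zq η (fun x => if x l = S then 1 else 0) =
      (∑ x, if x l = S then A η x / Zq (kd x) η else 0) / ZC μ s N (y : ℤ) η := by
    unfold evD
    rw [sum_div]
    refine sum_congr rfl fun x _ => ?_
    by_cases hS : x l = S
    · simp only [hS, if_true]
      rw [mul_one, ← div_div]
    · simp only [hS, if_false]
      rw [mul_zero, zero_div]
  rw [h3, div_left_inj' hz.ne'] at h1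
  exact h1.le

end

end Pool.Agent.W_7d29a1_C0.F13
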