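import Pool.Agent.W_7d29a1_C0.FarP13
import Pool.Agent.W_7d29a1_C0.PlanP13
import Pool.Agent.W_7d29a1_C0.FarG34

/-!
C0, helper13: THE FAR PRICE FOR PLANS OF REPLICAS (Ins52) built by free replicas and replicas given an old one outside of a block:
`far_planE` (event form: the conditional mass of a new replica which is far from ALL old ones is at least `exp(-L^kappa)`), `far_gi`
(a new replica given an old one outside of a block), `far_fr` (a free one), `far_last` (any last replica of a block plan, e.g. a shadow).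
The weight `X` is blind site by site on the rows on one side of the far row, sites of the own replicas excepted (`BlV`).
-/

set_option autoImplicit false
set_option linter.unusedSectionVars false
set_option linter.unusedVariables false

namespace Pool.Agent.W_7d29a1_C0.F13

open MeasureTheory ProbabilityTheory Filter Topology Finset
open Pool.Agent.W_7d29a1_F Pool.Agent.W_7d29a1_X Pool.Agent.W_7d29a1_H Pool.Agent.W_7d29a1_HZ
open Pool.Agent.W_7d29a1_HS (In wd md)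
open Pool.Agent.W_7d29a1_HZ.ZE
open Pool.Agent.W_7d29a1_HZ.Z15 (kC ZC)
open Pool.Agent.W_7d29a1_C0.Mod92 (Px Pn lw pos_card ne_Pn pJ ps_of_le ps_of_ge)
open Pool.W7d29a1.C0 (gz gm gz_pos gz_ne)
open Pool.W7d29a1.C0
open Pool.W7d29a1.C0.I52 (Plan)
open Pool.Agent.W_7d29a1_C0.Far34 (bx0 lw_box blind_of_upd)

noncomputable section

variable {μ : Measure ℝ} {s : ℝ} {N y : ℕ}

/-! ### Observables which are blind site by site -/

/-- The observable is blind to every site of the rows `J` which is not on one of the replicas. -/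
def BlV (J : Finset ℕ) {m : ℕ} (X : Env → (Fin m → Px (Pn N y)) → ℝ) : Prop :=
  ∀ (η : Env) (q : Pt) (u : ℝ) (x : Fin m → Px (Pn N y)), 0 ≤ q.1 → q.1.toNat ∈ J → ¬ OnP x q → X (Function.update η q u) x = X η x

theorem BlV.of_upd {J : Finset ℕ} {m : ℕ} {X : Env → (Fin m → Px (Pn N y)) → ℝ}
    (h : ∀ (η : Env) (q : Pt) (u : ℝ), 0 ≤ q.1 → q.1.toNat ∈ J → X (Function.update η q u) = X η) : BlV J X :=
  fun η q u x h1 h2 _ => congrFun (h η q u h1 h2) x

theorem BlV.mono {J J' : Finset ℕ} (h : J ⊆ J') {m : ℕ} {X : Env → (Fin m → Px (Pn N y)) → ℝ} (hX : BlV J' X) : BlV J X :=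
  fun η q u x h1 h2 h3 => hX η q u x h1 (h h2) h3

/-! ### Averages over a plan -/

theorem meas_wtP {m : ℕ} (P : Plan (Px (Pn N y)) m) (x : Fin m → Px (Pn N y)) :
    Measurable fun η : Env => I52.wt P (lw μ s η N (Pn N y)) x :=
  (I52.wt_contDiff (n := 0) P x).continuous.measurable.comp Pool.Agent.W_7d29a1_C0.Far34.meas_lw

theorem meas_evP {m : ℕ} (P : Plan (Px (Pn N y)) m) {Ψ : Env → (Fin m → Px (Pn N y)) → ℝ} (mΨ : ∀ x, Measurable fun η => Ψ η x) :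
    Measurable fun η => I52.ev P (lw μ s η N (Pn N y)) (Ψ η) := by
  unfold I52.ev
  exact Finset.measurable_fun_sum _ fun x _ => (meas_wtP P x).mul (mΨ x)

theorem evP_nonneg {m : ℕ} (P : Plan (Px (Pn N y)) m) (w : Px (Pn N y) → ℝ) {Ψ : (Fin m → Px (Pn N y)) → ℝ} (h : ∀ x, 0 ≤ Ψ x) :
    0 ≤ I52.ev P w Ψ := I52.ev_nonneg P w h

theorem evP_le_one {m : ℕ} (P : Plan (Px (Pn N y)) m) (w : Px (Pn N y) → ℝ) {Ψ : (Fin m → Px (Pn N y)) → ℝ} (h : ∀ x, Ψ x ≤ 1) :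
    I52.ev P w Ψ ≤ 1 := (I52.ev_mono P w h).trans_eq (I52.ev_one P w)

theorem int_evP [IsProbabilityMeasure μ] {m : ℕ} (P : Plan (Px (Pn N y)) m) {Ψ : Env → (Fin m → Px (Pn N y)) → ℝ}
    (mΨ : ∀ x, Measurable fun η => Ψ η x) (h0 : ∀ η x, 0 ≤ Ψ η x) (h1 : ∀ η x, Ψ η x ≤ 1) :
    Integrable (fun η => I52.ev P (lw μ s η N (Pn N y)) (Ψ η)) (law μ) := by
  have : IsProbabilityMeasure (law μ) := by unfold law; infer_instance
  refine Integrable.of_bound (meas_evP P mΨ).aestronglyMeasurable 1 (Filter.Eventually.of_forall fun η => ?_)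
  rw [Real.norm_eq_abs, abs_of_nonneg (evP_nonneg P _ (h0 η))]
  exact evP_le_one P _ (h1 η)

/-- Two paths agree outside of everything. -/
theorem pJ_full (v v' : Px (Pn N y)) : pJ 0 N v = pJ 0 N v' := by
  have h : ∀ v : Px (Pn N y), pJ 0 N v = (∅, y) := fun v => by
    obtain ⟨h1, h2⟩ := mem_Pn.1 v.2
    unfold pJ
    have e1 : v.1 \ Ico 0 N = ∅ := by
      rw [← Finset.range_eq_Ico]
      exact Finset.sdiff_eq_empty_iff_subset.2 h1
    have e2 : (v.1 ∩ Ico 0 N).card = y := by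
      rw [← Finset.range_eq_Ico]
      have h3 : pos v.1 N = ((v.1 ∩ range N).card : ℤ) := rfl
      rw [h3] at h2
      exact_mod_cast h2
    rw [e1, e2]
  rw [h v, h v']

/-! ### The event form -/

theorem mFar_meas {k : ℕ} (L : ℕ) (δ : ℝ) (t τ c d : ℕ) (l : Fin (k + 1)) (x : Fin (k + 1) → Px (Pn N y)) :
    Measurable fun η : Env => mFar μ s N y L δ t τ c d l η x := by
  unfold mFar
  exact cE_meas13 c d _ _

theorem mFar_nonneg {k : ℕ} (L : ℕ) (δ : ℝ) (t τ c d : ℕ) (l : Fin (k + 1)) (η : Env) (x : Fin (k + 1) → Px (Pn N y)) :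
    0 ≤ mFar μ s N y L δ t τ c d l η x := by
  classical
  unfold mFar
  rw [I52.cE_eq_av]
  exact (I52.av_const (lw μ s η N (Pn N y)) (I52.fib_ne (pJ c d) (x l)) 0).symm.trans_le
    (I52.av_mono _ _ fun v _ => by split_ifs <;> norm_num)

theorem mFar_le_one {k : ℕ} (L : ℕ) (δ : ℝ) (t τ c d : ℕ) (l : Fin (k + 1)) (η : Env) (x : Fin (k + 1) → Px (Pn N y)) :
    mFar μ s N y L δ t τ c d l η x ≤ 1 := by
  classical
  unfold mFar
  rw [I52.cE_eq_av]
  exact (I52.av_mono _ _ fun v _ => by split_ifs <;> norm_num).trans_eq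
    (I52.av_const (lw μ s η N (Pn N y)) (I52.fib_ne (pJ c d) (x l)) 1)

open scoped Classical in
/-- **The far price of a plan, event form.** -/
theorem far_planE [IsProbabilityMeasure μ] {c₀ C₀ : ℝ} {n₀ : ℕ} (h : In μ s c₀ C₀ n₀) (k : ℕ) : ∀ ε θ : ℝ, 0 < ε → 0 < θ → ∃ δ κ c' : ℝ,
    0 < δ ∧ 0 < κ ∧ 0 < c' ∧ ∃ L₀ : ℕ, ∀ L : ℕ, L₀ ≤ L → ∀ N t : ℕ, L ≤ 16 * N → N ≤ L → (L : ℝ) ^ θ ≤ t → t ≤ N →
    ∀ y : ℕ, y ≤ N → |(y : ℝ) - sl μ s * N| ≤ ((L : ℝ) ^ δ * wd' μ s N) → ∀ P : Plan (Px (Pn N y)) (k + 1), BP N y P →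
    ∀ (rt : Bool) (τ c d : ℕ) (l : Fin (k + 1)), c ≤ d → d ≤ N →
    ∀ (X : Env → (Fin (k + 1) → Px (Pn N y)) → ℝ), (∀ x, Measurable fun η => X η x) → (∀ η x, 0 ≤ X η x) → (∀ η x, X η x ≤ 1) →
    BlV (rowsB rt N t τ ∩ Ioo c d) X →
    ∫ η, I52.ev P (lw μ s η N (Pn N y))
      (fun x => (if Real.exp (-(L : ℝ) ^ κ) ≤ mFar μ s N y L δ t τ c d l η x then 1 else 0) * X η x) ∂(law μ) ≤
      (L : ℝ) ^ ε * (EE' μ s t)⁻¹ * ∫ η, I52.ev P (lw μ s η N (Pn N y)) (X η) ∂(law μ) + Real.exp (-(L : ℝ) ^ c') := by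
  intro ε θ hε hθ
  obtain ⟨δ, κ, c', hδ, hκ, hc', L₀, h0⟩ := farP13 h k ε θ (4 * k) hε hθ (by positivity)
  refine ⟨δ, κ, c', hδ, hκ, hc', L₀ + 2, fun L hL N t hLN hNL htL htN y hy hyc P hP rt τ c d l hcd hd X mX X0 X1 hX => ?_⟩
  have hpr : IsProbabilityMeasure (law μ) := by unfold law; infer_instance
  have hne : Nonempty (Px (Pn N y)) := ne_Pn hy
  obtain ⟨ι, hι, kd, A, Zq, hD, hcard, hev⟩ := own_plan (μ := μ) (s := s) hy P hP
  have hB : (Fintype.card ι : ℝ) ≤ (L : ℝ) ^ (4 * (k : ℝ)) := by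
    have hL2 : 2 ≤ L := by omega
    have h1 : N + 1 ≤ L ^ 2 := by nlinarith
    have h2 : Fintype.card ι ≤ L ^ (4 * k) := by
      calc Fintype.card ι ≤ (N + 1) ^ (2 * k) := hcard
        _ ≤ (L ^ 2) ^ (2 * k) := Nat.pow_le_pow_left h1 _
        _ = L ^ (4 * k) := by rw [← pow_mul]; congr 1; ring
    have h3 : ((L ^ (4 * k) : ℕ) : ℝ) = (L : ℝ) ^ (4 * (k : ℝ)) := by
      rw [Nat.cast_pow, ← Real.rpow_natCast]
      congr 1
      push_cast
      ring
    rw [← h3]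
    exact_mod_cast h2
  obtain ⟨J, hJ⟩ : ∃ J : Finset ℕ, J = rowsB rt N t τ ∩ Ioo c d := ⟨_, rfl⟩
  rw [← hJ] at hX
  -- the form for observables which are blind to all sites at once
  have key0 : ∀ Y : Env → (Fin (k + 1) → Px (Pn N y)) → ℝ, (∀ x, Measurable fun η => Y η x) → (∀ η x, 0 ≤ Y η x) →
      (∀ η x, Y η x ≤ 1) → OffV J Y →
      ∫ η, I52.ev P (lw μ s η N (Pn N y))
        (fun x => (if Real.exp (-(L : ℝ) ^ κ) ≤ mFar μ s N y L δ t τ c d l η x then 1 else 0) * Y η x) ∂(law μ) ≤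
        (L : ℝ) ^ ε * (EE' μ s t)⁻¹ * ∫ η, I52.ev P (lw μ s η N (Pn N y)) (Y η) ∂(law μ) + Real.exp (-(L : ℝ) ^ c') := by
    intro Y mY Y0 Y1 hY
    have h3 := h0 L (by omega) N t hLN hNL htL htN y hy hyc ι kd A Zq hD hB rt τ c d l hcd hd Y mY Y0 Y1 (by rw [← hJ]; exact hY)
    simp only [hev]
    exact h3
  -- the environment outside of the box
  obtain ⟨B, hBd⟩ : ∃ B : Set Pt, B = {q | q ∉ bx0 N} := ⟨_, rfl⟩
  obtain ⟨gl, hgl⟩ : ∃ gl : Env → Env → Env, gl = fun η η' q => if q ∈ B then η q else η' q := ⟨_, rfl⟩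
  obtain ⟨zg, hzg⟩ : ∃ zg : (Fin (k + 1) → Px (Pn N y)) → Env → Env → Env, zg = fun x η η' q => if q ∈ B then η q else
    if (0 ≤ q.1 ∧ q.1.toNat ∈ J ∧ ¬ OnP x q) then 0 else η' q := ⟨_, rfl⟩
  have mzg : ∀ x η, Measurable (zg x η) := fun x η => by
    rw [hzg]
    refine measurable_pi_lambda _ fun q => ?_
    by_cases hq : q ∈ B
    · simp only [hq, if_true]
      exact measurable_const
    · by_cases hr : 0 ≤ q.1 ∧ q.1.toNat ∈ J ∧ ¬ OnP x q
      · simp only [hq, if_false, if_pos hr]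
        exact measurable_const
      · simp only [hq, if_false, if_neg hr]
        exact measurable_pi_apply q
  have elw : ∀ η η', lw μ s (gl η η') N (Pn N y) = lw μ s η' N (Pn N y) := fun η η' => lw_box fun q hq => by
    rw [hgl]
    exact if_neg (by rw [hBd]; exact fun hc => hc hq)
  have eF : ∀ η η' x, mFar μ s N y L δ t τ c d l (gl η η') x = mFar μ s N y L δ t τ c d l η' x := fun η η' x => by
    unfold mFar
    rw [elw]
  have eX : ∀ η η' x, X (gl η η') x = X (zg x η η') x := fun η η' x => by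
    refine (blind_of_upd (fun ζ => X ζ x) ((bx0 N).filter fun q => 0 ≤ q.1 ∧ q.1.toNat ∈ J ∧ ¬ OnP x q) (fun q hq ζ u => ?_)
      (gl η η') (zg x η η') fun q hq => ?_).symm
    · have h2 := (mem_filter.1 hq).2
      exact hX ζ q u x h2.1 h2.2.1 h2.2.2
    · rw [hgl, hzg]
      by_cases h1 : q ∈ B
      · simp only [h1, if_true]
      · by_cases h2 : 0 ≤ q.1 ∧ q.1.toNat ∈ J ∧ ¬ OnP x q
        · have h4 : q ∈ bx0 N := by
            by_contra hc
            exact h1 (by rw [hBd]; exact hc)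
          exact absurd (mem_filter.2 ⟨h4, h2⟩) hq
        · simp only [h1, if_false, if_neg h2]
  have offX : ∀ η, OffV J (fun η' x => X (zg x η η') x) := fun η η1 η2 x h12 => by
    have e : zg x η η1 = zg x η η2 := by
      rw [hzg]
      funext q
      by_cases h1 : q ∈ B
      · simp only [h1, if_true]
      · by_cases h2 : 0 ≤ q.1 ∧ q.1.toNat ∈ J ∧ ¬ OnP x q
        · simp only [h1, if_false, if_pos h2]
        · simp only [h1, if_false, if_neg h2]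
          exact h12 q fun h3 => by
            by_contra h4
            exact h2 ⟨h3.1, h3.2, h4⟩
    show X (zg x η η1) x = X (zg x η η2) x
    rw [e]
  obtain ⟨I, hI⟩ : ∃ I : Env → (Fin (k + 1) → Px (Pn N y)) → ℝ,
    I = fun η x => if Real.exp (-(L : ℝ) ^ κ) ≤ mFar μ s N y L δ t τ c d l η x then 1 else 0 := ⟨_, rfl⟩
  have I0 : ∀ η x, 0 ≤ I η x := fun η x => by rw [hI]; beta_reduce; split_ifs <;> norm_num
  have I1 : ∀ η x, I η x ≤ 1 := fun η x => by rw [hI]; beta_reduce; split_ifs <;> norm_num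
  have mI : ∀ x, Measurable fun η => I η x := fun x => by
    rw [hI]
    exact Measurable.ite (measurableSet_le measurable_const (mFar_meas L δ t τ c d l x)) measurable_const measurable_const
  have mIX : ∀ x, Measurable fun η => I η x * X η x := fun x => (mI x).mul (mX x)
  have IX0 : ∀ η x, 0 ≤ I η x * X η x := fun η x => mul_nonneg (I0 _ x) (X0 _ _)
  have IX1 : ∀ η x, I η x * X η x ≤ 1 := fun η x => mul_le_one₀ (I1 _ x) (X0 _ _) (X1 _ _)
  have i1 : Integrable (fun η => I52.ev P (lw μ s η N (Pn N y)) (fun x => I η x * X η x)) (law μ) := int_evP P mIX IX0 IX1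
  have i2 : Integrable (fun η => I52.ev P (lw μ s η N (Pn N y)) (X η)) (law μ) := int_evP P mX X0 X1
  obtain ⟨e1, j1, _⟩ := integral_glue (μ := μ) B (meas_evP (μ := μ) (s := s) P mIX) i1
  obtain ⟨e2, j2, _⟩ := integral_glue (μ := μ) B (meas_evP (μ := μ) (s := s) P mX) i2
  have key : ∀ η, ∫ η', I52.ev P (lw μ s (gl η η') N (Pn N y)) (fun x => I (gl η η') x * X (gl η η') x) ∂(law μ) ≤
      (L : ℝ) ^ ε * (EE' μ s t)⁻¹ * ∫ η', I52.ev P (lw μ s (gl η η') N (Pn N y)) (X (gl η η')) ∂(law μ) +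
        Real.exp (-(L : ℝ) ^ c') := fun η => by
    have h3 := key0 (fun η' x => X (zg x η η') x) (fun x => (mX x).comp (mzg x η)) (fun η' x => X0 _ _) (fun η' x => X1 _ _) (offX η)
    have f1 : ∀ η', I52.ev P (lw μ s (gl η η') N (Pn N y)) (fun x => I (gl η η') x * X (gl η η') x) =
        I52.ev P (lw μ s η' N (Pn N y))
          (fun x => (if Real.exp (-(L : ℝ) ^ κ) ≤ mFar μ s N y L δ t τ c d l η' x then 1 else 0) * X (zg x η η') x) := fun η' => by
      rw [elw]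
      refine I52.ev_congr P _ fun x => ?_
      rw [eX, hI]
      beta_reduce
      rw [eF]
    have f2 : ∀ η', I52.ev P (lw μ s (gl η η') N (Pn N y)) (X (gl η η')) =
        I52.ev P (lw μ s η' N (Pn N y)) (fun x => X (zg x η η') x) := fun η' => by
      rw [elw]
      exact I52.ev_congr P _ fun x => eX _ _ x
    simp only [f1, f2]
    exact h3
  have e1' : ∫ η, I52.ev P (lw μ s η N (Pn N y)) (fun x => I η x * X η x) ∂(law μ) =
      ∫ η, ∫ η', I52.ev P (lw μ s (gl η η') N (Pn N y)) (fun x => I (gl η η') x * X (gl η η') x) ∂(law μ) ∂(law μ) := by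
    rw [e1, hgl]
  have e2' : ∫ η, I52.ev P (lw μ s η N (Pn N y)) (X η) ∂(law μ) =
      ∫ η, ∫ η', I52.ev P (lw μ s (gl η η') N (Pn N y)) (X (gl η η')) ∂(law μ) ∂(law μ) := by
    rw [e2, hgl]
  have j1' : Integrable (fun η => ∫ η', I52.ev P (lw μ s (gl η η') N (Pn N y)) (fun x => I (gl η η') x * X (gl η η') x) ∂(law μ))
      (law μ) := by
    rw [hgl]
    exact j1
  have j2' : Integrable (fun η => ∫ η', I52.ev P (lw μ s (gl η η') N (Pn N y)) (X (gl η η')) ∂(law μ)) (law μ) := by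
    rw [hgl]
    exact j2
  have fin : ∫ η, I52.ev P (lw μ s η N (Pn N y)) (fun x => I η x * X η x) ∂(law μ) ≤
      (L : ℝ) ^ ε * (EE' μ s t)⁻¹ * ∫ η, I52.ev P (lw μ s η N (Pn N y)) (X η) ∂(law μ) + Real.exp (-(L : ℝ) ^ c') := by
    rw [e1', e2', ← integral_const_mul]
    have e3 : ∫ η : Env, ((L : ℝ) ^ ε * (EE' μ s t)⁻¹ * ∫ η', I52.ev P (lw μ s (gl η η') N (Pn N y)) (X (gl η η')) ∂(law μ) +
        Real.exp (-(L : ℝ) ^ c')) ∂(law μ) =
        ∫ η, (L : ℝ) ^ ε * (EE' μ s t)⁻¹ * ∫ η', I52.ev P (lw μ s (gl η η') N (Pn N y)) (X (gl η η')) ∂(law μ) ∂(law μ) +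
        Real.exp (-(L : ℝ) ^ c') := by
      rw [integral_add (j2'.const_mul _) (integrable_const _), integral_const]
      simp
    rw [← e3]
    exact integral_mono j1' ((j2'.const_mul _).add (integrable_const _)) key
  rw [hI] at fin
  exact fin

open scoped Classical in
/-- **The far price of a replica given an old one outside of a block, far from all old ones.** -/
theorem far_gi [IsProbabilityMeasure μ] {c₀ C₀ : ℝ} {n₀ : ℕ} (h : In μ s c₀ C₀ n₀) (k : ℕ) : ∀ ε θ : ℝ, 0 < ε → 0 < θ → ∃ δ c' : ℝ,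
    0 < δ ∧ 0 < c' ∧ ∃ L₀ : ℕ, ∀ L : ℕ, L₀ ≤ L → ∀ N t : ℕ, L ≤ 16 * N → N ≤ L → (L : ℝ) ^ θ ≤ t → t ≤ N →
    ∀ y : ℕ, y ≤ N → |(y : ℝ) - sl μ s * N| ≤ ((L : ℝ) ^ δ * wd' μ s N) → ∀ P : Plan (Px (Pn N y)) (k + 1), BP N y P →
    ∀ (rt : Bool) (τ c d : ℕ) (l : Fin (k + 1)), c ≤ d → d ≤ N →
    ∀ (X : Env → (Fin (k + 1) → Px (Pn N y)) → ℝ), (∀ x, Measurable fun η => X η x) → (∀ η x, 0 ≤ X η x) → (∀ η x, X η x ≤ 1) →
    BlV (rowsB rt N t τ ∩ Ioo c d) X →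
    ∫ η, I52.ev (P.gi (pJ c d) l) (lw μ s η N (Pn N y))
      (fun z => (if FarAt μ s L δ N t τ (pt z) then 1 else 0) * X η (Fin.tail z)) ∂(law μ) ≤
      (L : ℝ) ^ ε * (EE' μ s t)⁻¹ * ∫ η, I52.ev P (lw μ s η N (Pn N y)) (X η) ∂(law μ) + Real.exp (-(L : ℝ) ^ c') := by
  intro ε θ hε hθ
  obtain ⟨δ, κ, c₁, hδ, hκ, hc₁, L₁, h1⟩ := far_planE h k ε θ hε hθ
  obtain ⟨c₂, hc₂, -, L₂, h2⟩ := Pool.Agent.W_7d29a1_Z.NumI77.pow_exp (lt_min hc₁ hκ) 1
  refine ⟨δ, c₂, hδ, hc₂, L₁ + L₂ + 2, fun L hL N t hLN hNL htL htN y hy hyc P hP rt τ c d l hcd hd X mX X0 X1 hX => ?_⟩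
  have hpr : IsProbabilityMeasure (law μ) := by unfold law; infer_instance
  have hne : Nonempty (Px (Pn N y)) := ne_Pn hy
  have h3 := h1 L (by omega) N t hLN hNL htL htN y hy hyc P hP rt τ c d l hcd hd X mX X0 X1 hX
  have hL1 : (1 : ℝ) ≤ L := by
    have : 1 ≤ L := by omega
    exact_mod_cast this
  have hL2 : (2 : ℝ) ≤ L := by
    have : 2 ≤ L := by omega
    exact_mod_cast this
  -- the last replica
  have e : ∀ η, I52.ev (P.gi (pJ c d) l) (lw μ s η N (Pn N y))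
      (fun z => (if FarAt μ s L δ N t τ (pt z) then 1 else 0) * X η (Fin.tail z)) =
      I52.ev P (lw μ s η N (Pn N y)) fun x => mFar μ s N y L δ t τ c d l η x * X η x := fun η => by
    unfold Plan.gi
    rw [I52.ev_cons]
    refine I52.ev_congr P _ fun x => ?_
    unfold mFar
    rw [I52.cE_eq_av, mul_comm, ← I52.av_smul]
    refine congrArg (I52.av _ _) (funext fun v => ?_)
    rw [Fin.tail_cons, mul_comm]
  obtain ⟨I, hI⟩ : ∃ I : Env → (Fin (k + 1) → Px (Pn N y)) → ℝ,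
    I = fun η x => if Real.exp (-(L : ℝ) ^ κ) ≤ mFar μ s N y L δ t τ c d l η x then 1 else 0 := ⟨_, rfl⟩
  have I0 : ∀ η x, 0 ≤ I η x := fun η x => by rw [hI]; beta_reduce; split_ifs <;> norm_num
  have I1 : ∀ η x, I η x ≤ 1 := fun η x => by rw [hI]; beta_reduce; split_ifs <;> norm_num
  have mI : ∀ x, Measurable fun η => I η x := fun x => by
    rw [hI]
    exact Measurable.ite (measurableSet_le measurable_const (mFar_meas L δ t τ c d l x)) measurable_const measurable_const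
  have mIX : ∀ x, Measurable fun η => I η x * X η x := fun x => (mI x).mul (mX x)
  have i1 : Integrable (fun η => I52.ev P (lw μ s η N (Pn N y)) (fun x => I η x * X η x)) (law μ) :=
    int_evP P mIX (fun η x => mul_nonneg (I0 _ x) (X0 _ _)) fun η x => mul_le_one₀ (I1 _ x) (X0 _ _) (X1 _ _)
  have mFX : ∀ x, Measurable fun η => mFar μ s N y L δ t τ c d l η x * X η x := fun x => (mFar_meas L δ t τ c d l x).mul (mX x)
  have i3 : Integrable (fun η => I52.ev P (lw μ s η N (Pn N y)) (fun x => mFar μ s N y L δ t τ c d l η x * X η x)) (law μ) :=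
    int_evP P mFX (fun η x => mul_nonneg (mFar_nonneg L δ t τ c d l η x) (X0 _ _))
      fun η x => mul_le_one₀ (mFar_le_one L δ t τ c d l η x) (X0 _ _) (X1 _ _)
  have b1 : ∀ η, I52.ev P (lw μ s η N (Pn N y)) (fun x => mFar μ s N y L δ t τ c d l η x * X η x) ≤
      I52.ev P (lw μ s η N (Pn N y)) (fun x => I η x * X η x) + Real.exp (-(L : ℝ) ^ κ) := fun η => by
    rw [← I52.ev_const P (lw μ s η N (Pn N y)) (Real.exp (-(L : ℝ) ^ κ)), ← I52.ev_add]
    refine I52.ev_mono P _ fun x => ?_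
    have hm0 := mFar_nonneg (μ := μ) (s := s) L δ t τ c d l η x
    have hm1 := mFar_le_one (μ := μ) (s := s) L δ t τ c d l η x
    have hx0 := X0 η x
    have hx1 := X1 η x
    have he := (Real.exp_pos (-(L : ℝ) ^ κ)).le
    rw [hI]
    beta_reduce
    split_ifs with hc
    · nlinarith
    · have hc' := (not_le.1 hc).le
      nlinarith
  have b2 : ∫ η, I52.ev P (lw μ s η N (Pn N y)) (fun x => mFar μ s N y L δ t τ c d l η x * X η x) ∂(law μ) ≤
      ∫ η, I52.ev P (lw μ s η N (Pn N y)) (fun x => I η x * X η x) ∂(law μ) + Real.exp (-(L : ℝ) ^ κ) := by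
    have e3 : ∫ η, (I52.ev P (lw μ s η N (Pn N y)) (fun x => I η x * X η x) + Real.exp (-(L : ℝ) ^ κ)) ∂(law μ) =
        ∫ η, I52.ev P (lw μ s η N (Pn N y)) (fun x => I η x * X η x) ∂(law μ) + Real.exp (-(L : ℝ) ^ κ) := by
      rw [integral_add i1 (integrable_const _), integral_const]
      simp
    rw [← e3]
    exact integral_mono i3 (i1.add (integrable_const _)) b1
  have h4 : ∫ η, I52.ev P (lw μ s η N (Pn N y)) (fun x => I η x * X η x) ∂(law μ) ≤
      (L : ℝ) ^ ε * (EE' μ s t)⁻¹ * ∫ η, I52.ev P (lw μ s η N (Pn N y)) (X η) ∂(law μ) + Real.exp (-(L : ℝ) ^ c₁) := by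
    rw [hI]
    exact h3
  have hfin : Real.exp (-(L : ℝ) ^ c₁) + Real.exp (-(L : ℝ) ^ κ) ≤ Real.exp (-(L : ℝ) ^ c₂) := by
    have h5 := h2 L (by omega)
    rw [Real.rpow_one] at h5
    have h6 : Real.exp (-(L : ℝ) ^ c₁) ≤ Real.exp (-(L : ℝ) ^ (min c₁ κ)) :=
      Real.exp_le_exp.2 (neg_le_neg (Real.rpow_le_rpow_of_exponent_le hL1 (min_le_left _ _)))
    have h7 : Real.exp (-(L : ℝ) ^ κ) ≤ Real.exp (-(L : ℝ) ^ (min c₁ κ)) :=
      Real.exp_le_exp.2 (neg_le_neg (Real.rpow_le_rpow_of_exponent_le hL1 (min_le_right _ _)))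
    have h8 := Real.exp_pos (-(L : ℝ) ^ (min c₁ κ))
    nlinarith
  simp only [e]
  linarith

open scoped Classical in
/-- **The far price of a free replica, far from all old ones.** -/
theorem far_fr [IsProbabilityMeasure μ] {c₀ C₀ : ℝ} {n₀ : ℕ} (h : In μ s c₀ C₀ n₀) (k : ℕ) : ∀ ε θ : ℝ, 0 < ε → 0 < θ → ∃ δ c' : ℝ,
    0 < δ ∧ 0 < c' ∧ ∃ L₀ : ℕ, ∀ L : ℕ, L₀ ≤ L → ∀ N t : ℕ, L ≤ 16 * N → N ≤ L → (L : ℝ) ^ θ ≤ t → t ≤ N →
    ∀ (y : ℕ) (hy : y ≤ N), |(y : ℝ) - sl μ s * N| ≤ ((L : ℝ) ^ δ * wd' μ s N) → ∀ P : Plan (Px (Pn N y)) (k + 1), BP N y P →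
    ∀ (rt : Bool) (τ : ℕ)
    (X : Env → (Fin (k + 1) → Px (Pn N y)) → ℝ), (∀ x, Measurable fun η => X η x) → (∀ η x, 0 ≤ X η x) → (∀ η x, X η x ≤ 1) →
    BlV (rowsB rt N t τ) X → ∀ w : Env → Px (Pn N y) → ℝ, w = (fun η => lw μ s η N (Pn N y)) →
    ∫ η, I52.ev P (w η) (fun x => gm (w η) fun v =>
      (if FarAt μ s L δ N t τ (pt (Fin.cons v x : Fin (k + 2) → Px (Pn N y))) then 1 else 0) * X η x) ∂(law μ) ≤
      (L : ℝ) ^ ε * (EE' μ s t)⁻¹ * ∫ η, I52.ev P (w η) (X η) ∂(law μ) + Real.exp (-(L : ℝ) ^ c') := by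
  intro ε θ hε hθ
  obtain ⟨δ, c', hδ, hc', L₀, h1⟩ := far_gi h k ε θ hε hθ
  refine ⟨δ, c', hδ, hc', L₀, fun L hL N t hLN hNL htL htN y hy hyc P hP rt τ X mX X0 X1 hX w hw => ?_⟩
  have hne : Nonempty (Px (Pn N y)) := ne_Pn hy
  have h3 := h1 L hL N t hLN hNL htL htN y hy hyc P hP rt τ 0 N 0 (Nat.zero_le _) le_rfl X mX X0 X1 (hX.mono inter_subset_left)
  subst hw
  have e : ∀ η, I52.ev (P.gi (pJ 0 N) 0) (lw μ s η N (Pn N y))
      (fun z => (if FarAt μ s L δ N t τ (pt z) then 1 else 0) * X η (Fin.tail z)) =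
      I52.ev P (lw μ s η N (Pn N y)) (fun x => gm (lw μ s η N (Pn N y)) fun v =>
        (if FarAt μ s L δ N t τ (pt (Fin.cons v x : Fin (k + 2) → Px (Pn N y))) then 1 else 0) * X η x) := fun η => by
    unfold Plan.gi
    rw [I52.ev_cons]
    refine I52.ev_congr P _ fun x => ?_
    have hu : (univ.filter fun s : Px (Pn N y) => pJ 0 N s = pJ 0 N (x 0)) = univ :=
      Finset.filter_true_of_mem fun s _ => pJ_full s (x 0)
    rw [hu, I52.gm_eq_av]
    refine congrArg (I52.av _ _) (funext fun v => ?_)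
    rw [Fin.tail_cons]
  simp only [e] at h3
  exact h3

open scoped Classical in
/-- **The far price of the last replica of a block plan.** -/
theorem far_last [IsProbabilityMeasure μ] {c₀ C₀ : ℝ} {n₀ : ℕ} (h : In μ s c₀ C₀ n₀) (k : ℕ) : ∀ ε θ : ℝ, 0 < ε → 0 < θ → ∃ δ c' : ℝ,
    0 < δ ∧ 0 < c' ∧ ∃ L₀ : ℕ, ∀ L : ℕ, L₀ ≤ L → ∀ N t : ℕ, L ≤ 16 * N → N ≤ L → (L : ℝ) ^ θ ≤ t → t ≤ N →
    ∀ y : ℕ, y ≤ N → |(y : ℝ) - sl μ s * N| ≤ ((L : ℝ) ^ δ * wd' μ s N) →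
    ∀ (P : Plan (Px (Pn N y)) (k + 1)) (A : (Fin (k + 1) → Px (Pn N y)) → Finset (Px (Pn N y))) (hA : ∀ x, (A x).Nonempty),
    BP N y (Plan.cons P A hA) → ∀ (rt : Bool) (τ : ℕ)
    (X : Env → (Fin (k + 1) → Px (Pn N y)) → ℝ), (∀ x, Measurable fun η => X η x) → (∀ η x, 0 ≤ X η x) → (∀ η x, X η x ≤ 1) →
    BlV (rowsB rt N t τ) X →
    ∫ η, I52.ev (Plan.cons P A hA) (lw μ s η N (Pn N y))
      (fun z => (if FarAt μ s L δ N t τ (pt z) then 1 else 0) * X η (Fin.tail z)) ∂(law μ) ≤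
      (L : ℝ) ^ ε * (EE' μ s t)⁻¹ * ∫ η, I52.ev P (lw μ s η N (Pn N y)) (X η) ∂(law μ) + Real.exp (-(L : ℝ) ^ c') := by
  intro ε θ hε hθ
  obtain ⟨δ, c', hδ, hc', L₀, h1⟩ := far_gi h k ε θ hε hθ
  refine ⟨δ, c', hδ, hc', L₀, fun L hL N t hLN hNL htL htN y hy hyc P A hA hP rt τ X mX X0 X1 hX => ?_⟩
  have hne : Nonempty (Px (Pn N y)) := ne_Pn hy
  rcases hP.2 with h2 | ⟨c, d, i, hcd, hd, h2⟩
  · have h3 := h1 L hL N t hLN hNL htL htN y hy hyc P hP.1 rt τ 0 N 0 (Nat.zero_le _) le_rfl X mX X0 X1 (hX.mono inter_subset_left)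
    have e : ∀ η, I52.ev (P.gi (pJ 0 N) 0) (lw μ s η N (Pn N y))
        (fun z => (if FarAt μ s L δ N t τ (pt z) then 1 else 0) * X η (Fin.tail z)) =
        I52.ev (Plan.cons P A hA) (lw μ s η N (Pn N y))
          (fun z => (if FarAt μ s L δ N t τ (pt z) then 1 else 0) * X η (Fin.tail z)) := fun η => by
      unfold Plan.gi
      rw [I52.ev_cons, I52.ev_cons]
      refine I52.ev_congr P _ fun x => ?_
      have hu : (univ.filter fun s : Px (Pn N y) => pJ 0 N s = pJ 0 N (x 0)) = univ :=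
        Finset.filter_true_of_mem fun s _ => pJ_full s (x 0)
      rw [hu, h2 x]
    simp only [e] at h3
    exact h3
  · have h3 := h1 L hL N t hLN hNL htL htN y hy hyc P hP.1 rt τ c d i hcd hd X mX X0 X1 (hX.mono inter_subset_left)
    have e : ∀ η, I52.ev (P.gi (pJ c d) i) (lw μ s η N (Pn N y))
        (fun z => (if FarAt μ s L δ N t τ (pt z) then 1 else 0) * X η (Fin.tail z)) =
        I52.ev (Plan.cons P A hA) (lw μ s η N (Pn N y))
          (fun z => (if FarAt μ s L δ N t τ (pt z) then 1 else 0) * X η (Fin.tail z)) := fun η => by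
      unfold Plan.gi
      rw [I52.ev_cons, I52.ev_cons]
      refine I52.ev_congr P _ fun x => ?_
      rw [h2 x]
    simp only [e] at h3
    exact h3

end

end Pool.Agent.W_7d29a1_C0.F13
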