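import Pool.Agent.W_7d29a1_C0.FarT46D
import Pool.Agent.W_7d29a1_C0.FarPl13

/-!
C0, helper46: **THE FAR PRICE FOR PLANS OF REPLICAS AT TILTED WEIGHTS** (the form of helper90, over the far price of helper13, FarPl13).
Weights `w = lw + u`, `|u| ≤ D ≤ L ^ κ`, `u` blind site by site on the rows `rowsB rt N t τ ∩ Ioo c d`, `X` blind on these rows except for
the sites of the own replicas (`BlV`). `far_planTE` (event form), `far_giT` (a new replica given an old one outside of a block, far from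
all old ones), `far_frT` (a free one), `far_lastT` (any last replica of a block plan). No condition on the blocks of the conditional
replicas of the plan relative to the window of the tilt.
-/

set_option autoImplicit false
set_option linter.unusedSectionVars false
set_option linter.unusedVariables false

namespace Pool.Agent.W_7d29a1_C0.Ft46

open MeasureTheory ProbabilityTheory Filter Topology Finset
open Pool.Agent.W_7d29a1_F Pool.Agent.W_7d29a1_X Pool.Agent.W_7d29a1_H Pool.Agent.W_7d29a1_HZ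
open Pool.Agent.W_7d29a1_HS (In wd md)
open Pool.Agent.W_7d29a1_HZ.ZE
open Pool.Agent.W_7d29a1_HZ.Z15 (kC ZC)
open Pool.Agent.W_7d29a1_C0.Mod92 (Px Pn lw pos_card ne_Pn pJ ps_of_le ps_of_ge)
open Pool.Agent.W_7d29a1_C0.F13
open Pool.W7d29a1.C0 (gz gm gz_pos gz_ne)
open Pool.W7d29a1.C0
open Pool.W7d29a1.C0.I52 (Plan)
open Pool.Agent.W_7d29a1_C0.Far34 (bx0 lw_box blind_of_upd)

noncomputable section

variable {μ : Measure ℝ} {s : ℝ} {N y : ℕ}

open scoped Classical in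
/-- The conditional mass, at the weights `w`, of the new replica which is far from all own replicas. -/
def mFarT (μ : Measure ℝ) (s : ℝ) {N y : ℕ} (w : Px (Pn N y) → ℝ) (L : ℕ) (δ : ℝ) (t τ c d : ℕ) {k : ℕ} (l : Fin (k + 1))
    (x : Fin (k + 1) → Px (Pn N y)) : ℝ :=
  VT31.cE w (pJ c d) (fun v => if FarAt μ s L δ N t τ (pt (Fin.cons v x : Fin (k + 2) → Px (Pn N y))) then 1 else 0) (x l)

/-! ### Averages over a plan at tilted weights -/

section Av

variable {w : Env → Px (Pn N y) → ℝ}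

theorem meas_evT (hw : Measurable w) {m : ℕ} (P : Plan (Px (Pn N y)) m) {Ψ : Env → (Fin m → Px (Pn N y)) → ℝ}
    (mΨ : ∀ x, Measurable fun η => Ψ η x) : Measurable fun η => I52.ev P (w η) (Ψ η) := by
  unfold I52.ev
  exact Finset.measurable_fun_sum _ fun x _ => (meas_wtT P hw x).mul (mΨ x)

theorem int_evT [IsProbabilityMeasure μ] (hw : Measurable w) {m : ℕ} (P : Plan (Px (Pn N y)) m) {Ψ : Env → (Fin m → Px (Pn N y)) → ℝ}
    (mΨ : ∀ x, Measurable fun η => Ψ η x) (h0 : ∀ η x, 0 ≤ Ψ η x) (h1 : ∀ η x, Ψ η x ≤ 1) :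
    Integrable (fun η => I52.ev P (w η) (Ψ η)) (law μ) := by
  have : IsProbabilityMeasure (law μ) := by unfold law; infer_instance
  refine Integrable.of_bound (meas_evT hw P mΨ).aestronglyMeasurable 1 (Filter.Eventually.of_forall fun η => ?_)
  rw [Real.norm_eq_abs, abs_of_nonneg (evP_nonneg P _ (h0 η))]
  exact evP_le_one P _ (h1 η)

theorem mFarT_meas (hw : Measurable w) {k : ℕ} (L : ℕ) (δ : ℝ) (t τ c d : ℕ) (l : Fin (k + 1)) (x : Fin (k + 1) → Px (Pn N y)) :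
    Measurable fun η : Env => mFarT μ s (w η) L δ t τ c d l x := by
  classical
  have hS : ∀ S, Measurable fun η : Env => Real.exp (w η S) := fun S => ((measurable_pi_apply S).comp hw).exp
  unfold mFarT
  simp only [I52.cE_eq_av, I52.av_eq]
  refine Measurable.div (Finset.measurable_fun_sum _ fun v _ => (hS v).mul_const _) ?_
  unfold I52.zs
  exact Finset.measurable_fun_sum _ fun v _ => hS v

theorem mFarT_nonneg {k : ℕ} (w : Px (Pn N y) → ℝ) (L : ℕ) (δ : ℝ) (t τ c d : ℕ) (l : Fin (k + 1)) (x : Fin (k + 1) → Px (Pn N y)) :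
    0 ≤ mFarT μ s w L δ t τ c d l x := by
  classical
  unfold mFarT
  rw [I52.cE_eq_av]
  exact (I52.av_const w (I52.fib_ne (pJ c d) (x l)) 0).symm.trans_le (I52.av_mono _ _ fun v _ => by split_ifs <;> norm_num)

theorem mFarT_le_one {k : ℕ} (w : Px (Pn N y) → ℝ) (L : ℕ) (δ : ℝ) (t τ c d : ℕ) (l : Fin (k + 1)) (x : Fin (k + 1) → Px (Pn N y)) :
    mFarT μ s w L δ t τ c d l x ≤ 1 := by
  classical
  unfold mFarT
  rw [I52.cE_eq_av]
  exact (I52.av_mono _ _ fun v _ => by split_ifs <;> norm_num).trans_eq (I52.av_const w (I52.fib_ne (pJ c d) (x l)) 1)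

end Av

/-! ### The event form -/

open scoped Classical in
/-- The event form for observables and tilts which are blind at once. -/
theorem far_planT0 [IsProbabilityMeasure μ] {c₀ C₀ : ℝ} {n₀ : ℕ} (h : In μ s c₀ C₀ n₀) (k : ℕ) : ∀ ε θ : ℝ, 0 < ε → 0 < θ → ∃ δ κ c' : ℝ,
    0 < δ ∧ 0 < κ ∧ 0 < c' ∧ ∃ L₀ : ℕ, ∀ L : ℕ, L₀ ≤ L → ∀ N t : ℕ, L ≤ 16 * N → N ≤ L → (L : ℝ) ^ θ ≤ t → t ≤ N →
    ∀ y : ℕ, y ≤ N → |(y : ℝ) - sl μ s * N| ≤ ((L : ℝ) ^ δ * wd' μ s N) → ∀ P : Plan (Px (Pn N y)) (k + 1), BP N y P →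
    ∀ (rt : Bool) (τ c d : ℕ) (l : Fin (k + 1)), c ≤ d → d ≤ N →
    ∀ (D : ℝ) (u w : Env → Px (Pn N y) → ℝ), 0 ≤ D → D ≤ (L : ℝ) ^ κ → TwOk N y (rowsB rt N t τ ∩ Ioo c d) D u →
    (∀ η S, w η S = lw μ s η N (Pn N y) S + u η S) →
    ∀ (X : Env → (Fin (k + 1) → Px (Pn N y)) → ℝ), (∀ x, Measurable fun η => X η x) → (∀ η x, 0 ≤ X η x) → (∀ η x, X η x ≤ 1) →
    OffV (rowsB rt N t τ ∩ Ioo c d) X →
    ∫ η, I52.ev P (w η) (fun x => (if Real.exp (-(L : ℝ) ^ κ) ≤ mFarT μ s (w η) L δ t τ c d l x then 1 else 0) * X η x) ∂(law μ) ≤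
      (L : ℝ) ^ ε * (EE' μ s t)⁻¹ * ∫ η, I52.ev P (w η) (X η) ∂(law μ) + Real.exp (-(L : ℝ) ^ c') := by
  intro ε θ hε hθ
  obtain ⟨δ, κ, c', hδ, hκ, hc', L₀, h0⟩ := farP46 h k ε θ hε hθ
  obtain ⟨La, hLa⟩ := Pool.Agent.W_7d29a1_HZ.Z86.ev_const 4 (show 0 < κ / 2 by positivity)
  refine ⟨δ, κ / 2, c', hδ, by positivity, hc', L₀ + La + 2, ?_⟩
  intro L hL N t hLN hNL htL htN y hy hyc P hP rt τ c d l hcd hd D u w hD0 hD hu hw X mX X0 X1 hX
  have hpr : IsProbabilityMeasure (law μ) := by unfold law; infer_instance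
  have hne : Nonempty (Px (Pn N y)) := ne_Pn hy
  have hLR : (1 : ℝ) ≤ L := by exact_mod_cast (show 1 ≤ L by omega)
  have hL0 : (0 : ℝ) < L := by linarith
  obtain ⟨a, ha⟩ : ∃ a : ℝ, a = (L : ℝ) ^ (κ / 2) := ⟨_, rfl⟩
  have ha4 : 4 ≤ a := by rw [ha]; exact hLa L (by omega)
  have haa : (L : ℝ) ^ κ = a * a := by
    rw [ha, ← Real.rpow_add hL0]
    congr 1
    ring
  rw [← ha] at hD ⊢
  have h4a : 4 * a ≤ (L : ℝ) ^ κ := by
    rw [haa]
    exact mul_le_mul_of_nonneg_right ha4 (by linarith)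
  have hO := ownA_plan (μ := μ) (s := s) hy P hP hD0 hu hw
  have hK : Real.exp (2 * D) ≤ Real.exp ((L : ℝ) ^ κ) := Real.exp_le_exp.2 (by linarith)
  have h3 := h0 L (by omega) N t hLN hNL htL htN y hy hyc rt τ c d l hcd hd (Real.exp (2 * D)) (fun η x => I52.wt P (w η) x) hO hK
    X mX X0 X1 hX
  have hev : ∀ (η : Env) (Ψ : (Fin (k + 1) → Px (Pn N y)) → ℝ), evA (fun η x => I52.wt P (w η) x) η Ψ = I52.ev P (w η) Ψ := fun η Ψ => rfl
  simp only [hev] at h3
  refine le_trans ?_ h3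
  have hwm : Measurable w := hu.wm hw
  refine integral_mono (int_evT hwm P (fun x => ?_) (fun η x => mul_nonneg (by split_ifs <;> norm_num) (X0 η x))
    fun η x => mul_le_one₀ (by split_ifs <;> norm_num) (X0 η x) (X1 η x))
    (int_evT hwm P (fun x => ?_) (fun η x => mul_nonneg (by split_ifs <;> norm_num) (X0 η x))
    fun η x => mul_le_one₀ (by split_ifs <;> norm_num) (X0 η x) (X1 η x)) fun η => ?_
  · exact (Measurable.ite (measurableSet_le measurable_const (mFarT_meas hwm L δ t τ c d l x)) measurable_const measurable_const).mul (mX x)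
  · exact (Measurable.ite (measurableSet_le measurable_const (mFar_meas L δ t τ c d l x)) measurable_const measurable_const).mul (mX x)
  refine I52.ev_mono P (w η) fun x => mul_le_mul_of_nonneg_right ?_ (X0 η x)
  by_cases h5 : Real.exp (-a) ≤ mFarT μ s (w η) L δ t τ c d l x
  · have h6 : Real.exp (-(L : ℝ) ^ κ) ≤ mFar μ s N y L δ t τ c d l η x := by
      have h7 : mFarT μ s (w η) L δ t τ c d l x ≤ Real.exp (2 * D) * mFar μ s N y L δ t τ c d l η x := by
        unfold mFarT mFar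
        exact cE_tilt hu hw η (pJ c d) (fun v => by split_ifs <;> norm_num) (x l)
      have h8 := mul_le_mul_of_nonneg_left (h5.trans h7) (Real.exp_pos (-(2 * D))).le
      rw [← mul_assoc, ← Real.exp_add, ← Real.exp_add, neg_add_cancel, Real.exp_zero, one_mul] at h8
      refine le_trans (Real.exp_le_exp.2 ?_) h8
      linarith
    rw [if_pos h5, if_pos h6]
  · rw [if_neg h5]
    split_ifs <;> norm_num

open scoped Classical in
/-- **The far price of a plan at tilted weights, event form.** -/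
theorem far_planTE [IsProbabilityMeasure μ] {c₀ C₀ : ℝ} {n₀ : ℕ} (h : In μ s c₀ C₀ n₀) (k : ℕ) : ∀ ε θ : ℝ, 0 < ε → 0 < θ → ∃ δ κ c' : ℝ,
    0 < δ ∧ 0 < κ ∧ 0 < c' ∧ ∃ L₀ : ℕ, ∀ L : ℕ, L₀ ≤ L → ∀ N t : ℕ, L ≤ 16 * N → N ≤ L → (L : ℝ) ^ θ ≤ t → t ≤ N →
    ∀ y : ℕ, y ≤ N → |(y : ℝ) - sl μ s * N| ≤ ((L : ℝ) ^ δ * wd' μ s N) → ∀ P : Plan (Px (Pn N y)) (k + 1), BP N y P →
    ∀ (rt : Bool) (τ c d : ℕ) (l : Fin (k + 1)), c ≤ d → d ≤ N →
    ∀ (D : ℝ) (u w : Env → Px (Pn N y) → ℝ), 0 ≤ D → D ≤ (L : ℝ) ^ κ → (∀ S, Measurable fun η => u η S) → (∀ η S, |u η S| ≤ D) →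
    (∀ (η : Env) (q : Pt) (v : ℝ) (S : Px (Pn N y)), 0 ≤ q.1 → q.1.toNat ∈ rowsB rt N t τ ∩ Ioo c d → u (Function.update η q v) S = u η S) →
    (∀ η S, w η S = lw μ s η N (Pn N y) S + u η S) →
    ∀ (X : Env → (Fin (k + 1) → Px (Pn N y)) → ℝ), (∀ x, Measurable fun η => X η x) → (∀ η x, 0 ≤ X η x) → (∀ η x, X η x ≤ 1) →
    BlV (rowsB rt N t τ ∩ Ioo c d) X →
    ∫ η, I52.ev P (w η) (fun x => (if Real.exp (-(L : ℝ) ^ κ) ≤ mFarT μ s (w η) L δ t τ c d l x then 1 else 0) * X η x) ∂(law μ) ≤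
      (L : ℝ) ^ ε * (EE' μ s t)⁻¹ * ∫ η, I52.ev P (w η) (X η) ∂(law μ) + Real.exp (-(L : ℝ) ^ c') := by
  intro ε θ hε hθ
  obtain ⟨δ, κ, c', hδ, hκ, hc', L₀, h0⟩ := far_planT0 h k ε θ hε hθ
  refine ⟨δ, κ, c', hδ, hκ, hc', L₀, ?_⟩
  intro L hL N t hLN hNL htL htN y hy hyc P hP rt τ c d l hcd hd D u w hD0 hD um ub uJ hw X mX X0 X1 hX
  have hpr : IsProbabilityMeasure (law μ) := by unfold law; infer_instance
  have hne : Nonempty (Px (Pn N y)) := ne_Pn hy
  obtain ⟨J, hJ⟩ : ∃ J : Finset ℕ, J = rowsB rt N t τ ∩ Ioo c d := ⟨_, rfl⟩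
  rw [← hJ] at hX uJ
  have h1 := h0 L hL N t hLN hNL htL htN y hy hyc P hP rt τ c d l hcd hd D
  rw [← hJ] at h1
  -- the environment outside of the box
  obtain ⟨B, hBd⟩ : ∃ B : Set Pt, B = {q | q ∉ bx0 N} := ⟨_, rfl⟩
  obtain ⟨gl, hgl⟩ : ∃ gl : Env → Env → Env, gl = fun η η' q => if q ∈ B then η q else η' q := ⟨_, rfl⟩
  obtain ⟨zg, hzg⟩ : ∃ zg : (Fin (k + 1) → Px (Pn N y)) → Env → Env → Env, zg = fun x η η' q => if q ∈ B then η q else
    if (0 ≤ q.1 ∧ q.1.toNat ∈ J ∧ ¬ OnP x q) then 0 else η' q := ⟨_, rfl⟩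
  obtain ⟨zu, hzu⟩ : ∃ zu : Env → Env → Env, zu = fun η η' q => if q ∈ B then η q else
    if (0 ≤ q.1 ∧ q.1.toNat ∈ J) then 0 else η' q := ⟨_, rfl⟩
  have mzg : ∀ x η, Measurable (zg x η) := fun x η => by
    rw [hzg]
    refine measurable_pi_lambda _ fun q => ?_
    by_cases hq : q ∈ B
    · simp only [hq, if_true]
      exact measurable_const
    · by_cases hr : 0 ≤ q.1 ∧ q.1.toNat ∈ J ∧ ¬ OnP x q
      · simp only [hq, if_false, if_pos hr]
        exact measurable_const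
      · simp only [hq, if_false, if_neg hr]
        exact measurable_pi_apply q
  have mzu : ∀ η, Measurable (zu η) := fun η => by
    rw [hzu]
    refine measurable_pi_lambda _ fun q => ?_
    by_cases hq : q ∈ B
    · simp only [hq, if_true]
      exact measurable_const
    · by_cases hr : 0 ≤ q.1 ∧ q.1.toNat ∈ J
      · simp only [hq, if_false, if_pos hr]
        exact measurable_const
      · simp only [hq, if_false, if_neg hr]
        exact measurable_pi_apply q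
  have elw : ∀ η η', lw μ s (gl η η') N (Pn N y) = lw μ s η' N (Pn N y) := fun η η' => lw_box fun q hq => by
    rw [hgl]
    exact if_neg (by rw [hBd]; exact fun hc => hc hq)
  have eX : ∀ η η' x, X (gl η η') x = X (zg x η η') x := fun η η' x => by
    refine (blind_of_upd (fun ζ => X ζ x) ((bx0 N).filter fun q => 0 ≤ q.1 ∧ q.1.toNat ∈ J ∧ ¬ OnP x q) (fun q hq ζ v => ?_)
      (gl η η') (zg x η η') fun q hq => ?_).symm
    · have h2 := (mem_filter.1 hq).2
      exact hX ζ q v x h2.1 h2.2.1 h2.2.2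
    · rw [hgl, hzg]
      by_cases h1 : q ∈ B
      · simp only [h1, if_true]
      · by_cases h2 : 0 ≤ q.1 ∧ q.1.toNat ∈ J ∧ ¬ OnP x q
        · have h4 : q ∈ bx0 N := by
            by_contra hc
            exact h1 (by rw [hBd]; exact hc)
          exact absurd (mem_filter.2 ⟨h4, h2⟩) hq
        · simp only [h1, if_false, if_neg h2]
  have eU : ∀ η η' S, u (gl η η') S = u (zu η η') S := fun η η' S => by
    refine (blind_of_upd (fun ζ => u ζ S) ((bx0 N).filter fun q => 0 ≤ q.1 ∧ q.1.toNat ∈ J) (fun q hq ζ v => ?_)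
      (gl η η') (zu η η') fun q hq => ?_).symm
    · have h2 := (mem_filter.1 hq).2
      exact uJ ζ q v S h2.1 h2.2
    · rw [hgl, hzu]
      by_cases h1 : q ∈ B
      · simp only [h1, if_true]
      · by_cases h2 : 0 ≤ q.1 ∧ q.1.toNat ∈ J
        · have h4 : q ∈ bx0 N := by
            by_contra hc
            exact h1 (by rw [hBd]; exact hc)
          exact absurd (mem_filter.2 ⟨h4, h2⟩) hq
        · simp only [h1, if_false, if_neg h2]
  have offX : ∀ η, OffV J (fun η' x => X (zg x η η') x) := fun η η1 η2 x h12 => by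
    have e : zg x η η1 = zg x η η2 := by
      rw [hzg]
      funext q
      by_cases h1 : q ∈ B
      · simp only [h1, if_true]
      · by_cases h2 : 0 ≤ q.1 ∧ q.1.toNat ∈ J ∧ ¬ OnP x q
        · simp only [h1, if_false, if_pos h2]
        · simp only [h1, if_false, if_neg h2]
          exact h12 q fun h3 => by
            by_contra h4
            exact h2 ⟨h3.1, h3.2, h4⟩
    show X (zg x η η1) x = X (zg x η η2) x
    rw [e]
  have twU : ∀ η, TwOk N y J D (fun η' S => u (zu η η') S) := fun η => by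
    refine ⟨fun S => (um S).comp (mzu η), fun η' S => ub _ _, fun η1 η2 S h12 => ?_⟩
    have e : zu η η1 = zu η η2 := by
      rw [hzu]
      funext q
      by_cases h1 : q ∈ B
      · simp only [h1, if_true]
      · by_cases h2 : 0 ≤ q.1 ∧ q.1.toNat ∈ J
        · simp only [h1, if_false, if_pos h2]
        · simp only [h1, if_false, if_neg h2]
          exact h12 q h2
    show u (zu η η1) S = u (zu η η2) S
    rw [e]
  have hwm : Measurable w := by
    have e : w = fun η S => lw μ s η N (Pn N y) S + u η S := by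
      funext η S
      exact hw η S
    rw [e]
    refine measurable_pi_lambda _ fun S => Measurable.add ?_ (um S)
    exact (measurable_pi_apply S).comp Pool.Agent.W_7d29a1_C0.Far34.meas_lw
  obtain ⟨I, hI⟩ : ∃ I : Env → (Fin (k + 1) → Px (Pn N y)) → ℝ,
    I = fun η x => if Real.exp (-(L : ℝ) ^ κ) ≤ mFarT μ s (w η) L δ t τ c d l x then 1 else 0 := ⟨_, rfl⟩
  have I0 : ∀ η x, 0 ≤ I η x := fun η x => by rw [hI]; beta_reduce; split_ifs <;> norm_num
  have I1 : ∀ η x, I η x ≤ 1 := fun η x => by rw [hI]; beta_reduce; split_ifs <;> norm_num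
  have mI : ∀ x, Measurable fun η => I η x := fun x => by
    rw [hI]
    exact Measurable.ite (measurableSet_le measurable_const (mFarT_meas hwm L δ t τ c d l x)) measurable_const measurable_const
  have mIX : ∀ x, Measurable fun η => I η x * X η x := fun x => (mI x).mul (mX x)
  have IX0 : ∀ η x, 0 ≤ I η x * X η x := fun η x => mul_nonneg (I0 _ x) (X0 _ _)
  have IX1 : ∀ η x, I η x * X η x ≤ 1 := fun η x => mul_le_one₀ (I1 _ x) (X0 _ _) (X1 _ _)
  have i1 : Integrable (fun η => I52.ev P (w η) (fun x => I η x * X η x)) (law μ) := int_evT hwm P mIX IX0 IX1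
  have i2 : Integrable (fun η => I52.ev P (w η) (X η)) (law μ) := int_evT hwm P mX X0 X1
  obtain ⟨e1, j1, _⟩ := integral_glue (μ := μ) B (meas_evT hwm P mIX) i1
  obtain ⟨e2, j2, _⟩ := integral_glue (μ := μ) B (meas_evT hwm P mX) i2
  have key : ∀ η, ∫ η', I52.ev P (w (gl η η')) (fun x => I (gl η η') x * X (gl η η') x) ∂(law μ) ≤
      (L : ℝ) ^ ε * (EE' μ s t)⁻¹ * ∫ η', I52.ev P (w (gl η η')) (X (gl η η')) ∂(law μ) +
        Real.exp (-(L : ℝ) ^ c') := fun η => by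
    obtain ⟨w', hw'⟩ : ∃ w' : Env → Px (Pn N y) → ℝ, w' = fun η' => w (gl η η') := ⟨_, rfl⟩
    have hw'2 : ∀ η' S, w' η' S = lw μ s η' N (Pn N y) S + u (zu η η') S := fun η' S => by
      rw [hw']
      show w (gl η η') S = _
      rw [hw, elw, eU]
    have h3 := h1 (fun η' S => u (zu η η') S) w' hD0 hD (twU η) hw'2
      (fun η' x => X (zg x η η') x) (fun x => (mX x).comp (mzg x η)) (fun η' x => X0 _ _) (fun η' x => X1 _ _) (offX η)
    have f1 : ∀ η', I52.ev P (w (gl η η')) (fun x => I (gl η η') x * X (gl η η') x) =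
        I52.ev P (w' η')
          (fun x => (if Real.exp (-(L : ℝ) ^ κ) ≤ mFarT μ s (w' η') L δ t τ c d l x then 1 else 0) * X (zg x η η') x) := fun η' => by
      have e : w (gl η η') = w' η' := by rw [hw']
      rw [e]
      refine I52.ev_congr P _ fun x => ?_
      rw [eX, hI]
      beta_reduce
      rw [e]
    have f2 : ∀ η', I52.ev P (w (gl η η')) (X (gl η η')) = I52.ev P (w' η') (fun x => X (zg x η η') x) := fun η' => by
      have e : w (gl η η') = w' η' := by rw [hw']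
      rw [e]
      exact I52.ev_congr P _ fun x => eX _ _ x
    simp only [f1, f2]
    exact h3
  have e1' : ∫ η, I52.ev P (w η) (fun x => I η x * X η x) ∂(law μ) =
      ∫ η, ∫ η', I52.ev P (w (gl η η')) (fun x => I (gl η η') x * X (gl η η') x) ∂(law μ) ∂(law μ) := by
    rw [e1, hgl]
  have e2' : ∫ η, I52.ev P (w η) (X η) ∂(law μ) =
      ∫ η, ∫ η', I52.ev P (w (gl η η')) (X (gl η η')) ∂(law μ) ∂(law μ) := by
    rw [e2, hgl]
  have j1' : Integrable (fun η => ∫ η', I52.ev P (w (gl η η')) (fun x => I (gl η η') x * X (gl η η') x) ∂(law μ)) (law μ) := by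
    rw [hgl]
    exact j1
  have j2' : Integrable (fun η => ∫ η', I52.ev P (w (gl η η')) (X (gl η η')) ∂(law μ)) (law μ) := by
    rw [hgl]
    exact j2
  have fin : ∫ η, I52.ev P (w η) (fun x => I η x * X η x) ∂(law μ) ≤
      (L : ℝ) ^ ε * (EE' μ s t)⁻¹ * ∫ η, I52.ev P (w η) (X η) ∂(law μ) + Real.exp (-(L : ℝ) ^ c') := by
    rw [e1', e2', ← integral_const_mul]
    have e3 : ∫ η : Env, ((L : ℝ) ^ ε * (EE' μ s t)⁻¹ * ∫ η', I52.ev P (w (gl η η')) (X (gl η η')) ∂(law μ) +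
        Real.exp (-(L : ℝ) ^ c')) ∂(law μ) =
        ∫ η, (L : ℝ) ^ ε * (EE' μ s t)⁻¹ * ∫ η', I52.ev P (w (gl η η')) (X (gl η η')) ∂(law μ) ∂(law μ) +
        Real.exp (-(L : ℝ) ^ c') := by
      rw [integral_add (j2'.const_mul _) (integrable_const _), integral_const]
      simp
    rw [← e3]
    exact integral_mono j1' ((j2'.const_mul _).add (integrable_const _)) key
  rw [hI] at fin
  exact fin

/-! ### The price of a new replica -/

open scoped Classical in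
/-- **The far price, at tilted weights, of a replica given an old one outside of a block, far from all old ones.** -/
theorem far_giT [IsProbabilityMeasure μ] {c₀ C₀ : ℝ} {n₀ : ℕ} (h : In μ s c₀ C₀ n₀) (k : ℕ) : ∀ ε θ : ℝ, 0 < ε → 0 < θ → ∃ δ κ c' : ℝ,
    0 < δ ∧ 0 < κ ∧ 0 < c' ∧ ∃ L₀ : ℕ, ∀ L : ℕ, L₀ ≤ L → ∀ N t : ℕ, L ≤ 16 * N → N ≤ L → (L : ℝ) ^ θ ≤ t → t ≤ N →
    ∀ y : ℕ, y ≤ N → |(y : ℝ) - sl μ s * N| ≤ ((L : ℝ) ^ δ * wd' μ s N) → ∀ P : Plan (Px (Pn N y)) (k + 1), BP N y P →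
    ∀ (rt : Bool) (τ c d : ℕ) (l : Fin (k + 1)), c ≤ d → d ≤ N →
    ∀ (D : ℝ) (u w : Env → Px (Pn N y) → ℝ), 0 ≤ D → D ≤ (L : ℝ) ^ κ → (∀ S, Measurable fun η => u η S) → (∀ η S, |u η S| ≤ D) →
    (∀ (η : Env) (q : Pt) (v : ℝ) (S : Px (Pn N y)), 0 ≤ q.1 → q.1.toNat ∈ rowsB rt N t τ ∩ Ioo c d → u (Function.update η q v) S = u η S) →
    (∀ η S, w η S = lw μ s η N (Pn N y) S + u η S) →
    ∀ (X : Env → (Fin (k + 1) → Px (Pn N y)) → ℝ), (∀ x, Measurable fun η => X η x) → (∀ η x, 0 ≤ X η x) → (∀ η x, X η x ≤ 1) →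
    BlV (rowsB rt N t τ ∩ Ioo c d) X →
    ∫ η, I52.ev (P.gi (pJ c d) l) (w η) (fun z => (if FarAt μ s L δ N t τ (pt z) then 1 else 0) * X η (Fin.tail z)) ∂(law μ) ≤
      (L : ℝ) ^ ε * (EE' μ s t)⁻¹ * ∫ η, I52.ev P (w η) (X η) ∂(law μ) + Real.exp (-(L : ℝ) ^ c') := by
  intro ε θ hε hθ
  obtain ⟨δ, κ, c₁, hδ, hκ, hc₁, L₁, h1⟩ := far_planTE h k ε θ hε hθ
  obtain ⟨c₂, hc₂, -, L₂, h2⟩ := Pool.Agent.W_7d29a1_Z.NumI77.pow_exp (lt_min hc₁ hκ) 1
  refine ⟨δ, κ, c₂, hδ, hκ, hc₂, L₁ + L₂ + 2, ?_⟩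
  intro L hL N t hLN hNL htL htN y hy hyc P hP rt τ c d l hcd hd D u w hD0 hD um ub uJ hw X mX X0 X1 hX
  have hpr : IsProbabilityMeasure (law μ) := by unfold law; infer_instance
  have hne : Nonempty (Px (Pn N y)) := ne_Pn hy
  have h3 := h1 L (by omega) N t hLN hNL htL htN y hy hyc P hP rt τ c d l hcd hd D u w hD0 hD um ub uJ hw X mX X0 X1 hX
  have hL1 : (1 : ℝ) ≤ L := by
    have : 1 ≤ L := by omega
    exact_mod_cast this
  have hL2 : (2 : ℝ) ≤ L := by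
    have : 2 ≤ L := by omega
    exact_mod_cast this
  have hwm : Measurable w := by
    have e : w = fun η S => lw μ s η N (Pn N y) S + u η S := by
      funext η S
      exact hw η S
    rw [e]
    refine measurable_pi_lambda _ fun S => Measurable.add ?_ (um S)
    exact (measurable_pi_apply S).comp Pool.Agent.W_7d29a1_C0.Far34.meas_lw
  -- the last replica
  have e : ∀ η, I52.ev (P.gi (pJ c d) l) (w η) (fun z => (if FarAt μ s L δ N t τ (pt z) then 1 else 0) * X η (Fin.tail z)) =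
      I52.ev P (w η) fun x => mFarT μ s (w η) L δ t τ c d l x * X η x := fun η => by
    unfold Plan.gi
    rw [I52.ev_cons]
    refine I52.ev_congr P _ fun x => ?_
    unfold mFarT
    rw [I52.cE_eq_av, mul_comm, ← I52.av_smul]
    refine congrArg (I52.av _ _) (funext fun v => ?_)
    rw [Fin.tail_cons, mul_comm]
  obtain ⟨I, hI⟩ : ∃ I : Env → (Fin (k + 1) → Px (Pn N y)) → ℝ,
    I = fun η x => if Real.exp (-(L : ℝ) ^ κ) ≤ mFarT μ s (w η) L δ t τ c d l x then 1 else 0 := ⟨_, rfl⟩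
  have I0 : ∀ η x, 0 ≤ I η x := fun η x => by rw [hI]; beta_reduce; split_ifs <;> norm_num
  have I1 : ∀ η x, I η x ≤ 1 := fun η x => by rw [hI]; beta_reduce; split_ifs <;> norm_num
  have mI : ∀ x, Measurable fun η => I η x := fun x => by
    rw [hI]
    exact Measurable.ite (measurableSet_le measurable_const (mFarT_meas hwm L δ t τ c d l x)) measurable_const measurable_const
  have mIX : ∀ x, Measurable fun η => I η x * X η x := fun x => (mI x).mul (mX x)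
  have i1 : Integrable (fun η => I52.ev P (w η) (fun x => I η x * X η x)) (law μ) :=
    int_evT hwm P mIX (fun η x => mul_nonneg (I0 _ x) (X0 _ _)) fun η x => mul_le_one₀ (I1 _ x) (X0 _ _) (X1 _ _)
  have mFX : ∀ x, Measurable fun η => mFarT μ s (w η) L δ t τ c d l x * X η x := fun x => (mFarT_meas hwm L δ t τ c d l x).mul (mX x)
  have i3 : Integrable (fun η => I52.ev P (w η) (fun x => mFarT μ s (w η) L δ t τ c d l x * X η x)) (law μ) :=
    int_evT hwm P mFX (fun η x => mul_nonneg (mFarT_nonneg (w η) L δ t τ c d l x) (X0 _ _))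
      fun η x => mul_le_one₀ (mFarT_le_one (w η) L δ t τ c d l x) (X0 _ _) (X1 _ _)
  have b1 : ∀ η, I52.ev P (w η) (fun x => mFarT μ s (w η) L δ t τ c d l x * X η x) ≤
      I52.ev P (w η) (fun x => I η x * X η x) + Real.exp (-(L : ℝ) ^ κ) := fun η => by
    rw [← I52.ev_const P (w η) (Real.exp (-(L : ℝ) ^ κ)), ← I52.ev_add]
    refine I52.ev_mono P _ fun x => ?_
    have hm0 := mFarT_nonneg (μ := μ) (s := s) (w η) L δ t τ c d l x
    have hm1 := mFarT_le_one (μ := μ) (s := s) (w η) L δ t τ c d l x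
    have hx0 := X0 η x
    have hx1 := X1 η x
    have he := (Real.exp_pos (-(L : ℝ) ^ κ)).le
    rw [hI]
    beta_reduce
    split_ifs with hc
    · nlinarith
    · have hc' := (not_le.1 hc).le
      nlinarith
  have b2 : ∫ η, I52.ev P (w η) (fun x => mFarT μ s (w η) L δ t τ c d l x * X η x) ∂(law μ) ≤
      ∫ η, I52.ev P (w η) (fun x => I η x * X η x) ∂(law μ) + Real.exp (-(L : ℝ) ^ κ) := by
    have e3 : ∫ η, (I52.ev P (w η) (fun x => I η x * X η x) + Real.exp (-(L : ℝ) ^ κ)) ∂(law μ) =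
        ∫ η, I52.ev P (w η) (fun x => I η x * X η x) ∂(law μ) + Real.exp (-(L : ℝ) ^ κ) := by
      rw [integral_add i1 (integrable_const _), integral_const]
      simp
    rw [← e3]
    exact integral_mono i3 (i1.add (integrable_const _)) b1
  have h4 : ∫ η, I52.ev P (w η) (fun x => I η x * X η x) ∂(law μ) ≤
      (L : ℝ) ^ ε * (EE' μ s t)⁻¹ * ∫ η, I52.ev P (w η) (X η) ∂(law μ) + Real.exp (-(L : ℝ) ^ c₁) := by
    rw [hI]
    exact h3
  have hfin : Real.exp (-(L : ℝ) ^ c₁) + Real.exp (-(L : ℝ) ^ κ) ≤ Real.exp (-(L : ℝ) ^ c₂) := by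
    have h5 := h2 L (by omega)
    rw [Real.rpow_one] at h5
    have h6 : Real.exp (-(L : ℝ) ^ c₁) ≤ Real.exp (-(L : ℝ) ^ (min c₁ κ)) :=
      Real.exp_le_exp.2 (neg_le_neg (Real.rpow_le_rpow_of_exponent_le hL1 (min_le_left _ _)))
    have h7 : Real.exp (-(L : ℝ) ^ κ) ≤ Real.exp (-(L : ℝ) ^ (min c₁ κ)) :=
      Real.exp_le_exp.2 (neg_le_neg (Real.rpow_le_rpow_of_exponent_le hL1 (min_le_right _ _)))
    have h8 := Real.exp_pos (-(L : ℝ) ^ (min c₁ κ))
    nlinarith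
  simp only [e]
  linarith

open scoped Classical in
/-- **The far price of a free replica at tilted weights, far from all old ones.** -/
theorem far_frT [IsProbabilityMeasure μ] {c₀ C₀ : ℝ} {n₀ : ℕ} (h : In μ s c₀ C₀ n₀) (k : ℕ) : ∀ ε θ : ℝ, 0 < ε → 0 < θ → ∃ δ κ c' : ℝ,
    0 < δ ∧ 0 < κ ∧ 0 < c' ∧ ∃ L₀ : ℕ, ∀ L : ℕ, L₀ ≤ L → ∀ N t : ℕ, L ≤ 16 * N → N ≤ L → (L : ℝ) ^ θ ≤ t → t ≤ N →
    ∀ (y : ℕ) (hy : y ≤ N), |(y : ℝ) - sl μ s * N| ≤ ((L : ℝ) ^ δ * wd' μ s N) → ∀ P : Plan (Px (Pn N y)) (k + 1), BP N y P →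
    ∀ (rt : Bool) (τ : ℕ)
    (D : ℝ) (u w : Env → Px (Pn N y) → ℝ), 0 ≤ D → D ≤ (L : ℝ) ^ κ → (∀ S, Measurable fun η => u η S) → (∀ η S, |u η S| ≤ D) →
    (∀ (η : Env) (q : Pt) (v : ℝ) (S : Px (Pn N y)), 0 ≤ q.1 → q.1.toNat ∈ rowsB rt N t τ → u (Function.update η q v) S = u η S) →
    (∀ η S, w η S = lw μ s η N (Pn N y) S + u η S) →
    ∀ (X : Env → (Fin (k + 1) → Px (Pn N y)) → ℝ), (∀ x, Measurable fun η => X η x) → (∀ η x, 0 ≤ X η x) → (∀ η x, X η x ≤ 1) →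
    BlV (rowsB rt N t τ) X →
    ∫ η, I52.ev P (w η) (fun x => gm (w η) fun v =>
      (if FarAt μ s L δ N t τ (pt (Fin.cons v x : Fin (k + 2) → Px (Pn N y))) then 1 else 0) * X η x) ∂(law μ) ≤
      (L : ℝ) ^ ε * (EE' μ s t)⁻¹ * ∫ η, I52.ev P (w η) (X η) ∂(law μ) + Real.exp (-(L : ℝ) ^ c') := by
  intro ε θ hε hθ
  obtain ⟨δ, κ, c', hδ, hκ, hc', L₀, h1⟩ := far_giT h k ε θ hε hθ
  refine ⟨δ, κ, c', hδ, hκ, hc', L₀, ?_⟩
  intro L hL N t hLN hNL htL htN y hy hyc P hP rt τ D u w hD0 hD um ub uJ hw X mX X0 X1 hX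
  have hne : Nonempty (Px (Pn N y)) := ne_Pn hy
  have h3 := h1 L hL N t hLN hNL htL htN y hy hyc P hP rt τ 0 N 0 (Nat.zero_le _) le_rfl D u w hD0 hD um ub
    (fun η q v S h1 h2 => uJ η q v S h1 (mem_inter.1 h2).1) hw X mX X0 X1 (hX.mono inter_subset_left)
  have e : ∀ η, I52.ev (P.gi (pJ 0 N) 0) (w η)
      (fun z => (if FarAt μ s L δ N t τ (pt z) then 1 else 0) * X η (Fin.tail z)) =
      I52.ev P (w η) (fun x => gm (w η) fun v =>
        (if FarAt μ s L δ N t τ (pt (Fin.cons v x : Fin (k + 2) → Px (Pn N y))) then 1 else 0) * X η x) := fun η => by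
    unfold Plan.gi
    rw [I52.ev_cons]
    refine I52.ev_congr P _ fun x => ?_
    have hu : (univ.filter fun s : Px (Pn N y) => pJ 0 N s = pJ 0 N (x 0)) = univ :=
      Finset.filter_true_of_mem fun s _ => pJ_full s (x 0)
    rw [hu, I52.gm_eq_av]
    refine congrArg (I52.av _ _) (funext fun v => ?_)
    rw [Fin.tail_cons]
  simp only [e] at h3
  exact h3

open scoped Classical in
/-- **The far price of the last replica of a block plan at tilted weights.** -/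
theorem far_lastT [IsProbabilityMeasure μ] {c₀ C₀ : ℝ} {n₀ : ℕ} (h : In μ s c₀ C₀ n₀) (k : ℕ) : ∀ ε θ : ℝ, 0 < ε → 0 < θ → ∃ δ κ c' : ℝ,
    0 < δ ∧ 0 < κ ∧ 0 < c' ∧ ∃ L₀ : ℕ, ∀ L : ℕ, L₀ ≤ L → ∀ N t : ℕ, L ≤ 16 * N → N ≤ L → (L : ℝ) ^ θ ≤ t → t ≤ N →
    ∀ y : ℕ, y ≤ N → |(y : ℝ) - sl μ s * N| ≤ ((L : ℝ) ^ δ * wd' μ s N) →
    ∀ (P : Plan (Px (Pn N y)) (k + 1)) (A : (Fin (k + 1) → Px (Pn N y)) → Finset (Px (Pn N y))) (hA : ∀ x, (A x).Nonempty),
    BP N y (Plan.cons P A hA) → ∀ (rt : Bool) (τ : ℕ)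
    (D : ℝ) (u w : Env → Px (Pn N y) → ℝ), 0 ≤ D → D ≤ (L : ℝ) ^ κ → (∀ S, Measurable fun η => u η S) → (∀ η S, |u η S| ≤ D) →
    (∀ (η : Env) (q : Pt) (v : ℝ) (S : Px (Pn N y)), 0 ≤ q.1 → q.1.toNat ∈ rowsB rt N t τ → u (Function.update η q v) S = u η S) →
    (∀ η S, w η S = lw μ s η N (Pn N y) S + u η S) →
    ∀ (X : Env → (Fin (k + 1) → Px (Pn N y)) → ℝ), (∀ x, Measurable fun η => X η x) → (∀ η x, 0 ≤ X η x) → (∀ η x, X η x ≤ 1) →
    BlV (rowsB rt N t τ) X →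
    ∫ η, I52.ev (Plan.cons P A hA) (w η)
      (fun z => (if FarAt μ s L δ N t τ (pt z) then 1 else 0) * X η (Fin.tail z)) ∂(law μ) ≤
      (L : ℝ) ^ ε * (EE' μ s t)⁻¹ * ∫ η, I52.ev P (w η) (X η) ∂(law μ) + Real.exp (-(L : ℝ) ^ c') := by
  intro ε θ hε hθ
  obtain ⟨δ, κ, c', hδ, hκ, hc', L₀, h1⟩ := far_giT h k ε θ hε hθ
  refine ⟨δ, κ, c', hδ, hκ, hc', L₀, ?_⟩
  intro L hL N t hLN hNL htL htN y hy hyc P A hA hP rt τ D u w hD0 hD um ub uJ hw X mX X0 X1 hX
  have hne : Nonempty (Px (Pn N y)) := ne_Pn hy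
  rcases hP.2 with h2 | ⟨c, d, i, hcd, hd, h2⟩
  · have h3 := h1 L hL N t hLN hNL htL htN y hy hyc P hP.1 rt τ 0 N 0 (Nat.zero_le _) le_rfl D u w hD0 hD um ub
      (fun η q v S h1 h2 => uJ η q v S h1 (mem_inter.1 h2).1) hw X mX X0 X1 (hX.mono inter_subset_left)
    have e : ∀ η, I52.ev (P.gi (pJ 0 N) 0) (w η)
        (fun z => (if FarAt μ s L δ N t τ (pt z) then 1 else 0) * X η (Fin.tail z)) =
        I52.ev (Plan.cons P A hA) (w η)
          (fun z => (if FarAt μ s L δ N t τ (pt z) then 1 else 0) * X η (Fin.tail z)) := fun η => by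
      unfold Plan.gi
      rw [I52.ev_cons, I52.ev_cons]
      refine I52.ev_congr P _ fun x => ?_
      have hu : (univ.filter fun s : Px (Pn N y) => pJ 0 N s = pJ 0 N (x 0)) = univ :=
        Finset.filter_true_of_mem fun s _ => pJ_full s (x 0)
      rw [hu, h2 x]
    simp only [e] at h3
    exact h3
  · have h3 := h1 L hL N t hLN hNL htL htN y hy hyc P hP.1 rt τ c d i hcd hd D u w hD0 hD um ub
      (fun η q v S h1 h2 => uJ η q v S h1 (mem_inter.1 h2).1) hw X mX X0 X1 (hX.mono inter_subset_left)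
    have e : ∀ η, I52.ev (P.gi (pJ c d) i) (w η)
        (fun z => (if FarAt μ s L δ N t τ (pt z) then 1 else 0) * X η (Fin.tail z)) =
        I52.ev (Plan.cons P A hA) (w η)
          (fun z => (if FarAt μ s L δ N t τ (pt z) then 1 else 0) * X η (Fin.tail z)) := fun η => by
      unfold Plan.gi
      rw [I52.ev_cons, I52.ev_cons]
      refine I52.ev_congr P _ fun x => ?_
      rw [h2 x]
    simp only [e] at h3
    exact h3

end

end Pool.Agent.W_7d29a1_C0.Ft46
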