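import Pool.Agent.W_7d29a1_C0.E2G34
import Pool.Agent.W_7d29a1_C0.FarT46

/-!
MP_7d29a1_pr, [CURV0] / [C0], section E2 (helper34): **THE FAR LINES OF E2**, part 3: the numbers. `farG34`: the price `FarG` from
`far_giT` of helper46, for every tilt which does not see the rows in front of its window (`uj_front34`: `uj72`). `foN34`: the far lines
with the boxes of all the own paths (part R near, both macro slabs of R and L): `FO` of helper59 at the tilted weights is at most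
`3 a K0 N ^ ε / EE' t` times the own line, up to `exp (- N ^ c')`.
-/

set_option autoImplicit false
set_option linter.unusedSectionVars false
set_option linter.unusedVariables false

namespace Pool.Agent.W_7d29a1_C0.E2F34

open Finset MeasureTheory Filter Topology Pool.Agent.W_7d29a1_F Pool.Agent.W_7d29a1_X Pool.Agent.W_7d29a1_H
open Pool.Agent.W_7d29a1_HS (In)
open Pool.Agent.W_7d29a1_HZ (wd' EE')
open Pool.Agent.W_7d29a1_C0 Pool.Agent.W_7d29a1_C0.Mod92 Pool.Agent.W_7d29a1_C0.Swap57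
open Pool.Agent.W_7d29a1_C0.F13
open Pool.Agent.W_7d29a1_C0.Far34 (nfl nfl_nonneg Fl vv Fl.diff str_of_fl steep34 vv_nonneg gm_tilt34 i1)
open Pool.Agent.W_7d29a1_C0.MicE14 (rh rh_nonneg mi)
open Pool.Agent.W_7d29a1_C0.T72 (uj72 abs_uj72)
open Pool.Agent.W_7d29a1_C0.CutE14 (P3)
open Pool.Agent.W_7d29a1_C0.E2F59 (FO)
open Pool.W7d29a1.C0
open Pool.W7d29a1.C0.VT31
open Pool.W7d29a1.C0.T73 (OutB bx Str OutB_sep not_OutB pm pm_nat pm_nonneg pm_le JZ mem_JZ)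
open Pool.W7d29a1.C0.C45 (wu meas_wu ut45)
open Pool.W7d29a1.C0.I52 (Plan ev ev_mono ev_nonneg ev_smul ev_add ev_congr ev_cons ev_nil gm_eq_av cE_eq_av)

noncomputable section

variable {μ : Measure ℝ} {s : ℝ} {N y : ℕ}

/-- The tilt does not see the rows in front of `i`. -/
def Fro (i : ℕ) (u : Finset ℕ → Env → Px (Pn N y) → ℝ) : Prop :=
  ∀ (A : Finset ℕ) (η : Env) (q : Pt) (v : ℝ) (S : Px (Pn N y)), 0 ≤ q.1 → q.1.toNat < i → u A (Function.update η q v) S = u A η S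

/-- The kick does not see the rows in front of its window. -/
theorem gj_front34 {η ζ : Env} {Q : Finset (Finset ℕ)} {b j : ℕ} (h : ∀ q : Pt, ((j - b : ℕ) : ℤ) < q.1 → ζ q = η q) (δ B : ℝ) (a : ℤ)
    (S : Px Q) : gj μ s ζ δ B b j a S = gj μ s η δ B b j a S := by
  have hW : ∀ (u : Pt) (n : ℕ) (z : ℤ), ((j - b : ℕ) : ℤ) ≤ u.1 → W μ s ζ u n z = W μ s η u n z := fun u n z hu =>
    Pool.Agent.W_7d29a1_HZ.Z74.W_rows s u n z fun q hq _ => h q (by omega)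
  have h1 : ∀ (x : ℤ) (k m : ℕ) (p q : ℤ), Pool.Agent.W_7d29a1_Z74.ZJ μ s ζ (((j - b : ℕ) : ℤ), x) k m p q =
      Pool.Agent.W_7d29a1_Z74.ZJ μ s η (((j - b : ℕ) : ℤ), x) k m p q := fun x k m p q => by
    unfold Pool.Agent.W_7d29a1_Z74.ZJ
    refine sum_congr rfl fun z _ => ?_
    rw [hW _ _ _ (by simp only; omega), hW _ _ _ (by simp only; omega)]
  unfold gj gw lk
  rw [h1, hW _ _ _ (by simp only; omega)]

theorem uj_front34 (δ B : ℝ) (b j : ℕ) (t : ℝ) : Fro (j - b + 1) (uj72 μ s (Pn N y) δ B b j t) := fun A η q v S h0 hq => by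
  unfold uj72
  rw [gj_front34 (η := η) (fun p hp => ?_)]
  refine Function.update_of_ne (fun h => ?_) _ _
  have h5 : ((q.1.toNat : ℕ) : ℤ) = q.1 := Int.toNat_of_nonneg h0
  have h6 : p.1 = q.1 := by rw [h]
  omega

open scoped Classical in
/-- **The far price at the tilted weights**, from `far_giT`. -/
theorem farG34 [IsProbabilityMeasure μ] {c₀ C₀ : ℝ} {n₀ : ℕ} (h : In μ s c₀ C₀ n₀) (k : ℕ) : ∀ ε θ : ℝ, 0 < ε → 0 < θ → ∃ δ κ c' : ℝ,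
    0 < δ ∧ 0 < κ ∧ 0 < c' ∧ ∃ N₀ : ℕ, ∀ N : ℕ, N₀ ≤ N → ∀ t : ℕ, (N : ℝ) ^ θ ≤ t → t ≤ N → ∀ y : ℕ, y ≤ N →
    |(y : ℝ) - sl μ s * N| ≤ ((N : ℝ) ^ δ * wd' μ s N) → ∀ P : Plan (Px (Pn N y)) (k + 1), BP N y P →
    ∀ (τ c d : ℕ) (l : Fin (k + 1)), c ≤ d → d ≤ N → ∀ (D : ℝ) (u : Finset ℕ → Env → Px (Pn N y) → ℝ), 0 ≤ D → D ≤ (N : ℝ) ^ κ →
    (∀ S, Measurable fun ω : Env × Finset ℕ => u ω.2 ω.1 S) → (∀ A η S, |u A η S| ≤ D) → Fro (τ + t / 4) u →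
    FarG μ s u δ t τ P c d l ((N : ℝ) ^ ε * (EE' μ s t)⁻¹) (Real.exp (-(N : ℝ) ^ c')) := by
  intro ε θ hε hθ
  obtain ⟨δ, κ, c', hδ, hκ, hc', L₀, h0⟩ := Ft46.far_giT h k ε θ hε hθ
  refine ⟨δ, κ, c', hδ, hκ, hc', L₀, fun N hN t htN ht y hy hyc P hP τ c d l hcd hd D u hD0 hD hum hu hfr A X mX X0 X1 hX => ?_⟩
  have hne : Nonempty (Px (Pn N y)) := ne_Pn hy
  have h1 := h0 N hN N t (by omega) le_rfl htN ht y hy hyc P hP false τ c d l hcd hd D (fun η => u A η)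
    (fun η => wu μ s N (Pn N y) u (η, A)) hD0 hD (fun S => T72.meas_fix (hum S) A) (fun η S => hu A η S)
    (fun η q v S q0 hq => hfr A η q v S q0 (by
      have h2 : q.1.toNat ∈ Ico 1 (τ + t / 4) := (mem_inter.1 hq).1
      exact (mem_Ico.1 h2).2)) (fun η S => rfl) X mX X0 X1 ((BlV.of_upd hX).mono inter_subset_left)
  have e : ∀ η, ev (P.gi (pJ c d) l) (wu μ s N (Pn N y) u (η, A))
      (fun z => (if FarAt μ s N δ N t τ (pt z) then 1 else 0) * X η (Fin.tail z)) =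
      ev P (wu μ s N (Pn N y) u (η, A)) (fun x => X η x * cE (wu μ s N (Pn N y) u (η, A)) (pJ c d) (fI μ s δ t τ x) (x l)) :=
    fun η => by
      have e1 := ev_gi34 P (wu μ s N (Pn N y) u (η, A)) (pJ c d) l fun x v => X η x * fI μ s δ t τ x v
      have e2 : ∀ z : Fin (k + 2) → Px (Pn N y), (if FarAt μ s N δ N t τ (pt z) then (1 : ℝ) else 0) * X η (Fin.tail z) =
          X η (Fin.tail z) * fI μ s δ t τ (Fin.tail z) (z 0) := fun z => by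
        unfold fI
        rw [Fin.cons_self_tail, mul_comm]
      rw [ev_congr _ _ e2, e1]
      exact ev_congr _ _ fun x => cE_mulc _ _ _ _ _
  simp only [e] at h1
  exact h1

theorem Fro.mono {i i' : ℕ} (h : i' ≤ i) {u : Finset ℕ → Env → Px (Pn N y) → ℝ} (hu : Fro i u) : Fro i' u :=
  fun A η q v S h0 hq => hu A η q v S h0 (by omega)

/-! ### The slabs -/

/-- **A slab and its tubes**, seen from the row `τ + t / 4`: radius `R`, key row `k0`, slack `W` = the fluctuation over `H` rows. -/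
structure Slab34 (μ : Measure ℝ) (s : ℝ) (N : ℕ) (ε2 : ℝ) (t τ : ℕ) (J : Finset ℕ) (R W : ℝ) (k0 L H n : ℕ) : Prop where
  R1 : 1 ≤ R
  RL : ∀ k, 1 ≤ k → k ≤ L → vv μ s N ε2 k ≤ R
  JN : ∀ i ∈ J, i ≤ N
  kN : k0 ≤ N
  kn : k0 ≤ n
  JL : ∀ i ∈ J, i - k0 ≤ L ∧ k0 - i ≤ L
  WH : ∀ k, k ≤ H → 2 * vv μ s N ε2 k ≤ W
  iN : τ + t / 4 ≤ N
  JH : ∀ r ∈ J, r ≤ τ + t / 4 + H ∧ τ + t / 4 ≤ r + H
  Rt : wd' μ s t + W ≤ R

variable {ε2 R W : ℝ} {t τ k0 L H n : ℕ} {J : Finset ℕ}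

/-- The clauses of the tubes. -/
structure Tube34 (μ : Measure ℝ) (s : ℝ) {N y : ℕ} (R : ℝ) (k0 n : ℕ) (J : Finset ℕ) {T : Type*} {k : ℕ} (b : Px (Pn N y) → T)
    (pr : T → Fin (n + 1)) (o : (Fin k → T) → Px (Pn N y) → ℝ) : Prop where
  bx : ∀ S, pr (b S) = bx pm R (k0 : ℤ) n S
  o0 : ∀ β S, 0 ≤ o β S
  ou : ∀ β S, o β S ≤ i1 (OutB pm (sl μ s) R (k0 : ℤ) (JZ J) (fun m => pr (β m)) S)

section Tu

variable {T : Type*} {k : ℕ} {b : Px (Pn N y) → T} {pr : T → Fin (n + 1)}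

theorem Tube34.far {o : (Fin (k + 1) → T) → Px (Pn N y) → ℝ} (hT : Tube34 μ s R k0 n J b pr o) (hS : Slab34 μ s N ε2 t τ J R W k0 L H n)
    {δ : ℝ} (hδ : 0 ≤ δ) (hN : 1 ≤ N) (x : Fin (k + 1) → Px (Pn N y)) (z : Px (Pn N y)) : o (fun i => b (x i)) z ≤
      fI μ s δ t τ x z + (∑ m, nfl N (sl μ s) (vv μ s N ε2) (x m) + nfl N (sl μ s) (vv μ s N ε2) z) := by
  refine (hT.ou _ _).trans ?_
  have e : (fun m => pr (b (x m))) = fun m => T73.bx pm R (k0 : ℤ) n (x m) := funext fun m => hT.bx _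
  rw [e]
  exact far_tube34 hδ hN hS.R1 hS.RL (vv_nonneg _ _) hS.JN hS.kN hS.JL hS.kn hS.WH hS.iN hS.JH hS.Rt x z

theorem Tube34.own {o : (Fin k → T) → Px (Pn N y) → ℝ} (hT : Tube34 μ s R k0 n J b pr o) (hS : Slab34 μ s N ε2 t τ J R W k0 L H n)
    (x : Fin k → Px (Pn N y)) (m : Fin k) : o (fun i => b (x i)) (x m) ≤ nfl N (sl μ s) (vv μ s N ε2) (x m) := by
  refine (hT.ou _ _).trans ?_
  have e : (fun m => pr (b (x m))) = fun m => T73.bx pm R (k0 : ℤ) n (x m) := funext fun m => hT.bx _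
  rw [e]
  exact own_tube34 hS.R1 hS.RL hS.JN hS.kN hS.JL hS.kn x m

end Tu

/-- **THE FAR LINES, BOXES OF ALL THE OWN PATHS IN THE KEY** (part R near, the macro slabs of both parts), with the numbers. -/
theorem foN34 [IsProbabilityMeasure μ] {c₀ C₀ : ℝ} {n₀ : ℕ} (h : In μ s c₀ C₀ n₀) : ∀ ε θ ε2 : ℝ, 0 < ε → 0 < θ → 0 < ε2 →
    ∃ δ κ c' : ℝ, 0 < δ ∧ 0 < κ ∧ 0 < c' ∧ ∃ N₀ : ℕ, ∀ N : ℕ, N₀ ≤ N → ∀ y : ℕ, y ≤ N →
    |(y : ℝ) - sl μ s * N| ≤ ((N : ℝ) ^ δ * wd' μ s N) → ∀ [Nonempty (Px (Pn N y))] (t τ c d : ℕ), (N : ℝ) ^ θ ≤ t → t ≤ N → c ≤ d → d ≤ N →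
    ∀ (D : ℝ) (u : Finset ℕ → Env → Px (Pn N y) → ℝ), 0 ≤ D → D ≤ (N : ℝ) ^ κ →
    (∀ S, Measurable fun ω : Env × Finset ℕ => u ω.2 ω.1 S) → (∀ A η S, |u A η S| ≤ D) → Fro (τ + t / 4) u →
    ∀ (d0 z cc : ℕ) (F : ℝ) (f : Env × Finset ℕ → Px (Pn N y) → ℝ), Sf d0 F f → 0 < F → τ + t / 4 ≤ d0 + 1 →
    ∀ (I : Px (Pn N y) → Px (Pn N y) → ℝ), (∀ S S', 0 ≤ I S S') → (∀ S S', I S S' ≤ 1) →
    ∀ (J : Finset ℕ) (R W : ℝ) (k0 L H n : ℕ), Slab34 μ s N ε2 t τ J R W k0 L H n →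
    ∀ (T : Type) (b : Px (Pn N y) → T) (pr : T → Fin (n + 1)) (o : (Fin 3 → T) → Px (Pn N y) → ℝ), Tube34 μ s R k0 n J b pr o →
    ∀ (Ψ : Env × Finset ℕ → (Fin 3 → Px (Pn N y)) → ℝ) (K0 a : ℝ), 0 ≤ K0 → 0 ≤ a →
    (∀ ω x, |Ψ ω x| ≤ K0 * (I (x 2) (x 1) * rh z cc (f ω) (x 2) (x 0))) →
    ∫ ω, FO (wu μ s N (Pn N y) u ω) (pJ c d) b o (Ψ ω) a ∂(Pm μ N) ≤
      K0 * (3 * a * ((N : ℝ) ^ ε * (EE' μ s t)⁻¹) * ∫ ω, PP (wu μ s N (Pn N y) u ω) (fun x x' =>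
        mi (wu μ s N (Pn N y) u ω) (pJ c d) I x * rh z cc (f ω) x x') ∂(Pm μ N) +
        2 * F * ((3 + 15 * a) * Real.exp (2 * D - (N : ℝ) ^ c'))) := by
  intro ε θ ε2 hε hθ hε2
  obtain ⟨δ, κ, c₁, hδ, hκ, hc₁, N₁, h1⟩ := farG34 h 2 ε θ hε hθ
  obtain ⟨δ₂, c₂, hδ₂, hc₂, N₂, h2⟩ := steepU34 h hε2
  refine ⟨min δ δ₂, κ, min c₁ c₂, lt_min hδ hδ₂, hκ, lt_min hc₁ hc₂, max (max N₁ N₂) 1, fun N hN y hy hyc _ t τ c d htN ht hcd hd D u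
    hD0 hD hum hu hfr d0 z cc F f hf hF hτ I I0 I1 J R W k0 L H n hS T b pr o hT Ψ K0 a hK ha hΨ => ?_⟩
  have k1 : N₁ ≤ N := (le_max_left _ _).trans ((le_max_left _ _).trans hN)
  have k2 : N₂ ≤ N := (le_max_right _ _).trans ((le_max_left _ _).trans hN)
  have k3 : 1 ≤ N := (le_max_right _ _).trans hN
  have hNR : (1 : ℝ) ≤ N := by exact_mod_cast k3
  have cone : ∀ e, min δ δ₂ ≤ e → |(y : ℝ) - sl μ s * N| ≤ ((N : ℝ) ^ e * wd' μ s N) := fun e he =>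
    hyc.trans (mul_le_mul_of_nonneg_right (Real.rpow_le_rpow_of_exponent_le hNR he) (wd'_nonneg34 _))
  have ex1 : ∀ a, min c₁ c₂ ≤ a → Real.exp (-(N : ℝ) ^ a) ≤ Real.exp (-(N : ℝ) ^ (min c₁ c₂)) := fun a ha' =>
    Real.exp_le_exp.2 (neg_le_neg (Real.rpow_le_rpow_of_exponent_le hNR ha'))
  have hP := bp_P3 (N := N) (y := y) hcd hd
  have g1 := h1 N k1 t htN ht y hy (cone _ (min_le_left _ _)) _ hP τ 0 N 0 (Nat.zero_le _) le_rfl D u hD0 hD hum hu hfr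
  have g2 := h1 N k1 t htN ht y hy (cone _ (min_le_left _ _)) _ hP τ c d 2 hcd hd D u hD0 hD hum hu hfr
  have st := h2 N k2 y hy (cone _ (min_le_right _ _)) D u hum hu
  have key := fo34 hcd hd g1 g2 hum I0 I1 hf hF hτ hT.o0 (nfl_nonneg N _ _) (nfl_le_one N _ _) (fun x i => hT.own hS x i)
    (fun x v => hT.far hS hδ.le k3 x v) st hK hΨ ha
  refine key.trans (mul_le_mul_of_nonneg_left (add_le_add le_rfl (mul_le_mul_of_nonneg_left ?_ (by positivity))) hK)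
  have e1 : Real.exp (2 * D - (N : ℝ) ^ c₂) ≤ Real.exp (2 * D - (N : ℝ) ^ (min c₁ c₂)) := by
    refine Real.exp_le_exp.2 ?_
    have := Real.rpow_le_rpow_of_exponent_le hNR (min_le_right c₁ c₂)
    linarith
  have e2 : Real.exp (-(N : ℝ) ^ c₁) ≤ Real.exp (2 * D - (N : ℝ) ^ (min c₁ c₂)) := by
    refine Real.exp_le_exp.2 ?_
    have := Real.rpow_le_rpow_of_exponent_le hNR (min_le_left c₁ c₂)
    linarith
  have e3 := mul_le_mul_of_nonneg_left e1 (by positivity : 0 ≤ 3 + 12 * a)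
  have e4 := mul_le_mul_of_nonneg_left e2 (by positivity : 0 ≤ 3 * a)
  linarith

end

end Pool.Agent.W_7d29a1_C0.E2F34
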