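import Pool.Agent.W_7d29a1_C0.E2A43
import Pool.Agent.W_7d29a1_C0.E2H34

/-!
MP_7d29a1_pr, [CURV0] (helper43), section E2: THE FAR LINES OF (E2) AT THE CONCRETE FRAME. `FarAll43`: the price `foN34` of helper34 for all
the kicked rows of the frame, loss `n ^ ι`, errors `L ^ (-9)`; `farall43_est`; `slab43`: the slabs of `foN34` from the widths `Wid43`.
-/

set_option autoImplicit false
set_option linter.unusedSectionVars false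
set_option linter.unusedVariables false

namespace Pool.Agent.W_7d29a1_C0.E2FR43

open Finset MeasureTheory Filter Topology
open Pool.Agent.W_7d29a1_F Pool.Agent.W_7d29a1_X
open Pool.Agent.W_7d29a1_H (sl EE)
open Pool.Agent.W_7d29a1_HS (In)
open Pool.Agent.W_7d29a1_HZ (wd' EE')
open Pool.Agent.W_7d29a1_C0 Pool.Agent.W_7d29a1_C0.Mod92 Pool.Agent.W_7d29a1_C0.Swap57
open Pool.Agent.W_7d29a1_C0.Asm96 Pool.Agent.W_7d29a1_C0.EstC46 Pool.Agent.W_7d29a1_C0.Frm33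
open Pool.Agent.W_7d29a1_C0.E2K43 Pool.Agent.W_7d29a1_C0.E2W43 Pool.Agent.W_7d29a1_C0.E2A43
open Pool.Agent.W_7d29a1_C0.Far34 (vv i1)
open Pool.Agent.W_7d29a1_C0.E2F34
open Pool.Agent.W_7d29a1_C0.MicE14 (rh rh_nonneg mi)
open Pool.Agent.W_7d29a1_C0.T72 (uj72 abs_uj72 meas_uj72)
open Pool.Agent.W_7d29a1_C0.E2F59 (FO)
open Pool.Agent.W_7d29a1_C0.EvT50 (ev_pw50 ev_exp50)
open Pool.Agent.W_7d29a1_C0.Par92 (Est Sml)
open Pool.W7d29a1.C0 Pool.W7d29a1.C0.VT31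
open Pool.W7d29a1.C0.C45 (wu)

noncomputable section

variable {μ : Measure ℝ} {s : ℝ}

/-- **THE FAR LINES AT ONE LENGTH.** -/
def FarAll43 (μ : Measure ℝ) (s : ℝ) (K : ℕ) (δ ι β γ : ℝ) (m : ℕ) : Prop :=
  ∀ y ∈ ys33 μ s K m, ∀ [Nonempty (Px (Pn (L33 K m) y))] (t τ c d : ℕ), ((2 ^ m : ℕ) : ℝ) ^ (δ / 2) ≤ t → t ≤ L33 K m → c ≤ d →
    d ≤ L33 K m → ∀ (b0 j : ℕ) (u : ℝ), |u| ≤ 1 → τ + t / 4 ≤ j - b0 + 1 →
    ∀ (d0 z cc : ℕ) (F : ℝ) (f : Env × Finset ℕ → Px (Pn (L33 K m) y) → ℝ), Sf d0 F f → 0 < F → τ + t / 4 ≤ d0 + 1 →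
    ∀ (I : Px (Pn (L33 K m) y) → Px (Pn (L33 K m) y) → ℝ), (∀ S S', 0 ≤ I S S') → (∀ S S', I S S' ≤ 1) →
    ∀ (J : Finset ℕ) (R W : ℝ) (k0 L H n : ℕ), Slab34 μ s (L33 K m) (ι / K) t τ J R W k0 L H n →
    ∀ (T : Type) (b : Px (Pn (L33 K m) y) → T) (pr : T → Fin (n + 1)) (o : (Fin 3 → T) → Px (Pn (L33 K m) y) → ℝ),
    Tube34 μ s R k0 n J b pr o →
    ∀ (Ψ : Env × Finset ℕ → (Fin 3 → Px (Pn (L33 K m) y)) → ℝ) (K0 a : ℝ), 0 ≤ K0 → 0 ≤ a →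
    (∀ ω x, |Ψ ω x| ≤ K0 * (I (x 2) (x 1) * rh z cc (f ω) (x 2) (x 0))) →
    ∫ ω, FO (wj μ s (L33 K m) (Pn (L33 K m) y) γ (B33 β m) b0 j ω u) (pJ c d) b o (Ψ ω) a ∂(Pm μ (L33 K m)) ≤
      K0 * (3 * a * (((2 ^ m : ℕ) : ℝ) ^ ι * (EE' μ s t)⁻¹) * ∫ ω, PP (wj μ s (L33 K m) (Pn (L33 K m) y) γ (B33 β m) b0 j ω u)
        (fun x x' => mi (wj μ s (L33 K m) (Pn (L33 K m) y) γ (B33 β m) b0 j ω u) (pJ c d) I x * rh z cc (f ω) x x') ∂(Pm μ (L33 K m)) +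
        2 * F * ((3 + 15 * a) * ((L33 K m : ℕ) : ℝ) ^ (-9 : ℝ)))

/-- **THE FAR LINES AT THE CONCRETE FRAME.** -/
theorem farall43_est [IsProbabilityMeasure μ] {c₁ C : ℝ} {n₀ : ℕ} (h : In μ s c₁ C n₀) {K : ℕ} (hK : 32 ≤ K) {δ : ℝ} (hδ : 0 < δ) :
    Est fun ι β γ m => FarAll43 μ s K δ ι β γ m := by
  have hK0 : (0 : ℝ) < K := by
    have : (32 : ℝ) ≤ K := by exact_mod_cast hK
    linarith
  refine ⟨1, one_pos, fun ι hι _ => ?_⟩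
  obtain ⟨δp, κ, c', hδp, hκ, hc', N₀, H⟩ := foN34 h (ι / K) (δ / (2 * K)) (ι / K) (by positivity) (by positivity) (by positivity)
  obtain ⟨κ', hκ'⟩ : ∃ x : ℝ, x = min κ (c' / 2) := ⟨_, rfl⟩
  have hκ'0 : 0 < κ' := by
    rw [hκ']
    exact lt_min hκ (by positivity)
  refine ⟨κ', hκ'0, fun β hβ hβ' => Sml.of fun γ _ => ?_⟩
  have evA : ∀ᶠ N : ℕ in atTop, Real.exp (-(1 / 2 * (N : ℝ) ^ c')) ≤ (N : ℝ) ^ (-9 : ℝ) ∧ 4 * (N : ℝ) ^ κ' ≤ (N : ℝ) ^ c' ∧ 2 ≤ N := by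
    have hlt : κ' < c' := by
      have : κ' ≤ c' / 2 := by rw [hκ']; exact min_le_right _ _
      linarith
    filter_upwards [ev_exp50 1 9 (a := 1 / 2) (by norm_num) hc', ev_pw50 hlt 4, eventually_ge_atTop 2] with N h1 h2 h3
    rw [one_mul] at h1
    exact ⟨h1, h2, h3⟩
  obtain ⟨N₁, hN₁⟩ := eventually_atTop.1 evA
  filter_upwards [ev_L (by omega : 1 ≤ K) (max N₀ N₁), cone33 h hK hδp] with m h1 h2
  intro y hy _ t τ c d ht htL hcd hd b0 j u hu hτ d0 z cc F f hf hF hτ0 I I0 I1 J R W k0 L Hh n hS T b pr o hT Ψ K0 a hK0' ha hΨ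
  obtain ⟨a1, a2, a3⟩ := hN₁ (L33 K m) ((le_max_right _ _).trans h1)
  have hn1 := n_ge1 m
  have hL1 : (1 : ℝ) ≤ ((L33 K m : ℕ) : ℝ) := by exact_mod_cast (by omega : 1 ≤ L33 K m)
  have hys := mem_Ico.1 (show y ∈ Ico (y33 μ s K m) (y33 μ s K m + M33 m) from hy)
  obtain ⟨hyL, hyc⟩ := h2.2.2 y (by omega) (by omega)
  have hB0 : 0 ≤ B33 β m := by
    unfold B33
    positivity
  have hBL : B33 β m ≤ ((L33 K m : ℕ) : ℝ) ^ κ' := by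
    unfold B33
    rw [L33_pow]
    refine Real.rpow_le_rpow_of_exponent_le hn1 ?_
    have : (1 : ℝ) ≤ K := by
      have : (32 : ℝ) ≤ K := by exact_mod_cast hK
      linarith
    nlinarith
  have e1 : ((L33 K m : ℕ) : ℝ) ^ (δ / (2 * K)) = ((2 ^ m : ℕ) : ℝ) ^ (δ / 2) := by
    rw [← L_pow43 (by omega : 1 ≤ K) m (δ / 2)]
    congr 1
    field_simp
  have key := H (L33 K m) ((le_max_left _ _).trans h1) y hyL hyc t τ c d (by rw [e1]; exact ht) htL hcd hd (B33 β m)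
    (uj72 μ s (Pn (L33 K m) y) γ (B33 β m) b0 j u) hB0
    (hBL.trans (Real.rpow_le_rpow_of_exponent_le hL1 (by rw [hκ']; exact min_le_left _ _))) (meas_uj72 γ (B33 β m) b0 j u)
    (fun A η S => abs_uj72 hB0 b0 j hu A η S) ((uj_front34 γ (B33 β m) b0 j u).mono hτ) d0 z cc F f hf hF hτ0 I I0 I1 J R W k0 L Hh n hS
    T b pr o hT Ψ K0 a hK0' ha hΨ
  have ew : ∀ ω : Env × Finset ℕ, wu μ s (L33 K m) (Pn (L33 K m) y) (uj72 μ s (Pn (L33 K m) y) γ (B33 β m) b0 j u) ω =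
      wj μ s (L33 K m) (Pn (L33 K m) y) γ (B33 β m) b0 j ω u := fun ω => E2C96.wv_eq (N := L33 K m) ω
  simp only [ew] at key
  refine key.trans (mul_le_mul_of_nonneg_left (add_le_add (le_of_eq ?_) (mul_le_mul_of_nonneg_left (mul_le_mul_of_nonneg_left ?_ ?_) ?_)) hK0')
  · rw [L_pow43 (by omega : 1 ≤ K)]
  · have e2 : 2 * B33 β m - ((L33 K m : ℕ) : ℝ) ^ c' ≤ -(1 / 2 * ((L33 K m : ℕ) : ℝ) ^ c') := by linarith
    exact (Real.exp_le_exp.2 e2).trans a1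
  · positivity
  · positivity

/-- **The slabs of the far lines from the widths**, the far row `j - b0`. -/
theorem slab43 {K : ℕ} {ι θ0 : ℝ} {m : ℕ} {len card : ℕ} {R : ℝ} (hW : Wid43 μ s (L33 K m) (ι / K) θ0 len card R) {t i0 k0 : ℕ} {J : Finset ℕ}
    (ht1 : 1 ≤ t) (ht : t ≤ len) (hi : t / 4 ≤ i0) (hiL : i0 ≤ L33 K m) (hk : k0 ≤ L33 K m) (hJ : ∀ i ∈ J, i ≤ L33 K m)
    (hJk : ∀ i ∈ J, i - k0 ≤ len ∧ k0 - i ≤ len) (hJi : ∀ i ∈ J, i ≤ i0 + len ∧ i0 ≤ i + len) :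
    Slab34 μ s (L33 K m) (ι / K) t (i0 - t / 4) J R (R / 2) k0 len len (L33 K m) where
  R1 := hW.one
  RL := hW.vv
  JN := hJ
  kN := hk
  kn := hk
  JL := hJk
  WH := hW.hw
  iN := by omega
  JH r hr := by
    have := hJi r hr
    omega
  Rt := by
    have := hW.ht t ht1 ht
    linarith

/-- The tubes of `E2A43`. -/
theorem tube43 {N y : ℕ} {R : ℝ} {k0 : ℕ} {J : Finset ℕ} : Tube34 μ s R k0 N J (bx43 N y R k0) id (o43 μ s N y R k0 J) where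
  bx S := rfl
  o0 β S := by
    unfold o43
    split_ifs <;> norm_num
  ou β S := by
    unfold o43 i1
    exact le_of_eq (by congr)

end

end Pool.Agent.W_7d29a1_C0.E2FR43
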