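import Pool.Agent.W_7d29a1_C0.E2FR43

/-!
MP_7d29a1_pr, [CURV0] (helper43), section E2: THE FAR LINES OF PART R AT THE CONCRETE FRAME: `farN43` (near slabs, key row `j + b / 2`),
`farM43` (macro slab, key row `d - 2 gl`): a factor times the own functional.
-/

set_option autoImplicit false
set_option linter.unusedSectionVars false
set_option linter.unusedVariables false

namespace Pool.Agent.W_7d29a1_C0.E2FS43

open Finset MeasureTheory Filter Topology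
open Pool.Agent.W_7d29a1_F Pool.Agent.W_7d29a1_X
open Pool.Agent.W_7d29a1_H (sl EE)
open Pool.Agent.W_7d29a1_HS (In)
open Pool.Agent.W_7d29a1_HZ (wd' EE')
open Pool.Agent.W_7d29a1_C0 Pool.Agent.W_7d29a1_C0.Mod92 Pool.Agent.W_7d29a1_C0.Swap57 Pool.Agent.W_7d29a1_C0.NM82
open Pool.Agent.W_7d29a1_C0.Asm96 Pool.Agent.W_7d29a1_C0.EstC46 Pool.Agent.W_7d29a1_C0.Frm33
open Pool.Agent.W_7d29a1_C0.E2G43 Pool.Agent.W_7d29a1_C0.E2K43 Pool.Agent.W_7d29a1_C0.E2W43 Pool.Agent.W_7d29a1_C0.E2A43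
open Pool.Agent.W_7d29a1_C0.E2FR43 Pool.Agent.W_7d29a1_C0.E2D96 Pool.Agent.W_7d29a1_C0.E2J43
open Pool.Agent.W_7d29a1_C0.E2F34
open Pool.W7d29a1.C0 Pool.W7d29a1.C0.VT31

noncomputable section

variable {μ : Measure ℝ} {s : ℝ} {K : ℕ} {δ ι β γ θ0 K0 : ℝ} {m p q : ℕ} {b0 σ gl c d j y : ℕ} {u D : ℝ}

/-- The own clause and the far row: the common part of the two lines. -/
theorem farR43 (hF : FarAll43 μ s K δ ι β γ m) (hy : y ∈ ys33 μ s K m) [Nonempty (Px (Pn (L33 K m) y))] {b : ℕ}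
    (X : G43 (L33 K m) b0 b σ gl d j) (hu : |u| ≤ 1) {f : Fam (L33 K m)} (hf : Cls59 (L33 K m) c d D f) (hD : 0 < D) {R : ℝ} {len card : ℕ}
    (hW : Wid43 μ s (L33 K m) (ι / K) θ0 len card R) {t k0 : ℕ} {J : Finset ℕ} (ht0 : ((2 ^ m : ℕ) : ℝ) ^ (δ / 2) ≤ t) (ht1 : 1 ≤ t)
    (ht : t ≤ len) (htj : t / 4 ≤ j - b0) (htL : t ≤ L33 K m) (hk : k0 ≤ L33 K m) (hJ : ∀ i ∈ J, i ≤ L33 K m)
    (hJk : ∀ i ∈ J, i - k0 ≤ len ∧ k0 - i ≤ len) (hJi : ∀ i ∈ J, i ≤ j - b0 + len ∧ j - b0 ≤ i + len) {a : ℝ} (ha : 0 ≤ a) :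
    ∫ ω, E2R59.OF μ s (L33 K m) γ (B33 β m) b0 (b / 2) b σ j (d - gl) d f u y (bx43 (L33 K m) y R k0) (o43 μ s (L33 K m) y R k0 J) a ω
        ∂(Pm μ (L33 K m)) ≤
      2 * (B33 β m / 2) * (B33 β m / 2) * (3 * a * (((2 ^ m : ℕ) : ℝ) ^ ι * (EE' μ s t)⁻¹) *
        mO μ s (L33 K m) y γ (B33 β m) b0 b σ gl d j u f + 2 * D * ((3 + 15 * a) * ((L33 K m : ℕ) : ℝ) ^ (-9 : ℝ))) := by
  have g0 := X.rng
  obtain ⟨h1, h2, h3, h4, h5⟩ := X.b8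
  have hB0 : 0 ≤ B33 β m := by
    unfold B33
    positivity
  have hS := slab43 hW (i0 := j - b0) (k0 := k0) (J := J) ht1 ht htj (by omega) hk hJ hJk hJi
  exact hF y hy t (j - b0 - t / 4) (j / σ * σ) ((j / σ + 1) * σ) ht0 htL (Nat.mul_le_mul_right _ (Nat.le_succ _)) (by omega) b0 j u hu (by omega)
    d (d - gl) d D (f y) (Sf.of_cls hf y) hD (by omega) (NI (j + b / 2) (j + b)) (fun S S' => NI_nonneg _ _ _ _)
    (fun S S' => E2Q59.NI_le_one _ _ _ _) J R (R / 2) k0 len len (L33 K m) hS _ _ id _ tube43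
    (fun ω => CutG59.pR μ s (L33 K m) γ (B33 β m) b0 (b / 2) b j (d - gl) d f y ω) (2 * (B33 β m / 2) * (B33 β m / 2)) a (by positivity) ha
    fun ω x => E2R59.bdp_R59 hB0 ω x

/-- **THE NEAR FAR LINES OF PART R**: key row `j + b / 2`, the slabs `nR1`, `nR2`; the price `n ^ ι / EE' b`. -/
theorem farN43 (hF : FarAll43 μ s K δ ι β γ m) (hy : y ∈ ys33 μ s K m) [Nonempty (Px (Pn (L33 K m) y))]
    (W : Bx43 μ s K θ0 K0 ι β m p q) (X : G43 (L33 K m) b0 (2 ^ p) σ gl d j) (hu : |u| ≤ 1) {f : Fam (L33 K m)}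
    (hf : Cls59 (L33 K m) c d D f) (hD : 0 < D) (ht0 : ((2 ^ m : ℕ) : ℝ) ^ (δ / 2) ≤ ((2 ^ p : ℕ) : ℝ)) {a : ℝ} (ha : 0 ≤ a) :
    ∫ ω, E2R59.OF μ s (L33 K m) γ (B33 β m) b0 (2 ^ p / 2) (2 ^ p) σ j (d - gl) d f u y
        (bx43 (L33 K m) y (rW43 μ s (L33 K m) (ι / K) K0 (2 * 2 ^ p)) (j + 2 ^ p / 2))
        (o43 μ s (L33 K m) y (rW43 μ s (L33 K m) (ι / K) K0 (2 * 2 ^ p)) (j + 2 ^ p / 2) (nR1 (2 ^ p) j ∪ nR2 (2 ^ p) j)) a ω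
        ∂(Pm μ (L33 K m)) ≤
      2 * (B33 β m / 2) * (B33 β m / 2) * (3 * a * (((2 ^ m : ℕ) : ℝ) ^ ι * (EE' μ s (2 ^ p))⁻¹) *
        mO μ s (L33 K m) y γ (B33 β m) b0 (2 ^ p) σ gl d j u f + 2 * D * ((3 + 15 * a) * ((L33 K m : ℕ) : ℝ) ^ (-9 : ℝ))) := by
  have hW := W.near
  obtain ⟨b, hb⟩ : ∃ b : ℕ, b = 2 ^ p := ⟨_, rfl⟩
  rw [← hb] at hW X ht0 ⊢
  have g0 := X.rng
  obtain ⟨h1, h2, h3, h4, h5⟩ := X.b8
  have g1 := X.bp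
  have hmem : ∀ i ∈ nR1 b j ∪ nR2 b j, j < i ∧ i ≤ j + b / 2 := fun i hi => by
    rcases mem_union.1 hi with h | h
    · have := X.mem_R1 h
      omega
    · have := X.mem_R2 h
      omega
  exact farR43 hF hy X hu hf hD hW ht0 (by omega) (by omega) (by omega) (by omega) (by omega)
    (fun i hi => by have := hmem i hi; omega) (fun i hi => by have := hmem i hi; omega) (fun i hi => by have := hmem i hi; omega) ha

/-- **THE MACRO FAR LINE OF PART R**: key row `d - 2 gl`, the slab `mc4`; the price `n ^ ι / EE' gl`. -/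
theorem farM43 (hF : FarAll43 μ s K δ ι β γ m) (hy : y ∈ ys33 μ s K m) [Nonempty (Px (Pn (L33 K m) y))]
    (W : Bx43 μ s K θ0 K0 ι β m p q) {b : ℕ} (X : G43 (L33 K m) b0 b σ (gl46 ι m q) d j) (hdj : d ≤ j - b0 + 2 ^ q)
    (hu : |u| ≤ 1) {f : Fam (L33 K m)}
    (hf : Cls59 (L33 K m) c d D f) (hD : 0 < D) (ht0 : ((2 ^ m : ℕ) : ℝ) ^ (δ / 2) ≤ (gl46 ι m q : ℝ)) (hgq : 8 * gl46 ι m q ≤ 2 ^ q)
    {a : ℝ} (ha : 0 ≤ a) :
    ∫ ω, E2R59.OF μ s (L33 K m) γ (B33 β m) b0 (b / 2) b σ j (d - gl46 ι m q) d f u y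
        (bx43 (L33 K m) y (rW43 μ s (L33 K m) (ι / K) K0 (2 ^ q)) (d - 2 * gl46 ι m q))
        (o43 μ s (L33 K m) y (rW43 μ s (L33 K m) (ι / K) K0 (2 ^ q)) (d - 2 * gl46 ι m q) (mc4 (gl46 ι m q) d)) a ω
        ∂(Pm μ (L33 K m)) ≤
      2 * (B33 β m / 2) * (B33 β m / 2) * (3 * a * (((2 ^ m : ℕ) : ℝ) ^ ι * (EE' μ s (gl46 ι m q))⁻¹) *
        mO μ s (L33 K m) y γ (B33 β m) b0 b σ (gl46 ι m q) d j u f + 2 * D * ((3 + 15 * a) * ((L33 K m : ℕ) : ℝ) ^ (-9 : ℝ))) := by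
  have hW := W.mac
  obtain ⟨g, hg⟩ : ∃ g : ℕ, g = gl46 ι m q := ⟨_, rfl⟩
  obtain ⟨r, hr⟩ : ∃ r : ℕ, r = 2 ^ q := ⟨_, rfl⟩
  rw [← hg] at hW X ht0 hgq ⊢
  rw [← hr] at hW hdj hgq ⊢
  have g0 := X.rng
  obtain ⟨h1, h2, h3, h4, h5⟩ := X.b8
  have g1 := X.bp
  have g2 := X.glp
  have hmem : ∀ i ∈ mc4 g d, d - 3 * g < i ∧ i ≤ d - 2 * g ∧ j + b + g ≤ i := fun i hi => by
    have := X.mem_4 hi
    omega
  exact farR43 hF hy X hu hf hD hW ht0 (by omega) (by omega) (by omega) (by omega) (by omega)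
    (fun i hi => by have := hmem i hi; omega) (fun i hi => by have := hmem i hi; omega) (fun i hi => by have := hmem i hi; omega) ha

end

end Pool.Agent.W_7d29a1_C0.E2FS43
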