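import Pool.Agent.W_7d29a1_C0.E2F34

/-!
MP_7d29a1_pr, [CURV0] / [C0], section E2 (helper34): **THE FAR LINES OF E2**, part 2: geometry of the tubes. `far_tube34`: a path which
leaves at a row of the slab `J` the tubes (radius `R`) of the boxes of all the paths `x` is far from all of them at the row
`τ + t / 4`, if the slab is at a distance at most `H` from it and `R` beats the fluctuation over `H` rows; `own_tube34`: a flat path is
in its own tube. `foT34`: `FO` for tubes.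
-/

set_option autoImplicit false
set_option linter.unusedSectionVars false
set_option linter.unusedVariables false

namespace Pool.Agent.W_7d29a1_C0.E2F34

open Finset MeasureTheory Filter Topology Pool.Agent.W_7d29a1_F Pool.Agent.W_7d29a1_X Pool.Agent.W_7d29a1_H
open Pool.Agent.W_7d29a1_HS (In)
open Pool.Agent.W_7d29a1_HZ (wd' EE')
open Pool.Agent.W_7d29a1_C0 Pool.Agent.W_7d29a1_C0.Mod92 Pool.Agent.W_7d29a1_C0.Swap57
open Pool.Agent.W_7d29a1_C0.F13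
open Pool.Agent.W_7d29a1_C0.Far34 (nfl nfl_nonneg Fl vv Fl.diff str_of_fl steep34 vv_nonneg gm_tilt34)
open Pool.Agent.W_7d29a1_C0.MicE14 (rh rh_nonneg mi)
open Pool.W7d29a1.C0
open Pool.W7d29a1.C0.VT31
open Pool.W7d29a1.C0.T73 (OutB bx Str OutB_sep not_OutB pm pm_nat pm_nonneg pm_le JZ mem_JZ)
open Pool.W7d29a1.C0.Fld19 (wU Past.zero)
open Pool.W7d29a1.C0.C45 (wu meas_wu ut45)
open Pool.W7d29a1.C0.H7 (meas_evP)
open Pool.W7d29a1.C0.I52 (Plan ev ev_mono ev_nonneg ev_smul ev_add ev_congr ev_cons ev_nil gm_eq_av cE_eq_av)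

noncomputable section

variable {μ : Measure ℝ} {s : ℝ} {N y : ℕ}

theorem nfl_le_one (N : ℕ) {Q : Finset (Finset ℕ)} (σ : ℝ) (v : ℕ → ℝ) (S : Px Q) : nfl N σ v S ≤ 1 := by
  unfold nfl
  split_ifs <;> norm_num

/-- A distance of two flat paths, seen from another row. -/
theorem dist_move {Q : Finset (Finset ℕ)} {σ : ℝ} {v : ℕ → ℝ} (hv : 0 ≤ v 0) {S T : Px Q} (hS : Fl N σ v S) (hT : Fl N σ v T) {H : ℕ}
    {W : ℝ} (hW : ∀ k, k ≤ H → 2 * v k ≤ W) {i r : ℕ} (hi : i ≤ N) (hr : r ≤ N) (h1 : r ≤ i + H) (h2 : i ≤ r + H) :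
    |((ps S r - ps T r : ℤ) : ℝ)| ≤ |((ps S i - ps T i : ℤ) : ℝ)| + W := by
  rcases Nat.le_total i r with h | h
  · have h3 := Fl.diff hv hS hT h hr
    have h4 := hW (r - i) (by omega)
    have h5 := abs_sub_abs_le_abs_sub ((ps S r - ps T r : ℤ) : ℝ) ((ps S i - ps T i : ℤ) : ℝ)
    linarith
  · have h3 := Fl.diff hv hS hT h hi
    have h4 := hW (i - r) (by omega)
    rw [abs_sub_comm] at h3
    have h5 := abs_sub_abs_le_abs_sub ((ps S r - ps T r : ℤ) : ℝ) ((ps S i - ps T i : ℤ) : ℝ)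
    linarith

/-- The far event from the distances at the row `τ + t / 4`. -/
theorem farAt34 {δ : ℝ} (hδ : 0 ≤ δ) (hN : 1 ≤ N) {t τ k : ℕ} (hi : τ + t / 4 ≤ N) {x : Fin (k + 1) → Px (Pn N y)} {v : Px (Pn N y)}
    (h : ∀ m, (N : ℝ) ^ (-δ) * wd' μ s t ≤ |((ps v (τ + t / 4) - ps (x m) (τ + t / 4) : ℤ) : ℝ)|) :
    FarAt μ s N δ N t τ (pt (Fin.cons v x : Fin (k + 2) → Px (Pn N y))) := by
  refine ⟨τ + t / 4, by omega, le_rfl, hi, fun m => ?_⟩
  have h1 := h m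
  rw [← Int.cast_abs] at h1
  exact h1

theorem wd'_nonneg34 (t : ℕ) : 0 ≤ wd' μ s t := zero_le_one.trans (le_max_left _ _)

/-- The scale of the far event. -/
theorem thr34 {δ : ℝ} (hδ : 0 ≤ δ) (hN : 1 ≤ N) (t : ℕ) : (N : ℝ) ^ (-δ) * wd' μ s t ≤ wd' μ s t := by
  have hNR : (1 : ℝ) ≤ N := by exact_mod_cast hN
  exact mul_le_of_le_one_left (wd'_nonneg34 t) (Real.rpow_le_one_of_one_le_of_nonpos hNR (by linarith))

section Tube

variable {k : ℕ} {σ R W δ : ℝ} {v : ℕ → ℝ} {L k0 n : ℕ} {J : Finset ℕ} {t τ H : ℕ}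

/-- **The tubes**: a flat path out of the tubes of the boxes of the flat paths `x` is at a distance at least `R - W` from all of them at
the row `i`. -/
theorem out_sep34 (hR1 : 1 ≤ R) (hR : ∀ k, 1 ≤ k → k ≤ L → v k ≤ R) (hv : 0 ≤ v 0) (hJN : ∀ i ∈ J, i ≤ N) (hk : k0 ≤ N)
    (hJ : ∀ i ∈ J, i - k0 ≤ L ∧ k0 - i ≤ L) (hn : k0 ≤ n) (hW : ∀ k, k ≤ H → 2 * v k ≤ W) {i : ℕ} (hi : i ≤ N)
    (hJH : ∀ r ∈ J, r ≤ i + H ∧ i ≤ r + H) {x : Fin k → Px (Pn N y)} {z : Px (Pn N y)} (hx : ∀ m, Fl N σ v (x m)) (hz : Fl N σ v z)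
    (ho : OutB pm σ R (k0 : ℤ) (JZ J) (fun m => bx pm R (k0 : ℤ) n (x m)) z) (m : Fin k) :
    R - W ≤ |((ps z i - ps (x m) i : ℤ) : ℝ)| := by
  obtain ⟨r', hr', h3⟩ := OutB_sep hR1 (fun m => pm_nonneg (x m) _) (fun m => pm_le (x m) (by exact_mod_cast hn))
    (fun m => str_of_fl (S := x m) (hx m) (by linarith) hR hJN hk hJ) ho
  obtain ⟨r, hr, rfl⟩ := mem_JZ.1 hr'
  have h4 := (h3 m).le
  rw [pm_nat, pm_nat] at h4
  have h5 := dist_move hv hz (hx m) hW hi (hJN r hr) (hJH r hr).1 (hJH r hr).2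
  linarith

/-- **The far event for tubes.** -/
theorem far_tube34 (hδ : 0 ≤ δ) (hN : 1 ≤ N) (hR1 : 1 ≤ R) (hR : ∀ k, 1 ≤ k → k ≤ L → v k ≤ R) (hv : 0 ≤ v 0) (hJN : ∀ i ∈ J, i ≤ N)
    (hk : k0 ≤ N) (hJ : ∀ i ∈ J, i - k0 ≤ L ∧ k0 - i ≤ L) (hn : k0 ≤ n) (hW : ∀ k, k ≤ H → 2 * v k ≤ W) (hi : τ + t / 4 ≤ N)
    (hJH : ∀ r ∈ J, r ≤ τ + t / 4 + H ∧ τ + t / 4 ≤ r + H) (hRt : wd' μ s t + W ≤ R) (x : Fin (k + 1) → Px (Pn N y))
    (z : Px (Pn N y)) : Far34.i1 (OutB pm σ R (k0 : ℤ) (JZ J) (fun m => bx pm R (k0 : ℤ) n (x m)) z) ≤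
      fI μ s δ t τ x z + (∑ m, nfl N σ v (x m) + nfl N σ v z) := by
  have n0 : ∀ S : Px (Pn N y), 0 ≤ nfl N σ v S := nfl_nonneg N σ v
  have hsum : 0 ≤ ∑ m, nfl N σ v (x m) := Finset.sum_nonneg fun m _ => n0 _
  refine Far34.i1_le (add_nonneg (fI_nonneg _ _) (add_nonneg hsum (n0 _))) fun ho => ?_
  by_cases hz : Fl N σ v z
  · by_cases hx : ∀ m, Fl N σ v (x m)
    · have h1 := fun m => out_sep34 hR1 hR hv hJN hk hJ hn hW hi hJH hx hz ho m
      have h2 : FarAt μ s N δ N t τ (pt (Fin.cons z x : Fin (k + 2) → Px (Pn N y))) := farAt34 hδ hN hi fun m =>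
        (thr34 hδ hN t).trans (le_trans (by linarith) (h1 m))
      have h3 : fI μ s δ t τ x z = 1 := if_pos h2
      have := n0 z
      linarith
    · push Not at hx
      obtain ⟨m, hm⟩ := hx
      have h1 : nfl N σ v (x m) = 1 := if_neg hm
      have h2 : nfl N σ v (x m) ≤ ∑ m, nfl N σ v (x m) := Finset.single_le_sum (fun i _ => n0 (x i)) (Finset.mem_univ m)
      have h3 := fI_nonneg (μ := μ) (s := s) (δ := δ) (t := t) (τ := τ) x z
      have := n0 z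
      linarith
  · have h1 : nfl N σ v z = 1 := if_neg hz
    have h3 := fI_nonneg (μ := μ) (s := s) (δ := δ) (t := t) (τ := τ) x z
    linarith

/-- A flat path is in its own tube. -/
theorem own_tube34 (hR1 : 1 ≤ R) (hR : ∀ k, 1 ≤ k → k ≤ L → v k ≤ R) (hJN : ∀ i ∈ J, i ≤ N) (hk : k0 ≤ N)
    (hJ : ∀ i ∈ J, i - k0 ≤ L ∧ k0 - i ≤ L) (hn : k0 ≤ n) (x : Fin k → Px (Pn N y)) (m : Fin k) :
    Far34.i1 (OutB pm σ R (k0 : ℤ) (JZ J) (fun m => bx pm R (k0 : ℤ) n (x m)) (x m)) ≤ nfl N σ v (x m) :=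
  Far34.i1_le (nfl_nonneg N σ v _) fun ho => by
    by_cases hf : Fl N σ v (x m)
    · exact absurd ho (not_OutB hR1 (pm_nonneg _ _) (pm_le _ (by exact_mod_cast hn)) (i := m) rfl
        (str_of_fl hf (by linarith) hR hJN hk hJ))
    · unfold nfl
      rw [if_neg hf]

end Tube

/-! ### The steep paths at the tilted weights -/

theorem int_Pm_le34 [IsProbabilityMeasure μ] {Φ : Env × Finset ℕ → ℝ} (hm : ∀ A, Measurable fun η => Φ (η, A)) {M : ℝ}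
    (hb : ∀ ω, |Φ ω| ≤ M) {E : ℝ} (h : ∀ A, ∫ η, Φ (η, A) ∂(law μ) ≤ E) : ∫ ω, Φ ω ∂(Pm μ N) ≤ E := by
  have h1 := pm_lin (μ := μ) (N := N) (Φ := Φ) (Φ' := fun _ => 0) hm (fun _ => measurable_const) hb
    (fun ω => by rw [abs_zero]; exact (abs_nonneg _).trans (hb ω)) (G := 0) (E := E) fun A => by
      rw [zero_mul, zero_add]
      exact h A
  rwa [zero_mul, zero_add] at h1

/-- **The steep paths** at any tilt which is at most `D`. -/
theorem steepU34 [IsProbabilityMeasure μ] {c₀ C₀ : ℝ} {n₀ : ℕ} (h : In μ s c₀ C₀ n₀) {ε : ℝ} (hε : 0 < ε) :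
    ∃ δ' c' : ℝ, 0 < δ' ∧ 0 < c' ∧ ∃ N₀ : ℕ, ∀ N : ℕ, N₀ ≤ N → ∀ y : ℕ, y ≤ N →
      |(y : ℝ) - sl μ s * N| ≤ ((N : ℝ) ^ δ' * wd' μ s N) → ∀ (D : ℝ)
      (u : Finset ℕ → Env → Px (Pn N y) → ℝ), (∀ S, Measurable fun ω : Env × Finset ℕ => u ω.2 ω.1 S) → (∀ A η S, |u A η S| ≤ D) →
      ∫ ω, gm (wu μ s N (Pn N y) u ω) (nfl N (sl μ s) (vv μ s N ε)) ∂(Pm μ N) ≤ Real.exp (2 * D - (N : ℝ) ^ c') := by
  obtain ⟨δ', c', hδ', hc', N₀, h0⟩ := steep34 h hε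
  refine ⟨δ', c', hδ', hc', N₀, fun N hN y hy hyc D u hum hu => ?_⟩
  have hne : Nonempty (Px (Pn N y)) := ne_Pn hy
  have hP : H7.Pok μ s N δ' (Pn N y) := Or.inr ⟨y, hy, hyc, rfl⟩
  have n0 : ∀ S : Px (Pn N y), 0 ≤ nfl N (sl μ s) (vv μ s N ε) S := nfl_nonneg _ _ _
  have gm01 : ∀ w : Px (Pn N y) → ℝ, 0 ≤ gm w (nfl N (sl μ s) (vv μ s N ε)) ∧ gm w (nfl N (sl μ s) (vv μ s N ε)) ≤ 1 := fun w =>
    ⟨gm_nonneg _ n0, (gm_mono _ (g := fun _ => 1) (nfl_le_one N _ _)).trans (gm_const _ _).le⟩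
  have hw0 : ∀ η : Env, wU μ s N (Pn N y) (fun _ _ => 0) η = lw μ s η N (Pn N y) := fun η => by
    funext S
    show lw μ s η N (Pn N y) S + 0 = _
    rw [add_zero]
  have h1 := h0 N hN (Pn N y) hP 0 0 (fun _ _ => 0) (Past.zero 0) fun η S => by rw [abs_zero]
  simp only [hw0, mul_zero, zero_sub] at h1
  have hm : Measurable fun η => gm (lw μ s η N (Pn N y)) (nfl N (sl μ s) (vv μ s N ε)) := by
    have h2 := Far34.meas_gm_wU (μ := μ) (s := s) (N := N) (P := Pn N y) (Past.zero 0) (nfl N (sl μ s) (vv μ s N ε))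
    simp only [hw0] at h2
    exact h2
  have mw : ∀ S, Measurable fun ω : Env × Finset ℕ => wu μ s N (Pn N y) u ω S := meas_wu hum
  have mg : Measurable fun ω : Env × Finset ℕ => gm (wu μ s N (Pn N y) u ω) (nfl N (sl μ s) (vv μ s N ε)) :=
    meas_gm mw fun S => measurable_const
  refine int_Pm_le34 (fun A => ?_) (M := 1) (fun ω => ?_) fun A => ?_
  · exact T72.meas_fix mg A
  · rw [abs_of_nonneg (gm01 _).1]
    exact (gm01 _).2
  · have i1 : Integrable (fun η => gm (wu μ s N (Pn N y) u (η, A)) (nfl N (sl μ s) (vv μ s N ε))) (law μ) :=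
      Integrable.of_bound (T72.meas_fix mg A).aestronglyMeasurable 1
        (Filter.Eventually.of_forall fun η => by
          rw [Real.norm_eq_abs, abs_of_nonneg (gm01 _).1]
          exact (gm01 _).2)
    have i2 : Integrable (fun η => gm (lw μ s η N (Pn N y)) (nfl N (sl μ s) (vv μ s N ε))) (law μ) :=
      Integrable.of_bound hm.aestronglyMeasurable 1 (Filter.Eventually.of_forall fun η => by
          rw [Real.norm_eq_abs, abs_of_nonneg (gm01 _).1]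
          exact (gm01 _).2)
    have h3 : ∫ η, gm (wu μ s N (Pn N y) u (η, A)) (nfl N (sl μ s) (vv μ s N ε)) ∂(law μ) ≤
        Real.exp (2 * D) * ∫ η, gm (lw μ s η N (Pn N y)) (nfl N (sl μ s) (vv μ s N ε)) ∂(law μ) := by
      rw [← integral_const_mul]
      refine integral_mono i1 (i2.const_mul _) fun η => gm_tilt34 (fun S => ?_) n0
      show |lw μ s η N (Pn N y) S + u A η S - lw μ s η N (Pn N y) S| ≤ D
      rw [add_sub_cancel_left]
      exact hu A η S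
    refine h3.trans ((mul_le_mul_of_nonneg_left h1 (Real.exp_pos _).le).trans (le_of_eq ?_))
    rw [← Real.exp_add]
    rfl

end

end Pool.Agent.W_7d29a1_C0.E2F34
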