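import Pool.Agent.W_7d29a1_C0.E2FL96
import Pool.Agent.W_7d29a1_C0.E2KL45

/-!
MP_7d29a1_pr, [CURV0] / [C0], leaf E2, part L (helper96): **THE DATA OF A ROW OF PART L AT THE CONCRETE FRAME**: `dl96_cst`, from the
constants `Cst43` (helper43), `CstL45` (helper45), the geometry `G43` and a covariant spectator.
-/

set_option autoImplicit false
set_option linter.unusedSectionVars false
set_option linter.unusedVariables false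

namespace Pool.Agent.W_7d29a1_C0.E2DL96

open Finset MeasureTheory Filter Topology Pool.Agent.W_7d29a1_F Pool.Agent.W_7d29a1_X Pool.Agent.W_7d29a1_C0.Mod92
open Pool.Agent.W_7d29a1_C0.Swap57 Pool.Agent.W_7d29a1_C0.Blk18 Pool.Agent.W_7d29a1_C0.NM82 Pool.Agent.W_7d29a1_C0
open Pool.Agent.W_7d29a1_C0.E2G43 Pool.Agent.W_7d29a1_C0.Frm33 Pool.Agent.W_7d29a1_C0.Asm96 Pool.Agent.W_7d29a1_C0.EstC46
open Pool.Agent.W_7d29a1_C0.DgL96 Pool.Agent.W_7d29a1_C0.E2K43 Pool.Agent.W_7d29a1_C0.E2KL45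
open Pool.Agent.W_7d29a1_C0.Flip61 (Cov1)
open Pool.W7d29a1.C0
open Pool.W7d29a1.C0.VT31
open Pool.W7d29a1.C0.R43
open Pool.W7d29a1.C0.C45

noncomputable section

variable {μ : Measure ℝ} {s : ℝ} {K : ℕ} {δ ι β γ : ℝ} {m : ℕ} {εM κ M e : ℝ} {k : ℕ} {εL : ℝ}

/-- **THE DATA OF A ROW OF PART L AT THE CONCRETE FRAME.** -/
theorem dl96_cst (hK : 1 ≤ K) (C : Cst43 μ s K δ ι β γ m εM κ M e k) (CL : CstL45 μ s K δ ι β γ m εL M) (hι : 0 ≤ ι) (hι1 : ι ≤ 1)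
    (hys : ∀ y ∈ ys33 μ s K m, y ≤ L33 K m) {p : ℕ} (hp : δ * m ≤ p) (hpm : p ≤ m) {σ gl c d j l : ℕ}
    (X : G43 (L33 K m) (2 ^ (p - ⌈ι * (m : ℝ)⌉₊)) (2 ^ p) σ gl d j) {t : ℝ} (ht : t ∈ Set.Icc (-1 : ℝ) 1)
    (hl : 3 * k * (l + 1) ≤ 2 ^ (p - ⌈ι * (m : ℝ)⌉₊)) {D : ℝ} {f : Fam (L33 K m)} (hf : Cls59 (L33 K m) c d D f)
    (hD0 : 0 ≤ D) (hD : D ≤ ((2 ^ m : ℕ) : ℝ) ^ 3) {cf : ℕ → ℝ} {D' : ℝ}
    (hcv : Cov1 (L33 K m) (2 ^ (p - ⌈ι * (m : ℝ)⌉₊)) j (fun y ω S => f y ω S - cf y) D') {dl : ℝ} (hdl : 0 < dl) (hdl1 : dl ≤ 1) :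
    Dl96 μ s (L33 K m) (ys33 μ s K m) γ (B33 β m) (2 ^ (p - ⌈ι * (m : ℝ)⌉₊)) (2 ^ p) σ gl c d j t (ι / K) εL 14 M D dl
      (2 * D * (((2 ^ m : ℕ) : ℝ) ^ 5)⁻¹) l l k f := by
  obtain ⟨h1, h2, h3, h4, h5⟩ := X.b8
  have g0 := X.rng
  have hL : ((2 ^ m : ℕ) : ℝ) ≤ ((L33 K m : ℕ) : ℝ) := by exact_mod_cast L33_ge hK m
  have ht1 := abs_le.2 ht
  have hj : 2 ^ (p - ⌈ι * (m : ℝ)⌉₊) ≤ j := by omega
  have hjN : j + 2 ^ (p - ⌈ι * (m : ℝ)⌉₊) ≤ L33 K m := by omega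
  have hF0 : 0 ≤ 2 * D := by linarith
  have hF : ∀ y ω S S', |f y ω S - f y ω S'| ≤ 2 * D := fun y ω S S' => by
    have a1 := abs_le.1 (hf.bdd y ω S)
    have a2 := abs_le.1 (hf.bdd y ω S')
    exact abs_le.2 ⟨by linarith [a1.1, a2.2], by linarith [a1.2, a2.1]⟩
  have hz : j + 2 ^ (p - ⌈ι * (m : ℝ)⌉₊) ≤ d - gl := by omega
  have hK1 : 2 ^ p / 16 ≤ L33 K m := by omega
  refine dl96_at X hys (fun y hy => CL.rl p hp y hy j hj t ht1 _ _ le_rfl h5 (by omega)) CL.Me CL.N64 CL.B0 CL.BN hdl.le hdl1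
    (div_nonneg hι (Nat.cast_nonneg _)) ?_ C.q1 C.q2 hl hf hD0 (hD.trans (pow_le_pow_left₀ (by positivity) hL 3))
    ⟨fun c1 d1 c2 d2 cw dw wl al a1 a2 a3 a4 a5 a6 a7 => ?_, fun c1 d1 c2 d2 cq dq cw dw wl al a1 a2 a3 a4 a5 a6 a7 a8 a9 => ?_,
      fun cw dw wl al cq dq i k a1 a2 a3 a4 a5 a6 => ?_⟩
  · have : (1 : ℝ) ≤ K := by exact_mod_cast hK
    rw [div_le_one (by linarith)]
    linarith
  · exact CL.fN p hp hpm j hj hjN t ht1 dl hdl _ _ le_rfl hK1 f cf D' _ hcv hF0 hF _ _ hz c1 d1 c2 d2 a1 a2 a3 a4 cw dw wl al a5 a6 a7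
  · exact CL.fT p hp hpm j hj hjN t ht1 dl hdl _ _ le_rfl hK1 f cf D' _ hcv hF0 hF _ _ hz c1 d1 c2 d2 a1 a2 a3 a4 cq dq cw dw wl al
      a5 a6 a7 a8 a9
  · exact CL.fD p hp hpm j hj hjN t ht1 dl hdl _ _ le_rfl hK1 f cf D' _ hcv hF0 hF _ _ hz cw dw wl al a1 a2 a3 cq dq i k a4 a5 a6

end

end Pool.Agent.W_7d29a1_C0.E2DL96
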