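import Pool.Agent.W_7d29a1_C0.E2D96L

/-!
MP_7d29a1_pr, [CURV0] / [C0], leaf E2, part L (helper96): **THE BARE TIE OF A ROW OF PART L**: `Dl96.bar` (the bare tie of the spectator at
the tilted weights against the list), `Dl96.rowLB` = `Dl96.rowL` with the bare line.
-/

set_option autoImplicit false
set_option linter.unusedSectionVars false
set_option linter.unusedVariables false

namespace Pool.Agent.W_7d29a1_C0.E2DL96

open Finset MeasureTheory Filter Topology Pool.Agent.W_7d29a1_F Pool.Agent.W_7d29a1_X Pool.Agent.W_7d29a1_C0.Mod92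
open Pool.Agent.W_7d29a1_C0.Swap57 Pool.Agent.W_7d29a1_C0.Blk18 Pool.Agent.W_7d29a1_C0.NM82
open Pool.Agent.W_7d29a1_C0.MicE14 (rh rh_nonneg nn mi)
open Pool.Agent.W_7d29a1_C0.T72 (Sp72 Rb72 ind72 ind72_nonneg ind72_le_one meas_ind72 uj72 abs_uj72 meas_uj72 sp72_of_cls)
open Pool.Agent.W_7d29a1_C0.E2T96
open Pool.Agent.W_7d29a1_C0.MicN96
open Pool.Agent.W_7d29a1_C0.E2C96
open Pool.Agent.W_7d29a1_C0.E2CL45
open Pool.Agent.W_7d29a1_C0.E2CT45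
open Pool.Agent.W_7d29a1_C0.DgL96
open Pool.Agent.W_7d29a1_C0.E2D96 (qU outC)
open Pool.Agent.W_7d29a1_C0.E2G43
open Pool.W7d29a1.C0
open Pool.W7d29a1.C0 (gz gm gm_nonneg gm_mono gm_const PP PP_nonneg PP_mono PP_smul)
open Pool.W7d29a1.C0.VT31
open Pool.W7d29a1.C0.R43
open Pool.W7d29a1.C0.C45

noncomputable section

variable {μ : Measure ℝ} {s : ℝ} {N : ℕ} [IsProbabilityMeasure μ] {ys : Finset ℕ} {γ B : ℝ} {b0 b σ gl c d j : ℕ} {t : ℝ}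
  {ε εM K' M D δ e0 : ℝ} {l lo q : ℕ} {f : Fam N}

namespace Dl96

/-- The bare tie at one end. -/
theorem bar1 (Z : Dl96 μ s N ys γ B b0 b σ gl c d j t ε εM K' M D δ e0 l lo q f) {y : ℕ} (hy : y ∈ ys) [Nonempty (Px (Pn N y))] :
    ∫ ω, PP (wj μ s N (Pn N y) γ B b0 j ω t) (fun x x' => rh (d - gl) d (f y ω) x x') ∂(Pm μ N) ≤
      (N : ℝ) ^ ε * rw96 μ s N (qU N gl d) f y + er96 N K' := by
  obtain ⟨g1, g2, g3, g4, g5, g6, g7, g8, g9, g10, g11, g12, g13, g14, g15, g16, g17, g18, g19, g20, g21, g22, g23, g24, g25, g26⟩ :=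
    geoL96 Z.X
  have h := outC (zt := d - gl) (Z.R y hy).toRw96 (show j + b0 + b / 16 ≤ d - gl by omega) g5 le_rfl (Z.sp y hy) Z.hD
    Z.hf.meas Z.hf.bdd (Z.hys y hy)
  simp only [wv_eq] at h
  exact h

/-- **THE BARE TIE, IN THE MEAN OVER THE ENDS.** -/
theorem bar (Z : Dl96 μ s N ys γ B b0 b σ gl c d j t ε εM K' M D δ e0 l lo q f) :
    avy ys (fun y => ∫ ω, PP (wj μ s N (Pn N y) γ B b0 j ω t) (fun x x' => rh (d - gl) d (f y ω) x x') ∂(Pm μ N)) ≤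
      (N : ℝ) ^ ε * avy ys (rw96 μ s N (qU N gl d) f) + 6 * N ^ 2 * er96 N K' := by
  have hN := Z.hN
  have her : 0 ≤ er96 N K' := by unfold er96; positivity
  have h1 := avy_mono (ys := ys) fun y hy => by
    have := ne_Pn (Z.hys y hy)
    exact Z.bar1 hy
  refine h1.trans ?_
  rw [avy_add, avy_mul]
  refine add_le_add le_rfl ((avy_cle her ys).trans ?_)
  have h2 : (1 : ℝ) ≤ 6 * (N : ℝ) ^ 2 := by nlinarith
  nlinarith

/-- **A ROW OF PART L, WITH THE BARE LINE.** -/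
theorem rowLB (Z : Dl96 μ s N ys γ B b0 b σ gl c d j t ε εM K' M D δ e0 l lo q f) {V : ℕ → ℝ}
    {A0 A1 A2 A3 B1 B2 B3 D3 D4 A4 α β α' β' e : ℝ}
    (hA0 : 0 ≤ A0) (hA1 : 0 ≤ A1) (hA2 : 0 ≤ A2) (hA3 : 0 ≤ A3) (hB1 : 0 ≤ B1) (hB2 : 0 ≤ B2) (hB3 : 0 ≤ B3) (hD3 : 0 ≤ D3)
    (hD4 : 0 ≤ D4) (hA4 : 0 ≤ A4) (hα : 0 ≤ α) (hβ : 0 ≤ β) (hα' : 0 ≤ α') (hβ' : 0 ≤ β') (he0 : 0 ≤ e0) (he : 0 ≤ e)
    (hV : ∀ y ∈ ys, ∀ [Nonempty (Px (Pn N y))], V y ≤ A0 * lO μ s N y γ B b0 b σ gl d j t f +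
      A1 * lG μ s N y γ B b0 b σ gl d j t f (nL2 b j) α β + A2 * lG μ s N y γ B b0 b σ gl d j t f (nL1 b j) α' β' +
      B1 * lT μ s N y γ B b0 b σ gl d j t f (mc3 gl d) (nL2 b j) + B2 * lT μ s N y γ B b0 b σ gl d j t f (mc3 gl d) (nL1 b j) +
      B3 * lT μ s N y γ B b0 b σ gl d j t f (mc4 gl d) (nL1 b j) + D3 * lL μ s N y γ B b0 b σ gl d j t f (mc3 gl d) +
      D4 * lL μ s N y γ B b0 b σ gl d j t f (mc4 gl d) + A3 * lD μ s N y γ B b0 b σ gl d j t f +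
      A4 * ∫ ω, PP (wj μ s N (Pn N y) γ B b0 j ω t) (fun x x' => rh (d - gl) d (f y ω) x x') ∂(Pm μ N) + e) :
    avy ys V ≤ avy ys (fun y => lst μ s N γ B b0 b σ gl d j ε M δ l lo q f A0 A1 A2 A3 B1 B2 B3 D3 D4 α β α' β' y +
        (A4 * (N : ℝ) ^ ε) * rw96 μ s N (qU N gl d) f y) +
      ((A0 + A1 * (α + β) + A2 * (α' + β') + B1 + B2 + B3 + D3 + D4 + A3 + A4) * (6 * N ^ 2 * er96 N K' + 2 * e0) + e) := by
  have hN := Z.hN
  have her : 0 ≤ er96 N K' := by unfold er96; positivity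
  have h1 := Z.rowL (V := fun y => V y - A4 * ∫ ω, PP (wj μ s N (Pn N y) γ B b0 j ω t) (fun x x' => rh (d - gl) d (f y ω) x x') ∂(Pm μ N))
    hA0 hA1 hA2 hA3 hB1 hB2 hB3 hD3 hD4 hα hβ hα' hβ' he0 he fun y hy _ => by
      have := hV y hy
      linarith
  have h2 : avy ys V = avy ys (fun y => V y - A4 * ∫ ω, PP (wj μ s N (Pn N y) γ B b0 j ω t)
      (fun x x' => rh (d - gl) d (f y ω) x x') ∂(Pm μ N)) + A4 * avy ys (fun y => ∫ ω, PP (wj μ s N (Pn N y) γ B b0 j ω t)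
      (fun x x' => rh (d - gl) d (f y ω) x x') ∂(Pm μ N)) := by
    rw [← avy_mul, ← avy_add]
    congr 1
    funext y
    ring
  have h3 := mul_le_mul_of_nonneg_left Z.bar hA4
  have h4 := mul_nonneg hA4 he0
  rw [avy_add, avy_mul, h2]
  linarith

end Dl96

end

end Pool.Agent.W_7d29a1_C0.E2DL96
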