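import Pool.Agent.W_7d29a1_C0.Far19

/-!
CURV0 (MP_7d29a1_pr), leaf E1e (list of helper19), second part: THE OWN REPLICAS UNDER A CONDITIONAL MEAN. If `S'` coincides with `S` at a row
`z` and neither has a steep piece, then `S'` is in the tube of the box of `S` (`out_coin`), wherever the box row is; `cE_out_own`: the
conditional mass of the paths out of the tube, at a path with its box in `β`. `cE_pb`: the fibres of `pb z` and `pJ 0 z` are the
same; `cE_Ns_tilt`: the mass of the paths with a steep piece under the tilted conditional measures. (helper73)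
-/

set_option autoImplicit false
set_option linter.unusedSectionVars false
set_option linter.unusedVariables false

namespace Pool.W7d29a1.C0.T73

open Finset MeasureTheory Pool.Agent.W_7d29a1_F Pool.Agent.W_7d29a1_X Pool.W7d29a1.C0
open Pool.Agent.W_7d29a1_C0.Mod92 (Px Fr Pn lw ps ps_nonneg ps_le pJ ps_of_ge ps_of_le)
open Pool.Agent.W_7d29a1_H (sl)
open Pool.Agent.W_7d29a1_HS (In wd)
open Pool.Agent.W_7d29a1_HZ (wd')
open Pool.W7d29a1.C0.VT31 (Mp Crs cE cC cV fz cE_mono cE_nonneg cE_smul fz_pos)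
open Pool.W7d29a1.C0.Fld19
open Pool.Agent.W_7d29a1_C0.Blk18 (Full)
open Pool.Agent.W_7d29a1_C0.LocM18 (Ns Cn LocB)

noncomputable section

section Abs

variable {X : Type*} [Fintype X] [Nonempty X] {Y Y' : Type*} [DecidableEq Y] [DecidableEq Y']

/-- The conditional mean of an inequality on the fibre. -/
theorem cE_mono_fib (w : X → ℝ) (p : X → Y) {f g : X → ℝ} {x : X} (h : ∀ x', p x' = p x → f x' ≤ g x') :
    cE w p f x ≤ cE w p g x := by
  unfold cE
  refine div_le_div_of_nonneg_right (sum_le_sum fun x' _ => ?_) (fz_pos w p x).le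
  split_ifs with h1
  · exact mul_le_mul_of_nonneg_left (h x' h1) (Real.exp_pos _).le
  · exact le_rfl

/-- Two conditions with the same fibres. -/
theorem cE_eq_of_fib (w : X → ℝ) {p : X → Y} {q : X → Y'} (h : ∀ x x', p x' = p x ↔ q x' = q x) (f : X → ℝ) :
    cE w p f = cE w q f := by
  funext x
  unfold cE fz
  simp only [h x]

theorem cE_const_mul (w : X → ℝ) (p : X → Y) (a : ℝ) (f : X → ℝ) (x : X) : cE w p (fun y => a * f y) x = a * cE w p f x :=
  congrFun (cE_smul w p a f) x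

/-- A change of the log weights by at most `D`. -/
theorem cE_tilt73 {w w' : X → ℝ} {D : ℝ} (h : ∀ x, |w' x - w x| ≤ D) (p : X → Y) {f : X → ℝ} (hf : ∀ x, 0 ≤ f x) (x : X) :
    cE w' p f x ≤ Real.exp (2 * D) * cE w p f x := by
  have h1 : (∑ x', if p x' = p x then Real.exp (w' x') * f x' else 0) ≤
      Real.exp D * ∑ x', if p x' = p x then Real.exp (w x') * f x' else 0 := by
    rw [mul_sum]
    refine sum_le_sum fun x' _ => ?_
    split_ifs
    · rw [← mul_assoc, ← Real.exp_add]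
      refine mul_le_mul_of_nonneg_right (Real.exp_le_exp.2 ?_) (hf x')
      linarith [(abs_le.1 (h x')).2]
    · rw [mul_zero]
  have h2 : Real.exp (-D) * fz w p x ≤ fz w' p x := by
    unfold fz
    rw [mul_sum]
    refine sum_le_sum fun x' _ => ?_
    split_ifs
    · rw [← Real.exp_add]
      refine Real.exp_le_exp.2 ?_
      linarith [(abs_le.1 (h x')).1]
    · rw [mul_zero]
  have h3 := fz_pos w p x
  have h4 := fz_pos w' p x
  have h5 : 0 ≤ ∑ x', if p x' = p x then Real.exp (w x') * f x' else 0 := by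
    refine sum_nonneg fun x' _ => ?_
    split_ifs
    · exact mul_nonneg (Real.exp_pos _).le (hf x')
    · exact le_rfl
  unfold cE
  rw [div_le_iff₀ h4]
  have h6 : Real.exp (2 * D) * Real.exp (-D) = Real.exp D := by
    rw [← Real.exp_add]
    congr 1
    ring
  calc _ ≤ Real.exp D * ∑ x', (if p x' = p x then Real.exp (w x') * f x' else 0) := h1
    _ = (Real.exp (2 * D) * ((∑ x', if p x' = p x then Real.exp (w x') * f x' else 0) / fz w p x)) *
        (Real.exp (-D) * fz w p x) := by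
      rw [← h6]
      field_simp
    _ ≤ _ := mul_le_mul_of_nonneg_left h2 (mul_nonneg (Real.exp_pos _).le (div_nonneg h5 h3.le))

end Abs

variable {μ : Measure ℝ} {s : ℝ} {N : ℕ} {Q : Finset (Finset ℕ)}
variable {R M : ℝ} {n : ℕ} {J J' : Finset ℕ} {ι : Type*} [Fintype ι]

/-- The steepness over a piece which ends at the row `z`: distance to the line through the position at `z`. -/
theorem dl_Ns {S : Px Q} {ε : ℝ} {c d z : ℕ} (h : Ns μ s ε c d S) (hz0 : c ≤ z) (hz : z ≤ d) (hR0 : 0 ≤ R)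
    (hR : ∀ k : ℕ, 1 ≤ k → k ≤ d - c → ((d - c : ℕ) : ℝ) ^ ε * wd' μ s k ≤ R) {i : ℕ} (hi0 : c ≤ i) (hi : i ≤ d) :
    |((ps S i : ℤ) : ℝ) - ((ps S z : ℤ) : ℝ) - sl μ s * ((i : ℝ) - z)| ≤ R := by
  have h1 := Str_of_Ns (J := {i}) h (fun k hk => by rw [mem_singleton] at hk; subst hk; exact ⟨hi0, hi⟩) hz0 hz hR0 hR
  have h2 := h1 (i : ℤ) (mem_JZ.2 ⟨i, mem_singleton_self i, rfl⟩)
  unfold dl at h2
  simp only at h2
  rw [pm_nat, pm_nat] at h2
  exact_mod_cast h2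

/-- **A path without steep piece which coincides with `S` at the row `z` is in the tube of the box of `S`.** The box row `k0` and `z` are
anywhere in the block of `S`; the steepness of `S'` is only asked over a block which contains `J` and `z`. -/
theorem out_coin {S S' : Px Q} {ε ε' : ℝ} {c d c' d' k0 z : ℕ} (h : Ns μ s ε c d S) (h' : Ns μ s ε' c' d' S')
    (hJ : ∀ i ∈ J, c' ≤ i ∧ i ≤ d') (h0 : c ≤ k0) (h1 : k0 ≤ d) (hn : k0 ≤ n) (hz0 : c ≤ z) (hz1 : z ≤ d) (hz0' : c' ≤ z)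
    (hz1' : z ≤ d') (hzz : ps S' z = ps S z) (hR1 : 1 ≤ R)
    (hR : ∀ k : ℕ, 1 ≤ k → k ≤ d - c → ((d - c : ℕ) : ℝ) ^ ε * wd' μ s k ≤ R)
    (hR' : ∀ k : ℕ, 1 ≤ k → k ≤ d' - c' → ((d' - c' : ℕ) : ℝ) ^ ε' * wd' μ s k ≤ R) {β : ι → Fin (n + 1)} {i : ι}
    (hi : β i = bx pm R (k0 : ℤ) n S) : ¬ OutB pm (sl μ s) R (k0 : ℤ) (JZ J) β S' := by
  rintro ⟨m, hm, h2⟩
  obtain ⟨k, hk, rfl⟩ := mem_JZ.1 hm
  obtain ⟨k1, k2⟩ := hJ k hk
  have a1 := dl_Ns h' hz0' hz1' (by linarith : (0 : ℝ) ≤ R) hR' k1 k2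
  have a2 := dl_Ns h h0 h1 (by linarith : (0 : ℝ) ≤ R) hR hz0 hz1
  have a3 := bx_spec (pa := pm (Q := Q)) (m0 := (k0 : ℤ)) (n := n) hR1 (x := S) (pm_nonneg _ _) (pm_le _ (by exact_mod_cast hn))
  have a4 := h2 i
  rw [hi] at a4
  unfold dl at a4
  simp only at a4
  rw [pm_nat] at a3 a4
  rw [hzz] at a1
  have e1 : (((k : ℕ) : ℤ) : ℝ) = (k : ℝ) := by push_cast; ring
  have e2 : (((k0 : ℕ) : ℤ) : ℝ) = (k0 : ℝ) := by push_cast; ring
  rw [e1, e2] at a4
  rw [abs_le] at a1 a2 a3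
  rw [lt_abs] at a4
  rcases a4 with a4 | a4 <;> nlinarith [a1.1, a1.2, a2.1, a2.2, a3.1, a3.2]

open Classical in
/-- **The conditional mass out of the tube at a path with its box in `β`.** -/
theorem cE_out_own [Nonempty (Px Q)] (w : Px Q → ℝ) {S : Px Q} {ε ε' : ℝ} {c d c' d' k0 z : ℕ}
    (hJ : ∀ i ∈ J, c' ≤ i ∧ i ≤ d') (h0 : c ≤ k0) (h1 : k0 ≤ d) (hn : k0 ≤ n) (hz0 : c ≤ z) (hz1 : z ≤ d) (hz0' : c' ≤ z)
    (hz1' : z ≤ d') (hR1 : 1 ≤ R) (hR : ∀ k : ℕ, 1 ≤ k → k ≤ d - c → ((d - c : ℕ) : ℝ) ^ ε * wd' μ s k ≤ R)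
    (hR' : ∀ k : ℕ, 1 ≤ k → k ≤ d' - c' → ((d' - c' : ℕ) : ℝ) ^ ε' * wd' μ s k ≤ R) {β : ι → Fin (n + 1)} {i : ι}
    (hi : β i = bx pm R (k0 : ℤ) n S) :
    cE w (pb z) (fun S' => if OutB pm (sl μ s) R (k0 : ℤ) (JZ J) β S' then 1 else 0) S ≤
      (if Ns μ s ε c d S then 0 else 1) + cE w (pb z) (fun S' => if Ns μ s ε' c' d' S' then 0 else 1) S := by
  have hnn : 0 ≤ cE w (pb z) (fun S' : Px Q => if Ns μ s ε' c' d' S' then (0 : ℝ) else 1) S :=
    cE_nonneg _ _ (fun x => by split_ifs <;> norm_num) S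
  by_cases h : Ns μ s ε c d S
  · rw [if_pos h, zero_add]
    refine cE_mono_fib w (pb z) fun S' hS' => ?_
    have hz : ps S' z = ps S z := congrArg Prod.fst hS'
    by_cases h' : Ns μ s ε' c' d' S'
    · rw [if_pos h', if_neg (out_coin h h' hJ h0 h1 hn hz0 hz1 hz0' hz1' hz hR1 hR hR' hi)]
    · rw [if_neg h']
      split_ifs <;> norm_num
  · rw [if_neg h]
    have h3 : cE w (pb z) (fun S' : Px Q => if OutB pm (sl μ s) R (k0 : ℤ) (JZ J) β S' then (1 : ℝ) else 0) S ≤ 1 := by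
      refine (cE_mono w (pb z) (g := fun _ => 1) (fun x => by split_ifs <;> norm_num) S).trans_eq ?_
      rw [Pool.W7d29a1.C0.VT31.cE_one]
    linarith

/-! ### Everything behind a row -/

/-- The conditions `pb z` and `pJ 0 z` have the same fibres. -/
theorem pb_fib (z : ℕ) (S S' : Px Q) : pb z S' = pb z S ↔ pJ 0 z S' = pJ 0 z S := by
  rw [pb_eq_iff]
  unfold pJ
  rw [← range_eq_Ico, Prod.mk.injEq]
  exact and_comm

theorem cE_pb_eq [Nonempty (Px Q)] (w : Px Q → ℝ) (z : ℕ) (f : Px Q → ℝ) : cE w (pb z) f = cE w (pJ 0 z) f :=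
  cE_eq_of_fib w (fun S S' => pb_fib z S S') f

open Classical in
/-- **The steep paths under a tilted conditional measure**, from the good event of `LocM18`. -/
theorem cE_Ns_tilt [Nonempty (Px Q)] {κ δ δ' ε c' : ℝ} {η : Env} (hL : LocB μ s N κ δ δ' ε c' η) (hQ : Full N Q) {c d : ℕ}
    (hcd : c ≤ d) (hd : d ≤ N) (hm : (N : ℝ) ^ κ ≤ ((d - c : ℕ) : ℝ)) {S : Px Q} (hS : Cn μ s δ c d S) {w : Px Q → ℝ} {D : ℝ}
    (hw : ∀ x, |w x - lw μ s η N Q x| ≤ D) :
    cE w (pJ c d) (fun S' => if Ns μ s ε c d S' then 0 else 1) S ≤ Real.exp (2 * D - (N : ℝ) ^ c') := by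
  refine (cE_tilt73 hw (pJ c d) (fun x => by split_ifs <;> norm_num) S).trans ?_
  have h1 := hL.1 Q hQ c d hcd hd hm S hS
  refine (mul_le_mul_of_nonneg_left h1 (Real.exp_pos _).le).trans_eq ?_
  rw [← Real.exp_add]
  congr 1

end

end Pool.W7d29a1.C0.T73
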