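import Pool.Agent.W_7d29a1_C0.E2G34
import Pool.Agent.W_7d29a1_C0.Bri36
import Pool.Agent.W_7d29a1_C0.Far19B
import Pool.Agent.W_7d29a1_HZ.Fresh

/-!
MP_7d29a1_pr, [CURV0] / [C0], section E2 (helper34): **THE FAR LINES OF E2**, part 4: **THE CLOSE OWN PAIRS**. `close34`: the mass of the
own pairs (the second path given the outside of the block of the first one) which do not meet on `[i, i + n]` and are never separated by
more than `N ^ (- ε) wd' n` is exponentially small, at the tilted weights: `fresh` (two free replicas) and the share of the ends of the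
block (`share_le`, `cE_pair_le`, `cE_class` of helper45).
-/

set_option autoImplicit false
set_option linter.unusedSectionVars false
set_option linter.unusedVariables false

namespace Pool.Agent.W_7d29a1_C0.E2F34

open Finset MeasureTheory Filter Topology Pool.Agent.W_7d29a1_F Pool.Agent.W_7d29a1_X Pool.Agent.W_7d29a1_H
open Pool.Agent.W_7d29a1_HS (In)
open Pool.Agent.W_7d29a1_HZ (wd' EE' Close fresh P2 px sv)
open Pool.Agent.W_7d29a1_C0 Pool.Agent.W_7d29a1_C0.Mod92 Pool.Agent.W_7d29a1_C0.Swap57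
open Pool.Agent.W_7d29a1_C0.Far34 (nfl nfl_nonneg Fl vv gm_tilt34)
open Pool.Agent.W_7d29a1_C0.Bri36 (ind ind_of int_P2 PP_eq_gm)
open Pool.Agent.W_7d29a1_C0.Blk18 (Full full_Pn)
open Pool.W7d29a1.C0
open Pool.W7d29a1.C0.VT31
open Pool.W7d29a1.C0.R43 (share_le cE_pair_le en en_mem cE_class)
open Pool.W7d29a1.C0.T73 (cE_tilt73)
open Pool.W7d29a1.C0.C45 (wu meas_wu)
open Pool.W7d29a1.C0.I52 (gm_eq_av cE_eq_av)

noncomputable section

variable {μ : Measure ℝ} {s : ℝ} {N y : ℕ}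

/-- The pair does not meet on `[i, i + n]` and is never separated by more than `r`. -/
def ClP {Q : Finset (Finset ℕ)} (i n : ℕ) (r : ℝ) (a b : Px Q) : Prop :=
  (∀ k, i ≤ k → k ≤ i + n → ps a k ≠ ps b k) ∧ ∀ k, i ≤ k → k ≤ i + n → |((ps a k - ps b k : ℤ) : ℝ)| ≤ r

open Classical in
/-- The indicator of the close pairs. -/
def clI {Q : Finset (Finset ℕ)} (i n : ℕ) (r : ℝ) (a b : Px Q) : ℝ := if ClP i n r a b then 1 else 0

theorem clI_nonneg {Q : Finset (Finset ℕ)} (i n : ℕ) (r : ℝ) (a b : Px Q) : 0 ≤ clI i n r a b := by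
  unfold clI
  split_ifs <;> norm_num

theorem clI_le_one {Q : Finset (Finset ℕ)} (i n : ℕ) (r : ℝ) (a b : Px Q) : clI i n r a b ≤ 1 := by
  unfold clI
  split_ifs <;> norm_num

/-- The indicator looks at the rows of the block only. -/
theorem clI_loc {Q : Finset (Finset ℕ)} {i n c d : ℕ} (hc : c ≤ i) (hd : i + n ≤ d) (r : ℝ) (a : Px Q) {b b' : Px Q}
    (h : ∀ t, c ≤ t → t ≤ d → ps b t = ps b' t) : clI i n r a b = clI i n r a b' := by
  unfold clI
  have e : ClP i n r a b ↔ ClP i n r a b' := by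
    unfold ClP
    refine and_congr (forall_congr' fun k => ?_) (forall_congr' fun k => ?_)
    · refine forall_congr' fun h1 => forall_congr' fun h2 => ?_
      rw [h k (by omega) (by omega)]
    · refine forall_congr' fun h1 => forall_congr' fun h2 => ?_
      rw [h k (by omega) (by omega)]
  by_cases h1 : ClP i n r a b
  · rw [if_pos h1, if_pos (e.1 h1)]
  · rw [if_neg h1, if_neg fun h2 => h1 (e.2 h2)]

open Classical in
/-- **A pair given the outside of a block against two free replicas.** -/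
theorem pair_free34 [Nonempty (Px (Pn N y))] (η : Env) {c d : ℕ} (hcd : c ≤ d) (hd : d ≤ N) {E : Px (Pn N y) → Px (Pn N y) → ℝ}
    (E0 : ∀ a b, 0 ≤ E a b) (E1 : ∀ a b, E a b ≤ 1)
    (hE : ∀ a b b', (∀ t, c ≤ t → t ≤ d → ps b t = ps b' t) → E a b = E a b') {κ : ℝ} (hκ : 0 < κ) :
    gm (lw μ s η N (Pn N y)) (fun a => cE (lw μ s η N (Pn N y)) (pJ c d) (E a) a) ≤
      κ⁻¹ * PP (lw μ s η N (Pn N y)) E + ((N : ℝ) + 1) ^ 2 * κ := by
  set w := lw μ s η N (Pn N y) with hw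
  have h1 : ∀ a, cE w (pJ c d) (E a) a ≤ κ⁻¹ * gm w (E a) +
      (if fz w (fun x => ((fun _ => () : Px (Pn N y) → Unit) x, en c d x)) a < κ * fz w (fun _ => () : Px (Pn N y) → Unit) a then 1 else 0) :=
    fun a => by
      have hg0 : 0 ≤ κ⁻¹ * gm w (E a) := mul_nonneg (inv_pos.2 hκ).le (gm_nonneg _ (E0 a))
      by_cases hc : fz w (fun x => ((fun _ => () : Px (Pn N y) → Unit) x, en c d x)) a < κ * fz w (fun _ => () : Px (Pn N y) → Unit) a
      · rw [if_pos hc]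
        have h2 : cE w (pJ c d) (E a) a ≤ 1 := (cE_mono w (pJ c d) (g := fun _ => 1) (E1 a) a).trans (congrFun (cE_one w (pJ c d)) a).le
        linarith
      · rw [if_neg hc, add_zero]
        have h2 := cE_pair_le w (fun _ => () : Px (Pn N y) → Unit) (en c d) (E0 a) a (not_lt.1 hc)
        have h3 : cE w (fun _ => () : Px (Pn N y) → Unit) (E a) a = gm w (E a) := by
          rw [cE_eq_av, gm_eq_av]
          congr 1
          exact Finset.filter_true_of_mem fun _ _ => rfl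
        have h4 := cE_class (full_Pn N y) (μ := μ) (s := s) η (q := (fun _ => () : Px (Pn N y) → Unit)) (fun _ _ _ => rfl) hcd hd
          (f := E a) (hE a) a
        rw [h3] at h2
        rw [← hw] at h4
        rw [h4] at h2
        rw [inv_mul_eq_div, le_div_iff₀ hκ, mul_comm]
        exact h2
  have h2 := gm_mono w h1
  have h3 : gm w (fun a => κ⁻¹ * gm w (E a) +
      (if fz w (fun x => ((fun _ => () : Px (Pn N y) → Unit) x, en c d x)) a < κ * fz w (fun _ => () : Px (Pn N y) → Unit) a then (1 : ℝ) else 0)) =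
      κ⁻¹ * PP w E + gm w (fun a =>
      (if fz w (fun x => ((fun _ => () : Px (Pn N y) → Unit) x, en c d x)) a < κ * fz w (fun _ => () : Px (Pn N y) → Unit) a then (1 : ℝ) else 0)) := by
    rw [gm_eq_av, I52.av_add, I52.av_smul, ← gm_eq_av, ← gm_eq_av, PP_eq_gm]
  rw [h3] at h2
  have h4 := share_le w (fun _ => () : Px (Pn N y) → Unit) (en c d) ((Icc (0 : ℤ) N) ×ˢ (Icc (0 : ℤ) N))
    (fun x => en_mem (hcd.trans hd) hd x) hκ.le
  have h5 : ((((Icc (0 : ℤ) N) ×ˢ (Icc (0 : ℤ) N)).card : ℕ) : ℝ) = ((N : ℝ) + 1) ^ 2 := by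
    rw [card_product, Int.card_Icc]
    have : ((N : ℤ) + 1 - 0).toNat = N + 1 := by omega
    rw [this]
    push_cast
    ring
  rw [h5] at h4
  linarith

open Classical in
theorem clI_close {i n : ℕ} {ε : ℝ} (hn : (N : ℝ) ^ ε ≤ n) (hi : i + n ≤ N) (a b : Px (Pn N y)) :
    clI i n ((N : ℝ) ^ (-ε) * wd' μ s n) a b ≤ ind (Close μ s N N ε (fun _ => 0) a.1 b.1) := by
  unfold clI
  by_cases h : ClP i n ((N : ℝ) ^ (-ε) * wd' μ s n) a b
  · rw [if_pos h, ind_of]
    have e0 : ∀ (S : Finset ℕ) k, px (fun _ => 0) S k = pos S k := fun S k => by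
      unfold px
      simp [sv]
    refine ⟨i, n, hn, hi, fun k h1 h2 => ?_, fun k h1 h2 => ?_⟩
    · rw [e0]
      exact h.1 k h1 h2
    · rw [e0]
      exact h.2 k h1 h2
  · rw [if_neg h]
    exact Bri36.ind_nonneg _

/-- **THE CLOSE OWN PAIRS** at the tilted weights. -/
theorem close34 [IsProbabilityMeasure μ] {c₀ C₀ : ℝ} {n₀ : ℕ} (h : In μ s c₀ C₀ n₀) {ε : ℝ} (hε : 0 < ε) :
    ∃ δ' c' : ℝ, 0 < δ' ∧ 0 < c' ∧ ∃ N₀ : ℕ, ∀ N : ℕ, N₀ ≤ N → ∀ y : ℕ, y ≤ N → |(y : ℝ) - sl μ s * N| ≤ ((N : ℝ) ^ δ' * wd' μ s N) →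
      ∀ (D : ℝ) (u : Finset ℕ → Env → Px (Pn N y) → ℝ), (∀ S, Measurable fun ω : Env × Finset ℕ => u ω.2 ω.1 S) →
      (∀ A η S, |u A η S| ≤ D) → ∀ c d i n : ℕ, c ≤ i → i + n ≤ d → d ≤ N → (N : ℝ) ^ ε ≤ n →
      ∫ ω, gm (wu μ s N (Pn N y) u ω) (fun a => cE (wu μ s N (Pn N y) u ω) (pJ c d)
        (clI i n ((N : ℝ) ^ (-ε) * wd' μ s n) a) a) ∂(Pm μ N) ≤ Real.exp (4 * D - (N : ℝ) ^ c') := by
  obtain ⟨δ, c₁, hδ, hc₁, N₁, h1⟩ := fresh h ε hε
  have ev1 := Pool.Agent.W_7d29a1_HZ.Z22.absorb 8 2 (b := 1 / 2) (g := c₁) (by norm_num) hc₁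
  obtain ⟨N₂, hN₂⟩ := eventually_atTop.1 ev1
  refine ⟨δ, c₁ / 2, hδ, by positivity, max (max N₁ N₂) 1, fun N hN y hy hyc D u hum hu c d i n hci hid hd hn => ?_⟩
  have k1 : N₁ ≤ N := (le_max_left _ _).trans ((le_max_left _ _).trans hN)
  have k2 : N₂ ≤ N := (le_max_right _ _).trans ((le_max_left _ _).trans hN)
  have k3 : 1 ≤ N := (le_max_right _ _).trans hN
  have hNR : (1 : ℝ) ≤ N := by exact_mod_cast k3
  have hne : Nonempty (Px (Pn N y)) := ne_Pn hy
  obtain ⟨r, hr⟩ : ∃ r : ℝ, r = (N : ℝ) ^ (-ε) * wd' μ s n := ⟨_, rfl⟩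
  obtain ⟨κ, hκ⟩ : ∃ κ : ℝ, κ = Real.exp (-(N : ℝ) ^ c₁ / 2) := ⟨_, rfl⟩
  have κ0 : 0 < κ := by rw [hκ]; exact Real.exp_pos _
  -- free replicas
  have hpair : ∫ ω, PP (wm μ s N (Pn N y) ω) (clI i n r) ∂(Pm μ N) ≤ Real.exp (-(N : ℝ) ^ c₁) := by
    have h2 := h1 N k1 N (by omega) le_rfl (y : ℤ) (by positivity) (by exact_mod_cast hy) (by exact_mod_cast hyc) (fun _ => 0) (by simp [sv])
    have h3 := int_P2 (μ := μ) (s := s) (N := N) (y := y) (A := fun _ S S' => Close μ s N N ε (fun _ => 0) S S')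
      (fun S S' => MeasurableSet.const _)
    have h4 : ∫ ω, PP (wm μ s N (Pn N y) ω) (clI i n r) ∂(Pm μ N) ≤
        ∫ ω, PP (wm μ s N (Pn N y) ω) (fun S S' => ind (Close μ s N N ε (fun _ => 0) S.1 S'.1)) ∂(Pm μ N) := by
      refine integral_mono_of_nonneg (Filter.Eventually.of_forall fun ω => PP_nonneg _ (clI_nonneg i n r))
        (int_bdd (M := 1) (Bri36.meas_PP (fun x => (meas_lw x).comp measurable_fst) fun x x' => measurable_const) fun ω =>
          Bri36.abs_PP_le _ fun x x' => ?_) (Filter.Eventually.of_forall fun ω => PP_mono _ fun a b => ?_)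
      · rw [abs_of_nonneg (Bri36.ind_nonneg _)]
        exact Bri36.ind_le_one _
      · rw [hr]
        exact clI_close hn (hid.trans hd) a b
    refine h4.trans ?_
    rw [h3]
    refine (ENNReal.toReal_mono ENNReal.ofReal_ne_top h2).trans (le_of_eq ?_)
    exact ENNReal.toReal_ofReal (Real.exp_pos _).le
  -- the block, at the weights of the model
  have gmc0 : ∀ w : Px (Pn N y) → ℝ, 0 ≤ gm w (fun a => cE w (pJ c d) (clI i n r a) a) := fun w =>
    gm_nonneg _ fun a => cE_nonneg _ _ (clI_nonneg i n r a) _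
  have gmc1 : ∀ w : Px (Pn N y) → ℝ, gm w (fun a => cE w (pJ c d) (clI i n r a) a) ≤ 1 := fun w =>
    (gm_mono _ (g := fun _ => 1) fun a => (cE_mono w (pJ c d) (g := fun _ => 1) (clI_le_one i n r a) a).trans
      (congrFun (cE_one w (pJ c d)) a).le).trans (gm_const _ _).le
  have mc : ∀ {w : Env × Finset ℕ → Px (Pn N y) → ℝ}, (∀ S, Measurable fun ω => w ω S) →
      Measurable fun ω => gm (w ω) (fun a => cE (w ω) (pJ c d) (clI i n r a) a) := fun {w} hw =>
    meas_gm hw fun a => meas_cE hw (f := fun _ => clI i n r a) (fun _ => measurable_const) _ _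
  have mwm : ∀ S : Px (Pn N y), Measurable fun ω : Env × Finset ℕ => wm μ s N (Pn N y) ω S := fun S =>
    (meas_lw S).comp measurable_fst
  have hblk : ∫ ω, gm (wm μ s N (Pn N y) ω) (fun a => cE (wm μ s N (Pn N y) ω) (pJ c d) (clI i n r a) a) ∂(Pm μ N) ≤
      κ⁻¹ * Real.exp (-(N : ℝ) ^ c₁) + ((N : ℝ) + 1) ^ 2 * κ := by
    have ip : Integrable (fun ω => PP (wm μ s N (Pn N y) ω) (clI i n r)) (Pm μ N) :=
      int_bdd (M := 1) (Bri36.meas_PP (fun x => (meas_lw x).comp measurable_fst) fun x x' => measurable_const) fun ω =>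
          Bri36.abs_PP_le _ fun x x' => by
            rw [abs_of_nonneg (clI_nonneg i n r _ _)]
            exact clI_le_one _ _ _ _ _
    have h2 : ∫ ω, gm (wm μ s N (Pn N y) ω) (fun a => cE (wm μ s N (Pn N y) ω) (pJ c d) (clI i n r a) a) ∂(Pm μ N) ≤
        ∫ ω, (κ⁻¹ * PP (wm μ s N (Pn N y) ω) (clI i n r) + ((N : ℝ) + 1) ^ 2 * κ) ∂(Pm μ N) :=
      integral_mono_of_nonneg (Filter.Eventually.of_forall fun ω => gmc0 _) ((ip.const_mul _).add (integrable_const _))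
        (Filter.Eventually.of_forall fun ω => pair_free34 ω.1 (by omega) hd (clI_nonneg i n r) (clI_le_one i n r)
          (fun a b b' hb => clI_loc hci hid r a hb) κ0)
    rw [integral_add (ip.const_mul _) (integrable_const _), integral_const_mul, integral_const, measureReal_def, measure_univ,
      ENNReal.toReal_one, one_smul] at h2
    have h3 := mul_le_mul_of_nonneg_left hpair (inv_pos.2 κ0).le
    linarith
  -- the tilt
  have htilt : ∀ ω, gm (wu μ s N (Pn N y) u ω) (fun a => cE (wu μ s N (Pn N y) u ω) (pJ c d) (clI i n r a) a) ≤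
      Real.exp (4 * D) * gm (wm μ s N (Pn N y) ω) (fun a => cE (wm μ s N (Pn N y) ω) (pJ c d) (clI i n r a) a) := fun ω => by
    have hw : ∀ S, |wu μ s N (Pn N y) u ω S - wm μ s N (Pn N y) ω S| ≤ D := fun S => by
      show |lw μ s ω.1 N (Pn N y) S + u ω.2 ω.1 S - lw μ s ω.1 N (Pn N y) S| ≤ D
      rw [add_sub_cancel_left]
      exact hu _ _ _
    have h2 : ∀ a, cE (wu μ s N (Pn N y) u ω) (pJ c d) (clI i n r a) a ≤
        Real.exp (2 * D) * cE (wm μ s N (Pn N y) ω) (pJ c d) (clI i n r a) a := fun a =>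
      cE_tilt73 hw (pJ c d) (clI_nonneg i n r a) a
    refine (gm_mono _ h2).trans ?_
    have h3 := gm_tilt34 hw (f := fun a => Real.exp (2 * D) * cE (wm μ s N (Pn N y) ω) (pJ c d) (clI i n r a) a) fun a =>
      mul_nonneg (Real.exp_pos _).le (cE_nonneg _ _ (clI_nonneg i n r a) _)
    refine h3.trans (le_of_eq ?_)
    rw [gm_mulc, ← mul_assoc, ← Real.exp_add]
    congr 2
    ring
  have i3 : Integrable (fun ω => gm (wm μ s N (Pn N y) ω) (fun a => cE (wm μ s N (Pn N y) ω) (pJ c d) (clI i n r a) a)) (Pm μ N) :=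
    int_bdd (M := 1) (mc mwm) fun ω => by
      rw [abs_of_nonneg (gmc0 _)]
      exact gmc1 _
  have h5 : ∫ ω, gm (wu μ s N (Pn N y) u ω) (fun a => cE (wu μ s N (Pn N y) u ω) (pJ c d) (clI i n r a) a) ∂(Pm μ N) ≤
      ∫ ω, Real.exp (4 * D) * gm (wm μ s N (Pn N y) ω) (fun a => cE (wm μ s N (Pn N y) ω) (pJ c d) (clI i n r a) a) ∂(Pm μ N) :=
    integral_mono_of_nonneg (Filter.Eventually.of_forall fun ω => gmc0 _) (i3.const_mul _) (Filter.Eventually.of_forall htilt)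
  rw [integral_const_mul] at h5
  have h6 := mul_le_mul_of_nonneg_left hblk (Real.exp_pos (4 * D)).le
  have h7 : κ⁻¹ * Real.exp (-(N : ℝ) ^ c₁) + ((N : ℝ) + 1) ^ 2 * κ ≤ Real.exp (-(N : ℝ) ^ (c₁ / 2)) := by
    have e1 : κ⁻¹ * Real.exp (-(N : ℝ) ^ c₁) = κ := by
      rw [hκ, ← Real.exp_neg, ← Real.exp_add]
      congr 1
      ring
    rw [e1]
    have h8 := hN₂ N k2
    have e2 : Real.exp (-(1 / 2 * (N : ℝ) ^ c₁)) = κ := by
      rw [hκ]
      congr 1
      ring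
    rw [e2, Real.rpow_two] at h8
    refine le_trans ?_ h8
    have h9 : 1 + ((N : ℝ) + 1) ^ 2 ≤ 8 * (N : ℝ) ^ 2 := by nlinarith
    calc κ + ((N : ℝ) + 1) ^ 2 * κ = (1 + ((N : ℝ) + 1) ^ 2) * κ := by ring
      _ ≤ 8 * (N : ℝ) ^ 2 * κ := mul_le_mul_of_nonneg_right h9 κ0.le
  rw [← hr]
  refine h5.trans (h6.trans ((mul_le_mul_of_nonneg_left h7 (Real.exp_pos _).le).trans (le_of_eq ?_)))
  rw [← Real.exp_add]
  rfl

end

end Pool.Agent.W_7d29a1_C0.E2F34
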