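import Pool.Agent.W_7d29a1_C0.OkE15B

/-!
MP_7d29a1_pr, [CURV0] / [C0] (helper15): the exception `¬ okE` with the price of the three branches as a number (`okE_fullR`, `okE_fullL`), the own
tie in the pieces of a region behind (in front of) `g*`; measurability of the events.
-/

set_option autoImplicit false

namespace Pool.Agent.W_7d29a1_C0.P15

open MeasureTheory ProbabilityTheory Filter Topology Finset
open Pool.Agent.W_7d29a1_F Pool.Agent.W_7d29a1_X Pool.Agent.W_7d29a1_h4g Pool.Agent.W_7d29a1_H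
open Pool.Agent.W_7d29a1_HS (In wd md)
open Pool.Agent.W_7d29a1_HZ Pool.Agent.W_7d29a1_HZ.R72 Pool.Agent.W_7d29a1_Z.Asm72
open Pool.Agent.W_7d29a1_HZ.Z86
open Pool.Agent.W_7d29a1_C0.Mod92 (Px Pn lw ps pJ ne_Pn ps_Pn pos_card ps_of_le ps_of_ge wm Pm meas_lw meas_cE meas_gz meas_gm meas_wm int_Pm)
open Pool.Agent.W_7d29a1_C0.Swap57 (NI cE2 NI_nonneg)
open Pool.W7d29a1.C0 (gm gz gz_pos gm_nonneg gm_mono gm_const gm_add)
open Pool.W7d29a1.C0.VT31 (Mp cE gm_mul_cE fz cE_sum cE_mono cE_nonneg)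
open Pool.W7d29a1.C0.R43 (Tau Rp mI bI st swP_pJ tau_rp st_end le_st)
open Pool.W7d29a1.C0.O1 (Gz okE en)
open Pool.Agent.W_7d29a1_C0.P86
open scoped ENNReal

variable {μ : Measure ℝ} {s : ℝ} {N : ℕ}

theorem meas_mI {y : ℕ} (c d i j : ℕ) (x : Px (Pn N y)) : Measurable fun η : Env => mI (lw μ s η N (Pn N y)) (pJ c d) i j x := by
  have : Nonempty (Px (Pn N y)) := ⟨x⟩
  exact meas_cE (w := fun η => lw μ s η N (Pn N y)) (f := fun _ => NI i j x) meas_lw (fun _ => measurable_const) _ x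

theorem meas_cE2l {y : ℕ} (c d : ℕ) (K : Px (Pn N y) → Px (Pn N y) → ℝ) (x x' : Px (Pn N y)) :
    Measurable fun η : Env => cE2 (lw μ s η N (Pn N y)) (pJ c d) K x x' := by
  have : Nonempty (Px (Pn N y)) := ⟨x⟩
  exact meas_cE (w := fun η => lw μ s η N (Pn N y)) (f := fun η z => cE (lw μ s η N (Pn N y)) (pJ c d) (K z) x') meas_lw
    (fun z => meas_cE (w := fun η => lw μ s η N (Pn N y)) (f := fun _ => K z) meas_lw (fun _ => measurable_const) _ x') _ x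

theorem meas_evT {y : ℕ} (c d τ l q : ℕ) (e : ℝ) (A : Finset ℕ) (x : Px (Pn N y)) :
    MeasurableSet {η : Env | EvT (wm μ s N (Pn N y) (η, A)) (pJ c d) τ l q e x} := by
  refine measurableSet_lt measurable_const ?_
  exact meas_cE2l c d (fun u v => NI τ (en τ l q) x u * (NI τ (en τ l q) x v * NI τ (en τ l q) u v)) x x

/-- The event that a path has no tie in the pieces. -/
theorem meas_bI {y : ℕ} (c d τ l q : ℕ) (e : ℝ) (A : Finset ℕ) (x : Px (Pn N y)) :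
    MeasurableSet {η : Env | bI (wm μ s N (Pn N y) (η, A)) (pJ c d) τ l q e x = 1} := by
  classical
  have e1 : {η : Env | bI (wm μ s N (Pn N y) (η, A)) (pJ c d) τ l q e x = 1} =
      ⋂ n ∈ range (3 * q), {η : Env | mI (lw μ s η N (Pn N y)) (pJ c d) (st τ l n) (st τ l n + l) x ≤ e} := by
    ext η
    simp only [Set.mem_ofPred_eq, Set.mem_iInter, mem_range]
    unfold bI
    by_cases h : ∀ n < 3 * q, mI (wm μ s N (Pn N y) (η, A)) (pJ c d) (st τ l n) (st τ l n + l) x ≤ e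
    · rw [if_pos h]
      exact ⟨fun _ => h, fun _ => rfl⟩
    · rw [if_neg h]
      exact ⟨fun g => absurd g (by norm_num), fun g => absurd g h⟩
  rw [e1]
  exact Finset.measurableSet_biInter _ fun n _ => measurableSet_le (meas_mI c d _ _ x) measurable_const

/-- `okE` is measurable. -/
theorem meas_okE {y : ℕ} (c d : ℕ) {Bo : Env × Finset ℕ → Px (Pn N y) → Prop} (hBo : ∀ A x, MeasurableSet {η : Env | Bo (η, A) x})
    (q : ℕ) (dd e1 d3 : ℝ) (g0 g1 τ1 l1 τ2 l2 : ℕ) (A : Finset ℕ) (x : Px (Pn N y)) :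
    MeasurableSet {η : Env | okE (wm μ s N (Pn N y) (η, A)) (pJ c d) (Bo (η, A)) q dd e1 d3 g0 g1 τ1 l1 τ2 l2 x} := by
  have : Nonempty (Px (Pn N y)) := ⟨x⟩
  have e1' : {η : Env | okE (wm μ s N (Pn N y) (η, A)) (pJ c d) (Bo (η, A)) q dd e1 d3 g0 g1 τ1 l1 τ2 l2 x} =
      {η : Env | Bo (η, A) x} ∪ ({η : Env | bI (wm μ s N (Pn N y) (η, A)) (pJ c d) τ1 l1 q dd x = 1} ∪
        ({η : Env | EvI (wm μ s N (Pn N y) (η, A)) (pJ c d) τ2 l2 q g0 g1 e1 x}ᶜ ∩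
          ({η : Env | EvII (wm μ s N (Pn N y) (η, A)) (pJ c d) τ2 l2 q g0 g1 e1 x}ᶜ ∩
            {η : Env | EvT (wm μ s N (Pn N y) (η, A)) (pJ c d) τ2 l2 q d3 x}ᶜ))) := by
    ext η
    simp only [Set.mem_ofPred_eq, Set.mem_union, Set.mem_inter_iff, Set.mem_compl_iff]
    constructor
    · intro h
      by_cases hb : Bo (η, A) x
      · exact Or.inl hb
      · rcases Pool.W7d29a1.C0.O1.bI01 (wm μ s N (Pn N y) (η, A)) (pJ c d) τ1 l1 q dd x with g | g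
        · have k := h hb g
          refine Or.inr (Or.inr ⟨fun hI => ?_, not_lt.2 k.2.1, not_lt.2 k.2.2⟩)
          obtain ⟨n, hn, hlt⟩ := hI
          exact absurd (k.1 n hn) (not_le.2 hlt)
        · exact Or.inr (Or.inl g)
    · intro h hb hg
      rcases h with h | h | h
      · exact absurd h hb
      · rw [hg] at h
        exact absurd h (by norm_num)
      · obtain ⟨a, b, c'⟩ := h
        unfold EvI at a
        push Not at a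
        exact ⟨a, not_lt.1 b, not_lt.1 c'⟩
  rw [e1']
  exact (hBo A x).union ((meas_bI c d τ1 l1 q dd A x).union ((meas_evI c d τ2 l2 q g0 g1 e1 A x).compl.inter
    ((meas_evII c d τ2 l2 q g0 g1 e1 A x).compl.inter (meas_evT c d τ2 l2 q d3 A x).compl)))

variable [IsProbabilityMeasure μ] {c₀ C₀ : ℝ} {n₀ : ℕ}

/-- **`¬ okE`, OWN BEHIND, WITH THE THREE BRANCHES**: region 1 < region 2 < `[g0, g1]` < own region `o` (pieces), all given `pJ c d`. -/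
theorem okE_fullR (h : In μ s c₀ C₀ n₀) : ∀ ε θ : ℝ, 0 < ε → 0 < θ → ∃ δ κ c₂ : ℝ, 0 < δ ∧ 0 < κ ∧ 0 < c₂ ∧ ∃ L₀ : ℕ,
    ∀ L : ℕ, L₀ ≤ L → ∀ N : ℕ, L ≤ 16 * N → N ≤ L → ∀ y : ℕ, y ≤ N → |(y : ℝ) - sl μ s * N| ≤ ((L : ℝ) ^ δ * wd' μ s N) →
    ∀ M : ℝ, 8 ≤ M → M ≤ (L : ℝ) ^ κ → ∀ c d τ1 l1 τ2 l2 τo lo q g0 g1 l : ℕ, c ≤ τ1 → en τ1 l1 q ≤ τ2 → en τ2 l2 q ≤ g0 → g0 + l ≤ g1 →
    g1 ≤ τo → en τo lo q ≤ d → d ≤ N → 3 * (q : ℝ) ≤ (L : ℝ) ^ κ → (L : ℝ) ^ θ ≤ l → l ≤ l1 → l ≤ l2 → l ≤ lo →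
    ∀ dd e1 d3 : ℝ, Real.exp (-(L : ℝ) ^ κ) ≤ dd → Real.exp (-(L : ℝ) ^ κ) ≤ e1 →
    ∀ f : Env × Finset ℕ → Px (Pn N y) → ℝ, (∀ A x, Measurable fun η => f (η, A) x) → (∀ ω x, 0 ≤ f ω x) → (∀ ω x, f ω x ≤ 1) →
    FinB (Ioo c d) f → ∀ C₂ : ℝ,
    ∫ ω, gm (wm μ s N (Pn N y) ω) (fun x => f ω x * iE (fun ω x => EvT (wm μ s N (Pn N y) ω) (pJ c d) τ2 l2 q d3 x) ω x) ∂(Pm μ N) ≤ C₂ →
    ∫ ω, gm (wm μ s N (Pn N y) ω) (fun x => f ω x * iE (fun ω x =>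
      ¬ okE (wm μ s N (Pn N y) ω) (pJ c d) (fun x => bI (wm μ s N (Pn N y) ω) (pJ c d) τo lo q dd x = 1) q dd e1 d3 g0 g1 τ1 l1 τ2 l2 x)
        ω x) ∂(Pm μ N) ≤
      2 * ((L : ℝ) ^ ε * (EE' μ s l)⁻¹) ^ 2 * ∫ ω, gm (wm μ s N (Pn N y) ω) (f ω) ∂(Pm μ N) +
        2 * (Real.exp (-(L : ℝ) ^ c₂) + 4 * Real.exp (-M)) + C₂ := by
  intro ε θ hε hθ
  obtain ⟨δ, κ, c₂, hδ, hκ, hc₂, L₀, hP⟩ := okE_price h ε θ hε hθ
  refine ⟨δ, κ, c₂, hδ, hκ, hc₂, L₀, ?_⟩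
  intro L hL N hLN hNL y hyN hyc M hM hML c d τ1 l1 τ2 l2 τo lo q g0 g1 l h1 h2 h3 h4 h5 h6 h7 hq hl hl1 hl2 hlo dd e1 d3 hdd he1 f hfm
    hf0 hf1 hfb C₂ hT
  have eno : τo ≤ en τo lo q := by
    unfold en
    omega
  have en1 : τ1 ≤ en τ1 l1 q := by
    unfold en
    omega
  have en2 : τ2 ≤ en τ2 l2 q := by
    unfold en
    omega
  have D := dom_tie (μ := μ) (s := s) (N := N) (y := y) (M := M) (c := c) (d := d) (l := lo) hq hdd (show c ≤ τo by omega) h6 Ty.R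
  have h8 := hP L hL N hLN hNL y hyN hyc M hM hML c d τ1 l1 τ2 l2 q g0 g1 l d h1 h2 h3 h4 (by omega) h7 le_rfl hq hl hl1 hl2
    ⟨c, d, c, d, τo, en τo lo q, lo, Ty.R, False⟩ rfl ⟨⟨le_rfl, by show c ≤ τo; omega, eno, h6, le_rfl, h7⟩, hl.trans (by exact_mod_cast hlo)⟩
    hlo h5 le_rfl _ (fun A x => iE_meas (fun A x => meas_tieP c d τo lo q dd A x) A x) D
    (fun ω x => bI (wm μ s N (Pn N y) ω) (pJ c d) τo lo q dd x = 1) (fun ω x hb => by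
      have : Nonempty (Px (Pn N y)) := ⟨x⟩
      exact iE_one (tieP_not hb)) dd e1 d3 hdd he1 f hfm hf0 hf1 hfb
  exact okE_split hyN hf0 hf1 hfm (fun A x => iE_meas (fun A x => meas_evT c d τ2 l2 q d3 A x) A x) (fun ω x => (iE_mem _ ω x).1)
    (fun ω x => (iE_mem _ ω x).2) (fun ω x _ hE => iE_one hE) (fun A x => (meas_okE c d (fun A x => meas_bI c d τo lo q dd A x) q dd e1 d3
      g0 g1 τ1 l1 τ2 l2 A x).compl.inter (meas_evT c d τ2 l2 q d3 A x).compl) h8 hT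

/-- **`¬ okE`, OWN IN FRONT, WITH THE THREE BRANCHES**: own region `o` (pieces) < `[g0, g1]` < region 2 < region 1, all given `pJ c d`. -/
theorem okE_fullL (h : In μ s c₀ C₀ n₀) : ∀ ε θ : ℝ, 0 < ε → 0 < θ → ∃ δ κ c₂ : ℝ, 0 < δ ∧ 0 < κ ∧ 0 < c₂ ∧ ∃ L₀ : ℕ,
    ∀ L : ℕ, L₀ ≤ L → ∀ N : ℕ, L ≤ 16 * N → N ≤ L → ∀ y : ℕ, y ≤ N → |(y : ℝ) - sl μ s * N| ≤ ((L : ℝ) ^ δ * wd' μ s N) →
    ∀ M : ℝ, 8 ≤ M → M ≤ (L : ℝ) ^ κ → ∀ c d τ1 l1 τ2 l2 τo lo q g0 g1 l : ℕ, c ≤ τo → en τo lo q ≤ g0 → g0 + l ≤ g1 → g1 ≤ τ2 →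
    en τ2 l2 q ≤ τ1 → en τ1 l1 q ≤ d → d ≤ N → 3 * (q : ℝ) ≤ (L : ℝ) ^ κ → (L : ℝ) ^ θ ≤ l → l ≤ l1 → l ≤ l2 → l ≤ lo →
    ∀ dd e1 d3 : ℝ, Real.exp (-(L : ℝ) ^ κ) ≤ dd → Real.exp (-(L : ℝ) ^ κ) ≤ e1 →
    ∀ f : Env × Finset ℕ → Px (Pn N y) → ℝ, (∀ A x, Measurable fun η => f (η, A) x) → (∀ ω x, 0 ≤ f ω x) → (∀ ω x, f ω x ≤ 1) →
    FinB (Ioo c d) f → ∀ C₂ : ℝ,
    ∫ ω, gm (wm μ s N (Pn N y) ω) (fun x => f ω x * iE (fun ω x => EvT (wm μ s N (Pn N y) ω) (pJ c d) τ2 l2 q d3 x) ω x) ∂(Pm μ N) ≤ C₂ →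
    ∫ ω, gm (wm μ s N (Pn N y) ω) (fun x => f ω x * iE (fun ω x =>
      ¬ okE (wm μ s N (Pn N y) ω) (pJ c d) (fun x => bI (wm μ s N (Pn N y) ω) (pJ c d) τo lo q dd x = 1) q dd e1 d3 g0 g1 τ1 l1 τ2 l2 x)
        ω x) ∂(Pm μ N) ≤
      2 * ((L : ℝ) ^ ε * (EE' μ s l)⁻¹) ^ 2 * ∫ ω, gm (wm μ s N (Pn N y) ω) (f ω) ∂(Pm μ N) +
        2 * (Real.exp (-(L : ℝ) ^ c₂) + 4 * Real.exp (-M)) + C₂ := by
  intro ε θ hε hθ
  obtain ⟨δ, κ, c₂, hδ, hκ, hc₂, L₀, hP⟩ := okE_priceL h ε θ hε hθ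
  refine ⟨δ, κ, c₂, hδ, hκ, hc₂, L₀, ?_⟩
  intro L hL N hLN hNL y hyN hyc M hM hML c d τ1 l1 τ2 l2 τo lo q g0 g1 l h1 h2 h3 h4 h5 h6 h7 hq hl hl1 hl2 hlo dd e1 d3 hdd he1 f hfm
    hf0 hf1 hfb C₂ hT
  have eno : τo ≤ en τo lo q := by
    unfold en
    omega
  have en1 : τ1 ≤ en τ1 l1 q := by
    unfold en
    omega
  have en2 : τ2 ≤ en τ2 l2 q := by
    unfold en
    omega
  have D := dom_tie (μ := μ) (s := s) (N := N) (y := y) (M := M) (c := c) (d := d) (l := lo) hq hdd h1 (show en τo lo q ≤ d by omega) Ty.M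
  have h8 := hP L hL N hLN hNL y hyN hyc M hM hML c d τ1 l1 τ2 l2 q g0 g1 l c (by omega) h3 h4 h5 h6 h7 le_rfl hq hl hl1 hl2
    ⟨c, d, c, d, τo, en τo lo q, lo, Ty.M, False⟩ rfl
    ⟨⟨le_rfl, h1, eno, by show en τo lo q ≤ d; omega, le_rfl, h7⟩, hl.trans (by exact_mod_cast hlo)⟩
    hlo h2 le_rfl _ (fun A x => iE_meas (fun A x => meas_tieP c d τo lo q dd A x) A x) D
    (fun ω x => bI (wm μ s N (Pn N y) ω) (pJ c d) τo lo q dd x = 1) (fun ω x hb => by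
      have : Nonempty (Px (Pn N y)) := ⟨x⟩
      exact iE_one (tieP_not hb)) dd e1 d3 hdd he1 f hfm hf0 hf1 hfb
  exact okE_split hyN hf0 hf1 hfm (fun A x => iE_meas (fun A x => meas_evT c d τ2 l2 q d3 A x) A x) (fun ω x => (iE_mem _ ω x).1)
    (fun ω x => (iE_mem _ ω x).2) (fun ω x _ hE => iE_one hE) (fun A x => (meas_okE c d (fun A x => meas_bI c d τo lo q dd A x) q dd e1 d3
      g0 g1 τ1 l1 τ2 l2 A x).compl.inter (meas_evT c d τ2 l2 q d3 A x).compl) h8 hT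

end Pool.Agent.W_7d29a1_C0.P15
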