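import Pool.Agent.W_7d29a1_C0.Rob43B

/-!
MP_7d29a1_pr, [CURV0] / [C0]: THE MIXED ROBUST STEP (helper45), over helper43's `Rob43`, `Rob43B`.

A path `S` is drawn given the coarse condition `q` (for instance `pJ 0 z`, everything behind the row `z`), and a pair `(S₁, S₂)` given
a FINER condition `p` (for instance the outside `pJ c d` of a block in front of `z`), averaged given `q`. If the pair does not meet in
`[τ, L]` (rows of the block of `p`) with mass at least `exp (- 5 M)`, then every path `S`, up to a mass `exp (- M)`, has GIVEN `q`, in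
one of the `3 k` pieces of `[τ, L]`, an alternative of mass more than `exp (- 7 M)` (`tauM_rp`). Proof as in `rob`: the exchange of pieces
of `S` and `S₁` inside the block keeps `w S * K S₁ S₂`, `K` = the law of the pair.
-/

set_option autoImplicit false
set_option linter.unusedSectionVars false

namespace Pool.W7d29a1.C0.R43

open Finset MeasureTheory Pool.Agent.W_7d29a1_F Pool.Agent.W_7d29a1_X Pool.Agent.W_7d29a1_C0.Mod92
open Pool.Agent.W_7d29a1_C0.Swap57
open Pool.W7d29a1.C0 (gz gm lse gz_pos gz_ne gm_nonneg gm_mono gm_const)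
open Pool.W7d29a1.C0.VT31

noncomputable section

/-! ### Pairs with any law which sees the exchanges only through the product -/

section Ker

variable {Q : Finset (Finset ℕ)} {w : Finset ℕ → ℝ} {K : Finset ℕ → Finset ℕ → ℝ} {a b : ℕ}

/-- The law `K` of a pair: both marginals at most `w`, and the exchange of pieces, in the rows of `[a, b)`, of a path of law `w` with
the first path of the pair keeps the product. -/
structure PrK (Q : Finset (Finset ℕ)) (w : Finset ℕ → ℝ) (K : Finset ℕ → Finset ℕ → ℝ) (a b : ℕ) : Prop where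
  nn : ∀ S ∈ Q, ∀ T ∈ Q, 0 ≤ K S T
  mul : ∀ I : Finset ℕ, I ⊆ Ico a b → ∀ S ∈ Q, ∀ T ∈ Q, ∀ U ∈ Q, Bd I S T → w (mx I S T) * K (mx I T S) U = w S * K T U
  m1 : ∀ T ∈ Q, ∑ U ∈ Q, K T U ≤ w T
  m2 : ∀ U ∈ Q, ∑ T ∈ Q, K T U ≤ w U

/-- The weight of a triple. -/
def wK (w : Finset ℕ → ℝ) (K : Finset ℕ → Finset ℕ → ℝ) (x : Finset ℕ × Finset ℕ × Finset ℕ) : ℝ := w x.1 * K x.2.1 x.2.2

theorem IA_sub {τ l k L : ℕ} {A S T : Finset ℕ} (hA : A ⊆ range k) (ha : a ≤ τ) (hL : τ + 3 * k * (l + 1) ≤ L) (hb : L ≤ b)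
    (h : MA τ l A S T) : IA τ l A S T ⊆ Ico a b := by
  intro t ht
  obtain ⟨i, hi, h1, h2⟩ := mem_IA.1 ht
  have hik : i < k := mem_range.1 (hA hi)
  obtain ⟨h3, -, -⟩ := fm_mem (h i hi).1
  obtain ⟨-, h4, -⟩ := fm_mem (h i hi).2
  have g1 := le_st τ l (3 * i)
  have g2 := st_end (τ := τ) (l := l) (q := k) (n := 3 * i + 2) (by omega)
  rw [mem_Ico]
  omega

theorem phK_mem (h : SwF Q w) (hK : PrK Q w K a b) {τ l k L : ℕ} (ha : a ≤ τ) (hL : τ + 3 * k * (l + 1) ≤ L) (hb : L ≤ b)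
    {A : Finset ℕ} (hA : A ⊆ range k) {x : Finset ℕ × Finset ℕ × Finset ℕ} (hx : x ∈ Gd Q τ l k) :
    Ph τ l A x ∈ Q ×ˢ Q ×ˢ Q ∧ wK w K (Ph τ l A x) = wK w K x := by
  classical
  unfold Gd at hx
  rw [mem_filter, mem_product, mem_product] at hx
  obtain ⟨⟨h1, h2, h3⟩, h4, -, -⟩ := hx
  have hB := bd_IA (h4.sub hA)
  refine ⟨?_, ?_⟩
  · rw [mem_product, mem_product]
    exact ⟨h.mem _ _ h1 _ h2 hB, h.mem _ _ h2 _ h1 hB.symm, h3⟩
  · exact hK.mul _ (IA_sub hA ha hL hb (h4.sub hA)) _ h1 _ h2 _ h3 hB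

/-- **The entropy bound.** -/
theorem gdK_le (h : SwF Q w) (hK : PrK Q w K a b) {τ l k L : ℕ} (ha : a ≤ τ) (hL : τ + 3 * k * (l + 1) ≤ L) (hb : L ≤ b) :
    2 ^ k * ∑ x ∈ Gd Q τ l k, wK w K x ≤ 1 := by
  classical
  have hw0 : ∀ x ∈ Q ×ˢ Q ×ˢ Q, 0 ≤ wK w K x := by
    intro x hx
    rw [mem_product, mem_product] at hx
    exact mul_nonneg (h.nn _ hx.1) (hK.nn _ hx.2.1 _ hx.2.2)
  have hinj : ∀ A ⊆ range k, Set.InjOn (Ph τ l A) (Gd Q τ l k : Set (Finset ℕ × Finset ℕ × Finset ℕ)) := by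
    intro A hA x hx x' hx' hxx
    have h1 : MA τ l A x.1 x.2.1 := ((mem_filter.1 (mem_coe.1 hx)).2.1).sub hA
    have h2 : MA τ l A x'.1 x'.2.1 := ((mem_filter.1 (mem_coe.1 hx')).2.1).sub hA
    rw [← Ph_Ph h1, ← Ph_Ph h2, hxx]
  have hdis : Set.PairwiseDisjoint ((range k).powerset : Set (Finset ℕ)) fun A => (Gd Q τ l k).image (Ph τ l A) := by
    intro A hA A' hA' hne
    rw [mem_coe, mem_powerset] at hA hA'
    rw [Function.onFun, disjoint_left]
    intro z hz hz'
    rw [mem_image] at hz hz'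
    obtain ⟨x, hx, hxz⟩ := hz
    obtain ⟨x', hx', hxz'⟩ := hz'
    refine hne ?_
    ext i
    by_cases hi : i ∈ range k
    · rw [← ph_pat hA hx hi, ← ph_pat hA' hx' hi, hxz, hxz']
    · exact iff_of_false (fun h1 => hi (hA h1)) fun h1 => hi (hA' h1)
  have e1 : ∑ A ∈ (range k).powerset, ∑ z ∈ (Gd Q τ l k).image (Ph τ l A), wK w K z = 2 ^ k * ∑ x ∈ Gd Q τ l k, wK w K x := by
    rw [sum_congr rfl fun A hA => ?_, sum_const, card_powerset, card_range, nsmul_eq_mul]
    · push_cast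
      rfl
    · rw [mem_powerset] at hA
      rw [sum_image (hinj A hA)]
      exact sum_congr rfl fun x hx => (phK_mem h hK ha hL hb hA hx).2
  rw [← e1, ← sum_biUnion hdis]
  calc _ ≤ ∑ z ∈ Q ×ˢ Q ×ˢ Q, wK w K z := by
        refine sum_le_sum_of_subset_of_nonneg ?_ fun z hz _ => hw0 z hz
        intro z hz
        rw [mem_biUnion] at hz
        obtain ⟨A, hA, hz⟩ := hz
        rw [mem_powerset] at hA
        rw [mem_image] at hz
        obtain ⟨x, hx, rfl⟩ := hz
        exact (phK_mem h hK ha hL hb hA hx).1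
    _ = (∑ S ∈ Q, w S) * ∑ T ∈ Q, ∑ U ∈ Q, K T U := by
        rw [sum_product, sum_mul]
        refine sum_congr rfl fun S _ => ?_
        rw [sum_product, mul_sum]
        refine sum_congr rfl fun T _ => ?_
        rw [mul_sum]
        rfl
    _ ≤ 1 * 1 := by
        have h0 : 0 ≤ ∑ S ∈ Q, w S := sum_nonneg h.nn
        have h1 : ∑ T ∈ Q, ∑ U ∈ Q, K T U ≤ 1 := (sum_le_sum hK.m1).trans h.tot
        have h2 : 0 ≤ ∑ T ∈ Q, ∑ U ∈ Q, K T U := sum_nonneg fun T hT => sum_nonneg fun U hU => hK.nn T hT U hU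
        exact mul_le_mul h.tot h1 h2 zero_le_one
    _ = 1 := one_mul 1

open Classical in
/-- The mass of the pairs of law `K` which do not meet in `[i, j]`. -/
def pK (Q : Finset (Finset ℕ)) (K : Finset ℕ → Finset ℕ → ℝ) (i j : ℕ) : ℝ :=
  ∑ S ∈ Q, ∑ T ∈ Q, if Nm i j S T then K S T else 0

/-- **THE ROBUST STEP for a pair of law `K`.** -/
theorem robK (h : SwF Q w) (hK : PrK Q w K a b) (τ l k : ℕ) {d : ℝ} (hd : 0 ≤ d) {L : ℕ} (ha : a ≤ τ)
    (hL : τ + 3 * k * (l + 1) ≤ L) (hb : L ≤ b) :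
    gB Q w τ l k d * pK Q K τ L ≤ (1 / 2) ^ k + 3 * k * d := by
  classical
  have hw0 := h.nn
  have htot := h.tot
  set B : Finset ℕ → Prop := fun S => ∀ n < 3 * k, mn Q w τ l n S ≤ d with hB
  -- the product as a sum over triples
  have e1 : gB Q w τ l k d * pK Q K τ L = ∑ S ∈ Q, ∑ T ∈ Q, ∑ U ∈ Q, if B S ∧ Nm τ L T U then w S * K T U else 0 := by
    unfold gB pK
    rw [sum_mul]
    refine sum_congr rfl fun S _ => ?_
    rw [mul_sum]
    refine sum_congr rfl fun T _ => ?_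
    rw [mul_sum]
    refine sum_congr rfl fun U _ => ?_
    by_cases h1 : B S
    · by_cases h2 : Nm τ L T U
      · rw [if_pos h1, if_pos h2, if_pos ⟨h1, h2⟩]
      · rw [if_neg h2, if_neg (show ¬ (B S ∧ Nm τ L T U) from fun h3 => h2 h3.2), mul_zero]
    · rw [if_neg (show ¬ (∀ n < 3 * k, mn Q w τ l n S ≤ d) from h1), if_neg (show ¬ (B S ∧ Nm τ L T U) from fun h3 => h1 h3.1),
        zero_mul]
  -- pointwise: good triple or a missing meeting
  have key : ∀ S ∈ Q, ∀ T ∈ Q, ∀ U ∈ Q, (if B S ∧ Nm τ L T U then w S * K T U else 0) ≤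
      (if (S, T, U) ∈ Gd Q τ l k then w S * K T U else 0) +
      ∑ n ∈ range (3 * k), ((if B S ∧ n % 3 ≠ 1 ∧ Nm (st τ l n) (st τ l n + l) S T then w S * K T U else 0) +
        (if B S ∧ n % 3 = 1 ∧ Nm (st τ l n) (st τ l n + l) S U then w S * K T U else 0)) := by
    intro S hS T hT U hU
    have hp : 0 ≤ w S * K T U := mul_nonneg (hw0 S hS) (hK.nn T hT U hU)
    have hite : ∀ (c : Prop) [Decidable c], 0 ≤ (if c then w S * K T U else 0) := fun c _ => by
      split_ifs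
      · exact hp
      · exact le_rfl
    have hsn : ∀ n, 0 ≤ (if B S ∧ n % 3 ≠ 1 ∧ Nm (st τ l n) (st τ l n + l) S T then w S * K T U else 0) +
        (if B S ∧ n % 3 = 1 ∧ Nm (st τ l n) (st τ l n + l) S U then w S * K T U else 0) := fun n =>
      add_nonneg (hite _) (hite _)
    have hsum0 := sum_nonneg fun n (_ : n ∈ range (3 * k)) => hsn n
    have hg0 : 0 ≤ (if (S, T, U) ∈ Gd Q τ l k then w S * K T U else 0) := hite _
    by_cases hBN : B S ∧ Nm τ L T U
    · rw [if_pos hBN]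
      by_cases hg : (S, T, U) ∈ Gd Q τ l k
      · rw [if_pos hg]
        linarith
      · -- some meeting is missing
        have hex : ∃ n ∈ range (3 * k), (n % 3 ≠ 1 ∧ Nm (st τ l n) (st τ l n + l) S T) ∨
            (n % 3 = 1 ∧ Nm (st τ l n) (st τ l n + l) S U) := by
          by_contra hcon
          push Not at hcon
          refine hg ?_
          unfold Gd
          rw [mem_filter, mem_product, mem_product]
          refine ⟨⟨hS, hT, hU⟩, ?_, ?_, ?_⟩
          · intro i hi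
            rw [mem_range] at hi
            refine ⟨(hcon (3 * i) (mem_range.2 (by omega))).1 (by omega),
              (hcon (3 * i + 2) (mem_range.2 (by omega))).1 (by omega)⟩
          · intro i hi
            rw [mem_range] at hi
            exact (hcon (3 * i + 1) (mem_range.2 (by omega))).2 (by omega)
          · intro i hi j hk1 hk2
            rw [mem_range] at hi
            have g1 := le_st τ l (3 * i + 1)
            have g2 := st_end (τ := τ) (l := l) (q := k) (n := 3 * i + 1) (by omega)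
            exact hBN.2 j (by omega) (by omega)
        obtain ⟨n, hn, hor⟩ := hex
        have h1 : w S * K T U ≤ (if B S ∧ n % 3 ≠ 1 ∧ Nm (st τ l n) (st τ l n + l) S T then w S * K T U else 0) +
            (if B S ∧ n % 3 = 1 ∧ Nm (st τ l n) (st τ l n + l) S U then w S * K T U else 0) := by
          rcases hor with ho | ho
          · rw [if_pos ⟨hBN.1, ho⟩]
            have := hite (B S ∧ n % 3 = 1 ∧ Nm (st τ l n) (st τ l n + l) S U)
            linarith
          · rw [if_pos (show B S ∧ n % 3 = 1 ∧ Nm (st τ l n) (st τ l n + l) S U from ⟨hBN.1, ho⟩)]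
            have := hite (B S ∧ n % 3 ≠ 1 ∧ Nm (st τ l n) (st τ l n + l) S T)
            linarith
        have h2 := single_le_sum (f := fun n => (if B S ∧ n % 3 ≠ 1 ∧ Nm (st τ l n) (st τ l n + l) S T then w S * K T U else 0) +
            (if B S ∧ n % 3 = 1 ∧ Nm (st τ l n) (st τ l n + l) S U then w S * K T U else 0)) (fun n _ => hsn n) hn
        linarith
    · rw [if_neg hBN]
      linarith
  -- the missing meetings cost `d`
  have hmiss : ∀ n ∈ range (3 * k), ∑ S ∈ Q, ∑ T ∈ Q, ∑ U ∈ Q,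
      ((if B S ∧ n % 3 ≠ 1 ∧ Nm (st τ l n) (st τ l n + l) S T then w S * K T U else 0) +
        (if B S ∧ n % 3 = 1 ∧ Nm (st τ l n) (st τ l n + l) S U then w S * K T U else 0)) ≤ d := by
    intro n hn
    rw [mem_range] at hn
    have hS1 : ∀ S ∈ Q, ∑ T ∈ Q, ∑ U ∈ Q,
        ((if B S ∧ n % 3 ≠ 1 ∧ Nm (st τ l n) (st τ l n + l) S T then w S * K T U else 0) +
          (if B S ∧ n % 3 = 1 ∧ Nm (st τ l n) (st τ l n + l) S U then w S * K T U else 0)) ≤ w S * d := by
      intro S hS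
      by_cases hBS : B S
      · have hm := hBS n hn
        by_cases h3 : n % 3 = 1
        · have e2 : ∑ T ∈ Q, ∑ U ∈ Q, ((if B S ∧ n % 3 ≠ 1 ∧ Nm (st τ l n) (st τ l n + l) S T then w S * K T U else 0) +
              (if B S ∧ n % 3 = 1 ∧ Nm (st τ l n) (st τ l n + l) S U then w S * K T U else 0)) =
              w S * ∑ U ∈ Q, if Nm (st τ l n) (st τ l n + l) S U then ∑ T ∈ Q, K T U else 0 := by
            rw [sum_comm, mul_sum]
            refine sum_congr rfl fun U _ => ?_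
            by_cases h5 : Nm (st τ l n) (st τ l n + l) S U
            · rw [if_pos h5, mul_sum]
              refine sum_congr rfl fun T _ => ?_
              rw [if_neg fun h4 => h4.2.1 h3, zero_add, if_pos ⟨hBS, h3, h5⟩]
            · rw [if_neg h5, mul_zero]
              refine sum_eq_zero fun T _ => ?_
              rw [if_neg fun h4 => h4.2.1 h3, zero_add, if_neg fun h6 => h5 h6.2.2]
          rw [e2]
          refine mul_le_mul_of_nonneg_left (le_trans ?_ hm) (hw0 S hS)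
          unfold mn
          refine sum_le_sum fun U hU => ?_
          split_ifs
          · exact hK.m2 U hU
          · exact le_rfl
        · have e2 : ∑ T ∈ Q, ∑ U ∈ Q, ((if B S ∧ n % 3 ≠ 1 ∧ Nm (st τ l n) (st τ l n + l) S T then w S * K T U else 0) +
              (if B S ∧ n % 3 = 1 ∧ Nm (st τ l n) (st τ l n + l) S U then w S * K T U else 0)) =
              w S * ∑ T ∈ Q, if Nm (st τ l n) (st τ l n + l) S T then ∑ U ∈ Q, K T U else 0 := by
            rw [mul_sum]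
            refine sum_congr rfl fun T _ => ?_
            by_cases h5 : Nm (st τ l n) (st τ l n + l) S T
            · rw [if_pos h5, mul_sum]
              refine sum_congr rfl fun U _ => ?_
              rw [if_neg (show ¬ (B S ∧ n % 3 = 1 ∧ Nm (st τ l n) (st τ l n + l) S U) from fun h4 => h3 h4.2.1), add_zero,
                if_pos ⟨hBS, h3, h5⟩]
            · rw [if_neg h5, mul_zero]
              refine sum_eq_zero fun U _ => ?_
              rw [if_neg (show ¬ (B S ∧ n % 3 = 1 ∧ Nm (st τ l n) (st τ l n + l) S U) from fun h4 => h3 h4.2.1), add_zero,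
                if_neg fun h6 => h5 h6.2.2]
          rw [e2]
          refine mul_le_mul_of_nonneg_left (le_trans ?_ hm) (hw0 S hS)
          unfold mn
          refine sum_le_sum fun T hT => ?_
          split_ifs
          · exact hK.m1 T hT
          · exact le_rfl
      · rw [sum_eq_zero fun T _ => sum_eq_zero fun U _ => by
          rw [if_neg fun h4 => hBS h4.1, if_neg fun h4 => hBS h4.1, add_zero]]
        exact mul_nonneg (hw0 S hS) hd
    refine (sum_le_sum hS1).trans ?_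
    rw [← sum_mul]
    calc _ ≤ 1 * d := mul_le_mul_of_nonneg_right htot hd
      _ = d := one_mul d
  rw [e1]
  have e3 : ∑ S ∈ Q, ∑ T ∈ Q, ∑ U ∈ Q, (if (S, T, U) ∈ Gd Q τ l k then w S * K T U else 0) =
      ∑ x ∈ Gd Q τ l k, wK w K x := by
    have e4 : ∑ x ∈ Q ×ˢ Q ×ˢ Q, (if x ∈ Gd Q τ l k then wK w K x else 0) = ∑ x ∈ Gd Q τ l k, wK w K x := by
      rw [← sum_filter]
      refine sum_congr ?_ fun _ _ => rfl
      ext x
      rw [mem_filter]
      refine ⟨fun h1 => h1.2, fun h1 => ⟨?_, h1⟩⟩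
      unfold Gd at h1
      exact (mem_filter.1 h1).1
    rw [← e4, sum_product]
    refine sum_congr rfl fun S _ => ?_
    rw [sum_product]
    rfl
  have hgd := gdK_le h hK ha hL hb
  have hgd' : ∑ x ∈ Gd Q τ l k, wK w K x ≤ (1 / 2) ^ k := by
    rw [one_div, inv_pow]
    rw [← one_div, le_div_iff₀ (by positivity)]
    linarith
  calc _ ≤ ∑ S ∈ Q, ∑ T ∈ Q, ∑ U ∈ Q, ((if (S, T, U) ∈ Gd Q τ l k then w S * K T U else 0) +
      ∑ n ∈ range (3 * k), ((if B S ∧ n % 3 ≠ 1 ∧ Nm (st τ l n) (st τ l n + l) S T then w S * K T U else 0) +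
        (if B S ∧ n % 3 = 1 ∧ Nm (st τ l n) (st τ l n + l) S U then w S * K T U else 0))) :=
        sum_le_sum fun S hS => sum_le_sum fun T hT => sum_le_sum fun U hU => key S hS T hT U hU
    _ = ∑ x ∈ Gd Q τ l k, wK w K x + ∑ n ∈ range (3 * k), ∑ S ∈ Q, ∑ T ∈ Q, ∑ U ∈ Q,
        ((if B S ∧ n % 3 ≠ 1 ∧ Nm (st τ l n) (st τ l n + l) S T then w S * K T U else 0) +
        (if B S ∧ n % 3 = 1 ∧ Nm (st τ l n) (st τ l n + l) S U then w S * K T U else 0)) := by
        rw [← e3, sum_comm (s := range (3 * k)), ← sum_add_distrib]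
        refine sum_congr rfl fun S _ => ?_
        rw [sum_comm (s := range (3 * k)), ← sum_add_distrib]
        refine sum_congr rfl fun T _ => ?_
        rw [sum_comm (s := range (3 * k)), ← sum_add_distrib]
    _ ≤ (1 / 2) ^ k + ∑ n ∈ range (3 * k), d := add_le_add hgd' (sum_le_sum hmiss)
    _ = (1 / 2) ^ k + 3 * k * d := by
        rw [sum_const, card_range, nsmul_eq_mul]
        push_cast
        ring

/-- The numbers. -/
theorem num45 {k : ℕ} {M X : ℝ} (hM : 8 ≤ M) (hq : 10 * M ≤ k) (hq' : (k : ℝ) ≤ 20 * M)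
    (h3 : X * Real.exp (-(5 * M)) ≤ (1 / 2) ^ k + 3 * k * Real.exp (-(7 * M))) : X ≤ Real.exp (-M) := by
  have h4 : ((1 : ℝ) / 2) ^ k ≤ Real.exp (-(13 / 2 * M)) := by
    have e1 : (1 : ℝ) / 2 ≤ Real.exp (-(65 / 100)) := by
      rw [Real.exp_neg, one_div]
      refine inv_anti₀ (Real.exp_pos _) ?_
      have : (65 / 100 : ℝ) ≤ Real.log 2 := by
        have := Real.log_two_gt_d9
        linarith
      calc Real.exp (65 / 100) ≤ Real.exp (Real.log 2) := Real.exp_le_exp.2 this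
        _ = 2 := Real.exp_log (by norm_num)
    calc ((1 : ℝ) / 2) ^ k ≤ Real.exp (-(65 / 100)) ^ k := pow_le_pow_left₀ (by norm_num) e1 k
      _ = Real.exp (k * (-(65 / 100))) := (Real.exp_nat_mul _ _).symm
      _ ≤ _ := Real.exp_le_exp.2 (by linarith)
  have h5 : X ≤ Real.exp (-(3 / 2 * M)) + 60 * M * Real.exp (-(2 * M)) := by
    have e1 : (0 : ℝ) < Real.exp (-(5 * M)) := Real.exp_pos _
    rw [← mul_le_mul_iff_left₀ e1]
    refine h3.trans ?_
    have e2 : Real.exp (-(13 / 2 * M)) = Real.exp (-(3 / 2 * M)) * Real.exp (-(5 * M)) := by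
      rw [← Real.exp_add]
      congr 1
      ring
    have e3 : Real.exp (-(7 * M)) = Real.exp (-(2 * M)) * Real.exp (-(5 * M)) := by
      rw [← Real.exp_add]
      congr 1
      ring
    have e4 : 3 * (k : ℝ) * Real.exp (-(7 * M)) ≤ 60 * M * Real.exp (-(2 * M)) * Real.exp (-(5 * M)) := by
      rw [e3]
      have : 0 ≤ Real.exp (-(2 * M)) * Real.exp (-(5 * M)) := by positivity
      nlinarith
    calc _ ≤ Real.exp (-(3 / 2 * M)) * Real.exp (-(5 * M)) + 60 * M * Real.exp (-(2 * M)) * Real.exp (-(5 * M)) :=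
          add_le_add (h4.trans e2.le) e4
      _ = _ := by ring
  refine h5.trans ?_
  have e5 : Real.exp (-(3 / 2 * M)) = Real.exp (-(M / 2)) * Real.exp (-M) := by
    rw [← Real.exp_add]
    congr 1
    ring
  have e6 : Real.exp (-(2 * M)) = Real.exp (-M) * Real.exp (-M) := by
    rw [← Real.exp_add]
    congr 1
    ring
  have e7 : Real.exp (-(M / 2)) ≤ 1 / 2 := by
    have h6 : Real.exp (-(M / 2)) ≤ Real.exp (-(4 * Real.log 2)) := by
      refine Real.exp_le_exp.2 ?_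
      have := Real.log_two_lt_d9
      linarith
    have h7 : Real.exp (-(4 * Real.log 2)) = 1 / 16 := by
      rw [Real.exp_neg, show (4 : ℝ) * Real.log 2 = ((4 : ℕ) : ℝ) * Real.log 2 by norm_num, Real.exp_nat_mul, Real.exp_log (by norm_num)]
      norm_num
    linarith
  have e8 : 60 * M * Real.exp (-M) ≤ 1 / 2 := by
    have h6 : 120 * M ≤ Real.exp M := by
      have h7 : Real.exp M = Real.exp 8 * Real.exp (M - 8) := by
        rw [← Real.exp_add]
        congr 1
        ring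
      have h8 : (960 : ℝ) ≤ Real.exp 8 := by
        have h9 : Real.exp 8 = Real.exp 1 ^ 8 := by
          rw [← Real.exp_nat_mul]
          norm_num
        rw [h9]
        have h10 : (2.7 : ℝ) ≤ Real.exp 1 := by
          have := Real.exp_one_gt_d9
          linarith
        calc (960 : ℝ) ≤ 2.7 ^ 8 := by norm_num
          _ ≤ Real.exp 1 ^ 8 := pow_le_pow_left₀ (by norm_num) h10 8
      have h11 : M - 8 + 1 ≤ Real.exp (M - 8) := Real.add_one_le_exp _
      have h12 : 0 ≤ M - 8 := by linarith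
      rw [h7]
      calc 120 * M ≤ 960 * (M - 8 + 1) := by nlinarith
        _ ≤ Real.exp 8 * Real.exp (M - 8) := by
          refine mul_le_mul h8 h11 (by linarith) (Real.exp_pos _).le
    rw [Real.exp_neg]
    have h13 : 0 < Real.exp M := Real.exp_pos _
    rw [← div_eq_mul_inv, div_le_iff₀ h13]
    linarith
  rw [e5, e6]
  have h0 : 0 < Real.exp (-M) := Real.exp_pos _
  calc _ = (Real.exp (-(M / 2)) + 60 * M * Real.exp (-M)) * Real.exp (-M) := by ring
    _ ≤ 1 * Real.exp (-M) := mul_le_mul_of_nonneg_right (by linarith) h0.le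
    _ = _ := one_mul _

end Ker

/-! ### In the model -/

section Fib

variable {μ : Measure ℝ} {s : ℝ} {N : ℕ} {Q : Finset (Finset ℕ)}
variable {Y Y' : Type*} [DecidableEq Y] [DecidableEq Y'] [Nonempty (Px Q)]

/-- The condition `p` does not see the exchanges of pieces inside the rows of `[a, b)`. -/
def BlP (p : Px Q → Y) (a b : ℕ) : Prop :=
  ∀ (I : Finset ℕ) (S T U : Px Q), I ⊆ Ico a b → Bd I S.1 T.1 → U.1 = mx I S.1 T.1 → p U = p S

theorem blP_pJ {c d : ℕ} (hcd : c ≤ d) : BlP (Q := Q) (pJ c d) c d := by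
  intro I S T U hI hb hU
  have h1 : U.1 \ Ico c d = S.1 \ Ico c d := by
    rw [hU]
    ext t
    rw [mem_sdiff, mem_mx, mem_sdiff]
    constructor
    · rintro ⟨h2, h3⟩
      rw [if_neg fun h4 => h3 (hI h4)] at h2
      exact ⟨h2, h3⟩
    · rintro ⟨h2, h3⟩
      rw [if_neg fun h4 => h3 (hI h4)]
      exact ⟨h2, h3⟩
  have hpos : ∀ t, t ≤ c ∨ d ≤ t → pos (mx I S.1 T.1) t = pos S.1 t := by
    intro t ht
    cases t with
    | zero => rw [pos_zero, pos_zero]
    | succ t =>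
      rw [pos_mx hb]
      split_ifs with h2
      · have h3 := mem_Ico.1 (hI h2)
        refine (hb t fun h4 => ?_).symm
        have h5 := mem_Ico.1 (hI (h4.1 h2))
        omega
      · rfl
  unfold pJ
  rw [h1]
  congr 1
  have e1 := card_Ico_pos U.1 hcd
  have e2 := card_Ico_pos S.1 hcd
  rw [hU, hpos c (Or.inl le_rfl), hpos d (Or.inr le_rfl), ← e2] at e1
  rw [← hU] at e1
  exact_mod_cast e1

theorem BlP.mono {p : Px Q → Y} {a b a' b' : ℕ} (h : BlP p a b) (ha : a ≤ a') (hb : b' ≤ b) : BlP p a' b' :=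
  fun I S T U hI => h I S T U fun t ht => by
    have := mem_Ico.1 (hI ht)
    rw [mem_Ico]
    omega

open Classical in
/-- The law of the pair: the first path given `q`, the second given `p` of the first one. -/
def kP (w : Px Q → ℝ) (q : Px Q → Y') (p : Px Q → Y) (S₀ : Px Q) (T U : Finset ℕ) : ℝ :=
  if h : T ∈ Q ∧ U ∈ Q then
    (if p ⟨U, h.2⟩ = p ⟨T, h.1⟩ then Real.exp (w ⟨T, h.1⟩) / fz w q S₀ * (Real.exp (w ⟨U, h.2⟩) / fz w p ⟨T, h.1⟩) else 0)
  else 0

theorem kP_symm (w : Px Q → ℝ) (q : Px Q → Y') (p : Px Q → Y) (S₀ : Px Q) (T U : Finset ℕ) :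
    kP w q p S₀ T U = kP w q p S₀ U T := by
  classical
  unfold kP
  by_cases h : T ∈ Q ∧ U ∈ Q
  · rw [dif_pos h, dif_pos h.symm]
    by_cases h1 : p ⟨U, h.2⟩ = p ⟨T, h.1⟩
    · rw [if_pos h1, if_pos h1.symm, fz_meas w p _ _ h1]
      ring
    · rw [if_neg h1, if_neg fun h2 => h1 h2.symm]
  · rw [dif_neg h, dif_neg fun h1 => h h1.symm]

theorem sum_kP (w : Px Q → ℝ) {q : Px Q → Y'} {p : Px Q → Y} (hc : Crs q p) (S₀ : Px Q) {T : Finset ℕ}
    (hT : T ∈ fbQ q S₀) (f : Finset ℕ → ℝ) :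
    ∑ U ∈ fbQ q S₀, kP w q p S₀ T U * f U = fbw w q S₀ T * cE w p (fun U => f U.1) ⟨T, (mem_fbQ.1 hT).1⟩ := by
  classical
  obtain ⟨hTQ, hTq⟩ := mem_fbQ.1 hT
  have e1 : ∑ U ∈ fbQ q S₀, kP w q p S₀ T U * f U =
      ∑ U : Px Q, if p U = p ⟨T, hTQ⟩ then Real.exp (w ⟨T, hTQ⟩) / fz w q S₀ * (Real.exp (w U) / fz w p ⟨T, hTQ⟩) * f U.1 else 0 := by
    unfold fbQ
    rw [sum_image fun _ _ _ _ h => Subtype.ext h, sum_filter]
    refine sum_congr rfl fun U _ => ?_
    unfold kP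
    rw [dif_pos ⟨hTQ, U.2⟩]
    by_cases h1 : p U = p ⟨T, hTQ⟩
    · rw [if_pos ((hc _ _ h1).trans hTq), if_pos h1, if_pos h1]
    · rw [if_neg h1, if_neg h1]
      split_ifs
      · rw [zero_mul]
      · rfl
  rw [e1]
  unfold fbw cE
  rw [dif_pos hTQ, sum_div, mul_sum]
  refine sum_congr rfl fun U _ => ?_
  split_ifs
  · ring
  · rw [zero_div, mul_zero]

theorem prK_kP [MxQ Q] (η : Env) {q : Px Q → Y'} {p : Px Q → Y} (hc : Crs q p) {a b : ℕ} (hp : BlP p a b)
    (S₀ : Px Q) : PrK (fbQ q S₀) (fbw (lw μ s η N Q) q S₀) (kP (lw μ s η N Q) q p S₀) a b where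
  nn S _ T _ := by
    classical
    unfold kP
    split_ifs
    · exact mul_nonneg (div_nonneg (Real.exp_pos _).le (fz_pos _ _ _).le) (div_nonneg (Real.exp_pos _).le (fz_pos _ _ _).le)
    · exact le_rfl
    · exact le_rfl
  mul I hI S hS T hT U hU hb := by
    classical
    obtain ⟨hS1, hS2⟩ := mem_fbQ.1 hS
    obtain ⟨hT1, hT2⟩ := mem_fbQ.1 hT
    obtain ⟨hU1, hU2⟩ := mem_fbQ.1 hU
    have h1 := MxQ.mem I S hS1 T hT1 hb
    have h2 := MxQ.mem I T hT1 S hS1 hb.symm
    have h3 : p ⟨mx I T S, h2⟩ = p ⟨T, hT1⟩ := hp I ⟨T, hT1⟩ ⟨S, hS1⟩ ⟨_, h2⟩ hI hb.symm rfl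
    unfold kP fbw
    rw [dif_pos h1, dif_pos hS1, dif_pos (show mx I T S ∈ Q ∧ U ∈ Q from ⟨h2, hU1⟩), dif_pos (show T ∈ Q ∧ U ∈ Q from ⟨hT1, hU1⟩),
      h3, fz_meas (lw μ s η N Q) p _ _ h3]
    split_ifs with h4
    · have h5 := pth_mx (μ := μ) (s := s) η N hb
      have h6 : Real.exp (lw μ s η N Q ⟨mx I S T, h1⟩) * Real.exp (lw μ s η N Q ⟨mx I T S, h2⟩) =
          Real.exp (lw μ s η N Q ⟨S, hS1⟩) * Real.exp (lw μ s η N Q ⟨T, hT1⟩) := by
        rw [exp_lw, exp_lw, exp_lw, exp_lw]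
        exact h5
      have e : ∀ A B C F G H : ℝ, A / F * (B / F * (C / G)) = (A * B) * (C / (F * F * G)) := fun A B C F G H => by
        field_simp
      rw [e _ _ _ _ _ 0, e _ _ _ _ _ 0, h6]
    · rw [mul_zero, mul_zero]
  m1 T hT := by
    have h := sum_kP (lw μ s η N Q) hc S₀ hT fun _ => 1
    simp only [mul_one] at h
    rw [h, congrFun (cE_one _ _) _, mul_one]
  m2 U hU := by
    have h := sum_kP (lw μ s η N Q) hc S₀ hU fun _ => 1
    simp only [mul_one] at h
    have e : ∑ T ∈ fbQ q S₀, kP (lw μ s η N Q) q p S₀ T U = ∑ T ∈ fbQ q S₀, kP (lw μ s η N Q) q p S₀ U T :=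
      sum_congr rfl fun T _ => kP_symm _ _ _ _ _ _
    rw [e, h, congrFun (cE_one _ _) _, mul_one]

theorem pK_fb (w : Px Q → ℝ) {q : Px Q → Y'} {p : Px Q → Y} (hc : Crs q p) (S₀ : Px Q) (i j : ℕ) :
    pK (fbQ q S₀) (kP w q p S₀) i j = cE w q (mI w p i j) S₀ := by
  classical
  have h3 := sum_fbQ w q S₀ fun S => if hS : S ∈ Q then mI w p i j ⟨S, hS⟩ else 0
  have h4 : cE w q (fun T : Px Q => if hS : T.1 ∈ Q then mI w p i j ⟨T.1, hS⟩ else 0) S₀ = cE w q (mI w p i j) S₀ := by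
    congr 1
    funext T
    rw [dif_pos T.2]
  rw [← h4, ← h3]
  unfold pK
  refine sum_congr rfl fun T hT => ?_
  obtain ⟨hT1, -⟩ := mem_fbQ.1 hT
  rw [dif_pos hT1]
  have h := sum_kP w hc S₀ hT fun U => if Nm i j T U then 1 else 0
  have h5 : mI w p i j ⟨T, hT1⟩ = cE w p (fun U : Px Q => if Nm i j T U.1 then (1 : ℝ) else 0) ⟨T, hT1⟩ := by
    unfold mI
    rw [← nm_NI]
  rw [h5, ← h]
  refine sum_congr rfl fun U _ => ?_
  split_ifs
  · rw [mul_one]
  · rw [mul_zero]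

/-- **THE MIXED ROBUST STEP IN THE MODEL.** -/
theorem robM [MxQ Q] (η : Env) {q : Px Q → Y'} {p : Px Q → Y} (hc : Crs q p) (hq : SwP q) {a b : ℕ} (hp : BlP p a b)
    (S₀ : Px Q) (τ l k : ℕ) {d : ℝ} (hd : 0 ≤ d) {L : ℕ} (ha : a ≤ τ) (hL : τ + 3 * k * (l + 1) ≤ L) (hb : L ≤ b) :
    cE (lw μ s η N Q) q (bI (lw μ s η N Q) q τ l k d) S₀ * cE (lw μ s η N Q) q (mI (lw μ s η N Q) p τ L) S₀ ≤
      (1 / 2) ^ k + 3 * k * d := by
  have h := robK (swF_fb (μ := μ) (s := s) (N := N) η hq S₀) (prK_kP η hc hp S₀) τ l k hd ha hL hb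
  rwa [gB_fb, pK_fb _ hc] at h

/-- The mixed near tie indicator: given `q`, the pairs given `p` which do not meet in `[i, j]` have mass at least `exp (- 5 M)`. -/
def TauM (w : Px Q → ℝ) (q : Px Q → Y') (p : Px Q → Y) (i j : ℕ) (M : ℝ) (S : Px Q) : Prop :=
  Real.exp (-(5 * M)) ≤ cE w q (mI w p i j) S

theorem tauM_meas (w : Px Q → ℝ) (q : Px Q → Y') (p : Px Q → Y) (i j : ℕ) (M : ℝ) {S S' : Px Q} (h : q S = q S') :
    TauM w q p i j M S ↔ TauM w q p i j M S' := by
  unfold TauM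
  rw [cE_meas w q _ _ _ h]

theorem tauM_self (w : Px Q → ℝ) (p : Px Q → Y) (i j : ℕ) (M : ℝ) (S : Px Q) : TauM w p p i j M S ↔ Tau w p i j M S := by
  unfold TauM Tau
  rw [cE2_mI]

theorem rob_tauM [MxQ Q] (η : Env) {q : Px Q → Y'} {p : Px Q → Y} (hc : Crs q p) (hq : SwP q) {a b : ℕ} (hp : BlP p a b)
    (S₀ : Px Q) (τ l k : ℕ) {M : ℝ} (hM : 8 ≤ M) (hk : 10 * M ≤ k) (hk' : (k : ℝ) ≤ 20 * M) {L : ℕ} (ha : a ≤ τ)
    (hL : τ + 3 * k * (l + 1) ≤ L) (hb : L ≤ b) (h : TauM (lw μ s η N Q) q p τ L M S₀) :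
    cE (lw μ s η N Q) q (bI (lw μ s η N Q) q τ l k (Real.exp (-(7 * M)))) S₀ ≤ Real.exp (-M) := by
  refine num45 hM hk hk' (le_trans ?_ (robM (μ := μ) (s := s) (N := N) η hc hq hp S₀ τ l k (Real.exp_pos (-(7 * M))).le ha hL hb))
  refine mul_le_mul_of_nonneg_left h (cE_nonneg _ _ (fun S => ?_) _)
  unfold bI
  split_ifs
  · exact zero_le_one
  · exact le_rfl

open Classical in
/-- **The paths with `TauM` and without `Rp` (given `q`) have mass at most `exp (- M)`.** -/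
theorem tauM_rp [MxQ Q] (η : Env) {q : Px Q → Y'} {p : Px Q → Y} (hc : Crs q p) (hq : SwP q) {a b : ℕ} (hp : BlP p a b)
    (τ l k : ℕ) {M : ℝ} (hM : 8 ≤ M) (hk : 10 * M ≤ k) (hk' : (k : ℝ) ≤ 20 * M) {L : ℕ} (ha : a ≤ τ)
    (hL : τ + 3 * k * (l + 1) ≤ L) (hb : L ≤ b) :
    gm (lw μ s η N Q) (fun S => if TauM (lw μ s η N Q) q p τ L M S ∧ ¬ Rp (lw μ s η N Q) q τ l k M S then 1 else 0) ≤
      Real.exp (-M) := by
  set w := lw μ s η N Q with hw
  have e1 : (fun S => if TauM w q p τ L M S ∧ ¬ Rp w q τ l k M S then (1 : ℝ) else 0) =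
      (fun S => if TauM w q p τ L M S then (1 : ℝ) else 0) * bI w q τ l k (Real.exp (-(7 * M))) := by
    funext S
    rw [Pi.mul_apply]
    unfold bI Rp
    by_cases h1 : TauM w q p τ L M S
    · by_cases h2 : ∀ n < 3 * k, mI w q (st τ l n) (st τ l n + l) S ≤ Real.exp (-(7 * M))
      · rw [if_pos h1, if_pos h2, if_pos ⟨h1, by push Not; exact h2⟩, mul_one]
      · rw [if_neg h2, if_neg, mul_zero]
        rintro ⟨-, h3⟩
        push Not at h3
        exact h2 h3
    · rw [if_neg h1, if_neg fun h3 => h1 h3.1, zero_mul]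
  have hmp : Mp q (fun S => if TauM w q p τ L M S then (1 : ℝ) else 0) := fun S S' h => by
    simp only [tauM_meas w q p τ L M h]
  rw [e1, ← gm_mul_cE w hmp]
  refine (gm_mono w (g := fun _ => Real.exp (-M)) fun S => ?_).trans (gm_const w _).le
  rw [Pi.mul_apply]
  split_ifs with h1
  · rw [one_mul]
    exact rob_tauM η hc hq hp S τ l k hM hk hk' ha hL hb h1
  · rw [zero_mul]
    exact (Real.exp_pos _).le

/-! ### Tilts -/

theorem mI_le_one (w : Px Q → ℝ) (p : Px Q → Y) (i j : ℕ) (S : Px Q) : mI w p i j S ≤ 1 := by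
  have h := cE_mono w p (f := NI i j S) (g := fun _ => 1) (fun T => by unfold NI; split_ifs <;> norm_num) S
  rwa [congrFun (cE_one w p) S] at h

theorem mI_tilt {w A : Px Q → ℝ} {D : ℝ} (hA : ∀ x, |A x| ≤ D) (p : Px Q → Y) (i j : ℕ) (S : Px Q) :
    mI (w + A) p i j S ≤ Real.exp (2 * D) * mI w p i j S :=
  cE_tilt hA p (fun T => NI_nonneg i j S T) S

theorem cE_mI_tilt {w A : Px Q → ℝ} {D : ℝ} (hA : ∀ x, |A x| ≤ D) (q : Px Q → Y') (p : Px Q → Y) (i j : ℕ) (S : Px Q) :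
    cE (w + A) q (mI (w + A) p i j) S ≤ Real.exp (4 * D) * cE w q (mI w p i j) S := by
  have h1 := cE_tilt hA q (f := mI (w + A) p i j) (fun T => mI_nonneg _ _ _ _ _) S (w := w)
  have h2 : cE w q (mI (w + A) p i j) S ≤ cE w q (Real.exp (2 * D) • mI w p i j) S :=
    cE_mono w q (fun T => mI_tilt hA p i j T) S
  rw [cE_smul, Pi.smul_apply, smul_eq_mul] at h2
  have h3 : Real.exp (4 * D) = Real.exp (2 * D) * Real.exp (2 * D) := by
    rw [← Real.exp_add]
    congr 1
    ring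
  rw [h3, mul_assoc]
  exact h1.trans (mul_le_mul_of_nonneg_left h2 (Real.exp_pos _).le)

/-- **At every log weight at distance at most `D`.** -/
theorem cE_mI_tau {w A : Px Q → ℝ} {D : ℝ} (hA : ∀ x, |A x| ≤ D) (q : Px Q → Y') (p : Px Q → Y) (i j : ℕ) (M : ℝ) (S : Px Q)
    [Decidable (TauM w q p i j M S)] :
    cE (w + A) q (mI (w + A) p i j) S ≤ (if TauM w q p i j M S then 1 else 0) + Real.exp (4 * D - 5 * M) := by
  split_ifs with h
  · have h1 := cE_mono (w + A) q (f := mI (w + A) p i j) (g := fun _ => 1) (fun T => mI_le_one _ _ _ _ _) S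
    rw [congrFun (cE_one (w + A) q) S] at h1
    have := (Real.exp_pos (4 * D - 5 * M)).le
    linarith
  · unfold TauM at h
    rw [not_le] at h
    have h3 : Real.exp (4 * D - 5 * M) = Real.exp (4 * D) * Real.exp (-(5 * M)) := by
      rw [← Real.exp_add]
      congr 1
    rw [zero_add, h3]
    exact (cE_mI_tilt hA q p i j S).trans (mul_le_mul_of_nonneg_left h.le (Real.exp_pos _).le)

/-- **The passenger**: `TauM` under a change of the log weights by at most `D`, with a smaller threshold. -/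
theorem tauM_tilt {w w' : Px Q → ℝ} {D : ℝ} (hA : ∀ x, |w' x - w x| ≤ D) {q : Px Q → Y'} {p : Px Q → Y} {i j : ℕ} {M M' : ℝ}
    {S : Px Q} (hM : 5 * M + 4 * D ≤ 5 * M') (h : TauM w q p i j M S) : TauM w' q p i j M' S := by
  have h1 := cE_mI_tilt (w := w') (A := w - w') (D := D) (fun x => by
    rw [Pi.sub_apply, abs_sub_comm]
    exact hA x) q p i j S
  rw [add_sub_cancel] at h1
  have h2 : Real.exp (-(5 * M)) ≤ Real.exp (4 * D) * cE w' q (mI w' p i j) S := le_trans h h1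
  unfold TauM
  have h3 : Real.exp (-(5 * M')) ≤ Real.exp (-(4 * D)) * Real.exp (-(5 * M)) := by
    rw [← Real.exp_add]
    exact Real.exp_le_exp.2 (by linarith)
  refine h3.trans ?_
  calc Real.exp (-(4 * D)) * Real.exp (-(5 * M)) ≤ Real.exp (-(4 * D)) * (Real.exp (4 * D) * cE w' q (mI w' p i j) S) :=
        mul_le_mul_of_nonneg_left h2 (Real.exp_pos _).le
    _ = cE w' q (mI w' p i j) S := by
        rw [← mul_assoc, ← Real.exp_add, neg_add_cancel, Real.exp_zero, one_mul]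

theorem tauM_mono {w : Px Q → ℝ} {q : Px Q → Y'} {p : Px Q → Y} {i j i' j' : ℕ} {M M' : ℝ} {S : Px Q} (hM : M ≤ M')
    (hi : i ≤ i') (hj : j' ≤ j) (h : TauM w q p i j M S) : TauM w q p i' j' M' S := by
  unfold TauM at h ⊢
  refine (Real.exp_le_exp.2 (by linarith)).trans (h.trans (cE_mono w q (fun T => cE_mono w p (fun U => ?_) T) S))
  unfold NI
  split_ifs with h1 h2
  · exact le_rfl
  · exact absurd (fun k hk1 hk2 => h1 k (hi.trans hk1) (hk2.trans hj)) h2
  · norm_num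
  · exact le_rfl

end Fib

end

end Pool.W7d29a1.C0.R43
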