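import Pool.Agent.W_7d29a1_C0.MicE14
import Pool.Agent.W_7d29a1_C0.Rob45

/-!
CURV0 (MP_7d29a1_pr), section E2: THE LOOP OF THE INNER PAIR IS TOLD FROM THE PATH WITH THE MICRO TIE. In the majorants `Tp`, `T0`, `Tg`
of MicE14 the loop (mass `mI`) sits at another replica than the micro tie `n`; by the robust step (Rob43B, Rob45) it is told from
the path with the micro tie: given `p` (`rob_p`), given a coarser `q` (`rob_q`), free (`rob_free`; WARNING: free brackets do not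
exclude the outer loop). `lam_nn`: the micro tie `nn` of the response as the mass of an event of the base path. All weights `lw + A`,
`|A| ≤ D`. (helper14)
-/

set_option autoImplicit false
set_option linter.unusedSectionVars false
set_option linter.unusedVariables false

namespace Pool.Agent.W_7d29a1_C0.MicT14

open Finset MeasureTheory Pool.Agent.W_7d29a1_F Pool.Agent.W_7d29a1_X Pool.Agent.W_7d29a1_C0 Pool.Agent.W_7d29a1_C0.Mod92
open Pool.W7d29a1.C0 Pool.W7d29a1.C0.VT31 Pool.W7d29a1.C0.I52 Pool.Agent.W_7d29a1_C0.Swap57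
open Pool.Agent.W_7d29a1_C0.MicE14
open Pool.W7d29a1.C0.R43 (mI mI_nonneg mI_le_one mI_tilt Tau Rp TauM tau_rp tauM_rp cE_mI_tau cE_mI_tilt gm_tilt43 cE2_mI tauM_self SwP
  swP_const BlP MxQ)

noncomputable section

section Abs

variable {X : Type*} [Fintype X] [DecidableEq X] [Nonempty X] {Y : Type*} [DecidableEq Y]

theorem gm_cst (w : X → ℝ) (f : X → ℝ) (x : X) : cE w (fun _ : X => ()) f x = gm w f := by
  rw [cE_eq_av, gm_eq_av]
  congr 1
  ext s
  simp

/-- The conditional mean may sit at either factor. -/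
theorem PP_sym (w : X → ℝ) (p : X → Y) (a n : X → ℝ) {ρ : X → X → ℝ} (hρ : ∀ y, Mp p fun x => ρ x y) :
    PP w (fun x x' => a x * (cE w p n x * ρ x x')) = PP w fun x x' => cE w p a x * (n x * ρ x x') := by
  have h1 : ∀ y, Mp p fun x => cE w p n x * ρ x y := fun y x x' h => by
    have hh : ρ x y = ρ x' y := hρ y x x' h
    show cE w p n x * ρ x y = cE w p n x' * ρ x' y
    rw [cE_meas w p n x x' h, hh]
  have h2 : ∀ y, Mp p fun x => cE w p a x * ρ x y := fun y x x' h => by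
    have hh : ρ x y = ρ x' y := hρ y x x' h
    show cE w p a x * ρ x y = cE w p a x' * ρ x' y
    rw [cE_meas w p a x x' h, hh]
  rw [PP_pull w a h1]
  have e : (fun x x' => cE w p a x * (n x * ρ x x')) = fun x x' => n x * (cE w p a x * ρ x x') := by
    funext x x'
    ring
  rw [e, PP_pull w n h2]
  congr 1
  funext x x'
  ring

theorem PP_le_const (w : X → ℝ) {H : X → X → ℝ} {F0 : ℝ} (h : ∀ x y, H x y ≤ F0) (a : X → ℝ) (a0 : ∀ x, 0 ≤ a x) :
    PP w (fun x y => a x * H x y) ≤ F0 * gm w a := by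
  have h1 : PP w (fun x y => a x * H x y) ≤ PP w fun x y => F0 * (a x * (fun _ => (1 : ℝ)) y) :=
    PP_mono w fun x y => by
      show a x * H x y ≤ F0 * (a x * 1)
      have := mul_le_mul_of_nonneg_left (h x y) (a0 x)
      linarith
  have h2 : gm w (fun _ : X => (1 : ℝ)) = 1 := by rw [gm_eq_av, av_const w univ_nonempty]
  rw [PP_smul, PP_mul, h2, mul_one] at h1
  exact h1

/-- The micro tie of a path: the mass of the alternatives given `q m`. -/
def mu {Y' : Type*} [DecidableEq Y'] (w : X → ℝ) (J : Finset ℕ) (q : ℕ → X → Y') (K : X → X → ℝ) (x : X) : ℝ :=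
  (J.card : ℝ)⁻¹ * ∑ m ∈ J, cE w (q m) (K x) x

theorem cE_fib {w : X → ℝ} {p : X → Y} {f f' : X → ℝ} {x : X} (h : ∀ z, p z = p x → f z = f' z) :
    cE w p f x = cE w p f' x := by
  rw [cE_eq_av, cE_eq_av]
  exact av_congr _ _ fun s hs => h s (mem_filter.1 hs).2

theorem mu_nonneg {Y' : Type*} [DecidableEq Y'] (w : X → ℝ) (J : Finset ℕ) (q : ℕ → X → Y') {K : X → X → ℝ} (K0 : ∀ x y, 0 ≤ K x y)
    (x : X) : 0 ≤ mu w J q K x :=
  mul_nonneg (inv_nonneg.2 (Nat.cast_nonneg _)) (Finset.sum_nonneg fun m _ => cE_nonneg _ _ (K0 x) x)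

/-- The base path is resampled inside of the window. -/
theorem mm_eq {Y' : Type*} [DecidableEq Y'] (w : X → ℝ) {q : X → Y'} {p : X → Y} (hc : Crs q p) (K : X → X → ℝ) (x : X) :
    cE w q (fun T => cE2 w p K x T) x = cE w p (fun z => cE w q (K z) z) x := by
  have h1 := cE_comm w q p (fun T z => cE w p (K z) T) x x
  have e1 : cE w q (fun T => cE2 w p K x T) x = cE w q (fun T => cE w p ((fun T z => cE w p (K z) T) T) x) x := rfl
  rw [e1, h1]
  refine cE_fib fun z hz => ?_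
  have e2 : (fun z' => (fun T z => cE w p (K z) T) z' z) = cE w p (K z) := rfl
  rw [e2, congrFun (cE_tower w hc (K z)) x]
  exact cE_meas w q (K z) x z (hc z x hz).symm

variable {Y' : Type*} [DecidableEq Y'] {J : Finset ℕ} {q : ℕ → X → Y'} {p0 : X → Y} {w u : X → ℝ} {K : X → X → ℝ}
  {g : X → ℝ} {E1 e1 Mg F1 : ℝ} {bd : X → ℝ} {a : X → ℝ} {ρ : X → X → ℝ}

/-- The response differs only through the event `K`, off the bad set. -/
def DifB (u : X → ℝ) (p0 : X → Y) (K : X → X → ℝ) (E1 e1 Mg : ℝ) (bd g : X → ℝ) : Prop :=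
  ∀ x y, |g x - g y| ≤ E1 * cE2 u p0 K x y + e1 + 2 * Mg * (bd x + bd y)

theorem nn_le (hJ : J.Nonempty) (hu : ∀ f x, cE u p0 f x = cE w p0 f x) (hg : DifB u p0 K E1 e1 Mg bd g)
    (hcq : ∀ m ∈ J, Crs (q m) p0) (x : X) :
    nn w J q g x ≤ E1 * cE w p0 (mu w J q K) x + (e1 + 2 * Mg * (bd x + (J.card : ℝ)⁻¹ * ∑ m ∈ J, cE w (q m) bd x)) := by
  have h0 : (J.card : ℝ) ≠ 0 := Nat.cast_ne_zero.2 (card_pos.2 hJ).ne'
  have hu2 : ∀ x y, cE2 u p0 K x y = cE2 w p0 K x y := fun x y => by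
    unfold cE2
    rw [hu]
    congr 1
    funext z
    exact hu _ _
  have h1 : ∀ m ∈ J, cE w (q m) (fun T => |g x - g T|) x ≤
      E1 * cE w p0 (fun z => cE w (q m) (K z) z) x + (e1 + 2 * Mg * bd x) + 2 * Mg * cE w (q m) bd x := fun m hm => by
    have h2 : cE w (q m) (fun T => |g x - g T|) x ≤ cE w (q m) (fun T => E1 * cE2 w p0 K x T + (e1 + 2 * Mg * bd x) +
        2 * Mg * bd T) x := cE_mono w (q m) (fun T => by
      have := hg x T
      rw [hu2] at this
      linarith) x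
    have h3 : cE w (q m) (fun T => E1 * cE2 w p0 K x T + (e1 + 2 * Mg * bd x) + 2 * Mg * bd T) x =
        E1 * cE w (q m) (fun T => cE2 w p0 K x T) x + (e1 + 2 * Mg * bd x) + 2 * Mg * cE w (q m) bd x := by
      rw [cE_eq_av, av_add w _ (fun T => E1 * cE2 w p0 K x T + (e1 + 2 * Mg * bd x)) fun T => 2 * Mg * bd T,
        av_add w _ (fun T => E1 * cE2 w p0 K x T) fun _ => e1 + 2 * Mg * bd x, av_smul, av_smul,
        av_const w (fib_ne (q m) x), ← cE_eq_av, ← cE_eq_av]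
    rw [h3, mm_eq w (hcq m hm) K x] at h2
    exact h2
  have h4 : nn w J q g x ≤ (J.card : ℝ)⁻¹ * ∑ m ∈ J, (E1 * cE w p0 (fun z => cE w (q m) (K z) z) x + (e1 + 2 * Mg * bd x) +
      2 * Mg * cE w (q m) bd x) :=
    mul_le_mul_of_nonneg_left (Finset.sum_le_sum h1) (inv_nonneg.2 (Nat.cast_nonneg _))
  refine h4.trans (le_of_eq ?_)
  have h5 : cE w p0 (mu w J q K) x = (J.card : ℝ)⁻¹ * ∑ m ∈ J, cE w p0 (fun z => cE w (q m) (K z) z) x := by
    have e : mu w J q K = (J.card : ℝ)⁻¹ • ∑ m ∈ J, fun z => cE w (q m) (K z) z := by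
      funext z
      rw [Pi.smul_apply, smul_eq_mul, Finset.sum_apply]
      rfl
    rw [e, cE_smul, Pi.smul_apply, smul_eq_mul, cE_sum, Finset.sum_apply]
  rw [h5, Finset.sum_add_distrib, Finset.sum_add_distrib, Finset.sum_const, nsmul_eq_mul, ← Finset.mul_sum, ← Finset.mul_sum,
    mul_add, mul_add, ← mul_assoc (J.card : ℝ)⁻¹ (J.card : ℝ), inv_mul_cancel₀ h0]
  ring

/-- **The micro tie as an event of the base path.** -/
theorem lam_nn (hJ : J.Nonempty) (hu : ∀ f x, cE u p0 f x = cE w p0 f x) (hg : DifB u p0 K E1 e1 Mg bd g)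
    (hcq : ∀ m ∈ J, Crs (q m) p0) (he : 0 ≤ e1) (hM : 0 ≤ Mg) (b0 : ∀ x, 0 ≤ bd x) (ha : Mp p0 a) (a0 : ∀ x, 0 ≤ a x)
    (a1 : ∀ x, a x ≤ 1) (hρ : ∀ y, Mp p0 fun x => ρ x y) (r0 : ∀ x y, 0 ≤ ρ x y) (r1 : ∀ x y, ρ x y ≤ F1) :
    PP w (fun x x' => a x * (nn w J q g x * ρ x x')) ≤
      E1 * PP w (fun x x' => a x * (mu w J q K x * ρ x x')) + F1 * (e1 + 4 * Mg * gm w bd) := by
  have h0 : (J.card : ℝ) ≠ 0 := Nat.cast_ne_zero.2 (card_pos.2 hJ).ne'
  have F10 : 0 ≤ F1 := (r0 (Classical.arbitrary _) (Classical.arbitrary _)).trans (r1 _ _)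
  set Z : X → ℝ := fun x => e1 + 2 * Mg * (bd x + (J.card : ℝ)⁻¹ * ∑ m ∈ J, cE w (q m) bd x) with hZ
  have Z0 : ∀ x, 0 ≤ Z x := fun x => by
    have h := Finset.sum_nonneg fun m (_ : m ∈ J) => cE_nonneg w (q m) b0 x
    have h' : 0 ≤ (J.card : ℝ)⁻¹ * ∑ m ∈ J, cE w (q m) bd x := mul_nonneg (inv_nonneg.2 (Nat.cast_nonneg _)) h
    have h'' := mul_nonneg (mul_nonneg zero_le_two hM) (add_nonneg (b0 x) h')
    rw [hZ]
    show 0 ≤ e1 + 2 * Mg * _
    linarith
  have h1 : PP w (fun x x' => a x * (nn w J q g x * ρ x x')) ≤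
      PP w fun x x' => E1 * (cE w p0 (mu w J q K) x * (a x * ρ x x')) + Z x * (a x * ρ x x') := PP_mono w fun x x' => by
    have h2 := mul_le_mul_of_nonneg_right (nn_le hJ hu hg hcq x) (mul_nonneg (a0 x) (r0 x x'))
    have e : nn w J q g x * (a x * ρ x x') = a x * (nn w J q g x * ρ x x') := by ring
    rw [e, add_mul] at h2
    refine h2.trans (le_of_eq ?_)
    rw [mul_assoc]
  rw [PP_add w (fun x x' => E1 * (cE w p0 (mu w J q K) x * (a x * ρ x x'))) fun x x' => Z x * (a x * ρ x x'), PP_smul] at h1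
  have hk : ∀ y, Mp p0 fun x => a x * ρ x y := fun y x x' h => by
    have hh : ρ x y = ρ x' y := hρ y x x' h
    show a x * ρ x y = a x' * ρ x' y
    rw [ha x x' h, hh]
  rw [← PP_pull w (mu w J q K) hk] at h1
  have e2 : (fun x x' => mu w J q K x * (a x * ρ x x')) = fun x x' => a x * (mu w J q K x * ρ x x') := by
    funext x x'
    ring
  rw [e2] at h1
  have h3 : PP w (fun x x' => Z x * (a x * ρ x x')) ≤ F1 * gm w Z :=
    PP_le_const w (fun x y => by
      have := mul_le_mul (a1 x) (r1 x y) (r0 x y) zero_le_one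
      linarith) Z Z0
  have h4 : gm w Z = e1 + 4 * Mg * gm w bd := by
    have e3 : ∀ m ∈ J, av w univ (fun x => cE w (q m) bd x) = gm w bd := fun m _ => by
      rw [← gm_eq_av]
      exact gm_cE w (q m) bd
    rw [hZ, gm_eq_av, av_add w univ (fun _ => e1), av_const w univ_nonempty, av_smul, av_add w univ bd, av_smul, av_sum,
      Finset.sum_congr rfl e3, Finset.sum_const, nsmul_eq_mul, ← mul_assoc (J.card : ℝ)⁻¹, inv_mul_cancel₀ h0, ← gm_eq_av]
    ring
  rw [h4] at h3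
  linarith

end Abs

section Rob

variable {Q : Finset (Finset ℕ)} [MxQ Q] [Nonempty (Px Q)] {μ : Measure ℝ} {s : ℝ} {N : ℕ} {Y : Type*} [DecidableEq Y]
  {p : Px Q → Y} {A : Px Q → ℝ} {D M F0 : ℝ} {a b τ l k L : ℕ} {H : Px Q → Px Q → ℝ} {η : Env}

/-- The error of one robust step. -/
def er (D M F0 : ℝ) : ℝ := F0 * (Real.exp (2 * D - M) + Real.exp (4 * D - 5 * M))

open Classical in
/-- The indicator of the robust loop. -/
def oR (w : Px Q → ℝ) (p : Px Q → Y) (τ l k : ℕ) (M : ℝ) (S : Px Q) : ℝ := if Rp w p τ l k M S then 1 else 0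

theorem oR_nonneg (w : Px Q → ℝ) (p : Px Q → Y) (τ l k : ℕ) (M : ℝ) (S : Px Q) : 0 ≤ oR w p τ l k M S := by
  unfold oR
  split_ifs <;> norm_num

/-- **The loop is told from the path with the micro tie, given `p`.** -/
theorem rob_p (hA : ∀ x, |A x| ≤ D) (hp : SwP p) (hM : 8 ≤ M) (hk : 10 * M ≤ k) (hk' : (k : ℝ) ≤ 20 * M)
    (hL : τ + 3 * k * (l + 1) ≤ L) (H0 : ∀ x y, 0 ≤ H x y) (HF : ∀ x y, H x y ≤ F0) :
    PP (lw μ s η N Q + A) (fun x x' => cE (lw μ s η N Q + A) p (mI (lw μ s η N Q + A) p τ L) x * H x x') ≤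
      PP (lw μ s η N Q + A) (fun x x' => oR (lw μ s η N Q) p τ l k M x * H x x') + er D M F0 := by
  classical
  set w := lw μ s η N Q with hw
  have F00 : 0 ≤ F0 := (H0 (Classical.arbitrary _) (Classical.arbitrary _)).trans (HF _ _)
  set T : Px Q → ℝ := fun x => if Tau w p τ L M x ∧ ¬ Rp w p τ l k M x then 1 else 0 with hT
  have T0 : ∀ x, 0 ≤ T x := fun x => by
    rw [hT]
    show 0 ≤ (if _ then (1 : ℝ) else 0)
    split_ifs <;> norm_num
  have h1 : ∀ x, cE (w + A) p (mI (w + A) p τ L) x ≤ oR w p τ l k M x + T x + Real.exp (4 * D - 5 * M) := fun x => by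
    have h2 := cE_mI_tau hA p p τ L M x (w := w)
    have h3 : (if TauM w p p τ L M x then (1 : ℝ) else 0) ≤ oR w p τ l k M x + T x := by
      rw [hT]
      show _ ≤ oR w p τ l k M x + (if _ then (1 : ℝ) else 0)
      unfold oR
      by_cases c1 : TauM w p p τ L M x
      · have c2 : Tau w p τ L M x := (tauM_self w p τ L M x).1 c1
        by_cases c3 : Rp w p τ l k M x
        · rw [if_pos c1, if_pos c3, if_neg fun h => h.2 c3]
          norm_num
        · rw [if_pos c1, if_neg c3, if_pos ⟨c2, c3⟩]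
          norm_num
      · rw [if_neg c1]
        split_ifs <;> norm_num
    linarith
  have h4 : PP (w + A) (fun x x' => cE (w + A) p (mI (w + A) p τ L) x * H x x') ≤
      PP (w + A) fun x x' => (oR w p τ l k M x * H x x' + T x * H x x') + Real.exp (4 * D - 5 * M) * F0 :=
    PP_mono _ fun x x' => by
      have h5 := mul_le_mul_of_nonneg_right (h1 x) (H0 x x')
      have h6 := mul_le_mul_of_nonneg_left (HF x x') (Real.exp_pos (4 * D - 5 * M)).le
      linarith
  have h7 := PP_add (w + A) (fun x x' => oR w p τ l k M x * H x x' + T x * H x x') fun _ _ => Real.exp (4 * D - 5 * M) * F0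
  have h8 := PP_add (w + A) (fun x x' => oR w p τ l k M x * H x x') fun x x' => T x * H x x'
  have h9 : PP (w + A) (fun _ _ : Px Q => Real.exp (4 * D - 5 * M) * F0) = Real.exp (4 * D - 5 * M) * F0 := by
    have e : (fun _ _ : Px Q => Real.exp (4 * D - 5 * M) * F0) = fun _ _ =>
        (Real.exp (4 * D - 5 * M) * F0) * ((fun _ : Px Q => (1 : ℝ)) (Classical.arbitrary _)) := by
      funext x y
      rw [mul_one]
    have h := PP_mul (w + A) (fun _ => Real.exp (4 * D - 5 * M) * F0) fun _ => (1 : ℝ)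
    simp only [mul_one] at h
    rw [h]
    have g1 : gm (w + A) (fun _ : Px Q => (1 : ℝ)) = 1 := by rw [gm_eq_av, av_const _ univ_nonempty]
    have g2 : gm (w + A) (fun _ : Px Q => Real.exp (4 * D - 5 * M) * F0) = Real.exp (4 * D - 5 * M) * F0 := by
      rw [gm_eq_av, av_const _ univ_nonempty]
    rw [g1, g2, mul_one]
  have h10 : PP (w + A) (fun x x' => T x * H x x') ≤ F0 * Real.exp (2 * D - M) := by
    refine (PP_le_const (w + A) HF T T0).trans (mul_le_mul_of_nonneg_left ?_ F00)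
    refine (gm_tilt43 hA T0).trans ?_
    have := tau_rp (μ := μ) (s := s) (N := N) η hp τ l k hM hk hk' hL
    rw [show (2 * D - M) = 2 * D + -M by ring, Real.exp_add]
    exact mul_le_mul_of_nonneg_left this (Real.exp_pos _).le
  unfold er
  linarith

/-- **The loop of a pair given the finer `p` is told given the coarser `q`.** -/
theorem rob_q {Y' : Type*} [DecidableEq Y'] {q : Px Q → Y'} (hc : Crs q p) (hA : ∀ x, |A x| ≤ D) (hq : SwP q) (hp : BlP p a b)
    (hM : 8 ≤ M) (hk : 10 * M ≤ k) (hk' : (k : ℝ) ≤ 20 * M) (ha : a ≤ τ) (hL : τ + 3 * k * (l + 1) ≤ L) (hb : L ≤ b)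
    (H0 : ∀ x y, 0 ≤ H x y) (HF : ∀ x y, H x y ≤ F0) :
    PP (lw μ s η N Q + A) (fun x x' => cE (lw μ s η N Q + A) q (mI (lw μ s η N Q + A) p τ L) x * H x x') ≤
      PP (lw μ s η N Q + A) (fun x x' => oR (lw μ s η N Q) q τ l k M x * H x x') + er D M F0 := by
  classical
  set w := lw μ s η N Q with hw
  have F00 : 0 ≤ F0 := (H0 (Classical.arbitrary _) (Classical.arbitrary _)).trans (HF _ _)
  set T : Px Q → ℝ := fun x => if TauM w q p τ L M x ∧ ¬ Rp w q τ l k M x then 1 else 0 with hT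
  have T0 : ∀ x, 0 ≤ T x := fun x => by
    rw [hT]
    show 0 ≤ (if _ then (1 : ℝ) else 0)
    split_ifs <;> norm_num
  have h1 : ∀ x, cE (w + A) q (mI (w + A) p τ L) x ≤ oR w q τ l k M x + T x + Real.exp (4 * D - 5 * M) := fun x => by
    have h2 := cE_mI_tau hA q p τ L M x (w := w)
    have h3 : (if TauM w q p τ L M x then (1 : ℝ) else 0) ≤ oR w q τ l k M x + T x := by
      rw [hT]
      show _ ≤ oR w q τ l k M x + (if _ then (1 : ℝ) else 0)
      unfold oR
      by_cases c1 : TauM w q p τ L M x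
      · by_cases c3 : Rp w q τ l k M x
        · rw [if_pos c1, if_pos c3, if_neg fun h => h.2 c3]
          norm_num
        · rw [if_pos c1, if_neg c3, if_pos ⟨c1, c3⟩]
          norm_num
      · rw [if_neg c1]
        split_ifs <;> norm_num
    linarith
  have h4 : PP (w + A) (fun x x' => cE (w + A) q (mI (w + A) p τ L) x * H x x') ≤
      PP (w + A) fun x x' => (oR w q τ l k M x * H x x' + T x * H x x') + Real.exp (4 * D - 5 * M) * F0 :=
    PP_mono _ fun x x' => by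
      have h5 := mul_le_mul_of_nonneg_right (h1 x) (H0 x x')
      have h6 := mul_le_mul_of_nonneg_left (HF x x') (Real.exp_pos (4 * D - 5 * M)).le
      linarith
  have h7 := PP_add (w + A) (fun x x' => oR w q τ l k M x * H x x' + T x * H x x') fun _ _ => Real.exp (4 * D - 5 * M) * F0
  have h8 := PP_add (w + A) (fun x x' => oR w q τ l k M x * H x x') fun x x' => T x * H x x'
  have h9 : PP (w + A) (fun _ _ : Px Q => Real.exp (4 * D - 5 * M) * F0) = Real.exp (4 * D - 5 * M) * F0 := by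
    have h := PP_mul (w + A) (fun _ => Real.exp (4 * D - 5 * M) * F0) fun _ => (1 : ℝ)
    simp only [mul_one] at h
    rw [h, gm_eq_av, gm_eq_av, av_const _ univ_nonempty, av_const _ univ_nonempty, mul_one]
  have h10 : PP (w + A) (fun x x' => T x * H x x') ≤ F0 * Real.exp (2 * D - M) := by
    refine (PP_le_const (w + A) HF T T0).trans (mul_le_mul_of_nonneg_left ?_ F00)
    refine (gm_tilt43 hA T0).trans ?_
    have := tauM_rp (μ := μ) (s := s) (N := N) η hc hq hp τ l k hM hk hk' ha hL hb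
    rw [show (2 * D - M) = 2 * D + -M by ring, Real.exp_add]
    exact mul_le_mul_of_nonneg_left this (Real.exp_pos _).le
  unfold er
  linarith

/-- The case where the loops have mass. -/
theorem rob_big (hA : ∀ x, |A x| ≤ D) (hp : BlP p a b) (hM : 8 ≤ M) (hk : 10 * M ≤ k) (hk' : (k : ℝ) ≤ 20 * M) (ha : a ≤ τ)
    (hL : τ + 3 * k * (l + 1) ≤ L) (hb : L ≤ b) (H0 : ∀ x y, 0 ≤ H x y) (HF : ∀ x y, H x y ≤ F0)
    (h : ∀ S, TauM (lw μ s η N Q) (fun _ : Px Q => ()) p τ L M S) :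
    PP (lw μ s η N Q + A) H ≤
      PP (lw μ s η N Q + A) (fun x x' => oR (lw μ s η N Q) (fun _ : Px Q => ()) τ l k M x * H x x') + F0 * Real.exp (2 * D - M) := by
  classical
  set w := lw μ s η N Q with hw
  have F00 : 0 ≤ F0 := (H0 (Classical.arbitrary _) (Classical.arbitrary _)).trans (HF _ _)
  set T : Px Q → ℝ := fun x => if TauM w (fun _ : Px Q => ()) p τ L M x ∧ ¬ Rp w (fun _ : Px Q => ()) τ l k M x then 1 else 0
    with hT
  have T0 : ∀ x, 0 ≤ T x := fun x => by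
    rw [hT]
    show 0 ≤ (if _ then (1 : ℝ) else 0)
    split_ifs <;> norm_num
  have h1 : ∀ x, (1 : ℝ) ≤ oR w (fun _ : Px Q => ()) τ l k M x + T x := fun x => by
    rw [hT]
    show _ ≤ oR w (fun _ : Px Q => ()) τ l k M x + (if _ then (1 : ℝ) else 0)
    unfold oR
    by_cases c3 : Rp w (fun _ : Px Q => ()) τ l k M x
    · rw [if_pos c3, if_neg fun h => h.2 c3]
      norm_num
    · rw [if_neg c3, if_pos ⟨h x, c3⟩]
      norm_num
  have h4 : PP (w + A) H ≤
      PP (w + A) fun x x' => oR w (fun _ : Px Q => ()) τ l k M x * H x x' + T x * H x x' :=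
    PP_mono _ fun x x' => by
      have h5 := mul_le_mul_of_nonneg_right (h1 x) (H0 x x')
      linarith
  have h8 := PP_add (w + A) (fun x x' => oR w (fun _ : Px Q => ()) τ l k M x * H x x') fun x x' => T x * H x x'
  have h10 : PP (w + A) (fun x x' => T x * H x x') ≤ F0 * Real.exp (2 * D - M) := by
    refine (PP_le_const (w + A) HF T T0).trans (mul_le_mul_of_nonneg_left ?_ F00)
    refine (gm_tilt43 hA T0).trans ?_
    have hc : Crs (fun _ : Px Q => ()) p := fun _ _ _ => rfl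
    have := tauM_rp (μ := μ) (s := s) (N := N) η hc swP_const hp τ l k hM hk hk' ha hL hb
    rw [show (2 * D - M) = 2 * D + -M by ring, Real.exp_add]
    exact mul_le_mul_of_nonneg_left this (Real.exp_pos _).le
  linarith

/-- **The loop is told from any free path.** -/
theorem rob_free (hA : ∀ x, |A x| ≤ D) (hp : BlP p a b) (hM : 8 ≤ M) (hk : 10 * M ≤ k) (hk' : (k : ℝ) ≤ 20 * M) (ha : a ≤ τ)
    (hL : τ + 3 * k * (l + 1) ≤ L) (hb : L ≤ b) (H0 : ∀ x y, 0 ≤ H x y) (HF : ∀ x y, H x y ≤ F0) :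
    gm (lw μ s η N Q + A) (mI (lw μ s η N Q + A) p τ L) * PP (lw μ s η N Q + A) H ≤
      PP (lw μ s η N Q + A) (fun x x' => oR (lw μ s η N Q) (fun _ : Px Q => ()) τ l k M x * H x x') + er D M F0 ∧
    PP (lw μ s η N Q + A) (fun x x' => mI (lw μ s η N Q + A) p τ L x * H x' x) ≤
      PP (lw μ s η N Q + A) (fun x x' => oR (lw μ s η N Q) (fun _ : Px Q => ()) τ l k M x * H x x') + er D M F0 := by
  classical
  set w := lw μ s η N Q with hw
  have F00 : 0 ≤ F0 := (H0 (Classical.arbitrary _) (Classical.arbitrary _)).trans (HF _ _)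
  have P0 : 0 ≤ PP (w + A) H := PP_nonneg _ H0
  have R0 : 0 ≤ PP (w + A) fun x x' => oR w (fun _ : Px Q => ()) τ l k M x * H x x' :=
    PP_nonneg _ fun x x' => mul_nonneg (oR_nonneg _ _ _ _ _ _ _) (H0 _ _)
  have g1 : gm (w + A) (fun _ : Px Q => (1 : ℝ)) = 1 := by rw [gm_eq_av, av_const _ univ_nonempty]
  have m1 : gm (w + A) (mI (w + A) p τ L) ≤ 1 := by
    have h := gm_mono (w + A) (f := mI (w + A) p τ L) (g := fun _ => 1) fun x => mI_le_one _ _ _ _ _
    rwa [g1] at h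
  have m0 : 0 ≤ gm (w + A) (mI (w + A) p τ L) := gm_nonneg _ fun x => mI_nonneg _ _ _ _ _
  by_cases h : TauM w (fun _ : Px Q => ()) p τ L M (Classical.arbitrary _)
  · have h' : ∀ S, TauM w (fun _ : Px Q => ()) p τ L M S := fun S => (R43.tauM_meas w _ p τ L M rfl).1 h
    have h2 := rob_big (η := η) (N := N) (s := s) (μ := μ) hA hp hM hk hk' ha hL hb H0 HF h'
    rw [← hw] at h2
    have e1 : F0 * Real.exp (2 * D - M) ≤ er D M F0 := by
      unfold er
      rw [mul_add]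
      have := mul_nonneg F00 (Real.exp_pos (4 * D - 5 * M)).le
      linarith
    refine ⟨?_, ?_⟩
    · have h3 := mul_le_mul_of_nonneg_right m1 P0
      linarith
    · have h3 : PP (w + A) (fun x x' => mI (w + A) p τ L x * H x' x) ≤ PP (w + A) fun x x' => H x' x :=
        PP_mono _ fun x x' => by
          have := mul_le_mul_of_nonneg_right (mI_le_one (w + A) p τ L x) (H0 x' x)
          linarith
      rw [PP_swap (w + A) H] at h3
      linarith
  · have h2 := cE_mI_tau hA (fun _ : Px Q => ()) p τ L M (Classical.arbitrary (Px Q)) (w := w)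
    rw [if_neg h, zero_add, gm_eq_cE] at h2
    have e1 : F0 * Real.exp (4 * D - 5 * M) ≤ er D M F0 := by
      unfold er
      rw [mul_add]
      have := mul_nonneg F00 (Real.exp_pos (2 * D - M)).le
      linarith
    have e2 := mul_le_mul_of_nonneg_left h2 F00
    refine ⟨?_, ?_⟩
    · have h3 : PP (w + A) H ≤ F0 := by
        have h4 := PP_le_const (w + A) HF (fun _ => 1) fun _ => zero_le_one
        rw [g1, mul_one] at h4
        simpa only [one_mul] using h4
      have h5 := mul_le_mul_of_nonneg_left h3 m0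
      linarith
    · have h3 := PP_le_const (w + A) (H := fun x x' => H x' x) (fun x y => HF y x) (mI (w + A) p τ L) fun x => mI_nonneg _ _ _ _ _
      linarith

end Rob

/-! ### The final form -/

section Fin

variable {Q : Finset (Finset ℕ)} [SwQ Q] [MxQ Q] [Nonempty (Px Q)] {μ : Measure ℝ} {s : ℝ} {N : ℕ} {η : Env} {Y : Type*} [DecidableEq Y]
  {p : Px Q → Y} {p0 : Px Q → Finset ℕ × ℕ} {A : Px Q → ℝ} {D M F1 E1 e1 Mg : ℝ} {a b τ l k L z c : ℕ} {Y' : Type*} [DecidableEq Y']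
  {J : Finset ℕ} {q : ℕ → Px Q → Y'} {K : Px Q → Px Q → ℝ} {g f bd : Px Q → ℝ}

/-- A tilt which the condition sees does not change the conditional means. -/
theorem cE_shift {X : Type*} [Fintype X] {Y : Type*} [DecidableEq Y] {u A : X → ℝ} {p0 : X → Y} (hA : Mp p0 A) (f : X → ℝ) (x : X) :
    cE u p0 f x = cE (u + A) p0 f x := by
  have e : ∀ h : X → ℝ, (∑ x', if p0 x' = p0 x then Real.exp ((u + A) x') * h x' else 0) =
      Real.exp (A x) * ∑ x', if p0 x' = p0 x then Real.exp (u x') * h x' else 0 := fun h => by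
    rw [Finset.mul_sum]
    refine Finset.sum_congr rfl fun x' _ => ?_
    split_ifs with hx
    · rw [Pi.add_apply, Real.exp_add, hA x' x hx]
      ring
    · rw [mul_zero]
  have e2 : fz (u + A) p0 x = Real.exp (A x) * fz u p0 x := by
    have h := e fun _ => 1
    simp only [mul_one] at h
    exact h
  unfold cE
  rw [e f, e2, mul_div_mul_left _ _ (Real.exp_pos _).ne']

theorem mp_mI {w : Px Q → ℝ} {i j : ℕ} (hc : Crs p p0) (h : ∀ x y : Px Q, p0 x = p0 y → ∀ r, i ≤ r → r ≤ j → ps x r = ps y r) :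
    Mp p0 (mI w p i j) := fun x y hxy => by
  have e : NI i j x = NI i j y := by
    funext T
    exact CutT57.NI_congr (fun r h1 h2 => h x y hxy r h1 h2) fun _ _ _ => rfl
  unfold mI
  rw [e]
  exact cE_meas w p _ x y (hc x y hxy)

theorem mp_oR {w : Px Q → ℝ} (hc : Crs p p0) (hL : τ + 3 * k * (l + 1) ≤ L)
    (h : ∀ x y : Px Q, p0 x = p0 y → ∀ r, τ ≤ r → r ≤ L → ps x r = ps y r) : Mp p0 (oR w p τ l k M) := fun x y hxy => by
  have key : ∀ n < 3 * k, mI w p (R43.st τ l n) (R43.st τ l n + l) x = mI w p (R43.st τ l n) (R43.st τ l n + l) y := fun n hn => by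
    refine mp_mI hc (fun x y hxy r h1 h2 => h x y hxy r ?_ ?_) x y hxy
    · unfold R43.st at h1
      omega
    · unfold R43.st at h2
      have h3 : (n + 1) * (l + 1) ≤ 3 * k * (l + 1) := Nat.mul_le_mul_right _ hn
      have h4 : (n + 1) * (l + 1) = n * (l + 1) + (l + 1) := by ring
      omega
  have e : Rp w p τ l k M x ↔ Rp w p τ l k M y :=
    exists_congr fun n => and_congr_right fun hn => by rw [key n hn]
  unfold oR
  by_cases h1 : Rp w p τ l k M y
  · rw [if_pos h1, if_pos (e.2 h1)]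
  · rw [if_neg h1, if_neg fun h2 => h1 (e.1 h2)]

theorem oR_le_one (w : Px Q → ℝ) (p : Px Q → Y) (τ l k : ℕ) (M : ℝ) (S : Px Q) : oR w p τ l k M S ≤ 1 := by
  unfold oR
  split_ifs <;> norm_num

/-- **The row functional of one base path**: own event `a`, micro tie, tie of `f`. -/
def lam (w : Px Q → ℝ) (J : Finset ℕ) (q : ℕ → Px Q → Y') (K : Px Q → Px Q → ℝ) (z c : ℕ) (f a : Px Q → ℝ) : ℝ :=
  PP w fun x x' => a x * (mu w J q K x * rh z c f x x')

/-- The error terms. -/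
def eb (w : Px Q → ℝ) (F1 e1 Mg : ℝ) (bd : Px Q → ℝ) : ℝ := F1 * (e1 + 4 * Mg * gm w bd)

theorem rh_symm (z c : ℕ) (f : Px Q → ℝ) (S S' : Px Q) : rh z c f S S' = rh z c f S' S := by
  unfold rh
  rw [abs_sub_comm, NI_symm]

/-- The hypotheses of the final form. -/
structure Hyp (μ : Measure ℝ) (s : ℝ) (N : ℕ) (η : Env) (p : Px Q → Y) (p0 : Px Q → Finset ℕ × ℕ) (A : Px Q → ℝ)
    (D M F1 E1 e1 Mg : ℝ) (a b τ l k L z c : ℕ) (J : Finset ℕ) (q : ℕ → Px Q → Y') (K : Px Q → Px Q → ℝ) (g f bd : Px Q → ℝ) :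
    Prop where
  tilt : ∀ x, |A x| ≤ D
  mpA : Mp p0 A
  sw : SwP p
  bl : BlP p a b
  hM : 8 ≤ M
  hk : 10 * M ≤ k
  hk' : (k : ℝ) ≤ 20 * M
  ha : a ≤ τ
  hL : τ + 3 * k * (l + 1) ≤ L
  hb : L ≤ b
  crs : Crs p p0
  out : ∀ x y : Px Q, p0 x = p0 y → ∀ r, τ ≤ r → r ≤ L → ps x r = ps y r
  J0 : J.Nonempty
  crq : ∀ m ∈ J, Crs (q m) p0
  gb : ∀ x, |g x| ≤ Mg
  dif : DifB (lw μ s η N Q) p0 K E1 e1 Mg bd g
  he : 0 ≤ e1
  bd0 : ∀ x, 0 ≤ bd x
  mpr : ∀ y, Mp p fun x => rh z c f x y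
  r1 : ∀ x y, rh z c f x y ≤ F1

variable (H : Hyp μ s N η p p0 A D M F1 E1 e1 Mg a b τ l k L z c J q K g f bd)

include H

theorem Hyp.Mg0 : 0 ≤ Mg := (abs_nonneg _).trans (H.gb (Classical.arbitrary _))

theorem Hyp.nn0 (x : Px Q) : 0 ≤ nn (lw μ s η N Q + A) J q g x :=
  mul_nonneg (inv_nonneg.2 (Nat.cast_nonneg _)) (Finset.sum_nonneg fun m _ => cE_nonneg _ _ (fun _ => abs_nonneg _) x)

theorem Hyp.nn1 (x : Px Q) : nn (lw μ s η N Q + A) J q g x ≤ 2 * Mg := by
  have h0 : (J.card : ℝ) ≠ 0 := Nat.cast_ne_zero.2 (card_pos.2 H.J0).ne'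
  have h1 : ∀ m ∈ J, cE (lw μ s η N Q + A) (q m) (fun T => |g x - g T|) x ≤ 2 * Mg := fun m _ => by
    have h2 := cE_mono (lw μ s η N Q + A) (q m) (f := fun T => |g x - g T|) (g := fun _ => 2 * Mg) (fun T =>
      (abs_sub _ _).trans (by linarith [H.gb x, H.gb T])) x
    rwa [cE_eq_av (f := fun _ => 2 * Mg), av_const _ (fib_ne (q m) x)] at h2
  have h2 := mul_le_mul_of_nonneg_left (Finset.sum_le_sum h1) (inv_nonneg.2 (Nat.cast_nonneg J.card) : (0 : ℝ) ≤ (J.card : ℝ)⁻¹)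
  rw [Finset.sum_const, nsmul_eq_mul, ← mul_assoc, inv_mul_cancel₀ h0, one_mul] at h2
  exact h2

theorem Hyp.lam_le {e : Px Q → ℝ} (he : Mp p0 e) (e0 : ∀ x, 0 ≤ e x) (e1' : ∀ x, e x ≤ 1) :
    PP (lw μ s η N Q + A) (fun x x' => e x * (nn (lw μ s η N Q + A) J q g x * rh z c f x x')) ≤
      E1 * lam (lw μ s η N Q + A) J q K z c f e + eb (lw μ s η N Q + A) F1 e1 Mg bd :=
  lam_nn H.J0 (fun f x => cE_shift H.mpA f x) H.dif H.crq H.he H.Mg0 H.bd0 he e0 e1'
    (fun y => Mp.of_crs H.crs (H.mpr y)) (fun x y => rh_nonneg f x y) H.r1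

theorem Hyp.H0 (x y : Px Q) : 0 ≤ nn (lw μ s η N Q + A) J q g x * rh z c f x y := mul_nonneg (H.nn0 x) (rh_nonneg f x y)

theorem Hyp.HF (x y : Px Q) : nn (lw μ s η N Q + A) J q g x * rh z c f x y ≤ 2 * Mg * F1 :=
  mul_le_mul (H.nn1 x) (H.r1 x y) (rh_nonneg f x y) (by linarith [H.Mg0])

/-- `T2`. -/
theorem Hyp.t2 : PP (lw μ s η N Q + A) (fun x x' => mi (lw μ s η N Q + A) p (NI τ L) x *
      (nn (lw μ s η N Q + A) J q g x * rh z c f x x')) ≤
    E1 * lam (lw μ s η N Q + A) J q K z c f (mI (lw μ s η N Q + A) p τ L) + eb (lw μ s η N Q + A) F1 e1 Mg bd :=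
  H.lam_le (mp_mI H.crs H.out) (fun x => mI_nonneg _ _ _ _ _) fun x => mI_le_one _ _ _ _ _

/-- `Tp`. -/
theorem Hyp.tp : PP (lw μ s η N Q + A) (fun x x' => mi (lw μ s η N Q + A) p (NI τ L) x *
      (cE (lw μ s η N Q + A) p (nn (lw μ s η N Q + A) J q g) x * rh z c f x x')) ≤
    E1 * lam (lw μ s η N Q + A) J q K z c f (oR (lw μ s η N Q) p τ l k M) + eb (lw μ s η N Q + A) F1 e1 Mg bd +
      er D M (2 * Mg * F1) := by
  rw [PP_sym (lw μ s η N Q + A) p (mi (lw μ s η N Q + A) p (NI τ L)) (nn (lw μ s η N Q + A) J q g) H.mpr]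
  have h1 := rob_p (η := η) (N := N) (s := s) (μ := μ) H.tilt H.sw H.hM H.hk H.hk' H.hL H.H0 H.HF
  have h2 := H.lam_le (mp_oR (w := lw μ s η N Q) (M := M) H.crs H.hL H.out) (fun x => oR_nonneg _ _ _ _ _ _ _)
    fun x => oR_le_one _ _ _ _ _ _ _
  exact h1.trans (by linarith)

/-- The free event. -/
theorem Hyp.fr : PP (lw μ s η N Q + A) (fun x x' => oR (lw μ s η N Q) (fun _ : Px Q => ()) τ l k M x *
      (nn (lw μ s η N Q + A) J q g x * rh z c f x x')) ≤
    E1 * lam (lw μ s η N Q + A) J q K z c f (oR (lw μ s η N Q) (fun _ : Px Q => ()) τ l k M) +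
      eb (lw μ s η N Q + A) F1 e1 Mg bd :=
  H.lam_le (mp_oR (w := lw μ s η N Q) (M := M) (p := fun _ : Px Q => ()) (fun _ _ _ => rfl) H.hL H.out)
    (fun x => oR_nonneg _ _ _ _ _ _ _) fun x => oR_le_one _ _ _ _ _ _ _

/-- `T0`. -/
theorem Hyp.t0 : PP (lw μ s η N Q + A) (fun x x' => mi (lw μ s η N Q + A) p (NI τ L) x *
      (nn (lw μ s η N Q + A) J q g x' * rh z c f x x')) ≤
    E1 * lam (lw μ s η N Q + A) J q K z c f (oR (lw μ s η N Q) (fun _ : Px Q => ()) τ l k M) +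
      eb (lw μ s η N Q + A) F1 e1 Mg bd + er D M (2 * Mg * F1) := by
  have h1 := (rob_free (η := η) (N := N) (s := s) (μ := μ) H.tilt H.bl H.hM H.hk H.hk' H.ha H.hL H.hb H.H0 H.HF).2
  have h2 := H.fr
  have e : (fun x x' => mi (lw μ s η N Q + A) p (NI τ L) x * (nn (lw μ s η N Q + A) J q g x' * rh z c f x x')) =
      fun x x' => mI (lw μ s η N Q + A) p τ L x * (nn (lw μ s η N Q + A) J q g x' * rh z c f x' x) := by
    funext x x'
    rw [rh_symm z c f x x']
    rfl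
  rw [e]
  exact h1.trans (by linarith)

/-- `Tg`. -/
theorem Hyp.tg : gm (lw μ s η N Q + A) (mi (lw μ s η N Q + A) p (NI τ L)) *
      PP (lw μ s η N Q + A) (fun x x' => nn (lw μ s η N Q + A) J q g x * rh z c f x x') ≤
    E1 * lam (lw μ s η N Q + A) J q K z c f (oR (lw μ s η N Q) (fun _ : Px Q => ()) τ l k M) +
      eb (lw μ s η N Q + A) F1 e1 Mg bd + er D M (2 * Mg * F1) := by
  have h1 := (rob_free (η := η) (N := N) (s := s) (μ := μ) H.tilt H.bl H.hM H.hk H.hk' H.ha H.hL H.hb H.H0 H.HF).1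
  have h2 := H.fr
  exact le_trans h1 (by linarith)

/-- **ONE INSERTION.** -/
theorem Hyp.J1_le : J1 (lw μ s η N Q + A) p (NI τ L) (rh z c f) (nn (lw μ s η N Q + A) J q g) ≤
    E1 * (2 * lam (lw μ s η N Q + A) J q K z c f (mI (lw μ s η N Q + A) p τ L) +
      lam (lw μ s η N Q + A) J q K z c f (oR (lw μ s η N Q) p τ l k M) +
      lam (lw μ s η N Q + A) J q K z c f (oR (lw μ s η N Q) (fun _ : Px Q => ()) τ l k M)) +
    4 * eb (lw μ s η N Q + A) F1 e1 Mg bd + 2 * er D M (2 * Mg * F1) := by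
  have h1 := H.t2
  have h2 := H.tp
  have h3 := H.t0
  unfold J1
  linarith

/-- **TWO INSERTIONS.** -/
theorem Hyp.J2_le : J2 (lw μ s η N Q + A) p (NI τ L) (rh z c f) (nn (lw μ s η N Q + A) J q g) ≤
    E1 * (2 * lam (lw μ s η N Q + A) J q K z c f (mI (lw μ s η N Q + A) p τ L) +
      3 * lam (lw μ s η N Q + A) J q K z c f (oR (lw μ s η N Q) p τ l k M) +
      lam (lw μ s η N Q + A) J q K z c f (oR (lw μ s η N Q) (fun _ : Px Q => ()) τ l k M)) +
    6 * eb (lw μ s η N Q + A) F1 e1 Mg bd + 4 * er D M (2 * Mg * F1) := by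
  have h1 := H.t2
  have h2 := H.tp
  have h3 := H.t0
  unfold J2
  linarith

/-- **The free shadows.** -/
theorem Hyp.J3_le : J3 (lw μ s η N Q + A) p (NI τ L) (rh z c f) (nn (lw μ s η N Q + A) J q g) ≤
    E1 * (2 * lam (lw μ s η N Q + A) J q K z c f (oR (lw μ s η N Q) (fun _ : Px Q => ()) τ l k M)) +
    2 * eb (lw μ s η N Q + A) F1 e1 Mg bd + 2 * er D M (2 * Mg * F1) := by
  have h3 := H.t0
  have h4 := H.tg
  unfold J3
  linarith

end Fin

end

end Pool.Agent.W_7d29a1_C0.MicT14
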