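import Pool.Agent.W_7d29a1_C0.OwnR27
import Pool.Agent.W_7d29a1_C0.Bd73B
import Pool.Agent.W_7d29a1_C0.Loc7Z
import Pool.Agent.W_7d29a1_C0.Cor45B
import Pool.Agent.W_7d29a1_C0.MicT14

/-!
CURV0 (MP_7d29a1_pr), leaf E2a, the remainder, corner side, part B (helper13): THE THREE LEVELS TOLD FROM ONE PATH, with a factor which sees only
what is behind the row `z`. `pp_okE`: inside the mean over two replicas. `lb_pt13`: one environment which is good: the levels `jA7` of the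
kick given what is behind `z` against the event `nE13` that one of the two margins is not told, with any factor `H x x'` of the pair which is a
function of the path behind `z`.
-/

set_option autoImplicit false
set_option linter.unusedSectionVars false
set_option linter.unusedVariables false

namespace Pool.Agent.W_7d29a1_C0.Rq13

open MeasureTheory Finset
open Pool.Agent.W_7d29a1_F Pool.Agent.W_7d29a1_X Pool.Agent.W_7d29a1_H
open Pool.Agent.W_7d29a1_C0 Pool.Agent.W_7d29a1_C0.Mod92 Pool.Agent.W_7d29a1_C0.Swap57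
open Pool.Agent.W_7d29a1_C0.GwA50 (GwW)
open Pool.W7d29a1.C0 Pool.W7d29a1.C0.VT31
open Pool.W7d29a1.C0.R43 (SwP MxQ swP_pJ Tau)
open Pool.W7d29a1.C0.O1 (T4 okE Kap ind ind_nonneg en T4_nonneg cE_constf)
open Pool.W7d29a1.C0.O1r (DifR gm_okE)
open Pool.W7d29a1.C0.Bd73 (nCn nCn_nonneg gj_dif)
open Pool.W7d29a1.C0.H7 (jA7)

noncomputable section

variable {μ : Measure ℝ} {s : ℝ} {N : ℕ}

/-- The regions and thresholds of one row: the block closes at `z`, `q` pieces, the class window `[g0, g1]`, two regions of each margin. -/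
structure Rg13 where
  z : ℕ
  q : ℕ
  g0 : ℕ
  g1 : ℕ
  a1 : ℕ
  m1 : ℕ
  a2 : ℕ
  m2 : ℕ
  b1 : ℕ
  n1 : ℕ
  b2 : ℕ
  n2 : ℕ
  d : ℝ
  e1 : ℝ
  d3 : ℝ

/-- The regions fit to the window `[j - b0, j + b0]`. -/
structure Rg13.Ok (r : Rg13) (b0 j : ℕ) : Prop where
  hd : 0 ≤ r.d
  he : 0 ≤ r.e1
  h3 : 0 ≤ r.d3
  hg : r.g1 ≤ j - b0 ∨ j + b0 ≤ r.g0
  a1 : j - b0 ≤ r.a1
  a1e : en r.a1 r.m1 r.q ≤ j
  a2 : j - b0 ≤ r.a2
  a2e : en r.a2 r.m2 r.q ≤ j
  b1 : j ≤ r.b1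
  b1e : en r.b1 r.n1 r.q ≤ j + b0
  b2 : j ≤ r.b2
  b2e : en r.b2 r.n2 r.q ≤ j + b0

/-- One of the two margins is not told, given what is behind the row `z`. -/
def nE13 {Q : Finset (Finset ℕ)} (w : Px Q → ℝ) (r : Rg13) (x : Px Q) : Prop :=
  ¬ okE w (pJ 0 r.z) (fun _ => False) r.q r.d r.e1 r.d3 r.g0 r.g1 r.a1 r.m1 r.a2 r.m2 x ∨
    ¬ okE w (pJ 0 r.z) (fun _ => False) r.q r.d r.e1 r.d3 r.g0 r.g1 r.b1 r.n1 r.b2 r.n2 x

section Pp

variable {Q : Finset (Finset ℕ)} {Y : Type*} [DecidableEq Y] [Nonempty (Px Q)]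

/-- **THE THREE LEVELS TOLD FROM ONE PATH, inside the mean over two replicas.** -/
theorem pp_okE [MxQ Q] (η : Env) {Z : Type*} [DecidableEq Z] {q0 : Px Q → Z} {r : Rg13} (hc : Crs (pJ (Q := Q) 0 r.z) q0)
    {g rr : Px Q → ℝ} (hr : ∀ x, 0 ≤ rr x) {δ Lg : ℝ} (hδ : 0 < δ) (hLg : 0 ≤ Lg) {b0 j : ℕ} (ho : r.Ok b0 j)
    (hL : DifR (lw μ s η N Q) q0 (NM (j - b0) j j (j + b0)) Lg rr g)
    (hout : ∀ u v : Px Q, q0 u = q0 v → ∀ k, r.g0 ≤ k → k ≤ r.g1 → ps u k = ps v k)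
    {A : Px Q → ℝ} (hA0 : ∀ y, 0 ≤ A y) (hA1 : ∀ y, A y ≤ 1) {H : Px Q → Px Q → ℝ} (hH : ∀ x', Mp (pJ 0 r.z) fun x => H x x')
    (hH0 : ∀ x x', 0 ≤ H x x') {C : ℝ} (hC : 0 ≤ C) :
    PP (lw μ s η N Q) (fun x x' => min 1 (C * T4 (lw μ s η N Q) (pJ 0 r.z) g δ A x) * H x x') ≤
      PP (lw μ s η N Q) (fun x x' => ind (nE13 (lw μ s η N Q) r) x * H x x') +
        C * Kap 0 Lg δ r.q r.d r.e1 r.d3 * PP (lw μ s η N Q) H + C * (6 / δ) * PP (lw μ s η N Q) (fun x x' => rr x * H x x') := by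
  set w := lw μ s η N Q with hw
  have k1 : ∀ K : Px Q → Px Q → ℝ, PP w K = gm w fun x' => gm w fun x => K x x' := fun K => by
    rw [← Pool.Agent.W_7d29a1_C0.CutT57.PP_symm]
    exact (Pool.Agent.W_7d29a1_C0.CutT57.gm_gm_eq_PP w (fun x' x => K x x')).symm
  rw [k1, k1, k1, k1]
  have h0 : ∀ S0, cE w (pJ 0 r.z) (ind fun _ : Px Q => False) S0 * cE w (pJ 0 r.z) A S0 ≤ 0 := fun S0 => by
    have e1 : (ind fun _ : Px Q => False) = fun _ => (0 : ℝ) := by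
      funext x
      unfold ind
      rw [if_neg (fun h => h)]
    rw [e1, cE_constf, zero_mul]
  have h1 : ∀ x', gm w (fun x => min 1 (C * T4 w (pJ 0 r.z) g δ A x) * H x x') ≤
      gm w (fun x => ind (nE13 w r) x * H x x') + C * Kap 0 Lg δ r.q r.d r.e1 r.d3 * gm w (fun x => H x x') +
        C * (6 / δ) * gm w (fun x => rr x * H x x') := fun x' => by
    have key := gm_okE (μ := μ) (s := s) (N := N) (q := r.q) (d := r.d) (d3 := r.d3) (g0 := r.g0) (g1 := r.g1) η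
      (swP_pJ (Nat.zero_le r.z)) hc hr hδ hLg hL hout hA0 hA1 (Bo := fun _ => False) (eo := 0) h0 ho.a1 ho.a1e ho.a2 ho.a2e
      ho.b1 ho.b1e ho.b2 ho.b2e ho.hd ho.he ho.h3 (hH x') (fun x => hH0 x x') hC
    have e1 : (fun x => min 1 (C * T4 w (pJ 0 r.z) g δ A x) * H x x') = fun x => H x x' * min 1 (C * T4 w (pJ 0 r.z) g δ A x) := by
      funext x
      ring
    have e2 : (fun x => ind (nE13 w r) x * H x x') = fun x => H x x' * ind (nE13 w r) x := by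
      funext x
      ring
    have e3 : (fun x => rr x * H x x') = fun x => H x x' * rr x := by
      funext x
      ring
    rw [e1, e2, e3]
    exact key
  have h2 := gm_mono w h1
  refine h2.trans (le_of_eq ?_)
  have e4 : (fun x' => gm w (fun x => ind (nE13 w r) x * H x x') + C * Kap 0 Lg δ r.q r.d r.e1 r.d3 * gm w (fun x => H x x') +
      C * (6 / δ) * gm w (fun x => rr x * H x x')) = (fun x' => gm w (fun x => ind (nE13 w r) x * H x x')) +
      (C * Kap 0 Lg δ r.q r.d r.e1 r.d3) • (fun x' => gm w (fun x => H x x')) +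
      (C * (6 / δ)) • fun x' => gm w (fun x => rr x * H x x') := by
    funext x'
    simp only [Pi.add_apply, Pi.smul_apply, smul_eq_mul]
  rw [e4, gm_add, gm_add, gm_smul, gm_smul]

end Pp

/-! ### One environment -/

section Pt

variable {y : ℕ} [Nonempty (Px (Pn N y))] {κ δk δ₁ ε c' B F0 ϑ : ℝ} {b0 j : ℕ}

/-- **The levels of the kick given what is behind `z`, against the event that one margin is not told**, for a good environment. -/
theorem lb_pt13 {ω : Env × Finset ℕ} (hη : GwW μ s N κ δk δ₁ ε c' ω.1) (hj : j + b0 ≤ N)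
    (h1 : (N : ℝ) ^ κ ≤ ((j - (j - b0) : ℕ) : ℝ)) (h2 : (N : ℝ) ^ κ ≤ b0) (hB : 0 ≤ B) {r : Rg13} (hz : j + b0 ≤ r.z) (ho : r.Ok b0 j)
    {dl m' : ℝ} (hdl : 0 < dl) {V : Px (Pn N y) → ℝ} (hV0 : ∀ x, 0 ≤ V x) (hV1 : ∀ x, V x ≤ 1)
    {H : Px (Pn N y) → Px (Pn N y) → ℝ} (hH : ∀ x', Mp (pJ 0 r.z) fun x => H x x') (hH0 : ∀ x x', 0 ≤ H x x')
    (hHF : ∀ x x', H x x' ≤ F0) (hϑ : gm (lw μ s ω.1 N (Pn N y)) (nCn μ s δ₁ (j - b0) (j + b0)) ≤ ϑ) :
    PP (wm μ s N (Pn N y) ω) (fun x x' => jA7 μ s N (Pn N y) δk B b0 j r.z dl m' V ω.1 (sg ω.2 j) x * H x x') ≤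
      PP (wm μ s N (Pn N y) ω) (fun x x' => ind (nE13 (wm μ s N (Pn N y) ω) r) x * H x x') +
        F0 * (Real.exp m' * Kap 0 (Real.exp ((N : ℝ) ^ ε)) dl r.q r.d r.e1 r.d3 +
          Real.exp m' * (6 / dl) * (Real.exp (-(N : ℝ) ^ c') + B * ϑ)) := by
  have F00 : 0 ≤ F0 := (hH0 (Classical.arbitrary _) (Classical.arbitrary _)).trans (hHF _ _)
  set w := lw μ s ω.1 N (Pn N y) with hw
  have ew : wm μ s N (Pn N y) ω = w := rfl
  rw [ew]
  set g : Px (Pn N y) → ℝ := gj μ s ω.1 δk B b0 j (sg ω.2 j) with hg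
  set rr : Px (Pn N y) → ℝ := fun x => Real.exp (-(N : ℝ) ^ c') / 2 + B * nCn μ s δ₁ (j - b0) (j + b0) x with hrr
  have hn := nCn_nonneg (Q := Pn N y) μ s δ₁ (j - b0) (j + b0)
  have rr0 : ∀ x, 0 ≤ rr x := fun x => by
    have := mul_nonneg hB (hn x)
    have := (Real.exp_pos (-(N : ℝ) ^ c')).le
    rw [hrr]
    show 0 ≤ Real.exp (-(N : ℝ) ^ c') / 2 + B * nCn μ s δ₁ (j - b0) (j + b0) x
    linarith
  have hL : DifR w (pJ (j - b0) (j + b0)) (NM (j - b0) j j (j + b0)) (Real.exp ((N : ℝ) ^ ε)) rr g := fun u v => by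
    have h := gj_dif hη (Blk18.full_Pn N y) hj h1 h2 hB (sg_or ω.2 j) u v
    refine h.trans (le_of_eq ?_)
    rw [hrr]
    show _ = _ + ((Real.exp (-(N : ℝ) ^ c') / 2 + B * nCn μ s δ₁ (j - b0) (j + b0) u) +
      (Real.exp (-(N : ℝ) ^ c') / 2 + B * nCn μ s δ₁ (j - b0) (j + b0) v))
    ring
  have hcr : Crs (pJ (Q := Pn N y) 0 r.z) (pJ (j - b0) (j + b0)) := crs_pJ (Nat.zero_le _) hz
  have hout : ∀ u v : Px (Pn N y), pJ (j - b0) (j + b0) u = pJ (j - b0) (j + b0) v → ∀ k, r.g0 ≤ k → k ≤ r.g1 → ps u k = ps v k :=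
    fun u v huv k hk1 hk2 => by
      rcases ho.hg with h | h
      · exact ps_of_le huv (by omega)
      · exact ps_of_ge huv (by omega)
  have key := pp_okE (μ := μ) (s := s) (N := N) ω.1 hcr rr0 hdl (Real.exp_pos ((N : ℝ) ^ ε)).le ho hL hout hV0 hV1 hH hH0 (Real.exp_pos m').le
  have k0 : PP w (fun x x' => jA7 μ s N (Pn N y) δk B b0 j r.z dl m' V ω.1 (sg ω.2 j) x * H x x') ≤
      PP w (fun x x' => min 1 (Real.exp m' * T4 w (pJ 0 r.z) g dl V x) * H x x') := PP_mono _ fun x x' => by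
    refine mul_le_mul_of_nonneg_right ?_ (hH0 x x')
    have hT0 := T4_nonneg (w := w) (p := pJ (Q := Pn N y) 0 r.z) (g := g) (δ := dl) hV0 x
    unfold jA7
    split_ifs with h
    · refine le_min le_rfl ?_
      have h3 := mul_le_mul_of_nonneg_left h (Real.exp_pos m').le
      rw [← Real.exp_add, add_neg_cancel, Real.exp_zero] at h3
      exact h3
    · exact le_min zero_le_one (mul_nonneg (Real.exp_pos m').le hT0)
  have hK0 : 0 ≤ Kap 0 (Real.exp ((N : ℝ) ^ ε)) dl r.q r.d r.e1 r.d3 := by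
    have a1 := ho.hd
    have a2 := ho.he
    have a3 := ho.h3
    unfold Kap
    positivity
  have k2 : PP w H ≤ F0 := (PP_mono w (R := fun _ _ => F0) hHF).trans_eq (Row39.PP_const w F0)
  have k3 : PP w (fun x x' => rr x * H x x') ≤ F0 * (Real.exp (-(N : ℝ) ^ c') + B * ϑ) := by
    have a1 := Pool.Agent.W_7d29a1_C0.MicT14.PP_le_const w hHF rr rr0
    refine a1.trans (mul_le_mul_of_nonneg_left ?_ F00)
    have e1 : rr = (fun _ => Real.exp (-(N : ℝ) ^ c') / 2) + B • nCn μ s δ₁ (j - b0) (j + b0) := by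
      funext x
      rw [hrr]
      simp only [Pi.add_apply, Pi.smul_apply, smul_eq_mul]
    rw [e1, gm_add, gm_smul, gm_const]
    have a2 := mul_le_mul_of_nonneg_left hϑ hB
    have a3 := (Real.exp_pos (-(N : ℝ) ^ c')).le
    linarith
  have k4 := mul_le_mul_of_nonneg_left k2 (mul_nonneg (Real.exp_pos m').le hK0)
  have k5 := mul_le_mul_of_nonneg_left k3 (by positivity : 0 ≤ Real.exp m' * (6 / dl))
  refine k0.trans (key.trans ?_)
  refine (add_le_add (add_le_add le_rfl k4) k5).trans (le_of_eq ?_)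
  ring

end Pt

end

end Pool.Agent.W_7d29a1_C0.Rq13
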