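import Pool.Agent.W_7d29a1_C0.E2CM45
import Pool.Agent.W_7d29a1_C0.Rq13B
import Pool.Agent.W_7d29a1_C0.OkE15C

/-!
MP_7d29a1_pr, [CURV0] / [C0], leaf E2, PART L (helper45): **THE THREE LEVELS OF PART L AS ROWS.** The parts of part L at the corner with three levels
(`cP45` of an own event `TauM (pJ 0 m') (pJ c1 z)` of the future and `jT45` with `V = True`), given what is behind `z0 = c0 + K`, are at most the rows
`rw96` of the families `LJA`, `LJB`: an own tie in the pieces of the own window, given what is behind `m'`, and one of the two margins of the window is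
not told, given what is behind `z0` (`lb_pt13` of helper13 for a good environment). `RJ45`: the data of a row; `jtT45`: one environment.
-/

set_option autoImplicit false
set_option linter.unusedSectionVars false
set_option linter.unusedVariables false

namespace Pool.Agent.W_7d29a1_C0.E2J45

open Finset MeasureTheory Filter Topology Pool.Agent.W_7d29a1_F Pool.Agent.W_7d29a1_X Pool.Agent.W_7d29a1_C0.Mod92
open Pool.Agent.W_7d29a1_C0.Swap57 Pool.Agent.W_7d29a1_C0.Blk18 Pool.Agent.W_7d29a1_C0.NM82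
open Pool.Agent.W_7d29a1_C0.GwA50 (GwW)
open Pool.Agent.W_7d29a1_C0.MicE14 (rh rh_nonneg nn mi)
open Pool.Agent.W_7d29a1_C0.T72 (Sp72 ind72 ind72_nonneg ind72_le_one meas_ind72)
open Pool.Agent.W_7d29a1_C0.E2T96
open Pool.Agent.W_7d29a1_C0.E2C96
open Pool.Agent.W_7d29a1_C0.E2CL45
open Pool.Agent.W_7d29a1_C0.MicN96
open Pool.Agent.W_7d29a1_C0.Rq13 (Rg13 nE13 lb_pt13)
open Pool.W7d29a1.C0
open Pool.W7d29a1.C0 (gz gm gm_nonneg gm_mono gm_const PP PP_nonneg PP_mono PP_smul PP_add)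
open Pool.W7d29a1.C0.VT31
open Pool.W7d29a1.C0.R43
open Pool.W7d29a1.C0.C45
open Pool.W7d29a1.C0.O1 (T4 okE Kap ind en)
open Pool.W7d29a1.C0.Bd73 (nCn nCn_nonneg)
open Pool.W7d29a1.C0.H7 (jA7)

noncomputable section

/-! ### The families -/

section Fam

variable (μ : Measure ℝ) (s : ℝ) (N : ℕ)

/-- Own, given what is behind the row `m`, and the first margin is not told. -/
def LJA (r : Rg13) (m wl lo k : ℕ) (M : ℝ) : Fam N := evF N fun y ω S => Rp (wm μ s N (Pn N y) ω) (pJ 0 m) wl lo k M S ∧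
  ¬ okE (wm μ s N (Pn N y) ω) (pJ 0 r.z) (fun _ => False) r.q r.d r.e1 r.d3 r.g0 r.g1 r.a1 r.m1 r.a2 r.m2 S

/-- Own, given what is behind the row `m`, and the second margin is not told. -/
def LJB (r : Rg13) (m wl lo k : ℕ) (M : ℝ) : Fam N := evF N fun y ω S => Rp (wm μ s N (Pn N y) ω) (pJ 0 m) wl lo k M S ∧
  ¬ okE (wm μ s N (Pn N y) ω) (pJ 0 r.z) (fun _ => False) r.q r.d r.e1 r.d3 r.g0 r.g1 r.b1 r.n1 r.b2 r.n2 S

variable {μ s N}

theorem meas_ok45 {y : ℕ} (z q : ℕ) (dd e1 d3 : ℝ) (g0 g1 t1 l1 t2 l2 : ℕ) (S : Px (Pn N y)) :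
    MeasurableSet {ω : Env × Finset ℕ | ¬ okE (wm μ s N (Pn N y) ω) (pJ 0 z) (fun _ => False) q dd e1 d3 g0 g1 t1 l1 t2 l2 S} := by
  classical
  have h1 : Measurable fun ω : Env × Finset ℕ =>
      (if ¬ okE (wm μ s N (Pn N y) ω) (pJ 0 z) (fun _ => False) q dd e1 d3 g0 g1 t1 l1 t2 l2 S then (1 : ℝ) else 0) := by
    refine P15.meas_sec fun A => Measurable.ite ?_ measurable_const measurable_const
    exact (P15.meas_okE (μ := μ) (s := s) (N := N) 0 z (Bo := fun _ _ => False) (fun A x => by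
      show MeasurableSet {η : Env | False}
      exact MeasurableSet.const False) q dd e1 d3 g0 g1 t1 l1 t2 l2 A S).compl
  have e1' : {ω : Env × Finset ℕ | ¬ okE (wm μ s N (Pn N y) ω) (pJ 0 z) (fun _ => False) q dd e1 d3 g0 g1 t1 l1 t2 l2 S} =
      (fun ω : Env × Finset ℕ =>
        (if ¬ okE (wm μ s N (Pn N y) ω) (pJ 0 z) (fun _ => False) q dd e1 d3 g0 g1 t1 l1 t2 l2 S then (1 : ℝ) else 0)) ⁻¹' {1} := by
    ext ω
    simp only [Set.mem_ofPred_eq, Set.mem_preimage, Set.mem_singleton_iff]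
    constructor
    · intro h
      rw [if_pos h]
    · intro h h'
      rw [if_neg (not_not.2 h')] at h
      norm_num at h
  rw [e1']
  exact h1 (measurableSet_singleton 1)

theorem meas_LJA (r : Rg13) (m wl lo k : ℕ) (M : ℝ) (y : ℕ) (S : Px (Pn N y)) : Measurable fun ω => LJA μ s N r m wl lo k M y ω S :=
  meas_evF (fun _ S => (meas_Rp45 _ _ _ _ _ S).inter (meas_ok45 _ _ _ _ _ _ _ _ _ _ _ S)) y S

theorem meas_LJB (r : Rg13) (m wl lo k : ℕ) (M : ℝ) (y : ℕ) (S : Px (Pn N y)) : Measurable fun ω => LJB μ s N r m wl lo k M y ω S :=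
  meas_evF (fun _ S => (meas_Rp45 _ _ _ _ _ S).inter (meas_ok45 _ _ _ _ _ _ _ _ _ _ _ S)) y S

end Fam

/-! ### One environment -/

section Pt

variable {μ : Measure ℝ} {s : ℝ} {N : ℕ} [IsProbabilityMeasure μ] {y : ℕ} [Nonempty (Px (Pn N y))] {κ γ δ₁ ε c' B ϑ M D : ℝ} {b j : ℕ}

theorem rh_leJ45 {zf cc : ℕ} {F : Px (Pn N y) → ℝ} (hF : ∀ S, |F S| ≤ D) (S S' : Px (Pn N y)) : rh zf cc F S S' ≤ 2 * D := by
  unfold rh
  have h1 : |F S - F S'| ≤ 2 * D := (abs_sub _ _).trans (by linarith [hF S, hF S'])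
  calc |F S - F S'| * NI zf cc S S' ≤ |F S - F S'| * 1 := mul_le_mul_of_nonneg_left (CutT57.NI_le_one _ _ _ _) (abs_nonneg _)
    _ ≤ 2 * D := by rw [mul_one]; exact h1

open Classical in
/-- **THE THREE LEVELS AND THE OWN EVENT, one good environment.** -/
theorem jtT45 {ω : Env × Finset ℕ} (hη : GwW μ s N κ γ δ₁ ε c' ω.1) (hj : j + b ≤ N)
    (h1 : (N : ℝ) ^ κ ≤ ((j - (j - b) : ℕ) : ℝ)) (h2 : (N : ℝ) ^ κ ≤ b) (hB : 0 ≤ B) {r : Rg13} (hz : j + b ≤ r.z) (ho : r.Ok b j)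
    {dl ml : ℝ} (hdl : 0 < dl) {m zf cc : ℕ} (hzm : r.z ≤ m) (hm0 : m ≤ zf) (hm : zf ≤ cc)
    {F : Px (Pn N y) → ℝ} (hF : Rk cc F) (hFD : ∀ S, |F S| ≤ D)
    (hϑ : gm (lw μ s ω.1 N (Pn N y)) (nCn μ s δ₁ (j - b) (j + b)) ≤ ϑ) (hM : 8 ≤ M) {k : ℕ} (hk : 10 * M ≤ k)
    (hk' : (k : ℝ) ≤ 20 * M) {c1 z wl lo al : ℕ} (hwl : c1 ≤ wl) (hL : wl + 3 * k * (lo + 1) ≤ al) (hal : al ≤ z) (hzz : z ≤ m) :
    PP (wm μ s N (Pn N y) ω) (fun x x' => ind72 (fun ω S => TauM (wm μ s N (Pn N y) ω) (pJ 0 m) (pJ c1 z) wl al M S ∧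
      jT45 μ s N (Pn N y) γ B b j r.z dl ml (fun _ _ => True) ω S) ω x * rh zf cc F x x') ≤
      PP (wm μ s N (Pn N y) ω) (fun x x' => LJA μ s N r m wl lo k M y ω x * rh zf cc F x x') +
        PP (wm μ s N (Pn N y) ω) (fun x x' => LJB μ s N r m wl lo k M y ω x * rh zf cc F x x') +
        2 * D * (Real.exp ml * Kap 0 (Real.exp ((N : ℝ) ^ ε)) dl r.q r.d r.e1 r.d3 +
          Real.exp ml * (6 / dl) * (Real.exp (-(N : ℝ) ^ c') + B * ϑ) + Real.exp (-M)) := by
  have hD0 : 0 ≤ D := (abs_nonneg _).trans (hFD (Classical.arbitrary _))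
  have R0 : ∀ x x' : Px (Pn N y), 0 ≤ rh zf cc F x x' := fun x x' => rh_nonneg F x x'
  have R1 : ∀ x x' : Px (Pn N y), rh zf cc F x x' ≤ 2 * D := fun x x' => rh_leJ45 hFD x x'
  set w := wm μ s N (Pn N y) ω with hw
  obtain ⟨T, hT⟩ : ∃ T : Env × Finset ℕ → Px (Pn N y) → Prop, T = fun ω => TauM (wm μ s N (Pn N y) ω) (pJ 0 m) (pJ c1 z) wl al M :=
    ⟨_, rfl⟩
  have key := lb_pt13 (μ := μ) (s := s) (N := N) (y := y) (κ := κ) (δk := γ) (δ₁ := δ₁) (ε := ε) (c' := c') (B := B) (F0 := 2 * D) (ϑ := ϑ)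
    (b0 := b) (j := j) (ω := ω) hη hj h1 h2 hB hz ho hdl (m' := ml) (V := ind72 (fun _ _ => True) ω) (fun x => ind72_nonneg _ _ _)
    (fun x => ind72_le_one _ _ _) (H := fun x x' => ind72 T ω x * rh zf cc F x x')
    (fun x' S S' hSS => by
      have a1 : pJ (Q := Pn N y) 0 m S = pJ 0 m S' := crs_pJ (Q := Pn N y) le_rfl hzm S S' hSS
      have a2 : ind72 T ω S = ind72 T ω S' := by
        unfold ind72
        rw [hT]
        have := tauM_meas (wm μ s N (Pn N y) ω) (pJ 0 m) (pJ c1 z) wl al M a1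
        by_cases h : TauM (wm μ s N (Pn N y) ω) (pJ 0 m) (pJ c1 z) wl al M S
        · rw [if_pos h, if_pos (this.1 h)]
        · rw [if_neg h, if_neg fun h' => h (this.2 h')]
      have a3 := rh_mp45 (c1 := 0) (z := r.z) (hzm.trans hm0) hm hF x' S S' hSS
      show _ * _ = _ * _
      rw [a2]
      congr 1)
    (fun x x' => mul_nonneg (ind72_nonneg _ _ _) (R0 x x'))
    (fun x x' => (mul_le_of_le_one_left (R0 x x') (ind72_le_one _ _ _)).trans (R1 x x')) hϑ
  -- the left side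
  have e0 : PP w (fun x x' => ind72 (fun ω S => TauM (wm μ s N (Pn N y) ω) (pJ 0 m) (pJ c1 z) wl al M S ∧
      jT45 μ s N (Pn N y) γ B b j r.z dl ml (fun _ _ => True) ω S) ω x * rh zf cc F x x') =
      PP w (fun x x' => jA7 μ s N (Pn N y) γ B b j r.z dl ml (ind72 (fun _ _ => True) ω) ω.1 (sg ω.2 j) x *
        (ind72 T ω x * rh zf cc F x x')) := by
    congr 1
    funext x x'
    rw [jA_ind45, ind_and45 (fun ω => TauM (wm μ s N (Pn N y) ω) (pJ 0 m) (pJ c1 z) wl al M), hT]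
    ring
  rw [e0]
  refine key.trans ?_
  -- the pieces
  obtain ⟨eL, heL⟩ : ∃ e : Px (Pn N y) → ℝ, e = fun S => if TauM w (pJ 0 m) (pJ c1 z) wl al M S ∧ ¬ Rp w (pJ 0 m) wl lo k M S then 1 else 0 :=
    ⟨_, rfl⟩
  have gL : gm w eL ≤ Real.exp (-M) := by
    rw [heL]
    exact tauM_rp (μ := μ) (s := s) (N := N) (Q := Pn N y) ω.1 (crs_pJ (Nat.zero_le _) hzz) (swP_pJ (Nat.zero_le _))
      (blP_pJ (by omega : c1 ≤ z)) wl lo k hM hk hk' hwl hL hal
  have eL0 : ∀ x, 0 ≤ eL x := fun x => by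
    rw [heL]
    show (0 : ℝ) ≤ if _ then 1 else 0
    split_ifs <;> norm_num
  have hpt : ∀ x x' : Px (Pn N y), ind (nE13 w r) x * (ind72 T ω x * rh zf cc F x x') ≤
      LJA μ s N r m wl lo k M y ω x * rh zf cc F x x' + LJB μ s N r m wl lo k M y ω x * rh zf cc F x x' +
        eL x * rh zf cc F x x' := fun x x' => by
    rw [← mul_assoc, ← add_mul, ← add_mul]
    refine mul_le_mul_of_nonneg_right ?_ (R0 x x')
    have a1 : 0 ≤ LJA μ s N r m wl lo k M y ω x := evF_nonneg _ _ _ _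
    have a2 : 0 ≤ LJB μ s N r m wl lo k M y ω x := evF_nonneg _ _ _ _
    have a3 := eL0 x
    by_cases g1 : nE13 w r x
    · have f1 : ind (nE13 w r) x = 1 := if_pos g1
      rw [f1, one_mul]
      by_cases g2 : T ω x
      · have f2 : ind72 T ω x = 1 := if_pos g2
        rw [f2]
        have g2' : TauM w (pJ 0 m) (pJ c1 z) wl al M x := by rw [hT] at g2; exact g2
        by_cases g3 : Rp w (pJ 0 m) wl lo k M x
        · rcases g1 with g1 | g1
          · have f3 : LJA μ s N r m wl lo k M y ω x = 1 := if_pos ⟨g3, g1⟩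
            linarith
          · have f3 : LJB μ s N r m wl lo k M y ω x = 1 := if_pos ⟨g3, g1⟩
            linarith
        · have f3 : eL x = 1 := by
            rw [heL]
            exact if_pos ⟨g2', g3⟩
          linarith
      · have f2 : ind72 T ω x = 0 := if_neg g2
        rw [f2]
        linarith
    · have f1 : ind (nE13 w r) x = 0 := if_neg g1
      rw [f1, zero_mul]
      linarith
  have hPP := PP_mono w hpt
  rw [PP_add, PP_add] at hPP
  have kL := MicT14.PP_le_const w R1 eL eL0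
  have kL' := mul_le_mul_of_nonneg_left gL (by linarith : 0 ≤ 2 * D)
  linarith

end Pt

end

end Pool.Agent.W_7d29a1_C0.E2J45
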