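import Pool.Agent.W_7d29a1_C0.E2D96L
import Pool.Agent.W_7d29a1_C0.E2D43
import Pool.Agent.W_7d29a1_C0.E2S39F

/-!
MP_7d29a1_pr, [CURV0] / [C0], leaf E2, PART L (helper45): **THE SLOT OF THE THREE LEVELS** (definition). `JTS`: at one length `n = 2 ^ m` of the
frame, for every admissible block and every spectator of the class, the three functionals of part L with three levels (`E2D96L.lJ`: own event of the
future and the level of `T4`, given what is behind the row `m'`), `m' = (j / sg + 1) * sg` and the two macro slabs, are lists of two terms.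
-/

set_option autoImplicit false
set_option linter.unusedSectionVars false
set_option linter.unusedVariables false

namespace Pool.Agent.W_7d29a1_C0.E2JH45

open Finset MeasureTheory Filter Topology
open Pool.Agent.W_7d29a1_F Pool.Agent.W_7d29a1_X
open Pool.Agent.W_7d29a1_H (sl EE one_le_EE)
open Pool.Agent.W_7d29a1_C0 Pool.Agent.W_7d29a1_C0.Mod92 Pool.Agent.W_7d29a1_C0.Swap57 Pool.Agent.W_7d29a1_C0.NM82
open Pool.Agent.W_7d29a1_C0.Asm96 Pool.Agent.W_7d29a1_C0.EstC46 Pool.Agent.W_7d29a1_C0.Frm33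
open Pool.Agent.W_7d29a1_C0.H32
open Pool.Agent.W_7d29a1_C0.E2D43 (Dec43)
open Pool.Agent.W_7d29a1_C0.E2DL96 (lJ)

noncomputable section

/-- **The slot of the three levels.** -/
def JTS (μ : Measure ℝ) (s : ℝ) (K : ℕ) (Θ δ c ι β γ : ℝ) (m : ℕ) (M del : ℝ) : Prop := ∀ p q i : ℕ, St96 (EE μ s) δ c m p q →
  i < 2 ^ (m - q) → ∀ C : ℝ, 0 ≤ C → C ^ 2 ≤ ((2 ^ m : ℕ) : ℝ) ^ (40 * ι) → ∀ (cb : ℕ) (D : ℝ) (f : Fam (L33 K m)),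
  Cls59 (L33 K m) cb ((i + 1) * 2 ^ q) D f → 0 < D → D ≤ ((2 ^ m : ℕ) : ℝ) ^ 3 →
    Dec43 μ s (L33 K m) (ys33 μ s K m) (Rw (R33 ι m) (i * 2 ^ q) ((i + 1) * 2 ^ q)) (2 ^ q) (((2 ^ m : ℕ) : ℝ) ^ (Θ - 2 * (c / 4))) f
      (fun j y => C * lJ μ s (L33 K m) γ (B33 β m) (2 ^ (p - ⌈ι * (m : ℝ)⌉₊)) (2 ^ p) (2 ^ sg96 (EE μ s) c m p) (gl46 ι m q)
        ((i + 1) * 2 ^ q) j del M f ((j / 2 ^ sg96 (EE μ s) c m p + 1) * 2 ^ sg96 (EE μ s) c m p) y)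
      2 (((2 ^ m : ℕ) : ℝ) ^ 20 * ((L33 K m : ℕ) : ℝ) ^ (-4 : ℝ)) ∧
    Dec43 μ s (L33 K m) (ys33 μ s K m) (Rw (R33 ι m) (i * 2 ^ q) ((i + 1) * 2 ^ q)) (2 ^ q) (((2 ^ m : ℕ) : ℝ) ^ (Θ - 2 * (c / 4))) f
      (fun j y => C * ((gl46 ι m q : ℝ)⁻¹ * ∑ v ∈ range (gl46 ι m q), lJ μ s (L33 K m) γ (B33 β m) (2 ^ (p - ⌈ι * (m : ℝ)⌉₊)) (2 ^ p)
        (2 ^ sg96 (EE μ s) c m p) (gl46 ι m q) ((i + 1) * 2 ^ q) j del M f ((i + 1) * 2 ^ q - 5 * gl46 ι m q + 1 + v) y))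
      2 (((2 ^ m : ℕ) : ℝ) ^ 20 * ((L33 K m : ℕ) : ℝ) ^ (-4 : ℝ)) ∧
    Dec43 μ s (L33 K m) (ys33 μ s K m) (Rw (R33 ι m) (i * 2 ^ q) ((i + 1) * 2 ^ q)) (2 ^ q) (((2 ^ m : ℕ) : ℝ) ^ (Θ - 2 * (c / 4))) f
      (fun j y => C * ((gl46 ι m q : ℝ)⁻¹ * ∑ v ∈ range (gl46 ι m q), lJ μ s (L33 K m) γ (B33 β m) (2 ^ (p - ⌈ι * (m : ℝ)⌉₊)) (2 ^ p)
        (2 ^ sg96 (EE μ s) c m p) (gl46 ι m q) ((i + 1) * 2 ^ q) j del M f ((i + 1) * 2 ^ q - 3 * gl46 ι m q + 1 + v) y))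
      2 (((2 ^ m : ℕ) : ℝ) ^ 20 * ((L33 K m : ℕ) : ℝ) ^ (-4 : ℝ))

end

end Pool.Agent.W_7d29a1_C0.E2JH45
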