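import Pool.Agent.W_7d29a1_C0.E2S39H

/-!
STORM C0, leaf E2 (helper39): THE LIST OF THE TERMS OF PART L. Each row functional of the list times its coefficient is one term
(`dO39`, `dB39`, `dT39`, `dP39`, `dQ39`, `dG39`); `listL39` : their sum.
-/

set_option autoImplicit false
set_option linter.unusedSectionVars false
set_option linter.unusedVariables false

namespace Pool.Agent.W_7d29a1_C0.E2S39

open MeasureTheory ProbabilityTheory Filter Topology Finset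
open Pool.Agent.W_7d29a1_F Pool.Agent.W_7d29a1_X Pool.Agent.W_7d29a1_h4g Pool.Agent.W_7d29a1_H
open Pool.Agent.W_7d29a1_HS (In wd md)
open Pool.Agent.W_7d29a1_HZ Pool.Agent.W_7d29a1_HZ.R72 Pool.Agent.W_7d29a1_Z.Asm72
open Pool.Agent.W_7d29a1_HZ.Z86
open Pool.Agent.W_7d29a1_C0.P86
open Pool.Agent.W_7d29a1_C0.Mod92
open Pool.Agent.W_7d29a1_C0.T93 (rdist Fam2 pr2 rw2 grp93)
open Pool.Agent.W_7d29a1_C0.E2T96 (Trm96 one96 qb_one96 pr_one96 pr96 rw96)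
open Pool.Agent.W_7d29a1_C0.E2C96 (evF mR mR_one)
open Pool.Agent.W_7d29a1_C0.E2CL45 (LOl LLg LT2l LTpl LT0l)
open Pool.Agent.W_7d29a1_C0.E2G43 (G43)
open Pool.Agent.W_7d29a1_C0.E2D43 (Dec43)
open Pool.Agent.W_7d29a1_C0.E2D96 (LU qU)
open scoped ENNReal

noncomputable section

variable {μ : Measure ℝ} {s : ℝ} {N : ℕ}

namespace Rd39

variable {c₀ Θ δ a ε n c ε' θ κ M e e₀ x : ℝ} {ys S : Finset ℕ} {b0 b sg gl d r l k r0 : ℕ}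

section Dc

variable [IsProbabilityMeasure μ] (H : Rd39 μ s c₀ Θ δ a ε n c ε' θ κ M e e₀ x N ys S b0 b sg gl d r l k r0) {C : ℝ} {f : Fam N}
include H

/-- Own, one of the four gains. -/
theorem dO39 {G : ℝ} (hC : 0 ≤ C) (hG : Og39 μ s b r G) (h : C ^ 2 ≤ n ^ e₀ * G) : Dec43 μ s N ys S r (n ^ (Θ - 2 * x)) f
    (fun j y => C * rw96 μ s N (one96 N (LOl μ s N (zz39 sg j) (j - b) l k M) (d - gl) d) f y) 1 0 :=
  Dec43.one (H.lOR C hC hG h) fun j _ y _ => by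
    have h1 : mR μ s N (H.lOR C hC hG h).n (fun u => (H.lOR C hC hG h).Q u j) f y =
      rw96 μ s N (one96 N (LOl μ s N (zz39 sg j) (j - b) l k M) (d - gl) d) f y := mR_one _
    rw [h1]
    exact le_rfl

/-- The bare outer tie. -/
theorem dB39 (hC : 0 ≤ C) (h : C ^ 2 ≤ n ^ e₀ * (1 / EE μ s b ^ 4)) : Dec43 μ s N ys S r (n ^ (Θ - 2 * x)) f
    (fun _ y => C * rw96 μ s N (qU N gl d) f y) 1 0 :=
  Dec43.one (H.tB39 C hC h) fun j _ y _ => by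
    have h1 : mR μ s N (H.tB39 C hC h).n (fun u => (H.tB39 C hC h).Q u j) f y = rw96 μ s N (qU N gl d) f y := mR_one _
    rw [h1]
    exact le_rfl

variable {A : ℕ → ℕ} {nn : ℕ} (hA : ∀ j ∈ S, j ≤ A j + 3 * (b / 8) ∧ A j + nn + b / 8 ≤ j + 1) {ee : ℕ → ℕ}
  (hee : ∀ j ∈ S, j + b0 ≤ ee j ∧ ee j ≤ d - gl)

include hA hee in
/-- Own mass given the block, and micro tie. -/
theorem dT39 (hC : 0 ≤ C) (h : C ^ 2 ≤ n ^ e₀) : Dec43 μ s N ys S r (n ^ (Θ - 2 * x)) f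
    (fun j y => C * mR μ s N nn (fun u => one96 N (LT2l μ s N (cc39 sg j) (zz39 sg j) (j - b) (j - b / 2) (ee j) b0 j l k M (A j + u))
      (d - gl) d) f y) 1 0 :=
  Dec43.one (H.lT2 C hC h hA hee) fun _ _ _ _ => le_rfl

include hA hee in
/-- An alternative given the block, and micro tie. -/
theorem dP39 (hC : 0 ≤ C) (h : C ^ 2 ≤ n ^ e₀) : Dec43 μ s N ys S r (n ^ (Θ - 2 * x)) f
    (fun j y => C * mR μ s N nn (fun u => one96 N (LTpl μ s N (cc39 sg j) (zz39 sg j) (j - b) l (ee j) b0 j l k M (A j + u))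
      (d - gl) d) f y) 1 0 :=
  Dec43.one (H.lTp C hC h hA hee) fun _ _ _ _ => le_rfl

variable {a' nn' e1 : ℕ}

include hA in
/-- `T0Q`. -/
theorem dQ39 (ha' : ∀ j ∈ S, j ≤ a') (ha2 : a' + nn' ≤ d - gl + 1) (he1 : ∀ j ∈ S, j + b0 + gl ≤ e1) (he2 : e1 ≤ d - gl) (hC : 0 ≤ C)
    (h : C ^ 2 ≤ n ^ e₀) : Dec43 μ s N ys S r (n ^ (Θ - 2 * x)) f
    (fun j y => C * mR μ s N (nn' * nn) (fun u => one96 N (LT0l μ s N (j - b) l e1 b0 j l k M (a' + u / nn) (A j + u % nn))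
      (d - gl) d) f y) 1 0 :=
  Dec43.one (H.lT0 C hC h hA ha' ha2 he1 he2) fun _ _ _ _ => le_rfl

/-- The long tie. -/
theorem dG39 (ha2 : a' + nn' ≤ d - gl + 1) (hz : ∀ j ∈ S, zz39 sg j + gl ≤ e1) (he3 : e1 ≤ a') (hC : 0 ≤ C) (h : C ^ 2 ≤ n ^ e₀) :
    Dec43 μ s N ys S r (n ^ (Θ - 2 * x)) f
    (fun j y => C * mR μ s N nn' (fun u => one96 N (LLg μ s N (zz39 sg j) (j - b) l k (zz39 sg j) e1 M (a' + u)) (d - gl) d) f y) 1 0 :=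
  Dec43.one (H.lLg C hC h ha2 hz he3) fun _ _ _ _ => le_rfl

end Dc

/-- **THE LIST OF PART L**, without the pairs of the window and without the parts with three levels. -/
theorem listL39 [IsProbabilityMeasure μ] (H : Rd39 μ s c₀ Θ δ a ε n c ε' θ κ M e e₀ x N ys S b0 b sg gl d r l k r0) {f : Fam N}
    (hS : S.Nonempty) {k1 k2 k3 k4 k5 p2 q2 p1 q1 t1 t2 t3 g1 g2 : ℝ} (h1 : 0 ≤ k1) (h2 : 0 ≤ k2) (h3 : 0 ≤ k3) (h4 : 0 ≤ k4)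
    (h5 : 0 ≤ k5) (hp2 : 0 ≤ p2) (hq2 : 0 ≤ q2) (hp1 : 0 ≤ p1) (hq1 : 0 ≤ q1) (ht1 : 0 ≤ t1) (ht2 : 0 ≤ t2) (ht3 : 0 ≤ t3)
    (hg1 : 0 ≤ g1) (hg2 : 0 ≤ g2)
    (c1 : k1 ^ 2 ≤ n ^ e₀ * (wd μ s b / b) ^ 2) (c2 : k2 ^ 2 ≤ n ^ e₀ * (wd μ s r / r)) (c3 : k3 ^ 2 ≤ n ^ e₀ * (1 / EE μ s b ^ 2))
    (c4 : k4 ^ 2 ≤ n ^ e₀ * (1 / EE μ s r ^ 2)) (c5 : k5 ^ 2 ≤ n ^ e₀ * (1 / EE μ s b ^ 4))
    (d1 : p2 ^ 2 ≤ n ^ e₀) (d2 : q2 ^ 2 ≤ n ^ e₀) (d3 : p1 ^ 2 ≤ n ^ e₀) (d4 : q1 ^ 2 ≤ n ^ e₀) (d5 : t1 ^ 2 ≤ n ^ e₀)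
    (d6 : t2 ^ 2 ≤ n ^ e₀) (d7 : t3 ^ 2 ≤ n ^ e₀) (d8 : g1 ^ 2 ≤ n ^ e₀) (d9 : g2 ^ 2 ≤ n ^ e₀) :
    Dec43 μ s N ys S r (n ^ (Θ - 2 * x)) f (fun j y =>
      (k1 + k2 + k3 + k4) * rw96 μ s N (one96 N (LOl μ s N (zz39 sg j) (j - b) l k M) (d - gl) d) f y +
      k5 * rw96 μ s N (qU N gl d) f y +
      p2 * mR μ s N (b / 8) (fun u => one96 N (LT2l μ s N (cc39 sg j) (zz39 sg j) (j - b) (j - b / 2) (zz39 sg j) b0 j l k M
        (j - 3 * (b / 8) + 1 + u)) (d - gl) d) f y +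
      p2 * mR μ s N (b / 8) (fun u => one96 N (LT2l μ s N (cc39 sg j) (zz39 sg j) (j - b) (j - b / 2) (d - 6 * gl) b0 j l k M
        (j - 3 * (b / 8) + 1 + u)) (d - gl) d) f y +
      q2 * mR μ s N (b / 8) (fun u => one96 N (LTpl μ s N (cc39 sg j) (zz39 sg j) (j - b) l (zz39 sg j) b0 j l k M
        (j - 3 * (b / 8) + 1 + u)) (d - gl) d) f y +
      q2 * mR μ s N (b / 8) (fun u => one96 N (LTpl μ s N (cc39 sg j) (zz39 sg j) (j - b) l (d - 6 * gl) b0 j l k M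
        (j - 3 * (b / 8) + 1 + u)) (d - gl) d) f y +
      p1 * mR μ s N (b / 8) (fun u => one96 N (LT2l μ s N (cc39 sg j) (zz39 sg j) (j - b) (j - b / 2) (zz39 sg j) b0 j l k M
        (j - b / 4 + 1 + u)) (d - gl) d) f y +
      p1 * mR μ s N (b / 8) (fun u => one96 N (LT2l μ s N (cc39 sg j) (zz39 sg j) (j - b) (j - b / 2) (d - 6 * gl) b0 j l k M
        (j - b / 4 + 1 + u)) (d - gl) d) f y +
      q1 * mR μ s N (b / 8) (fun u => one96 N (LTpl μ s N (cc39 sg j) (zz39 sg j) (j - b) l (zz39 sg j) b0 j l k M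
        (j - b / 4 + 1 + u)) (d - gl) d) f y +
      q1 * mR μ s N (b / 8) (fun u => one96 N (LTpl μ s N (cc39 sg j) (zz39 sg j) (j - b) l (d - 6 * gl) b0 j l k M
        (j - b / 4 + 1 + u)) (d - gl) d) f y +
      t1 * mR μ s N (gl * (b / 8)) (fun u => one96 N (LT0l μ s N (j - b) l (d - 6 * gl) b0 j l k M (d - 5 * gl + 1 + u / (b / 8))
        (j - 3 * (b / 8) + 1 + u % (b / 8))) (d - gl) d) f y +
      t2 * mR μ s N (gl * (b / 8)) (fun u => one96 N (LT0l μ s N (j - b) l (d - 6 * gl) b0 j l k M (d - 5 * gl + 1 + u / (b / 8))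
        (j - b / 4 + 1 + u % (b / 8))) (d - gl) d) f y +
      t3 * mR μ s N (gl * (b / 8)) (fun u => one96 N (LT0l μ s N (j - b) l (d - 6 * gl) b0 j l k M (d - 3 * gl + 1 + u / (b / 8))
        (j - b / 4 + 1 + u % (b / 8))) (d - gl) d) f y +
      g1 * mR μ s N gl (fun u => one96 N (LLg μ s N (zz39 sg j) (j - b) l k (zz39 sg j) (d - 6 * gl) M (d - 5 * gl + 1 + u))
        (d - gl) d) f y +
      g2 * mR μ s N gl (fun u => one96 N (LLg μ s N (zz39 sg j) (j - b) l k (zz39 sg j) (d - 6 * gl) M (d - 3 * gl + 1 + u))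
        (d - gl) d) f y) 18 0 := by
  obtain ⟨j₀, hj₀⟩ := hS
  have G0 := H.hg39 j₀ hj₀
  have Gz := fun j hj => (H.hg39 j hj).1
  have Ge := fun j hj => (H.hg39 j hj).2.1
  have Ga := fun j hj => (H.hg39 j hj).2.2.1
  have Gb := fun j hj => (H.hg39 j hj).2.2.2.1
  have Gl : d - 6 * gl ≤ d - gl := (H.he39 j₀ hj₀).2
  have D := (((((((((((((((((H.dO39 (f := f) h1 (Or.inl rfl) c1).add (H.dO39 h2 (Or.inr (Or.inl rfl)) c2)).add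
    (H.dO39 h3 (Or.inr (Or.inr (Or.inl rfl))) c3)).add (H.dO39 h4 (Or.inr (Or.inr (Or.inr rfl))) c4)).add (H.dB39 h5 c5)).add
    (H.dT39 (A := fun j => j - 3 * (b / 8) + 1) (nn := b / 8) H.hL2 (ee := zz39 sg) H.hz39 hp2 d1)).add
    (H.dT39 (A := fun j => j - 3 * (b / 8) + 1) (nn := b / 8) H.hL2 (ee := fun _ => d - 6 * gl) H.he39 hp2 d1)).add
    (H.dP39 (A := fun j => j - 3 * (b / 8) + 1) (nn := b / 8) H.hL2 (ee := zz39 sg) H.hz39 hq2 d2)).add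
    (H.dP39 (A := fun j => j - 3 * (b / 8) + 1) (nn := b / 8) H.hL2 (ee := fun _ => d - 6 * gl) H.he39 hq2 d2)).add
    (H.dT39 (A := fun j => j - b / 4 + 1) (nn := b / 8) H.hL1 (ee := zz39 sg) H.hz39 hp1 d3)).add
    (H.dT39 (A := fun j => j - b / 4 + 1) (nn := b / 8) H.hL1 (ee := fun _ => d - 6 * gl) H.he39 hp1 d3)).add
    (H.dP39 (A := fun j => j - b / 4 + 1) (nn := b / 8) H.hL1 (ee := zz39 sg) H.hz39 hq1 d4)).add
    (H.dP39 (A := fun j => j - b / 4 + 1) (nn := b / 8) H.hL1 (ee := fun _ => d - 6 * gl) H.he39 hq1 d4)).add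
    (H.dQ39 (A := fun j => j - 3 * (b / 8) + 1) (nn := b / 8) H.hL2 (nn' := gl) Ga G0.2.2.2.2.1 Ge Gl ht1 d5)).add
    (H.dQ39 (A := fun j => j - b / 4 + 1) (nn := b / 8) H.hL1 (nn' := gl) Ga G0.2.2.2.2.1 Ge Gl ht2 d6)).add
    (H.dQ39 (A := fun j => j - b / 4 + 1) (nn := b / 8) H.hL1 (nn' := gl) Gb G0.2.2.2.2.2.1 Ge Gl ht3 d7)).add
    (H.dG39 (nn' := gl) G0.2.2.2.2.1 Gz G0.2.2.2.2.2.2.1 hg1 d8)).add
    (H.dG39 (nn' := gl) G0.2.2.2.2.2.1 Gz G0.2.2.2.2.2.2.2 hg2 d9)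
  refine D.mono (fun j _ y _ => le_of_eq ?_) (by norm_num)
  ring

end Rd39

end

end Pool.Agent.W_7d29a1_C0.E2S39
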