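import Pool.Agent.W_7d29a1_C0.E2JL39
import Pool.Agent.W_7d29a1_C0.E2D96L

/-!
STORM C0, leaf E2 (helper39): THE LIST OF PART L WITH ITS TERMS, from the end of the row (`Dl96.rowL`) of helper96. The pairs of the window
and the parts with three levels enter as lists of their own.
-/

set_option autoImplicit false
set_option linter.unusedSectionVars false
set_option linter.unusedVariables false

namespace Pool.Agent.W_7d29a1_C0.E2S39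

open MeasureTheory ProbabilityTheory Filter Topology Finset
open Pool.Agent.W_7d29a1_F Pool.Agent.W_7d29a1_X Pool.Agent.W_7d29a1_h4g Pool.Agent.W_7d29a1_H
open Pool.Agent.W_7d29a1_HS (In wd md)
open Pool.Agent.W_7d29a1_HZ Pool.Agent.W_7d29a1_HZ.R72 Pool.Agent.W_7d29a1_Z.Asm72
open Pool.Agent.W_7d29a1_HZ.Z86
open Pool.Agent.W_7d29a1_C0.P86
open Pool.Agent.W_7d29a1_C0.Mod92
open Pool.Agent.W_7d29a1_C0.Swap57 (NI cE2 NI_nonneg)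
open Pool.Agent.W_7d29a1_C0.MicE14 (rh rh_nonneg)
open Pool.Agent.W_7d29a1_C0.T72 (Sp72)
open Pool.Agent.W_7d29a1_C0.T93 (rdist Fam2 pr2 rw2 grp93)
open Pool.Agent.W_7d29a1_C0.E2T96 (Trm96 one96 qb_one96 pr_one96 pr96 rw96)
open Pool.Agent.W_7d29a1_C0.E2C96 (evF mR mR_one wv_eq)
open Pool.Agent.W_7d29a1_C0.E2CL45 (LOl LLg LT2l LTpl LT0l avy_cle)
open Pool.Agent.W_7d29a1_C0.E2G43 (G43 nL1 nL2 mc3 mc4)
open Pool.Agent.W_7d29a1_C0.E2D43 (Dec43)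
open Pool.Agent.W_7d29a1_C0.E2D96 (LU qU outC)
open Pool.Agent.W_7d29a1_C0.E2DL96
open Pool.Agent.W_7d29a1_C0.MicN96 (er96)
open Pool.W7d29a1.C0 (gz gm gz_pos gm_nonneg gm_mono gm_const PP PP_mono PP_nonneg PP_add)
open Pool.W7d29a1.C0.VT31
open Pool.W7d29a1.C0.R43
open scoped ENNReal

noncomputable section

variable {μ : Measure ℝ} {s : ℝ} {N : ℕ}

/-- The bare outer tie at the tilted weights. -/
def lU39 (μ : Measure ℝ) (s : ℝ) (N y : ℕ) (γ B : ℝ) (b0 gl d j : ℕ) (t : ℝ) (f : Fam N) : ℝ :=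
  ∫ ω, PP (wj μ s N (Pn N y) γ B b0 j ω t) (fun x x' => rh (d - gl) d (f y ω) x x') ∂(Pm μ N)

/-- The bare outer tie at the corner. -/
theorem bare39 [IsProbabilityMeasure μ] {ys : Finset ℕ} {γ B : ℝ} {b0 b σ gl c d j : ℕ} {t ε εM K' M D δ e0 : ℝ} {l lo q : ℕ}
    {f : Fam N} (Z : Dl96 μ s N ys γ B b0 b σ gl c d j t ε εM K' M D δ e0 l lo q f) :
    avy ys (fun y => lU39 μ s N y γ B b0 gl d j t f) ≤ (N : ℝ) ^ ε * avy ys (rw96 μ s N (qU N gl d) f) + er96 N K' := by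
  have hN := Z.hN
  have her : 0 ≤ er96 N K' := by unfold er96; positivity
  obtain ⟨g1, g2, g3, g4, g5, -⟩ := geoL96 Z.X
  have h1 : avy ys (fun y => lU39 μ s N y γ B b0 gl d j t f) ≤ avy ys (fun y => (N : ℝ) ^ ε * rw96 μ s N (qU N gl d) f y + er96 N K') := by
    refine avy_mono fun y hy => ?_
    have := ne_Pn (Z.hys y hy)
    have h := outC (zt := d - gl) (Z.R y hy).toRw96 (g2.trans g4) g5 le_rfl (Z.sp y hy) Z.hD Z.hf.meas Z.hf.bdd (Z.hys y hy)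
    unfold lU39
    simp only [wv_eq] at h
    exact h
  refine h1.trans ?_
  rw [avy_add, avy_mul]
  exact add_le_add le_rfl (avy_cle her ys)

namespace Rd39

variable {c₀ Θ δ a ε n c ε' θ κ M e e₀ x : ℝ} {ys S : Finset ℕ} {b0 b sg gl d r l k r0 : ℕ}

/-- **THE LIST OF PART L WITH ITS TERMS.** -/
theorem decL39 [IsProbabilityMeasure μ] (H : Rd39 μ s c₀ Θ δ a ε n c ε' θ κ M e e₀ x N ys S b0 b sg gl d r l k r0) {f : Fam N}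
    {Φ : ℕ → ℕ → ℝ} {γ B t ε₁ εM K' D' δ₁ ef : ℝ} {cb : ℕ}
    (Z : ∀ j ∈ S, Dl96 μ s N ys γ B b0 b sg gl cb d j t ε₁ εM K' M D' δ₁ ef l l k f)
    {b1 b2 b3 b4 b5 A1 A2 A3 B1 B2 B3 D3 D4 α β α' β' er eE eD e1 e2 e3 : ℝ} {kD k1 k2 k3 : ℕ}
    (hb1 : 0 ≤ b1) (hb2 : 0 ≤ b2) (hb3 : 0 ≤ b3) (hb4 : 0 ≤ b4) (hb5 : 0 ≤ b5) (hA1 : 0 ≤ A1) (hA2 : 0 ≤ A2) (hA3 : 0 ≤ A3)
    (hB1 : 0 ≤ B1) (hB2 : 0 ≤ B2) (hB3 : 0 ≤ B3) (hD3 : 0 ≤ D3) (hD4 : 0 ≤ D4) (hα : 0 ≤ α) (hβ : 0 ≤ β) (hα' : 0 ≤ α') (hβ' : 0 ≤ β')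
    (hB : 0 ≤ B) (hef : 0 ≤ ef) (her : 0 ≤ er)
    (hV : ∀ j ∈ S, ∀ y ∈ ys, ∀ [Nonempty (Px (Pn N y))], Φ j y ≤ (b1 + b2 + b3 + b4) * lO μ s N y γ B b0 b sg gl d j t f +
      A1 * lG μ s N y γ B b0 b sg gl d j t f (nL2 b j) α β + A2 * lG μ s N y γ B b0 b sg gl d j t f (nL1 b j) α' β' +
      B1 * lT μ s N y γ B b0 b sg gl d j t f (mc3 gl d) (nL2 b j) + B2 * lT μ s N y γ B b0 b sg gl d j t f (mc3 gl d) (nL1 b j) +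
      B3 * lT μ s N y γ B b0 b sg gl d j t f (mc4 gl d) (nL1 b j) + D3 * lL μ s N y γ B b0 b sg gl d j t f (mc3 gl d) +
      D4 * lL μ s N y γ B b0 b sg gl d j t f (mc4 gl d) + A3 * lD μ s N y γ B b0 b sg gl d j t f +
      b5 * lU39 μ s N y γ B b0 gl d j t f + er)
    (c1 : (b1 * (N : ℝ) ^ ε₁) ^ 2 ≤ n ^ e₀ * (wd μ s b / b) ^ 2) (c2 : (b2 * (N : ℝ) ^ ε₁) ^ 2 ≤ n ^ e₀ * (wd μ s r / r))
    (c3 : (b3 * (N : ℝ) ^ ε₁) ^ 2 ≤ n ^ e₀ * (1 / EE μ s b ^ 2)) (c4 : (b4 * (N : ℝ) ^ ε₁) ^ 2 ≤ n ^ e₀ * (1 / EE μ s r ^ 2))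
    (c5 : (b5 * (N : ℝ) ^ ε₁) ^ 2 ≤ n ^ e₀ * (1 / EE μ s b ^ 4))
    (d1 : (2 * A1 * α * B * (N : ℝ) ^ ε₁) ^ 2 ≤ n ^ e₀) (d2 : (2 * A1 * β * B * (N : ℝ) ^ ε₁) ^ 2 ≤ n ^ e₀)
    (d3 : (2 * A2 * α' * B * (N : ℝ) ^ ε₁) ^ 2 ≤ n ^ e₀) (d4 : (2 * A2 * β' * B * (N : ℝ) ^ ε₁) ^ 2 ≤ n ^ e₀)
    (d5 : (2 * B1 * B * (N : ℝ) ^ ε₁) ^ 2 ≤ n ^ e₀) (d6 : (2 * B2 * B * (N : ℝ) ^ ε₁) ^ 2 ≤ n ^ e₀)
    (d7 : (2 * B3 * B * (N : ℝ) ^ ε₁) ^ 2 ≤ n ^ e₀) (d8 : (D3 * (N : ℝ) ^ ε₁) ^ 2 ≤ n ^ e₀) (d9 : (D4 * (N : ℝ) ^ ε₁) ^ 2 ≤ n ^ e₀)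
    (hD : Dec43 μ s N ys S r (n ^ (Θ - 2 * x)) f (fun j y => (4 * A3 * (N : ℝ) ^ ε₁) * rw96 μ s N (qDL μ s N b0 b sg gl d M j) f y) kD eD)
    (hJ1 : Dec43 μ s N ys S r (n ^ (Θ - 2 * x)) f (fun j y => (((A1 * (α + β) + A2 * (α' + β')) * B + 2 * A3) * (N : ℝ) ^ ε₁) *
      lJ μ s N γ B b0 b sg gl d j δ₁ M f ((j / sg + 1) * sg) y) k1 e1)
    (hJ2 : Dec43 μ s N ys S r (n ^ (Θ - 2 * x)) f (fun j y => ((B1 + B2) * B * (N : ℝ) ^ ε₁) *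
      ((gl : ℝ)⁻¹ * ∑ v ∈ range gl, lJ μ s N γ B b0 b sg gl d j δ₁ M f (d - 5 * gl + 1 + v) y)) k2 e2)
    (hJ3 : Dec43 μ s N ys S r (n ^ (Θ - 2 * x)) f (fun j y => (B3 * B * (N : ℝ) ^ ε₁) *
      ((gl : ℝ)⁻¹ * ∑ v ∈ range gl, lJ μ s N γ B b0 b sg gl d j δ₁ M f (d - 3 * gl + 1 + v) y)) k3 e3)
    (hE : (b1 + b2 + b3 + b4 + A1 * (α + β) + A2 * (α' + β') + B1 + B2 + B3 + D3 + D4 + A3) * (6 * N ^ 2 * er96 N K' + 2 * ef) + er +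
      b5 * er96 N K' + (eD + e1 + e2 + e3) ≤ eE) :
    Dec43 μ s N ys S r (n ^ (Θ - 2 * x)) f Φ (18 + kD + k1 + k2 + k3) eE := by
  rcases S.eq_empty_or_nonempty with hS | hS
  · have h0 : (0 : ℝ) ^ 2 ≤ n ^ e₀ * (1 / EE μ s b ^ 4) := by
      rw [zero_pow two_ne_zero]
      exact mul_nonneg (Real.rpow_nonneg H.R.N0.le _) (by positivity)
    exact ⟨fun _ => H.tB39 0 le_rfl h0, fun j hj => absurd (hS ▸ hj) (notMem_empty j)⟩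
  have hN : 0 ≤ (N : ℝ) ^ ε₁ := Real.rpow_nonneg (Nat.cast_nonneg _) _
  have L := ((((H.listL39 (f := f) hS (mul_nonneg hb1 hN) (mul_nonneg hb2 hN) (mul_nonneg hb3 hN) (mul_nonneg hb4 hN)
    (mul_nonneg hb5 hN) (p2 := 2 * A1 * α * B * (N : ℝ) ^ ε₁) (q2 := 2 * A1 * β * B * (N : ℝ) ^ ε₁)
    (p1 := 2 * A2 * α' * B * (N : ℝ) ^ ε₁) (q1 := 2 * A2 * β' * B * (N : ℝ) ^ ε₁) (t1 := 2 * B1 * B * (N : ℝ) ^ ε₁)
    (t2 := 2 * B2 * B * (N : ℝ) ^ ε₁) (t3 := 2 * B3 * B * (N : ℝ) ^ ε₁) (g1 := D3 * (N : ℝ) ^ ε₁) (g2 := D4 * (N : ℝ) ^ ε₁)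
    (by positivity) (by positivity) (by positivity) (by positivity) (by positivity) (by positivity) (by positivity)
    (by positivity) (by positivity) c1 c2 c3 c4 c5 d1 d2 d3 d4 d5 d6 d7 d8 d9).add hD).add hJ1).add hJ2).add hJ3
  refine (L.mono_av (e' := (b1 + b2 + b3 + b4 + A1 * (α + β) + A2 * (α' + β') + B1 + B2 + B3 + D3 + D4 + A3) *
    (6 * N ^ 2 * er96 N K' + 2 * ef) + er + b5 * er96 N K') fun j hj => ?_).cast rfl (by linarith)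
  have hZ := Z j hj
  have h1 := hZ.rowL (V := fun y => Φ j y - b5 * lU39 μ s N y γ B b0 gl d j t f) (A0 := b1 + b2 + b3 + b4) (by positivity) hA1 hA2 hA3
    hB1 hB2 hB3 hD3 hD4 hα hβ hα' hβ' hef her (fun y hy _ => by
      have := ne_Pn (hZ.hys y hy)
      have h2 := hV j hj y hy
      linarith)
  have h2 := mul_le_mul_of_nonneg_left (bare39 hZ) hb5
  have e0 : avy ys (Φ j) = avy ys (fun y => Φ j y - b5 * lU39 μ s N y γ B b0 gl d j t f) +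
      b5 * avy ys (fun y => lU39 μ s N y γ B b0 gl d j t f) := by
    rw [← avy_mul, ← avy_add]
    congr 1
    funext y
    ring
  refine le_trans (b := avy ys (fun y => Dl96.lst μ s N γ B b0 b sg gl d j ε₁ M δ₁ l l k f (b1 + b2 + b3 + b4) A1 A2 A3 B1 B2 B3 D3 D4
    α β α' β' y + (b5 * (N : ℝ) ^ ε₁) * rw96 μ s N (qU N gl d) f y) + ((b1 + b2 + b3 + b4 + A1 * (α + β) + A2 * (α' + β') + B1 + B2 +
    B3 + D3 + D4 + A3) * (6 * N ^ 2 * er96 N K' + 2 * ef) + er + b5 * er96 N K')) ?_ (add_le_add (avy_mono fun y _ => le_of_eq ?_) le_rfl)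
  · rw [avy_add, avy_mul, e0]
    have e5 : avy ys (fun y => Dl96.lst μ s N γ B b0 b sg gl d j ε₁ M δ₁ l l k f (b1 + b2 + b3 + b4) A1 A2 A3 B1 B2 B3 D3 D4
      α β α' β' y) = avy ys (Dl96.lst μ s N γ B b0 b sg gl d j ε₁ M δ₁ l l k f (b1 + b2 + b3 + b4) A1 A2 A3 B1 B2 B3 D3 D4 α β α' β') := rfl
    have e6 : avy ys (fun y => rw96 μ s N (qU N gl d) f y) = avy ys (rw96 μ s N (qU N gl d) f) := rfl
    rw [e5, e6]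
    linarith
  · unfold Dl96.lst qOL q2L1 q2L2 qpL1 qpL2 q0L1 q0L2 qgL
    ring

end Rd39

end

end Pool.Agent.W_7d29a1_C0.E2S39
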