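import Pool.Agent.W_7d29a1_C0.Pt4N82
import Pool.Agent.W_7d29a1_C0.E2S39F

/-!
CURV0 (MP_7d29a1_pr), leaf E2, part L (helper82): **THE THIRD TERM IN A BLOCK OF ROWS** of `Rd39`. `Tl82`: the lanes of length `lT` (two regions
in one half of the window of `b0`), the loss `Rr` of the widths; `tT82`: the term; `tl82_est`: `Tl82` at the concrete frame.
-/

set_option autoImplicit false
set_option linter.unusedSectionVars false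
set_option linter.unusedVariables false

namespace Pool.Agent.W_7d29a1_C0.Pt4N82

open Finset Filter Topology MeasureTheory
open Pool.Agent.W_7d29a1_F
open Pool.Agent.W_7d29a1_H (EE sl)
open Pool.Agent.W_7d29a1_HS (In wd)
open Pool.Agent.W_7d29a1_HZ (wd' EE')
open Pool.Agent.W_7d29a1_C0
open Pool.Agent.W_7d29a1_C0.E2N39 Pool.Agent.W_7d29a1_C0.E2S39
open Pool.Agent.W_7d29a1_C0.Mod92 (Px Pn wm Pm avy avy_mono avy_const Fam)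
open Pool.Agent.W_7d29a1_C0.Swap57 (NI NI_nonneg)
open Pool.Agent.W_7d29a1_C0.T93 (rdist Fam2 pr2 dist_sum_le)
open Pool.Agent.W_7d29a1_C0.E2T96 (pr96 rw96 one96 pr_one96 qb_one96 Qb96 Trm96)
open Pool.Agent.W_7d29a1_C0.Asm96 Pool.Agent.W_7d29a1_C0.EstC46 Pool.Agent.W_7d29a1_C0.Frm33 Pool.Agent.W_7d29a1_C0.E2G43
open Pool.Agent.W_7d29a1_C0.E2K43
open Pool.Agent.W_7d29a1_C0.Par92 (Est Sml)
open Pool.Agent.W_7d29a1_C0.Pt450 (po phT er phT_nonneg po_nonneg po_le)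

noncomputable section

/-- **The lanes of the third term.** -/
structure Tl82 (μ : Measure ℝ) (s ε' θ n e₁ : ℝ) (N b0 b k lT : ℕ) (Rr : ℝ) : Prop where
  fit : 6 * k * (lT + 1) ≤ b0
  lθ : (N : ℝ) ^ θ ≤ lT
  pl : po μ s N ε' lT ≤ n ^ e₁ / EE μ s b
  R1 : 1 ≤ Rr
  Rle : Rr ≤ n ^ e₁
  Rw : ∀ i : ℕ, i ≤ 3 * b → wd' μ s i ≤ Rr * wd' μ s lT

section Trm

variable {μ : Measure ℝ} [IsProbabilityMeasure μ] {s : ℝ} {N : ℕ}
variable {c₀ Θ δ a ε n c ε' θ κ M e e₁ x Rr eT al : ℝ} {ys S : Finset ℕ} {b0 b sg gl d r l k r0 lT : ℕ}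

theorem st82 (H : Rd39 μ s c₀ Θ δ a ε n c ε' θ κ M e e₁ x N ys S b0 b sg gl d r l k r0) (T : Tl82 μ s ε' θ n e₁ N b0 b k lT Rr) :
    St82 μ s N ε' Rr (EE μ s) (n ^ e₁) (po μ s N ε' gl) (EE μ s r) b lT r where
  A16 := H.R.K.trans (Real.rpow_le_rpow_of_exponent_le H.R.N1.le (by linarith [H.ee, H.R.ε0]))
  R0 := by linarith [T.R1]
  Rle := T.Rle
  w0 := po_nonneg _ _
  W0 := H.R.Epos r
  w1 := H.ag
  pl := T.pl
  p1 := H.A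
  pd D hD hr := by
    refine le_trans ?_ (H.aD D hD hr)
    unfold po
    refine mul_le_mul_of_nonneg_left ?_ (Real.rpow_nonneg (Nat.cast_nonneg _) _)
    refine inv_anti₀ (lt_of_lt_of_le one_pos (le_max_left _ _)) ?_
    exact Pool.Agent.W_7d29a1_HZ.ZE.EE'_mono (min_le_left _ _)

/-- **THE THIRD TERM OF THE ROWS OF A BLOCK** as a term of `E2T96`: the functionals `one96 (Fm u j)`, `u < nn`, from the price of the pairs of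
rows. -/
def tT82 (H : Rd39 μ s c₀ Θ δ a ε n c ε' θ κ M e e₁ x N ys S b0 b sg gl d r l k r0) (T : Tl82 μ s ε' θ n e₁ N b0 b k lT Rr)
    (X : Ex39 Θ c ε (2 * e₁) x) (al0 : 0 ≤ al) (hal : al ^ 2 ≤ n ^ (2 * e₁)) (he0 : 0 ≤ eT)
    (he : n ^ (2 * e₁) * (r * (3 * eT + 23 * er N ε' Rr eT)) ≤ 1) (nn : ℕ) (Fm : ℕ → ℕ → Fam N)
    (f0 : ∀ u < nn, ∀ j ∈ S, ∀ y ω S, 0 ≤ Fm u j y ω S) (f1 : ∀ u < nn, ∀ j ∈ S, ∀ y ω S, Fm u j y ω S ≤ 1)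
    (fm : ∀ u < nn, ∀ j ∈ S, ∀ y S, Measurable fun ω => Fm u j y ω S)
    (hp : ∀ u < nn, ∀ j ∈ S, ∀ k ∈ S, avy ys (pr2 μ s N (fun y ω x z => NI (d - gl) d x z) (Fm u j) (Fm u k)) ≤
      phT μ s N ε' Rr eT (po μ s N ε' (d - (d - gl))) b lT (rdist j k)) : Trm96 μ s N ys S r (n ^ (Θ - 2 * x)) :=
  trmT82 (zf := d - gl) (cc := d) H.R H.bs (st82 H T) X (le_of_eq (by
    rw [← Real.rpow_natCast, ← Real.rpow_mul H.R.N0.le]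
    congr 1
    push_cast
    ring)) (by linarith [H.ee, H.R.ε0]) (c0 := r0) H.win al0 hal he0 (by
    refine le_trans (mul_le_mul_of_nonneg_right hal ?_) he
    have := T.R1
    unfold er
    positivity) nn Fm f0 f1 fm (fun u hu j hj k hk => by
    have h := hp u hu j hj k hk
    rwa [H.zd] at h)

end Trm

/-! ### The lanes at the concrete frame -/

section Sz

variable {μ : Measure ℝ} [IsProbabilityMeasure μ] {s : ℝ}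

/-- The loss of the widths. -/
theorem wl82 {a K₀ : ℝ} (ha : 0 < a) (ha1 : a < 1) (hK : 1 ≤ K₀) (hw : ∀ m n : ℕ, 1 ≤ m → m ≤ n →
    wd' μ s m ≤ K₀ * wd' μ s n ∧ K₀⁻¹ * ((n : ℝ) / m) ^ a * wd' μ s m ≤ wd' μ s n ∧ wd' μ s n ≤ K₀ * ((n : ℝ) / m) ^ (1 - a) * wd' μ s m)
    {b l : ℕ} {Z : ℝ} (hl : 1 ≤ l) (hlb : l ≤ b) (hZ : (b : ℝ) ≤ Z * l) (i : ℕ) (hi : i ≤ 3 * b) :
    wd' μ s i ≤ 3 * K₀ ^ 2 * Z * wd' μ s l := by
  have hl0 : (0 : ℝ) < l := by exact_mod_cast hl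
  have hw1 : 1 ≤ wd' μ s l := le_max_left _ _
  have hZ1 : 1 ≤ Z := by
    have h1 : (l : ℝ) ≤ b := by exact_mod_cast hlb
    by_contra h
    push Not at h
    nlinarith
  have hKK : K₀ ≤ K₀ ^ 2 := by nlinarith
  have h0 : wd' μ s (3 * b) ≤ 3 * K₀ * Z * wd' μ s l := by
    obtain ⟨-, -, h3⟩ := hw l (3 * b) hl (by omega)
    refine h3.trans ?_
    have hr : (1 : ℝ) ≤ ((3 * b : ℕ) : ℝ) / l := by
      rw [le_div_iff₀ hl0, one_mul]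
      exact_mod_cast (by omega : l ≤ 3 * b)
    have h4 : (((3 * b : ℕ) : ℝ) / l) ^ (1 - a) ≤ ((3 * b : ℕ) : ℝ) / l := by
      calc _ ≤ (((3 * b : ℕ) : ℝ) / l) ^ (1 : ℝ) := Real.rpow_le_rpow_of_exponent_le hr (by linarith)
        _ = _ := Real.rpow_one _
    have h5 : ((3 * b : ℕ) : ℝ) / l ≤ 3 * Z := by
      rw [div_le_iff₀ hl0]
      push_cast
      linarith
    calc K₀ * (((3 * b : ℕ) : ℝ) / l) ^ (1 - a) * wd' μ s l ≤ K₀ * (3 * Z) * wd' μ s l := by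
          have := h4.trans h5
          gcongr
      _ = _ := by ring
  have hK0 : 0 ≤ K₀ := by linarith
  rcases Nat.eq_zero_or_pos i with rfl | hi0
  · have h1 : wd' μ s 0 ≤ 1 := by
      unfold Pool.Agent.W_7d29a1_HZ.wd'
      refine max_le le_rfl ?_
      have : wd μ s 0 = 0 := by
        unfold Pool.Agent.W_7d29a1_HS.wd
        simp
      linarith
    have h2 : (1 : ℝ) ≤ 3 * K₀ ^ 2 * Z * wd' μ s l := by
      have : 1 ≤ K₀ ^ 2 := one_le_pow₀ hK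
      have : 1 ≤ K₀ ^ 2 * Z := by nlinarith
      nlinarith
    linarith
  · obtain ⟨h1, -, -⟩ := hw i (3 * b) hi0 hi
    refine h1.trans ?_
    calc K₀ * wd' μ s (3 * b) ≤ K₀ * (3 * K₀ * Z * wd' μ s l) := mul_le_mul_of_nonneg_left h0 hK0
      _ = _ := by ring

end Sz

section Fr

variable {μ : Measure ℝ} [IsProbabilityMeasure μ] {s : ℝ} {c₀ Θ δ a ι n K₀ : ℝ} {N K : ℕ}

/-- The lanes at one length. -/
theorem tl82_at (R : Reg46 (EE μ s) (wd μ s) c₀ Θ δ a ι n) {a' : ℝ} (ha' : 0 < a') (ha1 : a' < 1) (hK₀ : 1 ≤ K₀)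
    (hw : ∀ m n : ℕ, 1 ≤ m → m ≤ n → wd' μ s m ≤ K₀ * wd' μ s n ∧ K₀⁻¹ * ((n : ℝ) / m) ^ a' * wd' μ s m ≤ wd' μ s n ∧
      wd' μ s n ≤ K₀ * ((n : ℝ) / m) ^ (1 - a') * wd' μ s m) {ε' θ : ℝ} (eN : (N : ℝ) ^ ε' = n ^ ι) (eθ : (N : ℝ) ^ θ = n ^ (δ / 8))
    (hιδ : 16 * ι ≤ δ) (hn : 260 ≤ n ^ ι) (hnK : 3 * K₀ ^ 2 ≤ n ^ ι) {b0 b q : ℕ} (hb : b0 ≤ b) (hb1 : (b : ℝ) ≤ n ^ (2 * ι) * b0)
    (hb2 : n ^ (δ / 4) ≤ b0) (hq : 1 ≤ q) (hqn : (q : ℝ) ≤ 20 * n ^ ι) {e₁ : ℝ} (he : 8 * ι ≤ e₁) :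
    Tl82 μ s ε' θ n e₁ N b0 b q (ll39 (b0 / 2) q) (n ^ (8 * ι)) := by
  have hN0 := R.N0
  have hN1 := R.N1
  have hι := R.ε0
  have mono : ∀ {x y : ℝ}, x ≤ y → n ^ x ≤ n ^ y := fun h => Real.rpow_le_rpow_of_exponent_le hN1.le h
  have n2 : n ^ (2 * ι) = n ^ ι * n ^ ι := by
    rw [← Real.rpow_add hN0]
    congr 1
    ring
  have n4 : n ^ (4 * ι) = n ^ (2 * ι) * n ^ (2 * ι) := by
    rw [← Real.rpow_add hN0]
    congr 1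
    ring
  have n5 : n ^ ι * n ^ (4 * ι) = n ^ (5 * ι) := by
    rw [← Real.rpow_add hN0]
    congr 1
    ring
  have hnι : 0 < n ^ ι := Real.rpow_pos_of_pos hN0 _
  have h13 : 13 * (q : ℝ) ≤ n ^ (2 * ι) := by
    rw [n2]
    calc 13 * (q : ℝ) ≤ 260 * n ^ ι := by linarith
      _ ≤ _ := mul_le_mul_of_nonneg_right hn hnι.le
  have k3 : 24 * (q : ℝ) + 1 ≤ b0 := by
    have q1 : (1 : ℝ) ≤ q := by exact_mod_cast hq
    calc 24 * (q : ℝ) + 1 ≤ 2 * (13 * q) := by linarith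
      _ ≤ n ^ ι * n ^ (2 * ι) := mul_le_mul (by linarith) h13 (by positivity) hnι.le
      _ = n ^ (3 * ι) := by
          rw [← Real.rpow_add hN0]
          congr 1
          ring
      _ ≤ n ^ (δ / 4) := mono (by linarith)
      _ ≤ b0 := hb2
  have k4 : 24 * q + 1 ≤ b0 := by exact_mod_cast k3
  obtain ⟨l1, l2, l3⟩ := ll_spec (b0 := b0 / 2) (k := q) hq (by omega)
  obtain ⟨l, hl⟩ : ∃ l : ℕ, l = ll39 (b0 / 2) q := ⟨_, rfl⟩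
  rw [← hl] at l1 l2 l3 ⊢
  have l4 : (b0 : ℝ) ≤ n ^ (2 * ι) * l := by
    have h1 : b0 ≤ 13 * q * l := by
      have h2 : b0 ≤ 2 * (b0 / 2) + 1 := by omega
      have h3 : 1 ≤ q * l := Nat.mul_pos hq l3
      have h4 : 2 * (b0 / 2) ≤ 12 * (q * l) := by
        have : 2 * (6 * q * l) = 12 * (q * l) := by ring
        omega
      have h5 : 13 * q * l = 13 * (q * l) := by ring
      omega
    have h2 : (b0 : ℝ) ≤ 13 * q * l := by exact_mod_cast h1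
    exact h2.trans (mul_le_mul_of_nonneg_right h13 (Nat.cast_nonneg _))
  have l5 : (b : ℝ) ≤ n ^ (4 * ι) * l := by
    rw [n4, mul_assoc]
    exact hb1.trans (mul_le_mul_of_nonneg_left l4 (by positivity))
  have l6 : l ≤ b := by
    have h1 : l + 1 ≤ 3 * q * (l + 1) := Nat.le_mul_of_pos_left _ (by omega)
    omega
  have l7 : n ^ (δ / 8) ≤ l := by
    have h2 : n ^ (2 * ι) * n ^ (δ / 8) ≤ n ^ (2 * ι) * l := by
      refine le_trans ?_ (hb2.trans l4)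
      rw [← Real.rpow_add hN0]
      exact mono (by linarith)
    exact le_of_mul_le_mul_left h2 (by positivity)
  refine ⟨?_, by rw [eθ]; exact l7, ?_, Real.one_le_rpow hN1.le (by linarith), mono he, fun i hi => ?_⟩
  · have h1 : 6 * q * (l + 1) = 2 * (3 * q * (l + 1)) := by ring
    omega
  · unfold po
    rw [eN]
    refine (price39 R l3 l6 l5).trans ?_
    exact div_le_div_of_nonneg_right (mono he) (R.Epos _).le
  · refine (wl82 ha' ha1 hK₀ hw l3 l6 l5 i hi).trans (mul_le_mul_of_nonneg_right ?_ (zero_le_one.trans (le_max_left _ _)))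
    calc 3 * K₀ ^ 2 * n ^ (4 * ι) ≤ n ^ ι * n ^ (4 * ι) := mul_le_mul_of_nonneg_right hnK (Real.rpow_nonneg hN0.le _)
      _ = n ^ (5 * ι) := n5
      _ ≤ _ := mono (by linarith)

/-- **The lanes at the concrete frame**: `q` pieces in each region, of length `ll39 (b0 / 2) q`. -/
theorem tl82_est {c₁ C : ℝ} {n₀ : ℕ} (h : In μ s c₁ C n₀) (hK : 1 ≤ K) (hδ : 0 < δ) (hR : RegP46 μ s c₀ Θ) {Q : ℝ} (hQ : 8 ≤ Q) :
    Est fun ι β γ m => ∀ p : ℕ, δ * m ≤ p → ∀ q : ℕ, 1 ≤ q → (q : ℝ) ≤ 20 * ((2 ^ m : ℕ) : ℝ) ^ ι →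
      Tl82 μ s (ι / K) (δ / (8 * K)) ((2 ^ m : ℕ) : ℝ) (Q * ι) (L33 K m) (2 ^ (p - ⌈ι * (m : ℝ)⌉₊)) (2 ^ p) q
        (ll39 (2 ^ (p - ⌈ι * (m : ℝ)⌉₊) / 2) q) (((2 ^ m : ℕ) : ℝ) ^ (8 * ι)) := by
  obtain ⟨a', K₀, ha', ha1, hK₀, hw⟩ := Pool.Agent.W_7d29a1_HZ.wd'_pow h
  obtain ⟨a, ha, ha1', hRe⟩ := hR.est hδ one_pos
  have hb : Est fun ι β γ m => ((260 ≤ ((2 ^ m : ℕ) : ℝ) ^ ι ∧ 3 * K₀ ^ 2 ≤ ((2 ^ m : ℕ) : ℝ) ^ ι) ∧ 16 * ι ≤ δ ∧ ∀ p : ℕ, δ * m ≤ p →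
      ((2 ^ p : ℕ) : ℝ) ≤ ((2 ^ m : ℕ) : ℝ) ^ (2 * ι) * ((2 ^ (p - ⌈ι * (m : ℝ)⌉₊) : ℕ) : ℝ) ∧
      ((2 ^ m : ℕ) : ℝ) ^ (δ / 4) ≤ ((2 ^ (p - ⌈ι * (m : ℝ)⌉₊) : ℕ) : ℝ)) := by
    refine ⟨δ / 16, by positivity, fun ι hι hιδ => Sml.of fun β _ => Sml.of fun γ _ => ?_⟩
    filter_upwards [b0_43 hι (show ι ≤ δ / 4 by linarith) hδ, b0_33 hδ (show ι ≤ δ / 4 by linarith), Asm96.pow_ev96 hι 260,
      Asm96.pow_ev96 hι (3 * K₀ ^ 2)] with m h1 h2 h3 h4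
    exact ⟨⟨h3, h4⟩, by linarith, fun p hp => ⟨(h1 p hp).2.2, h2 p hp⟩⟩
  refine (hRe.and hb).mono fun ι β γ hι _ _ => Eventually.of_forall fun m hm => ?_
  obtain ⟨⟨g1, -⟩, ⟨g2, g3⟩, g4, g5⟩ := hm
  intro p hp q hq hqn
  rw [one_mul] at g1
  have eN : ∀ x : ℝ, ((L33 K m : ℕ) : ℝ) ^ (x / K) = ((2 ^ m : ℕ) : ℝ) ^ x := L_pow43 hK m
  have eθ : ((L33 K m : ℕ) : ℝ) ^ (δ / (8 * K)) = ((2 ^ m : ℕ) : ℝ) ^ (δ / 8) := by
    rw [← eN (δ / 8)]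
    congr 1
    field_simp
  exact tl82_at g1 ha' ha1 hK₀ hw (eN ι) eθ g4 g2 g3 (Nat.pow_le_pow_right two_pos (Nat.sub_le _ _)) (g5 p hp).1 (g5 p hp).2 hq hqn
    (mul_le_mul_of_nonneg_right hQ hι.le)

end Fr

end

end Pool.Agent.W_7d29a1_C0.Pt4N82
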