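import Pool.Agent.W_7d29a1_C0.Rq13E

/-!
CURV0 (MP_7d29a1_pr), leaf E2a, the remainder, corner side, part G (helper13): THE LEVELS OF THE REMAINDER IN THE MEAN. `lb13`: the levels `jA7`
times the own event of either side in the mean over the environment, against the four row events of `Rq13D`, up to `D * exp (- N ^ c')`.
`reg13`: the regions of one row.
-/

set_option autoImplicit false
set_option linter.unusedSectionVars false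
set_option linter.unusedVariables false

namespace Pool.Agent.W_7d29a1_C0.Rq13

open MeasureTheory ProbabilityTheory Filter Topology Finset
open Pool.Agent.W_7d29a1_F Pool.Agent.W_7d29a1_X Pool.Agent.W_7d29a1_H
open Pool.Agent.W_7d29a1_HS (In)
open Pool.Agent.W_7d29a1_HZ (wd' EE')
open Pool.Agent.W_7d29a1_C0 Pool.Agent.W_7d29a1_C0.Mod92
open Pool.Agent.W_7d29a1_C0.Swap57 (NI cE2 NI_nonneg SwQ)
open Pool.Agent.W_7d29a1_C0.MicE14 (rh rh_nonneg)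
open Pool.Agent.W_7d29a1_C0.T72 (meas_PP72 abs_PP_bd72 ind72)
open Pool.Agent.W_7d29a1_C0.E2aC81 (iT iT_nonneg iT_le_one T2)
open Pool.Agent.W_7d29a1_C0.GwA50 (GwW)
open Pool.W7d29a1.C0 (gz gm gz_pos gm_nonneg gm_mono gm_const PP PP_mono PP_nonneg PP_add PP_smul)
open Pool.W7d29a1.C0.VT31
open Pool.W7d29a1.C0.R43 (Tau Rp)
open Pool.W7d29a1.C0.O1 (okE Kap en)
open Pool.W7d29a1.C0.Bd73 (nCn nCn_nonneg)
open Pool.W7d29a1.C0.H7 (jA7 jA7_01 meas_jA7)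

noncomputable section

variable {μ : Measure ℝ} {s : ℝ} {N : ℕ}

/-- The regions of the row `j`: pieces of length `l`, `q` of each region; the region 2 is in front of the region 1, both in `[j - b0, j]` or both
in `[j, j + b0]`; the class window `[j - b0 - l, j - b0]`. -/
def reg13 (z q l b0 j : ℕ) (e : ℝ) : Rg13 where
  z := z
  q := q
  g0 := j - b0 - l
  g1 := j - b0
  a1 := j - b0 + 3 * q * (l + 1)
  m1 := l
  a2 := j - b0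
  m2 := l
  b1 := j + 3 * q * (l + 1)
  n1 := l
  b2 := j
  n2 := l
  d := e
  e1 := e
  d3 := e

theorem reg_ok13 {z q l b0 j : ℕ} {e : ℝ} (he : 0 ≤ e) (hb : b0 ≤ j) (hl : 6 * q * (l + 1) ≤ b0) : (reg13 z q l b0 j e).Ok b0 j where
  hd := he
  he := he
  h3 := he
  hg := Or.inl le_rfl
  a1 := Nat.le_add_right _ _
  a1e := by
    show j - b0 + 3 * q * (l + 1) + 3 * q * (l + 1) ≤ j
    have h1 : 6 * q * (l + 1) = 3 * q * (l + 1) + 3 * q * (l + 1) := by ring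
    omega
  a2 := le_rfl
  a2e := by
    show j - b0 + 3 * q * (l + 1) ≤ j
    have h1 : 6 * q * (l + 1) = 3 * q * (l + 1) + 3 * q * (l + 1) := by ring
    omega
  b1 := Nat.le_add_right _ _
  b1e := by
    show j + 3 * q * (l + 1) + 3 * q * (l + 1) ≤ j + b0
    have h1 : 6 * q * (l + 1) = 3 * q * (l + 1) + 3 * q * (l + 1) := by ring
    omega
  b2 := le_rfl
  b2e := by
    show j + 3 * q * (l + 1) ≤ j + b0
    have h1 : 6 * q * (l + 1) = 3 * q * (l + 1) + 3 * q * (l + 1) := by ring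
    omega

section Lb

variable [IsProbabilityMeasure μ]

theorem int_UL13 {y z q g0 g1 t1 l1 t2 l2 m τ l qo m0 m1 cb e : ℕ} {dd e1 d3 M D : ℝ} (hy : y ≤ N) {f : Fam N} (hf : Cls59 N cb e D f) :
    Integrable (fun ω : Env × Finset ℕ => PP (wm μ s N (Pn N y) ω) fun x x' =>
      UL13 μ s N z q dd e1 d3 g0 g1 t1 l1 t2 l2 m τ l qo M y ω x * rh m0 m1 (f y ω) x x') (Pm μ N) := by
  have := ne_Pn hy
  refine int_bdd (M := 2 * D) (meas_PP72 fun x x' => (meas_UL13 y x).mul (((hf.meas y x).sub (hf.meas y x')).abs.mul_const _)) fun ω =>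
    abs_PP_bd72 _ fun x x' => ?_
  have h1 := E2aD81.rh_le81 (m0 := m0) (m1 := m1) (fun S => hf.bdd y ω S) x x'
  have h2 := rh_nonneg (z := m0) (c := m1) (f y ω) x x'
  show |UL13 μ s N z q dd e1 d3 g0 g1 t1 l1 t2 l2 m τ l qo M y ω x * rh m0 m1 (f y ω) x x'| ≤ 2 * D
  rw [abs_of_nonneg (mul_nonneg (UL_nonneg13 y ω x) h2)]
  calc _ ≤ 1 * rh m0 m1 (f y ω) x x' := mul_le_mul_of_nonneg_right (UL_le_one13 y ω x) h2
    _ ≤ 2 * D := by rw [one_mul]; exact h1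

/-- **THE LEVELS TIMES THE OWN EVENT, IN THE MEAN.** -/
theorem lb13 {c₀ C₀ : ℝ} {n₀ : ℕ} (hIn : In μ s c₀ C₀ n₀) {κ κ₁ aM : ℝ} (hκ : 0 < κ) (hκ₁ : 0 < κ₁) (haM : 0 < aM) :
    ∃ β₀ : ℝ, 0 < β₀ ∧ ∀ δk : ℝ, 0 < δk → ∃ δ' c' : ℝ, 0 < δ' ∧ 0 < c' ∧ ∃ N₀ : ℕ,
      ∀ N : ℕ, N₀ ≤ N → ∀ y : ℕ, y ≤ N → |(y : ℝ) - sl μ s * N| ≤ ((N : ℝ) ^ δ' * wd' μ s N) → ∀ [Nonempty (Px (Pn N y))],
      ∀ (B : ℝ) (b0 b j : ℕ), 0 ≤ B → B ≤ (N : ℝ) ^ β₀ → (N : ℝ) ^ κ ≤ b0 → b ≤ j → b0 ≤ b → ∀ r : Rg13, j + b0 ≤ r.z → r.Ok b0 j →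
      (N : ℝ) ^ κ₁ ≤ r.q → (r.q : ℝ) ≤ N → r.d ≤ Real.exp (-(N : ℝ) ^ κ₁) → r.e1 ≤ Real.exp (-(N : ℝ) ^ κ₁) →
      r.d3 ≤ Real.exp (-(N : ℝ) ^ κ₁) → ∀ dl m' : ℝ, (N : ℝ)⁻¹ ≤ dl → m' ≤ (N : ℝ) ^ β₀ → ∀ (m m0 m1 cb e : ℕ) (D : ℝ) (f : Fam N),
      r.z ≤ m → m ≤ m0 → m0 ≤ m1 → m1 ≤ e → m1 ≤ N → Cls59 N cb e D f → ∀ V : Env × Finset ℕ → Px (Pn N y) → ℝ, (∀ ω x, 0 ≤ V ω x) →
      (∀ ω x, V ω x ≤ 1) → ∀ M : ℝ, 8 ≤ M → (N : ℝ) ^ aM ≤ M → ∀ qo τL τR lo : ℕ, 10 * M ≤ qo → (qo : ℝ) ≤ 20 * M →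
      j - b ≤ τL → τL + 3 * qo * (lo + 1) ≤ j - b0 → j + b0 ≤ τR → τR + 3 * qo * (lo + 1) ≤ j + b →
      ∫ ω, PP (wm μ s N (Pn N y) ω) (fun x x' => jA7 μ s N (Pn N y) δk B b0 j r.z dl m' (V ω) ω.1 (sg ω.2 j) x *
        (iT (wm μ s N (Pn N y) ω) (pJ 0 m) (j - b) (j - b0) (j + b0) (j + b) M x * rh m0 m1 (f y ω) x x')) ∂(Pm μ N) ≤
        ∫ ω, PP (wm μ s N (Pn N y) ω) (fun x x' => UA13 μ s N r m τL lo qo M y ω x * rh m0 m1 (f y ω) x x') ∂(Pm μ N) +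
        ∫ ω, PP (wm μ s N (Pn N y) ω) (fun x x' => UB13 μ s N r m τL lo qo M y ω x * rh m0 m1 (f y ω) x x') ∂(Pm μ N) +
        (∫ ω, PP (wm μ s N (Pn N y) ω) (fun x x' => UA13 μ s N r m τR lo qo M y ω x * rh m0 m1 (f y ω) x x') ∂(Pm μ N) +
        ∫ ω, PP (wm μ s N (Pn N y) ω) (fun x x' => UB13 μ s N r m τR lo qo M y ω x * rh m0 m1 (f y ω) x x') ∂(Pm μ N)) +
        D * Real.exp (-(N : ℝ) ^ c') := by
  obtain ⟨a₁, ha₁, hA⟩ := TauE34.nCn34 hIn hκ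
  obtain ⟨c1, hc1, hGw⟩ := Pool.Agent.W_7d29a1_C0.GwA50.gw_ord73 hIn (ε := κ₁ / 2) hκ (by positivity)
  obtain ⟨β₀, hβ₀⟩ : ∃ β₀ : ℝ, β₀ = min (min 1 (κ₁ / 2)) (min (c1 / 2) (a₁ / 2)) := ⟨_, rfl⟩
  refine ⟨β₀, by rw [hβ₀]; exact lt_min (lt_min one_pos (by positivity)) (lt_min (by positivity) (by positivity)), fun δk hδk => ?_⟩
  obtain ⟨δ₁, hδ₁, -, N₂, hN₂⟩ := hGw δk hδk
  obtain ⟨δ₂, c2, hδ₂, hc2, N₃, hN₃⟩ := hA δ₁ hδ₁
  obtain ⟨c', hc', N₄, hN₄⟩ := ev13 hκ₁ hc1 ha₁ haM hc2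
  refine ⟨δ₂, c', hδ₂, hc', max N₂ (max N₃ (max N₄ 1)), fun N hN y hy hyc hne B b0 b j hB hBN hb0 hbj hbb r hz ho hq hqN hd he1 hd3 dl m' hdl hm'
    m m0 m1 cb e D f hzm hm0 hm hme hmN hf V hV0 hV1 M hM8 hM qo τL τR lo hqo hqo' hL1 hL2 hR1 hR2 => ?_⟩
  have k2 : N₂ ≤ N := (le_max_left _ _).trans hN
  have k3 : N₃ ≤ N := (le_max_left _ _).trans ((le_max_right _ _).trans hN)
  have k4 : N₄ ≤ N := (le_max_left _ _).trans ((le_max_right _ _).trans ((le_max_right _ _).trans hN))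
  have hD0 : 0 ≤ D := (abs_nonneg _).trans (hf.bdd y (fun _ => 0, ∅) Classical.ofNonempty)
  rw [hβ₀] at hBN hm'
  have hnum := hN₄ N k4 B M m' dl r.d r.e1 r.d3 r.q hB hBN hm' hM hdl hq hqN ho.hd ho.he ho.h3 hd he1 hd3
  have hw1 : (N : ℝ) ^ κ ≤ ((j - (j - b0) : ℕ) : ℝ) := by
    have e1 : j - (j - b0) = b0 := by omega
    rw [e1]
    exact hb0
  have hw2 : (N : ℝ) ^ κ ≤ ((j + b0 - (j - b0) : ℕ) : ℝ) := by
    refine hb0.trans ?_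
    exact_mod_cast (by omega : b0 ≤ j + b0 - (j - b0))
  have hN0 : (0 : ℝ) < N := by
    have : 1 ≤ N := (le_max_right _ _).trans ((le_max_right _ _).trans ((le_max_right _ _).trans hN))
    exact_mod_cast this
  have hdl0 : 0 < dl := lt_of_lt_of_le (inv_pos.2 hN0) hdl
  have iA := fun τ => int_UL13 (μ := μ) (s := s) (N := N) (y := y) (z := r.z) (q := r.q) (g0 := r.g0) (g1 := r.g1) (t1 := r.a1) (l1 := r.m1)
    (t2 := r.a2) (l2 := r.m2) (m := m) (τ := τ) (l := lo) (qo := qo) (m0 := m0) (m1 := m1) (dd := r.d) (e1 := r.e1) (d3 := r.d3) (M := M) hy hf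
  have iB := fun τ => int_UL13 (μ := μ) (s := s) (N := N) (y := y) (z := r.z) (q := r.q) (g0 := r.g0) (g1 := r.g1) (t1 := r.b1) (l1 := r.n1)
    (t2 := r.b2) (l2 := r.n2) (m := m) (τ := τ) (l := lo) (qo := qo) (m0 := m0) (m1 := m1) (dd := r.d) (e1 := r.e1) (d3 := r.d3) (M := M) hy hf
  have pos : ∀ (U : Px (Pn N y) → ℝ) (ω : Env × Finset ℕ), (∀ x, 0 ≤ U x) →
      0 ≤ PP (wm μ s N (Pn N y) ω) (fun x x' => U x * rh m0 m1 (f y ω) x x') := fun U ω hU =>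
    PP_nonneg _ fun x x' => mul_nonneg (hU x) (rh_nonneg _ _ _)
  have key := E2aD81.int_off81 (μ := μ) (N := N)
    (Φ := fun ω => PP (wm μ s N (Pn N y) ω) (fun x x' => jA7 μ s N (Pn N y) δk B b0 j r.z dl m' (V ω) ω.1 (sg ω.2 j) x *
        (iT (wm μ s N (Pn N y) ω) (pJ 0 m) (j - b) (j - b0) (j + b0) (j + b) M x * rh m0 m1 (f y ω) x x')))
    (G := fun ω => PP (wm μ s N (Pn N y) ω) (fun x x' => UA13 μ s N r m τL lo qo M y ω x * rh m0 m1 (f y ω) x x') +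
        PP (wm μ s N (Pn N y) ω) (fun x x' => UB13 μ s N r m τL lo qo M y ω x * rh m0 m1 (f y ω) x x') +
        (PP (wm μ s N (Pn N y) ω) (fun x x' => UA13 μ s N r m τR lo qo M y ω x * rh m0 m1 (f y ω) x x') +
        PP (wm μ s N (Pn N y) ω) (fun x x' => UB13 μ s N r m τR lo qo M y ω x * rh m0 m1 (f y ω) x x')))
    (K0 := 2 * D * (Real.exp m' * Kap 0 (Real.exp ((N : ℝ) ^ (κ₁ / 2))) dl r.q r.d r.e1 r.d3 +
          Real.exp m' * (6 / dl) * (Real.exp (-(N : ℝ) ^ c1) + B * Real.exp (-(N : ℝ) ^ a₁)) + 2 * Real.exp (-M))) (T := 2 * D)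
    (P := Real.exp (-(N : ℝ) ^ c1) + Real.exp (-(N : ℝ) ^ c2))
    (bad := {η | ¬ GwW μ s N κ δk δ₁ (κ₁ / 2) c1 η} ∪ {η | Real.exp (-(N : ℝ) ^ a₁) < gm (lw μ s η N (Pn N y)) (nCn μ s δ₁ (j - b0) (j + b0))})
    (fun ω => PP_nonneg _ fun x x' => mul_nonneg jA7_01.1 (mul_nonneg (iT_nonneg _ _ _ _ _ _ _ _) (rh_nonneg _ _ _)))
    (fun ω => add_nonneg (add_nonneg (pos _ ω fun x => UL_nonneg13 y ω x) (pos _ ω fun x => UL_nonneg13 y ω x))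
      (add_nonneg (pos _ ω fun x => UL_nonneg13 y ω x) (pos _ ω fun x => UL_nonneg13 y ω x)))
    (((iA τL).add (iB τL)).add ((iA τR).add (iB τR)))
    (by
      have h1 := ho.hd
      have h2 := ho.he
      have h3 := ho.h3
      unfold Kap
      positivity) (by positivity) (by positivity)
    (fun ω => (PP_mono _ (R := fun _ _ => 2 * D) fun x x' => ?_).trans_eq (Pool.W7d29a1.C0.Row39.PP_const _ _))
    ((measure_union_le _ _).trans (by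
      rw [ENNReal.ofReal_add (Real.exp_pos _).le (Real.exp_pos _).le]
      exact add_le_add (hN₂ N k2) (hN₃ N k3 y hy hyc (j - b0) (j + b0) hw2 (by omega)))) fun ω hω => ?_
  · refine key.trans ?_
    have e1 : ∫ ω, (PP (wm μ s N (Pn N y) ω) (fun x x' => UA13 μ s N r m τL lo qo M y ω x * rh m0 m1 (f y ω) x x') +
        PP (wm μ s N (Pn N y) ω) (fun x x' => UB13 μ s N r m τL lo qo M y ω x * rh m0 m1 (f y ω) x x') +
        (PP (wm μ s N (Pn N y) ω) (fun x x' => UA13 μ s N r m τR lo qo M y ω x * rh m0 m1 (f y ω) x x') +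
        PP (wm μ s N (Pn N y) ω) (fun x x' => UB13 μ s N r m τR lo qo M y ω x * rh m0 m1 (f y ω) x x'))) ∂(Pm μ N) =
        ∫ ω, PP (wm μ s N (Pn N y) ω) (fun x x' => UA13 μ s N r m τL lo qo M y ω x * rh m0 m1 (f y ω) x x') ∂(Pm μ N) +
        ∫ ω, PP (wm μ s N (Pn N y) ω) (fun x x' => UB13 μ s N r m τL lo qo M y ω x * rh m0 m1 (f y ω) x x') ∂(Pm μ N) +
        (∫ ω, PP (wm μ s N (Pn N y) ω) (fun x x' => UA13 μ s N r m τR lo qo M y ω x * rh m0 m1 (f y ω) x x') ∂(Pm μ N) +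
        ∫ ω, PP (wm μ s N (Pn N y) ω) (fun x x' => UB13 μ s N r m τR lo qo M y ω x * rh m0 m1 (f y ω) x x') ∂(Pm μ N)) := by
      have a1 := integral_add ((iA τL).add (iB τL)) ((iA τR).add (iB τR))
      have a2 := integral_add (iA τL) (iB τL)
      have a3 := integral_add (iA τR) (iB τR)
      simp only [Pi.add_apply] at a1 a2 a3
      exact a1.trans (congrArg₂ (· + ·) a2 a3)
    rw [e1]
    have h5 := mul_le_mul_of_nonneg_left hnum hD0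
    linarith
  · have h1 := E2aD81.rh_le81 (m0 := m0) (m1 := m1) (fun S => hf.bdd y ω S) x x'
    have h2 := rh_nonneg (z := m0) (c := m1) (f y ω) x x'
    have h3 : iT (wm μ s N (Pn N y) ω) (pJ 0 m) (j - b) (j - b0) (j + b0) (j + b) M x * rh m0 m1 (f y ω) x x' ≤ 2 * D :=
      (mul_le_of_le_one_left h2 (iT_le_one _ _ _ _ _ _ _ _)).trans h1
    exact (mul_le_of_le_one_left (mul_nonneg (iT_nonneg _ _ _ _ _ _ _ _) h2) jA7_01.2).trans h3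
  · rw [Set.mem_union, not_or] at hω
    have g1 : GwW μ s N κ δk δ₁ (κ₁ / 2) c1 ω.1 := not_not.1 hω.1
    have g2 : gm (lw μ s ω.1 N (Pn N y)) (nCn μ s δ₁ (j - b0) (j + b0)) ≤ Real.exp (-(N : ℝ) ^ a₁) := not_lt.1 hω.2
    exact lb2_13 g1 (by omega) hw1 hb0 hB hz ho hdl0 (hV0 ω) (hV1 ω) hzm hm0 hm (Pool.Agent.W_7d29a1_C0.E1M82.rk_cls hf hme y ω)
      (fun S => hf.bdd y ω S) g2 hM8 hqo hqo' hL1 hL2 hR1 hR2

end Lb

end

end Pool.Agent.W_7d29a1_C0.Rq13
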