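import Pool.Agent.W_7d29a1_C0.E2J45
import Pool.Agent.W_7d29a1_C0.E2CT45
import Pool.Agent.W_7d29a1_C0.Rq13G

/-!
MP_7d29a1_pr, [CURV0] / [C0], leaf E2, PART L (helper27): **THE THREE LEVELS OF PART L AS ROWS, IN THE MEAN** (over `jtT45` of helper45, the
numbers of helper13). `ptJ27`: the functional `cJT` of one end is at most the pair functionals of the families `LJA`, `LJB`, up to
`D exp (- N ^ c')`; `ptJ27_rw`: the same with `rw96 (one96 ..)`; `ptJ27_av`: in the mean over the ends; `ptJ27_mR`: the mean over a slab of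
rows `m'`. The number of pieces `q` of the margins is free of the level `M` of the own event.
-/

set_option autoImplicit false
set_option linter.unusedSectionVars false
set_option linter.unusedVariables false

namespace Pool.Agent.W_7d29a1_C0.Pt4J27

open MeasureTheory ProbabilityTheory Filter Topology Finset
open Pool.Agent.W_7d29a1_F Pool.Agent.W_7d29a1_X Pool.Agent.W_7d29a1_H
open Pool.Agent.W_7d29a1_HS (In)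
open Pool.Agent.W_7d29a1_HZ (wd' EE')
open Pool.Agent.W_7d29a1_C0 Pool.Agent.W_7d29a1_C0.Mod92
open Pool.Agent.W_7d29a1_C0.Swap57 (NI cE2 NI_nonneg SwQ)
open Pool.Agent.W_7d29a1_C0.MicE14 (rh rh_nonneg)
open Pool.Agent.W_7d29a1_C0.T72 (meas_PP72 abs_PP_bd72 ind72 ind72_nonneg ind72_le_one)
open Pool.Agent.W_7d29a1_C0.GwA50 (GwW)
open Pool.Agent.W_7d29a1_C0.E2T96 (rw96 one96 rw_one96)
open Pool.Agent.W_7d29a1_C0.E2C96 (evF evF_nonneg evF_le_one mR)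
open Pool.Agent.W_7d29a1_C0.E2J45 (LJA LJB meas_LJA meas_LJB jtT45 rh_leJ45)
open Pool.Agent.W_7d29a1_C0.E2CT45 (cJT)
open Pool.Agent.W_7d29a1_C0.Rq13 (Rg13 ev13)
open Pool.W7d29a1.C0 (gz gm gz_pos gm_nonneg gm_mono gm_const PP PP_mono PP_nonneg PP_add PP_smul)
open Pool.W7d29a1.C0.VT31
open Pool.W7d29a1.C0.R43 (TauM Rp)
open Pool.W7d29a1.C0.C45 (cP45 jT45)
open Pool.W7d29a1.C0.O1 (okE Kap en)
open Pool.W7d29a1.C0.Bd73 (nCn nCn_nonneg)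

noncomputable section

variable {μ : Measure ℝ} {s : ℝ} {N : ℕ} [IsProbabilityMeasure μ]

theorem int_fam27 {y zf cc cb e : ℕ} {D : ℝ} (hy : y ≤ N) {f : Fam N} (hf : Cls59 N cb e D f) {U : Fam N} (h0 : ∀ y ω S, 0 ≤ U y ω S)
    (h1 : ∀ y ω S, U y ω S ≤ 1) (hm : ∀ y S, Measurable fun ω => U y ω S) :
    Integrable (fun ω : Env × Finset ℕ => PP (wm μ s N (Pn N y) ω) fun x x' => U y ω x * rh zf cc (f y ω) x x') (Pm μ N) := by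
  have := ne_Pn hy
  refine int_bdd (M := 2 * D) (meas_PP72 fun x x' => (hm y x).mul (((hf.meas y x).sub (hf.meas y x')).abs.mul_const _)) fun ω =>
    abs_PP_bd72 _ fun x x' => ?_
  have h1' := rh_leJ45 (zf := zf) (cc := cc) (fun S => hf.bdd y ω S) x x'
  have h2 := rh_nonneg (z := zf) (c := cc) (f y ω) x x'
  show |U y ω x * rh zf cc (f y ω) x x'| ≤ 2 * D
  rw [abs_of_nonneg (mul_nonneg (h0 y ω x) h2)]
  calc _ ≤ 1 * rh zf cc (f y ω) x x' := mul_le_mul_of_nonneg_right (h1 y ω x) h2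
    _ ≤ 2 * D := by rw [one_mul]; exact h1'

/-- **THE THREE LEVELS OF PART L, ONE END.** -/
theorem ptJ27 {c₀ C₀ : ℝ} {n₀ : ℕ} (hIn : In μ s c₀ C₀ n₀) {κ κ₁ : ℝ} (hκ : 0 < κ) (hκ₁ : 0 < κ₁) :
    ∃ β₀ : ℝ, 0 < β₀ ∧ ∀ aM : ℝ, 0 < aM → ∀ γ : ℝ, 0 < γ → ∃ δ' c' : ℝ, 0 < δ' ∧ 0 < c' ∧ ∃ N₀ : ℕ,
      ∀ N : ℕ, N₀ ≤ N → ∀ y : ℕ, y ≤ N → |(y : ℝ) - sl μ s * N| ≤ ((N : ℝ) ^ δ' * wd' μ s N) → ∀ [Nonempty (Px (Pn N y))],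
      ∀ (B : ℝ) (b j : ℕ), 0 ≤ B → B ≤ (N : ℝ) ^ β₀ → (N : ℝ) ^ κ ≤ b → b ≤ j → ∀ r : Rg13, j + b ≤ r.z → r.Ok b j →
      (N : ℝ) ^ κ₁ ≤ r.q → (r.q : ℝ) ≤ N → r.d ≤ Real.exp (-(N : ℝ) ^ κ₁) → r.e1 ≤ Real.exp (-(N : ℝ) ^ κ₁) →
      r.d3 ≤ Real.exp (-(N : ℝ) ^ κ₁) → ∀ δ M : ℝ, (N : ℝ)⁻¹ ≤ δ / 4 → 8 ≤ M → (N : ℝ) ^ aM ≤ M → 5 * M ≤ (N : ℝ) ^ β₀ →
      ∀ k c1 z wl lo al m' zf cc cb e : ℕ, 10 * M ≤ k → (k : ℝ) ≤ 20 * M → c1 ≤ wl → wl + 3 * k * (lo + 1) ≤ al → al ≤ z → z ≤ m' →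
      r.z ≤ m' → m' ≤ zf → zf ≤ cc → cc ≤ e → cc ≤ N → ∀ (D : ℝ) (f : Fam N), Cls59 N cb e D f →
      cJT μ s N γ B b j r.z δ M c1 z wl al m' zf cc f y ≤
        ∫ ω, PP (wm μ s N (Pn N y) ω) (fun x x' => LJA μ s N r m' wl lo k M y ω x * rh zf cc (f y ω) x x') ∂(Pm μ N) +
        ∫ ω, PP (wm μ s N (Pn N y) ω) (fun x x' => LJB μ s N r m' wl lo k M y ω x * rh zf cc (f y ω) x x') ∂(Pm μ N) +
        D * Real.exp (-(N : ℝ) ^ c') := by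
  obtain ⟨a₁, ha₁, hA⟩ := TauE34.nCn34 hIn hκ
  obtain ⟨c1, hc1, hGw⟩ := Pool.Agent.W_7d29a1_C0.GwA50.gw_ord73 hIn (ε := κ₁ / 2) hκ (by positivity)
  obtain ⟨β₀, hβ₀⟩ : ∃ β₀ : ℝ, β₀ = min (min 1 (κ₁ / 2)) (min (c1 / 2) (a₁ / 2)) := ⟨_, rfl⟩
  refine ⟨β₀, by rw [hβ₀]; exact lt_min (lt_min one_pos (by positivity)) (lt_min (by positivity) (by positivity)), fun aM haM γ hγ => ?_⟩
  obtain ⟨δ₁, hδ₁, -, N₂, hN₂⟩ := hGw γ hγ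
  obtain ⟨δ₂, c2, hδ₂, hc2, N₃, hN₃⟩ := hA δ₁ hδ₁
  obtain ⟨c', hc', N₄, hN₄⟩ := ev13 hκ₁ hc1 ha₁ haM hc2
  refine ⟨δ₂, c', hδ₂, hc', max N₂ (max N₃ (max N₄ 1)), fun N hN y hy hyc hne B b j hB hBN hb hbj r hz ho hq hqN hd he1 hd3 δ M hdl hM8 hM
    hMN k cc1 z wl lo al m' zf cc cb e hk hk' hwl hL hal hzz hzm hm0 hm hme hmN D f hf => ?_⟩
  have k2 : N₂ ≤ N := (le_max_left _ _).trans hN
  have k3 : N₃ ≤ N := (le_max_left _ _).trans ((le_max_right _ _).trans hN)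
  have k4 : N₄ ≤ N := (le_max_left _ _).trans ((le_max_right _ _).trans ((le_max_right _ _).trans hN))
  have hD0 : 0 ≤ D := (abs_nonneg _).trans (hf.bdd y (fun _ => 0, ∅) Classical.ofNonempty)
  rw [hβ₀] at hBN hMN
  have hnum := hN₄ N k4 B M (5 * M) (δ / 4) r.d r.e1 r.d3 r.q hB hBN hMN hM hdl hq hqN ho.hd ho.he ho.h3 hd he1 hd3
  have hw1 : (N : ℝ) ^ κ ≤ ((j - (j - b) : ℕ) : ℝ) := by
    have e1 : j - (j - b) = b := by omega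
    rw [e1]
    exact hb
  have hw2 : (N : ℝ) ^ κ ≤ ((j + b - (j - b) : ℕ) : ℝ) := by
    refine hb.trans ?_
    exact_mod_cast (by omega : b ≤ j + b - (j - b))
  have hN0 : (0 : ℝ) < N := by
    have : 1 ≤ N := (le_max_right _ _).trans ((le_max_right _ _).trans ((le_max_right _ _).trans hN))
    exact_mod_cast this
  have hdl0 : 0 < δ / 4 := lt_of_lt_of_le (inv_pos.2 hN0) hdl
  have iA := int_fam27 (μ := μ) (s := s) (zf := zf) (cc := cc) hy hf (U := LJA μ s N r m' wl lo k M) (fun y ω S => evF_nonneg _ _ _ _)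
    (fun y ω S => evF_le_one _ _ _ _) (fun y S => meas_LJA r m' wl lo k M y S)
  have iB := int_fam27 (μ := μ) (s := s) (zf := zf) (cc := cc) hy hf (U := LJB μ s N r m' wl lo k M) (fun y ω S => evF_nonneg _ _ _ _)
    (fun y ω S => evF_le_one _ _ _ _) (fun y S => meas_LJB r m' wl lo k M y S)
  have pos : ∀ (U : Px (Pn N y) → ℝ) (ω : Env × Finset ℕ), (∀ x, 0 ≤ U x) →
      0 ≤ PP (wm μ s N (Pn N y) ω) (fun x x' => U x * rh zf cc (f y ω) x x') := fun U ω hU =>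
    PP_nonneg _ fun x x' => mul_nonneg (hU x) (rh_nonneg _ _ _)
  have key := E2aD81.int_off81 (μ := μ) (N := N)
    (Φ := fun ω => PP (wm μ s N (Pn N y) ω) (fun x x' => ind72 (fun ω S => TauM (wm μ s N (Pn N y) ω) (pJ 0 m') (pJ cc1 z) wl al M S ∧
      jT45 μ s N (Pn N y) γ B b j r.z (δ / 4) (5 * M) (fun _ _ => True) ω S) ω x * rh zf cc (f y ω) x x'))
    (G := fun ω => PP (wm μ s N (Pn N y) ω) (fun x x' => LJA μ s N r m' wl lo k M y ω x * rh zf cc (f y ω) x x') +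
        PP (wm μ s N (Pn N y) ω) (fun x x' => LJB μ s N r m' wl lo k M y ω x * rh zf cc (f y ω) x x'))
    (K0 := 2 * D * (Real.exp (5 * M) * Kap 0 (Real.exp ((N : ℝ) ^ (κ₁ / 2))) (δ / 4) r.q r.d r.e1 r.d3 +
          Real.exp (5 * M) * (6 / (δ / 4)) * (Real.exp (-(N : ℝ) ^ c1) + B * Real.exp (-(N : ℝ) ^ a₁)) + Real.exp (-M))) (T := 2 * D)
    (P := Real.exp (-(N : ℝ) ^ c1) + Real.exp (-(N : ℝ) ^ c2))
    (bad := {η | ¬ GwW μ s N κ γ δ₁ (κ₁ / 2) c1 η} ∪ {η | Real.exp (-(N : ℝ) ^ a₁) < gm (lw μ s η N (Pn N y)) (nCn μ s δ₁ (j - b) (j + b))})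
    (fun ω => pos _ ω fun x => ind72_nonneg _ _ _)
    (fun ω => add_nonneg (pos _ ω fun x => evF_nonneg _ _ _ _) (pos _ ω fun x => evF_nonneg _ _ _ _))
    (iA.add iB)
    (by
      have h1 := ho.hd
      have h2 := ho.he
      have h3 := ho.h3
      unfold Kap
      positivity) (by positivity) (by positivity)
    (fun ω => (PP_mono _ (R := fun _ _ => 2 * D) fun x x' => ?_).trans_eq (Pool.W7d29a1.C0.Row39.PP_const _ _))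
    ((measure_union_le _ _).trans (by
      rw [ENNReal.ofReal_add (Real.exp_pos _).le (Real.exp_pos _).le]
      exact add_le_add (hN₂ N k2) (hN₃ N k3 y hy hyc (j - b) (j + b) hw2 (by omega)))) fun ω hω => ?_
  · refine key.trans ?_
    rw [integral_add iA iB]
    have h5 := mul_le_mul_of_nonneg_left hnum hD0
    have h6 := mul_nonneg hD0 (Real.exp_pos (-M)).le
    linarith
  · exact (mul_le_of_le_one_left (rh_nonneg _ _ _) (ind72_le_one _ _ _)).trans (rh_leJ45 (fun S => hf.bdd y ω S) x x')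
  · rw [Set.mem_union, not_or] at hω
    have g1 : GwW μ s N κ γ δ₁ (κ₁ / 2) c1 ω.1 := not_not.1 hω.1
    have g2 : gm (lw μ s ω.1 N (Pn N y)) (nCn μ s δ₁ (j - b) (j + b)) ≤ Real.exp (-(N : ℝ) ^ a₁) := not_lt.1 hω.2
    exact jtT45 g1 (by omega) hw1 hb hB hz ho hdl0 hzm hm0 hm (Pool.Agent.W_7d29a1_C0.E1M82.rk_cls hf hme y ω)
      (fun S => hf.bdd y ω S) g2 hM8 hk hk' hwl hL hal hzz

/-! ### The mean over the ends -/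

theorem le_rw27 {y zf zt cc cb e : ℕ} {D : ℝ} (hy : y ≤ N) (hz : zf ≤ zt) {f : Fam N} (hf : Cls59 N cb e D f) {U : Fam N}
    (h0 : ∀ y ω S, 0 ≤ U y ω S) (h1 : ∀ y ω S, U y ω S ≤ 1) (hm : ∀ y S, Measurable fun ω => U y ω S) :
    ∫ ω, PP (wm μ s N (Pn N y) ω) (fun x x' => U y ω x * rh zf cc (f y ω) x x') ∂(Pm μ N) ≤ rw96 μ s N (one96 N U zt cc) f y :=
  rw_one96 h0 h1 hm hf.meas hf.bdd hy hz

/-- **THE THREE LEVELS OF PART L AS ROWS, in the mean over the ends and over a slab of rows `m'`.** -/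
theorem ptJ27_mR {c₀ C₀ : ℝ} {n₀ : ℕ} (hIn : In μ s c₀ C₀ n₀) {κ κ₁ : ℝ} (hκ : 0 < κ) (hκ₁ : 0 < κ₁) :
    ∃ β₀ : ℝ, 0 < β₀ ∧ ∀ aM : ℝ, 0 < aM → ∀ γ : ℝ, 0 < γ → ∃ δ' c' : ℝ, 0 < δ' ∧ 0 < c' ∧ ∃ N₀ : ℕ,
      ∀ N : ℕ, N₀ ≤ N → ∀ ys : Finset ℕ, (∀ y ∈ ys, y ≤ N ∧ |(y : ℝ) - sl μ s * N| ≤ ((N : ℝ) ^ δ' * wd' μ s N)) → ys.Nonempty →
      ∀ (B : ℝ) (b j : ℕ), 0 ≤ B → B ≤ (N : ℝ) ^ β₀ → (N : ℝ) ^ κ ≤ b → b ≤ j → ∀ r : Rg13, j + b ≤ r.z → r.Ok b j →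
      (N : ℝ) ^ κ₁ ≤ r.q → (r.q : ℝ) ≤ N → r.d ≤ Real.exp (-(N : ℝ) ^ κ₁) → r.e1 ≤ Real.exp (-(N : ℝ) ^ κ₁) →
      r.d3 ≤ Real.exp (-(N : ℝ) ^ κ₁) → ∀ δ M : ℝ, (N : ℝ)⁻¹ ≤ δ / 4 → 8 ≤ M → (N : ℝ) ^ aM ≤ M → 5 * M ≤ (N : ℝ) ^ β₀ →
      ∀ k c1 z wl lo al a' n' zf zt cc cb e : ℕ, 10 * M ≤ k → (k : ℝ) ≤ 20 * M → c1 ≤ wl → wl + 3 * k * (lo + 1) ≤ al → al ≤ z →
      z ≤ a' → r.z ≤ a' → 0 < n' → a' + n' ≤ zf + 1 → zf ≤ zt → zf ≤ cc → cc ≤ e → cc ≤ N → ∀ (D : ℝ) (f : Fam N), Cls59 N cb e D f →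
      avy ys (fun y => (n' : ℝ)⁻¹ * ∑ v ∈ range n', cJT μ s N γ B b j r.z δ M c1 z wl al (a' + v) zf cc f y) ≤
        avy ys (mR μ s N n' (fun v => one96 N (LJA μ s N r (a' + v) wl lo k M) zt cc) f) +
        avy ys (mR μ s N n' (fun v => one96 N (LJB μ s N r (a' + v) wl lo k M) zt cc) f) + D * Real.exp (-(N : ℝ) ^ c') := by
  obtain ⟨β₀, hβ₀, H⟩ := ptJ27 hIn hκ hκ₁
  refine ⟨β₀, hβ₀, fun aM haM γ hγ => ?_⟩
  obtain ⟨δ', c', hδ', hc', N₀, H1⟩ := H aM haM γ hγ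
  refine ⟨δ', c', hδ', hc', N₀, fun N hN ys hys hne B b j hB hBN hb hbj r hz ho hq hqN hd he1 hd3 δ M hdl hM8 hM hMN k c1 z wl lo al a' n' zf zt
    cc cb e hk hk' hwl hL hal hzz hzm hn hm0 hzt hm hme hmN D f hf => ?_⟩
  have hn0 : (0 : ℝ) < n' := by exact_mod_cast hn
  rw [← avy_const hne (D * Real.exp (-(N : ℝ) ^ c')), ← avy_add, ← avy_add]
  refine avy_mono fun y hy => ?_
  have := ne_Pn (hys y hy).1
  have h1 : ∀ v ∈ range n', cJT μ s N γ B b j r.z δ M c1 z wl al (a' + v) zf cc f y ≤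
      rw96 μ s N (one96 N (LJA μ s N r (a' + v) wl lo k M) zt cc) f y +
        rw96 μ s N (one96 N (LJB μ s N r (a' + v) wl lo k M) zt cc) f y + D * Real.exp (-(N : ℝ) ^ c') := fun v hv => by
    have hv' := mem_range.1 hv
    have h2 := H1 N hN y (hys y hy).1 (hys y hy).2 B b j hB hBN hb hbj r hz ho hq hqN hd he1 hd3 δ M hdl hM8 hM hMN k c1 z wl lo al (a' + v) zf
      cc cb e hk hk' hwl hL hal (by omega) (by omega) (by omega) hm hme hmN D f hf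
    have h3 := le_rw27 (μ := μ) (s := s) (y := y) (cc := cc) (hys y hy).1 hzt hf (U := LJA μ s N r (a' + v) wl lo k M)
      (fun y ω S => evF_nonneg _ _ _ _) (fun y ω S => evF_le_one _ _ _ _) (fun y S => meas_LJA r (a' + v) wl lo k M y S)
    have h4 := le_rw27 (μ := μ) (s := s) (y := y) (cc := cc) (hys y hy).1 hzt hf (U := LJB μ s N r (a' + v) wl lo k M)
      (fun y ω S => evF_nonneg _ _ _ _) (fun y ω S => evF_le_one _ _ _ _) (fun y S => meas_LJB r (a' + v) wl lo k M y S)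
    linarith
  have h5 := mul_le_mul_of_nonneg_left (sum_le_sum h1) (inv_nonneg.2 hn0.le)
  refine h5.trans (le_of_eq ?_)
  unfold mR
  rw [sum_add_distrib, sum_add_distrib, sum_const, card_range, nsmul_eq_mul, mul_add, mul_add, ← mul_assoc ((n' : ℝ)⁻¹) (n' : ℝ),
    inv_mul_cancel₀ hn0.ne', one_mul]

/-- **The same for one row `m'`.** -/
theorem ptJ27_rw {c₀ C₀ : ℝ} {n₀ : ℕ} (hIn : In μ s c₀ C₀ n₀) {κ κ₁ : ℝ} (hκ : 0 < κ) (hκ₁ : 0 < κ₁) :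
    ∃ β₀ : ℝ, 0 < β₀ ∧ ∀ aM : ℝ, 0 < aM → ∀ γ : ℝ, 0 < γ → ∃ δ' c' : ℝ, 0 < δ' ∧ 0 < c' ∧ ∃ N₀ : ℕ,
      ∀ N : ℕ, N₀ ≤ N → ∀ ys : Finset ℕ, (∀ y ∈ ys, y ≤ N ∧ |(y : ℝ) - sl μ s * N| ≤ ((N : ℝ) ^ δ' * wd' μ s N)) → ys.Nonempty →
      ∀ (B : ℝ) (b j : ℕ), 0 ≤ B → B ≤ (N : ℝ) ^ β₀ → (N : ℝ) ^ κ ≤ b → b ≤ j → ∀ r : Rg13, j + b ≤ r.z → r.Ok b j →
      (N : ℝ) ^ κ₁ ≤ r.q → (r.q : ℝ) ≤ N → r.d ≤ Real.exp (-(N : ℝ) ^ κ₁) → r.e1 ≤ Real.exp (-(N : ℝ) ^ κ₁) →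
      r.d3 ≤ Real.exp (-(N : ℝ) ^ κ₁) → ∀ δ M : ℝ, (N : ℝ)⁻¹ ≤ δ / 4 → 8 ≤ M → (N : ℝ) ^ aM ≤ M → 5 * M ≤ (N : ℝ) ^ β₀ →
      ∀ k c1 z wl lo al m' zf zt cc cb e : ℕ, 10 * M ≤ k → (k : ℝ) ≤ 20 * M → c1 ≤ wl → wl + 3 * k * (lo + 1) ≤ al → al ≤ z →
      z ≤ m' → r.z ≤ m' → m' ≤ zf → zf ≤ zt → zf ≤ cc → cc ≤ e → cc ≤ N → ∀ (D : ℝ) (f : Fam N), Cls59 N cb e D f →
      avy ys (cJT μ s N γ B b j r.z δ M c1 z wl al m' zf cc f) ≤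
        avy ys (rw96 μ s N (one96 N (LJA μ s N r m' wl lo k M) zt cc) f) +
        avy ys (rw96 μ s N (one96 N (LJB μ s N r m' wl lo k M) zt cc) f) + D * Real.exp (-(N : ℝ) ^ c') := by
  obtain ⟨β₀, hβ₀, H⟩ := ptJ27_mR hIn hκ hκ₁
  refine ⟨β₀, hβ₀, fun aM haM γ hγ => ?_⟩
  obtain ⟨δ', c', hδ', hc', N₀, H1⟩ := H aM haM γ hγ
  refine ⟨δ', c', hδ', hc', N₀, fun N hN ys hys hne B b j hB hBN hb hbj r hz ho hq hqN hd he1 hd3 δ M hdl hM8 hM hMN k c1 z wl lo al m' zf zt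
    cc cb e hk hk' hwl hL hal hzz hzm hm0 hzt hm hme hmN D f hf => ?_⟩
  have h2 := H1 N hN ys hys hne B b j hB hBN hb hbj r hz ho hq hqN hd he1 hd3 δ M hdl hM8 hM hMN k c1 z wl lo al m' 1 zf zt
      cc cb e hk hk' hwl hL hal hzz hzm one_pos (by omega) hzt hm hme hmN D f hf
  have e1 : ∀ Q : ℕ → Pool.Agent.W_7d29a1_C0.T93.Fam2 N, mR μ s N 1 Q f = rw96 μ s N (Q 0) f := fun Q => by
    funext y
    unfold mR
    simp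
  rw [e1, e1] at h2
  simpa using h2

end

end Pool.Agent.W_7d29a1_C0.Pt4J27
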