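import Pool.Agent.W_7d29a1_C0.Pt4J50
import Pool.Agent.W_7d29a1_C0.E2J45
import Pool.Agent.W_7d29a1_C0.Rq13G

/-!
CURV0 (MP_7d29a1_pr), leaf E2, part L (helper50): the families `LJA`, `LJB` of `E2J45` satisfy the hypotheses `Fu50`, `Geo50` of the pair price.
-/

set_option autoImplicit false
set_option linter.unusedSectionVars false
set_option linter.unusedVariables false

namespace Pool.Agent.W_7d29a1_C0.Pt450

open MeasureTheory ProbabilityTheory Filter Topology Finset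
open Pool.Agent.W_7d29a1_F Pool.Agent.W_7d29a1_X Pool.Agent.W_7d29a1_h4g Pool.Agent.W_7d29a1_H
open Pool.Agent.W_7d29a1_HS (In wd md)
open Pool.Agent.W_7d29a1_HZ Pool.Agent.W_7d29a1_HZ.R72 Pool.Agent.W_7d29a1_Z.Asm72
open Pool.Agent.W_7d29a1_HZ.Z86
open Pool.Agent.W_7d29a1_C0.P86
open Pool.Agent.W_7d29a1_C0.Mod92 (Px Pn lw ps pJ ne_Pn ps_Pn pos_card ps_of_le ps_of_ge wm Pm meas_lw meas_cE meas_gz meas_gm meas_wm int_Pm
  Fam avy avy_mono avy_const)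
open Pool.Agent.W_7d29a1_C0.Swap57 (NI cE2 NI_nonneg)
open Pool.Agent.W_7d29a1_C0.N51 (mc3 mc3_nonneg mc3_le_one)
open Pool.Agent.W_7d29a1_C0.N29 (Pla)
open Pool.Agent.W_7d29a1_C0.T93 (rdist Fam2 pr2)
open Pool.Agent.W_7d29a1_C0.E2S39 (meas_mc39 gap_cutL gap_cutR out39 out39_nonneg out39_le_one pout dom_out rdist_comm39 rdist_of_le39)
open Pool.Agent.W_7d29a1_C0.P15 (iE iE_mem iE_one iE_zero EvT EvI EvII TieP FinB ig15 gm01 meas_sec)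
open Pool.W7d29a1.C0 (gm gz gz_pos gm_nonneg gm_mono gm_const gm_add PP)
open Pool.W7d29a1.C0.VT31 (Mp cE gm_mul_cE fz cE_sum cE_mono cE_nonneg)
open Pool.W7d29a1.C0.R43 (Tau Rp mI bI st swP_pJ tau_rp st_end le_st)
open Pool.W7d29a1.C0.O1 (Gz okE en)
open scoped ENNReal


noncomputable section

variable {μ : Measure ℝ} {s : ℝ} {N : ℕ}

open Pool.Agent.W_7d29a1_C0.T72 (ind72)
open Pool.Agent.W_7d29a1_C0.Rq13 (Rg13 reg13)
open Pool.Agent.W_7d29a1_C0.E2J45 (LJA LJB meas_LJA meas_LJB)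

/-- The regions of the rows of `S` have common numbers: `q` pieces of length `l`, threshold `d`. -/
structure Rc50 (S : Finset ℕ) (r : ℕ → Rg13) (q l : ℕ) (d : ℝ) : Prop where
  hq : ∀ j ∈ S, (r j).q = q
  hm1 : ∀ j ∈ S, (r j).m1 = l
  hm2 : ∀ j ∈ S, (r j).m2 = l
  hn1 : ∀ j ∈ S, (r j).n1 = l
  hn2 : ∀ j ∈ S, (r j).n2 = l
  hd : ∀ j ∈ S, (r j).d = d
  he1 : ∀ j ∈ S, (r j).e1 = d
  hd3 : ∀ j ∈ S, (r j).d3 = d

/-- The dominating functional: own, given what is behind the row `m`. -/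
def Gow50 (μ : Measure ℝ) (s : ℝ) (N m wl lo k : ℕ) (M : ℝ) : Fam N := fun y => ind72 fun ω => Rp (wm μ s N (Pn N y) ω) (pJ 0 m) wl lo k M

section Fu

variable {S : Finset ℕ} {r : ℕ → Rg13} {q l lo k y : ℕ} {d X M M₂ : ℝ} {m' wl ou ov : ℕ → ℕ}

theorem ind50_le {y : ℕ} {A B : Env × Finset ℕ → Px (Pn N y) → Prop} (ω : Env × Finset ℕ) (x : Px (Pn N y)) (h : A ω x → B ω x) :
    ind72 A ω x ≤ ind72 B ω x := by
  unfold ind72
  by_cases hA : A ω x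
  · rw [if_pos hA, if_pos (h hA)]
  · rw [if_neg hA]
    split_ifs <;> norm_num

theorem ind50_nonneg {y : ℕ} (A : Env × Finset ℕ → Px (Pn N y) → Prop) (ω : Env × Finset ℕ) (x : Px (Pn N y)) : 0 ≤ ind72 A ω x := by
  unfold ind72
  split_ifs <;> norm_num

theorem ind50_one {y : ℕ} (A : Env × Finset ℕ → Px (Pn N y) → Prop) (ω : Env × Finset ℕ) (x : Px (Pn N y)) : ind72 A ω x ≤ 1 := by
  unfold ind72
  split_ifs <;> norm_num

theorem of_ind50 {y : ℕ} {A : Env × Finset ℕ → Px (Pn N y) → Prop} {ω : Env × Finset ℕ} {x : Px (Pn N y)} (h : ind72 A ω x ≠ 0) : A ω x := by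
  unfold ind72 at h
  by_contra hA
  exact h (if_neg hA)

theorem meas_gow50 (m wl lo k : ℕ) (M : ℝ) (y : ℕ) (x : Px (Pn N y)) : Measurable fun ω => Gow50 μ s N m wl lo k M y ω x := by
  unfold Gow50 ind72
  exact Measurable.ite (E2CL45.meas_Rp45 _ _ _ _ _ x) measurable_const measurable_const

theorem dom_gow50 {m wl lo k U V : ℕ} (hX : 0 ≤ X) (hU : U ≤ wl) (hV : wl + 3 * k * (lo + 1) ≤ V) (hm : V ≤ m) (hk : (3 * k : ℝ) ≤ X)
    (hM : 7 * M₂ ≤ X) : ∃ ty : Ty, Dom μ s N y X M ⟨0, m, 0, m, U, V, lo, ty, False⟩ (Gow50 μ s N m wl lo k M₂ y) :=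
  ⟨Ty.L, E2S39.dom_rp hX (Nat.zero_le _) hm hU hV hk hM⟩

/-- **THE FIRST MARGIN**: the hypotheses `Fu50` of the family `LJA`. -/
theorem fuA50 (hC : Rc50 S r q l d) (hX : 0 ≤ X) (hk : (3 * k : ℝ) ≤ X) (hM : 7 * M₂ ≤ X)
    (ho : ∀ j ∈ S, ou j ≤ wl j ∧ wl j + 3 * k * (lo + 1) ≤ ov j ∧ ov j ≤ m' j) :
    Fu50 μ s N y X M S 0 lo l l q m' ou ov (fun j => (r j).g0) (fun j => (r j).g1) (fun j => (r j).a1) (fun j => (r j).a2)
      (fun j => (r j).z) d d d (fun j => LJA μ s N (r j) (m' j) (wl j) lo k M₂ y) (fun j => Gow50 μ s N (m' j) (wl j) lo k M₂ y)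
      (fun _ _ _ => False) where
  U0 j _ ω x := ind50_nonneg (fun ω (x : Px (Pn N y)) => Rp (wm μ s N (Pn N y) ω) (pJ 0 (m' j)) (wl j) lo k M₂ x ∧ ¬ okE (wm μ s N (Pn N y) ω) (pJ 0 (r j).z) (fun _ => False)
      (r j).q (r j).d (r j).e1 (r j).d3 (r j).g0 (r j).g1 (r j).a1 (r j).m1 (r j).a2 (r j).m2 x) ω x
  U1 j _ ω x := ind50_one (fun ω (x : Px (Pn N y)) => Rp (wm μ s N (Pn N y) ω) (pJ 0 (m' j)) (wl j) lo k M₂ x ∧ ¬ okE (wm μ s N (Pn N y) ω) (pJ 0 (r j).z) (fun _ => False)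
      (r j).q (r j).d (r j).e1 (r j).d3 (r j).g0 (r j).g1 (r j).a1 (r j).m1 (r j).a2 (r j).m2 x) ω x
  Um j _ x := meas_LJA _ _ _ _ _ _ _ _
  ok j hj ω x h := by
    have h1 := (of_ind50 (A := fun ω (x : Px (Pn N y)) => Rp (wm μ s N (Pn N y) ω) (pJ 0 (m' j)) (wl j) lo k M₂ x ∧ ¬ okE (wm μ s N (Pn N y) ω) (pJ 0 (r j).z) (fun _ => False)
      (r j).q (r j).d (r j).e1 (r j).d3 (r j).g0 (r j).g1 (r j).a1 (r j).m1 (r j).a2 (r j).m2 x) h).2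
    rw [hC.hq j hj, hC.hd j hj, hC.he1 j hj, hC.hd3 j hj, hC.hm1 j hj, hC.hm2 j hj] at h1
    exact h1
  ow j _ ω x _ := ind50_le (A := fun ω (x : Px (Pn N y)) => Rp (wm μ s N (Pn N y) ω) (pJ 0 (m' j)) (wl j) lo k M₂ x ∧ ¬ okE (wm μ s N (Pn N y) ω) (pJ 0 (r j).z) (fun _ => False)
      (r j).q (r j).d (r j).e1 (r j).d3 (r j).g0 (r j).g1 (r j).a1 (r j).m1 (r j).a2 (r j).m2 x)
    (B := fun ω x => Rp (wm μ s N (Pn N y) ω) (pJ 0 (m' j)) (wl j) lo k M₂ x) ω x fun h => h.1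
  dG j hj := dom_gow50 hX (ho j hj).1 (ho j hj).2.1 (ho j hj).2.2 hk hM
  mG j _ x := meas_gow50 _ _ _ _ _ _ _

/-- **THE SECOND MARGIN**: the hypotheses `Fu50` of the family `LJB`. -/
theorem fuB50 (hC : Rc50 S r q l d) (hX : 0 ≤ X) (hk : (3 * k : ℝ) ≤ X) (hM : 7 * M₂ ≤ X)
    (ho : ∀ j ∈ S, ou j ≤ wl j ∧ wl j + 3 * k * (lo + 1) ≤ ov j ∧ ov j ≤ m' j) :
    Fu50 μ s N y X M S 0 lo l l q m' ou ov (fun j => (r j).g0) (fun j => (r j).g1) (fun j => (r j).b1) (fun j => (r j).b2)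
      (fun j => (r j).z) d d d (fun j => LJB μ s N (r j) (m' j) (wl j) lo k M₂ y) (fun j => Gow50 μ s N (m' j) (wl j) lo k M₂ y)
      (fun _ _ _ => False) where
  U0 j _ ω x := ind50_nonneg (fun ω (x : Px (Pn N y)) => Rp (wm μ s N (Pn N y) ω) (pJ 0 (m' j)) (wl j) lo k M₂ x ∧ ¬ okE (wm μ s N (Pn N y) ω) (pJ 0 (r j).z) (fun _ => False)
      (r j).q (r j).d (r j).e1 (r j).d3 (r j).g0 (r j).g1 (r j).b1 (r j).n1 (r j).b2 (r j).n2 x) ω x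
  U1 j _ ω x := ind50_one (fun ω (x : Px (Pn N y)) => Rp (wm μ s N (Pn N y) ω) (pJ 0 (m' j)) (wl j) lo k M₂ x ∧ ¬ okE (wm μ s N (Pn N y) ω) (pJ 0 (r j).z) (fun _ => False)
      (r j).q (r j).d (r j).e1 (r j).d3 (r j).g0 (r j).g1 (r j).b1 (r j).n1 (r j).b2 (r j).n2 x) ω x
  Um j _ x := meas_LJB _ _ _ _ _ _ _ _
  ok j hj ω x h := by
    have h1 := (of_ind50 (A := fun ω (x : Px (Pn N y)) => Rp (wm μ s N (Pn N y) ω) (pJ 0 (m' j)) (wl j) lo k M₂ x ∧ ¬ okE (wm μ s N (Pn N y) ω) (pJ 0 (r j).z) (fun _ => False)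
      (r j).q (r j).d (r j).e1 (r j).d3 (r j).g0 (r j).g1 (r j).b1 (r j).n1 (r j).b2 (r j).n2 x) h).2
    rw [hC.hq j hj, hC.hd j hj, hC.he1 j hj, hC.hd3 j hj, hC.hn1 j hj, hC.hn2 j hj] at h1
    exact h1
  ow j _ ω x _ := ind50_le (A := fun ω (x : Px (Pn N y)) => Rp (wm μ s N (Pn N y) ω) (pJ 0 (m' j)) (wl j) lo k M₂ x ∧ ¬ okE (wm μ s N (Pn N y) ω) (pJ 0 (r j).z) (fun _ => False)
      (r j).q (r j).d (r j).e1 (r j).d3 (r j).g0 (r j).g1 (r j).b1 (r j).n1 (r j).b2 (r j).n2 x)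
    (B := fun ω x => Rp (wm μ s N (Pn N y) ω) (pJ 0 (m' j)) (wl j) lo k M₂ x) ω x fun h => h.1
  dG j hj := dom_gow50 hX (ho j hj).1 (ho j hj).2.1 (ho j hj).2.2 hk hM
  mG j _ x := meas_gow50 _ _ _ _ _ _ _

end Fu

/-! ### The geometry -/

/-- The regions of the row `j` (windows `b0 < b`): the block closes at `j + b0 + b / 16`, the class window `[j - b / 2, j - b0]`, the regions
of the margins in halves. -/
def rgL50 (q l b0 b j : ℕ) (e : ℝ) : Rg13 where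
  z := j + b0 + b / 16
  q := q
  g0 := j - b / 2
  g1 := j - b0
  a1 := j - b0 / 2
  m1 := l
  a2 := j - b0
  m2 := l
  b1 := j + b0 / 2
  n1 := l
  b2 := j
  n2 := l
  d := e
  e1 := e
  d3 := e

theorem rc_rgL50 (S : Finset ℕ) (q l b0 b : ℕ) (e : ℝ) : Rc50 S (fun j => rgL50 q l b0 b j e) q l e :=
  ⟨fun _ _ => rfl, fun _ _ => rfl, fun _ _ => rfl, fun _ _ => rfl, fun _ _ => rfl, fun _ _ => rfl, fun _ _ => rfl, fun _ _ => rfl⟩

theorem rc_reg50 (S : Finset ℕ) (z : ℕ → ℕ) (q l b0 : ℕ) (e : ℝ) : Rc50 S (fun j => reg13 (z j) q l b0 j e) q l e :=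
  ⟨fun _ _ => rfl, fun _ _ => rfl, fun _ _ => rfl, fun _ _ => rfl, fun _ _ => rfl, fun _ _ => rfl, fun _ _ => rfl, fun _ _ => rfl⟩

theorem okL50 {q l b0 b j : ℕ} {e : ℝ} (he : 0 ≤ e) (hb : b0 ≤ j) (hl : 6 * q * (l + 1) ≤ b0) : (rgL50 q l b0 b j e).Ok b0 j := by
  obtain ⟨t, ht⟩ : ∃ t, t = 3 * q * (l + 1) := ⟨_, rfl⟩
  have h1 : 6 * q * (l + 1) = 2 * t := by
    rw [ht]
    ring
  have h2 : t ≤ b0 / 2 := by omega
  refine ⟨he, he, he, Or.inl le_rfl, ?_, ?_, le_rfl, ?_, ?_, ?_, le_rfl, ?_⟩ <;> simp only [rgL50, en, ← ht] <;> omega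

/-- The numbers of the geometry of the rows: `3 b0 ≤ b`, pieces of length `l`, the own window with pieces of length `lo`, the block is
closed in front of `zf`, the own event is told at `m'`. -/
structure Gn50 (S : Finset ℕ) (N zf b0 b l lo q : ℕ) (m' : ℕ → ℕ) : Prop where
  q1 : 1 ≤ q
  b1 : 1 ≤ b0
  bb : 3 * b0 ≤ b
  ql : 6 * q * (l + 1) ≤ b0
  llo : l ≤ lo
  zN : zf ≤ N
  j1 : ∀ j ∈ S, b < j
  j2 : ∀ j ∈ S, j + b0 + b / 16 ≤ zf
  m1 : ∀ j ∈ S, j ≤ m' j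
  m2 : ∀ j ∈ S, m' j ≤ zf

section Geo

variable {S : Finset ℕ} {zf b0 b l lo q : ℕ} {m' ou ov : ℕ → ℕ} {e : ℝ}

theorem Gn50.num (G : Gn50 S N zf b0 b l lo q m') : ∃ t, t = 3 * q * (l + 1) ∧ 2 * t ≤ b0 ∧ 3 * l < t := by
  refine ⟨_, rfl, ?_, ?_⟩
  · have h1 : 2 * (3 * q * (l + 1)) = 6 * q * (l + 1) := by ring
    rw [h1]
    exact G.ql
  · have h2 : 3 * 1 * (l + 1) ≤ 3 * q * (l + 1) := by
      gcongr
      exact G.q1
    omega

/-- **THE FIRST MARGIN**, own in front of the class window. -/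
theorem geoA50 (G : Gn50 S N zf b0 b l lo q m') (ho : ∀ j ∈ S, j - b ≤ ou j ∧ ou j ≤ ov j ∧ ov j ≤ j - b / 2) :
    Geo50 S N zf 0 b l lo l l q (3 * b) m' ou ov (fun j => (rgL50 q l b0 b j e).g0) (fun j => (rgL50 q l b0 b j e).g1)
      (fun j => (rgL50 q l b0 b j e).a1) (fun j => (rgL50 q l b0 b j e).a2) (fun j => (rgL50 q l b0 b j e).z) := by
  obtain ⟨t, ht, t1, t2⟩ := G.num
  have hb1 := G.b1
  have hbb := G.bb
  refine ⟨by omega, by omega, G.llo, le_rfl, le_rfl, G.q1, G.zN, fun j hj => ⟨G.j1 j hj, Nat.zero_le _⟩, fun j hj => ?_, fun j hj => ?_,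
    fun j hj => ?_⟩
  · have h1 := G.j1 j hj
    have h2 := G.j2 j hj
    simp only [rgL50, en, ← ht]
    omega
  · obtain ⟨a1, a2, a3⟩ := ho j hj
    left
    simp only [rgL50]
    exact ⟨a1, a2, a3⟩
  · obtain ⟨a1, a2, a3⟩ := ho j hj
    have h1 := G.m1 j hj
    exact ⟨by omega, G.m2 j hj⟩

/-- **THE SECOND MARGIN**, own in front of the class window. -/
theorem geoB50 (G : Gn50 S N zf b0 b l lo q m') (ho : ∀ j ∈ S, j - b ≤ ou j ∧ ou j ≤ ov j ∧ ov j ≤ j - b / 2) :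
    Geo50 S N zf 0 b l lo l l q (3 * b) m' ou ov (fun j => (rgL50 q l b0 b j e).g0) (fun j => (rgL50 q l b0 b j e).g1)
      (fun j => (rgL50 q l b0 b j e).b1) (fun j => (rgL50 q l b0 b j e).b2) (fun j => (rgL50 q l b0 b j e).z) := by
  obtain ⟨t, ht, t1, t2⟩ := G.num
  have hb1 := G.b1
  have hbb := G.bb
  refine ⟨by omega, by omega, G.llo, le_rfl, le_rfl, G.q1, G.zN, fun j hj => ⟨G.j1 j hj, Nat.zero_le _⟩, fun j hj => ?_, fun j hj => ?_,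
    fun j hj => ?_⟩
  · have h1 := G.j1 j hj
    have h2 := G.j2 j hj
    simp only [rgL50, en, ← ht]
    omega
  · obtain ⟨a1, a2, a3⟩ := ho j hj
    left
    simp only [rgL50]
    exact ⟨a1, a2, a3⟩
  · obtain ⟨a1, a2, a3⟩ := ho j hj
    have h1 := G.m1 j hj
    exact ⟨by omega, G.m2 j hj⟩

/-- **THE FIRST MARGIN** at `reg13`. -/
theorem geoA13 (G : Gn50 S N zf b0 b l lo q m') (ho : ∀ j ∈ S, j - b ≤ ou j ∧ ou j ≤ ov j ∧ ov j ≤ j - b / 2) :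
    Geo50 S N zf 0 b l lo l l q (3 * b) m' ou ov (fun j => (reg13 (j + b0 + b / 16) q l b0 j e).g0)
      (fun j => (reg13 (j + b0 + b / 16) q l b0 j e).g1) (fun j => (reg13 (j + b0 + b / 16) q l b0 j e).a1)
      (fun j => (reg13 (j + b0 + b / 16) q l b0 j e).a2) (fun j => (reg13 (j + b0 + b / 16) q l b0 j e).z) := by
  obtain ⟨t, ht, t1, t2⟩ := G.num
  have hb1 := G.b1
  have hbb := G.bb
  refine ⟨by omega, by omega, G.llo, le_rfl, le_rfl, G.q1, G.zN, fun j hj => ⟨G.j1 j hj, Nat.zero_le _⟩, fun j hj => ?_, fun j hj => ?_,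
    fun j hj => ?_⟩
  · have h1 := G.j1 j hj
    have h2 := G.j2 j hj
    simp only [reg13, en, ← ht]
    omega
  · obtain ⟨a1, a2, a3⟩ := ho j hj
    have h1 := G.j1 j hj
    left
    simp only [reg13]
    omega
  · obtain ⟨a1, a2, a3⟩ := ho j hj
    have h1 := G.m1 j hj
    exact ⟨by omega, G.m2 j hj⟩

/-- **THE SECOND MARGIN** at `reg13`. -/
theorem geoB13 (G : Gn50 S N zf b0 b l lo q m') (ho : ∀ j ∈ S, j - b ≤ ou j ∧ ou j ≤ ov j ∧ ov j ≤ j - b / 2) :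
    Geo50 S N zf 0 b l lo l l q (3 * b) m' ou ov (fun j => (reg13 (j + b0 + b / 16) q l b0 j e).g0)
      (fun j => (reg13 (j + b0 + b / 16) q l b0 j e).g1) (fun j => (reg13 (j + b0 + b / 16) q l b0 j e).b1)
      (fun j => (reg13 (j + b0 + b / 16) q l b0 j e).b2) (fun j => (reg13 (j + b0 + b / 16) q l b0 j e).z) := by
  obtain ⟨t, ht, t1, t2⟩ := G.num
  have hb1 := G.b1
  have hbb := G.bb
  refine ⟨by omega, by omega, G.llo, le_rfl, le_rfl, G.q1, G.zN, fun j hj => ⟨G.j1 j hj, Nat.zero_le _⟩, fun j hj => ?_, fun j hj => ?_,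
    fun j hj => ?_⟩
  · have h1 := G.j1 j hj
    have h2 := G.j2 j hj
    simp only [reg13, en, ← ht]
    omega
  · obtain ⟨a1, a2, a3⟩ := ho j hj
    have h1 := G.j1 j hj
    left
    simp only [reg13]
    omega
  · obtain ⟨a1, a2, a3⟩ := ho j hj
    have h1 := G.m1 j hj
    exact ⟨by omega, G.m2 j hj⟩

end Geo

/-! ### The pair prices of the two families, the ends tied -/

section Tie

variable [IsProbabilityMeasure μ] {S ys : Finset ℕ} {zf c b0 b l lo q k : ℕ} {m' : ℕ → ℕ} {ε θ κ M M₂ e R dd : ℝ}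

/-- The hypotheses on the numbers of the two families. -/
structure Nm50 (μ : Measure ℝ) (s : ℝ) (S : Finset ℕ) (N zf c b0 b l lo q k : ℕ) (m' : ℕ → ℕ) (θ κ M₂ R dd : ℝ) : Prop where
  G : Gn50 S N zf b0 b l lo q m'
  own : 6 * k * (lo + 1) ≤ b
  hl : (N : ℝ) ^ θ ≤ l
  R1 : 1 ≤ R
  wd : ∀ i : ℕ, 1 ≤ i → i ≤ 3 * b → wd' μ s i ≤ R * wd' μ s l
  q3 : 3 * (q : ℝ) ≤ (N : ℝ) ^ κ
  k3 : 3 * (k : ℝ) ≤ (N : ℝ) ^ κ
  M7 : 7 * M₂ ≤ (N : ℝ) ^ κ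
  dd0 : Real.exp (-(N : ℝ) ^ κ) ≤ dd
  zc : zf ≤ c
  cN : c ≤ N
  lc : (N : ℝ) ^ θ ≤ ((c - zf : ℕ) : ℝ)

theorem own50 {b k lo j : ℕ} (h : 6 * k * (lo + 1) ≤ b) (hj : b < j) : j - b + 3 * k * (lo + 1) ≤ j - b / 2 := by
  have h1 : 6 * k * (lo + 1) = 2 * (3 * k * (lo + 1)) := by ring
  omega

/-- **THE FIRST MARGIN, regions `rgL50`.** -/
theorem tieA50 (hP : Pk50 μ s ε θ κ N ys M e) (hys : ys.Nonempty) (H : Nm50 μ s S N zf c b0 b l lo q k m' θ κ M₂ R dd) :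
    ∀ i ∈ S, ∀ j ∈ S, avy ys (pr2 μ s N (fun y ω x z => NI zf c x z) (LJA μ s N (rgL50 q l b0 b i dd) (m' i) (i - b) lo k M₂)
      (LJA μ s N (rgL50 q l b0 b j dd) (m' j) (j - b) lo k M₂)) ≤ phT μ s N ε R e (po μ s N ε (c - zf)) b l (rdist i j) :=
  pair50_tie (U := fun j => LJA μ s N (rgL50 q l b0 b j dd) (m' j) (j - b) lo k M₂) (Go := fun j => Gow50 μ s N (m' j) (j - b) lo k M₂)
    (Bo := fun _ _ _ _ => False) hP (geoA50 (e := dd) (ou := fun j => j - b) (ov := fun j => j - b / 2) H.G fun j hj => by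
      have := H.G.j1 j hj
      exact ⟨le_rfl, by show j - b ≤ j - b / 2; omega, le_rfl⟩) H.hl H.R1 H.wd H.q3 H.dd0 H.dd0 H.dd0 H.zc H.cN H.lc hys fun y _ =>
    fuA50 (rc_rgL50 S q l b0 b dd) (zero_le_one.trans hP.X1) H.k3 H.M7 fun j hj => ⟨le_rfl, own50 H.own (H.G.j1 j hj), by
      have := H.G.m1 j hj
      show j - b / 2 ≤ m' j
      omega⟩

/-- **THE SECOND MARGIN, regions `rgL50`.** -/
theorem tieB50 (hP : Pk50 μ s ε θ κ N ys M e) (hys : ys.Nonempty) (H : Nm50 μ s S N zf c b0 b l lo q k m' θ κ M₂ R dd) :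
    ∀ i ∈ S, ∀ j ∈ S, avy ys (pr2 μ s N (fun y ω x z => NI zf c x z) (LJB μ s N (rgL50 q l b0 b i dd) (m' i) (i - b) lo k M₂)
      (LJB μ s N (rgL50 q l b0 b j dd) (m' j) (j - b) lo k M₂)) ≤ phT μ s N ε R e (po μ s N ε (c - zf)) b l (rdist i j) :=
  pair50_tie (U := fun j => LJB μ s N (rgL50 q l b0 b j dd) (m' j) (j - b) lo k M₂) (Go := fun j => Gow50 μ s N (m' j) (j - b) lo k M₂)
    (Bo := fun _ _ _ _ => False) hP (geoB50 (e := dd) (ou := fun j => j - b) (ov := fun j => j - b / 2) H.G fun j hj => by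
      have := H.G.j1 j hj
      exact ⟨le_rfl, by show j - b ≤ j - b / 2; omega, le_rfl⟩) H.hl H.R1 H.wd H.q3 H.dd0 H.dd0 H.dd0 H.zc H.cN H.lc hys fun y _ =>
    fuB50 (rc_rgL50 S q l b0 b dd) (zero_le_one.trans hP.X1) H.k3 H.M7 fun j hj => ⟨le_rfl, own50 H.own (H.G.j1 j hj), by
      have := H.G.m1 j hj
      show j - b / 2 ≤ m' j
      omega⟩

/-- **THE FIRST MARGIN, regions `reg13`.** -/
theorem tieA13 (hP : Pk50 μ s ε θ κ N ys M e) (hys : ys.Nonempty) (H : Nm50 μ s S N zf c b0 b l lo q k m' θ κ M₂ R dd) :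
    ∀ i ∈ S, ∀ j ∈ S, avy ys (pr2 μ s N (fun y ω x z => NI zf c x z)
      (LJA μ s N (reg13 (i + b0 + b / 16) q l b0 i dd) (m' i) (i - b) lo k M₂)
      (LJA μ s N (reg13 (j + b0 + b / 16) q l b0 j dd) (m' j) (j - b) lo k M₂)) ≤ phT μ s N ε R e (po μ s N ε (c - zf)) b l (rdist i j) :=
  pair50_tie (U := fun j => LJA μ s N (reg13 (j + b0 + b / 16) q l b0 j dd) (m' j) (j - b) lo k M₂)
    (Go := fun j => Gow50 μ s N (m' j) (j - b) lo k M₂)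
    (Bo := fun _ _ _ _ => False) hP (geoA13 (e := dd) (ou := fun j => j - b) (ov := fun j => j - b / 2) H.G fun j hj => by
      have := H.G.j1 j hj
      exact ⟨le_rfl, by show j - b ≤ j - b / 2; omega, le_rfl⟩) H.hl H.R1 H.wd H.q3 H.dd0 H.dd0 H.dd0 H.zc H.cN H.lc hys fun y _ =>
    fuA50 (rc_reg50 S (fun j => j + b0 + b / 16) q l b0 dd) (zero_le_one.trans hP.X1) H.k3 H.M7 fun j hj =>
      ⟨le_rfl, own50 H.own (H.G.j1 j hj), by
        have := H.G.m1 j hj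
        show j - b / 2 ≤ m' j
        omega⟩

/-- **THE SECOND MARGIN, regions `reg13`.** -/
theorem tieB13 (hP : Pk50 μ s ε θ κ N ys M e) (hys : ys.Nonempty) (H : Nm50 μ s S N zf c b0 b l lo q k m' θ κ M₂ R dd) :
    ∀ i ∈ S, ∀ j ∈ S, avy ys (pr2 μ s N (fun y ω x z => NI zf c x z)
      (LJB μ s N (reg13 (i + b0 + b / 16) q l b0 i dd) (m' i) (i - b) lo k M₂)
      (LJB μ s N (reg13 (j + b0 + b / 16) q l b0 j dd) (m' j) (j - b) lo k M₂)) ≤ phT μ s N ε R e (po μ s N ε (c - zf)) b l (rdist i j) :=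
  pair50_tie (U := fun j => LJB μ s N (reg13 (j + b0 + b / 16) q l b0 j dd) (m' j) (j - b) lo k M₂)
    (Go := fun j => Gow50 μ s N (m' j) (j - b) lo k M₂)
    (Bo := fun _ _ _ _ => False) hP (geoB13 (e := dd) (ou := fun j => j - b) (ov := fun j => j - b / 2) H.G fun j hj => by
      have := H.G.j1 j hj
      exact ⟨le_rfl, by show j - b ≤ j - b / 2; omega, le_rfl⟩) H.hl H.R1 H.wd H.q3 H.dd0 H.dd0 H.dd0 H.zc H.cN H.lc hys fun y _ =>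
    fuB50 (rc_reg50 S (fun j => j + b0 + b / 16) q l b0 dd) (zero_le_one.trans hP.X1) H.k3 H.M7 fun j hj =>
      ⟨le_rfl, own50 H.own (H.G.j1 j hj), by
        have := H.G.m1 j hj
        show j - b / 2 ≤ m' j
        omega⟩

end Tie

end

end Pool.Agent.W_7d29a1_C0.Pt450
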