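import Pool.Agent.W_7d29a1_C0.E2LT43
import Pool.Agent.W_7d29a1_C0.Pt4F82
import Pool.Agent.W_7d29a1_C0.Pt4L50
import Pool.Agent.W_7d29a1_C0.Pt4J27

/-!
MP_7d29a1_pr, [CURV0] / [C0], leaf E2, PART L (helper45): **THE FUNCTIONALS WITH THREE LEVELS AS LISTS OF TWO TERMS**, at one length `N`: from the
price of the pairs of rows of the families `LJA`, `LJB` (`Pt4L50`, helper50), the numbers (`Pt4F82`, helper82) and the bound of the functional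
(`Pt4J27`, helper27). `dJ45`: from the pair prices; `blkJ45`: for a block of rows.
-/

set_option autoImplicit false
set_option linter.unusedSectionVars false
set_option linter.unusedVariables false

namespace Pool.Agent.W_7d29a1_C0.E2JS45

open Finset MeasureTheory Filter Topology
open Pool.Agent.W_7d29a1_F Pool.Agent.W_7d29a1_X
open Pool.Agent.W_7d29a1_H (sl EE one_le_EE)
open Pool.Agent.W_7d29a1_HS (In wd)
open Pool.Agent.W_7d29a1_HZ (wd' EE')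
open Pool.Agent.W_7d29a1_C0 Pool.Agent.W_7d29a1_C0.Mod92 Pool.Agent.W_7d29a1_C0.Swap57 Pool.Agent.W_7d29a1_C0.NM82
open Pool.Agent.W_7d29a1_C0.E2N39 Pool.Agent.W_7d29a1_C0.E2S39
open Pool.Agent.W_7d29a1_C0.T93 (rdist Fam2 pr2)
open Pool.Agent.W_7d29a1_C0.E2T96
open Pool.Agent.W_7d29a1_C0.E2C96 (mR)
open Pool.Agent.W_7d29a1_C0.Asm96 Pool.Agent.W_7d29a1_C0.EstC46 Pool.Agent.W_7d29a1_C0.Frm33 Pool.Agent.W_7d29a1_C0.E2G43
open Pool.Agent.W_7d29a1_C0.E2D43 (Dec43)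
open Pool.Agent.W_7d29a1_C0.Pt4N82 (Tl82 tT82)
open Pool.Agent.W_7d29a1_C0.Pt450 (po phT er Pk50 Gn50 Nm50 tieA13 tieB13)
open Pool.Agent.W_7d29a1_C0.E2J45 (LJA LJB meas_LJA meas_LJB)
open Pool.Agent.W_7d29a1_C0.E2DL96 (lJ geoL96)
open Pool.Agent.W_7d29a1_C0.E2CT45 (cJT)
open Pool.Agent.W_7d29a1_C0.Rq13 (Rg13 reg13 reg_ok13)
open Pool.W7d29a1.C0 Pool.W7d29a1.C0.VT31

noncomputable section

/-- The lanes for fewer pieces. -/
theorem tl_mono45 {μ : Measure ℝ} {s ε' θ n e₁ : ℝ} {N b0 b k k' lT : ℕ} {Rr : ℝ} (T : Tl82 μ s ε' θ n e₁ N b0 b k' lT Rr) (h : k ≤ k') :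
    Tl82 μ s ε' θ n e₁ N b0 b k lT Rr :=
  ⟨(Nat.mul_le_mul_right _ (Nat.mul_le_mul_left _ h)).trans T.fit, T.lθ, T.pl, T.R1, T.Rle, T.Rw⟩

section Dc

variable {μ : Measure ℝ} [IsProbabilityMeasure μ] {s : ℝ} {N : ℕ}
variable {c₀ Θ δ a ε n c ε' θ κ κp M e e₁ x Rr eT C eΦ dd : ℝ} {ys S : Finset ℕ} {b0 b sg gl d r l k q r0 lT : ℕ} {f : Fam N}

/-- **ONE FUNCTIONAL WITH THREE LEVELS AS A LIST OF TWO TERMS**: the mean over `u < nn` of the rows of the families `LJA`, `LJB` given what is behind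
`mm u j`. -/
theorem dJ45 (H : Rd39 μ s c₀ Θ δ a ε n c ε' θ κ M e e₁ x N ys S b0 b sg gl d r l k r0) (T : Tl82 μ s ε' θ n e₁ N b0 b k lT Rr)
    (X : Ex39 Θ c ε (2 * e₁) x) (hC : 0 ≤ C) (hC2 : C ^ 2 ≤ n ^ (2 * e₁)) (he0 : 0 ≤ eT)
    (he : n ^ (2 * e₁) * (r * (3 * eT + 23 * er N ε' Rr eT)) ≤ 1) (nn : ℕ) (rr : ℕ → Rg13) (mm : ℕ → ℕ → ℕ)
    (hA : ∀ u < nn, ∀ j ∈ S, ∀ k' ∈ S, avy ys (pr2 μ s N (fun y ω x z => NI (d - gl) d x z) (LJA μ s N (rr j) (mm u j) (j - b) l k M)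
      (LJA μ s N (rr k') (mm u k') (k' - b) l k M)) ≤ phT μ s N ε' Rr eT (po μ s N ε' (d - (d - gl))) b lT (rdist j k'))
    (hB : ∀ u < nn, ∀ j ∈ S, ∀ k' ∈ S, avy ys (pr2 μ s N (fun y ω x z => NI (d - gl) d x z) (LJB μ s N (rr j) (mm u j) (j - b) l k M)
      (LJB μ s N (rr k') (mm u k') (k' - b) l k M)) ≤ phT μ s N ε' Rr eT (po μ s N ε' (d - (d - gl))) b lT (rdist j k'))
    {Φ : ℕ → ℕ → ℝ} (hΦ : ∀ j ∈ S, avy ys (Φ j) ≤
      avy ys (fun y => C * mR μ s N nn (fun u => one96 N (LJA μ s N (rr j) (mm u j) (j - b) l k M) (d - gl) d) f y +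
      C * mR μ s N nn (fun u => one96 N (LJB μ s N (rr j) (mm u j) (j - b) l k M) (d - gl) d) f y) + eΦ) :
    Dec43 μ s N ys S r (n ^ (Θ - 2 * x)) f Φ 2 eΦ := by
  obtain ⟨TA, hTA⟩ : ∃ T' : Trm96 μ s N ys S r (n ^ (Θ - 2 * x)), T' = tT82 H T X hC hC2 he0 he nn
      (fun u j => LJA μ s N (rr j) (mm u j) (j - b) l k M) (fun _ _ _ _ _ _ _ => E2C96.evF_nonneg _ _ _ _)
      (fun _ _ _ _ _ _ _ => E2C96.evF_le_one _ _ _ _) (fun _ _ _ _ y S => meas_LJA _ _ _ _ _ _ y S) hA := ⟨_, rfl⟩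
  obtain ⟨TB, hTB⟩ : ∃ T' : Trm96 μ s N ys S r (n ^ (Θ - 2 * x)), T' = tT82 H T X hC hC2 he0 he nn
      (fun u j => LJB μ s N (rr j) (mm u j) (j - b) l k M) (fun _ _ _ _ _ _ _ => E2C96.evF_nonneg _ _ _ _)
      (fun _ _ _ _ _ _ _ => E2C96.evF_le_one _ _ _ _) (fun _ _ _ _ y S => meas_LJB _ _ _ _ _ _ y S) hB := ⟨_, rfl⟩
  have dA : Dec43 μ s N ys S r (n ^ (Θ - 2 * x)) f
      (fun j y => C * mR μ s N nn (fun u => one96 N (LJA μ s N (rr j) (mm u j) (j - b) l k M) (d - gl) d) f y) 1 0 :=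
    Dec43.one TA fun j _ y _ => by rw [hTA]; exact le_rfl
  have dB : Dec43 μ s N ys S r (n ^ (Θ - 2 * x)) f
      (fun j y => C * mR μ s N nn (fun u => one96 N (LJB μ s N (rr j) (mm u j) (j - b) l k M) (d - gl) d) f y) 1 0 :=
    Dec43.one TB fun j _ y _ => by rw [hTB]; exact le_rfl
  exact ((dA.add dB).mono_av hΦ).cast (by norm_num) (by linarith)

/-- The geometry of the rows. -/
theorem geoJ45 {j : ℕ} (X : G43 N b0 b sg gl d j) : 3 * b0 ≤ b ∧ b < j ∧ j + b0 + b / 16 ≤ (j / sg + 1) * sg ∧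
    (j / sg + 1) * sg + 7 * gl ≤ d ∧ j / sg * sg ≤ j - b ∧ b0 ≤ j ∧ j - b / 2 ≤ (j / sg + 1) * sg ∧ b0 ≤ b / 2 ∧ 1 ≤ gl ∧ b / 2 ≤ b ∧
    j - b + b / 2 ≤ j - b / 2 := by
  have h1 := X.b0p
  have h2 := X.b16
  have h3 := X.lo
  have h4 := X.hi
  have h5 := X.zd
  have h6 := X.bg
  have h7 := X.jg
  refine ⟨by omega, by omega, by omega, h5, by omega, by omega, by omega, by omega, by omega, by omega, by omega⟩

/-- **THE FUNCTIONALS WITH THREE LEVELS OF A BLOCK OF ROWS.** `q`: the pieces of the two margins, of length `lT`; `a' j + v`, `v < n'`: the rows of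
the slab. -/
theorem blkJ45 (H : Rd39 μ s c₀ Θ δ a ε n c ε' θ κ M e e₁ x N ys S b0 b sg gl d r l k r0) (T : Tl82 μ s ε' θ n e₁ N b0 b q lT Rr)
    (X : Ex39 Θ c ε (2 * e₁) x) (hkq : k ≤ q) (hll : lT ≤ l) (P : Pk50 μ s ε' θ κp N ys M eT) (q3 : 3 * (q : ℝ) ≤ (N : ℝ) ^ κp)
    (M7 : 7 * M ≤ (N : ℝ) ^ κp) (hdd : Real.exp (-(N : ℝ) ^ κp) ≤ dd)
    (he : n ^ (2 * e₁) * (r * (3 * eT + 23 * er N ε' Rr eT)) ≤ 1) (hC : 0 ≤ C) (hC2 : C ^ 2 ≤ n ^ (2 * e₁))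
    {γ B δJ E : ℝ} {n' : ℕ} {a' : ℕ → ℕ} (ha : ∀ j ∈ S, j ≤ a' j ∧ a' j + n' ≤ d - gl + 1)
    (hpt : ∀ j ∈ S, avy ys (fun y => (n' : ℝ)⁻¹ * ∑ v ∈ range n', lJ μ s N γ B b0 b sg gl d j δJ M f (a' j + v) y) ≤
      avy ys (mR μ s N n' (fun v => one96 N (LJA μ s N (reg13 (j + b0 + b / 16) q lT b0 j dd) (a' j + v) (j - b) l k M) (d - gl) d) f) +
      avy ys (mR μ s N n' (fun v => one96 N (LJB μ s N (reg13 (j + b0 + b / 16) q lT b0 j dd) (a' j + v) (j - b) l k M) (d - gl) d) f) +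
      E) :
    Dec43 μ s N ys S r (n ^ (Θ - 2 * x)) f
      (fun j y => C * ((n' : ℝ)⁻¹ * ∑ v ∈ range n', lJ μ s N γ B b0 b sg gl d j δJ M f (a' j + v) y)) 2 (C * E) := by
  have hdN := H.dN
  have hq1 : 1 ≤ q := H.k1.trans hkq
  have k3 : 3 * (k : ℝ) ≤ (N : ℝ) ^ κp := by
    have : (k : ℝ) ≤ q := by exact_mod_cast hkq
    linarith
  have own : 6 * k * (l + 1) ≤ 2 * b0 := by
    have h1 := H.kl
    have h2 : 6 * k * (l + 1) = 2 * (3 * k * (l + 1)) := by ring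
    omega
  have nm : S.Nonempty → ∀ u < n', Nm50 μ s S N (d - gl) d b0 b lT l q k (fun j => a' j + u) θ κp M Rr dd := fun hS u hu => by
    obtain ⟨j₀, hj₀⟩ := hS
    obtain ⟨g1, g2, g3, g4, g5, g6, g7, g8, g9, g10, -⟩ := geoJ45 (H.geo j₀ hj₀)
    have hb0 := (H.geo j₀ hj₀).b0p
    refine ⟨⟨hq1, hb0, g1, T.fit, hll, by omega, fun j hj => (geoJ45 (H.geo j hj)).2.1, fun j hj => ?_, fun j hj => ?_, fun j hj => ?_⟩,
      by omega, T.lθ, T.R1, fun i _ hi => T.Rw i hi, q3, k3, M7, hdd, by omega, hdN, ?_⟩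
    · obtain ⟨_, _, h3, h4, _, _, _, _, h9, _, _⟩ := geoJ45 (H.geo j hj)
      omega
    · have := (ha j hj).1
      omega
    · have := (ha j hj).2
      omega
    · rw [H.zd]
      exact H.gθ
  refine dJ45 H (tl_mono45 T hkq) X hC hC2 P.e0 he n' (fun j => reg13 (j + b0 + b / 16) q lT b0 j dd) (fun u j => a' j + u)
    (fun u hu j hj k' hk' => tieA13 P H.ne (nm ⟨j, hj⟩ u hu) j hj k' hk')
    (fun u hu j hj k' hk' => tieB13 P H.ne (nm ⟨j, hj⟩ u hu) j hj k' hk') fun j hj => ?_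
  have h1 := mul_le_mul_of_nonneg_left (hpt j hj) hC
  have e1 : avy ys (fun y => C * ((n' : ℝ)⁻¹ * ∑ v ∈ range n', lJ μ s N γ B b0 b sg gl d j δJ M f (a' j + v) y)) =
      C * avy ys (fun y => (n' : ℝ)⁻¹ * ∑ v ∈ range n', lJ μ s N γ B b0 b sg gl d j δJ M f (a' j + v) y) := avy_mul _ _ _
  have e2 : avy ys (fun y =>
      C * mR μ s N n' (fun v => one96 N (LJA μ s N (reg13 (j + b0 + b / 16) q lT b0 j dd) (a' j + v) (j - b) l k M) (d - gl) d) f y +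
      C * mR μ s N n' (fun v => one96 N (LJB μ s N (reg13 (j + b0 + b / 16) q lT b0 j dd) (a' j + v) (j - b) l k M) (d - gl) d) f y) =
      C * avy ys (mR μ s N n' (fun v => one96 N (LJA μ s N (reg13 (j + b0 + b / 16) q lT b0 j dd) (a' j + v) (j - b) l k M) (d - gl) d) f) +
      C * avy ys (mR μ s N n' (fun v => one96 N (LJB μ s N (reg13 (j + b0 + b / 16) q lT b0 j dd) (a' j + v) (j - b) l k M) (d - gl) d) f) := by
    rw [avy_add, avy_mul, avy_mul]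
  rw [e1]
  refine h1.trans (le_of_eq ?_)
  rw [mul_add, mul_add]
  exact congrArg (fun t => t + C * E) e2.symm

end Dc

end

end Pool.Agent.W_7d29a1_C0.E2JS45
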