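import Pool.Agent.W_7d29a1_C0.E2I34

/-!
MP_7d29a1_pr, [CURV0] / [C0], section E2 (helper34): **THE FAR LINES OF E2**, part 5: general keys, and the near slabs of part L. `lfo34`: the
far functional for a general key (`LFO` of helper65: macro slabs of L, boxes of `x 2`, `x 0`). `exch34`: the exchange of the new path `v`
given `q (x 2)` with `x 2`. `nearL34`: boxes of `x 2`, `x 1` only: either `v` is far from all the own paths, or it is near `x 0` and then,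
after the exchange, `x 2` and `x 1` are both far from `{v, x 0}`.
-/

set_option autoImplicit false
set_option linter.unusedSectionVars false
set_option linter.unusedVariables false

namespace Pool.Agent.W_7d29a1_C0.E2F34

open Finset MeasureTheory Filter Topology Pool.Agent.W_7d29a1_F Pool.Agent.W_7d29a1_X Pool.Agent.W_7d29a1_H
open Pool.Agent.W_7d29a1_HS (In)
open Pool.Agent.W_7d29a1_HZ (wd' EE')
open Pool.Agent.W_7d29a1_C0 Pool.Agent.W_7d29a1_C0.Mod92 Pool.Agent.W_7d29a1_C0.Swap57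
open Pool.Agent.W_7d29a1_C0.F13
open Pool.Agent.W_7d29a1_C0.Far34 (nfl nfl_nonneg Fl vv)
open Pool.Agent.W_7d29a1_C0.MicE14 (rh rh_nonneg mi p_eq)
open Pool.Agent.W_7d29a1_C0.CutE14 (P3 ev_P3)
open Pool.Agent.W_7d29a1_C0.Bri36 (PP_eq_gm)
open Pool.W7d29a1.C0
open Pool.W7d29a1.C0.VT31
open Pool.W7d29a1.C0.C45 (wu meas_wu ev_P2)
open Pool.W7d29a1.C0.H7 (meas_evP)
open Pool.W7d29a1.C0.I52 (Plan ev ev_mono ev_mono' ev_nonneg ev_smul ev_add ev_congr ev_cons ev_nil gm_eq_av cE_eq_av wt)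

noncomputable section

/-! ### Finite averages -/

section Fin

variable {X : Type*} [Fintype X] [DecidableEq X]

theorem av_comm34 (w : X → ℝ) (A B : Finset X) (F : X → X → ℝ) :
    I52.av w A (fun u => I52.av w B (F u)) = I52.av w B fun v => I52.av w A fun u => F u v := by
  unfold I52.av
  simp only [Finset.mul_sum]
  rw [Finset.sum_comm]
  exact Finset.sum_congr rfl fun v _ => Finset.sum_congr rfl fun u _ => by ring

variable [Nonempty X]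

/-- The exchange of a path and of the path drawn in its fibre. -/
theorem gm_exch34 {Y : Type*} [DecidableEq Y] (w : X → ℝ) (q : X → Y) (Φ : X → X → ℝ) :
    gm w (fun a => cE w q (Φ a) a) = gm w fun v => cE w q (fun a => Φ a v) v := by
  simp only [gm_eq_av, cE_eq_av, I52.av_eq, I52.zs]
  congr 1
  have e : ∀ F : X → X → ℝ, ∑ a, Real.exp (w a) * ((∑ v ∈ univ.filter (fun s => q s = q a), Real.exp (w v) * F a v) /
      ∑ v ∈ univ.filter (fun s => q s = q a), Real.exp (w v)) =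
      ∑ a, ∑ v, if q v = q a then Real.exp (w a) * (Real.exp (w v) * F a v / ∑ u ∈ univ.filter (fun s => q s = q a), Real.exp (w u)) else 0 :=
    fun F => by
      refine Finset.sum_congr rfl fun a _ => ?_
      rw [Finset.sum_div, Finset.mul_sum, Finset.sum_filter]
  rw [e, e, Finset.sum_comm]
  refine Finset.sum_congr rfl fun a _ => Finset.sum_congr rfl fun v _ => ?_
  by_cases h : q a = q v
  · rw [if_pos h, if_pos h.symm, h]
    ring
  · rw [if_neg h, if_neg fun h' => h h'.symm]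

/-- **The exchange** of the new path with the base path, in the plans. -/
theorem exch34 {Y Y' : Type*} [DecidableEq Y] [DecidableEq Y'] (w : X → ℝ) (p : X → Y) (q : X → Y') (Θ : X → X → X → X → ℝ) :
    ev (P3 p) w (fun x => cE w q (fun v => Θ (x 2) (x 1) (x 0) v) (x 2)) =
      ev ((((Plan.nil.fr).fr).gi q 1).gi p 0) w fun z => Θ (z 1) (z 0) (z 2) (z 3) := by
  have h1 : ev (P3 p) w (fun x => cE w q (fun v => Θ (x 2) (x 1) (x 0) v) (x 2)) =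
      gm w fun a => cE w p (fun b => gm w fun c => cE w q (Θ a b c) a) a :=
    ev_P3 p w fun a b c => cE w q (Θ a b c) a
  have h2 : ev ((((Plan.nil.fr).fr).gi q 1).gi p 0) w (fun z => Θ (z 1) (z 0) (z 2) (z 3)) =
      ev (((Plan.nil.fr).fr).gi q 1) w fun x => cE w p (fun b => Θ (x 0) b (x 1) (x 2)) (x 0) := by
    unfold Plan.gi
    rw [ev_cons]
    refine ev_congr _ _ fun x => ?_
    rw [cE_eq_av]
    rfl
  have h3 : ev (((Plan.nil.fr).fr).gi q 1) w (fun x => cE w p (fun b => Θ (x 0) b (x 1) (x 2)) (x 0)) =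
      ev ((Plan.nil.fr).fr) w fun x => cE w q (fun a => cE w p (fun b => Θ a b (x 0) (x 1)) a) (x 1) := by
    unfold Plan.gi
    rw [ev_cons]
    refine ev_congr _ _ fun x => ?_
    rw [cE_eq_av]
    rfl
  have h4 : ev ((Plan.nil.fr).fr) w (fun x => cE w q (fun a => cE w p (fun b => Θ a b (x 0) (x 1)) a) (x 1)) =
      gm w fun v => gm w fun c => cE w q (fun a => cE w p (fun b => Θ a b c v) a) v := by
    rw [ev_P2 w fun v c => cE w q (fun a => cE w p (fun b => Θ a b c v) a) v, PP_eq_gm]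
  rw [h1, h2, h3, h4]
  have h5 : ∀ v, gm w (fun c => cE w q (fun a => cE w p (fun b => Θ a b c v) a) v) =
      cE w q (fun a => gm w fun c => cE w p (fun b => Θ a b c v) a) v := fun v => by
    simp only [gm_eq_av, cE_eq_av]
    exact av_comm34 _ _ _ _
  have h6 : ∀ a, cE w p (fun b => gm w fun c => cE w q (Θ a b c) a) a =
      cE w q (fun v => gm w fun c => cE w p (fun b => Θ a b c v) a) a := fun a => by
    simp only [gm_eq_av, cE_eq_av]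
    have e1 : ∀ b, I52.av w univ (fun c => I52.av w (univ.filter fun s => q s = q a) (Θ a b c)) =
        I52.av w (univ.filter fun s => q s = q a) fun v => I52.av w univ fun c => Θ a b c v := fun b => av_comm34 _ _ _ _
    simp only [e1]
    rw [av_comm34]
    refine congrArg (I52.av _ _) (funext fun v => ?_)
    exact av_comm34 _ _ _ _
  simp only [h5, h6]
  exact gm_exch34 w q fun a v => gm w fun c => cE w p (fun b => Θ a b c v) a

end Fin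

/-! ### One line, for a general key -/

variable {μ : Measure ℝ} {s : ℝ} {N y : ℕ}

theorem line_wS [Nonempty (Px (Pn N y))] {k : ℕ} {P : Plan (Px (Pn N y)) (k + 1)} (hP : BP N y P) (w : Px (Pn N y) → ℝ) {c d : ℕ}
    {Ψ : (Fin (k + 1) → Px (Pn N y)) → ℝ} {Λ : ℝ} (Ψ0 : ∀ x, 0 ≤ Ψ x) (Ψ1 : ∀ x, Ψ x ≤ Λ)
    {J o : (Fin (k + 1) → Px (Pn N y)) → Px (Pn N y) → ℝ} {n : Px (Pn N y) → ℝ} (n0 : ∀ S, 0 ≤ n S)
    (ho : ∀ x, wt P w x ≠ 0 → ∀ v, o x v ≤ J x v + (∑ i, n (x i) + n v)) (l : Fin (k + 1)) :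
    ev P w (fun x => Ψ x * cE w (pJ c d) (o x) (x l)) ≤
      ev P w (fun x => Ψ x * cE w (pJ c d) (J x) (x l)) + Λ * ((k + 2) * gm w n) := by
  classical
  obtain ⟨o', ho'⟩ : ∃ o' : (Fin (k + 1) → Px (Pn N y)) → Px (Pn N y) → ℝ, o' = fun x v => if wt P w x ≠ 0 then o x v else
      J x v := ⟨_, rfl⟩
  have e1 : ev P w (fun x => Ψ x * cE w (pJ c d) (o x) (x l)) ≤ ev P w (fun x => Ψ x * cE w (pJ c d) (o' x) (x l)) :=
    ev_mono' P w fun x hx => by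
      have e : o' x = o x := by
        rw [ho']
        funext v
        exact if_pos hx
      rw [e]
  refine e1.trans (line_w hP w Ψ0 Ψ1 n0 (fun x v => ?_) l)
  rw [ho']
  by_cases hx : wt P w x ≠ 0
  · simp only [if_pos hx]
    exact ho x hx v
  · simp only [if_neg hx]
    have h1 : 0 ≤ ∑ i, n (x i) := Finset.sum_nonneg fun i _ => n0 _
    have h2 := n0 v
    linarith

/-- **A new replica which leaves the tubes**: the price, for a general key. -/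
theorem FarG.lineS [IsProbabilityMeasure μ] [Nonempty (Px (Pn N y))] {u : Finset ℕ → Env → Px (Pn N y) → ℝ} {δ : ℝ} {t τ k : ℕ}
    {P : Plan (Px (Pn N y)) (k + 1)} {c d : ℕ} {l : Fin (k + 1)} {G e : ℝ} (hG : FarG μ s u δ t τ P c d l G e) (hP : BP N y P)
    (hum : ∀ S, Measurable fun ω : Env × Finset ℕ => u ω.2 ω.1 S) {Ψ : Env × Finset ℕ → (Fin (k + 1) → Px (Pn N y)) → ℝ} {Λ : ℝ}
    (hΛ : 0 < Λ) (mΨ : ∀ x, Measurable fun ω => Ψ ω x) (Ψ0 : ∀ ω x, 0 ≤ Ψ ω x) (Ψ1 : ∀ ω x, Ψ ω x ≤ Λ)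
    (hbl : ∀ (A : Finset ℕ) (η : Env) (q : Pt) (v : ℝ), 0 ≤ q.1 → q.1.toNat ∈ rowsB false N t τ →
      Ψ (Function.update η q v, A) = Ψ (η, A)) {o B : (Fin (k + 1) → Px (Pn N y)) → Px (Pn N y) → ℝ} {n : Px (Pn N y) → ℝ}
    (n0 : ∀ S, 0 ≤ n S) (n1 : ∀ S, n S ≤ 1) (ho : ∀ w x, wt P w x ≠ 0 → ∀ v, o x v ≤ (fI μ s δ t τ x v + B x v) + (∑ i, n (x i) + n v))
    (o0 : ∀ x v, 0 ≤ o x v) (B0 : ∀ x v, 0 ≤ B x v) (B1 : ∀ x v, B x v ≤ 1)
    {e0 : ℝ} (hn : ∫ ω, gm (wu μ s N (Pn N y) u ω) n ∂(Pm μ N) ≤ e0) :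
    ∫ ω, ev P (wu μ s N (Pn N y) u ω) (fun x => Ψ ω x * cE (wu μ s N (Pn N y) u ω) (pJ c d) (o x) (x l)) ∂(Pm μ N) ≤
      G * ∫ ω, ev P (wu μ s N (Pn N y) u ω) (Ψ ω) ∂(Pm μ N) +
        ∫ ω, ev P (wu μ s N (Pn N y) u ω) (fun x => Ψ ω x * cE (wu μ s N (Pn N y) u ω) (pJ c d) (B x) (x l)) ∂(Pm μ N) +
        Λ * (e + (k + 2) * e0) := by
  have mw : ∀ S, Measurable fun ω : Env × Finset ℕ => wu μ s N (Pn N y) u ω S := meas_wu hum
  have h1 := hG.pm hum hΛ mΨ Ψ0 Ψ1 hbl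
  have cc : ∀ {H : (Fin (k + 1) → Px (Pn N y)) → Px (Pn N y) → ℝ}, (∀ x v, 0 ≤ H x v) → (∀ x v, H x v ≤ 1) →
      Integrable (fun ω => ev P (wu μ s N (Pn N y) u ω) (fun x =>
        Ψ ω x * cE (wu μ s N (Pn N y) u ω) (pJ c d) (H x) (x l))) (Pm μ N) := fun {H} H0 H1 => by
    have c0 : ∀ (w : Px (Pn N y) → ℝ) x, 0 ≤ cE w (pJ c d) (H x) (x l) := fun w x => cE_nonneg _ _ (H0 x) _
    have c1 : ∀ (w : Px (Pn N y) → ℝ) x, cE w (pJ c d) (H x) (x l) ≤ 1 := fun w x =>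
      (cE_mono w (pJ c d) (g := fun _ => 1) (H1 x) (x l)).trans (congrFun (cE_one w (pJ c d)) (x l)).le
    exact int_bdd (M := Λ) (meas_evP mw P fun x => (mΨ x).mul (meas_cE mw (f := fun _ => H x) (fun _ => measurable_const) _ _))
      fun ω => abs_ev_le P _ (fun x => mul_nonneg (Ψ0 ω x) (c0 _ x)) fun x => (mul_le_of_le_one_right (Ψ0 ω x) (c1 _ x)).trans (Ψ1 ω x)
  have i1 := cc (H := fI μ s δ t τ) fI_nonneg fI_le_one
  have i3 := cc B0 B1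
  have i2 : Integrable (fun ω => gm (wu μ s N (Pn N y) u ω) n) (Pm μ N) :=
    int_bdd (M := 1) (meas_gm mw fun S => measurable_const) fun ω => by
      rw [abs_of_nonneg (gm_nonneg _ n0)]
      exact (gm_mono _ (g := fun _ => 1) n1).trans (gm_const _ _).le
  obtain ⟨j1, j2⟩ := int3_34 i1 i3 i2 1 1 (Λ * (k + 2))
  have h2 : ∫ ω, ev P (wu μ s N (Pn N y) u ω) (fun x => Ψ ω x * cE (wu μ s N (Pn N y) u ω) (pJ c d) (o x) (x l)) ∂(Pm μ N) ≤
      ∫ ω, (1 * ev P (wu μ s N (Pn N y) u ω) (fun x => Ψ ω x * cE (wu μ s N (Pn N y) u ω) (pJ c d) (fI μ s δ t τ x) (x l)) +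
        (1 * ev P (wu μ s N (Pn N y) u ω) (fun x => Ψ ω x * cE (wu μ s N (Pn N y) u ω) (pJ c d) (B x) (x l)) +
        Λ * (k + 2) * gm (wu μ s N (Pn N y) u ω) n)) ∂(Pm μ N) := by
    refine integral_mono_of_nonneg (Filter.Eventually.of_forall fun ω => ev_nonneg P _ fun x =>
      mul_nonneg (Ψ0 ω x) (cE_nonneg _ _ (o0 x) _)) j1 (Filter.Eventually.of_forall fun ω => ?_)
    have h3 := line_wS hP (wu μ s N (Pn N y) u ω) (c := c) (d := d) (Ψ0 ω) (Ψ1 ω) n0 (ho _) l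
    have e1 : ∀ x, Ψ ω x * cE (wu μ s N (Pn N y) u ω) (pJ c d) (fun v => fI μ s δ t τ x v + B x v) (x l) =
        Ψ ω x * cE (wu μ s N (Pn N y) u ω) (pJ c d) (fI μ s δ t τ x) (x l) +
          Ψ ω x * cE (wu μ s N (Pn N y) u ω) (pJ c d) (B x) (x l) := fun x => by
      rw [← mul_add]
      congr 1
      have e2 : (fun v => fI μ s δ t τ x v + B x v) = fI μ s δ t τ x + B x := rfl
      rw [e2, cE_add, Pi.add_apply]
    rw [ev_congr _ _ e1, ev_add] at h3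
    refine h3.trans (le_of_eq ?_)
    ring
  rw [j2] at h2
  have h3 : Λ * (k + 2) * ∫ ω, gm (wu μ s N (Pn N y) u ω) n ∂(Pm μ N) ≤ Λ * (k + 2) * e0 :=
    mul_le_mul_of_nonneg_left hn (by positivity)
  have e1 : Λ * (e + (k + 2) * e0) = Λ * e + Λ * (k + 2) * e0 := by ring
  rw [e1]
  linarith

/-! ### The near slabs of part L -/

/-- Two free replicas: `x 1` first, `x 0` second. -/
def P2f (X : Type*) [Fintype X] [DecidableEq X] [Nonempty X] : Plan X 2 := (Plan.nil.fr).fr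

/-- The plan of the exchanged paths: `v = x 2`, `c = x 1` free, `a = x 0` given `q v`. -/
def Pq {X Y : Type*} [Fintype X] [DecidableEq X] [Nonempty X] [DecidableEq Y] (q : X → Y) : Plan X 3 := (P2f X).gi q 1

theorem Pq_mem {X Y Y' : Type*} [Fintype X] [DecidableEq X] [Nonempty X] [DecidableEq Y] [DecidableEq Y'] {q : X → Y} {p : X → Y'}
    {w : X → ℝ} {z : Fin 4 → X} (h : wt ((Pq q).gi p 0) w z ≠ 0) : p (z 0) = p (z 1) ∧ q (z 1) = q (z 3) := by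
  have h1 : z 0 ∈ univ.filter fun s => p s = p (z 1) := I52.mem_of_wt ((Pq q).gi p 0) w z h 0
  have h2 : z 1 ∈ univ.filter fun s => q s = q (z 3) := I52.mem_of_wt ((Pq q).gi p 0) w z h 1
  exact ⟨(mem_filter.1 h1).2, (mem_filter.1 h2).2⟩

variable [Nonempty (Px (Pn N y))]

/-- **The near line of part L, for one condition `q`**: `v` is drawn given `q (x 2)`, boxes of `x 2`, `x 1` only. -/
theorem nearL34 [IsProbabilityMeasure μ] {u : Finset ℕ → Env → Px (Pn N y) → ℝ} {δ δ2 δ3 : ℝ} {t τ t2 τ2 c d c' d' d0 z cc : ℕ}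
    {G G2 G3 e e0 el F : ℝ} (hcd : c ≤ d) (hd : d ≤ N) (hcd' : c' ≤ d') (hd' : d' ≤ N)
    (g1 : FarG μ s u δ t τ (P3 (pJ c d)) c' d' 2 G e) (g3 : FarG μ s u δ3 t τ (P2f (Px (Pn N y))) c' d' 1 G3 e)
    (g2 : FarG μ s u δ2 t2 τ2 (Pq (pJ c' d')) c d 0 G2 e) (hG2 : 0 ≤ G2)
    (hum : ∀ S, Measurable fun ω : Env × Finset ℕ => u ω.2 ω.1 S)
    {I : Px (Pn N y) → Px (Pn N y) → ℝ} (I0 : ∀ S S', 0 ≤ I S S') (I1 : ∀ S S', I S S' ≤ 1)
    {f : Env × Finset ℕ → Px (Pn N y) → ℝ} (hf : Sf d0 F f) (hF : 0 < F) (hτ : τ + t / 4 ≤ d0 + 1) (hτ2 : τ2 + t2 / 4 ≤ d0 + 1)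
    (hmp : ∀ ω S, Mp (pJ c' d') fun S' => rh z cc (f ω) S' S)
    {O B : (Fin 3 → Px (Pn N y)) → Px (Pn N y) → ℝ} (O0 : ∀ x v, 0 ≤ O x v) (B0 : ∀ x v, 0 ≤ B x v) (B1 : ∀ x v, B x v ≤ 1)
    {n : Px (Pn N y) → ℝ} (n0 : ∀ S, 0 ≤ n S) (n1 : ∀ S, n S ≤ 1)
    (ho : ∀ x, pJ c d (x 1) = pJ c d (x 2) → ∀ v, O x v ≤ (fI μ s δ t τ x v + B x v) + (∑ i, n (x i) + n v))
    (hn : ∫ ω, gm (wu μ s N (Pn N y) u ω) n ∂(Pm μ N) ≤ e0)
    {cl : Px (Pn N y) → Px (Pn N y) → ℝ} (l0 : ∀ a b, 0 ≤ cl a b) (l1 : ∀ a b, cl a b ≤ 1)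
    (hcl : ∫ ω, gm (wu μ s N (Pn N y) u ω) (fun a => cE (wu μ s N (Pn N y) u ω) (pJ c d) (cl a) a) ∂(Pm μ N) ≤ el)
    (hB : ∀ a b c₁ v, pJ c d b = pJ c d a → pJ c' d' a = pJ c' d' v →
      I a b * B ![c₁, b, a] v ≤ fI μ s δ3 t τ ![c₁, v] a * fI μ s δ2 t2 τ2 ![a, c₁, v] b + cl a b) :
    ∫ ω, ev (P3 (pJ c d)) (wu μ s N (Pn N y) u ω) (fun x => Ob34 I z cc (f ω) x *
        cE (wu μ s N (Pn N y) u ω) (pJ c' d') (O x) (x 2)) ∂(Pm μ N) ≤
      G * ∫ ω, PP (wu μ s N (Pn N y) u ω) (fun x x' => mi (wu μ s N (Pn N y) u ω) (pJ c d) I x * rh z cc (f ω) x x') ∂(Pm μ N) +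
        G2 * G3 * ∫ ω, PP (wu μ s N (Pn N y) u ω) (fun x x' => rh z cc (f ω) x x') ∂(Pm μ N) +
        2 * F * ((2 + G2) * e + 4 * e0 + el) := by
  have mw : ∀ S, Measurable fun ω : Env × Finset ℕ => wu μ s N (Pn N y) u ω S := meas_wu hum
  have hP := bp_P3 (N := N) (y := y) hcd hd
  have hP2 : BP N y (P2f (Px (Pn N y))) := (BP.nil.fr).fr
  have hPq : BP N y (Pq (pJ (Q := Pn N y) c' d')) := hP2.gi hcd' hd' 1
  have hΛ : 0 < 2 * F := by positivity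
  have b0 : ∀ ω x, 0 ≤ Ob34 I z cc (f ω) x := fun ω x => Ob_nonneg I0 _ x
  have b1 : ∀ ω x, Ob34 I z cc (f ω) x ≤ 2 * F := fun ω x => Ob_le I1 (hf.bdd ω) x
  have bm : ∀ x, Measurable fun ω => Ob34 I z cc (f ω) x := fun x => Ob_meas hf x
  have bb : ∀ (A : Finset ℕ) (η : Env) (q : Pt) (v : ℝ), 0 ≤ q.1 → q.1.toNat ∈ rowsB false N t τ →
      Ob34 I z cc (f (Function.update η q v, A)) = Ob34 I z cc (f (η, A)) := fun A η q v h0 hq => by
    rw [hf.upd hτ A η q v h0 hq]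
  have rm : ∀ x x', Measurable fun ω => rh z cc (f ω) x x' := fun x x' => ((hf.meas x).sub (hf.meas x')).abs.mul_const _
  have l1' := g1.lineS hP hum hΛ bm b0 b1 bb n0 n1 (fun w x hx v => ho x (p_eq hx) v) O0 B0 B1 hn
  -- the near case: exchange
  obtain ⟨Θ, hΘ⟩ : ∃ Θ : Env × Finset ℕ → Px (Pn N y) → Px (Pn N y) → Px (Pn N y) → Px (Pn N y) → ℝ,
    Θ = fun ω a b c₁ v => I a b * rh z cc (f ω) a c₁ * B ![c₁, b, a] v := ⟨_, rfl⟩
  have e1 : ∀ ω, ev (P3 (pJ c d)) (wu μ s N (Pn N y) u ω) (fun x => Ob34 I z cc (f ω) x *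
        cE (wu μ s N (Pn N y) u ω) (pJ c' d') (B x) (x 2)) =
      ev ((Pq (pJ c' d')).gi (pJ c d) 0) (wu μ s N (Pn N y) u ω) fun z => Θ ω (z 1) (z 0) (z 2) (z 3) := fun ω => by
    have h1 := exch34 (wu μ s N (Pn N y) u ω) (pJ c d) (pJ c' d') (Θ ω)
    rw [show (Pq (pJ (Q := Pn N y) c' d')).gi (pJ c d) 0 = (((Plan.nil.fr).fr).gi (pJ c' d') 1).gi (pJ c d) 0 from rfl, ← h1]
    refine ev_congr _ _ fun x => ?_
    have h2 : (fun v => Θ ω (x 2) (x 1) (x 0) v) = fun v => Ob34 I z cc (f ω) x * B x v := by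
      funext v
      rw [hΘ]
      unfold Ob34
      have e3 : (![x 0, x 1, x 2] : Fin 3 → Px (Pn N y)) = x := by
        funext i
        fin_cases i <;> rfl
      show I (x 2) (x 1) * rh z cc (f ω) (x 2) (x 0) * B ![x 0, x 1, x 2] v = _
      rw [e3]
    rw [h2, cE_mulc]
  obtain ⟨X, hX⟩ : ∃ X : Env × Finset ℕ → (Fin 3 → Px (Pn N y)) → ℝ,
    X = fun ω x => rh z cc (f ω) (x 2) (x 1) * fI μ s δ3 t τ (Fin.tail x) (x 0) := ⟨_, rfl⟩
  have X0 : ∀ ω x, 0 ≤ X ω x := fun ω x => by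
    rw [hX]
    exact mul_nonneg (rh_nonneg _ _ _) (fI_nonneg _ _)
  have X1 : ∀ ω x, X ω x ≤ 2 * F := fun ω x => by
    rw [hX]
    calc rh z cc (f ω) (x 2) (x 1) * fI μ s δ3 t τ (Fin.tail x) (x 0) ≤ 2 * F * 1 :=
          mul_le_mul (rh_le34 (hf.bdd ω) _ _) (fI_le_one _ _) (fI_nonneg _ _) hΛ.le
      _ = 2 * F := mul_one _
  have mX : ∀ x, Measurable fun ω => X ω x := fun x => by
    rw [hX]
    exact (rm _ _).mul_const _
  have pt : ∀ ω, ev ((Pq (pJ c' d')).gi (pJ c d) 0) (wu μ s N (Pn N y) u ω) (fun z => Θ ω (z 1) (z 0) (z 2) (z 3)) ≤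
      1 * ev (Pq (pJ c' d')) (wu μ s N (Pn N y) u ω) (fun x => X ω x * cE (wu μ s N (Pn N y) u ω) (pJ c d) (fI μ s δ2 t2 τ2 x) (x 0)) +
        (2 * F * gm (wu μ s N (Pn N y) u ω) (fun a => cE (wu μ s N (Pn N y) u ω) (pJ c d) (cl a) a) + 0 * 0) := fun ω => by
    set w := wu μ s N (Pn N y) u ω
    have h1 : ev ((Pq (pJ c' d')).gi (pJ c d) 0) w (fun z => Θ ω (z 1) (z 0) (z 2) (z 3)) ≤
        ev ((Pq (pJ c' d')).gi (pJ c d) 0) w (fun z => X ω (Fin.tail z) * fI μ s δ2 t2 τ2 (Fin.tail z) (z 0) +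
          2 * F * cl (Fin.tail z 0) (z 0)) := ev_mono' _ _ fun x hx => by
      obtain ⟨h2, h3⟩ := Pq_mem hx
      have h4 := hB (x 1) (x 0) (x 2) (x 3) h2 h3
      have h5 : rh z cc (f ω) (x 1) (x 2) = rh z cc (f ω) (x 3) (x 2) := hmp ω (x 2) _ _ h3
      have h6 : Θ ω (x 1) (x 0) (x 2) (x 3) = rh z cc (f ω) (x 3) (x 2) * (I (x 1) (x 0) * B ![x 2, x 0, x 1] (x 3)) := by
        rw [hΘ]
        beta_reduce
        rw [h5]
        ring
      have h7 : X ω (Fin.tail x) = rh z cc (f ω) (x 3) (x 2) * fI μ s δ3 t τ (Fin.tail (Fin.tail x)) (x 1) := by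
        rw [hX]
        rfl
      have e2 : (Fin.tail (Fin.tail x) : Fin 2 → Px (Pn N y)) = ![x 2, x 3] := by
        funext i
        fin_cases i <;> rfl
      have e3 : (Fin.tail x : Fin 3 → Px (Pn N y)) = ![x 1, x 2, x 3] := by
        funext i
        fin_cases i <;> rfl
      have e4 : Fin.tail x 0 = x 1 := rfl
      rw [h6, h7, e2, e3]
      have h8 := rh_le34 (z := z) (c := cc) (hf.bdd ω) (x 3) (x 2)
      have h9 : 0 ≤ rh z cc (f ω) (x 3) (x 2) := rh_nonneg _ _ _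
      have h10 := l0 (x 1) (x 0)
      calc rh z cc (f ω) (x 3) (x 2) * (I (x 1) (x 0) * B ![x 2, x 0, x 1] (x 3)) ≤
            rh z cc (f ω) (x 3) (x 2) * (fI μ s δ3 t τ ![x 2, x 3] (x 1) * fI μ s δ2 t2 τ2 ![x 1, x 2, x 3] (x 0) + cl (x 1) (x 0)) :=
            mul_le_mul_of_nonneg_left h4 h9
        _ = rh z cc (f ω) (x 3) (x 2) * fI μ s δ3 t τ ![x 2, x 3] (x 1) * fI μ s δ2 t2 τ2 ![x 1, x 2, x 3] (x 0) +
            rh z cc (f ω) (x 3) (x 2) * cl (x 1) (x 0) := by ring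
        _ ≤ _ := add_le_add le_rfl (mul_le_mul_of_nonneg_right h8 h10)
    refine h1.trans (le_of_eq ?_)
    rw [ev_add]
    have h2 := ev_gi34 (Pq (pJ (Q := Pn N y) c' d')) w (pJ c d) 0 fun x v => X ω x * fI μ s δ2 t2 τ2 x v
    have h3 := ev_gi34 (Pq (pJ (Q := Pn N y) c' d')) w (pJ c d) 0 fun x v => 2 * F * cl (x 0) v
    rw [h2, h3]
    have e2 : ∀ x : Fin 3 → Px (Pn N y), cE w (pJ c d) (fun v => X ω x * fI μ s δ2 t2 τ2 x v) (x 0) =
        X ω x * cE w (pJ c d) (fI μ s δ2 t2 τ2 x) (x 0) := fun x => cE_mulc _ _ _ _ _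
    have e3 : ∀ x : Fin 3 → Px (Pn N y), cE w (pJ c d) (fun v => 2 * F * cl (x 0) v) (x 0) =
        2 * F * cE w (pJ c d) (cl (x 0)) (x 0) := fun x => cE_mulc _ _ _ _ _
    rw [ev_congr _ _ e2, ev_congr _ _ e3, ev_smul]
    have e4 : ev (Pq (pJ (Q := Pn N y) c' d')) w (fun x => cE w (pJ c d) (cl (x 0)) (x 0)) =
        gm w fun a => cE w (pJ c d) (cl a) a := hPq.ev 0 w fun a => cE w (pJ c d) (cl a) a
    rw [e4]
    ring
  -- integrals
  have c0 : ∀ (w : Px (Pn N y) → ℝ) (x : Fin 3 → Px (Pn N y)), 0 ≤ cE w (pJ c d) (fI μ s δ2 t2 τ2 x) (x 0) := fun w x =>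
    cE_nonneg _ _ (fI_nonneg x) _
  have c1 : ∀ (w : Px (Pn N y) → ℝ) (x : Fin 3 → Px (Pn N y)), cE w (pJ c d) (fI μ s δ2 t2 τ2 x) (x 0) ≤ 1 := fun w x =>
    (cE_mono w (pJ c d) (g := fun _ => 1) (fI_le_one x) (x 0)).trans (congrFun (cE_one w (pJ c d)) (x 0)).le
  have i1 : Integrable (fun ω => ev (Pq (pJ c' d')) (wu μ s N (Pn N y) u ω) (fun x =>
      X ω x * cE (wu μ s N (Pn N y) u ω) (pJ c d) (fI μ s δ2 t2 τ2 x) (x 0))) (Pm μ N) :=
    int_bdd (M := 2 * F) (meas_evP mw _ fun x => (mX x).mul (meas_cE mw (f := fun _ => fI μ s δ2 t2 τ2 x) (fun _ => measurable_const) _ _))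
      fun ω => abs_ev_le _ _ (fun x => mul_nonneg (X0 ω x) (c0 _ x)) fun x => (mul_le_of_le_one_right (X0 ω x) (c1 _ x)).trans (X1 ω x)
  have i2 : Integrable (fun ω => gm (wu μ s N (Pn N y) u ω) (fun a => cE (wu μ s N (Pn N y) u ω) (pJ c d) (cl a) a)) (Pm μ N) :=
    int_bdd (M := 1) (meas_gm mw fun a => meas_cE mw (f := fun _ => cl a) (fun _ => measurable_const) _ _) fun ω => by
      rw [abs_of_nonneg (gm_nonneg _ fun a => cE_nonneg _ _ (l0 a) _)]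
      exact (gm_mono _ (g := fun _ => 1) fun a => (cE_mono _ (pJ c d) (g := fun _ => 1) (l1 a) a).trans
        (congrFun (cE_one _ (pJ c d)) a).le).trans (gm_const _ _).le
  obtain ⟨j1, j2⟩ := int3_34 i1 i2 (integrable_const (0 : ℝ)) 1 (2 * F) 0
  have s1 : ∫ ω, ev (P3 (pJ c d)) (wu μ s N (Pn N y) u ω) (fun x => Ob34 I z cc (f ω) x *
        cE (wu μ s N (Pn N y) u ω) (pJ c' d') (B x) (x 2)) ∂(Pm μ N) ≤
      ∫ ω, (1 * ev (Pq (pJ c' d')) (wu μ s N (Pn N y) u ω) (fun x => X ω x *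
          cE (wu μ s N (Pn N y) u ω) (pJ c d) (fI μ s δ2 t2 τ2 x) (x 0)) +
        (2 * F * gm (wu μ s N (Pn N y) u ω) (fun a => cE (wu μ s N (Pn N y) u ω) (pJ c d) (cl a) a) + 0 * 0)) ∂(Pm μ N) := by
    refine integral_mono_of_nonneg (Filter.Eventually.of_forall fun ω => ev_nonneg _ _ fun x =>
      mul_nonneg (b0 ω x) (cE_nonneg _ _ (B0 x) _)) j1 (Filter.Eventually.of_forall fun ω => ?_)
    beta_reduce
    rw [e1 ω]
    exact pt ω
  rw [j2] at s1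
  -- the two prices
  have p2 := g2.pm hum hΛ mX X0 X1 fun A η q v h0 hq => by
    rw [hX]
    beta_reduce
    rw [hf.upd hτ2 A η q v h0 hq]
  have p3 := g3.pm hum hΛ (Ψ := fun ω x => rh z cc (f ω) (x 1) (x 0)) (fun x => rm _ _) (fun ω x => rh_nonneg _ _ _)
    (fun ω x => rh_le34 (hf.bdd ω) _ _) fun A η q v h0 hq => by
    rw [hf.upd hτ A η q v h0 hq]
  have e5 : ∀ ω, ev (Pq (pJ c' d')) (wu μ s N (Pn N y) u ω) (X ω) = ev (P2f (Px (Pn N y))) (wu μ s N (Pn N y) u ω) fun x =>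
      rh z cc (f ω) (x 1) (x 0) * cE (wu μ s N (Pn N y) u ω) (pJ c' d') (fI μ s δ3 t τ x) (x 1) := fun ω => by
    have h2 := ev_gi34 (P2f (Px (Pn N y))) (wu μ s N (Pn N y) u ω) (pJ c' d') 1 fun x v =>
      rh z cc (f ω) (x 1) (x 0) * fI μ s δ3 t τ x v
    have h3 : ev (Pq (pJ c' d')) (wu μ s N (Pn N y) u ω) (X ω) = ev ((P2f (Px (Pn N y))).gi (pJ c' d') 1) (wu μ s N (Pn N y) u ω)
        fun z_1 => rh z cc (f ω) (Fin.tail z_1 1) (Fin.tail z_1 0) * fI μ s δ3 t τ (Fin.tail z_1) (z_1 0) := by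
      rw [hX]
      rfl
    rw [h3, h2]
    exact ev_congr _ _ fun x => cE_mulc _ _ _ _ _
  have e6 : ∀ ω, ev (P2f (Px (Pn N y))) (wu μ s N (Pn N y) u ω) (fun x => rh z cc (f ω) (x 1) (x 0)) =
      PP (wu μ s N (Pn N y) u ω) fun x x' => rh z cc (f ω) x x' := fun ω => ev_P2 _ fun x x' => rh z cc (f ω) x x'
  simp only [e5] at p2
  simp only [e6] at p3
  have e7 : ∀ ω, ev (P3 (pJ c d)) (wu μ s N (Pn N y) u ω) (Ob34 I z cc (f ω)) =
      PP (wu μ s N (Pn N y) u ω) fun x x' => mi (wu μ s N (Pn N y) u ω) (pJ c d) I x * rh z cc (f ω) x x' := fun ω => Ob_ev _ _ _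
  simp only [e7] at l1'
  have k1 := mul_le_mul_of_nonneg_left p3 hG2
  have k2 := mul_le_mul_of_nonneg_left hcl hΛ.le
  push_cast at l1'
  nlinarith

end

end Pool.Agent.W_7d29a1_C0.E2F34
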