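import Pool.Agent.W_7d29a1_C0.E2K34

/-!
MP_7d29a1_pr, [CURV0] / [C0], section E2 (helper34): **THE FAR LINES OF E2**, part 6: the geometry of the near slabs of part L. The key has the
boxes of `x 2`, `x 1` only. `nearB`: `v` is far from `x 2`, `x 1` and near `x 0`. `geoO34`: a path out of the tubes is far from all the own paths
or in the case `nearB`. `geoB34`: in the case `nearB`, after the exchange, `x 2` is far from `v`, `x 0`, and `x 1` is far from `x 2`, `v`, `x 0`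
(or the own pair is close).
-/

set_option autoImplicit false
set_option linter.unusedSectionVars false
set_option linter.unusedVariables false

namespace Pool.Agent.W_7d29a1_C0.E2F34

open Finset MeasureTheory Filter Topology Pool.Agent.W_7d29a1_F Pool.Agent.W_7d29a1_X Pool.Agent.W_7d29a1_H
open Pool.Agent.W_7d29a1_HS (In)
open Pool.Agent.W_7d29a1_HZ (wd' EE')
open Pool.Agent.W_7d29a1_C0 Pool.Agent.W_7d29a1_C0.Mod92 Pool.Agent.W_7d29a1_C0.Swap57
open Pool.Agent.W_7d29a1_C0.F13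
open Pool.Agent.W_7d29a1_C0.Far34 (nfl nfl_nonneg Fl vv vv_nonneg i1 i1_le i1_nonneg str_of_fl)
open Pool.W7d29a1.C0
open Pool.W7d29a1.C0.VT31
open Pool.W7d29a1.C0.T73 (OutB bx Str OutB_sep not_OutB pm pm_nat pm_nonneg pm_le JZ mem_JZ)

noncomputable section

variable {μ : Measure ℝ} {s : ℝ} {N y : ℕ}

/-- The far event from the distances at a row of the strip. -/
theorem farAt_row34 {δ : ℝ} {t τ k i : ℕ} (hi0 : τ ≤ i) (hi1 : i ≤ τ + t / 4) (hi : i ≤ N) {x : Fin (k + 1) → Px (Pn N y)}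
    {v : Px (Pn N y)} (h : ∀ m, (N : ℝ) ^ (-δ) * wd' μ s t ≤ |((ps v i - ps (x m) i : ℤ) : ℝ)|) : fI μ s δ t τ x v = 1 := by
  unfold fI
  refine if_pos ⟨i, hi0, hi1, hi, fun m => ?_⟩
  have h1 := h m
  rw [← Int.cast_abs] at h1
  exact h1

/-- The distance of two paths at a row. -/
def ds (i : ℕ) {Q : Finset (Finset ℕ)} (a b : Px Q) : ℝ := |((ps a i - ps b i : ℤ) : ℝ)|

theorem ds_symm (i : ℕ) {Q : Finset (Finset ℕ)} (a b : Px Q) : ds i a b = ds i b a := by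
  unfold ds
  rw [← abs_neg]
  congr 1
  push_cast
  ring

theorem ds_tri (i : ℕ) {Q : Finset (Finset ℕ)} (a b c : Px Q) : ds i a b ≤ ds i a c + ds i c b := by
  unfold ds
  have e : ((ps a i - ps b i : ℤ) : ℝ) = ((ps a i - ps c i : ℤ) : ℝ) + ((ps c i - ps b i : ℤ) : ℝ) := by
    push_cast
    ring
  rw [e]
  exact abs_add_le _ _

/-- **The near slabs of part L**: radius `R`, key row `k0`, own rows `[al, al + n]`, all of it within `H` rows of `τ + t / 4`. -/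
structure SlabL34 (μ : Measure ℝ) (s : ℝ) (N : ℕ) (ε2 : ℝ) (t τ : ℕ) (J : Finset ℕ) (R W : ℝ) (k0 L H nn al n : ℕ) : Prop where
  R1 : 1 ≤ R
  RL : ∀ k, 1 ≤ k → k ≤ L → vv μ s N ε2 k ≤ R
  JN : ∀ i ∈ J, i ≤ N
  kN : k0 ≤ N
  kn : k0 ≤ nn
  JL : ∀ i ∈ J, i - k0 ≤ L ∧ k0 - i ≤ L
  WH : ∀ k, k ≤ H → 2 * vv μ s N ε2 k ≤ W
  iN : τ + t / 4 ≤ N
  aN : al + n ≤ N
  JH : ∀ r ∈ J, r ≤ τ + t / 4 + H ∧ τ + t / 4 ≤ r + H
  JA : ∀ r ∈ J, ∀ k, al ≤ k → k ≤ al + n → r ≤ k + H ∧ k ≤ r + H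
  AH : ∀ k, al ≤ k → k ≤ al + n → k ≤ τ + t / 4 + H ∧ τ + t / 4 ≤ k + H
  Rt : 2 * wd' μ s t + 2 * W + wd' μ s (4 * n) ≤ R

variable {ε2 R W : ℝ} {t τ k0 L H nn al n : ℕ} {J : Finset ℕ}

open Classical in
/-- The case: `v` is near `x 0` at `τ + t / 4`, far from `x 2`, `x 1` there and on the own rows, all four paths flat. -/
def nearB (μ : Measure ℝ) (s : ℝ) (N : ℕ) (ε2 : ℝ) (t τ : ℕ) (R W : ℝ) (al n : ℕ) {y : ℕ} (x : Fin 3 → Px (Pn N y)) (v : Px (Pn N y)) : ℝ :=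
  if (Fl N (sl μ s) (vv μ s N ε2) (x 0) ∧ Fl N (sl μ s) (vv μ s N ε2) (x 1) ∧ Fl N (sl μ s) (vv μ s N ε2) (x 2) ∧
      Fl N (sl μ s) (vv μ s N ε2) v) ∧ ds (τ + t / 4) v (x 0) < wd' μ s t ∧
    ∀ i, (i = τ + t / 4 ∨ (al ≤ i ∧ i ≤ al + n)) → R - W ≤ ds i v (x 2) ∧ R - W ≤ ds i v (x 1) then 1 else 0

theorem nearB_nonneg (x : Fin 3 → Px (Pn N y)) (v : Px (Pn N y)) : 0 ≤ nearB μ s N ε2 t τ R W al n x v := by
  unfold nearB
  split_ifs <;> norm_num

theorem nearB_le_one (x : Fin 3 → Px (Pn N y)) (v : Px (Pn N y)) : nearB μ s N ε2 t τ R W al n x v ≤ 1 := by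
  unfold nearB
  split_ifs <;> norm_num

/-- **Out of the tubes of `x 2`, `x 1`**: far from all the own paths, or in the case `nearB`. -/
theorem geoO34 (hS : SlabL34 μ s N ε2 t τ J R W k0 L H nn al n) {δ : ℝ} (hδ : 0 ≤ δ) (hN : 1 ≤ N) (x : Fin 3 → Px (Pn N y))
    (v : Px (Pn N y)) {O : ℝ} (hO : O ≤ i1 (OutB pm (sl μ s) R (k0 : ℤ) (JZ J) (![bx pm R (k0 : ℤ) nn (x 2), bx pm R (k0 : ℤ) nn (x 1)]) v)) :
    O ≤ (fI μ s δ t τ x v + nearB μ s N ε2 t τ R W al n x v) + (∑ i, nfl N (sl μ s) (vv μ s N ε2) (x i) +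
      nfl N (sl μ s) (vv μ s N ε2) v) := by
  obtain ⟨σ, hσ⟩ : ∃ σ : ℝ, σ = sl μ s := ⟨_, rfl⟩
  obtain ⟨f, hf⟩ : ∃ f : ℕ → ℝ, f = vv μ s N ε2 := ⟨_, rfl⟩
  have n0 : ∀ S : Px (Pn N y), 0 ≤ nfl N σ f S := nfl_nonneg N σ f
  have f0 := fI_nonneg (μ := μ) (s := s) (δ := δ) (t := t) (τ := τ) x v
  have b0 := nearB_nonneg (μ := μ) (s := s) (ε2 := ε2) (t := t) (τ := τ) (R := R) (W := W) (al := al) (n := n) x v
  rw [← hσ, ← hf]
  rw [Fin.sum_univ_three]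
  refine hO.trans (i1_le (by linarith [n0 (x 0), n0 (x 1), n0 (x 2), n0 v]) fun ho => ?_)
  by_cases h0 : Fl N σ f (x 0)
  swap
  · have : nfl N σ f (x 0) = 1 := if_neg h0
    linarith [n0 (x 1), n0 (x 2), n0 v]
  by_cases h1 : Fl N σ f (x 1)
  swap
  · have : nfl N σ f (x 1) = 1 := if_neg h1
    linarith [n0 (x 0), n0 (x 2), n0 v]
  by_cases h2 : Fl N σ f (x 2)
  swap
  · have : nfl N σ f (x 2) = 1 := if_neg h2
    linarith [n0 (x 0), n0 (x 1), n0 v]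
  by_cases h3 : Fl N σ f v
  swap
  · have : nfl N σ f v = 1 := if_neg h3
    linarith [n0 (x 0), n0 (x 1), n0 (x 2)]
  have hv : 0 ≤ f 0 := by
    rw [hf]
    exact vv_nonneg _ _
  -- the distances
  have hx' : ∀ m : Fin 2, Fl N σ f ((![x 2, x 1] : Fin 2 → Px (Pn N y)) m) := fun m => by
    fin_cases m
    · exact h2
    · exact h1
  have hbx : (![bx pm R (k0 : ℤ) nn (x 2), bx pm R (k0 : ℤ) nn (x 1)] : Fin 2 → Fin (nn + 1)) =
      fun m => bx pm R (k0 : ℤ) nn ((![x 2, x 1] : Fin 2 → Px (Pn N y)) m) := by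
    funext m
    fin_cases m <;> rfl
  rw [hbx] at ho
  have sep : ∀ i, (i = τ + t / 4 ∨ (al ≤ i ∧ i ≤ al + n)) → R - W ≤ ds i v (x 2) ∧ R - W ≤ ds i v (x 1) := fun i hi => by
    have hiN : i ≤ N := by
      rcases hi with h | h
      · rw [h]
        exact hS.iN
      · exact h.2.trans hS.aN
    have hiH : ∀ r ∈ J, r ≤ i + H ∧ i ≤ r + H := fun r hr => by
      rcases hi with h | h
      · rw [h]
        exact hS.JH r hr
      · exact hS.JA r hr i h.1 h.2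
    have h4 := fun m => out_sep34 (σ := σ) (v := f) (x := ![x 2, x 1]) hS.R1 (by rw [hf]; exact hS.RL) hv hS.JN hS.kN hS.JL
      hS.kn (by rw [hf]; exact hS.WH) hiN hiH hx' h3 (by rw [hσ]; exact ho) m
    exact ⟨h4 0, h4 1⟩
  by_cases hc : ds (τ + t / 4) v (x 0) < wd' μ s t
  · have hB : nearB μ s N ε2 t τ R W al n x v = 1 := by
      unfold nearB
      rw [← hσ, ← hf]
      exact if_pos ⟨⟨h0, h1, h2, h3⟩, hc, sep⟩
    linarith [n0 (x 0), n0 (x 1), n0 (x 2), n0 v]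
  · have hw := wd'_nonneg34 (μ := μ) (s := s) t
    have hw4 := wd'_nonneg34 (μ := μ) (s := s) (4 * n)
    have hW : 0 ≤ W := by
      have h4 := hS.WH 0 (Nat.zero_le _)
      have h5 := vv_nonneg (μ := μ) (s := s) (N := N) ε2 0
      linarith
    have hR := hS.Rt
    obtain ⟨s2, s1⟩ := sep _ (Or.inl rfl)
    have hF : fI μ s δ t τ x v = 1 := farAt_row34 (Nat.le_add_right _ _) le_rfl hS.iN fun m => by
      have h5 := thr34 (μ := μ) (s := s) hδ hN t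
      have h6 : wd' μ s t ≤ ds (τ + t / 4) v (x m) := by
        fin_cases m
        · exact not_lt.1 hc
        · show _ ≤ ds (τ + t / 4) v (x 1)
          linarith
        · show _ ≤ ds (τ + t / 4) v (x 2)
          linarith
      exact h5.trans h6
    linarith [n0 (x 0), n0 (x 1), n0 (x 2), n0 v]

/-- **The case `nearB` after the exchange.** -/
theorem geoB34 (hS : SlabL34 μ s N ε2 t τ J R W k0 L H nn al n) {δ2 δ3 r : ℝ} (hδ2 : 0 ≤ δ2) (hδ3 : 0 ≤ δ3) (hN : 1 ≤ N)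
    (hr : (N : ℝ) ^ (-δ2) * wd' μ s (4 * n) ≤ r) {wr : ℕ} (hwr : al + n ≤ wr) (a b c v : Px (Pn N y)) :
    NI al wr a b * nearB μ s N ε2 t τ R W al n ![c, b, a] v ≤
      fI μ s δ3 t τ ![c, v] a * fI μ s δ2 (4 * n) al ![a, c, v] b + clI al n r a b := by
  have f0 := fI_nonneg (μ := μ) (s := s) (δ := δ3) (t := t) (τ := τ) (![c, v] : Fin 2 → Px (Pn N y)) a
  have f1 := fI_nonneg (μ := μ) (s := s) (δ := δ2) (t := 4 * n) (τ := al) (![a, c, v] : Fin 3 → Px (Pn N y)) b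
  have c0 := clI_nonneg al n r a b
  have hnn : 0 ≤ fI μ s δ3 t τ ![c, v] a * fI μ s δ2 (4 * n) al ![a, c, v] b + clI al n r a b := add_nonneg (mul_nonneg f0 f1) c0
  by_cases hI : ∀ k, al ≤ k → k ≤ wr → ps a k ≠ ps b k
  swap
  · have : NI al wr a b = 0 := if_neg hI
    rw [this, zero_mul]
    exact hnn
  have hI1 : NI al wr a b = 1 := if_pos hI
  rw [hI1, one_mul]
  unfold nearB
  split_ifs with hB
  swap
  · exact hnn
  obtain ⟨⟨hc, hb, ha, hv⟩, hnear, sep⟩ := hB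
  have hc' : Fl N (sl μ s) (vv μ s N ε2) c := hc
  have hb' : Fl N (sl μ s) (vv μ s N ε2) b := hb
  have ha' : Fl N (sl μ s) (vv μ s N ε2) a := ha
  have hnear' : ds (τ + t / 4) v c < wd' μ s t := hnear
  have sep' : ∀ i, (i = τ + t / 4 ∨ (al ≤ i ∧ i ≤ al + n)) → R - W ≤ ds i v a ∧ R - W ≤ ds i v b := sep
  have hw := wd'_nonneg34 (μ := μ) (s := s) t
  have hw4 := wd'_nonneg34 (μ := μ) (s := s) (4 * n)
  have hW : 0 ≤ W := by
    have h4 := hS.WH 0 (Nat.zero_le _)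
    have h5 := vv_nonneg (μ := μ) (s := s) (N := N) ε2 0
    linarith
  have hR := hS.Rt
  by_cases hcl : ClP al n r a b
  · have : clI al n r a b = 1 := if_pos hcl
    rw [this]
    linarith [mul_nonneg f0 f1]
  -- a row where the own pair is separated
  have hk : ∃ k, al ≤ k ∧ k ≤ al + n ∧ r < ds k a b := by
    by_contra hcon
    push Not at hcon
    exact hcl ⟨fun k h1 h2 => hI k h1 (h2.trans hwr), fun k h1 h2 => hcon k h1 h2⟩
  obtain ⟨k, hk1, hk2, hk3⟩ := hk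
  have hF1 : fI μ s δ3 t τ ![c, v] a = 1 := farAt_row34 (Nat.le_add_right _ _) le_rfl hS.iN fun m => by
    have h5 := thr34 (μ := μ) (s := s) hδ3 hN t
    obtain ⟨s2, s1⟩ := sep' _ (Or.inl rfl)
    have h6 := ds_symm (τ + t / 4) v a
    have h7 := ds_tri (τ + t / 4) v a c
    have h8 := ds_symm (τ + t / 4) c a
    have h9 : wd' μ s t ≤ ds (τ + t / 4) a ((![c, v] : Fin 2 → Px (Pn N y)) m) := by
      fin_cases m
      · show _ ≤ ds (τ + t / 4) a c
        linarith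
      · show _ ≤ ds (τ + t / 4) a v
        linarith
    exact h5.trans h9
  have hF2 : fI μ s δ2 (4 * n) al ![a, c, v] b = 1 := by
    have hkN : k ≤ N := hk2.trans hS.aN
    refine farAt_row34 hk1 (by omega) hkN fun m => ?_
    obtain ⟨s2, s1⟩ := sep' k (Or.inr ⟨hk1, hk2⟩)
    have h4 : ds k v c ≤ ds (τ + t / 4) v c + W := by
      have h5 := hS.AH k hk1 hk2
      exact dist_move (vv_nonneg _ _) hv hc' hS.WH hS.iN hkN h5.1 h5.2
    have h6 := ds_symm k v b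
    have h7 := ds_tri k v b c
    have h8 := ds_symm k c b
    have h9 := ds_symm k a b
    have h10 := thr34 (μ := μ) (s := s) hδ2 hN (4 * n)
    have h11 : (N : ℝ) ^ (-δ2) * wd' μ s (4 * n) ≤ ds k b ((![a, c, v] : Fin 3 → Px (Pn N y)) m) := by
      fin_cases m
      · show _ ≤ ds k b a
        linarith
      · show _ ≤ ds k b c
        linarith
      · show _ ≤ ds k b v
        linarith
    exact h11
  rw [hF1, hF2]
  linarith

end

end Pool.Agent.W_7d29a1_C0.E2F34
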