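import Pool.Agent.W_7d29a1_C0.MicH14

/-!
CURV0 (MP_7d29a1_pr), section E2, macro slabs: THE REMAINDERS FOR A GENERAL FAMILY AND A GENERAL KEY. The observable is restricted to the
values `β` of a key, the remainder `A β - Cq (A β)` may depend on `β`; absolute values are summed over `β`. `sum_one14`, `sum_two14`,
`sum_mac14`: the three sums of the abstract theorem of helper63. `ex14`: the exchange of the futures of `x` and of the path drawn given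
`pJ 0 m'` of `x` (they meet in `[z', e]`): the pinned field is then pinned at its own path; the rest is `LONG`. (helper14)
-/

set_option autoImplicit false
set_option linter.unusedSectionVars false
set_option linter.unusedVariables false

namespace Pool.Agent.W_7d29a1_C0.MicI14

open Finset MeasureTheory Pool.Agent.W_7d29a1_F Pool.Agent.W_7d29a1_X Pool.Agent.W_7d29a1_C0 Pool.Agent.W_7d29a1_C0.Mod92
open Pool.W7d29a1.C0 Pool.W7d29a1.C0.VT31 Pool.W7d29a1.C0.I52 Pool.Agent.W_7d29a1_C0.Swap57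
open Pool.Agent.W_7d29a1_C0.CutE14 Pool.Agent.W_7d29a1_C0.MicE14 Pool.Agent.W_7d29a1_C0.MicT14 Pool.Agent.W_7d29a1_C0.MicH14

noncomputable section

section Abs

variable {X : Type*} [Fintype X] [DecidableEq X] [Nonempty X] {Y Y' Z T E : Type*} [DecidableEq Y] [DecidableEq Y'] [DecidableEq Z]
  [Fintype T] [DecidableEq T] {p : X → Y} {w : X → ℝ} {I ρ : X → X → ℝ} {K0 M : ℝ} {Ψ Φ : (Fin 3 → X) → ℝ} {g A n : X → ℝ}
  {J J' : Finset ℕ} {q : ℕ → X → Y'} {q' : ℕ → X → Z} {kap : (Fin 3 → X) → T}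

/-! ### The key -/

/-- The observable on one value of the key. -/
def lk14 (kap : (Fin 3 → X) → T) (β : T) (Ψ : (Fin 3 → X) → ℝ) (x : Fin 3 → X) : ℝ := if kap x = β then Ψ x else 0

/-- The key sees `x 0` only through `q m`, `m` in the slab. -/
def Kx (J : Finset ℕ) (q : ℕ → X → Y') (kap : (Fin 3 → X) → T) : Prop :=
  ∃ F : X → X → X → T, (∀ x, kap x = F (x 2) (x 1) (x 0)) ∧ ∀ m ∈ J, ∀ a b e e', q m e = q m e' → F a b e = F a b e'

theorem ox_lk (hΨ : Ox J q Ψ) (hk : Kx J q kap) (β : T) : Ox J q (lk14 kap β Ψ) := by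
  obtain ⟨F, hF, hm⟩ := hΨ
  obtain ⟨H, hH, hn⟩ := hk
  refine ⟨fun a b e => if H a b e = β then F a b e else 0, fun x => ?_, fun m hmJ a b e e' h => ?_⟩
  · unfold lk14
    rw [hH x, hF x]
  · show (if H a b e = β then F a b e else 0) = if H a b e' = β then F a b e' else 0
    rw [hn m hmJ a b e e' h, hm m hmJ a b e e' h]

/-- The boxes of the three replicas as a key. -/
theorem kx_box {B : Type*} [Fintype B] [DecidableEq B] {b : X → B} (hb : ∀ m ∈ J, ∀ S S', q m S = q m S' → b S = b S') :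
    Kx J q fun x : Fin 3 → X => (b (x 2), b (x 1), b (x 0)) :=
  ⟨fun a c e => (b a, b c, b e), fun x => rfl, fun m hm a c e e' h => by
    show (b a, b c, b e) = (b a, b c, b e')
    rw [hb m hm e e' h]⟩

/-- **The sum over the key.** -/
theorem sum_lk (u : T → (Fin 3 → X) → ℝ) (v : (Fin 3 → X) → ℝ) (h : ∀ x, wt (P3 p) w x ≠ 0 → u (kap x) x ≤ v x) :
    ∑ β, ev (P3 p) w (fun x => |lk14 kap β Ψ x| * u β x) ≤ ev (P3 p) w fun x => |Ψ x| * v x := by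
  rw [← I52.ev_sum]
  refine ev_mono' _ _ fun x hx => ?_
  have e : ∀ β : T, |lk14 kap β Ψ x| * u β x = if kap x = β then |Ψ x| * u (kap x) x else 0 := fun β => by
    unfold lk14
    by_cases h1 : kap x = β
    · rw [if_pos h1, if_pos h1, h1]
    · rw [if_neg h1, if_neg h1, abs_zero, zero_mul]
  rw [Finset.sum_congr rfl fun β _ => e β, Finset.sum_ite_eq, if_pos (mem_univ _)]
  exact mul_le_mul_of_nonneg_left (h x hx) (abs_nonneg _)

/-! ### Raw forms -/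

/-- The absolute value of the remainder, as a path functional. -/
def aN (w : X → ℝ) (J : Finset ℕ) (q : ℕ → X → Y') (A : X → ℝ) (x : X) : ℝ := |(A - Cq w J q A) x|

theorem aN_nonneg (x : X) : 0 ≤ aN w J q A x := abs_nonneg _

/-- One insertion. -/
theorem one_raw (hJ : J.Nonempty) (A : X → ℝ) (hO : Ox J q Φ) :
    |(P3 p).ks.dbl.toEv.ev w ((P3 p).ks.dr.ins (A - Cq w J q A) Φ)| ≤
      ev (P3 p) w fun x => |Φ x| * (aN w J q A (x 2) + aN w J q A (x 1) + cE w p (aN w J q A) (x 2)) :=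
  abs_one hJ (n := aN w J q A) (fun x => le_rfl) hO

/-- **Two insertions**: the two branch terms are one insertion of `g * N`. -/
theorem two_raw (M0 : 0 ≤ M) (hg : ∀ x, |g x| ≤ M) (hJ : J.Nonempty) (A : X → ℝ) (hO : Ox J q Φ) :
    |(P3 p).ks.dbl.dbl.toEv.ev w ((P3 p).ks.dbl.dr.ins (A - Cq w J q A) ((P3 p).ks.dr.ins g Φ)) -
      (P3 p).ks.dbl.toEv.ev w ((P3 p).ks.dr.ins (fun s => g s * (A - Cq w J q A) s) Φ)| ≤
      M * ev (P3 p) w fun x => |Φ x| * (7 * (aN w J q A (x 2) + aN w J q A (x 1)) + 19 * cE w p (aN w J q A) (x 2)) := by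
  set N := A - Cq w J q A with hNdef
  set n := aN w J q A with hn
  have hN : ∀ x, |N x| ≤ n x := fun x => le_rfl
  set K := (P3 p).ks with hK
  set h : X → ℝ := fun s => g s * N s with hh
  have n0 : ∀ x, 0 ≤ n x := fun x => (abs_nonneg _).trans (hN x)
  have hG : gm w N = 0 := gm_sub_Cq hJ q A
  have a0 : ∀ (x : Fin 3 → X) (F : X → ℝ), av w (K.A 0 x) F = gm w F := fun x F => by rw [gm_eq_av]; rfl
  have a2 : ∀ (x : Fin 3 → X) (F : X → ℝ), av w (K.A 2 x) F = gm w F := fun x F => by rw [gm_eq_av]; rfl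
  have a1 : ∀ (x : Fin 3 → X) (F : X → ℝ), av w (K.A 1 x) F = cE w p F (x 2) := fun x F => by rw [cE_eq_av]; rfl
  have hgO : Ox J q fun x => Φ x * (g (x 2) + g (x 1) - cE w p g (x 2) - 2 * gm w g) :=
    hO.mul fun a b => g a + g b - cE w p g a - 2 * gm w g
  have e1 : K.dbl.dbl.toEv.ev w (K.dbl.dr.ins N (K.dr.ins g Φ)) =
      K.dbl.toEv.ev w fun y => K.dr.ins g Φ y * ∑ j, (N (y j) - av w (K.dbl.A j y) N) := K.dbl.ins_ev w N (K.dr.ins g Φ)
  set R : (Fin 3 ⊕ Fin 3 → X) → ℝ := fun y => N (y (Sum.inl 1)) + N (y (Sum.inl 2)) +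
    N (y (Sum.inr 1)) - 2 * cE w p N (y (Sum.inl 2)) with hR
  have e2 : ∀ y, K.dr.ins g Φ y * ∑ j, (N (y j) - av w (K.dbl.A j y) N) =
      ((K.dr.ins g Φ y * R y + K.dr.ins g Φ y * N (y (Sum.inl 0))) + K.dr.ins g Φ y * N (y (Sum.inr 0))) +
        K.dr.ins g Φ y * N (y (Sum.inr 2)) := fun y => by
    have b : ∀ j : Fin 3, av w (K.dbl.A (Sum.inl j) y) N = av w (K.A j fun i => y (Sum.inl i)) N := fun j => rfl
    have b' : ∀ j : Fin 3, av w (K.dbl.A (Sum.inr j) y) N = av w (K.A j fun i => y (Sum.inl i)) N := fun j => rfl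
    rw [Fintype.sum_sum_type, Fin.sum_univ_three, Fin.sum_univ_three, b, b, b, b', b', b', a0, a1, a2, hG, hR]
    ring
  have e3 : K.dbl.toEv.ev w (fun y => K.dr.ins g Φ y * N (y (Sum.inr 0))) = -gm w h * K.toEv.ev w Φ :=
    shadow_free K w g N Φ 0 (fun x => by rw [a0, hG]) fun x => a0 x _
  have e4 : K.dbl.toEv.ev w (fun y => K.dr.ins g Φ y * N (y (Sum.inr 2))) = -gm w h * K.toEv.ev w Φ :=
    shadow_free K w g N Φ 2 (fun x => by rw [a2, hG]) fun x => a2 x _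
  have e5 : K.dbl.toEv.ev w (fun y => K.dr.ins g Φ y * N (y (Sum.inl 0))) = ev (P3 p) w fun x => Φ x * h (x 0) := by
    have k1 : ∀ y : Fin 3 ⊕ Fin 3 → X, K.dr.ins g Φ y * N (y (Sum.inl 0)) =
        (fun x : Fin 3 → X => Φ x * N (x 0)) (fun i => y (Sum.inl i)) * ∑ j, sgs j * g (y j) := fun y => by
      show Φ (fun i => y (Sum.inl i)) * (∑ j, sgs j * g (y j)) * N (y (Sum.inl 0)) = _
      ring
    have k2 : ∀ x : Fin 3 → X, (fun x : Fin 3 → X => Φ x * N (x 0)) x * ∑ i, (g (x i) - av w (K.A i x) g) =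
        Φ x * h (x 0) + (Φ x * (g (x 2) + g (x 1) - cE w p g (x 2) - 2 * gm w g)) * N (x 0) := fun x => by
      rw [Fin.sum_univ_three, a0, a1, a2, hh]
      ring
    rw [H41.ev_congr _ _ k1, K.ins_ev w g fun x => Φ x * N (x 0), H41.ev_congr _ _ k2, hK, ks_ev, I52.ev_add,
      x0_zero hgO hJ p w A, add_zero]
  have e6 : K.dbl.toEv.ev w (K.dr.ins h Φ) = ev (P3 p) w (fun x => Φ x * (h (x 2) + h (x 1) - cE w p h (x 2))) +
      ev (P3 p) w (fun x => Φ x * h (x 0)) - 2 * (gm w h * ev (P3 p) w Φ) := by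
    have k1 : K.dbl.toEv.ev w (K.dr.ins h Φ) = K.toEv.ev w fun x => Φ x * ∑ i, (h (x i) - av w (K.A i x) h) := K.ins_ev w h Φ
    have k2 : ∀ x : Fin 3 → X, Φ x * ∑ i, (h (x i) - av w (K.A i x) h) =
        (Φ x * (h (x 2) + h (x 1) - cE w p h (x 2)) + Φ x * h (x 0)) + -(2 * gm w h) * Φ x := fun x => by
      rw [Fin.sum_univ_three, a0, a1, a2]
      ring
    rw [k1, H41.ev_congr _ _ k2, hK, ks_ev, I52.ev_add, I52.ev_add, I52.ev_smul]
    ring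
  have k7 : K.toEv.ev w Φ = ev (P3 p) w Φ := by rw [hK, ks_ev]
  rw [e1, H41.ev_congr _ _ e2, H41.ev_add, H41.ev_add, H41.ev_add, e3, e4, e5, e6, k7]
  set Vn : (Fin 3 → X) → ℝ := fun x => |Φ x| * (n (x 2) + n (x 1) + cE w p n (x 2)) with hVn
  set Vc : (Fin 3 → X) → ℝ := fun x => |Φ x| * cE w p n (x 2) with hVc
  -- the bounds
  have b1 : |K.dbl.toEv.ev w (fun y => K.dr.ins g Φ y * R y)| ≤ 6 * M * (ev (P3 p) w Vn + 2 * ev (P3 p) w Vc) := by
    refine (H41.abs_ev_le _ _ _).trans ?_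
    have h1 : ∀ y, |K.dr.ins g Φ y * R y| ≤ 6 * M * ((fun x : Fin 3 → X => Vn x + Vc x) (fun i => y (Sum.inl i)) +
        (fun (x : Fin 3 → X) (s : X) => |Φ x| * n s) (fun i => y (Sum.inl i)) (y (Sum.inr 1))) := fun y => by
      rw [abs_mul]
      have h2 := abs_ins_g (p := p) hg Φ y
      have h3 : |R y| ≤ n (y (Sum.inl 2)) + n (y (Sum.inl 1)) + cE w p n (y (Sum.inl 2)) +
          cE w p n (y (Sum.inl 2)) + n (y (Sum.inr 1)) := by
        have c1 := hN (y (Sum.inl 1))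
        have c2 := hN (y (Sum.inl 2))
        have c3 := hN (y (Sum.inr 1))
        have c4 := abs_cE_n (p := p) (w := w) hN (y (Sum.inl 2))
        simp only [hR]
        rw [abs_le] at *
        constructor <;> linarith [c1.1, c1.2, c2.1, c2.2, c3.1, c3.2, c4.1, c4.2]
      refine (mul_le_mul h2 h3 (abs_nonneg _) (mul_nonneg (by linarith) (abs_nonneg _))).trans (le_of_eq ?_)
      simp only [hVn, hVc]
      ring
    refine (H41.ev_mono _ _ h1).trans ?_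
    rw [H41.ev_smul, H41.ev_add]
    refine mul_le_mul_of_nonneg_left ?_ (by linarith)
    have h4 := K.dbl_old w (fun x : Fin 3 → X => Vn x + Vc x)
    have h5 := K.dbl_one w 1 (fun (x : Fin 3 → X) (s : X) => |Φ x| * n s)
    rw [h4, h5, hK, ks_ev, ks_ev, I52.ev_add]
    have h8 : ev (P3 p) w (fun x => av w ((P3 p).ks.A 1 x) fun s => |Φ x| * n s) = ev (P3 p) w Vc := I52.ev_congr _ _ fun x => by
      rw [av_smul]
      show |Φ x| * av w _ n = |Φ x| * cE w p n (x 2)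
      rw [cE_eq_av]
      rfl
    rw [h8]
    linarith
  have hhn : ∀ x, |h x| ≤ M * n x := fun x => by
    rw [hh]
    show |g x * N x| ≤ _
    rw [abs_mul]
    exact mul_le_mul (hg x) (hN x) (abs_nonneg _) M0
  have hcE : ∀ x, |cE w p h x| ≤ M * cE w p n x := fun x => by
    have k1 := abs_cE_n (p := p) (w := w) (N := h) (n := fun s => M * n s) hhn x
    have k2 : cE w p (fun s => M * n s) x = M * cE w p n x := by rw [cE_eq_av, av_smul, ← cE_eq_av]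
    rwa [k2] at k1
  have b2 : |ev (P3 p) w (fun x => Φ x * (h (x 2) + h (x 1) - cE w p h (x 2)))| ≤ M * ev (P3 p) w Vn := by
    rw [← I52.ev_smul]
    refine I52.abs_ev_le _ _ fun x => ?_
    rw [abs_mul]
    have c1 := hhn (x 1)
    have c2 := hhn (x 2)
    have c3 := hcE (x 2)
    have c4 : |h (x 2) + h (x 1) - cE w p h (x 2)| ≤ M * (n (x 2) + n (x 1) + cE w p n (x 2)) := by
      rw [abs_le] at *
      constructor <;> linarith [c1.1, c1.2, c2.1, c2.2, c3.1, c3.2]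
    refine (mul_le_mul_of_nonneg_left c4 (abs_nonneg _)).trans (le_of_eq ?_)
    simp only [hVn]
    ring
  have k3 : ∀ a b c d e : ℝ, a + b + -c * d + -c * d - (e + b - 2 * (c * d)) = a - e := fun a b c d e => by ring
  rw [k3]
  have k4 : ev (P3 p) w (fun x => |Φ x| * (7 * (n (x 2) + n (x 1)) + 19 * cE w p n (x 2))) =
      7 * ev (P3 p) w Vn + 12 * ev (P3 p) w Vc := by
    rw [← I52.ev_smul, ← I52.ev_smul, ← I52.ev_add]
    refine I52.ev_congr _ _ fun x => ?_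
    simp only [hVn, hVc]
    ring
  rw [k4]
  refine (abs_sub _ _).trans ?_
  linarith

/-- **The macro slab.** -/
theorem mac_raw (hJ' : J'.Nonempty) {h : X → ℝ} (hO : Ox J' q' Φ) (hc : ∀ m ∈ J', Crs (q' m) p) :
    |(P3 p).ks.dbl.toEv.ev w ((P3 p).ks.dr.ins (h - Cq w J' q' h) Φ)| ≤
      ev (P3 p) w (fun x => |Φ x| * (|h (x 2)| + |h (x 1)| + cE w p (fun y => |h y|) (x 2))) +
        ev (P3 p) w fun x => |Φ x| * |Cq w J' q' h (x 2)| := by
  rw [mac_eq hJ' hO hc]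
  refine (abs_sub _ _).trans (add_le_add (I52.abs_ev_le _ _ fun x => ?_) (I52.abs_ev_le _ _ fun x => le_of_eq (abs_mul _ _)))
  rw [abs_mul]
  refine mul_le_mul_of_nonneg_left ?_ (abs_nonneg _)
  have c3 := abs_cE_n (p := p) (w := w) (N := h) (n := fun y => |h y|) (fun y => le_rfl) (x 2)
  refine (abs_sub _ _).trans (add_le_add (abs_add_le _ _) c3)

/-! ### The sums over the key, raw -/

/-- The insertions of `A (kap x)` at `x 2`, `x 1` and the shadow of `x 1`. -/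
def Ur (w : X → ℝ) (p : X → Y) (J : Finset ℕ) (q : ℕ → X → Y') (kap : (Fin 3 → X) → T) (A : T → X → ℝ) (a b : ℝ)
    (Ψ : (Fin 3 → X) → ℝ) : ℝ :=
  ev (P3 p) w fun x => |Ψ x| * (a * (aN w J q (A (kap x)) (x 2) + aN w J q (A (kap x)) (x 1)) +
    b * cE w p (aN w J q (A (kap x))) (x 2))

theorem sum_one_raw (hJ : J.Nonempty) (A : T → X → ℝ) (hO : Ox J q Ψ) (hk : Kx J q kap) :
    ∑ β, |(P3 p).ks.dbl.toEv.ev w ((P3 p).ks.dr.ins (A β - Cq w J q (A β)) (lk14 kap β Ψ))| ≤ Ur w p J q kap A 1 1 Ψ := by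
  refine (Finset.sum_le_sum fun β _ => one_raw hJ (A β) (ox_lk hO hk β)).trans ?_
  exact sum_lk (fun β x => aN w J q (A β) (x 2) + aN w J q (A β) (x 1) + cE w p (aN w J q (A β)) (x 2)) _ fun x _ => by
    show _ ≤ 1 * _ + 1 * _
    rw [one_mul, one_mul]

theorem sum_two_raw (M0 : 0 ≤ M) (hg : ∀ x, |g x| ≤ M) (hJ : J.Nonempty) (A : T → X → ℝ) (hO : Ox J q Ψ) (hk : Kx J q kap) :
    ∑ β, |(P3 p).ks.dbl.dbl.toEv.ev w ((P3 p).ks.dbl.dr.ins (A β - Cq w J q (A β)) ((P3 p).ks.dr.ins g (lk14 kap β Ψ))) -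
      (P3 p).ks.dbl.toEv.ev w ((P3 p).ks.dr.ins (fun s => g s * (A β - Cq w J q (A β)) s) (lk14 kap β Ψ))| ≤
      M * Ur w p J q kap A 7 19 Ψ := by
  refine (Finset.sum_le_sum fun β _ => two_raw M0 hg hJ (A β) (ox_lk hO hk β)).trans ?_
  rw [← Finset.mul_sum]
  refine mul_le_mul_of_nonneg_left ?_ M0
  exact sum_lk (fun β x => 7 * (aN w J q (A β) (x 2) + aN w J q (A β) (x 1)) + 19 * cE w p (aN w J q (A β)) (x 2)) _
    fun x _ => le_rfl

theorem sum_mac_raw (hJ' : J'.Nonempty) (h : T → X → ℝ) (hO : Ox J' q' Ψ) (hk : Kx J' q' kap) (hc : ∀ m ∈ J', Crs (q' m) p) :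
    ∑ β, |(P3 p).ks.dbl.toEv.ev w ((P3 p).ks.dr.ins (h β - Cq w J' q' (h β)) (lk14 kap β Ψ))| ≤
      ev (P3 p) w (fun x => |Ψ x| * (|h (kap x) (x 2)| + |h (kap x) (x 1)| + cE w p (fun y => |h (kap x) y|) (x 2))) +
        ev (P3 p) w fun x => |Ψ x| * |Cq w J' q' (h (kap x)) (x 2)| := by
  refine (Finset.sum_le_sum fun β _ => mac_raw hJ' (ox_lk hO hk β) hc).trans ?_
  rw [Finset.sum_add_distrib]
  exact add_le_add (sum_lk (fun β x => |h β (x 2)| + |h β (x 1)| + cE w p (fun y => |h β y|) (x 2)) _ fun x _ => le_rfl)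
    (sum_lk (fun β x => |Cq w J' q' (h β) (x 2)|) _ fun x _ => le_rfl)

/-! ### The sums over the key, majorants -/

/-- On the value of the key the family is bounded by `n`, at `x 2`, `x 1` and the shadow of `x 1`. -/
def Kb (w : X → ℝ) (p : X → Y) (kap : (Fin 3 → X) → T) (V : T → X → ℝ) (n : X → ℝ) : Prop :=
  ∀ x, wt (P3 p) w x ≠ 0 → V (kap x) (x 2) ≤ n (x 2) ∧ V (kap x) (x 1) ≤ n (x 1) ∧ cE w p (V (kap x)) (x 2) ≤ cE w p n (x 2)

/-- The family is bounded on the paths which have the position of the key. -/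
theorem kb_of {V : T → X → ℝ} {k : X → E} {ke : T → E} (hkp : ∀ y y', p y = p y' → k y = k y')
    (hke : ∀ x, wt (P3 p) w x ≠ 0 → k (x 2) = ke (kap x)) (hV : ∀ β y, k y = ke β → V β y ≤ n y) : Kb w p kap V n := fun x hx => by
  have h2 := hke x hx
  refine ⟨hV _ _ h2, hV _ _ ((hkp _ _ (p_eq hx)).trans h2), ?_⟩
  rw [cE_eq_av, cE_eq_av]
  exact av_mono _ _ fun s hs => hV _ _ ((hkp _ _ (mem_filter.1 hs).2).trans h2)

theorem kb_all {V : T → X → ℝ} (hV : ∀ β y, V β y ≤ n y) : Kb w p kap V n :=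
  kb_of (E := Unit) (k := fun _ => ()) (ke := fun _ => ()) (fun _ _ _ => rfl) (fun _ _ => rfl) fun β y _ => hV β y

theorem ev_G1 (hΨ : Bdp I ρ K0 Ψ) (hI : ∀ x y, I x y = I y x) (hρ : ∀ y, Mp p fun x => ρ x y) (n0 : ∀ x, 0 ≤ n x) {a b : ℝ}
    (a0 : 0 ≤ a) (b0 : 0 ≤ b) :
    ev (P3 p) w (fun x => |Ψ x| * (a * (n (x 2) + n (x 1)) + b * cE w p n (x 2))) ≤ K0 * G1 w p I ρ n (2 * a) b := by
  have e : ∀ x : Fin 3 → X, |Ψ x| * (a * (n (x 2) + n (x 1)) + b * cE w p n (x 2)) =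
      (a * (|Ψ x| * n (x 2)) + a * (|Ψ x| * n (x 1))) + b * (|Ψ x| * cE w p n (x 2)) := fun x => by ring
  rw [I52.ev_congr _ _ e, I52.ev_add, I52.ev_add, I52.ev_smul, I52.ev_smul, I52.ev_smul]
  have h1 := mul_le_mul_of_nonneg_left (own (p := p) (w := w) hΨ (fun x _ => n x) fun x _ => n0 x) a0
  have h2 := mul_le_mul_of_nonneg_left (own_mid (p := p) (w := w) hΨ hI hρ n0) a0
  have h4 := mul_le_mul_of_nonneg_left (own (p := p) (w := w) hΨ (fun x _ => cE w p n x) fun x _ => cE_n_nonneg n0 x) b0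
  unfold G1
  linarith

theorem ur_le (hΨ : Bdp I ρ K0 Ψ) (hI : ∀ x y, I x y = I y x) (hρ : ∀ y, Mp p fun x => ρ x y) (n0 : ∀ x, 0 ≤ n x)
    {A : T → X → ℝ} (hV : Kb w p kap (fun β => aN w J q (A β)) n) {a b : ℝ} (a0 : 0 ≤ a) (b0 : 0 ≤ b) :
    Ur w p J q kap A a b Ψ ≤ K0 * G1 w p I ρ n (2 * a) b := by
  refine le_trans (ev_mono' _ _ fun x hx => ?_) (ev_G1 hΨ hI hρ n0 a0 b0)
  obtain ⟨h1, h2, h3⟩ := hV x hx
  exact mul_le_mul_of_nonneg_left (add_le_add (mul_le_mul_of_nonneg_left (add_le_add h1 h2) a0)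
    (mul_le_mul_of_nonneg_left h3 b0)) (abs_nonneg _)

/-- **(H1), localised, general family.** -/
theorem sum_one14 (hJ : J.Nonempty) (A : T → X → ℝ) (hO : Ox J q Ψ) (hk : Kx J q kap) (hΨ : Bdp I ρ K0 Ψ)
    (hI : ∀ x y, I x y = I y x) (hρ : ∀ y, Mp p fun x => ρ x y) (n0 : ∀ x, 0 ≤ n x)
    (hV : Kb w p kap (fun β => aN w J q (A β)) n) :
    ∑ β, |(P3 p).ks.dbl.toEv.ev w ((P3 p).ks.dr.ins (A β - Cq w J q (A β)) (lk14 kap β Ψ))| ≤ K0 * G1 w p I ρ n 2 1 := by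
  have h := ur_le (a := 1) (b := 1) hΨ hI hρ n0 hV zero_le_one zero_le_one
  rw [mul_one] at h
  exact (sum_one_raw hJ A hO hk).trans h

/-- **(H2), localised, general family.** -/
theorem sum_two14 (M0 : 0 ≤ M) (hg : ∀ x, |g x| ≤ M) (hJ : J.Nonempty) (A : T → X → ℝ) (hO : Ox J q Ψ) (hk : Kx J q kap)
    (hΨ : Bdp I ρ K0 Ψ) (hI : ∀ x y, I x y = I y x) (hρ : ∀ y, Mp p fun x => ρ x y) (n0 : ∀ x, 0 ≤ n x)
    (hV : Kb w p kap (fun β => aN w J q (A β)) n) :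
    ∑ β, |(P3 p).ks.dbl.dbl.toEv.ev w ((P3 p).ks.dbl.dr.ins (A β - Cq w J q (A β)) ((P3 p).ks.dr.ins g (lk14 kap β Ψ))) -
      (P3 p).ks.dbl.toEv.ev w ((P3 p).ks.dr.ins (fun s => g s * (A β - Cq w J q (A β)) s) (lk14 kap β Ψ))| ≤
      M * (K0 * G1 w p I ρ n 14 19) := by
  have h := ur_le (a := 7) (b := 19) hΨ hI hρ n0 hV (by norm_num) (by norm_num)
  have e : (2 : ℝ) * 7 = 14 := by norm_num
  rw [e] at h
  exact (sum_two_raw M0 hg hJ A hO hk).trans (mul_le_mul_of_nonneg_left h M0)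

/-- The slab average told from the inner pair, exact. -/
theorem pp_Cq (hρ' : ∀ m ∈ J', ∀ y, Mp (q' m) fun x => ρ x y) (w : X → ℝ) (p : X → Y) (I : X → X → ℝ) (n : X → ℝ) :
    PP w (fun x x' => mi w p I x * (Cq w J' q' n x * ρ x x')) = T0Q w p J' q' I ρ n := by
  have e3 := PP_avg (J' := J') w (mi w p I) ρ (J'.card : ℝ)⁻¹ fun m => cE w (q' m) n
  rw [Finset.sum_congr rfl fun m hm => PP_sym w (q' m) (mi w p I) n (hρ' m hm)] at e3
  exact e3

/-- **(H3) + (H4), localised, general family.** `c` = a bound of the slab average at `x 2`. -/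
theorem sum_mac14 {Mh : ℝ} (Mh0 : 0 ≤ Mh) (hJ' : J'.Nonempty) (h : T → X → ℝ) (hO : Ox J' q' Ψ) (hk : Kx J' q' kap)
    (hc : ∀ m ∈ J', Crs (q' m) p) (hΨ : Bdp I ρ K0 Ψ) (hI : ∀ x y, I x y = I y x) (hρ : ∀ y, Mp p fun x => ρ x y)
    (n0 : ∀ x, 0 ≤ n x) (hV : Kb w p kap (fun β y => |h β y|) fun y => Mh * n y) {c : X → ℝ} (c0 : ∀ x, 0 ≤ c x)
    (hcx : ∀ x, wt (P3 p) w x ≠ 0 → |Cq w J' q' (h (kap x)) (x 2)| ≤ c (x 2)) :
    ∑ β, |(P3 p).ks.dbl.toEv.ev w ((P3 p).ks.dr.ins (h β - Cq w J' q' (h β)) (lk14 kap β Ψ))| ≤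
      Mh * (K0 * G1 w p I ρ n 2 1) + K0 * PP w fun x x' => mi w p I x * (c x * ρ x x') := by
  refine (sum_mac_raw hJ' h hO hk hc).trans (add_le_add ?_ ?_)
  · have h1 : ev (P3 p) w (fun x => |Ψ x| * (|h (kap x) (x 2)| + |h (kap x) (x 1)| + cE w p (fun y => |h (kap x) y|) (x 2))) ≤
        ev (P3 p) w fun x => Mh * (|Ψ x| * (1 * (n (x 2) + n (x 1)) + 1 * cE w p n (x 2))) := ev_mono' _ _ fun x hx => by
      obtain ⟨h1, h2, h3⟩ := hV x hx
      have h4 : cE w p (fun y => Mh * n y) (x 2) = Mh * cE w p n (x 2) := by rw [cE_eq_av, av_smul, ← cE_eq_av]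
      rw [h4] at h3
      have h5 := mul_le_mul_of_nonneg_left (add_le_add (add_le_add h1 h2) h3) (abs_nonneg (Ψ x))
      refine h5.trans (le_of_eq ?_)
      ring
    rw [I52.ev_smul] at h1
    have h2 := ev_G1 (w := w) (a := 1) (b := 1) hΨ hI hρ n0 zero_le_one zero_le_one
    rw [mul_one] at h2
    exact h1.trans (mul_le_mul_of_nonneg_left h2 Mh0)
  · refine le_trans (ev_mono' _ _ fun x hx => mul_le_mul_of_nonneg_left (hcx x hx) (abs_nonneg _)) ?_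
    exact own (p := p) (w := w) hΨ (fun x _ => c x) fun x _ => c0 x

/-- The macro slab for `h β`, `|h β| ≤ Mh * n` everywhere. -/
theorem sum_mac_all {Mh : ℝ} (Mh0 : 0 ≤ Mh) (hJ' : J'.Nonempty) (h : T → X → ℝ) (hO : Ox J' q' Ψ) (hk : Kx J' q' kap)
    (hc : ∀ m ∈ J', Crs (q' m) p) (hΨ : Bdp I ρ K0 Ψ) (hI : ∀ x y, I x y = I y x) (hρ : ∀ y, Mp p fun x => ρ x y)
    (hρ' : ∀ m ∈ J', ∀ y, Mp (q' m) fun x => ρ x y) (n0 : ∀ x, 0 ≤ n x) (hh : ∀ β y, |h β y| ≤ Mh * n y) :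
    ∑ β, |(P3 p).ks.dbl.toEv.ev w ((P3 p).ks.dr.ins (h β - Cq w J' q' (h β)) (lk14 kap β Ψ))| ≤
      Mh * (K0 * (G1 w p I ρ n 2 1 + T0Q w p J' q' I ρ n)) := by
  have c0 : ∀ x, 0 ≤ Mh * Cq w J' q' n x := fun x => mul_nonneg Mh0 (mul_nonneg (inv_nonneg.2 (Nat.cast_nonneg _))
    (Finset.sum_nonneg fun m _ => cE_nonneg _ _ n0 x))
  have h1 := sum_mac14 (w := w) (c := fun x => Mh * Cq w J' q' n x) Mh0 hJ' h hO hk hc hΨ hI hρ n0 (kb_all hh) c0 fun x _ => by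
    show |(J'.card : ℝ)⁻¹ * ∑ m ∈ J', cE w (q' m) (h (kap x)) (x 2)| ≤ Mh * ((J'.card : ℝ)⁻¹ * ∑ m ∈ J', cE w (q' m) n (x 2))
    rw [abs_mul, abs_of_nonneg (inv_nonneg.2 (Nat.cast_nonneg _)), mul_left_comm, Finset.mul_sum]
    refine mul_le_mul_of_nonneg_left ?_ (inv_nonneg.2 (Nat.cast_nonneg _))
    refine (Finset.abs_sum_le_sum_abs _ _).trans (Finset.sum_le_sum fun m _ => ?_)
    have k1 := abs_cE_n (p := q' m) (w := w) (N := h (kap x)) (n := fun s => Mh * n s) (hh _) (x 2)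
    have k2 : cE w (q' m) (fun s => Mh * n s) (x 2) = Mh * cE w (q' m) n (x 2) := by rw [cE_eq_av, av_smul, ← cE_eq_av]
    rwa [k2] at k1
  have e : PP w (fun x x' => mi w p I x * ((fun x => Mh * Cq w J' q' n x) x * ρ x x')) = Mh * T0Q w p J' q' I ρ n := by
    rw [← pp_Cq hρ' w p I n, ← PP_smul]
    congr 1
    funext x x'
    ring
  rw [e] at h1
  refine h1.trans (le_of_eq ?_)
  ring

end Abs

/-! ### The exchange -/

section Ex

open Pool.Agent.W_7d29a1_C0.NM82 (Hd Rk NI_eq)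

variable {Q : Finset (Finset ℕ)} [SwQ Q] [Nonempty (Px Q)] {z' e m' : ℕ} {w : Px Q → ℝ}

open Classical in
/-- Exchange of the futures of `x 2` and of `x 1` (given `pJ 0 m'` of `x 2`) behind the last common position in `[z', e]`. -/
def xc (z' e m' : ℕ) (x : Fin 3 → Px Q) : Fin 3 → Px Q :=
  if Mt 0 0 z' e (x 2) (x 1) ∧ pJ 0 m' (x 1) = pJ 0 m' (x 2) then ![x 0, sw 0 e (x 2) (x 1), sw 0 e (x 1) (x 2)] else x

theorem xc_pos {x : Fin 3 → Px Q} (h : Mt 0 0 z' e (x 2) (x 1) ∧ pJ 0 m' (x 1) = pJ 0 m' (x 2)) :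
    xc z' e m' x = ![x 0, sw 0 e (x 2) (x 1), sw 0 e (x 1) (x 2)] := by
  unfold xc
  rw [if_pos h]

theorem xc_neg {x : Fin 3 → Px Q} (h : ¬(Mt 0 0 z' e (x 2) (x 1) ∧ pJ 0 m' (x 1) = pJ 0 m' (x 2))) : xc z' e m' x = x := by
  unfold xc
  rw [if_neg h]

theorem pJ_sw_out (hem : e ≤ m') {S S' : Px Q} (h : Mt 0 0 z' e S S') : pJ 0 m' (sw 0 e S S') = pJ 0 m' S :=
  crs_pJ le_rfl hem _ _ (pJ_sw (Nat.zero_le _) h)

theorem xc_cond (hem : e ≤ m') {x : Fin 3 → Px Q} (h : Mt 0 0 z' e (x 2) (x 1) ∧ pJ 0 m' (x 1) = pJ 0 m' (x 2)) :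
    Mt 0 0 z' e (xc z' e m' x 2) (xc z' e m' x 1) ∧ pJ 0 m' (xc z' e m' x 1) = pJ 0 m' (xc z' e m' x 2) := by
  have hs : Mt 0 0 z' e (x 1) (x 2) := by
    rw [Mt_symm]
    exact h.1
  rw [xc_pos h]
  refine ⟨Mt_sw (Nat.zero_le _) hs, ?_⟩
  show pJ 0 m' (sw 0 e (x 2) (x 1)) = pJ 0 m' (sw 0 e (x 1) (x 2))
  rw [pJ_sw_out hem h.1, pJ_sw_out hem hs, h.2]

theorem xc_xc (hem : e ≤ m') : Function.Involutive (xc (Q := Q) z' e m') := by
  intro x
  by_cases h : Mt 0 0 z' e (x 2) (x 1) ∧ pJ 0 m' (x 1) = pJ 0 m' (x 2)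
  · have hs : Mt 0 0 z' e (x 1) (x 2) := by
      rw [Mt_symm]
      exact h.1
    rw [xc_pos (xc_cond hem h), xc_pos h]
    funext i
    fin_cases i
    · rfl
    · show sw 0 e (sw 0 e (x 1) (x 2)) (sw 0 e (x 2) (x 1)) = x 1
      exact sw_sw (Nat.zero_le _) hs
    · show sw 0 e (sw 0 e (x 2) (x 1)) (sw 0 e (x 1) (x 2)) = x 2
      exact sw_sw (Nat.zero_le _) h.1
  · rw [xc_neg h, xc_neg h]

theorem wt_xc (hem : e ≤ m') (hw : Hd z' e w) (x : Fin 3 → Px Q) :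
    wt (P3 (pJ 0 m')) w (xc z' e m' x) = wt (P3 (pJ 0 m')) w x := by
  by_cases h : Mt 0 0 z' e (x 2) (x 1) ∧ pJ 0 m' (x 1) = pJ 0 m' (x 2)
  · have hs : Mt 0 0 z' e (x 1) (x 2) := by
      rw [Mt_symm]
      exact h.1
    have q1 : pJ 0 m' (sw 0 e (x 1) (x 2)) = pJ 0 m' (x 2) := by rw [pJ_sw_out hem hs, h.2]
    have q2 : pJ 0 m' (sw 0 e (x 2) (x 1)) = pJ 0 m' (x 2) := pJ_sw_out hem h.1
    have h3 : Real.exp (w (sw 0 e (x 1) (x 2))) * Real.exp (w (sw 0 e (x 2) (x 1))) = Real.exp (w (x 2)) * Real.exp (w (x 1)) := by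
      rw [← Real.exp_add, ← Real.exp_add, hw _ _ hs, add_comm]
    rw [wt_P3, wt_P3, xc_pos h]
    show ker w univ (sw 0 e (x 1) (x 2)) * ker w (univ.filter fun s => pJ 0 m' s = pJ 0 m' (sw 0 e (x 1) (x 2)))
      (sw 0 e (x 2) (x 1)) * ker w univ (x 0) = _
    congr 1
    rw [q1]
    unfold ker
    simp only [mem_univ, if_true, mem_filter, true_and]
    rw [if_pos q2, if_pos h.2, div_mul_div_comm, div_mul_div_comm, h3]
  · rw [xc_neg h]

/-- **(EX), one row `m'`.** -/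
theorem ex14 {E : Type*} (hem : e ≤ m') (hw : Hd z' e w) {a n : Px Q → ℝ} {k : Px Q → E} (ha : Lk 0 z' a) (a0 : ∀ S, 0 ≤ a S)
    {ρ : Px Q → Px Q → ℝ} (hρ : ∀ y, Mp (pJ 0 m') fun x => ρ x y) (r0 : ∀ x y, 0 ≤ ρ x y) {V : E → Px Q → ℝ} {Mb : ℝ}
    (hk : ∀ S S' : Px Q, (∀ i, e ≤ i → ps S i = ps S' i) → k S = k S') (hL : ∀ b, Lk 0 z' (V b)) (h0 : ∀ b S, 0 ≤ V b S)
    (hM : ∀ b S, V b S ≤ Mb) (hn : ∀ S, V (k S) S ≤ n S) :
    PP w (fun x y => a x * (cE w (pJ 0 m') (V (k x)) x * ρ x y)) ≤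
      PP w (fun x y => a x * (cE w (pJ 0 m') n x * ρ x y)) + Mb * PP w fun x y => a x * (cE w (pJ 0 m') (NI z' e x) x * ρ x y) := by
  classical
  have n0 : ∀ S, 0 ≤ n S := fun S => (h0 _ _).trans (hn S)
  have key : ∀ U : Px Q → Px Q → ℝ, PP w (fun x y => a x * (cE w (pJ 0 m') (U x) x * ρ x y)) =
      ev (P3 (pJ 0 m')) w fun x => U (x 2) (x 1) * (a (x 2) * ρ (x 2) (x 0)) := fun U => by
    rw [ev_P3_PP (pJ 0 m') w U fun x y => a x * ρ x y]
    congr 1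
    funext x y
    show a x * (cE w (pJ 0 m') (U x) x * ρ x y) = cE w (pJ 0 m') (U x) x * (a x * ρ x y)
    ring
  set F : (Fin 3 → Px Q) → ℝ := fun x =>
    if Mt 0 0 z' e (x 2) (x 1) then V (k (x 1)) (x 1) * (a (x 2) * ρ (x 2) (x 0)) else 0 with hF
  have hH0 : ∀ x : Fin 3 → Px Q, 0 ≤ a (x 2) * ρ (x 2) (x 0) := fun x => mul_nonneg (a0 _) (r0 _ _)
  have e1 : ev (P3 (pJ 0 m')) w (fun x => V (k (x 2)) (x 1) * (a (x 2) * ρ (x 2) (x 0))) ≤
      ev (P3 (pJ 0 m')) w (fun x => F (xc z' e m' x) + Mb * (NI z' e (x 2) (x 1) * (a (x 2) * ρ (x 2) (x 0)))) := by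
    refine ev_mono' _ _ fun x hx => ?_
    have hq : pJ 0 m' (x 1) = pJ 0 m' (x 2) := p_eq hx
    by_cases h : Mt 0 0 z' e (x 2) (x 1)
    · have hs : Mt 0 0 z' e (x 1) (x 2) := by
        rw [Mt_symm]
        exact h
      have hc := xc_cond hem ⟨h, hq⟩
      have f1 : F (xc z' e m' x) = V (k (xc z' e m' x 1)) (xc z' e m' x 1) *
          (a (xc z' e m' x 2) * ρ (xc z' e m' x 2) (xc z' e m' x 0)) := by
        rw [hF]
        show (if Mt 0 0 z' e (xc z' e m' x 2) (xc z' e m' x 1) then _ else (0 : ℝ)) = _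
        rw [if_pos hc.1]
      have g1 : k (sw 0 e (x 2) (x 1)) = k (x 2) := hk _ _ fun i hi => ps_sw_out (Nat.zero_le _) h (Or.inr hi)
      have g2 : ∀ b, V b (sw 0 e (x 2) (x 1)) = V b (x 1) := fun b => hL b _ _ fun i hi hi' => ps_sw h hi hi'
      have g3 : a (sw 0 e (x 1) (x 2)) = a (x 2) := ha _ _ fun i hi hi' => ps_sw hs hi hi'
      have g4 : ρ (sw 0 e (x 1) (x 2)) (x 0) = ρ (x 2) (x 0) := hρ (x 0) _ _ (by rw [pJ_sw_out hem hs, hq])
      rw [f1, xc_pos ⟨h, hq⟩]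
      show V (k (x 2)) (x 1) * (a (x 2) * ρ (x 2) (x 0)) ≤ V (k (sw 0 e (x 2) (x 1))) (sw 0 e (x 2) (x 1)) *
        (a (sw 0 e (x 1) (x 2)) * ρ (sw 0 e (x 1) (x 2)) (x 0)) + Mb * (NI z' e (x 2) (x 1) * (a (x 2) * ρ (x 2) (x 0)))
      rw [g1, g2, g3, g4]
      have hMb : 0 ≤ Mb := (h0 (k (x 2)) (x 2)).trans (hM _ _)
      exact le_add_of_nonneg_right (mul_nonneg hMb (mul_nonneg (NI_nonneg _ _ _ _) (hH0 x)))
    · have f1 : 0 ≤ F (xc z' e m' x) := by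
        rw [hF]
        show 0 ≤ if Mt 0 0 z' e (xc z' e m' x 2) (xc z' e m' x 1) then _ else (0 : ℝ)
        split_ifs
        · exact mul_nonneg (h0 _ _) (mul_nonneg (a0 _) (r0 _ _))
        · exact le_rfl
      rw [NI_eq, if_neg h, one_mul]
      have := mul_le_mul_of_nonneg_right (hM (k (x 2)) (x 1)) (hH0 x)
      linarith
  have e2 : ev (P3 (pJ 0 m')) w (fun x => F (xc z' e m' x)) = ev (P3 (pJ 0 m')) w F :=
    ev_invol (P3 (pJ 0 m')) w (xc z' e m') (xc_xc hem) (wt_xc hem hw) F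
  have e3 : ev (P3 (pJ 0 m')) w F ≤ ev (P3 (pJ 0 m')) w fun x => n (x 1) * (a (x 2) * ρ (x 2) (x 0)) := by
    refine I52.ev_mono _ _ fun x => ?_
    rw [hF]
    show (if Mt 0 0 z' e (x 2) (x 1) then _ else (0 : ℝ)) ≤ _
    split_ifs
    · exact mul_le_mul_of_nonneg_right (hn _) (hH0 x)
    · exact mul_nonneg (n0 _) (hH0 x)
  rw [I52.ev_add, I52.ev_smul, e2] at e1
  rw [key fun x => V (k x), key fun _ => n, key fun x => NI z' e x]
  linarith

end Ex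

end

end Pool.Agent.W_7d29a1_C0.MicI14
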