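import Pool.Agent.W_7d29a1_C0.E2Mac63
import Pool.Agent.W_7d29a1_C0.E2F59
import Pool.Agent.W_7d29a1_C0.MicI14

/-!
CURV0 (MP_7d29a1_pr), section E2, PART L. The near fields are backward fields on slabs in front of the kick window, pinned on the right at the
position of `x 2` (= of `x 1` and its shadow) at a row `e` behind the block, cut to the tubes of the boxes of `x 2`, `x 1`; the key is
`(near boxes of x 2, x 1; position at e; macro boxes of x 2, x 0)`. `sum_far_one`, `sum_far_two`: absolute insertions for a general key;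
`Nb`: the remainder of the uncut pinned field: a function of the rows up to `z'`, told by the micro mass given `pJ r e` on the paths
which pass at the pin; `FL`: the near far part. (helper63)
-/

set_option autoImplicit false
set_option linter.unusedSectionVars false
set_option linter.unusedVariables false

namespace Pool.Agent.W_7d29a1_C0.EL63

open Finset MeasureTheory Pool.Agent.W_7d29a1_F Pool.Agent.W_7d29a1_X Pool.Agent.W_7d29a1_H
open Pool.Agent.W_7d29a1_C0 Pool.Agent.W_7d29a1_C0.H32 Pool.Agent.W_7d29a1_C0.Mod92 Pool.Agent.W_7d29a1_C0.Blk18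
open Pool.Agent.W_7d29a1_C0.FP63 Pool.Agent.W_7d29a1_C0.InT57 Pool.Agent.W_7d29a1_C0.FM63 Pool.Agent.W_7d29a1_C0.EM63
open Pool.Agent.W_7d29a1_C0.CutE14 (P3)
open Pool.Agent.W_7d29a1_C0.MicE14 (Cq nn abs_sub_Cq_le)
open Pool.Agent.W_7d29a1_C0.MicI14 (Kx lk14)
open Pool.Agent.W_7d29a1_C0.Swap57
open Pool.Agent.W_7d29a1_C0.E2F59 (ev_all_one ev_all_two abs_ins_sum sum_A3)
open Pool.W7d29a1.C0 Pool.W7d29a1.C0.VT31
open Pool.W7d29a1.C0.I52 (KS sgs av ev ks_ev)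
open Pool.W7d29a1.C0.H19 (Cf)
open Pool.W7d29a1.C0.H41 (Ev Dr Obs Wt cut cut' QV Cf_split)
open Pool.W7d29a1.C0.R63
open Pool.W7d29a1.C0.T73 (chT OutB bx)

noncomputable section

/-! ### Absolute insertions, general key -/

section Far

variable {X : Type*} [Fintype X] [DecidableEq X] [Nonempty X] {Y : Type*} [DecidableEq Y] {T : Type*} [Fintype T] [DecidableEq T]
  {p : X → Y} {w : X → ℝ} {κ : (Fin 3 → X) → T} {Ψ : (Fin 3 → X) → ℝ}

/-- The far functional: a family `o β` at the replicas and, `a` times, at their shadows. -/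
def FK (w : X → ℝ) (p : X → Y) (κ : (Fin 3 → X) → T) (o : T → X → ℝ) (Ψ : (Fin 3 → X) → ℝ) (a : ℝ) : ℝ :=
  ev (P3 p) w fun x => |Ψ x| * (∑ i, o (κ x) (x i) + a * (2 * gm w (o (κ x)) + cE w p (o (κ x)) (x 2)))

theorem sum_abs_key {ι' : Type*} (u : T → (ι' → X) → ℝ) (r : (ι' → X) → Fin 3 → X) (y : ι' → X)
    (h : ∀ β, κ (r y) ≠ β → u β y = 0) : ∑ β, |u β y| = |u (κ (r y)) y| := by
  rw [Finset.sum_eq_single (κ (r y))]
  · intro β _ hβ
    rw [h β (Ne.symm hβ), abs_zero]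
  · intro h'
    exact absurd (mem_univ _) h'

/-- **One insertion.** -/
theorem sum_far_one (A : T → X → ℝ) :
    ∑ β, |(P3 p).ks.dbl.toEv.ev w ((P3 p).ks.dr.ins (A β) (lcK κ β Ψ))| ≤ FK w p κ (fun β y => |A β y|) Ψ 1 := by
  refine (Finset.sum_le_sum fun β _ => H41.abs_ev_le _ _ _).trans ?_
  rw [← H41.ev_sum]
  have h1 : ∀ y : Fin 3 ⊕ Fin 3 → X, ∑ β, |(P3 p).ks.dr.ins (A β) (lcK κ β Ψ) y| ≤
      (fun x => |Ψ x|) (fun i => y (Sum.inl i)) *
        ∑ j, (fun (x : Fin 3 → X) (s : X) => |A (κ x) s|) (fun i => y (Sum.inl i)) (y j) := fun y => by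
    rw [sum_abs_key (κ := κ) (fun β y => (P3 p).ks.dr.ins (A β) (lcK κ β Ψ) y) (fun y i => y (Sum.inl i)) y fun β hβ => by
      show lcK κ β Ψ (fun i => y (Sum.inl i)) * _ = 0
      unfold lcK
      rw [if_neg hβ, zero_mul]]
    refine (abs_ins_sum (P3 p).ks (A (κ fun i => y (Sum.inl i))) _ y).trans ?_
    refine mul_le_mul_of_nonneg_right (abs_lcK_le _ _ _ _) (Finset.sum_nonneg fun j _ => abs_nonneg _)
  refine (H41.ev_mono _ _ h1).trans (le_of_eq ?_)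
  rw [ev_all_one (P3 p).ks w (fun x => |Ψ x|) fun x s => |A (κ x) s|, ks_ev]
  unfold FK
  congr 1
  funext x
  rw [sum_A3, one_mul]

/-- **The insertion of `g` and of a family.** -/
theorem sum_far_two (A : T → X → ℝ) {g : X → ℝ} {Mg : ℝ} (hg : ∀ x, |g x| ≤ Mg) :
    ∑ β, |(P3 p).ks.dbl.dbl.toEv.ev w ((P3 p).ks.dbl.dr.ins (A β) ((P3 p).ks.dr.ins g (lcK κ β Ψ)))| ≤
      6 * Mg * FK w p κ (fun β y => |A β y|) Ψ 3 := by
  have hM0 : 0 ≤ Mg := (abs_nonneg _).trans (hg Classical.ofNonempty)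
  refine (Finset.sum_le_sum fun β _ => H41.abs_ev_le _ _ _).trans ?_
  rw [← H41.ev_sum]
  have h1 : ∀ y : (Fin 3 ⊕ Fin 3) ⊕ (Fin 3 ⊕ Fin 3) → X,
      ∑ β, |(P3 p).ks.dbl.dr.ins (A β) ((P3 p).ks.dr.ins g (lcK κ β Ψ)) y| ≤
      6 * Mg * ((fun x => |Ψ x|) (fun i => y (Sum.inl (Sum.inl i))) *
        ∑ j, (fun (x : Fin 3 → X) (s : X) => |A (κ x) s|) (fun i => y (Sum.inl (Sum.inl i))) (y j)) := fun y => by
    rw [sum_abs_key (κ := κ) (fun β y => (P3 p).ks.dbl.dr.ins (A β) ((P3 p).ks.dr.ins g (lcK κ β Ψ)) y)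
      (fun y i => y (Sum.inl (Sum.inl i))) y fun β hβ => by
        show (lcK κ β Ψ (fun i => y (Sum.inl (Sum.inl i))) * _) * _ = 0
        unfold lcK
        rw [if_neg hβ, zero_mul, zero_mul]]
    refine (abs_ins_sum (P3 p).ks.dbl (A (κ fun i => y (Sum.inl (Sum.inl i)))) _ y).trans ?_
    have h3 : |(P3 p).ks.dr.ins g (lcK κ (κ fun i => y (Sum.inl (Sum.inl i))) Ψ) fun i => y (Sum.inl i)| ≤
        6 * Mg * |lcK κ (κ fun i => y (Sum.inl (Sum.inl i))) Ψ fun i => y (Sum.inl (Sum.inl i))| := MicE14.abs_ins_g hg _ _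
    have h5 := h3.trans (mul_le_mul_of_nonneg_left (abs_lcK_le κ (κ fun i => y (Sum.inl (Sum.inl i))) Ψ
      fun i => y (Sum.inl (Sum.inl i))) (by positivity : 0 ≤ 6 * Mg))
    refine (mul_le_mul_of_nonneg_right h5 (Finset.sum_nonneg fun j _ => abs_nonneg _)).trans (le_of_eq ?_)
    ring
  refine (H41.ev_mono _ _ h1).trans (le_of_eq ?_)
  rw [H41.ev_smul, ev_all_two (P3 p).ks w (fun x => |Ψ x|) fun x s => |A (κ x) s|, ks_ev]
  unfold FK
  congr 2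
  funext x
  rw [sum_A3]

/-- A larger family. -/
theorem FK_mono {o o' : T → X → ℝ} {a M : ℝ} (ha : 0 ≤ a) (h : ∀ β y, o β y ≤ M * o' β y) : FK w p κ o Ψ a ≤ M * FK w p κ o' Ψ a := by
  unfold FK
  rw [← I52.ev_smul]
  refine I52.ev_mono _ _ fun x => ?_
  have h1 : ∑ i, o (κ x) (x i) ≤ M * ∑ i, o' (κ x) (x i) := by
    rw [Finset.mul_sum]
    exact Finset.sum_le_sum fun i _ => h _ _
  have h2 : gm w (o (κ x)) ≤ M * gm w (o' (κ x)) := by
    rw [I52.gm_eq_av, I52.gm_eq_av, ← I52.av_smul]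
    exact I52.av_mono _ _ fun s _ => h _ _
  have h3 : cE w p (o (κ x)) (x 2) ≤ M * cE w p (o' (κ x)) (x 2) := by
    rw [I52.cE_eq_av, I52.cE_eq_av, ← I52.av_smul]
    exact I52.av_mono _ _ fun s _ => h _ _
  have h4 : ∑ i, o (κ x) (x i) + a * (2 * gm w (o (κ x)) + cE w p (o (κ x)) (x 2)) ≤
      M * (∑ i, o' (κ x) (x i) + a * (2 * gm w (o' (κ x)) + cE w p (o' (κ x)) (x 2))) := by
    have h5 := mul_le_mul_of_nonneg_left (add_le_add (mul_le_mul_of_nonneg_left h2 (by norm_num : (0 : ℝ) ≤ 2)) h3) ha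
    nlinarith
  refine (mul_le_mul_of_nonneg_left h4 (abs_nonneg _)).trans (le_of_eq ?_)
  ring

end Far

/-! ### The key -/

section Key

variable {μ : Measure ℝ} {s : ℝ} {N al be e z' : ℕ} {Q : Finset (Finset ℕ)} {A G : Env → (ℕ → ℤ) → ℝ} {J J1 J2 : Finset ℕ}
  {D' τ sl R1 R3 : ℝ} {r1 r3 : ℕ}

/-- The values of the key: near boxes of `x 2`, `x 1`; position of `x 2` at the pin; macro boxes of `x 2`, `x 0`. -/
abbrev KL (N : ℕ) : Type := (Fin 2 → Fin (N + 1)) × Fin (N + 1) × (Fin 2 → Fin (N + 1))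

/-- The position at the row `e`. -/
def pF (N e : ℕ) (S : Px Q) : Fin (N + 1) := ⟨min N (ps S e).toNat, by omega⟩

theorem pF_eq (he : e ≤ N) (S : Px Q) : (((pF N e S : Fin (N + 1)) : ℕ) : ℤ) = ps S e := by
  have h1 := ps_nonneg S e
  have h2 := ps_le S e
  show ((min N (ps S e).toNat : ℕ) : ℤ) = ps S e
  rw [min_eq_right (by omega), Int.toNat_of_nonneg h1]

/-- **The key.** -/
def kL (N e : ℕ) (R1 R3 : ℝ) (r1 r3 : ℕ) (x : Fin 3 → Px Q) : KL N :=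
  (![bx pz R1 r1 N (x 2), bx pz R1 r1 N (x 1)], pF N e (x 2), ![bx pz R3 r3 N (x 2), bx pz R3 r3 N (x 0)])

/-- The key sees `x 0` only behind the macro slab. -/
theorem kx_kL (hJ : ∀ m ∈ J, m ≤ r3) : Kx J (pJ 0) (kL (Q := Q) N e R1 R3 r1 r3) := by
  refine ⟨fun a b c => (![bx pz R1 r1 N a, bx pz R1 r1 N b], pF N e a, ![bx pz R3 r3 N a, bx pz R3 r3 N c]), fun x => rfl,
    fun m hm a b c c' h => ?_⟩
  have h1 : pz c (r3 : ℤ) = pz c' (r3 : ℤ) := by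
    unfold InT57.pz
    rw [Int.toNat_natCast]
    exact ps_of_ge h (hJ m hm)
  have h2 : bx pz R3 (r3 : ℤ) N c = bx pz R3 (r3 : ℤ) N c' :=
    congrArg (fun v : ℤ => (⟨min N ⌊(v : ℝ) / R3⌋₊, by omega⟩ : Fin (N + 1))) h1
  show (_, _, _) = (_, _, _)
  rw [h2]

/-! ### The near fields -/

/-- The near field: backward, pinned at the position of the key at the row `e`, cut to the tubes of the near boxes. -/
def cL (μ : Measure ℝ) (s : ℝ) (N : ℕ) (A G : Env → (ℕ → ℤ) → ℝ) (e : ℕ) (sl R1 : ℝ) (r1 : ℕ) (J : Finset ℕ) (β : KL N) :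
    Pt → Env → ℝ := cut (chT sl R1 r1 β.1) (cb μ s A G e ((β.2.1 : ℕ) : ℤ) J)

theorem df_cL (hA : WF al be D' A) (hG : WF al be τ G) (hJ : ∀ r ∈ J, r ≤ al) (β : KL N) :
    DF true (sS J N) (cL μ s N A G e sl R1 r1 J β) (τ / J.card) :=
  (df_cb hA hG _ hJ N).cut (fun p => T73.chT_nonneg _ p) fun p => T73.chT_le_one _ p

theorem rf_cL (hA : WF al be D' A) (hG : WF al be τ G) (hab : al ≤ be) (he : be ≤ e) (hJ : ∀ r ∈ J, r ≤ al) (β : KL N) :
    RF 0 e J (τ / J.card) (cL μ s N A G e sl R1 r1 J β) :=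
  (rf_cb hA hG hab he _ fun r hr => ⟨Nat.zero_le _, hJ r hr⟩).cut (fun p => T73.chT_nonneg _ p) fun p => T73.chT_le_one _ p

theorem card_mul_le (J : Finset ℕ) (hτ : 0 ≤ τ) : (J.card : ℝ) * (τ / J.card) ≤ τ := by
  rcases J.eq_empty_or_nonempty with h | h
  · rw [h]
    simpa using hτ
  · rw [mul_div_cancel₀ _ (Nat.cast_ne_zero.2 h.card_pos.ne')]

theorem cb_bd (hG : WF al be τ G) (x' : ℤ) (p : Pt) (η : Env) : |cb μ s A G e x' J p η| ≤ τ / J.card :=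
  abs_fld ((abs_nonneg _).trans (hG.bd (fun _ => 0) fun _ => 0)) J
    (abs_pm_le ((abs_nonneg _).trans (hG.bd (fun _ => 0) fun _ => 0)) (hG.bd η) _ _)

theorem qv_cL (hG : WF al be τ G) (hR : 1 ≤ R1) (hJ0 : J.Nonempty) (β : KL N) (η : Env) :
    QV (sS J N) (cL μ s N A G e sl R1 r1 J β) η ≤ 14 * R1 * τ ^ 2 / J.card := by
  have h := QV_sS (sl := sl) (m0 := (r1 : ℤ)) (N := N) hR hJ0 (M := τ) (cc := cb μ s A G e ((β.2.1 : ℕ) : ℤ) J) η
    (fun p _ => cb_bd hG _ p η) β.1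
  rw [Fintype.card_fin] at h
  refine h.trans (le_of_eq ?_)
  push_cast
  ring

/-- The field on the right slab does not see the left slab. -/
theorem cL_blind (hA : WF al be D' A) (hG : WF al be τ G) (hJ1 : ∀ r ∈ J1, r ≤ al) (h : ∀ r ∈ J1, ∀ r' ∈ J2, r' ≤ r) (β : KL N) :
    ∀ q1 ∈ sS J1 N, ∀ q2 ∈ sS J2 N, ∀ (η : Env) (x : ℝ),
      cL μ s N A G e sl R1 r1 J1 β q1 (Function.update η q2 x) = cL μ s N A G e sl R1 r1 J1 β q1 η := by
  intro q1 h1 q2 h2 η x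
  obtain ⟨r, hr, a, _, e1⟩ := mem_sS.1 h1
  obtain ⟨r', hr', a', _, rfl⟩ := mem_sS.1 h2
  have h5 := h r hr r' hr'
  have h6 := hJ1 r hr
  unfold cL H41.cut
  rw [cb_blind hA hG _ hJ1 h1 (Or.inl ⟨by
    show ((r' : ℕ) : ℤ) ≤ al
    exact_mod_cast h5.trans h6, by
    rw [e1]
    show ((r' : ℕ) : ℤ) ≤ (r : ℤ)
    exact_mod_cast h5⟩) η x]

/-- The remainder of the uncut field pinned at `b`. -/
def Nb (μ : Measure ℝ) (s : ℝ) (N : ℕ) (Q : Finset (Finset ℕ)) (A G : Env → (ℕ → ℤ) → ℝ) (e : ℕ) (J : Finset ℕ) (η : Env) (b : ℤ) :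
    Px Q → ℝ := at2 G η - Cf (sS J N) (cb μ s A G e b J) (nq N) η

/-- The near far part. -/
def FL (μ : Measure ℝ) (s : ℝ) (N : ℕ) (Q : Finset (Finset ℕ)) (A G : Env → (ℕ → ℤ) → ℝ) (e : ℕ) (sl R1 : ℝ) (r1 : ℕ) (J : Finset ℕ)
    (η : Env) (β : KL N) : Px Q → ℝ := Cf (sS J N) (cut' (chT sl R1 r1 β.1) (cb μ s A G e ((β.2.1 : ℕ) : ℤ) J)) (nq N) η

theorem Nx_split [Nonempty (Px Q)] (β : KL N) (η : Env) :
    Nx N Q G J (cL μ s N A G e sl R1 r1 J) β η = Nb μ s N Q A G e J η ((β.2.1 : ℕ) : ℤ) + FL μ s N Q A G e sl R1 r1 J η β := by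
  have h1 := Cf_split (chT sl R1 r1 β.1) (sS J N) (cb μ s A G e ((β.2.1 : ℕ) : ℤ) J) (nq (Q := Q) N) η
  unfold Nx Nb FL cL
  rw [h1]
  abel

theorem abs_Cfb (hQ : Full N Q) (hG : WF al be τ G) (hJ : ∀ r ∈ J, 1 ≤ r ∧ r ≤ N) (b : ℤ) (η : Env) (S : Px Q) :
    |Cf (sS J N) (cb μ s A G e b J) (nq N) η S| ≤ τ := by
  rw [Cf_row hQ hJ]
  refine (Finset.abs_sum_le_sum_abs _ _).trans ((Finset.sum_le_sum fun r hr => cb_bd hG _ _ η).trans ?_)
  rw [Finset.sum_const, nsmul_eq_mul]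
  exact card_mul_le J ((abs_nonneg _).trans (hG.bd (fun _ => 0) fun _ => 0))

theorem Nb_bd (hQ : Full N Q) (hG : WF al be τ G) (hJ : ∀ r ∈ J, 1 ≤ r ∧ r ≤ N) (b : ℤ) (η : Env) (S : Px Q) :
    |Nb μ s N Q A G e J η b S| ≤ 2 * τ := by
  have h1 := abs_Cfb (μ := μ) (s := s) (A := A) (e := e) hQ hG hJ b η S
  have h2 : |at2 (Q := Q) G η S| ≤ τ := hG.bd η _
  refine (abs_sub _ _).trans ?_
  linarith

/-- It sees the rows up to `z'` only. -/
theorem Nb_lk (hQ : Full N Q) (hG : WF al be τ G) (hJ : ∀ r ∈ J, 1 ≤ r ∧ r ≤ N) (hz : be ≤ z') (hJz : ∀ r ∈ J, r ≤ z') (b : ℤ)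
    (η : Env) : Lk 0 z' (Nb μ s N Q A G e J η b) := by
  intro S S' h
  have h1 : at2 (Q := Q) G η S = at2 G η S' := hG.rd η _ _ fun r _ h3 => h r (Nat.zero_le _) (h3.trans hz)
  have h2 : Cf (sS J N) (cb μ s A G e b J) (nq N) η S = Cf (sS J N) (cb μ s A G e b J) (nq N) η S' := by
    rw [Cf_row hQ hJ, Cf_row hQ hJ]
    exact Finset.sum_congr rfl fun r hr => by rw [h r (Nat.zero_le _) (hJz r hr)]
  show at2 G η S - _ = at2 G η S' - _
  rw [h1, h2]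

/-- **At its own pin the remainder is told by the micro mass given `pJ r e`.** -/
theorem Nb_pin [Nonempty (Px Q)] (hQ : Full N Q) (hA : WF al be D' A) (hG : WF al be τ G) (hab : al ≤ be) (he : be ≤ e) (heN : e ≤ N)
    (hJ : ∀ r ∈ J, 1 ≤ r ∧ r ≤ al) (hJ0 : J.Nonempty) (η : Env) (S : Px Q) :
    |Nb μ s N Q A G e J η (ps S e) S| ≤ nn (lA μ s N Q A η) J (fun r => pJ r e) (at2 G η) S := by
  have h1 := Cf_cb (μ := μ) (s := s) (J := J) hQ hA.rd hG.rd hab he heN hJ η S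
  have h2 := abs_sub_Cq_le (w := lA μ s N Q A η) hJ0 (fun r => pJ r e) (at2 (Q := Q) G η) S
  have e3 : Nb μ s N Q A G e J η (ps S e) S = (at2 (Q := Q) G η - Cq (lA μ s N Q A η) J (fun r => pJ r e) (at2 G η)) S := by
    show at2 G η S - Cf (sS J N) (cb μ s A G e (ps S e) J) (nq N) η S = at2 G η S - Cq _ _ _ _ _
    rw [h1]
    rfl
  rw [e3]
  exact h2

open Classical in
/-- **The near far part**: out of the tubes of the boxes of `x 2`, `x 1` at a row of the slab. -/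
theorem abs_FL (hG : WF al be τ G) (hJ0 : J.Nonempty) (η : Env) (β : KL N) (S : Px Q) :
    |FL μ s N Q A G e sl R1 r1 J η β S| ≤ τ * (if OutB pz sl R1 r1 (JZ J) β.1 S then 1 else 0) :=
  abs_farS hJ0 ((abs_nonneg _).trans (hG.bd (fun _ => 0) fun _ => 0)) η (fun p _ => cb_bd hG _ p η) β.1 S

end Key

end

end Pool.Agent.W_7d29a1_C0.EL63
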