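import Pool.Agent.W_7d29a1_C0.MicE14
import Pool.Agent.W_7d29a1_C0.Mod92B

/-!
CURV0 (MP_7d29a1_pr): MEASURABLE AND BOUNDED FUNCTIONS (`MB`) and their closure under the replica averages (`gm`, `cE`, `PP`, `ev`, `Cq`,
`nn`, `mi`): for the integrability of the pathwise majorants. `sum_int_le`: a sum of integrals of absolute values is at most the integral
of a pathwise majorant. (helper63)
-/

set_option autoImplicit false
set_option linter.unusedSectionVars false
set_option linter.unusedVariables false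

namespace Pool.Agent.W_7d29a1_C0.MB63

open Finset MeasureTheory Pool.Agent.W_7d29a1_F Pool.Agent.W_7d29a1_X Pool.Agent.W_7d29a1_C0 Pool.Agent.W_7d29a1_C0.Mod92
open Pool.Agent.W_7d29a1_C0.MicE14 (Cq nn mi)
open Pool.W7d29a1.C0 Pool.W7d29a1.C0.VT31
open Pool.W7d29a1.C0.I52 (Plan ev av)

noncomputable section

variable {Ω : Type*} [MeasurableSpace Ω] {F G : Ω → ℝ}

/-- Measurable and bounded. -/
structure MB (F : Ω → ℝ) : Prop where
  ms : Measurable F
  bd : ∃ C, ∀ ω, |F ω| ≤ C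

namespace MB

theorem int {ν : Measure Ω} [IsFiniteMeasure ν] (h : MB F) : Integrable F ν := by
  obtain ⟨C, hC⟩ := h.bd
  exact Integrable.of_bound h.ms.aestronglyMeasurable C (Filter.Eventually.of_forall fun ω => by
    rw [Real.norm_eq_abs]
    exact hC ω)

theorem const (c : ℝ) : MB fun _ : Ω => c := ⟨measurable_const, |c|, fun _ => le_rfl⟩

theorem add (h : MB F) (h' : MB G) : MB fun ω => F ω + G ω := by
  obtain ⟨C, hC⟩ := h.bd
  obtain ⟨D, hD⟩ := h'.bd
  exact ⟨h.ms.add h'.ms, C + D, fun ω => (abs_add_le _ _).trans (add_le_add (hC ω) (hD ω))⟩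

theorem sub (h : MB F) (h' : MB G) : MB fun ω => F ω - G ω := by
  obtain ⟨C, hC⟩ := h.bd
  obtain ⟨D, hD⟩ := h'.bd
  exact ⟨h.ms.sub h'.ms, C + D, fun ω => (abs_sub _ _).trans (add_le_add (hC ω) (hD ω))⟩

theorem mul (h : MB F) (h' : MB G) : MB fun ω => F ω * G ω := by
  obtain ⟨C, hC⟩ := h.bd
  obtain ⟨D, hD⟩ := h'.bd
  exact ⟨h.ms.mul h'.ms, C * D, fun ω => by
    rw [abs_mul]
    exact mul_le_mul (hC ω) (hD ω) (abs_nonneg _) ((abs_nonneg _).trans (hC ω))⟩

theorem abs (h : MB F) : MB fun ω => |F ω| := by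
  obtain ⟨C, hC⟩ := h.bd
  exact ⟨h.ms.abs, C, fun ω => by
    rw [abs_abs]
    exact hC ω⟩

theorem smul (c : ℝ) (h : MB F) : MB fun ω => c * F ω := (const c).mul h

theorem sum {ι : Type*} (s : Finset ι) {f : ι → Ω → ℝ} (h : ∀ i ∈ s, MB (f i)) : MB fun ω => ∑ i ∈ s, f i ω := by
  classical
  induction s using Finset.induction_on with
  | empty => simpa using const 0
  | insert a s ha ih =>
    have h1 := (h a (mem_insert_self a s)).add (ih fun i hi => h i (mem_insert_of_mem hi))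
    simpa only [Finset.sum_insert ha] using h1

theorem ite {p : Prop} [Decidable p] (h : MB F) (h' : MB G) : MB fun ω => if p then F ω else G ω := by
  split_ifs
  · exact h
  · exact h'

/-- One bound for finitely many functions. -/
theorem unif {X : Type*} [Fintype X] {f : Ω → X → ℝ} (h : ∀ x, MB fun ω => f ω x) : ∃ C, 0 ≤ C ∧ ∀ ω x, |f ω x| ≤ C := by
  choose C hC using fun x => (h x).bd
  refine ⟨∑ x, |C x|, Finset.sum_nonneg fun x _ => abs_nonneg _, fun ω x => ?_⟩
  exact ((hC x ω).trans (le_abs_self _)).trans (Finset.single_le_sum (f := fun x => |C x|) (fun i _ => abs_nonneg _) (mem_univ x))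

section Rep

variable {X : Type*} [Fintype X] [DecidableEq X] [Nonempty X] {Y : Type*} [DecidableEq Y] {w : Ω → X → ℝ} {f : Ω → X → ℝ}

theorem cE (hw : ∀ x, Measurable fun ω => w ω x) (h : ∀ x, MB fun ω => f ω x) (p : X → Y) (x : X) :
    MB fun ω => VT31.cE (w ω) p (f ω) x := by
  obtain ⟨C, hC0, hC⟩ := unif h
  refine ⟨Mod92.meas_cE hw (fun x => (h x).ms) p x, C, fun ω => ?_⟩
  rw [I52.cE_eq_av]
  refine (I52.abs_av_le _ _ _).trans ((I52.av_mono _ _ fun s _ => hC ω s).trans (le_of_eq ?_))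
  have hne : (univ.filter fun s => p s = p x).Nonempty := ⟨x, mem_filter.2 ⟨mem_univ _, rfl⟩⟩
  exact I52.av_const _ hne _

theorem gm (hw : ∀ x, Measurable fun ω => w ω x) (h : ∀ x, MB fun ω => f ω x) : MB fun ω => Pool.W7d29a1.C0.gm (w ω) (f ω) := by
  obtain ⟨C, hC0, hC⟩ := unif h
  refine ⟨Mod92.meas_gm hw (fun x => (h x).ms), C, fun ω => ?_⟩
  rw [I52.gm_eq_av]
  refine (I52.abs_av_le _ _ _).trans ((I52.av_mono _ _ fun s _ => hC ω s).trans (le_of_eq ?_))
  exact I52.av_const _ univ_nonempty _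

theorem ev {m : ℕ} (P : Plan X m) {Ψ : Ω → (Fin m → X) → ℝ} (hw : ∀ x, Measurable fun ω => w ω x) (h : ∀ x, MB fun ω => Ψ ω x) :
    MB fun ω => I52.ev P (w ω) (Ψ ω) := by
  obtain ⟨C, hC0, hC⟩ := unif h
  refine ⟨?_, C, fun ω => I52.abs_ev_le_of P _ (hC ω)⟩
  unfold I52.ev
  exact Finset.measurable_sum _ fun x _ => ((I52.wt_contDiff (n := 0) P x).continuous.measurable.comp
    (measurable_pi_iff.2 hw)).mul (h x).ms

theorem PP {K : Ω → X → X → ℝ} (hw : ∀ x, Measurable fun ω => w ω x) (h : ∀ x y, MB fun ω => K ω x y) :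
    MB fun ω => Pool.W7d29a1.C0.PP (w ω) (K ω) := by
  have e : (fun ω => Pool.W7d29a1.C0.PP (w ω) (K ω)) =
      fun ω => Pool.W7d29a1.C0.gm (w ω) fun x => Pool.W7d29a1.C0.gm (w ω) (K ω x) := by
    funext ω
    exact (CutT57.gm_gm_eq_PP _ _).symm
  rw [e]
  exact gm hw fun x => gm hw fun y => h x y

/-- The functionals of helper14. -/
theorem Cq {q : ℕ → X → Y} (hw : ∀ x, Measurable fun ω => w ω x) (h : ∀ x, MB fun ω => f ω x) (J : Finset ℕ) (x : X) :
    MB fun ω => MicE14.Cq (w ω) J q (f ω) x :=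
  smul _ (sum J fun m _ => cE hw h (q m) x)

theorem nn {q : ℕ → X → Y} (hw : ∀ x, Measurable fun ω => w ω x) (h : ∀ x, MB fun ω => f ω x) (J : Finset ℕ) (x : X) :
    MB fun ω => MicE14.nn (w ω) J q (f ω) x :=
  smul _ (sum J fun m _ => cE (f := fun ω T => |f ω x - f ω T|) hw (fun T => ((h x).sub (h T)).abs) (q m) x)

theorem mi {I : Ω → X → X → ℝ} (hw : ∀ x, Measurable fun ω => w ω x) (h : ∀ x y, MB fun ω => I ω x y) (p : X → Y) (x : X) :
    MB fun ω => MicE14.mi (w ω) p (I ω) x :=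
  cE (f := fun ω => I ω x) hw (fun y => h x y) p x

end Rep

end MB

/-- **A sum of integrals of absolute values under a pathwise majorant.** -/
theorem sum_int_le {T : Type*} [Fintype T] {ν : Measure Ω} {u : T → Ω → ℝ} {b : Ω → ℝ} (hb : Integrable b ν)
    (h : ∀ ω, ∑ β, |u β ω| ≤ b ω) : ∑ β, ∫ ω, |u β ω| ∂ν ≤ ∫ ω, b ω ∂ν := by
  classical
  have e : ∀ β, ∫ ω, |u β ω| ∂ν = ∫ ω, (if Integrable (fun ω => |u β ω|) ν then |u β ω| else 0) ∂ν := fun β => by
    by_cases hβ : Integrable (fun ω => |u β ω|) ν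
    · simp only [if_pos hβ]
    · simp only [if_neg hβ]
      rw [integral_undef hβ, integral_zero]
  have i : ∀ β, Integrable (fun ω => if Integrable (fun ω => |u β ω|) ν then |u β ω| else 0) ν := fun β => by
    by_cases hβ : Integrable (fun ω => |u β ω|) ν
    · simp only [if_pos hβ]
      exact hβ
    · simp only [if_neg hβ]
      exact integrable_zero _ _ _
  rw [Finset.sum_congr rfl fun β _ => e β, ← integral_finsetSum _ fun β _ => i β]
  refine integral_mono (integrable_finsetSum _ fun β _ => i β) hb fun ω => ?_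
  refine (Finset.sum_le_sum fun β _ => ?_).trans (h ω)
  split_ifs
  · exact le_rfl
  · exact abs_nonneg _

end

end Pool.Agent.W_7d29a1_C0.MB63
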