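import Pool.Agent.W_7d29a1_C0.E2L63
import Pool.Agent.W_7d29a1_C0.MicL14
import Pool.Agent.W_7d29a1_C0.Mb63

/-!
CURV0 (MP_7d29a1_pr), section E2, PART L: THE LIST. `e2_mac` (helper63) with the pinned near fields of `E2L63` and the three remainder sums
of `MicL14` (helper14). `e2_L`: the double insertion is at most: gains times own; the derivatives of the observable along the near
fields; the micro tie given `pJ r e` at the own paths (`G1`), the inner pair given `pJ 0 m'` and LONG (`TL`); the near far part (`fa`,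
`fb`, `fc`); the macro far part (`FK`); exponentially small terms. (helper63)
-/

set_option autoImplicit false
set_option linter.unusedSectionVars false
set_option linter.unusedVariables false

namespace Pool.Agent.W_7d29a1_C0.EL63

open Finset MeasureTheory Pool.Agent.W_7d29a1_F Pool.Agent.W_7d29a1_X Pool.Agent.W_7d29a1_H
open Pool.Agent.W_7d29a1_C0 Pool.Agent.W_7d29a1_C0.H32 Pool.Agent.W_7d29a1_C0.Mod92 Pool.Agent.W_7d29a1_C0.Blk18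
open Pool.Agent.W_7d29a1_C0.FP63 Pool.Agent.W_7d29a1_C0.InT57 Pool.Agent.W_7d29a1_C0.FM63 Pool.Agent.W_7d29a1_C0.EM63
open Pool.Agent.W_7d29a1_C0.CutE14 (P3)
open Pool.Agent.W_7d29a1_C0.MicE14 (Cq nn mi Bdp abs_sub_Cq_le)
open Pool.Agent.W_7d29a1_C0.MicH14 (Ox G1 T0Q)
open Pool.Agent.W_7d29a1_C0.MicI14 (Kx lk14)
open Pool.Agent.W_7d29a1_C0.MicL14
open Pool.Agent.W_7d29a1_C0.Swap57
open Pool.Agent.W_7d29a1_C0.NM82 (Hd)
open Pool.Agent.W_7d29a1_C0.MB63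
open Pool.W7d29a1.C0 Pool.W7d29a1.C0.VT31
open Pool.W7d29a1.C0.I52 (KS sgs av ev ks_ev wt)
open Pool.W7d29a1.C0.H19 (Cf)
open Pool.W7d29a1.C0.H41 (Ev Dr Obs Wt cut cut' QV Cf_split tail1 tail2)
open Pool.W7d29a1.C0.R63
open Pool.W7d29a1.C0.T73 (chT OutB bx)

noncomputable section

/-! ### Far functionals, monotone -/

section Mono

variable {X : Type*} [Fintype X] [DecidableEq X] [Nonempty X] {Y Y' : Type*} [DecidableEq Y] [DecidableEq Y'] {T : Type*}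
  [Fintype T] [DecidableEq T] {p : X → Y} {w : X → ℝ} {κ : (Fin 3 → X) → T} {Ψ : (Fin 3 → X) → ℝ} {F o : T → X → ℝ} {M : ℝ}
  {J : Finset ℕ} {q : ℕ → X → Y'}

theorem fa_le (h : ∀ β y, |F β y| ≤ M * |o β y|) : fa w p κ F Ψ ≤ M * fa w p κ o Ψ := by
  unfold fa
  rw [← I52.ev_smul]
  refine I52.ev_mono _ _ fun x => ?_
  refine (mul_le_mul_of_nonneg_left (add_le_add (h _ _) (h _ _)) (abs_nonneg _)).trans (le_of_eq ?_)
  ring

theorem fb_le (h : ∀ β y, |F β y| ≤ M * |o β y|) : fb w p κ F Ψ ≤ M * fb w p κ o Ψ := by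
  unfold fb
  rw [← I52.ev_smul]
  refine I52.ev_mono _ _ fun x => ?_
  have h1 := cE_mono w p (f := fun y => |F (κ x) y|) (g := fun y => M * |o (κ x) y|) (fun y => h _ y) (x 2)
  have h2 : cE w p (fun y => M * |o (κ x) y|) (x 2) = M * cE w p (fun y => |o (κ x) y|) (x 2) := by
    rw [I52.cE_eq_av, I52.av_smul, ← I52.cE_eq_av]
  rw [h2] at h1
  refine (mul_le_mul_of_nonneg_left h1 (abs_nonneg _)).trans (le_of_eq ?_)
  ring

theorem fc_le (h : ∀ β y, |F β y| ≤ M * |o β y|) : fc w p J q κ F Ψ ≤ M * fc w p J q κ o Ψ := by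
  unfold fc
  rw [← I52.ev_smul]
  refine I52.ev_mono _ _ fun x => ?_
  have h1 := Cq_mono (w := w) (J := J) (q := q) (f := fun y => |F (κ x) y|) (h := fun y => M * |o (κ x) y|) (fun y => h _ y) (x 2)
  rw [Cq_mul] at h1
  refine (mul_le_mul_of_nonneg_left h1 (abs_nonneg _)).trans (le_of_eq ?_)
  ring

/-- One insertion of `g` in the observable. -/
theorem ev1_g {g : X → ℝ} (hg : ∀ x, |g x| ≤ M) (Φ : (Fin 3 → X) → ℝ) :
    (P3 p).ks.dbl.toEv.ev w (fun y => |(P3 p).ks.dr.ins g Φ y|) ≤ 6 * M * ev (P3 p) w fun x => |Φ x| := by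
  refine (H41.ev_mono _ _ fun y => MicE14.abs_ins_g hg Φ y).trans (le_of_eq ?_)
  rw [H41.ev_smul, (P3 p).ks.dbl_old w fun x => |Φ x|, ks_ev]

end Mono

/-! ### Measurability and bounds of the majorants -/

section Meas

variable {Ω : Type*} [MeasurableSpace Ω] {X : Type*} [Fintype X] [DecidableEq X] [Nonempty X] {Y : Type*} [DecidableEq Y]
  {T : Type*} [Fintype T] [DecidableEq T] {p : X → Y} {w : Ω → X → ℝ} {κ : (Fin 3 → X) → T} {Ψ : Ω → (Fin 3 → X) → ℝ} {o : T → X → ℝ}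
  {J : Finset ℕ} {I : X → X → ℝ} {ρ : Ω → X → X → ℝ} {n : Ω → X → ℝ}

theorem mb_G1 (hw : ∀ x, Measurable fun ω => w ω x) (hρ : ∀ x y, MB fun ω => ρ ω x y) (hn : ∀ x, MB fun ω => n ω x) (p : X → Y)
    (I : X → X → ℝ) (α β : ℝ) : MB fun ω => G1 (w ω) p I (ρ ω) (n ω) α β := by
  have hI : ∀ x, MB fun ω => mi (w ω) p I x := fun x => MB.mi (I := fun _ => I) hw (fun x y => MB.const _) p x
  exact (MB.smul α (MB.PP (K := fun ω x x' => mi (w ω) p I x * (n ω x * ρ ω x x')) hw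
    fun x y => (hI x).mul ((hn x).mul (hρ x y)))).add (MB.smul β (MB.PP (K := fun ω x x' => mi (w ω) p I x *
      (cE (w ω) p (n ω) x * ρ ω x x')) hw fun x y => (hI x).mul ((MB.cE hw hn p x).mul (hρ x y))))

theorem mb_fa (hw : ∀ x, Measurable fun ω => w ω x) (hΨ : ∀ x, MB fun ω => Ψ ω x) (p : X → Y) :
    MB fun ω => fa (w ω) p κ o (Ψ ω) :=
  MB.ev (P3 p) (Ψ := fun ω x => |Ψ ω x| * (|o (κ x) (x 2)| + |o (κ x) (x 1)|)) hw fun x => (hΨ x).abs.mul (MB.const _)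

theorem mb_fb (hw : ∀ x, Measurable fun ω => w ω x) (hΨ : ∀ x, MB fun ω => Ψ ω x) (p : X → Y) :
    MB fun ω => fb (w ω) p κ o (Ψ ω) :=
  MB.ev (P3 p) (Ψ := fun ω x => |Ψ ω x| * cE (w ω) p (fun y => |o (κ x) y|) (x 2)) hw fun x =>
    (hΨ x).abs.mul (MB.cE (f := fun _ y => |o (κ x) y|) hw (fun _ => MB.const _) p _)

theorem mb_fc {Y' : Type*} [DecidableEq Y'] {q : ℕ → X → Y'} (hw : ∀ x, Measurable fun ω => w ω x) (hΨ : ∀ x, MB fun ω => Ψ ω x)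
    (p : X → Y) (J : Finset ℕ) : MB fun ω => fc (w ω) p J q κ o (Ψ ω) :=
  MB.ev (P3 p) (Ψ := fun ω x => |Ψ ω x| * Cq (w ω) J q (fun y => |o (κ x) y|) (x 2)) hw fun x =>
    (hΨ x).abs.mul (MB.Cq (f := fun _ y => |o (κ x) y|) hw (fun _ => MB.const _) J _)

theorem mb_FK (hw : ∀ x, Measurable fun ω => w ω x) (hΨ : ∀ x, MB fun ω => Ψ ω x) (p : X → Y) (a : ℝ) :
    MB fun ω => FK (w ω) p κ o (Ψ ω) a :=
  MB.ev (P3 p) (Ψ := fun ω x => |Ψ ω x| * (∑ i, o (κ x) (x i) + a * (2 * gm (w ω) (o (κ x)) + cE (w ω) p (o (κ x)) (x 2)))) hw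
    fun x => (hΨ x).abs.mul ((MB.const _).add (MB.smul a ((MB.smul 2 (MB.gm (f := fun _ => o (κ x)) hw fun _ => MB.const _)).add
      (MB.cE (f := fun _ => o (κ x)) hw (fun _ => MB.const _) p _))))

end Meas

section MeasQ

variable {Ω : Type*} [MeasurableSpace Ω] {Q : Finset (Finset ℕ)} [Nonempty (Px Q)] {Y : Type*} [DecidableEq Y]
  {w : Ω → Px Q → ℝ} {ρ : Ω → Px Q → Px Q → ℝ} {n : Ω → Px Q → ℝ}

theorem mb_TL (hw : ∀ x, Measurable fun ω => w ω x) (hρ : ∀ x y, MB fun ω => ρ ω x y) (hn : ∀ x, MB fun ω => n ω x)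
    (p : Px Q → Y) (J : Finset ℕ) (z' e : ℕ) (I : Px Q → Px Q → ℝ) (Mb : ℝ) : MB fun ω => TL (w ω) p J z' e I (ρ ω) (n ω) Mb := by
  have hI : ∀ x, MB fun ω => mi (w ω) p I x := fun x => MB.mi (I := fun _ => I) hw (fun x y => MB.const _) p x
  unfold TL T0Q Lng
  refine MB.add (MB.smul _ (MB.sum J fun m _ => ?_)) (MB.smul _ (MB.smul _ (MB.sum J fun m _ => ?_)))
  · exact MB.PP (K := fun ω x x' => cE (w ω) (pJ 0 m) (mi (w ω) p I) x * (n ω x * ρ ω x x')) hw fun x y =>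
      (MB.cE hw hI (pJ 0 m) x).mul ((hn x).mul (hρ x y))
  · exact MB.PP (K := fun ω x y => mi (w ω) p I x * (cE (w ω) (pJ 0 m) (NI z' e x) x * ρ ω x y)) hw fun x y =>
      (hI x).mul ((MB.cE (f := fun _ => NI z' e x) hw (fun _ => MB.const _) (pJ 0 m) x).mul (hρ x y))

end MeasQ

/-! ### The list -/

section List

variable {μ : Measure ℝ} {s : ℝ} {N al be e e3 z' : ℕ} {Q : Finset (Finset ℕ)} {A G : Env → (ℕ → ℤ) → ℝ} {J J1 J2 J3 J4 : Finset ℕ}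
  {D' τ sl R1 R3 : ℝ} {r1 r3 : ℕ} {Y : Type*} [DecidableEq Y]

open Classical in
/-- Out of the tubes of the near boxes (of `x 2`, `x 1`) at a row of `J`. -/
def oN (N : ℕ) (sl R1 : ℝ) (r1 : ℕ) (J : Finset ℕ) (β : KL N) (S : Px Q) : ℝ := if OutB pz sl R1 r1 (JZ J) β.1 S then 1 else 0

open Classical in
/-- Out of the tubes of the macro boxes (of `x 2`, `x 0`) at a row of `J`. -/
def oM (N : ℕ) (sl R3 : ℝ) (r3 : ℕ) (J : Finset ℕ) (β : KL N) (S : Px Q) : ℝ := if OutB pz sl R3 r3 (JZ J) β.2.2 S then 1 else 0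

/-- The data of the observable of part L, for every environment. -/
structure DL (μ : Measure ℝ) (s : ℝ) (N : ℕ) (Q : Finset (Finset ℕ)) [SwQ Q] [Nonempty (Px Q)] (A : Env → (ℕ → ℤ) → ℝ) (p : Px Q → Y)
    (z' e : ℕ) (I : Px Q → Px Q → ℝ) (ρ : Env → Px Q → Px Q → ℝ) (K0 : ℝ) (J3 J4 : Finset ℕ) (Ψ : Env → (Fin 3 → Px Q) → ℝ) : Prop where
  hd : ∀ η, Hd z' e (lA μ s N Q A η)
  bd : ∀ η, Bdp I (ρ η) K0 (Ψ η)
  K00 : 0 ≤ K0
  Is : ∀ x y, I x y = I y x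
  I0 : ∀ x y, 0 ≤ I x y
  mpr : ∀ η y, Mp p fun x => ρ η x y
  r0 : ∀ η x y, 0 ≤ ρ η x y
  mb : ∀ x y, MB fun η => ρ η x y
  lmi : ∀ η, Lk 0 z' (mi (lA μ s N Q A η) p I)
  kp : ∀ S S', p S = p S' → ps S e = ps S' e
  ne3 : J3.Nonempty
  ne4 : J4.Nonempty
  crs : ∀ m, e < m → Crs (pJ 0 m) p
  mprJ : ∀ m ∈ J3 ∪ J4, ∀ η y, Mp (pJ 0 m) fun x => ρ η x y
  o3 : ∀ η, Ox J3 (pJ 0) (Ψ η)
  o4 : ∀ η, Ox J4 (pJ 0) (Ψ η)

variable [SwQ Q] [Nonempty (Px Q)] {p : Px Q → Y} {I : Px Q → Px Q → ℝ} {ρ : Env → Px Q → Px Q → ℝ} {K0 D0 D1 D2 : ℝ}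
  {Ψ : Env → (Fin 3 → Px Q) → ℝ} {Ψ1 Ψ2 : Pt → Env → (Fin 3 → Px Q) → ℝ}

/-- The micro tie of the slab `J`, pinned at the row `e`. -/
def nL (μ : Measure ℝ) (s : ℝ) (N : ℕ) (Q : Finset (Finset ℕ)) (A G : Env → (ℕ → ℤ) → ℝ) (e : ℕ) (J : Finset ℕ) (η : Env) : Px Q → ℝ :=
  nn (lA μ s N Q A η) J (fun r => pJ r e) (at2 G η)

theorem DL.hl (H : DL μ s N Q A p z' e I ρ K0 J3 J4 Ψ) (hQ : Full N Q) (hA : WF al be D' A) (hG : WF al be τ G) (hab : al ≤ be)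
    (he : be ≤ e) (heN : e ≤ N) (hz : be ≤ z') (hJ : ∀ r ∈ J, 1 ≤ r ∧ r ≤ al) (hJ0 : J.Nonempty) (η : Env) :
    HL (lA μ s N Q A η) p z' e I (ρ η) K0 (2 * τ) (nL μ s N Q A G e J η) (kL (Q := Q) N e R1 R3 r1 r3) (fun S => ps S e)
      (fun β : KL N => ((β.2.1 : ℕ) : ℤ)) (Nb μ s N Q A G e J η) (Ψ η) where
  hd := H.hd η
  bd := H.bd η
  Is := H.Is
  I0 := H.I0
  mpr := H.mpr η
  r0 := H.r0 η
  n0 := fun x => (abs_nonneg _).trans (Nb_pin hQ hA hG hab he heN hJ hJ0 η x)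
  lmi := H.lmi η
  kp := fun y y' h => H.kp y y' h
  ker := fun S S' h => h e le_rfl
  kk := fun x _ => (pF_eq heN (x 2)).symm
  lN := fun b S S' h => by
    show |_| = |_|
    rw [Nb_lk (μ := μ) (s := s) (A := A) (e := e) hQ hG (fun r hr => ⟨(hJ r hr).1, by have := (hJ r hr).2; omega⟩) hz
      (fun r hr => by have := (hJ r hr).2; omega) b η S S' h]
  bN := fun b S => Nb_bd hQ hG (fun r hr => ⟨(hJ r hr).1, by have := (hJ r hr).2; omega⟩) b η S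
  nN := fun S => Nb_pin hQ hA hG hab he heN hJ hJ0 η S

theorem DL.sl3 (H : DL μ s N Q A p z' e I ρ K0 J3 J4 Ψ) (h3 : ∀ r ∈ J3, e < r) (η : Env) : SL p e (ρ η) J3 :=
  ⟨H.ne3, fun m hm => (h3 m hm).le, fun m hm => H.crs m (h3 m hm), fun m hm y => H.mprJ m (mem_union_left _ hm) η y⟩

theorem DL.sl4 (H : DL μ s N Q A p z' e I ρ K0 J3 J4 Ψ) (h4 : ∀ r ∈ J4, e < r) (η : Env) : SL p e (ρ η) J4 :=
  ⟨H.ne4, fun m hm => (h4 m hm).le, fun m hm => H.crs m (h4 m hm), fun m hm y => H.mprJ m (mem_union_right _ hm) η y⟩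

end List

end

end Pool.Agent.W_7d29a1_C0.EL63
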