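import Pool.Agent.W_7d29a1_C0.E2LA63

/-!
CURV0 (MP_7d29a1_pr), section E2, PART L: THE LIST. `e2_L`: the double insertion of part L is at most: gains times own; the
derivatives of the observable along the near fields; the micro tie given `pJ r e` at the own paths (`G1`), the inner pair given `pJ 0 m'`
and LONG (`TL`); the near far part (`fa`, `fb`, `fc`); the macro far part (`FK`); exponentially small terms. (helper63)
-/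

set_option autoImplicit false
set_option linter.unusedSectionVars false
set_option linter.unusedVariables false

namespace Pool.Agent.W_7d29a1_C0.EL63

open Finset MeasureTheory Pool.Agent.W_7d29a1_F Pool.Agent.W_7d29a1_X Pool.Agent.W_7d29a1_H
open Pool.Agent.W_7d29a1_C0 Pool.Agent.W_7d29a1_C0.H32 Pool.Agent.W_7d29a1_C0.Mod92 Pool.Agent.W_7d29a1_C0.Blk18
open Pool.Agent.W_7d29a1_C0.FP63 Pool.Agent.W_7d29a1_C0.InT57 Pool.Agent.W_7d29a1_C0.FM63 Pool.Agent.W_7d29a1_C0.EM63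
open Pool.Agent.W_7d29a1_C0.CutE14 (P3)
open Pool.Agent.W_7d29a1_C0.MicE14 (Cq nn mi Bdp abs_sub_Cq_le)
open Pool.Agent.W_7d29a1_C0.MicH14 (Ox G1 T0Q)
open Pool.Agent.W_7d29a1_C0.MicI14 (Kx lk14)
open Pool.Agent.W_7d29a1_C0.MicL14
open Pool.Agent.W_7d29a1_C0.Swap57
open Pool.Agent.W_7d29a1_C0.NM82 (Hd)
open Pool.Agent.W_7d29a1_C0.MB63
open Pool.W7d29a1.C0 Pool.W7d29a1.C0.VT31
open Pool.W7d29a1.C0.I52 (KS sgs av ev ks_ev wt)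
open Pool.W7d29a1.C0.H19 (Cf)
open Pool.W7d29a1.C0.H41 (Ev Dr Obs Wt cut cut' QV Cf_split tail1 tail2)
open Pool.W7d29a1.C0.R63
open Pool.W7d29a1.C0.T73 (chT OutB bx)

noncomputable section

variable {μ : Measure ℝ} {s : ℝ} {N al be e e3 z' : ℕ} {Q : Finset (Finset ℕ)} {A G : Env → (ℕ → ℤ) → ℝ} {J J1 J2 J3 J4 : Finset ℕ}
  {D' τ sl R1 R3 : ℝ} {r1 r3 : ℕ} {Y : Type*} [DecidableEq Y] [SwQ Q] [Nonempty (Px Q)] {p : Px Q → Y} {I : Px Q → Px Q → ℝ}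
  {ρ : Env → Px Q → Px Q → ℝ} {K0 D0 D1 D2 : ℝ} {Ψ : Env → (Fin 3 → Px Q) → ℝ} {Ψ1 Ψ2 : Pt → Env → (Fin 3 → Px Q) → ℝ}

/-! ### The integrated functionals -/

/-- The micro tie at the own paths. -/
def iG (μ : Measure ℝ) (s : ℝ) (N : ℕ) (Q : Finset (Finset ℕ)) [Nonempty (Px Q)] (A : Env → (ℕ → ℤ) → ℝ) (p : Px Q → Y)
    (I : Px Q → Px Q → ℝ) (ρ : Env → Px Q → Px Q → ℝ) (n : Env → Px Q → ℝ) (a b : ℝ) : ℝ :=
  ∫ η, G1 (lA μ s N Q A η) p I (ρ η) (n η) a b ∂(law μ)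

/-- The inner pair given `pJ 0 m'` and LONG. -/
def iT (μ : Measure ℝ) (s : ℝ) (N : ℕ) (Q : Finset (Finset ℕ)) [Nonempty (Px Q)] (A : Env → (ℕ → ℤ) → ℝ) (p : Px Q → Y) (J' : Finset ℕ)
    (z' e : ℕ) (I : Px Q → Px Q → ℝ) (ρ : Env → Px Q → Px Q → ℝ) (n : Env → Px Q → ℝ) (Mb : ℝ) : ℝ :=
  ∫ η, TL (lA μ s N Q A η) p J' z' e I (ρ η) (n η) Mb ∂(law μ)

/-- The near far part. -/
def iN (μ : Measure ℝ) (s : ℝ) (N : ℕ) (Q : Finset (Finset ℕ)) [Nonempty (Px Q)] (A : Env → (ℕ → ℤ) → ℝ) (p : Px Q → Y)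
    (J3 J4 : Finset ℕ) {T : Type*} [DecidableEq T] (κ : (Fin 3 → Px Q) → T) (o : T → Px Q → ℝ) (Ψ : Env → (Fin 3 → Px Q) → ℝ)
    (a b c d : ℝ) : ℝ :=
  a * ∫ η, fa (lA μ s N Q A η) p κ o (Ψ η) ∂(law μ) + b * ∫ η, fb (lA μ s N Q A η) p κ o (Ψ η) ∂(law μ) +
    (c * ∫ η, fc (lA μ s N Q A η) p J3 (pJ 0) κ o (Ψ η) ∂(law μ) + d * ∫ η, fc (lA μ s N Q A η) p J4 (pJ 0) κ o (Ψ η) ∂(law μ))

/-- The macro far part. -/
def iK (μ : Measure ℝ) (s : ℝ) (N : ℕ) (Q : Finset (Finset ℕ)) [Nonempty (Px Q)] (A : Env → (ℕ → ℤ) → ℝ) (p : Px Q → Y)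
    {T : Type*} [DecidableEq T] (κ : (Fin 3 → Px Q) → T) (o : T → Px Q → ℝ) (Ψ : Env → (Fin 3 → Px Q) → ℝ) (a : ℝ) : ℝ :=
  ∫ η, FK (lA μ s N Q A η) p κ o (Ψ η) a ∂(law μ)

/-- The observable. -/
def iP (μ : Measure ℝ) (s : ℝ) (N : ℕ) (Q : Finset (Finset ℕ)) [Nonempty (Px Q)] (A : Env → (ℕ → ℤ) → ℝ) (p : Px Q → Y)
    (Ψ : Env → (Fin 3 → Px Q) → ℝ) : ℝ := ∫ η, ev (P3 p) (lA μ s N Q A η) (fun x => |Ψ η x|) ∂(law μ)

section Lin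

variable {Ω : Type*} [MeasurableSpace Ω] {ν : Measure Ω} [IsFiniteMeasure ν] {a b c d e f g : Ω → ℝ}

theorem int_add' (ha : MB a) (hb : MB b) : ∫ ω, (a ω + b ω) ∂ν = ∫ ω, a ω ∂ν + ∫ ω, b ω ∂ν := integral_add ha.int hb.int

theorem int_smul' (k : ℝ) (a : Ω → ℝ) : ∫ ω, k * a ω ∂ν = k * ∫ ω, a ω ∂ν := integral_const_mul k a

end Lin

section Three

variable [IsProbabilityMeasure μ]

theorem mb_lA (hA : WF al be D' A) (x : Px Q) : Measurable fun η => lA μ s N Q A η x :=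
  (measurable_pi_apply x).comp (Wt_lA (μ := μ) (s := s) (N := N) (Q := Q) (S := ∅) hA fun p hp => absurd hp (notMem_empty p)).meas

theorem mb_at2 (hG : WF al be τ G) (x : Px Q) : MB fun η => at2 (Q := Q) G η x :=
  ⟨(measurable_pi_apply x).comp (at2_meas hG), τ, fun η => hG.bd η _⟩

theorem mb_nL (hA : WF al be D' A) (hG : WF al be τ G) (e : ℕ) (J : Finset ℕ) (x : Px Q) :
    MB fun η => nL μ s N Q A G e J η x := MB.nn (mb_lA hA) (mb_at2 hG) J x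

/-- The observable of the list. -/
theorem mb_Psi (hΨ : Obs Ψ D0) (x : Fin 3 → Px Q) : MB fun η => Ψ η x := ⟨(measurable_pi_apply x).comp hΨ.meas, D0, fun η => hΨ.bd η x⟩

variable (H : DL μ s N Q A p z' e I ρ K0 J3 J4 Ψ) (hQ : Full N Q) (hA : WF al be D' A) (hG : WF al be τ G) (hΨ : Obs Ψ D0)
  (hab : al ≤ be) (hae : be ≤ e) (hz : be ≤ z') (hee : e ≤ e3) (he3 : e3 ≤ N) (hJ : ∀ r ∈ J, 1 ≤ r ∧ r ≤ al) (hJ0 : J.Nonempty)
  (hj3 : ∀ r ∈ J3, e < r ∧ r ≤ e3) (hj4 : ∀ r ∈ J4, e3 < r ∧ r ≤ N) (hr3 : ∀ r ∈ J4, r ≤ r3) (hr3' : e3 ≤ r3)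

include H hQ hA hG hΨ hab hae hz hee he3 hJ hJ0 hj3 hr3'

/-- **One insertion.** -/
theorem l_one : ∑ β, ∫ η, |(P3 p).ks.dbl.toEv.ev (lA μ s N Q A η) ((P3 p).ks.dr.ins
      (Hx μ s N Q A G J (cL μ s N A G e sl R1 r1 J) J3 β η) (lcK (kL N e R1 R3 r1 r3) β (Ψ η)))| ∂(law μ) ≤
    K0 * (iG μ s N Q A p I ρ (nL μ s N Q A G e J) 2 1 + 3 * iT μ s N Q A p J3 z' e I ρ (nL μ s N Q A G e J) (2 * τ)) +
      τ * iN μ s N Q A p J3 J4 (kL N e R1 R3 r1 r3) (oN N sl R1 r1 J) Ψ 1 1 3 0 := by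
  have τ0 : 0 ≤ τ := (abs_nonneg _).trans (hG.bd (fun _ => 0) fun _ => 0)
  have i1 : MB fun η => G1 (lA μ s N Q A η) p I (ρ η) (nL μ s N Q A G e J η) 2 1 := mb_G1 (mb_lA hA) H.mb (mb_nL hA hG e J) p I 2 1
  have i2 : MB fun η => TL (lA μ s N Q A η) p J3 z' e I (ρ η) (nL μ s N Q A G e J η) (2 * τ) :=
    mb_TL (mb_lA hA) H.mb (mb_nL hA hG e J) p J3 z' e I (2 * τ)
  have i3 : MB fun η => fa (lA μ s N Q A η) p (kL (Q := Q) N e R1 R3 r1 r3) (oN N sl R1 r1 J) (Ψ η) :=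
    mb_fa (mb_lA hA) (mb_Psi hΨ) p
  have i4 : MB fun η => fb (lA μ s N Q A η) p (kL (Q := Q) N e R1 R3 r1 r3) (oN N sl R1 r1 J) (Ψ η) :=
    mb_fb (mb_lA hA) (mb_Psi hΨ) p
  have i5 : MB fun η => fc (lA μ s N Q A η) p J3 (pJ 0) (kL (Q := Q) N e R1 R3 r1 r3) (oN N sl R1 r1 J) (Ψ η) :=
    mb_fc (mb_lA hA) (mb_Psi hΨ) p J3
  have j1 := (i1.add (i2.smul 3)).smul K0
  have j2 := ((i3.add i4).add (i5.smul 3)).smul τ
  refine (sum_int_le (j1.add j2).int fun η => ?_).trans (le_of_eq ?_)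
  · have HL := H.hl (J := J) (R1 := R1) (R3 := R3) (r1 := r1) (r3 := r3) hQ hA hG hab hae (hee.trans he3) hz hJ hJ0 η
    have h1 := HL.one (F := FL μ s N Q A G e sl R1 r1 J η) (H.sl3 (fun r hr => (hj3 r hr).1) η) H.K00 (H.o3 η)
      (kx_kL fun m hm => ((hj3 m hm).2).trans hr3')
    have h2 : ∑ β, |(P3 p).ks.dbl.toEv.ev (lA μ s N Q A η) ((P3 p).ks.dr.ins
        (Hx μ s N Q A G J (cL μ s N A G e sl R1 r1 J) J3 β η) (lcK (kL N e R1 R3 r1 r3) β (Ψ η)))| ≤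
        K0 * (G1 (lA μ s N Q A η) p I (ρ η) (nL μ s N Q A G e J η) 2 1 +
          3 * TL (lA μ s N Q A η) p J3 z' e I (ρ η) (nL μ s N Q A G e J η) (2 * τ)) +
        (fa (lA μ s N Q A η) p (kL N e R1 R3 r1 r3) (FL μ s N Q A G e sl R1 r1 J η) (Ψ η) +
          fb (lA μ s N Q A η) p (kL N e R1 R3 r1 r3) (FL μ s N Q A G e sl R1 r1 J η) (Ψ η) +
          3 * fc (lA μ s N Q A η) p J3 (pJ 0) (kL N e R1 R3 r1 r3) (FL μ s N Q A G e sl R1 r1 J η) (Ψ η)) := by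
      unfold Hx
      simp only [Nx_split]
      exact h1
    have f0 : ∀ (β : KL N) (S : Px Q), |FL μ s N Q A G e sl R1 r1 J η β S| ≤ τ * |oN N sl R1 r1 J β S| := fun β S =>
      (abs_FL hG hJ0 η β S).trans (mul_le_mul_of_nonneg_left (le_abs_self _) τ0)
    have f1 := fa_le (w := lA μ s N Q A η) (p := p) (κ := kL (Q := Q) N e R1 R3 r1 r3) (Ψ := Ψ η) f0
    have f2 := fb_le (w := lA μ s N Q A η) (p := p) (κ := kL (Q := Q) N e R1 R3 r1 r3) (Ψ := Ψ η) f0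
    have f3 := fc_le (w := lA μ s N Q A η) (J := J3) (q := pJ 0) (p := p) (κ := kL (Q := Q) N e R1 R3 r1 r3) (Ψ := Ψ η) f0
    refine h2.trans ?_
    linarith
  · rw [int_add' j1 j2, int_smul', int_add' i1 (i2.smul 3), int_smul', int_smul', int_add' (i3.add i4) (i5.smul 3), int_add' i3 i4,
      int_smul']
    unfold iG iT iN
    ring

/-- **Two insertions.** -/
theorem l_two : ∑ β, ∫ η, |(P3 p).ks.dbl.dbl.toEv.ev (lA μ s N Q A η) ((P3 p).ks.dbl.dr.ins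
      (Hx μ s N Q A G J (cL μ s N A G e sl R1 r1 J) J3 β η) ((P3 p).ks.dr.ins (at2 G η) (lcK (kL N e R1 R3 r1 r3) β (Ψ η)))) -
      (P3 p).ks.dbl.toEv.ev (lA μ s N Q A η) ((P3 p).ks.dr.ins (at2 G η * Hx μ s N Q A G J (cL μ s N A G e sl R1 r1 J) J3 β η)
        (lcK (kL N e R1 R3 r1 r3) β (Ψ η)))| ∂(law μ) ≤
    τ * (K0 * (iG μ s N Q A p I ρ (nL μ s N Q A G e J) 14 19 +
        33 * iT μ s N Q A p J3 z' e I ρ (nL μ s N Q A G e J) (2 * τ)) +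
      τ * iN μ s N Q A p J3 J4 (kL N e R1 R3 r1 r3) (oN N sl R1 r1 J) Ψ 7 19 33 0) := by
  have τ0 : 0 ≤ τ := (abs_nonneg _).trans (hG.bd (fun _ => 0) fun _ => 0)
  have i1 : MB fun η => G1 (lA μ s N Q A η) p I (ρ η) (nL μ s N Q A G e J η) 14 19 := mb_G1 (mb_lA hA) H.mb (mb_nL hA hG e J) p I 14 19
  have i2 : MB fun η => TL (lA μ s N Q A η) p J3 z' e I (ρ η) (nL μ s N Q A G e J η) (2 * τ) :=
    mb_TL (mb_lA hA) H.mb (mb_nL hA hG e J) p J3 z' e I (2 * τ)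
  have i3 : MB fun η => fa (lA μ s N Q A η) p (kL (Q := Q) N e R1 R3 r1 r3) (oN N sl R1 r1 J) (Ψ η) :=
    mb_fa (mb_lA hA) (mb_Psi hΨ) p
  have i4 : MB fun η => fb (lA μ s N Q A η) p (kL (Q := Q) N e R1 R3 r1 r3) (oN N sl R1 r1 J) (Ψ η) :=
    mb_fb (mb_lA hA) (mb_Psi hΨ) p
  have i5 : MB fun η => fc (lA μ s N Q A η) p J3 (pJ 0) (kL (Q := Q) N e R1 R3 r1 r3) (oN N sl R1 r1 J) (Ψ η) :=
    mb_fc (mb_lA hA) (mb_Psi hΨ) p J3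
  have j1 := (i1.add (i2.smul 33)).smul K0
  have j2 := (((i3.smul 7).add (i4.smul 19)).add (i5.smul 33)).smul τ
  refine (sum_int_le ((j1.add j2).smul τ).int fun η => ?_).trans (le_of_eq ?_)
  · have HL := H.hl (J := J) (R1 := R1) (R3 := R3) (r1 := r1) (r3 := r3) hQ hA hG hab hae (hee.trans he3) hz hJ hJ0 η
    have h1 := HL.two (F := FL μ s N Q A G e sl R1 r1 J η) (H.sl3 (fun r hr => (hj3 r hr).1) η) τ0
      (g := at2 G η) (fun S => hG.bd η _) H.K00 (H.o3 η) (kx_kL fun m hm => ((hj3 m hm).2).trans hr3')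
    have h2 : ∑ β, |(P3 p).ks.dbl.dbl.toEv.ev (lA μ s N Q A η) ((P3 p).ks.dbl.dr.ins
        (Hx μ s N Q A G J (cL μ s N A G e sl R1 r1 J) J3 β η) ((P3 p).ks.dr.ins (at2 G η) (lcK (kL N e R1 R3 r1 r3) β (Ψ η)))) -
        (P3 p).ks.dbl.toEv.ev (lA μ s N Q A η) ((P3 p).ks.dr.ins (at2 G η * Hx μ s N Q A G J (cL μ s N A G e sl R1 r1 J) J3 β η)
          (lcK (kL N e R1 R3 r1 r3) β (Ψ η)))| ≤
        τ * (K0 * (G1 (lA μ s N Q A η) p I (ρ η) (nL μ s N Q A G e J η) 14 19 +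
          33 * TL (lA μ s N Q A η) p J3 z' e I (ρ η) (nL μ s N Q A G e J η) (2 * τ)) +
        (7 * fa (lA μ s N Q A η) p (kL N e R1 R3 r1 r3) (FL μ s N Q A G e sl R1 r1 J η) (Ψ η) +
          19 * fb (lA μ s N Q A η) p (kL N e R1 R3 r1 r3) (FL μ s N Q A G e sl R1 r1 J η) (Ψ η) +
          33 * fc (lA μ s N Q A η) p J3 (pJ 0) (kL N e R1 R3 r1 r3) (FL μ s N Q A G e sl R1 r1 J η) (Ψ η))) := by
      unfold Hx
      simp only [Nx_split]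
      exact h1
    have f0 : ∀ (β : KL N) (S : Px Q), |FL μ s N Q A G e sl R1 r1 J η β S| ≤ τ * |oN N sl R1 r1 J β S| := fun β S =>
      (abs_FL hG hJ0 η β S).trans (mul_le_mul_of_nonneg_left (le_abs_self _) τ0)
    have f1 := fa_le (w := lA μ s N Q A η) (p := p) (κ := kL (Q := Q) N e R1 R3 r1 r3) (Ψ := Ψ η) f0
    have f2 := fb_le (w := lA μ s N Q A η) (p := p) (κ := kL (Q := Q) N e R1 R3 r1 r3) (Ψ := Ψ η) f0
    have f3 := fc_le (w := lA μ s N Q A η) (J := J3) (q := pJ 0) (p := p) (κ := kL (Q := Q) N e R1 R3 r1 r3) (Ψ := Ψ η) f0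
    refine h2.trans (mul_le_mul_of_nonneg_left ?_ τ0)
    linarith
  · rw [int_smul', int_add' j1 j2, int_smul', int_add' i1 (i2.smul 33), int_smul', int_smul',
      int_add' ((i3.smul 7).add (i4.smul 19)) (i5.smul 33), int_add' (i3.smul 7) (i4.smul 19), int_smul', int_smul', int_smul']
    unfold iG iT iN
    ring

include hj4 hr3

/-- **The second macro slab.** -/
theorem l_mac : ∑ β, ∫ η, |(P3 p).ks.dbl.toEv.ev (lA μ s N Q A η) ((P3 p).ks.dr.ins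
      (at2 G η * Hx μ s N Q A G J (cL μ s N A G e sl R1 r1 J) J3 β η - Cq (lA μ s N Q A η) J4 (pJ 0)
        (at2 G η * Hx μ s N Q A G J (cL μ s N A G e sl R1 r1 J) J3 β η)) (lcK (kL N e R1 R3 r1 r3) β (Ψ η)))| ∂(law μ) ≤
    τ * (K0 * (iG μ s N Q A p I ρ (nL μ s N Q A G e J) 2 1 + 3 * iT μ s N Q A p J3 z' e I ρ (nL μ s N Q A G e J) (2 * τ) +
        2 * iT μ s N Q A p J4 z' e I ρ (nL μ s N Q A G e J) (2 * τ)) +
      τ * iN μ s N Q A p J3 J4 (kL N e R1 R3 r1 r3) (oN N sl R1 r1 J) Ψ 1 1 3 2) := by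
  have τ0 : 0 ≤ τ := (abs_nonneg _).trans (hG.bd (fun _ => 0) fun _ => 0)
  have i1 : MB fun η => G1 (lA μ s N Q A η) p I (ρ η) (nL μ s N Q A G e J η) 2 1 := mb_G1 (mb_lA hA) H.mb (mb_nL hA hG e J) p I 2 1
  have i2 : MB fun η => TL (lA μ s N Q A η) p J3 z' e I (ρ η) (nL μ s N Q A G e J η) (2 * τ) :=
    mb_TL (mb_lA hA) H.mb (mb_nL hA hG e J) p J3 z' e I (2 * τ)
  have i2' : MB fun η => TL (lA μ s N Q A η) p J4 z' e I (ρ η) (nL μ s N Q A G e J η) (2 * τ) :=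
    mb_TL (mb_lA hA) H.mb (mb_nL hA hG e J) p J4 z' e I (2 * τ)
  have i3 : MB fun η => fa (lA μ s N Q A η) p (kL (Q := Q) N e R1 R3 r1 r3) (oN N sl R1 r1 J) (Ψ η) :=
    mb_fa (mb_lA hA) (mb_Psi hΨ) p
  have i4 : MB fun η => fb (lA μ s N Q A η) p (kL (Q := Q) N e R1 R3 r1 r3) (oN N sl R1 r1 J) (Ψ η) :=
    mb_fb (mb_lA hA) (mb_Psi hΨ) p
  have i5 : MB fun η => fc (lA μ s N Q A η) p J3 (pJ 0) (kL (Q := Q) N e R1 R3 r1 r3) (oN N sl R1 r1 J) (Ψ η) :=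
    mb_fc (mb_lA hA) (mb_Psi hΨ) p J3
  have i6 : MB fun η => fc (lA μ s N Q A η) p J4 (pJ 0) (kL (Q := Q) N e R1 R3 r1 r3) (oN N sl R1 r1 J) (Ψ η) :=
    mb_fc (mb_lA hA) (mb_Psi hΨ) p J4
  have j1 := ((i1.add (i2.smul 3)).add (i2'.smul 2)).smul K0
  have j2 := (((i3.add i4).add (i5.smul 3)).add (i6.smul 2)).smul τ
  refine (sum_int_le ((j1.add j2).smul τ).int fun η => ?_).trans (le_of_eq ?_)
  · have HL := H.hl (J := J) (R1 := R1) (R3 := R3) (r1 := r1) (r3 := r3) hQ hA hG hab hae (hee.trans he3) hz hJ hJ0 η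
    have h1 := HL.mac (F := FL μ s N Q A G e sl R1 r1 J η) (H.sl3 (fun r hr => (hj3 r hr).1) η)
      (H.sl4 (fun r hr => hee.trans_lt (hj4 r hr).1) η) τ0
      (g := at2 G η) (fun S => hG.bd η _) H.K00 (H.o4 η) (kx_kL fun m hm => hr3 m hm)
      (fun m hm m' hm' => (hj3 m hm).2.trans (hj4 m' hm').1.le)
    have h2 : ∑ β, |(P3 p).ks.dbl.toEv.ev (lA μ s N Q A η) ((P3 p).ks.dr.ins
        (at2 G η * Hx μ s N Q A G J (cL μ s N A G e sl R1 r1 J) J3 β η - Cq (lA μ s N Q A η) J4 (pJ 0)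
          (at2 G η * Hx μ s N Q A G J (cL μ s N A G e sl R1 r1 J) J3 β η)) (lcK (kL N e R1 R3 r1 r3) β (Ψ η)))| ≤
        τ * (K0 * (G1 (lA μ s N Q A η) p I (ρ η) (nL μ s N Q A G e J η) 2 1 +
          3 * TL (lA μ s N Q A η) p J3 z' e I (ρ η) (nL μ s N Q A G e J η) (2 * τ) +
          2 * TL (lA μ s N Q A η) p J4 z' e I (ρ η) (nL μ s N Q A G e J η) (2 * τ)) +
        (fa (lA μ s N Q A η) p (kL N e R1 R3 r1 r3) (FL μ s N Q A G e sl R1 r1 J η) (Ψ η) +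
          fb (lA μ s N Q A η) p (kL N e R1 R3 r1 r3) (FL μ s N Q A G e sl R1 r1 J η) (Ψ η) +
          3 * fc (lA μ s N Q A η) p J3 (pJ 0) (kL N e R1 R3 r1 r3) (FL μ s N Q A G e sl R1 r1 J η) (Ψ η) +
          2 * fc (lA μ s N Q A η) p J4 (pJ 0) (kL N e R1 R3 r1 r3) (FL μ s N Q A G e sl R1 r1 J η) (Ψ η))) := by
      unfold Hx
      simp only [Nx_split]
      exact h1
    have f0 : ∀ (β : KL N) (S : Px Q), |FL μ s N Q A G e sl R1 r1 J η β S| ≤ τ * |oN N sl R1 r1 J β S| := fun β S =>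
      (abs_FL hG hJ0 η β S).trans (mul_le_mul_of_nonneg_left (le_abs_self _) τ0)
    have f1 := fa_le (w := lA μ s N Q A η) (p := p) (κ := kL (Q := Q) N e R1 R3 r1 r3) (Ψ := Ψ η) f0
    have f2 := fb_le (w := lA μ s N Q A η) (p := p) (κ := kL (Q := Q) N e R1 R3 r1 r3) (Ψ := Ψ η) f0
    have f3 := fc_le (w := lA μ s N Q A η) (J := J3) (q := pJ 0) (p := p) (κ := kL (Q := Q) N e R1 R3 r1 r3) (Ψ := Ψ η) f0
    have f4 := fc_le (w := lA μ s N Q A η) (J := J4) (q := pJ 0) (p := p) (κ := kL (Q := Q) N e R1 R3 r1 r3) (Ψ := Ψ η) f0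
    refine h2.trans (mul_le_mul_of_nonneg_left ?_ τ0)
    linarith
  · rw [int_smul', int_add' j1 j2, int_smul', int_add' (i1.add (i2.smul 3)) (i2'.smul 2), int_add' i1 (i2.smul 3), int_smul',
      int_smul', int_smul', int_add' ((i3.add i4).add (i5.smul 3)) (i6.smul 2), int_add' (i3.add i4) (i5.smul 3), int_add' i3 i4,
      int_smul', int_smul']
    unfold iG iT iN
    ring

end Three

section FarMac

variable [IsProbabilityMeasure μ] (hQ : Full N Q) (hA : WF al be D' A) (hG : WF al be τ G) (hΨ : Obs Ψ D0)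
  (hab : al ≤ be) (hae : be ≤ e) (hee : e ≤ e3) (he3 : e3 ≤ N) (hJ : ∀ r ∈ J, 1 ≤ r ∧ r ≤ al) (hJ0 : J.Nonempty)
  (hj3 : ∀ r ∈ J3, e < r ∧ r ≤ e3) (hj4 : ∀ r ∈ J4, e3 < r ∧ r ≤ N) (hJ3 : J3.Nonempty) (hJ4 : J4.Nonempty)

omit [SwQ Q] [Nonempty (Px Q)] in
include hA hG hab hae hJ in
theorem wf_nL (β : KL N) : WF 0 e (τ + τ) (nf G J (cL μ s N A G e sl R1 r1 J β)) :=
  wf_nf (hG.mono (Nat.zero_le _) hae le_rfl) (rf_cL hA hG hab hae (fun r hr => (hJ r hr).2) β)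
    (card_mul_le J ((abs_nonneg _).trans (hG.bd (fun _ => 0) fun _ => 0)))

omit [SwQ Q] [Nonempty (Px Q)] in
include hA hG hab hae hJ hj3 hJ3 in
theorem abs_F3 (β : KL N) (η : Env) (S : Px Q) :
    |F3 μ s N Q A G J (cL μ s N A G e sl R1 r1 J) J3 (fun β => chT sl R3 (r3 : ℤ) β.2.2) β η S| ≤ (τ + τ) * oM N sl R3 r3 J3 β S := by
  have τ0 : 0 ≤ τ := (abs_nonneg _).trans (hG.bd (fun _ => 0) fun _ => 0)
  exact abs_farS hJ3 (add_nonneg τ0 τ0) η (fun p hp => (rf_mac (μ := μ) (s := s) hA (wf_nL hA hG hab hae hJ β) hae hj3).bdS hp η) β.2.2 S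

omit [SwQ Q] [Nonempty (Px Q)] in
include hA hG hab hae hee hJ hj3 hj4 hJ4 in
theorem abs_F4 (β : KL N) (η : Env) (S : Px Q) :
    |F4 μ s N Q A G J (cL μ s N A G e sl R1 r1 J) J3 J4 (fun β => chT sl R3 (r3 : ℤ) β.2.2) β η S| ≤
      τ * ((τ + τ) + (τ + τ)) * oM N sl R3 r3 J4 β S := by
  have τ0 : 0 ≤ τ := (abs_nonneg _).trans (hG.bd (fun _ => 0) fun _ => 0)
  have gh : WF 0 e3 (τ * ((τ + τ) + (τ + τ))) (hh μ s A G J (cL μ s N A G e sl R1 r1 J) J3 β) :=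
    ((hG.mono (Nat.zero_le _) hae le_rfl).mono le_rfl hee le_rfl).mul (wf_hf hA (wf_nL hA hG hab hae hJ β) hae hj3 hee)
  exact abs_farS hJ4 (mul_nonneg τ0 (add_nonneg (add_nonneg τ0 τ0) (add_nonneg τ0 τ0))) η
    (fun p hp => (rf_mac (μ := μ) (s := s) (e' := N) hA gh (hae.trans hee) hj4).bdS hp η) β.2.2 S

include hA hΨ in
theorem mb_oM (J' : Finset ℕ) (a : ℝ) :
    MB fun η => FK (lA μ s N Q A η) p (kL (Q := Q) N e R1 R3 r1 r3) (oM N sl R3 r3 J') (Ψ η) a :=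
  mb_FK (mb_lA hA) (mb_Psi hΨ) p a

include hA hG hΨ hab hae hJ hj3 hJ3

theorem l_f1 : ∑ β, ∫ η, |(P3 p).ks.dbl.toEv.ev (lA μ s N Q A η) ((P3 p).ks.dr.ins
      (F3 μ s N Q A G J (cL μ s N A G e sl R1 r1 J) J3 (fun β => chT sl R3 (r3 : ℤ) β.2.2) β η)
      (lcK (kL N e R1 R3 r1 r3) β (Ψ η)))| ∂(law μ) ≤
    2 * τ * iK μ s N Q A p (kL N e R1 R3 r1 r3) (oM N sl R3 r3 J3) Ψ 1 := by
  refine (sum_int_le ((mb_oM hA hΨ J3 1).smul (2 * τ)).int fun η => ?_).trans (le_of_eq (int_smul' _ _))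
  refine (sum_far_one (p := p) (w := lA μ s N Q A η) (κ := kL (Q := Q) N e R1 R3 r1 r3) (Ψ := Ψ η)
    (F3 μ s N Q A G J (cL μ s N A G e sl R1 r1 J) J3 (fun β => chT sl R3 (r3 : ℤ) β.2.2) · η)).trans
    (FK_mono zero_le_one fun β y => ?_)
  have h := abs_F3 (μ := μ) (s := s) (sl := sl) (R1 := R1) (R3 := R3) (r1 := r1) (r3 := r3) hA hG hab hae hJ hj3 hJ3 β η y
  linarith

theorem l_f2 : ∑ β, ∫ η, |(P3 p).ks.dbl.dbl.toEv.ev (lA μ s N Q A η) ((P3 p).ks.dbl.dr.ins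
      (F3 μ s N Q A G J (cL μ s N A G e sl R1 r1 J) J3 (fun β => chT sl R3 (r3 : ℤ) β.2.2) β η)
      ((P3 p).ks.dr.ins (at2 G η) (lcK (kL N e R1 R3 r1 r3) β (Ψ η))))| ∂(law μ) ≤
    12 * τ ^ 2 * iK μ s N Q A p (kL N e R1 R3 r1 r3) (oM N sl R3 r3 J3) Ψ 3 := by
  have τ0 : 0 ≤ τ := (abs_nonneg _).trans (hG.bd (fun _ => 0) fun _ => 0)
  refine (sum_int_le ((mb_oM hA hΨ J3 3).smul (12 * τ ^ 2)).int fun η => ?_).trans (le_of_eq (int_smul' _ _))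
  refine (sum_far_two (p := p) (w := lA μ s N Q A η) (κ := kL (Q := Q) N e R1 R3 r1 r3) (Ψ := Ψ η)
    (F3 μ s N Q A G J (cL μ s N A G e sl R1 r1 J) J3 (fun β => chT sl R3 (r3 : ℤ) β.2.2) · η)
    (fun S => hG.bd η _)).trans ?_
  have h5 := FK_mono (p := p) (w := lA μ s N Q A η) (κ := kL (Q := Q) N e R1 R3 r1 r3) (Ψ := Ψ η) (a := 3) (M := 2 * τ)
    (o := fun β y => |F3 μ s N Q A G J (cL μ s N A G e sl R1 r1 J) J3 (fun β => chT sl R3 (r3 : ℤ) β.2.2) β η y|)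
    (o' := oM N sl R3 r3 J3) (by norm_num) fun β y => by
      have h := abs_F3 (μ := μ) (s := s) (sl := sl) (R1 := R1) (R3 := R3) (r1 := r1) (r3 := r3) hA hG hab hae hJ hj3 hJ3 β η y
      linarith
  refine (mul_le_mul_of_nonneg_left h5 (by positivity)).trans (le_of_eq ?_)
  ring

theorem l_f3 : ∑ β, ∫ η, |(P3 p).ks.dbl.toEv.ev (lA μ s N Q A η) ((P3 p).ks.dr.ins
      (at2 G η * F3 μ s N Q A G J (cL μ s N A G e sl R1 r1 J) J3 (fun β => chT sl R3 (r3 : ℤ) β.2.2) β η)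
      (lcK (kL N e R1 R3 r1 r3) β (Ψ η)))| ∂(law μ) ≤
    2 * τ ^ 2 * iK μ s N Q A p (kL N e R1 R3 r1 r3) (oM N sl R3 r3 J3) Ψ 1 := by
  have τ0 : 0 ≤ τ := (abs_nonneg _).trans (hG.bd (fun _ => 0) fun _ => 0)
  refine (sum_int_le ((mb_oM hA hΨ J3 1).smul (2 * τ ^ 2)).int fun η => ?_).trans (le_of_eq (int_smul' _ _))
  refine (sum_far_one (p := p) (w := lA μ s N Q A η) (κ := kL (Q := Q) N e R1 R3 r1 r3) (Ψ := Ψ η)
    (fun β => at2 G η * F3 μ s N Q A G J (cL μ s N A G e sl R1 r1 J) J3 (fun β => chT sl R3 (r3 : ℤ) β.2.2) β η)).trans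
    (FK_mono zero_le_one fun β y => ?_)
  have h := abs_F3 (μ := μ) (s := s) (sl := sl) (R1 := R1) (R3 := R3) (r1 := r1) (r3 := r3) hA hG hab hae hJ hj3 hJ3 β η y
  rw [Pi.mul_apply, abs_mul]
  refine (mul_le_mul (hG.bd η _) h (abs_nonneg _) τ0).trans (le_of_eq ?_)
  ring

include hj4 hJ4 hee

theorem l_f4 : ∑ β, ∫ η, |(P3 p).ks.dbl.toEv.ev (lA μ s N Q A η) ((P3 p).ks.dr.ins
      (F4 μ s N Q A G J (cL μ s N A G e sl R1 r1 J) J3 J4 (fun β => chT sl R3 (r3 : ℤ) β.2.2) β η)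
      (lcK (kL N e R1 R3 r1 r3) β (Ψ η)))| ∂(law μ) ≤
    4 * τ ^ 2 * iK μ s N Q A p (kL N e R1 R3 r1 r3) (oM N sl R3 r3 J4) Ψ 1 := by
  refine (sum_int_le ((mb_oM hA hΨ J4 1).smul (4 * τ ^ 2)).int fun η => ?_).trans (le_of_eq (int_smul' _ _))
  refine (sum_far_one (p := p) (w := lA μ s N Q A η) (κ := kL (Q := Q) N e R1 R3 r1 r3) (Ψ := Ψ η)
    (F4 μ s N Q A G J (cL μ s N A G e sl R1 r1 J) J3 J4 (fun β => chT sl R3 (r3 : ℤ) β.2.2) · η)).trans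
    (FK_mono zero_le_one fun β y => ?_)
  have h := abs_F4 (μ := μ) (s := s) (sl := sl) (R1 := R1) (R3 := R3) (r1 := r1) (r3 := r3) hA hG hab hae hee hJ hj3 hj4 hJ4 β η y
  refine h.trans (le_of_eq ?_)
  ring

end FarMac

/-! ### The list -/

variable [IsProbabilityMeasure μ] {f f' : ℝ → ℝ}

/-- The exponentially small terms. -/
def tlL (K τ D0 D2 t1 t2 t3 t4 a1 a2 a3 a3' a4 Q1 Q2 Q3 Q4 sz : ℝ) (n2 n3 j2 j3 : ℕ) : ℝ :=
  tail2 K D0 t1 t2 a1 a2 Q1 Q2 + tail2 K D0 t1 t3 a1 a3 Q1 Q3 + tail1 K (D0 * (sz * τ)) t3 a3' Q3 + tail1 K D0 t4 a4 Q4 +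
    tail1 K (D0 * (sz * (τ + n2 * (τ / j2 * 1) + n3 * ((τ + τ) / j3 * 1)))) t1 a1 Q1 + tail1 K (n2 * (τ / j2 * D2)) t1 a1 Q1

/-- One insertion of the functional in an observable. -/
theorem ins_int (hA : WF al be D' A) (hG : WF al be τ G) {Φ : Env → (Fin 3 → Px Q) → ℝ} {D : ℝ} (hΦ : Obs Φ D) :
    ∫ η, (P3 p).ks.dbl.toEv.ev (lA μ s N Q A η) (fun y => |(P3 p).ks.dr.ins (at2 G η) (Φ η) y|) ∂(law μ) ≤
      6 * τ * iP μ s N Q A p Φ := by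
  have i1 : MB fun η => ev (P3 p) (lA μ s N Q A η) (fun x => |Φ η x|) :=
    MB.ev (P3 p) (Ψ := fun η x => |Φ η x|) (mb_lA hA) fun x => (mb_Psi hΦ x).abs
  refine (integral_mono_of_nonneg (ae_of_all _ fun η => ?_) (i1.smul (6 * τ)).int (ae_of_all _ fun η => ?_)).trans
    (le_of_eq (int_smul' _ _))
  · exact (abs_nonneg _).trans (H41.abs_ev_le _ _ _)
  · exact ev1_g (fun S => hG.bd η _) (Φ η)

/-- **PART L, THE LIST.** -/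
theorem e2_L (H : DL μ s N Q A p z' e I ρ K0 J3 J4 Ψ) (h : DenLaw μ f f') {K θ0 : ℝ} (hs : SG μ (sc f f') K θ0) (hQ : Full N Q)
    (hA : WF al be D' A) (hG : WF al be τ G) (hab : al ≤ be) (hae : be ≤ e) (hz : be ≤ z')
    -- the slabs
    (hj1 : ∀ r ∈ J1, 1 ≤ r ∧ r ≤ al) (hj2 : ∀ r ∈ J2, 1 ≤ r ∧ r ≤ al) (h21 : ∀ r ∈ J1, ∀ r' ∈ J2, r' < r) (hJ1 : J1.Nonempty)
    (hJ2 : J2.Nonempty) (hj3 : ∀ r ∈ J3, e < r ∧ r ≤ e3) (hj4 : ∀ r ∈ J4, e3 < r ∧ r ≤ N) (hee : e ≤ e3) (he3 : e3 ≤ N)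
    (hr3 : ∀ r ∈ J4, r ≤ r3) (hr3' : e3 ≤ r3) (hR1 : 1 ≤ R1) (hR3 : 1 ≤ R3)
    -- the observable
    (hΨ : Obs Ψ D0) (hΨ1 : ∀ p ∈ sS J1 N, Obs (Ψ1 p) D1) (hΨ2 : ∀ p ∈ sS J2 N, Obs (Ψ2 p) D2) (hd1 : Sd (sS J1 N) Ψ Ψ1)
    (hd2 : Sd (sS J2 N) Ψ Ψ2) (hb3 : ∀ q ∈ sS J3 N, ∀ (η : Env) (x : ℝ), Ψ (Function.update η q x) = Ψ η)
    (hb4 : ∀ q ∈ sS J4 N, ∀ (η : Env) (x : ℝ), Ψ (Function.update η q x) = Ψ η)
    -- the numbers
    {t1 t2 t3 t4 a1 a2 a3 a3' a4 : ℝ} (q1 : 0 < t1) (q2 : 0 < t2) (q3 : 0 < t3) (q4 : 0 < t4)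
    (c1 : 2 * t1 * (τ / J1.card) ≤ θ0) (c2 : 2 * t2 * (τ / J2.card) ≤ θ0) (c3 : 2 * t3 * ((τ + τ) / J3.card) ≤ θ0)
    (c4 : t4 * (τ * ((τ + τ) + (τ + τ)) / J4.card) ≤ θ0)
    (ha1 : 0 ≤ a1) (ha2 : 0 ≤ a2) (ha3 : 0 ≤ a3) (ha3' : 0 ≤ a3') (ha4 : 0 ≤ a4) :
    |∫ η, (P3 p).ks.dbl.dbl.toEv.ev (lA μ s N Q A η) ((P3 p).ks.dbl.dr.ins (at2 G η) ((P3 p).ks.dr.ins (at2 G η) (Ψ η))) ∂(law μ)| ≤
      -- gains times own
      ((a1 * a2 + a1 * a3 + a4) + 6 * τ * a3') * iP μ s N Q A p Ψ +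
      -- the derivatives of the observable
      (a1 * iP μ s N Q A p (DgK (kL N e R1 R3 r1 r3) (sS J2 N) (cL μ s N A G e sl R1 r1 J2) Ψ2) +
        6 * τ * iP μ s N Q A p (DgK (kL N e R1 R3 r1 r3) (sS J1 N) (cL μ s N A G e sl R1 r1 J1) Ψ1)) +
      -- the remainders of the left near slab
      a1 * (K0 * (iG μ s N Q A p I ρ (nL μ s N Q A G e J2) 2 1 +
          3 * iT μ s N Q A p J3 z' e I ρ (nL μ s N Q A G e J2) (2 * τ)) +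
        τ * iN μ s N Q A p J3 J4 (kL N e R1 R3 r1 r3) (oN N sl R1 r1 J2) Ψ 1 1 3 0) +
      -- the remainders of the right near slab
      τ * (K0 * (iG μ s N Q A p I ρ (nL μ s N Q A G e J1) 14 19 +
          33 * iT μ s N Q A p J3 z' e I ρ (nL μ s N Q A G e J1) (2 * τ)) +
        τ * iN μ s N Q A p J3 J4 (kL N e R1 R3 r1 r3) (oN N sl R1 r1 J1) Ψ 7 19 33 0) +
      τ * (K0 * (iG μ s N Q A p I ρ (nL μ s N Q A G e J1) 2 1 +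
          3 * iT μ s N Q A p J3 z' e I ρ (nL μ s N Q A G e J1) (2 * τ) +
          2 * iT μ s N Q A p J4 z' e I ρ (nL μ s N Q A G e J1) (2 * τ)) +
        τ * iN μ s N Q A p J3 J4 (kL N e R1 R3 r1 r3) (oN N sl R1 r1 J1) Ψ 1 1 3 2) +
      -- the macro far part
      (a1 * (2 * τ * iK μ s N Q A p (kL N e R1 R3 r1 r3) (oM N sl R3 r3 J3) Ψ 1) +
        12 * τ ^ 2 * iK μ s N Q A p (kL N e R1 R3 r1 r3) (oM N sl R3 r3 J3) Ψ 3 +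
        4 * τ ^ 2 * iK μ s N Q A p (kL N e R1 R3 r1 r3) (oM N sl R3 r3 J3) Ψ 1 +
        4 * τ ^ 2 * iK μ s N Q A p (kL N e R1 R3 r1 r3) (oM N sl R3 r3 J4) Ψ 1) +
      -- the tails
      (Fintype.card (KL N) : ℝ) * tlL K τ D0 D2 t1 t2 t3 t4 a1 a2 a3 a3' a4 (14 * R1 * τ ^ 2 / J1.card) (14 * R1 * τ ^ 2 / J2.card)
        (14 * R3 * (τ + τ) ^ 2 / J3.card) (14 * R3 * (τ * ((τ + τ) + (τ + τ))) ^ 2 / J4.card) (P3 p).ks.dr.sz (sS J2 N).card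
        (sS J3 N).card J2.card J3.card := by
  have τ0 : 0 ≤ τ := (abs_nonneg _).trans (hG.bd (fun _ => 0) fun _ => 0)
  have g : ∀ r ∈ J1 ∪ J2, r ≤ N := fun r hr => by
    rcases mem_union.1 hr with hr | hr
    · exact (hj1 r hr).2.trans (hab.trans (hae.trans (hee.trans he3)))
    · exact (hj2 r hr).2.trans (hab.trans (hae.trans (hee.trans he3)))
  have key := e2_mac (μ := μ) (s := s) (κ := kL (Q := Q) N e R1 R3 r1 r3) (c1 := cL μ s N A G e sl R1 r1 J1) (c2 := cL μ s N A G e sl R1 r1 J2)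
    (Ψ := Ψ) (Ψ1 := Ψ1) (Ψ2 := Ψ2) (P3 p).ks.dr (P3 p).ks.dbl.dr h hs hQ hA hG hae
    (disjoint_left.2 fun r h1 h2 => lt_irrefl r (h21 r h1 r h2))
    (fun r hr => ⟨⟨(hj1 r hr).1, (hj1 r hr).2.trans (hab.trans hae)⟩, Or.inl (hj1 r hr).2⟩)
    (fun r hr => ⟨⟨(hj2 r hr).1, (hj2 r hr).2.trans (hab.trans hae)⟩, Or.inl (hj2 r hr).2⟩)
    hj3 hj4 hee he3 (fun β => df_cL hA hG (fun r hr => (hj1 r hr).2) β) (fun β => df_cL hA hG (fun r hr => (hj2 r hr).2) β)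
    (fun β => rf_cL hA hG hab hae (fun r hr => (hj1 r hr).2) β) (fun β => rf_cL hA hG hab hae (fun r hr => (hj2 r hr).2) β)
    (card_mul_le J1 τ0) (card_mul_le J2 τ0) (div_nonneg τ0 (Nat.cast_nonneg _)) (div_nonneg τ0 (Nat.cast_nonneg _))
    (fun β => cL_blind hA hG (fun r hr => (hj1 r hr).2) (fun r hr r' hr' => (h21 r hr r' hr').le) β)
    (χ := fun β => chT sl R3 (r3 : ℤ) β.2.2) (fun β p => T73.chT_nonneg _ p) (fun β p => T73.chT_le_one _ p)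
    hΨ hΨ1 hΨ2 hd1 hd2 hb3 hb4 q1 q2 q3 q4 c1 c2 c3 c4
    (fun β η => qv_cL hG hR1 hJ1 β η) (fun β η => qv_cL hG hR1 hJ2 β η)
    (Q3 := 14 * R3 * (τ + τ) ^ 2 / J3.card) (Q4 := 14 * R3 * (τ * ((τ + τ) + (τ + τ))) ^ 2 / J4.card)
    (fun β η cc hc => by
      have h5 := QV_sS (sl := sl) (m0 := (r3 : ℤ)) (N := N) hR3 H.ne3 (M := τ + τ) (cc := cc) η hc β.2.2
      rw [Fintype.card_fin] at h5
      refine h5.trans (le_of_eq ?_)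
      push_cast
      ring)
    (fun β η cc hc => by
      have h5 := QV_sS (sl := sl) (m0 := (r3 : ℤ)) (N := N) hR3 H.ne4 (M := τ * ((τ + τ) + (τ + τ))) (cc := cc) η hc β.2.2
      rw [Fintype.card_fin] at h5
      refine h5.trans (le_of_eq ?_)
      push_cast
      ring)
    ha1 ha2 ha3 ha3' ha4
  simp only [ks_ev] at key
  have B0 := mul_le_mul_of_nonneg_left (ins_int (μ := μ) (s := s) (N := N) (p := p) hA hG hΨ) ha3'
  have B1 := ins_int (μ := μ) (s := s) (N := N) (p := p) hA hG (obs_dgK (κ := kL (Q := Q) N e R1 R3 r1 r3)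
    (fun β => df_cL (μ := μ) (s := s) (N := N) (e := e) (sl := sl) (R1 := R1) (r1 := r1) hA hG (fun r hr => (hj1 r hr).2) β) hΨ1)
  have L1 := mul_le_mul_of_nonneg_left (l_one (sl := sl) (R1 := R1) (R3 := R3) (r1 := r1) (r3 := r3) H hQ hA hG hΨ hab hae hz hee he3
    hj2 hJ2 hj3 hr3') ha1
  have L2 := l_two (sl := sl) (R1 := R1) (R3 := R3) (r1 := r1) (r3 := r3) H hQ hA hG hΨ hab hae hz hee he3 hj1 hJ1 hj3 hr3'
  have L3 := l_mac (sl := sl) (R1 := R1) (R3 := R3) (r1 := r1) (r3 := r3) H hQ hA hG hΨ hab hae hz hee he3 hj1 hJ1 hj3 hj4 hr3 hr3'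
  have F1 := mul_le_mul_of_nonneg_left (l_f1 (μ := μ) (s := s) (N := N) (p := p) (sl := sl) (R1 := R1) (R3 := R3) (r1 := r1) (r3 := r3) hA hG hΨ
    hab hae hj2 hj3 H.ne3) ha1
  have F2 := l_f2 (μ := μ) (s := s) (N := N) (p := p) (sl := sl) (R1 := R1) (R3 := R3) (r1 := r1) (r3 := r3) hA hG hΨ hab hae hj1 hj3 H.ne3
  have F3 := l_f3 (μ := μ) (s := s) (N := N) (p := p) (sl := sl) (R1 := R1) (R3 := R3) (r1 := r1) (r3 := r3) hA hG hΨ hab hae hj1 hj3 H.ne3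
  have F4 := l_f4 (μ := μ) (s := s) (N := N) (p := p) (sl := sl) (R1 := R1) (R3 := R3) (r1 := r1) (r3 := r3) hA hG hΨ hab hae hee hj1 hj3 hj4
    H.ne3 H.ne4
  refine key.trans (le_of_le_of_eq (add_le_add (add_le_add (add_le_add (add_le_add (add_le_add le_rfl B0) (add_le_add le_rfl B1))
    (add_le_add (add_le_add L1 L2) L3)) (add_le_add (add_le_add (add_le_add F1 F2) (mul_le_mul_of_nonneg_left F3 zero_le_two)) F4))
    le_rfl) ?_)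
  unfold tlL iP
  ring

end

end Pool.Agent.W_7d29a1_C0.EL63
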