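import Pool.Agent.W_7d29a1_C0.E2L65

/-!
CURV0 (MP_7d29a1_pr), section E2, PART L, THE PATHWISE MAJORANTS at one environment and fixed signs: `hl65`, `sl65` = the data of `MicL14`
for the row; `one65`, `two65`, `mac65` = the three sums over the key of the remainders of `e2_mac`. (helper65)
-/

set_option autoImplicit false
set_option linter.unusedSectionVars false
set_option linter.unusedVariables false

namespace Pool.Agent.W_7d29a1_C0.EL65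

open Finset MeasureTheory Pool.Agent.W_7d29a1_F Pool.Agent.W_7d29a1_X Pool.Agent.W_7d29a1_H Pool.Agent.W_7d29a1_C0
open Pool.Agent.W_7d29a1_C0.Mod92 Pool.Agent.W_7d29a1_C0.Blk18 Pool.Agent.W_7d29a1_C0.FP63 Pool.Agent.W_7d29a1_C0.Swap57
open Pool.Agent.W_7d29a1_C0.NM82 Pool.Agent.W_7d29a1_C0.CutF59 Pool.Agent.W_7d29a1_C0.CutG59 Pool.Agent.W_7d29a1_C0.E2Q59
open Pool.Agent.W_7d29a1_C0.E2F59 Pool.Agent.W_7d29a1_C0.E2M59 Pool.Agent.W_7d29a1_C0.E2R59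
open Pool.Agent.W_7d29a1_C0.FM63 Pool.Agent.W_7d29a1_C0.EM63 Pool.Agent.W_7d29a1_C0.FL65 Pool.Agent.W_7d29a1_C0.KL65
open Pool.Agent.W_7d29a1_C0.CrA44 (ge)
open Pool.Agent.W_7d29a1_C0.Base5
open Pool.Agent.W_7d29a1_C0.CutE14 (P3)
open Pool.Agent.W_7d29a1_C0.DGam14 (gam gamD gamD_sum abs_gamD_L)
open Pool.Agent.W_7d29a1_C0.MicE14 (Cq nn mi rh ob rh_nonneg)
open Pool.Agent.W_7d29a1_C0.MicH14 (G1 T0Q Ox ox_ob mp_rh')
open Pool.Agent.W_7d29a1_C0.MicI14 (Kx lk14)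
open Pool.Agent.W_7d29a1_C0.MicL14
open Pool.Agent.W_7d29a1_C0.E1M82 (Gd rk_cls gb_eq wf_xf)
open Pool.W7d29a1.C0
open Pool.W7d29a1.C0.VT31
open Pool.W7d29a1.C0.I52 (KS av ev ks_ev Plan)
open Pool.W7d29a1.C0.H19 (Cf)
open Pool.W7d29a1.C0.H41 (Obs Ev cut cut')
open Pool.W7d29a1.C0.R63 (Bl Sd lcK DgK)

noncomputable section

variable {μ : Measure ℝ} {s : ℝ} {N : ℕ} {δ B : ℝ} {b0 h b σ j e d m0 ep e3 : ℕ} {J1 J2 J3 J4 : Finset ℕ} {c : ℕ} {D : ℝ} {f : Fam N}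
  {t : ℝ} {y : ℕ} [Nonempty (Px (Pn N y))]

/-! ### The data of the lists -/

/-- The tilt and the functional of the row are those of `FldP63`. -/
theorem lA_wj65 {Q : Finset (Finset ℕ)} (δ B : ℝ) (b0 j : ℕ) (A : Finset ℕ) (t : ℝ) (η : Env) :
    lA μ s N Q (tf μ s δ B b0 j (sg A j) t) η = wj μ s N Q δ B b0 j (η, A) t := rfl

theorem at2_gg65 {Q : Finset (Finset ℕ)} (δ B : ℝ) (b0 j : ℕ) (A : Finset ℕ) (η : Env) :
    at2 (Q := Q) (gf μ s δ B b0 j (sg A j)) η = gg μ s Q δ B b0 (η, A) j := rfl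

theorem pL_ob65 (ω : Env × Finset ℕ) : pL μ s N δ B b0 h b j e d f y ω =
    ob e d (pL59 (j - b) (j - h) (j + h) (j + b) (ge μ s N (Pn N y) δ B b0 b ω j) (gg μ s (Pn N y) δ B b0 ω j)) (f y ω) := rfl

theorem bdp_L65 (hB : 0 ≤ B) (ω : Env × Finset ℕ) :
    MicE14.Bdp (NI (j - b) (j - h)) (rh e d (f y ω)) (2 * (B / 2) * (B / 2)) (pL μ s N δ B b0 h b j e d f y ω) :=
  MicE14.bdp_ob fun S S' => abs_pL59_le (abs_ge59 hB ω) (abs_gg hB b0 ω j) S S'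

/-- The near remainder, pinned. -/
def Nb65 (μ : Measure ℝ) (s : ℝ) (N : ℕ) (δ B : ℝ) (b0 j : ℕ) (t : ℝ) (y : ℕ) [Nonempty (Px (Pn N y))] (ep : ℕ) (J : Finset ℕ)
    (A : Finset ℕ) (η : Env) (k : ℤ) : Px (Pn N y) → ℝ :=
  NbL μ s N (Pn N y) (tf μ s δ B b0 j (sg A j) t) (gf μ s δ B b0 j (sg A j)) ep J k η

theorem nn0_65 (ep : ℕ) (J : Finset ℕ) (ω : Env × Finset ℕ) (x : Px (Pn N y)) : 0 ≤ nL μ s N δ B b0 j t y ep J ω x :=
  nn_nonneg59 _ _ _ _ _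

variable {T : Type*} [Fintype T] [DecidableEq T] {kap : (Fin 3 → Px (Pn N y)) → T} {ke : T → ℤ}

/-- **The data of part L.** -/
theorem hl65 (hB : 0 ≤ B) (hf : Cls59 N c d D f) (X : LS65 N b0 h b σ j e d m0 ep e3 J1 J2 J3 J4) (Kk : Key65 ep J3 J4 kap ke)
    {J : Finset ℕ} (hJ : ∀ r ∈ J, j - h < r ∧ r ≤ m0) (hJ0 : J.Nonempty) (A : Finset ℕ) (η : Env) :
    HL (wj μ s N (Pn N y) δ B b0 j (η, A) t) (pS σ j) ((j / σ + 1) * σ) ep (NI (j - b) (j - h)) (rh e d (f y (η, A)))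
      (2 * (B / 2) * (B / 2)) (B / 2 + B / 2) (nL μ s N δ B b0 j t y ep J (η, A)) kap (fun S => ps S ep) ke
      (Nb65 μ s N δ B b0 j t y ep J A η) (pL μ s N δ B b0 h b j e d f y (η, A)) := by
  obtain ⟨g1, g2, g3, g4, g5, g6, g7⟩ := X.geo
  have hm := X.hm
  have hbj := X.hb
  have hzp := X.zp
  have hpe := X.pe
  have hee := X.ee
  have wA := wf_tf (μ := μ) (s := s) hB δ b0 j (abs_sg A j).le t
  have wG := wf_gf (μ := μ) (s := s) hB δ b0 j (abs_sg A j).le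
  have hJ' : ∀ r ∈ J, 1 ≤ r ∧ r ≤ j - b0 := fun r hr => by have := hJ r hr; omega
  exact
    { hd := hd_wj59 δ B (η, A) t (by omega) hzp
      bd := bdp_L65 hB (η, A)
      Is := fun x y => MicE14.NI_symm _ _ x y
      I0 := fun x y => NI_nonneg _ _ _ _
      mpr := fun z => mp_rh' g5 g6 (rk_cls hf le_rfl y (η, A)) z
      r0 := fun x y => rh_nonneg _ _ _
      n0 := fun x => nn0_65 ep J (η, A) x
      lmi := lk_cE59 (z := (j / σ + 1) * σ) (c0 := j / σ * σ) (by omega) (hd_wj59 δ B (η, A) t (by omega) le_rfl)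
        fun S S' U U' h1 h2 => CutT57.NI_congr (fun i _ hi => h1 i (by omega)) fun i _ hi => h2 i (by omega)
      kp := fun S S' hS => ps_of_ge hS hzp
      ker := fun S S' hS => hS ep le_rfl
      kk := fun x _ => Kk.kk x
      lN := fun k => lk_abs_NbL (full_Pn N y) wG (by omega) (by omega) (by omega) hJ' k η
      bN := fun k S => abs_NbL wG hJ0 k η S
      nN := fun S => abs_NbL_own (full_Pn N y) wA wG (by omega) (by omega) (by omega) hJ' hJ0 η S }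

/-- A macro slab. -/
theorem sl65 (hf : Cls59 N c d D f) (X : LS65 N b0 h b σ j e d m0 ep e3 J1 J2 J3 J4) {J' : Finset ℕ} (h1 : ∀ m ∈ J', ep ≤ m ∧ m ≤ e)
    (h0 : J'.Nonempty) (ω : Env × Finset ℕ) : SL (Q := Pn N y) (pS σ j) ep (rh e d (f y ω)) J' where
  ne := h0
  le := fun m hm => (h1 m hm).1
  crs := fun m hm => crs_pJ (Nat.zero_le _) (X.zp.trans (h1 m hm).1)
  mpr := fun m hm z => mp_rh' (h1 m hm).2 X.geo.ed (rk_cls hf le_rfl y ω) z

theorem ox65 (hf : Cls59 N c d D f) (X : LS65 N b0 h b σ j e d m0 ep e3 J1 J2 J3 J4) {J' : Finset ℕ} (h1 : ∀ m ∈ J', m ≤ e)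
    (ω : Env × Finset ℕ) : Ox J' (pJ 0) (pL μ s N δ B b0 h b j e d f y ω) := by
  rw [pL_ob65]
  exact ox_ob h1 X.geo.ed (rk_cls hf le_rfl y ω) _

/-! ### The near far parts -/

section FarMono

variable {X : Type*} [Fintype X] [DecidableEq X] [Nonempty X] {Y Y' : Type*} [DecidableEq Y] [DecidableEq Y'] {U : Type*} {w : X → ℝ}
  {p : X → Y} {kp : (Fin 3 → X) → U} {F o : U → X → ℝ} {M : ℝ} {Ψ : (Fin 3 → X) → ℝ}

theorem fa_mono65 (h : ∀ β S, |F β S| ≤ M * o β S) (hM : 0 ≤ M) : fa w p kp F Ψ ≤ M * fa w p kp o Ψ := by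
  unfold fa
  rw [← I52.ev_smul]
  refine I52.ev_mono _ _ fun x => ?_
  have h1 := (h (kp x) (x 2)).trans (mul_le_mul_of_nonneg_left (le_abs_self _) hM)
  have h2 := (h (kp x) (x 1)).trans (mul_le_mul_of_nonneg_left (le_abs_self _) hM)
  have h3 := mul_le_mul_of_nonneg_left (add_le_add h1 h2) (abs_nonneg (Ψ x))
  refine h3.trans (le_of_eq (by ring))

theorem fb_mono65 (h : ∀ β S, |F β S| ≤ M * o β S) (hM : 0 ≤ M) : fb w p kp F Ψ ≤ M * fb w p kp o Ψ := by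
  unfold fb
  rw [← I52.ev_smul]
  refine I52.ev_mono _ _ fun x => ?_
  have h1 : cE w p (fun y => |F (kp x) y|) (x 2) ≤ cE w p (M • fun y => |o (kp x) y|) (x 2) := cE_mono w p (fun y => by
    rw [Pi.smul_apply, smul_eq_mul]
    exact (h (kp x) y).trans (mul_le_mul_of_nonneg_left (le_abs_self _) hM)) (x 2)
  rw [cE_smul, Pi.smul_apply, smul_eq_mul] at h1
  refine (mul_le_mul_of_nonneg_left h1 (abs_nonneg (Ψ x))).trans (le_of_eq (by ring))

theorem fc_mono65 {J : Finset ℕ} {q : ℕ → X → Y'} (h : ∀ β S, |F β S| ≤ M * o β S) (hM : 0 ≤ M) :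
    fc w p J q kp F Ψ ≤ M * fc w p J q kp o Ψ := by
  unfold fc
  rw [← I52.ev_smul]
  refine I52.ev_mono _ _ fun x => ?_
  have h1 : Cq w J q (fun y => |F (kp x) y|) (x 2) ≤ Cq w J q (fun y => M * |o (kp x) y|) (x 2) :=
    Cq_mono (fun y => (h (kp x) y).trans (mul_le_mul_of_nonneg_left (le_abs_self _) hM)) (x 2)
  rw [Cq_mul] at h1
  refine (mul_le_mul_of_nonneg_left h1 (abs_nonneg (Ψ x))).trans (le_of_eq (by ring))

end FarMono

variable {χ χm : T → Pt → ℝ} {o om : T → Px (Pn N y) → ℝ} {R Rm : ℝ}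

/-- The far part of the pinned near field of the row. -/
def Ff65 (μ : Measure ℝ) (s : ℝ) (N : ℕ) (δ B : ℝ) (b0 j : ℕ) (t : ℝ) (y : ℕ) [Nonempty (Px (Pn N y))] (ep : ℕ) (J : Finset ℕ)
    (ke : T → ℤ) (χ : T → Pt → ℝ) (A : Finset ℕ) (η : Env) (β : T) : Px (Pn N y) → ℝ :=
  FfL μ s N (Pn N y) (tf μ s δ B b0 j (sg A j) t) (gf μ s δ B b0 j (sg A j)) ep J ke χ β η

theorem abs_Ff65 (hB : 0 ≤ B) (X : LS65 N b0 h b σ j e d m0 ep e3 J1 J2 J3 J4) {I J : Finset ℕ} (Tn : TL65 N I χ o R) (hJI : J ⊆ I)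
    (hJ : ∀ r ∈ J, j - h < r ∧ r ≤ m0) (A : Finset ℕ) (η : Env) (β : T) (S : Px (Pn N y)) :
    |Ff65 μ s N δ B b0 j t y ep J ke χ A η β S| ≤ B / 2 * o β S := by
  obtain ⟨g1, g2, g3, g4, g5, g6, g7⟩ := X.geo
  have hm := X.hm
  have hbj := X.hb
  exact abs_farF59 (full_Pn N y) (fun r hr => by have := hJ r hr; omega)
    (fun p _ η => abs_cb_le (wf_gf (μ := μ) (s := s) hB δ b0 j (abs_sg A j).le) (ke β) η p) (Tn.z β) (Tn.u β) (Tn.o0 β S) S
    (by positivity) (fun ⟨i, hi, hx⟩ => Tn.far β S ⟨i, hJI hi, hx⟩) η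

/-! ### The three sums -/

section Three

variable (hB : 0 ≤ B) (hf : Cls59 N c d D f) (X : LS65 N b0 h b σ j e d m0 ep e3 J1 J2 J3 J4) (Kk : Key65 ep J3 J4 kap ke)

include hB hf X Kk

/-- The field of the key. -/
theorem Hx65 {J : Finset ℕ} (A : Finset ℕ) (η : Env) (β : T) (J' : Finset ℕ) :
    Hx μ s N (Pn N y) (tf μ s δ B b0 j (sg A j) t) (gf μ s δ B b0 j (sg A j)) J
      (cL μ s (tf μ s δ B b0 j (sg A j) t) (gf μ s δ B b0 j (sg A j)) ep J ke χ) J' β η =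
      (Nb65 μ s N δ B b0 j t y ep J A η (ke β) + Ff65 μ s N δ B b0 j t y ep J ke χ A η β) -
        Cq (wj μ s N (Pn N y) δ B b0 j (η, A) t) J' (pJ 0)
          (Nb65 μ s N δ B b0 j t y ep J A η (ke β) + Ff65 μ s N δ B b0 j t y ep J ke χ A η β) := Hx_L J' β η

/-- **ONE INSERTION, part L.** -/
theorem one65 {I J : Finset ℕ} (Tn : TL65 N I χ o R) (hJI : J ⊆ I) (hJ : ∀ r ∈ J, j - h < r ∧ r ≤ m0) (hJ0 : J.Nonempty)
    (A : Finset ℕ) (η : Env) :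
    ∑ β, |(P3 (pS σ j)).ks.dbl.toEv.ev (wj μ s N (Pn N y) δ B b0 j (η, A) t) ((P3 (pS σ j)).ks.dr.ins
      (Hx μ s N (Pn N y) (tf μ s δ B b0 j (sg A j) t) (gf μ s δ B b0 j (sg A j)) J
        (cL μ s (tf μ s δ B b0 j (sg A j) t) (gf μ s δ B b0 j (sg A j)) ep J ke χ) J3 β η)
      (lk14 kap β (pL μ s N δ B b0 h b j e d f y (η, A))))| ≤
      2 * (B / 2) * (B / 2) * (LM μ s N δ B b0 h b σ j e d f t y ep J 2 1 (η, A) +
        3 * (LQ μ s N δ B b0 h b σ j e d f t y ep J J3 (η, A) + (B / 2 + B / 2) * LLg μ s N δ B b0 h b σ j e d f t y ep J3 (η, A))) +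
      B / 2 * (Lfa μ s N δ B b0 h b σ j e d f t y kap o (η, A) + Lfb μ s N δ B b0 h b σ j e d f t y kap o (η, A) +
        3 * Lfc μ s N δ B b0 h b σ j e d f t y kap o J3 (η, A)) := by
  have H := hl65 (μ := μ) (s := s) (δ := δ) (t := t) hB hf X Kk hJ hJ0 A η
  have S3 := sl65 (y := y) hf X (J' := J3) (fun m hm => by have := X.j3 m hm; have := X.ee; omega) X.n3 (η, A)
  have hF := abs_Ff65 (μ := μ) (s := s) (δ := δ) (t := t) (y := y) (ke := ke) hB X Tn hJI hJ A η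
  have hM : 0 ≤ B / 2 := by positivity
  simp only [Hx65 (J := J) hB hf X Kk]
  refine (H.one S3 (F := Ff65 μ s N δ B b0 j t y ep J ke χ A η) (by positivity)
    (ox65 hf X (fun m hm => by have := X.j3 m hm; have := X.ee; omega) (η, A)) Kk.k3).trans (add_le_add le_rfl ?_)
  have k1 := fa_mono65 (w := wj μ s N (Pn N y) δ B b0 j (η, A) t) (p := pS σ j) (kp := kap)
    (Ψ := pL μ s N δ B b0 h b j e d f y (η, A)) hF hM
  have k2 := fb_mono65 (w := wj μ s N (Pn N y) δ B b0 j (η, A) t) (p := pS σ j) (kp := kap)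
    (Ψ := pL μ s N δ B b0 h b j e d f y (η, A)) hF hM
  have k3 := fc_mono65 (w := wj μ s N (Pn N y) δ B b0 j (η, A) t) (p := pS σ j) (kp := kap) (J := J3) (q := pJ 0)
    (Ψ := pL μ s N δ B b0 h b j e d f y (η, A)) hF hM
  unfold Lfa Lfb Lfc
  linarith

/-- **TWO INSERTIONS, part L.** -/
theorem two65 {I J : Finset ℕ} (Tn : TL65 N I χ o R) (hJI : J ⊆ I) (hJ : ∀ r ∈ J, j - h < r ∧ r ≤ m0) (hJ0 : J.Nonempty)
    (A : Finset ℕ) (η : Env) :
    ∑ β, |(P3 (pS σ j)).ks.dbl.dbl.toEv.ev (wj μ s N (Pn N y) δ B b0 j (η, A) t) ((P3 (pS σ j)).ks.dbl.dr.ins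
        (Hx μ s N (Pn N y) (tf μ s δ B b0 j (sg A j) t) (gf μ s δ B b0 j (sg A j)) J
          (cL μ s (tf μ s δ B b0 j (sg A j) t) (gf μ s δ B b0 j (sg A j)) ep J ke χ) J3 β η)
        ((P3 (pS σ j)).ks.dr.ins (gg μ s (Pn N y) δ B b0 (η, A) j) (lk14 kap β (pL μ s N δ B b0 h b j e d f y (η, A))))) -
      (P3 (pS σ j)).ks.dbl.toEv.ev (wj μ s N (Pn N y) δ B b0 j (η, A) t) ((P3 (pS σ j)).ks.dr.ins
        (gg μ s (Pn N y) δ B b0 (η, A) j *
          Hx μ s N (Pn N y) (tf μ s δ B b0 j (sg A j) t) (gf μ s δ B b0 j (sg A j)) J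
            (cL μ s (tf μ s δ B b0 j (sg A j) t) (gf μ s δ B b0 j (sg A j)) ep J ke χ) J3 β η)
        (lk14 kap β (pL μ s N δ B b0 h b j e d f y (η, A))))| ≤
      B / 2 * (2 * (B / 2) * (B / 2) * (LM μ s N δ B b0 h b σ j e d f t y ep J 14 19 (η, A) +
        33 * (LQ μ s N δ B b0 h b σ j e d f t y ep J J3 (η, A) + (B / 2 + B / 2) * LLg μ s N δ B b0 h b σ j e d f t y ep J3 (η, A))) +
      B / 2 * (7 * Lfa μ s N δ B b0 h b σ j e d f t y kap o (η, A) + 19 * Lfb μ s N δ B b0 h b σ j e d f t y kap o (η, A) +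
        33 * Lfc μ s N δ B b0 h b σ j e d f t y kap o J3 (η, A))) := by
  have H := hl65 (μ := μ) (s := s) (δ := δ) (t := t) hB hf X Kk hJ hJ0 A η
  have S3 := sl65 (y := y) hf X (J' := J3) (fun m hm => by have := X.j3 m hm; have := X.ee; omega) X.n3 (η, A)
  have hF := abs_Ff65 (μ := μ) (s := s) (δ := δ) (t := t) (y := y) (ke := ke) hB X Tn hJI hJ A η
  have hM : 0 ≤ B / 2 := by positivity
  simp only [Hx65 (J := J) hB hf X Kk]
  refine (H.two S3 (F := Ff65 μ s N δ B b0 j t y ep J ke χ A η) hM (abs_gg hB b0 (η, A) j) (by positivity)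
    (ox65 hf X (fun m hm => by have := X.j3 m hm; have := X.ee; omega) (η, A)) Kk.k3).trans
      (mul_le_mul_of_nonneg_left (add_le_add le_rfl ?_) hM)
  have k1 := fa_mono65 (w := wj μ s N (Pn N y) δ B b0 j (η, A) t) (p := pS σ j) (kp := kap)
    (Ψ := pL μ s N δ B b0 h b j e d f y (η, A)) hF hM
  have k2 := fb_mono65 (w := wj μ s N (Pn N y) δ B b0 j (η, A) t) (p := pS σ j) (kp := kap)
    (Ψ := pL μ s N δ B b0 h b j e d f y (η, A)) hF hM
  have k3 := fc_mono65 (w := wj μ s N (Pn N y) δ B b0 j (η, A) t) (p := pS σ j) (kp := kap) (J := J3) (q := pJ 0)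
    (Ψ := pL μ s N δ B b0 h b j e d f y (η, A)) hF hM
  unfold Lfa Lfb Lfc
  linarith

/-- **THE SECOND MACRO SLAB, part L.** -/
theorem mac65 {I J : Finset ℕ} (Tn : TL65 N I χ o R) (hJI : J ⊆ I) (hJ : ∀ r ∈ J, j - h < r ∧ r ≤ m0) (hJ0 : J.Nonempty)
    (A : Finset ℕ) (η : Env) :
    ∑ β, |(P3 (pS σ j)).ks.dbl.toEv.ev (wj μ s N (Pn N y) δ B b0 j (η, A) t) ((P3 (pS σ j)).ks.dr.ins
        (gg μ s (Pn N y) δ B b0 (η, A) j *
          Hx μ s N (Pn N y) (tf μ s δ B b0 j (sg A j) t) (gf μ s δ B b0 j (sg A j)) J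
            (cL μ s (tf μ s δ B b0 j (sg A j) t) (gf μ s δ B b0 j (sg A j)) ep J ke χ) J3 β η -
          Cq (wj μ s N (Pn N y) δ B b0 j (η, A) t) J4 (pJ 0) (gg μ s (Pn N y) δ B b0 (η, A) j *
            Hx μ s N (Pn N y) (tf μ s δ B b0 j (sg A j) t) (gf μ s δ B b0 j (sg A j)) J
              (cL μ s (tf μ s δ B b0 j (sg A j) t) (gf μ s δ B b0 j (sg A j)) ep J ke χ) J3 β η))
        (lk14 kap β (pL μ s N δ B b0 h b j e d f y (η, A))))| ≤
      B / 2 * (2 * (B / 2) * (B / 2) * (LM μ s N δ B b0 h b σ j e d f t y ep J 2 1 (η, A) +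
        3 * (LQ μ s N δ B b0 h b σ j e d f t y ep J J3 (η, A) + (B / 2 + B / 2) * LLg μ s N δ B b0 h b σ j e d f t y ep J3 (η, A)) +
        2 * (LQ μ s N δ B b0 h b σ j e d f t y ep J J4 (η, A) + (B / 2 + B / 2) * LLg μ s N δ B b0 h b σ j e d f t y ep J4 (η, A))) +
      B / 2 * (Lfa μ s N δ B b0 h b σ j e d f t y kap o (η, A) + Lfb μ s N δ B b0 h b σ j e d f t y kap o (η, A) +
        3 * Lfc μ s N δ B b0 h b σ j e d f t y kap o J3 (η, A) + 2 * Lfc μ s N δ B b0 h b σ j e d f t y kap o J4 (η, A))) := by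
  have H := hl65 (μ := μ) (s := s) (δ := δ) (t := t) hB hf X Kk hJ hJ0 A η
  have S3 := sl65 (y := y) hf X (J' := J3) (fun m hm => by have := X.j3 m hm; have := X.ee; omega) X.n3 (η, A)
  have S4 := sl65 (y := y) hf X (J' := J4) (fun m hm => by have := X.j4 m hm; have := X.pe; omega) X.n4 (η, A)
  have hF := abs_Ff65 (μ := μ) (s := s) (δ := δ) (t := t) (y := y) (ke := ke) hB X Tn hJI hJ A η
  have hM : 0 ≤ B / 2 := by positivity
  simp only [Hx65 (J := J) hB hf X Kk]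
  refine (H.mac S3 S4 (F := Ff65 μ s N δ B b0 j t y ep J ke χ A η) hM (abs_gg hB b0 (η, A) j) (by positivity)
    (ox65 hf X (fun m hm => by have := X.j4 m hm; omega) (η, A)) Kk.k4
    (fun m hm m' hm' => by have := X.j3 m hm; have := X.j4 m' hm'; omega)).trans
      (mul_le_mul_of_nonneg_left (add_le_add le_rfl ?_) hM)
  have k1 := fa_mono65 (w := wj μ s N (Pn N y) δ B b0 j (η, A) t) (p := pS σ j) (kp := kap)
    (Ψ := pL μ s N δ B b0 h b j e d f y (η, A)) hF hM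
  have k2 := fb_mono65 (w := wj μ s N (Pn N y) δ B b0 j (η, A) t) (p := pS σ j) (kp := kap)
    (Ψ := pL μ s N δ B b0 h b j e d f y (η, A)) hF hM
  have k3 := fc_mono65 (w := wj μ s N (Pn N y) δ B b0 j (η, A) t) (p := pS σ j) (kp := kap) (J := J3) (q := pJ 0)
    (Ψ := pL μ s N δ B b0 h b j e d f y (η, A)) hF hM
  have k4 := fc_mono65 (w := wj μ s N (Pn N y) δ B b0 j (η, A) t) (p := pS σ j) (kp := kap) (J := J4) (q := pJ 0)
    (Ψ := pL μ s N δ B b0 h b j e d f y (η, A)) hF hM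
  unfold Lfa Lfb Lfc
  linarith

end Three

end

end Pool.Agent.W_7d29a1_C0.EL65
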