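import Pool.Agent.W_7d29a1_C0.E2LB65

/-!
CURV0 (MP_7d29a1_pr), section E2, PART L: `bl_pL65` = the observable is blind behind the window; `dg_L65` = the derivative of the exact
response along the pinned near fields; `F3_65`, `F4_65` = the macro far parts; `qv1_65`, `qv3_65` = the quadratic variations. (helper65)
-/

set_option autoImplicit false
set_option linter.unusedSectionVars false
set_option linter.unusedVariables false

namespace Pool.Agent.W_7d29a1_C0.EL65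

open Finset MeasureTheory Pool.Agent.W_7d29a1_F Pool.Agent.W_7d29a1_X Pool.Agent.W_7d29a1_H Pool.Agent.W_7d29a1_C0
open Pool.Agent.W_7d29a1_C0.Mod92 Pool.Agent.W_7d29a1_C0.Blk18 Pool.Agent.W_7d29a1_C0.FP63 Pool.Agent.W_7d29a1_C0.Swap57
open Pool.Agent.W_7d29a1_C0.NM82 Pool.Agent.W_7d29a1_C0.CutF59 Pool.Agent.W_7d29a1_C0.CutG59 Pool.Agent.W_7d29a1_C0.E2Q59
open Pool.Agent.W_7d29a1_C0.E2F59 Pool.Agent.W_7d29a1_C0.E2M59 Pool.Agent.W_7d29a1_C0.E2R59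
open Pool.Agent.W_7d29a1_C0.FM63 Pool.Agent.W_7d29a1_C0.EM63 Pool.Agent.W_7d29a1_C0.FL65 Pool.Agent.W_7d29a1_C0.KL65
open Pool.Agent.W_7d29a1_C0.CrA44 (ge)
open Pool.Agent.W_7d29a1_C0.Base5
open Pool.Agent.W_7d29a1_C0.CutE14 (P3)
open Pool.Agent.W_7d29a1_C0.DGam14 (gam gamD gamD_sum abs_gamD_L)
open Pool.Agent.W_7d29a1_C0.MicE14 (Cq nn mi rh ob rh_nonneg)
open Pool.Agent.W_7d29a1_C0.MicH14 (G1 T0Q Ox ox_ob mp_rh')
open Pool.Agent.W_7d29a1_C0.MicI14 (Kx lk14)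
open Pool.Agent.W_7d29a1_C0.MicL14
open Pool.Agent.W_7d29a1_C0.E1M82 (Gd rk_cls gb_eq wf_xf)
open Pool.W7d29a1.C0
open Pool.W7d29a1.C0.VT31
open Pool.W7d29a1.C0.I52 (KS av ev ks_ev Plan)
open Pool.W7d29a1.C0.H19 (Cf)
open Pool.W7d29a1.C0.H41 (Obs Ev cut cut' QV)
open Pool.W7d29a1.C0.R63 (Bl Sd lcK DgK)

noncomputable section

variable {μ : Measure ℝ} {s : ℝ} {N : ℕ} {δ B : ℝ} {b0 h b σ j e d m0 ep e3 : ℕ} {J1 J2 J3 J4 : Finset ℕ} {c : ℕ} {D : ℝ} {f : Fam N}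
  {t : ℝ} {y : ℕ} [Nonempty (Px (Pn N y))]

/-! ### Blindness behind the window -/

/-- The exact response is blind off its window. -/
theorem bl_ge65 (hB : 0 ≤ B) (hb : b0 ≤ b) (hj : j + b ≤ N) (A : Finset ℕ) {J : Finset ℕ} (hJ : ∀ r ∈ J, r ≤ j - b ∨ j + b < r) :
    Bl (sS J N) fun η => ge μ s N (Pn N y) δ B b0 b (η, A) j := by
  intro p hp η x
  obtain ⟨r, hr, z, _, rfl⟩ := mem_sS.1 hp
  funext S
  have h1 := (wf_xf (μ := μ) (s := s) hB δ hb j (abs_sg A j).le).blind η ((r : ℤ), (z : ℤ)) x (cast59 (hJ r hr))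
  have h2 := gb_eq (μ := μ) (s := s) (full_Pn N y) hB δ hb hj (Function.update η ((r : ℤ), (z : ℤ)) x, A) S
  have h3 := gb_eq (μ := μ) (s := s) (full_Pn N y) hB δ hb hj (η, A) S
  show ge μ s N (Pn N y) δ B b0 b (Function.update η ((r : ℤ), (z : ℤ)) x, A) j S = ge μ s N (Pn N y) δ B b0 b (η, A) j S
  exact h2.trans ((congrFun h1 (ps S)).trans h3.symm)

/-- **The observable is blind on the macro slabs.** -/
theorem bl_pL65 (hB : 0 ≤ B) (hf : Cls59 N c d D f) (X : LS65 N b0 h b σ j e d m0 ep e3 J1 J2 J3 J4) (A : Finset ℕ) {J : Finset ℕ}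
    (hJ : ∀ r ∈ J, ep < r ∧ r ≤ e) : ∀ q ∈ sS J N, ∀ (η : Env) (x : ℝ),
      pL μ s N δ B b0 h b j e d f y (Function.update η q x, A) = pL μ s N δ B b0 h b j e d f y (η, A) := by
  obtain ⟨g1, g2, g3, g4, g5, g6, g7⟩ := X.geo
  have hzp := X.zp
  intro q hq η x
  have e1 := bl_ge65 (μ := μ) (s := s) (δ := δ) (y := y) hB (g1.trans g2) (by omega : j + b ≤ N) A
    (fun r hr => Or.inr (by have := hJ r hr; omega) : ∀ r ∈ J, r ≤ j - b ∨ j + b < r) q hq η x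
  have e2 := bl_g59 (μ := μ) (s := s) (N := N) (Q := Pn N y) hB δ b0 j A
    (fun r hr => Or.inr (by have := hJ r hr; omega) : ∀ r ∈ J, r ≤ j - b0 ∨ j + b0 < r) q hq η x
  have e4 := bl_f59 hf y A (fun r hr => ⟨by have := hJ r hr; omega, by have := hJ r hr; omega⟩ : ∀ r ∈ J, 0 < r ∧ r ≤ d) q hq η x
  unfold pL
  simp only at e1 e2 e4
  rw [e1, e2, e4]

/-! ### The derivative of the exact response -/

section Dg

variable {T : Type*} {kap : (Fin 3 → Px (Pn N y)) → T} {ke : T → ℤ} {χ : T → Pt → ℝ}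

/-- The derivative along a field of the key is one `gamD`. -/
theorem dgK_eq65 (cc : T → Pt → Env → ℝ) (J : Finset ℕ) (A : Finset ℕ) (η : Env) (x : Fin 3 → Px (Pn N y)) :
    DgK kap (sS J N) cc (pL' μ s N δ B b0 h b j e d f y A) η x =
      psLF (j - b) (j - h) (j + h) (j + b) e d (gamD (lw μ s η N (Pn N y)) (gg μ s (Pn N y) δ B b0 (η, A) j)
        (Cf (sS J N) (cc (kap x)) (nq N) η) ((sg A j : ℤ) : ℝ) (pW b j)) (gg μ s (Pn N y) δ B b0 (η, A) j) (f y (η, A)) x := by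
  unfold DgK
  have e1 := sum_psLF (wl := j - b) (al := j - h) (be := j + h) (wr := j + b) (e := e) (d := d) (sS J N) (fun q => cc (kap x) q η)
    (fun q => gD μ s N δ B b0 b j y (nq N q) (η, A)) (gg μ s (Pn N y) δ B b0 (η, A) j) (f y (η, A)) x
  refine e1.trans ?_
  congr 1
  funext S
  exact gamD_sum _ _ _ _ _ _ _ _

/-- **The derivative of the left part along the pinned near field.** -/
theorem dg_L65 (hB : 0 ≤ B) (hf : Cls59 N c d D f) (X : LS65 N b0 h b σ j e d m0 ep e3 J1 J2 J3 J4) (A : Finset ℕ)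
    {J : Finset ℕ} (hJ : ∀ r ∈ J, j - h < r ∧ r ≤ m0) (hJ0 : J.Nonempty) (z : ∀ β p, 0 ≤ χ β p) (u : ∀ β p, χ β p ≤ 1)
    (η : Env) : ev (P3 (pS σ j)) (wj μ s N (Pn N y) δ B b0 j (η, A) t) (fun x => |DgK kap (sS J N)
      (cL μ s (tf μ s δ B b0 j (sg A j) t) (gf μ s δ B b0 j (sg A j)) ep J ke χ) (pL' μ s N δ B b0 h b j e d f y A) η x|) ≤
      2 * (B / 2) * LG μ s N δ B b0 h b σ j e d f t y m0 (η, A) := by
  obtain ⟨g1, g2, g3, g4, g5, g6, g7⟩ := X.geo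
  have hm := X.hm
  have hbj := X.hb
  have hM : 0 ≤ B / 2 := by positivity
  have hJ' : ∀ r ∈ J, 1 ≤ r ∧ r ≤ N := fun r hr => by have := hJ r hr; omega
  obtain ⟨r0, hr0⟩ := hJ0
  have hr0' := hJ r0 hr0
  refine ev_pair59 (w := wj μ s N (Pn N y) δ B b0 j (η, A) t) (I := NI (j - b) (j - h)) (ρ := rh e d (f y (η, A)))
    (p := pS σ j) (n := fun S => B / 2 * (B / 2) * Gm59 (lw μ s η N (Pn N y)) (gg μ s (Pn N y) δ B b0 (η, A) j)
      ((sg A j : ℤ) : ℝ) (pW b j) m0 (j - b0) S) hM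
    (fun S => mul_nonneg (mul_nonneg hM hM) (Gm59_nonneg _ _ _ _ _ _ _)) (fun S S' => NI_nonneg _ _ _ _)
    (fun S S' => rh_nonneg _ _ _) (fun S S' => MicE14.NI_symm _ _ S S') (fun U => mp_rh' g5 g6 (rk_cls hf le_rfl y (η, A)) U) fun x => ?_
  rw [dgK_eq65]
  have hA : ∀ S, |gamD (lw μ s η N (Pn N y)) (gg μ s (Pn N y) δ B b0 (η, A) j)
      (Cf (sS J N) (cL μ s (tf μ s δ B b0 j (sg A j) t) (gf μ s δ B b0 j (sg A j)) ep J ke χ (kap x)) (nq N) η)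
      ((sg A j : ℤ) : ℝ) (pW b j) S| ≤
      B / 2 * (B / 2) * Gm59 (lw μ s η N (Pn N y)) (gg μ s (Pn N y) δ B b0 (η, A) j) ((sg A j : ℤ) : ℝ) (pW b j) m0 (j - b0) S :=
    fun S => abs_gamD_L (c := j - b) (d := j + b) (al := j - b0) (be := j + b0) (m0 := m0) (by omega) (by omega)
      (by omega) (Wk_lw η (by omega)) (Lk_gg δ B b0 j (η, A) le_rfl le_rfl)
      (fun S S' h => Cf_see59 (full_Pn N y) hJ' _ η fun r hr => h r (hJ r hr).2)
      (fun S => abs_Cf59 (full_Pn N y) hJ' (fun p _ η => abs_cb_le (wf_gf (μ := μ) (s := s) hB δ b0 j (abs_sg A j).le)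
        (ke (kap x)) η p) (z _) (u _) hM η S) (abs_gg hB b0 (η, A) j) S
  unfold psLF
  rw [abs_mul, MicE14.abs_rh]
  refine (mul_le_mul_of_nonneg_right (abs_pL_n (abs_gg hB b0 (η, A) j) hA (x 2) (x 1)) (rh_nonneg _ _ _)).trans (le_of_eq ?_)
  ring

end Dg

/-! ### The macro far parts, the quadratic variations -/

section Mac

variable {T : Type*} {cc : T → Pt → Env → ℝ} {χm : T → Pt → ℝ} {om : T → Px (Pn N y) → ℝ} {Rm D' DA Dh : ℝ} {J : Finset ℕ}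
  {A G : Env → (ℕ → ℤ) → ℝ} {al be : ℕ}

/-- The macro far part of the remainder. -/
theorem F3_65 {I : Finset ℕ} (Tm : TL65 N I χm om Rm) (h3 : J3 ⊆ I) (hA : WF al be DA A) (hF : ∀ β, WF 0 ep D' (nf G J (cc β)))
    (hae : be ≤ ep) (hj3 : ∀ r ∈ J3, ep < r ∧ r ≤ N) (β : T) (η : Env) (S : Px (Pn N y)) :
    |F3 μ s N (Pn N y) A G J cc J3 χm β η S| ≤ D' * om β S :=
  abs_farF59 (full_Pn N y) (fun r hr => by have := hj3 r hr; omega)
    (fun p hp η => (rf_mac (μ := μ) (s := s) hA (hF β) hae hj3).bdS hp η) (Tm.z β) (Tm.u β) (Tm.o0 β S) S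
    ((abs_nonneg _).trans ((hF β).bd (fun _ => 0) fun _ => 0)) (fun ⟨i, hi, hx⟩ => Tm.far β S ⟨i, h3 hi, hx⟩) η

/-- The macro far part of the product. -/
theorem F4_65 {I : Finset ℕ} (Tm : TL65 N I χm om Rm) (h4 : J4 ⊆ I) (hA : WF al be DA A)
    (hH : ∀ β, WF 0 e3 Dh (hh μ s A G J cc J3 β)) (hae : be ≤ e3) (hj4 : ∀ r ∈ J4, e3 < r ∧ r ≤ N) (β : T) (η : Env)
    (S : Px (Pn N y)) : |F4 μ s N (Pn N y) A G J cc J3 J4 χm β η S| ≤ Dh * om β S :=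
  abs_farF59 (full_Pn N y) (fun r hr => by have := hj4 r hr; omega)
    (fun p hp η => (rf_mac (μ := μ) (s := s) hA (hH β) hae hj4).bdS hp η) (Tm.z β) (Tm.u β) (Tm.o0 β S) S
    ((abs_nonneg _).trans ((hH β).bd (fun _ => 0) fun _ => 0)) (fun ⟨i, hi, hx⟩ => Tm.far β S ⟨i, h4 hi, hx⟩) η

/-- The quadratic variation of a field cut to the tubes, at one environment. -/
theorem qv3_65 {I : Finset ℕ} (Tm : TL65 N I χm om Rm) (h3 : J3 ⊆ I) {M Q3 : ℝ} (hQ : J3.card * (Rm * (M / J3.card) ^ 2) ≤ Q3)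
    (β : T) (η : Env) (c0 : Pt → Env → ℝ) (hc : ∀ p ∈ sS J3 N, |c0 p η| ≤ M / J3.card) : QV (sS J3 N) (cut (χm β) c0) η ≤ Q3 := by
  have h1 := QV_cut59 (N := N) (J := J3) (cc := fun p _ => c0 p η) (M := M) (R := Rm) (χ := χm β) (fun p hp _ => hc p hp)
    (Tm.z β) (Tm.u β) (fun i hi => Tm.n β i (h3 hi)) η
  exact h1.trans hQ

end Mac

end

end Pool.Agent.W_7d29a1_C0.EL65
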