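import Pool.Agent.W_7d29a1_C0.E2LB63
import Pool.Agent.W_7d29a1_C0.E2L65

/-!
CURV0 (MP_7d29a1_pr), section E2, PART L: THE LIST FOR A GENERAL KEY. `e2_LG` = `e2_L` for any finite key `kap` which knows the position of
`x 2` at the pin and sees `x 0` only behind the macro slabs (`Key65`), and any tubes (`TL65`) of helper65. (helper63)
-/

set_option autoImplicit false
set_option linter.unusedSectionVars false
set_option linter.unusedVariables false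

namespace Pool.Agent.W_7d29a1_C0.EG63

open Finset MeasureTheory Pool.Agent.W_7d29a1_F Pool.Agent.W_7d29a1_X Pool.Agent.W_7d29a1_H
open Pool.Agent.W_7d29a1_C0 Pool.Agent.W_7d29a1_C0.H32 Pool.Agent.W_7d29a1_C0.Mod92 Pool.Agent.W_7d29a1_C0.Blk18
open Pool.Agent.W_7d29a1_C0.FP63 Pool.Agent.W_7d29a1_C0.InT57 Pool.Agent.W_7d29a1_C0.FM63 Pool.Agent.W_7d29a1_C0.EM63
open Pool.Agent.W_7d29a1_C0.CutE14 (P3)
open Pool.Agent.W_7d29a1_C0.MicE14 (Cq nn mi Bdp abs_sub_Cq_le)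
open Pool.Agent.W_7d29a1_C0.MicH14 (Ox G1 T0Q)
open Pool.Agent.W_7d29a1_C0.MicI14 (Kx lk14)
open Pool.Agent.W_7d29a1_C0.MicL14
open Pool.Agent.W_7d29a1_C0.Swap57
open Pool.Agent.W_7d29a1_C0.NM82 (Hd)
open Pool.Agent.W_7d29a1_C0.MB63
open Pool.Agent.W_7d29a1_C0.E2F59 (abs_farF59 QV_cut59)
open Pool.Agent.W_7d29a1_C0.EL63 (fa_le fb_le fc_le ev1_g mb_G1 mb_TL mb_fa mb_fb mb_fc mb_FK FK FK_mono sum_far_one sum_far_two DL nL
  iG iT iN iK iP int_add' int_smul' mb_lA mb_at2 mb_nL mb_Psi ins_int tlL card_mul_le)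
open Pool.Agent.W_7d29a1_C0.FL65 (cL FfL NbL wf0 abs_cb_le abs_NbL_own abs_NbL lk_abs_NbL Hx_L rf_cL df_cL cL_blind)
open Pool.Agent.W_7d29a1_C0.EL65 (Key65 TL65)
open Pool.W7d29a1.C0 Pool.W7d29a1.C0.VT31
open Pool.W7d29a1.C0.I52 (KS sgs av ev ks_ev wt)
open Pool.W7d29a1.C0.H19 (Cf)
open Pool.W7d29a1.C0.H41 (Ev Dr Obs Wt cut cut' QV Cf_split tail1 tail2)
open Pool.W7d29a1.C0.R63

noncomputable section

variable {μ : Measure ℝ} {s : ℝ} {N al be e e3 z' : ℕ} {Q : Finset (Finset ℕ)} {A G : Env → (ℕ → ℤ) → ℝ} {J J1 J2 J3 J4 : Finset ℕ}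
  {D' τ : ℝ} {Y : Type*} [DecidableEq Y] [SwQ Q] [Nonempty (Px Q)] {p : Px Q → Y} {I : Px Q → Px Q → ℝ}
  {ρ : Env → Px Q → Px Q → ℝ} {K0 D0 D1 D2 : ℝ} {Ψ : Env → (Fin 3 → Px Q) → ℝ} {Ψ1 Ψ2 : Pt → Env → (Fin 3 → Px Q) → ℝ}
  {T : Type*} [Fintype T] [DecidableEq T] {kap : (Fin 3 → Px Q) → T} {ke : T → ℤ} {χ χm : T → Pt → ℝ} {o om : T → Px Q → ℝ} {R Rm : ℝ}

theorem hl_G (H : DL μ s N Q A p z' e I ρ K0 J3 J4 Ψ) (hk : Key65 e J3 J4 kap ke) (hQ : Full N Q) (hA : WF al be D' A)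
    (hG : WF al be τ G) (hab : al ≤ be) (he : be ≤ e) (heN : e ≤ N) (hz : be ≤ z') (hJ : ∀ r ∈ J, 1 ≤ r ∧ r ≤ al) (hJ0 : J.Nonempty)
    (η : Env) :
    HL (lA μ s N Q A η) p z' e I (ρ η) K0 (2 * τ) (nL μ s N Q A G e J η) kap (fun S => ps S e) ke
      (fun b => NbL μ s N Q A G e J b η) (Ψ η) where
  hd := H.hd η
  bd := H.bd η
  Is := H.Is
  I0 := H.I0
  mpr := H.mpr η
  r0 := H.r0 η
  n0 := fun x => (abs_nonneg _).trans (abs_NbL_own (μ := μ) (s := s) hQ hA hG hab he heN hJ hJ0 η x)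
  lmi := H.lmi η
  kp := fun y y' h => H.kp y y' h
  ker := fun S S' h => h e le_rfl
  kk := fun x _ => hk.kk x
  lN := fun b => lk_abs_NbL hQ hG hab hz (hab.trans (he.trans heN)) hJ b η
  bN := fun b S => (abs_NbL (μ := μ) (s := s) (A := A) (e := e) hG hJ0 b η S).trans (le_of_eq (two_mul τ).symm)
  nN := fun S => abs_NbL_own hQ hA hG hab he heN hJ hJ0 η S

section Three

variable [IsProbabilityMeasure μ]

variable (H : DL μ s N Q A p z' e I ρ K0 J3 J4 Ψ) (hQ : Full N Q) (hA : WF al be D' A) (hG : WF al be τ G) (hΨ : Obs Ψ D0)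
  (hab : al ≤ be) (hae : be ≤ e) (hz : be ≤ z') (hee : e ≤ e3) (he3 : e3 ≤ N) (hJ : ∀ r ∈ J, 1 ≤ r ∧ r ≤ al) (hJ0 : J.Nonempty)
  (hj3 : ∀ r ∈ J3, e < r ∧ r ≤ e3) (hj4 : ∀ r ∈ J4, e3 < r ∧ r ≤ N) (hk : Key65 e J3 J4 kap ke) {I' : Finset ℕ}
  (Tn : TL65 N I' χ o R) (hI : J ⊆ I')

omit H in
include hG hQ hab hae hee he3 hJ Tn hI in
/-- The near far part. -/
theorem abs_FfG (η : Env) (β : T) (S : Px Q) : |FfL μ s N Q A G e J ke χ β η S| ≤ τ * |o β S| := by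
  rw [abs_of_nonneg (Tn.o0 β S)]
  exact abs_farF59 hQ (fun r hr => ⟨(hJ r hr).1, (hJ r hr).2.trans (hab.trans (hae.trans (hee.trans he3)))⟩)
    (fun p _ η => abs_cb_le hG (ke β) η p) (Tn.z β) (Tn.u β) (Tn.o0 β S) S (wf0 hG)
    (fun ⟨i, hi, h⟩ => Tn.far β S ⟨i, hI hi, h⟩) η

include H hQ hA hG hΨ hab hae hz hee he3 hJ hJ0 hj3 hk Tn hI

/-- **One insertion.** -/
theorem l_one : ∑ β, ∫ η, |(P3 p).ks.dbl.toEv.ev (lA μ s N Q A η) ((P3 p).ks.dr.ins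
      (Hx μ s N Q A G J (cL μ s A G e J ke χ) J3 β η) (lcK kap β (Ψ η)))| ∂(law μ) ≤
    K0 * (iG μ s N Q A p I ρ (nL μ s N Q A G e J) 2 1 + 3 * iT μ s N Q A p J3 z' e I ρ (nL μ s N Q A G e J) (2 * τ)) +
      τ * iN μ s N Q A p J3 J4 kap o Ψ 1 1 3 0 := by
  have τ0 : 0 ≤ τ := (abs_nonneg _).trans (hG.bd (fun _ => 0) fun _ => 0)
  have i1 : MB fun η => G1 (lA μ s N Q A η) p I (ρ η) (nL μ s N Q A G e J η) 2 1 := mb_G1 (mb_lA hA) H.mb (mb_nL hA hG e J) p I 2 1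
  have i2 : MB fun η => TL (lA μ s N Q A η) p J3 z' e I (ρ η) (nL μ s N Q A G e J η) (2 * τ) :=
    mb_TL (mb_lA hA) H.mb (mb_nL hA hG e J) p J3 z' e I (2 * τ)
  have i3 : MB fun η => fa (lA μ s N Q A η) p kap o (Ψ η) :=
    mb_fa (mb_lA hA) (mb_Psi hΨ) p
  have i4 : MB fun η => fb (lA μ s N Q A η) p kap o (Ψ η) :=
    mb_fb (mb_lA hA) (mb_Psi hΨ) p
  have i5 : MB fun η => fc (lA μ s N Q A η) p J3 (pJ 0) kap o (Ψ η) :=
    mb_fc (mb_lA hA) (mb_Psi hΨ) p J3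
  have j1 := (i1.add (i2.smul 3)).smul K0
  have j2 := ((i3.add i4).add (i5.smul 3)).smul τ
  refine (sum_int_le (j1.add j2).int fun η => ?_).trans (le_of_eq ?_)
  · have HL := hl_G H hk hQ hA hG hab hae (hee.trans he3) hz hJ hJ0 η
    have h1 := HL.one (F := fun β => FfL μ s N Q A G e J ke χ β η) (H.sl3 (fun r hr => (hj3 r hr).1) η) H.K00 (H.o3 η)
      hk.k3
    have h2 : ∑ β, |(P3 p).ks.dbl.toEv.ev (lA μ s N Q A η) ((P3 p).ks.dr.ins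
        (Hx μ s N Q A G J (cL μ s A G e J ke χ) J3 β η) (lcK kap β (Ψ η)))| ≤
        K0 * (G1 (lA μ s N Q A η) p I (ρ η) (nL μ s N Q A G e J η) 2 1 +
          3 * TL (lA μ s N Q A η) p J3 z' e I (ρ η) (nL μ s N Q A G e J η) (2 * τ)) +
        (fa (lA μ s N Q A η) p kap (fun β => FfL μ s N Q A G e J ke χ β η) (Ψ η) +
          fb (lA μ s N Q A η) p kap (fun β => FfL μ s N Q A G e J ke χ β η) (Ψ η) +
          3 * fc (lA μ s N Q A η) p J3 (pJ 0) kap (fun β => FfL μ s N Q A G e J ke χ β η) (Ψ η)) := by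
      simp only [Hx_L]
      exact h1
    have f0 : ∀ (β : T) (S : Px Q), |(fun β => FfL μ s N Q A G e J ke χ β η) β S| ≤ τ * |o β S| := fun β S =>
      abs_FfG hQ hG hab hae hee he3 hJ Tn hI η β S
    have f1 := fa_le (w := lA μ s N Q A η) (p := p) (κ := kap) (Ψ := Ψ η) f0
    have f2 := fb_le (w := lA μ s N Q A η) (p := p) (κ := kap) (Ψ := Ψ η) f0
    have f3 := fc_le (w := lA μ s N Q A η) (J := J3) (q := pJ 0) (p := p) (κ := kap) (Ψ := Ψ η) f0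
    refine h2.trans ?_
    linarith
  · rw [int_add' j1 j2, int_smul', int_add' i1 (i2.smul 3), int_smul', int_smul', int_add' (i3.add i4) (i5.smul 3), int_add' i3 i4,
      int_smul']
    unfold iG iT iN
    ring

/-- **Two insertions.** -/
theorem l_two : ∑ β, ∫ η, |(P3 p).ks.dbl.dbl.toEv.ev (lA μ s N Q A η) ((P3 p).ks.dbl.dr.ins
      (Hx μ s N Q A G J (cL μ s A G e J ke χ) J3 β η) ((P3 p).ks.dr.ins (at2 G η) (lcK kap β (Ψ η)))) -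
      (P3 p).ks.dbl.toEv.ev (lA μ s N Q A η) ((P3 p).ks.dr.ins (at2 G η * Hx μ s N Q A G J (cL μ s A G e J ke χ) J3 β η)
        (lcK kap β (Ψ η)))| ∂(law μ) ≤
    τ * (K0 * (iG μ s N Q A p I ρ (nL μ s N Q A G e J) 14 19 +
        33 * iT μ s N Q A p J3 z' e I ρ (nL μ s N Q A G e J) (2 * τ)) +
      τ * iN μ s N Q A p J3 J4 kap o Ψ 7 19 33 0) := by
  have τ0 : 0 ≤ τ := (abs_nonneg _).trans (hG.bd (fun _ => 0) fun _ => 0)
  have i1 : MB fun η => G1 (lA μ s N Q A η) p I (ρ η) (nL μ s N Q A G e J η) 14 19 := mb_G1 (mb_lA hA) H.mb (mb_nL hA hG e J) p I 14 19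
  have i2 : MB fun η => TL (lA μ s N Q A η) p J3 z' e I (ρ η) (nL μ s N Q A G e J η) (2 * τ) :=
    mb_TL (mb_lA hA) H.mb (mb_nL hA hG e J) p J3 z' e I (2 * τ)
  have i3 : MB fun η => fa (lA μ s N Q A η) p kap o (Ψ η) :=
    mb_fa (mb_lA hA) (mb_Psi hΨ) p
  have i4 : MB fun η => fb (lA μ s N Q A η) p kap o (Ψ η) :=
    mb_fb (mb_lA hA) (mb_Psi hΨ) p
  have i5 : MB fun η => fc (lA μ s N Q A η) p J3 (pJ 0) kap o (Ψ η) :=
    mb_fc (mb_lA hA) (mb_Psi hΨ) p J3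
  have j1 := (i1.add (i2.smul 33)).smul K0
  have j2 := (((i3.smul 7).add (i4.smul 19)).add (i5.smul 33)).smul τ
  refine (sum_int_le ((j1.add j2).smul τ).int fun η => ?_).trans (le_of_eq ?_)
  · have HL := hl_G H hk hQ hA hG hab hae (hee.trans he3) hz hJ hJ0 η
    have h1 := HL.two (F := fun β => FfL μ s N Q A G e J ke χ β η) (H.sl3 (fun r hr => (hj3 r hr).1) η) τ0
      (g := at2 G η) (fun S => hG.bd η _) H.K00 (H.o3 η) hk.k3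
    have h2 : ∑ β, |(P3 p).ks.dbl.dbl.toEv.ev (lA μ s N Q A η) ((P3 p).ks.dbl.dr.ins
        (Hx μ s N Q A G J (cL μ s A G e J ke χ) J3 β η) ((P3 p).ks.dr.ins (at2 G η) (lcK kap β (Ψ η)))) -
        (P3 p).ks.dbl.toEv.ev (lA μ s N Q A η) ((P3 p).ks.dr.ins (at2 G η * Hx μ s N Q A G J (cL μ s A G e J ke χ) J3 β η)
          (lcK kap β (Ψ η)))| ≤
        τ * (K0 * (G1 (lA μ s N Q A η) p I (ρ η) (nL μ s N Q A G e J η) 14 19 +
          33 * TL (lA μ s N Q A η) p J3 z' e I (ρ η) (nL μ s N Q A G e J η) (2 * τ)) +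
        (7 * fa (lA μ s N Q A η) p kap (fun β => FfL μ s N Q A G e J ke χ β η) (Ψ η) +
          19 * fb (lA μ s N Q A η) p kap (fun β => FfL μ s N Q A G e J ke χ β η) (Ψ η) +
          33 * fc (lA μ s N Q A η) p J3 (pJ 0) kap (fun β => FfL μ s N Q A G e J ke χ β η) (Ψ η))) := by
      simp only [Hx_L]
      exact h1
    have f0 : ∀ (β : T) (S : Px Q), |(fun β => FfL μ s N Q A G e J ke χ β η) β S| ≤ τ * |o β S| := fun β S =>
      abs_FfG hQ hG hab hae hee he3 hJ Tn hI η β S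
    have f1 := fa_le (w := lA μ s N Q A η) (p := p) (κ := kap) (Ψ := Ψ η) f0
    have f2 := fb_le (w := lA μ s N Q A η) (p := p) (κ := kap) (Ψ := Ψ η) f0
    have f3 := fc_le (w := lA μ s N Q A η) (J := J3) (q := pJ 0) (p := p) (κ := kap) (Ψ := Ψ η) f0
    refine h2.trans (mul_le_mul_of_nonneg_left ?_ τ0)
    linarith
  · rw [int_smul', int_add' j1 j2, int_smul', int_add' i1 (i2.smul 33), int_smul', int_smul',
      int_add' ((i3.smul 7).add (i4.smul 19)) (i5.smul 33), int_add' (i3.smul 7) (i4.smul 19), int_smul', int_smul', int_smul']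
    unfold iG iT iN
    ring

include hj4

/-- **The second macro slab.** -/
theorem l_mac : ∑ β, ∫ η, |(P3 p).ks.dbl.toEv.ev (lA μ s N Q A η) ((P3 p).ks.dr.ins
      (at2 G η * Hx μ s N Q A G J (cL μ s A G e J ke χ) J3 β η - Cq (lA μ s N Q A η) J4 (pJ 0)
        (at2 G η * Hx μ s N Q A G J (cL μ s A G e J ke χ) J3 β η)) (lcK kap β (Ψ η)))| ∂(law μ) ≤
    τ * (K0 * (iG μ s N Q A p I ρ (nL μ s N Q A G e J) 2 1 + 3 * iT μ s N Q A p J3 z' e I ρ (nL μ s N Q A G e J) (2 * τ) +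
        2 * iT μ s N Q A p J4 z' e I ρ (nL μ s N Q A G e J) (2 * τ)) +
      τ * iN μ s N Q A p J3 J4 kap o Ψ 1 1 3 2) := by
  have τ0 : 0 ≤ τ := (abs_nonneg _).trans (hG.bd (fun _ => 0) fun _ => 0)
  have i1 : MB fun η => G1 (lA μ s N Q A η) p I (ρ η) (nL μ s N Q A G e J η) 2 1 := mb_G1 (mb_lA hA) H.mb (mb_nL hA hG e J) p I 2 1
  have i2 : MB fun η => TL (lA μ s N Q A η) p J3 z' e I (ρ η) (nL μ s N Q A G e J η) (2 * τ) :=
    mb_TL (mb_lA hA) H.mb (mb_nL hA hG e J) p J3 z' e I (2 * τ)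
  have i2' : MB fun η => TL (lA μ s N Q A η) p J4 z' e I (ρ η) (nL μ s N Q A G e J η) (2 * τ) :=
    mb_TL (mb_lA hA) H.mb (mb_nL hA hG e J) p J4 z' e I (2 * τ)
  have i3 : MB fun η => fa (lA μ s N Q A η) p kap o (Ψ η) :=
    mb_fa (mb_lA hA) (mb_Psi hΨ) p
  have i4 : MB fun η => fb (lA μ s N Q A η) p kap o (Ψ η) :=
    mb_fb (mb_lA hA) (mb_Psi hΨ) p
  have i5 : MB fun η => fc (lA μ s N Q A η) p J3 (pJ 0) kap o (Ψ η) :=
    mb_fc (mb_lA hA) (mb_Psi hΨ) p J3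
  have i6 : MB fun η => fc (lA μ s N Q A η) p J4 (pJ 0) kap o (Ψ η) :=
    mb_fc (mb_lA hA) (mb_Psi hΨ) p J4
  have j1 := ((i1.add (i2.smul 3)).add (i2'.smul 2)).smul K0
  have j2 := (((i3.add i4).add (i5.smul 3)).add (i6.smul 2)).smul τ
  refine (sum_int_le ((j1.add j2).smul τ).int fun η => ?_).trans (le_of_eq ?_)
  · have HL := hl_G H hk hQ hA hG hab hae (hee.trans he3) hz hJ hJ0 η
    have h1 := HL.mac (F := fun β => FfL μ s N Q A G e J ke χ β η) (H.sl3 (fun r hr => (hj3 r hr).1) η)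
      (H.sl4 (fun r hr => hee.trans_lt (hj4 r hr).1) η) τ0
      (g := at2 G η) (fun S => hG.bd η _) H.K00 (H.o4 η) hk.k4
      (fun m hm m' hm' => (hj3 m hm).2.trans (hj4 m' hm').1.le)
    have h2 : ∑ β, |(P3 p).ks.dbl.toEv.ev (lA μ s N Q A η) ((P3 p).ks.dr.ins
        (at2 G η * Hx μ s N Q A G J (cL μ s A G e J ke χ) J3 β η - Cq (lA μ s N Q A η) J4 (pJ 0)
          (at2 G η * Hx μ s N Q A G J (cL μ s A G e J ke χ) J3 β η)) (lcK kap β (Ψ η)))| ≤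
        τ * (K0 * (G1 (lA μ s N Q A η) p I (ρ η) (nL μ s N Q A G e J η) 2 1 +
          3 * TL (lA μ s N Q A η) p J3 z' e I (ρ η) (nL μ s N Q A G e J η) (2 * τ) +
          2 * TL (lA μ s N Q A η) p J4 z' e I (ρ η) (nL μ s N Q A G e J η) (2 * τ)) +
        (fa (lA μ s N Q A η) p kap (fun β => FfL μ s N Q A G e J ke χ β η) (Ψ η) +
          fb (lA μ s N Q A η) p kap (fun β => FfL μ s N Q A G e J ke χ β η) (Ψ η) +
          3 * fc (lA μ s N Q A η) p J3 (pJ 0) kap (fun β => FfL μ s N Q A G e J ke χ β η) (Ψ η) +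
          2 * fc (lA μ s N Q A η) p J4 (pJ 0) kap (fun β => FfL μ s N Q A G e J ke χ β η) (Ψ η))) := by
      simp only [Hx_L]
      exact h1
    have f0 : ∀ (β : T) (S : Px Q), |(fun β => FfL μ s N Q A G e J ke χ β η) β S| ≤ τ * |o β S| := fun β S =>
      abs_FfG hQ hG hab hae hee he3 hJ Tn hI η β S
    have f1 := fa_le (w := lA μ s N Q A η) (p := p) (κ := kap) (Ψ := Ψ η) f0
    have f2 := fb_le (w := lA μ s N Q A η) (p := p) (κ := kap) (Ψ := Ψ η) f0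
    have f3 := fc_le (w := lA μ s N Q A η) (J := J3) (q := pJ 0) (p := p) (κ := kap) (Ψ := Ψ η) f0
    have f4 := fc_le (w := lA μ s N Q A η) (J := J4) (q := pJ 0) (p := p) (κ := kap) (Ψ := Ψ η) f0
    refine h2.trans (mul_le_mul_of_nonneg_left ?_ τ0)
    linarith
  · rw [int_smul', int_add' j1 j2, int_smul', int_add' (i1.add (i2.smul 3)) (i2'.smul 2), int_add' i1 (i2.smul 3), int_smul',
      int_smul', int_smul', int_add' ((i3.add i4).add (i5.smul 3)) (i6.smul 2), int_add' (i3.add i4) (i5.smul 3), int_add' i3 i4,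
      int_smul', int_smul']
    unfold iG iT iN
    ring

end Three

section FarMac

variable [IsProbabilityMeasure μ] (hQ : Full N Q) (hA : WF al be D' A) (hG : WF al be τ G) (hΨ : Obs Ψ D0)
  (hab : al ≤ be) (hae : be ≤ e) (hee : e ≤ e3) (he3 : e3 ≤ N) (hJ : ∀ r ∈ J, 1 ≤ r ∧ r ≤ al)
  (hj3 : ∀ r ∈ J3, e < r ∧ r ≤ e3) (hj4 : ∀ r ∈ J4, e3 < r ∧ r ≤ N) (z0 : ∀ β p, 0 ≤ χ β p) (u0 : ∀ β p, χ β p ≤ 1) {Im : Finset ℕ}
  (Tm : TL65 N Im χm om Rm) (hI3 : J3 ⊆ Im) (hI4 : J4 ⊆ Im)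

omit [SwQ Q] [Nonempty (Px Q)] in
include hA hG hab hae hJ z0 u0 in
theorem wf_nG (β : T) : WF 0 e (τ + τ) (nf G J (cL μ s A G e J ke χ β)) :=
  wf_nf (hG.mono (Nat.zero_le _) hae le_rfl) (rf_cL hA hG z0 u0 hab hae (fun r hr => (hJ r hr).2) β)
    (card_mul_le J ((abs_nonneg _).trans (hG.bd (fun _ => 0) fun _ => 0)))

omit [SwQ Q] [Nonempty (Px Q)] in
include hQ hA hG hab hae hee he3 hJ hj3 z0 u0 Tm hI3 in
theorem abs_F3G (β : T) (η : Env) (S : Px Q) :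
    |F3 μ s N Q A G J (cL μ s A G e J ke χ) J3 χm β η S| ≤ (τ + τ) * om β S := by
  have τ0 : 0 ≤ τ := (abs_nonneg _).trans (hG.bd (fun _ => 0) fun _ => 0)
  exact abs_farF59 hQ (fun r hr => ⟨by have := (hj3 r hr).1; omega, (hj3 r hr).2.trans he3⟩)
    (fun p hp η => (rf_mac (μ := μ) (s := s) hA (wf_nG hA hG hab hae hJ z0 u0 β) hae hj3).bdS hp η) (Tm.z β) (Tm.u β) (Tm.o0 β S) S
    (add_nonneg τ0 τ0) (fun ⟨i, hi, h⟩ => Tm.far β S ⟨i, hI3 hi, h⟩) η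

omit [SwQ Q] [Nonempty (Px Q)] in
include hQ hA hG hab hae hee hJ hj3 hj4 z0 u0 Tm hI4 in
theorem abs_F4G (β : T) (η : Env) (S : Px Q) :
    |F4 μ s N Q A G J (cL μ s A G e J ke χ) J3 J4 χm β η S| ≤ τ * ((τ + τ) + (τ + τ)) * om β S := by
  have τ0 : 0 ≤ τ := (abs_nonneg _).trans (hG.bd (fun _ => 0) fun _ => 0)
  have gh : WF 0 e3 (τ * ((τ + τ) + (τ + τ))) (hh μ s A G J (cL μ s A G e J ke χ) J3 β) :=
    ((hG.mono (Nat.zero_le _) hae le_rfl).mono le_rfl hee le_rfl).mul (wf_hf hA (wf_nG hA hG hab hae hJ z0 u0 β) hae hj3 hee)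
  exact abs_farF59 hQ (fun r hr => ⟨by have := (hj4 r hr).1; omega, (hj4 r hr).2⟩)
    (fun p hp η => (rf_mac (μ := μ) (s := s) (e' := N) hA gh (hae.trans hee) hj4).bdS hp η) (Tm.z β) (Tm.u β) (Tm.o0 β S) S
    (mul_nonneg τ0 (add_nonneg (add_nonneg τ0 τ0) (add_nonneg τ0 τ0))) (fun ⟨i, hi, h⟩ => Tm.far β S ⟨i, hI4 hi, h⟩) η

include hA hΨ in
theorem mb_oM (a : ℝ) :
    MB fun η => FK (lA μ s N Q A η) p kap om (Ψ η) a :=
  mb_FK (mb_lA hA) (mb_Psi hΨ) p a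

include hQ hA hG hΨ hab hae hee he3 hJ hj3 z0 u0 Tm hI3

theorem l_f1 : ∑ β, ∫ η, |(P3 p).ks.dbl.toEv.ev (lA μ s N Q A η) ((P3 p).ks.dr.ins
      (F3 μ s N Q A G J (cL μ s A G e J ke χ) J3 χm β η)
      (lcK kap β (Ψ η)))| ∂(law μ) ≤
    2 * τ * iK μ s N Q A p kap om Ψ 1 := by
  refine (sum_int_le ((mb_oM hA hΨ 1).smul (2 * τ)).int fun η => ?_).trans (le_of_eq (int_smul' _ _))
  refine (sum_far_one (p := p) (w := lA μ s N Q A η) (κ := kap) (Ψ := Ψ η)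
    (fun β => F3 μ s N Q A G J (cL μ s A G e J ke χ) J3 χm β η)).trans
    (FK_mono zero_le_one fun β y => ?_)
  have h := abs_F3G (μ := μ) (s := s) (ke := ke) (χ := χ) hQ hA hG hab hae hee he3 hJ hj3 z0 u0 Tm hI3 β η y
  linarith

theorem l_f2 : ∑ β, ∫ η, |(P3 p).ks.dbl.dbl.toEv.ev (lA μ s N Q A η) ((P3 p).ks.dbl.dr.ins
      (F3 μ s N Q A G J (cL μ s A G e J ke χ) J3 χm β η)
      ((P3 p).ks.dr.ins (at2 G η) (lcK kap β (Ψ η))))| ∂(law μ) ≤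
    12 * τ ^ 2 * iK μ s N Q A p kap om Ψ 3 := by
  have τ0 : 0 ≤ τ := (abs_nonneg _).trans (hG.bd (fun _ => 0) fun _ => 0)
  refine (sum_int_le ((mb_oM hA hΨ 3).smul (12 * τ ^ 2)).int fun η => ?_).trans (le_of_eq (int_smul' _ _))
  refine (sum_far_two (p := p) (w := lA μ s N Q A η) (κ := kap) (Ψ := Ψ η)
    (fun β => F3 μ s N Q A G J (cL μ s A G e J ke χ) J3 χm β η)
    (fun S => hG.bd η _)).trans ?_
  have h5 := FK_mono (p := p) (w := lA μ s N Q A η) (κ := kap) (Ψ := Ψ η) (a := 3) (M := 2 * τ)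
    (o := fun β y => |F3 μ s N Q A G J (cL μ s A G e J ke χ) J3 χm β η y|)
    (o' := om) (by norm_num) fun β y => by
      have h := abs_F3G (μ := μ) (s := s) (ke := ke) (χ := χ) hQ hA hG hab hae hee he3 hJ hj3 z0 u0 Tm hI3 β η y
      linarith
  refine (mul_le_mul_of_nonneg_left h5 (by positivity)).trans (le_of_eq ?_)
  ring

theorem l_f3 : ∑ β, ∫ η, |(P3 p).ks.dbl.toEv.ev (lA μ s N Q A η) ((P3 p).ks.dr.ins
      (at2 G η * F3 μ s N Q A G J (cL μ s A G e J ke χ) J3 χm β η)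
      (lcK kap β (Ψ η)))| ∂(law μ) ≤
    2 * τ ^ 2 * iK μ s N Q A p kap om Ψ 1 := by
  have τ0 : 0 ≤ τ := (abs_nonneg _).trans (hG.bd (fun _ => 0) fun _ => 0)
  refine (sum_int_le ((mb_oM hA hΨ 1).smul (2 * τ ^ 2)).int fun η => ?_).trans (le_of_eq (int_smul' _ _))
  refine (sum_far_one (p := p) (w := lA μ s N Q A η) (κ := kap) (Ψ := Ψ η)
    (fun β => at2 G η * F3 μ s N Q A G J (cL μ s A G e J ke χ) J3 χm β η)).trans
    (FK_mono zero_le_one fun β y => ?_)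
  have h := abs_F3G (μ := μ) (s := s) (ke := ke) (χ := χ) hQ hA hG hab hae hee he3 hJ hj3 z0 u0 Tm hI3 β η y
  rw [Pi.mul_apply, abs_mul]
  refine (mul_le_mul (hG.bd η _) h (abs_nonneg _) τ0).trans (le_of_eq ?_)
  ring

include hj4 hI4

theorem l_f4 : ∑ β, ∫ η, |(P3 p).ks.dbl.toEv.ev (lA μ s N Q A η) ((P3 p).ks.dr.ins
      (F4 μ s N Q A G J (cL μ s A G e J ke χ) J3 J4 χm β η)
      (lcK kap β (Ψ η)))| ∂(law μ) ≤
    4 * τ ^ 2 * iK μ s N Q A p kap om Ψ 1 := by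
  refine (sum_int_le ((mb_oM hA hΨ 1).smul (4 * τ ^ 2)).int fun η => ?_).trans (le_of_eq (int_smul' _ _))
  refine (sum_far_one (p := p) (w := lA μ s N Q A η) (κ := kap) (Ψ := Ψ η)
    (fun β => F4 μ s N Q A G J (cL μ s A G e J ke χ) J3 J4 χm β η)).trans
    (FK_mono zero_le_one fun β y => ?_)
  have h := abs_F4G (μ := μ) (s := s) (ke := ke) (χ := χ) hQ hA hG hab hae hee hJ hj3 hj4 z0 u0 Tm hI4 β η y
  refine h.trans (le_of_eq ?_)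
  ring

end FarMac

/-! ### The list -/

variable [IsProbabilityMeasure μ] {f f' : ℝ → ℝ}

/-- **PART L, THE LIST, GENERAL KEY.** -/
theorem e2_LG (H : DL μ s N Q A p z' e I ρ K0 J3 J4 Ψ) (hk : Key65 e J3 J4 kap ke) (Tn : TL65 N (J1 ∪ J2) χ o R)
    (Tm : TL65 N (J3 ∪ J4) χm om Rm) (h : DenLaw μ f f') {K θ0 : ℝ} (hs : SG μ (sc f f') K θ0) (hQ : Full N Q)
    (hA : WF al be D' A) (hG : WF al be τ G) (hab : al ≤ be) (hae : be ≤ e) (hz : be ≤ z')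
    -- the slabs
    (hj1 : ∀ r ∈ J1, 1 ≤ r ∧ r ≤ al) (hj2 : ∀ r ∈ J2, 1 ≤ r ∧ r ≤ al) (h21 : ∀ r ∈ J1, ∀ r' ∈ J2, r' < r) (hJ1 : J1.Nonempty)
    (hJ2 : J2.Nonempty) (hj3 : ∀ r ∈ J3, e < r ∧ r ≤ e3) (hj4 : ∀ r ∈ J4, e3 < r ∧ r ≤ N) (hee : e ≤ e3) (he3 : e3 ≤ N)
    -- the observable
    (hΨ : Obs Ψ D0) (hΨ1 : ∀ p ∈ sS J1 N, Obs (Ψ1 p) D1) (hΨ2 : ∀ p ∈ sS J2 N, Obs (Ψ2 p) D2) (hd1 : Sd (sS J1 N) Ψ Ψ1)
    (hd2 : Sd (sS J2 N) Ψ Ψ2) (hb3 : ∀ q ∈ sS J3 N, ∀ (η : Env) (x : ℝ), Ψ (Function.update η q x) = Ψ η)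
    (hb4 : ∀ q ∈ sS J4 N, ∀ (η : Env) (x : ℝ), Ψ (Function.update η q x) = Ψ η)
    -- the numbers
    {t1 t2 t3 t4 a1 a2 a3 a3' a4 Q1 Q2 Q3 Q4 : ℝ} (q1 : 0 < t1) (q2 : 0 < t2) (q3 : 0 < t3) (q4 : 0 < t4)
    (c1 : 2 * t1 * (τ / J1.card) ≤ θ0) (c2 : 2 * t2 * (τ / J2.card) ≤ θ0) (c3 : 2 * t3 * ((τ + τ) / J3.card) ≤ θ0)
    (c4 : t4 * (τ * ((τ + τ) + (τ + τ)) / J4.card) ≤ θ0)
    (k1 : J1.card * (R * (τ / J1.card) ^ 2) ≤ Q1) (k2 : J2.card * (R * (τ / J2.card) ^ 2) ≤ Q2)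
    (k3 : J3.card * (Rm * ((τ + τ) / J3.card) ^ 2) ≤ Q3) (k4 : J4.card * (Rm * (τ * ((τ + τ) + (τ + τ)) / J4.card) ^ 2) ≤ Q4)
    (ha1 : 0 ≤ a1) (ha2 : 0 ≤ a2) (ha3 : 0 ≤ a3) (ha3' : 0 ≤ a3') (ha4 : 0 ≤ a4) :
    |∫ η, (P3 p).ks.dbl.dbl.toEv.ev (lA μ s N Q A η) ((P3 p).ks.dbl.dr.ins (at2 G η) ((P3 p).ks.dr.ins (at2 G η) (Ψ η))) ∂(law μ)| ≤
      -- gains times own
      ((a1 * a2 + a1 * a3 + a4) + 6 * τ * a3') * iP μ s N Q A p Ψ +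
      -- the derivatives of the observable
      (a1 * iP μ s N Q A p (DgK kap (sS J2 N) (cL μ s A G e J2 ke χ) Ψ2) +
        6 * τ * iP μ s N Q A p (DgK kap (sS J1 N) (cL μ s A G e J1 ke χ) Ψ1)) +
      -- the remainders of the left near slab
      a1 * (K0 * (iG μ s N Q A p I ρ (nL μ s N Q A G e J2) 2 1 +
          3 * iT μ s N Q A p J3 z' e I ρ (nL μ s N Q A G e J2) (2 * τ)) +
        τ * iN μ s N Q A p J3 J4 kap o Ψ 1 1 3 0) +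
      -- the remainders of the right near slab
      τ * (K0 * (iG μ s N Q A p I ρ (nL μ s N Q A G e J1) 14 19 +
          33 * iT μ s N Q A p J3 z' e I ρ (nL μ s N Q A G e J1) (2 * τ)) +
        τ * iN μ s N Q A p J3 J4 kap o Ψ 7 19 33 0) +
      τ * (K0 * (iG μ s N Q A p I ρ (nL μ s N Q A G e J1) 2 1 +
          3 * iT μ s N Q A p J3 z' e I ρ (nL μ s N Q A G e J1) (2 * τ) +
          2 * iT μ s N Q A p J4 z' e I ρ (nL μ s N Q A G e J1) (2 * τ)) +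
        τ * iN μ s N Q A p J3 J4 kap o Ψ 1 1 3 2) +
      -- the macro far part
      (a1 * (2 * τ * iK μ s N Q A p kap om Ψ 1) + 12 * τ ^ 2 * iK μ s N Q A p kap om Ψ 3 +
        4 * τ ^ 2 * iK μ s N Q A p kap om Ψ 1 + 4 * τ ^ 2 * iK μ s N Q A p kap om Ψ 1) +
      -- the tails
      (Fintype.card T : ℝ) * tlL K τ D0 D2 t1 t2 t3 t4 a1 a2 a3 a3' a4 Q1 Q2 Q3 Q4 (P3 p).ks.dr.sz (sS J2 N).card
        (sS J3 N).card J2.card J3.card := by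
  have τ0 : 0 ≤ τ := (abs_nonneg _).trans (hG.bd (fun _ => 0) fun _ => 0)
  have s1 : J1 ⊆ J1 ∪ J2 := subset_union_left
  have s2 : J2 ⊆ J1 ∪ J2 := subset_union_right
  have s3 : J3 ⊆ J3 ∪ J4 := subset_union_left
  have s4 : J4 ⊆ J3 ∪ J4 := subset_union_right
  have hqv : ∀ {M R' : ℝ} {J' I' : Finset ℕ} {χ' : T → Pt → ℝ} {o' : T → Px Q → ℝ} (T' : TL65 N I' χ' o' R') (hI : J' ⊆ I')
      (η : Env) (cc : Pt → Env → ℝ) (hc : ∀ p ∈ sS J' N, |cc p η| ≤ M / J'.card) (β : T),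
      QV (sS J' N) (cut (χ' β) cc) η ≤ J'.card * (R' * (M / J'.card) ^ 2) := fun {M R' J' I' χ' o'} T' hI η cc hc β => by
    have h5 := QV_cut59 (N := N) (J := J') (cc := fun p _ => cc p η) (M := M) (χ := χ' β) (R := R') (fun p hp _ => hc p hp)
      (T'.z β) (T'.u β) (fun i hi => T'.n β i (hI hi)) η
    exact h5
  have key := e2_mac (μ := μ) (s := s) (κ := kap) (c1 := cL μ s A G e J1 ke χ) (c2 := cL μ s A G e J2 ke χ)
    (Ψ := Ψ) (Ψ1 := Ψ1) (Ψ2 := Ψ2) (P3 p).ks.dr (P3 p).ks.dbl.dr h hs hQ hA hG hae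
    (disjoint_left.2 fun r h1 h2 => lt_irrefl r (h21 r h1 r h2))
    (fun r hr => ⟨⟨(hj1 r hr).1, (hj1 r hr).2.trans (hab.trans hae)⟩, Or.inl (hj1 r hr).2⟩)
    (fun r hr => ⟨⟨(hj2 r hr).1, (hj2 r hr).2.trans (hab.trans hae)⟩, Or.inl (hj2 r hr).2⟩)
    hj3 hj4 hee he3 (fun β => df_cL hA hG Tn.z Tn.u (fun r hr => (hj1 r hr).2) N β)
    (fun β => df_cL hA hG Tn.z Tn.u (fun r hr => (hj2 r hr).2) N β)
    (fun β => rf_cL hA hG Tn.z Tn.u hab hae (fun r hr => (hj1 r hr).2) β)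
    (fun β => rf_cL hA hG Tn.z Tn.u hab hae (fun r hr => (hj2 r hr).2) β)
    (card_mul_le J1 τ0) (card_mul_le J2 τ0) (div_nonneg τ0 (Nat.cast_nonneg _)) (div_nonneg τ0 (Nat.cast_nonneg _))
    (fun β => cL_blind hA hG (fun r hr => (hj1 r hr).2) (fun r hr r' hr' => (h21 r hr r' hr').le) β)
    (χ := χm) Tm.z Tm.u hΨ hΨ1 hΨ2 hd1 hd2 hb3 hb4 q1 q2 q3 q4 c1 c2 c3 c4
    (fun β η => (hqv Tn s1 η _ (fun p _ => abs_cb_le hG (ke β) η p) β).trans k1)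
    (fun β η => (hqv Tn s2 η _ (fun p _ => abs_cb_le hG (ke β) η p) β).trans k2)
    (fun β η cc hc => (hqv Tm s3 η cc hc β).trans k3) (fun β η cc hc => (hqv Tm s4 η cc hc β).trans k4)
    ha1 ha2 ha3 ha3' ha4
  simp only [ks_ev] at key
  have B0 := mul_le_mul_of_nonneg_left (ins_int (μ := μ) (s := s) (N := N) (p := p) hA hG hΨ) ha3'
  have B1 := ins_int (μ := μ) (s := s) (N := N) (p := p) hA hG (obs_dgK (κ := kap)
    (fun β => df_cL (μ := μ) (s := s) (e := e) (ke := ke) hA hG Tn.z Tn.u (fun r hr => (hj1 r hr).2) N β) hΨ1)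
  have L1 := mul_le_mul_of_nonneg_left (l_one (J4 := J4) H hQ hA hG hΨ hab hae hz hee he3 hj2 hJ2 hj3 hk Tn s2) ha1
  have L2 := l_two (J4 := J4) H hQ hA hG hΨ hab hae hz hee he3 hj1 hJ1 hj3 hk Tn s1
  have L3 := l_mac H hQ hA hG hΨ hab hae hz hee he3 hj1 hJ1 hj3 hj4 hk Tn s1
  have F1 := mul_le_mul_of_nonneg_left (l_f1 (μ := μ) (s := s) (p := p) (kap := kap) (ke := ke) hQ hA hG hΨ hab hae hee he3 hj2 hj3
    Tn.z Tn.u Tm s3) ha1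
  have F2 := l_f2 (μ := μ) (s := s) (p := p) (kap := kap) (ke := ke) hQ hA hG hΨ hab hae hee he3 hj1 hj3 Tn.z Tn.u Tm s3
  have F3 := l_f3 (μ := μ) (s := s) (p := p) (kap := kap) (ke := ke) hQ hA hG hΨ hab hae hee he3 hj1 hj3 Tn.z Tn.u Tm s3
  have F4 := l_f4 (μ := μ) (s := s) (p := p) (kap := kap) (ke := ke) hQ hA hG hΨ hab hae hee he3 hj1 hj3 hj4 Tn.z Tn.u Tm s3 s4
  refine key.trans (le_of_le_of_eq (add_le_add (add_le_add (add_le_add (add_le_add (add_le_add le_rfl B0) (add_le_add le_rfl B1))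
    (add_le_add (add_le_add L1 L2) L3)) (add_le_add (add_le_add (add_le_add F1 F2) (mul_le_mul_of_nonneg_left F3 zero_le_two)) F4))
    le_rfl) ?_)
  unfold tlL iP
  ring

end

end Pool.Agent.W_7d29a1_C0.EG63
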