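import Pool.Agent.W_7d29a1_C0.E2LC65
import Pool.Agent.W_7d29a1_C0.E2LG63

/-!
CURV0 (MP_7d29a1_pr), section E2, PART L, THE ROW: `dl65` = the data of helper63's list at the model; `e2L_A65` = the double insertion of
part L at fixed signs (helper63's `e2_LG`); `e2L_P65` = in the mean over the environment and the signs. (helper65)
-/

set_option autoImplicit false
set_option linter.unusedSectionVars false
set_option linter.unusedVariables false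

namespace Pool.Agent.W_7d29a1_C0.EL65

open Finset MeasureTheory Pool.Agent.W_7d29a1_F Pool.Agent.W_7d29a1_X Pool.Agent.W_7d29a1_H Pool.Agent.W_7d29a1_C0
open Pool.Agent.W_7d29a1_C0.H32
open Pool.Agent.W_7d29a1_C0.Mod92 Pool.Agent.W_7d29a1_C0.Blk18 Pool.Agent.W_7d29a1_C0.FP63 Pool.Agent.W_7d29a1_C0.Swap57
open Pool.Agent.W_7d29a1_C0.NM82 Pool.Agent.W_7d29a1_C0.CutF59 Pool.Agent.W_7d29a1_C0.CutG59 Pool.Agent.W_7d29a1_C0.E2Q59
open Pool.Agent.W_7d29a1_C0.E2F59 Pool.Agent.W_7d29a1_C0.E2M59 Pool.Agent.W_7d29a1_C0.E2R59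
open Pool.Agent.W_7d29a1_C0.FM63 Pool.Agent.W_7d29a1_C0.EM63 Pool.Agent.W_7d29a1_C0.FL65 Pool.Agent.W_7d29a1_C0.KL65
open Pool.Agent.W_7d29a1_C0.CrA44 (ge)
open Pool.Agent.W_7d29a1_C0.Base5
open Pool.Agent.W_7d29a1_C0.CutE14 (P3)
open Pool.Agent.W_7d29a1_C0.MicE14 (Cq nn mi rh ob rh_nonneg)
open Pool.Agent.W_7d29a1_C0.MicH14 (G1 T0Q Ox ox_ob mp_rh')
open Pool.Agent.W_7d29a1_C0.MicI14 (Kx lk14)
open Pool.Agent.W_7d29a1_C0.MicL14
open Pool.Agent.W_7d29a1_C0.E1M82 (Gd AvA AvA_add AvA_mul AvA_const abs_AvA_le rk_cls)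
open Pool.Agent.W_7d29a1_C0.EL63 (DL iG iT iN iK iP tlL)
open Pool.W7d29a1.C0
open Pool.W7d29a1.C0.VT31
open Pool.W7d29a1.C0.I52 (KS av ev ks_ev Plan)
open Pool.W7d29a1.C0.H19 (Cf)
open Pool.W7d29a1.C0.H41 (Obs Ev cut cut' QV tail1 tail2)
open Pool.W7d29a1.C0.R63 (Bl Sd lcK DgK)

noncomputable section

variable {μ : Measure ℝ} {s : ℝ} {N : ℕ} {δ B : ℝ} {b0 h b σ j e d m0 ep e3 : ℕ} {J1 J2 J3 J4 : Finset ℕ} {c : ℕ} {D : ℝ} {f : Fam N}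
  {t : ℝ} {y : ℕ} [Nonempty (Px (Pn N y))]

/-! ### The data of the list -/

/-- **The data of the list of part L.** -/
theorem dl65 (hB : 0 ≤ B) (hf : Cls59 N c d D f) (X : LS65 N b0 h b σ j e d m0 ep e3 J1 J2 J3 J4) (A : Finset ℕ) :
    DL μ s N (Pn N y) (tf μ s δ B b0 j (sg A j) t) (pS σ j) ((j / σ + 1) * σ) ep (NI (j - b) (j - h))
      (fun η => rh e d (f y (η, A))) (2 * (B / 2) * (B / 2)) J3 J4 (fun η => pL μ s N δ B b0 h b j e d f y (η, A)) := by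
  obtain ⟨g1, g2, g3, g4, g5, g6, g7⟩ := X.geo
  have hm := X.hm
  have hbj := X.hb
  have hzp := X.zp
  have hpe := X.pe
  have hee := X.ee
  exact
    { hd := fun η => hd_wj59 δ B (η, A) t (by omega) hzp
      bd := fun η => bdp_L65 hB (η, A)
      K00 := by positivity
      Is := fun x y => MicE14.NI_symm _ _ x y
      I0 := fun x y => NI_nonneg _ _ _ _
      mpr := fun η z => mp_rh' g5 g6 (rk_cls hf le_rfl y (η, A)) z
      r0 := fun η x y => rh_nonneg _ _ _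
      mb := fun x x' => by
        have h1 := g2_rh59 (y := y) hf e d
        obtain ⟨K, hK⟩ := h1.bd
        exact ⟨h1.ms A x x', K, fun η => hK (η, A) x x'⟩
      lmi := fun η => lk_cE59 (z := (j / σ + 1) * σ) (c0 := j / σ * σ) (by omega) (hd_wj59 δ B (η, A) t (by omega) le_rfl)
        fun S S' U U' h1 h2 => CutT57.NI_congr (fun i _ hi => h1 i (by omega)) fun i _ hi => h2 i (by omega)
      kp := fun S S' hS => ps_of_ge hS hzp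
      ne3 := X.n3
      ne4 := X.n4
      crs := fun m hm => crs_pJ (Nat.zero_le _) (hzp.trans hm.le)
      mprJ := fun m hm η z => mp_rh' (by
        rcases mem_union.1 hm with hm | hm
        · have := X.j3 m hm; omega
        · have := X.j4 m hm; omega) g6 (rk_cls hf le_rfl y (η, A)) z
      o3 := fun η => ox65 hf X (fun m hm => by have := X.j3 m hm; omega) (η, A)
      o4 := fun η => ox65 hf X (fun m hm => by have := X.j4 m hm; omega) (η, A) }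

/-! ### The row -/

section Row

variable {T : Type*} [Fintype T] [DecidableEq T] {kap : (Fin 3 → Px (Pn N y)) → T} {ke : T → ℤ} {χ χm : T → Pt → ℝ}
  {o om : T → Px (Pn N y) → ℝ} {R Rm : ℝ}

/-- The observable is at most `2 M M` times own. -/
theorem iP_LO65 [IsProbabilityMeasure μ] (hB : 0 ≤ B) (hf : Cls59 N c d D f) (b0 h b σ j e : ℕ) (t : ℝ) (A : Finset ℕ) :
    iP μ s N (Pn N y) (tf μ s δ B b0 j (sg A j) t) (pS σ j) (fun η => pL μ s N δ B b0 h b j e d f y (η, A)) ≤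
      2 * (B / 2) * (B / 2) * ∫ η, LO μ s N δ B b0 h b σ j e d f t y (η, A) ∂(law μ) := by
  refine mono59c ((gd_LO65 (μ := μ) (s := s) (δ := δ) (y := y) hB hf b0 h b σ j e t).int A)
    (fun η => I52.ev_nonneg _ _ fun x => abs_nonneg _) fun η => ?_
  have h1 := MicE14.own (p := pS σ j) (w := wj μ s N (Pn N y) δ B b0 j (η, A) t) (bdp_L65 (μ := μ) (s := s) (δ := δ) (b0 := b0) (h := h)
    (b := b) (j := j) (e := e) (d := d) (f := f) (y := y) hB (η, A)) (fun _ _ => 1) fun _ _ => zero_le_one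
  simp only [mul_one, one_mul] at h1
  exact h1

/-- The derivative of the observable. -/
theorem iP_DG65 [IsProbabilityMeasure μ] (hB : 0 ≤ B) (hf : Cls59 N c d D f) (X : LS65 N b0 h b σ j e d m0 ep e3 J1 J2 J3 J4)
    {J : Finset ℕ} (hJ : ∀ r ∈ J, j - h < r ∧ r ≤ m0) (hJ0 : J.Nonempty) (z : ∀ β p, 0 ≤ χ β p) (u : ∀ β p, χ β p ≤ 1) (t : ℝ)
    (A : Finset ℕ) :
    iP μ s N (Pn N y) (tf μ s δ B b0 j (sg A j) t) (pS σ j) (DgK kap (sS J N)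
      (cL μ s (tf μ s δ B b0 j (sg A j) t) (gf μ s δ B b0 j (sg A j)) ep J ke χ) (pL' μ s N δ B b0 h b j e d f y A)) ≤
      2 * (B / 2) * ∫ η, LG μ s N δ B b0 h b σ j e d f t y m0 (η, A) ∂(law μ) :=
  mono59c ((gd_LG65 (μ := μ) (s := s) (δ := δ) (y := y) hB hf b0 h b σ j e t m0).int A)
    (fun η => I52.ev_nonneg _ _ fun x => abs_nonneg _) fun η => dg_L65 hB hf X A hJ hJ0 z u η

/-- **PART L OF ONE ROW AT FIXED SIGNS.** -/
theorem e2L_A65 [IsProbabilityMeasure μ] {ff ff' : ℝ → ℝ} (hd : DenLaw μ ff ff') {K θ0 : ℝ} (hs : SG μ (sc ff ff') K θ0)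
    (hB : 0 ≤ B) (hf : Cls59 N c d D f) (X : LS65 N b0 h b σ j e d m0 ep e3 J1 J2 J3 J4) (Kk : Key65 ep J3 J4 kap ke)
    (Tn : TL65 N (J1 ∪ J2) χ o R) (Tm : TL65 N (J3 ∪ J4) χm om Rm) {t1 t2 t3 t4 a1 a2 a3 a3' a4 Q1 Q2 Q3 Q4 : ℝ} (q1 : 0 < t1)
    (q2 : 0 < t2) (q3 : 0 < t3) (q4 : 0 < t4) (c1 : 2 * t1 * (B / 2 / J1.card) ≤ θ0) (c2 : 2 * t2 * (B / 2 / J2.card) ≤ θ0)
    (c3 : 2 * t3 * ((B / 2 + B / 2) / J3.card) ≤ θ0)
    (c4 : t4 * (B / 2 * ((B / 2 + B / 2) + (B / 2 + B / 2)) / J4.card) ≤ θ0)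
    (k1 : J1.card * (R * (B / 2 / J1.card) ^ 2) ≤ Q1) (k2 : J2.card * (R * (B / 2 / J2.card) ^ 2) ≤ Q2)
    (k3 : J3.card * (Rm * ((B / 2 + B / 2) / J3.card) ^ 2) ≤ Q3)
    (k4 : J4.card * (Rm * (B / 2 * ((B / 2 + B / 2) + (B / 2 + B / 2)) / J4.card) ^ 2) ≤ Q4)
    (ha1 : 0 ≤ a1) (ha2 : 0 ≤ a2) (ha3 : 0 ≤ a3) (ha3' : 0 ≤ a3') (ha4 : 0 ≤ a4) (t : ℝ) (A : Finset ℕ) :
    |∫ η, vL μ s N δ B b0 h b σ j e d f t y (η, A) ∂(law μ)| ≤
      (a1 * a2 + a1 * a3 + a4 + 6 * (B / 2) * a3') * (2 * (B / 2) * (B / 2)) *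
        ∫ η, LO μ s N δ B b0 h b σ j e d f t y (η, A) ∂(law μ) +
      (2 * (B / 2) * a1 + 12 * (B / 2) ^ 2) * ∫ η, LG μ s N δ B b0 h b σ j e d f t y m0 (η, A) ∂(law μ) +
      a1 * (2 * (B / 2) * (B / 2)) * (∫ η, LM μ s N δ B b0 h b σ j e d f t y ep J2 2 1 (η, A) ∂(law μ) +
        3 * (∫ η, LQ μ s N δ B b0 h b σ j e d f t y ep J2 J3 (η, A) ∂(law μ) +
          2 * (B / 2) * ∫ η, LLg μ s N δ B b0 h b σ j e d f t y ep J3 (η, A) ∂(law μ))) +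
      B / 2 * (2 * (B / 2) * (B / 2)) * (∫ η, LM μ s N δ B b0 h b σ j e d f t y ep J1 16 20 (η, A) ∂(law μ) +
        36 * (∫ η, LQ μ s N δ B b0 h b σ j e d f t y ep J1 J3 (η, A) ∂(law μ) +
          2 * (B / 2) * ∫ η, LLg μ s N δ B b0 h b σ j e d f t y ep J3 (η, A) ∂(law μ)) +
        2 * (∫ η, LQ μ s N δ B b0 h b σ j e d f t y ep J1 J4 (η, A) ∂(law μ) +
          2 * (B / 2) * ∫ η, LLg μ s N δ B b0 h b σ j e d f t y ep J4 (η, A) ∂(law μ))) +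
      (a1 * (B / 2) * (∫ η, Lfa μ s N δ B b0 h b σ j e d f t y kap o (η, A) ∂(law μ) +
          ∫ η, Lfb μ s N δ B b0 h b σ j e d f t y kap o (η, A) ∂(law μ) +
          3 * ∫ η, Lfc μ s N δ B b0 h b σ j e d f t y kap o J3 (η, A) ∂(law μ)) +
        (B / 2) ^ 2 * (8 * ∫ η, Lfa μ s N δ B b0 h b σ j e d f t y kap o (η, A) ∂(law μ) +
          20 * ∫ η, Lfb μ s N δ B b0 h b σ j e d f t y kap o (η, A) ∂(law μ) +
          36 * ∫ η, Lfc μ s N δ B b0 h b σ j e d f t y kap o J3 (η, A) ∂(law μ) +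
          2 * ∫ η, Lfc μ s N δ B b0 h b σ j e d f t y kap o J4 (η, A) ∂(law μ))) +
      ((2 * (B / 2) * a1 + 8 * (B / 2) ^ 2) * ∫ η, LFO μ s N δ B b0 h b σ j e d f t y kap om 1 (η, A) ∂(law μ) +
        12 * (B / 2) ^ 2 * ∫ η, LFO μ s N δ B b0 h b σ j e d f t y kap om 3 (η, A) ∂(law μ)) +
      (Fintype.card T : ℝ) * (tail2 K (2 * (B / 2) * (B / 2) * (2 * D)) t1 t2 a1 a2 Q1 Q2 +
        tail2 K (2 * (B / 2) * (B / 2) * (2 * D)) t1 t3 a1 a3 Q1 Q3 +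
        tail1 K (2 * (B / 2) * (B / 2) * (2 * D) * (6 * (B / 2))) t3 a3' Q3 +
        tail1 K (2 * (B / 2) * (B / 2) * (2 * D)) t4 a4 Q4 +
        tail1 K (2 * (B / 2) * (B / 2) * (2 * D) * (6 * (B / 2 + (sS J2 N).card * (B / 2 / J2.card * 1) +
          (sS J3 N).card * ((B / 2 + B / 2) / J3.card * 1)))) t1 a1 Q1 +
        tail1 K ((sS J2 N).card * (B / 2 / J2.card * (2 * (2 * (1 * (B / 2))) * (B / 2) * (2 * D)))) t1 a1 Q1) := by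
  obtain ⟨g1, g2, g3, g4, g5, g6, g7⟩ := X.geo
  have hm := X.hm
  have hbj := X.hb
  have hzp := X.zp
  have hpe := X.pe
  have hee := X.ee
  have hM : 0 ≤ B / 2 := by positivity
  have wA := wf_tf (μ := μ) (s := s) hB δ b0 j (abs_sg A j).le t
  have wG := wf_gf (μ := μ) (s := s) hB δ b0 j (abs_sg A j).le
  have hg : ∀ r, r ≤ m0 → r ≤ j - b0 := fun r hr => hr.trans hm
  have key := EG63.e2_LG (μ := μ) (s := s) (f := ff) (f' := ff') (dl65 (μ := μ) (s := s) (δ := δ) (t := t) (y := y) hB hf X A) Kk Tn Tm hd hs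
    (full_Pn N y) wA wG
    (by omega) (by omega) (by omega) (fun r hr => by have := X.j1 r hr; omega) (fun r hr => by have := X.j2 r hr; omega)
    X.j21 X.n1 X.n2 X.j3 (fun r hr => by have := X.j4 r hr; omega) hpe (by omega)
    (obs_pL59 (μ := μ) (s := s) (δ := δ) (y := y) hB hf b0 h b j e A)
    (fun p _ => obs_pL59' (μ := μ) (s := s) (δ := δ) (y := y) hB hf b0 h b j e A p)
    (fun p _ => obs_pL59' (μ := μ) (s := s) (δ := δ) (y := y) hB hf b0 h b j e A p)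
    (sd_pL59 (μ := μ) (s := s) (δ := δ) (y := y) hB hf b0 h b j e A (fun r hr => Or.inl (by have := X.j1 r hr; omega))
      fun r hr => by have := X.j1 r hr; omega)
    (sd_pL59 (μ := μ) (s := s) (δ := δ) (y := y) hB hf b0 h b j e A (fun r hr => Or.inl (by have := X.j2 r hr; omega))
      fun r hr => by have := X.j2 r hr; omega)
    (bl_pL65 (μ := μ) (s := s) (δ := δ) (y := y) hB hf X A fun r hr => by have := X.j3 r hr; omega)
    (bl_pL65 (μ := μ) (s := s) (δ := δ) (y := y) hB hf X A fun r hr => by have := X.j4 r hr; omega)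
    q1 q2 q3 q4 c1 c2 c3 c4 k1 k2 k3 k4 ha1 ha2 ha3 ha3' ha4
  have e0 := iP_LO65 (μ := μ) (s := s) (δ := δ) (y := y) hB hf b0 h b σ j e t A
  have e1 := iP_DG65 (μ := μ) (s := s) (δ := δ) (y := y) (kap := kap) (ke := ke) hB hf X X.j1 X.n1 Tn.z Tn.u t A
  have e2 := iP_DG65 (μ := μ) (s := s) (δ := δ) (y := y) (kap := kap) (ke := ke) hB hf X X.j2 X.n2 Tn.z Tn.u t A
  have eG : ∀ (J : Finset ℕ) (α β : ℝ), iG μ s N (Pn N y) (tf μ s δ B b0 j (sg A j) t) (pS σ j) (NI (j - b) (j - h))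
      (fun η => rh e d (f y (η, A))) (EL63.nL μ s N (Pn N y) (tf μ s δ B b0 j (sg A j) t) (gf μ s δ B b0 j (sg A j)) ep J) α β =
      ∫ η, LM μ s N δ B b0 h b σ j e d f t y ep J α β (η, A) ∂(law μ) := fun J α β => rfl
  have eT : ∀ (J J' : Finset ℕ), iT μ s N (Pn N y) (tf μ s δ B b0 j (sg A j) t) (pS σ j) J' ((j / σ + 1) * σ) ep (NI (j - b) (j - h))
      (fun η => rh e d (f y (η, A))) (EL63.nL μ s N (Pn N y) (tf μ s δ B b0 j (sg A j) t) (gf μ s δ B b0 j (sg A j)) ep J)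
      (2 * (B / 2)) = ∫ η, LQ μ s N δ B b0 h b σ j e d f t y ep J J' (η, A) ∂(law μ) +
      2 * (B / 2) * ∫ η, LLg μ s N δ B b0 h b σ j e d f t y ep J' (η, A) ∂(law μ) := fun J J' => by
    have i1 := (gd_LQ65 (μ := μ) (s := s) (δ := δ) (y := y) hB hf b0 h b σ j e t ep J J').int (μ := μ) A
    have i2 := (gd_LL65 (μ := μ) (s := s) (δ := δ) (y := y) hB hf b0 h b σ j e t ep J').int (μ := μ) A
    have h1 : ∫ η, (LQ μ s N δ B b0 h b σ j e d f t y ep J J' (η, A) +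
        2 * (B / 2) * LLg μ s N δ B b0 h b σ j e d f t y ep J' (η, A)) ∂(law μ) = _ := integral_add i1 (i2.const_mul _)
    rw [integral_const_mul] at h1
    exact h1
  have e16 : ∫ η, LM μ s N δ B b0 h b σ j e d f t y ep J1 16 20 (η, A) ∂(law μ) =
      ∫ η, LM μ s N δ B b0 h b σ j e d f t y ep J1 14 19 (η, A) ∂(law μ) +
        ∫ η, LM μ s N δ B b0 h b σ j e d f t y ep J1 2 1 (η, A) ∂(law μ) := by
    rw [← integral_add ((gd_LM65 (μ := μ) (s := s) (δ := δ) (y := y) hB hf b0 h b σ j e t ep J1 14 19).int (μ := μ) A)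
      ((gd_LM65 (μ := μ) (s := s) (δ := δ) (y := y) hB hf b0 h b σ j e t ep J1 2 1).int (μ := μ) A)]
    congr 1
    funext η
    unfold LM MicH14.G1
    ring
  have eN : ∀ a b' c' d' : ℝ, iN μ s N (Pn N y) (tf μ s δ B b0 j (sg A j) t) (pS σ j) J3 J4 kap o
      (fun η => pL μ s N δ B b0 h b j e d f y (η, A)) a b' c' d' =
      a * ∫ η, Lfa μ s N δ B b0 h b σ j e d f t y kap o (η, A) ∂(law μ) +
      b' * ∫ η, Lfb μ s N δ B b0 h b σ j e d f t y kap o (η, A) ∂(law μ) +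
      (c' * ∫ η, Lfc μ s N δ B b0 h b σ j e d f t y kap o J3 (η, A) ∂(law μ) +
        d' * ∫ η, Lfc μ s N δ B b0 h b σ j e d f t y kap o J4 (η, A) ∂(law μ)) := fun a b' c' d' => rfl
  have eK : ∀ a : ℝ, iK μ s N (Pn N y) (tf μ s δ B b0 j (sg A j) t) (pS σ j) kap om
      (fun η => pL μ s N δ B b0 h b j e d f y (η, A)) a =
      ∫ η, LFO μ s N δ B b0 h b σ j e d f t y kap om a (η, A) ∂(law μ) := fun a => rfl
  rw [eG, eG, eG, eT, eT, eT, eN, eN, eN, eK, eK, sz59] at key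
  have key' : |∫ η, vL μ s N δ B b0 h b σ j e d f t y (η, A) ∂(law μ)| ≤ _ := key
  rw [e16]
  refine key'.trans ?_
  have f0 := mul_le_mul_of_nonneg_left e0 (by positivity : 0 ≤ a1 * a2 + a1 * a3 + a4 + 6 * (B / 2) * a3')
  have f1 := mul_le_mul_of_nonneg_left e1 (by positivity : 0 ≤ 6 * (B / 2))
  have f2 := mul_le_mul_of_nonneg_left e2 ha1
  unfold tlL
  linarith

/-- **PART L OF ONE ROW, IN THE MEAN OVER THE ENVIRONMENT AND THE SIGNS.** -/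
theorem e2L_P65 [IsProbabilityMeasure μ] {ff ff' : ℝ → ℝ} (hd : DenLaw μ ff ff') {K θ0 : ℝ} (hs : SG μ (sc ff ff') K θ0)
    (hB : 0 ≤ B) (hf : Cls59 N c d D f) (X : LS65 N b0 h b σ j e d m0 ep e3 J1 J2 J3 J4) (Kk : Key65 ep J3 J4 kap ke)
    (Tn : TL65 N (J1 ∪ J2) χ o R) (Tm : TL65 N (J3 ∪ J4) χm om Rm) {t1 t2 t3 t4 a1 a2 a3 a3' a4 Q1 Q2 Q3 Q4 : ℝ} (q1 : 0 < t1)
    (q2 : 0 < t2) (q3 : 0 < t3) (q4 : 0 < t4) (c1 : 2 * t1 * (B / 2 / J1.card) ≤ θ0) (c2 : 2 * t2 * (B / 2 / J2.card) ≤ θ0)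
    (c3 : 2 * t3 * ((B / 2 + B / 2) / J3.card) ≤ θ0)
    (c4 : t4 * (B / 2 * ((B / 2 + B / 2) + (B / 2 + B / 2)) / J4.card) ≤ θ0)
    (k1 : J1.card * (R * (B / 2 / J1.card) ^ 2) ≤ Q1) (k2 : J2.card * (R * (B / 2 / J2.card) ^ 2) ≤ Q2)
    (k3 : J3.card * (Rm * ((B / 2 + B / 2) / J3.card) ^ 2) ≤ Q3)
    (k4 : J4.card * (Rm * (B / 2 * ((B / 2 + B / 2) + (B / 2 + B / 2)) / J4.card) ^ 2) ≤ Q4)
    (ha1 : 0 ≤ a1) (ha2 : 0 ≤ a2) (ha3 : 0 ≤ a3) (ha3' : 0 ≤ a3') (ha4 : 0 ≤ a4) (t : ℝ) :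
    |AvA N fun A => ∫ η, vL μ s N δ B b0 h b σ j e d f t y (η, A) ∂(law μ)| ≤
      (a1 * a2 + a1 * a3 + a4 + 6 * (B / 2) * a3') * (2 * (B / 2) * (B / 2)) *
        ∫ ω, LO μ s N δ B b0 h b σ j e d f t y ω ∂(Pm μ N) +
      (2 * (B / 2) * a1 + 12 * (B / 2) ^ 2) * ∫ ω, LG μ s N δ B b0 h b σ j e d f t y m0 ω ∂(Pm μ N) +
      a1 * (2 * (B / 2) * (B / 2)) * (∫ ω, LM μ s N δ B b0 h b σ j e d f t y ep J2 2 1 ω ∂(Pm μ N) +
        3 * (∫ ω, LQ μ s N δ B b0 h b σ j e d f t y ep J2 J3 ω ∂(Pm μ N) +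
          2 * (B / 2) * ∫ ω, LLg μ s N δ B b0 h b σ j e d f t y ep J3 ω ∂(Pm μ N))) +
      B / 2 * (2 * (B / 2) * (B / 2)) * (∫ ω, LM μ s N δ B b0 h b σ j e d f t y ep J1 16 20 ω ∂(Pm μ N) +
        36 * (∫ ω, LQ μ s N δ B b0 h b σ j e d f t y ep J1 J3 ω ∂(Pm μ N) +
          2 * (B / 2) * ∫ ω, LLg μ s N δ B b0 h b σ j e d f t y ep J3 ω ∂(Pm μ N)) +
        2 * (∫ ω, LQ μ s N δ B b0 h b σ j e d f t y ep J1 J4 ω ∂(Pm μ N) +
          2 * (B / 2) * ∫ ω, LLg μ s N δ B b0 h b σ j e d f t y ep J4 ω ∂(Pm μ N))) +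
      (a1 * (B / 2) * (∫ ω, Lfa μ s N δ B b0 h b σ j e d f t y kap o ω ∂(Pm μ N) +
          ∫ ω, Lfb μ s N δ B b0 h b σ j e d f t y kap o ω ∂(Pm μ N) +
          3 * ∫ ω, Lfc μ s N δ B b0 h b σ j e d f t y kap o J3 ω ∂(Pm μ N)) +
        (B / 2) ^ 2 * (8 * ∫ ω, Lfa μ s N δ B b0 h b σ j e d f t y kap o ω ∂(Pm μ N) +
          20 * ∫ ω, Lfb μ s N δ B b0 h b σ j e d f t y kap o ω ∂(Pm μ N) +
          36 * ∫ ω, Lfc μ s N δ B b0 h b σ j e d f t y kap o J3 ω ∂(Pm μ N) +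
          2 * ∫ ω, Lfc μ s N δ B b0 h b σ j e d f t y kap o J4 ω ∂(Pm μ N))) +
      ((2 * (B / 2) * a1 + 8 * (B / 2) ^ 2) * ∫ ω, LFO μ s N δ B b0 h b σ j e d f t y kap om 1 ω ∂(Pm μ N) +
        12 * (B / 2) ^ 2 * ∫ ω, LFO μ s N δ B b0 h b σ j e d f t y kap om 3 ω ∂(Pm μ N)) +
      (Fintype.card T : ℝ) * (tail2 K (2 * (B / 2) * (B / 2) * (2 * D)) t1 t2 a1 a2 Q1 Q2 +
        tail2 K (2 * (B / 2) * (B / 2) * (2 * D)) t1 t3 a1 a3 Q1 Q3 +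
        tail1 K (2 * (B / 2) * (B / 2) * (2 * D) * (6 * (B / 2))) t3 a3' Q3 +
        tail1 K (2 * (B / 2) * (B / 2) * (2 * D)) t4 a4 Q4 +
        tail1 K (2 * (B / 2) * (B / 2) * (2 * D) * (6 * (B / 2 + (sS J2 N).card * (B / 2 / J2.card * 1) +
          (sS J3 N).card * ((B / 2 + B / 2) / J3.card * 1)))) t1 a1 Q1 +
        tail1 K ((sS J2 N).card * (B / 2 / J2.card * (2 * (2 * (1 * (B / 2))) * (B / 2) * (2 * D)))) t1 a1 Q1) := by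
  have z1 : (0 : ℝ) ≤ 1 := zero_le_one
  have z3 : (0 : ℝ) ≤ 3 := by norm_num
  rw [(gd_LO65 (μ := μ) (s := s) (δ := δ) (y := y) hB hf b0 h b σ j e t).av,
    (gd_LG65 (μ := μ) (s := s) (δ := δ) (y := y) hB hf b0 h b σ j e t m0).av,
    (gd_LM65 (μ := μ) (s := s) (δ := δ) (y := y) hB hf b0 h b σ j e t ep J2 2 1).av,
    (gd_LQ65 (μ := μ) (s := s) (δ := δ) (y := y) hB hf b0 h b σ j e t ep J2 J3).av,
    (gd_LL65 (μ := μ) (s := s) (δ := δ) (y := y) hB hf b0 h b σ j e t ep J3).av,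
    (gd_LM65 (μ := μ) (s := s) (δ := δ) (y := y) hB hf b0 h b σ j e t ep J1 16 20).av,
    (gd_LQ65 (μ := μ) (s := s) (δ := δ) (y := y) hB hf b0 h b σ j e t ep J1 J3).av,
    (gd_LQ65 (μ := μ) (s := s) (δ := δ) (y := y) hB hf b0 h b σ j e t ep J1 J4).av,
    (gd_LL65 (μ := μ) (s := s) (δ := δ) (y := y) hB hf b0 h b σ j e t ep J4).av,
    (gd_fa65 (μ := μ) (s := s) (δ := δ) (y := y) (kap := kap) hB hf Tn.o0 Tn.o1 b0 h b σ j e t).av,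
    (gd_fb65 (μ := μ) (s := s) (δ := δ) (y := y) (kap := kap) hB hf Tn.o0 Tn.o1 b0 h b σ j e t).av,
    (gd_fc65 (μ := μ) (s := s) (δ := δ) (y := y) (kap := kap) hB hf Tn.o0 Tn.o1 b0 h b σ j e t (J' := J3)).av,
    (gd_fc65 (μ := μ) (s := s) (δ := δ) (y := y) (kap := kap) hB hf Tn.o0 Tn.o1 b0 h b σ j e t (J' := J4)).av,
    (gd_FO65 (μ := μ) (s := s) (δ := δ) (y := y) (kap := kap) hB hf Tm.o0 Tm.o1 b0 h b σ j e t z1).av,
    (gd_FO65 (μ := μ) (s := s) (δ := δ) (y := y) (kap := kap) hB hf Tm.o0 Tm.o1 b0 h b σ j e t z3).av]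
  rw [← AvA_const (N := N) ((Fintype.card T : ℝ) * (tail2 K (2 * (B / 2) * (B / 2) * (2 * D)) t1 t2 a1 a2 Q1 Q2 +
        tail2 K (2 * (B / 2) * (B / 2) * (2 * D)) t1 t3 a1 a3 Q1 Q3 +
        tail1 K (2 * (B / 2) * (B / 2) * (2 * D) * (6 * (B / 2))) t3 a3' Q3 +
        tail1 K (2 * (B / 2) * (B / 2) * (2 * D)) t4 a4 Q4 +
        tail1 K (2 * (B / 2) * (B / 2) * (2 * D) * (6 * (B / 2 + (sS J2 N).card * (B / 2 / J2.card * 1) +
          (sS J3 N).card * ((B / 2 + B / 2) / J3.card * 1)))) t1 a1 Q1 +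
        tail1 K ((sS J2 N).card * (B / 2 / J2.card * (2 * (2 * (1 * (B / 2))) * (B / 2) * (2 * D)))) t1 a1 Q1))]
  simp only [← AvA_add, ← AvA_mul]
  exact abs_AvA_le fun A => e2L_A65 hd hs hB hf X Kk Tn Tm q1 q2 q3 q4 c1 c2 c3 c4 k1 k2 k3 k4 ha1 ha2 ha3 ha3' ha4 t A

end Row

end

end Pool.Agent.W_7d29a1_C0.EL65
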