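import Pool.Agent.W_7d29a1_C0.BoxG41C

/-!
CURV0 (MP_7d29a1_pr), section E2, PART L: THE NUMBERS. `numL73`: from the static bound of part L with free numbers `t_i`, `a_i`, `Q_i`
(helper65's `e2L_P65`) to the bound in `ρ = sqrt (R / n)`, `ρ4 = sqrt (Rm / n4)`, `L`, with one tail `exp (4 K - L / 2)`. (helper73)
-/

set_option autoImplicit false

namespace Pool.Agent.W_7d29a1_C0.EL73

open Pool.W7d29a1.C0.H41 (tail1 tail2)

noncomputable section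

/-- One score factor at the optimal numbers. -/
theorem tail1_opt73 {K D q L : ℝ} (hq : 0 < q) (hK : 0 ≤ K) (hD : 0 ≤ D) :
    tail1 K D (1 / q) (L * q) (q ^ 2) ≤ 4 * D * q * Real.exp (4 * K - L / 2) := by
  unfold tail1
  have e1 : 1 / q * (L * q) / 2 = L / 2 := by field_simp
  have e2 : K * (1 / q) ^ 2 * q ^ 2 = K := by field_simp
  have e3 : 2 / (1 / q) = 2 * q := by field_simp
  rw [e1, e2, e3]
  have e4 : Real.exp (-(L / 2)) * Real.exp K ≤ Real.exp (4 * K - L / 2) := by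
    rw [← Real.exp_add]
    exact Real.exp_le_exp.2 (by linarith)
  have e5 : D * (2 * q * Real.exp (-(L / 2)) * (2 * Real.exp K)) = 4 * D * q * (Real.exp (-(L / 2)) * Real.exp K) := by ring
  rw [e5]
  exact mul_le_mul_of_nonneg_left e4 (by positivity)

/-- Two score factors at the optimal numbers. -/
theorem tail2_opt73 {K D q q' L : ℝ} (hq : 0 < q) (hq' : 0 < q') :
    tail2 K D (1 / q) (1 / q') (L * q) (L * q') (q ^ 2) (q' ^ 2) = 8 * D * (q * q') * Real.exp (4 * K - L / 2) := by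
  unfold tail2
  have e1 : 1 / q * (L * q) / 2 = L / 2 := by field_simp
  have e1' : 1 / q' * (L * q') / 2 = L / 2 := by field_simp
  have e2 : 4 * K * (1 / q) ^ 2 * q ^ 2 = 4 * K := by field_simp
  have e2' : 4 * K * (1 / q') ^ 2 * q' ^ 2 = 4 * K := by field_simp
  rw [e1, e1', e2, e2', show 4 * K - L / 2 = -(L / 2) + 4 * K by ring, Real.exp_add]
  field_simp
  ring

/-- The condition on `t`. -/
theorem tc73 {θ0 x r m k : ℝ} (hθ : 0 < θ0) (hx : 0 < x) (hm : 0 < m) (hmk : m ≤ k) (h : x ^ 2 = r / m) (hh : 4 ≤ θ0 ^ 2 * m * r) :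
    2 / (x * k) ≤ θ0 := by
  have e : (θ0 * (x * m)) ^ 2 = θ0 ^ 2 * m * r := by
    rw [mul_pow, mul_pow, h]
    field_simp
  have h5 : 0 < θ0 * (x * m) := by positivity
  have h6 : 2 ≤ θ0 * (x * m) := by nlinarith only [e, h5, hh]
  have hk : 0 < k := lt_of_lt_of_le hm hmk
  rw [div_le_iff₀ (by positivity)]
  have : θ0 * (x * m) ≤ θ0 * (x * k) := mul_le_mul_of_nonneg_left (mul_le_mul_of_nonneg_left hmk hx.le) hθ.le
  linarith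

/-- The condition on `Q`. -/
theorem qc73 {r m k X : ℝ} (hm : 0 < m) (hk : m ≤ k) (hr : 0 ≤ r) : k * (r * (X / k) ^ 2) ≤ X ^ 2 * (r / m) := by
  have hk0 : 0 < k := lt_of_lt_of_le hm hk
  have e : k * (r * (X / k) ^ 2) = X ^ 2 * (r / k) := by field_simp
  rw [e]
  exact mul_le_mul_of_nonneg_left (div_le_div_of_nonneg_left hr hm hk) (sq_nonneg _)

/-- The tails at the optimal numbers. -/
theorem tails73 {M D K L ρ ρ4 x3 Np k2 : ℝ} {s2 : ℝ} (hM : 0 < M) (hD : 0 ≤ D) (hK : 0 ≤ K) (hρ0 : 0 < ρ) (hρ1 : ρ ≤ 1) (hρ40 : 0 < ρ4)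
    (hρ41 : ρ4 ≤ 1) (hNp : 1 ≤ Np) (hx2 : s2 * (M / k2 * 1) ≤ M * Np) (x20 : 0 ≤ s2 * (M / k2 * 1)) (hx3 : x3 ≤ 2 * M * Np) (x30 : 0 ≤ x3) :
    tail2 K (2 * M * M * (2 * D)) (1 / (M * ρ)) (1 / (M * ρ)) (L * (M * ρ)) (L * (M * ρ)) ((M * ρ) ^ 2) ((M * ρ) ^ 2) +
        tail2 K (2 * M * M * (2 * D)) (1 / (M * ρ)) (1 / (2 * M * ρ4)) (L * (M * ρ)) (L * (2 * M * ρ4)) ((M * ρ) ^ 2)
          ((2 * M * ρ4) ^ 2) +
        tail1 K (2 * M * M * (2 * D) * (6 * M)) (1 / (2 * M * ρ4)) (L * (2 * M * ρ4)) ((2 * M * ρ4) ^ 2) +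
        tail1 K (2 * M * M * (2 * D)) (1 / (4 * M ^ 2 * ρ4)) (L * (4 * M ^ 2 * ρ4)) ((4 * M ^ 2 * ρ4) ^ 2) +
        tail1 K (2 * M * M * (2 * D) * (6 * (M + s2 * (M / k2 * 1) + x3))) (1 / (M * ρ)) (L * (M * ρ)) ((M * ρ) ^ 2) +
        tail1 K (s2 * (M / k2 * (2 * (2 * (1 * M)) * M * (2 * D)))) (1 / (M * ρ)) (L * (M * ρ)) ((M * ρ) ^ 2) ≤
      768 * (M ^ 4 * D) * Np * Real.exp (4 * K - L / 2) := by
  obtain ⟨E, hE⟩ : ∃ E, E = Real.exp (4 * K - L / 2) := ⟨_, rfl⟩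
  have hE0 : 0 < E := hE ▸ Real.exp_pos _
  obtain ⟨Z, hZ⟩ : ∃ Z, Z = M ^ 4 * D := ⟨_, rfl⟩
  have hZ0 : 0 ≤ Z := by rw [hZ]; positivity
  have q1 : 0 < M * ρ := by positivity
  have q3 : 0 < 2 * M * ρ4 := by positivity
  have q4 : 0 < 4 * M ^ 2 * ρ4 := by positivity
  have d6 : s2 * (M / k2 * (2 * (2 * (1 * M)) * M * (2 * D))) = s2 * (M / k2 * 1) * (8 * M ^ 2 * D) := by ring
  rw [d6]
  obtain ⟨x2', hx2'⟩ : ∃ x, x = s2 * (M / k2 * 1) := ⟨_, rfl⟩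
  rw [← hx2'] at hx2 x20 ⊢
  have t1 := tail2_opt73 (K := K) (D := 2 * M * M * (2 * D)) (L := L) q1 q1
  have t2 := tail2_opt73 (K := K) (D := 2 * M * M * (2 * D)) (L := L) q1 q3
  have t3 := tail1_opt73 (K := K) (D := 2 * M * M * (2 * D) * (6 * M)) (L := L) q3 hK (by positivity)
  have t4 := tail1_opt73 (K := K) (D := 2 * M * M * (2 * D)) (L := L) q4 hK (by positivity)
  have t5 := tail1_opt73 (K := K) (D := 2 * M * M * (2 * D) * (6 * (M + x2' + x3))) (L := L) q1 hK (by positivity)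
  have t6 := tail1_opt73 (K := K) (D := x2' * (8 * M ^ 2 * D)) (L := L) q1 hK (by positivity)
  rw [← hE] at t1 t2 t3 t4 t5 t6 ⊢
  rw [← hZ]
  have u1 : 8 * (2 * M * M * (2 * D)) * (M * ρ * (M * ρ)) * E ≤ 32 * Z * E := by
    refine mul_le_mul_of_nonneg_right ?_ hE0.le
    have a : ρ * ρ ≤ 1 := mul_le_one₀ hρ1 hρ0.le hρ1
    have e : 8 * (2 * M * M * (2 * D)) * (M * ρ * (M * ρ)) = 32 * (Z * (ρ * ρ)) := by rw [hZ]; ring
    rw [e]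
    exact mul_le_mul_of_nonneg_left (mul_le_of_le_one_right hZ0 a) (by norm_num)
  have u2 : 8 * (2 * M * M * (2 * D)) * (M * ρ * (2 * M * ρ4)) * E ≤ 64 * Z * E := by
    refine mul_le_mul_of_nonneg_right ?_ hE0.le
    have a : ρ * ρ4 ≤ 1 := mul_le_one₀ hρ1 hρ40.le hρ41
    have e : 8 * (2 * M * M * (2 * D)) * (M * ρ * (2 * M * ρ4)) = 64 * (Z * (ρ * ρ4)) := by rw [hZ]; ring
    rw [e]
    exact mul_le_mul_of_nonneg_left (mul_le_of_le_one_right hZ0 a) (by norm_num)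
  have u3 : 4 * (2 * M * M * (2 * D) * (6 * M)) * (2 * M * ρ4) * E ≤ 192 * Z * E := by
    refine mul_le_mul_of_nonneg_right ?_ hE0.le
    have e : 4 * (2 * M * M * (2 * D) * (6 * M)) * (2 * M * ρ4) = 192 * (Z * ρ4) := by rw [hZ]; ring
    rw [e]
    exact mul_le_mul_of_nonneg_left (mul_le_of_le_one_right hZ0 hρ41) (by norm_num)
  have u4 : 4 * (2 * M * M * (2 * D)) * (4 * M ^ 2 * ρ4) * E ≤ 64 * Z * E := by
    refine mul_le_mul_of_nonneg_right ?_ hE0.le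
    have e : 4 * (2 * M * M * (2 * D)) * (4 * M ^ 2 * ρ4) = 64 * (Z * ρ4) := by rw [hZ]; ring
    rw [e]
    exact mul_le_mul_of_nonneg_left (mul_le_of_le_one_right hZ0 hρ41) (by norm_num)
  have a0 : M ≤ M * Np := le_mul_of_one_le_right hM.le hNp
  have u5 : 4 * (2 * M * M * (2 * D) * (6 * (M + x2' + x3))) * (M * ρ) * E ≤ 384 * Z * Np * E := by
    refine mul_le_mul_of_nonneg_right ?_ hE0.le
    have a1 : M + x2' + x3 ≤ 4 * M * Np := by linarith only [a0, hx2, hx3]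
    calc 4 * (2 * M * M * (2 * D) * (6 * (M + x2' + x3))) * (M * ρ)
        ≤ 4 * (2 * M * M * (2 * D) * (6 * (4 * M * Np))) * (M * 1) := by gcongr
      _ = 384 * Z * Np := by rw [hZ]; ring
  have u6 : 4 * (x2' * (8 * M ^ 2 * D)) * (M * ρ) * E ≤ 32 * Z * Np * E := by
    refine mul_le_mul_of_nonneg_right ?_ hE0.le
    calc 4 * (x2' * (8 * M ^ 2 * D)) * (M * ρ) ≤ 4 * (M * Np * (8 * M ^ 2 * D)) * (M * 1) := by gcongr
      _ = 32 * Z * Np := by rw [hZ]; ring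
  refine (add_le_add (add_le_add (add_le_add (add_le_add (add_le_add (t1.le.trans u1) (t2.le.trans u2))
    (t3.trans u3)) (t4.trans u4)) (t5.trans u5)) (t6.trans u6)).trans ?_
  have a2 : 0 ≤ Z * E := mul_nonneg hZ0 hE0.le
  have a3 : Z * E ≤ Z * E * Np := le_mul_of_one_le_right a2 hNp
  have e1 : 384 * Z * Np * E = 384 * (Z * E * Np) := by ring
  have e2 : 32 * Z * Np * E = 32 * (Z * E * Np) := by ring
  have e3 : 768 * Z * Np * E = 768 * (Z * E * Np) := by ring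
  rw [e1, e2, e3]
  linarith only [a2, a3]

/-- **THE NUMBERS OF PART L.** -/
theorem numL73 {V LO LG M2 Q23 L3 M1 Q13 Q14 L4 fa fb fc3 fc4 F1 F3 : ℝ} {M D K θ0 L R Rm n n4 cT s2 s3 Np : ℝ} {k1 k2 k3 k4 : ℝ}
    (hM : 0 < M) (hD : 0 ≤ D) (hK : 0 ≤ K) (hθ : 0 < θ0) (hL : 0 ≤ L) (hR : 0 < R) (hRn : R ≤ n) (hRm : 0 < Rm) (hRm4 : Rm ≤ n4)
    (h1 : n ≤ k1) (h2 : n ≤ k2) (h3 : n4 ≤ k3) (h4 : n4 ≤ k4) (hn : 4 ≤ θ0 ^ 2 * n * R) (hn4 : 4 ≤ θ0 ^ 2 * n4 * Rm) (hcT : 0 ≤ cT)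
    (hNp : 1 ≤ Np) (hs20 : 0 ≤ s2) (hs30 : 0 ≤ s3) (hs2 : s2 ≤ k2 * Np) (hs3 : s3 ≤ k3 * Np)
    (H : ∀ t1 t2 t3 t4 a1 a2 a3 a3' a4 Q1 Q2 Q3 Q4 : ℝ, 0 < t1 → 0 < t2 → 0 < t3 → 0 < t4 → 0 ≤ a1 → 0 ≤ a2 → 0 ≤ a3 → 0 ≤ a3' →
      0 ≤ a4 → 2 * t1 * (M / k1) ≤ θ0 → 2 * t2 * (M / k2) ≤ θ0 → 2 * t3 * ((M + M) / k3) ≤ θ0 →
      t4 * (M * ((M + M) + (M + M)) / k4) ≤ θ0 → k1 * (R * (M / k1) ^ 2) ≤ Q1 → k2 * (R * (M / k2) ^ 2) ≤ Q2 →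
      k3 * (Rm * ((M + M) / k3) ^ 2) ≤ Q3 → k4 * (Rm * (M * ((M + M) + (M + M)) / k4) ^ 2) ≤ Q4 →
      V ≤ (a1 * a2 + a1 * a3 + a4 + 6 * M * a3') * (2 * M * M) * LO + (2 * M * a1 + 12 * M ^ 2) * LG +
        a1 * (2 * M * M) * (M2 + 3 * (Q23 + 2 * M * L3)) +
        M * (2 * M * M) * (M1 + 36 * (Q13 + 2 * M * L3) + 2 * (Q14 + 2 * M * L4)) +
        (a1 * M * (fa + fb + 3 * fc3) + M ^ 2 * (8 * fa + 20 * fb + 36 * fc3 + 2 * fc4)) +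
        ((2 * M * a1 + 8 * M ^ 2) * F1 + 12 * M ^ 2 * F3) +
        cT * (tail2 K (2 * M * M * (2 * D)) t1 t2 a1 a2 Q1 Q2 + tail2 K (2 * M * M * (2 * D)) t1 t3 a1 a3 Q1 Q3 +
          tail1 K (2 * M * M * (2 * D) * (6 * M)) t3 a3' Q3 + tail1 K (2 * M * M * (2 * D)) t4 a4 Q4 +
          tail1 K (2 * M * M * (2 * D) * (6 * (M + s2 * (M / k2 * 1) + s3 * ((M + M) / k3 * 1)))) t1 a1 Q1 +
          tail1 K (s2 * (M / k2 * (2 * (2 * (1 * M)) * M * (2 * D)))) t1 a1 Q1)) :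
    V ≤ (L ^ 2 * M ^ 2 * (R / n) + 2 * L ^ 2 * M ^ 2 * (Real.sqrt (R / n) * Real.sqrt (Rm / n4)) + 16 * L * M ^ 2 * Real.sqrt (Rm / n4)) *
        (2 * M * M) * LO + (2 * L * M ^ 2 * Real.sqrt (R / n) + 12 * M ^ 2) * LG +
      L * M * Real.sqrt (R / n) * (2 * M * M) * (M2 + 3 * (Q23 + 2 * M * L3)) +
      M * (2 * M * M) * (M1 + 36 * (Q13 + 2 * M * L3) + 2 * (Q14 + 2 * M * L4)) +
      (L * M ^ 2 * Real.sqrt (R / n) * (fa + fb + 3 * fc3) + M ^ 2 * (8 * fa + 20 * fb + 36 * fc3 + 2 * fc4)) +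
      ((2 * L * M ^ 2 * Real.sqrt (R / n) + 8 * M ^ 2) * F1 + 12 * M ^ 2 * F3) +
      cT * (768 * (M ^ 4 * D) * Np * Real.exp (4 * K - L / 2)) := by
  have hn0 : 0 < n := lt_of_lt_of_le hR hRn
  have hn40 : 0 < n4 := lt_of_lt_of_le hRm hRm4
  obtain ⟨ρ, hρ⟩ : ∃ ρ, ρ = Real.sqrt (R / n) := ⟨_, rfl⟩
  obtain ⟨ρ4, hρ4⟩ : ∃ ρ4, ρ4 = Real.sqrt (Rm / n4) := ⟨_, rfl⟩
  have hρ0 : 0 < ρ := hρ ▸ Real.sqrt_pos.2 (by positivity)
  have hρ40 : 0 < ρ4 := hρ4 ▸ Real.sqrt_pos.2 (by positivity)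
  have hρ2 : ρ ^ 2 = R / n := by rw [hρ]; exact Real.sq_sqrt (by positivity)
  have hρ42 : ρ4 ^ 2 = Rm / n4 := by rw [hρ4]; exact Real.sq_sqrt (by positivity)
  have hρ1 : ρ ≤ 1 := by rw [hρ]; exact Real.sqrt_le_one.2 ((div_le_one hn0).2 hRn)
  have hρ41 : ρ4 ≤ 1 := by rw [hρ4]; exact Real.sqrt_le_one.2 ((div_le_one hn40).2 hRm4)
  have k10 : 0 < k1 := lt_of_lt_of_le hn0 h1
  have k20 : 0 < k2 := lt_of_lt_of_le hn0 h2
  have k30 : 0 < k3 := lt_of_lt_of_le hn40 h3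
  have k40 : 0 < k4 := lt_of_lt_of_le hn40 h4
  have q1 : 0 < M * ρ := by positivity
  have q3 : 0 < 2 * M * ρ4 := by positivity
  have q4 : 0 < 4 * M ^ 2 * ρ4 := by positivity
  have r1 : 2 * (1 / (M * ρ)) * (M / k1) ≤ θ0 := by
    refine le_trans (le_of_eq ?_) (tc73 hθ hρ0 hn0 h1 hρ2 hn)
    field_simp
  have r2 : 2 * (1 / (M * ρ)) * (M / k2) ≤ θ0 := by
    refine le_trans (le_of_eq ?_) (tc73 hθ hρ0 hn0 h2 hρ2 hn)
    field_simp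
  have r3 : 2 * (1 / (2 * M * ρ4)) * ((M + M) / k3) ≤ θ0 := by
    refine le_trans (le_of_eq ?_) (tc73 hθ hρ40 hn40 h3 hρ42 hn4)
    field_simp
    ring
  have r4 : 1 / (4 * M ^ 2 * ρ4) * (M * ((M + M) + (M + M)) / k4) ≤ θ0 := by
    have h5 := tc73 hθ hρ40 hn40 h4 hρ42 hn4
    have h6 : 1 / (4 * M ^ 2 * ρ4) * (M * ((M + M) + (M + M)) / k4) = 1 / (ρ4 * k4) := by
      field_simp
      ring
    rw [h6]
    refine le_trans ?_ h5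
    exact div_le_div_of_nonneg_right (by norm_num) (by positivity)
  have s1 : k1 * (R * (M / k1) ^ 2) ≤ (M * ρ) ^ 2 := by
    rw [mul_pow, hρ2]
    exact qc73 hn0 h1 hR.le
  have s2' : k2 * (R * (M / k2) ^ 2) ≤ (M * ρ) ^ 2 := by
    rw [mul_pow, hρ2]
    exact qc73 hn0 h2 hR.le
  have s3' : k3 * (Rm * ((M + M) / k3) ^ 2) ≤ (2 * M * ρ4) ^ 2 := by
    rw [mul_pow, hρ42]
    refine (qc73 hn40 h3 hRm.le).trans (le_of_eq ?_)
    ring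
  have s4' : k4 * (Rm * (M * ((M + M) + (M + M)) / k4) ^ 2) ≤ (4 * M ^ 2 * ρ4) ^ 2 := by
    rw [mul_pow, hρ42]
    refine (qc73 hn40 h4 hRm.le).trans (le_of_eq ?_)
    ring
  have H0 := H (1 / (M * ρ)) (1 / (M * ρ)) (1 / (2 * M * ρ4)) (1 / (4 * M ^ 2 * ρ4)) (L * (M * ρ)) (L * (M * ρ)) (L * (2 * M * ρ4))
    (L * (2 * M * ρ4)) (L * (4 * M ^ 2 * ρ4)) ((M * ρ) ^ 2) ((M * ρ) ^ 2) ((2 * M * ρ4) ^ 2) ((4 * M ^ 2 * ρ4) ^ 2)
    (one_div_pos.2 q1) (one_div_pos.2 q1) (one_div_pos.2 q3) (one_div_pos.2 q4) (mul_nonneg hL q1.le) (mul_nonneg hL q1.le)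
    (mul_nonneg hL q3.le) (mul_nonneg hL q3.le) (mul_nonneg hL q4.le) r1 r2 r3 r4 s1 s2' s3' s4'
  clear H
  have hx2 : s2 * (M / k2 * 1) ≤ M * Np := by
    rw [mul_one, ← mul_div_assoc, div_le_iff₀ k20]
    have := mul_le_mul_of_nonneg_right hs2 hM.le
    linarith only [this]
  have hx3 : s3 * ((M + M) / k3 * 1) ≤ 2 * M * Np := by
    rw [mul_one, ← mul_div_assoc, div_le_iff₀ k30]
    have := mul_le_mul_of_nonneg_right hs3 hM.le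
    linarith only [this]
  have ht := tails73 (K := K) (L := L) hM hD hK hρ0 hρ1 hρ40 hρ41 hNp hx2 (by positivity) hx3 (by positivity)
  have H1 := H0.trans (add_le_add le_rfl (mul_le_mul_of_nonneg_left ht hcT))
  clear H0 ht
  have w1 : L * (M * ρ) * (L * (M * ρ)) + L * (M * ρ) * (L * (2 * M * ρ4)) + L * (4 * M ^ 2 * ρ4) + 6 * M * (L * (2 * M * ρ4)) =
      L ^ 2 * M ^ 2 * (R / n) + 2 * L ^ 2 * M ^ 2 * (ρ * ρ4) + 16 * L * M ^ 2 * ρ4 := by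
    rw [← hρ2]
    ring
  have w2 : 2 * M * (L * (M * ρ)) = 2 * L * M ^ 2 * ρ := by ring
  have w4 : L * (M * ρ) * M = L * M ^ 2 * ρ := by ring
  have w3 : L * (M * ρ) = L * M * ρ := by ring
  rw [w1, w2, w4, w3] at H1
  rw [← hρ, ← hρ4]
  exact H1

end

end Pool.Agent.W_7d29a1_C0.EL73
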