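import Pool.Agent.W_7d29a1_C0.E2LD65
import Pool.Agent.W_7d29a1_C0.E2LN73

/-!
CURV0 (MP_7d29a1_pr), section E2, PART L: THE ROW IN THE MODEL FORM. `e2L_N73` = helper65's `e2L_P65` at the optimal numbers (`numL73`):
near tubes with `R` sites per row, near slabs with at least `n` rows; macro tubes with `Rm` sites, macro slabs with at least `n4` rows;
one free parameter `L`, one tail. (helper73)
-/

set_option autoImplicit false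
set_option linter.unusedSectionVars false

namespace Pool.Agent.W_7d29a1_C0.EL73

open Finset MeasureTheory Pool.Agent.W_7d29a1_F Pool.Agent.W_7d29a1_X Pool.Agent.W_7d29a1_H Pool.Agent.W_7d29a1_C0
open Pool.Agent.W_7d29a1_C0.H32
open Pool.Agent.W_7d29a1_C0.Mod92 Pool.Agent.W_7d29a1_C0.Blk18 Pool.Agent.W_7d29a1_C0.FP63 Pool.Agent.W_7d29a1_C0.Swap57
open Pool.Agent.W_7d29a1_C0.NM82 Pool.Agent.W_7d29a1_C0.CutF59 Pool.Agent.W_7d29a1_C0.CutG59 Pool.Agent.W_7d29a1_C0.E2Q59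
open Pool.Agent.W_7d29a1_C0.E2F59 Pool.Agent.W_7d29a1_C0.E2M59 Pool.Agent.W_7d29a1_C0.E2R59
open Pool.Agent.W_7d29a1_C0.FM63 Pool.Agent.W_7d29a1_C0.EM63 Pool.Agent.W_7d29a1_C0.FL65 Pool.Agent.W_7d29a1_C0.KL65
open Pool.Agent.W_7d29a1_C0.EL65
open Pool.Agent.W_7d29a1_C0.E1M82 (AvA)
open Pool.W7d29a1.C0
open Pool.W7d29a1.C0.H41 (tail1 tail2)

noncomputable section

variable {μ : Measure ℝ} {s : ℝ} {N : ℕ} {δ B : ℝ} {b0 h b σ j e d m0 ep e3 : ℕ} {J1 J2 J3 J4 : Finset ℕ} {c : ℕ} {D : ℝ} {f : Fam N}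
  {y : ℕ} [Nonempty (Px (Pn N y))]

theorem card_sS73 (J : Finset ℕ) (N : ℕ) : ((sS J N).card : ℝ) ≤ J.card * ((N : ℝ) + 1) := by
  have h : (sS J N).card ≤ J.card * (N + 1) := by
    unfold FP63.sS
    refine Finset.card_image_le.trans ?_
    rw [Finset.card_product, Finset.card_range]
  exact_mod_cast h

section Row

variable {T : Type*} [Fintype T] [DecidableEq T] {kap : (Fin 3 → Px (Pn N y)) → T} {ke : T → ℤ} {χ χm : T → Pt → ℝ}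
  {o om : T → Px (Pn N y) → ℝ} {R Rm : ℝ}

/-- **PART L OF ONE ROW, IN THE MEAN OVER THE ENVIRONMENT AND THE SIGNS, WITH THE NUMBERS.** -/
theorem e2L_N73 [IsProbabilityMeasure μ] {ff ff' : ℝ → ℝ} (hd : DenLaw μ ff ff') {K θ0 : ℝ} (hs : SG μ (sc ff ff') K θ0)
    (hB : 0 < B) (hf : Cls59 N c d D f) (X : LS65 N b0 h b σ j e d m0 ep e3 J1 J2 J3 J4) (Kk : Key65 ep J3 J4 kap ke)
    (Tn : TL65 N (J1 ∪ J2) χ o R) (Tm : TL65 N (J3 ∪ J4) χm om Rm) {n n4 : ℝ} (hR : 0 < R) (hRn : R ≤ n)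
    (hn : 4 ≤ θ0 ^ 2 * (n * R)) (hRm : 0 < Rm) (hRm4 : Rm ≤ n4) (hn4 : 4 ≤ θ0 ^ 2 * (n4 * Rm)) (k1 : n ≤ J1.card) (k2 : n ≤ J2.card)
    (k3 : n4 ≤ J3.card) (k4 : n4 ≤ J4.card) {L : ℝ} (hL : 0 ≤ L) (t : ℝ) :
    |AvA N fun A => ∫ η, vL μ s N δ B b0 h b σ j e d f t y (η, A) ∂(law μ)| ≤
      (L ^ 2 * (B / 2) ^ 2 * (R / n) + 2 * L ^ 2 * (B / 2) ^ 2 * (Real.sqrt (R / n) * Real.sqrt (Rm / n4)) +
          16 * L * (B / 2) ^ 2 * Real.sqrt (Rm / n4)) * (2 * (B / 2) * (B / 2)) *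
        ∫ ω, LO μ s N δ B b0 h b σ j e d f t y ω ∂(Pm μ N) +
      (2 * L * (B / 2) ^ 2 * Real.sqrt (R / n) + 12 * (B / 2) ^ 2) * ∫ ω, LG μ s N δ B b0 h b σ j e d f t y m0 ω ∂(Pm μ N) +
      L * (B / 2) * Real.sqrt (R / n) * (2 * (B / 2) * (B / 2)) * (∫ ω, LM μ s N δ B b0 h b σ j e d f t y ep J2 2 1 ω ∂(Pm μ N) +
        3 * (∫ ω, LQ μ s N δ B b0 h b σ j e d f t y ep J2 J3 ω ∂(Pm μ N) +
          2 * (B / 2) * ∫ ω, LLg μ s N δ B b0 h b σ j e d f t y ep J3 ω ∂(Pm μ N))) +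
      B / 2 * (2 * (B / 2) * (B / 2)) * (∫ ω, LM μ s N δ B b0 h b σ j e d f t y ep J1 16 20 ω ∂(Pm μ N) +
        36 * (∫ ω, LQ μ s N δ B b0 h b σ j e d f t y ep J1 J3 ω ∂(Pm μ N) +
          2 * (B / 2) * ∫ ω, LLg μ s N δ B b0 h b σ j e d f t y ep J3 ω ∂(Pm μ N)) +
        2 * (∫ ω, LQ μ s N δ B b0 h b σ j e d f t y ep J1 J4 ω ∂(Pm μ N) +
          2 * (B / 2) * ∫ ω, LLg μ s N δ B b0 h b σ j e d f t y ep J4 ω ∂(Pm μ N))) +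
      (L * (B / 2) ^ 2 * Real.sqrt (R / n) * (∫ ω, Lfa μ s N δ B b0 h b σ j e d f t y kap o ω ∂(Pm μ N) +
          ∫ ω, Lfb μ s N δ B b0 h b σ j e d f t y kap o ω ∂(Pm μ N) +
          3 * ∫ ω, Lfc μ s N δ B b0 h b σ j e d f t y kap o J3 ω ∂(Pm μ N)) +
        (B / 2) ^ 2 * (8 * ∫ ω, Lfa μ s N δ B b0 h b σ j e d f t y kap o ω ∂(Pm μ N) +
          20 * ∫ ω, Lfb μ s N δ B b0 h b σ j e d f t y kap o ω ∂(Pm μ N) +
          36 * ∫ ω, Lfc μ s N δ B b0 h b σ j e d f t y kap o J3 ω ∂(Pm μ N) +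
          2 * ∫ ω, Lfc μ s N δ B b0 h b σ j e d f t y kap o J4 ω ∂(Pm μ N))) +
      ((2 * L * (B / 2) ^ 2 * Real.sqrt (R / n) + 8 * (B / 2) ^ 2) *
          ∫ ω, LFO μ s N δ B b0 h b σ j e d f t y kap om 1 ω ∂(Pm μ N) +
        12 * (B / 2) ^ 2 * ∫ ω, LFO μ s N δ B b0 h b σ j e d f t y kap om 3 ω ∂(Pm μ N)) +
      (Fintype.card T : ℝ) * (768 * ((B / 2) ^ 4 * D) * ((N : ℝ) + 1) * Real.exp (4 * K - L / 2)) := by
  have hθ0 : 0 < θ0 := hs.2.2.1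
  have hK : 0 ≤ K := hs.2.1.le
  have hD : 0 ≤ D := (abs_nonneg _).trans (hf.bdd y (fun _ => 0, ∅) (Classical.ofNonempty : Px (Pn N y)))
  have hM : 0 < B / 2 := by positivity
  have hN1 : (1 : ℝ) ≤ (N : ℝ) + 1 := by have := Nat.cast_nonneg (α := ℝ) N; linarith
  refine numL73 (k1 := (J1.card : ℝ)) (k2 := (J2.card : ℝ)) (k3 := (J3.card : ℝ)) (k4 := (J4.card : ℝ))
    (s2 := ((sS J2 N).card : ℝ)) (s3 := ((sS J3 N).card : ℝ)) hM hD hK hθ0 hL hR hRn hRm hRm4 k1 k2 k3 k4 (by rw [mul_assoc]; exact hn)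
    (by rw [mul_assoc]; exact hn4) (Nat.cast_nonneg _) hN1 (Nat.cast_nonneg _) (Nat.cast_nonneg _) (card_sS73 J2 N) (card_sS73 J3 N) ?_
  intro t1 t2 t3 t4 a1 a2 a3 a3' a4 Q1 Q2 Q3 Q4 q1 q2 q3 q4 ha1 ha2 ha3 ha3' ha4 c1 c2 c3 c4 l1 l2 l3 l4
  exact e2L_P65 (μ := μ) (s := s) (δ := δ) (y := y) hd hs hB.le hf X Kk Tn Tm q1 q2 q3 q4 c1 c2 c3 c4 l1 l2 l3 l4 ha1 ha2 ha3 ha3' ha4 t

end Row

end

end Pool.Agent.W_7d29a1_C0.EL73
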