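import Pool.Agent.W_7d29a1_C0.NumR62

/-!
CURV0 (MP_7d29a1_pr), leaf E2 (helper62): THE COEFFICIENTS OF PART L, in the form of `e2L_P65` (helper65) after the choice
`a1 = a2 = L M ρ`, `a3 = a3' = 2 L M ρ4`, `a4 = 4 L M ^ 2 ρ4` of the thresholds. `far62`: a far factor with a coefficient; `CoL62`: the list.
-/

set_option autoImplicit false
set_option linter.unusedSectionVars false
set_option linter.unusedVariables false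

namespace Pool.Agent.W_7d29a1_C0.NumR62

open Finset Filter Topology MeasureTheory
open Pool.Agent.W_7d29a1_C0 Pool.Agent.W_7d29a1_H
open Pool.Agent.W_7d29a1_HS (wd)
open Pool.Agent.W_7d29a1_C0.Frm33 Pool.Agent.W_7d29a1_C0.EstC46 Pool.Agent.W_7d29a1_C0.E2W43

noncomputable section

/-- A far factor `φ ≤ z ^ 8 / E` with a coefficient `C ≤ z ^ 11`. -/
theorem far62 {z C φ E : ℝ} (hz : 1 ≤ z) (hE : 1 ≤ E) (hC0 : 0 ≤ C) (hC : C ≤ z ^ 11) (hφ0 : 0 ≤ φ) (hφ : φ ≤ z ^ 8 / E) :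
    (C * φ * z) ^ 2 ≤ z ^ 40 * (1 / E ^ 2) := by
  have hz0 : 0 < z := by linarith
  have h1 := sqG62 hz (k := 20) le_rfl (mul_nonneg (mul_nonneg hC0 hφ0) hz0.le) (G := 1 / E) (by positivity) (x := C * φ * z) (by
    calc C * φ * z ≤ z ^ 11 * (z ^ 8 / E) * z :=
          mul_le_mul_of_nonneg_right (mul_le_mul hC hφ hφ0 (by positivity)) hz0.le
      _ = z ^ 20 * (1 / E) := by ring)
  rwa [div_pow, one_pow] at h1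

/-- **THE COEFFICIENTS OF PART L**: `b1` = own, two steps at the base (gain `W ^ 2`), `b2` = own, the steps with a macro box (gain `V`),
`b3`, `b4` = own, near and macro far lines, `b5` = the bare outer tie; `A1`, `A2` = micro, `A3` = response. -/
structure CoL62 (n ι B W V Eb Er b1 b2 b3 b4 b5 A1 A2 A3 : ℝ) : Prop where
  p1 : 0 ≤ b1
  p2 : 0 ≤ b2
  p3 : 0 ≤ b3
  p4 : 0 ≤ b4
  p5 : 0 ≤ b5
  q1 : 0 ≤ A1
  q2 : 0 ≤ A2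
  q3 : 0 ≤ A3
  c1 : (b1 * n ^ ι) ^ 2 ≤ n ^ (40 * ι) * W ^ 2
  c2 : (b2 * n ^ ι) ^ 2 ≤ n ^ (40 * ι) * V
  c3 : (b3 * n ^ ι) ^ 2 ≤ n ^ (40 * ι) * (1 / Eb ^ 2)
  c4 : (b4 * n ^ ι) ^ 2 ≤ n ^ (40 * ι) * (1 / Er ^ 2)
  c5 : (b5 * n ^ ι) ^ 2 ≤ n ^ (40 * ι) * (1 / Eb ^ 4)
  /-- The micro coefficients with any number up to `1000` and up to three powers of `B`. -/
  d1 : ∀ k : ℕ, k ≤ 3 → ∀ C : ℝ, 0 ≤ C → C ≤ 1000 → (A1 * C * B ^ k * n ^ ι) ^ 2 ≤ n ^ (40 * ι)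
  d2 : ∀ k : ℕ, k ≤ 3 → ∀ C : ℝ, 0 ≤ C → C ≤ 1000 → (A2 * C * B ^ k * n ^ ι) ^ 2 ≤ n ^ (40 * ι)
  d3 : ∀ k : ℕ, k ≤ 3 → ∀ C : ℝ, 0 ≤ C → C ≤ 1000 → (A3 * C * B ^ k * n ^ ι) ^ 2 ≤ n ^ (40 * ι)
  /-- The sizes, for the errors. -/
  s0 : b1 + b2 + b3 + b4 + b5 ≤ n ^ (14 * ι)
  s1 : A1 ≤ n ^ (4 * ι)
  s2 : A2 ≤ n ^ (3 * ι)
  s3 : A3 ≤ n ^ (5 * ι)
  sB : B ≤ n ^ ι
  s64 : 64 ≤ n ^ ι

section core

variable {z B ρ ρ4 φ φ4 φB C3 C4 C5 W V Eb Er : ℝ}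

/-- The own coefficient with a macro box: `(2 L ^ 2 M ^ 2 ρ ρ4 + C L M ^ 2 ρ4) K0`, `C ≤ 16`. -/
theorem k3_62 (hz : 64 ≤ z) (hB : 0 ≤ B) (hBz : B ≤ z) (hρ0 : 0 ≤ ρ) (hρ1 : ρ ≤ 1) (hρ40 : 0 ≤ ρ4)
    (gm : (B * z * ρ4) ^ 2 ≤ z ^ 9 * V) :
    ((2 * z ^ 2 * (B / 2) ^ 2 * ρ * ρ4 + 16 * z * (B / 2) ^ 2 * ρ4) * (2 * (B / 2) * (B / 2)) * z) ^ 2 ≤ z ^ 19 * V := by
  have hz0 : 0 < z := by linarith
  have h0 : 0 ≤ z ^ 9 * V := (sq_nonneg _).trans gm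
  have B3 : B ^ 3 ≤ z ^ 3 := pow_le_pow_left₀ hB hBz 3
  have hB3 : 0 ≤ B ^ 3 := by positivity
  have e1 : (2 * z ^ 2 * (B / 2) ^ 2 * ρ * ρ4 + 16 * z * (B / 2) ^ 2 * ρ4) * (2 * (B / 2) * (B / 2)) * z =
      (B * z * ρ4) * ((z * ρ * B ^ 3 / 4 + 2 * B ^ 3) * z) := by ring
  have e2 : (z * ρ * B ^ 3 / 4 + 2 * B ^ 3) * z ≤ z ^ 5 := by
    have f1 : z * ρ * B ^ 3 / 4 ≤ z * 1 * z ^ 3 / 4 := by gcongr
    have f2 : 2 * B ^ 3 ≤ z ^ 4 / 4 := by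
      have : z ^ 3 * 64 ≤ z ^ 3 * z := mul_le_mul_of_nonneg_left hz (by positivity)
      have e : z ^ 3 * z = z ^ 4 := by ring
      linarith
    have f3 : z * ρ * B ^ 3 / 4 + 2 * B ^ 3 ≤ z ^ 4 := by
      have e : z * 1 * z ^ 3 / 4 = z ^ 4 / 4 := by ring
      have : 0 ≤ z ^ 4 := by positivity
      linarith
    calc _ ≤ z ^ 4 * z := mul_le_mul_of_nonneg_right f3 hz0.le
      _ = z ^ 5 := by ring
  rw [e1, mul_pow]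
  calc (B * z * ρ4) ^ 2 * ((z * ρ * B ^ 3 / 4 + 2 * B ^ 3) * z) ^ 2 ≤ (z ^ 9 * V) * (z ^ 5) ^ 2 :=
        mul_le_mul gm (pow_le_pow_left₀ (by positivity) e2 2) (by positivity) h0
    _ = z ^ 19 * V := by ring

/-- **THE COEFFICIENTS OF PART L, the arithmetic.** `C3`, `C4`, `C5` = the coefficients of the far lines. -/
theorem coreL62 {n ι : ℝ} (hn : 1 ≤ n) (hz : n ^ ι = z) (h64 : 64 ≤ z) (hB : 0 ≤ B) (hBz : B ≤ z) (hρ0 : 0 ≤ ρ) (hρ1 : ρ ≤ 1)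
    (hρ40 : 0 ≤ ρ4) (hρ41 : ρ4 ≤ 1) (gn : (B * z * ρ) ^ 2 ≤ z ^ 9 * W) (gm : (B * z * ρ4) ^ 2 ≤ z ^ 9 * V) (hEb : 1 ≤ Eb)
    (hEr : 1 ≤ Er) (hφ0 : 0 ≤ φ) (hφ : φ ≤ z ^ 8 / Eb) (hφ40 : 0 ≤ φ4) (hφ4 : φ4 ≤ z ^ 8 / Er) (hφB0 : 0 ≤ φB)
    (hφB : φB ≤ z ^ 8 / Eb ^ 2) (h30 : 0 ≤ C3) (h3 : C3 ≤ z ^ 5) (h40 : 0 ≤ C4) (h4 : C4 ≤ z ^ 5) (h50 : 0 ≤ C5) (h5 : C5 ≤ z ^ 5) :
    CoL62 n ι B W V Eb Er (z ^ 2 * (B / 2) ^ 2 * ρ ^ 2 * (2 * (B / 2) * (B / 2)))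
      ((2 * z ^ 2 * (B / 2) ^ 2 * ρ * ρ4 + 16 * z * (B / 2) ^ 2 * ρ4) * (2 * (B / 2) * (B / 2))) (C3 * φ) (C4 * φ4) (C5 * φB)
      (z * (B / 2) * ρ * (2 * (B / 2) * (B / 2))) (B / 2 * (2 * (B / 2) * (B / 2)))
      ((2 * z * (B / 2) ^ 2 * ρ + 12 * (B / 2) ^ 2) * (B / 2 * (B / 2))) := by
  have hz1 : 1 ≤ z := by linarith
  have hz0 : 0 < z := by linarith
  have R := core62 hn hz h64 hB hBz hρ0 hρ1 hρ40 hρ41 gn gm hEb hEr hφ0 hφ hφ40 hφ4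
  have pw : ∀ k : ℕ, n ^ ((k : ℝ) * ι) = z ^ k := fun k => by rw [← hz]; exact pow62 (by linarith) k
  have e40 : n ^ (40 * ι) = z ^ 40 := by
    rw [← pw 40]
    norm_num
  have e14 : n ^ (14 * ι) = z ^ 14 := by
    rw [← pw 14]
    norm_num
  have e3 : n ^ (3 * ι) = z ^ 3 := by
    rw [← pw 3]
    norm_num
  have e4 : n ^ (4 * ι) = z ^ 4 := by
    rw [← pw 4]
    norm_num
  have e5 : n ^ (5 * ι) = z ^ 5 := by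
    rw [← pw 5]
    norm_num
  have B3 : B ^ 3 ≤ z ^ 3 := pow_le_pow_left₀ hB hBz 3
  have B4 : B ^ 4 ≤ z ^ 4 := pow_le_pow_left₀ hB hBz 4
  have up : ∀ {k l : ℕ}, k ≤ l → z ^ k ≤ z ^ l := fun h => pow_le_pow_right₀ hz1 h
  have hV0 : 0 ≤ V := by
    have hV : 0 ≤ z ^ 9 * V := (sq_nonneg _).trans gm
    by_contra hV1
    have h1 : z ^ 9 * V < 0 := mul_neg_of_pos_of_neg (by positivity) (not_le.1 hV1)
    linarith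
  have k3 := k3_62 h64 hB hBz hρ0 hρ1 hρ40 gm
  have r2 : ρ ^ 2 ≤ 1 := pow_le_one₀ hρ0 hρ1
  have t1 : z ^ 2 * (B / 2) ^ 2 * ρ ^ 2 * (2 * (B / 2) * (B / 2)) ≤ z ^ 6 := by
    calc z ^ 2 * (B / 2) ^ 2 * ρ ^ 2 * (2 * (B / 2) * (B / 2)) = z ^ 2 * B ^ 4 * ρ ^ 2 / 8 := by ring
      _ ≤ z ^ 2 * z ^ 4 * 1 / 8 := by gcongr
      _ ≤ z ^ 6 := by
          have : 0 ≤ z ^ 6 := by positivity
          have e : z ^ 2 * z ^ 4 * 1 / 8 = z ^ 6 / 8 := by ring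
          linarith
  have t2 : (2 * z ^ 2 * (B / 2) ^ 2 * ρ * ρ4 + 16 * z * (B / 2) ^ 2 * ρ4) * (2 * (B / 2) * (B / 2)) ≤ z ^ 6 := by
    calc _ = z ^ 2 * B ^ 4 * (ρ * ρ4) / 4 + 2 * (z * B ^ 4 * ρ4) := by ring
      _ ≤ z ^ 2 * z ^ 4 * 1 / 4 + 2 * (z * z ^ 4 * 1) := by
          have : ρ * ρ4 ≤ 1 := mul_le_one₀ hρ1 hρ40 hρ41
          gcongr
      _ ≤ z ^ 6 := by
          have h1 : z ^ 5 * 64 ≤ z ^ 5 * z := mul_le_mul_of_nonneg_left h64 (by positivity)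
          have e : z ^ 2 * z ^ 4 * 1 / 4 = z ^ 6 / 4 := by ring
          have e' : z * z ^ 4 * 1 = z ^ 5 := by ring
          have e'' : z ^ 5 * z = z ^ 6 := by ring
          have : 0 ≤ z ^ 6 := by positivity
          linarith
  have t3 : C3 * φ ≤ z ^ 13 := by
    calc _ ≤ z ^ 5 * z ^ 8 := mul_le_mul h3 (hφ.trans (div_le_self (by positivity) hEb)) hφ0 (by positivity)
      _ = z ^ 13 := by ring
  have t4 : C4 * φ4 ≤ z ^ 13 := by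
    calc _ ≤ z ^ 5 * z ^ 8 := mul_le_mul h4 (hφ4.trans (div_le_self (by positivity) hEr)) hφ40 (by positivity)
      _ = z ^ 13 := by ring
  have t5 : C5 * φB ≤ z ^ 13 := by
    calc _ ≤ z ^ 5 * z ^ 8 :=
          mul_le_mul h5 (hφB.trans (div_le_self (by positivity) (one_le_pow₀ hEb))) hφB0 (by positivity)
      _ = z ^ 13 := by ring
  have u1 : z * (B / 2) * ρ * (2 * (B / 2) * (B / 2)) ≤ z ^ 4 := by
    calc z * (B / 2) * ρ * (2 * (B / 2) * (B / 2)) = z * B ^ 3 * ρ / 4 := by ring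
      _ ≤ z * z ^ 3 * 1 / 4 := by gcongr
      _ ≤ z ^ 4 := by
          have : 0 ≤ z ^ 4 := by positivity
          have e : z * z ^ 3 * 1 / 4 = z ^ 4 / 4 := by ring
          linarith
  have u2 : B / 2 * (2 * (B / 2) * (B / 2)) ≤ z ^ 3 := by
    calc B / 2 * (2 * (B / 2) * (B / 2)) = B ^ 3 / 4 := by ring
      _ ≤ z ^ 3 := by
          have : 0 ≤ B ^ 3 := by positivity
          linarith
  have u3 : (2 * z * (B / 2) ^ 2 * ρ + 12 * (B / 2) ^ 2) * (B / 2 * (B / 2)) ≤ z ^ 5 := by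
    have h1 := R.q3
    calc _ = z * B ^ 4 * ρ / 8 + 3 * B ^ 4 / 4 := by ring
      _ ≤ z * z ^ 4 * 1 / 8 + 3 * z ^ 4 / 4 := by gcongr
      _ ≤ z ^ 5 := by
          have h1 : z ^ 4 * 64 ≤ z ^ 4 * z := mul_le_mul_of_nonneg_left h64 (by positivity)
          have e : z * z ^ 4 * 1 / 8 = z ^ 5 / 8 := by ring
          have e'' : z ^ 4 * z = z ^ 5 := by ring
          have : 0 ≤ z ^ 5 := by positivity
          linarith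
  have p2 : 0 ≤ (2 * z ^ 2 * (B / 2) ^ 2 * ρ * ρ4 + 16 * z * (B / 2) ^ 2 * ρ4) * (2 * (B / 2) * (B / 2)) := by positivity
  have mic : ∀ A : ℝ, 0 ≤ A → A ≤ z ^ 5 → ∀ k : ℕ, k ≤ 3 → ∀ C : ℝ, 0 ≤ C → C ≤ 1000 → (A * C * B ^ k * n ^ ι) ^ 2 ≤ n ^ (40 * ι) :=
    fun A hA hA5 k hk C hC hC1 => by
      rw [e40, hz]
      refine sq62 hz1 (k := 11) (by norm_num) (by positivity) ?_
      have b1 : B ^ k ≤ z ^ k := pow_le_pow_left₀ hB hBz k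
      have b2 : z ^ k ≤ z ^ 3 := up hk
      have b3 : C ≤ z ^ 2 := by
        have : (64 : ℝ) ^ 2 ≤ z ^ 2 := pow_le_pow_left₀ (by norm_num) h64 2
        linarith
      calc A * C * B ^ k * z ≤ z ^ 5 * z ^ 2 * z ^ 3 * z := by
            refine mul_le_mul_of_nonneg_right (mul_le_mul (mul_le_mul hA5 b3 hC (by positivity)) (b1.trans b2) (by positivity)
              (by positivity)) hz0.le
        _ = z ^ 11 := by ring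
  refine ⟨R.p1, p2, mul_nonneg h30 hφ0, mul_nonneg h40 hφ40, mul_nonneg h50 hφB0, R.q1, R.q2, R.q3, R.c1, ?_, ?_, ?_, ?_,
    mic _ R.q1 (u1.trans (up (by norm_num))), mic _ R.q2 (u2.trans (up (by norm_num))), mic _ R.q3 u3, ?_, ?_, ?_, ?_, ?_, ?_⟩
  · rw [e40, hz]
    exact k3.trans (mul_le_mul_of_nonneg_right (up (by norm_num)) hV0)
  · rw [e40, hz]
    exact far62 hz1 hEb h30 (h3.trans (up (by norm_num))) hφ0 hφ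
  · rw [e40, hz]
    exact far62 hz1 hEr h40 (h4.trans (up (by norm_num))) hφ40 hφ4
  · rw [e40, hz]
    have h1 := far62 hz1 (one_le_pow₀ hEb (n := 2)) h50 (h5.trans (up (by norm_num))) hφB0 hφB
    rwa [← pow_mul] at h1
  · rw [e14]
    have h1 : z ^ 13 * 64 ≤ z ^ 13 * z := mul_le_mul_of_nonneg_left h64 (by positivity)
    have e : z ^ 13 * z = z ^ 14 := by ring
    have l1 := up (show 6 ≤ 13 by norm_num)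
    have : 0 ≤ z ^ 13 := by positivity
    linarith
  · rw [e4]
    exact u1
  · rw [e3]
    exact u2
  · rw [e5]
    exact u3
  · rw [hz]
    exact hBz
  · rw [hz]
    exact h64

/-- The coefficients of the near far lines of `e2L_P65`. -/
theorem cf_62 (hz : 64 ≤ z) (hB : 0 ≤ B) (hBz : B ≤ z) (hρ0 : 0 ≤ ρ) (hρ1 : ρ ≤ 1) {C D : ℝ} (hC0 : 0 ≤ C) (hC : C ≤ 100)
    (hD0 : 0 ≤ D) (hD : D ≤ 100) : 0 ≤ C * z * (B / 2) ^ 2 * ρ + D * (B / 2) ^ 2 ∧ C * z * (B / 2) ^ 2 * ρ + D * (B / 2) ^ 2 ≤ z ^ 4 := by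
  have hz0 : 0 < z := by linarith
  refine ⟨by positivity, ?_⟩
  have B2 : B ^ 2 ≤ z ^ 2 := pow_le_pow_left₀ hB hBz 2
  have h1 : C * z * (B / 2) ^ 2 * ρ ≤ 25 * z ^ 3 := by
    calc C * z * (B / 2) ^ 2 * ρ = C * z * B ^ 2 * ρ / 4 := by ring
      _ ≤ 100 * z * z ^ 2 * 1 / 4 := by gcongr
      _ = 25 * z ^ 3 := by ring
  have h2 : D * (B / 2) ^ 2 ≤ z ^ 3 := by
    calc D * (B / 2) ^ 2 = D * B ^ 2 / 4 := by ring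
      _ ≤ 100 * z ^ 2 / 4 := by gcongr
      _ ≤ z ^ 2 * 64 := by
          have : 0 ≤ z ^ 2 := by positivity
          linarith
      _ ≤ z ^ 2 * z := mul_le_mul_of_nonneg_left hz (by positivity)
      _ = z ^ 3 := by ring
  have h3 : z ^ 3 * 64 ≤ z ^ 3 * z := mul_le_mul_of_nonneg_left hz (by positivity)
  have e : z ^ 3 * z = z ^ 4 := by ring
  have : 0 ≤ z ^ 3 := by positivity
  linarith

end core

/-! ### At the concrete frame -/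

variable {μ : Measure ℝ} {s : ℝ}

/-- **THE COEFFICIENTS OF PART L AT THE FRAME.** -/
theorem coL62 {K : ℕ} {θ0 K0 ι β : ℝ} {m p q : ℕ} (X : Bx43 μ s K θ0 K0 ι β m p q) (hβ : β ≤ ι)
    (h64 : 64 ≤ ((2 ^ m : ℕ) : ℝ) ^ ι) {φ φ4 φB C3 C4 C5 Eb Er : ℝ} (hEb : 1 ≤ Eb) (hEr : 1 ≤ Er) (hφ0 : 0 ≤ φ)
    (hφ : φ ≤ ((2 ^ m : ℕ) : ℝ) ^ (8 * ι) / Eb) (hφ40 : 0 ≤ φ4) (hφ4 : φ4 ≤ ((2 ^ m : ℕ) : ℝ) ^ (8 * ι) / Er) (hφB0 : 0 ≤ φB)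
    (hφB : φB ≤ ((2 ^ m : ℕ) : ℝ) ^ (8 * ι) / Eb ^ 2) {ρ ρ4 z B : ℝ}
    (hz : ((2 ^ m : ℕ) : ℝ) ^ ι = z) (hB : B33 β m = B) (h30 : 0 ≤ C3) (h3 : C3 ≤ z ^ 5) (h40 : 0 ≤ C4) (h4 : C4 ≤ z ^ 5) (h50 : 0 ≤ C5)
    (h5 : C5 ≤ z ^ 5)
    (hρ : √(21 * rW43 μ s (L33 K m) (ι / K) K0 (2 * 2 ^ p) / ((2 ^ p / 8 : ℕ) : ℝ)) = ρ)
    (hρ4 : √(21 * rW43 μ s (L33 K m) (ι / K) K0 (2 ^ q) / gl46 ι m q) = ρ4) :
    CoL62 ((2 ^ m : ℕ) : ℝ) ι B (wd μ s (2 ^ p) / ((2 ^ p : ℕ) : ℝ)) (wd μ s (2 ^ q) / ((2 ^ q : ℕ) : ℝ)) Eb Er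
      (z ^ 2 * (B / 2) ^ 2 * ρ ^ 2 * (2 * (B / 2) * (B / 2)))
      ((2 * z ^ 2 * (B / 2) ^ 2 * ρ * ρ4 + 16 * z * (B / 2) ^ 2 * ρ4) * (2 * (B / 2) * (B / 2))) (C3 * φ) (C4 * φ4) (C5 * φB)
      (z * (B / 2) * ρ * (2 * (B / 2) * (B / 2))) (B / 2 * (2 * (B / 2) * (B / 2)))
      ((2 * z * (B / 2) ^ 2 * ρ + 12 * (B / 2) ^ 2) * (B / 2 * (B / 2))) := by
  have hn : (1 : ℝ) ≤ ((2 ^ m : ℕ) : ℝ) := by exact_mod_cast Nat.one_le_two_pow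
  have hn0 : (0 : ℝ) ≤ ((2 ^ m : ℕ) : ℝ) := by linarith
  have e8 : ((2 ^ m : ℕ) : ℝ) ^ (8 * ι) = z ^ 8 := by
    rw [← hz, ← pow62 hn0 8]
    norm_num
  have e9 : ((2 ^ m : ℕ) : ℝ) ^ (9 * ι) = z ^ 9 := by
    rw [← hz, ← pow62 hn0 9]
    norm_num
  have hB0 : 0 ≤ B := by
    rw [← hB]
    unfold B33
    exact Real.rpow_nonneg hn0 _
  have hBz : B ≤ z := by
    rw [← hB, ← hz]
    unfold B33
    exact Real.rpow_le_rpow_of_exponent_le hn hβ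
  have gn := X.gn
  have gm := X.gm
  rw [hB, hz, hρ, e9] at gn
  rw [hB, hz, hρ4, e9] at gm
  rw [e8] at hφ hφ4 hφB
  rw [hz] at h64
  have one : ∀ {x : ℝ} {k : ℕ}, 1 ≤ x → 21 * x ≤ k → √(21 * x / (k : ℝ)) ≤ 1 := fun {x k} h1 h2 => by
    rw [Real.sqrt_le_one]
    have hk : (0 : ℝ) < k := by linarith
    rw [div_le_one hk]
    exact h2
  exact coreL62 hn hz h64 hB0 hBz (hρ ▸ Real.sqrt_nonneg _) (hρ ▸ one X.near.one X.near.le) (hρ4 ▸ Real.sqrt_nonneg _)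
    (hρ4 ▸ one X.mac.one X.mac.le) gn gm hEb hEr hφ0 hφ hφ40 hφ4 hφB0 hφB h30 h3 h40 h4 h50 h5

end

end Pool.Agent.W_7d29a1_C0.NumR62
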