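import Pool.Agent.W_7d29a1_C0.E2AS43
import Pool.Agent.W_7d29a1_C0.NumL62

/-!
MP_7d29a1_pr, [CURV0] (helper43), section E2: THE NUMBERS OF PART L. `numL43`: the errors; `Cf43`, `cf43`: the coefficients of the list of
part L in the form of `decL39`, from `CoL62`; `phB43`: the factor of the bare line.
-/

set_option autoImplicit false
set_option linter.unusedSectionVars false
set_option linter.unusedVariables false

namespace Pool.Agent.W_7d29a1_C0.E2LN43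

open Finset MeasureTheory Filter Topology
open Pool.Agent.W_7d29a1_H (sl EE one_le_EE)
open Pool.Agent.W_7d29a1_HZ (wd' EE')
open Pool.Agent.W_7d29a1_C0
open Pool.Agent.W_7d29a1_C0.EstC46
open Pool.Agent.W_7d29a1_C0.NumR62 (pow62 CoL62)

noncomputable section

/-- **The errors of part L.** -/
theorem numL43 {n z B ρ D S1 b5 al ℓ ℓ9 N1 Nn erN ex eM e1 e2 e3 : ℝ} (hz1 : 64 ≤ z) (hzn : z ^ 22 ≤ n) (hB : 0 ≤ B)
    (hBz : B ≤ z) (hρ0 : 0 ≤ ρ) (hρ1 : ρ ≤ 1) (hD0 : 0 ≤ D) (hD : D ≤ n ^ 3) (hS0 : 0 ≤ S1) (hS : S1 ≤ z ^ 20) (hb0 : 0 ≤ b5)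
    (hb5 : b5 ≤ n) (hal0 : 0 ≤ al) (hal : al ≤ n) (hℓ : 0 ≤ ℓ) (h9 : ℓ9 ≤ ℓ) (h90 : 0 ≤ ℓ9) (hN : N1 ^ 6 * ex ≤ ℓ) (hN1 : 1 ≤ N1)
    (hex : 0 ≤ ex) (hM : eM ≤ ℓ) (hM0 : 0 ≤ eM) (h6 : Nn ^ 2 * erN ≤ ℓ) (h60 : 0 ≤ Nn ^ 2 * erN) (her : erN ≤ ℓ) (her0 : 0 ≤ erN)
    (hJ1 : e1 ≤ n ^ 20 * ℓ) (hJ2 : e2 ≤ n ^ 20 * ℓ) (hJ3 : e3 ≤ n ^ 20 * ℓ) (hs : n ^ 60 * ℓ ≤ 1 / 16) :
    S1 * (6 * Nn ^ 2 * erN + 2 * (2 * D * (n ^ 5)⁻¹)) +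
      (z * (B / 2) ^ 2 * ρ * (5 * (2 * (B / 2) * (B / 2) * (4 * D * ℓ9))) + (B / 2) ^ 2 * (66 * (2 * (B / 2) * (B / 2) * (4 * D * ℓ9))) +
        (2 * z * (B / 2) ^ 2 * ρ + 8 * (B / 2) ^ 2) * (2 * (B / 2) * (B / 2) * (36 * D * ℓ9)) +
        12 * (B / 2) ^ 2 * (2 * (B / 2) * (B / 2) * (96 * D * ℓ9)) + N1 ^ 5 * (768 * ((B / 2) ^ 4 * D) * N1 * ex)) +
      b5 * erN + (al * (2 * D * eM) + e1 + e2 + e3) ≤ 1 / (16 * n) := by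
  have hz0 : 0 ≤ z := by linarith
  have hz1' : 1 ≤ z := by linarith
  have hn64 : 64 ≤ n := by
    calc (64 : ℝ) ≤ z := hz1
      _ ≤ z ^ 22 := le_self_pow₀ hz1' (by norm_num)
      _ ≤ n := hzn
  have hn0 : 0 < n := by linarith
  have hB4 : B ^ 4 ≤ n := by
    calc B ^ 4 ≤ z ^ 4 := pow_le_pow_left₀ hB hBz 4
      _ ≤ z ^ 22 := pow_le_pow_right₀ hz1' (by norm_num)
      _ ≤ n := hzn
  have hzB : z * B ^ 4 ≤ n := by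
    calc z * B ^ 4 ≤ z * z ^ 4 := mul_le_mul_of_nonneg_left (pow_le_pow_left₀ hB hBz 4) hz0
      _ = z ^ 5 := by ring
      _ ≤ z ^ 22 := pow_le_pow_right₀ hz1' (by norm_num)
      _ ≤ n := hzn
  have hS1 : S1 ≤ n := hS.trans ((pow_le_pow_right₀ hz1' (by norm_num)).trans hzn)
  have hDl : D * ℓ9 ≤ n ^ 3 * ℓ := mul_le_mul hD h9 h90 (by positivity)
  have hB40 : 0 ≤ B ^ 4 := by positivity
  have h4 : n ^ 4 * ℓ = n * (n ^ 3 * ℓ) := by ring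
  have hP : 0 ≤ n ^ 4 * ℓ := by positivity
  have hzr : z * B ^ 4 * ρ ≤ n := by
    calc z * B ^ 4 * ρ ≤ n * 1 := mul_le_mul hzB hρ1 hρ0 hn0.le
      _ = n := mul_one _
  have a1 : (z * B ^ 4 * ρ) * (D * ℓ9) ≤ n ^ 4 * ℓ := by
    rw [h4]
    exact mul_le_mul hzr hDl (by positivity) hn0.le
  have a2 : B ^ 4 * (D * ℓ9) ≤ n ^ 4 * ℓ := by
    rw [h4]
    exact mul_le_mul hB4 hDl (by positivity) hn0.le
  have hDN : D * (N1 ^ 6 * ex) ≤ n ^ 3 * ℓ := mul_le_mul hD hN (by positivity) (by positivity)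
  have a3 : B ^ 4 * (D * (N1 ^ 6 * ex)) ≤ n ^ 4 * ℓ := by
    rw [h4]
    exact mul_le_mul hB4 hDN (by positivity) hn0.le
  have t0 : S1 * (6 * Nn ^ 2 * erN) ≤ 6 * (n ^ 4 * ℓ) := by
    have e : S1 * (6 * Nn ^ 2 * erN) = 6 * (S1 * (Nn ^ 2 * erN)) := by ring
    rw [e]
    refine mul_le_mul_of_nonneg_left ?_ (by norm_num)
    calc S1 * (Nn ^ 2 * erN) ≤ n * ℓ := mul_le_mul hS1 h6 h60 hn0.le
      _ ≤ n ^ 4 * ℓ := mul_le_mul_of_nonneg_right (le_self_pow₀ (by linarith) (by norm_num)) hℓ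
  have t1 : b5 * erN ≤ n ^ 4 * ℓ := by
    calc b5 * erN ≤ n * ℓ := mul_le_mul hb5 her her0 hn0.le
      _ ≤ n ^ 4 * ℓ := mul_le_mul_of_nonneg_right (le_self_pow₀ (by linarith) (by norm_num)) hℓ
  have t2 : al * (2 * D * eM) ≤ 2 * (n ^ 4 * ℓ) := by
    have e : al * (2 * D * eM) = 2 * (al * (D * eM)) := by ring
    rw [e, h4]
    exact mul_le_mul_of_nonneg_left (mul_le_mul hal (mul_le_mul hD hM hM0 (by positivity)) (by positivity) hn0.le) (by norm_num)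
  have er1 : z * (B / 2) ^ 2 * ρ * (5 * (2 * (B / 2) * (B / 2) * (4 * D * ℓ9))) +
      (B / 2) ^ 2 * (66 * (2 * (B / 2) * (B / 2) * (4 * D * ℓ9))) +
      (2 * z * (B / 2) ^ 2 * ρ + 8 * (B / 2) ^ 2) * (2 * (B / 2) * (B / 2) * (36 * D * ℓ9)) +
      12 * (B / 2) ^ 2 * (2 * (B / 2) * (B / 2) * (96 * D * ℓ9)) + N1 ^ 5 * (768 * ((B / 2) ^ 4 * D) * N1 * ex) =
      23 / 2 * ((z * B ^ 4 * ρ) * (D * ℓ9)) + 213 * (B ^ 4 * (D * ℓ9)) + 48 * (B ^ 4 * (D * (N1 ^ 6 * ex))) := by ring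
  have hP20 : n ^ 4 * ℓ ≤ n ^ 20 * ℓ := mul_le_mul_of_nonneg_right (pow_le_pow_right₀ (by linarith) (by norm_num)) hℓ
  have hP0 : 0 ≤ n ^ 20 * ℓ := by positivity
  have t7 : 300 * (n ^ 20 * ℓ) ≤ n ^ 50 * ℓ := by
    have e1 : (300 : ℝ) ≤ n ^ 2 := by nlinarith
    calc 300 * (n ^ 20 * ℓ) ≤ n ^ 2 * (n ^ 20 * ℓ) := mul_le_mul_of_nonneg_right e1 hP0
      _ = n ^ 22 * ℓ := by ring
      _ ≤ n ^ 50 * ℓ := mul_le_mul_of_nonneg_right (pow_le_pow_right₀ (by linarith) (by norm_num)) hℓ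
  have t8 : n ^ 50 * ℓ ≤ 1 / (32 * n) := by
    rw [le_div_iff₀ (by positivity)]
    have e1 : (2 : ℝ) ≤ n ^ 9 := (by linarith : (2 : ℝ) ≤ n).trans (le_self_pow₀ (by linarith) (by norm_num))
    have e3 : n ^ 50 * ℓ * (32 * n) * n ^ 9 = 32 * (n ^ 60 * ℓ) := by ring
    obtain ⟨A, hA⟩ : ∃ A : ℝ, A = n ^ 50 * ℓ * (32 * n) := ⟨_, rfl⟩
    have hA0 : 0 ≤ A := by
      rw [hA]
      exact mul_nonneg (mul_nonneg (pow_nonneg hn0.le 50) hℓ) (mul_nonneg (by norm_num) hn0.le)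
    rw [← hA] at e3 ⊢
    have e2 : A * 2 ≤ A * n ^ 9 := mul_le_mul_of_nonneg_left e1 hA0
    linarith
  have t9 : S1 * (2 * (2 * D * (n ^ 5)⁻¹)) ≤ 1 / (32 * n) := by
    have e1 : S1 * (2 * (2 * D * (n ^ 5)⁻¹)) ≤ z ^ 20 * (2 * (2 * n ^ 3 * (n ^ 5)⁻¹)) := by gcongr
    have e2 : z ^ 20 * (2 * (2 * n ^ 3 * (n ^ 5)⁻¹)) = 4 * z ^ 20 / (n * n) := by
      field_simp
      norm_num
    rw [e2] at e1
    refine e1.trans ?_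
    rw [div_le_div_iff₀ (by positivity) (by positivity)]
    have e3 : (128 : ℝ) ≤ z ^ 2 := by nlinarith
    have e4 : z ^ 20 * 128 ≤ z ^ 20 * z ^ 2 := mul_le_mul_of_nonneg_left e3 (by positivity)
    have e5 : z ^ 20 * z ^ 2 = z ^ 22 := by ring
    have e6 : z ^ 20 * 128 ≤ n := by linarith
    have e7 := mul_le_mul_of_nonneg_right e6 hn0.le
    linarith
  have hd : S1 * (6 * Nn ^ 2 * erN + 2 * (2 * D * (n ^ 5)⁻¹)) = S1 * (6 * Nn ^ 2 * erN) + S1 * (2 * (2 * D * (n ^ 5)⁻¹)) := by ring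
  have h32 : 1 / (16 * n) = 1 / (32 * n) + 1 / (32 * n) := by
    field_simp
    norm_num
  rw [er1, hd, h32]
  linarith

/-! ### The coefficients -/

/-- **The coefficients of the list of part L**, in the form of `decL39`. -/
structure Cf43 (n ι B A1 A2 A3 : ℝ) : Prop where
  d1 : (2 * A1 * 2 * B * n ^ ι) ^ 2 ≤ n ^ (40 * ι)
  d2 : (2 * A1 * 1 * B * n ^ ι) ^ 2 ≤ n ^ (40 * ι)
  d3 : (2 * A2 * 16 * B * n ^ ι) ^ 2 ≤ n ^ (40 * ι)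
  d4 : (2 * A2 * 20 * B * n ^ ι) ^ 2 ≤ n ^ (40 * ι)
  d5 : (2 * (3 * A1) * B * n ^ ι) ^ 2 ≤ n ^ (40 * ι)
  d6 : (2 * (36 * A2) * B * n ^ ι) ^ 2 ≤ n ^ (40 * ι)
  d7 : (2 * (2 * A2) * B * n ^ ι) ^ 2 ≤ n ^ (40 * ι)
  d8 : (2 * (B / 2) * (3 * A1 + 36 * A2) * n ^ ι) ^ 2 ≤ n ^ (40 * ι)
  d9 : (2 * (B / 2) * (2 * A2) * n ^ ι) ^ 2 ≤ n ^ (40 * ι)
  dD : (4 * A3 * n ^ ι) ^ 2 ≤ n ^ (40 * ι)
  j1 : (((A1 * (2 + 1) + A2 * (16 + 20)) * B + 2 * A3) * n ^ ι) ^ 2 ≤ n ^ (40 * ι)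
  j2 : ((3 * A1 + 36 * A2) * B * n ^ ι) ^ 2 ≤ n ^ (40 * ι)
  j3 : (2 * A2 * B * n ^ ι) ^ 2 ≤ n ^ (40 * ι)

theorem cf43 {n ι B W V Eb Er b1 b2 b3 b4 b5 A1 A2 A3 : ℝ} (C : CoL62 n ι B W V Eb Er b1 b2 b3 b4 b5 A1 A2 A3) :
    Cf43 n ι B A1 A2 A3 := by
  obtain ⟨T, hT⟩ : ∃ T : ℝ, T = n ^ (40 * ι) := ⟨_, rfl⟩
  have d1 := C.d1
  have d2 := C.d2
  have d3 := C.d3
  rw [← hT] at d1 d2 d3
  have two : ∀ x y : ℝ, (2 * x) ^ 2 ≤ T → (2 * y) ^ 2 ≤ T → (x + y) ^ 2 ≤ T := fun x y h1 h2 => by nlinarith [sq_nonneg (x - y)]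
  have three : ∀ x y w : ℝ, (3 * x) ^ 2 ≤ T → (3 * y) ^ 2 ≤ T → (3 * w) ^ 2 ≤ T → (x + y + w) ^ 2 ≤ T := fun x y w h1 h2 h3 => by
    nlinarith [sq_nonneg (x - y), sq_nonneg (y - w), sq_nonneg (x - w)]
  refine ⟨?_, ?_, ?_, ?_, ?_, ?_, ?_, ?_, ?_, ?_, ?_, ?_, ?_⟩ <;> rw [← hT]
  · refine le_of_eq_of_le ?_ (d1 1 (by norm_num) 4 (by norm_num) (by norm_num))
    ring
  · refine le_of_eq_of_le ?_ (d1 1 (by norm_num) 2 (by norm_num) (by norm_num))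
    ring
  · refine le_of_eq_of_le ?_ (d2 1 (by norm_num) 32 (by norm_num) (by norm_num))
    ring
  · refine le_of_eq_of_le ?_ (d2 1 (by norm_num) 40 (by norm_num) (by norm_num))
    ring
  · refine le_of_eq_of_le ?_ (d1 1 (by norm_num) 6 (by norm_num) (by norm_num))
    ring
  · refine le_of_eq_of_le ?_ (d2 1 (by norm_num) 72 (by norm_num) (by norm_num))
    ring
  · refine le_of_eq_of_le ?_ (d2 1 (by norm_num) 4 (by norm_num) (by norm_num))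
    ring
  · refine le_of_eq_of_le ?_ (two (A1 * 3 * B * n ^ ι) (A2 * 36 * B * n ^ ι)
      (le_of_eq_of_le ?_ (d1 1 (by norm_num) 6 (by norm_num) (by norm_num)))
      (le_of_eq_of_le ?_ (d2 1 (by norm_num) 72 (by norm_num) (by norm_num))))
    · ring
    · ring
    · ring
  · refine le_of_eq_of_le ?_ (d2 1 (by norm_num) 2 (by norm_num) (by norm_num))
    ring
  · refine le_of_eq_of_le ?_ (d3 0 (by norm_num) 4 (by norm_num) (by norm_num))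
    ring
  · refine le_of_eq_of_le ?_ (three (A1 * 3 * B * n ^ ι) (A2 * 36 * B * n ^ ι) (A3 * 2 * n ^ ι)
      (le_of_eq_of_le ?_ (d1 1 (by norm_num) 9 (by norm_num) (by norm_num)))
      (le_of_eq_of_le ?_ (d2 1 (by norm_num) 108 (by norm_num) (by norm_num)))
      (le_of_eq_of_le ?_ (d3 0 (by norm_num) 6 (by norm_num) (by norm_num))))
    · ring
    · ring
    · ring
    · ring
  · refine le_of_eq_of_le ?_ (two (A1 * 3 * B * n ^ ι) (A2 * 36 * B * n ^ ι)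
      (le_of_eq_of_le ?_ (d1 1 (by norm_num) 6 (by norm_num) (by norm_num)))
      (le_of_eq_of_le ?_ (d2 1 (by norm_num) 72 (by norm_num) (by norm_num))))
    · ring
    · ring
    · ring
  · refine le_of_eq_of_le ?_ (d2 1 (by norm_num) 2 (by norm_num) (by norm_num))
    ring

/-- The sizes. -/
theorem sz43 {n ι B W V Eb Er b1 b2 b3 b4 b5 A1 A2 A3 z : ℝ} (hn : 0 ≤ n) (hz : n ^ ι = z) (hB : 0 ≤ B)
    (C : CoL62 n ι B W V Eb Er b1 b2 b3 b4 b5 A1 A2 A3) :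
    0 ≤ b1 + b2 + b3 + b4 + A1 * (2 + 1) + A2 * (16 + 20) + 3 * A1 + 36 * A2 + 2 * A2 + 2 * (B / 2) * (3 * A1 + 36 * A2) +
      2 * (B / 2) * (2 * A2) + A3 ∧
    b1 + b2 + b3 + b4 + A1 * (2 + 1) + A2 * (16 + 20) + 3 * A1 + 36 * A2 + 2 * A2 + 2 * (B / 2) * (3 * A1 + 36 * A2) +
      2 * (B / 2) * (2 * A2) + A3 ≤ z ^ 20 ∧ b5 ≤ z ^ 14 ∧ 4 * A3 * n ^ ι ≤ z ^ 20 := by
  have h64 := C.s64
  rw [hz] at h64
  have hz1 : 1 ≤ z := by linarith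
  have hz0 : 0 ≤ z := by linarith
  have p1 := C.p1
  have p2 := C.p2
  have p3 := C.p3
  have p4 := C.p4
  have p5 := C.p5
  have q1 := C.q1
  have q2 := C.q2
  have q3 := C.q3
  have s0 := C.s0
  have s1 := C.s1
  have s2 := C.s2
  have s3 := C.s3
  have sB := C.sB
  have pw : ∀ k : ℕ, n ^ ((k : ℝ) * ι) = z ^ k := fun k => by rw [← hz]; exact pow62 hn k
  have e14 : n ^ (14 * ι) = z ^ 14 := by
    rw [← pw 14]
    norm_num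
  have e3 : n ^ (3 * ι) = z ^ 3 := by
    rw [← pw 3]
    norm_num
  have e4 : n ^ (4 * ι) = z ^ 4 := by
    rw [← pw 4]
    norm_num
  have e5 : n ^ (5 * ι) = z ^ 5 := by
    rw [← pw 5]
    norm_num
  rw [e14] at s0
  rw [e4] at s1
  rw [e3] at s2
  rw [e5] at s3
  rw [hz] at sB
  have up : ∀ {k l : ℕ}, k ≤ l → z ^ k ≤ z ^ l := fun h => pow_le_pow_right₀ hz1 h
  have u3 := up (show 3 ≤ 14 by norm_num)
  have u4 := up (show 4 ≤ 14 by norm_num)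
  have u5 := up (show 5 ≤ 14 by norm_num)
  have b1' : B * A1 ≤ z ^ 5 := by
    calc B * A1 ≤ z * z ^ 4 := mul_le_mul sB s1 q1 hz0
      _ = z ^ 5 := by ring
  have b2' : B * A2 ≤ z ^ 4 := by
    calc B * A2 ≤ z * z ^ 3 := mul_le_mul sB s2 q2 hz0
      _ = z ^ 4 := by ring
  have n1 : 0 ≤ B * A1 := mul_nonneg hB q1
  have n2 : 0 ≤ B * A2 := mul_nonneg hB q2
  have e16 : 128 * z ^ 14 ≤ z ^ 16 := by
    have h1 : (128 : ℝ) ≤ z ^ 2 := by nlinarith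
    calc 128 * z ^ 14 ≤ z ^ 2 * z ^ 14 := mul_le_mul_of_nonneg_right h1 (by positivity)
      _ = z ^ 16 := by ring
  have u20 := up (show 16 ≤ 20 by norm_num)
  have h14 : 0 ≤ z ^ 14 := by positivity
  have hsum : b1 + b2 + b3 + b4 + A1 * (2 + 1) + A2 * (16 + 20) + 3 * A1 + 36 * A2 + 2 * A2 + 2 * (B / 2) * (3 * A1 + 36 * A2) +
      2 * (B / 2) * (2 * A2) + A3 = b1 + b2 + b3 + b4 + 6 * A1 + 74 * A2 + 3 * (B * A1) + 38 * (B * A2) + A3 := by ring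
  rw [hsum]
  refine ⟨by positivity, ?_, by linarith, ?_⟩
  · linarith
  · rw [hz]
    calc 4 * A3 * z ≤ z * z ^ 5 * z := by
          refine mul_le_mul_of_nonneg_right (mul_le_mul (by linarith) s3 q3 hz0) hz0
      _ = z ^ 7 := by ring
      _ ≤ z ^ 20 := up (by norm_num)

/-! ### The factor of the bare line -/

/-- **The factor of the bare line.** -/
theorem phB43 {μ : Measure ℝ} {s : ℝ} [IsProbabilityMeasure μ] {n ι B : ℝ} (hn : 1 ≤ n) (h64 : 64 ≤ n ^ ι) (hι : 0 < ι) (hB0 : 0 ≤ B)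
    (hB : B ≤ n ^ ι) (b : ℕ) : 0 ≤ 2 * (B / 2) * (B / 2) * (n ^ ι * (EE' μ s b)⁻¹) ^ 2 ∧
      2 * (B / 2) * (B / 2) * (n ^ ι * (EE' μ s b)⁻¹) ^ 2 ≤ n ^ (8 * ι) / EE μ s b ^ 2 := by
  obtain ⟨z, hz⟩ : ∃ z : ℝ, z = n ^ ι := ⟨_, rfl⟩
  have e8 : n ^ (8 * ι) = z ^ 8 := by
    rw [hz, ← pow62 (by linarith) 8]
    norm_num
  rw [← hz] at h64 hB ⊢
  have hE : 0 < EE μ s b := lt_of_lt_of_le one_pos (one_le_EE b)
  rw [e8, EE'_eq46]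
  refine ⟨by positivity, ?_⟩
  have e1 : 2 * (B / 2) * (B / 2) * (z * (EE μ s b)⁻¹) ^ 2 = B ^ 2 / 2 * z ^ 2 / EE μ s b ^ 2 := by
    field_simp
  rw [e1]
  refine div_le_div_of_nonneg_right ?_ (by positivity)
  have hB2 : B ^ 2 ≤ z ^ 2 := pow_le_pow_left₀ hB0 hB 2
  have h1 : z ^ 2 * z ^ 2 = z ^ 4 := by ring
  have h2 : z ^ 4 ≤ z ^ 8 := pow_le_pow_right₀ (by linarith) (by norm_num)
  calc B ^ 2 / 2 * z ^ 2 ≤ z ^ 2 * z ^ 2 := mul_le_mul_of_nonneg_right (by nlinarith [sq_nonneg z]) (by positivity)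
    _ ≤ z ^ 8 := by rw [h1]; exact h2

end

end Pool.Agent.W_7d29a1_C0.E2LN43
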