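import Pool.Agent.W_7d29a1_C0.E2LS43

/-!
MP_7d29a1_pr, [CURV0] (helper43), section E2: PART L AT THE CONCRETE FRAME. `StL43`: the constants and the slots of part L at one length;
`partL43`: the list of part L for all blocks and all spectators; `e2SmlM43`: the field `e2` of the last composition, from the constants and the
slots of both parts in the form `EstM`.
-/

set_option autoImplicit false
set_option linter.unusedSectionVars false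
set_option linter.unusedVariables false

namespace Pool.Agent.W_7d29a1_C0.E2LP43

open Finset MeasureTheory Filter Topology
open Pool.Agent.W_7d29a1_F Pool.Agent.W_7d29a1_X
open Pool.Agent.W_7d29a1_H (sl EE one_le_EE)
open Pool.Agent.W_7d29a1_HS (In wd)
open Pool.Agent.W_7d29a1_C0 Pool.Agent.W_7d29a1_C0.Mod92 Pool.Agent.W_7d29a1_C0.Swap57 Pool.Agent.W_7d29a1_C0.NM82
open Pool.Agent.W_7d29a1_C0.Asm96 Pool.Agent.W_7d29a1_C0.EstC46 Pool.Agent.W_7d29a1_C0.Frm33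
open Pool.Agent.W_7d29a1_C0.H32
open Pool.Agent.W_7d29a1_C0.E2G43 Pool.Agent.W_7d29a1_C0.E2K43 Pool.Agent.W_7d29a1_C0.E2W43
open Pool.Agent.W_7d29a1_C0.E2FR43 Pool.Agent.W_7d29a1_C0.E2Z43
open Pool.Agent.W_7d29a1_C0.E2AS43 Pool.Agent.W_7d29a1_C0.E2AP43 Pool.Agent.W_7d29a1_C0.E2AE43
open Pool.Agent.W_7d29a1_C0.E2LT43 Pool.Agent.W_7d29a1_C0.E2LS43
open Pool.Agent.W_7d29a1_C0.E2KL45 (CstL45)
open Pool.Agent.W_7d29a1_C0.E2F34 (farP34_est)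
open Pool.Agent.W_7d29a1_C0.E2T96 (E2DecN)
open Pool.Agent.W_7d29a1_C0.E2S39 (rd39_est)
open Pool.Agent.W_7d29a1_C0.Par92 (Est Sml)
open Pool.Agent.W_7d29a1_C0.EstM45 (EstM EstM.mono EstM.est)
open Pool.W7d29a1.C0 Pool.W7d29a1.C0.VT31

noncomputable section

/-- **The constants and the slots of part L at one length.** -/
def StL43 (μ : Measure ℝ) (s : ℝ) (K : ℕ) (Θ δ c ι β γ : ℝ) (m : ℕ) : Prop := ∃ (εM εL κ M e : ℝ) (k : ℕ) (dl : ℝ),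
  Cst43 μ s K δ ι β γ m εM κ M e k ∧ CstL45 μ s K δ ι β γ m εL M ∧ TDL43 μ s K Θ δ c ι m M ∧ 0 < dl ∧ dl ≤ 1 ∧
    JTS43 μ s K Θ δ c ι β γ m M dl

variable {μ : Measure ℝ} [IsProbabilityMeasure μ] {s : ℝ}

/-- **PART L AT THE CONCRETE FRAME.** -/
theorem partL43 {c₁ C₁ : ℝ} {n₀ : ℕ} (h : In μ s c₁ C₁ n₀) {ff ff' : ℝ → ℝ} (hd : DenLaw μ ff ff')
    (hk : KapLe96 (EE μ s) (1 / 4)) {K : ℕ} (hK : 32 ≤ K) {Θ c₀ : ℝ} (hΘ : 0 < Θ) (hR : RegP46 μ s c₀ Θ) {δ c : ℝ} (hδ : 0 < δ)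
    (hc : 0 < c) (hcδ : c ≤ δ / 64) (hcΘ : c ≤ Θ / 8) (hT : Est fun ι β γ m => StL43 μ s K Θ δ c ι β γ m) :
    Est fun ι β γ m => PtL43 μ s K Θ δ c ι β γ m := by
  obtain ⟨Kg, θg, hs⟩ := hd.sg
  have hθg : 0 < θg := hs.2.2.1
  obtain ⟨a, hRd⟩ := rd39_est h hk hK hΘ hδ hc hcδ hcΘ hR (Q := 40) (by norm_num)
  obtain ⟨K0, hK0, hBx⟩ := bx43_est h (K := K) (by omega) hδ hc hcδ (θ0 := θg / 2) (by positivity) hR
  obtain ⟨a', ha'0, ha'1, hRe⟩ := hR.est hδ (k := 1 / 2) (by norm_num)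
  have hβ : Est fun ι β _ _ => β ≤ ι := Est.beta (Sml.of fun ι hι => Sml.le hι)
  have hpow : Est fun ι _ _ m => 64 ≤ ((2 ^ m : ℕ) : ℝ) ^ ι := ⟨1, one_pos, fun ι hι _ => Sml.of fun _ _ => Sml.of fun _ _ =>
    pow_ev96 hι 64⟩
  refine (((((hT.and hRd).and (hBx.and ((farall43_est h hK hδ).and (farP34_est h hK hδ)))).and ((hRe.and (glo43 hδ)).and
    ((tail43 (K := K) (by omega) Kg 6 (a := 1 / 2) (by norm_num)).and (Est.of_ev (err43 hK))))).and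
    ((hβ.and hpow).and (Est.iota (Sml.le (show (0 : ℝ) < 1 / 40 by norm_num)))))).mono
    fun ι β γ hι _ _ => Eventually.of_forall fun m hm => ?_
  obtain ⟨⟨⟨⟨⟨εM, εL, κ, M, e, k, dl, C, CL, hTD, hdl, hdl1, hJ⟩, h2⟩, h3, h4, h4a, h4b, h4c⟩, ⟨⟨h5, -⟩, h6⟩, h7, h8⟩, ⟨h9, h10⟩,
    h11⟩ := hm
  intro p q i hst hi D f hD hf hcv t ht
  obtain ⟨D', hD'0, hD'n, hf'⟩ := cls43 hf (n_ge1 m) hD
  obtain ⟨θv, -, hcv'⟩ := hcv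
  exact lstL43 hK C CL hd hs hTD hJ hdl hdl1 h4 h4a h4b h4c h5 hι h9 h11 h10 h6 h7 h8 hst hi (h3 p q hst)
    (h2 εM κ M e k C p q i hst hi) hf' hD'0 hD'n hcv' ht

/-- **THE FIELD `e2` OF THE LAST COMPOSITION FROM THE SLOTS OF BOTH PARTS**, one level for all the prices. -/
theorem e2SmlM43 {c₁ C₁ : ℝ} {n₀ : ℕ} (h : In μ s c₁ C₁ n₀) {ff ff' : ℝ → ℝ} (hd : DenLaw μ ff ff') (hk : KapLe96 (EE μ s) (1 / 4))
    {K : ℕ} (hK : 32 ≤ K) {Θ c₀ : ℝ} (hΘ : 0 < Θ) (hR : RegP46 μ s c₀ Θ)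
    (hS : ∀ δ c : ℝ, 0 < δ → δ ≤ 1 → 0 < c → c ≤ δ / 64 → c ≤ Θ / 8 → EstM fun ι εM β γ m =>
      (∃ κ e : ℝ, Cst43 μ s K δ ι β γ m εM κ (((L33 K m : ℕ) : ℝ) ^ εM) e ⌈10 * ((L33 K m : ℕ) : ℝ) ^ εM⌉₊) ∧
      CstL45 μ s K δ ι β γ m (εM / 2) (((L33 K m : ℕ) : ℝ) ^ εM) ∧
      TDS43 μ s K Θ δ c ι m (((L33 K m : ℕ) : ℝ) ^ εM) ∧ TDL43 μ s K Θ δ c ι m (((L33 K m : ℕ) : ℝ) ^ εM) ∧
      ∃ dl : ℝ, 0 < dl ∧ dl ≤ 1 ∧ JTS43 μ s K Θ δ c ι β γ m (((L33 K m : ℕ) : ℝ) ^ εM) dl) :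
    Sml fun δ => Sml fun c => ∃ x : ℝ, 0 < x ∧ Est fun ι β γ m => E2DecN μ s (frm33 μ s K ι β γ) (EE μ s) Θ δ c x m := by
  refine e2Sml43 h hd hk hK hΘ hR (fun δ c hδ hδ1 hc hcδ hcΘ => ?_) (fun δ c hδ hδ1 hc hcδ hcΘ => ?_)
  · refine (EstM.est (hS δ c hδ hδ1 hc hcδ hcΘ)).mono fun ι β γ _ _ _ => Eventually.of_forall fun m hm => ?_
    obtain ⟨εM, -, ⟨κ, e, C⟩, CL, hTR, hTL, dl, h1, h2, h3⟩ := hm
    exact ⟨εM, κ, _, e, _, C, hTR⟩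
  · refine partL43 h hd hk hK hΘ hR hδ hc hcδ hcΘ ?_
    refine (EstM.est (hS δ c hδ hδ1 hc hcδ hcΘ)).mono fun ι β γ _ _ _ => Eventually.of_forall fun m hm => ?_
    obtain ⟨εM, -, ⟨κ, e, C⟩, CL, hTR, hTL, dl, h1, h2, h3⟩ := hm
    exact ⟨εM, εM / 2, κ, _, e, _, dl, C, CL, hTL, h1, h2, h3⟩

end

end Pool.Agent.W_7d29a1_C0.E2LP43
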