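import Pool.Agent.W_7d29a1_C0.E2LM73
import Pool.Agent.W_7d29a1_C0.E2D96L

/-!
CURV0 (MP_7d29a1_pr), section E2, PART L: THE LIST OF helper96. `hvL73` = `e2L_N73` at the slabs of `G43` (`nL1`, `nL2`, `mc3`, `mc4`,
own window `[j - b, j - b / 2]`, outer tie `[d - gl, d]`, pin `d - 6 gl`) in the letters of `Dl96.rowL` (`lO`, `lG`, `lT`, `lL`, `lD`)
and of `CoL62` (helper62); `FarL73` = the far lines. (helper73)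
-/

set_option autoImplicit false
set_option linter.unusedSectionVars false

namespace Pool.Agent.W_7d29a1_C0.EL73

open Finset MeasureTheory Pool.Agent.W_7d29a1_F Pool.Agent.W_7d29a1_X Pool.Agent.W_7d29a1_H Pool.Agent.W_7d29a1_C0
open Pool.Agent.W_7d29a1_C0.H32
open Pool.Agent.W_7d29a1_C0.Mod92 Pool.Agent.W_7d29a1_C0.Blk18 Pool.Agent.W_7d29a1_C0.FP63 Pool.Agent.W_7d29a1_C0.Swap57
open Pool.Agent.W_7d29a1_C0.NM82 Pool.Agent.W_7d29a1_C0.CutF59 Pool.Agent.W_7d29a1_C0.CutG59 Pool.Agent.W_7d29a1_C0.E2Q59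
open Pool.Agent.W_7d29a1_C0.E2F59 Pool.Agent.W_7d29a1_C0.E2M59 Pool.Agent.W_7d29a1_C0.E2R59
open Pool.Agent.W_7d29a1_C0.FM63 Pool.Agent.W_7d29a1_C0.EM63 Pool.Agent.W_7d29a1_C0.FL65 Pool.Agent.W_7d29a1_C0.KL65
open Pool.Agent.W_7d29a1_C0.EL65
open Pool.Agent.W_7d29a1_C0.E1M82 (AvA)
open Pool.Agent.W_7d29a1_C0.E2G43 (nL1 nL2 mc3 mc4)
open Pool.Agent.W_7d29a1_C0.E2DL96 (lO lG lT lL lD eLO96 eLM96 eLQ96 eLL96 eLG96)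
open Pool.W7d29a1.C0

noncomputable section

section Def

variable (μ : Measure ℝ) (s : ℝ) (N : ℕ) (δ B : ℝ) (b0 b σ gl d j : ℕ) (t : ℝ) (f : Fam N) (y : ℕ) [Nonempty (Px (Pn N y))]

/-- **THE FAR LINES OF PART L**, `z` = the level, `ρ` = the gain of a near box. -/
def FarL73 {T : Type*} (kap : (Fin 3 → Px (Pn N y)) → T) (o om : T → Px (Pn N y) → ℝ) (z ρ : ℝ) : ℝ :=
  (z * (B / 2) ^ 2 * ρ * (∫ ω, Lfa μ s N δ B b0 (b / 2) b σ j (d - gl) d f t y kap o ω ∂(Pm μ N) +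
      ∫ ω, Lfb μ s N δ B b0 (b / 2) b σ j (d - gl) d f t y kap o ω ∂(Pm μ N) +
      3 * ∫ ω, Lfc μ s N δ B b0 (b / 2) b σ j (d - gl) d f t y kap o (mc3 gl d) ω ∂(Pm μ N)) +
    (B / 2) ^ 2 * (8 * ∫ ω, Lfa μ s N δ B b0 (b / 2) b σ j (d - gl) d f t y kap o ω ∂(Pm μ N) +
      20 * ∫ ω, Lfb μ s N δ B b0 (b / 2) b σ j (d - gl) d f t y kap o ω ∂(Pm μ N) +
      36 * ∫ ω, Lfc μ s N δ B b0 (b / 2) b σ j (d - gl) d f t y kap o (mc3 gl d) ω ∂(Pm μ N) +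
      2 * ∫ ω, Lfc μ s N δ B b0 (b / 2) b σ j (d - gl) d f t y kap o (mc4 gl d) ω ∂(Pm μ N))) +
  ((2 * z * (B / 2) ^ 2 * ρ + 8 * (B / 2) ^ 2) * ∫ ω, LFO μ s N δ B b0 (b / 2) b σ j (d - gl) d f t y kap om 1 ω ∂(Pm μ N) +
    12 * (B / 2) ^ 2 * ∫ ω, LFO μ s N δ B b0 (b / 2) b σ j (d - gl) d f t y kap om 3 ω ∂(Pm μ N))

end Def

/-- The arithmetic of the list. -/
theorem arL73 {V O P M2 M1 Q23 Q13 Q14 L3 L4 W T z M ρ ρ4 x : ℝ} (hx : ρ ^ 2 = x)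
    (H : V ≤ (z ^ 2 * M ^ 2 * x + 2 * z ^ 2 * M ^ 2 * (ρ * ρ4) + 16 * z * M ^ 2 * ρ4) * (2 * M * M) * O +
      (2 * z * M ^ 2 * ρ + 12 * M ^ 2) * (M * M * P) + z * M * ρ * (2 * M * M) * (M2 + 3 * (Q23 + 2 * M * L3)) +
      M * (2 * M * M) * (M1 + 36 * (Q13 + 2 * M * L3) + 2 * (Q14 + 2 * M * L4)) + W + T) :
    V ≤ (z ^ 2 * M ^ 2 * ρ ^ 2 * (2 * M * M) + (2 * z ^ 2 * M ^ 2 * ρ * ρ4 + 16 * z * M ^ 2 * ρ4) * (2 * M * M)) * O +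
      z * M * ρ * (2 * M * M) * M2 + M * (2 * M * M) * M1 + 3 * (z * M * ρ * (2 * M * M)) * Q23 + 36 * (M * (2 * M * M)) * Q13 +
      2 * (M * (2 * M * M)) * Q14 + 2 * M * (3 * (z * M * ρ * (2 * M * M)) + 36 * (M * (2 * M * M))) * L3 +
      2 * M * (2 * (M * (2 * M * M))) * L4 + (2 * z * M ^ 2 * ρ + 12 * M ^ 2) * (M * M) * P + (W + T) := by
  subst hx
  refine H.trans (le_of_eq ?_)
  ring

variable {μ : Measure ℝ} {s : ℝ} {N : ℕ} {δ B : ℝ} {b0 b σ gl j d e3 : ℕ} {c : ℕ} {D : ℝ} {f : Fam N} {y : ℕ} [Nonempty (Px (Pn N y))]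

section Row

variable {T : Type*} [Fintype T] [DecidableEq T] {kap : (Fin 3 → Px (Pn N y)) → T} {ke : T → ℤ} {χ χm : T → Pt → ℝ}
  {o om : T → Px (Pn N y) → ℝ} {R Rm : ℝ}

/-- **THE HYPOTHESIS `hV` OF `Dl96.rowL`.** -/
theorem hvL73 [IsProbabilityMeasure μ] {ff ff' : ℝ → ℝ} (hd : DenLaw μ ff ff') {K θ0 : ℝ} (hs : SG μ (sc ff ff') K θ0)
    (hB : 0 < B) (hf : Cls59 N c d D f)
    (X : LS65 N b0 (b / 2) b σ j (d - gl) d (j - b / 8) (d - 6 * gl) e3 (nL1 b j) (nL2 b j) (mc3 gl d) (mc4 gl d))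
    (Kk : Key65 (d - 6 * gl) (mc3 gl d) (mc4 gl d) kap ke) (Tn : TL65 N (nL1 b j ∪ nL2 b j) χ o R)
    (Tm : TL65 N (mc3 gl d ∪ mc4 gl d) χm om Rm) {n n4 : ℝ} (hR : 0 < R) (hRn : R ≤ n)
    (hn : 4 ≤ θ0 ^ 2 * (n * R)) (hRm : 0 < Rm) (hRm4 : Rm ≤ n4) (hn4 : 4 ≤ θ0 ^ 2 * (n4 * Rm)) (k1 : n ≤ (nL1 b j).card)
    (k2 : n ≤ (nL2 b j).card) (k3 : n4 ≤ (mc3 gl d).card) (k4 : n4 ≤ (mc4 gl d).card) {z : ℝ} (hz : 0 ≤ z) (t : ℝ) {ρ ρ4 : ℝ}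
    (hρ : Real.sqrt (R / n) = ρ) (hρ4 : Real.sqrt (Rm / n4) = ρ4) :
    |AvA N fun A => ∫ η, vL μ s N δ B b0 (b / 2) b σ j (d - gl) d f t y (η, A) ∂(law μ)| ≤
      (z ^ 2 * (B / 2) ^ 2 * ρ ^ 2 * (2 * (B / 2) * (B / 2)) +
          (2 * z ^ 2 * (B / 2) ^ 2 * ρ * ρ4 + 16 * z * (B / 2) ^ 2 * ρ4) * (2 * (B / 2) * (B / 2))) *
        lO μ s N y δ B b0 b σ gl d j t f +
      z * (B / 2) * ρ * (2 * (B / 2) * (B / 2)) * lG μ s N y δ B b0 b σ gl d j t f (nL2 b j) 2 1 +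
      B / 2 * (2 * (B / 2) * (B / 2)) * lG μ s N y δ B b0 b σ gl d j t f (nL1 b j) 16 20 +
      3 * (z * (B / 2) * ρ * (2 * (B / 2) * (B / 2))) * lT μ s N y δ B b0 b σ gl d j t f (mc3 gl d) (nL2 b j) +
      36 * (B / 2 * (2 * (B / 2) * (B / 2))) * lT μ s N y δ B b0 b σ gl d j t f (mc3 gl d) (nL1 b j) +
      2 * (B / 2 * (2 * (B / 2) * (B / 2))) * lT μ s N y δ B b0 b σ gl d j t f (mc4 gl d) (nL1 b j) +
      2 * (B / 2) * (3 * (z * (B / 2) * ρ * (2 * (B / 2) * (B / 2))) + 36 * (B / 2 * (2 * (B / 2) * (B / 2)))) *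
        lL μ s N y δ B b0 b σ gl d j t f (mc3 gl d) +
      2 * (B / 2) * (2 * (B / 2 * (2 * (B / 2) * (B / 2)))) * lL μ s N y δ B b0 b σ gl d j t f (mc4 gl d) +
      (2 * z * (B / 2) ^ 2 * ρ + 12 * (B / 2) ^ 2) * (B / 2 * (B / 2)) * lD μ s N y δ B b0 b σ gl d j t f +
      (FarL73 μ s N δ B b0 b σ gl d j t f y kap o om z ρ +
        (Fintype.card T : ℝ) * (768 * ((B / 2) ^ 4 * D) * ((N : ℝ) + 1) * Real.exp (4 * K - z / 2))) := by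
  have h := e2L_N73 (μ := μ) (s := s) (δ := δ) (y := y) hd hs hB hf X Kk Tn Tm hR hRn hn hRm hRm4 hn4 k1 k2 k3 k4 hz t
  rw [eLO96, eLG96, eLM96, eLM96, eLQ96, eLQ96, eLQ96, eLL96, eLL96, hρ, hρ4] at h
  have hn0 : 0 < n := hR.trans_le hRn
  have hρ2 : ρ ^ 2 = R / n := by rw [← hρ]; exact Real.sq_sqrt (by positivity)
  refine arL73 (x := R / n) hρ2 (h.trans (le_of_eq ?_))
  unfold FarL73
  ring

end Row

end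

end Pool.Agent.W_7d29a1_C0.EL73
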