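import Pool.Agent.W_7d29a1_C0.E2O34
import Pool.Agent.W_7d29a1_C0.E2LB65

/-!
MP_7d29a1_pr, [CURV0] / [C0], section E2 (helper34): **THE FAR LINES OF E2**, part 10: the rows of part L at the concrete frame, in the geometry
`G43` and the boxes `Bx43` of helper43, key `kapL` of helper65. `nearL43`: `Lfa`, `Lfb`, `Lfc` (near slabs `nL1`, `nL2`, key row `j - b / 2`);
`macL43`: `LFO` (macro slabs `mc3`, `mc4`, key row `d - 2 gl`).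
-/

set_option autoImplicit false
set_option linter.unusedSectionVars false
set_option linter.unusedVariables false

namespace Pool.Agent.W_7d29a1_C0.E2F34

open Finset MeasureTheory Filter Topology Pool.Agent.W_7d29a1_F Pool.Agent.W_7d29a1_X
open Pool.Agent.W_7d29a1_H (sl EE)
open Pool.Agent.W_7d29a1_HS (In)
open Pool.Agent.W_7d29a1_HZ (wd' EE')
open Pool.Agent.W_7d29a1_C0 Pool.Agent.W_7d29a1_C0.Mod92 Pool.Agent.W_7d29a1_C0.Swap57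
open Pool.Agent.W_7d29a1_C0.Asm96 Pool.Agent.W_7d29a1_C0.EstC46 Pool.Agent.W_7d29a1_C0.Frm33
open Pool.Agent.W_7d29a1_C0.E2G43 Pool.Agent.W_7d29a1_C0.E2K43 Pool.Agent.W_7d29a1_C0.E2W43 Pool.Agent.W_7d29a1_C0.E2FR43
open Pool.Agent.W_7d29a1_C0.Far34 (nfl nfl_nonneg Fl vv vv_nonneg i1 i1_nonneg)
open Pool.Agent.W_7d29a1_C0.MicE14 (rh rh_nonneg mi)
open Pool.Agent.W_7d29a1_C0.MicL14 (fa fb fc)
open Pool.Agent.W_7d29a1_C0.KL65 (FOk kapL TK)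
open Pool.Agent.W_7d29a1_C0.EL65 (LO Lfa Lfb Lfc LFO bdp_L65)
open Pool.Agent.W_7d29a1_C0.E1M82 (rk_cls)
open Pool.Agent.W_7d29a1_C0.NM82 (Rk)
open Pool.Agent.W_7d29a1_C0.Par92 (Est Sml)
open Pool.W7d29a1.C0 Pool.W7d29a1.C0.VT31
open Pool.W7d29a1.C0.T73 (OutB bx Str pm JZ)

noncomputable section

variable {μ : Measure ℝ} {s : ℝ}

/-- **The slabs of part L from the widths**, the far row `i0`, the own rows `[al, al + n]`. -/
theorem slabL34 {K : ℕ} (hK : 1 ≤ K) {ι θ0 : ℝ} {m : ℕ} {len card : ℕ} {R : ℝ} (hW : Wid43 μ s (L33 K m) (ι / K) θ0 len card R)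
    (h16 : 16 ≤ ((2 ^ m : ℕ) : ℝ) ^ (ι / 2)) {t i0 k0 al n : ℕ} {J : Finset ℕ} (ht : t ≤ len) (hn : 4 * n ≤ len) (hi : t / 4 ≤ i0)
    (hiL : i0 ≤ L33 K m) (hk : k0 ≤ L33 K m) (hJ : ∀ i ∈ J, i ≤ L33 K m) (hJk : ∀ i ∈ J, i - k0 ≤ len ∧ k0 - i ≤ len)
    (hJi : ∀ i ∈ J, i ≤ i0 + len ∧ i0 ≤ i + len) (haL : al + n ≤ L33 K m)
    (hJA : ∀ i ∈ J, ∀ k, al ≤ k → k ≤ al + n → i ≤ k + len ∧ k ≤ i + len)
    (hA : ∀ k, al ≤ k → k ≤ al + n → k ≤ i0 + len ∧ i0 ≤ k + len) :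
    SlabL34 μ s (L33 K m) (ι / (2 * K)) t (i0 - t / 4) J R (R / 32) k0 len len (L33 K m) al n := by
  obtain ⟨g, hg⟩ : ∃ g : ℝ, g = ((2 ^ m : ℕ) : ℝ) ^ (ι / 2) := ⟨_, rfl⟩
  rw [← hg] at h16
  have hn0 : (0 : ℝ) < ((2 ^ m : ℕ) : ℝ) := by positivity
  have e1 : ((2 ^ m : ℕ) : ℝ) ^ ι = g * g := by
    rw [hg, ← Real.rpow_add hn0]
    congr 1
    ring
  have hKr : (K : ℝ) ≠ 0 := by
    have : (0 : ℝ) < K := by exact_mod_cast hK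
    exact this.ne'
  have e2 : ∀ k, vv μ s (L33 K m) (ι / K) k = g * g * wd' μ s k := fun k => by
    unfold vv
    rw [L_pow43 hK, e1]
  have e3 : ∀ k, vv μ s (L33 K m) (ι / (2 * K)) k = g * wd' μ s k := fun k => by
    unfold vv
    have h1 : ι / (2 * (K : ℝ)) = ι / 2 / K := by
      rw [div_div]
    rw [h1, L_pow43 hK, hg]
  have hw0 : ∀ k, 0 ≤ wd' μ s k := fun k => wd'_nonneg34 k
  have hv : ∀ k, k ≤ len → 64 * vv μ s (L33 K m) (ι / (2 * K)) k ≤ R := fun k hk' => by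
    have h1 := hW.hw k hk'
    rw [e2] at h1
    rw [e3]
    have h2 : 16 * (g * wd' μ s k) ≤ g * (g * wd' μ s k) :=
      mul_le_mul_of_nonneg_right h16 (mul_nonneg (by linarith) (hw0 k))
    have h3 : g * g * wd' μ s k = g * (g * wd' μ s k) := by ring
    linarith
  have hwd : ∀ k, k ≤ len → 64 * wd' μ s k ≤ R := fun k hk' => by
    refine le_trans ?_ (hv k hk')
    rw [e3]
    have h2 : 1 * wd' μ s k ≤ g * wd' μ s k := mul_le_mul_of_nonneg_right (by linarith) (hw0 k)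
    linarith
  have hv0 : ∀ k, 0 ≤ vv μ s (L33 K m) (ι / (2 * K)) k := fun k => vv_nonneg _ _
  exact
    { R1 := hW.one
      RL := fun k _ hk' => by
        have := hv k hk'
        have := hv0 k
        linarith
      JN := hJ
      kN := hk
      kn := hk
      JL := hJk
      WH := fun k hk' => by
        have := hv k hk'
        linarith
      iN := by omega
      aN := haL
      JH := fun r hr => by
        have := hJi r hr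
        omega
      JA := hJA
      AH := fun k h1 h2 => by
        have := hA k h1 h2
        omega
      Rt := by
        have h1 := hwd t ht
        have h2 := hwd (4 * n) hn
        have h3 := hW.one
        linarith }

variable {K : ℕ} {δ ι β γ θ0 K0 : ℝ} {m p q : ℕ} {b0 σ gl c d j y : ℕ} {u D : ℝ}

/-- The bare tie of the spectator at the tilted weights. -/
def bareL43 (μ : Measure ℝ) (s : ℝ) (N y : ℕ) (γ B : ℝ) (b0 gl d j : ℕ) (u : ℝ) (f : Fam N) : ℝ :=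
  ∫ ω, PP (wj μ s N (Pn N y) γ B b0 j ω u) (fun x x' => rh (d - gl) d (f y ω) x x') ∂(Pm μ N)

/-- **THE NEAR FAR LINES OF PART L**: key row `j - b / 2`, the slabs `nL1`, `nL2`; the price `n ^ ι / EE' b` times the own functional plus its
square times the bare tie. -/
theorem nearL43 (hK : 1 ≤ K) (hF : FarL34 μ s K δ ι β γ m) (hy : y ∈ ys33 μ s K m) [Nonempty (Px (Pn (L33 K m) y))]
    (W : Bx43 μ s K θ0 K0 ι β m p q) (h16 : 16 ≤ ((2 ^ m : ℕ) : ℝ) ^ (ι / 2)) (X : G43 (L33 K m) b0 (2 ^ p) σ gl d j) (hu : |u| ≤ 1)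
    {f : Fam (L33 K m)} (hf : Cls59 (L33 K m) c d D f) (hD : 0 < D) (ht0 : ((2 ^ m : ℕ) : ℝ) ^ (δ / 2) ≤ ((2 ^ p / 4 : ℕ) : ℝ))
    {R3 : ℝ} {r3 ep : ℕ} {o : TK (L33 K m) → Px (Pn (L33 K m) y) → ℝ}
    (ho : ∀ β' S, |o β' S| ≤ i1 (OutB pm (sl μ s) (rW43 μ s (L33 K m) (ι / K) K0 (2 * 2 ^ p)) ((j - 2 ^ p / 2 : ℕ) : ℤ)
      (JZ (nL1 (2 ^ p) j ∪ nL2 (2 ^ p) j)) β'.1 S)) :
    ∫ ω, Lfa μ s (L33 K m) γ (B33 β m) b0 (2 ^ p / 2) (2 ^ p) σ j (d - gl) d f u y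
        (kapL (L33 K m) (rW43 μ s (L33 K m) (ι / K) K0 (2 * 2 ^ p)) R3 (j - 2 ^ p / 2) r3 ep) o ω ∂(Pm μ (L33 K m)) ≤
      2 * (B33 β m / 2) * (B33 β m / 2) * (2 * D * (2 * ((L33 K m : ℕ) : ℝ) ^ (-9 : ℝ))) ∧
    ∫ ω, Lfb μ s (L33 K m) γ (B33 β m) b0 (2 ^ p / 2) (2 ^ p) σ j (d - gl) d f u y
        (kapL (L33 K m) (rW43 μ s (L33 K m) (ι / K) K0 (2 * 2 ^ p)) R3 (j - 2 ^ p / 2) r3 ep) o ω ∂(Pm μ (L33 K m)) ≤
      2 * (B33 β m / 2) * (B33 β m / 2) * ((((2 ^ m : ℕ) : ℝ) ^ ι * (EE' μ s (2 ^ p))⁻¹) *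
        ∫ ω, LO μ s (L33 K m) γ (B33 β m) b0 (2 ^ p / 2) (2 ^ p) σ j (d - gl) d f u y ω ∂(Pm μ (L33 K m)) +
        (((2 ^ m : ℕ) : ℝ) ^ ι * (EE' μ s (2 ^ p))⁻¹) * (((2 ^ m : ℕ) : ℝ) ^ ι * (EE' μ s (2 ^ p))⁻¹) *
          bareL43 μ s (L33 K m) y γ (B33 β m) b0 gl d j u f + 2 * D * ((L33 K m : ℕ) : ℝ) ^ (-9 : ℝ)) ∧
    ∀ J' : Finset ℕ, J'.Nonempty → (∀ r ∈ J', r ≤ d - gl) →
      ∫ ω, Lfc μ s (L33 K m) γ (B33 β m) b0 (2 ^ p / 2) (2 ^ p) σ j (d - gl) d f u y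
        (kapL (L33 K m) (rW43 μ s (L33 K m) (ι / K) K0 (2 * 2 ^ p)) R3 (j - 2 ^ p / 2) r3 ep) o J' ω ∂(Pm μ (L33 K m)) ≤
      2 * (B33 β m / 2) * (B33 β m / 2) * ((((2 ^ m : ℕ) : ℝ) ^ ι * (EE' μ s (2 ^ p))⁻¹) *
        ∫ ω, LO μ s (L33 K m) γ (B33 β m) b0 (2 ^ p / 2) (2 ^ p) σ j (d - gl) d f u y ω ∂(Pm μ (L33 K m)) +
        (((2 ^ m : ℕ) : ℝ) ^ ι * (EE' μ s (2 ^ p))⁻¹) * (((2 ^ m : ℕ) : ℝ) ^ ι * (EE' μ s (2 ^ p))⁻¹) *
          bareL43 μ s (L33 K m) y γ (B33 β m) b0 gl d j u f + 2 * D * ((L33 K m : ℕ) : ℝ) ^ (-9 : ℝ)) := by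
  have hW := W.near
  obtain ⟨b, hb⟩ : ∃ b : ℕ, b = 2 ^ p := ⟨_, rfl⟩
  rw [← hb] at hW X ht0 ho ⊢
  obtain ⟨R, hR⟩ : ∃ R : ℝ, R = rW43 μ s (L33 K m) (ι / K) K0 (2 * b) := ⟨_, rfl⟩
  rw [← hR] at hW ho ⊢
  have g0 := X.rng
  obtain ⟨h1, h2, h3, h4, h5⟩ := X.b8
  have g1 := X.bp
  have glo := X.lo
  have ghi := X.hi
  have geo := X.geo
  have hb4 : 4 * (b / 4) = b := by
    obtain ⟨k, hk⟩ := X.dv
    omega
  have hbL : b ≤ L33 K m := by omega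
  have hmem : ∀ i ∈ nL1 b j ∪ nL2 b j, j - b < i ∧ i ≤ j - b0 := fun i hi => by
    rcases mem_union.1 hi with h | h
    · have := mem_Ioc.1 h
      omega
    · have := mem_Ioc.1 h
      omega
  have hB0 : 0 ≤ B33 β m := by
    unfold B33
    positivity
  have hS := slabL34 hK hW h16 (t := b) (i0 := j - b0) (k0 := j - b / 2) (al := j - b) (n := b / 4) (J := nL1 b j ∪ nL2 b j) (by omega)
    (by omega) (by omega) (by omega) (by omega) (fun i hi => by have := hmem i hi; omega) (fun i hi => by have := hmem i hi; omega)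
    (fun i hi => by have := hmem i hi; omega) (by omega) (fun i hi k h1 h2 => by have := hmem i hi; omega)
    (fun k h1 h2 => by omega)
  have htb : ((2 ^ m : ℕ) : ℝ) ^ (δ / 2) ≤ (b : ℝ) := ht0.trans (by exact_mod_cast (by omega : b / 4 ≤ b))
  have key := hF y hy b (j - b0 - b / 4) (j - b) (b / 4) (j / σ * σ) ((j / σ + 1) * σ) htb hbL ht0 (by omega) (by omega) (by omega)
    (by have := X.dN; omega) (by omega) b0 j u hu (by omega) d (d - gl) d D (f y) (Sf.of_cls hf y) hD (by omega) geo.ze geo.ed geo.dN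
    (fun ω => rk_cls hf le_rfl y ω) (nL1 b j ∪ nL2 b j) R (R / 32) (j - b / 2) (2 * b) (2 * b) (L33 K m) (j - b / 2) hS (by omega)
    (TK (L33 K m)) (kapL (L33 K m) R R3 (j - b / 2) r3 ep) o
    (fun x v => by
      have h := ho (kapL (L33 K m) R R3 (j - b / 2) r3 ep x) v
      rw [fst_kapL34] at h
      exact h)
    (fun ω => CutG59.pL μ s (L33 K m) γ (B33 β m) b0 (b / 2) b j (d - gl) d f y ω) (2 * (B33 β m / 2) * (B33 β m / 2)) (by positivity)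
    (fun ω x => bdp_L65 hB0 ω x) _ rfl
  rw [hb4] at key
  exact key

/-- **THE MACRO FAR LINE OF PART L**: key row `d - 2 gl`, the slabs `mc3`, `mc4`; the price `n ^ ι / EE' gl`. -/
theorem macL43 (hF : FarAll43 μ s K δ ι β γ m) (hy : y ∈ ys33 μ s K m) [Nonempty (Px (Pn (L33 K m) y))]
    (W : Bx43 μ s K θ0 K0 ι β m p q) {b : ℕ} (X : G43 (L33 K m) b0 b σ (gl46 ι m q) d j) (hdj : d ≤ j - b0 + 2 ^ q)
    (hu : |u| ≤ 1) {f : Fam (L33 K m)}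
    (hf : Cls59 (L33 K m) c d D f) (hD : 0 < D) (ht0 : ((2 ^ m : ℕ) : ℝ) ^ (δ / 2) ≤ (gl46 ι m q : ℝ)) (hgq : 8 * gl46 ι m q ≤ 2 ^ q)
    {a : ℝ} (ha : 0 ≤ a) {R1 : ℝ} {r1 ep : ℕ} {o : TK (L33 K m) → Px (Pn (L33 K m) y) → ℝ} (o0 : ∀ β' S, 0 ≤ o β' S)
    (ho : ∀ β' S, o β' S ≤ i1 (OutB pm (sl μ s) (rW43 μ s (L33 K m) (ι / K) K0 (2 ^ q)) ((d - 2 * gl46 ι m q : ℕ) : ℤ)
      (JZ (mc3 (gl46 ι m q) d ∪ mc4 (gl46 ι m q) d)) β'.2.2 S)) :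
    ∫ ω, LFO μ s (L33 K m) γ (B33 β m) b0 (b / 2) b σ j (d - gl46 ι m q) d f u y
        (kapL (L33 K m) R1 (rW43 μ s (L33 K m) (ι / K) K0 (2 ^ q)) r1 (d - 2 * gl46 ι m q) ep) o a ω ∂(Pm μ (L33 K m)) ≤
      2 * (B33 β m / 2) * (B33 β m / 2) * (3 * a * (((2 ^ m : ℕ) : ℝ) ^ ι * (EE' μ s (gl46 ι m q))⁻¹) *
        ∫ ω, LO μ s (L33 K m) γ (B33 β m) b0 (b / 2) b σ j (d - gl46 ι m q) d f u y ω ∂(Pm μ (L33 K m)) +
        2 * D * ((3 + 15 * a) * ((L33 K m : ℕ) : ℝ) ^ (-9 : ℝ))) := by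
  have hW := W.mac
  obtain ⟨g, hg⟩ : ∃ g : ℕ, g = gl46 ι m q := ⟨_, rfl⟩
  obtain ⟨r, hr⟩ : ∃ r : ℕ, r = 2 ^ q := ⟨_, rfl⟩
  rw [← hg] at hW X ht0 hgq ho ⊢
  rw [← hr] at hW hdj hgq ho ⊢
  obtain ⟨R, hR⟩ : ∃ R : ℝ, R = rW43 μ s (L33 K m) (ι / K) K0 r := ⟨_, rfl⟩
  rw [← hR] at hW ho ⊢
  have g0 := X.rng
  obtain ⟨h1, h2, h3, h4, h5⟩ := X.b8
  have g1 := X.bp
  have g2 := X.glp
  have ghi := X.hi
  have geo := X.geo
  have hze := geo.ze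
  have hmem : ∀ i ∈ mc3 g d ∪ mc4 g d, d - 5 * g < i ∧ i ≤ d - 2 * g ∧ j + b + g ≤ i := fun i hi => by
    rcases mem_union.1 hi with h | h
    · have := mem_Ioc.1 h
      omega
    · have := mem_Ioc.1 h
      omega
  have hB0 : 0 ≤ B33 β m := by
    unfold B33
    positivity
  have hS := slab43 hW (t := g) (i0 := j - b0) (k0 := d - 2 * g) (J := mc3 g d ∪ mc4 g d) (by omega) (by omega) (by omega) (by omega)
    (by omega) (fun i hi => by have := hmem i hi; omega) (fun i hi => by have := hmem i hi; omega)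
    (fun i hi => by have := hmem i hi; omega)
  have hT := tubeK34 (N := L33 K m) (y := y) (μ := μ) (s := s) (c := j / σ * σ) (d := (j / σ + 1) * σ)
    (kap := kapL (L33 K m) R1 R r1 (d - 2 * g) ep) (o := o) (R := R) (k0 := d - 2 * g) (nn := L33 K m) (J := mc3 g d ∪ mc4 g d)
    (by omega) o0 (fun x v => by
      have h := ho (kapL (L33 K m) R1 R r1 (d - 2 * g) ep x) v
      rw [snd_kapL34] at h
      exact h)
  have key := hF y hy g (j - b0 - g / 4) (j / σ * σ) ((j / σ + 1) * σ) ht0 (by omega) (Nat.mul_le_mul_right _ (Nat.le_succ _)) (by omega) b0 j u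
    hu (by omega) d (d - g) d D (f y) (Sf.of_cls hf y) hD (by omega) (NI (j - b) (j - b / 2)) (fun S S' => NI_nonneg _ _ _ _)
    (fun S S' => E2Q59.NI_le_one _ _ _ _) (mc3 g d ∪ mc4 g d) R (R / 2) (d - 2 * g) r r (L33 K m) hS (Px (Pn (L33 K m) y)) (fun S => S)
    (bx pm R ((d - 2 * g : ℕ) : ℤ) (L33 K m)) _ hT
    (fun ω => CutG59.pL μ s (L33 K m) γ (B33 β m) b0 (b / 2) b j (d - g) d f y ω) (2 * (B33 β m / 2) * (B33 β m / 2)) a (by positivity) ha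
    fun ω x => bdp_L65 hB0 ω x
  simp only [← FOk_eq34] at key
  exact key

/-- **THE DATA OF THE FAR LINES OF PART L AT THE FRAME.** -/
theorem farP34_est [IsProbabilityMeasure μ] {c₁ C : ℝ} {n₀ : ℕ} (h : In μ s c₁ C n₀) {K : ℕ} (hK : 32 ≤ K) {δ : ℝ} (hδ : 0 < δ) :
    Est fun ι β γ m => FarL34 μ s K δ ι β γ m ∧ 16 ≤ ((2 ^ m : ℕ) : ℝ) ^ (ι / 2) ∧
      ∀ p : ℕ, δ * m ≤ p → ((2 ^ m : ℕ) : ℝ) ^ (δ / 2) ≤ ((2 ^ p / 4 : ℕ) : ℝ) := by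
  have h2 : Est fun ι _ _ m => 16 ≤ ((2 ^ m : ℕ) : ℝ) ^ (ι / 2) := ⟨1, one_pos, fun ι hι _ => Sml.of fun _ _ => Sml.of fun _ _ =>
    pow_ev96 (show 0 < ι / 2 by positivity) 16⟩
  refine (farl34_est h hK hδ).and (h2.and (Est.of_ev ?_))
  filter_upwards [pow_ev96 (show 0 < δ / 2 by positivity) 8] with m h3 p hp
  obtain ⟨n, hn⟩ : ∃ n : ℝ, n = ((2 ^ m : ℕ) : ℝ) := ⟨_, rfl⟩
  have hn1 : 1 ≤ n := hn ▸ n_ge1 m
  have hn0 : 0 < n := by linarith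
  have hnp : n ^ δ ≤ ((2 ^ p : ℕ) : ℝ) := by
    have e1 : n ^ δ = (2 : ℝ) ^ (δ * m) := by
      rw [hn, Nat.cast_pow, Nat.cast_ofNat, ← Real.rpow_natCast, ← Real.rpow_mul (by norm_num)]
      congr 1
      ring
    rw [e1, Nat.cast_pow, Nat.cast_ofNat, ← Real.rpow_natCast 2 p]
    exact Real.rpow_le_rpow_of_exponent_le (by norm_num) hp
  rw [← hn] at h3 ⊢
  have e2 : n ^ δ = n ^ (δ / 2) * n ^ (δ / 2) := by
    rw [← Real.rpow_add hn0]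
    congr 1
    ring
  have h4 : 8 * n ^ (δ / 2) ≤ ((2 ^ p : ℕ) : ℝ) := by
    refine le_trans ?_ hnp
    rw [e2]
    exact mul_le_mul_of_nonneg_right h3 (by positivity)
  obtain ⟨x, hx⟩ : ∃ x : ℕ, x = 2 ^ p := ⟨_, rfl⟩
  rw [← hx] at h4 ⊢
  have h5 : x ≤ 4 * (x / 4) + 3 := by omega
  have h6 : (x : ℝ) ≤ 4 * ((x / 4 : ℕ) : ℝ) + 3 := by exact_mod_cast h5
  linarith

end

end Pool.Agent.W_7d29a1_C0.E2F34
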