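import Pool.Agent.W_7d29a1_C0.E2AE43
import Pool.Agent.W_7d29a1_C0.E2AL43
import Pool.Agent.W_7d29a1_C0.E2LV73
import Pool.Agent.W_7d29a1_C0.E2P34
import Pool.Agent.W_7d29a1_C0.E2JM39

/-!
MP_7d29a1_pr, [CURV0] (helper43), section E2: PART L OF ONE ROW AT THE CONCRETE FRAME. `rowL43`: the bound of helper65, helper73 with the
boxes of `Bx43` and the far lines of helper34 paid, in the form of `decL39`.
-/

set_option autoImplicit false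
set_option linter.unusedSectionVars false
set_option linter.unusedVariables false

namespace Pool.Agent.W_7d29a1_C0.E2LR43

open Finset MeasureTheory Filter Topology
open Pool.Agent.W_7d29a1_F Pool.Agent.W_7d29a1_X
open Pool.Agent.W_7d29a1_H (sl EE)
open Pool.Agent.W_7d29a1_HS (In wd)
open Pool.Agent.W_7d29a1_HZ (wd' EE')
open Pool.Agent.W_7d29a1_C0 Pool.Agent.W_7d29a1_C0.Mod92 Pool.Agent.W_7d29a1_C0.Swap57 Pool.Agent.W_7d29a1_C0.NM82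
open Pool.Agent.W_7d29a1_C0.Asm96 Pool.Agent.W_7d29a1_C0.EstC46 Pool.Agent.W_7d29a1_C0.Frm33
open Pool.Agent.W_7d29a1_C0.H32
open Pool.Agent.W_7d29a1_C0.E2G43 Pool.Agent.W_7d29a1_C0.E2K43 Pool.Agent.W_7d29a1_C0.E2W43 Pool.Agent.W_7d29a1_C0.E2A43
open Pool.Agent.W_7d29a1_C0.E2AL43
open Pool.Agent.W_7d29a1_C0.E2FR43
open Pool.Agent.W_7d29a1_C0.E1M82 (AvA)
open Pool.Agent.W_7d29a1_C0.E2Q59 (vL)
open Pool.Agent.W_7d29a1_C0.E2F34 (FarL34 nearL43 macL43 bareL43 oB_i1_34)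
open Pool.Agent.W_7d29a1_C0.Far34 (i1)
open Pool.Agent.W_7d29a1_C0.EL73 (hvL73 FarL73)
open Pool.Agent.W_7d29a1_C0.KL65 (TK card_TK kapL keL oB oB_nonneg)
open Pool.Agent.W_7d29a1_C0.E2DL96 (lO lG lT lL lD eLO96)
open Pool.Agent.W_7d29a1_C0.E2S39 (lU39)
open Pool.Agent.W_7d29a1_C0.MicE14 (mi rh rh_nonneg)
open Pool.W7d29a1.C0 Pool.W7d29a1.C0.VT31
open Pool.W7d29a1.C0.T73 (OutB pm JZ)

noncomputable section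

section Row

variable {μ : Measure ℝ} {s : ℝ} {K : ℕ} {δ ι β γ θg K0 : ℝ} {m p q : ℕ} {b0 σ c d j y : ℕ} {t D Kg : ℝ}

/-- **PART L OF ONE ROW.** -/
theorem rowL43 [IsProbabilityMeasure μ] {ff ff' : ℝ → ℝ} (hd : DenLaw μ ff ff') (hs : SG μ (sc ff ff') Kg θg) (hK : 1 ≤ K)
    (hF : FarAll43 μ s K δ ι β γ m) (hFL : FarL34 μ s K δ ι β γ m) (h16 : 16 ≤ ((2 ^ m : ℕ) : ℝ) ^ (ι / 2)) (hy : y ∈ ys33 μ s K m)
    [Nonempty (Px (Pn (L33 K m) y))] (W : Bx43 μ s K (θg / 2) K0 ι β m p q)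
    (X : G43 (L33 K m) b0 (2 ^ p) σ (gl46 ι m q) d j) (hdj : d ≤ j - b0 + 2 ^ q) (ht : |t| ≤ 1) {f : Fam (L33 K m)}
    (hf : Cls59 (L33 K m) c d D f) (hD : 0 < D) (ht0 : ((2 ^ m : ℕ) : ℝ) ^ (δ / 2) ≤ ((2 ^ p / 4 : ℕ) : ℝ))
    (ht1 : ((2 ^ m : ℕ) : ℝ) ^ (δ / 2) ≤ (gl46 ι m q : ℝ)) (hgq : 8 * gl46 ι m q ≤ 2 ^ q) {z B ρ ρ4 : ℝ}
    (hz : ((2 ^ m : ℕ) : ℝ) ^ ι = z) (hB : B33 β m = B)
    (hρ : √(21 * rW43 μ s (L33 K m) (ι / K) K0 (2 * 2 ^ p) / ((2 ^ p / 8 : ℕ) : ℝ)) = ρ)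
    (hρ4 : √(21 * rW43 μ s (L33 K m) (ι / K) K0 (2 ^ q) / gl46 ι m q) = ρ4) {φb φr : ℝ}
    (hφb : ((2 ^ m : ℕ) : ℝ) ^ ι * (EE' μ s (2 ^ p))⁻¹ = φb) (hφr : ((2 ^ m : ℕ) : ℝ) ^ ι * (EE' μ s (gl46 ι m q))⁻¹ = φr) :
    |AvA (L33 K m) fun A => ∫ η, vL μ s (L33 K m) γ B b0 (2 ^ p / 2) (2 ^ p) σ j (d - gl46 ι m q) d f t y (η, A) ∂(law μ)| ≤
      (z ^ 2 * (B / 2) ^ 2 * ρ ^ 2 * (2 * (B / 2) * (B / 2)) +
        (2 * z ^ 2 * (B / 2) ^ 2 * ρ * ρ4 + 16 * z * (B / 2) ^ 2 * ρ4) * (2 * (B / 2) * (B / 2)) +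
        (4 * z * (B / 2) ^ 2 * ρ + 58 * (B / 2) ^ 2) * (2 * (B / 2) * (B / 2) * φb) +
        (2 * z * (B / 2) ^ 2 * ρ + 44 * (B / 2) ^ 2) * (3 * (2 * (B / 2) * (B / 2)) * φr)) *
        lO μ s (L33 K m) y γ B b0 (2 ^ p) σ (gl46 ι m q) d j t f +
      z * (B / 2) * ρ * (2 * (B / 2) * (B / 2)) * lG μ s (L33 K m) y γ B b0 (2 ^ p) σ (gl46 ι m q) d j t f (nL2 (2 ^ p) j) 2 1 +
      B / 2 * (2 * (B / 2) * (B / 2)) * lG μ s (L33 K m) y γ B b0 (2 ^ p) σ (gl46 ι m q) d j t f (nL1 (2 ^ p) j) 16 20 +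
      3 * (z * (B / 2) * ρ * (2 * (B / 2) * (B / 2))) *
        lT μ s (L33 K m) y γ B b0 (2 ^ p) σ (gl46 ι m q) d j t f (mc3 (gl46 ι m q) d) (nL2 (2 ^ p) j) +
      36 * (B / 2 * (2 * (B / 2) * (B / 2))) *
        lT μ s (L33 K m) y γ B b0 (2 ^ p) σ (gl46 ι m q) d j t f (mc3 (gl46 ι m q) d) (nL1 (2 ^ p) j) +
      2 * (B / 2 * (2 * (B / 2) * (B / 2))) *
        lT μ s (L33 K m) y γ B b0 (2 ^ p) σ (gl46 ι m q) d j t f (mc4 (gl46 ι m q) d) (nL1 (2 ^ p) j) +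
      2 * (B / 2) * (3 * (z * (B / 2) * ρ * (2 * (B / 2) * (B / 2))) + 36 * (B / 2 * (2 * (B / 2) * (B / 2)))) *
        lL μ s (L33 K m) y γ B b0 (2 ^ p) σ (gl46 ι m q) d j t f (mc3 (gl46 ι m q) d) +
      2 * (B / 2) * (2 * (B / 2 * (2 * (B / 2) * (B / 2)))) *
        lL μ s (L33 K m) y γ B b0 (2 ^ p) σ (gl46 ι m q) d j t f (mc4 (gl46 ι m q) d) +
      (2 * z * (B / 2) ^ 2 * ρ + 12 * (B / 2) ^ 2) * (B / 2 * (B / 2)) *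
        lD μ s (L33 K m) y γ B b0 (2 ^ p) σ (gl46 ι m q) d j t f +
      (4 * z * (B / 2) ^ 2 * ρ + 58 * (B / 2) ^ 2) * (2 * (B / 2) * (B / 2) * φb ^ 2) *
        lU39 μ s (L33 K m) y γ B b0 (gl46 ι m q) d j t f +
      (z * (B / 2) ^ 2 * ρ * (5 * (2 * (B / 2) * (B / 2) * (4 * D * ((L33 K m : ℕ) : ℝ) ^ (-9 : ℝ)))) +
        (B / 2) ^ 2 * (66 * (2 * (B / 2) * (B / 2) * (4 * D * ((L33 K m : ℕ) : ℝ) ^ (-9 : ℝ)))) +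
        (2 * z * (B / 2) ^ 2 * ρ + 8 * (B / 2) ^ 2) * (2 * (B / 2) * (B / 2) * (36 * D * ((L33 K m : ℕ) : ℝ) ^ (-9 : ℝ))) +
        12 * (B / 2) ^ 2 * (2 * (B / 2) * (B / 2) * (96 * D * ((L33 K m : ℕ) : ℝ) ^ (-9 : ℝ))) +
        (((L33 K m : ℕ) : ℝ) + 1) ^ 5 * (768 * ((B / 2) ^ 4 * D) * (((L33 K m : ℕ) : ℝ) + 1) * Real.exp (4 * Kg - z / 2))) := by
  have hn1 := n_ge1 m
  have hz0 : 0 ≤ z := by
    rw [← hz]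
    positivity
  have hB0 : 0 < B := by
    rw [← hB]
    unfold B33
    exact Real.rpow_pos_of_pos (by linarith) _
  have g0 := X.rng
  obtain ⟨h1, h2, h3, h4, h5⟩ := X.b8
  have hW1 := W.near
  have hW4 := W.mac
  have hε : 0 ≤ D * ((L33 K m : ℕ) : ℝ) ^ (-9 : ℝ) := by positivity
  obtain ⟨o, ho⟩ : ∃ o : TK (L33 K m) → Px (Pn (L33 K m) y) → ℝ, o = oB (sl μ s) (rW43 μ s (L33 K m) (ι / K) K0 (2 * 2 ^ p))
    ((j - 2 ^ p / 2 : ℕ) : ℤ) (nL1 (2 ^ p) j ∪ nL2 (2 ^ p) j) fun β => β.1 := ⟨_, rfl⟩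
  obtain ⟨om, hom⟩ : ∃ om : TK (L33 K m) → Px (Pn (L33 K m) y) → ℝ, om = oB (sl μ s) (rW43 μ s (L33 K m) (ι / K) K0 (2 ^ q))
    ((d - 2 * gl46 ι m q : ℕ) : ℤ) (mc3 (gl46 ι m q) d ∪ mc4 (gl46 ι m q) d) fun β => β.2.2 := ⟨_, rfl⟩
  have hoi : ∀ β' S, o β' S = i1 (OutB pm (sl μ s) (rW43 μ s (L33 K m) (ι / K) K0 (2 * 2 ^ p)) ((j - 2 ^ p / 2 : ℕ) : ℤ)
      (JZ (nL1 (2 ^ p) j ∪ nL2 (2 ^ p) j)) β'.1 S) := fun β' S => by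
    rw [ho]
    exact oB_i1_34 _ _
  have homi : ∀ β' S, om β' S = i1 (OutB pm (sl μ s) (rW43 μ s (L33 K m) (ι / K) K0 (2 ^ q)) ((d - 2 * gl46 ι m q : ℕ) : ℤ)
      (JZ (mc3 (gl46 ι m q) d ∪ mc4 (gl46 ι m q) d)) β'.2.2 S) := fun β' S => by
    rw [hom]
    exact oB_i1_34 _ _
  have o0 : ∀ β' S, 0 ≤ o β' S := fun β' S => by
    rw [ho]
    exact oB_nonneg _ _ _ _ _ _ _
  have om0 : ∀ β' S, 0 ≤ om β' S := fun β' S => by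
    rw [hom]
    exact oB_nonneg _ _ _ _ _ _ _
  -- the far lines
  obtain ⟨fa, fb, fc⟩ := nearL43 hK hFL hy W h16 X ht hf hD ht0 (R3 := rW43 μ s (L33 K m) (ι / K) K0 (2 ^ q))
    (r3 := d - 2 * gl46 ι m q) (ep := d - 6 * gl46 ι m q) (o := o) fun β' S => by
      rw [abs_of_nonneg (o0 β' S)]
      exact (hoi β' S).le
  have f1 := macL43 hF hy W X hdj ht hf hD ht1 hgq (a := 1) zero_le_one (R1 := rW43 μ s (L33 K m) (ι / K) K0 (2 * 2 ^ p))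
    (r1 := j - 2 ^ p / 2) (ep := d - 6 * gl46 ι m q) om0 fun β' S => (homi β' S).le
  have f3 := macL43 hF hy W X hdj ht hf hD ht1 hgq (a := 3) (by norm_num) (R1 := rW43 μ s (L33 K m) (ι / K) K0 (2 * 2 ^ p))
    (r1 := j - 2 ^ p / 2) (ep := d - 6 * gl46 ι m q) om0 fun β' S => (homi β' S).le
  have c3 := fc (mc3 (gl46 ι m q) d) (ls43 X).n3 fun r hr => by
    have := mem_Ioc.1 hr
    omega
  have c4 := fc (mc4 (gl46 ι m q) d) (ls43 X).n4 fun r hr => by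
    have := mem_Ioc.1 hr
    omega
  rw [hB, eLO96, hφr] at f1 f3
  rw [hB, eLO96, hφb] at fb c3 c4
  rw [hB] at fa
  have key := hvL73 (μ := μ) (s := s) (δ := γ) (y := y) hd hs hB0 hf (ls43 X)
    (key43 X (rW43 μ s (L33 K m) (ι / K) K0 (2 * 2 ^ p)) (rW43 μ s (L33 K m) (ι / K) K0 (2 ^ q)) (j - 2 ^ p / 2))
    (tlN43 (μ := μ) (s := s) (y := y) hW1.one (r1 := j - 2 ^ p / 2) (by omega) (nL1 (2 ^ p) j ∪ nL2 (2 ^ p) j))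
    (tlM43 (μ := μ) (s := s) (y := y) hW4.one (r3 := d - 2 * gl46 ι m q) (by omega) (mc3 (gl46 ι m q) d ∪ mc4 (gl46 ι m q) d))
    (n := ((2 ^ p / 8 : ℕ) : ℝ)) (n4 := (gl46 ι m q : ℝ)) (by linarith [hW1.one]) hW1.le (by linarith [hW1.th])
    (by linarith [hW4.one]) hW4.le (by linarith [hW4.th]) (by rw [card_nL1 X]) (by rw [card_nL2 X]) (by rw [card_mc3 X])
    (by rw [card_mc4 X]) hz0 t hρ hρ4
  rw [← ho, ← hom, card_TK] at key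
  unfold FarL73 at key
  have e0 : φb * φb = φb ^ 2 := by ring
  have e2 : bareL43 μ s (L33 K m) y γ B b0 (gl46 ι m q) d j t f = lU39 μ s (L33 K m) y γ B b0 (gl46 ι m q) d j t f := rfl
  rw [e0, e2] at fb c3 c4
  have ka := fa.trans (le_of_eq (show 2 * (B / 2) * (B / 2) * (2 * D * (2 * ((L33 K m : ℕ) : ℝ) ^ (-9 : ℝ))) =
    2 * (B / 2) * (B / 2) * (4 * D * ((L33 K m : ℕ) : ℝ) ^ (-9 : ℝ)) by ring))
  have hup : ∀ x : ℝ, 2 * (B / 2) * (B / 2) * (x + 2 * D * ((L33 K m : ℕ) : ℝ) ^ (-9 : ℝ)) ≤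
      2 * (B / 2) * (B / 2) * (x + 4 * D * ((L33 K m : ℕ) : ℝ) ^ (-9 : ℝ)) := fun x =>
    mul_le_mul_of_nonneg_left (by linarith) (by positivity)
  have k1 := f1.trans (le_of_eq (show 2 * (B / 2) * (B / 2) * (3 * 1 * φr * lO μ s (L33 K m) y γ B b0 (2 ^ p) σ (gl46 ι m q) d j t f +
      2 * D * ((3 + 15 * 1) * ((L33 K m : ℕ) : ℝ) ^ (-9 : ℝ))) = 2 * (B / 2) * (B / 2) * (3 * 1 * φr *
      lO μ s (L33 K m) y γ B b0 (2 ^ p) σ (gl46 ι m q) d j t f + 36 * D * ((L33 K m : ℕ) : ℝ) ^ (-9 : ℝ)) by ring))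
  have k3 := f3.trans (le_of_eq (show 2 * (B / 2) * (B / 2) * (3 * 3 * φr * lO μ s (L33 K m) y γ B b0 (2 ^ p) σ (gl46 ι m q) d j t f +
      2 * D * ((3 + 15 * 3) * ((L33 K m : ℕ) : ℝ) ^ (-9 : ℝ))) = 2 * (B / 2) * (B / 2) * (3 * 3 * φr *
      lO μ s (L33 K m) y γ B b0 (2 ^ p) σ (gl46 ι m q) d j t f + 96 * D * ((L33 K m : ℕ) : ℝ) ^ (-9 : ℝ)) by ring))
  have ar := arithL43 (v := |AvA (L33 K m) fun A =>
      ∫ η, vL μ s (L33 K m) γ B b0 (2 ^ p / 2) (2 ^ p) σ j (d - gl46 ι m q) d f t y (η, A) ∂(law μ)|)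
    (z := z) (M := B / 2) (ρ := ρ) (φ := φb) (φg := φr) (K0 := 2 * (B / 2) * (B / 2))
    (A0 := z ^ 2 * (B / 2) ^ 2 * ρ ^ 2 * (2 * (B / 2) * (B / 2)) +
        (2 * z ^ 2 * (B / 2) ^ 2 * ρ * ρ4 + 16 * z * (B / 2) ^ 2 * ρ4) * (2 * (B / 2) * (B / 2)))
    (O := lO μ s (L33 K m) y γ B b0 (2 ^ p) σ (gl46 ι m q) d j t f) (P := lU39 μ s (L33 K m) y γ B b0 (gl46 ι m q) d j t f)
    (Rst := z * (B / 2) * ρ * (2 * (B / 2) * (B / 2)) * lG μ s (L33 K m) y γ B b0 (2 ^ p) σ (gl46 ι m q) d j t f (nL2 (2 ^ p) j) 2 1 +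
      B / 2 * (2 * (B / 2) * (B / 2)) * lG μ s (L33 K m) y γ B b0 (2 ^ p) σ (gl46 ι m q) d j t f (nL1 (2 ^ p) j) 16 20 +
      3 * (z * (B / 2) * ρ * (2 * (B / 2) * (B / 2))) *
        lT μ s (L33 K m) y γ B b0 (2 ^ p) σ (gl46 ι m q) d j t f (mc3 (gl46 ι m q) d) (nL2 (2 ^ p) j) +
      36 * (B / 2 * (2 * (B / 2) * (B / 2))) *
        lT μ s (L33 K m) y γ B b0 (2 ^ p) σ (gl46 ι m q) d j t f (mc3 (gl46 ι m q) d) (nL1 (2 ^ p) j) +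
      2 * (B / 2 * (2 * (B / 2) * (B / 2))) *
        lT μ s (L33 K m) y γ B b0 (2 ^ p) σ (gl46 ι m q) d j t f (mc4 (gl46 ι m q) d) (nL1 (2 ^ p) j) +
      2 * (B / 2) * (3 * (z * (B / 2) * ρ * (2 * (B / 2) * (B / 2))) + 36 * (B / 2 * (2 * (B / 2) * (B / 2)))) *
        lL μ s (L33 K m) y γ B b0 (2 ^ p) σ (gl46 ι m q) d j t f (mc3 (gl46 ι m q) d) +
      2 * (B / 2) * (2 * (B / 2 * (2 * (B / 2) * (B / 2)))) *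
        lL μ s (L33 K m) y γ B b0 (2 ^ p) σ (gl46 ι m q) d j t f (mc4 (gl46 ι m q) d) +
      (2 * z * (B / 2) ^ 2 * ρ + 12 * (B / 2) ^ 2) * (B / 2 * (B / 2)) *
        lD μ s (L33 K m) y γ B b0 (2 ^ p) σ (gl46 ι m q) d j t f)
    (tl := (((L33 K m : ℕ) : ℝ) + 1) ^ 5 * (768 * ((B / 2) ^ 4 * D) * (((L33 K m : ℕ) : ℝ) + 1) * Real.exp (4 * Kg - z / 2)))
    (by positivity) hz0 (hρ ▸ Real.sqrt_nonneg _) (hf1 := k1) (hf3 := k3) (ha := ka) (hb := fb.trans (hup _)) (h3 := c3.trans (hup _))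
    (h4 := c4.trans (hup _)) (hv := key.trans (le_of_eq (by push_cast; ring)))
  refine ar.trans (le_of_eq ?_)
  ring

end Row

end

end Pool.Agent.W_7d29a1_C0.E2LR43
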