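import Pool.Agent.W_7d29a1_C0.E2D96L
import Pool.Agent.W_7d29a1_C0.E2D43
import Pool.Agent.W_7d29a1_C0.E2J43

/-!
MP_7d29a1_pr, [CURV0] (helper43), section E2: THE SLOTS OF PART L. `TDL43`: the pairs of the window (helper11); `JE43`, `JTS43`: the parts with
three levels (helper45, helper27, helper82, helper50, helper72), for the three means of `Dl96.lst`.
-/

set_option autoImplicit false
set_option linter.unusedSectionVars false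
set_option linter.unusedVariables false

namespace Pool.Agent.W_7d29a1_C0.E2LT43

open Finset MeasureTheory Filter Topology
open Pool.Agent.W_7d29a1_F Pool.Agent.W_7d29a1_X
open Pool.Agent.W_7d29a1_H (sl EE)
open Pool.Agent.W_7d29a1_C0 Pool.Agent.W_7d29a1_C0.Mod92 Pool.Agent.W_7d29a1_C0.Swap57 Pool.Agent.W_7d29a1_C0.NM82
open Pool.Agent.W_7d29a1_C0.Asm96 Pool.Agent.W_7d29a1_C0.EstC46 Pool.Agent.W_7d29a1_C0.Frm33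
open Pool.Agent.W_7d29a1_C0.E2G43 Pool.Agent.W_7d29a1_C0.E2D43 Pool.Agent.W_7d29a1_C0.E2J43
open Pool.Agent.W_7d29a1_C0.E2T96 (Trm96 rw96)
open Pool.Agent.W_7d29a1_C0.E2DL96 (qDL lJ)

noncomputable section

variable (μ : Measure ℝ) (s : ℝ) (K : ℕ) (Θ δ c ι : ℝ)

/-- **The slot of the pairs of the window, part L** (the double ties of helper11). -/
def TDL43 (m : ℕ) (M : ℝ) : Prop := ∀ p q i : ℕ, St96 (EE μ s) δ c m p q → i < 2 ^ (m - q) →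
  ∀ al : ℝ, 0 ≤ al → al ^ 2 ≤ ((2 ^ m : ℕ) : ℝ) ^ (40 * ι) →
  ∃ TD : Trm96 μ s (L33 K m) (ys33 μ s K m) (Rw (R33 ι m) (i * 2 ^ q) ((i + 1) * 2 ^ q)) (2 ^ q)
    (((2 ^ m : ℕ) : ℝ) ^ (Θ - 2 * (c / 4))), TD.al = al ∧ ∀ (cb : ℕ) (D : ℝ) (f : Fam (L33 K m)),
      Cls59 (L33 K m) cb ((i + 1) * 2 ^ q) D f → 0 ≤ D →
      Ab43 TD f (fun j y => rw96 μ s (L33 K m) (qDL μ s (L33 K m) (2 ^ (p - ⌈ι * (m : ℝ)⌉₊)) (2 ^ p) (2 ^ sg96 (EE μ s) c m p)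
        (gl46 ι m q) ((i + 1) * 2 ^ q) M j) f y) (2 * D * Real.exp (-M))

/-- A functional of the rows which is at most eight terms and a small error. -/
def JE43 (m q i : ℕ) (f : Fam (L33 K m)) (Φ : ℕ → ℕ → ℝ) : Prop := ∃ (k : ℕ) (e : ℝ), k ≤ 8 ∧ 0 ≤ e ∧
  e ≤ ((2 ^ m : ℕ) : ℝ) ^ 20 * ((L33 K m : ℕ) : ℝ) ^ (-4 : ℝ) ∧
  Dec43 μ s (L33 K m) (ys33 μ s K m) (Rw (R33 ι m) (i * 2 ^ q) ((i + 1) * 2 ^ q)) (2 ^ q)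
    (((2 ^ m : ℕ) : ℝ) ^ (Θ - 2 * (c / 4))) f Φ k e

/-- **The slot of the parts with three levels**: the three means of the list of part L, with any coefficient of size `n ^ (20 ι)`. -/
def JTS43 (β γ : ℝ) (m : ℕ) (M dl : ℝ) : Prop := ∀ p q i : ℕ, St96 (EE μ s) δ c m p q → i < 2 ^ (m - q) →
  ∀ C : ℝ, 0 ≤ C → C ^ 2 ≤ ((2 ^ m : ℕ) : ℝ) ^ (40 * ι) → ∀ (cb : ℕ) (D : ℝ) (f : Fam (L33 K m)),
    Cls59 (L33 K m) cb ((i + 1) * 2 ^ q) D f → 0 < D → D ≤ ((2 ^ m : ℕ) : ℝ) ^ 3 →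
    JE43 μ s K Θ c ι m q i f (fun j y => C * lJ μ s (L33 K m) γ (B33 β m) (2 ^ (p - ⌈ι * (m : ℝ)⌉₊)) (2 ^ p)
      (2 ^ sg96 (EE μ s) c m p) (gl46 ι m q) ((i + 1) * 2 ^ q) j dl M f
      ((j / 2 ^ sg96 (EE μ s) c m p + 1) * 2 ^ sg96 (EE μ s) c m p) y) ∧
    JE43 μ s K Θ c ι m q i f (fun j y => C * (((gl46 ι m q : ℕ) : ℝ)⁻¹ * ∑ v ∈ range (gl46 ι m q),
      lJ μ s (L33 K m) γ (B33 β m) (2 ^ (p - ⌈ι * (m : ℝ)⌉₊)) (2 ^ p) (2 ^ sg96 (EE μ s) c m p) (gl46 ι m q) ((i + 1) * 2 ^ q) j dl M f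
        ((i + 1) * 2 ^ q - 5 * gl46 ι m q + 1 + v) y)) ∧
    JE43 μ s K Θ c ι m q i f (fun j y => C * (((gl46 ι m q : ℕ) : ℝ)⁻¹ * ∑ v ∈ range (gl46 ι m q),
      lJ μ s (L33 K m) γ (B33 β m) (2 ^ (p - ⌈ι * (m : ℝ)⌉₊)) (2 ^ p) (2 ^ sg96 (EE μ s) c m p) (gl46 ι m q) ((i + 1) * 2 ^ q) j dl M f
        ((i + 1) * 2 ^ q - 3 * gl46 ι m q + 1 + v) y))

end

end Pool.Agent.W_7d29a1_C0.E2LT43
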