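import Pool.Agent.W_7d29a1_C0.E2LR43
import Pool.Agent.W_7d29a1_C0.E2LN43
import Pool.Agent.W_7d29a1_C0.E2LT43
import Pool.Agent.W_7d29a1_C0.E2GL96

/-!
MP_7d29a1_pr, [CURV0] (helper43), section E2: PART L AT THE CONCRETE FRAME. `lstL43`: the list of part L at one length, one block, one
spectator, from the constants `Cst43`, `CstL45` and the slots `TDL43`, `JTS43`.
-/

set_option autoImplicit false
set_option linter.unusedSectionVars false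
set_option linter.unusedVariables false

namespace Pool.Agent.W_7d29a1_C0.E2LS43

open Finset MeasureTheory Filter Topology
open Pool.Agent.W_7d29a1_F Pool.Agent.W_7d29a1_X
open Pool.Agent.W_7d29a1_H (sl EE one_le_EE)
open Pool.Agent.W_7d29a1_HS (In wd)
open Pool.Agent.W_7d29a1_HZ (wd' EE')
open Pool.Agent.W_7d29a1_C0 Pool.Agent.W_7d29a1_C0.Mod92 Pool.Agent.W_7d29a1_C0.Swap57 Pool.Agent.W_7d29a1_C0.NM82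
open Pool.Agent.W_7d29a1_C0.Asm96 Pool.Agent.W_7d29a1_C0.EstC46 Pool.Agent.W_7d29a1_C0.Frm33
open Pool.Agent.W_7d29a1_C0.H32
open Pool.Agent.W_7d29a1_C0.E2G43 Pool.Agent.W_7d29a1_C0.E2K43 Pool.Agent.W_7d29a1_C0.E2W43
open Pool.Agent.W_7d29a1_C0.E2FR43 Pool.Agent.W_7d29a1_C0.E2D43 Pool.Agent.W_7d29a1_C0.E2J43
open Pool.Agent.W_7d29a1_C0.E2AS43 Pool.Agent.W_7d29a1_C0.E2AP43 Pool.Agent.W_7d29a1_C0.E2AE43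
open Pool.Agent.W_7d29a1_C0.E2LR43 Pool.Agent.W_7d29a1_C0.E2LN43 Pool.Agent.W_7d29a1_C0.E2LT43
open Pool.Agent.W_7d29a1_C0.E2KL45 (CstL45)
open Pool.Agent.W_7d29a1_C0.E2F34 (FarL34)
open Pool.Agent.W_7d29a1_C0.E2DL96 (dl96_cst qDL lJ)
open Pool.Agent.W_7d29a1_C0.E2CL45 (avy_cle)
open Pool.Agent.W_7d29a1_C0.E2C96 (mR)
open Pool.Agent.W_7d29a1_C0.E2T96 (Trm96 rw96 mem_rw96)
open Pool.Agent.W_7d29a1_C0.MicN96 (er96)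
open Pool.Agent.W_7d29a1_C0.E2S39 (Rd39 ll39 price39)
open Pool.Agent.W_7d29a1_C0.NumR62 (pow62 coL62 cf_62)
open Pool.Agent.W_7d29a1_C0.Flip61 (Cov1)
open Pool.W7d29a1.C0 Pool.W7d29a1.C0.VT31

noncomputable section

variable {μ : Measure ℝ} [IsProbabilityMeasure μ] {s : ℝ}

/-- The pairs of the window as one term. -/
theorem tdL43 {N : ℕ} {ys S : Finset ℕ} {r : ℕ} {X al eT : ℝ} {f : Fam N} {Φ : ℕ → ℕ → ℝ} (TD : Trm96 μ s N ys S r X) (hal : TD.al = al)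
    (h0 : 0 ≤ al) (heT : 0 ≤ eT) (h : Ab43 TD f Φ eT) : Dec43 μ s N ys S r X f (fun j y => al * Φ j y) 1 (al * eT) := by
  have h1 := Dec43.one (f := f) (Φ := fun j y => TD.al * mR μ s N TD.n (fun u => TD.Q u j) f y) TD fun _ _ _ _ => le_rfl
  have h2 := h1.mono_av (Ψ := fun j y => al * Φ j y) (e' := al * eT) fun j hj => by
    have h3 : avy ys (fun y => al * Φ j y) ≤ avy ys (fun y => TD.al * mR μ s N TD.n (fun u => TD.Q u j) f y + al * eT) :=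
      avy_mono fun y hy => by
        have h4 := mul_le_mul_of_nonneg_left (h j hj y hy) h0
        rw [mul_add] at h4
        rw [hal]
        exact h4
    rw [avy_add] at h3
    exact h3.trans (add_le_add le_rfl (avy_cle (mul_nonneg h0 heT) ys))
  exact h2.cast rfl (by rw [zero_add])

/-- **THE LIST OF PART L**, at one length, one block, one spectator. -/
theorem lstL43 {K : ℕ} (hK : 32 ≤ K) {δ c ι β γ Θ c₀ a a' εM εL κ M e Kg θg K0 dl : ℝ} {m k : ℕ}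
    (C : Cst43 μ s K δ ι β γ m εM κ M e k) (CL : CstL45 μ s K δ ι β γ m εL M)
    {ff ff' : ℝ → ℝ} (hd : DenLaw μ ff ff') (hs : SG μ (sc ff ff') Kg θg) (hT : TDL43 μ s K Θ δ c ι m M)
    (hJ : JTS43 μ s K Θ δ c ι β γ m M dl) (hdl : 0 < dl) (hdl1 : dl ≤ 1)
    (hF : FarAll43 μ s K δ ι β γ m) (hFL : FarL34 μ s K δ ι β γ m) (h16 : 16 ≤ ((2 ^ m : ℕ) : ℝ) ^ (ι / 2))
    (hp4 : ∀ p : ℕ, δ * m ≤ p → ((2 ^ m : ℕ) : ℝ) ^ (δ / 2) ≤ ((2 ^ p / 4 : ℕ) : ℝ))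
    (R : Reg46 (EE μ s) (wd μ s) c₀ Θ δ a' (1 / 2 * ι) ((2 ^ m : ℕ) : ℝ)) (hι : 0 < ι) (hβ : β ≤ ι)
    (hι1 : ι ≤ 1 / 40) (h64 : 64 ≤ ((2 ^ m : ℕ) : ℝ) ^ ι)
    (hgl : ∀ q : ℕ, δ * m ≤ q → q ≤ m → 1 ≤ gl46 ι m q ∧ (2 : ℝ) ^ q ≤ ((2 ^ m : ℕ) : ℝ) ^ (2 * ι) * gl46 ι m q ∧
      ((2 ^ m : ℕ) : ℝ) ^ (δ / 2) ≤ gl46 ι m q ∧ 8 * gl46 ι m q ≤ 2 ^ q)
    (htl : (((L33 K m + 1 : ℕ) : ℝ)) ^ 6 * Real.exp (4 * Kg - 1 / 2 * ((2 ^ m : ℕ) : ℝ) ^ ι) ≤ ((L33 K m : ℕ) : ℝ) ^ (-8 : ℝ))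
    (her : ((2 ^ m : ℕ) : ℝ) ^ (60 : ℕ) * ((L33 K m : ℕ) : ℝ) ^ (-2 : ℝ) ≤ 1 / 16) {p q i : ℕ} (hst : St96 (EE μ s) δ c m p q)
    (hi : i < 2 ^ (m - q)) (W : Bx43 μ s K (θg / 2) K0 ι β m p q)
    (H : Rd39 μ s c₀ Θ δ a ι ((2 ^ m : ℕ) : ℝ) c (ι / K) (δ / (8 * K)) κ M e (40 * ι) (c / 4) (L33 K m) (ys33 μ s K m)
        (Rw (R33 ι m) (i * 2 ^ q) ((i + 1) * 2 ^ q)) (2 ^ (p - ⌈ι * (m : ℝ)⌉₊)) (2 ^ p) (2 ^ sg96 (EE μ s) c m p) (gl46 ι m q)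
        ((i + 1) * 2 ^ q) (2 ^ q) (ll39 (2 ^ (p - ⌈ι * (m : ℝ)⌉₊)) k) k (i * 2 ^ q))
    {cb : ℕ} {D : ℝ} {f : Fam (L33 K m)} (hf : Cls59 (L33 K m) cb ((i + 1) * 2 ^ q) D f) (hD : 0 < D) (hDn : D ≤ ((2 ^ m : ℕ) : ℝ) ^ 3)
    {θv D' : ℝ} (hcv : ∀ j ∈ Rw (R33 ι m) (i * 2 ^ q) ((i + 1) * 2 ^ q), Cov1 (L33 K m) (2 ^ (p - ⌈ι * (m : ℝ)⌉₊)) j
      (fun y ω S => f y ω S - 2 * θv * y) D')
    {t : ℝ} (ht : t ∈ Set.Icc (-1 : ℝ) 1) : ∃ (k' : ℕ) (eE : ℝ), k' ≤ 54 ∧ 0 ≤ eE ∧ 2 ^ q * eE ≤ 1 / 16 ∧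
      Dec43 μ s (L33 K m) (ys33 μ s K m) (Rw (R33 ι m) (i * 2 ^ q) ((i + 1) * 2 ^ q)) (2 ^ q)
        (((2 ^ m : ℕ) : ℝ) ^ (Θ - 2 * (c / 4))) f (PhL43 μ s (L33 K m) γ (B33 β m) (2 ^ (p - ⌈ι * (m : ℝ)⌉₊)) (2 ^ p)
          (2 ^ sg96 (EE μ s) c m p) (gl46 ι m q) ((i + 1) * 2 ^ q) f t) k' eE := by
  have hK1 : 1 ≤ K := by omega
  have hn1 := n_ge1 m
  have hn0 : (0 : ℝ) < ((2 ^ m : ℕ) : ℝ) := by linarith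
  have hys : ∀ y ∈ ys33 μ s K m, y ≤ L33 K m := hy33 (by omega) m
  obtain ⟨z, hz⟩ : ∃ z : ℝ, ((2 ^ m : ℕ) : ℝ) ^ ι = z := ⟨_, rfl⟩
  obtain ⟨B, hB⟩ : ∃ B : ℝ, B33 β m = B := ⟨_, rfl⟩
  obtain ⟨ρ, hρ⟩ : ∃ ρ : ℝ, √(21 * rW43 μ s (L33 K m) (ι / K) K0 (2 * 2 ^ p) / ((2 ^ p / 8 : ℕ) : ℝ)) = ρ := ⟨_, rfl⟩
  obtain ⟨ρ4, hρ4⟩ : ∃ ρ4 : ℝ, √(21 * rW43 μ s (L33 K m) (ι / K) K0 (2 ^ q) / gl46 ι m q) = ρ4 := ⟨_, rfl⟩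
  have hz0 : 0 < z := by
    rw [← hz]
    positivity
  have hB0 : 0 < B := by
    rw [← hB]
    unfold B33
    exact Real.rpow_pos_of_pos hn0 _
  have hBz : B ≤ z := by
    rw [← hB, ← hz]
    unfold B33
    exact Real.rpow_le_rpow_of_exponent_le hn1 hβ
  have hz64 : 64 ≤ z := by rw [← hz]; exact h64
  have hδq : δ * m ≤ q := hst.hp.trans (by exact_mod_cast hst.hps.trans hst.hsq)
  have hpm : p ≤ m := hst.hps.trans (hst.hsq.trans hst.hqm)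
  obtain ⟨g1, g2, g3, g4⟩ := hgl q hδq hst.hqm
  -- the factors of the far lines
  obtain ⟨φb, hφb⟩ : ∃ φb : ℝ, ((2 ^ m : ℕ) : ℝ) ^ ι * (EE' μ s (2 ^ p))⁻¹ = φb := ⟨_, rfl⟩
  obtain ⟨φr, hφr⟩ : ∃ φr : ℝ, ((2 ^ m : ℕ) : ℝ) ^ ι * (EE' μ s (gl46 ι m q))⁻¹ = φr := ⟨_, rfl⟩
  obtain ⟨w1, w2⟩ := fac43 (Cf := 1) R hι hn1 h64 hB0.le (by rw [hz]; exact hBz) (by norm_num) (by norm_num) (t := 2 ^ p) (r := 2 ^ p)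
    Nat.one_le_two_pow le_rfl (le_mul_of_one_le_left (by positivity) (Real.one_le_rpow hn1 (by positivity)))
  obtain ⟨w3, w4⟩ := fac43 (Cf := 3) R hι hn1 h64 hB0.le (by rw [hz]; exact hBz) (by norm_num) (by norm_num) (t := gl46 ι m q)
    (r := 2 ^ q) g1 (by omega) (by rw [Nat.cast_pow 2 q, Nat.cast_ofNat]; exact g2)
  obtain ⟨w5, w6⟩ := phB43 (μ := μ) (s := s) hn1 h64 hι hB0.le (by rw [hz]; exact hBz) (2 ^ p)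
  rw [hφb, one_mul] at w1 w2
  rw [hφr] at w3 w4
  rw [hφb] at w5 w6
  have hρ0 : 0 ≤ ρ := hρ ▸ Real.sqrt_nonneg _
  have hρ1 : ρ ≤ 1 := by
    rw [← hρ, Real.sqrt_le_one]
    have h1 := W.near.one
    have h2 := W.near.le
    rw [div_le_one (by linarith)]
    exact h2
  have up45 : z ^ 4 ≤ z ^ 5 := pow_le_pow_right₀ (by linarith) (by norm_num)
  have k3 := cf_62 hz64 hB0.le hBz hρ0 hρ1 (C := 4) (D := 58) (by norm_num) (by norm_num) (by norm_num) (by norm_num)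
  have k4 := cf_62 hz64 hB0.le hBz hρ0 hρ1 (C := 2) (D := 44) (by norm_num) (by norm_num) (by norm_num) (by norm_num)
  have Co := coL62 W hβ h64 (one_le_EE (2 ^ p)) (one_le_EE (2 ^ q)) w1 w2 w3 w4 w5 w6 hz hB k3.1 (k3.2.trans up45) k4.1
    (k4.2.trans up45) k3.1 (k3.2.trans up45) hρ hρ4
  obtain ⟨b1, hb1⟩ : ∃ x : ℝ, x = z ^ 2 * (B / 2) ^ 2 * ρ ^ 2 * (2 * (B / 2) * (B / 2)) := ⟨_, rfl⟩
  obtain ⟨b2, hb2⟩ : ∃ x : ℝ, x = (2 * z ^ 2 * (B / 2) ^ 2 * ρ * ρ4 + 16 * z * (B / 2) ^ 2 * ρ4) * (2 * (B / 2) * (B / 2)) := ⟨_, rfl⟩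
  obtain ⟨b3, hb3⟩ : ∃ x : ℝ, x = (4 * z * (B / 2) ^ 2 * ρ + 58 * (B / 2) ^ 2) * (2 * (B / 2) * (B / 2) * φb) := ⟨_, rfl⟩
  obtain ⟨b4, hb4⟩ : ∃ x : ℝ, x = (2 * z * (B / 2) ^ 2 * ρ + 44 * (B / 2) ^ 2) * (3 * (2 * (B / 2) * (B / 2)) * φr) := ⟨_, rfl⟩
  obtain ⟨b5, hb5⟩ : ∃ x : ℝ, x = (4 * z * (B / 2) ^ 2 * ρ + 58 * (B / 2) ^ 2) * (2 * (B / 2) * (B / 2) * φb ^ 2) := ⟨_, rfl⟩
  obtain ⟨A1, hA1⟩ : ∃ x : ℝ, x = z * (B / 2) * ρ * (2 * (B / 2) * (B / 2)) := ⟨_, rfl⟩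
  obtain ⟨A2, hA2⟩ : ∃ x : ℝ, x = B / 2 * (2 * (B / 2) * (B / 2)) := ⟨_, rfl⟩
  obtain ⟨A3, hA3⟩ : ∃ x : ℝ, x = (2 * z * (B / 2) ^ 2 * ρ + 12 * (B / 2) ^ 2) * (B / 2 * (B / 2)) := ⟨_, rfl⟩
  rw [← hb1, ← hb2, ← hb3, ← hb4, ← hb5, ← hA1, ← hA2, ← hA3] at Co
  have Cf := cf43 Co
  obtain ⟨S0, S1, S2, S3⟩ := sz43 hn0.le hz hB0.le Co
  have eL : ((L33 K m : ℕ) : ℝ) ^ (ι / K) = ((2 ^ m : ℕ) : ℝ) ^ ι := L_pow43 hK1 m ι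
  have hgeo := H.geo
  have q1 := Co.q1
  have q2 := Co.q2
  have q3 := Co.q3
  have hzi : 0 ≤ ((2 ^ m : ℕ) : ℝ) ^ ι := by positivity
  -- the slots
  obtain ⟨TD, hTa, hTb⟩ := hT p q i hst hi (4 * A3 * ((2 ^ m : ℕ) : ℝ) ^ ι) (by positivity) Cf.dD
  have hTD := tdL43 TD hTa (by positivity) (mul_nonneg (mul_nonneg (by norm_num) hD.le) (Real.exp_pos _).le) (hTb cb D f hf hD.le)
  obtain ⟨k1, e1, hk1, he1, he1', hJ1⟩ := (hJ p q i hst hi (((A1 * (2 + 1) + A2 * (16 + 20)) * B + 2 * A3) * ((2 ^ m : ℕ) : ℝ) ^ ι)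
    (by positivity) Cf.j1 cb D f hf hD hDn).1
  obtain ⟨k2, e2, hk2, he2, he2', hJ2⟩ := (hJ p q i hst hi ((3 * A1 + 36 * A2) * B * ((2 ^ m : ℕ) : ℝ) ^ ι)
    (by positivity) Cf.j2 cb D f hf hD hDn).2.1
  obtain ⟨k3', e3, hk3, he3, he3', hJ3⟩ := (hJ p q i hst hi (2 * A2 * B * ((2 ^ m : ℕ) : ℝ) ^ ι)
    (by positivity) Cf.j3 cb D f hf hD hDn).2.2
  rw [hB] at hJ1 hJ2 hJ3
  -- the errors
  have hLR : (1 : ℝ) ≤ ((L33 K m : ℕ) : ℝ) := by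
    have h1 : ((2 ^ m : ℕ) : ℝ) ≤ ((L33 K m : ℕ) : ℝ) := by exact_mod_cast L33_ge hK1 m
    linarith
  have hLm : ∀ x : ℝ, x ≤ -2 → ((L33 K m : ℕ) : ℝ) ^ x ≤ ((L33 K m : ℕ) : ℝ) ^ (-2 : ℝ) := fun x hx =>
    Real.rpow_le_rpow_of_exponent_le hLR hx
  have hzn : z ^ 22 ≤ ((2 ^ m : ℕ) : ℝ) := by
    rw [← hz, ← pow62 hn0.le 22]
    calc ((2 ^ m : ℕ) : ℝ) ^ (((22 : ℕ) : ℝ) * ι) ≤ ((2 ^ m : ℕ) : ℝ) ^ (1 : ℝ) :=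
          Real.rpow_le_rpow_of_exponent_le hn1 (by push_cast; linarith)
      _ = _ := Real.rpow_one _
  have z14 : z ^ 14 ≤ ((2 ^ m : ℕ) : ℝ) := (pow_le_pow_right₀ (by linarith) (by norm_num)).trans hzn
  have z20 : z ^ 20 ≤ ((2 ^ m : ℕ) : ℝ) := (pow_le_pow_right₀ (by linarith) (by norm_num)).trans hzn
  have er8 : er96 (L33 K m) 14 = ((L33 K m : ℕ) : ℝ) ^ (-8 : ℝ) := by
    unfold er96
    rw [← Real.rpow_natCast, ← Real.rpow_add (by linarith)]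
    norm_num
  have er6 : ((L33 K m : ℕ) : ℝ) ^ 2 * er96 (L33 K m) 14 = ((L33 K m : ℕ) : ℝ) ^ (-6 : ℝ) := by
    rw [er8, ← Real.rpow_natCast, ← Real.rpow_add (by linarith)]
    norm_num
  have eN : (((L33 K m + 1 : ℕ)) : ℝ) = ((L33 K m : ℕ) : ℝ) + 1 := Nat.cast_succ _
  rw [eN, hz, show 4 * Kg - 1 / 2 * z = 4 * Kg - z / 2 by ring] at htl
  have hm4 := hLm (-4) (by norm_num)
  have j4 : ∀ x : ℝ, x ≤ ((2 ^ m : ℕ) : ℝ) ^ 20 * ((L33 K m : ℕ) : ℝ) ^ (-4 : ℝ) →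
      x ≤ ((2 ^ m : ℕ) : ℝ) ^ 20 * ((L33 K m : ℕ) : ℝ) ^ (-2 : ℝ) := fun x hx =>
    hx.trans (mul_le_mul_of_nonneg_left hm4 (by positivity))
  have num := numL43 (z := z) (B := B) (ρ := ρ) (D := D) (b5 := b5) (al := 4 * A3 * ((2 ^ m : ℕ) : ℝ) ^ ι)
    (ℓ := ((L33 K m : ℕ) : ℝ) ^ (-2 : ℝ)) (ℓ9 := ((L33 K m : ℕ) : ℝ) ^ (-9 : ℝ)) (N1 := ((L33 K m : ℕ) : ℝ) + 1)
    (Nn := ((L33 K m : ℕ) : ℝ)) (erN := er96 (L33 K m) 14) (ex := Real.exp (4 * Kg - z / 2)) (eM := Real.exp (-M))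
    hz64 hzn hB0.le hBz hρ0 hρ1 hD.le hDn S0 S1 Co.p5 (S2.trans z14) (by positivity) (S3.trans z20) (by positivity)
    (hLm (-9) (by norm_num)) (by positivity) (htl.trans (hLm (-8) (by norm_num))) (by linarith) (Real.exp_pos _).le
    (C.eM.trans (hLm (-8) (by norm_num))) (Real.exp_pos _).le (by rw [er6]; exact hLm (-6) (by norm_num)) (by rw [er6]; positivity)
    (by rw [er8]; exact hLm (-8) (by norm_num)) (by rw [er8]; positivity) (j4 _ he1') (j4 _ he2') (j4 _ he3') her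
  have dec := H.decL39 (f := f) (Φ := PhL43 μ s (L33 K m) γ (B33 β m) (2 ^ (p - ⌈ι * (m : ℝ)⌉₊)) (2 ^ p) (2 ^ sg96 (EE μ s) c m p)
      (gl46 ι m q) ((i + 1) * 2 ^ q) f t) (γ := γ) (B := B) (t := t) (εM := εL) (K' := 14) (D' := D) (ε₁ := ι / K) (δ₁ := dl)
      (ef := 2 * D * (((2 ^ m : ℕ) : ℝ) ^ 5)⁻¹) (cb := cb)
    (fun j hj => by
      rw [← hB]
      exact dl96_cst hK1 C CL hι.le (by linarith) hys hst.hp hpm (hgeo j hj) ht H.kl hf hD.le hDn (hcv j hj) hdl hdl1)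
    (b1 := b1) (b2 := b2) (b3 := b3) (b4 := b4) (b5 := b5) (A1 := A1) (A2 := A2) (A3 := A3) (B1 := 3 * A1) (B2 := 36 * A2)
    (B3 := 2 * A2) (D3 := 2 * (B / 2) * (3 * A1 + 36 * A2)) (D4 := 2 * (B / 2) * (2 * A2)) (α := 2) (β := 1) (α' := 16) (β' := 20)
    Co.p1 Co.p2 Co.p3 Co.p4 Co.p5 q1 q2 q3 (by positivity) (by positivity) (by positivity) (by positivity) (by positivity)
    (by norm_num) (by norm_num) (by norm_num) (by norm_num) hB0.le (by positivity)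
    (er := z * (B / 2) ^ 2 * ρ * (5 * (2 * (B / 2) * (B / 2) * (4 * D * ((L33 K m : ℕ) : ℝ) ^ (-9 : ℝ)))) +
        (B / 2) ^ 2 * (66 * (2 * (B / 2) * (B / 2) * (4 * D * ((L33 K m : ℕ) : ℝ) ^ (-9 : ℝ)))) +
        (2 * z * (B / 2) ^ 2 * ρ + 8 * (B / 2) ^ 2) * (2 * (B / 2) * (B / 2) * (36 * D * ((L33 K m : ℕ) : ℝ) ^ (-9 : ℝ))) +
        12 * (B / 2) ^ 2 * (2 * (B / 2) * (B / 2) * (96 * D * ((L33 K m : ℕ) : ℝ) ^ (-9 : ℝ))) +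
        (((L33 K m : ℕ) : ℝ) + 1) ^ 5 * (768 * ((B / 2) ^ 4 * D) * (((L33 K m : ℕ) : ℝ) + 1) * Real.exp (4 * Kg - z / 2)))
    (by positivity)
    (fun j hj y hy => by
      intro hne
      rw [PhL43_eq, hB]
      have hj' := mem_rw96 hj
      have r := rowL43 hd hs hK1 hF hFL h16 hy W (hgeo j hj) (dj43 hst.hsq (hgeo j hj) hj'.1) (abs_le.2 ht) hf hD (hp4 p hst.hp) g3 g4
        hz hB hρ hρ4 hφb hφr
      rw [← hb1, ← hb2, ← hb3, ← hb4, ← hb5, ← hA1, ← hA2, ← hA3] at r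
      exact r)
    (by rw [eL]; exact Co.c1) (by rw [eL]; exact Co.c2) (by rw [eL]; exact Co.c3) (by rw [eL]; exact Co.c4) (by rw [eL]; exact Co.c5)
    (by rw [eL]; exact Cf.d1) (by rw [eL]; exact Cf.d2) (by rw [eL]; exact Cf.d3) (by rw [eL]; exact Cf.d4) (by rw [eL]; exact Cf.d5)
    (by rw [eL]; exact Cf.d6) (by rw [eL]; exact Cf.d7) (by rw [eL]; exact Cf.d8) (by rw [eL]; exact Cf.d9)
    (by rw [eL]; exact hTD) (by rw [eL]; exact hJ1) (by rw [eL]; exact hJ2) (by rw [eL]; exact hJ3)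
    (eE := 1 / (16 * ((2 ^ m : ℕ) : ℝ))) num
  refine ⟨_, _, by omega, by positivity, ?_, dec⟩
  have h2q : (2 : ℝ) ^ q ≤ ((2 ^ m : ℕ) : ℝ) := by
    push_cast
    exact pow_le_pow_right₀ (by norm_num) hst.hqm
  rw [mul_one_div, div_le_div_iff₀ (by positivity) (by norm_num)]
  linarith

end

end Pool.Agent.W_7d29a1_C0.E2LS43
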