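import Pool.Agent.W_7d29a1_C0.E2L34
import Pool.Agent.W_7d29a1_C0.E2H34
import Pool.Agent.W_7d29a1_HZ.PB

/-!
MP_7d29a1_pr, [CURV0] / [C0], section E2 (helper34): **THE FAR LINES OF E2**, part 7: the numbers of the near lines of part L. `nearLN34`:
one condition (`pJ c' d'` of `x 2`), the price `N ^ ε / EE' t` times the own line plus `N ^ ε / EE' (4 n) * N ^ ε / EE' t` times the bare
tie of the spectator, up to `exp (4 D - N ^ c'')`.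
-/

set_option autoImplicit false
set_option linter.unusedSectionVars false
set_option linter.unusedVariables false

namespace Pool.Agent.W_7d29a1_C0.E2F34

open Finset MeasureTheory Filter Topology Pool.Agent.W_7d29a1_F Pool.Agent.W_7d29a1_X Pool.Agent.W_7d29a1_H
open Pool.Agent.W_7d29a1_HS (In)
open Pool.Agent.W_7d29a1_HZ (wd' EE')
open Pool.Agent.W_7d29a1_C0 Pool.Agent.W_7d29a1_C0.Mod92 Pool.Agent.W_7d29a1_C0.Swap57
open Pool.Agent.W_7d29a1_C0.F13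
open Pool.Agent.W_7d29a1_C0.Far34 (nfl nfl_nonneg Fl vv vv_nonneg i1 i1_nonneg)
open Pool.Agent.W_7d29a1_C0.MicE14 (rh rh_nonneg mi)
open Pool.Agent.W_7d29a1_C0.MicH14 (mp_rh')
open Pool.Agent.W_7d29a1_C0.NM82 (Rk)
open Pool.Agent.W_7d29a1_C0.CutE14 (P3)
open Pool.W7d29a1.C0
open Pool.W7d29a1.C0.VT31
open Pool.W7d29a1.C0.T73 (OutB bx Str pm JZ)
open Pool.W7d29a1.C0.C45 (wu meas_wu)
open Pool.W7d29a1.C0.I52 (Plan ev)

noncomputable section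

variable {μ : Measure ℝ} {s : ℝ} {N y : ℕ}

theorem FarG.err {u : Finset ℕ → Env → Px (Pn N y) → ℝ} {δ : ℝ} {t τ k : ℕ} {P : Plan (Px (Pn N y)) (k + 1)} {c d : ℕ}
    {l : Fin (k + 1)} {G e e' : ℝ} (h : FarG μ s u δ t τ P c d l G e) (he : e ≤ e') : FarG μ s u δ t τ P c d l G e' :=
  fun A X m X0 X1 hX => (h A X m X0 X1 hX).trans (add_le_add le_rfl he)

/-- The own scale of the far event against the threshold of the close pairs. -/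
theorem thr4_34 [IsProbabilityMeasure μ] {c₀ C₀ : ℝ} {n₀ : ℕ} (h : In μ s c₀ C₀ n₀) {δ ε1 : ℝ} (hδ : 0 < δ) (hε : ε1 ≤ δ / 2) :
    ∀ᶠ N : ℕ in atTop, ∀ n : ℕ, 1 ≤ n → (N : ℝ) ^ (-δ) * wd' μ s (4 * n) ≤ (N : ℝ) ^ (-ε1) * wd' μ s n := by
  obtain ⟨a, K, ha, ha1, hK, hw⟩ := Pool.Agent.W_7d29a1_HZ.Z96.wd_all96 h
  have e1 : ∀ᶠ N : ℕ in atTop, 4 * K ≤ (N : ℝ) ^ (δ / 2) := by
    have hy : Tendsto (fun N : ℕ => (N : ℝ) ^ (δ / 2)) atTop atTop :=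
      (tendsto_rpow_atTop (by positivity : 0 < δ / 2)).comp tendsto_natCast_atTop_atTop
    exact hy.eventually_ge_atTop _
  filter_upwards [e1, eventually_ge_atTop 1] with N h1 h2 n hn
  have hN : (1 : ℝ) ≤ N := by exact_mod_cast h2
  have hN0 : (0 : ℝ) < N := by linarith
  have h3 : wd' μ s (4 * n) ≤ 4 * K * wd' μ s n := by
    have h4 := (hw n (4 * n) hn (by omega)).2.2
    have hn0 : (0 : ℝ) < n := by exact_mod_cast hn
    have e2 : (((4 * n : ℕ) : ℝ) / n) ^ (1 - a) ≤ 4 := by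
      have e3 : ((4 * n : ℕ) : ℝ) / n = 4 := by
        rw [Nat.cast_mul, Nat.cast_ofNat]
        field_simp
      rw [e3]
      calc (4 : ℝ) ^ (1 - a) ≤ 4 ^ (1 : ℝ) := Real.rpow_le_rpow_of_exponent_le (by norm_num) (by linarith)
        _ = 4 := Real.rpow_one _
    have hw0 : 0 ≤ wd' μ s n := wd'_nonneg34 n
    calc wd' μ s (4 * n) ≤ K * (((4 * n : ℕ) : ℝ) / n) ^ (1 - a) * wd' μ s n := h4
      _ ≤ K * 4 * wd' μ s n := by gcongr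
      _ = 4 * K * wd' μ s n := by ring
  have hw0 : 0 ≤ wd' μ s n := wd'_nonneg34 n
  have hp : 0 ≤ (N : ℝ) ^ (-δ) := by positivity
  calc (N : ℝ) ^ (-δ) * wd' μ s (4 * n) ≤ (N : ℝ) ^ (-δ) * ((N : ℝ) ^ (δ / 2) * wd' μ s n) :=
        mul_le_mul_of_nonneg_left (h3.trans (mul_le_mul_of_nonneg_right h1 hw0)) hp
    _ = (N : ℝ) ^ (-(δ / 2)) * wd' μ s n := by
        rw [← mul_assoc, ← Real.rpow_add hN0]
        congr 2
        ring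
    _ ≤ (N : ℝ) ^ (-ε1) * wd' μ s n :=
        mul_le_mul_of_nonneg_right (Real.rpow_le_rpow_of_exponent_le hN (by linarith)) hw0

/-- **THE NEAR LINE OF PART L, for one condition, with the numbers.** -/
theorem nearLN34 [IsProbabilityMeasure μ] {c₀ C₀ : ℝ} {n₀ : ℕ} (h : In μ s c₀ C₀ n₀) : ∀ ε θ ε2 : ℝ, 0 < ε → 0 < θ → 0 < ε2 →
    ∃ δ κ c'' : ℝ, 0 < δ ∧ 0 < κ ∧ 0 < c'' ∧ ∃ N₀ : ℕ, ∀ N : ℕ, N₀ ≤ N → ∀ y : ℕ, y ≤ N →
    |(y : ℝ) - sl μ s * N| ≤ ((N : ℝ) ^ δ * wd' μ s N) → ∀ [Nonempty (Px (Pn N y))] (t τ al n c d c' d' : ℕ), (N : ℝ) ^ θ ≤ t → t ≤ N →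
    (N : ℝ) ^ θ ≤ n → 4 * n ≤ N → c ≤ al → al + n ≤ d → d ≤ N → c' ≤ d' → d' ≤ N → al + n ≤ τ + t / 4 →
    ∀ (D : ℝ) (u : Finset ℕ → Env → Px (Pn N y) → ℝ), 0 ≤ D → D ≤ (N : ℝ) ^ κ →
    (∀ S, Measurable fun ω : Env × Finset ℕ => u ω.2 ω.1 S) → (∀ A η S, |u A η S| ≤ D) → Fro (τ + t / 4) u →
    ∀ (d0 z cc : ℕ) (F : ℝ) (f : Env × Finset ℕ → Px (Pn N y) → ℝ), Sf d0 F f → 0 < F → τ + t / 4 ≤ d0 + 1 → d' ≤ z → z ≤ cc →
    (∀ ω, Rk cc (f ω)) →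
    ∀ (J : Finset ℕ) (R W : ℝ) (k0 L H nn wr : ℕ), SlabL34 μ s N ε2 t τ J R W k0 L H nn al n → al + n ≤ wr →
    ∀ O : (Fin 3 → Px (Pn N y)) → Px (Pn N y) → ℝ, (∀ x v, 0 ≤ O x v) →
    (∀ x v, O x v ≤ i1 (OutB pm (sl μ s) R (k0 : ℤ) (JZ J) (![bx pm R (k0 : ℤ) nn (x 2), bx pm R (k0 : ℤ) nn (x 1)]) v)) →
    ∫ ω, ev (P3 (pJ c d)) (wu μ s N (Pn N y) u ω) (fun x => Ob34 (NI al wr) z cc (f ω) x *
        cE (wu μ s N (Pn N y) u ω) (pJ c' d') (O x) (x 2)) ∂(Pm μ N) ≤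
      ((N : ℝ) ^ ε * (EE' μ s t)⁻¹) * ∫ ω, PP (wu μ s N (Pn N y) u ω) (fun x x' =>
        mi (wu μ s N (Pn N y) u ω) (pJ c d) (NI al wr) x * rh z cc (f ω) x x') ∂(Pm μ N) +
        ((N : ℝ) ^ ε * (EE' μ s (4 * n))⁻¹) * ((N : ℝ) ^ ε * (EE' μ s t)⁻¹) *
          ∫ ω, PP (wu μ s N (Pn N y) u ω) (fun x x' => rh z cc (f ω) x x') ∂(Pm μ N) +
        2 * F * Real.exp (4 * D - (N : ℝ) ^ c'') := by
  intro ε θ ε2 hε hθ hε2
  obtain ⟨δa, κa, ca, hδa, hκa, hca, Na, ha⟩ := farG34 h 2 ε θ hε hθ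
  obtain ⟨δb, κb, cb, hδb, hκb, hcb, Nb, hb⟩ := farG34 h 1 ε θ hε hθ
  obtain ⟨δs, cs, hδs, hcs, Ns, hs⟩ := steepU34 h hε2
  obtain ⟨ε1, he1⟩ : ∃ ε1 : ℝ, ε1 = min (δa / 2) θ := ⟨_, rfl⟩
  have hε1 : 0 < ε1 := by
    rw [he1]
    exact lt_min (by positivity) hθ
  obtain ⟨δc, cc1, hδc, hcc1, Nc, hc1⟩ := close34 h hε1
  obtain ⟨cm, hcm⟩ : ∃ cm : ℝ, cm = min (min ca cb) (min cs cc1) := ⟨_, rfl⟩
  have cm0 : 0 < cm := by
    rw [hcm]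
    exact lt_min (lt_min hca hcb) (lt_min hcs hcc1)
  have ev1 := Pool.Agent.W_7d29a1_HZ.Z22.absorb 8 ε (b := 1) (g := cm) one_pos cm0
  obtain ⟨N₂, hN₂⟩ := eventually_atTop.1 (ev1.and (thr4_34 h hδa (by rw [he1]; exact min_le_left _ _ : ε1 ≤ δa / 2)))
  refine ⟨min (min δa δb) (min δs δc), min κa κb, cm / 2, lt_min (lt_min hδa hδb) (lt_min hδs hδc), lt_min hκa hκb, by positivity,
    max (max (max Na Nb) (max Ns Nc)) (max N₂ 1), fun N hN y hy hyc _ t τ al n c d c' d' htN ht hnN hn4 hcal hald hd hcd' hd' hat D u hD0 hD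
    hum hu hfr d0 z cc F f hf hF hτ hdz hzc hfR J R W k0 L H nn wr hS hwr O O0 hO => ?_⟩
  have hNa : Na ≤ N := le_trans (by simp) hN
  have hNb : Nb ≤ N := le_trans (by simp) hN
  have hNs : Ns ≤ N := le_trans (by simp) hN
  have hNc : Nc ≤ N := le_trans (by simp) hN
  have hN2 : N₂ ≤ N := le_trans (by simp) hN
  have hN1 : 1 ≤ N := le_trans (by simp) hN
  have hNR : (1 : ℝ) ≤ N := by exact_mod_cast hN1
  obtain ⟨hab, hth⟩ := hN₂ N hN2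
  have cone : ∀ e, min (min δa δb) (min δs δc) ≤ e → |(y : ℝ) - sl μ s * N| ≤ ((N : ℝ) ^ e * wd' μ s N) := fun e he =>
    hyc.trans (mul_le_mul_of_nonneg_right (Real.rpow_le_rpow_of_exponent_le hNR he) (wd'_nonneg34 _))
  have kap : ∀ e, min κa κb ≤ e → D ≤ (N : ℝ) ^ e := fun e he => hD.trans (Real.rpow_le_rpow_of_exponent_le hNR he)
  obtain ⟨E, hE⟩ : ∃ E : ℝ, E = Real.exp (4 * D - (N : ℝ) ^ cm) := ⟨_, rfl⟩
  have ex : ∀ (a b : ℝ), b ≤ 4 * D → cm ≤ a → Real.exp (b - (N : ℝ) ^ a) ≤ E := fun a b hb' ha' => by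
    rw [hE]
    refine Real.exp_le_exp.2 ?_
    have := Real.rpow_le_rpow_of_exponent_le hNR ha'
    linarith
  have ex0 : ∀ a : ℝ, cm ≤ a → Real.exp (-(N : ℝ) ^ a) ≤ E := fun a ha' => by
    have h1 := ex a 0 (by linarith) ha'
    rwa [zero_sub] at h1
  have ma : cm ≤ ca := by rw [hcm]; exact (min_le_left _ _).trans (min_le_left _ _)
  have mb : cm ≤ cb := by rw [hcm]; exact (min_le_left _ _).trans (min_le_right _ _)
  have ms : cm ≤ cs := by rw [hcm]; exact (min_le_right _ _).trans (min_le_left _ _)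
  have mc : cm ≤ cc1 := by rw [hcm]; exact (min_le_right _ _).trans (min_le_right _ _)
  have hcd : c ≤ d := by omega
  have hn1 : 1 ≤ n := by
    have h1 : (1 : ℝ) ≤ n := (Real.one_le_rpow hNR hθ.le).trans hnN
    exact_mod_cast h1
  have h4n : 4 * n / 4 = n := by omega
  have hP := bp_P3 (N := N) (y := y) hcd hd
  have hP2 : BP N y (P2f (Px (Pn N y))) := (BP.nil.fr).fr
  have hPq : BP N y (Pq (pJ (Q := Pn N y) c' d')) := hP2.gi hcd' hd' 1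
  have g1 := (ha N hNa t htN ht y hy (cone _ ((min_le_left _ _).trans (min_le_left _ _))) _ hP τ c' d' 2 hcd' hd' D u hD0
    (kap _ (min_le_left _ _)) hum hu hfr).err (ex0 _ ma)
  have g3 := (hb N hNb t htN ht y hy (cone _ ((min_le_left _ _).trans (min_le_right _ _))) _ hP2 τ c' d' 1 hcd' hd' D u hD0
    (kap _ (min_le_right _ _)) hum hu hfr).err (ex0 _ mb)
  have g2 := (ha N hNa (4 * n) (by push_cast; linarith) hn4 y hy (cone _ ((min_le_left _ _).trans (min_le_left _ _))) _ hPq al c d 0 hcd hd D u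
    hD0 (kap _ (min_le_left _ _)) hum hu (hfr.mono (by rw [h4n]; exact hat))).err (ex0 _ ma)
  have st := (hs N hNs y hy (cone _ ((min_le_right _ _).trans (min_le_left _ _))) D u hum hu).trans (ex cs (2 * D) (by linarith) ms)
  have cl := (hc1 N hNc y hy (cone _ ((min_le_right _ _).trans (min_le_right _ _))) D u hum hu c d al n hcal hald hd
    (le_trans (Real.rpow_le_rpow_of_exponent_le hNR (by rw [he1]; exact min_le_right _ _)) hnN)).trans (ex cc1 (4 * D) le_rfl mc)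
  have hG2 : 0 ≤ (N : ℝ) ^ ε * (EE' μ s (4 * n))⁻¹ := by
    have : 0 ≤ EE' μ s (4 * n) := zero_le_one.trans (le_max_left _ _)
    positivity
  have hI0 : ∀ S S' : Px (Pn N y), 0 ≤ NI al wr S S' := fun S S' => NI_nonneg _ _ _ _
  have hI1 : ∀ S S' : Px (Pn N y), NI al wr S S' ≤ 1 := fun S S' => CutT57.NI_le_one _ _ _ _
  have hmp : ∀ ω S, Mp (pJ c' d') fun S' : Px (Pn N y) => rh z cc (f ω) S' S := fun ω S => mp_rh' hdz hzc (hfR ω) S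
  have hτ2 : al + 4 * n / 4 ≤ d0 + 1 := by
    rw [h4n]
    omega
  have hB0 : ∀ (x : Fin 3 → Px (Pn N y)) v, 0 ≤ nearB μ s N ε2 t τ R W al n x v := nearB_nonneg
  have hB1 : ∀ (x : Fin 3 → Px (Pn N y)) v, nearB μ s N ε2 t τ R W al n x v ≤ 1 := nearB_le_one
  have hnf0 : ∀ S : Px (Pn N y), 0 ≤ nfl N (sl μ s) (vv μ s N ε2) S := nfl_nonneg N (sl μ s) (vv μ s N ε2)
  have hnf1 : ∀ S : Px (Pn N y), nfl N (sl μ s) (vv μ s N ε2) S ≤ 1 := nfl_le_one N (sl μ s) (vv μ s N ε2)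
  have hho : ∀ x : Fin 3 → Px (Pn N y), pJ c d (x 1) = pJ c d (x 2) → ∀ v, O x v ≤ (fI μ s δa t τ x v + nearB μ s N ε2 t τ R W al n x v) +
      (∑ i, nfl N (sl μ s) (vv μ s N ε2) (x i) + nfl N (sl μ s) (vv μ s N ε2) v) := fun x _ v => geoO34 hS hδa.le hN1 x v (hO x v)
  obtain ⟨r, hr⟩ : ∃ r : ℝ, r = (N : ℝ) ^ (-ε1) * wd' μ s n := ⟨_, rfl⟩
  rw [← hr] at cl
  have hl0 : ∀ a b : Px (Pn N y), 0 ≤ clI al n r a b := clI_nonneg _ _ _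
  have hl1 : ∀ a b : Px (Pn N y), clI al n r a b ≤ 1 := clI_le_one _ _ _
  have hth' := hth n hn1
  rw [← hr] at hth'
  have hBB : ∀ a b c₁ v : Px (Pn N y), pJ c d b = pJ c d a → pJ c' d' a = pJ c' d' v →
      NI al wr a b * nearB μ s N ε2 t τ R W al n ![c₁, b, a] v ≤ fI μ s δb t τ ![c₁, v] a * fI μ s δa (4 * n) al ![a, c₁, v] b +
        clI al n r a b := fun a b c₁ v _ _ => geoB34 hS hδa.le hδb.le hN1 hth' hwr a b c₁ v
  have key := nearL34 hcd hd hcd' hd' g1 g3 g2 hG2 hum hI0 hI1 hf hF hτ hτ2 hmp O0 hB0 hB1 hnf0 hnf1 hho st hl0 hl1 cl hBB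
  refine key.trans (add_le_add le_rfl (mul_le_mul_of_nonneg_left ?_ (by positivity)))
  have hG2' : (N : ℝ) ^ ε * (EE' μ s (4 * n))⁻¹ ≤ (N : ℝ) ^ ε := by
    refine mul_le_of_le_one_right (by positivity) (inv_le_one_of_one_le₀ (le_max_left _ _))
  have hE0 : 0 < E := by
    rw [hE]
    exact Real.exp_pos _
  have hNε : 1 ≤ (N : ℝ) ^ ε := Real.one_le_rpow hNR hε.le
  have h1 : (2 + (N : ℝ) ^ ε * (EE' μ s (4 * n))⁻¹) * E + 4 * E + E ≤ 8 * (N : ℝ) ^ ε * E := by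
    have h2 : (2 + (N : ℝ) ^ ε * (EE' μ s (4 * n))⁻¹) * E ≤ (2 + (N : ℝ) ^ ε) * E :=
      mul_le_mul_of_nonneg_right (add_le_add le_rfl hG2') hE0.le
    have h3 : 1 * E ≤ (N : ℝ) ^ ε * E := mul_le_mul_of_nonneg_right hNε hE0.le
    calc _ ≤ (2 + (N : ℝ) ^ ε) * E + 4 * E + E := add_le_add (add_le_add h2 le_rfl) le_rfl
      _ = (N : ℝ) ^ ε * E + 7 * (1 * E) := by ring
      _ ≤ (N : ℝ) ^ ε * E + 7 * ((N : ℝ) ^ ε * E) := add_le_add le_rfl (mul_le_mul_of_nonneg_left h3 (by norm_num))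
      _ = _ := by ring
  refine h1.trans ?_
  have e1 : E = Real.exp (4 * D) * Real.exp (-(1 * (N : ℝ) ^ cm)) := by
    rw [hE, ← Real.exp_add]
    congr 1
    ring
  have e2 : Real.exp (4 * D - (N : ℝ) ^ (cm / 2)) = Real.exp (4 * D) * Real.exp (-(N : ℝ) ^ (cm / 2)) := by
    rw [← Real.exp_add]
    congr 1
  rw [e1, e2]
  calc 8 * (N : ℝ) ^ ε * (Real.exp (4 * D) * Real.exp (-(1 * (N : ℝ) ^ cm))) =
        Real.exp (4 * D) * (8 * (N : ℝ) ^ ε * Real.exp (-(1 * (N : ℝ) ^ cm))) := by ring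
    _ ≤ _ := mul_le_mul_of_nonneg_left hab (Real.exp_pos _).le

end

end Pool.Agent.W_7d29a1_C0.E2F34
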