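import Pool.Agent.W_7d29a1_C0.E2F59
import Pool.Agent.W_7d29a1_C0.MicH14

/-!
MP_7d29a1_pr, [CURV0] (helper59), section E2: THE FUNCTIONALS ARE MEASURABLE AND BOUNDED. `G1d`, `G2d`: families of functions of one and
of two paths, measurable in the environment at fixed signs and bounded; closed under products, sums, conditional means, `mi`, `nn`;
`gd_PP`, `gd_G1`, `gd_T0Q`, `gd_FO`, `g1_Gm`.
-/

set_option autoImplicit false
set_option linter.unusedSectionVars false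

namespace Pool.Agent.W_7d29a1_C0.E2M59

open Finset MeasureTheory Pool.Agent.W_7d29a1_F Pool.Agent.W_7d29a1_X Pool.Agent.W_7d29a1_H
open Pool.Agent.W_7d29a1_C0 Pool.Agent.W_7d29a1_C0.Mod92 Pool.Agent.W_7d29a1_C0.Swap57 Pool.Agent.W_7d29a1_C0.NM82
open Pool.Agent.W_7d29a1_C0.CutF59 Pool.Agent.W_7d29a1_C0.E2F59 Pool.Agent.W_7d29a1_C0.E2Q59
open Pool.Agent.W_7d29a1_C0.CutE14 (P3)
open Pool.Agent.W_7d29a1_C0.MicE14 (Cq nn mi rh)
open Pool.Agent.W_7d29a1_C0.MicH14 (G1 T0Q)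
open Pool.Agent.W_7d29a1_C0.E1M82 (Gd)
open Pool.W7d29a1.C0
open Pool.W7d29a1.C0.VT31
open Pool.W7d29a1.C0.I52 (KS av ev ks_ev Plan)
open Pool.W7d29a1.C0.H41 (Obs)

noncomputable section

variable {X : Type*} [Fintype X] [DecidableEq X] [Nonempty X] {Y : Type*} [DecidableEq Y]

/-- A family of functions of one path: measurable at fixed signs, bounded. -/
structure G1d (F : Env × Finset ℕ → X → ℝ) : Prop where
  ms : ∀ A x, Measurable fun η => F (η, A) x
  bd : ∃ K, ∀ ω x, |F ω x| ≤ K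

/-- A family of functions of two paths: measurable at fixed signs, bounded. -/
structure G2d (F : Env × Finset ℕ → X → X → ℝ) : Prop where
  ms : ∀ A x x', Measurable fun η => F (η, A) x x'
  bd : ∃ K, ∀ ω x x', |F ω x x'| ≤ K

/-- Measurable weights. -/
def Mw (w : Env × Finset ℕ → X → ℝ) : Prop := ∀ A x, Measurable fun η => w (η, A) x

variable {w : Env × Finset ℕ → X → ℝ} {F H : Env × Finset ℕ → X → ℝ} {K L : Env × Finset ℕ → X → X → ℝ}

theorem G1d.cst (f : X → ℝ) : G1d fun _ => f :=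
  ⟨fun _ _ => measurable_const, ∑ x, |f x|, fun _ x => Finset.single_le_sum (f := fun x => |f x|) (fun _ _ => abs_nonneg _)
    (mem_univ x)⟩

theorem G2d.cst (f : X → X → ℝ) : G2d fun _ => f :=
  ⟨fun _ _ _ => measurable_const, ∑ x, ∑ x', |f x x'|, fun _ x x' =>
    (Finset.single_le_sum (f := fun x' => |f x x'|) (fun _ _ => abs_nonneg _) (mem_univ x')).trans
      (Finset.single_le_sum (f := fun x => ∑ x', |f x x'|) (fun _ _ => Finset.sum_nonneg fun _ _ => abs_nonneg _) (mem_univ x))⟩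

theorem G1d.mul (h1 : G1d F) (h2 : G1d H) : G1d fun ω x => F ω x * H ω x := by
  obtain ⟨K, hK⟩ := h1.bd
  obtain ⟨L, hL⟩ := h2.bd
  refine ⟨fun A x => (h1.ms A x).mul (h2.ms A x), K * L, fun ω x => ?_⟩
  rw [abs_mul]
  exact mul_le_mul (hK ω x) (hL ω x) (abs_nonneg _) ((abs_nonneg _).trans (hK ω x))

theorem G1d.add (h1 : G1d F) (h2 : G1d H) : G1d fun ω x => F ω x + H ω x := by
  obtain ⟨K, hK⟩ := h1.bd
  obtain ⟨L, hL⟩ := h2.bd
  exact ⟨fun A x => (h1.ms A x).add (h2.ms A x), K + L, fun ω x => (abs_add_le _ _).trans (add_le_add (hK ω x) (hL ω x))⟩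

theorem G1d.sub (h1 : G1d F) (h2 : G1d H) : G1d fun ω x => F ω x - H ω x := by
  obtain ⟨K, hK⟩ := h1.bd
  obtain ⟨L, hL⟩ := h2.bd
  exact ⟨fun A x => (h1.ms A x).sub (h2.ms A x), K + L, fun ω x => (abs_sub _ _).trans (add_le_add (hK ω x) (hL ω x))⟩

theorem G1d.smul (h1 : G1d F) (k : ℝ) : G1d fun ω x => k * F ω x := by
  obtain ⟨K, hK⟩ := h1.bd
  refine ⟨fun A x => (h1.ms A x).const_mul k, |k| * K, fun ω x => ?_⟩
  rw [abs_mul]
  exact mul_le_mul_of_nonneg_left (hK ω x) (abs_nonneg _)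

theorem G1d.sum {T : Type*} (s : Finset T) {F : T → Env × Finset ℕ → X → ℝ} (h : ∀ i ∈ s, G1d (F i)) :
    G1d fun ω x => ∑ i ∈ s, F i ω x := by
  classical
  induction s using Finset.induction_on with
  | empty =>
    simp only [Finset.sum_empty]
    exact G1d.cst fun _ => 0
  | insert a s ha ih =>
    simp only [Finset.sum_insert ha]
    exact (h a (Finset.mem_insert_self a s)).add (ih fun i hi => h i (Finset.mem_insert_of_mem hi))

theorem G2d.mul (h1 : G2d K) (h2 : G2d L) : G2d fun ω x x' => K ω x x' * L ω x x' := by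
  obtain ⟨K, hK⟩ := h1.bd
  obtain ⟨L, hL⟩ := h2.bd
  refine ⟨fun A x x' => (h1.ms A x x').mul (h2.ms A x x'), K * L, fun ω x x' => ?_⟩
  rw [abs_mul]
  exact mul_le_mul (hK ω x x') (hL ω x x') (abs_nonneg _) ((abs_nonneg _).trans (hK ω x x'))

theorem G1d.fst (h : G1d F) : G2d fun ω x (_ : X) => F ω x := by
  obtain ⟨K, hK⟩ := h.bd
  exact ⟨fun A x _ => h.ms A x, K, fun ω x _ => hK ω x⟩

theorem G1d.snd (h : G1d F) : G2d fun ω (_ : X) x => F ω x := by
  obtain ⟨K, hK⟩ := h.bd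
  exact ⟨fun A _ x => h.ms A x, K, fun ω _ x => hK ω x⟩

theorem G2d.at (h : G2d K) (x : X) : G1d fun ω x' => K ω x x' := by
  obtain ⟨M, hM⟩ := h.bd
  exact ⟨fun A x' => h.ms A x x', M, fun ω x' => hM ω x x'⟩

/-- The difference of the values. -/
theorem G1d.dif (h : G1d F) : G2d fun ω x x' => |F ω x - F ω x'| := by
  obtain ⟨K, hK⟩ := h.bd
  refine ⟨fun A x x' => measurable_abs.comp ((h.ms A x).sub (h.ms A x')), K + K, fun ω x x' => ?_⟩
  rw [abs_abs]
  exact (abs_sub _ _).trans (add_le_add (hK ω x) (hK ω x'))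

theorem G1d.gm (hw : Mw w) (h : G1d F) : Gd fun ω => gm (w ω) (F ω) := by
  obtain ⟨K, hK⟩ := h.bd
  refine ⟨fun A => meas_gm (hw A) (h.ms A), K, fun ω => ?_⟩
  exact (abs_gm_le _ _).trans ((gm_mono _ fun x => hK ω x).trans_eq (gm_const _ K))

theorem G1d.cE (hw : Mw w) (h : G1d F) (p : X → Y) : G1d fun ω x => cE (w ω) p (F ω) x := by
  obtain ⟨K, hK⟩ := h.bd
  exact ⟨fun A x => meas_cE (hw A) (h.ms A) p x, K, fun ω x => abs_cE_le (w ω) p (hK ω) x⟩

/-- The conditional mean of the second path given a function of the first one. -/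
theorem G2d.cE (hw : Mw w) (h : G2d K) (p : X → Y) : G1d fun ω x => cE (w ω) p (K ω x) x := by
  obtain ⟨M, hM⟩ := h.bd
  exact ⟨fun A x => meas_cE (hw A) (fun x' => h.ms A x x') p x, M, fun ω x => abs_cE_le (w ω) p (hM ω x) x⟩

theorem G2d.PP (hw : Mw w) (h : G2d K) : Gd fun ω => PP (w ω) (K ω) := by
  obtain ⟨M, hM⟩ := h.bd
  refine ⟨fun A => ?_, M, fun ω => ?_⟩
  · simp only [PP_eq]
    refine Measurable.div (Finset.measurable_fun_sum _ fun x _ => Finset.measurable_fun_sum _ fun x' _ => ?_)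
      ((meas_gz (hw A)).pow_const 2)
    exact ((hw A x).exp.mul (hw A x').exp).mul (h.ms A x x')
  · unfold Pool.W7d29a1.C0.PP
    exact H41.abs_rep_le_of _ _ fun x => hM ω _ _

theorem g1_mi (hw : Mw w) (p : X → Y) (I : X → X → ℝ) : G1d fun ω => mi (w ω) p I := (G2d.cst I).cE hw p

theorem g1_nn (hw : Mw w) (J : Finset ℕ) (q : ℕ → X → Y) (h : G1d F) : G1d fun ω => nn (w ω) J q (F ω) :=
  (G1d.sum J fun m _ => h.dif.cE hw (q m)).smul _

theorem g1_Cq (hw : Mw w) (J : Finset ℕ) (q : ℕ → X → Y) (h : G1d F) : G1d fun ω => Cq (w ω) J q (F ω) :=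
  (G1d.sum J fun m _ => h.cE hw (q m)).smul _

theorem Gd.add59' {Φ Ψ : Env × Finset ℕ → ℝ} (h1 : Gd Φ) (h2 : Gd Ψ) : Gd fun ω => Φ ω + Ψ ω := E2Q59.Gd.add59 h1 h2

theorem Gd.smul59 {Φ : Env × Finset ℕ → ℝ} (h1 : Gd Φ) (k : ℝ) : Gd fun ω => k * Φ ω := by
  obtain ⟨K, hK⟩ := h1.bd
  refine ⟨fun A => (h1.ms A).const_mul k, |k| * K, fun ω => ?_⟩
  rw [abs_mul]
  exact mul_le_mul_of_nonneg_left (hK ω) (abs_nonneg _)

theorem Gd.sum59 {T : Type*} (s : Finset T) {F : T → Env × Finset ℕ → ℝ} (h : ∀ i ∈ s, Gd (F i)) :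
    Gd fun ω => ∑ i ∈ s, F i ω := by
  classical
  induction s using Finset.induction_on with
  | empty =>
    simp only [Finset.sum_empty]
    exact ⟨fun _ => measurable_const, 0, fun _ => by rw [abs_zero]⟩
  | insert a s ha ih =>
    simp only [Finset.sum_insert ha]
    exact Gd.add59' (h a (Finset.mem_insert_self a s)) (ih fun i hi => h i (Finset.mem_insert_of_mem hi))

variable {Y' : Type*} [DecidableEq Y'] {ρ : Env × Finset ℕ → X → X → ℝ} {n : Env × Finset ℕ → X → ℝ}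

theorem gd_own (hw : Mw w) (p : X → Y) (I : X → X → ℝ) (hρ : G2d ρ) :
    Gd fun ω => PP (w ω) fun x x' => mi (w ω) p I x * ρ ω x x' := ((g1_mi hw p I).fst.mul hρ).PP hw

theorem gd_tie (hw : Mw w) (p : X → Y) (I : X → X → ℝ) (hn : G1d n) (hρ : G2d ρ) :
    Gd fun ω => PP (w ω) fun x x' => mi (w ω) p I x * (n ω x * ρ ω x x') := ((g1_mi hw p I).fst.mul (hn.fst.mul hρ)).PP hw

theorem gd_G1 (hw : Mw w) (p : X → Y) (I : X → X → ℝ) (hρ : G2d ρ) (hn : G1d n) (α β : ℝ) :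
    Gd fun ω => G1 (w ω) p I (ρ ω) (n ω) α β :=
  Gd.add59' (Gd.smul59 (gd_tie hw p I hn hρ) α) (Gd.smul59 (gd_tie hw p I (hn.cE hw p) hρ) β)

theorem gd_T0Q (hw : Mw w) (p : X → Y) (J : Finset ℕ) (q : ℕ → X → Y') (I : X → X → ℝ) (hρ : G2d ρ) (hn : G1d n) :
    Gd fun ω => T0Q (w ω) p J q I (ρ ω) (n ω) :=
  Gd.smul59 (Gd.sum59 J fun m _ => (((g1_mi hw p I).cE hw (q m)).fst.mul (hn.fst.mul hρ)).PP hw) _

/-- The far functional. -/
theorem gd_FO {B : Type*} (hw : Mw w) (p : X → Y) (b : X → B) {o : (Fin 3 → B) → X → ℝ} (o0 : ∀ β S, 0 ≤ o β S)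
    (o1 : ∀ β S, o β S ≤ 1) {Ψ : Env × Finset ℕ → (Fin 3 → X) → ℝ} {K : ℝ} (hΨ : ∀ A, Obs (fun η => Ψ (η, A)) K) {a : ℝ} (ha : 0 ≤ a) :
    Gd fun ω => FO (w ω) p b o (Ψ ω) a := by
  have ho : ∀ β S, |o β S| ≤ 1 := fun β S => by rw [abs_of_nonneg (o0 β S)]; exact o1 β S
  have hmw : ∀ A, Measurable fun η => w (η, A) := fun A => measurable_pi_lambda _ (hw A)
  have hg := gd_ev59 (X := X) (ι := Fin 3) (P3 p).ks.toEv (w := w) hmw
    (Ψ := fun ω x => |Ψ ω x| * (∑ i, o (fun i => b (x i)) (x i) +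
      a * (2 * gm (w ω) (o fun i => b (x i)) + cE (w ω) p (o fun i => b (x i)) (x 2)))) (K := K * (3 + a * 3)) fun A => ?_
  · have e : (fun ω => FO (w ω) p b o (Ψ ω) a) = fun ω => (P3 p).ks.toEv.ev (w ω) (fun x => |Ψ ω x| * (∑ i, o (fun i => b (x i)) (x i) +
      a * (2 * gm (w ω) (o fun i => b (x i)) + cE (w ω) p (o fun i => b (x i)) (x 2)))) := by
      funext ω
      unfold FO
      rw [ks_ev]
    rw [e]
    exact hg
  · refine ⟨measurable_pi_lambda _ fun x => ?_, fun η x => ?_⟩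
    · refine (measurable_abs.comp ((measurable_pi_apply x).comp (hΨ A).meas)).mul (measurable_const.add (Measurable.const_mul ?_ a))
      exact (Measurable.const_mul (meas_gm (f := fun _ => o fun i => b (x i)) (hw A) fun _ => measurable_const) 2).add
        (meas_cE (f := fun _ => o fun i => b (x i)) (hw A) (fun _ => measurable_const) p (x 2))
    · have hK := (hΨ A).bd η x
      have h1 : |∑ i, o (fun i => b (x i)) (x i)| ≤ 3 := by
        refine (Finset.abs_sum_le_sum_abs _ _).trans ((Finset.sum_le_sum fun i _ => ho _ _).trans_eq ?_)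
        rw [Finset.sum_const, Finset.card_univ, Fintype.card_fin]
        norm_num
      have h2 : |gm (w (η, A)) (o fun i => b (x i))| ≤ 1 :=
        (abs_gm_le _ _).trans ((gm_mono _ fun y => ho _ y).trans_eq (gm_const _ 1))
      have h3 : |cE (w (η, A)) p (o fun i => b (x i)) (x 2)| ≤ 1 := abs_cE_le _ _ (ho _) _
      have h4 : |2 * gm (w (η, A)) (o fun i => b (x i)) + cE (w (η, A)) p (o fun i => b (x i)) (x 2)| ≤ 3 := by
        refine (abs_add_le _ _).trans ?_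
        rw [abs_mul, abs_two]
        linarith
      rw [abs_mul, abs_abs]
      refine mul_le_mul hK ((abs_add_le _ _).trans (add_le_add h1 ?_)) (abs_nonneg _) ((abs_nonneg _).trans hK)
      rw [abs_mul, abs_of_nonneg ha]
      exact mul_le_mul_of_nonneg_left h4 ha

/-- The mass of the pairs given the ends of the window, averaged over the tilts. -/
theorem g1_Gm {Q : Finset (Finset ℕ)} [Nonempty (Px Q)] {w g : Env × Finset ℕ → Px Q → ℝ} (hw : Mw w)
    (hg : ∀ A x, Measurable fun η => g (η, A) x) (a : Finset ℕ → ℝ) (q : Px Q → Finset ℕ × ℕ) (i k : ℕ) :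
    G1d fun ω => Gm59 (w ω) (g ω) (a ω.2) q i k := by
  refine ⟨fun A S => ?_, 2, fun ω S => ?_⟩
  · unfold Gm59
    have hw' : ∀ x, Measurable fun r : Env × ℝ => (w (r.1, A) + (r.2 - a A) • g (r.1, A)) x := fun x =>
      ((hw A x).comp measurable_fst).add ((measurable_snd.sub measurable_const).mul ((hg A x).comp measurable_fst))
    have h0 : ∀ z : Px Q, Measurable fun r : Env × ℝ => cE (w (r.1, A) + (r.2 - a A) • g (r.1, A)) q (NI i k z) S := fun z =>
      meas_cE (Ω := Env × ℝ) (w := fun r => w (r.1, A) + (r.2 - a A) • g (r.1, A)) (f := fun _ => NI i k z) hw'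
        (fun _ => measurable_const) q S
    have h1 : Measurable fun r : Env × ℝ => cE2 (w (r.1, A) + (r.2 - a A) • g (r.1, A)) q (NI i k) S S :=
      meas_cE (Ω := Env × ℝ) (w := fun r => w (r.1, A) + (r.2 - a A) • g (r.1, A))
        (f := fun r z => cE (w (r.1, A) + (r.2 - a A) • g (r.1, A)) q (NI i k z) S) hw' h0 q S
    have h2 : ∀ η, ∫ t in (-1 : ℝ)..1, cE2 (w (η, A) + (t - a A) • g (η, A)) q (NI i k) S S =
        ∫ t, cE2 (w (η, A) + (t - a A) • g (η, A)) q (NI i k) S S ∂(volume.restrict (Set.Ioc (-1 : ℝ) 1)) := fun η =>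
      intervalIntegral.integral_of_le (by norm_num)
    simp only [h2]
    exact (h1.stronglyMeasurable.integral_prod_right' (ν := volume.restrict (Set.Ioc (-1 : ℝ) 1))).measurable
  · unfold Gm59
    have hN : ∀ z z' : Px Q, |NI i k z z'| ≤ 1 := fun z z' => by
      rw [abs_of_nonneg (NI_nonneg _ _ _ _)]
      exact NI_le_one _ _ _ _
    have h1 : ∀ t ∈ Set.uIoc (-1 : ℝ) 1, ‖cE2 (w ω + (t - a ω.2) • g ω) q (NI i k) S S‖ ≤ 1 := fun t _ => by
      rw [Real.norm_eq_abs]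
      exact abs_cE_le (w ω + (t - a ω.2) • g ω) q (f := fun z => cE (w ω + (t - a ω.2) • g ω) q (NI i k z) S)
        (fun z => abs_cE_le (w ω + (t - a ω.2) • g ω) q (hN z) S) S
    have h2 := intervalIntegral.norm_integral_le_of_norm_le_const h1
    rw [Real.norm_eq_abs] at h2
    refine h2.trans (le_of_eq ?_)
    norm_num

end

end Pool.Agent.W_7d29a1_C0.E2M59
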