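import Pool.Agent.W_7d29a1_C0.Two63B

/-!
CURV0 (MP_7d29a1_pr), leaf E2.4: TWO DERIVATIVES in the direction of a path functional `G`, with MACRO slabs for the remainders: the
remainders `N i = G - C i` of the two near slabs are replaced by their averages behind a macro slab `S3` (fields `c3`, `c3'`), so that
the rest `H` has mean zero given the path behind the macro slab; the product `G * H` of two insertions at one free replica goes to a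
second macro slab `S4`. All fields may depend on a key `κ` of the replicas (boxes, pinned positions). `two_core` (exact), `e2m`
(absolute values). (helper63)
-/

set_option autoImplicit false
set_option linter.unusedSectionVars false
set_option linter.unusedVariables false

namespace Pool.W7d29a1.C0.R63

open MeasureTheory ProbabilityTheory Filter Topology Finset
open Pool.Agent.W_7d29a1_F Pool.Agent.W_7d29a1_C0.H32 Pool.W7d29a1.C0 Pool.W7d29a1.C0.H41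
open Pool.W7d29a1.C0.H19 (Cf BF int_exp_SS mul_le_tail)

noncomputable section

variable {μ : Measure ℝ} {f f' : ℝ → ℝ} {bk1 bk2 : Bool}
variable {X ι ι' ι2 : Type*} [Fintype X] [Nonempty X] [Fintype ι] [DecidableEq ι] [Fintype ι'] [DecidableEq ι']
  [Fintype ι2] [DecidableEq ι2] {J : Type*} [Fintype J] [DecidableEq J] {E : Ev X ι} {E' : Ev X ι'} {E2 : Ev X ι2}

/-! ### Localisation by a key -/

/-- The part of `Ψ` with the key `β`. -/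
def lcK (κ : (ι → X) → J) (β : J) (Ψ : (ι → X) → ℝ) : (ι → X) → ℝ := fun x => if κ x = β then Ψ x else 0

theorem sum_lcK (κ : (ι → X) → J) (Ψ : (ι → X) → ℝ) (x : ι → X) : ∑ β, lcK κ β Ψ x = Ψ x := by
  unfold lcK
  rw [Finset.sum_ite_eq]
  simp

theorem abs_lcK (κ : (ι → X) → J) (β : J) (Ψ : (ι → X) → ℝ) (x : ι → X) :
    |lcK κ β Ψ x| = lcK κ β (fun x => |Ψ x|) x := by
  unfold lcK
  split_ifs
  · rfl
  · exact abs_zero

theorem abs_lcK_le (κ : (ι → X) → J) (β : J) (Ψ : (ι → X) → ℝ) (x : ι → X) : |lcK κ β Ψ x| ≤ |Ψ x| := by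
  unfold lcK
  split_ifs
  · exact le_rfl
  · rw [abs_zero]
    exact abs_nonneg _

theorem obs_lcK {Ψ : Env → (ι → X) → ℝ} {D : ℝ} (h : Obs Ψ D) (κ : (ι → X) → J) (β : J) :
    Obs (fun η => lcK κ β (Ψ η)) D := by
  refine ⟨measurable_pi_lambda _ fun x => ?_, fun η x => (abs_lcK_le κ β (Ψ η) x).trans (h.bd η x)⟩
  unfold lcK
  by_cases h' : κ x = β
  · simp only [h', if_true]
    exact (measurable_pi_apply x).comp h.meas
  · simp only [h', if_false]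
    exact measurable_const

theorem sd_lcK {S : Finset Pt} {Ψ : Env → (ι → X) → ℝ} {Ψ' : Pt → Env → (ι → X) → ℝ} (h : Sd S Ψ Ψ') (κ : (ι → X) → J)
    (β : J) : Sd S (fun η => lcK κ β (Ψ η)) fun p η => lcK κ β (Ψ' p η) := fun p hp η x y => by
  unfold lcK
  by_cases h' : κ y = β
  · simp only [h', if_true]
    exact h p hp η x y
  · simp only [h', if_false]
    exact hasDerivAt_const x _

theorem sum_ev_lcK (E : Ev X ι) (w : X → ℝ) (κ : (ι → X) → J) (Ψ : (ι → X) → ℝ) : ∑ β, E.ev w (lcK κ β Ψ) = E.ev w Ψ := by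
  rw [← ev_sum]
  exact ev_congr _ _ fun x => sum_lcK κ Ψ x

theorem sum_abs_ev_lcK (E : Ev X ι) (w : X → ℝ) (κ : (ι → X) → J) (Ψ : (ι → X) → ℝ) :
    ∑ β, |E.ev w (lcK κ β Ψ)| ≤ E.ev w fun x => |Ψ x| := by
  rw [← sum_ev_lcK E w κ fun x => |Ψ x|]
  refine Finset.sum_le_sum fun β _ => (abs_ev_le E w _).trans_eq (ev_congr _ _ fun x => abs_lcK κ β Ψ x)

theorem sum_int_lcK [IsProbabilityMeasure μ] {Ψ : Env → (ι → X) → ℝ} {D : ℝ} (hΨ : Obs Ψ D) (E : Ev X ι)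
    {w : Env → X → ℝ} (hw : Measurable w) (κ : (ι → X) → J) :
    ∑ β, ∫ η, |E.ev (w η) (lcK κ β (Ψ η))| ∂(law μ) ≤ ∫ η, E.ev (w η) (fun x => |Ψ η x|) ∂(law μ) := by
  rw [← integral_finsetSum _ fun β _ => ((obs_lcK hΨ κ β).int E hw).abs]
  exact integral_mono (integrable_finsetSum _ fun β _ => ((obs_lcK hΨ κ β).int E hw).abs) (hΨ.abs.int E hw)
    fun η => sum_abs_ev_lcK E (w η) κ (Ψ η)

/-- The insertion commutes with the localisation. -/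
theorem ins_lcK (d : Dr E E') (κ : (ι → X) → J) (β : J) (T : X → ℝ) (Ψ : (ι → X) → ℝ) (y : ι' → X) :
    d.ins T (lcK κ β Ψ) y = lcK (fun y => κ fun i => y (d.emb i)) β (d.ins T Ψ) y := by
  unfold Dr.ins lcK
  split_ifs with h
  · rfl
  · rw [zero_mul]

/-- The derivative of the observable along a field which depends on the key. -/
def DgK (κ : (ι → X) → J) (S : Finset Pt) (c : J → Pt → Env → ℝ) (Ψ' : Pt → Env → (ι → X) → ℝ) (η : Env) : (ι → X) → ℝ :=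
  fun x => ∑ p ∈ S, c (κ x) p η * Ψ' p η x

theorem lcK_DgK (κ : (ι → X) → J) (S : Finset Pt) (c : J → Pt → Env → ℝ) (Ψ' : Pt → Env → (ι → X) → ℝ) (η : Env) (β : J)
    (x : ι → X) : ∑ p ∈ S, c β p η * lcK κ β (Ψ' p η) x = lcK κ β (DgK κ S c Ψ' η) x := by
  unfold lcK DgK
  split_ifs with h
  · rw [h]
  · exact Finset.sum_eq_zero fun p _ => mul_zero _

theorem sum_ev_DgK (E : Ev X ι) (κ : (ι → X) → J) (S : Finset Pt) (c : J → Pt → Env → ℝ) (Ψ' : Pt → Env → (ι → X) → ℝ)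
    (η : Env) (β : J) (w : X → ℝ) :
    ∑ p ∈ S, c β p η * E.ev w (lcK κ β (Ψ' p η)) = E.ev w (lcK κ β (DgK κ S c Ψ' η)) := by
  rw [← ev_congr E w (lcK_DgK κ S c Ψ' η β), ev_sum]
  exact Finset.sum_congr rfl fun p _ => (ev_smul _ _ _ _).symm

theorem sum_ins_DgK (d : Dr E E') (A : X → ℝ) (κ : (ι → X) → J) (S : Finset Pt) (c : J → Pt → Env → ℝ)
    (Ψ' : Pt → Env → (ι → X) → ℝ) (η : Env) (β : J) (w : X → ℝ) :
    ∑ p ∈ S, c β p η * E'.ev w (d.ins A (lcK κ β (Ψ' p η))) = E'.ev w (d.ins A (lcK κ β (DgK κ S c Ψ' η))) := by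
  have e : ∀ y, d.ins A (lcK κ β (DgK κ S c Ψ' η)) y = ∑ p ∈ S, c β p η * d.ins A (lcK κ β (Ψ' p η)) y := fun y => by
    unfold Dr.ins
    rw [← lcK_DgK κ S c Ψ' η β, Finset.sum_mul]
    exact Finset.sum_congr rfl fun p _ => by ring
  rw [ev_congr _ _ e, ev_sum]
  exact Finset.sum_congr rfl fun p _ => (ev_smul _ _ _ _).symm

theorem obs_dgK {bk : Bool} {S : Finset Pt} {c : J → Pt → Env → ℝ} {M D1 : ℝ} (hc : ∀ β, DF bk S (c β) M)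
    {Ψ' : Pt → Env → (ι → X) → ℝ} (hΨ' : ∀ p ∈ S, Obs (Ψ' p) D1) (κ : (ι → X) → J) :
    Obs (DgK κ S c Ψ') (S.card * (M * D1)) := by
  refine ⟨measurable_pi_lambda _ fun x => ?_, fun η x => ?_⟩
  · unfold DgK
    exact Finset.measurable_sum _ fun p hp => ((hc (κ x)).meas p hp).mul
      ((measurable_pi_apply x).comp (hΨ' p hp).meas)
  · unfold DgK
    refine (Finset.abs_sum_le_sum_abs _ _).trans ((Finset.sum_le_sum fun p hp => ?_).trans_eq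
      (by rw [Finset.sum_const, nsmul_eq_mul] : (∑ _p ∈ S, M * D1) = (S.card : ℝ) * (M * D1)))
    rw [abs_mul]
    have k1 := (hc (κ x)).bd p hp η
    exact mul_le_mul k1 ((hΨ' p hp).bd η x) (abs_nonneg _) ((abs_nonneg _).trans k1)

/-! ### Blind observables -/

section Blind

variable [IsProbabilityMeasure μ] {S S1 S2 : Finset Pt} {c c1 c2 : Pt → Env → ℝ} {M M1 M2 V D : ℝ}
  {w : Env → X → ℝ} {N : Pt → X → ℝ} {Φ : Env → (ι → X) → ℝ}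

theorem sd_blind (hb : ∀ q ∈ S, ∀ (η : Env) (x : ℝ), Φ (Function.update η q x) = Φ η) : Sd S Φ fun _ _ _ => 0 :=
  fun p hp η x y => by
    have e : ∀ t : ℝ, Φ (Function.update η p t) y = Φ η y := fun t => by rw [hb p hp]
    simp only [e]
    exact hasDerivAt_const x _

theorem obs_zero : Obs (fun (_ : Env) (_ : ι → X) => (0 : ℝ)) 0 := ⟨measurable_const, fun η x => by rw [abs_zero]⟩

theorem sum_zero_ev (E : Ev X ι) (S : Finset Pt) (c : Pt → Env → ℝ) (w : Env → X → ℝ) (η : Env) :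
    ∑ p ∈ S, c p η * E.ev (w η) (fun _ => (0 : ℝ)) = 0 :=
  Finset.sum_eq_zero fun p _ => by rw [ev_const, mul_zero]

/-- Integration by parts, the observable does not see the slab. -/
theorem ibpG_blind (d : Dr E E') (h : DenLaw μ f f') (b : GF μ (sc f f') S c M) (hw : Wt S w N V) (hΦ : Obs Φ D)
    (hb : ∀ q ∈ S, ∀ (η : Env) (x : ℝ), Φ (Function.update η q x) = Φ η) :
    ∫ η, E'.ev (w η) (d.ins (Cf S c N η) (Φ η)) ∂(law μ) = ∫ η, E.ev (w η) (Φ η) * SS (sc f f') S c η ∂(law μ) := by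
  have j := ibpG d h b hw hΦ (Ψ' := fun _ _ _ => 0) (D1 := 0) (fun p _ => obs_zero) (sd_blind hb)
  have e : ∫ η, ∑ p ∈ S, c p η * E.ev (w η) (fun _ : ι → X => (0 : ℝ)) ∂(law μ) = 0 := by
    rw [integral_congr_ae (ae_of_all _ fun η => sum_zero_ev E S c w η), integral_zero]
  rw [← j, e, add_zero]

/-- The two slab form, the observable does not see the second slab. -/
theorem ibpG2_blind (d : Dr E E') (h : DenLaw μ f f') (hd12 : Disjoint S1 S2) (b1 : GF μ (sc f f') S1 c1 M1)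
    (b2 : GF μ (sc f f') S2 c2 M2)
    (h12 : ∀ q1 ∈ S1, ∀ q2 ∈ S2, ∀ (η : Env) (x : ℝ), c1 q1 (Function.update η q2 x) = c1 q1 η)
    (hw : Wt S2 w N V) (hΦ : Obs Φ D) (hb : ∀ q ∈ S2, ∀ (η : Env) (x : ℝ), Φ (Function.update η q x) = Φ η) :
    ∫ η, E'.ev (w η) (d.ins (Cf S2 c2 N η) (Φ η)) * SS (sc f f') S1 c1 η ∂(law μ) =
      ∫ η, E.ev (w η) (Φ η) * (SS (sc f f') S1 c1 η * SS (sc f f') S2 c2 η) ∂(law μ) := by
  have j := ibpG2 d h hd12 b1 b2 h12 hw hΦ (Ψ2 := fun _ _ _ => 0) (D2 := 0) (fun p _ => obs_zero) (sd_blind hb)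
  have e : ∫ η, (∑ p ∈ S2, c2 p η * E.ev (w η) (fun _ : ι → X => (0 : ℝ))) * SS (sc f f') S1 c1 η ∂(law μ) = 0 := by
    rw [integral_congr_ae (ae_of_all _ fun η => show _ = (0 : ℝ) by
      show (∑ p ∈ S2, c2 p η * E.ev (w η) (fun _ : ι → X => (0 : ℝ))) * SS (sc f f') S1 c1 η = 0
      rw [sum_zero_ev, zero_mul]), integral_zero]
  rw [← j, e, add_zero]

end Blind

/-! ### The exact identity -/

section Core

variable [IsProbabilityMeasure μ] {S1 S2 S3 S4 : Finset Pt} {c1 c2 c3 c3' c4 : Pt → Env → ℝ} {M1 M2 M3 M4 V D D1 D2 τ : ℝ}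
  {w : Env → X → ℝ} {N : Pt → X → ℝ} {Φ : Env → (ι → X) → ℝ} {Φ1 Φ2 : Pt → Env → (ι → X) → ℝ} {G : Env → X → ℝ}

/-- The remainder of the near slab minus its macro average. -/
def HH (G : Env → X → ℝ) (S : Finset Pt) (c : Pt → Env → ℝ) (S3 : Finset Pt) (c3 : Pt → Env → ℝ) (N : Pt → X → ℝ)
    (η : Env) : X → ℝ := G η - Cf S c N η - Cf S3 c3 N η

/-- The product of two insertions at one replica minus its macro average. -/
def LL (G : Env → X → ℝ) (S : Finset Pt) (c : Pt → Env → ℝ) (S3 : Finset Pt) (c3 : Pt → Env → ℝ) (S4 : Finset Pt)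
    (c4 : Pt → Env → ℝ) (N : Pt → X → ℝ) (η : Env) : X → ℝ := G η * HH G S c S3 c3 N η - Cf S4 c4 N η

theorem meas_HH (hG : Measurable G) {bk bk3 : Bool} (b : DF bk S1 c1 M1) (b3 : DF bk3 S3 c3 M3) :
    Measurable (HH G S1 c1 S3 c3 N) := (hG.sub (meas_Cf b.meas N)).sub (meas_Cf b3.meas N)

theorem abs_HH (hτ : ∀ η y, |G η y| ≤ τ) {bk bk3 : Bool} (b : DF bk S1 c1 M1) (b3 : DF bk3 S3 c3 M3)
    (h1 : ∀ p ∈ S1, ∀ y, |N p y| ≤ V) (h3 : ∀ p ∈ S3, ∀ y, |N p y| ≤ V) (η : Env) (y : X) :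
    |HH G S1 c1 S3 c3 N η y| ≤ τ + S1.card * (M1 * V) + S3.card * (M3 * V) := by
  have k1 := abs_Cf_le b.bd h1 η y
  have k3 := abs_Cf_le b3.bd h3 η y
  have k := hτ η y
  have e : HH G S1 c1 S3 c3 N η y = G η y - Cf S1 c1 N η y - Cf S3 c3 N η y := rfl
  rw [e]
  rw [abs_le] at *
  constructor <;> linarith [k.1, k.2, k1.1, k1.2, k3.1, k3.2]

theorem meas_LL (hG : Measurable G) {bk bk3 bk4 : Bool} (b : DF bk S1 c1 M1) (b3 : DF bk3 S3 c3 M3) (b4 : DF bk4 S4 c4 M4) :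
    Measurable (LL G S1 c1 S3 c3 S4 c4 N) := (hG.mul (meas_HH hG b b3)).sub (meas_Cf b4.meas N)

theorem abs_GH (hτ : ∀ η y, |G η y| ≤ τ) {bk bk3 : Bool} (b : DF bk S1 c1 M1) (b3 : DF bk3 S3 c3 M3)
    (h1 : ∀ p ∈ S1, ∀ y, |N p y| ≤ V) (h3 : ∀ p ∈ S3, ∀ y, |N p y| ≤ V) (η : Env) (y : X) :
    |(G η * HH G S1 c1 S3 c3 N η) y| ≤ τ * (τ + S1.card * (M1 * V) + S3.card * (M3 * V)) := by
  rw [Pi.mul_apply, abs_mul]
  exact mul_le_mul (hτ η y) (abs_HH hτ b b3 h1 h3 η y) (abs_nonneg _) ((abs_nonneg _).trans (hτ η y))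

theorem abs_LL (hτ : ∀ η y, |G η y| ≤ τ) {bk bk3 bk4 : Bool} (b : DF bk S1 c1 M1) (b3 : DF bk3 S3 c3 M3)
    (b4 : DF bk4 S4 c4 M4) (h1 : ∀ p ∈ S1, ∀ y, |N p y| ≤ V) (h3 : ∀ p ∈ S3, ∀ y, |N p y| ≤ V)
    (h4 : ∀ p ∈ S4, ∀ y, |N p y| ≤ V) (η : Env) (y : X) :
    |LL G S1 c1 S3 c3 S4 c4 N η y| ≤ τ * (τ + S1.card * (M1 * V) + S3.card * (M3 * V)) + S4.card * (M4 * V) :=
  (abs_sub _ _).trans (add_le_add (abs_GH hτ b b3 h1 h3 η y) (abs_Cf_le b4.bd h4 η y))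

/-- **THE EXACT IDENTITY.** -/
theorem two_core (d : Dr E E') (d' : Dr E' E2) (h : DenLaw μ f f') (hd12 : Disjoint S1 S2) (hd13 : Disjoint S1 S3)
    (b1 : DF bk1 S1 c1 M1) (b2 : DF bk2 S2 c2 M2) (b3 : DF false S3 c3 M3) (b3' : DF false S3 c3' M3)
    (b4 : DF false S4 c4 M4)
    (h12 : ∀ q1 ∈ S1, ∀ q2 ∈ S2, ∀ (η : Env) (x : ℝ), c1 q1 (Function.update η q2 x) = c1 q1 η)
    (h13 : ∀ q1 ∈ S1, ∀ q2 ∈ S3, ∀ (η : Env) (x : ℝ), c1 q1 (Function.update η q2 x) = c1 q1 η)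
    (hw1 : Wt S1 w N V) (hw2 : Wt S2 w N V) (hw3 : Wt S3 w N V) (hw4 : Wt S4 w N V) (hΦ : Obs Φ D)
    (hΦ1 : ∀ p ∈ S1, Obs (Φ1 p) D1) (hΦ2 : ∀ p ∈ S2, Obs (Φ2 p) D2) (hd1 : Sd S1 Φ Φ1) (hd2 : Sd S2 Φ Φ2)
    (hb3 : ∀ q ∈ S3, ∀ (η : Env) (x : ℝ), Φ (Function.update η q x) = Φ η)
    (hb4 : ∀ q ∈ S4, ∀ (η : Env) (x : ℝ), Φ (Function.update η q x) = Φ η)
    (hG : Measurable G) (hτ : ∀ η y, |G η y| ≤ τ) (hG1 : Bl S1 G) (hG3 : Bl S3 G) :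
    ∫ η, E2.ev (w η) (d'.ins (G η) (d.ins (G η) (Φ η))) ∂(law μ) =
      (∫ η, E.ev (w η) (Φ η) * (SS (sc f f') S1 c1 η * SS (sc f f') S2 c2 η) ∂(law μ) +
        ∫ η, E.ev (w η) (Φ η) * (SS (sc f f') S1 c1 η * SS (sc f f') S3 c3 η) ∂(law μ) +
        ∫ η, E'.ev (w η) (d.ins (G η) (Φ η)) * SS (sc f f') S3 c3' η ∂(law μ) +
        ∫ η, E.ev (w η) (Φ η) * SS (sc f f') S4 c4 η ∂(law μ)) +
      (∫ η, E'.ev (w η) (d.ins (HH G S2 c2 S3 c3 N η) (Φ η)) * SS (sc f f') S1 c1 η ∂(law μ) +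
        ∫ η, (E2.ev (w η) (d'.ins (HH G S1 c1 S3 c3' N η) (d.ins (G η) (Φ η))) -
          E'.ev (w η) (d.ins (G η * HH G S1 c1 S3 c3' N η) (Φ η))) ∂(law μ) +
        ∫ η, E'.ev (w η) (d.ins (LL G S1 c1 S3 c3' S4 c4 N η) (Φ η)) ∂(law μ)) -
      (∫ η, ∑ p ∈ S1, c1 p η * E'.ev (w η) (d.ins (G η) (Φ1 p η)) ∂(law μ) +
        ∫ η, (∑ p ∈ S2, c2 p η * E.ev (w η) (Φ2 p η)) * SS (sc f f') S1 c1 η ∂(law μ)) := by
  obtain ⟨K, θ0, hs⟩ := h.sg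
  have g1 := b1.gf hs
  have g2 := b2.gf hs
  have g3 := b3.gf hs
  have g3' := b3'.gf hs
  have g4 := b4.gf hs
  have mw := hw1.meas
  have m1 := meas_Cf b1.meas N
  have m2 := meas_Cf b2.meas N
  have m3 := meas_Cf b3.meas N
  have m3' := meas_Cf b3'.meas N
  have m4 := meas_Cf b4.meas N
  have k1 : ∀ η y, |Cf S1 c1 N η y| ≤ S1.card * (M1 * V) := fun η y => abs_Cf_le b1.bd hw1.bd η y
  have k2 : ∀ η y, |Cf S2 c2 N η y| ≤ S2.card * (M2 * V) := fun η y => abs_Cf_le b2.bd hw2.bd η y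
  have k3 : ∀ η y, |Cf S3 c3 N η y| ≤ S3.card * (M3 * V) := fun η y => abs_Cf_le b3.bd hw3.bd η y
  have k3' : ∀ η y, |Cf S3 c3' N η y| ≤ S3.card * (M3 * V) := fun η y => abs_Cf_le b3'.bd hw3.bd η y
  have k4 : ∀ η y, |Cf S4 c4 N η y| ≤ S4.card * (M4 * V) := fun η y => abs_Cf_le b4.bd hw4.bd η y
  have oG : Obs (fun η => d.ins (G η) (Φ η)) (D * (d.sz * τ)) := hΦ.ins d hG hτ
  -- observables of the second order
  have o1 : Obs (fun η => d'.ins (Cf S1 c1 N η) (d.ins (G η) (Φ η))) (D * (d.sz * τ) * (d'.sz * (S1.card * (M1 * V)))) :=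
    oG.ins d' m1 k1
  have o3' : Obs (fun η => d'.ins (Cf S3 c3' N η) (d.ins (G η) (Φ η))) (D * (d.sz * τ) * (d'.sz * (S3.card * (M3 * V)))) :=
    oG.ins d' m3' k3'
  have oH : Obs (fun η => d'.ins (HH G S1 c1 S3 c3' N η) (d.ins (G η) (Φ η)))
      (D * (d.sz * τ) * (d'.sz * (τ + S1.card * (M1 * V) + S3.card * (M3 * V)))) :=
    oG.ins d' (meas_HH hG b1 b3') (abs_HH hτ b1 b3' hw1.bd hw3.bd)
  have oGH : Obs (fun η => d.ins (G η * HH G S1 c1 S3 c3' N η) (Φ η))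
      (D * (d.sz * (τ * (τ + S1.card * (M1 * V) + S3.card * (M3 * V))))) :=
    hΦ.ins d (hG.mul (meas_HH hG b1 b3')) (abs_GH hτ b1 b3' hw1.bd hw3.bd)
  have o4 : Obs (fun η => d.ins (Cf S4 c4 N η) (Φ η)) (D * (d.sz * (S4.card * (M4 * V)))) := hΦ.ins d m4 k4
  have oL : Obs (fun η => d.ins (LL G S1 c1 S3 c3' S4 c4 N η) (Φ η))
      (D * (d.sz * (τ * (τ + S1.card * (M1 * V) + S3.card * (M3 * V)) + S4.card * (M4 * V)))) :=
    hΦ.ins d (meas_LL hG b1 b3' b4) (abs_LL hτ b1 b3' b4 hw1.bd hw3.bd hw4.bd)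
  -- the pathwise split
  have e1 : ∀ η, E2.ev (w η) (d'.ins (G η) (d.ins (G η) (Φ η))) =
      E2.ev (w η) (d'.ins (Cf S1 c1 N η) (d.ins (G η) (Φ η))) + E2.ev (w η) (d'.ins (Cf S3 c3' N η) (d.ins (G η) (Φ η))) +
      E2.ev (w η) (d'.ins (HH G S1 c1 S3 c3' N η) (d.ins (G η) (Φ η))) := fun η => by
    rw [← ev_add, ← ev_add]
    refine ev_congr _ _ fun y => ?_
    have e : G η = Cf S1 c1 N η + Cf S3 c3' N η + HH G S1 c1 S3 c3' N η := by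
      funext z
      show G η z = Cf S1 c1 N η z + Cf S3 c3' N η z + (G η z - Cf S1 c1 N η z - Cf S3 c3' N η z)
      ring
    have k := congrArg (fun A => d'.ins A (d.ins (G η) (Φ η)) y) e
    simp only [ins_add] at k
    exact k
  have e2 : ∀ η, E2.ev (w η) (d'.ins (HH G S1 c1 S3 c3' N η) (d.ins (G η) (Φ η))) =
      (E2.ev (w η) (d'.ins (HH G S1 c1 S3 c3' N η) (d.ins (G η) (Φ η))) -
        E'.ev (w η) (d.ins (G η * HH G S1 c1 S3 c3' N η) (Φ η))) +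
      E'.ev (w η) (d.ins (Cf S4 c4 N η) (Φ η)) + E'.ev (w η) (d.ins (LL G S1 c1 S3 c3' S4 c4 N η) (Φ η)) := fun η => by
    have e : E'.ev (w η) (d.ins (G η * HH G S1 c1 S3 c3' N η) (Φ η)) =
        E'.ev (w η) (d.ins (Cf S4 c4 N η) (Φ η)) + E'.ev (w η) (d.ins (LL G S1 c1 S3 c3' S4 c4 N η) (Φ η)) := by
      rw [← ev_add]
      refine ev_congr _ _ fun y => ?_
      rw [← ins_add]
      congr 1
      funext z
      show (G η * HH G S1 c1 S3 c3' N η) z = Cf S4 c4 N η z + ((G η * HH G S1 c1 S3 c3' N η) z - Cf S4 c4 N η z)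
      ring
    rw [e]
    ring
  have i1 : ∫ η, E2.ev (w η) (d'.ins (G η) (d.ins (G η) (Φ η))) ∂(law μ) =
      ∫ η, E2.ev (w η) (d'.ins (Cf S1 c1 N η) (d.ins (G η) (Φ η))) ∂(law μ) +
      ∫ η, E2.ev (w η) (d'.ins (Cf S3 c3' N η) (d.ins (G η) (Φ η))) ∂(law μ) +
      ∫ η, E2.ev (w η) (d'.ins (HH G S1 c1 S3 c3' N η) (d.ins (G η) (Φ η))) ∂(law μ) := by
    simp_rw [e1]
    exact int3 (o1.int E2 mw) (o3'.int E2 mw) (oH.int E2 mw)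
  have i2 : ∫ η, E2.ev (w η) (d'.ins (HH G S1 c1 S3 c3' N η) (d.ins (G η) (Φ η))) ∂(law μ) =
      ∫ η, (E2.ev (w η) (d'.ins (HH G S1 c1 S3 c3' N η) (d.ins (G η) (Φ η))) -
        E'.ev (w η) (d.ins (G η * HH G S1 c1 S3 c3' N η) (Φ η))) ∂(law μ) +
      ∫ η, E'.ev (w η) (d.ins (Cf S4 c4 N η) (Φ η)) ∂(law μ) +
      ∫ η, E'.ev (w η) (d.ins (LL G S1 c1 S3 c3' S4 c4 N η) (Φ η)) ∂(law μ) := by
    refine (integral_congr_ae (ae_of_all _ fun η => e2 η)).trans ?_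
    exact int3 ((oH.int E2 mw).sub (oGH.int E' mw)) (o4.int E' mw) (oL.int E' mw)
  -- the first near slab
  have hd' : Sd S1 (fun η => d.ins (G η) (Φ η)) fun p η => d.ins (G η) (Φ1 p η) := fun p hp η x y => by
    unfold Dr.ins
    have e : ∀ t : ℝ, G (Function.update η p t) = G η := fun t => hG1 p hp η t
    simp only [e]
    exact (hd1 p hp η x _).mul_const _
  have j1 := ibpG d' h g1 hw1 oG (fun p hp => (hΦ1 p hp).ins d hG hτ) hd'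
  -- the macro slab of the first remainder
  have j3' := ibpG_blind d' h g3' hw3 oG fun q hq η x => by
    show d.ins (G (Function.update η q x)) (Φ (Function.update η q x)) = d.ins (G η) (Φ η)
    rw [hG3 q hq, hb3 q hq]
  -- the second macro slab
  have j4 := ibpG_blind d h g4 hw4 hΦ hb4
  -- the second near slab and its macro slab
  have j2 := ibpG2 d h hd12 g1 g2 h12 hw2 hΦ hΦ2 hd2
  have j3 := ibpG2_blind d h hd13 g1 g3 h13 hw3 hΦ hb3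
  have oH2 : Obs (fun η => d.ins (HH G S2 c2 S3 c3 N η) (Φ η))
      (D * (d.sz * (τ + S2.card * (M2 * V) + S3.card * (M3 * V)))) :=
    hΦ.ins d (meas_HH hG b2 b3) (abs_HH hτ b2 b3 hw2.bd hw3.bd)
  have oc2 : Obs (fun η => d.ins (Cf S2 c2 N η) (Φ η)) (D * (d.sz * (S2.card * (M2 * V)))) := hΦ.ins d m2 k2
  have oc3 : Obs (fun η => d.ins (Cf S3 c3 N η) (Φ η)) (D * (d.sz * (S3.card * (M3 * V)))) := hΦ.ins d m3 k3
  have s1 := g1.memLp hs.1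
  have e5 : ∀ η, E'.ev (w η) (d.ins (G η) (Φ η)) * SS (sc f f') S1 c1 η =
      E'.ev (w η) (d.ins (Cf S2 c2 N η) (Φ η)) * SS (sc f f') S1 c1 η +
      E'.ev (w η) (d.ins (Cf S3 c3 N η) (Φ η)) * SS (sc f f') S1 c1 η +
      E'.ev (w η) (d.ins (HH G S2 c2 S3 c3 N η) (Φ η)) * SS (sc f f') S1 c1 η := fun η => by
    rw [← add_mul, ← add_mul, ← ev_add, ← ev_add]
    congr 1
    refine ev_congr _ _ fun y => ?_
    have e : G η = Cf S2 c2 N η + Cf S3 c3 N η + HH G S2 c2 S3 c3 N η := by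
      funext z
      show G η z = Cf S2 c2 N η z + Cf S3 c3 N η z + (G η z - Cf S2 c2 N η z - Cf S3 c3 N η z)
      ring
    have k := congrArg (fun A => d.ins A (Φ η) y) e
    simp only [ins_add] at k
    exact k
  have i5 : ∫ η, E'.ev (w η) (d.ins (G η) (Φ η)) * SS (sc f f') S1 c1 η ∂(law μ) =
      ∫ η, E'.ev (w η) (d.ins (Cf S2 c2 N η) (Φ η)) * SS (sc f f') S1 c1 η ∂(law μ) +
      ∫ η, E'.ev (w η) (d.ins (Cf S3 c3 N η) (Φ η)) * SS (sc f f') S1 c1 η ∂(law μ) +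
      ∫ η, E'.ev (w η) (d.ins (HH G S2 c2 S3 c3 N η) (Φ η)) * SS (sc f f') S1 c1 η ∂(law μ) := by
    simp_rw [e5]
    exact int3 ((oc2.memLp E' mw).integrable_mul s1) ((oc3.memLp E' mw).integrable_mul s1)
      ((oH2.memLp E' mw).integrable_mul s1)
  linarith

end Core

/-! ### Absolute values -/

section Abs

variable [IsProbabilityMeasure μ] {S1 S2 S3 S4 : Finset Pt} {c1 c2 c3 c3' c4 : J → Pt → Env → ℝ}
  {M1 M2 M3 M4 V D D1 D2 τ : ℝ} {w : Env → X → ℝ} {N : Pt → X → ℝ} {Ψ : Env → (ι → X) → ℝ}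
  {Ψ1 Ψ2 : Pt → Env → (ι → X) → ℝ} {G : Env → X → ℝ}

theorem sum_ins_lcK (d : Dr E E') (κ : (ι → X) → J) (T : X → ℝ) (Ψ : (ι → X) → ℝ) (y : ι' → X) :
    ∑ β, d.ins T (lcK κ β Ψ) y = d.ins T Ψ y := by
  unfold Dr.ins
  rw [← Finset.sum_mul, sum_lcK]

theorem sum_ins2_lcK (d : Dr E E') (d' : Dr E' E2) (κ : (ι → X) → J) (T T' : X → ℝ) (Ψ : (ι → X) → ℝ) (y : ι2 → X) :
    ∑ β, d'.ins T' (d.ins T (lcK κ β Ψ)) y = d'.ins T' (d.ins T Ψ) y := by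
  have e : ∀ β, d'.ins T' (d.ins T (lcK κ β Ψ)) y = d.ins T (lcK κ β Ψ) (fun i => y (d'.emb i)) * ∑ j, d'.sg j * T' (y j) :=
    fun β => rfl
  rw [Finset.sum_congr rfl fun β _ => e β, ← Finset.sum_mul, sum_ins_lcK]
  rfl

/-- The sum over the keys of one insertion of one function. -/
theorem sum_int_ins_lcK (d : Dr E E') (κ : (ι → X) → J) {T : Env → X → ℝ} (hT : Measurable T) (hτ : ∀ η y, |T η y| ≤ τ)
    (hΨ : Obs Ψ D) (hw : Measurable w) :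
    ∑ β, ∫ η, |E'.ev (w η) (d.ins (T η) (lcK κ β (Ψ η)))| ∂(law μ) ≤
      ∫ η, E'.ev (w η) (fun y => |d.ins (T η) (Ψ η) y|) ∂(law μ) := by
  have e : ∀ β η, d.ins (T η) (lcK κ β (Ψ η)) = lcK (fun y : ι' → X => κ fun i => y (d.emb i)) β (d.ins (T η) (Ψ η)) :=
    fun β η => funext fun y => ins_lcK d κ β (T η) (Ψ η) y
  simp_rw [e]
  exact sum_int_lcK (hΨ.ins d hT hτ) E' hw _

/-- **TWO DERIVATIVES WITH MACRO SLABS, LOCALISED**, absolute values. -/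
theorem e2m (d : Dr E E') (d' : Dr E' E2) (h : DenLaw μ f f') {K θ0 : ℝ} (hs : SG μ (sc f f') K θ0) (κ : (ι → X) → J)
    (hd12 : Disjoint S1 S2) (hd13 : Disjoint S1 S3)
    (b1 : ∀ β, DF bk1 S1 (c1 β) M1) (b2 : ∀ β, DF bk2 S2 (c2 β) M2) (b3 : ∀ β, DF false S3 (c3 β) M3)
    (b3' : ∀ β, DF false S3 (c3' β) M3) (b4 : ∀ β, DF false S4 (c4 β) M4)
    (hM1 : 0 ≤ M1) (hM2 : 0 ≤ M2) (hM3 : 0 ≤ M3) (hM4 : 0 ≤ M4)
    (h12 : ∀ β, ∀ q1 ∈ S1, ∀ q2 ∈ S2, ∀ (η : Env) (x : ℝ), c1 β q1 (Function.update η q2 x) = c1 β q1 η)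
    (h13 : ∀ β, ∀ q1 ∈ S1, ∀ q2 ∈ S3, ∀ (η : Env) (x : ℝ), c1 β q1 (Function.update η q2 x) = c1 β q1 η)
    (hw1 : Wt S1 w N V) (hw2 : Wt S2 w N V) (hw3 : Wt S3 w N V) (hw4 : Wt S4 w N V) (hΨ : Obs Ψ D)
    (hΨ1 : ∀ p ∈ S1, Obs (Ψ1 p) D1) (hΨ2 : ∀ p ∈ S2, Obs (Ψ2 p) D2) (hd1 : Sd S1 Ψ Ψ1) (hd2 : Sd S2 Ψ Ψ2)
    (hb3 : ∀ q ∈ S3, ∀ (η : Env) (x : ℝ), Ψ (Function.update η q x) = Ψ η)
    (hb4 : ∀ q ∈ S4, ∀ (η : Env) (x : ℝ), Ψ (Function.update η q x) = Ψ η)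
    (hG : Measurable G) (hτ : ∀ η y, |G η y| ≤ τ) (hG1 : Bl S1 G) (hG3 : Bl S3 G)
    {t1 t2 t3 t4 a1 a2 a3 a3' a4 Q1 Q2 Q3 Q3' Q4 : ℝ} (q1 : 0 < t1) (q2 : 0 < t2) (q3 : 0 < t3) (q4 : 0 < t4)
    (r1 : 2 * t1 * M1 ≤ θ0) (r2 : 2 * t2 * M2 ≤ θ0) (r3 : 2 * t3 * M3 ≤ θ0) (r4 : t4 * M4 ≤ θ0)
    (hQ1 : ∀ β η, QV S1 (c1 β) η ≤ Q1) (hQ2 : ∀ β η, QV S2 (c2 β) η ≤ Q2) (hQ3 : ∀ β η, QV S3 (c3 β) η ≤ Q3)
    (hQ3' : ∀ β η, QV S3 (c3' β) η ≤ Q3') (hQ4 : ∀ β η, QV S4 (c4 β) η ≤ Q4)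
    (ha1 : 0 ≤ a1) (ha2 : 0 ≤ a2) (ha3 : 0 ≤ a3) (ha3' : 0 ≤ a3') (ha4 : 0 ≤ a4) :
    |∫ η, E2.ev (w η) (d'.ins (G η) (d.ins (G η) (Ψ η))) ∂(law μ)| ≤
      ((a1 * a2 + a1 * a3 + a4) * ∫ η, E.ev (w η) (fun x => |Ψ η x|) ∂(law μ) +
        a3' * ∫ η, E'.ev (w η) (fun y => |d.ins (G η) (Ψ η) y|) ∂(law μ)) +
      (a1 * ∫ η, E.ev (w η) (fun x => |DgK κ S2 c2 Ψ2 η x|) ∂(law μ) +
        ∫ η, E'.ev (w η) (fun y => |d.ins (G η) (DgK κ S1 c1 Ψ1 η) y|) ∂(law μ)) +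
      (a1 * ∑ β, ∫ η, |E'.ev (w η) (d.ins (HH G S2 (c2 β) S3 (c3 β) N η) (lcK κ β (Ψ η)))| ∂(law μ) +
        ∑ β, ∫ η, |E2.ev (w η) (d'.ins (HH G S1 (c1 β) S3 (c3' β) N η) (d.ins (G η) (lcK κ β (Ψ η)))) -
          E'.ev (w η) (d.ins (G η * HH G S1 (c1 β) S3 (c3' β) N η) (lcK κ β (Ψ η)))| ∂(law μ) +
        ∑ β, ∫ η, |E'.ev (w η) (d.ins (LL G S1 (c1 β) S3 (c3' β) S4 (c4 β) N η) (lcK κ β (Ψ η)))| ∂(law μ)) +
      (Fintype.card J : ℝ) * (tail2 K D t1 t2 a1 a2 Q1 Q2 + tail2 K D t1 t3 a1 a3 Q1 Q3 +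
        tail1 K (D * (d.sz * τ)) t3 a3' Q3' + tail1 K D t4 a4 Q4 +
        tail1 K (D * (d.sz * (τ + S2.card * (M2 * V) + S3.card * (M3 * V)))) t1 a1 Q1 +
        tail1 K (S2.card * (M2 * D2)) t1 a1 Q1) := by
  have mw := hw1.meas
  have oG : Obs (fun η => d.ins (G η) (Ψ η)) (D * (d.sz * τ)) := hΨ.ins d hG hτ
  have oGβ : ∀ β, Obs (fun η => d.ins (G η) (lcK κ β (Ψ η))) (D * (d.sz * τ)) := fun β => (obs_lcK hΨ κ β).ins d hG hτ
  have oD1 : Obs (DgK κ S1 c1 Ψ1) (S1.card * (M1 * D1)) := obs_dgK b1 hΨ1 κ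
  have oD2 : Obs (DgK κ S2 c2 Ψ2) (S2.card * (M2 * D2)) := obs_dgK b2 hΨ2 κ
  have oGG : ∀ β, Obs (fun η => d'.ins (G η) (d.ins (G η) (lcK κ β (Ψ η)))) (D * (d.sz * τ) * (d'.sz * τ)) := fun β =>
    (oGβ β).ins d' hG hτ
  have oH2 : ∀ β, Obs (fun η => d.ins (HH G S2 (c2 β) S3 (c3 β) N η) (lcK κ β (Ψ η)))
      (D * (d.sz * (τ + S2.card * (M2 * V) + S3.card * (M3 * V)))) := fun β =>
    (obs_lcK hΨ κ β).ins d (meas_HH hG (b2 β) (b3 β)) (abs_HH hτ (b2 β) (b3 β) hw2.bd hw3.bd)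
  -- the sum over the keys
  have e0 : ∫ η, E2.ev (w η) (d'.ins (G η) (d.ins (G η) (Ψ η))) ∂(law μ) =
      ∑ β, ∫ η, E2.ev (w η) (d'.ins (G η) (d.ins (G η) (lcK κ β (Ψ η)))) ∂(law μ) := by
    rw [← integral_finsetSum _ fun β _ => (oGG β).int E2 mw]
    refine integral_congr_ae (ae_of_all _ fun η => ?_)
    show _ = ∑ β, E2.ev (w η) (d'.ins (G η) (d.ins (G η) (lcK κ β (Ψ η))))
    rw [← ev_sum]
    exact ev_congr _ _ fun y => (sum_ins2_lcK d d' κ (G η) (G η) (Ψ η) y).symm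
  rw [e0]
  -- one key
  have k : ∀ β, |∫ η, E2.ev (w η) (d'.ins (G η) (d.ins (G η) (lcK κ β (Ψ η)))) ∂(law μ)| ≤
      ((a1 * a2 + a1 * a3 + a4) * ∫ η, |E.ev (w η) (lcK κ β (Ψ η))| ∂(law μ) +
        a3' * ∫ η, |E'.ev (w η) (d.ins (G η) (lcK κ β (Ψ η)))| ∂(law μ)) +
      (a1 * ∫ η, |E.ev (w η) (lcK κ β (DgK κ S2 c2 Ψ2 η))| ∂(law μ) +
        ∫ η, |E'.ev (w η) (d.ins (G η) (lcK κ β (DgK κ S1 c1 Ψ1 η)))| ∂(law μ)) +
      (a1 * ∫ η, |E'.ev (w η) (d.ins (HH G S2 (c2 β) S3 (c3 β) N η) (lcK κ β (Ψ η)))| ∂(law μ) +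
        ∫ η, |E2.ev (w η) (d'.ins (HH G S1 (c1 β) S3 (c3' β) N η) (d.ins (G η) (lcK κ β (Ψ η)))) -
          E'.ev (w η) (d.ins (G η * HH G S1 (c1 β) S3 (c3' β) N η) (lcK κ β (Ψ η)))| ∂(law μ) +
        ∫ η, |E'.ev (w η) (d.ins (LL G S1 (c1 β) S3 (c3' β) S4 (c4 β) N η) (lcK κ β (Ψ η)))| ∂(law μ)) +
      (tail2 K D t1 t2 a1 a2 Q1 Q2 + tail2 K D t1 t3 a1 a3 Q1 Q3 +
        tail1 K (D * (d.sz * τ)) t3 a3' Q3' + tail1 K D t4 a4 Q4 +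
        tail1 K (D * (d.sz * (τ + S2.card * (M2 * V) + S3.card * (M3 * V)))) t1 a1 Q1 +
        tail1 K (S2.card * (M2 * D2)) t1 a1 Q1) := fun β => by
    have oΦ := obs_lcK hΨ κ β
    have id := two_core d d' h hd12 hd13 (b1 β) (b2 β) (b3 β) (b3' β) (b4 β) (h12 β) (h13 β) hw1 hw2 hw3 hw4 oΦ
      (fun p hp => obs_lcK (hΨ1 p hp) κ β) (fun p hp => obs_lcK (hΨ2 p hp) κ β) (sd_lcK hd1 κ β) (sd_lcK hd2 κ β)
      (fun q hq η x => by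
        show lcK κ β (Ψ (Function.update η q x)) = lcK κ β (Ψ η)
        rw [hb3 q hq]) (fun q hq η x => by
        show lcK κ β (Ψ (Function.update η q x)) = lcK κ β (Ψ η)
        rw [hb4 q hq]) hG hτ hG1 hG3
    simp_rw [sum_ins_DgK d _ κ S1 c1 Ψ1 _ β, sum_ev_DgK E κ S2 c2 Ψ2 _ β] at id
    rw [id]
    have mΦ : Integrable (fun η => E.ev (w η) (lcK κ β (Ψ η))) (law μ) := oΦ.int E mw
    have p1 := est_twoD hs (b1 β) (b2 β) hM1 hM2 q1 q2 r1 r2 (hQ1 β) (hQ2 β) ha1 ha2 mΦ (D := D)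
      fun η => abs_ev_le_of E (w η) (oΦ.bd η)
    have p2 := est_twoD hs (b1 β) (b3 β) hM1 hM3 q1 q3 r1 r3 (hQ1 β) (hQ3 β) ha1 ha3 mΦ (D := D)
      fun η => abs_ev_le_of E (w η) (oΦ.bd η)
    have p3 := est_oneD hs (b3' β) hM3 q3 (by nlinarith : t3 * M3 ≤ θ0) (hQ3' β) ((oGβ β).int E' mw) (a := a3')
      (D := D * (d.sz * τ)) fun η => abs_ev_le_of E' (w η) ((oGβ β).bd η)
    have p4 := est_oneD hs (b4 β) hM4 q4 r4 (hQ4 β) mΦ (a := a4) (D := D) fun η => abs_ev_le_of E (w η) (oΦ.bd η)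
    have p5 := est_oneD hs (b1 β) hM1 q1 (by nlinarith : t1 * M1 ≤ θ0) (hQ1 β) ((oH2 β).int E' mw) (a := a1)
      (D := D * (d.sz * (τ + S2.card * (M2 * V) + S3.card * (M3 * V)))) fun η => abs_ev_le_of E' (w η) ((oH2 β).bd η)
    have p6 := est_oneD hs (b1 β) hM1 q1 (by nlinarith : t1 * M1 ≤ θ0) (hQ1 β) ((obs_lcK oD2 κ β).int E mw) (a := a1)
      (D := S2.card * (M2 * D2)) fun η => abs_ev_le_of E (w η) ((obs_lcK oD2 κ β).bd η)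
    have p7 := abs_integral_le_integral_abs (μ := law μ) (f := fun η =>
      E2.ev (w η) (d'.ins (HH G S1 (c1 β) S3 (c3' β) N η) (d.ins (G η) (lcK κ β (Ψ η)))) -
        E'.ev (w η) (d.ins (G η * HH G S1 (c1 β) S3 (c3' β) N η) (lcK κ β (Ψ η))))
    have p8 := abs_integral_le_integral_abs (μ := law μ) (f := fun η =>
      E'.ev (w η) (d.ins (LL G S1 (c1 β) S3 (c3' β) S4 (c4 β) N η) (lcK κ β (Ψ η))))
    have p9 := abs_integral_le_integral_abs (μ := law μ) (f := fun η =>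
      E'.ev (w η) (d.ins (G η) (lcK κ β (DgK κ S1 c1 Ψ1 η))))
    have t : ∀ {x y z u p q r s v : ℝ}, |(x + y + z + u) + (p + q + r) - (s + v)| ≤
        |x| + |y| + |z| + |u| + |p| + |q| + |r| + |s| + |v| := fun {x y z u p q r s v} => by
      have i1 := abs_sub ((x + y + z + u) + (p + q + r)) (s + v)
      have i2 := abs_add_le (x + y + z + u) (p + q + r)
      have i3 := abs_add_le (x + y + z) u
      have i4 := abs_add_le (x + y) z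
      have i5 := abs_add_le x y
      have i6 := abs_add_le (p + q) r
      have i7 := abs_add_le p q
      have i8 := abs_add_le s v
      linarith
    refine t.trans ?_
    unfold tail2 tail1
    rw [add_mul, add_mul]
    linarith
  -- the sum
  refine (Finset.abs_sum_le_sum_abs _ _).trans ((Finset.sum_le_sum fun β _ => k β).trans ?_)
  simp only [Finset.sum_add_distrib, Finset.sum_const, Finset.card_univ, nsmul_eq_mul, ← Finset.mul_sum]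
  have s1 := mul_le_mul_of_nonneg_left (sum_int_lcK (μ := μ) hΨ E mw κ) (by positivity : 0 ≤ a1 * a2 + a1 * a3 + a4)
  have s2 := mul_le_mul_of_nonneg_left (sum_int_ins_lcK (μ := μ) d κ hG hτ hΨ mw) ha3'
  have s3 := mul_le_mul_of_nonneg_left (sum_int_lcK (μ := μ) oD2 E mw κ) ha1
  have s4 := sum_int_ins_lcK (μ := μ) d κ hG hτ oD1 mw
  linarith

end Abs

end

end Pool.W7d29a1.C0.R63
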