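import Pool.Agent.W_7d29a1_C0.FldM63
import Pool.Agent.W_7d29a1_C0.E2M63

/-!
CURV0 (MP_7d29a1_pr), section E2: `e2m` WITH THE MACRO FIELDS PUT IN. The near fields `c1 β`, `c2 β` are any directed fields which see only
the rows `(0, e]`; the macro fields live on the rows `J3`, `J4` behind `e`: they realise the averages `Cq w J3 (pJ 0) N_i^β` of the
remainders `N_i^β = g - C_i^β` and `Cq w J4 (pJ 0) h^β` of `h^β = g H_1^β`, `H_i^β = N_i^β - Cq w J3 (pJ 0) N_i^β`, cut to the tubes of the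
macro boxes of the key. `e2_mac`: the conclusion of `e2m` with the uncut `H_i^β`, `h^β`, and the far parts of the macro fields apart.
(helper63)
-/

set_option autoImplicit false
set_option linter.unusedSectionVars false
set_option linter.unusedVariables false

namespace Pool.Agent.W_7d29a1_C0.EM63

open Finset MeasureTheory Pool.Agent.W_7d29a1_F Pool.Agent.W_7d29a1_X Pool.Agent.W_7d29a1_H
open Pool.Agent.W_7d29a1_C0.H32 Pool.Agent.W_7d29a1_C0.Mod92 Pool.Agent.W_7d29a1_C0.Blk18 Pool.Agent.W_7d29a1_C0.FP63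
open Pool.Agent.W_7d29a1_C0.InT57 Pool.Agent.W_7d29a1_C0.FM63
open Pool.Agent.W_7d29a1_C0.MicE14 (Cq)
open Pool.W7d29a1.C0 Pool.W7d29a1.C0.VT31
open Pool.W7d29a1.C0.H19 (Cf)
open Pool.W7d29a1.C0.H41 (Ev Dr Obs Wt cut cut' QV Cf_split meas_Cf tail1 tail2 ev_add ev_smul ev_congr ins_add ins_smul)
open Pool.W7d29a1.C0.R63
open Pool.W7d29a1.C0.T73 (chT OutB)

noncomputable section

variable {μ : Measure ℝ} {s : ℝ} {N al be e e3 : ℕ} {Q : Finset (Finset ℕ)} {A G F : Env → (ℕ → ℤ) → ℝ}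
  {J J1 J2 J3 J4 : Finset ℕ} {D D' τ : ℝ}

/-- The functional `F - C`, `C` the functional of the row field `c`. -/
def nf (F : Env → (ℕ → ℤ) → ℝ) (J : Finset ℕ) (c : Pt → Env → ℝ) (η : Env) (f : ℕ → ℤ) : ℝ := F η f - rf J c η f

/-- The functional minus its macro average. -/
def hf (μ : Measure ℝ) (s : ℝ) (A F : Env → (ℕ → ℤ) → ℝ) (J : Finset ℕ) : Env → (ℕ → ℤ) → ℝ := nf F J (cf μ s A F 0 0 J)

theorem at2_nf (hQ : Full N Q) (hJ : ∀ r ∈ J, 1 ≤ r ∧ r ≤ N) (c : Pt → Env → ℝ) (η : Env) :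
    at2 (Q := Q) (nf F J c) η = at2 F η - Cf (sS J N) c (nq N) η := by
  rw [← at2_rf hQ hJ c η]
  rfl

theorem at2_hf (hQ : Full N Q) (hA : WF al be D' A) (hF : WF 0 e D F) (hae : be ≤ e) (hJ : ∀ r ∈ J, e < r ∧ r ≤ N) (η : Env) :
    at2 (Q := Q) (hf μ s A F J) η = at2 F η - Cq (lA μ s N Q A η) J (pJ 0) (at2 F η) := by
  unfold hf
  rw [at2_nf hQ (fun r hr => ⟨by have := hJ r hr; omega, (hJ r hr).2⟩), Cf_mac hQ hA hF hae hJ]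

theorem wf_nf {M : ℝ} (hF : WF 0 e D F) {c : Pt → Env → ℝ} (hc : RF 0 e J M c) {D1 : ℝ} (hD : (J.card : ℝ) * M ≤ D1) :
    WF 0 e (D + D1) (nf F J c) :=
  (WF_sub hF hc.wf).mono le_rfl le_rfl (by linarith)

theorem wf_hf (hA : WF al be D' A) (hF : WF 0 e D F) (hae : be ≤ e) (hJ : ∀ r ∈ J, e < r ∧ r ≤ e3) (hee : e ≤ e3) :
    WF 0 e3 (D + D) (hf μ s A F J) := by
  have hD : 0 ≤ D := (abs_nonneg _).trans (hF.bd (fun _ => 0) fun _ => 0)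
  refine wf_nf (hF.mono le_rfl hee le_rfl) (rf_mac (μ := μ) (s := s) hA hF hae hJ) ?_
  rcases J.eq_empty_or_nonempty with h | h
  · rw [h]
    simpa using hD
  · have h0 : (J.card : ℝ) ≠ 0 := Nat.cast_ne_zero.2 h.card_pos.ne'
    rw [mul_div_cancel₀ _ h0]

theorem meas_at2 (hF : WF al be D F) : Measurable fun η => at2 (Q := Q) F η := at2_meas hF

section Defs

variable {T : Type*}

/-- The remainder of the near field. -/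
def Nx (N : ℕ) (Q : Finset (Finset ℕ)) (G : Env → (ℕ → ℤ) → ℝ) (J : Finset ℕ) (c : T → Pt → Env → ℝ) (β : T) (η : Env) : Px Q → ℝ :=
  at2 G η - Cf (sS J N) (c β) (nq N) η

/-- The remainder minus its macro average. -/
def Hx (μ : Measure ℝ) (s : ℝ) (N : ℕ) (Q : Finset (Finset ℕ)) (A G : Env → (ℕ → ℤ) → ℝ) (J : Finset ℕ) (c : T → Pt → Env → ℝ)
    (J3 : Finset ℕ) (β : T) (η : Env) : Px Q → ℝ :=
  Nx N Q G J c β η - Cq (lA μ s N Q A η) J3 (pJ 0) (Nx N Q G J c β η)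

/-- The far part of the macro field of `N^β`. -/
def F3 (μ : Measure ℝ) (s : ℝ) (N : ℕ) (Q : Finset (Finset ℕ)) (A G : Env → (ℕ → ℤ) → ℝ) (J : Finset ℕ) (c : T → Pt → Env → ℝ)
    (J3 : Finset ℕ) (χ : T → Pt → ℝ) (β : T) (η : Env) : Px Q → ℝ :=
  Cf (sS J3 N) (cut' (χ β) (cf μ s A (nf G J (c β)) 0 0 J3)) (nq N) η

/-- The functional `h^β`. -/
def hh (μ : Measure ℝ) (s : ℝ) (A G : Env → (ℕ → ℤ) → ℝ) (J : Finset ℕ) (c : T → Pt → Env → ℝ) (J3 : Finset ℕ) (β : T) :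
    Env → (ℕ → ℤ) → ℝ := fun η f => G η f * hf μ s A (nf G J (c β)) J3 η f

/-- The far part of the macro field of `h^β`. -/
def F4 (μ : Measure ℝ) (s : ℝ) (N : ℕ) (Q : Finset (Finset ℕ)) (A G : Env → (ℕ → ℤ) → ℝ) (J : Finset ℕ) (c : T → Pt → Env → ℝ)
    (J3 J4 : Finset ℕ) (χ : T → Pt → ℝ) (β : T) (η : Env) : Px Q → ℝ :=
  Cf (sS J4 N) (cut' (χ β) (cf μ s A (hh μ s A G J c J3 β) 0 0 J4)) (nq N) η

end Defs

variable [IsProbabilityMeasure μ] {f f' : ℝ → ℝ} {bk1 bk2 : Bool} [Nonempty (Px Q)] {ι ι' ι2 : Type*} [Fintype ι] [DecidableEq ι]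
  [Fintype ι'] [DecidableEq ι'] [Fintype ι2] [DecidableEq ι2] {T ι3 : Type*} [Fintype T] [DecidableEq T] [Fintype ι3]
  {E : Ev (Px Q) ι} {E' : Ev (Px Q) ι'} {E2 : Ev (Px Q) ι2} {c1 c2 : T → Pt → Env → ℝ} {M1 M2 D0 D1 D2 : ℝ}
  {Ψ : Env → (ι → Px Q) → ℝ} {Ψ1 Ψ2 : Pt → Env → (ι → Px Q) → ℝ}

omit [IsProbabilityMeasure μ] [Nonempty (Px Q)] in
theorem int_le3 {ν : Measure Env} {F a b c : Env → ℝ} (ha : Integrable a ν) (hb : Integrable b ν) (hc : Integrable c ν)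
    (h : ∀ η, |F η| ≤ |a η| + |b η| + |c η|) :
    ∫ η, |F η| ∂ν ≤ ∫ η, |a η| ∂ν + ∫ η, |b η| ∂ν + ∫ η, |c η| ∂ν := by
  have i : Integrable (fun η => |a η| + |b η|) ν := ha.abs.add hb.abs
  have e1 : ∫ η, |a η| ∂ν + ∫ η, |b η| ∂ν = ∫ η, (|a η| + |b η|) ∂ν := (integral_add ha.abs hb.abs).symm
  have e2 : ∫ η, (|a η| + |b η|) ∂ν + ∫ η, |c η| ∂ν = ∫ η, ((|a η| + |b η|) + |c η|) ∂ν := (integral_add i hc.abs).symm
  rw [e1, e2]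
  exact integral_mono_of_nonneg (ae_of_all _ fun η => abs_nonneg _) (i.add hc.abs) (ae_of_all _ h)

section Id

variable {c : T → Pt → Env → ℝ} {M Dh : ℝ} {χ : T → Pt → ℝ}

omit [IsProbabilityMeasure μ] [Nonempty (Px Q)] [Fintype T] [DecidableEq T] in
theorem Nx_at2 (hQ : Full N Q) (hJ : ∀ r ∈ J, 1 ≤ r ∧ r ≤ N) (β : T) (η : Env) :
    Nx N Q G J c β η = at2 (nf G J (c β)) η := (at2_nf hQ hJ (c β) η).symm

omit [IsProbabilityMeasure μ] [Nonempty (Px Q)] [Fintype T] [DecidableEq T] in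
/-- `H^β` is a window functional. -/
theorem Hx_at2 (hQ : Full N Q) (hA : WF al be D' A) (hF : ∀ β, WF 0 e D (nf G J (c β))) (hae : be ≤ e) (hJ : ∀ r ∈ J, 1 ≤ r ∧ r ≤ N)
    (hj3 : ∀ r ∈ J3, e < r ∧ r ≤ N) (β : T) (η : Env) :
    Hx μ s N Q A G J c J3 β η = at2 (hf μ s A (nf G J (c β)) J3) η := by
  unfold Hx
  rw [Nx_at2 hQ hJ, at2_hf hQ hA (hF β) hae hj3]

omit [IsProbabilityMeasure μ] [Fintype T] [DecidableEq T] in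
/-- The remainder with the cut macro field = `H^β` + far part. -/
theorem HH_eq (hQ : Full N Q) (hA : WF al be D' A) (hF : ∀ β, WF 0 e D (nf G J (c β))) (hae : be ≤ e) (hJ : ∀ r ∈ J, 1 ≤ r ∧ r ≤ N)
    (hj3 : ∀ r ∈ J3, e < r ∧ r ≤ N) (β : T) (η : Env) :
    HH (fun η => at2 (Q := Q) G η) (sS J N) (c β) (sS J3 N) (cut (χ β) (cf μ s A (nf G J (c β)) 0 0 J3)) (nq N) η =
      Hx μ s N Q A G J c J3 β η + F3 μ s N Q A G J c J3 χ β η := by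
  have h1 := Cf_split (χ β) (sS J3 N) (cf μ s A (nf G J (c β)) 0 0 J3) (nq (Q := Q) N) η
  have h2 := Cf_mac (μ := μ) (s := s) (J := J3) hQ hA (hF β) hae hj3 η
  rw [h2, ← Nx_at2 hQ hJ] at h1
  unfold HH Hx F3
  rw [h1]
  show Nx N Q G J c β η - _ = Nx N Q G J c β η - _ + _
  abel

omit [IsProbabilityMeasure μ] [Nonempty (Px Q)] [Fintype T] [DecidableEq T] in
theorem hh_at2 (hQ : Full N Q) (hA : WF al be D' A) (hF : ∀ β, WF 0 e D (nf G J (c β))) (hae : be ≤ e) (hJ : ∀ r ∈ J, 1 ≤ r ∧ r ≤ N)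
    (hj3 : ∀ r ∈ J3, e < r ∧ r ≤ N) (β : T) (η : Env) :
    at2 (Q := Q) (hh μ s A G J c J3 β) η = at2 G η * Hx μ s N Q A G J c J3 β η := by
  rw [Hx_at2 hQ hA hF hae hJ hj3]
  rfl

omit [IsProbabilityMeasure μ] [Fintype T] [DecidableEq T] in
/-- The product with the cut macro fields. -/
theorem LL_eq (hQ : Full N Q) (hA : WF al be D' A) (hF : ∀ β, WF 0 e D (nf G J (c β))) (hH : ∀ β, WF 0 e3 Dh (hh μ s A G J c J3 β))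
    (hae : be ≤ e) (hee : e ≤ e3) (hJ : ∀ r ∈ J, 1 ≤ r ∧ r ≤ N) (hj3 : ∀ r ∈ J3, e < r ∧ r ≤ N) (hj4 : ∀ r ∈ J4, e3 < r ∧ r ≤ N)
    (β : T) (η : Env) :
    LL (fun η => at2 (Q := Q) G η) (sS J N) (c β) (sS J3 N) (cut (χ β) (cf μ s A (nf G J (c β)) 0 0 J3)) (sS J4 N)
        (cut (χ β) (cf μ s A (hh μ s A G J c J3 β) 0 0 J4)) (nq N) η =
      (at2 G η * Hx μ s N Q A G J c J3 β η - Cq (lA μ s N Q A η) J4 (pJ 0) (at2 G η * Hx μ s N Q A G J c J3 β η)) +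
        at2 G η * F3 μ s N Q A G J c J3 χ β η + F4 μ s N Q A G J c J3 J4 χ β η := by
  have h1 := Cf_split (χ β) (sS J4 N) (cf μ s A (hh μ s A G J c J3 β) 0 0 J4) (nq (Q := Q) N) η
  have h2 := Cf_mac (μ := μ) (s := s) (J := J4) hQ hA (hH β) (hae.trans hee) hj4 η
  rw [h2, hh_at2 hQ hA hF hae hJ hj3] at h1
  unfold LL
  rw [HH_eq hQ hA hF hae hJ hj3, h1]
  unfold F4
  show at2 G η * (_ + _) - _ = _
  rw [mul_add]
  abel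

end Id

/-- **TWO DERIVATIVES, MACRO FIELDS PUT IN.** -/
theorem e2_mac (d : Dr E E') (d' : Dr E' E2) (h : DenLaw μ f f') {K θ0 : ℝ} (hs : SG μ (sc f f') K θ0) (hQ : Full N Q)
    (κ : (ι → Px Q) → T) (hA : WF al be D' A) (hG : WF al be τ G) (hae : be ≤ e)
    -- the slabs
    (hJ12 : Disjoint J1 J2) (hj1 : ∀ r ∈ J1, (1 ≤ r ∧ r ≤ e) ∧ (r ≤ al ∨ be < r)) (hj2 : ∀ r ∈ J2, (1 ≤ r ∧ r ≤ e) ∧ (r ≤ al ∨ be < r))
    (hj3 : ∀ r ∈ J3, e < r ∧ r ≤ e3) (hj4 : ∀ r ∈ J4, e3 < r ∧ r ≤ N) (hee : e ≤ e3) (he3 : e3 ≤ N)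
    -- the near fields
    (b1 : ∀ β, DF bk1 (sS J1 N) (c1 β) M1) (b2 : ∀ β, DF bk2 (sS J2 N) (c2 β) M2) (z1 : ∀ β, RF 0 e J1 M1 (c1 β))
    (z2 : ∀ β, RF 0 e J2 M2 (c2 β)) (m1 : (J1.card : ℝ) * M1 ≤ τ) (m2 : (J2.card : ℝ) * M2 ≤ τ) (hM1 : 0 ≤ M1) (hM2 : 0 ≤ M2)
    (h12 : ∀ β, ∀ q1 ∈ sS J1 N, ∀ q2 ∈ sS J2 N, ∀ (η : Env) (x : ℝ), c1 β q1 (Function.update η q2 x) = c1 β q1 η)
    -- the tubes
    {χ : T → Pt → ℝ} (x0 : ∀ β p, 0 ≤ χ β p) (x1 : ∀ β p, χ β p ≤ 1)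
    -- the observable
    (hΨ : Obs Ψ D0) (hΨ1 : ∀ p ∈ sS J1 N, Obs (Ψ1 p) D1) (hΨ2 : ∀ p ∈ sS J2 N, Obs (Ψ2 p) D2) (hd1 : Sd (sS J1 N) Ψ Ψ1)
    (hd2 : Sd (sS J2 N) Ψ Ψ2) (hb3 : ∀ q ∈ sS J3 N, ∀ (η : Env) (x : ℝ), Ψ (Function.update η q x) = Ψ η)
    (hb4 : ∀ q ∈ sS J4 N, ∀ (η : Env) (x : ℝ), Ψ (Function.update η q x) = Ψ η)
    -- the numbers
    {t1 t2 t3 t4 a1 a2 a3 a3' a4 Q1 Q2 Q3 Q4 : ℝ} (q1 : 0 < t1) (q2 : 0 < t2) (q3 : 0 < t3) (q4 : 0 < t4)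
    (r1 : 2 * t1 * M1 ≤ θ0) (r2 : 2 * t2 * M2 ≤ θ0) (r3 : 2 * t3 * ((τ + τ) / J3.card) ≤ θ0)
    (r4 : t4 * (τ * ((τ + τ) + (τ + τ)) / J4.card) ≤ θ0)
    (hQ1 : ∀ β η, QV (sS J1 N) (c1 β) η ≤ Q1) (hQ2 : ∀ β η, QV (sS J2 N) (c2 β) η ≤ Q2)
    (hQ3 : ∀ (β : T) (η : Env) (cc : Pt → Env → ℝ), (∀ p ∈ sS J3 N, |cc p η| ≤ (τ + τ) / J3.card) →
      QV (sS J3 N) (cut (χ β) cc) η ≤ Q3)
    (hQ4 : ∀ (β : T) (η : Env) (cc : Pt → Env → ℝ), (∀ p ∈ sS J4 N, |cc p η| ≤ τ * ((τ + τ) + (τ + τ)) / J4.card) →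
      QV (sS J4 N) (cut (χ β) cc) η ≤ Q4)
    (ha1 : 0 ≤ a1) (ha2 : 0 ≤ a2) (ha3 : 0 ≤ a3) (ha3' : 0 ≤ a3') (ha4 : 0 ≤ a4) :
    |∫ η, E2.ev (lA μ s N Q A η) (d'.ins (at2 G η) (d.ins (at2 G η) (Ψ η))) ∂(law μ)| ≤
      ((a1 * a2 + a1 * a3 + a4) * ∫ η, E.ev (lA μ s N Q A η) (fun x => |Ψ η x|) ∂(law μ) +
        a3' * ∫ η, E'.ev (lA μ s N Q A η) (fun y => |d.ins (at2 G η) (Ψ η) y|) ∂(law μ)) +
      (a1 * ∫ η, E.ev (lA μ s N Q A η) (fun x => |DgK κ (sS J2 N) c2 Ψ2 η x|) ∂(law μ) +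
        ∫ η, E'.ev (lA μ s N Q A η) (fun y => |d.ins (at2 G η) (DgK κ (sS J1 N) c1 Ψ1 η) y|) ∂(law μ)) +
      (a1 * ∑ β, ∫ η, |E'.ev (lA μ s N Q A η) (d.ins (Hx μ s N Q A G J2 c2 J3 β η) (lcK κ β (Ψ η)))| ∂(law μ) +
        ∑ β, ∫ η, |E2.ev (lA μ s N Q A η) (d'.ins (Hx μ s N Q A G J1 c1 J3 β η) (d.ins (at2 G η) (lcK κ β (Ψ η)))) -
          E'.ev (lA μ s N Q A η) (d.ins (at2 G η * Hx μ s N Q A G J1 c1 J3 β η) (lcK κ β (Ψ η)))| ∂(law μ) +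
        ∑ β, ∫ η, |E'.ev (lA μ s N Q A η) (d.ins (at2 G η * Hx μ s N Q A G J1 c1 J3 β η -
          Cq (lA μ s N Q A η) J4 (pJ 0) (at2 G η * Hx μ s N Q A G J1 c1 J3 β η)) (lcK κ β (Ψ η)))| ∂(law μ)) +
      (a1 * ∑ β, ∫ η, |E'.ev (lA μ s N Q A η) (d.ins (F3 μ s N Q A G J2 c2 J3 χ β η) (lcK κ β (Ψ η)))| ∂(law μ) +
        ∑ β, ∫ η, |E2.ev (lA μ s N Q A η) (d'.ins (F3 μ s N Q A G J1 c1 J3 χ β η) (d.ins (at2 G η) (lcK κ β (Ψ η))))| ∂(law μ) +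
        2 * ∑ β, ∫ η, |E'.ev (lA μ s N Q A η) (d.ins (at2 G η * F3 μ s N Q A G J1 c1 J3 χ β η) (lcK κ β (Ψ η)))| ∂(law μ) +
        ∑ β, ∫ η, |E'.ev (lA μ s N Q A η) (d.ins (F4 μ s N Q A G J1 c1 J3 J4 χ β η) (lcK κ β (Ψ η)))| ∂(law μ)) +
      (Fintype.card T : ℝ) * (tail2 K D0 t1 t2 a1 a2 Q1 Q2 + tail2 K D0 t1 t3 a1 a3 Q1 Q3 +
        tail1 K (D0 * (d.sz * τ)) t3 a3' Q3 + tail1 K D0 t4 a4 Q4 +
        tail1 K (D0 * (d.sz * (τ + (sS J2 N).card * (M2 * 1) + (sS J3 N).card * ((τ + τ) / J3.card * 1)))) t1 a1 Q1 +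
        tail1 K ((sS J2 N).card * (M2 * D2)) t1 a1 Q1) := by
  have τ0 : 0 ≤ τ := (abs_nonneg _).trans (hG.bd (fun _ => 0) fun _ => 0)
  have jj1 : ∀ r ∈ J1, 1 ≤ r ∧ r ≤ N := fun r hr => ⟨(hj1 r hr).1.1, (hj1 r hr).1.2.trans (hee.trans he3)⟩
  have jj2 : ∀ r ∈ J2, 1 ≤ r ∧ r ≤ N := fun r hr => ⟨(hj2 r hr).1.1, (hj2 r hr).1.2.trans (hee.trans he3)⟩
  have jj3 : ∀ r ∈ J3, e < r ∧ r ≤ N := fun r hr => ⟨(hj3 r hr).1, (hj3 r hr).2.trans he3⟩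
  have hG0 : WF 0 e τ G := hG.mono (Nat.zero_le _) hae le_rfl
  have hG3 : WF 0 e3 τ G := hG0.mono le_rfl hee le_rfl
  have f1 : ∀ β, WF 0 e (τ + τ) (nf G J1 (c1 β)) := fun β => wf_nf hG0 (z1 β) m1
  have f2 : ∀ β, WF 0 e (τ + τ) (nf G J2 (c2 β)) := fun β => wf_nf hG0 (z2 β) m2
  have g1 : ∀ β, WF 0 e3 ((τ + τ) + (τ + τ)) (hf μ s A (nf G J1 (c1 β)) J3) := fun β => wf_hf hA (f1 β) hae hj3 hee
  have g2 : ∀ β, WF 0 e3 ((τ + τ) + (τ + τ)) (hf μ s A (nf G J2 (c2 β)) J3) := fun β => wf_hf hA (f2 β) hae hj3 hee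
  have gh : ∀ β, WF 0 e3 (τ * ((τ + τ) + (τ + τ))) (hh μ s A G J1 c1 J3 β) := fun β => hG3.mul (g1 β)
  have gq : ∀ β, WF 0 N (τ * ((τ + τ) + (τ + τ)) + τ * ((τ + τ) + (τ + τ))) (hf μ s A (hh μ s A G J1 c1 J3 β) J4) := fun β =>
    wf_hf hA (gh β) (hae.trans hee) hj4 he3
  -- the macro fields
  have d3 : ∀ β, DF false (sS J3 N) (cut (χ β) (cf μ s A (nf G J2 (c2 β)) 0 0 J3)) ((τ + τ) / J3.card) := fun β =>
    (df_mac hA (f2 β) hae (fun r hr => (hj3 r hr).1) N).cut (x0 β) (x1 β)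
  have d3' : ∀ β, DF false (sS J3 N) (cut (χ β) (cf μ s A (nf G J1 (c1 β)) 0 0 J3)) ((τ + τ) / J3.card) := fun β =>
    (df_mac hA (f1 β) hae (fun r hr => (hj3 r hr).1) N).cut (x0 β) (x1 β)
  have d4 : ∀ β, DF false (sS J4 N) (cut (χ β) (cf μ s A (hh μ s A G J1 c1 J3 β) 0 0 J4)) (τ * ((τ + τ) + (τ + τ)) / J4.card) :=
    fun β => (df_mac hA (gh β) (hae.trans hee) (fun r hr => (hj4 r hr).1) N).cut (x0 β) (x1 β)
  have k3 : ∀ β η, ∀ p ∈ sS J3 N, |cf μ s A (nf G J2 (c2 β)) 0 0 J3 p η| ≤ (τ + τ) / J3.card := fun β η p hp =>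
    (rf_mac (μ := μ) (s := s) hA (f2 β) hae hj3).bdS hp η
  have k3' : ∀ β η, ∀ p ∈ sS J3 N, |cf μ s A (nf G J1 (c1 β)) 0 0 J3 p η| ≤ (τ + τ) / J3.card := fun β η p hp =>
    (rf_mac (μ := μ) (s := s) hA (f1 β) hae hj3).bdS hp η
  have k4 : ∀ β η, ∀ p ∈ sS J4 N, |cf μ s A (hh μ s A G J1 c1 J3 β) 0 0 J4 p η| ≤ τ * ((τ + τ) + (τ + τ)) / J4.card := fun β η p hp =>
    (rf_mac (μ := μ) (s := s) (e' := N) hA (gh β) (hae.trans hee) hj4).bdS hp η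
  -- the weights on the slabs
  have w1 : Wt (sS J1 N) (fun η => lA μ s N Q A η) (nq N) 1 := Wt_lA hA fun p hp => by
    obtain ⟨r, hr, z, _, rfl⟩ := mem_sS.1 hp
    have := (hj1 r hr).2
    show (r : ℤ) ≤ al ∨ (be : ℤ) < (r : ℤ)
    exact_mod_cast this
  have w2 : Wt (sS J2 N) (fun η => lA μ s N Q A η) (nq N) 1 := Wt_lA hA fun p hp => by
    obtain ⟨r, hr, z, _, rfl⟩ := mem_sS.1 hp
    have := (hj2 r hr).2
    show (r : ℤ) ≤ al ∨ (be : ℤ) < (r : ℤ)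
    exact_mod_cast this
  have w3 : Wt (sS J3 N) (fun η => lA μ s N Q A η) (nq N) 1 := Wt_lA hA fun p hp => by
    obtain ⟨r, hr, z, _, rfl⟩ := mem_sS.1 hp
    have := (hj3 r hr).1
    right
    show (be : ℤ) < (r : ℤ)
    exact_mod_cast hae.trans_lt this
  have w4 : Wt (sS J4 N) (fun η => lA μ s N Q A η) (nq N) 1 := Wt_lA hA fun p hp => by
    obtain ⟨r, hr, z, _, rfl⟩ := mem_sS.1 hp
    have := (hj4 r hr).1
    right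
    show (be : ℤ) < (r : ℤ)
    exact_mod_cast (hae.trans hee).trans_lt this
  have mw := w1.meas
  have mG : Measurable fun η => at2 (Q := Q) G η := at2_meas hG
  have bG : ∀ η S, |at2 (Q := Q) G η S| ≤ τ := fun η S => hG.bd η _
  have G1 : Bl (sS J1 N) fun η => at2 (Q := Q) G η := fun p hp η x => by
    obtain ⟨r, hr, z, _, rfl⟩ := mem_sS.1 hp
    have h5 := (hj1 r hr).2
    show at2 G _ = at2 G _
    unfold at2
    rw [hG.blind η ((r : ℤ), (z : ℤ)) x (by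
      show (r : ℤ) ≤ al ∨ (be : ℤ) < (r : ℤ)
      exact_mod_cast h5)]
  have G3 : Bl (sS J3 N) fun η => at2 (Q := Q) G η := fun p hp η x => by
    obtain ⟨r, hr, z, _, rfl⟩ := mem_sS.1 hp
    have h5 := (hj3 r hr).1
    show at2 G _ = at2 G _
    unfold at2
    rw [hG.blind η ((r : ℤ), (z : ℤ)) x (Or.inr (by
      show (be : ℤ) < (r : ℤ)
      exact_mod_cast hae.trans_lt h5))]
  have hd13 : Disjoint (sS J1 N) (sS J3 N) := disj_sS (disjoint_left.2 fun r h5 h6 => by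
    have := (hj1 r h5).1.2
    have := (hj3 r h6).1
    omega)
  have key := e2m (c1 := c1) (c2 := c2) (c3 := fun β => cut (χ β) (cf μ s A (nf G J2 (c2 β)) 0 0 J3))
    (c3' := fun β => cut (χ β) (cf μ s A (nf G J1 (c1 β)) 0 0 J3))
    (c4 := fun β => cut (χ β) (cf μ s A (hh μ s A G J1 c1 J3 β) 0 0 J4)) d d' h hs κ (disj_sS hJ12) hd13 b1 b2 d3 d3' d4 hM1 hM2
    (div_nonneg (add_nonneg τ0 τ0) (Nat.cast_nonneg _))
    (div_nonneg (mul_nonneg τ0 (add_nonneg (add_nonneg τ0 τ0) (add_nonneg τ0 τ0))) (Nat.cast_nonneg _)) h12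
    (fun β p1 hp1 p2 hp2 η x => (z1 β).blS hp1 (Or.inr (by
      obtain ⟨r, hr, z, _, rfl⟩ := mem_sS.1 hp2
      have := (hj3 r hr).1
      show (e : ℤ) < (r : ℤ)
      exact_mod_cast this)) η x) w1 w2 w3 w4 hΨ hΨ1 hΨ2 hd1 hd2 hb3 hb4 mG bG G1 G3 q1 q2 q3 q4 r1 r2 r3 r4 hQ1 hQ2
    (fun β η => hQ3 β η _ (k3 β η)) (fun β η => hQ3 β η _ (k3' β η)) (fun β η => hQ4 β η _ (k4 β η)) ha1 ha2 ha3 ha3' ha4
  refine key.trans ?_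
  simp only [HH_eq hQ hA f2 hae jj2 jj3, HH_eq hQ hA f1 hae jj1 jj3, LL_eq hQ hA f1 gh hae hee jj1 jj3 hj4]
  -- the pieces
  have mH1 : ∀ β, Measurable fun η => Hx μ s N Q A G J1 c1 J3 β η := fun β => by
    simp only [Hx_at2 hQ hA f1 hae jj1 jj3]
    exact at2_meas (g1 β)
  have mH2 : ∀ β, Measurable fun η => Hx μ s N Q A G J2 c2 J3 β η := fun β => by
    simp only [Hx_at2 hQ hA f2 hae jj2 jj3]
    exact at2_meas (g2 β)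
  have bH1 : ∀ β η S, |Hx μ s N Q A G J1 c1 J3 β η S| ≤ (τ + τ) + (τ + τ) := fun β η S => by
    rw [Hx_at2 hQ hA f1 hae jj1 jj3]
    exact (g1 β).bd η _
  have bH2 : ∀ β η S, |Hx μ s N Q A G J2 c2 J3 β η S| ≤ (τ + τ) + (τ + τ) := fun β η S => by
    rw [Hx_at2 hQ hA f2 hae jj2 jj3]
    exact (g2 β).bd η _
  have c3 : ∀ β, DF false (sS J3 N) (cut' (χ β) (cf μ s A (nf G J2 (c2 β)) 0 0 J3)) ((τ + τ) / J3.card) := fun β =>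
    (df_mac hA (f2 β) hae (fun r hr => (hj3 r hr).1) N).cut' (x0 β) (x1 β)
  have c3' : ∀ β, DF false (sS J3 N) (cut' (χ β) (cf μ s A (nf G J1 (c1 β)) 0 0 J3)) ((τ + τ) / J3.card) := fun β =>
    (df_mac hA (f1 β) hae (fun r hr => (hj3 r hr).1) N).cut' (x0 β) (x1 β)
  have c4 : ∀ β, DF false (sS J4 N) (cut' (χ β) (cf μ s A (hh μ s A G J1 c1 J3 β) 0 0 J4)) (τ * ((τ + τ) + (τ + τ)) / J4.card) :=
    fun β => (df_mac hA (gh β) (hae.trans hee) (fun r hr => (hj4 r hr).1) N).cut' (x0 β) (x1 β)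
  have mF3 : ∀ β, Measurable fun η => F3 μ s N Q A G J2 c2 J3 χ β η := fun β => meas_Cf (c3 β).meas (nq N)
  have mF3' : ∀ β, Measurable fun η => F3 μ s N Q A G J1 c1 J3 χ β η := fun β => meas_Cf (c3' β).meas (nq N)
  have mF4 : ∀ β, Measurable fun η => F4 μ s N Q A G J1 c1 J3 J4 χ β η := fun β => meas_Cf (c4 β).meas (nq N)
  have bF3 : ∀ β η S, |F3 μ s N Q A G J2 c2 J3 χ β η S| ≤ (sS J3 N).card * ((τ + τ) / J3.card * 1) := fun β η S =>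
    H41.abs_Cf_le (c3 β).bd w3.bd η S
  have bF3' : ∀ β η S, |F3 μ s N Q A G J1 c1 J3 χ β η S| ≤ (sS J3 N).card * ((τ + τ) / J3.card * 1) := fun β η S =>
    H41.abs_Cf_le (c3' β).bd w3.bd η S
  have bF4 : ∀ β η S, |F4 μ s N Q A G J1 c1 J3 J4 χ β η S| ≤ (sS J4 N).card * (τ * ((τ + τ) + (τ + τ)) / J4.card * 1) := fun β η S =>
    H41.abs_Cf_le (c4 β).bd w4.bd η S
  have io : ∀ (R : Env → Px Q → ℝ) (B : ℝ), Measurable R → (∀ η y, |R η y| ≤ B) → ∀ β,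
      Integrable (fun η => E'.ev (lA μ s N Q A η) (d.ins (R η) (lcK κ β (Ψ η)))) (law μ) := fun R B hm hb β =>
    ((obs_lcK hΨ κ β).ins d hm hb).int E' mw
  have oG : ∀ β, Obs (fun η => d.ins (at2 G η) (lcK κ β (Ψ η))) (D0 * (d.sz * τ)) := fun β => (obs_lcK hΨ κ β).ins d mG bG
  have io2 : ∀ (R : Env → Px Q → ℝ) (B : ℝ), Measurable R → (∀ η y, |R η y| ≤ B) → ∀ β,
      Integrable (fun η => E2.ev (lA μ s N Q A η) (d'.ins (R η) (d.ins (at2 G η) (lcK κ β (Ψ η))))) (law μ) := fun R B hm hb β =>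
    ((oG β).ins d' hm hb).int E2 mw
  have bmul : ∀ {R : Env → Px Q → ℝ} {B : ℝ}, (∀ η y, |R η y| ≤ B) → ∀ η y, |(at2 (Q := Q) G η * R η) y| ≤ τ * B :=
    fun {R B} hb η y => by
      rw [Pi.mul_apply, abs_mul]
      exact mul_le_mul (bG η y) (hb η y) (abs_nonneg _) τ0
  have s1 : ∑ β, ∫ η, |E'.ev (lA μ s N Q A η) (d.ins (Hx μ s N Q A G J2 c2 J3 β η + F3 μ s N Q A G J2 c2 J3 χ β η)
      (lcK κ β (Ψ η)))| ∂(law μ) ≤ ∑ β, ∫ η, |E'.ev (lA μ s N Q A η) (d.ins (Hx μ s N Q A G J2 c2 J3 β η) (lcK κ β (Ψ η)))| ∂(law μ) +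
        ∑ β, ∫ η, |E'.ev (lA μ s N Q A η) (d.ins (F3 μ s N Q A G J2 c2 J3 χ β η) (lcK κ β (Ψ η)))| ∂(law μ) := by
    rw [← Finset.sum_add_distrib]
    refine Finset.sum_le_sum fun β _ => ?_
    have i1 := io _ _ (mH2 β) (bH2 β) β
    have i2 := io _ _ (mF3 β) (bF3 β) β
    rw [← integral_add i1.abs i2.abs]
    have e : ∀ η, E'.ev (lA μ s N Q A η) (d.ins (Hx μ s N Q A G J2 c2 J3 β η + F3 μ s N Q A G J2 c2 J3 χ β η) (lcK κ β (Ψ η))) =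
        E'.ev (lA μ s N Q A η) (d.ins (Hx μ s N Q A G J2 c2 J3 β η) (lcK κ β (Ψ η))) +
        E'.ev (lA μ s N Q A η) (d.ins (F3 μ s N Q A G J2 c2 J3 χ β η) (lcK κ β (Ψ η))) := fun η => by
      rw [← ev_add]
      exact ev_congr _ _ fun y => ins_add _ _ _ _ _
    simp only [e]
    exact integral_mono (i1.add i2).abs (i1.abs.add i2.abs) fun η => abs_add_le _ _
  have s2 : ∑ β, ∫ η, |E2.ev (lA μ s N Q A η) (d'.ins (Hx μ s N Q A G J1 c1 J3 β η + F3 μ s N Q A G J1 c1 J3 χ β η)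
      (d.ins (at2 G η) (lcK κ β (Ψ η)))) - E'.ev (lA μ s N Q A η)
        (d.ins (at2 G η * (Hx μ s N Q A G J1 c1 J3 β η + F3 μ s N Q A G J1 c1 J3 χ β η)) (lcK κ β (Ψ η)))| ∂(law μ) ≤
      ∑ β, ∫ η, |E2.ev (lA μ s N Q A η) (d'.ins (Hx μ s N Q A G J1 c1 J3 β η) (d.ins (at2 G η) (lcK κ β (Ψ η)))) -
          E'.ev (lA μ s N Q A η) (d.ins (at2 G η * Hx μ s N Q A G J1 c1 J3 β η) (lcK κ β (Ψ η)))| ∂(law μ) +
      ∑ β, ∫ η, |E2.ev (lA μ s N Q A η) (d'.ins (F3 μ s N Q A G J1 c1 J3 χ β η) (d.ins (at2 G η) (lcK κ β (Ψ η))))| ∂(law μ) +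
      ∑ β, ∫ η, |E'.ev (lA μ s N Q A η) (d.ins (at2 G η * F3 μ s N Q A G J1 c1 J3 χ β η) (lcK κ β (Ψ η)))| ∂(law μ) := by
    rw [← Finset.sum_add_distrib, ← Finset.sum_add_distrib]
    refine Finset.sum_le_sum fun β _ => ?_
    have i1 := io2 _ _ (mH1 β) (bH1 β) β
    have i2 := io _ _ (mG.mul (mH1 β)) (bmul (bH1 β)) β
    have i3 := io2 _ _ (mF3' β) (bF3' β) β
    have i4 := io _ _ (mG.mul (mF3' β)) (bmul (bF3' β)) β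
    simp only [Pi.mul_apply] at i2 i4
    refine int_le3 (i1.sub i2) i3 i4 fun η => ?_
    have e : ∀ η, E2.ev (lA μ s N Q A η) (d'.ins (Hx μ s N Q A G J1 c1 J3 β η + F3 μ s N Q A G J1 c1 J3 χ β η)
        (d.ins (at2 G η) (lcK κ β (Ψ η)))) - E'.ev (lA μ s N Q A η)
          (d.ins (at2 G η * (Hx μ s N Q A G J1 c1 J3 β η + F3 μ s N Q A G J1 c1 J3 χ β η)) (lcK κ β (Ψ η))) =
        ((E2.ev (lA μ s N Q A η) (d'.ins (Hx μ s N Q A G J1 c1 J3 β η) (d.ins (at2 G η) (lcK κ β (Ψ η)))) -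
          E'.ev (lA μ s N Q A η) (d.ins (at2 G η * Hx μ s N Q A G J1 c1 J3 β η) (lcK κ β (Ψ η)))) +
        E2.ev (lA μ s N Q A η) (d'.ins (F3 μ s N Q A G J1 c1 J3 χ β η) (d.ins (at2 G η) (lcK κ β (Ψ η))))) -
        E'.ev (lA μ s N Q A η) (d.ins (at2 G η * F3 μ s N Q A G J1 c1 J3 χ β η) (lcK κ β (Ψ η))) := fun η => by
      have k1 : E2.ev (lA μ s N Q A η) (d'.ins (Hx μ s N Q A G J1 c1 J3 β η + F3 μ s N Q A G J1 c1 J3 χ β η)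
          (d.ins (at2 G η) (lcK κ β (Ψ η)))) =
          E2.ev (lA μ s N Q A η) (d'.ins (Hx μ s N Q A G J1 c1 J3 β η) (d.ins (at2 G η) (lcK κ β (Ψ η)))) +
          E2.ev (lA μ s N Q A η) (d'.ins (F3 μ s N Q A G J1 c1 J3 χ β η) (d.ins (at2 G η) (lcK κ β (Ψ η)))) := by
        rw [← ev_add]
        exact ev_congr _ _ fun y => ins_add _ _ _ _ _
      have k2 : E'.ev (lA μ s N Q A η)
          (d.ins (at2 G η * (Hx μ s N Q A G J1 c1 J3 β η + F3 μ s N Q A G J1 c1 J3 χ β η)) (lcK κ β (Ψ η))) =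
          E'.ev (lA μ s N Q A η) (d.ins (at2 G η * Hx μ s N Q A G J1 c1 J3 β η) (lcK κ β (Ψ η))) +
          E'.ev (lA μ s N Q A η) (d.ins (at2 G η * F3 μ s N Q A G J1 c1 J3 χ β η) (lcK κ β (Ψ η))) := by
        rw [← ev_add, mul_add]
        exact ev_congr _ _ fun y => ins_add _ _ _ _ _
      rw [k1, k2]
      ring
    rw [e η]
    exact (abs_sub _ _).trans (add_le_add (abs_add_le _ _) le_rfl)
  have s3 : ∑ β, ∫ η, |E'.ev (lA μ s N Q A η) (d.ins (at2 G η * Hx μ s N Q A G J1 c1 J3 β η -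
      Cq (lA μ s N Q A η) J4 (pJ 0) (at2 G η * Hx μ s N Q A G J1 c1 J3 β η) + at2 G η * F3 μ s N Q A G J1 c1 J3 χ β η +
        F4 μ s N Q A G J1 c1 J3 J4 χ β η) (lcK κ β (Ψ η)))| ∂(law μ) ≤
      ∑ β, ∫ η, |E'.ev (lA μ s N Q A η) (d.ins (at2 G η * Hx μ s N Q A G J1 c1 J3 β η -
          Cq (lA μ s N Q A η) J4 (pJ 0) (at2 G η * Hx μ s N Q A G J1 c1 J3 β η)) (lcK κ β (Ψ η)))| ∂(law μ) +
      ∑ β, ∫ η, |E'.ev (lA μ s N Q A η) (d.ins (at2 G η * F3 μ s N Q A G J1 c1 J3 χ β η) (lcK κ β (Ψ η)))| ∂(law μ) +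
      ∑ β, ∫ η, |E'.ev (lA μ s N Q A η) (d.ins (F4 μ s N Q A G J1 c1 J3 J4 χ β η) (lcK κ β (Ψ η)))| ∂(law μ) := by
    rw [← Finset.sum_add_distrib, ← Finset.sum_add_distrib]
    refine Finset.sum_le_sum fun β _ => ?_
    have e5 : ∀ η, at2 G η * Hx μ s N Q A G J1 c1 J3 β η - Cq (lA μ s N Q A η) J4 (pJ 0) (at2 G η * Hx μ s N Q A G J1 c1 J3 β η) =
        at2 (hf μ s A (hh μ s A G J1 c1 J3 β) J4) η := fun η => by
      rw [at2_hf hQ hA (gh β) (hae.trans hee) hj4, hh_at2 hQ hA f1 hae jj1 jj3]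
    simp only [e5]
    have i1 := io _ _ (at2_meas (gq β)) (fun η S => (gq β).bd η _) β
    have i2 := io _ _ (mG.mul (mF3' β)) (bmul (bF3' β)) β
    have i3 := io _ _ (mF4 β) (bF4 β) β
    simp only [Pi.mul_apply] at i2
    refine int_le3 i1 i2 i3 fun η => ?_
    have e : ∀ η, E'.ev (lA μ s N Q A η) (d.ins (at2 (hf μ s A (hh μ s A G J1 c1 J3 β) J4) η +
        at2 G η * F3 μ s N Q A G J1 c1 J3 χ β η + F4 μ s N Q A G J1 c1 J3 J4 χ β η) (lcK κ β (Ψ η))) =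
        E'.ev (lA μ s N Q A η) (d.ins (at2 (hf μ s A (hh μ s A G J1 c1 J3 β) J4) η) (lcK κ β (Ψ η))) +
        E'.ev (lA μ s N Q A η) (d.ins (at2 G η * F3 μ s N Q A G J1 c1 J3 χ β η) (lcK κ β (Ψ η))) +
        E'.ev (lA μ s N Q A η) (d.ins (F4 μ s N Q A G J1 c1 J3 J4 χ β η) (lcK κ β (Ψ η))) := fun η => by
      rw [← ev_add, ← ev_add]
      refine ev_congr _ _ fun y => ?_
      rw [ins_add, ins_add]
    rw [e η]
    exact (abs_add_le _ _).trans (add_le_add (abs_add_le _ _) le_rfl)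
  have s1' := mul_le_mul_of_nonneg_left s1 ha1
  rw [mul_add] at s1'
  linarith

end

end Pool.Agent.W_7d29a1_C0.EM63
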