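import Pool.Agent.W_7d29a1_C0.E2M34
import Pool.Agent.W_7d29a1_C0.MicL14
import Pool.Agent.W_7d29a1_C0.KeyL65

/-!
MP_7d29a1_pr, [CURV0] / [C0], section E2 (helper34): **THE FAR LINES OF E2**, part 8: the far functionals of part L. `farL34`: `fa`, `fb`,
`fc` of `MicL14` for a key with the boxes of `x 2`, `x 1` in front of the near slabs. `FOk_eq34`, `tubeK34`: the macro functional `FOk` of
`KeyL65` is `FO` for the tubes of all the own paths (the key has the boxes of `x 2`, `x 0` behind the block, where `x 1 = x 2`).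
-/

set_option autoImplicit false
set_option linter.unusedSectionVars false
set_option linter.unusedVariables false

namespace Pool.Agent.W_7d29a1_C0.E2F34

open Finset MeasureTheory Filter Topology Pool.Agent.W_7d29a1_F Pool.Agent.W_7d29a1_X Pool.Agent.W_7d29a1_H
open Pool.Agent.W_7d29a1_HS (In)
open Pool.Agent.W_7d29a1_HZ (wd' EE')
open Pool.Agent.W_7d29a1_C0 Pool.Agent.W_7d29a1_C0.Mod92 Pool.Agent.W_7d29a1_C0.Swap57
open Pool.Agent.W_7d29a1_C0.F13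
open Pool.Agent.W_7d29a1_C0.Far34 (nfl nfl_nonneg Fl vv vv_nonneg i1 i1_nonneg i1_le str_of_fl)
open Pool.Agent.W_7d29a1_C0.MicE14 (rh rh_nonneg mi Cq p_eq)
open Pool.Agent.W_7d29a1_C0.MicH14 (mp_rh')
open Pool.Agent.W_7d29a1_C0.MicL14 (fa fb fc)
open Pool.Agent.W_7d29a1_C0.KL65 (FOk kapL kapF TK oB)
open Pool.Agent.W_7d29a1_C0.E2F59 (FO)
open Pool.Agent.W_7d29a1_C0.NM82 (Rk)
open Pool.Agent.W_7d29a1_C0.CutE14 (P3)
open Pool.W7d29a1.C0
open Pool.W7d29a1.C0.VT31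
open Pool.W7d29a1.C0.H7 (meas_evP)
open Pool.W7d29a1.C0.T73 (OutB bx Str pm pm_nat pm_nonneg pm_le JZ mem_JZ not_OutB)
open Pool.W7d29a1.C0.C45 (wu meas_wu)
open Pool.W7d29a1.C0.I52 (Plan ev ev_mono ev_mono' ev_nonneg ev_smul ev_add ev_congr gm_eq_av cE_eq_av wt)

noncomputable section

variable {μ : Measure ℝ} {s : ℝ} {N y : ℕ}

/-! ### Tubes of two boxes -/

theorem i1_le_one34 (p : Prop) : i1 p ≤ 1 := i1_le zero_le_one fun _ => le_rfl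

section Two

variable {R ε2 W : ℝ} {t τ k0 L H nn al n : ℕ} {J : Finset ℕ}

/-- A flat path is in its own tube. -/
theorem own2_34 (hS : SlabL34 μ s N ε2 t τ J R W k0 L H nn al n) (x : Fin 3 → Px (Pn N y)) {O : Px (Pn N y) → ℝ}
    (hO : ∀ v, O v ≤ i1 (OutB pm (sl μ s) R (k0 : ℤ) (JZ J) (![bx pm R (k0 : ℤ) nn (x 2), bx pm R (k0 : ℤ) nn (x 1)]) v)) :
    O (x 2) ≤ nfl N (sl μ s) (vv μ s N ε2) (x 2) ∧ O (x 1) ≤ nfl N (sl μ s) (vv μ s N ε2) (x 1) := by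
  have hbx : (![bx pm R (k0 : ℤ) nn (x 2), bx pm R (k0 : ℤ) nn (x 1)] : Fin 2 → Fin (nn + 1)) =
      fun m => bx pm R (k0 : ℤ) nn ((![x 2, x 1] : Fin 2 → Px (Pn N y)) m) := by
    funext m
    fin_cases m <;> rfl
  have h := fun m => own_tube34 (σ := sl μ s) hS.R1 hS.RL hS.JN hS.kN hS.JL hS.kn (![x 2, x 1] : Fin 2 → Px (Pn N y)) m
  rw [← hbx] at h
  exact ⟨(hO (x 2)).trans (h 0), (hO (x 1)).trans (h 1)⟩

end Two

/-! ### Two functionals and their integrals -/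

section Fun

variable [Nonempty (Px (Pn N y))] {u : Finset ℕ → Env → Px (Pn N y) → ℝ} {I : Px (Pn N y) → Px (Pn N y) → ℝ} {c d z cc d0 : ℕ}
  {F : ℝ} {f : Env × Finset ℕ → Px (Pn N y) → ℝ}

/-- The near line for the condition `pJ c' d'`. -/
def EL34 (μ : Measure ℝ) (s : ℝ) (u : Finset ℕ → Env → Px (Pn N y) → ℝ) (I : Px (Pn N y) → Px (Pn N y) → ℝ) (c d z cc : ℕ)
    (f : Env × Finset ℕ → Px (Pn N y) → ℝ) (c' d' : ℕ) (O : (Fin 3 → Px (Pn N y)) → Px (Pn N y) → ℝ) (ω : Env × Finset ℕ) : ℝ :=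
  ev (P3 (pJ c d)) (wu μ s N (Pn N y) u ω) fun x => Ob34 I z cc (f ω) x * cE (wu μ s N (Pn N y) u ω) (pJ c' d') (O x) (x 2)

theorem EL_nonneg34 (I0 : ∀ S S', 0 ≤ I S S') {O : (Fin 3 → Px (Pn N y)) → Px (Pn N y) → ℝ} (O0 : ∀ x v, 0 ≤ O x v) (c' d' : ℕ)
    (ω : Env × Finset ℕ) : 0 ≤ EL34 μ s u I c d z cc f c' d' O ω :=
  ev_nonneg _ _ fun x => mul_nonneg (Ob_nonneg I0 _ x) (cE_nonneg _ _ (O0 x) _)

theorem int_EL34 [IsProbabilityMeasure μ] (hum : ∀ S, Measurable fun ω : Env × Finset ℕ => u ω.2 ω.1 S) (I0 : ∀ S S', 0 ≤ I S S')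
    (I1 : ∀ S S', I S S' ≤ 1) (hf : Sf d0 F f) (hF : 0 < F) {O : (Fin 3 → Px (Pn N y)) → Px (Pn N y) → ℝ} (O0 : ∀ x v, 0 ≤ O x v)
    (O1 : ∀ x v, O x v ≤ 1) (c' d' : ℕ) : Integrable (EL34 μ s u I c d z cc f c' d' O) (Pm μ N) := by
  have mw : ∀ S, Measurable fun ω : Env × Finset ℕ => wu μ s N (Pn N y) u ω S := meas_wu hum
  have c0 : ∀ (w : Px (Pn N y) → ℝ) x, 0 ≤ cE w (pJ c' d') (O x) (x 2) := fun w x => cE_nonneg _ _ (O0 x) _
  have c1 : ∀ (w : Px (Pn N y) → ℝ) x, cE w (pJ c' d') (O x) (x 2) ≤ 1 := fun w x =>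
    (cE_mono w (pJ c' d') (g := fun _ => 1) (O1 x) (x 2)).trans (congrFun (cE_one w (pJ c' d')) (x 2)).le
  exact int_bdd (M := 2 * F) (meas_evP mw _ fun x => (Ob_meas hf x).mul (meas_cE mw (f := fun _ => O x) (fun _ => measurable_const) _ _))
    fun ω => abs_ev_le _ _ (fun x => mul_nonneg (Ob_nonneg I0 _ x) (c0 _ x)) fun x =>
      (mul_le_of_le_one_right (Ob_nonneg I0 _ x) (c1 _ x)).trans (Ob_le I1 (hf.bdd ω) x)

variable {T : Type*} {kap : (Fin 3 → Px (Pn N y)) → T} {o : T → Px (Pn N y) → ℝ} {Ψ : Env × Finset ℕ → (Fin 3 → Px (Pn N y)) → ℝ} {K0 : ℝ}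

/-- `fb` is one near line. -/
theorem fb_le34 (hΨ : ∀ ω x, |Ψ ω x| ≤ K0 * (I (x 2) (x 1) * rh z cc (f ω) (x 2) (x 0))) (ω : Env × Finset ℕ) :
    fb (wu μ s N (Pn N y) u ω) (pJ c d) kap o (Ψ ω) ≤ K0 * EL34 μ s u I c d z cc f c d (fun x v => |o (kap x) v|) ω := by
  unfold fb EL34
  rw [← ev_smul]
  refine ev_mono _ _ fun x => ?_
  have h1 : 0 ≤ cE (wu μ s N (Pn N y) u ω) (pJ c d) (fun v => |o (kap x) v|) (x 2) := cE_nonneg _ _ (fun v => abs_nonneg _) _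
  have h2 := mul_le_mul_of_nonneg_right (hΨ ω x) h1
  rw [mul_assoc] at h2
  exact h2

/-- `fc` is a mean of near lines. -/
theorem fc_le34 {J' : Finset ℕ} (hΨ : ∀ ω x, |Ψ ω x| ≤ K0 * (I (x 2) (x 1) * rh z cc (f ω) (x 2) (x 0))) (ω : Env × Finset ℕ) :
    fc (wu μ s N (Pn N y) u ω) (pJ c d) J' (pJ 0) kap o (Ψ ω) ≤
      K0 * ((J'.card : ℝ)⁻¹ * ∑ m ∈ J', EL34 μ s u I c d z cc f 0 m (fun x v => |o (kap x) v|) ω) := by
  have e1 : (J'.card : ℝ)⁻¹ * ∑ m ∈ J', EL34 μ s u I c d z cc f 0 m (fun x v => |o (kap x) v|) ω =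
      ev (P3 (pJ c d)) (wu μ s N (Pn N y) u ω) fun x => Ob34 I z cc (f ω) x *
        Cq (wu μ s N (Pn N y) u ω) J' (pJ 0) (fun v => |o (kap x) v|) (x 2) := by
    unfold EL34
    rw [← I52.ev_sum, ← ev_smul]
    refine ev_congr _ _ fun x => ?_
    unfold Cq
    rw [Finset.mul_sum, Finset.mul_sum, Finset.mul_sum]
    exact Finset.sum_congr rfl fun m _ => by ring
  rw [e1]
  unfold fc
  rw [← ev_smul]
  refine ev_mono _ _ fun x => ?_
  have h1 : 0 ≤ Cq (wu μ s N (Pn N y) u ω) J' (pJ 0) (fun v => |o (kap x) v|) (x 2) := MicL14.Cq_nonneg (fun v => abs_nonneg _) _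
  have h2 := mul_le_mul_of_nonneg_right (hΨ ω x) h1
  rw [mul_assoc] at h2
  exact h2

/-- `fa` is a steep path. -/
theorem fa_le34 (hcd : c ≤ d) (hd : d ≤ N) (I0 : ∀ S S', 0 ≤ I S S') (I1 : ∀ S S', I S S' ≤ 1) (hf : Sf d0 F f) (hK : 0 ≤ K0)
    (hΨ : ∀ ω x, |Ψ ω x| ≤ K0 * (I (x 2) (x 1) * rh z cc (f ω) (x 2) (x 0))) {n : Px (Pn N y) → ℝ}
    (ho : ∀ x : Fin 3 → Px (Pn N y), |o (kap x) (x 2)| ≤ n (x 2) ∧ |o (kap x) (x 1)| ≤ n (x 1)) (ω : Env × Finset ℕ) :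
    fa (wu μ s N (Pn N y) u ω) (pJ c d) kap o (Ψ ω) ≤ K0 * (2 * F) * (2 * gm (wu μ s N (Pn N y) u ω) n) := by
  have hP := bp_P3 (N := N) (y := y) hcd hd
  unfold fa
  have h1 : ∀ x : Fin 3 → Px (Pn N y), |Ψ ω x| * (|o (kap x) (x 2)| + |o (kap x) (x 1)|) ≤ K0 * (2 * F) * (n (x 2) + n (x 1)) := fun x => by
    have h2 := (hΨ ω x).trans (mul_le_mul_of_nonneg_left (Ob_le I1 (hf.bdd ω) x) hK)
    have h3 := ho x
    have h4 : 0 ≤ K0 * (2 * F) := (abs_nonneg _).trans h2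
    exact mul_le_mul h2 (add_le_add h3.1 h3.2) (by positivity) h4
  refine (ev_mono _ _ h1).trans (le_of_eq ?_)
  rw [ev_smul, ev_add, hP.ev 2 _ n, hP.ev 1 _ n]
  ring

/-! ### The macro functional -/

open Classical in
/-- Out of the tubes of the key, if the own pair has the same outside. -/
def oK34 (c d : ℕ) (kap : (Fin 3 → Px (Pn N y)) → T) (o : T → Px (Pn N y) → ℝ) (x : Fin 3 → Px (Pn N y)) (v : Px (Pn N y)) : ℝ :=
  if pJ c d (x 1) = pJ c d (x 2) then o (kap x) v else 0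

/-- **The macro functional of the key is `FO`.** -/
theorem FOk_eq34 (w : Px (Pn N y) → ℝ) (Ψ : (Fin 3 → Px (Pn N y)) → ℝ) (a : ℝ) :
    FOk w (pJ c d) kap o Ψ a = FO w (pJ c d) (fun S => S) (oK34 c d kap o) Ψ a := by
  classical
  unfold FOk FO
  have e1 : ∀ x : Fin 3 → Px (Pn N y), wt (P3 (pJ c d)) w x ≠ 0 → oK34 c d kap o (fun i => x i) = o (kap x) := fun x hx => by
    funext v
    unfold oK34
    exact if_pos (p_eq hx)
  have e2 : ∀ x : Fin 3 → Px (Pn N y), wt (P3 (pJ c d)) w x ≠ 0 → |Ψ x| * (∑ i, o (kap x) (x i) + a * (2 * gm w (o (kap x)) +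
      cE w (pJ c d) (o (kap x)) (x 2))) = |Ψ x| * (∑ i, oK34 c d kap o (fun i => x i) (x i) +
      a * (2 * gm w (oK34 c d kap o fun i => x i) + cE w (pJ c d) (oK34 c d kap o fun i => x i) (x 2))) := fun x hx => by
    rw [e1 x hx]
  exact le_antisymm (ev_mono' _ _ fun x hx => (e2 x hx).le) (ev_mono' _ _ fun x hx => (e2 x hx).ge)

/-- **The tubes of the macro key**: boxes of `x 2`, `x 0` at a row behind the block. -/
theorem tubeK34 {R : ℝ} {k0 nn : ℕ} {J : Finset ℕ} (hk : d ≤ k0) (o0 : ∀ β S, 0 ≤ o β S)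
    (ou : ∀ (x : Fin 3 → Px (Pn N y)) v, o (kap x) v ≤
      i1 (OutB pm (sl μ s) R (k0 : ℤ) (JZ J) (![bx pm R (k0 : ℤ) nn (x 2), bx pm R (k0 : ℤ) nn (x 0)]) v)) :
    Tube34 μ s R k0 nn J (fun S : Px (Pn N y) => S) (bx pm R (k0 : ℤ) nn) (oK34 c d kap o) where
  bx S := rfl
  o0 x v := by
    unfold oK34
    split_ifs
    · exact o0 _ _
    · exact le_rfl
  ou x v := by
    unfold oK34
    split_ifs with hp
    · refine (ou x v).trans (i1_le (i1_nonneg _) fun ho => ?_)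
      have h1 : bx pm R (k0 : ℤ) nn (x 1) = bx pm R (k0 : ℤ) nn (x 2) := by
        unfold bx
        rw [Fin.mk.injEq, pm_nat, pm_nat, ps_of_ge hp hk]
      have h2 : OutB pm (sl μ s) R (k0 : ℤ) (JZ J) (fun m => bx pm R (k0 : ℤ) nn (x m)) v := by
        obtain ⟨r, hr, h3⟩ := ho
        refine ⟨r, hr, fun m => ?_⟩
        fin_cases m
        · exact h3 1
        · show 3 * R < T73.dl _ _ (R * ((bx pm R (k0 : ℤ) nn (x 1) : ℕ) : ℝ)) _
          rw [h1]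
          exact h3 0
        · exact h3 0
      exact (if_pos h2).ge
    · exact i1_nonneg _

end Fun

/-! ### The boxes of the key of part L -/

section Key

variable {e r1 r3 : ℕ} {R1 R3 : ℝ}

theorem fst_kapL34 (x : Fin 3 → Px (Pn N y)) :
    (kapL N R1 R3 r1 r3 e x).1 = ![bx pm R1 (r1 : ℤ) N (x 2), bx pm R1 (r1 : ℤ) N (x 1)] := by
  funext i
  fin_cases i <;> rfl

theorem snd_kapL34 (x : Fin 3 → Px (Pn N y)) :
    (kapL N R1 R3 r1 r3 e x).2.2 = ![bx pm R3 (r3 : ℤ) N (x 2), bx pm R3 (r3 : ℤ) N (x 0)] := by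
  funext i
  fin_cases i <;> rfl

/-- The function of helper65 is the indicator. -/
theorem oB_i1_34 {T : Type*} {ι : Type*} {σ R : ℝ} {m0 : ℤ} {J : Finset ℕ} {n : ℕ} {bxs : T → ι → Fin (n + 1)} (β : T)
    (S : Px (Pn N y)) : oB σ R m0 J bxs β S = i1 (OutB pm σ R m0 (JZ J) (bxs β) S) := by
  unfold oB i1
  rfl

end Key

end

end Pool.Agent.W_7d29a1_C0.E2F34
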