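import Pool.Agent.W_7d29a1_C0.E2S39C

/-!
STORM C0, leaf E2 (helper39): THE NUMBERS OF THE TERMS OF E2 in the prices of `E2S39B`, `E2S39C` (`phO`, `phM`, `phL`, `phQ`): for every
term `al ^ 2 * ∑ (D < r), ph D ≤ n ^ (Θ - 2 x)`.

* own events, gain `(w_b / b) ^ 2` (two box steps) or `w_r / r` (one step of scale `r`); rows of one block keep one own event;
* own event and micro tie; own event and long tie; `T0Q`: no gain.

`A` = the factor of one price (`L ^ ε'` and the comparison of the scales), at most `n ^ e₀`.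
-/

set_option autoImplicit false
set_option linter.unusedSectionVars false
set_option linter.unusedVariables false

namespace Pool.Agent.W_7d29a1_C0.E2S39

open Finset Filter Topology MeasureTheory
open Pool.Agent.W_7d29a1_C0 Pool.Agent.W_7d29a1_H Pool.Agent.W_7d29a1_HZ
open Pool.Agent.W_7d29a1_C0.GS4 (Phi sum_Phi_le)
open Pool.Agent.W_7d29a1_C0.E2N39

noncomputable section

variable {E w : ℕ → ℝ} {c₀ Θ δ a ε n c : ℝ} {b s r : ℕ}

/-! ### Monomials -/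

/-- `(w_b / b) ^ 2 s / (E_r E_b)`. -/
theorem q1 (R : Reg46 E w c₀ Θ δ a ε n) (h : Bs46 E δ c n b s r) :
    (w b / b) ^ 2 * (s * (1 / (E r * E b))) ≤ n ^ (Θ + 4 * ε - c) := by
  have hb' := h.hb.pos R.N1
  have hs' := h.hs.pos R.N1
  have hE := R.Epos r
  have hE' := R.Epos b
  have hw := R.w0 b (h.hb.npos R.N1)
  refine le_pow46 R.N1 (by positivity) ?_
  simp (disch := positivity) only [Real.logb_mul, Real.logb_div, Real.logb_pow, Real.logb_one, Nat.cast_ofNat]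
  linarith [R.lw h.hb, R.lst' h.hb, mul_pos R.c₀0 R.δ0, R.lkap' h.hs, h.ls2 R, h.lup R, R.lE0 r, h.c0, R.ε0]

/-- `(w_r / r) s / (E_r E_b)`. -/
theorem q2 (R : Reg46 E w c₀ Θ δ a ε n) (h : Bs46 E δ c n b s r) :
    (w r / r) * (s * (1 / (E r * E b))) ≤ n ^ (Θ + 4 * ε - c) := by
  have hr' := h.hr.pos R.N1
  have hs' := h.hs.pos R.N1
  have hE := R.Epos r
  have hE' := R.Epos b
  have hw := R.w0 r (h.hr.npos R.N1)
  refine le_pow46 R.N1 (by positivity) ?_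
  simp (disch := positivity) only [Real.logb_mul, Real.logb_div, Real.logb_one]
  linarith [R.lw h.hr, R.lst' h.hr, mul_pos R.c₀0 R.δ0, R.lkap' h.hs, h.ls2 R, h.lup R, (h.l8 R).2, h.c0, R.ε0]

/-- `s / (E_r E_b ^ 3)`. -/
theorem q3 (R : Reg46 E w c₀ Θ δ a ε n) (h : Bs46 E δ c n b s r) :
    (s : ℝ) * (1 / (E r * E b ^ 3)) ≤ n ^ (Θ + 4 * ε - c) := by
  have hs' := h.hs.pos R.N1
  have hE := R.Epos r
  have hE' := R.Epos b
  refine le_pow46 R.N1 (by positivity) ?_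
  simp (disch := positivity) only [Real.logb_mul, Real.logb_div, Real.logb_pow, Real.logb_one, Nat.cast_ofNat]
  linarith [R.lkap' h.hs, h.ls2 R, h.lup R, R.lE0 r, h.c0, R.ε0]

/-- `s / (E_r ^ 2 E_b)`. -/
theorem q4 (R : Reg46 E w c₀ Θ δ a ε n) (h : Bs46 E δ c n b s r) :
    (s : ℝ) * (1 / (E r ^ 2 * E b)) ≤ n ^ (Θ + 4 * ε - c) := by
  have hs' := h.hs.pos R.N1
  have hE := R.Epos r
  have hE' := R.Epos b
  refine le_pow46 R.N1 (by positivity) ?_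
  simp (disch := positivity) only [Real.logb_mul, Real.logb_div, Real.logb_pow, Real.logb_one, Nat.cast_ofNat]
  linarith [R.lkap' h.hs, h.ls2 R, h.lup R, (h.l8 R).2, h.c0, R.ε0]

/-- `(w_r / r) r / (E_r E_b ^ 2)`. -/
theorem q5 (R : Reg46 E w c₀ Θ δ a ε n) (h : Bs46 E δ c n b s r) :
    (w r / r) * (r * (1 / (E r * E b ^ 2))) ≤ n ^ (Θ + 4 * ε - c) := by
  have hr' := h.hr.pos R.N1
  have hE := R.Epos r
  have hE' := R.Epos b
  have hw := R.w0 r (h.hr.npos R.N1)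
  refine le_pow46 R.N1 (by positivity) ?_
  simp (disch := positivity) only [Real.logb_mul, Real.logb_div, Real.logb_pow, Real.logb_one, Nat.cast_ofNat]
  linarith [R.lw h.hr, h.lpin R, R.Θ0, R.ε0]

/-- `(w_b / b) ^ 2 r / (E_r E_b ^ 2)`. -/
theorem q6 (R : Reg46 E w c₀ Θ δ a ε n) (h : Bs46 E δ c n b s r) :
    (w b / b) ^ 2 * (r * (1 / (E r * E b ^ 2))) ≤ n ^ (Θ + 4 * ε - c) := by
  have hb' := h.hb.pos R.N1
  have hr' := h.hr.pos R.N1
  have hE := R.Epos r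
  have hE' := R.Epos b
  have hw := R.w0 b (h.hb.npos R.N1)
  refine le_pow46 R.N1 (by positivity) ?_
  simp (disch := positivity) only [Real.logb_mul, Real.logb_div, Real.logb_pow, Real.logb_one, Nat.cast_ofNat]
  linarith [R.lw h.hb, R.lst' h.hb, mul_pos R.c₀0 R.δ0, R.lkap' h.hr, h.lpin R, h.c0, R.ε0]

/-- `r / (E_r ^ 2 E_b ^ 2)`. -/
theorem q7 (R : Reg46 E w c₀ Θ δ a ε n) (h : Bs46 E δ c n b s r) :
    (r : ℝ) * (1 / (E r ^ 2 * E b ^ 2)) ≤ n ^ (Θ + 4 * ε - c) := by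
  have hr' := h.hr.pos R.N1
  have hE := R.Epos r
  have hE' := R.Epos b
  refine le_pow46 R.N1 (by positivity) ?_
  simp (disch := positivity) only [Real.logb_mul, Real.logb_div, Real.logb_pow, Real.logb_one, Nat.cast_ofNat]
  linarith [R.lkap' h.hr, h.lpin R, R.ε0]

/-- `r / (E_r E_b ^ 4)`. -/
theorem q8 (R : Reg46 E w c₀ Θ δ a ε n) (h : Bs46 E δ c n b s r) :
    (r : ℝ) * (1 / (E r * E b ^ 4)) ≤ n ^ (Θ + 4 * ε - c) :=
  (r4 R h).trans (Real.rpow_le_rpow_of_exponent_le R.N1.le (by linarith [R.ε0, h.c0]))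

/-! ### Sums -/

/-- The sum of two steps and a constant. -/
theorem sum_steps {α β γ e : ℝ} (hα : 0 ≤ α) (hβ : 0 ≤ β) (he : 0 ≤ e) (hh s' r : ℕ) {φ : ℕ → ℝ}
    (hφ : ∀ D, φ D ≤ ((if D < hh then α else 0) + (if D < s' then β else 0) + γ) + e) :
    ∑ D ∈ range r, φ D ≤ hh * α + s' * β + r * γ + r * e := by
  have key : ∀ (m : ℕ) (x : ℝ), 0 ≤ x → ∑ D ∈ range r, (if D < m then x else 0) ≤ m * x := fun m x hx => by
    rw [← sum_filter, sum_const, nsmul_eq_mul]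
    refine mul_le_mul_of_nonneg_right ?_ hx
    have h1 : (range r).filter (fun D => D < m) ⊆ range m := fun D hD => mem_range.2 (mem_filter.1 hD).2
    have h2 := card_le_card h1
    rw [card_range] at h2
    exact_mod_cast h2
  calc ∑ D ∈ range r, φ D ≤ ∑ D ∈ range r, (((if D < hh then α else 0) + (if D < s' then β else 0) + γ) + e) := sum_le_sum fun D _ => hφ D
    _ = ∑ D ∈ range r, (if D < hh then α else 0) + ∑ D ∈ range r, (if D < s' then β else 0) + r * γ + r * e := by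
        rw [sum_add_distrib, sum_add_distrib, sum_add_distrib, sum_const, sum_const, card_range, nsmul_eq_mul, nsmul_eq_mul]
    _ ≤ _ := by linarith [key hh α hα, key s' β hβ]

section Nm

variable {μ : Measure ℝ} {sl : ℝ} {L : ℕ} {ε' e A al e₀ z : ℝ} {lout lo lm lg gl hh s' : ℕ}

/-- The prices of the places: `lout` and `lg` of scale `r`, `lo` and `lm` of scale `b`. -/
structure Sc39 (μ : Measure ℝ) (sl : ℝ) (L : ℕ) (ε' : ℝ) (E : ℕ → ℝ) (A : ℝ) (lout lo lm lg b r : ℕ) : Prop where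
  A1 : 1 ≤ A
  po : (L : ℝ) ^ ε' * (EE' μ sl lout)⁻¹ ≤ A / E r
  pl : (L : ℝ) ^ ε' * (EE' μ sl lo)⁻¹ ≤ A / E b
  pm : (L : ℝ) ^ ε' * (EE' μ sl lm)⁻¹ ≤ A / E b
  pg : (L : ℝ) ^ ε' * (EE' μ sl lg)⁻¹ ≤ A / E r

theorem P0 (μ : Measure ℝ) (sl : ℝ) (L : ℕ) (ε' : ℝ) (l : ℕ) : 0 ≤ (L : ℝ) ^ ε' * (EE' μ sl l)⁻¹ :=
  mul_nonneg (Real.rpow_nonneg (Nat.cast_nonneg _) _) (inv_nonneg.2 (zero_le_one.trans (le_max_left _ _)))

/-- The prices of the lists. -/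
theorem Sc39.lists (H : Sc39 μ sl L ε' E A lout lo lm lg b r) (hE : ∀ k, 0 < E k) :
    lpr μ sl L ε' lout [lo] ≤ A ^ 5 * (1 / (E r * E b)) ∧ lpr μ sl L ε' lout [lo, lo] ≤ A ^ 5 * (1 / (E r * E b ^ 2)) ∧
    lpr μ sl L ε' lout [lo, lm, lm] ≤ A ^ 5 * (1 / (E r * E b ^ 3)) ∧
    lpr μ sl L ε' lout [lo, lm, lo, lm] ≤ A ^ 5 * (1 / (E r * E b ^ 4)) ∧
    lpr μ sl L ε' lout [lg, lo] ≤ A ^ 5 * (1 / (E r ^ 2 * E b)) ∧
    lpr μ sl L ε' lout [lg, lo, lo] ≤ A ^ 5 * (1 / (E r ^ 2 * E b ^ 2)) := by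
  have hA := H.A1
  have hA0 : 0 ≤ A := by linarith
  have h1 := hE r
  have h2 := hE b
  have g0 := P0 μ sl L ε' lout
  have g1 := P0 μ sl L ε' lo
  have g2 := P0 μ sl L ε' lm
  have g3 := P0 μ sl L ε' lg
  have a1 : 0 ≤ A / E r := by positivity
  have a2 : 0 ≤ A / E b := by positivity
  have p2 : A ^ 2 ≤ A ^ 5 := pow_le_pow_right₀ hA (by norm_num)
  have p3 : A ^ 3 ≤ A ^ 5 := pow_le_pow_right₀ hA (by norm_num)
  have p4 : A ^ 4 ≤ A ^ 5 := pow_le_pow_right₀ hA (by norm_num)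
  unfold lpr
  simp only [List.map_cons, List.map_nil, List.prod_cons, List.prod_nil, mul_one]
  refine ⟨?_, ?_, ?_, ?_, ?_, ?_⟩
  · calc _ ≤ (A / E r) * (A / E b) := mul_le_mul H.po H.pl g1 a1
      _ = A ^ 2 * (1 / (E r * E b)) := by field_simp
      _ ≤ _ := by gcongr
  · calc _ ≤ (A / E r) * ((A / E b) * (A / E b)) :=
          mul_le_mul H.po (mul_le_mul H.pl H.pl g1 a2) (mul_nonneg g1 g1) a1
      _ = A ^ 3 * (1 / (E r * E b ^ 2)) := by field_simp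
      _ ≤ _ := by gcongr
  · calc _ ≤ (A / E r) * ((A / E b) * ((A / E b) * (A / E b))) :=
          mul_le_mul H.po (mul_le_mul H.pl (mul_le_mul H.pm H.pm g2 a2) (mul_nonneg g2 g2) a2) (by positivity) a1
      _ = A ^ 4 * (1 / (E r * E b ^ 3)) := by field_simp
      _ ≤ _ := by gcongr
  · calc _ ≤ (A / E r) * ((A / E b) * ((A / E b) * ((A / E b) * (A / E b)))) :=
          mul_le_mul H.po (mul_le_mul H.pl (mul_le_mul H.pm (mul_le_mul H.pl H.pm g2 a2) (mul_nonneg g1 g2) a2) (by positivity) a2)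
            (by positivity) a1
      _ = A ^ 5 * (1 / (E r * E b ^ 4)) := by field_simp
  · calc _ ≤ (A / E r) * ((A / E r) * (A / E b)) :=
          mul_le_mul H.po (mul_le_mul H.pg H.pl g1 a1) (mul_nonneg g3 g1) a1
      _ = A ^ 3 * (1 / (E r ^ 2 * E b)) := by field_simp
      _ ≤ _ := by gcongr
  · calc _ ≤ (A / E r) * ((A / E r) * ((A / E b) * (A / E b))) :=
          mul_le_mul H.po (mul_le_mul H.pg (mul_le_mul H.pl H.pl g1 a2) (mul_nonneg g1 g1) a1) (by positivity) a1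
      _ = A ^ 4 * (1 / (E r ^ 2 * E b ^ 2)) := by field_simp
      _ ≤ _ := by gcongr

/-- The combination of the monomials. -/
theorem comb39 (R : Reg46 E w c₀ Θ δ a ε n) {φ : ℕ → ℝ} {α₀ β₀ γ₀ e' y : ℝ} (hsum : ∑ D ∈ range r, φ D ≤
      hh * (A ^ 5 * α₀) + s' * (A ^ 5 * β₀) + r * (A ^ 5 * γ₀) + r * e') (hA1 : 1 ≤ A) (hA : A ≤ n ^ e₀)
    (m1 : al ^ 2 * (hh * α₀) ≤ n ^ y) (m2 : al ^ 2 * (s' * β₀) ≤ n ^ y) (m3 : al ^ 2 * (r * γ₀) ≤ n ^ y)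
    (he : al ^ 2 * (r * e') ≤ 1) (hy : 0 ≤ y) : al ^ 2 * ∑ D ∈ range r, φ D ≤ n ^ (y + 5 * e₀ + ε) := by
  have hN := R.N0
  have h1 : A ^ 5 ≤ n ^ (5 * e₀) := by
    calc A ^ 5 ≤ (n ^ e₀) ^ 5 := pow_le_pow_left₀ (by linarith) hA 5
      _ = n ^ (5 * e₀) := by
          rw [← Real.rpow_natCast, ← Real.rpow_mul hN.le]
          congr 1
          push_cast
          ring
  have h2 : 0 < n ^ y := Real.rpow_pos_of_pos hN _
  have h3 : 1 ≤ n ^ y := Real.one_le_rpow R.N1.le hy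
  have h4 : 1 ≤ A ^ 5 := one_le_pow₀ hA1
  have h5 : (4 : ℝ) ≤ n ^ ε := by linarith [R.K]
  calc al ^ 2 * ∑ D ∈ range r, φ D ≤ al ^ 2 * (hh * (A ^ 5 * α₀) + s' * (A ^ 5 * β₀) + r * (A ^ 5 * γ₀) + r * e') :=
        mul_le_mul_of_nonneg_left hsum (sq_nonneg _)
    _ = A ^ 5 * (al ^ 2 * (hh * α₀) + al ^ 2 * (s' * β₀) + al ^ 2 * (r * γ₀)) + al ^ 2 * (r * e') := by ring
    _ ≤ A ^ 5 * (n ^ y + n ^ y + n ^ y) + 1 := by
        refine add_le_add (mul_le_mul_of_nonneg_left ?_ (by linarith)) he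
        linarith
    _ ≤ A ^ 5 * (4 * n ^ y) := by nlinarith
    _ ≤ n ^ (5 * e₀) * (n ^ ε * n ^ y) := by gcongr
    _ = n ^ (y + 5 * e₀ + ε) := by
        rw [← Real.rpow_add hN, ← Real.rpow_add hN]
        congr 1
        ring

/-- The exponents: `e₀` all small losses, `x` the gain. -/
structure Ex39 (Θ c ε e₀ x : ℝ) : Prop where
  e0 : 0 ≤ e₀
  x0 : 0 ≤ x
  q1 : 2 * x + 5 * ε + 9 * e₀ ≤ c
  q2 : 2 * x + 3 * ε + 9 * e₀ + 9 / 8 * c ≤ Θ / 4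

/-- A bound with the losses `n ^ e₀`. -/
theorem loss39 (R : Reg46 E w c₀ Θ δ a ε n) {G α₀ y k k₀ : ℝ} (hG : 0 ≤ G) (hα : 0 ≤ α₀) (hk : 0 ≤ k) (hal : al ^ 2 ≤ n ^ e₀ * G)
    (hkk : k ≤ n ^ e₀ * k₀) (h : G * (k₀ * α₀) ≤ n ^ y) : al ^ 2 * (k * α₀) ≤ n ^ (y + 2 * e₀) := by
  have hN := R.N0
  have h1 : 0 < n ^ e₀ := Real.rpow_pos_of_pos hN _
  calc al ^ 2 * (k * α₀) ≤ (n ^ e₀ * G) * ((n ^ e₀ * k₀) * α₀) :=
        mul_le_mul hal (mul_le_mul_of_nonneg_right hkk hα) (mul_nonneg hk hα) (by positivity)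
    _ = (n ^ e₀ * n ^ e₀) * (G * (k₀ * α₀)) := by ring
    _ ≤ (n ^ e₀ * n ^ e₀) * n ^ y := mul_le_mul_of_nonneg_left h (by positivity)
    _ = _ := by
        rw [← Real.rpow_add hN, ← Real.rpow_add hN]
        congr 1
        ring

variable {x : ℝ}

/-- **OWN EVENTS ONLY**, the gain `G` = `(w_b / b) ^ 2` or `w_r / r`; `hh` = the length of the blocks. -/
theorem numO39 (R : Reg46 E w c₀ Θ δ a ε n) (h : Bs46 E δ c n b s r) (H : Sc39 μ sl L ε' E A lout lo lm lg b r) (X : Ex39 Θ c ε e₀ x)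
    (hA : A ≤ n ^ e₀) {G : ℝ} (hG : G = (w b / b) ^ 2 ∨ G = w r / r) (hal : al ^ 2 ≤ n ^ e₀ * G) (hh1 : (hh : ℝ) ≤ n ^ e₀ * s)
    (he0 : 0 ≤ e) (he : al ^ 2 * (r * (2 * e)) ≤ 1) :
    al ^ 2 * ∑ D ∈ range r, phO μ sl L ε' e lout lo hh D ≤ n ^ (Θ - 2 * x) := by
  obtain ⟨p1, p2, -, -, -, -⟩ := H.lists R.Epos
  have hE := R.Epos r
  have hE' := R.Epos b
  have hA0 : 0 ≤ A := zero_le_one.trans H.A1
  have hb' := h.hb.pos R.N1
  have hr' := h.hr.pos R.N1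
  have hw := R.w0 b (h.hb.npos R.N1)
  have hw' := R.w0 r (h.hr.npos R.N1)
  have hG0 : 0 ≤ G := by rcases hG with rfl | rfl <;> positivity
  have hε := R.ε0
  have X1 := X.q1
  have X2 := X.q2
  have X3 := X.e0
  have X4 := X.x0
  have g1 : G * (s * (1 / (E r * E b))) ≤ n ^ (Θ + 4 * ε - c) := by
    rcases hG with rfl | rfl
    exacts [q1 R h, q2 R h]
  have g2 : G * (r * (1 / (E r * E b ^ 2))) ≤ n ^ (Θ + 4 * ε - c) := by
    rcases hG with rfl | rfl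
    exacts [q6 R h, q5 R h]
  have m1 := loss39 R hG0 (show 0 ≤ 1 / (E r * E b) by positivity) (Nat.cast_nonneg hh) hal hh1 g1
  have one_e : (1 : ℝ) ≤ n ^ e₀ := Real.one_le_rpow R.N1.le X3
  have m2 := loss39 R hG0 (show 0 ≤ 1 / (E r * E b ^ 2) by positivity) (Nat.cast_nonneg r) hal
    (show (r : ℝ) ≤ n ^ e₀ * r by nlinarith) g2
  have hs := sum_steps (α := lpr μ sl L ε' lout [lo]) (β := 0) (γ := lpr μ sl L ε' lout [lo, lo]) (e := 2 * e)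
    (lpr_nonneg _ _) le_rfl (by linarith) hh 0 r (φ := phO μ sl L ε' e lout lo hh) (fun D => by
      unfold phO
      split_ifs <;> linarith)
  have hy : Θ + 4 * ε - c + 2 * e₀ ≤ Θ - 2 * x - 5 * e₀ - ε := by linarith
  have mono := fun {u : ℝ} (hu : u ≤ n ^ (Θ + 4 * ε - c + 2 * e₀)) => hu.trans (Real.rpow_le_rpow_of_exponent_le R.N1.le hy)
  have hfin := comb39 (al := al) (hh := hh) (s' := 0) (e' := 2 * e) (y := Θ - 2 * x - 5 * e₀ - ε) (α₀ := 1 / (E r * E b)) (β₀ := 0)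
    (γ₀ := 1 / (E r * E b ^ 2)) R (hs.trans ?_) H.A1 hA (mono m1) ?_ (mono m2) he (by linarith [R.Θ0, h.c0])
  · refine hfin.trans (le_of_eq ?_)
    congr 1
    ring
  · have t1 := mul_le_mul_of_nonneg_left p1 (Nat.cast_nonneg (α := ℝ) hh)
    have t2 := mul_le_mul_of_nonneg_left p2 (Nat.cast_nonneg (α := ℝ) r)
    simp only [mul_zero, add_zero]
    linarith
  · simp only [mul_zero]
    exact (Real.rpow_pos_of_pos R.N0 _).le

/-- The near rows: `b / (E_r E_b)`. -/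
theorem near39 (R : Reg46 E w c₀ Θ δ a ε n) (h : Bs46 E δ c n b s r) (X : Ex39 Θ c ε e₀ x) (hal : al ^ 2 ≤ n ^ e₀)
    (hh1 : (hh : ℝ) ≤ n ^ e₀ * b) : al ^ 2 * (hh * (1 / (E r * E b))) ≤ n ^ (Θ - 2 * x - 5 * e₀ - 2 * ε) := by
  have hE := R.Epos r
  have hE' := R.Epos b
  have X2 := X.q2
  have X3 := X.e0
  have hε := R.ε0
  have m1 := loss39 (al := al) R (G := 1) zero_le_one (show 0 ≤ 1 / (E r * E b) by positivity) (Nat.cast_nonneg hh) (by rw [mul_one]; exact hal) hh1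
    (by rw [one_mul]; exact r1 R h)
  exact m1.trans (Real.rpow_le_rpow_of_exponent_le R.N1.le (by linarith [R.Θ0]))

/-- The other rows. -/
theorem far39 (R : Reg46 E w c₀ Θ δ a ε n) (X : Ex39 Θ c ε e₀ x) (hal : al ^ 2 ≤ n ^ e₀) {k k₀ α₀ : ℝ} (hk : 0 ≤ k) (hα : 0 ≤ α₀)
    (hkk : k ≤ n ^ e₀ * k₀) (hq : k₀ * α₀ ≤ n ^ (Θ + 4 * ε - c)) : al ^ 2 * (k * α₀) ≤ n ^ (Θ - 2 * x - 5 * e₀ - ε) := by
  have X1 := X.q1
  have X3 := X.e0
  have m1 := loss39 (al := al) R (G := 1) zero_le_one hα hk (by rw [mul_one]; exact hal) hkk (by rw [one_mul]; exact hq)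
  exact m1.trans (Real.rpow_le_rpow_of_exponent_le R.N1.le (by linarith))

/-- **OWN EVENT AND MICRO TIE.** -/
theorem numM39 (R : Reg46 E w c₀ Θ δ a ε n) (h : Bs46 E δ c n b s r) (H : Sc39 μ sl L ε' E A lout lo lm lg b r) (X : Ex39 Θ c ε e₀ x)
    (hA : A ≤ n ^ e₀) (hal : al ^ 2 ≤ n ^ e₀) (hh1 : (hh : ℝ) ≤ n ^ e₀ * b) (hs1 : (s' : ℝ) ≤ n ^ e₀ * s)
    (he0 : 0 ≤ e) (he : al ^ 2 * (r * (3 * e)) ≤ 1) :
    al ^ 2 * ∑ D ∈ range r, phM μ sl L ε' e lout lo lm hh s' D ≤ n ^ (Θ - 2 * x) := by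
  obtain ⟨p1, -, p3, p4, -, -⟩ := H.lists R.Epos
  have hE := R.Epos r
  have hE' := R.Epos b
  have hε := R.ε0
  have X1 := X.q1
  have X2 := X.q2
  have X3 := X.e0
  have X4 := X.x0
  have one_e : (1 : ℝ) ≤ n ^ e₀ := Real.one_le_rpow R.N1.le X3
  have hr' := h.hr.pos R.N1
  have m1 := (near39 R h X hal hh1).trans (Real.rpow_le_rpow_of_exponent_le R.N1.le
    (show Θ - 2 * x - 5 * e₀ - 2 * ε ≤ Θ - 2 * x - 5 * e₀ - ε by linarith))
  have m2 := far39 R X hal (Nat.cast_nonneg s') (show 0 ≤ 1 / (E r * E b ^ 3) by positivity) hs1 (q3 R h)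
  have m3 := far39 R X hal (Nat.cast_nonneg r) (show 0 ≤ 1 / (E r * E b ^ 4) by positivity)
    (show (r : ℝ) ≤ n ^ e₀ * r by nlinarith) (q8 R h)
  have hs := sum_steps (α := lpr μ sl L ε' lout [lo]) (β := lpr μ sl L ε' lout [lo, lm, lm]) (γ := lpr μ sl L ε' lout [lo, lm, lo, lm])
    (e := 3 * e) (lpr_nonneg _ _) (lpr_nonneg _ _) (by linarith) hh s' r (φ := phM μ sl L ε' e lout lo lm hh s') (fun D => by
      unfold phM
      split_ifs <;> linarith)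
  have hfin := comb39 (al := al) (hh := hh) (s' := s') (e' := 3 * e) (y := Θ - 2 * x - 5 * e₀ - ε) (α₀ := 1 / (E r * E b))
    (β₀ := 1 / (E r * E b ^ 3)) (γ₀ := 1 / (E r * E b ^ 4)) R (hs.trans ?_) H.A1 hA m1 m2 m3 he (by linarith [R.Θ0, h.c0])
  · refine hfin.trans (le_of_eq ?_)
    congr 1
    ring
  · have t1 := mul_le_mul_of_nonneg_left p1 (Nat.cast_nonneg (α := ℝ) hh)
    have t2 := mul_le_mul_of_nonneg_left p3 (Nat.cast_nonneg (α := ℝ) s')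
    have t3 := mul_le_mul_of_nonneg_left p4 (Nat.cast_nonneg (α := ℝ) r)
    linarith

/-- **OWN EVENT AND LONG TIE.** -/
theorem numL39 (R : Reg46 E w c₀ Θ δ a ε n) (h : Bs46 E δ c n b s r) (H : Sc39 μ sl L ε' E A lout lo lm lg b r) (X : Ex39 Θ c ε e₀ x)
    (hA : A ≤ n ^ e₀) (hal : al ^ 2 ≤ n ^ e₀) (hh1 : (hh : ℝ) ≤ n ^ e₀ * b) (hs1 : (s' : ℝ) ≤ n ^ e₀ * s)
    (he0 : 0 ≤ e) (he : al ^ 2 * (r * (3 * e)) ≤ 1) :
    al ^ 2 * ∑ D ∈ range r, phL μ sl L ε' e lout lo lg hh s' D ≤ n ^ (Θ - 2 * x) := by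
  obtain ⟨p1, -, -, -, p5, p6⟩ := H.lists R.Epos
  have hE := R.Epos r
  have hE' := R.Epos b
  have hε := R.ε0
  have X1 := X.q1
  have X2 := X.q2
  have X3 := X.e0
  have X4 := X.x0
  have one_e : (1 : ℝ) ≤ n ^ e₀ := Real.one_le_rpow R.N1.le X3
  have hr' := h.hr.pos R.N1
  have m1 := (near39 R h X hal hh1).trans (Real.rpow_le_rpow_of_exponent_le R.N1.le
    (show Θ - 2 * x - 5 * e₀ - 2 * ε ≤ Θ - 2 * x - 5 * e₀ - ε by linarith))
  have m2 := far39 R X hal (Nat.cast_nonneg s') (show 0 ≤ 1 / (E r ^ 2 * E b) by positivity) hs1 (q4 R h)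
  have m3 := far39 R X hal (Nat.cast_nonneg r) (show 0 ≤ 1 / (E r ^ 2 * E b ^ 2) by positivity)
    (show (r : ℝ) ≤ n ^ e₀ * r by nlinarith) (q7 R h)
  have hs := sum_steps (α := lpr μ sl L ε' lout [lo]) (β := lpr μ sl L ε' lout [lg, lo]) (γ := lpr μ sl L ε' lout [lg, lo, lo])
    (e := 3 * e) (lpr_nonneg _ _) (lpr_nonneg _ _) (by linarith) hh s' r (φ := phL μ sl L ε' e lout lo lg hh s') (fun D => by
      unfold phL
      split_ifs <;> linarith)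
  have hfin := comb39 (al := al) (hh := hh) (s' := s') (e' := 3 * e) (y := Θ - 2 * x - 5 * e₀ - ε) (α₀ := 1 / (E r * E b))
    (β₀ := 1 / (E r ^ 2 * E b)) (γ₀ := 1 / (E r ^ 2 * E b ^ 2)) R (hs.trans ?_) H.A1 hA m1 m2 m3 he (by linarith [R.Θ0, h.c0])
  · refine hfin.trans (le_of_eq ?_)
    congr 1
    ring
  · have t1 := mul_le_mul_of_nonneg_left p1 (Nat.cast_nonneg (α := ℝ) hh)
    have t2 := mul_le_mul_of_nonneg_left p5 (Nat.cast_nonneg (α := ℝ) s')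
    have t3 := mul_le_mul_of_nonneg_left p6 (Nat.cast_nonneg (α := ℝ) r)
    linarith

end Nm

end

end Pool.Agent.W_7d29a1_C0.E2S39
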