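import Pool.Agent.W_7d29a1_C0.E2N39B

/-!
STORM C0, leaf E2 (helper39): THE NUMBERS OF `T0Q` in the price `phQ` of `E2S39C`: `al ^ 2 * ∑ (D < r), phQ D ≤ n ^ (Θ - 2 x)`.
-/

set_option autoImplicit false
set_option linter.unusedSectionVars false
set_option linter.unusedVariables false

namespace Pool.Agent.W_7d29a1_C0.E2S39

open Finset Filter Topology MeasureTheory
open Pool.Agent.W_7d29a1_C0 Pool.Agent.W_7d29a1_H Pool.Agent.W_7d29a1_HZ
open Pool.Agent.W_7d29a1_C0.GS4 (Phi sum_Phi_le)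
open Pool.Agent.W_7d29a1_C0.E2N39

noncomputable section

variable {E w : ℕ → ℝ} {c₀ Θ δ a ε n c : ℝ} {b s r : ℕ}

section Nm

variable {μ : Measure ℝ} {sl : ℝ} {L : ℕ} {ε' e A al e₀ z x : ℝ} {lout lo lm lg gl hh s' : ℕ}

/-- The sum of `1 / E_D` over the distances. -/
theorem sumE39 (R : Reg46 E w c₀ Θ δ a ε n) {H₀ : ℝ} (hH : 0 ≤ H₀) (hb : 1 ≤ b) (hbr : b ≤ r) :
    ∑ D ∈ range r, H₀ / E (max D b) ≤ 3 * n ^ ε * H₀ * (r / E r) := by
  have hp : 0 ≤ n ^ ε := (Real.rpow_pos_of_pos R.N0 _).le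
  have h1 := sum_Phi_le (E := E) (A := 0) (G := 0) (C := 0) (l := 0) (s' := b) R.Epos hp R.half le_rfl le_rfl hH hb le_rfl hbr
  simp only [mul_zero, zero_mul, zero_add, add_zero, Nat.cast_zero] at h1
  refine le_trans (le_of_eq (sum_congr rfl fun D _ => ?_)) h1
  unfold Phi
  simp

/-- **`T0Q`.** -/
theorem numQ39 (R : Reg46 E w c₀ Θ δ a ε n) (h : Bs46 E δ c n b s r) (H : Sc39 μ sl L ε' E A lout lo lm lg b r) (X : Ex39 Θ c ε e₀ x)
    (hA : A ≤ n ^ e₀) (hLA : (L : ℝ) ^ ε' ≤ A) (hal : al ^ 2 ≤ n ^ e₀) (hεe : 3 * ε ≤ e₀)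
    (pd : ∀ D : ℕ, 64 * b ≤ D → D < r → (L : ℝ) ^ ε' * (EE' μ sl (min (D / 64) gl))⁻¹ ≤ A / E D)
    (he0 : 0 ≤ e) (he : al ^ 2 * (r * (6 * e)) ≤ 1) :
    al ^ 2 * ∑ D ∈ range r, phQ μ sl L ε' e lout lo lm b gl D ≤ n ^ (Θ - 2 * x) := by
  obtain ⟨p1, -, -, p4, -, -⟩ := H.lists R.Epos
  have hE := R.Epos r
  have hE' := R.Epos b
  have hEb1 := R.E1 b
  have hε := R.ε0
  have X1 := X.q1
  have X2 := X.q2
  have X3 := X.e0
  have X4 := X.x0
  have hA1 := H.A1
  have hA0 : 0 ≤ A := by linarith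
  have one_e : (1 : ℝ) ≤ n ^ e₀ := Real.one_le_rpow R.N1.le X3
  have hr' := h.hr.pos R.N1
  have hb' := h.hb.pos R.N1
  have hN := R.N0
  have hpε : 0 < n ^ ε := Real.rpow_pos_of_pos hN _
  -- the price of the lists with one long place
  have g0 := P0 μ sl L ε' lout
  have g1 := P0 μ sl L ε' lo
  have g2 := P0 μ sl L ε' lm
  have a1 : 0 ≤ A / E r := by positivity
  have a2 : 0 ≤ A / E b := by positivity
  have p45 : A ^ 4 ≤ A ^ 5 := pow_le_pow_right₀ hA1 (by norm_num)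
  have long : ∀ (D : ℕ) (B : ℝ), 0 ≤ B → (L : ℝ) ^ ε' * (EE' μ sl (min (D / 64) gl))⁻¹ ≤ A * B →
      2 * lpr μ sl L ε' lout [min (D / 64) gl, lm, lm] + 2 * lpr μ sl L ε' lout [lo, min (D / 64) gl, lm] ≤
        4 * (A ^ 5 * (1 / (E r * E b ^ 2))) * B := fun D B hB hD => by
    have g3 := P0 μ sl L ε' (min (D / 64) gl)
    have aB : 0 ≤ A * B := mul_nonneg hA0 hB
    have t1 : lpr μ sl L ε' lout [min (D / 64) gl, lm, lm] ≤ (A / E r) * ((A * B) * ((A / E b) * (A / E b))) := by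
      unfold lpr
      simp only [List.map_cons, List.map_nil, List.prod_cons, List.prod_nil, mul_one]
      exact mul_le_mul H.po (mul_le_mul hD (mul_le_mul H.pm H.pm g2 a2) (mul_nonneg g2 g2) aB) (by positivity) a1
    have t2 : lpr μ sl L ε' lout [lo, min (D / 64) gl, lm] ≤ (A / E r) * ((A / E b) * ((A * B) * (A / E b))) := by
      unfold lpr
      simp only [List.map_cons, List.map_nil, List.prod_cons, List.prod_nil, mul_one]
      exact mul_le_mul H.po (mul_le_mul H.pl (mul_le_mul hD H.pm g2 aB) (mul_nonneg g3 g2) a2) (by positivity) a1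
    have t3 : (A / E r) * ((A * B) * ((A / E b) * (A / E b))) = A ^ 4 * (1 / (E r * E b ^ 2)) * B := by
      field_simp
    have t4 : (A / E r) * ((A / E b) * ((A * B) * (A / E b))) = A ^ 4 * (1 / (E r * E b ^ 2)) * B := by
      field_simp
    have t5 : A ^ 4 * (1 / (E r * E b ^ 2)) * B ≤ A ^ 5 * (1 / (E r * E b ^ 2)) * B := by gcongr
    linarith
  have hφ : ∀ D ∈ range r, phQ μ sl L ε' e lout lo lm b gl D ≤ ((if D < 64 * b then 5 * (A ^ 5 * (1 / (E r * E b))) else 0) +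
      (4 * (A ^ 5 * (1 / (E r * E b ^ 2)))) / E (max D b) + A ^ 5 * (1 / (E r * E b ^ 4))) + 6 * e := fun D hD => by
    have hD' := mem_range.1 hD
    have hEm := R.Epos (max D b)
    have z1 : 0 ≤ (4 * (A ^ 5 * (1 / (E r * E b ^ 2)))) / E (max D b) := by positivity
    unfold phQ tQ
    by_cases hDb : D < 64 * b
    · rw [if_pos hDb, if_pos hDb]
      have hP : (L : ℝ) ^ ε' * (EE' μ sl (min (D / 64) gl))⁻¹ ≤ A * 1 := by
        have h1 : (EE' μ sl (min (D / 64) gl))⁻¹ ≤ 1 := inv_le_one_of_one_le₀ (le_max_left _ _)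
        calc _ ≤ (L : ℝ) ^ ε' * 1 := mul_le_mul_of_nonneg_left h1 (Real.rpow_nonneg (Nat.cast_nonneg _) _)
          _ ≤ A * 1 := by linarith
      have t1 := long D 1 zero_le_one hP
      have t2 : A ^ 5 * (1 / (E r * E b ^ 2)) ≤ A ^ 5 * (1 / (E r * E b)) := by
        have : E r * E b ≤ E r * E b ^ 2 := mul_le_mul_of_nonneg_left (le_self_pow₀ hEb1 (by norm_num)) hE.le
        have h3 : 1 / (E r * E b ^ 2) ≤ 1 / (E r * E b) := one_div_le_one_div_of_le (by positivity) this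
        exact mul_le_mul_of_nonneg_left h3 (by positivity)
      linarith
    · rw [if_neg hDb, if_neg hDb]
      have hmx : max D b = D := max_eq_left (by omega)
      rw [hmx]
      have hED := R.Epos D
      have t1 := long D (1 / E D) (by positivity) ((pd D (by omega) hD').trans (le_of_eq (by ring)))
      have t2 : 4 * (A ^ 5 * (1 / (E r * E b ^ 2))) * (1 / E D) = (4 * (A ^ 5 * (1 / (E r * E b ^ 2)))) / E D := by ring
      linarith
  have hs : ∑ D ∈ range r, phQ μ sl L ε' e lout lo lm b gl D ≤ ((320 * b : ℕ) : ℝ) * (A ^ 5 * (1 / (E r * E b))) +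
      r * (A ^ 5 * (12 * n ^ ε * (1 / (E r ^ 2 * E b ^ 2)))) + r * (A ^ 5 * (1 / (E r * E b ^ 4))) + r * (6 * e) := by
    refine (sum_le_sum hφ).trans ?_
    rw [sum_add_distrib, sum_add_distrib, sum_add_distrib, sum_const, sum_const, card_range, nsmul_eq_mul, nsmul_eq_mul]
    have s1 := sum_steps (α := 5 * (A ^ 5 * (1 / (E r * E b)))) (β := 0) (γ := 0) (e := 0) (by positivity) le_rfl le_rfl (64 * b) 0 r
      (φ := fun D => if D < 64 * b then 5 * (A ^ 5 * (1 / (E r * E b))) else 0) (fun D => by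
        show (if D < 64 * b then 5 * (A ^ 5 * (1 / (E r * E b))) else 0) ≤ _
        split_ifs <;> simp)
    have s2 := sumE39 R (H₀ := 4 * (A ^ 5 * (1 / (E r * E b ^ 2)))) (by positivity) (h.hb.npos R.N1) (h.bs.trans h.sr)
    have e2 : 3 * n ^ ε * (4 * (A ^ 5 * (1 / (E r * E b ^ 2)))) * (r / E r) =
        r * (A ^ 5 * (12 * n ^ ε * (1 / (E r ^ 2 * E b ^ 2)))) := by
      field_simp
      ring
    push_cast at s1 ⊢
    linarith
  have m1 := (near39 (hh := 320 * b) R h X hal (by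
    have h1 : (320 : ℝ) ≤ n ^ e₀ := by
      have h2 : n ^ (3 * ε) ≤ n ^ e₀ := Real.rpow_le_rpow_of_exponent_le R.N1.le hεe
      have h3 : n ^ (3 * ε) = (n ^ ε) ^ 3 := by
        rw [← Real.rpow_natCast, ← Real.rpow_mul hN.le]
        congr 1
        push_cast
        ring
      have h4 : (16 : ℝ) ^ 3 ≤ (n ^ ε) ^ 3 := pow_le_pow_left₀ (by norm_num) R.K 3
      linarith
    push_cast
    exact mul_le_mul_of_nonneg_right h1 hb'.le)).trans (Real.rpow_le_rpow_of_exponent_le R.N1.le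
    (show Θ - 2 * x - 5 * e₀ - 2 * ε ≤ Θ - 2 * x - 5 * e₀ - ε by linarith))
  have m2 := far39 (k := r) (k₀ := r) (α₀ := 12 * n ^ ε * (1 / (E r ^ 2 * E b ^ 2))) R X hal (Nat.cast_nonneg r) (by positivity)
    (show (r : ℝ) ≤ n ^ e₀ * r by nlinarith) (by
      have h1 : (r : ℝ) * (1 / (E r ^ 2 * E b ^ 2)) ≤ n ^ (Θ + ε - c) := by
        refine le_trans (le_of_eq ?_) (r3 R h)
        field_simp
      have h2 : (12 : ℝ) ≤ n ^ ε := by linarith [R.K]
      calc (r : ℝ) * (12 * n ^ ε * (1 / (E r ^ 2 * E b ^ 2))) = (12 * n ^ ε) * (r * (1 / (E r ^ 2 * E b ^ 2))) := by ring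
        _ ≤ (n ^ ε * n ^ ε) * n ^ (Θ + ε - c) := by gcongr
        _ = n ^ (Θ + 3 * ε - c) := by
            rw [← Real.rpow_add hN, ← Real.rpow_add hN]
            congr 1
            ring
        _ ≤ _ := Real.rpow_le_rpow_of_exponent_le R.N1.le (by linarith))
  have m3 := far39 R X hal (Nat.cast_nonneg r) (show 0 ≤ 1 / (E r * E b ^ 4) by positivity)
    (show (r : ℝ) ≤ n ^ e₀ * r by nlinarith) (q8 R h)
  have hfin := comb39 (al := al) (hh := 320 * b) (s' := r) (e' := 6 * e) (y := Θ - 2 * x - 5 * e₀ - ε) (α₀ := 1 / (E r * E b))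
    (β₀ := 12 * n ^ ε * (1 / (E r ^ 2 * E b ^ 2))) (γ₀ := 1 / (E r * E b ^ 4)) R hs H.A1 hA m1 m2 m3 he (by linarith [R.Θ0, h.c0])
  refine hfin.trans (le_of_eq ?_)
  congr 1
  ring

end Nm

end

end Pool.Agent.W_7d29a1_C0.E2S39
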