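import Pool.Agent.W_7d29a1_C0.E2N34
import Pool.Agent.W_7d29a1_C0.E2FR43

/-!
MP_7d29a1_pr, [CURV0] / [C0], section E2 (helper34): **THE FAR LINES OF E2**, part 9: `farL34` = the three near far functionals of part L with
the numbers; `FarL34`, `farl34_est` = the same for all the kicked rows of the concrete frame, loss `n ^ ι`, errors `L ^ (-9)`.
-/

set_option autoImplicit false
set_option linter.unusedSectionVars false
set_option linter.unusedVariables false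

namespace Pool.Agent.W_7d29a1_C0.E2F34

open Finset MeasureTheory Filter Topology Pool.Agent.W_7d29a1_F Pool.Agent.W_7d29a1_X
open Pool.Agent.W_7d29a1_H (sl EE)
open Pool.Agent.W_7d29a1_HS (In)
open Pool.Agent.W_7d29a1_HZ (wd' EE')
open Pool.Agent.W_7d29a1_C0 Pool.Agent.W_7d29a1_C0.Mod92 Pool.Agent.W_7d29a1_C0.Swap57
open Pool.Agent.W_7d29a1_C0.Asm96 Pool.Agent.W_7d29a1_C0.EstC46 Pool.Agent.W_7d29a1_C0.Frm33
open Pool.Agent.W_7d29a1_C0.E2K43 Pool.Agent.W_7d29a1_C0.E2W43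
open Pool.Agent.W_7d29a1_C0.Far34 (nfl nfl_nonneg Fl vv vv_nonneg i1 i1_nonneg)
open Pool.Agent.W_7d29a1_C0.MicE14 (rh rh_nonneg mi)
open Pool.Agent.W_7d29a1_C0.MicL14 (fa fb fc)
open Pool.Agent.W_7d29a1_C0.T72 (uj72 abs_uj72 meas_uj72)
open Pool.Agent.W_7d29a1_C0.NM82 (Rk)
open Pool.Agent.W_7d29a1_C0.EvT50 (ev_pw50 ev_exp50)
open Pool.Agent.W_7d29a1_C0.Par92 (Est Sml)
open Pool.W7d29a1.C0 Pool.W7d29a1.C0.VT31
open Pool.W7d29a1.C0.T73 (OutB bx Str pm JZ)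
open Pool.W7d29a1.C0.C45 (wu meas_wu)

noncomputable section

variable {μ : Measure ℝ} {s : ℝ}

/-- **THE NEAR FAR FUNCTIONALS OF PART L**, with the numbers: the key has the boxes of `x 2`, `x 1`. -/
theorem farL34 [IsProbabilityMeasure μ] {c₀ C₀ : ℝ} {n₀ : ℕ} (h : In μ s c₀ C₀ n₀) : ∀ ε θ ε2 : ℝ, 0 < ε → 0 < θ → 0 < ε2 →
    ∃ δ κ c'' : ℝ, 0 < δ ∧ 0 < κ ∧ 0 < c'' ∧ ∃ N₀ : ℕ, ∀ N : ℕ, N₀ ≤ N → ∀ y : ℕ, y ≤ N →
    |(y : ℝ) - sl μ s * N| ≤ ((N : ℝ) ^ δ * wd' μ s N) → ∀ [Nonempty (Px (Pn N y))] (t τ al n c d : ℕ), (N : ℝ) ^ θ ≤ t → t ≤ N →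
    (N : ℝ) ^ θ ≤ n → 4 * n ≤ N → c ≤ al → al + n ≤ d → d ≤ N → al + n ≤ τ + t / 4 →
    ∀ (D : ℝ) (u : Finset ℕ → Env → Px (Pn N y) → ℝ), 0 ≤ D → D ≤ (N : ℝ) ^ κ →
    (∀ S, Measurable fun ω : Env × Finset ℕ => u ω.2 ω.1 S) → (∀ A η S, |u A η S| ≤ D) → Fro (τ + t / 4) u →
    ∀ (d0 z cc : ℕ) (F : ℝ) (f : Env × Finset ℕ → Px (Pn N y) → ℝ), Sf d0 F f → 0 < F → τ + t / 4 ≤ d0 + 1 → d ≤ z → z ≤ cc →
    cc ≤ N → (∀ ω, Rk cc (f ω)) →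
    ∀ (J : Finset ℕ) (R W : ℝ) (k0 L H nn wr : ℕ), SlabL34 μ s N ε2 t τ J R W k0 L H nn al n → al + n ≤ wr →
    ∀ (T : Type) (kap : (Fin 3 → Px (Pn N y)) → T) (o : T → Px (Pn N y) → ℝ),
    (∀ x v, |o (kap x) v| ≤ i1 (OutB pm (sl μ s) R (k0 : ℤ) (JZ J) (![bx pm R (k0 : ℤ) nn (x 2), bx pm R (k0 : ℤ) nn (x 1)]) v)) →
    ∀ (Ψ : Env × Finset ℕ → (Fin 3 → Px (Pn N y)) → ℝ) (K0 : ℝ), 0 ≤ K0 →
    (∀ ω x, |Ψ ω x| ≤ K0 * (NI al wr (x 2) (x 1) * rh z cc (f ω) (x 2) (x 0))) →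
    ∀ X : ℝ, X = ((N : ℝ) ^ ε * (EE' μ s t)⁻¹) * ∫ ω, PP (wu μ s N (Pn N y) u ω) (fun x x' =>
        mi (wu μ s N (Pn N y) u ω) (pJ c d) (NI al wr) x * rh z cc (f ω) x x') ∂(Pm μ N) +
        ((N : ℝ) ^ ε * (EE' μ s (4 * n))⁻¹) * ((N : ℝ) ^ ε * (EE' μ s t)⁻¹) *
          ∫ ω, PP (wu μ s N (Pn N y) u ω) (fun x x' => rh z cc (f ω) x x') ∂(Pm μ N) +
        2 * F * Real.exp (4 * D - (N : ℝ) ^ c'') →
    ∫ ω, fa (wu μ s N (Pn N y) u ω) (pJ c d) kap o (Ψ ω) ∂(Pm μ N) ≤ K0 * (2 * F * (2 * Real.exp (4 * D - (N : ℝ) ^ c''))) ∧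
    ∫ ω, fb (wu μ s N (Pn N y) u ω) (pJ c d) kap o (Ψ ω) ∂(Pm μ N) ≤ K0 * X ∧
    ∀ J' : Finset ℕ, J'.Nonempty → (∀ m ∈ J', m ≤ z) →
      ∫ ω, fc (wu μ s N (Pn N y) u ω) (pJ c d) J' (pJ 0) kap o (Ψ ω) ∂(Pm μ N) ≤ K0 * X := by
  intro ε θ ε2 hε hθ hε2
  obtain ⟨δa, κa, ca, hδa, hκa, hca, Na, ha⟩ := nearLN34 h ε θ ε2 hε hθ hε2
  obtain ⟨δs, cs, hδs, hcs, Ns, hs⟩ := steepU34 h hε2
  refine ⟨min δa δs, κa, min ca cs, lt_min hδa hδs, hκa, lt_min hca hcs, max (max Na Ns) 1, fun N hN y hy hyc _ t τ al n c d htN ht hnN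
    hn4 hcal hald hd hat D u hD0 hD hum hu hfr d0 z cc F f hf hF hτ hdz hzc hcN hfR J R W k0 L H nn wr hS hwr T kap o ho Ψ K0 hK hΨ X hX => ?_⟩
  have hNa : Na ≤ N := le_trans (by simp) hN
  have hNs : Ns ≤ N := le_trans (by simp) hN
  have hN1 : 1 ≤ N := le_trans (by simp) hN
  have hNR : (1 : ℝ) ≤ N := by exact_mod_cast hN1
  have hcd : c ≤ d := by omega
  have hw0 : 0 ≤ wd' μ s N := wd'_nonneg34 _
  have cone : ∀ e, min δa δs ≤ e → |(y : ℝ) - sl μ s * N| ≤ ((N : ℝ) ^ e * wd' μ s N) := fun e he =>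
    hyc.trans (mul_le_mul_of_nonneg_right (Real.rpow_le_rpow_of_exponent_le hNR he) hw0)
  obtain ⟨E, hE⟩ : ∃ E : ℝ, E = Real.exp (4 * D - (N : ℝ) ^ (min ca cs)) := ⟨_, rfl⟩
  rw [← hE] at hX ⊢
  have hE0 : 0 < E := by
    rw [hE]
    exact Real.exp_pos _
  have ea : Real.exp (4 * D - (N : ℝ) ^ ca) ≤ E := by
    rw [hE]
    refine Real.exp_le_exp.2 ?_
    have := Real.rpow_le_rpow_of_exponent_le hNR (min_le_left ca cs)
    linarith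
  have es : Real.exp (2 * D - (N : ℝ) ^ cs) ≤ E := by
    rw [hE]
    refine Real.exp_le_exp.2 ?_
    have := Real.rpow_le_rpow_of_exponent_le hNR (min_le_right ca cs)
    linarith
  have hI0 : ∀ S S' : Px (Pn N y), 0 ≤ NI al wr S S' := fun S S' => NI_nonneg _ _ _ _
  have hI1 : ∀ S S' : Px (Pn N y), NI al wr S S' ≤ 1 := fun S S' => CutT57.NI_le_one _ _ _ _
  have O0 : ∀ (x : Fin 3 → Px (Pn N y)) v, 0 ≤ |o (kap x) v| := fun x v => abs_nonneg _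
  have O1 : ∀ (x : Fin 3 → Px (Pn N y)) v, |o (kap x) v| ≤ 1 := fun x v => (ho x v).trans (i1_le_one34 _)
  -- one near line
  have line : ∀ c' d' : ℕ, c' ≤ d' → d' ≤ z →
      ∫ ω, EL34 μ s u (NI al wr) c d z cc f c' d' (fun x v => |o (kap x) v|) ω ∂(Pm μ N) ≤ X := fun c' d' hcd' hdz' => by
    have h1 := ha N hNa y hy (cone _ (min_le_left _ _)) t τ al n c d c' d' htN ht hnN hn4 hcal hald hd hcd' (by omega) hat D u hD0 hD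
      hum hu hfr d0 z cc F f hf hF hτ hdz' hzc hfR J R W k0 L H nn wr hS hwr (fun x v => |o (kap x) v|) O0 ho
    rw [hX]
    exact h1.trans (add_le_add le_rfl (mul_le_mul_of_nonneg_left ea (by positivity)))
  have iE : ∀ c' d' : ℕ, Integrable (EL34 μ s u (NI al wr) c d z cc f c' d' fun x v => |o (kap x) v|) (Pm μ N) := fun c' d' =>
    int_EL34 hum hI0 hI1 hf hF O0 O1 c' d'
  have E0 : ∀ c' d' ω, 0 ≤ EL34 μ s u (NI al wr) c d z cc f c' d' (fun x v => |o (kap x) v|) ω := fun c' d' ω =>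
    EL_nonneg34 hI0 O0 c' d' ω
  refine ⟨?_, ?_, fun J' hJ' hm => ?_⟩
  · have mw : ∀ S, Measurable fun ω : Env × Finset ℕ => wu μ s N (Pn N y) u ω S := meas_wu hum
    have n0 : ∀ S : Px (Pn N y), 0 ≤ nfl N (sl μ s) (vv μ s N ε2) S := nfl_nonneg _ _ _
    have i2 : Integrable (fun ω => gm (wu μ s N (Pn N y) u ω) (nfl N (sl μ s) (vv μ s N ε2))) (Pm μ N) :=
      int_bdd (M := 1) (meas_gm mw fun S => measurable_const) fun ω => by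
        rw [abs_of_nonneg (gm_nonneg _ n0)]
        exact (gm_mono _ (g := fun _ => 1) (nfl_le_one N _ _)).trans (gm_const _ _).le
    have h1 : ∫ ω, fa (wu μ s N (Pn N y) u ω) (pJ c d) kap o (Ψ ω) ∂(Pm μ N) ≤
        ∫ ω, K0 * (2 * F) * (2 * gm (wu μ s N (Pn N y) u ω) (nfl N (sl μ s) (vv μ s N ε2))) ∂(Pm μ N) := by
      refine integral_mono_of_nonneg (Filter.Eventually.of_forall fun ω => ?_) ((i2.const_mul 2).const_mul _)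
        (Filter.Eventually.of_forall fun ω => fa_le34 hcd hd hI0 hI1 hf hK hΨ (fun x => own2_34 hS x (ho x)) ω)
      exact I52.ev_nonneg _ _ fun x => mul_nonneg (abs_nonneg _) (add_nonneg (abs_nonneg _) (abs_nonneg _))
    rw [integral_const_mul, integral_const_mul] at h1
    have h2 := (hs N hNs y hy (cone _ (min_le_right _ _)) D u hum hu).trans es
    refine h1.trans ?_
    have h3 : K0 * (2 * F) * (2 * ∫ ω, gm (wu μ s N (Pn N y) u ω) (nfl N (sl μ s) (vv μ s N ε2)) ∂(Pm μ N)) ≤ K0 * (2 * F) * (2 * E) :=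
      mul_le_mul_of_nonneg_left (mul_le_mul_of_nonneg_left h2 zero_le_two) (by positivity)
    refine h3.trans (le_of_eq (by ring))
  · have h1 : ∫ ω, fb (wu μ s N (Pn N y) u ω) (pJ c d) kap o (Ψ ω) ∂(Pm μ N) ≤
        ∫ ω, K0 * EL34 μ s u (NI al wr) c d z cc f c d (fun x v => |o (kap x) v|) ω ∂(Pm μ N) := by
      refine integral_mono_of_nonneg (Filter.Eventually.of_forall fun ω => ?_) ((iE c d).const_mul _)
        (Filter.Eventually.of_forall fun ω => fb_le34 hΨ ω)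
      exact I52.ev_nonneg _ _ fun x => mul_nonneg (abs_nonneg _) (cE_nonneg _ _ (fun v => abs_nonneg _) _)
    rw [integral_const_mul] at h1
    exact h1.trans (mul_le_mul_of_nonneg_left (line c d hcd hdz) hK)
  · have h1 : ∫ ω, fc (wu μ s N (Pn N y) u ω) (pJ c d) J' (pJ 0) kap o (Ψ ω) ∂(Pm μ N) ≤
        ∫ ω, K0 * ((J'.card : ℝ)⁻¹ * ∑ m ∈ J', EL34 μ s u (NI al wr) c d z cc f 0 m (fun x v => |o (kap x) v|) ω) ∂(Pm μ N) := by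
      refine integral_mono_of_nonneg (Filter.Eventually.of_forall fun ω => ?_)
        (((integrable_finsetSum _ fun m _ => iE 0 m).const_mul _).const_mul _) (Filter.Eventually.of_forall fun ω => fc_le34 hΨ ω)
      exact I52.ev_nonneg _ _ fun x => mul_nonneg (abs_nonneg _) (MicL14.Cq_nonneg (fun v => abs_nonneg _) _)
    rw [integral_const_mul, integral_const_mul, integral_finsetSum _ fun m _ => iE 0 m] at h1
    refine h1.trans (mul_le_mul_of_nonneg_left ?_ hK)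
    have h2 : ∑ m ∈ J', ∫ ω, EL34 μ s u (NI al wr) c d z cc f 0 m (fun x v => |o (kap x) v|) ω ∂(Pm μ N) ≤ ∑ _m ∈ J', X :=
      Finset.sum_le_sum fun m hm' => line 0 m (Nat.zero_le _) (hm m hm')
    rw [Finset.sum_const, nsmul_eq_mul] at h2
    have hc : (0 : ℝ) < J'.card := by exact_mod_cast card_pos.2 hJ'
    calc (J'.card : ℝ)⁻¹ * ∑ m ∈ J', ∫ ω, EL34 μ s u (NI al wr) c d z cc f 0 m (fun x v => |o (kap x) v|) ω ∂(Pm μ N) ≤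
          (J'.card : ℝ)⁻¹ * (J'.card * X) := mul_le_mul_of_nonneg_left h2 (by positivity)
      _ = X := by field_simp

/-! ### At the concrete frame -/

/-- **THE NEAR FAR FUNCTIONALS OF PART L AT ONE LENGTH.** -/
def FarL34 (μ : Measure ℝ) (s : ℝ) (K : ℕ) (δ ι β γ : ℝ) (m : ℕ) : Prop :=
  ∀ y ∈ ys33 μ s K m, ∀ [Nonempty (Px (Pn (L33 K m) y))] (t τ al n c d : ℕ), ((2 ^ m : ℕ) : ℝ) ^ (δ / 2) ≤ t → t ≤ L33 K m →
    ((2 ^ m : ℕ) : ℝ) ^ (δ / 2) ≤ n → 4 * n ≤ L33 K m → c ≤ al → al + n ≤ d → d ≤ L33 K m → al + n ≤ τ + t / 4 →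
    ∀ (b0 j : ℕ) (u : ℝ), |u| ≤ 1 → τ + t / 4 ≤ j - b0 + 1 →
    ∀ (d0 z cc : ℕ) (F : ℝ) (f : Env × Finset ℕ → Px (Pn (L33 K m) y) → ℝ), Sf d0 F f → 0 < F → τ + t / 4 ≤ d0 + 1 → d ≤ z → z ≤ cc →
    cc ≤ L33 K m → (∀ ω, Rk cc (f ω)) →
    ∀ (J : Finset ℕ) (R W : ℝ) (k0 L H nn wr : ℕ), SlabL34 μ s (L33 K m) (ι / (2 * K)) t τ J R W k0 L H nn al n → al + n ≤ wr →
    ∀ (T : Type) (kap : (Fin 3 → Px (Pn (L33 K m) y)) → T) (o : T → Px (Pn (L33 K m) y) → ℝ),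
    (∀ x v, |o (kap x) v| ≤ i1 (OutB pm (sl μ s) R (k0 : ℤ) (JZ J) (![bx pm R (k0 : ℤ) nn (x 2), bx pm R (k0 : ℤ) nn (x 1)]) v)) →
    ∀ (Ψ : Env × Finset ℕ → (Fin 3 → Px (Pn (L33 K m) y)) → ℝ) (K0 : ℝ), 0 ≤ K0 →
    (∀ ω x, |Ψ ω x| ≤ K0 * (NI al wr (x 2) (x 1) * rh z cc (f ω) (x 2) (x 0))) →
    ∀ X : ℝ, X = (((2 ^ m : ℕ) : ℝ) ^ ι * (EE' μ s t)⁻¹) * ∫ ω, PP (wj μ s (L33 K m) (Pn (L33 K m) y) γ (B33 β m) b0 j ω u)
        (fun x x' => mi (wj μ s (L33 K m) (Pn (L33 K m) y) γ (B33 β m) b0 j ω u) (pJ c d) (NI al wr) x * rh z cc (f ω) x x')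
          ∂(Pm μ (L33 K m)) +
        (((2 ^ m : ℕ) : ℝ) ^ ι * (EE' μ s (4 * n))⁻¹) * (((2 ^ m : ℕ) : ℝ) ^ ι * (EE' μ s t)⁻¹) *
          ∫ ω, PP (wj μ s (L33 K m) (Pn (L33 K m) y) γ (B33 β m) b0 j ω u) (fun x x' => rh z cc (f ω) x x') ∂(Pm μ (L33 K m)) +
        2 * F * ((L33 K m : ℕ) : ℝ) ^ (-9 : ℝ) →
    ∫ ω, fa (wj μ s (L33 K m) (Pn (L33 K m) y) γ (B33 β m) b0 j ω u) (pJ c d) kap o (Ψ ω) ∂(Pm μ (L33 K m)) ≤
      K0 * (2 * F * (2 * ((L33 K m : ℕ) : ℝ) ^ (-9 : ℝ))) ∧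
    ∫ ω, fb (wj μ s (L33 K m) (Pn (L33 K m) y) γ (B33 β m) b0 j ω u) (pJ c d) kap o (Ψ ω) ∂(Pm μ (L33 K m)) ≤ K0 * X ∧
    ∀ J' : Finset ℕ, J'.Nonempty → (∀ m ∈ J', m ≤ z) →
      ∫ ω, fc (wj μ s (L33 K m) (Pn (L33 K m) y) γ (B33 β m) b0 j ω u) (pJ c d) J' (pJ 0) kap o (Ψ ω) ∂(Pm μ (L33 K m)) ≤ K0 * X

/-- **THE NEAR FAR FUNCTIONALS OF PART L AT THE CONCRETE FRAME.** -/
theorem farl34_est [IsProbabilityMeasure μ] {c₁ C : ℝ} {n₀ : ℕ} (h : In μ s c₁ C n₀) {K : ℕ} (hK : 32 ≤ K) {δ : ℝ} (hδ : 0 < δ) :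
    Est fun ι β γ m => FarL34 μ s K δ ι β γ m := by
  have hK0 : (0 : ℝ) < K := by
    have : (32 : ℝ) ≤ K := by exact_mod_cast hK
    linarith
  refine ⟨1, one_pos, fun ι hι _ => ?_⟩
  obtain ⟨δp, κ, c', hδp, hκ, hc', N₀, H⟩ := farL34 h (ι / K) (δ / (2 * K)) (ι / (2 * K)) (by positivity) (by positivity) (by positivity)
  obtain ⟨κ', hκ'⟩ : ∃ x : ℝ, x = min κ (c' / 2) := ⟨_, rfl⟩
  have hκ'0 : 0 < κ' := by
    rw [hκ']
    exact lt_min hκ (by positivity)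
  refine ⟨κ', hκ'0, fun β hβ hβ' => Sml.of fun γ _ => ?_⟩
  have evA : ∀ᶠ N : ℕ in atTop, Real.exp (-(1 / 2 * (N : ℝ) ^ c')) ≤ (N : ℝ) ^ (-9 : ℝ) ∧ 8 * (N : ℝ) ^ κ' ≤ (N : ℝ) ^ c' ∧ 2 ≤ N := by
    have hlt : κ' < c' := by
      have : κ' ≤ c' / 2 := by rw [hκ']; exact min_le_right _ _
      linarith
    filter_upwards [ev_exp50 1 9 (a := 1 / 2) (by norm_num) hc', ev_pw50 hlt 8, eventually_ge_atTop 2] with N h1 h2 h3
    rw [one_mul] at h1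
    exact ⟨h1, h2, h3⟩
  obtain ⟨N₁, hN₁⟩ := eventually_atTop.1 evA
  filter_upwards [ev_L (by omega : 1 ≤ K) (max N₀ N₁), cone33 h hK hδp] with m h1 h2
  intro y hy _ t τ al n c d ht htL hn hnL hcal hald hd hat b0 j u hu hτ d0 z cc F f hf hF hτ0 hdz hzc hccL hfR J R W k0 L Hh nn wr hS hwr T kap o
    ho Ψ K0 hK0' hΨ X hX
  obtain ⟨a1, a2, a3⟩ := hN₁ (L33 K m) ((le_max_right _ _).trans h1)
  have hn1 := n_ge1 m
  have hL1 : (1 : ℝ) ≤ ((L33 K m : ℕ) : ℝ) := by exact_mod_cast (by omega : 1 ≤ L33 K m)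
  have hys := mem_Ico.1 (show y ∈ Ico (y33 μ s K m) (y33 μ s K m + M33 m) from hy)
  obtain ⟨hyL, hyc⟩ := h2.2.2 y (by omega) (by omega)
  have hB0 : 0 ≤ B33 β m := by
    unfold B33
    positivity
  have hBL : B33 β m ≤ ((L33 K m : ℕ) : ℝ) ^ κ' := by
    unfold B33
    rw [L33_pow]
    refine Real.rpow_le_rpow_of_exponent_le hn1 ?_
    have : (1 : ℝ) ≤ K := by
      have : (32 : ℝ) ≤ K := by exact_mod_cast hK
      linarith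
    nlinarith
  have e1 : ((L33 K m : ℕ) : ℝ) ^ (δ / (2 * K)) = ((2 ^ m : ℕ) : ℝ) ^ (δ / 2) := by
    rw [← L_pow43 (by omega : 1 ≤ K) m (δ / 2)]
    congr 1
    field_simp
  have ew : ∀ ω : Env × Finset ℕ, wu μ s (L33 K m) (Pn (L33 K m) y) (uj72 μ s (Pn (L33 K m) y) γ (B33 β m) b0 j u) ω =
      wj μ s (L33 K m) (Pn (L33 K m) y) γ (B33 β m) b0 j ω u := fun ω => E2C96.wv_eq (N := L33 K m) ω
  have key := H (L33 K m) ((le_max_left _ _).trans h1) y hyL hyc t τ al n c d (by rw [e1]; exact ht) htL (by rw [e1]; exact hn) hnL hcal hald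
    hd hat (B33 β m) (uj72 μ s (Pn (L33 K m) y) γ (B33 β m) b0 j u) hB0
    (hBL.trans (Real.rpow_le_rpow_of_exponent_le hL1 (by rw [hκ']; exact min_le_left _ _))) (meas_uj72 γ (B33 β m) b0 j u)
    (fun A η S => abs_uj72 hB0 b0 j hu A η S) ((uj_front34 γ (B33 β m) b0 j u).mono hτ) d0 z cc F f hf hF hτ0 hdz hzc hccL hfR J R W k0 L Hh
    nn wr hS hwr T kap o ho Ψ K0 hK0' hΨ _ rfl
  simp only [ew] at key
  obtain ⟨ka, kb, kc⟩ := key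
  have er : Real.exp (4 * B33 β m - ((L33 K m : ℕ) : ℝ) ^ c') ≤ ((L33 K m : ℕ) : ℝ) ^ (-9 : ℝ) := by
    have e2 : 4 * B33 β m - ((L33 K m : ℕ) : ℝ) ^ c' ≤ -(1 / 2 * ((L33 K m : ℕ) : ℝ) ^ c') := by linarith
    exact (Real.exp_le_exp.2 e2).trans a1
  have e3 : 2 * F * Real.exp (4 * B33 β m - ((L33 K m : ℕ) : ℝ) ^ c') ≤ 2 * F * ((L33 K m : ℕ) : ℝ) ^ (-9 : ℝ) :=
    mul_le_mul_of_nonneg_left er (by positivity)
  rw [L_pow43 (by omega : 1 ≤ K)] at kb kc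
  refine ⟨ka.trans (mul_le_mul_of_nonneg_left ?_ hK0'), kb.trans (mul_le_mul_of_nonneg_left ?_ hK0'), fun J' hJ' hm =>
    (kc J' hJ' hm).trans (mul_le_mul_of_nonneg_left ?_ hK0')⟩
  · exact mul_le_mul_of_nonneg_left (mul_le_mul_of_nonneg_left er zero_le_two) (by positivity)
  · rw [hX]
    exact add_le_add le_rfl e3
  · rw [hX]
    exact add_le_add le_rfl e3

end

end Pool.Agent.W_7d29a1_C0.E2F34
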