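import Pool.Agent.W_7d29a1_C0.Two63
import Pool.Agent.W_7d29a1_C0.BoxG41C

/-!
CURV0 (MP_7d29a1_pr), leaf E2.4: ONE AND TWO DERIVATIVES in the direction of whole path functionals, LOCALISED by boxes, slabs of any
direction, the observable may SEE the slabs, the remainder `T - C` SIGNED. `one_box`, `two_box` (order of helper14: the second slab
only on `Ψ` itself). (helper63)
-/

set_option autoImplicit false
set_option linter.unusedSectionVars false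
set_option linter.unusedVariables false

namespace Pool.W7d29a1.C0.R63

open MeasureTheory ProbabilityTheory Filter Topology Finset
open Pool.Agent.W_7d29a1_F Pool.Agent.W_7d29a1_C0.H32 Pool.W7d29a1.C0 Pool.W7d29a1.C0.H41
open Pool.W7d29a1.C0.H19 (Cf BF int_exp_SS mul_le_tail)

noncomputable section

variable {μ : Measure ℝ} {f f' : ℝ → ℝ} {bk bk' : Bool}
variable {X ι ι' ι2 : Type*} [Fintype X] [Nonempty X] [Fintype ι] [DecidableEq ι] [Fintype ι'] [DecidableEq ι']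
  [Fintype ι2] [DecidableEq ι2] {B : Type*} [Fintype B] [DecidableEq B] {E : Ev X ι} {E' : Ev X ι'} {E2 : Ev X ι2}

/-! ### The derivative of the observable along the cut field of its own boxes -/

/-- The derivative of an observable along the cut field of its own boxes. -/
def Dg (b : X → B) (χ : (ι → B) → Pt → ℝ) (S : Finset Pt) (c : Pt → Env → ℝ) (Ψ' : Pt → Env → (ι → X) → ℝ) (η : Env) :
    (ι → X) → ℝ := fun x => ∑ p ∈ S, H41.cut (χ fun i => b (x i)) c p η * Ψ' p η x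

theorem lcG_Dg (b : X → B) (χ : (ι → B) → Pt → ℝ) (S : Finset Pt) (c : Pt → Env → ℝ) (Ψ' : Pt → Env → (ι → X) → ℝ)
    (η : Env) (β : ι → B) (x : ι → X) :
    ∑ p ∈ S, H41.cut (χ β) c p η * lcG b β (Ψ' p η) x = lcG b β (Dg b χ S c Ψ' η) x := by
  unfold lcG Dg
  split_ifs with h
  · rw [h]
  · exact Finset.sum_eq_zero fun p _ => mul_zero _

/-- The sum over the sites, at the level of the mean values. -/
theorem sum_ev_lc (E : Ev X ι) (b : X → B) (χ : (ι → B) → Pt → ℝ) (S : Finset Pt) (c : Pt → Env → ℝ)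
    (Ψ' : Pt → Env → (ι → X) → ℝ) (η : Env) (β : ι → B) (w : X → ℝ) :
    ∑ p ∈ S, H41.cut (χ β) c p η * E.ev w (lcG b β (Ψ' p η)) = E.ev w (lcG b β (Dg b χ S c Ψ' η)) := by
  rw [← ev_congr E w (lcG_Dg b χ S c Ψ' η β), ev_sum]
  exact Finset.sum_congr rfl fun p _ => (ev_smul _ _ _ _).symm

theorem sum_ins_lc (d : Dr E E') (A : X → ℝ) (b : X → B) (χ : (ι → B) → Pt → ℝ) (S : Finset Pt) (c : Pt → Env → ℝ)
    (Ψ' : Pt → Env → (ι → X) → ℝ) (η : Env) (β : ι → B) (w : X → ℝ) :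
    ∑ p ∈ S, H41.cut (χ β) c p η * E'.ev w (d.ins A (lcG b β (Ψ' p η))) =
      E'.ev w (d.ins A (lcG b β (Dg b χ S c Ψ' η))) := by
  have e : ∀ y, d.ins A (lcG b β (Dg b χ S c Ψ' η)) y =
      ∑ p ∈ S, H41.cut (χ β) c p η * d.ins A (lcG b β (Ψ' p η)) y := fun y => by
    unfold Dr.ins
    rw [← lcG_Dg b χ S c Ψ' η β, Finset.sum_mul]
    exact Finset.sum_congr rfl fun p _ => by ring
  rw [ev_congr _ _ e, ev_sum]
  exact Finset.sum_congr rfl fun p _ => (ev_smul _ _ _ _).symm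

theorem Obs.dg {S : Finset Pt} {c : Pt → Env → ℝ} {M D1 : ℝ} (hc : DF bk S c M) {Ψ' : Pt → Env → (ι → X) → ℝ}
    (hΨ' : ∀ p ∈ S, Obs (Ψ' p) D1) (b : X → B) {χ : (ι → B) → Pt → ℝ} (h0 : ∀ β p, 0 ≤ χ β p) (h1 : ∀ β p, χ β p ≤ 1) :
    Obs (Dg b χ S c Ψ') (S.card * (M * D1)) := by
  refine ⟨measurable_pi_lambda _ fun x => ?_, fun η x => ?_⟩
  · unfold Dg
    exact Finset.measurable_sum _ fun p hp => ((hc.cut (h0 fun i => b (x i)) (h1 fun i => b (x i))).meas p hp).mul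
      ((measurable_pi_apply x).comp (hΨ' p hp).meas)
  · unfold Dg
    refine (Finset.abs_sum_le_sum_abs _ _).trans ((Finset.sum_le_sum fun p hp => ?_).trans_eq
      (by rw [Finset.sum_const, nsmul_eq_mul] : (∑ _p ∈ S, M * D1) = (S.card : ℝ) * (M * D1)))
    rw [abs_mul]
    have k1 := (hc.cut (h0 fun i => b (x i)) (h1 fun i => b (x i))).bd p hp η
    exact mul_le_mul k1 ((hΨ' p hp).bd η x) (abs_nonneg _) ((abs_nonneg _).trans k1)

/-- The localised observable has the localised site derivatives. -/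
theorem Sd.lc {S : Finset Pt} {Ψ : Env → (ι → X) → ℝ} {Ψ' : Pt → Env → (ι → X) → ℝ} (h : Sd S Ψ Ψ') (b : X → B)
    (β : ι → B) : Sd S (fun η => lcG b β (Ψ η)) fun p η => lcG b β (Ψ' p η) := fun p hp η x y => by
  unfold lcG
  by_cases h' : (fun i => b (y i)) = β
  · simp only [h', if_true]
    exact h p hp η x y
  · simp only [h', if_false]
    exact hasDerivAt_const x _

theorem int_abs_ev_le [IsProbabilityMeasure μ] {Φ : Env → (ι → X) → ℝ} {D : ℝ} (h : Obs Φ D) (E : Ev X ι)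
    {w : Env → X → ℝ} (hw : Measurable w) :
    |∫ η, E.ev (w η) (Φ η) ∂(law μ)| ≤ ∫ η, E.ev (w η) (fun x => |Φ η x|) ∂(law μ) := by
  refine (abs_integral_le_integral_abs).trans ?_
  refine integral_mono (h.int E hw).abs (h.abs.int E hw) fun η => ?_
  exact abs_ev_le E (w η) _

theorem sum_int_abs_lc [IsProbabilityMeasure μ] {Φ : Env → (ι → X) → ℝ} {D : ℝ} (h : Obs Φ D) (E : Ev X ι)
    {w : Env → X → ℝ} (hw : Measurable w) (b : X → B) :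
    ∑ β : ι → B, ∫ η, |E.ev (w η) (lcG b β (Φ η))| ∂(law μ) ≤ ∫ η, E.ev (w η) (fun x => |Φ η x|) ∂(law μ) := by
  rw [← sum_int_lcG h E hw b]
  exact Finset.sum_le_sum fun β _ => integral_mono ((h.lc b β).int E hw).abs
    ((h.lc b β).abs.int E hw) fun η => abs_ev_le E (w η) _

/-- The integral of a sum of three functions. -/
theorem int3 {ν : Measure Env} {u v k : Env → ℝ} (hu : Integrable u ν) (hv : Integrable v ν) (hk : Integrable k ν) :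
    ∫ η, (u η + v η + k η) ∂ν = ∫ η, u η ∂ν + ∫ η, v η ∂ν + ∫ η, k η ∂ν := by
  have huv : Integrable (fun η => u η + v η) ν := hu.add hv
  rw [integral_add huv hk, integral_add hu hv]

section One

variable [IsProbabilityMeasure μ] {S : Finset Pt} {c : Pt → Env → ℝ} {M V D D1 τ : ℝ}
  {w : Env → X → ℝ} {N : Pt → X → ℝ} {Ψ : Env → (ι → X) → ℝ} {Ψ' : Pt → Env → (ι → X) → ℝ} {T : Env → X → ℝ}

/-- **One derivative, localised.** -/
theorem one_box (d : Dr E E') (h : DenLaw μ f f') {K θ0 : ℝ} (hs : SG μ (sc f f') K θ0) (hc : DF bk S c M) (hM : 0 ≤ M)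
    (hw : Wt S w N V) (hΨ : Obs Ψ D) (hΨ' : ∀ p ∈ S, Obs (Ψ' p) D1) (hd : Sd S Ψ Ψ') (hT : Measurable T)
    (hτ : ∀ η y, |T η y| ≤ τ) (b : X → B) {χ : (ι → B) → Pt → ℝ} (h0 : ∀ β p, 0 ≤ χ β p) (h1 : ∀ β p, χ β p ≤ 1)
    {t a Q : ℝ} (ht : 0 < t) (ha : 0 ≤ a) (htM : t * M ≤ θ0) (hQ : ∀ β η, QV S (H41.cut (χ β) c) η ≤ Q) :
    |∫ η, E'.ev (w η) (d.ins (T η) (Ψ η)) ∂(law μ)| ≤
      a * ∫ η, E.ev (w η) (fun x => |Ψ η x|) ∂(law μ) + (Fintype.card (ι → B) : ℝ) * tail1 K D t a Q +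
      ∫ η, E.ev (w η) (fun x => |Dg b χ S c Ψ' η x|) ∂(law μ) +
      |∫ η, E'.ev (w η) (d.ins (T η - Cf S c N η) (Ψ η)) ∂(law μ)| +
      ∫ η, E'.ev (w η) (fun y => |d.insR b (farF χ S c N η) (Ψ η) y|) ∂(law μ) := by
  have hC := meas_Cf hc.meas N
  have hCb : ∀ η y, |Cf S c N η y| ≤ S.card * (M * V) := fun η y => abs_Cf_le hc.bd hw.bd η y
  have mC : ∀ β : ι → B, Measurable fun η => Cf S (H41.cut (χ β) c) N η := fun β => meas_Cf (hc.cut (h0 β) (h1 β)).meas N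
  have bC : ∀ (β : ι → B) η y, |Cf S (H41.cut (χ β) c) N η y| ≤ S.card * (M * V) := fun β η y =>
    abs_Cf_le (hc.cut (h0 β) (h1 β)).bd hw.bd η y
  have mR : ∀ β : ι → B, Measurable fun η => farF χ S c N η β := fun β => meas_Cf (hc.cut' (h0 β) (h1 β)).meas N
  have bR : ∀ η (β : ι → B) y, |farF χ S c N η β y| ≤ S.card * (M * V) := fun η β y =>
    abs_Cf_le (hc.cut' (h0 β) (h1 β)).bd hw.bd η y
  have o1 : ∀ β : ι → B, Obs (fun η => d.ins (Cf S (H41.cut (χ β) c) N η) (lcG b β (Ψ η))) (D * (d.sz * (S.card * (M * V)))) :=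
    fun β => (hΨ.lc b β).ins d (mC β) (bC β)
  have o2 : Obs (fun η => d.ins (T η - Cf S c N η) (Ψ η)) (D * (d.sz * (τ + S.card * (M * V)))) :=
    hΨ.ins d (hT.sub hC) fun η y => (abs_sub _ _).trans (add_le_add (hτ η y) (hCb η y))
  have o3 : Obs (fun η => d.insR b (farF χ S c N η) (Ψ η)) (D * (d.sz * (S.card * (M * V)))) := hΨ.insR d b mR bR
  have oG : Obs (Dg b χ S c Ψ') (S.card * (M * D1)) := Obs.dg hc hΨ' b h0 h1
  have e1 : ∀ η, E'.ev (w η) (d.ins (T η) (Ψ η)) =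
      (∑ β, E'.ev (w η) (d.ins (Cf S (H41.cut (χ β) c) N η) (lcG b β (Ψ η))) +
        E'.ev (w η) (d.ins (T η - Cf S c N η) (Ψ η))) + E'.ev (w η) (d.insR b (farF χ S c N η) (Ψ η)) := fun η => by
    rw [← ev_sum, ← ev_add, ← ev_add]
    refine ev_congr _ _ fun y => ?_
    have k := ins_box d b (C := fun β => Cf S (H41.cut (χ β) c) N η)
      (R := farF χ S c N η) (fun β => Cf_split (χ β) S c N η) (Ψ η) y
    rw [ins_sub, k]
    ring
  simp_rw [e1]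
  have is1 : Integrable (fun η => ∑ β, E'.ev (w η) (d.ins (Cf S (H41.cut (χ β) c) N η) (lcG b β (Ψ η)))) (law μ) :=
    integrable_finsetSum _ fun β _ => (o1 β).int E' hw.meas
  rw [int3 is1 (o2.int E' hw.meas) (o3.int E' hw.meas), integral_finsetSum _ fun β _ => (o1 β).int E' hw.meas]
  -- the near part
  have k1 : ∀ β : ι → B, |∫ η, E'.ev (w η) (d.ins (Cf S (H41.cut (χ β) c) N η) (lcG b β (Ψ η))) ∂(law μ)| ≤
      a * ∫ η, E.ev (w η) (fun x => |lcG b β (Ψ η) x|) ∂(law μ) + tail1 K D t a Q +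
        ∫ η, |E.ev (w η) (lcG b β (Dg b χ S c Ψ' η))| ∂(law μ) := fun β => by
    have g := ibpG d h ((hc.cut (h0 β) (h1 β)).gf hs) hw (hΨ.lc b β) (fun p hp => (hΨ' p hp).lc b β) (hd.lc b β)
    simp_rw [sum_ev_lc E b χ S c Ψ' _ β] at g
    rw [eq_sub_of_add_eq g]
    refine (abs_sub _ _).trans (add_le_add ?_ abs_integral_le_integral_abs)
    refine (est_oneD hs (hc.cut (h0 β) (h1 β)) hM ht htM (hQ β) ((hΨ.lc b β).int E hw.meas)
      (a := a) (D := D) fun η => abs_ev_le_of E (w η) ((hΨ.lc b β).bd η)).trans ?_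
    refine add_le_add (mul_le_mul_of_nonneg_left ?_ ha) le_rfl
    exact integral_mono ((hΨ.lc b β).int E hw.meas).abs ((hΨ.lc b β).abs.int E hw.meas) fun η => abs_ev_le E (w η) _
  have k2 : |∑ β : ι → B, ∫ η, E'.ev (w η) (d.ins (Cf S (H41.cut (χ β) c) N η) (lcG b β (Ψ η))) ∂(law μ)| ≤
      a * ∫ η, E.ev (w η) (fun x => |Ψ η x|) ∂(law μ) + (Fintype.card (ι → B) : ℝ) * tail1 K D t a Q +
        ∫ η, E.ev (w η) (fun x => |Dg b χ S c Ψ' η x|) ∂(law μ) := by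
    refine (Finset.abs_sum_le_sum_abs _ _).trans ((Finset.sum_le_sum fun β _ => k1 β).trans ?_)
    rw [Finset.sum_add_distrib, Finset.sum_add_distrib, Finset.sum_const, Finset.card_univ, nsmul_eq_mul,
      ← Finset.mul_sum, sum_int_lcG hΨ E hw.meas b]
    exact add_le_add le_rfl (sum_int_abs_lc oG E hw.meas b)
  have k3 := int_abs_ev_le (μ := μ) o3 E' hw.meas
  refine (abs_add_le _ _).trans (add_le_add ((abs_add_le _ _).trans (add_le_add k2 le_rfl)) k3)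

end One

section Two

variable [IsProbabilityMeasure μ] {S1 S2 : Finset Pt} {c1 c2 : Pt → Env → ℝ} {M1 M2 V D D1 D2 τ1 τ2 : ℝ}
  {w : Env → X → ℝ} {N : Pt → X → ℝ} {Ψ : Env → (ι → X) → ℝ} {Ψ1 Ψ2 : Pt → Env → (ι → X) → ℝ} {T1 T2 : Env → X → ℝ}

/-- The insertion of the far part of the first field: the boxes are those of the replicas of `Ψ`. -/
def far2 (d : Dr E E') (d' : Dr E' E2) (b : X → B) (χ : (ι → B) → Pt → ℝ) (S : Finset Pt) (c : Pt → Env → ℝ)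
    (N : Pt → X → ℝ) (T : Env → X → ℝ) (Ψ : Env → (ι → X) → ℝ) (η : Env) : (ι2 → X) → ℝ :=
  fun y => d'.ins (farF χ S c N η fun i => b (y (d'.emb (d.emb i)))) (d.ins (T η) (Ψ η)) y

theorem sum_far2 (d : Dr E E') (d' : Dr E' E2) (b : X → B) (A : (ι → B) → X → ℝ) (T : X → ℝ) (Ψ : (ι → X) → ℝ)
    (y : ι2 → X) :
    ∑ β, d'.ins (A β) (d.ins T (lcG b β Ψ)) y =
      d'.ins (A fun i => b (y (d'.emb (d.emb i)))) (d.ins T Ψ) y := by
  have e : ∀ β : ι → B, d'.ins (A β) (d.ins T (lcG b β Ψ)) y =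
      if (fun i => b (y (d'.emb (d.emb i)))) = β then d'.ins (A β) (d.ins T Ψ) y else 0 := fun β => by
    unfold Dr.ins lcG
    split_ifs with h
    · rfl
    · rw [zero_mul, zero_mul]
  rw [Finset.sum_congr rfl fun β _ => e β, Finset.sum_ite_eq]
  simp

theorem Obs.far2 (d : Dr E E') (d' : Dr E' E2) (b : X → B) {χ : (ι → B) → Pt → ℝ} {A : Env → (ι → B) → X → ℝ}
    (hA : ∀ β, Measurable fun η => A η β) {a : ℝ} (ha : ∀ η β y, |A η β y| ≤ a) {T : Env → X → ℝ} (hT : Measurable T)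
    {τ : ℝ} (hτ : ∀ η y, |T η y| ≤ τ) (hΨ : Obs Ψ D) :
    Obs (fun η y => d'.ins (A η fun i => b (y (d'.emb (d.emb i)))) (d.ins (T η) (Ψ η)) y) (D * (d.sz * τ) * (d'.sz * a)) := by
  have o : Obs (fun η => d.ins (T η) (Ψ η)) (D * (d.sz * τ)) := hΨ.ins d hT hτ
  refine ⟨measurable_pi_lambda _ fun y => ?_, fun η y => abs_ins_le d' (ha η _) (o.bd η) y⟩
  exact (measurable_pi_apply y).comp (meas_ins d' (hA fun i => b (y (d'.emb (d.emb i)))) o.meas)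

/-- **Two derivatives, localised**, in the order of helper14. -/
theorem two_box (d : Dr E E') (d' : Dr E' E2) (h : DenLaw μ f f') {K θ0 : ℝ} (hs : SG μ (sc f f') K θ0)
    (hd12 : Disjoint S1 S2) (b1 : DF bk S1 c1 M1) (b2 : DF bk' S2 c2 M2) (hM1 : 0 ≤ M1) (hM2 : 0 ≤ M2)
    (h12 : ∀ q1 ∈ S1, ∀ q2 ∈ S2, ∀ (η : Env) (x : ℝ), c1 q1 (Function.update η q2 x) = c1 q1 η)
    (hw1 : Wt S1 w N V) (hw2 : Wt S2 w N V) (hΨ : Obs Ψ D) (hΨ1 : ∀ p ∈ S1, Obs (Ψ1 p) D1) (hΨ2 : ∀ p ∈ S2, Obs (Ψ2 p) D2)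
    (hd1 : Sd S1 Ψ Ψ1) (hd2 : Sd S2 Ψ Ψ2) (hT1 : Measurable T1) (hτ1 : ∀ η y, |T1 η y| ≤ τ1) (hT2 : Measurable T2)
    (hτ2 : ∀ η y, |T2 η y| ≤ τ2) (hTb : Bl S1 T2) (b : X → B) {χ1 χ2 : (ι → B) → Pt → ℝ} (z1 : ∀ β p, 0 ≤ χ1 β p)
    (u1 : ∀ β p, χ1 β p ≤ 1) (z2 : ∀ β p, 0 ≤ χ2 β p) (u2 : ∀ β p, χ2 β p ≤ 1) {t1 t2 a1 a2 Q1 Q2 : ℝ} (q1 : 0 < t1)
    (q2 : 0 < t2) (r1 : 2 * t1 * M1 ≤ θ0) (r2 : 2 * t2 * M2 ≤ θ0) (hQ1 : ∀ β η, QV S1 (H41.cut (χ1 β) c1) η ≤ Q1)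
    (hQ2 : ∀ β η, QV S2 (H41.cut (χ2 β) c2) η ≤ Q2) (ha1 : 0 ≤ a1) (ha2 : 0 ≤ a2) :
    |∫ η, E2.ev (w η) (d'.ins (T1 η) (d.ins (T2 η) (Ψ η))) ∂(law μ)| ≤
      (a1 * a2 * ∫ η, E.ev (w η) (fun x => |Ψ η x|) ∂(law μ) +
        (Fintype.card (ι → B) : ℝ) * tail2 K D t1 t2 a1 a2 Q1 Q2) +
      (a1 * ∫ η, E.ev (w η) (fun x => |Dg b χ2 S2 c2 Ψ2 η x|) ∂(law μ) +
        (Fintype.card (ι → B) : ℝ) * tail1 K (S2.card * (M2 * D2)) t1 a1 Q1) +
      (a1 * ∑ β : ι → B, ∫ η, |E'.ev (w η) (d.ins (T2 η - Cf S2 c2 N η) (lcG b β (Ψ η)))| ∂(law μ) +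
        (Fintype.card (ι → B) : ℝ) * tail1 K (D * (d.sz * (τ2 + S2.card * (M2 * V)))) t1 a1 Q1) +
      (a1 * ∫ η, E'.ev (w η) (fun y => |d.insR b (farF χ2 S2 c2 N η) (Ψ η) y|) ∂(law μ) +
        (Fintype.card (ι → B) : ℝ) * tail1 K (D * (d.sz * (S2.card * (M2 * V)))) t1 a1 Q1) +
      ∫ η, E'.ev (w η) (fun y => |d.ins (T2 η) (Dg b χ1 S1 c1 Ψ1 η) y|) ∂(law μ) +
      |∫ η, E2.ev (w η) (d'.ins (T1 η - Cf S1 c1 N η) (d.ins (T2 η) (Ψ η))) ∂(law μ)| +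
      ∫ η, E2.ev (w η) (fun y => |far2 d d' b χ1 S1 c1 N T2 Ψ η y|) ∂(law μ) := by
  -- measurability and bounds of the path functionals
  have mC1 := meas_Cf b1.meas N
  have bC1 : ∀ η y, |Cf S1 c1 N η y| ≤ S1.card * (M1 * V) := fun η y => abs_Cf_le b1.bd hw1.bd η y
  have mC1β : ∀ β : ι → B, Measurable fun η => Cf S1 (H41.cut (χ1 β) c1) N η := fun β =>
    meas_Cf (b1.cut (z1 β) (u1 β)).meas N
  have bC1β : ∀ (β : ι → B) η y, |Cf S1 (H41.cut (χ1 β) c1) N η y| ≤ S1.card * (M1 * V) := fun β η y =>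
    abs_Cf_le (b1.cut (z1 β) (u1 β)).bd hw1.bd η y
  have mR1 : ∀ β : ι → B, Measurable fun η => farF χ1 S1 c1 N η β := fun β => meas_Cf (b1.cut' (z1 β) (u1 β)).meas N
  have bR1 : ∀ η (β : ι → B) y, |farF χ1 S1 c1 N η β y| ≤ S1.card * (M1 * V) := fun η β y =>
    abs_Cf_le (b1.cut' (z1 β) (u1 β)).bd hw1.bd η y
  have mC2 := meas_Cf b2.meas N
  have bC2 : ∀ η y, |Cf S2 c2 N η y| ≤ S2.card * (M2 * V) := fun η y => abs_Cf_le b2.bd hw2.bd η y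
  have mC2β : ∀ β : ι → B, Measurable fun η => Cf S2 (H41.cut (χ2 β) c2) N η := fun β =>
    meas_Cf (b2.cut (z2 β) (u2 β)).meas N
  have bC2β : ∀ (β : ι → B) η y, |Cf S2 (H41.cut (χ2 β) c2) N η y| ≤ S2.card * (M2 * V) := fun β η y =>
    abs_Cf_le (b2.cut (z2 β) (u2 β)).bd hw2.bd η y
  have mR2 : ∀ β : ι → B, Measurable fun η => farF χ2 S2 c2 N η β := fun β => meas_Cf (b2.cut' (z2 β) (u2 β)).meas N
  have bR2 : ∀ η (β : ι → B) y, |farF χ2 S2 c2 N η β y| ≤ S2.card * (M2 * V) := fun η β y =>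
    abs_Cf_le (b2.cut' (z2 β) (u2 β)).bd hw2.bd η y
  have hw := hw1.meas
  -- observables
  have oT : Obs (fun η => d.ins (T2 η) (Ψ η)) (D * (d.sz * τ2)) := hΨ.ins d hT2 hτ2
  have oTβ : ∀ β : ι → B, Obs (fun η => d.ins (T2 η) (lcG b β (Ψ η))) (D * (d.sz * τ2)) := fun β => (hΨ.lc b β).ins d hT2 hτ2
  have oA : ∀ β : ι → B, Obs (fun η => d'.ins (Cf S1 (H41.cut (χ1 β) c1) N η) (d.ins (T2 η) (lcG b β (Ψ η))))
      (D * (d.sz * τ2) * (d'.sz * (S1.card * (M1 * V)))) := fun β => (oTβ β).ins d' (mC1β β) (bC1β β)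
  have oB : Obs (fun η => d'.ins (T1 η - Cf S1 c1 N η) (d.ins (T2 η) (Ψ η)))
      (D * (d.sz * τ2) * (d'.sz * (τ1 + S1.card * (M1 * V)))) :=
    oT.ins d' (hT1.sub mC1) fun η y => (abs_sub _ _).trans (add_le_add (hτ1 η y) (bC1 η y))
  have oF : Obs (far2 d d' b χ1 S1 c1 N T2 Ψ) (D * (d.sz * τ2) * (d'.sz * (S1.card * (M1 * V)))) :=
    Obs.far2 d d' b (χ := χ1) (A := fun η β => farF χ1 S1 c1 N η β) mR1 bR1 hT2 hτ2 hΨ
  have oG1 : Obs (Dg b χ1 S1 c1 Ψ1) (S1.card * (M1 * D1)) := Obs.dg b1 hΨ1 b z1 u1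
  have oG2 : Obs (Dg b χ2 S2 c2 Ψ2) (S2.card * (M2 * D2)) := Obs.dg b2 hΨ2 b z2 u2
  -- step 0
  have e1 : ∀ η, E2.ev (w η) (d'.ins (T1 η) (d.ins (T2 η) (Ψ η))) =
      (∑ β, E2.ev (w η) (d'.ins (Cf S1 (H41.cut (χ1 β) c1) N η) (d.ins (T2 η) (lcG b β (Ψ η)))) +
        E2.ev (w η) (d'.ins (T1 η - Cf S1 c1 N η) (d.ins (T2 η) (Ψ η)))) +
      E2.ev (w η) (far2 d d' b χ1 S1 c1 N T2 Ψ η) := fun η => by
    rw [← ev_sum, ← ev_add, ← ev_add]
    refine ev_congr _ _ fun y => ?_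
    have k1 := sum_far2 d d' b (fun β => Cf S1 (H41.cut (χ1 β) c1) N η) (T2 η) (Ψ η) y
    rw [k1, ins_sub]
    have k2 : Cf S1 c1 N η = Cf S1 (H41.cut (χ1 fun i => b (y (d'.emb (d.emb i)))) c1) N η +
        farF χ1 S1 c1 N η fun i => b (y (d'.emb (d.emb i))) := Cf_split (χ1 _) S1 c1 N η
    have k3 := congrArg (fun A => d'.ins A (d.ins (T2 η) (Ψ η)) y) k2
    simp only [ins_add] at k3
    unfold far2
    rw [k3]
    ring
  simp_rw [e1]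
  have is1 : Integrable (fun η => ∑ β, E2.ev (w η) (d'.ins (Cf S1 (H41.cut (χ1 β) c1) N η)
      (d.ins (T2 η) (lcG b β (Ψ η))))) (law μ) := integrable_finsetSum _ fun β _ => (oA β).int E2 hw
  rw [int3 is1 (oB.int E2 hw) (oF.int E2 hw), integral_finsetSum _ fun β _ => (oA β).int E2 hw]
  -- the near part
  have o2a : ∀ β : ι → B, Obs (fun η => d.ins (Cf S2 (H41.cut (χ2 β) c2) N η) (lcG b β (Ψ η)))
      (D * (d.sz * (S2.card * (M2 * V)))) := fun β => (hΨ.lc b β).ins d (mC2β β) (bC2β β)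
  have o2b : ∀ β : ι → B, Obs (fun η => d.ins (T2 η - Cf S2 c2 N η) (lcG b β (Ψ η)))
      (D * (d.sz * (τ2 + S2.card * (M2 * V)))) := fun β => (hΨ.lc b β).ins d (hT2.sub mC2) fun η y =>
        (abs_sub _ _).trans (add_le_add (hτ2 η y) (bC2 η y))
  have o2c : ∀ β : ι → B, Obs (fun η => d.ins (farF χ2 S2 c2 N η β) (lcG b β (Ψ η)))
      (D * (d.sz * (S2.card * (M2 * V)))) := fun β => (hΨ.lc b β).ins d (mR2 β) fun η y => bR2 η β y
  have mS : ∀ β : ι → B, MemLp (SS (sc f f') S1 (H41.cut (χ1 β) c1)) 2 (law μ) := fun β =>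
    ((b1.cut (z1 β) (u1 β)).gf hs).memLp hs.1
  have k1 : ∀ β : ι → B, |∫ η, E2.ev (w η) (d'.ins (Cf S1 (H41.cut (χ1 β) c1) N η) (d.ins (T2 η) (lcG b β (Ψ η)))) ∂(law μ)| ≤
      ((((a1 * a2 * ∫ η, E.ev (w η) (fun x => |lcG b β (Ψ η) x|) ∂(law μ) + tail2 K D t1 t2 a1 a2 Q1 Q2) +
        (a1 * ∫ η, |E.ev (w η) (lcG b β (Dg b χ2 S2 c2 Ψ2 η))| ∂(law μ) + tail1 K (S2.card * (M2 * D2)) t1 a1 Q1)) +
        (a1 * ∫ η, |E'.ev (w η) (d.ins (T2 η - Cf S2 c2 N η) (lcG b β (Ψ η)))| ∂(law μ) +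
          tail1 K (D * (d.sz * (τ2 + S2.card * (M2 * V)))) t1 a1 Q1)) +
        (a1 * ∫ η, |E'.ev (w η) (d.ins (farF χ2 S2 c2 N η β) (lcG b β (Ψ η)))| ∂(law μ) +
          tail1 K (D * (d.sz * (S2.card * (M2 * V)))) t1 a1 Q1)) +
        ∫ η, |E'.ev (w η) (d.ins (T2 η) (lcG b β (Dg b χ1 S1 c1 Ψ1 η)))| ∂(law μ) := fun β => by
    -- first slab
    have o1' : ∀ p ∈ S1, Obs (fun η => d.ins (T2 η) (lcG b β (Ψ1 p η))) (D1 * (d.sz * τ2)) := fun p hp =>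
      ((hΨ1 p hp).lc b β).ins d hT2 hτ2
    have hd' : Sd S1 (fun η => d.ins (T2 η) (lcG b β (Ψ η))) fun p η => d.ins (T2 η) (lcG b β (Ψ1 p η)) := fun p hp η x y => by
      unfold Dr.ins
      have e : ∀ t : ℝ, T2 (Function.update η p t) = T2 η := fun t => hTb p hp η t
      simp only [e]
      exact ((hd1.lc b β) p hp η x _).mul_const _
    have g := ibpG d' h ((b1.cut (z1 β) (u1 β)).gf hs) hw1 (oTβ β) o1' hd'
    simp_rw [sum_ins_lc d _ b χ1 S1 c1 Ψ1 _ β] at g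
    rw [eq_sub_of_add_eq g]
    refine (abs_sub _ _).trans (add_le_add ?_ abs_integral_le_integral_abs)
    -- second slab
    have g2 := ibpG2 d h hd12 ((b1.cut (z1 β) (u1 β)).gf hs) ((b2.cut (z2 β) (u2 β)).gf hs)
      (fun p hp q hq η x => by unfold H41.cut; rw [h12 p hp q hq]) hw2 (hΨ.lc b β) (fun p hp => (hΨ2 p hp).lc b β) (hd2.lc b β)
    simp_rw [sum_ev_lc E b χ2 S2 c2 Ψ2 _ β] at g2
    have e2 : ∀ η, E'.ev (w η) (d.ins (T2 η) (lcG b β (Ψ η))) * SS (sc f f') S1 (H41.cut (χ1 β) c1) η =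
        (E'.ev (w η) (d.ins (Cf S2 (H41.cut (χ2 β) c2) N η) (lcG b β (Ψ η))) * SS (sc f f') S1 (H41.cut (χ1 β) c1) η +
          E'.ev (w η) (d.ins (T2 η - Cf S2 c2 N η) (lcG b β (Ψ η))) * SS (sc f f') S1 (H41.cut (χ1 β) c1) η) +
          E'.ev (w η) (d.ins (farF χ2 S2 c2 N η β) (lcG b β (Ψ η))) * SS (sc f f') S1 (H41.cut (χ1 β) c1) η := fun η => by
      rw [← add_mul, ← add_mul, ← ev_add, ← ev_add]
      congr 1
      refine ev_congr _ _ fun y => ?_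
      have k3 := congrArg (fun A => d.ins A (lcG b β (Ψ η)) y) (Cf_split (χ2 β) S2 c2 N η)
      simp only [ins_add] at k3
      unfold farF
      rw [ins_sub, k3]
      ring
    have iA : Integrable (fun η => E'.ev (w η) (d.ins (Cf S2 (H41.cut (χ2 β) c2) N η) (lcG b β (Ψ η))) *
        SS (sc f f') S1 (H41.cut (χ1 β) c1) η) (law μ) := ((o2a β).memLp E' hw).integrable_mul (mS β)
    have iB : Integrable (fun η => E'.ev (w η) (d.ins (T2 η - Cf S2 c2 N η) (lcG b β (Ψ η))) *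
        SS (sc f f') S1 (H41.cut (χ1 β) c1) η) (law μ) := ((o2b β).memLp E' hw).integrable_mul (mS β)
    have iC : Integrable (fun η => E'.ev (w η) (d.ins (farF χ2 S2 c2 N η β) (lcG b β (Ψ η))) *
        SS (sc f f') S1 (H41.cut (χ1 β) c1) η) (law μ) := ((o2c β).memLp E' hw).integrable_mul (mS β)
    simp_rw [e2]
    rw [int3 iA iB iC, eq_sub_of_add_eq g2]
    refine (abs_add_le _ _).trans (add_le_add ((abs_add_le _ _).trans (add_le_add ((abs_sub _ _).trans (add_le_add ?_ ?_)) ?_)) ?_)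
    · refine (est_twoD hs (b1.cut (z1 β) (u1 β)) (b2.cut (z2 β) (u2 β)) hM1 hM2 q1 q2 r1 r2 (hQ1 β) (hQ2 β) ha1 ha2
        ((hΨ.lc b β).int E hw) (D := D) fun η => abs_ev_le_of E (w η) ((hΨ.lc b β).bd η)).trans ?_
      refine add_le_add (mul_le_mul_of_nonneg_left ?_ (mul_nonneg ha1 ha2)) le_rfl
      exact integral_mono ((hΨ.lc b β).int E hw).abs ((hΨ.lc b β).abs.int E hw) fun η => abs_ev_le E (w η) _
    · exact est_oneD hs (b1.cut (z1 β) (u1 β)) hM1 q1 (by nlinarith : t1 * M1 ≤ θ0) (hQ1 β) ((oG2.lc b β).int E hw)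
        fun η => abs_ev_le_of E (w η) ((oG2.lc b β).bd η)
    · exact est_oneD hs (b1.cut (z1 β) (u1 β)) hM1 q1 (by nlinarith : t1 * M1 ≤ θ0) (hQ1 β) ((o2b β).int E' hw)
        fun η => abs_ev_le_of E' (w η) ((o2b β).bd η)
    · exact est_oneD hs (b1.cut (z1 β) (u1 β)) hM1 q1 (by nlinarith : t1 * M1 ≤ θ0) (hQ1 β) ((o2c β).int E' hw)
        fun η => abs_ev_le_of E' (w η) ((o2c β).bd η)
  -- the sum over the boxes
  have s1 := sum_int_lcG (μ := μ) hΨ E hw b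
  have s2 := sum_int_abs_lc (μ := μ) oG2 E hw b
  have s3 : ∑ β : ι → B, ∫ η, |E'.ev (w η) (d.ins (farF χ2 S2 c2 N η β) (lcG b β (Ψ η)))| ∂(law μ) ≤
      ∫ η, E'.ev (w η) (fun y => |d.insR b (farF χ2 S2 c2 N η) (Ψ η) y|) ∂(law μ) :=
    sum_int_ins d b (A := fun η β => farF χ2 S2 c2 N η β) mR2 bR2 hΨ hw
  have s4 : ∑ β : ι → B, ∫ η, |E'.ev (w η) (d.ins (T2 η) (lcG b β (Dg b χ1 S1 c1 Ψ1 η)))| ∂(law μ) ≤
      ∫ η, E'.ev (w η) (fun y => |d.ins (T2 η) (Dg b χ1 S1 c1 Ψ1 η) y|) ∂(law μ) :=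
    sum_int_ins d b (A := fun η _ => T2 η) (fun _ => hT2) (fun η _ y => hτ2 η y) oG1 hw
  have k2 := (Finset.abs_sum_le_sum_abs (fun β : ι → B => ∫ η, E2.ev (w η) (d'.ins (Cf S1 (H41.cut (χ1 β) c1) N η)
    (d.ins (T2 η) (lcG b β (Ψ η)))) ∂(law μ)) univ).trans (Finset.sum_le_sum fun β _ => k1 β)
  simp only [Finset.sum_add_distrib, Finset.sum_const, Finset.card_univ, nsmul_eq_mul, ← Finset.mul_sum] at k2
  rw [s1] at k2
  have k3 := int_abs_ev_le (μ := μ) oF E2 hw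
  have t2' := mul_le_mul_of_nonneg_left s2 ha1
  have t3' := mul_le_mul_of_nonneg_left s3 ha1
  refine (abs_add_le _ _).trans ?_
  refine (add_le_add (abs_add_le _ _) le_rfl).trans ?_
  linarith

end Two

end

end Pool.W7d29a1.C0.R63
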