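import Pool.Agent.W_7d29a1_C0.CutG59
import Pool.Agent.W_7d29a1_C0.MicE14
import Pool.Agent.W_7d29a1_C0.DGam14
import Pool.Agent.W_7d29a1_C0.Two63B

/-!
MP_7d29a1_pr, [CURV0] (helper59), section E2: THE DATA OF THE ROW AT FIXED SIGNS. Weights `wj (η, A) t`, kick `gg b0`, exact response
`ge` (= `gam` of `DGam14`), the two parts `pR`, `pL` of `CutG59`: slab data (`wt_row59`), blindness (`bl_g59`, `bl_f59`), observables
(`obs_pR59`, `obs_pL59`), site derivatives (`sd_pR59`, `sd_pL59`) and their bounds, the path functionals of the fields of `FldP63` are the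
slab averages `Cq` of `MicE14` (`cf_Cq59`, `cb_Cq59`), the mean over the signs (`fE2_av59`).
-/

set_option autoImplicit false
set_option linter.unusedSectionVars false

namespace Pool.Agent.W_7d29a1_C0.E2Q59

open Finset MeasureTheory Pool.Agent.W_7d29a1_F Pool.Agent.W_7d29a1_X Pool.Agent.W_7d29a1_H
open Pool.Agent.W_7d29a1_C0 Pool.Agent.W_7d29a1_C0.Mod92 Pool.Agent.W_7d29a1_C0.Swap57 Pool.Agent.W_7d29a1_C0.NM82
open Pool.Agent.W_7d29a1_C0.Base5 Pool.Agent.W_7d29a1_C0.CrA44 Pool.Agent.W_7d29a1_C0.CutF59 Pool.Agent.W_7d29a1_C0.CutG59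
open Pool.Agent.W_7d29a1_C0.CutE14 (P3 psi psR psL)
open Pool.Agent.W_7d29a1_C0.DGam14 (gam gamD sd_psR sd_psL abs_gamD_le_of meas_gamD meas_gam)
open Pool.Agent.W_7d29a1_C0.MicE14 (Cq)
open Pool.Agent.W_7d29a1_C0.Blk18 (Full full_Pn)
open Pool.Agent.W_7d29a1_C0.FP63
open Pool.Agent.W_7d29a1_C0.E1M82 (rk_cls Gd AvA AvA_add abs_AvA_le XM_pt past_XM)
open Pool.W7d29a1.C0
open Pool.W7d29a1.C0.VT31
open Pool.W7d29a1.C0.I52 (Plan ker av KS)
open Pool.W7d29a1.C0.H19 (Cf)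
open Pool.W7d29a1.C0.H41 (Wt Obs Ev Dr meas_ev abs_ev_le_of)
open Pool.W7d29a1.C0.R63 (Sd Bl)

noncomputable section

variable {μ : Measure ℝ} {s : ℝ} {N : ℕ} {δ B : ℝ} {b0 b σ j : ℕ} {A : Finset ℕ}

/-! ### Slabs, blindness -/

section gen

variable {Q : Finset (Finset ℕ)}

theorem cast59 {r u v : ℕ} {z : ℤ} (h : r ≤ u ∨ v < r) : (((r : ℤ), z) : Pt).1 ≤ (u : ℤ) ∨ (v : ℤ) < (((r : ℤ), z) : Pt).1 := by
  show (r : ℤ) ≤ (u : ℤ) ∨ (v : ℤ) < (r : ℤ)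
  exact_mod_cast h

/-- The slab data of the row, slabs off the window of the kick. -/
theorem wt_row59 (hB : 0 ≤ B) (δ : ℝ) (b0 j : ℕ) (A : Finset ℕ) (t : ℝ) {J : Finset ℕ} (hJ : ∀ r ∈ J, r ≤ j - b0 ∨ j + b0 < r) :
    Wt (sS J N) (fun η => wj μ s N Q δ B b0 j (η, A) t) (nq N) 1 := by
  refine Wt_wt hB δ b0 j (abs_sg A j).le t fun p hp => ?_
  obtain ⟨r, hr, z, _, rfl⟩ := mem_sS.1 hp
  exact cast59 (hJ r hr)

theorem wt_lw59 (J : Finset ℕ) : Wt (sS J N) (fun η => lw μ s η N Q) (nq N) 1 := by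
  have h := Wt_lw (μ := μ) (s := s) (N := N) (Q := Q) (S := sS J N) (A := fun _ => 0) measurable_const fun _ _ _ _ => rfl
  simpa only [add_zero] using h

theorem meas_g59 (δ B : ℝ) (b0 j : ℕ) (A : Finset ℕ) : Measurable fun η => gg μ s Q δ B b0 (η, A) j :=
  measurable_pi_lambda _ fun S => meas_gj δ B b0 j (sg A j) S

theorem bl_g59 (hB : 0 ≤ B) (δ : ℝ) (b0 j : ℕ) (A : Finset ℕ) {J : Finset ℕ} (hJ : ∀ r ∈ J, r ≤ j - b0 ∨ j + b0 < r) :
    Bl (sS J N) fun η => gg μ s Q δ B b0 (η, A) j := by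
  intro p hp η x
  obtain ⟨r, hr, z, _, rfl⟩ := mem_sS.1 hp
  funext S
  have h := (wf_gf (μ := μ) (s := s) hB δ b0 j (abs_sg A j).le).blind η ((r : ℤ), (z : ℤ)) x (cast59 (hJ r hr))
  exact congrFun h (ps S)

end gen

variable {y : ℕ} {c e d : ℕ} {D : ℝ} {f : Fam N}

theorem meas_f59 (hf : Cls59 N c d D f) (y : ℕ) (A : Finset ℕ) : Measurable fun η => f y (η, A) :=
  measurable_pi_lambda _ fun S => (hf.meas y S).comp measurable_prodMk_right

theorem bl_f59 (hf : Cls59 N c d D f) (y : ℕ) (A : Finset ℕ) {J : Finset ℕ} (hJ : ∀ r ∈ J, 0 < r ∧ r ≤ d) :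
    Bl (sS J N) fun η => f y (η, A) := by
  intro p hp η x
  obtain ⟨r, hr, z, _, rfl⟩ := mem_sS.1 hp
  funext S
  exact hf.env y η A S r z x (by exact_mod_cast (hJ r hr).1) (by exact_mod_cast (hJ r hr).2)

/-! ### The exact response -/

section resp

variable [Nonempty (Px (Pn N y))]

/-- The exact response is the smooth half response of `DGam14`. -/
theorem ge_gam (ω : Env × Finset ℕ) : ge μ s N (Pn N y) δ B b0 b ω j =
    gam (lw μ s ω.1 N (Pn N y)) (gg μ s (Pn N y) δ B b0 ω j) (sg ω.2 j : ℤ) (pW b j) := by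
  funext S
  unfold ge gam
  rw [gb81_apply]
  unfold Mc
  congr 1
  refine intervalIntegral.integral_congr fun t _ => ?_
  simp only [w5_add]
  rfl

theorem meas_ge59 (δ B : ℝ) (b0 b j : ℕ) (A : Finset ℕ) : Measurable fun η => ge μ s N (Pn N y) δ B b0 b (η, A) j := by
  refine measurable_pi_lambda _ fun S => ?_
  have h := meas_gam (Ω := Env) (w := fun η => lw μ s η N (Pn N y)) (g := fun η => gg μ s (Pn N y) δ B b0 (η, A) j)
    (a := fun _ => ((sg A j : ℤ) : ℝ)) (fun x => meas_lw x) (fun x => meas_gj δ B b0 j (sg A j) x) measurable_const (pW b j) S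
  have e : (fun η => ge μ s N (Pn N y) δ B b0 b (η, A) j S) =
      fun η => gam (lw μ s η N (Pn N y)) (gg μ s (Pn N y) δ B b0 (η, A) j) ((sg A j : ℤ) : ℝ) (pW b j) S := by
    funext η
    rw [ge_gam]
  rw [e]
  exact h

theorem abs_ge59 (hB : 0 ≤ B) (ω : Env × Finset ℕ) (S : Px (Pn N y)) : |ge μ s N (Pn N y) δ B b0 b ω j S| ≤ B / 2 := by
  unfold ge
  exact E1M82.abs_gb82 _ _ (abs_gg hB b0 ω j) S

end resp

/-! ### The observables -/

section obs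

variable {Q : Finset (Finset ℕ)} {γ g F : Env → Px Q → ℝ} {Mγ Mg MF : ℝ} {be wr wl al : ℕ}

theorem NI_le_one (m u : ℕ) (S S' : Px Q) : NI m u S S' ≤ 1 := by
  unfold NI
  split_ifs
  · exact le_rfl
  · exact zero_le_one

theorem abs_tie59 {F : Px Q → ℝ} (hF : ∀ S, |F S| ≤ MF) (S S' : Px Q) : |(F S - F S') * NI e c S S'| ≤ 2 * MF := by
  have h1 : |F S - F S'| ≤ 2 * MF := (abs_sub _ _).trans (by linarith [hF S, hF S'])
  have h2 : |NI e c S S'| ≤ 1 := by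
    rw [abs_of_nonneg (NI_nonneg _ _ _ _)]
    exact NI_le_one _ _ _ _
  rw [abs_mul]
  calc |F S - F S'| * |NI e c S S'| ≤ 2 * MF * 1 := mul_le_mul h1 h2 (abs_nonneg _) ((abs_nonneg _).trans h1)
    _ = 2 * MF := mul_one _

theorem psRF_eq (γ g F : Px Q → ℝ) (x : Fin 3 → Px Q) :
    psRF be wr e c γ g F x = psR be wr γ g F x * NI e c (x 2) (x 0) := by
  unfold psRF
  rw [psR_eq]
  ring

theorem psLF_eq (γ g F : Px Q → ℝ) (x : Fin 3 → Px Q) :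
    psLF wl al be wr e c γ g F x = psL wl al be wr γ g F x * NI e c (x 2) (x 0) := by
  unfold psLF
  rw [psL_eq]
  ring

theorem meas_pR59 (mγ : Measurable γ) (mg : Measurable g) (S T : Px Q) : Measurable fun η => pR59 be wr (γ η) (g η) S T := by
  have h1 := ((measurable_pi_apply S).comp mγ).sub ((measurable_pi_apply T).comp mγ)
  have h2 := ((measurable_pi_apply S).comp mg).sub ((measurable_pi_apply T).comp mg)
  unfold pR59
  split_ifs
  · exact measurable_const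
  · exact (h1.const_mul (1 / 2)).mul h2

theorem meas_pL59 (mγ : Measurable γ) (mg : Measurable g) (S T : Px Q) :
    Measurable fun η => pL59 wl al be wr (γ η) (g η) S T := by
  have h1 := ((measurable_pi_apply S).comp mγ).sub ((measurable_pi_apply T).comp mγ)
  have h2 := ((measurable_pi_apply S).comp mg).sub ((measurable_pi_apply T).comp mg)
  unfold pL59
  split_ifs
  · exact (h1.const_mul (1 / 2)).mul h2
  · exact measurable_const

theorem meas_tie59 (mF : Measurable F) (e c : ℕ) (S S' : Px Q) : Measurable fun η => (F η S - F η S') * NI e c S S' :=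
  (((measurable_pi_apply S).comp mF).sub ((measurable_pi_apply S').comp mF)).mul_const _

theorem abs_psRF_le {γ g F : Px Q → ℝ} (bγ : ∀ S, |γ S| ≤ Mγ) (bg : ∀ S, |g S| ≤ Mg) (bF : ∀ S, |F S| ≤ MF) (x : Fin 3 → Px Q) :
    |psRF be wr e c γ g F x| ≤ 2 * Mγ * Mg * (2 * MF) := by
  have h1 := abs_pR59_le (be := be) (d := wr) bγ bg (x 2) (x 1)
  have h3 : 0 ≤ 2 * Mγ * Mg := by
    have a := (abs_nonneg _).trans (bγ (x 0))
    have b := (abs_nonneg _).trans (bg (x 0))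
    positivity
  have h4 : |pR59 be wr γ g (x 2) (x 1)| ≤ 2 * Mγ * Mg :=
    h1.trans (mul_le_of_le_one_right h3 (NI_le_one _ _ _ _))
  unfold psRF
  rw [abs_mul]
  exact mul_le_mul h4 (abs_tie59 bF _ _) (abs_nonneg _) h3

theorem abs_psLF_le {γ g F : Px Q → ℝ} (bγ : ∀ S, |γ S| ≤ Mγ) (bg : ∀ S, |g S| ≤ Mg) (bF : ∀ S, |F S| ≤ MF) (x : Fin 3 → Px Q) :
    |psLF wl al be wr e c γ g F x| ≤ 2 * Mγ * Mg * (2 * MF) := by
  have h1 := abs_pL59_le (wl := wl) (al := al) (be := be) (d := wr) bγ bg (x 2) (x 1)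
  have h3 : 0 ≤ 2 * Mγ * Mg := by
    have a := (abs_nonneg _).trans (bγ (x 0))
    have b := (abs_nonneg _).trans (bg (x 0))
    positivity
  have h4 : |pL59 wl al be wr γ g (x 2) (x 1)| ≤ 2 * Mγ * Mg :=
    h1.trans (mul_le_of_le_one_right h3 (NI_le_one _ _ _ _))
  unfold psLF
  rw [abs_mul]
  exact mul_le_mul h4 (abs_tie59 bF _ _) (abs_nonneg _) h3

theorem obs_psRF (mγ : Measurable γ) (mg : Measurable g) (mF : Measurable F) (bγ : ∀ η S, |γ η S| ≤ Mγ)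
    (bg : ∀ η S, |g η S| ≤ Mg) (bF : ∀ η S, |F η S| ≤ MF) :
    Obs (fun η => psRF be wr e c (γ η) (g η) (F η)) (2 * Mγ * Mg * (2 * MF)) where
  meas := measurable_pi_lambda _ fun x => (meas_pR59 mγ mg (x 2) (x 1)).mul (meas_tie59 mF e c (x 2) (x 0))
  bd η x := abs_psRF_le (bγ η) (bg η) (bF η) x

theorem obs_psLF (mγ : Measurable γ) (mg : Measurable g) (mF : Measurable F) (bγ : ∀ η S, |γ η S| ≤ Mγ)
    (bg : ∀ η S, |g η S| ≤ Mg) (bF : ∀ η S, |F η S| ≤ MF) :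
    Obs (fun η => psLF wl al be wr e c (γ η) (g η) (F η)) (2 * Mγ * Mg * (2 * MF)) where
  meas := measurable_pi_lambda _ fun x => (meas_pL59 mγ mg (x 2) (x 1)).mul (meas_tie59 mF e c (x 2) (x 0))
  bd η x := abs_psLF_le (bγ η) (bg η) (bF η) x

variable [Nonempty (Px Q)] {Y : Type*} [DecidableEq Y] {S : Finset Pt} {w : Env → Px Q → ℝ} {n : Pt → Px Q → ℝ} {V : ℝ}
  {T : Env → Px Q → ℝ}

/-- **The site derivatives of `psRF` with `γ = gam`.** -/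
theorem sd_psRF (hw : Wt S w n V) (hT : Bl S T) (hF : Bl S F) (a : ℝ) (p : Px Q → Y) (be wr e c : ℕ) :
    Sd S (fun η => psRF be wr e c (gam (w η) (T η) a p) (T η) (F η))
      (fun q η => psRF be wr e c (gamD (w η) (T η) (n q) a p) (T η) (F η)) := by
  intro q hq η x z
  simp only [psRF_eq]
  exact (sd_psR hw hT hF a p be wr q hq η x z).mul_const _

/-- **The site derivatives of `psLF` with `γ = gam`.** -/
theorem sd_psLF (hw : Wt S w n V) (hT : Bl S T) (hF : Bl S F) (a : ℝ) (p : Px Q → Y) (wl al be wr e c : ℕ) :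
    Sd S (fun η => psLF wl al be wr e c (gam (w η) (T η) a p) (T η) (F η))
      (fun q η => psLF wl al be wr e c (gamD (w η) (T η) (n q) a p) (T η) (F η)) := by
  intro q hq η x z
  simp only [psLF_eq]
  exact (sd_psL hw hT hF a p wl al be wr q hq η x z).mul_const _

end obs

/-! ### The two parts of the row -/

section row

variable [Nonempty (Px (Pn N y))] {h : ℕ}

theorem obs_pR59 (hB : 0 ≤ B) (hf : Cls59 N c d D f) (b0 h b j e : ℕ) (A : Finset ℕ) :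
    Obs (fun η => pR μ s N δ B b0 h b j e d f y (η, A)) (2 * (B / 2) * (B / 2) * (2 * D)) :=
  obs_psRF (meas_ge59 δ B b0 b j A) (meas_g59 δ B b0 j A) (meas_f59 hf y A) (fun η => abs_ge59 hB (η, A))
    (fun η => abs_gg hB b0 (η, A) j) fun η => hf.bdd y (η, A)

theorem obs_pL59 (hB : 0 ≤ B) (hf : Cls59 N c d D f) (b0 h b j e : ℕ) (A : Finset ℕ) :
    Obs (fun η => pL μ s N δ B b0 h b j e d f y (η, A)) (2 * (B / 2) * (B / 2) * (2 * D)) :=
  obs_psLF (meas_ge59 δ B b0 b j A) (meas_g59 δ B b0 j A) (meas_f59 hf y A) (fun η => abs_ge59 hB (η, A))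
    (fun η => abs_gg hB b0 (η, A) j) fun η => hf.bdd y (η, A)

/-- The derivative of the exact response along a site. -/
def gD (μ : Measure ℝ) (s : ℝ) (N : ℕ) (δ B : ℝ) (b0 b j y : ℕ) (n : Px (Pn N y) → ℝ) (ω : Env × Finset ℕ) : Px (Pn N y) → ℝ :=
  gamD (lw μ s ω.1 N (Pn N y)) (gg μ s (Pn N y) δ B b0 ω j) n ((sg ω.2 j : ℤ) : ℝ) (pW b j)

theorem meas_gD59 (δ B : ℝ) (b0 b j : ℕ) (n : Px (Pn N y) → ℝ) (A : Finset ℕ) :
    Measurable fun η => gD μ s N δ B b0 b j y n (η, A) :=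
  measurable_pi_lambda _ fun S => meas_gamD (Ω := Env) (w := fun η => lw μ s η N (Pn N y))
    (g := fun η => gg μ s (Pn N y) δ B b0 (η, A) j) (A := fun _ => n) (a := fun _ => ((sg A j : ℤ) : ℝ)) (fun x => meas_lw x)
    (fun x => meas_gj δ B b0 j (sg A j) x) (fun _ => measurable_const) measurable_const (pW b j) S

theorem abs_gD59 (hB : 0 ≤ B) {n : Px (Pn N y) → ℝ} {K : ℝ} (hn : ∀ S, |n S| ≤ K) (ω : Env × Finset ℕ) (S : Px (Pn N y)) :
    |gD μ s N δ B b0 b j y n ω S| ≤ 2 * (K * (B / 2)) :=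
  abs_gamD_le_of _ hn (abs_gg hB b0 ω j) _ _ S

/-- The site derivative of the right part. -/
def pR' (μ : Measure ℝ) (s : ℝ) (N : ℕ) (δ B : ℝ) (b0 h b j e d : ℕ) (f : Fam N) (y : ℕ) (A : Finset ℕ) (q : Pt) (η : Env) :
    (Fin 3 → Px (Pn N y)) → ℝ :=
  psRF (j + h) (j + b) e d (gD μ s N δ B b0 b j y (nq N q) (η, A)) (gg μ s (Pn N y) δ B b0 (η, A) j) (f y (η, A))

/-- The site derivative of the left part. -/
def pL' (μ : Measure ℝ) (s : ℝ) (N : ℕ) (δ B : ℝ) (b0 h b j e d : ℕ) (f : Fam N) (y : ℕ) (A : Finset ℕ) (q : Pt) (η : Env) :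
    (Fin 3 → Px (Pn N y)) → ℝ :=
  psLF (j - b) (j - h) (j + h) (j + b) e d (gD μ s N δ B b0 b j y (nq N q) (η, A)) (gg μ s (Pn N y) δ B b0 (η, A) j)
    (f y (η, A))

theorem obs_pR59' (hB : 0 ≤ B) (hf : Cls59 N c d D f) (b0 h b j e : ℕ) (A : Finset ℕ) (q : Pt) :
    Obs (pR' μ s N δ B b0 h b j e d f y A q) (2 * (2 * (1 * (B / 2))) * (B / 2) * (2 * D)) :=
  obs_psRF (meas_gD59 δ B b0 b j (nq N q) A) (meas_g59 δ B b0 j A) (meas_f59 hf y A)
    (fun η => abs_gD59 hB (fun S => abs_nq q S) (η, A)) (fun η => abs_gg hB b0 (η, A) j) fun η => hf.bdd y (η, A)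

theorem obs_pL59' (hB : 0 ≤ B) (hf : Cls59 N c d D f) (b0 h b j e : ℕ) (A : Finset ℕ) (q : Pt) :
    Obs (pL' μ s N δ B b0 h b j e d f y A q) (2 * (2 * (1 * (B / 2))) * (B / 2) * (2 * D)) :=
  obs_psLF (meas_gD59 δ B b0 b j (nq N q) A) (meas_g59 δ B b0 j A) (meas_f59 hf y A)
    (fun η => abs_gD59 hB (fun S => abs_nq q S) (η, A)) (fun η => abs_gg hB b0 (η, A) j) fun η => hf.bdd y (η, A)

/-- **The site derivatives of the right part**, slabs off the window of the kick, in front of the spectator. -/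
theorem sd_pR59 (hB : 0 ≤ B) (hf : Cls59 N c d D f) (b0 h b j e : ℕ) (A : Finset ℕ) {J : Finset ℕ}
    (hJ : ∀ r ∈ J, r ≤ j - b0 ∨ j + b0 < r) (hJd : ∀ r ∈ J, 0 < r ∧ r ≤ d) :
    Sd (sS J N) (fun η => pR μ s N δ B b0 h b j e d f y (η, A)) (pR' μ s N δ B b0 h b j e d f y A) := by
  have h1 := sd_psRF (wt_lw59 (μ := μ) (s := s) (Q := Pn N y) J) (bl_g59 (μ := μ) (s := s) (Q := Pn N y) hB δ b0 j A hJ)
    (bl_f59 hf y A hJd) ((sg A j : ℤ) : ℝ) (pW b j) (j + h) (j + b) e d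
  have e1 : (fun η => pR μ s N δ B b0 h b j e d f y (η, A)) = fun η => psRF (j + h) (j + b) e d
      (gam (lw μ s η N (Pn N y)) (gg μ s (Pn N y) δ B b0 (η, A) j) ((sg A j : ℤ) : ℝ) (pW b j))
      (gg μ s (Pn N y) δ B b0 (η, A) j) (f y (η, A)) := by
    funext η
    unfold pR
    rw [ge_gam]
  rw [e1]
  exact h1

/-- **The site derivatives of the left part.** -/
theorem sd_pL59 (hB : 0 ≤ B) (hf : Cls59 N c d D f) (b0 h b j e : ℕ) (A : Finset ℕ) {J : Finset ℕ}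
    (hJ : ∀ r ∈ J, r ≤ j - b0 ∨ j + b0 < r) (hJd : ∀ r ∈ J, 0 < r ∧ r ≤ d) :
    Sd (sS J N) (fun η => pL μ s N δ B b0 h b j e d f y (η, A)) (pL' μ s N δ B b0 h b j e d f y A) := by
  have h1 := sd_psLF (wt_lw59 (μ := μ) (s := s) (Q := Pn N y) J) (bl_g59 (μ := μ) (s := s) (Q := Pn N y) hB δ b0 j A hJ)
    (bl_f59 hf y A hJd) ((sg A j : ℤ) : ℝ) (pW b j) (j - b) (j - h) (j + h) (j + b) e d
  have e1 : (fun η => pL μ s N δ B b0 h b j e d f y (η, A)) = fun η => psLF (j - b) (j - h) (j + h) (j + b) e d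
      (gam (lw μ s η N (Pn N y)) (gg μ s (Pn N y) δ B b0 (η, A) j) ((sg A j : ℤ) : ℝ) (pW b j))
      (gg μ s (Pn N y) δ B b0 (η, A) j) (f y (η, A)) := by
    funext η
    unfold pL
    rw [ge_gam]
  rw [e1]
  exact h1

end row

/-! ### The fields are the slab averages -/

section fields

/-- **Forward**: everything behind the rows of the slab is given. -/
theorem cf_Cq59 {Q : Finset (Finset ℕ)} (hQ : Full N Q) (hB : 0 ≤ B) (δ : ℝ) (b0 j : ℕ) (A : Finset ℕ) (t : ℝ) {J : Finset ℕ}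
    (hJ : ∀ r ∈ J, j + b0 < r ∧ r ≤ N) (η : Env) :
    Cf (sS J N) (cf μ s (tf μ s δ B b0 j (sg A j) t) (gf μ s δ B b0 j (sg A j)) 0 0 J) (nq N) η =
      Cq (wj μ s N Q δ B b0 j (η, A) t) J (pJ 0) (gg μ s Q δ B b0 (η, A) j) := by
  funext S
  have h := Cf_wt (μ := μ) (s := s) (c := 0) hB δ b0 j (abs_sg A j).le t hQ (Nat.zero_le _) hJ η S
  rw [ps_zero] at h
  exact h

/-- **Backward**: everything in front of the rows of the slab is given. -/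
theorem cb_Cq59 (hB : 0 ≤ B) (δ : ℝ) (b0 j : ℕ) (A : Finset ℕ) (t : ℝ) {J : Finset ℕ} (hjN : j + b0 ≤ N)
    (hJ : ∀ r ∈ J, 1 ≤ r ∧ r ≤ j - b0) (y : ℕ) (η : Env) :
    Cf (sS J N) (cb μ s (tf μ s δ B b0 j (sg A j) t) (gf μ s δ B b0 j (sg A j)) N (y : ℤ) J) (nq N) η =
      Cq (wj μ s N (Pn N y) δ B b0 j (η, A) t) J (fun m => pJ m N) (gg μ s (Pn N y) δ B b0 (η, A) j) := by
  funext S
  have h := Cf_wt_back (μ := μ) (s := s) (d := N) hB δ b0 j (abs_sg A j).le t (full_Pn N y) hjN le_rfl hJ η S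
  rw [ps_Pn] at h
  exact h

end fields

/-! ### The mean over the signs -/

section signs

variable [Nonempty (Px (Pn N y))] {h : ℕ}

theorem gd_ev59 {X ι : Type*} [Fintype X] [Fintype ι] [DecidableEq ι] (E : Ev X ι) {w : Env × Finset ℕ → X → ℝ}
    (hw : ∀ A, Measurable fun η => w (η, A)) {Ψ : Env × Finset ℕ → (ι → X) → ℝ} {K : ℝ} (hΨ : ∀ A, Obs (fun η => Ψ (η, A)) K) :
    Gd fun ω => E.ev (w ω) (Ψ ω) where
  ms A := meas_ev E (hw A) (hΨ A).meas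
  bd := ⟨K, fun ω => abs_ev_le_of E (w ω) fun x => (hΨ ω.2).bd ω.1 x⟩

theorem meas_w59 (hB : 0 ≤ B) (δ : ℝ) (b0 j : ℕ) (t : ℝ) (A : Finset ℕ) :
    Measurable fun η => wj μ s N (Pn N y) δ B b0 j (η, A) t := (wt_row59 (N := N) hB δ b0 j A t (J := ∅) (by simp)).meas

/-- The double insertion of the right part. -/
def vR (μ : Measure ℝ) (s : ℝ) (N : ℕ) (δ B : ℝ) (b0 h b σ j e d : ℕ) (f : Fam N) (t : ℝ) (y : ℕ)
    [Nonempty (Px (Pn N y))] (ω : Env × Finset ℕ) : ℝ :=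
  (P3 (pS σ j)).ks.dbl.dbl.toEv.ev (wj μ s N (Pn N y) δ B b0 j ω t) ((P3 (pS σ j)).ks.dbl.dr.ins (gg μ s (Pn N y) δ B b0 ω j)
    ((P3 (pS σ j)).ks.dr.ins (gg μ s (Pn N y) δ B b0 ω j) (pR μ s N δ B b0 h b j e d f y ω)))

/-- The double insertion of the left part. -/
def vL (μ : Measure ℝ) (s : ℝ) (N : ℕ) (δ B : ℝ) (b0 h b σ j e d : ℕ) (f : Fam N) (t : ℝ) (y : ℕ)
    [Nonempty (Px (Pn N y))] (ω : Env × Finset ℕ) : ℝ :=
  (P3 (pS σ j)).ks.dbl.dbl.toEv.ev (wj μ s N (Pn N y) δ B b0 j ω t) ((P3 (pS σ j)).ks.dbl.dr.ins (gg μ s (Pn N y) δ B b0 ω j)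
    ((P3 (pS σ j)).ks.dr.ins (gg μ s (Pn N y) δ B b0 ω j) (pL μ s N δ B b0 h b j e d f y ω)))

theorem gd_vR (hB : 0 ≤ B) (hf : Cls59 N c d D f) (b0 h b σ j e : ℕ) (t : ℝ) :
    Gd (vR μ s N δ B b0 h b σ j e d f t y) :=
  gd_ev59 (P3 (pS σ j)).ks.dbl.dbl.toEv (w := fun ω => wj μ s N (Pn N y) δ B b0 j ω t)
    (Ψ := fun ω => (P3 (pS σ j)).ks.dbl.dr.ins (gg μ s (Pn N y) δ B b0 ω j)
      ((P3 (pS σ j)).ks.dr.ins (gg μ s (Pn N y) δ B b0 ω j) (pR μ s N δ B b0 h b j e d f y ω))) (meas_w59 hB δ b0 j t)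
    fun A => ((obs_pR59 hB hf b0 h b j e A).ins (P3 (pS σ j)).ks.dr (meas_g59 δ B b0 j A)
      fun η => abs_gg hB b0 (η, A) j).ins (P3 (pS σ j)).ks.dbl.dr (meas_g59 δ B b0 j A) fun η => abs_gg hB b0 (η, A) j

theorem gd_vL (hB : 0 ≤ B) (hf : Cls59 N c d D f) (b0 h b σ j e : ℕ) (t : ℝ) :
    Gd (vL μ s N δ B b0 h b σ j e d f t y) :=
  gd_ev59 (P3 (pS σ j)).ks.dbl.dbl.toEv (w := fun ω => wj μ s N (Pn N y) δ B b0 j ω t)
    (Ψ := fun ω => (P3 (pS σ j)).ks.dbl.dr.ins (gg μ s (Pn N y) δ B b0 ω j)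
      ((P3 (pS σ j)).ks.dr.ins (gg μ s (Pn N y) δ B b0 ω j) (pL μ s N δ B b0 h b j e d f y ω))) (meas_w59 hB δ b0 j t)
    fun A => ((obs_pL59 hB hf b0 h b j e A).ins (P3 (pS σ j)).ks.dr (meas_g59 δ B b0 j A)
      fun η => abs_gg hB b0 (η, A) j).ins (P3 (pS σ j)).ks.dbl.dr (meas_g59 δ B b0 j A) fun η => abs_gg hB b0 (η, A) j

theorem Gd.add59 {Φ Ψ : Env × Finset ℕ → ℝ} (h1 : Gd Φ) (h2 : Gd Ψ) : Gd fun ω => Φ ω + Ψ ω where
  ms A := (h1.ms A).add (h2.ms A)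
  bd := by
    obtain ⟨K, hK⟩ := h1.bd
    obtain ⟨L, hL⟩ := h2.bd
    exact ⟨K + L, fun ω => (abs_add_le _ _).trans (add_le_add (hK ω) (hL ω))⟩

/-- **(E2) OF THE ROW, AT FIXED SIGNS.** -/
theorem fE2_av59 [IsProbabilityMeasure μ] (hB : 0 ≤ B) (X : Geo59 N b0 h b σ j e d) (hf : Cls59 N c d D f) (t : ℝ) :
    fE2 μ s N δ B b0 b σ f t y j = AvA N (fun A => ∫ η, vR μ s N δ B b0 h b σ j e d f t y (η, A) ∂(law μ)) +
      AvA N fun A => ∫ η, vL μ s N δ B b0 h b σ j e d f t y (η, A) ∂(law μ) := by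
  rw [fE2_eq59 hB X hf t]
  have e1 := (Gd.add59 (gd_vR (μ := μ) (s := s) (δ := δ) (y := y) hB hf b0 h b σ j e t)
    (gd_vL (μ := μ) (s := s) (δ := δ) (y := y) hB hf b0 h b σ j e t)).av (μ := μ) (N := N)
  refine Eq.trans e1 ?_
  rw [← AvA_add]
  congr 1
  funext A
  exact integral_add ((gd_vR (μ := μ) (s := s) (δ := δ) (y := y) hB hf b0 h b σ j e t).int A)
    ((gd_vL (μ := μ) (s := s) (δ := δ) (y := y) hB hf b0 h b σ j e t).int A)

/-- The bound of (E2) from the bounds at fixed signs. -/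
theorem abs_fE2_le59 [IsProbabilityMeasure μ] (hB : 0 ≤ B) (X : Geo59 N b0 h b σ j e d) (hf : Cls59 N c d D f) (t : ℝ)
    {KR KL : Finset ℕ → ℝ} (hR : ∀ A, |∫ η, vR μ s N δ B b0 h b σ j e d f t y (η, A) ∂(law μ)| ≤ KR A)
    (hL : ∀ A, |∫ η, vL μ s N δ B b0 h b σ j e d f t y (η, A) ∂(law μ)| ≤ KL A) :
    |fE2 μ s N δ B b0 b σ f t y j| ≤ AvA N KR + AvA N KL := by
  rw [fE2_av59 (μ := μ) hB X hf t]
  exact (abs_add_le _ _).trans (add_le_add (abs_AvA_le hR) (abs_AvA_le hL))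

end signs

end

end Pool.Agent.W_7d29a1_C0.E2Q59
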