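import Pool.Agent.W_7d29a1_C0.PrL86
import Pool.Agent.W_7d29a1_C0.Tg93
import Pool.Agent.W_7d29a1_C0.Cor45B

/-!
STORM C0, leaf E2 (helper39): THE TWO-ROW PRICES OF E2 AT THE CORNER, first part: the frame.

* `dom_ev`, `dom_nta`, `dom_rp`, `dom_rpM`: the events of the base path (own mass, alternatives of the path) are dominated by places
  (`Dom` of helper86); `dom_out` the tie of the spectator.
* `Dom.split` : a mass which is covered by finitely many places; `gap_cutR`, `gap_cutL` : the cut of a gap at a row.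
* `prices39` : `price_one` for all lists of length at most six, one set of constants.
* `pair39` : the product price `pr2` of two rows from a finite sum of lists of places.
* `rows39` : the row sum, from the pair prices, in the form of the majorants of `Cor45B` (`PP wm (U_j x * rh zf c f x x')`).
-/

set_option autoImplicit false
set_option linter.unusedSectionVars false
set_option linter.unusedVariables false

namespace Pool.Agent.W_7d29a1_C0.E2S39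

open MeasureTheory ProbabilityTheory Filter Topology Finset
open Pool.Agent.W_7d29a1_F Pool.Agent.W_7d29a1_X Pool.Agent.W_7d29a1_h4g Pool.Agent.W_7d29a1_H
open Pool.Agent.W_7d29a1_HS (In wd md)
open Pool.Agent.W_7d29a1_HZ Pool.Agent.W_7d29a1_HZ.R72 Pool.Agent.W_7d29a1_Z.Asm72
open Pool.Agent.W_7d29a1_HZ.Z86
open Pool.Agent.W_7d29a1_C0.P86
open Pool.Agent.W_7d29a1_C0.Mod92
open Pool.Agent.W_7d29a1_C0.Swap57 (NI cE2 NI_nonneg)
open Pool.Agent.W_7d29a1_C0.CutT57 (NI_le_one)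
open Pool.Agent.W_7d29a1_C0.MicE14 (rh rh_nonneg)
open Pool.Agent.W_7d29a1_C0.T72 (ind72 meas_ind72)
open Pool.Agent.W_7d29a1_C0.T93 (rdist Fam2 pr2 rw2 grp93)
open Pool.Agent.W_7d29a1_C0.EvT50 (RpM)
open Pool.W7d29a1.C0 (gz gm gz_pos gm_nonneg gm_mono gm_const PP PP_mono PP_nonneg)
open Pool.W7d29a1.C0.VT31 (Mp cE gc gv gv_nonneg gm_mul_cE fz cE_sum cE_nonneg cE_mono)
open Pool.W7d29a1.C0.R43
open Pool.W7d29a1.C0.C45 (meas_PP45)
open scoped ENNReal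

noncomputable section

variable {μ : Measure ℝ} {s : ℝ} {N : ℕ}

/-! ### Events and places -/

theorem i0 {Q : Finset (Finset ℕ)} (T : Env × Finset ℕ → Px Q → Prop) (ω : Env × Finset ℕ) (S : Px Q) : 0 ≤ ind72 T ω S := by
  unfold ind72
  split_ifs <;> norm_num

theorem i1 {Q : Finset (Finset ℕ)} (T : Env × Finset ℕ → Px Q → Prop) (ω : Env × Finset ℕ) (S : Px Q) : ind72 T ω S ≤ 1 := by
  unfold ind72
  split_ifs <;> norm_num

theorem of_ind {Q : Finset (Finset ℕ)} {T : Env × Finset ℕ → Px Q → Prop} {ω : Env × Finset ℕ} {S : Px Q} (h : ind72 T ω S ≠ 0) :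
    T ω S := by
  by_contra hc
  exact h (if_neg hc)

section Dm

variable {y : ℕ} {X M : ℝ}

/-- A larger amplification. -/
theorem Dom.mono {p : Plc} {G : Env × Finset ℕ → Px (Pn N y) → ℝ} {X' : ℝ} (h : Dom μ s N y X M p G) (hX : X ≤ X') :
    Dom μ s N y X' M p G := by
  refine ⟨h.1, h.2.1, ?_⟩
  rcases h.2.2 with ⟨hT, A, n₁, u, v, h1, h2, h3, h4⟩ | g
  · refine Or.inl ⟨hT, A, n₁, u, v, h1.trans hX, h2, h3, fun ω x => (h4 ω x).trans ?_⟩
    refine mul_le_mul_of_nonneg_right (Real.exp_le_exp.2 hX) ?_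
    have h5 := h.1 ω x
    have h6 := (h5.trans (h4 ω x))
    exact nonneg_of_mul_nonneg_right h6 (Real.exp_pos _)
  · exact Or.inr g

/-- **An event of the base path**: in one of the pieces the conditional mass of the paths apart is not small. -/
theorem dom_ev (hX : 0 ≤ X) {c d U V l n₁ : ℕ} {ty : Ty} {u v : ℕ → ℕ} (h0 : c ≤ U) (h1 : V ≤ d) (hn : (n₁ : ℝ) ≤ X)
    (huv : ∀ n < n₁, U ≤ u n ∧ u n + l ≤ v n ∧ v n ≤ V) {G : Env × Finset ℕ → Px (Pn N y) → ℝ} (hG0 : ∀ ω x, 0 ≤ G ω x)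
    (hG1 : ∀ ω x, G ω x ≤ 1)
    (hG : ∀ ω x, G ω x ≠ 0 → ∃ n < n₁, Real.exp (-X) ≤ mI (wm μ s N (Pn N y) ω) (pJ c d) (u n) (v n) x) :
    Dom μ s N y X M ⟨c, d, c, d, U, V, l, ty, False⟩ G := by
  refine ⟨hG0, hG1, Or.inl ⟨fun h => h, fun S S' => ∃ n < n₁, NoMeet (u n) (v n) S S', n₁, u, v, hn, huv,
    fun S S' _ _ _ _ hag hm => ?_, fun ω x => ?_⟩⟩
  · obtain ⟨n, hn1, hn2⟩ := hm
    refine ⟨n, hn1, ?_⟩
    have := huv n hn1
    exact gap_of_nm (by show c ≤ u n; omega) (by show v n ≤ d; omega) hag hn2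
  · have hm0 : 0 ≤ mc μ s N y c d (fun S S' => ∃ n < n₁, NoMeet (u n) (v n) S S') ω.1 x.1 := mc_nonneg _ _
    by_cases hz : G ω x = 0
    · rw [hz]
      exact mul_nonneg (Real.exp_pos _).le hm0
    · obtain ⟨n, hn1, hn2⟩ := hG ω x hz
      have e1 : mI (wm μ s N (Pn N y) ω) (pJ c d) (u n) (v n) x = mc μ s N y c d (NoMeet (u n) (v n)) ω.1 x.1 := mI_mc ω.1 x.2
      have e2 : mc μ s N y c d (NoMeet (u n) (v n)) ω.1 x.1 ≤ mc μ s N y c d (fun S S' => ∃ n < n₁, NoMeet (u n) (v n) S S') ω.1 x.1 :=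
        mc_mono (fun S S' _ _ _ _ _ h => ⟨n, hn1, h⟩) _ _
      rw [e1] at hn2
      calc G ω x ≤ 1 := hG1 ω x
        _ = Real.exp X * Real.exp (-X) := by rw [← Real.exp_add, add_neg_cancel, Real.exp_zero]
        _ ≤ Real.exp X * mc μ s N y c d (fun S S' => ∃ n < n₁, NoMeet (u n) (v n) S S') ω.1 x.1 :=
            mul_le_mul_of_nonneg_left (hn2.trans e2) (Real.exp_pos _).le

/-- The own mass. -/
theorem dom_nta (hX : 1 ≤ X) {c d U V l : ℕ} {ty : Ty} {M₂ : ℝ} (h0 : c ≤ U) (h1 : V ≤ d) (hl : U + l ≤ V) (hM : M₂ ≤ X) :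
    Dom μ s N y X M ⟨c, d, c, d, U, V, l, ty, False⟩ (ind72 fun ω => Nta (wm μ s N (Pn N y) ω) (pJ c d) U V M₂) := by
  refine dom_ev (by linarith) (n₁ := 1) (u := fun _ => U) (v := fun _ => V) h0 h1 (by simpa using hX)
    (fun n _ => ⟨le_rfl, hl, le_rfl⟩) (fun ω x => i0 _ _ _) (fun ω x => i1 _ _ _) fun ω x hG => ?_
  have h2 : Nta (wm μ s N (Pn N y) ω) (pJ c d) U V M₂ x := of_ind hG
  exact ⟨0, by norm_num, (Real.exp_le_exp.2 (by linarith)).trans h2⟩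

/-- The alternatives of the path in one of the pieces. -/
theorem dom_rp (hX : 0 ≤ X) {c d U V τ l q : ℕ} {ty : Ty} {M₂ : ℝ} (h0 : c ≤ U) (h1 : V ≤ d) (hU : U ≤ τ)
    (hV : τ + 3 * q * (l + 1) ≤ V) (hq : (3 * q : ℝ) ≤ X) (hM : 7 * M₂ ≤ X) :
    Dom μ s N y X M ⟨c, d, c, d, U, V, l, ty, False⟩ (ind72 fun ω => Rp (wm μ s N (Pn N y) ω) (pJ c d) τ l q M₂) := by
  refine dom_ev hX (n₁ := 3 * q) (u := fun n => st τ l n) (v := fun n => st τ l n + l) h0 h1 (by push_cast; exact hq)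
    (fun n hn => ?_) (fun ω x => i0 _ _ _) (fun ω x => i1 _ _ _) fun ω x hG => ?_
  · have h2 : (n + 1) * (l + 1) ≤ 3 * q * (l + 1) := Nat.mul_le_mul_right _ hn
    have h3 : (n + 1) * (l + 1) = n * (l + 1) + (l + 1) := by ring
    unfold st
    omega
  · have h2 : Rp (wm μ s N (Pn N y) ω) (pJ c d) τ l q M₂ x := of_ind hG
    obtain ⟨n, hn1, hn2⟩ := h2
    exact ⟨n, hn1, (Real.exp_le_exp.2 (by linarith)).trans hn2.le⟩

/-- The alternatives of the path on one of the two sides of the window of the row `j`. -/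
theorem dom_rpM (hX : 0 ≤ X) {c d b j l q : ℕ} {ty : Ty} {M₂ : ℝ} (h0 : c ≤ j - b) (h1 : j + b ≤ d) (hb : b ≤ j)
    (hV : 3 * q * (l + 1) ≤ b) (hq : (6 * q : ℝ) ≤ X) (hM : 7 * M₂ ≤ X) :
    Dom μ s N y X M ⟨c, d, c, d, j - b, j + b, l, ty, False⟩
      (ind72 fun ω => RpM (wm μ s N (Pn N y) ω) (pJ c d) b j l q M₂) := by
  refine dom_ev hX (n₁ := 6 * q) (u := fun n => if n < 3 * q then st (j - b) l n else st j l (n - 3 * q))
    (v := fun n => if n < 3 * q then st (j - b) l n + l else st j l (n - 3 * q) + l) h0 h1 (by push_cast; exact hq)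
    (fun n hn => ?_) (fun ω x => i0 _ _ _) (fun ω x => i1 _ _ _) fun ω x hG => ?_
  · by_cases hc : n < 3 * q
    · simp only [if_pos hc]
      have h2 : (n + 1) * (l + 1) ≤ 3 * q * (l + 1) := Nat.mul_le_mul_right _ hc
      have h3 : (n + 1) * (l + 1) = n * (l + 1) + (l + 1) := by ring
      unfold st
      omega
    · simp only [if_neg hc]
      obtain ⟨m, hm⟩ : ∃ m, m = n - 3 * q := ⟨_, rfl⟩
      rw [← hm]
      have h2 : (m + 1) * (l + 1) ≤ 3 * q * (l + 1) := Nat.mul_le_mul_right _ (by omega)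
      have h3 : (m + 1) * (l + 1) = m * (l + 1) + (l + 1) := by ring
      unfold st
      omega
  · have h2 : RpM (wm μ s N (Pn N y) ω) (pJ c d) b j l q M₂ x := of_ind hG
    rcases h2 with ⟨n, hn1, hn2⟩ | ⟨n, hn1, hn2⟩
    · refine ⟨n, by omega, ?_⟩
      simp only [if_pos hn1]
      exact (Real.exp_le_exp.2 (by linarith)).trans hn2.le
    · refine ⟨n + 3 * q, by omega, ?_⟩
      rw [if_neg (by omega), if_neg (by omega), Nat.add_sub_cancel]
      exact (Real.exp_le_exp.2 (by linarith)).trans hn2.le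

/-- The spectator: the free replica does not meet the base path on the window. -/
def out39 (μ : Measure ℝ) (s : ℝ) (N y zf c : ℕ) (ω : Env × Finset ℕ) (x : Px (Pn N y)) : ℝ :=
  gm (wm μ s N (Pn N y) ω) (NI zf c x)

theorem pJ_all39 (S : Px (Pn N y)) : pJ 0 N S = (∅, y) := by
  have h := mem_powersetCard.1 S.2
  have h1 : S.1 ∩ Ico 0 N = S.1 := by
    rw [inter_eq_left]
    intro i hi
    rw [mem_Ico]
    exact ⟨Nat.zero_le _, mem_range.1 (h.1 hi)⟩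
  unfold pJ
  rw [h1, h.2, Prod.mk.injEq]
  refine ⟨?_, rfl⟩
  rw [sdiff_eq_empty_iff_subset]
  intro i hi
  rw [mem_Ico]
  exact ⟨Nat.zero_le _, mem_range.1 (h.1 hi)⟩

theorem out_eq39 {zf c : ℕ} (ω : Env × Finset ℕ) (x : Px (Pn N y)) :
    out39 μ s N y zf c ω x = mI (wm μ s N (Pn N y) ω) (pJ 0 N) zf c x := by
  have h : ∀ z : Px (Pn N y), pJ 0 N z = pJ 0 N x := fun z => by rw [pJ_all39, pJ_all39]
  unfold out39 mI cE fz gm gz
  simp only [h, if_true]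

theorem out39_nonneg (zf c : ℕ) (ω : Env × Finset ℕ) (x : Px (Pn N y)) : 0 ≤ out39 μ s N y zf c ω x :=
  have : Nonempty (Px (Pn N y)) := ⟨x⟩
  gm_nonneg _ fun z => NI_nonneg _ _ _ _

theorem out39_le_one (zf c : ℕ) (ω : Env × Finset ℕ) (x : Px (Pn N y)) : out39 μ s N y zf c ω x ≤ 1 := by
  have : Nonempty (Px (Pn N y)) := ⟨x⟩
  exact (gm_mono _ (g := fun _ => 1) fun z => NI_le_one _ _ _ _).trans (gm_const _ _).le

/-- The place of the spectator. -/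
def pout (N zf c : ℕ) : Plc := ⟨0, N, 0, N, zf, c, c - zf, Ty.R, False⟩

theorem dom_out {zf c : ℕ} (hX : 1 ≤ X) (h1 : zf ≤ c) (h2 : c ≤ N) : Dom μ s N y X M (pout N zf c) (out39 μ s N y zf c) := by
  refine dom_mass hX (fun h => h) ?_ rfl rfl ?_ (fun ω x => out39_nonneg _ _ _ _) (fun ω x => out39_le_one _ _ _ _) fun ω x => ?_
  · show 0 ≤ 0 ∧ 0 ≤ zf ∧ zf ≤ c ∧ c ≤ N ∧ N ≤ N
    omega
  · show zf + (c - zf) ≤ c
    omega
  · rw [out_eq39]
    show mI (wm μ s N (Pn N y) ω) (pJ 0 N) zf c x ≤ Real.exp X * mI (wm μ s N (Pn N y) ω) (pJ 0 N) zf c x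
    have : Nonempty (Px (Pn N y)) := ⟨x⟩
    have h3 : 1 ≤ Real.exp X := Real.one_le_exp (by linarith)
    have h4 : 0 ≤ mI (wm μ s N (Pn N y) ω) (pJ 0 N) zf c x := mI_nonneg _ _ _ _ _
    nlinarith

theorem meas_mc39 {c d y : ℕ} (A : Finset ℕ → Finset ℕ → Prop) (S : Finset ℕ) : Measurable fun η : Env => mc μ s N y c d A η S := by
  classical
  unfold mc
  by_cases hS : S ∈ Pn N y
  · simp only [dif_pos hS]
    have : Nonempty (Px (Pn N y)) := ⟨⟨S, hS⟩⟩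
    exact meas_cE (Ω := Env) (X := Px (Pn N y)) (w := fun η => lw μ s η N (Pn N y))
      (f := fun _ S' => if A S S'.1 then (1 : ℝ) else 0) (fun x => meas_lw x) (fun x => measurable_const) (pJ c d) ⟨S, hS⟩
  · simp only [dif_neg hS]
    exact measurable_const

/-! ### The cut of a gap at a row -/

/-- The gap closes before the row `h`, or it goes on up to `h`. -/
theorem gap_cutR {c d u v h : ℕ} {S S' : Finset ℕ} (g : Gap c d u v S S') : Gap c h u v S S' ∨ Gap c d u h S S' := by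
  obtain ⟨a, b', h1, h2, h3, h4, h5, h6, h7⟩ := g
  by_cases hk : ∃ k, v ≤ k ∧ k ≤ h ∧ pos S k = pos S' k
  · obtain ⟨k, k1, k2, k3⟩ := hk
    exact Or.inl ⟨a, k, h1, h2, k1, k2, h5, k3, h7⟩
  · push Not at hk
    have hb : h ≤ b' := by
      by_contra hc
      exact hk b' h3 (by omega) h6
    refine Or.inr ⟨a, b', h1, h2, hb, h4, h5, h6, fun k hk1 hk2 => ?_⟩
    rcases le_total k v with e | e
    · exact h7 k hk1 e
    · exact hk k e hk2

/-- The gap opens behind the row `h`, or it reaches back to `h`. -/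
theorem gap_cutL {c d u v h : ℕ} {S S' : Finset ℕ} (g : Gap c d u v S S') : Gap h d u v S S' ∨ Gap c d h v S S' := by
  obtain ⟨a, b', h1, h2, h3, h4, h5, h6, h7⟩ := g
  by_cases hk : ∃ k, h ≤ k ∧ k ≤ u ∧ pos S k = pos S' k
  · obtain ⟨k, k1, k2, k3⟩ := hk
    exact Or.inl ⟨k, b', k1, k2, h3, h4, k3, h6, h7⟩
  · push Not at hk
    have hb : a ≤ h := by
      by_contra hc
      exact hk a (by omega) h2 h5
    refine Or.inr ⟨a, b', h1, hb, h3, h4, h5, h6, fun k hk1 hk2 => ?_⟩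
    rcases le_total k u with e | e
    · exact hk k hk1 e
    · exact h7 k e hk2

/-- **A mass which is covered by two kinds of gaps** is at most the sum of two functionals, each one dominated by its place. -/
theorem Dom.split {p p₁ p₂ : Plc} {G : Env × Finset ℕ → Px (Pn N y) → ℝ} (h : Dom μ s N y X M p G) (hT : ¬ p.T)
    (h1 : ¬ p₁.T) (h2 : ¬ p₂.T) (c1 : p₁.c = p.c) (d1 : p₁.d = p.d) (c2 : p₂.c = p.c) (d2 : p₂.d = p.d)
    (u₁ v₁ u₂ v₂ : ℕ → ℕ → ℕ)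
    (hw₁ : ∀ u v, p.U ≤ u → u + p.l ≤ v → v ≤ p.V → p₁.U ≤ u₁ u v ∧ u₁ u v + p₁.l ≤ v₁ u v ∧ v₁ u v ≤ p₁.V)
    (hw₂ : ∀ u v, p.U ≤ u → u + p.l ≤ v → v ≤ p.V → p₂.U ≤ u₂ u v ∧ u₂ u v + p₂.l ≤ v₂ u v ∧ v₂ u v ≤ p₂.V)
    (hg : ∀ S S' u v, p.U ≤ u → u + p.l ≤ v → v ≤ p.V → Gap p.c' p.d' u v S S' →
      Gap p₁.c' p₁.d' (u₁ u v) (v₁ u v) S S' ∨ Gap p₂.c' p₂.d' (u₂ u v) (v₂ u v) S S') :
    ∃ G₁ G₂ : Env × Finset ℕ → Px (Pn N y) → ℝ, (Dom μ s N y X M p₁ G₁ ∧ ∀ x, Measurable fun ω => G₁ ω x) ∧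
      (Dom μ s N y X M p₂ G₂ ∧ ∀ x, Measurable fun ω => G₂ ω x) ∧ ∀ ω x, G ω x ≤ G₁ ω x + G₂ ω x := by
  rcases h.2.2 with ⟨-, A, n₁, u, v, k1, k2, k3, k4⟩ | ⟨g, -⟩
  · obtain ⟨A₁, hA₁⟩ : ∃ A₁ : Finset ℕ → Finset ℕ → Prop, A₁ = fun S S' => ∃ n < n₁, Gap p₁.c' p₁.d' (u₁ (u n) (v n)) (v₁ (u n) (v n)) S S' :=
      ⟨_, rfl⟩
    obtain ⟨A₂, hA₂⟩ : ∃ A₂ : Finset ℕ → Finset ℕ → Prop, A₂ = fun S S' => ∃ n < n₁, Gap p₂.c' p₂.d' (u₂ (u n) (v n)) (v₂ (u n) (v n)) S S' :=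
      ⟨_, rfl⟩
    have m1 : ∀ ω : Env × Finset ℕ, ∀ x : Px (Pn N y), 0 ≤ mc μ s N y p.c p.d A₁ ω.1 x.1 := fun ω x => mc_nonneg _ _
    have m2 : ∀ ω : Env × Finset ℕ, ∀ x : Px (Pn N y), 0 ≤ mc μ s N y p.c p.d A₂ ω.1 x.1 := fun ω x => mc_nonneg _ _
    have hsum : ∀ ω : Env × Finset ℕ, ∀ x : Px (Pn N y), mc μ s N y p.c p.d A ω.1 x.1 ≤
        mc μ s N y p.c p.d A₁ ω.1 x.1 + mc μ s N y p.c p.d A₂ ω.1 x.1 := fun ω x => by
      have h3 := mc_le_sum (μ := μ) (s := s) (N := N) (y := y) (c := p.c) (d := p.d) (A := A) (univ : Finset Bool)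
        (fun b => if b then A₁ else A₂) (fun S S' e1 e2 e3 e4 e5 hA => ?_) ω.1 x.1
      · simpa using h3
      · obtain ⟨n, hn, hgap⟩ := k3 S S' e1 e2 e3 e4 e5 hA
        obtain ⟨r1, r2, r3⟩ := k2 n hn
        rcases hg S S' (u n) (v n) r1 r2 r3 hgap with g | g
        · exact ⟨true, mem_univ _, by rw [if_pos rfl, hA₁]; exact ⟨n, hn, g⟩⟩
        · exact ⟨false, mem_univ _, by rw [if_neg (by simp), hA₂]; exact ⟨n, hn, g⟩⟩
    have he := Real.exp_pos X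
    refine ⟨fun ω x => min 1 (Real.exp X * mc μ s N y p.c p.d A₁ ω.1 x.1), fun ω x => min 1 (Real.exp X * mc μ s N y p.c p.d A₂ ω.1 x.1),
      ⟨⟨fun ω x => le_min zero_le_one (mul_nonneg he.le (m1 ω x)), fun ω x => min_le_left _ _, Or.inl ⟨h1, A₁, n₁,
        fun n => u₁ (u n) (v n), fun n => v₁ (u n) (v n), k1, fun n hn => ?_, fun S S' _ _ _ _ _ hA => ?_, fun ω x => ?_⟩⟩,
        fun x => measurable_const.min (((meas_mc39 (μ := μ) (s := s) A₁ x.1).comp measurable_fst).const_mul _)⟩,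
      ⟨⟨fun ω x => le_min zero_le_one (mul_nonneg he.le (m2 ω x)), fun ω x => min_le_left _ _, Or.inl ⟨h2, A₂, n₁,
        fun n => u₂ (u n) (v n), fun n => v₂ (u n) (v n), k1, fun n hn => ?_, fun S S' _ _ _ _ _ hA => ?_, fun ω x => ?_⟩⟩,
        fun x => measurable_const.min (((meas_mc39 (μ := μ) (s := s) A₂ x.1).comp measurable_fst).const_mul _)⟩, fun ω x => ?_⟩
    · obtain ⟨r1, r2, r3⟩ := k2 n hn
      exact hw₁ _ _ r1 r2 r3
    · rw [hA₁] at hA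
      exact hA
    · rw [c1, d1]
      exact min_le_right _ _
    · obtain ⟨r1, r2, r3⟩ := k2 n hn
      exact hw₂ _ _ r1 r2 r3
    · rw [hA₂] at hA
      exact hA
    · rw [c2, d2]
      exact min_le_right _ _
    · show G ω x ≤ min 1 (Real.exp X * mc μ s N y p.c p.d A₁ ω.1 x.1) + min 1 (Real.exp X * mc μ s N y p.c p.d A₂ ω.1 x.1)
      have h3 := k4 ω x
      have h4 := hsum ω x
      have h5 := h.2.1 ω x
      have h6 : G ω x ≤ Real.exp X * mc μ s N y p.c p.d A₁ ω.1 x.1 + Real.exp X * mc μ s N y p.c p.d A₂ ω.1 x.1 := by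
        rw [← mul_add]
        exact h3.trans (mul_le_mul_of_nonneg_left h4 he.le)
      have q1 := mul_nonneg he.le (m1 ω x)
      have q2 := mul_nonneg he.le (m2 ω x)
      rcases le_total 1 (Real.exp X * mc μ s N y p.c p.d A₁ ω.1 x.1) with g1 | g1
      · rw [min_eq_left g1]
        have : 0 ≤ min 1 (Real.exp X * mc μ s N y p.c p.d A₂ ω.1 x.1) := le_min zero_le_one q2
        linarith
      · rw [min_eq_right g1]
        rcases le_total 1 (Real.exp X * mc μ s N y p.c p.d A₂ ω.1 x.1) with g2 | g2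
        · rw [min_eq_left g2]
          linarith
        · rw [min_eq_right g2]
          linarith
  · exact absurd g hT

end Dm

/-! ### The prices with one set of constants -/

section Pr

variable [IsProbabilityMeasure μ] {c₀ C₀ : ℝ} {n₀ : ℕ}

/-- The conclusion of `price_one` for the lists of length `k`. -/
def PrK (μ : Measure ℝ) (s ε θ : ℝ) (k : ℕ) (δ κ c₂ : ℝ) (L₀ : ℕ) : Prop :=
  ∀ L : ℕ, L₀ ≤ L → ∀ N : ℕ, L ≤ 16 * N → N ≤ L → ∀ y : ℕ, y ≤ N → |(y : ℝ) - sl μ s * N| ≤ ((L : ℝ) ^ δ * wd' μ s N) →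
    ∀ M : ℝ, 8 ≤ M → M ≤ (L : ℝ) ^ κ →
    ∀ Ps : List (Plc × (Env × Finset ℕ → Px (Pn N y) → ℝ)), Ps.length = k → (∀ P ∈ Ps, P.1.Ok L N θ) →
    Ps.Pairwise (fun P P' => P.1.Bef P'.1) → (∀ P ∈ Ps, Dom μ s N y ((L : ℝ) ^ κ) M P.1 P.2) →
    ∫ ω, gm (wm μ s N (Pn N y) ω) (fun x => (Ps.map fun P => P.2 ω x).prod) ∂(Pm μ N) ≤
      (Ps.map fun P => (L : ℝ) ^ ε * (EE' μ s P.1.l)⁻¹).prod + (Real.exp (-(L : ℝ) ^ c₂) + 2 * k * Real.exp (-M))

omit [IsProbabilityMeasure μ] in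
theorem PrK.mono {ε θ : ℝ} {k : ℕ} {δ κ c₂ δ' κ' c₂' : ℝ} {L₀ L₀' : ℕ} (h : PrK μ s ε θ k δ κ c₂ L₀) (hδ : δ' ≤ δ) (hκ : κ' ≤ κ)
    (hc : c₂' ≤ c₂) (hL : L₀ ≤ L₀') (h1 : 1 ≤ L₀') : PrK μ s ε θ k δ' κ' c₂' L₀' := by
  intro L hL' N hLN hNL y hyN hyc M hM hML Ps hlen hok hpw hdom
  have hL1 : (1 : ℝ) ≤ L := by exact_mod_cast h1.trans hL'
  have r1 := Real.rpow_le_rpow_of_exponent_le hL1 hδ
  have r2 := Real.rpow_le_rpow_of_exponent_le hL1 hκ
  have r3 := Real.rpow_le_rpow_of_exponent_le hL1 hc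
  refine (h L (hL.trans hL') N hLN hNL y hyN (hyc.trans (mul_le_mul_of_nonneg_right r1 ?_)) M hM (hML.trans r2) Ps hlen hok hpw
    fun P hP => Dom.mono (hdom P hP) r2).trans ?_
  · exact zero_le_one.trans (le_max_left _ _)
  · have := Real.exp_le_exp.2 (neg_le_neg r3)
    linarith

/-- **The prices of all lists of at most `K ≤ 8` places, one set of constants.** -/
theorem prices39 (h : In μ s c₀ C₀ n₀) (K : ℕ) (hK : K ≤ 8) : ∀ ε θ : ℝ, 0 < ε → 0 < θ → ∃ δ κ c₂ : ℝ, 0 < δ ∧ 0 < κ ∧ 0 < c₂ ∧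
    ∃ L₀ : ℕ, 1 ≤ L₀ ∧ ∀ k ≤ K, PrK μ s ε θ k δ κ c₂ L₀ := by
  intro ε θ hε hθ
  induction K with
  | zero =>
    obtain ⟨δ, κ, c₂, hδ, hκ, hc₂, L₀, hP⟩ := price_one h 0 (by norm_num) ε θ hε hθ
    refine ⟨δ, κ, c₂, hδ, hκ, hc₂, L₀ + 1, by omega, fun k hk => ?_⟩
    obtain rfl : k = 0 := by omega
    exact PrK.mono (fun L hL => hP L hL) le_rfl le_rfl le_rfl (by omega) (by omega)
  | succ K ih =>
    obtain ⟨δ, κ, c₂, hδ, hκ, hc₂, L₀, hL₀, hP⟩ := ih (by omega)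
    obtain ⟨δ', κ', c₂', hδ', hκ', hc₂', L₀', hP'⟩ := price_one h (K + 1) hK ε θ hε hθ
    refine ⟨min δ δ', min κ κ', min c₂ c₂', lt_min hδ hδ', lt_min hκ hκ', lt_min hc₂ hc₂', max L₀ L₀', le_max_of_le_left hL₀,
      fun k hk => ?_⟩
    rcases Nat.lt_or_ge k (K + 1) with hk' | hk'
    · exact PrK.mono (hP k (by omega)) (min_le_left _ _) (min_le_left _ _) (min_le_left _ _) (le_max_left _ _) (le_max_of_le_left hL₀)
    · obtain rfl : k = K + 1 := by omega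
      exact PrK.mono (fun L hL => hP' L hL) (min_le_right _ _) (min_le_right _ _) (min_le_right _ _) (le_max_right _ _)
        (le_max_of_le_left hL₀)

/-! ### Two rows -/

/-- The data of the price at the length `N`. -/
structure Pk39 (μ : Measure ℝ) (s ε θ κ : ℝ) (N : ℕ) (ys : Finset ℕ) (M e : ℝ) : Prop where
  N1 : 1 ≤ N
  yN : ∀ y ∈ ys, y ≤ N
  X1 : 1 ≤ (N : ℝ) ^ κ
  pr : ∀ y ∈ ys, ∀ Ps : List (Plc × (Env × Finset ℕ → Px (Pn N y) → ℝ)), Ps.length ≤ 8 → (∀ P ∈ Ps, P.1.Ok N N θ) →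
    Ps.Pairwise (fun P P' => P.1.Bef P'.1) → (∀ P ∈ Ps, Dom μ s N y ((N : ℝ) ^ κ) M P.1 P.2) →
    ∫ ω, gm (wm μ s N (Pn N y) ω) (fun x => (Ps.map fun P => P.2 ω x).prod) ∂(Pm μ N) ≤
      (Ps.map fun P => (N : ℝ) ^ ε * (EE' μ s P.1.l)⁻¹).prod + e

/-- The data of the price from `In`. -/
theorem pk39 (h : In μ s c₀ C₀ n₀) : ∀ ε θ : ℝ, 0 < ε → 0 < θ → ∃ δ κ c₂ : ℝ, 0 < δ ∧ 0 < κ ∧ 0 < c₂ ∧
    ∃ L₀ : ℕ, 1 ≤ L₀ ∧ ∀ N : ℕ, L₀ ≤ N → ∀ ys : Finset ℕ, (∀ y ∈ ys, y ≤ N ∧ |(y : ℝ) - sl μ s * N| ≤ ((N : ℝ) ^ δ * wd' μ s N)) →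
    ∀ M : ℝ, 8 ≤ M → M ≤ (N : ℝ) ^ κ → Pk39 μ s ε θ κ N ys M (Real.exp (-(N : ℝ) ^ c₂) + 16 * Real.exp (-M)) := by
  intro ε θ hε hθ
  obtain ⟨δ, κ, c₂, hδ, hκ, hc₂, L₀, hL₀, hP⟩ := prices39 (s := s) h 8 le_rfl ε θ hε hθ
  refine ⟨δ, κ, c₂, hδ, hκ, hc₂, L₀, hL₀, fun N hN ys hys M hM hML => ⟨hL₀.trans hN, fun y hy => (hys y hy).1,
    one_le_rp (hL₀.trans hN) hκ, fun y hy Ps hlen hok hpw hdom => ?_⟩⟩
  refine (hP Ps.length hlen N hN N (by omega) le_rfl y (hys y hy).1 (hys y hy).2 M hM hML Ps rfl hok hpw hdom).trans ?_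
  have h1 := Real.exp_pos (-M)
  have h2 : (Ps.length : ℝ) ≤ 8 := by exact_mod_cast hlen
  have h3 : 2 * (Ps.length : ℝ) * Real.exp (-M) ≤ 16 * Real.exp (-M) := by nlinarith
  linarith

/-- A list of places with functionals, in front of the tie of the spectator. -/
def Lst (μ : Measure ℝ) (s : ℝ) (N y : ℕ) (X M θ : ℝ) (zf : ℕ) (Ps : List (Plc × (Env × Finset ℕ → Px (Pn N y) → ℝ))) : Prop :=
  Ps.length ≤ 7 ∧ (∀ P ∈ Ps, P.1.Ok N N θ ∧ P.1.d' ≤ zf ∧ Dom μ s N y X M P.1 P.2 ∧ ∀ x, Measurable fun ω => P.2 ω x) ∧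
    Ps.Pairwise (fun P P' => P.1.Bef P'.1)

/-- The price of a list, with the tie of the spectator. -/
def lpr (μ : Measure ℝ) (s : ℝ) (N : ℕ) (ε : ℝ) (lo : ℕ) (ls : List ℕ) : ℝ :=
  ((N : ℝ) ^ ε * (EE' μ s lo)⁻¹) * (ls.map fun l => (N : ℝ) ^ ε * (EE' μ s l)⁻¹).prod

variable {ε θ κ M e : ℝ} {ys : Finset ℕ}

theorem prod01 {Ω X : Type*} (Ps : List (Plc × (Ω → X → ℝ))) (h : ∀ P ∈ Ps, ∀ ω x, 0 ≤ P.2 ω x ∧ P.2 ω x ≤ 1) (ω : Ω) (x : X) :
    0 ≤ (Ps.map fun P => P.2 ω x).prod ∧ (Ps.map fun P => P.2 ω x).prod ≤ 1 := by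
  induction Ps with
  | nil => simp
  | cons P Ps ih =>
    rw [List.map_cons, List.prod_cons]
    obtain ⟨h1, h2⟩ := h P (List.mem_cons_self ..) ω x
    obtain ⟨h3, h4⟩ := ih fun Q hQ => h Q (List.mem_cons_of_mem _ hQ)
    exact ⟨mul_nonneg h1 h3, by nlinarith⟩

theorem measprod {Ω X : Type*} [MeasurableSpace Ω] (Ps : List (Plc × (Ω → X → ℝ))) (x : X)
    (h : ∀ P ∈ Ps, Measurable fun ω => P.2 ω x) : Measurable fun ω => (Ps.map fun P => P.2 ω x).prod := by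
  induction Ps with
  | nil => simp
  | cons P Ps ih =>
    simp only [List.map_cons, List.prod_cons]
    exact (h P (List.mem_cons_self ..)).mul (ih fun Q hQ => h Q (List.mem_cons_of_mem _ hQ))

/-- **THE PRODUCT PRICE OF TWO ROWS FROM A LIST OF PLACES.** -/
theorem pair39 (hP : Pk39 μ s ε θ κ N ys M e) {y : ℕ} (hy : y ∈ ys) {zf c : ℕ} (hzc : zf ≤ c) (hcN : c ≤ N)
    (hlo : (N : ℝ) ^ θ ≤ ((c - zf : ℕ) : ℝ)) (Ls : List (List (Plc × (Env × Finset ℕ → Px (Pn N y) → ℝ))))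
    (hL : ∀ Ps ∈ Ls, Lst μ s N y ((N : ℝ) ^ κ) M θ zf Ps) {U U' : Fam N}
    (hU0 : ∀ ω x, 0 ≤ U y ω x * U' y ω x) (hUm : ∀ x, Measurable fun ω => U y ω x) (hUm' : ∀ x, Measurable fun ω => U' y ω x)
    (hU : ∀ ω x, U y ω x * U' y ω x ≤ (Ls.map fun Ps => (Ps.map fun P => P.2 ω x).prod).sum) :
    pr2 μ s N (fun y ω x z => NI zf c x z) U U' y ≤
      (Ls.map fun Ps => lpr μ s N ε (c - zf) (Ps.map fun P => P.1.l) + e).sum := by
  have hyN := hP.yN y hy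
  have := ne_Pn hyN
  have e1 : ∀ ω, PP (wm μ s N (Pn N y) ω) (fun x z => NI zf c x z * (U y ω x * U' y ω x)) =
      gm (wm μ s N (Pn N y) ω) fun x => out39 μ s N y zf c ω x * (U y ω x * U' y ω x) := fun ω => by
    rw [← Pool.Agent.W_7d29a1_C0.CutT57.gm_gm_eq_PP]
    congr 1
    funext x
    unfold out39
    have h1 : (fun z => NI zf c x z * (U y ω x * U' y ω x)) = fun z => (U y ω x * U' y ω x) * NI zf c x z := by
      funext z
      ring
    rw [h1, Pool.Agent.W_7d29a1_C0.CutT57.gm_const_mul]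
    ring
  unfold pr2
  simp only [e1]
  have mo : ∀ x, Measurable fun ω => out39 μ s N y zf c ω x := fun x =>
    meas_gm meas_wm (f := fun _ => NI zf c x) fun _ => measurable_const
  -- the integral of the sum
  have key : ∀ Ls : List (List (Plc × (Env × Finset ℕ → Px (Pn N y) → ℝ))), (∀ Ps ∈ Ls, Lst μ s N y ((N : ℝ) ^ κ) M θ zf Ps) →
      Integrable (fun ω => gm (wm μ s N (Pn N y) ω) fun x => out39 μ s N y zf c ω x *
        (Ls.map fun Ps => (Ps.map fun P => P.2 ω x).prod).sum) (Pm μ N) ∧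
      ∫ ω, gm (wm μ s N (Pn N y) ω) (fun x => out39 μ s N y zf c ω x * (Ls.map fun Ps => (Ps.map fun P => P.2 ω x).prod).sum)
        ∂(Pm μ N) ≤ (Ls.map fun Ps => lpr μ s N ε (c - zf) (Ps.map fun P => P.1.l) + e).sum := by
    intro Ls hL
    induction Ls with
    | nil =>
      simp only [List.map_nil, List.sum_nil, mul_zero, gm_const, integral_zero, le_refl, and_true]
      exact integrable_zero _ _ _
    | cons Ps Ls ih =>
      obtain ⟨i1, i2⟩ := ih fun Q hQ => hL Q (List.mem_cons_of_mem _ hQ)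
      obtain ⟨l1, l2, l3⟩ := hL Ps (List.mem_cons_self ..)
      have p01 := fun ω x => prod01 Ps (fun P hPs ω x => ⟨(l2 P hPs).2.2.1.1 ω x, (l2 P hPs).2.2.1.2.1 ω x⟩) ω x
      have i3 : Integrable (fun ω => gm (wm μ s N (Pn N y) ω) fun x => out39 μ s N y zf c ω x * (Ps.map fun P => P.2 ω x).prod)
          (Pm μ N) := by
        refine int_bdd (M := 1) (meas_gm meas_wm fun x => (mo x).mul (measprod Ps x fun P hPs => (l2 P hPs).2.2.2 x)) fun ω => ?_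
        rw [abs_of_nonneg (gm_nonneg _ fun x => mul_nonneg (out39_nonneg _ _ _ _) (p01 ω x).1)]
        refine (gm_mono _ (g := fun _ => 1) fun x => ?_).trans (gm_const _ _).le
        have := out39_nonneg (μ := μ) (s := s) zf c ω x
        have := out39_le_one (μ := μ) (s := s) zf c ω x
        have := (p01 ω x).1
        have := (p01 ω x).2
        nlinarith
      have e2 : ∀ ω, gm (wm μ s N (Pn N y) ω) (fun x => out39 μ s N y zf c ω x *
          ((Ps :: Ls).map fun Ps => (Ps.map fun P => P.2 ω x).prod).sum) =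
          gm (wm μ s N (Pn N y) ω) (fun x => out39 μ s N y zf c ω x * (Ps.map fun P => P.2 ω x).prod) +
          gm (wm μ s N (Pn N y) ω) (fun x => out39 μ s N y zf c ω x * (Ls.map fun Ps => (Ps.map fun P => P.2 ω x).prod).sum) := fun ω => by
        rw [← Pool.W7d29a1.C0.gm_add]
        congr 1
        funext x
        rw [Pi.add_apply, List.map_cons, List.sum_cons, mul_add]
      simp only [e2]
      refine ⟨i3.add i1, ?_⟩
      rw [integral_add i3 i1, List.map_cons, List.sum_cons]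
      refine add_le_add ?_ i2
      have h1 := hP.pr y hy ((pout N zf c, out39 μ s N y zf c) :: Ps) (by rw [List.length_cons]; omega) (fun P hPs => ?_) ?_
        fun P hPs => ?_
      · simp only [List.map_cons, List.prod_cons] at h1
        refine h1.trans (le_of_eq ?_)
        unfold lpr
        rw [List.map_map]
        rfl
      · rcases List.mem_cons.1 hPs with rfl | hPs
        · refine ⟨?_, hlo⟩
          show 0 ≤ 0 ∧ 0 ≤ zf ∧ zf ≤ c ∧ c ≤ N ∧ N ≤ N ∧ N ≤ N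
          omega
        · exact (l2 P hPs).1
      · rw [List.pairwise_cons]
        exact ⟨fun P hPs => Or.inl (l2 P hPs).2.1, l3⟩
      · rcases List.mem_cons.1 hPs with rfl | hPs
        · exact dom_out hP.X1 hzc hcN
        · exact (l2 P hPs).2.2.1
  obtain ⟨k1, k2⟩ := key Ls hL
  refine le_trans (integral_mono_of_nonneg (Filter.Eventually.of_forall fun ω => ?_) k1 (Filter.Eventually.of_forall fun ω => ?_)) k2
  · exact gm_nonneg _ fun x => mul_nonneg (out39_nonneg _ _ _ _) (hU0 ω x)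
  · exact gm_mono _ fun x => mul_le_mul_of_nonneg_left (hU ω x) (out39_nonneg _ _ _ _)

end Pr

/-! ### The row sum -/

section Rw

variable [IsProbabilityMeasure μ] {ys S : Finset ℕ} {c0 r zf c : ℕ} {U : ℕ → Fam N} {f : Fam N} {F : ℝ} {φ : ℕ → ℝ}

theorem NI_symm39 {Q : Finset (Finset ℕ)} (i j : ℕ) (S S' : Px Q) : NI i j S S' = NI i j S' S := by
  unfold NI
  refine if_congr ⟨fun h k h1 h2 => (h k h1 h2).symm, fun h k h1 h2 => (h k h1 h2).symm⟩ rfl rfl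

theorem NI_le_one' {Q : Finset (Finset ℕ)} {i j : ℕ} (S S' : Px Q) : NI i j S S' ≤ 1 := by
  unfold NI
  split_ifs <;> norm_num

/-- **THE ROW SUM**: `∑_j avy ∫ PP wm (U_j x * rh zf c f x x')` against the root of the variance of `f`. -/
theorem rows39 (hys : ∀ y ∈ ys, y ≤ N) (hS : ∀ j ∈ S, c0 ≤ j ∧ j < c0 + r) (U0 : ∀ j ∈ S, ∀ y ω x, 0 ≤ U j y ω x)
    (U1 : ∀ j ∈ S, ∀ y ω x, U j y ω x ≤ 1) (Um : ∀ j ∈ S, ∀ y x, Measurable fun ω => U j y ω x)
    (hf : ∀ y ∈ ys, ∀ ω x, |f y ω x| ≤ F) (fm : ∀ y ∈ ys, ∀ x, Measurable fun ω => f y ω x) (hφ : ∀ D, 0 ≤ φ D)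
    (hp : ∀ j ∈ S, ∀ k ∈ S, avy ys (pr2 μ s N (fun y ω x z => NI zf c x z) (U j) (U k)) ≤ φ (rdist j k)) :
    ∑ j ∈ S, avy ys (fun y => ∫ ω, PP (wm μ s N (Pn N y) ω) (fun x x' => U j y ω x * rh zf c (f y ω) x x') ∂(Pm μ N)) ≤
      Real.sqrt (8 * S.card * ∑ D ∈ range r, φ D) * Real.sqrt (2 * avy ys (varF μ s N f)) := by
  have hI : ∀ y ∈ ys, ∀ j ∈ S, ∀ k ∈ S, Integrable (fun ω => PP (wm μ s N (Pn N y) ω) fun x z =>
      NI zf c x z * (U j y ω x * U k y ω x)) (Pm μ N) := fun y hy j hj k hk => by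
    have := ne_Pn (hys y hy)
    refine int_bdd (M := 1) (meas_PP45 meas_wm fun x z => measurable_const.mul ((Um j hj y x).mul (Um k hk y x))) fun ω =>
      Pool.W7d29a1.C0.C45.abs_PP_le45 _ (fun x z => mul_nonneg (NI_nonneg _ _ _ _) (mul_nonneg (U0 j hj y ω x) (U0 k hk y ω x)))
        fun x z => ?_
    have h1 := NI_le_one zf c x z
    have h2 := mul_le_mul (U1 j hj y ω x) (U1 k hk y ω x) (U0 k hk y ω x) zero_le_one
    calc NI zf c x z * (U j y ω x * U k y ω x) ≤ 1 * (1 * 1) :=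
          mul_le_mul h1 h2 (mul_nonneg (U0 j hj y ω x) (U0 k hk y ω x)) zero_le_one
      _ = 1 := by norm_num
  have bd : ∀ y ∈ ys, ∀ ω x z, |f y ω x - f y ω z| ≤ 2 * F := fun y hy ω x z =>
    (abs_sub _ _).trans (by linarith [hf y hy ω x, hf y hy ω z])
  have hJ : ∀ y ∈ ys, ∀ j ∈ S, Integrable (fun ω => PP (wm μ s N (Pn N y) ω) fun x z =>
      NI zf c x z * (U j y ω x + U j y ω z) * |f y ω x - f y ω z|) (Pm μ N) := fun y hy j hj => by
    have := ne_Pn (hys y hy)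
    refine int_bdd (M := 1 * 2 * (2 * F)) (meas_PP45 meas_wm fun x z => (measurable_const.mul ((Um j hj y x).add (Um j hj y z))).mul
      ((fm y hy x).sub (fm y hy z)).abs) fun ω => Pool.W7d29a1.C0.C45.abs_PP_le45 _ (fun x z =>
        mul_nonneg (mul_nonneg (NI_nonneg _ _ _ _) (add_nonneg (U0 j hj y ω x) (U0 j hj y ω z))) (abs_nonneg _)) fun x z => ?_
    have h2 : U j y ω x + U j y ω z ≤ 2 := by linarith [U1 j hj y ω x, U1 j hj y ω z]
    exact mul_le_mul (mul_le_mul (NI_le_one _ _ _ _) h2 (add_nonneg (U0 j hj y ω x) (U0 j hj y ω z)) zero_le_one) (bd y hy ω x z)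
      (abs_nonneg _) (by norm_num)
  have hfI : ∀ y ∈ ys, Integrable (fun ω => gv (wm μ s N (Pn N y) ω) (f y ω)) (Pm μ N) := fun y hy => by
    have := ne_Pn (hys y hy)
    refine int_bdd (M := F ^ 2) (meas_gv meas_wm (fm y hy)) fun ω => ?_
    rw [abs_of_nonneg (gv_nonneg _ _)]
    exact gv_le_sq _ (hf y hy ω)
  have h1 := grp93 (μ := μ) (s := s) hys hS (Nn := fun y ω x z => NI zf c x z) (U := U) (f := f) (fun y ω x z => NI_nonneg _ _ _ _)
    (fun y ω x z => (NI_le_one' x z)) (fun y ω x z => NI_symm39 _ _ _ _) U0 hI hJ hfI hφ hp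
  refine le_trans (sum_le_sum fun j hj => avy_mono fun y hy => ?_) h1
  have := ne_Pn (hys y hy)
  unfold rw2
  refine integral_mono_of_nonneg (Filter.Eventually.of_forall fun ω => PP_nonneg _ fun x z => mul_nonneg (U0 j hj y ω x) (rh_nonneg _ _ _))
    (hJ y hy j hj) (Filter.Eventually.of_forall fun ω => PP_mono _ fun x z => ?_)
  show U j y ω x * (|f y ω x - f y ω z| * NI zf c x z) ≤ NI zf c x z * (U j y ω x + U j y ω z) * |f y ω x - f y ω z|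
  have h2 : 0 ≤ NI zf c x z * |f y ω x - f y ω z| := mul_nonneg (NI_nonneg _ _ _ _) (abs_nonneg _)
  have h3 := mul_nonneg h2 (U0 j hj y ω z)
  nlinarith

/-- The same, averaged over the shifts of the condition of the micro tie (`m = mm j o`, `o` in `O`). -/
theorem rows39J {O : Finset ℕ} (hO : O.Nonempty) {J : ℕ → Finset ℕ} {mm : ℕ → ℕ → ℕ} (hinj : ∀ j ∈ S, Set.InjOn (mm j) O)
    (hJ : ∀ j ∈ S, J j = O.image (mm j)) {Φ : ℕ → ℕ → ℕ → ℝ} {K : ℝ}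
    (h : ∀ o ∈ O, ∑ j ∈ S, avy ys (Φ j (mm j o)) ≤ K) :
    ∑ j ∈ S, avy ys (fun y => ((J j).card : ℝ)⁻¹ * ∑ m ∈ J j, Φ j m y) ≤ K := by
  have hc : 0 < (O.card : ℝ) := by exact_mod_cast hO.card_pos
  have e1 : ∀ j ∈ S, avy ys (fun y => ((J j).card : ℝ)⁻¹ * ∑ m ∈ J j, Φ j m y) = (O.card : ℝ)⁻¹ * ∑ o ∈ O, avy ys (Φ j (mm j o)) :=
    fun j hj => by
    rw [avy_mul, hJ j hj, card_image_of_injOn (hinj j hj)]
    congr 1
    unfold avy
    have e2 : ∀ y ∈ ys, ∑ m ∈ O.image (mm j), Φ j m y = ∑ o ∈ O, Φ j (mm j o) y := fun y _ => sum_image (hinj j hj)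
    rw [sum_congr rfl e2, sum_comm, mul_sum]
  rw [sum_congr rfl e1, ← mul_sum, sum_comm, inv_mul_le_iff₀ hc]
  refine (sum_le_sum h).trans (le_of_eq ?_)
  rw [sum_const, nsmul_eq_mul]

end Rw

end

end Pool.Agent.W_7d29a1_C0.E2S39
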