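import Pool.Agent.W_7d29a1_C0.E2S39B

/-!
STORM C0, leaf E2 (helper39): THE TWO-ROW PRICES OF E2 AT THE CORNER, third part: the term `T0Q` (the own event is told given what is
behind the row `m'`, in front of the tie of the spectator, so the own loops of two rows may be one loop).

The loop of one of the two rows is cut at two rows. Part R (rows `k < j`, own window behind `m_j`): the loop of `k` closes before
`h = j - D / 8` (four places), or it passes `e1 = m_j + D₁` (one place of length `D₁` behind `m_j`), or it closes between `h` and `e1`; then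
the micro tie of `j` opens before `h` (long place), or behind `h`, and the micro tie of `k` opens before `g = m_k - D₁` (long place) or
behind `g`: both micro ties are small and outside of the window `[w_k, h]` of the loop (type L). Part L is the mirror image.
-/

set_option autoImplicit false
set_option linter.unusedSectionVars false
set_option linter.unusedVariables false

namespace Pool.Agent.W_7d29a1_C0.E2S39

open MeasureTheory ProbabilityTheory Filter Topology Finset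
open Pool.Agent.W_7d29a1_F Pool.Agent.W_7d29a1_X Pool.Agent.W_7d29a1_h4g Pool.Agent.W_7d29a1_H
open Pool.Agent.W_7d29a1_HS (In wd md)
open Pool.Agent.W_7d29a1_HZ Pool.Agent.W_7d29a1_HZ.R72 Pool.Agent.W_7d29a1_Z.Asm72
open Pool.Agent.W_7d29a1_HZ.Z86
open Pool.Agent.W_7d29a1_C0.P86
open Pool.Agent.W_7d29a1_C0.Mod92
open Pool.Agent.W_7d29a1_C0.Swap57 (NI cE2 NI_nonneg)
open Pool.Agent.W_7d29a1_C0.MicE14 (rh rh_nonneg)
open Pool.Agent.W_7d29a1_C0.T72 (ind72 meas_ind72)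
open Pool.Agent.W_7d29a1_C0.T93 (rdist Fam2 pr2 rw2 grp93)
open Pool.W7d29a1.C0 (gz gm gz_pos gm_nonneg gm_mono gm_const PP PP_mono PP_nonneg)
open scoped ENNReal

noncomputable section

variable {μ : Measure ℝ} {s : ℝ} {N : ℕ} {ε θ κ M e : ℝ} {ys S : Finset ℕ} {c0 r zf c hh s' : ℕ}

section Core

variable {y : ℕ} {X : ℝ}

/-- Monotonicity of the lengths in the price of a list. -/
theorem lpr_mono3 [IsProbabilityMeasure μ] {lo a b d a' b' d' : ℕ} (h1 : a' ≤ a) (h2 : b' ≤ b) (h3 : d' ≤ d) :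
    lpr μ s N ε lo [a, b, d] ≤ lpr μ s N ε lo [a', b', d'] := by
  have hN : 0 ≤ (N : ℝ) ^ ε := Real.rpow_nonneg (Nat.cast_nonneg _) _
  have hp : ∀ l, 0 < EE' μ s l := fun l => lt_of_lt_of_le zero_lt_one (le_max_left _ _)
  have g : ∀ l l', l' ≤ l → (N : ℝ) ^ ε * (EE' μ s l)⁻¹ ≤ (N : ℝ) ^ ε * (EE' μ s l')⁻¹ := fun l l' h =>
    mul_le_mul_of_nonneg_left (inv_anti₀ (hp l') (max_le_max le_rfl (EE_mono h))) hN
  have n : ∀ l, 0 ≤ (N : ℝ) ^ ε * (EE' μ s l)⁻¹ := fun l => mul_nonneg hN (inv_nonneg.2 (hp l).le)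
  unfold lpr
  simp only [List.map_cons, List.map_nil, List.prod_cons, List.prod_nil, mul_one]
  refine mul_le_mul_of_nonneg_left ?_ (n lo)
  exact mul_le_mul (g _ _ h1) (mul_le_mul (g _ _ h2) (g _ _ h3) (n _) (n _)) (mul_nonneg (n _) (n _)) (n _)

/-- **THE COMBINATORICS OF `T0Q`**: `a`, `m` = own event and micro tie of the row which is kept, `a'`, `m'` of the row whose loop is cut. -/
theorem t0q_core {a m a' m' A₁ A₂ A₃ A₄ B₁ B₂ C₁ C₂ : Plc × (Env × Finset ℕ → Px (Pn N y) → ℝ)} {tA tB tC tD tE : ℝ}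
    (ea : El μ s N y X M θ zf a) (em : El μ s N y X M θ zf m) (em' : El μ s N y X M θ zf m')
    (a'0 : ∀ ω x, 0 ≤ a'.2 ω x) (a'1 : ∀ ω x, a'.2 ω x ≤ 1)
    (e1 : El μ s N y X M θ zf A₁) (e3 : El μ s N y X M θ zf A₃) (e4 : El μ s N y X M θ zf A₄)
    (f1 : El μ s N y X M θ zf B₁) (f2 : El μ s N y X M θ zf B₂) (g1 : El μ s N y X M θ zf C₁) (g2 : El μ s N y X M θ zf C₂)
    (hA : ∀ ω x, a'.2 ω x ≤ A₁.2 ω x + A₂.2 ω x) (hA' : ∀ ω x, A₂.2 ω x ≤ A₃.2 ω x + A₄.2 ω x)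
    (hB : ∀ ω x, m.2 ω x ≤ B₁.2 ω x + B₂.2 ω x) (hC : ∀ ω x, m'.2 ω x ≤ C₁.2 ω x + C₂.2 ω x)
    (oa : a.1.Bef m.1 ∧ a.1.Bef A₁.1 ∧ a.1.Bef m'.1 ∧ m.1.Bef A₁.1 ∧ m.1.Bef m'.1 ∧ A₁.1.Bef m'.1)
    (ob : A₄.1.Bef m.1 ∧ A₄.1.Bef m'.1)
    (oc : a.1.Bef B₂.1 ∧ B₂.1.Bef m'.1)
    (od : a.1.Bef B₁.1 ∧ a.1.Bef C₂.1 ∧ B₁.1.Bef C₂.1)
    (oe : A₃.1.Bef B₁.1 ∧ A₃.1.Bef C₁.1 ∧ B₁.1.Bef C₁.1)
    (pa : lpr μ s N ε (c - zf) [a.1.l, m.1.l, A₁.1.l, m'.1.l] + e ≤ tA) (pb : lpr μ s N ε (c - zf) [A₄.1.l, m.1.l, m'.1.l] + e ≤ tB)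
    (pc : lpr μ s N ε (c - zf) [a.1.l, B₂.1.l, m'.1.l] + e ≤ tC) (pd : lpr μ s N ε (c - zf) [a.1.l, B₁.1.l, C₂.1.l] + e ≤ tD)
    (pe : lpr μ s N ε (c - zf) [A₃.1.l, B₁.1.l, C₁.1.l] + e ≤ tE) :
    Cov μ s N y ε X M θ e zf c (fun ω x => a'.2 ω x * m'.2 ω x * (a.2 ω x * m.2 ω x)) (tA + (tB + (tC + (tD + tE)))) := by
  have q : ∀ P : Plc × (Env × Finset ℕ → Px (Pn N y) → ℝ), El μ s N y X M θ zf P → ∀ ω x, 0 ≤ P.2 ω x ∧ P.2 ω x ≤ 1 := fun P hP ω x =>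
    ⟨hP.2.2.1.1 ω x, hP.2.2.1.2.1 ω x⟩
  refine Cov.add (V₁ := fun ω x => a.2 ω x * (m.2 ω x * (A₁.2 ω x * m'.2 ω x)))
    (V₂ := fun ω x => A₄.2 ω x * (m.2 ω x * m'.2 ω x) + A₃.2 ω x * (m'.2 ω x * (a.2 ω x * m.2 ω x))) ?_ ?_ fun ω x => ?_
  · refine Cov.one (lst4 ea em e1 em' oa.1 oa.2.1 oa.2.2.1 oa.2.2.2.1 oa.2.2.2.2.1 oa.2.2.2.2.2) (fun ω x => ?_) pa
    simp only [List.map_cons, List.map_nil, List.prod_cons, List.prod_nil, mul_one]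
    exact le_rfl
  · refine Cov.add (V₁ := fun ω x => A₄.2 ω x * (m.2 ω x * m'.2 ω x)) (V₂ := fun ω x => A₃.2 ω x * (m'.2 ω x * (a.2 ω x * m.2 ω x)))
      ?_ ?_ fun ω x => le_rfl
    · refine Cov.one (lst3 e4 em em' ob.1 ob.2 oa.2.2.2.2.1) (fun ω x => ?_) pb
      simp only [List.map_cons, List.map_nil, List.prod_cons, List.prod_nil, mul_one]
      exact le_rfl
    · refine Cov.add (V₁ := fun ω x => a.2 ω x * (B₂.2 ω x * m'.2 ω x))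
        (V₂ := fun ω x => A₃.2 ω x * (m'.2 ω x * (a.2 ω x * B₁.2 ω x))) ?_ ?_ fun ω x => ?_
      · refine Cov.one (lst3 ea f2 em' oc.1 oa.2.2.1 oc.2) (fun ω x => ?_) pc
        simp only [List.map_cons, List.map_nil, List.prod_cons, List.prod_nil, mul_one]
        exact le_rfl
      · refine Cov.add (V₁ := fun ω x => a.2 ω x * (B₁.2 ω x * C₂.2 ω x)) (V₂ := fun ω x => A₃.2 ω x * (B₁.2 ω x * C₁.2 ω x)) ?_ ?_ fun ω x => ?_
        · refine Cov.one (lst3 ea f1 g2 od.1 od.2.1 od.2.2) (fun ω x => ?_) pd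
          simp only [List.map_cons, List.map_nil, List.prod_cons, List.prod_nil, mul_one]
          exact le_rfl
        · refine Cov.one (lst3 e3 f1 g1 oe.1 oe.2.1 oe.2.2) (fun ω x => ?_) pe
          simp only [List.map_cons, List.map_nil, List.prod_cons, List.prod_nil, mul_one]
          exact le_rfl
        · obtain ⟨r1, r2⟩ := q a ea ω x
          obtain ⟨r3, r4⟩ := q A₃ e3 ω x
          obtain ⟨r5, r6⟩ := q B₁ f1 ω x
          obtain ⟨r7, r8⟩ := q C₁ g1 ω x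
          obtain ⟨r9, r10⟩ := q C₂ g2 ω x
          have h1 := hC ω x
          calc A₃.2 ω x * (m'.2 ω x * (a.2 ω x * B₁.2 ω x)) ≤ A₃.2 ω x * ((C₁.2 ω x + C₂.2 ω x) * (a.2 ω x * B₁.2 ω x)) :=
                mul_le_mul_of_nonneg_left (mul_le_mul_of_nonneg_right h1 (mul_nonneg r1 r5)) r3
            _ = A₃.2 ω x * (a.2 ω x * (B₁.2 ω x * C₂.2 ω x)) + a.2 ω x * (A₃.2 ω x * (B₁.2 ω x * C₁.2 ω x)) := by ring
            _ ≤ 1 * (a.2 ω x * (B₁.2 ω x * C₂.2 ω x)) + 1 * (A₃.2 ω x * (B₁.2 ω x * C₁.2 ω x)) :=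
                add_le_add (mul_le_mul_of_nonneg_right r4 (mul_nonneg r1 (mul_nonneg r5 r9)))
                  (mul_le_mul_of_nonneg_right r2 (mul_nonneg r3 (mul_nonneg r5 r7)))
            _ = _ := by ring
      · obtain ⟨r1, r2⟩ := q a ea ω x
        obtain ⟨r3, r4⟩ := q A₃ e3 ω x
        obtain ⟨r5, r6⟩ := q m' em' ω x
        obtain ⟨r7, r8⟩ := q B₂ f2 ω x
        have h1 := hB ω x
        calc A₃.2 ω x * (m'.2 ω x * (a.2 ω x * m.2 ω x)) ≤ A₃.2 ω x * (m'.2 ω x * (a.2 ω x * (B₁.2 ω x + B₂.2 ω x))) :=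
              mul_le_mul_of_nonneg_left (mul_le_mul_of_nonneg_left (mul_le_mul_of_nonneg_left h1 r1) r5) r3
          _ = A₃.2 ω x * (a.2 ω x * (B₂.2 ω x * m'.2 ω x)) + A₃.2 ω x * (m'.2 ω x * (a.2 ω x * B₁.2 ω x)) := by ring
          _ ≤ 1 * (a.2 ω x * (B₂.2 ω x * m'.2 ω x)) + A₃.2 ω x * (m'.2 ω x * (a.2 ω x * B₁.2 ω x)) :=
              add_le_add (mul_le_mul_of_nonneg_right r4 (mul_nonneg r1 (mul_nonneg r7 r5))) le_rfl
          _ = _ := by ring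
  · obtain ⟨r1, r2⟩ := q a ea ω x
    obtain ⟨r3, r4⟩ := q m em ω x
    obtain ⟨r5, r6⟩ := q m' em' ω x
    obtain ⟨r7, r8⟩ := q A₄ e4 ω x
    have h1 := hA ω x
    have h2 := hA' ω x
    have h3 : a'.2 ω x ≤ A₁.2 ω x + (A₃.2 ω x + A₄.2 ω x) := by linarith
    calc a'.2 ω x * m'.2 ω x * (a.2 ω x * m.2 ω x) = a'.2 ω x * (m'.2 ω x * (a.2 ω x * m.2 ω x)) := by ring
      _ ≤ (A₁.2 ω x + (A₃.2 ω x + A₄.2 ω x)) * (m'.2 ω x * (a.2 ω x * m.2 ω x)) :=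
          mul_le_mul_of_nonneg_right h3 (mul_nonneg r5 (mul_nonneg r1 r3))
      _ = a.2 ω x * (m.2 ω x * (A₁.2 ω x * m'.2 ω x)) + (a.2 ω x * (A₄.2 ω x * (m.2 ω x * m'.2 ω x)) +
          A₃.2 ω x * (m'.2 ω x * (a.2 ω x * m.2 ω x))) := by ring
      _ ≤ a.2 ω x * (m.2 ω x * (A₁.2 ω x * m'.2 ω x)) + (1 * (A₄.2 ω x * (m.2 ω x * m'.2 ω x)) +
          A₃.2 ω x * (m'.2 ω x * (a.2 ω x * m.2 ω x))) :=
          add_le_add le_rfl (add_le_add (mul_le_mul_of_nonneg_right r2 (mul_nonneg r7 (mul_nonneg r3 r5))) le_rfl)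
      _ = _ := by ring

/-- The price of `T0Q` for two rows: `lo` own, `lm` micro, `ld` the cut lengths. -/
def tQ (μ : Measure ℝ) (s : ℝ) (N : ℕ) (ε e : ℝ) (lout lo lm ld : ℕ) : ℝ :=
  lpr μ s N ε lout [lo, lm, lo, lm] + 2 * lpr μ s N ε lout [ld, lm, lm] + 2 * lpr μ s N ε lout [lo, ld, lm] + 5 * e

/-- A smaller place for the same functional (smaller tie block is not allowed, the window may shrink). -/
theorem lpr_perm3 (lo a b d : ℕ) : lpr μ s N ε lo [a, b, d] = lpr μ s N ε lo [a, d, b] := by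
  unfold lpr
  simp only [List.map_cons, List.map_nil, List.prod_cons, List.prod_nil, mul_one]
  ring

/-- **`T0Q`, PART R, two rows `k < j`.** Own places given `(0, m')`, micro ties given `(0, m_j)`, `(0, m_k)`; the windows of the own places
are behind `m_j`, `m_k`. -/
theorem t0qR [IsProbabilityMeasure μ] {k j b0 mk mj uk vk uj vj m' lo lm ld h : ℕ} {ty : Ty}
    {Ak Bk Aj Bj : Env × Finset ℕ → Px (Pn N y) → ℝ}
    (dAk : Dom μ s N y X M ⟨0, m', 0, m', uk, vk, lo, ty, False⟩ Ak) (dAj : Dom μ s N y X M ⟨0, m', 0, m', uj, vj, lo, ty, False⟩ Aj)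
    (dBk : Dom μ s N y X M ⟨0, mk, 0, mk, k - b0, k + b0, lm, ty, False⟩ Bk)
    (dBj : Dom μ s N y X M ⟨0, mj, 0, mj, j - b0, j + b0, lm, ty, False⟩ Bj)
    (mAj : ∀ x, Measurable fun ω => Aj ω x) (mBk : ∀ x, Measurable fun ω => Bk ω x) (mBj : ∀ x, Measurable fun ω => Bj ω x)
    (hlo : (N : ℝ) ^ θ ≤ lo) (hlm : (N : ℝ) ^ θ ≤ lm) (hld : (N : ℝ) ^ θ ≤ ld)
    (a0 : b0 ≤ k) (a1 : k + b0 ≤ mk) (a2 : mk ≤ uk) (a3 : uk + lo ≤ vk) (a4 : vk + ld ≤ h) (a5 : h + ld + b0 ≤ j) (a6 : j + b0 ≤ mj)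
    (a7 : mj ≤ uj) (a8 : uj + lo ≤ vj) (a9 : vj ≤ m') (a10 : mj + ld ≤ m') (a11 : m' ≤ zf) (a12 : zf ≤ N)
    (a13 : ld + b0 ≤ k) (a14 : 4 * (mj - h) + vk ≤ h) (a15 : 4 * (ld + b0 + (mk - k)) + vk ≤ h)
    (a16 : mk ≤ j - b0) :
    Cov μ s N y ε X M θ e zf c (fun ω x => Ak ω x * Bk ω x * (Aj ω x * Bj ω x)) (tQ μ s N ε e (c - zf) lo lm ld) := by
  -- the cut of the own loop of `k`
  obtain ⟨A₁, A₂, ⟨d1, m1⟩, ⟨d2, m2⟩, hA⟩ := Dom.split (p₁ := ⟨0, m', 0, h, uk, vk, lo, Ty.R, False⟩)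
    (p₂ := ⟨0, m', 0, m', uk, h, h - vk, Ty.L, False⟩) dAk (fun h => h) (fun h => h) (fun h => h) rfl rfl rfl rfl
    (fun u _ => u) (fun _ v => v) (fun u _ => u) (fun _ _ => h)
    (fun u v h1 h2 h3 => ⟨h1, h2, h3⟩) (fun u v h1 h2 h3 => by
      have h1 : uk ≤ u := h1
      have h2 : u + lo ≤ v := h2
      have h3 : v ≤ vk := h3
      show uk ≤ u ∧ u + (h - vk) ≤ h ∧ h ≤ h
      omega) (fun S S' u v _ _ _ g => gap_cutR g)
  obtain ⟨A₃, A₄, ⟨d3, m3⟩, ⟨d4, m4⟩, hA'⟩ := Dom.split (p₁ := ⟨0, m', 0, mj + ld, uk, h, h - vk, Ty.L, False⟩)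
    (p₂ := ⟨0, m', 0, m', mj, mj + ld, ld, Ty.R, False⟩) d2 (fun h => h) (fun h => h) (fun h => h) rfl rfl rfl rfl
    (fun u _ => u) (fun _ v => v) (fun _ _ => mj) (fun _ _ => mj + ld)
    (fun u v h1 h2 h3 => ⟨h1, h2, h3⟩) (fun u v _ _ _ => ⟨le_rfl, le_rfl, le_rfl⟩) (fun S S' u v h1 h2 h3 g => by
      have h1 : uk ≤ u := h1
      have h2 : u + (h - vk) ≤ v := h2
      have h3 : v ≤ h := h3
      rcases gap_cutR (h := mj + ld) g with g | g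
      · exact Or.inl g
      · exact Or.inr (g.mono le_rfl le_rfl (show u ≤ mj by omega) le_rfl))
  -- the cut of the micro tie of `j`
  obtain ⟨B₁, B₂, ⟨d5, m5⟩, ⟨d6, m6⟩, hB⟩ := Dom.split (p₁ := ⟨0, mj, h, mj, j - b0, j + b0, lm, Ty.R, False⟩)
    (p₂ := ⟨0, mj, 0, mj, h, j - b0, ld, Ty.R, False⟩) dBj (fun h => h) (fun h => h) (fun h => h) rfl rfl rfl rfl
    (fun u _ => u) (fun _ v => v) (fun _ _ => h) (fun _ _ => j - b0)
    (fun u v h1 h2 h3 => ⟨h1, h2, h3⟩) (fun u v _ _ _ => by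
      show h ≤ h ∧ h + ld ≤ j - b0 ∧ j - b0 ≤ j - b0
      omega) (fun S S' u v h1 h2 h3 g => by
      have h1 : j - b0 ≤ u := h1
      have h2 : u + lm ≤ v := h2
      rcases gap_cutL (h := h) g with g | g
      · exact Or.inl g
      · exact Or.inr (g.mono le_rfl le_rfl le_rfl (show j - b0 ≤ v by omega)))
  -- the cut of the micro tie of `k`
  obtain ⟨C₁, C₂, ⟨d7, m7⟩, ⟨d8, m8⟩, hC⟩ := Dom.split (p₁ := ⟨0, mk, k - b0 - ld, mk, k - b0, k + b0, lm, Ty.R, False⟩)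
    (p₂ := ⟨0, mk, 0, mk, k - b0 - ld, k - b0, ld, Ty.R, False⟩) dBk (fun h => h) (fun h => h) (fun h => h) rfl rfl rfl rfl
    (fun u _ => u) (fun _ v => v) (fun _ _ => k - b0 - ld) (fun _ _ => k - b0)
    (fun u v h1 h2 h3 => ⟨h1, h2, h3⟩) (fun u v _ _ _ => by
      show k - b0 - ld ≤ k - b0 - ld ∧ k - b0 - ld + ld ≤ k - b0 ∧ k - b0 ≤ k - b0
      omega) (fun S S' u v h1 h2 h3 g => by
      have h1 : k - b0 ≤ u := h1
      have h2 : u + lm ≤ v := h2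
      rcases gap_cutL (h := k - b0 - ld) g with g | g
      · exact Or.inl g
      · exact Or.inr (g.mono le_rfl le_rfl le_rfl (show k - b0 ≤ v by omega)))
  have hlv : (N : ℝ) ^ θ ≤ ((h - vk : ℕ) : ℝ) := hld.trans (by exact_mod_cast (by omega : ld ≤ h - vk))
  have n1 := lpr_mono3 (μ := μ) (s := s) (N := N) (ε := ε) (lo := c - zf) (a := h - vk) (a' := ld) (b := lm) (b' := lm) (d := lm) (d' := lm)
    (by omega) le_rfl le_rfl
  have n2 := lpr_perm3 (μ := μ) (s := s) (N := N) (ε := ε) (c - zf) lo lm ld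
  refine Cov.mono (t0q_core (a := (⟨0, m', 0, m', uj, vj, lo, Ty.R, False⟩, Aj)) (m := (⟨0, mj, 0, mj, j - b0, j + b0, lm, Ty.R, False⟩, Bj))
    (a' := (⟨0, m', 0, m', uk, vk, lo, Ty.R, False⟩, Ak)) (m' := (⟨0, mk, 0, mk, k - b0, k + b0, lm, Ty.R, False⟩, Bk))
    (A₁ := (⟨0, m', 0, h, uk, vk, lo, Ty.R, False⟩, A₁)) (A₂ := (⟨0, m', 0, m', uk, h, h - vk, Ty.L, False⟩, A₂))
    (A₃ := (⟨0, m', 0, mj + ld, uk, h, h - vk, Ty.L, False⟩, A₃)) (A₄ := (⟨0, m', 0, m', mj, mj + ld, ld, Ty.R, False⟩, A₄))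
    (B₁ := (⟨0, mj, h, mj, j - b0, j + b0, lm, Ty.R, False⟩, B₁)) (B₂ := (⟨0, mj, 0, mj, h, j - b0, ld, Ty.R, False⟩, B₂))
    (C₁ := (⟨0, mk, k - b0 - ld, mk, k - b0, k + b0, lm, Ty.R, False⟩, C₁)) (C₂ := (⟨0, mk, 0, mk, k - b0 - ld, k - b0, ld, Ty.R, False⟩, C₂))
    ⟨⟨?_, hlo⟩, ?_, dAj, mAj⟩ ⟨⟨?_, hlm⟩, ?_, dBj, mBj⟩ ⟨⟨?_, hlm⟩, ?_, dBk, mBk⟩ dAk.1 dAk.2.1
    ⟨⟨?_, hlo⟩, ?_, d1, m1⟩ ⟨⟨?_, hlv⟩, ?_, d3, m3⟩ ⟨⟨?_, hld⟩, ?_, d4, m4⟩ ⟨⟨?_, hlm⟩, ?_, d5, m5⟩ ⟨⟨?_, hld⟩, ?_, d6, m6⟩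
    ⟨⟨?_, hlm⟩, ?_, d7, m7⟩ ⟨⟨?_, hld⟩, ?_, d8, m8⟩ hA hA' hB hC
    ⟨Or.inl ?_, Or.inl ?_, Or.inl ?_, Or.inl ?_, Or.inl ?_, Or.inl ?_⟩ ⟨Or.inl ?_, Or.inl ?_⟩ ⟨Or.inl ?_, Or.inl ?_⟩
    ⟨Or.inl ?_, Or.inl ?_, Or.inl ?_⟩ ⟨Or.inr (Or.inr ⟨fun h => h, Or.inr ?_, ?_⟩), Or.inr (Or.inr ⟨fun h => h, Or.inl ?_, ?_⟩), Or.inl ?_⟩
    le_rfl le_rfl le_rfl le_rfl le_rfl) (fun ω x => le_rfl) ?_
  all_goals dsimp only
  all_goals first
    | omega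
    | skip
  unfold tQ
  rw [n2] at *
  linarith

/-- **`T0Q`, PART L, two rows `k < j`.** Own places given `(0, m')`, micro ties given `(m_j, d_j)`, `(m_k, d_k)`; the windows of the own
places are in front of `m_j`, `m_k`. The loop of `j` is cut. -/
theorem t0qL [IsProbabilityMeasure μ] {k j b0 mk mj uk vk uj vj m' dk dj lo lm ld h : ℕ} {ty : Ty}
    {Ak Bk Aj Bj : Env × Finset ℕ → Px (Pn N y) → ℝ}
    (dAk : Dom μ s N y X M ⟨0, m', 0, m', uk, vk, lo, ty, False⟩ Ak) (dAj : Dom μ s N y X M ⟨0, m', 0, m', uj, vj, lo, ty, False⟩ Aj)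
    (dBk : Dom μ s N y X M ⟨mk, dk, mk, dk, k - b0, k + b0, lm, ty, False⟩ Bk)
    (dBj : Dom μ s N y X M ⟨mj, dj, mj, dj, j - b0, j + b0, lm, ty, False⟩ Bj)
    (mAk : ∀ x, Measurable fun ω => Ak ω x) (mBk : ∀ x, Measurable fun ω => Bk ω x) (mBj : ∀ x, Measurable fun ω => Bj ω x)
    (hlo : (N : ℝ) ^ θ ≤ lo) (hlm : (N : ℝ) ^ θ ≤ lm) (hld : (N : ℝ) ^ θ ≤ ld)
    (a0 : ld ≤ mk) (a1 : mk + b0 ≤ k) (a2 : vk ≤ mk) (a3 : uk + lo ≤ vk) (a4 : h + ld ≤ uj) (a5 : k + b0 + ld ≤ h) (a6 : mj + b0 ≤ j)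
    (a7 : vj ≤ mj) (a8 : uj + lo ≤ vj) (a9 : mj ≤ m') (a10 : j + b0 + ld ≤ dj) (a11 : m' ≤ zf) (a12 : zf ≤ N)
    (a13 : dj ≤ zf) (a14 : 4 * (h - mk) + h ≤ uj) (a15 : 4 * (ld + b0 + (j - mj)) + h ≤ uj) (a16 : dk ≤ zf) (a17 : h ≤ dk)
    (a18 : k + b0 ≤ mj) :
    Cov μ s N y ε X M θ e zf c (fun ω x => Aj ω x * Bj ω x * (Ak ω x * Bk ω x)) (tQ μ s N ε e (c - zf) lo lm ld) := by
  -- the cut of the own loop of `j`
  obtain ⟨A₁, A₂, ⟨d1, m1⟩, ⟨d2, m2⟩, hA⟩ := Dom.split (p₁ := ⟨0, m', h, m', uj, vj, lo, Ty.M, False⟩)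
    (p₂ := ⟨0, m', 0, m', h, vj, uj - h, Ty.L, False⟩) dAj (fun h => h) (fun h => h) (fun h => h) rfl rfl rfl rfl
    (fun u _ => u) (fun _ v => v) (fun _ _ => h) (fun _ v => v)
    (fun u v h1 h2 h3 => ⟨h1, h2, h3⟩) (fun u v h1 h2 h3 => by
      have h1 : uj ≤ u := h1
      have h2 : u + lo ≤ v := h2
      have h3 : v ≤ vj := h3
      show h ≤ h ∧ h + (uj - h) ≤ v ∧ v ≤ vj
      omega) (fun S S' u v _ _ _ g => gap_cutL g)
  obtain ⟨A₃, A₄, ⟨d3, m3⟩, ⟨d4, m4⟩, hA'⟩ := Dom.split (p₁ := ⟨0, m', mk - ld, m', h, vj, uj - h, Ty.L, False⟩)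
    (p₂ := ⟨0, m', 0, m', mk - ld, mk, ld, Ty.M, False⟩) d2 (fun h => h) (fun h => h) (fun h => h) rfl rfl rfl rfl
    (fun u _ => u) (fun _ v => v) (fun _ _ => mk - ld) (fun _ _ => mk)
    (fun u v h1 h2 h3 => ⟨h1, h2, h3⟩) (fun u v _ _ _ => by
      show mk - ld ≤ mk - ld ∧ mk - ld + ld ≤ mk ∧ mk ≤ mk
      omega) (fun S S' u v h1 h2 h3 g => by
      have h1 : h ≤ u := h1
      have h2 : u + (uj - h) ≤ v := h2
      have h3 : v ≤ vj := h3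
      rcases gap_cutL (h := mk - ld) g with g | g
      · exact Or.inl g
      · exact Or.inr (g.mono le_rfl le_rfl le_rfl (show mk ≤ v by omega)))
  -- the cut of the micro tie of `k`
  obtain ⟨B₁, B₂, ⟨d5, m5⟩, ⟨d6, m6⟩, hB⟩ := Dom.split (p₁ := ⟨mk, dk, mk, h, k - b0, k + b0, lm, Ty.M, False⟩)
    (p₂ := ⟨mk, dk, mk, dk, k + b0, h, ld, Ty.M, False⟩) dBk (fun h => h) (fun h => h) (fun h => h) rfl rfl rfl rfl
    (fun u _ => u) (fun _ v => v) (fun _ _ => k + b0) (fun _ _ => h)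
    (fun u v h1 h2 h3 => ⟨h1, h2, h3⟩) (fun u v _ _ _ => by
      show k + b0 ≤ k + b0 ∧ k + b0 + ld ≤ h ∧ h ≤ h
      omega) (fun S S' u v h1 h2 h3 g => by
      have h3 : v ≤ k + b0 := h3
      have h2 : u + lm ≤ v := h2
      rcases gap_cutR (h := h) g with g | g
      · exact Or.inl g
      · exact Or.inr (g.mono le_rfl le_rfl (show u ≤ k + b0 by omega) le_rfl))
  -- the cut of the micro tie of `j`
  obtain ⟨C₁, C₂, ⟨d7, m7⟩, ⟨d8, m8⟩, hC⟩ := Dom.split (p₁ := ⟨mj, dj, mj, j + b0 + ld, j - b0, j + b0, lm, Ty.M, False⟩)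
    (p₂ := ⟨mj, dj, mj, dj, j + b0, j + b0 + ld, ld, Ty.M, False⟩) dBj (fun h => h) (fun h => h) (fun h => h) rfl rfl rfl rfl
    (fun u _ => u) (fun _ v => v) (fun _ _ => j + b0) (fun _ _ => j + b0 + ld)
    (fun u v h1 h2 h3 => ⟨h1, h2, h3⟩) (fun u v _ _ _ => ⟨le_rfl, le_rfl, le_rfl⟩) (fun S S' u v h1 h2 h3 g => by
      have h3 : v ≤ j + b0 := h3
      have h2 : u + lm ≤ v := h2
      rcases gap_cutR (h := j + b0 + ld) g with g | g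
      · exact Or.inl g
      · exact Or.inr (g.mono le_rfl le_rfl (show u ≤ j + b0 by omega) le_rfl))
  have hlv : (N : ℝ) ^ θ ≤ ((uj - h : ℕ) : ℝ) := hld.trans (by exact_mod_cast (by omega : ld ≤ uj - h))
  have n1 := lpr_mono3 (μ := μ) (s := s) (N := N) (ε := ε) (lo := c - zf) (a := uj - h) (a' := ld) (b := lm) (b' := lm) (d := lm) (d' := lm)
    (by omega) le_rfl le_rfl
  have n2 := lpr_perm3 (μ := μ) (s := s) (N := N) (ε := ε) (c - zf) lo lm ld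
  refine Cov.mono (t0q_core (a := (⟨0, m', 0, m', uk, vk, lo, Ty.M, False⟩, Ak)) (m := (⟨mk, dk, mk, dk, k - b0, k + b0, lm, Ty.M, False⟩, Bk))
    (a' := (⟨0, m', 0, m', uj, vj, lo, Ty.M, False⟩, Aj)) (m' := (⟨mj, dj, mj, dj, j - b0, j + b0, lm, Ty.M, False⟩, Bj))
    (A₁ := (⟨0, m', h, m', uj, vj, lo, Ty.M, False⟩, A₁)) (A₂ := (⟨0, m', 0, m', h, vj, uj - h, Ty.L, False⟩, A₂))
    (A₃ := (⟨0, m', mk - ld, m', h, vj, uj - h, Ty.L, False⟩, A₃)) (A₄ := (⟨0, m', 0, m', mk - ld, mk, ld, Ty.M, False⟩, A₄))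
    (B₁ := (⟨mk, dk, mk, h, k - b0, k + b0, lm, Ty.M, False⟩, B₁)) (B₂ := (⟨mk, dk, mk, dk, k + b0, h, ld, Ty.M, False⟩, B₂))
    (C₁ := (⟨mj, dj, mj, j + b0 + ld, j - b0, j + b0, lm, Ty.M, False⟩, C₁))
    (C₂ := (⟨mj, dj, mj, dj, j + b0, j + b0 + ld, ld, Ty.M, False⟩, C₂))
    ⟨⟨?_, hlo⟩, ?_, dAk, mAk⟩ ⟨⟨?_, hlm⟩, ?_, dBk, mBk⟩ ⟨⟨?_, hlm⟩, ?_, dBj, mBj⟩ dAj.1 dAj.2.1
    ⟨⟨?_, hlo⟩, ?_, d1, m1⟩ ⟨⟨?_, hlv⟩, ?_, d3, m3⟩ ⟨⟨?_, hld⟩, ?_, d4, m4⟩ ⟨⟨?_, hlm⟩, ?_, d5, m5⟩ ⟨⟨?_, hld⟩, ?_, d6, m6⟩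
    ⟨⟨?_, hlm⟩, ?_, d7, m7⟩ ⟨⟨?_, hld⟩, ?_, d8, m8⟩ hA hA' hB hC
    ⟨Or.inl ?_, Or.inl ?_, Or.inl ?_, Or.inl ?_, Or.inl ?_, Or.inl ?_⟩ ⟨Or.inl ?_, Or.inl ?_⟩ ⟨Or.inl ?_, Or.inl ?_⟩
    ⟨Or.inl ?_, Or.inl ?_, Or.inl ?_⟩ ⟨Or.inr (Or.inr ⟨fun h => h, Or.inl ?_, ?_⟩), Or.inr (Or.inr ⟨fun h => h, Or.inr ?_, ?_⟩), Or.inl ?_⟩
    le_rfl le_rfl le_rfl le_rfl le_rfl) (fun ω x => le_rfl) ?_
  all_goals dsimp only
  all_goals first
    | omega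
    | skip
  unfold tQ
  rw [n2] at *
  linarith

end Core

/-! ### The rows -/

section Rows

variable [IsProbabilityMeasure μ] {A B : ℕ → Fam N} {lo lm gl b b0 m' : ℕ} {m u v d : ℕ → ℕ} {ty : Ty}

/-- The price of `T0Q` as a function of the distance: near rows keep one own event. -/
def phQ (μ : Measure ℝ) (s : ℝ) (N : ℕ) (ε e : ℝ) (lout lo lm b gl D : ℕ) : ℝ :=
  (if D < 64 * b then lpr μ s N ε lout [lo] + e else 0) + tQ μ s N ε e lout lo lm (min (D / 64) gl)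

omit [IsProbabilityMeasure μ] in
theorem tQ_nonneg (he : 0 ≤ e) (lout lo lm ld : ℕ) : 0 ≤ tQ μ s N ε e lout lo lm ld := by
  have m1 := lpr_nonneg (μ := μ) (s := s) (N := N) (ε := ε) lout [lo, lm, lo, lm]
  have m2 := lpr_nonneg (μ := μ) (s := s) (N := N) (ε := ε) lout [ld, lm, lm]
  have m3 := lpr_nonneg (μ := μ) (s := s) (N := N) (ε := ε) lout [lo, ld, lm]
  unfold tQ
  positivity

omit [IsProbabilityMeasure μ] in
theorem phQ_nonneg (he : 0 ≤ e) (lout lo lm b gl D : ℕ) : 0 ≤ phQ μ s N ε e lout lo lm b gl D := by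
  have m1 := lpr_nonneg (μ := μ) (s := s) (N := N) (ε := ε) lout [lo]
  have m2 := tQ_nonneg (μ := μ) (s := s) (N := N) (ε := ε) he lout lo lm (min (D / 64) gl)
  unfold phQ
  split_ifs <;> positivity

/-- **`T0Q`, PART R, all rows.** -/
theorem t0qR39 (hP : Pk39 μ s ε θ κ N ys M e) (he : 0 ≤ e) (hzc : zf ≤ c) (hcN : c ≤ N)
    (hlo : (N : ℝ) ^ θ ≤ ((c - zf : ℕ) : ℝ)) (hys : ys.Nonempty)
    (hA : Fp μ s N ((N : ℝ) ^ κ) M θ zf ys S (fun j => ⟨0, m', 0, m', u j, v j, lo, ty, False⟩) A lo)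
    (hB : Fp μ s N ((N : ℝ) ^ κ) M θ zf ys S (fun j => ⟨0, m j, 0, m j, j - b0, j + b0, lm, ty, False⟩) B lm)
    (geo : ∀ j ∈ S, gl + b0 ≤ j ∧ j + b0 ≤ m j ∧ m j ≤ u j ∧ u j + lo ≤ v j ∧ v j ≤ j + b ∧ j + b + gl ≤ m') (hb0 : b0 ≤ b)
    (hm' : m' ≤ zf) (hb : (N : ℝ) ^ θ ≤ b) (hgl : (N : ℝ) ^ θ ≤ gl) :
    ∀ j ∈ S, ∀ k ∈ S, avy ys (pr2 μ s N (fun y ω x z => NI zf c x z) (fun y ω x => A j y ω x * B j y ω x)
      (fun y ω x => A k y ω x * B k y ω x)) ≤ phQ μ s N ε e (c - zf) lo lm b gl (rdist j k) := by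
  refine prC39 hP hzc hcN hlo (U := fun j y ω x => A j y ω x * B j y ω x)
    (fun j hj y ω x => mul_nonneg (hA.a0 j hj y ω x) (hB.a0 j hj y ω x))
    (fun j hj y x => (hA.ms j hj y x).mul (hB.ms j hj y x)) hys fun y hy k hk j hj hkj => ?_
  have n1 := lpr_nonneg (μ := μ) (s := s) (N := N) (ε := ε) (c - zf) [lo]
  have n2 := tQ_nonneg (μ := μ) (s := s) (N := N) (ε := ε) he (c - zf) lo lm (min ((j - k) / 64) gl)
  unfold phQ
  by_cases hD : j - k < 64 * b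
  · have ej : El μ s N y ((N : ℝ) ^ κ) M θ zf (⟨0, m', 0, m', u j, v j, lo, ty, False⟩, A j y) := hA.el hj hy
    refine Cov.one (lst1 ej) (fun ω x => ?_) ?_
    · have a1 := hA.a0 j hj y ω x
      have b1 := hB.a0 j hj y ω x
      simp only [List.map_cons, List.map_nil, List.prod_cons, List.prod_nil, mul_one]
      have h1 : A k y ω x * B k y ω x ≤ 1 := mul_le_one₀ (hA.a1 k hk y ω x) (hB.a0 k hk y ω x) (hB.a1 k hk y ω x)
      have h2 : A j y ω x * B j y ω x ≤ A j y ω x := mul_le_of_le_one_right a1 (hB.a1 j hj y ω x)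
      have h3 := mul_le_mul h1 h2 (mul_nonneg a1 b1) zero_le_one
      linarith
    · rw [if_pos hD]
      simp only [List.map_cons, List.map_nil]
      linarith
  · obtain ⟨g1, g2, g3, g4, g5, g6⟩ := geo j hj
    obtain ⟨k1, k2, k3, k4, k5, k6⟩ := geo k hk
    rw [if_neg hD, zero_add]
    have hld : (N : ℝ) ^ θ ≤ ((min ((j - k) / 64) gl : ℕ) : ℝ) := by
      rcases le_total ((j - k) / 64) gl with g | g
      · rw [min_eq_left g]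
        exact hb.trans (by exact_mod_cast (by omega : b ≤ (j - k) / 64))
      · rw [min_eq_right g]
        exact hgl
    have l1 : min ((j - k) / 64) gl ≤ (j - k) / 64 := min_le_left _ _
    have l2 : min ((j - k) / 64) gl ≤ gl := min_le_right _ _
    have hb1 : 1 ≤ b := by
      have h1 : (0 : ℝ) < b := lt_of_lt_of_le (Real.rpow_pos_of_pos (by exact_mod_cast hP.N1) _) hb
      exact_mod_cast h1
    obtain ⟨ld, hldd⟩ : ∃ ld, ld = min ((j - k) / 64) gl := ⟨_, rfl⟩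
    rw [← hldd] at hld l1 l2 ⊢
    obtain ⟨h, hh⟩ : ∃ h, h = j - (j - k) / 8 := ⟨_, rfl⟩
    exact t0qR (h := h) (hA.dom k hk y hy) (hA.dom j hj y hy) (hB.dom k hk y hy) (hB.dom j hj y hy) (hA.ms j hj y) (hB.ms k hk y)
      (hB.ms j hj y) (hA.ok j hj).1.2 (hB.ok j hj).1.2 hld (by omega) (by omega) (by omega) (by omega) (by omega) (by omega)
      (by omega) (by omega) (by omega) (by omega) (by omega) (by omega) (by omega) (by omega) (by omega) (by omega) (by omega)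

/-- **`T0Q`, PART L, all rows.** -/
theorem t0qL39 (hP : Pk39 μ s ε θ κ N ys M e) (he : 0 ≤ e) (hzc : zf ≤ c) (hcN : c ≤ N)
    (hlo : (N : ℝ) ^ θ ≤ ((c - zf : ℕ) : ℝ)) (hys : ys.Nonempty)
    (hA : Fp μ s N ((N : ℝ) ^ κ) M θ zf ys S (fun j => ⟨0, m', 0, m', u j, v j, lo, ty, False⟩) A lo)
    (hB : Fp μ s N ((N : ℝ) ^ κ) M θ zf ys S (fun j => ⟨m j, d j, m j, d j, j - b0, j + b0, lm, ty, False⟩) B lm)
    (geo : ∀ j ∈ S, gl ≤ m j ∧ m j + b0 ≤ j ∧ v j ≤ m j ∧ u j + lo ≤ v j ∧ j ≤ u j + b ∧ j + b0 + gl ≤ d j ∧ d j ≤ zf ∧ j ≤ m')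
    (hdd : ∀ j ∈ S, ∀ k ∈ S, k ≤ j → j ≤ d k) (hb0 : b0 ≤ b)
    (hm' : m' ≤ zf) (hb : (N : ℝ) ^ θ ≤ b) (hgl : (N : ℝ) ^ θ ≤ gl) :
    ∀ j ∈ S, ∀ k ∈ S, avy ys (pr2 μ s N (fun y ω x z => NI zf c x z) (fun y ω x => A j y ω x * B j y ω x)
      (fun y ω x => A k y ω x * B k y ω x)) ≤ phQ μ s N ε e (c - zf) lo lm b gl (rdist j k) := by
  refine prC39 hP hzc hcN hlo (U := fun j y ω x => A j y ω x * B j y ω x)
    (fun j hj y ω x => mul_nonneg (hA.a0 j hj y ω x) (hB.a0 j hj y ω x))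
    (fun j hj y x => (hA.ms j hj y x).mul (hB.ms j hj y x)) hys fun y hy k hk j hj hkj => ?_
  have n1 := lpr_nonneg (μ := μ) (s := s) (N := N) (ε := ε) (c - zf) [lo]
  have n2 := tQ_nonneg (μ := μ) (s := s) (N := N) (ε := ε) he (c - zf) lo lm (min ((j - k) / 64) gl)
  unfold phQ
  by_cases hD : j - k < 64 * b
  · have ej : El μ s N y ((N : ℝ) ^ κ) M θ zf (⟨0, m', 0, m', u j, v j, lo, ty, False⟩, A j y) := hA.el hj hy
    refine Cov.one (lst1 ej) (fun ω x => ?_) ?_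
    · have a1 := hA.a0 j hj y ω x
      have b1 := hB.a0 j hj y ω x
      simp only [List.map_cons, List.map_nil, List.prod_cons, List.prod_nil, mul_one]
      have h1 : A k y ω x * B k y ω x ≤ 1 := mul_le_one₀ (hA.a1 k hk y ω x) (hB.a0 k hk y ω x) (hB.a1 k hk y ω x)
      have h2 : A j y ω x * B j y ω x ≤ A j y ω x := mul_le_of_le_one_right a1 (hB.a1 j hj y ω x)
      have h3 := mul_le_mul h1 h2 (mul_nonneg a1 b1) zero_le_one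
      linarith
    · rw [if_pos hD]
      simp only [List.map_cons, List.map_nil]
      linarith
  · obtain ⟨g1, g2, g3, g4, g5, g6, g7, g8⟩ := geo j hj
    obtain ⟨k1, k2, k3, k4, k5, k6, k7, k8⟩ := geo k hk
    have k9 := hdd j hj k hk hkj
    rw [if_neg hD, zero_add]
    have hld : (N : ℝ) ^ θ ≤ ((min ((j - k) / 64) gl : ℕ) : ℝ) := by
      rcases le_total ((j - k) / 64) gl with g | g
      · rw [min_eq_left g]
        exact hb.trans (by exact_mod_cast (by omega : b ≤ (j - k) / 64))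
      · rw [min_eq_right g]
        exact hgl
    have l1 : min ((j - k) / 64) gl ≤ (j - k) / 64 := min_le_left _ _
    have l2 : min ((j - k) / 64) gl ≤ gl := min_le_right _ _
    have hb1 : 1 ≤ b := by
      have h1 : (0 : ℝ) < b := lt_of_lt_of_le (Real.rpow_pos_of_pos (by exact_mod_cast hP.N1) _) hb
      exact_mod_cast h1
    obtain ⟨ld, hldd⟩ : ∃ ld, ld = min ((j - k) / 64) gl := ⟨_, rfl⟩
    rw [← hldd] at hld l1 l2 ⊢
    obtain ⟨h, hh⟩ : ∃ h, h = k + (j - k) / 8 := ⟨_, rfl⟩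
    refine Cov.mono (t0qL (h := h) (hA.dom k hk y hy) (hA.dom j hj y hy) (hB.dom k hk y hy) (hB.dom j hj y hy) (hA.ms k hk y) (hB.ms k hk y)
      (hB.ms j hj y) (hA.ok j hj).1.2 (hB.ok j hj).1.2 hld (by omega) (by omega) (by omega) (by omega) (by omega) (by omega)
      (by omega) (by omega) (by omega) (by omega) (by omega) (by omega) (by omega) (by omega) (by omega) (by omega) (by omega)
      (by omega) (by omega)) (fun ω x => (mul_comm _ _).le) le_rfl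

end Rows

end

end Pool.Agent.W_7d29a1_C0.E2S39
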