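import Pool.Agent.W_7d29a1_C0.E2S39C
import Pool.Agent.W_7d29a1_C0.E2N39C
import Pool.Agent.W_7d29a1_C0.E2T96
import Pool.Agent.W_7d29a1_C0.E2G43

/-!
STORM C0, leaf E2 (helper39): THE TERMS OF THE ROW BOUND (`Trm96`) FROM FAMILIES OF PLACES.

* `Evf`, `fI`, `eAnd` : families of events of the base path and their indicators; `eNta`, `eRp`, `eRm` : own mass, alternatives, micro tie;
* `Rd39` : the data of a block of rows at one length (regime, geometry `G43`, prices, sizes);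
* `Rd39.fNta`, `Rd39.fRp`, `Rd39.fRm` : these families are dominated by places;
* `Rd39.tO`, `Rd39.tM`, `Rd39.tL`, `Rd39.tQR`, `Rd39.tQL` : own event; own event and micro tie; own event and long tie; `T0Q`.
-/

set_option autoImplicit false
set_option linter.unusedSectionVars false
set_option linter.unusedVariables false

namespace Pool.Agent.W_7d29a1_C0.E2S39

open MeasureTheory ProbabilityTheory Filter Topology Finset
open Pool.Agent.W_7d29a1_F Pool.Agent.W_7d29a1_X Pool.Agent.W_7d29a1_h4g Pool.Agent.W_7d29a1_H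
open Pool.Agent.W_7d29a1_HS (In wd md)
open Pool.Agent.W_7d29a1_HZ Pool.Agent.W_7d29a1_HZ.R72 Pool.Agent.W_7d29a1_Z.Asm72
open Pool.Agent.W_7d29a1_HZ.Z86
open Pool.Agent.W_7d29a1_C0.P86
open Pool.Agent.W_7d29a1_C0.Mod92
open Pool.Agent.W_7d29a1_C0.Swap57 (NI cE2 NI_nonneg)
open Pool.Agent.W_7d29a1_C0.T72 (ind72 meas_ind72 NN72)
open Pool.Agent.W_7d29a1_C0.T93 (rdist Fam2 pr2 rw2 grp93)
open Pool.Agent.W_7d29a1_C0.EvT50 (RpM meas_Rp50 meas_RpM)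
open Pool.Agent.W_7d29a1_C0.E2T96 (Trm96 one96 qb_one96 pr_one96 pr96 rw96)
open Pool.Agent.W_7d29a1_C0.E2G43 (G43)
open Pool.W7d29a1.C0 (gz gm gz_pos gm_nonneg gm_mono gm_const PP PP_mono PP_nonneg)
open Pool.W7d29a1.C0.R43
open scoped ENNReal

noncomputable section

/-! ### Families of events -/

/-- A family of events of the base path: one for every row and every end. -/
abbrev Evf (N : ℕ) := ℕ → (y : ℕ) → Env × Finset ℕ → Px (Pn N y) → Prop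

variable {μ : Measure ℝ} {s : ℝ} {N : ℕ}

/-- The indicators. -/
def fI (E : Evf N) : ℕ → Fam N := fun j y ω x => ind72 (E j y) ω x

/-- Both events. -/
def eAnd (E T : Evf N) : Evf N := fun j y ω S => E j y ω S ∧ T j y ω S

theorem ind_and39 {Q : Finset (Finset ℕ)} (E T : Env × Finset ℕ → Px Q → Prop) (ω : Env × Finset ℕ) (x : Px Q) :
    ind72 (fun ω S => E ω S ∧ T ω S) ω x = ind72 E ω x * ind72 T ω x := by
  unfold ind72
  by_cases h : E ω x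
  · by_cases h' : T ω x
    · rw [if_pos h, if_pos h', if_pos (⟨h, h'⟩ : E ω x ∧ T ω x), mul_one]
    · rw [if_neg h', if_neg fun g => h' g.2, mul_zero]
  · rw [if_neg h, if_neg fun g => h g.1, zero_mul]

theorem fI_and (E T : Evf N) : fI (eAnd E T) = fun j y ω x => fI E j y ω x * fI T j y ω x := by
  funext j y ω x
  exact ind_and39 (E j y) (T j y) ω x

theorem meas_nta39 {Y : Type*} [DecidableEq Y] {Q : Finset (Finset ℕ)} (p : Px Q → Y) (i j : ℕ) (M : ℝ) (S : Px Q) :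
    MeasurableSet {ω | Nta (wm μ s N Q ω) p i j M S} :=
  measurableSet_le measurable_const (meas_cE meas_wm (f := fun _ => NI i j S) (fun _ => measurable_const) _ S)

variable (μ s N) in
/-- The own mass given the block `(c1, z)` is not small on `[u, v]`. -/
def eNta (c1 z u v : ℕ → ℕ) (M : ℝ) : Evf N := fun j y ω => Nta (wm μ s N (Pn N y) ω) (pJ (c1 j) (z j)) (u j) (v j) M

variable (μ s N) in
/-- The base path has an alternative given the block `(c1, z)`, in one of the pieces behind `u`. -/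
def eRp (c1 z u : ℕ → ℕ) (l k : ℕ) (M : ℝ) : Evf N := fun j y ω => Rp (wm μ s N (Pn N y) ω) (pJ (c1 j) (z j)) (u j) l k M

variable (μ s N) in
/-- The base path has an alternative given the block `(c1, z)`, in one of the pieces of the window of the row. -/
def eRm (c1 z : ℕ → ℕ) (b0 l k : ℕ) (M : ℝ) : Evf N := fun j y ω => RpM (wm μ s N (Pn N y) ω) (pJ (c1 j) (z j)) b0 j l k M

/-! ### The data of a block of rows -/

/-- **THE DATA OF A BLOCK OF ROWS**, at one length. -/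
structure Rd39 (μ : Measure ℝ) (s c₀ Θ δ a ε n c ε' θ κ M e e₀ x : ℝ) (N : ℕ) (ys S : Finset ℕ) (b0 b sg gl d r l k r0 : ℕ) :
    Prop where
  R : Reg46 (EE μ s) (wd μ s) c₀ Θ δ a ε n
  bs : Bs46 (EE μ s) δ c n b sg r
  X : Ex39 Θ c ε e₀ x
  ee : 3 * ε ≤ e₀
  geo : ∀ j ∈ S, G43 N b0 b sg gl d j
  win : ∀ j ∈ S, r0 ≤ j ∧ j < r0 + r
  bb : b0 ≤ b
  gd : gl ≤ d
  dN : d ≤ N
  P : Pk39 μ s ε' θ κ N ys M e
  ne : ys.Nonempty
  e0 : 0 ≤ e
  he : n ^ e₀ * (r * (6 * e)) ≤ 1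
  M0 : 0 ≤ M
  MX : 7 * M ≤ (N : ℝ) ^ κ
  kX : (6 * k : ℝ) ≤ (N : ℝ) ^ κ
  kl : 3 * k * (l + 1) ≤ b0
  k1 : 1 ≤ k
  lθ : (N : ℝ) ^ θ ≤ l
  gθ : (N : ℝ) ^ θ ≤ gl
  bθ : (N : ℝ) ^ θ ≤ b
  A : (N : ℝ) ^ ε' ≤ n ^ e₀
  al : (N : ℝ) ^ ε' * (EE' μ s l)⁻¹ ≤ n ^ e₀ / EE μ s b
  ag : (N : ℝ) ^ ε' * (EE' μ s gl)⁻¹ ≤ n ^ e₀ / EE μ s r
  aD : ∀ D : ℕ, 64 * b ≤ D → D < r → (N : ℝ) ^ ε' * (EE' μ s (min (D / 64) gl))⁻¹ ≤ n ^ e₀ / EE μ s D

/-- The gain is at most one. -/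
theorem gain_le {E w : ℕ → ℝ} {c₀ Θ δ a ε n c : ℝ} {t : ℕ} (R : Reg46 E w c₀ Θ δ a ε n) (ht : Rg46 δ n t) (hε : ε ≤ δ / 4) :
    w t / t ≤ 1 := by
  have hN := R.N0
  have ht0 := ht.pos R.N1
  have ht1 : (1 : ℝ) ≤ t := by exact_mod_cast ht.npos R.N1
  have hE := R.Epos t
  have h1 : E t ^ 3 ≤ t := by
    have h2 : (1 : ℝ) ≤ (t : ℝ) ^ (3 * c₀) := Real.one_le_rpow ht1 (by linarith [R.c₀0])
    have h3 := R.stiff t ht
    have h4 : 0 < E t ^ 3 := by positivity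
    nlinarith
  have h2 : n ^ ε ≤ E t := by
    calc n ^ ε ≤ n ^ (δ / 4) := Real.rpow_le_rpow_of_exponent_le R.N1.le hε
      _ = (n ^ δ) ^ (1 / 4 : ℝ) := by
          rw [← Real.rpow_mul hN.le]
          congr 1
          ring
      _ ≤ (t : ℝ) ^ (1 / 4 : ℝ) := Real.rpow_le_rpow (Real.rpow_nonneg hN.le _) ht.lo (by norm_num)
      _ ≤ E t := R.quart t ht
  rw [div_le_one ht0]
  calc w t ≤ n ^ ε * E t ^ 2 := R.wle t ht
    _ ≤ E t * E t ^ 2 := mul_le_mul_of_nonneg_right h2 (by positivity)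
    _ = E t ^ 3 := by ring
    _ ≤ t := h1

section Places

theorem befR {c d c' d' U V l : ℕ} {T : Prop} {q : Plc} (h : q.d' ≤ U ∨ d' ≤ q.c') : Plc.Bef ⟨c, d, c', d', U, V, l, Ty.R, T⟩ q := h

theorem befM {c d c' d' U V l : ℕ} {T : Prop} {q : Plc} (h : V ≤ q.c' ∨ q.d' ≤ c') : Plc.Bef ⟨c, d, c', d', U, V, l, Ty.M, T⟩ q := h

/-- Two rows are in the same block of length `sg`, or their blocks are disjoint. -/
theorem blk39 {sg j k : ℕ} (hs : 0 < sg) (h : k ≤ j) : (k / sg + 1) * sg ≤ j / sg * sg ∨ (k / sg = j / sg ∧ j < k + sg) := by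
  rcases Nat.lt_or_ge (k / sg) (j / sg) with g | g
  · exact Or.inl (Nat.mul_le_mul_right _ g)
  · have e : k / sg = j / sg := le_antisymm (Nat.div_le_div_right h) g
    refine Or.inr ⟨e, ?_⟩
    have h1 : j < (j / sg + 1) * sg := by
      have := Nat.lt_div_mul_add (a := j) hs
      rwa [Nat.succ_mul]
    have h2 := Nat.div_mul_le_self k sg
    rw [e] at h2
    have h3 : (j / sg + 1) * sg = j / sg * sg + sg := Nat.succ_mul _ _
    omega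

end Places

namespace Rd39

variable {c₀ Θ δ a ε n c ε' θ κ M e e₀ x : ℝ} {ys S : Finset ℕ} {b0 b sg gl d r l k r0 : ℕ}

theorem sc (H : Rd39 μ s c₀ Θ δ a ε n c ε' θ κ M e e₀ x N ys S b0 b sg gl d r l k r0) :
    Sc39 μ s N ε' (EE μ s) (n ^ e₀) gl l l gl b r :=
  ⟨Real.one_le_rpow H.R.N1.le H.X.e0, H.ag, H.al, H.al, H.ag⟩

theorem lb (H : Rd39 μ s c₀ Θ δ a ε n c ε' θ κ M e e₀ x N ys S b0 b sg gl d r l k r0) : 3 * l + 3 ≤ b0 := by
  have h1 := H.kl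
  have h2 := H.k1
  nlinarith

theorem sgp (H : Rd39 μ s c₀ Θ δ a ε n c ε' θ κ M e e₀ x N ys S b0 b sg gl d r l k r0) : 0 < sg := by
  have h1 := H.bs.hs.npos H.R.N1
  omega

theorem zd (H : Rd39 μ s c₀ Θ δ a ε n c ε' θ κ M e e₀ x N ys S b0 b sg gl d r l k r0) : d - (d - gl) = gl := Nat.sub_sub_self H.gd

theorem he' (H : Rd39 μ s c₀ Θ δ a ε n c ε' θ κ M e e₀ x N ys S b0 b sg gl d r l k r0) {al : ℝ} (hal : al ^ 2 ≤ n ^ e₀) {t : ℝ}
    (ht : 0 ≤ t) (ht6 : t ≤ 6) : al ^ 2 * (r * (t * e)) ≤ 1 := by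
  have h1 : 0 ≤ r * (t * e) := mul_nonneg (Nat.cast_nonneg _) (mul_nonneg ht H.e0)
  have h2 : (r : ℝ) * (t * e) ≤ r * (6 * e) := mul_le_mul_of_nonneg_left (mul_le_mul_of_nonneg_right ht6 H.e0) (Nat.cast_nonneg _)
  exact (mul_le_mul hal h2 h1 (Real.rpow_nonneg H.R.N0.le _)).trans H.he

/-! ### The families are dominated by places -/

variable {c1 z u v : ℕ → ℕ} {ty : Ty}

theorem fNta [IsProbabilityMeasure μ] (H : Rd39 μ s c₀ Θ δ a ε n c ε' θ κ M e e₀ x N ys S b0 b sg gl d r l k r0) {l' : ℕ}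
    (hl : (N : ℝ) ^ θ ≤ l') (g : ∀ j ∈ S, c1 j ≤ u j ∧ u j + l' ≤ v j ∧ v j ≤ z j ∧ z j ≤ d - gl) :
    Fp μ s N ((N : ℝ) ^ κ) M θ (d - gl) ys S (fun j => ⟨c1 j, z j, c1 j, z j, u j, v j, l', ty, False⟩)
      (fI (eNta μ s N c1 z u v M)) l' where
  ok j hj := by
    obtain ⟨g1, g2, g3, g4⟩ := g j hj
    have h1 := H.dN
    refine ⟨⟨?_, hl⟩, g4, rfl⟩
    show c1 j ≤ c1 j ∧ c1 j ≤ u j ∧ u j ≤ v j ∧ v j ≤ z j ∧ z j ≤ z j ∧ z j ≤ N
    omega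
  dom j hj y hy := by
    obtain ⟨g1, g2, g3, g4⟩ := g j hj
    exact dom_nta H.P.X1 g1 g3 g2 (by linarith [H.MX, H.M0])
  ms j hj y x := by
    have : Nonempty (Px (Pn N y)) := ⟨x⟩
    exact meas_ind72 (fun S => meas_nta39 _ _ _ _ S) x
  a0 j hj y ω x := i0 _ _ _
  a1 j hj y ω x := i1 _ _ _

theorem fRp [IsProbabilityMeasure μ] (H : Rd39 μ s c₀ Θ δ a ε n c ε' θ κ M e e₀ x N ys S b0 b sg gl d r l k r0)
    (g : ∀ j ∈ S, c1 j ≤ u j ∧ u j + 3 * k * (l + 1) ≤ v j ∧ v j ≤ z j ∧ z j ≤ d - gl) :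
    Fp μ s N ((N : ℝ) ^ κ) M θ (d - gl) ys S (fun j => ⟨c1 j, z j, c1 j, z j, u j, v j, l, ty, False⟩)
      (fI (eRp μ s N c1 z u l k M)) l where
  ok j hj := by
    obtain ⟨g1, g2, g3, g4⟩ := g j hj
    have h1 := H.dN
    refine ⟨⟨?_, H.lθ⟩, g4, rfl⟩
    show c1 j ≤ c1 j ∧ c1 j ≤ u j ∧ u j ≤ v j ∧ v j ≤ z j ∧ z j ≤ z j ∧ z j ≤ N
    omega
  dom j hj y hy := by
    obtain ⟨g1, g2, g3, g4⟩ := g j hj
    have h2 := H.kX
    have h3 : (0 : ℝ) ≤ k := Nat.cast_nonneg _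
    exact dom_rp (by linarith [H.P.X1]) g1 g3 le_rfl g2 (by linarith) H.MX
  ms j hj y x := by
    have : Nonempty (Px (Pn N y)) := ⟨x⟩
    exact meas_ind72 (fun S => meas_Rp50 _ _ _ _ _ S) x
  a0 j hj y ω x := i0 _ _ _
  a1 j hj y ω x := i1 _ _ _

theorem fRm [IsProbabilityMeasure μ] (H : Rd39 μ s c₀ Θ δ a ε n c ε' θ κ M e e₀ x N ys S b0 b sg gl d r l k r0)
    (g : ∀ j ∈ S, b0 ≤ j ∧ c1 j ≤ j - b0 ∧ j + b0 ≤ z j ∧ z j ≤ d - gl) :
    Fp μ s N ((N : ℝ) ^ κ) M θ (d - gl) ys S (fun j => ⟨c1 j, z j, c1 j, z j, j - b0, j + b0, l, ty, False⟩)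
      (fI (eRm μ s N c1 z b0 l k M)) l where
  ok j hj := by
    obtain ⟨g1, g2, g3, g4⟩ := g j hj
    have h1 := H.dN
    refine ⟨⟨?_, H.lθ⟩, g4, rfl⟩
    show c1 j ≤ c1 j ∧ c1 j ≤ j - b0 ∧ j - b0 ≤ j + b0 ∧ j + b0 ≤ z j ∧ z j ≤ z j ∧ z j ≤ N
    omega
  dom j hj y hy := by
    obtain ⟨g1, g2, g3, g4⟩ := g j hj
    exact dom_rpM (by linarith [H.P.X1]) g2 g3 g1 H.kl H.kX H.MX
  ms j hj y x := by
    have : Nonempty (Px (Pn N y)) := ⟨x⟩
    exact meas_ind72 (fun S => meas_RpM _ _ _ _ _ _ S) x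
  a0 j hj y ω x := i0 _ _ _
  a1 j hj y ω x := i1 _ _ _

/-! ### The terms -/

/-- From the price of `pr2` to the price of the functionals with the outer tie. -/
theorem pr_of39 {zt d : ℕ} {A A' : Fam N} {t : ℝ} (h : avy ys (pr2 μ s N (fun y ω x z => NI zt d x z) A A') ≤ t) :
    avy ys (pr96 μ s N (one96 N A zt d) (one96 N A' zt d)) ≤ t := by
  have e1 : pr96 μ s N (one96 N A zt d) (one96 N A' zt d) = pr2 μ s N (fun y ω x z => NI zt d x z) A A' := by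
    funext y
    exact pr_one96 A A' zt d y
  rw [e1]
  exact h

variable {E : Evf N} {p : ℕ → Plc}

/-- **OWN EVENT.** The gain `G` is `(w_b / b) ^ 2` or `w_r / r`. -/
def tO [IsProbabilityMeasure μ] (H : Rd39 μ s c₀ Θ δ a ε n c ε' θ κ M e e₀ x N ys S b0 b sg gl d r l k r0) (al : ℝ) (al0 : 0 ≤ al)
    {G : ℝ} (hG : G = (wd μ s b / b) ^ 2 ∨ G = wd μ s r / r) (hal : al ^ 2 ≤ n ^ e₀ * G)
    (hE : Fp μ s N ((N : ℝ) ^ κ) M θ (d - gl) ys S p (fI E) l)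
    (ord : ∀ k ∈ S, ∀ j ∈ S, k + sg ≤ j → (p j).Bef (p k) ∨ (p k).Bef (p j)) :
    Trm96 μ s N ys S r (n ^ (Θ - 2 * x)) :=
  Trm96.ofDist H.win al 1 (fun _ j => one96 N (fI E j) (d - gl) d) (phO μ s N ε' e gl l sg) al0
    (fun _ _ j hj => qb_one96 (hE.a0 j hj) (hE.a1 j hj) (hE.ms j hj) _ _) (fun D => (ph_nonneg H.e0 _ _ l _ sg D).1)
    (fun _ _ j hj k hk => by
      have h1 := own39 (hh := sg) H.P H.e0 (Nat.sub_le d gl) H.dN (by rw [H.zd]; exact H.gθ) H.ne hE ord j hj k hk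
      rw [H.zd] at h1
      exact pr_of39 h1)
    (by
      have hn := H.R.N0
      have hs : (sg : ℝ) ≤ n ^ e₀ * sg := by
        have h1 : (1 : ℝ) ≤ n ^ e₀ := Real.one_le_rpow H.R.N1.le H.X.e0
        have h2 : (0 : ℝ) ≤ sg := Nat.cast_nonneg _
        nlinarith
      have hε : ε ≤ δ / 4 := by linarith [H.X.q1, H.X.x0, H.X.e0, H.bs.cδ, H.R.ε0, H.R.δ0]
      have hb0 := H.bs.hb.pos H.R.N1
      have hr0 := H.bs.hr.pos H.R.N1
      have g0 : 0 ≤ wd μ s b / b := div_nonneg (H.R.w0 b (H.bs.hb.npos H.R.N1)).le hb0.le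
      have hG1 : G ≤ 1 := by
        rcases hG with rfl | rfl
        · exact pow_le_one₀ g0 (gain_le (c := c) H.R H.bs.hb hε)
        · exact gain_le (c := c) H.R H.bs.hr hε
      have hal' : al ^ 2 ≤ n ^ e₀ := hal.trans (mul_le_of_le_one_right (Real.rpow_nonneg hn.le _) hG1)
      exact numO39 H.R H.bs H.sc H.X le_rfl hG hal hs H.e0 (H.he' hal' (by norm_num) (by norm_num)))

/-- **OWN EVENT AND MICRO TIE**, averaged over `nn` micro ties. -/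
def tM [IsProbabilityMeasure μ] (H : Rd39 μ s c₀ Θ δ a ε n c ε' θ κ M e e₀ x N ys S b0 b sg gl d r l k r0) (al : ℝ) (al0 : 0 ≤ al)
    (hal : al ^ 2 ≤ n ^ e₀) (nn : ℕ) (hE : Fp μ s N ((N : ℝ) ^ κ) M θ (d - gl) ys S p (fI E) l) {T : ℕ → Evf N} {q : ℕ → ℕ → Plc}
    (hT : ∀ u < nn, Fp μ s N ((N : ℝ) ^ κ) M θ (d - gl) ys S (q u) (fI (T u)) l)
    (ord : ∀ u < nn, ∀ k ∈ S, ∀ j ∈ S, k + b ≤ j → (j < k + sg ∧ Os p (q u) k j) ∨ Od p (q u) k j) :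
    Trm96 μ s N ys S r (n ^ (Θ - 2 * x)) :=
  Trm96.ofDist H.win al nn (fun u j => one96 N (fI (eAnd E (T u)) j) (d - gl) d) (phM μ s N ε' e gl l l b sg) al0
    (fun u hu j hj => by
      rw [fI_and]
      exact qb_one96 (fun y ω x => mul_nonneg (hE.a0 j hj y ω x) ((hT u hu).a0 j hj y ω x))
        (fun y ω x => mul_le_one₀ (hE.a1 j hj y ω x) ((hT u hu).a0 j hj y ω x) ((hT u hu).a1 j hj y ω x))
        (fun y x => (hE.ms j hj y x).mul ((hT u hu).ms j hj y x)) _ _) (fun D => (ph_nonneg H.e0 _ _ l _ sg D).2.1)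
    (fun u hu j hj k hk => by
      have h1 := mic39 (hh := b) (s' := sg) H.P H.e0 (Nat.sub_le d gl) H.dN (by rw [H.zd]; exact H.gθ) H.ne hE (hT u hu) (ord u hu)
        j hj k hk
      rw [H.zd] at h1
      rw [fI_and]
      exact pr_of39 h1)
    (by
      have h1 : (1 : ℝ) ≤ n ^ e₀ := Real.one_le_rpow H.R.N1.le H.X.e0
      have h2 : (0 : ℝ) ≤ sg := Nat.cast_nonneg _
      have h3 : (0 : ℝ) ≤ b := Nat.cast_nonneg _
      exact numM39 H.R H.bs H.sc H.X le_rfl hal (by nlinarith) (by nlinarith) H.e0 (H.he' hal (by norm_num) (by norm_num)))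

/-- **OWN EVENT AND LONG TIE BEHIND THE BLOCK**, averaged over `nn` long ties. -/
def tL [IsProbabilityMeasure μ] (H : Rd39 μ s c₀ Θ δ a ε n c ε' θ κ M e e₀ x N ys S b0 b sg gl d r l k r0) (al : ℝ) (al0 : 0 ≤ al)
    (hal : al ^ 2 ≤ n ^ e₀) (nn : ℕ) (hE : Fp μ s N ((N : ℝ) ^ κ) M θ (d - gl) ys S p (fI E) l) {T : ℕ → Evf N} {q : ℕ → ℕ → Plc}
    (hT : ∀ u < nn, Fp μ s N ((N : ℝ) ^ κ) M θ (d - gl) ys S (q u) (fI (T u)) gl)
    (ord : ∀ u < nn, ∀ k ∈ S, ∀ j ∈ S, k + b ≤ j → (q u j).Bef (p j) ∧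
      (j < k + sg ∨ ((q u j).Bef (p k) ∧ ((p j).Bef (p k) ∨ (p k).Bef (p j))))) :
    Trm96 μ s N ys S r (n ^ (Θ - 2 * x)) :=
  Trm96.ofDist H.win al nn (fun u j => one96 N (fI (eAnd E (T u)) j) (d - gl) d) (phL μ s N ε' e gl l gl b sg) al0
    (fun u hu j hj => by
      rw [fI_and]
      exact qb_one96 (fun y ω x => mul_nonneg (hE.a0 j hj y ω x) ((hT u hu).a0 j hj y ω x))
        (fun y ω x => mul_le_one₀ (hE.a1 j hj y ω x) ((hT u hu).a0 j hj y ω x) ((hT u hu).a1 j hj y ω x))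
        (fun y x => (hE.ms j hj y x).mul ((hT u hu).ms j hj y x)) _ _) (fun D => (ph_nonneg H.e0 _ _ gl _ sg D).2.2)
    (fun u hu j hj k hk => by
      have h1 := long39 (hh := b) (s' := sg) H.P H.e0 (Nat.sub_le d gl) H.dN (by rw [H.zd]; exact H.gθ) H.ne hE (hT u hu) (ord u hu)
        j hj k hk
      rw [H.zd] at h1
      rw [fI_and]
      exact pr_of39 h1)
    (by
      have h1 : (1 : ℝ) ≤ n ^ e₀ := Real.one_le_rpow H.R.N1.le H.X.e0
      have h2 : (0 : ℝ) ≤ sg := Nat.cast_nonneg _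
      have h3 : (0 : ℝ) ≤ b := Nat.cast_nonneg _
      exact numL39 H.R H.bs H.sc H.X le_rfl hal (by nlinarith) (by nlinarith) H.e0 (H.he' hal (by norm_num) (by norm_num)))

/-- **`T0Q`**, averaged over `nn` own events and micro ties, from the price of all the pairs of rows (`t0qR39`, `t0qL39`). -/
def tQ39 [IsProbabilityMeasure μ] (H : Rd39 μ s c₀ Θ δ a ε n c ε' θ κ M e e₀ x N ys S b0 b sg gl d r l k r0) (al : ℝ) (al0 : 0 ≤ al)
    (hal : al ^ 2 ≤ n ^ e₀) (nn : ℕ) {E T : ℕ → Evf N} {p q : ℕ → ℕ → Plc}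
    (hE : ∀ u < nn, Fp μ s N ((N : ℝ) ^ κ) M θ (d - gl) ys S (p u) (fI (E u)) l)
    (hT : ∀ u < nn, Fp μ s N ((N : ℝ) ^ κ) M θ (d - gl) ys S (q u) (fI (T u)) l)
    (pr : ∀ u < nn, ∀ j ∈ S, ∀ k ∈ S, avy ys (pr2 μ s N (fun y ω x z => NI (d - gl) d x z)
      (fun y ω x => fI (E u) j y ω x * fI (T u) j y ω x) (fun y ω x => fI (E u) k y ω x * fI (T u) k y ω x)) ≤
        phQ μ s N ε' e (d - (d - gl)) l l b gl (rdist j k)) :
    Trm96 μ s N ys S r (n ^ (Θ - 2 * x)) :=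
  Trm96.ofDist H.win al nn (fun u j => one96 N (fI (eAnd (E u) (T u)) j) (d - gl) d) (phQ μ s N ε' e gl l l b gl) al0
    (fun u hu j hj => by
      rw [fI_and]
      exact qb_one96 (fun y ω x => mul_nonneg ((hE u hu).a0 j hj y ω x) ((hT u hu).a0 j hj y ω x))
        (fun y ω x => mul_le_one₀ ((hE u hu).a1 j hj y ω x) ((hT u hu).a0 j hj y ω x) ((hT u hu).a1 j hj y ω x))
        (fun y x => ((hE u hu).ms j hj y x).mul ((hT u hu).ms j hj y x)) _ _) (fun D => phQ_nonneg H.e0 _ _ _ _ _ D)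
    (fun u hu j hj k hk => by
      have h1 := pr u hu j hj k hk
      rw [H.zd] at h1
      rw [fI_and]
      exact pr_of39 h1)
    (numQ39 H.R H.bs H.sc H.X le_rfl H.A hal H.ee H.aD H.e0 (H.he' hal (by norm_num) (by norm_num)))

end Rd39

end

end Pool.Agent.W_7d29a1_C0.E2S39
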