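import Pool.Agent.W_7d29a1_C0.E2S39G
import Pool.Agent.W_7d29a1_C0.E2CL45

/-!
STORM C0, leaf E2 (helper39): THE TERMS OF PART L OVER THE FAMILIES OF `E2CL45`. The own terms with the four gains, the bare outer tie, and
for each family of `E2CL45` the comparison `Ab43` of its functional with the term.
-/

set_option autoImplicit false
set_option linter.unusedSectionVars false
set_option linter.unusedVariables false

namespace Pool.Agent.W_7d29a1_C0.E2S39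

open MeasureTheory ProbabilityTheory Filter Topology Finset
open Pool.Agent.W_7d29a1_F Pool.Agent.W_7d29a1_X Pool.Agent.W_7d29a1_h4g Pool.Agent.W_7d29a1_H
open Pool.Agent.W_7d29a1_HS (In wd md)
open Pool.Agent.W_7d29a1_HZ Pool.Agent.W_7d29a1_HZ.R72 Pool.Agent.W_7d29a1_Z.Asm72
open Pool.Agent.W_7d29a1_HZ.Z86
open Pool.Agent.W_7d29a1_C0.P86
open Pool.Agent.W_7d29a1_C0.Mod92
open Pool.Agent.W_7d29a1_C0.Swap57 (NI cE2 NI_nonneg)
open Pool.Agent.W_7d29a1_C0.T72 (Sp72 ind72 meas_ind72 NN72)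
open Pool.Agent.W_7d29a1_C0.T93 (rdist Fam2 pr2 rw2 grp93)
open Pool.Agent.W_7d29a1_C0.EvT50 (RpM meas_Rp50 meas_RpM)
open Pool.Agent.W_7d29a1_C0.E2T96 (Trm96 one96 qb_one96 pr_one96 pr96 rw96)
open Pool.Agent.W_7d29a1_C0.E2C96 (evF evF_nonneg evF_le_one meas_evF meas_nta96 mR mR_one)
open Pool.Agent.W_7d29a1_C0.E2CL45 (LOl LLg LT2l LTpl LT0l)
open Pool.Agent.W_7d29a1_C0.E2G43 (G43 nR1 nR2 mc4)
open Pool.Agent.W_7d29a1_C0.E2N62 (Gn62 gn_ww62 gn_wr62 gn_b62 gn_r62 numG62 trmB62)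
open Pool.Agent.W_7d29a1_C0.E2D43 (Dec43)
open Pool.Agent.W_7d29a1_C0.E2J43 (Ab43 decR43)
open Pool.Agent.W_7d29a1_C0.E2D96 (LU qU)
open Pool.W7d29a1.C0 (gz gm gz_pos gm_nonneg gm_mono gm_const PP PP_mono PP_nonneg PP_add)
open Pool.W7d29a1.C0.VT31
open Pool.W7d29a1.C0.R43
open scoped ENNReal

noncomputable section

variable {μ : Measure ℝ} {s : ℝ} {N : ℕ}

namespace Rd39

variable {c₀ Θ δ a ε n c ε' θ κ M e e₀ x : ℝ} {ys S : Finset ℕ} {b0 b sg gl d r l k r0 : ℕ}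

section L

variable [IsProbabilityMeasure μ] (H : Rd39 μ s c₀ Θ δ a ε n c ε' θ κ M e e₀ x N ys S b0 b sg gl d r l k r0) (al : ℝ) (al0 : 0 ≤ al)

/-- The own event of part L given `(0, z)`, the four gains. -/
def lOR {G : ℝ} (hG : Og39 μ s b r G) (hal : al ^ 2 ≤ n ^ e₀ * G) : Trm96 μ s N ys S r (n ^ (Θ - 2 * x)) :=
  H.tG39 al al0 hG hal (E := eRp μ s N (fun _ => 0) (zz39 sg) (fun j => j - b) l k M)
    (p := fun j => ⟨0, zz39 sg j, 0, zz39 sg j, j - b, j - b / 2, l, Ty.R, False⟩)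
    (foL H (c' := fun _ => 0) (fun j hj => by have h1 := lin39 (H.geo j hj); show 0 + b ≤ j; omega) fun j hj => by
      have h1 := lin39 (H.geo j hj)
      omega)
    fun k hk j hj hkj => by
      have h1 := lin39 (H.geo j hj)
      have h2 := lin39 (H.geo k hk)
      have h3 := blz39 H.sgp (show k ≤ j by omega)
      exact Or.inl (befR (Or.inl (show zz39 sg k ≤ j - b by omega)))

/-- The own mass of part L given the block, the four gains. -/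
def lOB {G : ℝ} (hG : Og39 μ s b r G) (hal : al ^ 2 ≤ n ^ e₀ * G) : Trm96 μ s N ys S r (n ^ (Θ - 2 * x)) :=
  H.tG39 al al0 hG hal (E := eNta μ s N (cc39 sg) (zz39 sg) (fun j => j - b) (fun j => j - b / 2) M)
    (p := fun j => ⟨cc39 sg j, zz39 sg j, cc39 sg j, zz39 sg j, j - b, j - b / 2, l, Ty.M, False⟩)
    (H.fNta H.lθ fun j hj => by
      have h1 := lin39 (H.geo j hj)
      have h2 := H.lb
      show cc39 sg j ≤ j - b ∧ j - b + l ≤ j - b / 2 ∧ j - b / 2 ≤ zz39 sg j ∧ zz39 sg j ≤ d - gl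
      omega)
    fun k hk j hj hkj => by
      have h1 := lin39 (H.geo j hj)
      have h2 := lin39 (H.geo k hk)
      have h3 := blz39 H.sgp (show k ≤ j by omega)
      exact Or.inr (befM (Or.inl (show k - b / 2 ≤ cc39 sg j by omega)))

/-- The bare outer tie. -/
def tB39 (hal : al ^ 2 ≤ n ^ e₀ * (1 / EE μ s b ^ 4)) : Trm96 μ s N ys S r (n ^ (Θ - 2 * x)) :=
  trmB62 H.R H.bs (cc := d) (zf := d - gl) (by rw [H.zd]; exact H.sc) H.X le_rfl H.P H.ne (Nat.sub_le d gl) H.dN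
    (by rw [H.zd]; exact H.gθ) H.win al0 hal H.e0 (by
      have hn := H.R.N0
      have h1 : 1 ≤ EE μ s b := H.E1 H.bs.hb
      have h2 : 1 / EE μ s b ^ 4 ≤ 1 := by
        rw [div_le_one (by positivity)]
        exact one_le_pow₀ h1
      have hal' : al ^ 2 ≤ n ^ e₀ := hal.trans (mul_le_of_le_one_right (Real.rpow_nonneg hn.le _) h2)
      have h3 := H.he' hal' (t := 1) (by norm_num) (by norm_num)
      rwa [one_mul] at h3)

theorem tB39_Q (hal : al ^ 2 ≤ n ^ e₀ * (1 / EE μ s b ^ 4)) (u j : ℕ) : (H.tB39 al al0 hal).Q u j = qU N gl d := rfl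

end L

section Ab

variable [IsProbabilityMeasure μ] {al : ℝ} {al0 : 0 ≤ al} {f : Fam N} {cb : ℕ} {D eT : ℝ}

/-- The bare outer tie. -/
theorem abB (H : Rd39 μ s c₀ Θ δ a ε n c ε' θ κ M e e₀ x N ys S b0 b sg gl d r l k r0) {hal : al ^ 2 ≤ n ^ e₀ * (1 / EE μ s b ^ 4)}
    (heT : 0 ≤ eT) : Ab43 (H.tB39 al al0 hal) f (fun j y => rw96 μ s N (qU N gl d) f y) eT := fun j hj y hy => by
  have h1 : mR μ s N (H.tB39 al al0 hal).n (fun u => (H.tB39 al al0 hal).Q u j) f y = rw96 μ s N (qU N gl d) f y := mR_one _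
  rw [h1]
  linarith

/-- Own given `(0, z)`. -/
theorem abLO (H : Rd39 μ s c₀ Θ δ a ε n c ε' θ κ M e e₀ x N ys S b0 b sg gl d r l k r0) {G : ℝ} {hG : Og39 μ s b r G}
    {hal : al ^ 2 ≤ n ^ e₀ * G} (heT : 0 ≤ eT) : Ab43 (H.lOR al al0 hG hal) f
      (fun j y => rw96 μ s N (one96 N (LOl μ s N (zz39 sg j) (j - b) l k M) (d - gl) d) f y) eT := fun j hj y hy => by
  have h1 : mR μ s N (H.lOR al al0 hG hal).n (fun u => (H.lOR al al0 hG hal).Q u j) f y =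
      rw96 μ s N (one96 N (LOl μ s N (zz39 sg j) (j - b) l k M) (d - gl) d) f y := mR_one _
  rw [h1]
  linarith

/-- Own given the block and micro tie. -/
theorem abL2 (H : Rd39 μ s c₀ Θ δ a ε n c ε' θ κ M e e₀ x N ys S b0 b sg gl d r l k r0) {hal : al ^ 2 ≤ n ^ e₀} {A : ℕ → ℕ} {nn : ℕ}
    {hA : ∀ j ∈ S, j ≤ A j + 3 * (b / 8) ∧ A j + nn + b / 8 ≤ j + 1} {ee : ℕ → ℕ} {hee : ∀ j ∈ S, j + b0 ≤ ee j ∧ ee j ≤ d - gl}
    (heT : 0 ≤ eT) : Ab43 (H.lT2 al al0 hal hA hee) f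
      (fun j y => mR μ s N nn (fun u => one96 N (LT2l μ s N (cc39 sg j) (zz39 sg j) (j - b) (j - b / 2) (ee j) b0 j l k M (A j + u))
        (d - gl) d) f y) eT := fun j hj y hy => le_add_of_nonneg_right heT

/-- The alternatives given the block and micro tie. -/
theorem abLp (H : Rd39 μ s c₀ Θ δ a ε n c ε' θ κ M e e₀ x N ys S b0 b sg gl d r l k r0) {hal : al ^ 2 ≤ n ^ e₀} {A : ℕ → ℕ} {nn : ℕ}
    {hA : ∀ j ∈ S, j ≤ A j + 3 * (b / 8) ∧ A j + nn + b / 8 ≤ j + 1} {ee : ℕ → ℕ} {hee : ∀ j ∈ S, j + b0 ≤ ee j ∧ ee j ≤ d - gl}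
    (heT : 0 ≤ eT) : Ab43 (H.lTp al al0 hal hA hee) f
      (fun j y => mR μ s N nn (fun u => one96 N (LTpl μ s N (cc39 sg j) (zz39 sg j) (j - b) l (ee j) b0 j l k M (A j + u))
        (d - gl) d) f y) eT := fun j hj y hy => le_add_of_nonneg_right heT

/-- The own event given a macro row, and micro tie. -/
theorem abL0 (H : Rd39 μ s c₀ Θ δ a ε n c ε' θ κ M e e₀ x N ys S b0 b sg gl d r l k r0) {hal : al ^ 2 ≤ n ^ e₀} {A : ℕ → ℕ} {nn : ℕ}
    {hA : ∀ j ∈ S, j ≤ A j + 3 * (b / 8) ∧ A j + nn + b / 8 ≤ j + 1} {a' nn' e1 : ℕ} {ha' : ∀ j ∈ S, j ≤ a'}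
    {ha2 : a' + nn' ≤ d - gl + 1} {he1 : ∀ j ∈ S, j + b0 + gl ≤ e1} {he2 : e1 ≤ d - gl}
    (heT : 0 ≤ eT) : Ab43 (H.lT0 al al0 hal hA ha' ha2 he1 he2) f
      (fun j y => mR μ s N (nn' * nn) (fun u => one96 N (LT0l μ s N (j - b) l e1 b0 j l k M (a' + u / nn) (A j + u % nn))
        (d - gl) d) f y) eT := fun j hj y hy => le_add_of_nonneg_right heT

/-- The long tie. -/
theorem abLg (H : Rd39 μ s c₀ Θ δ a ε n c ε' θ κ M e e₀ x N ys S b0 b sg gl d r l k r0) {hal : al ^ 2 ≤ n ^ e₀}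
    {a' nn' e1 : ℕ} {ha2 : a' + nn' ≤ d - gl + 1} {hz : ∀ j ∈ S, zz39 sg j + gl ≤ e1} {he3 : e1 ≤ a'}
    (heT : 0 ≤ eT) : Ab43 (H.lLg al al0 hal ha2 hz he3) f
      (fun j y => mR μ s N nn' (fun u => one96 N (LLg μ s N (zz39 sg j) (j - b) l k (zz39 sg j) e1 M (a' + u)) (d - gl) d) f y) eT :=
  fun j hj y hy => le_add_of_nonneg_right heT

/-- The start and the end of the near slabs of part L. -/
theorem hL1 (H : Rd39 μ s c₀ Θ δ a ε n c ε' θ κ M e e₀ x N ys S b0 b sg gl d r l k r0) :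
    ∀ j ∈ S, j ≤ j - b / 4 + 1 + 3 * (b / 8) ∧ j - b / 4 + 1 + b / 8 + b / 8 ≤ j + 1 := fun j hj => by
  have h1 := lin39 (H.geo j hj)
  exact ⟨by omega, by omega⟩

theorem hL2 (H : Rd39 μ s c₀ Θ δ a ε n c ε' θ κ M e e₀ x N ys S b0 b sg gl d r l k r0) :
    ∀ j ∈ S, j ≤ j - 3 * (b / 8) + 1 + 3 * (b / 8) ∧ j - 3 * (b / 8) + 1 + b / 8 + b / 8 ≤ j + 1 := fun j hj => by
  have h1 := lin39 (H.geo j hj)
  exact ⟨by omega, by omega⟩

/-- The ends of the micro ties of part L. -/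
theorem hz39 (H : Rd39 μ s c₀ Θ δ a ε n c ε' θ κ M e e₀ x N ys S b0 b sg gl d r l k r0) :
    ∀ j ∈ S, j + b0 ≤ zz39 sg j ∧ zz39 sg j ≤ d - gl := fun j hj => by
  have h1 := lin39 (H.geo j hj)
  exact ⟨by omega, by omega⟩

theorem he39 (H : Rd39 μ s c₀ Θ δ a ε n c ε' θ κ M e e₀ x N ys S b0 b sg gl d r l k r0) :
    ∀ j ∈ S, j + b0 ≤ d - 6 * gl ∧ d - 6 * gl ≤ d - gl := fun j hj => by
  have h1 := lin39 (H.geo j hj)
  exact ⟨by omega, by omega⟩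

/-- The long tie and the macro rows. -/
theorem hg39 (H : Rd39 μ s c₀ Θ δ a ε n c ε' θ κ M e e₀ x N ys S b0 b sg gl d r l k r0) : ∀ j ∈ S, zz39 sg j + gl ≤ d - 6 * gl ∧
    j + b0 + gl ≤ d - 6 * gl ∧ j ≤ d - 5 * gl + 1 ∧ j ≤ d - 3 * gl + 1 ∧ d - 5 * gl + 1 + gl ≤ d - gl + 1 ∧
    d - 3 * gl + 1 + gl ≤ d - gl + 1 ∧ d - 6 * gl ≤ d - 5 * gl + 1 ∧ d - 6 * gl ≤ d - 3 * gl + 1 := fun j hj => by
  have h1 := lin39 (H.geo j hj)
  exact ⟨by omega, by omega, by omega, by omega, by omega, by omega, by omega, by omega⟩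

end Ab

end Rd39

end

end Pool.Agent.W_7d29a1_C0.E2S39
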