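import Pool.Agent.W_7d29a1_C0.FarD34

/-!
MP_7d29a1_pr, [CURV0], leaf E1f, F5 (helper34): THE FAR TERMS OF E1 AT THE INTERPOLATED WEIGHTS, in expectation.

`steep34`: the mass of the paths which are not flat under the tilted weights `wU` is exponentially small. `far_wt34`: the average of `Ff`
(free replica far from both own replicas, times `NI |f - f'|`) under `wU` is at most `N ^ ε` times the price `p` of an extreme replica
(`FP`) times the average of `NI |f - f'|` at the corner, up to exponentially small terms and `N ^ (-K')`.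
-/

set_option autoImplicit false
set_option linter.unusedSectionVars false
set_option linter.unusedVariables false

namespace Pool.Agent.W_7d29a1_C0.Far34

open Finset MeasureTheory Filter Topology Pool.Agent.W_7d29a1_F Pool.Agent.W_7d29a1_X Pool.Agent.W_7d29a1_H
open Pool.Agent.W_7d29a1_HS (In)
open Pool.Agent.W_7d29a1_HZ (wd')
open Pool.Agent.W_7d29a1_C0 Pool.Agent.W_7d29a1_C0.Mod92 Pool.Agent.W_7d29a1_C0.Swap57
open Pool.W7d29a1.C0 Pool.W7d29a1.C0.VT31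
open Pool.W7d29a1.C0.Fld19 Pool.W7d29a1.C0.H27 Pool.Agent.W_7d29a1_C0.Q32
open Pool.Agent.W_7d29a1_C0.LocM18 (Ns Cna LocB locM18)

noncomputable section

variable {μ : Measure ℝ} {s : ℝ} {N : ℕ}

/-- The flatness of the model. -/
def vv (μ : Measure ℝ) (s : ℝ) (N : ℕ) (ε : ℝ) (k : ℕ) : ℝ := (N : ℝ) ^ ε * wd' μ s k

theorem vv_nonneg (ε : ℝ) (k : ℕ) : 0 ≤ vv μ s N ε k :=
  mul_nonneg (Real.rpow_nonneg (Nat.cast_nonneg _) _) (zero_le_one.trans (le_max_left _ _))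

theorem fl_of_Ns {Q : Finset (Finset ℕ)} {ε : ℝ} {S : Px Q} (h : Ns μ s ε 0 N S) : Fl N (sl μ s) (vv μ s N ε) S := fun i k hk hik => by
  have h1 := h i k hk (Nat.zero_le _) hik
  rw [Nat.sub_zero] at h1
  exact h1

/-- Change of the weights of a mean. -/
theorem gm_tilt34 {X : Type*} [Fintype X] [Nonempty X] {w w' : X → ℝ} {D : ℝ} (h : ∀ x, |w' x - w x| ≤ D) {f : X → ℝ}
    (hf : ∀ x, 0 ≤ f x) : gm w' f ≤ Real.exp (2 * D) * gm w f := by
  obtain ⟨x⟩ := (inferInstance : Nonempty X)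
  rw [← gm_eq_cE w' f x, ← gm_eq_cE w f x]
  exact T73.cE_tilt73 h _ hf x

theorem Pok_mono {δ δ' : ℝ} (hN : 1 ≤ N) (hd : δ ≤ δ') {P : Finset (Finset ℕ)} (h : H7.Pok μ s N δ P) : H7.Pok μ s N δ' P := by
  rcases h with h | ⟨y, hy, hyc, h⟩
  · exact Or.inl h
  · refine Or.inr ⟨y, hy, hyc.trans (mul_le_mul_of_nonneg_right ?_ (zero_le_one.trans (le_max_left _ _))), h⟩
    exact Real.rpow_le_rpow_of_exponent_le (by exact_mod_cast hN) hd

theorem meas_gm_wU {P : Finset (Finset ℕ)} [Nonempty (Px P)] {c : ℕ} {U : Env → Finset ℕ → ℝ} (hU : Past c U) (g : Px P → ℝ) :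
    Measurable fun η => gm (wU μ s N P U η) g := by
  have h := H41.meas_rep (m := 1) (Ψ := fun _ x => g (x 0)) (measurable_wU (μ := μ) (s := s) (N := N) (Q := P) hU) measurable_const
  have e : (fun η => gm (wU μ s N P U η) g) = fun η => rep 1 (wU μ s N P U η) fun x => g (x 0) := funext fun η => (rep_coord 0 _ g 0).symm
  rw [e]
  exact h

open Classical in
/-- **The mass of the steep paths.** -/
theorem steep34 [IsProbabilityMeasure μ] {c₀ C₀ : ℝ} {n₀ : ℕ} (h : In μ s c₀ C₀ n₀) {ε : ℝ} (hε : 0 < ε) :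
    ∃ δ' c' : ℝ, 0 < δ' ∧ 0 < c' ∧ ∃ N₀ : ℕ, ∀ N : ℕ, N₀ ≤ N → ∀ P : Finset (Finset ℕ), H7.Pok μ s N δ' P → ∀ (c : ℕ) (M : ℝ)
      (U : Env → Finset ℕ → ℝ), Past c U → (∀ η S, |U η S| ≤ M) →
      ∫ η, gm (wU μ s N P U η) (nfl N (sl μ s) (vv μ s N ε)) ∂(law μ) ≤ Real.exp (2 * M - (N : ℝ) ^ c') := by
  obtain ⟨δ, δ', g, _, hδ', hg, N₁, h1⟩ := locM18 h one_pos le_rfl ε hε
  have ev1 := Pool.Agent.W_7d29a1_HZ.Z22.absorb 2 0 (b := 1) (g := g) one_pos hg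
  obtain ⟨N₂, hN₂⟩ := eventually_atTop.1 ev1
  refine ⟨δ', g / 2, hδ', by positivity, max N₁ (max N₂ 1), fun N hN P hP c M U hU hUM => ?_⟩
  have k1 : N₁ ≤ N := (le_max_left _ _).trans hN
  have k2 : N₂ ≤ N := (le_max_left _ _).trans ((le_max_right _ _).trans hN)
  have k3 : 1 ≤ N := (le_max_right _ _).trans ((le_max_right _ _).trans hN)
  have hne := hP.ne
  obtain ⟨Ω, mΩ, hΩ, hΩc⟩ := H7.good7 (μ := μ) (LocB μ s N 1 δ δ' ε g)
  have hbad : law μ Ωᶜ ≤ ENNReal.ofReal (Real.exp (-(N : ℝ) ^ g)) := by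
    rw [hΩc]
    exact h1 N k1
  have n0 : ∀ S : Px P, 0 ≤ nfl N (sl μ s) (vv μ s N ε) S := nfl_nonneg _ _ _
  have n1 : ∀ S : Px P, nfl N (sl μ s) (vv μ s N ε) S ≤ 1 := fun S => by
    unfold nfl
    split_ifs <;> norm_num
  have gm01 : ∀ w : Px P → ℝ, 0 ≤ gm w (nfl N (sl μ s) (vv μ s N ε)) ∧ gm w (nfl N (sl μ s) (vv μ s N ε)) ≤ 1 := fun w => by
    rw [← rep_coord 0 w (nfl N (sl μ s) (vv μ s N ε)) 0]
    exact ⟨H41.rep_nonneg 1 w fun x => n0 (x 0), (rep_mono 1 w fun x => n1 (x 0)).trans_eq (H41.rep_const 1 w 1)⟩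
  have good : ∀ η ∈ Ω, gm (lw μ s η N P) (nfl N (sl μ s) (vv μ s N ε)) ≤ Real.exp (-(N : ℝ) ^ g) := fun η hη => by
    have hL := hΩ η hη
    have key : gm (lw μ s η N P) (fun S => if Ns μ s ε 0 N S ∧ Cna μ s N 1 δ S then 0 else 1) ≤ Real.exp (-(N : ℝ) ^ g) := by
      rcases hP with rfl | ⟨y, hy, hyc, rfl⟩
      · exact hL.2.2
      · exact hL.2.1 y hy hyc
    refine le_trans (Pool.W7d29a1.C0.gm_mono _ fun S => ?_) key
    unfold nfl
    by_cases hF : Fl N (sl μ s) (vv μ s N ε) S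
    · rw [if_pos hF]
      split_ifs <;> norm_num
    · rw [if_neg hF, if_neg fun hc => hF (fl_of_Ns hc.1)]
  have mlw : Measurable fun η => gm (lw μ s η N P) (nfl N (sl μ s) (vv μ s N ε)) := by
    have h3 := meas_gm_wU (μ := μ) (s := s) (N := N) (P := P) (Past.zero 0) (nfl N (sl μ s) (vv μ s N ε))
    have e : (fun η => gm (lw μ s η N P) (nfl N (sl μ s) (vv μ s N ε))) =
        fun η => gm (wU μ s N P (fun _ _ => 0) η) (nfl N (sl μ s) (vv μ s N ε)) := by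
      funext η
      congr 1
      funext S
      show _ = lw μ s η N P S + 0
      rw [add_zero]
    rw [e]
    exact h3
  have i1' : Integrable (fun η => gm (lw μ s η N P) (nfl N (sl μ s) (vv μ s N ε))) (law μ) :=
    Integrable.of_bound mlw.aestronglyMeasurable 1 (ae_of_all _ fun η => by
      rw [Real.norm_eq_abs, abs_of_nonneg (gm01 _).1]
      exact (gm01 _).2)
  have i2' : Integrable (fun η => gm (wU μ s N P U η) (nfl N (sl μ s) (vv μ s N ε))) (law μ) :=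
    Integrable.of_bound (meas_gm_wU hU _).aestronglyMeasurable 1 (ae_of_all _ fun η => by
      rw [Real.norm_eq_abs, abs_of_nonneg (gm01 _).1]
      exact (gm01 _).2)
  have s1 : ∫ η, gm (wU μ s N P U η) (nfl N (sl μ s) (vv μ s N ε)) ∂(law μ) ≤
      Real.exp (2 * M) * ∫ η, gm (lw μ s η N P) (nfl N (sl μ s) (vv μ s N ε)) ∂(law μ) := by
    rw [← integral_const_mul]
    refine integral_mono i2' (i1'.const_mul _) fun η => gm_tilt34 (fun S => ?_) n0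
    show |lw μ s η N P S + U η S.1 - lw μ s η N P S| ≤ M
    rw [add_sub_cancel_left]
    exact hUM η S.1
  have s2 : ∫ η, gm (lw μ s η N P) (nfl N (sl μ s) (vv μ s N ε)) ∂(law μ) ≤ Real.exp (-(N : ℝ) ^ g) + Real.exp (-(N : ℝ) ^ g) := by
    have ii : Integrable (fun η => Real.exp (-(N : ℝ) ^ g) + (Ωᶜ).indicator (fun _ => (1 : ℝ)) η) (law μ) :=
      (integrable_const _).add ((integrable_const (1 : ℝ)).indicator mΩ.compl)
    refine (integral_mono i1' ii fun η => ?_).trans ?_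
    · show gm (lw μ s η N P) (nfl N (sl μ s) (vv μ s N ε)) ≤ Real.exp (-(N : ℝ) ^ g) + (Ωᶜ).indicator (fun _ => (1 : ℝ)) η
      by_cases hη : η ∈ Ω
      · rw [Set.indicator_of_notMem (Set.notMem_compl_iff.2 hη), add_zero]
        exact good η hη
      · rw [Set.indicator_of_mem (by exact hη)]
        have := (gm01 (lw μ s η N P)).2
        have := Real.exp_pos (-(N : ℝ) ^ g)
        linarith
    · rw [integral_add (integrable_const _) ((integrable_const (1 : ℝ)).indicator mΩ.compl), integral_const, integral_indicator mΩ.compl,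
        integral_const]
      simp only [probReal_univ, smul_eq_mul, one_mul, mul_one, measureReal_restrict_apply_univ]
      refine add_le_add le_rfl ?_
      unfold Measure.real
      exact ENNReal.toReal_le_of_le_ofReal (Real.exp_pos _).le hbad
  have k5 := hN₂ N k2
  rw [Real.rpow_zero, mul_one, one_mul] at k5
  calc _ ≤ _ := s1
    _ ≤ Real.exp (2 * M) * (Real.exp (-(N : ℝ) ^ g) + Real.exp (-(N : ℝ) ^ g)) := mul_le_mul_of_nonneg_left s2 (Real.exp_pos _).le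
    _ ≤ Real.exp (2 * M) * Real.exp (-(N : ℝ) ^ (g / 2)) := mul_le_mul_of_nonneg_left (by linarith) (Real.exp_pos _).le
    _ = _ := by
      rw [← Real.exp_add]
      congr 1

/-- **THE FAR TERM AT THE INTERPOLATED WEIGHTS.** -/
theorem far_wt34 [IsProbabilityMeasure μ] {c₀ C₀ : ℝ} {n₀ : ℕ} (h : In μ s c₀ C₀ n₀)
    (hQI : ∀ p : ℝ, 1 < p → ∃ C θ0 : ℝ, 0 ≤ C ∧ 0 < θ0 ∧ QI μ p C θ0) {κ : ℝ} (hκ : 0 < κ) (hκ1 : κ ≤ 1) {ε K' ε2 : ℝ}
    (hε : 0 < ε) (hK' : 0 ≤ K') (hε2 : 0 < ε2) : ∃ δ' ε₁ c' : ℝ, 0 < δ' ∧ 0 < ε₁ ∧ 0 < c' ∧ ∃ N₀ : ℕ, ∀ N : ℕ, N₀ ≤ N →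
      ∀ P : Finset (Finset ℕ), H7.Pok μ s N δ' P → ∀ c K : ℕ, (N : ℝ) ^ κ ≤ c → (N : ℝ) ^ κ ≤ K → c + K ≤ N →
      ∀ M : ℝ, 0 ≤ M → M ≤ (N : ℝ) ^ ε₁ → ∀ U : Env → Finset ℕ → ℝ, Past c U → (∀ η S, |U η S| ≤ M) →
      ∀ (d : ℕ) (D : ℝ) (f : Env → Px P → ℝ), Sp P d D f → c + K ≤ d → 0 < D → 2 * D ≤ (N : ℝ) ^ K' →
      ∀ (m0 m1 : ℕ) (J : Finset ℕ) (R r p e : ℝ) (τ t : ℕ), c + K ≤ m0 → m1 ≤ N → (∀ m ∈ J, m0 ≤ m ∧ m ≤ m1) → τ ≤ m0 → τ + t ≤ d →
      0 < r → (∀ k, k ≤ m1 - τ → r + 2 * vv μ s N ε2 k ≤ R) → FP μ s N P r p e τ t →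
      ∫ η, rep 3 (wU μ s N P U η) (Ff J R m0 m1 f η) ∂(law μ) ≤
        (N : ℝ) ^ ε * (6 * p * ∫ η, rep 2 (lw μ s η N P) (fun x => Zf m0 m1 (f η) (x 0) (x 1)) ∂(law μ) + 12 * D * e +
          6 * D * Real.exp (-(N : ℝ) ^ c') + (N : ℝ) ^ (-K')) := by
  obtain ⟨δa, ε₁, hδa, hε₁, Na, ha⟩ := e0_blind h hQI hκ hκ1 3 hε hK'
  obtain ⟨δb, c', hδb, hc', Nb, hb⟩ := steep34 h hε2
  refine ⟨min δa δb, ε₁, c', lt_min hδa hδb, hε₁, hc', max (max Na Nb) 1, fun N hN P hP c K hc hK hcK M hM0 hM U hU hUM d D f hf hcd hD hDN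
    m0 m1 J R r p e τ t hcm h1 hJ hτ ht hr hR hFP => ?_⟩
  have k1 : Na ≤ N := (le_max_left _ _).trans ((le_max_left _ _).trans hN)
  have k2 : Nb ≤ N := (le_max_right _ _).trans ((le_max_left _ _).trans hN)
  have k3 : 1 ≤ N := (le_max_right _ _).trans hN
  have hne := hP.ne
  have s1 := ha N k1 P (Pok_mono k3 (min_le_left _ _) hP) c K hc hK hcK M hM0 hM U hU hUM (Ff J R m0 m1 f) (Ff_nonneg J R m0 m1 f)
    (fun η x => (Ff_le hf J R m0 m1 η x).trans hDN) (meas_Ff hf J R m0 m1)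
    (fun η x x' hx => Ff_pB hf hcm hcd (fun m hm => (hJ m hm).1) η hx) (fun η ζ hζ => Ff_blind hf J R m0 m1 hcd η ζ hζ)
  have s2 := far_corner (σ := sl μ s) (v := vv μ s N ε2) hFP hf hD (vv_nonneg _ _) hr hR hτ h1 hJ ht
  have s3 := hb N k2 P (Pok_mono k3 (min_le_right _ _) hP) 0 0 (fun _ _ => 0) (Past.zero 0) (fun η S => by rw [abs_zero])
  have e3 : (fun η => gm (wU μ s N P (fun _ _ => 0) η) (nfl N (sl μ s) (vv μ s N ε2))) =
      fun η => gm (lw μ s η N P) (nfl N (sl μ s) (vv μ s N ε2)) := by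
    funext η
    congr 1
    funext S
    show lw μ s η N P S + 0 = _
    rw [add_zero]
  rw [e3, mul_zero, zero_sub] at s3
  refine s1.trans (mul_le_mul_of_nonneg_left ?_ (Real.rpow_nonneg (Nat.cast_nonneg _) _))
  have s4 := mul_le_mul_of_nonneg_left s3 (show 0 ≤ 6 * D by positivity)
  linarith

end

end Pool.Agent.W_7d29a1_C0.Far34
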