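import Pool.Agent.W_7d29a1_C0.E2K43
import Pool.Agent.W_7d29a1_C0.Far19
import Pool.Agent.W_7d29a1_C0.FarE34

/-!
MP_7d29a1_pr, [CURV0] (helper43), section E2: THE WIDTHS OF THE BOXES OF (E2) AT THE CONCRETE FRAME. `rW43`: the width `K0 L ^ (ι / K) wd' len`
of the boxes of a slab at a distance at most `len` of its key row; `Wid43`: what the box steps and the far lines ask of it; `wid43_est`: it
holds for all lengths of the frame, with the gain `21 R / card ≤ n ^ (2 ι) wd len / len`; `glo43`: the length of the macro slab;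
`gain_b43`, `gain_m43`: the gains of the steps at the base and of the macro step.
-/

set_option autoImplicit false

namespace Pool.Agent.W_7d29a1_C0.E2W43

open Finset MeasureTheory Filter Topology Pool.Agent.W_7d29a1_F Pool.Agent.W_7d29a1_X
open Pool.Agent.W_7d29a1_H (EE sl)
open Pool.Agent.W_7d29a1_HS (In wd)
open Pool.Agent.W_7d29a1_HZ (wd')
open Pool.Agent.W_7d29a1_C0 Pool.Agent.W_7d29a1_C0.Mod92 Pool.Agent.W_7d29a1_C0.Asm96 Pool.Agent.W_7d29a1_C0.EstC46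
open Pool.Agent.W_7d29a1_C0.Frm33 Pool.Agent.W_7d29a1_C0.E2G43 Pool.Agent.W_7d29a1_C0.E2K43
open Pool.Agent.W_7d29a1_C0.Far34 (vv)
open Pool.Agent.W_7d29a1_C0.Par92 (Est Sml)
open Pool.W7d29a1.C0

noncomputable section

variable {μ : Measure ℝ} {s : ℝ}

/-- The width of the boxes. -/
def rW43 (μ : Measure ℝ) (s : ℝ) (N : ℕ) (ε2 K0 : ℝ) (len : ℕ) : ℝ := K0 * (N : ℝ) ^ ε2 * wd' μ s len

/-- **What a slab of `card` rows at a distance at most `len` of its key row asks of the width `R` of the boxes.** -/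
structure Wid43 (μ : Measure ℝ) (s : ℝ) (N : ℕ) (ε2 θ0 : ℝ) (len card : ℕ) (R : ℝ) : Prop where
  one : 1 ≤ R
  vv : ∀ k : ℕ, 1 ≤ k → k ≤ len → Far34.vv μ s N ε2 k ≤ R
  wd : wd' μ s len ≤ R
  le : 21 * R ≤ card
  th : 1 ≤ θ0 ^ 2 * (card * (21 * R))
  hw : ∀ k : ℕ, k ≤ len → 2 * Far34.vv μ s N ε2 k ≤ R / 2
  ht : ∀ k : ℕ, 1 ≤ k → k ≤ len → wd' μ s k ≤ R / 2

/-- **THE WIDTHS.** -/
theorem wid43_est [IsProbabilityMeasure μ] {c₁ C : ℝ} {n₀ : ℕ} (h : In μ s c₁ C n₀) {c₀ Θ δ θ0 : ℝ} {K : ℕ} (hK : 1 ≤ K)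
    (hδ : 0 < δ) (hθ0 : 0 < θ0) (hR : RegP46 μ s c₀ Θ) : ∃ K0 : ℝ, 1 ≤ K0 ∧ Est fun ι β γ m => ∀ len card : ℕ,
      ((2 ^ m : ℕ) : ℝ) ^ δ ≤ len → (len : ℝ) ≤ ((2 ^ m : ℕ) : ℝ) → (len : ℝ) ≤ ((2 ^ m : ℕ) : ℝ) ^ (2 * ι) * card →
      Wid43 μ s (L33 K m) (ι / K) θ0 len card (rW43 μ s (L33 K m) (ι / K) K0 len) ∧
        21 * rW43 μ s (L33 K m) (ι / K) K0 len / card ≤ ((2 ^ m : ℕ) : ℝ) ^ (4 * ι) * (wd μ s len / len) := by
  obtain ⟨a', Kw, _, _, hKw, hw⟩ := Pool.Agent.W_7d29a1_HZ.Z96.wd_all96 h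
  obtain ⟨K0, hK04⟩ : ∃ x : ℝ, x = 4 * Kw := ⟨_, rfl⟩
  have hK0 : 1 ≤ K0 := by linarith
  obtain ⟨a, _, _, hRe⟩ := hR
  refine ⟨K0, hK0, δ / 24, by positivity, fun ι hι hιδ => Sml.of fun β _ => Sml.of fun γ _ => ?_⟩
  filter_upwards [hRe δ (δ / 24) hδ (by positivity), pow_ev96 hι (21 * K0), pow_ev96 (show 0 < δ / 2 by positivity) (1 / θ0 ^ 2)]
    with m h1 h2 h3 len card hl1 hl2 hlc
  obtain ⟨R, hwd⟩ := h1
  obtain ⟨n, hn⟩ : ∃ n : ℝ, n = ((2 ^ m : ℕ) : ℝ) := ⟨_, rfl⟩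
  have hn1 : 1 < n := by rw [hn]; exact R.N1
  have hn0 : 0 < n := by linarith
  have hLn : ((L33 K m : ℕ) : ℝ) ^ (ι / K) = n ^ ι := by rw [hn]; exact L_pow43 hK m ι
  have hRg : Rg46 δ ((2 ^ m : ℕ) : ℝ) len := ⟨hl1, hl2⟩
  have hlen0 : 0 < len := hRg.npos R.N1
  have hlen : (0 : ℝ) < len := by exact_mod_cast hlen0
  rw [← hn] at hlc
  have hp2 : 0 < n ^ (2 * ι) := Real.rpow_pos_of_pos hn0 _
  have hcard : (0 : ℝ) < card := by
    by_contra h0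
    have h1 : (card : ℝ) = 0 := le_antisymm (not_lt.1 h0) (Nat.cast_nonneg _)
    rw [h1, mul_zero] at hlc
    linarith
  have ewd : wd' μ s len = wd μ s len := hwd len hl1
  have hwd1 : 1 ≤ wd' μ s len := le_max_left _ _
  have hnι : 1 ≤ n ^ ι := Real.one_le_rpow hn1.le hι.le
  have hKn : 1 ≤ K0 * n ^ ι := one_le_mul_of_one_le_of_one_le hK0 hnι
  obtain ⟨Rw, hRw⟩ : ∃ x : ℝ, x = rW43 μ s (L33 K m) (ι / K) K0 len := ⟨_, rfl⟩
  have eR : Rw = K0 * n ^ ι * wd' μ s len := by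
    rw [hRw]
    unfold rW43
    rw [hLn]
  have hwR : wd' μ s len ≤ Rw := by
    rw [eR]
    exact le_mul_of_one_le_left (by linarith) hKn
  have hR1 : 1 ≤ Rw := hwd1.trans hwR
  have hw0 : 0 < wd μ s len := by rw [← ewd]; linarith
  have gain : 21 * Rw / card ≤ n ^ (4 * ι) * (wd μ s len / len) := by
    have e1 : n ^ (4 * ι) = n ^ ι * n ^ ι * n ^ (2 * ι) := by
      rw [← Real.rpow_add hn0, ← Real.rpow_add hn0]
      congr 1
      ring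
    rw [eR, e1, div_le_iff₀ hcard]
    have e2 : 21 * K0 ≤ n ^ ι := by rw [hn]; exact h2
    have e3 : 1 ≤ n ^ (2 * ι) * card / (len : ℝ) := by
      rw [le_div_iff₀ hlen, one_mul]
      exact hlc
    rw [ewd]
    calc 21 * (K0 * n ^ ι * wd μ s len) = 21 * K0 * (n ^ ι * wd μ s len) * 1 := by ring
      _ ≤ 21 * K0 * (n ^ ι * wd μ s len) * (n ^ (2 * ι) * card / len) := mul_le_mul_of_nonneg_left e3 (by positivity)
      _ = (21 * K0) * (n ^ ι * n ^ (2 * ι) * (wd μ s len / len) * card) := by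
          field_simp
      _ ≤ n ^ ι * (n ^ ι * n ^ (2 * ι) * (wd μ s len / len) * card) := mul_le_mul_of_nonneg_right e2 (by positivity)
      _ = _ := by ring
  have small : n ^ (4 * ι) * (wd μ s len / len) ≤ 1 := by
    have e1 := R.lw hRg
    have e2 := R.lst' hRg
    have e3 := hRg.lx R.N1
    have e4 := R.c₀0
    rw [← hn] at e1 e2 e3
    have e5 : n ^ (4 * ι) * (wd μ s len / len) ≤ n ^ (0 : ℝ) := by
      refine le_pow46 hn1 (by positivity) ?_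
      rw [Real.logb_mul (by positivity) (by positivity), lgN46 hn1, Real.logb_div hw0.ne' hlen.ne']
      have e6 : 0 < c₀ * δ := by positivity
      linarith
    rwa [Real.rpow_zero] at e5
  rw [← hRw, ← hn]
  have evv : ∀ k, vv μ s (L33 K m) (ι / K) k = n ^ ι * wd' μ s k := fun k => by
    unfold vv
    rw [hLn]
  have hwk : ∀ k, k ≤ len → wd' μ s k ≤ Kw * wd' μ s len := fun k hkl => by
    rcases Nat.eq_zero_or_pos k with h0 | h0
    · subst h0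
      have e0 : wd' μ s 0 = 1 := by
        unfold Pool.Agent.W_7d29a1_HZ.wd' wd
        simp
      rw [e0]
      exact one_le_mul_of_one_le_of_one_le hKw hwd1
    · exact (hw k len h0 hkl).1
  have hvk : ∀ k, k ≤ len → 4 * vv μ s (L33 K m) (ι / K) k ≤ Rw := fun k hkl => by
    rw [evv, eR, hK04]
    calc 4 * (n ^ ι * wd' μ s k) ≤ 4 * (n ^ ι * (Kw * wd' μ s len)) :=
          mul_le_mul_of_nonneg_left (mul_le_mul_of_nonneg_left (hwk k hkl) (by positivity)) (by norm_num)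
      _ = _ := by ring
  have vv0 : ∀ k, 1 ≤ vv μ s (L33 K m) (ι / K) k := fun k => by
    rw [evv]
    exact one_le_mul_of_one_le_of_one_le hnι (le_max_left _ _)
  refine ⟨⟨hR1, fun k hk hkl => ?_, hwR, ?_, ?_, fun k hkl => by linarith [hvk k hkl], fun k hk hkl => ?_⟩, gain⟩
  · linarith [hvk k hkl, vv0 k]
  · exact (div_le_one hcard).1 (gain.trans small)
  · have e0 : n ^ (δ / 2) ≤ card := by
      have f1 : n ^ (δ / 2) * n ^ (2 * ι) ≤ n ^ (2 * ι) * card := by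
        refine le_trans ?_ hlc
        rw [← Real.rpow_add hn0]
        refine le_trans (Real.rpow_le_rpow_of_exponent_le hn1.le (show δ / 2 + 2 * ι ≤ δ by linarith)) ?_
        rw [hn]
        exact hl1
      have f2 : n ^ (2 * ι) * n ^ (δ / 2) ≤ n ^ (2 * ι) * card := by linarith
      exact le_of_mul_le_mul_left f2 hp2
    rw [← hn] at h3
    have e1 : 1 / θ0 ^ 2 ≤ (card : ℝ) := h3.trans e0
    rw [div_le_iff₀ (by positivity)] at e1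
    have e2 : (card : ℝ) ≤ card * (21 * Rw) := le_mul_of_one_le_right hcard.le (by linarith)
    have e3 : θ0 ^ 2 * card ≤ θ0 ^ 2 * (card * (21 * Rw)) := mul_le_mul_of_nonneg_left e2 (by positivity)
    linarith
  · have e1 := hvk k hkl
    have e2 : wd' μ s k ≤ vv μ s (L33 K m) (ι / K) k := by
      rw [evv]
      exact le_mul_of_one_le_left (zero_le_one.trans (le_max_left _ _)) hnι
    have e3 := vv0 k
    linarith

/-- **The length of the macro slab.** -/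
theorem glo43 {δ : ℝ} (hδ : 0 < δ) : Est fun ι _ _ m => ∀ q : ℕ, δ * m ≤ q → q ≤ m →
    1 ≤ gl46 ι m q ∧ (2 : ℝ) ^ q ≤ ((2 ^ m : ℕ) : ℝ) ^ (2 * ι) * gl46 ι m q ∧ ((2 ^ m : ℕ) : ℝ) ^ (δ / 2) ≤ gl46 ι m q ∧
      8 * gl46 ι m q ≤ 2 ^ q := by
  refine ⟨δ / 8, by positivity, fun ι hι hιδ => Sml.of fun β _ => Sml.of fun γ _ => ?_⟩
  filter_upwards [pow_ev96 hι 16, pow_ev96 (show 0 < δ / 8 by positivity) 16] with m h1 h2 q hq hqm
  obtain ⟨n, hn⟩ : ∃ n : ℝ, n = ((2 ^ m : ℕ) : ℝ) := ⟨_, rfl⟩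
  have hn1 : 1 ≤ n := hn ▸ n_ge1 m
  have hn0 : 0 < n := by linarith
  rw [← hn] at h1 h2 ⊢
  have hnq : n ^ δ ≤ (2 : ℝ) ^ q := by
    have e1 : n ^ δ = (2 : ℝ) ^ (δ * m) := by
      rw [hn, Nat.cast_pow, Nat.cast_ofNat, ← Real.rpow_natCast, ← Real.rpow_mul (by norm_num)]
      congr 1
      ring
    rw [e1, ← Real.rpow_natCast 2 q]
    exact Real.rpow_le_rpow_of_exponent_le (by norm_num) hq
  have e0 : n ^ (-ι) * (2 : ℝ) ^ q / 8 < (gl46 ι m q : ℝ) + 1 := by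
    unfold gl46
    rw [← hn]
    exact Nat.lt_floor_add_one _
  have e1 : n ^ (-ι) * n ^ ι = 1 := by
    rw [← Real.rpow_add hn0]
    simp
  have hp : 0 < n ^ ι := Real.rpow_pos_of_pos hn0 _
  have hm : 0 < n ^ (-ι) := Real.rpow_pos_of_pos hn0 _
  have e2 : n ^ (δ / 2) ≤ n ^ (-ι) * (2 : ℝ) ^ q / 16 := by
    have f1 : n ^ (δ / 2) * n ^ ι * 16 ≤ n ^ δ := by
      calc n ^ (δ / 2) * n ^ ι * 16 ≤ n ^ (δ / 2) * n ^ (δ / 8) * n ^ (δ / 8) :=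
            mul_le_mul (mul_le_mul_of_nonneg_left (Real.rpow_le_rpow_of_exponent_le hn1 hιδ) (by positivity)) h2 (by norm_num)
              (by positivity)
        _ = n ^ (3 / 4 * δ) := by
            rw [← Real.rpow_add hn0, ← Real.rpow_add hn0]
            congr 1
            ring
        _ ≤ n ^ δ := Real.rpow_le_rpow_of_exponent_le hn1 (by linarith)
    have f2 : n ^ (-ι) * (n ^ (δ / 2) * n ^ ι * 16) ≤ n ^ (-ι) * (2 : ℝ) ^ q :=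
      mul_le_mul_of_nonneg_left (f1.trans hnq) hm.le
    have f3 : n ^ (-ι) * (n ^ (δ / 2) * n ^ ι * 16) = n ^ (δ / 2) * 16 := by
      calc _ = n ^ (δ / 2) * 16 * (n ^ (-ι) * n ^ ι) := by ring
        _ = _ := by rw [e1, mul_one]
    linarith
  have e3 : 1 ≤ n ^ (δ / 2) := Real.one_le_rpow hn1 (by positivity)
  have e4 : n ^ (-ι) * (2 : ℝ) ^ q / 16 ≤ gl46 ι m q := by linarith
  have e5 : (1 : ℝ) ≤ gl46 ι m q := by linarith
  refine ⟨by exact_mod_cast e5, ?_, e2.trans e4, gl_le96 (hn ▸ hn1) hι.le⟩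
  have f1 : (2 : ℝ) ^ q ≤ n ^ ι * 16 * gl46 ι m q := by
    calc (2 : ℝ) ^ q = n ^ ι * 16 * (n ^ (-ι) * (2 : ℝ) ^ q / 16) := by
          have : n ^ ι * 16 * (n ^ (-ι) * (2 : ℝ) ^ q / 16) = (n ^ (-ι) * n ^ ι) * (2 : ℝ) ^ q := by ring
          rw [this, e1, one_mul]
      _ ≤ _ := mul_le_mul_of_nonneg_left e4 (by positivity)
  refine f1.trans (mul_le_mul_of_nonneg_right ?_ (by positivity))
  calc n ^ ι * 16 ≤ n ^ ι * n ^ ι := mul_le_mul_of_nonneg_left h1 (by positivity)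
    _ = _ := by
      rw [← Real.rpow_add hn0]
      congr 1
      ring

/-- **THE BOXES AT ONE BASE `2 ^ p` AND ONE LEVEL `2 ^ q`**: near key at the scale `2 * 2 ^ p` (slabs of `2 ^ p / 8` rows), macro key at the
scale `2 ^ q` (slabs of `gl46` rows); the gains of the steps, with the loss `n ^ ι` of the tails. -/
structure Bx43 (μ : Measure ℝ) (s : ℝ) (K : ℕ) (θ0 K0 ι β : ℝ) (m p q : ℕ) : Prop where
  near : Wid43 μ s (L33 K m) (ι / K) θ0 (2 * 2 ^ p) (2 ^ p / 8) (rW43 μ s (L33 K m) (ι / K) K0 (2 * 2 ^ p))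
  mac : Wid43 μ s (L33 K m) (ι / K) θ0 (2 ^ q) (gl46 ι m q) (rW43 μ s (L33 K m) (ι / K) K0 (2 ^ q))
  gn : (B33 β m * ((2 ^ m : ℕ) : ℝ) ^ ι * √(21 * rW43 μ s (L33 K m) (ι / K) K0 (2 * 2 ^ p) / ((2 ^ p / 8 : ℕ) : ℝ))) ^ 2 ≤
    ((2 ^ m : ℕ) : ℝ) ^ (9 * ι) * (wd μ s (2 ^ p) / ((2 ^ p : ℕ) : ℝ))
  gm : (B33 β m * ((2 ^ m : ℕ) : ℝ) ^ ι * √(21 * rW43 μ s (L33 K m) (ι / K) K0 (2 ^ q) / gl46 ι m q)) ^ 2 ≤
    ((2 ^ m : ℕ) : ℝ) ^ (9 * ι) * (wd μ s (2 ^ q) / ((2 ^ q : ℕ) : ℝ))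

theorem bx43_est [IsProbabilityMeasure μ] {c₁ C : ℝ} {n₀ : ℕ} (h : In μ s c₁ C n₀) {c₀ Θ δ c θ0 : ℝ} {K : ℕ} (hK : 6 ≤ K)
    (hδ : 0 < δ) (hc : 0 < c) (hcδ : c ≤ δ / 64) (hθ0 : 0 < θ0) (hR : RegP46 μ s c₀ Θ) : ∃ K0 : ℝ, 1 ≤ K0 ∧ Est fun ι β γ m =>
      ∀ p q : ℕ, St96 (EE μ s) δ c m p q → Bx43 μ s K θ0 K0 ι β m p q := by
  obtain ⟨K0, hK0, H⟩ := wid43_est h (K := K) (by omega) (δ := δ / 2) (by positivity) hθ0 hR
  obtain ⟨a, ha0, ha1, hRe⟩ := hR.est (δ := δ / 2) (by positivity) (k := 1) one_pos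
  obtain ⟨a', _, _, hRc⟩ := hR
  refine ⟨K0, hK0, ?_⟩
  have hβ : Est fun ι β _ _ => β ≤ ι := Est.beta (Sml.of fun ι hι => Sml.le hι)
  have hpow : Est fun ι _ _ m => 16 ≤ ((2 ^ m : ℕ) : ℝ) ^ (2 * ι) := ⟨1, one_pos, fun ι hι _ => Sml.of fun _ _ => Sml.of fun _ _ =>
    pow_ev96 (show 0 < 2 * ι by positivity) 16⟩
  have hb : Est fun ι _ _ m => ∀ p : ℕ, δ * m ≤ p → 16 * 2 ^ (p - ⌈ι * (m : ℝ)⌉₊) ≤ 2 ^ p := by
    refine ⟨δ / 4, by positivity, fun ι hι hιδ => Sml.of fun β _ => Sml.of fun γ _ => ?_⟩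
    filter_upwards [b0_43 hι hιδ hδ] with m hm p hp
    exact (hm p hp).2.1
  have hev : ∀ᶠ m : ℕ in atTop, Reg46 (EE μ s) (wd μ s) c₀ Θ δ a' (c / 4) ((2 ^ m : ℕ) : ℝ) ∧ 16 ≤ ((2 ^ m : ℕ) : ℝ) ^ c := by
    filter_upwards [hRc δ (c / 4) hδ (by positivity), pow_ev96 hc 16] with m h1 h2
    exact ⟨h1.1, h2⟩
  refine (((H.and hRe).and (glo43 hδ)).and (hβ.and (hpow.and ((Est.iota (Sml.le hc)).and (hb.and (Est.of_ev hev)))))).mono
    fun ι β γ hι hβ0 _ => Eventually.of_forall fun m hm => ?_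
  obtain ⟨⟨⟨H1, R, -⟩, H3⟩, H4, H5, H6, Hb, R', H7⟩ := hm
  intro p q hst
  obtain ⟨n, hn⟩ : ∃ n : ℝ, n = ((2 ^ m : ℕ) : ℝ) := ⟨_, rfl⟩
  have hn1 : 1 < n := by rw [hn]; exact R.N1
  have hn0 : 0 < n := by linarith
  have hδq : δ * m ≤ q := hst.hp.trans (by exact_mod_cast hst.hps.trans hst.hsq)
  obtain ⟨g1, g2, -, g4⟩ := H3 q hδq hst.hqm
  have hbs := bs46 R' hc (by linarith) hst.hp hst.hps hst.hsq hst.hqm hst.leg hst.pin
  have hgap := gap46 R' le_rfl hbs H6 H7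
  have hsg : 2 ^ sg96 (EE μ s) c m p ≤ gl46 ι m q := by
    have h1 : (1 : ℝ) * 2 ^ sg96 (EE μ s) c m p ≤ ((2 ^ m : ℕ) : ℝ) ^ (5 * c) * 2 ^ sg96 (EE μ s) c m p :=
      mul_le_mul_of_nonneg_right (Real.one_le_rpow (hn ▸ hn1.le) (by positivity)) (by positivity)
    have h2 : (2 : ℝ) ^ sg96 (EE μ s) c m p ≤ gl46 ι m q := by linarith
    exact_mod_cast h2
  have hp1 : 2 ^ p ≤ 2 ^ sg96 (EE μ s) c m p := Nat.pow_le_pow_right two_pos hst.hps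
  have hpgl : 2 ^ p ≤ gl46 ι m q := hp1.trans hsg
  have hqn : (2 : ℕ) ^ q ≤ 2 ^ m := Nat.pow_le_pow_right two_pos hst.hqm
  have nδ : ∀ k : ℕ, δ * m ≤ k → n ^ δ ≤ ((2 ^ k : ℕ) : ℝ) := fun k hk => by
    have e1 : n ^ δ = (2 : ℝ) ^ (δ * m) := by
      rw [hn, Nat.cast_pow, Nat.cast_ofNat, ← Real.rpow_natCast, ← Real.rpow_mul (by norm_num)]
      congr 1
      ring
    rw [e1, Nat.cast_pow, Nat.cast_ofNat, ← Real.rpow_natCast 2 k]
    exact Real.rpow_le_rpow_of_exponent_le (by norm_num) hk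
  have hnδ : n ^ (δ / 2) ≤ n ^ δ := Real.rpow_le_rpow_of_exponent_le hn1.le (by linarith)
  have hb1 := (hnδ.trans (nδ p hst.hp))
  have hq1 := (hnδ.trans (nδ q hδq))
  have hnι : 1 ≤ n ^ ι := Real.one_le_rpow hn1.le hι.le
  have hp4 : 4 ≤ p := by
    by_contra h0
    have h1 := Hb p hst.hp
    have h2 : 2 ^ p < 2 ^ 4 := Nat.pow_lt_pow_right one_lt_two (by omega)
    have h3 : 1 ≤ 2 ^ (p - ⌈ι * (m : ℝ)⌉₊) := Nat.one_le_two_pow
    omega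
  obtain ⟨b, hb⟩ : ∃ b : ℕ, b = 2 ^ p := ⟨_, rfl⟩
  obtain ⟨r, hr⟩ : ∃ r : ℕ, r = 2 ^ q := ⟨_, rfl⟩
  obtain ⟨v, hv⟩ : ∃ v : ℕ, v = 2 ^ (p - 3) := ⟨_, rfl⟩
  have hb8 : b = 8 * v := by
    rw [hb, hv, show (8 : ℕ) = 2 ^ 3 by norm_num, ← pow_add]
    congr 1
    omega
  have hv8 : b / 8 = v := by omega
  rw [← hb] at hpgl hb1
  rw [← hr] at hq1 g4
  have g2' : (r : ℝ) ≤ n ^ (2 * ι) * gl46 ι m q := by
    rw [hr, Nat.cast_pow, Nat.cast_ofNat, hn]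
    exact g2
  have h2b : 2 * b ≤ 2 ^ m := by omega
  have hbr : (b : ℝ) = 8 * v := by exact_mod_cast hb8
  have hb0 : (0 : ℝ) < b := lt_of_lt_of_le (Real.rpow_pos_of_pos hn0 _) hb1
  have hr0 : (0 : ℝ) < r := lt_of_lt_of_le (Real.rpow_pos_of_pos hn0 _) hq1
  rw [← hn] at H5
  have N1 := H1 (2 * b) (b / 8) (by
      rw [← hn, Nat.cast_mul, Nat.cast_ofNat]
      linarith) (by exact_mod_cast h2b) (by
      rw [← hn, hv8, Nat.cast_mul, Nat.cast_ofNat, hbr]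
      have : 16 * (v : ℝ) ≤ n ^ (2 * ι) * v := mul_le_mul_of_nonneg_right H5 (Nat.cast_nonneg _)
      linarith)
  have M1 := H1 r (gl46 ι m q) (by rw [← hn]; exact hq1) (by rw [hr]; exact_mod_cast hqn) (by rw [← hn]; exact g2')
  have hB0 : 0 < B33 β m := by
    unfold B33
    exact Real.rpow_pos_of_pos (by rw [← hn]; exact hn0) _
  have hBn : B33 β m ≤ n ^ ι := by
    unfold B33
    rw [← hn]
    exact Real.rpow_le_rpow_of_exponent_le hn1.le H4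
  have sq : ∀ X Y : ℝ, 0 ≤ X → X ≤ n ^ (4 * ι) * Y → (B33 β m * n ^ ι * √X) ^ 2 ≤ n ^ (8 * ι) * Y := fun X Y hX hXY => by
    rw [mul_pow, Real.sq_sqrt hX, mul_pow]
    have e1 : B33 β m ^ 2 ≤ n ^ (2 * ι) := by
      calc B33 β m ^ 2 ≤ (n ^ ι) ^ 2 := pow_le_pow_left₀ hB0.le hBn 2
        _ = n ^ (2 * ι) := by
            rw [← Real.rpow_natCast, ← Real.rpow_mul hn0.le]
            congr 1
            push_cast
            ring
    have e2 : (n ^ ι) ^ 2 = n ^ (2 * ι) := by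
      rw [← Real.rpow_natCast, ← Real.rpow_mul hn0.le]
      congr 1
      push_cast
      ring
    rw [e2]
    calc B33 β m ^ 2 * n ^ (2 * ι) * X ≤ n ^ (2 * ι) * n ^ (2 * ι) * (n ^ (4 * ι) * Y) := by gcongr
      _ = (n ^ (2 * ι) * n ^ (2 * ι) * n ^ (4 * ι)) * Y := by ring
      _ = n ^ (8 * ι) * Y := by
          rw [← Real.rpow_add hn0, ← Real.rpow_add hn0]
          congr 2
          ring
  have h89 : n ^ (8 * ι) ≤ n ^ (9 * ι) := Real.rpow_le_rpow_of_exponent_le hn1.le (by linarith)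
  rw [← hn] at N1 M1
  have hwb := R.w0 b (by exact_mod_cast hb0)
  have hwr := R.w0 r (by exact_mod_cast hr0)
  have hX0 : ∀ (X : ℝ) (k : ℕ), 1 ≤ X → 0 ≤ 21 * X / (k : ℝ) := fun X k hX => by positivity
  have GN := sq _ _ (hX0 _ _ N1.1.one) N1.2
  have GM := sq _ _ (hX0 _ _ M1.1.one) M1.2
  have e2b : wd μ s (2 * b) / ((2 * b : ℕ) : ℝ) ≤ n ^ ι * (wd μ s b / b) := by
    have h1 := R.wup b (2 * b) (by rw [← hn]; exact hb1) (by omega)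
    rw [one_mul, ← hn] at h1
    have h2 : (((2 * b : ℕ) : ℝ) / b) ^ (1 - a) ≤ 2 := by
      have e1 : ((2 * b : ℕ) : ℝ) / b = 2 := by
        rw [Nat.cast_mul, Nat.cast_ofNat]
        field_simp
      rw [e1]
      calc (2 : ℝ) ^ (1 - a) ≤ 2 ^ (1 : ℝ) := Real.rpow_le_rpow_of_exponent_le (by norm_num) (by linarith)
        _ = 2 := Real.rpow_one _
    rw [Nat.cast_mul, Nat.cast_ofNat] at h1 h2 ⊢
    rw [div_le_iff₀ (by linarith)]
    calc wd μ s (2 * b) ≤ n ^ ι * (2 * (b : ℝ) / b) ^ (1 - a) * wd μ s b := h1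
      _ ≤ n ^ ι * 2 * wd μ s b := by gcongr
      _ = n ^ ι * (wd μ s b / b) * (2 * b) := by field_simp
  constructor
  · rw [← hb]
    exact N1.1
  · rw [← hr]
    exact M1.1
  · rw [← hb, ← hn]
    refine GN.trans ?_
    calc n ^ (8 * ι) * (wd μ s (2 * b) / ((2 * b : ℕ) : ℝ)) ≤ n ^ (8 * ι) * (n ^ ι * (wd μ s b / b)) :=
          mul_le_mul_of_nonneg_left e2b (by positivity)
      _ = n ^ (9 * ι) * (wd μ s b / b) := by
          rw [← mul_assoc, ← Real.rpow_add hn0]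
          congr 2
          ring
  · rw [← hr, ← hn]
    exact GM.trans (mul_le_mul_of_nonneg_right h89 (by positivity))

end

end Pool.Agent.W_7d29a1_C0.E2W43
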