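import Pool.Agent.W_7d29a1_C0.E2LP43
import Pool.Agent.W_7d29a1_C0.DgE11
import Pool.Agent.W_7d29a1_C0.DgT11B
import Pool.Agent.W_7d29a1_C0.E2JT45

/-!
MP_7d29a1_pr, [CURV0] / [C0] (helper45): **THE FIELD `e2` OF THE ROOT.** `tdM45`: the slots of the pairs of the window of both parts (`TDS43`, `TDL43`,
the double ties of helper11) at the common level `M = L ^ εM`; `e2_45`: (E2) at the concrete frame, from `e2SmlM43` of helper43, the constants `cstM43`,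
`cstML45`, the parts with three levels `jts45`, and `tdM45`.
-/

set_option autoImplicit false
set_option linter.unusedVariables false

namespace Pool.Agent.W_7d29a1_C0.E2Z45

open Finset MeasureTheory Filter Topology
open Pool.Agent.W_7d29a1_F Pool.Agent.W_7d29a1_X
open Pool.Agent.W_7d29a1_H (sl EE one_le_EE)
open Pool.Agent.W_7d29a1_HS (In wd)
open Pool.Agent.W_7d29a1_HZ (wd' EE')
open Pool.Agent.W_7d29a1_C0 Pool.Agent.W_7d29a1_C0.Mod92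
open Pool.Agent.W_7d29a1_C0.Asm96 Pool.Agent.W_7d29a1_C0.EstC46 Pool.Agent.W_7d29a1_C0.Frm33
open Pool.Agent.W_7d29a1_C0.H32
open Pool.Agent.W_7d29a1_C0.E2K43 Pool.Agent.W_7d29a1_C0.E2AS43 Pool.Agent.W_7d29a1_C0.E2LT43 Pool.Agent.W_7d29a1_C0.E2LP43
open Pool.Agent.W_7d29a1_C0.E2S39 (rd39_est)
open Pool.Agent.W_7d29a1_C0.Par92 (Est Sml)
open Pool.Agent.W_7d29a1_C0.EstM45 (EstM)
open Pool.Agent.W_7d29a1_C0.E2KL45 (cstM43 cstML45)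
open Pool.Agent.W_7d29a1_C0.E2JT45 (jts45)
open Pool.Agent.W_7d29a1_C0.Dg11

noncomputable section

variable {μ : Measure ℝ} [IsProbabilityMeasure μ] {s : ℝ} {K : ℕ} {Θ δ c c₀ : ℝ}

/-- **THE SLOTS OF THE PAIRS OF THE WINDOW**, both parts, at the common level. -/
theorem tdM45 {c₁ C₁ : ℝ} {n₀ : ℕ} (h : In μ s c₁ C₁ n₀)
    (hQI : ∀ p : ℝ, 1 < p → ∃ C θ0 : ℝ, 0 ≤ C ∧ 0 < θ0 ∧ Pool.W7d29a1.C0.H27.QI μ p C θ0) (hk : KapLe96 (EE μ s) (1 / 4))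
    (hK : 32 ≤ K) (hΘ : 0 < Θ) (hR : RegP46 μ s c₀ Θ) (hδ : 0 < δ) (hδ1 : δ ≤ 1) (hc : 0 < c) (hcδ : c ≤ δ / 64) (hcΘ : c ≤ Θ / 8) :
    EstM fun ι εM _ _ m => TDS43 μ s K Θ δ c ι m (((L33 K m : ℕ) : ℝ) ^ εM) ∧ TDL43 μ s K Θ δ c ι m (((L33 K m : ℕ) : ℝ) ^ εM) := by
  obtain ⟨a, hRd⟩ := rd39_est h hk hK hΘ hδ hc hcδ hcΘ hR (Q := 40) (by norm_num)
  refine ((joinM11 h hK hδ (cstM43 h hQI hK hδ hδ1)).and (EstM.of_est hRd)).mono fun ι εM β γ _ _ _ _ =>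
    Eventually.of_forall fun m hm => ?_
  obtain ⟨⟨κ, e, C, HD⟩, h2⟩ := hm
  have hr : ∀ p q : ℕ, St96 (EE μ s) δ c m p q → 2 ^ q ≤ L33 K m := fun p q hst => by
    refine (Nat.pow_le_pow_right two_pos hst.hqm).trans ?_
    exact L33_ge (by omega : 1 ≤ K) m
  refine ⟨fun p q i hst hi al al0 hal => ?_, fun p q i hst hi al al0 hal => ?_⟩
  · have H := h2 _ _ _ _ _ C p q i hst hi
    refine ⟨tDR H HD (hr p q hst) al al0 hal, rfl, fun cb D f hf hD => ?_⟩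
    refine ab_DR H HD (hr p q hst) al al0 hal hf C.M8 C.q1 C.q2 fun j hj => ?_
    have g := H.geo j hj
    have g1 := g.b16
    constructor <;> omega
  · have H := h2 _ _ _ _ _ C p q i hst hi
    exact ⟨tDL H HD (hr p q hst) al al0 hal, rfl, fun cb D f hf hD => ab_DL H HD (hr p q hst) al al0 hal hf C.M8 C.q1 C.q2⟩

/-- **(E2) AT THE CONCRETE FRAME**: the field `e2` of the root. -/
theorem e2_45 {c₁ C₁ : ℝ} {n₀ : ℕ} (h : In μ s c₁ C₁ n₀)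
    (hQI : ∀ p : ℝ, 1 < p → ∃ C θ0 : ℝ, 0 ≤ C ∧ 0 < θ0 ∧ Pool.W7d29a1.C0.H27.QI μ p C θ0) {ff ff' : ℝ → ℝ} (hd : DenLaw μ ff ff')
    (hk : KapLe96 (EE μ s) (1 / 4)) (hK : 32 ≤ K) (hΘ : 0 < Θ) (hR : RegP46 μ s c₀ Θ) :
    Sml fun δ => Sml fun c => ∃ x : ℝ, 0 < x ∧ Est fun ι β γ m => E2T96.E2DecN μ s (frm33 μ s K ι β γ) (EE μ s) Θ δ c x m :=
  e2SmlM43 h hd hk hK hΘ hR fun δ c hδ hδ1 hc hcδ hcΘ =>
    (((cstM43 h hQI hK hδ hδ1).and (cstML45 h hQI hK hδ hδ1)).and ((tdM45 h hQI hk hK hΘ hR hδ hδ1 hc hcδ hcΘ).and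
      (jts45 h hk hQI hK hΘ hδ hδ1 hc hcδ hcΘ hR))).mono fun ι εM β γ _ _ _ _ => Eventually.of_forall fun m hm =>
        ⟨hm.1.1, hm.1.2, hm.2.1.1, hm.2.1.2, 1, one_pos, le_rfl, hm.2.2⟩

end

end Pool.Agent.W_7d29a1_C0.E2Z45
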