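import Pool.Agent.W_7d29a1_C0.Alg82
import Pool.Agent.W_7d29a1_C0.Two57

/-!
CURV0 (MP_7d29a1_pr), leaf E1d (list of helper19, board 72300): the covariance of a functional `a` of the rows `≤ m0` with a
functional `f` of the rows `≥ m1` is the two replica average of `(1/2) Δa Δf` over the pairs WITHOUT common position in `[m0, m1]`;
the Markov property of the conditional means behind a row; (E1) with the non meeting indicator. (helper82)
-/

set_option autoImplicit false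
set_option linter.unusedSectionVars false
set_option linter.unusedVariables false

namespace Pool.Agent.W_7d29a1_C0.NM82

open Finset
open Pool.Agent.W_7d29a1_C0 Pool.Agent.W_7d29a1_C0.Mod92 Pool.Agent.W_7d29a1_C0.Swap57
open Pool.Agent.W_7d29a1_F Pool.Agent.W_7d29a1_X
open Pool.W7d29a1.C0 Pool.W7d29a1.C0.VT31

noncomputable section

variable {Q : Finset (Finset ℕ)} [SwQ Q]

/-- `f` is a functional of the positions in the rows `≥ m`. -/
def Rk (m : ℕ) (f : Px Q → ℝ) : Prop := ∀ S S' : Px Q, (∀ i, m ≤ i → ps S i = ps S' i) → f S = f S'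

/-- The pair functional with the non meeting indicator. -/
def QN (m0 m1 : ℕ) (a f : Px Q → ℝ) : (Fin 2 → Px Q) → ℝ :=
  fun x => (1 / 2) * (((a (x 0) - a (x 1)) * (f (x 0) - f (x 1))) * NI m0 m1 (x 0) (x 1))

/-- The swap of the heads at a common position in `[m, u]` keeps the sum of the log weights. -/
def Hd (m u : ℕ) (w : Px Q → ℝ) : Prop := Wk 0 0 m u w

theorem Mt_iff {m u : ℕ} (S S' : Px Q) : Mt 0 0 m u S S' ↔ ∃ i, m ≤ i ∧ i ≤ u ∧ ps S i = ps S' i := by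
  constructor
  · rintro ⟨_, i, h1, h2, h3⟩
    exact ⟨i, h1, h2, h3⟩
  · rintro ⟨i, h1, h2, h3⟩
    exact ⟨⟨0, le_rfl, le_rfl, by unfold Eqp; rw [ps_zero, ps_zero]⟩, i, h1, h2, h3⟩

open Classical in
theorem NI_eq {m u : ℕ} (S S' : Px Q) : NI m u S S' = if Mt 0 0 m u S S' then 0 else 1 := by
  unfold NI
  by_cases h : Mt 0 0 m u S S'
  · rw [if_pos h, if_neg]
    obtain ⟨i, h1, h2, h3⟩ := (Mt_iff S S').1 h
    exact fun h4 => h4 i h1 h2 h3
  · rw [if_neg h, if_pos]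
    intro k h1 h2 h3
    exact h ((Mt_iff S S').2 ⟨k, h1, h2, h3⟩)

variable [Nonempty (Px Q)]

/-- **The covariance with the non meeting indicator.** -/
theorem gc_eq_QN {m0 m1 : ℕ} {w a f : Px Q → ℝ} (hw : Hd m0 m1 w) (ha : Lk 0 m0 a) (hf : Rk m1 f) :
    rep 2 w (QN m0 m1 a f) = gc w a f := by
  classical
  rw [← rep_Q2_one w a f]
  have e1 : rep 2 w (QN m0 m1 a f) = PP w fun S S' => (1 / 2) * (((a S - a S') * (f S - f S')) * NI m0 m1 S S') :=
    rep_two_PP w _ fun x => rfl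
  have e2 : rep 2 w (Q2 (fun _ _ => 1) a f) = PP w fun S S' => ((1 / 2) * (((a S - a S') * (f S - f S')) * NI m0 m1 S S') +
      (1 / 2) * (if Mt 0 0 m0 m1 S S' then (f S - f S') * (a S - a S') else 0)) := by
    refine rep_two_PP w _ fun x => ?_
    unfold Q2
    rw [NI_eq]
    split_ifs
    · ring
    · ring
  have e3 : PP w (fun S S' => if Mt 0 0 m0 m1 S S' then (f S - f S') * (a S - a S') else 0) = 0 := by
    have h := swap_zero (c := 0) (al := 0) (be := m0) (d := m1) (Nat.zero_le m0) hw ha (fun S S' => f S - f S')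
      (fun S S' hm => by
        have hs : Mt 0 0 m0 m1 S' S := by rw [Mt_symm]; exact hm
        show f (sw 0 m1 S S') - f (sw 0 m1 S' S) = f S - f S'
        rw [hf (sw 0 m1 S S') S fun i hi => ps_sw_out (Nat.zero_le m0) hm (Or.inr hi),
          hf (sw 0 m1 S' S) S' fun i hi => ps_sw_out (Nat.zero_le m0) hs (Or.inr hi)])
    rw [PP_eq]
    have e4 : ∑ S, ∑ S', Real.exp (w S) * Real.exp (w S') * (if Mt 0 0 m0 m1 S S' then (f S - f S') * (a S - a S') else 0) = 0 := by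
      refine Eq.trans ?_ h
      refine Finset.sum_congr rfl fun S _ => Finset.sum_congr rfl fun S' _ => ?_
      split_ifs
      · ring
      · ring
    rw [e4, zero_div]
  rw [e1, e2, PP_add w (fun S S' => (1 / 2) * (((a S - a S') * (f S - f S')) * NI m0 m1 S S'))
    (fun S S' => (1 / 2) * (if Mt 0 0 m0 m1 S S' then (f S - f S') * (a S - a S') else 0)), PP_smul w (1 / 2)
    (fun S S' => if Mt 0 0 m0 m1 S S' then (f S - f S') * (a S - a S') else 0), e3, mul_zero, add_zero]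

/-! ### The class of the weights -/

/-- A functional of the position in one row. -/
theorem Wk_row {c al be d i : ℕ} (hab : al ≤ be) {h : Px Q → ℝ} (hh : Lk i i h) : Wk c al be d h := fun S S' hm => by
  have hs : Mt c al be d S' S := by rw [Mt_symm]; exact hm
  have ht := (tF_spec hm).2.2
  have hu := (uF_spec hm).2.2
  have htu := sw_times hab hm
  have e : ∀ T T' : Px Q, ps T i = ps T' i → h T = h T' := fun T T' hT => hh T T' fun k h1 h2 => by
    have : k = i := le_antisymm h2 h1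
    rw [this, hT]
  have e2 : sw c d S' S = swP (tF c S S') (uF d S S') S' S := by
    unfold sw
    rw [tF_symm c S S', uF_symm d S S']
  have e1 : sw c d S S' = swP (tF c S S') (uF d S S') S S' := rfl
  rw [e1, e2]
  rcases ps_swP htu ht hu i with ⟨h1, h2, _⟩ | ⟨h1, h2, _⟩
  · rw [e _ _ h1, e _ _ h2]
  · rw [e _ _ h1, e _ _ h2, add_comm]

theorem Wk_zero (c al be d : ℕ) : Wk (Q := Q) c al be d 0 := fun S S' _ => rfl

theorem Wk_sum {ι : Type*} {c al be d : ℕ} {s : Finset ι} {h : ι → Px Q → ℝ} (hh : ∀ i ∈ s, Wk c al be d (h i)) :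
    Wk c al be d (∑ i ∈ s, h i) := by
  classical
  induction s using Finset.induction_on with
  | empty => simpa using Wk_zero c al be d
  | insert i s hi ih =>
    rw [Finset.sum_insert hi]
    exact (hh i (Finset.mem_insert_self _ _)).add (ih fun j hj => hh j (Finset.mem_insert_of_mem hj))

/-! ### Positions and the outside -/

omit [SwQ Q] [Nonempty (Px Q)] in
theorem mem_iff_ps (S : Px Q) (k : ℕ) : k ∈ S.1 ↔ ps S (k + 1) = ps S k + 1 := by
  unfold ps
  rw [pos_split S.1 (Nat.le_succ k)]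
  have h : S.1 ∩ Ico k (k + 1) = if k ∈ S.1 then {k} else ∅ := by
    ext i
    simp only [mem_inter, mem_Ico]
    constructor
    · rintro ⟨h1, h2, h3⟩
      have : i = k := by omega
      subst this
      rw [if_pos h1]
      exact mem_singleton_self _
    · intro h1
      split_ifs at h1 with hk
      · rw [mem_singleton] at h1
        subst h1
        exact ⟨hk, le_rfl, Nat.lt_succ_self _⟩
      · exact absurd h1 (notMem_empty _)
  rw [h]
  split_ifs with hk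
  · simp [hk]
  · simp [hk]

omit [SwQ Q] [Nonempty (Px Q)] in
/-- The positions in the rows `≥ m` determine what is behind `m`. -/
theorem pJ_of_ps {m : ℕ} {S S' : Px Q} (h : ∀ i, m ≤ i → ps S i = ps S' i) : pJ 0 m S = pJ 0 m S' := by
  unfold pJ
  have h1 : S.1 \ Ico 0 m = S'.1 \ Ico 0 m := by
    ext k
    simp only [Finset.mem_sdiff, Finset.mem_Ico, Nat.zero_le, true_and, not_lt]
    constructor
    · rintro ⟨h1, h2⟩
      refine ⟨?_, h2⟩
      rw [mem_iff_ps] at h1 ⊢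
      rw [← h (k + 1) (by omega), ← h k h2]
      exact h1
    · rintro ⟨h1, h2⟩
      refine ⟨?_, h2⟩
      rw [mem_iff_ps] at h1 ⊢
      rw [h (k + 1) (by omega), h k h2]
      exact h1
  have h2 : (S.1 ∩ Ico 0 m).card = (S'.1 ∩ Ico 0 m).card := by
    have e : ∀ T : Px Q, ps T m = ((T.1 ∩ Ico 0 m).card : ℤ) := fun T => by
      unfold ps pos
      rw [Finset.range_eq_Ico]
    have h3 := h m le_rfl
    rw [e, e] at h3
    exact_mod_cast h3
  rw [h1, h2]

omit [SwQ Q] [Nonempty (Px Q)] in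
/-- A function of the outside of `[0, m)` is a functional of the rows `≥ m`. -/
theorem Rk_of_mp {m : ℕ} {f : Px Q → ℝ} (hf : Mp (pJ 0 m) f) : Rk m f := fun S S' h => hf S S' (pJ_of_ps h)

omit [SwQ Q] [Nonempty (Px Q)] in
theorem mp_of_Rk {m : ℕ} {f : Px Q → ℝ} (hf : Rk m f) : Mp (pJ 0 m) f := fun S S' h => hf S S' fun i hi => ps_of_ge h hi

omit [SwQ Q] [Nonempty (Px Q)] in
theorem Rk.mono {m m' : ℕ} (h : m ≤ m') {f : Px Q → ℝ} (hf : Rk m' f) : Rk m f := fun S S' h1 =>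
  hf S S' fun i hi => h1 i (h.trans hi)

omit [SwQ Q] [Nonempty (Px Q)] in
theorem Lk_mono {al be al' be' : ℕ} (h : al' ≤ al) (h' : be ≤ be') {g : Px Q → ℝ} (hg : Lk al be g) : Lk al' be' g :=
  fun S S' h1 => hg S S' fun i h2 h3 => h1 i (h.trans h2) (h3.trans h')

/-! ### The Markov property -/

/-- The path `S'` with the head of `T`. -/
def gl (m : ℕ) (S' T : Px Q) : Px Q := swP 0 m S' T

omit [Nonempty (Px Q)] in
theorem Eqp_zero (S S' : Px Q) : Eqp S S' 0 := by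
  unfold Eqp
  rw [ps_zero, ps_zero]

omit [Nonempty (Px Q)] in
theorem gl_val {m : ℕ} {S' T : Px Q} (h : ps S' m = ps T m) : (gl m S' T).1 = swp 0 m S'.1 T.1 :=
  swP_val (Nat.zero_le m) (Eqp_zero _ _) h

omit [Nonempty (Px Q)] in
theorem pJ_gl {m : ℕ} {S' T : Px Q} (h : ps S' m = ps T m) : pJ 0 m (gl m S' T) = pJ 0 m S' :=
  pJ_swP le_rfl (Nat.zero_le m) le_rfl (Eqp_zero _ _) h

omit [Nonempty (Px Q)] in
theorem ps_gl {m i : ℕ} {S' T : Px Q} (h : ps S' m = ps T m) (hi : i ≤ m) : ps (gl m S' T) i = ps T i :=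
  ps_swP_mid (Nat.zero_le m) (Eqp_zero _ _) h (Nat.zero_le i) hi

omit [Nonempty (Px Q)] in
/-- The sum of the log weights under the exchange of the heads at the row `m`. -/
theorem Hd.eq {m : ℕ} {w : Px Q → ℝ} (hw : Hd m m w) {S S' : Px Q} (h : ps S m = ps S' m) :
    w (gl m S S') + w (gl m S' S) = w S + w S' := by
  have hm : Mt 0 0 m m S S' := (Mt_iff S S').2 ⟨m, le_rfl, le_rfl, h⟩
  have h1 := hw S S' hm
  have t0 : ∀ T T' : Px Q, tF 0 T T' = 0 := fun T T' =>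
    Nat.le_zero.1 (Nat.sInf_le (show (0 : ℕ) ∈ {i | 0 ≤ i ∧ Eqp T T' i} from ⟨le_rfl, Eqp_zero T T'⟩))
  have u0 : ∀ T T' : Px Q, ps T m = ps T' m → uF m T T' = m := fun T T' hT => by
    have hm' : Mt 0 0 m m T T' := (Mt_iff T T').2 ⟨m, le_rfl, le_rfl, hT⟩
    exact le_antisymm (uF_spec hm').2.1 (uF_spec hm').1
  have e1 : sw 0 m S S' = gl m S S' := by unfold sw gl; rw [t0, u0 S S' h]
  have e2 : sw 0 m S' S = gl m S' S := by unfold sw gl; rw [t0, u0 S' S h.symm]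
  rwa [e1, e2] at h1

omit [Nonempty (Px Q)] in
theorem gl_fib {m : ℕ} {S T S' : Px Q} (h : ps S m = ps S' m) (hT : pJ 0 m T = pJ 0 m S) : gl m T S' = gl m S S' := by
  have h0 : ps T m = ps S m := ps_of_ge hT le_rfl
  apply Subtype.ext
  rw [gl_val (h0.trans h), gl_val h]
  have h1 : T.1 \ Ico 0 m = S.1 \ Ico 0 m := congrArg Prod.fst hT
  unfold swp
  rw [h1]

omit [Nonempty (Px Q)] in
theorem gl_gl {m : ℕ} {S S' T : Px Q} (h : ps S m = ps S' m) (hT : pJ 0 m T = pJ 0 m S) : gl m S (gl m S' T) = T := by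
  have h0 : ps T m = ps S m := ps_of_ge hT le_rfl
  have h1 : ps S' m = ps T m := h.symm.trans h0.symm
  have h2 : ps (gl m S' T) m = ps T m := ps_gl h1 le_rfl
  apply Subtype.ext
  rw [gl_val (h0.symm.trans h2.symm), gl_val h1]
  have h3 : T.1 \ Ico 0 m = S.1 \ Ico 0 m := congrArg Prod.fst hT
  ext k
  have h4 : k ∈ T.1 \ Ico 0 m ↔ k ∈ S.1 \ Ico 0 m := by rw [h3]
  rw [Finset.mem_sdiff, Finset.mem_sdiff, Finset.mem_Ico] at h4
  rw [mem_swp, mem_swp]
  by_cases hk : k < m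
  · have hk' : 0 ≤ k ∧ k < m := ⟨Nat.zero_le k, hk⟩
    tauto
  · have hk' : ¬(0 ≤ k ∧ k < m) := fun h => hk h.2
    tauto

variable {w : Px Q → ℝ} {m : ℕ}

omit [Nonempty (Px Q)] in
/-- The change of the log weight under the change of the tail does not see the head. -/
theorem gl_lw (hw : Hd m m w) {S S' T : Px Q} (h : ps S m = ps S' m) (hT : pJ 0 m T = pJ 0 m S) :
    w (gl m S' T) = w T + (w (gl m S' S) - w S) := by
  have h0 : ps T m = ps S m := ps_of_ge hT le_rfl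
  have e1 := hw.eq (S := T) (S' := S') (h0.trans h)
  have e2 := hw.eq (S := S) (S' := S') h
  rw [gl_fib h hT] at e1
  linarith

/-- A sum over the fibre of `S'`. -/
theorem sum_fib {S S' : Px Q} (h : ps S m = ps S' m) (φ : Px Q → ℝ) :
    ∑ T, (if pJ 0 m T = pJ 0 m S' then φ T else 0) = ∑ T, if pJ 0 m T = pJ 0 m S then φ (gl m S' T) else 0 := by
  rw [← Finset.sum_filter, ← Finset.sum_filter]
  have key : ∀ {S S' : Px Q}, ps S m = ps S' m → ∀ T, pJ 0 m T = pJ 0 m S → pJ 0 m (gl m S' T) = pJ 0 m S' :=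
    fun h T hT => pJ_gl (h.symm.trans (ps_of_ge hT le_rfl).symm)
  refine (Finset.sum_bij' (fun T _ => gl m S' T) (fun T _ => gl m S T) ?_ ?_ ?_ ?_ ?_).symm
  · intro T hT
    exact Finset.mem_filter.2 ⟨Finset.mem_univ _, key h T (Finset.mem_filter.1 hT).2⟩
  · intro T hT
    exact Finset.mem_filter.2 ⟨Finset.mem_univ _, key h.symm T (Finset.mem_filter.1 hT).2⟩
  · intro T hT
    exact gl_gl h (Finset.mem_filter.1 hT).2
  · intro T hT
    exact gl_gl h.symm (Finset.mem_filter.1 hT).2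
  · intro T hT
    rfl

/-- **The Markov property**: the conditional mean, given what is behind the row `m`, of a functional of the rows `≤ m` depends on
the position at the row `m` only. -/
theorem markov_cE (hw : Hd m m w) {g : Px Q → ℝ} (hg : Lk 0 m g) : Lk m m (cE w (pJ 0 m) g) := by
  intro S S' h0
  have h := h0 m le_rfl le_rfl
  have e1 : ∀ φ : Px Q → ℝ, (∀ T, pJ 0 m T = pJ 0 m S → φ (gl m S' T) = φ T) →
      ∑ T, (if pJ 0 m T = pJ 0 m S' then Real.exp (w T) * φ T else 0) =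
        Real.exp (w (gl m S' S) - w S) * ∑ T, (if pJ 0 m T = pJ 0 m S then Real.exp (w T) * φ T else 0) := by
    intro φ hφ
    rw [sum_fib h fun T => Real.exp (w T) * φ T, Finset.mul_sum]
    refine Finset.sum_congr rfl fun T _ => ?_
    split_ifs with hT
    · rw [gl_lw hw h hT, hφ T hT, Real.exp_add]
      ring
    · rw [mul_zero]
  have hg' : ∀ T, pJ 0 m T = pJ 0 m S → g (gl m S' T) = g T := fun T hT =>
    hg _ _ fun i _ hi => ps_gl (h.symm.trans (ps_of_ge hT le_rfl).symm) hi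
  have a1 := e1 g hg'
  have a2 := e1 (fun _ => 1) fun _ _ => rfl
  simp only [mul_one] at a2
  unfold cE fz
  rw [a1, a2, mul_div_mul_left _ _ (Real.exp_pos _).ne']

omit [SwQ Q] [Nonempty (Px Q)] in
theorem Lk_mul {al be : ℕ} {g h : Px Q → ℝ} (hg : Lk al be g) (hh : Lk al be h) : Lk al be (g * h) :=
  fun S S' e => by rw [Pi.mul_apply, Pi.mul_apply, hg S S' e, hh S S' e]

omit [SwQ Q] [Nonempty (Px Q)] in
theorem Lk_sub {al be : ℕ} {g h : Px Q → ℝ} (hg : Lk al be g) (hh : Lk al be h) : Lk al be (g - h) :=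
  fun S S' e => by rw [Pi.sub_apply, Pi.sub_apply, hg S S' e, hh S S' e]

omit [SwQ Q] [Nonempty (Px Q)] in
theorem Lk_smul {al be : ℕ} {g : Px Q → ℝ} (hg : Lk al be g) (c : ℝ) : Lk al be (c • g) :=
  fun S S' e => by rw [Pi.smul_apply, Pi.smul_apply, hg S S' e]

omit [SwQ Q] [Nonempty (Px Q)] in
theorem Lk_sum {ι : Type*} {al be : ℕ} {s : Finset ι} {h : ι → Px Q → ℝ} (hh : ∀ i ∈ s, Lk al be (h i)) :
    Lk al be (∑ i ∈ s, h i) := fun S S' e => by
  rw [Finset.sum_apply, Finset.sum_apply]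
  exact Finset.sum_congr rfl fun i hi => hh i hi S S' e

theorem markov_cC (hw : Hd m m w) {g h : Px Q → ℝ} (hg : Lk 0 m g) (hh : Lk 0 m h) : Lk m m (cC w (pJ 0 m) g h) :=
  Lk_sub (markov_cE hw (Lk_mul hg hh)) (Lk_mul (markov_cE hw hg) (markov_cE hw hh))

/-! ### (E1) with the non meeting indicator -/

/-- The class of the weights behind the row `m0`. -/
def HdAll (m0 : ℕ) (w : Px Q → ℝ) : Prop := ∀ m u, m0 ≤ m → m ≤ u → Hd m u w

omit [Nonempty (Px Q)] in
theorem HdAll.add {m0 : ℕ} {w w' : Px Q → ℝ} (h : HdAll m0 w) (h' : HdAll m0 w') : HdAll m0 (w + w') :=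
  fun m u h1 h2 => (h m u h1 h2).add (h' m u h1 h2)

omit [Nonempty (Px Q)] in
theorem HdAll.smul {m0 : ℕ} {w : Px Q → ℝ} (h : HdAll m0 w) (c : ℝ) : HdAll m0 (c • w) :=
  fun m u h1 h2 => (h m u h1 h2).smul c

omit [Nonempty (Px Q)] in
/-- The actual weights, at every tilt `t` of a kick in front of `m0`. -/
theorem HdAll_lw {μ : MeasureTheory.Measure ℝ} {s : ℝ} {N : ℕ} (η : Env) (m0 : ℕ) : HdAll (Q := Q) m0 (lw μ s η N Q) :=
  fun m u _ _ => Wk_lw η (Nat.zero_le m)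

omit [Nonempty (Px Q)] in
/-- A functional in front of `m0`. -/
theorem HdAll_Lk {m0 : ℕ} {g : Px Q → ℝ} (hg : Lk 0 m0 g) : HdAll m0 g := fun m u h1 _ =>
  (Lk_mono le_rfl h1 hg).Wk

theorem HdAll_rows {ι : Type*} {m0 : ℕ} {s : Finset ι} {r : ι → ℕ} {h : ι → Px Q → ℝ} (hh : ∀ i ∈ s, Lk (r i) (r i) (h i)) :
    HdAll m0 (∑ i ∈ s, h i) := fun m u _ _ => Wk_sum fun i hi => Wk_row (Nat.zero_le m) (hh i hi)

section E1

variable {m0 m0' m1 : ℕ} {J J' : Finset ℕ} {θ θ' : ℕ → ℝ} {g gW f : Px Q → ℝ}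

theorem Lk_field {z : ℕ} (hw : HdAll m0 w) (hg : Lk 0 m0 g) (hz : m0 ≤ z) : Lk z z (cE w (pJ 0 z) g) :=
  markov_cE (hw z z hz le_rfl) (Lk_mono le_rfl hz hg)

theorem HdAll_avC (hw : HdAll m0 w) (hg : Lk 0 m0 g) (hJ : ∀ m ∈ J, m0 ≤ m) (k : ℕ) :
    HdAll (Q := Q) k (avC w J θ (fun m => pJ 0 m) g) :=
  HdAll_rows (r := fun m => m) fun m hm => Lk_smul (Lk_field hw hg (hJ m hm)) _

theorem Lk_avC (hw : HdAll m0 w) (hg : Lk 0 m0 g) (hJ : ∀ m ∈ J, m0 ≤ m ∧ m ≤ m0') :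
    Lk (Q := Q) 0 m0' (avC w J θ (fun m => pJ 0 m) g) :=
  Lk_sum fun m hm => Lk_smul (Lk_mono (Nat.zero_le _) (hJ m hm).2 (Lk_field hw hg (hJ m hm).1)) _

theorem Lk_avN {h : Px Q → ℝ} (hw : HdAll m0 w) (hg : Lk 0 m0 g) (hh : Lk 0 m0 h) (hJ : ∀ m ∈ J, m0 ≤ m ∧ m ≤ m0') :
    Lk (Q := Q) 0 m0' (avN w J θ (fun m => pJ 0 m) g h) :=
  Lk_sum fun m hm => Lk_smul (Lk_mono (Nat.zero_le _) (hJ m hm).2 (markov_cC (hw m m (hJ m hm).1 le_rfl)
    (Lk_mono le_rfl (hJ m hm).1 hg) (Lk_mono le_rfl (hJ m hm).1 hh))) _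

/-- **(E1) averaged over `z`, in replicas with the non meeting indicators**: the slab rows `J ⊆ [m0, m0']`, `J' ⊆ [m0', m1]`, the
kick and `gW` in front of `m0`, `f` behind `m1`. -/
theorem E1_NI (hw : HdAll m0 w) (hg : Lk 0 m0 g) (hgW : Lk 0 m0 gW) (hf : Rk m1 f) (h01 : m0 ≤ m0') (h11 : m0' ≤ m1)
    (hJ : ∀ m ∈ J, m0 ≤ m ∧ m ≤ m0') (hJ' : ∀ z ∈ J', m0' ≤ z ∧ z ≤ m1) (hθ : ∑ m ∈ J, θ m = 1) :
    ∑ z ∈ J', θ' z * DX (pJ 0 z) w g [[gW], [g]] [f] =
      (rep 4 w (nxt (avC w J θ (fun m => pJ 0 m) g) (nxt (avC w J' θ' (fun z => pJ 0 z) g) (QN m0 m1 gW f))) +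
        rep 3 w (nxt (∑ z ∈ J', θ' z • cC w (pJ 0 z) (avC w J θ (fun m => pJ 0 m) g) g) (QN m0 m1 gW f))) +
      (rep 3 w (nxt (avC w J' θ' (fun z => pJ 0 z) g) (QN m0' m1 (avN w J θ (fun m => pJ 0 m) g gW) f)) +
        rep 3 w (nxt (avC w J' θ' (fun z => pJ 0 z) gW) (QN m0' m1 (avN w J θ (fun m => pJ 0 m) g g) f))) := by
  have c1 : HdAll m0 (avC w J θ (fun m => pJ 0 m) g) := HdAll_avC hw hg (fun m hm => (hJ m hm).1) m0
  have c2 : HdAll m0 (avC w J' θ' (fun z => pJ 0 z) g) := HdAll_avC hw hg (fun z hz => h01.trans (hJ' z hz).1) m0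
  have c3 : HdAll m0 (avC w J' θ' (fun z => pJ 0 z) gW) := HdAll_avC hw hgW (fun z hz => h01.trans (hJ' z hz).1) m0
  have c4 : HdAll m0 (∑ z ∈ J', θ' z • cC w (pJ 0 z) (avC w J θ (fun m => pJ 0 m) g) g) :=
    HdAll_rows (r := fun z => z) fun z hz => by
      have hz' := (hJ' z hz).1
      refine Lk_smul (markov_cC (hw z z (h01.trans hz') le_rfl) ?_ (Lk_mono le_rfl (h01.trans hz') hg)) _
      exact Lk_mono le_rfl hz' (Lk_avC hw hg hJ)
  have h01' : m0 ≤ m1 := h01.trans h11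
  refine E1_rep (fun z hz => mp_of_Rk (hf.mono (hJ' z hz).2)) hθ
    (fun z hz m hm => crs_pJ le_rfl ((hJ m hm).2.trans (hJ' z hz).1)) ?_ ?_ ?_ ?_
  · intro s u
    exact gc_eq_QN (((hw.add (c1.smul s)).add (c2.smul u)) m0 m1 le_rfl h01') hgW hf
  · intro s
    exact gc_eq_QN ((hw.add (c4.smul s)) m0 m1 le_rfl h01') hgW hf
  · intro s
    exact gc_eq_QN ((hw.add (c2.smul s)) m0' m1 h01 h11) (Lk_avN hw hg hgW hJ) hf
  · intro s
    exact gc_eq_QN ((hw.add (c3.smul s)) m0' m1 h01 h11) (Lk_avN hw hg hg hJ) hf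

end E1

end

end Pool.Agent.W_7d29a1_C0.NM82
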