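import Pool.Agent.W_7d29a1_C0.CrossW81
import Pool.Agent.W_7d29a1_C0.Mic57
import Pool.Agent.W_7d29a1_C0.NM82
import Pool.Agent.W_7d29a1_C0.Two63B
import Pool.Agent.W_7d29a1_C0.Mod92B

/-!
CURV0 (MP_7d29a1_pr), leaf E2a: the term (E2a) of `crossW81`, `cm [g, V, f]` under the weights `w` (`w = lw + (t - a) g`, `V` = the
conditional variance of `g` given the ends of the base window `W = [c, d)`, a function of these ends; `f` a functional of the rows
`≥ m1`). (1) exact: one insertion of `g` in the pair functional `QN m0 m1 V f` (no common position in `[m0, m1]`); (2) the remainder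
`g - C`, `C` = the slab average of the conditional means, is one more replica given the path behind the row `m`, apart on one side
between `W0 = [al, be]` and `W`; (3) `E2a_box`: one slab step, localised by boxes. (helper81)
-/

set_option autoImplicit false
set_option linter.unusedSectionVars false
set_option linter.unusedVariables false

namespace Pool.Agent.W_7d29a1_C0.E2a81

open Finset MeasureTheory
open Pool.Agent.W_7d29a1_F Pool.Agent.W_7d29a1_X
open Pool.Agent.W_7d29a1_C0 Pool.Agent.W_7d29a1_C0.Mod92 Pool.Agent.W_7d29a1_C0.Swap57 Pool.Agent.W_7d29a1_C0.NM82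
open Pool.Agent.W_7d29a1_C0.H32
open Pool.W7d29a1.C0 Pool.W7d29a1.C0.VT31 Pool.W7d29a1.C0.H41 Pool.W7d29a1.C0.R63
open Pool.W7d29a1.C0.H19 (Cf BF)

noncomputable section

/-! ### Plain replicas -/

section Abs

variable {X : Type*} [Fintype X] [Nonempty X] {Y : Type*} [DecidableEq Y]

/-- The insertion of a function with mean zero. -/
theorem rep_nxt_centred {w D : X → ℝ} (h : gm w D = 0) (Ψ : (Fin 2 → X) → ℝ) :
    rep 3 w (nxt D Ψ) = rep 2 w (fun x => Ψ x * D (x 0)) + rep 2 w fun x => Ψ x * D (x 1) := by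
  rw [rep_nxt_two, h, mul_zero, zero_mul, sub_zero, ← H41.rep_add]
  exact H41.rep_congr _ _ fun x => by ring

/-- The weights of the plain replicas. -/
theorem ifb_rep (w : X → ℝ) (p : X → Y) (i : Fin 2) : Ifb w p (fun x : Fin 2 → X => Real.exp (∑ k, w (x k)) / gz w ^ 2) i :=
  fun x S hS => by
    have e : Real.exp (∑ k, w (Function.update x i S k)) * Real.exp (w (x i)) =
        Real.exp (∑ k, w (x k)) * Real.exp (w S) := by
      rw [← Real.exp_add, ← Real.exp_add]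
      congr 1
      have h1 : ∀ k, w (Function.update x i S k) = Function.update (fun k => w (x k)) i (w S) k := fun k => by
        by_cases hk : k = i
        · subst hk
          simp
        · simp [hk]
      simp_rw [h1]
      rw [Finset.sum_update_of_mem (Finset.mem_univ i), ← Finset.add_sum_erase univ (fun k => w (x k)) (Finset.mem_univ i),
        Finset.sdiff_singleton_eq_erase]
      ring
    show Real.exp (∑ k, w (Function.update x i S k)) / gz w ^ 2 * Real.exp (w (x i)) =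
      Real.exp (∑ k, w (x k)) / gz w ^ 2 * Real.exp (w S)
    rw [div_mul_eq_mul_div, e]
    ring

theorem rep_eq_sum (w : X → ℝ) (Ψ : (Fin 2 → X) → ℝ) :
    rep 2 w Ψ = ∑ x : Fin 2 → X, Real.exp (∑ k, w (x k)) / gz w ^ 2 * Ψ x := by
  unfold rep
  rw [Finset.sum_div]
  exact Finset.sum_congr rfl fun x _ => by ring

end Abs

/-! ### The model -/

variable {Q : Finset (Finset ℕ)} [SwQ Q] [Nonempty (Px Q)] {c al be d m0 m1 : ℕ} {w g V f : Px Q → ℝ}

/-- **(E2a) as one insertion in the pair functional.** -/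
theorem cm_QN (hw : Hd m0 m1 w) (hg : Lk 0 m0 g) (hV : Lk 0 m0 V) (hf : Rk m1 f) :
    cm [g, V, f] w = rep 3 w (nxt g (QN m0 m1 V f)) :=
  cm_ins_of fun s => gc_eq_QN (hw.add (hgs s)) hV hf
where
  hgs (s : ℝ) : Hd m0 m1 (s • g) := (hg.Wk (c := 0) (d := m1)).smul s

theorem gm_slabC (w g : Px Q → ℝ) {J : Finset ℕ} (hJ : J.Nonempty) : gm w (g - slabC w g J) = 0 := by
  have hJ0 : (0 : ℝ) < J.card := Nat.cast_pos.2 (card_pos.2 hJ)
  have e : slabC w g J = (J.card : ℝ)⁻¹ • ∑ m ∈ J, cE w (pJ 0 m) g := by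
    funext S
    unfold slabC
    rw [Pi.smul_apply, Finset.sum_apply, smul_eq_mul]
  have e2 : gm w (∑ m ∈ J, cE w (pJ 0 m) g) = ∑ m ∈ J, gm w (cE w (pJ 0 m) g) := by
    rw [gm_eq_cm, cm_head_sum]
    exact Finset.sum_congr rfl fun m _ => (gm_eq_cm _ _).symm
  rw [gm_sub, e, gm_smul, e2, Finset.sum_congr rfl fun m _ => gm_cE w (pJ 0 m) g, Finset.sum_const, nsmul_eq_mul]
  field_simp
  ring

/-- The mass of the new replica given what is behind the row `m`, apart on one side of the window. -/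
def mM (c al be d : ℕ) (w : Px Q → ℝ) (m : ℕ) (S : Px Q) : ℝ := cE w (pJ 0 m) (NM c al be d S) S

theorem mM_nonneg (w : Px Q → ℝ) (m : ℕ) (S : Px Q) : 0 ≤ mM c al be d w m S := cE_nonneg _ _ (fun v => NM_nonneg _ _ _ _ _ _) _

theorem obl_QN (hd : d ≤ m0) (hcd : c ≤ d) (hm : m0 ≤ m1) (hV : Mp (pJ c d) V) (hf : Rk m1 f) (i : Fin 2) :
    Obl (pJ c d) (QN m0 m1 V f) i := fun x S hS => by
  have hr : ∀ T T' : Px Q, pJ c d T = pJ c d T' → ∀ k, m0 ≤ k → ps T k = ps T' k := fun T T' h k hk =>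
    ps_of_ge h (hd.trans hk)
  have hfm : ∀ T T' : Px Q, pJ c d T = pJ c d T' → f T = f T' := fun T T' h => hf T T' fun k hk => hr T T' h k (hm.trans hk)
  have hN : ∀ T T' U : Px Q, pJ c d T = pJ c d T' → NI m0 m1 T U = NI m0 m1 T' U := fun T T' U h => by
    unfold NI
    have e : (∀ k, m0 ≤ k → k ≤ m1 → ps T k ≠ ps U k) ↔ ∀ k, m0 ≤ k → k ≤ m1 → ps T' k ≠ ps U k :=
      forall_congr' fun k => ⟨fun h1 hk => by rw [← hr T T' h k hk]; exact h1 hk, fun h1 hk => by rw [hr T T' h k hk]; exact h1 hk⟩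
    simp only [e]
  have hN' : ∀ T T' U : Px Q, pJ c d T = pJ c d T' → NI m0 m1 U T = NI m0 m1 U T' := fun T T' U h => by
    unfold NI
    have e : (∀ k, m0 ≤ k → k ≤ m1 → ps U k ≠ ps T k) ↔ ∀ k, m0 ≤ k → k ≤ m1 → ps U k ≠ ps T' k :=
      forall_congr' fun k => ⟨fun h1 hk => by rw [← hr T T' h k hk]; exact h1 hk, fun h1 hk => by rw [hr T T' h k hk]; exact h1 hk⟩
    simp only [e]
  unfold QN
  fin_cases i
  · simp only [Fin.zero_eta, Function.update_self, ne_eq, one_ne_zero, not_false_eq_true, Function.update_of_ne] at hS ⊢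
    rw [hV _ _ hS, hfm _ _ hS, hN _ _ _ hS]
  · simp only [Fin.mk_one, Function.update_self, ne_eq, zero_ne_one, not_false_eq_true, Function.update_of_ne] at hS ⊢
    rw [hV _ _ hS, hfm _ _ hS, hN' _ _ _ hS]

/-- **The remainder**: one more replica, given what is behind the row `m`, apart on one side between `W0` and `W`. -/
theorem abs_rem_le (hab : al ≤ be) (hw : Wk c al be d w) (hg : Lk al be g) {L : ℝ} (hL : ∀ S S', |g S - g S'| ≤ L)
    (hcd : c ≤ d) (hd : d ≤ m0) (hm : m0 ≤ m1) (hV : Mp (pJ c d) V) (hf : Rk m1 f) {J : Finset ℕ} (hJ : J.Nonempty)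
    (hJd : ∀ m ∈ J, d ≤ m) :
    |rep 3 w (nxt (g - slabC w g J) (QN m0 m1 V f))| ≤ L * ((J.card : ℝ)⁻¹ * ∑ m ∈ J,
      rep 2 w fun x => |QN m0 m1 V f x| * (mM c al be d w m (x 0) + mM c al be d w m (x 1))) := by
  have key : ∀ i : Fin 2, |rep 2 w (fun x => QN m0 m1 V f x * (g - slabC w g J) (x i))| ≤
      L * ((J.card : ℝ)⁻¹ * ∑ m ∈ J, rep 2 w fun x => |QN m0 m1 V f x| * mM c al be d w m (x i)) := fun i => by
    have h := abs_mic_slab_le hab hw hg hL hJ hJd ((ifb_rep w (pJ c d) i).mul (obl_QN hd hcd hm hV hf i))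
    rw [rep_eq_sum]
    have e1 : ∑ x : Fin 2 → Px Q, Real.exp (∑ k, w (x k)) / gz w ^ 2 * (QN m0 m1 V f x * (g - slabC w g J) (x i)) =
        ∑ x : Fin 2 → Px Q, Real.exp (∑ k, w (x k)) / gz w ^ 2 * QN m0 m1 V f x * (g (x i) - slabC w g J (x i)) :=
      Finset.sum_congr rfl fun x _ => by
        rw [Pi.sub_apply]
        ring
    rw [e1]
    refine h.trans_eq ?_
    congr 2
    refine Finset.sum_congr rfl fun m _ => ?_
    rw [rep_eq_sum]
    refine Finset.sum_congr rfl fun x _ => ?_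
    rw [abs_mul, abs_of_nonneg (div_nonneg (Real.exp_pos _).le (pow_pos (gz_pos w) 2).le)]
    unfold mM
    ring
  rw [rep_nxt_centred (gm_slabC w g hJ)]
  refine (abs_add_le _ _).trans ((add_le_add (key 0) (key 1)).trans_eq ?_)
  rw [← mul_add, ← mul_add, ← Finset.sum_add_distrib]
  congr 2
  refine Finset.sum_congr rfl fun m _ => ?_
  rw [← H41.rep_add]
  exact H41.rep_congr _ _ fun x => by ring

/-! ### One slab step, localised -/

theorem abs_QN_le {v F : ℝ} (hv : ∀ S, |V S| ≤ v) (hF : ∀ S, |f S| ≤ F) (x : Fin 2 → Px Q) : |QN m0 m1 V f x| ≤ 2 * (v * F) := by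
  have h1 : |V (x 0) - V (x 1)| ≤ 2 * v := (abs_sub _ _).trans (by linarith [hv (x 0), hv (x 1)])
  have h2 : |f (x 0) - f (x 1)| ≤ 2 * F := (abs_sub _ _).trans (by linarith [hF (x 0), hF (x 1)])
  have h3 : |NI m0 m1 (x 0) (x 1)| ≤ 1 := by
    unfold NI
    split_ifs <;> norm_num
  unfold QN
  rw [abs_mul, abs_mul, abs_mul, abs_of_pos (by norm_num : (0 : ℝ) < 1 / 2)]
  have h4 : |V (x 0) - V (x 1)| * |f (x 0) - f (x 1)| ≤ 2 * v * (2 * F) :=
    mul_le_mul h1 h2 (abs_nonneg _) ((abs_nonneg _).trans h1)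
  have h5 : |V (x 0) - V (x 1)| * |f (x 0) - f (x 1)| * |NI m0 m1 (x 0) (x 1)| ≤ 2 * v * (2 * F) * 1 :=
    mul_le_mul h4 h3 (abs_nonneg _) ((mul_nonneg (abs_nonneg _) (abs_nonneg _)).trans h4)
  linarith

/-- The size of the pair functional. -/
theorem abs_QN_le' (hV0 : ∀ S, 0 ≤ V S) (x : Fin 2 → Px Q) :
    |QN m0 m1 V f x| ≤ (1 / 2) * (V (x 0) + V (x 1)) * |f (x 0) - f (x 1)| * NI m0 m1 (x 0) (x 1) := by
  have h1 : |V (x 0) - V (x 1)| ≤ V (x 0) + V (x 1) := by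
    rw [abs_le]
    constructor <;> linarith [hV0 (x 0), hV0 (x 1)]
  unfold QN
  rw [abs_mul, abs_mul, abs_mul, abs_of_pos (by norm_num : (0 : ℝ) < 1 / 2), abs_of_nonneg (NI_nonneg m0 m1 (x 0) (x 1))]
  have h2 := mul_le_mul_of_nonneg_right h1 (abs_nonneg (f (x 0) - f (x 1)))
  have h3 := mul_le_mul_of_nonneg_right h2 (NI_nonneg m0 m1 (x 0) (x 1))
  linarith

theorem meas_QN {V f : Env → Px Q → ℝ} (hV : Measurable V) (hf : Measurable f) : Measurable fun η => QN m0 m1 (V η) (f η) := by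
  refine measurable_pi_lambda _ fun x => ?_
  have a1 : ∀ S, Measurable fun η => V η S := fun S => (measurable_pi_apply S).comp hV
  have a2 : ∀ S, Measurable fun η => f η S := fun S => (measurable_pi_apply S).comp hf
  unfold QN
  exact ((((a1 _).sub (a1 _)).mul ((a2 _).sub (a2 _))).mul_const _).const_mul _

theorem meas_mM {w : Env → Px Q → ℝ} (hw : Measurable w) (m : ℕ) (S' : Px Q) : Measurable fun η => mM c al be d (w η) m S' :=
  meas_cE (w := w) (f := fun _ => NM c al be d S') (fun x => (measurable_pi_apply x).comp hw) (fun x => measurable_const)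
    (pJ 0 m) S'

omit [SwQ Q] in
theorem mM_le (w : Px Q → ℝ) (m : ℕ) (S' : Px Q) : mM c al be d w m S' ≤ 1 := by
  have h2 := cE_mono w (pJ 0 m) (f := NM c al be d S') (g := fun _ => 1) (fun v => NM_le_one _ _ _ _ _ _) S'
  rwa [cE_one] at h2

/-- The observable of the remainder. -/
def RM (c al be d m0 m1 m : ℕ) (w V f : Px Q → ℝ) : (Fin 2 → Px Q) → ℝ :=
  fun x => |QN m0 m1 V f x| * (mM c al be d w m (x 0) + mM c al be d w m (x 1))

theorem obs_RM {w V f : Env → Px Q → ℝ} (hw : Measurable w) {D : ℝ} (oQ : Obs (fun η => QN m0 m1 (V η) (f η)) D) (m : ℕ) :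
    Obs (fun η => RM c al be d m0 m1 m (w η) (V η) (f η)) (D * 2) := by
  refine ⟨measurable_pi_lambda _ fun x => ?_, fun η x => ?_⟩
  · exact ((measurable_pi_apply x).comp oQ.abs.meas).mul ((meas_mM hw m _).add (meas_mM hw m _))
  · unfold RM
    rw [abs_mul, abs_abs]
    have k1 := oQ.bd η x
    have b1 : ∀ S', |mM c al be d (w η) m S'| ≤ 1 := fun S' => by
      rw [abs_of_nonneg (mM_nonneg _ _ _)]
      exact mM_le _ _ _
    have k2 : |mM c al be d (w η) m (x 0) + mM c al be d (w η) m (x 1)| ≤ 2 :=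
      (abs_add_le _ _).trans (by linarith [b1 (x 0), b1 (x 1)])
    exact mul_le_mul k1 k2 (abs_nonneg _) ((abs_nonneg _).trans k1)

theorem int_rep {μ0 : Measure ℝ} [IsProbabilityMeasure μ0] {w : Env → Px Q → ℝ} (hw : Measurable w) {D : ℝ}
    {Ψ : Env → (Fin 2 → Px Q) → ℝ} (o : Obs Ψ D) : Integrable (fun η => rep 2 (w η) (Ψ η)) (law μ0) := by
  have h2 := o.int (repEv (Px Q) 2) (μ := μ0) hw
  simpa only [repEv_ev] using h2

/-- The remainder in expectation. -/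
theorem int_rem_le {μ0 : Measure ℝ} [IsProbabilityMeasure μ0] {w g V f : Env → Px Q → ℝ} {J : Finset ℕ} {L D : ℝ}
    (hw : Measurable w) (oQ : Obs (fun η => QN m0 m1 (V η) (f η)) D) (hf : ∀ η, Rk m1 (f η))
    (hab : al ≤ be) (hcd : c ≤ d) (hd : d ≤ m0) (hm : m0 ≤ m1) (hW : ∀ η, Wk c al be d (w η)) (hgW : ∀ η, Lk al be (g η))
    (hVW : ∀ η, Mp (pJ c d) (V η)) (hL : ∀ η S S', |g η S - g η S'| ≤ L) (hJ : J.Nonempty) (hJd : ∀ m ∈ J, d ≤ m) :
    |∫ η, rep 3 (w η) (nxt (g η - slabC (w η) (g η) J) (QN m0 m1 (V η) (f η))) ∂(law μ0)| ≤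
      L * ((J.card : ℝ)⁻¹ * ∑ m ∈ J, ∫ η, rep 2 (w η) (RM c al be d m0 m1 m (w η) (V η) (f η)) ∂(law μ0)) := by
  have iR : ∀ m, Integrable (fun η => rep 2 (w η) (RM c al be d m0 m1 m (w η) (V η) (f η))) (law μ0) := fun m =>
    int_rep hw (obs_RM hw oQ m)
  have e5 : L * ((J.card : ℝ)⁻¹ * ∑ m ∈ J, ∫ η, rep 2 (w η) (RM c al be d m0 m1 m (w η) (V η) (f η)) ∂(law μ0)) =
      ∫ η, L * ((J.card : ℝ)⁻¹ * ∑ m ∈ J, rep 2 (w η) (RM c al be d m0 m1 m (w η) (V η) (f η))) ∂(law μ0) := by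
    rw [MeasureTheory.integral_const_mul, MeasureTheory.integral_const_mul, integral_finsetSum _ fun m _ => iR m]
  rw [e5]
  refine (abs_integral_le_integral_abs).trans ?_
  refine integral_mono_of_nonneg (Filter.Eventually.of_forall fun η => abs_nonneg _)
    (((integrable_finsetSum _ fun m _ => iR m).const_mul _).const_mul _) (Filter.Eventually.of_forall fun η => ?_)
  exact abs_rem_le hab (hW η) (hgW η) (hL η) hcd hd hm (hVW η) (hf η) hJ hJd

theorem obs_QN {V f : Env → Px Q → ℝ} {v F : ℝ} (mV : Measurable V) (mf : Measurable f) (bV : ∀ η x, |V η x| ≤ v)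
    (bf : ∀ η x, |f η x| ≤ F) : Obs (fun η => QN m0 m1 (V η) (f η)) (2 * (v * F)) :=
  ⟨meas_QN mV mf, fun η x => abs_QN_le (bV η) (bf η) x⟩

section Box

variable {μ0 : Measure ℝ} [IsProbabilityMeasure μ0] {φ φ' : ℝ → ℝ} {bk : Bool} {B : Type*} [Fintype B] [DecidableEq B]
variable {S : Finset Pt} {c' : Pt → Env → ℝ} {N' : Pt → Px Q → ℝ} {w g V f : Env → Px Q → ℝ} {J : Finset ℕ}
  {K θ0 M V0 τ v F L t a Qv D : ℝ}

/-- One slab step for a blind two replica observable, plain replicas. -/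
theorem box2 (h : DenLaw μ0 φ φ') (hs : SG μ0 (sc φ φ') K θ0) (hc : DF bk S c' M) (hM : 0 ≤ M) (hw : Wt S w N' V0)
    (mg : Measurable g) (bg : ∀ η x, |g η x| ≤ τ) {Ψ : Env → (Fin 2 → Px Q) → ℝ} (oQ : Obs Ψ D)
    (hb : ∀ p ∈ S, ∀ (η : Env) (x : ℝ), Ψ (Function.update η p x) = Ψ η) (b : Px Q → B) {χ : (Fin 2 → B) → Pt → ℝ}
    (h0 : ∀ β p, 0 ≤ χ β p) (h1 : ∀ β p, χ β p ≤ 1) (ht : 0 < t) (ha : 0 ≤ a) (htM : t * M ≤ θ0)
    (hQ : ∀ β η, QV S (H41.cut (χ β) c') η ≤ Qv) :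
    |∫ η, rep 3 (w η) (nxt (g η) (Ψ η)) ∂(law μ0)| ≤
      a * ∫ η, rep 2 (w η) (fun x => |Ψ η x|) ∂(law μ0) + (Fintype.card (Fin 2 → B) : ℝ) * tail1 K D t a Qv +
      |∫ η, rep 3 (w η) (nxt (g η - Cf S c' N' η) (Ψ η)) ∂(law μ0)| +
      ∫ η, rep 3 (w η) (fun y => |(repDr (Px Q) 2).insR b (farF χ S c' N' η) (Ψ η) y|) ∂(law μ0) := by
  have k := one_box (repDr (Px Q) 2) h hs hc hM hw oQ (Ψ' := fun _ _ _ => 0) (D1 := 0)
    (fun p hp => ⟨measurable_const, fun η x => by rw [abs_zero]⟩)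
    (fun p hp η x y => by
      have e : (fun t => Ψ (Function.update η p t) y) = fun _ => Ψ η y := by
        funext t
        rw [hb p hp]
      rw [e]
      exact hasDerivAt_const _ _) mg bg b h0 h1 ht ha htM hQ
  have e2 : ∫ η, (repEv (Px Q) 2).ev (w η) (fun x => |Dg b χ S c' (fun _ _ _ => 0) η x|) ∂(law μ0) = 0 := by
    have e3 : ∀ η, (repEv (Px Q) 2).ev (w η) (fun x => |Dg b χ S c' (fun _ _ _ => 0) η x|) = 0 := fun η => by
      rw [repEv_ev]
      refine (H41.rep_congr _ _ fun x => ?_).trans (H41.rep_zero_fun 2 (w η))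
      unfold Dg
      simp
    simp_rw [e3]
    exact integral_zero _ _
  rw [e2, add_zero] at k
  simp only [repEv_ev, repDr_ins] at k
  exact k

/-- **(E2a), one slab step.** -/
theorem E2a_box (h : DenLaw μ0 φ φ') (hs : SG μ0 (sc φ φ') K θ0) (hc : DF bk S c' M) (hM : 0 ≤ M) (hw : Wt S w N' V0)
    (mg : Measurable g) (mV : Measurable V) (mf : Measurable f) (bg : ∀ η x, |g η x| ≤ τ) (bV : ∀ η x, |V η x| ≤ v)
    (bf : ∀ η x, |f η x| ≤ F) (hVb : ∀ p ∈ S, ∀ (η : Env) (x : ℝ), V (Function.update η p x) = V η)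
    (hfb : ∀ p ∈ S, ∀ (η : Env) (x : ℝ), f (Function.update η p x) = f η)
    (hH : ∀ η, Hd m0 m1 (w η)) (hg : ∀ η, Lk 0 m0 (g η)) (hV : ∀ η, Lk 0 m0 (V η)) (hf : ∀ η, Rk m1 (f η))
    (hab : al ≤ be) (hcd : c ≤ d) (hd : d ≤ m0) (hm : m0 ≤ m1) (hW : ∀ η, Wk c al be d (w η)) (hgW : ∀ η, Lk al be (g η))
    (hVW : ∀ η, Mp (pJ c d) (V η)) (hL : ∀ η S S', |g η S - g η S'| ≤ L) (hJ : J.Nonempty) (hJd : ∀ m ∈ J, d ≤ m)
    (hC : ∀ η, Cf S c' N' η = slabC (w η) (g η) J) (b : Px Q → B) {χ : (Fin 2 → B) → Pt → ℝ} (h0 : ∀ β p, 0 ≤ χ β p)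
    (h1 : ∀ β p, χ β p ≤ 1) (ht : 0 < t) (ha : 0 ≤ a) (htM : t * M ≤ θ0) (hQ : ∀ β η, QV S (H41.cut (χ β) c') η ≤ Qv) :
    |∫ η, cm [g η, V η, f η] (w η) ∂(law μ0)| ≤
      a * ∫ η, rep 2 (w η) (fun x => |QN m0 m1 (V η) (f η) x|) ∂(law μ0) +
      (Fintype.card (Fin 2 → B) : ℝ) * tail1 K (2 * (v * F)) t a Qv +
      L * ((J.card : ℝ)⁻¹ * ∑ m ∈ J, ∫ η, rep 2 (w η) (RM c al be d m0 m1 m (w η) (V η) (f η)) ∂(law μ0)) +
      ∫ η, rep 3 (w η) (fun y => |(repDr (Px Q) 2).insR b (farF χ S c' N' η) (QN m0 m1 (V η) (f η)) y|) ∂(law μ0) := by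
  have oQ : Obs (fun η => QN m0 m1 (V η) (f η)) (2 * (v * F)) := obs_QN mV mf bV bf
  have e1 : ∀ η, cm [g η, V η, f η] (w η) = rep 3 (w η) (nxt (g η) (QN m0 m1 (V η) (f η))) := fun η =>
    cm_QN (hH η) (hg η) (hV η) (hf η)
  simp_rw [e1]
  have k := box2 h hs hc hM hw mg bg oQ (fun p hp η x => by rw [hVb p hp, hfb p hp]) b h0 h1 ht ha htM hQ
  refine k.trans (add_le_add (add_le_add le_rfl ?_) le_rfl)
  have e4 : ∀ η, g η - Cf S c' N' η = g η - slabC (w η) (g η) J := fun η => by rw [hC]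
  simp_rw [e4]
  exact int_rem_le hw.meas oQ hf hab hcd hd hm hW hgW hVW hL hJ hJd

end Box

end

end Pool.Agent.W_7d29a1_C0.E2a81
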