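import Pool.Agent.W_7d29a1_C0.E2a81
import Pool.Agent.W_7d29a1_C0.E1B82
import Pool.Agent.W_7d29a1_C0.Far19

/-!
CURV0 (MP_7d29a1_pr), leaf E2a, part B: THE ONE SIDED PAIR FUNCTIONAL `VN m0 m1 V f = V (x 0) (f (x 0) - f (x 1)) NI m0 m1`.
The slab rows `J` lie between `W` and `m0`, so `f`, `NI` and the conditional means see only what is behind `J`: the remainder
`g - C` is inserted ONLY IN THE REPLICA WHICH CARRIES `V` (the other term is exactly zero). (helper81)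
-/

set_option autoImplicit false
set_option linter.unusedSectionVars false
set_option linter.unusedVariables false

namespace Pool.Agent.W_7d29a1_C0.E2aB81

open Finset MeasureTheory
open Pool.Agent.W_7d29a1_F Pool.Agent.W_7d29a1_X
open Pool.Agent.W_7d29a1_C0 Pool.Agent.W_7d29a1_C0.Mod92 Pool.Agent.W_7d29a1_C0.Swap57 Pool.Agent.W_7d29a1_C0.NM82
open Pool.Agent.W_7d29a1_C0.H32 Pool.Agent.W_7d29a1_C0.E2a81
open Pool.Agent.W_7d29a1_C0.E1A82 (fl fp avC_Cf fl_BF Wt_wU HdAll_wU Lk_past)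
open Pool.Agent.W_7d29a1_C0.LocM18 (Ns)
open Pool.Agent.W_7d29a1_HZ (wd')
open Pool.Agent.W_7d29a1_H (sl)
open Pool.W7d29a1.C0 Pool.W7d29a1.C0.VT31 Pool.W7d29a1.C0.H41 Pool.W7d29a1.C0.R63 Pool.W7d29a1.C0.Fld19 Pool.W7d29a1.C0.T73
open Pool.W7d29a1.C0.H19 (Cf BF)

noncomputable section

/-! ### The one sided functional -/

section Abs

variable {X : Type*} [Fintype X] [Nonempty X] {Y : Type*} [DecidableEq Y]

theorem rep2_sym (w : X → ℝ) (a : X → X → ℝ) {Ψ : (Fin 2 → X) → ℝ} (h : ∀ x, Ψ x = 1 / 2 * (a (x 0) (x 1) + a (x 1) (x 0))) :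
    rep 2 w Ψ = rep 2 w fun x => a (x 0) (x 1) := by
  rw [rep_two_PP w (fun x y => 1 / 2 * (a x y + a y x)) h, rep_two_PP w a (fun x => rfl), PP_smul, PP_add,
    PP_swap w a]
  ring

/-- The replica `1` is resampled given `q`. -/
theorem rep2_pull (w g : X → ℝ) {q : X → Y} {k : X → X → ℝ} (hk : ∀ x, Mp q (k x)) :
    rep 2 w (fun x => k (x 0) (x 1) * g (x 1)) = rep 2 w fun x => k (x 0) (x 1) * cE w q g (x 1) := by
  rw [rep_two_PP w (fun x y => k x y * g y) (fun x => rfl), rep_two_PP w (fun x y => k x y * cE w q g y) (fun x => rfl),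
    ← PP_swap w fun x y => k x y * g y, ← PP_swap w fun x y => k x y * cE w q g y]
  have h := PP_pull (q := q) w g (k := fun x y => k y x) (fun y => hk y)
  have e1 : (fun x y => k y x * g x) = fun x y => g x * k y x := by
    funext x y
    ring
  have e2 : (fun x y => k y x * cE w q g x) = fun x y => cE w q g x * k y x := by
    funext x y
    ring
  rw [e1, e2]
  exact h

end Abs

variable {Q : Finset (Finset ℕ)} [SwQ Q] [Nonempty (Px Q)] {c al be d m0 m1 : ℕ} {w g V f : Px Q → ℝ}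

/-- The one sided pair functional. -/
def VN (m0 m1 : ℕ) (V f : Px Q → ℝ) : (Fin 2 → Px Q) → ℝ := fun x => V (x 0) * (f (x 0) - f (x 1)) * NI m0 m1 (x 0) (x 1)

omit [SwQ Q] [Nonempty (Px Q)] in
theorem NI_symm (S S' : Px Q) : NI m0 m1 S S' = NI m0 m1 S' S := by
  unfold NI
  have e : (∀ k, m0 ≤ k → k ≤ m1 → ps S k ≠ ps S' k) ↔ ∀ k, m0 ≤ k → k ≤ m1 → ps S' k ≠ ps S k :=
    ⟨fun h k h1 h2 h3 => h k h1 h2 h3.symm, fun h k h1 h2 h3 => h k h1 h2 h3.symm⟩
  simp only [e]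

omit [SwQ Q] [Nonempty (Px Q)] in
theorem NI_rows {m : ℕ} (hm : m ≤ m0) (S : Px Q) {T T' : Px Q} (h : ∀ k, m ≤ k → ps T k = ps T' k) : NI m0 m1 S T = NI m0 m1 S T' := by
  unfold NI
  have e : (∀ k, m0 ≤ k → k ≤ m1 → ps S k ≠ ps T k) ↔ ∀ k, m0 ≤ k → k ≤ m1 → ps S k ≠ ps T' k :=
    forall_congr' fun k => ⟨fun h1 hk => by rw [← h k (hm.trans hk)]; exact h1 hk,
      fun h1 hk => by rw [h k (hm.trans hk)]; exact h1 hk⟩
  simp only [e]

/-- **(E2a) as one insertion in the one sided functional.** -/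
theorem cm_VN (hw : Hd m0 m1 w) (hg : Lk 0 m0 g) (hV : Lk 0 m0 V) (hf : Rk m1 f) :
    cm [g, V, f] w = rep 3 w (nxt g (VN m0 m1 V f)) := by
  rw [cm_QN hw hg hV hf, rep_nxt_two, rep_nxt_two]
  have e1 : rep 2 w (fun x => QN m0 m1 V f x * (g (x 0) + g (x 1))) = rep 2 w fun x => VN m0 m1 V f x * (g (x 0) + g (x 1)) :=
    rep2_sym w (fun S S' => V S * (f S - f S') * NI m0 m1 S S' * (g S + g S')) fun x => by
      unfold QN
      rw [NI_symm (x 1) (x 0)]
      ring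
  have e2 : rep 2 w (QN m0 m1 V f) = rep 2 w (VN m0 m1 V f) :=
    rep2_sym w (fun S S' => V S * (f S - f S') * NI m0 m1 S S') fun x => by
      unfold QN
      rw [NI_symm (x 1) (x 0)]
      ring
  rw [e1, e2]

theorem obl_VN (hd : d ≤ m0) (hm : m0 ≤ m1) (hV : Mp (pJ c d) V) (hf : Rk m1 f) :
    Obl (pJ c d) (VN m0 m1 V f) 0 := fun x S hS => by
  have hr : ∀ k, m0 ≤ k → ps S k = ps (x 0) k := fun k hk => ps_of_ge hS (hd.trans hk)
  unfold VN
  simp only [Function.update_self, ne_eq, one_ne_zero, not_false_eq_true, Function.update_of_ne]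
  rw [hV _ _ hS, hf S (x 0) fun k hk => hr k (hm.trans hk), NI_symm S, NI_rows le_rfl (x 1) hr, NI_symm (x 1)]

/-- The insertion in the replica `1` vanishes. -/
theorem rem_one (hm : m0 ≤ m1) (hf : Rk m1 f) {J : Finset ℕ} (hJ : J.Nonempty) (hJm : ∀ m ∈ J, m ≤ m0) (w g V : Px Q → ℝ) :
    rep 2 w (fun x => VN m0 m1 V f x * (g - slabC w g J) (x 1)) = 0 := by
  have hJ0 : (J.card : ℝ) ≠ 0 := by
    have := card_pos.2 hJ
    positivity
  have h1 : ∀ m ∈ J, rep 2 w (fun x => VN m0 m1 V f x * g (x 1)) = rep 2 w fun x => VN m0 m1 V f x * cE w (pJ 0 m) g (x 1) :=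
    fun m hm' => rep2_pull (q := pJ (Q := Q) 0 m) w g (k := fun S S' => V S * (f S - f S') * NI m0 m1 S S') fun S T T' h => by
      have hr : ∀ k, m ≤ k → ps T k = ps T' k := fun k hk => ps_of_ge h hk
      show V S * (f S - f T) * NI m0 m1 S T = V S * (f S - f T') * NI m0 m1 S T'
      rw [hf T T' fun k hk => hr k ((hJm m hm').trans (hm.trans hk)), NI_rows (hJm m hm') S hr]
  have h2 : rep 2 w (fun x => VN m0 m1 V f x * slabC w g J (x 1)) = rep 2 w fun x => VN m0 m1 V f x * g (x 1) := by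
    have e : (fun x : Fin 2 → Px Q => VN m0 m1 V f x * slabC w g J (x 1)) = fun x => (J.card : ℝ)⁻¹ *
        ∑ m ∈ J, VN m0 m1 V f x * cE w (pJ 0 m) g (x 1) := by
      funext x
      unfold slabC
      rw [← mul_sum]
      ring
    rw [e, Pool.W7d29a1.C0.rep_smul, H41.rep_sum, sum_congr rfl fun m hm' => (h1 m hm').symm, sum_const, nsmul_eq_mul, ← mul_assoc,
      inv_mul_cancel₀ hJ0, one_mul]
  have e3 : (fun x : Fin 2 → Px Q => VN m0 m1 V f x * (g - slabC w g J) (x 1)) = fun x => VN m0 m1 V f x * g (x 1) -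
      VN m0 m1 V f x * slabC w g J (x 1) := by
    funext x
    rw [Pi.sub_apply]
    ring
  rw [e3, H41.rep_sub, h2, sub_self]

/-- **The remainder**: one more replica of the replica which carries `V`. -/
theorem abs_remV_le (hab : al ≤ be) (hw : Wk c al be d w) (hg : Lk al be g) {L : ℝ} (hL : ∀ S S', |g S - g S'| ≤ L)
    (hd : d ≤ m0) (hm : m0 ≤ m1) (hV : Mp (pJ c d) V) (hf : Rk m1 f) {J : Finset ℕ} (hJ : J.Nonempty)
    (hJd : ∀ m ∈ J, d ≤ m ∧ m ≤ m0) :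
    |rep 3 w (nxt (g - slabC w g J) (VN m0 m1 V f))| ≤ L * ((J.card : ℝ)⁻¹ * ∑ m ∈ J,
      rep 2 w fun x => |VN m0 m1 V f x| * mM c al be d w m (x 0)) := by
  rw [rep_nxt_centred (gm_slabC w g hJ), rem_one hm hf hJ (fun m hm' => (hJd m hm').2), add_zero]
  have h := abs_mic_slab_le hab hw hg hL hJ (fun m hm' => (hJd m hm').1) ((ifb_rep w (pJ c d) 0).mul (obl_VN hd hm hV hf))
  rw [rep_eq_sum]
  have e1 : ∑ x : Fin 2 → Px Q, Real.exp (∑ k, w (x k)) / gz w ^ 2 * (VN m0 m1 V f x * (g - slabC w g J) (x 0)) =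
      ∑ x : Fin 2 → Px Q, Real.exp (∑ k, w (x k)) / gz w ^ 2 * VN m0 m1 V f x * (g (x 0) - slabC w g J (x 0)) :=
    Finset.sum_congr rfl fun x _ => by
      rw [Pi.sub_apply]
      ring
  rw [e1]
  refine h.trans_eq ?_
  congr 2
  refine Finset.sum_congr rfl fun m _ => ?_
  rw [rep_eq_sum]
  refine Finset.sum_congr rfl fun x _ => ?_
  rw [abs_mul, abs_of_nonneg (div_nonneg (Real.exp_pos _).le (pow_pos (gz_pos w) 2).le)]
  unfold mM
  ring

/-! ### Sizes -/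

omit [SwQ Q] [Nonempty (Px Q)] in
theorem abs_VN (hV0 : ∀ S, 0 ≤ V S) (x : Fin 2 → Px Q) :
    |VN m0 m1 V f x| = V (x 0) * |f (x 0) - f (x 1)| * NI m0 m1 (x 0) (x 1) := by
  unfold VN
  rw [abs_mul, abs_mul, abs_of_nonneg (hV0 _), abs_of_nonneg (NI_nonneg m0 m1 (x 0) (x 1))]

omit [SwQ Q] [Nonempty (Px Q)] in
theorem abs_VN_le {v D : ℝ} (hv : ∀ S, |V S| ≤ v) (hD : ∀ S, |f S| ≤ D) (x : Fin 2 → Px Q) : |VN m0 m1 V f x| ≤ 2 * v * D := by
  have h2 : |f (x 0) - f (x 1)| ≤ 2 * D := (abs_sub _ _).trans (by linarith [hD (x 0), hD (x 1)])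
  have h3 : |NI m0 m1 (x 0) (x 1)| ≤ 1 := by
    unfold NI
    split_ifs <;> norm_num
  unfold VN
  rw [abs_mul, abs_mul]
  have h4 : |V (x 0)| * |f (x 0) - f (x 1)| ≤ v * (2 * D) := mul_le_mul (hv _) h2 (abs_nonneg _) ((abs_nonneg _).trans (hv (x 0)))
  have h5 : |V (x 0)| * |f (x 0) - f (x 1)| * |NI m0 m1 (x 0) (x 1)| ≤ v * (2 * D) * 1 :=
    mul_le_mul h4 h3 (abs_nonneg _) ((mul_nonneg (abs_nonneg _) (abs_nonneg _)).trans h4)
  linarith

omit [SwQ Q] [Nonempty (Px Q)] in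
theorem obs_VN {V f : Env → Px Q → ℝ} {v D : ℝ} (mV : Measurable V) (mf : Measurable f) (bV : ∀ η x, |V η x| ≤ v)
    (bf : ∀ η x, |f η x| ≤ D) : Obs (fun η => VN m0 m1 (V η) (f η)) (2 * v * D) := by
  have a1 : ∀ S, Measurable fun η => V η S := fun S => (measurable_pi_apply S).comp mV
  have a2 : ∀ S, Measurable fun η => f η S := fun S => (measurable_pi_apply S).comp mf
  refine ⟨measurable_pi_lambda _ fun x => ?_, fun η x => abs_VN_le (bV η) (bf η) x⟩
  unfold VN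
  exact ((a1 _).mul ((a2 _).sub (a2 _))).mul_const _

/-- The observable of the remainder. -/
def RV (c al be d m0 m1 m : ℕ) (w V f : Px Q → ℝ) : (Fin 2 → Px Q) → ℝ :=
  fun x => |VN m0 m1 V f x| * mM c al be d w m (x 0)

theorem obs_RV {w V f : Env → Px Q → ℝ} (hw : Measurable w) {D : ℝ} (oQ : Obs (fun η => VN m0 m1 (V η) (f η)) D) (m : ℕ) :
    Obs (fun η => RV c al be d m0 m1 m (w η) (V η) (f η)) D := by
  refine ⟨measurable_pi_lambda _ fun x => ?_, fun η x => ?_⟩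
  · exact ((measurable_pi_apply x).comp oQ.abs.meas).mul (meas_mM hw m _)
  · unfold RV
    rw [abs_mul, abs_abs]
    have k1 := oQ.bd η x
    have b1 : |mM c al be d (w η) m (x 0)| ≤ 1 := by
      rw [abs_of_nonneg (mM_nonneg _ _ _)]
      exact mM_le _ _ _
    calc |VN m0 m1 (V η) (f η) x| * |mM c al be d (w η) m (x 0)| ≤ D * 1 :=
          mul_le_mul k1 b1 (abs_nonneg _) ((abs_nonneg _).trans k1)
      _ = D := mul_one _

/-- The remainder in expectation. -/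
theorem int_remV_le {μ0 : Measure ℝ} [IsProbabilityMeasure μ0] {w g V f : Env → Px Q → ℝ} {J : Finset ℕ} {L D : ℝ}
    (hw : Measurable w) (oQ : Obs (fun η => VN m0 m1 (V η) (f η)) D) (hf : ∀ η, Rk m1 (f η))
    (hab : al ≤ be) (hd : d ≤ m0) (hm : m0 ≤ m1) (hW : ∀ η, Wk c al be d (w η)) (hgW : ∀ η, Lk al be (g η))
    (hVW : ∀ η, Mp (pJ c d) (V η)) (hL : ∀ η S S', |g η S - g η S'| ≤ L) (hJ : J.Nonempty) (hJd : ∀ m ∈ J, d ≤ m ∧ m ≤ m0) :
    |∫ η, rep 3 (w η) (nxt (g η - slabC (w η) (g η) J) (VN m0 m1 (V η) (f η))) ∂(law μ0)| ≤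
      L * ((J.card : ℝ)⁻¹ * ∑ m ∈ J, ∫ η, rep 2 (w η) (RV c al be d m0 m1 m (w η) (V η) (f η)) ∂(law μ0)) := by
  have iR : ∀ m, Integrable (fun η => rep 2 (w η) (RV c al be d m0 m1 m (w η) (V η) (f η))) (law μ0) := fun m =>
    int_rep hw (obs_RV hw oQ m)
  have e5 : L * ((J.card : ℝ)⁻¹ * ∑ m ∈ J, ∫ η, rep 2 (w η) (RV c al be d m0 m1 m (w η) (V η) (f η)) ∂(law μ0)) =
      ∫ η, L * ((J.card : ℝ)⁻¹ * ∑ m ∈ J, rep 2 (w η) (RV c al be d m0 m1 m (w η) (V η) (f η))) ∂(law μ0) := by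
    rw [MeasureTheory.integral_const_mul, MeasureTheory.integral_const_mul, integral_finsetSum _ fun m _ => iR m]
  rw [e5]
  refine (abs_integral_le_integral_abs).trans ?_
  refine integral_mono_of_nonneg (Filter.Eventually.of_forall fun η => abs_nonneg _)
    (((integrable_finsetSum _ fun m _ => iR m).const_mul _).const_mul _) (Filter.Eventually.of_forall fun η => ?_)
  exact abs_remV_le hab (hW η) (hgW η) (hL η) hd hm (hVW η) (hf η) hJ hJd

end

end Pool.Agent.W_7d29a1_C0.E2aB81
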