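import Pool.Agent.W_7d29a1_C0.E2aM82
import Pool.Agent.W_7d29a1_C0.MicT14

/-!
CURV0 (MP_7d29a1_pr), leaf E2a, part C: THE TWO TIES AS ROBUST EVENTS OF THE BASE PATH. `T2 w p c al be d M S`: given `p`, two replicas of
`S` miss each other on `[c, al]` or on `[be, d]` with mass at least `exp (- 5 M)`. `cV_size`, `cV_T2`: the conditional variance of the
response given the ends of the window; `mM_T2`: the mass of the new replica given what is behind the row `m`; `mq_T2`, `rv_T2`: the two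
functionals of (E2a) at the tilted weights `w + A`, against `1 (T2 ..) 1 (T2 ..) |f - f'| NI`. (helper81)
-/

set_option autoImplicit false
set_option linter.unusedSectionVars false
set_option linter.unusedVariables false

namespace Pool.Agent.W_7d29a1_C0.E2aC81

open Finset MeasureTheory
open Pool.Agent.W_7d29a1_F Pool.Agent.W_7d29a1_X
open Pool.Agent.W_7d29a1_C0 Pool.Agent.W_7d29a1_C0.Mod92 Pool.Agent.W_7d29a1_C0.Swap57 Pool.Agent.W_7d29a1_C0.NM82
open Pool.W7d29a1.C0 Pool.W7d29a1.C0.VT31 Pool.W7d29a1.C0.H41 Pool.W7d29a1.C0.I52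
open Pool.W7d29a1.C0.E1A (XF XF_nonneg)
open Pool.Agent.W_7d29a1_C0.E2a81 (mM mM_nonneg mM_le)
open Pool.Agent.W_7d29a1_C0.E2aB81 (VN RV abs_VN)
open Pool.Agent.W_7d29a1_C0.MicT14 (DifB PP_le_const)
open Pool.W7d29a1.C0.R43 (Tau cE_tilt cE2_tilt gm_tilt43)

noncomputable section

/-! ### The conditional variance -/

section Abs

variable {X : Type*} [Fintype X] [DecidableEq X] [Nonempty X] {Y Y0 : Type*} [DecidableEq Y] [DecidableEq Y0]
  {w A g bd : X → ℝ} {D E1 e1 Mg : ℝ} {p : X → Y} {p0 : X → Y0} {K : X → X → ℝ}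

/-- **The size of the conditional variance** of a response which differs only through the event `K`. -/
theorem cV_size (hA : ∀ x, |A x| ≤ D) (hc : Crs p p0) (hM : 0 ≤ Mg) (hb : ∀ x, 0 ≤ bd x) (hg : ∀ x, |g x| ≤ Mg)
    (hD : DifB w p0 K E1 e1 Mg bd g) (x : X) :
    cV (w + A) p g x ≤ Mg * Real.exp (4 * D) * (E1 * cE2 w p K x x + e1 + 4 * Mg * cE w p bd x) := by
  have h1 : cE2 (w + A) p (fun z z' => (g z - g z') ^ 2) x x ≤ cE2 (w + A) p (fun z z' => (2 * Mg) * |g z - g z'|) x x :=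
    cE2_mono (w + A) p (fun z z' => by
      have h2 : |g z - g z'| ≤ 2 * Mg := (abs_sub _ _).trans (by linarith [hg z, hg z'])
      rw [← sq_abs, sq]
      exact mul_le_mul_of_nonneg_right h2 (abs_nonneg _)) x x
  have h3 : cE2 (w + A) p (fun z z' => (2 * Mg) * |g z - g z'|) x x = 2 * Mg * cE2 (w + A) p (fun z z' => |g z - g z'|) x x :=
    cE2_mul (w + A) p (2 * Mg) (fun z z' => |g z - g z'|) x x
  have h4 := cE2_tilt hA p (K := fun z z' => |g z - g z'|) (fun z z' => abs_nonneg _) x x (w := w)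
  have h5 : cE2 w p (fun z z' => |g z - g z'|) x x ≤ cE2 w p (fun z z' => E1 * cE2 w p0 K z z' + (e1 * 1 +
      (2 * Mg) * (bd z + bd z'))) x x := cE2_mono w p (fun z z' => by
        have := hD z z'
        linarith) x x
  have e1' : cE2 w p (fun z z' => E1 * cE2 w p0 K z z' + (e1 * 1 + (2 * Mg) * (bd z + bd z'))) x x =
      E1 * cE2 w p K x x + (e1 + 4 * Mg * cE w p bd x) := by
    rw [cE2_add w p (fun z z' => E1 * cE2 w p0 K z z') fun z z' => e1 * 1 + (2 * Mg) * (bd z + bd z'),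
      cE2_add w p (fun _ _ => e1 * 1) fun z z' => (2 * Mg) * (bd z + bd z'), cE2_mul w p E1 (fun z z' => cE2 w p0 K z z'),
      cE2_mul w p e1 (fun _ _ => (1 : ℝ)), cE2_mul w p (2 * Mg) (fun z z' => bd z + bd z'), cE2_one,
      cE2_add w p (fun z _ => bd z) fun _ z' => bd z']
    have e2 : cE2 w p (fun z z' => cE2 w p0 K z z') x x = cE2 w p K x x := cE2_tower w hc K x x
    have e3 : cE2 w p (fun z _ => bd z) x x = cE w p bd x := by
      unfold cE2
      congr 1
      funext z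
      have h : Mp p (fun _ : X => bd z) := fun _ _ _ => rfl
      exact congrFun (cE_of_meas w h) x
    have e4 : cE2 w p (fun _ z' => bd z') x x = cE w p bd x := by
      unfold cE2
      have h : Mp p (fun _ : X => cE w p (fun z' => bd z') x) := fun _ _ _ => rfl
      exact congrFun (cE_of_meas w h) x
    rw [e2, e3, e4]
    ring
  rw [e1'] at h5
  rw [cV_eq_two]
  rw [h3] at h1
  have h6 : cE2 (w + A) p (fun z z' => |g z - g z'|) x x ≤
      Real.exp (4 * D) * (E1 * cE2 w p K x x + (e1 + 4 * Mg * cE w p bd x)) :=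
    h4.trans (mul_le_mul_of_nonneg_left h5 (Real.exp_pos _).le)
  have h7 := mul_le_mul_of_nonneg_left h6 hM
  calc 1 / 2 * cE2 (w + A) p (fun z z' => (g z - g z') ^ 2) x x
      ≤ 1 / 2 * (2 * Mg * cE2 (w + A) p (fun z z' => |g z - g z'|) x x) := mul_le_mul_of_nonneg_left h1 (by norm_num)
    _ = Mg * cE2 (w + A) p (fun z z' => |g z - g z'|) x x := by ring
    _ ≤ Mg * (Real.exp (4 * D) * (E1 * cE2 w p K x x + (e1 + 4 * Mg * cE w p bd x))) := h7
    _ = _ := by ring

end Abs

/-! ### The robust events -/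

variable {Q : Finset (Finset ℕ)} [Nonempty (Px Q)] {Y : Type*} [DecidableEq Y] {c al be d m m0 m1 : ℕ} {M D : ℝ}
  {w A : Px Q → ℝ} {p : Px Q → Y}

/-- Given `p`, two replicas miss each other on one of the two sides, with mass. -/
def T2 (w : Px Q → ℝ) (p : Px Q → Y) (c al be d : ℕ) (M : ℝ) (S : Px Q) : Prop := Tau w p c al M S ∨ Tau w p be d M S

open Classical in
/-- The indicator. -/
def iT (w : Px Q → ℝ) (p : Px Q → Y) (c al be d : ℕ) (M : ℝ) (S : Px Q) : ℝ := if T2 w p c al be d M S then 1 else 0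

theorem iT_nonneg (w : Px Q → ℝ) (p : Px Q → Y) (c al be d : ℕ) (M : ℝ) (S : Px Q) : 0 ≤ iT w p c al be d M S := by
  unfold iT
  split_ifs <;> norm_num

theorem iT_le_one (w : Px Q → ℝ) (p : Px Q → Y) (c al be d : ℕ) (M : ℝ) (S : Px Q) : iT w p c al be d M S ≤ 1 := by
  unfold iT
  split_ifs <;> norm_num

theorem iT_Mp (w : Px Q → ℝ) (p : Px Q → Y) (c al be d : ℕ) (M : ℝ) : Mp p (iT w p c al be d M) := fun S S' h => by
  have e : ∀ i j : ℕ, cE2 w p (NI i j) S S = cE2 w p (NI i j) S' S' := fun i j => by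
    unfold cE2
    have e1 : (fun z => cE w p (NI i j z) S) = fun z => cE w p (NI i j z) S' := by
      funext z
      exact cE_meas w p _ S S' h
    rw [e1]
    exact cE_meas w p _ S S' h
  have hT : T2 w p c al be d M S ↔ T2 w p c al be d M S' := by
    unfold T2 Tau
    rw [e, e]
  unfold iT
  by_cases h1 : T2 w p c al be d M S
  · rw [if_pos h1, if_pos (hT.1 h1)]
  · rw [if_neg h1, if_neg fun h2 => h1 (hT.2 h2)]

theorem cE2_NM_le (w : Px Q → ℝ) (p : Px Q → Y) (c al be d : ℕ) (M : ℝ) (S : Px Q) :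
    cE2 w p (NM c al be d) S S ≤ iT w p c al be d M S + 2 * Real.exp (-(5 * M)) := by
  unfold iT
  split_ifs with h
  · have := cE2_le_one w p (fun z z' => NM_le_one c al be d z z') S S
    have := (Real.exp_pos (-(5 * M))).le
    linarith
  · unfold T2 Tau at h
    push Not at h
    have h1 := cE2_mono w p (fun z z' => NM_le c al be d z z') S S
    rw [cE2_add w p (NI c al) (NI be d)] at h1
    linarith [h.1, h.2]

/-- The error of one robust event. -/
def eT (D M : ℝ) : ℝ := 2 * Real.exp (4 * D - 5 * M)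

/-- **The mass of the new replica.** -/
theorem mM_T2 [SwQ Q] (hA : ∀ x, |A x| ≤ D) (m : ℕ) {F0 : ℝ} {H : Px Q → Px Q → ℝ} (H0 : ∀ x y, 0 ≤ H x y) (HF : ∀ x y, H x y ≤ F0) :
    PP (w + A) (fun x y => mM c al be d (w + A) m x * H x y) ≤
      PP (w + A) (fun x y => iT w (pJ 0 m) c al be d M x * H x y) + F0 * eT D M := by
  have F00 : 0 ≤ F0 := (H0 (Classical.arbitrary _) (Classical.arbitrary _)).trans (HF _ _)
  have hi0 := fun x => iT_nonneg w (pJ 0 m) c al be d M x
  have hi1 := fun x => iT_le_one w (pJ 0 m) c al be d M x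
  set a : Px Q → ℝ := fun x => (1 - iT w (pJ 0 m) c al be d M x) * mM c al be d (w + A) m x with ha
  have a0 : ∀ x, 0 ≤ a x := fun x => mul_nonneg (by linarith [hi1 x]) (mM_nonneg _ _ _)
  have h1 : PP (w + A) (fun x y => mM c al be d (w + A) m x * H x y) ≤
      PP (w + A) fun x y => iT w (pJ 0 m) c al be d M x * H x y + a x * H x y := PP_mono _ fun x y => by
    have k1 := mM_le (c := c) (al := al) (be := be) (d := d) (w + A) m x
    have k2 := mul_le_mul_of_nonneg_left k1 (mul_nonneg (hi0 x) (H0 x y))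
    rw [ha]
    show _ ≤ _ + (1 - iT w (pJ 0 m) c al be d M x) * mM c al be d (w + A) m x * H x y
    nlinarith
  rw [PP_add] at h1
  have h2 : gm (w + A) a ≤ eT D M := by
    have hMp : Mp (pJ 0 m) fun x => 1 - iT w (pJ 0 m) c al be d M x := fun S S' h => by
      show 1 - _ = 1 - _
      rw [iT_Mp w (pJ 0 m) c al be d M S S' h]
    have e1 : gm (w + A) a = gm (w + A) (fun x => (1 - iT w (pJ 0 m) c al be d M x) *
        cE (w + A) (pJ 0 m) (mM c al be d (w + A) m) x) := by
      rw [← gm_cE (w + A) (pJ 0 m) a]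
      congr 1
      funext x
      rw [ha]
      exact congrFun (cE_pull (w + A) hMp (mM c al be d (w + A) m)) x
    rw [e1]
    have e2 : ∀ x, cE (w + A) (pJ 0 m) (mM c al be d (w + A) m) x = cE2 (w + A) (pJ 0 m) (NM c al be d) x x := fun x => by
      unfold cE2
      refine MicT14.cE_fib fun z hz => ?_
      unfold mM
      exact cE_meas (w + A) (pJ 0 m) _ z x hz
    refine (gm_mono (w + A) (g := fun _ => eT D M) fun x => ?_).trans_eq (gm_const _ _)
    rw [e2]
    have k1 := cE2_tilt hA (pJ 0 m) (K := NM c al be d) (fun z z' => NM_nonneg c al be d z z') x x (w := w)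
    have k2 := cE2_NM_le w (pJ 0 m) c al be d M x
    have k3 : Real.exp (4 * D) * (2 * Real.exp (-(5 * M))) = eT D M := by
      unfold eT
      rw [sub_eq_add_neg, Real.exp_add]
      ring
    by_cases hT : T2 w (pJ 0 m) c al be d M x
    · have e3 : iT w (pJ 0 m) c al be d M x = 1 := by
        unfold iT
        exact if_pos hT
      rw [e3, sub_self, zero_mul]
      unfold eT
      positivity
    · have e3 : iT w (pJ 0 m) c al be d M x = 0 := by
        unfold iT
        exact if_neg hT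
      rw [e3] at k2 ⊢
      rw [sub_zero, one_mul, ← k3]
      exact k1.trans (mul_le_mul_of_nonneg_left (by linarith) (Real.exp_pos _).le)
  have h3 := PP_le_const (w + A) HF a a0
  have h4 := mul_le_mul_of_nonneg_left h2 F00
  linarith

/-! ### The two functionals of (E2a) -/

variable {Y0 : Type*} [DecidableEq Y0] {p0 : Px Q → Y0} {g bd f : Px Q → ℝ} {E1 e1 Mg : ℝ}

/-- The pointwise error of `cV_T2`. -/
def eV (w : Px Q → ℝ) (p : Px Q → Y) (D M E1 e1 Mg : ℝ) (bd : Px Q → ℝ) (S : Px Q) : ℝ :=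
  Mg * Real.exp (4 * D) * (2 * E1 * Real.exp (-(5 * M)) + e1 + 4 * Mg * cE w p bd S)

/-- **The conditional variance given `p` as a robust event.** -/
theorem cV_T2 (hA : ∀ x, |A x| ≤ D) (hc : Crs p p0) (hM : 0 ≤ Mg) (hE : 0 ≤ E1) (he : 0 ≤ e1) (hb : ∀ x, 0 ≤ bd x)
    (hg : ∀ x, |g x| ≤ Mg) (hD : DifB w p0 (NM c al be d) E1 e1 Mg bd g) (S : Px Q) :
    cV (w + A) p g S ≤ Mg ^ 2 * iT w p c al be d M S + eV w p D M E1 e1 Mg bd S := by
  have hb0 : 0 ≤ cE w p bd S := cE_nonneg w p hb S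
  have hk : 0 ≤ Mg * Real.exp (4 * D) := mul_nonneg hM (Real.exp_pos _).le
  by_cases hT : T2 w p c al be d M S
  · have e3 : iT w p c al be d M S = 1 := by
      unfold iT
      exact if_pos hT
    have h1 := cV_le_sq (w + A) p hg S
    have h2 : 0 ≤ eV w p D M E1 e1 Mg bd S := by
      unfold eV
      have := (Real.exp_pos (-(5 * M))).le
      positivity
    rw [e3]
    linarith
  · have e3 : iT w p c al be d M S = 0 := by
      unfold iT
      exact if_neg hT
    have h1 := cV_size hA hc hM hb hg hD S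
    have h2 := cE2_NM_le w p c al be d M S
    rw [e3] at h2 ⊢
    refine h1.trans ?_
    rw [mul_zero, zero_add]
    unfold eV
    refine mul_le_mul_of_nonneg_left ?_ hk
    have h3 := mul_le_mul_of_nonneg_left h2 hE
    linarith

/-- The error of `V` in the mean. -/
def eW (D M E1 e1 Mg b : ℝ) : ℝ := Mg * Real.exp (4 * D) * (2 * E1 * Real.exp (-(5 * M)) + e1 + 4 * Mg * (Real.exp (2 * D) * b))

omit [Nonempty (Px Q)] in
theorem gm_eV [Nonempty (Px Q)] (hA : ∀ x, |A x| ≤ D) (hM : 0 ≤ Mg) (hb : ∀ x, 0 ≤ bd x) :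
    gm (w + A) (eV w p D M E1 e1 Mg bd) ≤ eW D M E1 e1 Mg (gm w bd) := by
  have e1' : eV w p D M E1 e1 Mg bd = fun S => Mg * Real.exp (4 * D) * (2 * E1 * Real.exp (-(5 * M)) + e1) +
      Mg * Real.exp (4 * D) * (4 * Mg) * cE w p bd S := by
    funext S
    unfold eV
    ring
  have e2 : gm (w + A) (fun S => Mg * Real.exp (4 * D) * (2 * E1 * Real.exp (-(5 * M)) + e1) +
      Mg * Real.exp (4 * D) * (4 * Mg) * cE w p bd S) = Mg * Real.exp (4 * D) * (2 * E1 * Real.exp (-(5 * M)) + e1) +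
      Mg * Real.exp (4 * D) * (4 * Mg) * gm (w + A) (cE w p bd) := by
    rw [gm_eq_av, av_add (w + A) univ (fun _ => Mg * Real.exp (4 * D) * (2 * E1 * Real.exp (-(5 * M)) + e1))
      fun S => Mg * Real.exp (4 * D) * (4 * Mg) * cE w p bd S, av_const _ univ_nonempty, av_smul, ← gm_eq_av]
  rw [e1', e2]
  have h1 := gm_tilt43 hA (f := cE w p bd) (fun x => cE_nonneg w p hb x) (w := w)
  rw [gm_cE] at h1
  have h2 := mul_le_mul_of_nonneg_left h1 (by positivity : 0 ≤ Mg * Real.exp (4 * D) * (4 * Mg))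
  unfold eW
  refine (add_le_add le_rfl h2).trans (le_of_eq ?_)
  ring

/-- **The functional of the main term**: the tilt of the measure is `A`, the tilt of the conditional variance is `A'`. -/
theorem mq_T2 {A' : Px Q → ℝ} (hA : ∀ x, |A x| ≤ D) (hA' : ∀ x, |A' x| ≤ D) (hc : Crs p p0) (hM : 0 ≤ Mg) (hE : 0 ≤ E1)
    (he : 0 ≤ e1) (hb : ∀ x, 0 ≤ bd x) (hg : ∀ x, |g x| ≤ Mg) (hD : DifB w p0 (NM c al be d) E1 e1 Mg bd g) {F0 : ℝ}
    {H : Px Q → Px Q → ℝ} (H0 : ∀ x y, 0 ≤ H x y) (HF : ∀ x y, H x y ≤ F0) :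
    PP (w + A) (fun x y => cV (w + A') p g x * H x y) ≤
      Mg ^ 2 * PP (w + A) (fun x y => iT w p c al be d M x * H x y) + F0 * eW D M E1 e1 Mg (gm w bd) := by
  have F00 : 0 ≤ F0 := (H0 (Classical.arbitrary _) (Classical.arbitrary _)).trans (HF _ _)
  have hV := fun x => cV_T2 (M := M) hA' hc hM hE he hb hg hD x
  have e0 : ∀ x, 0 ≤ eV w p D M E1 e1 Mg bd x := fun x => by
    have hb0 : 0 ≤ cE w p bd x := cE_nonneg w p hb x
    unfold eV
    have := (Real.exp_pos (-(5 * M))).le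
    positivity
  have h1 : PP (w + A) (fun x y => cV (w + A') p g x * H x y) ≤ PP (w + A) fun x y => Mg ^ 2 * (iT w p c al be d M x * H x y) +
      eV w p D M E1 e1 Mg bd x * H x y := PP_mono _ fun x y => by
    have := mul_le_mul_of_nonneg_right (hV x) (H0 x y)
    linarith
  rw [PP_add, PP_smul] at h1
  have h3 := PP_le_const (w + A) HF (eV w p D M E1 e1 Mg bd) e0
  have h4 := mul_le_mul_of_nonneg_left (gm_eV (w := w) (p := p) (M := M) (E1 := E1) (e1 := e1) hA hM hb) F00
  linarith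

/-- **The functional of the remainder.** -/
theorem rv_T2 [SwQ Q] {A' : Px Q → ℝ} (hA : ∀ x, |A x| ≤ D) (hA' : ∀ x, |A' x| ≤ D) (hc : Crs p p0) (hM : 0 ≤ Mg) (hE : 0 ≤ E1)
    (he : 0 ≤ e1) (hb : ∀ x, 0 ≤ bd x) (hg : ∀ x, |g x| ≤ Mg) (hD : DifB w p0 (NM c al be d) E1 e1 Mg bd g) {c' al' be' d' : ℕ}
    (m : ℕ) {F0 : ℝ} {H : Px Q → Px Q → ℝ} (H0 : ∀ x y, 0 ≤ H x y) (HF : ∀ x y, H x y ≤ F0) :
    PP (w + A) (fun x y => cV (w + A') p g x * (mM c' al' be' d' (w + A) m x * H x y)) ≤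
      Mg ^ 2 * PP (w + A) (fun x y => iT w p c al be d M x * (iT w (pJ 0 m) c' al' be' d' M x * H x y)) +
        (Mg ^ 2 * (F0 * eT D M) + F0 * eW D M E1 e1 Mg (gm w bd)) := by
  have hm0 := fun x => mM_nonneg (c := c') (al := al') (be := be') (d := d') (w + A) m x
  have hm1 := fun x => mM_le (c := c') (al := al') (be := be') (d := d') (w + A) m x
  have hi0 := fun x => iT_nonneg w p c al be d M x
  have hi1 := fun x => iT_le_one w p c al be d M x
  have h1 := mq_T2 (M := M) hA hA' hc hM hE he hb hg hD (H := fun x y => mM c' al' be' d' (w + A) m x * H x y)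
    (fun x y => mul_nonneg (hm0 x) (H0 x y))
    (fun x y => (mul_le_of_le_one_left (H0 x y) (hm1 x)).trans (HF x y))
  have h2 := mM_T2 (c := c') (al := al') (be := be') (d := d') (M := M) (w := w) hA m (H := fun x y => iT w p c al be d M x * H x y)
    (fun x y => mul_nonneg (hi0 x) (H0 x y)) (fun x y => (mul_le_of_le_one_left (H0 x y) (hi1 x)).trans (HF x y))
  have e1' : (fun x y => iT w p c al be d M x * (mM c' al' be' d' (w + A) m x * H x y)) =
      fun x y => mM c' al' be' d' (w + A) m x * (iT w p c al be d M x * H x y) := by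
    funext x y
    ring
  have e2' : (fun x y => iT w (pJ 0 m) c' al' be' d' M x * (iT w p c al be d M x * H x y)) =
      fun x y => iT w p c al be d M x * (iT w (pJ 0 m) c' al' be' d' M x * H x y) := by
    funext x y
    ring
  rw [e1'] at h1
  rw [e2'] at h2
  have h3 := mul_le_mul_of_nonneg_left h2 (by positivity : 0 ≤ Mg ^ 2)
  linarith

end

end Pool.Agent.W_7d29a1_C0.E2aC81
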