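import Pool.Agent.W_7d29a1_C0.E2aC81
import Pool.Agent.W_7d29a1_C0.Cor45B
import Pool.Agent.W_7d29a1_C0.TN72
import Pool.Agent.W_7d29a1_C0.TauF34
import Pool.Agent.W_7d29a1_C0.GwO73

/-!
CURV0 (MP_7d29a1_pr), leaf E2a, part D (helper81): THE MAIN TERM OF (E2a) AT THE CORNER. The conditional variance `V_u` given the ends of
the base window is, for a good environment, the robust event `iT` of the base path given the same ends; its mean given what is behind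
a row `z` is the event `TauM (pJ 0 z) (pJ (j - b) (j + b))` (`iT_av`), which passes from the tilted weights to `wm` by the one sided E0.
-/

set_option autoImplicit false
set_option linter.unusedSectionVars false
set_option linter.unusedVariables false

namespace Pool.Agent.W_7d29a1_C0.E2aD81

open Finset MeasureTheory Filter Topology Pool.Agent.W_7d29a1_F Pool.Agent.W_7d29a1_X Pool.Agent.W_7d29a1_H
open Pool.Agent.W_7d29a1_HS (In)
open Pool.Agent.W_7d29a1_HZ (wd' EE')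
open Pool.Agent.W_7d29a1_C0 Pool.Agent.W_7d29a1_C0.Mod92 Pool.Agent.W_7d29a1_C0.Swap57 Pool.Agent.W_7d29a1_C0.NM82
open Pool.W7d29a1.C0 Pool.W7d29a1.C0.VT31
open Pool.W7d29a1.C0.R43 (Tau TauM mI mI_nonneg cE2_mI cE_tilt tauM_meas mI_le_one)
open Pool.Agent.W_7d29a1_C0.E2aC81 (iT iT_nonneg iT_le_one iT_Mp T2 mq_T2 eW)
open Pool.Agent.W_7d29a1_C0.MicE14 (rh rh_nonneg)
open Pool.Agent.W_7d29a1_C0.MicT14 (DifB)
open Pool.Agent.W_7d29a1_C0.GwA50 (GwW)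
open Pool.W7d29a1.C0.H27 (QI slb pB)
open Pool.Agent.W_7d29a1_C0.E1M82 (Gd AvA meas_wA gd_rep)
open Pool.Agent.W_7d29a1_C0.E2aM82 (vX qX obs_qX)
open Pool.W7d29a1.C0.Bd73 (nCn nCn_nonneg gj_dif)
open Pool.W7d29a1.C0.H41 (Obs)
open Pool.W7d29a1.C0.C45 (meas_PP45 abs_PP_le45 rh_mp45 e0_ev45 tauM_rb meas_tau45 wu)
open Pool.Agent.W_7d29a1_C0.Base5 (pW)
open Pool.Agent.W_7d29a1_C0.T72 (Sp72 ind72 uj72 wj_eq72 abs_uj72)

noncomputable section

/-! ### The mean of the robust event given what is behind -/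

section Av

variable {Q : Finset (Finset ℕ)} [Nonempty (Px Q)] {Y Y' : Type*} [DecidableEq Y] [DecidableEq Y'] {w A : Px Q → ℝ} {D : ℝ}

open Classical in
/-- The indicator of `TauM`. -/
def jT (w : Px Q → ℝ) (q : Px Q → Y') (p : Px Q → Y) (i j : ℕ) (M : ℝ) (S : Px Q) : ℝ := if TauM w q p i j M S then 1 else 0

omit [Nonempty (Px Q)] in
theorem jT_nonneg (w : Px Q → ℝ) (q : Px Q → Y') (p : Px Q → Y) (i j : ℕ) (M : ℝ) (S : Px Q) : 0 ≤ jT w q p i j M S := by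
  unfold jT
  split_ifs <;> norm_num

omit [Nonempty (Px Q)] in
theorem jT_le_one (w : Px Q → ℝ) (q : Px Q → Y') (p : Px Q → Y) (i j : ℕ) (M : ℝ) (S : Px Q) : jT w q p i j M S ≤ 1 := by
  unfold jT
  split_ifs <;> norm_num

open Classical in
theorem tau_av81 (hA : ∀ x, |A x| ≤ D) {q : Px Q → Y'} {p : Px Q → Y} (hc : Crs q p) (i j : ℕ) (M M' : ℝ) (x : Px Q) :
    cE (w + A) q (fun z => if Tau w p i j M z then (1 : ℝ) else 0) x ≤ jT w q p i j M' x + Real.exp (2 * D + 5 * M - 5 * M') := by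
  have hi0 : ∀ z, (0 : ℝ) ≤ if Tau w p i j M z then (1 : ℝ) else 0 := fun z => by split_ifs <;> norm_num
  have hi1 : ∀ z, (if Tau w p i j M z then (1 : ℝ) else 0) ≤ 1 := fun z => by split_ifs <;> norm_num
  by_cases hT : TauM w q p i j M' x
  · have e1 : jT w q p i j M' x = 1 := if_pos hT
    have h1 := cE_mono (w + A) q hi1 x
    rw [cE_one] at h1
    rw [e1]
    have := (Real.exp_pos (2 * D + 5 * M - 5 * M')).le
    linarith
  · have e1 : jT w q p i j M' x = 0 := if_neg hT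
    rw [e1, zero_add]
    have h1 : ∀ z, (if Tau w p i j M z then (1 : ℝ) else 0) ≤ (Real.exp (5 * M) • cE w p (mI w p i j)) z := fun z => by
      rw [Pi.smul_apply, smul_eq_mul, ← cE2_mI]
      by_cases h : Tau w p i j M z
      · rw [if_pos h]
        unfold Tau at h
        calc (1 : ℝ) = Real.exp (5 * M) * Real.exp (-(5 * M)) := by rw [← Real.exp_add, add_neg_cancel, Real.exp_zero]
          _ ≤ _ := mul_le_mul_of_nonneg_left h (Real.exp_pos _).le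
      · rw [if_neg h]
        exact mul_nonneg (Real.exp_pos _).le (cE_nonneg _ _ (fun S => cE_nonneg _ _ (fun _ => NI_nonneg _ _ _ _) _) _)
    have h2 := cE_mono (w + A) q h1 x
    rw [cE_smul, Pi.smul_apply, smul_eq_mul] at h2
    have h3 := cE_tilt hA q (f := cE w p (mI w p i j)) (fun z => cE_nonneg w p (fun S => mI_nonneg w p i j S) z) x (w := w)
    rw [cE_tower w hc] at h3
    have h4 : cE w q (mI w p i j) x ≤ Real.exp (-(5 * M')) := by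
      unfold TauM at hT
      exact (not_le.1 hT).le
    calc _ ≤ Real.exp (5 * M) * cE (w + A) q (cE w p (mI w p i j)) x := h2
      _ ≤ Real.exp (5 * M) * (Real.exp (2 * D) * Real.exp (-(5 * M'))) :=
          mul_le_mul_of_nonneg_left (h3.trans (mul_le_mul_of_nonneg_left h4 (Real.exp_pos _).le)) (Real.exp_pos _).le
      _ = _ := by
          rw [← Real.exp_add, ← Real.exp_add]
          congr 1
          ring

/-- **The mean of `iT` given `q`**. -/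
theorem iT_av (hA : ∀ x, |A x| ≤ D) {q : Px Q → Y'} {p : Px Q → Y} (hc : Crs q p) (c al be d : ℕ) (M M' : ℝ) (x : Px Q) :
    cE (w + A) q (iT w p c al be d M) x ≤
      jT w q p c al M' x + jT w q p be d M' x + 2 * Real.exp (2 * D + 5 * M - 5 * M') := by
  classical
  have h1 : ∀ z, iT w p c al be d M z ≤ ((fun z => if Tau w p c al M z then (1 : ℝ) else 0) +
      fun z => if Tau w p be d M z then (1 : ℝ) else 0) z := fun z => by
    unfold iT T2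
    rw [Pi.add_apply]
    by_cases a1 : Tau w p c al M z
    · rw [if_pos (Or.inl a1), if_pos a1]
      split_ifs <;> norm_num
    · by_cases a2 : Tau w p be d M z
      · rw [if_pos (Or.inr a2), if_neg a1, if_pos a2]
        norm_num
      · rw [if_neg (not_or.2 ⟨a1, a2⟩), if_neg a1, if_neg a2]
        norm_num
  have h2 := cE_mono (w + A) q h1 x
  rw [cE_add, Pi.add_apply] at h2
  have h3 := tau_av81 hA hc c al M M' x (w := w)
  have h4 := tau_av81 hA hc be d M M' x (w := w)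
  linarith

/-- The robust event with a function of two replicas which sees only what `q` sees of the first one. -/
theorem iT_PP (hA : ∀ x, |A x| ≤ D) {q : Px Q → Y'} {p : Px Q → Y} (hc : Crs q p) (c al be d : ℕ) (M M' : ℝ) {F0 : ℝ}
    {H : Px Q → Px Q → ℝ} (H0 : ∀ x y, 0 ≤ H x y) (HF : ∀ x y, H x y ≤ F0) (Hq : ∀ y, Mp q fun x => H x y) :
    PP (w + A) (fun x y => iT w p c al be d M x * H x y) ≤
      PP (w + A) (fun x y => jT w q p c al M' x * H x y) + PP (w + A) (fun x y => jT w q p be d M' x * H x y) +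
        F0 * (2 * Real.exp (2 * D + 5 * M - 5 * M')) := by
  have F00 : 0 ≤ F0 := (H0 (Classical.arbitrary _) (Classical.arbitrary _)).trans (HF _ _)
  rw [Pool.W7d29a1.C0.PP_pull (w + A) (iT w p c al be d M) (k := H) Hq]
  have h1 : PP (w + A) (fun x y => cE (w + A) q (iT w p c al be d M) x * H x y) ≤
      PP (w + A) fun x y => (jT w q p c al M' x * H x y + jT w q p be d M' x * H x y) + F0 * (2 * Real.exp (2 * D + 5 * M - 5 * M')) :=
    PP_mono _ fun x y => by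
      have h2 := mul_le_mul_of_nonneg_right (iT_av hA hc c al be d M M' x (w := w)) (H0 x y)
      have h3 := mul_le_mul_of_nonneg_left (HF x y) (by positivity : 0 ≤ 2 * Real.exp (2 * D + 5 * M - 5 * M'))
      linarith
  rw [PP_add, PP_add, Row39.PP_const] at h1
  exact h1

end Av

/-! ### One row, one environment -/

section Pt

variable {μ : Measure ℝ} {s : ℝ} {N y : ℕ} [Nonempty (Px (Pn N y))] {κ δk δ₁ ε c' B t u D ϑ M M' : ℝ} {b0 b j z m0 m1 : ℕ}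

theorem rh_le81 {F : Px (Pn N y) → ℝ} (hF : ∀ S, |F S| ≤ D) (S S' : Px (Pn N y)) : rh m0 m1 F S S' ≤ 2 * D := by
  unfold rh
  have h1 : |F S - F S'| ≤ 2 * D := (abs_sub _ _).trans (by linarith [hF S, hF S'])
  calc |F S - F S'| * NI m0 m1 S S' ≤ |F S - F S'| * 1 :=
        mul_le_mul_of_nonneg_left (CutT57.NI_le_one _ _ _ _) (abs_nonneg _)
    _ ≤ 2 * D := by rw [mul_one]; exact h1

/-- **The main term of one row at the tilted weights, for a good environment.** -/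
theorem mq_pt {ω : Env × Finset ℕ} (hη : GwW μ s N κ δk δ₁ ε c' ω.1) (hb : b0 ≤ b) (hj : j + b ≤ N)
    (h1 : (N : ℝ) ^ κ ≤ ((j - (j - b0) : ℕ) : ℝ)) (h2 : (N : ℝ) ^ κ ≤ b0) (hB : 0 ≤ B) (ht : |t| ≤ 1) (hu : |u| ≤ 1)
    (hz : j + b ≤ z) (hm0 : z ≤ m0) (hm : m0 ≤ m1) {F : Px (Pn N y) → ℝ} (hF : Rk m1 F) (hFD : ∀ S, |F S| ≤ D)
    (hϑ : gm (lw μ s ω.1 N (Pn N y)) (nCn μ s δ₁ (j - b0) (j + b0)) ≤ ϑ) (M M' : ℝ) :
    PP (wj μ s N (Pn N y) δk B b0 j ω t) (fun x x' =>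
      vX μ s N δk B b0 b j u y ω x * rh m0 m1 F x x') ≤
      (B / 2) ^ 2 * (PP (wj μ s N (Pn N y) δk B b0 j ω t) (fun x x' =>
          jT (lw μ s ω.1 N (Pn N y)) (pJ 0 z) (pW b j) (j - b0) j M' x * rh m0 m1 F x x') +
        PP (wj μ s N (Pn N y) δk B b0 j ω t) (fun x x' =>
          jT (lw μ s ω.1 N (Pn N y)) (pJ 0 z) (pW b j) j (j + b0) M' x * rh m0 m1 F x x')) +
      2 * D * ((B / 2) ^ 2 * (2 * Real.exp (2 * B + 5 * M - 5 * M')) +
        eW B M (Real.exp ((N : ℝ) ^ ε)) (Real.exp (-(N : ℝ) ^ c')) (B / 2) ϑ) := by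
  have hD0 : 0 ≤ D := (abs_nonneg _).trans (hFD (Classical.arbitrary _))
  have ew : ∀ t, wj μ s N (Pn N y) δk B b0 j ω t = lw μ s ω.1 N (Pn N y) + uj72 μ s (Pn N y) δk B b0 j t ω.2 ω.1 := fun t =>
    wj_eq72 δk B b0 j ω t
  have hA : ∀ {t : ℝ}, |t| ≤ 1 → ∀ x : Px (Pn N y), |uj72 μ s (Pn N y) δk B b0 j t ω.2 ω.1 x| ≤ B := fun ht x =>
    abs_uj72 hB b0 j ht ω.2 ω.1 x
  have hg : ∀ x : Px (Pn N y), |gg μ s (Pn N y) δk B b0 ω j x| ≤ B / 2 := fun x => abs_gg hB b0 ω j x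
  have hc : Crs (pW (Q := Pn N y) b j) (pJ (j - b0) (j + b0)) := crs_pJ (by omega) (by omega)
  have hc' : Crs (pJ (Q := Pn N y) 0 z) (pW b j) := crs_pJ (Nat.zero_le _) hz
  have hdif : DifB (lw μ s ω.1 N (Pn N y)) (pJ (j - b0) (j + b0)) (NM (j - b0) j j (j + b0)) (Real.exp ((N : ℝ) ^ ε))
      (Real.exp (-(N : ℝ) ^ c')) (B / 2) (nCn μ s δ₁ (j - b0) (j + b0)) (gg μ s (Pn N y) δk B b0 ω j) := fun x x' => by
    have h := gj_dif hη (Blk18.full_Pn N y) (by omega : j + b0 ≤ N) h1 h2 hB (sg_or ω.2 j) x x'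
    have e : 2 * (B / 2) = B := by ring
    rw [e]
    exact h
  have k1 := mq_T2 (M := M) (w := lw μ s ω.1 N (Pn N y)) (hA ht) (hA hu) hc (by positivity : 0 ≤ B / 2) (Real.exp_pos _).le
    (Real.exp_pos _).le (fun x => nCn_nonneg μ s δ₁ (j - b0) (j + b0) x) hg hdif (F0 := 2 * D)
    (H := fun x x' => rh m0 m1 F x x') (fun x x' => rh_nonneg F x x') fun x x' => rh_le81 hFD x x'
  have k2 := iT_PP (w := lw μ s ω.1 N (Pn N y)) (hA ht) hc' (j - b0) j j (j + b0) M M' (F0 := 2 * D)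
    (H := fun x x' => rh m0 m1 F x x') (fun x x' => rh_nonneg F x x') (fun x x' => rh_le81 hFD x x') fun x' =>
    rh_mp45 hm0 hm hF x'
  have k3 : eW B M (Real.exp ((N : ℝ) ^ ε)) (Real.exp (-(N : ℝ) ^ c')) (B / 2)
      (gm (lw μ s ω.1 N (Pn N y)) (nCn μ s δ₁ (j - b0) (j + b0))) ≤
      eW B M (Real.exp ((N : ℝ) ^ ε)) (Real.exp (-(N : ℝ) ^ c')) (B / 2) ϑ := by
    unfold eW
    refine mul_le_mul_of_nonneg_left (add_le_add le_rfl ?_) (by positivity)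
    exact mul_le_mul_of_nonneg_left (mul_le_mul_of_nonneg_left hϑ (Real.exp_pos _).le) (by positivity)
  have e0 : (fun x x' => vX μ s N δk B b0 b j u y ω x * rh m0 m1 F x x') = fun x x' =>
      cV (lw μ s ω.1 N (Pn N y) + uj72 μ s (Pn N y) δk B b0 j u ω.2 ω.1) (pW b j) (gg μ s (Pn N y) δk B b0 ω j) x *
        rh m0 m1 F x x' := by
    unfold vX
    rw [ew u]
  rw [e0, ew t]
  have k4 := mul_le_mul_of_nonneg_left k2 (sq_nonneg (B / 2))
  have k5 := mul_le_mul_of_nonneg_left k3 (by positivity : 0 ≤ 2 * D)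
  refine k1.trans ?_
  linarith

end Pt

/-! ### The mean over the environment -/

section Core

variable {μ : Measure ℝ} {s : ℝ} {N y : ℕ} [IsProbabilityMeasure μ]

/-- A bound which holds off a rare event of the environment. -/
theorem int_off81 {Φ G : Env × Finset ℕ → ℝ} (hΦ : ∀ ω, 0 ≤ Φ ω) (hG0 : ∀ ω, 0 ≤ G ω) (hG : Integrable G (Pm μ N)) {K0 T P : ℝ}
    (hK : 0 ≤ K0) (hT0 : 0 ≤ T) (hP : 0 ≤ P) (hT : ∀ ω, Φ ω ≤ T) {bad : Set Env} (hbad : law μ bad ≤ ENNReal.ofReal P)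
    (h : ∀ ω : Env × Finset ℕ, ω.1 ∉ bad → Φ ω ≤ G ω + K0) :
    ∫ ω, Φ ω ∂(Pm μ N) ≤ ∫ ω, G ω ∂(Pm μ N) + (K0 + T * P) := by
  obtain ⟨E, hE⟩ : ∃ E : Set Env, E = toMeasurable (law μ) bad := ⟨_, rfl⟩
  have mE : MeasurableSet E := by
    rw [hE]
    exact measurableSet_toMeasurable _ _
  obtain ⟨φ, hφ⟩ : ∃ φ : Env → ℝ, φ = Set.indicator E 1 := ⟨_, rfl⟩
  have mφ : Measurable φ := by
    rw [hφ]
    exact measurable_one.indicator mE
  have φ0 : ∀ η, 0 ≤ φ η := fun η => by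
    rw [hφ]
    exact Set.indicator_nonneg (fun _ _ => zero_le_one) η
  have φ1 : ∀ η, φ η ≤ 1 := fun η => by
    rw [hφ]
    exact Set.indicator_le_self' (fun _ _ => zero_le_one) η
  have iφ : Integrable (fun ω : Env × Finset ℕ => φ ω.1) (Pm μ N) := int_bdd (M := 1) (mφ.comp measurable_fst) fun ω => by
    rw [abs_of_nonneg (φ0 _)]
    exact φ1 _
  have hpt : ∀ ω : Env × Finset ℕ, Φ ω ≤ G ω + (K0 + T * φ ω.1) := fun ω => by
    by_cases hb : ω.1 ∈ E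
    · have k1 : φ ω.1 = 1 := by
        rw [hφ]
        exact Set.indicator_of_mem hb _
      rw [k1, mul_one]
      linarith [hT ω, hG0 ω]
    · have hb' : ω.1 ∉ bad := fun h' => hb (by
        rw [hE]
        exact subset_toMeasurable _ _ h')
      have k2 := mul_nonneg hT0 (φ0 ω.1)
      linarith [h ω hb']
  have iK : Integrable (fun ω : Env × Finset ℕ => K0 + T * φ ω.1) (Pm μ N) := (integrable_const K0).add (iφ.const_mul T)
  have hI := integral_mono_of_nonneg (μ := Pm μ N) (ae_of_all _ hΦ) (hG.add iK) (ae_of_all _ hpt)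
  refine hI.trans ?_
  have e1 := integral_add hG iK
  simp only [Pi.add_apply] at e1 ⊢
  rw [e1, integral_add (integrable_const K0) (iφ.const_mul T), integral_const, integral_const_mul,
    Bri36.int_fst (Φ := φ) mφ (M := 1) fun η => by rw [abs_of_nonneg (φ0 _)]; exact φ1 _]
  have e3 : (Pm μ N).real Set.univ = 1 := by rw [measureReal_def, measure_univ, ENNReal.toReal_one]
  have e4 : ∫ η, φ η ∂(law μ) ≤ P := by
    rw [hφ, integral_indicator_one mE, measureReal_def, hE, measure_toMeasurable]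
    exact (ENNReal.toReal_mono ENNReal.ofReal_ne_top hbad).trans (ENNReal.toReal_ofReal hP).le
  rw [e3, one_smul]
  have e5 := mul_le_mul_of_nonneg_left e4 hT0
  linarith

variable [Nonempty (Px (Pn N y))] {κ δk δ₁ ε c' B t u D ϑ M M' P1 P2 : ℝ} {b0 b j z m0 m1 cb e : ℕ} {f : Fam N}

/-- The main functional as a two replica mean. -/
theorem rep_qX (hB : 0 ≤ B) (ω : Env × Finset ℕ) :
    rep 2 (wj μ s N (Pn N y) δk B b0 j ω t) (fun x => |qX μ s N δk B b0 b j u y f m0 m1 ω x|) =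
      PP (wj μ s N (Pn N y) δk B b0 j ω t) fun x x' => vX μ s N δk B b0 b j u y ω x * rh m0 m1 (f y ω) x x' :=
  rep_two_PP _ _ fun x => by
    have hV : ∀ S, 0 ≤ vX μ s N δk B b0 b j u y ω S := fun S => cV_nonneg _ _ _ S
    unfold qX
    rw [E2aB81.abs_VN hV]
    unfold rh
    ring

theorem meas_jT {Y Y' : Type*} [DecidableEq Y] [DecidableEq Y'] {Q : Finset (Finset ℕ)} [Nonempty (Px Q)] (q : Px Q → Y')
    (p : Px Q → Y) (i k : ℕ) (M : ℝ) (S : Px Q) : Measurable fun ω : Env × Finset ℕ => jT (lw μ s ω.1 N Q) q p i k M S := by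
  classical
  unfold jT
  exact Measurable.ite (measurableSet_le measurable_const (meas_cE (w := fun ω : Env × Finset ℕ => lw μ s ω.1 N Q)
    (fun S => (meas_lw S).comp measurable_fst) (f := fun ω => mI (lw μ s ω.1 N Q) p i k)
    (fun T => meas_cE (w := fun ω : Env × Finset ℕ => lw μ s ω.1 N Q) (fun S => (meas_lw S).comp measurable_fst)
      (f := fun _ => NI i k T) (fun _ => measurable_const) _ T) _ S)) measurable_const measurable_const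

theorem meas_wj81 (t : ℝ) (S : Px (Pn N y)) : Measurable fun ω : Env × Finset ℕ => wj μ s N (Pn N y) δk B b0 j ω t S := by
  have h : (fun ω : Env × Finset ℕ => wj μ s N (Pn N y) δk B b0 j ω t S) =
      fun ω => lw μ s ω.1 N (Pn N y) S + uj72 μ s (Pn N y) δk B b0 j t ω.2 ω.1 S := by
    funext ω
    rw [wj_eq72]
  rw [h]
  exact ((meas_lw S).comp measurable_fst).add (T72.meas_uj72 δk B b0 j t S)

theorem int_jT (hf : Cls59 N cb e D f) (z m0 m1 i k : ℕ) (M : ℝ) (t : ℝ) :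
    Integrable (fun ω : Env × Finset ℕ => PP (wj μ s N (Pn N y) δk B b0 j ω t) fun x x' =>
      jT (lw μ s ω.1 N (Pn N y)) (pJ 0 z) (pW b j) i k M x * rh m0 m1 (f y ω) x x') (Pm μ N) :=
  int_bdd (M := 2 * D) (meas_PP45 (meas_wj81 t) fun x x' => (meas_jT _ _ _ _ _ x).mul
    (((hf.meas y x).sub (hf.meas y x')).abs.mul_const _)) fun ω => abs_PP_le45 _
      (fun x x' => mul_nonneg (jT_nonneg _ _ _ _ _ _ _) (rh_nonneg _ _ _)) fun x x' => by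
        have h1 := rh_le81 (m0 := m0) (m1 := m1) (fun S => hf.bdd y ω S) x x'
        calc _ ≤ 1 * rh m0 m1 (f y ω) x x' := mul_le_mul_of_nonneg_right (jT_le_one _ _ _ _ _ _ _) (rh_nonneg _ _ _)
          _ ≤ 2 * D := by rw [one_mul]; exact h1

/-- **The main term of one row at the tilted weights.** -/
theorem mq_core (hf : Cls59 N cb e D f) (hb : b0 ≤ b) (hj : j + b ≤ N) (h1 : (N : ℝ) ^ κ ≤ ((j - (j - b0) : ℕ) : ℝ))
    (h2 : (N : ℝ) ^ κ ≤ b0) (hB : 0 ≤ B) (ht : |t| ≤ 1) (hu : |u| ≤ 1) (hz : j + b ≤ z) (hm0 : z ≤ m0) (hm : m0 ≤ m1) (hme : m1 ≤ e)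
    (M M' : ℝ) (hϑ : 0 ≤ ϑ) (hP1 : law μ {η | ¬ GwW μ s N κ δk δ₁ ε c' η} ≤ ENNReal.ofReal P1)
    (hP2 : law μ {η | ϑ < gm (lw μ s η N (Pn N y)) (nCn μ s δ₁ (j - b0) (j + b0))} ≤ ENNReal.ofReal P2) (hP1' : 0 ≤ P1)
    (hP2' : 0 ≤ P2) :
    ∫ ω, rep 2 (wj μ s N (Pn N y) δk B b0 j ω t) (fun x => |qX μ s N δk B b0 b j u y f m0 m1 ω x|) ∂(Pm μ N) ≤
      (B / 2) ^ 2 * (∫ ω, PP (wj μ s N (Pn N y) δk B b0 j ω t) (fun x x' =>
          jT (lw μ s ω.1 N (Pn N y)) (pJ 0 z) (pW b j) (j - b0) j M' x * rh m0 m1 (f y ω) x x') ∂(Pm μ N) +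
        ∫ ω, PP (wj μ s N (Pn N y) δk B b0 j ω t) (fun x x' =>
          jT (lw μ s ω.1 N (Pn N y)) (pJ 0 z) (pW b j) j (j + b0) M' x * rh m0 m1 (f y ω) x x') ∂(Pm μ N)) +
      (2 * D * ((B / 2) ^ 2 * (2 * Real.exp (2 * B + 5 * M - 5 * M')) +
        eW B M (Real.exp ((N : ℝ) ^ ε)) (Real.exp (-(N : ℝ) ^ c')) (B / 2) ϑ) + 2 * (B / 2) ^ 2 * D * (P1 + P2)) := by
  have hD0 : 0 ≤ D := (abs_nonneg _).trans (hf.bdd y (fun _ => 0, ∅) Classical.ofNonempty)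
  have i1 := int_jT (μ := μ) (s := s) (δk := δk) (B := B) (b0 := b0) (b := b) (j := j) (y := y) hf z m0 m1 (j - b0) j M' t
  have i2 := int_jT (μ := μ) (s := s) (δk := δk) (B := B) (b0 := b0) (b := b) (j := j) (y := y) hf z m0 m1 j (j + b0) M' t
  have n0 : ∀ (i k : ℕ) (ω : Env × Finset ℕ), 0 ≤ PP (wj μ s N (Pn N y) δk B b0 j ω t) (fun x x' =>
      jT (lw μ s ω.1 N (Pn N y)) (pJ 0 z) (pW b j) i k M' x * rh m0 m1 (f y ω) x x') := fun i k ω =>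
    PP_nonneg _ fun x x' => mul_nonneg (jT_nonneg _ _ _ _ _ _ _) (rh_nonneg _ _ _)
  have key := int_off81 (μ := μ) (N := N)
    (Φ := fun ω => rep 2 (wj μ s N (Pn N y) δk B b0 j ω t) (fun x => |qX μ s N δk B b0 b j u y f m0 m1 ω x|))
    (G := fun ω => (B / 2) ^ 2 * (PP (wj μ s N (Pn N y) δk B b0 j ω t) (fun x x' =>
          jT (lw μ s ω.1 N (Pn N y)) (pJ 0 z) (pW b j) (j - b0) j M' x * rh m0 m1 (f y ω) x x') +
        PP (wj μ s N (Pn N y) δk B b0 j ω t) (fun x x' =>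
          jT (lw μ s ω.1 N (Pn N y)) (pJ 0 z) (pW b j) j (j + b0) M' x * rh m0 m1 (f y ω) x x')))
    (K0 := 2 * D * ((B / 2) ^ 2 * (2 * Real.exp (2 * B + 5 * M - 5 * M')) +
        eW B M (Real.exp ((N : ℝ) ^ ε)) (Real.exp (-(N : ℝ) ^ c')) (B / 2) ϑ)) (T := 2 * (B / 2) ^ 2 * D) (P := P1 + P2)
    (bad := {η | ¬ GwW μ s N κ δk δ₁ ε c' η} ∪ {η | ϑ < gm (lw μ s η N (Pn N y)) (nCn μ s δ₁ (j - b0) (j + b0))})
    (fun ω => H41.rep_nonneg 2 _ fun x => abs_nonneg _)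
    (fun ω => mul_nonneg (sq_nonneg _) (add_nonneg (n0 _ _ ω) (n0 _ _ ω))) ((i1.add i2).const_mul _)
    (by unfold eW; positivity) (by positivity) (by positivity)
    (fun ω => (rep_mono 2 _ fun x => ?_).trans_eq (H41.rep_const 2 _ (2 * (B / 2) ^ 2 * D)))
    ((measure_union_le _ _).trans (by
      rw [ENNReal.ofReal_add hP1' hP2']
      exact add_le_add hP1 hP2)) fun ω hω => ?_
  · refine key.trans (le_of_eq ?_)
    rw [integral_const_mul, integral_add i1 i2]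
  · have h := (obs_qX (μ := μ) (s := s) (N := N) (δ := δk) (b0 := b0) (b := b) (j := j) (m0 := m0) (m1 := m1) (y := y) hB hf hb
      hj ω.2 u).bd ω.1 x
    exact h
  · rw [Set.mem_union, not_or] at hω
    have g1 : GwW μ s N κ δk δ₁ ε c' ω.1 := not_not.1 hω.1
    have g2 : gm (lw μ s ω.1 N (Pn N y)) (nCn μ s δ₁ (j - b0) (j + b0)) ≤ ϑ := not_lt.1 hω.2
    show rep 2 _ _ ≤ _
    rw [rep_qX hB]
    exact mq_pt g1 hb hj h1 h2 hB ht hu hz hm0 hm (Pool.Agent.W_7d29a1_C0.E1M82.rk_cls hf hme y ω) (fun S => hf.bdd y ω S) g2 M M'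

end Core

/-! ### The numbers -/

theorem ev81 {aM a₁ c1 c2 : ℝ} (haM : 0 < aM) (ha₁ : 0 < a₁) (hc1 : 0 < c1) (hc2 : 0 < c2) : ∃ c' : ℝ, 0 < c' ∧ ∃ N₀ : ℕ,
    ∀ N : ℕ, N₀ ≤ N → ∀ B D M : ℝ, 0 ≤ B → 0 ≤ D → B ≤ (N : ℝ) ^ (min (min 1 (c1 / 2)) (min (aM / 2) (a₁ / 2))) → (N : ℝ) ^ aM ≤ M →
      2 * D * ((B / 2) ^ 2 * (2 * Real.exp (2 * B + 5 * M - 5 * (2 * M))) +
        eW B M (Real.exp ((N : ℝ) ^ (aM / 2))) (Real.exp (-(N : ℝ) ^ c1)) (B / 2) (Real.exp (-(N : ℝ) ^ a₁))) +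
        2 * (B / 2) ^ 2 * D * (Real.exp (-(N : ℝ) ^ c1) + Real.exp (-(N : ℝ) ^ c2)) ≤ D * Real.exp (-(N : ℝ) ^ c') := by
  obtain ⟨c', hc'⟩ : ∃ c' : ℝ, c' = min (aM / 2) (min (c1 / 2) (min (a₁ / 2) (c2 / 2))) := ⟨_, rfl⟩
  have c0 : 0 < c' := by
    rw [hc']
    exact lt_min (by positivity) (lt_min (by positivity) (lt_min (by positivity) (by positivity)))
  have cM : c' < aM := by
    have : c' ≤ aM / 2 := by rw [hc']; exact min_le_left _ _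
    linarith
  have cc1 : c' < c1 := by
    have : c' ≤ c1 / 2 := by rw [hc']; exact (min_le_right _ _).trans (min_le_left _ _)
    linarith
  have ca : c' < a₁ := by
    have : c' ≤ a₁ / 2 := by rw [hc']; exact (min_le_right _ _).trans ((min_le_right _ _).trans (min_le_left _ _))
    linarith
  have cc2 : c' < c2 := by
    have : c' ≤ c2 / 2 := by rw [hc']; exact (min_le_right _ _).trans ((min_le_right _ _).trans (min_le_right _ _))
    linarith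
  have E1 := Pool.Agent.W_7d29a1_HZ.Z74.ev_exp (A := 16) (a := 1) (by norm_num) one_pos haM cM 2
  have E2 := Pool.Agent.W_7d29a1_HZ.Z74.ev_exp (A := 16) (a := 1 / 2) (by norm_num) (by norm_num) hc1 cc1 2
  have E3 := Pool.Agent.W_7d29a1_HZ.Z74.ev_exp (A := 16) (a := 1 / 2) (by norm_num) (by norm_num) ha₁ ca 2
  have E4 := Pool.Agent.W_7d29a1_HZ.Z74.ev_exp (A := 16) (a := 1) (by norm_num) one_pos hc2 cc2 2
  obtain ⟨L1, hL1⟩ := eventually_atTop.1 (E1.and (E2.and (E3.and E4)))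
  obtain ⟨L2, hL2⟩ := Pool.Agent.W_7d29a1_Z.NumI77.large (show 0 < aM / 2 by positivity) 2
  obtain ⟨L3, hL3⟩ := Pool.Agent.W_7d29a1_Z.NumI77.large (show 0 < a₁ / 2 by positivity) 12
  obtain ⟨L4, hL4⟩ := Pool.Agent.W_7d29a1_Z.NumI77.large (show 0 < c1 / 2 by positivity) 8
  refine ⟨c', c0, max L1 (max L2 (max L3 L4)), fun N hN B D M hB hD hBN hM => ?_⟩
  obtain ⟨g1, g2, g3, g4⟩ := hL1 N ((le_max_left _ _).trans hN)
  obtain ⟨n1, n2, -⟩ := hL2 N ((le_max_left _ _).trans ((le_max_right _ _).trans hN))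
  obtain ⟨-, n3, -⟩ := hL3 N ((le_max_left _ _).trans ((le_max_right _ _).trans ((le_max_right _ _).trans hN)))
  obtain ⟨-, n4, -⟩ := hL4 N ((le_max_right _ _).trans ((le_max_right _ _).trans ((le_max_right _ _).trans hN)))
  have hNR : (1 : ℝ) ≤ N := by exact_mod_cast n1
  have hN0 : (0 : ℝ) < N := by linarith
  have b1 : B ≤ N := by
    calc B ≤ (N : ℝ) ^ (min (min 1 (c1 / 2)) (min (aM / 2) (a₁ / 2))) := hBN
      _ ≤ (N : ℝ) ^ (1 : ℝ) := Real.rpow_le_rpow_of_exponent_le hNR ((min_le_left _ _).trans (min_le_left _ _))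
      _ = N := Real.rpow_one _
  have b2 : B ≤ (N : ℝ) ^ (aM / 2) := hBN.trans (Real.rpow_le_rpow_of_exponent_le hNR ((min_le_right _ _).trans (min_le_left _ _)))
  have b3 : B ≤ (N : ℝ) ^ (a₁ / 2) := hBN.trans (Real.rpow_le_rpow_of_exponent_le hNR ((min_le_right _ _).trans (min_le_right _ _)))
  have b4 : B ≤ (N : ℝ) ^ (c1 / 2) := hBN.trans (Real.rpow_le_rpow_of_exponent_le hNR ((min_le_left _ _).trans (min_le_right _ _)))
  have sq : ∀ a : ℝ, (N : ℝ) ^ a = (N : ℝ) ^ (a / 2) * (N : ℝ) ^ (a / 2) := fun a => by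
    rw [← Real.rpow_add hN0]
    ring_nf
  obtain ⟨x, hx⟩ : ∃ x : ℝ, x = (N : ℝ) ^ (aM / 2) := ⟨_, rfl⟩
  obtain ⟨z, hz⟩ : ∃ z : ℝ, z = (N : ℝ) ^ (a₁ / 2) := ⟨_, rfl⟩
  obtain ⟨v, hv⟩ : ∃ v : ℝ, v = (N : ℝ) ^ (c1 / 2) := ⟨_, rfl⟩
  have hxx : (N : ℝ) ^ aM = x * x := by rw [hx]; exact sq aM
  have hzz : (N : ℝ) ^ a₁ = z * z := by rw [hz]; exact sq a₁
  have hvv : (N : ℝ) ^ c1 = v * v := by rw [hv]; exact sq c1
  rw [← hx] at b2 n2
  rw [← hz] at b3 n3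
  rw [← hv] at b4 n4
  obtain ⟨T, hT⟩ : ∃ T : ℝ, T = Real.exp (-(N : ℝ) ^ c') := ⟨_, rfl⟩
  rw [one_mul, ← hT, Real.rpow_ofNat] at g1 g4
  rw [← hT, Real.rpow_ofNat] at g2 g3
  have T0 : 0 ≤ T := by
    rw [hT]
    positivity
  have hN2 : (N : ℝ) ≤ (N : ℝ) ^ 2 := by nlinarith
  have hB2 : B ^ 2 ≤ (N : ℝ) ^ 2 := pow_le_pow_left₀ hB b1 2
  have kM := Real.exp_pos (-(N : ℝ) ^ aM)
  have k1 := Real.exp_pos (-(1 / 2 * (N : ℝ) ^ c1))
  have ka := Real.exp_pos (-(1 / 2 * (N : ℝ) ^ a₁))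
  have k2 := Real.exp_pos (-(N : ℝ) ^ c2)
  have hN2' : 0 ≤ (N : ℝ) ^ 2 := by positivity
  have sx : 2 * x ≤ x * x := mul_le_mul_of_nonneg_right n2 (by linarith)
  have sv : 8 * v ≤ v * v := mul_le_mul_of_nonneg_right n4 (by linarith)
  have sz : 12 * z ≤ z * z := mul_le_mul_of_nonneg_right n3 (by linarith)
  rw [hxx] at hM
  -- the terms
  have t1 : B ^ 2 * Real.exp (2 * B + 5 * M - 5 * (2 * M)) ≤ T / 16 := by
    have q1 : Real.exp (2 * B + 5 * M - 5 * (2 * M)) ≤ Real.exp (-(N : ℝ) ^ aM) := by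
      refine Real.exp_le_exp.2 ?_
      rw [hxx]
      linarith
    calc _ ≤ (N : ℝ) ^ 2 * Real.exp (-(N : ℝ) ^ aM) := mul_le_mul hB2 q1 (Real.exp_pos _).le hN2'
      _ ≤ _ := by linarith
  have t2 : 2 * B * (Real.exp (4 * B) * (Real.exp x * Real.exp (-(5 * M)))) ≤ T / 16 := by
    have q1 : Real.exp (4 * B) * (Real.exp x * Real.exp (-(5 * M))) ≤ Real.exp (-(N : ℝ) ^ aM) := by
      rw [← Real.exp_add, ← Real.exp_add]
      refine Real.exp_le_exp.2 ?_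
      rw [hxx]
      linarith
    calc _ ≤ (2 * (N : ℝ) ^ 2) * Real.exp (-(N : ℝ) ^ aM) := mul_le_mul (by linarith) q1 (by positivity) (by positivity)
      _ ≤ _ := by linarith
  have t3 : B * (Real.exp (4 * B) * Real.exp (-(N : ℝ) ^ c1)) ≤ T / 16 := by
    have q1 : Real.exp (4 * B) * Real.exp (-(N : ℝ) ^ c1) ≤ Real.exp (-(1 / 2 * (N : ℝ) ^ c1)) := by
      rw [← Real.exp_add]
      refine Real.exp_le_exp.2 ?_
      rw [hvv]
      linarith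
    calc _ ≤ (N : ℝ) ^ 2 * Real.exp (-(1 / 2 * (N : ℝ) ^ c1)) := mul_le_mul (by linarith) q1 (by positivity) hN2'
      _ ≤ _ := by linarith
  have t4 : 2 * B ^ 2 * (Real.exp (4 * B) * (Real.exp (2 * B) * Real.exp (-(N : ℝ) ^ a₁))) ≤ T / 16 := by
    have q1 : Real.exp (4 * B) * (Real.exp (2 * B) * Real.exp (-(N : ℝ) ^ a₁)) ≤ Real.exp (-(1 / 2 * (N : ℝ) ^ a₁)) := by
      rw [← Real.exp_add, ← Real.exp_add]
      refine Real.exp_le_exp.2 ?_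
      rw [hzz]
      linarith
    calc _ ≤ (2 * (N : ℝ) ^ 2) * Real.exp (-(1 / 2 * (N : ℝ) ^ a₁)) := mul_le_mul (by linarith) q1 (by positivity) (by positivity)
      _ ≤ _ := by linarith
  have t5 : B ^ 2 * Real.exp (-(N : ℝ) ^ c1) ≤ T / 16 := by
    have q1 : Real.exp (-(N : ℝ) ^ c1) ≤ Real.exp (-(1 / 2 * (N : ℝ) ^ c1)) := by
      refine Real.exp_le_exp.2 ?_
      rw [hvv]
      linarith
    calc _ ≤ (N : ℝ) ^ 2 * Real.exp (-(1 / 2 * (N : ℝ) ^ c1)) := mul_le_mul hB2 q1 (Real.exp_pos _).le hN2'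
      _ ≤ _ := by linarith
  have t6 : B ^ 2 * Real.exp (-(N : ℝ) ^ c2) ≤ T / 16 := by
    calc _ ≤ (N : ℝ) ^ 2 * Real.exp (-(N : ℝ) ^ c2) := mul_le_mul_of_nonneg_right hB2 k2.le
      _ ≤ _ := by linarith
  rw [← hT]
  unfold eW
  rw [← hx]
  generalize Real.exp (2 * B + 5 * M - 5 * (2 * M)) = X1 at t1 ⊢
  generalize Real.exp (4 * B) = X2 at t2 t3 t4 ⊢
  generalize Real.exp x = X3 at t2 ⊢
  generalize Real.exp (-(5 * M)) = X4 at t2 ⊢
  generalize Real.exp (2 * B) = X6 at t4 ⊢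
  generalize Real.exp (-(N : ℝ) ^ a₁) = X7 at t4 ⊢
  have p5 : 0 ≤ B ^ 2 * Real.exp (-(N : ℝ) ^ c1) := by positivity
  have p8 : 0 ≤ B ^ 2 * Real.exp (-(N : ℝ) ^ c2) := by positivity
  generalize Real.exp (-(N : ℝ) ^ c1) = X5 at t3 t5 p5 ⊢
  generalize Real.exp (-(N : ℝ) ^ c2) = X8 at t6 p8 ⊢
  have t7 : B ^ 2 * X1 + 2 * B * (X2 * (X3 * X4)) + B * (X2 * X5) + 2 * B ^ 2 * (X2 * (X6 * X7)) +
      1 / 2 * (B ^ 2 * X5) + 1 / 2 * (B ^ 2 * X8) ≤ T := by linarith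
  refine le_trans (le_of_eq ?_) (mul_le_mul_of_nonneg_left t7 hD)
  ring

/-! ### One row at the corner -/

/-- The two near ties of the window of the row `j` with the half width `b0`, given the ends of the window of base `b`, in the mean given
what is behind the row `z`, as a functional of the path. -/
def UJ (μ : Measure ℝ) (s : ℝ) (N b0 b j z : ℕ) (M : ℝ) : Fam N := fun y ω x =>
  jT (lw μ s ω.1 N (Pn N y)) (pJ 0 z) (pW b j) (j - b0) j M x + jT (lw μ s ω.1 N (Pn N y)) (pJ 0 z) (pW b j) j (j + b0) M x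

theorem UJ_nonneg (μ : Measure ℝ) (s : ℝ) (N b0 b j z : ℕ) (M : ℝ) (y : ℕ) (ω : Env × Finset ℕ) (x : Px (Pn N y)) :
    0 ≤ UJ μ s N b0 b j z M y ω x := add_nonneg (jT_nonneg _ _ _ _ _ _ _) (jT_nonneg _ _ _ _ _ _ _)

theorem UJ_le (μ : Measure ℝ) (s : ℝ) (N b0 b j z : ℕ) (M : ℝ) (y : ℕ) (ω : Env × Finset ℕ) (x : Px (Pn N y)) :
    UJ μ s N b0 b j z M y ω x ≤ 2 := by
  have h1 := jT_le_one (lw μ s ω.1 N (Pn N y)) (pJ (Q := Pn N y) 0 z) (pW b j) (j - b0) j M x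
  have h2 := jT_le_one (lw μ s ω.1 N (Pn N y)) (pJ (Q := Pn N y) 0 z) (pW b j) j (j + b0) M x
  unfold UJ
  linarith

section Row

variable {μ : Measure ℝ} {s : ℝ} [IsProbabilityMeasure μ]

/-- **THE MAIN TERM OF ONE ROW OF (E2a) AT THE COMMON MEASURE.** -/
theorem mq_row {c₀ C₀ : ℝ} {n₀ : ℕ} (hIn : In μ s c₀ C₀ n₀)
    (hQI : ∀ p : ℝ, 1 < p → ∃ C θ0 : ℝ, 0 ≤ C ∧ 0 < θ0 ∧ QI μ p C θ0) {κ : ℝ} (hκ : 0 < κ) (hκ1 : κ ≤ 1) {ε K' aM : ℝ}
    (hε : 0 < ε) (hK' : 0 ≤ K') (haM : 0 < aM) : ∃ β₀ : ℝ, 0 < β₀ ∧ ∀ δk : ℝ, 0 < δk → ∃ δ' c' : ℝ, 0 < δ' ∧ 0 < c' ∧ ∃ N₀ : ℕ,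
      ∀ N : ℕ, N₀ ≤ N → ∀ y : ℕ, y ≤ N → |(y : ℝ) - sl μ s * N| ≤ ((N : ℝ) ^ δ' * wd' μ s N) →
      ∀ c0 K : ℕ, (N : ℝ) ^ κ ≤ c0 → (N : ℝ) ^ κ ≤ K → c0 + K ≤ N → ∀ (B : ℝ) (b0 b j : ℕ), 0 ≤ B → B ≤ (N : ℝ) ^ β₀ →
      (N : ℝ) ^ κ ≤ b0 → b0 ≤ b → b ≤ j → j + b ≤ c0 →
      ∀ (cb e : ℕ) (D : ℝ) (f : Fam N), Cls59 N cb e D f → 2 * D ≤ (N : ℝ) ^ K' → ∀ m0 m1 : ℕ, c0 + K ≤ m0 → m0 ≤ m1 → m1 ≤ e →
      ∀ t ∈ Set.Icc (-1 : ℝ) 1, ∀ u ∈ Set.Icc (-1 : ℝ) 1, ∀ M : ℝ, (N : ℝ) ^ aM ≤ M →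
      ∫ ω, rep 2 (wj μ s N (Pn N y) δk B b0 j ω t) (fun x => |qX μ s N δk B b0 b j u y f m0 m1 ω x|) ∂(Pm μ N) ≤
        (B / 2) ^ 2 * (N : ℝ) ^ ε * T93.rw2 μ s N (fun _ _ x x' => NI m0 m1 x x') (UJ μ s N b0 b j (c0 + K) (4 * M)) f y +
          (B ^ 2 * (N : ℝ) ^ ε * (N : ℝ) ^ (-K') + D * Real.exp (-(N : ℝ) ^ c')) := by
  obtain ⟨δ₀, ε₁, hδ₀, hε₁, N₁, hN₁⟩ := T72.e0_uj72 hIn hQI hκ hκ1 2 hε hK'
  obtain ⟨a₁, ha₁, hA⟩ := TauE34.nCn34 hIn hκ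
  obtain ⟨c1, hc1, hGw⟩ := Pool.Agent.W_7d29a1_C0.GwA50.gw_ord73 hIn (ε := aM / 2) hκ (by positivity)
  obtain ⟨β₀, hβ₀⟩ : ∃ β₀ : ℝ, β₀ = min ε₁ (min (min 1 (c1 / 2)) (min (aM / 2) (a₁ / 2))) := ⟨_, rfl⟩
  refine ⟨β₀, by rw [hβ₀]; exact lt_min hε₁ (lt_min (lt_min one_pos (by positivity)) (lt_min (by positivity) (by positivity))),
    fun δk hδk => ?_⟩
  obtain ⟨δ₁, hδ₁, -, N₂, hN₂⟩ := hGw δk hδk
  obtain ⟨δ₂, c2, hδ₂, hc2, N₃, hN₃⟩ := hA δ₁ hδ₁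
  obtain ⟨c', hc', N₄, hN₄⟩ := ev81 haM ha₁ hc1 hc2
  obtain ⟨N₅, hN₅⟩ := Pool.Agent.W_7d29a1_Z.NumI77.large (show 0 < aM / 2 by positivity) 2
  refine ⟨min δ₀ δ₂, c', lt_min hδ₀ hδ₂, hc', max N₁ (max N₂ (max N₃ (max N₄ N₅))), fun N hN y hy hyc c0 K hc hK hcK B b0 b j hB hBN
    hb0 hb hbj hjc cb e D f hf hDN m0 m1 hm0 hm hme t ht u hu M hM => ?_⟩
  have hne := ne_Pn hy
  have k1 : N₁ ≤ N := (le_max_left _ _).trans hN
  have k2 : N₂ ≤ N := (le_max_left _ _).trans ((le_max_right _ _).trans hN)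
  have k3 : N₃ ≤ N := (le_max_left _ _).trans ((le_max_right _ _).trans ((le_max_right _ _).trans hN))
  have k4 : N₄ ≤ N := (le_max_left _ _).trans ((le_max_right _ _).trans ((le_max_right _ _).trans ((le_max_right _ _).trans hN)))
  have k5 : N₅ ≤ N := (le_max_right _ _).trans ((le_max_right _ _).trans ((le_max_right _ _).trans ((le_max_right _ _).trans hN)))
  obtain ⟨n1, n2, -⟩ := hN₅ N k5
  have hNR : (1 : ℝ) ≤ N := by exact_mod_cast n1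
  have hN0 : (0 : ℝ) < N := by linarith
  have w0 : 0 ≤ wd' μ s N := zero_le_one.trans (le_max_left _ _)
  have hy0 : |(y : ℝ) - sl μ s * N| ≤ (N : ℝ) ^ δ₀ * wd' μ s N :=
    hyc.trans (mul_le_mul_of_nonneg_right (Real.rpow_le_rpow_of_exponent_le hNR (min_le_left _ _)) w0)
  have hy2 : |(y : ℝ) - sl μ s * N| ≤ (N : ℝ) ^ δ₂ * wd' μ s N :=
    hyc.trans (mul_le_mul_of_nonneg_right (Real.rpow_le_rpow_of_exponent_le hNR (min_le_right _ _)) w0)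
  have hBe : B ≤ (N : ℝ) ^ ε₁ := hBN.trans (Real.rpow_le_rpow_of_exponent_le hNR (by rw [hβ₀]; exact min_le_left _ _))
  have hBs : B ≤ (N : ℝ) ^ (min (min 1 (c1 / 2)) (min (aM / 2) (a₁ / 2))) :=
    hBN.trans (Real.rpow_le_rpow_of_exponent_le hNR (by rw [hβ₀]; exact min_le_right _ _))
  have hBM : B ≤ M := by
    have h1 : B ≤ (N : ℝ) ^ (aM / 2) := hBs.trans (Real.rpow_le_rpow_of_exponent_le hNR ((min_le_right _ _).trans (min_le_left _ _)))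
    have h2 : (N : ℝ) ^ (aM / 2) ≤ (N : ℝ) ^ aM := Real.rpow_le_rpow_of_exponent_le hNR (by linarith)
    linarith
  have hD : 0 ≤ D := (abs_nonneg _).trans (hf.bdd y (fun _ => 0, ∅) Classical.ofNonempty)
  have hK0 : (0 : ℝ) < K := lt_of_lt_of_le (Real.rpow_pos_of_pos hN0 κ) hK
  have hw1 : (N : ℝ) ^ κ ≤ ((j - (j - b0) : ℕ) : ℝ) := by
    have e1 : j - (j - b0) = b0 := by omega
    rw [e1]
    exact hb0
  have hw2 : (N : ℝ) ^ κ ≤ ((j + b0 - (j - b0) : ℕ) : ℝ) := by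
    refine hb0.trans ?_
    exact_mod_cast (by omega : b0 ≤ j + b0 - (j - b0))
  have ht1 := abs_le.2 ht
  have hu1 := abs_le.2 hu
  have core := mq_core (μ := μ) (s := s) (N := N) (y := y) (κ := κ) (δk := δk) (δ₁ := δ₁) (ε := aM / 2) (c' := c1) (B := B) (t := t) (u := u)
    (ϑ := Real.exp (-(N : ℝ) ^ a₁)) (P1 := Real.exp (-(N : ℝ) ^ c1)) (P2 := Real.exp (-(N : ℝ) ^ c2)) (b0 := b0) (b := b) (j := j)
    (z := c0 + K) (m0 := m0) (m1 := m1) hf hb (by omega) hw1 hb0 hB ht1 hu1 (by omega) hm0 hm hme M (2 * M) (Real.exp_pos _).le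
    (hN₂ N k2) (hN₃ N k3 y hy hy2 (j - b0) (j + b0) hw2 (by omega)) (Real.exp_pos _).le (Real.exp_pos _).le
  have hT := hN₄ N k4 B D M hB hD hBs hM
  -- the passage
  have hP : H7.Pok μ s N δ₀ (Pn N y) := Or.inr ⟨y, hy, hy0, rfl⟩
  have hE := fun A => hN₁ N k1 (Pn N y) hP c0 K hc hK hcK B hB hBe δk b0 j (by omega : j + b0 ≤ c0) t ht1 A
  have hsp := T72.sp72_of_cls hf hme (by omega : c0 + K ≤ e) y
  have pass : ∀ i k : ℕ, ∫ ω, PP (wj μ s N (Pn N y) δk B b0 j ω t) (fun x x' =>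
      jT (lw μ s ω.1 N (Pn N y)) (pJ 0 (c0 + K)) (pW b j) i k (2 * M) x * rh m0 m1 (f y ω) x x') ∂(Pm μ N) ≤
      (N : ℝ) ^ ε * (∫ ω, PP (wm μ s N (Pn N y) ω) (fun x x' =>
        jT (lw μ s ω.1 N (Pn N y)) (pJ 0 (c0 + K)) (pW b j) i k (4 * M) x * rh m0 m1 (f y ω) x x') ∂(Pm μ N) + (N : ℝ) ^ (-K')) :=
    fun i k => by
      have hT := tauM_rb (μ := μ) (s := s) (N := N) (Q := Pn N y) (c0 := c0) (K := K) (D := 2 * B) (θ := 2 * B / K) (by positivity) le_rfl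
        (z := c0 + K) (i := i) (j := k) le_rfl (pW b j) (M := 2 * M) (M' := 4 * M) (by linarith)
      have h1 := e0_ev45 hE (T72.meas_uj72 δk B b0 j t) (z := m0) (c := m1) hm0 hm hsp hDN hT
      refine le_trans (le_of_eq ?_) h1
      refine integral_congr_ae (ae_of_all _ fun ω => ?_)
      simp only [wj_eq72]
      rfl
  have n0 : ∀ (i k : ℕ) (ω : Env × Finset ℕ) (x x' : Px (Pn N y)), 0 ≤
      jT (lw μ s ω.1 N (Pn N y)) (pJ 0 (c0 + K)) (pW b j) i k (4 * M) x * rh m0 m1 (f y ω) x x' := fun i k ω x x' =>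
    mul_nonneg (jT_nonneg _ _ _ _ _ _ _) (rh_nonneg _ _ _)
  have bd : ∀ (i k : ℕ), Integrable (fun ω : Env × Finset ℕ => PP (wm μ s N (Pn N y) ω) (fun x x' =>
        jT (lw μ s ω.1 N (Pn N y)) (pJ 0 (c0 + K)) (pW b j) i k (4 * M) x * rh m0 m1 (f y ω) x x')) (Pm μ N) := fun i k =>
    int_bdd (M := 2 * D) (meas_PP45 meas_wm fun x x' => (meas_jT _ _ _ _ _ x).mul
      (((hf.meas y x).sub (hf.meas y x')).abs.mul_const _)) fun ω => abs_PP_le45 _ (n0 i k ω) fun x x' => by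
        have h1 := rh_le81 (m0 := m0) (m1 := m1) (fun S => hf.bdd y ω S) x x'
        calc _ ≤ 1 * rh m0 m1 (f y ω) x x' := mul_le_mul_of_nonneg_right (jT_le_one _ _ _ _ _ _ _) (rh_nonneg _ _ _)
          _ ≤ 2 * D := by rw [one_mul]; exact h1
  have hsum : ∫ ω, PP (wm μ s N (Pn N y) ω) (fun x x' =>
        jT (lw μ s ω.1 N (Pn N y)) (pJ 0 (c0 + K)) (pW b j) (j - b0) j (4 * M) x * rh m0 m1 (f y ω) x x') ∂(Pm μ N) +
      ∫ ω, PP (wm μ s N (Pn N y) ω) (fun x x' =>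
        jT (lw μ s ω.1 N (Pn N y)) (pJ 0 (c0 + K)) (pW b j) j (j + b0) (4 * M) x * rh m0 m1 (f y ω) x x') ∂(Pm μ N) ≤
      T93.rw2 μ s N (fun _ _ x x' => NI m0 m1 x x') (UJ μ s N b0 b j (c0 + K) (4 * M)) f y := by
    rw [← integral_add (bd _ _) (bd _ _)]
    unfold T93.rw2
    have mU : ∀ x, Measurable fun ω : Env × Finset ℕ => UJ μ s N b0 b j (c0 + K) (4 * M) y ω x := fun x =>
      (meas_jT _ _ _ _ _ x).add (meas_jT _ _ _ _ _ x)
    have k0 : ∀ (ω : Env × Finset ℕ) (x x' : Px (Pn N y)), 0 ≤ NI m0 m1 x x' * (UJ μ s N b0 b j (c0 + K) (4 * M) y ω x +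
        UJ μ s N b0 b j (c0 + K) (4 * M) y ω x') * |f y ω x - f y ω x'| := fun ω x x' =>
      mul_nonneg (mul_nonneg (NI_nonneg _ _ _ _) (add_nonneg (UJ_nonneg _ _ _ _ _ _ _ _ _ _ _) (UJ_nonneg _ _ _ _ _ _ _ _ _ _ _)))
        (abs_nonneg _)
    refine integral_mono ((bd _ _).add (bd _ _)) (int_bdd (M := 8 * D) (meas_PP45 meas_wm fun x x' =>
      (((mU x).add (mU x')).const_mul _).mul ((hf.meas y x).sub (hf.meas y x')).abs) fun ω => abs_PP_le45 _ (k0 ω) fun x x' => ?_)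
      fun ω => ?_
    · have h1 := rh_le81 (m0 := m0) (m1 := m1) (fun S => hf.bdd y ω S) x x'
      have h2 := UJ_le μ s N b0 b j (c0 + K) (4 * M) y ω x
      have h3 := UJ_le μ s N b0 b j (c0 + K) (4 * M) y ω x'
      have h4 := rh_nonneg (z := m0) (c := m1) (f y ω) x x'
      calc _ = (UJ μ s N b0 b j (c0 + K) (4 * M) y ω x + UJ μ s N b0 b j (c0 + K) (4 * M) y ω x') * rh m0 m1 (f y ω) x x' := by
            unfold rh
            ring
        _ ≤ 4 * rh m0 m1 (f y ω) x x' := mul_le_mul_of_nonneg_right (by linarith) h4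
        _ ≤ 8 * D := by linarith
    · rw [← PP_add]
      refine PP_mono _ fun x x' => ?_
      have h4 := rh_nonneg (z := m0) (c := m1) (f y ω) x x'
      have h5 := mul_nonneg (UJ_nonneg μ s N b0 b j (c0 + K) (4 * M) y ω x') h4
      have h6 : NI m0 m1 x x' * (UJ μ s N b0 b j (c0 + K) (4 * M) y ω x +
          UJ μ s N b0 b j (c0 + K) (4 * M) y ω x') * |f y ω x - f y ω x'| =
          UJ μ s N b0 b j (c0 + K) (4 * M) y ω x * rh m0 m1 (f y ω) x x' +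
            UJ μ s N b0 b j (c0 + K) (4 * M) y ω x' * rh m0 m1 (f y ω) x x' := by
        unfold rh
        ring
      have h7 : UJ μ s N b0 b j (c0 + K) (4 * M) y ω x * rh m0 m1 (f y ω) x x' =
          jT (lw μ s ω.1 N (Pn N y)) (pJ 0 (c0 + K)) (pW b j) (j - b0) j (4 * M) x * rh m0 m1 (f y ω) x x' +
            jT (lw μ s ω.1 N (Pn N y)) (pJ 0 (c0 + K)) (pW b j) j (j + b0) (4 * M) x * rh m0 m1 (f y ω) x x' := by
        unfold UJ
        ring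
      rw [h6, h7]
      linarith
  have hX := mul_le_mul_of_nonneg_left (add_le_add (pass (j - b0) j) (pass j (j + b0))) (sq_nonneg (B / 2))
  have hY := mul_le_mul_of_nonneg_left hsum (by positivity : 0 ≤ (B / 2) ^ 2 * (N : ℝ) ^ ε)
  have hZ : 0 ≤ B ^ 2 * (N : ℝ) ^ ε * (N : ℝ) ^ (-K') := by positivity
  have hW : (B / 2) ^ 2 * ((N : ℝ) ^ ε * (N : ℝ) ^ (-K') + (N : ℝ) ^ ε * (N : ℝ) ^ (-K')) = 1 / 2 * (B ^ 2 * (N : ℝ) ^ ε * (N : ℝ) ^ (-K')) := by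
    ring
  linarith

end Row

end

end Pool.Agent.W_7d29a1_C0.E2aD81
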