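import Pool.Agent.W_7d29a1_C0.Slab19B
import Pool.Agent.W_7d29a1_C0.CumB82

/-!
CURV0 (MP_7d29a1_pr), section SM: replica functionals of the Gibbs measure and the slab derivative LOCALISED at the replicas.
Part 1: the calculus of `rep m w Ψ` (`nxt A Ψ` = the insertion of `A`, CumB82), integration by parts over a slab for a replica
functional. (helper41)
-/

set_option autoImplicit false
set_option linter.unusedSectionVars false
set_option linter.unusedVariables false

namespace Pool.W7d29a1.C0.H41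

open MeasureTheory ProbabilityTheory Filter Topology Finset
open Pool.Agent.W_7d29a1_F Pool.Agent.W_7d29a1_C0.H32 Pool.W7d29a1.C0

noncomputable section

variable {X : Type*} [Fintype X] [Nonempty X]

/-! ### Algebra of the replica averages -/

theorem rep_add (m : ℕ) (w : X → ℝ) (Ψ Φ : (Fin m → X) → ℝ) :
    rep m w (fun x => Ψ x + Φ x) = rep m w Ψ + rep m w Φ := by
  unfold rep
  rw [← add_div, ← Finset.sum_add_distrib]
  congr 1
  exact Finset.sum_congr rfl fun x _ => by ring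

theorem rep_sub (m : ℕ) (w : X → ℝ) (Ψ Φ : (Fin m → X) → ℝ) :
    rep m w (fun x => Ψ x - Φ x) = rep m w Ψ - rep m w Φ := by
  unfold rep
  rw [← sub_div, ← Finset.sum_sub_distrib]
  congr 1
  exact Finset.sum_congr rfl fun x _ => by ring

theorem rep_zero_fun (m : ℕ) (w : X → ℝ) : rep m w (fun _ => 0) = 0 := by
  unfold rep
  simp

theorem rep_sum {J : Type*} (s : Finset J) (m : ℕ) (w : X → ℝ) (Ψ : J → (Fin m → X) → ℝ) :
    rep m w (fun x => ∑ j ∈ s, Ψ j x) = ∑ j ∈ s, rep m w (Ψ j) := by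
  classical
  induction s using Finset.induction_on with
  | empty => simp [rep_zero_fun]
  | insert a s ha ih =>
    simp only [Finset.sum_insert ha]
    rw [rep_add, ih]

theorem rep_nonneg (m : ℕ) (w : X → ℝ) {Ψ : (Fin m → X) → ℝ} (h : ∀ x, 0 ≤ Ψ x) : 0 ≤ rep m w Ψ := by
  rw [← rep_zero_fun m w]
  exact rep_mono m w h

theorem rep_one (m : ℕ) (w : X → ℝ) : rep m w (fun _ => 1) = 1 := by
  induction m with
  | zero => simp [rep]
  | succ m ih => exact (rep_tail m w fun _ => 1).trans ih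

theorem rep_const (m : ℕ) (w : X → ℝ) (c : ℝ) : rep m w (fun _ => c) = c := by
  have h := rep_smul m w c (fun _ => 1)
  rw [rep_one, mul_one] at h
  exact h

theorem abs_rep_le_of (m : ℕ) (w : X → ℝ) {Ψ : (Fin m → X) → ℝ} {D : ℝ} (h : ∀ x, |Ψ x| ≤ D) : |rep m w Ψ| ≤ D := by
  refine (abs_rep_le m w h).trans_eq (rep_const m w D)

theorem rep_congr (m : ℕ) (w : X → ℝ) {Ψ Φ : (Fin m → X) → ℝ} (h : ∀ x, Ψ x = Φ x) : rep m w Ψ = rep m w Φ := by
  rw [funext h]

/-- The derivative of a replica average along any curve of weights. -/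
theorem hasDerivAt_rep_gen (m : ℕ) (Ψ : (Fin m → X) → ℝ) {w : ℝ → X → ℝ} {A : X → ℝ} {t : ℝ} (h : HasDerivAt w A t) :
    HasDerivAt (fun t => rep m (w t) Ψ) (rep (m + 1) (w t) (nxt A Ψ)) t := by
  have hc : ContDiff ℝ 1 fun v : X → ℝ => rep m v Ψ := by
    unfold rep
    refine ContDiff.div (ContDiff.sum fun x _ => ?_) ((gz_contDiff.of_le (by norm_num)).pow m) fun v => pow_ne_zero _ (gz_ne v)
    exact (Real.contDiff_exp.comp (ContDiff.sum fun i _ => contDiff_apply ℝ ℝ (x i))).mul contDiff_const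
  have hd : HasFDerivAt (fun v : X → ℝ => rep m v Ψ) (fderiv ℝ (fun v : X → ℝ => rep m v Ψ) (w t)) (w t) :=
    ((hc.differentiable (by norm_num)) (w t)).hasFDerivAt
  have h1 := hd.comp_hasDerivAt t h
  have h2 : HasDerivAt (fun u : ℝ => rep m (w t + u • A) Ψ) (fderiv ℝ (fun v : X → ℝ => rep m v Ψ) (w t) A) 0 := by
    have h3 : HasFDerivAt (fun v : X → ℝ => rep m v Ψ) (fderiv ℝ (fun v : X → ℝ => rep m v Ψ) (w t)) (w t + (0 : ℝ) • A) := by
      rw [zero_smul, add_zero]
      exact hd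
    exact h3.comp_hasDerivAt 0 (hasDerivAt_line (w t) A 0)
  have h4 := h2.unique (hasDerivAt_rep m (w t) A Ψ)
  rw [← h4]
  exact h1

theorem rep_contDiff (m : ℕ) (Ψ : (Fin m → X) → ℝ) : ContDiff ℝ 2 fun v : X → ℝ => rep m v Ψ := by
  unfold rep
  refine ContDiff.div (ContDiff.sum fun x _ => ?_) ((gz_contDiff.of_le (by exact WithTop.coe_le_coe.2 le_top)).pow m)
    fun v => pow_ne_zero _ (gz_ne v)
  exact (Real.contDiff_exp.comp (ContDiff.sum fun i _ => contDiff_apply ℝ ℝ (x i))).mul contDiff_const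

theorem fderiv_rep (m : ℕ) (Ψ : (Fin m → X) → ℝ) (w A : X → ℝ) :
    fderiv ℝ (fun v : X → ℝ => rep m v Ψ) w A = rep (m + 1) w (nxt A Ψ) := by
  have h2 : HasDerivAt (fun u : ℝ => rep m (w + u • A) Ψ) (fderiv ℝ (fun v : X → ℝ => rep m v Ψ) w A) 0 := by
    have h3 : HasFDerivAt (fun v : X → ℝ => rep m v Ψ) (fderiv ℝ (fun v : X → ℝ => rep m v Ψ) w) (w + (0 : ℝ) • A) := by
      rw [zero_smul, add_zero]
      exact (((rep_contDiff m Ψ).differentiable (by norm_num)) w).hasFDerivAt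
    exact h3.comp_hasDerivAt 0 (hasDerivAt_line w A 0)
  exact h2.unique (hasDerivAt_rep m w A Ψ)

/-- The two insertions commute. -/
theorem rep_swap (m : ℕ) (Ψ : (Fin m → X) → ℝ) (w A B : X → ℝ) :
    rep (m + 2) w (nxt A (nxt B Ψ)) = rep (m + 2) w (nxt B (nxt A Ψ)) := by
  have hs : ContDiff ℝ 2 fun v : X → ℝ => rep m v Ψ := rep_contDiff m Ψ
  have hd : DifferentiableAt ℝ (fderiv ℝ fun v : X → ℝ => rep m v Ψ) w :=
    ((hs.fderiv_right (m := 1) (by norm_num)).differentiable (by norm_num)) w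
  have key : ∀ a b : X → ℝ, rep (m + 2) w (nxt a (nxt b Ψ)) =
      fderiv ℝ (fderiv ℝ fun v : X → ℝ => rep m v Ψ) w a b := fun a b => by
    have e1 : (fun v : X → ℝ => rep (m + 1) v (nxt b Ψ)) = fun v => fderiv ℝ (fun v : X → ℝ => rep m v Ψ) v b :=
      funext fun v => (fderiv_rep m Ψ v b).symm
    rw [← fderiv_rep (m + 1) (nxt b Ψ) w a, e1, fderiv_clm_apply hd (differentiableAt_const b)]
    simp
  rw [key, key]
  have h2 : minSmoothness ℝ 2 ≤ (2 : WithTop ℕ∞) := by
    rw [minSmoothness_of_isRCLikeNormedField]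
  exact (hs.contDiffAt.isSymmSndFDerivAt h2) A B

theorem nxt_smul {m : ℕ} (c : ℝ) (A : X → ℝ) (Ψ : (Fin m → X) → ℝ) (x : Fin (m + 1) → X) :
    nxt (c • A) Ψ x = c * nxt A Ψ x := by
  unfold nxt
  simp only [Pi.smul_apply, smul_eq_mul]
  rw [← Finset.mul_sum]
  ring

theorem nxt_sumA {J : Type*} (s : Finset J) {m : ℕ} (A : J → X → ℝ) (Ψ : (Fin m → X) → ℝ) (x : Fin (m + 1) → X) :
    nxt (∑ j ∈ s, A j) Ψ x = ∑ j ∈ s, nxt (A j) Ψ x := by
  unfold nxt
  simp only [Finset.sum_apply]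
  rw [← Finset.mul_sum, Finset.sum_sub_distrib, Finset.sum_comm, Finset.mul_sum]

/-- The insertion of the path functional of a field. -/
theorem rep_nxt_Cf {m : ℕ} (S : Finset Pt) (c : Pt → Env → ℝ) (N : Pt → X → ℝ) (η : Env) (Ψ : (Fin m → X) → ℝ) (w : X → ℝ) :
    rep (m + 1) w (nxt (H19.Cf S c N η) Ψ) = ∑ p ∈ S, c p η * rep (m + 1) w (nxt (N p) Ψ) := by
  have e : ∀ x, nxt (H19.Cf S c N η) Ψ x = ∑ p ∈ S, c p η * nxt (N p) Ψ x := fun x => by
    unfold H19.Cf
    rw [nxt_sumA]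
    exact Finset.sum_congr rfl fun p _ => nxt_smul _ _ _ _
  rw [rep_congr _ _ e, rep_sum]
  exact Finset.sum_congr rfl fun p _ => rep_smul _ _ _ _

/-- The trivial bound of an insertion. -/
theorem abs_nxt_le {m : ℕ} {A : X → ℝ} {Ψ : (Fin m → X) → ℝ} {a D : ℝ} (hA : ∀ y, |A y| ≤ a) (hΨ : ∀ x, |Ψ x| ≤ D)
    (x : Fin (m + 1) → X) : |nxt A Ψ x| ≤ D * (2 * m * a) := by
  unfold nxt
  rw [abs_mul]
  have h0 : 0 ≤ D := (abs_nonneg _).trans (hΨ (Fin.tail x))
  refine mul_le_mul (hΨ _) ?_ (abs_nonneg _) h0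
  refine (abs_sub _ _).trans ?_
  have s1 : |∑ i : Fin m, A (x i.succ)| ≤ m * a := by
    refine (Finset.abs_sum_le_sum_abs _ _).trans ((Finset.sum_le_sum fun i _ => hA (x i.succ)).trans_eq ?_)
    rw [Finset.sum_const, Finset.card_univ, Fintype.card_fin, nsmul_eq_mul]
  have s2 : |(m : ℝ) * A (x 0)| ≤ m * a := by
    rw [abs_mul, abs_of_nonneg (by positivity : (0 : ℝ) ≤ m)]
    exact mul_le_mul_of_nonneg_left (hA _) (by positivity)
  linarith

theorem meas_rep {m : ℕ} {w : Env → X → ℝ} {Ψ : Env → (Fin m → X) → ℝ} (hw : Measurable w) (hΨ : Measurable Ψ) :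
    Measurable fun η => rep m (w η) (Ψ η) := by
  unfold rep gz
  have h1 : ∀ x, Measurable fun η => w η x := fun x => (measurable_pi_apply x).comp hw
  have h2 : ∀ x, Measurable fun η => Ψ η x := fun x => (measurable_pi_apply x).comp hΨ
  exact (Finset.measurable_sum _ fun x _ => ((Finset.measurable_sum _ fun i _ => h1 (x i)).exp).mul (h2 x)).div
    ((Finset.measurable_sum _ fun x _ => (h1 x).exp).pow_const m)

theorem meas_nxt {m : ℕ} {A : Env → X → ℝ} {Ψ : Env → (Fin m → X) → ℝ} (hA : Measurable A) (hΨ : Measurable Ψ) :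
    Measurable fun η => nxt (A η) (Ψ η) := by
  refine measurable_pi_lambda _ fun x => ?_
  unfold nxt
  have h1 : ∀ x, Measurable fun η => A η x := fun x => (measurable_pi_apply x).comp hA
  have h2 : ∀ x, Measurable fun η => Ψ η x := fun x => (measurable_pi_apply x).comp hΨ
  exact (h2 _).mul ((Finset.measurable_sum _ fun i _ => h1 _).sub ((h1 _).const_mul _))

/-! ### Integration by parts over a slab for a replica functional -/

variable {μ : Measure ℝ} {f f' : ℝ → ℝ}

theorem memLp_of_bd [IsProbabilityMeasure μ] {F : Env → ℝ} {D : ℝ} (hF : Measurable F) (hD : ∀ η, |F η| ≤ D) :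
    MemLp F 2 (law μ) :=
  MemLp.of_bound hF.aestronglyMeasurable D (ae_of_all _ fun η => by rw [Real.norm_eq_abs]; exact hD η)

/-- The data of a slab `S` and a family of log weights: the visits `N q` of the sites are the derivatives of the weights. -/
structure Wt (S : Finset Pt) (w : Env → X → ℝ) (N : Pt → X → ℝ) (V : ℝ) : Prop where
  meas : Measurable w
  der : ∀ q ∈ S, ∀ (η : Env) (x : ℝ), HasDerivAt (fun t => w (Function.update η q t)) (N q) x
  bd : ∀ q ∈ S, ∀ y, |N q y| ≤ V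

/-- A bounded replica observable. -/
structure Ob {m : ℕ} (Ψ : Env → (Fin m → X) → ℝ) (D : ℝ) : Prop where
  meas : Measurable Ψ
  bd : ∀ η x, |Ψ η x| ≤ D

/-- **Integration by parts over a slab** for the replica functional of `Ψ`, `Ψ` blind on the slab. -/
theorem rep_ibp [IsProbabilityMeasure μ] (h : DenLaw μ f f') {S : Finset Pt} {c : Pt → Env → ℝ} {M V D : ℝ}
    (b : H19.BF S c M) {w : Env → X → ℝ} {N : Pt → X → ℝ} (hw : Wt S w N V) {m : ℕ} {Ψ : Env → (Fin m → X) → ℝ}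
    (hΨ : Ob Ψ D) (hbl : ∀ q ∈ S, ∀ (η : Env) (x : ℝ), Ψ (Function.update η q x) = Ψ η) :
    ∫ η, rep (m + 1) (w η) (nxt (H19.Cf S c N η) (Ψ η)) ∂(law μ) =
      ∫ η, rep m (w η) (Ψ η) * SS (sc f f') S c η ∂(law μ) := by
  obtain ⟨K, θ0, hs⟩ := h.sg
  have hder : ∀ q ∈ S, ∀ (η : Env) (x : ℝ),
      HasDerivAt (fun t => rep m (w (Function.update η q t)) (Ψ (Function.update η q t)))
        (rep (m + 1) (w (Function.update η q x)) (nxt (N q) (Ψ (Function.update η q x)))) x := fun q hq η x => by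
    have e : ∀ t : ℝ, Ψ (Function.update η q t) = Ψ η := fun t => hbl q hq η t
    simp only [e]
    exact hasDerivAt_rep_gen m (Ψ η) (hw.der q hq η x)
  have m0 : MemLp (fun η => rep m (w η) (Ψ η)) 2 (law μ) :=
    memLp_of_bd (meas_rep hw.meas hΨ.meas) fun η => abs_rep_le_of m (w η) (hΨ.bd η)
  have m1 : ∀ q ∈ S, MemLp (fun η => rep (m + 1) (w η) (nxt (N q) (Ψ η))) 2 (law μ) := fun q hq =>
    memLp_of_bd (meas_rep hw.meas (meas_nxt measurable_const hΨ.meas)) fun η =>
      abs_rep_le_of (m + 1) (w η) fun x => abs_nxt_le (hw.bd q hq) (hΨ.bd η) x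
  have one : MemLp (fun _ : Env => (1 : ℝ)) 2 (law μ) := memLp_const 1
  have i0 : ∀ q ∈ S, Integrable (fun η => c q η * rep m (w η) (Ψ η)) (law μ) := fun q hq => by
    have := (H19.memLp_bd (b.meas q hq) (b.bd q hq) one).integrable_mul m0
    refine this.congr (ae_of_all _ fun η => ?_)
    show c q η * 1 * rep m (w η) (Ψ η) = _
    ring
  have i1 : ∀ q ∈ S, Integrable (fun η => c q η * rep (m + 1) (w η) (nxt (N q) (Ψ η))) (law μ) := fun q hq => by
    have := (H19.memLp_bd (b.meas q hq) (b.bd q hq) one).integrable_mul (m1 q hq)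
    refine this.congr (ae_of_all _ fun η => ?_)
    show c q η * 1 * rep (m + 1) (w η) (nxt (N q) (Ψ η)) = _
    ring
  have i2 : ∀ q ∈ S, Integrable (fun η => c q η * rep m (w η) (Ψ η) * sc f f' (η q)) (law μ) := fun q hq => by
    have := m0.integrable_mul (H19.memLp_SS hs (b.single hq))
    refine this.congr (ae_of_all _ fun η => ?_)
    show rep m (w η) (Ψ η) * SS (sc f f') {q} c η = _
    rw [H19.SS_single]
    ring
  have key := h.ibp_slab S (c := c) (Φ := fun η => rep m (w η) (Ψ η))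
    (Φ' := fun q η => rep (m + 1) (w η) (nxt (N q) (Ψ η))) b.self hder i0 i1 i2
  rw [← key]
  exact integral_congr_ae (ae_of_all _ fun η => rep_nxt_Cf S c N η (Ψ η) (w η))

end

end Pool.W7d29a1.C0.H41
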