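import Pool.Agent.W_7d29a1_C0.BridgeX82
import Pool.Agent.W_7d29a1_C0.Rep41

/-!
CURV0 (MP_7d29a1_pr), master page 684, (E1): the exact part. `q` = everything behind the row `z`, `pm m` = everything behind
the row `m` of the slab, `C = ∑ θ m • cE w (pm m) g` (slab average of the conditional means). Martingale identities, total
cumulance of order three, the two insertion steps, also for a pair functional with a weight `χ` (boxes). (helper82)
-/

set_option autoImplicit false
set_option linter.unusedSectionVars false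
set_option linter.unusedVariables false

namespace Pool.W7d29a1.C0

open Finset Filter Topology
open Pool.Agent.W_7d29a1_C0 Pool.W7d29a1.C0.VT31

noncomputable section

variable {X : Type*} [Fintype X] [Nonempty X] {Y Y' : Type*} [DecidableEq Y] [DecidableEq Y'] {κ : Type*}

/-! ### Zero arguments -/

theorem cm_zero_head (l : List (X → ℝ)) (w : X → ℝ) : cm ((0 : X → ℝ) :: l) w = 0 := by
  have h := cm_head_smul 0 (0 : X → ℝ) l w
  rwa [smul_zero, zero_mul] at h

theorem cm_zero_mid (k l : List (X → ℝ)) (w : X → ℝ) : cm (k ++ (0 : X → ℝ) :: l) w = 0 := by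
  rw [cm_mid]
  exact cm_zero_head _ w

/-! ### The slab average -/

/-- The average over the slab rows of the conditional means. -/
def avC (w : X → ℝ) (J : Finset κ) (θ : κ → ℝ) (pm : κ → X → Y') (g : X → ℝ) : X → ℝ := ∑ m ∈ J, θ m • cE w (pm m) g

/-- The average over the slab rows of the conditional covariances. -/
def avV (w : X → ℝ) (J : Finset κ) (θ : κ → ℝ) (pm : κ → X → Y') (q : X → Y) (g h : X → ℝ) : X → ℝ :=
  ∑ m ∈ J, θ m • cE w q (cC w (pm m) g h)

section Mart

variable {w : X → ℝ} {J : Finset κ} {θ : κ → ℝ} {pm : κ → X → Y'} {q : X → Y}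

theorem mp_avV (g h : X → ℝ) : Mp q (avV w J θ pm q g h) := Mp.sum fun m _ => (cE_meas w q _).smul _

/-- **The martingale property.** -/
theorem cE_avC (hθ : ∑ m ∈ J, θ m = 1) (hc : ∀ m ∈ J, Crs q (pm m)) (g : X → ℝ) : cE w q (avC w J θ pm g) = cE w q g := by
  unfold avC
  rw [cE_sum]
  have e : ∀ m ∈ J, cE w q (θ m • cE w (pm m) g) = θ m • cE w q g := fun m hm => by rw [cE_smul, cE_tower w (hc m hm)]
  rw [Finset.sum_congr rfl e, ← Finset.sum_smul, hθ, one_smul]

theorem cE_sub_avC (hθ : ∑ m ∈ J, θ m = 1) (hc : ∀ m ∈ J, Crs q (pm m)) (g : X → ℝ) :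
    cE w q (g - avC w J θ pm g) = 0 := by
  rw [cE_sub, cE_avC hθ hc, sub_self]

/-- The mean of the part of one row. -/
theorem cC_cE_left {p : X → Y'} (hc : Crs q p) (g h : X → ℝ) :
    cC w q g h - cC w q (cE w p g) h = cE w q (cC w p g h) := by
  have h1 := total_cov w hc g h
  have h2 := total_cov w hc (cE w p g) h
  rw [cC_meas_left w (cE_meas w p g), cE_zero, zero_add, cE_of_meas w (cE_meas w p g)] at h2
  rw [h1, h2]
  abel

/-- **The micro covariance**: `cC_q(g - C, h) = avg_m cE_q (cC_m (g, h))`. -/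
theorem cC_sub_avC (hθ : ∑ m ∈ J, θ m = 1) (hc : ∀ m ∈ J, Crs q (pm m)) (g h : X → ℝ) :
    cC w q (g - avC w J θ pm g) h = avV w J θ pm q g h := by
  have e0 : g - avC w J θ pm g = ∑ m ∈ J, θ m • (g - cE w (pm m) g) := by
    unfold avC
    rw [Finset.sum_congr rfl fun m _ => smul_sub (θ m) g (cE w (pm m) g), Finset.sum_sub_distrib, ← Finset.sum_smul, hθ,
      one_smul]
  have e1 : ∀ s : Finset κ, ∀ a : κ → X → ℝ, cC w q (∑ m ∈ s, a m) h = ∑ m ∈ s, cC w q (a m) h := fun s a => by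
    classical
    induction s using Finset.induction_on with
    | empty =>
      have := cC_smul_left w q 0 0 h
      rw [smul_zero, zero_smul] at this
      simpa using this
    | insert m s hm ih => rw [Finset.sum_insert hm, Finset.sum_insert hm, cC_add_left, ih]
  rw [e0, e1]
  unfold avV
  refine Finset.sum_congr rfl fun m hm => ?_
  rw [cC_smul_left, ← cC_cE_left (hc m hm) g h]
  congr 1
  have := cC_add_left w q (g - cE w (pm m) g) (cE w (pm m) g) h
  rw [sub_add_cancel] at this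
  rw [this]
  abel

end Mart

/-! ### Total cumulance of order three -/

/-- **Total cumulance**: `f` a function of `q`. -/
theorem total3 {q : X → Y} {f : X → ℝ} (hf : Mp q f) (w a b : X → ℝ) :
    cm [a, b, f] w = cm [cE w q a, cE w q b, f] w + gc w (cC w q a b) f := by
  have hl : ∀ F ∈ [f], Mp q F := fun F hF => by rwa [List.mem_singleton.1 hF]
  have h1 : HasDerivAt (fun u : ℝ => cm [b, f] (w + u • a)) (cm [a, b, f] (w + (0 : ℝ) • a)) 0 :=
    hasDerivAt_cm_line [b, f] w a 0
  have h2 := hasDerivAt_CX (p := q) (hasDerivAt_line w a 0) [[b]] hl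
  have e : ∀ u : ℝ, cm [b, f] (w + u • a) = CX q (w + u • a) [[b]] [f] := fun u => by
    rw [CX_1, gc_cE_left _ _ hf, gc_eq_cm]
  simp_rw [← e] at h2
  have h3 := h1.unique h2
  rw [zero_smul, add_zero] at h3
  rw [h3, DX_1, CX_11, CX_2]

/-! ### (E1), the first step: a slab in front of the row `z` -/

section Step

variable {w : X → ℝ} {J : Finset κ} {θ : κ → ℝ} {pm : κ → X → Y'} {q : X → Y}

/-- The remainder of the slab derivative of a functional behind `z` is micro. -/
theorem DX_sub_avC {f : X → ℝ} (hf : Mp q f) (hθ : ∑ m ∈ J, θ m = 1) (hc : ∀ m ∈ J, Crs q (pm m)) (γ g : X → ℝ) :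
    DX q w g [[γ], [g]] [f] = DX q w (avC w J θ pm g) [[γ], [g]] [f] +
      (cm [avV w J θ pm q g γ, cE w q g, f] w + cm [cE w q γ, avV w J θ pm q g g, f] w) := by
  have hl : ∀ F ∈ [f], Mp q F := fun F hF => by rwa [List.mem_singleton.1 hF]
  rw [DX_split q w (avC w J θ pm g) g [[γ], [g]] hl, DX_11 q w (g - avC w J θ pm g)]
  congr 1
  have z1 : CX q w [[g - avC w J θ pm g], [γ], [g]] [f] = 0 := by
    show cm (kX q [g - avC w J θ pm g] w :: [kX q [γ] w, kX q [g] w, f]) w = 0
    rw [kX_one, cE_sub_avC hθ hc]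
    exact cm_zero_head _ w
  have z2 : CX q w [[g - avC w J θ pm g, γ], [g]] [f] = cm [avV w J θ pm q g γ, cE w q g, f] w := by
    show cm [kX q [g - avC w J θ pm g, γ] w, kX q [g] w, f] w = _
    rw [kX_one, kX_two, cC_sub_avC hθ hc]
  have z3 : CX q w [[γ], [g - avC w J θ pm g, g]] [f] = cm [cE w q γ, avV w J θ pm q g g, f] w := by
    show cm [kX q [γ] w, kX q [g - avC w J θ pm g, g] w, f] w = _
    rw [kX_one, kX_two, cC_sub_avC hθ hc]
  rw [z1, z2, z3]
  ring

/-- **(E1), step one**, `γ = g`: `d_t κ₃(F, F, f) = D_C κ₃(F, F, f) + 2 κ₃(V_mic, F, f)`. -/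
theorem E1_one {f : X → ℝ} (hf : Mp q f) (hθ : ∑ m ∈ J, θ m = 1) (hc : ∀ m ∈ J, Crs q (pm m)) (g : X → ℝ) :
    DX q w g [[g], [g]] [f] = DX q w (avC w J θ pm g) [[g], [g]] [f] +
      2 * cm [avV w J θ pm q g g, cE w q g, f] w := by
  rw [DX_sub_avC hf hθ hc g g]
  have e : cm [cE w q g, avV w J θ pm q g g, f] w = cm [avV w J θ pm q g g, cE w q g, f] w := by
    rw [cm_swap]
  rw [e]
  ring

/-- **The insertion step with a slab in front of `z`** (the functional sees the slab): `κ₃(V, F, f)`, `V = cE_q v`: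
`= D_C' Cov(cE_q v, f) - Cov(cC_q(C', v), f)`. -/
theorem ins_front {f : X → ℝ} (hf : Mp q f) (hθ : ∑ m ∈ J, θ m = 1) (hc : ∀ m ∈ J, Crs q (pm m)) (v g : X → ℝ) :
    cm [cE w q g, cE w q v, f] w = DX q w (avC w J θ pm g) [[v]] [f] - gc w (cC w q (avC w J θ pm g) v) f := by
  rw [DX_1, CX_11, CX_2, cE_avC hθ hc]
  ring

end Step

/-! ### The insertion step with a slab behind `z` (everything is blind on it) -/

section Behind

variable {w : X → ℝ} {J : Finset κ} {θ : κ → ℝ} {pm : κ → X → Y'} {q' : X → Y}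

/-- **The insertion step behind `z`**: `q'` = behind `z'`, the slab rows between `z` and `z'`. -/
theorem ins_behind {f : X → ℝ} (hf : Mp q' f) (hθ : ∑ m ∈ J, θ m = 1) (hc : ∀ m ∈ J, Crs q' (pm m)) (V F : X → ℝ) :
    cm [F, V, f] w = cm [avC w J θ pm F, V, f] w + gc w (avV w J θ pm q' F V) f := by
  have h1 : cm [F, V, f] w - cm [avC w J θ pm F, V, f] w = cm [F - avC w J θ pm F, V, f] w :=
    (cm_head_sub _ _ _ w).symm
  rw [total3 hf w (F - avC w J θ pm F) V, cE_sub_avC hθ hc, cm_zero_head, zero_add, cC_sub_avC hθ hc] at h1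
  linarith

end Behind

/-! ### Pair functionals with a weight -/

theorem PP_gm (w : X → ℝ) (Q : X → X → ℝ) : PP w Q = gm w fun y => gm w fun x => Q x y := by
  rw [PP_eq, Finset.sum_comm]
  unfold gm
  have hz : gz w ≠ 0 := gz_ne w
  rw [div_eq_div_iff (pow_ne_zero 2 hz) hz]
  have e : ∀ y, Real.exp (w y) * ((∑ x, Real.exp (w x) * Q x y) / gz w) = (∑ x, Real.exp (w x) * Real.exp (w y) * Q x y) / gz w :=
    fun y => by
      rw [mul_div_assoc', Finset.mul_sum]
      congr 1
      exact Finset.sum_congr rfl fun x _ => by ring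
  simp_rw [e]
  rw [← Finset.sum_div]
  field_simp

theorem PP_swap (w : X → ℝ) (Q : X → X → ℝ) : PP w (fun x y => Q y x) = PP w Q := by
  rw [PP_eq, PP_eq, Finset.sum_comm]
  congr 1
  exact Finset.sum_congr rfl fun x _ => Finset.sum_congr rfl fun y _ => by ring

/-- A factor of the first replica may be replaced by its conditional mean. -/
theorem PP_pull {q : X → Y} (w a : X → ℝ) {k : X → X → ℝ} (hk : ∀ y, Mp q fun x => k x y) :
    PP w (fun x y => a x * k x y) = PP w fun x y => cE w q a x * k x y := by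
  rw [PP_gm, PP_gm]
  congr 1
  funext y
  have h := gm_mul_cE w (hk y) a
  have e1 : (fun x => cE w q a x * k x y) = (fun x => k x y) * cE w q a := by funext x; exact mul_comm _ _
  have e2 : (fun x => a x * k x y) = (fun x => k x y) * a := by funext x; exact mul_comm _ _
  rw [e1, e2, h]

/-- The pair functional of `A` and `f` with the weight `χ`. -/
def Q2 (χ : X → X → ℝ) (A f : X → ℝ) : (Fin 2 → X) → ℝ :=
  fun x => (1 / 2) * (χ (x 0) (x 1) * ((A (x 0) - A (x 1)) * (f (x 0) - f (x 1))))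

/-- The insertion into a two replica functional. -/
theorem rep_nxt_two (w D : X → ℝ) (Ψ : (Fin 2 → X) → ℝ) :
    rep 3 w (nxt D Ψ) = rep 2 w (fun x => Ψ x * (D (x 0) + D (x 1))) - 2 * gm w D * rep 2 w Ψ := by
  have e1 : rep 3 w (fun x => (fun _ : X => (1 : ℝ)) (x 0) * (fun z : Fin 2 → X => Ψ z * (D (z 0) + D (z 1))) (Fin.tail x)) =
      gm w (fun _ => 1) * rep 2 w fun x => Ψ x * (D (x 0) + D (x 1)) :=
    rep_cons 2 w (fun _ => (1 : ℝ)) fun z => Ψ z * (D (z 0) + D (z 1))
  have e2 : rep 3 w (fun x => D (x 0) * Ψ (Fin.tail x)) = gm w D * rep 2 w Ψ := rep_cons 2 w D Ψ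
  have e3 : rep 3 w (nxt D Ψ) = rep 3 w (fun x => (fun _ : X => (1 : ℝ)) (x 0) *
      (fun z : Fin 2 → X => Ψ z * (D (z 0) + D (z 1))) (Fin.tail x)) - 2 * rep 3 w (fun x => D (x 0) * Ψ (Fin.tail x)) := by
    rw [← rep_smul, ← H41.rep_sub]
    refine H41.rep_congr _ _ fun x => ?_
    unfold nxt
    rw [Fin.sum_univ_two]
    have h0 : Fin.tail x 0 = x (Fin.succ 0) := rfl
    have h1 : Fin.tail x 1 = x (Fin.succ 1) := rfl
    simp only [h0, h1]
    push_cast
    ring
  rw [e3, e1, e2, gm_one]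
  ring

theorem rep_two_PP (w : X → ℝ) {Ψ : (Fin 2 → X) → ℝ} (Q : X → X → ℝ) (h : ∀ x, Ψ x = Q (x 0) (x 1)) :
    rep 2 w Ψ = PP w Q := by
  have e : Ψ = bs Q 0 := funext h
  rw [e]
  rfl

/-- The covariance is the pair functional with the weight one. -/
theorem rep_Q2_one (w A f : X → ℝ) : rep 2 w (Q2 (fun _ _ => 1) A f) = gc w A f := by
  rw [gc_eq_cm, cm_two, gcov_eq_PP, ← PP_smul]
  refine rep_two_PP w _ fun x => ?_
  simp only [Q2]
  ring

/-- **Total cumulance with a weight**: `D` has conditional mean zero given `q'`; `χ` and `f` are functions of `q'`. -/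
theorem rep_nxt_Q2 {q' : X → Y} {w D A f : X → ℝ} {χ : X → X → ℝ} (hD : cE w q' D = 0) (hf : Mp q' f)
    (h1 : ∀ y, Mp q' fun x => χ x y) (h2 : ∀ x, Mp q' fun y => χ x y) :
    rep 3 w (nxt D (Q2 χ A f)) = rep 2 w (Q2 χ (cC w q' D A) f) := by
  have hgD : gm w D = 0 := by
    rw [← gm_cE w q' D, hD]
    unfold gm
    simp
  have hcC : cC w q' D A = cE w q' (D * A) := by
    unfold cC
    rw [hD, zero_mul, sub_zero]
  rw [rep_nxt_two, hgD, mul_zero, zero_mul, sub_zero]
  have k1 : ∀ y, Mp q' fun x => χ x y * (f x - f y) := fun y x x' h => by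
    simp only [h1 y x x' h, hf x x' h]
  have k2 : ∀ x, Mp q' fun y => χ x y * (f x - f y) := fun x y y' h => by
    simp only [h2 x y y' h, hf y y' h]
  have e0 : rep 2 w (fun x : Fin 2 → X => Q2 χ A f x * (D (x 0) + D (x 1))) = PP w fun x y => (1 / 2) *
      (((D * A) x * (χ x y * (f x - f y)) + (-1) * (D x * (A y * (χ x y * (f x - f y))))) +
        (D y * (A x * (χ x y * (f x - f y))) + (-1) * ((D * A) y * (χ x y * (f x - f y))))) := by
    refine rep_two_PP w _ fun x => ?_
    simp only [Q2, Pi.mul_apply]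
    ring
  have e5 : rep 2 w (Q2 χ (cC w q' D A) f) = PP w fun x y => (1 / 2) * (cE w q' (D * A) x * (χ x y * (f x - f y)) +
      (-1) * (cE w q' (D * A) y * (χ x y * (f x - f y)))) := by
    refine rep_two_PP w _ fun x => ?_
    rw [hcC]
    simp only [Q2]
    ring
  rw [e0, e5, PP_smul, PP_smul]
  congr 1
  rw [PP_add w (fun x y => (D * A) x * (χ x y * (f x - f y)) + (-1) * (D x * (A y * (χ x y * (f x - f y)))))
    (fun x y => D y * (A x * (χ x y * (f x - f y))) + (-1) * ((D * A) y * (χ x y * (f x - f y)))),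
    PP_add w (fun x y => (D * A) x * (χ x y * (f x - f y))) (fun x y => (-1) * (D x * (A y * (χ x y * (f x - f y))))),
    PP_add w (fun x y => D y * (A x * (χ x y * (f x - f y)))) (fun x y => (-1) * ((D * A) y * (χ x y * (f x - f y)))),
    PP_add w (fun x y => cE w q' (D * A) x * (χ x y * (f x - f y)))
      (fun x y => (-1) * (cE w q' (D * A) y * (χ x y * (f x - f y)))), PP_smul, PP_smul, PP_smul]
  -- the four terms
  have t1 := PP_pull (q := q') w (D * A) (k := fun x y => χ x y * (f x - f y)) k1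
  have t2 : PP w (fun x y => D x * (A y * (χ x y * (f x - f y)))) = 0 := by
    rw [PP_pull (q := q') w D (k := fun x y => A y * (χ x y * (f x - f y))) (fun y x x' h => by
      simp only [h1 y x x' h, hf x x' h]), hD]
    simp [PP_eq]
  have t3 : PP w (fun x y => D y * (A x * (χ x y * (f x - f y)))) = 0 := by
    rw [← PP_swap, PP_pull (q := q') w D (k := fun x y => A y * (χ y x * (f y - f x))) (fun y x x' h => by
      simp only [h2 y x x' h, hf x x' h]), hD]
    simp [PP_eq]
  have t4 : PP w (fun x y => (D * A) y * (χ x y * (f x - f y))) = PP w fun x y => cE w q' (D * A) y * (χ x y * (f x - f y)) := by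
    rw [← PP_swap, PP_pull (q := q') w (D * A) (k := fun x y => χ y x * (f y - f x)) (fun y x x' h => k2 y x x' h), ← PP_swap]
  rw [t1, t2, t3, t4]
  ring

theorem nxt_addA82 {m : ℕ} (A A' : X → ℝ) (Ψ : (Fin m → X) → ℝ) (x : Fin (m + 1) → X) :
    nxt (A + A') Ψ x = nxt A Ψ x + nxt A' Ψ x := by
  unfold nxt
  simp only [Pi.add_apply]
  rw [Finset.sum_add_distrib]
  ring

/-- **The insertion step behind `z` with a weight** (boxes at the row `z'`): `ins_F P_χ(V, f) = ins_C' P_χ(V, f) + P_χ(U', f)`,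
`U' = avg cE_q' (cC_m (F, V))`. -/
theorem ins_behind_box {w : X → ℝ} {J : Finset κ} {θ : κ → ℝ} {pm : κ → X → Y'} {q' : X → Y} {f : X → ℝ} {χ : X → X → ℝ}
    (hf : Mp q' f) (h1 : ∀ y, Mp q' fun x => χ x y) (h2 : ∀ x, Mp q' fun y => χ x y) (hθ : ∑ m ∈ J, θ m = 1)
    (hc : ∀ m ∈ J, Crs q' (pm m)) (V F : X → ℝ) :
    rep 3 w (nxt F (Q2 χ V f)) = rep 3 w (nxt (avC w J θ pm F) (Q2 χ V f)) + rep 2 w (Q2 χ (avV w J θ pm q' F V) f) := by
  have h := rep_nxt_Q2 (A := V) (cE_sub_avC (w := w) hθ hc F) hf h1 h2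
  rw [cC_sub_avC hθ hc] at h
  rw [← h, ← H41.rep_add]
  refine H41.rep_congr _ _ fun x => ?_
  rw [← nxt_addA82, add_sub_cancel]

end

end Pool.W7d29a1.C0
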