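import Pool.Agent.W_7d29a1_C0.RowCS39

/-!
CURV0 (MP_7d29a1_pr), helper39: the row sum, part 2 (E2.7 of board 71961). Replica functionals `Q j` of two free replicas `y`, `z` times
`|f y - f z|`, with `Q j y z ≤ N y z * (∑ T, U T j y + ∑ T, U T j z)`: `N` = the two replicas do not merge (the tie of `f`), `U T j` = the
mass of the shadows of one path which have a loop of scale `T` around the row `j` (and possibly one more micro loop). The sum over
the rows is bounded by the second moment of `∑ j, U T j` in the tie of `f`, scale by scale, and this by the product prices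
`∫ PP (N * (U T j y * U T k y))` with a near - far splitting (a loop of scale `T` may contain both rows). No weighted price.
-/

set_option autoImplicit false
set_option linter.unusedSectionVars false
set_option linter.unusedVariables false

namespace Pool.W7d29a1.C0.Row39

open Finset MeasureTheory
open Pool.Agent.W_7d29a1_C0
open Pool.W7d29a1.C0.VT31 (gc gv gv_nonneg int_sqrt_mul_le)

noncomputable section

variable {X : Type*} [Fintype X] [Nonempty X] {ι τ : Type*}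

/-! ### One environment -/

/-- **Row sum with an `L²` weight**: any nonnegative functionals `Q j` of two free replicas. -/
theorem row_PP (w : X → ℝ) (S : Finset ι) (Q : ι → X → X → ℝ) (f : X → ℝ) :
    ∑ j ∈ S, PP w (fun y z => Q j y z * |f y - f z|) ≤
      Real.sqrt (PP w fun y z => (∑ j ∈ S, Q j y z) ^ 2) * Real.sqrt (2 * gv w f) := by
  have h := PP_cauchy w (fun y z => ∑ j ∈ S, Q j y z) (fun y z => f y - f z)
  rw [PP_sq_sub] at h
  refine le_trans ?_ h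
  rw [← PP_sum]
  refine PP_mono w fun y z => ?_
  rw [← Finset.sum_mul]
  exact mul_le_mul_of_nonneg_right (le_abs_self _) (abs_nonneg _)

/-- The square of the row sum, all loops on one replica. -/
theorem PP_Q_sq {w : X → ℝ} {S : Finset ι} {Q : ι → X → X → ℝ} {U : ι → X → ℝ} {N : X → X → ℝ}
    (N0 : ∀ y z, 0 ≤ N y z) (N1 : ∀ y z, N y z ≤ 1) (hN : ∀ y z, N y z = N z y) (Q0 : ∀ j ∈ S, ∀ y z, 0 ≤ Q j y z)
    (hQ : ∀ j ∈ S, ∀ y z, Q j y z ≤ N y z * (U j y + U j z)) :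
    PP w (fun y z => (∑ j ∈ S, Q j y z) ^ 2) ≤ 4 * PP w (fun y z => N y z * (∑ j ∈ S, U j y) ^ 2) := by
  have h1 : ∀ y z, (∑ j ∈ S, Q j y z) ^ 2 ≤
      2 * (N y z * (∑ j ∈ S, U j y) ^ 2) + 2 * (N z y * (∑ j ∈ S, U j z) ^ 2) := fun y z => by
    have h2 : ∑ j ∈ S, Q j y z ≤ N y z * (∑ j ∈ S, U j y + ∑ j ∈ S, U j z) := by
      refine (Finset.sum_le_sum fun j hj => hQ j hj y z).trans ?_
      rw [← Finset.mul_sum, Finset.sum_add_distrib]
    have h3 : 0 ≤ ∑ j ∈ S, Q j y z := Finset.sum_nonneg fun j hj => Q0 j hj y z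
    have h4 := pow_le_pow_left₀ h3 h2 2
    rw [← hN y z]
    set a := ∑ j ∈ S, U j y
    set b := ∑ j ∈ S, U j z
    refine h4.trans ?_
    rw [mul_pow]
    have h5 : N y z ^ 2 ≤ N y z := by nlinarith [N0 y z, N1 y z]
    have h6 : (a + b) ^ 2 ≤ 2 * a ^ 2 + 2 * b ^ 2 := by nlinarith [sq_nonneg (a - b)]
    calc N y z ^ 2 * (a + b) ^ 2 ≤ N y z * (2 * a ^ 2 + 2 * b ^ 2) :=
          mul_le_mul h5 h6 (sq_nonneg _) (N0 y z)
      _ = _ := by ring
  refine (PP_mono w h1).trans (le_of_eq ?_)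
  rw [PP_add, PP_smul, PP_smul, PP_swap w (fun y z => N y z * (∑ j ∈ S, U j y) ^ 2)]
  ring

/-- The scales are separated by Cauchy - Schwarz (a factor: the number of the scales). -/
theorem PP_scales {w : X → ℝ} {𝒯 : Finset τ} {A : τ → X → ℝ} {N : X → X → ℝ} (N0 : ∀ y z, 0 ≤ N y z) :
    PP w (fun y z => N y z * (∑ T ∈ 𝒯, A T y) ^ 2) ≤ (𝒯.card : ℝ) * ∑ T ∈ 𝒯, PP w (fun y z => N y z * A T y ^ 2) := by
  rw [← PP_sum, ← PP_smul]
  refine PP_mono w fun y z => ?_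
  have h := sq_sum_le_card_mul_sum_sq (s := 𝒯) (f := fun T => A T y)
  have h2 := mul_le_mul_of_nonneg_left h (N0 y z)
  refine h2.trans (le_of_eq ?_)
  rw [← Finset.mul_sum]
  ring

/-- **The row sum in one environment**, scale by scale. -/
theorem row_scales {w : X → ℝ} {S : Finset ι} {𝒯 : Finset τ} {Q : ι → X → X → ℝ} {U : τ → ι → X → ℝ} {N : X → X → ℝ}
    (f : X → ℝ) (N0 : ∀ y z, 0 ≤ N y z) (N1 : ∀ y z, N y z ≤ 1) (hN : ∀ y z, N y z = N z y)
    (Q0 : ∀ j ∈ S, ∀ y z, 0 ≤ Q j y z)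
    (hQ : ∀ j ∈ S, ∀ y z, Q j y z ≤ N y z * (∑ T ∈ 𝒯, U T j y + ∑ T ∈ 𝒯, U T j z)) :
    ∑ j ∈ S, PP w (fun y z => Q j y z * |f y - f z|) ≤
      Real.sqrt (4 * 𝒯.card * ∑ T ∈ 𝒯, ∑ j ∈ S, ∑ k ∈ S, PP w (fun y z => N y z * (U T j y * U T k y))) *
        Real.sqrt (2 * gv w f) := by
  refine (row_PP w S Q f).trans (mul_le_mul_of_nonneg_right (Real.sqrt_le_sqrt ?_) (Real.sqrt_nonneg _))
  refine (PP_Q_sq N0 N1 hN Q0 hQ).trans ?_
  have e : ∀ y, ∑ j ∈ S, ∑ T ∈ 𝒯, U T j y = ∑ T ∈ 𝒯, ∑ j ∈ S, U T j y := fun y => Finset.sum_comm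
  simp only [e]
  have h := PP_scales (w := w) (𝒯 := 𝒯) (A := fun T y => ∑ j ∈ S, U T j y) N0
  have h2 := mul_le_mul_of_nonneg_left h (by norm_num : (0 : ℝ) ≤ 4)
  refine h2.trans (le_of_eq ?_)
  have e2 : ∀ T ∈ 𝒯, PP w (fun y z => N y z * (∑ j ∈ S, U T j y) ^ 2) =
      ∑ j ∈ S, ∑ k ∈ S, PP w (fun y z => N y z * (U T j y * U T k y)) := fun T _ => PP_row_sum w S (U T) N
  rw [Finset.sum_congr rfl e2]
  ring

/-! ### Under the outer expectation -/

section Out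

variable {Ω : Type*} [MeasurableSpace Ω] {P : Measure Ω} {W f : Ω → X → ℝ} {S : Finset ι} {𝒯 : Finset τ}

/-- The expectation of the product of two square roots, one of them an upper bound. -/
theorem int_le_sqrt {g u v : Ω → ℝ} (hu : Integrable u P) (hv : Integrable v P) (u0 : ∀ ω, 0 ≤ u ω) (v0 : ∀ ω, 0 ≤ v ω)
    (g0 : ∀ ω, 0 ≤ g ω) (hg : ∀ ω, g ω ≤ Real.sqrt (u ω) * Real.sqrt (v ω)) :
    ∫ ω, g ω ∂P ≤ Real.sqrt (∫ ω, u ω ∂P) * Real.sqrt (∫ ω, v ω ∂P) := by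
  refine le_trans ?_ (int_sqrt_mul_le hu hv u0 v0)
  refine integral_mono_of_nonneg (Filter.Eventually.of_forall g0) ?_ (Filter.Eventually.of_forall hg)
  refine Integrable.mono' ((hu.add hv).const_mul (1 / 2)) ?_ (Filter.Eventually.of_forall fun ω => ?_)
  · exact (Real.continuous_sqrt.comp_aestronglyMeasurable hu.aestronglyMeasurable).mul
      (Real.continuous_sqrt.comp_aestronglyMeasurable hv.aestronglyMeasurable)
  · rw [Real.norm_eq_abs, abs_of_nonneg (mul_nonneg (Real.sqrt_nonneg _) (Real.sqrt_nonneg _)), Pi.add_apply]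
    nlinarith [sq_nonneg (Real.sqrt (u ω) - Real.sqrt (v ω)), Real.mul_self_sqrt (u0 ω), Real.mul_self_sqrt (v0 ω)]

/-- **E2.7, abstract form.** `A T`, `B T`: the product price of two rows which are far (not in `near T j`), resp. of any two rows;
`H T` bounds the number of near rows (a loop of scale `T` has length about `T`). -/
theorem row_final [DecidableEq ι] {Q : ι → Ω → X → X → ℝ} {U : τ → ι → Ω → X → ℝ} {N : Ω → X → X → ℝ}
    {near : τ → ι → Finset ι} {A B : τ → ℝ} {H : τ → ℕ} (N0 : ∀ ω y z, 0 ≤ N ω y z) (N1 : ∀ ω y z, N ω y z ≤ 1)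
    (hN : ∀ ω y z, N ω y z = N ω z y) (Q0 : ∀ ω, ∀ j ∈ S, ∀ y z, 0 ≤ Q j ω y z)
    (U0 : ∀ ω, ∀ T ∈ 𝒯, ∀ j ∈ S, ∀ y, 0 ≤ U T j ω y)
    (hQ : ∀ ω, ∀ j ∈ S, ∀ y z, Q j ω y z ≤ N ω y z * (∑ T ∈ 𝒯, U T j ω y + ∑ T ∈ 𝒯, U T j ω z))
    (A0 : ∀ T ∈ 𝒯, 0 ≤ A T) (B0 : ∀ T ∈ 𝒯, 0 ≤ B T)
    (hI : ∀ T ∈ 𝒯, ∀ j ∈ S, ∀ k ∈ S, Integrable (fun ω => PP (W ω) fun y z => N ω y z * (U T j ω y * U T k ω y)) P)
    (hfar : ∀ T ∈ 𝒯, ∀ j ∈ S, ∀ k ∈ S, k ∉ near T j →
      ∫ ω, PP (W ω) (fun y z => N ω y z * (U T j ω y * U T k ω y)) ∂P ≤ A T)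
    (hnear : ∀ T ∈ 𝒯, ∀ j ∈ S, ∀ k ∈ S, ∫ ω, PP (W ω) (fun y z => N ω y z * (U T j ω y * U T k ω y)) ∂P ≤ B T)
    (hcard : ∀ T ∈ 𝒯, ∀ j ∈ S, (near T j).card ≤ H T) (hf : Integrable (fun ω => gv (W ω) (f ω)) P) :
    ∫ ω, ∑ j ∈ S, PP (W ω) (fun y z => Q j ω y z * |f ω y - f ω z|) ∂P ≤
      Real.sqrt (4 * 𝒯.card * ∑ T ∈ 𝒯, ((S.card : ℝ) ^ 2 * A T + S.card * (H T * B T))) *
        Real.sqrt (2 * ∫ ω, gv (W ω) (f ω) ∂P) := by
  set u : Ω → ℝ := fun ω => 4 * 𝒯.card *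
    ∑ T ∈ 𝒯, ∑ j ∈ S, ∑ k ∈ S, PP (W ω) (fun y z => N ω y z * (U T j ω y * U T k ω y)) with hu
  have hPI : Integrable (fun ω => ∑ T ∈ 𝒯, ∑ j ∈ S, ∑ k ∈ S, PP (W ω) fun y z => N ω y z * (U T j ω y * U T k ω y)) P :=
    integrable_finsetSum _ fun T hT => integrable_finsetSum _ fun j hj => integrable_finsetSum _ fun k hk => hI T hT j hj k hk
  have hui : Integrable u P := hPI.const_mul _
  have u0 : ∀ ω, 0 ≤ u ω := fun ω => by
    rw [hu]
    refine mul_nonneg (by positivity) (Finset.sum_nonneg fun T hT => Finset.sum_nonneg fun j hj =>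
      Finset.sum_nonneg fun k hk => PP_nonneg _ fun y z => ?_)
    exact mul_nonneg (N0 ω y z) (mul_nonneg (U0 ω T hT j hj y) (U0 ω T hT k hk y))
  have v0 : ∀ ω, 0 ≤ 2 * gv (W ω) (f ω) := fun ω => mul_nonneg (by norm_num) (gv_nonneg _ _)
  have h1 := int_le_sqrt (g := fun ω => ∑ j ∈ S, PP (W ω) (fun y z => Q j ω y z * |f ω y - f ω z|)) hui
    (hf.const_mul 2) u0 v0 (fun ω => Finset.sum_nonneg fun j hj => PP_nonneg _ fun y z =>
      mul_nonneg (Q0 ω j hj y z) (abs_nonneg _))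
    (fun ω => row_scales (f ω) (N0 ω) (N1 ω) (hN ω) (Q0 ω) (hQ ω))
  refine h1.trans ?_
  rw [hu, integral_const_mul, integral_const_mul]
  refine mul_le_mul_of_nonneg_right (Real.sqrt_le_sqrt ?_) (Real.sqrt_nonneg _)
  refine mul_le_mul_of_nonneg_left ?_ (by positivity)
  rw [integral_finsetSum _ fun T hT => integrable_finsetSum _ fun j hj => integrable_finsetSum _ fun k hk => hI T hT j hj k hk]
  refine Finset.sum_le_sum fun T hT => ?_
  rw [integral_finsetSum _ fun j hj => integrable_finsetSum _ fun k hk => hI T hT j hj k hk]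
  have h2 : ∀ j ∈ S, ∫ ω, ∑ k ∈ S, PP (W ω) (fun y z => N ω y z * (U T j ω y * U T k ω y)) ∂P =
      ∑ k ∈ S, ∫ ω, PP (W ω) (fun y z => N ω y z * (U T j ω y * U T k ω y)) ∂P := fun j hj =>
    integral_finsetSum _ fun k hk => hI T hT j hj k hk
  rw [Finset.sum_congr rfl h2]
  exact double_sum_le S _ (near T) (A0 T hT) (B0 T hT) (hfar T hT) (hnear T hT) (hcard T hT)

end Out

/-! ### Rows on a line -/

/-- The rows at distance at most `H`. -/
def nearR (H j : ℕ) : Finset ℕ := Icc (j - H) (j + H)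

theorem card_nearR (H j : ℕ) : (nearR H j).card ≤ 2 * H + 1 := by
  unfold nearR
  rw [Nat.card_Icc]
  omega

theorem not_nearR {H j k : ℕ} (h : k ∉ nearR H j) : k + H < j ∨ j + H < k := by
  unfold nearR at h
  rw [Finset.mem_Icc] at h
  omega

end

end Pool.W7d29a1.C0.Row39
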