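import Pool.Agent.W_7d29a1_C0.FarH34
import Pool.Agent.W_7d29a1_C0.E1R82
import Pool.Agent.W_7d29a1_C0.Bri36
import Pool.Agent.W_7d29a1_C0.Row39B
import Pool.Agent.W_7d29a1_C0.Mart82
import Pool.Agent.W_7d29a1_C0.N59

/-!
MP_7d29a1_pr, [CURV0], (E1) of the cross term (helper34): THE CORNER PRICE OF THE NO MEETING TERMS. `xf_corner34`: at the corner the mean
of `|f - f'|` over two replicas which do not meet in `[i, i + l]` is at most the root of twice the mean variance of `f` times the root of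
`N ^ ε / EE' l`; `xf_avy34`: averaged over the ends. `xf_wt34`: the same at the interpolated weights `wj` (E0); `far_P34`: the
term with one free far replica, in the mean over the environment and the signs.
-/

set_option autoImplicit false
set_option linter.unusedSectionVars false
set_option linter.unusedVariables false

namespace Pool.Agent.W_7d29a1_C0.Far34

open Finset MeasureTheory Filter Topology Pool.Agent.W_7d29a1_F Pool.Agent.W_7d29a1_X Pool.Agent.W_7d29a1_H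
open Pool.Agent.W_7d29a1_HS (In)
open Pool.Agent.W_7d29a1_HZ (wd' EE')
open Pool.Agent.W_7d29a1_C0 Pool.Agent.W_7d29a1_C0.Mod92 Pool.Agent.W_7d29a1_C0.Swap57
open Pool.W7d29a1.C0 Pool.W7d29a1.C0.VT31
open Pool.W7d29a1.C0.Fld19 Pool.W7d29a1.C0.H27 Pool.Agent.W_7d29a1_C0.Q32
open Pool.W7d29a1.C0.T73 (pm JZ OutB bx)
open Pool.W7d29a1.C0.E1A (fr XF obs_XF)
open Pool.Agent.W_7d29a1_C0.P86 (NoMeet)
open Pool.W7d29a1.C0.Row39 (PP_cauchy PP_sq_sub int_le_sqrt)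
open Pool.Agent.W_7d29a1_C0.Bri36 (pair36)
open Pool.Agent.W_7d29a1_C0.E1M82 (UM Gd AvA abs_UM past_UM)
open Pool.W7d29a1.C0.H41 (Obs)

noncomputable section

variable {μ : Measure ℝ} {s : ℝ} {N : ℕ} {Q : Finset (Finset ℕ)}

/-! ### At fixed weights -/

theorem NI_sq (i j : ℕ) (S S' : Px Q) : NI i j S S' ^ 2 = NI i j S S' := by
  unfold NI
  split_ifs <;> norm_num

theorem rep_XF_le [Nonempty (Px Q)] (w : Px Q → ℝ) (m0 m1 : ℕ) (F : Px Q → ℝ) :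
    rep 2 w (XF m0 m1 F) ≤ Real.sqrt (2 * gv w F) * Real.sqrt (PP w (NI m0 m1)) := by
  have e1 : rep 2 w (XF m0 m1 F) = PP w fun y z => |F y - F z| * |NI m0 m1 y z| :=
    rep_two_PP w _ fun x => by
      show |F (x 0) - F (x 1)| * NI m0 m1 (x 0) (x 1) = |F (x 0) - F (x 1)| * |NI m0 m1 (x 0) (x 1)|
      rw [abs_of_nonneg (NI_nonneg _ _ _ _)]
  have e2 := PP_cauchy w (fun y z => F y - F z) (NI m0 m1)
  simp only [NI_sq] at e2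
  rw [PP_sq_sub] at e2
  rw [e1]
  exact e2

theorem NI_ind (i l : ℕ) : (NI i (i + l) : Px Q → Px Q → ℝ) = fun S S' => Bri36.ind (NoMeet i (i + l) S.1 S'.1) := by
  funext S S'
  unfold NI Bri36.ind NoMeet ps
  by_cases h : ∀ k, i ≤ k → k ≤ i + l → pos S.1 k ≠ pos S'.1 k
  · rw [if_pos h, if_pos h]
  · rw [if_neg h, if_neg h]

/-! ### At the corner -/

/-- **The no meeting term at the corner**, Cauchy Schwarz in the mean. -/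
theorem xf_cs34 [IsProbabilityMeasure μ] {c d y : ℕ} [Nonempty (Px (Pn N y))] {D : ℝ} {f : Fam N} (hf : Cls59 N c d D f) (m0 m1 : ℕ) :
    ∫ ω, rep 2 (wm μ s N (Pn N y) ω) (XF m0 m1 (f y ω)) ∂(Pm μ N) ≤
      Real.sqrt (2 * varF μ s N f y) * Real.sqrt (∫ ω, PP (wm μ s N (Pn N y) ω) (NI m0 m1) ∂(Pm μ N)) := by
  have mg : Measurable fun ω => gv (wm μ s N (Pn N y) ω) (f y ω) := meas_gv (fun S => meas_wm S) fun S => hf.meas y S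
  have mN : Measurable fun ω => PP (wm μ s N (Pn N y) ω) (NI m0 m1) :=
    Bri36.meas_PP (fun S => meas_wm S) fun S S' => measurable_const
  have i1 : Integrable (fun ω => gv (wm μ s N (Pn N y) ω) (f y ω)) (Pm μ N) :=
    Integrable.of_bound mg.aestronglyMeasurable (D ^ 2) (ae_of_all _ fun ω => by
      rw [Real.norm_eq_abs]
      exact abs_gv_le _ (hf.bdd y ω))
  have i2 : Integrable (fun ω => PP (wm μ s N (Pn N y) ω) (NI m0 m1)) (Pm μ N) :=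
    Integrable.of_bound mN.aestronglyMeasurable 1 (ae_of_all _ fun ω => by
      rw [Real.norm_eq_abs]
      exact Bri36.abs_PP_le _ fun S S' => by
        rw [abs_of_nonneg (NI_nonneg _ _ _ _)]
        exact NI_le_one _ _ _ _)
  have e1 : 2 * varF μ s N f y = ∫ ω, 2 * gv (wm μ s N (Pn N y) ω) (f y ω) ∂(Pm μ N) := (integral_const_mul _ _).symm
  rw [e1]
  exact int_le_sqrt (i1.const_mul 2) i2 (fun ω => mul_nonneg (by norm_num) (gv_nonneg _ _))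
    (fun ω => PP_nonneg _ fun _ _ => NI_nonneg _ _ _ _) (fun ω => H41.rep_nonneg 2 _ fun x => Pool.W7d29a1.C0.E1A.XF_nonneg m0 m1 _ x)
    fun ω => rep_XF_le _ _ _ _

/-- **THE CORNER PRICE.** -/
theorem xf_corner34 [IsProbabilityMeasure μ] {c₀ C₀ : ℝ} {n₀ : ℕ} (h : In μ s c₀ C₀ n₀) {ε θ : ℝ} (hε : 0 < ε) (hθ : 0 < θ) :
    ∃ δ c' : ℝ, 0 < δ ∧ 0 < c' ∧ ∃ N₀ : ℕ, ∀ N : ℕ, N₀ ≤ N → ∀ y : ℕ, y ≤ N → |(y : ℝ) - sl μ s * N| ≤ ((N : ℝ) ^ δ * wd' μ s N) →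
      ∀ (c d : ℕ) (D : ℝ) (f : Fam N), Cls59 N c d D f → ∀ i l : ℕ, (N : ℝ) ^ θ ≤ l → i + l ≤ N →
      ∫ ω, rep 2 (wm μ s N (Pn N y) ω) (XF i (i + l) (f y ω)) ∂(Pm μ N) ≤
        Real.sqrt (2 * varF μ s N f y) * Real.sqrt ((N : ℝ) ^ ε * (EE' μ s l)⁻¹ + Real.exp (-(N : ℝ) ^ c')) := by
  obtain ⟨δ, c', hδ, hc', L₀, hP⟩ := pair36 h ε θ hε hθ
  refine ⟨δ, c', hδ, hc', L₀, fun N hN y hy hyc c d D f hf i l hl hil => ?_⟩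
  have hne := ne_Pn hy
  refine (xf_cs34 hf i (i + l)).trans (mul_le_mul_of_nonneg_left (Real.sqrt_le_sqrt ?_) (Real.sqrt_nonneg _))
  rw [NI_ind]
  exact hP N hN N l (by omega) le_rfl hl i hil y hy hyc

theorem varF_nonneg34 (f : Fam N) {y : ℕ} (hy : y ≤ N) : 0 ≤ varF μ s N f y := by
  have hne := ne_Pn hy
  exact integral_nonneg fun ω => gv_nonneg _ _

theorem avy_const_le {ys : Finset ℕ} {p : ℝ} (hp : 0 ≤ p) : avy ys (fun _ => p) ≤ p := by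
  unfold avy
  rw [sum_const, nsmul_eq_mul]
  by_cases hc : ys.card = 0
  · rw [hc]
    simpa using hp
  · rw [← mul_assoc, inv_mul_cancel₀ (by exact_mod_cast hc), one_mul]

/-- **THE CORNER PRICE, averaged over the ends.** -/
theorem avy_root34 {ys : Finset ℕ} {f : Fam N} (hys : ∀ y ∈ ys, y ≤ N) {Φ : ℕ → ℝ} {p : ℝ} (hp : 0 ≤ p)
    (h : ∀ y ∈ ys, Φ y ≤ Real.sqrt (2 * varF μ s N f y) * Real.sqrt p) :
    avy ys Φ ≤ Real.sqrt (2 * avy ys (varF μ s N f)) * Real.sqrt p := by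
  have h1 := avy_cs (ys := ys) (a := Φ) (u := fun y => 2 * varF μ s N f y) (v := fun _ => p)
    (fun y hy => mul_nonneg (by norm_num) (varF_nonneg34 f (hys y hy))) (fun _ _ => hp) h
  have e1 : avy ys (fun y => 2 * varF μ s N f y) = 2 * avy ys (varF μ s N f) := by
    unfold avy
    rw [← mul_sum]
    ring
  rw [e1] at h1
  exact h1.trans (mul_le_mul_of_nonneg_left (Real.sqrt_le_sqrt (avy_const_le hp)) (Real.sqrt_nonneg _))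

/-! ### The interpolated weights, in the mean over the environment and the signs -/

theorem Zf_pB {P : Finset (Finset ℕ)} {d : ℕ} {D : ℝ} {f : Env → Px P → ℝ} (hf : Sp P d D f) {m0 m1 c1 : ℕ} (h0 : c1 ≤ m0)
    (hd : c1 ≤ d) (η : Env) {x x' : Fin 2 → Px P} (h : ∀ i, pB c1 (x i) = pB c1 (x' i)) :
    Zf m0 m1 (f η) (x 0) (x 1) = Zf m0 m1 (f η) (x' 0) (x' 1) := by
  have hp : ∀ i k, c1 ≤ k → ps (x i) k = ps (x' i) k := fun i k hk => ps_of_pB (h i) hk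
  unfold Zf
  rw [NI_of_ps (fun i hi => hp 0 i (h0.trans hi)) (fun i hi => hp 1 i (h0.trans hi)), hf.side η _ _ (sdiff_of_pB (h 0) hd),
    hf.side η _ _ (sdiff_of_pB (h 1) hd)]

/-- E0 for the no meeting term. -/
theorem xf_e0 [IsProbabilityMeasure μ] {c₀ C₀ : ℝ} {n₀ : ℕ} (h : In μ s c₀ C₀ n₀)
    (hQI : ∀ p : ℝ, 1 < p → ∃ C θ0 : ℝ, 0 ≤ C ∧ 0 < θ0 ∧ QI μ p C θ0) {κ : ℝ} (hκ : 0 < κ) (hκ1 : κ ≤ 1) {ε K' : ℝ}
    (hε : 0 < ε) (hK' : 0 ≤ K') : ∃ δ' ε₁ : ℝ, 0 < δ' ∧ 0 < ε₁ ∧ ∃ N₀ : ℕ, ∀ N : ℕ, N₀ ≤ N →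
      ∀ P : Finset (Finset ℕ), H7.Pok μ s N δ' P → ∀ c K : ℕ, (N : ℝ) ^ κ ≤ c → (N : ℝ) ^ κ ≤ K → c + K ≤ N →
      ∀ M : ℝ, 0 ≤ M → M ≤ (N : ℝ) ^ ε₁ → ∀ U : Env → Finset ℕ → ℝ, Past c U → (∀ η S, |U η S| ≤ M) →
      ∀ (d : ℕ) (D : ℝ) (f : Env → Px P → ℝ), Sp P d D f → c + K ≤ d → 2 * D ≤ (N : ℝ) ^ K' → ∀ m0 m1 : ℕ, c + K ≤ m0 →
      ∫ η, rep 2 (wU μ s N P U η) (XF m0 m1 (f η)) ∂(law μ) ≤
        (N : ℝ) ^ ε * (∫ η, rep 2 (lw μ s η N P) (XF m0 m1 (f η)) ∂(law μ) + (N : ℝ) ^ (-K')) := by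
  obtain ⟨δ', ε₁, hδ', hε₁, N₀, h0⟩ := e0_blind h hQI hκ hκ1 2 hε hK'
  refine ⟨δ', ε₁, hδ', hε₁, N₀, fun N hN P hP c K hc hK hcK M hM0 hM U hU hUM d D f hf hcd hDN m0 m1 hm => ?_⟩
  have key := h0 N hN P hP c K hc hK hcK M hM0 hM U hU hUM (fun η x => Zf m0 m1 (f η) (x 0) (x 1))
    (fun η x => Zf_nonneg _ _ _ _ _) (fun η x => (Zf_le (hf.bdd η) _ _).trans hDN) (fun x => meas_Zf hf m0 m1 _ _)
    (fun η x x' hx => Zf_pB hf hm hcd η hx) (fun η ζ hζ => by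
      have e : f ζ = f η := by
        refine blind_of_upd f (slb c K) (fun q hq η u => ?_) η ζ hζ
        have hq' := mem_slb.1 hq
        exact hf.upd (by omega) (by omega) η u
      simp only [e])
  simp only [XF_eq] at key
  exact key

theorem AvA_mono {φ ψ : Finset ℕ → ℝ} (h : ∀ A, φ A ≤ ψ A) : AvA N φ ≤ AvA N ψ :=
  mul_le_mul_of_nonneg_left (sum_le_sum fun A _ => h A) (by positivity)

section model

variable {δk B : ℝ} {b0 j c d y : ℕ} {D : ℝ} {f : Fam N} [Nonempty (Px (Pn N y))]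

theorem gd_wj {k : ℕ} (hB : 0 ≤ B) {Ψ : Env × Finset ℕ → (Fin k → Px (Pn N y)) → ℝ} {D : ℝ} (hΨ : ∀ A, Obs (fun η => Ψ (η, A)) D) (t : ℝ) :
    Gd fun ω => rep k (wj μ s N (Pn N y) δk B b0 j ω t) (Ψ ω) :=
  E1M82.gd_rep (fun A => E1M82.meas_wA hB A t) hΨ

theorem gd_wm {k : ℕ} {Ψ : Env × Finset ℕ → (Fin k → Px (Pn N y)) → ℝ} {D : ℝ} (hΨ : ∀ A, Obs (fun η => Ψ (η, A)) D) :
    Gd fun ω => rep k (wm μ s N (Pn N y) ω) (Ψ ω) :=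
  E1M82.gd_rep (fun A => meas_lw) hΨ

theorem obs_cls (hf : Cls59 N c d D f) (y m0 m1 : ℕ) (A : Finset ℕ) : Obs (fun η => XF m0 m1 (f y (η, A))) (2 * D) :=
  obs_XF (fun S => (hf.meas y S).comp measurable_prodMk_right) fun η S => hf.bdd y (η, A) S

end model

/-- **THE NO MEETING TERM AT THE INTERPOLATED WEIGHTS.** -/
theorem xf_wt34 [IsProbabilityMeasure μ] {c₀ C₀ : ℝ} {n₀ : ℕ} (h : In μ s c₀ C₀ n₀)
    (hQI : ∀ p : ℝ, 1 < p → ∃ C θ0 : ℝ, 0 ≤ C ∧ 0 < θ0 ∧ QI μ p C θ0) {κ : ℝ} (hκ : 0 < κ) (hκ1 : κ ≤ 1) {ε K' : ℝ}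
    (hε : 0 < ε) (hK' : 0 ≤ K') : ∃ δ' ε₁ c' : ℝ, 0 < δ' ∧ 0 < ε₁ ∧ 0 < c' ∧ ∃ N₀ : ℕ, ∀ N : ℕ, N₀ ≤ N →
      ∀ (ys : Finset ℕ), (∀ y ∈ ys, y ≤ N ∧ |(y : ℝ) - sl μ s * N| ≤ ((N : ℝ) ^ δ' * wd' μ s N)) →
      ∀ c K : ℕ, (N : ℝ) ^ κ ≤ c → (N : ℝ) ^ κ ≤ K → c + K ≤ N → ∀ (δk B : ℝ) (b0 j : ℕ), 0 ≤ B → B ≤ (N : ℝ) ^ ε₁ → j + b0 ≤ c →
      ∀ (cb d : ℕ) (D : ℝ) (f : Fam N), Cls59 N cb d D f → c + K ≤ d → 2 * D ≤ (N : ℝ) ^ K' →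
      ∀ i l : ℕ, c + K ≤ i → (N : ℝ) ^ κ ≤ l → i + l ≤ N → ∀ t ∈ Set.Icc (-1 : ℝ) 1,
      (∀ y ∈ ys, ∫ ω, rep 2 (wj μ s N (Pn N y) δk B b0 j ω t) (XF i (i + l) (f y ω)) ∂(Pm μ N) ≤
        (N : ℝ) ^ ε * (∫ ω, rep 2 (wm μ s N (Pn N y) ω) (XF i (i + l) (f y ω)) ∂(Pm μ N) + (N : ℝ) ^ (-K'))) ∧
      avy ys (fun y => ∫ ω, rep 2 (wm μ s N (Pn N y) ω) (XF i (i + l) (f y ω)) ∂(Pm μ N)) ≤
        Real.sqrt (2 * avy ys (varF μ s N f)) * Real.sqrt ((N : ℝ) ^ ε * (EE' μ s l)⁻¹ + Real.exp (-(N : ℝ) ^ c')) ∧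
      avy ys (fun y => ∫ ω, rep 2 (wj μ s N (Pn N y) δk B b0 j ω t) (XF i (i + l) (f y ω)) ∂(Pm μ N)) ≤
        (N : ℝ) ^ ε * (Real.sqrt (2 * avy ys (varF μ s N f)) * Real.sqrt ((N : ℝ) ^ ε * (EE' μ s l)⁻¹ + Real.exp (-(N : ℝ) ^ c')) +
          (N : ℝ) ^ (-K')) := by
  obtain ⟨δa, ε₁, hδa, hε₁, Na, ha⟩ := xf_e0 h hQI hκ hκ1 hε hK'
  obtain ⟨δb, c', hδb, hc', Nb, hb⟩ := xf_corner34 h hε hκ
  refine ⟨min δa δb, ε₁, c', lt_min hδa hδb, hε₁, hc', max (max Na Nb) 1, fun N hN ys hys c K hc hK hcK δk B b0 j hB hBN hj cb d D f hf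
    hcd hDN i l hci hl hil t ht => ?_⟩
  have k1 : Na ≤ N := (le_max_left _ _).trans ((le_max_left _ _).trans hN)
  have k2 : Nb ≤ N := (le_max_right _ _).trans ((le_max_left _ _).trans hN)
  have k3 : 1 ≤ N := (le_max_right _ _).trans hN
  have hNR : (1 : ℝ) ≤ N := by exact_mod_cast k3
  have cone : ∀ y ∈ ys, ∀ e, min δa δb ≤ e → |(y : ℝ) - sl μ s * N| ≤ ((N : ℝ) ^ e * wd' μ s N) := fun y hy e he =>
    (hys y hy).2.trans (mul_le_mul_of_nonneg_right (Real.rpow_le_rpow_of_exponent_le hNR he) (zero_le_one.trans (le_max_left _ _)))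
  have hp : 0 ≤ (N : ℝ) ^ ε * (EE' μ s l)⁻¹ + Real.exp (-(N : ℝ) ^ c') :=
    add_nonneg (mul_nonneg (Real.rpow_nonneg (Nat.cast_nonneg _) _) (inv_nonneg.2 (zero_le_one.trans (le_max_left _ _)))) (Real.exp_pos _).le
  have s1 : ∀ y ∈ ys, ∫ ω, rep 2 (wj μ s N (Pn N y) δk B b0 j ω t) (XF i (i + l) (f y ω)) ∂(Pm μ N) ≤
      (N : ℝ) ^ ε * (∫ ω, rep 2 (wm μ s N (Pn N y) ω) (XF i (i + l) (f y ω)) ∂(Pm μ N) + (N : ℝ) ^ (-K')) := fun y hy => by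
    have hne := ne_Pn (hys y hy).1
    have hP : H7.Pok μ s N δa (Pn N y) := Or.inr ⟨y, (hys y hy).1, cone y hy _ (min_le_left _ _), rfl⟩
    rw [(gd_wj hB (obs_cls hf y i (i + l)) t).av, (gd_wm (obs_cls hf y i (i + l))).av]
    have e1 : (N : ℝ) ^ ε * (AvA N (fun A => ∫ η, rep 2 (wm μ s N (Pn N y) (η, A)) (XF i (i + l) (f y (η, A))) ∂(law μ)) +
        (N : ℝ) ^ (-K')) = AvA N fun A => (N : ℝ) ^ ε * (∫ η, rep 2 (wm μ s N (Pn N y) (η, A)) (XF i (i + l) (f y (η, A))) ∂(law μ) +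
        (N : ℝ) ^ (-K')) := by
      rw [E1M82.AvA_mul, E1M82.AvA_add, E1M82.AvA_const]
    rw [e1]
    exact AvA_mono fun A => ha N k1 (Pn N y) hP c K hc hK hcK B hB hBN (UM μ s δk B b0 j A t) (past_UM hB δk A hj t)
      (abs_UM hB δk A ht) d D _ (sp_of_cls hf y A) hcd hDN i (i + l) hci
  have s2 := avy_root34 (μ := μ) (s := s) (f := f) (fun y hy => (hys y hy).1) hp fun y hy =>
    hb N k2 y (hys y hy).1 (cone y hy _ (min_le_right _ _)) cb d D f hf i l hl hil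
  refine ⟨s1, s2, ?_⟩
  refine (avy_mono s1).trans ?_
  have e2 : avy ys (fun y => (N : ℝ) ^ ε * (∫ ω, rep 2 (wm μ s N (Pn N y) ω) (XF i (i + l) (f y ω)) ∂(Pm μ N) + (N : ℝ) ^ (-K'))) ≤
      (N : ℝ) ^ ε * (avy ys (fun y => ∫ ω, rep 2 (wm μ s N (Pn N y) ω) (XF i (i + l) (f y ω)) ∂(Pm μ N)) + (N : ℝ) ^ (-K')) := by
    rw [avy_mul, avy_add]
    refine mul_le_mul_of_nonneg_left ?_ (Real.rpow_nonneg (Nat.cast_nonneg _) _)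
    have := avy_const_le (ys := ys) (Real.rpow_nonneg (Nat.cast_nonneg N) (-K'))
    linarith
  refine e2.trans (mul_le_mul_of_nonneg_left ?_ (Real.rpow_nonneg (Nat.cast_nonneg _) _))
  linarith

/-- **THE FAR TERM AND THE STEEP TERM OF `e1_rowP`** (helper82), in the mean over the environment and the signs. -/
theorem farP34 [IsProbabilityMeasure μ] {c₀ C₀ : ℝ} {n₀ : ℕ} (h : In μ s c₀ C₀ n₀)
    (hQI : ∀ p : ℝ, 1 < p → ∃ C θ0 : ℝ, 0 ≤ C ∧ 0 < θ0 ∧ QI μ p C θ0) {κ : ℝ} (hκ : 0 < κ) (hκ1 : κ ≤ 1) {ε K' ε2 : ℝ}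
    (hε : 0 < ε) (hK' : 0 ≤ K') (hε2 : 0 < ε2) : ∃ δ' ε₁ c' : ℝ, 0 < δ' ∧ 0 < ε₁ ∧ 0 < c' ∧ ∃ N₀ : ℕ, ∀ N : ℕ, N₀ ≤ N →
      ∀ y : ℕ, y ≤ N → |(y : ℝ) - sl μ s * N| ≤ ((N : ℝ) ^ δ' * wd' μ s N) →
      ∀ c K : ℕ, (N : ℝ) ^ κ ≤ c → (N : ℝ) ^ κ ≤ K → c + K ≤ N → ∀ (δk B : ℝ) (b0 j : ℕ), 0 ≤ B → B ≤ (N : ℝ) ^ ε₁ → j + b0 ≤ c →
      ∀ (cb d : ℕ) (D : ℝ) (f : Fam N), Cls59 N cb d D f → c + K ≤ d → 0 < D → 2 * D ≤ (N : ℝ) ^ K' →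
      ∀ (τ' τ : ℕ), (N : ℝ) ^ κ ≤ τ' → τ' ≤ N → τ + τ' / 4 ≤ d + 1 → ∀ (m0 m0' m1 k0 L : ℕ) (J : Finset ℕ) (R : ℝ), m0 ≤ m0' →
      c + K ≤ m0' → (∀ m ∈ J, c + K ≤ m ∧ m ≤ N ∧ τ ≤ m ∧ m ≤ τ + τ' / 4) → k0 ≤ N → (∀ i ∈ J, i - k0 ≤ L ∧ k0 - i ≤ L) → 1 ≤ R →
      (∀ k, 1 ≤ k → k ≤ L → vv μ s N ε2 k ≤ R) → wd' μ s τ' ≤ R → ∀ t ∈ Set.Icc (-1 : ℝ) 1,
      (∀ o : (Fin 2 → Fin (N + 1)) → Px (Pn N y) → ℝ, (∀ β S, 0 ≤ o β S) → (∀ β S, o β S ≤ 1) →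
        (∀ β S, o β S ≤ i1 (OutB pm (sl μ s) R (k0 : ℤ) (JZ J) β S)) →
        ∫ ω, rep 3 (wj μ s N (Pn N y) δk B b0 j ω t) (fr 2 (bx pm R (k0 : ℤ) N) o (XF m0 m1 (f y ω))) ∂(Pm μ N) ≤
          (N : ℝ) ^ ε * ((N : ℝ) ^ ε * (EE' μ s τ')⁻¹ * ∫ ω, rep 2 (wm μ s N (Pn N y) ω) (XF m0' m1 (f y ω)) ∂(Pm μ N) +
            2 * D * Real.exp (-(N : ℝ) ^ c') + (N : ℝ) ^ (-K')) + 4 * D * Real.exp (2 * B - (N : ℝ) ^ c')) ∧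
      ∀ ow : Px (Pn N y) → ℝ, (∀ S, 0 ≤ ow S) → (∀ S, ow S ≤ 1) →
        (∀ S, ow S ≤ i1 (¬ T73.Str pm (sl μ s) R (k0 : ℤ) (JZ J) S)) →
        ∫ ω, gm (wj μ s N (Pn N y) δk B b0 j ω t) ow ∂(Pm μ N) ≤ Real.exp (2 * B - (N : ℝ) ^ c') := by
  obtain ⟨δ', ε₁, c', hδ', hε₁, hc', N₀, h0⟩ := farE1_34 h hQI hκ hκ1 hε hK' hε2
  refine ⟨δ', ε₁, c', hδ', hε₁, hc', N₀, fun N hN y hy hyc c K hc hK hcK δk B b0 j hB hBN hj cb d D f hf hcd hD hDN τ' τ hτ hτN hτd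
    m0 m0' m1 k0 L J R hmm hcm hJ hk hJL hR1 hR hRt t ht => ?_⟩
  have hne := ne_Pn hy
  have key := fun A : Finset ℕ => h0 N hN y hy hyc c K hc hK hcK B hB hBN (UM μ s δk B b0 j A t) (past_UM hB δk A hj t)
    (abs_UM hB δk A ht) d D _ (sp_of_cls hf y A) hcd hD hDN τ' τ hτ hτN hτd m0 m0' m1 k0 L J R hmm hcm hJ hk hJL hR1 hR hRt
  refine ⟨fun o o0 o1 ho => ?_, fun ow ow0 ow1 how => ?_⟩
  · have g1 : Gd fun ω => rep 3 (wj μ s N (Pn N y) δk B b0 j ω t) (fr 2 (bx pm R (k0 : ℤ) N) o (XF m0 m1 (f y ω))) :=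
      gd_wj hB (fun A => Pool.W7d29a1.C0.E1A.obs_fr _ o0 o1 (obs_cls hf y m0 m1 A)) t
    rw [g1.av, (gd_wm (obs_cls hf y m0' m1)).av]
    obtain ⟨G, hG⟩ : ∃ G : Finset ℕ → ℝ, G = fun A => ∫ η, rep 2 (wm μ s N (Pn N y) (η, A)) (XF m0' m1 (f y (η, A))) ∂(law μ) :=
      ⟨_, rfl⟩
    have e1 : (N : ℝ) ^ ε * ((N : ℝ) ^ ε * (EE' μ s τ')⁻¹ * AvA N G + 2 * D * Real.exp (-(N : ℝ) ^ c') + (N : ℝ) ^ (-K')) +
        4 * D * Real.exp (2 * B - (N : ℝ) ^ c') = AvA N fun A => (N : ℝ) ^ ε * ((N : ℝ) ^ ε * (EE' μ s τ')⁻¹ * G A +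
        2 * D * Real.exp (-(N : ℝ) ^ c') + (N : ℝ) ^ (-K')) + 4 * D * Real.exp (2 * B - (N : ℝ) ^ c') := by
      rw [E1M82.AvA_add, E1M82.AvA_mul, E1M82.AvA_add, E1M82.AvA_add, E1M82.AvA_mul, E1M82.AvA_const, E1M82.AvA_const, E1M82.AvA_const]
    rw [← hG, e1]
    refine AvA_mono fun A => ?_
    rw [hG]
    exact (key A).1 o o0 ho
  · have g5 : Gd fun ω => gm (wj μ s N (Pn N y) δk B b0 j ω t) ow := by
      have h7 : Gd fun ω => rep 1 (wj μ s N (Pn N y) δk B b0 j ω t) (fun x => ow (x 0)) :=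
        gd_wj hB (D := 1) (fun A => ⟨measurable_const, fun η x => by rw [abs_of_nonneg (ow0 _)]; exact ow1 _⟩) t
      simp only [E1A.rep_at] at h7
      exact h7
    rw [g5.av]
    have e2 : Real.exp (2 * B - (N : ℝ) ^ c') = AvA N fun _ => Real.exp (2 * B - (N : ℝ) ^ c') := (E1M82.AvA_const _).symm
    rw [e2]
    exact AvA_mono fun A => (key A).2 ow ow0 how

end

end Pool.Agent.W_7d29a1_C0.Far34
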