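import Pool.Agent.W_7d29a1_C0.E2aM82
import Pool.Agent.W_7d29a1_C0.XFc34
import Pool.Agent.W_7d29a1_C0.CrAsm44
import Pool.Agent.W_7d29a1_C0.Far19C

/-!
CURV0 (MP_7d29a1_pr, helper82): (E2a) OF ONE BLOCK from the two named prices `MQ81` (the pair functional `qX` at the weights of the row) and
`RQ81` (its product with the micro mass given everything behind a row of the slab): the rows `J = [d - 4 l, d - 3 l)`, the range without
common position `[d - 3 l, d]`. `row_far82`: one row, tubes at the boxes, the far term at the corner (`farP34`); `row_cone82`: one row, the tube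
is the cone; `pe2a82`: `PE2a` of the block.
-/

set_option autoImplicit false
set_option linter.unusedSectionVars false
set_option linter.unusedVariables false

namespace Pool.Agent.W_7d29a1_C0.E2aT82

open Finset MeasureTheory Filter Topology Pool.Agent.W_7d29a1_F Pool.Agent.W_7d29a1_X Pool.Agent.W_7d29a1_H
open Pool.Agent.W_7d29a1_HS (In)
open Pool.Agent.W_7d29a1_HZ (wd' EE')
open Pool.Agent.W_7d29a1_C0 Pool.Agent.W_7d29a1_C0.Mod92 Pool.Agent.W_7d29a1_C0.Swap57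
open Pool.W7d29a1.C0 Pool.W7d29a1.C0.VT31
open Pool.W7d29a1.C0.Fld19 Pool.W7d29a1.C0.H27 Pool.Agent.W_7d29a1_C0.Q32
open Pool.W7d29a1.C0.T73 (pm JZ OutB bx chT tb_far not_OutB pm_nonneg pm_le)
open Pool.W7d29a1.C0.E1A (fr XF obs_XF Tb rep_at)
open Pool.Agent.W_7d29a1_C0.E1M82 Pool.Agent.W_7d29a1_C0.E2aM82 Pool.Agent.W_7d29a1_C0.E2aB81 Pool.Agent.W_7d29a1_C0.Far34
open Pool.Agent.W_7d29a1_C0.CrA44
open Pool.Agent.W_7d29a1_C0.H32 (DenLaw SG sc)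
open Pool.W7d29a1.C0.H41 (Obs)

noncomputable section

variable {μ : Measure ℝ} {s : ℝ} {N : ℕ}

/-! ### The two named prices -/

section defs

variable (μ : Measure ℝ) (s : ℝ) (N : ℕ) (δ B : ℝ) (b0 b : ℕ) (f : Fam N) (ys R : Finset ℕ) (c d l : ℕ) (k e : ℝ)

/-- The mean of the pair functional of the row `j`. -/
def qM (t u : ℝ) (y j : ℕ) : ℝ :=
  ∫ ω, rep 2 (wj μ s N (Pn N y) δ B b0 j ω t) (fun x => |qX μ s N δ B b0 b j u y f (d - 3 * l) d ω x|) ∂(Pm μ N)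

/-- The mean of the remainder of the row `j`, averaged over the rows of the slab. -/
def rM (t u : ℝ) (y j : ℕ) : ℝ :=
  (l : ℝ)⁻¹ * ∑ m ∈ Ico (d - 4 * l) (d - 3 * l),
    ∫ ω, rep 2 (wj μ s N (Pn N y) δ B b0 j ω t) (rX μ s N δ B b0 b j t u y f (d - 3 * l) d m ω) ∂(Pm μ N)

/-- **(MQ)** the price of the pair functional. -/
def MQ81 : Prop := ∀ t ∈ Set.Icc (-1 : ℝ) 1, ∀ u ∈ Set.Icc (-1 : ℝ) 1,
  ∑ j ∈ Rw R c d, avy ys (fun y => qM μ s N δ B b0 b f d l t u y j) ≤ k * √(avy ys (varF μ s N f)) + e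

/-- **(RQ)** the price of the remainder. -/
def RQ81 : Prop := ∀ t ∈ Set.Icc (-1 : ℝ) 1, ∀ u ∈ Set.Icc (-1 : ℝ) 1,
  ∑ j ∈ Rw R c d, avy ys (fun y => rM μ s N δ B b0 b f d l t u y j) ≤ k * √(avy ys (varF μ s N f)) + e

end defs

variable {δk B : ℝ} {b0 b j c d l cb y : ℕ} {D : ℝ} {f : Fam N}

theorem fE2a_eq (t u : ℝ) [Nonempty (Px (Pn N y))] :
    fE2a μ s N δk B b0 b f t u y j = ∫ ω, e2aX μ s N δk B b0 b j t u y f ω ∂(Pm μ N) := rfl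

/-! ### One row -/

/-- The pair functional is at most `(B / 2) ^ 2` times the no meeting term. -/
theorem abs_qX_le [Nonempty (Px (Pn N y))] (hB : 0 ≤ B) (m0 m1 : ℕ) (u : ℝ) (ω : Env × Finset ℕ) (x : Fin 2 → Px (Pn N y)) :
    |qX μ s N δk B b0 b j u y f m0 m1 ω x| ≤ (B / 2) ^ 2 * XF m0 m1 (f y ω) x := by
  have h1 : |vX μ s N δk B b0 b j u y ω (x 0)| ≤ (B / 2) ^ 2 := abs_cV_le _ _ (fun S => abs_gg hB b0 ω j S) _
  unfold qX VN XF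
  rw [abs_mul, abs_mul, abs_of_nonneg (NI_nonneg m0 m1 (x 0) (x 1)), mul_assoc]
  exact mul_le_mul_of_nonneg_right h1 (mul_nonneg (abs_nonneg _) (NI_nonneg _ _ _ _))

theorem fr_qX_le [Nonempty (Px (Pn N y))] {BB : Type*} [Fintype BB] [DecidableEq BB] {bb : Px (Pn N y) → BB}
    {o : (Fin 2 → BB) → Px (Pn N y) → ℝ} (o0 : ∀ β S, 0 ≤ o β S) (hB : 0 ≤ B) (m0 m1 : ℕ) (u t : ℝ) (ω : Env × Finset ℕ) :
    rep 3 (wj μ s N (Pn N y) δk B b0 j ω t) (fr 2 bb o (qX μ s N δk B b0 b j u y f m0 m1 ω)) ≤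
      (B / 2) ^ 2 * rep 3 (wj μ s N (Pn N y) δk B b0 j ω t) (fr 2 bb o (XF m0 m1 (f y ω))) := by
  rw [← Pool.W7d29a1.C0.rep_smul]
  refine Pool.W7d29a1.C0.rep_mono 3 _ fun x => ?_
  unfold fr
  rw [abs_of_nonneg (Pool.W7d29a1.C0.E1A.XF_nonneg m0 m1 (f y ω) _), ← mul_assoc]
  exact mul_le_mul_of_nonneg_right (abs_qX_le hB m0 m1 u ω _) (o0 _ _)

/-- The slab of the gap. -/
theorem slab82 (hb : b0 ≤ b) (hbl : b ≤ 3 * l) (hl : 1 ≤ l) (hj : j + 8 * l ≤ d) (hd : d ≤ N) :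
    Slab1 N d b0 b j (d - 3 * l) d l (Ico (d - 4 * l) (d - 3 * l)) where
  hb := hb
  hj := by omega
  m := by omega
  c3 := le_rfl
  c4 := hd
  sJ i hi := by
    have := mem_Ico.1 hi
    omega
  nJ := by
    rw [Nat.card_Ico]
    omega
  n0 := by omega

theorem rep_one_at [Nonempty (Px (Pn N y))] (w : Px (Pn N y) → ℝ) (o : Px (Pn N y) → ℝ) :
    rep 3 w (fun x => o (x 0)) = gm w o := rep_at w o 3 0

open Classical in
/-- **(E2a) OF ONE ROW, the tube is the cone.** -/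
theorem row_cone82 [IsProbabilityMeasure μ] {ff ff' : ℝ → ℝ} (hdl : DenLaw μ ff ff') {Kg θ0 : ℝ} (hs : SG μ (sc ff ff') Kg θ0)
    (hθ0 : 0 < θ0) [Nonempty (Px (Pn N y))] (hB : 0 < B) (hb : b0 ≤ b) (hbl : b ≤ 3 * l) (hl : 1 ≤ l) (hj : j + 8 * l ≤ d) (hd : d ≤ N)
    (hf : Cls59 N cb d D f) {R : ℝ} (hR1 : 1 ≤ R) (hRl : 14 * R ≤ l) (hRθ : 1 ≤ θ0 ^ 2 * (l * (14 * R))) {L : ℝ} (hL : 0 ≤ L) (t u : ℝ) :
    |fE2a μ s N δk B b0 b f t u y j| ≤ B / 2 * L * √(14 * R / l) * qM μ s N δk B b0 b f d l t u y j +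
      B * rM μ s N δk B b0 b f d l t u y j + 8 * (B / 2) ^ 3 * D *
        ∫ ω, gm (wj μ s N (Pn N y) δk B b0 j ω t) (fun S => if T73.Str pm (sl μ s) R ((0 : ℕ) : ℤ) (JZ (Ico (d - 4 * l) (d - 3 * l))) S
          then 0 else 1) ∂(Pm μ N) + 8 * (B / 2) ^ 3 * D * Real.exp (4 * Kg - L / 2) := by
  have hD0 : 0 ≤ D := (abs_nonneg _).trans (hf.bdd y (fun _ => 0, ∅) Classical.ofNonempty)
  set J := Ico (d - 4 * l) (d - 3 * l) with hJd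
  set ow : Px (Pn N y) → ℝ := fun S => if T73.Str pm (sl μ s) R ((0 : ℕ) : ℤ) (JZ J) S then 0 else 1 with how
  set o2 : (Fin 2 → Fin (0 + 1)) → Px (Pn N y) → ℝ := fun β S => if OutB pm (sl μ s) R ((0 : ℕ) : ℤ) (JZ J) β S then 1 else 0 with ho2
  have T2 : Tb N 2 (bx (pm (Q := Pn N y)) R ((0 : ℕ) : ℤ) 0) J (fun β => chT (sl μ s) R ((0 : ℕ) : ℤ) β) o2 ow (7 * (2 : ℕ) * R) :=
    tb_far (k := 2) hR1 le_rfl
  have e14 : 7 * ((2 : ℕ) : ℝ) * R = 14 * R := by push_cast; ring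
  rw [e14] at T2
  have X := slab82 hb hbl hl hj hd
  have key := e2a_P (s := s) (δ := δk) (y := y) hdl hs hB hf X T2 (by linarith) hRl hRθ hθ0 hL t u
  rw [fE2a_eq]
  refine key.trans ?_
  have hcard : (Fintype.card (Fin (0 + 1)) : ℝ) ^ 2 = 1 := by simp
  have g4 : Gd fun ω => gm (wj μ s N (Pn N y) δk B b0 j ω t) ow := by
    have h7 : Gd fun ω => rep 1 (wj μ s N (Pn N y) δk B b0 j ω t) (fun x => ow (x 0)) :=
      gd_wj hB.le (D := 1) (fun A => ⟨measurable_const, fun η x => by rw [abs_of_nonneg (T2.w0 _)]; exact T2.w1 _⟩) t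
    simp only [rep_at] at h7
    exact h7
  have hfar : ∫ ω, rep 3 (wj μ s N (Pn N y) δk B b0 j ω t) (fr 2 (bx pm R ((0 : ℕ) : ℤ) 0) o2 (qX μ s N δk B b0 b j u y f (d - 3 * l) d ω)) ∂(Pm μ N) ≤
      2 * (B / 2) ^ 2 * D * ∫ ω, gm (wj μ s N (Pn N y) δk B b0 j ω t) ow ∂(Pm μ N) := by
    have hjN : j + b ≤ N := by omega
    have g3 : Gd fun ω => rep 3 (wj μ s N (Pn N y) δk B b0 j ω t) (fr 2 (bx pm R ((0 : ℕ) : ℤ) 0) o2 (qX μ s N δk B b0 b j u y f (d - 3 * l) d ω)) :=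
      gd_wj hB.le (fun A => Pool.W7d29a1.C0.E1A.obs_fr _ T2.o0 T2.o1 (obs_qX hB.le hf hb hjN A u)) t
    rw [g3.av, g4.av, ← AvA_mul]
    refine AvA_mono fun A => ?_
    rw [← integral_const_mul]
    refine integral_mono (g3.int A) ((g4.int A).const_mul _) fun η => ?_
    show rep 3 _ _ ≤ 2 * (B / 2) ^ 2 * D * gm _ _
    rw [← rep_one_at, ← Pool.W7d29a1.C0.rep_smul]
    refine Pool.W7d29a1.C0.rep_mono 3 _ fun x => ?_
    unfold fr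
    have h1 : |qX μ s N δk B b0 b j u y f (d - 3 * l) d (η, A) (Fin.tail x)| ≤ 2 * (B / 2) ^ 2 * D := (obs_qX hB.le hf hb hjN A u).bd η _
    exact mul_le_mul h1 (T2.own _ 0 _ (Subsingleton.elim (α := Fin 1) _ _)) (T2.o0 _ _) (by positivity)
  rw [hcard, mul_one]
  have h1 := mul_le_mul_of_nonneg_left hfar hB.le
  unfold qM rM
  have e3 : B * (2 * (B / 2) ^ 2 * D * ∫ ω, gm (wj μ s N (Pn N y) δk B b0 j ω t) ow ∂(Pm μ N)) +
      4 * (B / 2) ^ 3 * D * ∫ ω, gm (wj μ s N (Pn N y) δk B b0 j ω t) ow ∂(Pm μ N) =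
      8 * (B / 2) ^ 3 * D * ∫ ω, gm (wj μ s N (Pn N y) δk B b0 j ω t) ow ∂(Pm μ N) := by ring
  linarith

/-- The mean of the no meeting term at the corner. -/
def xM (μ : Measure ℝ) (s : ℝ) (N : ℕ) (f : Fam N) (d l y : ℕ) : ℝ :=
  ∫ ω, rep 2 (wm μ s N (Pn N y) ω) (XF (d - 3 * l) d (f y ω)) ∂(Pm μ N)

/-- **(E2a) OF ONE ROW, tubes at the boxes.** -/
theorem row_far82 [IsProbabilityMeasure μ] {c₀ C₀ : ℝ} {n₀ : ℕ} (h : In μ s c₀ C₀ n₀)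
    (hQI : ∀ p : ℝ, 1 < p → ∃ C θ0 : ℝ, 0 ≤ C ∧ 0 < θ0 ∧ QI μ p C θ0) {ff ff' : ℝ → ℝ} (hdl : DenLaw μ ff ff') {Kg θ0 : ℝ}
    (hs : SG μ (sc ff ff') Kg θ0) (hθ0 : 0 < θ0) {κ : ℝ} (hκ : 0 < κ) (hκ1 : κ ≤ 1) {ε K' ε2 : ℝ} (hε : 0 < ε) (hK' : 0 ≤ K')
    (hε2 : 0 < ε2) : ∃ δ' ε₁ c' : ℝ, 0 < δ' ∧ 0 < ε₁ ∧ 0 < c' ∧ ∃ N₀ : ℕ, ∀ N : ℕ, N₀ ≤ N →
      ∀ y : ℕ, y ≤ N → |(y : ℝ) - sl μ s * N| ≤ ((N : ℝ) ^ δ' * wd' μ s N) →
      ∀ (δk B : ℝ) (b0 b j d l cb : ℕ) (D : ℝ) (f : Fam N), 0 < B → B ≤ (N : ℝ) ^ ε₁ → b0 ≤ b → (N : ℝ) ^ κ ≤ b → (N : ℝ) ^ κ ≤ l →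
      b ≤ 3 * l → j + 8 * l ≤ d → d ≤ N → Cls59 N cb d D f → 0 < D → 2 * D ≤ (N : ℝ) ^ K' → ∀ (k0 Lk : ℕ) (R : ℝ), k0 ≤ N →
      (∀ i ∈ Ico (d - 4 * l) (d - 3 * l), i - k0 ≤ Lk ∧ k0 - i ≤ Lk) → 1 ≤ R →
      (∀ k, 1 ≤ k → k ≤ Lk → vv μ s N ε2 k ≤ R) → wd' μ s (4 * l) ≤ R → 14 * R ≤ l → 1 ≤ θ0 ^ 2 * (l * (14 * R)) →
      ∀ L : ℝ, 0 ≤ L → ∀ t ∈ Set.Icc (-1 : ℝ) 1, ∀ u : ℝ,
      (|fE2a μ s N δk B b0 b f t u y j| ≤ B / 2 * L * √(14 * R / l) * qM μ s N δk B b0 b f d l t u y j +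
        B * rM μ s N δk B b0 b f d l t u y j +
        B * (B / 2) ^ 2 * ((N : ℝ) ^ ε * ((N : ℝ) ^ ε * (EE' μ s (4 * l))⁻¹ * xM μ s N f d l y + 2 * D * Real.exp (-(N : ℝ) ^ c') +
          (N : ℝ) ^ (-K')) + 4 * D * Real.exp (2 * B - (N : ℝ) ^ c')) + 4 * (B / 2) ^ 3 * D * Real.exp (2 * B - (N : ℝ) ^ c') +
        8 * (B / 2) ^ 3 * D * ((N + 1 : ℕ) : ℝ) ^ 2 * Real.exp (4 * Kg - L / 2)) ∧
      (k0 = 0 → |fE2a μ s N δk B b0 b f t u y j| ≤ B / 2 * L * √(14 * R / l) * qM μ s N δk B b0 b f d l t u y j +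
        B * rM μ s N δk B b0 b f d l t u y j + 8 * (B / 2) ^ 3 * D * Real.exp (2 * B - (N : ℝ) ^ c') +
        8 * (B / 2) ^ 3 * D * Real.exp (4 * Kg - L / 2)) := by
  classical
  obtain ⟨δ', ε₁, c', hδ', hε₁, hc', N₀, h0⟩ := farP34 h hQI hκ hκ1 hε hK' hε2
  refine ⟨δ', ε₁, c', hδ', hε₁, hc', max N₀ 1, fun N hN y hy hyc δk B b0 b j d l cb D f hB hBN hb hbκ hlκ hbl hjd hdN hf hD hDN k0 Lk R
    hk0 hJL hR1 hR hRt hRl hRθ L hL t ht u => ?_⟩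
  have hne := ne_Pn hy
  have k1 : N₀ ≤ N := (le_max_left _ _).trans hN
  have k2 : (1 : ℝ) ≤ N := by exact_mod_cast (le_max_right _ _).trans hN
  have hl1 : 1 ≤ l := by
    have h1 : (1 : ℝ) ≤ (l : ℝ) := (Real.one_le_rpow k2 hκ.le).trans hlκ
    exact_mod_cast h1
  have hjb : (N : ℝ) ^ κ ≤ ((j + b : ℕ) : ℝ) := hbκ.trans (by push_cast; linarith [(Nat.cast_nonneg j : (0 : ℝ) ≤ (j : ℝ))])
  have h4l : (N : ℝ) ^ κ ≤ ((4 * l : ℕ) : ℝ) := hlκ.trans (by push_cast; linarith [(Nat.cast_nonneg l : (0 : ℝ) ≤ (l : ℝ))])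
  have key := h0 N k1 y hy hyc (j + b) l hjb hlκ (by omega) δk B b0 j hB.le hBN (by omega) cb d D f hf (by omega) hD hDN (4 * l)
    (d - 4 * l) h4l (by omega) (by omega) (d - 3 * l) (d - 3 * l) d k0 Lk (Ico (d - 4 * l) (d - 3 * l)) R le_rfl (by omega)
    (fun m hm => by
      have := mem_Ico.1 hm
      omega) hk0 hJL hR1 hR hRt t ht
  have X := slab82 hb hbl hl1 hjd hdN
  set J := Ico (d - 4 * l) (d - 3 * l) with hJd
  have e14 : 7 * ((2 : ℕ) : ℝ) * R = 14 * R := by push_cast; ring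
  refine ⟨?_, fun hk => ?_⟩
  · set ow : Px (Pn N y) → ℝ := fun S => if T73.Str pm (sl μ s) R (k0 : ℤ) (JZ J) S then 0 else 1 with how
    set o2 : (Fin 2 → Fin (N + 1)) → Px (Pn N y) → ℝ := fun β S => if OutB pm (sl μ s) R (k0 : ℤ) (JZ J) β S then 1 else 0 with ho2
    have T2 : Tb N 2 (bx (pm (Q := Pn N y)) R (k0 : ℤ) N) J (fun β => chT (sl μ s) R (k0 : ℤ) β) o2 ow (7 * (2 : ℕ) * R) :=
      tb_far (k := 2) hR1 hk0
    rw [e14] at T2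
    have main := e2a_P (s := s) (δ := δk) (y := y) hdl hs hB hf X T2 (by linarith) hRl hRθ hθ0 hL t u
    have f1 := key.1 o2 T2.o0 T2.o1 fun β S => le_of_eq (by rw [ho2]; unfold i1; congr)
    have f2 := key.2 ow T2.w0 T2.w1 fun S => le_of_eq (by
      rw [how]
      unfold i1
      by_cases h1 : T73.Str pm (sl μ s) R (k0 : ℤ) (JZ J) S
      · simp only [if_pos h1, if_neg (not_not.2 h1)]
      · simp only [if_neg h1, if_pos h1])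
    rw [fE2a_eq]
    refine main.trans ?_
    have hjN : j + b ≤ N := by omega
    have g3 : Gd fun ω => rep 3 (wj μ s N (Pn N y) δk B b0 j ω t) (fr 2 (bx pm R (k0 : ℤ) N) o2 (qX μ s N δk B b0 b j u y f (d - 3 * l) d ω)) :=
      gd_wj hB.le (fun A => Pool.W7d29a1.C0.E1A.obs_fr _ T2.o0 T2.o1 (obs_qX hB.le hf hb hjN A u)) t
    have g4 : Gd fun ω => rep 3 (wj μ s N (Pn N y) δk B b0 j ω t) (fr 2 (bx pm R (k0 : ℤ) N) o2 (XF (d - 3 * l) d (f y ω))) :=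
      gd_wj hB.le (fun A => Pool.W7d29a1.C0.E1A.obs_fr _ T2.o0 T2.o1 (obs_cls hf y (d - 3 * l) d A)) t
    have f3 : ∫ ω, rep 3 (wj μ s N (Pn N y) δk B b0 j ω t) (fr 2 (bx pm R (k0 : ℤ) N) o2 (qX μ s N δk B b0 b j u y f (d - 3 * l) d ω)) ∂(Pm μ N) ≤
        (B / 2) ^ 2 * ∫ ω, rep 3 (wj μ s N (Pn N y) δk B b0 j ω t) (fr 2 (bx pm R (k0 : ℤ) N) o2 (XF (d - 3 * l) d (f y ω))) ∂(Pm μ N) := by
      rw [g3.av, g4.av, ← AvA_mul]
      refine AvA_mono fun A => ?_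
      rw [← integral_const_mul]
      exact integral_mono (g3.int A) ((g4.int A).const_mul _) fun η => fr_qX_le T2.o0 hB.le _ _ u t (η, A)
    rw [Fintype.card_fin]
    have f4 := mul_le_mul_of_nonneg_left (f3.trans (mul_le_mul_of_nonneg_left f1 (by positivity))) hB.le
    have f5 := mul_le_mul_of_nonneg_left f2 (by positivity : 0 ≤ 4 * (B / 2) ^ 3 * D)
    unfold qM rM xM
    have e3 : B * ((B / 2) ^ 2 * ((N : ℝ) ^ ε * ((N : ℝ) ^ ε * (EE' μ s (4 * l))⁻¹ *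
        ∫ ω, rep 2 (wm μ s N (Pn N y) ω) (XF (d - 3 * l) d (f y ω)) ∂(Pm μ N) + 2 * D * Real.exp (-(N : ℝ) ^ c') + (N : ℝ) ^ (-K')) +
          4 * D * Real.exp (2 * B - (N : ℝ) ^ c'))) = B * (B / 2) ^ 2 * ((N : ℝ) ^ ε * ((N : ℝ) ^ ε * (EE' μ s (4 * l))⁻¹ *
        ∫ ω, rep 2 (wm μ s N (Pn N y) ω) (XF (d - 3 * l) d (f y ω)) ∂(Pm μ N) + 2 * D * Real.exp (-(N : ℝ) ^ c') + (N : ℝ) ^ (-K')) +
          4 * D * Real.exp (2 * B - (N : ℝ) ^ c')) := by ring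
    rw [e3] at f4
    linarith
  · subst hk
    have f2 := key.2 (fun S => if T73.Str pm (sl μ s) R ((0 : ℕ) : ℤ) (JZ J) S then 0 else 1) (fun S => by split_ifs <;> norm_num)
      (fun S => by split_ifs <;> norm_num) fun S => le_of_eq (by
      unfold i1
      by_cases h1 : T73.Str pm (sl μ s) R ((0 : ℕ) : ℤ) (JZ J) S
      · simp only [if_pos h1, if_neg (not_not.2 h1)]
      · simp only [if_neg h1, if_pos h1])
    have main := row_cone82 (s := s) (δk := δk) (y := y) hdl hs hθ0 hB hb hbl hl1 hjd hdN hf hR1 hRl hRθ hL t u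
    refine main.trans ?_
    have f5 := mul_le_mul_of_nonneg_left f2 (by positivity : 0 ≤ 8 * (B / 2) ^ 3 * D)
    linarith

/-! ### The block -/

theorem avy_abs_le {ys : Finset ℕ} {Φ Ψ : ℕ → ℝ} (h : ∀ y ∈ ys, |Φ y| ≤ Ψ y) : |avy ys Φ| ≤ avy ys Ψ := by
  rw [abs_le]
  constructor
  · have h1 : avy ys (fun y => -1 * Ψ y) ≤ avy ys Φ := avy_mono fun y hy => by
      have := (abs_le.1 (h y hy)).1
      linarith
    rw [avy_mul] at h1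
    linarith
  · exact avy_mono fun y hy => (abs_le.1 (h y hy)).2

/-- **(E2a) OF ONE BLOCK** from the rows. -/
theorem pe2a_sum {ys Rr : Finset ℕ} {c r : ℕ} {A K1 K2 e1 e2 F p e0 : ℝ} (hys : ∀ y ∈ ys, y ≤ N) (hA : 0 ≤ A) (hB : 0 ≤ B)
    (hF : 0 ≤ F) (hp : 0 ≤ p) (he0 : 0 ≤ e0) (hM : MQ81 μ s N δk B b0 b f ys Rr c d l K1 e1) (hR : RQ81 μ s N δk B b0 b f ys Rr c d l K2 e2)
    (hr : (Rw Rr c d).card ≤ r) (hrow : ∀ t ∈ Set.Icc (-1 : ℝ) 1, ∀ u ∈ Set.Icc (-1 : ℝ) 1, ∀ j ∈ Rw Rr c d, ∀ y ∈ ys,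
      |fE2a μ s N δk B b0 b f t u y j| ≤ A * qM μ s N δk B b0 b f d l t u y j + B * rM μ s N δk B b0 b f d l t u y j +
        F * xM μ s N f d l y + e0)
    (hX : ∀ y ∈ ys, xM μ s N f d l y ≤ √(2 * varF μ s N f y) * √p) :
    PE2a μ s N δk B b0 b f ys Rr c d (A * K1 + B * K2 + r * F * (√2 * √p)) (A * e1 + B * e2 + r * e0) := by
  intro t ht u hu
  have h1 : ∀ j ∈ Rw Rr c d, |avy ys (fE2a μ s N δk B b0 b f t u · j)| ≤ A * avy ys (fun y => qM μ s N δk B b0 b f d l t u y j) +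
      B * avy ys (fun y => rM μ s N δk B b0 b f d l t u y j) + (F * (√2 * √p * √(avy ys (varF μ s N f))) + e0) := fun j hj => by
    refine (avy_abs_le fun y hy => hrow t ht u hu j hj y hy).trans ?_
    rw [avy_add, avy_add, avy_add, avy_mul, avy_mul, avy_mul]
    have h2 := avy_root34 (μ := μ) (s := s) (f := f) hys hp hX
    rw [Real.sqrt_mul (by norm_num)] at h2
    have h3 := mul_le_mul_of_nonneg_left h2 hF
    have h4 := avy_const_le (ys := ys) he0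
    have e3 : F * (√2 * √(avy ys (varF μ s N f)) * √p) = F * (√2 * √p * √(avy ys (varF μ s N f))) := by ring
    rw [e3] at h3
    linarith
  refine (abs_sum_le_sum_abs _ _).trans ((sum_le_sum h1).trans ?_)
  rw [sum_add_distrib, sum_add_distrib, ← mul_sum, ← mul_sum, sum_const, nsmul_eq_mul]
  have k1 := mul_le_mul_of_nonneg_left (hM t ht u hu) hA
  have k2 := mul_le_mul_of_nonneg_left (hR t ht u hu) hB
  have k3 : ((Rw Rr c d).card : ℝ) * (F * (√2 * √p * √(avy ys (varF μ s N f))) + e0) ≤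
      r * (F * (√2 * √p * √(avy ys (varF μ s N f))) + e0) :=
    mul_le_mul_of_nonneg_right (by exact_mod_cast hr) (by positivity)
  refine (add_le_add (add_le_add k1 k2) k3).trans (le_of_eq ?_)
  ring

end

end Pool.Agent.W_7d29a1_C0.E2aT82
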