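import Pool.Agent.W_7d29a1_C0.E2aD81
import Pool.Agent.W_7d29a1_C0.E2S39B
import Pool.Agent.W_7d29a1_C0.E2aT82

/-!
CURV0 (MP_7d29a1_pr), leaf E2a, part E (helper81): THE SUM OVER THE ROWS OF THE MAIN TERM OF (E2a). At the corner the event of the row `j` is
an alternative of the base path in a piece of the window `[j - b0, j + b0]`, given what is behind `z_j = j + 2 b` (`RJ`); the pair price of
helper39 (`own39`) and the root of the variance (`rows39`) give `mq_block`: `MQ81` of one block.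
-/

set_option autoImplicit false
set_option linter.unusedSectionVars false
set_option linter.unusedVariables false

namespace Pool.Agent.W_7d29a1_C0.E2aE81

open Finset MeasureTheory Filter Topology Pool.Agent.W_7d29a1_F Pool.Agent.W_7d29a1_X Pool.Agent.W_7d29a1_H
open Pool.Agent.W_7d29a1_HS (In)
open Pool.Agent.W_7d29a1_HZ (wd' EE')
open Pool.Agent.W_7d29a1_C0 Pool.Agent.W_7d29a1_C0.Mod92 Pool.Agent.W_7d29a1_C0.Swap57
open Pool.W7d29a1.C0 Pool.W7d29a1.C0.VT31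
open Pool.W7d29a1.C0.R43 (Tau TauM mI Rp st MxQ swP_pJ)
open Pool.Agent.W_7d29a1_C0.MicE14 (rh rh_nonneg)
open Pool.W7d29a1.C0.H27 (QI)
open Pool.Agent.W_7d29a1_C0.P86
open Pool.Agent.W_7d29a1_C0.E2S39
open Pool.Agent.W_7d29a1_C0.EvT50 (RpM meas_RpM)
open Pool.W7d29a1.C0.C45 (meas_PP45 abs_PP_le45 own_rp45)
open Pool.Agent.W_7d29a1_C0.Base5 (pW)
open Pool.Agent.W_7d29a1_C0.T72 (Sp72 ind72 meas_ind72)
open Pool.Agent.W_7d29a1_C0.T93 (rdist pr2 rw2)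
open Pool.Agent.W_7d29a1_C0.E2aD81 (jT jT_nonneg jT_le_one UJ UJ_nonneg UJ_le meas_jT rh_le81 mq_row)
open Pool.Agent.W_7d29a1_C0.E2aT82 (qM MQ81)

noncomputable section

variable {μ : Measure ℝ} {s : ℝ} {N : ℕ}

/-! ### The event of a row at the corner -/

/-- The base path has an alternative in a piece of one of the two sides of the window, given what is behind `z`. -/
def RJ (μ : Measure ℝ) (s : ℝ) (N b0 j z l q : ℕ) (M : ℝ) : Fam N := fun y =>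
  ind72 fun ω => RpM (wm μ s N (Pn N y) ω) (pJ 0 z) b0 j l q M

theorem RJ_nonneg (μ : Measure ℝ) (s : ℝ) (N b0 j z l q : ℕ) (M : ℝ) (y : ℕ) (ω : Env × Finset ℕ) (x : Px (Pn N y)) :
    0 ≤ RJ μ s N b0 j z l q M y ω x := i0 _ _ _

theorem RJ_le (μ : Measure ℝ) (s : ℝ) (N b0 j z l q : ℕ) (M : ℝ) (y : ℕ) (ω : Env × Finset ℕ) (x : Px (Pn N y)) :
    RJ μ s N b0 j z l q M y ω x ≤ 1 := i1 _ _ _

theorem meas_RJ (b0 j z l q : ℕ) (M : ℝ) (y : ℕ) (x : Px (Pn N y)) : Measurable fun ω => RJ μ s N b0 j z l q M y ω x := by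
  have : Nonempty (Px (Pn N y)) := ⟨x⟩
  exact meas_ind72 (fun S => meas_RpM (pJ 0 z) b0 j l q M S) x

section Side

variable [IsProbabilityMeasure μ] {y b0 b j z l q m0 m1 cb e c0 K : ℕ} {D M : ℝ} {f : Fam N} [Nonempty (Px (Pn N y))]

/-- **One side of the window.** -/
theorem side81 (hf : Cls59 N cb e D f) (hme : m1 ≤ e) (hz : j + b ≤ z) (hze : z ≤ e) (hM : 8 ≤ M) (hq : 10 * M ≤ q) (hq' : (q : ℝ) ≤ 20 * M)
    (hb : b0 ≤ b) (hbj : b ≤ j) (hl : 3 * q * (l + 1) ≤ b0) {i k : ℕ} (hik : (i = j - b0 ∧ k = j) ∨ (i = j ∧ k = j + b0)) :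
    ∫ ω, PP (wm μ s N (Pn N y) ω) (fun x x' => jT (lw μ s ω.1 N (Pn N y)) (pJ (Q := Pn N y) 0 z) (pW b j) i k M x *
        rh m0 m1 (f y ω) x x') ∂(Pm μ N) ≤
      ∫ ω, PP (wm μ s N (Pn N y) ω) (fun x x' => RJ μ s N b0 j z l q M y ω x * rh m0 m1 (f y ω) x x') ∂(Pm μ N) +
        2 * D * Real.exp (-M) := by
  have hsp : Sp72 (Pn N y) m1 D 0 e (f y) := T72.sp72_of_cls hf hme (by omega) y
  have hi : i + 3 * q * (l + 1) ≤ k := by omega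
  have h1 := own_rp45 (μ := μ) (s := s) (N := N) (Q := Pn N y) (z := m0) hsp (E := fun _ _ => True) (fun _ => MeasurableSet.univ)
    (q := pJ 0 z) (p := pW b j) (crs_pJ (Nat.zero_le _) hz) (swP_pJ (Nat.zero_le z))
    (Pool.W7d29a1.C0.R43.blP_pJ (by omega : j - b ≤ j + b)) i l q hM hq hq' (L := k) (by omega) hi (by omega)
  have hint : ∀ G : Fam N, (∀ ω x, 0 ≤ G y ω x) → (∀ ω x, G y ω x ≤ 1) → (∀ x, Measurable fun ω => G y ω x) →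
      Integrable (fun ω => PP (wm μ s N (Pn N y) ω) (fun x x' => G y ω x * rh m0 m1 (f y ω) x x')) (Pm μ N) := fun G g0 g1 gm' =>
    int_bdd (M := 2 * D) (meas_PP45 meas_wm fun x x' => (gm' x).mul
      (((hf.meas y x).sub (hf.meas y x')).abs.mul_const _)) fun ω => abs_PP_le45 _
        (fun x x' => mul_nonneg (g0 ω x) (rh_nonneg _ _ _)) fun x x' => by
          have h1 := rh_le81 (m0 := m0) (m1 := m1) (fun S => hf.bdd y ω S) x x'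
          calc _ ≤ 1 * rh m0 m1 (f y ω) x x' := mul_le_mul_of_nonneg_right (g1 ω x) (rh_nonneg _ _ _)
            _ ≤ 2 * D := by rw [one_mul]; exact h1
  have h2 : ∫ ω, PP (wm μ s N (Pn N y) ω) (fun x x' => ind72 (fun ω S => Rp (wm μ s N (Pn N y) ω) (pJ 0 z) i l q M S ∧ True) ω x *
        rh m0 m1 (f y ω) x x') ∂(Pm μ N) ≤
      ∫ ω, PP (wm μ s N (Pn N y) ω) (fun x x' => RJ μ s N b0 j z l q M y ω x * rh m0 m1 (f y ω) x x') ∂(Pm μ N) := by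
    refine integral_mono (hint (fun y => ind72 fun ω S => Rp (wm μ s N (Pn N y) ω) (pJ 0 z) i l q M S ∧ True)
      (fun ω x => i0 _ _ _) (fun ω x => i1 _ _ _) fun x => meas_ind72
        (fun S => (Pool.Agent.W_7d29a1_C0.EvT50.meas_Rp50 (pJ 0 z) i l q M S).inter MeasurableSet.univ) x)
      (hint (RJ μ s N b0 j z l q M) (fun ω x => RJ_nonneg _ _ _ _ _ _ _ _ _ _ _ _) (fun ω x => RJ_le _ _ _ _ _ _ _ _ _ _ _ _)
        fun x => meas_RJ _ _ _ _ _ _ _ x) fun ω => ?_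
    refine PP_mono _ fun x x' => mul_le_mul_of_nonneg_right ?_ (rh_nonneg _ _ _)
    refine Pool.W7d29a1.C0.C45.ind72_mono45 fun h => ?_
    rcases hik with ⟨rfl, -⟩ | ⟨rfl, -⟩
    · exact Or.inl h.1
    · exact Or.inr h.1
  refine le_trans (le_of_eq ?_) (h1.trans (add_le_add h2 le_rfl))
  refine integral_congr_ae (ae_of_all _ fun ω => ?_)
  show PP _ _ = PP _ _
  congr 1
  funext x x'
  congr 1
  unfold jT ind72
  by_cases h : TauM (lw μ s ω.1 N (Pn N y)) (pJ 0 z) (pW b j) i k M x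
  · rw [if_pos h]
    exact (if_pos ⟨h, trivial⟩).symm
  · rw [if_neg h]
    exact (if_neg fun h' => h h'.1).symm

/-- **The row at the corner**: the event `UJ` is replaced by `RJ`. -/
theorem swap81 (hf : Cls59 N cb e D f) (hme : m1 ≤ e) (hz : j + b ≤ z) (hze : z ≤ e) (hM : 8 ≤ M) (hq : 10 * M ≤ q) (hq' : (q : ℝ) ≤ 20 * M)
    (hb : b0 ≤ b) (hbj : b ≤ j) (hl : 3 * q * (l + 1) ≤ b0) :
    rw2 μ s N (fun _ _ x x' => NI m0 m1 x x') (UJ μ s N b0 b j z M) f y ≤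
      4 * ∫ ω, PP (wm μ s N (Pn N y) ω) (fun x x' => RJ μ s N b0 j z l q M y ω x * rh m0 m1 (f y ω) x x') ∂(Pm μ N) +
        8 * D * Real.exp (-M) := by
  have s1 := side81 (μ := μ) (s := s) (y := y) (m0 := m0) hf hme hz hze hM hq hq' hb hbj hl (Or.inl ⟨rfl, rfl⟩)
  have s2 := side81 (μ := μ) (s := s) (y := y) (m0 := m0) hf hme hz hze hM hq hq' hb hbj hl (Or.inr ⟨rfl, rfl⟩)
  have bd : ∀ (i k : ℕ), Integrable (fun ω : Env × Finset ℕ => PP (wm μ s N (Pn N y) ω) (fun x x' =>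
        jT (lw μ s ω.1 N (Pn N y)) (pJ 0 z) (pW b j) i k M x * rh m0 m1 (f y ω) x x')) (Pm μ N) := fun i k =>
    int_bdd (M := 2 * D) (meas_PP45 meas_wm fun x x' => (meas_jT _ _ _ _ _ x).mul
      (((hf.meas y x).sub (hf.meas y x')).abs.mul_const _)) fun ω => abs_PP_le45 _
        (fun x x' => mul_nonneg (jT_nonneg _ _ _ _ _ _ _) (rh_nonneg _ _ _)) fun x x' => by
          have h1 := rh_le81 (m0 := m0) (m1 := m1) (fun S => hf.bdd y ω S) x x'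
          calc _ ≤ 1 * rh m0 m1 (f y ω) x x' := mul_le_mul_of_nonneg_right (jT_le_one _ _ _ _ _ _ _) (rh_nonneg _ _ _)
            _ ≤ 2 * D := by rw [one_mul]; exact h1
  have e1 : rw2 μ s N (fun _ _ x x' => NI m0 m1 x x') (UJ μ s N b0 b j z M) f y =
      2 * (∫ ω, PP (wm μ s N (Pn N y) ω) (fun x x' => jT (lw μ s ω.1 N (Pn N y)) (pJ 0 z) (pW b j) (j - b0) j M x *
          rh m0 m1 (f y ω) x x') ∂(Pm μ N) +
        ∫ ω, PP (wm μ s N (Pn N y) ω) (fun x x' => jT (lw μ s ω.1 N (Pn N y)) (pJ 0 z) (pW b j) j (j + b0) M x *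
          rh m0 m1 (f y ω) x x') ∂(Pm μ N)) := by
    rw [← integral_add (bd _ _) (bd _ _), ← integral_const_mul]
    unfold rw2
    refine integral_congr_ae (ae_of_all _ fun ω => ?_)
    show PP _ _ = 2 * (PP _ _ + PP _ _)
    rw [← PP_add]
    have h1 : (fun x x' : Px (Pn N y) => NI m0 m1 x x' * (UJ μ s N b0 b j z M y ω x + UJ μ s N b0 b j z M y ω x') * |f y ω x - f y ω x'|) =
        fun x x' => UJ μ s N b0 b j z M y ω x * rh m0 m1 (f y ω) x x' + UJ μ s N b0 b j z M y ω x' * rh m0 m1 (f y ω) x' x := by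
      funext x x'
      unfold rh
      rw [NI_symm39 m0 m1 x' x, abs_sub_comm (f y ω x') (f y ω x)]
      ring
    have h2 : (fun x x' : Px (Pn N y) => jT (lw μ s ω.1 N (Pn N y)) (pJ 0 z) (pW b j) (j - b0) j M x * rh m0 m1 (f y ω) x x' +
          jT (lw μ s ω.1 N (Pn N y)) (pJ 0 z) (pW b j) j (j + b0) M x * rh m0 m1 (f y ω) x x') =
        fun x x' => UJ μ s N b0 b j z M y ω x * rh m0 m1 (f y ω) x x' := by
      funext x x'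
      unfold UJ
      ring
    rw [h1, h2, PP_add (wm μ s N (Pn N y) ω) (fun x x' => UJ μ s N b0 b j z M y ω x * rh m0 m1 (f y ω) x x')
      (fun x x' => UJ μ s N b0 b j z M y ω x' * rh m0 m1 (f y ω) x' x),
      Pool.Agent.W_7d29a1_C0.CutT57.PP_symm (wm μ s N (Pn N y) ω) (fun x x' => UJ μ s N b0 b j z M y ω x * rh m0 m1 (f y ω) x x')]
    ring
  rw [e1]
  linarith

end Side

/-! ### The places of the rows -/

/-- The place of the row `j`: the window `[j - b0, j + b0]`, given what is behind `j + 2 b`. -/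
def pj (b0 b l j : ℕ) : Plc := ⟨0, j + b + b, 0, j + b + b, j - b0, j + b0, l, Ty.R, False⟩

section Sum

variable [IsProbabilityMeasure μ] {ys S : Finset ℕ} {b0 b l q zf c cb d c0 r : ℕ} {X MD θ M ε κ e D : ℝ} {f : Fam N}

omit [IsProbabilityMeasure μ] in
theorem fp81 (hX : 0 ≤ X) (hS : ∀ j ∈ S, b ≤ j ∧ j + b + b ≤ zf) (hzN : zf ≤ N) (hb : b0 ≤ b) (hl : 3 * q * (l + 1) ≤ b0)
    (hq : (6 * q : ℝ) ≤ X) (hM : 7 * M ≤ X) (hθ : (N : ℝ) ^ θ ≤ l) :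
    Fp μ s N X MD θ zf ys S (pj b0 b l) (fun j => RJ μ s N b0 j (j + b + b) l q M) l where
  ok j hj := by
    obtain ⟨h1, h2⟩ := hS j hj
    refine ⟨⟨?_, hθ⟩, h2, rfl⟩
    show 0 ≤ 0 ∧ 0 ≤ j - b0 ∧ j - b0 ≤ j + b0 ∧ j + b0 ≤ j + b + b ∧ j + b + b ≤ j + b + b ∧ j + b + b ≤ N
    omega
  dom j hj y _ := by
    obtain ⟨h1, h2⟩ := hS j hj
    exact dom_rpM hX (Nat.zero_le _) (by omega) (by omega) hl hq hM
  ms j _ y x := meas_RJ _ _ _ _ _ _ _ x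
  a0 j _ y ω x := RJ_nonneg _ _ _ _ _ _ _ _ _ _ _ _
  a1 j _ y ω x := RJ_le _ _ _ _ _ _ _ _ _ _ _ _

theorem bef81 {k j : ℕ} (hb : b0 ≤ b) (hkj : k + 3 * b ≤ j) : (pj b0 b l j).Bef (pj b0 b l k) :=
  Or.inl (by show k + b + b ≤ j - b0; omega)

/-- **The sum over the rows at the corner.** -/
theorem rsum81 (hP : Pk39 μ s ε θ κ N ys MD e) (he : 0 ≤ e) (hzc : zf ≤ c) (hcN : c ≤ N)
    (hlo : (N : ℝ) ^ θ ≤ ((c - zf : ℕ) : ℝ)) (hys : ys.Nonempty) (hS : ∀ j ∈ S, b ≤ j ∧ j + b + b ≤ zf) (hb : b0 ≤ b)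
    (hl : 3 * q * (l + 1) ≤ b0) (hq : (6 * q : ℝ) ≤ (N : ℝ) ^ κ) (hM : 7 * M ≤ (N : ℝ) ^ κ) (hθ : (N : ℝ) ^ θ ≤ l)
    (hSr : ∀ j ∈ S, c0 ≤ j ∧ j < c0 + r) (hf : Cls59 N cb d D f) :
    ∑ j ∈ S, avy ys (fun y => ∫ ω, PP (wm μ s N (Pn N y) ω) (fun x x' => RJ μ s N b0 j (j + b + b) l q M y ω x *
        rh zf c (f y ω) x x') ∂(Pm μ N)) ≤
      √(8 * S.card * ∑ D ∈ range r, phO μ s N ε e (c - zf) l (3 * b) D) * √(2 * avy ys (varF μ s N f)) := by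
  have hF := fp81 (μ := μ) (s := s) (N := N) (ys := ys) (X := (N : ℝ) ^ κ) (MD := MD) (by linarith [hP.X1]) hS (hzc.trans hcN) hb hl hq hM hθ
  have hown := own39 (hh := 3 * b) hP he hzc hcN hlo hys hF fun k _ j _ hkj => Or.inl (bef81 hb hkj)
  exact rows39 hP.yN hSr hF.a0 hF.a1 hF.ms (fun y _ ω x => hf.bdd y ω x) (fun y _ x => hf.meas y x)
    (fun D => (ph_nonneg he (c - zf) l 0 (3 * b) 0 D).1) hown

end Sum

/-! ### The numbers -/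

theorem phsum81 [IsProbabilityMeasure μ] {e ε : ℝ} (he : 0 ≤ e) (lout lo hh r : ℕ) : ∑ D ∈ range r, phO μ s N ε e lout lo hh D ≤
    hh * (lpr μ s N ε lout [lo] + e) + r * (lpr μ s N ε lout [lo, lo] + e) := by
  unfold phO
  rw [sum_add_distrib, sum_const, card_range, nsmul_eq_mul]
  refine add_le_add ?_ le_rfl
  have h1 : 0 ≤ lpr μ s N ε lout [lo] + e := add_nonneg (lpr_nonneg _ _) he
  rw [← sum_filter, sum_const, nsmul_eq_mul]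
  refine mul_le_mul_of_nonneg_right ?_ h1
  have h2 : ((range r).filter (· < hh)).card ≤ hh :=
    (card_le_card fun x hx => mem_range.2 (mem_filter.1 hx).2).trans (card_range hh).le
  exact_mod_cast h2

/-- The square of the price of one block. -/
def k1E (E : ℕ → ℝ) (r b b0 l : ℕ) : ℝ := (r : ℝ) ^ 2 / (E b0 ^ 2 * E (3 * l)) + r * b / (E b0 * E (3 * l))

theorem pr81 {X E3 E0 El e m b r : ℝ} (hX : 1 ≤ X) (h3 : 1 ≤ E3) (h0 : 1 ≤ E0) (hl : 1 ≤ El) (hEl : El⁻¹ ≤ X * E0⁻¹) (he : 0 ≤ e)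
    (heE : e * (E0 ^ 2 * E3) ≤ 1) (hb0 : 0 ≤ b) (hb : b ≤ r) (hm0 : 0 ≤ m) (hm : m ≤ r) :
    8 * m * (3 * b * (X * E3⁻¹ * (X * El⁻¹) + e) + r * (X * E3⁻¹ * (X * El⁻¹ * (X * El⁻¹)) + e)) ≤
      56 * X ^ 5 * (r ^ 2 / (E0 ^ 2 * E3) + r * b / (E0 * E3)) := by
  obtain ⟨p, hp⟩ : ∃ p, p = E3⁻¹ := ⟨_, rfl⟩
  obtain ⟨g, hg⟩ : ∃ g, g = El⁻¹ := ⟨_, rfl⟩
  obtain ⟨g0, hg0⟩ : ∃ g0, g0 = E0⁻¹ := ⟨_, rfl⟩
  have p0 : 0 ≤ p := by rw [hp]; positivity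
  have gn : 0 ≤ g := by rw [hg]; positivity
  have gn0 : 0 ≤ g0 := by rw [hg0]; positivity
  have hr0 : 0 ≤ r := hb0.trans hb
  have he2 : e ≤ p * g0 ^ 2 := by
    have h4 : 0 < E0 ^ 2 * E3 := by positivity
    rw [hp, hg0, ← le_div_iff₀ h4] at *
    refine heE.trans (le_of_eq ?_)
    field_simp
  have e1 : r ^ 2 / (E0 ^ 2 * E3) + r * b / (E0 * E3) = r ^ 2 * (p * g0 ^ 2) + r * b * (p * g0) := by
    rw [hp, hg0]
    field_simp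
  rw [e1, ← hp, ← hg]
  rw [← hg, ← hg0] at hEl
  have q1 : X * p * (X * g) ≤ X ^ 5 * (p * g0) := by
    calc X * p * (X * g) ≤ X * p * (X * (X * g0)) := by gcongr
      _ = X ^ 3 * (p * g0) := by ring
      _ ≤ X ^ 5 * (p * g0) := by
        refine mul_le_mul_of_nonneg_right (pow_le_pow_right₀ hX (by norm_num)) (by positivity)
  have q2 : X * p * (X * g * (X * g)) ≤ X ^ 5 * (p * g0 ^ 2) := by
    calc X * p * (X * g * (X * g)) ≤ X * p * (X * (X * g0) * (X * (X * g0))) := by gcongr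
      _ = X ^ 5 * (p * g0 ^ 2) := by ring
  have hX5 : 1 ≤ X ^ 5 := one_le_pow₀ hX
  have q3 : e ≤ X ^ 5 * (p * g0 ^ 2) := he2.trans (le_mul_of_one_le_left (by positivity) hX5)
  obtain ⟨A, hA⟩ : ∃ A, A = X ^ 5 * (p * g0) := ⟨_, rfl⟩
  obtain ⟨G, hG⟩ : ∃ G, G = X ^ 5 * (p * g0 ^ 2) := ⟨_, rfl⟩
  have A0 : 0 ≤ A := by rw [hA]; positivity
  have G0 : 0 ≤ G := by rw [hG]; positivity
  rw [← hA] at q1
  rw [← hG] at q2 q3
  have h5 : 3 * b * (X * p * (X * g) + e) + r * (X * p * (X * g * (X * g)) + e) ≤ 3 * b * (A + e) + r * (G + e) := by gcongr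
  have h6 : 3 * b * (A + e) + r * (G + e) ≤ 3 * b * A + 5 * r * G := by
    have h7 : b * e ≤ r * G := mul_le_mul hb q3 he hr0
    have h8 : r * e ≤ r * G := mul_le_mul_of_nonneg_left q3 hr0
    linarith
  calc _ ≤ 8 * r * (3 * b * A + 5 * r * G) := by
        refine mul_le_mul (by linarith) (h5.trans h6) ?_ (by linarith)
        positivity
    _ ≤ 56 * X ^ 5 * (r ^ 2 * (p * g0 ^ 2) + r * b * (p * g0)) := by
        have e2 : 56 * X ^ 5 * (r ^ 2 * (p * g0 ^ 2) + r * b * (p * g0)) = 56 * (r ^ 2 * G) + 56 * (r * b * A) := by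
          rw [hA, hG]
          ring
        rw [e2]
        have h9 : 0 ≤ r ^ 2 * G := by positivity
        have h10 : 0 ≤ r * b * A := by positivity
        nlinarith

theorem evl81 {β : ℝ} (hβ : 0 < β) (C : ℝ) : ∀ᶠ N : ℕ in atTop, C ≤ (N : ℝ) ^ β := by
  obtain ⟨L₀, h⟩ := Pool.Agent.W_7d29a1_Z.NumI77.large hβ C
  exact eventually_atTop.2 ⟨L₀, fun N hN => (h N hN).2.1⟩

theorem eve81 {c : ℝ} (hc : 0 < c) : ∀ᶠ N : ℕ in atTop, 64 * (N : ℝ) ^ (9 : ℝ) * Real.exp (-(N : ℝ) ^ c) ≤ 1 := by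
  filter_upwards [Pool.Agent.W_7d29a1_HZ.Z74.ev_exp (A := 64) (a := 1) (by norm_num) one_pos hc (show c / 2 < c by linarith) 9] with N h
  rw [one_mul] at h
  have h1 : Real.exp (-(N : ℝ) ^ (c / 2)) ≤ 1 := Real.exp_le_one_iff.2 (neg_nonpos.2 (Real.rpow_nonneg (Nat.cast_nonneg _) _))
  linarith

/-! ### The block -/

section Block

variable [IsProbabilityMeasure μ]

/-- The numbers of the block. -/
theorem evn81 {κ κp ε aM c₂ c' K₂ E₁ : ℝ} (hκ : 0 < κ) (hκp : 0 < κp) (hε : 0 < ε) (haM : 0 < aM) (hc₂ : 0 < c₂) (hc' : 0 < c') :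
    ∀ᶠ N : ℕ in atTop, 1 ≤ N ∧ 112 ≤ (N : ℝ) ^ ε ∧ 31 * K₂ ≤ (N : ℝ) ^ (ε / 2) ∧ 960 ≤ (N : ℝ) ^ (κ / 2) ∧ 480 ≤ (N : ℝ) ^ (κp / 2) ∧
      8 ≤ (N : ℝ) ^ aM ∧ K₂ * E₁ ≤ (N : ℝ) ^ (1 / 2 : ℝ) ∧ 64 * (N : ℝ) ^ (9 : ℝ) * Real.exp (-(N : ℝ) ^ c₂) ≤ 1 ∧
      64 * (N : ℝ) ^ (9 : ℝ) * Real.exp (-(N : ℝ) ^ c') ≤ 1 ∧ 64 * (N : ℝ) ^ (9 : ℝ) * Real.exp (-(N : ℝ) ^ aM) ≤ 1 := by
  filter_upwards [eventually_ge_atTop 1, evl81 hε 112, evl81 (half_pos hε) (31 * K₂), evl81 (half_pos hκ) 960, evl81 (half_pos hκp) 480,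
    evl81 haM 8, evl81 (show (0 : ℝ) < 1 / 2 by norm_num) (K₂ * E₁), eve81 hc₂, eve81 hc', eve81 haM] with N h1 h2 h3 h4 h5 h6 h7 h8 h9 h10
  exact ⟨h1, h2, h3, h4, h5, h6, h7, h8, h9, h10⟩

/-- The lengths of the pieces. -/
theorem len81 {N b0 q : ℕ} {κ aM : ℝ} (hN : 1 ≤ N) (haκ : aM ≤ κ / 4) (h960 : 960 ≤ (N : ℝ) ^ (κ / 2)) (h8 : 8 ≤ (N : ℝ) ^ aM)
    (hb0 : (N : ℝ) ^ κ ≤ b0) (hq0 : 40 * (N : ℝ) ^ aM ≤ q) (hq : (q : ℝ) ≤ 80 * (N : ℝ) ^ aM) (hκ : 0 < κ) :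
    3 * q * (b0 / (6 * q) + 1) ≤ b0 ∧ (N : ℝ) ^ (κ / 4) ≤ ((b0 / (6 * q) : ℕ) : ℝ) ∧
      ((b0 : ℕ) : ℝ) ≤ 960 * (N : ℝ) ^ aM * ((b0 / (6 * q) : ℕ) : ℝ) := by
  have hNR : (1 : ℝ) ≤ N := by exact_mod_cast hN
  have hN0 : (0 : ℝ) < N := by linarith
  have hq1 : (320 : ℝ) ≤ q := by linarith
  have hqn : 1 ≤ q := by
    have : (1 : ℝ) ≤ q := by linarith
    exact_mod_cast this
  have haM : (N : ℝ) ^ aM ≤ (N : ℝ) ^ (κ / 4) := Real.rpow_le_rpow_of_exponent_le hNR haκ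
  have hκ4 : 1 ≤ (N : ℝ) ^ (κ / 4) := Real.one_le_rpow hNR (by positivity)
  have e1 : (N : ℝ) ^ κ = (N : ℝ) ^ (κ / 2) * ((N : ℝ) ^ (κ / 4) * (N : ℝ) ^ (κ / 4)) := by
    rw [← Real.rpow_add hN0, ← Real.rpow_add hN0]
    ring_nf
  -- `12 q N ^ (κ / 4) ≤ b0`
  have h1 : 12 * (q : ℝ) * (N : ℝ) ^ (κ / 4) ≤ b0 := by
    calc 12 * (q : ℝ) * (N : ℝ) ^ (κ / 4) ≤ 12 * (80 * (N : ℝ) ^ (κ / 4)) * (N : ℝ) ^ (κ / 4) := by
          gcongr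
          linarith
      _ = 960 * ((N : ℝ) ^ (κ / 4) * (N : ℝ) ^ (κ / 4)) := by ring
      _ ≤ (N : ℝ) ^ κ := by
          rw [e1]
          exact mul_le_mul_of_nonneg_right h960 (by positivity)
      _ ≤ b0 := hb0
  have h2 : 12 * q ≤ b0 := by
    have : (12 : ℝ) * q ≤ b0 := le_trans (le_mul_of_one_le_right (by positivity) hκ4) h1
    exact_mod_cast this
  have hd := Nat.div_add_mod b0 (6 * q)
  have hm := Nat.mod_lt b0 (show 0 < 6 * q by omega)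
  obtain ⟨l, hl⟩ : ∃ l, l = b0 / (6 * q) := ⟨_, rfl⟩
  rw [← hl] at hd ⊢
  have hl1 : 1 ≤ l := by
    rw [hl]
    exact (Nat.le_div_iff_mul_le (by omega)).2 (by omega)
  have h3 : b0 ≤ 12 * q * l := by
    have : 6 * q ≤ 6 * q * l := Nat.le_mul_of_pos_right _ hl1
    nlinarith
  have h4 : (b0 : ℝ) ≤ 12 * q * l := by exact_mod_cast h3
  refine ⟨?_, ?_, ?_⟩
  · have h5 : 3 * q * (l + 1) = 3 * q * l + 3 * q := by ring
    have h6 : 6 * q * l = 2 * (3 * q * l) := by ring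
    omega
  · have h5 : 12 * (q : ℝ) * (N : ℝ) ^ (κ / 4) ≤ 12 * q * l := h1.trans h4
    exact le_of_mul_le_mul_left h5 (by positivity)
  · refine h4.trans (mul_le_mul_of_nonneg_right (by linarith) (Nat.cast_nonneg _))

/-- The unit of length at most `N`, and the pieces. -/
theorem unit81 {N : ℕ} {K₂ ε aM : ℝ} (hN : 1 ≤ N) (haε : aM ≤ ε) (h31 : 31 * K₂ ≤ (N : ℝ) ^ (ε / 2)) (hK₂ : 1 ≤ K₂)
    (hKE : K₂ * EE' μ s 1 ≤ (N : ℝ) ^ (1 / 2 : ℝ))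
    (hpow : ∀ m n : ℕ, 1 ≤ m → m ≤ n → EE' μ s n ≤ K₂ * Real.sqrt ((n : ℝ) / m) * EE' μ s m) :
    (∀ n : ℕ, 1 ≤ n → n ≤ N → EE' μ s n ≤ N) ∧ ∀ m n : ℕ, 1 ≤ m → m ≤ n → (n : ℝ) ≤ 960 * (N : ℝ) ^ aM * m →
      (EE' μ s m)⁻¹ ≤ (N : ℝ) ^ ε * (EE' μ s n)⁻¹ := by
  have hNR : (1 : ℝ) ≤ N := by exact_mod_cast hN
  have hN0 : (0 : ℝ) < N := by linarith
  have Ep : ∀ n, 1 ≤ EE' μ s n := fun n => le_max_left _ _
  refine ⟨fun n h1 h2 => ?_, fun m n h1 h2 h3 => ?_⟩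
  · have h3 := hpow 1 n le_rfl h1
    rw [Nat.cast_one, div_one] at h3
    have h4 : Real.sqrt n ≤ (N : ℝ) ^ (1 / 2 : ℝ) := by
      rw [← Real.sqrt_eq_rpow]
      exact Real.sqrt_le_sqrt (by exact_mod_cast h2)
    have h5 : (N : ℝ) ^ (1 / 2 : ℝ) * (N : ℝ) ^ (1 / 2 : ℝ) = N := by
      rw [← Real.rpow_add hN0]
      norm_num
    calc EE' μ s n ≤ K₂ * Real.sqrt n * EE' μ s 1 := h3
      _ = Real.sqrt n * (K₂ * EE' μ s 1) := by ring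
      _ ≤ (N : ℝ) ^ (1 / 2 : ℝ) * (N : ℝ) ^ (1 / 2 : ℝ) := mul_le_mul h4 hKE (by have := Ep 1; positivity) (by positivity)
      _ = N := h5
  · have h4 := hpow m n h1 h2
    have hm0 : (0 : ℝ) < m := by exact_mod_cast h1
    have Em := Ep m
    have En := Ep n
    have h5 : (n : ℝ) / m ≤ 960 * (N : ℝ) ^ aM := (div_le_iff₀ hm0).2 h3
    have h6 : Real.sqrt ((n : ℝ) / m) ≤ 31 * (N : ℝ) ^ (ε / 2) := by
      rw [Real.sqrt_le_left (by positivity)]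
      refine h5.trans ?_
      have h7 : (31 * (N : ℝ) ^ (ε / 2)) ^ 2 = 961 * (N : ℝ) ^ ε := by
        have : (N : ℝ) ^ ε = (N : ℝ) ^ (ε / 2) * (N : ℝ) ^ (ε / 2) := by
          rw [← Real.rpow_add hN0]
          ring_nf
        rw [this]
        ring
      rw [h7]
      exact mul_le_mul (by norm_num) (Real.rpow_le_rpow_of_exponent_le hNR haε) (by positivity) (by norm_num)
    have h7 : K₂ * Real.sqrt ((n : ℝ) / m) ≤ (N : ℝ) ^ ε := by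
      calc K₂ * Real.sqrt ((n : ℝ) / m) ≤ K₂ * (31 * (N : ℝ) ^ (ε / 2)) := mul_le_mul_of_nonneg_left h6 (by linarith)
        _ = (31 * K₂) * (N : ℝ) ^ (ε / 2) := by ring
        _ ≤ (N : ℝ) ^ (ε / 2) * (N : ℝ) ^ (ε / 2) := mul_le_mul_of_nonneg_right h31 (by positivity)
        _ = (N : ℝ) ^ ε := by
          rw [← Real.rpow_add hN0]
          ring_nf
    have h8 : EE' μ s n ≤ (N : ℝ) ^ ε * EE' μ s m := h4.trans (mul_le_mul_of_nonneg_right h7 (by linarith))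
    rw [← div_eq_mul_inv, inv_eq_one_div, div_le_div_iff₀ (by linarith) (by linarith), one_mul]
    exact h8

theorem bsq81 {N : ℕ} {B ε : ℝ} (hNR : (1 : ℝ) ≤ N) (hB : 0 ≤ B) (h1 : B ≤ (N : ℝ) ^ ε) : B ^ 2 * (N : ℝ) ^ ε ≤ (N : ℝ) ^ (3 * ε) := by
  have hN0 : (0 : ℝ) < N := by linarith
  calc B ^ 2 * (N : ℝ) ^ ε ≤ ((N : ℝ) ^ ε) ^ 2 * (N : ℝ) ^ ε := by gcongr
    _ = (N : ℝ) ^ ε * (N : ℝ) ^ ε * (N : ℝ) ^ ε := by ring
    _ = (N : ℝ) ^ (3 * ε) := by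
      rw [← Real.rpow_add hN0, ← Real.rpow_add hN0]
      ring_nf

theorem main81 {N : ℕ} {B ε ν k1 V : ℝ} (hNR : (1 : ℝ) ≤ N) (hB : 0 ≤ B) (hBε : B ≤ (N : ℝ) ^ ε) (n112 : 112 ≤ (N : ℝ) ^ ε)
    (hεd : ε = ν / 8) (hν : 0 < ν) (hk10 : 0 ≤ k1) (hv0 : 0 ≤ V) :
    (B ^ 2 * (N : ℝ) ^ ε) * (√(56 * ((N : ℝ) ^ ε) ^ 5 * k1) * √(2 * V)) ≤ (N : ℝ) ^ ν * √k1 * √V := by
  have hN0 : (0 : ℝ) < N := by linarith
  have hB2 := bsq81 hNR hB hBε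
  have h1 : (N : ℝ) ^ (3 * ε) = √((N : ℝ) ^ (6 * ε)) := by
    rw [Real.sqrt_eq_rpow, ← Real.rpow_mul hN0.le]
    ring_nf
  have h2 : (N : ℝ) ^ ν = √((N : ℝ) ^ (2 * ν)) := by
    rw [Real.sqrt_eq_rpow, ← Real.rpow_mul hN0.le]
    ring_nf
  calc (B ^ 2 * (N : ℝ) ^ ε) * (√(56 * ((N : ℝ) ^ ε) ^ 5 * k1) * √(2 * V))
      ≤ (N : ℝ) ^ (3 * ε) * (√(56 * ((N : ℝ) ^ ε) ^ 5 * k1) * √(2 * V)) := mul_le_mul_of_nonneg_right hB2 (by positivity)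
    _ = √((N : ℝ) ^ (6 * ε) * (56 * ((N : ℝ) ^ ε) ^ 5 * k1 * (2 * V))) := by
        rw [h1, ← Real.sqrt_mul (by positivity), ← Real.sqrt_mul (by positivity)]
    _ ≤ √((N : ℝ) ^ (2 * ν) * k1 * V) := by
        refine Real.sqrt_le_sqrt ?_
        have h3 : (N : ℝ) ^ (6 * ε) * ((N : ℝ) ^ ε) ^ 5 * 112 ≤ (N : ℝ) ^ (2 * ν) := by
          have h4 : ((N : ℝ) ^ ε) ^ 5 = (N : ℝ) ^ (5 * ε) := by
            rw [← Real.rpow_natCast, ← Real.rpow_mul hN0.le]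
            push_cast
            ring_nf
          rw [h4, ← Real.rpow_add hN0]
          calc (N : ℝ) ^ (6 * ε + 5 * ε) * 112 ≤ (N : ℝ) ^ (6 * ε + 5 * ε) * (N : ℝ) ^ ε := by gcongr
            _ = (N : ℝ) ^ (6 * ε + 5 * ε + ε) := by rw [← Real.rpow_add hN0]
            _ ≤ (N : ℝ) ^ (2 * ν) := Real.rpow_le_rpow_of_exponent_le hNR (by rw [hεd]; linarith)
        calc (N : ℝ) ^ (6 * ε) * (56 * ((N : ℝ) ^ ε) ^ 5 * k1 * (2 * V)) = ((N : ℝ) ^ (6 * ε) * ((N : ℝ) ^ ε) ^ 5 * 112) * (k1 * V) := by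
              ring
          _ ≤ (N : ℝ) ^ (2 * ν) * (k1 * V) := mul_le_mul_of_nonneg_right h3 (by positivity)
          _ = (N : ℝ) ^ (2 * ν) * k1 * V := by ring
    _ = (N : ℝ) ^ ν * √k1 * √V := by
        rw [h2, Real.sqrt_mul (by positivity), Real.sqrt_mul (by positivity)]

theorem tiny81 {N : ℕ} {B D ε ν aM M c' : ℝ} (hNR : (1 : ℝ) ≤ N) (hB : 0 ≤ B) (hBε : B ≤ (N : ℝ) ^ ε) (hεd : ε = ν / 8) (hν : 0 < ν)
    (hν1 : ν ≤ 1) (hD0 : 0 ≤ D) (hDN : 2 * D ≤ (N : ℝ) ^ (4 : ℝ)) (n8 : 8 ≤ M) (hM : M = (N : ℝ) ^ aM) (haε : aM ≤ ε)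
    (nM : 64 * (N : ℝ) ^ (9 : ℝ) * Real.exp (-M) ≤ 1) (nc' : 64 * (N : ℝ) ^ (9 : ℝ) * Real.exp (-(N : ℝ) ^ c') ≤ 1) :
    N * (2 * (B ^ 2 * (N : ℝ) ^ ε) * (D * Real.exp (-(4 * M))) +
      (B ^ 2 * (N : ℝ) ^ ε * (N : ℝ) ^ (-(4 : ℝ)) + D * Real.exp (-(N : ℝ) ^ c'))) ≤ (N : ℝ)⁻¹ := by
  have hN0 : (0 : ℝ) < N := by linarith
  have hB2 := bsq81 hNR hB hBε
  obtain ⟨tn, htn⟩ : ∃ tn : ℝ, tn = 2 * (B ^ 2 * (N : ℝ) ^ ε) * (D * Real.exp (-(4 * M))) +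
      (B ^ 2 * (N : ℝ) ^ ε * (N : ℝ) ^ (-(4 : ℝ)) + D * Real.exp (-(N : ℝ) ^ c')) := ⟨_, rfl⟩
  have htn0 : 0 ≤ tn := by rw [htn]; positivity
  rw [← htn]
  have h1 : (N : ℝ) ^ (3 * ε) ≤ N := by
    calc (N : ℝ) ^ (3 * ε) ≤ (N : ℝ) ^ (1 : ℝ) := Real.rpow_le_rpow_of_exponent_le hNR (by rw [hεd]; linarith)
      _ = N := Real.rpow_one _
  have h2 : B ^ 2 * (N : ℝ) ^ ε ≤ N := hB2.trans h1
  have h8 : (8 : ℝ) ≤ N := by
    calc (8 : ℝ) ≤ (N : ℝ) ^ aM := by rw [← hM]; exact n8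
      _ ≤ (N : ℝ) ^ (1 : ℝ) := Real.rpow_le_rpow_of_exponent_le hNR (by rw [hεd] at haε; linarith)
      _ = N := Real.rpow_one _
  have h3 : (N : ℝ) ^ (-(4 : ℝ)) = ((N : ℝ) ^ 4)⁻¹ := by
    rw [Real.rpow_neg hN0.le, Real.rpow_ofNat]
  rw [Real.rpow_ofNat] at hDN nM nc'
  have x1 : Real.exp (-(4 * M)) ≤ Real.exp (-M) := Real.exp_le_exp.2 (by linarith)
  obtain ⟨x, hx⟩ : ∃ x, x = Real.exp (-M) := ⟨_, rfl⟩
  obtain ⟨z, hz⟩ : ∃ z, z = Real.exp (-(N : ℝ) ^ c') := ⟨_, rfl⟩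
  have x0 : 0 ≤ x := by rw [hx]; positivity
  have z0 : 0 ≤ z := by rw [hz]; positivity
  rw [← hx] at x1 nM
  rw [← hz] at nc' htn
  have t1 : 2 * (B ^ 2 * (N : ℝ) ^ ε) * (D * Real.exp (-(4 * M))) ≤ (N : ℝ) ^ 5 * x := by
    calc 2 * (B ^ 2 * (N : ℝ) ^ ε) * (D * Real.exp (-(4 * M))) ≤ 2 * N * (D * x) := by gcongr
      _ = N * (2 * D) * x := by ring
      _ ≤ N * (N : ℝ) ^ 4 * x := by gcongr
      _ = (N : ℝ) ^ 5 * x := by ring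
  have t2 : B ^ 2 * (N : ℝ) ^ ε * (N : ℝ) ^ (-(4 : ℝ)) ≤ N * ((N : ℝ) ^ 4)⁻¹ := by
    rw [h3]
    exact mul_le_mul_of_nonneg_right h2 (by positivity)
  have t3 : D * z ≤ (N : ℝ) ^ 4 * z := mul_le_mul_of_nonneg_right (by linarith) z0
  have t4 : tn ≤ (N : ℝ) ^ 5 * x + N * ((N : ℝ) ^ 4)⁻¹ + (N : ℝ) ^ 4 * z := by rw [htn]; linarith
  have t5 : (N : ℝ) * tn * N ≤ 1 := by
    have u1 : (N : ℝ) * ((N : ℝ) ^ 5 * x) * N ≤ 1 / 64 := by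
      have : (N : ℝ) ^ 7 * x ≤ (N : ℝ) ^ 9 * x := mul_le_mul_of_nonneg_right (pow_le_pow_right₀ hNR (by norm_num)) x0
      calc (N : ℝ) * ((N : ℝ) ^ 5 * x) * N = (N : ℝ) ^ 7 * x := by ring
        _ ≤ 1 / 64 := by linarith
    have u2 : (N : ℝ) * (N * ((N : ℝ) ^ 4)⁻¹) * N ≤ 1 / 8 := by
      have : (N : ℝ) * (N * ((N : ℝ) ^ 4)⁻¹) * N = (N : ℝ)⁻¹ := by
        field_simp
      rw [this, one_div]
      exact inv_anti₀ (by norm_num) h8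
    have u3 : (N : ℝ) * ((N : ℝ) ^ 4 * z) * N ≤ 1 / 64 := by
      have : (N : ℝ) ^ 6 * z ≤ (N : ℝ) ^ 9 * z := mul_le_mul_of_nonneg_right (pow_le_pow_right₀ hNR (by norm_num)) z0
      calc (N : ℝ) * ((N : ℝ) ^ 4 * z) * N = (N : ℝ) ^ 6 * z := by ring
        _ ≤ 1 / 64 := by linarith
    calc (N : ℝ) * tn * N ≤ N * ((N : ℝ) ^ 5 * x + N * ((N : ℝ) ^ 4)⁻¹ + (N : ℝ) ^ 4 * z) * N := by gcongr
      _ = (N : ℝ) * ((N : ℝ) ^ 5 * x) * N + (N : ℝ) * (N * ((N : ℝ) ^ 4)⁻¹) * N + (N : ℝ) * ((N : ℝ) ^ 4 * z) * N := by ring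
      _ ≤ 1 := by linarith
  rw [← one_div, le_div_iff₀ hN0]
  exact t5

/-- **(MQ) OF ONE BLOCK.** -/
theorem mq_block {c₀ C₀ : ℝ} {n₀ : ℕ} (hIn : In μ s c₀ C₀ n₀)
    (hQI : ∀ p : ℝ, 1 < p → ∃ C θ0 : ℝ, 0 ≤ C ∧ 0 < θ0 ∧ QI μ p C θ0) {κ : ℝ} (hκ : 0 < κ) (hκ1 : κ ≤ 1) {ν : ℝ} (hν : 0 < ν) (hν1 : ν ≤ 1) :
    ∃ β₀ : ℝ, 0 < β₀ ∧ ∀ δk : ℝ, 0 < δk → ∃ δ' : ℝ, 0 < δ' ∧ ∃ N₀ : ℕ, ∀ N : ℕ, N₀ ≤ N → ∀ ys : Finset ℕ, ys.Nonempty →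
      (∀ y ∈ ys, y ≤ N ∧ |(y : ℝ) - sl μ s * N| ≤ ((N : ℝ) ^ δ' * wd' μ s N)) → ∀ B : ℝ, 0 ≤ B → B ≤ (N : ℝ) ^ β₀ →
      ∀ (b0 b l c d r cb : ℕ) (R : Finset ℕ) (D : ℝ) (f : Fam N), (N : ℝ) ^ κ ≤ b0 → b0 ≤ b → b ≤ l → b ≤ r →
      (∀ j ∈ Rw R c d, b ≤ j ∧ j + 8 * l ≤ d) → d ≤ c + r → d ≤ N → r ≤ N → Cls59 N cb d D f → 2 * D ≤ (N : ℝ) ^ (4 : ℝ) →
      MQ81 μ s N δk B b0 b f ys R c d l ((N : ℝ) ^ ν * √(k1E (EE' μ s) r b b0 l)) ((N : ℝ)⁻¹) := by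
  obtain ⟨a, K₂, -, -, hK₂, hpow⟩ := Pool.Agent.W_7d29a1_HZ.EE'_pow hIn
  obtain ⟨ε, hεd⟩ : ∃ ε : ℝ, ε = ν / 8 := ⟨_, rfl⟩
  have hε : 0 < ε := by rw [hεd]; positivity
  obtain ⟨δp, κp, c₂, hδp, hκp, hc₂, L₀, hL₀, hpk⟩ := pk39 hIn ε (κ / 4) hε (by positivity)
  obtain ⟨aM, haMd⟩ : ∃ aM : ℝ, aM = min (κ / 4) (min (κp / 2) ε) := ⟨_, rfl⟩
  have haM : 0 < aM := by rw [haMd]; exact lt_min (by positivity) (lt_min (by positivity) hε)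
  have haκ : aM ≤ κ / 4 := by rw [haMd]; exact min_le_left _ _
  have haκp : aM ≤ κp / 2 := by rw [haMd]; exact (min_le_right _ _).trans (min_le_left _ _)
  have haε : aM ≤ ε := by rw [haMd]; exact (min_le_right _ _).trans (min_le_right _ _)
  obtain ⟨β₁, hβ₁, hrow⟩ := mq_row hIn hQI hκ hκ1 (ε := ε) (K' := 4) (aM := aM) hε (by norm_num) haM
  refine ⟨min β₁ ε, lt_min hβ₁ hε, fun δk hδk => ?_⟩
  obtain ⟨δr, c', hδr, hc', N₁, hN₁⟩ := hrow δk hδk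
  obtain ⟨N₂, hN₂⟩ := eventually_atTop.1 (evn81 (K₂ := K₂) (E₁ := EE' μ s 1) hκ hκp hε haM hc₂ hc')
  refine ⟨min δr δp, lt_min hδr hδp, max N₁ (max N₂ L₀), fun N hN ys hys hcone B hB hBN b0 b l c d r cb R D f hb0 hb hbl hbr hj hdr hdN hrN
    hf hDN t ht u hu => ?_⟩
  obtain ⟨n1, n112, n31, n960, n480, n8, nKE, nc₂, nc', naM⟩ := hN₂ N ((le_max_left _ _).trans ((le_max_right _ _).trans hN))
  have hNR : (1 : ℝ) ≤ N := by exact_mod_cast n1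
  have hN0 : (0 : ℝ) < N := by linarith
  have w0 : 0 ≤ wd' μ s N := zero_le_one.trans (le_max_left _ _)
  have Ep : ∀ n, 1 ≤ EE' μ s n := fun n => le_max_left _ _
  have hyN : ∀ y ∈ ys, y ≤ N := fun y hy => (hcone y hy).1
  have hcr : ∀ y ∈ ys, |(y : ℝ) - sl μ s * N| ≤ (N : ℝ) ^ δr * wd' μ s N := fun y hy =>
    (hcone y hy).2.trans (mul_le_mul_of_nonneg_right (Real.rpow_le_rpow_of_exponent_le hNR (min_le_left _ _)) w0)
  have hcp : ∀ y ∈ ys, y ≤ N ∧ |(y : ℝ) - sl μ s * N| ≤ (N : ℝ) ^ δp * wd' μ s N := fun y hy =>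
    ⟨hyN y hy, (hcone y hy).2.trans (mul_le_mul_of_nonneg_right (Real.rpow_le_rpow_of_exponent_le hNR (min_le_right _ _)) w0)⟩
  have hv0 : 0 ≤ avy ys (varF μ s N f) := by
    unfold avy
    refine mul_nonneg (by positivity) (sum_nonneg fun y hy => ?_)
    have := ne_Pn (hyN y hy)
    exact integral_nonneg fun ω => gv_nonneg _ _
  -- no rows
  rcases (Rw R c d).eq_empty_or_nonempty with hemp | ⟨j₀, hj₀⟩
  · rw [hemp, sum_empty]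
    positivity
  have hjd := hj j₀ hj₀
  obtain ⟨M, hM⟩ : ∃ M : ℝ, M = (N : ℝ) ^ aM := ⟨_, rfl⟩
  obtain ⟨q, hq⟩ : ∃ q : ℕ, q = ⌈40 * M⌉₊ := ⟨_, rfl⟩
  rw [← hM] at n8 naM
  have hq0 : 40 * M ≤ q := by rw [hq]; exact Nat.le_ceil _
  have hq1 : (q : ℝ) ≤ 80 * M := by
    have : (q : ℝ) < 40 * M + 1 := by rw [hq]; exact Nat.ceil_lt_add_one (by linarith)
    linarith
  obtain ⟨g1, g2, g3⟩ := len81 (N := N) (b0 := b0) (q := q) n1 haκ n960 (by rw [← hM]; exact n8) hb0 (by rw [← hM]; exact hq0)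
    (by rw [← hM]; exact hq1) hκ
  obtain ⟨l', hl'⟩ : ∃ l', l' = b0 / (6 * q) := ⟨_, rfl⟩
  rw [← hl'] at g1 g2 g3
  have hl'1 : 1 ≤ l' := by
    have h1 : (1 : ℝ) ≤ l' := (Real.one_le_rpow hNR (by positivity)).trans g2
    exact_mod_cast h1
  have hl'b : l' ≤ b0 := by
    rw [hl']
    exact Nat.div_le_self _ _
  have hMp : M * 480 ≤ (N : ℝ) ^ κp := by
    have e1 : (N : ℝ) ^ κp = (N : ℝ) ^ (κp / 2) * (N : ℝ) ^ (κp / 2) := by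
      rw [← Real.rpow_add hN0]
      ring_nf
    rw [e1, hM]
    exact mul_le_mul (Real.rpow_le_rpow_of_exponent_le hNR haκp) n480 (by norm_num) (by positivity)
  have hP := hpk N ((le_max_right _ _).trans ((le_max_right _ _).trans hN)) ys hcp M n8 (by linarith)
  obtain ⟨U1, U2⟩ := unit81 (μ := μ) (s := s) (K₂ := K₂) n1 haε n31 hK₂ nKE fun m n h1 h2 => (hpow m n h1 h2).2.2
  -- the sum over the rows at the corner
  obtain ⟨e, he⟩ : ∃ e : ℝ, e = Real.exp (-(N : ℝ) ^ c₂) + 16 * Real.exp (-M) := ⟨_, rfl⟩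
  rw [← he] at hP
  have he0 : 0 ≤ e := by rw [he]; positivity
  have hl3 : d - (d - 3 * l) = 3 * l := by omega
  have hlN : (N : ℝ) ^ (κ / 4) ≤ ((d - (d - 3 * l) : ℕ) : ℝ) := by
    rw [hl3]
    have h1 : (N : ℝ) ^ (κ / 4) ≤ (N : ℝ) ^ κ := Real.rpow_le_rpow_of_exponent_le hNR (by linarith)
    have h2 : ((b0 : ℕ) : ℝ) ≤ ((3 * l : ℕ) : ℝ) := by exact_mod_cast (by omega : b0 ≤ 3 * l)
    linarith
  have hS : ∀ j ∈ Rw R c d, b ≤ j ∧ j + b + b ≤ d - 3 * l := fun j hjR => by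
    have := hj j hjR
    omega
  have hSr : ∀ j ∈ Rw R c d, c ≤ j ∧ j < c + r := fun j hjR => by
    have h1 := (mem_inter.1 hjR).2
    rw [mem_Ico] at h1
    omega
  have hsum := rsum81 (μ := μ) (s := s) (M := 4 * M) hP he0 (Nat.sub_le d (3 * l)) hdN hlN hys hS hb g1 (by linarith) (by linarith) g2 hSr hf
  rw [hl3] at hsum
  -- one row
  have hone : ∀ j ∈ Rw R c d, ∀ y ∈ ys, qM μ s N δk B b0 b f d l t u y j ≤
      (B ^ 2 * (N : ℝ) ^ ε) * ∫ ω, PP (wm μ s N (Pn N y) ω) (fun x x' => RJ μ s N b0 j (j + b + b) l' q (4 * M) y ω x *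
        rh (d - 3 * l) d (f y ω) x x') ∂(Pm μ N) + (2 * (B ^ 2 * (N : ℝ) ^ ε) * (D * Real.exp (-(4 * M))) +
          (B ^ 2 * (N : ℝ) ^ ε * (N : ℝ) ^ (-(4 : ℝ)) + D * Real.exp (-(N : ℝ) ^ c'))) := fun j hjR y hy => by
    have := ne_Pn (hyN y hy)
    have hj1 := hj j hjR
    have hκb : (N : ℝ) ^ κ ≤ b := hb0.trans (by exact_mod_cast hb)
    have h1 := hN₁ N ((le_max_left _ _).trans hN) y (hyN y hy) (hcr y hy) (j + b) b
      (hκb.trans (by exact_mod_cast Nat.le_add_left b j)) hκb (by omega) B b0 b j hB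
      (hBN.trans (Real.rpow_le_rpow_of_exponent_le hNR (min_le_left _ _))) hb0 hb hj1.1 le_rfl cb d D f hf hDN (d - 3 * l) d
      (by omega) (Nat.sub_le _ _) le_rfl t ht u hu M hM.ge
    have h2 := swap81 (μ := μ) (s := s) (y := y) (m0 := d - 3 * l) (M := 4 * M) (q := q) (l := l') hf le_rfl (by omega : j + b ≤ j + b + b)
      (by omega) (by linarith) (by linarith) (by linarith) hb hj1.1 g1
    have h3 : 0 ≤ (B / 2) ^ 2 * (N : ℝ) ^ ε := by positivity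
    have h4 := mul_le_mul_of_nonneg_left h2 h3
    refine h1.trans ?_
    have e3 : (B / 2) ^ 2 * (N : ℝ) ^ ε * (4 * ∫ ω, PP (wm μ s N (Pn N y) ω) (fun x x' => RJ μ s N b0 j (j + b + b) l' q (4 * M) y ω x *
        rh (d - 3 * l) d (f y ω) x x') ∂(Pm μ N) + 8 * D * Real.exp (-(4 * M))) =
        (B ^ 2 * (N : ℝ) ^ ε) * ∫ ω, PP (wm μ s N (Pn N y) ω) (fun x x' => RJ μ s N b0 j (j + b + b) l' q (4 * M) y ω x *
        rh (d - 3 * l) d (f y ω) x x') ∂(Pm μ N) + 2 * (B ^ 2 * (N : ℝ) ^ ε) * (D * Real.exp (-(4 * M))) := by ring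
    linarith
  obtain ⟨tn, htn⟩ : ∃ tn : ℝ, tn = 2 * (B ^ 2 * (N : ℝ) ^ ε) * (D * Real.exp (-(4 * M))) +
      (B ^ 2 * (N : ℝ) ^ ε * (N : ℝ) ^ (-(4 : ℝ)) + D * Real.exp (-(N : ℝ) ^ c')) := ⟨_, rfl⟩
  rw [← htn] at hone
  have hD0 : 0 ≤ D := by
    obtain ⟨y, hy⟩ := hys
    have := ne_Pn (hyN y hy)
    exact (abs_nonneg _).trans (hf.bdd y (fun _ => 0, ∅) Classical.ofNonempty)
  have htn0 : 0 ≤ tn := by rw [htn]; positivity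
  have hcard : ((Rw R c d).card : ℝ) ≤ r := by
    have h1 : (Rw R c d).card ≤ r := (card_le_card inter_subset_right).trans (by rw [Nat.card_Ico]; omega)
    exact_mod_cast h1
  have hrNR : (r : ℝ) ≤ N := by exact_mod_cast hrN
  have hrow2 : ∑ j ∈ Rw R c d, avy ys (fun y => qM μ s N δk B b0 b f d l t u y j) ≤
      (B ^ 2 * (N : ℝ) ^ ε) * ∑ j ∈ Rw R c d, avy ys (fun y => ∫ ω, PP (wm μ s N (Pn N y) ω) (fun x x' =>
        RJ μ s N b0 j (j + b + b) l' q (4 * M) y ω x * rh (d - 3 * l) d (f y ω) x x') ∂(Pm μ N)) + N * tn := by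
    have h1 : ∀ j ∈ Rw R c d, avy ys (fun y => qM μ s N δk B b0 b f d l t u y j) ≤
        (B ^ 2 * (N : ℝ) ^ ε) * avy ys (fun y => ∫ ω, PP (wm μ s N (Pn N y) ω) (fun x x' =>
          RJ μ s N b0 j (j + b + b) l' q (4 * M) y ω x * rh (d - 3 * l) d (f y ω) x x') ∂(Pm μ N)) + tn := fun j hjR => by
      refine (avy_mono (hone j hjR)).trans ?_
      rw [avy_add, avy_mul]
      exact add_le_add le_rfl (Pool.Agent.W_7d29a1_C0.Far34.avy_const_le htn0)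
    refine (sum_le_sum h1).trans ?_
    rw [sum_add_distrib, ← mul_sum, sum_const, nsmul_eq_mul]
    exact add_le_add le_rfl (mul_le_mul_of_nonneg_right (hcard.trans hrNR) htn0)
  -- the price
  obtain ⟨V, hV⟩ : ∃ V : ℝ, V = avy ys (varF μ s N f) := ⟨_, rfl⟩
  rw [← hV] at hsum hv0 ⊢
  obtain ⟨k1, hk1⟩ : ∃ k1 : ℝ, k1 = k1E (EE' μ s) r b b0 l := ⟨_, rfl⟩
  have hk10 : 0 ≤ k1 := by
    rw [hk1]
    unfold k1E
    have := Ep b0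
    have := Ep (3 * l)
    positivity
  have hlb1 : 1 ≤ l := by omega
  have hb0N : b0 ≤ N := by omega
  have h3lN : 3 * l ≤ N := by omega
  have nM : 64 * (N : ℝ) ^ (9 : ℝ) * Real.exp (-M) ≤ 1 := by
    rw [hM]
    rwa [hM] at naM
  have hexp : e * (EE' μ s b0 ^ 2 * EE' μ s (3 * l)) ≤ 1 := by
    have h1 := U1 b0 (by omega) hb0N
    have h2 := U1 (3 * l) (by omega) h3lN
    have e0 := Ep b0
    have e3 := Ep (3 * l)
    have h3 : EE' μ s b0 ^ 2 * EE' μ s (3 * l) ≤ (N : ℝ) ^ 2 * N := by gcongr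
    have h4 : (N : ℝ) ^ 2 * N ≤ (N : ℝ) ^ (9 : ℝ) := by
      rw [Real.rpow_ofNat]
      calc (N : ℝ) ^ 2 * N = (N : ℝ) ^ 3 := by ring
        _ ≤ (N : ℝ) ^ 9 := pow_le_pow_right₀ hNR (by norm_num)
    have h5 := mul_le_mul_of_nonneg_left (h3.trans h4) he0
    refine h5.trans ?_
    rw [he]
    linarith
  have hkey : √(8 * (Rw R c d).card * ∑ D ∈ range r, phO μ s N ε e (3 * l) l' (3 * b) D) ≤ √(56 * ((N : ℝ) ^ ε) ^ 5 * k1) := by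
    refine Real.sqrt_le_sqrt ?_
    have h1 := phsum81 (μ := μ) (s := s) (N := N) (ε := ε) he0 (3 * l) l' (3 * b) r
    unfold lpr at h1
    simp only [List.map_cons, List.map_nil, List.prod_cons, List.prod_nil, mul_one] at h1
    rw [Nat.cast_mul, Nat.cast_ofNat] at h1
    have h2 := mul_le_mul_of_nonneg_left h1 (by positivity : (0 : ℝ) ≤ 8 * ((Rw R c d).card : ℝ))
    refine h2.trans ?_
    rw [hk1]
    unfold k1E
    exact pr81 (Real.one_le_rpow hNR hε.le) (Ep _) (Ep _) (Ep _) (U2 l' b0 hl'1 hl'b g3) he0 hexp (Nat.cast_nonneg _)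
      (by exact_mod_cast hbr) (Nat.cast_nonneg _) hcard
  have hBε : B ≤ (N : ℝ) ^ ε := hBN.trans (Real.rpow_le_rpow_of_exponent_le hNR (min_le_right _ _))
  have hmain := main81 hNR hB hBε n112 hεd hν hk10 hv0
  have htiny : N * tn ≤ (N : ℝ)⁻¹ := by
    rw [htn]
    exact tiny81 hNR hB hBε hεd hν hν1 hD0 hDN n8 hM haε nM nc'
  have h0 : 0 ≤ B ^ 2 * (N : ℝ) ^ ε := by positivity
  have f1 := mul_le_mul_of_nonneg_left (hsum.trans (mul_le_mul_of_nonneg_right hkey (Real.sqrt_nonneg _))) h0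
  rw [← hk1]
  linarith

end Block

end

end Pool.Agent.W_7d29a1_C0.E2aE81
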