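import Pool.Agent.W_7d29a1_C0.E2aT82
import Pool.Agent.W_7d29a1_C0.EstC46B

/-!
CURV0 (MP_7d29a1_pr, helper82): THE TWO NAMED PRICES OF (E2a) at the concrete frame: `MQL81` (the pair functional), `RQL81` (the remainder),
for every loss `n ^ ν`, all small `ι`, then `β`, then `γ`. `E2aU82`: (E2a) from them.
-/

set_option autoImplicit false

namespace Pool.Agent.W_7d29a1_C0.E2aT82

open Finset MeasureTheory Filter Topology Pool.Agent.W_7d29a1_F Pool.Agent.W_7d29a1_X Pool.Agent.W_7d29a1_H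
open Pool.Agent.W_7d29a1_C0 Pool.Agent.W_7d29a1_C0.Mod92 Pool.Agent.W_7d29a1_C0.Asm96 Pool.Agent.W_7d29a1_C0.CrA44
open Pool.Agent.W_7d29a1_C0.Frm33 Pool.Agent.W_7d29a1_C0.EstC46
open Pool.Agent.W_7d29a1_C0.Par92 (Sml Est)

noncomputable section

/-! ### The literal named prices -/

/-- The square of the price of the pair functional. -/
def k1s (E : ℕ → ℝ) (r b b0 : ℕ) : ℝ := (r : ℝ) ^ 2 / (E b0 ^ 2 * E r) + r * b / (E b0 * E r)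

/-- The square of the price of the remainder. -/
def k2s (E : ℕ → ℝ) (r b b0 : ℕ) : ℝ :=
  (r : ℝ) ^ 2 / (E r * E b ^ 2 * E b0 ^ 2) + (r : ℝ) ^ 2 / (E r ^ 2 * E b0 ^ 2) + r * b / (E b0 * E r)

/-- **(MQ)** at the concrete frame. -/
def MQL81 (μ : Measure ℝ) (s : ℝ) (K : ℕ) : Prop := Sml fun δ => Sml fun c => ∀ ν : ℝ, 0 < ν → Est fun ι β γ m =>
  Bl46 (frm33 μ s K ι β γ) (EE μ s) δ c m fun p q i f =>
    MQ81 μ s (L33 K m) γ (B33 β m) (2 ^ (p - ⌈ι * m⌉₊)) (2 ^ p) f (ys33 μ s K m) (R33 ι m) (i * 2 ^ q) ((i + 1) * 2 ^ q)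
      (gl46 ι m q) (((2 ^ m : ℕ) : ℝ) ^ ν * √(k1s (EE μ s) (2 ^ q) (2 ^ p) (2 ^ (p - ⌈ι * m⌉₊)))) (((2 ^ m : ℕ) : ℝ)⁻¹)

/-- **(RQ)** at the concrete frame. -/
def RQL81 (μ : Measure ℝ) (s : ℝ) (K : ℕ) : Prop := Sml fun δ => Sml fun c => ∀ ν : ℝ, 0 < ν → Est fun ι β γ m =>
  Bl46 (frm33 μ s K ι β γ) (EE μ s) δ c m fun p q i f =>
    RQ81 μ s (L33 K m) γ (B33 β m) (2 ^ (p - ⌈ι * m⌉₊)) (2 ^ p) f (ys33 μ s K m) (R33 ι m) (i * 2 ^ q) ((i + 1) * 2 ^ q)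
      (gl46 ι m q) (((2 ^ m : ℕ) : ℝ) ^ ν * √(k2s (EE μ s) (2 ^ q) (2 ^ p) (2 ^ (p - ⌈ι * m⌉₊)))) (((2 ^ m : ℕ) : ℝ)⁻¹)

end

end Pool.Agent.W_7d29a1_C0.E2aT82
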