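import Pool.Agent.W_7d29a1_C0.E2aE81
import Pool.Agent.W_7d29a1_C0.E2aP82

/-!
CURV0 (MP_7d29a1_pr), leaf E2a, part F (helper81): **`MQL81`**, the price of the pair functional of (E2a) at the concrete frame.
-/

set_option autoImplicit false
set_option linter.unusedSectionVars false
set_option linter.unusedVariables false

namespace Pool.Agent.W_7d29a1_C0.E2aF81

open Finset MeasureTheory Filter Topology Pool.Agent.W_7d29a1_F Pool.Agent.W_7d29a1_X Pool.Agent.W_7d29a1_H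
open Pool.Agent.W_7d29a1_HS (In)
open Pool.Agent.W_7d29a1_HZ (wd' EE')
open Pool.Agent.W_7d29a1_C0 Pool.Agent.W_7d29a1_C0.Mod92 Pool.Agent.W_7d29a1_C0.Asm96 Pool.Agent.W_7d29a1_C0.CrA44
open Pool.Agent.W_7d29a1_C0.Frm33 Pool.Agent.W_7d29a1_C0.EstC46
open Pool.Agent.W_7d29a1_C0.Par92 (Sml Est)
open Pool.Agent.W_7d29a1_C0.E2aT82 Pool.Agent.W_7d29a1_C0.E2aE81
open Pool.W7d29a1.C0.H27 (QI)

noncomputable section

variable {μ : Measure ℝ} {s : ℝ}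

theorem mq_mono {N : ℕ} {δ B : ℝ} {b0 b : ℕ} {f : Fam N} {ys R : Finset ℕ} {c d l : ℕ} {k e k' e' : ℝ}
    (h : MQ81 μ s N δ B b0 b f ys R c d l k e) (hk : k ≤ k') (he : e ≤ e') : MQ81 μ s N δ B b0 b f ys R c d l k' e' :=
  fun t ht u hu => (h t ht u hu).trans (add_le_add (mul_le_mul_of_nonneg_right hk (Real.sqrt_nonneg _)) he)

/-- The gap of a block is comparable with the block. -/
theorem gl81 {ι : ℝ} {m q : ℕ} (h16 : 16 ≤ ((2 ^ m : ℕ) : ℝ) ^ (-ι) * 2 ^ q) :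
    ((2 ^ m : ℕ) : ℝ) ^ (-ι) * 2 ^ q ≤ 16 * (gl46 ι m q : ℝ) := by
  unfold gl46
  have h := Nat.sub_one_lt_floor (((2 ^ m : ℕ) : ℝ) ^ (-ι) * 2 ^ q / 8)
  linarith

theorem k1_le81 [IsProbabilityMeasure μ] {r b b0 l : ℕ} {x : ℝ} (hx : 0 ≤ x) (h : EE μ s r ≤ x * EE μ s (3 * l)) :
    k1E (EE' μ s) r b b0 l ≤ x * k1s (EE μ s) r b b0 := by
  have e1 : 1 ≤ EE μ s r := one_le_EE r
  have e2 : 1 ≤ EE μ s b0 := one_le_EE b0
  have e3 : 1 ≤ EE μ s (3 * l) := one_le_EE _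
  unfold k1E k1s
  rw [EE'_eq46, EE'_eq46, mul_add]
  have h1 : (EE μ s (3 * l))⁻¹ ≤ x * (EE μ s r)⁻¹ := by
    rw [← div_eq_mul_inv, inv_eq_one_div, div_le_div_iff₀ (by linarith) (by linarith), one_mul]
    exact h
  refine add_le_add ?_ ?_
  · calc (r : ℝ) ^ 2 / (EE μ s b0 ^ 2 * EE μ s (3 * l)) = (r : ℝ) ^ 2 * (EE μ s b0 ^ 2)⁻¹ * (EE μ s (3 * l))⁻¹ := by
          field_simp
      _ ≤ (r : ℝ) ^ 2 * (EE μ s b0 ^ 2)⁻¹ * (x * (EE μ s r)⁻¹) := mul_le_mul_of_nonneg_left h1 (by positivity)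
      _ = x * ((r : ℝ) ^ 2 / (EE μ s b0 ^ 2 * EE μ s r)) := by field_simp
  · calc (r : ℝ) * b / (EE μ s b0 * EE μ s (3 * l)) = (r : ℝ) * b * (EE μ s b0)⁻¹ * (EE μ s (3 * l))⁻¹ := by
          field_simp
      _ ≤ (r : ℝ) * b * (EE μ s b0)⁻¹ * (x * (EE μ s r)⁻¹) := mul_le_mul_of_nonneg_left h1 (by positivity)
      _ = x * ((r : ℝ) * b / (EE μ s b0 * EE μ s r)) := by field_simp

/-- **(MQ) AT THE CONCRETE FRAME.** -/
theorem mql81 [IsProbabilityMeasure μ] {c₁ C : ℝ} {n₀ : ℕ} (h : In μ s c₁ C n₀) (hk : KapLe96 (EE μ s) (1 / 4))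
    (hQI : ∀ p : ℝ, 1 < p → ∃ C θ0 : ℝ, 0 ≤ C ∧ 0 < θ0 ∧ QI μ p C θ0) {K : ℕ} (hK : 32 ≤ K) : MQL81 μ s K := by
  obtain ⟨a, K₂, -, -, hK₂, hpow⟩ := Pool.Agent.W_7d29a1_HZ.EE'_pow h
  refine Sml.mono (Sml.le one_pos) fun δ hδ hδ1 => ⟨δ / 64, by positivity, fun c hc hcδ ν hν => ?_⟩
  have hK0 : (0 : ℝ) < K := by
    have : (32 : ℝ) ≤ K := by exact_mod_cast hK
    linarith
  have hK1 : (1 : ℝ) ≤ K := by
    have : (32 : ℝ) ≤ K := by exact_mod_cast hK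
    linarith
  obtain ⟨κ, hκd⟩ : ∃ κ : ℝ, κ = δ / (4 * K) := ⟨_, rfl⟩
  have hκ : 0 < κ := by rw [hκd]; positivity
  have hκ1 : κ ≤ 1 := by
    rw [hκd, div_le_one (by positivity)]
    linarith
  obtain ⟨ν', hν'd⟩ : ∃ ν' : ℝ, ν' = min ν 1 / (4 * K) := ⟨_, rfl⟩
  have hm1 : 0 < min ν 1 := lt_min hν one_pos
  have hν' : 0 < ν' := by rw [hν'd]; positivity
  have hν'1 : ν' ≤ 1 := by
    rw [hν'd, div_le_one (by positivity)]
    have := min_le_right ν 1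
    linarith
  obtain ⟨β₀, hβ₀, hblock⟩ := mq_block h hQI hκ hκ1 hν' hν'1
  refine ⟨min (δ / 16) ν, lt_min (by positivity) hν, fun ι hι hι' => ⟨K * β₀, by positivity, fun β hβ hβ' => Sml.of fun γ hγ => ?_⟩⟩
  have hιδ : ι ≤ δ / 16 := hι'.trans (min_le_left _ _)
  have hιν : ι ≤ ν := hι'.trans (min_le_right _ _)
  obtain ⟨δ', hδ', N₀, hN₀⟩ := hblock γ hγ
  filter_upwards [ev_L (by omega : 1 ≤ K) N₀, cone33 h hK hδ', b0_33 hδ (show ι ≤ δ / 4 by linarith), deep33_ev h hk hδ hc.le hcδ hιδ,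
    reg33 h hk hδ hc.le hcδ, ev_n (show 0 < δ / 16 by positivity) 16, ev_n (half_pos hι) (4 * K₂), ev_n one_pos 2]
    with m m1 m2 m3 m4 m5 m6 m7 m8 p q i hst hi D f hD hf
  obtain ⟨n, hn⟩ : ∃ n : ℝ, n = ((2 ^ m : ℕ) : ℝ) := ⟨_, rfl⟩
  have hn1 : 1 ≤ n := by
    rw [hn]
    exact n_ge1 m
  have hn0 : 0 < n := lt_of_lt_of_le one_pos hn1
  have hpq : p ≤ q := hst.hps.trans hst.hsq
  have hsm : sg96 (EE μ s) c m p ≤ m := hst.hsq.trans hst.hqm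
  have hNn : 2 ^ m ≤ L33 K m := L33_ge (by omega) m
  have hdm : (i + 1) * 2 ^ q ≤ 2 ^ m := by
    calc (i + 1) * 2 ^ q ≤ 2 ^ (m - q) * 2 ^ q := Nat.mul_le_mul_right _ hi
      _ = 2 ^ m := by rw [← pow_add, Nat.sub_add_cancel hst.hqm]
  have hqm : 2 ^ q ≤ 2 ^ m := Nat.pow_le_pow_right two_pos hst.hqm
  obtain ⟨-, -, hreg⟩ := m5 p hst.hp
  have hb1 : (1 : ℝ) ≤ ((2 ^ p : ℕ) : ℝ) := n_ge1 p
  -- the gap
  have hgap : 16 * ((2 ^ p : ℕ) : ℝ) ≤ n ^ (-ι) * 2 ^ q := by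
    have e1 : ((2 ^ sg96 (EE μ s) c m p : ℕ) : ℝ) ≤ 2 ^ q := by
      have : 2 ^ sg96 (EE μ s) c m p ≤ 2 ^ q := Nat.pow_le_pow_right two_pos hst.hsq
      exact_mod_cast this
    rw [← hn] at hreg m6
    have e2 : n ^ (-(δ / 16)) ≤ n ^ (-ι) := Real.rpow_le_rpow_of_exponent_le hn1 (by linarith)
    calc 16 * ((2 ^ p : ℕ) : ℝ) ≤ n ^ (δ / 16) * ((2 ^ p : ℕ) : ℝ) := mul_le_mul_of_nonneg_right m6 (by positivity)
      _ = n ^ (-(δ / 16)) * (n ^ (δ / 8) * ((2 ^ p : ℕ) : ℝ)) := by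
          rw [← mul_assoc, ← Real.rpow_add hn0]
          ring_nf
      _ ≤ n ^ (-ι) * 2 ^ q := mul_le_mul e2 (hreg.trans e1) (by positivity) (by positivity)
  have hgl := gl81 (ι := ι) (m := m) (q := q) (by rw [← hn]; linarith)
  rw [← hn] at hgl
  have hbl : 2 ^ p ≤ gl46 ι m q := by
    have : ((2 ^ p : ℕ) : ℝ) ≤ (gl46 ι m q : ℝ) := by linarith
    exact_mod_cast this
  have hgl8 : 8 * gl46 ι m q ≤ 2 ^ q := by
    have := gl_le46 (m := m) (q := q) (i := 0) hι.le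
    simpa using this
  have hBN : B33 β m ≤ ((L33 K m : ℕ) : ℝ) ^ β₀ := by
    rw [L33_pow]
    exact Real.rpow_le_rpow_of_exponent_le (n_ge1 m) hβ'
  have hdN : 2 * D ≤ ((L33 K m : ℕ) : ℝ) ^ (4 : ℝ) := by
    have e1 : (n : ℝ) ≤ ((L33 K m : ℕ) : ℝ) := by
      rw [hn]
      exact_mod_cast hNn
    rw [← hn] at hD m8
    rw [Real.rpow_one] at m8
    rw [Real.rpow_ofNat]
    calc 2 * D ≤ n * n ^ 3 := by
          have : 0 ≤ n ^ 3 := by positivity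
          nlinarith
      _ = n ^ 4 := by ring
      _ ≤ ((L33 K m : ℕ) : ℝ) ^ 4 := by gcongr
  have hys : (ys33 μ s K m).Nonempty := by
    unfold ys33
    rw [nonempty_Ico]
    have : 0 < M33 m := Nat.pos_of_ne_zero (by unfold M33; positivity)
    omega
  have hb0κ : ((L33 K m : ℕ) : ℝ) ^ κ ≤ ((2 ^ (p - ⌈ι * (m : ℝ)⌉₊) : ℕ) : ℝ) := by
    have e1 : (K : ℝ) * κ = δ / 4 := by
      rw [hκd]
      field_simp
    rw [L33_pow, e1]
    exact m3 p hst.hp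
  have key := hN₀ (L33 K m) m1 (ys33 μ s K m) hys (fun y hy => m2.2.2 y (by
      have := (mem_Ico.1 hy).1
      omega) (mem_Ico.1 hy).2.le) (B33 β m) (by unfold B33; positivity) hBN (2 ^ (p - ⌈ι * (m : ℝ)⌉₊)) (2 ^ p) (gl46 ι m q)
      (i * 2 ^ q) ((i + 1) * 2 ^ q) (2 ^ q) (i * 2 ^ q) (R33 ι m) D f hb0κ (Nat.pow_le_pow_right two_pos (Nat.sub_le _ _)) hbl
      (Nat.pow_le_pow_right two_pos hpq) (fun j hj => ⟨?_, kick46 Subset.rfl hst.hqm hj⟩) (le_of_eq (by ring)) (hdm.trans hNn)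
      (hqm.trans hNn) hf hdN
  · refine mq_mono key ?_ ?_
    · -- the factor
      have hl3 : 1 ≤ 3 * gl46 ι m q := by
        have : 1 ≤ 2 ^ p := Nat.one_le_two_pow
        omega
      have h1 := (hpow (3 * gl46 ι m q) (2 ^ q) hl3 (by omega)).2.2
      rw [EE'_eq46, EE'_eq46] at h1
      have h2 : (((2 ^ q : ℕ) : ℝ) / ((3 * gl46 ι m q : ℕ) : ℝ)) ≤ (4 * n ^ (ι / 2)) ^ 2 := by
        have hl0 : (0 : ℝ) < ((3 * gl46 ι m q : ℕ) : ℝ) := by exact_mod_cast hl3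
        rw [div_le_iff₀ hl0]
        push_cast
        have e1 : (4 * n ^ (ι / 2)) ^ 2 = 16 * n ^ ι := by
          have : n ^ ι = n ^ (ι / 2) * n ^ (ι / 2) := by
            rw [← Real.rpow_add hn0]
            ring_nf
          rw [this]
          ring
        have e2 : n ^ ι * (n ^ (-ι) * 2 ^ q) = 2 ^ q := by
          rw [← mul_assoc, ← Real.rpow_add hn0, add_neg_cancel, Real.rpow_zero, one_mul]
        have e3 := mul_le_mul_of_nonneg_left hgl (Real.rpow_nonneg hn0.le ι)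
        rw [e2] at e3
        rw [e1]
        have e4 : 0 ≤ n ^ ι * (gl46 ι m q : ℝ) := by positivity
        linarith
      have h3 : Real.sqrt (((2 ^ q : ℕ) : ℝ) / ((3 * gl46 ι m q : ℕ) : ℝ)) ≤ 4 * n ^ (ι / 2) := by
        rw [Real.sqrt_le_left (by positivity)]
        exact h2
      have h4 : EE μ s (2 ^ q) ≤ n ^ ι * EE μ s (3 * gl46 ι m q) := by
        have e0 : 1 ≤ EE μ s (3 * gl46 ι m q) := one_le_EE _
        refine h1.trans (mul_le_mul_of_nonneg_right ?_ (by linarith))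
        rw [← hn] at m7
        calc K₂ * Real.sqrt (((2 ^ q : ℕ) : ℝ) / ((3 * gl46 ι m q : ℕ) : ℝ)) ≤ K₂ * (4 * n ^ (ι / 2)) :=
              mul_le_mul_of_nonneg_left h3 (by linarith)
          _ = (4 * K₂) * n ^ (ι / 2) := by ring
          _ ≤ n ^ (ι / 2) * n ^ (ι / 2) := mul_le_mul_of_nonneg_right m7 (by positivity)
          _ = n ^ ι := by
              rw [← Real.rpow_add hn0]
              ring_nf
      have h5 := k1_le81 (μ := μ) (s := s) (r := 2 ^ q) (b := 2 ^ p) (b0 := 2 ^ (p - ⌈ι * (m : ℝ)⌉₊)) (l := gl46 ι m q)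
        (Real.rpow_nonneg hn0.le ι) h4
      have h6 : ((L33 K m : ℕ) : ℝ) ^ ν' ≤ n ^ (ν / 4) := by
        rw [L33_pow, ← hn]
        refine Real.rpow_le_rpow_of_exponent_le hn1 ?_
        have e1 : (K : ℝ) * ν' = min ν 1 / 4 := by
          rw [hν'd]
          field_simp
        rw [e1]
        have := min_le_left ν 1
        linarith
      rw [← hn]
      calc ((L33 K m : ℕ) : ℝ) ^ ν' * √(k1E (EE' μ s) (2 ^ q) (2 ^ p) (2 ^ (p - ⌈ι * (m : ℝ)⌉₊)) (gl46 ι m q))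
          ≤ n ^ (ν / 4) * √(n ^ ι * k1s (EE μ s) (2 ^ q) (2 ^ p) (2 ^ (p - ⌈ι * (m : ℝ)⌉₊))) :=
            mul_le_mul h6 (Real.sqrt_le_sqrt h5) (Real.sqrt_nonneg _) (by positivity)
        _ = n ^ (ν / 4) * n ^ (ι / 2) * √(k1s (EE μ s) (2 ^ q) (2 ^ p) (2 ^ (p - ⌈ι * (m : ℝ)⌉₊))) := by
            rw [Real.sqrt_mul (by positivity), Real.sqrt_eq_rpow (n ^ ι), ← Real.rpow_mul hn0.le]
            ring_nf
        _ ≤ n ^ ν * √(k1s (EE μ s) (2 ^ q) (2 ^ p) (2 ^ (p - ⌈ι * (m : ℝ)⌉₊))) := by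
            refine mul_le_mul_of_nonneg_right ?_ (Real.sqrt_nonneg _)
            rw [← Real.rpow_add hn0]
            exact Real.rpow_le_rpow_of_exponent_le hn1 (by linarith)
    · have e1 : n ≤ ((L33 K m : ℕ) : ℝ) := by
        rw [hn]
        exact_mod_cast hNn
      rw [← hn]
      exact inv_anti₀ hn0 e1
  · have hjR : j ∈ R33 ι m := (mem_inter.1 hj).1
    have := (m4 p hst.hp hsm j hjR).1
    omega

end

end Pool.Agent.W_7d29a1_C0.E2aF81
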