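import Pool.Agent.W_7d29a1_C0.E2aG82

/-!
CURV0 (MP_7d29a1_pr, helper82): the end of (E2a) of one block: the three terms and the error (`fin82`).
-/

set_option autoImplicit false
set_option linter.unusedSectionVars false
set_option linter.unusedVariables false

namespace Pool.Agent.W_7d29a1_C0.E2aT82

open Finset MeasureTheory Filter Topology Pool.Agent.W_7d29a1_F Pool.Agent.W_7d29a1_X Pool.Agent.W_7d29a1_H
open Pool.Agent.W_7d29a1_HS (In wd)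
open Pool.Agent.W_7d29a1_HZ (wd' EE')
open Pool.Agent.W_7d29a1_C0 Pool.Agent.W_7d29a1_C0.Mod92 Pool.Agent.W_7d29a1_C0.Asm96 Pool.Agent.W_7d29a1_C0.CrA44
open Pool.Agent.W_7d29a1_C0.Frm33 Pool.Agent.W_7d29a1_C0.EstC46 Pool.Agent.W_7d29a1_C0.Far34 Pool.Agent.W_7d29a1_C0.E2aN82
open Pool.Agent.W_7d29a1_C0.Par92 (Sml Est)
open Pool.Agent.W_7d29a1_C0.H32 (DenLaw SG sc)
open Pool.Agent.W_7d29a1_C0.Q32 Pool.W7d29a1.C0.H27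

noncomputable section

variable {μ : Measure ℝ} {s : ℝ}

/-- The end: the three terms and the error. -/
theorem fin82 [IsProbabilityMeasure μ] {N b0 b c1 d l r σ ρ : ℕ} {n γ B ν η x δ c c₀ a Θ K0 P F e0 : ℝ} {f : Fam N} {ys Rr : Finset ℕ}
    (R : Reg46 (EE μ s) (wd μ s) c₀ Θ (δ / 2) a ν n) (hBs : Bs46 (EE μ s) (δ / 2) c n b σ r) (hν0 : 0 < ν) (hx : 0 < x)
    (hνx : 20 * ν ≤ x) (hxc : x ≤ c / 8) (hη : η = c / 8) (hcΘ : c ≤ Θ / 16) (hν1 : ν ≤ 1 / 1024) (hb01 : 1 ≤ b0) (hb0b : b0 ≤ b)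
    (hC : (b : ℝ) ≤ n ^ (2 * ν) * b0) (hl1 : 1 ≤ l) (hC' : (r : ℝ) ≤ n ^ (2 * ν) * l) (h64 : 64 ≤ n ^ ν) (hK0 : 1 ≤ K0)
    (hk0n : 14 * K0 ≤ n ^ ν) (h32 : 32 ≤ n ^ (1 / 2 : ℝ)) (hB1 : 1 ≤ B) (hBν : B ≤ n ^ ν) (hys : ∀ y ∈ ys, y ≤ N) (hP0 : 0 ≤ P)
    (hxM : ∀ y ∈ ys, xM μ s N f d l y ≤ √(2 * varF μ s N f y) * √P) (he00 : 0 ≤ e0) (herr : r * e0 ≤ 1 / 32)
    (hcard : (Rw Rr c1 d).card ≤ r) (M1 : MQ81 μ s N γ B b0 b f ys Rr c1 d l (n ^ ν * √(k1s (EE μ s) r b b0)) n⁻¹)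
    (M2 : RQ81 μ s N γ B b0 b f ys Rr c1 d l (n ^ ν * √(k2s (EE μ s) r b b0)) n⁻¹) (hρ : Rg46 (δ / 2) n ρ)
    (hρr : ρ ≤ r ∨ (r ≤ ρ ∧ n ^ (1 - η) ≤ r)) (hwρe : wd' μ s ρ = wd μ s ρ) (hT : 14 * (n ^ ν * K0 * wd' μ s ρ) ≤ l) (hF : 0 ≤ F)
    (hfar : r * F * (√2 * √P) ≤ n ^ (-x) * √((r : ℝ) * n ^ Θ) / 4)
    (hrows : ∀ t ∈ Set.Icc (-1 : ℝ) 1, ∀ u ∈ Set.Icc (-1 : ℝ) 1, ∀ j ∈ Rw Rr c1 d, ∀ y ∈ ys,
      |fE2a μ s N γ B b0 b f t u y j| ≤ B / 2 * B * √(14 * (n ^ ν * K0 * wd' μ s ρ) / l) * qM μ s N γ B b0 b f d l t u y j +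
        B * rM μ s N γ B b0 b f d l t u y j + F * xM μ s N f d l y + e0) :
    PE2a μ s N γ B b0 b f ys Rr c1 d (n ^ (-x) * √((r : ℝ) * n ^ Θ)) (1 / 8) := by
  have hN1 : 1 < n := R.N1
  have hn0 : 0 < n := by linarith
  have hrg : Rg46 (δ / 2) n r := hBs.hr
  have hB0 : 0 < B := by linarith
  have hlR : (0 : ℝ) < l := by exact_mod_cast hl1
  have hw1 : ∀ k, 1 ≤ wd' μ s k := fun k => le_max_left _ _
  have hBn : B ≤ n ^ (1 / 4 : ℝ) := hBν.trans (Real.rpow_le_rpow_of_exponent_le hN1.le (by linarith))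
  have hB2 : B ^ 2 ≤ n ^ (1 / 2 : ℝ) := by
    calc B ^ 2 ≤ (n ^ (1 / 4 : ℝ)) ^ 2 := pow_le_pow_left₀ hB0.le hBn 2
      _ = n ^ (1 / 2 : ℝ) := by rw [← Real.rpow_natCast, ← Real.rpow_mul hn0.le]; norm_num
  obtain ⟨A, hA⟩ : ∃ A : ℝ, A = B / 2 * B * √(14 * (n ^ ν * K0 * wd' μ s ρ) / l) := ⟨_, rfl⟩
  rw [← hA] at hrows
  have hwρ := R.w0 ρ (hρ.npos hN1)
  have hA0 : 0 ≤ A := by rw [hA]; have := hw1 ρ; positivity
  have hA1 : A ≤ n ^ (1 / 2 : ℝ) / 2 := by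
    have h3 : √(14 * (n ^ ν * K0 * wd' μ s ρ) / l) ≤ 1 := Real.sqrt_le_one.2 ((div_le_one hlR).2 hT)
    calc A ≤ B / 2 * B * 1 := by rw [hA]; exact mul_le_mul_of_nonneg_left h3 (by positivity)
      _ = B ^ 2 / 2 := by ring
      _ ≤ _ := by linarith
  have hA2 : A ^ 2 ≤ n ^ (6 * ν) * (wd μ s ρ / l) := by
    have h3 : A ^ 2 = B ^ 4 / 4 * (14 * (n ^ ν * K0 * wd μ s ρ) / l) := by
      rw [hA, hwρe, mul_pow, Real.sq_sqrt (by positivity)]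
      ring
    have h4 : B ^ 4 ≤ n ^ (4 * ν) := by
      calc B ^ 4 ≤ (n ^ ν) ^ 4 := pow_le_pow_left₀ hB0.le hBν 4
        _ = n ^ (4 * ν) := by rw [← Real.rpow_natCast, ← Real.rpow_mul hn0.le]; norm_num; ring_nf
    have h5 : 14 * (n ^ ν * K0 * wd μ s ρ) / l ≤ n ^ (2 * ν) * (wd μ s ρ / l) := by
      have e5 : 14 * (n ^ ν * K0 * wd μ s ρ) / l = 14 * K0 * (n ^ ν * (wd μ s ρ / l)) := by ring
      rw [e5, show 2 * ν = ν + ν by ring, Real.rpow_add hn0, mul_assoc (n ^ ν) (n ^ ν)]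
      exact mul_le_mul_of_nonneg_right hk0n (by positivity)
    rw [h3]
    calc B ^ 4 / 4 * (14 * (n ^ ν * K0 * wd μ s ρ) / l) ≤ n ^ (4 * ν) * (n ^ (2 * ν) * (wd μ s ρ / l)) :=
          mul_le_mul (by linarith [pow_pos hB0 4]) h5 (by positivity) (by positivity)
      _ = n ^ (6 * ν) * (wd μ s ρ / l) := by rw [← mul_assoc, ← Real.rpow_add hn0]; ring_nf
  have hn2 : (n ^ ν) ^ 2 = n ^ (2 * ν) := by rw [← Real.rpow_natCast, ← Real.rpow_mul hn0.le]; norm_num; ring_nf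
  have hEr := R.Epos r
  have hEb := R.Epos b
  have hEb0 := R.Epos b0
  have T1 := main82 R hBs (by linarith) le_rfl hb01 hb0b hC hl1 hC' hρ (lwρ R hrg hρ hρr (by linarith)) (by linarith) (x := x)
    (by nlinarith) hA2 (K1 := n ^ ν * √(k1s (EE μ s) r b b0)) (le_of_eq (by
      rw [mul_pow, hn2, Real.sq_sqrt (by unfold k1s; positivity)]
      rfl))
  have T2 := rem82 R hBs le_rfl hb01 hb0b hC (by linarith) (x := x) (by linarith) (by linarith)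
    (A := B) (K2 := n ^ ν * √(k2s (EE μ s) r b b0)) (by
      rw [← hn2]
      exact pow_le_pow_left₀ hB0.le hBν 2) (le_of_eq (by
      rw [mul_pow, hn2, Real.sq_sqrt (by unfold k2s; positivity)]
      rfl))
  refine PE2a.mono82 (pe2a_sum hys hA0 hB0.le hF hP0 he00 M1 M2 hcard hrows hxM) ?_ ?_
  · have h0 : 0 ≤ n ^ (-x) * √((r : ℝ) * n ^ Θ) := by positivity
    linarith
  · have h3 : A * n⁻¹ ≤ 1 / 64 := by
      have h4 : n ^ (1 / 2 : ℝ) * n⁻¹ ≤ 1 / 32 := by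
        have h5 : n ^ (1 / 2 : ℝ) * n ^ (1 / 2 : ℝ) = n := by rw [← Real.rpow_add hn0]; norm_num
        rw [← div_eq_mul_inv, div_le_div_iff₀ hn0 (by norm_num)]
        nlinarith [Real.rpow_pos_of_pos hn0 (1 / 2 : ℝ)]
      have h6 := mul_le_mul_of_nonneg_right hA1 (inv_pos.2 hn0).le
      linarith
    have h4 : B * n⁻¹ ≤ 1 / 32 := by
      have h5 : n ^ (1 / 2 : ℝ) * n ^ (1 / 2 : ℝ) = n := by rw [← Real.rpow_add hn0]; norm_num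
      have h6 : B ≤ n ^ (1 / 2 : ℝ) := by nlinarith
      rw [← div_eq_mul_inv, div_le_div_iff₀ hn0 (by norm_num)]
      nlinarith [Real.rpow_pos_of_pos hn0 (1 / 2 : ℝ)]
    linarith

/-- Pure algebra: the error of one row, tubes. -/
theorem pure_a82 {B n P X Q E1 E1' E3 E4 M Ei xm : ℝ} (hB : 0 ≤ B) (hn : 0 ≤ n) (hP : 0 ≤ P) (hM : 0 ≤ M) (h1 : E1 ≤ X) (h1' : E1' ≤ X)
    (h3 : E3 ≤ X) (h4 : E4 ≤ X) :
    Q + B * (B / 2) ^ 2 * (P * (P * Ei * xm + 2 * n ^ 3 * E1' + E4) + 4 * n ^ 3 * E1) + 4 * (B / 2) ^ 3 * n ^ 3 * E1 +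
        8 * (B / 2) ^ 3 * n ^ 3 * M ^ 2 * E3 ≤
      Q + B * (B / 2) ^ 2 * (P * (P * Ei)) * xm + (B * (B / 2) ^ 2 * (P * (2 * n ^ 3 * X + X) + 4 * n ^ 3 * X) + 4 * (B / 2) ^ 3 * n ^ 3 * X +
        8 * (B / 2) ^ 3 * n ^ 3 * M ^ 2 * X) := by
  have m1 := mul_le_mul_of_nonneg_left h1' (by positivity : 0 ≤ 2 * n ^ 3)
  have m2 := mul_le_mul_of_nonneg_left h1 (by positivity : 0 ≤ 4 * n ^ 3)
  have m3 := mul_le_mul_of_nonneg_left h1 (by positivity : 0 ≤ 4 * (B / 2) ^ 3 * n ^ 3)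
  have m4 := mul_le_mul_of_nonneg_left h3 (by positivity : 0 ≤ 8 * (B / 2) ^ 3 * n ^ 3 * M ^ 2)
  have m5 : P * (P * Ei * xm + 2 * n ^ 3 * E1' + E4) ≤ P * (P * Ei * xm + 2 * n ^ 3 * X + X) :=
    mul_le_mul_of_nonneg_left (by linarith) hP
  have m6 := mul_le_mul_of_nonneg_left (add_le_add m5 m2) (by positivity : 0 ≤ B * (B / 2) ^ 2)
  refine (add_le_add (add_le_add (add_le_add (le_refl Q) m6) m3) m4).trans (le_of_eq ?_)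
  ring

/-- Pure algebra: the error of one row, cone. -/
theorem pure_b82 {B n P X Q E1 E3 M xm : ℝ} (hB : 0 ≤ B) (hn : 0 ≤ n) (hP : 0 ≤ P) (hX : 0 ≤ X) (hM : 1 ≤ M) (h1 : E1 ≤ X) (h3 : E3 ≤ X) :
    Q + 8 * (B / 2) ^ 3 * n ^ 3 * E1 + 8 * (B / 2) ^ 3 * n ^ 3 * E3 ≤
      Q + 0 * xm + (B * (B / 2) ^ 2 * (P * (2 * n ^ 3 * X + X) + 4 * n ^ 3 * X) + 4 * (B / 2) ^ 3 * n ^ 3 * X +
        8 * (B / 2) ^ 3 * n ^ 3 * (M + 1) ^ 2 * X) := by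
  have m3 := mul_le_mul_of_nonneg_left h1 (by positivity : 0 ≤ 8 * (B / 2) ^ 3 * n ^ 3)
  have m4 := mul_le_mul_of_nonneg_left h3 (by positivity : 0 ≤ 8 * (B / 2) ^ 3 * n ^ 3)
  have h5 : 8 * (B / 2) ^ 3 * n ^ 3 * X * 2 ≤ 8 * (B / 2) ^ 3 * n ^ 3 * X * (M + 1) ^ 2 :=
    mul_le_mul_of_nonneg_left (by nlinarith) (by positivity)
  have h6 : 0 ≤ B * (B / 2) ^ 2 * (P * (2 * n ^ 3 * X + X) + 4 * n ^ 3 * X) + 4 * (B / 2) ^ 3 * n ^ 3 * X := by positivity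
  linarith

end

end Pool.Agent.W_7d29a1_C0.E2aT82
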