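import Pool.Agent.W_7d29a1_C0.Led4

/-!
CURV0 (MP_7d29a1_pr, helper82): THE NUMBERS OF (E2a). `ρ` = the scale of the tubes (`4 l`, or the length of the system in the root case),
`l` = the length of the slab, `b₀` = the finer window. `main82`, `rem82`, `far82`: the three terms of `pe2a_sum` (E2aT82) against
`n ^ (-x) √(r n ^ Θ)`.
-/

set_option autoImplicit false
set_option linter.unusedSimpArgs false
set_option linter.unusedVariables false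

namespace Pool.Agent.W_7d29a1_C0.E2aN82

open Finset
open Pool.Agent.W_7d29a1_C0

variable {E w : ℕ → ℝ} {c₀ Θ δ a ε n c C C' η ν x : ℝ} {b b₀ l r s ρ : ℕ}

/-- The width of the tubes. -/
theorem lwρ (R : Reg46 E w c₀ Θ δ a ε n) (hr : Rg46 δ n r) (hρ : Rg46 δ n ρ) (h : ρ ≤ r ∨ (r ≤ ρ ∧ n ^ (1 - η) ≤ r)) (hη : 0 ≤ η) :
    Real.logb n (w ρ) ≤ 2 * Real.logb n (E r) + η + 3 * ε := by
  have h1 := R.lw hρ
  have hε := R.ε0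
  rcases h with h | ⟨h, h'⟩
  · linarith [R.lmono h]
  · have h2 := R.lhalf (hr.npos R.N1) h
    have h3 := hρ.lx1 R.N1
    have h4 := to_lg46 R.N1 (Real.rpow_pos_of_pos R.N0 _) h'
    rw [lgN46 R.N1] at h4
    linarith

/-- One gain, two ties at the windows of the length `b₀`. -/
theorem gain1 (R : Reg46 E w c₀ Θ δ a ε n) (h : Bs46 E δ c n b s r) (hb₀ : 1 ≤ b₀) (hb : b₀ ≤ b) (hC : (b : ℝ) ≤ n ^ C * b₀)
    (hl : 1 ≤ l) (hC' : (r : ℝ) ≤ n ^ C' * l) (hρ : Rg46 δ n ρ) (hw : Real.logb n (w ρ) ≤ 2 * Real.logb n (E r) + η + 3 * ε) :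
    w ρ / l * (r / (E b₀ ^ 2 * E r)) ≤ n ^ (C + C' + η + 5 * ε - c) := by
  obtain ⟨hN, h1, h2, h3, h4, h5, h6, h7, h8, h9⟩ := h.ps R
  have hE'' := R.Epos b₀
  have hwρ := R.w0 ρ (hρ.npos R.N1)
  have hl' : (0 : ℝ) < l := by exact_mod_cast hl
  refine le_pow46 R.N1 (by positivity) ?_
  simp (disch := positivity) only [Real.sqrt_eq_rpow, Real.logb_mul, Real.logb_div, Real.logb_pow, Real.logb_inv,
    Real.logb_rpow_eq_mul_logb_of_pos, Real.logb_one, Nat.cast_ofNat]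
  linarith [h.lpin R, lb0 R hb₀ hb hC, lC4 R hl (h.hr.npos R.N1) hC']

/-- One gain, near pairs, one tie. -/
theorem gain2 (R : Reg46 E w c₀ Θ δ a ε n) (h : Bs46 E δ c n b s r) (hε : ε ≤ c / 4) (hb₀ : 1 ≤ b₀) (hb : b₀ ≤ b)
    (hC : (b : ℝ) ≤ n ^ C * b₀) (hl : 1 ≤ l) (hC' : (r : ℝ) ≤ n ^ C' * l) (hρ : Rg46 δ n ρ)
    (hw : Real.logb n (w ρ) ≤ 2 * Real.logb n (E r) + η + 3 * ε) :
    w ρ / l * (b / (E b₀ * E r)) ≤ n ^ (C / 2 + C' + η + 5 * ε - 3 * c) := by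
  obtain ⟨hN, h1, h2, h3, h4, h5, h6, h7, h8, h9⟩ := h.ps R
  have hE'' := R.Epos b₀
  have hwρ := R.w0 ρ (hρ.npos R.N1)
  have hl' : (0 : ℝ) < l := by exact_mod_cast hl
  have hc := h.c0
  refine le_pow46 R.N1 (by positivity) ?_
  simp (disch := positivity) only [Real.sqrt_eq_rpow, Real.logb_mul, Real.logb_div, Real.logb_pow, Real.logb_inv,
    Real.logb_rpow_eq_mul_logb_of_pos, Real.logb_one, Nat.cast_ofNat]
  linarith [lb0 R hb₀ hb hC, lC4 R hl (h.hr.npos R.N1) hC', R.lhalf (h.hb.npos R.N1) (h.bs.trans h.sr), h.lsr R hε,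
    R.lxmono (h.hb.npos R.N1) h.bs]

/-- Near pairs, one tie at the window of the length `b₀`. -/
theorem near0 (R : Reg46 E w c₀ Θ δ a ε n) (h : Bs46 E δ c n b s r) (hb₀ : 1 ≤ b₀) (hb : b₀ ≤ b) (hC : (b : ℝ) ≤ n ^ C * b₀) :
    (b : ℝ) / (E b₀ * E r) ≤ n ^ (3 / 4 * (Θ + ε) + 9 / 8 * c + C / 2 + ε) := by
  obtain ⟨hN, h1, h2, h3, h4, h5, h6, h7, h8, h9⟩ := h.ps R
  have hE'' := R.Epos b₀
  refine le_pow46 R.N1 (by positivity) ?_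
  simp (disch := positivity) only [Real.sqrt_eq_rpow, Real.logb_mul, Real.logb_div, Real.logb_pow, Real.logb_inv,
    Real.logb_rpow_eq_mul_logb_of_pos, Real.logb_one, Nat.cast_ofNat]
  linarith [h.lkb R, h.lup R, lb0 R hb₀ hb hC]

/-- The far branch. -/
theorem farN (R : Reg46 E w c₀ Θ δ a ε n) (hr : Rg46 δ n r) (hl : 1 ≤ l) (hlr : l ≤ r) (hC' : (r : ℝ) ≤ n ^ C' * l)
    (hη : (r : ℝ) ≤ n ^ (1 - η)) : (r : ℝ) / (E (4 * l) ^ 2 * E (3 * l)) ≤ n ^ ((1 - η) * (Θ + ε) + 3 / 2 * C' + 3 * ε) := by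
  have h1 := R.Epos (4 * l)
  have h2 := R.Epos (3 * l)
  have h3 := hr.pos R.N1
  refine le_pow46 R.N1 (by positivity) ?_
  simp (disch := positivity) only [Real.sqrt_eq_rpow, Real.logb_mul, Real.logb_div, Real.logb_pow, Real.logb_inv,
    Real.logb_rpow_eq_mul_logb_of_pos, Real.logb_one, Nat.cast_ofNat]
  linarith [lsm R hr hη, R.lmono (show l ≤ 4 * l by omega), R.lmono (show l ≤ 3 * l by omega), R.lhalf hl hlr,
    lC4 R hl (hr.npos R.N1) hC']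

/-- From the square. -/
theorem le_of_sq82 {T κ : ℝ} (hκ : 0 ≤ κ) (h : T ^ 2 ≤ κ ^ 2 / 16) : T ≤ κ / 4 := by
  refine le_of_sq_le_sq (a := T) (b := κ / 4) ?_ (by positivity)
  calc T ^ 2 ≤ κ ^ 2 / 16 := h
    _ = (κ / 4) ^ 2 := by ring

/-- **The main term.** -/
theorem main82 (R : Reg46 E w c₀ Θ δ a ε n) (h : Bs46 E δ c n b s r) (hε : ε ≤ c / 4) (hεν : ε ≤ ν) (hb₀ : 1 ≤ b₀) (hb : b₀ ≤ b)
    (hC : (b : ℝ) ≤ n ^ (2 * ν) * b₀) (hl : 1 ≤ l) (hC' : (r : ℝ) ≤ n ^ (2 * ν) * l) (hρ : Rg46 δ n ρ)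
    (hw : Real.logb n (w ρ) ≤ 2 * Real.logb n (E r) + η + 3 * ε) (hν : 32 ≤ n ^ ν) (hx : 18 * ν + η + 2 * x ≤ c + Θ) {A K1 : ℝ}
    (hA : A ^ 2 ≤ n ^ (6 * ν) * (w ρ / l))
    (hK : K1 ^ 2 ≤ n ^ (2 * ν) * ((r : ℝ) ^ 2 / (E b₀ ^ 2 * E r) + r * b / (E b₀ * E r))) :
    A * K1 ≤ n ^ (-x) * √(r * n ^ Θ) / 4 := by
  obtain ⟨hN, h1, h2, h3, h4, h5, h6, h7, h8, h9⟩ := h.ps R
  have hE'' := R.Epos b₀
  have hwρ := R.w0 ρ (hρ.npos R.N1)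
  have hl' : (0 : ℝ) < l := by exact_mod_cast hl
  have hc := h.c0
  have hN1 := R.N1
  refine le_of_sq82 (by positivity) ?_
  have g1 := gain1 R h hb₀ hb hC hl hC' hρ hw
  have g2 := gain2 R h hε hb₀ hb hC hl hC' hρ hw
  have y1 : n ^ (2 * ν + 2 * ν + η + 5 * ε - c) ≤ n ^ (Θ - 2 * x - 9 * ν) := Real.rpow_le_rpow_of_exponent_le hN1.le (by linarith)
  have y2 : n ^ (2 * ν / 2 + 2 * ν + η + 5 * ε - 3 * c) ≤ n ^ (Θ - 2 * x - 9 * ν) := Real.rpow_le_rpow_of_exponent_le hN1.le (by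
    have : 0 ≤ ν := by
      by_contra hneg
      have : n ^ ν ≤ n ^ (0 : ℝ) := Real.rpow_le_rpow_of_exponent_le hN1.le (by linarith)
      rw [Real.rpow_zero] at this
      linarith
    linarith)
  have e1 : A ^ 2 * K1 ^ 2 ≤ (n ^ (6 * ν) * (w ρ / l)) * (n ^ (2 * ν) * ((r : ℝ) ^ 2 / (E b₀ ^ 2 * E r) + r * b / (E b₀ * E r))) :=
    mul_le_mul hA hK (sq_nonneg _) (by positivity)
  have e2 : (n ^ (6 * ν) * (w ρ / l)) * (n ^ (2 * ν) * ((r : ℝ) ^ 2 / (E b₀ ^ 2 * E r) + r * b / (E b₀ * E r))) =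
      n ^ (8 * ν) * r * (w ρ / l * (r / (E b₀ ^ 2 * E r)) + w ρ / l * (b / (E b₀ * E r))) := by
    rw [show 8 * ν = 6 * ν + 2 * ν by ring, Real.rpow_add hN]
    ring
  have e3 : n ^ (8 * ν) * r * (w ρ / l * (r / (E b₀ ^ 2 * E r)) + w ρ / l * (b / (E b₀ * E r))) ≤
      n ^ (8 * ν) * r * (2 * n ^ (Θ - 2 * x - 9 * ν)) := mul_le_mul_of_nonneg_left (by linarith [g1.trans y1, g2.trans y2]) (by positivity)
  have e4 : n ^ (8 * ν) * r * (2 * n ^ (Θ - 2 * x - 9 * ν)) ≤ n ^ (8 * ν) * r * (n ^ ν * n ^ (Θ - 2 * x - 9 * ν)) / 16 := by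
    have h0 : 0 < n ^ (8 * ν) * r * n ^ (Θ - 2 * x - 9 * ν) := by positivity
    nlinarith
  have e5 : n ^ (8 * ν) * r * (n ^ ν * n ^ (Θ - 2 * x - 9 * ν)) = (n ^ (-x) * √(r * n ^ Θ)) ^ 2 := by
    rw [mul_pow, Real.sq_sqrt (by positivity), ← Real.rpow_natCast, ← Real.rpow_mul hN.le,
      show (8 * ν) = (8 * ν) by rfl, ← Real.rpow_add hN]
    rw [show n ^ (8 * ν) * ↑r * n ^ (ν + (Θ - 2 * x - 9 * ν)) = r * (n ^ (8 * ν) * n ^ (ν + (Θ - 2 * x - 9 * ν))) by ring,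
      show n ^ (-x * ((2 : ℕ) : ℝ)) * (↑r * n ^ Θ) = r * (n ^ (-x * ((2 : ℕ) : ℝ)) * n ^ Θ) by ring, ← Real.rpow_add hN, ← Real.rpow_add hN]
    congr 2
    push_cast
    ring
  rw [mul_pow]
  rw [← e5]
  linarith

/-- **The remainder.** -/
theorem rem82 (R : Reg46 E w c₀ Θ δ a ε n) (h : Bs46 E δ c n b s r) (hεν : ε ≤ ν) (hb₀ : 1 ≤ b₀) (hb : b₀ ≤ b)
    (hC : (b : ℝ) ≤ n ^ (2 * ν) * b₀) (hν : 64 ≤ n ^ ν) (hx1 : 12 * ν + 2 * x ≤ c) (hx2 : 12 * ν + 2 * x + 9 / 8 * c ≤ Θ / 4) {A K2 : ℝ}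
    (hA : A ^ 2 ≤ n ^ (2 * ν)) (hK : K2 ^ 2 ≤ n ^ (2 * ν) * ((r : ℝ) ^ 2 / (E r * E b ^ 2 * E b₀ ^ 2) + (r : ℝ) ^ 2 / (E r ^ 2 * E b₀ ^ 2) +
      r * b / (E b₀ * E r))) :
    A * K2 ≤ n ^ (-x) * √(r * n ^ Θ) / 4 := by
  obtain ⟨hN, h1, h2, h3, h4, h5, h6, h7, h8, h9⟩ := h.ps R
  have hE'' := R.Epos b₀
  have hc := h.c0
  have hN1 := R.N1
  have hν0 : 0 ≤ ν := by
    by_contra hneg
    have : n ^ ν ≤ n ^ (0 : ℝ) := Real.rpow_le_rpow_of_exponent_le hN1.le (by linarith)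
    rw [Real.rpow_zero] at this
    linarith
  refine le_of_sq82 (by positivity) ?_
  have g1 := Reg46.four R h hb₀ hb hC
  have g2 := Reg46.e2a_any R h hb₀ hb hC (h.hr.npos R.N1) le_rfl
  have g3 := near0 R h hb₀ hb hC
  have y1 : n ^ (Θ + 2 * ν + 3 * ε - 2 * c) ≤ n ^ (Θ - 2 * x - 5 * ν) := Real.rpow_le_rpow_of_exponent_le hN1.le (by linarith)
  have y2 : n ^ (Θ + 2 * ν + 4 * ε - c) ≤ n ^ (Θ - 2 * x - 5 * ν) := Real.rpow_le_rpow_of_exponent_le hN1.le (by linarith)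
  have y3 : n ^ (3 / 4 * (Θ + ε) + 9 / 8 * c + 2 * ν / 2 + ε) ≤ n ^ (Θ - 2 * x - 5 * ν) :=
    Real.rpow_le_rpow_of_exponent_le hN1.le (by linarith)
  have e1 : A ^ 2 * K2 ^ 2 ≤ n ^ (2 * ν) * (n ^ (2 * ν) * ((r : ℝ) ^ 2 / (E r * E b ^ 2 * E b₀ ^ 2) + (r : ℝ) ^ 2 / (E r ^ 2 * E b₀ ^ 2) +
      r * b / (E b₀ * E r))) := mul_le_mul hA hK (sq_nonneg _) (by positivity)
  have e2 : n ^ (2 * ν) * (n ^ (2 * ν) * ((r : ℝ) ^ 2 / (E r * E b ^ 2 * E b₀ ^ 2) + (r : ℝ) ^ 2 / (E r ^ 2 * E b₀ ^ 2) +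
      r * b / (E b₀ * E r))) = n ^ (4 * ν) * r * (r / (E b ^ 2 * E b₀ ^ 2 * E r) + r / (E b₀ ^ 2 * E r * E r) + b / (E b₀ * E r)) := by
    rw [show 4 * ν = 2 * ν + 2 * ν by ring, Real.rpow_add hN]
    field_simp
  have e3 : n ^ (4 * ν) * r * (r / (E b ^ 2 * E b₀ ^ 2 * E r) + r / (E b₀ ^ 2 * E r * E r) + b / (E b₀ * E r)) ≤
      n ^ (4 * ν) * r * (3 * n ^ (Θ - 2 * x - 5 * ν)) :=
    mul_le_mul_of_nonneg_left (by linarith [g1.trans y1, g2.trans y2, g3.trans y3]) (by positivity)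
  have e4 : n ^ (4 * ν) * r * (3 * n ^ (Θ - 2 * x - 5 * ν)) ≤ n ^ (4 * ν) * r * (n ^ ν * n ^ (Θ - 2 * x - 5 * ν)) / 16 := by
    have h0 : 0 < n ^ (4 * ν) * r * n ^ (Θ - 2 * x - 5 * ν) := by positivity
    nlinarith
  have e5 : n ^ (4 * ν) * r * (n ^ ν * n ^ (Θ - 2 * x - 5 * ν)) = (n ^ (-x) * √(r * n ^ Θ)) ^ 2 := by
    rw [mul_pow, Real.sq_sqrt (by positivity), ← Real.rpow_natCast, ← Real.rpow_mul hN.le, ← Real.rpow_add hN]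
    rw [show n ^ (4 * ν) * ↑r * n ^ (ν + (Θ - 2 * x - 5 * ν)) = r * (n ^ (4 * ν) * n ^ (ν + (Θ - 2 * x - 5 * ν))) by ring,
      show n ^ (-x * ((2 : ℕ) : ℝ)) * (↑r * n ^ Θ) = r * (n ^ (-x * ((2 : ℕ) : ℝ)) * n ^ Θ) by ring, ← Real.rpow_add hN, ← Real.rpow_add hN]
    congr 2
    push_cast
    ring
  rw [mul_pow]
  rw [← e5]
  linarith

/-- **The far term.** -/
theorem far82 (R : Reg46 E w c₀ Θ δ a ε n) (hr : Rg46 δ n r) (hεν : ε ≤ ν) (hl : 1 ≤ l) (hlr : l ≤ r)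
    (hC' : (r : ℝ) ≤ n ^ (2 * ν) * l) (hη : (r : ℝ) ≤ n ^ (1 - η)) (hη0 : 0 ≤ η) (hη1 : η ≤ 1) (hν : 64 ≤ n ^ ν)
    (hx : 20 * ν + 2 * x ≤ η * Θ) {F p : ℝ} (hF0 : 0 ≤ F) (hp0 : 0 ≤ p) (hF : F ≤ n ^ (5 * ν) * (E (4 * l))⁻¹)
    (hp : p ≤ 2 * n ^ ν * (E (3 * l))⁻¹) :
    r * F * (√2 * √p) ≤ n ^ (-x) * √(r * n ^ Θ) / 4 := by
  have h1 := R.Epos (4 * l)
  have h2 := R.Epos (3 * l)
  have h3 := hr.pos R.N1
  have hN1 := R.N1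
  have hN := R.N0
  have hν0 : 0 ≤ ν := by
    by_contra hneg
    have : n ^ ν ≤ n ^ (0 : ℝ) := Real.rpow_le_rpow_of_exponent_le hN1.le (by linarith)
    rw [Real.rpow_zero] at this
    linarith
  refine le_of_sq82 (by positivity) ?_
  have g := farN R hr hl hlr hC' hη
  have y : n ^ ((1 - η) * (Θ + ε) + 3 / 2 * (2 * ν) + 3 * ε) ≤ n ^ (Θ - 2 * x - 12 * ν) :=
    Real.rpow_le_rpow_of_exponent_le hN1.le (by nlinarith [R.ε0])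
  have e0 : (r * F * (√2 * √p)) ^ 2 = r * (r * F ^ 2 * (2 * p)) := by
    rw [mul_pow, mul_pow, mul_pow, Real.sq_sqrt (by norm_num), Real.sq_sqrt hp0]
    ring
  have e1 : r * F ^ 2 * (2 * p) ≤ r * (n ^ (5 * ν) * (E (4 * l))⁻¹) ^ 2 * (2 * (2 * n ^ ν * (E (3 * l))⁻¹)) :=
    mul_le_mul (mul_le_mul_of_nonneg_left (pow_le_pow_left₀ hF0 hF 2) h3.le) (by linarith) (by positivity) (by positivity)
  have e2 : r * (n ^ (5 * ν) * (E (4 * l))⁻¹) ^ 2 * (2 * (2 * n ^ ν * (E (3 * l))⁻¹)) =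
      n ^ (11 * ν) * (4 * (r / (E (4 * l) ^ 2 * E (3 * l)))) := by
    rw [show 11 * ν = 5 * ν + 5 * ν + ν by ring, Real.rpow_add hN, Real.rpow_add hN]
    field_simp
    ring
  have e3 : n ^ (11 * ν) * (4 * (r / (E (4 * l) ^ 2 * E (3 * l)))) ≤ n ^ (11 * ν) * (n ^ ν * n ^ (Θ - 2 * x - 12 * ν) / 16) := by
    have h0 : 0 < n ^ (Θ - 2 * x - 12 * ν) := by positivity
    exact mul_le_mul_of_nonneg_left (by nlinarith [g.trans y]) (by positivity)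
  have e5 : r * (n ^ (11 * ν) * (n ^ ν * n ^ (Θ - 2 * x - 12 * ν))) = (n ^ (-x) * √(r * n ^ Θ)) ^ 2 := by
    rw [mul_pow, Real.sq_sqrt (by positivity), ← Real.rpow_natCast, ← Real.rpow_mul hN.le, ← Real.rpow_add hN, ← Real.rpow_add hN,
      show n ^ (-x * ((2 : ℕ) : ℝ)) * (↑r * n ^ Θ) = r * (n ^ (-x * ((2 : ℕ) : ℝ)) * n ^ Θ) by ring, ← Real.rpow_add hN]
    congr 2
    push_cast
    ring
  rw [e0, ← e5]
  have e6 := mul_le_mul_of_nonneg_left ((e1.trans e2.le).trans e3) h3.le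
  linarith

end Pool.Agent.W_7d29a1_C0.E2aN82
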