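import Pool.Agent.W_7d29a1_C0.E2aP82
import Pool.Agent.W_7d29a1_C0.E2aN82

/-!
CURV0 (MP_7d29a1_pr, helper82): numbers for `E2aU82`: the gap, the tubes, the error of a row; `Row82` = the row bound of `row_far82` at one end.
-/

set_option autoImplicit false
set_option linter.unusedSectionVars false
set_option linter.unusedVariables false

namespace Pool.Agent.W_7d29a1_C0.E2aT82

open Finset MeasureTheory Filter Topology Pool.Agent.W_7d29a1_F Pool.Agent.W_7d29a1_X Pool.Agent.W_7d29a1_H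
open Pool.Agent.W_7d29a1_HS (In wd)
open Pool.Agent.W_7d29a1_HZ (wd' EE')
open Pool.Agent.W_7d29a1_C0 Pool.Agent.W_7d29a1_C0.Mod92 Pool.Agent.W_7d29a1_C0.Asm96 Pool.Agent.W_7d29a1_C0.CrA44
open Pool.Agent.W_7d29a1_C0.Frm33 Pool.Agent.W_7d29a1_C0.EstC46 Pool.Agent.W_7d29a1_C0.Far34 Pool.Agent.W_7d29a1_C0.E2aN82
open Pool.Agent.W_7d29a1_C0.Par92 (Sml Est)
open Pool.Agent.W_7d29a1_C0.H32 (DenLaw SG sc)
open Pool.Agent.W_7d29a1_C0.Q32 Pool.W7d29a1.C0.H27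

noncomputable section

/-! ### Numbers -/

theorem ev_exp82 {κ : ℝ} (hκ : 0 < κ) (A : ℝ) :
    ∀ᶠ m : ℕ in atTop, Real.exp (-(((2 ^ m : ℕ) : ℝ) ^ κ)) ≤ ((2 ^ m : ℕ) : ℝ) ^ (-A) := by
  have h1 := (tendsto_rpow_mul_exp_neg_mul_atTop_nhds_zero (A / κ) 1 one_pos).comp
    ((tendsto_rpow_atTop hκ).comp tend_n)
  filter_upwards [h1.eventually_le_const (one_pos : (0 : ℝ) < 1)] with m hm
  have hn0 : (0 : ℝ) < ((2 ^ m : ℕ) : ℝ) := lt_of_lt_of_le one_pos (n_ge1 m)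
  simp only [Function.comp] at hm
  rw [← Real.rpow_mul hn0.le, mul_div_cancel₀ _ hκ.ne', neg_mul, one_mul] at hm
  rw [Real.rpow_neg hn0.le, ← one_div, le_div_iff₀ (Real.rpow_pos_of_pos hn0 _), mul_comm]
  exact hm

section gap

variable {n ι δ ν : ℝ} {m p q : ℕ}

/-- The finer window. -/
theorem b0_82 (hn : n = ((2 ^ m : ℕ) : ℝ)) (hι : 0 < ι) (hιν : ι ≤ ν) (hν : 2 ≤ n ^ ν) (p : ℕ) :
    ((2 ^ p : ℕ) : ℝ) ≤ n ^ (2 * ν) * ((2 ^ (p - ⌈ι * (m : ℝ)⌉₊) : ℕ) : ℝ) := by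
  have hn1 : 1 ≤ n := hn ▸ n_ge1 m
  have hn0 : 0 < n := by linarith
  have h1 : 2 ^ p ≤ 2 ^ ⌈ι * (m : ℝ)⌉₊ * 2 ^ (p - ⌈ι * (m : ℝ)⌉₊) := by
    rw [← pow_add]
    exact Nat.pow_le_pow_right two_pos (by omega)
  have h2 : ((2 ^ ⌈ι * (m : ℝ)⌉₊ : ℕ) : ℝ) ≤ n ^ (2 * ν) := by
    have h3 : (⌈ι * (m : ℝ)⌉₊ : ℝ) < ι * m + 1 := Nat.ceil_lt_add_one (by positivity)
    have h4 : n ^ ι = (2 : ℝ) ^ (ι * m) := by
      rw [hn]
      push_cast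
      rw [← Real.rpow_natCast 2 m, ← Real.rpow_mul two_pos.le, mul_comm]
    push_cast
    calc (2 : ℝ) ^ ⌈ι * (m : ℝ)⌉₊ = (2 : ℝ) ^ ((⌈ι * (m : ℝ)⌉₊ : ℕ) : ℝ) := (Real.rpow_natCast 2 _).symm
      _ ≤ (2 : ℝ) ^ (ι * m + 1) := Real.rpow_le_rpow_of_exponent_le one_le_two h3.le
      _ = n ^ ι * 2 := by rw [Real.rpow_add two_pos, Real.rpow_one, h4]
      _ ≤ n ^ ν * n ^ ν := mul_le_mul (Real.rpow_le_rpow_of_exponent_le hn1 hιν) hν (by norm_num) (by positivity)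
      _ = n ^ (2 * ν) := by rw [← Real.rpow_add hn0]; ring_nf
  calc ((2 ^ p : ℕ) : ℝ) ≤ ((2 ^ ⌈ι * (m : ℝ)⌉₊ * 2 ^ (p - ⌈ι * (m : ℝ)⌉₊) : ℕ) : ℝ) := by exact_mod_cast h1
    _ = ((2 ^ ⌈ι * (m : ℝ)⌉₊ : ℕ) : ℝ) * ((2 ^ (p - ⌈ι * (m : ℝ)⌉₊) : ℕ) : ℝ) := by push_cast; ring
    _ ≤ _ := mul_le_mul_of_nonneg_right h2 (Nat.cast_nonneg _)

/-- The gap. -/
theorem gl_82 (hn : n = ((2 ^ m : ℕ) : ℝ)) (hι : 0 < ι) (hιν : ι ≤ ν) (hιδ : ι ≤ δ / 4) (hδ : 0 < δ) (hν : 16 ≤ n ^ ν)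
    (h4 : 16 ≤ n ^ (δ / 4)) (hq : δ * m ≤ q) :
    n ^ (δ / 2) ≤ gl46 ι m q ∧ ((2 ^ q : ℕ) : ℝ) ≤ n ^ (2 * ν) * gl46 ι m q ∧ 8 * gl46 ι m q ≤ 2 ^ q := by
  have hn1 : 1 ≤ n := hn ▸ n_ge1 m
  have hn0 : 0 < n := by linarith
  obtain ⟨X, hX⟩ : ∃ X : ℝ, X = n ^ (-ι) * 2 ^ q := ⟨_, rfl⟩
  have hX0 : 0 ≤ X := by rw [hX]; positivity
  have hg : gl46 ι m q = ⌊X / 8⌋₊ := by
    unfold gl46
    rw [hX, hn]
  have h2q : n ^ δ ≤ (2 : ℝ) ^ q := by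
    have := two_ge (m := m) hq
    rw [← hn] at this
    exact_mod_cast this
  have hXd : n ^ (δ - ι) ≤ X := by
    rw [hX, show δ - ι = -ι + δ by ring, Real.rpow_add hn0]
    exact mul_le_mul_of_nonneg_left h2q (by positivity)
  have hX16 : 16 ≤ X := h4.trans ((Real.rpow_le_rpow_of_exponent_le hn1 (by linarith)).trans hXd)
  have h5 : X / 16 ≤ (⌊X / 8⌋₊ : ℝ) := by
    have := Nat.sub_one_lt_floor (X / 8)
    linarith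
  have h6 : (⌊X / 8⌋₊ : ℝ) ≤ X / 8 := Nat.floor_le (by positivity)
  rw [hg]
  refine ⟨?_, ?_, ?_⟩
  · refine le_trans ?_ h5
    rw [le_div_iff₀ (by norm_num)]
    calc n ^ (δ / 2) * 16 ≤ n ^ (δ / 2) * n ^ (δ / 4) := mul_le_mul_of_nonneg_left h4 (by positivity)
      _ = n ^ (3 * δ / 4) := by rw [← Real.rpow_add hn0]; ring_nf
      _ ≤ n ^ (δ - ι) := Real.rpow_le_rpow_of_exponent_le hn1 (by linarith)
      _ ≤ X := hXd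
  · have e1 : ((2 ^ q : ℕ) : ℝ) = n ^ ι * X := by
      rw [hX, ← mul_assoc, ← Real.rpow_add hn0, add_neg_cancel, Real.rpow_zero, one_mul]
      push_cast
      ring
    rw [e1]
    calc n ^ ι * X ≤ n ^ ν * (16 * (⌊X / 8⌋₊ : ℝ)) := mul_le_mul (Real.rpow_le_rpow_of_exponent_le hn1 hιν) (by linarith) hX0 (by positivity)
      _ ≤ n ^ ν * (n ^ ν * (⌊X / 8⌋₊ : ℝ)) := mul_le_mul_of_nonneg_left (mul_le_mul_of_nonneg_right hν (Nat.cast_nonneg _)) (by positivity)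
      _ = _ := by rw [← mul_assoc, ← Real.rpow_add hn0]; ring_nf
  · have h7 : n ^ (-ι) ≤ 1 := Real.rpow_le_one_of_one_le_of_nonpos hn1 (by linarith)
    have h8 : X ≤ 2 ^ q := by
      rw [hX]
      exact mul_le_of_le_one_left (by positivity) h7
    have h9 : ((8 * ⌊X / 8⌋₊ : ℕ) : ℝ) ≤ ((2 ^ q : ℕ) : ℝ) := by
      push_cast
      linarith
    exact_mod_cast h9

end gap

section tube

variable {E w : ℕ → ℝ} {c₀ Θ δ a n η ν : ℝ} {l r ρ : ℕ}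

theorem tube_a82 (R : Reg46 E w c₀ Θ δ a ν n) (hl : Rg46 δ n l) (h4 : Rg46 δ n (4 * l)) (h : 10 * ν ≤ δ) :
    n ^ (2 * ν) * w (4 * l) ≤ l := by
  have hN := R.N0
  have h1 := R.w0 (4 * l) (h4.npos R.N1)
  have h2 := hl.pos R.N1
  refine of_lg46 R.N1 (by positivity) h2 ?_
  rw [Real.logb_mul (by positivity) (by positivity), lgN46 R.N1]
  have h5 := R.lst' h4
  have e4 : Real.logb n ((4 * l : ℕ) : ℝ) = 2 * Real.logb n 2 + Real.logb n l := by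
    push_cast
    rw [Real.logb_mul (by norm_num) h2.ne', show (4 : ℝ) = 2 ^ 2 by norm_num, Real.logb_pow]
    push_cast
    ring
  rw [e4] at h5
  linarith [R.lw h4, R.l2, hl.lx R.N1, mul_pos R.c₀0 R.δ0]

theorem tube_b82 (R : Reg46 E w c₀ Θ δ a ν n) (hρ : Rg46 δ n ρ) (hl : 1 ≤ l) (hr : 1 ≤ r) (hη : n ^ (1 - η) ≤ r)
    (hC' : (r : ℝ) ≤ n ^ (2 * ν) * l) (h : 5 * ν + η ≤ 1 / 3) : n ^ (2 * ν) * w ρ ≤ l := by
  have hN := R.N0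
  have h1 := R.w0 ρ (hρ.npos R.N1)
  have h2 : (0 : ℝ) < l := by exact_mod_cast hl
  refine of_lg46 R.N1 (by positivity) h2 ?_
  rw [Real.logb_mul (by positivity) (by positivity), lgN46 R.N1]
  have h4 := to_lg46 R.N1 (Real.rpow_pos_of_pos R.N0 _) hη
  rw [lgN46 R.N1] at h4
  linarith [R.lw hρ, R.lE3 hρ, lC4 R hl hr hC', mul_pos R.c₀0 R.δ0]

end tube

/-- The error of one row, summed over the rows. -/
theorem err82 {n B D X P Nn r : ℝ} {K : ℕ} (hn : 4 ≤ n) (hB0 : 0 ≤ B) (hB : B ≤ n) (hP0 : 0 ≤ P) (hP : P ≤ n) (hD : D = n ^ 3) (hr : r ≤ n) (hK : 1 ≤ K)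
    (hN : Nn ≤ 2 * n ^ K) (hN0 : 0 ≤ Nn) (hX0 : 0 ≤ X) (hX : X * n ^ (2 * K + 12) ≤ 1) :
    r * (B * (B / 2) ^ 2 * (P * (2 * D * X + X) + 4 * D * X) + 4 * (B / 2) ^ 3 * D * X + 8 * (B / 2) ^ 3 * D * Nn ^ 2 * X) ≤ 1 / 32 := by
  have hn0 : 0 < n := by linarith
  have hn1 : 1 ≤ n := by linarith
  have hB3 : B ^ 3 ≤ n ^ 3 := pow_le_pow_left₀ hB0 hB 3
  have hN2 : Nn ^ 2 ≤ 4 * n ^ (2 * K) := by
    calc Nn ^ 2 ≤ (2 * n ^ K) ^ 2 := pow_le_pow_left₀ hN0 hN 2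
      _ = 4 * n ^ (2 * K) := by ring
  have hk : n ^ 2 ≤ n ^ (2 * K) := pow_le_pow_right₀ hn1 (by omega)
  have t1 : P * (2 * D * X + X) + 4 * D * X ≤ 7 * n ^ 4 * X := by
    rw [hD]
    have a1 : P * (2 * n ^ 3 * X + X) ≤ n * (2 * n ^ 3 * X + X) := mul_le_mul_of_nonneg_right hP (by positivity)
    have a2 : n * X ≤ n ^ 4 * X := mul_le_mul_of_nonneg_right (le_self_pow₀ hn1 (by norm_num)) hX0
    have a3 : 4 * n ^ 3 * X ≤ n * n ^ 3 * X := mul_le_mul_of_nonneg_right (mul_le_mul_of_nonneg_right hn (by positivity)) hX0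
    nlinarith
  have hs : B * (B / 2) ^ 2 * (P * (2 * D * X + X) + 4 * D * X) + 4 * (B / 2) ^ 3 * D * X + 8 * (B / 2) ^ 3 * D * Nn ^ 2 * X ≤
      8 * n ^ (2 * K + 7) * X := by
    have b1 : B * (B / 2) ^ 2 * (P * (2 * D * X + X) + 4 * D * X) ≤ n ^ 3 / 4 * (7 * n ^ 4 * X) := by
      rw [show B * (B / 2) ^ 2 = B ^ 3 / 4 by ring]
      refine mul_le_mul (by linarith) t1 ?_ (by positivity)
      rw [hD]
      positivity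
    have b2 : 4 * (B / 2) ^ 3 * D * X ≤ n ^ 3 / 2 * (n ^ 3 * X) := by
      rw [show 4 * (B / 2) ^ 3 * D * X = B ^ 3 / 2 * (D * X) by ring, hD]
      exact mul_le_mul_of_nonneg_right (by linarith) (by positivity)
    have b3 : 8 * (B / 2) ^ 3 * D * Nn ^ 2 * X ≤ n ^ 3 * (n ^ 3 * (4 * n ^ (2 * K)) * X) := by
      rw [show 8 * (B / 2) ^ 3 * D * Nn ^ 2 * X = B ^ 3 * (D * Nn ^ 2 * X) by ring, hD]
      refine mul_le_mul hB3 ?_ (by positivity) (by positivity)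
      exact mul_le_mul_of_nonneg_right (mul_le_mul_of_nonneg_left hN2 (by positivity)) hX0
    have c1 : n ^ 3 / 4 * (7 * n ^ 4 * X) ≤ 7 / 4 * (n ^ (2 * K + 7) * X) := by
      have : n ^ 7 ≤ n ^ (2 * K + 7) := pow_le_pow_right₀ hn1 (by omega)
      have := mul_le_mul_of_nonneg_right this hX0
      nlinarith
    have c2 : n ^ 3 / 2 * (n ^ 3 * X) ≤ 1 / 2 * (n ^ (2 * K + 7) * X) := by
      have : n ^ 6 ≤ n ^ (2 * K + 7) := pow_le_pow_right₀ hn1 (by omega)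
      have := mul_le_mul_of_nonneg_right this hX0
      nlinarith
    have c3 : n ^ 3 * (n ^ 3 * (4 * n ^ (2 * K)) * X) ≤ 4 * (n ^ (2 * K + 7) * X) := by
      have : n ^ (2 * K + 6) ≤ n ^ (2 * K + 7) := pow_le_pow_right₀ hn1 (by omega)
      have h2 := mul_le_mul_of_nonneg_right this hX0
      have e : n ^ 3 * (n ^ 3 * (4 * n ^ (2 * K)) * X) = 4 * (n ^ (2 * K + 6) * X) := by ring
      rw [e]
      linarith
    have : 0 ≤ n ^ (2 * K + 7) * X := by positivity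
    nlinarith
  have hS0 : 0 ≤ B * (B / 2) ^ 2 * (P * (2 * D * X + X) + 4 * D * X) + 4 * (B / 2) ^ 3 * D * X + 8 * (B / 2) ^ 3 * D * Nn ^ 2 * X := by
    rw [hD]
    positivity
  refine (mul_le_mul hr hs hS0 (by positivity)).trans ?_
  have e1 : n * (8 * n ^ (2 * K + 7) * X) = 8 * (n ^ (2 * K + 8) * X) := by ring
  have e2 : X * n ^ (2 * K + 12) = n ^ (2 * K + 8) * X * n ^ 4 := by ring
  rw [e1]
  rw [e2] at hX
  have h4 : (256 : ℝ) ≤ n ^ 4 := by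
    calc (256 : ℝ) = 4 ^ 4 := by norm_num
      _ ≤ n ^ 4 := pow_le_pow_left₀ (by norm_num) hn 4
  have h5 : n ^ (2 * K + 8) * X * 256 ≤ 1 := (mul_le_mul_of_nonneg_left h4 (by positivity)).trans hX
  linarith

/-! ### The theorem -/

theorem PE2a.mono82 {μ : Measure ℝ} {s : ℝ} {N : ℕ} {δ B : ℝ} {b0 b : ℕ} {f : Fam N} {ys R : Finset ℕ} {c d : ℕ} {κ e κ' e' : ℝ}
    (h : PE2a μ s N δ B b0 b f ys R c d κ e) (hκ : κ ≤ κ') (he : e ≤ e') : PE2a μ s N δ B b0 b f ys R c d κ' e' := fun t ht u hu =>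
  (h t ht u hu).trans (add_le_add (mul_le_mul_of_nonneg_right hκ (Real.sqrt_nonneg _)) he)

variable {μ : Measure ℝ} {s : ℝ}

theorem cls_mono82 {N c d : ℕ} {D D' : ℝ} {f : Fam N} (hf : Cls59 N c d D f) (h : D ≤ D') : Cls59 N c d D' f where
  meas := hf.meas
  bdd y ω S := (hf.bdd y ω S).trans h
  side := hf.side
  env := hf.env
  sgn := hf.sgn

/-- The row bound of `row_far82` at one length and one end. -/
def Row82 (μ : Measure ℝ) (s : ℝ) (N : ℕ) (κ ε K' ε2 ε₁ c' Kg θ0 : ℝ) (y : ℕ) : Prop :=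
  ∀ (δk B : ℝ) (b0 b j d l cb : ℕ) (D : ℝ) (f : Fam N), 0 < B → B ≤ (N : ℝ) ^ ε₁ → b0 ≤ b → (N : ℝ) ^ κ ≤ b → (N : ℝ) ^ κ ≤ l →
      b ≤ 3 * l → j + 8 * l ≤ d → d ≤ N → Cls59 N cb d D f → 0 < D → 2 * D ≤ (N : ℝ) ^ K' → ∀ (k0 Lk : ℕ) (R : ℝ), k0 ≤ N →
      (∀ i ∈ Ico (d - 4 * l) (d - 3 * l), i - k0 ≤ Lk ∧ k0 - i ≤ Lk) → 1 ≤ R →
      (∀ k, 1 ≤ k → k ≤ Lk → vv μ s N ε2 k ≤ R) → wd' μ s (4 * l) ≤ R → 14 * R ≤ l → 1 ≤ θ0 ^ 2 * (l * (14 * R)) →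
      ∀ L : ℝ, 0 ≤ L → ∀ t ∈ Set.Icc (-1 : ℝ) 1, ∀ u : ℝ,
      (|fE2a μ s N δk B b0 b f t u y j| ≤ B / 2 * L * √(14 * R / l) * qM μ s N δk B b0 b f d l t u y j +
        B * rM μ s N δk B b0 b f d l t u y j +
        B * (B / 2) ^ 2 * ((N : ℝ) ^ ε * ((N : ℝ) ^ ε * (EE' μ s (4 * l))⁻¹ * xM μ s N f d l y + 2 * D * Real.exp (-(N : ℝ) ^ c') +
          (N : ℝ) ^ (-K')) + 4 * D * Real.exp (2 * B - (N : ℝ) ^ c')) + 4 * (B / 2) ^ 3 * D * Real.exp (2 * B - (N : ℝ) ^ c') +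
        8 * (B / 2) ^ 3 * D * ((N + 1 : ℕ) : ℝ) ^ 2 * Real.exp (4 * Kg - L / 2)) ∧
      (k0 = 0 → |fE2a μ s N δk B b0 b f t u y j| ≤ B / 2 * L * √(14 * R / l) * qM μ s N δk B b0 b f d l t u y j +
        B * rM μ s N δk B b0 b f d l t u y j + 8 * (B / 2) ^ 3 * D * Real.exp (2 * B - (N : ℝ) ^ c') +
        8 * (B / 2) ^ 3 * D * Real.exp (4 * Kg - L / 2))

end

end Pool.Agent.W_7d29a1_C0.E2aT82
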