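import Pool.Agent.W_7d29a1_C0.E2aF82

/-!
CURV0 (MP_7d29a1_pr, helper82): (E2a) OF ONE BLOCK with the numbers (`blk82`). Tubes at the boxes for `r ≤ n ^ (1 - η)`, the cone for the
longer blocks.
-/

set_option autoImplicit false
set_option linter.unusedSectionVars false
set_option linter.unusedVariables false

namespace Pool.Agent.W_7d29a1_C0.E2aT82

open Finset MeasureTheory Filter Topology Pool.Agent.W_7d29a1_F Pool.Agent.W_7d29a1_X Pool.Agent.W_7d29a1_H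
open Pool.Agent.W_7d29a1_HS (In wd)
open Pool.Agent.W_7d29a1_HZ (wd' EE')
open Pool.Agent.W_7d29a1_C0 Pool.Agent.W_7d29a1_C0.Mod92 Pool.Agent.W_7d29a1_C0.Asm96 Pool.Agent.W_7d29a1_C0.CrA44
open Pool.Agent.W_7d29a1_C0.Frm33 Pool.Agent.W_7d29a1_C0.EstC46 Pool.Agent.W_7d29a1_C0.Far34 Pool.Agent.W_7d29a1_C0.E2aN82
open Pool.Agent.W_7d29a1_C0.Par92 (Sml Est)
open Pool.Agent.W_7d29a1_C0.H32 (DenLaw SG sc)
open Pool.Agent.W_7d29a1_C0.Q32 Pool.W7d29a1.C0.H27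

noncomputable section

variable {μ : Measure ℝ} {s : ℝ}

/-- **(E2a) OF ONE BLOCK with the numbers.** -/
theorem blk82 [IsProbabilityMeasure μ] {K m p q i N : ℕ} {n ι β γ ν η x δ c c₀ a Θ K0 Kg θ0 X ε₁ c' cb κ ε : ℝ} {f : Fam N}
    {ys Rr : Finset ℕ} (hnd : n = ((2 ^ m : ℕ) : ℝ)) (R : Reg46 (EE μ s) (wd μ s) c₀ Θ (δ / 2) a ν n)
    (hwe : ∀ r : ℕ, n ^ (δ / 2) ≤ r → wd' μ s r = wd μ s r) (hK0 : 1 ≤ K0)
    (hwd : ∀ k k' : ℕ, 1 ≤ k → k ≤ k' → wd' μ s k ≤ K0 * wd' μ s k') (hK : 2 ≤ K) (hNn : (N : ℝ) = n ^ K)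
    (hNε : (N : ℝ) ^ ε = n ^ ν) (hNκ : (N : ℝ) ^ κ = n ^ (δ / 2)) (hδ : 0 < δ) (hc : 0 < c) (hcδ : c ≤ δ / 256) (hδ1 : δ ≤ 1)
    (hcΘ : c ≤ Θ / 16) (hΘ : 0 < Θ) (hη : η = c / 8) (hν0 : 0 < ν) (hx : 0 < x) (hνx : 20 * ν ≤ x) (hxη : x ≤ η * Θ / 8) (hxc : x ≤ c / 8)
    (hι : 0 < ι) (hιν : ι ≤ ν) (hβ : 0 < β) (hβν : β ≤ ν) (hθ0 : 0 < θ0) (h64 : 64 ≤ n ^ ν) (hk0n : 14 * K0 ≤ n ^ ν)
    (h4 : 16 ≤ n ^ (δ / 4)) (h2 : 1 / (14 * θ0 ^ 2) ≤ n ^ (δ / 2)) (hnc : 16 ≤ n ^ c) (h32 : 32 ≤ n ^ (1 / 2 : ℝ))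
    (hε₁ : n ^ β ≤ (N : ℝ) ^ ε₁) (hX0 : 0 < X) (hX : X * n ^ (2 * K + 12) ≤ 1) (e1 : Real.exp (2 * n ^ β - (N : ℝ) ^ c') ≤ X)
    (e2 : Real.exp (-(N : ℝ) ^ cb) ≤ X) (e3 : Real.exp (4 * Kg - n ^ β / 2) ≤ X) (e4 : (N : ℝ) ^ (-8 : ℝ) ≤ X)
    (hst : St96 (EE μ s) δ c m p q) (hi : i < 2 ^ (m - q)) (hf : Cls59 N (i * 2 ^ q) ((i + 1) * 2 ^ q) (n ^ 3) f)
    (hys : ∀ y ∈ ys, y ≤ N) (hRr : Rr ⊆ Kr (2 ^ m) m (((2 ^ m : ℕ) : ℝ) ^ (-ι)))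
    (hrow : ∀ y ∈ ys, Row82 μ s N κ ε 8 ε ε₁ c' Kg θ0 y)
    (hcor : ∀ y ∈ ys, ∀ i l : ℕ, (N : ℝ) ^ κ ≤ l → i + l ≤ N →
      ∫ ω, Pool.W7d29a1.C0.rep 2 (wm μ s N (Pn N y) ω) (Pool.W7d29a1.C0.E1A.XF i (i + l) (f y ω)) ∂(Pm μ N) ≤
        √(2 * varF μ s N f y) * √((N : ℝ) ^ ε * (EE' μ s l)⁻¹ + Real.exp (-(N : ℝ) ^ cb)))
    (M1 : MQ81 μ s N γ (n ^ β) (2 ^ (p - ⌈ι * (m : ℝ)⌉₊)) (2 ^ p) f ys Rr (i * 2 ^ q) ((i + 1) * 2 ^ q)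
      (gl46 ι m q) (n ^ ν * √(k1s (EE μ s) (2 ^ q) (2 ^ p) (2 ^ (p - ⌈ι * (m : ℝ)⌉₊)))) n⁻¹)
    (M2 : RQ81 μ s N γ (n ^ β) (2 ^ (p - ⌈ι * (m : ℝ)⌉₊)) (2 ^ p) f ys Rr (i * 2 ^ q) ((i + 1) * 2 ^ q)
      (gl46 ι m q) (n ^ ν * √(k2s (EE μ s) (2 ^ q) (2 ^ p) (2 ^ (p - ⌈ι * (m : ℝ)⌉₊)))) n⁻¹) :
    PE2a μ s N γ (n ^ β) (2 ^ (p - ⌈ι * (m : ℝ)⌉₊)) (2 ^ p) f ys Rr (i * 2 ^ q) ((i + 1) * 2 ^ q) (kp46 Θ x m q) (1 / 8) := by
  have hBs := bs46 (hnd ▸ R) hc (by linarith) (by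
    have := hst.hp
    have : (0 : ℝ) ≤ δ * m := by positivity
    linarith) hst.hps hst.hsq hst.hqm hst.leg hst.pin
  have hN1 : 1 < n := R.N1
  have hn0 : 0 < n := by linarith
  obtain ⟨b0, hb0d⟩ : ∃ b0 : ℕ, b0 = 2 ^ (p - ⌈ι * (m : ℝ)⌉₊) := ⟨_, rfl⟩
  obtain ⟨b, hbd⟩ : ∃ b : ℕ, b = 2 ^ p := ⟨_, rfl⟩
  obtain ⟨r, hrd⟩ : ∃ r : ℕ, r = 2 ^ q := ⟨_, rfl⟩
  obtain ⟨l, hld⟩ : ∃ l : ℕ, l = gl46 ι m q := ⟨_, rfl⟩
  -- the scales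
  have hb0b : b0 ≤ b := by rw [hb0d, hbd]; exact Nat.pow_le_pow_right two_pos (by omega)
  have hb01 : 1 ≤ b0 := by rw [hb0d]; exact Nat.one_le_two_pow
  have hC := b0_82 hnd hι hιν (by linarith) p
  rw [← hb0d, ← hbd] at hC
  have hqp : δ * m ≤ q := hst.hp.trans (by exact_mod_cast hst.hps.trans hst.hsq)
  have hιδ : ι ≤ δ / 4 := by linarith
  have hgl := gl_82 (m := m) (q := q) hnd hι hιν hιδ hδ (by linarith) h4 hqp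
  rw [← hrd, ← hld] at hgl
  obtain ⟨gl1, hC', gl3⟩ := hgl
  have hl1 : 1 ≤ l := R.one_le gl1
  have hlr : l ≤ r := by omega
  have h4r : 4 * l ≤ r := by omega
  have gp := gap46 (hnd ▸ R) (by linarith) hBs (by linarith : ι ≤ c) (hnd ▸ hnc)
  rw [← hld, ← hnd] at gp
  rw [← hnd] at hBs
  rw [← hbd, ← hrd] at hBs
  have hrg : Rg46 (δ / 2) n r := hBs.hr
  have hblR : (b : ℝ) ≤ l := by
    have h1 : (b : ℝ) ≤ ((2 ^ sg96 (EE μ s) c m p : ℕ) : ℝ) := by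
      have := hBs.bs
      exact_mod_cast this
    have h2 : (1 : ℝ) ≤ n ^ (5 * c) := Real.one_le_rpow hN1.le (by positivity)
    push_cast at h1
    have h3 : (0 : ℝ) ≤ 2 ^ sg96 (EE μ s) c m p := by positivity
    nlinarith
  have hbl : b ≤ l := by exact_mod_cast hblR
  have hrgl : Rg46 (δ / 2) n l := ⟨gl1, (by exact_mod_cast hlr : (l : ℝ) ≤ r).trans hrg.hi⟩
  have hrg4 : Rg46 (δ / 2) n (4 * l) := ⟨gl1.trans (by exact_mod_cast (by omega : l ≤ 4 * l)),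
    (by exact_mod_cast h4r : ((4 * l : ℕ) : ℝ) ≤ r).trans hrg.hi⟩
  have hrgn : Rg46 (δ / 2) n (2 ^ m) := ⟨hrg.lo.trans (hrg.hi.trans hnd.le), hnd.ge⟩
  have hrm : r ≤ 2 ^ m := by
    have : (r : ℝ) ≤ ((2 ^ m : ℕ) : ℝ) := by rw [← hnd]; exact hrg.hi
    exact_mod_cast this
  -- the block
  obtain ⟨d, hdd⟩ : ∃ d : ℕ, d = (i + 1) * 2 ^ q := ⟨_, rfl⟩
  have hdm : d ≤ 2 ^ m := by
    rw [hdd, ← Nat.sub_add_cancel hst.hqm, pow_add]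
    exact Nat.mul_le_mul_right _ hi
  have hrd' : r ≤ d := by
    rw [hdd, hrd]
    exact Nat.le_mul_of_pos_left _ (by omega)
  have hmN : 2 ^ m ≤ N := by
    have h1 : ((2 ^ m : ℕ) : ℝ) ≤ N := by
      rw [hNn, ← hnd]
      exact le_self_pow₀ hN1.le (by omega)
    exact_mod_cast h1
  have hdN : d ≤ N := hdm.trans hmN
  obtain ⟨c1, hc1⟩ : ∃ c1 : ℕ, c1 = i * 2 ^ q := ⟨_, rfl⟩
  rw [← hb0d, ← hbd, ← hdd, ← hc1, ← hld, ← hrd] at M1 M2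
  rw [← hb0d, ← hbd, ← hdd, ← hc1]
  rw [← hdd, ← hc1] at hf
  have hkp : kp46 Θ x m q = n ^ (-x) * √((r : ℝ) * n ^ Θ) := by
    unfold kp46
    rw [← hnd, hrd]
    push_cast
    rfl
  rw [hkp]
  obtain ⟨B, hBd⟩ : ∃ B : ℝ, B = n ^ β := ⟨_, rfl⟩
  rw [← hBd] at M1 M2 hε₁ e1 e3 ⊢
  have hB1 : 1 ≤ B := by rw [hBd]; exact Real.one_le_rpow hN1.le hβ.le
  have hB0 : 0 < B := by linarith
  have hBν : B ≤ n ^ ν := by rw [hBd]; exact Real.rpow_le_rpow_of_exponent_le hN1.le hβν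
  have hν1 : ν ≤ 1 / 1024 := by linarith
  have hBn : B ≤ n ^ (1 / 4 : ℝ) := hBν.trans (Real.rpow_le_rpow_of_exponent_le hN1.le (by linarith))
  have hB2 : B ^ 2 ≤ n ^ (1 / 2 : ℝ) := by
    calc B ^ 2 ≤ (n ^ (1 / 4 : ℝ)) ^ 2 := pow_le_pow_left₀ hB0.le hBn 2
      _ = n ^ (1 / 2 : ℝ) := by rw [← Real.rpow_natCast, ← Real.rpow_mul hn0.le]; norm_num
  have hBn1 : B ≤ n := hBn.trans ((Real.rpow_le_rpow_of_exponent_le hN1.le (by norm_num : (1 / 4 : ℝ) ≤ 1)).trans_eq (Real.rpow_one n))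
  have hn32 : 1024 ≤ n := by
    calc (1024 : ℝ) = 32 ^ 2 := by norm_num
      _ ≤ (n ^ (1 / 2 : ℝ)) ^ 2 := pow_le_pow_left₀ (by norm_num) h32 2
      _ = n := by rw [← Real.rpow_natCast, ← Real.rpow_mul hn0.le]; norm_num
  have hP1 : n ^ ν ≤ n := (Real.rpow_le_rpow_of_exponent_le hN1.le (by linarith : ν ≤ 1)).trans_eq (Real.rpow_one n)
  have hNn1 : n ≤ N := by rw [hNn]; exact le_self_pow₀ hN1.le (by omega)
  obtain ⟨e0, he0⟩ : ∃ e0 : ℝ, e0 = B * (B / 2) ^ 2 * (n ^ ν * (2 * n ^ 3 * X + X) + 4 * n ^ 3 * X) + 4 * (B / 2) ^ 3 * n ^ 3 * X +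
      8 * (B / 2) ^ 3 * n ^ 3 * ((N : ℝ) + 1) ^ 2 * X := ⟨_, rfl⟩
  have herr : r * e0 ≤ 1 / 32 := by
    rw [he0]
    exact err82 (K := K) (by linarith) hB0.le hBn1 (by positivity) hP1 rfl hrg.hi (by omega) (by
      rw [hNn]
      have : (1 : ℝ) ≤ n ^ K := one_le_pow₀ hN1.le
      linarith) (by positivity) hX0.le hX
  have he00 : 0 ≤ e0 := by rw [he0]; positivity
  obtain ⟨P, hPd⟩ : ∃ P : ℝ, P = (N : ℝ) ^ ε * (EE' μ s (3 * l))⁻¹ + Real.exp (-(N : ℝ) ^ cb) := ⟨_, rfl⟩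
  have hE3 := R.Epos (3 * l)
  have hE4 := R.Epos (4 * l)
  have hP0 : 0 ≤ P := by
    rw [hPd, EE'_eq46]
    positivity
  have hxM : ∀ y ∈ ys, xM μ s N f d l y ≤ √(2 * varF μ s N f y) * √P := fun y hy => by
    have h3 := hcor y hy (d - 3 * l) (3 * l) (by
      rw [hNκ]
      refine gl1.trans ?_
      push_cast
      linarith [(Nat.cast_nonneg l : (0 : ℝ) ≤ (l : ℝ))]) (by omega)
    rw [show d - 3 * l + 3 * l = d by omega, ← hPd] at h3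
    exact h3
  have hw1 : ∀ k, 1 ≤ wd' μ s k := fun k => le_max_left _ _
  have hlR : (0 : ℝ) < l := by exact_mod_cast hl1
  have hcard : (Rw Rr c1 d).card ≤ r := by
    unfold Rw
    refine (card_le_card inter_subset_right).trans ?_
    rw [Nat.card_Ico, hdd, hc1, hrd]
    have : (i + 1) * 2 ^ q - i * 2 ^ q = 2 ^ q := by
      rw [Nat.add_mul, one_mul]
      omega
    omega
  -- the rows
  have hn3 : 2 * n ^ 3 ≤ (N : ℝ) ^ (8 : ℝ) := by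
    rw [show (8 : ℝ) = ((8 : ℕ) : ℝ) by norm_num, Real.rpow_natCast]
    calc 2 * n ^ 3 ≤ n * n ^ 3 := mul_le_mul_of_nonneg_right (by linarith) (by positivity)
      _ = n ^ 4 := by ring
      _ ≤ n ^ 8 := pow_le_pow_right₀ hN1.le (by norm_num)
      _ ≤ _ := pow_le_pow_left₀ hn0.le hNn1 8
  have hbκ : (N : ℝ) ^ κ ≤ b := by
    rw [hNκ]
    exact hBs.hb.lo
  have hlκ : (N : ℝ) ^ κ ≤ l := by
    rw [hNκ]
    exact gl1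
  have hkick : ∀ j ∈ Rw Rr c1 d, j + 8 * l ≤ d := fun j hj => by
    rw [hld, hdd]
    refine kick46 (i := i) hRr hst.hqm ?_
    rw [← hc1, ← hdd]
    exact hj
  have hcore : ∀ (ρ k0 Lk : ℕ), Rg46 (δ / 2) n ρ → 4 * l ≤ ρ → Lk ≤ ρ → k0 ≤ N → (∀ i ∈ Ico (d - 4 * l) (d - 3 * l), i - k0 ≤ Lk ∧ k0 - i ≤ Lk) →
      14 * (n ^ ν * K0 * wd' μ s ρ) ≤ l → ∀ t ∈ Set.Icc (-1 : ℝ) 1, ∀ u ∈ Set.Icc (-1 : ℝ) 1, ∀ j ∈ Rw Rr c1 d, ∀ y ∈ ys,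
      (|fE2a μ s N γ B b0 b f t u y j| ≤ B / 2 * B * √(14 * (n ^ ν * K0 * wd' μ s ρ) / l) * qM μ s N γ B b0 b f d l t u y j +
        B * rM μ s N γ B b0 b f d l t u y j +
        B * (B / 2) ^ 2 * (n ^ ν * (n ^ ν * (EE' μ s (4 * l))⁻¹ * xM μ s N f d l y + 2 * n ^ 3 * Real.exp (-(N : ℝ) ^ c') +
          (N : ℝ) ^ (-8 : ℝ)) + 4 * n ^ 3 * Real.exp (2 * B - (N : ℝ) ^ c')) + 4 * (B / 2) ^ 3 * n ^ 3 * Real.exp (2 * B - (N : ℝ) ^ c') +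
        8 * (B / 2) ^ 3 * n ^ 3 * ((N + 1 : ℕ) : ℝ) ^ 2 * Real.exp (4 * Kg - B / 2)) ∧
      (k0 = 0 → |fE2a μ s N γ B b0 b f t u y j| ≤ B / 2 * B * √(14 * (n ^ ν * K0 * wd' μ s ρ) / l) * qM μ s N γ B b0 b f d l t u y j +
        B * rM μ s N γ B b0 b f d l t u y j + 8 * (B / 2) ^ 3 * n ^ 3 * Real.exp (2 * B - (N : ℝ) ^ c') +
        8 * (B / 2) ^ 3 * n ^ 3 * Real.exp (4 * Kg - B / 2)) := by
    intro ρ k0 Lk hρ h4ρ hLk hk0 hJ hT t ht u hu j hj y hy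
    have hwρ := hw1 ρ
    have hnν1 : 1 ≤ n ^ ν := by linarith
    have hKw : 1 ≤ K0 * wd' μ s ρ := one_le_mul_of_one_le_of_one_le hK0 hwρ
    have hR1 : 1 ≤ n ^ ν * K0 * wd' μ s ρ := by
      rw [mul_assoc]
      exact one_le_mul_of_one_le_of_one_le hnν1 hKw
    have key := hrow y hy γ B b0 b j d l c1 (n ^ 3) f hB0 hε₁ hb0b hbκ hlκ (by omega) (hkick j hj) hdN hf (by positivity) hn3 k0 Lk
      (n ^ ν * K0 * wd' μ s ρ) hk0 hJ hR1 (fun k hk hkL => by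
        unfold vv
        rw [hNε, mul_assoc]
        exact mul_le_mul_of_nonneg_left (hwd k ρ hk (hkL.trans hLk)) (by positivity)) (by
        refine (hwd (4 * l) ρ (by omega) h4ρ).trans ?_
        rw [mul_assoc]
        exact le_mul_of_one_le_left (by linarith) hnν1) hT (by
        rw [div_le_iff₀ (by positivity)] at h2
        have h5 : n ^ (δ / 2) ≤ l := gl1
        have h6 : 1 ≤ (l : ℝ) * (14 * θ0 ^ 2) := h2.trans (mul_le_mul_of_nonneg_right h5 (by positivity))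
        calc 1 ≤ (l : ℝ) * (14 * θ0 ^ 2) * 1 := by linarith
          _ ≤ (l : ℝ) * (14 * θ0 ^ 2) * (n ^ ν * K0 * wd' μ s ρ) := mul_le_mul_of_nonneg_left hR1 (by positivity)
          _ = _ := by ring) B hB0.le t ht u
    rw [hNε] at key
    exact key
  have hlk : ∀ k : ℕ, k ≤ n → k ≤ 2 ^ m := fun k hk => by
    have : (k : ℝ) ≤ ((2 ^ m : ℕ) : ℝ) := by rw [← hnd]; exact hk
    exact_mod_cast this
  have hwdK : ∀ ρ : ℕ, Rg46 (δ / 2) n ρ → n ^ (2 * ν) * wd μ s ρ ≤ l → 14 * (n ^ ν * K0 * wd' μ s ρ) ≤ l := fun ρ hρ h3 => by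
    rw [hwe ρ hρ.lo]
    have hwρ := R.w0 ρ (hρ.npos hN1)
    calc 14 * (n ^ ν * K0 * wd μ s ρ) = 14 * K0 * (n ^ ν * wd μ s ρ) := by ring
      _ ≤ n ^ ν * (n ^ ν * wd μ s ρ) := mul_le_mul_of_nonneg_right hk0n (by positivity)
      _ = n ^ (2 * ν) * wd μ s ρ := by rw [← mul_assoc, ← Real.rpow_add hn0]; ring_nf
      _ ≤ l := h3
  have e1' : Real.exp (-(N : ℝ) ^ c') ≤ X := le_trans (Real.exp_le_exp.2 (by linarith)) e1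
  have eN : ((N + 1 : ℕ) : ℝ) = (N : ℝ) + 1 := by push_cast; ring
  by_cases hcase : (r : ℝ) ≤ n ^ (1 - η)
  · -- the tubes at the boxes
    have hT := hwdK (4 * l) hrg4 (tube_a82 R hrgl hrg4 (by linarith))
    refine fin82 R hBs hν0 hx hνx hxc hη hcΘ hν1 hb01 hb0b hC hl1 hC' h64 hK0 hk0n h32 hB1 hBν hys hP0 hxM he00 herr hcard M1 M2 hrg4 (Or.inl h4r) (hwe _ hrg4.lo) hT (F := B * (B / 2) ^ 2 * (n ^ ν * (n ^ ν * (EE' μ s (4 * l))⁻¹))) (by rw [EE'_eq46]; positivity) ?_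
      fun t ht u hu j hj y hy => ?_
    · refine far82 R hrg le_rfl hl1 hlr hC' hcase (by linarith) (by linarith) h64 (by linarith) (by rw [EE'_eq46]; positivity) hP0 ?_ ?_
      · rw [EE'_eq46]
        have h4 : B ^ 3 ≤ n ^ (3 * ν) := by
          calc B ^ 3 ≤ (n ^ ν) ^ 3 := pow_le_pow_left₀ hB0.le hBν 3
            _ = n ^ (3 * ν) := by rw [← Real.rpow_natCast, ← Real.rpow_mul hn0.le]; norm_num; ring_nf
        calc B * (B / 2) ^ 2 * (n ^ ν * (n ^ ν * (EE μ s (4 * l))⁻¹)) = B ^ 3 / 4 * (n ^ ν * n ^ ν * (EE μ s (4 * l))⁻¹) := by ring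
          _ ≤ n ^ (3 * ν) * (n ^ ν * n ^ ν * (EE μ s (4 * l))⁻¹) := mul_le_mul_of_nonneg_right (by linarith [pow_pos hB0 3]) (by positivity)
          _ = n ^ (5 * ν) * (EE μ s (4 * l))⁻¹ := by
            rw [← mul_assoc, ← Real.rpow_add hn0, ← Real.rpow_add hn0]
            ring_nf
      · rw [hPd, hNε, EE'_eq46]
        have h5 : EE μ s (3 * l) ≤ n := by
          have h6 : Real.logb n (EE μ s (3 * l)) ≤ 1 := by
            linarith [R.lmono (show 3 * l ≤ r by omega), R.lE3 hrg, mul_pos R.c₀0 R.δ0]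
          have := le_pow46 hN1 hE3 h6
          rwa [Real.rpow_one] at this
        have h7 : X ≤ (EE μ s (3 * l))⁻¹ := by
          rw [le_inv_comm₀ hX0 hE3]
          refine h5.trans ?_
          rw [le_inv_comm₀ hn0 hX0]
          rw [← mul_one n⁻¹, ← div_eq_inv_mul, le_div_iff₀ hn0]
          refine (mul_le_mul_of_nonneg_left ?_ hX0.le).trans hX
          exact le_self_pow₀ hN1.le (by omega)
        have h8 : (EE μ s (3 * l))⁻¹ ≤ n ^ ν * (EE μ s (3 * l))⁻¹ := le_mul_of_one_le_left (by positivity) (by linarith)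
        linarith
    · have k1 := (hcore (4 * l) (d - 4 * l) l hrg4 le_rfl (by omega) (by omega) (fun i hi => by
        have := mem_Ico.1 hi
        omega) hT t ht u hu j hj y hy).1
      refine k1.trans ?_
      rw [eN, he0]
      exact pure_a82 hB0.le hn0.le (by positivity) (by positivity) e1 e1' e3 e4
  · -- the cone
    have hcase' : n ^ (1 - η) ≤ r := (not_le.1 hcase).le
    have hT := hwdK (2 ^ m) hrgn (tube_b82 R hrgn hl1 (by omega) hcase' hC' (by linarith))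
    refine fin82 R hBs hν0 hx hνx hxc hη hcΘ hν1 hb01 hb0b hC hl1 hC' h64 hK0 hk0n h32 hB1 hBν hys hP0 hxM he00 herr hcard M1 M2 hrgn (Or.inr ⟨hrm, hcase'⟩) (hwe _ hrgn.lo) hT le_rfl (by
      rw [mul_zero, zero_mul]
      positivity) fun t ht u hu j hj y hy => ?_
    have k1 := (hcore (2 ^ m) 0 (2 ^ m) hrgn (h4r.trans hrm) le_rfl (Nat.zero_le _) (fun i hi => by
        have := mem_Ico.1 hi
        omega) hT t ht u hu j hj y hy).2 rfl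
    refine k1.trans ?_
    rw [he0]
    exact pure_b82 hB0.le hn0.le (by positivity) hX0.le (by linarith) e1 e3

end

end Pool.Agent.W_7d29a1_C0.E2aT82
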