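import Pool.Agent.W_7d29a1_C0.E1M82
import Pool.Agent.W_7d29a1_C0.E2aB81
import Pool.Agent.W_7d29a1_C0.E1N19
import Pool.Agent.W_7d29a1_C0.CrE44

/-!
CURV0 (MP_7d29a1_pr, helper82): THE MODEL LINK OF (E2a). The conditional variance `V_u` of the kick given the ends of the base window is
a window functional (`wf_vf`); one slab step at fixed signs (`e2a_LA`) and in the mean over the environment and the signs (`e2a_P`), in the
one sided form `VN`, `RV` of `E2aB81`: rows `J` of the slab behind the window and in front of the range `[m0, m1]` without common position.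
-/

set_option autoImplicit false
set_option linter.unusedSectionVars false
set_option linter.unusedVariables false

namespace Pool.Agent.W_7d29a1_C0.E2aM82

open Finset MeasureTheory Pool.Agent.W_7d29a1_F Pool.Agent.W_7d29a1_X Pool.Agent.W_7d29a1_H
open Pool.Agent.W_7d29a1_C0.Mod92 Pool.Agent.W_7d29a1_C0.Base5 Pool.Agent.W_7d29a1_C0 Pool.Agent.W_7d29a1_C0.E1M82
open Pool.Agent.W_7d29a1_C0.Blk18 (Full full_Pn)
open Pool.Agent.W_7d29a1_C0.FP63 (WF Rd gf tf wf_gf wf_tf at2 lA lA_tf at2_gf cE_pm abs_pm_le pm_blind meas_pw meas_pm)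
open Pool.W7d29a1.C0 (gz gm lse Mc gb81 gb81_apply rep DX avN cm nxt)
open Pool.W7d29a1.C0.E1A
open Pool.W7d29a1.C0.VT31 Pool.Agent.W_7d29a1_C0.H32 Pool.Agent.W_7d29a1_C0.Swap57 Pool.Agent.W_7d29a1_C0.NM82
open Pool.W7d29a1.C0.H41 Pool.W7d29a1.C0.R63
open Pool.W7d29a1.C0.Fld19 (Past wU GQ gq_Pn Sl nn)
open Pool.Agent.W_7d29a1_C0.E2a81 (mM box2)
open Pool.Agent.W_7d29a1_C0.E2aB81

noncomputable section

variable {μ : Measure ℝ} {s : ℝ} {N : ℕ}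

/-! ### The conditional variance as a window functional -/

/-- The square of the kick. -/
def g2 (μ : Measure ℝ) (s : ℝ) (δ B : ℝ) (b0 j : ℕ) (a : ℤ) (η : Env) (f : ℕ → ℤ) : ℝ :=
  gf μ s δ B b0 j a η f * gf μ s δ B b0 j a η f

theorem wf_g2 {B : ℝ} (hB : 0 ≤ B) (δ : ℝ) (b0 j : ℕ) {a : ℤ} (ha : |(a : ℝ)| ≤ 1) :
    WF (j - b0) (j + b0) (B / 2 * (B / 2)) (g2 μ s δ B b0 j a) :=
  (wf_gf (μ := μ) (s := s) hB δ b0 j ha).mul (wf_gf (μ := μ) (s := s) hB δ b0 j ha)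

/-- The conditional variance of the kick given the ends of the window of base `b`, at the tilt `u`. -/
def vf (μ : Measure ℝ) (s : ℝ) (δ B : ℝ) (b0 b j : ℕ) (a : ℤ) (u : ℝ) (η : Env) (f : ℕ → ℤ) : ℝ :=
  FP63.pm μ s (tf μ s δ B b0 j a u) (g2 μ s δ B b0 j a) (j - b) (j + b) (f (j - b)) (f (j + b)) η -
    FP63.pm μ s (tf μ s δ B b0 j a u) (gf μ s δ B b0 j a) (j - b) (j + b) (f (j - b)) (f (j + b)) η *
      FP63.pm μ s (tf μ s δ B b0 j a u) (gf μ s δ B b0 j a) (j - b) (j + b) (f (j - b)) (f (j + b)) η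

theorem wf_vf {B : ℝ} (hB : 0 ≤ B) (δ : ℝ) {b0 b : ℕ} (hb : b0 ≤ b) (j : ℕ) {a : ℤ} (ha : |(a : ℝ)| ≤ 1) (u : ℝ) :
    WF (j - b) (j + b) (2 * (B / 2) ^ 2) (vf μ s δ B b0 b j a u) where
  meas := fun f => by
    have h1 := wf_tf (μ := μ) (s := s) hB δ b0 j ha u
    have h2 := wf_gf (μ := μ) (s := s) hB δ b0 j ha
    have h3 := wf_g2 (μ := μ) (s := s) hB δ b0 j ha
    have m2 := meas_pm (μ := μ) (s := s) (c := j - b) (m := j + b) h1.meas h2.meas (f (j - b)) (f (j + b))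
    have m3 := meas_pm (μ := μ) (s := s) (c := j - b) (m := j + b) h1.meas h3.meas (f (j - b)) (f (j + b))
    exact m3.sub (m2.mul m2)
  rd := fun η f g hfg => by
    unfold vf
    rw [hfg _ le_rfl (by omega), hfg _ (by omega) le_rfl]
  blind := fun η p t hp => by
    funext f
    have h1 : p.1 ≤ ((j - b0 : ℕ) : ℤ) ∨ ((j + b0 : ℕ) : ℤ) < p.1 := by
      rcases hp with h | h
      · left
        have : ((j - b : ℕ) : ℤ) ≤ ((j - b0 : ℕ) : ℤ) := by exact_mod_cast Nat.sub_le_sub_left hb j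
        omega
      · right
        push_cast at h ⊢
        have : (b0 : ℤ) ≤ b := by exact_mod_cast hb
        omega
    have a1 := (wf_tf (μ := μ) (s := s) hB δ b0 j ha u).blind η p t h1
    have a2 := (wf_gf (μ := μ) (s := s) hB δ b0 j ha).blind η p t h1
    have a3 := (wf_g2 (μ := μ) (s := s) hB δ b0 j ha).blind η p t h1
    have hp' : p.1 ≤ ((j - b : ℕ) : ℤ) ∨ ((j + b : ℕ) : ℤ) ≤ p.1 := hp.imp id fun h => h.le
    unfold vf
    rw [pm_blind hp' a1 a3, pm_blind hp' a1 a2]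
  bd := fun η f => by
    have h2 := abs_pm_le (μ := μ) (s := s) (A := tf μ s δ B b0 j a u) (c := j - b) (m := j + b) (by positivity)
      (fun f => (wf_gf (μ := μ) (s := s) hB δ b0 j ha).bd η f) (f (j - b)) (f (j + b))
    have h3 := abs_pm_le (μ := μ) (s := s) (A := tf μ s δ B b0 j a u) (c := j - b) (m := j + b) (by positivity)
      (fun f => (wf_g2 (μ := μ) (s := s) hB δ b0 j ha).bd η f) (f (j - b)) (f (j + b))
    unfold vf
    have h4 := mul_le_mul h2 h2 (abs_nonneg _) (by positivity : 0 ≤ B / 2)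
    rw [← abs_mul] at h4
    refine (abs_sub _ _).trans ((add_le_add h3 h4).trans_eq ?_)
    ring

/-- **The conditional variance of the model.** -/
theorem cV_eq {Q : Finset (Finset ℕ)} [Nonempty (Px Q)] (hQ : Full N Q) {B : ℝ} (hB : 0 ≤ B) (δ : ℝ) {b0 b : ℕ} (hb : b0 ≤ b) {j : ℕ}
    (hj : j + b ≤ N) (ω : Env × Finset ℕ) (u : ℝ) (S : Px Q) :
    cV (wj μ s N Q δ B b0 j ω u) (pW b j) (gg μ s Q δ B b0 ω j) S = vf μ s δ B b0 b j (sg ω.2 j) u ω.1 (ps S) := by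
  have ha : |((sg ω.2 j : ℤ) : ℝ)| ≤ 1 := (abs_sg _ _).le
  have h1 := cE_pm (μ := μ) (s := s) hQ (wf_tf (μ := μ) (s := s) hB δ b0 j ha u).rd (wf_gf (μ := μ) (s := s) hB δ b0 j ha).rd ω.1
    (show j - b ≤ j + b by omega) (show j - b ≤ j - b0 by omega) (show j + b0 ≤ j + b by omega) hj S
  have h2 := cE_pm (μ := μ) (s := s) hQ (wf_tf (μ := μ) (s := s) hB δ b0 j ha u).rd (wf_g2 (μ := μ) (s := s) hB δ b0 j ha).rd ω.1
    (show j - b ≤ j + b by omega) (show j - b ≤ j - b0 by omega) (show j + b0 ≤ j + b by omega) hj S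
  rw [lA_tf] at h1 h2
  rw [at2_gf] at h1
  unfold vf
  rw [← h1, ← h2]
  rfl

/-- The conditional variance at fixed signs. -/
def VM (μ : Measure ℝ) (s : ℝ) (δ B : ℝ) (b0 b j : ℕ) (A : Finset ℕ) (u : ℝ) : Env → Finset ℕ → ℝ := at0 (vf μ s δ B b0 b j (sg A j) u)

theorem past_VM {B : ℝ} (hB : 0 ≤ B) (δ : ℝ) {b0 b j c : ℕ} (A : Finset ℕ) (hb : b0 ≤ b) (hj : j + b ≤ c) (u : ℝ) :
    Past c (VM μ s δ B b0 b j A u) := past_at0 (wf_vf (μ := μ) (s := s) hB δ hb j (abs_sg A j).le u) hj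

section defs

variable (μ : Measure ℝ) (s : ℝ) (N : ℕ) (δ B : ℝ) (b0 b j : ℕ) (t u : ℝ) (y : ℕ) (f : Fam N) (m0 m1 m : ℕ)

/-- The conditional variance of the kick given the ends of the window of base `b`, at the tilt `u`. -/
def vX (ω : Env × Finset ℕ) : Px (Pn N y) → ℝ :=
  cV (wj μ s N (Pn N y) δ B b0 j ω u) (pW b j) (gg μ s (Pn N y) δ B b0 ω j)

/-- The integrand of `fE2a`. -/
def e2aX [Nonempty (Px (Pn N y))] (ω : Env × Finset ℕ) : ℝ :=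
  cm [gg μ s (Pn N y) δ B b0 ω j, vX μ s N δ B b0 b j u y ω, f y ω] (wj μ s N (Pn N y) δ B b0 j ω t)

/-- The pair functional of (E2a). -/
def qX (ω : Env × Finset ℕ) : (Fin 2 → Px (Pn N y)) → ℝ := VN m0 m1 (vX μ s N δ B b0 b j u y ω) (f y ω)

/-- The observable of the remainder, at the row `m`. -/
def rX (ω : Env × Finset ℕ) : (Fin 2 → Px (Pn N y)) → ℝ :=
  RV (j - b) (j - b0) (j + b0) (j + b) m0 m1 m (wj μ s N (Pn N y) δ B b0 j ω t) (vX μ s N δ B b0 b j u y ω) (f y ω)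

end defs

section row

variable {δ B : ℝ} {b0 b j m0 m1 n c' d y : ℕ} {D : ℝ} {f : Fam N} {J : Finset ℕ} [Nonempty (Px (Pn N y))]

theorem VM_pt (hB : 0 ≤ B) (hb : b0 ≤ b) (hj : j + b ≤ N) (A : Finset ℕ) (u : ℝ) (η : Env) (S : Px (Pn N y)) :
    VM μ s δ B b0 b j A u η S.1 = vX μ s N δ B b0 b j u y (η, A) S :=
  (cV_eq (full_Pn N y) hB δ hb hj (η, A) u S).symm


/-- One slab behind the window of base `b` of the row `j`, in front of the rows `[m0, m1]` without common position. -/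
structure Slab1 (N d b0 b j m0 m1 n : ℕ) (J : Finset ℕ) : Prop where
  hb : b0 ≤ b
  hj : j + b ≤ m0
  m : m0 ≤ m1
  c3 : m1 ≤ d
  c4 : d ≤ N
  sJ : ∀ i ∈ J, j + b < i ∧ i ≤ m0
  nJ : J.card = n
  n0 : 0 < n

variable {BB : Type*} [Fintype BB] [DecidableEq BB] {bx : Px (Pn N y) → BB} {χ2 : (Fin 2 → BB) → Pt → ℝ}
  {o2 : (Fin 2 → BB) → Px (Pn N y) → ℝ} {ow : Px (Pn N y) → ℝ} {R : ℝ}

/-- **(E2a) OF ONE ROW AT FIXED SIGNS: one slab step.** -/
theorem e2a_A [IsProbabilityMeasure μ] {ff ff' : ℝ → ℝ} (h : DenLaw μ ff ff') {K θ0 : ℝ} (hs : SG μ (sc ff ff') K θ0)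
    (hB : 0 ≤ B) (hf : Cls59 N c' d D f) (X : Slab1 N d b0 b j m0 m1 n J) (T2 : Tb N 2 bx J χ2 o2 ow R)
    {r a V : ℝ} (hr : 0 < r) (ha : 0 ≤ a) (hV : R * (B / 2) ^ 2 / n ≤ V) (hrM : r * (B / 2 / n) ≤ θ0) (t u : ℝ) (A : Finset ℕ) :
    |∫ η, e2aX μ s N δ B b0 b j t u y f (η, A) ∂(law μ)| ≤
      a * ∫ η, rep 2 (wj μ s N (Pn N y) δ B b0 j (η, A) t) (fun x => |qX μ s N δ B b0 b j u y f m0 m1 (η, A) x|) ∂(law μ) +
      B * ((n : ℝ)⁻¹ * ∑ m ∈ J, ∫ η, rep 2 (wj μ s N (Pn N y) δ B b0 j (η, A) t)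
        (rX μ s N δ B b0 b j t u y f m0 m1 m (η, A)) ∂(law μ)) +
      (B * ∫ η, rep 3 (wj μ s N (Pn N y) δ B b0 j (η, A) t) (fr 2 bx o2 (qX μ s N δ B b0 b j u y f m0 m1 (η, A))) ∂(law μ) +
        4 * (B / 2) ^ 3 * D * ∫ η, gm (wj μ s N (Pn N y) δ B b0 j (η, A) t) ow ∂(law μ)) +
      (Fintype.card BB : ℝ) ^ 2 * (8 * ((B / 2) ^ 2 * D) / r * ex19 K r a V) := by
  have hmN : m1 ≤ N := X.c3.trans X.c4
  have hjN : j + b ≤ N := X.hj.trans (X.m.trans hmN)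
  have hjd : j + b ≤ d := X.hj.trans (X.m.trans X.c3)
  have hn : (0 : ℝ) < n := by exact_mod_cast X.n0
  have hJne : J.Nonempty := card_pos.1 (by rw [X.nJ]; exact X.n0)
  have hD0 : 0 ≤ D := (abs_nonneg _).trans (hf.bdd y (fun _ => 0, ∅) Classical.ofNonempty)
  have hK : 0 ≤ K := hs.2.1.le
  have hJ : ∀ i ∈ J, j + b < i := fun i hi => (X.sJ i hi).1
  have hN : ∀ i ∈ J, i ≤ N := fun i hi => (X.sJ i hi).2.trans (X.m.trans hmN)
  have hθ : (J.card : ℝ) * (n : ℝ)⁻¹ = 1 := by rw [X.nJ]; exact mul_inv_cancel₀ hn.ne'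
  have hθ0 : (0 : ℝ) ≤ (n : ℝ)⁻¹ := inv_nonneg.2 hn.le
  have pU := past_UM (μ := μ) (s := s) hB δ A ((Nat.add_le_add_left X.hb j)) t
  have pH := past_HM (μ := μ) (s := s) hB δ A ((Nat.add_le_add_left X.hb j))
  have pV := past_VM (μ := μ) (s := s) hB δ A X.hb (le_refl (j + b)) u
  have bH := abs_HM (μ := μ) (s := s) (b0 := b0) (j := j) hB δ A
  have mw : Measurable fun η => wj μ s N (Pn N y) δ B b0 j (η, A) t := meas_wA hB A t
  have mg : Measurable fun η => gg μ s (Pn N y) δ B b0 (η, A) j := measurable_pi_lambda _ fun S =>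
    (wf_gf (μ := μ) (s := s) hB δ b0 j (abs_sg A j).le).meas _
  have mV : Measurable fun η => vX μ s N δ B b0 b j u y (η, A) := measurable_pi_lambda _ fun S => by
    have h := pV.ms S.1
    simp only [VM_pt (N := N) (y := y) hB X.hb hjN A u] at h
    exact h
  have mf : Measurable fun η => f y (η, A) := measurable_pi_lambda _ fun S => (hf.meas y S).comp measurable_prodMk_right
  have bg : ∀ η S, |gg μ s (Pn N y) δ B b0 (η, A) j S| ≤ B / 2 := fun η S => abs_gg hB b0 (η, A) j S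
  have bV : ∀ η S, |vX μ s N δ B b0 b j u y (η, A) S| ≤ (B / 2) ^ 2 := fun η S => abs_cV_le _ _ (bg η) S
  have bf : ∀ η (S : Px (Pn N y)), |f y (η, A) S| ≤ D := fun η S => hf.bdd y (η, A) S
  have hw : Wt (Sl J N) (fun η => wj μ s N (Pn N y) δ B b0 j (η, A) t) (fun q (S : Px (Pn N y)) => NNs q S) 1 := wt_wU pU hJ hN
  have hc := BF_cf (s := s) pU pH bH hJ N (n : ℝ)⁻¹
  have hrow : ∀ p ∈ Sl J N, ((j + b : ℕ) : ℤ) < p.1 ∧ p.1 ≤ (d : ℤ) := fun p hp => by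
    obtain ⟨i, hi, e⟩ := row_Sl hp
    obtain ⟨h1, h2⟩ := X.sJ i hi
    rw [e]
    exact ⟨by exact_mod_cast h1, by exact_mod_cast h2.trans (X.m.trans X.c3)⟩
  have hVb : ∀ p ∈ Sl J N, ∀ (η : Env) (x : ℝ), vX μ s N δ B b0 b j u y (Function.update η p x, A) = vX μ s N δ B b0 b j u y (η, A) :=
    fun p hp η x => by
      funext S
      rw [← VM_pt (N := N) (y := y) hB X.hb hjN A u, ← VM_pt (N := N) (y := y) hB X.hb hjN A u]
      exact pV.bl η S.1 p x (hrow p hp).1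
  have hfb : ∀ p ∈ Sl J N, ∀ (η : Env) (x : ℝ), f y (Function.update η p x, A) = f y (η, A) := fun p hp η x => by
    funext S
    obtain ⟨h1, h2⟩ := hrow p hp
    have h3 : 0 < p.1 := lt_of_le_of_lt (Int.natCast_nonneg _) h1
    exact hf.env y η A S p.1 p.2 x h3 h2
  have hHd : ∀ η, HdAll (Q := Pn N y) (j + b) (wj μ s N (Pn N y) δ B b0 j (η, A) t) := fun η => hd_wU pU η
  have lV : ∀ η, Lk 0 (j + b) (vX μ s N δ B b0 b j u y (η, A)) := fun η => by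
    have h := Pool.W7d29a1.C0.E1A.Past.lk (Q := Pn N y) pV η
    have e : (fun S : Px (Pn N y) => VM μ s δ B b0 b j A u η S.1) = vX μ s N δ B b0 b j u y (η, A) :=
      funext fun S => VM_pt hB X.hb hjN A u η S
    rw [e] at h
    exact h
  have lg : ∀ η, Lk (j - b0) (j + b0) (gg μ s (Pn N y) δ B b0 (η, A) j) := fun η => Lk_gg δ B b0 j (η, A) le_rfl le_rfl
  have hWk : ∀ η, Wk (j - b) (j - b0) (j + b0) (j + b) (wj μ s N (Pn N y) δ B b0 j (η, A) t) := fun η =>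
    (Wk_lw (μ := μ) (s := s) (N := N) η (by omega : j - b0 ≤ j + b0)).add ((lg η).Wk.smul _)
  have hC : ∀ η, Pool.W7d29a1.C0.H19.Cf (Sl J N) (cf (n : ℝ)⁻¹ s (UM μ s δ B b0 j A t) (HM μ s δ B b0 j A)) (fun q (S : Px (Pn N y)) => NNs q S) η =
      slabC (wj μ s N (Pn N y) δ B b0 j (η, A) t) (gg μ s (Pn N y) δ B b0 (η, A) j) J := fun η => by
    have h := Cf_cf (μ := μ) (s := s) (θ := (n : ℝ)⁻¹) (gq_Pn N y) pU pH hJ hN η
    rw [h]
    funext S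
    unfold slabC Pool.W7d29a1.C0.avC
    rw [Finset.sum_apply, Finset.mul_sum, X.nJ]
    rfl
  have hQV : ∀ (β : Fin 2 → BB) (η : Env),
      QV (Sl J N) (cut (χ2 β) (cf (n : ℝ)⁻¹ s (UM μ s δ B b0 j A t) (HM μ s δ B b0 j A))) η ≤ V := fun β η => by
    refine (QV_cut_le pU pH bH hJ (T2.z β) (T2.u β) (fun i hi => T2.n β i hi) η).trans (le_trans (le_of_eq ?_) hV)
    rw [X.nJ]
    field_simp
  have hrM1 : r * (|(n : ℝ)⁻¹| * (B / 2)) ≤ θ0 := by
    rw [abs_of_nonneg hθ0]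
    have e : (n : ℝ)⁻¹ * (B / 2) = B / 2 / n := by ring
    rw [e]
    exact hrM
  have oQ : Obs (fun η => qX μ s N δ B b0 b j u y f m0 m1 (η, A)) (2 * (B / 2) ^ 2 * D) := obs_VN mV mf bV bf
  have key := box2 (bk := false) h hs (Pool.W7d29a1.C0.R63.DF.fwd hc) (by positivity) hw mg bg oQ
    (fun p hp η x => by unfold qX; rw [hVb p hp, hfb p hp]) bx T2.z T2.u hr ha hrM1 hQV
  have e1 : ∀ η, e2aX μ s N δ B b0 b j t u y f (η, A) = rep 3 (wj μ s N (Pn N y) δ B b0 j (η, A) t)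
      (nxt (gg μ s (Pn N y) δ B b0 (η, A) j) (qX μ s N δ B b0 b j u y f m0 m1 (η, A))) := fun η =>
    cm_VN (hHd η m0 m1 X.hj X.m) (Lk_mono (Nat.zero_le _) ((Nat.add_le_add_left X.hb j).trans X.hj) (lg η)) (Lk_mono le_rfl X.hj (lV η))
      (rk_cls hf X.c3 y (η, A))
  have e4 : ∀ η, gg μ s (Pn N y) δ B b0 (η, A) j - Pool.W7d29a1.C0.H19.Cf (Sl J N)
      (cf (n : ℝ)⁻¹ s (UM μ s δ B b0 j A t) (HM μ s δ B b0 j A)) (fun q (S : Px (Pn N y)) => NNs q S) η =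
      gg μ s (Pn N y) δ B b0 (η, A) j - slabC (wj μ s N (Pn N y) δ B b0 j (η, A) t) (gg μ s (Pn N y) δ B b0 (η, A) j) J :=
    fun η => by rw [hC]
  have hrem := int_remV_le (μ0 := μ) (c := j - b) (al := j - b0) (be := j + b0) (d := j + b) (m0 := m0) (m1 := m1) mw
    (g := fun η => gg μ s (Pn N y) δ B b0 (η, A) j) (V := fun η => vX μ s N δ B b0 b j u y (η, A)) (f := fun η => f y (η, A)) oQ
    (fun η => rk_cls hf X.c3 y (η, A)) (by omega) X.hj X.m hWk lg (fun η => cV_meas _ _ _)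
    (L := B) (fun η S S' => (abs_sub _ _).trans (by linarith [bg η S, bg η S'])) hJne (fun m hm => ⟨(hJ m hm).le, (X.sJ m hm).2⟩)
  simp_rw [e4] at key
  simp_rw [e1]
  rw [X.nJ] at hrem
  have key2 := key.trans (add_le_add (add_le_add le_rfl hrem) le_rfl)
  have hV0 : 0 ≤ V := le_trans (Finset.sum_nonneg fun p _ => sq_nonneg _) (hQV (fun _ => bx Classical.ofNonempty) fun _ => 0)
  have BFc : ∀ β : Fin 2 → BB, Pool.W7d29a1.C0.H19.BF (Sl J N)
      (cut' (χ2 β) (cf (n : ℝ)⁻¹ s (UM μ s δ B b0 j A t) (HM μ s δ B b0 j A))) (|(n : ℝ)⁻¹| * (B / 2)) := fun β =>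
    BF_mul' hc (T2.z β) (T2.u β)
  have oI : Obs (fun η => (repDr (Px (Pn N y)) 2).insR bx
      (farF χ2 (Sl J N) (cf (n : ℝ)⁻¹ s (UM μ s δ B b0 j A t) (HM μ s δ B b0 j A)) (fun q S => NNs q S) η)
      (qX μ s N δ B b0 b j u y f m0 m1 (η, A)))
      (2 * (B / 2) ^ 2 * D * ((repDr (Px (Pn N y)) 2).sz * ((Sl J N).card * (|(n : ℝ)⁻¹| * (B / 2) * 1)))) :=
    oQ.insR (repDr (Px (Pn N y)) 2) bx (fun β => meas_Cf (BFc β).meas _) fun η β z => abs_Cf_le (BFc β).bd hw.bd η z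
  have hfar := int_le_lin (P := law μ) (fun η => far_one (k := 2) (A := 1) T2.own T2.w0 T2.o0 (by positivity : 0 ≤ B / 2)
    (fun x => abs_nonneg (qX μ s N δ B b0 b j u y f m0 m1 (η, A) x)) (fun x => by rw [one_mul]) (fun x => oQ.bd η x)
    (fun β S => farF_le T2 pU pH bH (Finset.Subset.refl J) hJ hN hθ hθ0 η β S) (wj μ s N (Pn N y) δ B b0 j (η, A) t))
    (int_rep oI.abs mw) (int_rep (obs_fr bx T2.o0 T2.o1 oQ.abs) mw) (int_gm mw T2.w0 T2.w1)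
  have efr : ∀ η, fr 2 bx o2 (fun x => |qX μ s N δ B b0 b j u y f m0 m1 (η, A) x|) =
      fr 2 bx o2 (qX μ s N δ B b0 b j u y f m0 m1 (η, A)) := fun η => by
    funext z
    unfold fr
    rw [abs_abs]
  simp only [efr] at hfar
  have hcard : (Fintype.card (Fin 2 → BB) : ℝ) = (Fintype.card BB : ℝ) ^ 2 := by
    rw [Fintype.card_fun, Fintype.card_fin]
    push_cast
    ring
  have htail : (Fintype.card (Fin 2 → BB) : ℝ) * tail1 K (2 * (B / 2) ^ 2 * D) r a V ≤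
      (Fintype.card BB : ℝ) ^ 2 * (8 * ((B / 2) ^ 2 * D) / r * ex19 K r a V) := by
    rw [hcard]
    have h1 := tail1_le (K := K) (D := 2 * (B / 2) ^ 2 * D) (t := r) (a := a) (V := V) (by positivity) hr hK hV0
    refine mul_le_mul_of_nonneg_left (h1.trans (le_of_eq ?_)) (by positivity)
    ring
  refine key2.trans ((add_le_add (add_le_add (add_le_add le_rfl htail) le_rfl) hfar).trans (le_of_eq ?_))
  unfold rX qX
  push_cast
  ring

/-- The choice of the numbers of a slab step. -/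
theorem slab_num {M R θ0 L : ℝ} {n : ℕ} (hM : 0 < M) (hR : 0 < R) (hn0 : 0 < n) (hRn : R ≤ n) (hn : 1 ≤ θ0 ^ 2 * (n * R))
    (hθ0 : 0 < θ0) (K : ℝ) : ∃ r V : ℝ, 0 < r ∧ R * M ^ 2 / n ≤ V ∧ r * (M / n) ≤ θ0 ∧ r⁻¹ = M * Real.sqrt (R / n) ∧
      M * Real.sqrt (R / n) ≤ M ∧ ex19 K r (M * L * Real.sqrt (R / n)) V = Real.exp (4 * K - L / 2) := by
  have hn0' : (0 : ℝ) < n := by exact_mod_cast hn0
  have hq : 0 < Real.sqrt (R / n) := Real.sqrt_pos.2 (by positivity)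
  have hq2 : Real.sqrt (R / n) ^ 2 = R / n := Real.sq_sqrt (by positivity)
  have hq1 : Real.sqrt (R / n) ≤ 1 := Real.sqrt_le_one.2 ((div_le_one hn0').2 hRn)
  refine ⟨(M * Real.sqrt (R / n))⁻¹, R * M ^ 2 / n, by positivity, le_rfl, ?_, inv_inv _, ?_, ?_⟩
  · have h1 : (M * Real.sqrt (R / n))⁻¹ * (M / n) = 1 / (n * Real.sqrt (R / n)) := by field_simp
    rw [h1, div_le_iff₀ (by positivity)]
    have h2 : (1 : ℝ) ^ 2 ≤ (θ0 * (n * Real.sqrt (R / n))) ^ 2 := by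
      have h3 : (θ0 * (n * Real.sqrt (R / n))) ^ 2 = θ0 ^ 2 * (n * R) := by
        rw [mul_pow, mul_pow, hq2]
        field_simp
      rw [h3, one_pow]
      exact hn
    exact le_of_sq_le_sq h2 (by positivity)
  · exact mul_le_of_le_one_right hM.le hq1
  · unfold ex19
    rw [← Real.exp_add]
    congr 1
    have h1 : (M * Real.sqrt (R / n))⁻¹ * (M * L * Real.sqrt (R / n)) = L := by field_simp
    have h2 : 4 * K * (M * Real.sqrt (R / n))⁻¹ ^ 2 * (R * M ^ 2 / n) = 4 * K := by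
      rw [inv_pow, mul_pow, hq2]
      field_simp
    rw [h1, h2]
    ring

/-- **(E2a) OF ONE ROW AT FIXED SIGNS**, in the final form: `R` = number of sites of the tubes in a row, `n` = number of rows of the
slab, `L` free. -/
theorem e2a_LA [IsProbabilityMeasure μ] {ff ff' : ℝ → ℝ} (h : DenLaw μ ff ff') {K θ0 : ℝ} (hs : SG μ (sc ff ff') K θ0)
    (hB : 0 < B) (hf : Cls59 N c' d D f) (X : Slab1 N d b0 b j m0 m1 n J) (T2 : Tb N 2 bx J χ2 o2 ow R)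
    (hR : 0 < R) (hRn : R ≤ n) (hn : 1 ≤ θ0 ^ 2 * (n * R)) (hθ0 : 0 < θ0) {L : ℝ} (hL : 0 ≤ L) (t u : ℝ) (A : Finset ℕ) :
    |∫ η, e2aX μ s N δ B b0 b j t u y f (η, A) ∂(law μ)| ≤
      B / 2 * L * Real.sqrt (R / n) *
        ∫ η, rep 2 (wj μ s N (Pn N y) δ B b0 j (η, A) t) (fun x => |qX μ s N δ B b0 b j u y f m0 m1 (η, A) x|) ∂(law μ) +
      B * ((n : ℝ)⁻¹ * ∑ m ∈ J, ∫ η, rep 2 (wj μ s N (Pn N y) δ B b0 j (η, A) t)
        (rX μ s N δ B b0 b j t u y f m0 m1 m (η, A)) ∂(law μ)) +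
      (B * ∫ η, rep 3 (wj μ s N (Pn N y) δ B b0 j (η, A) t) (fr 2 bx o2 (qX μ s N δ B b0 b j u y f m0 m1 (η, A))) ∂(law μ) +
        4 * (B / 2) ^ 3 * D * ∫ η, gm (wj μ s N (Pn N y) δ B b0 j (η, A) t) ow ∂(law μ)) +
      8 * (B / 2) ^ 3 * D * (Fintype.card BB : ℝ) ^ 2 * Real.exp (4 * K - L / 2) := by
  have hD0 : 0 ≤ D := (abs_nonneg _).trans (hf.bdd y (fun _ => 0, ∅) Classical.ofNonempty)
  obtain ⟨r, V, h1, h2, h3, h4, h5, h6⟩ := slab_num (M := B / 2) (L := L) (by positivity) hR X.n0 hRn hn hθ0 K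
  have k := e2a_A (s := s) (δ := δ) (a := B / 2 * L * Real.sqrt (R / n)) (V := V) h hs hB.le hf X T2 h1 (by positivity) h2 h3 t u A
  refine k.trans (add_le_add le_rfl ?_)
  rw [h6, div_eq_mul_inv, h4]
  have e0 := (Real.exp_pos (4 * K - L / 2)).le
  have h7 : 8 * ((B / 2) ^ 2 * D) * (B / 2 * Real.sqrt (R / n)) ≤ 8 * ((B / 2) ^ 2 * D) * (B / 2) :=
    mul_le_mul_of_nonneg_left h5 (by positivity)
  have h8 := mul_le_mul_of_nonneg_left (mul_le_mul_of_nonneg_right h7 e0) (by positivity : 0 ≤ (Fintype.card BB : ℝ) ^ 2)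
  refine h8.trans (le_of_eq ?_)
  ring

theorem meas_vA (hB : 0 ≤ B) (hb : b0 ≤ b) (hj : j + b ≤ N) (A : Finset ℕ) (u : ℝ) :
    Measurable fun η => vX μ s N δ B b0 b j u y (η, A) := measurable_pi_lambda _ fun S => by
  have h := (past_VM (μ := μ) (s := s) hB δ A hb (le_refl (j + b)) u).ms S.1
  simp only [VM_pt (N := N) (y := y) hB hb hj A u] at h
  exact h

theorem obs_qX (hB : 0 ≤ B) (hf : Cls59 N c' d D f) (hb : b0 ≤ b) (hj : j + b ≤ N) (A : Finset ℕ) (u : ℝ) :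
    Obs (fun η => qX μ s N δ B b0 b j u y f m0 m1 (η, A)) (2 * (B / 2) ^ 2 * D) :=
  obs_VN (meas_vA hB hb hj A u)
    (measurable_pi_lambda _ fun S => (hf.meas y S).comp measurable_prodMk_right)
    (fun η S => abs_cV_le _ _ (fun S => abs_gg hB b0 (η, A) j S) S) fun η S => hf.bdd y (η, A) S

theorem gd_e2aX (hB : 0 ≤ B) (hf : Cls59 N c' d D f) (hb : b0 ≤ b) (hj : j + b ≤ N) (t u : ℝ) :
    Gd (e2aX μ s N δ B b0 b j t u y f) where
  ms A := by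
    have mg : Measurable fun η => gg μ s (Pn N y) δ B b0 (η, A) j := measurable_pi_lambda _ fun S =>
      (wf_gf (μ := μ) (s := s) hB δ b0 j (abs_sg A j).le).meas _
    have mf : Measurable fun η => f y (η, A) := measurable_pi_lambda _ fun S => (hf.meas y S).comp measurable_prodMk_right
    exact Pool.W7d29a1.C0.meas_cm3 (meas_wA hB A t) mg (meas_vA hB hb hj A u) mf
  bd := by
    refine ⟨_, fun ω => Pool.W7d29a1.C0.abs_cm3_le (M := |D| + B + (B / 2) ^ 2) _ (by positivity) (fun S => ?_) (fun S => ?_)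
      fun S => ?_⟩
    · exact (abs_gg hB b0 ω j S).trans (by
        have := abs_nonneg D
        have := sq_nonneg (B / 2)
        linarith)
    · exact (abs_cV_le _ _ (fun S => abs_gg hB b0 ω j S) S).trans (by
        have := abs_nonneg D
        linarith)
    · exact (hf.bdd y ω S).trans ((le_abs_self D).trans (by
        have := sq_nonneg (B / 2)
        linarith))

/-- **(E2a) OF ONE ROW, IN THE MEAN OVER THE ENVIRONMENT AND THE SIGNS.** -/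
theorem e2a_P [IsProbabilityMeasure μ] {ff ff' : ℝ → ℝ} (h : DenLaw μ ff ff') {K θ0 : ℝ} (hs : SG μ (sc ff ff') K θ0)
    (hB : 0 < B) (hf : Cls59 N c' d D f) (X : Slab1 N d b0 b j m0 m1 n J) (T2 : Tb N 2 bx J χ2 o2 ow R)
    (hR : 0 < R) (hRn : R ≤ n) (hn : 1 ≤ θ0 ^ 2 * (n * R)) (hθ0 : 0 < θ0) {L : ℝ} (hL : 0 ≤ L) (t u : ℝ) :
    |∫ ω, e2aX μ s N δ B b0 b j t u y f ω ∂(Pm μ N)| ≤
      B / 2 * L * Real.sqrt (R / n) *
        ∫ ω, rep 2 (wj μ s N (Pn N y) δ B b0 j ω t) (fun x => |qX μ s N δ B b0 b j u y f m0 m1 ω x|) ∂(Pm μ N) +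
      B * ((n : ℝ)⁻¹ * ∑ m ∈ J, ∫ ω, rep 2 (wj μ s N (Pn N y) δ B b0 j ω t)
        (rX μ s N δ B b0 b j t u y f m0 m1 m ω) ∂(Pm μ N)) +
      (B * ∫ ω, rep 3 (wj μ s N (Pn N y) δ B b0 j ω t) (fr 2 bx o2 (qX μ s N δ B b0 b j u y f m0 m1 ω)) ∂(Pm μ N) +
        4 * (B / 2) ^ 3 * D * ∫ ω, gm (wj μ s N (Pn N y) δ B b0 j ω t) ow ∂(Pm μ N)) +
      8 * (B / 2) ^ 3 * D * (Fintype.card BB : ℝ) ^ 2 * Real.exp (4 * K - L / 2) := by
  have hjN : j + b ≤ N := X.hj.trans (X.m.trans (X.c3.trans X.c4))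
  have mw : ∀ A, Measurable fun η => wj μ s N (Pn N y) δ B b0 j (η, A) t := fun A => meas_wA hB.le A t
  have g0 := gd_e2aX (μ := μ) (s := s) (δ := δ) (y := y) hB.le hf X.hb hjN t u
  have g1 : Gd fun ω => rep 2 (wj μ s N (Pn N y) δ B b0 j ω t) (fun x => |qX μ s N δ B b0 b j u y f m0 m1 ω x|) :=
    gd_rep mw fun A => (obs_qX hB.le hf X.hb hjN A u).abs
  have g2 : ∀ m ∈ J, Gd fun ω => rep 2 (wj μ s N (Pn N y) δ B b0 j ω t) (rX μ s N δ B b0 b j t u y f m0 m1 m ω) := fun m _ =>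
    gd_rep mw fun A => obs_RV (mw A) (obs_qX hB.le hf X.hb hjN A u) m
  have g3 : Gd fun ω => rep 3 (wj μ s N (Pn N y) δ B b0 j ω t) (fr 2 bx o2 (qX μ s N δ B b0 b j u y f m0 m1 ω)) :=
    gd_rep mw fun A => obs_fr bx T2.o0 T2.o1 (obs_qX hB.le hf X.hb hjN A u)
  have g4 : Gd fun ω => gm (wj μ s N (Pn N y) δ B b0 j ω t) ow := by
    have h7 : Gd fun ω => rep 1 (wj μ s N (Pn N y) δ B b0 j ω t) (fun x => ow (x 0)) := gd_rep mw (D := 1) fun A =>
      ⟨measurable_const, fun η x => by rw [abs_of_nonneg (T2.w0 _)]; exact T2.w1 _⟩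
    simp only [rep_at] at h7
    exact h7
  have e2 : ∑ m ∈ J, ∫ ω, rep 2 (wj μ s N (Pn N y) δ B b0 j ω t) (rX μ s N δ B b0 b j t u y f m0 m1 m ω) ∂(Pm μ N) =
      AvA N fun A => ∑ m ∈ J, ∫ η, rep 2 (wj μ s N (Pn N y) δ B b0 j (η, A) t) (rX μ s N δ B b0 b j t u y f m0 m1 m (η, A)) ∂(law μ) := by
    rw [AvA_sum]
    exact sum_congr rfl fun m hm => (g2 m hm).av
  rw [g0.av, g1.av, e2, g3.av, g4.av]
  rw [← AvA_const (N := N) (8 * (B / 2) ^ 3 * D * (Fintype.card BB : ℝ) ^ 2 * Real.exp (4 * K - L / 2))]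
  simp only [← AvA_add, ← AvA_mul]
  exact abs_AvA_le fun A => e2a_LA h hs hB hf X T2 hR hRn hn hθ0 hL t u A

end row

end

end Pool.Agent.W_7d29a1_C0.E2aM82
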