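import Pool.Agent.W_7d29a1_C0.E2aH82

/-!
CURV0 (MP_7d29a1_pr, helper82): (E2a) LITERALLY (`E2aL46` of `EstC46B`) from the two named prices `MQL81`, `RQL81` of `E2aP82`.
-/

set_option autoImplicit false
set_option linter.unusedSectionVars false
set_option linter.unusedVariables false

namespace Pool.Agent.W_7d29a1_C0.E2aT82

open Finset MeasureTheory Filter Topology Pool.Agent.W_7d29a1_F Pool.Agent.W_7d29a1_X Pool.Agent.W_7d29a1_H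
open Pool.Agent.W_7d29a1_HS (In wd)
open Pool.Agent.W_7d29a1_HZ (wd' EE')
open Pool.Agent.W_7d29a1_C0 Pool.Agent.W_7d29a1_C0.Mod92 Pool.Agent.W_7d29a1_C0.Asm96 Pool.Agent.W_7d29a1_C0.CrA44
open Pool.Agent.W_7d29a1_C0.Frm33 Pool.Agent.W_7d29a1_C0.EstC46 Pool.Agent.W_7d29a1_C0.Far34 Pool.Agent.W_7d29a1_C0.E2aN82
open Pool.Agent.W_7d29a1_C0.Par92 (Sml Est)
open Pool.Agent.W_7d29a1_C0.H32 (DenLaw SG sc)
open Pool.Agent.W_7d29a1_C0.Q32 Pool.W7d29a1.C0.H27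

noncomputable section

variable {μ : Measure ℝ} {s : ℝ}

/-- **(E2a) OF EVERY BLOCK AND EVERY SPECTATOR AT THE CONCRETE FRAME** from the two prices of this block and this spectator. -/
theorem e2aB82 [IsProbabilityMeasure μ] {c₂ C₂ : ℝ} {n₀ : ℕ} (h : In μ s c₂ C₂ n₀)
    (hQI : ∀ p : ℝ, 1 < p → ∃ C θ0 : ℝ, 0 ≤ C ∧ 0 < θ0 ∧ QI μ p C θ0) {ff ff' : ℝ → ℝ} (hdl : DenLaw μ ff ff')
    {K : ℕ} (hK : 32 ≤ K) {Θ : ℝ} (hΘ : 0 < Θ) {c₀ : ℝ} (hR : RegP46 μ s c₀ Θ) : Sml fun δ => Sml fun c => ∃ x ν : ℝ, 0 < x ∧ 0 < ν ∧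
      Est fun ι β γ m => Bl46 (frm33 μ s K ι β γ) (EE μ s) δ c m fun p q i f =>
        MQ81 μ s (L33 K m) γ (B33 β m) (2 ^ (p - ⌈ι * m⌉₊)) (2 ^ p) f (ys33 μ s K m) (R33 ι m) (i * 2 ^ q) ((i + 1) * 2 ^ q)
          (gl46 ι m q) (((2 ^ m : ℕ) : ℝ) ^ ν * √(k1s (EE μ s) (2 ^ q) (2 ^ p) (2 ^ (p - ⌈ι * m⌉₊)))) (((2 ^ m : ℕ) : ℝ)⁻¹) →
        RQ81 μ s (L33 K m) γ (B33 β m) (2 ^ (p - ⌈ι * m⌉₊)) (2 ^ p) f (ys33 μ s K m) (R33 ι m) (i * 2 ^ q) ((i + 1) * 2 ^ q)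
          (gl46 ι m q) (((2 ^ m : ℕ) : ℝ) ^ ν * √(k2s (EE μ s) (2 ^ q) (2 ^ p) (2 ^ (p - ⌈ι * m⌉₊)))) (((2 ^ m : ℕ) : ℝ)⁻¹) →
        PE2a μ s (L33 K m) γ (B33 β m) (2 ^ (p - ⌈ι * m⌉₊)) (2 ^ p) f (ys33 μ s K m) (R33 ι m) (i * 2 ^ q) ((i + 1) * 2 ^ q)
          (kp46 Θ x m q) (1 / 8) := by
  obtain ⟨Kg, θ0, hs⟩ := hdl.sg
  have hθ0 : 0 < θ0 := hs.2.2.1
  have hKg : 0 < Kg := hs.2.1
  obtain ⟨a, ha, ha1, hRe⟩ := hR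
  obtain ⟨a', K0, _, _, hK0, hwd⟩ := Pool.Agent.W_7d29a1_HZ.Z96.wd_all96 h
  have hK32 : (32 : ℝ) ≤ K := by exact_mod_cast hK
  have hKR : (0 : ℝ) < K := by linarith
  refine Sml.mono (Sml.le one_pos) fun δ hδ hδ1 => ?_
  refine ((Sml.le (show 0 < δ / 256 by positivity)).and (Sml.le (show 0 < Θ / 16 by positivity))).mono fun c hc h8 => ?_
  obtain ⟨hcδ, hcΘ⟩ := h8
  obtain ⟨η, hη⟩ : ∃ η : ℝ, η = c / 8 := ⟨_, rfl⟩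
  obtain ⟨x, hxd⟩ : ∃ x : ℝ, x = min (η * Θ / 8) (c / 8) := ⟨_, rfl⟩
  obtain ⟨ν, hν⟩ : ∃ ν : ℝ, ν = x / 20 := ⟨_, rfl⟩
  have hη0 : 0 < η := by rw [hη]; positivity
  have hx : 0 < x := by rw [hxd]; exact lt_min (by positivity) (by positivity)
  have hν0 : 0 < ν := by rw [hν]; positivity
  have hxη : x ≤ η * Θ / 8 := by rw [hxd]; exact min_le_left _ _
  have hxc : x ≤ c / 8 := by rw [hxd]; exact min_le_right _ _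
  refine ⟨x, ν, hx, hν0, ?_⟩
  have hκ : 0 < δ / 2 / K := by positivity
  have hκ1 : δ / 2 / K ≤ 1 := by
    rw [div_le_one hKR]
    linarith
  obtain ⟨δa, ε₁, ca, hδa, hε₁, hca, Na, hrow⟩ := row_far82 h hQI hdl hs hθ0 hκ hκ1 (ε := ν / K) (K' := 8) (ε2 := ν / K)
    (by positivity) (by norm_num) (by positivity)
  obtain ⟨δb, cb, hδb, hcb, Nb, hcor⟩ := xf_corner34 h (ε := ν / K) (θ := δ / 2 / K) (by positivity) hκ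
  have hE1 : Est fun ι _ _ _ => ι ≤ ν := Par92.Est.iota (Sml.le hν0)
  have hE2 : Est fun _ β _ _ => β ≤ min ν (min (K * ε₁) (K * ca / 2)) :=
    Par92.Est.beta (Sml.of fun _ _ => Sml.le (lt_min hν0 (lt_min (by positivity) (by positivity))))
  refine Par92.Est.mono (hE1.and hE2) fun ι β γ hι hβ hγ => ?_
  filter_upwards [hRe (δ / 2) ν (by positivity) hν0, ev_L (by omega : 1 ≤ K) Na, ev_L (by omega : 1 ≤ K) Nb,
    cone33 h hK (lt_min hδa hδb), ev_n hν0 (64 + 14 * K0), ev_n (show 0 < δ / 4 by positivity) 16,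
    ev_n (show 0 < δ / 2 by positivity) (1 / (14 * θ0 ^ 2)), ev_n hc 16, ev_exp82 (show 0 < K * ca / 2 by positivity) (2 * K + 12),
    ev_exp82 (show 0 < K * cb by positivity) (2 * K + 12), ev_exp82 (show 0 < β / 2 by positivity) (2 * K + 12),
    ev_n (show 0 < β / 2 by positivity) (2 + 8 * Kg), ev_n (show 0 < K * ca / 2 by positivity) 3, ev_n (show (0 : ℝ) < 1 / 2 by norm_num) 32]
    with m hRm hNa hNb hco hn1 hn2 hn3 hn4 hx1 hx2 hx3 hn5 hn6 hn7 hE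
  obtain ⟨hιν, hβ0⟩ := hE
  have hβν : β ≤ ν := hβ0.trans (min_le_left _ _)
  have hβε : β ≤ K * ε₁ := hβ0.trans ((min_le_right _ _).trans (min_le_left _ _))
  have hβc : β ≤ K * ca / 2 := hβ0.trans ((min_le_right _ _).trans (min_le_right _ _))
  have hnd : ((2 ^ m : ℕ) : ℝ) = ((2 ^ m : ℕ) : ℝ) := rfl
  have hn0 : (0 : ℝ) < ((2 ^ m : ℕ) : ℝ) := by positivity
  have hn1' : (1 : ℝ) ≤ ((2 ^ m : ℕ) : ℝ) := n_ge1 m
  intro p q i hst hi D f hD hf M1 M2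
  obtain ⟨R, hwe⟩ := hRm
  have hNp : ∀ e : ℝ, ((L33 K m : ℕ) : ℝ) ^ e = ((2 ^ m : ℕ) : ℝ) ^ (K * e) := fun e => L33_pow K m e
  have hys : ∀ y ∈ ys33 μ s K m, y ≤ L33 K m ∧ |(y : ℝ) - sl μ s * (L33 K m : ℕ)| ≤ ((L33 K m : ℕ) : ℝ) ^ (min δa δb) * wd' μ s (L33 K m) :=
    fun y hy => by
      have h1 := mem_Ico.1 (show y ∈ Ico (y33 μ s K m) (y33 μ s K m + M33 m) from hy)
      exact hco.2.2 y (by omega) (by omega)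
  have hL1 : (1 : ℝ) ≤ ((L33 K m : ℕ) : ℝ) := hn1'.trans (by exact_mod_cast L33_ge (by omega : 1 ≤ K) m)
  have cone : ∀ y ∈ ys33 μ s K m, ∀ e, min δa δb ≤ e → |(y : ℝ) - sl μ s * (L33 K m : ℕ)| ≤ ((L33 K m : ℕ) : ℝ) ^ e * wd' μ s (L33 K m) :=
    fun y hy e he => (hys y hy).2.trans (mul_le_mul_of_nonneg_right (Real.rpow_le_rpow_of_exponent_le hL1 he)
      (zero_le_one.trans (le_max_left _ _)))
  have q1 : Real.exp (2 * ((2 ^ m : ℕ) : ℝ) ^ β - ((L33 K m : ℕ) : ℝ) ^ ca) ≤ ((2 ^ m : ℕ) : ℝ) ^ (-(2 * (K : ℝ) + 12)) := by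
    refine le_trans (Real.exp_le_exp.2 ?_) hx1
    rw [hNp]
    have h1 : ((2 ^ m : ℕ) : ℝ) ^ β ≤ ((2 ^ m : ℕ) : ℝ) ^ (K * ca / 2) := Real.rpow_le_rpow_of_exponent_le hn1' hβc
    have h2 : ((2 ^ m : ℕ) : ℝ) ^ (K * ca) = ((2 ^ m : ℕ) : ℝ) ^ (K * ca / 2) * ((2 ^ m : ℕ) : ℝ) ^ (K * ca / 2) := by
      rw [← Real.rpow_add hn0]
      ring_nf
    rw [h2]
    have h3 := mul_le_mul_of_nonneg_right hn6 (zero_le_three.trans hn6)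
    linarith
  have q3 : Real.exp (4 * Kg - ((2 ^ m : ℕ) : ℝ) ^ β / 2) ≤ ((2 ^ m : ℕ) : ℝ) ^ (-(2 * (K : ℝ) + 12)) := by
    refine le_trans (Real.exp_le_exp.2 ?_) hx3
    have h2 : ((2 ^ m : ℕ) : ℝ) ^ β = ((2 ^ m : ℕ) : ℝ) ^ (β / 2) * ((2 ^ m : ℕ) : ℝ) ^ (β / 2) := by
      rw [← Real.rpow_add hn0]
      ring_nf
    rw [h2]
    nlinarith
  have qX : ((2 ^ m : ℕ) : ℝ) ^ (-(2 * (K : ℝ) + 12)) * ((2 ^ m : ℕ) : ℝ) ^ (2 * K + 12) ≤ 1 := by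
    rw [← Real.rpow_natCast, ← Real.rpow_add hn0]
    push_cast
    rw [neg_add_cancel, Real.rpow_zero]
  have hB3 : ((2 ^ m : ℕ) : ℝ) ^ (-(1 : ℝ)) = ((2 ^ m : ℕ) : ℝ)⁻¹ := Real.rpow_neg_one _
  refine blk82 (K := K) (N := L33 K m) (n := ((2 ^ m : ℕ) : ℝ)) (ι := ι) (β := β) (γ := γ) (ν := ν) (η := η) (x := x) (δ := δ) (c := c)
    (c₀ := c₀) (a := a) (Θ := Θ) (K0 := K0) (Kg := Kg) (θ0 := θ0) (X := ((2 ^ m : ℕ) : ℝ) ^ (-(2 * (K : ℝ) + 12))) (ε₁ := ε₁) (c' := ca)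
    (cb := cb) (κ := δ / 2 / K) (ε := ν / K) hnd R hwe hK0 (fun k k' hk hkk => (hwd k k' hk hkk).1) (by omega) (by
      rw [L33_real, Real.rpow_natCast]) (by rw [hNp, mul_div_cancel₀ _ hKR.ne']) (by rw [hNp, mul_div_cancel₀ _ hKR.ne']) hδ hc hcδ hδ1 hcΘ
    hΘ hη hν0 hx (by linarith) hxη hxc hι hιν hβ hβν hθ0 (by linarith) (by linarith) hn2 hn3 hn4 hn7 (by
      rw [hNp]
      exact Real.rpow_le_rpow_of_exponent_le hn1' hβε) (by positivity) qX q1 (by rw [hNp]; exact hx2) q3 (by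
      rw [hNp]
      exact Real.rpow_le_rpow_of_exponent_le hn1' (by linarith)) hst hi (cls_mono82 hf hD) (fun y hy => (hys y hy).1)
      (Finset.Subset.refl _) (fun y hy => ?_) (fun y hy i' l' hl' hil => ?_) M1 M2
  · exact hrow (L33 K m) hNa y (hys y hy).1 (cone y hy _ (min_le_left _ _))
  · exact hcor (L33 K m) hNb y (hys y hy).1 (cone y hy _ (min_le_right _ _)) _ _ _ f hf i' l' hl' hil

/-- **(E2a) AT THE CONCRETE FRAME** from the two named prices. -/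
theorem e2aL82 [IsProbabilityMeasure μ] {c₂ C₂ : ℝ} {n₀ : ℕ} (h : In μ s c₂ C₂ n₀)
    (hQI : ∀ p : ℝ, 1 < p → ∃ C θ0 : ℝ, 0 ≤ C ∧ 0 < θ0 ∧ QI μ p C θ0) {ff ff' : ℝ → ℝ} (hdl : DenLaw μ ff ff')
    {K : ℕ} (hK : 32 ≤ K) {Θ : ℝ} (hΘ : 0 < Θ) {c₀ : ℝ} (hR : RegP46 μ s c₀ Θ) (hM : MQL81 μ s K) (hQ : RQL81 μ s K) :
    E2aL46 μ s K Θ := by
  refine ((e2aB82 h hQI hdl hK hΘ hR).and (Sml.and hM hQ)).mono fun δ hδ h7 => ?_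
  obtain ⟨h6, h7, h8⟩ := h7
  refine (h6.and (Sml.and h7 h8)).mono fun c hc h9 => ?_
  obtain ⟨⟨x, ν, hx, hν, h1⟩, h2, h3⟩ := h9
  refine ⟨x, hx, (h1.and ((h2 ν hν).and (h3 ν hν))).mono fun ι β γ _ _ _ => Eventually.of_forall fun m hm => ?_⟩
  obtain ⟨k1, k2, k3⟩ := hm
  exact fun p q i hst hi D f hD hf => k1 p q i hst hi D f hD hf (k2 p q i hst hi D f hD hf) (k3 p q i hst hi D f hD hf)

end

end Pool.Agent.W_7d29a1_C0.E2aT82
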