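import Pool.Agent.W_7d29a1_C0.E2aU82
import Pool.Agent.W_7d29a1_C0.EstD44

/-!
CURV0 (MP_7d29a1_pr, helper82): (E2a) FOR THE COVARIANT SPECTATORS (`E2aV` of `EstD44`, the field `e2a` of the roots) from the two prices
for the covariant spectators: `MQV81`, `RQV81` = `MQL81`, `RQL81` with `Bl44`.
-/

set_option autoImplicit false

namespace Pool.Agent.W_7d29a1_C0.E2aT82

open Finset MeasureTheory Filter Topology Pool.Agent.W_7d29a1_F Pool.Agent.W_7d29a1_X Pool.Agent.W_7d29a1_H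
open Pool.Agent.W_7d29a1_HS (In)
open Pool.Agent.W_7d29a1_C0 Pool.Agent.W_7d29a1_C0.Mod92 Pool.Agent.W_7d29a1_C0.Asm96 Pool.Agent.W_7d29a1_C0.CrA44
open Pool.Agent.W_7d29a1_C0.Frm33 Pool.Agent.W_7d29a1_C0.EstC46 Pool.Agent.W_7d29a1_C0.EstD44
open Pool.Agent.W_7d29a1_C0.Par92 (Sml Est)
open Pool.Agent.W_7d29a1_C0.H32 (DenLaw)
open Pool.Agent.W_7d29a1_C0.Q32 Pool.W7d29a1.C0.H27

noncomputable section

/-- **(MQ)** at the concrete frame, covariant spectators. -/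
def MQV81 (μ : Measure ℝ) (s : ℝ) (K : ℕ) : Prop := Sml fun δ => Sml fun c => ∀ ν : ℝ, 0 < ν → Est fun ι β γ m =>
  Bl44 (frm33 μ s K ι β γ) (EE μ s) δ c m fun p q i f =>
    MQ81 μ s (L33 K m) γ (B33 β m) (2 ^ (p - ⌈ι * m⌉₊)) (2 ^ p) f (ys33 μ s K m) (R33 ι m) (i * 2 ^ q) ((i + 1) * 2 ^ q)
      (gl46 ι m q) (((2 ^ m : ℕ) : ℝ) ^ ν * √(k1s (EE μ s) (2 ^ q) (2 ^ p) (2 ^ (p - ⌈ι * m⌉₊)))) (((2 ^ m : ℕ) : ℝ)⁻¹)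

/-- **(RQ)** at the concrete frame, covariant spectators. -/
def RQV81 (μ : Measure ℝ) (s : ℝ) (K : ℕ) : Prop := Sml fun δ => Sml fun c => ∀ ν : ℝ, 0 < ν → Est fun ι β γ m =>
  Bl44 (frm33 μ s K ι β γ) (EE μ s) δ c m fun p q i f =>
    RQ81 μ s (L33 K m) γ (B33 β m) (2 ^ (p - ⌈ι * m⌉₊)) (2 ^ p) f (ys33 μ s K m) (R33 ι m) (i * 2 ^ q) ((i + 1) * 2 ^ q)
      (gl46 ι m q) (((2 ^ m : ℕ) : ℝ) ^ ν * √(k2s (EE μ s) (2 ^ q) (2 ^ p) (2 ^ (p - ⌈ι * m⌉₊)))) (((2 ^ m : ℕ) : ℝ)⁻¹)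

variable {μ : Measure ℝ} {s : ℝ}

theorem mqv_of46 {K : ℕ} (h : MQL81 μ s K) : MQV81 μ s K := h.mono fun _ _ h => h.mono fun _ _ h ν hν =>
  (h ν hν).mono fun _ _ _ _ _ _ => Eventually.of_forall fun _ hm => Bl44.of46 hm

theorem rqv_of46 {K : ℕ} (h : RQL81 μ s K) : RQV81 μ s K := h.mono fun _ _ h => h.mono fun _ _ h ν hν =>
  (h ν hν).mono fun _ _ _ _ _ _ => Eventually.of_forall fun _ hm => Bl44.of46 hm

/-- **(E2a) AT THE CONCRETE FRAME, covariant spectators** (the field `e2a` of `XtB33`). -/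
theorem e2aV82 [IsProbabilityMeasure μ] {c₂ C₂ : ℝ} {n₀ : ℕ} (h : In μ s c₂ C₂ n₀)
    (hQI : ∀ p : ℝ, 1 < p → ∃ C θ0 : ℝ, 0 ≤ C ∧ 0 < θ0 ∧ QI μ p C θ0) {ff ff' : ℝ → ℝ} (hdl : DenLaw μ ff ff')
    {K : ℕ} (hK : 32 ≤ K) {Θ : ℝ} (hΘ : 0 < Θ) {c₀ : ℝ} (hR : RegP46 μ s c₀ Θ) (hM : MQV81 μ s K) (hQ : RQV81 μ s K) :
    Sml fun δ => Sml fun c => ∃ x : ℝ, 0 < x ∧ Est fun ι β γ m => E2aV μ s (frm33 μ s K ι β γ) (EE μ s) Θ δ c x m := by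
  refine ((e2aB82 h hQI hdl hK hΘ hR).and (Sml.and hM hQ)).mono fun δ hδ h7 => ?_
  obtain ⟨h6, h7, h8⟩ := h7
  refine (h6.and (Sml.and h7 h8)).mono fun c hc h9 => ?_
  obtain ⟨⟨x, ν, hx, hν, h1⟩, h2, h3⟩ := h9
  refine ⟨x, hx, (h1.and ((h2 ν hν).and (h3 ν hν))).mono fun ι β γ _ _ _ => Eventually.of_forall fun m hm => ?_⟩
  obtain ⟨k1, k2, k3⟩ := hm
  exact fun p q i hst hi D f hD hf hcv => k1 p q i hst hi D f hD hf (k2 p q i hst hi D f hD hf hcv) (k3 p q i hst hi D f hD hf hcv)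

end

end Pool.Agent.W_7d29a1_C0.E2aT82
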