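import Pool.Agent.W_7d29a1_C0.CrB44
import Pool.Agent.W_7d29a1_C0.FlipD61
import Pool.Agent.W_7d29a1_C0.N59

/-!
CURV0 (MP_7d29a1_pr, helper44): THE DOUBLE TIE (E2b) AT THE ACTUAL MEASURE. `D2b` = the sum over the kicked rows of
`(a_j / 3) cC_B(gg b, gg b0 - gg b)`. `row_flip44`: for a covariant spectator the mean over both corners is the mean at the actual measure
(`fl_even`); `cs44`: the Cauchy-Schwarz inequality. **`PE2g_of44`**: the contract `PE2g` with the factor `√(E Var (cE_J D2b))`.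
-/

set_option autoImplicit false
set_option linter.unusedSectionVars false
set_option linter.unusedVariables false

namespace Pool.Agent.W_7d29a1_C0.CrA44

open Finset MeasureTheory Pool.Agent.W_7d29a1_F Pool.Agent.W_7d29a1_X Pool.Agent.W_7d29a1_H
open Pool.Agent.W_7d29a1_C0.Mod92 Pool.Agent.W_7d29a1_C0.Base5 Pool.Agent.W_7d29a1_C0 Pool.Agent.W_7d29a1_C0.Flip61
open Pool.W7d29a1.C0 (gz gm lse gz_pos gz_ne gm_nonneg gm_mono gm_const Ac Dc Mc gb81 cm Kn81)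
open Pool.W7d29a1.C0.VT31 (Mp Crs cE cV cC gc gv cE_meas gc_sum_left gc_cE_left gv_nonneg abs_gc_le gc_smul_left int_sqrt_mul_le)

noncomputable section

/-! ### The expression of the row -/

/-- `(a / 3) Cov(cC(g, g0 - g), f)`. -/
def e3 (a : ℤ) : Ex (Option Bool) Unit := Ex.mul (Ex.cst ((a : ℝ) / 3)) (Ex.gcc (Ex.cc () (Ex.fn (some false))
  (Ex.add (Ex.fn none) (Ex.mul (Ex.cst (-1)) (Ex.fn (some false))))) (Ex.fn (some true)))

section abs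

variable {X : Type*} [Fintype X] [Nonempty X] {Y : Type*} [DecidableEq Y]

theorem gm_cmul44 (w : X → ℝ) (r : ℝ) (f : X → ℝ) : (gm w fun x => r * f x) = r * gm w f := by
  unfold gm
  rw [← mul_div_assoc, mul_sum]
  congr 1
  exact sum_congr rfl fun x _ => by ring

theorem ev_e3 (w : X → ℝ) (h : Option Bool → X → ℝ) (Q : Unit → X → Y) (a : ℤ) :
    gm w (Ex.evX w h Q (e3 a)) = (a : ℝ) / 3 * gc w (cC w (Q ()) (h (some false)) (h none - h (some false))) (h (some true)) := by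
  have e1 : Ex.evX w h Q (Ex.add (Ex.fn none) (Ex.mul (Ex.cst (-1)) (Ex.fn (some false)))) = h none - h (some false) := by
    funext x
    show h none x + -1 * h (some false) x = _
    rw [Pi.sub_apply]
    ring
  have e2 : Ex.evX w h Q (e3 a) = fun x => (a : ℝ) / 3 * Ex.evX w h Q (Ex.gcc (Ex.cc () (Ex.fn (some false))
      (Ex.add (Ex.fn none) (Ex.mul (Ex.cst (-1)) (Ex.fn (some false))))) (Ex.fn (some true))) x := rfl
  rw [e2, gm_cmul44, Ex.evX_gcc, Ex.evX_cc, e1]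
  rfl

theorem sz_e3 {bb : Option Bool → ℝ} (hb : ∀ i, 0 ≤ bb i) {a : ℤ} (ha : a = 1 ∨ a = -1) :
    Ex.li bb (e3 a) + 2 * Ex.bd bb (e3 a) ≤
      288 * (bb (some false) * (bb none + bb (some false)) * bb (some true)) := by
  have h1 : |((a : ℝ) / 3)| ≤ 1 := by
    rw [abs_div]
    have h3 : |(3 : ℝ)| = 3 := by norm_num
    rw [h3]
    rcases ha with rfl | rfl <;> norm_num
  have h2 := Ex.sz_cst_mul hb h1 (Ex.gcc (Ex.cc () (Ex.fn (some false))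
    (Ex.add (Ex.fn none) (Ex.mul (Ex.cst (-1)) (Ex.fn (some false))))) (Ex.fn (some true)) : Ex (Option Bool) Unit)
  have h3 := Ex.sz_gcc hb (Ex.cc () (Ex.fn (some false))
    (Ex.add (Ex.fn none) (Ex.mul (Ex.cst (-1)) (Ex.fn (some false)))) : Ex (Option Bool) Unit) (Ex.fn (some true))
  have h4 := Ex.sz_cc hb () (Ex.fn (some false) : Ex (Option Bool) Unit)
    (Ex.add (Ex.fn none) (Ex.mul (Ex.cst (-1)) (Ex.fn (some false))))
  have h5 := Ex.sz_add bb (Ex.fn none : Ex (Option Bool) Unit) (Ex.mul (Ex.cst (-1)) (Ex.fn (some false)))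
  have h6 := Ex.sz_cst_mul hb (r := -1) (by norm_num) (Ex.fn (some false) : Ex (Option Bool) Unit)
  have f1 := Ex.sz_fn bb (some false) (β := Unit)
  have f2 := Ex.sz_fn bb none (β := Unit)
  have f3 := Ex.sz_fn bb (some true) (β := Unit)
  rw [f1] at h6 h4
  rw [f2] at h5
  rw [f3] at h3
  have p1 := hb (some false)
  have p2 := hb none
  have p3 := hb (some true)
  have h7 : Ex.sz bb (Ex.add (Ex.fn none) (Ex.mul (Ex.cst (-1)) (Ex.fn (some false))) : Ex (Option Bool) Unit) ≤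
      2 * (bb none + bb (some false)) := by linarith
  have h8 : Ex.sz bb (Ex.cc () (Ex.fn (some false)) (Ex.add (Ex.fn none) (Ex.mul (Ex.cst (-1)) (Ex.fn (some false)))) :
      Ex (Option Bool) Unit) ≤ 24 * (bb (some false) * (bb none + bb (some false))) := by
    refine h4.trans ?_
    have := mul_le_mul_of_nonneg_left h7 (by positivity : 0 ≤ 2 * bb (some false))
    linarith
  show Ex.sz bb (e3 a) ≤ _
  refine h2.trans (h3.trans ?_)
  have h9 := mul_le_mul_of_nonneg_right h8 (by positivity : 0 ≤ 2 * bb (some true))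
  have : 0 ≤ bb (some false) * (bb none + bb (some false)) * bb (some true) := by positivity
  linarith

end abs

variable {μ : Measure ℝ} {s : ℝ} {N : ℕ}

/-! ### The model -/

/-- The given functions. -/
def h3 (μ : Measure ℝ) (s : ℝ) (δ B : ℝ) (b0 b j : ℕ) (θ : ℝ) (f : Fam N) (y : ℕ) (ω : Env × Finset ℕ) : Option Bool → Px (Pn N y) → ℝ
  | none => gg μ s (Pn N y) δ B b0 ω j
  | some false => gg μ s (Pn N y) δ B b ω j
  | some true => fun S => f y ω S - 2 * θ * y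

/-- The bounds. -/
def b3 (B D' : ℝ) : Option Bool → ℝ
  | none => B / 2
  | some false => B / 2
  | some true => D'

theorem cov_h3 {b0 b j : ℕ} (hb0 : b0 ≤ b) (δ : ℝ) {B : ℝ} (hB : 0 ≤ B) {θ D' : ℝ} {f : Fam N}
    (H : Cov1 N b0 j (fun y ω S => f y ω S - 2 * θ * y) D') : Cov N b0 j (h3 μ s δ B b0 b j θ f) (b3 B D') :=
  cov_of fun i => by
    match i with
    | none => exact cov_gj' le_rfl δ hB
    | some false => exact cov_gj' hb0 δ hB
    | some true => exact H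

section defs

variable (μ : Measure ℝ) (s : ℝ) (N : ℕ)

/-- The kernel of the row `j` at the actual measure. -/
def k2b (Q : Finset (Finset ℕ)) (δ B : ℝ) (b0 b σ : ℕ) (ω : Env × Finset ℕ) (j : ℕ) : Px Q → ℝ :=
  cC (wm μ s N Q ω) (pS σ j) (gg μ s Q δ B b ω j) (gg μ s Q δ B b0 ω j - gg μ s Q δ B b ω j)

/-- **The functional of the double tie** of the block `[c, d)`. -/
def D2b (Q : Finset (Finset ℕ)) (δ B : ℝ) (b0 b σ : ℕ) (R : Finset ℕ) (c d : ℕ) (ω : Env × Finset ℕ) (S : Px Q) : ℝ :=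
  ∑ j ∈ Rw R c d, sr ω.2 j / 3 * k2b μ s N Q δ B b0 b σ ω j S

/-- The row at the actual measure. -/
def fH (δ B : ℝ) (b0 b σ : ℕ) (f : Fam N) (y j : ℕ) : ℝ :=
  ∫ ω, sr ω.2 j / 3 * gc (wm μ s N (Pn N y) ω) (k2b μ s N (Pn N y) δ B b0 b σ ω j) (f y ω) ∂(Pm μ N)

end defs

theorem ob_e3 (δ B : ℝ) (b0 b σ j : ℕ) (θ : ℝ) (f : Fam N) {y : ℕ} (hy : y ≤ N) (ω : Env × Finset ℕ) :
    ob μ s N j (fun _ : Unit => j / σ * σ) (fun _ => (j / σ + 1) * σ) (h3 μ s δ B b0 b j θ f) e3 y ω =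
      sr ω.2 j / 3 * gc (wm μ s N (Pn N y) ω) (k2b μ s N (Pn N y) δ B b0 b σ ω j) (f y ω) := by
  have n1 : Nonempty (Px (Pn N y)) := ne_Pn hy
  unfold ob
  rw [ev_e3]
  show (sg ω.2 j : ℝ) / 3 * _ = _
  congr 1
  exact gc_sub_const _ _ (f y ω) (2 * θ * y)

theorem obf_e3 (δ B : ℝ) (b0 b σ j : ℕ) (θ : ℝ) (f : Fam N) {y : ℕ} (hy : y ≤ N) (ω : Env × Finset ℕ) :
    obf μ s N δ B b0 j (fun _ : Unit => j / σ * σ) (fun _ => (j / σ + 1) * σ) (h3 μ s δ B b0 b j θ f) e3 y ω =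
      -(sg ω.2 j : ℝ) / 3 * gc (wj μ s N (Pn N y) δ B b0 j ω (-(sg ω.2 j : ℝ))) (cC (wj μ s N (Pn N y) δ B b0 j ω (-(sg ω.2 j : ℝ)))
        (pS σ j) (gg μ s (Pn N y) δ B b ω j) (gg μ s (Pn N y) δ B b0 ω j - gg μ s (Pn N y) δ B b ω j)) (f y ω) := by
  have n1 : Nonempty (Px (Pn N y)) := ne_Pn hy
  unfold obf
  rw [ev_e3]
  have e : (((-sg ω.2 j : ℤ)) : ℝ) = -(sg ω.2 j : ℝ) := by push_cast; rfl
  rw [e]
  congr 1
  exact gc_sub_const _ _ (f y ω) (2 * θ * y)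

theorem abs_k2b {Q : Finset (Finset ℕ)} [Nonempty (Px Q)] {δ B : ℝ} (hB : 0 ≤ B) (b0 b σ j : ℕ) (w : Px Q → ℝ) (ω : Env × Finset ℕ)
    (S : Px Q) : |cC w (pS σ j) (gg μ s Q δ B b ω j) (gg μ s Q δ B b0 ω j - gg μ s Q δ B b ω j) S| ≤ B ^ 2 := by
  have h1 : ∀ S, |(gg μ s Q δ B b0 ω j - gg μ s Q δ B b ω j) S| ≤ B := fun S => by
    rw [Pi.sub_apply]
    have k1 := abs_gg (μ := μ) (s := s) (Q := Q) (δ := δ) hB b0 ω j S
    have k2 := abs_gg (μ := μ) (s := s) (Q := Q) (δ := δ) hB b ω j S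
    exact (abs_sub _ _).trans (by linarith)
  refine (Pool.W7d29a1.C0.abs_cC_le_X w (pS σ j) (abs_gg (μ := μ) (s := s) (Q := Q) (δ := δ) hB b ω j) h1 S).trans (le_of_eq ?_)
  ring

theorem meas_k2b {Q : Finset (Finset ℕ)} (δ B : ℝ) (b0 b σ j : ℕ) (S : Px Q) :
    Measurable fun ω => k2b μ s N Q δ B b0 b σ ω j S :=
  meas_cC meas_wm (meas_gg δ B b j) (fun S => (meas_gg δ B b0 j S).sub (meas_gg δ B b j S)) _ S

theorem meas_D2b {Q : Finset (Finset ℕ)} (δ B : ℝ) (b0 b σ : ℕ) (R : Finset ℕ) (c d : ℕ) (S : Px Q) :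
    Measurable fun ω => D2b μ s N Q δ B b0 b σ R c d ω S :=
  Finset.measurable_fun_sum _ fun j _ => ((meas_sr j).div_const 3).mul (meas_k2b δ B b0 b σ j S)

theorem abs_D2b {Q : Finset (Finset ℕ)} [Nonempty (Px Q)] {δ B : ℝ} (hB : 0 ≤ B) (b0 b σ : ℕ) (R : Finset ℕ) (c d : ℕ)
    (ω : Env × Finset ℕ) (S : Px Q) : |D2b μ s N Q δ B b0 b σ R c d ω S| ≤ (Rw R c d).card * B ^ 2 := by
  unfold D2b
  refine (abs_sum_le_sum_abs _ _).trans ?_
  rw [← nsmul_eq_mul]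
  refine sum_le_card_nsmul _ _ _ fun j _ => ?_
  have h1 := abs_k2b (μ := μ) (s := s) (δ := δ) hB b0 b σ j (wm μ s N Q ω) ω S
  have h3 : |(3 : ℝ)| = 3 := by norm_num
  rw [abs_mul, abs_div, abs_sr, h3]
  have h2 := abs_nonneg (k2b μ s N Q δ B b0 b σ ω j S)
  have h4 : |k2b μ s N Q δ B b0 b σ ω j S| ≤ B ^ 2 := h1
  linarith

/-- **BOTH CORNERS ARE THE ACTUAL MEASURE**, one row. -/
theorem row_flip44 [IsProbabilityMeasure μ] {b0 b σ : ℕ} (hb0 : 0 < b0) (d1 : b0 ≤ b) {j c d : ℕ}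
    (hw1 : j / σ * σ ≤ j - b0) (hw2 : j + b0 ≤ (j / σ + 1) * σ) (hwN : j + b0 ≤ N)
    {δ B : ℝ} (hB : 0 ≤ B) {θ D D' ε : ℝ} {f : Fam N} (hf : Cls59 N c d D f)
    (H : Cov1 N b0 j (fun y ω S => f y ω S - 2 * θ * y) D') {y₀ m : ℕ} (hy : 1 ≤ y₀) (hm : 1 ≤ m) (hyN : y₀ + m ≤ N)
    (hE : FErr μ s N δ B b0 j y₀ m ε) :
    |avy (Ico y₀ (y₀ + m)) (fun y => fE2g μ s N δ B b0 b σ f y j) - avy (Ico y₀ (y₀ + m)) (fun y => fH μ s N δ B b0 b σ f y j)| ≤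
      B ^ 2 * |D| / m + 216 * (B ^ 2 * D') * ε := by
  have hC := cov_h3 (μ := μ) (s := s) (f := f) d1 δ hB H
  have hbf : ∀ i, 0 ≤ b3 B D' i := hC.pos
  have hyle : ∀ y ∈ Ico y₀ (y₀ + m), y ≤ N := fun y h => by
    have := mem_Ico.1 h
    omega
  have hD'0 : 0 ≤ D' := H.pos
  have hL : ∀ a : ℤ, a = 1 ∨ a = -1 → Ex.li (b3 B D') (e3 a) + 2 * Ex.bd (b3 B D') (e3 a) ≤ 144 * (B ^ 2 * D') := by
    intro a ha
    refine (sz_e3 hbf ha).trans (le_of_eq ?_)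
    show 288 * (B / 2 * (B / 2 + B / 2) * D') = _
    ring
  have hM : ∀ y ω, |ob μ s N j (fun _ : Unit => j / σ * σ) (fun _ => (j / σ + 1) * σ) (h3 μ s δ B b0 b j θ f) e3 y ω| ≤
      B ^ 2 * |D| := by
    intro y ω
    by_cases hyy : y ≤ N
    · have n1 : Nonempty (Px (Pn N y)) := ne_Pn hyy
      rw [ob_e3 δ B b0 b σ j θ f hyy ω, abs_mul, abs_div, abs_sr]
      have h3 : |(3 : ℝ)| = 3 := by norm_num
      rw [h3]
      have h1 := abs_gc_le_mul (wm μ s N (Pn N y) ω) (abs_k2b (μ := μ) (s := s) (δ := δ) hB b0 b σ j (wm μ s N (Pn N y) ω) ω)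
        (fun S => (hf.bdd y ω S).trans (le_abs_self D))
      have h2 : |gc (wm μ s N (Pn N y) ω) (k2b μ s N (Pn N y) δ B b0 b σ ω j) (f y ω)| ≤ B ^ 2 * |D| := h1
      have h4 := abs_nonneg (gc (wm μ s N (Pn N y) ω) (k2b μ s N (Pn N y) δ B b0 b σ ω j) (f y ω))
      linarith
    · unfold ob
      rw [gm_zero_empty hyy, abs_zero]
      positivity
  have h := fl_even (μ := μ) (s := s) hb0 hwN hC (fun _ : Unit => j / σ * σ) (fun _ => (j / σ + 1) * σ) (fun _ => hw1) (fun _ => hw2)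
    e3 (δ := δ) (B := B) hL hM hy hm hyN hE
  have e1 : avy (Ico y₀ (y₀ + m)) (fun y => fE2g μ s N δ B b0 b σ f y j) - avy (Ico y₀ (y₀ + m)) (fun y => fH μ s N δ B b0 b σ f y j) =
      -(1 / 2) * ((m : ℝ)⁻¹ * ∑ y ∈ Ico y₀ (y₀ + m),
      ∫ ω, (ob μ s N j (fun _ : Unit => j / σ * σ) (fun _ => (j / σ + 1) * σ) (h3 μ s δ B b0 b j θ f) e3 y ω -
        obf μ s N δ B b0 j (fun _ : Unit => j / σ * σ) (fun _ => (j / σ + 1) * σ) (h3 μ s δ B b0 b j θ f) e3 y ω) ∂(Pm μ N)) := by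
    rw [avy_sub, avy_Ico, mul_left_comm, mul_sum (s := Ico y₀ (y₀ + m)) (a := -(1 / 2 : ℝ))]
    congr 1
    refine sum_congr rfl fun y hy' => ?_
    have hyy := hyle y hy'
    have n1 : Nonempty (Px (Pn N y)) := ne_Pn hyy
    have m1 : Measurable fun ω => ob μ s N j (fun _ : Unit => j / σ * σ) (fun _ => (j / σ + 1) * σ) (h3 μ s δ B b0 b j θ f) e3 y ω :=
      meas_ob j _ _ hC.mes e3 y
    have m2 : Measurable fun ω => obf μ s N δ B b0 j (fun _ : Unit => j / σ * σ) (fun _ => (j / σ + 1) * σ)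
        (h3 μ s δ B b0 b j θ f) e3 y ω := meas_obf δ B b0 j _ _ hC.mes e3 y
    have b1 : ∀ ω, |ob μ s N j (fun _ : Unit => j / σ * σ) (fun _ => (j / σ + 1) * σ) (h3 μ s δ B b0 b j θ f) e3 y ω| ≤
        Ex.bd (b3 B D') (e3 1) + Ex.bd (b3 B D') (e3 (-1)) := fun ω => by
      have h1 := ob_bdd (μ := μ) (s := s) j (fun _ : Unit => j / σ * σ) (fun _ => (j / σ + 1) * σ) hbf hC.bdd e3 y ω
      have h2 := Ex.bd_nonneg hbf (e3 1)
      have h3 := Ex.bd_nonneg hbf (e3 (-1))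
      rcases sg_or ω.2 j with h4 | h4 <;> rw [h4] at h1 <;> linarith
    have b2 : ∀ ω, |obf μ s N δ B b0 j (fun _ : Unit => j / σ * σ) (fun _ => (j / σ + 1) * σ) (h3 μ s δ B b0 b j θ f) e3 y ω| ≤
        Ex.bd (b3 B D') (e3 1) + Ex.bd (b3 B D') (e3 (-1)) := fun ω => by
      have h1 := obf_bdd (μ := μ) (s := s) δ B b0 j (fun _ : Unit => j / σ * σ) (fun _ => (j / σ + 1) * σ) hbf hC.bdd e3 y ω
      have h2 := Ex.bd_nonneg hbf (e3 1)
      have h3 := Ex.bd_nonneg hbf (e3 (-1))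
      rcases sg_or ω.2 j with h4 | h4 <;> rw [h4] at h1
      · linarith
      · rw [neg_neg] at h1
        linarith
    have j1 := int_bdd (μ := μ) (N := N) m1 b1
    have j2 := int_bdd (μ := μ) (N := N) m2 b2
    have eH : fH μ s N δ B b0 b σ f y j =
        ∫ ω, ob μ s N j (fun _ : Unit => j / σ * σ) (fun _ => (j / σ + 1) * σ) (h3 μ s δ B b0 b j θ f) e3 y ω ∂(Pm μ N) := by
      unfold fH
      exact integral_congr_ae (Filter.Eventually.of_forall fun ω => (ob_e3 δ B b0 b σ j θ f hyy ω).symm)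
    have mg0 := mG (μ := μ) (s := s) (Q := Pn N y) δ B b0 j
    have mg := mG (μ := μ) (s := s) (Q := Pn N y) δ B b j
    have mw : ∀ t : ℝ, Measurable fun ω => wj μ s N (Pn N y) δ B b0 j ω t := fun t => by
      simp only [wj_line]
      exact Pool.W7d29a1.C0.meas_line mg0 (mW δ B b0 j) t
    have mΦ : ∀ a : ℝ, Measurable fun ω => gc (wj μ s N (Pn N y) δ B b0 j ω a) (cC (wj μ s N (Pn N y) δ B b0 j ω a) (pS σ j)
        (gg μ s (Pn N y) δ B b ω j) (gg μ s (Pn N y) δ B b0 ω j - gg μ s (Pn N y) δ B b ω j)) (f y ω) := fun a =>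
      Pool.W7d29a1.C0.meas_gcX (mw a) (Pool.W7d29a1.C0.meas_cCX _ (mw a) mg (mg0.sub mg)) (mF hf y)
    have bΦ : ∀ (a : ℝ) (ω : Env × Finset ℕ), |gc (wj μ s N (Pn N y) δ B b0 j ω a) (cC (wj μ s N (Pn N y) δ B b0 j ω a) (pS σ j)
        (gg μ s (Pn N y) δ B b ω j) (gg μ s (Pn N y) δ B b0 ω j - gg μ s (Pn N y) δ B b ω j)) (f y ω)| ≤ B ^ 2 * |D| := fun a ω =>
      abs_gc_le_mul _ (abs_k2b hB b0 b σ j _ ω) (fun S => (hf.bdd y ω S).trans (le_abs_self D))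
    have iΦ := fun a : ℝ => int_bdd (μ := μ) (N := N) (mΦ a) (bΦ a)
    have eG : fE2g μ s N δ B b0 b σ f y j =
        ∫ ω, (ob μ s N j (fun _ : Unit => j / σ * σ) (fun _ => (j / σ + 1) * σ) (h3 μ s δ B b0 b j θ f) e3 y ω +
          obf μ s N δ B b0 j (fun _ : Unit => j / σ * σ) (fun _ => (j / σ + 1) * σ) (h3 μ s δ B b0 b j θ f) e3 y ω) / 2 ∂(Pm μ N) := by
      unfold fE2g Dc
      beta_reduce
      rw [← integral_sub (iΦ 1) (iΦ (-1)), ← integral_div, ← integral_const_mul]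
      refine integral_congr_ae (Filter.Eventually.of_forall fun ω => ?_)
      have e4 : wj μ s N (Pn N y) δ B b0 j ω (sg ω.2 j : ℝ) = wm μ s N (Pn N y) ω := wt_self _ _ _ _ _ _
      beta_reduce
      rw [obf_e3 δ B b0 b σ j θ f hyy ω, ob_e3 δ B b0 b σ j θ f hyy ω]
      unfold k2b
      rw [← e4]
      unfold sr
      rcases sg_or ω.2 j with h4 | h4 <;> rw [h4] <;> push_cast
      · ring
      · rw [neg_neg]
        ring
    rw [eG, eH, integral_div, integral_add j1 j2, integral_sub j1 j2]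
    ring
  rw [e1, abs_mul, abs_neg, abs_of_pos (by norm_num : (0 : ℝ) < 1 / 2)]
  refine (mul_le_mul_of_nonneg_left h (by norm_num : (0 : ℝ) ≤ 1 / 2)).trans (le_of_eq ?_)
  ring

/-! ### The sum over the rows -/

/-- The sum over the rows is one covariance. -/
theorem sum_fH44 [IsProbabilityMeasure μ] {δ B : ℝ} (hB : 0 ≤ B) (b0 b σ : ℕ) (R : Finset ℕ) {c d : ℕ} {D : ℝ} {f : Fam N}
    (hf : Cls59 N c d D f) {y : ℕ} [Nonempty (Px (Pn N y))] :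
    ∑ j ∈ Rw R c d, fH μ s N δ B b0 b σ f y j =
      ∫ ω, gc (wm μ s N (Pn N y) ω) (cE (wm μ s N (Pn N y) ω) (pJ c d) (D2b μ s N (Pn N y) δ B b0 b σ R c d ω)) (f y ω) ∂(Pm μ N) := by
  have e : ∀ ω, gc (wm μ s N (Pn N y) ω) (cE (wm μ s N (Pn N y) ω) (pJ c d) (D2b μ s N (Pn N y) δ B b0 b σ R c d ω)) (f y ω) =
      ∑ j ∈ Rw R c d, sr ω.2 j / 3 * gc (wm μ s N (Pn N y) ω) (k2b μ s N (Pn N y) δ B b0 b σ ω j) (f y ω) := by
    intro ω
    rw [gc_cE_left _ _ (hf.mp y ω)]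
    have e1 : D2b μ s N (Pn N y) δ B b0 b σ R c d ω = ∑ j ∈ Rw R c d, (sr ω.2 j / 3) • k2b μ s N (Pn N y) δ B b0 b σ ω j := by
      funext S
      rw [Finset.sum_apply]
      rfl
    rw [e1, gc_sum_left]
    exact sum_congr rfl fun j _ => gc_smul_left _ _ _ _
  simp only [e]
  rw [integral_finsetSum]
  · rfl
  · intro j _
    refine int_bdd (M := B ^ 2 * |D|) (((meas_sr j).div_const 3).mul (meas_gc meas_wm (fun S => meas_k2b δ B b0 b σ j S)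
      fun S => hf.meas y S)) fun ω => ?_
    have h3 : |(3 : ℝ)| = 3 := by norm_num
    rw [abs_mul, abs_div, abs_sr, h3]
    have h1 := abs_gc_le_mul (wm μ s N (Pn N y) ω) (abs_k2b (μ := μ) (s := s) (δ := δ) hB b0 b σ j (wm μ s N (Pn N y) ω) ω)
      (fun S => (hf.bdd y ω S).trans (le_abs_self D))
    have h2 : |gc (wm μ s N (Pn N y) ω) (k2b μ s N (Pn N y) δ B b0 b σ ω j) (f y ω)| ≤ B ^ 2 * |D| := h1
    have h4 := abs_nonneg (gc (wm μ s N (Pn N y) ω) (k2b μ s N (Pn N y) δ B b0 b σ ω j) (f y ω))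
    linarith

/-- The mean variance of `cE_J D2b`. -/
def V2b (μ : Measure ℝ) (s : ℝ) (N : ℕ) (ys : Finset ℕ) (δ B : ℝ) (b0 b σ : ℕ) (R : Finset ℕ) (c d : ℕ) : ℝ :=
  avy ys fun y => ∫ ω, gv (wm μ s N (Pn N y) ω)
    (cE (wm μ s N (Pn N y) ω) (pJ c d) (D2b μ s N (Pn N y) δ B b0 b σ R c d ω)) ∂(Pm μ N)

theorem abs_avy44 (ys : Finset ℕ) (Φ : ℕ → ℝ) : |avy ys Φ| ≤ avy ys fun y => |Φ y| := by
  unfold avy
  rw [abs_mul, abs_of_nonneg (by positivity : (0 : ℝ) ≤ (ys.card : ℝ)⁻¹)]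
  exact mul_le_mul_of_nonneg_left (abs_sum_le_sum_abs _ _) (by positivity)

/-- **The Cauchy-Schwarz inequality.** -/
theorem cs44 [IsProbabilityMeasure μ] {ys : Finset ℕ} (hys : ∀ y ∈ ys, y ≤ N) {δ B : ℝ} (hB : 0 ≤ B) (b0 b σ : ℕ) (R : Finset ℕ)
    {c d : ℕ} {D : ℝ} {f : Fam N} (hf : Cls59 N c d D f) :
    |∑ j ∈ Rw R c d, avy ys (fun y => fH μ s N δ B b0 b σ f y j)| ≤
      √(V2b μ s N ys δ B b0 b σ R c d) * √(avy ys (varF μ s N f)) := by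
  have e1 : ∑ j ∈ Rw R c d, avy ys (fun y => fH μ s N δ B b0 b σ f y j) = avy ys fun y => ∫ ω, gc (wm μ s N (Pn N y) ω)
      (cE (wm μ s N (Pn N y) ω) (pJ c d) (D2b μ s N (Pn N y) δ B b0 b σ R c d ω)) (f y ω) ∂(Pm μ N) := by
    rw [← Mod92.avy_sum]
    unfold avy
    congr 1
    refine sum_congr rfl fun y hy => ?_
    have := ne_Pn (hys y hy)
    exact sum_fH44 hB b0 b σ R hf
  rw [e1]
  refine (abs_avy44 _ _).trans ?_
  unfold V2b
  refine avy_cs (fun y hy => ?_) (fun y hy => ?_) fun y hy => ?_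
  · have := ne_Pn (hys y hy)
    exact integral_nonneg fun ω => gv_nonneg _ _
  · have := ne_Pn (hys y hy)
    exact integral_nonneg fun ω => gv_nonneg _ _
  · have := ne_Pn (hys y hy)
    have mD : ∀ S : Px (Pn N y), Measurable fun ω => cE (wm μ s N (Pn N y) ω) (pJ c d) (D2b μ s N (Pn N y) δ B b0 b σ R c d ω) S :=
      fun S => meas_cE meas_wm (fun S => meas_D2b δ B b0 b σ R c d S) _ S
    have bD : ∀ ω (S : Px (Pn N y)), |cE (wm μ s N (Pn N y) ω) (pJ c d) (D2b μ s N (Pn N y) δ B b0 b σ R c d ω) S| ≤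
        (Rw R c d).card * B ^ 2 := fun ω S => abs_cE_le _ _ (abs_D2b hB b0 b σ R c d ω) S
    have i1 : Integrable (fun ω => gv (wm μ s N (Pn N y) ω)
        (cE (wm μ s N (Pn N y) ω) (pJ c d) (D2b μ s N (Pn N y) δ B b0 b σ R c d ω))) (Pm μ N) :=
      int_bdd (meas_gv meas_wm mD) fun ω => abs_gv_le _ (bD ω)
    have i2 := int_varF (μ := μ) (s := s) hf y
    refine le_trans ?_ (int_sqrt_mul_le i1 i2 (fun ω => gv_nonneg _ _) fun ω => gv_nonneg _ _)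
    refine (abs_integral_le_integral_abs).trans (integral_mono_of_nonneg (Filter.Eventually.of_forall fun ω => abs_nonneg _) ?_
      (Filter.Eventually.of_forall fun ω => abs_gc_le _ _ _))
    refine int_bdd (M := ((Rw R c d).card * B ^ 2) * |D|)
      ((meas_gv meas_wm mD).sqrt.mul (meas_gv meas_wm fun S => hf.meas y S).sqrt) fun ω => ?_
    rw [abs_of_nonneg (mul_nonneg (Real.sqrt_nonneg _) (Real.sqrt_nonneg _))]
    have h0 : (0 : ℝ) ≤ (Rw R c d).card * B ^ 2 := by positivity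
    refine mul_le_mul ?_ ?_ (Real.sqrt_nonneg _) h0
    · exact Real.sqrt_le_iff.2 ⟨h0, gv_le_sq _ (bD ω)⟩
    · exact Real.sqrt_le_iff.2 ⟨abs_nonneg D, gv_le_sq _ fun S => (hf.bdd y ω S).trans (le_abs_self D)⟩

/-- **THE DOUBLE TIE WITH THE CLIPPED RESPONSE**, for a covariant spectator. -/
theorem PE2g_of44 [IsProbabilityMeasure μ] {b0 b σ : ℕ} (hb0 : 0 < b0) (hσ : 0 < σ) (d1 : b0 ≤ b) {R : Finset ℕ} (hb : Deep R b σ)
    {c d : ℕ} (hd : σ ∣ d) (hdN : d ≤ N) {δ B : ℝ} (hB : 0 ≤ B) {θ D D' ε : ℝ} {f : Fam N} (hf : Cls59 N c d D f)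
    (H : ∀ j ∈ Rw R c d, Cov1 N b0 j (fun y ω S => f y ω S - 2 * θ * y) D')
    {y₀ m : ℕ} (hy : 1 ≤ y₀) (hm : 1 ≤ m) (hyN : y₀ + m ≤ N) (hE : ∀ j ∈ Rw R c d, FErr μ s N δ B b0 j y₀ m ε) :
    PE2g μ s N δ B b0 b σ f (Ico y₀ (y₀ + m)) R c d (√(V2b μ s N (Ico y₀ (y₀ + m)) δ B b0 b σ R c d))
      ((Rw R c d).card * (B ^ 2 * |D| / m + 216 * (B ^ 2 * D') * ε)) := by
  have hyle : ∀ y ∈ Ico y₀ (y₀ + m), y ≤ N := fun y h => by
    have := mem_Ico.1 h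
    omega
  have hcs := cs44 (μ := μ) (s := s) hyle (δ := δ) hB b0 b σ R hf
  have hrow : ∀ j ∈ Rw R c d, |avy (Ico y₀ (y₀ + m)) (fun y => fE2g μ s N δ B b0 b σ f y j) -
      avy (Ico y₀ (y₀ + m)) (fun y => fH μ s N δ B b0 b σ f y j)| ≤ B ^ 2 * |D| / m + 216 * (B ^ 2 * D') * ε := by
    intro j hj
    have hjR := hj
    unfold Rw at hjR
    rw [mem_inter, mem_Ico] at hjR
    obtain ⟨hjR', hjc, hjd⟩ := hjR
    obtain ⟨k1, k2⟩ := hb j hjR'
    have hwd : (j / σ + 1) * σ ≤ d := by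
      obtain ⟨d', rfl⟩ := hd
      rw [mul_comm σ d'] at hjd ⊢
      exact Nat.mul_le_mul_right σ ((Nat.div_lt_iff_lt_mul hσ).2 hjd)
    exact row_flip44 hb0 d1 (by omega) (by omega) (by omega) hB hf (H j hj) hy hm hyN (hE j hj)
  unfold PE2g
  have e : ∑ j ∈ Rw R c d, avy (Ico y₀ (y₀ + m)) (fun y => fE2g μ s N δ B b0 b σ f y j) =
      ∑ j ∈ Rw R c d, avy (Ico y₀ (y₀ + m)) (fun y => fH μ s N δ B b0 b σ f y j) +
        ∑ j ∈ Rw R c d, (avy (Ico y₀ (y₀ + m)) (fun y => fE2g μ s N δ B b0 b σ f y j) -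
          avy (Ico y₀ (y₀ + m)) (fun y => fH μ s N δ B b0 b σ f y j)) := by
    rw [← sum_add_distrib]
    exact sum_congr rfl fun j _ => by ring
  rw [e]
  refine (abs_add_le _ _).trans (add_le_add hcs ((abs_sum_le_sum_abs _ _).trans ?_))
  rw [← nsmul_eq_mul]
  exact sum_le_card_nsmul _ _ _ hrow

end

end Pool.Agent.W_7d29a1_C0.CrA44
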