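import Pool.Agent.W_7d29a1_C0.Lft33
import Pool.Agent.W_7d29a1_C0.AsmV33
import Pool.Agent.W_7d29a1_C0.ClipF33

/-!
MP_7d29a1_pr, [CURV0] (helper33): WHAT IS LEFT AT THE CONCRETE FRAME, covariant spectators, the clipping discharged: `dlvV33 : DlvV33` from
`CrLv33` (cross terms `CrNv`), `SigL33`, `BasL33`.
-/

set_option autoImplicit false

namespace Pool.Agent.W_7d29a1_C0.Frm33

open Finset MeasureTheory Filter Topology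
open Pool.Agent.W_7d29a1_H (EE EE_pos)
open Pool.Agent.W_7d29a1_HS (In)
open Pool.Agent.W_7d29a1_LB (LB20)
open Pool.Agent.W_7d29a1_C0 Pool.Agent.W_7d29a1_C0.Mod92 Pool.Agent.W_7d29a1_C0.Asm96
open Pool.Agent.W_7d29a1_C0.Par92 (Sml Est)

noncomputable section

variable (μ : Measure ℝ) (s : ℝ) (K : ℕ) (Θ : ℝ)

/-- **The cross terms** with covariant spectators. -/
def CrLv33 : Prop := Sml fun δ => Sml fun c => ∃ c₁ : ℝ, 0 < c₁ ∧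
  Est fun ι β γ m => CrNv μ s (frm33 μ s K ι β γ) (EE μ s) Θ δ c c₁ m

variable {μ s K Θ}

theorem L33_cube {K : ℕ} (hK : 3 ≤ K) (m : ℕ) : ((2 ^ m : ℕ) : ℝ) ^ 3 ≤ ((L33 K m : ℕ) : ℝ) := by
  unfold L33
  push_cast
  rw [← pow_mul]
  exact pow_le_pow_right₀ one_le_two (by rw [mul_comm]; exact Nat.mul_le_mul_right m hK)

/-- The cross terms of the two kinds of spectators. -/
theorem cr33 [IsProbabilityMeasure μ] {c₂ C : ℝ} {n₀ : ℕ} (h : In μ s c₂ C n₀) (hk : KapLe96 (EE μ s) (1 / 4)) (hK : 6 ≤ K)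
    (hΘ : 0 < Θ) (hΘ1 : Θ ≤ 1) {δ c c₁ : ℝ} (hδ : 0 < δ) (hc : 0 ≤ c) (hcδ : c ≤ δ / 64)
    (H : Est fun ι β γ m => CrNv μ s (frm33 μ s K ι β γ) (EE μ s) Θ δ c c₁ m) :
    (Est fun ι β γ m => CrFN μ s (frm33 μ s K ι β γ) (EE μ s) Θ δ c c₁ m) ∧
      Est fun ι β γ m => CrSN μ s (frm33 μ s K ι β γ) (EE μ s) Θ δ c c₁ m := by
  have h0 := (H.and (ok33 (μ := μ) (s := s) hK hΘ)).and (deep33 (K := K) h hk hδ hc hcδ)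
  have hb0 : ∀ (ι β γ : ℝ) (m p : ℕ), 0 < (frm33 μ s K ι β γ).b0 m p ∧ (frm33 μ s K ι β γ).b0 m p ≤ 2 ^ p := fun ι β γ m p =>
    ⟨Nat.two_pow_pos _, Nat.pow_le_pow_right two_pos (Nat.sub_le _ _)⟩
  constructor
  · refine h0.mono fun ι β γ _ _ _ => Eventually.of_forall fun m h1 => ?_
    exact crfn_of h1.1.2 hΘ1 (L33_cube (by omega) m) (hb0 ι β γ m) h1.2 h1.1.1
  · refine h0.mono fun ι β γ _ _ _ => Eventually.of_forall fun m h1 => ?_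
    exact crsn_of h1.1.2 (fun p => (hb0 ι β γ m p).2) h1.2 h1.1.1

/-- **WHAT IS LEFT AT THE CONCRETE FRAME.** -/
theorem dlvV33 [IsProbabilityMeasure μ] (hLB : LB20 μ s) {c₂ C : ℝ} {n₀ : ℕ} (h : In μ s c₂ C n₀) (hk : KapLe96 (EE μ s) (1 / 4))
    (hK : 32 ≤ K) (hΘ : 0 < Θ) (hΘ1 : Θ ≤ 1) {δ c c₁ : ℝ} (hδ : 0 < δ) (hc : 0 ≤ c) (hcδ : c ≤ δ / 64) (hc₁ : 0 < c₁)
    (hCr : Est fun ι β γ m => CrNv μ s (frm33 μ s K ι β γ) (EE μ s) Θ δ c c₁ m)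
    (hCh : ∀ η : ℝ, 0 < η → η ≤ c / 64 → ∃ c₂ : ℝ, 0 < c₂ ∧
      (Est fun ι β γ m => SigN μ s (frm33 μ s K ι β γ) (EE μ s) Θ δ c η c₂ m) ∧
        Est fun ι β γ m => BasN μ s (frm33 μ s K ι β γ) (EE μ s) Θ δ c η c₂ m) :
    DlvV33 μ s (frm33 μ s K) (EE μ s) Θ δ c c₁ := by
  have hcl := clipP33 h
  obtain ⟨h1, h2⟩ := cr33 h hk (by omega) hΘ hΘ1 hδ hc hcδ hCr
  exact ⟨ok33 (by omega) hΘ, deep33 h hk hδ hc hcδ, h1, fln33 h hk hcl hK hδ hc hcδ, hCh,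
    topN_estV33 (fun n => EE_pos n) hc₁ (ok33 (by omega) hΘ) h2 rows33 (fls33 h hk hcl hK hδ hc hcδ) fun _ ha => dens33 hLB h hK ha⟩

/-- **What the assembly asks for.** -/
theorem dlvV_of33 [IsProbabilityMeasure μ] (hLB : LB20 μ s) {c₂ C : ℝ} {n₀ : ℕ} (h : In μ s c₂ C n₀) (hk : KapLe96 (EE μ s) (1 / 4))
    (hK : 32 ≤ K) (hΘ : 0 < Θ) (hΘ1 : Θ ≤ 1) (hCr : CrLv33 μ s K Θ) (hS : SigL33 μ s K Θ) (hB : BasL33 μ s K Θ) :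
    ∃ δ c : ℝ, 0 < δ ∧ δ ≤ Θ / 8 ∧ 0 < c ∧ c ≤ δ / 64 ∧ ∃ (F : ℝ → ℝ → ℝ → Frm96) (c₁ : ℝ), 0 < c₁ ∧
      DlvV33 μ s F (EE μ s) Θ δ c c₁ := by
  obtain ⟨δ, hδ, hδΘ, ⟨h1, h2⟩, h3⟩ := ((Sml.and hCr hS).and hB).exists_le (show 0 < Θ / 8 by positivity)
  obtain ⟨c, hc, hcδ, ⟨⟨c₁, hc₁, h4⟩, h5⟩, h6⟩ := ((h1.and h2).and h3).exists_le (show 0 < δ / 64 by positivity)
  refine ⟨δ, c, hδ, hδΘ, hc, hcδ, frm33 μ s K, c₁, hc₁, dlvV33 hLB h hk hK hΘ hΘ1 hδ hc.le hcδ hc₁ h4 fun η hη hηc => ?_⟩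
  obtain ⟨d₁, hd₁, h7⟩ := h5 η hη hηc
  obtain ⟨d₂, hd₂, h8⟩ := h6 η hη hηc
  exact ⟨min d₁ d₂, lt_min hd₁ hd₂, h7.mono fun _ _ _ _ _ _ => Eventually.of_forall fun _ h9 => sigN_mono h9 (min_le_left _ _),
    h8.mono fun _ _ _ _ _ _ => Eventually.of_forall fun _ h9 => basN_mono h9 (min_le_right _ _)⟩

end

end Pool.Agent.W_7d29a1_C0.Frm33
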