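import Pool.Agent.W_7d29a1_C0.EstD44
import Pool.Agent.W_7d29a1_C0.E2bF44
import Pool.Agent.W_7d29a1_C0.FrmV33

/-!
CURV0 (MP_7d29a1_pr, helper44): THE DOUBLE TIE (E2b) FROM ONE SECOND MOMENT. `X2N`: the second moment of the sum over the kicked rows of
`(a_j / 3) cC_B(gg b, gg b0 - gg b)` at the actual measure. `e2c44`: with the strip `StrN` of helper96, the errors of the flips and of the
clipping it gives `E2cV`; `fe44`, `e2cL44`: at the concrete frame of helper33.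
-/

set_option autoImplicit false
set_option linter.unusedSectionVars false

namespace Pool.Agent.W_7d29a1_C0.EstD44

open Finset MeasureTheory Filter Topology Pool.Agent.W_7d29a1_F Pool.Agent.W_7d29a1_X
open Pool.Agent.W_7d29a1_H (EE EE_pos)
open Pool.Agent.W_7d29a1_HS (In)
open Pool.Agent.W_7d29a1_C0.Mod92 Pool.Agent.W_7d29a1_C0 Pool.Agent.W_7d29a1_C0.Asm96 Pool.Agent.W_7d29a1_C0.CrA44
open Pool.Agent.W_7d29a1_C0.EstC46 Pool.Agent.W_7d29a1_C0.Frm33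
open Pool.Agent.W_7d29a1_C0.Swap57 Pool.Agent.W_7d29a1_C0.E4T32 Pool.Agent.W_7d29a1_C0.Row96
open Pool.Agent.W_7d29a1_C0.Flip61 (FErr Cov1)
open Pool.W7d29a1.C0 (gz gm)
open Pool.W7d29a1.C0.VT31
open Pool.Agent.W_7d29a1_C0.Par92 (Est Sml)

noncomputable section

/-! ### What the functional sees -/

section rows

variable {μ : Measure ℝ} {s : ℝ} {N : ℕ} {Q : Finset (Finset ℕ)} [SwQ Q] [Nonempty (Px Q)]

/-- One row: rows of the environment. -/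
theorem k2b_rows (δ B : ℝ) {b0 b σ : ℕ} (hb : b0 ≤ b) {η η' : Env} (A : Finset ℕ) {j : ℕ} (h1 : j / σ * σ + b ≤ j)
    (h2 : j + b ≤ j / σ * σ + σ) (h : Ag (j / σ * σ) (j / σ * σ + σ) η η') :
    k2b μ s N Q δ B b0 b σ (η, A) j = k2b μ s N Q δ B b0 b σ (η', A) j := by
  have h3 : Ag (j - b) (j + b) η η' := h.mono (by omega) h2
  have g1 : gg μ s Q δ B b0 (η, A) j = gg μ s Q δ B b0 (η', A) j := gg_rows δ B b0 A (h3.mono (by omega) (by omega))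
  have g2 : gg μ s Q δ B b (η, A) j = gg μ s Q δ B b (η', A) j := gg_rows δ B b A h3
  have e : (j / σ + 1) * σ = j / σ * σ + σ := Nat.succ_mul _ _
  unfold k2b pS
  rw [g1, g2, e]
  exact cC_rows h _ _

/-- One row: positions. -/
theorem k2b_Lk (δ B : ℝ) {b0 b σ : ℕ} (hb : b0 ≤ b) (ω : Env × Finset ℕ) {j : ℕ} (h1 : j / σ * σ + b ≤ j)
    (h2 : j + b ≤ j / σ * σ + σ) : Lk (j / σ * σ) (j / σ * σ + σ) (k2b μ s N Q δ B b0 b σ ω j) := by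
  have g1 : Lk (j / σ * σ) (j / σ * σ + σ) (gg μ s Q δ B b0 ω j) :=
    Lk_mono (al := j - b0) (be := j + b0) (by omega) (by omega) (Lk_gg δ B b0 j ω le_rfl le_rfl)
  have g2 : Lk (j / σ * σ) (j / σ * σ + σ) (gg μ s Q δ B b ω j) :=
    Lk_mono (al := j - b) (be := j + b) (by omega) (by omega) (Lk_gg δ B b j ω le_rfl le_rfl)
  have hw' : Wk (j / σ * σ) (j / σ * σ) (j / σ * σ + σ) (j / σ * σ + σ) (wm μ s N Q ω) := Wk_lw ω.1 (by omega)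
  have e : (j / σ + 1) * σ = j / σ * σ + σ := Nat.succ_mul _ _
  unfold k2b pS
  rw [e]
  exact BasRow33.Lk_cC (by omega) hw' g2 (Lk_sub g1 g2)

/-- **The functional sees the rows `al + 1, .., be` of the environment.** -/
theorem D2b_rows (δ B : ℝ) {b0 b σ : ℕ} (hb : b0 ≤ b) {R : Finset ℕ} (hD : Deep R b σ) {c d al be : ℕ}
    (hI : In96 R σ c d al be) {η η' : Env} (A : Finset ℕ) (h : Ag al be η η') :
    D2b μ s N Q δ B b0 b σ R c d (η, A) = D2b μ s N Q δ B b0 b σ R c d (η', A) := by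
  funext S
  unfold D2b
  refine sum_congr rfl fun j hj => ?_
  obtain ⟨h1, h2⟩ := hD j (mem_inter.1 hj).1
  rw [Nat.succ_mul] at h2
  rw [k2b_rows δ B hb A h1 h2 (h.mono (hI j hj).1 (hI j hj).2)]

/-- **The functional is a function of the positions in the rows `al, .., be`.** -/
theorem D2b_Lk (δ B : ℝ) {b0 b σ : ℕ} (hb : b0 ≤ b) {R : Finset ℕ} (hD : Deep R b σ) {c d al be : ℕ}
    (hI : In96 R σ c d al be) (ω : Env × Finset ℕ) : Lk al be (D2b μ s N Q δ B b0 b σ R c d ω) := by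
  intro S S' h
  unfold D2b
  refine sum_congr rfl fun j hj => ?_
  obtain ⟨h1, h2⟩ := hD j (mem_inter.1 hj).1
  rw [Nat.succ_mul] at h2
  have h3 := hI j hj
  rw [Lk_mono h3.1 h3.2 (k2b_Lk (μ := μ) (s := s) (N := N) δ B hb ω h1 h2) S S' h]

end rows

/-! ### One length -/

section defs

variable (μ : Measure ℝ) (s : ℝ) (F : Frm96) (E : ℕ → ℝ) (Θ δ c x : ℝ)

/-- **THE SECOND MOMENT OF THE DOUBLE TIE.** -/
def X2N (m : ℕ) : Prop := ∀ p q i : ℕ, St96 E δ c m p q → i < 2 ^ (m - q) →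
  S33 μ s F m q i (fun y ω j S => sr ω.2 j / 3 *
    k2b μ s (F.L m) (Pn (F.L m) y) F.dl (F.B m) (F.b0 m p) (2 ^ p) (2 ^ sg96 E c m p) ω j S) ≤
    2 ^ q * (E (2 ^ q) * ((2 ^ m : ℕ) : ℝ) ^ (Θ - x))

end defs

variable {μ : Measure ℝ} {s : ℝ} {F : Frm96} {E w : ℕ → ℝ} {Θ δ c c₀ a ε ε₁ ι x : ℝ} {m p q i : ℕ}

/-- The corrected scale fits into the margin. -/
theorem sg_le_gl44 (R : Reg46 E w c₀ Θ δ a ε ((2 ^ m : ℕ) : ℝ)) (hc : 0 < c) (hcδ : 64 * c ≤ δ) (hε : ε ≤ c / 4)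
    (hι : ι ≤ c) (hn : 16 ≤ ((2 ^ m : ℕ) : ℝ) ^ c) (hst : St96 E δ c m p q) : 2 ^ sg96 E c m p ≤ gl96 ι m q := by
  have hbs := bs46 R hc hcδ hst.hp hst.hps hst.hsq hst.hqm hst.leg hst.pin
  have hl := gap46 R hε hbs hι hn
  have hN1 : (1 : ℝ) ≤ ((2 ^ m : ℕ) : ℝ) := by exact_mod_cast Nat.one_le_two_pow
  have h1 : (1 : ℝ) * 2 ^ sg96 E c m p ≤ ((2 ^ m : ℕ) : ℝ) ^ (5 * c) * 2 ^ sg96 E c m p :=
    mul_le_mul_of_nonneg_right (Real.one_le_rpow hN1 (by positivity)) (by positivity)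
  have h2 : (2 : ℝ) ^ sg96 E c m p ≤ gl46 ι m q := by linarith
  exact_mod_cast h2

theorem B_sq44 (hF : F.Ok Θ m) (hΘ : Θ ≤ 1) : F.B m ^ 2 ≤ ((2 ^ m : ℕ) : ℝ) := by
  have hN1 : (1 : ℝ) ≤ ((2 ^ m : ℕ) : ℝ) := by exact_mod_cast Nat.one_le_two_pow
  have hN0 : (0 : ℝ) < ((2 ^ m : ℕ) : ℝ) := by linarith
  calc F.B m ^ 2 ≤ (((2 ^ m : ℕ) : ℝ) ^ (Θ / 16)) ^ 2 := pow_le_pow_left₀ (zero_le_one.trans hF.hB) hF.hB' 2
    _ = ((2 ^ m : ℕ) : ℝ) ^ (Θ / 8) := by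
        rw [← Real.rpow_natCast, ← Real.rpow_mul hN0.le]
        congr 1
        push_cast
        ring
    _ ≤ ((2 ^ m : ℕ) : ℝ) ^ (1 : ℝ) := Real.rpow_le_rpow_of_exponent_le hN1 (by linarith)
    _ = _ := Real.rpow_one _

/-- **The strip of the double tie.** -/
theorem v2b44 [IsProbabilityMeasure μ] (R : Reg46 E w c₀ Θ δ a ε ((2 ^ m : ℕ) : ℝ)) (hΘ : Θ ≤ 1) (hc : 0 < c) (hcδ : 64 * c ≤ δ)
    (hε : ε ≤ c / 4) (hι0 : 0 ≤ ι) (hι : ι ≤ c) (hn : 16 ≤ ((2 ^ m : ℕ) : ℝ) ^ c) (hF : F.Ok Θ m)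
    (hR : F.R m ⊆ Kr (2 ^ m) m (((2 ^ m : ℕ) : ℝ) ^ (-ι))) (hb0 : F.b0 m p ≤ 2 ^ p)
    (hdeep : Deep (F.R m) (2 ^ p) (2 ^ sg96 E c m p)) (hS : StrN μ s F E δ ι ε₁ m) (hst : St96 E δ c m p q)
    (hi : i < 2 ^ (m - q)) :
    V2b μ s (F.L m) (F.ys m) F.dl (F.B m) (F.b0 m p) (2 ^ p) (2 ^ sg96 E c m p) (F.R m) (i * 2 ^ q) ((i + 1) * 2 ^ q) ≤
      ((2 ^ m : ℕ) : ℝ) ^ ε₁ / E (2 ^ q) * S33 μ s F m q i (fun y ω j S => sr ω.2 j / 3 *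
        k2b μ s (F.L m) (Pn (F.L m) y) F.dl (F.B m) (F.b0 m p) (2 ^ p) (2 ^ sg96 E c m p) ω j S) + 1 := by
  have hN1 := R.N1
  have g1 := sg_le_gl44 R hc hcδ hε hι hn hst
  have hB0 : 0 ≤ F.B m := zero_le_one.trans hF.hB
  obtain ⟨al, hal⟩ : ∃ al, al = i * 2 ^ q + gl96 ι m q := ⟨_, rfl⟩
  obtain ⟨be, hbe⟩ : ∃ be, be = (i + 1) * 2 ^ q - gl96 ι m q := ⟨_, rfl⟩
  have hI : In96 (F.R m) (2 ^ sg96 E c m p) (i * 2 ^ q) ((i + 1) * 2 ^ q) al be :=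
    hal ▸ hbe ▸ in96 hR hst.hqm (by positivity) g1
  have hδq : δ * m ≤ q := hst.hp.trans (by exact_mod_cast hst.hps.trans hst.hsq)
  obtain ⟨M, hM⟩ : ∃ M : ℝ, M = ((Rw (F.R m) (i * 2 ^ q) ((i + 1) * 2 ^ q)).card : ℝ) * F.B m ^ 2 := ⟨_, rfl⟩
  have hM0 : 0 ≤ M := by
    rw [hM]
    positivity
  have hM4 : M ≤ ((2 ^ m : ℕ) : ℝ) ^ 4 := by
    rw [hM]
    calc _ ≤ ((2 ^ m : ℕ) : ℝ) * ((2 ^ m : ℕ) : ℝ) := mul_le_mul (card_Rw33 hF _ _) (B_sq44 hF hΘ) (by positivity) (by positivity)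
      _ = ((2 ^ m : ℕ) : ℝ) ^ 2 := by ring
      _ ≤ _ := pow_le_pow_right₀ hN1.le (by norm_num)
  have g4 := gl_le96 hN1.le hι0 (q := q)
  have g5 : (i + 1) * 2 ^ q = i * 2 ^ q + 2 ^ q := by ring
  exact strip96 hF hS hδq hst.hqm hi (al := al) (be := be) (by omega) (by omega) (by omega)
    (fun y ω => D2b μ s (F.L m) (Pn (F.L m) y) F.dl (F.B m) (F.b0 m p) (2 ^ p) (2 ^ sg96 E c m p) (F.R m) (i * 2 ^ q)
      ((i + 1) * 2 ^ q) ω)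
    (fun y S => meas_D2b F.dl (F.B m) (F.b0 m p) (2 ^ p) (2 ^ sg96 E c m p) (F.R m) (i * 2 ^ q) ((i + 1) * 2 ^ q) S) hM0 hM4
    (fun y hy ω S => by
      have := ne_Pn (hF.hy y hy)
      rw [hM]
      exact abs_D2b hB0 (F.b0 m p) (2 ^ p) (2 ^ sg96 E c m p) (F.R m) (i * 2 ^ q) ((i + 1) * 2 ^ q) ω S)
    (fun y hy ω => by
      have := ne_Pn (hF.hy y hy)
      exact D2b_Lk F.dl (F.B m) hb0 hdeep hI ω)
    (fun y hy η η' A h => by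
      have := ne_Pn (hF.hy y hy)
      exact D2b_rows F.dl (F.B m) hb0 hdeep hI A h)

/-- The numbers of the factor. -/
theorem root44 {n e r S V : ℝ} (hn : 1 < n) (he : 0 < e) (hr : 1 ≤ r) (hS : S ≤ r * (e * n ^ (Θ - x))) (hε₁ : ε₁ ≤ x / 4)
    (hx : 0 < x) (hxΘ : x ≤ Θ) (h2 : 2 ≤ n ^ (x / 4)) (hV : V ≤ n ^ ε₁ / e * S + 1) :
    √V ≤ n ^ (-(x / 4)) * √(r * n ^ Θ) := by
  have hn0 : 0 < n := by linarith
  have h0 : 0 ≤ n ^ ε₁ / e := by positivity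
  have h1 : V ≤ r * n ^ (Θ - x + ε₁) + 1 := by
    refine hV.trans (add_le_add ?_ le_rfl)
    refine (mul_le_mul_of_nonneg_left hS h0).trans (le_of_eq ?_)
    rw [Real.rpow_add hn0]
    field_simp
  have h3 : n ^ (Θ - x + ε₁) ≤ n ^ (Θ - 3 / 4 * x) := Real.rpow_le_rpow_of_exponent_le hn.le (by linarith)
  have h4 : 1 ≤ r * n ^ (Θ - 3 / 4 * x) := one_le_mul_of_one_le_of_one_le hr (Real.one_le_rpow hn.le (by linarith))
  have h5 : V ≤ 2 * (r * n ^ (Θ - 3 / 4 * x)) := by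
    have := mul_le_mul_of_nonneg_left h3 (by linarith : 0 ≤ r)
    linarith
  have h6 : 2 * (r * n ^ (Θ - 3 / 4 * x)) ≤ n ^ (x / 4) * (r * n ^ (Θ - 3 / 4 * x)) :=
    mul_le_mul_of_nonneg_right h2 (by linarith)
  have h7 : n ^ (x / 4) * (r * n ^ (Θ - 3 / 4 * x)) = (n ^ (-(x / 4))) ^ 2 * (r * n ^ Θ) := by
    have e1 : (n ^ (-(x / 4))) ^ 2 = n ^ (-(x / 2)) := by
      rw [← Real.rpow_natCast, ← Real.rpow_mul hn0.le]
      congr 1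
      push_cast
      ring
    have e2 : n ^ (x / 4) * n ^ (Θ - 3 / 4 * x) = n ^ (-(x / 2)) * n ^ Θ := by
      rw [← Real.rpow_add hn0, ← Real.rpow_add hn0]
      congr 1
      ring
    rw [e1]
    calc n ^ (x / 4) * (r * n ^ (Θ - 3 / 4 * x)) = r * (n ^ (x / 4) * n ^ (Θ - 3 / 4 * x)) := by ring
      _ = r * (n ^ (-(x / 2)) * n ^ Θ) := by rw [e2]
      _ = _ := by ring
  have h8 : V ≤ (n ^ (-(x / 4))) ^ 2 * (r * n ^ Θ) := by linarith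
  refine (Real.sqrt_le_sqrt h8).trans (le_of_eq ?_)
  rw [Real.sqrt_mul (by positivity), Real.sqrt_sq (by positivity)]

/-- The numbers of the errors. -/
theorem err44 {n k D B L z M : ℝ} (hn : 64 ≤ n) (hk : k ≤ n) (hD : |D| ≤ n ^ 3) (hB2 : B ^ 2 ≤ n)
    (hM : M = n ^ 6) (hL : 1 ≤ L) (hz0 : 0 ≤ z) (hz : L ^ 2 * z ≤ (n ^ 4)⁻¹) :
    k * (B ^ 2 * |D| / M + 216 * (B ^ 2 * L) * z) ≤ 3 / 32 := by
  have hn0 : 0 < n := by linarith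
  have e1 : B ^ 2 * |D| / M ≤ (n ^ 2)⁻¹ := by
    rw [hM, div_le_iff₀ (by positivity)]
    calc B ^ 2 * |D| ≤ n * n ^ 3 := mul_le_mul hB2 hD (abs_nonneg _) hn0.le
      _ = (n ^ 2)⁻¹ * n ^ 6 := by field_simp
  have e2 : L * z ≤ (n ^ 4)⁻¹ := by
    refine le_trans ?_ hz
    have : L ≤ L ^ 2 := by nlinarith
    exact mul_le_mul_of_nonneg_right this hz0
  have e3 : 216 * (B ^ 2 * L) * z ≤ 216 * (n ^ 3)⁻¹ := by
    calc 216 * (B ^ 2 * L) * z = 216 * (B ^ 2 * (L * z)) := by ring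
      _ ≤ 216 * (n * (n ^ 4)⁻¹) := by
          refine mul_le_mul_of_nonneg_left (mul_le_mul hB2 e2 (by positivity) hn0.le) (by norm_num)
      _ = 216 * (n ^ 3)⁻¹ := by field_simp
  have e0 : 0 ≤ B ^ 2 * |D| / M + 216 * (B ^ 2 * L) * z := by
    rw [hM]
    positivity
  calc k * (B ^ 2 * |D| / M + 216 * (B ^ 2 * L) * z) ≤ n * ((n ^ 2)⁻¹ + 216 * (n ^ 3)⁻¹) :=
        mul_le_mul hk (by linarith) e0 hn0.le
    _ = 1 / n + 216 / n ^ 2 := by field_simp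
    _ ≤ 3 / 32 := by
        have h1 : 1 / n ≤ 1 / 64 := one_div_le_one_div_of_le (by norm_num) hn
        have h2 : 216 / n ^ 2 ≤ 216 / 64 ^ 2 := by
          refine div_le_div_of_nonneg_left (by norm_num) (by norm_num) (pow_le_pow_left₀ (by norm_num) hn 2)
        norm_num at h1 h2 ⊢
        linarith

/-- **THE DOUBLE TIE AT ONE LENGTH**, from the second moment `X2N`, the strip, the flips and the clipping. -/
theorem e2c44 [IsProbabilityMeasure μ] (R : Reg46 E w c₀ Θ δ a ε ((2 ^ m : ℕ) : ℝ)) (hΘ : Θ ≤ 1) (hc : 0 < c) (hcδ : 64 * c ≤ δ)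
    (hε : ε ≤ c / 4) (hι0 : 0 ≤ ι) (hι : ι ≤ c) (hn : 16 ≤ ((2 ^ m : ℕ) : ℝ) ^ c) (hn64 : 64 ≤ ((2 ^ m : ℕ) : ℝ)) (hF : F.Ok Θ m)
    (hR : F.R m ⊆ Kr (2 ^ m) m (((2 ^ m : ℕ) : ℝ) ^ (-ι))) (hb0 : ∀ p, 0 < F.b0 m p ∧ F.b0 m p ≤ 2 ^ p)
    (hdeep : ∀ p q : ℕ, St96 E δ c m p q → Deep (F.R m) (2 ^ p) (2 ^ sg96 E c m p)) (hS : StrN μ s F E δ ι ε₁ m)
    {y₀ M : ℕ} (hys : F.ys m = Ico y₀ (y₀ + M)) (hy : 1 ≤ y₀) (hM : (M : ℝ) = ((2 ^ m : ℕ) : ℝ) ^ 6) (hyN : y₀ + M ≤ F.L m)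
    {z : ℝ} (hz0 : 0 ≤ z) (hz : (F.L m : ℝ) ^ 2 * z ≤ (((2 ^ m : ℕ) : ℝ) ^ 4)⁻¹)
    (hE : ∀ p q i : ℕ, St96 E δ c m p q → i < 2 ^ (m - q) → ∀ j ∈ Rw (F.R m) (i * 2 ^ q) ((i + 1) * 2 ^ q),
      FErr μ s (F.L m) F.dl (F.B m) (F.b0 m p) j y₀ M z)
    (hx : 0 < x) (hxΘ : x ≤ Θ) (hε₁ : ε₁ ≤ x / 4) (h2 : 2 ≤ ((2 ^ m : ℕ) : ℝ) ^ (x / 4)) (hX : X2N μ s F E Θ δ c x m)
    (hC : CmN μ s F E δ c m) : E2cV μ s F E Θ δ c (x / 4) m := by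
  intro p q i hst hi D f hD hf hv
  obtain ⟨θ, -, hcov⟩ := hv
  have hN1 := R.N1
  have hB : 0 ≤ F.B m := zero_le_one.trans hF.hB
  have hdp := hdeep p q hst
  have hL1 : (1 : ℝ) ≤ (F.L m : ℝ) := by
    have h1 : 2 ^ m ≤ F.L m := hF.hL
    have h3 : 1 ≤ F.L m := Nat.one_le_two_pow.trans h1
    exact_mod_cast h3
  obtain ⟨D₀, hD₀, hf0⟩ : ∃ D₀ : ℝ, |D₀| ≤ ((2 ^ m : ℕ) : ℝ) ^ 3 ∧ Cls59 (F.L m) (i * 2 ^ q) ((i + 1) * 2 ^ q) D₀ f := by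
    refine ⟨max D 0, ?_, ⟨hf.meas, fun y ω S => (hf.bdd y ω S).trans (le_max_left _ _), hf.side, hf.env, hf.sgn⟩⟩
    rw [abs_of_nonneg (le_max_right _ _)]
    exact max_le hD (by positivity)
  have hdn : (i + 1) * 2 ^ q ≤ 2 ^ m := by
    calc (i + 1) * 2 ^ q ≤ 2 ^ (m - q) * 2 ^ q := Nat.mul_le_mul_right _ hi
      _ = 2 ^ m := by
          rw [← pow_add]
          congr 1
          have := hst.hqm
          omega
  have hM1 : 1 ≤ M := by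
    have h1 : (1 : ℝ) ≤ (M : ℝ) := by
      rw [hM]
      exact one_le_pow₀ hN1.le
    exact_mod_cast h1
  have key1 := PE2g_of44 (μ := μ) (s := s) (hb0 p).1 (σ := 2 ^ sg96 E c m p) (by positivity) (hb0 p).2 hdp
    (dvd96 hst.hsq (i + 1)) (hdn.trans hF.hL) (δ := F.dl) hB hf0 hcov hy hM1 hyN (hE p q i hst hi)
  rw [← hys] at key1
  have key2 := PE2c_of_g (μ := μ) (s := s) hF.hy hB hf0 (hC p q i hst hi) key1
  have hV := v2b44 R hΘ hc hcδ hε hι0 hι hn hF hR (hb0 p).2 hdp hS hst hi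
  have hq1 : (1 : ℝ) ≤ 2 ^ q := one_le_pow₀ one_le_two
  have h3 := root44 hN1 (R.Epos (2 ^ q)) hq1 (hX p q i hst hi) hε₁ hx hxΘ h2 hV
  have hcard := card_Rw33 hF (i * 2 ^ q) ((i + 1) * 2 ^ q)
  have h4 := err44 hn64 hcard hD₀ (B_sq44 hF hΘ) hM hL1 hz0 hz
  have h5 := num44 hn64 (Nat.cast_nonneg _) hcard hD₀ hB (B_le44 hF hΘ hn64) (le_refl (((2 ^ m : ℕ) : ℝ) ^ (-6 : ℝ)))
  have h6 : ((Rw (F.R m) (i * 2 ^ q) ((i + 1) * 2 ^ q)).card : ℝ) * (2 * |D₀| * F.B m * ((2 ^ m : ℕ) : ℝ) ^ (-6 : ℝ)) ≤ 1 / 32 := by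
    refine le_trans (mul_le_mul_of_nonneg_left (mul_le_mul_of_nonneg_right (mul_le_mul_of_nonneg_left ?_ ?_) ?_) ?_) h5
    · linarith
    · positivity
    · positivity
    · positivity
  refine le_trans key2 (add_le_add (mul_le_mul_of_nonneg_right h3 (Real.sqrt_nonneg _)) ?_)
  linarith

/-! ### The concrete frame -/

/-- **The errors of the flips at the concrete frame.** -/
theorem fe44 [IsProbabilityMeasure μ] {c₁ C : ℝ} {n₀ : ℕ} (h : In μ s c₁ C n₀) (hk : KapLe96 (EE μ s) (1 / 4)) {K : ℕ}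
    (hK : 32 ≤ K) (hδ : 0 < δ) (hc : 0 ≤ c) (hcδ : c ≤ δ / 64) :
    Est fun ι β γ m => ∃ z : ℝ, 0 ≤ z ∧ ((frm33 μ s K ι β γ).L m : ℝ) ^ 2 * z ≤ (((2 ^ m : ℕ) : ℝ) ^ 4)⁻¹ ∧
      ∀ p q i : ℕ, St96 (EE μ s) δ c m p q → i < 2 ^ (m - q) →
        ∀ j ∈ Rw ((frm33 μ s K ι β γ).R m) (i * 2 ^ q) ((i + 1) * 2 ^ q), FErr μ s ((frm33 μ s K ι β γ).L m)
          (frm33 μ s K ι β γ).dl ((frm33 μ s K ι β γ).B m) ((frm33 μ s K ι β γ).b0 m p) j (y33 μ s K m) (M33 m) z := by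
  refine ⟨δ / 16, by positivity, fun ι _ hι => Sml.of fun β hβ => ?_⟩
  obtain ⟨γ₀, hγ₀, hF⟩ := ferr33 h (clipP33 h) hK (show 0 < δ / 4 by positivity) hβ
  refine ⟨γ₀, hγ₀, fun γ hγ hγ' => ?_⟩
  obtain ⟨c', hc', hF⟩ := hF γ hγ hγ'
  filter_upwards [hF, ev_z hK hc', b0_33 hδ (show ι ≤ δ / 4 by linarith), deep33_ev h hk hδ hc hcδ hι] with m h1 h2 h3 h4
  refine ⟨Real.exp (-(L33 K m : ℝ) ^ c'), (Real.exp_pos _).le, h2, fun p q i hst hi j hj => ?_⟩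
  have hsm : sg96 (EE μ s) c m p ≤ m := hst.hsq.trans hst.hqm
  have hpm : p ≤ m := hst.hps.trans hsm
  have hdp : Deep (R33 ι m) (2 ^ p) (2 ^ sg96 (EE μ s) c m p) := (h4 p hst.hp hsm).mono (by omega)
  have hdn : (i + 1) * 2 ^ q ≤ 2 ^ m := by
    calc (i + 1) * 2 ^ q ≤ 2 ^ (m - q) * 2 ^ q := Nat.mul_le_mul_right _ hi
      _ = 2 ^ m := by
          rw [← pow_add]
          congr 1
          have := hst.hqm
          omega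
  have hL : 2 ^ m ≤ L33 K m := L33_ge (by omega) m
  have hbp : 2 ^ (p - ⌈ι * (m : ℝ)⌉₊) ≤ 2 ^ p := Nat.pow_le_pow_right two_pos (Nat.sub_le _ _)
  have hin := hdp.in_block (Nat.two_pow_pos _) (dvd96 hst.hsq i) (dvd96 hst.hsq (i + 1)) hj
  obtain ⟨k1, k2⟩ := hin
  have k3 : 2 ^ (p - ⌈ι * (m : ℝ)⌉₊) ≤ j := by omega
  have k4 : j + 2 ^ (p - ⌈ι * (m : ℝ)⌉₊) ≤ L33 K m := by omega
  exact h1 _ le_rfl _ j (h3 p hst.hp) (hbp.trans (Nat.pow_le_pow_right two_pos hpm)) k3 k4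

variable (μ s Θ) in
/-- **(E2b)**, untied, covariant spectators, at the concrete frame. -/
def E2cL44 (K : ℕ) : Prop := Sml fun δ => Sml fun c => ∃ x : ℝ, 0 < x ∧
  Est fun ι β γ m => E2cV μ s (frm33 μ s K ι β γ) (EE μ s) Θ δ c x m

variable (μ s Θ) in
/-- **What is left of (E2b)**: the strip, the second moment, the clipping. -/
structure E2T44 (K : ℕ) (δ c : ℝ) : Prop where
  str : ∃ C : ℝ, 0 < C ∧ Est fun ι β γ m => StrN μ s (frm33 μ s K ι β γ) (EE μ s) δ ι (C * ι) m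
  x2 : ∃ x : ℝ, 0 < x ∧ Est fun ι β γ m => X2N μ s (frm33 μ s K ι β γ) (EE μ s) Θ δ c x m
  cm : Est fun ι β γ m => CmN μ s (frm33 μ s K ι β γ) (EE μ s) δ c m

theorem X2N.mono {x x' : ℝ} (hE : 0 < E (2 ^ q)) (h : x' ≤ x) :
    (2 : ℝ) ^ q * (E (2 ^ q) * ((2 ^ m : ℕ) : ℝ) ^ (Θ - x)) ≤ 2 ^ q * (E (2 ^ q) * ((2 ^ m : ℕ) : ℝ) ^ (Θ - x')) := by
  have hN1 : (1 : ℝ) ≤ ((2 ^ m : ℕ) : ℝ) := by exact_mod_cast Nat.one_le_two_pow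
  refine mul_le_mul_of_nonneg_left (mul_le_mul_of_nonneg_left ?_ hE.le) (by positivity)
  exact Real.rpow_le_rpow_of_exponent_le hN1 (by linarith)

/-- **THE DOUBLE TIE AT THE CONCRETE FRAME.** -/
theorem e2cL44 [IsProbabilityMeasure μ] {c₁ C : ℝ} {n₀ : ℕ} (h : In μ s c₁ C n₀) (hk : KapLe96 (EE μ s) (1 / 4)) {K : ℕ}
    (hK : 32 ≤ K) (hΘ : 0 < Θ) (hΘ1 : Θ ≤ 1) (hR : RegP46 μ s c₀ Θ) (H : Sml fun δ => Sml fun c => E2T44 μ s Θ K δ c) :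
    E2cL44 μ s Θ K := by
  refine H.mono fun δ hδ H1 => ?_
  refine (H1.and (Sml.le (show 0 < δ / 64 by positivity))).mono fun c hc H2 => ?_
  obtain ⟨⟨⟨C', hC', t0⟩, ⟨x, hx, t1⟩, t2⟩, hcδ⟩ := H2
  obtain ⟨a, _, _, hRe⟩ := hR
  obtain ⟨x', hx'⟩ : ∃ x' : ℝ, x' = min x Θ := ⟨_, rfl⟩
  have hx'0 : 0 < x' := by
    rw [hx']
    exact lt_min hx hΘ
  refine ⟨x' / 4, by positivity, ?_⟩
  have hι : Est fun ι _ _ _ => 0 < ι ∧ ι ≤ c ∧ C' * ι ≤ x' / 4 := by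
    refine Est.iota ?_
    refine ⟨min c (x' / 4 / C'), by positivity, fun ι hι h => ⟨hι, h.trans (min_le_left _ _), ?_⟩⟩
    have h3 := h.trans (min_le_right _ _)
    rw [le_div_iff₀ hC'] at h3
    linarith
  have hev : ∀ᶠ m : ℕ in atTop, Reg46 (EE μ s) (Pool.Agent.W_7d29a1_HS.wd μ s) c₀ Θ δ a (c / 4) ((2 ^ m : ℕ) : ℝ) ∧
      16 ≤ ((2 ^ m : ℕ) : ℝ) ^ c ∧ 2 ≤ ((2 ^ m : ℕ) : ℝ) ^ (x' / 4) ∧ 64 ≤ ((2 ^ m : ℕ) : ℝ) ^ (1 : ℝ) ∧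
      2 ≤ y33 μ s K m ∧ y33 μ s K m + M33 m + 1 ≤ L33 K m := by
    filter_upwards [hRe δ (c / 4) hδ (by positivity), pow_ev96 hc 16, pow_ev96 (show 0 < x' / 4 by positivity) 2,
      pow_ev96 one_pos 64, cone33 h hK one_pos] with m h1 h2 h3 h4 h5
    exact ⟨h1.1, h2, h3, h4, h5.1, h5.2.1⟩
  have hall := ((((ok33 (μ := μ) (s := s) (show 6 ≤ K by omega) hΘ).and (deep33 (K := K) h hk hδ hc.le hcδ)).and
    (fe44 h hk hK hδ hc.le hcδ)).and ((t0.and t1).and t2)).and (hι.and (Est.of_ev hev))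
  refine hall.mono fun ι β γ _ _ _ => Eventually.of_forall fun m hm => ?_
  obtain ⟨⟨⟨⟨g1, g2⟩, z, g3, g4, g5⟩, ⟨g6, g7⟩, g8⟩, ⟨g9, g10, g11⟩, g12, g13, g14, g15, g16, g17⟩ := hm
  rw [Real.rpow_one] at g15
  refine e2c44 (x := x') g12 hΘ1 hc (by linarith) le_rfl g9.le g10 g13 g15 g1 (Finset.Subset.refl _)
    (fun p => ⟨Nat.two_pow_pos _, Nat.pow_le_pow_right two_pos (Nat.sub_le _ _)⟩) g2 g6 (y₀ := y33 μ s K m) (M := M33 m) rfl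
    (by omega) (M33_real m) (by show y33 μ s K m + M33 m ≤ L33 K m; omega) g3 g4 g5 hx'0 (by rw [hx']; exact min_le_right _ _) g11 g14
    (fun p q i hst hi => (g7 p q i hst hi).trans (X2N.mono (EE_pos _) (by rw [hx']; exact min_le_left _ _))) g8

end

end Pool.Agent.W_7d29a1_C0.EstD44
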