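import Pool.Agent.W_7d29a1_C0.VT31

/-!
CURV0 (MP_7d29a1_pr), GS one kick, G8: JOINING BEHIND THE SLAB (helper41, on plan 75297, 75807 of helper52).
`p r` = everything behind the row `r`, `v r` = the position at `r`, `R` = the rows of the join window, `pz` = behind its end, `D` a
functional of the rows before `R` (so `cE w (p r) D` is a function of `v r`), `K x y` = no common position on `R`.
* `join_mass41`: `gm w (D 1(v r = v r x)) ≤ cE w (p r) D x`; `join_up41`: `cE w (p r) D x * (mass of v r = v r x given pz) ≤ cE w pz D x`;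
* `gm_rare41`: the paths with an unlikely site are rare; `join_alt41`: `q < gm w D` gives `q q0 / (3 #R) < cE w pz D x`, or the same at
  `y`, or an unlikely site of `x` or of `y`, or `q / 3 < gm w (D * K x * K y)`;
* `own_E3_41`: the own mass of the pairs with the last alternative: `≤ q2 + 1(rare) + 1(E3 x)`, `E3` = `x` with two free replicas
  pairwise apart on `R`;
* `rb_abs41`: THE BAD FUNCTIONAL `∑ β, 1(bad β) rb β` of helper52, abstract form (paths: `Join41P` right, `Join41L` left).
-/

set_option autoImplicit false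
set_option linter.unusedSectionVars false
set_option linter.unusedVariables false

namespace Pool.W7d29a1.C0.H41

open Finset
open Pool.W7d29a1.C0 (gz gm gz_pos gz_ne gm_nonneg gm_mono gm_const gm_add gm_smul)
open Pool.W7d29a1.C0.VT31

noncomputable section

section Abs

variable {X : Type*} [Fintype X] [Nonempty X] {Y Y' : Type*} [DecidableEq Y] [DecidableEq Y']

theorem gm_sum41 (w : X → ℝ) {ι : Type*} (T : Finset ι) (f : ι → X → ℝ) :
    gm w (fun x => ∑ t ∈ T, f t x) = ∑ t ∈ T, gm w (f t) := by
  classical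
  induction T using Finset.induction_on with
  | empty =>
    simp only [sum_empty]
    exact gm_const w 0
  | insert t T ht ih =>
    rw [sum_insert ht, ← ih, ← gm_add]
    congr 1
    funext x
    rw [sum_insert ht]
    rfl

/-- The exchange of the two replicas of a pair given `p`. -/
theorem gm_exch41 (w : X → ℝ) {p : X → Y} {F : X → ℝ} (hF : Mp p F) (K : X → X → ℝ) :
    gm w (fun x => F x * cE w p (K x) x) = gm w (fun x => F x * cE w p (fun y => K y x) x) := by
  have e : ∀ K : X → X → ℝ, ∑ x, Real.exp (w x) * (F x * cE w p (K x) x) =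
      ∑ x, ∑ y, if p y = p x then F x * (Real.exp (w x) * Real.exp (w y)) * K x y / fz w p x else 0 := by
    intro K
    refine sum_congr rfl fun x _ => ?_
    unfold cE
    rw [← mul_div_assoc, ← mul_div_assoc, mul_sum, mul_sum, sum_div]
    refine sum_congr rfl fun y _ => ?_
    split_ifs
    · ring
    · simp
  unfold gm
  rw [e K, e fun x y => K y x, sum_comm]
  congr 1
  refine sum_congr rfl fun x _ => sum_congr rfl fun y _ => ?_
  by_cases h : p x = p y
  · rw [if_pos h, if_pos h.symm, hF x y h, fz_meas w p x y h]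
    ring
  · rw [if_neg h, if_neg fun h' => h h'.symm]

open Classical in
/-- **The paths with an unlikely value of `v` given `q` are rare.** -/
theorem gm_rare41 {κ : Type*} [DecidableEq κ] (w : X → ℝ) (q : X → Y) {v : X → κ} {T : Finset κ} (hv : ∀ x, v x ∈ T) {q0 : ℝ} (h0 : 0 ≤ q0) :
    gm w (fun x => if cE w q (fun y => if v y = v x then 1 else 0) x < q0 then 1 else 0) ≤ T.card * q0 := by
  set g : κ → X → ℝ := fun t => cE w q (fun y => if v y = t then 1 else 0) with hg
  have e1 : (fun x => if cE w q (fun y => if v y = v x then (1 : ℝ) else 0) x < q0 then (1 : ℝ) else 0) =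
      fun x => ∑ t ∈ T, (if g t x < q0 then (1 : ℝ) else 0) * (if v x = t then 1 else 0) := by
    funext x
    rw [Finset.sum_eq_single (v x)]
    · rw [if_pos (rfl : v x = v x), mul_one]
    · intro t _ ht
      rw [if_neg (fun h : v x = t => ht h.symm), mul_zero]
    · intro h
      exact absurd (hv x) h
  have e2 : ∀ t, gm w (fun x => (if g t x < q0 then (1 : ℝ) else 0) * (if v x = t then 1 else 0)) ≤ q0 := by
    intro t
    have hm : Mp q (fun x => if g t x < q0 then (1 : ℝ) else 0) := fun x x' h => by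
      have h1 : g t x = g t x' := cE_meas w q (fun y => if v y = t then 1 else 0) x x' h
      simp only [h1]
    have h2 := gm_mul_cE w hm (fun y => if v y = t then 1 else 0)
    calc gm w (fun x => (if g t x < q0 then (1 : ℝ) else 0) * (if v x = t then 1 else 0))
        = gm w ((fun x => if g t x < q0 then (1 : ℝ) else 0) * g t) := h2.symm
      _ ≤ gm w (fun _ => q0) := gm_mono w fun x => by
          rw [Pi.mul_apply]
          split_ifs with h
          · rw [one_mul]
            exact h.le
          · rw [zero_mul]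
            exact h0
      _ = q0 := gm_const w q0
  rw [e1, gm_sum41]
  calc ∑ t ∈ T, gm w (fun x => (if g t x < q0 then (1 : ℝ) else 0) * (if v x = t then 1 else 0)) ≤ ∑ t ∈ T, q0 :=
        sum_le_sum fun t _ => e2 t
    _ = T.card * q0 := by rw [sum_const, nsmul_eq_mul]

open Classical in
/-- The same without condition. -/
theorem gm_rare_free41 {κ : Type*} [DecidableEq κ] (w : X → ℝ) {v : X → κ} {T : Finset κ} (hv : ∀ x, v x ∈ T) {q0 : ℝ} (h0 : 0 ≤ q0) :
    gm w (fun x => if gm w (fun y => if v y = v x then 1 else 0) < q0 then 1 else 0) ≤ T.card * q0 := by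
  have h := gm_rare41 w (fun _ : X => ()) hv h0
  simpa only [gm_eq_cE] using h

open Classical in
/-- **The mass of the joins at one row.** -/
theorem join_mass41 {w : X → ℝ} {p : X → Y} {v : X → ℤ} (hv : ∀ x y, p x = p y → v x = v y) {D : X → ℝ} (hD : ∀ x, 0 ≤ D x)
    (hu : ∀ x y, v x = v y → cE w p D x = cE w p D y) (x : X) :
    gm w (fun t => D t * (if v t = v x then 1 else 0)) ≤ cE w p D x := by
  have hm : Mp p (fun t => if v t = v x then (1 : ℝ) else 0) := fun a b h => by
    simp only [hv a b h]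
  have h1 := gm_mul_cE w hm D
  have h2 : gm w (fun t => D t * (if v t = v x then 1 else 0)) = gm w ((fun t => if v t = v x then (1 : ℝ) else 0) * D) := by
    congr 1
    funext t
    rw [Pi.mul_apply]
    ring
  rw [h2, ← h1]
  refine (gm_mono w (g := fun _ => cE w p D x) fun t => ?_).trans_eq (gm_const w _)
  rw [Pi.mul_apply]
  split_ifs with h
  · rw [one_mul, hu t x h]
  · rw [zero_mul]
    exact cE_nonneg w p hD x

open Classical in
/-- **From one row to the end of the window.** -/
theorem join_up41 {w : X → ℝ} {q : X → Y'} {p : X → Y} (hc : Crs q p) {v : X → ℤ} {D : X → ℝ} (hD : ∀ x, 0 ≤ D x)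
    (hu : ∀ x y, v x = v y → cE w p D x = cE w p D y) (x : X) :
    cE w p D x * cE w q (fun t => if v t = v x then 1 else 0) x ≤ cE w q D x := by
  have h1 : cE w q (cE w p D) x = cE w q D x := congrFun (cE_tower w hc D) x
  rw [← h1]
  have h2 : cE w p D x * cE w q (fun t => if v t = v x then 1 else 0) x =
      cE w q (cE w p D x • fun t => if v t = v x then (1 : ℝ) else 0) x := by
    rw [cE_smul, Pi.smul_apply, smul_eq_mul]
  rw [h2]
  refine cE_mono w q (fun t => ?_) x
  rw [Pi.smul_apply, smul_eq_mul]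
  split_ifs with h
  · rw [mul_one, hu t x h]
  · rw [mul_zero]
    exact cE_nonneg w p hD t

variable {w : X → ℝ} {R : Finset ℕ} {v : ℕ → X → ℤ} {K : X → X → ℝ} {p : ℕ → X → Y} {pz : X → Y'}

open Classical in
/-- A mass against the joins with `x`, the joins with `y`, and the rest. -/
theorem join_split41 (hK : ∀ x y, K x y = 1 ∨ ∃ r ∈ R, v r y = v r x) (K0 : ∀ x y, 0 ≤ K x y)
    (hv : ∀ r ∈ R, ∀ x y, p r x = p r y → v r x = v r y) {D Dx Dy : X → ℝ} (hD : ∀ t, 0 ≤ D t)
    (hx : ∀ t, D t ≤ Dx t) (hy : ∀ t, D t ≤ Dy t)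
    (hux : ∀ r ∈ R, ∀ x y, v r x = v r y → cE w (p r) Dx x = cE w (p r) Dx y)
    (huy : ∀ r ∈ R, ∀ x y, v r x = v r y → cE w (p r) Dy x = cE w (p r) Dy y) (x y : X) :
    gm w D ≤ ∑ r ∈ R, cE w (p r) Dx x + ∑ r ∈ R, cE w (p r) Dy y + gm w (fun t => D t * (K x t * K y t)) := by
  have hx0 : ∀ t, 0 ≤ Dx t := fun t => (hD t).trans (hx t)
  have hy0 : ∀ t, 0 ≤ Dy t := fun t => (hD t).trans (hy t)
  have h1 : ∀ t, D t ≤ ((fun t => ∑ r ∈ R, Dx t * (if v r t = v r x then 1 else 0)) +
      (fun t => ∑ r ∈ R, Dy t * (if v r t = v r y then 1 else 0)) + fun t => D t * (K x t * K y t)) t := by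
    intro t
    rw [Pi.add_apply, Pi.add_apply]
    have s1 : ∀ (D' : X → ℝ) (x' : X), (∀ t, 0 ≤ D' t) → 0 ≤ ∑ r ∈ R, D' t * (if v r t = v r x' then (1 : ℝ) else 0) :=
      fun D' x' h => sum_nonneg fun r _ => mul_nonneg (h t) (by split_ifs <;> norm_num)
    have s2 : ∀ (D' : X → ℝ) (x' : X), (∀ t, 0 ≤ D' t) → (∃ r ∈ R, v r t = v r x') →
        D' t ≤ ∑ r ∈ R, D' t * (if v r t = v r x' then (1 : ℝ) else 0) := by
      rintro D' x' h ⟨r, hr, he⟩
      have h2 := single_le_sum (f := fun r => D' t * (if v r t = v r x' then (1 : ℝ) else 0))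
        (fun i _ => mul_nonneg (h t) (by split_ifs <;> norm_num)) hr
      simp only [if_pos he, mul_one] at h2
      exact h2
    have s3 : 0 ≤ D t * (K x t * K y t) := mul_nonneg (hD t) (mul_nonneg (K0 _ _) (K0 _ _))
    have a1 := s1 Dx x hx0
    have a2 := s1 Dy y hy0
    rcases hK x t with h3 | h3
    · rcases hK y t with h4 | h4
      · rw [h3, h4, mul_one, mul_one] at *
        linarith
      · have b := s2 Dy y hy0 h4
        have := hy t
        linarith
    · have b := s2 Dx x hx0 h3
      have := hx t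
      linarith
  refine (gm_mono w h1).trans ?_
  rw [gm_add, gm_add, gm_sum41, gm_sum41]
  refine add_le_add (add_le_add (sum_le_sum fun r hr => ?_) (sum_le_sum fun r hr => ?_)) le_rfl
  · exact join_mass41 (hv r hr) hx0 (hux r hr) x
  · exact join_mass41 (hv r hr) hy0 (huy r hr) y

open Classical in
/-- The path has an unlikely site in the window, given what is behind the window. -/
def RareJ (w : X → ℝ) (pz : X → Y') (R : Finset ℕ) (v : ℕ → X → ℤ) (q0 : ℝ) (x : X) : Prop :=
  ∃ r ∈ R, cE w pz (fun t => if v r t = v r x then 1 else 0) x < q0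

open Classical in
theorem gm_RareJ41 {T : Finset ℤ} (hT : ∀ r ∈ R, ∀ x, v r x ∈ T) {q0 : ℝ} (h0 : 0 ≤ q0) :
    gm w (fun x => if RareJ w pz R v q0 x then 1 else 0) ≤ R.card * (T.card * q0) := by
  have h1 : ∀ x, (if RareJ w pz R v q0 x then (1 : ℝ) else 0) ≤
      ∑ r ∈ R, (if cE w pz (fun t => if v r t = v r x then 1 else 0) x < q0 then (1 : ℝ) else 0) := by
    intro x
    split_ifs with h
    · obtain ⟨r, hr, he⟩ := h
      have h2 := single_le_sum (f := fun r => if cE w pz (fun t => if v r t = v r x then 1 else 0) x < q0 then (1 : ℝ) else 0)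
        (fun i _ => by split_ifs <;> norm_num) hr
      simp only [if_pos he] at h2
      exact h2
    · exact sum_nonneg fun i _ => by split_ifs <;> norm_num
  refine (gm_mono w h1).trans ?_
  rw [gm_sum41]
  calc ∑ r ∈ R, gm w (fun x => if cE w pz (fun t => if v r t = v r x then 1 else 0) x < q0 then (1 : ℝ) else 0)
      ≤ ∑ r ∈ R, (T.card : ℝ) * q0 := sum_le_sum fun r hr => gm_rare41 w pz (hT r hr) h0
    _ = R.card * (T.card * q0) := by rw [sum_const, nsmul_eq_mul]

/-- The value of the mean behind one row, from the end of the window. -/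
theorem join_le41 {D : X → ℝ} (hD : ∀ t, 0 ≤ D t) (hc : ∀ r ∈ R, Crs pz (p r))
    (hu : ∀ r ∈ R, ∀ x y, v r x = v r y → cE w (p r) D x = cE w (p r) D y) {q0 : ℝ} (h0 : 0 < q0) {x : X}
    (hr : ¬ RareJ w pz R v q0 x) : ∑ r ∈ R, cE w (p r) D x ≤ R.card * (cE w pz D x / q0) := by
  classical
  have h1 : ∀ r ∈ R, cE w (p r) D x ≤ cE w pz D x / q0 := by
    intro r hr'
    have h2 := join_up41 (hc r hr') hD (hu r hr') x
    have h3 : q0 ≤ cE w pz (fun t => if v r t = v r x then 1 else 0) x := by
      by_contra h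
      refine hr ⟨r, hr', ?_⟩
      convert not_le.1 h
    have h4 := cE_nonneg w (p r) hD x
    rw [le_div_iff₀ h0]
    refine (mul_le_mul_of_nonneg_left h3 h4).trans ?_
    convert h2
  calc ∑ r ∈ R, cE w (p r) D x ≤ ∑ r ∈ R, cE w pz D x / q0 := sum_le_sum h1
    _ = R.card * (cE w pz D x / q0) := by rw [sum_const, nsmul_eq_mul]

/-- **THE ALTERNATIVES**: a mass `> q` of a functional in front of the window. -/
theorem join_alt41 (hR : R.Nonempty) (hK : ∀ x y, K x y = 1 ∨ ∃ r ∈ R, v r y = v r x) (K0 : ∀ x y, 0 ≤ K x y)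
    (hc : ∀ r ∈ R, Crs pz (p r)) (hv : ∀ r ∈ R, ∀ x y, p r x = p r y → v r x = v r y) {D Dx Dy : X → ℝ}
    (hD : ∀ t, 0 ≤ D t) (hx : ∀ t, D t ≤ Dx t) (hy : ∀ t, D t ≤ Dy t)
    (hux : ∀ r ∈ R, ∀ x y, v r x = v r y → cE w (p r) Dx x = cE w (p r) Dx y)
    (huy : ∀ r ∈ R, ∀ x y, v r x = v r y → cE w (p r) Dy x = cE w (p r) Dy y) {q q0 : ℝ} (h0 : 0 < q0) (x y : X)
    (h : q < gm w D) :
    q * q0 / (3 * R.card) < cE w pz Dx x ∨ q * q0 / (3 * R.card) < cE w pz Dy y ∨ RareJ w pz R v q0 x ∨
      RareJ w pz R v q0 y ∨ q / 3 < gm w (fun t => D t * (K x t * K y t)) := by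
  by_contra hn
  push Not at hn
  obtain ⟨n1, n2, n3, n4, n5⟩ := hn
  have hx0 : ∀ t, 0 ≤ Dx t := fun t => (hD t).trans (hx t)
  have hy0 : ∀ t, 0 ≤ Dy t := fun t => (hD t).trans (hy t)
  have s := join_split41 hK K0 hv hD hx hy hux huy x y
  have a1 := join_le41 hx0 hc hux h0 n3
  have a2 := join_le41 hy0 hc huy h0 n4
  have hL : (0 : ℝ) < R.card := Nat.cast_pos.2 hR.card_pos
  have b : ∀ u : ℝ, u ≤ q * q0 / (3 * R.card) → (R.card : ℝ) * (u / q0) ≤ q / 3 := by
    intro u hu
    have h1 : (R.card : ℝ) * (u / q0) ≤ R.card * (q * q0 / (3 * R.card) / q0) :=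
      mul_le_mul_of_nonneg_left (div_le_div_of_nonneg_right hu h0.le) hL.le
    have h2 : (R.card : ℝ) * (q * q0 / (3 * R.card) / q0) = q / 3 := by
      field_simp
    linarith
  have b1 := b _ n1
  have b2 := b _ n2
  linarith

/-! ### The own mass of the pairs which a free replica avoids -/

/-- `x` and two free replicas are pairwise apart, with more than mass `q3`. -/
def E3 (w : X → ℝ) (K : X → X → ℝ) (q3 : ℝ) (x : X) : Prop := q3 < gm w fun y => K x y * gm w fun t => K x t * K y t

open Classical in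
/-- The kernel of the pairs which are apart and leave a free replica apart of both with more than mass `q'`. -/
def UK (w : X → ℝ) (K : X → X → ℝ) (q' : ℝ) (x y : X) : ℝ := K x y * if q' < gm w (fun t => K x t * K y t) then 1 else 0

theorem UK_nonneg (K0 : ∀ x y, 0 ≤ K x y) (q' : ℝ) (x y : X) : 0 ≤ UK w K q' x y := by
  unfold UK
  split_ifs
  · rw [mul_one]
    exact K0 x y
  · rw [mul_zero]

theorem UK_le (K0 : ∀ x y, 0 ≤ K x y) (q' : ℝ) (x y : X) : UK w K q' x y ≤ K x y := by
  unfold UK
  split_ifs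
  · rw [mul_one]
  · rw [mul_zero]
    exact K0 x y

open Classical in
/-- **The own mass of `UK`**, `e` = the ends of the block: `cE w p' u x` is a function of `e x` for `u = UK x`. -/
theorem own_E3_41 {κ : Type*} [DecidableEq κ] {p' : X → Y} (K0 : ∀ x y, 0 ≤ K x y) (K1 : ∀ x y, K x y ≤ 1) {q' q0 q2 : ℝ} (hq' : 0 < q')
    (h0 : 0 < q0) (h2 : 0 ≤ q2) {e : X → κ} (x : X)
    (he : ∀ s t, e s = e t → cE w p' (UK w K q' x) s = cE w p' (UK w K q' x) t) :
    cE w p' (UK w K q' x) x ≤ q2 + (if gm w (fun y => if e y = e x then 1 else 0) < q0 then 1 else 0) +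
      (if E3 w K (q0 * q2 * q') x then 1 else 0) := by
  have n1 : cE w p' (UK w K q' x) x ≤ 1 := by
    refine (cE_mono w p' (g := fun _ => 1) (fun y => (UK_le K0 q' x y).trans (K1 x y)) x).trans_eq ?_
    rw [cE_one]
  have i0 : ∀ (P : Prop) [Decidable P], (0 : ℝ) ≤ if P then 1 else 0 := fun P _ => by split_ifs <;> norm_num
  by_cases h3 : gm w (fun y => if e y = e x then 1 else 0) < q0
  · rw [if_pos h3]
    have := i0 (E3 w K (q0 * q2 * q') x)
    linarith
  by_cases h4 : cE w p' (UK w K q' x) x ≤ q2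
  · have a1 := i0 (E3 w K (q0 * q2 * q') x)
    have a2 := i0 (gm w (fun y => if e y = e x then 1 else 0) < q0)
    linarith
  push Not at h3 h4
  have h5 : E3 w K (q0 * q2 * q') x := by
    unfold E3
    have b1 : cE w p' (UK w K q' x) x * gm w (fun y => if e y = e x then 1 else 0) ≤ gm w (UK w K q' x) := by
      rw [← gm_cE w p' (UK w K q' x), ← smul_eq_mul, smul_eq_mul, ← gm_smul]
      refine gm_mono w fun t => ?_
      rw [Pi.smul_apply, smul_eq_mul]
      split_ifs with h
      · rw [mul_one, he t x h]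
      · rw [mul_zero]
        exact cE_nonneg w p' (UK_nonneg K0 q' x) t
    have b2 : q' * gm w (UK w K q' x) ≤ gm w fun y => K x y * gm w fun t => K x t * K y t := by
      rw [← gm_smul]
      refine gm_mono w fun y => ?_
      rw [Pi.smul_apply, smul_eq_mul]
      unfold UK
      split_ifs with h
      · rw [mul_one, mul_comm]
        exact mul_le_mul_of_nonneg_left h.le (K0 x y)
      · rw [mul_zero, mul_zero]
        exact mul_nonneg (K0 x y) (gm_nonneg w fun t => mul_nonneg (K0 x t) (K0 y t))
    have b3 : q2 * q0 < cE w p' (UK w K q' x) x * gm w (fun y => if e y = e x then 1 else 0) := by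
      calc q2 * q0 ≤ q2 * gm w (fun y => if e y = e x then 1 else 0) := mul_le_mul_of_nonneg_left h3 h2
        _ < cE w p' (UK w K q' x) x * gm w (fun y => if e y = e x then 1 else 0) :=
            mul_lt_mul_of_pos_right h4 (h0.trans_le h3)
    calc q0 * q2 * q' = q' * (q2 * q0) := by ring
      _ < q' * gm w (UK w K q' x) := mul_lt_mul_of_pos_left (b3.trans_le b1) hq'
      _ ≤ _ := b2
  rw [if_pos h5]
  have := i0 (gm w (fun y => if e y = e x then 1 else 0) < q0)
  linarith

/-! ### The bad functional -/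

section Bad

variable {β : Type*} [DecidableEq β] {p' : X → Y} {cls : X → X → ℝ} {F : X → ℝ}

/-- The sum over the pairs of boxes. -/
theorem rb_sum41 (w : X → ℝ) (p' : X → Y) (bx : X → β) (c0 : ∀ x y, 0 ≤ cls x y) (F0 : ∀ x, 0 ≤ F x) (I : Finset (β × β))
    (Bad : β × β → Prop) [DecidablePred Bad] :
    ∑ be ∈ I, (if Bad be then gm w (fun x => (if bx x = be.1 then 1 else 0) *
      cE w p' (fun y => cls x y * if bx y = be.2 then 1 else 0) x * F x) else 0) ≤
      gm w (fun x => F x * cE w p' (fun y => cls x y * if Bad (bx x, bx y) then 1 else 0) x) := by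
  have e1 : ∀ be : β × β, (if Bad be then gm w (fun x => (if bx x = be.1 then 1 else 0) *
      cE w p' (fun y => cls x y * if bx y = be.2 then 1 else 0) x * F x) else 0) =
      gm w (fun x => F x * cE w p' (fun y => (if Bad be then 1 else 0) * ((if bx x = be.1 then 1 else 0) *
        (cls x y * if bx y = be.2 then 1 else 0))) x) := by
    intro be
    have e2 : ∀ x, cE w p' (fun y => (if Bad be then 1 else 0) * ((if bx x = be.1 then 1 else 0) *
        (cls x y * if bx y = be.2 then (1 : ℝ) else 0))) x = (if Bad be then 1 else 0) * ((if bx x = be.1 then 1 else 0) *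
          cE w p' (fun y => cls x y * if bx y = be.2 then 1 else 0) x) := by
      intro x
      have a1 := congrFun (cE_smul w p' (if Bad be then 1 else 0) fun y => (if bx x = be.1 then 1 else 0) *
        (cls x y * if bx y = be.2 then (1 : ℝ) else 0)) x
      have a2 := congrFun (cE_smul w p' (if bx x = be.1 then 1 else 0) fun y =>
        (cls x y * if bx y = be.2 then (1 : ℝ) else 0)) x
      refine a1.trans ?_
      rw [Pi.smul_apply, smul_eq_mul]
      congr 1
    simp only [e2]
    by_cases h : Bad be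
    · simp only [if_pos h]
      congr 1
      funext x
      ring
    · simp only [if_neg h, zero_mul, mul_zero]
      exact (gm_const w 0).symm
  rw [sum_congr rfl fun be _ => e1 be, ← gm_sum41 w I]
  refine gm_mono w fun x => ?_
  rw [← mul_sum]
  refine mul_le_mul_of_nonneg_left ?_ (F0 x)
  have e3 := congrFun (cE_sum w p' I fun (be : β × β) (y : X) => (if Bad be then 1 else 0) *
    ((if bx x = be.1 then 1 else 0) * (cls x y * if bx y = be.2 then (1 : ℝ) else 0))) x
  rw [Finset.sum_apply] at e3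
  rw [← e3]
  refine cE_mono w p' (fun y => ?_) x
  rw [Finset.sum_apply]
  have e4 : ∀ be ∈ I, be ≠ (bx x, bx y) → (if Bad be then (1 : ℝ) else 0) *
      ((if bx x = be.1 then 1 else 0) * (cls x y * if bx y = be.2 then (1 : ℝ) else 0)) = 0 := by
    intro be _ hbe
    by_cases h1 : bx x = be.1
    · by_cases h2 : bx y = be.2
      · exact absurd (Prod.ext h1.symm h2.symm) hbe
      · rw [if_neg h2]
        ring
    · rw [if_neg h1]
      ring
  have e5 : 0 ≤ cls x y * (if Bad (bx x, bx y) then (1 : ℝ) else 0) :=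
    mul_nonneg (c0 x y) (by split_ifs <;> norm_num)
  by_cases hI : (bx x, bx y) ∈ I
  · rw [Finset.sum_eq_single_of_mem _ hI e4]
    refine le_of_eq ?_
    simp only [if_true]
    ring
  · rw [Finset.sum_eq_zero fun be hbe => e4 be hbe fun h => hI (h ▸ hbe)]
    exact e5

/-- **THE SPLIT OF THE BAD FUNCTIONAL** along the alternatives for the pair. -/
theorem rb_split41 {w : X → ℝ} (bx : X → β) (I : Finset (β × β)) (c0 : ∀ x y, 0 ≤ cls x y) (c1 : ∀ x y, cls x y ≤ 1)
    (cs : ∀ x y, cls x y = cls y x) (F0 : ∀ x, 0 ≤ F x) (F1 : ∀ x, F x ≤ 1) (hF : Mp p' F) {Bad : β × β → Prop}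
    [DecidablePred Bad] {A A' Rr : X → Prop} [DecidablePred A] [DecidablePred A'] [DecidablePred Rr] {C : X → X → Prop}
    [∀ x y, Decidable (C x y)] (h : ∀ x y, Bad (bx x, bx y) → A x ∨ A y ∨ A' x ∨ A' y ∨ Rr x ∨ Rr y ∨ C x y) :
    ∑ be ∈ I, (if Bad be then gm w (fun x => (if bx x = be.1 then 1 else 0) *
      cE w p' (fun y => cls x y * if bx y = be.2 then 1 else 0) x * F x) else 0) ≤
      2 * gm w (fun x => (if A x then 1 else 0) * cE w p' (cls x) x * F x) +
        2 * gm w (fun x => (if A' x then 1 else 0) * cE w p' (cls x) x * F x) +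
          2 * gm w (fun x => if Rr x then 1 else 0) +
            gm w (fun x => F x * cE w p' (fun y => cls x y * if C x y then 1 else 0) x) := by
  refine (rb_sum41 w p' bx c0 F0 I Bad).trans ?_
  have i0 : ∀ (P : Prop) [Decidable P], (0 : ℝ) ≤ if P then 1 else 0 := fun P _ => by split_ifs <;> norm_num
  -- one replica events
  have k1 : ∀ (B : X → Prop) [DecidablePred B], ∀ x, cE w p' (fun y => (if B x then 1 else 0) * cls x y) x = (if B x then 1 else 0) * cE w p' (cls x) x :=
    fun B _ x => congrFun (cE_smul w p' (if B x then 1 else 0) (cls x)) x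
  have k2 : ∀ (B : X → Prop) [DecidablePred B], gm w (fun x => F x * cE w p' (fun y => (if B y then 1 else 0) * cls x y) x) =
      gm w (fun x => F x * cE w p' (fun y => (if B x then 1 else 0) * cls x y) x) := by
    intro B _
    rw [gm_exch41 w hF]
    congr 1
    funext x
    congr 2
    funext y
    rw [cs y x]
  have k3 : ∀ (B : X → Prop) [DecidablePred B], gm w (fun x => F x * cE w p' (fun y => (if B x then 1 else 0) * cls x y) x) =
      gm w (fun x => (if B x then 1 else 0) * cE w p' (cls x) x * F x) := by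
    intro B _
    congr 1
    funext x
    rw [k1 B x]
    ring
  have k4 : ∀ x, cE w p' (cls x) x ≤ 1 := fun x => by
    refine (cE_mono w p' (g := fun _ => 1) (c1 x) x).trans_eq ?_
    rw [cE_one]
  have k5 : ∀ x, 0 ≤ cE w p' (cls x) x := fun x => cE_nonneg w p' (c0 x) x
  have k6 : gm w (fun x => (if Rr x then 1 else 0) * cE w p' (cls x) x * F x) ≤ gm w (fun x => if Rr x then 1 else 0) := by
    refine gm_mono w fun x => ?_
    have := i0 (Rr x)
    calc (if Rr x then 1 else 0) * cE w p' (cls x) x * F x ≤ (if Rr x then 1 else 0) * 1 * 1 :=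
          mul_le_mul (mul_le_mul_of_nonneg_left (k4 x) this) (F1 x) (F0 x) (by linarith)
      _ = _ := by ring
  -- pointwise
  have k7 : ∀ x y, cls x y * (if Bad (bx x, bx y) then 1 else 0) ≤ (if A x then 1 else 0) * cls x y + (if A y then 1 else 0) * cls x y +
      ((if A' x then 1 else 0) * cls x y + (if A' y then 1 else 0) * cls x y) +
      ((if Rr x then 1 else 0) * cls x y + (if Rr y then 1 else 0) * cls x y) + cls x y * (if C x y then 1 else 0) := by
    intro x y
    have hc := c0 x y
    by_cases hb : Bad (bx x, bx y)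
    · rw [if_pos hb]
      have a1 := i0 (A x)
      have a2 := i0 (A y)
      have a3 := i0 (A' x)
      have a4 := i0 (A' y)
      have a5 := i0 (Rr x)
      have a6 := i0 (Rr y)
      have a7 := i0 (C x y)
      have b : (1 : ℝ) ≤ (if A x then 1 else 0) + (if A y then 1 else 0) + ((if A' x then 1 else 0) + (if A' y then 1 else 0)) +
          ((if Rr x then 1 else 0) + (if Rr y then 1 else 0)) + (if C x y then 1 else 0) := by
        rcases h x y hb with h' | h' | h' | h' | h' | h' | h' <;> rw [if_pos h'] at * <;> linarith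
      nlinarith [mul_le_mul_of_nonneg_left b hc]
    · rw [if_neg hb, mul_zero]
      have m : ∀ (P : Prop) [Decidable P], 0 ≤ (if P then (1 : ℝ) else 0) * cls x y := fun P _ => mul_nonneg (i0 P) hc
      have := m (A x)
      have := m (A y)
      have := m (A' x)
      have := m (A' y)
      have := m (Rr x)
      have := m (Rr y)
      have := mul_nonneg hc (i0 (C x y))
      linarith
  have k8 : ∀ x, F x * cE w p' (fun y => cls x y * if Bad (bx x, bx y) then 1 else 0) x ≤
      (((fun x => F x * cE w p' (fun y => (if A x then 1 else 0) * cls x y) x) + fun x => F x * cE w p' (fun y => (if A y then 1 else 0) * cls x y) x) +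
      ((fun x => F x * cE w p' (fun y => (if A' x then 1 else 0) * cls x y) x) + fun x => F x * cE w p' (fun y => (if A' y then 1 else 0) * cls x y) x) +
      ((fun x => F x * cE w p' (fun y => (if Rr x then 1 else 0) * cls x y) x) + fun x => F x * cE w p' (fun y => (if Rr y then 1 else 0) * cls x y) x) +
      fun x => F x * cE w p' (fun y => cls x y * if C x y then 1 else 0) x) x := by
    intro x
    simp only [Pi.add_apply, ← mul_add]
    refine mul_le_mul_of_nonneg_left ?_ (F0 x)
    refine (cE_mono w p' (k7 x) x).trans_eq ?_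
    have l : ∀ f g : X → ℝ, cE w p' (fun y => f y + g y) x = cE w p' f x + cE w p' g x := fun f g => by
      have := congrFun (cE_add w p' f g) x
      exact this
    simp only [l]
  refine (gm_mono w k8).trans ?_
  simp only [gm_add]
  rw [k2 A, k2 A', k2 Rr, k3 A, k3 A', k3 Rr]
  linarith

open Classical in
/-- **THE BAD FUNCTIONAL, ABSTRACT**: bad = too much mass of `Do β` (a functional of the pair of boxes, below the functionals `Do1`
of each box) or of `Dt`. -/
theorem rb_abs41 {κ : Type*} [DecidableEq κ] {w : X → ℝ} (bx : X → β) (I : Finset (β × β)) (hR : R.Nonempty) (hK : ∀ x y, K x y = 1 ∨ ∃ r ∈ R, v r y = v r x)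
    (K0 : ∀ x y, 0 ≤ K x y) (K1 : ∀ x y, K x y ≤ 1) (hc : ∀ r ∈ R, Crs pz (p r))
    (hv : ∀ r ∈ R, ∀ x y, p r x = p r y → v r x = v r y) {Do : β × β → X → ℝ} {Do1 : β → X → ℝ} {Dt : X → ℝ}
    (hD0 : ∀ be t, 0 ≤ Do be t) (hD1 : ∀ be t, Do be t ≤ 1) (hDl : ∀ be t, Do be t ≤ Do1 be.1 t)
    (hDr : ∀ be t, Do be t ≤ Do1 be.2 t) (hT0 : ∀ t, 0 ≤ Dt t) (hT1 : ∀ t, Dt t ≤ 1)
    (huo : ∀ b, ∀ r ∈ R, ∀ x y, v r x = v r y → cE w (p r) (Do1 b) x = cE w (p r) (Do1 b) y)
    (hut : ∀ r ∈ R, ∀ x y, v r x = v r y → cE w (p r) Dt x = cE w (p r) Dt y)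
    (c0 : ∀ x y, 0 ≤ cls x y) (c2 : ∀ x y, cls x y ≤ K x y)
    (cs : ∀ x y, cls x y = cls y x) (F0 : ∀ x, 0 ≤ F x) (F1 : ∀ x, F x ≤ 1) (hF : Mp p' F)
    {T : Finset ℤ} (hT : ∀ r ∈ R, ∀ x, v r x ∈ T) {e : X → κ} {T' : Finset κ} (hT' : ∀ x, e x ∈ T')
    {q q0 q2 : ℝ} (hq : 0 < q) (h0 : 0 < q0) (h2 : 0 ≤ q2)
    (he : ∀ x s t, e s = e t → cE w p' (UK w K (q / 3) x) s = cE w p' (UK w K (q / 3) x) t)
    {Bad : β × β → Prop} [DecidablePred Bad] (hBad : ∀ be, Bad be → q < gm w (Do be) ∨ q < gm w Dt) :
    ∑ be ∈ I, (if Bad be then gm w (fun x => (if bx x = be.1 then 1 else 0) *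
      cE w p' (fun y => cls x y * if bx y = be.2 then 1 else 0) x * F x) else 0) ≤
      2 * gm w (fun x => (if q * q0 / (3 * R.card) < cE w pz (Do1 (bx x)) x then 1 else 0) * cE w p' (cls x) x * F x) +
        2 * gm w (fun x => (if q * q0 / (3 * R.card) < cE w pz Dt x then 1 else 0) * cE w p' (cls x) x * F x) +
          gm w (fun x => (if E3 w K (q0 * q2 * (q / 3)) x then 1 else 0) * F x) +
            (2 * (R.card * (T.card * q0)) + T'.card * q0 + q2) := by
  have i0 : ∀ (P : Prop) [Decidable P], (0 : ℝ) ≤ if P then 1 else 0 := fun P _ => by split_ifs <;> norm_num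
  have c1 : ∀ x y, cls x y ≤ 1 := fun x y => (c2 x y).trans (K1 x y)
  have h := rb_split41 (w := w) (p' := p') (cls := cls) (F := F) bx I c0 c1 cs F0 F1 hF
    (Bad := Bad)
    (A := fun x => q * q0 / (3 * R.card) < cE w pz (Do1 (bx x)) x) (A' := fun x => q * q0 / (3 * R.card) < cE w pz Dt x)
    (Rr := fun x => RareJ w pz R v q0 x) (C := fun x y => q / 3 < gm w (fun t => K x t * K y t)) (by
      intro x y hb
      have mono : ∀ D : X → ℝ, (∀ t, D t ≤ 1) → q / 3 < gm w (fun t => D t * (K x t * K y t)) →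
          q / 3 < gm w (fun t => K x t * K y t) := fun D hD hlt => hlt.trans_le (gm_mono w fun t => by
        have := mul_le_mul_of_nonneg_right (hD t) (mul_nonneg (K0 x t) (K0 y t))
        linarith)
      rcases hBad _ hb with hb | hb
      · rcases join_alt41 (pz := pz) hR hK K0 hc hv (hD0 (bx x, bx y)) (hDl (bx x, bx y)) (hDr (bx x, bx y)) (huo (bx x)) (huo (bx y)) h0
          x y hb with h' | h' | h' | h' | h'
        · exact Or.inl h'
        · exact Or.inr (Or.inl h')
        · exact Or.inr (Or.inr (Or.inr (Or.inr (Or.inl h'))))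
        · exact Or.inr (Or.inr (Or.inr (Or.inr (Or.inr (Or.inl h')))))
        · exact Or.inr (Or.inr (Or.inr (Or.inr (Or.inr (Or.inr (mono _ (hD1 _) h'))))))
      · rcases join_alt41 (pz := pz) hR hK K0 hc hv hT0 (fun t => le_refl (Dt t)) (fun t => le_refl (Dt t)) hut hut h0
          x y hb with h' | h' | h' | h' | h'
        · exact Or.inr (Or.inr (Or.inl h'))
        · exact Or.inr (Or.inr (Or.inr (Or.inl h')))
        · exact Or.inr (Or.inr (Or.inr (Or.inr (Or.inl h'))))
        · exact Or.inr (Or.inr (Or.inr (Or.inr (Or.inr (Or.inl h')))))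
        · exact Or.inr (Or.inr (Or.inr (Or.inr (Or.inr (Or.inr (mono _ hT1 h')))))))
  refine h.trans ?_
  have g1 := gm_RareJ41 (w := w) (pz := pz) hT h0.le
  have g2 := gm_rare_free41 w hT' h0.le
  have g3 : gm w (fun x => F x * cE w p' (fun y => cls x y * if q / 3 < gm w (fun t => K x t * K y t) then 1 else 0) x) ≤
      q2 + gm w (fun x => if gm w (fun y => if e y = e x then 1 else 0) < q0 then 1 else 0) +
        gm w (fun x => (if E3 w K (q0 * q2 * (q / 3)) x then 1 else 0) * F x) := by
    have m : ∀ x, F x * cE w p' (fun y => cls x y * if q / 3 < gm w (fun t => K x t * K y t) then 1 else 0) x ≤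
        ((((fun _ => q2) + fun x => if gm w (fun y => if e y = e x then 1 else 0) < q0 then 1 else 0) +
          fun x => (if E3 w K (q0 * q2 * (q / 3)) x then 1 else 0) * F x) : X → ℝ) x := by
      intro x
      simp only [Pi.add_apply]
      have a1 : cE w p' (fun y => cls x y * if q / 3 < gm w (fun t => K x t * K y t) then 1 else 0) x ≤
          cE w p' (UK w K (q / 3) x) x := cE_mono w p' (fun y => by
        unfold UK
        exact mul_le_mul_of_nonneg_right (c2 x y) (i0 _)) x
      have a2 := own_E3_41 (p' := p') K0 K1 (by linarith : 0 < q / 3) h0 h2 x (he x)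
      have a3 := i0 (gm w (fun y => if e y = e x then 1 else 0) < q0)
      have a4 := mul_le_mul_of_nonneg_left (a1.trans a2) (F0 x)
      have a5 : F x * (q2 + (if gm w (fun y => if e y = e x then 1 else 0) < q0 then 1 else 0)) ≤
          1 * (q2 + (if gm w (fun y => if e y = e x then 1 else 0) < q0 then 1 else 0)) :=
        mul_le_mul_of_nonneg_right (F1 x) (by linarith)
      linarith
    refine (gm_mono w m).trans ?_
    rw [gm_add, gm_add, gm_const]
  linarith

end Bad

end Abs

end

end Pool.W7d29a1.C0.H41
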