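import Pool.Agent.W_7d29a1_C0.Lam86C
import Pool.Agent.W_7d29a1_C0.Mod92B

/-!
C0, helper86: FROM WEIGHTS WHICH ARE BLIND TO THE ROWS `J` TO WEIGHTS WHICH ARE BLIND TO FINITE CHANGES IN THE ROWS `J` (`off_fin`,
helper19's remark): glue the environment on the finite box with an independent one outside.
-/

set_option autoImplicit false

namespace Pool.Agent.W_7d29a1_C0.P86

open MeasureTheory ProbabilityTheory Filter Topology Finset
open Pool.Agent.W_7d29a1_F Pool.Agent.W_7d29a1_X Pool.Agent.W_7d29a1_h4g Pool.Agent.W_7d29a1_H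
open Pool.Agent.W_7d29a1_HS (In wd md)
open Pool.Agent.W_7d29a1_HZ Pool.Agent.W_7d29a1_HZ.R72 Pool.Agent.W_7d29a1_Z.Asm72
open Pool.Agent.W_7d29a1_HZ.Z86
open Pool.Agent.W_7d29a1_C0.Mod92 (Px Pn lw ps pJ ne_Pn ps_Pn pos_card ps_of_le ps_of_ge)
open Pool.W7d29a1.C0 (gm gz gz_pos)
open Pool.W7d29a1.C0.VT31 (Mp cE gm_mul_cE fz cE_sum)
open scoped ENNReal

variable {μ : Measure ℝ} {s : ℝ} {N : ℕ}

/-! ### The box -/

/-- The sites which the weights of length `N` see. -/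
noncomputable def bx86 (N : ℕ) : Finset Pt := Icc (0 : ℤ) N ×ˢ Icc (0 : ℤ) N

/-- The two environments coincide on the box. -/
def EqB (N : ℕ) (η η' : Env) : Prop := ∀ q ∈ bx86 N, η q = η' q

theorem pth_box {η η' : Env} (h : EqB N η η') (S : Finset ℕ) : pth μ s η N S = pth μ s η' N S := by
  unfold pth
  congr 1
  refine prod_congr rfl fun i hi => ?_
  congr 1
  refine h _ ?_
  have h1 := pos_nonneg S (i + 1)
  have h2 := pos_le S (i + 1)
  rw [mem_range] at hi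
  unfold bx86
  rw [mem_product, mem_Icc, mem_Icc]
  push_cast at h2
  refine ⟨⟨?_, ?_⟩, h1, ?_⟩
  · show (0 : ℤ) ≤ (i : ℤ) + 1
    omega
  · show (i : ℤ) + 1 ≤ N
    omega
  · show pos S (i + 1) ≤ N
    omega

theorem lw_box {Q : Finset (Finset ℕ)} {η η' : Env} (h : EqB N η η') : lw μ s η N Q = lw μ s η' N Q := by
  funext x
  unfold lw
  rw [pth_box h]

theorem gp_box {y : ℤ} {η η' : Env} (h : EqB N η η') (S : Finset ℕ) : gp μ s η N y S = gp μ s η' N y S := by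
  unfold gp
  rw [pth_box h, Pool.Agent.W_7d29a1_HZ.Z86.W_eq_sum, Pool.Agent.W_7d29a1_HZ.Z86.W_eq_sum]
  simp only [pth_box h]

theorem mc_box {c d y : ℕ} {A : Finset ℕ → Finset ℕ → Prop} {η η' : Env} (h : EqB N η η') (S : Finset ℕ) :
    mc μ s N y c d A η S = mc μ s N y c d A η' S := by
  unfold mc
  rw [lw_box h]

/-! ### Gluing -/

open Classical in
/-- The environment `η` on the box, `ζ` outside. -/
noncomputable def glu (N : ℕ) (η ζ : Env) : Env := fun p => if p ∈ (↑(bx86 N) : Set Pt) then η p else ζ p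

theorem glu_box (η ζ : Env) : EqB N (glu N η ζ) η := by
  intro q hq
  unfold glu
  rw [if_pos (mem_coe.2 hq)]

theorem glu_meas : Measurable fun p : Env × Env => glu N p.1 p.2 := by
  classical
  exact CoreB3_meas (↑(bx86 N) : Set Pt)

theorem glu_mp [IsProbabilityMeasure μ] : MeasurePreserving (fun p : Env × Env => glu N p.1 p.2) ((law μ).prod (law μ)) (law μ) := by
  classical
  exact mp_glue (↑(bx86 N) : Set Pt)

/-- The function does not change under finite changes in the rows `J`. -/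
def OffF (J : Finset ℕ) (f : Env → Finset ℕ → ℝ≥0∞) : Prop :=
  ∀ (η η' : Env) (S : Finset ℕ), (∃ E : Finset Pt, (∀ q ∈ E, 0 ≤ q.1 ∧ q.1.toNat ∈ J) ∧ ∀ q, q ∉ E → η q = η' q) → f η S = f η' S

theorem OffW.toF {J : Finset ℕ} {f : Env → Finset ℕ → ℝ≥0∞} (h : OffW J f) : OffF J f := by
  rintro η η' S ⟨E, hE, hq⟩
  exact h η η' S fun q hn => hq q fun hqE => hn (hE q hqE)

theorem OffF.glu {J : Finset ℕ} {f : Env → Finset ℕ → ℝ≥0∞} (h : OffF J f) (ζ : Env) : OffW J fun η S => f (glu N η ζ) S := by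
  classical
  intro η η' S hq
  refine h _ _ S ⟨(bx86 N).filter fun q => 0 ≤ q.1 ∧ q.1.toNat ∈ J, fun q hqE => (mem_filter.1 hqE).2, fun q hqE => ?_⟩
  unfold P86.glu
  by_cases hb : q ∈ (↑(bx86 N) : Set Pt)
  · rw [if_pos hb, if_pos hb]
    exact hq q fun hn => hqE (mem_filter.2 ⟨mem_coe.1 hb, hn⟩)
  · rw [if_neg hb, if_neg hb]

variable [IsProbabilityMeasure μ]

theorem Q1_glu {y : ℤ} {f H : Env → Finset ℕ → ℝ≥0∞} (hf : ∀ S, Measurable fun η => f η S) (hH : ∀ S, Measurable fun η => H η S)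
    (hHb : ∀ η η' S, EqB N η η' → H η S = H η' S) :
    Q1 μ s N y (fun η S => f η S * H η S) = ∫⁻ ζ, Q1 μ s N y (fun η S => f (glu N η ζ) S * H η S) ∂law μ := by
  have hm : Measurable fun η : Env => ∑ S ∈ (range N).powerset, ENNReal.ofReal (gp μ s η N y S) * (f η S * H η S) :=
    Finset.measurable_sum _ fun S _ => (Pool.Agent.W_7d29a1_HZ.measurable_gp N y S).ennreal_ofReal.mul ((hf S).mul (hH S))
  have hmg : Measurable fun p : Env × Env => ∑ S ∈ (range N).powerset, ENNReal.ofReal (gp μ s (glu N p.1 p.2) N y S) *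
      (f (glu N p.1 p.2) S * H (glu N p.1 p.2) S) := hm.comp glu_meas
  unfold Q1
  rw [← (glu_mp (μ := μ) (N := N)).lintegral_comp hm, lintegral_prod_symm' _ hmg]
  refine lintegral_congr fun ζ => lintegral_congr fun η => sum_congr rfl fun S _ => ?_
  rw [gp_box (glu_box η ζ), hHb _ _ S (glu_box η ζ)]

/-- **FROM `OffW` TO `OffF`.** -/
theorem off_fin {y : ℤ} {H : Env → Finset ℕ → ℝ≥0∞} (hH : ∀ S, Measurable fun η => H η S)
    (hHb : ∀ η η' S, EqB N η η' → H η S = H η' S) {R e : ℝ≥0∞} {I : Set (Finset ℕ)}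
    (h : ∀ f : Env → Finset ℕ → ℝ≥0∞, (∀ S, Measurable fun η => f η S) → (∀ η S, f η S ≤ 1) → (∀ J ∈ I, OffW J f) →
      Q1 μ s N y (fun η S => f η S * H η S) ≤ R * Q1 μ s N y f + e) :
    ∀ f : Env → Finset ℕ → ℝ≥0∞, (∀ S, Measurable fun η => f η S) → (∀ η S, f η S ≤ 1) → (∀ J ∈ I, OffF J f) →
      Q1 μ s N y (fun η S => f η S * H η S) ≤ R * Q1 μ s N y f + e := by
  intro f hf hf1 hfo
  have hg : ∀ ζ : Env, Measurable fun η : Env => glu N η ζ := fun ζ => glu_meas.comp (measurable_id.prodMk measurable_const)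
  have e1 := Q1_glu (μ := μ) (s := s) (N := N) (y := y) hf hH hHb
  have e2 := Q1_glu (μ := μ) (s := s) (N := N) (y := y) (H := fun _ _ => 1) hf (fun _ => measurable_const) (fun _ _ _ _ => rfl)
  simp only [mul_one] at e2
  have hm : Measurable fun ζ : Env => Q1 μ s N y (fun η S => f (glu N η ζ) S) := by
    unfold Q1
    refine Measurable.lintegral_prod_left' (f := fun p : Env × Env => ∑ S ∈ (range N).powerset, ENNReal.ofReal (gp μ s p.1 N y S) *
      f (glu N p.1 p.2) S) ?_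
    exact Finset.measurable_sum _ fun S _ => ((Pool.Agent.W_7d29a1_HZ.measurable_gp N y S).ennreal_ofReal.comp measurable_fst).mul
      ((hf S).comp glu_meas)
  have e3 : Q1 μ s N y f = ∫⁻ ζ, Q1 μ s N y (fun η S => f (glu N η ζ) S) ∂law μ := e2
  rw [e1, e3]
  calc ∫⁻ ζ, Q1 μ s N y (fun η S => f (glu N η ζ) S * H η S) ∂law μ
      ≤ ∫⁻ ζ, (R * Q1 μ s N y (fun η S => f (glu N η ζ) S) + e) ∂law μ := by
        refine lintegral_mono fun ζ => ?_
        exact h (fun η S => f (glu N η ζ) S) (fun S => (hf S).comp (hg ζ)) (fun η S => hf1 _ _) fun J hJ => (hfo J hJ).glu ζ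
    _ = R * ∫⁻ ζ, Q1 μ s N y (fun η S => f (glu N η ζ) S) ∂law μ + e := by
        rw [lintegral_add_right _ measurable_const, lintegral_const, measure_univ, mul_one, lintegral_const_mul _ hm]

/-! ### The general price -/

omit [IsProbabilityMeasure μ] in
theorem mc_meas86 {c d y : ℕ} (A : Finset ℕ → Finset ℕ → Prop) (S : Finset ℕ) : Measurable fun η : Env => mc μ s N y c d A η S := by
  classical
  unfold mc
  by_cases hS : S ∈ Pn N y
  · simp only [dif_pos hS]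
    have : Nonempty (Px (Pn N y)) := ⟨⟨S, hS⟩⟩
    have h := Pool.Agent.W_7d29a1_C0.Mod92.meas_cE (Ω := Env) (X := Px (Pn N y)) (w := fun η => Mod92.lw μ s η N (Pn N y))
      (f := fun _ S' => if A S S'.1 then (1 : ℝ) else 0) (fun x => Pool.Agent.W_7d29a1_C0.Mod92.meas_lw x) (fun x => measurable_const)
      (pJ c d) ⟨S, hS⟩
    exact h
  · simp only [dif_neg hS]
    exact measurable_const

variable {c₀ C₀ : ℝ} {n₀ : ℕ}

/-- **THE GENERAL PRICE**, the weight is blind to finite changes only. -/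
theorem lam86MF (h : In μ s c₀ C₀ n₀) (k : ℕ) (hk : k ≤ 8) : ∀ ε θ : ℝ, 0 < ε → 0 < θ → ∃ δ κ c₂ : ℝ, 0 < δ ∧ 0 < κ ∧ 0 < c₂ ∧ ∃ L₀ : ℕ,
    ∀ L : ℕ, L₀ ≤ L → ∀ N : ℕ, L ≤ 16 * N → N ≤ L → ∀ y : ℕ, y ≤ N → |(y : ℝ) - sl μ s * N| ≤ ((L : ℝ) ^ δ * wd' μ s N) →
    ∀ c d c' d' U V l M : Fin k → ℕ, (∀ i, c i ≤ c' i ∧ c' i ≤ U i ∧ U i ≤ V i ∧ V i ≤ d' i ∧ d' i ≤ d i ∧ d i ≤ N) →
    (∀ i, (L : ℝ) ^ θ ≤ l i) → ∀ u v : Fin k → ℕ → ℕ, (∀ i n, n < M i → U i ≤ u i n ∧ u i n + l i ≤ v i n ∧ v i n ≤ V i) →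
    (∀ i, (M i : ℝ) ≤ (L : ℝ) ^ κ ∧ M i ≤ L) → ∀ Jf : Fin k → Finset ℕ,
    (∀ i, (Jf i = Ioo (c' i) (d' i) ∧ ∀ i', i < i' → d' i ≤ c' i' ∨ d' i' ≤ c' i ∨
        ((d' i' ≤ U i ∨ V i ≤ c' i') ∧ 4 * (d' i' - c' i') ≤ l i)) ∨
      (Jf i = Ioo (U i) (d' i) ∧ ∀ i', i < i' → d' i' ≤ U i ∨ d' i ≤ c' i') ∨
      (Jf i = Ioo (c' i) (V i) ∧ ∀ i', i < i' → V i ≤ c' i' ∨ d' i' ≤ c' i)) →
    ∀ A : Fin k → Finset ℕ → Finset ℕ → Prop,
    (∀ i S S', S ⊆ range N → S' ⊆ range N → pos S N = y → pos S' N = y → (∀ j, j ≤ c i ∨ d i ≤ j → pos S j = pos S' j) →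
      A i S S' → ∃ n < M i, Gap (c' i) (d' i) (u i n) (v i n) S S') →
    ∀ g : Fin k → Env → Finset ℕ → ℝ≥0∞, (∀ i η S, g i η S ≤ 1) →
    (∀ i η S, g i η S ≤ ENNReal.ofReal (Real.exp ((L : ℝ) ^ κ)) * ENNReal.ofReal (mc μ s N y (c i) (d i) (A i) η S)) →
    ∀ f : Env → Finset ℕ → ℝ≥0∞, (∀ S, Measurable fun η => f η S) → (∀ η S, f η S ≤ 1) → (∀ i, OffF (Jf i) f) →
    Q1 μ s N y (fun η S => f η S * ∏ i, g i η S) ≤
      (∏ i, ENNReal.ofReal ((L : ℝ) ^ ε * (EE' μ s (l i))⁻¹)) * Q1 μ s N y f + ENNReal.ofReal (Real.exp (-(L : ℝ) ^ c₂)) := by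
  intro ε θ hε hθ
  obtain ⟨δ, κ, c₂, hδ, hκ, hc₂, L₀, hP⟩ := lam86M h k hk ε θ hε hθ
  refine ⟨δ, κ, c₂, hδ, hκ, hc₂, L₀, ?_⟩
  intro L hL N hLN hNL y hyN hyc c d c' d' U V l M hblk hlen u v huv hMn Jf hT A hA g hg1 hgm f hf hf1 hfo
  obtain ⟨m, hm⟩ : ∃ m : Fin k → Env → Finset ℕ → ℝ≥0∞, m = fun i η S =>
    min 1 (ENNReal.ofReal (Real.exp ((L : ℝ) ^ κ)) * ENNReal.ofReal (mc μ s N y (c i) (d i) (A i) η S)) := ⟨_, rfl⟩
  have h1 : Q1 μ s N y (fun η S => f η S * ∏ i, g i η S) ≤ Q1 μ s N y (fun η S => f η S * ∏ i, m i η S) := by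
    refine Q1_mono fun η S _ _ => mul_le_mul' le_rfl (prod_le_prod' fun i _ => ?_)
    rw [hm]
    exact le_min (hg1 i η S) (hgm i η S)
  refine h1.trans (off_fin (H := fun η S => ∏ i, m i η S) (I := Set.range Jf) (fun S => ?_) (fun η η' S hq => ?_) (fun f hf hf1 hfo => ?_) f hf
    hf1 ?_)
  · refine Finset.measurable_prod _ fun i _ => ?_
    rw [hm]
    exact measurable_const.min (measurable_const.mul (mc_meas86 (A i) S).ennreal_ofReal)
  · refine prod_congr rfl fun i _ => ?_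
    rw [hm]
    simp only [mc_box hq]
  · refine hP L hL N hLN hNL y hyN hyc c d c' d' U V l M hblk hlen u v huv hMn Jf hT A hA m (fun i η S => ?_) (fun i η S => ?_) f hf hf1
      (fun i => hfo _ ⟨i, rfl⟩)
    · rw [hm]
      exact min_le_left _ _
    · rw [hm]
      exact min_le_right _ _
  · rintro _ ⟨i, rfl⟩
    exact hfo i

/-- From single sites to finite changes. -/
theorem fin_of_upd {α : Type*} {φ : Env → α} {P : Pt → Prop} (h : ∀ (η : Env) (q : Pt) (u : ℝ), P q → φ (Function.update η q u) = φ η)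
    {E : Finset Pt} : ∀ {η η' : Env}, (∀ q ∈ E, P q) → (∀ q, q ∉ E → η q = η' q) → φ η = φ η' := by
  classical
  induction E using Finset.induction_on with
  | empty =>
    intro η η' _ hq
    congr 1
    funext q
    exact hq q (notMem_empty q)
  | insert a E ha ih =>
    intro η η' hE hq
    rw [← h η a (η' a) (hE a (mem_insert_self a E))]
    refine ih (fun q hqE => hE q (mem_insert_of_mem hqE)) fun q hqE => ?_
    by_cases hqa : q = a
    · rw [hqa, Function.update_self]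
    · rw [Function.update_of_ne hqa]
      exact hq q fun hn => (mem_insert.1 hn).elim hqa hqE

end Pool.Agent.W_7d29a1_C0.P86
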