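import Pool.Agent.W_7d29a1_C0.Two86
import Pool.Agent.W_7d29a1_C0.Glue86

/-!
C0, helper86: THE GENERAL PRICES FOR WEIGHTS WHICH ARE BLIND TO FINITE CHANGES ONLY (`OffF`): `tauQF`, `tauIF`, `price_listF`, `lamListF`,
`price_twoF`: the statements without `F` with the weaker hypothesis on the weight `f`.
-/

set_option autoImplicit false

namespace Pool.Agent.W_7d29a1_C0.P86

open MeasureTheory ProbabilityTheory Filter Topology Finset
open Pool.Agent.W_7d29a1_F Pool.Agent.W_7d29a1_X Pool.Agent.W_7d29a1_h4g Pool.Agent.W_7d29a1_H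
open Pool.Agent.W_7d29a1_HS (In wd md)
open Pool.Agent.W_7d29a1_HZ Pool.Agent.W_7d29a1_HZ.R72 Pool.Agent.W_7d29a1_Z.Asm72
open Pool.Agent.W_7d29a1_HZ.Z86
open Pool.Agent.W_7d29a1_C0.Mod92 (Px Pn lw ps pJ ne_Pn ps_Pn pos_card ps_of_le ps_of_ge wm Pm meas_lw meas_cE meas_gz meas_gm int_Pm)
open Pool.Agent.W_7d29a1_C0.Swap57 (NI cE2)
open Pool.W7d29a1.C0 (gm gz gz_pos gm_nonneg gm_mono gm_const)
open Pool.W7d29a1.C0.VT31 (Mp cE gm_mul_cE fz cE_sum)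
open Pool.W7d29a1.C0.R43 (Tau Rp mI st swP_pJ tau_rp)
open scoped ENNReal

variable {μ : Measure ℝ} {s : ℝ} {N : ℕ} [IsProbabilityMeasure μ] {c₀ C₀ : ℝ} {n₀ : ℕ}

/-- **THE GENERAL PRICE WITH ROBUST EVENTS**, `Q1` form, finite changes. -/
theorem tauQF (h : In μ s c₀ C₀ n₀) (k : ℕ) (hk : k ≤ 8) : ∀ ε θ : ℝ, 0 < ε → 0 < θ → ∃ δ κ c₂ : ℝ, 0 < δ ∧ 0 < κ ∧ 0 < c₂ ∧ ∃ L₀ : ℕ,
    ∀ L : ℕ, L₀ ≤ L → ∀ N : ℕ, L ≤ 16 * N → N ≤ L → ∀ y : ℕ, y ≤ N → |(y : ℝ) - sl μ s * N| ≤ ((L : ℝ) ^ δ * wd' μ s N) →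
    ∀ c d c' d' U V l : Fin k → ℕ, (∀ i, c i ≤ c' i ∧ c' i ≤ U i ∧ U i ≤ V i ∧ V i ≤ d' i ∧ d' i ≤ d i ∧ d i ≤ N) →
    (∀ i, (L : ℝ) ^ θ ≤ l i) → ∀ (T : Fin k → Prop) (Jf : Fin k → Finset ℕ),
    (∀ i, (Jf i = Ioo (c' i) (d' i) ∧ ∀ i', i < i' → d' i ≤ c' i' ∨ d' i' ≤ c' i ∨
        (¬ T i ∧ (d' i' ≤ U i ∨ V i ≤ c' i') ∧ 4 * (d' i' - c' i') ≤ l i)) ∨
      (Jf i = Ioo (U i) (d' i) ∧ ∀ i', i < i' → d' i' ≤ U i ∨ d' i ≤ c' i') ∨
      (Jf i = Ioo (c' i) (V i) ∧ ∀ i', i < i' → V i ≤ c' i' ∨ d' i' ≤ c' i)) →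
    ∀ M : ℝ, 8 ≤ M → M ≤ (L : ℝ) ^ κ →
    ∀ g : Fin k → Env → Finset ℕ → ℝ≥0∞, (∀ i η S, g i η S ≤ 1) →
    (∀ i, ¬ T i → ∃ (A : Finset ℕ → Finset ℕ → Prop) (n₁ : ℕ) (u v : ℕ → ℕ), (n₁ : ℝ) ≤ (L : ℝ) ^ κ ∧
      (∀ n < n₁, U i ≤ u n ∧ u n + l i ≤ v n ∧ v n ≤ V i) ∧
      (∀ S S', S ⊆ range N → S' ⊆ range N → pos S N = y → pos S' N = y → (∀ j, j ≤ c i ∨ d i ≤ j → pos S j = pos S' j) →
        A S S' → ∃ n < n₁, Gap (c' i) (d' i) (u n) (v n) S S') ∧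
      ∀ η S, g i η S ≤ ENNReal.ofReal (Real.exp ((L : ℝ) ^ κ)) * ENNReal.ofReal (mc μ s N y (c i) (d i) A η S)) →
    (∀ i, T i → c' i = c i ∧ d' i = d i ∧ U i + l i ≤ V i ∧
      ∀ η S, ¬ TauS μ s N y (c i) (d i) (U i) (V i) M η S → g i η S ≤ ENNReal.ofReal (Real.exp (-M))) →
    ∀ f : Env → Finset ℕ → ℝ≥0∞, (∀ S, Measurable fun η => f η S) → (∀ η S, f η S ≤ 1) → (∀ i, OffF (Jf i) f) →
    Q1 μ s N y (fun η S => f η S * ∏ i, g i η S) ≤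
      (∏ i, ENNReal.ofReal ((L : ℝ) ^ ε * (EE' μ s (l i))⁻¹)) * Q1 μ s N y f + ENNReal.ofReal (Real.exp (-(L : ℝ) ^ c₂)) +
        2 * k * ENNReal.ofReal (Real.exp (-M)) := by
  intro ε θ hε hθ
  obtain ⟨δ, κ₁, c₂, hδ, hκ₁, hc₂, L₁, hP⟩ := lam86MF h k hk (ε / 2) (θ / 2) (by positivity) (by positivity)
  obtain ⟨κ, hκd⟩ : ∃ κ, κ = min (κ₁ / 2) (min (ε / 4) (min (θ / 4) (1 / 2))) := ⟨_, rfl⟩
  have hκ : 0 < κ := by
    rw [hκd]
    refine lt_min (by positivity) (lt_min (by positivity) (lt_min (by positivity) (by norm_num)))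
  have k1 : κ < κ₁ := by
    have : κ ≤ κ₁ / 2 := by rw [hκd]; exact min_le_left _ _
    linarith
  have k2 : κ < ε / 2 := by
    have : κ ≤ ε / 4 := by rw [hκd]; exact (min_le_right _ _).trans (min_le_left _ _)
    linarith
  have k3 : κ < θ / 2 := by
    have : κ ≤ θ / 4 := by rw [hκd]; exact (min_le_right _ _).trans ((min_le_right _ _).trans (min_le_left _ _))
    linarith
  have k4 : κ < 1 := by
    have : κ ≤ 1 / 2 := by rw [hκd]; exact (min_le_right _ _).trans ((min_le_right _ _).trans (min_le_right _ _))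
    linarith
  obtain ⟨L₂, hNum⟩ := tau_num hκ k1 k2 k3 k4 hθ
  refine ⟨δ, κ, c₂, hδ, hκ, hc₂, L₁ + L₂ + 1, ?_⟩
  intro L hL N hLN hNL y hyN hyc c d c' d' U V l hblk hl T Jf hT M hM hML g hg1 hg hτ f hf hf1 hfo
  classical
  have hL1 : (1 : ℝ) ≤ L := by exact_mod_cast (show 1 ≤ L by omega)
  have hpk : (L : ℝ) ^ κ ≤ (L : ℝ) ^ κ₁ := Real.rpow_le_rpow_of_exponent_le hL1 k1.le
  have hpt : (L : ℝ) ^ (θ / 2) ≤ (L : ℝ) ^ θ := Real.rpow_le_rpow_of_exponent_le hL1 (by linarith)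
  have hpe : (L : ℝ) ^ (ε / 2) ≤ (L : ℝ) ^ ε := Real.rpow_le_rpow_of_exponent_le hL1 (by linarith)
  have hL01 : (L : ℝ) ^ κ ≤ L := (Real.rpow_le_rpow_of_exponent_le hL1 k4.le).trans_eq (Real.rpow_one _)
  obtain ⟨q, hq⟩ : ∃ q, q = ⌈10 * M⌉₊ := ⟨_, rfl⟩
  have hnum := fun i => hNum L (by omega) M hM hML (l i) (hl i)
  rw [← hq] at hnum
  obtain ⟨l', hl'⟩ : ∃ l' : Fin k → ℕ, l' = fun i => if T i then l i / (3 * q) - 1 else l i := ⟨_, rfl⟩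
  have hlT : ∀ i, T i → l' i = l i / (3 * q) - 1 := fun i hi => by rw [hl']; exact if_pos hi
  have hlN : ∀ i, ¬ T i → l' i = l i := fun i hi => by rw [hl']; exact if_neg hi
  obtain ⟨t, ht⟩ : ∃ t : Fin k → Env → Finset ℕ → ℝ≥0∞, t = fun i η S =>
    if T i then ind (TauS μ s N y (c i) (d i) (U i) (V i) M η S) else g i η S := ⟨_, rfl⟩
  obtain ⟨r, hr⟩ : ∃ r : Fin k → Env → Finset ℕ → ℝ≥0∞, r = fun i η S =>
    if T i then ind (RpS μ s N y (c i) (d i) (U i) (l' i) q M η S) else g i η S := ⟨_, rfl⟩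
  have ht1 : ∀ i η S, t i η S ≤ 1 := by
    intro i η S
    rw [ht]
    by_cases hi : T i
    · simp only [if_pos hi]
      exact ind_le _
    · simp only [if_neg hi]
      exact hg1 i η S
  have hr1 : ∀ i η S, r i η S ≤ 1 := by
    intro i η S
    rw [hr]
    by_cases hi : T i
    · simp only [if_pos hi]
      exact ind_le _
    · simp only [if_neg hi]
      exact hg1 i η S
  have s1 := Q1_replace (μ := μ) (s := s) (N := N) (y := y) hf1 hg1 ht1 (e := fun i => ENNReal.ofReal (Real.exp (-M))) fun i F hF => by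
    refine Q1_add_err hyN hF fun η S => ?_
    by_cases hi : T i
    · rw [ht]
      simp only [if_pos hi]
      by_cases hτS : TauS μ s N y (c i) (d i) (U i) (V i) M η S
      · rw [ind_of hτS]
        exact (hg1 i η S).trans le_self_add
      · exact ((hτ i hi).2.2.2 η S hτS).trans le_add_self
    · rw [ht]
      simp only [if_neg hi]
      exact le_self_add
  have s2 := Q1_replace (μ := μ) (s := s) (N := N) (y := y) hf1 ht1 hr1 (e := fun i => ENNReal.ofReal (Real.exp (-M))) fun i F hF => by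
    by_cases hi : T i
    · have h1 := tau_Q1 (μ := μ) (s := s) (N := N) hyN (show c i ≤ d i by have := hblk i; omega) (U i) (l' i) q hM (hnum i).1
        (hnum i).2.1 (E := V i) (by
          have h2 := (hnum i).2.2.1
          rw [← hlT i hi] at h2
          have h3 := (hτ i hi).2.2.1
          omega) hF
      rw [ht, hr]
      simp only [if_pos hi]
      exact h1
    · rw [ht, hr]
      simp only [if_neg hi]
      exact le_self_add
  have s3 : Q1 μ s N y (fun η S => f η S * ∏ i, r i η S) ≤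
      (∏ i, ENNReal.ofReal ((L : ℝ) ^ (ε / 2) * (EE' μ s (l' i))⁻¹)) * Q1 μ s N y f + ENNReal.ofReal (Real.exp (-(L : ℝ) ^ c₂)) := by
    have hX : ∀ i, ∃ (A : Finset ℕ → Finset ℕ → Prop) (n₁ : ℕ) (u v : ℕ → ℕ), ((n₁ : ℝ) ≤ (L : ℝ) ^ κ₁ ∧ n₁ ≤ L) ∧
        (∀ n < n₁, U i ≤ u n ∧ u n + l' i ≤ v n ∧ v n ≤ V i) ∧
        (∀ S S', S ⊆ range N → S' ⊆ range N → pos S N = y → pos S' N = y → (∀ j, j ≤ c i ∨ d i ≤ j → pos S j = pos S' j) →
          A S S' → ∃ n < n₁, Gap (c' i) (d' i) (u n) (v n) S S') ∧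
        ∀ η S, r i η S ≤ ENNReal.ofReal (Real.exp ((L : ℝ) ^ κ₁)) * ENNReal.ofReal (mc μ s N y (c i) (d i) A η S) := by
      intro i
      by_cases hi : T i
      · obtain ⟨hc, hd, hUV, -⟩ := hτ i hi
        obtain ⟨-, -, n3, n4, n5, n6, n7, -, -⟩ := hnum i
        rw [← hlT i hi] at n3 n4
        refine ⟨NMp (U i) (l' i) q, 3 * q, fun n => st (U i) (l' i) n, fun n => st (U i) (l' i) n + l' i, ⟨n5, n6⟩,
          fun n hn => ?_, fun S S' _ _ _ _ hag hm => ?_, fun η S => ?_⟩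
        · have e1 : (n + 1) * (l' i + 1) ≤ 3 * q * (l' i + 1) := Nat.mul_le_mul_right _ (by omega)
          have e2 : st (U i) (l' i) n + (l' i + 1) = U i + (n + 1) * (l' i + 1) := by
            unfold st
            ring
          have e3 : U i ≤ st (U i) (l' i) n := by
            unfold st
            exact Nat.le_add_right _ _
          show U i ≤ st (U i) (l' i) n ∧ st (U i) (l' i) n + l' i ≤ st (U i) (l' i) n + l' i ∧ st (U i) (l' i) n + l' i ≤ V i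
          omega
        · obtain ⟨n, hn, hm⟩ := hm
          refine ⟨n, hn, ?_⟩
          have e1 : (n + 1) * (l' i + 1) ≤ 3 * q * (l' i + 1) := Nat.mul_le_mul_right _ (by omega)
          have e2 : st (U i) (l' i) n + (l' i + 1) = U i + (n + 1) * (l' i + 1) := by
            unfold st
            ring
          have e3 : U i ≤ st (U i) (l' i) n := by
            unfold st
            exact Nat.le_add_right _ _
          rw [hc, hd]
          have := hblk i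
          show Gap (c i) (d i) (st (U i) (l' i) n) (st (U i) (l' i) n + l' i) S S'
          exact gap_of_nm (by omega) (by omega) hag hm
        · rw [hr]
          simp only [if_pos hi]
          refine (rp_mc η S).trans (mul_le_mul' (ENNReal.ofReal_le_ofReal (Real.exp_le_exp.2 n7)) le_rfl)
      · obtain ⟨A, n₁, u, v, a1, a2, a3, a4⟩ := hg i hi
        refine ⟨A, n₁, u, v, ⟨a1.trans hpk, ?_⟩, fun n hn => ?_, a3, fun η S => ?_⟩
        · have : (n₁ : ℝ) ≤ L := a1.trans hL01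
          exact_mod_cast this
        · rw [hlN i hi]
          exact a2 n hn
        · rw [hr]
          simp only [if_neg hi]
          exact (a4 η S).trans (mul_le_mul' (ENNReal.ofReal_le_ofReal (Real.exp_le_exp.2 hpk)) le_rfl)
    choose A n₁ u v hX1 hX2 hX3 hX4 using hX
    refine hP L (by omega) N hLN hNL y hyN hyc c d c' d' U V l' n₁ hblk (fun i => ?_) u v hX2 hX1 Jf (fun i => ?_) A hX3 r hr1
      hX4 f hf hf1 hfo
    · by_cases hi : T i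
      · rw [hlT i hi]
        exact (hnum i).2.2.2.1
      · rw [hlN i hi]
        exact hpt.trans (hl i)
    · rcases hT i with ⟨h1, h2⟩ | h1 | h1
      · refine Or.inl ⟨h1, fun i' hi' => ?_⟩
        rcases h2 i' hi' with g1 | g1 | ⟨g0, g1⟩
        · exact Or.inl g1
        · exact Or.inr (Or.inl g1)
        · refine Or.inr (Or.inr ?_)
          rw [hlN i g0]
          exact g1
      · exact Or.inr (Or.inl h1)
      · exact Or.inr (Or.inr h1)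
  have s4 : ∀ i, ENNReal.ofReal ((L : ℝ) ^ (ε / 2) * (EE' μ s (l' i))⁻¹) ≤ ENNReal.ofReal ((L : ℝ) ^ ε * (EE' μ s (l i))⁻¹) := by
    intro i
    refine ENNReal.ofReal_le_ofReal ?_
    have hE : ∀ n, (0 : ℝ) < EE' μ s n := fun n => lt_of_lt_of_le one_pos (le_max_left _ _)
    have hLp : 0 ≤ (L : ℝ) ^ (ε / 2) := Real.rpow_nonneg (by linarith) _
    by_cases hi : T i
    · obtain ⟨n1, -, -, -, -, -, -, n8, n9⟩ := hnum i
      have hq0 : 1 ≤ 9 * q := by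
        have : (0 : ℝ) < q := by linarith
        have : 0 < q := by exact_mod_cast this
        omega
      have e1 : EE' μ s (l i) ≤ ((9 * q : ℕ) : ℝ) * EE' μ s (l' i) := by
        refine EE'_le_mul86 h hq0 ?_
        rw [hlT i hi]
        exact n8
      have e2 : (EE' μ s (l' i))⁻¹ ≤ ((9 * q : ℕ) : ℝ) * (EE' μ s (l i))⁻¹ := by
        rw [inv_le_iff_one_le_mul₀ (hE _), mul_assoc]
        have : (EE' μ s (l i))⁻¹ * EE' μ s (l i) = 1 := inv_mul_cancel₀ (hE _).ne'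
        calc (1 : ℝ) = (EE' μ s (l i))⁻¹ * EE' μ s (l i) := this.symm
          _ ≤ (EE' μ s (l i))⁻¹ * (((9 * q : ℕ) : ℝ) * EE' μ s (l' i)) := mul_le_mul_of_nonneg_left e1 (inv_nonneg.2 (hE _).le)
          _ = _ := by ring
      calc (L : ℝ) ^ (ε / 2) * (EE' μ s (l' i))⁻¹ ≤ (L : ℝ) ^ (ε / 2) * (((9 * q : ℕ) : ℝ) * (EE' μ s (l i))⁻¹) :=
            mul_le_mul_of_nonneg_left e2 hLp
        _ ≤ (L : ℝ) ^ (ε / 2) * ((L : ℝ) ^ (ε / 2) * (EE' μ s (l i))⁻¹) :=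
            mul_le_mul_of_nonneg_left (mul_le_mul_of_nonneg_right n9 (inv_nonneg.2 (hE _).le)) hLp
        _ = (L : ℝ) ^ ε * (EE' μ s (l i))⁻¹ := by
            rw [← mul_assoc, ← Real.rpow_add (by linarith), add_halves]
    · rw [hlN i hi]
      exact mul_le_mul_of_nonneg_right hpe (inv_nonneg.2 (hE _).le)
  refine s1.trans ((add_le_add (s2.trans (add_le_add (s3.trans (add_le_add (mul_le_mul' (prod_le_prod' fun i _ => s4 i) le_rfl) le_rfl))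
    le_rfl)) le_rfl).trans (le_of_eq ?_))
  rw [sum_const, card_univ, Fintype.card_fin, nsmul_eq_mul]
  ring

/-- **THE GENERAL PRICE WITH ROBUST EVENTS**, model form, finite changes. -/
theorem tauIF (h : In μ s c₀ C₀ n₀) (k : ℕ) (hk : k ≤ 8) : ∀ ε θ : ℝ, 0 < ε → 0 < θ → ∃ δ κ c₂ : ℝ, 0 < δ ∧ 0 < κ ∧ 0 < c₂ ∧ ∃ L₀ : ℕ,
    ∀ L : ℕ, L₀ ≤ L → ∀ N : ℕ, L ≤ 16 * N → N ≤ L → ∀ y : ℕ, y ≤ N → |(y : ℝ) - sl μ s * N| ≤ ((L : ℝ) ^ δ * wd' μ s N) →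
    ∀ c d c' d' U V l : Fin k → ℕ, (∀ i, c i ≤ c' i ∧ c' i ≤ U i ∧ U i ≤ V i ∧ V i ≤ d' i ∧ d' i ≤ d i ∧ d i ≤ N) →
    (∀ i, (L : ℝ) ^ θ ≤ l i) → ∀ (T : Fin k → Prop) (Jf : Fin k → Finset ℕ),
    (∀ i, (Jf i = Ioo (c' i) (d' i) ∧ ∀ i', i < i' → d' i ≤ c' i' ∨ d' i' ≤ c' i ∨
        (¬ T i ∧ (d' i' ≤ U i ∨ V i ≤ c' i') ∧ 4 * (d' i' - c' i') ≤ l i)) ∨
      (Jf i = Ioo (U i) (d' i) ∧ ∀ i', i < i' → d' i' ≤ U i ∨ d' i ≤ c' i') ∨
      (Jf i = Ioo (c' i) (V i) ∧ ∀ i', i < i' → V i ≤ c' i' ∨ d' i' ≤ c' i)) →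
    ∀ M : ℝ, 8 ≤ M → M ≤ (L : ℝ) ^ κ →
    ∀ G : Fin k → Env × Finset ℕ → Px (Pn N y) → ℝ, (∀ i ω x, 0 ≤ G i ω x) → (∀ i ω x, G i ω x ≤ 1) →
    (∀ i, ¬ T i → ∃ (A : Finset ℕ → Finset ℕ → Prop) (n₁ : ℕ) (u v : ℕ → ℕ), (n₁ : ℝ) ≤ (L : ℝ) ^ κ ∧
      (∀ n < n₁, U i ≤ u n ∧ u n + l i ≤ v n ∧ v n ≤ V i) ∧
      (∀ S S', S ⊆ range N → S' ⊆ range N → pos S N = y → pos S' N = y → (∀ j, j ≤ c i ∨ d i ≤ j → pos S j = pos S' j) →
        A S S' → ∃ n < n₁, Gap (c' i) (d' i) (u n) (v n) S S') ∧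
      ∀ ω x, G i ω x ≤ Real.exp ((L : ℝ) ^ κ) * mc μ s N y (c i) (d i) A ω.1 x.1) →
    (∀ i, T i → c' i = c i ∧ d' i = d i ∧ U i + l i ≤ V i ∧
      ∀ ω x, ¬ Tau (wm μ s N (Pn N y) ω) (pJ (c i) (d i)) (U i) (V i) M x → G i ω x ≤ Real.exp (-M)) →
    ∀ f : Env × Finset ℕ → Px (Pn N y) → ℝ, (∀ A x, Measurable fun η => f (η, A) x) → (∀ ω x, 0 ≤ f ω x) → (∀ ω x, f ω x ≤ 1) →
    (∀ i (η η' : Env) A x, (∃ E : Finset Pt, (∀ q ∈ E, 0 ≤ q.1 ∧ q.1.toNat ∈ Jf i) ∧ ∀ q, q ∉ E → η q = η' q) → f (η, A) x = f (η', A) x) →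
    ∫ ω, gm (wm μ s N (Pn N y) ω) (fun x => f ω x * ∏ i, G i ω x) ∂(Pm μ N) ≤
      (∏ i, ((L : ℝ) ^ ε * (EE' μ s (l i))⁻¹)) * ∫ ω, gm (wm μ s N (Pn N y) ω) (f ω) ∂(Pm μ N) +
        (Real.exp (-(L : ℝ) ^ c₂) + 2 * k * Real.exp (-M)) := by
  intro ε θ hε hθ
  obtain ⟨δ, κ, c₂, hδ, hκ, hc₂, L₀, hP⟩ := tauQF h k hk ε θ hε hθ
  refine ⟨δ, κ, c₂, hδ, hκ, hc₂, L₀, ?_⟩
  intro L hL N hLN hNL y hyN hyc c d c' d' U V l hblk hl T Jf hT M hM hML G hG0 hG1 hg hτ f hfm hf0 hf1 hfo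
  classical
  have hE : ∀ n, (0 : ℝ) < EE' μ s n := fun n => lt_of_lt_of_le one_pos (le_max_left _ _)
  have hr0 : ∀ i, 0 ≤ (L : ℝ) ^ ε * (EE' μ s (l i))⁻¹ := fun i => mul_nonneg (Real.rpow_nonneg (Nat.cast_nonneg _) _) (inv_nonneg.2 (hE _).le)
  refine int_of_Q1 hyN (fun ω x => mul_nonneg (hf0 ω x) (prod_nonneg fun i _ => hG0 i ω x)) hfm hf0 hf1 (prod_nonneg fun i _ => hr0 i)
    (by positivity) fun A₀ => ?_
  have h1 := hP L hL N hLN hNL y hyN hyc c d c' d' U V l hblk hl T Jf hT M hM hML (fun i η S => ENNReal.ofReal (exP (G i (η, A₀)) S))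
    (fun i η S => ENNReal.ofReal_le_one.2 (exP_le (hG1 i (η, A₀)) S)) (fun i hi => ?_) (fun i hi => ?_)
    (fun η S => ENNReal.ofReal (exP (f (η, A₀)) S)) (fun S => ?_) (fun η S => ENNReal.ofReal_le_one.2 (exP_le (hf1 (η, A₀)) S)) (fun i η η' S hη => ?_)
  · refine le_trans (le_of_eq ?_) (h1.trans (le_of_eq ?_))
    · congr 1
      funext η S
      rw [← ENNReal.ofReal_prod_of_nonneg fun i _ => exP_nonneg (hG0 i (η, A₀)) S, ← ENNReal.ofReal_mul (exP_nonneg (hf0 (η, A₀)) S)]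
      congr 1
      unfold exP
      by_cases hS : S ∈ Pn N y
      · simp only [dif_pos hS]
      · simp only [dif_neg hS, zero_mul]
    · rw [ENNReal.ofReal_prod_of_nonneg fun i _ => hr0 i, ENNReal.ofReal_add (by positivity) (by positivity), add_assoc,
        ENNReal.ofReal_mul (by positivity), ENNReal.ofReal_mul (by positivity), ENNReal.ofReal_natCast, ENNReal.ofReal_ofNat]
  · obtain ⟨A, n₁, u, v, a1, a2, a3, a4⟩ := hg i hi
    refine ⟨A, n₁, u, v, a1, a2, a3, fun η S => ?_⟩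
    rw [← ENNReal.ofReal_mul (Real.exp_pos _).le]
    refine ENNReal.ofReal_le_ofReal ?_
    unfold exP
    by_cases hS : S ∈ Pn N y
    · rw [dif_pos hS]
      exact a4 (η, A₀) ⟨S, hS⟩
    · rw [dif_neg hS]
      exact mul_nonneg (Real.exp_pos _).le (by unfold mc; rw [dif_neg hS])
  · obtain ⟨a1, a2, a3, a4⟩ := hτ i hi
    refine ⟨a1, a2, a3, fun η S hnT => ENNReal.ofReal_le_ofReal ?_⟩
    unfold exP
    by_cases hS : S ∈ Pn N y
    · rw [dif_pos hS]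
      exact a4 (η, A₀) ⟨S, hS⟩ fun h' => hnT ⟨hS, h'⟩
    · rw [dif_neg hS]
      exact (Real.exp_pos _).le
  · refine ENNReal.measurable_ofReal.comp ?_
    unfold exP
    by_cases hS : S ∈ Pn N y
    · simp only [dif_pos hS]
      exact hfm A₀ _
    · simp only [dif_neg hS]
      exact measurable_const
  · show ENNReal.ofReal (exP (f (η, A₀)) S) = ENNReal.ofReal (exP (f (η', A₀)) S)
    congr 1
    unfold exP
    by_cases hS : S ∈ Pn N y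
    · rw [dif_pos hS, dif_pos hS]
      exact hfo i η η' A₀ ⟨S, hS⟩ hη
    · rw [dif_neg hS, dif_neg hS]

/-- **THE GENERAL PRICE, LIST FORM**, finite changes. -/
theorem price_listF (h : In μ s c₀ C₀ n₀) (k : ℕ) (hk : k ≤ 8) : ∀ ε θ : ℝ, 0 < ε → 0 < θ → ∃ δ κ c₂ : ℝ, 0 < δ ∧ 0 < κ ∧ 0 < c₂ ∧ ∃ L₀ : ℕ,
    ∀ L : ℕ, L₀ ≤ L → ∀ N : ℕ, L ≤ 16 * N → N ≤ L → ∀ y : ℕ, y ≤ N → |(y : ℝ) - sl μ s * N| ≤ ((L : ℝ) ^ δ * wd' μ s N) →
    ∀ M : ℝ, 8 ≤ M → M ≤ (L : ℝ) ^ κ →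
    ∀ Ps : List (Plc × (Env × Finset ℕ → Px (Pn N y) → ℝ)), Ps.length = k → (∀ P ∈ Ps, P.1.Ok L N θ) →
    Ps.Pairwise (fun P P' => P.1.Bef P'.1) → (∀ P ∈ Ps, Dom μ s N y ((L : ℝ) ^ κ) M P.1 P.2) →
    ∀ f : Env × Finset ℕ → Px (Pn N y) → ℝ, (∀ A x, Measurable fun η => f (η, A) x) → (∀ ω x, 0 ≤ f ω x) → (∀ ω x, f ω x ≤ 1) →
    (∀ P ∈ Ps, ∀ (η η' : Env) A x, (∃ E : Finset Pt, (∀ q ∈ E, 0 ≤ q.1 ∧ q.1.toNat ∈ P.1.J) ∧ ∀ q, q ∉ E → η q = η' q) → f (η, A) x = f (η', A) x) →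
    ∫ ω, gm (wm μ s N (Pn N y) ω) (fun x => f ω x * (Ps.map fun P => P.2 ω x).prod) ∂(Pm μ N) ≤
      (Ps.map fun P => (L : ℝ) ^ ε * (EE' μ s P.1.l)⁻¹).prod * ∫ ω, gm (wm μ s N (Pn N y) ω) (f ω) ∂(Pm μ N) +
        (Real.exp (-(L : ℝ) ^ c₂) + 2 * k * Real.exp (-M)) := by
  intro ε θ hε hθ
  obtain ⟨δ, κ, c₂, hδ, hκ, hc₂, L₀, hP⟩ := tauIF h k hk ε θ hε hθ
  refine ⟨δ, κ, c₂, hδ, hκ, hc₂, L₀, ?_⟩
  intro L hL N hLN hNL y hyN hyc M hM hML Ps hlen hok hpw hdom f hfm hf0 hf1 hfo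
  subst hlen
  have hmem : ∀ i : Fin Ps.length, Ps.get i ∈ Ps := fun i => List.get_mem Ps i
  have hpw' := List.pairwise_iff_get.1 hpw
  have h1 := hP L hL N hLN hNL y hyN hyc (fun i => (Ps.get i).1.c) (fun i => (Ps.get i).1.d) (fun i => (Ps.get i).1.c')
    (fun i => (Ps.get i).1.d') (fun i => (Ps.get i).1.U) (fun i => (Ps.get i).1.V) (fun i => (Ps.get i).1.l)
    (fun i => (hok _ (hmem i)).1) (fun i => (hok _ (hmem i)).2) (fun i => (Ps.get i).1.T) (fun i => (Ps.get i).1.J) (fun i => ?_) M hM hML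
    (fun i => (Ps.get i).2) (fun i => (hdom _ (hmem i)).1) (fun i => (hdom _ (hmem i)).2.1) (fun i hi => ?_) (fun i hi => ?_) f hfm hf0 hf1
    (fun i => hfo _ (hmem i))
  · rw [prod_get Ps fun P => (L : ℝ) ^ ε * (EE' μ s P.1.l)⁻¹] at h1
    refine le_trans (le_of_eq ?_) h1
    congr 1
    funext ω
    congr 1
    funext x
    rw [← prod_get Ps fun P => P.2 ω x]
  · have h2 : ∀ i', i < i' → (Ps.get i).1.Bef (Ps.get i').1 := fun i' hi' => hpw' i i' hi'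
    unfold Plc.J
    unfold Plc.Bef at h2
    cases hty : (Ps.get i).1.ty with
    | L =>
      rw [hty] at h2
      exact Or.inl ⟨rfl, h2⟩
    | R =>
      rw [hty] at h2
      exact Or.inr (Or.inl ⟨rfl, h2⟩)
    | M =>
      rw [hty] at h2
      exact Or.inr (Or.inr ⟨rfl, h2⟩)
  · rcases (hdom _ (hmem i)).2.2 with ⟨-, g⟩ | ⟨g, -⟩
    · exact g
    · exact absurd g hi
  · rcases (hdom _ (hmem i)).2.2 with ⟨g, -⟩ | ⟨-, g⟩
    · exact absurd hi g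
    · exact g

/-- **The price of a list of mass places**, `Q1` form, finite changes. -/
theorem lamListF (h : In μ s c₀ C₀ n₀) (k : ℕ) (hk : k ≤ 8) : ∀ ε θ : ℝ, 0 < ε → 0 < θ → ∃ δ κ c₂ : ℝ, 0 < δ ∧ 0 < κ ∧ 0 < c₂ ∧ ∃ L₀ : ℕ,
    ∀ L : ℕ, L₀ ≤ L → ∀ N : ℕ, L ≤ 16 * N → N ≤ L → ∀ y : ℕ, y ≤ N → |(y : ℝ) - sl μ s * N| ≤ ((L : ℝ) ^ δ * wd' μ s N) →
    ∀ X : ℝ, X ≤ (L : ℝ) ^ κ → ∀ Ps : List MPl, Ps.length = k → (∀ P ∈ Ps, P.p.Ok L N θ) → (∀ P ∈ Ps, P.Gd N y X L) →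
    Ps.Pairwise (fun P P' => P.p.Bef P'.p) →
    ∀ f : Env → Finset ℕ → ℝ≥0∞, (∀ S, Measurable fun η => f η S) → (∀ η S, f η S ≤ 1) → (∀ P ∈ Ps, OffF P.p.J f) →
    Q1 μ s N y (fun η S => f η S * (Ps.map fun P => mm μ s N y X P η S).prod) ≤
      (Ps.map fun P => ENNReal.ofReal ((L : ℝ) ^ ε * (EE' μ s P.p.l)⁻¹)).prod * Q1 μ s N y f +
        ENNReal.ofReal (Real.exp (-(L : ℝ) ^ c₂)) := by
  intro ε θ hε hθ
  obtain ⟨δ, κ, c₂, hδ, hκ, hc₂, L₀, hP⟩ := lam86MF h k hk ε θ hε hθ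
  refine ⟨δ, κ, c₂, hδ, hκ, hc₂, L₀, ?_⟩
  intro L hL N hLN hNL y hyN hyc X hX Ps hlen hok hgd hpw f hfm hf1 hfo
  subst hlen
  have hmem : ∀ i : Fin Ps.length, Ps.get i ∈ Ps := fun i => List.get_mem Ps i
  have hpw' := List.pairwise_iff_get.1 hpw
  have h1 := hP L hL N hLN hNL y hyN hyc (fun i => (Ps.get i).p.c) (fun i => (Ps.get i).p.d) (fun i => (Ps.get i).p.c')
    (fun i => (Ps.get i).p.d') (fun i => (Ps.get i).p.U) (fun i => (Ps.get i).p.V) (fun i => (Ps.get i).p.l) (fun i => (Ps.get i).n₁)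
    (fun i => (hok _ (hmem i)).1) (fun i => (hok _ (hmem i)).2) (fun i => (Ps.get i).u) (fun i => (Ps.get i).v)
    (fun i n hn => (hgd _ (hmem i)).2.2.1 n hn) (fun i => ⟨(hgd _ (hmem i)).2.1.1.trans hX, (hgd _ (hmem i)).2.1.2⟩)
    (fun i => (Ps.get i).p.J) (fun i => ?_) (fun i => (Ps.get i).A) (fun i => (hgd _ (hmem i)).2.2.2)
    (fun i η S => mm μ s N y X (Ps.get i) η S) (fun i η S => mm_le_one η S)
    (fun i η S => (min_le_right _ _).trans (mul_le_mul' (ENNReal.ofReal_le_ofReal (Real.exp_le_exp.2 hX)) le_rfl)) f hfm hf1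
    (fun i => hfo _ (hmem i))
  · rw [prod_getG Ps fun P => ENNReal.ofReal ((L : ℝ) ^ ε * (EE' μ s P.p.l)⁻¹)] at h1
    refine le_trans (le_of_eq ?_) h1
    congr 1
    funext η S
    rw [← prod_getG Ps fun P => mm μ s N y X P η S]
  · have h2 : ∀ i', i < i' → (Ps.get i).p.Bef (Ps.get i').p := fun i' hi' => hpw' i i' hi'
    have h3 : ¬ (Ps.get i).p.T := (hgd _ (hmem i)).1
    unfold Plc.J
    unfold Plc.Bef at h2
    cases hty : (Ps.get i).p.ty with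
    | L =>
      rw [hty] at h2
      refine Or.inl ⟨rfl, fun i' hi' => ?_⟩
      rcases h2 i' hi' with g | g | g
      · exact Or.inl g
      · exact Or.inr (Or.inl g)
      · exact Or.inr (Or.inr g.2)
    | R =>
      rw [hty] at h2
      exact Or.inr (Or.inl ⟨rfl, h2⟩)
    | M =>
      rw [hty] at h2
      exact Or.inr (Or.inr ⟨rfl, h2⟩)

/-- **THE PRICE OF TWO ROWS IN ONE BLOCK**, finite changes. -/
theorem price_twoF (h : In μ s c₀ C₀ n₀) (k : ℕ) (hk : k ≤ 6) : ∀ ε θ : ℝ, 0 < ε → 0 < θ → ∃ δ κ c₂ : ℝ, 0 < δ ∧ 0 < κ ∧ 0 < c₂ ∧ ∃ L₀ : ℕ,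
    ∀ L : ℕ, L₀ ≤ L → ∀ N : ℕ, L ≤ 16 * N → N ≤ L → ∀ y : ℕ, y ≤ N → |(y : ℝ) - sl μ s * N| ≤ ((L : ℝ) ^ δ * wd' μ s N) →
    ∀ M : ℝ, 8 ≤ M → M ≤ (L : ℝ) ^ κ →
    ∀ (P₁ P₂ : Plc) (m : ℕ) (tA tB tC tD : Ty), P₁.Ok L N θ → P₂.Ok L N θ → P₁.V ≤ m → m ≤ P₁.d' → P₂.c' ≤ m → m ≤ P₂.U →
    (L : ℝ) ^ θ ≤ ((m - P₁.V : ℕ) : ℝ) → (L : ℝ) ^ θ ≤ ((P₂.U - m : ℕ) : ℝ) →
    ∀ (G₁ G₂ : Env × Finset ℕ → Px (Pn N y) → ℝ), Dom μ s N y ((L : ℝ) ^ κ) M P₁ G₁ → Dom μ s N y ((L : ℝ) ^ κ) M P₂ G₂ →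
    ∀ Qs₁ Qs₂ : List (Plc × (Env × Finset ℕ → Px (Pn N y) → ℝ)), Qs₁.length + Qs₂.length = k →
    (∀ Q ∈ Qs₁ ++ Qs₂, Q.1.Ok L N θ) → (∀ Q ∈ Qs₁ ++ Qs₂, Dom μ s N y ((L : ℝ) ^ κ) M Q.1 Q.2) →
    (Qs₁.map Prod.fst ++ P₁.cutR m tA :: P₂.cutL m tB :: Qs₂.map Prod.fst).Pairwise Plc.Bef →
    (Qs₁.map Prod.fst ++ P₁.longR m tC :: Qs₂.map Prod.fst).Pairwise Plc.Bef →
    (Qs₁.map Prod.fst ++ P₂.longL m tD :: Qs₂.map Prod.fst).Pairwise Plc.Bef →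
    ∀ f : Env × Finset ℕ → Px (Pn N y) → ℝ, (∀ A x, Measurable fun η => f (η, A) x) → (∀ ω x, 0 ≤ f ω x) → (∀ ω x, f ω x ≤ 1) →
    (∀ p ∈ P₁.cutR m tA :: P₂.cutL m tB :: P₁.longR m tC :: P₂.longL m tD :: (Qs₁ ++ Qs₂).map Prod.fst,
      ∀ (η η' : Env) A x, (∃ E : Finset Pt, (∀ q ∈ E, 0 ≤ q.1 ∧ q.1.toNat ∈ p.J) ∧ ∀ q, q ∉ E → η q = η' q) → f (η, A) x = f (η', A) x) →
    ∫ ω, gm (wm μ s N (Pn N y) ω) (fun x => f ω x * (G₁ ω x * G₂ ω x * ((Qs₁ ++ Qs₂).map fun Q => Q.2 ω x).prod)) ∂(Pm μ N) ≤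
      (((L : ℝ) ^ ε * (EE' μ s P₁.l)⁻¹) * ((L : ℝ) ^ ε * (EE' μ s P₂.l)⁻¹) + (L : ℝ) ^ ε * (EE' μ s (m - P₁.V))⁻¹ +
          (L : ℝ) ^ ε * (EE' μ s (P₂.U - m))⁻¹) * ((Qs₁ ++ Qs₂).map fun Q => (L : ℝ) ^ ε * (EE' μ s Q.1.l)⁻¹).prod *
        ∫ ω, gm (wm μ s N (Pn N y) ω) (f ω) ∂(Pm μ N) +
        (3 * Real.exp (-(L : ℝ) ^ c₂) + 2 * (k + 2) * Real.exp (-M)) := by
  intro ε θ hε hθ
  obtain ⟨δa, κa, ca, hδa, hκa, hca, La, hPa⟩ := lamListF (μ := μ) (s := s) h (k + 2) (by omega) (ε / 2) (θ / 2) (by positivity) (by positivity)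
  obtain ⟨δb, κb, cb, hδb, hκb, hcb, Lb, hPb⟩ := lamListF (μ := μ) (s := s) h (k + 1) (by omega) (ε / 2) (θ / 2) (by positivity) (by positivity)
  obtain ⟨κ₁, hκ₁d⟩ : ∃ κ₁, κ₁ = min κa κb := ⟨_, rfl⟩
  have hκ₁ : 0 < κ₁ := by rw [hκ₁d]; exact lt_min hκa hκb
  obtain ⟨κ, hκd⟩ : ∃ κ, κ = min (κ₁ / 2) (min (ε / 4) (min (θ / 4) (1 / 2))) := ⟨_, rfl⟩
  have hκ : 0 < κ := by
    rw [hκd]
    refine lt_min (by positivity) (lt_min (by positivity) (lt_min (by positivity) (by norm_num)))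
  have k1 : κ < κ₁ := by
    have : κ ≤ κ₁ / 2 := by rw [hκd]; exact min_le_left _ _
    linarith
  have k2 : κ < ε / 2 := by
    have : κ ≤ ε / 4 := by rw [hκd]; exact (min_le_right _ _).trans (min_le_left _ _)
    linarith
  have k3 : κ < θ / 2 := by
    have : κ ≤ θ / 4 := by rw [hκd]; exact (min_le_right _ _).trans ((min_le_right _ _).trans (min_le_left _ _))
    linarith
  have k4 : κ < 1 := by
    have : κ ≤ 1 / 2 := by rw [hκd]; exact (min_le_right _ _).trans ((min_le_right _ _).trans (min_le_right _ _))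
    linarith
  obtain ⟨Lc, hR⟩ := rep_ex (μ := μ) (s := s) h hε hθ hκ k1 k2 k3 k4
  refine ⟨min δa δb, κ, min ca cb, lt_min hδa hδb, hκ, lt_min hca hcb, La + Lb + Lc + 1, ?_⟩
  intro L hL N hLN hNL y hyN hyc M hM hML P₁ P₂ m tA tB tC tD ok1 ok2 hm1 hm2 hm3 hm4 hl1 hl2 G₁ G₂ d1 d2 Qs₁ Qs₂ hlen okQ dQ pwA pwC pwD f
    hfm hf0 hf1 hfo
  have hL1 : (1 : ℝ) ≤ L := by exact_mod_cast (show 1 ≤ L by omega)
  have hwd : ∀ n, 0 < wd' μ s n := fun n => lt_of_lt_of_le zero_lt_one (le_max_left _ _)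
  have hcone : ∀ δ', min δa δb ≤ δ' → |(y : ℝ) - sl μ s * N| ≤ ((L : ℝ) ^ δ' * wd' μ s N) := fun δ' hδ' =>
    hyc.trans (mul_le_mul_of_nonneg_right (Real.rpow_le_rpow_of_exponent_le hL1 hδ') (hwd N).le)
  have hE : ∀ n, (0 : ℝ) < EE' μ s n := fun n => lt_of_lt_of_le one_pos (le_max_left _ _)
  have hXa : (L : ℝ) ^ κ₁ ≤ (L : ℝ) ^ κa := Real.rpow_le_rpow_of_exponent_le hL1 (by rw [hκ₁d]; exact min_le_left _ _)
  have hXb : (L : ℝ) ^ κ₁ ≤ (L : ℝ) ^ κb := Real.rpow_le_rpow_of_exponent_le hL1 (by rw [hκ₁d]; exact min_le_right _ _)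
  have hX1 : (1 : ℝ) ≤ (L : ℝ) ^ κ₁ := Real.one_le_rpow hL1 hκ₁.le
  have hpe : (L : ℝ) ^ (ε / 2) ≤ (L : ℝ) ^ ε := Real.rpow_le_rpow_of_exponent_le hL1 (by linarith)
  have hpt : (L : ℝ) ^ (θ / 2) ≤ (L : ℝ) ^ θ := Real.rpow_le_rpow_of_exponent_le hL1 (by linarith)
  -- the places
  obtain ⟨Ps₁, r1⟩ := f2_ex (R := fun (Q : Plc × (Env × Finset ℕ → Px (Pn N y) → ℝ)) P' => Rep μ s N y L ε θ ((L : ℝ) ^ κ₁) M Q.1 Q.2 P')
    (as := Qs₁) fun Q hQ => hR L (by omega) N hNL y hyN M hM hML Q.1 Q.2 (okQ Q (List.mem_append_left _ hQ)) (dQ Q (List.mem_append_left _ hQ))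
  obtain ⟨Ps₂, r2⟩ := f2_ex (R := fun (Q : Plc × (Env × Finset ℕ → Px (Pn N y) → ℝ)) P' => Rep μ s N y L ε θ ((L : ℝ) ^ κ₁) M Q.1 Q.2 P')
    (as := Qs₂) fun Q hQ => hR L (by omega) N hNL y hyN M hM hML Q.1 Q.2 (okQ Q (List.mem_append_right _ hQ)) (dQ Q (List.mem_append_right _ hQ))
  obtain ⟨R₁, q1⟩ := hR L (by omega) N hNL y hyN M hM hML P₁ G₁ ok1 d1
  obtain ⟨R₂, q2⟩ := hR L (by omega) N hNL y hyN M hM hML P₂ G₂ ok2 d2
  have hlen1 := r1.length_eq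
  have hlen2 := r2.length_eq
  have hrall : List.Forall₂ (fun (Q : Plc × (Env × Finset ℕ → Px (Pn N y) → ℝ)) P' => Rep μ s N y L ε θ ((L : ℝ) ^ κ₁) M Q.1 Q.2 P')
      (Qs₁ ++ (P₁, G₁) :: (P₂, G₂) :: Qs₂) (Ps₁ ++ R₁ :: R₂ :: Ps₂) :=
    List.rel_append r1 (List.Forall₂.cons q1 (List.Forall₂.cons q2 r2))
  have hP1 : ∀ P ∈ Ps₁, P.p.Ok L N (θ / 2) ∧ P.Gd N y ((L : ℝ) ^ κ₁) L := fun P hP => by
    obtain ⟨Q, -, hQ⟩ := f2_mem r1 P hP
    exact ⟨hQ.2.1, hQ.2.2.1⟩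
  have hP2 : ∀ P ∈ Ps₂, P.p.Ok L N (θ / 2) ∧ P.Gd N y ((L : ℝ) ^ κ₁) L := fun P hP => by
    obtain ⟨Q, -, hQ⟩ := f2_mem r2 P hP
    exact ⟨hQ.2.1, hQ.2.2.1⟩
  have sA : List.Forall₂ Sim (Qs₁.map Prod.fst ++ P₁.cutR m tA :: P₂.cutL m tB :: Qs₂.map Prod.fst)
      ((Ps₁ ++ R₁.cutR m tA :: R₂.cutL m tB :: Ps₂).map MPl.p) := by
    rw [List.map_append]
    exact List.rel_append (f2_sim r1) (List.Forall₂.cons (q1.1.cutR m tA) (List.Forall₂.cons (q2.1.cutL m tB) (f2_sim r2)))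
  have sC : List.Forall₂ Sim (Qs₁.map Prod.fst ++ P₁.longR m tC :: Qs₂.map Prod.fst) ((Ps₁ ++ R₁.longR m tC :: Ps₂).map MPl.p) := by
    rw [List.map_append]
    exact List.rel_append (f2_sim r1) (List.Forall₂.cons (q1.1.longR m tC) (f2_sim r2))
  have sD : List.Forall₂ Sim (Qs₁.map Prod.fst ++ P₂.longL m tD :: Qs₂.map Prod.fst) ((Ps₁ ++ R₂.longL m tD :: Ps₂).map MPl.p) := by
    rw [List.map_append]
    exact List.rel_append (f2_sim r1) (List.Forall₂.cons (q2.1.longL m tD) (f2_sim r2))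
  obtain ⟨⟨a1, a2, a3, a4, a5, a6⟩, a7⟩ := q1.2.1
  obtain ⟨⟨b1, b2, b3, b4, b5, b6⟩, b7⟩ := q2.2.1
  obtain ⟨u1, u2, u3, u4, u5, u6, -⟩ := q1.1
  obtain ⟨v1, v2, v3, v4, v5, v6, -⟩ := q2.1
  have okA1 : (R₁.cutR m tA).p.Ok L N (θ / 2) := by
    refine ⟨?_, a7⟩
    show R₁.p.c ≤ R₁.p.c' ∧ R₁.p.c' ≤ R₁.p.U ∧ R₁.p.U ≤ R₁.p.V ∧ R₁.p.V ≤ m ∧ m ≤ R₁.p.d ∧ R₁.p.d ≤ N
    omega
  have okA2 : (R₂.cutL m tB).p.Ok L N (θ / 2) := by
    refine ⟨?_, b7⟩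
    show R₂.p.c ≤ m ∧ m ≤ R₂.p.U ∧ R₂.p.U ≤ R₂.p.V ∧ R₂.p.V ≤ R₂.p.d' ∧ R₂.p.d' ≤ R₂.p.d ∧ R₂.p.d ≤ N
    omega
  have okC : (R₁.longR m tC).p.Ok L N (θ / 2) := by
    refine ⟨?_, ?_⟩
    · show R₁.p.c ≤ R₁.p.c' ∧ R₁.p.c' ≤ R₁.p.V ∧ R₁.p.V ≤ m ∧ m ≤ R₁.p.d' ∧ R₁.p.d' ≤ R₁.p.d ∧ R₁.p.d ≤ N
      omega
    · show (L : ℝ) ^ (θ / 2) ≤ ((m - R₁.p.V : ℕ) : ℝ)
      rw [u6]
      exact hpt.trans hl1
  have okD : (R₂.longL m tD).p.Ok L N (θ / 2) := by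
    refine ⟨?_, ?_⟩
    · show R₂.p.c ≤ R₂.p.c' ∧ R₂.p.c' ≤ m ∧ m ≤ R₂.p.U ∧ R₂.p.U ≤ R₂.p.d' ∧ R₂.p.d' ≤ R₂.p.d ∧ R₂.p.d ≤ N
      omega
    · show (L : ℝ) ^ (θ / 2) ≤ ((R₂.p.U - m : ℕ) : ℝ)
      rw [v5]
      exact hpt.trans hl2
  classical
  obtain ⟨X, hXd⟩ : ∃ X, X = (L : ℝ) ^ κ₁ := ⟨_, rfl⟩
  obtain ⟨pr, hpr⟩ : ∃ pr : Plc → ℝ, pr = fun p => (L : ℝ) ^ ε * (EE' μ s p.l)⁻¹ := ⟨_, rfl⟩
  have hpr0 : ∀ p, 0 ≤ pr p := fun p => by
    rw [hpr]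
    exact mul_nonneg (Real.rpow_nonneg (Nat.cast_nonneg _) _) (inv_nonneg.2 (hE _).le)
  have hr0 : ∀ l, 0 ≤ (L : ℝ) ^ ε * (EE' μ s l)⁻¹ := fun l => mul_nonneg (Real.rpow_nonneg (Nat.cast_nonneg _) _) (inv_nonneg.2 (hE _).le)
  have hRq0 : 0 ≤ ((Qs₁ ++ Qs₂).map fun Q => (L : ℝ) ^ ε * (EE' μ s Q.1.l)⁻¹).prod := list_prod_nonneg _ fun Q => hr0 _
  have hGdom : ∀ Q ∈ Qs₁ ++ (P₁, G₁) :: (P₂, G₂) :: Qs₂, (∀ ω x, 0 ≤ Q.2 ω x) ∧ ∀ ω x, Q.2 ω x ≤ 1 := by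
    intro Q hQ
    rw [List.mem_append, List.mem_cons, List.mem_cons] at hQ
    rcases hQ with hQ | rfl | rfl | hQ
    · exact ⟨(dQ Q (List.mem_append_left _ hQ)).1, (dQ Q (List.mem_append_left _ hQ)).2.1⟩
    · exact ⟨d1.1, d1.2.1⟩
    · exact ⟨d2.1, d2.2.1⟩
    · exact ⟨(dQ Q (List.mem_append_right _ hQ)).1, (dQ Q (List.mem_append_right _ hQ)).2.1⟩
  refine int_of_Q1 hyN (fun ω x => mul_nonneg (hf0 ω x) (mul_nonneg (mul_nonneg (d1.1 ω x) (d2.1 ω x)) ?_)) hfm hf0 hf1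
    (mul_nonneg (add_nonneg (add_nonneg (mul_nonneg (hr0 _) (hr0 _)) (hr0 _)) (hr0 _)) hRq0) (by positivity) fun A₀ => ?_
  · refine List.prod_nonneg ?_
    intro z hz
    obtain ⟨Q, hQ, rfl⟩ := List.mem_map.1 hz
    exact (dQ Q hQ).1 ω x
  · obtain ⟨F, hF⟩ : ∃ F : Env → Finset ℕ → ℝ≥0∞, F = fun η S => ENNReal.ofReal (exP (f (η, A₀)) S) := ⟨_, rfl⟩
    have hF1 : ∀ η S, F η S ≤ 1 := fun η S => by
      rw [hF]
      exact ENNReal.ofReal_le_one.2 (exP_le (hf1 (η, A₀)) S)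
    have hFm : ∀ S, Measurable fun η => F η S := fun S => by
      rw [hF]
      refine ENNReal.measurable_ofReal.comp ?_
      unfold exP
      by_cases hS : S ∈ Pn N y
      · simp only [dif_pos hS]
        exact hfm A₀ _
      · simp only [dif_neg hS]
        exact measurable_const
    have hFo : ∀ p ∈ P₁.cutR m tA :: P₂.cutL m tB :: P₁.longR m tC :: P₂.longL m tD :: (Qs₁ ++ Qs₂).map Prod.fst, OffF p.J F := by
      intro p hp η η' S hη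
      rw [hF]
      show ENNReal.ofReal (exP (f (η, A₀)) S) = ENNReal.ofReal (exP (f (η', A₀)) S)
      congr 1
      unfold exP
      by_cases hS : S ∈ Pn N y
      · rw [dif_pos hS, dif_pos hS]
        exact hfo p hp η η' A₀ ⟨S, hS⟩ hη
      · rw [dif_neg hS, dif_neg hS]
    -- the product of the factors
    have t1 : Q1 μ s N y (fun η S => ENNReal.ofReal (exP (fun x => f (η, A₀) x * (G₁ (η, A₀) x * G₂ (η, A₀) x *
        ((Qs₁ ++ Qs₂).map fun Q => Q.2 (η, A₀) x).prod)) S)) ≤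
        Q1 μ s N y (fun η S => F η S * ((Qs₁ ++ (P₁, G₁) :: (P₂, G₂) :: Qs₂).map fun Q => ENNReal.ofReal (exP (Q.2 (η, A₀)) S)).prod) := by
      refine Q1_mono fun η S _ _ => le_of_eq ?_
      rw [hF]
      by_cases hS : S ∈ Pn N y
      · have e1 : ∀ φ : Px (Pn N y) → ℝ, exP φ S = φ ⟨S, hS⟩ := fun φ => by
          unfold exP
          rw [dif_pos hS]
        simp only [e1]
        rw [ENNReal.ofReal_mul (hf0 _ _), ENNReal.ofReal_mul (mul_nonneg (d1.1 _ _) (d2.1 _ _)), ENNReal.ofReal_mul (d1.1 _ _),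
          List.map_append, List.map_append, List.prod_append, List.prod_append, List.map_cons, List.map_cons, List.prod_cons, List.prod_cons,
          ENNReal.ofReal_mul]
        · rw [← ofReal_map_prod Qs₁ _ fun Q hQ => (dQ Q (List.mem_append_left _ hQ)).1 _ _,
            ← ofReal_map_prod Qs₂ _ fun Q hQ => (dQ Q (List.mem_append_right _ hQ)).1 _ _]
          ring
        · refine List.prod_nonneg ?_
          intro z hz
          obtain ⟨Q, hQ, rfl⟩ := List.mem_map.1 hz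
          exact (dQ Q (List.mem_append_left _ hQ)).1 _ _
      · have e1 : ∀ φ : Px (Pn N y) → ℝ, exP φ S = 0 := fun φ => by
          unfold exP
          rw [dif_neg hS]
        simp only [e1, ENNReal.ofReal_zero, zero_mul]
    have t2 := rep_list hrall (fun Q hQ => (hGdom Q hQ).2) A₀ F hF1
    rw [← hXd] at t2
    -- the cut
    have t3 : Q1 μ s N y (fun η S => F η S * ((Ps₁ ++ R₁ :: R₂ :: Ps₂).map fun P => mm μ s N y X P η S).prod) ≤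
        Q1 μ s N y (fun η S => F η S * ((Ps₁ ++ R₁.cutR m tA :: R₂.cutL m tB :: Ps₂).map fun P => mm μ s N y X P η S).prod) +
        (Q1 μ s N y (fun η S => F η S * ((Ps₁ ++ R₁.longR m tC :: Ps₂).map fun P => mm μ s N y X P η S).prod) +
        Q1 μ s N y (fun η S => F η S * ((Ps₁ ++ R₂.longL m tD :: Ps₂).map fun P => mm μ s N y X P η S).prod)) := by
      have hMl : ∀ (Ps : List MPl) (S : Finset ℕ), Measurable fun η => F η S * (Ps.map fun P => mm μ s N y X P η S).prod :=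
        fun Ps S => (hFm S).mul (mmp_meas Ps S)
      have e1 := Q1_add (μ := μ) (s := s) (N := N) (y := (y : ℤ))
        (f := fun η S => F η S * ((Ps₁ ++ R₁.longR m tC :: Ps₂).map fun P => mm μ s N y X P η S).prod)
        (g := fun η S => F η S * ((Ps₁ ++ R₂.longL m tD :: Ps₂).map fun P => mm μ s N y X P η S).prod) (hMl _)
      have e2 := Q1_add (μ := μ) (s := s) (N := N) (y := (y : ℤ))
        (f := fun η S => F η S * ((Ps₁ ++ R₁.cutR m tA :: R₂.cutL m tB :: Ps₂).map fun P => mm μ s N y X P η S).prod)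
        (g := fun η S => F η S * ((Ps₁ ++ R₁.longR m tC :: Ps₂).map fun P => mm μ s N y X P η S).prod +
          F η S * ((Ps₁ ++ R₂.longL m tD :: Ps₂).map fun P => mm μ s N y X P η S).prod) (hMl _)
      rw [← e1, ← e2]
      refine Q1_mono fun η S _ _ => ?_
      rw [← mul_add, ← mul_add]
      refine mul_le_mul' le_rfl ?_
      simp only [List.map_append, List.prod_append, List.map_cons, List.prod_cons]
      rw [← mul_add, ← mul_add]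
      refine mul_le_mul' le_rfl ?_
      have g1 : R₁.Gd N y X L := by rw [hXd]; exact q1.2.2.1
      have g2 : R₂.Gd N y X L := by rw [hXd]; exact q2.2.2.1
      have s1 := mm_cutR (μ := μ) (s := s) g1 (m := m) (by omega) (by omega) tA tC η S
      have s2 := mm_cutL (μ := μ) (s := s) g2 (m := m) (by omega) (by omega) tB tD η S
      generalize (Ps₂.map fun P => mm μ s N y X P η S).prod = B
      have o1 := mm_le_one (μ := μ) (s := s) (N := N) (y := y) (X := X) (P := R₁.cutR m tA) η S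
      have o2 := mm_le_one (μ := μ) (s := s) (N := N) (y := y) (X := X) (P := R₂) η S
      calc mm μ s N y X R₁ η S * (mm μ s N y X R₂ η S * B)
          ≤ (mm μ s N y X (R₁.cutR m tA) η S + mm μ s N y X (R₁.longR m tC) η S) * (mm μ s N y X R₂ η S * B) := mul_le_mul' s1 le_rfl
        _ = mm μ s N y X (R₁.cutR m tA) η S * (mm μ s N y X R₂ η S * B) + mm μ s N y X (R₁.longR m tC) η S * (mm μ s N y X R₂ η S * B) :=
            add_mul _ _ _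
        _ ≤ mm μ s N y X (R₁.cutR m tA) η S * ((mm μ s N y X (R₂.cutL m tB) η S + mm μ s N y X (R₂.longL m tD) η S) * B) +
            mm μ s N y X (R₁.longR m tC) η S * (1 * B) :=
            add_le_add (mul_le_mul' le_rfl (mul_le_mul' s2 le_rfl)) (mul_le_mul' le_rfl (mul_le_mul' o2 le_rfl))
        _ = mm μ s N y X (R₁.cutR m tA) η S * (mm μ s N y X (R₂.cutL m tB) η S * B) +
            mm μ s N y X (R₁.cutR m tA) η S * (mm μ s N y X (R₂.longL m tD) η S * B) + mm μ s N y X (R₁.longR m tC) η S * B := by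
            rw [one_mul, add_mul, mul_add]
        _ ≤ mm μ s N y X (R₁.cutR m tA) η S * (mm μ s N y X (R₂.cutL m tB) η S * B) +
            1 * (mm μ s N y X (R₂.longL m tD) η S * B) + mm μ s N y X (R₁.longR m tC) η S * B :=
            add_le_add (add_le_add le_rfl (mul_le_mul' o1 le_rfl)) le_rfl
        _ = _ := by
            rw [one_mul]
            ring
    have g1 : R₁.Gd N y X L := by rw [hXd]; exact q1.2.2.1
    have g2 : R₂.Gd N y X L := by rw [hXd]; exact q2.2.2.1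
    have hXX : 1 ≤ X := by rw [hXd]; exact hX1
    have hoff : ∀ {as : List Plc} {bs : List MPl}, List.Forall₂ Sim as (bs.map MPl.p) →
        (∀ a ∈ as, a ∈ P₁.cutR m tA :: P₂.cutL m tB :: P₁.longR m tC :: P₂.longL m tD :: (Qs₁ ++ Qs₂).map Prod.fst) →
        ∀ P ∈ bs, OffF P.p.J F := by
      intro as bs hs hsub P hP
      obtain ⟨a, ha, hsim⟩ := f2_mem hs P.p (List.mem_map.2 ⟨P, hP, rfl⟩)
      rw [hsim.J]
      exact hFo a (hsub a ha)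
    have t4 := hPa L (by omega) N hLN hNL y hyN (hcone _ (min_le_left _ _)) X (by rw [hXd]; exact hXa)
      (Ps₁ ++ R₁.cutR m tA :: R₂.cutL m tB :: Ps₂) (by rw [List.length_append, List.length_cons, List.length_cons]; omega)
      (by
        intro P hP
        rw [List.mem_append, List.mem_cons, List.mem_cons] at hP
        rcases hP with hP | rfl | rfl | hP
        exacts [(hP1 P hP).1, okA1, okA2, (hP2 P hP).1])
      (by
        intro P hP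
        rw [List.mem_append, List.mem_cons, List.mem_cons] at hP
        rcases hP with hP | rfl | rfl | hP
        · rw [hXd]; exact (hP1 P hP).2
        · exact g1.cutR m tA
        · exact g2.cutL m tB
        · rw [hXd]; exact (hP2 P hP).2)
      (List.pairwise_map.1 (Sim.pw sA pwA)) F hFm hF1
      (hoff sA (by
        intro a ha
        simp only [List.mem_append, List.mem_cons, List.map_append] at ha ⊢
        tauto))
    have t5 := hPb L (by omega) N hLN hNL y hyN (hcone _ (min_le_right _ _)) X (by rw [hXd]; exact hXb)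
      (Ps₁ ++ R₁.longR m tC :: Ps₂) (by rw [List.length_append, List.length_cons]; omega)
      (by
        intro P hP
        rw [List.mem_append, List.mem_cons] at hP
        rcases hP with hP | rfl | hP
        exacts [(hP1 P hP).1, okC, (hP2 P hP).1])
      (by
        intro P hP
        rw [List.mem_append, List.mem_cons] at hP
        rcases hP with hP | rfl | hP
        · rw [hXd]; exact (hP1 P hP).2
        · exact gd_longR hXX (by omega) R₁ tC (by omega)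
        · rw [hXd]; exact (hP2 P hP).2)
      (List.pairwise_map.1 (Sim.pw sC pwC)) F hFm hF1
      (hoff sC (by
        intro a ha
        simp only [List.mem_append, List.mem_cons, List.map_append] at ha ⊢
        tauto))
    have t6 := hPb L (by omega) N hLN hNL y hyN (hcone _ (min_le_right _ _)) X (by rw [hXd]; exact hXb)
      (Ps₁ ++ R₂.longL m tD :: Ps₂) (by rw [List.length_append, List.length_cons]; omega)
      (by
        intro P hP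
        rw [List.mem_append, List.mem_cons] at hP
        rcases hP with hP | rfl | hP
        exacts [(hP1 P hP).1, okD, (hP2 P hP).1])
      (by
        intro P hP
        rw [List.mem_append, List.mem_cons] at hP
        rcases hP with hP | rfl | hP
        · rw [hXd]; exact (hP1 P hP).2
        · exact gd_longL hXX (by omega) R₂ tD (by omega)
        · rw [hXd]; exact (hP2 P hP).2)
      (List.pairwise_map.1 (Sim.pw sD pwD)) F hFm hF1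
      (hoff sD (by
        intro a ha
        simp only [List.mem_append, List.mem_cons, List.map_append] at ha ⊢
        tauto))
    -- the prices
    have w1 := f2_price r1
    have w2 := f2_price r2
    have w3 := q1.2.2.2.1
    have w4 := q2.2.2.2.1
    have w5 : ENNReal.ofReal ((L : ℝ) ^ (ε / 2) * (EE' μ s (R₁.longR m tC).p.l)⁻¹) ≤
        ENNReal.ofReal ((L : ℝ) ^ ε * (EE' μ s (m - P₁.V))⁻¹) := by
      refine ENNReal.ofReal_le_ofReal ?_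
      show (L : ℝ) ^ (ε / 2) * (EE' μ s (m - R₁.p.V))⁻¹ ≤ _
      rw [u6]
      exact mul_le_mul_of_nonneg_right hpe (inv_nonneg.2 (hE _).le)
    have w6 : ENNReal.ofReal ((L : ℝ) ^ (ε / 2) * (EE' μ s (R₂.longL m tD).p.l)⁻¹) ≤
        ENNReal.ofReal ((L : ℝ) ^ ε * (EE' μ s (P₂.U - m))⁻¹) := by
      refine ENNReal.ofReal_le_ofReal ?_
      show (L : ℝ) ^ (ε / 2) * (EE' μ s (R₂.p.U - m))⁻¹ ≤ _
      rw [v5]
      exact mul_le_mul_of_nonneg_right hpe (inv_nonneg.2 (hE _).le)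
    rw [List.map_append, List.map_cons, List.map_cons, List.prod_append, List.prod_cons, List.prod_cons] at t4
    rw [List.map_append, List.map_cons, List.prod_append, List.prod_cons] at t5 t6
    have hee : ∀ c, min ca cb ≤ c → ENNReal.ofReal (Real.exp (-(L : ℝ) ^ c)) ≤ ENNReal.ofReal (Real.exp (-(L : ℝ) ^ min ca cb)) := by
      intro c hc
      exact ENNReal.ofReal_le_ofReal (Real.exp_le_exp.2 (neg_le_neg (Real.rpow_le_rpow_of_exponent_le hL1 hc)))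
    have f4 := t4.trans (add_le_add (mul_le_mul' (mul_le_mul' w1 (mul_le_mul' w3 (mul_le_mul' w4 w2))) le_rfl) (hee ca (min_le_left _ _)))
    have f5 := t5.trans (add_le_add (mul_le_mul' (mul_le_mul' w1 (mul_le_mul' w5 w2)) le_rfl) (hee cb (min_le_right _ _)))
    have f6 := t6.trans (add_le_add (mul_le_mul' (mul_le_mul' w1 (mul_le_mul' w6 w2)) le_rfl) (hee cb (min_le_right _ _)))
    refine t1.trans (t2.trans ((add_le_add (t3.trans (add_le_add f4 (add_le_add f5 f6))) le_rfl).trans (le_of_eq ?_)))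
    rw [ENNReal.ofReal_mul (add_nonneg (add_nonneg (mul_nonneg (hr0 _) (hr0 _)) (hr0 _)) (hr0 _)),
      ENNReal.ofReal_add (add_nonneg (mul_nonneg (hr0 _) (hr0 _)) (hr0 _)) (hr0 _),
      ENNReal.ofReal_add (mul_nonneg (hr0 _) (hr0 _)) (hr0 _), ENNReal.ofReal_mul (p := (L : ℝ) ^ ε * (EE' μ s P₁.l)⁻¹) (hr0 _),
      ofReal_list_prod _ fun Q => hr0 _, List.map_append, List.prod_append, ENNReal.ofReal_add (by positivity) (by positivity),
      ENNReal.ofReal_mul (p := (3 : ℝ)) (by norm_num), ENNReal.ofReal_mul (p := 2 * ((k : ℝ) + 2)) (by positivity),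
      ENNReal.ofReal_mul (p := (2 : ℝ)) (by norm_num), ENNReal.ofReal_add (by positivity) (by norm_num), ENNReal.ofReal_natCast,
      ENNReal.ofReal_ofNat, ENNReal.ofReal_ofNat, hF, List.length_append, List.length_cons, List.length_cons]
    have hlk : ((Qs₁.length + (Qs₂.length + 1 + 1) : ℕ) : ℝ≥0∞) = k + 2 := by
      have : Qs₁.length + (Qs₂.length + 1 + 1) = k + 2 := by omega
      rw [this]
      push_cast
      rfl
    rw [hlk]
    ring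

end Pool.Agent.W_7d29a1_C0.P86
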