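import Pool.Agent.W_7d29a1_C0.TauP62
import Pool.Agent.W_7d29a1_C0.TauN62
import Pool.Agent.W_7d29a1_C0.Tg93

/-!
CURV0 (MP_7d29a1_pr), leaf E1f (helper62): THE PRICE OF TWO ROWS. `tp_two`: the near ties of two windows `[U, V]`, `[U', V']`, `V + D ≤ U'`,
seen from behind the row `m` of one path, together with the outer tie: `N ^ ε (E_b ^ -2 + E_D ^ -1) E_l ^ -1`. `tp_pair`: the functionals
`uT` of two rows `j`, `k` at any distance. `tp_pr2`: the same in the form of `grp93` (helper93).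
-/

set_option autoImplicit false
set_option linter.unusedSectionVars false
set_option linter.unusedVariables false

namespace Pool.Agent.W_7d29a1_C0.E62

open Finset MeasureTheory
open Pool.Agent.W_7d29a1_F Pool.Agent.W_7d29a1_X Pool.Agent.W_7d29a1_H
open Pool.Agent.W_7d29a1_HS (In wd)
open Pool.Agent.W_7d29a1_HZ (EE' wd')
open Pool.Agent.W_7d29a1_C0.Mod92 (Px Pn lw ps pJ ne_Pn wm Pm meas_lw meas_cE meas_gm meas_wm int_bdd)
open Pool.Agent.W_7d29a1_C0.Swap57 (NI NI_nonneg cE2)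
open Pool.Agent.W_7d29a1_C0.P86 (NoMeet mc tauI tau_num ev_mul86 EE'_le_mul86 mc_nonneg)
open Pool.Agent.W_7d29a1_HZ.Z86 (ev_const)
open Pool.W7d29a1.C0 (gm gz gz_pos gm_nonneg gm_mono gm_const)
open Pool.W7d29a1.C0.VT31 (Mp cE fz)
open Pool.W7d29a1.C0.R43 (Tau Rp mI st swP_pJ tau_rp cE2_mI mI_nonneg)

noncomputable section

variable {μ : Measure ℝ} {s : ℝ} {N y : ℕ}

/-! ### Measurability -/

theorem meas_cE62 {Ω : Type*} [MeasurableSpace Ω] {X Y : Type*} [Fintype X] [DecidableEq Y] {w : Ω → X → ℝ}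
    (hw : ∀ x, Measurable fun ω => w ω x) (p : X → Y) (f : X → ℝ) (x : X) : Measurable fun ω => cE (w ω) p f x :=
  meas_cE (f := fun _ => f) hw (fun _ => measurable_const) p x

theorem meas_cE262 {Ω : Type*} [MeasurableSpace Ω] {X Y : Type*} [Fintype X] [DecidableEq Y] {w : Ω → X → ℝ}
    (hw : ∀ x, Measurable fun ω => w ω x) (p : X → Y) (K : X → X → ℝ) (x x' : X) : Measurable fun ω => cE2 (w ω) p K x x' :=
  meas_cE (f := fun ω z => cE (w ω) p (K z) x') hw (fun z => meas_cE62 hw p (K z) x') p x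

theorem meas_iT {Q : Finset (Finset ℕ)} (m U V : ℕ) (M : ℝ) (x : Px Q) :
    Measurable fun ω : Env × Finset ℕ => iT (wm μ s N Q ω) m U V M x := by
  classical
  have h : MeasurableSet {ω : Env × Finset ℕ | Tau (wm μ s N Q ω) (pJ 0 m) U V M x} :=
    measurableSet_le measurable_const (meas_cE262 meas_wm (pJ 0 m) (NI U V) x x)
  exact Measurable.ite h measurable_const measurable_const

theorem meas_hI (m : ℕ) (A : Finset ℕ → Finset ℕ → Prop) (M : ℝ) (x : Px (Pn N y)) :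
    Measurable fun ω : Env × Finset ℕ => hI μ s N y m A M ω x := by
  classical
  have h1 : ∀ ω : Env × Finset ℕ, mc μ s N y 0 m A ω.1 x.1 =
      cE (wm μ s N (Pn N y) ω) (pJ 0 m) (fun x' => if A x.1 x'.1 then (1 : ℝ) else 0) x := fun ω => by
    unfold mc
    rw [dif_pos x.2]
    rfl
  have h2 : Measurable fun ω : Env × Finset ℕ => mc μ s N y 0 m A ω.1 x.1 := by
    simp only [h1]
    exact meas_cE62 meas_wm (pJ 0 m) _ x
  exact Measurable.ite (measurableSet_lt measurable_const h2) measurable_const measurable_const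

theorem int_le62 {Ω : Type*} [MeasurableSpace Ω] {ν : Measure Ω} [IsProbabilityMeasure ν] {F A B : Ω → ℝ} {e : ℝ}
    (hF : ∀ ω, 0 ≤ F ω) (hA : Integrable A ν) (hB : Integrable B ν) (h : ∀ ω, F ω ≤ e + (A ω + B ω)) :
    ∫ ω, F ω ∂ν ≤ e + (∫ ω, A ω ∂ν + ∫ ω, B ω ∂ν) := by
  have h1 := integral_mono_of_nonneg (μ := ν) (Filter.Eventually.of_forall hF)
    (g := fun ω => e + (A ω + B ω)) ((integrable_const e).add (hA.add hB)) (Filter.Eventually.of_forall h)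
  refine h1.trans (le_of_eq ?_)
  have e1 : ∫ ω, (e + (A ω + B ω)) ∂ν = ∫ _ω, e ∂ν + ∫ ω, (A ω + B ω) ∂ν := integral_add (integrable_const e) (hA.add hB)
  have e2 : ∫ ω, (A ω + B ω) ∂ν = ∫ ω, A ω ∂ν + ∫ ω, B ω ∂ν := integral_add hA hB
  rw [e1, e2, integral_const, probReal_univ, one_smul]

theorem meas_oN {Q : Finset (Finset ℕ)} (m0 m1 : ℕ) (x : Px Q) :
    Measurable fun ω : Env × Finset ℕ => gm (wm μ s N Q ω) (NI m0 m1 x) := meas_gm meas_wm fun _ => measurable_const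

theorem abs_gm_le62 {X : Type*} [Fintype X] [Nonempty X] (w : X → ℝ) {f : X → ℝ} {K : ℝ} (h0 : ∀ x, 0 ≤ f x) (h1 : ∀ x, f x ≤ K) :
    |gm w f| ≤ K := by
  rw [abs_of_nonneg (gm_nonneg _ h0)]
  exact (gm_mono _ h1).trans_eq (gm_const _ K)

variable [IsProbabilityMeasure μ] {c₀ C₀ : ℝ} {n₀ : ℕ}

theorem EE'_pos62 (n : ℕ) : 0 < EE' μ s n := lt_of_lt_of_le one_pos (le_max_left _ _)

/-- **TWO NEAR TIES** behind the row `m`, with the outer tie. -/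
theorem tp_two (h : In μ s c₀ C₀ n₀) : ∀ ε θ : ℝ, 0 < ε → 0 < θ → ∃ δ κ c₂ : ℝ, 0 < δ ∧ 0 < κ ∧ 0 < c₂ ∧ ∃ L₀ : ℕ,
    ∀ N : ℕ, L₀ ≤ N → ∀ y : ℕ, y ≤ N → |(y : ℝ) - sl μ s * N| ≤ ((N : ℝ) ^ δ * wd' μ s N) →
    ∀ m U V U' V' m0 m1 b D l : ℕ, U + b ≤ V → V + D ≤ U' → U' + b ≤ V' → V' ≤ m → m ≤ m0 → m0 + l ≤ m1 → m1 ≤ N →
    (N : ℝ) ^ θ ≤ b → (N : ℝ) ^ θ ≤ D → (N : ℝ) ^ θ ≤ l → ∀ M : ℝ, 8 ≤ M → M ≤ (N : ℝ) ^ κ →
    ∫ ω, gm (wm μ s N (Pn N y) ω) (fun x => iT (wm μ s N (Pn N y) ω) m U V M x * (iT (wm μ s N (Pn N y) ω) m U' V' M x *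
      gm (wm μ s N (Pn N y) ω) (NI m0 m1 x))) ∂(Pm μ N) ≤
      (N : ℝ) ^ ε * (((EE' μ s b)⁻¹ * (EE' μ s b)⁻¹ + (EE' μ s D)⁻¹) * (EE' μ s l)⁻¹) +
        (2 * Real.exp (-(N : ℝ) ^ c₂) + 11 * Real.exp (-M)) := by
  intro ε θ hε hθ
  obtain ⟨δ₃, κ₃, c₃, hδ₃, hκ₃, hc₃, L₃, P3⟩ := tp_three h (ε / 2) (θ / 2) (by positivity) (by positivity)
  obtain ⟨δ₄, κ₄, c₄, hδ₄, hκ₄, hc₄, L₄, P4⟩ := tp_gap h ε θ hε hθ
  obtain ⟨κ₁, hκ₁⟩ : ∃ k, k = min κ₃ κ₄ := ⟨_, rfl⟩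
  have hκ₁0 : 0 < κ₁ := by rw [hκ₁]; exact lt_min hκ₃ hκ₄
  obtain ⟨κ, hκd⟩ : ∃ κ, κ = min (κ₁ / 2) (min (ε / 4) (min (θ / 4) (1 / 2))) := ⟨_, rfl⟩
  have hκ : 0 < κ := by
    rw [hκd]
    exact lt_min (by positivity) (lt_min (by positivity) (lt_min (by positivity) (by norm_num)))
  have k1 : κ < κ₁ := by
    have : κ ≤ κ₁ / 2 := by rw [hκd]; exact min_le_left _ _
    linarith
  have k2 : κ < ε / 2 := by
    have : κ ≤ ε / 4 := by rw [hκd]; exact (min_le_right _ _).trans (min_le_left _ _)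
    linarith
  have k3 : κ < θ / 2 := by
    have : κ ≤ θ / 4 := by rw [hκd]; exact (min_le_right _ _).trans ((min_le_right _ _).trans (min_le_left _ _))
    linarith
  have k4 : κ < 1 := by
    have : κ ≤ 1 / 2 := by rw [hκd]; exact (min_le_right _ _).trans ((min_le_right _ _).trans (min_le_right _ _))
    linarith
  obtain ⟨L₅, hNum⟩ := tau_num hκ k1 k2 k3 k4 hθ
  obtain ⟨L₆, h8⟩ := ev_mul86 8 k1
  refine ⟨min δ₃ δ₄, κ, min c₃ c₄, lt_min hδ₃ hδ₄, hκ, lt_min hc₃ hc₄, L₃ + L₄ + L₅ + L₆ + 1, ?_⟩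
  intro N hN y hyN hyc m U V U' V' m0 m1 b D l hUV hVU hUV' hVm hmm hml hmN hb hD hl M hM hMN
  classical
  have := ne_Pn (N := N) (y := y) hyN
  have hNR : (1 : ℝ) ≤ N := by exact_mod_cast (show 1 ≤ N by omega)
  have hN0 : (0 : ℝ) < N := by linarith
  have hwd : 0 < wd' μ s N := lt_of_lt_of_le one_pos (le_max_left _ _)
  have hcone : ∀ δ', min δ₃ δ₄ ≤ δ' → |(y : ℝ) - sl μ s * N| ≤ ((N : ℝ) ^ δ' * wd' μ s N) := fun δ' hδ' =>
    hyc.trans (mul_le_mul_of_nonneg_right (Real.rpow_le_rpow_of_exponent_le hNR hδ') hwd.le)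
  have pk3 : (N : ℝ) ^ κ₁ ≤ (N : ℝ) ^ κ₃ := Real.rpow_le_rpow_of_exponent_le hNR (by rw [hκ₁]; exact min_le_left _ _)
  have pk4 : (N : ℝ) ^ κ₁ ≤ (N : ℝ) ^ κ₄ := Real.rpow_le_rpow_of_exponent_le hNR (by rw [hκ₁]; exact min_le_right _ _)
  have pth : (N : ℝ) ^ (θ / 2) ≤ (N : ℝ) ^ θ := Real.rpow_le_rpow_of_exponent_le hNR (by linarith)
  obtain ⟨q, hq⟩ : ∃ q, q = ⌈10 * M⌉₊ := ⟨_, rfl⟩
  obtain ⟨n1, n2, n3, n4, n5, n6, n7, n8, n9⟩ := hNum N (by omega) M hM hMN b hb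
  rw [← hq] at n1 n2 n3 n4 n5 n6 n8 n9
  obtain ⟨l', hl'⟩ : ∃ l', l' = b / (3 * q) - 1 := ⟨_, rfl⟩
  rw [← hl'] at n3 n4 n8
  have h8M : 8 * M ≤ (N : ℝ) ^ κ₁ := (mul_le_mul_of_nonneg_left hMN (by norm_num)).trans (h8 N (by omega))
  have i3 := P3 N (by omega) y hyN (hcone _ (min_le_left _ _)) m U V U' V' m0 m1 b l' l q (by omega) (by omega) hUV' hVm hmm hml hmN
    (pth.trans hb) n4 (pth.trans hl) (n5.trans pk3) M hM (h8M.trans pk3)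
  have i4 := P4 N (by omega) y hyN (hcone _ (min_le_right _ _)) m V U' m0 m1 D l hVU (by omega) hmm hml hmN hD hl M hM (h8M.trans pk4)
  -- the prices of the pieces
  have hEb := EE'_pos62 (μ := μ) (s := s) b
  have hEl' := EE'_pos62 (μ := μ) (s := s) l'
  have hEl := EE'_pos62 (μ := μ) (s := s) l
  have hq0 : 1 ≤ 9 * q := by
    have : (0 : ℝ) < q := by linarith
    have : 0 < q := by exact_mod_cast this
    omega
  have e1 : EE' μ s b ≤ ((9 * q : ℕ) : ℝ) * EE' μ s l' := EE'_le_mul86 h hq0 n8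
  have e2 : (EE' μ s l')⁻¹ ≤ (N : ℝ) ^ (ε / 2) * (EE' μ s b)⁻¹ := by
    rw [inv_le_iff_one_le_mul₀ hEl', mul_assoc]
    have e3 : (EE' μ s b)⁻¹ * EE' μ s b = 1 := inv_mul_cancel₀ hEb.ne'
    calc (1 : ℝ) = (EE' μ s b)⁻¹ * EE' μ s b := e3.symm
      _ ≤ (EE' μ s b)⁻¹ * ((N : ℝ) ^ (ε / 2) * EE' μ s l') :=
          mul_le_mul_of_nonneg_left (e1.trans (mul_le_mul_of_nonneg_right n9 hEl'.le)) (inv_nonneg.2 hEb.le)
      _ = _ := by ring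
  -- the three parts
  have m3 : Measurable fun ω : Env × Finset ℕ => gm (wm μ s N (Pn N y) ω) (fun x => hI μ s N y m (A1 U l' q U') M ω x *
      (iT (wm μ s N (Pn N y) ω) m U' V' M x * gm (wm μ s N (Pn N y) ω) (NI m0 m1 x))) :=
    meas_gm meas_wm fun x => (meas_hI _ _ _ _).mul ((meas_iT _ _ _ _ _).mul (meas_oN _ _ _))
  have m4 : Measurable fun ω : Env × Finset ℕ => gm (wm μ s N (Pn N y) ω) (fun x => hI μ s N y m (NoMeet V U') M ω x *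
      gm (wm μ s N (Pn N y) ω) (NI m0 m1 x)) :=
    meas_gm meas_wm fun x => (meas_hI _ _ _ _).mul (meas_oN _ _ _)
  have h01 : ∀ (ω : Env × Finset ℕ) x, 0 ≤ iT (wm μ s N (Pn N y) ω) m U' V' M x * gm (wm μ s N (Pn N y) ω) (NI m0 m1 x) ∧
      iT (wm μ s N (Pn N y) ω) m U' V' M x * gm (wm μ s N (Pn N y) ω) (NI m0 m1 x) ≤ gm (wm μ s N (Pn N y) ω) (NI m0 m1 x) := fun ω x =>
    ⟨mul_nonneg (iT_nonneg _ _ _ _ _ _) (oN_nonneg _ _ _ _),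
      mul_le_of_le_one_left (oN_nonneg _ _ _ _) (iT_le _ _ _ _ _ _)⟩
  have j3 : Integrable (fun ω : Env × Finset ℕ => gm (wm μ s N (Pn N y) ω) (fun x => hI μ s N y m (A1 U l' q U') M ω x *
      (iT (wm μ s N (Pn N y) ω) m U' V' M x * gm (wm μ s N (Pn N y) ω) (NI m0 m1 x)))) (Pm μ N) :=
    int_bdd m3 (M := 1) fun ω => abs_gm_le62 _ (fun x => mul_nonneg (hI_nonneg _ _ _ _ _) (h01 ω x).1) fun x =>
      mul_le_one₀ (hI_le_one _ _ _ _ _) (h01 ω x).1 ((h01 ω x).2.trans (oN_le_one _ _ _ _))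
  have j4 : Integrable (fun ω : Env × Finset ℕ => gm (wm μ s N (Pn N y) ω) (fun x => hI μ s N y m (NoMeet V U') M ω x *
      gm (wm μ s N (Pn N y) ω) (NI m0 m1 x))) (Pm μ N) :=
    int_bdd m4 (M := 1) fun ω => abs_gm_le62 _ (fun x => mul_nonneg (hI_nonneg _ _ _ _ _) (oN_nonneg _ _ _ _)) fun x =>
      mul_le_one₀ (hI_le_one _ _ _ _ _) (oN_nonneg _ _ _ _) (oN_le_one _ _ _ _)
  have pt : ∀ ω : Env × Finset ℕ, gm (wm μ s N (Pn N y) ω) (fun x => iT (wm μ s N (Pn N y) ω) m U V M x *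
      (iT (wm μ s N (Pn N y) ω) m U' V' M x * gm (wm μ s N (Pn N y) ω) (NI m0 m1 x))) ≤
      Real.exp (-M) + (gm (wm μ s N (Pn N y) ω) (fun x => hI μ s N y m (A1 U l' q U') M ω x *
        (iT (wm μ s N (Pn N y) ω) m U' V' M x * gm (wm μ s N (Pn N y) ω) (NI m0 m1 x))) +
      gm (wm μ s N (Pn N y) ω) (fun x => hI μ s N y m (NoMeet V U') M ω x * gm (wm μ s N (Pn N y) ω) (NI m0 m1 x))) := fun ω => by
    have g1 : gm (wm μ s N (Pn N y) ω) (tR (wm μ s N (Pn N y) ω) m U V l' q M) ≤ Real.exp (-M) :=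
      tau_rp (μ := μ) (s := s) (N := N) (Q := Pn N y) ω.1 (swP_pJ (Nat.zero_le m)) U l' q hM n1 n2 (by omega)
    have g2 : ∀ x, iT (wm μ s N (Pn N y) ω) m U V M x *
        (iT (wm μ s N (Pn N y) ω) m U' V' M x * gm (wm μ s N (Pn N y) ω) (NI m0 m1 x)) ≤
        tR (wm μ s N (Pn N y) ω) m U V l' q M x + (hI μ s N y m (A1 U l' q U') M ω x *
        (iT (wm μ s N (Pn N y) ω) m U' V' M x * gm (wm μ s N (Pn N y) ω) (NI m0 m1 x)) +
        hI μ s N y m (NoMeet V U') M ω x * gm (wm μ s N (Pn N y) ω) (NI m0 m1 x)) := fun x => by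
      obtain ⟨a1, a2⟩ := h01 ω x
      have a3 := iT_split (μ := μ) (s := s) (N := N) (y := y) (m := m) (V := V) (U' := U') hM (show U + 3 * q * (l' + 1) ≤ V by omega)
        (show U' ≤ m by omega) ω x
      have a4 := tR_nonneg (wm μ s N (Pn N y) ω) m U V l' q M x
      have a5 := hI_nonneg (μ := μ) (s := s) m (NoMeet V U') M ω x
      have a6 := a2.trans (oN_le_one (wm μ s N (Pn N y) ω) m0 m1 x)
      calc _ ≤ (tR (wm μ s N (Pn N y) ω) m U V l' q M x + hI μ s N y m (A1 U l' q U') M ω x + hI μ s N y m (NoMeet V U') M ω x) *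
            (iT (wm μ s N (Pn N y) ω) m U' V' M x * gm (wm μ s N (Pn N y) ω) (NI m0 m1 x)) := mul_le_mul_of_nonneg_right a3 a1
        _ = tR (wm μ s N (Pn N y) ω) m U V l' q M x *
              (iT (wm μ s N (Pn N y) ω) m U' V' M x * gm (wm μ s N (Pn N y) ω) (NI m0 m1 x)) +
            (hI μ s N y m (A1 U l' q U') M ω x *
              (iT (wm μ s N (Pn N y) ω) m U' V' M x * gm (wm μ s N (Pn N y) ω) (NI m0 m1 x)) +
            hI μ s N y m (NoMeet V U') M ω x *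
              (iT (wm μ s N (Pn N y) ω) m U' V' M x * gm (wm μ s N (Pn N y) ω) (NI m0 m1 x))) := by ring
        _ ≤ _ := add_le_add (mul_le_of_le_one_right a4 a6) (add_le_add le_rfl (mul_le_mul_of_nonneg_left a2 a5))
    refine (gm_mono _ g2).trans ?_
    have g3 : (fun x => tR (wm μ s N (Pn N y) ω) m U V l' q M x + (hI μ s N y m (A1 U l' q U') M ω x *
        (iT (wm μ s N (Pn N y) ω) m U' V' M x * gm (wm μ s N (Pn N y) ω) (NI m0 m1 x)) +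
        hI μ s N y m (NoMeet V U') M ω x * gm (wm μ s N (Pn N y) ω) (NI m0 m1 x))) =
        tR (wm μ s N (Pn N y) ω) m U V l' q M + ((fun x => hI μ s N y m (A1 U l' q U') M ω x *
        (iT (wm μ s N (Pn N y) ω) m U' V' M x * gm (wm μ s N (Pn N y) ω) (NI m0 m1 x))) +
        fun x => hI μ s N y m (NoMeet V U') M ω x * gm (wm μ s N (Pn N y) ω) (NI m0 m1 x)) := rfl
    rw [g3, Pool.W7d29a1.C0.gm_add, Pool.W7d29a1.C0.gm_add]
    exact add_le_add g1 le_rfl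
  have fin := int_le62 (ν := Pm μ N) (fun ω => gm_nonneg (wm μ s N (Pn N y) ω) fun x =>
    mul_nonneg (iT_nonneg (wm μ s N (Pn N y) ω) m U V M x) (h01 ω x).1) j3 j4 pt
  have hx3 : Real.exp (-(N : ℝ) ^ c₃) ≤ Real.exp (-(N : ℝ) ^ min c₃ c₄) :=
    Real.exp_le_exp.2 (neg_le_neg (Real.rpow_le_rpow_of_exponent_le hNR (min_le_left _ _)))
  have hx4 : Real.exp (-(N : ℝ) ^ c₄) ≤ Real.exp (-(N : ℝ) ^ min c₃ c₄) :=
    Real.exp_le_exp.2 (neg_le_neg (Real.rpow_le_rpow_of_exponent_le hNR (min_le_right _ _)))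
  have hp : (N : ℝ) ^ (ε / 2) * ((EE' μ s l')⁻¹ * (EE' μ s b)⁻¹ * (EE' μ s l)⁻¹) ≤
      (N : ℝ) ^ ε * ((EE' μ s b)⁻¹ * (EE' μ s b)⁻¹ * (EE' μ s l)⁻¹) := by
    have e5 : (N : ℝ) ^ ε = (N : ℝ) ^ (ε / 2) * (N : ℝ) ^ (ε / 2) := by rw [← Real.rpow_add hN0, add_halves]
    have e6 : 0 ≤ (EE' μ s b)⁻¹ * (EE' μ s l)⁻¹ := mul_nonneg (inv_nonneg.2 hEb.le) (inv_nonneg.2 hEl.le)
    have e7 := mul_le_mul_of_nonneg_right e2 e6
    have e8 := mul_le_mul_of_nonneg_left e7 (Real.rpow_nonneg hN0.le (ε / 2))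
    rw [e5]
    calc _ = (N : ℝ) ^ (ε / 2) * ((EE' μ s l')⁻¹ * ((EE' μ s b)⁻¹ * (EE' μ s l)⁻¹)) := by ring
      _ ≤ _ := e8
      _ = _ := by ring
  have hpos := (Real.exp_pos (-M)).le
  calc _ ≤ _ := fin
    _ ≤ Real.exp (-M) + (((N : ℝ) ^ (ε / 2) * ((EE' μ s l')⁻¹ * (EE' μ s b)⁻¹ * (EE' μ s l)⁻¹) +
          (Real.exp (-(N : ℝ) ^ c₃) + 6 * Real.exp (-M))) +
        ((N : ℝ) ^ ε * ((EE' μ s D)⁻¹ * (EE' μ s l)⁻¹) + (Real.exp (-(N : ℝ) ^ c₄) + 4 * Real.exp (-M)))) :=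
        add_le_add le_rfl (add_le_add i3 i4)
    _ ≤ _ := by
        have e9 : (N : ℝ) ^ ε * (((EE' μ s b)⁻¹ * (EE' μ s b)⁻¹ + (EE' μ s D)⁻¹) * (EE' μ s l)⁻¹) =
            (N : ℝ) ^ ε * ((EE' μ s b)⁻¹ * (EE' μ s b)⁻¹ * (EE' μ s l)⁻¹) + (N : ℝ) ^ ε * ((EE' μ s D)⁻¹ * (EE' μ s l)⁻¹) := by ring
        rw [e9]
        linarith

/-! ### Two rows at any distance -/

omit [IsProbabilityMeasure μ] in
/-- The near ties of the window `[j - b, j + b]`, everything behind `m` given. -/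
def uT {Q : Finset (Finset ℕ)} (w : Px Q → ℝ) (m b : ℕ) (M : ℝ) (j : ℕ) (x : Px Q) : ℝ :=
  iT w m (j - b) j M x + iT w m j (j + b) M x

omit [IsProbabilityMeasure μ] in
theorem uT_nonneg {Q : Finset (Finset ℕ)} (w : Px Q → ℝ) (m b : ℕ) (M : ℝ) (j : ℕ) (x : Px Q) : 0 ≤ uT w m b M j x :=
  add_nonneg (iT_nonneg _ _ _ _ _ _) (iT_nonneg _ _ _ _ _ _)

omit [IsProbabilityMeasure μ] in
theorem uT_le {Q : Finset (Finset ℕ)} (w : Px Q → ℝ) (m b : ℕ) (M : ℝ) (j : ℕ) (x : Px Q) : uT w m b M j x ≤ 2 := by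
  have h1 := iT_le w m (j - b) j M x
  have h2 := iT_le w m j (j + b) M x
  unfold uT
  linarith

omit [IsProbabilityMeasure μ] in
theorem meas_uT {Q : Finset (Finset ℕ)} (m b : ℕ) (M : ℝ) (j : ℕ) (x : Px Q) :
    Measurable fun ω : Env × Finset ℕ => uT (wm μ s N Q ω) m b M j x := (meas_iT _ _ _ _ _).add (meas_iT _ _ _ _ _)

/-- Two near ties and the outer tie. -/
def FF (μ : Measure ℝ) (s : ℝ) (N y m m0 m1 : ℕ) (M : ℝ) (U V U' V' : ℕ) (ω : Env × Finset ℕ) : ℝ :=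
  gm (wm μ s N (Pn N y) ω) (fun x => iT (wm μ s N (Pn N y) ω) m U V M x * (iT (wm μ s N (Pn N y) ω) m U' V' M x *
    gm (wm μ s N (Pn N y) ω) (NI m0 m1 x)))

/-- One near tie and the outer tie. -/
def F1 (μ : Measure ℝ) (s : ℝ) (N y m m0 m1 : ℕ) (M : ℝ) (U V : ℕ) (ω : Env × Finset ℕ) : ℝ :=
  gm (wm μ s N (Pn N y) ω) (fun x => iT (wm μ s N (Pn N y) ω) m U V M x * gm (wm μ s N (Pn N y) ω) (NI m0 m1 x))

theorem int_FF [Nonempty (Px (Pn N y))] (m m0 m1 : ℕ) (M : ℝ) (U V U' V' : ℕ) : Integrable (FF μ s N y m m0 m1 M U V U' V') (Pm μ N) := by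
  refine int_bdd (M := 1) ?_ fun ω => ?_
  · exact meas_gm meas_wm fun x => (meas_iT _ _ _ _ _).mul ((meas_iT _ _ _ _ _).mul (meas_oN _ _ _))
  · refine abs_gm_le62 _ (fun x => ?_) fun x => ?_
    · exact mul_nonneg (iT_nonneg _ _ _ _ _ _) (mul_nonneg (iT_nonneg _ _ _ _ _ _) (oN_nonneg _ _ _ _))
    · exact mul_le_one₀ (iT_le _ _ _ _ _ _) (mul_nonneg (iT_nonneg _ _ _ _ _ _) (oN_nonneg _ _ _ _))
        (mul_le_one₀ (iT_le _ _ _ _ _ _) (oN_nonneg _ _ _ _) (oN_le_one _ _ _ _))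

theorem int_F1 [Nonempty (Px (Pn N y))] (m m0 m1 : ℕ) (M : ℝ) (U V : ℕ) : Integrable (F1 μ s N y m m0 m1 M U V) (Pm μ N) := by
  refine int_bdd (M := 1) ?_ fun ω => ?_
  · exact meas_gm meas_wm fun x => (meas_iT _ _ _ _ _).mul (meas_oN _ _ _)
  · refine abs_gm_le62 _ (fun x => ?_) fun x => ?_
    · exact mul_nonneg (iT_nonneg _ _ _ _ _ _) (oN_nonneg _ _ _ _)
    · exact mul_le_one₀ (iT_le _ _ _ _ _ _) (oN_nonneg _ _ _ _) (oN_le_one _ _ _ _)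

omit [IsProbabilityMeasure μ] in
theorem uu_split [Nonempty (Px (Pn N y))] (m b m0 m1 : ℕ) (M : ℝ) (j k : ℕ) (ω : Env × Finset ℕ) :
    gm (wm μ s N (Pn N y) ω) (fun x => uT (wm μ s N (Pn N y) ω) m b M j x * (uT (wm μ s N (Pn N y) ω) m b M k x *
      gm (wm μ s N (Pn N y) ω) (NI m0 m1 x))) =
    (FF μ s N y m m0 m1 M (j - b) j (k - b) k ω + FF μ s N y m m0 m1 M (j - b) j k (k + b) ω) +
      (FF μ s N y m m0 m1 M j (j + b) (k - b) k ω + FF μ s N y m m0 m1 M j (j + b) k (k + b) ω) := by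
  unfold FF
  rw [← Pool.W7d29a1.C0.gm_add, ← Pool.W7d29a1.C0.gm_add, ← Pool.W7d29a1.C0.gm_add]
  congr 1
  funext x
  simp only [Pi.add_apply]
  unfold uT
  ring

theorem int_four62 {Ω : Type*} [MeasurableSpace Ω] {ν : Measure Ω} {A B C D : Ω → ℝ} (hA : Integrable A ν) (hB : Integrable B ν)
    (hC : Integrable C ν) (hD : Integrable D ν) : ∫ ω, ((A ω + B ω) + (C ω + D ω)) ∂ν =
      (∫ ω, A ω ∂ν + ∫ ω, B ω ∂ν) + (∫ ω, C ω ∂ν + ∫ ω, D ω ∂ν) := by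
  have e1 : ∫ ω, ((A ω + B ω) + (C ω + D ω)) ∂ν = ∫ ω, (A ω + B ω) ∂ν + ∫ ω, (C ω + D ω) ∂ν := integral_add (hA.add hB) (hC.add hD)
  have e2 : ∫ ω, (A ω + B ω) ∂ν = ∫ ω, A ω ∂ν + ∫ ω, B ω ∂ν := integral_add hA hB
  have e3 : ∫ ω, (C ω + D ω) ∂ν = ∫ ω, C ω ∂ν + ∫ ω, D ω ∂ν := integral_add hC hD
  rw [e1, e2, e3]

/-- **TWO ROWS AT ANY DISTANCE.** -/
theorem tp_pair (h : In μ s c₀ C₀ n₀) : ∀ ε θ : ℝ, 0 < ε → 0 < θ → ∃ δ κ c₂ : ℝ, 0 < δ ∧ 0 < κ ∧ 0 < c₂ ∧ ∃ L₀ : ℕ,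
    ∀ N : ℕ, L₀ ≤ N → ∀ y : ℕ, y ≤ N → |(y : ℝ) - sl μ s * N| ≤ ((N : ℝ) ^ δ * wd' μ s N) →
    ∀ m m0 m1 b l : ℕ, m ≤ m0 → m0 + l ≤ m1 → m1 ≤ N → (N : ℝ) ^ θ ≤ b → (N : ℝ) ^ θ ≤ l →
    ∀ M : ℝ, 8 ≤ M → M ≤ (N : ℝ) ^ κ → ∀ j k : ℕ, b ≤ j → j + b ≤ m → b ≤ k → k + b ≤ m →
    ∫ ω, gm (wm μ s N (Pn N y) ω) (fun x => uT (wm μ s N (Pn N y) ω) m b M j x * (uT (wm μ s N (Pn N y) ω) m b M k x *
      gm (wm μ s N (Pn N y) ω) (NI m0 m1 x))) ∂(Pm μ N) ≤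
      (N : ℝ) ^ ε * ((if T93.rdist j k < 4 * b then (EE' μ s b)⁻¹ * (EE' μ s l)⁻¹ else 0) +
        (EE' μ s (max (T93.rdist j k) b))⁻¹ * (EE' μ s l)⁻¹ + (EE' μ s b)⁻¹ * (EE' μ s b)⁻¹ * (EE' μ s l)⁻¹) +
        (8 * Real.exp (-(N : ℝ) ^ c₂) + 44 * Real.exp (-M)) := by
  intro ε θ hε hθ
  obtain ⟨δ₃, κ₃, c₃, hδ₃, hκ₃, hc₃, L₃, P3⟩ := tp_two h (ε / 2) θ (by positivity) hθ
  obtain ⟨δ₄, κ₄, c₄, hδ₄, hκ₄, hc₄, L₄, P4⟩ := tp_one h (ε / 2) θ (by positivity) hθ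
  obtain ⟨L₅, h12⟩ := ev_const (12 : ℝ) (show 0 < ε / 2 by positivity)
  refine ⟨min δ₃ δ₄, min κ₃ κ₄, min c₃ c₄, lt_min hδ₃ hδ₄, lt_min hκ₃ hκ₄, lt_min hc₃ hc₄, L₃ + L₄ + L₅ + 1, ?_⟩
  intro N hN y hyN hyc m m0 m1 b l hmm hml hmN hb hl M hM hMN
  have := ne_Pn (N := N) (y := y) hyN
  have hNR : (1 : ℝ) ≤ N := by exact_mod_cast (show 1 ≤ N by omega)
  have hN0 : (0 : ℝ) < N := by linarith
  have hb1 : 1 ≤ b := by
    have : (1 : ℝ) ≤ b := (Real.one_le_rpow hNR hθ.le).trans hb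
    exact_mod_cast this
  have hwd : 0 < wd' μ s N := lt_of_lt_of_le one_pos (le_max_left _ _)
  have hcone : ∀ δ', min δ₃ δ₄ ≤ δ' → |(y : ℝ) - sl μ s * N| ≤ ((N : ℝ) ^ δ' * wd' μ s N) := fun δ' hδ' =>
    hyc.trans (mul_le_mul_of_nonneg_right (Real.rpow_le_rpow_of_exponent_le hNR hδ') hwd.le)
  have hM3 : M ≤ (N : ℝ) ^ κ₃ := hMN.trans (Real.rpow_le_rpow_of_exponent_le hNR (min_le_left _ _))
  have hM4 : M ≤ (N : ℝ) ^ κ₄ := hMN.trans (Real.rpow_le_rpow_of_exponent_le hNR (min_le_right _ _))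
  have hx3 : Real.exp (-(N : ℝ) ^ c₃) ≤ Real.exp (-(N : ℝ) ^ min c₃ c₄) :=
    Real.exp_le_exp.2 (neg_le_neg (Real.rpow_le_rpow_of_exponent_le hNR (min_le_left _ _)))
  have hx4 : Real.exp (-(N : ℝ) ^ c₄) ≤ Real.exp (-(N : ℝ) ^ min c₃ c₄) :=
    Real.exp_le_exp.2 (neg_le_neg (Real.rpow_le_rpow_of_exponent_le hNR (min_le_right _ _)))
  have hEb := EE'_pos62 (μ := μ) (s := s) b
  have hEl := EE'_pos62 (μ := μ) (s := s) l
  have hEi : ∀ n, 0 ≤ (EE' μ s n)⁻¹ := fun n => inv_nonneg.2 (EE'_pos62 n).le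
  have h12' : 12 * (N : ℝ) ^ (ε / 2) ≤ (N : ℝ) ^ ε := by
    have e5 : (N : ℝ) ^ ε = (N : ℝ) ^ (ε / 2) * (N : ℝ) ^ (ε / 2) := by rw [← Real.rpow_add hN0, add_halves]
    rw [e5]
    exact mul_le_mul_of_nonneg_right (h12 N (by omega)) (Real.rpow_nonneg hN0.le _)
  have hNe : 0 ≤ (N : ℝ) ^ (ε / 2) := Real.rpow_nonneg hN0.le _
  have hexp := (Real.exp_pos (-M)).le
  have hexp3 := (Real.exp_pos (-(N : ℝ) ^ min c₃ c₄)).le
  -- far rows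
  have far : ∀ j k : ℕ, b ≤ j → j + 4 * b ≤ k → k + b ≤ m →
      ∫ ω, gm (wm μ s N (Pn N y) ω) (fun x => uT (wm μ s N (Pn N y) ω) m b M j x * (uT (wm μ s N (Pn N y) ω) m b M k x *
        gm (wm μ s N (Pn N y) ω) (NI m0 m1 x))) ∂(Pm μ N) ≤
      (N : ℝ) ^ ε * ((EE' μ s (k - j))⁻¹ * (EE' μ s l)⁻¹ + (EE' μ s b)⁻¹ * (EE' μ s b)⁻¹ * (EE' μ s l)⁻¹) +
        (8 * Real.exp (-(N : ℝ) ^ min c₃ c₄) + 44 * Real.exp (-M)) := fun j k hj hjk hkm => by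
    obtain ⟨D, hD⟩ : ∃ D, D = (k - j) / 2 := ⟨_, rfl⟩
    have hD2 : 2 * b ≤ D := by omega
    have hD3 : k - j ≤ 3 * D := by omega
    have hDN : (N : ℝ) ^ θ ≤ D := by
      refine hb.trans ?_
      exact_mod_cast (show b ≤ D by omega)
    have key : ∀ U V U' V' : ℕ, U + b ≤ V → V ≤ j + b → k - b ≤ U' → U' + b ≤ V' → V' ≤ k + b →
        ∫ ω, FF μ s N y m m0 m1 M U V U' V' ω ∂(Pm μ N) ≤
          (N : ℝ) ^ (ε / 2) * (((EE' μ s b)⁻¹ * (EE' μ s b)⁻¹ + (EE' μ s D)⁻¹) * (EE' μ s l)⁻¹) +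
            (2 * Real.exp (-(N : ℝ) ^ c₃) + 11 * Real.exp (-M)) := fun U V U' V' h1 h2 h3 h4 h5 =>
      P3 N (by omega) y hyN (hcone _ (min_le_left _ _)) m U V U' V' m0 m1 b D l h1 (by omega) h4 (by omega) hmm hml hmN hb hDN hl M hM hM3
    have i1 := key (j - b) j (k - b) k (by omega) (by omega) le_rfl (by omega) (by omega)
    have i2 := key (j - b) j k (k + b) (by omega) (by omega) (by omega) le_rfl le_rfl
    have i3 := key j (j + b) (k - b) k le_rfl le_rfl le_rfl (by omega) (by omega)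
    have i4 := key j (j + b) k (k + b) le_rfl le_rfl (by omega) le_rfl le_rfl
    have i0 := int_four62 (ν := Pm μ N) (int_FF (μ := μ) (s := s) (N := N) (y := y) m m0 m1 M (j - b) j (k - b) k)
      (int_FF (μ := μ) (s := s) (N := N) (y := y) m m0 m1 M (j - b) j k (k + b))
      (int_FF (μ := μ) (s := s) (N := N) (y := y) m m0 m1 M j (j + b) (k - b) k)
      (int_FF (μ := μ) (s := s) (N := N) (y := y) m m0 m1 M j (j + b) k (k + b))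
    have es : (fun ω : Env × Finset ℕ => gm (wm μ s N (Pn N y) ω) (fun x => uT (wm μ s N (Pn N y) ω) m b M j x *
        (uT (wm μ s N (Pn N y) ω) m b M k x * gm (wm μ s N (Pn N y) ω) (NI m0 m1 x)))) = fun ω =>
        (FF μ s N y m m0 m1 M (j - b) j (k - b) k ω + FF μ s N y m m0 m1 M (j - b) j k (k + b) ω) +
        (FF μ s N y m m0 m1 M j (j + b) (k - b) k ω + FF μ s N y m m0 m1 M j (j + b) k (k + b) ω) :=
      funext fun ω => uu_split (μ := μ) (s := s) (N := N) (y := y) m b m0 m1 M j k ω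
    rw [es, i0]
    have e1 : EE' μ s (k - j) ≤ ((3 : ℕ) : ℝ) * EE' μ s D := EE'_le_mul86 h (by norm_num) hD3
    have e2 : (EE' μ s D)⁻¹ ≤ 3 * (EE' μ s (k - j))⁻¹ := by
      have hk := EE'_pos62 (μ := μ) (s := s) (k - j)
      rw [inv_le_iff_one_le_mul₀ (EE'_pos62 D), mul_assoc]
      have e3 : (EE' μ s (k - j))⁻¹ * EE' μ s (k - j) = 1 := inv_mul_cancel₀ hk.ne'
      push_cast at e1
      calc (1 : ℝ) = (EE' μ s (k - j))⁻¹ * EE' μ s (k - j) := e3.symm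
        _ ≤ (EE' μ s (k - j))⁻¹ * (3 * EE' μ s D) := mul_le_mul_of_nonneg_left e1 (hEi _)
        _ = _ := by ring
    have e4 : 4 * ((N : ℝ) ^ (ε / 2) * (((EE' μ s b)⁻¹ * (EE' μ s b)⁻¹ + (EE' μ s D)⁻¹) * (EE' μ s l)⁻¹)) ≤
        (N : ℝ) ^ ε * ((EE' μ s (k - j))⁻¹ * (EE' μ s l)⁻¹ + (EE' μ s b)⁻¹ * (EE' μ s b)⁻¹ * (EE' μ s l)⁻¹) := by
      have a1 : 0 ≤ (EE' μ s b)⁻¹ * (EE' μ s b)⁻¹ := mul_nonneg (hEi _) (hEi _)
      have a2 : ((EE' μ s b)⁻¹ * (EE' μ s b)⁻¹ + (EE' μ s D)⁻¹) * (EE' μ s l)⁻¹ ≤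
          3 * ((EE' μ s (k - j))⁻¹ * (EE' μ s l)⁻¹ + (EE' μ s b)⁻¹ * (EE' μ s b)⁻¹ * (EE' μ s l)⁻¹) := by
        calc _ ≤ ((EE' μ s b)⁻¹ * (EE' μ s b)⁻¹ + 3 * (EE' μ s (k - j))⁻¹) * (EE' μ s l)⁻¹ :=
              mul_le_mul_of_nonneg_right (add_le_add le_rfl e2) (hEi _)
          _ ≤ (3 * ((EE' μ s b)⁻¹ * (EE' μ s b)⁻¹) + 3 * (EE' μ s (k - j))⁻¹) * (EE' μ s l)⁻¹ :=
              mul_le_mul_of_nonneg_right (by linarith) (hEi _)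
          _ = _ := by ring
      have a3 : 0 ≤ (EE' μ s (k - j))⁻¹ * (EE' μ s l)⁻¹ + (EE' μ s b)⁻¹ * (EE' μ s b)⁻¹ * (EE' μ s l)⁻¹ :=
        add_nonneg (mul_nonneg (hEi _) (hEi _)) (mul_nonneg a1 (hEi _))
      calc _ ≤ 4 * ((N : ℝ) ^ (ε / 2) * (3 * ((EE' μ s (k - j))⁻¹ * (EE' μ s l)⁻¹ + (EE' μ s b)⁻¹ * (EE' μ s b)⁻¹ * (EE' μ s l)⁻¹))) :=
            mul_le_mul_of_nonneg_left (mul_le_mul_of_nonneg_left a2 hNe) (by norm_num)
        _ = 12 * (N : ℝ) ^ (ε / 2) * ((EE' μ s (k - j))⁻¹ * (EE' μ s l)⁻¹ + (EE' μ s b)⁻¹ * (EE' μ s b)⁻¹ * (EE' μ s l)⁻¹) := by ring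
        _ ≤ _ := mul_le_mul_of_nonneg_right h12' a3
    linarith
  -- near rows
  have near : ∀ j k : ℕ, b ≤ j → j + b ≤ m →
      ∫ ω, gm (wm μ s N (Pn N y) ω) (fun x => uT (wm μ s N (Pn N y) ω) m b M j x * (uT (wm μ s N (Pn N y) ω) m b M k x *
        gm (wm μ s N (Pn N y) ω) (NI m0 m1 x))) ∂(Pm μ N) ≤
      (N : ℝ) ^ ε * ((EE' μ s b)⁻¹ * (EE' μ s l)⁻¹) + (8 * Real.exp (-(N : ℝ) ^ min c₃ c₄) + 44 * Real.exp (-M)) := fun j k hj hjm => by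
    have key : ∀ U V : ℕ, U + b ≤ V → V ≤ m → ∫ ω, F1 μ s N y m m0 m1 M U V ω ∂(Pm μ N) ≤
        (N : ℝ) ^ (ε / 2) * ((EE' μ s b)⁻¹ * (EE' μ s l)⁻¹) + (Real.exp (-(N : ℝ) ^ c₄) + 4 * Real.exp (-M)) := fun U V h1 h2 =>
      P4 N (by omega) y hyN (hcone _ (min_le_right _ _)) m U V m0 m1 b l h1 h2 hmm hml hmN hb hl M hM hM4
    have i1 := key (j - b) j (by omega) (by omega)
    have i2 := key j (j + b) le_rfl hjm
    have pt : ∀ ω : Env × Finset ℕ, gm (wm μ s N (Pn N y) ω) (fun x => uT (wm μ s N (Pn N y) ω) m b M j x *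
        (uT (wm μ s N (Pn N y) ω) m b M k x * gm (wm μ s N (Pn N y) ω) (NI m0 m1 x))) ≤
        2 * (F1 μ s N y m m0 m1 M (j - b) j ω + F1 μ s N y m m0 m1 M j (j + b) ω) := fun ω => by
      unfold F1
      rw [← Pool.W7d29a1.C0.gm_add, ← Pool.W7d29a1.C0.gm_smul]
      refine gm_mono _ fun x => ?_
      simp only [Pi.add_apply, Pi.smul_apply, smul_eq_mul]
      have a1 := oN_nonneg (wm μ s N (Pn N y) ω) m0 m1 x
      have a2 := uT_nonneg (wm μ s N (Pn N y) ω) m b M j x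
      have a3 := mul_le_mul_of_nonneg_right (uT_le (wm μ s N (Pn N y) ω) m b M k x) a1
      calc _ ≤ uT (wm μ s N (Pn N y) ω) m b M j x * (2 * gm (wm μ s N (Pn N y) ω) (NI m0 m1 x)) := mul_le_mul_of_nonneg_left a3 a2
        _ = _ := by
          unfold uT
          ring
    have j1 := (int_F1 (μ := μ) (s := s) (N := N) (y := y) m m0 m1 M (j - b) j).const_mul 2
    have j2 := (int_F1 (μ := μ) (s := s) (N := N) (y := y) m m0 m1 M j (j + b)).const_mul 2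
    have fin := int_le62 (ν := Pm μ N) (e := 0) (fun ω => gm_nonneg (wm μ s N (Pn N y) ω) fun x =>
        mul_nonneg (uT_nonneg (wm μ s N (Pn N y) ω) m b M j x) (mul_nonneg (uT_nonneg (wm μ s N (Pn N y) ω) m b M k x)
          (oN_nonneg (wm μ s N (Pn N y) ω) m0 m1 x))) j1 j2 fun ω => (pt ω).trans (le_of_eq (by ring))
    rw [integral_const_mul, integral_const_mul] at fin
    have a0 : 0 ≤ (EE' μ s b)⁻¹ * (EE' μ s l)⁻¹ := mul_nonneg (hEi _) (hEi _)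
    have e4 : 4 * ((N : ℝ) ^ (ε / 2) * ((EE' μ s b)⁻¹ * (EE' μ s l)⁻¹)) ≤ (N : ℝ) ^ ε * ((EE' μ s b)⁻¹ * (EE' μ s l)⁻¹) := by
      rw [← mul_assoc]
      refine mul_le_mul_of_nonneg_right ?_ a0
      linarith
    linarith
  intro j k hj hjm hk hkm
  have b0 : 0 ≤ (N : ℝ) ^ ε := Real.rpow_nonneg hN0.le _
  have b1 : 0 ≤ (EE' μ s b)⁻¹ * (EE' μ s b)⁻¹ * (EE' μ s l)⁻¹ := mul_nonneg (mul_nonneg (hEi _) (hEi _)) (hEi _)
  have b2 : 0 ≤ (EE' μ s (max (T93.rdist j k) b))⁻¹ * (EE' μ s l)⁻¹ := mul_nonneg (hEi _) (hEi _)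
  by_cases hd : T93.rdist j k < 4 * b
  · rw [if_pos hd]
    refine (near j k hj hjm).trans (add_le_add (mul_le_mul_of_nonneg_left ?_ b0) le_rfl)
    linarith
  · rw [if_neg hd, zero_add]
    rw [not_lt] at hd
    have hmax : max (T93.rdist j k) b = T93.rdist j k := max_eq_left (by omega)
    rw [hmax]
    rcases le_total j k with hjk | hjk
    · have e1 : T93.rdist j k = k - j := by
        unfold T93.rdist
        omega
      rw [e1] at hd ⊢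
      exact far j k hj (by omega) hkm
    · have e1 : T93.rdist j k = j - k := by
        unfold T93.rdist
        omega
      rw [e1] at hd ⊢
      have h1 := far k j hk (by omega) hjm
      refine (le_of_eq ?_).trans h1
      refine integral_congr_ae (Filter.Eventually.of_forall fun ω => ?_)
      show gm _ _ = gm _ _
      congr 1
      funext x
      ring

end

end Pool.Agent.W_7d29a1_C0.E62
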