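import Pool.Agent.W_7d29a1_C0.NT51D
import Pool.Agent.W_7d29a1_C0.TauF86
import Pool.Agent.W_7d29a1_C0.TauQ62
import Pool.Agent.W_7d29a1_C0.GSRow96
import Pool.Agent.W_7d29a1_C0.Join41

/-!
CURV0 (MP_7d29a1_pr), GS one kick: THE PRICE OF THREE FREE REPLICAS (`E3`) TIMES A FACTOR OF THE OTHER ROW. From a place `Pl3` (helper51) to
the model form: `∫ gm (wm) (f * G) dPm ≤ (L ^ ε / EE' t) ^ 2 ∫ gm (wm) f dPm + error` for every weight `f` which is blind to finite changes in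
the rows of the window, `G` the event `E3` or a function below the mass of two free replicas.
(helper52)
-/

set_option autoImplicit false
set_option linter.unusedSectionVars false

namespace Pool.W7d29a1.C0.E3B52

open MeasureTheory ProbabilityTheory Filter Topology Finset
open Pool.Agent.W_7d29a1_F Pool.Agent.W_7d29a1_X Pool.Agent.W_7d29a1_h4g Pool.Agent.W_7d29a1_H
open Pool.Agent.W_7d29a1_HS (In wd md)
open Pool.Agent.W_7d29a1_HZ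
open Pool.Agent.W_7d29a1_HZ.Z86
open Pool.Agent.W_7d29a1_C0.Mod92 (Px Pn lw ps pJ ne_Pn ps_Pn pos_card ps_of_le ps_of_ge wm Pm meas_lw meas_wm meas_cE meas_gz meas_gm int_Pm)
open Pool.Agent.W_7d29a1_C0.P86
open Pool.Agent.W_7d29a1_C0.N51 (Pl3 mc3 On3 pl3_wt)
open Pool.Agent.W_7d29a1_C0.Swap57 (NI cE2 NI_nonneg)
open Pool.W7d29a1.C0 (gm gz gz_pos gm_nonneg gm_mono gm_const)
open Pool.W7d29a1.C0.VT31 (Mp cE gm_mul_cE fz cE_sum cE_mono cE_nonneg cE_one)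
open Pool.W7d29a1.C0.H41 (E3)
open Pool.Agent.W_7d29a1_C0.E62 (cE_full)
open Pool.W7d29a1.C0.R43 (gm_tilt43 cE2_tilt)
open Pool.Agent.W_7d29a1_C0.Row96 (cE_add_mp)
open Pool.Agent.W_7d29a1_C0
open scoped ENNReal

noncomputable section

variable {μ : Measure ℝ} {s : ℝ} {N : ℕ}

/-! ### The mass of two alternatives -/

theorem mc3_box {y c₁ d₁ c₂ d₂ : ℕ} {A : Finset ℕ → Finset ℕ → Finset ℕ → Prop} {η η' : Env} (h : EqB N η η') (S : Finset ℕ) :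
    mc3 μ s N y c₁ d₁ c₂ d₂ A η S = mc3 μ s N y c₁ d₁ c₂ d₂ A η' S := by
  classical
  unfold mc3
  by_cases hS : S ∈ Pn N y
  · rw [dif_pos hS, dif_pos hS, lw_box h]
    congr 1
    funext a
    exact mc_box h S
  · rw [dif_neg hS, dif_neg hS]

theorem mc3_meas {y c₁ d₁ c₂ d₂ : ℕ} (A : Finset ℕ → Finset ℕ → Finset ℕ → Prop) (S : Finset ℕ) :
    Measurable fun η : Env => mc3 μ s N y c₁ d₁ c₂ d₂ A η S := by
  classical
  unfold mc3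
  by_cases hS : S ∈ Pn N y
  · simp only [dif_pos hS]
    have : Nonempty (Px (Pn N y)) := ⟨⟨S, hS⟩⟩
    have h := meas_cE (Ω := Env) (X := Px (Pn N y)) (w := fun η => lw μ s η N (Pn N y))
      (f := fun η (a : Px (Pn N y)) => mc μ s N y c₂ d₂ (fun S b => A S a.1 b) η S) (fun x => meas_lw x)
      (fun x => mc_meas86 _ S) (pJ c₁ d₁) ⟨S, hS⟩
    exact h
  · simp only [dif_neg hS]
    exact measurable_const

/-! ### The price of a place of three replicas -/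

/-- **The price, `Q1` form.** -/
theorem q1_pl3 [IsProbabilityMeasure μ] {y c₁ d₁ c₂ d₂ : ℕ} (hy : y ≤ N) (h1 : c₁ ≤ d₁ ∧ d₁ ≤ N) (h2 : c₂ ≤ d₂ ∧ d₂ ≤ N)
    {A : Finset ℕ → Finset ℕ → Finset ℕ → Prop} (hA : On3 c₁ d₁ c₂ d₂ A) {r p : ℝ≥0∞} {J V : Finset ℕ} (hP : Pl3 μ s N y r p A J V)
    {h : Env → Finset ℕ → ℝ≥0∞} (hh1 : ∀ η S, h η S ≤ 1) {G : ℝ≥0∞}
    (hhm : ∀ η S, h η S ≤ G * ENNReal.ofReal (mc3 μ s N y c₁ d₁ c₂ d₂ A η S)) (x : ℝ)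
    {f : Env → Finset ℕ → ℝ≥0∞} (hf : ∀ S, Measurable fun η => f η S) (hf1 : ∀ η S, f η S ≤ 1) (hfo : OffF J f) :
    Q1 μ s N y (fun η S => f η S * h η S) ≤ r * Q1 μ s N y f +
      (p + G * (ENNReal.ofReal (Real.exp (2 * x)) * p + 2 * ENNReal.ofReal (((N : ℝ) + 1) ^ 2 * Real.exp (-x)))) := by
  obtain ⟨NT, n1, -, n3, n4⟩ := hP
  obtain ⟨m, hm⟩ : ∃ m : Env → Finset ℕ → ℝ≥0∞, m = fun η S => min 1 (G * ENNReal.ofReal (mc3 μ s N y c₁ d₁ c₂ d₂ A η S)) := ⟨_, rfl⟩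
  have e1 : Q1 μ s N y (fun η S => f η S * h η S) ≤ Q1 μ s N y (fun η S => f η S * m η S) := by
    refine Q1_mono fun η S _ _ => mul_le_mul' le_rfl ?_
    rw [hm]
    exact le_min (hh1 η S) (hhm η S)
  refine e1.trans (off_fin (H := m) (I := {J}) (fun S => ?_) (fun η η' S hq => ?_) (fun f hf hf1 hfo => ?_) f hf hf1 ?_)
  · rw [hm]
    exact measurable_const.min (measurable_const.mul (mc3_meas A S).ennreal_ofReal)
  · rw [hm]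
    simp only [mc3_box hq]
  · have k1 := pl3_wt (μ := μ) (s := s) hy h1 h2 hA n1 hf hf1 (h := m) (fun η S => by rw [hm]; exact min_le_left _ _) (G := G)
      (fun η S => by rw [hm]; exact min_le_right _ _) x
    have k2 : Q1 μ s N y (fun η S => f η S * ind (NT η S)) ≤ r * Q1 μ s N y f + p :=
      wt_of_ev (JJ := {J}) n1 (fun F hF hFo => n4 F hF (hFo J rfl)) hf hf1 hfo
    refine k1.trans ((add_le_add k2 (mul_le_mul' le_rfl (add_le_add (mul_le_mul' le_rfl n3) le_rfl))).trans (le_of_eq ?_))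
    rw [add_assoc]
  · rintro J' rfl
    exact hfo

/-- **The price, model form.** -/
theorem int_pl3 [IsProbabilityMeasure μ] {y c₁ d₁ c₂ d₂ : ℕ} (hy : y ≤ N) (h1 : c₁ ≤ d₁ ∧ d₁ ≤ N) (h2 : c₂ ≤ d₂ ∧ d₂ ≤ N)
    {A : Finset ℕ → Finset ℕ → Finset ℕ → Prop} (hA : On3 c₁ d₁ c₂ d₂ A) {r p : ℝ} (hr : 0 ≤ r) (hp : 0 ≤ p) {J V : Finset ℕ}
    (hP : Pl3 μ s N y (ENNReal.ofReal r) (ENNReal.ofReal p) A J V) {G : Env × Finset ℕ → Px (Pn N y) → ℝ} (hG0 : ∀ ω x, 0 ≤ G ω x)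
    (hG1 : ∀ ω x, G ω x ≤ 1) {g : ℝ} (hg : 0 ≤ g) (hGm : ∀ ω x, G ω x ≤ g * mc3 μ s N y c₁ d₁ c₂ d₂ A ω.1 x.1) (x : ℝ)
    {f : Env × Finset ℕ → Px (Pn N y) → ℝ} (hfm : ∀ A x, Measurable fun η => f (η, A) x) (hf0 : ∀ ω x, 0 ≤ f ω x) (hf1 : ∀ ω x, f ω x ≤ 1)
    (hfo : ∀ (η η' : Env) A x, (∃ E : Finset Pt, (∀ q ∈ E, 0 ≤ q.1 ∧ q.1.toNat ∈ J) ∧ ∀ q, q ∉ E → η q = η' q) → f (η, A) x = f (η', A) x) :
    ∫ ω, gm (wm μ s N (Pn N y) ω) (fun x => f ω x * G ω x) ∂(Pm μ N) ≤ r * ∫ ω, gm (wm μ s N (Pn N y) ω) (f ω) ∂(Pm μ N) +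
      (p + g * (Real.exp (2 * x) * p + 2 * (((N : ℝ) + 1) ^ 2 * Real.exp (-x)))) := by
  classical
  refine int_of_Q1 hy (fun ω x => mul_nonneg (hf0 ω x) (hG0 ω x)) hfm hf0 hf1 hr (by positivity) fun A₀ => ?_
  have k := q1_pl3 (μ := μ) (s := s) hy h1 h2 hA hP (h := fun η S => ENNReal.ofReal (exP (G (η, A₀)) S))
    (fun η S => ENNReal.ofReal_le_one.2 (exP_le (hG1 (η, A₀)) S)) (G := ENNReal.ofReal g) (fun η S => ?_) x
    (f := fun η S => ENNReal.ofReal (exP (f (η, A₀)) S)) (fun S => ?_) (fun η S => ENNReal.ofReal_le_one.2 (exP_le (hf1 (η, A₀)) S))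
    (fun η η' S hη => ?_)
  · refine le_trans (le_of_eq ?_) (k.trans (le_of_eq ?_))
    · congr 1
      funext η S
      rw [← ENNReal.ofReal_mul (exP_nonneg (hf0 (η, A₀)) S)]
      congr 1
      unfold exP
      by_cases hS : S ∈ Pn N y
      · simp only [dif_pos hS]
      · simp only [dif_neg hS, zero_mul]
    · congr 1
      rw [ENNReal.ofReal_add hp (by positivity), ENNReal.ofReal_mul hg, ENNReal.ofReal_add (by positivity) (by positivity),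
        ENNReal.ofReal_mul (Real.exp_pos _).le, ENNReal.ofReal_mul (show (0 : ℝ) ≤ 2 by norm_num), ENNReal.ofReal_ofNat]
  · rw [← ENNReal.ofReal_mul hg]
    refine ENNReal.ofReal_le_ofReal ?_
    unfold exP
    by_cases hS : S ∈ Pn N y
    · rw [dif_pos hS]
      exact hGm (η, A₀) ⟨S, hS⟩
    · rw [dif_neg hS]
      exact mul_nonneg hg (Pool.Agent.W_7d29a1_C0.N51.mc3_nonneg η S)
  · refine ENNReal.measurable_ofReal.comp ?_
    unfold exP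
    by_cases hS : S ∈ Pn N y
    · simp only [dif_pos hS]
      exact hfm A₀ _
    · simp only [dif_neg hS]
      exact measurable_const
  · show ENNReal.ofReal (exP (f (η, A₀)) S) = ENNReal.ofReal (exP (f (η', A₀)) S)
    congr 1
    unfold exP
    by_cases hS : S ∈ Pn N y
    · rw [dif_pos hS, dif_pos hS]
      exact hfo η η' A₀ ⟨S, hS⟩ hη
    · rw [dif_neg hS, dif_neg hS]

/-! ### The numbers -/

theorem num_e3 {c₁ : ℝ} (hc₁ : 0 < c₁) : ∃ κ c₂ : ℝ, 0 < κ ∧ 0 < c₂ ∧ ∃ L₀ : ℕ, ∀ L : ℕ, L₀ ≤ L → ∀ N : ℕ, N ≤ L →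
    ∃ x : ℝ, Real.exp (-(L : ℝ) ^ c₁) + Real.exp ((L : ℝ) ^ κ) * (Real.exp (2 * x) * Real.exp (-(L : ℝ) ^ c₁) +
      2 * (((N : ℝ) + 1) ^ 2 * Real.exp (-x))) ≤ Real.exp (-(L : ℝ) ^ c₂) := by
  obtain ⟨c₂, hc₂, -, L₂, hX⟩ := Pool.Agent.W_7d29a1_Z.NumI77.pow_exp (show 0 < c₁ / 4 by positivity) 3
  obtain ⟨L₃, hL₃⟩ := Pool.Agent.W_7d29a1_Z.NumI77.large (show 0 < c₁ / 4 by positivity) 4
  refine ⟨c₁ / 4, c₂, by positivity, hc₂, L₂ + L₃ + 100, fun L hL N hNL => ⟨(L : ℝ) ^ (c₁ / 2), ?_⟩⟩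
  have hL100 : (100 : ℝ) ≤ L := by exact_mod_cast (show 100 ≤ L by omega)
  have hL0 : (0 : ℝ) < L := by linarith
  obtain ⟨z, hz⟩ : ∃ z : ℝ, z = (L : ℝ) ^ (c₁ / 4) := ⟨_, rfl⟩
  obtain ⟨-, z4, -⟩ := hL₃ L (by omega)
  rw [← hz] at z4
  have e1 : (L : ℝ) ^ (c₁ / 2) = z * z := by
    rw [hz, ← Real.rpow_add hL0]
    congr 1
    ring
  have e2 : (L : ℝ) ^ c₁ = (z * z) * (z * z) := by
    rw [← e1, ← Real.rpow_add hL0]
    congr 1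
    ring
  have h5 := hX L (by omega)
  rw [← hz] at h5
  rw [e1, e2, ← hz]
  have e4 : (L : ℝ) ^ (3 : ℝ) = (L : ℝ) ^ 3 := by
    rw [← Real.rpow_natCast]
    norm_num
  rw [e4] at h5
  refine le_trans ?_ h5
  have hNL' : (N : ℝ) ≤ L := by exact_mod_cast hNL
  have hN0 : (0 : ℝ) ≤ N := Nat.cast_nonneg N
  have hzz : 16 ≤ z * z := by nlinarith
  have hzz' : 4 * z ≤ z * z := by nlinarith
  have a1 : Real.exp (-(z * z * (z * z))) ≤ Real.exp (-z) := Real.exp_le_exp.2 (by nlinarith)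
  have a2 : Real.exp z * (Real.exp (2 * (z * z)) * Real.exp (-(z * z * (z * z)))) ≤ Real.exp (-z) := by
    rw [← Real.exp_add, ← Real.exp_add]
    exact Real.exp_le_exp.2 (by nlinarith)
  have a3 : Real.exp z * Real.exp (-(z * z)) ≤ Real.exp (-z) := by
    rw [← Real.exp_add]
    exact Real.exp_le_exp.2 (by linarith)
  have hp := (Real.exp_pos (-z)).le
  have a4 : Real.exp z * (2 * (((N : ℝ) + 1) ^ 2 * Real.exp (-(z * z)))) ≤ 2 * ((L : ℝ) + 1) ^ 2 * Real.exp (-z) := by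
    calc Real.exp z * (2 * (((N : ℝ) + 1) ^ 2 * Real.exp (-(z * z)))) = 2 * ((N : ℝ) + 1) ^ 2 * (Real.exp z * Real.exp (-(z * z))) := by ring
      _ ≤ 2 * ((L : ℝ) + 1) ^ 2 * Real.exp (-z) := by gcongr
  calc Real.exp (-(z * z * (z * z))) + Real.exp z * (Real.exp (2 * (z * z)) * Real.exp (-(z * z * (z * z))) +
        2 * (((N : ℝ) + 1) ^ 2 * Real.exp (-(z * z))))
      = Real.exp (-(z * z * (z * z))) + Real.exp z * (Real.exp (2 * (z * z)) * Real.exp (-(z * z * (z * z)))) +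
        Real.exp z * (2 * (((N : ℝ) + 1) ^ 2 * Real.exp (-(z * z)))) := by ring
    _ ≤ Real.exp (-z) + Real.exp (-z) + 2 * ((L : ℝ) + 1) ^ 2 * Real.exp (-z) := by linarith
    _ = (2 + 2 * ((L : ℝ) + 1) ^ 2) * Real.exp (-z) := by ring
    _ ≤ (L : ℝ) ^ 3 * Real.exp (-z) := by
        refine mul_le_mul_of_nonneg_right ?_ hp
        have h7 : 2 + 2 * ((L : ℝ) + 1) ^ 2 ≤ 3 * (L : ℝ) ^ 2 := by nlinarith
        have h8 : 3 * (L : ℝ) ^ 2 ≤ (L : ℝ) ^ 3 := by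
          have e5 : (L : ℝ) ^ 3 = L * (L : ℝ) ^ 2 := by ring
          rw [e5]
          exact mul_le_mul_of_nonneg_right (by linarith) (by positivity)
        linarith

/-! ### Three free replicas -/

/-- The three paths are pairwise apart on `[i, k]`. -/
def Ap3 (i k : ℕ) (S a b : Finset ℕ) : Prop := NoMeet i k S a ∧ NoMeet i k S b ∧ NoMeet i k a b

theorem on3_Ap3 {i k : ℕ} (hk : k ≤ N) : On3 0 N 0 N (Ap3 i k) := by
  intro S a a' b b' ha hb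
  unfold Ap3 NoMeet
  refine and_congr (forall_congr' fun j => ?_) (and_congr (forall_congr' fun j => ?_) (forall_congr' fun j => ?_))
  · exact forall_congr' fun _ => forall_congr' fun h => by rw [ha j (Nat.zero_le _) (h.trans hk)]
  · exact forall_congr' fun _ => forall_congr' fun h => by rw [hb j (Nat.zero_le _) (h.trans hk)]
  · exact forall_congr' fun _ => forall_congr' fun h => by rw [ha j (Nat.zero_le _) (h.trans hk), hb j (Nat.zero_le _) (h.trans hk)]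

theorem NI_yes {y i k : ℕ} {x x' : Px (Pn N y)} (h : NoMeet i k x.1 x'.1) : NI i k x x' = 1 := if_pos h

theorem NI_no {y i k : ℕ} {x x' : Px (Pn N y)} (h : ¬ NoMeet i k x.1 x'.1) : NI i k x x' = 0 := if_neg h

/-- **The mass of two free replicas.** -/
theorem mc3_free {y i k : ℕ} (η : Env) (x : Px (Pn N y)) :
    mc3 μ s N y 0 N 0 N (Ap3 i k) η x.1 =
      gm (lw μ s η N (Pn N y)) (fun v => NI i k x v * gm (lw μ s η N (Pn N y)) fun t => NI i k x t * NI i k v t) := by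
  classical
  have hn : Nonempty (Px (Pn N y)) := ⟨x⟩
  unfold mc3
  rw [dif_pos x.2, cE_full]
  congr 1
  funext a
  unfold mc
  rw [dif_pos x.2, cE_full]
  have e : ∀ b : Px (Pn N y), (if Ap3 i k x.1 a.1 b.1 then (1 : ℝ) else 0) = NI i k x a * (NI i k x b * NI i k a b) := by
    intro b
    unfold Ap3
    by_cases h1 : NoMeet i k x.1 a.1
    · by_cases h2 : NoMeet i k x.1 b.1
      · by_cases h3 : NoMeet i k a.1 b.1
        · rw [if_pos ⟨h1, h2, h3⟩, NI_yes h1, NI_yes h2, NI_yes h3]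
          norm_num
        · rw [if_neg fun h => h3 h.2.2, NI_no h3, mul_zero, mul_zero]
      · rw [if_neg fun h => h2 h.2.1, NI_no h2, zero_mul, mul_zero]
    · rw [if_neg fun h => h1 h.1, NI_no h1, zero_mul]
  have e2 : (fun S' : Px (Pn N y) => if Ap3 i k x.1 a.1 S'.1 then (1 : ℝ) else 0) =
      NI i k x a • fun b => NI i k x b * NI i k a b := by
    funext b
    rw [e b, Pi.smul_apply, smul_eq_mul]
  rw [e2]
  exact Pool.W7d29a1.C0.gm_smul _ _ _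

/-- **THE INPUT** (helper51): the place of three free replicas which are pairwise apart on the window `[τ, τ + t]`. -/
def Core3 (μ : Measure ℝ) (s : ℝ) : Prop := ∀ ε θ : ℝ, 0 < ε → 0 < θ → ∃ δ c' : ℝ, 0 < δ ∧ 0 < c' ∧ ∃ L₀ : ℕ,
    ∀ L : ℕ, L₀ ≤ L → ∀ N t : ℕ, L ≤ 16 * N → N ≤ L → (L : ℝ) ^ θ ≤ t → ∀ y : ℕ, y ≤ N →
    |(y : ℝ) - sl μ s * N| ≤ ((L : ℝ) ^ δ * wd' μ s N) → ∀ τ : ℕ, τ + t ≤ N → ∃ J V : Finset ℕ, J ⊆ Ico τ (τ + t) ∧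
      Pl3 μ s N y (ENNReal.ofReal (((L : ℝ) ^ ε * (EE' μ s t)⁻¹) ^ 2)) (ENNReal.ofReal (Real.exp (-(L : ℝ) ^ c')))
        (Ap3 τ (τ + t)) J V

/-- **THE PRICE OF TWO FREE REPLICAS, ANY WEIGHT WHICH IS BLIND IN THE WINDOW.** -/
theorem e3_mass [IsProbabilityMeasure μ] (hC : Core3 μ s) : ∀ ε θ : ℝ, 0 < ε → 0 < θ → ∃ δ κ c₂ : ℝ, 0 < δ ∧ 0 < κ ∧ 0 < c₂ ∧ ∃ L₀ : ℕ,
    ∀ L : ℕ, L₀ ≤ L → ∀ N t : ℕ, L ≤ 16 * N → N ≤ L → (L : ℝ) ^ θ ≤ t → ∀ y : ℕ, y ≤ N →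
    |(y : ℝ) - sl μ s * N| ≤ ((L : ℝ) ^ δ * wd' μ s N) → ∀ i : ℕ, i + t ≤ N →
    ∀ G : Env × Finset ℕ → Px (Pn N y) → ℝ, (∀ ω x, 0 ≤ G ω x) → (∀ ω x, G ω x ≤ 1) →
    (∀ ω x, G ω x ≤ Real.exp ((L : ℝ) ^ κ) * gm (wm μ s N (Pn N y) ω) (fun v => NI i (i + t) x v *
      gm (wm μ s N (Pn N y) ω) fun z => NI i (i + t) x z * NI i (i + t) v z)) →
    ∀ f : Env × Finset ℕ → Px (Pn N y) → ℝ, (∀ A x, Measurable fun η => f (η, A) x) → (∀ ω x, 0 ≤ f ω x) → (∀ ω x, f ω x ≤ 1) →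
    (∀ (η η' : Env) A x, (∃ E : Finset Pt, (∀ q ∈ E, 0 ≤ q.1 ∧ q.1.toNat ∈ Ico i (i + t)) ∧ ∀ q, q ∉ E → η q = η' q) →
      f (η, A) x = f (η', A) x) →
    ∫ ω, gm (wm μ s N (Pn N y) ω) (fun x => f ω x * G ω x) ∂(Pm μ N) ≤
      ((L : ℝ) ^ ε * (EE' μ s t)⁻¹) ^ 2 * ∫ ω, gm (wm μ s N (Pn N y) ω) (f ω) ∂(Pm μ N) + Real.exp (-(L : ℝ) ^ c₂) := by
  intro ε θ hε hθ
  obtain ⟨δ, c', hδ, hc', L₀, hP⟩ := hC ε θ hε hθ
  obtain ⟨κ, c₂, hκ, hc₂, L₁, hn⟩ := num_e3 hc'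
  refine ⟨δ, κ, c₂, hδ, hκ, hc₂, L₀ + L₁, ?_⟩
  intro L hL N t hLN hNL ht y hyN hyc i hi G hG0 hG1 hGm f hfm hf0 hf1 hfo
  obtain ⟨J, V, hJ, hpl⟩ := hP L (by omega) N t hLN hNL ht y hyN hyc i hi
  obtain ⟨x, hx⟩ := hn L (by omega) N hNL
  have k := int_pl3 (μ := μ) (s := s) (N := N) hyN (c₁ := 0) (d₁ := N) (c₂ := 0) (d₂ := N) ⟨Nat.zero_le _, le_rfl⟩
    ⟨Nat.zero_le _, le_rfl⟩ (on3_Ap3 hi) (sq_nonneg _) (Real.exp_pos _).le hpl hG0 hG1 (g := Real.exp ((L : ℝ) ^ κ)) (Real.exp_pos _).le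
    (fun ω x => by
      rw [mc3_free]
      exact hGm ω x) x hfm hf0 hf1 fun η η' A x ⟨E, hE, hq⟩ => hfo η η' A x ⟨E, fun q hqE => ⟨(hE q hqE).1, hJ (hE q hqE).2⟩, hq⟩
  linarith

/-- **THE PRICE OF THE EVENT `E3`, ANY WEIGHT WHICH IS BLIND IN THE WINDOW.** -/
theorem e3_price [IsProbabilityMeasure μ] (hC : Core3 μ s) : ∀ ε θ : ℝ, 0 < ε → 0 < θ → ∃ δ κ c₂ : ℝ, 0 < δ ∧ 0 < κ ∧ 0 < c₂ ∧ ∃ L₀ : ℕ,
    ∀ L : ℕ, L₀ ≤ L → ∀ N t : ℕ, L ≤ 16 * N → N ≤ L → (L : ℝ) ^ θ ≤ t → ∀ y : ℕ, y ≤ N →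
    |(y : ℝ) - sl μ s * N| ≤ ((L : ℝ) ^ δ * wd' μ s N) → ∀ i : ℕ, i + t ≤ N →
    ∀ q3 : ℝ, Real.exp (-(L : ℝ) ^ κ) ≤ q3 →
    ∀ f : Env × Finset ℕ → Px (Pn N y) → ℝ, (∀ A x, Measurable fun η => f (η, A) x) → (∀ ω x, 0 ≤ f ω x) → (∀ ω x, f ω x ≤ 1) →
    (∀ (η η' : Env) A x, (∃ E : Finset Pt, (∀ q ∈ E, 0 ≤ q.1 ∧ q.1.toNat ∈ Ico i (i + t)) ∧ ∀ q, q ∉ E → η q = η' q) →
      f (η, A) x = f (η', A) x) →
    open Classical in
    ∫ ω, gm (wm μ s N (Pn N y) ω) (fun x => (if E3 (wm μ s N (Pn N y) ω) (NI i (i + t)) q3 x then 1 else 0) * f ω x) ∂(Pm μ N) ≤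
      ((L : ℝ) ^ ε * (EE' μ s t)⁻¹) ^ 2 * ∫ ω, gm (wm μ s N (Pn N y) ω) (f ω) ∂(Pm μ N) + Real.exp (-(L : ℝ) ^ c₂) := by
  classical
  intro ε θ hε hθ
  obtain ⟨δ, κ, c₂, hδ, hκ, hc₂, L₀, hP⟩ := e3_mass hC ε θ hε hθ
  refine ⟨δ, κ, c₂, hδ, hκ, hc₂, L₀, ?_⟩
  intro L hL N t hLN hNL ht y hyN hyc i hi q3 hq3 f hfm hf0 hf1 hfo
  have hn := ne_Pn (N := N) (y := y) hyN
  have k := hP L hL N t hLN hNL ht y hyN hyc i hi
    (fun ω x => if E3 (wm μ s N (Pn N y) ω) (NI i (i + t)) q3 x then 1 else 0) (fun ω x => by split_ifs <;> norm_num)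
    (fun ω x => by split_ifs <;> norm_num) (fun ω x => ?_) f hfm hf0 hf1 hfo
  · refine le_trans (le_of_eq ?_) k
    congr 1
    funext ω
    congr 1
    funext x
    rw [mul_comm]
  · have h0 : 0 ≤ gm (wm μ s N (Pn N y) ω) (fun v => NI i (i + t) x v *
        gm (wm μ s N (Pn N y) ω) fun z => NI i (i + t) x z * NI i (i + t) v z) :=
      gm_nonneg _ fun v => mul_nonneg (NI_nonneg _ _ _ _) (gm_nonneg _ fun z => mul_nonneg (NI_nonneg _ _ _ _) (NI_nonneg _ _ _ _))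
    split_ifs with h
    · have h1 : Real.exp (-(L : ℝ) ^ κ) ≤ gm (wm μ s N (Pn N y) ω) (fun v => NI i (i + t) x v *
          gm (wm μ s N (Pn N y) ω) fun z => NI i (i + t) x z * NI i (i + t) v z) := hq3.trans (le_of_lt h)
      have h2 := mul_le_mul_of_nonneg_left h1 (Real.exp_pos ((L : ℝ) ^ κ)).le
      rwa [← Real.exp_add, add_neg_cancel, Real.exp_zero] at h2
    · exact mul_nonneg (Real.exp_pos _).le h0

/-! ### Conditional means are blind outside of the block -/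

section Blind

variable {Q : Finset (Finset ℕ)}

/-- The environments agree on the rows `c + 1, .., d - 1`. -/
def AgO (c d : ℕ) (η η' : Env) : Prop := ∀ q : Pt, (c : ℤ) < q.1 → q.1 < d → η q = η' q

theorem ago_of_fin {J : Finset ℕ} {c d : ℕ} (hJ : ∀ j ∈ J, j ≤ c ∨ d ≤ j) {η η' : Env}
    (h : ∃ E : Finset Pt, (∀ q ∈ E, 0 ≤ q.1 ∧ q.1.toNat ∈ J) ∧ ∀ q, q ∉ E → η q = η' q) : AgO c d η η' := by
  obtain ⟨E, hE, hq⟩ := h
  intro q h1 h2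
  refine hq q fun hqE => ?_
  obtain ⟨h3, h4⟩ := hE q hqE
  have := hJ _ h4
  omega

variable [Pool.Agent.W_7d29a1_C0.Swap57.SwQ Q]

theorem lw_o {c d : ℕ} {η η' : Env} (h : AgO c d η η') : Mp (pJ c d) (lw μ s η' N Q - lw μ s η N Q) := by
  intro S S' h1
  rw [Pi.sub_apply, Pi.sub_apply, Pool.Agent.W_7d29a1_C0.Swap57.lw_eq, Pool.Agent.W_7d29a1_C0.Swap57.lw_eq,
    Pool.Agent.W_7d29a1_C0.Swap57.lw_eq, Pool.Agent.W_7d29a1_C0.Swap57.lw_eq]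
  have key : ∀ i ∈ range N, η' ((i : ℤ) + 1, ps S (i + 1)) - η ((i : ℤ) + 1, ps S (i + 1)) =
      η' ((i : ℤ) + 1, ps S' (i + 1)) - η ((i : ℤ) + 1, ps S' (i + 1)) := by
    intro i _
    by_cases h2 : c ≤ i ∧ i + 1 < d
    · rw [h ((i : ℤ) + 1, ps S (i + 1)) (by show (c : ℤ) < (i : ℤ) + 1; omega) (by show (i : ℤ) + 1 < (d : ℤ); omega),
        h ((i : ℤ) + 1, ps S' (i + 1)) (by show (c : ℤ) < (i : ℤ) + 1; omega) (by show (i : ℤ) + 1 < (d : ℤ); omega)]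
      ring
    · have h3 : ps S (i + 1) = ps S' (i + 1) := by
        rcases Nat.lt_or_ge i c with h4 | h4
        · exact ps_of_le h1 (by omega)
        · exact ps_of_ge h1 (by omega)
      rw [h3]
  have e := sum_congr rfl key
  rw [sum_sub_distrib, sum_sub_distrib] at e
  linarith

variable [Nonempty (Px Q)]

/-- **The conditional means given the outside of `[c, d)` see only the rows `c + 1, .., d - 1`.** -/
theorem cE_o {c d : ℕ} {η η' : Env} (h : AgO c d η η') (f : Px Q → ℝ) :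
    cE (lw μ s η N Q) (pJ c d) f = cE (lw μ s η' N Q) (pJ c d) f := by
  have e : lw μ s η' N Q = lw μ s η N Q + (lw μ s η' N Q - lw μ s η N Q) := by
    funext S
    rw [Pi.add_apply, Pi.sub_apply]
    ring
  rw [e, cE_add_mp _ (lw_o h)]

theorem cE2_o {c d : ℕ} {η η' : Env} (h : AgO c d η η') (K : Px Q → Px Q → ℝ) (x x' : Px Q) :
    cE2 (lw μ s η N Q) (pJ c d) K x x' = cE2 (lw μ s η' N Q) (pJ c d) K x x' := by
  unfold cE2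
  simp only [cE_o h]

end Blind

/-! ### The factor of the other row -/

variable {c₀ C₀ : ℝ} {n₀ : ℕ}

theorem meas_cE2_52 {y : ℕ} (c d : ℕ) (K : Px (Pn N y) → Px (Pn N y) → ℝ) (A : Finset ℕ) (x : Px (Pn N y)) :
    Measurable fun η : Env => cE2 (wm μ s N (Pn N y) (η, A)) (pJ c d) K x x :=
  meas_cE (f := fun η z => cE (lw μ s η N (Pn N y)) (pJ c d) (K z) x) (fun x => meas_lw x)
    (fun z => meas_cE (f := fun _ => K z) (fun x => meas_lw x) (fun _ => measurable_const) (pJ c d) x) (pJ c d) x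

/-- **The price of one pair mass.** -/
theorem pair_one [IsProbabilityMeasure μ] (h : In μ s c₀ C₀ n₀) : ∀ ε θ : ℝ, 0 < ε → 0 < θ → ∃ δ c₂ : ℝ, 0 < δ ∧ 0 < c₂ ∧ ∃ L₀ : ℕ,
    ∀ L : ℕ, L₀ ≤ L → ∀ N : ℕ, L ≤ 16 * N → N ≤ L → ∀ y : ℕ, y ≤ N → |(y : ℝ) - sl μ s * N| ≤ ((L : ℝ) ^ δ * wd' μ s N) →
    ∀ c d U V l : ℕ, c ≤ U → U + l ≤ V → V ≤ d → d ≤ N → (L : ℝ) ^ θ ≤ l →
    ∫ ω, gm (wm μ s N (Pn N y) ω) (fun x => cE2 (wm μ s N (Pn N y) ω) (pJ c d) (NI U V) x x) ∂(Pm μ N) ≤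
      (L : ℝ) ^ ε * (EE' μ s l)⁻¹ + Real.exp (-(L : ℝ) ^ c₂) := by
  intro ε θ hε hθ
  obtain ⟨δ, κ, c', hδ, hκ, hc', L₀, hP⟩ := price_one (μ := μ) (s := s) h 1 (by norm_num) ε θ hε hθ
  obtain ⟨c'', hm⟩ : ∃ c'', c'' = min κ c' := ⟨_, rfl⟩
  have hc''0 : 0 < c'' := by rw [hm]; exact lt_min hκ hc'
  obtain ⟨c₂, hc₂, -, L₂, hX⟩ := Pool.Agent.W_7d29a1_Z.NumI77.pow_exp hc''0 1
  obtain ⟨L₃, hL₃⟩ := Pool.Agent.W_7d29a1_Z.NumI77.large hκ 8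
  refine ⟨δ, c₂, hδ, hc₂, L₀ + L₂ + L₃ + 3, ?_⟩
  intro L hL N hLN hNL y hyN hyc c d U V l h1 h2 h3 h4 hl
  obtain ⟨-, g8, -⟩ := hL₃ L (by omega)
  have hL3 : (3 : ℝ) ≤ L := by exact_mod_cast (show 3 ≤ L by omega)
  have hn := ne_Pn (N := N) (y := y) hyN
  have k := hP L (by omega) N hLN hNL y hyN hyc ((L : ℝ) ^ κ) g8 le_rfl
    [(⟨c, d, c, d, U, V, l, Ty.L, True⟩, fun ω x => cE2 (wm μ s N (Pn N y) ω) (pJ c d) (NI U V) x x)] rfl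
    (by
      simp only [List.mem_cons, List.not_mem_nil, or_false]
      rintro P rfl
      exact ⟨⟨le_rfl, h1, by show U ≤ V; omega, h3, le_rfl, h4⟩, hl⟩)
    (by simp)
    (by
      simp only [List.mem_cons, List.not_mem_nil, or_false]
      rintro P rfl
      exact dom_tau (by linarith) trivial rfl rfl h2 (fun ω x => Pool.Agent.W_7d29a1_C0.Swap57.cE2_nonneg _ _ (fun _ _ => NI_nonneg _ _ _ _) x x)
        (fun ω x => Pool.Agent.W_7d29a1_C0.Swap57.cE2_le_one _ _ (fun z z' => by unfold NI; split_ifs <;> norm_num) x x)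
        (fun ω x => Or.inr le_rfl))
  simp only [List.map_cons, List.map_nil, List.prod_cons, List.prod_nil, mul_one] at k
  refine k.trans (add_le_add le_rfl ?_)
  have g := hX L (by omega)
  rw [Real.rpow_one] at g
  refine le_trans ?_ g
  have hL1 : (1 : ℝ) ≤ L := by linarith
  have e1 : Real.exp (-(L : ℝ) ^ c') ≤ Real.exp (-(L : ℝ) ^ c'') :=
    Real.exp_le_exp.2 (neg_le_neg (Real.rpow_le_rpow_of_exponent_le hL1 (by rw [hm]; exact min_le_right _ _)))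
  have e2 : Real.exp (-(L : ℝ) ^ κ) ≤ Real.exp (-(L : ℝ) ^ c'') :=
    Real.exp_le_exp.2 (neg_le_neg (Real.rpow_le_rpow_of_exponent_le hL1 (by rw [hm]; exact min_le_left _ _)))
  have e3 := (Real.exp_pos (-(L : ℝ) ^ c'')).le
  push_cast
  nlinarith

/-- **`E3` TIMES THE FACTOR OF A ROW IN ANOTHER BLOCK**, at the model. -/
theorem e3_pair [IsProbabilityMeasure μ] (h : In μ s c₀ C₀ n₀) (hC : Core3 μ s) : ∀ ε θ : ℝ, 0 < ε → 0 < θ →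
    ∃ δ κ c₂ : ℝ, 0 < δ ∧ 0 < κ ∧ 0 < c₂ ∧ ∃ L₀ : ℕ,
    ∀ L : ℕ, L₀ ≤ L → ∀ N t : ℕ, L ≤ 16 * N → N ≤ L → (L : ℝ) ^ θ ≤ t → ∀ y : ℕ, y ≤ N →
    |(y : ℝ) - sl μ s * N| ≤ ((L : ℝ) ^ δ * wd' μ s N) → ∀ i : ℕ, i + t ≤ N →
    ∀ q3 : ℝ, Real.exp (-(L : ℝ) ^ κ) ≤ q3 → ∀ c d U V l U' V' l' : ℕ, c ≤ U → U + l ≤ V → V ≤ d → c ≤ U' → U' + l' ≤ V' → V' ≤ d →
    d ≤ N → (L : ℝ) ^ θ ≤ l → (L : ℝ) ^ θ ≤ l' → (i + t ≤ c + 1 ∨ d ≤ i) →
    ∀ K : Px (Pn N y) → Px (Pn N y) → ℝ, (∀ x z, 0 ≤ K x z) → (∀ x z, K x z ≤ 1) → (∀ x z, K x z ≤ NI U V x z + NI U' V' x z) →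
    open Classical in
    ∫ ω, gm (wm μ s N (Pn N y) ω) (fun x => (if E3 (wm μ s N (Pn N y) ω) (NI i (i + t)) q3 x then 1 else 0) *
        cE2 (wm μ s N (Pn N y) ω) (pJ c d) K x x) ∂(Pm μ N) ≤
      ((L : ℝ) ^ ε * (EE' μ s t)⁻¹) ^ 2 * ((L : ℝ) ^ ε * (EE' μ s l)⁻¹ + (L : ℝ) ^ ε * (EE' μ s l')⁻¹) + Real.exp (-(L : ℝ) ^ c₂) := by
  classical
  intro ε θ hε hθ
  obtain ⟨δ₁, κ, c₁, hδ₁, hκ, hc₁, L₁, hP⟩ := e3_price hC ε θ hε hθ
  obtain ⟨δ₂, c₂, hδ₂, hc₂, L₂, hQ⟩ := pair_one h ε θ hε hθ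
  obtain ⟨c'', hm⟩ : ∃ c'', c'' = min c₁ c₂ := ⟨_, rfl⟩
  have hc''0 : 0 < c'' := by rw [hm]; exact lt_min hc₁ hc₂
  obtain ⟨c₃, hc₃, -, L₃, hX⟩ := Pool.Agent.W_7d29a1_Z.NumI77.pow_exp hc''0 (2 * ε + 1)
  refine ⟨min δ₁ δ₂, κ, c₃, lt_min hδ₁ hδ₂, hκ, hc₃, L₁ + L₂ + L₃ + 3, ?_⟩
  intro L hL N t hLN hNL ht y hyN hyc i hi q3 hq3 c d U V l U' V' l' u1 u2 u3 v1 v2 v3 hd hl hl' hdis K K0 K1 KN
  have hL3 : (3 : ℝ) ≤ L := by exact_mod_cast (show 3 ≤ L by omega)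
  have hL1 : (1 : ℝ) ≤ L := by linarith
  have hL0 : (0 : ℝ) < L := by linarith
  have hwd : ∀ n, 0 < wd' μ s n := fun n => lt_of_lt_of_le zero_lt_one (le_max_left _ _)
  have hcone : ∀ δ', min δ₁ δ₂ ≤ δ' → |(y : ℝ) - sl μ s * N| ≤ ((L : ℝ) ^ δ' * wd' μ s N) := fun δ' hδ' =>
    hyc.trans (mul_le_mul_of_nonneg_right (Real.rpow_le_rpow_of_exponent_le hL1 hδ') (hwd N).le)
  have hE : ∀ n, (1 : ℝ) ≤ EE' μ s n := fun n => le_max_left _ _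
  have hn := ne_Pn (N := N) (y := y) hyN
  have c20 : ∀ (ω : Env × Finset ℕ) x, 0 ≤ cE2 (wm μ s N (Pn N y) ω) (pJ c d) K x x := fun ω x =>
    Pool.Agent.W_7d29a1_C0.Swap57.cE2_nonneg _ _ K0 x x
  have k := hP L (by omega) N t hLN hNL ht y hyN (hcone δ₁ (min_le_left _ _)) i hi q3 hq3
    (fun ω x => cE2 (wm μ s N (Pn N y) ω) (pJ c d) K x x) (fun A x => meas_cE2_52 c d K A x) c20
    (fun ω x => Pool.Agent.W_7d29a1_C0.Swap57.cE2_le_one _ _ K1 x x) (fun η η' A x hη => ?_)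
  · have r1 := hQ L (by omega) N hLN hNL y hyN (hcone δ₂ (min_le_right _ _)) c d U V l u1 u2 u3 hd hl
    have r2 := hQ L (by omega) N hLN hNL y hyN (hcone δ₂ (min_le_right _ _)) c d U' V' l' v1 v2 v3 hd hl'
    have hint : ∀ U V, Integrable (fun ω => gm (wm μ s N (Pn N y) ω) (fun x => cE2 (wm μ s N (Pn N y) ω) (pJ c d) (NI U V) x x))
        (Pm μ N) := fun U V => by
      refine Integrable.of_bound (C := 1) ?_ (Filter.Eventually.of_forall fun ω => ?_)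
      · exact (meas_gm meas_wm fun x => E62.meas_cE262 meas_wm (pJ c d) (NI U V) x x).aestronglyMeasurable
      · have a1 : ∀ x, 0 ≤ cE2 (wm μ s N (Pn N y) ω) (pJ c d) (NI U V) x x := fun x =>
          Pool.Agent.W_7d29a1_C0.Swap57.cE2_nonneg _ _ (fun _ _ => NI_nonneg _ _ _ _) x x
        have a2 : ∀ x, cE2 (wm μ s N (Pn N y) ω) (pJ c d) (NI U V) x x ≤ 1 := fun x =>
          Pool.Agent.W_7d29a1_C0.Swap57.cE2_le_one _ _ (fun z z' => by unfold NI; split_ifs <;> norm_num) x x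
        rw [Real.norm_eq_abs, abs_of_nonneg (gm_nonneg _ a1)]
        exact (gm_mono _ a2).trans_eq (gm_const _ 1)
    have r3 : ∫ ω, gm (wm μ s N (Pn N y) ω) (fun x => cE2 (wm μ s N (Pn N y) ω) (pJ c d) K x x) ∂(Pm μ N) ≤
        ∫ ω, gm (wm μ s N (Pn N y) ω) (fun x => cE2 (wm μ s N (Pn N y) ω) (pJ c d) (NI U V) x x) ∂(Pm μ N) +
        ∫ ω, gm (wm μ s N (Pn N y) ω) (fun x => cE2 (wm μ s N (Pn N y) ω) (pJ c d) (NI U' V') x x) ∂(Pm μ N) := by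
      rw [← integral_add (hint U V) (hint U' V')]
      refine integral_mono_of_nonneg (Filter.Eventually.of_forall fun ω => gm_nonneg _ (c20 ω)) ((hint U V).add (hint U' V'))
        (Filter.Eventually.of_forall fun ω => ?_)
      have a1 : ∀ x, cE2 (wm μ s N (Pn N y) ω) (pJ c d) K x x ≤ cE2 (wm μ s N (Pn N y) ω) (pJ c d) (NI U V) x x +
          cE2 (wm μ s N (Pn N y) ω) (pJ c d) (NI U' V') x x := fun x => by
        rw [← Pool.Agent.W_7d29a1_C0.Swap57.cE2_add]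
        exact Pool.Agent.W_7d29a1_C0.Swap57.cE2_mono _ _ KN x x
      exact (gm_mono _ a1).trans_eq (Pool.W7d29a1.C0.gm_add _ _ _)
    have hr0 : 0 ≤ ((L : ℝ) ^ ε * (EE' μ s t)⁻¹) ^ 2 := sq_nonneg _
    have hr1 : ((L : ℝ) ^ ε * (EE' μ s t)⁻¹) ^ 2 ≤ (L : ℝ) ^ (2 * ε) := by
      have a1 : (EE' μ s t)⁻¹ ≤ 1 := inv_le_one_of_one_le₀ (hE t)
      have a2 : 0 ≤ (EE' μ s t)⁻¹ := inv_nonneg.2 (zero_le_one.trans (hE t))
      have a3 : 0 ≤ (L : ℝ) ^ ε := Real.rpow_nonneg hL0.le _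
      have a4 : (L : ℝ) ^ ε * (EE' μ s t)⁻¹ ≤ (L : ℝ) ^ ε := mul_le_of_le_one_right a3 a1
      calc ((L : ℝ) ^ ε * (EE' μ s t)⁻¹) ^ 2 ≤ ((L : ℝ) ^ ε) ^ 2 := pow_le_pow_left₀ (mul_nonneg a3 a2) a4 2
        _ = (L : ℝ) ^ (2 * ε) := by
          rw [sq, ← Real.rpow_add hL0]
          congr 1
          ring
    have g := hX L (by omega)
    rw [Real.rpow_add hL0, Real.rpow_one] at g
    have e1 : Real.exp (-(L : ℝ) ^ c₁) ≤ Real.exp (-(L : ℝ) ^ c'') :=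
      Real.exp_le_exp.2 (neg_le_neg (Real.rpow_le_rpow_of_exponent_le hL1 (by rw [hm]; exact min_le_left _ _)))
    have e2 : Real.exp (-(L : ℝ) ^ c₂) ≤ Real.exp (-(L : ℝ) ^ c'') :=
      Real.exp_le_exp.2 (neg_le_neg (Real.rpow_le_rpow_of_exponent_le hL1 (by rw [hm]; exact min_le_right _ _)))
    obtain ⟨ρ, hρ⟩ : ∃ ρ, ρ = ((L : ℝ) ^ ε * (EE' μ s t)⁻¹) ^ 2 := ⟨_, rfl⟩
    obtain ⟨E, hEd⟩ : ∃ E, E = Real.exp (-(L : ℝ) ^ c'') := ⟨_, rfl⟩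
    obtain ⟨P, hPd⟩ : ∃ P, P = (L : ℝ) ^ (2 * ε) := ⟨_, rfl⟩
    have hP1 : 1 ≤ P := by rw [hPd]; exact Real.one_le_rpow hL1 (by positivity)
    have hE0 : 0 ≤ E := by rw [hEd]; exact (Real.exp_pos _).le
    rw [← hρ] at hr0 hr1 k
    rw [← hPd] at hr1 g
    rw [← hEd] at e1 e2 g
    rw [← hρ]
    have s1 := mul_le_mul_of_nonneg_left (r3.trans (add_le_add r1 r2)) hr0
    have s2 : ρ * (2 * E) ≤ P * (2 * E) := mul_le_mul_of_nonneg_right hr1 (by linarith)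
    have s3 : E ≤ P * E := le_mul_of_one_le_left hE0 hP1
    have s4 : P * (3 * E) ≤ P * L * E := by
      rw [mul_assoc]
      exact mul_le_mul_of_nonneg_left (mul_le_mul_of_nonneg_right hL3 hE0) (by linarith)
    have s5 : ρ * (2 * Real.exp (-(L : ℝ) ^ c₂)) ≤ ρ * (2 * E) := mul_le_mul_of_nonneg_left (by linarith) hr0
    linarith
  · have hJ : ∀ j ∈ Ico i (i + t), j ≤ c ∨ d ≤ j := fun j hj => by
      rw [mem_Ico] at hj
      omega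
    exact cE2_o (ago_of_fin hJ hη) K x x

end

end Pool.W7d29a1.C0.E3B52
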