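import Pool.Agent.W_7d29a1_HZ.Z74_Num74

/-!
CURV0 (MP_7d29a1_pr), GS one kick: THE LEVELS of the bad functional told from the thresholds `exp (-A)`, `exp (-A)`. `LvW`: the levels of
the joining (`q0`, `q2`), of the half response (`m`, `M`, `ρ`) and of the slab (`ρ₁`, `ρ'`); `ev_lvW`: they exist for all large `N` if
`N ^ a ≤ A ≤ N ^ a'`, `a' < c', c₁, κp`, `ε < κp`. (helper73)
-/

set_option autoImplicit false
set_option linter.unusedVariables false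

namespace Pool.W7d29a1.C0.Bd73

open Filter
open Pool.Agent.W_7d29a1_HZ.Z74 (ev_pow ev_pow_le)

noncomputable section

/-- The levels of the bad functional. -/
structure LvW (N : ℕ) (A B D K κp ε c' θ : ℝ) where
  (q0 q2 m M ρ ρ₁ ρ' : ℝ)
  hq0 : 0 < q0
  e4 : ((N : ℝ) + 1) ^ 2 * q0 ≤ (N : ℝ) ^ (-K)
  hq2 : 0 < q2
  e5 : ((N : ℝ) + 1) ^ 2 * q2 ≤ (N : ℝ) ^ (-K)
  hm : 0 < m
  e6 : 2 * Real.exp ((N : ℝ) ^ ε) * m + Real.exp (-(N : ℝ) ^ c') + 2 * B * ρ ≤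
    q0 * Real.exp (-A) / (3 * N) / 2 * (Real.exp (-A) / 2)
  e7 : ((N : ℝ) + 1) ^ 2 * Real.exp (-(5 * M)) ≤ m ^ 2
  hM8 : 8 ≤ M
  hM : M ≤ (N : ℝ) ^ κp
  hρ : 0 < ρ
  e8 : θ / ρ ≤ (N : ℝ) ^ (-K)
  hρ₁ : 0 < ρ₁
  hρ' : 0 < ρ'
  hρ'1 : ρ' ≤ 1
  e9 : 8 * ρ₁ + ρ' ≤ q0 * Real.exp (-A) / (3 * N)
  e10 : 2 * (Real.exp (2 * D) * θ) / ρ' ≤ (N : ℝ) ^ (-K)
  e11 : Real.exp (-(N : ℝ) ^ κp) ≤ ρ₁ / 2
  e12 : Real.exp (-(N : ℝ) ^ κp) ≤ q0 * q2 * (Real.exp (-A) / 3) / 2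
  e13 : Real.exp (-M) ≤ (N : ℝ) ^ (-K)
  e14 : Real.exp (-(4 * A)) ≤ q0 * Real.exp (-A) / (3 * N) * Real.exp (-A)
  e15 : Real.exp (-(4 * A)) ≤ ρ₁
  e16 : Real.exp (-(4 * A)) ≤ q0 * q2 * (Real.exp (-A) / 3)

namespace LvW

variable {N : ℕ} {A B D K κp ε c' θ : ℝ} (V : LvW N A B D K κp ε c' θ)

/-- The conditional mass of the bad boxes after joining. -/
def q1 : ℝ := V.q0 * Real.exp (-A) / (3 * N)

/-- The level of the three free replicas. -/
def q3 : ℝ := V.q0 * V.q2 * (Real.exp (-A) / 3)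

theorem q1_pos (hN : 1 ≤ N) : 0 < V.q1 := by
  have := V.hq0
  have : (0 : ℝ) < N := by exact_mod_cast hN
  unfold q1
  positivity

theorem q3_pos : 0 < V.q3 := by
  have := V.hq0
  have := V.hq2
  unfold q3
  positivity

end LvW

/-- **THE LEVELS EXIST.** -/
theorem ev_lvW {a a' ε c' c₁ κp K : ℝ} (ha0 : 0 < a) (haa : a ≤ a') (hac : a' < c') (hac₁ : a' < c₁) (haκ : a' < κp) (hεκ : ε < κp)
    (hK : 0 ≤ K) :
    ∀ᶠ N : ℕ in atTop, ∀ A B D θ : ℝ, (N : ℝ) ^ a ≤ A → A ≤ (N : ℝ) ^ a' → 0 ≤ B → B ≤ Real.exp (A / 100) → 0 ≤ D → 100 * D ≤ A →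
      0 ≤ θ → θ ≤ Real.exp (-(N : ℝ) ^ c₁) → Nonempty (LvW N A B D K κp ε c' θ) := by
  have hlog : ∀ k : ℝ, ∀ᶠ N : ℕ in atTop, (N : ℝ) ^ k ≤ Real.exp ((N : ℝ) ^ a / 100) := fun k => by
    have h1 : Tendsto (fun N : ℕ => ((N : ℝ) ^ a) ^ (k / a) * Real.exp (-(1 / 100) * (N : ℝ) ^ a)) atTop (nhds 0) :=
      (tendsto_rpow_mul_exp_neg_mul_atTop_nhds_zero (k / a) (1 / 100) (by norm_num)).comp
        ((tendsto_rpow_atTop ha0).comp tendsto_natCast_atTop_atTop)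
    filter_upwards [h1.eventually (Iic_mem_nhds zero_lt_one), eventually_ge_atTop 1] with N h2 h3
    have hN0 : (0 : ℝ) < N := by exact_mod_cast h3
    have e : ((N : ℝ) ^ a) ^ (k / a) = (N : ℝ) ^ k := by
      rw [← Real.rpow_mul hN0.le]
      congr 1
      field_simp
    rw [e] at h2
    have h4 := mul_le_mul_of_nonneg_right h2 (Real.exp_pos ((N : ℝ) ^ a / 100)).le
    rw [mul_assoc, ← Real.exp_add, show -(1 / 100) * (N : ℝ) ^ a + (N : ℝ) ^ a / 100 = 0 by ring, Real.exp_zero, mul_one, one_mul] at h4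
    exact h4
  filter_upwards [ev_pow ha0 2000, ev_pow_le (K := 10) hac one_pos, ev_pow_le (K := 10) hac₁ one_pos,
    ev_pow_le (K := 10) haκ (show (0 : ℝ) < 1 / 2 by norm_num),
    ev_pow_le (K := 1) hεκ (show (0 : ℝ) < 1 / 2 by norm_num), eventually_ge_atTop 4, hlog 1, hlog K] with
    N g2 g6 g7 g8 g9 g10 g11 g12
  intro A B D θ hA1 hA2 hB0 hBA hD0 hDA hθ0 hθ
  have hN4 : (4 : ℝ) ≤ N := by exact_mod_cast g10
  have hN0 : (0 : ℝ) < N := by linarith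
  have hA0 : 2000 ≤ A := g2.trans hA1
  have hAle : Real.exp ((N : ℝ) ^ a / 100) ≤ Real.exp (A / 100) := Real.exp_le_exp.2 (by linarith)
  have g11' := g11.trans hAle
  have g12' := g12.trans hAle
  have hc : 10 * A ≤ (N : ℝ) ^ c' := by linarith
  have hc1 : 10 * A ≤ (N : ℝ) ^ c₁ := by linarith
  have hκ : 10 * A + (N : ℝ) ^ ε ≤ (N : ℝ) ^ κp := by linarith
  have hε0 : 0 ≤ (N : ℝ) ^ ε := Real.rpow_nonneg hN0.le _
  have hE : ∀ x : ℝ, 1 + x ≤ Real.exp x := fun x => by linarith [Real.add_one_le_exp x]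
  have h20 : (20 : ℝ) ≤ Real.exp (A / 100) := by linarith [hE (A / 100)]
  have ex : ∀ x y : ℝ, Real.exp x * Real.exp y = Real.exp (x + y) := fun x y => (Real.exp_add x y).symm
  have hNK : Real.exp (-(A / 100)) ≤ (N : ℝ) ^ (-K) := by
    rw [Real.rpow_neg hN0.le K, Real.exp_neg]
    exact inv_anti₀ (Real.rpow_pos_of_pos hN0 _) g12'
  have h3N : 3 * (N : ℝ) ≤ Real.exp (A / 100 * 2) := by
    rw [Real.rpow_one] at g11'
    calc 3 * (N : ℝ) ≤ Real.exp (A / 100) * Real.exp (A / 100) := mul_le_mul (by linarith) g11' hN0.le (Real.exp_pos _).le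
      _ = _ := by rw [ex]; congr 1; ring
  have hN1 : ((N : ℝ) + 1) ^ 2 ≤ Real.exp (A / 100 * 4) := by
    have k1 : (N : ℝ) + 1 ≤ Real.exp (A / 100 * 2) := by
      calc (N : ℝ) + 1 ≤ 3 * N := by linarith
        _ ≤ _ := h3N
    calc ((N : ℝ) + 1) ^ 2 ≤ (Real.exp (A / 100 * 2)) ^ 2 := pow_le_pow_left₀ (by linarith) k1 2
      _ = _ := by rw [sq, ex]; congr 1; ring
  have hq1 : Real.exp (-(2 * A + A / 100 * 2)) ≤ Real.exp (-A) * Real.exp (-A) / (3 * N) := by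
    rw [le_div_iff₀ (by positivity), ex]
    calc Real.exp (-(2 * A + A / 100 * 2)) * (3 * N) ≤ Real.exp (-(2 * A + A / 100 * 2)) * Real.exp (A / 100 * 2) :=
          mul_le_mul_of_nonneg_left h3N (Real.exp_pos _).le
      _ = Real.exp (-A + -A) := by rw [ex]; congr 1; ring
  have hθD : Real.exp (2 * D) * θ ≤ Real.exp (-(9 * A)) := by
    calc Real.exp (2 * D) * θ ≤ Real.exp (2 * D) * Real.exp (-(N : ℝ) ^ c₁) := mul_le_mul_of_nonneg_left hθ (Real.exp_pos _).le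
      _ = Real.exp (2 * D + -(N : ℝ) ^ c₁) := ex _ _
      _ ≤ _ := Real.exp_le_exp.2 (by linarith)
  have hθ1 : θ ≤ Real.exp (-(9 * A)) := by
    refine le_trans ?_ hθD
    have : (1 : ℝ) ≤ Real.exp (2 * D) := Real.one_le_exp (by linarith)
    nlinarith
  have h4K : ((N : ℝ) + 1) ^ 2 * Real.exp (-A) ≤ (N : ℝ) ^ (-K) := by
    calc ((N : ℝ) + 1) ^ 2 * Real.exp (-A) ≤ Real.exp (A / 100 * 4) * Real.exp (-A) :=
          mul_le_mul_of_nonneg_right hN1 (Real.exp_pos _).le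
      _ = Real.exp (A / 100 * 4 + -A) := ex _ _
      _ ≤ Real.exp (-(A / 100)) := Real.exp_le_exp.2 (by linarith)
      _ ≤ _ := hNK
  have h16 : Real.exp (-(3 * A + A / 100)) ≤ Real.exp (-A) * Real.exp (-A) * (Real.exp (-A) / 3) := by
    rw [ex, ← mul_div_assoc, ex, le_div_iff₀ (by norm_num : (0 : ℝ) < 3)]
    calc Real.exp (-(3 * A + A / 100)) * 3 ≤ Real.exp (-(3 * A + A / 100)) * Real.exp (A / 100) :=
          mul_le_mul_of_nonneg_left (by linarith) (Real.exp_pos _).le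
      _ = Real.exp (-A + -A + -A) := by rw [ex]; congr 1; ring
  refine ⟨{
    q0 := Real.exp (-A)
    q2 := Real.exp (-A)
    m := Real.exp (-((N : ℝ) ^ ε + 6 * A))
    M := (N : ℝ) ^ ε + 4 * A
    ρ := Real.exp (-(5 * A))
    ρ₁ := Real.exp (-(3 * A))
    ρ' := Real.exp (-(3 * A))
    hq0 := Real.exp_pos _
    e4 := h4K
    hq2 := Real.exp_pos _
    e5 := h4K
    hm := Real.exp_pos _
    e6 := ?_
    e7 := ?_
    hM8 := by linarith
    hM := by linarith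
    hρ := Real.exp_pos _
    e8 := ?_
    hρ₁ := Real.exp_pos _
    hρ' := Real.exp_pos _
    hρ'1 := Real.exp_le_one_iff.2 (by linarith)
    e9 := ?_
    e10 := ?_
    e11 := ?_
    e12 := ?_
    e13 := ?_
    e14 := ?_
    e15 := Real.exp_le_exp.2 (by linarith)
    e16 := (Real.exp_le_exp.2 (by linarith)).trans h16 }⟩
  · -- e6
    have k1 : 2 * Real.exp ((N : ℝ) ^ ε) * Real.exp (-((N : ℝ) ^ ε + 6 * A)) = 2 * Real.exp (-(6 * A)) := by
      rw [mul_assoc, ex]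
      congr 2
      ring
    have k2 : Real.exp (-(N : ℝ) ^ c') ≤ Real.exp (-(5 * A)) := Real.exp_le_exp.2 (by linarith)
    have k3 : 2 * B * Real.exp (-(5 * A)) ≤ 2 * Real.exp (-(5 * A) + A / 100) := by
      rw [Real.exp_add]
      have := mul_le_mul_of_nonneg_right hBA (Real.exp_pos (-(5 * A))).le
      linarith
    have k4 : Real.exp (-(5 * A)) ≤ Real.exp (-(5 * A) + A / 100) := Real.exp_le_exp.2 (by linarith)
    have k4' : Real.exp (-(6 * A)) ≤ Real.exp (-(5 * A) + A / 100) := Real.exp_le_exp.2 (by linarith)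
    have k5 : 5 * Real.exp (-(5 * A) + A / 100) ≤ Real.exp (-(2 * A + A / 100 * 2)) / 2 * (Real.exp (-A) / 2) := by
      have e1 : Real.exp (-(2 * A + A / 100 * 2)) / 2 * (Real.exp (-A) / 2) = Real.exp (-(2 * A + A / 100 * 2) + -A) / 4 := by
        rw [← ex]
        ring
      rw [e1, le_div_iff₀ (by norm_num : (0 : ℝ) < 4)]
      calc 5 * Real.exp (-(5 * A) + A / 100) * 4 = 20 * Real.exp (-(5 * A) + A / 100) := by ring
        _ ≤ Real.exp (A / 100) * Real.exp (-(5 * A) + A / 100) := mul_le_mul_of_nonneg_right h20 (Real.exp_pos _).le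
        _ = Real.exp (A / 100 + (-(5 * A) + A / 100)) := ex _ _
        _ ≤ _ := Real.exp_le_exp.2 (by linarith)
    rw [k1]
    refine le_trans (by linarith) (k5.trans ?_)
    exact mul_le_mul_of_nonneg_right (div_le_div_of_nonneg_right hq1 (by norm_num)) (by positivity)
  · -- e7
    have k1 : Real.exp (-((N : ℝ) ^ ε + 6 * A)) ^ 2 = Real.exp (-(2 * (N : ℝ) ^ ε + 12 * A)) := by
      rw [sq, ex]
      congr 1
      ring
    rw [k1]
    calc ((N : ℝ) + 1) ^ 2 * Real.exp (-(5 * ((N : ℝ) ^ ε + 4 * A))) ≤ Real.exp (A / 100 * 4) * Real.exp (-(5 * ((N : ℝ) ^ ε + 4 * A))) :=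
          mul_le_mul_of_nonneg_right hN1 (Real.exp_pos _).le
      _ = Real.exp (A / 100 * 4 + -(5 * ((N : ℝ) ^ ε + 4 * A))) := ex _ _
      _ ≤ _ := Real.exp_le_exp.2 (by linarith)
  · -- e8
    rw [div_le_iff₀ (Real.exp_pos _)]
    calc θ ≤ Real.exp (-(9 * A)) := hθ1
      _ ≤ Real.exp (-(A / 100) + -(5 * A)) := Real.exp_le_exp.2 (by linarith)
      _ = Real.exp (-(A / 100)) * Real.exp (-(5 * A)) := by rw [Real.exp_add]
      _ ≤ _ := mul_le_mul_of_nonneg_right hNK (Real.exp_pos _).le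
  · -- e9
    refine le_trans ?_ hq1
    have h9 : (9 : ℝ) ≤ Real.exp (A / 2) := by
      have := hE (A / 2)
      linarith
    calc 8 * Real.exp (-(3 * A)) + Real.exp (-(3 * A)) = 9 * Real.exp (-(3 * A)) := by ring
      _ ≤ Real.exp (A / 2) * Real.exp (-(3 * A)) := mul_le_mul_of_nonneg_right h9 (Real.exp_pos _).le
      _ = Real.exp (A / 2 + -(3 * A)) := ex _ _
      _ ≤ _ := Real.exp_le_exp.2 (by linarith)
  · -- e10
    rw [div_le_iff₀ (Real.exp_pos _)]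
    have k1 : 2 * (Real.exp (2 * D) * θ) ≤ Real.exp (-(8 * A)) := by
      have h2 : (2 : ℝ) ≤ Real.exp A := by
        have := hE A
        linarith
      calc 2 * (Real.exp (2 * D) * θ) ≤ Real.exp A * Real.exp (-(9 * A)) :=
            mul_le_mul h2 hθD (mul_nonneg (Real.exp_pos _).le hθ0) (Real.exp_pos _).le
        _ = _ := by rw [ex]; congr 1; ring
    calc 2 * (Real.exp (2 * D) * θ) ≤ Real.exp (-(8 * A)) := k1
      _ ≤ Real.exp (-(A / 100) + -(3 * A)) := Real.exp_le_exp.2 (by linarith)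
      _ = Real.exp (-(A / 100)) * Real.exp (-(3 * A)) := by rw [Real.exp_add]
      _ ≤ _ := mul_le_mul_of_nonneg_right hNK (Real.exp_pos _).le
  · -- e11
    rw [le_div_iff₀ (by norm_num : (0 : ℝ) < 2)]
    have h2 : (2 : ℝ) ≤ Real.exp A := by
      have := hE A
      linarith
    calc Real.exp (-(N : ℝ) ^ κp) * 2 ≤ Real.exp (-(N : ℝ) ^ κp) * Real.exp A := mul_le_mul_of_nonneg_left h2 (Real.exp_pos _).le
      _ = Real.exp (-(N : ℝ) ^ κp + A) := ex _ _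
      _ ≤ _ := Real.exp_le_exp.2 (by linarith)
  · -- e12
    rw [le_div_iff₀ (by norm_num : (0 : ℝ) < 2)]
    have h2 : (2 : ℝ) ≤ Real.exp A := by
      have := hE A
      linarith
    refine le_trans ?_ h16
    calc Real.exp (-(N : ℝ) ^ κp) * 2 ≤ Real.exp (-(N : ℝ) ^ κp) * Real.exp A := mul_le_mul_of_nonneg_left h2 (Real.exp_pos _).le
      _ = Real.exp (-(N : ℝ) ^ κp + A) := ex _ _
      _ ≤ _ := Real.exp_le_exp.2 (by linarith)
  · -- e13
    exact (Real.exp_le_exp.2 (by linarith)).trans hNK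
  · -- e14
    calc Real.exp (-(4 * A)) ≤ Real.exp (-(2 * A + A / 100 * 2) + -A) := Real.exp_le_exp.2 (by linarith)
      _ = Real.exp (-(2 * A + A / 100 * 2)) * Real.exp (-A) := by rw [ex]
      _ ≤ _ := mul_le_mul_of_nonneg_right hq1 (Real.exp_pos _).le

end

end Pool.W7d29a1.C0.Bd73
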