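import Pool.Agent.W_7d29a1_C0.Bd73C
import Pool.Agent.W_7d29a1_C0.FarE34

/-!
CURV0 (MP_7d29a1_pr), GS one kick: THE BAD EVENTS AS PLACES. `nfl` = the paths which are not flat at the width `vv μ s N ε`.
`nCn` = not in the cone over the window of the row.
`T_places`, `out_places`: for every environment in `GwW` and every weight `0 ≤ G ≤ 1`, the Gibbs mass of the paths `x` with one of the two
bad events given `q x` (`T_rob`, `out_rob` of Bd73C), times `G`, is at most the sum of the masses of the robust near ties of `x` given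
`q x`, times `G`, plus the mass of `nfl` divided by a threshold. `T_int`, `out_int`: the same integrated over `Pm`. (helper73)
-/

set_option autoImplicit false
set_option linter.unusedSectionVars false
set_option linter.unusedVariables false

namespace Pool.W7d29a1.C0.Bd73

open Finset MeasureTheory Pool.Agent.W_7d29a1_F Pool.Agent.W_7d29a1_X Pool.W7d29a1.C0
open Pool.W7d29a1.C0 (gz gm gm_mono gm_const)
open Pool.W7d29a1.C0.VT31
open Pool.Agent.W_7d29a1_H (sl)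
open Pool.Agent.W_7d29a1_HZ (wd')
open Pool.Agent.W_7d29a1_C0.Swap57
open Pool.W7d29a1.C0.R43 (Tau tau_meas mI mI_nonneg cE2_mI)
open Pool.Agent.W_7d29a1_C0.Mod92
open Pool.Agent.W_7d29a1_C0.Blk18 (Full)
open Pool.Agent.W_7d29a1_C0.LocM18 (Cn)
open Pool.Agent.W_7d29a1_C0.GwA50 (GwW)
open Pool.Agent.W_7d29a1_C0.Far34 (Fl nfl nfl_nonneg vv vv_nonneg NI_of_far str_of_fl)
open Pool.W7d29a1.C0.T73

noncomputable section

variable {μ : Measure ℝ} {s : ℝ} {N : ℕ} {Q : Finset (Finset ℕ)} {Y : Type*} [DecidableEq Y]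

theorem nfl_le_one (N : ℕ) (σ : ℝ) (v : ℕ → ℝ) (S : Px Q) : nfl N σ v S ≤ 1 := by
  unfold nfl
  split_ifs <;> norm_num

/-- A flat path is in the cone over the blocks which are not too short. -/
theorem nCn_le_nfl {δ₁ ε : ℝ} {c d : ℕ} (hcd : c + 1 ≤ d) (hd : d ≤ N) (hN : (N : ℝ) ^ ε ≤ ((d - c : ℕ) : ℝ) ^ δ₁) (S : Px Q) :
    nCn μ s δ₁ c d S ≤ nfl N (sl μ s) (vv μ s N ε) S := by
  by_cases h : Fl N (sl μ s) (vv μ s N ε) S
  · have h1 := h c (d - c) (by omega) (by omega)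
    rw [show c + (d - c) = d by omega] at h1
    have h2 : Cn μ s δ₁ c d S := by
      unfold Cn
      refine h1.trans ?_
      unfold vv
      exact mul_le_mul_of_nonneg_right hN (zero_le_one.trans (le_max_left _ _))
    have e : nCn μ s δ₁ c d S = 0 := if_pos h2
    rw [e]
    exact nfl_nonneg _ _ _ _
  · have e : nfl N (sl μ s) (vv μ s N ε) S = 1 := if_neg h
    rw [e]
    unfold nCn
    split_ifs <;> norm_num

section Gen

variable {X : Type*} [Fintype X] [Nonempty X]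

open Classical in
/-- Replacing an event by a union of events, against any weight. -/
theorem gm_union (w : X → ℝ) {ι : Type*} (T : Finset ι) {E : X → Prop} {P : ι → X → Prop} {f G : X → ℝ} (hf : ∀ x, 0 ≤ f x)
    (hG0 : ∀ x, 0 ≤ G x) (hG1 : ∀ x, G x ≤ 1) (h : ∀ x, E x → (∃ t ∈ T, P t x) ∨ 1 ≤ f x) :
    gm w (fun x => (if E x then 1 else 0) * G x) ≤ ∑ t ∈ T, gm w (fun x => (if P t x then 1 else 0) * G x) + gm w f := by
  have h1 : ∀ x, (if E x then (1 : ℝ) else 0) * G x ≤ ((∑ t ∈ T, fun x => (if P t x then (1 : ℝ) else 0) * G x) + f) x := fun x => by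
    rw [Pi.add_apply, Finset.sum_apply]
    have h0 : ∀ t ∈ T, 0 ≤ (if P t x then (1 : ℝ) else 0) * G x := fun t _ => mul_nonneg (by split_ifs <;> norm_num) (hG0 x)
    have hs := sum_nonneg h0
    by_cases hE : E x
    · rw [if_pos hE, one_mul]
      rcases h x hE with ⟨t, ht, hP⟩ | h2
      · have h3 := single_le_sum h0 ht
        rw [if_pos hP, one_mul] at h3
        have := hf x
        linarith
      · have := hG1 x
        linarith
    · rw [if_neg hE, zero_mul]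
      have := hf x
      linarith
  refine (gm_mono w h1).trans (le_of_eq ?_)
  rw [Pool.W7d29a1.C0.gm_add]
  congr 1
  have e3 : ∀ J : Finset ι, gm w (∑ i ∈ J, fun x => (if P i x then (1 : ℝ) else 0) * G x) =
      ∑ i ∈ J, gm w (fun x => (if P i x then (1 : ℝ) else 0) * G x) := by
    intro J
    induction J using Finset.induction_on with
    | empty =>
      rw [sum_empty, sum_empty]
      exact gm_const w 0
    | insert i J hi ih => rw [sum_insert hi, sum_insert hi, Pool.W7d29a1.C0.gm_add, ih]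
  exact e3 T

end Gen

variable [Nonempty (Px Q)]

open Classical in
/-- **(A1) as places.** -/
theorem T_places [SwQ Q] {κ δ δ₁ ε c' : ℝ} {η : Env} (h : GwW μ s N κ δ δ₁ ε c' η) (hQ : Full N Q) {b j : ℕ}
    (hj : j + b ≤ N) (h1 : (N : ℝ) ^ κ ≤ ((j - (j - b) : ℕ) : ℝ)) (h2 : (N : ℝ) ^ κ ≤ b) {B : ℝ} (hB : 0 ≤ B) {a : ℤ}
    (ha : a = 1 ∨ a = -1)
    {w : Px Q → ℝ} {D : ℝ} (hA : ∀ x, |w x - lw μ s η N Q x| ≤ D) {c d : ℕ} (hcj : c ≤ j - b) (hjd : j + b ≤ d) (hd : d ≤ N)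
    (hw : Wk c c d d w) {q : Px Q → Y} (hc : Crs q (pJ c d)) {M ρ δ' q1 m : ℝ} (hδ' : 0 ≤ δ') (hm : 0 ≤ m) (hρ : 0 < ρ)
    (hM : ((N : ℝ) + 1) ^ 2 * Real.exp (-(5 * M)) ≤ m ^ 2)
    (hnum : 2 * Real.exp ((N : ℝ) ^ ε) * Real.exp (4 * D) * m + Real.exp (-(N : ℝ) ^ c') + 2 * B * ρ ≤ q1 * δ')
    {G : Px Q → ℝ} (hG0 : ∀ x, 0 ≤ G x) (hG1 : ∀ x, G x ≤ 1) :
    gm w (fun x => (if q1 ≤ cE w q (fun S => if δ' ≤ TT w (pJ c d) (gj μ s η δ B b j a) S then 1 else 0) x then 1 else 0) * G x) ≤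
      gm w (fun x => (if Tau w q (j - b) j M x then 1 else 0) * G x) +
        gm w (fun x => (if Tau w q j (j + b) M x then 1 else 0) * G x) + gm w (nCn μ s δ₁ (j - b) (j + b)) / ρ := by
  have hn := nCn_nonneg (Q := Q) μ s δ₁ (j - b) (j + b)
  have k1 := gm_union w (Finset.univ : Finset Bool)
    (E := fun x => q1 ≤ cE w q (fun S => if δ' ≤ TT w (pJ c d) (gj μ s η δ B b j a) S then 1 else 0) x)
    (P := fun t x => if t then Tau w q (j - b) j M x else Tau w q j (j + b) M x)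
    (f := fun x => if ρ < cE w q (nCn μ s δ₁ (j - b) (j + b)) x then 1 else 0)
    (fun x => by split_ifs <;> norm_num) hG0 hG1 (fun x hx => by
      rcases T_rob h hQ hj h1 h2 hB ha hA hcj hjd hd hw hc hδ' hm hM hnum hx with h3 | h3 | h3
      · exact Or.inl ⟨true, mem_univ _, by simpa using h3⟩
      · exact Or.inl ⟨false, mem_univ _, by simpa using h3⟩
      · exact Or.inr (by rw [if_pos h3]))
  rw [Fintype.sum_bool] at k1
  simp only [if_true, Bool.false_eq_true, if_false] at k1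
  exact k1.trans (add_le_add le_rfl (markov73 w q hn hρ))

/-- **(A2), flat form**: paths out of the tube of the box of a flat path `x`, robust given `q`. -/
theorem out_rob_fl {σ R : ℝ} {v : ℕ → ℝ} (hv : 0 ≤ v 0) {L k0 n a0 l r : ℕ} {J : Finset ℕ} (hJ : ∀ i ∈ J, a0 ≤ i ∧ i ≤ a0 + r * l)
    (hl0 : 1 ≤ l) (hd : a0 + (r + 2) * l ≤ N) (hk : k0 ≤ N) (hn : k0 ≤ n) (hJk : ∀ i ∈ J, i - k0 ≤ L ∧ k0 - i ≤ L) (hR : 1 ≤ R)
    (hRv : ∀ k, 1 ≤ k → k ≤ L → v k ≤ R) {r0 : ℝ} (hr0 : 0 < r0) (hRl : ∀ k, k ≤ 2 * l → r0 + 2 * v k ≤ R) {w : Px Q → ℝ}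
    {q : Px Q → Y} {x : Px Q} (hx : Fl N σ v x) {q1 ρ₁ ρ' : ℝ} (hnum : (r + 1) * ρ₁ + ρ' ≤ q1)
    (h : q1 ≤ cE w q (fun z => open Classical in
      if OutB pm σ R (k0 : ℤ) (T73.JZ J) (fun _ : Unit => bx pm R (k0 : ℤ) n x) z then 1 else 0) x) :
    (∃ t ∈ range (r + 1), ρ₁ ≤ mI w q (a0 + t * l) (a0 + t * l + l) x) ∨ ρ' < cE w q (nfl N σ v) x := by
  classical
  by_contra h2
  push Not at h2
  obtain ⟨h3, h4⟩ := h2
  have k1 : ∀ z, (if OutB pm σ R (k0 : ℤ) (T73.JZ J) (fun _ : Unit => bx pm R (k0 : ℤ) n x) z then (1 : ℝ) else 0) ≤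
      (∑ t ∈ range (r + 1), NI (a0 + t * l) (a0 + t * l + l) x + nfl N σ v : Px Q → ℝ) z := fun z => by
    rw [Pi.add_apply, Finset.sum_apply]
    have hn0 : ∀ t ∈ range (r + 1), 0 ≤ NI (a0 + t * l) (a0 + t * l + l) x z := fun t _ => NI_nonneg _ _ _ _
    have hs0 : 0 ≤ ∑ t ∈ range (r + 1), NI (a0 + t * l) (a0 + t * l + l) x z := sum_nonneg hn0
    by_cases ho : OutB pm σ R (k0 : ℤ) (T73.JZ J) (fun _ : Unit => bx pm R (k0 : ℤ) n x) z
    · rw [if_pos ho]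
      by_cases hz : Fl N σ v z
      · obtain ⟨m', hm', h5⟩ := OutB_sep (x := fun _ : Unit => x) hR (fun _ => pm_nonneg x _) (fun _ => pm_le x (by exact_mod_cast hn))
          (fun _ => str_of_fl hx (by linarith) hRv (fun i hi => by
            obtain ⟨b1, b2⟩ := hJ i hi
            nlinarith) hk hJk) ho
        obtain ⟨m, hm, rfl⟩ := mem_JZ.1 hm'
        have h5' := h5 ()
        rw [pm_nat, pm_nat] at h5'
        obtain ⟨b1, b2⟩ := hJ m hm
        obtain ⟨t, ht, h6, h7⟩ : ∃ t ≤ r, m ≤ a0 + t * l ∧ a0 + t * l + l ≤ m + 2 * l := by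
          refine ⟨(m - a0 + l - 1) / l, ?_, ?_, ?_⟩
          · rw [Nat.div_le_iff_le_mul_add_pred hl0]
            have : m - a0 ≤ r * l := by omega
            rw [mul_comm] at this
            omega
          · have h8 : m - a0 ≤ (m - a0 + l - 1) / l * l := by
              have := Nat.div_add_mod (m - a0 + l - 1) l
              have := Nat.mod_lt (m - a0 + l - 1) hl0
              have e9 : l * ((m - a0 + l - 1) / l) = (m - a0 + l - 1) / l * l := mul_comm _ _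
              omega
            omega
          · have h8 : (m - a0 + l - 1) / l * l ≤ m - a0 + l - 1 := Nat.div_mul_le_self _ _
            omega
        have h8 : m + 2 * l ≤ N := by nlinarith
        have hsym : |((ps x m - ps z m : ℤ) : ℝ)| = |((ps z m - ps x m : ℤ) : ℝ)| := by
          rw [show (ps x m - ps z m : ℤ) = -(ps z m - ps x m) by ring, Int.cast_neg, abs_neg]
        have h9 : NI m (m + 2 * l) x z = 1 := NI_of_far (τ := m) hv hr0 (fun k hk => hRl k (by omega)) le_rfl h8 le_rfl (by omega) hx hz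
          (by rw [hsym]; exact h5'.le)
        have h10 : (1 : ℝ) ≤ NI (a0 + t * l) (a0 + t * l + l) x z := by
          rw [← h9]
          exact NI_mono h6 h7 x z
        have h11 := single_le_sum (f := fun t => NI (a0 + t * l) (a0 + t * l + l) x z) hn0 (mem_range.2 (Nat.lt_succ_of_le ht))
        have h12 := nfl_nonneg N σ v z
        exact (h10.trans h11).trans (by linarith)
      · have e : nfl N σ v z = 1 := if_neg hz
        rw [e]
        linarith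
    · rw [if_neg ho]
      have := nfl_nonneg N σ v z
      linarith
  have k2 := cE_mono w q k1 x
  rw [cE_add, cE_sum, Pi.add_apply, Finset.sum_apply] at k2
  have k3 : ∑ t ∈ range (r + 1), cE w q (NI (a0 + t * l) (a0 + t * l + l) x) x < (r + 1) * ρ₁ := by
    have k4 : ∑ t ∈ range (r + 1), cE w q (NI (a0 + t * l) (a0 + t * l + l) x) x < ∑ t ∈ range (r + 1), ρ₁ :=
      sum_lt_sum_of_nonempty ⟨0, mem_range.2 (Nat.succ_pos r)⟩ fun t ht => h3 t ht
    rw [sum_const, card_range, nsmul_eq_mul] at k4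
    push_cast at k4
    exact k4
  have k5 : q1 ≤ cE w q (fun z => if OutB pm σ R (k0 : ℤ) (T73.JZ J) (fun _ : Unit => bx pm R (k0 : ℤ) n x) z then (1 : ℝ) else 0) x := by
    convert h
  linarith

open Classical in
/-- **(A2) as places.** -/
theorem out_places {σ R : ℝ} {v : ℕ → ℝ} (hv : 0 ≤ v 0) {L k0 n a0 l r : ℕ} {J : Finset ℕ} (hJ : ∀ i ∈ J, a0 ≤ i ∧ i ≤ a0 + r * l)
    (hl0 : 1 ≤ l) (hd : a0 + (r + 2) * l ≤ N) (hk : k0 ≤ N) (hn : k0 ≤ n) (hJk : ∀ i ∈ J, i - k0 ≤ L ∧ k0 - i ≤ L) (hR : 1 ≤ R)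
    (hRv : ∀ k, 1 ≤ k → k ≤ L → v k ≤ R) {r0 : ℝ} (hr0 : 0 < r0) (hRl : ∀ k, k ≤ 2 * l → r0 + 2 * v k ≤ R) {w : Px Q → ℝ}
    {q : Px Q → Y} {q1 ρ₁ ρ' : ℝ} (hρ' : 0 < ρ') (hρ'1 : ρ' ≤ 1) (hnum : (r + 1) * ρ₁ + ρ' ≤ q1) {G : Px Q → ℝ} (hG0 : ∀ x, 0 ≤ G x)
    (hG1 : ∀ x, G x ≤ 1) :
    gm w (fun x => (if q1 ≤ cE w q (fun z =>
      if OutB pm σ R (k0 : ℤ) (T73.JZ J) (fun _ : Unit => bx pm R (k0 : ℤ) n x) z then 1 else 0) x then 1 else 0) * G x) ≤
      ∑ t ∈ range (r + 1), gm w (fun x => (if ρ₁ ≤ mI w q (a0 + t * l) (a0 + t * l + l) x then 1 else 0) * G x) +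
        2 * gm w (nfl N σ v) / ρ' := by
  have hn0 := nfl_nonneg (Q := Q) N σ v
  have k1 := gm_union w (range (r + 1))
    (E := fun x => q1 ≤ cE w q (fun z =>
      if OutB pm σ R (k0 : ℤ) (T73.JZ J) (fun _ : Unit => bx pm R (k0 : ℤ) n x) z then 1 else 0) x)
    (P := fun t x => ρ₁ ≤ mI w q (a0 + t * l) (a0 + t * l + l) x)
    (f := (nfl N σ v + fun x => if ρ' < cE w q (nfl N σ v) x then (1 : ℝ) else 0))
    (fun x => by
      rw [Pi.add_apply]
      have := hn0 x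
      split_ifs <;> linarith) hG0 hG1 (fun x hx => by
      by_cases hf : Fl N σ v x
      · rcases out_rob_fl hv hJ hl0 hd hk hn hJk hR hRv hr0 hRl hf hnum (by convert hx) with h3 | h3
        · exact Or.inl h3
        · refine Or.inr ?_
          rw [Pi.add_apply, if_pos h3]
          have := hn0 x
          linarith
      · refine Or.inr ?_
        have e : nfl N σ v x = 1 := if_neg hf
        rw [Pi.add_apply, e]
        split_ifs <;> linarith)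
  refine k1.trans (add_le_add le_rfl ?_)
  rw [Pool.W7d29a1.C0.gm_add]
  have k2 := markov73 w q hn0 hρ'
  have k3 : gm w (nfl N σ v) ≤ gm w (nfl N σ v) / ρ' := by
    rw [le_div_iff₀ hρ']
    exact mul_le_of_le_one_right (gm_nonneg w hn0) hρ'1
  calc _ ≤ gm w (nfl N σ v) / ρ' + gm w (nfl N σ v) / ρ' := add_le_add k3 k2
    _ = _ := by ring

/-! ### Integrated over the environment and the signs -/

section Int

variable {X : Type*} [Fintype X] [Nonempty X] {Ω' : Type*} [MeasurableSpace Ω']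

theorem meas_cE2 {w : Ω' → X → ℝ} (hw : ∀ x, Measurable fun ω => w ω x) (p : X → Y) {K : Ω' → X → X → ℝ}
    (hK : ∀ z z', Measurable fun ω => K ω z z') (x x' : X) : Measurable fun ω => cE2 (w ω) p (K ω) x x' := by
  unfold cE2
  exact meas_cE hw (fun z => meas_cE hw (fun z' => hK z z') p x') p x

theorem meas_le_ind {f : Ω' → ℝ} (hf : Measurable f) (a : ℝ) [∀ ω, Decidable (a ≤ f ω)] :
    Measurable fun ω => if a ≤ f ω then (1 : ℝ) else 0 :=
  Measurable.ite (measurableSet_le measurable_const hf) measurable_const measurable_const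

theorem gm_01 (w : X → ℝ) {f : X → ℝ} (h0 : ∀ x, 0 ≤ f x) (h1 : ∀ x, f x ≤ 1) : 0 ≤ gm w f ∧ gm w f ≤ 1 :=
  ⟨gm_nonneg w h0, (gm_mono w h1).trans_eq (gm_const w 1)⟩

variable [IsProbabilityMeasure μ]

/-- From a good set of environments to the integral. -/
theorem int_good73 {Ω : Set Env} (mΩ : MeasurableSet Ω) {ep : ℝ} (hep : 0 ≤ ep) (hΩc : law μ Ωᶜ ≤ ENNReal.ofReal ep)
    {X Y : Env × Finset ℕ → ℝ} (mX : Measurable X) (mY : Measurable Y) {C : ℝ} (X0 : ∀ ω, 0 ≤ X ω) (X1 : ∀ ω, X ω ≤ 1)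
    (Y0 : ∀ ω, 0 ≤ Y ω) (YC : ∀ ω, Y ω ≤ C) {θ' : ℝ} (hθ : 0 ≤ θ') (h : ∀ ω : Env × Finset ℕ, ω.1 ∈ Ω → X ω ≤ Y ω + θ') :
    ∫ ω, X ω ∂(Pm μ N) ≤ ∫ ω, Y ω ∂(Pm μ N) + (θ' + ep) := by
  classical
  have mI : Measurable fun η : Env => (Ωᶜ).indicator (fun _ => (1 : ℝ)) η := measurable_const.indicator mΩ.compl
  have bI : ∀ η : Env, 0 ≤ (Ωᶜ).indicator (fun _ => (1 : ℝ)) η ∧ (Ωᶜ).indicator (fun _ => (1 : ℝ)) η ≤ 1 := fun η => by
    by_cases hη : η ∈ Ωᶜ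
    · rw [Set.indicator_of_mem hη]
      norm_num
    · rw [Set.indicator_of_notMem hη]
      norm_num
  have iX : Integrable X (Pm μ N) := int_bdd mX (M := 1) fun ω => by rw [abs_of_nonneg (X0 ω)]; exact X1 ω
  have iY : Integrable Y (Pm μ N) := int_bdd mY (M := C) fun ω => by rw [abs_of_nonneg (Y0 ω)]; exact YC ω
  have iI : Integrable (fun ω : Env × Finset ℕ => (Ωᶜ).indicator (fun _ => (1 : ℝ)) ω.1) (Pm μ N) :=
    int_bdd (mI.comp measurable_fst) (M := 1) fun ω => by rw [abs_of_nonneg (bI ω.1).1]; exact (bI ω.1).2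
  have e1 : ∫ ω, (Ωᶜ).indicator (fun _ => (1 : ℝ)) ω.1 ∂(Pm μ N) = (law μ).real Ωᶜ := by
    have hi : Integrable (fun η : Env => (Ωᶜ).indicator (fun _ => (1 : ℝ)) η) (law μ) :=
      (integrable_const (1 : ℝ)).indicator mΩ.compl
    rw [int_Pm (Φ := fun ω : Env × Finset ℕ => (Ωᶜ).indicator (fun _ => (1 : ℝ)) ω.1) (fun _ _ => hi) fun _ => mI]
    have e : ∑ A ∈ (range N).powerset, ∫ η, (fun ω : Env × Finset ℕ => (Ωᶜ).indicator (fun _ => (1 : ℝ)) ω.1) (η, A) ∂(law μ) =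
        ∑ _A ∈ (range N).powerset, ∫ η, (Ωᶜ).indicator (fun _ => (1 : ℝ)) η ∂(law μ) := rfl
    rw [e, sum_const, card_powerset, card_range, nsmul_eq_mul]
    push_cast
    rw [← mul_assoc, inv_mul_cancel₀ (by positivity), one_mul]
    rw [integral_indicator mΩ.compl, setIntegral_const, smul_eq_mul, mul_one]
  have e2 : (law μ).real Ωᶜ ≤ ep := by
    rw [Measure.real]
    exact ENNReal.toReal_le_of_le_ofReal hep hΩc
  have k1 : ∀ ω, X ω ≤ Y ω + θ' + (Ωᶜ).indicator (fun _ => (1 : ℝ)) ω.1 := fun ω => by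
    by_cases hω : ω.1 ∈ Ω
    · rw [Set.indicator_of_notMem (Set.notMem_compl_iff.2 hω), add_zero]
      exact h ω hω
    · rw [Set.indicator_of_mem (show ω.1 ∈ Ωᶜ from hω)]
      linarith [X1 ω, Y0 ω]
  have k2 := integral_mono iX ((iY.add (integrable_const θ')).add iI) k1
  have k3 : ∫ ω, ((Y + fun _ => θ') + fun ω : Env × Finset ℕ => (Ωᶜ).indicator (fun _ => (1 : ℝ)) ω.1 : Env × Finset ℕ → ℝ) ω ∂(Pm μ N) =
      ∫ ω, Y ω ∂(Pm μ N) + θ' + (law μ).real Ωᶜ := by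
    rw [integral_add' (iY.add (integrable_const θ')) iI, integral_add' iY (integrable_const θ'), integral_const, e1]
    simp
  refine k2.trans (k3.le.trans ?_)
  linarith

open Classical in
/-- **(A1) integrated**: `Ω` a good set of environments. -/
theorem T_int [SwQ Q] {κ δ δ₁ ε c' : ℝ} (hQ : Full N Q) {b j : ℕ} (hj : j + b ≤ N)
    (h1 : (N : ℝ) ^ κ ≤ ((j - (j - b) : ℕ) : ℝ)) (h2 : (N : ℝ) ^ κ ≤ b) {B : ℝ} (hB : 0 ≤ B)
    {c d : ℕ} (hcj : c ≤ j - b) (hjd : j + b ≤ d) (hd : d ≤ N) {q : Px Q → Y} (hc : Crs q (pJ c d))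
    {M ρ δ' q1 m : ℝ} (hδ' : 0 ≤ δ') (hm : 0 ≤ m) (hρ : 0 < ρ) (hM : ((N : ℝ) + 1) ^ 2 * Real.exp (-(5 * M)) ≤ m ^ 2)
    (hnum : 2 * Real.exp ((N : ℝ) ^ ε) * m + Real.exp (-(N : ℝ) ^ c') + 2 * B * ρ ≤ q1 * δ')
    {Ω : Set Env} (mΩ : MeasurableSet Ω) {ep θ : ℝ} (hep : 0 ≤ ep) (hθ : 0 ≤ θ) (hΩc : law μ Ωᶜ ≤ ENNReal.ofReal ep)
    (hΩ : ∀ η ∈ Ω, GwW μ s N κ δ δ₁ ε c' η ∧ gm (lw μ s η N Q) (nCn μ s δ₁ (j - b) (j + b)) ≤ θ)
    {G : Env × Finset ℕ → Px Q → ℝ} (mG : ∀ x, Measurable fun ω => G ω x) (hG0 : ∀ ω x, 0 ≤ G ω x) (hG1 : ∀ ω x, G ω x ≤ 1) :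
    ∫ ω, gm (wm μ s N Q ω) (fun x => (if q1 ≤ cE (wm μ s N Q ω) q (fun S =>
        if δ' ≤ TT (wm μ s N Q ω) (pJ c d) (gg μ s Q δ B b ω j) S then 1 else 0) x then 1 else 0) * G ω x) ∂(Pm μ N) ≤
      ∫ ω, gm (wm μ s N Q ω) (fun x => (if Tau (wm μ s N Q ω) q (j - b) j M x then 1 else 0) * G ω x) ∂(Pm μ N) +
        ∫ ω, gm (wm μ s N Q ω) (fun x => (if Tau (wm μ s N Q ω) q j (j + b) M x then 1 else 0) * G ω x) ∂(Pm μ N) +
          (θ / ρ + ep) := by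
  have mw : ∀ S, Measurable fun ω => wm μ s N Q ω S := fun S => meas_wm S
  have mT : ∀ S, Measurable fun ω => TT (wm μ s N Q ω) (pJ c d) (gg μ s Q δ B b ω j) S := fun S =>
    meas_cE2 mw (pJ c d) (K := fun ω z z' => |gg μ s Q δ B b ω j z - gg μ s Q δ B b ω j z'|)
      (fun z z' => ((meas_gg δ B b j z).sub (meas_gg δ B b j z')).norm) S S
  have mTau : ∀ i k x, Measurable fun ω => (if Tau (wm μ s N Q ω) q i k M x then (1 : ℝ) else 0) := fun i k x =>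
    meas_le_ind (meas_cE2 mw q (K := fun _ => NI i k) (fun _ _ => measurable_const) x x) _
  have mX : Measurable fun ω => gm (wm μ s N Q ω) (fun x => (if q1 ≤ cE (wm μ s N Q ω) q (fun S =>
        if δ' ≤ TT (wm μ s N Q ω) (pJ c d) (gg μ s Q δ B b ω j) S then 1 else 0) x then 1 else 0) * G ω x) :=
    meas_gm mw fun x => (meas_le_ind (meas_cE mw (fun S => meas_le_ind (mT S) _) q x) _).mul (mG x)
  have mY : ∀ i k, Measurable fun ω => gm (wm μ s N Q ω) (fun x => (if Tau (wm μ s N Q ω) q i k M x then (1 : ℝ) else 0) * G ω x) :=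
    fun i k => meas_gm mw fun x => (mTau i k x).mul (mG x)
  have b01 : ∀ (ω : Env × Finset ℕ) (E : Px Q → Prop), (∀ x, 0 ≤ (if E x then (1 : ℝ) else 0) * G ω x) ∧
      ∀ x, (if E x then (1 : ℝ) else 0) * G ω x ≤ 1 := fun ω E => ⟨fun x => mul_nonneg (by split_ifs <;> norm_num) (hG0 ω x), fun x => by
    have := hG1 ω x
    have := hG0 ω x
    split_ifs <;> linarith⟩
  have key := int_good73 (μ := μ) (N := N) mΩ hep hΩc mX ((mY (j - b) j).add (mY j (j + b))) (C := 2)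
    (fun ω => (gm_01 _ (b01 ω _).1 (b01 ω _).2).1) (fun ω => (gm_01 _ (b01 ω _).1 (b01 ω _).2).2)
    (fun ω => add_nonneg (gm_01 _ (b01 ω _).1 (b01 ω _).2).1 (gm_01 _ (b01 ω _).1 (b01 ω _).2).1)
    (fun ω => by
      have u1 := (gm_01 (wm μ s N Q ω) (b01 ω fun x => Tau (wm μ s N Q ω) q (j - b) j M x).1
        (b01 ω fun x => Tau (wm μ s N Q ω) q (j - b) j M x).2).2
      have u2 := (gm_01 (wm μ s N Q ω) (b01 ω fun x => Tau (wm μ s N Q ω) q j (j + b) M x).1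
        (b01 ω fun x => Tau (wm μ s N Q ω) q j (j + b) M x).2).2
      show gm (wm μ s N Q ω) (fun x => (if Tau (wm μ s N Q ω) q (j - b) j M x then (1 : ℝ) else 0) * G ω x) +
        gm (wm μ s N Q ω) (fun x => (if Tau (wm μ s N Q ω) q j (j + b) M x then (1 : ℝ) else 0) * G ω x) ≤ 2
      linarith)
    (θ' := θ / ρ) (by positivity) (fun ω hω => by
      obtain ⟨g1, g2⟩ := hΩ ω.1 hω
      have k1 := T_places (Q := Q) (η := ω.1) (w := lw μ s ω.1 N Q) (D := 0) g1 hQ hj h1 h2 hB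
        (a := sg ω.2 j) (sg_or ω.2 j) (fun x => by rw [sub_self, abs_zero]) hcj hjd hd (Wk_lw ω.1 (by omega)) hc hδ' hm hρ hM
        (by rw [mul_zero, Real.exp_zero, mul_one]; exact hnum) (hG0 ω) (hG1 ω)
      exact k1.trans (add_le_add le_rfl (div_le_div_of_nonneg_right g2 hρ.le)))
  refine key.trans (le_of_eq ?_)
  congr 1
  exact integral_add (int_bdd (mY _ _) (M := 1) fun ω => by
      rw [abs_of_nonneg (gm_01 _ (b01 ω _).1 (b01 ω _).2).1]
      exact (gm_01 _ (b01 ω _).1 (b01 ω _).2).2)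
    (int_bdd (mY _ _) (M := 1) fun ω => by
      rw [abs_of_nonneg (gm_01 _ (b01 ω _).1 (b01 ω _).2).1]
      exact (gm_01 _ (b01 ω _).1 (b01 ω _).2).2)

open Classical in
/-- **(A2) integrated.** -/
theorem out_int {σ R : ℝ} {v : ℕ → ℝ} (hv : 0 ≤ v 0) {L k0 n a0 l r : ℕ} {J : Finset ℕ} (hJ : ∀ i ∈ J, a0 ≤ i ∧ i ≤ a0 + r * l)
    (hl0 : 1 ≤ l) (hd : a0 + (r + 2) * l ≤ N) (hk : k0 ≤ N) (hn : k0 ≤ n) (hJk : ∀ i ∈ J, i - k0 ≤ L ∧ k0 - i ≤ L) (hR : 1 ≤ R)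
    (hRv : ∀ k, 1 ≤ k → k ≤ L → v k ≤ R) {r0 : ℝ} (hr0 : 0 < r0) (hRl : ∀ k, k ≤ 2 * l → r0 + 2 * v k ≤ R)
    {q : Px Q → Y} {q1 ρ₁ ρ' : ℝ} (hρ' : 0 < ρ') (hρ'1 : ρ' ≤ 1) (hnum : (r + 1) * ρ₁ + ρ' ≤ q1)
    {Ω : Set Env} (mΩ : MeasurableSet Ω) {ep θ : ℝ} (hep : 0 ≤ ep) (hθ : 0 ≤ θ) (hΩc : law μ Ωᶜ ≤ ENNReal.ofReal ep)
    (hΩ : ∀ η ∈ Ω, gm (lw μ s η N Q) (nfl N σ v) ≤ θ)
    {G : Env × Finset ℕ → Px Q → ℝ} (mG : ∀ x, Measurable fun ω => G ω x) (hG0 : ∀ ω x, 0 ≤ G ω x) (hG1 : ∀ ω x, G ω x ≤ 1) :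
    ∫ ω, gm (wm μ s N Q ω) (fun x => (if q1 ≤ cE (wm μ s N Q ω) q (fun z =>
      if OutB pm σ R (k0 : ℤ) (T73.JZ J) (fun _ : Unit => bx pm R (k0 : ℤ) n x) z then 1 else 0) x then 1 else 0) * G ω x)
        ∂(Pm μ N) ≤
      ∑ t ∈ range (r + 1), ∫ ω, gm (wm μ s N Q ω) (fun x =>
        (if ρ₁ ≤ mI (wm μ s N Q ω) q (a0 + t * l) (a0 + t * l + l) x then 1 else 0) * G ω x) ∂(Pm μ N) + (2 * θ / ρ' + ep) := by
  have mw : ∀ S, Measurable fun ω => wm μ s N Q ω S := fun S => meas_wm S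
  have mX : Measurable fun ω => gm (wm μ s N Q ω) (fun x => (if q1 ≤ cE (wm μ s N Q ω) q (fun z =>
      if OutB pm σ R (k0 : ℤ) (T73.JZ J) (fun _ : Unit => bx pm R (k0 : ℤ) n x) z then 1 else 0) x then 1 else 0) * G ω x) :=
    meas_gm mw fun x => (meas_le_ind (meas_cE (f := fun _ z =>
      if OutB pm σ R (k0 : ℤ) (T73.JZ J) (fun _ : Unit => bx pm R (k0 : ℤ) n x) z then (1 : ℝ) else 0) mw
        (fun S => measurable_const) q x) _).mul (mG x)
  have mY : ∀ t, Measurable fun ω => gm (wm μ s N Q ω) (fun x =>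
      (if ρ₁ ≤ mI (wm μ s N Q ω) q (a0 + t * l) (a0 + t * l + l) x then (1 : ℝ) else 0) * G ω x) := fun t =>
    meas_gm mw fun x => (meas_le_ind (meas_cE (f := fun _ => NI (a0 + t * l) (a0 + t * l + l) x) mw
      (fun z => measurable_const) q x) _).mul (mG x)
  have b01 : ∀ (ω : Env × Finset ℕ) (E : Px Q → Prop), (∀ x, 0 ≤ (if E x then (1 : ℝ) else 0) * G ω x) ∧
      ∀ x, (if E x then (1 : ℝ) else 0) * G ω x ≤ 1 := fun ω E => ⟨fun x => mul_nonneg (by split_ifs <;> norm_num) (hG0 ω x), fun x => by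
    have := hG1 ω x
    have := hG0 ω x
    split_ifs <;> linarith⟩
  have mS : Measurable fun ω => ∑ t ∈ range (r + 1), gm (wm μ s N Q ω) (fun x =>
      (if ρ₁ ≤ mI (wm μ s N Q ω) q (a0 + t * l) (a0 + t * l + l) x then (1 : ℝ) else 0) * G ω x) :=
    Finset.measurable_fun_sum _ fun t _ => mY t
  have key := int_good73 (μ := μ) (N := N) mΩ hep hΩc mX mS (C := (r : ℝ) + 1)
    (fun ω => (gm_01 _ (b01 ω _).1 (b01 ω _).2).1) (fun ω => (gm_01 _ (b01 ω _).1 (b01 ω _).2).2)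
    (fun ω => sum_nonneg fun t _ => (gm_01 _ (b01 ω _).1 (b01 ω _).2).1)
    (fun ω => by
      refine (sum_le_sum (g := fun _ => (1 : ℝ)) fun t _ => (gm_01 _ (b01 ω _).1 (b01 ω _).2).2).trans_eq ?_
      rw [sum_const, card_range, nsmul_eq_mul, mul_one]
      push_cast
      ring)
    (θ' := 2 * θ / ρ') (by positivity) (fun ω hω => by
      have k1 := out_places (σ := σ) (w := wm μ s N Q ω) (q := q) hv hJ hl0 hd hk hn hJk hR hRv hr0 hRl hρ' hρ'1 hnum (hG0 ω) (hG1 ω)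
      refine k1.trans (add_le_add le_rfl (div_le_div_of_nonneg_right ?_ hρ'.le))
      have := hΩ ω.1 hω
      show 2 * gm (lw μ s ω.1 N Q) (nfl N σ v) ≤ 2 * θ
      linarith)
  refine key.trans (le_of_eq ?_)
  congr 1
  exact integral_finsetSum _ fun t _ => int_bdd (mY t) (M := 1) fun ω => by
    rw [abs_of_nonneg (gm_01 _ (b01 ω _).1 (b01 ω _).2).1]
    exact (gm_01 _ (b01 ω _).1 (b01 ω _).2).2

end Int

end

end Pool.W7d29a1.C0.Bd73
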