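import Pool.Agent.W_7d29a1_C0.JoinB41

/-!
CURV0 (MP_7d29a1_pr), GS one kick, G8 WITH THE OWN MASS OF THE APART PAIRS (helper41, for helper52 82504, helper73 82636): the same as
`JoinB41`, one step earlier: the last term is `gm w (cE w p' (cls x y * 1(q / 3 < gm w (NI x t * NI y t))) * F x)` (pairs `x, y` of the
class which leave a free replica apart from both on the join window with more than mass `q / 3`) in place of the indicator of `E3`, and the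
error has no `q2` (names `..C41`). `RBs_OutB_rightU41`, `RBs_OutB_leftU41`: the same with `UK` in place of the class kernel (`cls_UK41`).
-/

set_option autoImplicit false
set_option linter.unusedSectionVars false
set_option linter.unusedVariables false

namespace Pool.W7d29a1.C0.H41

open Finset
open Pool.W7d29a1.C0 (gz gm gz_pos gz_ne gm_nonneg gm_mono gm_const gm_add gm_smul)
open Pool.W7d29a1.C0.VT31
open Pool.Agent.W_7d29a1_C0.Swap57 (cE2 cE2_nonneg cE2_le_one gm2)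
open Pool.Agent.W_7d29a1_F Pool.Agent.W_7d29a1_X Pool.Agent.W_7d29a1_C0.Mod92
open Pool.Agent.W_7d29a1_C0.NM82 (Hd HdAll Lk_field Lk_mono)
open Pool.Agent.W_7d29a1_C0.Swap57 (SwQ Lk Wk NM NM_of NI NI_nonneg)
open Pool.Agent.W_7d29a1_C0.KickT32 (ib)
open Pool.W7d29a1.C0.I52 (rb)
open Pool.W7d29a1.C0.Bd73 (BadF TT)
open Pool.W7d29a1.C0.GSB52 (RBb RBs)
open Pool.W7d29a1.C0.T73 (OutB pm JZ pm_nat mem_JZ)

noncomputable section

section Abs

variable {X : Type*} [Fintype X] [Nonempty X] {Y Y' : Type*} [DecidableEq Y] [DecidableEq Y'] {β : Type*} [DecidableEq β]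
  {R : Finset ℕ} {v : ℕ → X → ℤ} {K : X → X → ℝ} {p : ℕ → X → Y} {pz : X → Y'} {p' : X → Y} {cls : X → X → ℝ} {F : X → ℝ}

open Classical in
/-- **THE BAD FUNCTIONAL, ABSTRACT**, with the own mass of `UK`. -/
theorem rb_absC41 {w : X → ℝ} (bx : X → β) (I : Finset (β × β)) (hR : R.Nonempty) (hK : ∀ x y, K x y = 1 ∨ ∃ r ∈ R, v r y = v r x)
    (K0 : ∀ x y, 0 ≤ K x y) (K1 : ∀ x y, K x y ≤ 1) (hc : ∀ r ∈ R, Crs pz (p r))
    (hv : ∀ r ∈ R, ∀ x y, p r x = p r y → v r x = v r y) {Do : β × β → X → ℝ} {Do1 : β → X → ℝ} {Dt : X → ℝ}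
    (hD0 : ∀ be t, 0 ≤ Do be t) (hD1 : ∀ be t, Do be t ≤ 1) (hDl : ∀ be t, Do be t ≤ Do1 be.1 t)
    (hDr : ∀ be t, Do be t ≤ Do1 be.2 t) (hT0 : ∀ t, 0 ≤ Dt t) (hT1 : ∀ t, Dt t ≤ 1)
    (huo : ∀ b, ∀ r ∈ R, ∀ x y, v r x = v r y → cE w (p r) (Do1 b) x = cE w (p r) (Do1 b) y)
    (hut : ∀ r ∈ R, ∀ x y, v r x = v r y → cE w (p r) Dt x = cE w (p r) Dt y)
    (c0 : ∀ x y, 0 ≤ cls x y) (c2 : ∀ x y, cls x y ≤ K x y)
    (cs : ∀ x y, cls x y = cls y x) (F0 : ∀ x, 0 ≤ F x) (F1 : ∀ x, F x ≤ 1) (hF : Mp p' F)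
    {T : Finset ℤ} (hT : ∀ r ∈ R, ∀ x, v r x ∈ T)
    {q q0 : ℝ} (h0 : 0 < q0)
    {Bad : β × β → Prop} [DecidablePred Bad] (hBad : ∀ be, Bad be → q < gm w (Do be) ∨ q < gm w Dt) :
    ∑ be ∈ I, (if Bad be then gm w (fun x => (if bx x = be.1 then 1 else 0) *
      cE w p' (fun y => cls x y * if bx y = be.2 then 1 else 0) x * F x) else 0) ≤
      2 * gm w (fun x => (if q * q0 / (3 * R.card) < cE w pz (Do1 (bx x)) x then 1 else 0) * cE w p' (cls x) x * F x) +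
        2 * gm w (fun x => (if q * q0 / (3 * R.card) < cE w pz Dt x then 1 else 0) * cE w p' (cls x) x * F x) +
          gm w (fun x => cE w p' (fun y => cls x y * (if q / 3 < gm w (fun t => K x t * K y t) then 1 else 0)) x * F x) +
            2 * (R.card * (T.card * q0)) := by
  have i0 : ∀ (P : Prop) [Decidable P], (0 : ℝ) ≤ if P then 1 else 0 := fun P _ => by split_ifs <;> norm_num
  have c1 : ∀ x y, cls x y ≤ 1 := fun x y => (c2 x y).trans (K1 x y)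
  have h := rb_split41 (w := w) (p' := p') (cls := cls) (F := F) bx I c0 c1 cs F0 F1 hF
    (Bad := Bad)
    (A := fun x => q * q0 / (3 * R.card) < cE w pz (Do1 (bx x)) x) (A' := fun x => q * q0 / (3 * R.card) < cE w pz Dt x)
    (Rr := fun x => RareJ w pz R v q0 x) (C := fun x y => q / 3 < gm w (fun t => K x t * K y t)) (by
      intro x y hb
      have mono : ∀ D : X → ℝ, (∀ t, D t ≤ 1) → q / 3 < gm w (fun t => D t * (K x t * K y t)) →
          q / 3 < gm w (fun t => K x t * K y t) := fun D hD hlt => hlt.trans_le (gm_mono w fun t => by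
        have := mul_le_mul_of_nonneg_right (hD t) (mul_nonneg (K0 x t) (K0 y t))
        linarith)
      rcases hBad _ hb with hb | hb
      · rcases join_alt41 (pz := pz) hR hK K0 hc hv (hD0 (bx x, bx y)) (hDl (bx x, bx y)) (hDr (bx x, bx y)) (huo (bx x)) (huo (bx y)) h0
          x y hb with h' | h' | h' | h' | h'
        · exact Or.inl h'
        · exact Or.inr (Or.inl h')
        · exact Or.inr (Or.inr (Or.inr (Or.inr (Or.inl h'))))
        · exact Or.inr (Or.inr (Or.inr (Or.inr (Or.inr (Or.inl h')))))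
        · exact Or.inr (Or.inr (Or.inr (Or.inr (Or.inr (Or.inr (mono _ (hD1 _) h'))))))
      · rcases join_alt41 (pz := pz) hR hK K0 hc hv hT0 (fun t => le_refl (Dt t)) (fun t => le_refl (Dt t)) hut hut h0
          x y hb with h' | h' | h' | h' | h'
        · exact Or.inr (Or.inr (Or.inl h'))
        · exact Or.inr (Or.inr (Or.inr (Or.inl h')))
        · exact Or.inr (Or.inr (Or.inr (Or.inr (Or.inl h'))))
        · exact Or.inr (Or.inr (Or.inr (Or.inr (Or.inr (Or.inl h')))))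
        · exact Or.inr (Or.inr (Or.inr (Or.inr (Or.inr (Or.inr (mono _ hT1 h')))))))
  refine h.trans ?_
  have g1 := gm_RareJ41 (w := w) (pz := pz) hT h0.le
  have g3 : (fun x => F x * cE w p' (fun y => cls x y * if q / 3 < gm w (fun t => K x t * K y t) then 1 else 0) x) =
      fun x => cE w p' (fun y => cls x y * (if q / 3 < gm w (fun t => K x t * K y t) then 1 else 0)) x * F x :=
    funext fun x => mul_comm _ _
  rw [g3]
  linarith

open Classical in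
/-- The class kernel against `UK`. -/
theorem cls_UK41 (w : X → ℝ) (p' : X → Y) (c2 : ∀ x y, cls x y ≤ K x y) (F0 : ∀ x, 0 ≤ F x) (q' : ℝ) :
    gm w (fun x => cE w p' (fun y => cls x y * (if q' < gm w (fun t => K x t * K y t) then 1 else 0)) x * F x) ≤
      gm w (fun x => cE w p' (UK w K q' x) x * F x) := by
  refine gm_mono w fun x => mul_le_mul_of_nonneg_right (cE_mono w p' (fun y => ?_) x) (F0 x)
  unfold UK
  refine mul_le_mul_of_nonneg_right (c2 x y) ?_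
  split_ifs <;> norm_num

end Abs

section Paths

variable {N : ℕ} {Q : Finset (Finset ℕ)} [Nonempty (Px Q)] {w : Px Q → ℝ} {c' d' m1 z : ℕ} {β : Type*} [DecidableEq β]
  {cls : Px Q → Px Q → ℝ} {F : Px Q → ℝ}

open Classical in
/-- **THE RIGHT SIDE.** -/
theorem rb_rightC41 [SwQ Q] (h2 : m1 ≤ z) (h3 : z ≤ d') (hw : HdAll m1 w) (bx : Px Q → β) (I : Finset (β × β))
    {Do : β × β → Px Q → ℝ} {Do1 : β → Px Q → ℝ} {Dt : Px Q → ℝ}
    (hD0 : ∀ be t, 0 ≤ Do be t) (hD1 : ∀ be t, Do be t ≤ 1) (hDl : ∀ be t, Do be t ≤ Do1 be.1 t)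
    (hDr : ∀ be t, Do be t ≤ Do1 be.2 t) (hT0 : ∀ t, 0 ≤ Dt t) (hT1 : ∀ t, Dt t ≤ 1) (hLo : ∀ b, Lk 0 m1 (Do1 b))
    (hLt : Lk 0 m1 Dt) (c0 : ∀ x y, 0 ≤ cls x y) (c2 : ∀ x y, cls x y ≤ NI m1 z x y) (cs : ∀ x y, cls x y = cls y x)
    (F0 : ∀ x, 0 ≤ F x) (F1 : ∀ x, F x ≤ 1) (hF : Mp (pJ c' d') F) {q q0 : ℝ} (h0 : 0 < q0)
    {Bad : β × β → Prop} [DecidablePred Bad] (hBad : ∀ be, Bad be → q < gm w (Do be) ∨ q < gm w Dt) :
    ∑ be ∈ I, (if Bad be then gm w (fun x => (if bx x = be.1 then 1 else 0) *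
      cE w (pJ c' d') (fun y => cls x y * if bx y = be.2 then 1 else 0) x * F x) else 0) ≤
      2 * gm w (fun x => (if q * q0 / (3 * ((z + 1 - m1 : ℕ) : ℝ)) < cE w (pJ 0 z) (Do1 (bx x)) x then 1 else 0) *
        cE w (pJ c' d') (cls x) x * F x) +
        2 * gm w (fun x => (if q * q0 / (3 * ((z + 1 - m1 : ℕ) : ℝ)) < cE w (pJ 0 z) Dt x then 1 else 0) *
          cE w (pJ c' d') (cls x) x * F x) +
          gm w (fun x => cE w (pJ c' d') (fun y => cls x y * (if q / 3 < gm w (fun t => NI m1 z x t * NI m1 z y t) then 1 else 0)) x *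
            F x) +
            2 * (((z + 1 - m1 : ℕ) : ℝ) * ((d' + 1) * q0)) := by
  have hm : ∀ r ∈ Icc m1 z, m1 ≤ r ∧ r ≤ z := fun r hr => mem_Icc.1 hr
  have key := rb_absC41 (w := w) (R := Icc m1 z) (v := fun r S => ps S r) (K := NI m1 z) (p := fun r => pJ (Q := Q) 0 r)
    (pz := pJ (Q := Q) 0 z) (p' := pJ (Q := Q) c' d') (cls := cls) (F := F) bx I (nonempty_Icc.2 h2) (NI_alt41 m1 z)
    (NI_nonneg m1 z) (NI_le_one41 m1 z) (fun r hr => crs_pJ le_rfl (hm r hr).2) (fun r hr x y h => ps_of_ge h le_rfl)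
    hD0 hD1 hDl hDr hT0 hT1
    (fun b r hr x y h => Lk_field hw (hLo b) (hm r hr).1 x y fun i hi hi' => by
      have : i = r := le_antisymm hi' hi
      rw [this]
      exact h)
    (fun r hr x y h => Lk_field hw hLt (hm r hr).1 x y fun i hi hi' => by
      have : i = r := le_antisymm hi' hi
      rw [this]
      exact h)
    c0 c2 cs F0 F1 hF (T := Icc (0 : ℤ) d') (fun r hr x => ps_mem41 ((hm r hr).2.trans h3) x)
    (q := q) h0 (Bad := Bad) hBad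
  rw [Nat.card_Icc, card_Icc41] at key
  exact_mod_cast key

open Classical in
/-- **THE LEFT SIDE.** -/
theorem rb_leftC41 [SwQ Q] (hE : ∀ S S' : Px Q, ps S N = ps S' N) (h2 : z ≤ m1) (h3 : m1 ≤ d') (hN : d' ≤ N)
    (hw : ∀ r, z ≤ r → r ≤ m1 → Wk r r N N w) (bx : Px Q → β) (I : Finset (β × β))
    {Do : β × β → Px Q → ℝ} {Do1 : β → Px Q → ℝ} {Dt : Px Q → ℝ}
    (hD0 : ∀ be t, 0 ≤ Do be t) (hD1 : ∀ be t, Do be t ≤ 1) (hDl : ∀ be t, Do be t ≤ Do1 be.1 t)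
    (hDr : ∀ be t, Do be t ≤ Do1 be.2 t) (hT0 : ∀ t, 0 ≤ Dt t) (hT1 : ∀ t, Dt t ≤ 1) (hLo : ∀ b, Lk m1 N (Do1 b))
    (hLt : Lk m1 N Dt) (c0 : ∀ x y, 0 ≤ cls x y) (c2 : ∀ x y, cls x y ≤ NI z m1 x y) (cs : ∀ x y, cls x y = cls y x)
    (F0 : ∀ x, 0 ≤ F x) (F1 : ∀ x, F x ≤ 1) (hF : Mp (pJ c' d') F) {q q0 : ℝ} (h0 : 0 < q0)
    {Bad : β × β → Prop} [DecidablePred Bad] (hBad : ∀ be, Bad be → q < gm w (Do be) ∨ q < gm w Dt) :
    ∑ be ∈ I, (if Bad be then gm w (fun x => (if bx x = be.1 then 1 else 0) *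
      cE w (pJ c' d') (fun y => cls x y * if bx y = be.2 then 1 else 0) x * F x) else 0) ≤
      2 * gm w (fun x => (if q * q0 / (3 * ((m1 + 1 - z : ℕ) : ℝ)) < cE w (pJ z N) (Do1 (bx x)) x then 1 else 0) *
        cE w (pJ c' d') (cls x) x * F x) +
        2 * gm w (fun x => (if q * q0 / (3 * ((m1 + 1 - z : ℕ) : ℝ)) < cE w (pJ z N) Dt x then 1 else 0) *
          cE w (pJ c' d') (cls x) x * F x) +
          gm w (fun x => cE w (pJ c' d') (fun y => cls x y * (if q / 3 < gm w (fun t => NI z m1 x t * NI z m1 y t) then 1 else 0)) x *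
            F x) +
            2 * (((m1 + 1 - z : ℕ) : ℝ) * ((d' + 1) * q0)) := by
  have hm : ∀ r ∈ Icc z m1, z ≤ r ∧ r ≤ m1 := fun r hr => mem_Icc.1 hr
  have hu : ∀ D : Px Q → ℝ, Lk m1 N D → ∀ r ∈ Icc z m1, ∀ x y, ps x r = ps y r →
      cE w (pJ r N) D x = cE w (pJ r N) D y := fun D hD r hr x y h =>
    cE_ends41 ((hm r hr).2.trans (h3.trans hN)) (hw r (hm r hr).1 (hm r hr).2) (Lk_mono (hm r hr).2 le_rfl hD) h (hE x y)
  have key := rb_absC41 (w := w) (R := Icc z m1) (v := fun r S => ps S r) (K := NI z m1) (p := fun r => pJ (Q := Q) r N)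
    (pz := pJ (Q := Q) z N) (p' := pJ (Q := Q) c' d') (cls := cls) (F := F) bx I (nonempty_Icc.2 h2) (NI_alt41 z m1)
    (NI_nonneg z m1) (NI_le_one41 z m1) (fun r hr => crs_pJ (hm r hr).1 le_rfl) (fun r hr x y h => ps_of_le h le_rfl)
    hD0 hD1 hDl hDr hT0 hT1 (fun b => hu _ (hLo b)) (hu _ hLt)
    c0 c2 cs F0 F1 hF (T := Icc (0 : ℤ) d') (fun r hr x => ps_mem41 ((hm r hr).2.trans h3) x)
    (q := q) h0 (Bad := Bad) hBad
  rw [Nat.card_Icc, card_Icc41] at key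
  exact_mod_cast key

end Paths

variable {Q : Finset (Finset ℕ)} [Nonempty (Px Q)] {w : Px Q → ℝ} {N : ℕ}

variable {K : Type*} [DecidableEq K] {c' d' m1 z : ℕ} {g : Px Q → ℝ} {cls NMA : Px Q → Px Q → ℝ}
  {out : K × K → Px Q → Prop} {out1 : K → Px Q → Prop} {pk' : Px Q → Finset ℕ × ℕ}

open Classical in
/-- **G8 FOR `RBs`, THE RIGHT SIDE.** -/
theorem RBs_rightC41 [SwQ Q] (h2 : m1 ≤ z) (h3 : z ≤ d') (hw : HdAll m1 w) (hg : Lk 0 m1 g)
    (ho : ∀ be S, out be S → out1 be.1 S ∧ out1 be.2 S)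
    (hL : ∀ b (S S' : Px Q), (∀ i, i ≤ m1 → ps S i = ps S' i) → (out1 b S ↔ out1 b S'))
    (c0 : ∀ x y, 0 ≤ cls x y) (c2 : ∀ x y, cls x y ≤ NI m1 z x y) (cs : ∀ x y, cls x y = cls y x)
    (n0 : ∀ x y, 0 ≤ NMA x y) (n1 : ∀ x y, NMA x y ≤ 1) (hF : Mp (pJ c' d') fun x => cE2 w pk' NMA x x)
    (bx : Px Q → K) (I : Finset K) {δ q q0 : ℝ} (h0 : 0 < q0) :
    RBs w (pJ 0 m1) g out δ q (pJ c' d') pk' cls bx I NMA ≤
      2 * gm w (fun x => (if q * q0 / (3 * ((z + 1 - m1 : ℕ) : ℝ)) ≤ cE w (pJ 0 z) (fun S => if out1 (bx x) S then 1 else 0) x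
        then 1 else 0) * (cE w (pJ c' d') (cls x) x * cE2 w pk' NMA x x)) +
        2 * gm w (fun x => (if q * q0 / (3 * ((z + 1 - m1 : ℕ) : ℝ)) ≤ cE w (pJ 0 z) (fun S => if δ ≤ TT w (pJ 0 m1) g S then 1
          else 0) x then 1 else 0) * (cE w (pJ c' d') (cls x) x * cE2 w pk' NMA x x)) +
          gm w (fun x => cE w (pJ c' d') (fun y => cls x y * (if q / 3 < gm w (fun t => NI m1 z x t * NI m1 z y t) then 1 else 0)) x *
            cE2 w pk' NMA x x) +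
            2 * (((z + 1 - m1 : ℕ) : ℝ) * ((d' + 1) * q0)) := by
  have i0 : ∀ (P : Prop) [Decidable P], (0 : ℝ) ≤ if P then 1 else 0 := fun P _ => by split_ifs <;> norm_num
  have i1 : ∀ (P : Prop) [Decidable P], (if P then (1 : ℝ) else 0) ≤ 1 := fun P _ => by split_ifs <;> norm_num
  have key := rb_rightC41 (w := w) (cls := cls) (F := fun x => cE2 w pk' NMA x x) h2 h3 hw bx (I ×ˢ I)
    (Do := fun be S => if out be S then 1 else 0) (Do1 := fun b S => if out1 b S then 1 else 0)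
    (Dt := fun S => if δ ≤ TT w (pJ 0 m1) g S then 1 else 0) (fun _ _ => i0 _) (fun _ _ => i1 _)
    (fun be S => by
      by_cases h : out be S
      · rw [if_pos h, if_pos (ho be S h).1]
      · rw [if_neg h]
        exact i0 _)
    (fun be S => by
      by_cases h : out be S
      · rw [if_pos h, if_pos (ho be S h).2]
      · rw [if_neg h]
        exact i0 _)
    (fun _ => i0 _) (fun _ => i1 _)
    (fun b S S' h => by simp only [hL b S S' fun i hi => h i (Nat.zero_le i) hi])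
    (Lk_ind41 (Lk_mono (Nat.zero_le m1) le_rfl (Lk_TT41 hw hg)) δ) c0 c2 cs
    (fun x => cE2_nonneg w pk' n0 x x) (fun x => cE2_le_one w pk' n1 x x) hF (q := q) h0
    (Bad := fun be => BadF w (pJ 0 m1) g (out be) δ q) fun be h => h
  have a1 := gm_le41 w (q1 := q * q0 / (3 * ((z + 1 - m1 : ℕ) : ℝ))) (fun x => cE w (pJ 0 z) (fun S => if out1 (bx x) S then 1 else 0) x)
    (a := fun x => cE w (pJ c' d') (cls x) x) (b := fun x => cE2 w pk' NMA x x) (fun x => cE_nonneg w _ (c0 x) x)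
    (fun x => cE2_nonneg w pk' n0 x x)
  have a2 := gm_le41 w (q1 := q * q0 / (3 * ((z + 1 - m1 : ℕ) : ℝ))) (fun x => cE w (pJ 0 z) (fun S => if δ ≤ TT w (pJ 0 m1) g S then 1
    else 0) x) (a := fun x => cE w (pJ c' d') (cls x) x) (b := fun x => cE2 w pk' NMA x x) (fun x => cE_nonneg w _ (c0 x) x)
    (fun x => cE2_nonneg w pk' n0 x x)
  have a3 : RBs w (pJ 0 m1) g out δ q (pJ c' d') pk' cls bx I NMA = ∑ be ∈ I ×ˢ I, (if BadF w (pJ 0 m1) g (out be) δ q then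
      gm w (fun x => (if bx x = be.1 then 1 else 0) *
        cE w (pJ c' d') (fun y => cls x y * if bx y = be.2 then 1 else 0) x * cE2 w pk' NMA x x) else 0) := rfl
  rw [a3]
  linarith

open Classical in
/-- **G8 FOR `RBs`, THE LEFT SIDE.** -/
theorem RBs_leftC41 [SwQ Q] (hE : ∀ S S' : Px Q, ps S N = ps S' N) (h2 : z ≤ m1) (h3 : m1 ≤ d') (hN : d' ≤ N)
    (hw : ∀ r, z ≤ r → r ≤ m1 → Wk r r N N w) (hg : Lk m1 N g)
    (ho : ∀ be S, out be S → out1 be.1 S ∧ out1 be.2 S)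
    (hL : ∀ b (S S' : Px Q), (∀ i, m1 ≤ i → i ≤ N → ps S i = ps S' i) → (out1 b S ↔ out1 b S'))
    (c0 : ∀ x y, 0 ≤ cls x y) (c2 : ∀ x y, cls x y ≤ NI z m1 x y) (cs : ∀ x y, cls x y = cls y x)
    (n0 : ∀ x y, 0 ≤ NMA x y) (n1 : ∀ x y, NMA x y ≤ 1) (hF : Mp (pJ c' d') fun x => cE2 w pk' NMA x x)
    (bx : Px Q → K) (I : Finset K) {δ q q0 : ℝ} (h0 : 0 < q0) :
    RBs w (pJ m1 N) g out δ q (pJ c' d') pk' cls bx I NMA ≤
      2 * gm w (fun x => (if q * q0 / (3 * ((m1 + 1 - z : ℕ) : ℝ)) ≤ cE w (pJ z N) (fun S => if out1 (bx x) S then 1 else 0) x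
        then 1 else 0) * (cE w (pJ c' d') (cls x) x * cE2 w pk' NMA x x)) +
        2 * gm w (fun x => (if q * q0 / (3 * ((m1 + 1 - z : ℕ) : ℝ)) ≤ cE w (pJ z N) (fun S => if δ ≤ TT w (pJ m1 N) g S then 1
          else 0) x then 1 else 0) * (cE w (pJ c' d') (cls x) x * cE2 w pk' NMA x x)) +
          gm w (fun x => cE w (pJ c' d') (fun y => cls x y * (if q / 3 < gm w (fun t => NI z m1 x t * NI z m1 y t) then 1 else 0)) x *
            cE2 w pk' NMA x x) +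
            2 * (((m1 + 1 - z : ℕ) : ℝ) * ((d' + 1) * q0)) := by
  have i0 : ∀ (P : Prop) [Decidable P], (0 : ℝ) ≤ if P then 1 else 0 := fun P _ => by split_ifs <;> norm_num
  have i1 : ∀ (P : Prop) [Decidable P], (if P then (1 : ℝ) else 0) ≤ 1 := fun P _ => by split_ifs <;> norm_num
  have hmN : m1 ≤ N := h3.trans hN
  have key := rb_leftC41 (w := w) (cls := cls) (F := fun x => cE2 w pk' NMA x x) hE h2 h3 hN hw bx (I ×ˢ I)
    (Do := fun be S => if out be S then 1 else 0) (Do1 := fun b S => if out1 b S then 1 else 0)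
    (Dt := fun S => if δ ≤ TT w (pJ m1 N) g S then 1 else 0) (fun _ _ => i0 _) (fun _ _ => i1 _)
    (fun be S => by
      by_cases h : out be S
      · rw [if_pos h, if_pos (ho be S h).1]
      · rw [if_neg h]
        exact i0 _)
    (fun be S => by
      by_cases h : out be S
      · rw [if_pos h, if_pos (ho be S h).2]
      · rw [if_neg h]
        exact i0 _)
    (fun _ => i0 _) (fun _ => i1 _)
    (fun b S S' h => by simp only [hL b S S' h])
    (Lk_ind41 (Lk_mono le_rfl hmN (Lk_TTl41 hE hmN (hw m1 h2 le_rfl) hg)) δ) c0 c2 cs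
    (fun x => cE2_nonneg w pk' n0 x x) (fun x => cE2_le_one w pk' n1 x x) hF (q := q) h0
    (Bad := fun be => BadF w (pJ m1 N) g (out be) δ q) fun be h => h
  have a1 := gm_le41 w (q1 := q * q0 / (3 * ((m1 + 1 - z : ℕ) : ℝ))) (fun x => cE w (pJ z N) (fun S => if out1 (bx x) S then 1 else 0) x)
    (a := fun x => cE w (pJ c' d') (cls x) x) (b := fun x => cE2 w pk' NMA x x) (fun x => cE_nonneg w _ (c0 x) x)
    (fun x => cE2_nonneg w pk' n0 x x)
  have a2 := gm_le41 w (q1 := q * q0 / (3 * ((m1 + 1 - z : ℕ) : ℝ))) (fun x => cE w (pJ z N) (fun S => if δ ≤ TT w (pJ m1 N) g S then 1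
    else 0) x) (a := fun x => cE w (pJ c' d') (cls x) x) (b := fun x => cE2 w pk' NMA x x) (fun x => cE_nonneg w _ (c0 x) x)
    (fun x => cE2_nonneg w pk' n0 x x)
  have a3 : RBs w (pJ m1 N) g out δ q (pJ c' d') pk' cls bx I NMA = ∑ be ∈ I ×ˢ I, (if BadF w (pJ m1 N) g (out be) δ q then
      gm w (fun x => (if bx x = be.1 then 1 else 0) *
        cE w (pJ c' d') (fun y => cls x y * if bx y = be.2 then 1 else 0) x * cE2 w pk' NMA x x) else 0) := rfl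
  rw [a3]
  linarith

/-! ### The tubes -/

section Tube

variable {σ R : ℝ} {k0 n : ℕ} {J : Finset ℕ} {bx : Px Q → Fin (n + 1)} {I : Finset (Fin (n + 1))}

open Classical in
/-- **G8 FOR `RBs` WITH THE TUBES, THE RIGHT SIDE**: the slab `J` in front of the row `m1`. -/
theorem RBs_OutB_rightC41 [SwQ Q] (h2 : m1 ≤ z) (h3 : z ≤ d') (hw : HdAll m1 w)
    (hg : Lk 0 m1 g) (hJ : ∀ i ∈ J, i ≤ m1)
    (c0 : ∀ x y, 0 ≤ cls x y) (c2 : ∀ x y, cls x y ≤ NI m1 z x y) (cs : ∀ x y, cls x y = cls y x)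
    (n0 : ∀ x y, 0 ≤ NMA x y) (n1 : ∀ x y, NMA x y ≤ 1) (hF : Mp (pJ c' d') fun x => cE2 w pk' NMA x x)
    {δ q q0 : ℝ} (h0 : 0 < q0) :
    RBs w (pJ 0 m1) g (fun be S => OutB pm σ R (k0 : ℤ) (JZ J) ![be.1, be.2] S) δ q (pJ c' d') pk' cls bx I NMA ≤
      2 * gm w (fun x => (if q * q0 / (3 * ((z + 1 - m1 : ℕ) : ℝ)) ≤ cE w (pJ 0 z) (fun S =>
        if OutB pm σ R (k0 : ℤ) (JZ J) (fun _ : Unit => bx x) S then 1 else 0) x
        then 1 else 0) * (cE w (pJ c' d') (cls x) x * cE2 w pk' NMA x x)) +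
        2 * gm w (fun x => (if q * q0 / (3 * ((z + 1 - m1 : ℕ) : ℝ)) ≤ cE w (pJ 0 z) (fun S => if δ ≤ TT w (pJ 0 m1) g S then 1
          else 0) x then 1 else 0) * (cE w (pJ c' d') (cls x) x * cE2 w pk' NMA x x)) +
          gm w (fun x => cE w (pJ c' d') (fun y => cls x y * (if q / 3 < gm w (fun t => NI m1 z x t * NI m1 z y t) then 1 else 0)) x *
            cE2 w pk' NMA x x) +
            2 * (((z + 1 - m1 : ℕ) : ℝ) * ((d' + 1) * q0)) :=
  RBs_rightC41 (out1 := fun b S => OutB pm σ R (k0 : ℤ) (JZ J) (fun _ : Unit => b) S) h2 h3 hw hg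
    (fun be S h => OutB_pair41 be S h) (fun b S S' h => OutB_congr41 b fun i hi => h i (hJ i hi)) c0 c2 cs n0 n1 hF bx I h0

open Classical in
/-- **G8 FOR `RBs` WITH THE TUBES, THE LEFT SIDE**: the slab `J` behind the row `m1`. -/
theorem RBs_OutB_leftC41 [SwQ Q] (hE : ∀ S S' : Px Q, ps S N = ps S' N) (h2 : z ≤ m1) (h3 : m1 ≤ d') (hN : d' ≤ N)
    (hw : ∀ r, z ≤ r → r ≤ m1 → Wk r r N N w) (hg : Lk m1 N g) (hJ : ∀ i ∈ J, m1 ≤ i ∧ i ≤ N)
    (c0 : ∀ x y, 0 ≤ cls x y) (c2 : ∀ x y, cls x y ≤ NI z m1 x y) (cs : ∀ x y, cls x y = cls y x)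
    (n0 : ∀ x y, 0 ≤ NMA x y) (n1 : ∀ x y, NMA x y ≤ 1) (hF : Mp (pJ c' d') fun x => cE2 w pk' NMA x x)
    {δ q q0 : ℝ} (h0 : 0 < q0) :
    RBs w (pJ m1 N) g (fun be S => OutB pm σ R (k0 : ℤ) (JZ J) ![be.1, be.2] S) δ q (pJ c' d') pk' cls bx I NMA ≤
      2 * gm w (fun x => (if q * q0 / (3 * ((m1 + 1 - z : ℕ) : ℝ)) ≤ cE w (pJ z N) (fun S =>
        if OutB pm σ R (k0 : ℤ) (JZ J) (fun _ : Unit => bx x) S then 1 else 0) x
        then 1 else 0) * (cE w (pJ c' d') (cls x) x * cE2 w pk' NMA x x)) +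
        2 * gm w (fun x => (if q * q0 / (3 * ((m1 + 1 - z : ℕ) : ℝ)) ≤ cE w (pJ z N) (fun S => if δ ≤ TT w (pJ m1 N) g S then 1
          else 0) x then 1 else 0) * (cE w (pJ c' d') (cls x) x * cE2 w pk' NMA x x)) +
          gm w (fun x => cE w (pJ c' d') (fun y => cls x y * (if q / 3 < gm w (fun t => NI z m1 x t * NI z m1 y t) then 1 else 0)) x *
            cE2 w pk' NMA x x) +
            2 * (((m1 + 1 - z : ℕ) : ℝ) * ((d' + 1) * q0)) :=
  RBs_leftC41 (out1 := fun b S => OutB pm σ R (k0 : ℤ) (JZ J) (fun _ : Unit => b) S) hE h2 h3 hN hw hg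
    (fun be S h => OutB_pair41 be S h) (fun b S S' h => OutB_congr41 b fun i hi => h i (hJ i hi).1 (hJ i hi).2) c0 c2 cs n0 n1 hF bx I
    h0

open Classical in
/-- **The right side, with the own mass of `UK`** (the term `G3`). -/
theorem RBs_OutB_rightU41 [SwQ Q] (h2 : m1 ≤ z) (h3 : z ≤ d') (hw : HdAll m1 w)
    (hg : Lk 0 m1 g) (hJ : ∀ i ∈ J, i ≤ m1)
    (c0 : ∀ x y, 0 ≤ cls x y) (c2 : ∀ x y, cls x y ≤ NI m1 z x y) (cs : ∀ x y, cls x y = cls y x)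
    (n0 : ∀ x y, 0 ≤ NMA x y) (n1 : ∀ x y, NMA x y ≤ 1) (hF : Mp (pJ c' d') fun x => cE2 w pk' NMA x x)
    {δ q q0 : ℝ} (h0 : 0 < q0) :
    RBs w (pJ 0 m1) g (fun be S => OutB pm σ R (k0 : ℤ) (JZ J) ![be.1, be.2] S) δ q (pJ c' d') pk' cls bx I NMA ≤
      2 * gm w (fun x => (if q * q0 / (3 * ((z + 1 - m1 : ℕ) : ℝ)) ≤ cE w (pJ 0 z) (fun S =>
        if OutB pm σ R (k0 : ℤ) (JZ J) (fun _ : Unit => bx x) S then 1 else 0) x
        then 1 else 0) * (cE w (pJ c' d') (cls x) x * cE2 w pk' NMA x x)) +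
        2 * gm w (fun x => (if q * q0 / (3 * ((z + 1 - m1 : ℕ) : ℝ)) ≤ cE w (pJ 0 z) (fun S => if δ ≤ TT w (pJ 0 m1) g S then 1
          else 0) x then 1 else 0) * (cE w (pJ c' d') (cls x) x * cE2 w pk' NMA x x)) +
          gm w (fun x => cE w (pJ c' d') (UK w (NI m1 z) (q / 3) x) x * cE2 w pk' NMA x x) +
            2 * (((z + 1 - m1 : ℕ) : ℝ) * ((d' + 1) * q0)) := by
  have k1 := RBs_OutB_rightC41 (σ := σ) (R := R) (k0 := k0) (n := n) (J := J) (bx := bx) (I := I) (δ := δ) (q := q) h2 h3 hw hg hJ c0 c2 cs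
    n0 n1 hF h0
  have k2 := cls_UK41 w (pJ c' d') c2 (F := fun x => cE2 w pk' NMA x x) (fun x => cE2_nonneg w pk' n0 x x) (q / 3)
  linarith

open Classical in
/-- **The left side, with the own mass of `UK`**. -/
theorem RBs_OutB_leftU41 [SwQ Q] (hE : ∀ S S' : Px Q, ps S N = ps S' N) (h2 : z ≤ m1) (h3 : m1 ≤ d') (hN : d' ≤ N)
    (hw : ∀ r, z ≤ r → r ≤ m1 → Wk r r N N w) (hg : Lk m1 N g) (hJ : ∀ i ∈ J, m1 ≤ i ∧ i ≤ N)
    (c0 : ∀ x y, 0 ≤ cls x y) (c2 : ∀ x y, cls x y ≤ NI z m1 x y) (cs : ∀ x y, cls x y = cls y x)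
    (n0 : ∀ x y, 0 ≤ NMA x y) (n1 : ∀ x y, NMA x y ≤ 1) (hF : Mp (pJ c' d') fun x => cE2 w pk' NMA x x)
    {δ q q0 : ℝ} (h0 : 0 < q0) :
    RBs w (pJ m1 N) g (fun be S => OutB pm σ R (k0 : ℤ) (JZ J) ![be.1, be.2] S) δ q (pJ c' d') pk' cls bx I NMA ≤
      2 * gm w (fun x => (if q * q0 / (3 * ((m1 + 1 - z : ℕ) : ℝ)) ≤ cE w (pJ z N) (fun S =>
        if OutB pm σ R (k0 : ℤ) (JZ J) (fun _ : Unit => bx x) S then 1 else 0) x
        then 1 else 0) * (cE w (pJ c' d') (cls x) x * cE2 w pk' NMA x x)) +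
        2 * gm w (fun x => (if q * q0 / (3 * ((m1 + 1 - z : ℕ) : ℝ)) ≤ cE w (pJ z N) (fun S => if δ ≤ TT w (pJ m1 N) g S then 1
          else 0) x then 1 else 0) * (cE w (pJ c' d') (cls x) x * cE2 w pk' NMA x x)) +
          gm w (fun x => cE w (pJ c' d') (UK w (NI z m1) (q / 3) x) x * cE2 w pk' NMA x x) +
            2 * (((m1 + 1 - z : ℕ) : ℝ) * ((d' + 1) * q0)) := by
  have k1 := RBs_OutB_leftC41 (σ := σ) (R := R) (k0 := k0) (n := n) (J := J) (bx := bx) (I := I) (δ := δ) (q := q) hE h2 h3 hN hw hg hJ c0 c2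
    cs n0 n1 hF h0
  have k2 := cls_UK41 w (pJ c' d') c2 (F := fun x => cE2 w pk' NMA x x) (fun x => cE2_nonneg w pk' n0 x x) (q / 3)
  linarith

end Tube

end

end Pool.W7d29a1.C0.H41
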