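import Pool.Agent.W_7d29a1_C0.GSB52
import Pool.Agent.W_7d29a1_C0.GSP73
import Pool.Agent.W_7d29a1_C0.GSO73
import Pool.Agent.W_7d29a1_C0.JoinU41

/-!
CURV0 (MP_7d29a1_pr), GS one kick: THE BAD FUNCTIONAL BY PLACES, at a good environment and any weight `w` close to the model.
`FT` = the mass of the paths for which `g` is not told from `p`, `F1` = the mass of a robust near tie told by pairs, `F2` = told from the
path, `F3` = three free replicas; all times the own mass and the factor of the other row. `rbs_R73`, `rbs_L73`: at any weight which is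
close to the model, the bad functional `RBs` of a pair of rows (GSB52) is at most
`2 ∑ F2 (pieces of the slab) + 2 FT + F3 + 5 N ^ (-K)`; `ft_pt73`: at the model `FT ≤ F1 (left window of j) + F1 (right window) + N ^ (-K)`.
(helper73)
-/

set_option autoImplicit false
set_option linter.unusedSectionVars false
set_option linter.unusedVariables false

namespace Pool.W7d29a1.C0.Bd73

open Finset MeasureTheory Pool.Agent.W_7d29a1_F Pool.Agent.W_7d29a1_X Pool.W7d29a1.C0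
open Pool.W7d29a1.C0 (gz gm gm_nonneg gm_mono gm_const)
open Pool.W7d29a1.C0.VT31
open Pool.Agent.W_7d29a1_H (sl)
open Pool.Agent.W_7d29a1_HZ (wd')
open Pool.Agent.W_7d29a1_C0.Swap57
open Pool.W7d29a1.C0.R43 (Tau mI mI_nonneg gm_tilt43)
open Pool.Agent.W_7d29a1_C0.Mod92
open Pool.Agent.W_7d29a1_C0.Blk18 (Full)
open Pool.Agent.W_7d29a1_C0.GwA50 (GwW)
open Pool.Agent.W_7d29a1_C0.Far34 (Fl nfl nfl_nonneg vv vv_nonneg)
open Pool.Agent.W_7d29a1_C0.NM82 (HdAll)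
open Pool.W7d29a1.C0.GSB52 (RBs)
open Pool.W7d29a1.C0.H41 (E3 UK RBs_OutB_rightU41 RBs_OutB_leftU41)

noncomputable section

section Def

variable {Q : Finset (Finset ℕ)} [Nonempty (Px Q)]

open Classical in
/-- The mass of the paths for which the difference of `g` given `p` is at least `δ` with mass at least `q1` given `qz`, times the own mass
and the factor of the other row. -/
def FT (w : Px Q → ℝ) (qz p p' pk' : Px Q → Finset ℕ × ℕ) (g : Px Q → ℝ) (cls NMA : Px Q → Px Q → ℝ) (q1 δ : ℝ) : ℝ :=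
  gm w (fun x => (if q1 ≤ cE w qz (fun S => if δ ≤ TT w p g S then 1 else 0) x then 1 else 0) *
    (cE w p' (cls x) x * cE2 w pk' NMA x x))

open Classical in
/-- The mass of the robust near ties (pairs) on `[i, k]` told from `qz`, times the own mass and the factor of the other row. -/
def F1 (w : Px Q → ℝ) (qz p' pk' : Px Q → Finset ℕ × ℕ) (cls NMA : Px Q → Px Q → ℝ) (i k : ℕ) (M : ℝ) : ℝ :=
  gm w (fun x => (if Tau w qz i k M x then 1 else 0) * (cE w p' (cls x) x * cE2 w pk' NMA x x))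

open Classical in
/-- The same, told from the path. -/
def F2 (w : Px Q → ℝ) (qz p' pk' : Px Q → Finset ℕ × ℕ) (cls NMA : Px Q → Px Q → ℝ) (i k : ℕ) (ρ : ℝ) : ℝ :=
  gm w (fun x => (if ρ ≤ mI w qz i k x then 1 else 0) * (cE w p' (cls x) x * cE2 w pk' NMA x x))

open Classical in
/-- Three free replicas which are apart on `[i, k]`, times the factor of the other row. -/
def F3 (w : Px Q → ℝ) (pk' : Px Q → Finset ℕ × ℕ) (NMA : Px Q → Px Q → ℝ) (i k : ℕ) (q3 : ℝ) : ℝ :=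
  gm w (fun x => (if E3 w (NI i k) q3 x then 1 else 0) * cE2 w pk' NMA x x)

/-- The own mass of the pairs which are apart on `[i, k]` and leave a free replica apart of both, times the factor of the other row. -/
def G3 (w : Px Q → ℝ) (p' pk' : Px Q → Finset ℕ × ℕ) (NMA : Px Q → Px Q → ℝ) (i k : ℕ) (q' : ℝ) : ℝ :=
  gm w (fun x => cE w p' (UK w (NI i k) q' x) x * cE2 w pk' NMA x x)

end Def

variable {μ : Measure ℝ} {s : ℝ} {N : ℕ} {Q : Finset (Finset ℕ)} [Nonempty (Px Q)]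

/-! ### One weight -/

section Wgt

variable {p' pk' : Px Q → Finset ℕ × ℕ} {cls NMA : Px Q → Px Q → ℝ}

theorem own_le_one (w : Px Q → ℝ) (p' : Px Q → Finset ℕ × ℕ) (c1 : ∀ x y, cls x y ≤ 1) (x : Px Q) : cE w p' (cls x) x ≤ 1 := by
  have e := cE_mono w p' (f := cls x) (g := fun _ => 1) (c1 x) x
  rwa [cE_one] at e

theorem own01 (w : Px Q → ℝ) (c0 : ∀ x y, 0 ≤ cls x y) (c1 : ∀ x y, cls x y ≤ 1) (n0 : ∀ x y, 0 ≤ NMA x y)
    (n1 : ∀ x y, NMA x y ≤ 1) (x : Px Q) :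
    0 ≤ cE w p' (cls x) x * cE2 w pk' NMA x x ∧ cE w p' (cls x) x * cE2 w pk' NMA x x ≤ 1 := by
  have h1 := own_le_one w p' c1 x
  have h2 := cE2_le_one w pk' n1 x x
  have h3 := cE_nonneg w p' (c0 x) x
  have h4 := cE2_nonneg w pk' n0 x x
  exact ⟨mul_nonneg h3 h4, by nlinarith⟩

/-- A flat path is in the cone over the window. -/
theorem nCn_le_nfl73 {δ₁ : ℝ} {c d : ℕ} (hcd : c + 1 ≤ d) (hd : d ≤ N) {v : ℕ → ℝ}
    (hv : v (d - c) ≤ ((d - c : ℕ) : ℝ) ^ δ₁ * wd' μ s (d - c)) (S : Px Q) :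
    nCn μ s δ₁ c d S ≤ nfl N (sl μ s) v S := by
  by_cases h : Fl N (sl μ s) v S
  · have h1 := h c (d - c) (by omega) (by omega)
    rw [show c + (d - c) = d by omega] at h1
    have h2 : Pool.Agent.W_7d29a1_C0.LocM18.Cn μ s δ₁ c d S := by
      unfold Pool.Agent.W_7d29a1_C0.LocM18.Cn
      exact h1.trans hv
    have e : nCn μ s δ₁ c d S = 0 := if_pos h2
    rw [e]
    exact nfl_nonneg _ _ _ _
  · have e : nfl N (sl μ s) v S = 1 := if_neg h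
    rw [e]
    unfold nCn
    split_ifs <;> norm_num

/-- **The slab at one weight.** -/
theorem out_pt73 {ε c₁ A B D K κp θ : ℝ} (V : LvW N A B D K κp ε c₁ θ) (hN : 1 ≤ N) {qz : Px Q → Finset ℕ × ℕ} {k0 n a0 l r : ℕ}
    {J : Finset ℕ} (hJ : ∀ i ∈ J, a0 ≤ i ∧ i ≤ a0 + r * l) (hl0 : 1 ≤ l) (hr : r ≤ 7) (hdl : a0 + (r + 2) * l ≤ N) (hk : k0 ≤ N)
    (hn : k0 ≤ n) {L' : ℕ} (hJk : ∀ i ∈ J, i - k0 ≤ L' ∧ k0 - i ≤ L') {R : ℝ} (hR : 1 ≤ R) {v : ℕ → ℝ} (hv0 : 0 ≤ v 0)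
    (hRv : ∀ k, 1 ≤ k → k ≤ L' → v k ≤ R) {r0 : ℝ} (hr0 : 0 < r0) (hRl : ∀ k, k ≤ 2 * l → r0 + 2 * v k ≤ R)
    {η : Env} (hθ : gm (lw μ s η N Q) (nfl N (sl μ s) v) ≤ θ) {w : Px Q → ℝ} (hA : ∀ x, |w x - lw μ s η N Q x| ≤ D)
    (c0 : ∀ x y, 0 ≤ cls x y) (c1 : ∀ x y, cls x y ≤ 1) (n0 : ∀ x y, 0 ≤ NMA x y) (n1 : ∀ x y, NMA x y ≤ 1) {q1 : ℝ}
    (hq1 : V.q1 ≤ q1) :
    open Classical in
    gm w (fun x => (if q1 ≤ cE w qz (fun S => if T73.OutB T73.pm (sl μ s) R (k0 : ℤ) (T73.JZ J)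
        (fun _ : Unit => T73.bx T73.pm R (k0 : ℤ) n x) S then 1 else 0) x then 1 else 0) *
          (cE w p' (cls x) x * cE2 w pk' NMA x x)) ≤
      ∑ t ∈ range (r + 1), F2 w qz p' pk' cls NMA (a0 + t * l) (a0 + t * l + l) V.ρ₁ + (N : ℝ) ^ (-K) := by
  classical
  have G01 := own01 (p' := p') (pk' := pk') w c0 c1 n0 n1
  have hfl : gm w (nfl N (sl μ s) v) ≤ Real.exp (2 * D) * θ := by
    have e : w = lw μ s η N Q + (w - lw μ s η N Q) := by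
      funext x
      simp
    have h3 := gm_tilt43 (w := lw μ s η N Q) (A := w - lw μ s η N Q) (D := D) (fun x => hA x)
      (nfl_nonneg N (sl μ s) v)
    rw [← e] at h3
    exact h3.trans (mul_le_mul_of_nonneg_left hθ (Real.exp_pos _).le)
  have k1 := out_places (σ := sl μ s) (v := v) (w := w) (q := qz) hv0 hJ hl0 hdl hk hn hJk hR hRv hr0 hRl V.hρ' V.hρ'1
    (ρ₁ := V.ρ₁) (q1 := q1) (by
      have h3 : ((r : ℝ) + 1) ≤ 8 := by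
        have : (r : ℝ) ≤ 7 := by exact_mod_cast hr
        linarith
      have h4 := mul_le_mul_of_nonneg_right h3 V.hρ₁.le
      have := V.e9
      unfold LvW.q1 at hq1
      linarith) (G := fun x => cE w p' (cls x) x * cE2 w pk' NMA x x) (fun x => (G01 x).1) (fun x => (G01 x).2)
  have k3 : 2 * gm w (nfl N (sl μ s) v) / V.ρ' ≤ (N : ℝ) ^ (-K) :=
    (div_le_div_of_nonneg_right (by linarith) V.hρ'.le).trans V.e10
  have k5 : ∑ t ∈ range (r + 1), gm w (fun x => (if V.ρ₁ ≤ mI w qz (a0 + t * l) (a0 + t * l + l) x then (1 : ℝ) else 0) *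
      (cE w p' (cls x) x * cE2 w pk' NMA x x)) =
      ∑ t ∈ range (r + 1), F2 w qz p' pk' cls NMA (a0 + t * l) (a0 + t * l + l) V.ρ₁ := by
    unfold F2
    rfl
  rw [← k5]
  exact k1.trans (add_le_add le_rfl k3)

/-- **The half response at the model** (`[c, d)` the block of `p`, `qz` the finer map), after the law form. -/
theorem ft_pt73 [SwQ Q] {κ γ δ₁ ε c₁ A B D K κp θ : ℝ} (V : LvW N A B D K κp ε c₁ θ) (hQ : Full N Q) (hB : 0 ≤ B)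
    {b j : ℕ}
    (hb : 1 ≤ b) (hj : j + b ≤ N) (h1 : (N : ℝ) ^ κ ≤ ((j - (j - b) : ℕ) : ℝ)) (h2 : (N : ℝ) ^ κ ≤ b) {c d : ℕ} (hcj : c ≤ j - b)
    (hjd : j + b ≤ d) (hd : d ≤ N) {qz : Px Q → Finset ℕ × ℕ} (hc : Crs qz (pJ c d))
    {v : ℕ → ℝ} (hcn : v (j + b - (j - b)) ≤ ((j + b - (j - b) : ℕ) : ℝ) ^ δ₁ * wd' μ s (j + b - (j - b)))
    {η : Env} (hG : GwW μ s N κ γ δ₁ ε c₁ η) (hθ : gm (lw μ s η N Q) (nfl N (sl μ s) v) ≤ θ) {a : ℤ}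
    (ha : a = 1 ∨ a = -1) (c0 : ∀ x y, 0 ≤ cls x y) (c1 : ∀ x y, cls x y ≤ 1) (n0 : ∀ x y, 0 ≤ NMA x y)
    (n1 : ∀ x y, NMA x y ≤ 1) {q1 δ' : ℝ} (hq1 : V.q1 / 2 ≤ q1) (hδ' : Real.exp (-A) / 2 ≤ δ') :
    FT (lw μ s η N Q) qz (pJ c d) p' pk' (gj μ s η γ B b j a) cls NMA q1 δ' ≤
      F1 (lw μ s η N Q) qz p' pk' cls NMA (j - b) j V.M + F1 (lw μ s η N Q) qz p' pk' cls NMA j (j + b) V.M + (N : ℝ) ^ (-K) := by
  classical
  have G01 := own01 (p' := p') (pk' := pk') (lw μ s η N Q) c0 c1 n0 n1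
  have hN : 1 ≤ N := by omega
  have hq0 := V.q1_pos hN
  have hδ0 := Real.exp_pos (-A)
  have hw : Wk (Q := Q) c c d d (lw μ s η N Q) := Wk_lw η (by omega)
  have k2 := T_places (Q := Q) (η := η) (w := lw μ s η N Q) (D := 0) (q1 := q1) (δ' := δ') hG hQ hj h1 h2 hB ha
    (fun x => by rw [sub_self, abs_zero]) hcj hjd hd hw hc (by linarith) V.hm.le V.hρ V.e7
    (by
      rw [mul_zero, Real.exp_zero, mul_one]
      exact V.e6.trans (mul_le_mul hq1 hδ' (by linarith) (by linarith)))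
    (G := fun x => cE (lw μ s η N Q) p' (cls x) x * cE2 (lw μ s η N Q) pk' NMA x x) (fun x => (G01 x).1) (fun x => (G01 x).2)
  have hcn' : gm (lw μ s η N Q) (nCn μ s δ₁ (j - b) (j + b)) ≤ θ := (gm_mono _ fun S => nCn_le_nfl73 (by omega) hj hcn S).trans hθ
  have k4 : gm (lw μ s η N Q) (nCn μ s δ₁ (j - b) (j + b)) / V.ρ ≤ (N : ℝ) ^ (-K) :=
    (div_le_div_of_nonneg_right hcn' V.hρ.le).trans V.e8
  unfold FT F1
  linarith

/-- Other thresholds. -/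
theorem RBs_mono {w : Px Q → ℝ} {Y Y2 : Type*} [DecidableEq Y] [DecidableEq Y2] {Kx : Type*} [DecidableEq Kx] (p : Px Q → Y2)
    (g : Px Q → ℝ) (out : Kx × Kx → Px Q → Prop) {δ δ' q q' : ℝ} (h1 : δ' ≤ δ) (h2 : q' ≤ q) (p' pk' : Px Q → Y)
    {cls NMA : Px Q → Px Q → ℝ} (c0 : ∀ x y, 0 ≤ cls x y) (n0 : ∀ x y, 0 ≤ NMA x y) (bx : Px Q → Kx) (I : Finset Kx) :
    RBs w p g out δ q p' pk' cls bx I NMA ≤ RBs w p g out δ' q' p' pk' cls bx I NMA :=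
  sum_le_sum fun β _ => GSB52.RBb_mono w p g (out β) h1 h2 p' pk' c0 n0 bx β

/-- The numbers of the last step. -/
theorem num_tiny73 {K : ℝ} {d' k : ℕ} {q0 q2 : ℝ} (hq0 : 0 < q0) (hq2 : 0 < q2) (hk : k ≤ N) (hd : d' ≤ N)
    (e4 : ((N : ℝ) + 1) ^ 2 * q0 ≤ (N : ℝ) ^ (-K)) (e5 : ((N : ℝ) + 1) ^ 2 * q2 ≤ (N : ℝ) ^ (-K)) :
    2 * ((k : ℝ) * ((d' + 1) * q0)) + (d' + 1) * (d' + 1) * q0 + q2 ≤ 4 * (N : ℝ) ^ (-K) := by
  have h1 : (k : ℝ) ≤ N := by exact_mod_cast hk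
  have h2 : (d' : ℝ) ≤ N := by exact_mod_cast hd
  have h0 : (0 : ℝ) ≤ d' := Nat.cast_nonneg _
  have h3 : (k : ℝ) * ((d' + 1) * q0) ≤ (N + 1) * ((N + 1) * q0) :=
    mul_le_mul (by linarith) (mul_le_mul_of_nonneg_right (by linarith) hq0.le) (by positivity) (by positivity)
  have h4 : ((d' : ℝ) + 1) * (d' + 1) * q0 ≤ (N + 1) * (N + 1) * q0 :=
    mul_le_mul_of_nonneg_right (mul_le_mul (by linarith) (by linarith) (by positivity) (by positivity)) hq0.le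
  have h5 : q2 ≤ (N : ℝ) ^ (-K) := by
    have h6 : (1 : ℝ) ≤ ((N : ℝ) + 1) ^ 2 := one_le_pow₀ (by linarith [Nat.cast_nonneg (α := ℝ) N])
    have h7 := mul_le_mul_of_nonneg_right h6 hq2.le
    linarith
  have h8 : ((N : ℝ) + 1) * ((N + 1) * q0) = (N + 1) ^ 2 * q0 := by ring
  have h9 : ((N : ℝ) + 1) * (N + 1) * q0 = (N + 1) ^ 2 * q0 := by ring
  linarith

omit [Nonempty (Px Q)] in
theorem gj_Lk {al be : ℕ} {η : Env} {γ B : ℝ} {b j : ℕ} {a : ℤ} (h1 : al ≤ j - b) (h2 : j + b ≤ be) :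
    Lk al be (gj (Q := Q) μ s η γ B b j a) := fun S S' h => by
  unfold gj
  rw [h _ h1 (by omega), h _ (by omega) h2]

/-- Smaller thresholds of the conditional mass. -/
theorem gm_thr (w : Px Q → ℝ) {q1 q1' : ℝ} (h : q1 ≤ q1') (f : Px Q → ℝ) {G : Px Q → ℝ} (hG : ∀ x, 0 ≤ G x) :
    gm w (fun x => (if q1' ≤ f x then 1 else 0) * G x) ≤ gm w (fun x => (if q1 ≤ f x then 1 else 0) * G x) :=
  gm_mono w fun x => mul_le_mul_of_nonneg_right (by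
    by_cases h1 : q1' ≤ f x
    · rw [if_pos h1, if_pos (h.trans h1)]
    · rw [if_neg h1]
      split_ifs <;> norm_num) (hG x)

/-- **THE BAD FUNCTIONAL BY PLACES, THE RIGHT SIDE, ANY WEIGHT CLOSE TO THE MODEL.** -/
theorem rbs_R73 [SwQ Q] {γ ε c₁ A B D K κp θ : ℝ} (V : LvW N A B D K κp ε c₁ θ) {b j : ℕ}
    (hb : 1 ≤ b) {c' d' m1 z : ℕ} (hjm : j + b ≤ m1)
    (g1 : c' ≤ m1) (g2 : m1 ≤ z) (g3 : z ≤ d') (g4 : d' ≤ N) {k0 n a0 l r : ℕ} {J : Finset ℕ} (hJm : ∀ i ∈ J, i ≤ m1)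
    (hJ : ∀ i ∈ J, a0 ≤ i ∧ i ≤ a0 + r * l) (hl0 : 1 ≤ l) (hr : r ≤ 7) (hdl : a0 + (r + 2) * l ≤ N) (hk : k0 ≤ N) (hn : k0 ≤ n)
    {L' : ℕ} (hJk : ∀ i ∈ J, i - k0 ≤ L' ∧ k0 - i ≤ L') {R : ℝ} (hR : 1 ≤ R) {v : ℕ → ℝ} (hv0 : 0 ≤ v 0)
    (hRv : ∀ k, 1 ≤ k → k ≤ L' → v k ≤ R) {r0 : ℝ} (hr0 : 0 < r0) (hRl : ∀ k, k ≤ 2 * l → r0 + 2 * v k ≤ R)
    {η : Env} (hθ : gm (lw μ s η N Q) (nfl N (sl μ s) v) ≤ θ) {a : ℤ}
    {w : Px Q → ℝ} (hA : ∀ x, |w x - lw μ s η N Q x| ≤ D) (hHd : HdAll m1 w)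
    (hw' : Wk c' c' d' d' w) {cls NMA : Px Q → Px Q → ℝ} {pk' : Px Q → Finset ℕ × ℕ} (c0 : ∀ x y, 0 ≤ cls x y)
    (c2 : ∀ x y, cls x y ≤ NI m1 z x y) (cs : ∀ x y, cls x y = cls y x) (n0 : ∀ x y, 0 ≤ NMA x y) (n1 : ∀ x y, NMA x y ≤ 1)
    (hF : Mp (pJ c' d') fun x => cE2 w pk' NMA x x) {δ' q' : ℝ} (hδ' : Real.exp (-A) ≤ δ') (hq' : Real.exp (-A) ≤ q') :
    RBs w (pJ 0 m1) (gj μ s η γ B b j a) (fun (β : Fin (n + 1) × Fin (n + 1)) x => T73.OutB T73.pm (sl μ s) R (k0 : ℤ) (T73.JZ J)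
        ![β.1, β.2] x) δ' q' (pJ c' d') pk' cls (T73.bx T73.pm R (k0 : ℤ) n) univ NMA ≤
      2 * ∑ t ∈ range (r + 1), F2 w (pJ 0 z) (pJ c' d') pk' cls NMA (a0 + t * l) (a0 + t * l + l) V.ρ₁ +
        2 * FT w (pJ 0 z) (pJ 0 m1) (pJ c' d') pk' (gj μ s η γ B b j a) cls NMA V.q1 (Real.exp (-A)) +
        G3 w (pJ c' d') pk' NMA m1 z (Real.exp (-A) / 3) + 6 * (N : ℝ) ^ (-K) := by
  classical
  have hq0 := V.hq0
  have hqb := Real.exp_pos (-A)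
  have hN : 1 ≤ N := by omega
  have hN0 : (0 : ℝ) < N := by exact_mod_cast hN
  have c1 : ∀ x y, cls x y ≤ 1 := fun x y => (c2 x y).trans (NI_le_one _ _ _ _)
  have G01 := own01 (p' := pJ c' d') (pk' := pk') w c0 c1 n0 n1
  refine (RBs_mono _ _ _ hδ' hq' _ _ c0 n0 _ _).trans ?_
  have k1 := RBs_OutB_rightU41 (w := w) (σ := sl μ s) (R := R) (k0 := k0) (n := n) (J := J) (bx := T73.bx T73.pm R (k0 : ℤ) n)
    (I := univ) (cls := cls) (NMA := NMA) (pk' := pk') (g := gj μ s η γ B b j a) (δ := Real.exp (-A))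
    (q := Real.exp (-A)) (q0 := V.q0) g2 g3 hHd (gj_Lk (Nat.zero_le _) hjm) hJm c0 c2 cs n0 n1 hF hq0
  have hz1 : z + 1 - m1 ≤ N := by omega
  have hz0 : (0 : ℝ) < ((z + 1 - m1 : ℕ) : ℝ) := by
    have : 0 < z + 1 - m1 := by omega
    exact_mod_cast this
  have hq1 : V.q1 ≤ Real.exp (-A) * V.q0 / (3 * ((z + 1 - m1 : ℕ) : ℝ)) := by
    unfold LvW.q1
    rw [mul_comm V.q0]
    refine div_le_div_of_nonneg_left (by positivity) (by positivity) ?_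
    have : ((z + 1 - m1 : ℕ) : ℝ) ≤ N := by exact_mod_cast hz1
    linarith
  have k2 := out_pt73 (μ := μ) (s := s) (N := N) (Q := Q) (p' := pJ c' d') (pk' := pk') (cls := cls) (NMA := NMA) V hN (qz := pJ 0 z)
    hJ hl0 hr hdl hk hn hJk hR hv0 hRv hr0 hRl hθ hA c0 c1 n0 n1 hq1
  have k5 := gm_thr w hq1 (fun x => cE w (pJ 0 z) (fun S => if Real.exp (-A) ≤ TT w (pJ 0 m1) (gj μ s η γ B b j a) S then 1 else 0) x)
    (G := fun x => cE w (pJ c' d') (cls x) x * cE2 w pk' NMA x x) (fun x => (G01 x).1)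
  have k3 := num_tiny73 (N := N) (K := K) (d' := d') (k := z + 1 - m1) hq0 V.hq2 hz1 g4 V.e4 V.e5
  have k6 : 0 ≤ ((d' : ℝ) + 1) * (d' + 1) * V.q0 := by positivity
  have k7 := V.hq2
  unfold FT G3
  linarith

/-- **THE BAD FUNCTIONAL BY PLACES, THE LEFT SIDE, ANY WEIGHT CLOSE TO THE MODEL.** -/
theorem rbs_L73 [SwQ Q] (hE : ∀ S S' : Px Q, ps S N = ps S' N) {γ ε c₁ A B D K κp θ : ℝ} (V : LvW N A B D K κp ε c₁ θ)
    {b j : ℕ} (hb : 1 ≤ b) (hjN : j + b ≤ N) {c' d' m1 z : ℕ}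
    (hjm : m1 ≤ j - b) (g1 : c' ≤ z) (g2 : z ≤ m1) (g3 : m1 ≤ d') (g4 : d' ≤ N) {k0 n a0 l r : ℕ} {J : Finset ℕ}
    (hJm : ∀ i ∈ J, m1 ≤ i ∧ i ≤ N)
    (hJ : ∀ i ∈ J, a0 ≤ i ∧ i ≤ a0 + r * l) (hl0 : 1 ≤ l) (hr : r ≤ 7) (hdl : a0 + (r + 2) * l ≤ N) (hk : k0 ≤ N) (hn : k0 ≤ n)
    {L' : ℕ} (hJk : ∀ i ∈ J, i - k0 ≤ L' ∧ k0 - i ≤ L') {R : ℝ} (hR : 1 ≤ R) {v : ℕ → ℝ} (hv0 : 0 ≤ v 0)
    (hRv : ∀ k, 1 ≤ k → k ≤ L' → v k ≤ R) {r0 : ℝ} (hr0 : 0 < r0) (hRl : ∀ k, k ≤ 2 * l → r0 + 2 * v k ≤ R)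
    {η : Env} (hθ : gm (lw μ s η N Q) (nfl N (sl μ s) v) ≤ θ) {a : ℤ}
    {w : Px Q → ℝ} (hA : ∀ x, |w x - lw μ s η N Q x| ≤ D) (hw : ∀ r, z ≤ r → r ≤ m1 → Wk r r N N w)
    (hw' : Wk c' c' d' d' w) {cls NMA : Px Q → Px Q → ℝ} {pk' : Px Q → Finset ℕ × ℕ} (c0 : ∀ x y, 0 ≤ cls x y)
    (c2 : ∀ x y, cls x y ≤ NI z m1 x y) (cs : ∀ x y, cls x y = cls y x) (n0 : ∀ x y, 0 ≤ NMA x y) (n1 : ∀ x y, NMA x y ≤ 1)
    (hF : Mp (pJ c' d') fun x => cE2 w pk' NMA x x) {δ' q' : ℝ} (hδ' : Real.exp (-A) ≤ δ') (hq' : Real.exp (-A) ≤ q') :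
    RBs w (pJ m1 N) (gj μ s η γ B b j a) (fun (β : Fin (n + 1) × Fin (n + 1)) x => T73.OutB T73.pm (sl μ s) R (k0 : ℤ) (T73.JZ J)
        ![β.1, β.2] x) δ' q' (pJ c' d') pk' cls (T73.bx T73.pm R (k0 : ℤ) n) univ NMA ≤
      2 * ∑ t ∈ range (r + 1), F2 w (pJ z N) (pJ c' d') pk' cls NMA (a0 + t * l) (a0 + t * l + l) V.ρ₁ +
        2 * FT w (pJ z N) (pJ m1 N) (pJ c' d') pk' (gj μ s η γ B b j a) cls NMA V.q1 (Real.exp (-A)) +
        G3 w (pJ c' d') pk' NMA z m1 (Real.exp (-A) / 3) + 6 * (N : ℝ) ^ (-K) := by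
  classical
  have hq0 := V.hq0
  have hqb := Real.exp_pos (-A)
  have hN : 1 ≤ N := by omega
  have hN0 : (0 : ℝ) < N := by exact_mod_cast hN
  have c1 : ∀ x y, cls x y ≤ 1 := fun x y => (c2 x y).trans (NI_le_one _ _ _ _)
  have G01 := own01 (p' := pJ c' d') (pk' := pk') w c0 c1 n0 n1
  refine (RBs_mono _ _ _ hδ' hq' _ _ c0 n0 _ _).trans ?_
  have k1 := RBs_OutB_leftU41 (w := w) (σ := sl μ s) (R := R) (k0 := k0) (n := n) (J := J) (bx := T73.bx T73.pm R (k0 : ℤ) n)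
    (I := univ) (cls := cls) (NMA := NMA) (pk' := pk') (g := gj μ s η γ B b j a) (δ := Real.exp (-A))
    (q := Real.exp (-A)) (q0 := V.q0) hE g2 g3 g4 hw (gj_Lk hjm hjN) hJm c0 c2 cs n0 n1 hF hq0
  have hz1 : m1 + 1 - z ≤ N := by omega
  have hz0 : (0 : ℝ) < ((m1 + 1 - z : ℕ) : ℝ) := by
    have : 0 < m1 + 1 - z := by omega
    exact_mod_cast this
  have hq1 : V.q1 ≤ Real.exp (-A) * V.q0 / (3 * ((m1 + 1 - z : ℕ) : ℝ)) := by
    unfold LvW.q1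
    rw [mul_comm V.q0]
    refine div_le_div_of_nonneg_left (by positivity) (by positivity) ?_
    have : ((m1 + 1 - z : ℕ) : ℝ) ≤ N := by exact_mod_cast hz1
    linarith
  have k2 := out_pt73 (μ := μ) (s := s) (N := N) (Q := Q) (p' := pJ c' d') (pk' := pk') (cls := cls) (NMA := NMA) V hN (qz := pJ z N)
    hJ hl0 hr hdl hk hn hJk hR hv0 hRv hr0 hRl hθ hA c0 c1 n0 n1 hq1
  have k5 := gm_thr w hq1 (fun x => cE w (pJ z N) (fun S => if Real.exp (-A) ≤ TT w (pJ m1 N) (gj μ s η γ B b j a) S then 1 else 0) x)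
    (G := fun x => cE w (pJ c' d') (cls x) x * cE2 w pk' NMA x x) (fun x => (G01 x).1)
  have k3 := num_tiny73 (N := N) (K := K) (d' := d') (k := m1 + 1 - z) hq0 V.hq2 hz1 g4 V.e4 V.e5
  have k6 : 0 ≤ ((d' : ℝ) + 1) * (d' + 1) * V.q0 := by positivity
  have k7 := V.hq2
  unfold FT G3
  linarith

end Wgt

end

end Pool.W7d29a1.C0.Bd73
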