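import Pool.Agent.W_7d29a1_C0.GSE52
import Pool.Agent.W_7d29a1_C0.GSR73

/-!
CURV0 (MP_7d29a1_pr), GS one kick: THE BAD FUNCTIONAL BY PLACES, INTEGRATED. `IFT`, `IF1`, `IF2`, `IF3` = the averages (over the ends)
of the means of `FT`, `F1`, `F2`, `F3` of `GSR73`, at the rows `j`, `k` of the frame, class `r`, weights `Wf fl` (`true` = flipped). (helper73)
-/

set_option autoImplicit false
set_option linter.unusedSectionVars false
set_option linter.unusedVariables false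

namespace Pool.W7d29a1.C0.Bd73

open Finset MeasureTheory Pool.Agent.W_7d29a1_F Pool.Agent.W_7d29a1_X Pool.W7d29a1.C0
open Pool.W7d29a1.C0.VT31
open Pool.Agent.W_7d29a1_H (sl)
open Pool.Agent.W_7d29a1_C0 Pool.Agent.W_7d29a1_C0.Swap57 Pool.Agent.W_7d29a1_C0.Mod92 Pool.Agent.W_7d29a1_C0.Near32
open Pool.Agent.W_7d29a1_C0.One32
open Pool.W7d29a1.C0.GSE52 (Wf)

noncomputable section

section Plc

variable {Q : Finset (Finset ℕ)}

/-- What is seen by the places: right `(0, z)`, left `(z, N)`. -/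
def qz73 (N z : ℕ) (r : Bool) : Px Q → Finset ℕ × ℕ := if r then pJ 0 z else pJ z N

end Plc

/-- The row behind (in front of) the slab. -/
def m73 (b j : ℕ) (r : Bool) : ℕ := if r then j + 3 * b else j - 3 * b

/-- The row `z`: the own mass is used behind (in front of) it. -/
def z73 (b j e : ℕ) (r : Bool) : ℕ := if r then j + 3 * b + e else j - 3 * b - e

/-- The first row of the slab. -/
def a73 (b j : ℕ) (r : Bool) : ℕ := if r then j + 2 * b else j - 3 * b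

section Int

variable (μ : Measure ℝ) (s : ℝ) (N : ℕ) (ys : Finset ℕ) (δ B : ℝ) (b σ m j k z : ℕ) (r fl : Bool)

/-- The averaged mean of `FT`. -/
def IFT (q1 δ' : ℝ) : ℝ := avy ys fun y => ∫ ω, FT (Wf μ s N δ B b j fl y ω) (qz73 N z r) (qz73 N (m73 b j r) r) (pB (m * σ) j)
  (pB (m * σ) k) (gg μ s (Pn N y) δ B b ω j) (Cl b σ j r) (NA b σ j k) q1 δ' ∂(Pm μ N)

/-- The averaged mean of `F1`. -/
def IF1 (i i' : ℕ) (M : ℝ) : ℝ := avy ys fun y => ∫ ω, F1 (Wf μ s N δ B b j fl y ω) (qz73 N z r) (pB (m * σ) j) (pB (m * σ) k)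
  (Cl b σ j r) (NA b σ j k) i i' M ∂(Pm μ N)

/-- The averaged mean of `F2`. -/
def IF2 (i i' : ℕ) (ρ : ℝ) : ℝ := avy ys fun y => ∫ ω, F2 (Wf μ s N δ B b j fl y ω) (qz73 N z r) (pB (m * σ) j) (pB (m * σ) k)
  (Cl b σ j r) (NA b σ j k) i i' ρ ∂(Pm μ N)

/-- The averaged mean of `F3`. -/
def IF3 (i i' : ℕ) (q : ℝ) : ℝ := avy ys fun y => ∫ ω, F3 (Wf μ s N δ B b j fl y ω) (pB (m * σ) k) (NA b σ j k) i i' q ∂(Pm μ N)

/-- The averaged mean of `G3`. -/
def IG3 (i i' : ℕ) (q : ℝ) : ℝ := avy ys fun y => ∫ ω, G3 (Wf μ s N δ B b j fl y ω) (pB (m * σ) j) (pB (m * σ) k) (NA b σ j k) i i' q ∂(Pm μ N)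

end Int

end

end Pool.W7d29a1.C0.Bd73
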