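import Pool.Agent.W_7d29a1_C0.PrL86
import Pool.Agent.W_7d29a1_C0.GSS73
import Pool.Agent.W_7d29a1_C0.Num46P

/-!
C0, helper86: THE PRICES OF THE BAD FUNCTIONAL OF GS (S4 of helper73): `if1_86`, `if2_86`: the averaged means `IF1`, `IF2` of `GSS73` (weights
not flipped) are at most `N ^ ε / (EE e * EE (i' - i))` plus the errors, any row `k`; `N ^ ε / (EE e ^ 2 * EE (i' - i))` if the rows `j`, `k`
are in different blocks of length `m σ`.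
-/

set_option autoImplicit false

namespace Pool.Agent.W_7d29a1_C0.P86

open MeasureTheory ProbabilityTheory Filter Topology Finset
open Pool.Agent.W_7d29a1_F Pool.Agent.W_7d29a1_X Pool.Agent.W_7d29a1_h4g Pool.Agent.W_7d29a1_H
open Pool.Agent.W_7d29a1_HS (In wd md)
open Pool.Agent.W_7d29a1_HZ Pool.Agent.W_7d29a1_HZ.R72 Pool.Agent.W_7d29a1_Z.Asm72
open Pool.Agent.W_7d29a1_HZ.Z86
open Pool.Agent.W_7d29a1_C0 (EE'_eq46)
open Pool.Agent.W_7d29a1_C0.Mod92 (Px Pn lw ps pJ ne_Pn wm Pm meas_lw meas_cE meas_gz meas_gm int_Pm meas_wm int_bdd avy avy_mono avy_const)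
open Pool.Agent.W_7d29a1_C0.Swap57 (NI cE2 NI_mono NI_nonneg cE2_add cE2_mono cE2_nonneg cE2_le_one)
open Pool.Agent.W_7d29a1_C0.One32 (Cl NA Po pB Cl_nonneg Cl_le_one NA_nonneg NA_le_one)
open Pool.Agent.W_7d29a1_C0.GS65 (NIP_le_NI NMP_le KL_le)
open Pool.W7d29a1.C0 (gm gz gz_pos gm_nonneg gm_mono gm_const)
open Pool.W7d29a1.C0.VT31 (Mp cE gm_mul_cE fz cE_sum cE_mono cE_nonneg cE_one)
open Pool.W7d29a1.C0.R43 (Tau mI mI_nonneg)
open Pool.W7d29a1.C0.Bd73 (F1 F2 IF1 IF2 qz73 z73)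
open Pool.W7d29a1.C0.GSE52 (Wf)

variable {μ : Measure ℝ} {s : ℝ} {N : ℕ}

/-! ### The factors -/

theorem Fac.mono86 {y : ℕ} {X X' M M' : ℝ} (hX : X ≤ X') (hM : M ≤ M') {c d U V : ℕ}
    {G : Env × Finset ℕ → Px (Pn N y) → ℝ} (h : Fac μ s N y X M c d U V G) : Fac μ s N y X' M' c d U V G := by
  refine ⟨h.1, ?_⟩
  rcases h.2 with g | g
  · refine Or.inl fun ω x => ?_
    rcases g ω x with g1 | g1
    · refine Or.inl fun hn => ?_
      have g2 := g1 hn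
      unfold Tau at g2 ⊢
      exact (Real.exp_le_exp.2 (by linarith)).trans g2
    · exact Or.inr g1
  · refine Or.inr fun ω x => ?_
    have : Nonempty (Px (Pn N y)) := ⟨x⟩
    exact (g ω x).trans (mul_le_mul_of_nonneg_right (Real.exp_le_exp.2 hX) (cE_nonneg _ _ (fun x' => NI_nonneg _ _ _ _) x))

/-- The own mass. -/
theorem facOwn {y : ℕ} {X M : ℝ} (hX : 0 ≤ X) {c d u v : ℕ} {K : Px (Pn N y) → Px (Pn N y) → ℝ} (K0 : ∀ x x', 0 ≤ K x x')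
    (K1 : ∀ x x', K x x' ≤ 1) (hK : ∀ x x', K x x' ≤ NI u v x x') :
    Fac μ s N y X M c d u v (fun ω x => cE (wm μ s N (Pn N y) ω) (pJ c d) (K x) x) := by
  refine ⟨fun ω x => ?_, Or.inr fun ω x => ?_⟩
  · have : Nonempty (Px (Pn N y)) := ⟨x⟩
    exact ⟨cE_nonneg _ _ (K0 x) x, Pool.W7d29a1.C0.Bd73.own_le_one _ _ K1 x⟩
  · have : Nonempty (Px (Pn N y)) := ⟨x⟩
    have h1 := cE_mono (wm μ s N (Pn N y) ω) (pJ c d) (hK x) x
    have h2 := cE_nonneg (wm μ s N (Pn N y) ω) (pJ c d) (fun x' => NI_nonneg u v x x') x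
    have h3 := Real.one_le_exp hX
    show cE (wm μ s N (Pn N y) ω) (pJ c d) (K x) x ≤ Real.exp X * cE (wm μ s N (Pn N y) ω) (pJ c d) (NI u v x) x
    nlinarith [mul_le_mul_of_nonneg_right h3 h2]

/-- The mass of the pairs. -/
theorem facPair {y : ℕ} {X M : ℝ} {c d u v : ℕ} {K : Px (Pn N y) → Px (Pn N y) → ℝ} (K0 : ∀ x x', 0 ≤ K x x')
    (K1 : ∀ x x', K x x' ≤ 1) (hK : ∀ x x', K x x' ≤ NI u v x x') :
    Fac μ s N y X M c d u v (fun ω x => cE2 (wm μ s N (Pn N y) ω) (pJ c d) K x x) := by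
  refine ⟨fun ω x => ?_, Or.inl fun ω x => Or.inr ?_⟩
  · have : Nonempty (Px (Pn N y)) := ⟨x⟩
    exact ⟨cE2_nonneg _ _ K0 x x, cE2_le_one _ _ K1 x x⟩
  · have : Nonempty (Px (Pn N y)) := ⟨x⟩
    exact cE2_mono _ _ hK x x

theorem ni_le_one86 {Q : Finset (Finset ℕ)} (u v : ℕ) (x x' : Px Q) : NI u v x x' ≤ 1 := by
  unfold NI
  split_ifs <;> norm_num

/-- The indicator of the robust event. -/
theorem facTau {y : ℕ} {X M : ℝ} {c d i i' : ℕ} :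
    open Classical in
    Fac μ s N y X M c d i i' (fun ω x => if Tau (wm μ s N (Pn N y) ω) (pJ c d) i i' M x then 1 else 0) := by
  classical
  refine ⟨fun ω x => ?_, Or.inl fun ω x => Or.inl fun hn => ?_⟩
  · dsimp only
    split_ifs <;> norm_num
  · by_contra h0
    exact hn (if_neg h0)

/-- The indicator of a mass which is not small. -/
theorem facMI {y : ℕ} {X M : ℝ} {c d i i' : ℕ} {ρ : ℝ} (hρ : Real.exp (-X) ≤ ρ) :
    open Classical in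
    Fac μ s N y X M c d i i' (fun ω x => if ρ ≤ mI (wm μ s N (Pn N y) ω) (pJ c d) i i' x then 1 else 0) := by
  classical
  refine ⟨fun ω x => ?_, Or.inr fun ω x => ?_⟩
  · dsimp only
    split_ifs <;> norm_num
  · have : Nonempty (Px (Pn N y)) := ⟨x⟩
    show (if ρ ≤ mI (wm μ s N (Pn N y) ω) (pJ c d) i i' x then (1 : ℝ) else 0) ≤
      Real.exp X * mI (wm μ s N (Pn N y) ω) (pJ c d) i i' x
    have h2 : 0 ≤ mI (wm μ s N (Pn N y) ω) (pJ c d) i i' x := mI_nonneg _ _ _ _ _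
    split_ifs with h1
    · have h3 := mul_le_mul_of_nonneg_left (hρ.trans h1) (Real.exp_pos X).le
      rwa [← Real.exp_add, add_neg_cancel, Real.exp_zero] at h3
    · exact mul_nonneg (Real.exp_pos X).le h2

/-! ### The geometry -/

/-- The own class sees the piece of length `e` behind (in front of) the row `z`. -/
theorem cl_le86 {Q : Finset (Finset ℕ)} {b σ j e : ℕ} (h1 : j / σ * σ + (3 * b + 2 * e) ≤ j) (h2 : j + (3 * b + 2 * e) ≤ j / σ * σ + σ)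
    (x x' : Px Q) : Cl b σ j true x x' ≤ NI (j + 3 * b + e) (j + 3 * b + e + e) x x' ∧
      Cl b σ j false x x' ≤ NI (j - 3 * b - e - e) (j - 3 * b - e) x x' := by
  constructor
  · show NI (j + b) (j / σ * σ + σ) x x' ≤ _
    exact NI_mono (by omega) (by omega) x x'
  · refine (KL_le x x').trans (NI_mono (by omega) (by omega) x x')

/-- The factor of the other row, another block. -/
theorem na_le86 {Q : Finset (Finset ℕ)} {b σ m j k e : ℕ} (hjk : j / (m * σ) ≠ k / (m * σ))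
    (h1 : j / σ * σ + (3 * b + 2 * e) ≤ j) (h2 : j + (3 * b + 2 * e) ≤ j / σ * σ + σ)
    (h3 : k / σ * σ + (3 * b + 2 * e) ≤ k) (h4 : k + (3 * b + 2 * e) ≤ k / σ * σ + σ) (x x' : Px Q) :
    NA b σ j k x x' ≤ NI (k / σ * σ) (k / σ * σ + e) x x' + NI (k + b) (k + b + e) x x' := by
  have hne : j / σ ≠ k / σ := fun h => hjk (by rw [mul_comm m σ, ← Nat.div_div_eq_div_mul, ← Nat.div_div_eq_div_mul, h])
  have hP : ∀ t, k / σ * σ ≤ t → t ≤ k / σ * σ + σ → Po b j t := by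
    intro t ht ht'
    rcases lt_or_gt_of_ne hne with g | g
    · right
      have := Nat.mul_le_mul_right σ (show j / σ + 1 ≤ k / σ from g)
      rw [Nat.add_mul, Nat.one_mul] at this
      omega
    · left
      have := Nat.mul_le_mul_right σ (show k / σ + 1 ≤ j / σ from g)
      rw [Nat.add_mul, Nat.one_mul] at this
      omega
  refine (NMP_le x x').trans (add_le_add ?_ ?_)
  · exact NIP_le_NI le_rfl (by omega) (fun t ht ht' => hP t ht (by omega)) x x'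
  · exact NIP_le_NI le_rfl (by omega) (fun t ht ht' => hP t (by omega) (by omega)) x x'

/-- The blocks of length `m σ`. -/
theorem blkm86 {σ m j k : ℕ} (hjk : j / (m * σ) ≠ k / (m * σ)) :
    j / (m * σ) * (m * σ) + m * σ ≤ k / (m * σ) * (m * σ) ∨ k / (m * σ) * (m * σ) + m * σ ≤ j / (m * σ) * (m * σ) := by
  rcases lt_or_gt_of_ne hjk with g | g
  · left
    have := Nat.mul_le_mul_right (m * σ) (show j / (m * σ) + 1 ≤ k / (m * σ) from g)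
    rwa [Nat.add_mul, Nat.one_mul] at this
  · right
    have := Nat.mul_le_mul_right (m * σ) (show k / (m * σ) + 1 ≤ j / (m * σ) from g)
    rwa [Nat.add_mul, Nat.one_mul] at this

/-- The small block is in the large one. -/
theorem in86 {σ m : ℕ} (hm : 0 < m) (j : ℕ) : j / (m * σ) * (m * σ) ≤ j / σ * σ ∧ j / σ * σ + σ ≤ j / (m * σ) * (m * σ) + m * σ :=
  Pool.Agent.W_7d29a1_C0.Flip61.grid_in hm j

/-! ### Both sides at once -/

section Both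

variable [IsProbabilityMeasure μ] {c₀ C₀ : ℝ} {n₀ : ℕ}

theorem rp_le86 {L : ℕ} (hL : 1 ≤ L) {a b : ℝ} (h : a ≤ b) : (L : ℝ) ^ a ≤ (L : ℝ) ^ b :=
  Real.rpow_le_rpow_of_exponent_le (by exact_mod_cast hL) h

theorem exp_rp86 {L : ℕ} (hL : 1 ≤ L) {a b : ℝ} (h : a ≤ b) : Real.exp (-(L : ℝ) ^ b) ≤ Real.exp (-(L : ℝ) ^ a) :=
  Real.exp_le_exp.2 (neg_le_neg (rp_le86 hL h))

/-- The prices, both sides. -/
theorem gs_both86 (h : In μ s c₀ C₀ n₀) : ∀ ε θ : ℝ, 0 < ε → 0 < θ → ∃ δ κ c₂ : ℝ, 0 < δ ∧ 0 < κ ∧ 0 < c₂ ∧ ∃ N₀ : ℕ,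
    ∀ N : ℕ, N₀ ≤ N → ∀ y : ℕ, y ≤ N → |(y : ℝ) - sl μ s * N| ≤ ((N : ℝ) ^ δ * wd' μ s N) →
    ∀ M : ℝ, 8 ≤ M → M ≤ (N : ℝ) ^ κ →
    ∀ (p₁ p₂ z e U₂ V₂ : ℕ) (r : Bool), (N : ℝ) ^ θ ≤ e → (N : ℝ) ^ θ ≤ ((V₂ - U₂ : ℕ) : ℝ) → U₂ ≤ V₂ → V₂ ≤ N → p₂ ≤ N →
    (if r then p₁ ≤ z ∧ z + e ≤ p₂ ∧ V₂ ≤ z else z ≤ p₂ ∧ p₁ + e ≤ z ∧ z ≤ U₂) →
    ∀ G₁ G₂ : Env × Finset ℕ → Px (Pn N y) → ℝ,
    Fac μ s N y ((N : ℝ) ^ κ) M p₁ p₂ (if r then z else z - e) (if r then z + e else z) G₁ →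
    Fac μ s N y ((N : ℝ) ^ κ) M (if r then 0 else z) (if r then z else N) U₂ V₂ G₂ →
    (∫ ω, gm (wm μ s N (Pn N y) ω) (fun x => G₁ ω x * G₂ ω x) ∂(Pm μ N) ≤
      ((N : ℝ) ^ ε * (EE' μ s e)⁻¹) * ((N : ℝ) ^ ε * (EE' μ s (V₂ - U₂))⁻¹) + (Real.exp (-(N : ℝ) ^ c₂) + 4 * Real.exp (-M))) ∧
    ∀ (f₁ f₂ U₃ : ℕ) (F : Env × Finset ℕ → Px (Pn N y) → ℝ), f₁ ≤ U₃ → U₃ + e ≤ f₂ → f₂ ≤ N →
      (if r then p₂ ≤ f₁ ∨ f₂ ≤ U₂ else f₂ ≤ p₁ ∨ V₂ ≤ f₁) → Fac μ s N y ((N : ℝ) ^ κ) M f₁ f₂ U₃ (U₃ + e) F →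
      ∫ ω, gm (wm μ s N (Pn N y) ω) (fun x => G₁ ω x * G₂ ω x * F ω x) ∂(Pm μ N) ≤
        ((N : ℝ) ^ ε * (EE' μ s e)⁻¹) * ((N : ℝ) ^ ε * (EE' μ s (V₂ - U₂))⁻¹) * ((N : ℝ) ^ ε * (EE' μ s e)⁻¹) +
          (Real.exp (-(N : ℝ) ^ c₂) + 6 * Real.exp (-M)) := by
  intro ε θ hε hθ
  obtain ⟨δ1, κ1, a1, hδ1, hκ1, ha1, L1, h1⟩ := gs_right2 h ε θ hε hθ
  obtain ⟨δ2, κ2, a2, hδ2, hκ2, ha2, L2, h2⟩ := gs_right3 h ε θ hε hθ
  obtain ⟨δ3, κ3, a3, hδ3, hκ3, ha3, L3, h3⟩ := gs_left2 h ε θ hε hθ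
  obtain ⟨δ4, κ4, a4, hδ4, hκ4, ha4, L4, h4⟩ := gs_left3 h ε θ hε hθ
  refine ⟨min (min δ1 δ2) (min δ3 δ4), min (min κ1 κ2) (min κ3 κ4), min (min a1 a2) (min a3 a4),
    lt_min (lt_min hδ1 hδ2) (lt_min hδ3 hδ4), lt_min (lt_min hκ1 hκ2) (lt_min hκ3 hκ4), lt_min (lt_min ha1 ha2) (lt_min ha3 ha4),
    L1 + L2 + L3 + L4 + 1, ?_⟩
  intro N hN y hyN hyc M hM hML p₁ p₂ z e U₂ V₂ r he hV hUV hVN hpN hgeo G₁ G₂ g1 g2
  have hN1 : 1 ≤ N := by omega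
  have dd : ∀ δ' : ℝ, min (min δ1 δ2) (min δ3 δ4) ≤ δ' → |(y : ℝ) - sl μ s * N| ≤ ((N : ℝ) ^ δ' * wd' μ s N) := fun δ' hd =>
    hyc.trans (mul_le_mul_of_nonneg_right (rp_le86 hN1 hd) (zero_le_one.trans (le_max_left (1 : ℝ) (wd μ s N))))
  have i1 : min (min δ1 δ2) (min δ3 δ4) ≤ δ1 := (min_le_left _ _).trans (min_le_left _ _)
  have i2 : min (min δ1 δ2) (min δ3 δ4) ≤ δ2 := (min_le_left _ _).trans (min_le_right _ _)
  have i3 : min (min δ1 δ2) (min δ3 δ4) ≤ δ3 := (min_le_right _ _).trans (min_le_left _ _)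
  have i4 : min (min δ1 δ2) (min δ3 δ4) ≤ δ4 := (min_le_right _ _).trans (min_le_right _ _)
  have k1 := rp_le86 hN1 (show min (min κ1 κ2) (min κ3 κ4) ≤ κ1 from (min_le_left _ _).trans (min_le_left _ _))
  have k2 := rp_le86 hN1 (show min (min κ1 κ2) (min κ3 κ4) ≤ κ2 from (min_le_left _ _).trans (min_le_right _ _))
  have k3 := rp_le86 hN1 (show min (min κ1 κ2) (min κ3 κ4) ≤ κ3 from (min_le_right _ _).trans (min_le_left _ _))
  have k4 := rp_le86 hN1 (show min (min κ1 κ2) (min κ3 κ4) ≤ κ4 from (min_le_right _ _).trans (min_le_right _ _))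
  have e1 := exp_rp86 hN1 (show min (min a1 a2) (min a3 a4) ≤ a1 from (min_le_left _ _).trans (min_le_left _ _))
  have e2 := exp_rp86 hN1 (show min (min a1 a2) (min a3 a4) ≤ a2 from (min_le_left _ _).trans (min_le_right _ _))
  have e3 := exp_rp86 hN1 (show min (min a1 a2) (min a3 a4) ≤ a3 from (min_le_right _ _).trans (min_le_left _ _))
  have e4 := exp_rp86 hN1 (show min (min a1 a2) (min a3 a4) ≤ a4 from (min_le_right _ _).trans (min_le_right _ _))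
  cases r
  · simp only [Bool.false_eq_true, if_false] at hgeo g1 g2 ⊢
    obtain ⟨q1, q2, q3⟩ := hgeo
    have e0 : z - (z - e) = e := by omega
    have he' : (N : ℝ) ^ θ ≤ ((z - (z - e) : ℕ) : ℝ) := by rw [e0]; exact he
    constructor
    · have := h3 N (by omega) N (by omega) le_rfl y hyN (dd δ3 i3) M hM (hML.trans k3) p₁ p₂ z (z - e) z U₂ V₂ q1 (by omega) (by omega)
        le_rfl hpN q3 hUV hVN he' hV G₁ G₂ (g1.mono86 k3 le_rfl) (g2.mono86 k3 le_rfl)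
      rw [e0] at this
      linarith
    · intro f₁ f₂ U₃ F w1 w2 w3 w4 gF
      have := h4 N (by omega) N (by omega) le_rfl y hyN (dd δ4 i4) M hM (hML.trans k4) p₁ p₂ z (z - e) z U₂ V₂ f₁ f₂ U₃ (U₃ + e) q1 (by omega)
        (by omega) le_rfl hpN q3 hUV hVN w1 (by omega) w2 w3 w4 he' hV (by rw [Nat.add_sub_cancel_left]; exact he) G₁ G₂ F (g1.mono86 k4 le_rfl)
        (g2.mono86 k4 le_rfl) (gF.mono86 k4 le_rfl)
      rw [e0, Nat.add_sub_cancel_left] at this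
      linarith
  · simp only [if_true] at hgeo g1 g2 ⊢
    obtain ⟨q1, q2, q3⟩ := hgeo
    have e0 : z + e - z = e := by omega
    have he' : (N : ℝ) ^ θ ≤ ((z + e - z : ℕ) : ℝ) := by rw [e0]; exact he
    constructor
    · have := h1 N (by omega) N (by omega) le_rfl y hyN (dd δ1 i1) M hM (hML.trans k1) p₁ p₂ z z (z + e) U₂ V₂ q1 le_rfl (by omega)
        q2 hpN hUV q3 he' hV G₁ G₂ (g1.mono86 k1 le_rfl) (g2.mono86 k1 le_rfl)
      rw [e0] at this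
      linarith
    · intro f₁ f₂ U₃ F w1 w2 w3 w4 gF
      have := h2 N (by omega) N (by omega) le_rfl y hyN (dd δ2 i2) M hM (hML.trans k2) p₁ p₂ z z (z + e) U₂ V₂ f₁ f₂ U₃ (U₃ + e) q1 le_rfl
        (by omega) q2 hpN hUV q3 w1 (by omega) w2 w3 w4 he' hV (by rw [Nat.add_sub_cancel_left]; exact he) G₁ G₂ F (g1.mono86 k2 le_rfl)
        (g2.mono86 k2 le_rfl) (gF.mono86 k2 le_rfl)
      rw [e0, Nat.add_sub_cancel_left] at this
      linarith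

/-- The factor of the other row in two pieces. -/
theorem int_split86 {y : ℕ} (hy : y ≤ N) {G₁ G₂ F Fa Fb : Env × Finset ℕ → Px (Pn N y) → ℝ} (m1 : ∀ x, Measurable fun ω => G₁ ω x)
    (m2 : ∀ x, Measurable fun ω => G₂ ω x) (mF : ∀ x, Measurable fun ω => F ω x) (ma : ∀ x, Measurable fun ω => Fa ω x)
    (mb : ∀ x, Measurable fun ω => Fb ω x) (b1 : ∀ ω x, 0 ≤ G₁ ω x ∧ G₁ ω x ≤ 1) (b2 : ∀ ω x, 0 ≤ G₂ ω x ∧ G₂ ω x ≤ 1)
    (bF : ∀ ω x, 0 ≤ F ω x ∧ F ω x ≤ 1) (ba : ∀ ω x, 0 ≤ Fa ω x ∧ Fa ω x ≤ 1) (bb : ∀ ω x, 0 ≤ Fb ω x ∧ Fb ω x ≤ 1)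
    (hF : ∀ ω x, F ω x ≤ Fa ω x + Fb ω x) :
    ∫ ω, gm (wm μ s N (Pn N y) ω) (fun x => G₁ ω x * G₂ ω x * F ω x) ∂(Pm μ N) ≤
      ∫ ω, gm (wm μ s N (Pn N y) ω) (fun x => G₁ ω x * G₂ ω x * Fa ω x) ∂(Pm μ N) +
        ∫ ω, gm (wm μ s N (Pn N y) ω) (fun x => G₁ ω x * G₂ ω x * Fb ω x) ∂(Pm μ N) := by
  have := ne_Pn (N := N) (y := y) hy
  have key : ∀ {H : Env × Finset ℕ → Px (Pn N y) → ℝ}, (∀ x, Measurable fun ω => H ω x) → (∀ ω x, 0 ≤ H ω x ∧ H ω x ≤ 1) →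
      Integrable (fun ω => gm (wm μ s N (Pn N y) ω) (fun x => G₁ ω x * G₂ ω x * H ω x)) (Pm μ N) := by
    intro H mH bH
    refine int_bdd (M := 1) (meas_gm meas_wm fun x => ((m1 x).mul (m2 x)).mul (mH x)) fun ω => ?_
    have p0 : ∀ x, 0 ≤ G₁ ω x * G₂ ω x * H ω x := fun x => mul_nonneg (mul_nonneg (b1 ω x).1 (b2 ω x).1) (bH ω x).1
    have p1 : ∀ x, G₁ ω x * G₂ ω x * H ω x ≤ 1 := fun x =>
      mul_le_one₀ (mul_le_one₀ (b1 ω x).2 (b2 ω x).1 (b2 ω x).2) (bH ω x).1 (bH ω x).2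
    rw [abs_of_nonneg (gm_nonneg _ p0)]
    exact (gm_mono _ p1).trans_eq (gm_const _ 1)
  rw [← integral_add (key ma ba) (key mb bb)]
  refine integral_mono (key mF bF) ((key ma ba).add (key mb bb)) fun ω => ?_
  show gm _ _ ≤ gm _ _ + gm _ _
  rw [← Pool.W7d29a1.C0.gm_add]
  refine gm_mono _ fun x => ?_
  have h1 := mul_le_mul_of_nonneg_left (hF ω x) (mul_nonneg (b1 ω x).1 (b2 ω x).1)
  rw [mul_add] at h1
  exact h1

/-- Large numbers. -/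
theorem ev_two86 {a : ℝ} (ha : 0 < a) : ∃ N₀ : ℕ, ∀ N : ℕ, N₀ ≤ N → (2 : ℝ) ≤ (N : ℝ) ^ a := by
  have h1 : Tendsto (fun N : ℕ => (N : ℝ) ^ a) atTop atTop := (tendsto_rpow_atTop ha).comp tendsto_natCast_atTop_atTop
  exact eventually_atTop.1 (h1.eventually_ge_atTop 2)

/-- The geometry of the rows `j` and of the window `[i, i']`. -/
structure GeoJ (N b σ m j e i i' : ℕ) (r : Bool) : Prop where
  m0 : 0 < m
  l : j / σ * σ + (3 * b + 2 * e) ≤ j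
  u : j + (3 * b + 2 * e) ≤ j / σ * σ + σ
  N : j / (m * σ) * (m * σ) + m * σ ≤ N
  i0 : j - 3 * b ≤ i
  ii : i ≤ i'
  w : if r then j - b ≤ i ∧ i' ≤ j + 3 * b + e else i' ≤ j + b

/-- **One end.** -/
theorem core86 (h : In μ s c₀ C₀ n₀) : ∀ ε θ : ℝ, 0 < ε → 0 < θ → ∃ δ κ c₂ : ℝ, 0 < δ ∧ 0 < κ ∧ 0 < c₂ ∧ ∃ N₀ : ℕ,
    ∀ N : ℕ, N₀ ≤ N → ∀ y : ℕ, y ≤ N → |(y : ℝ) - sl μ s * N| ≤ ((N : ℝ) ^ δ * wd' μ s N) →
    ∀ M : ℝ, 8 ≤ M → M ≤ (N : ℝ) ^ κ →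
    ∀ (b σ m j k e i i' : ℕ) (r : Bool), GeoJ N b σ m j e i i' r → (N : ℝ) ^ θ ≤ e → (N : ℝ) ^ θ ≤ ((i' - i : ℕ) : ℝ) →
    ∀ G : Env × Finset ℕ → Px (Pn N y) → ℝ, (∀ x, Measurable fun ω => G ω x) →
    Fac μ s N y ((N : ℝ) ^ κ) M (if r then 0 else z73 b j e r) (if r then z73 b j e r else N) i i' G →
    (∫ ω, gm (wm μ s N (Pn N y) ω) (fun x => G ω x * (cE (wm μ s N (Pn N y) ω) (pB (m * σ) j) (Cl b σ j r x) x *
        cE2 (wm μ s N (Pn N y) ω) (pB (m * σ) k) (NA b σ j k) x x)) ∂(Pm μ N) ≤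
      (N : ℝ) ^ ε / (EE μ s e * EE μ s (i' - i)) + (Real.exp (-(N : ℝ) ^ c₂) + 6 * Real.exp (-M))) ∧
    (k / σ * σ + (3 * b + 2 * e) ≤ k → k + (3 * b + 2 * e) ≤ k / σ * σ + σ → k / (m * σ) * (m * σ) + m * σ ≤ N →
      j / (m * σ) ≠ k / (m * σ) →
      ∫ ω, gm (wm μ s N (Pn N y) ω) (fun x => G ω x * (cE (wm μ s N (Pn N y) ω) (pB (m * σ) j) (Cl b σ j r x) x *
        cE2 (wm μ s N (Pn N y) ω) (pB (m * σ) k) (NA b σ j k) x x)) ∂(Pm μ N) ≤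
      (N : ℝ) ^ ε / (EE μ s e ^ 2 * EE μ s (i' - i)) + (Real.exp (-(N : ℝ) ^ c₂) + 6 * Real.exp (-M))) := by
  intro ε θ hε hθ
  obtain ⟨δ, κ, a, hδ, hκ, ha, N1, hP⟩ := gs_both86 h (ε / 4) θ (by linarith) hθ
  obtain ⟨N2, hN2⟩ := ev_two86 (show 0 < κ / 2 by linarith)
  obtain ⟨N3, hN3⟩ := ev_two86 (show 0 < a / 2 by linarith)
  obtain ⟨N4, hN4⟩ := ev_two86 (show 0 < ε / 4 by linarith)
  refine ⟨δ, κ / 2, a / 2, hδ, by linarith, by linarith, N1 + N2 + N3 + N4 + 1, ?_⟩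
  intro N hN y hyN hyc M hM hML b σ m j k e i i' r geo he hi G mG gG
  obtain ⟨g0, g1, g2, g3, g4, g5, g6⟩ := geo
  have hN0 : 1 ≤ N := by omega
  have hNr : (0 : ℝ) ≤ N := Nat.cast_nonneg N
  have hne := ne_Pn (N := N) (y := y) hyN
  -- the numbers
  have n2 := hN2 N (by omega)
  have n3 := hN3 N (by omega)
  have n4 := hN4 N (by omega)
  have q2 : (N : ℝ) ^ κ = (N : ℝ) ^ (κ / 2) * (N : ℝ) ^ (κ / 2) := by
    rw [← Real.rpow_add (by exact_mod_cast hN0)]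
    congr 1
    ring
  have q3 : (N : ℝ) ^ a = (N : ℝ) ^ (a / 2) * (N : ℝ) ^ (a / 2) := by
    rw [← Real.rpow_add (by exact_mod_cast hN0)]
    congr 1
    ring
  have q4 : (N : ℝ) ^ ε = (N : ℝ) ^ (ε / 4) * (N : ℝ) ^ (ε / 4) * (N : ℝ) ^ (ε / 4) * (N : ℝ) ^ (ε / 4) := by
    rw [← Real.rpow_add (by exact_mod_cast hN0), ← Real.rpow_add (by exact_mod_cast hN0), ← Real.rpow_add (by exact_mod_cast hN0)]
    congr 1
    ring
  have r2 : (N : ℝ) ^ (κ / 2) + 1 ≤ (N : ℝ) ^ κ := by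
    rw [q2]
    nlinarith
  have r3 : 2 * Real.exp (-(N : ℝ) ^ a) ≤ Real.exp (-(N : ℝ) ^ (a / 2)) := by
    have t1 : (N : ℝ) ^ (a / 2) + 1 ≤ (N : ℝ) ^ a := by
      rw [q3]
      nlinarith
    have t2 : Real.exp (-(N : ℝ) ^ a) ≤ Real.exp (-(N : ℝ) ^ (a / 2) + -1) := Real.exp_le_exp.2 (by linarith)
    rw [Real.exp_add] at t2
    have t3 : 2 * Real.exp (-1) ≤ 1 := by
      have t4 : (2 : ℝ) ≤ Real.exp 1 := by linarith [Real.add_one_le_exp (1 : ℝ)]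
      rw [Real.exp_neg]
      have t5 : (Real.exp 1)⁻¹ ≤ 2⁻¹ := inv_anti₀ (by norm_num) t4
      linarith
    have t6 := mul_le_mul_of_nonneg_left t3 (Real.exp_pos (-(N : ℝ) ^ (a / 2))).le
    nlinarith
  have r3' : Real.exp (-(N : ℝ) ^ a) ≤ Real.exp (-(N : ℝ) ^ (a / 2)) := by linarith [Real.exp_pos (-(N : ℝ) ^ a)]
  have r5 : 2 * Real.exp (-(M + 1)) ≤ Real.exp (-M) := by
    have t2 : Real.exp (-(M + 1)) = Real.exp (-M) * Real.exp (-1) := by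
      rw [← Real.exp_add]
      congr 1
      ring
    have t3 : 2 * Real.exp (-1) ≤ 1 := by
      have t4 : (2 : ℝ) ≤ Real.exp 1 := by linarith [Real.add_one_le_exp (1 : ℝ)]
      rw [Real.exp_neg]
      have t5 : (Real.exp 1)⁻¹ ≤ 2⁻¹ := inv_anti₀ (by norm_num) t4
      linarith
    have t6 := mul_le_mul_of_nonneg_left t3 (Real.exp_pos (-M)).le
    rw [t2]
    nlinarith
  -- the units
  have hE : 1 ≤ EE μ s e := one_le_EE e
  have hE' : 1 ≤ EE μ s (i' - i) := one_le_EE (i' - i)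
  have x1 : 0 ≤ (N : ℝ) ^ (ε / 4) := by linarith
  -- the factors
  have hX0 : (0 : ℝ) ≤ (N : ℝ) ^ κ := Real.rpow_nonneg hNr _
  have hXX : (N : ℝ) ^ (κ / 2) ≤ (N : ℝ) ^ κ := by linarith
  obtain ⟨in1, in2⟩ := in86 (σ := σ) g0 j
  obtain ⟨G₁, hG₁⟩ : ∃ G₁ : Env × Finset ℕ → Px (Pn N y) → ℝ, G₁ = fun ω x => cE (wm μ s N (Pn N y) ω) (pB (m * σ) j) (Cl b σ j r x) x :=
    ⟨_, rfl⟩
  obtain ⟨F, hF⟩ : ∃ F : Env × Finset ℕ → Px (Pn N y) → ℝ, F = fun ω x => cE2 (wm μ s N (Pn N y) ω) (pB (m * σ) k) (NA b σ j k) x x :=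
    ⟨_, rfl⟩
  have hKc : ∀ x x' : Px (Pn N y), Cl b σ j r x x' ≤ NI (if r then z73 b j e r else z73 b j e r - e) (if r then z73 b j e r + e else z73 b j e r)
      x x' := by
    intro x x'
    obtain ⟨c1, c2⟩ := cl_le86 (Q := Pn N y) (b := b) (σ := σ) (j := j) (e := e) g1 g2 x x'
    cases r
    · exact c2
    · exact c1
  have f1 : Fac μ s N y ((N : ℝ) ^ κ) (M + 1) (j / (m * σ) * (m * σ)) (j / (m * σ) * (m * σ) + m * σ)
      (if r then z73 b j e r else z73 b j e r - e) (if r then z73 b j e r + e else z73 b j e r) G₁ := by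
    rw [hG₁]
    exact facOwn hX0 (Cl_nonneg b σ j r) (Cl_le_one b σ j r) hKc
  have f2 := gG.mono86 hXX (show M ≤ M + 1 by linarith)
  have bF : ∀ ω x, 0 ≤ F ω x ∧ F ω x ≤ 1 := by
    intro ω x
    rw [hF]
    exact ⟨cE2_nonneg _ _ (NA_nonneg b σ j k) x x, cE2_le_one _ _ (NA_le_one b σ j k) x x⟩
  have mw : ∀ x, Measurable fun ω => wm μ s N (Pn N y) ω x := fun x => meas_wm x
  have m1 : ∀ x, Measurable fun ω => G₁ ω x := by
    intro x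
    rw [hG₁]
    exact meas_cE mw (f := fun _ => Cl b σ j r x) (fun _ => measurable_const) _ x
  have mp : ∀ (K : Px (Pn N y) → Px (Pn N y) → ℝ) (x : Px (Pn N y)),
      Measurable fun ω => cE2 (wm μ s N (Pn N y) ω) (pB (m * σ) k) K x x := fun K x =>
    meas_cE mw (f := fun ω z => cE (wm μ s N (Pn N y) ω) (pB (m * σ) k) (K z) x)
      (fun z => meas_cE mw (f := fun _ => K z) (fun _ => measurable_const) _ x) _ x
  have mF : ∀ x, Measurable fun ω => F ω x := by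
    intro x
    rw [hF]
    exact mp _ x
  have geo' : if r then j / (m * σ) * (m * σ) ≤ z73 b j e r ∧ z73 b j e r + e ≤ j / (m * σ) * (m * σ) + m * σ ∧ i' ≤ z73 b j e r
      else z73 b j e r ≤ j / (m * σ) * (m * σ) + m * σ ∧ j / (m * σ) * (m * σ) + e ≤ z73 b j e r ∧ z73 b j e r ≤ i := by
    unfold z73
    cases r
    · simp only [Bool.false_eq_true, if_false] at g6 ⊢
      omega
    · simp only [if_true] at g6 ⊢
      omega
  have hi'N : i' ≤ N := by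
    cases r
    · simp only [Bool.false_eq_true, if_false] at g6
      omega
    · simp only [if_true] at g6
      omega
  obtain ⟨P2, P3⟩ := hP N (by omega) y hyN hyc (M + 1) (by linarith) (by linarith) _ _ (z73 b j e r) e i i' r he hi g5 hi'N g3 geo' G₁ G f1 f2
  have eqI : (fun ω : Env × Finset ℕ => gm (wm μ s N (Pn N y) ω) (fun x => G ω x * (cE (wm μ s N (Pn N y) ω) (pB (m * σ) j)
      (Cl b σ j r x) x * cE2 (wm μ s N (Pn N y) ω) (pB (m * σ) k) (NA b σ j k) x x))) =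
      fun ω => gm (wm μ s N (Pn N y) ω) (fun x => G₁ ω x * G ω x * F ω x) := by
    funext ω
    congr 1
    funext x
    rw [hG₁, hF]
    ring
  rw [eqI]
  simp only [EE'_eq46] at P2 P3
  constructor
  · -- the factor of the other row is at most one
    have k1 : ∫ ω, gm (wm μ s N (Pn N y) ω) (fun x => G₁ ω x * G ω x * F ω x) ∂(Pm μ N) ≤
        ∫ ω, gm (wm μ s N (Pn N y) ω) (fun x => G₁ ω x * G ω x) ∂(Pm μ N) := by
      have p0 : ∀ ω x, 0 ≤ G₁ ω x * G ω x := fun ω x => mul_nonneg (f1.1 ω x).1 (f2.1 ω x).1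
      have p1 : ∀ ω x, G₁ ω x * G ω x ≤ 1 := fun ω x => mul_le_one₀ (f1.1 ω x).2 (f2.1 ω x).1 (f2.1 ω x).2
      refine integral_mono (int_bdd (M := 1) (meas_gm mw fun x => ((m1 x).mul (mG x)).mul (mF x)) fun ω => ?_)
        (int_bdd (M := 1) (meas_gm mw fun x => (m1 x).mul (mG x)) fun ω => ?_) fun ω => ?_
      · rw [abs_of_nonneg (gm_nonneg _ fun x => mul_nonneg (p0 ω x) (bF ω x).1)]
        exact (gm_mono _ fun x => mul_le_one₀ (p1 ω x) (bF ω x).1 (bF ω x).2).trans_eq (gm_const _ 1)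
      · rw [abs_of_nonneg (gm_nonneg _ (p0 ω))]
        exact (gm_mono _ (p1 ω)).trans_eq (gm_const _ 1)
      · exact gm_mono _ fun x => mul_le_of_le_one_right (p0 ω x) (bF ω x).2
    refine k1.trans (P2.trans (add_le_add ?_ (by linarith [Real.exp_pos (-M), Real.exp_pos (-(M + 1))])))
    have i0 : (N : ℝ) ^ ε / (EE μ s e * EE μ s (i' - i)) = (N : ℝ) ^ ε * ((EE μ s e)⁻¹ * (EE μ s (i' - i))⁻¹) := by
      rw [div_eq_mul_inv, mul_inv]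
    rw [i0]
    have i1 : 0 ≤ (EE μ s e)⁻¹ * (EE μ s (i' - i))⁻¹ := by positivity
    have i2 : (N : ℝ) ^ (ε / 4) * (N : ℝ) ^ (ε / 4) ≤ (N : ℝ) ^ ε := by
      rw [q4]
      have i3 : 0 ≤ (N : ℝ) ^ (ε / 4) * (N : ℝ) ^ (ε / 4) := mul_nonneg x1 x1
      have i4 : 1 ≤ (N : ℝ) ^ (ε / 4) * (N : ℝ) ^ (ε / 4) := by nlinarith
      nlinarith
    have i5 := mul_le_mul_of_nonneg_right i2 i1
    nlinarith
  · intro g7 g8 g9 hjk
    have ff : ∀ v : ℕ, Fac μ s N y ((N : ℝ) ^ κ) (M + 1) (k / (m * σ) * (m * σ)) (k / (m * σ) * (m * σ) + m * σ) v (v + e)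
        (fun ω x => cE2 (wm μ s N (Pn N y) ω) (pB (m * σ) k) (NI v (v + e)) x x) := fun v =>
      facPair (fun x x' => NI_nonneg _ _ x x') (fun x x' => ni_le_one86 _ _ x x') fun x x' => le_rfl
    obtain ⟨kn1, kn2⟩ := in86 (σ := σ) g0 k
    have hord : if r then j / (m * σ) * (m * σ) + m * σ ≤ k / (m * σ) * (m * σ) ∨ k / (m * σ) * (m * σ) + m * σ ≤ i
        else k / (m * σ) * (m * σ) + m * σ ≤ j / (m * σ) * (m * σ) ∨ i' ≤ k / (m * σ) * (m * σ) := by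
      rcases blkm86 hjk with g | g
      · cases r
        · simp only [Bool.false_eq_true, if_false] at g6 ⊢
          omega
        · simp only [if_true] at g6 ⊢
          omega
      · cases r
        · simp only [Bool.false_eq_true, if_false] at g6 ⊢
          omega
        · simp only [if_true] at g6 ⊢
          omega
    have Pa := P3 _ _ (k / σ * σ) _ kn1 (by omega) g9 hord (ff _)
    have Pb := P3 _ _ (k + b) _ (by omega) (by omega) g9 hord (ff _)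
    have sp := int_split86 (μ := μ) (s := s) hyN (F := F) m1 mG mF (mp (NI (k / σ * σ) (k / σ * σ + e))) (mp (NI (k + b) (k + b + e))) f1.1 f2.1 bF
      (ff _).1 (ff _).1 (fun ω x => by
        rw [hF]
        show cE2 _ _ _ x x ≤ _
        refine (cE2_mono _ _ (fun z z' => na_le86 hjk g1 g2 g7 g8 z z') x x).trans (le_of_eq ?_)
        exact cE2_add _ _ (NI (k / σ * σ) (k / σ * σ + e)) (NI (k + b) (k + b + e)) x x)
    refine sp.trans ((add_le_add Pa Pb).trans ?_)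
    have i1 : 0 ≤ (EE μ s e)⁻¹ * (EE μ s (i' - i))⁻¹ * (EE μ s e)⁻¹ := by positivity
    have i2 : 2 * ((N : ℝ) ^ (ε / 4) * (N : ℝ) ^ (ε / 4) * (N : ℝ) ^ (ε / 4)) ≤ (N : ℝ) ^ ε := by
      rw [q4]
      have i3 : 0 ≤ (N : ℝ) ^ (ε / 4) * (N : ℝ) ^ (ε / 4) * (N : ℝ) ^ (ε / 4) := mul_nonneg (mul_nonneg x1 x1) x1
      nlinarith
    have i5 := mul_le_mul_of_nonneg_right i2 i1
    have i6 : (N : ℝ) ^ ε / (EE μ s e ^ 2 * EE μ s (i' - i)) = (N : ℝ) ^ ε * ((EE μ s e)⁻¹ * (EE μ s (i' - i))⁻¹ * (EE μ s e)⁻¹) := by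
      rw [div_eq_mul_inv, mul_inv, pow_two, mul_inv]
      ring
    rw [i6]
    nlinarith

theorem mtau86 {y : ℕ} {Y : Type*} [DecidableEq Y] (p : Px (Pn N y) → Y) (i i' : ℕ) (M : ℝ) (x : Px (Pn N y)) :
    open Classical in
    Measurable fun ω : Env × Finset ℕ => if Tau (wm μ s N (Pn N y) ω) p i i' M x then (1 : ℝ) else 0 := by
  classical
  refine Measurable.ite ?_ measurable_const measurable_const
  exact measurableSet_le measurable_const (meas_cE meas_wm (f := fun ω z => cE (wm μ s N (Pn N y) ω) p (NI i i' z) x)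
    (fun z => meas_cE meas_wm (f := fun _ => NI i i' z) (fun _ => measurable_const) p x) p x)

theorem mmI86 {y : ℕ} {Y : Type*} [DecidableEq Y] (p : Px (Pn N y) → Y) (i i' : ℕ) (ρ : ℝ) (x : Px (Pn N y)) :
    open Classical in
    Measurable fun ω : Env × Finset ℕ => if ρ ≤ mI (wm μ s N (Pn N y) ω) p i i' x then (1 : ℝ) else 0 := by
  classical
  refine Measurable.ite ?_ measurable_const measurable_const
  exact measurableSet_le measurable_const (meas_cE meas_wm (f := fun _ => NI i i' x) (fun _ => measurable_const) p x)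

theorem avy_le86 {ys : Finset ℕ} (hne : ys.Nonempty) {Φ : ℕ → ℝ} {E : ℝ} (h : ∀ y ∈ ys, Φ y ≤ E) : avy ys Φ ≤ E := by
  have h1 := avy_mono (ys := ys) (Φ := Φ) (Ψ := fun _ => E) h
  rwa [avy_const hne] at h1

/-- **THE PRICE OF `IF1`.** -/
theorem if1_86 (h : In μ s c₀ C₀ n₀) : ∀ ε θ : ℝ, 0 < ε → 0 < θ → ∃ δ κ c₂ : ℝ, 0 < δ ∧ 0 < κ ∧ 0 < c₂ ∧ ∃ N₀ : ℕ,
    ∀ N : ℕ, N₀ ≤ N → ∀ ys : Finset ℕ, ys.Nonempty → (∀ y ∈ ys, y ≤ N ∧ |(y : ℝ) - sl μ s * N| ≤ (N : ℝ) ^ δ * wd' μ s N) →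
    ∀ M : ℝ, 8 ≤ M → M ≤ (N : ℝ) ^ κ →
    ∀ (dl B : ℝ) (b σ m j k e i i' : ℕ) (r : Bool), GeoJ N b σ m j e i i' r → (N : ℝ) ^ θ ≤ e → (N : ℝ) ^ θ ≤ ((i' - i : ℕ) : ℝ) →
    (IF1 μ s N ys dl B b σ m j k (z73 b j e r) r false i i' M ≤
      (N : ℝ) ^ ε / (EE μ s e * EE μ s (i' - i)) + (Real.exp (-(N : ℝ) ^ c₂) + 6 * Real.exp (-M))) ∧
    (k / σ * σ + (3 * b + 2 * e) ≤ k → k + (3 * b + 2 * e) ≤ k / σ * σ + σ → k / (m * σ) * (m * σ) + m * σ ≤ N →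
      j / (m * σ) ≠ k / (m * σ) →
      IF1 μ s N ys dl B b σ m j k (z73 b j e r) r false i i' M ≤
        (N : ℝ) ^ ε / (EE μ s e ^ 2 * EE μ s (i' - i)) + (Real.exp (-(N : ℝ) ^ c₂) + 6 * Real.exp (-M))) := by
  classical
  intro ε θ hε hθ
  obtain ⟨δ, κ, c₂, hδ, hκ, hc, N₀, hP⟩ := core86 h ε θ hε hθ
  refine ⟨δ, κ, c₂, hδ, hκ, hc, N₀, ?_⟩
  intro N hN ys hne hys M hM hML dl B b σ m j k e i i' r geo he hi
  have key := fun y (hy : y ∈ ys) => hP N hN y (hys y hy).1 (hys y hy).2 M hM hML b σ m j k e i i' r geo he hi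
    (fun ω x => if Tau (wm μ s N (Pn N y) ω) (qz73 N (z73 b j e r) r) i i' M x then 1 else 0)
    (fun x => mtau86 (qz73 N (z73 b j e r) r) i i' M x) (by
      cases r
      · exact facTau
      · exact facTau)
  exact ⟨avy_le86 hne fun y hy => (key y hy).1, fun k1 k2 k3 k4 => avy_le86 hne fun y hy => (key y hy).2 k1 k2 k3 k4⟩

/-- **THE PRICE OF `IF2`.** -/
theorem if2_86 (h : In μ s c₀ C₀ n₀) : ∀ ε θ : ℝ, 0 < ε → 0 < θ → ∃ δ κ c₂ : ℝ, 0 < δ ∧ 0 < κ ∧ 0 < c₂ ∧ ∃ N₀ : ℕ,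
    ∀ N : ℕ, N₀ ≤ N → ∀ ys : Finset ℕ, ys.Nonempty → (∀ y ∈ ys, y ≤ N ∧ |(y : ℝ) - sl μ s * N| ≤ (N : ℝ) ^ δ * wd' μ s N) →
    ∀ M : ℝ, 8 ≤ M → M ≤ (N : ℝ) ^ κ → ∀ ρ : ℝ, Real.exp (-(N : ℝ) ^ κ) ≤ ρ →
    ∀ (dl B : ℝ) (b σ m j k e i i' : ℕ) (r : Bool), GeoJ N b σ m j e i i' r → (N : ℝ) ^ θ ≤ e → (N : ℝ) ^ θ ≤ ((i' - i : ℕ) : ℝ) →
    (IF2 μ s N ys dl B b σ m j k (z73 b j e r) r false i i' ρ ≤
      (N : ℝ) ^ ε / (EE μ s e * EE μ s (i' - i)) + (Real.exp (-(N : ℝ) ^ c₂) + 6 * Real.exp (-M))) ∧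
    (k / σ * σ + (3 * b + 2 * e) ≤ k → k + (3 * b + 2 * e) ≤ k / σ * σ + σ → k / (m * σ) * (m * σ) + m * σ ≤ N →
      j / (m * σ) ≠ k / (m * σ) →
      IF2 μ s N ys dl B b σ m j k (z73 b j e r) r false i i' ρ ≤
        (N : ℝ) ^ ε / (EE μ s e ^ 2 * EE μ s (i' - i)) + (Real.exp (-(N : ℝ) ^ c₂) + 6 * Real.exp (-M))) := by
  classical
  intro ε θ hε hθ
  obtain ⟨δ, κ, c₂, hδ, hκ, hc, N₀, hP⟩ := core86 h ε θ hε hθ
  refine ⟨δ, κ, c₂, hδ, hκ, hc, N₀, ?_⟩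
  intro N hN ys hne hys M hM hML ρ hρ dl B b σ m j k e i i' r geo he hi
  have key := fun y (hy : y ∈ ys) => hP N hN y (hys y hy).1 (hys y hy).2 M hM hML b σ m j k e i i' r geo he hi
    (fun ω x => if ρ ≤ mI (wm μ s N (Pn N y) ω) (qz73 N (z73 b j e r) r) i i' x then 1 else 0)
    (fun x => mmI86 (qz73 N (z73 b j e r) r) i i' ρ x) (by
      cases r
      · exact facMI hρ
      · exact facMI hρ)
  exact ⟨avy_le86 hne fun y hy => (key y hy).1, fun k1 k2 k3 k4 => avy_le86 hne fun y hy => (key y hy).2 k1 k2 k3 k4⟩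

end Both

end Pool.Agent.W_7d29a1_C0.P86
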