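import Pool.Agent.W_7d29a1_C0.FlipX61

/-!
CURV0 (MP_7d29a1_pr), GS IN ONE KICK, THE LAW FORM (helper61): `sand_law` = the law invariance between two functionals with a covariant
functional between them; `law_U` = the mean of `own mass of (cls * 1[q < mass of third paths])` times the mass of the row `k`.
-/

set_option autoImplicit false
set_option linter.unusedSectionVars false
set_option linter.unusedVariables false

namespace Pool.Agent.W_7d29a1_C0.Flip61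

open Pool.Agent.W_7d29a1_F hiding W_pos W_nonneg W_add
open Finset MeasureTheory Pool.Agent.W_7d29a1_X Pool.Agent.W_7d29a1_HZ
open Pool.Agent.W_7d29a1_Z74
open Pool.Agent.W_7d29a1_HZ.Z74
open Pool.Agent.W_7d29a1_C0.Mod92
open Pool.Agent.W_7d29a1_C0.Blk18
open Pool.Agent.W_7d29a1_C0.Pin18
open Pool.W7d29a1.C0 (gz gm gz_pos gz_ne gm_const gm_mono gm_nonneg gm_sub)
open Pool.W7d29a1.C0.VT31 (Mp Crs cE cV cC gc gv cE_nonneg cE_mono)
open Pool.Agent.W_7d29a1_C0.Swap57 (cE2 NI NI_nonneg Eqp)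

noncomputable section

variable {μ : Measure ℝ} {s : ℝ} {N b j : ℕ}

section Law

variable [IsProbabilityMeasure μ] {δ B : ℝ} {y₀ m : ℕ} {θ ε : ℝ}

/-- **The law invariance with a covariant functional in between.** -/
theorem Rep.sand_law (hb : 0 < b) (hj : j + b ≤ N) {R : (y : ℕ) → Env × Finset ℕ → (Px (Pn N y) → ℝ) → (ℕ → Px (Pn N y)) → ℝ}
    {M L K : ℝ} (hR : Rep μ s N δ B b j 1 R M L) {A A' : (y : ℕ) → Env × Finset ℕ → Px (Pn N y) → ℝ} (A0 : ∀ y ω x, 0 ≤ A y ω x)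
    (h1 : ∀ y ω x, A y ω x ≤ R y ω (wt μ s ω.1 N (Pn N y) δ B b j (sg ω.2 j) (-(sg ω.2 j : ℝ))) fun _ => x)
    (h2 : ∀ y ω x, R y ω (wm μ s N (Pn N y) ω) (fun _ => x) ≤ A' y ω x) (mA : ∀ y x, Measurable fun ω => A' y ω x)
    (bA : ∀ y ω x, |A' y ω x| ≤ K) (hy : 1 ≤ y₀) (hm : 1 ≤ m) (hyN : y₀ + m ≤ N) (hE : FErr2 μ s N δ B b j y₀ m θ ε) :
    avy (Ico y₀ (y₀ + m)) (fun y => ∫ ω, gm (wt μ s ω.1 N (Pn N y) δ B b j (sg ω.2 j) (-(sg ω.2 j : ℝ))) (A y ω) ∂(Pm μ N)) ≤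
      avy (Ico y₀ (y₀ + m)) (fun y => ∫ ω, gm (wm μ s N (Pn N y) ω) (A' y ω) ∂(Pm μ N)) +
      (2 * M / m + (3 * (L + 2 * M) * θ + 4 * M * ε)) := by
  obtain ⟨i1, i2, key⟩ := hR.law hb hj hy hm hyN hE
  have k1 : ∀ y ∈ Ico y₀ (y₀ + m), ∫ ω, gm (wt μ s ω.1 N (Pn N y) δ B b j (sg ω.2 j) (-(sg ω.2 j : ℝ))) (A y ω) ∂(Pm μ N) ≤
      ∫ ω, gm (wt μ s ω.1 N (Pn N y) δ B b j (sg ω.2 j) (-(sg ω.2 j : ℝ))) (fun x =>
        R y ω (wt μ s ω.1 N (Pn N y) δ B b j (sg ω.2 j) (-(sg ω.2 j : ℝ))) fun _ => x) ∂(Pm μ N) := by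
    intro y hy'
    have n1 : Nonempty (Px (Pn N y)) := ne_Pn (by
      rw [mem_Ico] at hy'
      omega)
    exact integral_mono_of_nonneg (Filter.Eventually.of_forall fun ω => gm_nonneg _ fun x => A0 _ _ _) (i2 y)
      (Filter.Eventually.of_forall fun ω => gm_mono _ fun x => h1 y ω x)
  have k2 : ∀ y ∈ Ico y₀ (y₀ + m), ∫ ω, gm (wm μ s N (Pn N y) ω) (fun x => R y ω (wm μ s N (Pn N y) ω) fun _ => x) ∂(Pm μ N) ≤
      ∫ ω, gm (wm μ s N (Pn N y) ω) (A' y ω) ∂(Pm μ N) := by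
    intro y hy'
    have n1 : Nonempty (Px (Pn N y)) := ne_Pn (by
      rw [mem_Ico] at hy'
      omega)
    exact integral_mono (i1 y) (int_bdd (meas_gm meas_wm fun x => mA y x) (M := K) fun ω => Ex.gm_bdd _ fun x => bA y ω x)
      fun ω => gm_mono _ fun x => h2 y ω x
  have a1 := mul_le_mul_of_nonneg_left (sum_le_sum k1) (show (0 : ℝ) ≤ ((Ico y₀ (y₀ + m)).card : ℝ)⁻¹ by positivity)
  have a2 := mul_le_mul_of_nonneg_left (sum_le_sum k2) (show (0 : ℝ) ≤ ((Ico y₀ (y₀ + m)).card : ℝ)⁻¹ by positivity)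
  have a3 := (abs_le.1 key).1
  unfold avy at a3 ⊢
  linarith

open Classical in
/-- **(LU)** The mean of the own mass of `cls * 1[q < mass of third paths]` times the mass of a pair kernel of the row `k`. -/
theorem law_U (hb : 0 < b) (hj : j + b ≤ N) {cls NMA K : (y : ℕ) → Px (Pn N y) → Px (Pn N y) → ℝ}
    (h1 : CovM N b j (fun y _ ρ => cls y (ρ 0) (ρ 1)) 1) (h2 : CovM N b j (fun y _ ρ => NMA y (ρ 0) (ρ 1)) 1)
    (hK : CovM N b j (fun y _ ρ => K y (ρ 0) (ρ 1)) 1) (c0 : ∀ y S S', 0 ≤ cls y S S') (n0 : ∀ y S S', 0 ≤ NMA y S S')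
    {c' d' ck dk : ℕ} (hc : c' ≤ j - b) (hd : j + b ≤ d') (hk : ck ≤ dk) (hkN : dk ≤ N)
    (hW : (ck ≤ j - b ∧ j + b ≤ dk) ∨ dk ≤ j - b ∨ j + b ≤ ck) {q : ℝ} (hq : 0 < q) (hy : 1 ≤ y₀) (hm : 1 ≤ m) (hyN : y₀ + m ≤ N)
    (hE : FErr2 μ s N δ B b j y₀ m θ ε) :
    avy (Ico y₀ (y₀ + m)) (fun y => ∫ ω, gm (wt μ s ω.1 N (Pn N y) δ B b j (sg ω.2 j) (-(sg ω.2 j : ℝ))) (fun x =>
        cE (wt μ s ω.1 N (Pn N y) δ B b j (sg ω.2 j) (-(sg ω.2 j : ℝ))) (pJ c' d') (fun z => cls y x z *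
          (if q < gm (wt μ s ω.1 N (Pn N y) δ B b j (sg ω.2 j) (-(sg ω.2 j : ℝ))) (fun t => K y x t * K y z t) then 1 else 0)) x *
          cE2 (wt μ s ω.1 N (Pn N y) δ B b j (sg ω.2 j) (-(sg ω.2 j : ℝ))) (pJ ck dk) (NMA y) x x) ∂(Pm μ N)) ≤
      avy (Ico y₀ (y₀ + m)) (fun y => ∫ ω, gm (wm μ s N (Pn N y) ω) (fun x =>
        cE (wm μ s N (Pn N y) ω) (pJ c' d') (fun z => cls y x z *
          (if q / 2 < gm (wm μ s N (Pn N y) ω) (fun t => K y x t * K y z t) then 1 else 0)) x *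
          cE2 (wm μ s N (Pn N y) ω) (pJ ck dk) (NMA y) x x) ∂(Pm μ N)) +
      (2 / m + (3 * (4 / q + 8) * θ + 4 * ε)) := by
  have k1 : Rep μ s N δ B b j 3 (fun y ω _ ρ => K y (ρ 2) (ρ 0)) 1 0 := Rep.fn (CovM.swap (K := fun y _ => K y) hK 2 0)
  have k2 : Rep μ s N δ B b j 3 (fun y ω _ ρ => K y (ρ 1) (ρ 0)) 1 0 := Rep.fn (CovM.swap (K := fun y _ => K y) hK 1 0)
  have k3 : Rep μ s N δ B b j 2 (fun y ω w ρ => gm w fun t => K y (ρ 1) t * K y (ρ 0) t) (1 * 1) ((1 * 0 + 1 * 0) + 1 * 1) :=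
    (k1.mul k2).me
  have k4 : Rep μ s N δ B b j 2 (fun y ω _ ρ => cls y (ρ 1) (ρ 0)) 1 0 := Rep.fn (CovM.swap (K := fun y _ => cls y) h1 1 0)
  have k5 : Rep μ s N δ B b j 1 (fun y ω w ρ => cE w (pJ c' d') (fun z => cls y (ρ 0) z *
      (ramp q hq).f (gm w fun t => K y (ρ 0) t * K y z t)) (ρ 0)) (1 * 1) (1 * 0 + 1 * (2 / q * ((1 * 0 + 1 * 0) + 1 * 1)) + 2 * (1 * 1)) :=
    Rep.ce hc hd zero_lt_one (k4.mul (Rep.lf (ramp q hq) k3))
  have k6 : Rep μ s N δ B b j 1 (fun y _ w ρ => cE2 w (pJ ck dk) (NMA y) (ρ 0) (ρ 0)) 1 (4 * 1) :=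
    Rep.cE2' (K := fun y _ => NMA y) h2 hk hkN hW zero_lt_one zero_lt_one
  have kk := (k5.mul k6)
  have c1 : ∀ y (S S' : Px (Pn N y)), |cls y S S'| ≤ 1 := fun y S S' => h1.bdd y ((0 : Env), ∅) fun n => if n = 0 then S else S'
  have n1' : ∀ y (S S' : Px (Pn N y)), |NMA y S S'| ≤ 1 := fun y S S' => h2.bdd y ((0 : Env), ∅) fun n => if n = 0 then S else S'
  have KK := Rep.sand_law hb hj kk (K := 1)
    (A := fun y ω x =>
        cE (wt μ s ω.1 N (Pn N y) δ B b j (sg ω.2 j) (-(sg ω.2 j : ℝ))) (pJ c' d') (fun z => cls y x z *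
          (if q < gm (wt μ s ω.1 N (Pn N y) δ B b j (sg ω.2 j) (-(sg ω.2 j : ℝ))) (fun t => K y x t * K y z t) then 1 else 0)) x *
          cE2 (wt μ s ω.1 N (Pn N y) δ B b j (sg ω.2 j) (-(sg ω.2 j : ℝ))) (pJ ck dk) (NMA y) x x)
    (A' := fun y ω x =>
        cE (wm μ s N (Pn N y) ω) (pJ c' d') (fun z => cls y x z *
          (if q / 2 < gm (wm μ s N (Pn N y) ω) (fun t => K y x t * K y z t) then 1 else 0)) x *
          cE2 (wm μ s N (Pn N y) ω) (pJ ck dk) (NMA y) x x)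
    (fun y ω x => by
      have n1 : Nonempty (Px (Pn N y)) := ⟨x⟩
      exact mul_nonneg (cE_nonneg _ _ (fun z => mul_nonneg (c0 _ _ _) (by split_ifs <;> norm_num)) _)
        (Swap57.cE2_nonneg _ _ (n0 y) _ _))
    (fun y ω x => by
      have n1 : Nonempty (Px (Pn N y)) := ⟨x⟩
      refine mul_le_mul_of_nonneg_right (cE_mono _ _ (fun z => mul_le_mul_of_nonneg_left
        (ind_le_ramp hq fun h => le_of_lt h) (c0 _ _ _)) x) (Swap57.cE2_nonneg _ _ (n0 y) _ _))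
    (fun y ω x => by
      have n1 : Nonempty (Px (Pn N y)) := ⟨x⟩
      refine mul_le_mul_of_nonneg_right (cE_mono _ _ (fun z => mul_le_mul_of_nonneg_left
        (ramp_le_ind hq fun h => h) (c0 _ _ _)) x) (Swap57.cE2_nonneg _ _ (n0 y) _ _))
    (fun y x => by
      have n1 : Nonempty (Px (Pn N y)) := ⟨x⟩
      have m3 : ∀ z, Measurable fun ω => gm (wm μ s N (Pn N y) ω) (fun t => K y x t * K y z t) := fun z =>
        k3.meas y fun n => if n = 1 then x else z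
      exact (meas_cE meas_wm (fun z => (meas_if_lt (m3 z) _).const_mul _) (pJ c' d') x).mul (k6.meas y fun _ => x))
    (fun y ω x => by
      have n1 : Nonempty (Px (Pn N y)) := ⟨x⟩
      rw [abs_mul]
      refine mul_le_one₀ (abs_cE_le _ _ (fun z => ?_) _) (abs_nonneg _) ?_
      · rw [abs_mul]
        refine mul_le_one₀ (c1 _ _ _) (abs_nonneg _) ?_
        split_ifs <;> simp
      · rw [abs_of_nonneg (Swap57.cE2_nonneg _ _ (n0 y) _ _)]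
        exact Swap57.cE2_le_one _ _ (fun z z' => (le_abs_self _).trans (n1' y z z')) _ _)
    hy hm hyN hE
  refine KK.trans (add_le_add_right ?_ _)
  have hθ : 0 ≤ θ := hE.1
  have e1 : (ramp q hq).M = 1 := rfl
  have e2 : 2 / q ≤ 4 / q := div_le_div_of_nonneg_right (by norm_num) hq.le
  nlinarith [mul_le_mul_of_nonneg_right e2 hθ]

end Law

end

end Pool.Agent.W_7d29a1_C0.Flip61
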