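import Pool.Agent.W_7d29a1_C0.GSG52
import Pool.Agent.W_7d29a1_C0.FarE34

/-!
CURV0 (MP_7d29a1_pr), GS IN ONE KICK, ONE ROW IN THE FORM OF ALL ESTIMATES (helper52). `Rd52`: the radius of the boxes, `A52`: the level.
`RbL52`: the bad boxes at the concrete frame, `NumL52`: the numbers. **`rowL52`**: `RowL52` (one row at the concrete frame) from them.
-/

set_option autoImplicit false
set_option linter.unusedSectionVars false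
set_option linter.unusedVariables false

namespace Pool.W7d29a1.C0.GSH52

open Finset MeasureTheory Filter Topology Pool.Agent.W_7d29a1_F Pool.Agent.W_7d29a1_X
open Pool.Agent.W_7d29a1_H (sl EE EE_pos EE_mono one_le_EE)
open Pool.Agent.W_7d29a1_HS (In)
open Pool.Agent.W_7d29a1_C0 Pool.Agent.W_7d29a1_C0.Mod92 Pool.Agent.W_7d29a1_C0.Frm33
open Pool.W7d29a1.C0 Pool.W7d29a1.C0.VT31
open Pool.Agent.W_7d29a1_C0.Q32 (WL)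
open Pool.Agent.W_7d29a1_C0.Par92 (Sml Est)
open Pool.Agent.W_7d29a1_C0.Far34 (vv)
open Pool.W7d29a1.C0.GSF52 (RowM)
open Pool.W7d29a1.C0.GSG52 (NumG RbM rowM52)

noncomputable section

variable {μ : Measure ℝ} {s : ℝ}

/-- The radius of the boxes. -/
def Rd52 (μ : Measure ℝ) (s : ℝ) (K : ℕ) (ι : ℝ) (m p : ℕ) : ℝ := 3 * vv μ s (L33 K m) (ι / K) (2 ^ p)

/-- The level of the masses. -/
def A52 (β : ℝ) (m : ℕ) : ℝ := ((2 ^ m : ℕ) : ℝ) ^ (2 * β)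

/-- **The bad boxes at the concrete frame.** -/
def RbL52 (μ : Measure ℝ) (s : ℝ) (K : ℕ) (Θ : ℝ) : Prop := Sml fun δ => Sml fun c => ∀ η : ℝ, 0 < η → η ≤ c / 64 → ∃ C : ℝ,
  Est fun ι β γ m => RbM μ s (frm33 μ s K ι β γ) (EE μ s) Θ δ c η (C * ι) (Rd52 μ s K ι) (A52 β) m

/-- **The numbers of one row at the concrete frame**, for a law in the class `WL` with the constants `C`, `θ`. -/
def NumL52 (μ : Measure ℝ) (s : ℝ) (K : ℕ) (C θ : ℝ) : Prop := Sml fun δ => ∃ C' : ℝ, Sml fun ι => Sml fun β => ∀ c' : ℝ, 0 < c' →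
  ∀ᶠ m : ℕ in atTop, ∀ p : ℕ, δ * m ≤ p → p ≤ m → Nonempty (NumG C θ (L33 K m) (2 ^ m) (2 ^ p) (M33 m) (B33 β m) (EE μ s (2 ^ p))
    (((2 ^ m : ℕ) : ℝ) ^ (C' * ι)) (Real.exp (-(L33 K m : ℝ) ^ c')) (Rd52 μ s K ι m p) (A52 β m))

/-- **One row at the concrete frame.** -/
def RowL52 (μ : Measure ℝ) (s : ℝ) (K : ℕ) (Θ : ℝ) : Prop := Sml fun δ => Sml fun c => ∀ η : ℝ, 0 < η → η ≤ c / 64 → ∃ C : ℝ,
  Est fun ι β γ m => RowM μ s (frm33 μ s K ι β γ) (EE μ s) Θ δ c η (C * ι) m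

/-- A larger loss. -/
def NumG.monoX {C θ : ℝ} {N n b M : ℕ} {B Eb X X' ep R A : ℝ} (g : NumG C θ N n b M B Eb X ep R A) (hE : 0 < Eb) (h : X ≤ X') :
    NumG C θ N n b M B Eb X' ep R A where
  a := g.a
  t := g.t
  τ := g.τ
  q := g.q
  δ₀ := g.δ₀
  ha := g.ha
  ha1 := g.ha1
  ht := g.ht
  hθ := g.hθ
  hτ := g.hτ
  hτ' := g.hτ'
  hq := g.hq
  hδ := g.hδ
  hq' := g.hq'
  hd₁ := g.hd₁
  hq₁ := g.hq₁
  hR := g.hR
  hK := g.hK.trans (div_le_div_of_nonneg_right h hE.le)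
  tiny := g.tiny

/-- **ONE ROW AT THE CONCRETE FRAME.** -/
theorem rowE52 [IsProbabilityMeasure μ] {c₁ C₁ : ℝ} {n₀ : ℕ} (h : In μ s c₁ C₁ n₀) (hk : KapLe96 (EE μ s) (1 / 4)) {K : ℕ}
    (hK : 32 ≤ K) {Θ : ℝ} (hΘ : 0 < Θ) {u : ℝ → ℝ → ℝ} {Cw θ : ℝ} (hW : WL μ u Cw θ) {δ c η : ℝ} (hδ : 0 < δ) (hc : 0 < c)
    (hcδ : c ≤ δ / 64) (hη : 0 < η) {C₂ C₃ : ℝ}
    (hRb : Est fun ι β γ m => RbM μ s (frm33 μ s K ι β γ) (EE μ s) Θ δ c η (C₂ * ι) (Rd52 μ s K ι) (A52 β) m)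
    (hN : Sml fun ι => Sml fun β => ∀ c' : ℝ, 0 < c' →
      ∀ᶠ m : ℕ in atTop, ∀ p : ℕ, δ * m ≤ p → p ≤ m → Nonempty (NumG Cw θ (L33 K m) (2 ^ m) (2 ^ p) (M33 m) (B33 β m) (EE μ s (2 ^ p))
        (((2 ^ m : ℕ) : ℝ) ^ (C₃ * ι)) (Real.exp (-(L33 K m : ℝ) ^ c')) (Rd52 μ s K ι m p) (A52 β m))) :
    ∃ C : ℝ, Est fun ι β γ m => RowM μ s (frm33 μ s K ι β γ) (EE μ s) Θ δ c η (C * ι) m := by
  have hcl := clipP33 h
  refine ⟨max C₂ C₃ + 4, ?_⟩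
  -- the numbers and the errors of the flips
  have e1 : Est fun ι β γ m => ∃ ep : ℝ, 0 ≤ ep ∧ (∀ b0 j : ℕ, ((2 ^ m : ℕ) : ℝ) ^ δ ≤ b0 → b0 ≤ 2 ^ m → b0 ≤ j →
      j + b0 ≤ L33 K m → Flip61.FErr μ s (L33 K m) γ (B33 β m) b0 j (y33 μ s K m) (M33 m) ep) ∧
      ∀ p : ℕ, δ * m ≤ p → p ≤ m → Nonempty (NumG Cw θ (L33 K m) (2 ^ m) (2 ^ p) (M33 m) (B33 β m) (EE μ s (2 ^ p))
        (((2 ^ m : ℕ) : ℝ) ^ (C₃ * ι)) ep (Rd52 μ s K ι m p) (A52 β m)) := by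
    refine Sml.mono hN fun ι hι h1 => Sml.mono h1 fun β hβ h2 => ?_
    obtain ⟨γ₀, hγ₀, hF⟩ := ferr33 h hcl hK hδ hβ
    refine ⟨γ₀, hγ₀, fun γ hγ hγ' => ?_⟩
    obtain ⟨c', hc', h3⟩ := hF γ hγ hγ'
    filter_upwards [h3, h2 c' hc'] with m h4 h5
    exact ⟨Real.exp (-(L33 K m : ℝ) ^ c'), (Real.exp_pos _).le, fun b0 j q1 q2 q3 q4 => h4 (B33 β m) le_rfl b0 j q1 q2 q3 q4, h5⟩
  have e2 : Est fun ι _ _ m => ∀ p : ℕ, δ * m ≤ p → sg96 (EE μ s) c m p ≤ m → Deep (R33 ι m) (4 * 2 ^ p) (2 ^ sg96 (EE μ s) c m p) :=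
    ⟨δ / 16, by positivity, fun ι _ hι => Sml.of fun _ _ => Sml.of fun _ _ => deep33_ev h hk hδ hc.le hcδ hι⟩
  have e3 : Est fun ι β _ _ => 0 < ι ∧ 0 < β ∧ β ≤ ι := Est.beta (Sml.of fun ι hι => ⟨ι, hι, fun β hβ hβι => ⟨hι, hβ, hβι⟩⟩)
  refine (((hRb.and e1).and (e2.and e3)).and ((ok33 (μ := μ) (s := s) (by omega : 6 ≤ K) hΘ).and
    (Est.of_ev (cone33 h hK one_pos)))).mono fun ι β γ _ _ _ => Eventually.of_forall fun m hh => ?_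
  obtain ⟨⟨⟨hb, ep, hep, hFE, hnum⟩, hdeep, hι, hβ, hβι⟩, hok, hy2, hyM, -⟩ := hh
  have hn1 : (1 : ℝ) ≤ ((2 ^ m : ℕ) : ℝ) := n_ge1 m
  have hn0 : (0 : ℝ) < ((2 ^ m : ℕ) : ℝ) := by linarith
  have hpw : ∀ x y : ℝ, x ≤ y → ((2 ^ m : ℕ) : ℝ) ^ x ≤ ((2 ^ m : ℕ) : ℝ) ^ y := fun x y hxy =>
    Real.rpow_le_rpow_of_exponent_le hn1 hxy
  have hst : ∀ p p' q, Chg96 (EE μ s) Θ δ c η m p p' q → sg96 (EE μ s) c m p ≤ m ∧ p ≤ m := fun p p' q hC => by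
    have h1 := hC.hqm
    have h2 : 0 ≤ η * (m : ℝ) := mul_nonneg hη.le (Nat.cast_nonneg _)
    have h3 : (q : ℝ) ≤ m := by linarith
    have h4 : q ≤ m := by exact_mod_cast h3
    have h5 := hC.hsq
    have h6 := hC.hps
    exact ⟨by omega, by omega⟩
  refine rowM52 (F := frm33 μ s K ι β γ) (ε := C₂ * ι) (Rd := Rd52 μ s K ι) (A := A52 β) hW (fun n => one_le_EE n) hok
    (y₀ := y33 μ s K m) (M := M33 m) rfl (by omega) Nat.one_le_two_pow ?_ hep hc.le hη.le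
    (fun p p' q hC => Pool.Agent.W_7d29a1_C0.Asm96.sg_mono96 EE_mono (fun n => one_le_EE n) hC.hpp
      (sg_mem96 (fun n => one_le_EE n) (show (1 : ℝ) / 4 + 1 / 4 < 1 by norm_num) (hk (1 / 4) (by norm_num)) hc.le m p'))
    (fun p p' q hC j q1 q2 => hFE (2 ^ p) j (two_ge hC.hp) (Nat.pow_le_pow_right two_pos (hst p p' q hC).2) q1 q2)
    (fun p p' q hC => hdeep p hC.hp (hst p p' q hC).1)
    (fun p p' q hC => ?_) ?_ hb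
  · show y33 μ s K m + M33 m ≤ L33 K m
    omega
  · obtain ⟨g⟩ := hnum p hC.hp (hst p p' q hC).2
    refine ⟨NumG.monoX g (EE_pos _) (hpw _ _ ?_)⟩
    have h1 : C₃ * ι ≤ max C₂ C₃ * ι := mul_le_mul_of_nonneg_right (le_max_right _ _) hι.le
    linarith
  · show (B33 β m) ^ 4 * ((2 ^ m : ℕ) : ℝ) ^ (C₂ * ι) ≤ _
    have h1 : (B33 β m) ^ 4 = ((2 ^ m : ℕ) : ℝ) ^ (4 * β) := by
      unfold B33
      rw [← Real.rpow_natCast, ← Real.rpow_mul hn0.le]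
      congr 1
      push_cast
      ring
    rw [h1, ← Real.rpow_add hn0]
    refine hpw _ _ ?_
    have h2 : C₂ * ι ≤ max C₂ C₃ * ι := mul_le_mul_of_nonneg_right (le_max_left _ _) hι.le
    linarith

/-- **ONE ROW AT THE CONCRETE FRAME**, from the bad boxes and the numbers. -/
theorem rowL52 [IsProbabilityMeasure μ] {c₁ C₁ : ℝ} {n₀ : ℕ} (h : In μ s c₁ C₁ n₀) (hk : KapLe96 (EE μ s) (1 / 4)) {K : ℕ}
    (hK : 32 ≤ K) {Θ : ℝ} (hΘ : 0 < Θ) {u : ℝ → ℝ → ℝ} {Cw θ : ℝ} (hW : WL μ u Cw θ) (hRb : RbL52 μ s K Θ) (hN : NumL52 μ s K Cw θ) :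
    RowL52 μ s K Θ :=
  Sml.mono (hRb.and hN) fun δ hδ h1 => by
    obtain ⟨C₃, h2⟩ := h1.2
    exact Sml.mono (h1.1.and (Sml.le (show 0 < δ / 64 by positivity))) fun c hc h3 η hη hηc => by
      obtain ⟨C₂, h4⟩ := h3.1 η hη hηc
      exact rowE52 h hk hK hΘ hW hδ hc h3.2 hη h4 h2

end

end Pool.W7d29a1.C0.GSH52
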