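import Pool.Agent.W_7d29a1_C0.NumR32
import Pool.Agent.W_7d29a1_C0.GSH52

/-!
MP_7d29a1_pr, [CURV0], GS IN ONE KICK (helper32): THE NUMBERS OF ONE ROW AT THE CONCRETE FRAME. **`numL32`**: `NumL52` of `GSH52` from the
regime `RegP46`, with `a`, `t` of `NumR32.knumE`, `τ = exp (-B)`, `q = exp (-A / 2)`, `δ₀ = τ q exp (-2 B) / 12`.
-/

set_option autoImplicit false

namespace Pool.Agent.W_7d29a1_C0.NumL32

open Finset MeasureTheory Filter Topology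
open Pool.Agent.W_7d29a1_H (EE EE_pos one_le_EE EE_mono)
open Pool.Agent.W_7d29a1_HS (In wd)
open Pool.Agent.W_7d29a1_HZ (wd')
open Pool.Agent.W_7d29a1_C0 Pool.Agent.W_7d29a1_C0.Frm33
open Pool.Agent.W_7d29a1_C0.Par92 (Sml Est)
open Pool.Agent.W_7d29a1_C0.NumR32 (KNum knumE exp_sub_le)
open Pool.Agent.W_7d29a1_C0.One32 (tny)
open Pool.Agent.W_7d29a1_C0.Far34 (vv)
open Pool.W7d29a1.C0.K27 (tlK)
open Pool.W7d29a1.C0.GSG52 (NumG)
open Pool.W7d29a1.C0.GSH52 (NumL52 Rd52 A52)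

noncomputable section

/-! ### The tiny term at fixed numbers -/

theorem tiny_le {n Z I B M ep a t C Bq τ q T Y : ℝ} (hn : 1 ≤ n) (hI0 : 0 ≤ I) (hI : I ≤ 2 * Z) (hB : 0 ≤ B) (hB8 : B ^ 8 ≤ n)
    (hB4 : B ^ 4 ≤ n) (hm0 : 0 ≤ 1 / M + 3 * ep) (h1 : 9604 * n ^ 3 * (1 / M + 3 * ep) ≤ 1 / 4) (hT : tlK C t a Bq ≤ T)
    (h2 : n ^ 3 * Z ^ 2 * T ≤ 1 / 4) (hY : (Real.exp (24 * τ) - 1) + 24 * (q * Real.exp (5 * (2 * B)) / τ) ≤ Y)
    (h3 : n ^ 3 * Z ^ 2 * Y ≤ 1 / 4) :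
    n * (tny n I B M ep a t C Bq τ q (2 * B) + n * (4 / 3 * (B / 2) ^ 4 * (I ^ 2 * tlK C t a Bq))) ≤ 1 := by
  have hn0 : 0 ≤ n := by linarith
  have hT0 : 0 ≤ tlK C t a Bq := by
    unfold Pool.W7d29a1.C0.K27.tlK
    positivity
  obtain ⟨T', hT'⟩ : ∃ T', T' = tlK C t a Bq := ⟨_, rfl⟩
  obtain ⟨Y', hY'⟩ : ∃ Y', Y' = (Real.exp (24 * τ) - 1) + 24 * (q * Real.exp (5 * (2 * B)) / τ) := ⟨_, rfl⟩
  have hI2 : I ^ 2 ≤ 4 * Z ^ 2 := by nlinarith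
  have e : n * (tny n I B M ep a t C Bq τ q (2 * B) + n * (4 / 3 * (B / 2) ^ 4 * (I ^ 2 * tlK C t a Bq))) =
      9604 * (n ^ 2 * B ^ 8) * (1 / M + 3 * ep) + n ^ 2 * B ^ 4 * I ^ 2 * T' / 6 + n ^ 2 * B ^ 4 * I ^ 2 * Y' / 12 := by
    rw [← hT']
    unfold tny
    rw [← hY']
    have e1 : 4 * Real.exp (-(t * a)) * Real.exp (C * ((2 * t + 3) ^ 2 + 1) * Bq) = T' := by
      rw [hT']
      rfl
    rw [e1]
    ring
  rw [e]
  have hZ : 0 ≤ n ^ 3 * Z ^ 2 := by positivity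
  have k1 : 9604 * (n ^ 2 * B ^ 8) * (1 / M + 3 * ep) ≤ 9604 * n ^ 3 * (1 / M + 3 * ep) := by
    refine mul_le_mul_of_nonneg_right ?_ hm0
    have : n ^ 2 * B ^ 8 ≤ n ^ 2 * n := mul_le_mul_of_nonneg_left hB8 (by positivity)
    nlinarith
  have k0 : n ^ 2 * B ^ 4 * I ^ 2 ≤ 4 * (n ^ 3 * Z ^ 2) := by
    calc n ^ 2 * B ^ 4 * I ^ 2 ≤ n ^ 2 * n * (4 * Z ^ 2) := mul_le_mul (mul_le_mul_of_nonneg_left hB4 (by positivity)) hI2
          (by positivity) (by positivity)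
      _ = _ := by ring
  have k2 : n ^ 2 * B ^ 4 * I ^ 2 * T' ≤ 4 * (n ^ 3 * Z ^ 2 * T) := by
    have hT1 : 0 ≤ T' := by rw [hT']; exact hT0
    calc n ^ 2 * B ^ 4 * I ^ 2 * T' ≤ 4 * (n ^ 3 * Z ^ 2) * T' := mul_le_mul_of_nonneg_right k0 hT1
      _ ≤ 4 * (n ^ 3 * Z ^ 2) * T := mul_le_mul_of_nonneg_left (hT' ▸ hT) (by positivity)
      _ = _ := by ring
  have k3 : n ^ 2 * B ^ 4 * I ^ 2 * Y' ≤ 1 := by
    rcases le_or_gt Y' 0 with hy | hy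
    · have : n ^ 2 * B ^ 4 * I ^ 2 * Y' ≤ 0 := mul_nonpos_of_nonneg_of_nonpos (by positivity) hy
      linarith
    · calc n ^ 2 * B ^ 4 * I ^ 2 * Y' ≤ 4 * (n ^ 3 * Z ^ 2) * Y' := mul_le_mul_of_nonneg_right k0 hy.le
        _ ≤ 4 * (n ^ 3 * Z ^ 2) * Y := mul_le_mul_of_nonneg_left (hY' ▸ hY) (by positivity)
        _ ≤ 1 := by linarith
  linarith

/-- **The numbers of one row**, at fixed numbers: `τ = exp (-B)`, `q = exp (-A / 2)`, `A = B ^ 2`. -/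
def numG_fix {C θ : ℝ} {N n b M : ℕ} {B Eb X ep R a t T F Z : ℝ} (k : KNum C θ B (b : ℝ) R a t T F) (hF : F ≤ X / Eb)
    (hB : 30 ≤ B) (hR : 1 ≤ R) (hn : 1 ≤ (n : ℝ)) (hI : (N : ℝ) + 1 ≤ 2 * Z) (hB8 : B ^ 8 ≤ n) (hM : 0 < M) (hep : 0 ≤ ep)
    (h1 : 9604 * (n : ℝ) ^ 3 * (1 / M + 3 * ep) ≤ 1 / 4) (h2 : (n : ℝ) ^ 3 * Z ^ 2 * T ≤ 1 / 4)
    (h3 : (n : ℝ) ^ 3 * Z ^ 2 * (72 * Real.exp (-B)) ≤ 1 / 4) : NumG C θ N n b M B Eb X ep R (B ^ 2) := by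
  have hτ1 : Real.exp (-B) ≤ 1 / 24 := by
    have h4 : 31 ≤ Real.exp B := by linarith [Real.add_one_le_exp B]
    rw [Real.exp_neg]
    calc (Real.exp B)⁻¹ ≤ (31 : ℝ)⁻¹ := inv_anti₀ (by norm_num) h4
      _ ≤ _ := by norm_num
  have hBB : 30 * B ≤ B ^ 2 := by nlinarith
  have h12 : (12 : ℝ) ≤ Real.exp B := by linarith [Real.add_one_le_exp B]
  exact
  { a := a
    t := t
    τ := Real.exp (-B)
    q := Real.exp (-(B ^ 2 / 2))
    δ₀ := Real.exp (-B) * (Real.exp (-(B ^ 2 / 2)) * Real.exp (-(2 * B))) / 12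
    ha := k.a0.le
    ha1 := by
      have h4 := exp_sub_le k.a0.le (k.a1.trans (by norm_num))
      have h5 := k.a1
      linarith
    ht := by linarith [k.t1]
    hθ := k.th
    hτ := Real.exp_pos _
    hτ' := hτ1.trans (by norm_num)
    hq := (Real.exp_pos _).le
    hδ := by positivity
    hq' := by
      refine le_of_eq ?_
      have h4 := Real.exp_pos (-B)
      field_simp
    hd₁ := by
      have h4 : Real.exp (-(B ^ 2)) * 12 ≤ Real.exp (-(B ^ 2)) * Real.exp B := mul_le_mul_of_nonneg_left h12 (Real.exp_pos _).le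
      rw [← Real.exp_add] at h4
      have h5 : Real.exp (-(B ^ 2) + B) ≤ Real.exp (-B + (-(B ^ 2 / 2) + -(2 * B)) + -(4 * B)) := Real.exp_le_exp.2 (by linarith)
      have h6 : Real.exp (-B + (-(B ^ 2 / 2) + -(2 * B)) + -(4 * B)) =
          Real.exp (-B) * (Real.exp (-(B ^ 2 / 2)) * Real.exp (-(2 * B))) * Real.exp (-(4 * B)) := by
        rw [← Real.exp_add, ← Real.exp_add, ← Real.exp_add]
      rw [h6] at h5
      linarith
    hq₁ := by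
      have h4 : Real.exp (-(B ^ 2)) * 12 ≤ Real.exp (-(B ^ 2)) * Real.exp B := mul_le_mul_of_nonneg_left h12 (Real.exp_pos _).le
      rw [← Real.exp_add] at h4
      have h5 : Real.exp (-(B ^ 2) + B) ≤ Real.exp (-(B ^ 2 / 2) + -(4 * B)) := Real.exp_le_exp.2 (by linarith)
      have h6 : Real.exp (-(B ^ 2 / 2) + -(4 * B)) = Real.exp (-(B ^ 2 / 2)) * Real.exp (-(4 * B)) := Real.exp_add _ _
      rw [h6] at h5
      have h7 := Real.exp_pos (-(B ^ 2))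
      linarith
    hR := hR
    hK := k.K2.trans hF
    tiny := by
      refine tiny_le hn (by positivity) hI (by linarith) hB8 ((pow_le_pow_right₀ (by linarith) (by norm_num)).trans hB8)
        (by positivity) h1 k.tl h2 ?_ h3
      have h4 : Real.exp (24 * Real.exp (-B)) - 1 ≤ 2 * (24 * Real.exp (-B)) :=
        exp_sub_le (by positivity) (by linarith)
      have h5 : Real.exp (-(B ^ 2 / 2)) * Real.exp (5 * (2 * B)) / Real.exp (-B) ≤ Real.exp (-B) := by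
        rw [← Real.exp_add, ← Real.exp_sub]
        exact Real.exp_le_exp.2 (by linarith)
      linarith }

/-! ### Large numbers -/

/-- Powers are beaten by the stretched exponential. -/
theorem ev_exp {a : ℝ} (ha : 0 < a) {b : ℝ} (hb : 0 < b) (D k : ℝ) :
    ∀ᶠ m : ℕ in atTop, D * ((2 ^ m : ℕ) : ℝ) ^ k * Real.exp (-(b * ((2 ^ m : ℕ) : ℝ) ^ a)) ≤ 1 := by
  have h1 : Tendsto (fun m : ℕ => ((2 ^ m : ℕ) : ℝ) ^ a) atTop atTop := (tendsto_rpow_atTop ha).comp tend_n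
  have h2 := ((tendsto_rpow_mul_exp_neg_mul_atTop_nhds_zero (k / a) b hb).comp h1).const_mul D
  rw [mul_zero] at h2
  filter_upwards [h2.eventually_le_const one_pos] with m h3
  have hn0 : (0 : ℝ) ≤ ((2 ^ m : ℕ) : ℝ) := Nat.cast_nonneg _
  have e : (((2 ^ m : ℕ) : ℝ) ^ a) ^ (k / a) = ((2 ^ m : ℕ) : ℝ) ^ k := by
    rw [← Real.rpow_mul hn0]
    congr 1
    field_simp
  simp only [Function.comp_apply] at h3
  rw [e, neg_mul] at h3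
  linarith [mul_assoc D (((2 ^ m : ℕ) : ℝ) ^ k) (Real.exp (-(b * ((2 ^ m : ℕ) : ℝ) ^ a)))]

variable {μ : Measure ℝ} {s : ℝ}

/-- **THE NUMBERS OF ONE ROW AT THE CONCRETE FRAME.** -/
theorem numL32 {c₀ Θ : ℝ} (hR : RegP46 μ s c₀ Θ) {K : ℕ} (hK : 1 ≤ K) {C θ : ℝ} (hC : 0 ≤ C) (hθ : 0 < θ) : NumL52 μ s K C θ := by
  refine Sml.of fun δ hδ => ⟨13, ?_⟩
  obtain ⟨α, -, -, g1⟩ := hR.est hδ (k := 1) one_pos
  have g2 := knumE hR hδ (k := 3) (by norm_num) (C := C) (θ := θ) hC hθ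
  have g3 : Est fun ι β _ m => 0 < ι ∧ 0 < β ∧ 8 * β ≤ 1 ∧ 3 ≤ ((2 ^ m : ℕ) : ℝ) ^ ι ∧ 30 ≤ ((2 ^ m : ℕ) : ℝ) ^ β ∧
      8 * 9604 ≤ ((2 ^ m : ℕ) : ℝ) ∧
      4 * ((2 ^ m : ℕ) : ℝ) ^ (3 + 2 * K : ℝ) * Real.exp (-(1 / 2 * ((2 ^ m : ℕ) : ℝ) ^ ι)) ≤ 1 ∧
      288 * ((2 ^ m : ℕ) : ℝ) ^ (3 + 2 * K : ℝ) * Real.exp (-(1 * ((2 ^ m : ℕ) : ℝ) ^ β)) ≤ 1 := by
    refine Sml.of fun ι hι => ⟨1 / 8, by norm_num, fun β hβ hβ' => Sml.of fun _ _ => ?_⟩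
    filter_upwards [ev_n hι 3, ev_n hβ 30, ev_n one_pos (8 * 9604), ev_exp hι (b := 1 / 2) (by norm_num) 4 (3 + 2 * K),
      ev_exp hβ one_pos 288 (3 + 2 * K)] with m q1 q2 q3 q4 q5
    rw [Real.rpow_one] at q3
    exact ⟨hι, hβ, by linarith, q1, q2, q3, q4, q5⟩
  refine Sml.mono ((g1.and g2).and g3) fun ι hι h1 => Sml.mono h1 fun β hβ h2 c' hc' => ?_
  obtain ⟨γ, hγ, h3⟩ := h2.exists
  have h30 : ∀ᶠ m : ℕ in atTop, 24 * 9604 * ((2 ^ m : ℕ) : ℝ) ^ 3 * Real.exp (-(1 * ((2 ^ m : ℕ) : ℝ) ^ c')) ≤ 1 := by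
    filter_upwards [ev_exp hc' one_pos (24 * 9604) ((3 : ℕ) : ℝ)] with m h4
    rw [Real.rpow_natCast] at h4
    exact h4
  filter_upwards [h3, h30] with m h4 hep
  obtain ⟨⟨⟨hreg, hwd⟩, hkn⟩, -, -, hβ8, hι3, hB30, h9604, hT, hY⟩ := h4
  intro p hp hpm
  obtain ⟨n, hn⟩ : ∃ n : ℝ, n = ((2 ^ m : ℕ) : ℝ) := ⟨_, rfl⟩
  have hn1 : 1 ≤ n := hn ▸ n_ge1 m
  have hn0 : 0 < n := lt_of_lt_of_le one_pos hn1
  have hrg : Rg46 δ n (2 ^ p) := ⟨hn ▸ two_ge hp, by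
    rw [hn]
    exact_mod_cast Nat.pow_le_pow_right two_pos hpm⟩
  have hwge := hreg.wge (2 ^ p) (hn ▸ hrg)
  have hE1 : 1 ≤ EE μ s (2 ^ p) := hreg.E1 _
  have hwd' := hwd (2 ^ p) (hn ▸ hrg.lo)
  have hLn : (L33 K m : ℝ) = n ^ K := by
    rw [hn]
    unfold L33
    push_cast
    rw [← pow_mul]
    congr 1
    ring
  have hMn : (M33 m : ℝ) = n ^ 6 := by
    rw [hn]
    unfold M33
    push_cast
    rw [← pow_mul]
    congr 1
    ring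
  have hL1 : 1 ≤ (L33 K m : ℝ) := by
    rw [hLn]
    exact one_le_pow₀ hn1
  have hLε : (L33 K m : ℝ) ^ (ι / K) = n ^ ι := by
    have hK0 : (K : ℝ) ≠ 0 := by
      have : 0 < K := by omega
      exact_mod_cast this.ne'
    rw [hLn, ← Real.rpow_natCast, ← Real.rpow_mul hn0.le]
    congr 1
    field_simp
  have hRd : Rd52 μ s K ι m p = 3 * (n ^ ι * wd μ s (2 ^ p)) := by
    unfold Rd52 vv
    rw [hLε, hwd']
  have hw0 : 0 ≤ wd μ s (2 ^ p) := by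
    rw [← hwd']
    exact zero_le_one.trans (le_max_left _ _)
  have hw1 : 1 ≤ wd μ s (2 ^ p) := by
    rw [← hwd']
    exact le_max_left _ _
  rw [← hn] at hι3 hB30 h9604 hT hY hep
  have hι1 : 1 ≤ n ^ ι := Real.one_le_rpow hn1 hι.le
  obtain ⟨a, t, hk⟩ := hkn p hp hpm (Rd52 μ s K ι m p) (by
    rw [hRd, ← hn]
    have e : n ^ (3 * ι) = n ^ ι * (n ^ ι * n ^ ι) := by
      rw [← Real.rpow_add hn0, ← Real.rpow_add hn0]
      congr 1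
      ring
    rw [e]
    have h5 : 0 ≤ n ^ ι * wd μ s (2 ^ p) := by positivity
    have h6 : 3 ≤ n ^ ι * n ^ ι := by nlinarith only [hι3]
    calc 3 * (n ^ ι * wd μ s (2 ^ p)) ≤ n ^ ι * n ^ ι * (n ^ ι * wd μ s (2 ^ p)) := mul_le_mul_of_nonneg_right h6 h5
      _ = _ := by ring)
  have hBn : B33 β m = n ^ β := by
    unfold B33
    rw [hn]
  have hA : A52 β m = B33 β m ^ 2 := by
    unfold A52
    rw [hBn, ← hn, ← Real.rpow_natCast, ← Real.rpow_mul hn0.le]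
    congr 1
    push_cast
    ring
  have hnK : n ^ (3 + 2 * K : ℝ) = n ^ 3 * (n ^ K) ^ 2 := by
    rw [← Real.rpow_natCast n 3, ← pow_mul, ← Real.rpow_natCast n (K * 2), ← Real.rpow_add hn0]
    congr 1
    push_cast
    ring
  rw [hA]
  refine ⟨numG_fix (Z := n ^ K) hk ?_ ?_ ?_ ?_ ?_ ?_ ?_ (Real.exp_pos _).le ?_ ?_ ?_⟩
  · norm_num
  · rw [hBn]
    exact hB30
  · rw [hRd]
    have h5 : 1 ≤ n ^ ι * wd μ s (2 ^ p) := by nlinarith only [hι1, hw1]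
    linarith
  · rw [← hn]
    exact hn1
  · rw [hLn]
    have : 1 ≤ n ^ K := one_le_pow₀ hn1
    linarith
  · rw [hBn, ← hn, ← Real.rpow_natCast, ← Real.rpow_mul hn0.le]
    calc n ^ (β * ((8 : ℕ) : ℝ)) ≤ n ^ (1 : ℝ) := Real.rpow_le_rpow_of_exponent_le hn1 (by
          push_cast
          linarith)
      _ = n := Real.rpow_one n
  · exact Nat.pos_of_ne_zero (by
      unfold M33
      positivity)
  · rw [hMn, ← hn]
    have h5 : Real.exp (-(L33 K m : ℝ) ^ c') ≤ Real.exp (-(1 * n ^ c')) := by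
      refine Real.exp_le_exp.2 (neg_le_neg ?_)
      rw [one_mul]
      refine Real.rpow_le_rpow hn0.le ?_ hc'.le
      rw [hLn]
      exact le_self_pow₀ hn1 (by omega)
    have h7 : 9604 * n ^ 3 * (1 / n ^ 6) ≤ 1 / 8 := by
      have e : 9604 * n ^ 3 * (1 / n ^ 6) = 9604 / n ^ 3 := by
        field_simp
      rw [e, div_le_div_iff₀ (by positivity) (by norm_num)]
      have : n ≤ n ^ 3 := le_self_pow₀ hn1 (by norm_num)
      linarith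
    have h8 : 9604 * n ^ 3 * (3 * Real.exp (-(L33 K m : ℝ) ^ c')) ≤ 1 / 8 := by
      have h9 : 9604 * n ^ 3 * (3 * Real.exp (-(L33 K m : ℝ) ^ c')) ≤ 9604 * n ^ 3 * (3 * Real.exp (-(1 * n ^ c'))) :=
        mul_le_mul_of_nonneg_left (by linarith) (by positivity)
      linarith
    rw [mul_add]
    linarith
  · rw [← hn, mul_comm, ← hnK]
    have e : -(n ^ ι / 2) = -(1 / 2 * n ^ ι) := by ring
    rw [e]
    linarith
  · rw [← hn, hBn, ← hnK]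
    rw [one_mul] at hY
    linarith

end

end Pool.Agent.W_7d29a1_C0.NumL32
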