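import Pool.Agent.W_7d29a1_C0.GSO73
import Pool.Agent.W_7d29a1_C0.NumL32

/-!
CURV0 (MP_7d29a1_pr), GS one kick: THE ERRORS of the bad boxes at the concrete frame (helper32, for helper73). `lerr73`: the factors of the
levels are at most `28 exp (5 A)`; `ev_err73`: the sum of all the errors of one pair of rows is at most `n ^ -4`.
-/

set_option autoImplicit false

namespace Pool.W7d29a1.C0.Bd73

open Finset MeasureTheory Filter Topology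
open Pool.Agent.W_7d29a1_C0 Pool.Agent.W_7d29a1_C0.Frm33
open Pool.Agent.W_7d29a1_C0.NumL32 (ev_exp)
open Pool.W7d29a1.C0.GSH52 (A52)

noncomputable section

/-- **The factors of the levels.** -/
theorem lerr73 {N : ℕ} {A B D K κp ε c' θ : ℝ} (V : LvW N A B D K κp ε c' θ) (hN : 1 ≤ N) (hA : 0 ≤ A) (hB : 0 ≤ B)
    (hBA : B ≤ Real.exp A) : 2 / V.q1 * (8 * B / Real.exp (-A) + 2) + 8 ≤ 28 * Real.exp (5 * A) ∧
      4 / V.ρ₁ + 8 ≤ 28 * Real.exp (5 * A) ∧ 4 / (Real.exp (-A) / 3) + 8 ≤ 28 * Real.exp (5 * A) := by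
  have h1 := V.q1_pos hN
  have hρ := V.hρ₁
  have inv : ∀ x y : ℝ, 0 < x → Real.exp (-y) ≤ x → 1 / x ≤ Real.exp y := fun x y hx h => by
    rw [div_le_iff₀ hx]
    have h4 : Real.exp y * Real.exp (-y) = 1 := by
      rw [← Real.exp_add]
      simp
    calc 1 = Real.exp y * Real.exp (-y) := h4.symm
      _ ≤ _ := mul_le_mul_of_nonneg_left h (Real.exp_pos _).le
  have e1 : 1 ≤ Real.exp A := Real.one_le_exp hA
  have p5 : Real.exp (5 * A) = Real.exp A ^ 5 := by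
    rw [← Real.exp_nat_mul]
    norm_num
  have p4 : Real.exp (4 * A) = Real.exp A ^ 4 := by
    rw [← Real.exp_nat_mul]
    norm_num
  have q1 : Real.exp (-(3 * A)) ≤ V.q1 := by
    have h4 := V.e14
    have h5 : Real.exp (-(4 * A)) = Real.exp (-(3 * A)) * Real.exp (-A) := by
      rw [← Real.exp_add]
      congr 1
      ring
    rw [h5] at h4
    exact le_of_mul_le_mul_right h4 (Real.exp_pos _)
  have p3 : Real.exp (3 * A) = Real.exp A ^ 3 := by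
    rw [← Real.exp_nat_mul]
    norm_num
  have r1 := inv _ _ h1 q1
  have r2 := inv _ _ hρ V.e15
  rw [p3] at r1
  rw [p4] at r2
  rw [p5]
  obtain ⟨x, hx⟩ : ∃ x, x = Real.exp A := ⟨_, rfl⟩
  have e5 : 4 / (Real.exp (-A) / 3) = 12 * Real.exp A := by
    rw [Real.exp_neg]
    field_simp
    norm_num
  rw [e5]
  rw [← hx] at r1 r2 e1 hBA ⊢
  have x3 : x ^ 3 ≤ x ^ 5 := pow_le_pow_right₀ e1 (by norm_num)
  have x4 : x ^ 4 ≤ x ^ 5 := pow_le_pow_right₀ e1 (by norm_num)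
  have x5 : 1 ≤ x ^ 5 := one_le_pow₀ e1
  have hBe : B / Real.exp (-A) ≤ x * x := by
    rw [Real.exp_neg, ← hx, div_inv_eq_mul]
    exact mul_le_mul_of_nonneg_right hBA (by linarith)
  have hBe0 : 0 ≤ B / Real.exp (-A) := by positivity
  refine ⟨?_, ?_, ?_⟩
  · have k1 : 2 / V.q1 * (8 * B / Real.exp (-A) + 2) = (1 / V.q1) * (16 * (B / Real.exp (-A)) + 4) := by ring
    rw [k1]
    have k2 : (1 / V.q1) * (16 * (B / Real.exp (-A)) + 4) ≤ x ^ 3 * (16 * (x * x) + 4) :=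
      mul_le_mul r1 (by linarith) (by positivity) (by positivity)
    have k3 : x ^ 3 * (16 * (x * x) + 4) = 16 * x ^ 5 + 4 * x ^ 3 := by ring
    linarith
  · have k1 : 4 / V.ρ₁ = 4 * (1 / V.ρ₁) := by ring
    rw [k1]
    linarith
  · have : x ≤ x ^ 5 := le_self_pow₀ e1 (by norm_num)
    linarith

/-- **The errors of one pair of rows.** -/
theorem ev_err73 {K : ℕ} (hK : 32 ≤ K) {β c2 c3 c' c'' : ℝ} (hβ : 0 < β) (hc2 : 0 < c2) (hc3 : 2 * β / K < c3) (hc' : 0 < c')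
    (hc'' : 0 < c'') : ∀ᶠ m : ℕ in atTop, ∀ eM : ℝ, eM ≤ (L33 K m : ℝ) ^ (-1 : ℝ) →
      21 * (Real.exp (-(L33 K m : ℝ) ^ c2) + 6 * eM) +
        (19 * (2 / (M33 m : ℝ) + (3 * (28 * Real.exp (5 * A52 β m)) * Real.exp (-(L33 K m : ℝ) ^ c3) +
          4 * Real.exp (-(L33 K m : ℝ) ^ c'))) + 8 * (L33 K m : ℝ) ^ (-(1 : ℝ)) +
          (((L33 K m : ℝ) + 1) ^ 2 + 4) * Real.exp (-(L33 K m : ℝ) ^ c'')) ≤ (((2 ^ m : ℕ) : ℝ) ^ 4)⁻¹ := by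
  have hK0 : (0 : ℝ) < K := by
    have : 0 < K := by omega
    exact_mod_cast this
  have hc : 0 < K * c3 - 2 * β := by
    rw [div_lt_iff₀ hK0] at hc3
    linarith
  have hc30 : 0 < K * c3 := by linarith
  have g1 : ∀ᶠ m : ℕ in atTop, 168 * ((2 ^ m : ℕ) : ℝ) ^ 4 * Real.exp (-(1 * ((2 ^ m : ℕ) : ℝ) ^ c2)) ≤ 1 := by
    filter_upwards [ev_exp hc2 one_pos 168 ((4 : ℕ) : ℝ)] with m h
    rwa [Real.rpow_natCast] at h
  have g2 : ∀ᶠ m : ℕ in atTop, 12768 * ((2 ^ m : ℕ) : ℝ) ^ 4 * Real.exp (-(1 / 2 * ((2 ^ m : ℕ) : ℝ) ^ (K * c3))) ≤ 1 := by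
    filter_upwards [ev_exp hc30 (b := 1 / 2) (by norm_num) 12768 ((4 : ℕ) : ℝ)] with m h
    rwa [Real.rpow_natCast] at h
  have g3 : ∀ᶠ m : ℕ in atTop, 608 * ((2 ^ m : ℕ) : ℝ) ^ 4 * Real.exp (-(1 * ((2 ^ m : ℕ) : ℝ) ^ c')) ≤ 1 := by
    filter_upwards [ev_exp hc' one_pos 608 ((4 : ℕ) : ℝ)] with m h
    rwa [Real.rpow_natCast] at h
  have g4 : ∀ᶠ m : ℕ in atTop, 64 * ((2 ^ m : ℕ) : ℝ) ^ (4 + 2 * K) * Real.exp (-(1 * ((2 ^ m : ℕ) : ℝ) ^ c'')) ≤ 1 := by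
    filter_upwards [ev_exp hc'' one_pos 64 ((4 + 2 * K : ℕ) : ℝ)] with m h
    rwa [Real.rpow_natCast] at h
  have g5 : ∀ᶠ m : ℕ in atTop, 1072 ≤ ((2 ^ m : ℕ) : ℝ) := tend_n.eventually_ge_atTop 1072
  filter_upwards [g1, g2, g3, g4, g5, ev_n hc 10] with m h1 h2 h3 h4 h5 h6
  intro eM heM
  obtain ⟨n, hn⟩ : ∃ n : ℝ, n = ((2 ^ m : ℕ) : ℝ) := ⟨_, rfl⟩
  have hn1 : 1 ≤ n := hn ▸ n_ge1 m
  have hn0 : 0 < n := lt_of_lt_of_le one_pos hn1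
  have hLn : (L33 K m : ℝ) = n ^ K := by
    rw [hn]
    unfold L33
    push_cast
    rw [← pow_mul]
    congr 1
    ring
  have hMn : (M33 m : ℝ) = n ^ 6 := by
    rw [hn]
    unfold M33
    push_cast
    rw [← pow_mul]
    congr 1
    ring
  have hAn : A52 β m = n ^ (2 * β) := by
    unfold A52
    rw [hn]
  have hL1 : 1 ≤ (L33 K m : ℝ) := by
    rw [hLn]
    exact one_le_pow₀ hn1
  have hLe : ∀ x : ℝ, 0 < x → Real.exp (-(L33 K m : ℝ) ^ x) ≤ Real.exp (-(1 * n ^ x)) := fun x hx => by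
    refine Real.exp_le_exp.2 (neg_le_neg ?_)
    rw [one_mul]
    refine Real.rpow_le_rpow hn0.le ?_ hx.le
    rw [hLn]
    exact le_self_pow₀ hn1 (by omega)
  have hLi : (L33 K m : ℝ) ^ (-1 : ℝ) ≤ (n ^ 5)⁻¹ := by
    rw [Real.rpow_neg_one, hLn]
    exact inv_anti₀ (by positivity) (pow_le_pow_right₀ hn1 (by omega))
  rw [← hn] at h1 h2 h3 h4 h5 h6 ⊢
  rw [hAn, hMn]
  obtain ⟨a1, ha1⟩ : ∃ x, x = Real.exp (-(L33 K m : ℝ) ^ c2) := ⟨_, rfl⟩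
  obtain ⟨a2, ha2⟩ : ∃ x, x = Real.exp (5 * n ^ (2 * β)) * Real.exp (-(L33 K m : ℝ) ^ c3) := ⟨_, rfl⟩
  obtain ⟨a3, ha3⟩ : ∃ x, x = Real.exp (-(L33 K m : ℝ) ^ c') := ⟨_, rfl⟩
  obtain ⟨a4, ha4⟩ : ∃ x, x = Real.exp (-(L33 K m : ℝ) ^ c'') := ⟨_, rfl⟩
  obtain ⟨li, hli⟩ : ∃ x, x = (L33 K m : ℝ) ^ (-1 : ℝ) := ⟨_, rfl⟩
  have n4 : 0 < n ^ 4 := by positivity
  have b1 : 168 * n ^ 4 * a1 ≤ 1 :=
    (mul_le_mul_of_nonneg_left (ha1 ▸ hLe c2 hc2) (by positivity)).trans h1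
  have b3 : 608 * n ^ 4 * a3 ≤ 1 :=
    (mul_le_mul_of_nonneg_left (ha3 ▸ hLe c' hc') (by positivity)).trans h3
  have b2 : 12768 * n ^ 4 * a2 ≤ 1 := by
    refine (mul_le_mul_of_nonneg_left ?_ (by positivity)).trans h2
    rw [ha2, ← Real.exp_add]
    refine Real.exp_le_exp.2 ?_
    have e1 : (L33 K m : ℝ) ^ c3 = n ^ (K * c3) := by
      rw [hLn, ← Real.rpow_natCast, ← Real.rpow_mul hn0.le]
    have e2 : n ^ (K * c3) = n ^ (K * c3 - 2 * β) * n ^ (2 * β) := by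
      rw [← Real.rpow_add hn0]
      congr 1
      ring
    rw [e1]
    have e3 : 0 ≤ n ^ (2 * β) := Real.rpow_nonneg hn0.le _
    have e4 : 10 * n ^ (2 * β) ≤ n ^ (K * c3) := by
      rw [e2]
      exact mul_le_mul_of_nonneg_right h6 e3
    linarith
  have b4 : 8 * n ^ 4 * (((n ^ K + 1) ^ 2 + 4) * a4) ≤ 1 := by
    have k1 : (n ^ K + 1) ^ 2 + 4 ≤ 8 * (n ^ K) ^ 2 := by
      have : 1 ≤ n ^ K := one_le_pow₀ hn1
      nlinarith
    have k2 : 0 ≤ a4 := ha4 ▸ (Real.exp_pos _).le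
    calc 8 * n ^ 4 * (((n ^ K + 1) ^ 2 + 4) * a4) ≤ 8 * n ^ 4 * (8 * (n ^ K) ^ 2 * a4) :=
          mul_le_mul_of_nonneg_left (mul_le_mul_of_nonneg_right k1 k2) (by positivity)
      _ = 64 * n ^ (4 + 2 * K) * a4 := by
          rw [pow_add, mul_comm 2 K, pow_mul]
          ring
      _ ≤ 64 * n ^ (4 + 2 * K) * Real.exp (-(1 * n ^ c'')) :=
          mul_le_mul_of_nonneg_left (ha4 ▸ hLe c'' hc'') (by positivity)
      _ ≤ 1 := h4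
  have b5 : 1072 * n ^ 4 * li ≤ 1 := by
    calc 1072 * n ^ 4 * li ≤ n * n ^ 4 * (n ^ 5)⁻¹ := by
          rw [hli]
          exact mul_le_mul (mul_le_mul_of_nonneg_right h5 n4.le) hLi (Real.rpow_nonneg (by linarith) _) (by positivity)
      _ = 1 := by
          field_simp
  have b6 : 152 * n ^ 4 * (2 / n ^ 6) ≤ 1 := by
    have k1 : 152 * n ^ 4 * (2 / n ^ 6) = 304 / n ^ 2 := by
      field_simp
      norm_num
    rw [k1, div_le_one (by positivity)]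
    nlinarith
  have b7 : n ^ 4 * eM ≤ n ^ 4 * li := mul_le_mul_of_nonneg_left (hli ▸ heM) n4.le
  rw [← ha1, ← ha3, ← ha4, ← hli, ← one_div, le_div_iff₀ n4, hLn]
  have e : (21 * (a1 + 6 * eM) + (19 * (2 / n ^ 6 + (3 * (28 * Real.exp (5 * n ^ (2 * β))) * Real.exp (-(n ^ K) ^ c3) + 4 * a3)) +
      8 * li + ((n ^ K + 1) ^ 2 + 4) * a4)) * n ^ 4 = 21 * (n ^ 4 * a1) + 126 * (n ^ 4 * eM) + 19 * (n ^ 4 * (2 / n ^ 6)) +
        1596 * (n ^ 4 * a2) + 76 * (n ^ 4 * a3) + 8 * (n ^ 4 * li) + n ^ 4 * (((n ^ K + 1) ^ 2 + 4) * a4) := by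
    rw [ha2, hLn]
    ring
  rw [e]
  linarith

end

end Pool.W7d29a1.C0.Bd73
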