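import Mathlib.Analysis.SpecialFunctions.Pow.Real

/-!
CURV0 (MP_7d29a1_pr), GS one kick: THE NUMBERS of the bad functional against the majorant `Ph65`: `num_same73` (the same block), `num_far73`
(different blocks). (helper73)
-/

set_option autoImplicit false

namespace Pool.W7d29a1.C0.Bd73

noncomputable section

/-- **The numbers, the same block.** -/
theorem num_same73 {X Eb Es Ee El kc t rest Y Cg : ℝ} (hCg : Cg ≤ 2) (ht : 0 ≤ t) (hrest : 0 ≤ rest) (hX : 1 ≤ X) (hkc : 1 ≤ kc) (hEb : 1 ≤ Eb) (hEs : 1 ≤ Es) (hEe : 1 ≤ Ee)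
    (hEl : 1 ≤ El) (h1 : Eb ≤ kc * El) (h2 : Es ≤ kc * X * Ee) (hr : 2 * (21 * t + rest) ≤ 1 / (Es ^ 2 * Eb)) (hY : 24 * kc ^ 4 * X ^ 4 ≤ Y) :
    16 * (X / (Ee * El) + t) + 4 * (X / (Ee * Eb) + t) + Cg * (X / Ee ^ 2 + t) + rest ≤ Y * (1 / Eb + 1 / Es) / Es := by
  obtain ⟨a, ha⟩ : ∃ a, a = Es⁻¹ := ⟨_, rfl⟩
  obtain ⟨b, hb⟩ : ∃ b, b = Eb⁻¹ := ⟨_, rfl⟩
  obtain ⟨x, hx⟩ : ∃ x, x = Ee⁻¹ := ⟨_, rfl⟩
  obtain ⟨y, hy⟩ : ∃ y, y = El⁻¹ := ⟨_, rfl⟩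
  have a0 : 0 < a := by rw [ha]; positivity
  have b0 : 0 < b := by rw [hb]; positivity
  have x0 : 0 < x := by rw [hx]; positivity
  have y0 : 0 < y := by rw [hy]; positivity
  have a1 : a ≤ 1 := by rw [ha]; exact inv_le_one_of_one_le₀ hEs
  have hxa : x ≤ kc * X * a := by
    rw [hx, ha, inv_le_iff_one_le_mul₀ (by linarith), ← div_eq_mul_inv, div_mul_eq_mul_div, le_div_iff₀ (by linarith)]
    linarith
  have hyb : y ≤ kc * b := by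
    rw [hy, hb, inv_le_iff_one_le_mul₀ (by linarith), ← div_eq_mul_inv, div_mul_eq_mul_div, le_div_iff₀ (by linarith)]
    linarith
  have e1 : X / (Ee * El) = X * (x * y) := by rw [hx, hy, ← mul_inv, div_eq_mul_inv]
  have e2 : X / (Ee * Eb) = X * (x * b) := by rw [hx, hb, ← mul_inv, div_eq_mul_inv]
  have e3 : X / Ee ^ 2 = X * x ^ 2 := by rw [hx, inv_pow, div_eq_mul_inv]
  have e4 : 1 / (Es ^ 2 * Eb) = a ^ 2 * b := by rw [ha, hb, one_div, mul_inv, inv_pow]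
  have e5 : Y * (1 / Eb + 1 / Es) / Es = Y * (b + a) * a := by rw [ha, hb, one_div, one_div, div_eq_mul_inv]
  rw [e1, e2, e3, e5]
  rw [e4] at hr
  have hX0 : 0 < X := by linarith
  have hk0 : 0 < kc := by linarith
  have f1 : X * (x * y) ≤ kc ^ 2 * X ^ 2 * (a * b) := by
    calc X * (x * y) ≤ X * ((kc * X * a) * (kc * b)) := by gcongr
      _ = kc ^ 2 * X ^ 2 * (a * b) := by ring
  have f2 : X * (x * b) ≤ kc * X ^ 2 * (a * b) := by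
    calc X * (x * b) ≤ X * ((kc * X * a) * b) := by gcongr
      _ = kc * X ^ 2 * (a * b) := by ring
  have f3 : X * x ^ 2 ≤ kc ^ 2 * X ^ 3 * a ^ 2 := by
    calc X * x ^ 2 ≤ X * (kc * X * a) ^ 2 := by gcongr
      _ = kc ^ 2 * X ^ 3 * a ^ 2 := by ring
  have f4 : a ^ 2 * b ≤ a * b := by nlinarith [mul_pos a0 b0]
  have k2 : kc ^ 2 * X ^ 2 ≤ kc ^ 4 * X ^ 4 :=
    mul_le_mul (pow_le_pow_right₀ hkc (by norm_num)) (pow_le_pow_right₀ hX (by norm_num)) (by positivity) (by positivity)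
  have k1 : kc * X ^ 2 ≤ kc ^ 4 * X ^ 4 := by
    have : kc ≤ kc ^ 4 := le_self_pow₀ hkc (by norm_num)
    exact mul_le_mul this (pow_le_pow_right₀ hX (by norm_num)) (by positivity) (by positivity)
  have k3 : kc ^ 2 * X ^ 3 ≤ kc ^ 4 * X ^ 4 :=
    mul_le_mul (pow_le_pow_right₀ hkc (by norm_num)) (pow_le_pow_right₀ hX (by norm_num)) (by positivity) (by positivity)
  have k0 : 1 ≤ kc ^ 4 * X ^ 4 := one_le_mul_of_one_le_of_one_le (one_le_pow₀ hkc) (one_le_pow₀ hX)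
  obtain ⟨Z, hZ⟩ : ∃ Z, Z = kc ^ 4 * X ^ 4 := ⟨_, rfl⟩
  rw [← hZ] at k0 k1 k2 k3
  have hZY : 24 * Z ≤ Y := by rw [hZ]; linarith
  have ab : 0 < a * b := mul_pos a0 b0
  have aa : 0 < a ^ 2 := by positivity
  have g1 := f1.trans (mul_le_mul_of_nonneg_right k2 ab.le)
  have g2 := f2.trans (mul_le_mul_of_nonneg_right k1 ab.le)
  have g3 := f3.trans (mul_le_mul_of_nonneg_right k3 aa.le)
  have g4 : a ^ 2 * b ≤ Z * (a * b) := f4.trans (le_mul_of_one_le_left ab.le k0)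
  have g5 : 24 * Z * (a * b + a ^ 2) ≤ Y * (a * b + a ^ 2) := mul_le_mul_of_nonneg_right hZY (by positivity)
  have g6 : Y * (b + a) * a = Y * (a * b + a ^ 2) := by ring
  rw [g6]
  have hZ0 : 0 < Z := by linarith
  have g7 : 0 ≤ Z * a ^ 2 := by positivity
  have g8 : 0 ≤ Z * (a * b) := by positivity
  have g9 : 0 ≤ X * x ^ 2 + t := by positivity
  have g10 : Cg * (X * x ^ 2 + t) ≤ 2 * (X * x ^ 2 + t) := mul_le_mul_of_nonneg_right hCg g9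
  linarith

/-- **The numbers, different blocks.** -/
theorem num_far73 {X Eb Es Ee El kc t rest Y Cg : ℝ} (hCg : Cg ≤ 2) (ht : 0 ≤ t) (hrest : 0 ≤ rest) (hX : 1 ≤ X) (hkc : 1 ≤ kc) (hEb : 1 ≤ Eb) (hEs : 1 ≤ Es) (hEe : 1 ≤ Ee)
    (hEl : 1 ≤ El) (h1 : Eb ≤ kc * El) (h2 : Es ≤ kc * X * Ee) (h3 : Eb ≤ Es) (hr : 2 * (21 * t + rest) ≤ 1 / (Es ^ 2 * Eb))
    (hY : 24 * kc ^ 4 * X ^ 4 ≤ Y) :
    16 * (X / (Ee ^ 2 * El) + t) + 4 * (X / (Ee ^ 2 * Eb) + t) + Cg * (X / Ee ^ 3 + t) + rest ≤ Y / (Es ^ 2 * Eb) := by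
  obtain ⟨a, ha⟩ : ∃ a, a = Es⁻¹ := ⟨_, rfl⟩
  obtain ⟨b, hb⟩ : ∃ b, b = Eb⁻¹ := ⟨_, rfl⟩
  obtain ⟨x, hx⟩ : ∃ x, x = Ee⁻¹ := ⟨_, rfl⟩
  obtain ⟨y, hy⟩ : ∃ y, y = El⁻¹ := ⟨_, rfl⟩
  have a0 : 0 < a := by rw [ha]; positivity
  have b0 : 0 < b := by rw [hb]; positivity
  have x0 : 0 < x := by rw [hx]; positivity
  have y0 : 0 < y := by rw [hy]; positivity
  have hab : a ≤ b := by rw [ha, hb]; exact inv_anti₀ (by linarith) h3
  have hxa : x ≤ kc * X * a := by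
    rw [hx, ha, inv_le_iff_one_le_mul₀ (by linarith), ← div_eq_mul_inv, div_mul_eq_mul_div, le_div_iff₀ (by linarith)]
    linarith
  have hyb : y ≤ kc * b := by
    rw [hy, hb, inv_le_iff_one_le_mul₀ (by linarith), ← div_eq_mul_inv, div_mul_eq_mul_div, le_div_iff₀ (by linarith)]
    linarith
  have e1 : X / (Ee ^ 2 * El) = X * (x ^ 2 * y) := by rw [hx, hy, inv_pow, ← mul_inv, div_eq_mul_inv]
  have e2 : X / (Ee ^ 2 * Eb) = X * (x ^ 2 * b) := by rw [hx, hb, inv_pow, ← mul_inv, div_eq_mul_inv]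
  have e3 : X / Ee ^ 3 = X * x ^ 3 := by rw [hx, inv_pow, div_eq_mul_inv]
  have e4 : 1 / (Es ^ 2 * Eb) = a ^ 2 * b := by rw [ha, hb, one_div, mul_inv, inv_pow]
  have e5 : Y / (Es ^ 2 * Eb) = Y * (a ^ 2 * b) := by rw [ha, hb, inv_pow, ← mul_inv, div_eq_mul_inv]
  rw [e1, e2, e3, e5]
  rw [e4] at hr
  have hX0 : 0 < X := by linarith
  have hk0 : 0 < kc := by linarith
  have f1 : X * (x ^ 2 * y) ≤ kc ^ 3 * X ^ 3 * (a ^ 2 * b) := by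
    calc X * (x ^ 2 * y) ≤ X * ((kc * X * a) ^ 2 * (kc * b)) := by gcongr
      _ = kc ^ 3 * X ^ 3 * (a ^ 2 * b) := by ring
  have f2 : X * (x ^ 2 * b) ≤ kc ^ 2 * X ^ 3 * (a ^ 2 * b) := by
    calc X * (x ^ 2 * b) ≤ X * ((kc * X * a) ^ 2 * b) := by gcongr
      _ = kc ^ 2 * X ^ 3 * (a ^ 2 * b) := by ring
  have f3 : X * x ^ 3 ≤ kc ^ 3 * X ^ 4 * (a ^ 2 * b) := by
    calc X * x ^ 3 ≤ X * (kc * X * a) ^ 3 := by gcongr
      _ = kc ^ 3 * X ^ 4 * (a ^ 2 * a) := by ring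
      _ ≤ kc ^ 3 * X ^ 4 * (a ^ 2 * b) := by gcongr
  have k3 : kc ^ 3 * X ^ 3 ≤ kc ^ 4 * X ^ 4 :=
    mul_le_mul (pow_le_pow_right₀ hkc (by norm_num)) (pow_le_pow_right₀ hX (by norm_num)) (by positivity) (by positivity)
  have k2 : kc ^ 2 * X ^ 3 ≤ kc ^ 4 * X ^ 4 :=
    mul_le_mul (pow_le_pow_right₀ hkc (by norm_num)) (pow_le_pow_right₀ hX (by norm_num)) (by positivity) (by positivity)
  have k4 : kc ^ 3 * X ^ 4 ≤ kc ^ 4 * X ^ 4 :=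
    mul_le_mul (pow_le_pow_right₀ hkc (by norm_num)) le_rfl (by positivity) (by positivity)
  have k0 : 1 ≤ kc ^ 4 * X ^ 4 := one_le_mul_of_one_le_of_one_le (one_le_pow₀ hkc) (one_le_pow₀ hX)
  obtain ⟨Z, hZ⟩ : ∃ Z, Z = kc ^ 4 * X ^ 4 := ⟨_, rfl⟩
  rw [← hZ] at k0 k2 k3 k4
  have hZY : 24 * Z ≤ Y := by rw [hZ]; linarith
  have ab : 0 < a ^ 2 * b := by positivity
  have g1 := f1.trans (mul_le_mul_of_nonneg_right k3 ab.le)
  have g2 := f2.trans (mul_le_mul_of_nonneg_right k2 ab.le)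
  have g3 := f3.trans (mul_le_mul_of_nonneg_right k4 ab.le)
  have g4 : a ^ 2 * b ≤ Z * (a ^ 2 * b) := le_mul_of_one_le_left ab.le k0
  have g5 : 24 * Z * (a ^ 2 * b) ≤ Y * (a ^ 2 * b) := mul_le_mul_of_nonneg_right hZY ab.le
  have g9 : 0 ≤ X * x ^ 3 + t := by positivity
  have g10 : Cg * (X * x ^ 3 + t) ≤ 2 * (X * x ^ 3 + t) := mul_le_mul_of_nonneg_right hCg g9
  linarith

end
end Pool.W7d29a1.C0.Bd73
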