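import Pool.Agent.W_7d29a1_C0.GSTop96

/-!
MP_7d29a1_pr, [C0], GS (helper65): THE SUMS OVER THE PAIRS OF ROWS WITH ONE OWN TIE FOR ALL PAIRS IN THE SAME BLOCK `B'`.

`Phi65` is `Phi` of `GSsum4` with `G / E s` in place of `G / E (max m s)` for the distances `m < s'`: for two rows in the same block of length
`s'` only the tie of ONE of them is used. `new65`: with the pins `N ^ c E_ρ ≤ E_b ^ 2, E_b' ^ 2 ≤ N ^ (9 c / 8) E_ρ` of `Chg96` the new sum has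
the margin `7 c / 32`. `sums65` = `sums96` for the majorant `Ph65`; `KbN65`, `sig_of65`, `sigN65` = the top of GS (helper96) with `Ph65`.
-/

set_option autoImplicit false

namespace Pool.Agent.W_7d29a1_C0.GSN65

open Finset MeasureTheory Filter Topology Pool.Agent.W_7d29a1_F Pool.Agent.W_7d29a1_X Pool.Agent.W_7d29a1_H
open Pool.Agent.W_7d29a1_C0.Mod92 Pool.Agent.W_7d29a1_C0
open Pool.W7d29a1.C0 (gz gm lse gz_pos gz_ne gm_nonneg gm_mono gm_const)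
open Pool.W7d29a1.C0.VT31
open Pool.Agent.W_7d29a1_HS (wd)
open Pool.Agent.W_7d29a1_C0.Par92 (Est Sml)
open Pool.Agent.W_7d29a1_C0.Near32 (Dt)
open Pool.Agent.W_7d29a1_C0.GS4 (Phi Phi_nonneg sum_Phi_le dsum_le Reg gs8 close_cs exps rpow_nat)
open Pool.Agent.W_7d29a1_C0.Asm96

noncomputable section

/-! ### The majorant -/

/-- The majorant as a function of the distance: `A` for near rows, `G / E s` for rows in one block of length `s'`, `H / E (max m s)` for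
rows in one loop of any scale, `C` for different loops. -/
def Phi65 (E : ℕ → ℝ) (A G H C : ℝ) (l s s' m : ℕ) : ℝ :=
  (if m < l then A else 0) + (if m < s' then G / E s else 0) + H / E (max m s) + C

theorem Phi65_nonneg {E : ℕ → ℝ} (hE : ∀ n, 0 < E n) {A G H C : ℝ} (hA : 0 ≤ A) (hG : 0 ≤ G) (hH : 0 ≤ H) (hC : 0 ≤ C) (l s s' m : ℕ) :
    0 ≤ Phi65 E A G H C l s s' m := by
  unfold Phi65
  have := hE (max m s)
  have := hE s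
  split_ifs <;> positivity

theorem Phi_le65 {E : ℕ → ℝ} (hE : ∀ n, 0 < E n) (hm : Monotone E) {A G H C : ℝ} (hG : 0 ≤ G) (l s s' m : ℕ) :
    Phi E A G H C l s s' m ≤ Phi65 E A G H C l s s' m := by
  unfold Phi Phi65
  have h1 : G / E (max m s) ≤ G / E s := div_le_div_of_nonneg_left hG (hE s) (hm (le_max_right _ _))
  split_ifs <;> linarith

theorem sum_Phi65_le {E : ℕ → ℝ} (hE : ∀ n, 0 < E n) {K : ℝ} (hK : 0 ≤ K)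
    (hpow : ∀ t r : ℕ, 1 ≤ t → t ≤ r → E r ≤ K * Real.sqrt ((r : ℝ) / t) * E t) {A G H C : ℝ} (hA : 0 ≤ A) (hG : 0 ≤ G) (hH : 0 ≤ H)
    {l s s' L : ℕ} (hs : 1 ≤ s) (hss : s ≤ s') (hsL : s ≤ L) :
    ∑ m ∈ range L, Phi65 E A G H C l s s' m ≤ l * A + s' * (G / E s) + 3 * K * H * (L / E L) + L * C := by
  have h1 := sum_Phi_le (A := A) (G := 0) (H := H) (C := C) (l := l) hE hK hpow hA le_rfl hH hs hss hsL
  have h2 : ∑ m ∈ range L, (if m < s' then G / E s else 0) ≤ s' * (G / E s) := by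
    rw [← sum_filter, sum_const, nsmul_eq_mul]
    refine mul_le_mul_of_nonneg_right ?_ (div_nonneg hG (hE s).le)
    have h : (range L).filter (fun m => m < s') ⊆ range s' := fun m hm => mem_range.2 (mem_filter.1 hm).2
    have := card_le_card h
    rw [card_range] at this
    exact_mod_cast this
  have e : ∑ m ∈ range L, Phi65 E A G H C l s s' m =
      ∑ m ∈ range L, Phi E A 0 H C l s s' m + ∑ m ∈ range L, (if m < s' then G / E s else 0) := by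
    rw [← sum_add_distrib]
    refine sum_congr rfl fun m _ => ?_
    unfold Phi65 Phi
    rw [zero_div, ite_self]
    ring
  rw [e]
  linarith

/-- **The double sum with the majorant `Phi65`.** -/
theorem dsum_Phi65 {E : ℕ → ℝ} (hE : ∀ n, 0 < E n) {K : ℝ} (hK : 0 ≤ K)
    (hpow : ∀ t r : ℕ, 1 ≤ t → t ≤ r → E r ≤ K * Real.sqrt ((r : ℝ) / t) * E t) {A G H C : ℝ} (hA : 0 ≤ A) (hG : 0 ≤ G) (hH : 0 ≤ H)
    (hC : 0 ≤ C) {l s s' L : ℕ} (hs : 1 ≤ s) (hss : s ≤ s') (hsL : s ≤ L) {S : Finset ℕ} {c : ℕ} (hS : ∀ k ∈ S, c ≤ k ∧ k < c + L)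
    {P : ℕ → ℕ → ℝ} (h : ∀ j ∈ S, ∀ k ∈ S, P j k ≤ Phi65 E A G H C l s s' (Nat.dist j k)) :
    ∑ j ∈ S, ∑ k ∈ S, P j k ≤ 2 * L * (l * A + s' * (G / E s) + 3 * K * H * (L / E L) + L * C) := by
  refine (dsum_le hS (Phi65_nonneg hE hA hG hH hC l s s') h).trans ?_
  have h1 := sum_Phi65_le (C := C) (l := l) hE hK hpow hA hG hH hs hss hsL
  have h2 : (0 : ℝ) ≤ ∑ m ∈ range L, Phi65 E A G H C l s s' m := sum_nonneg fun m _ => Phi65_nonneg hE hA hG hH hC l s s' m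
  have h3 : (S.card : ℝ) ≤ L := by
    have h4 : S ⊆ Ico c (c + L) := fun k hk => mem_Ico.2 (hS k hk)
    have h5 := card_le_card h4
    rw [Nat.card_Ico, Nat.add_sub_cancel_left] at h5
    exact_mod_cast h5
  calc (S.card : ℝ) * (2 * ∑ m ∈ range L, Phi65 E A G H C l s s' m) ≤ L * (2 * ∑ m ∈ range L, Phi65 E A G H C l s s' m) :=
        mul_le_mul_of_nonneg_right h3 (by positivity)
    _ ≤ L * (2 * (l * A + s' * (G / E s) + 3 * K * H * (L / E L) + L * C)) :=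
        mul_le_mul_of_nonneg_left (mul_le_mul_of_nonneg_left h1 (by norm_num)) (Nat.cast_nonneg _)
    _ = 2 * L * (l * A + s' * (G / E s) + 3 * K * H * (L / E L) + L * C) := by ring

/-! ### The numbers -/

/-- **The new sum**: margin `7 c / 32` against `c / 32`. -/
theorem new65 {E w : ℕ → ℝ} {c₀ Θ δ a ε N c ε₁ : ℝ} {b s b' s' ρ : ℕ} (R : Reg46 E w c₀ Θ δ a ε N) (h : Ch46 E δ c Θ N b s b' s' ρ)
    (hε : ε ≤ c / 128) (hε₁ : ε₁ ≤ c / 128) :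
    2 * (s' * (N ^ ε₁ * (1 / E b + 1 / E s) / E s)) ≤ 1 / 2 * (E ρ * N ^ (Θ - c / 32)) := by
  have hN := R.N1
  have hN0 := R.N0
  have e1 := R.Epos b
  have e2 := R.Epos s
  have e3 := R.Epos ρ
  have e4 := h.h'.hs.pos hN
  have e5 : E b ≤ E s := R.mono h.h.bs
  have e6 : (1 / E b + 1 / E s) ≤ 2 / E b := by
    have : 1 / E s ≤ 1 / E b := one_div_le_one_div_of_le e1 e5
    calc 1 / E b + 1 / E s ≤ 1 / E b + 1 / E b := by linarith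
      _ = 2 / E b := by ring
  have key : 8 * (s' : ℝ) * N ^ ε₁ ≤ E b * E s * E ρ * N ^ (Θ - c / 32) := by
    refine of_lg46 hN (by positivity) (by positivity) ?_
    rw [Real.logb_mul (by positivity) (by positivity), Real.logb_mul (by positivity) (by positivity), lgN46 hN,
      Real.logb_mul (by positivity) (by positivity), Real.logb_mul (by positivity) (by positivity),
      Real.logb_mul (by positivity) (by positivity), lgN46 hN]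
    have a1 : Real.logb N 8 ≤ ε := (to_lg46 hN (by norm_num) (by norm_num : (8 : ℝ) ≤ 16)).trans R.l16
    have a2 := R.lkap' h.h'.hs
    have a3 := h.h'.ls2 R
    have a4 := h.h'.lup R
    have a5 := h.h.ls1 R
    have a6 := h.h.lpin R
    have a7 := R.ε0
    have a8 := h.h.c0
    linarith
  have hp : 0 < N ^ ε₁ := Real.rpow_pos_of_pos hN0 _
  have f1 : N ^ ε₁ * (1 / E b + 1 / E s) / E s ≤ N ^ ε₁ * (2 / E b) / E s :=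
    div_le_div_of_nonneg_right (mul_le_mul_of_nonneg_left e6 hp.le) e2.le
  have f2 : 2 * ((s' : ℝ) * (N ^ ε₁ * (2 / E b) / E s)) ≤ 1 / 2 * (E ρ * N ^ (Θ - c / 32)) := by
    have f3 : 2 * ((s' : ℝ) * (N ^ ε₁ * (2 / E b) / E s)) = 1 / 2 * ((8 * (s' : ℝ) * N ^ ε₁) / (E b * E s)) := by
      field_simp
      ring
    rw [f3]
    refine mul_le_mul_of_nonneg_left ?_ (by norm_num)
    rw [div_le_iff₀ (by positivity)]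
    linarith [key, show E b * E s * E ρ * N ^ (Θ - c / 32) = E ρ * N ^ (Θ - c / 32) * (E b * E s) by ring]
  have f4 := mul_le_mul_of_nonneg_left (mul_le_mul_of_nonneg_left f1 e4.le) (by norm_num : (0 : ℝ) ≤ 2)
  exact f4.trans f2

variable (μ : Measure ℝ) (s : ℝ) (F : Frm96) (E : ℕ → ℝ) (Θ δ c η ε₁ : ℝ)

/-- The majorant of the pair of rows at the distance `n`. -/
def Ph65 (m p p' n : ℕ) : ℝ :=
  Phi65 E (((2 ^ m : ℕ) : ℝ) ^ ε₁ / E (2 ^ sg96 E c m p)) (((2 ^ m : ℕ) : ℝ) ^ ε₁ * (1 / E (2 ^ p) + 1 / E (2 ^ sg96 E c m p)))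
    (((2 ^ m : ℕ) : ℝ) ^ ε₁ / E (2 ^ sg96 E c m p) ^ 2) (((2 ^ m : ℕ) : ℝ) ^ ε₁ / (E (2 ^ sg96 E c m p) ^ 2 * E (2 ^ p)))
      (8 * 2 ^ p) (2 ^ sg96 E c m p) (2 ^ sg96 E c m p') n

/-- **The kick**, with the majorant `Ph65`. -/
def KbN65 (m : ℕ) : Prop := ∀ p p' q i : ℕ, Chg96 E Θ δ c η m p p' q → i < 2 ^ (m - q) → ∃ P P' : ℕ → ℕ → ℝ,
  (∀ j ∈ Rw (F.R m) (i * 2 ^ q) ((i + 1) * 2 ^ q), ∀ k ∈ Rw (F.R m) (i * 2 ^ q) ((i + 1) * 2 ^ q),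
    P j k ≤ Ph65 E c ε₁ m p p' (Nat.dist j k) ∧ P' j k ≤ Ph65 E c ε₁ m p p' (Nat.dist j k)) ∧
  dx96 μ s F E c m p p' q i ≤ 2 ^ q * (8 * 2 ^ p * (((2 ^ m : ℕ) : ℝ) ^ ε₁ / E (2 ^ sg96 E c m p))) +
    √(∑ j ∈ Rw (F.R m) (i * 2 ^ q) ((i + 1) * 2 ^ q), ∑ k ∈ Rw (F.R m) (i * 2 ^ q) ((i + 1) * 2 ^ q), P j k) *
      √(dx96 μ s F E c m p p' q i) +
    ∑ j ∈ Rw (F.R m) (i * 2 ^ q) ((i + 1) * 2 ^ q), ∑ k ∈ Rw (F.R m) (i * 2 ^ q) ((i + 1) * 2 ^ q), P' j k + 1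

variable {μ s F E Θ δ c η ε₁}

theorem Ph_le65 (hE : ∀ n, 0 < E n) (hm : Monotone E) (m p p' n : ℕ) : Ph96 E c ε₁ m p p' n ≤ Ph65 E c ε₁ m p p' n := by
  unfold Ph96 Ph65
  have h1 := hE (2 ^ p)
  have h2 := hE (2 ^ sg96 E c m p)
  exact Phi_le65 hE hm (by positivity) _ _ _ _

/-- `KbN` implies `KbN65`. -/
theorem KbN.to65 (hE : ∀ n, 0 < E n) (hm : Monotone E) {m : ℕ} (h : KbN μ s F E Θ δ c η ε₁ m) : KbN65 μ s F E Θ δ c η ε₁ m := by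
  intro p p' q i hC hi
  obtain ⟨P, P', h1, h2⟩ := h p p' q i hC hi
  exact ⟨P, P', fun j hj k hk => ⟨(h1 j hj k hk).1.trans (Ph_le65 hE hm _ _ _ _), (h1 j hj k hk).2.trans (Ph_le65 hE hm _ _ _ _)⟩, h2⟩

/-- The majorant, the same block of length `s' = 2 ^ sg96 p'`. -/
theorem Ph65_same (hE : ∀ n, 0 < E n) {m p p' j k : ℕ} (h : j / 2 ^ sg96 E c m p' = k / 2 ^ sg96 E c m p') :
    ((2 ^ m : ℕ) : ℝ) ^ ε₁ * (1 / E (2 ^ p) + 1 / E (2 ^ sg96 E c m p)) / E (2 ^ sg96 E c m p) ≤ Ph65 E c ε₁ m p p' (Nat.dist j k) := by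
  have hX : 0 ≤ ((2 ^ m : ℕ) : ℝ) ^ ε₁ := Real.rpow_nonneg (Nat.cast_nonneg _) _
  have hs0 : 0 < 2 ^ sg96 E c m p' := by positivity
  have hd : Nat.dist j k < 2 ^ sg96 E c m p' := by
    have h1 := Nat.div_add_mod j (2 ^ sg96 E c m p')
    have h2 := Nat.div_add_mod k (2 ^ sg96 E c m p')
    have h3 := Nat.mod_lt j hs0
    have h4 := Nat.mod_lt k hs0
    rw [h] at h1
    unfold Nat.dist
    omega
  have e1 := hE (2 ^ p)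
  have e2 := hE (2 ^ sg96 E c m p)
  have e3 := hE (max (Nat.dist j k) (2 ^ sg96 E c m p))
  unfold Ph65 Phi65
  rw [if_pos hd]
  have f1 : 0 ≤ (if Nat.dist j k < 8 * 2 ^ p then ((2 ^ m : ℕ) : ℝ) ^ ε₁ / E (2 ^ sg96 E c m p) else 0) := by
    split_ifs <;> positivity
  have f2 : 0 ≤ ((2 ^ m : ℕ) : ℝ) ^ ε₁ / E (2 ^ sg96 E c m p) ^ 2 / E (max (Nat.dist j k) (2 ^ sg96 E c m p)) := by positivity
  have f3 : 0 ≤ ((2 ^ m : ℕ) : ℝ) ^ ε₁ / (E (2 ^ sg96 E c m p) ^ 2 * E (2 ^ p)) := by positivity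
  linarith

/-- The majorant, every pair: `N ^ ε₁ / (E_s ^ 2 E_b)`. -/
theorem Ph65_far (hE : ∀ n, 0 < E n) (m p p' n : ℕ) :
    ((2 ^ m : ℕ) : ℝ) ^ ε₁ / (E (2 ^ sg96 E c m p) ^ 2 * E (2 ^ p)) ≤ Ph65 E c ε₁ m p p' n := by
  have hX : 0 ≤ ((2 ^ m : ℕ) : ℝ) ^ ε₁ := Real.rpow_nonneg (Nat.cast_nonneg _) _
  have e1 := hE (2 ^ p)
  have e2 := hE (2 ^ sg96 E c m p)
  have e3 := hE (max n (2 ^ sg96 E c m p))
  unfold Ph65 Phi65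
  have f1 : 0 ≤ (if n < 8 * 2 ^ p then ((2 ^ m : ℕ) : ℝ) ^ ε₁ / E (2 ^ sg96 E c m p) else 0) := by
    split_ifs <;> positivity
  have f2 : 0 ≤ (if n < 2 ^ sg96 E c m p' then ((2 ^ m : ℕ) : ℝ) ^ ε₁ * (1 / E (2 ^ p) + 1 / E (2 ^ sg96 E c m p)) /
    E (2 ^ sg96 E c m p) else 0) := by
    split_ifs <;> positivity
  have f3 : 0 ≤ ((2 ^ m : ℕ) : ℝ) ^ ε₁ / E (2 ^ sg96 E c m p) ^ 2 / E (max n (2 ^ sg96 E c m p)) := by positivity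
  linarith

/-- **The sums of one change of base**: the near pairs and the double sums of the majorant `Ph65`. -/
theorem sums65 {w : ℕ → ℝ} {c₀ a ε : ℝ} {m p p' q i : ℕ} (R : Reg46 E w c₀ Θ δ a ε ((2 ^ m : ℕ) : ℝ)) (hcδ : 64 * c ≤ δ)
    (hc : 0 < c) (hε : ε ≤ c / 128) (hε₁ : ε₁ ≤ c / 128) (hmono : Monotone E) (hC : Chg96 E Θ δ c η m p p' q) (hqm : q ≤ m)
    {S : Finset ℕ} (hS : S ⊆ Ico (i * 2 ^ q) ((i + 1) * 2 ^ q)) {P : ℕ → ℕ → ℝ}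
    (hP : ∀ j ∈ S, ∀ k ∈ S, P j k ≤ Ph65 E c ε₁ m p p' (Nat.dist j k)) :
    8 * (2 : ℝ) ^ p * (((2 ^ m : ℕ) : ℝ) ^ ε₁ / E (2 ^ sg96 E c m p)) ≤ E (2 ^ q) * ((2 ^ m : ℕ) : ℝ) ^ (Θ - c / 32) ∧
      ∑ j ∈ S, ∑ k ∈ S, P j k ≤ 2 ^ q * (E (2 ^ q) * ((2 ^ m : ℕ) : ℝ) ^ (Θ - c / 32)) := by
  have hN := R.N1
  have hN0 := R.N0
  have hN1 : (1 : ℝ) ≤ ((2 ^ m : ℕ) : ℝ) := hN.le
  have H := ch46 R hc hcδ hC hqm
  have hreg := reg_of46 R H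
  have hK0 : 0 ≤ ((2 ^ m : ℕ) : ℝ) ^ ε := Real.rpow_nonneg hN0.le _
  have hk : 18 + 54 * ((2 ^ m : ℕ) : ℝ) ^ ε ≤ ((2 ^ m : ℕ) : ℝ) ^ (c / 24) := by
    have hK := R.K
    have e1 : ((2 ^ m : ℕ) : ℝ) ^ ε * (((2 ^ m : ℕ) : ℝ) ^ ε * ((2 ^ m : ℕ) : ℝ) ^ ε) ≤ ((2 ^ m : ℕ) : ℝ) ^ (c / 24) := by
      rw [← Real.rpow_add hN0, ← Real.rpow_add hN0]
      exact Real.rpow_le_rpow_of_exponent_le hN1 (by linarith)
    nlinarith [mul_le_mul hK hK (by norm_num) hK0]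
  have hpow := R.half
  have hss : 2 ^ sg96 E c m p ≤ 2 ^ sg96 E c m p' := by
    refine Nat.pow_le_pow_right two_pos (Nat.sInf_le ⟨hC.hpp.trans hC.hps', le_trans ?_ H.h'.s1⟩)
    exact pow_le_pow_left₀ (R.Epos _).le (hmono (Nat.pow_le_pow_right two_pos hC.hpp)) 6
  have hsr : 2 ^ sg96 E c m p' ≤ 2 ^ q := H.h'.sr
  have hEp := R.Epos
  have e0 := hEp (2 ^ sg96 E c m p)
  have e1 := hEp (2 ^ p)
  have e2 := hEp (2 ^ q)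
  have e3 := hEp (2 ^ sg96 E c m p')
  have e4 : 0 ≤ ((2 ^ m : ℕ) : ℝ) ^ ε₁ := Real.rpow_nonneg hN0.le _
  -- the parts of `gs8`, with a smaller right side
  have h6 := hreg.total (K := ((2 ^ m : ℕ) : ℝ) ^ ε) (ε₁ := ε₁) (c' := c / 24) hK0 (by linarith) (by linarith) (by linarith)
    (by linarith) (by linarith) hk
  have h7 : E (2 ^ q) * ((2 ^ m : ℕ) : ℝ) ^ (Θ - c / 24) ≤ 1 / 2 * (E (2 ^ q) * ((2 ^ m : ℕ) : ℝ) ^ (Θ - c / 32)) := by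
    have a1 : 2 * ((2 ^ m : ℕ) : ℝ) ^ (Θ - c / 24) ≤ ((2 ^ m : ℕ) : ℝ) ^ (Θ - c / 32) := by
      have a2 : (2 : ℝ) ≤ ((2 ^ m : ℕ) : ℝ) ^ (c / 96) := by
        have a3 := R.K
        have a4 : ((2 ^ m : ℕ) : ℝ) ^ ε ≤ ((2 ^ m : ℕ) : ℝ) ^ (c / 96) := Real.rpow_le_rpow_of_exponent_le hN1 (by linarith)
        linarith
      calc 2 * ((2 ^ m : ℕ) : ℝ) ^ (Θ - c / 24) ≤ ((2 ^ m : ℕ) : ℝ) ^ (c / 96) * ((2 ^ m : ℕ) : ℝ) ^ (Θ - c / 24) :=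
            mul_le_mul_of_nonneg_right a2 (Real.rpow_nonneg hN0.le _)
        _ = ((2 ^ m : ℕ) : ℝ) ^ (Θ - c / 32) := by
            rw [← Real.rpow_add hN0]
            ring_nf
    have := mul_le_mul_of_nonneg_left a1 e2.le
    linarith
  have h8 := new65 R H hε hε₁
  have f0 : 0 ≤ E (2 ^ q) * ((2 ^ m : ℕ) : ℝ) ^ (Θ - c / 32) := mul_nonneg e2.le (Real.rpow_nonneg hN0.le _)
  have f1 : 0 ≤ 3 * ((2 ^ m : ℕ) : ℝ) ^ ε * (((2 ^ m : ℕ) : ℝ) ^ ε₁ * (1 / E (2 ^ p) + 1 / E (2 ^ sg96 E c m p))) *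
    (((2 ^ sg96 E c m p' : ℕ) : ℝ) / E (2 ^ sg96 E c m p')) := by positivity
  have f2 : 0 ≤ 3 * ((2 ^ m : ℕ) : ℝ) ^ ε * (((2 ^ m : ℕ) : ℝ) ^ ε₁ / E (2 ^ sg96 E c m p) ^ 2) *
    (((2 ^ q : ℕ) : ℝ) / E (2 ^ q)) := by positivity
  have f3 : 0 ≤ ((2 ^ q : ℕ) : ℝ) * (((2 ^ m : ℕ) : ℝ) ^ ε₁ / (E (2 ^ sg96 E c m p) ^ 2 * E (2 ^ p))) := by positivity
  have f4 : 0 ≤ 8 * ((2 ^ p : ℕ) : ℝ) * (((2 ^ m : ℕ) : ℝ) ^ ε₁ / E (2 ^ sg96 E c m p)) := by positivity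
  have f5 : ((2 ^ p : ℕ) : ℝ) = (2 : ℝ) ^ p := by push_cast; rfl
  refine ⟨?_, ?_⟩
  · rw [f5] at h6 f4
    linarith
  · have e5 := dsum_Phi65 (S := S) (c := i * 2 ^ q) (L := 2 ^ q) hEp hK0 hpow (A := ((2 ^ m : ℕ) : ℝ) ^ ε₁ / E (2 ^ sg96 E c m p))
      (G := ((2 ^ m : ℕ) : ℝ) ^ ε₁ * (1 / E (2 ^ p) + 1 / E (2 ^ sg96 E c m p)))
      (H := ((2 ^ m : ℕ) : ℝ) ^ ε₁ / E (2 ^ sg96 E c m p) ^ 2)
      (C := ((2 ^ m : ℕ) : ℝ) ^ ε₁ / (E (2 ^ sg96 E c m p) ^ 2 * E (2 ^ p))) (l := 8 * 2 ^ p) (s := 2 ^ sg96 E c m p)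
      (s' := 2 ^ sg96 E c m p') (P := P) (by positivity) (by positivity) (by positivity) (by positivity) (Nat.one_le_two_pow) hss
      (hss.trans hsr)
      (fun k hk => by
        have h6 := mem_Ico.1 (hS hk)
        have h7 : (i + 1) * 2 ^ q = i * 2 ^ q + 2 ^ q := by ring
        omega) hP
    refine e5.trans ?_
    have g1 : ((8 * 2 ^ p : ℕ) : ℝ) = 8 * ((2 ^ p : ℕ) : ℝ) := by push_cast; ring
    have g2 : ((2 ^ q : ℕ) : ℝ) = (2 : ℝ) ^ q := by push_cast; rfl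
    have g3 : (0 : ℝ) < 2 ^ q := by positivity
    rw [g1]
    obtain ⟨X, hX⟩ : ∃ X, X = 8 * ((2 ^ p : ℕ) : ℝ) * (((2 ^ m : ℕ) : ℝ) ^ ε₁ / E (2 ^ sg96 E c m p)) +
      ((2 ^ sg96 E c m p' : ℕ) : ℝ) * (((2 ^ m : ℕ) : ℝ) ^ ε₁ * (1 / E (2 ^ p) + 1 / E (2 ^ sg96 E c m p)) / E (2 ^ sg96 E c m p)) +
      3 * ((2 ^ m : ℕ) : ℝ) ^ ε * (((2 ^ m : ℕ) : ℝ) ^ ε₁ / E (2 ^ sg96 E c m p) ^ 2) * (((2 ^ q : ℕ) : ℝ) / E (2 ^ q)) +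
      ((2 ^ q : ℕ) : ℝ) * (((2 ^ m : ℕ) : ℝ) ^ ε₁ / (E (2 ^ sg96 E c m p) ^ 2 * E (2 ^ p))) := ⟨_, rfl⟩
    have g4 : 2 * X ≤ E (2 ^ q) * ((2 ^ m : ℕ) : ℝ) ^ (Θ - c / 32) := by
      rw [hX]
      linarith
    rw [← hX, g2]
    have g5 := mul_le_mul_of_nonneg_left g4 g3.le
    linarith

/-- **THE TOP OF GS**, at a fixed length. -/
theorem sig_of65 {w : ℕ → ℝ} {c₀ a ε : ℝ} {m : ℕ} (R : Reg46 E w c₀ Θ δ a ε ((2 ^ m : ℕ) : ℝ)) (hcδ : 64 * c ≤ δ) (hc : 0 < c)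
    (hcΘ : c ≤ Θ) (hη : 0 ≤ η) (hε : ε ≤ c / 128) (hε₁0 : 0 ≤ ε₁) (hε₁ : ε₁ ≤ c / 128) (hmono : Monotone E)
    (hF : F.Ok Θ m) (hst : StN μ s F E Θ δ c η ε₁ m) (hkb : KbN65 μ s F E Θ δ c η ε₁ m) :
    SigN μ s F E Θ δ c η (c / 64) m := by
  intro p p' q i hC hi
  have hqm : q ≤ m := by
    have h1 := hC.hqm
    have h2 : 0 ≤ η * (m : ℝ) := mul_nonneg hη (Nat.cast_nonneg _)
    have h3 : (q : ℝ) ≤ m := by linarith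
    exact_mod_cast h3
  have hN := R.N1
  have hN0 := R.N0
  have hN1 : (1 : ℝ) ≤ ((2 ^ m : ℕ) : ℝ) := hN.le
  obtain ⟨P, P', hP, hdx⟩ := hkb p p' q i hC hi
  have hS : Rw (F.R m) (i * 2 ^ q) ((i + 1) * 2 ^ q) ⊆ Ico (i * 2 ^ q) ((i + 1) * 2 ^ q) := inter_subset_right
  obtain ⟨s1, s2⟩ := sums65 R hcδ hc hε hε₁ hmono hC hqm hS (P := P) fun j hj k hk => (hP j hj k hk).1
  obtain ⟨-, s3⟩ := sums65 R hcδ hc hε hε₁ hmono hC hqm hS (P := P') fun j hj k hk => (hP j hj k hk).2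
  refine (hst p p' q i hC hi).trans ?_
  have hx0 : 0 ≤ dx96 μ s F E c m p p' q i := avy_nonneg fun y hy => by
    have := ne_Pn (hF.hy y hy)
    exact integral_nonneg fun _ => gm_nonneg _ fun _ => sq_nonneg _
  obtain ⟨x, hx⟩ : ∃ x, x = dx96 μ s F E c m p p' q i := ⟨_, rfl⟩
  rw [← hx] at hx0 hdx ⊢
  obtain ⟨A, hA⟩ : ∃ A, A = (2 : ℝ) ^ q * (E (2 ^ q) * ((2 ^ m : ℕ) : ℝ) ^ (Θ - c / 32)) := ⟨_, rfl⟩
  have hE := R.Epos (2 ^ q)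
  have hE1 := R.E1 (2 ^ q)
  have hA0 : 0 ≤ A := by
    rw [hA]
    positivity
  rw [← hA] at s2 s3
  have s1' : (2 : ℝ) ^ q * (8 * 2 ^ p * (((2 ^ m : ℕ) : ℝ) ^ ε₁ / E (2 ^ sg96 E c m p))) ≤ A := by
    rw [hA]
    exact mul_le_mul_of_nonneg_left s1 (by positivity)
  have h1 : x ≤ (A + A + 1) + √A * √x + 0 * √x := by
    have h2 := mul_le_mul_of_nonneg_right (Real.sqrt_le_sqrt s2) (Real.sqrt_nonneg x)
    linarith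
  have h2 := close_cs hx0 h1
  rw [Real.sq_sqrt hA0] at h2
  have h3 : x ≤ 6 * A + 2 := by linarith
  have hNe : 0 ≤ ((2 ^ m : ℕ) : ℝ) ^ ε₁ := Real.rpow_nonneg hN0.le _
  have h4 : ((2 ^ m : ℕ) : ℝ) ^ ε₁ / E (2 ^ q) * A = 2 ^ q * ((2 ^ m : ℕ) : ℝ) ^ (Θ - c / 32 + ε₁) := by
    rw [hA, Real.rpow_add hN0]
    field_simp
  have hq1 : (1 : ℝ) ≤ 2 ^ q := one_le_pow₀ one_le_two
  have hT : (1 : ℝ) ≤ ((2 ^ m : ℕ) : ℝ) ^ (Θ - c / 32 + ε₁) := Real.one_le_rpow hN1 (by linarith)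
  have h5 : ((2 ^ m : ℕ) : ℝ) ^ ε₁ / E (2 ^ q) ≤ 2 ^ q * ((2 ^ m : ℕ) : ℝ) ^ (Θ - c / 32 + ε₁) := by
    calc ((2 ^ m : ℕ) : ℝ) ^ ε₁ / E (2 ^ q) ≤ ((2 ^ m : ℕ) : ℝ) ^ ε₁ := div_le_self hNe hE1
      _ ≤ ((2 ^ m : ℕ) : ℝ) ^ (Θ - c / 32 + ε₁) := Real.rpow_le_rpow_of_exponent_le hN1 (by linarith)
      _ ≤ _ := le_mul_of_one_le_left (by linarith) hq1
  have h6 : (1 : ℝ) ≤ 2 ^ q * ((2 ^ m : ℕ) : ℝ) ^ (Θ - c / 32 + ε₁) := one_le_mul_of_one_le_of_one_le hq1 hT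
  have h7 : 16 * ((2 ^ m : ℕ) : ℝ) ^ (Θ - c / 32 + ε₁) ≤ ((2 ^ m : ℕ) : ℝ) ^ (Θ - c / 64) := by
    have e1 : ((2 ^ m : ℕ) : ℝ) ^ ε * ((2 ^ m : ℕ) : ℝ) ^ (Θ - c / 32 + ε₁) ≤ ((2 ^ m : ℕ) : ℝ) ^ (Θ - c / 64) := by
      rw [← Real.rpow_add hN0]
      exact Real.rpow_le_rpow_of_exponent_le hN1 (by linarith)
    exact (mul_le_mul_of_nonneg_right R.K (Real.rpow_nonneg hN0.le _)).trans e1
  have h8 : (2 : ℝ) ^ q * (16 * ((2 ^ m : ℕ) : ℝ) ^ (Θ - c / 32 + ε₁)) ≤ 2 ^ q * ((2 ^ m : ℕ) : ℝ) ^ (Θ - c / 64) :=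
    mul_le_mul_of_nonneg_left h7 (by positivity)
  obtain ⟨U, hU⟩ : ∃ U, U = (2 : ℝ) ^ q * ((2 ^ m : ℕ) : ℝ) ^ (Θ - c / 32 + ε₁) := ⟨_, rfl⟩
  have h9 : (2 : ℝ) ^ q * (16 * ((2 ^ m : ℕ) : ℝ) ^ (Θ - c / 32 + ε₁)) = 16 * U := by
    rw [hU]
    ring
  rw [h9] at h8
  rw [← hU] at h4 h5 h6
  have h10 : ((2 ^ m : ℕ) : ℝ) ^ ε₁ / E (2 ^ q) * x + 1 ≤ 9 * U := by
    have e1 := mul_le_mul_of_nonneg_left h3 (div_nonneg hNe hE.le)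
    linarith
  linarith

/-- **THE TOP OF GS**: the strip and the kick give the change of the corrected scale. -/
theorem sigN65 [IsProbabilityMeasure μ] {F : ℝ → ℝ → ℝ → Frm96} {c₀ C : ℝ} (hR : RegP46 μ s c₀ Θ) (hδ : 0 < δ) (hc : 0 < c) (hcδ : 64 * c ≤ δ) (hcΘ : c ≤ Θ)
    (hη : 0 ≤ η) (hC : 0 < C) (hok : Est fun ι β γ m => (F ι β γ).Ok Θ m)
    (hst : Est fun ι β γ m => StN μ s (F ι β γ) (EE μ s) Θ δ c η (C * ι) m)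
    (hkb : Est fun ι β γ m => KbN65 μ s (F ι β γ) (EE μ s) Θ δ c η (C * ι) m) :
    Est fun ι β γ m => SigN μ s (F ι β γ) (EE μ s) Θ δ c η (c / 64) m := by
  obtain ⟨a, -, -, h1⟩ := hR.est hδ (k := 1) one_pos
  have h2 : Est fun ι _ _ _ => 0 < ι ∧ C * ι ≤ c / 128 ∧ 1 * ι ≤ c / 128 := by
    refine Est.iota ?_
    refine ⟨min (c / 128 / C) (c / 128), by positivity, fun ι hι h => ⟨hι, ?_, ?_⟩⟩
    · have h3 := h.trans (min_le_left _ _)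
      rw [le_div_iff₀ hC] at h3
      linarith
    · linarith [h.trans (min_le_right _ _)]
  refine ((h1.and h2).and (hok.and (hst.and hkb))).mono fun ι β γ _ _ _ => Eventually.of_forall fun m h => ?_
  obtain ⟨⟨⟨h3, -⟩, h4, h5, h6⟩, h7, h8, h9⟩ := h
  exact sig_of65 h3 hcδ hc hcΘ hη h6 (by positivity) h5 EE_mono h7 h8 h9

end

end Pool.Agent.W_7d29a1_C0.GSN65
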