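import Pool.Agent.W_7d29a1_C0.GSC52
import Pool.Agent.W_7d29a1_C0.GSN65

/-!
CURV0 (MP_7d29a1_pr), GS, THE CLOSING WITH THE MAJORANT `Ph65` (helper52). `PqM`: the price of two rows, only for rows in different
blocks of length `s' = 2 ^ sg96 p'`; `RowM`: one row, the bad boxes under `Ph65`. **`kbn65`**: `MqN`, `PqM`, `RowM` give `KbN65` of `GSN65`.
-/

set_option autoImplicit false
set_option linter.unusedSectionVars false
set_option linter.unusedVariables false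

namespace Pool.W7d29a1.C0.GSF52

open Finset MeasureTheory Pool.Agent.W_7d29a1_F Pool.Agent.W_7d29a1_X
open Pool.Agent.W_7d29a1_C0 Pool.Agent.W_7d29a1_C0.Mod92
open Pool.W7d29a1.C0 Pool.W7d29a1.C0.VT31
open Pool.Agent.W_7d29a1_C0.Near32 Pool.Agent.W_7d29a1_C0.KickT32
open Pool.W7d29a1.C0.GSC52 (xq rowq dmq mq pq mN mN_nonneg mN_le_one meas_mN close52 RwF mqF pqF MqN)

noncomputable section

section One

variable {μ : Measure ℝ} {s : ℝ} {N : ℕ} {ys : Finset ℕ} {b σ m : ℕ}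

/-- The second mass may be dropped. -/
theorem pq_le_mq [IsProbabilityMeasure μ] (hy : ∀ y ∈ ys, y ≤ N) (j k : ℕ) : pq μ s N ys b σ m j k ≤ mq μ s N ys b σ m j := by
  refine avy_mono fun y hyy => ?_
  haveI n1 : Nonempty (Px (Pn N y)) := ne_Pn (hy y hyy)
  have h01 : ∀ (ω : Env × Finset ℕ) S, 0 ≤ mN (wm μ s N (Pn N y) ω) b σ m j S * mN (wm μ s N (Pn N y) ω) b σ m k S := fun ω S =>
    mul_nonneg (mN_nonneg _ _ _ _ _ S) (mN_nonneg _ _ _ _ _ S)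
  have h02 : ∀ (ω : Env × Finset ℕ) S, mN (wm μ s N (Pn N y) ω) b σ m j S * mN (wm μ s N (Pn N y) ω) b σ m k S ≤
      mN (wm μ s N (Pn N y) ω) b σ m j S := fun ω S =>
    mul_le_of_le_one_right (mN_nonneg _ _ _ _ _ S) (mN_le_one _ _ _ _ _ S)
  refine integral_mono (int_bdd (M := 1) (meas_gm meas_wm fun x => (meas_mN b σ m j x).mul (meas_mN b σ m k x)) fun ω => ?_)
    (int_bdd (M := 1) (meas_gm meas_wm fun x => meas_mN b σ m j x) fun ω => ?_) fun ω => gm_mono _ (h02 ω)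
  · rw [abs_of_nonneg (gm_nonneg _ (h01 ω))]
    exact (gm_mono _ (g := fun _ => 1) fun x => (h02 ω x).trans (mN_le_one _ _ _ _ _ x)).trans (le_of_eq (gm_const _ 1))
  · rw [abs_of_nonneg (gm_nonneg _ fun x => mN_nonneg _ _ _ _ _ x)]
    exact (gm_mono _ (g := fun _ => 1) fun x => mN_le_one _ _ _ _ _ x).trans (le_of_eq (gm_const _ 1))

end One

section Top

open Filter
open Pool.Agent.W_7d29a1_C0.Asm96 (dx96 Frm96)
open Pool.Agent.W_7d29a1_C0.GSN65 (Phi65 Ph65 KbN65 Phi65_nonneg Ph65_same Ph65_far)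

variable (μ : Measure ℝ) (s : ℝ) (F : Frm96) (E : ℕ → ℝ) (Θ δ c η ε : ℝ)

/-- **The price of two rows in different blocks of length `s'`**: `N ^ ε / E_s ^ 2`. -/
def PqM (m : ℕ) : Prop := ∀ p p' q i : ℕ, Chg96 E Θ δ c η m p p' q → i < 2 ^ (m - q) → ∀ j ∈ RwF F m q i, ∀ k ∈ RwF F m q i,
  j / 2 ^ sg96 E c m p' ≠ k / 2 ^ sg96 E c m p' → pqF μ s F E c m p p' j k ≤ ((2 ^ m : ℕ) : ℝ) ^ ε / E (2 ^ sg96 E c m p) ^ 2

/-- **One row**: the kick of the row `j`, with the prices of the bad boxes, under `Ph65`. -/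
def RowM (m : ℕ) : Prop := ∀ p p' q i : ℕ, Chg96 E Θ δ c η m p p' q → i < 2 ^ (m - q) → ∃ (K t : ℝ) (T : ℕ → ℕ → ℝ),
  0 ≤ K ∧ K ^ 2 ≤ ((2 ^ m : ℕ) : ℝ) ^ ε / E (2 ^ p) ∧ 2 ^ q * t ≤ 1 ∧
  (∀ j ∈ RwF F m q i, rowq μ s (F.L m) (F.ys m) F.dl (F.B m) (2 ^ p) (2 ^ sg96 E c m p) (2 ^ (sg96 E c m p' - sg96 E c m p)) (F.R m)
      (i * 2 ^ q) ((i + 1) * 2 ^ q) (8 * 2 ^ p) j ≤
    K * dmq μ s (F.L m) (F.ys m) F.dl (F.B m) (2 ^ p) (2 ^ sg96 E c m p) (2 ^ (sg96 E c m p' - sg96 E c m p)) (F.R m)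
      (i * 2 ^ q) ((i + 1) * 2 ^ q) (8 * 2 ^ p) j + (∑ k ∈ RwF F m q i, T j k + t)) ∧
  ∀ j ∈ RwF F m q i, ∀ k ∈ RwF F m q i, T j k ≤ Ph65 E c ε m p p' (Nat.dist j k)

variable {μ s F E Θ δ c η ε}

/-- The majorant is nonnegative. -/
theorem Ph65_nonneg {m p p' : ℕ} {ε₁ : ℝ} (hE : ∀ n, 1 ≤ E n) (n : ℕ) : 0 ≤ Ph65 E c ε₁ m p p' n := by
  have hE0 : ∀ n, 0 < E n := fun n => lt_of_lt_of_le one_pos (hE n)
  have hX : 0 ≤ ((2 ^ m : ℕ) : ℝ) ^ ε₁ := Real.rpow_nonneg (Nat.cast_nonneg _) _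
  have e1 := hE0 (2 ^ p)
  have e2 := hE0 (2 ^ sg96 E c m p)
  exact Phi65_nonneg hE0 (by positivity) (by positivity) (by positivity) (by positivity) _ _ _ _

/-- The exponents of the majorant. -/
theorem Ph65_exp {m p p' : ℕ} {ε₁ : ℝ} (hE : ∀ n, 1 ≤ E n) (h : 2 * ((2 ^ m : ℕ) : ℝ) ^ ε ≤ ((2 ^ m : ℕ) : ℝ) ^ ε₁) (n : ℕ) :
    2 * Ph65 E c ε m p p' n ≤ Ph65 E c ε₁ m p p' n := by
  have hE0 : ∀ n, 0 < E n := fun n => lt_of_lt_of_le one_pos (hE n)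
  obtain ⟨x, hx⟩ : ∃ x, x = ((2 ^ m : ℕ) : ℝ) ^ ε := ⟨_, rfl⟩
  obtain ⟨y, hy⟩ : ∃ y, y = ((2 ^ m : ℕ) : ℝ) ^ ε₁ := ⟨_, rfl⟩
  unfold Ph65 Phi65
  rw [← hx, ← hy] at h
  rw [← hx, ← hy]
  have e1 := hE0 (2 ^ p)
  have e2 := hE0 (2 ^ sg96 E c m p)
  have e3 := hE0 (max n (2 ^ sg96 E c m p))
  have k1 : 2 * (if n < 8 * 2 ^ p then x / E (2 ^ sg96 E c m p) else 0) ≤ if n < 8 * 2 ^ p then y / E (2 ^ sg96 E c m p) else 0 := by
    split_ifs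
    · rw [← mul_div_assoc]
      exact div_le_div_of_nonneg_right h e2.le
    · rw [mul_zero]
  have k2 : 2 * (if n < 2 ^ sg96 E c m p' then x * (1 / E (2 ^ p) + 1 / E (2 ^ sg96 E c m p)) / E (2 ^ sg96 E c m p) else 0) ≤
      if n < 2 ^ sg96 E c m p' then y * (1 / E (2 ^ p) + 1 / E (2 ^ sg96 E c m p)) / E (2 ^ sg96 E c m p) else 0 := by
    split_ifs
    · rw [← mul_div_assoc, ← mul_assoc]
      exact div_le_div_of_nonneg_right (mul_le_mul_of_nonneg_right h (by positivity)) e2.le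
    · rw [mul_zero]
  have k3 : 2 * (x / E (2 ^ sg96 E c m p) ^ 2 / E (max n (2 ^ sg96 E c m p))) ≤
      y / E (2 ^ sg96 E c m p) ^ 2 / E (max n (2 ^ sg96 E c m p)) := by
    rw [← mul_div_assoc, ← mul_div_assoc]
    exact div_le_div_of_nonneg_right (div_le_div_of_nonneg_right h (by positivity)) e3.le
  have k4 : 2 * (x / (E (2 ^ sg96 E c m p) ^ 2 * E (2 ^ p))) ≤ y / (E (2 ^ sg96 E c m p) ^ 2 * E (2 ^ p)) := by
    rw [← mul_div_assoc]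
    exact div_le_div_of_nonneg_right h (by positivity)
  linarith

/-- **`KbN65` FROM THE PRICES AND ONE ROW.** -/
theorem kbn65 [IsProbabilityMeasure μ] {m : ℕ} {β ε₁ : ℝ} (hE : ∀ n, 1 ≤ E n) (hy : ∀ y ∈ F.ys m, y ≤ F.L m) (hB : 1 ≤ F.B m)
    (hBβ : F.B m ≤ ((2 ^ m : ℕ) : ℝ) ^ β) (hss : ∀ p p' q, Chg96 E Θ δ c η m p p' q → sg96 E c m p ≤ sg96 E c m p') (hcm : 0 ≤ c)
    (hε : 0 ≤ ε) (hε₁ : 2 * ε + 4 * β ≤ ε₁) (h2 : 2 * ((2 ^ m : ℕ) : ℝ) ^ ε ≤ ((2 ^ m : ℕ) : ℝ) ^ ε₁)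
    (hM : MqN μ s F E Θ δ c η ε m) (hP : PqM μ s F E Θ δ c η ε m) (hR : RowM μ s F E Θ δ c η ε m) :
    KbN65 μ s F E Θ δ c η ε₁ m := by
  intro p p' q i hC hi
  obtain ⟨K, t, T, hK0, hK2, ht, hrow, hT⟩ := hR p p' q i hC hi
  have hE0 : ∀ n, 0 < E n := fun n => lt_of_lt_of_le one_pos (hE n)
  set X : ℝ := ((2 ^ m : ℕ) : ℝ) with hX
  have hX1 : 1 ≤ X := by
    rw [hX]
    exact_mod_cast Nat.one_le_two_pow
  have hX0 : 0 < X := by linarith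
  have hsp := hss p p' q hC
  have hsq : sg96 E c m p' ≤ q := by
    have h1 := hC.hsq'
    have h2 : 0 ≤ c * (m : ℝ) := mul_nonneg hcm (Nat.cast_nonneg _)
    have h3 : (sg96 E c m p' : ℝ) ≤ q := by linarith
    exact_mod_cast h3
  have hprod : 2 ^ (sg96 E c m p' - sg96 E c m p) * 2 ^ sg96 E c m p = 2 ^ sg96 E c m p' := by
    rw [← pow_add]
    congr 1
    omega
  have hdiv : ∀ i : ℕ, 2 ^ (sg96 E c m p' - sg96 E c m p) * 2 ^ sg96 E c m p ∣ i * 2 ^ q := fun i => by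
    rw [hprod]
    exact Dvd.dvd.mul_left (pow_dvd_pow 2 hsq) i
  have hcl := close52 (μ := μ) (s := s) (N := F.L m) (ys := F.ys m) (δ := F.dl) (B := F.B m) (b := 2 ^ p) (σ := 2 ^ sg96 E c m p)
    (m := 2 ^ (sg96 E c m p' - sg96 E c m p)) (R := F.R m) (c := i * 2 ^ q) (d := (i + 1) * 2 ^ q) (h := 8 * 2 ^ p) hy (by linarith)
    (by positivity) (by positivity) (Nat.mul_le_mul_right _ (Nat.le_succ i)) (hdiv i) (hdiv (i + 1)) hK0
    (T := fun j => ∑ k ∈ RwF F m q i, T j k + t) hrow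
  obtain ⟨S, hS⟩ : ∃ S, S = RwF F m q i := ⟨_, rfl⟩
  have hS' : Rw (F.R m) (i * 2 ^ q) ((i + 1) * 2 ^ q) = S := by
    rw [hS]
    rfl
  rw [hS'] at hcl
  rw [← hS] at hcl
  have hcard : (S.card : ℝ) ≤ 2 ^ q := by
    have h1 : S.card ≤ (Ico (i * 2 ^ q) ((i + 1) * 2 ^ q)).card := by
      rw [← hS']
      exact card_le_card inter_subset_right
    rw [Nat.card_Ico] at h1
    have h2 : (i + 1) * 2 ^ q - i * 2 ^ q = 2 ^ q := by
      rw [Nat.add_mul, Nat.one_mul, Nat.add_sub_cancel_left]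
    rw [h2] at h1
    exact_mod_cast h1
  have eb := hE0 (2 ^ p)
  have es := hE0 (2 ^ sg96 E c m p)
  have hMj : ∀ j ∈ S, mqF μ s F E c m p p' j ≤ X ^ ε / E (2 ^ sg96 E c m p) := fun j hj => hM p p' q i hC hi j (by rwa [hS] at hj)
  have hPjk : ∀ j ∈ S, ∀ k ∈ S, j / 2 ^ sg96 E c m p' ≠ k / 2 ^ sg96 E c m p' →
      pqF μ s F E c m p p' j k ≤ X ^ ε / E (2 ^ sg96 E c m p) ^ 2 := fun j hj k hk =>
    hP p p' q i hC hi j (by rwa [hS] at hj) k (by rwa [hS] at hk)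
  rw [← hS] at hT
  -- numbers
  have hXe : 1 ≤ X ^ ε := Real.one_le_rpow hX1 hε
  have hXe1 : X ^ ε * X ^ ε * X ^ (4 * β) ≤ X ^ ε₁ := by
    rw [← Real.rpow_add hX0, ← Real.rpow_add hX0]
    exact Real.rpow_le_rpow_of_exponent_le hX1 (by linarith)
  have hB4 : F.B m ^ 4 ≤ X ^ (4 * β) := by
    have h1 := pow_le_pow_left₀ (by linarith : (0 : ℝ) ≤ F.B m) hBβ 4
    have h2 : (X ^ β) ^ 4 = X ^ (4 * β) := by
      rw [← Real.rpow_natCast, ← Real.rpow_mul hX0.le]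
      congr 1
      push_cast
      ring
    rwa [h2] at h1
  have hB1 : 1 ≤ F.B m ^ 4 := one_le_pow₀ hB
  have hB24 : F.B m ^ 2 ≤ F.B m ^ 4 := pow_le_pow_right₀ hB (by norm_num)
  have hX4 : 1 ≤ X ^ (4 * β) := hB1.trans hB4
  have hXX : X ^ ε * X ^ ε ≤ X ^ ε₁ := by
    calc X ^ ε * X ^ ε = X ^ ε * X ^ ε * 1 := (mul_one _).symm
      _ ≤ X ^ ε * X ^ ε * X ^ (4 * β) := mul_le_mul_of_nonneg_left hX4 (by positivity)
      _ ≤ _ := hXe1
  have hXle : X ^ ε ≤ X ^ ε₁ := by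
    calc X ^ ε = X ^ ε * 1 := (mul_one _).symm
      _ ≤ X ^ ε * X ^ ε := mul_le_mul_of_nonneg_left hXe (by positivity)
      _ ≤ _ := hXX
  have hK2' : K ^ 2 ≤ X ^ ε := hK2.trans (div_le_self (by positivity) (hE _))
  have hK1 : K ≤ X ^ ε := by
    have h1 : K ^ 2 ≤ (X ^ ε) ^ 2 := hK2'.trans (by nlinarith)
    exact le_of_sq_le_sq h1 (by positivity)
  refine ⟨fun _ _ => 0, fun j k => K ^ 2 / 9 * pqF μ s F E c m p p' j k + 2 / 3 * T j k, ?_, ?_⟩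
  · intro j hj k hk
    rw [hS'] at hj hk
    refine ⟨Ph65_nonneg hE _, ?_⟩
    have h5 := hT j hj k hk
    have h6 := Ph65_exp (E := E) (c := c) (p := p) (p' := p') (ε₁ := ε₁) hE h2 (Nat.dist j k)
    have h7 := Ph65_nonneg (E := E) (c := c) (m := m) (p := p) (p' := p') (ε₁ := ε₁) hE (Nat.dist j k)
    have h8 := Ph65_nonneg (E := E) (c := c) (m := m) (p := p) (p' := p') (ε₁ := ε) hE (Nat.dist j k)
    have h3 : K ^ 2 / 9 * pqF μ s F E c m p p' j k ≤ 1 / 9 * Ph65 E c ε₁ m p p' (Nat.dist j k) := by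
      by_cases hjk : j / 2 ^ sg96 E c m p' = k / 2 ^ sg96 E c m p'
      · have h1 : pqF μ s F E c m p p' j k ≤ X ^ ε / E (2 ^ sg96 E c m p) := (pq_le_mq hy j k).trans (hMj j hj)
        have h4 := Ph65_same (c := c) (ε₁ := ε₁) (p := p) hE0 hjk
        rw [← hX] at h4
        calc K ^ 2 / 9 * pqF μ s F E c m p p' j k ≤ (X ^ ε / E (2 ^ p)) / 9 * (X ^ ε / E (2 ^ sg96 E c m p)) :=
              (mul_le_mul_of_nonneg_left h1 (by positivity)).trans (mul_le_mul_of_nonneg_right (by linarith) (by positivity))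
          _ = 1 / 9 * ((X ^ ε * X ^ ε) * (1 / E (2 ^ p)) / E (2 ^ sg96 E c m p)) := by ring
          _ ≤ 1 / 9 * (X ^ ε₁ * (1 / E (2 ^ p) + 1 / E (2 ^ sg96 E c m p)) / E (2 ^ sg96 E c m p)) := by
              refine mul_le_mul_of_nonneg_left (div_le_div_of_nonneg_right ?_ es.le) (by norm_num)
              refine mul_le_mul hXX ?_ (by positivity) (by positivity)
              have : 0 ≤ 1 / E (2 ^ sg96 E c m p) := by positivity
              linarith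
          _ ≤ _ := mul_le_mul_of_nonneg_left h4 (by norm_num)
      · have h1 := hPjk j hj k hk hjk
        have h4 := Ph65_far (E := E) (c := c) (ε₁ := ε₁) hE0 m p p' (Nat.dist j k)
        rw [← hX] at h4
        calc K ^ 2 / 9 * pqF μ s F E c m p p' j k ≤ (X ^ ε / E (2 ^ p)) / 9 * (X ^ ε / E (2 ^ sg96 E c m p) ^ 2) :=
              (mul_le_mul_of_nonneg_left h1 (by positivity)).trans (mul_le_mul_of_nonneg_right (by linarith) (by positivity))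
          _ = 1 / 9 * ((X ^ ε * X ^ ε) / (E (2 ^ sg96 E c m p) ^ 2 * E (2 ^ p))) := by
              field_simp
          _ ≤ 1 / 9 * (X ^ ε₁ / (E (2 ^ sg96 E c m p) ^ 2 * E (2 ^ p))) :=
              mul_le_mul_of_nonneg_left (div_le_div_of_nonneg_right hXX (by positivity)) (by norm_num)
          _ ≤ _ := mul_le_mul_of_nonneg_left h4 (by norm_num)
    linarith
  · have hz : (∑ j ∈ Rw (F.R m) (i * 2 ^ q) ((i + 1) * 2 ^ q), ∑ k ∈ Rw (F.R m) (i * 2 ^ q) ((i + 1) * 2 ^ q), (fun _ _ : ℕ => (0 : ℝ)) j k) = 0 := by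
      simp
    rw [hz, Real.sqrt_zero, zero_mul, add_zero, hS']
    refine (show dx96 μ s F E c m p p' q i = xq μ s (F.L m) (F.ys m) F.dl (F.B m) (2 ^ p) (2 ^ sg96 E c m p)
      (2 ^ (sg96 E c m p' - sg96 E c m p)) (F.R m) (i * 2 ^ q) ((i + 1) * 2 ^ q) from rfl).le.trans (hcl.trans ?_)
    have hsm : ∑ j ∈ S, mq μ s (F.L m) (F.ys m) (2 ^ p) (2 ^ sg96 E c m p) (2 ^ (sg96 E c m p' - sg96 E c m p)) j ≤
        2 ^ q * (X ^ ε / E (2 ^ sg96 E c m p)) := by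
      refine (sum_le_card_nsmul _ _ _ hMj).trans ?_
      rw [nsmul_eq_mul]
      exact mul_le_mul_of_nonneg_right hcard (by positivity)
    have hsm0 : 0 ≤ 2 ^ q * (X ^ ε / E (2 ^ sg96 E c m p)) := by positivity
    have hco : ((8 * 2 ^ p : ℕ) : ℝ) * F.B m ^ 4 / 18 + K * (((8 * 2 ^ p : ℕ) : ℝ) * F.B m ^ 2 / 9) ≤ 8 * 2 ^ p * (X ^ ε * X ^ (4 * β)) := by
      have h1 : ((8 * 2 ^ p : ℕ) : ℝ) = 8 * 2 ^ p := by push_cast; ring
      rw [h1]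
      have h2 : K * F.B m ^ 2 ≤ X ^ ε * X ^ (4 * β) := mul_le_mul hK1 (hB24.trans hB4) (by positivity) (by positivity)
      have h3 : F.B m ^ 4 ≤ X ^ ε * X ^ (4 * β) := by
        calc F.B m ^ 4 ≤ 1 * X ^ (4 * β) := by rw [one_mul]; exact hB4
          _ ≤ _ := mul_le_mul_of_nonneg_right hXe (by positivity)
      have h4 : (0 : ℝ) ≤ 8 * 2 ^ p := by positivity
      have h5 := mul_le_mul_of_nonneg_left h2 h4
      have h6 := mul_le_mul_of_nonneg_left h3 h4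
      have h7 : 0 ≤ 8 * 2 ^ p * (X ^ ε * X ^ (4 * β)) := by positivity
      have h8 : 8 * (2 : ℝ) ^ p * F.B m ^ 4 / 18 + K * (8 * 2 ^ p * F.B m ^ 2 / 9) =
          8 * 2 ^ p * F.B m ^ 4 / 18 + 8 * 2 ^ p * (K * F.B m ^ 2) / 9 := by ring
      rw [h8]
      linarith
    have hco0 : 0 ≤ ((8 * 2 ^ p : ℕ) : ℝ) * F.B m ^ 4 / 18 + K * (((8 * 2 ^ p : ℕ) : ℝ) * F.B m ^ 2 / 9) := by positivity
    have hnear : (((8 * 2 ^ p : ℕ) : ℝ) * F.B m ^ 4 / 18 + K * (((8 * 2 ^ p : ℕ) : ℝ) * F.B m ^ 2 / 9)) *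
        ∑ j ∈ S, mq μ s (F.L m) (F.ys m) (2 ^ p) (2 ^ sg96 E c m p) (2 ^ (sg96 E c m p' - sg96 E c m p)) j ≤
        2 ^ q * (8 * 2 ^ p * (X ^ ε₁ / E (2 ^ sg96 E c m p))) := by
      calc _ ≤ (8 * 2 ^ p * (X ^ ε * X ^ (4 * β))) * (2 ^ q * (X ^ ε / E (2 ^ sg96 E c m p))) :=
            (mul_le_mul_of_nonneg_left hsm hco0).trans (mul_le_mul_of_nonneg_right hco hsm0)
        _ = 2 ^ q * (8 * 2 ^ p * ((X ^ ε * X ^ ε * X ^ (4 * β)) / E (2 ^ sg96 E c m p))) := by ring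
        _ ≤ _ := by
          refine mul_le_mul_of_nonneg_left ?_ (by positivity)
          refine mul_le_mul_of_nonneg_left ?_ (by positivity)
          exact div_le_div_of_nonneg_right hXe1 es.le
    have hsum : K ^ 2 / 9 * ∑ j ∈ S, ∑ k ∈ S, pq μ s (F.L m) (F.ys m) (2 ^ p) (2 ^ sg96 E c m p)
          (2 ^ (sg96 E c m p' - sg96 E c m p)) j k + 2 / 3 * ∑ j ∈ S, (∑ k ∈ S, T j k + t) =
        ∑ j ∈ S, ∑ k ∈ S, (K ^ 2 / 9 * pqF μ s F E c m p p' j k + 2 / 3 * T j k) + 2 / 3 * (S.card * t) := by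
      rw [sum_add_distrib, sum_const, nsmul_eq_mul]
      simp only [sum_add_distrib, ← mul_sum]
      unfold pqF
      ring
    have ht' : 2 / 3 * (S.card * t) ≤ 1 := by
      rcases le_or_gt t 0 with h | h
      · have : (S.card : ℝ) * t ≤ 0 := mul_nonpos_of_nonneg_of_nonpos (Nat.cast_nonneg _) h
        linarith
      · have : (S.card : ℝ) * t ≤ 2 ^ q * t := mul_le_mul_of_nonneg_right hcard h.le
        linarith
    linarith

end Top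

end

end Pool.W7d29a1.C0.GSF52
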