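import Pool.Agent.W_7d29a1_C0.GSE52
import Pool.Agent.W_7d29a1_C0.GSF52
import Pool.Agent.W_7d29a1_C0.Frm33B
import Pool.Agent.W_7d29a1_C0.ClipF33

/-!
CURV0 (MP_7d29a1_pr), GS IN ONE KICK, ONE ROW AT THE FRAME (helper52). Slabs `[j + 2 b, j + 3 b)`, `[j - 3 b, j - 2 b)`, boxes of the width
`R` at the rows `j + 2 b`, `j - 2 b`, thresholds `exp (-A)`. `RbM`: the averaged means of the bad functional under `Ph65`, at both
weights; `NumG`: the numbers. **`rowM52`**: `RowM` of `GSF52` from `RbM`, `NumG`, the errors of the flips and the deep windows.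
-/

set_option autoImplicit false
set_option linter.unusedSectionVars false
set_option linter.unusedVariables false

namespace Pool.W7d29a1.C0.GSG52

open Finset MeasureTheory Filter Topology Pool.Agent.W_7d29a1_F Pool.Agent.W_7d29a1_X
open Pool.Agent.W_7d29a1_H (sl EE EE_pos EE_mono one_le_EE)
open Pool.Agent.W_7d29a1_HS (In)
open Pool.Agent.W_7d29a1_HZ (wd')
open Pool.Agent.W_7d29a1_C0 Pool.Agent.W_7d29a1_C0.Mod92
open Pool.W7d29a1.C0 Pool.W7d29a1.C0.VT31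
open Pool.Agent.W_7d29a1_C0.Near32
open Pool.Agent.W_7d29a1_C0.Q32 (WL)
open Pool.Agent.W_7d29a1_C0.Flip61 (FErr)
open Pool.Agent.W_7d29a1_C0.One32 (tny)
open Pool.Agent.W_7d29a1_C0.Asm96 (Frm96)
open Pool.Agent.W_7d29a1_C0.GSN65 (Phi65 Ph65)
open Pool.W7d29a1.C0.K27 (tlK geo27 hs27)
open Pool.W7d29a1.C0.GSC52 (rowq dmq RwF)
open Pool.W7d29a1.C0.GSE52 (RBq RBq_nonneg row52)
open Pool.W7d29a1.C0.GSF52 (RowM Ph65_nonneg)

noncomputable section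

/-! ### The bad functional at the slabs of the frame -/

/-- The boxes of the row `j`: right (`true`) at the row `j + 2 b`, left at the row `j - 2 b`. -/
def bxF (N : ℕ) (R : ℝ) (b j : ℕ) (r : Bool) (y : ℕ) : Px (Pn N y) → Fin (N + 1) :=
  T73.bx T73.pm R (if r then ((j + 2 * b : ℕ) : ℤ) else ((j - 2 * b : ℕ) : ℤ)) N

/-- **The averaged mean of the bad functional**, slabs and boxes of the frame, thresholds `exp (-A)`. -/
def RBw (μ : Measure ℝ) (s : ℝ) (N : ℕ) (ys : Finset ℕ) (δ B : ℝ) (b σ m j k : ℕ) (R A : ℝ) (r fl : Bool) : ℝ :=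
  RBq μ s N ys δ B b σ m j k (Ico (j + 2 * b) (j + 3 * b)) (Ico (j - 3 * b) (j - 2 * b)) (sl μ s) R ((j + 2 * b : ℕ) : ℤ)
    ((j - 2 * b : ℕ) : ℤ) (j + 3 * b) (j - 3 * b) (bxF N R b j) (Real.exp (-A)) (Real.exp (-A)) r fl

/-- **The numbers** of one row: `n` rows, length `N`, window `b`, `M` pinned ends, clipping level `B`, radius `R`, level `A`. -/
structure NumG (C θ : ℝ) (N n b M : ℕ) (B Eb X ep R A : ℝ) : Type where
  (a t τ q δ₀ : ℝ)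
  ha : 0 ≤ a
  ha1 : Real.exp a ≤ 2
  ht : 0 ≤ t
  hθ : (2 * t + 3) * (B / b) ≤ θ
  hτ : 0 < τ
  hτ' : τ ≤ 1 / 4
  hq : 0 ≤ q
  hδ : 0 ≤ δ₀
  hq' : 12 * δ₀ / τ ≤ q * Real.exp (-(2 * B))
  hd₁ : Real.exp (-A) ≤ δ₀ * Real.exp (-(4 * B))
  hq₁ : Real.exp (-A) ≤ q * Real.exp (-(4 * B)) / 3
  hR : 1 ≤ R
  hK : ((Real.exp a - 1) * (B / 2) ^ 2) ^ 2 ≤ X / Eb
  tiny : (n : ℝ) * (tny n ((N : ℝ) + 1) B M ep a t C (14 * R * B ^ 2 / b) τ q (2 * B) +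
    n * (4 / 3 * (B / 2) ^ 4 * (((N : ℝ) + 1) ^ 2 * tlK C t a (14 * R * B ^ 2 / b)))) ≤ 1

variable (μ : Measure ℝ) (s : ℝ) (F : Frm96) (E : ℕ → ℝ) (Θ δ c η ε : ℝ) (Rd : ℕ → ℕ → ℝ) (A : ℕ → ℝ)

/-- **The bad boxes under the majorant**, far rows, both classes, both weights. -/
def RbM (m : ℕ) : Prop := ∀ p p' q i : ℕ, Chg96 E Θ δ c η m p p' q → i < 2 ^ (m - q) → ∀ j ∈ RwF F m q i, ∀ k ∈ RwF F m q i,
  8 * 2 ^ p ≤ Nat.dist j k → ∀ r fl : Bool, RBw μ s (F.L m) (F.ys m) F.dl (F.B m) (2 ^ p) (2 ^ sg96 E c m p)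
    (2 ^ (sg96 E c m p' - sg96 E c m p)) j k (Rd m p) (A m) r fl ≤ Ph65 E c ε m p p' (Nat.dist j k)

variable {μ s F E Θ δ c η ε Rd A}

/-- The majorant and a factor. -/
theorem Ph65_fac {m p p' : ℕ} {ε₁ x : ℝ} (hE : ∀ n, 1 ≤ E n) (h : x * ((2 ^ m : ℕ) : ℝ) ^ ε ≤ ((2 ^ m : ℕ) : ℝ) ^ ε₁) (n : ℕ) :
    x * Ph65 E c ε m p p' n ≤ Ph65 E c ε₁ m p p' n := by
  have hE0 : ∀ n, 0 < E n := fun n => lt_of_lt_of_le one_pos (hE n)
  obtain ⟨z, hz⟩ : ∃ z, z = ((2 ^ m : ℕ) : ℝ) ^ ε := ⟨_, rfl⟩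
  obtain ⟨y, hy⟩ : ∃ y, y = ((2 ^ m : ℕ) : ℝ) ^ ε₁ := ⟨_, rfl⟩
  unfold Ph65 Phi65
  rw [← hz, ← hy] at h
  rw [← hz, ← hy]
  have e1 := hE0 (2 ^ p)
  have e2 := hE0 (2 ^ sg96 E c m p)
  have e3 := hE0 (max n (2 ^ sg96 E c m p))
  have k1 : x * (if n < 8 * 2 ^ p then z / E (2 ^ sg96 E c m p) else 0) ≤ if n < 8 * 2 ^ p then y / E (2 ^ sg96 E c m p) else 0 := by
    split_ifs
    · rw [← mul_div_assoc]
      exact div_le_div_of_nonneg_right h e2.le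
    · rw [mul_zero]
  have k2 : x * (if n < 2 ^ sg96 E c m p' then z * (1 / E (2 ^ p) + 1 / E (2 ^ sg96 E c m p)) / E (2 ^ sg96 E c m p) else 0) ≤
      if n < 2 ^ sg96 E c m p' then y * (1 / E (2 ^ p) + 1 / E (2 ^ sg96 E c m p)) / E (2 ^ sg96 E c m p) else 0 := by
    split_ifs
    · rw [← mul_div_assoc, ← mul_assoc]
      exact div_le_div_of_nonneg_right (mul_le_mul_of_nonneg_right h (by positivity)) e2.le
    · rw [mul_zero]
  have k3 : x * (z / E (2 ^ sg96 E c m p) ^ 2 / E (max n (2 ^ sg96 E c m p))) ≤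
      y / E (2 ^ sg96 E c m p) ^ 2 / E (max n (2 ^ sg96 E c m p)) := by
    rw [← mul_div_assoc, ← mul_div_assoc]
    exact div_le_div_of_nonneg_right (div_le_div_of_nonneg_right h (by positivity)) e3.le
  have k4 : x * (z / (E (2 ^ sg96 E c m p) ^ 2 * E (2 ^ p))) ≤ y / (E (2 ^ sg96 E c m p) ^ 2 * E (2 ^ p)) := by
    rw [← mul_div_assoc]
    exact div_le_div_of_nonneg_right h (by positivity)
  rw [mul_add, mul_add, mul_add]
  linarith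

/-- **ONE ROW AT THE FRAME.** -/
theorem rowM52 [IsProbabilityMeasure μ] {u : ℝ → ℝ → ℝ} {C θ : ℝ} (hW : WL μ u C θ) {m : ℕ} {ε₁ : ℝ} (hE : ∀ n, 1 ≤ E n)
    (hok : F.Ok Θ m) {y₀ M : ℕ} (hys : F.ys m = Ico y₀ (y₀ + M)) (hy : 1 ≤ y₀) (hM : 1 ≤ M) (hyN : y₀ + M ≤ F.L m) {ep : ℝ}
    (hep : 0 ≤ ep) (hc : 0 ≤ c) (hη : 0 ≤ η) (hss : ∀ p p' q, Chg96 E Θ δ c η m p p' q → sg96 E c m p ≤ sg96 E c m p')
    (hFE : ∀ p p' q, Chg96 E Θ δ c η m p p' q → ∀ j, 2 ^ p ≤ j → j + 2 ^ p ≤ F.L m →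
      FErr μ s (F.L m) F.dl (F.B m) (2 ^ p) j y₀ M ep)
    (hdeep : ∀ p p' q, Chg96 E Θ δ c η m p p' q → Deep (F.R m) (4 * 2 ^ p) (2 ^ sg96 E c m p))
    (hnum : ∀ p p' q, Chg96 E Θ δ c η m p p' q → Nonempty (NumG C θ (F.L m) (2 ^ m) (2 ^ p) M (F.B m) (E (2 ^ p))
      (((2 ^ m : ℕ) : ℝ) ^ ε₁) ep (Rd m p) (A m)))
    (hBX : F.B m ^ 4 * ((2 ^ m : ℕ) : ℝ) ^ ε ≤ ((2 ^ m : ℕ) : ℝ) ^ ε₁) (hRb : RbM μ s F E Θ δ c η ε Rd A m) :
    RowM μ s F E Θ δ c η ε₁ m := by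
  intro p p' q i hC hi
  obtain ⟨g⟩ := hnum p p' q hC
  have hB := hok.hB
  have hB0 : 0 ≤ F.B m := by linarith
  have hsp := hss p p' q hC
  have hq1 : sg96 E c m p' ≤ q := by
    have h1 := hC.hsq'
    have h2 : 0 ≤ c * (m : ℝ) := mul_nonneg hc (Nat.cast_nonneg _)
    have h3 : (sg96 E c m p' : ℝ) ≤ q := by linarith
    exact_mod_cast h3
  have hq2 : q ≤ m := by
    have h1 := hC.hqm
    have h2 : 0 ≤ η * (m : ℝ) := mul_nonneg hη (Nat.cast_nonneg _)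
    have h3 : (q : ℝ) ≤ m := by linarith
    exact_mod_cast h3
  have hprod : 2 ^ (sg96 E c m p' - sg96 E c m p) * 2 ^ sg96 E c m p = 2 ^ sg96 E c m p' := by
    rw [← pow_add]
    congr 1
    omega
  have hdiv : 2 ^ (sg96 E c m p' - sg96 E c m p) * 2 ^ sg96 E c m p ∣ (i + 1) * 2 ^ q := by
    rw [hprod]
    exact Dvd.dvd.mul_left (pow_dvd_pow 2 hq1) _
  have htop : (i + 1) * 2 ^ q ≤ 2 ^ m := by
    calc (i + 1) * 2 ^ q ≤ 2 ^ (m - q) * 2 ^ q := Nat.mul_le_mul_right _ hi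
      _ = 2 ^ m := by
          rw [← pow_add]
          congr 1
          omega
  have hdN : (i + 1) * 2 ^ q ≤ F.L m := htop.trans hok.hL
  have hys' : ∀ y ∈ F.ys m, y ≤ F.L m := hok.hy
  have hdp := hdeep p p' q hC
  have hdp1 : Deep (F.R m) (2 ^ p) (2 ^ sg96 E c m p) := hdp.mono (by omega)
  have hb : 0 < 2 ^ p := by positivity
  have hsq : 2 ^ sg96 E c m p ∣ (i + 1) * 2 ^ q := Dvd.dvd.mul_left (pow_dvd_pow 2 hC.hsq) _
  -- a kicked row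
  have hrow : ∀ j ∈ RwF F m q i, 4 * 2 ^ p ≤ j ∧ j + 4 * 2 ^ p ≤ F.L m := by
    intro j hj
    have h1 := mem_inter.1 hj
    obtain ⟨h2, h3⟩ := hdp j h1.1
    have h4 := Pool.Agent.W_7d29a1_C0.One32.blk_le hsq (mem_Ico.1 h1.2).2
    have h5 : (j / 2 ^ sg96 E c m p + 1) * 2 ^ sg96 E c m p = j / 2 ^ sg96 E c m p * 2 ^ sg96 E c m p + 2 ^ sg96 E c m p :=
      Nat.succ_mul _ _
    exact ⟨by omega, by omega⟩
  obtain ⟨S, hS⟩ : ∃ S, S = RwF F m q i := ⟨_, rfl⟩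
  have hcard : (S.card : ℝ) ≤ 2 ^ q := by
    have h1 : S.card ≤ (Ico (i * 2 ^ q) ((i + 1) * 2 ^ q)).card := by
      rw [hS]
      exact card_le_card inter_subset_right
    rw [Nat.card_Ico] at h1
    have h2 : (i + 1) * 2 ^ q - i * 2 ^ q = 2 ^ q := by
      rw [Nat.add_mul, Nat.one_mul, Nat.add_sub_cancel_left]
    rw [h2] at h1
    exact_mod_cast h1
  have hcard' : (S.card : ℝ) ≤ ((2 ^ m : ℕ) : ℝ) := by
    refine hcard.trans ?_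
    push_cast
    exact pow_le_pow_right₀ one_le_two hq2
  have hea : 0 ≤ Real.exp g.a - 1 := by linarith [Real.one_le_exp g.ha]
  obtain ⟨X, hX⟩ : ∃ X : ℝ, X = ((2 ^ m : ℕ) : ℝ) := ⟨_, rfl⟩
  rw [← hX] at hcard'
  obtain ⟨rb, hrb⟩ : ∃ rb : ℕ → ℕ → Bool → Bool → ℝ, rb = fun j k r fl => RBw μ s (F.L m) (F.ys m) F.dl (F.B m) (2 ^ p)
    (2 ^ sg96 E c m p) (2 ^ (sg96 E c m p' - sg96 E c m p)) j k (Rd m p) (A m) r fl := ⟨_, rfl⟩
  have rb0 : ∀ j k r fl, 0 ≤ rb j k r fl := fun j k r fl => by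
    rw [hrb]
    exact RBq_nonneg hys' r fl
  obtain ⟨t₀, ht₀⟩ : ∃ t₀ : ℝ, t₀ = tny X (((F.L m : ℕ) : ℝ) + 1) (F.B m) M ep g.a g.t C (14 * Rd m p * F.B m ^ 2 / (2 ^ p : ℕ)) g.τ g.q
      (2 * F.B m) + X * (4 / 3 * (F.B m / 2) ^ 4 * ((((F.L m : ℕ) : ℝ) + 1) ^ 2 * tlK C g.t g.a (14 * Rd m p * F.B m ^ 2 / (2 ^ p : ℕ)))) :=
    ⟨_, rfl⟩
  refine ⟨(Real.exp g.a - 1) * (F.B m / 2) ^ 2, t₀, fun j k => if k ∈ Fa S (8 * 2 ^ p) j then 2 / 3 * (F.B m / 2) ^ 4 *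
    (∑ r : Bool, (rb j k r true + Real.exp g.a * rb j k r false)) else 0, mul_nonneg hea (by positivity), g.hK, ?_, ?_, ?_⟩
  · -- the tiny term
    have h1 := g.tiny
    have h2 : X * t₀ ≤ 1 := by
      rw [ht₀, hX]
      exact h1
    rcases le_or_gt t₀ 0 with h | h
    · have : (2 : ℝ) ^ q * t₀ ≤ 0 := mul_nonpos_of_nonneg_of_nonpos (by positivity) h
      linarith
    · have h3 : (2 : ℝ) ^ q ≤ X := by
        rw [hX]
        push_cast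
        exact pow_le_pow_right₀ one_le_two hq2
      exact (mul_le_mul_of_nonneg_right h3 h.le).trans h2
  · -- the row
    intro j hj
    obtain ⟨j1, j2⟩ := hrow j hj
    have G := geo27 (N := F.L m) (b := 2 ^ p) (j := j) hb (by omega) (by omega)
    have hsl := hs27 (b := 2 ^ p) (j := j) (h := 8 * 2 ^ p) hb (by omega) (by omega) (T := Rw (F.R m) (i * 2 ^ q) ((i + 1) * 2 ^ q))
    have key := row52 (μ := μ) (s := s) (N := F.L m) hW (b := 2 ^ p) (σ := 2 ^ sg96 E c m p) (m := 2 ^ (sg96 E c m p' - sg96 E c m p)) hb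
      (by positivity) hdp1 (c := i * 2 ^ q) (d := (i + 1) * 2 ^ q) hdN hdiv (h := 8 * 2 ^ p) (by omega) (δ := F.dl) hB hy hM hyN hep hj
      (hFE p p' q hC j (by omega) (by omega)) (n := F.L m) (bxF (F.L m) (Rd m p) (2 ^ p) j) G hsl (m1 := j + 3 * 2 ^ p)
      (m2 := j - 3 * 2 ^ p) (fun i hi => by
        have := mem_Ico.1 hi
        omega) (by omega) (fun i hi => by
        have := mem_Ico.1 hi
        omega) (by omega) (sl μ s) (R := Rd m p) g.hR ((j + 2 * 2 ^ p : ℕ) : ℤ) ((j - 2 * 2 ^ p : ℕ) : ℤ) g.ha g.ht g.hθ g.hτ g.hτ'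
      g.hq g.hδ g.hq' g.hd₁ g.hq₁
    rw [← hys] at key
    have e1 : ∑ k ∈ RwF F m q i, (if k ∈ Fa S (8 * 2 ^ p) j then 2 / 3 * (F.B m / 2) ^ 4 *
        (∑ r : Bool, (rb j k r true + Real.exp g.a * rb j k r false)) else 0) =
        ∑ k ∈ Fa S (8 * 2 ^ p) j, 2 / 3 * (F.B m / 2) ^ 4 * (∑ r : Bool, (rb j k r true + Real.exp g.a * rb j k r false)) := by
      rw [← hS, ← sum_filter]
      refine sum_congr ?_ fun _ _ => rfl
      ext k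
      rw [mem_filter]
      exact ⟨fun h => h.2, fun h => ⟨(mem_filter.1 h).1, h⟩⟩
    have h5 : tny (S.card : ℝ) (((F.L m : ℕ) : ℝ) + 1) (F.B m) M ep g.a g.t C (14 * Rd m p * F.B m ^ 2 / (2 ^ p : ℕ)) g.τ g.q
        (2 * F.B m) + S.card * (4 / 3 * (F.B m / 2) ^ 4 * ((((F.L m : ℕ) : ℝ) + 1) ^ 2 *
          tlK C g.t g.a (14 * Rd m p * F.B m ^ 2 / (2 ^ p : ℕ)))) ≤ t₀ := by
      rw [ht₀]
      refine add_le_add (Pool.Agent.W_7d29a1_C0.One32.tny_mono hcard' (Nat.cast_nonneg _) hep g.hτ g.hq) ?_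
      refine mul_le_mul_of_nonneg_right hcard' ?_
      unfold tlK
      positivity
    have hSR : Rw (F.R m) (i * 2 ^ q) ((i + 1) * 2 ^ q) = S := by
      rw [hS]
      rfl
    rw [hSR] at key
    have e2 : ∀ k, (∑ r : Bool, (RBq μ s (F.L m) (F.ys m) F.dl (F.B m) (2 ^ p) (2 ^ sg96 E c m p)
        (2 ^ (sg96 E c m p' - sg96 E c m p)) j k (Ico (j + 2 * 2 ^ p) (j + 3 * 2 ^ p)) (Ico (j - 3 * 2 ^ p) (j - 2 * 2 ^ p)) (sl μ s)
        (Rd m p) ((j + 2 * 2 ^ p : ℕ) : ℤ) ((j - 2 * 2 ^ p : ℕ) : ℤ) (j + 3 * 2 ^ p) (j - 3 * 2 ^ p)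
        (bxF (F.L m) (Rd m p) (2 ^ p) j) (Real.exp (-(A m))) (Real.exp (-(A m))) r true +
        Real.exp g.a * RBq μ s (F.L m) (F.ys m) F.dl (F.B m) (2 ^ p) (2 ^ sg96 E c m p)
        (2 ^ (sg96 E c m p' - sg96 E c m p)) j k (Ico (j + 2 * 2 ^ p) (j + 3 * 2 ^ p)) (Ico (j - 3 * 2 ^ p) (j - 2 * 2 ^ p)) (sl μ s)
        (Rd m p) ((j + 2 * 2 ^ p : ℕ) : ℤ) ((j - 2 * 2 ^ p : ℕ) : ℤ) (j + 3 * 2 ^ p) (j - 3 * 2 ^ p)
        (bxF (F.L m) (Rd m p) (2 ^ p) j) (Real.exp (-(A m))) (Real.exp (-(A m))) r false)) =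
        ∑ r : Bool, (rb j k r true + Real.exp g.a * rb j k r false) := fun k => by
      rw [hrb]
      rfl
    rw [sum_congr rfl fun k _ => congrArg (fun z => 2 / 3 * (F.B m / 2) ^ 4 * z) (e2 k)] at key
    show _ ≤ _ + (∑ k ∈ RwF F m q i, (if k ∈ Fa S (8 * 2 ^ p) j then 2 / 3 * (F.B m / 2) ^ 4 *
        (∑ r : Bool, (rb j k r true + Real.exp g.a * rb j k r false)) else 0) + t₀)
    rw [e1]
    refine key.trans (add_le_add le_rfl (add_le_add le_rfl h5))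
  · -- the majorant
    intro j hj k hk
    show (if k ∈ Fa S (8 * 2 ^ p) j then 2 / 3 * (F.B m / 2) ^ 4 * (∑ r : Bool, (rb j k r true + Real.exp g.a * rb j k r false)) else 0) ≤ _
    split_ifs with hkF
    · have hfar : 8 * 2 ^ p ≤ Nat.dist j k := by
        have h1 := (mem_filter.1 hkF).2
        unfold Nat.dist
        omega
      obtain ⟨P, hP⟩ : ∃ P, P = Ph65 E c ε m p p' (Nat.dist j k) := ⟨_, rfl⟩
      have h1 : ∀ r fl, rb j k r fl ≤ P := fun r fl => by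
        rw [hrb, hP]
        exact hRb p p' q i hC hi j hj k hk hfar r fl
      have hP0 : 0 ≤ P := by
        rw [hP]
        exact Ph65_nonneg hE _
      have h2 : ∀ r, rb j k r true + Real.exp g.a * rb j k r false ≤ 3 * P := fun r => by
        have h3 : Real.exp g.a * rb j k r false ≤ 2 * P := mul_le_mul g.ha1 (h1 r false) (rb0 j k r false) (by norm_num)
        linarith [h1 r true]
      have h3 : ∑ r : Bool, (rb j k r true + Real.exp g.a * rb j k r false) ≤ 6 * P := by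
        rw [Fintype.sum_bool]
        linarith [h2 true, h2 false]
      have hB4 : 0 ≤ F.B m ^ 4 := by positivity
      have h4 : 2 / 3 * (F.B m / 2) ^ 4 * (∑ r : Bool, (rb j k r true + Real.exp g.a * rb j k r false)) ≤ F.B m ^ 4 * P := by
        calc _ ≤ 2 / 3 * (F.B m / 2) ^ 4 * (6 * P) := mul_le_mul_of_nonneg_left h3 (by positivity)
          _ = 1 / 4 * (F.B m ^ 4 * P) := by ring
          _ ≤ F.B m ^ 4 * P := by linarith [mul_nonneg hB4 hP0]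
      rw [hP] at h4
      exact h4.trans (Ph65_fac hE hBX _)
    · exact Ph65_nonneg hE _

end

end Pool.W7d29a1.C0.GSG52
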