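import Pool.Agent.W_7d29a1_C0.JoinB41

/-!
CURV0 (MP_7d29a1_pr), GS one kick (helper41): THE HYPOTHESES OF `RBs_right41` / `RBs_left41` AT THE TILTED WEIGHTS
`wm + t • gg j` (`t = - 2 sr j`: the flipped weights `wj`; `t = 0`: `wm`).
-/

set_option autoImplicit false
set_option linter.unusedSectionVars false
set_option linter.unusedVariables false

namespace Pool.W7d29a1.C0.H41

open Finset MeasureTheory
open Pool.W7d29a1.C0.VT31
open Pool.Agent.W_7d29a1_C0.Swap57 (cE2)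
open Pool.Agent.W_7d29a1_F Pool.Agent.W_7d29a1_X Pool.Agent.W_7d29a1_C0.Mod92
open Pool.Agent.W_7d29a1_C0.NM82 (Hd HdAll Lk_field Lk_mono HdAll_lw HdAll_Lk)
open Pool.Agent.W_7d29a1_C0.Swap57 (SwQ Lk Wk Wk_lw Lk_gg NI)

noncomputable section

variable {μ : Measure ℝ} {s : ℝ} {N : ℕ} {Q : Finset (Finset ℕ)} {δ B : ℝ} {b j : ℕ} {c' d' m1 r : ℕ}

/-- The response of the row `j` looks at the rows `[al, be]` of a block which contains its window. -/
theorem Lk_gg41 (ω : Env × Finset ℕ) {al be : ℕ} (h1 : al ≤ j - b) (h2 : j + b ≤ be) : Lk al be (gg μ s Q δ B b ω j) :=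
  Lk_gg δ B b j ω h1 h2

variable [SwQ Q]

/-- The right slab. -/
theorem HdAll_tilt41 (ω : Env × Finset ℕ) (h : j + b ≤ m1) (t : ℝ) : HdAll m1 (wm μ s N Q ω + t • gg μ s Q δ B b ω j) :=
  (HdAll_lw ω.1 m1).add ((HdAll_Lk (Lk_gg41 ω (Nat.zero_le _) h)).smul t)

/-- A block which contains the window. -/
theorem Wk_tilt41 (ω : Env × Finset ℕ) (h1 : c' ≤ j - b) (h2 : j + b ≤ d') (t : ℝ) :
    Wk c' c' d' d' (wm μ s N Q ω + t • gg μ s Q δ B b ω j) :=
  (Wk_lw ω.1 (h1.trans ((Nat.sub_le j b).trans ((Nat.le_add_right j b).trans h2)))).add ((Lk_gg41 ω h1 h2).Wk.smul t)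

/-- A block off the window. -/
theorem Wk_tilt_off41 (ω : Env × Finset ℕ) (hcd : c' ≤ d') (h : d' ≤ j - b ∨ j + b ≤ c') (t : ℝ) :
    Wk c' c' d' d' (wm μ s N Q ω + t • gg μ s Q δ B b ω j) := by
  have hm : Mp (pJ c' d') (gg μ s Q δ B b ω j) := fun x x' hx =>
    Lk_gg41 ω (le_refl (j - b)) (le_refl (j + b)) x x' fun i hi hi' =>
      h.elim (fun h1 => ps_of_ge hx (h1.trans hi)) fun h1 => ps_of_le hx (hi'.trans h1)
  exact (Wk_lw ω.1 hcd).add ((Pool.Agent.W_7d29a1_C0.Swap57.Mp.Wk hcd hm).smul t)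

/-- The left slab: every row `r ≤ j - b`. -/
theorem Wk_tilt_left41 (ω : Env × Finset ℕ) (hr : r ≤ j - b) (hN : j + b ≤ N) (t : ℝ) :
    Wk r r N N (wm μ s N Q ω + t • gg μ s Q δ B b ω j) := Wk_tilt41 ω hr hN t

/-- The pinned end. -/
theorem ps_end41 {y : ℕ} (S S' : Px (Pn N y)) : ps S N = ps S' N := by
  rw [ps_Pn, ps_Pn]

end

end Pool.W7d29a1.C0.H41
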