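import Pool.Agent.W_7d29a1_C0.GSS73
import Pool.Agent.W_7d29a1_C0.GSG52
import Pool.Agent.W_7d29a1_C0.JoinW41

/-!
CURV0 (MP_7d29a1_pr), GS one kick: THE BAD FUNCTIONAL BY PLACES, INTEGRATED. `rbw73`: the averaged mean `RBw` of `GSG52` (class `r`,
weights `Wf fl`) is at most `2 ∑ IF2 + 2 IFT + IG3 + 6 N ^ (-K)` + the probability of the bad environments; `ift73`: `IFT` at the model is at
most `IF1 (j - b, j) + IF1 (j, j + b) + ...`. (helper73)
-/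

set_option autoImplicit false
set_option linter.unusedSectionVars false
set_option linter.unusedVariables false

namespace Pool.W7d29a1.C0.Bd73

open Finset MeasureTheory Pool.Agent.W_7d29a1_F Pool.Agent.W_7d29a1_X Pool.W7d29a1.C0
open Pool.W7d29a1.C0 (gz gm gm_nonneg gm_mono gm_const)
open Pool.W7d29a1.C0.VT31
open Pool.Agent.W_7d29a1_H (sl)
open Pool.Agent.W_7d29a1_HZ (wd')
open Pool.Agent.W_7d29a1_C0 Pool.Agent.W_7d29a1_C0.Swap57 Pool.Agent.W_7d29a1_C0.Mod92 Pool.Agent.W_7d29a1_C0.Near32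
open Pool.Agent.W_7d29a1_C0.One32 Pool.Agent.W_7d29a1_C0.GS65
open Pool.W7d29a1.C0.GSE52 (Wf RBF RBq RBF_nonneg RBF_le meas_RBF int_RBF)
open Pool.W7d29a1.C0.GSD52 (RBj)
open Pool.W7d29a1.C0.GSG52 (RBw bxF)
open Pool.W7d29a1.C0.R43 (Tau mI mI_nonneg)
open Pool.Agent.W_7d29a1_C0.Blk18 (Full full_Pn)
open Pool.Agent.W_7d29a1_C0.GwA50 (GwW)
open Pool.Agent.W_7d29a1_C0.Far34 (Fl nfl nfl_nonneg vv vv_nonneg)
open Pool.W7d29a1.C0.H41 (E3 UK UK_nonneg)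

noncomputable section

/-! ### Measurability and bounds -/

section Meas

variable {Ω' : Type*} [MeasurableSpace Ω'] {Q : Finset (Finset ℕ)} [Nonempty (Px Q)] {w : Ω' → Px Q → ℝ}
  {qz p p' pk' : Px Q → Finset ℕ × ℕ} {cls NMA : Px Q → Px Q → ℝ} {g : Ω' → Px Q → ℝ}

theorem meas_own73 (hw : ∀ x, Measurable fun ω => w ω x) (x : Px Q) :
    Measurable fun ω => cE (w ω) p' (cls x) x * cE2 (w ω) pk' NMA x x :=
  (meas_cE (f := fun _ => cls x) hw (fun S => measurable_const) p' x).mul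
    (meas_cE2 hw pk' (K := fun _ => NMA) (fun _ _ => measurable_const) x x)

theorem meas_FT (hw : ∀ x, Measurable fun ω => w ω x) (hg : ∀ x, Measurable fun ω => g ω x) (q1 δ' : ℝ) :
    Measurable fun ω => FT (w ω) qz p p' pk' (g ω) cls NMA q1 δ' := by
  classical
  unfold FT
  have mT : ∀ S, Measurable fun ω => TT (w ω) p (g ω) S := fun S =>
    meas_cE2 hw p (K := fun ω z z' => |g ω z - g ω z'|) (fun z z' => ((hg z).sub (hg z')).norm) S S
  exact meas_gm hw fun x => (meas_le_ind (meas_cE hw (fun S => meas_le_ind (mT S) _) qz x) _).mul (meas_own73 hw x)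

theorem meas_F1 (hw : ∀ x, Measurable fun ω => w ω x) (i k : ℕ) (M : ℝ) :
    Measurable fun ω => F1 (w ω) qz p' pk' cls NMA i k M := by
  classical
  unfold F1
  exact meas_gm hw fun x => (meas_le_ind (meas_cE2 hw qz (K := fun _ => NI i k) (fun _ _ => measurable_const) x x) _).mul
    (meas_own73 hw x)

theorem meas_F2 (hw : ∀ x, Measurable fun ω => w ω x) (i k : ℕ) (ρ : ℝ) :
    Measurable fun ω => F2 (w ω) qz p' pk' cls NMA i k ρ := by
  classical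
  unfold F2
  refine meas_gm hw fun x => (meas_le_ind ?_ _).mul (meas_own73 hw x)
  unfold mI
  exact meas_cE (f := fun _ => NI i k x) hw (fun S => measurable_const) qz x

theorem meas_G3 (hw : ∀ x, Measurable fun ω => w ω x) (i k : ℕ) (q' : ℝ) :
    Measurable fun ω => G3 (w ω) p' pk' NMA i k q' := by
  classical
  unfold G3
  refine meas_gm hw fun x => Measurable.mul ?_ (meas_cE2 hw pk' (K := fun _ => NMA) (fun _ _ => measurable_const) x x)
  refine meas_cE (f := fun ω => UK (w ω) (NI i k) q' x) hw (fun y => ?_) p' x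
  unfold UK
  refine measurable_const.mul (Measurable.ite (measurableSet_lt measurable_const ?_) measurable_const measurable_const)
  exact meas_gm hw fun t => measurable_const

theorem meas_F3 (hw : ∀ x, Measurable fun ω => w ω x) (i k : ℕ) (q3 : ℝ) :
    Measurable fun ω => F3 (w ω) pk' NMA i k q3 := by
  classical
  unfold F3 E3
  refine meas_gm hw fun x => Measurable.mul ?_ (meas_cE2 hw pk' (K := fun _ => NMA) (fun _ _ => measurable_const) x x)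
  refine Measurable.ite (measurableSet_lt measurable_const ?_) measurable_const measurable_const
  exact meas_gm hw fun y => measurable_const.mul (meas_gm hw fun t => measurable_const)

variable {v : Px Q → ℝ} {g : Px Q → ℝ} (c0 : ∀ x y, 0 ≤ cls x y) (c1 : ∀ x y, cls x y ≤ 1) (n0 : ∀ x y, 0 ≤ NMA x y)
  (n1 : ∀ x y, NMA x y ≤ 1)

include c0 c1 n0 n1

theorem ind_own01 (v : Px Q → ℝ) (E : Px Q → Prop) [DecidablePred E] : (∀ x, 0 ≤ (if E x then (1 : ℝ) else 0) *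
      (cE v p' (cls x) x * cE2 v pk' NMA x x)) ∧ ∀ x, (if E x then (1 : ℝ) else 0) * (cE v p' (cls x) x * cE2 v pk' NMA x x) ≤ 1 :=
  ⟨fun x => mul_nonneg (by split_ifs <;> norm_num) (own01 v c0 c1 n0 n1 x).1, fun x => by
    have := own01 (p' := p') (pk' := pk') v c0 c1 n0 n1 x
    split_ifs <;> linarith⟩

theorem FT_01 (q1 δ' : ℝ) : 0 ≤ FT v qz p p' pk' g cls NMA q1 δ' ∧ FT v qz p p' pk' g cls NMA q1 δ' ≤ 1 := by
  classical
  have h := ind_own01 (p' := p') (pk' := pk') c0 c1 n0 n1 v (fun x => q1 ≤ cE v qz (fun S => if δ' ≤ TT v p g S then 1 else 0) x)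
  exact gm_01 v h.1 h.2

theorem F1_01 (i k : ℕ) (M : ℝ) : 0 ≤ F1 v qz p' pk' cls NMA i k M ∧ F1 v qz p' pk' cls NMA i k M ≤ 1 := by
  classical
  have h := ind_own01 (p' := p') (pk' := pk') c0 c1 n0 n1 v (fun x => Tau v qz i k M x)
  exact gm_01 v h.1 h.2

theorem F2_01 (i k : ℕ) (ρ : ℝ) : 0 ≤ F2 v qz p' pk' cls NMA i k ρ ∧ F2 v qz p' pk' cls NMA i k ρ ≤ 1 := by
  classical
  have h := ind_own01 (p' := p') (pk' := pk') c0 c1 n0 n1 v (fun x => ρ ≤ mI v qz i k x)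
  exact gm_01 v h.1 h.2

omit c0 c1 in
theorem G3_01 (i k : ℕ) (q' : ℝ) : 0 ≤ G3 v p' pk' NMA i k q' ∧ G3 v p' pk' NMA i k q' ≤ 1 := by
  classical
  have k0 : ∀ x y : Px Q, 0 ≤ UK v (NI i k) q' x y := fun x y => UK_nonneg (fun x y => NI_nonneg i k x y) q' x y
  have k1 : ∀ x y : Px Q, UK v (NI i k) q' x y ≤ 1 := fun x y => by
    have h1 := NI_nonneg i k x y
    have h2 : NI i k x y ≤ 1 := by
      unfold NI
      split_ifs <;> norm_num
    unfold UK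
    split_ifs <;> linarith
  refine gm_01 v (fun x => mul_nonneg (cE_nonneg v p' (k0 x) x) (cE2_nonneg v pk' n0 x x)) fun x => ?_
  have h1 := cE2_le_one v pk' n1 x x
  have h2 := cE2_nonneg v pk' n0 x x
  have h3 : cE v p' (UK v (NI i k) q' x) x ≤ 1 := by
    have e := cE_mono v p' (f := UK v (NI i k) q' x) (g := fun _ => 1) (k1 x) x
    rwa [cE_one] at e
  have h4 := cE_nonneg v p' (k0 x) x
  nlinarith

omit c0 c1 in
theorem F3_01 (i k : ℕ) (q3 : ℝ) : 0 ≤ F3 v pk' NMA i k q3 ∧ F3 v pk' NMA i k q3 ≤ 1 := by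
  classical
  refine gm_01 v (fun x => mul_nonneg (by split_ifs <;> norm_num) (cE2_nonneg v pk' n0 x x)) fun x => ?_
  have h1 := cE2_le_one v pk' n1 x x
  have h2 := cE2_nonneg v pk' n0 x x
  split_ifs <;> linarith

end Meas

/-- The integral off a good set, any bound. -/
theorem int_good73C {μ : Measure ℝ} {N : ℕ} [IsProbabilityMeasure μ] {Ω : Set Env} (mΩ : MeasurableSet Ω) {ep : ℝ} (hep : 0 ≤ ep)
    (hΩc : law μ Ωᶜ ≤ ENNReal.ofReal ep) {X Y : Env × Finset ℕ → ℝ} (mX : Measurable X) (mY : Measurable Y) {C C₁ : ℝ} (hC₁ : 0 < C₁)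
    (X0 : ∀ ω, 0 ≤ X ω) (X1 : ∀ ω, X ω ≤ C₁) (Y0 : ∀ ω, 0 ≤ Y ω) (YC : ∀ ω, Y ω ≤ C) {θ' : ℝ} (hθ : 0 ≤ θ')
    (h : ∀ ω : Env × Finset ℕ, ω.1 ∈ Ω → X ω ≤ Y ω + θ') :
    ∫ ω, X ω ∂(Pm μ N) ≤ ∫ ω, Y ω ∂(Pm μ N) + (θ' + C₁ * ep) := by
  have h1 := int_good73 (μ := μ) (N := N) mΩ hep hΩc (X := fun ω => X ω / C₁) (Y := fun ω => Y ω / C₁) (mX.div_const C₁)
    (mY.div_const C₁) (C := C / C₁) (fun ω => div_nonneg (X0 ω) hC₁.le) (fun ω => (div_le_one hC₁).2 (X1 ω))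
    (fun ω => div_nonneg (Y0 ω) hC₁.le) (fun ω => div_le_div_of_nonneg_right (YC ω) hC₁.le) (θ' := θ' / C₁)
    (div_nonneg hθ hC₁.le) (fun ω hω => by
      rw [← add_div]
      exact div_le_div_of_nonneg_right (h ω hω) hC₁.le)
  rw [integral_div, integral_div, div_add' _ _ _ hC₁.ne', div_le_div_iff_of_pos_right hC₁] at h1
  refine h1.trans (le_of_eq ?_)
  rw [add_mul, div_mul_cancel₀ _ hC₁.ne']
  ring

/-! ### The geometry -/

/-- The block of length `m σ` contains the block of length `σ`. -/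
theorem blk_sub73 {σ m : ℕ} (hσ : 0 < σ) (hm : 0 < m) (j : ℕ) :
    j / (m * σ) * (m * σ) ≤ j / σ * σ ∧ j / σ * σ + σ ≤ j / (m * σ) * (m * σ) + m * σ := by
  constructor
  · have h4 : j / (m * σ) * m ≤ j / σ := by
      rw [Nat.le_div_iff_mul_le hσ, mul_assoc]
      exact Nat.div_mul_le_self j (m * σ)
    calc j / (m * σ) * (m * σ) = j / (m * σ) * m * σ := by ring
      _ ≤ j / σ * σ := Nat.mul_le_mul_right σ h4
  · have h6 : j / σ + 1 ≤ (j / (m * σ) + 1) * m := by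
      have h7 : j / σ < (j / (m * σ) + 1) * m := by
        rw [Nat.div_lt_iff_lt_mul hσ, mul_assoc]
        have := Nat.lt_div_mul_add (a := j) (Nat.mul_pos hm hσ)
        calc j < j / (m * σ) * (m * σ) + m * σ := this
          _ = (j / (m * σ) + 1) * (m * σ) := by ring
      omega
    calc j / σ * σ + σ = (j / σ + 1) * σ := by ring
      _ ≤ (j / (m * σ) + 1) * m * σ := Nat.mul_le_mul_right σ h6
      _ = j / (m * σ) * (m * σ) + m * σ := by ring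

/-- The geometry of a pair of rows `j`, `k`: the windows (with the slabs and the length `2 e`) lie in the blocks of length `σ`. -/
structure Geo73 (N b σ m j k e : ℕ) : Prop where
  hb : 10 ≤ b
  hbe : b ≤ e
  hσ : 0 < σ
  hm : 0 < m
  j1 : j / σ * σ + (3 * b + 2 * e) ≤ j
  j2 : j + (3 * b + 2 * e) ≤ j / σ * σ + σ
  k1 : k / σ * σ + (3 * b + 2 * e) ≤ k
  k2 : k + (3 * b + 2 * e) ≤ k / σ * σ + σ
  jN : j / (m * σ) * (m * σ) + m * σ ≤ N
  kN : k / (m * σ) * (m * σ) + m * σ ≤ N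

/-- Two blocks of the grid are equal or disjoint. -/
theorem blk_or73 {τ : ℕ} (j k : ℕ) (h : j / τ ≠ k / τ) : k / τ * τ + τ ≤ j / τ * τ ∨ j / τ * τ + τ ≤ k / τ * τ := by
  rcases Nat.lt_or_gt_of_ne h with h1 | h1
  · right
    calc j / τ * τ + τ = (j / τ + 1) * τ := by ring
      _ ≤ k / τ * τ := Nat.mul_le_mul_right _ h1
  · left
    calc k / τ * τ + τ = (k / τ + 1) * τ := by ring
      _ ≤ j / τ * τ := Nat.mul_le_mul_right _ h1

section Frame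

variable {μ : Measure ℝ} {s : ℝ} {N : ℕ} {δ B : ℝ} {b σ m j k e : ℕ}

/-- The weights of the frame are tilts of the model by the row `j`. -/
theorem Wf_tilt73 (fl : Bool) (y : ℕ) (ω : Env × Finset ℕ) : ∃ t : ℝ, |t| ≤ 2 ∧
    Wf μ s N δ B b j fl y ω = wm μ s N (Pn N y) ω + t • gg μ s (Pn N y) δ B b ω j := by
  cases fl
  · refine ⟨0, by norm_num, ?_⟩
    rw [zero_smul, add_zero]
    rfl
  · refine ⟨-(sg ω.2 j : ℝ) - sg ω.2 j, ?_, rfl⟩
    rcases sg_or ω.2 j with h | h <;> rw [h] <;> norm_num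

theorem Wf_close73 (hB : 0 ≤ B) (fl : Bool) (y : ℕ) (ω : Env × Finset ℕ) (x : Px (Pn N y)) :
    |Wf μ s N δ B b j fl y ω x - lw μ s ω.1 N (Pn N y) x| ≤ B := by
  obtain ⟨t, ht, e⟩ := Wf_tilt73 (μ := μ) (s := s) (N := N) (δ := δ) (B := B) (b := b) (j := j) fl y ω
  rw [e]
  show |wm μ s N (Pn N y) ω x + t * gg μ s (Pn N y) δ B b ω j x - lw μ s ω.1 N (Pn N y) x| ≤ B
  have e1 : wm μ s N (Pn N y) ω x + t * gg μ s (Pn N y) δ B b ω j x - lw μ s ω.1 N (Pn N y) x =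
      t * gg μ s (Pn N y) δ B b ω j x := by
    show lw μ s ω.1 N (Pn N y) x + t * gg μ s (Pn N y) δ B b ω j x - lw μ s ω.1 N (Pn N y) x = _
    ring
  rw [e1, abs_mul]
  have h2 := abs_gg (μ := μ) (s := s) (δ := δ) hB b ω j x
  calc |t| * |gg μ s (Pn N y) δ B b ω j x| ≤ 2 * (B / 2) := mul_le_mul ht h2 (abs_nonneg _) (by norm_num)
    _ = B := by ring

/-- The kernel of the row `j`, right, is below the kernel of the piece. -/
theorem Cl_true73 {Q : Finset (Finset ℕ)} {m1 z : ℕ} (h1 : j + b ≤ m1) (h2 : z ≤ j / σ * σ + σ) (x y : Px Q) :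
    Cl b σ j true x y ≤ NI m1 z x y := Swap57.NI_mono h1 h2 x y

theorem Cl_false73 {Q : Finset (Finset ℕ)} {m1 z : ℕ} (h1 : m1 ≤ j - b) (h2 : j / σ * σ ≤ z) (x y : Px Q) :
    Cl b σ j false x y ≤ NI z m1 x y := by
  show KL (j / σ * σ) (j - b) (j + b) (j / σ * σ + σ) x y ≤ _
  unfold KL
  have a1 : NI (j / σ * σ) (j - b) x y ≤ NI z m1 x y := Swap57.NI_mono h2 h1 x y
  have a2 := NI_nonneg (j + b) (j / σ * σ + σ) x y
  have a3 := NI_nonneg (j / σ * σ) (j - b) x y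
  nlinarith

theorem Cl_symm73 {Q : Finset (Finset ℕ)} (r : Bool) (x y : Px Q) : Cl b σ j r x y = Cl b σ j r y x := by
  cases r
  · exact KL_symm x y
  · exact KR_symm x y

/-- The kernel of the row `k` looks at its block. -/
theorem NA_congr73 {Q : Finset (Finset ℕ)} {ck dk : ℕ} (h1 : ck ≤ k / σ * σ) (h2 : k / σ * σ + σ ≤ dk) {x x' y y' : Px Q}
    (h : ∀ i, ck ≤ i → i ≤ dk → (Eqp x y i ↔ Eqp x' y' i)) (hk : k - b ≤ k / σ * σ + σ) (hk' : k / σ * σ ≤ k + b) :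
    NA b σ j k x y = NA b σ j k x' y' := by
  unfold NA NMP
  have e : MtP (Po b j) (k / σ * σ) (k - b) (k + b) (k / σ * σ + σ) x y ↔
      MtP (Po b j) (k / σ * σ) (k - b) (k + b) (k / σ * σ + σ) x' y' := by
    unfold MtP
    refine and_congr ?_ ?_
    · refine exists_congr fun i => ?_
      constructor
      · rintro ⟨a1, a2, a3, a4⟩
        exact ⟨a1, a2, a3, (h i (by omega) (by omega)).1 a4⟩
      · rintro ⟨a1, a2, a3, a4⟩
        exact ⟨a1, a2, a3, (h i (by omega) (by omega)).2 a4⟩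
    · refine exists_congr fun i => ?_
      constructor
      · rintro ⟨a1, a2, a3, a4⟩
        exact ⟨a1, a2, a3, (h i (by omega) (by omega)).1 a4⟩
      · rintro ⟨a1, a2, a3, a4⟩
        exact ⟨a1, a2, a3, (h i (by omega) (by omega)).2 a4⟩
  by_cases h3 : MtP (Po b j) (k / σ * σ) (k - b) (k + b) (k / σ * σ + σ) x y
  · rw [if_pos h3, if_pos (e.1 h3)]
  · rw [if_neg h3, if_neg fun h4 => h3 (e.2 h4)]

/-- **The factor of the other row does not see the block of `j`**, at the tilted weights. -/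
theorem Mp_Fk73 (G : Geo73 N b σ m j k e) {Q : Finset (Finset ℕ)} [Nonempty (Px Q)] [SwQ Q] (ω : Env × Finset ℕ) (t : ℝ) :
    Mp (pJ (j / (m * σ) * (m * σ)) (j / (m * σ) * (m * σ) + m * σ)) fun x =>
      cE2 (wm μ s N Q ω + t • gg μ s Q δ B b ω j) (pB (m * σ) k) (NA b σ j k) x x := by
  obtain ⟨s1, s2⟩ := blk_sub73 G.hσ G.hm j
  obtain ⟨s3, s4⟩ := blk_sub73 G.hσ G.hm k
  have g1 := G.j1
  have g2 := G.j2
  have g3 := G.k1
  have g4 := G.k2
  by_cases h : j / (m * σ) = k / (m * σ)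
  · have e1 : (pB (m * σ) k : Px Q → Finset ℕ × ℕ) = pJ (j / (m * σ) * (m * σ)) (j / (m * σ) * (m * σ) + m * σ) := by
      unfold pB
      rw [h]
    rw [e1]
    exact Pool.W7d29a1.C0.H41.Mp_Fs41 _ _
  · have h1 := blk_or73 (τ := m * σ) j k h
    refine Pool.W7d29a1.C0.H41.Mp_F41 (ck := k / (m * σ) * (m * σ)) (dk := k / (m * σ) * (m * σ) + m * σ) (Nat.le_add_right _ _) h1
      (Pool.W7d29a1.C0.H41.Wk_tilt_off41 ω (Nat.le_add_right _ _) (by omega) t) (fun y T T' hT => ?_) (fun x T T' hT => ?_)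
    · refine NA_congr73 s3 s4 (fun i hi hi' => ?_) (by omega) (by omega)
      unfold Eqp
      rw [hT i hi hi']
    · refine NA_congr73 s3 s4 (fun i hi hi' => ?_) (by omega) (by omega)
      unfold Eqp
      rw [hT i hi hi']

variable {γ ε c₁ A K κp θ R : ℝ} {v : ℕ → ℝ}

/-- The flatness data of the boxes. -/
structure Flt73 (b : ℕ) (R : ℝ) (v : ℕ → ℝ) : Prop where
  hR : 1 ≤ R
  v0 : 0 ≤ v 0
  hRv : ∀ k, 1 ≤ k → k ≤ b → v k ≤ R
  hRl : ∀ k, k ≤ 2 * (b / 7 + 1) → 1 + 2 * v k ≤ R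

/-- **The bad functional of the frame by places, one environment.** -/
theorem rbf_pt73 (G : Geo73 N b σ m j k e) (hB : 0 ≤ B) (V : LvW N A B B K κp ε c₁ θ) (F : Flt73 b R v) (r fl : Bool) {y : ℕ}
    (hy : y ≤ N) (ω : Env × Finset ℕ) (hθ : gm (lw μ s ω.1 N (Pn N y)) (nfl N (sl μ s) v) ≤ θ) :
    RBF μ s N δ B b σ m j k (Ico (j + 2 * b) (j + 3 * b)) (Ico (j - 3 * b) (j - 2 * b)) (sl μ s) R ((j + 2 * b : ℕ) : ℤ)
      ((j - 2 * b : ℕ) : ℤ) (j + 3 * b) (j - 3 * b) (bxF N R b j) (Real.exp (-A)) (Real.exp (-A)) r y (Wf μ s N δ B b j fl y ω) ω ≤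
      2 * ∑ t ∈ range 8, F2 (Wf μ s N δ B b j fl y ω) (qz73 N (z73 b j e r) r) (pB (m * σ) j) (pB (m * σ) k) (Cl b σ j r)
          (NA b σ j k) (a73 b j r + t * (b / 7 + 1)) (a73 b j r + t * (b / 7 + 1) + (b / 7 + 1)) V.ρ₁ +
        2 * FT (Wf μ s N δ B b j fl y ω) (qz73 N (z73 b j e r) r) (qz73 N (m73 b j r) r) (pB (m * σ) j) (pB (m * σ) k)
          (gg μ s (Pn N y) δ B b ω j) (Cl b σ j r) (NA b σ j k) V.q1 (Real.exp (-A)) +
        G3 (Wf μ s N δ B b j fl y ω) (pB (m * σ) j) (pB (m * σ) k) (NA b σ j k) (min (m73 b j r) (z73 b j e r))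
          (max (m73 b j r) (z73 b j e r)) (Real.exp (-A) / 3) + 6 * (N : ℝ) ^ (-K) := by
  have n1 : Nonempty (Px (Pn N y)) := ne_Pn hy
  obtain ⟨s1, s2⟩ := blk_sub73 G.hσ G.hm j
  have g1 := G.j1
  have g2 := G.j2
  have g5 := G.jN
  have hb := G.hb
  have hbe := G.hbe
  obtain ⟨t, ht, ew⟩ := Wf_tilt73 (μ := μ) (s := s) (N := N) (δ := δ) (B := B) (b := b) (j := j) fl y ω
  have hcl := Wf_close73 (μ := μ) (s := s) (N := N) (δ := δ) (B := B) (b := b) (j := j) hB fl y ω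
  have hF : Mp (pJ (j / (m * σ) * (m * σ)) (j / (m * σ) * (m * σ) + m * σ)) fun x =>
      cE2 (Wf μ s N δ B b j fl y ω) (pB (m * σ) k) (NA b σ j k) x x := by
    rw [ew]
    exact Mp_Fk73 G ω t
  have hw' : Wk (j / (m * σ) * (m * σ)) (j / (m * σ) * (m * σ)) (j / (m * σ) * (m * σ) + m * σ) (j / (m * σ) * (m * σ) + m * σ)
      (Wf μ s N δ B b j fl y ω) := by
    rw [ew]
    exact Pool.W7d29a1.C0.H41.Wk_tilt41 ω (by omega) (by omega) t
  have c0 : ∀ x y' : Px (Pn N y), 0 ≤ Cl b σ j r x y' := Cl_nonneg b σ j r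
  have n0 : ∀ x y' : Px (Pn N y), 0 ≤ NA b σ j k x y' := NA_nonneg b σ j k
  have n1' : ∀ x y' : Px (Pn N y), NA b σ j k x y' ≤ 1 := NA_le_one b σ j k
  have hl0 : 1 ≤ b / 7 + 1 := by omega
  have hl7 : b ≤ 7 * (b / 7 + 1) := by omega
  have hl9 : 9 * (b / 7 + 1) ≤ 3 * b := by omega
  cases r
  · have hHd : ∀ r', j - 3 * b - e ≤ r' → r' ≤ j - 3 * b → Wk r' r' N N (Wf μ s N δ B b j fl y ω) := fun r' _ h2 => by
      rw [ew]
      exact Pool.W7d29a1.C0.H41.Wk_tilt_left41 ω (by omega) (by omega) t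
    have key := rbs_L73 (μ := μ) (s := s) (N := N) (Q := Pn N y) Pool.W7d29a1.C0.H41.ps_end41 (γ := δ) V (b := b) (j := j) (by omega)
      (by omega) (c' := j / (m * σ) * (m * σ)) (d' := j / (m * σ) * (m * σ) + m * σ) (m1 := j - 3 * b) (z := j - 3 * b - e) (by omega)
      (by omega) (by omega) (by omega) g5 (k0 := j - 2 * b) (n := N) (a0 := j - 3 * b) (l := b / 7 + 1) (r := 7)
      (J := Ico (j - 3 * b) (j - 2 * b)) (fun i hi => by
        have := mem_Ico.1 hi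
        omega) (fun i hi => by
        have := mem_Ico.1 hi
        omega) hl0 le_rfl (by omega) (by omega) (by omega) (L' := b) (fun i hi => by
        have := mem_Ico.1 hi
        omega) F.hR F.v0 F.hRv one_pos F.hRl hθ (a := sg ω.2 j) hcl hHd hw' c0
      (fun x y' => Cl_false73 (by omega) (by omega) x y') (fun x y' => Cl_symm73 false x y') n0 n1' hF le_rfl le_rfl
    have e1 : min (m73 b j false) (z73 b j e false) = j - 3 * b - e := min_eq_right (by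
      show j - 3 * b - e ≤ j - 3 * b
      omega)
    have e2 : max (m73 b j false) (z73 b j e false) = j - 3 * b := max_eq_left (by
      show j - 3 * b - e ≤ j - 3 * b
      omega)
    rw [e1, e2]
    exact key
  · have hHd : Pool.Agent.W_7d29a1_C0.NM82.HdAll (j + 3 * b) (Wf μ s N δ B b j fl y ω) := by
      rw [ew]
      exact Pool.W7d29a1.C0.H41.HdAll_tilt41 ω (by omega) t
    have key := rbs_R73 (μ := μ) (s := s) (N := N) (Q := Pn N y) (γ := δ) V (b := b) (j := j) (by omega)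
      (c' := j / (m * σ) * (m * σ)) (d' := j / (m * σ) * (m * σ) + m * σ) (m1 := j + 3 * b) (z := j + 3 * b + e) (by omega)
      (by omega) (by omega) (by omega) g5 (k0 := j + 2 * b) (n := N) (a0 := j + 2 * b) (l := b / 7 + 1) (r := 7)
      (J := Ico (j + 2 * b) (j + 3 * b)) (fun i hi => by
        have := mem_Ico.1 hi
        omega) (fun i hi => by
        have := mem_Ico.1 hi
        omega) hl0 le_rfl (by omega) (by omega) (by omega) (L' := b) (fun i hi => by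
        have := mem_Ico.1 hi
        omega) F.hR F.v0 F.hRv one_pos F.hRl hθ (a := sg ω.2 j) hcl hHd hw' c0
      (fun x y' => Cl_true73 (by omega) (by omega) x y') (fun x y' => Cl_symm73 true x y') n0 n1' hF le_rfl le_rfl
    have e1 : min (m73 b j true) (z73 b j e true) = j + 3 * b := min_eq_left (by
      show j + 3 * b ≤ j + 3 * b + e
      omega)
    have e2 : max (m73 b j true) (z73 b j e true) = j + 3 * b + e := max_eq_right (by
      show j + 3 * b ≤ j + 3 * b + e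
      omega)
    rw [e1, e2]
    exact key

variable [IsProbabilityMeasure μ]

theorem int01_73 {f : Env × Finset ℕ → ℝ} (mf : Measurable f) (h : ∀ ω, 0 ≤ f ω ∧ f ω ≤ 1) : Integrable f (Pm μ N) :=
  int_bdd mf (M := 1) fun ω => by
    rw [abs_of_nonneg (h ω).1]
    exact (h ω).2

/-- **The bad functional of the frame by places, integrated**, one end. -/
theorem rbf_int73 (G : Geo73 N b σ m j k e) (hB : 0 ≤ B) (V : LvW N A B B K κp ε c₁ θ) (F : Flt73 b R v) (r fl : Bool) {y : ℕ}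
    (hy : y ≤ N) {ep : ℝ} (hep : 0 ≤ ep)
    (hΩ : law μ {η | θ < gm (lw μ s η N (Pn N y)) (nfl N (sl μ s) v)} ≤ ENNReal.ofReal ep) :
    ∫ ω, RBF μ s N δ B b σ m j k (Ico (j + 2 * b) (j + 3 * b)) (Ico (j - 3 * b) (j - 2 * b)) (sl μ s) R ((j + 2 * b : ℕ) : ℤ)
      ((j - 2 * b : ℕ) : ℤ) (j + 3 * b) (j - 3 * b) (bxF N R b j) (Real.exp (-A)) (Real.exp (-A)) r y (Wf μ s N δ B b j fl y ω) ω
        ∂(Pm μ N) ≤
      2 * ∑ t ∈ range 8, (∫ ω, F2 (Wf μ s N δ B b j fl y ω) (qz73 N (z73 b j e r) r) (pB (m * σ) j) (pB (m * σ) k) (Cl b σ j r)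
          (NA b σ j k) (a73 b j r + t * (b / 7 + 1)) (a73 b j r + t * (b / 7 + 1) + (b / 7 + 1)) V.ρ₁ ∂(Pm μ N)) +
        2 * (∫ ω, FT (Wf μ s N δ B b j fl y ω) (qz73 N (z73 b j e r) r) (qz73 N (m73 b j r) r) (pB (m * σ) j) (pB (m * σ) k)
          (gg μ s (Pn N y) δ B b ω j) (Cl b σ j r) (NA b σ j k) V.q1 (Real.exp (-A)) ∂(Pm μ N)) +
        (∫ ω, G3 (Wf μ s N δ B b j fl y ω) (pB (m * σ) j) (pB (m * σ) k) (NA b σ j k) (min (m73 b j r) (z73 b j e r))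
          (max (m73 b j r) (z73 b j e r)) (Real.exp (-A) / 3) ∂(Pm μ N)) + (6 * (N : ℝ) ^ (-K) + ((N : ℝ) + 1) ^ 2 * ep) := by
  have n1 : Nonempty (Px (Pn N y)) := ne_Pn hy
  have c0 : ∀ x y' : Px (Pn N y), 0 ≤ Cl b σ j r x y' := Cl_nonneg b σ j r
  have c1 : ∀ x y' : Px (Pn N y), Cl b σ j r x y' ≤ 1 := Cl_le_one b σ j r
  have n0 : ∀ x y' : Px (Pn N y), 0 ≤ NA b σ j k x y' := NA_nonneg b σ j k
  have n1' : ∀ x y' : Px (Pn N y), NA b σ j k x y' ≤ 1 := NA_le_one b σ j k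
  have mW : ∀ S, Measurable fun ω => Wf μ s N δ B b j fl y ω S := fun S => Pool.W7d29a1.C0.GSE52.meas_Wf fl S
  obtain ⟨f2, hf2⟩ : ∃ f2 : ℕ → Env × Finset ℕ → ℝ, f2 = fun t ω => F2 (Wf μ s N δ B b j fl y ω) (qz73 N (z73 b j e r) r)
    (pB (m * σ) j) (pB (m * σ) k) (Cl b σ j r) (NA b σ j k) (a73 b j r + t * (b / 7 + 1))
    (a73 b j r + t * (b / 7 + 1) + (b / 7 + 1)) V.ρ₁ := ⟨_, rfl⟩
  obtain ⟨fT, hfT⟩ : ∃ fT : Env × Finset ℕ → ℝ, fT = fun ω => FT (Wf μ s N δ B b j fl y ω) (qz73 N (z73 b j e r) r)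
    (qz73 N (m73 b j r) r) (pB (m * σ) j) (pB (m * σ) k) (gg μ s (Pn N y) δ B b ω j) (Cl b σ j r) (NA b σ j k) V.q1
    (Real.exp (-A)) := ⟨_, rfl⟩
  obtain ⟨f3, hf3⟩ : ∃ f3 : Env × Finset ℕ → ℝ, f3 = fun ω => G3 (Wf μ s N δ B b j fl y ω) (pB (m * σ) j) (pB (m * σ) k)
    (NA b σ j k) (min (m73 b j r) (z73 b j e r)) (max (m73 b j r) (z73 b j e r)) (Real.exp (-A) / 3) := ⟨_, rfl⟩
  have m2 : ∀ t, Measurable (f2 t) := fun t => by
    rw [hf2]
    exact meas_F2 mW _ _ _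
  have mT : Measurable fT := by
    rw [hfT]
    exact meas_FT mW (fun S => meas_gg δ B b j S) _ _
  have m3 : Measurable f3 := by
    rw [hf3]
    exact meas_G3 mW _ _ _
  have b2 : ∀ t ω, 0 ≤ f2 t ω ∧ f2 t ω ≤ 1 := fun t ω => by
    rw [hf2]
    exact F2_01 c0 c1 n0 n1' _ _ _
  have bT : ∀ ω, 0 ≤ fT ω ∧ fT ω ≤ 1 := fun ω => by
    rw [hfT]
    exact FT_01 c0 c1 n0 n1' _ _
  have b3 : ∀ ω, 0 ≤ f3 ω ∧ f3 ω ≤ 1 := fun ω => by
    rw [hf3]
    exact G3_01 n0 n1' _ _ _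
  have i2 : ∀ t, Integrable (f2 t) (Pm μ N) := fun t => int01_73 (m2 t) (b2 t)
  have iT : Integrable fT (Pm μ N) := int01_73 mT bT
  have i3 : Integrable f3 (Pm μ N) := int01_73 m3 b3
  have s2 : ∀ ω, 0 ≤ ∑ t ∈ range 8, f2 t ω ∧ ∑ t ∈ range 8, f2 t ω ≤ 8 := fun ω => ⟨sum_nonneg fun t _ => (b2 t ω).1, by
    refine (sum_le_card_nsmul _ _ 1 fun t _ => (b2 t ω).2).trans (le_of_eq ?_)
    rw [card_range, nsmul_eq_mul]
    norm_num⟩
  have mY : Measurable fun ω => 2 * ∑ t ∈ range 8, f2 t ω + 2 * fT ω + f3 ω :=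
    ((measurable_const.mul (Finset.measurable_fun_sum _ fun t _ => m2 t)).add (measurable_const.mul mT)).add m3
  have hN0 : (0 : ℝ) < ((N : ℝ) + 1) ^ 2 := by positivity
  have mΩ : MeasurableSet {η : Env | θ < gm (lw μ s η N (Pn N y)) (nfl N (sl μ s) v)} :=
    measurableSet_lt measurable_const (meas_gm (fun S => meas_lw S) fun x => measurable_const)
  have key := int_good73C (μ := μ) (N := N) mΩ.compl hep (by rwa [compl_compl]) (meas_RBF hy r fl) mY (C := 19) hN0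
    (fun ω => RBF_nonneg hy r _ ω) (fun ω => RBF_le hy r _ ω)
    (fun ω => by linarith [(s2 ω).1, (bT ω).1, (b3 ω).1]) (fun ω => by linarith [(s2 ω).2, (bT ω).2, (b3 ω).2])
    (θ' := 6 * (N : ℝ) ^ (-K)) (by positivity) (fun ω hω => by
      have h1 := rbf_pt73 (μ := μ) (s := s) (δ := δ) G hB V F r fl hy ω (not_lt.1 hω)
      rw [hf2, hfT, hf3]
      exact h1)
  refine key.trans (le_of_eq ?_)
  have e1 : ∫ ω, (2 * ∑ t ∈ range 8, f2 t ω + 2 * fT ω + f3 ω) ∂(Pm μ N) =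
      2 * ∑ t ∈ range 8, (∫ ω, f2 t ω ∂(Pm μ N)) + 2 * (∫ ω, fT ω ∂(Pm μ N)) + ∫ ω, f3 ω ∂(Pm μ N) := by
    have j1 : Integrable (fun ω => ∑ t ∈ range 8, f2 t ω) (Pm μ N) := integrable_finsetSum _ fun t _ => i2 t
    have e2 : ∫ ω, (2 * ∑ t ∈ range 8, f2 t ω + 2 * fT ω + f3 ω) ∂(Pm μ N) =
        (∫ ω, (2 * ∑ t ∈ range 8, f2 t ω + 2 * fT ω) ∂(Pm μ N)) + ∫ ω, f3 ω ∂(Pm μ N) :=
      integral_add ((j1.const_mul 2).add (iT.const_mul 2)) i3
    rw [e2, integral_add (j1.const_mul 2) (iT.const_mul 2), integral_const_mul, integral_const_mul,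
      integral_finsetSum _ fun t _ => i2 t]
  rw [e1]
  subst hf2
  subst hfT
  subst hf3
  rfl

/-- **THE BAD FUNCTIONAL OF THE FRAME BY PLACES.** -/
theorem rbw73 (G : Geo73 N b σ m j k e) (hB : 0 ≤ B) (V : LvW N A B B K κp ε c₁ θ) (F : Flt73 b R v) (r fl : Bool) {ys : Finset ℕ}
    (hne : ys.Nonempty) (hys : ∀ y ∈ ys, y ≤ N) {ep : ℝ} (hep : 0 ≤ ep)
    (hΩ : ∀ y ∈ ys, law μ {η | θ < gm (lw μ s η N (Pn N y)) (nfl N (sl μ s) v)} ≤ ENNReal.ofReal ep) :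
    RBw μ s N ys δ B b σ m j k R A r fl ≤
      2 * ∑ t ∈ range 8, IF2 μ s N ys δ B b σ m j k (z73 b j e r) r fl (a73 b j r + t * (b / 7 + 1))
          (a73 b j r + t * (b / 7 + 1) + (b / 7 + 1)) V.ρ₁ +
        2 * IFT μ s N ys δ B b σ m j k (z73 b j e r) r fl V.q1 (Real.exp (-A)) +
        IG3 μ s N ys δ B b σ m j k fl (min (m73 b j r) (z73 b j e r)) (max (m73 b j r) (z73 b j e r)) (Real.exp (-A) / 3) +
        (6 * (N : ℝ) ^ (-K) + ((N : ℝ) + 1) ^ 2 * ep) := by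
  refine (avy_mono fun y hy => rbf_int73 (μ := μ) (s := s) (δ := δ) G hB V F r fl (hys y hy) hep (hΩ y hy)).trans (le_of_eq ?_)
  rw [avy_add, avy_add, avy_add, avy_mul, avy_mul, avy_const hne, Pool.W7d29a1.C0.GSC52.avy_sum]
  rfl

/-- **The half response at the model**, one end. -/
theorem ft_int73 (G : Geo73 N b σ m j k e) (hB : 0 ≤ B) (V : LvW N A B B K κp ε c₁ θ) {κ δ₁ : ℝ} (hκ : (N : ℝ) ^ κ ≤ b)
    (hcn : v (2 * b) ≤ ((2 * b : ℕ) : ℝ) ^ δ₁ * wd' μ s (2 * b)) (r : Bool) {y : ℕ} (hy : y ≤ N) {ep : ℝ} (hep : 0 ≤ ep)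
    (hΩ : law μ {η | ¬ (GwW μ s N κ δ δ₁ ε c₁ η ∧ gm (lw μ s η N (Pn N y)) (nfl N (sl μ s) v) ≤ θ)} ≤ ENNReal.ofReal ep)
    {q1 δ' : ℝ} (hq1 : V.q1 / 2 ≤ q1) (hδ' : Real.exp (-A) / 2 ≤ δ') :
    ∫ ω, FT (Wf μ s N δ B b j false y ω) (qz73 N (z73 b j e r) r) (qz73 N (m73 b j r) r) (pB (m * σ) j) (pB (m * σ) k)
          (gg μ s (Pn N y) δ B b ω j) (Cl b σ j r) (NA b σ j k) q1 δ' ∂(Pm μ N) ≤
      (∫ ω, F1 (Wf μ s N δ B b j false y ω) (qz73 N (z73 b j e r) r) (pB (m * σ) j) (pB (m * σ) k)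
          (Cl b σ j r) (NA b σ j k) (j - b) j V.M ∂(Pm μ N)) +
        (∫ ω, F1 (Wf μ s N δ B b j false y ω) (qz73 N (z73 b j e r) r) (pB (m * σ) j) (pB (m * σ) k)
          (Cl b σ j r) (NA b σ j k) j (j + b) V.M ∂(Pm μ N)) + ((N : ℝ) ^ (-K) + ep) := by
  have n1 : Nonempty (Px (Pn N y)) := ne_Pn hy
  obtain ⟨s1, s2⟩ := blk_sub73 G.hσ G.hm j
  have g1 := G.j1
  have g2 := G.j2
  have g5 := G.jN
  have hb := G.hb
  have hbe := G.hbe
  have c0 : ∀ x y' : Px (Pn N y), 0 ≤ Cl b σ j r x y' := Cl_nonneg b σ j r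
  have c1 : ∀ x y' : Px (Pn N y), Cl b σ j r x y' ≤ 1 := Cl_le_one b σ j r
  have n0 : ∀ x y' : Px (Pn N y), 0 ≤ NA b σ j k x y' := NA_nonneg b σ j k
  have n1' : ∀ x y' : Px (Pn N y), NA b σ j k x y' ≤ 1 := NA_le_one b σ j k
  have mW : ∀ S, Measurable fun ω => Wf μ s N δ B b j false y ω S := fun S => Pool.W7d29a1.C0.GSE52.meas_Wf false S
  obtain ⟨f1, hf1⟩ : ∃ f1 : ℕ → ℕ → Env × Finset ℕ → ℝ, f1 = fun i i' ω => F1 (Wf μ s N δ B b j false y ω)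
    (qz73 N (z73 b j e r) r) (pB (m * σ) j) (pB (m * σ) k) (Cl b σ j r) (NA b σ j k) i i' V.M := ⟨_, rfl⟩
  have m1 : ∀ i i', Measurable (f1 i i') := fun i i' => by
    rw [hf1]
    exact meas_F1 mW _ _ _
  have b1 : ∀ i i' ω, 0 ≤ f1 i i' ω ∧ f1 i i' ω ≤ 1 := fun i i' ω => by
    rw [hf1]
    exact F1_01 c0 c1 n0 n1' _ _ _
  have mT : Measurable fun ω => FT (Wf μ s N δ B b j false y ω) (qz73 N (z73 b j e r) r) (qz73 N (m73 b j r) r) (pB (m * σ) j)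
      (pB (m * σ) k) (gg μ s (Pn N y) δ B b ω j) (Cl b σ j r) (NA b σ j k) q1 δ' := meas_FT mW (fun S => meas_gg δ B b j S) _ _
  obtain ⟨Bad, hBad⟩ : ∃ Bad : Set Env, Bad = {η | ¬ (GwW μ s N κ δ δ₁ ε c₁ η ∧ gm (lw μ s η N (Pn N y)) (nfl N (sl μ s) v) ≤ θ)} :=
    ⟨_, rfl⟩
  have h2b : j + b - (j - b) = 2 * b := by omega
  have key := int_good73 (μ := μ) (N := N) (measurableSet_toMeasurable (law μ) Bad).compl hep (by
      rw [compl_compl, measure_toMeasurable, hBad]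
      exact hΩ) mT ((m1 (j - b) j).add (m1 j (j + b))) (C := 2) (fun ω => (FT_01 c0 c1 n0 n1' _ _).1) (fun ω => (FT_01 c0 c1 n0 n1' _ _).2)
    (fun ω => add_nonneg (b1 _ _ ω).1 (b1 _ _ ω).1) (fun ω => by
      show f1 (j - b) j ω + f1 j (j + b) ω ≤ 2
      linarith [(b1 (j - b) j ω).2, (b1 j (j + b) ω).2])
    (θ' := (N : ℝ) ^ (-K)) (by positivity) (fun ω hω => by
      have hg : GwW μ s N κ δ δ₁ ε c₁ ω.1 ∧ gm (lw μ s ω.1 N (Pn N y)) (nfl N (sl μ s) v) ≤ θ := by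
        by_contra h
        refine hω (subset_toMeasurable _ _ ?_)
        rw [hBad]
        exact h
      obtain ⟨hg1, hg2⟩ := hg
      have hlen : (N : ℝ) ^ κ ≤ ((j - (j - b) : ℕ) : ℝ) := by
        rw [show j - (j - b) = b by omega]
        exact hκ
      have hcn' : v (j + b - (j - b)) ≤ ((j + b - (j - b) : ℕ) : ℝ) ^ δ₁ * wd' μ s (j + b - (j - b)) := by
        rw [h2b]
        exact hcn
      rw [hf1]
      cases r
      · exact ft_pt73 (μ := μ) (s := s) (N := N) (Q := Pn N y) V (full_Pn N y) hB (b := b) (j := j) (by omega) (by omega) hlen hκ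
          (c := j - 3 * b) (d := N) (by omega) (by omega) le_rfl (qz := pJ (j - 3 * b - e) N) (crs_pJ (by omega) le_rfl) hcn' hg1 hg2
          (a := sg ω.2 j) (sg_or ω.2 j) c0 c1 n0 n1' hq1 hδ'
      · exact ft_pt73 (μ := μ) (s := s) (N := N) (Q := Pn N y) V (full_Pn N y) hB (b := b) (j := j) (by omega) (by omega) hlen hκ
          (c := 0) (d := j + 3 * b) (by omega) (by omega) (by omega) (qz := pJ 0 (j + 3 * b + e)) (crs_pJ le_rfl (by omega)) hcn' hg1 hg2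
          (a := sg ω.2 j) (sg_or ω.2 j) c0 c1 n0 n1' hq1 hδ')
  refine key.trans (le_of_eq ?_)
  have e1 : ∫ ω, (f1 (j - b) j ω + f1 j (j + b) ω) ∂(Pm μ N) = (∫ ω, f1 (j - b) j ω ∂(Pm μ N)) + ∫ ω, f1 j (j + b) ω ∂(Pm μ N) :=
    integral_add (int01_73 (m1 _ _) (b1 _ _)) (int01_73 (m1 _ _) (b1 _ _))
  refine (congrArg (fun z => z + ((N : ℝ) ^ (-K) + ep)) e1).trans ?_
  rw [hf1]

/-- **The half response at the model, averaged.** -/
theorem ift73 (G : Geo73 N b σ m j k e) (hB : 0 ≤ B) (V : LvW N A B B K κp ε c₁ θ) {κ δ₁ : ℝ} (hκ : (N : ℝ) ^ κ ≤ b)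
    (hcn : v (2 * b) ≤ ((2 * b : ℕ) : ℝ) ^ δ₁ * wd' μ s (2 * b)) (r : Bool) {ys : Finset ℕ} (hne : ys.Nonempty)
    (hys : ∀ y ∈ ys, y ≤ N) {ep : ℝ} (hep : 0 ≤ ep)
    (hΩ : ∀ y ∈ ys, law μ {η | ¬ (GwW μ s N κ δ δ₁ ε c₁ η ∧ gm (lw μ s η N (Pn N y)) (nfl N (sl μ s) v) ≤ θ)} ≤ ENNReal.ofReal ep)
    {q1 δ' : ℝ} (hq1 : V.q1 / 2 ≤ q1) (hδ' : Real.exp (-A) / 2 ≤ δ') :
    IFT μ s N ys δ B b σ m j k (z73 b j e r) r false q1 δ' ≤
      IF1 μ s N ys δ B b σ m j k (z73 b j e r) r false (j - b) j V.M + IF1 μ s N ys δ B b σ m j k (z73 b j e r) r false j (j + b) V.M +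
        ((N : ℝ) ^ (-K) + ep) := by
  have h1 := avy_mono (ys := ys) fun y hy => ft_int73 (μ := μ) (s := s) (δ := δ) G hB V hκ hcn r (hys y hy) hep (hΩ y hy) hq1 hδ'
  unfold IFT IF1
  refine h1.trans (le_of_eq ?_)
  rw [avy_add, avy_add, avy_const hne]

end Frame

end

end Pool.W7d29a1.C0.Bd73
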