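import Pool.Agent.W_7d29a1_C0.GSP86
import Pool.Agent.W_7d29a1_C0.GST73

/-!
C0, helper86: the prices of the bad functional of GS (S4), geometry `Geo73`, the windows of `rb_fix73` (GSU73): `s4_86`.
-/

set_option autoImplicit false

namespace Pool.Agent.W_7d29a1_C0.P86

open MeasureTheory Filter Topology Finset
open Pool.Agent.W_7d29a1_F Pool.Agent.W_7d29a1_X Pool.Agent.W_7d29a1_H
open Pool.Agent.W_7d29a1_HS (In wd md)
open Pool.Agent.W_7d29a1_HZ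
open Pool.W7d29a1.C0.Bd73 (F1 F2 IF1 IF2 qz73 z73 a73 Geo73)

variable {μ : Measure ℝ} {s : ℝ} {N : ℕ}

theorem Geo73.J {N b σ m j k e : ℕ} (G : Geo73 N b σ m j k e) {i i' : ℕ} {r : Bool} (i0 : j - 3 * b ≤ i) (ii : i ≤ i')
    (w : if r then j - b ≤ i ∧ i' ≤ j + 3 * b + e else i' ≤ j + b) : GeoJ N b σ m j e i i' r :=
  ⟨G.hm, G.j1, G.j2, G.jN, i0, ii, w⟩

/-- The windows next to the row. -/
theorem Geo73.J1 {N b σ m j k e : ℕ} (G : Geo73 N b σ m j k e) (r : Bool) :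
    GeoJ N b σ m j e (j - b) j r ∧ GeoJ N b σ m j e j (j + b) r := by
  have g1 := G.j1
  constructor
  · refine Geo73.J G (by omega) (by omega) ?_
    cases r
    · simp only [Bool.false_eq_true, if_false]
      omega
    · simp only [if_true]
      omega
  · refine Geo73.J G (by omega) (by omega) ?_
    cases r
    · simp only [Bool.false_eq_true, if_false]
      omega
    · simp only [if_true]
      omega

/-- The pieces of the slab. -/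
theorem Geo73.J2 {N b σ m j k e : ℕ} (G : Geo73 N b σ m j k e) (r : Bool) {i : ℕ} (h1 : a73 b j r ≤ i)
    (h2 : i + (b / 7 + 1) ≤ a73 b j r + 8 * (b / 7 + 1)) : GeoJ N b σ m j e i (i + (b / 7 + 1)) r := by
  have g1 := G.j1
  have g2 := G.hb
  have g3 := G.hbe
  cases r
  · have e3 : a73 b j false = j - 3 * b := rfl
    rw [e3] at h1 h2
    refine Geo73.J G (by omega) (by omega) ?_
    simp only [Bool.false_eq_true, if_false]
    omega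
  · have e3 : a73 b j true = j + 2 * b := rfl
    rw [e3] at h1 h2
    refine Geo73.J G (by omega) (by omega) ?_
    simp only [if_true]
    omega

section S4

variable [IsProbabilityMeasure μ] {c₀ C₀ : ℝ} {n₀ : ℕ}

/-- **S4**, any row `k` (first part), another block (second part). -/
theorem s4_86 (h : In μ s c₀ C₀ n₀) : ∀ ε θ : ℝ, 0 < ε → 0 < θ → ∃ δ κ c₂ : ℝ, 0 < δ ∧ 0 < κ ∧ 0 < c₂ ∧ ∃ N₀ : ℕ,
    ∀ N : ℕ, N₀ ≤ N → ∀ ys : Finset ℕ, ys.Nonempty → (∀ y ∈ ys, y ≤ N ∧ |(y : ℝ) - sl μ s * N| ≤ (N : ℝ) ^ δ * wd' μ s N) →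
    ∀ M : ℝ, 8 ≤ M → M ≤ (N : ℝ) ^ κ →
    ∀ (dl B : ℝ) (b σ m j k e : ℕ), Geo73 N b σ m j k e → (N : ℝ) ^ θ ≤ ((b / 7 + 1 : ℕ) : ℝ) → ∀ r : Bool,
    ((IF1 μ s N ys dl B b σ m j k (z73 b j e r) r false (j - b) j M ≤
        (N : ℝ) ^ ε / (EE μ s e * EE μ s b) + (Real.exp (-(N : ℝ) ^ c₂) + 6 * Real.exp (-M))) ∧
      (IF1 μ s N ys dl B b σ m j k (z73 b j e r) r false j (j + b) M ≤
        (N : ℝ) ^ ε / (EE μ s e * EE μ s b) + (Real.exp (-(N : ℝ) ^ c₂) + 6 * Real.exp (-M))) ∧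
      ∀ (i : ℕ) (ρ : ℝ), a73 b j r ≤ i → i + (b / 7 + 1) ≤ a73 b j r + 8 * (b / 7 + 1) → Real.exp (-(N : ℝ) ^ κ) ≤ ρ →
        IF2 μ s N ys dl B b σ m j k (z73 b j e r) r false i (i + (b / 7 + 1)) ρ ≤
        (N : ℝ) ^ ε / (EE μ s e * EE μ s (b / 7 + 1)) + (Real.exp (-(N : ℝ) ^ c₂) + 6 * Real.exp (-M))) ∧
    (j / (m * σ) ≠ k / (m * σ) →
      (IF1 μ s N ys dl B b σ m j k (z73 b j e r) r false (j - b) j M ≤
        (N : ℝ) ^ ε / (EE μ s e ^ 2 * EE μ s b) + (Real.exp (-(N : ℝ) ^ c₂) + 6 * Real.exp (-M))) ∧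
      (IF1 μ s N ys dl B b σ m j k (z73 b j e r) r false j (j + b) M ≤
        (N : ℝ) ^ ε / (EE μ s e ^ 2 * EE μ s b) + (Real.exp (-(N : ℝ) ^ c₂) + 6 * Real.exp (-M))) ∧
      ∀ (i : ℕ) (ρ : ℝ), a73 b j r ≤ i → i + (b / 7 + 1) ≤ a73 b j r + 8 * (b / 7 + 1) → Real.exp (-(N : ℝ) ^ κ) ≤ ρ →
        IF2 μ s N ys dl B b σ m j k (z73 b j e r) r false i (i + (b / 7 + 1)) ρ ≤
        (N : ℝ) ^ ε / (EE μ s e ^ 2 * EE μ s (b / 7 + 1)) + (Real.exp (-(N : ℝ) ^ c₂) + 6 * Real.exp (-M))) := by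
  intro ε θ hε hθ
  obtain ⟨δ1, κ1, a1, hδ1, hκ1, ha1, N1, h1⟩ := if1_86 h ε θ hε hθ
  obtain ⟨δ2, κ2, a2, hδ2, hκ2, ha2, N2, h2⟩ := if2_86 h ε θ hε hθ
  refine ⟨min δ1 δ2, min κ1 κ2, min a1 a2, lt_min hδ1 hδ2, lt_min hκ1 hκ2, lt_min ha1 ha2, N1 + N2 + 1, ?_⟩
  intro N hN ys hne hys M hM hML dl B b σ m j k e G hb r
  have hN1 : 1 ≤ N := by omega
  have d1 : ∀ y ∈ ys, y ≤ N ∧ |(y : ℝ) - sl μ s * N| ≤ (N : ℝ) ^ δ1 * wd' μ s N := fun y hy => ⟨(hys y hy).1,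
    (hys y hy).2.trans (mul_le_mul_of_nonneg_right (rp_le86 hN1 (min_le_left _ _)) (zero_le_one.trans (le_max_left (1 : ℝ) (wd μ s N))))⟩
  have d2 : ∀ y ∈ ys, y ≤ N ∧ |(y : ℝ) - sl μ s * N| ≤ (N : ℝ) ^ δ2 * wd' μ s N := fun y hy => ⟨(hys y hy).1,
    (hys y hy).2.trans (mul_le_mul_of_nonneg_right (rp_le86 hN1 (min_le_right _ _)) (zero_le_one.trans (le_max_left (1 : ℝ) (wd μ s N))))⟩
  have k1 := rp_le86 hN1 (min_le_left κ1 κ2)
  have k2 := rp_le86 hN1 (min_le_right κ1 κ2)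
  have e1 := exp_rp86 hN1 (min_le_left a1 a2)
  have e2 := exp_rp86 hN1 (min_le_right a1 a2)
  have g1 := G.j1
  have g2 := G.hb
  have g3 := G.hbe
  have hb' : (N : ℝ) ^ θ ≤ (b : ℝ) := hb.trans (by exact_mod_cast (show b / 7 + 1 ≤ b by omega))
  have he : (N : ℝ) ^ θ ≤ (e : ℝ) := hb'.trans (by exact_mod_cast g3)
  have f1 := h1 N (by omega) ys hne d1 M hM (hML.trans k1) dl B b σ m j k e (j - b) j r (Geo73.J1 G r).1 he
    (by rw [show j - (j - b) = b by omega]; exact hb')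
  have f2 := h1 N (by omega) ys hne d1 M hM (hML.trans k1) dl B b σ m j k e j (j + b) r (Geo73.J1 G r).2 he
    (by rw [Nat.add_sub_cancel_left]; exact hb')
  rw [show j - (j - b) = b by omega] at f1
  rw [Nat.add_sub_cancel_left] at f2
  have f3 : ∀ (i : ℕ) (ρ : ℝ), a73 b j r ≤ i → i + (b / 7 + 1) ≤ a73 b j r + 8 * (b / 7 + 1) → Real.exp (-(N : ℝ) ^ min κ1 κ2) ≤ ρ → _ :=
    fun i ρ h3 h4 h5 => h2 N (by omega) ys hne d2 M hM (hML.trans k2) ρ ((Real.exp_le_exp.2 (neg_le_neg k2)).trans h5) dl B b σ m j k e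
      i (i + (b / 7 + 1)) r (Geo73.J2 G r h3 h4) he (by rw [Nat.add_sub_cancel_left]; exact hb)
  simp only [Nat.add_sub_cancel_left] at f3
  refine ⟨⟨?_, ?_, fun i ρ h3 h4 h5 => ?_⟩, fun hjk => ⟨?_, ?_, fun i ρ h3 h4 h5 => ?_⟩⟩
  · have := f1.1
    linarith
  · have := f2.1
    linarith
  · have := (f3 i ρ h3 h4 h5).1
    linarith
  · have := f1.2 G.k1 G.k2 G.kN hjk
    linarith
  · have := f2.2 G.k1 G.k2 G.kN hjk
    linarith
  · have := (f3 i ρ h3 h4 h5).2 G.k1 G.k2 G.kN hjk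
    linarith

end S4

end Pool.Agent.W_7d29a1_C0.P86
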