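import Pool.Agent.W_7d29a1_C0.NSc61
import Pool.Agent.W_7d29a1_C0.FarE34

/-!
MP_7d29a1_pr, [CURV0] (helper41, for helper73): FLATNESS WITH TWO LEVELS. `v73` = the flatness of the model, but nothing is asked at the
intervals shorter than `N ^ ka`. The quenched mass of the paths which are not flat at `v73` is at most `exp (- N ^ c₁)` off an event of
probability `exp (- N ^ c')`, with `c₁` chosen BEFORE the level `ep` (`nfl_v73`).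
-/

set_option autoImplicit false

namespace Pool.W7d29a1.C0.Bd73

open Finset MeasureTheory Filter Topology Pool.Agent.W_7d29a1_F Pool.Agent.W_7d29a1_X Pool.Agent.W_7d29a1_H
open Pool.Agent.W_7d29a1_HS (In EE_pow)
open Pool.Agent.W_7d29a1_HZ (wd' gp)
open Pool.Agent.W_7d29a1_C0.Mod92
open Pool.Agent.W_7d29a1_C0.Blk18 (gm_Pn)
open Pool.Agent.W_7d29a1_C0.Far34 (Fl nfl nfl_nonneg vv vv_nonneg)
open Pool.Agent.W_7d29a1_C0.NS61 (NSm ms61 ns2_61)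
open Pool.W7d29a1.C0 (gm)

noncomputable section

variable {μ : Measure ℝ} {s : ℝ}

/-- The flatness of the model at the intervals of length at least `N ^ κ`; nothing (`k`) at the short ones. -/
def v73 (μ : Measure ℝ) (s : ℝ) (N : ℕ) (κ ε : ℝ) (k : ℕ) : ℝ := if (k : ℝ) < (N : ℝ) ^ κ then k else vv μ s N ε k

theorem v73_nonneg (N : ℕ) (κ ε : ℝ) (k : ℕ) : 0 ≤ v73 μ s N κ ε k := by
  unfold v73
  split_ifs
  · exact Nat.cast_nonneg k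
  · exact vv_nonneg ε k

theorem v73_of_le {N : ℕ} {κ ε : ℝ} {k : ℕ} (h : (N : ℝ) ^ κ ≤ k) : v73 μ s N κ ε k = vv μ s N ε k := if_neg (not_lt.2 h)

/-- Short intervals are always flat. -/
theorem flat_short73 (h0 : 0 ≤ sl μ s) (h1 : sl μ s ≤ 1) (S : Finset ℕ) (i k : ℕ) :
    |((pos S (i + k) - pos S i : ℤ) : ℝ) - sl μ s * k| ≤ k := by
  have a1 : 0 ≤ pos S (i + k) - pos S i ∧ pos S (i + k) - pos S i ≤ k := by
    have := (Pool.Agent.W_7d29a1_HZ.Z21.pa_pos21 (i + k) S).le i k le_rfl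
    omega
  obtain ⟨a2, a3⟩ := a1
  have b2 : (0 : ℝ) ≤ ((pos S (i + k) - pos S i : ℤ) : ℝ) := by exact_mod_cast a2
  have b3 : ((pos S (i + k) - pos S i : ℤ) : ℝ) ≤ k := by exact_mod_cast a3
  have hk : (0 : ℝ) ≤ k := Nat.cast_nonneg k
  have c1 : sl μ s * k ≤ k := by nlinarith
  have c2 : 0 ≤ sl μ s * k := mul_nonneg h0 hk
  rw [abs_le]
  constructor <;> linarith

theorem flat73 (h0 : 0 ≤ sl μ s) (h1 : sl μ s ≤ 1) {N : ℕ} {κ ε : ℝ} {Q : Finset (Finset ℕ)} {S : Px Q} {m₀ : ℕ}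
    (hm : (m₀ : ℝ) < (N : ℝ) ^ κ + 1) (h : NSm μ s N N ε m₀ S.1) : Fl N (sl μ s) (v73 μ s N κ ε) S := by
  intro i k hk hik
  unfold v73
  split_ifs with hc
  · exact flat_short73 h0 h1 S.1 i k
  · refine h i k ?_ hk hik
    push Not at hc
    have : (m₀ : ℝ) < (k : ℝ) + 1 := by linarith
    have h2 : m₀ < k + 1 := by exact_mod_cast this
    omega

theorem nfl_ms61 (h0 : 0 ≤ sl μ s) (h1 : sl μ s ≤ 1) {N y m₀ : ℕ} {κ ε : ℝ} (hm : (m₀ : ℝ) < (N : ℝ) ^ κ + 1) (hy : y ≤ N)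
    (η : Env) : gm (lw μ s η N (Pn N y)) (nfl N (sl μ s) (v73 μ s N κ ε)) ≤ ms61 μ s N N ε m₀ y η := by
  classical
  have hne : Nonempty (Px (Pn N y)) := ne_Pn hy
  have e : gm (lw μ s η N (Pn N y)) (nfl N (sl μ s) (v73 μ s N κ ε)) ≤
      gm (lw μ s η N (Pn N y)) (fun S => (fun T => if NSm μ s N N ε m₀ T then (0 : ℝ) else 1) S.1) := by
    refine Pool.W7d29a1.C0.gm_mono _ fun S => ?_
    show nfl N (sl μ s) (v73 μ s N κ ε) S ≤ if NSm μ s N N ε m₀ S.1 then (0 : ℝ) else 1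
    unfold nfl
    by_cases hS : NSm μ s N N ε m₀ S.1
    · rw [if_pos hS, if_pos (flat73 h0 h1 hm hS)]
    · rw [if_neg hS]
      split_ifs <;> norm_num
  refine e.trans (le_of_eq ?_)
  rw [gm_Pn (μ := μ) (s := s) η N y (fun T => if NSm μ s N N ε m₀ T then (0 : ℝ) else 1)]
  unfold ms61
  refine sum_congr rfl fun S _ => ?_
  split_ifs
  · rw [mul_zero]
  · rw [mul_one]

/-- **NOT FLAT WITH TWO LEVELS.** -/
theorem nfl_v73 [IsProbabilityMeasure μ] {c₀ C₀ : ℝ} {n₀ : ℕ} (h : In μ s c₀ C₀ n₀) {κ : ℝ} (hκ : 0 < κ) :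
    ∃ c₁ : ℝ, 0 < c₁ ∧ ∀ ep : ℝ, 0 < ep → ∃ dl c' : ℝ, 0 < dl ∧ 0 < c' ∧ ∃ N₀ : ℕ, ∀ N : ℕ, N₀ ≤ N → ∀ y : ℕ, y ≤ N →
    |(y : ℝ) - sl μ s * N| ≤ (N : ℝ) ^ dl * wd' μ s N →
    law μ {η | Real.exp (-(N : ℝ) ^ c₁) < gm (lw μ s η N (Pn N y)) (nfl N (sl μ s) (v73 μ s N κ ep))} ≤
      ENNReal.ofReal (Real.exp (-(N : ℝ) ^ c')) := by
  obtain ⟨b, K, hb, hK, hE⟩ := EE_pow h
  refine ⟨κ * b / 2, by positivity, fun ep hep => ?_⟩
  obtain ⟨dl, c', hdl, hc', L₀, hL⟩ := ns2_61 h ep hep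
  have ev1 := Pool.Agent.W_7d29a1_HZ.Z22.absorb 16 4 (b := K) (g := κ * b) hK (by positivity)
  obtain ⟨N₁, hN₁⟩ := eventually_atTop.1 ev1
  refine ⟨dl, c', hdl, hc', max (max L₀ N₁) 1, fun N hN y hy hyc => ?_⟩
  have k1 : L₀ ≤ N := (le_max_left _ _).trans ((le_max_left _ _).trans hN)
  have k2 : N₁ ≤ N := (le_max_right _ _).trans ((le_max_left _ _).trans hN)
  have k3 : 1 ≤ N := (le_max_right _ _).trans hN
  have hNR : (1 : ℝ) ≤ N := by exact_mod_cast k3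
  have key := hL N k1 N (by omega) le_rfl y (by positivity) (by exact_mod_cast hy) (by exact_mod_cast hyc)
  refine (measure_mono fun η hη => ?_).trans key
  rw [Set.mem_ofPred_eq] at hη ⊢
  obtain ⟨m₀, hm₀⟩ : ∃ m₀ : ℕ, m₀ = ⌈(N : ℝ) ^ κ⌉₊ := ⟨_, rfl⟩
  have hp0 : (0 : ℝ) < (N : ℝ) ^ κ := Real.rpow_pos_of_pos (by linarith) _
  have m1 : (N : ℝ) ^ κ ≤ m₀ := hm₀ ▸ Nat.le_ceil _
  have m2 : (m₀ : ℝ) < (N : ℝ) ^ κ + 1 := hm₀ ▸ Nat.ceil_lt_add_one hp0.le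
  have m3 : 1 ≤ m₀ := by
    have : (0 : ℝ) < m₀ := hp0.trans_le m1
    exact_mod_cast this
  refine ⟨m₀, lt_of_le_of_lt ?_ (hη.trans_le (nfl_ms61 h.sl_pos.le h.sl_lt.le m2 hy η))⟩
  have q1 := hE m₀ m3
  have q2 : K * (N : ℝ) ^ (κ * b) ≤ EE μ s m₀ := by
    refine le_trans (mul_le_mul_of_nonneg_left ?_ hK.le) q1
    rw [Real.rpow_mul (by linarith)]
    exact Real.rpow_le_rpow hp0.le m1 hb.le
  have q3 : (1 : ℝ) ≤ (N : ℝ) ^ (ep / 3) := Real.one_le_rpow hNR (by positivity)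
  have q4 : K * (N : ℝ) ^ (κ * b) ≤ (N : ℝ) ^ (ep / 3) * EE μ s m₀ := by
    have q5 : 0 ≤ EE μ s m₀ := le_trans (by positivity) q2
    nlinarith
  have q6 := hN₁ N k2
  refine le_trans ?_ q6
  refine mul_le_mul ?_ (Real.exp_le_exp.2 (neg_le_neg q4)) (Real.exp_nonneg _) (by positivity)
  have e4 : (N : ℝ) ^ (4 : ℝ) = (N : ℝ) ^ 4 := by
    rw [show (4 : ℝ) = ((4 : ℕ) : ℝ) by norm_num, Real.rpow_natCast]
  rw [e4]
  calc ((N : ℝ) + 1) ^ 4 ≤ (2 * (N : ℝ)) ^ 4 := pow_le_pow_left₀ (by linarith) (by linarith) 4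
    _ = 16 * (N : ℝ) ^ 4 := by ring

end

end Pool.W7d29a1.C0.Bd73
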