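import Pool.Agent.W_7d29a1_C0.GST73
import Pool.Agent.W_7d29a1_C0.NFL73
import Pool.Agent.W_7d29a1_C0.GSH52
import Pool.Agent.W_7d29a1_C0.Num46P

/-!
CURV0 (MP_7d29a1_pr), GS one kick: THE FRAME FACTS for the bad functional: the length `e` (`len73`), the geometry (`geo73`), the flatness data
(`flt73`, `hcn73`), the comparison of the units (`uni73`). (helper73)
-/

set_option autoImplicit false
set_option linter.unusedSectionVars false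
set_option linter.unusedVariables false

namespace Pool.W7d29a1.C0.Bd73

open Finset MeasureTheory Filter Topology Pool.Agent.W_7d29a1_F Pool.Agent.W_7d29a1_X
open Pool.Agent.W_7d29a1_H (sl EE EE_pos EE_mono one_le_EE)
open Pool.Agent.W_7d29a1_HS (In)
open Pool.Agent.W_7d29a1_HZ (wd' EE' wd'_pow EE'_pow wd'_eq)
open Pool.Agent.W_7d29a1_C0 Pool.Agent.W_7d29a1_C0.Mod92 Pool.Agent.W_7d29a1_C0.Frm33
open Pool.Agent.W_7d29a1_C0.Par92 (Sml Est)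
open Pool.Agent.W_7d29a1_C0.Far34 (vv vv_nonneg)
open Pool.W7d29a1.C0.GSH52 (Rd52 A52)
open Pool.W7d29a1.C0.GSC52 (RwF)

noncomputable section

variable {μ : Measure ℝ} {s : ℝ} [IsProbabilityMeasure μ] {c₀ C₀ : ℝ} {n₀ : ℕ}

/-- **The length `e`.** -/
theorem len73 (h : In μ s c₀ C₀ n₀) (hk : KapLe96 (EE μ s) (1 / 4)) {δ c ι : ℝ} (hδ : 0 < δ) (hc : 0 ≤ c) (hcδ : c ≤ δ / 64)
    (hι0 : 0 ≤ ι) (hι : ι ≤ δ / 16) : ∀ᶠ m : ℕ in atTop, ∀ p : ℕ, δ * m ≤ p → sg96 (EE μ s) c m p ≤ m → ∃ e : ℕ, 10 ≤ 2 ^ p ∧ 2 ^ p ≤ e ∧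
      e ≤ 2 ^ sg96 (EE μ s) c m p ∧ Deep (R33 ι m) (3 * 2 ^ p + 2 * e) (2 ^ sg96 (EE μ s) c m p) ∧
        ((2 ^ sg96 (EE μ s) c m p : ℕ) : ℝ) ≤ 16 * ((2 ^ m : ℕ) : ℝ) ^ ι * e := by
  filter_upwards [reg33 h hk hδ hc hcδ, ev_n (show 0 < δ / 16 by positivity) 64, ev_n hδ 10] with m h1 h2 h10 p hp hm
  obtain ⟨hps, -, h3⟩ := h1 p hp
  obtain ⟨q, hq⟩ : ∃ q, q = sg96 (EE μ s) c m p := ⟨_, rfl⟩
  rw [← hq] at hps hm h3 ⊢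
  have hn1 := n_ge1 m
  have hn0 : (0 : ℝ) < ((2 ^ m : ℕ) : ℝ) := by linarith
  have hp1 := n_ge1 p
  obtain ⟨T, hT⟩ : ∃ T : ℝ, T = ((2 ^ m : ℕ) : ℝ) ^ (-ι) * ((2 ^ q : ℕ) : ℝ) := ⟨_, rfl⟩
  have e1 : ((2 ^ m : ℕ) : ℝ) ^ (δ / 16) * ((2 ^ p : ℕ) : ℝ) ≤ T := by
    have e2 : ((2 ^ m : ℕ) : ℝ) ^ (-(δ / 16)) ≤ ((2 ^ m : ℕ) : ℝ) ^ (-ι) := Real.rpow_le_rpow_of_exponent_le hn1 (by linarith)
    rw [hT]
    calc ((2 ^ m : ℕ) : ℝ) ^ (δ / 16) * ((2 ^ p : ℕ) : ℝ)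
        = ((2 ^ m : ℕ) : ℝ) ^ (-(δ / 16)) * (((2 ^ m : ℕ) : ℝ) ^ (δ / 8) * ((2 ^ p : ℕ) : ℝ)) := by
          rw [← mul_assoc, ← Real.rpow_add hn0]
          congr 2
          ring
      _ ≤ ((2 ^ m : ℕ) : ℝ) ^ (-ι) * ((2 ^ q : ℕ) : ℝ) := mul_le_mul e2 h3 (by positivity) (Real.rpow_nonneg hn0.le _)
  have e3 : 64 * ((2 ^ p : ℕ) : ℝ) ≤ T := (mul_le_mul_of_nonneg_right h2 (by linarith)).trans e1
  have hT0 : 64 ≤ T := by linarith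
  have f1 : ((⌊T / 8⌋₊ : ℕ) : ℝ) ≤ T / 8 := Nat.floor_le (by linarith)
  have f2 : T / 8 < (⌊T / 8⌋₊ : ℕ) + 1 := Nat.lt_floor_add_one _
  have hσT : ((2 ^ q : ℕ) : ℝ) = ((2 ^ m : ℕ) : ℝ) ^ ι * T := by
    rw [hT, ← mul_assoc, ← Real.rpow_add hn0, add_neg_cancel, Real.rpow_zero, one_mul]
  refine ⟨⌊T / 8⌋₊, ?_, ?_, ?_, ?_, ?_⟩
  · have h4 := two_ge hp
    have : (10 : ℝ) ≤ ((2 ^ p : ℕ) : ℝ) := h10.trans h4
    exact_mod_cast this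
  · have : ((2 ^ p : ℕ) : ℝ) ≤ (⌊T / 8⌋₊ : ℕ) := by linarith
    exact_mod_cast this
  · have h5 : ((2 ^ m : ℕ) : ℝ) ^ (-ι) ≤ 1 := Real.rpow_le_one_of_one_le_of_nonpos hn1 (by linarith)
    have : ((⌊T / 8⌋₊ : ℕ) : ℝ) ≤ ((2 ^ q : ℕ) : ℝ) := by
      have h7 : T ≤ ((2 ^ q : ℕ) : ℝ) := by
        rw [hT]
        exact mul_le_of_le_one_left (Nat.cast_nonneg _) h5
      linarith
    exact_mod_cast this
  · refine deep_Kr hm ?_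
    show ((3 * 2 ^ p + 2 * ⌊T / 8⌋₊ : ℕ) : ℝ) + 1 ≤ ((2 ^ m : ℕ) : ℝ) ^ (-ι) * 2 ^ q
    have h7 : ((2 ^ m : ℕ) : ℝ) ^ (-ι) * 2 ^ q = T := by
      rw [hT]
      push_cast
      ring
    rw [h7]
    push_cast
    push_cast at e3 f1
    linarith
  · rw [hσT]
    have h8 : T ≤ 16 * (⌊T / 8⌋₊ : ℕ) := by linarith
    have h9 : 0 ≤ ((2 ^ m : ℕ) : ℝ) ^ ι := Real.rpow_nonneg hn0.le _
    calc ((2 ^ m : ℕ) : ℝ) ^ ι * T ≤ ((2 ^ m : ℕ) : ℝ) ^ ι * (16 * (⌊T / 8⌋₊ : ℕ)) := mul_le_mul_of_nonneg_left h8 h9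
      _ = 16 * ((2 ^ m : ℕ) : ℝ) ^ ι * (⌊T / 8⌋₊ : ℕ) := by ring

/-- **The geometry of a pair of kicked rows.** -/
theorem geo73 {K m p e : ℕ} {ι β γ : ℝ} {q i sp sp' : ℕ} (hK : 1 ≤ K) (hp10 : 10 ≤ 2 ^ p) (hpe : 2 ^ p ≤ e)
    (hdeep : Deep (R33 ι m) (3 * 2 ^ p + 2 * e) (2 ^ sp)) (hsp : sp ≤ sp') (hsm : sp' ≤ m) {j k : ℕ}
    (hj : j ∈ RwF (frm33 μ s K ι β γ) m q i) (hk : k ∈ RwF (frm33 μ s K ι β γ) m q i) :
    Geo73 (L33 K m) (2 ^ p) (2 ^ sp) (2 ^ (sp' - sp)) j k e := by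
  have hprod : 2 ^ (sp' - sp) * 2 ^ sp = 2 ^ sp' := by
    rw [← pow_add]
    congr 1
    omega
  have hR : ∀ {x : ℕ}, x ∈ RwF (frm33 μ s K ι β γ) m q i → x ∈ R33 ι m := fun {x} hx => (mem_inter.1 hx).1
  have hblk : ∀ {x : ℕ}, x ∈ R33 ι m → x / 2 ^ sp' * 2 ^ sp' + 2 ^ sp' ≤ L33 K m := fun {x} hx => by
    have h1 := mem_range.1 (R33_sub ι m hx)
    have h2 : x / 2 ^ sp' < 2 ^ (m - sp') := by
      rw [Nat.div_lt_iff_lt_mul (by positivity), ← pow_add]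
      rwa [show m - sp' + sp' = m by omega]
    calc x / 2 ^ sp' * 2 ^ sp' + 2 ^ sp' = (x / 2 ^ sp' + 1) * 2 ^ sp' := by ring
      _ ≤ 2 ^ (m - sp') * 2 ^ sp' := Nat.mul_le_mul_right _ h2
      _ = 2 ^ m := by
          rw [← pow_add]
          congr 1
          omega
      _ ≤ L33 K m := L33_ge hK m
  have e1 : ∀ x : ℕ, (x / 2 ^ sp + 1) * 2 ^ sp = x / 2 ^ sp * 2 ^ sp + 2 ^ sp := fun x => by ring
  obtain ⟨a1, a2⟩ := hdeep j (hR hj)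
  obtain ⟨b1, b2⟩ := hdeep k (hR hk)
  rw [e1] at a2 b2
  refine ⟨hp10, hpe, by positivity, by positivity, a1, a2, b1, b2, ?_, ?_⟩
  · rw [hprod]
    exact hblk (hR hj)
  · rw [hprod]
    exact hblk (hR hk)

theorem L33_kap {K m : ℕ} (hK : 0 < K) (x : ℝ) : ((L33 K m : ℕ) : ℝ) ^ (x / K) = ((2 ^ m : ℕ) : ℝ) ^ x := by
  rw [L33_pow]
  congr 1
  have : (K : ℝ) ≠ 0 := by positivity
  field_simp

/-- **The flatness data.** -/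
theorem flt73 (h : In μ s c₀ C₀ n₀) {K : ℕ} (hK : 32 ≤ K) {δ ι : ℝ} (hδ : 0 < δ) (hι : 0 < ι) {ε₂ : ℝ} (hε₂ : 0 < ε₂)
    (hε₂' : ε₂ ≤ ι / (2 * K)) : ∀ᶠ m : ℕ in atTop, ∀ p : ℕ, δ * m ≤ p → 10 ≤ 2 ^ p →
      ((L33 K m : ℕ) : ℝ) ^ (δ / 4 / K) ≤ ((2 ^ p : ℕ) : ℝ) ∧
        Flt73 (2 ^ p) (Rd52 μ s K ι m p) (v73 μ s (L33 K m) (δ / 4 / K) ε₂) := by
  obtain ⟨a, Kw, -, -, hKw, hw⟩ := wd'_pow h
  obtain ⟨n₁, hwe⟩ := wd'_eq h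
  have hK0 : (0 : ℝ) < K := by
    have : (32 : ℝ) ≤ K := by exact_mod_cast hK
    linarith
  filter_upwards [ev_two (eventually_ge_atTop n₁) hδ, ev_n (show 0 < ι / 2 by positivity) Kw] with m h1 h2 p hp hp10
  have hn1 := n_ge1 m
  have hn0 : (0 : ℝ) < ((2 ^ m : ℕ) : ℝ) := by linarith
  have hp1 := n_ge1 p
  have hL1 : (1 : ℝ) ≤ ((L33 K m : ℕ) : ℝ) := by
    have : 1 ≤ L33 K m := Nat.one_le_two_pow
    exact_mod_cast this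
  have h3 := two_ge hp
  have hκn : ((L33 K m : ℕ) : ℝ) ^ (δ / 4 / K) = ((2 ^ m : ℕ) : ℝ) ^ (δ / 4) := L33_kap (by omega) _
  have h4 : ((2 ^ m : ℕ) : ℝ) ^ (δ / 4) ≤ ((2 ^ p : ℕ) : ℝ) ^ (1 / 4 : ℝ) := by
    rw [show δ / 4 = δ * (1 / 4) by ring, Real.rpow_mul hn0.le]
    exact Real.rpow_le_rpow (Real.rpow_nonneg hn0.le _) h3 (by norm_num)
  have hwb : ((2 ^ p : ℕ) : ℝ) ^ (1 / 4 : ℝ) ≤ wd' μ s (2 ^ p) := by
    rw [(hwe _ (h1 p hp)).1]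
    exact (hwe _ (h1 p hp)).2.2
  have hw1 : ∀ n, 1 ≤ wd' μ s n := fun n => le_max_left _ _
  have hvv : ∀ ε n, vv μ s (L33 K m) ε n = ((L33 K m : ℕ) : ℝ) ^ ε * wd' μ s n := fun _ _ => rfl
  have hN1 : 1 ≤ ((L33 K m : ℕ) : ℝ) ^ (ι / K) := Real.one_le_rpow hL1 (by positivity)
  have hV : wd' μ s (2 ^ p) ≤ vv μ s (L33 K m) (ι / K) (2 ^ p) := by
    rw [hvv]
    exact le_mul_of_one_le_left (by linarith [hw1 (2 ^ p)]) hN1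
  have hV1 : 1 ≤ vv μ s (L33 K m) (ι / K) (2 ^ p) := (hw1 _).trans hV
  -- all the widths up to `b`
  have key : ∀ k : ℕ, k ≤ 2 ^ p → v73 μ s (L33 K m) (δ / 4 / K) ε₂ k ≤ vv μ s (L33 K m) (ι / K) (2 ^ p) := by
    intro k hk
    unfold v73
    split_ifs with hc
    · rw [hκn] at hc
      linarith
    · have hk1 : 1 ≤ k := by
        by_contra h0
        have h5 : k = 0 := by omega
        rw [h5, Nat.cast_zero] at hc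
        exact hc (Real.rpow_pos_of_pos (by linarith) _)
      have h6 := (hw k (2 ^ p) hk1 hk).1
      rw [hvv, hvv]
      have h7 : ((L33 K m : ℕ) : ℝ) ^ ε₂ * Kw ≤ ((L33 K m : ℕ) : ℝ) ^ (ι / K) := by
        have h8 : ((L33 K m : ℕ) : ℝ) ^ ε₂ ≤ ((L33 K m : ℕ) : ℝ) ^ (ι / 2 / K) :=
          Real.rpow_le_rpow_of_exponent_le hL1 (hε₂'.trans (le_of_eq (by field_simp)))
        rw [L33_kap (by omega) (ι / 2)] at h8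
        rw [L33_kap (by omega) ι]
        calc ((L33 K m : ℕ) : ℝ) ^ ε₂ * Kw ≤ ((2 ^ m : ℕ) : ℝ) ^ (ι / 2) * ((2 ^ m : ℕ) : ℝ) ^ (ι / 2) :=
              mul_le_mul h8 h2 (by linarith) (Real.rpow_nonneg hn0.le _)
          _ = ((2 ^ m : ℕ) : ℝ) ^ ι := by
              rw [← Real.rpow_add hn0]
              congr 1
              ring
      calc ((L33 K m : ℕ) : ℝ) ^ ε₂ * wd' μ s k ≤ ((L33 K m : ℕ) : ℝ) ^ ε₂ * (Kw * wd' μ s (2 ^ p)) :=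
            mul_le_mul_of_nonneg_left h6 (Real.rpow_nonneg (by linarith) _)
        _ = ((L33 K m : ℕ) : ℝ) ^ ε₂ * Kw * wd' μ s (2 ^ p) := by ring
        _ ≤ _ := mul_le_mul_of_nonneg_right h7 (by linarith [hw1 (2 ^ p)])
  refine ⟨?_, ?_, v73_nonneg _ _ _ _, fun k _ hk => ?_, fun k hk => ?_⟩
  · rw [hκn]
    have h9 : ((2 ^ p : ℕ) : ℝ) ^ (1 / 4 : ℝ) ≤ ((2 ^ p : ℕ) : ℝ) := by
      calc ((2 ^ p : ℕ) : ℝ) ^ (1 / 4 : ℝ) ≤ ((2 ^ p : ℕ) : ℝ) ^ (1 : ℝ) := Real.rpow_le_rpow_of_exponent_le hp1 (by norm_num)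
        _ = _ := Real.rpow_one _
    linarith
  · unfold Rd52
    linarith
  · unfold Rd52
    have := key k hk
    linarith
  · unfold Rd52
    have := key k (by omega)
    linarith

/-- **The cone of the window.** -/
theorem hcn73 {K : ℕ} (hK : 32 ≤ K) {δ δ₁ : ℝ} (hδ : 0 < δ) (hδ₁ : 0 < δ₁) {ε₂ : ℝ} (hε₂' : ε₂ ≤ δ * δ₁ / K) {m p : ℕ} (hp : δ * m ≤ p)
    (hκ : ((L33 K m : ℕ) : ℝ) ^ (δ / 4 / K) ≤ ((2 ^ p : ℕ) : ℝ)) :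
    v73 μ s (L33 K m) (δ / 4 / K) ε₂ (2 * 2 ^ p) ≤ ((2 * 2 ^ p : ℕ) : ℝ) ^ δ₁ * wd' μ s (2 * 2 ^ p) := by
  have hn1 := n_ge1 m
  have hn0 : (0 : ℝ) < ((2 ^ m : ℕ) : ℝ) := by linarith
  have hp1 := n_ge1 p
  have hL1 : (1 : ℝ) ≤ ((L33 K m : ℕ) : ℝ) := by
    have : 1 ≤ L33 K m := Nat.one_le_two_pow
    exact_mod_cast this
  have h2 : ((2 ^ p : ℕ) : ℝ) ≤ ((2 * 2 ^ p : ℕ) : ℝ) := by
    push_cast
    push_cast at hp1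
    linarith
  rw [v73_of_le (hκ.trans h2)]
  show ((L33 K m : ℕ) : ℝ) ^ ε₂ * wd' μ s (2 * 2 ^ p) ≤ _
  refine mul_le_mul_of_nonneg_right ?_ (zero_le_one.trans (le_max_left _ _))
  calc ((L33 K m : ℕ) : ℝ) ^ ε₂ ≤ ((L33 K m : ℕ) : ℝ) ^ (δ * δ₁ / K) := Real.rpow_le_rpow_of_exponent_le hL1 hε₂'
    _ = ((2 ^ m : ℕ) : ℝ) ^ (δ * δ₁) := L33_kap (by omega) _
    _ = (((2 ^ m : ℕ) : ℝ) ^ δ) ^ δ₁ := Real.rpow_mul hn0.le _ _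
    _ ≤ ((2 * 2 ^ p : ℕ) : ℝ) ^ δ₁ := Real.rpow_le_rpow (Real.rpow_nonneg hn0.le _) ((two_ge hp).trans h2) hδ₁.le

/-- **The comparison of the units.** -/
theorem uni73 (h : In μ s c₀ C₀ n₀) : ∃ kc : ℝ, 1 ≤ kc ∧ ∀ (n b e σ : ℕ) (X : ℝ), 1 ≤ X → 1 ≤ b → b ≤ e → e ≤ σ → σ ≤ n → (σ : ℝ) ≤ 16 * X * e →
    EE μ s b ≤ kc * EE μ s (b / 7 + 1) ∧ EE μ s σ ≤ kc * X * EE μ s e ∧ EE μ s b ≤ EE μ s σ ∧
      EE μ s σ ^ 2 * EE μ s b ≤ kc * (n : ℝ) ^ 3 := by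
  obtain ⟨a, KE, -, -, hKE, hE⟩ := EE'_pow h
  have ee : ∀ n, EE' μ s n = EE μ s n := fun n => EE'_eq46 s n
  simp only [ee] at hE
  obtain ⟨E1, hE1⟩ : ∃ E1, E1 = EE μ s 1 := ⟨_, rfl⟩
  have hE1' : 1 ≤ E1 := by
    rw [hE1]
    exact one_le_EE 1
  refine ⟨16 * KE + (KE * E1) ^ 3, by nlinarith [pow_nonneg (mul_nonneg (zero_le_one.trans hKE) (zero_le_one.trans hE1')) 3],
    fun n b e σ X hX hb hbe heσ hσn hσ => ?_⟩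
  have hKE0 : 0 < KE := by linarith
  have hcb : 0 ≤ (KE * E1) ^ 3 := by positivity
  have pos : ∀ n, 0 < EE μ s n := fun n => EE_pos n
  have hb0 : (0 : ℝ) < b := by exact_mod_cast hb
  have he0 : (0 : ℝ) < e := by exact_mod_cast (by omega : 0 < e)
  refine ⟨?_, ?_, EE_mono (hbe.trans heσ), ?_⟩
  · rcases Nat.lt_or_ge b (b / 7 + 1) with h1 | h1
    · have h2 : EE μ s b ≤ EE μ s (b / 7 + 1) := EE_mono h1.le
      nlinarith [pos (b / 7 + 1)]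
    · have h2 := (hE (b / 7 + 1) b (by omega) h1).2.2
      have h3 : Real.sqrt ((b : ℝ) / ((b / 7 + 1 : ℕ) : ℝ)) ≤ 16 := by
        rw [Real.sqrt_le_left (by norm_num), div_le_iff₀ (by positivity)]
        have h4 : b ≤ 7 * (b / 7 + 1) := by omega
        have h5 : (b : ℝ) ≤ 7 * ((b / 7 + 1 : ℕ) : ℝ) := by exact_mod_cast h4
        linarith
      refine h2.trans (mul_le_mul_of_nonneg_right ?_ (pos _).le)
      nlinarith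
  · have h2 := (hE e σ (by omega) heσ).2.2
    have h3 : Real.sqrt ((σ : ℝ) / e) ≤ 16 * X := by
      have h4 : (σ : ℝ) / e ≤ 16 * X := by
        rw [div_le_iff₀ he0]
        exact hσ
      refine (Real.sqrt_le_left (by positivity)).2 (h4.trans ?_)
      nlinarith
    refine h2.trans (mul_le_mul_of_nonneg_right ?_ (pos _).le)
    have h5 : KE * Real.sqrt ((σ : ℝ) / e) ≤ KE * (16 * X) := mul_le_mul_of_nonneg_left h3 hKE0.le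
    nlinarith
  · have hn1 : (1 : ℝ) ≤ n := by exact_mod_cast (by omega : 1 ≤ n)
    have up : ∀ x : ℕ, 1 ≤ x → x ≤ n → EE μ s x ≤ KE * E1 * n := fun x h1 h2 => by
      have h3 := (hE 1 x le_rfl h1).2.2
      have h4 : Real.sqrt ((x : ℝ) / ((1 : ℕ) : ℝ)) ≤ n := by
        rw [Nat.cast_one, div_one]
        have h5 : (x : ℝ) ≤ n := by exact_mod_cast h2
        refine (Real.sqrt_le_left (by positivity)).2 (h5.trans ?_)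
        nlinarith
      rw [← hE1] at h3
      calc EE μ s x ≤ KE * Real.sqrt ((x : ℝ) / ((1 : ℕ) : ℝ)) * E1 := h3
        _ ≤ KE * n * E1 := by gcongr
        _ = KE * E1 * n := by ring
    have h6 := up σ (by omega) hσn
    have h7 := up b hb (by omega)
    have h8 : 0 ≤ KE * E1 * n := by positivity
    calc EE μ s σ ^ 2 * EE μ s b ≤ (KE * E1 * n) ^ 2 * (KE * E1 * n) :=
          mul_le_mul (pow_le_pow_left₀ (pos _).le h6 2) h7 (pos _).le (by positivity)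
      _ = (KE * E1) ^ 3 * (n : ℝ) ^ 3 := by ring
      _ ≤ _ := mul_le_mul_of_nonneg_right (by linarith) (by positivity)

end

end Pool.W7d29a1.C0.Bd73
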