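import Pool.Agent.W_7d29a1_C0.FlipX61
import Pool.Agent.W_7d29a1_C0.GSS73

/-!
CURV0 (MP_7d29a1_pr), GS one kick (helper61): THE LAW FORMS IN THE NAMES OF `GSS73`: the averaged means `IFT`, `IF2`, `IF3` at the flipped
weight are bounded by the same at the actual weight, with half the levels.
-/

set_option autoImplicit false
set_option linter.unusedSectionVars false
set_option linter.unusedVariables false

namespace Pool.Agent.W_7d29a1_C0.GSX61

open Finset MeasureTheory Pool.Agent.W_7d29a1_F Pool.Agent.W_7d29a1_X Pool.W7d29a1.C0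
open Pool.W7d29a1.C0.VT31
open Pool.Agent.W_7d29a1_C0 Pool.Agent.W_7d29a1_C0.Swap57 Pool.Agent.W_7d29a1_C0.Mod92 Pool.Agent.W_7d29a1_C0.Near32
open Pool.Agent.W_7d29a1_C0.One32
open Pool.Agent.W_7d29a1_C0.Flip61
open Pool.W7d29a1.C0.GSE52 (Wf)
open Pool.W7d29a1.C0.Bd73

noncomputable section

variable {μ : Measure ℝ} {s : ℝ} {N b σ m j k z : ℕ}

/-- The class kernels are covariant. -/
theorem cov_Cl (r : Bool) : CovM N b j (fun _ _ ρ => Cl b σ j r (ρ 0) (ρ 1)) 1 := by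
  unfold Cl
  cases r
  · exact cov_KL le_rfl le_rfl 0 1
  · exact cov_KR le_rfl 0 1

/-- The kernel of the row `k`, spectator of the row `j`, is covariant. -/
theorem cov_NA : CovM N b j (fun _ _ ρ => NA b σ j k (ρ 0) (ρ 1)) 1 := cov_NMP (fun _ h => h) _ _ _ _ 0 1

/-- The geometry of the rows `j`, `k`. -/
structure Geo61 (N b σ m j k : ℕ) : Prop where
  hb : 0 < b
  hm : 0 < m
  hj1 : j / σ * σ + b ≤ j
  hj2 : j + b ≤ j / σ * σ + σ
  hjN : j / (m * σ) * (m * σ) + m * σ ≤ N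
  hkN : k / (m * σ) * (m * σ) + m * σ ≤ N

namespace Geo61

variable (g : Geo61 N b σ m j k)
include g

theorem le1 : j / (m * σ) * (m * σ) ≤ j - b := by
  have h := grid_in (σ := σ) g.hm j
  have h1 := g.hj1
  omega

theorem le2 : j + b ≤ j / (m * σ) * (m * σ) + m * σ := by
  have h := grid_in (σ := σ) g.hm j
  have h1 := g.hj2
  have e1 : (j / σ + 1) * σ = j / σ * σ + σ := by ring
  have e2 : (j / (m * σ) + 1) * (m * σ) = j / (m * σ) * (m * σ) + m * σ := by ring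
  omega

theorem hjN' : j + b ≤ N := g.le2.trans g.hjN

theorem hbj : b ≤ j := by
  have h1 := g.hj1
  omega

theorem blk : (k / (m * σ) * (m * σ) ≤ j - b ∧ j + b ≤ k / (m * σ) * (m * σ) + m * σ) ∨
    k / (m * σ) * (m * σ) + m * σ ≤ j - b ∨ j + b ≤ k / (m * σ) * (m * σ) := by
  by_cases h : k / (m * σ) = j / (m * σ)
  · rw [h]
    exact Or.inl ⟨g.le1, g.le2⟩
  · right
    have h1 := g.le1
    have h2 := g.le2
    rcases blk_ne h with h3 | h3
    · left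
      omega
    · right
      omega

end Geo61

section Law

variable [IsProbabilityMeasure μ] {δ B : ℝ} {y₀ M : ℕ} {θ ε : ℝ} (g : Geo61 N b σ m j k) {r : Bool}
  (hz : (r = true → j + b ≤ z) ∧ (r = false → z ≤ j - b)) (hy : 1 ≤ y₀) (hM : 1 ≤ M) (hyN : y₀ + M ≤ N)
  (hE : FErr2 μ s N δ B b j y₀ M θ ε)

include g in
/-- The factor. -/
theorem hG61 : Rep μ s N δ B b j 1 (fun y _ w ρ => cE w (pJ (j / (m * σ) * (m * σ)) (j / (m * σ) * (m * σ) + m * σ))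
      (Cl b σ j r (ρ 0)) (ρ 0) * cE2 w (pJ (k / (m * σ) * (m * σ)) (k / (m * σ) * (m * σ) + m * σ)) (NA b σ j k) (ρ 0) (ρ 0)) 1 6 :=
  rep_G (cls := fun _ => Cl b σ j r) (NMA := fun _ => NA b σ j k) (cov_Cl r) cov_NA g.le1 g.le2 (Nat.le_add_right _ _) g.hkN g.blk

theorem NA0_61 {Q : Finset (Finset ℕ)} (S S' : Px Q) : 0 ≤ NA b σ j k S S' := by
  unfold NA Pool.Agent.W_7d29a1_C0.GS65.NMP
  split_ifs <;> norm_num

theorem G0_61 (y : ℕ) (ω : Env × Finset ℕ) (w : Px (Pn N y) → ℝ) (x : Px (Pn N y)) :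
    0 ≤ cE w (pJ (j / (m * σ) * (m * σ)) (j / (m * σ) * (m * σ) + m * σ))
      (Cl b σ j r x) x * cE2 w (pJ (k / (m * σ) * (m * σ)) (k / (m * σ) * (m * σ) + m * σ)) (NA b σ j k) x x := by
  have n1 : Nonempty (Px (Pn N y)) := ⟨x⟩
  exact mul_nonneg (cE_nonneg _ _ (fun y => Cl_nonneg b σ j r x y) _) (cE2_nonneg _ _ NA0_61 _ _)

include g hz hy hM hyN hE in
/-- **(L2).** -/
theorem if2_61 {i i' : ℕ} (hii : i' ≤ j - b ∨ j + b ≤ i) {ρ : ℝ} (hρ : 0 < ρ) :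
    IF2 μ s N (Ico y₀ (y₀ + M)) δ B b σ m j k z r true i i' ρ ≤ IF2 μ s N (Ico y₀ (y₀ + M)) δ B b σ m j k z r false i i' (ρ / 2) +
      (2 / M + (3 * (4 / ρ + 8) * θ + 4 * ε)) := by
  cases r with
  | true =>
    exact law_I (G := fun y _ w x => cE w (pJ (j / (m * σ) * (m * σ)) (j / (m * σ) * (m * σ) + m * σ))
      (Cl b σ j true x) x * cE2 w (pJ (k / (m * σ) * (m * σ)) (k / (m * σ) * (m * σ) + m * σ)) (NA b σ j k) x x)
      g.hb g.hjN' (hG61 g) G0_61 (c1 := 0) (d1 := z) (Nat.zero_le _) (hz.1 rfl) hii hρ hy hM hyN hE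
  | false =>
    exact law_I (G := fun y _ w x => cE w (pJ (j / (m * σ) * (m * σ)) (j / (m * σ) * (m * σ) + m * σ))
      (Cl b σ j false x) x * cE2 w (pJ (k / (m * σ) * (m * σ)) (k / (m * σ) * (m * σ) + m * σ)) (NA b σ j k) x x)
      g.hb g.hjN' (hG61 g) G0_61 (c1 := z) (d1 := N) (hz.2 rfl) g.hjN' hii hρ hy hM hyN hE

include g hz hy hM hyN hE in
/-- **(L1).** -/
theorem ift_61 (hB : 0 ≤ B) {q1 de : ℝ} (hq : 0 < q1) (hde : 0 < de) :
    IFT μ s N (Ico y₀ (y₀ + M)) δ B b σ m j k z r true q1 de ≤ IFT μ s N (Ico y₀ (y₀ + M)) δ B b σ m j k z r false (q1 / 2) (de / 2) +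
      (2 / M + (3 * (2 / q1 * (8 * B / de + 2) + 8) * θ + 4 * ε)) := by
  cases r with
  | true =>
    exact law_T (G := fun y _ w x => cE w (pJ (j / (m * σ) * (m * σ)) (j / (m * σ) * (m * σ) + m * σ))
      (Cl b σ j true x) x * cE2 w (pJ (k / (m * σ) * (m * σ)) (k / (m * σ) * (m * σ) + m * σ)) (NA b σ j k) x x)
      g.hb g.hjN' (hG61 g) G0_61 (c1 := 0) (d1 := z) (c2 := 0) (d2 := j + 3 * b) (Nat.zero_le _) (hz.1 rfl) (Nat.zero_le _)
      (by omega) hB hq hde hy hM hyN hE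
  | false =>
    exact law_T (G := fun y _ w x => cE w (pJ (j / (m * σ) * (m * σ)) (j / (m * σ) * (m * σ) + m * σ))
      (Cl b σ j false x) x * cE2 w (pJ (k / (m * σ) * (m * σ)) (k / (m * σ) * (m * σ) + m * σ)) (NA b σ j k) x x)
      g.hb g.hjN' (hG61 g) G0_61 (c1 := z) (d1 := N) (c2 := j - 3 * b) (d2 := N) (hz.2 rfl) g.hjN' (by omega) g.hjN'
      hB hq hde hy hM hyN hE

include g hy hM hyN hE in
/-- **(L3).** -/
theorem if3_61 {i i' : ℕ} (hii : i' ≤ j - b ∨ j + b ≤ i) {q : ℝ} (hq : 0 < q) :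
    IF3 μ s N (Ico y₀ (y₀ + M)) δ B b σ m j k true i i' q ≤ IF3 μ s N (Ico y₀ (y₀ + M)) δ B b σ m j k false i i' (q / 2) +
      (2 / M + (3 * (4 / q + 8) * θ + 4 * ε)) :=
  law_E (G := fun y _ w x => cE2 w (pJ (k / (m * σ) * (m * σ)) (k / (m * σ) * (m * σ) + m * σ)) (NA b σ j k) x x)
    g.hb g.hjN' (rep_F (NMA := fun _ => NA b σ j k) cov_NA (Nat.le_add_right _ _) g.hkN g.blk)
    (fun y ω w x => by
      have n1 : Nonempty (Px (Pn N y)) := ⟨x⟩
      exact cE2_nonneg _ _ NA0_61 _ _)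
    (K := fun _ => NI i i') (cov_NI hii 0 1) hq hy hM hyN hE

end Law

end

end Pool.Agent.W_7d29a1_C0.GSX61
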