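import Pool.Agent.W_7d29a1_C0.GSU73
import Pool.Agent.W_7d29a1_C0.GSV73
import Pool.Agent.W_7d29a1_C0.GSNum73
import Pool.Agent.W_7d29a1_C0.GSX61
import Pool.Agent.W_7d29a1_C0.FlipY61
import Pool.Agent.W_7d29a1_C0.GSP86B
import Pool.Agent.W_7d29a1_C0.GSE73
import Pool.Agent.W_7d29a1_C0.Ferr61
import Pool.Agent.W_7d29a1_C0.GwO73

/-!
CURV0 (MP_7d29a1_pr), GS one kick: THE BAD BOXES AT THE CONCRETE FRAME. `PrU73`: the price of the own mass of the pairs which leave a free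
replica apart, **`rbL73`**: `RbL52` of `GSH52` from it. (helper73)
-/

set_option autoImplicit false
set_option linter.unusedSectionVars false
set_option linter.unusedVariables false

namespace Pool.W7d29a1.C0.Bd73

open Finset MeasureTheory Filter Topology Pool.Agent.W_7d29a1_F Pool.Agent.W_7d29a1_X
open Pool.Agent.W_7d29a1_H (sl EE EE_pos EE_mono one_le_EE)
open Pool.Agent.W_7d29a1_HS (In)
open Pool.Agent.W_7d29a1_HZ (wd')
open Pool.Agent.W_7d29a1_C0 Pool.Agent.W_7d29a1_C0.Mod92 Pool.Agent.W_7d29a1_C0.Frm33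
open Pool.Agent.W_7d29a1_C0.Par92 (Sml Est)
open Pool.W7d29a1.C0.GSH52 (Rd52 A52 RbL52)
open Pool.W7d29a1.C0.GSG52 (RbM RBw)
open Pool.W7d29a1.C0.GSC52 (RwF)
open Pool.Agent.W_7d29a1_C0.GSN65 (Ph65 Ph65_same Ph65_far)
open Pool.Agent.W_7d29a1_C0.Flip61 (FErr2)
open Pool.Agent.W_7d29a1_C0.P86 (s4_86)
open Pool.Agent.W_7d29a1_C0.GSX61 (Geo61 ift_61 if2_61)
open Pool.Agent.W_7d29a1_C0.Ferr61 (ferr2_33)
open Pool.Agent.W_7d29a1_C0.Far34 (nfl)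
open Pool.Agent.W_7d29a1_C0.Swap57 (NI)
open Pool.Agent.W_7d29a1_C0.GwA50 (GwW gw_ord73)

noncomputable section

/-- **The price** of the own mass of the pairs which leave a free replica apart of both. -/
def PrU73 (μ : Measure ℝ) (s : ℝ) : Prop := ∀ ε θ : ℝ, 0 < ε → 0 < θ → ∃ δ κ c₂ : ℝ, 0 < δ ∧ 0 < κ ∧ 0 < c₂ ∧ ∃ N₀ : ℕ,
  ∀ N : ℕ, N₀ ≤ N → ∀ ys : Finset ℕ, ys.Nonempty → (∀ y ∈ ys, y ≤ N ∧ |(y : ℝ) - sl μ s * N| ≤ (N : ℝ) ^ δ * wd' μ s N) →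
    ∀ (dl B : ℝ) (b σ m j k e : ℕ), Geo73 N b σ m j k e → (N : ℝ) ^ θ ≤ e → ∀ (r : Bool) (q : ℝ), Real.exp (-(N : ℝ) ^ κ) ≤ q →
    (IG3 μ s N ys dl B b σ m j k false (min (m73 b j r) (z73 b j e r)) (max (m73 b j r) (z73 b j e r)) q ≤
      (N : ℝ) ^ ε / EE μ s e ^ 2 + Real.exp (-(N : ℝ) ^ c₂)) ∧
    (j / (m * σ) ≠ k / (m * σ) →
      IG3 μ s N ys dl B b σ m j k false (min (m73 b j r) (z73 b j e r)) (max (m73 b j r) (z73 b j e r)) q ≤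
        (N : ℝ) ^ ε / EE μ s e ^ 3 + Real.exp (-(N : ℝ) ^ c₂))

variable {μ : Measure ℝ} {s : ℝ} [IsProbabilityMeasure μ] {c₀ C₀ : ℝ} {n₀ : ℕ}

/-- **The law form** of the own mass of the pairs which leave a free replica apart of both (`law_U` of helper61). -/
theorem ig3_73 {N : ℕ} {B : ℝ} {b σ m j k : ℕ} {dl : ℝ} (g : Geo61 N b σ m j k) {y₀ M : ℕ} {θ ε : ℝ} (hy : 1 ≤ y₀) (hM : 1 ≤ M)
    (hyN : y₀ + M ≤ N) (hE : FErr2 μ s N dl B b j y₀ M θ ε) {i i' : ℕ} (hii : i' ≤ j - b ∨ j + b ≤ i) {q : ℝ} (hq : 0 < q) :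
    IG3 μ s N (Ico y₀ (y₀ + M)) dl B b σ m j k true i i' q ≤ IG3 μ s N (Ico y₀ (y₀ + M)) dl B b σ m j k false i i' (q / 2) +
      (2 / M + (3 * (4 / q + 8) * θ + 4 * ε)) :=
  Pool.Agent.W_7d29a1_C0.Flip61.law_U g.hb g.hjN' (cls := fun _ => NI i i') (NMA := fun _ => One32.NA b σ j k) (K := fun _ => NI i i')
    (Flip61.cov_NI hii 0 1) GSX61.cov_NA (Flip61.cov_NI hii 0 1) (fun y S S' => Swap57.NI_nonneg i i' S S')
    (fun y S S' => GSX61.NA0_61 S S') g.le1 g.le2 (Nat.le_add_right _ _) g.hkN g.blk hq hy hM hyN hE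

theorem exp_mono73 {N : ℕ} (hN : 1 ≤ N) {a b : ℝ} (h : a ≤ b) : Real.exp (-(N : ℝ) ^ b) ≤ Real.exp (-(N : ℝ) ^ a) :=
  Real.exp_le_exp.2 (neg_le_neg (Real.rpow_le_rpow_of_exponent_le (by exact_mod_cast hN) h))

theorem cone_mono73 {N y : ℕ} (hN : 1 ≤ N) {a b : ℝ} (h : a ≤ b) (hy : |(y : ℝ) - sl μ s * N| ≤ (N : ℝ) ^ a * wd' μ s N) :
    |(y : ℝ) - sl μ s * N| ≤ (N : ℝ) ^ b * wd' μ s N :=
  hy.trans (mul_le_mul_of_nonneg_right (Real.rpow_le_rpow_of_exponent_le (by exact_mod_cast hN) h) (zero_le_one.trans (le_max_left _ _)))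

/-- **The bad functional, one pair of rows**, from the errors of the flips and the prices. -/
theorem rbw_fix73 {N : ℕ} {B : ℝ} {b σ m j k e : ℕ} {dl A K κp ε c' θ R : ℝ} {v : ℕ → ℝ} (G : Geo73 N b σ m j k e) (hN : 1 ≤ N)
    (hB : 0 ≤ B) (hA : 0 ≤ A) (hBA : B ≤ Real.exp A) (V : LvW N A B B K κp ε c' θ) (F : Flt73 b R v) {κ δ₁ : ℝ} (hκ : (N : ℝ) ^ κ ≤ b)
    (hcn : v (2 * b) ≤ ((2 * b : ℕ) : ℝ) ^ δ₁ * wd' μ s (2 * b)) (r fl : Bool) {y₀ M : ℕ} (hy : 1 ≤ y₀) (hM : 1 ≤ M)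
    (hyN : y₀ + M ≤ N) {ep : ℝ} (hep : 0 ≤ ep)
    (hΩ : ∀ y ∈ Ico y₀ (y₀ + M), law μ {η | θ < gm (lw μ s η N (Pn N y)) (nfl N (sl μ s) v)} ≤ ENNReal.ofReal ep)
    (hΩ' : law μ {η | ¬ GwW μ s N κ dl δ₁ ε c' η} ≤ ENNReal.ofReal ep) {θ' ε' : ℝ} (hθ' : 0 ≤ θ') (hε' : 0 ≤ ε')
    (hE : FErr2 μ s N dl B b j y₀ M θ' ε') {A1 A2 A3 : ℝ}
    (p1 : IF1 μ s N (Ico y₀ (y₀ + M)) dl B b σ m j k (z73 b j e r) r false (j - b) j V.M ≤ A1)
    (p1' : IF1 μ s N (Ico y₀ (y₀ + M)) dl B b σ m j k (z73 b j e r) r false j (j + b) V.M ≤ A1)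
    (p2 : ∀ (i : ℕ) (ρ : ℝ), a73 b j r ≤ i → i + (b / 7 + 1) ≤ a73 b j r + 8 * (b / 7 + 1) → V.ρ₁ / 2 ≤ ρ →
      IF2 μ s N (Ico y₀ (y₀ + M)) dl B b σ m j k (z73 b j e r) r false i (i + (b / 7 + 1)) ρ ≤ A2)
    (h3 : 0 ≤ A3) (p3 : ∀ q : ℝ, Real.exp (-A) / 3 / 2 ≤ q →
      IG3 μ s N (Ico y₀ (y₀ + M)) dl B b σ m j k false (min (m73 b j r) (z73 b j e r)) (max (m73 b j r) (z73 b j e r)) q ≤ A3) :
    RBw μ s N (Ico y₀ (y₀ + M)) dl B b σ m j k R A r fl ≤ 16 * A2 + 4 * A1 + 1 * A3 +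
      (19 * (2 / (M : ℝ) + (3 * (28 * Real.exp (5 * A)) * θ' + 4 * ε')) + 8 * (N : ℝ) ^ (-K) + (((N : ℝ) + 1) ^ 2 + 4) * ep) := by
  have g0 := G.hb
  have g1 := G.j1
  have g2 := G.j2
  have g3 := G.hbe
  have g : Geo61 N b σ m j k := ⟨by omega, G.hm, by omega, by omega, G.jN, G.kN⟩
  obtain ⟨l1, l2, l3⟩ := lerr73 V hN hA hB hBA
  have hM0 : (0 : ℝ) ≤ 2 / M := by positivity
  have hx : 0 ≤ Real.exp (5 * A) := (Real.exp_pos _).le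
  have er : ∀ x : ℝ, x ≤ 28 * Real.exp (5 * A) → 2 / (M : ℝ) + (3 * x * θ' + 4 * ε') ≤
      2 / (M : ℝ) + (3 * (28 * Real.exp (5 * A)) * θ' + 4 * ε') := fun x hx => by
    have : 3 * x * θ' ≤ 3 * (28 * Real.exp (5 * A)) * θ' := mul_le_mul_of_nonneg_right (by linarith) hθ'
    linarith
  have hz : (r = true → j + b ≤ z73 b j e r) ∧ (r = false → z73 b j e r ≤ j - b) := by
    constructor
    · rintro rfl
      show j + b ≤ j + 3 * b + e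
      omega
    · rintro rfl
      show j - 3 * b - e ≤ j - b
      omega
  have hii : max (m73 b j r) (z73 b j e r) ≤ j - b ∨ j + b ≤ min (m73 b j r) (z73 b j e r) := by
    cases r
    · left
      show max (j - 3 * b) (j - 3 * b - e) ≤ j - b
      omega
    · right
      show j + b ≤ min (j + 3 * b) (j + 3 * b + e)
      omega
  refine rb_fix73 G hB V F hκ hcn r fl ⟨y₀, mem_Ico.2 ⟨le_rfl, by omega⟩⟩
    (fun y hy => by have := mem_Ico.1 hy; omega) hep hΩ hΩ' (eL := 2 / (M : ℝ) + (3 * (28 * Real.exp (5 * A)) * θ' + 4 * ε'))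
    (by positivity) ?_ ?_ le_rfl ?_ p1 p1' p2 h3 p3
  · have := ift_61 (r := r) g hz hy hM hyN hE hB (V.q1_pos hN) (Real.exp_pos (-A))
    refine this.trans (add_le_add le_rfl (er _ l1))
  · intro i i' hi
    have := if2_61 (r := r) g hz hy hM hyN hE hi V.hρ₁
    exact this.trans (add_le_add le_rfl (er _ l2))
  · have := ig3_73 (μ := μ) (s := s) g hy hM hyN hE hii (q := Real.exp (-A) / 3) (by positivity)
    rw [one_mul]
    exact this.trans (add_le_add le_rfl (er _ l3))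

/-- **THE BAD BOXES AT THE CONCRETE FRAME**, fixed `δ`, `c`, `η`. -/
theorem rbE73 (h : In μ s c₀ C₀ n₀) (hkap : KapLe96 (EE μ s) (1 / 4)) {K : ℕ} (hK : 32 ≤ K) {Θ : ℝ} (hP : PrU73 μ s)
    {δ c η : ℝ} (hδ : 0 < δ) (hc : 0 < c) (hcδ : c ≤ δ / 64) (hη : 0 < η) :
    Est fun ι β γ m => RbM μ s (frm33 μ s K ι β γ) (EE μ s) Θ δ c η (8 * ι) (Rd52 μ s K ι) (A52 β) m := by
  have hK0 : (0 : ℝ) < K := by
    have : (32 : ℝ) ≤ K := by exact_mod_cast hK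
    linarith
  obtain ⟨kc, hkc, hU⟩ := uni73 h
  refine ⟨δ / 16, by positivity, fun ι hι hιδ => ?_⟩
  obtain ⟨d4, κ4, a4, hd4, hκ4, ha4, N4, H4⟩ := s4_86 h (ι / K) (δ / 2 / K) (by positivity) (by positivity)
  obtain ⟨d5, κ5, a5, hd5, hκ5, ha5, N5, H5⟩ := hP (ι / K) (δ / 2 / K) (by positivity) (by positivity)
  obtain ⟨κp, hκp⟩ : ∃ x, x = min κ4 κ5 := ⟨_, rfl⟩
  have hκp0 : 0 < κp := hκp ▸ lt_min hκ4 hκ5
  obtain ⟨c', hc', HG⟩ := gw_ord73 h (κ := δ / 4 / K) (ε := κp / 2) (by positivity) (by positivity)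
  obtain ⟨c₁, hc₁, HN⟩ := nfl_v73 h (κ := δ / 4 / K) (by positivity)
  obtain ⟨c₃, hc₃, HF⟩ := ferr2_33 h hK (κ := δ) hδ
  obtain ⟨cm, hcm⟩ : ∃ x, x = min (min c' c₁) (min κp c₃) := ⟨_, rfl⟩
  have hcm0 : 0 < cm := hcm ▸ lt_min (lt_min hc' hc₁) (lt_min hκp0 hc₃)
  have m1 : cm ≤ c' := hcm ▸ (min_le_left _ _).trans (min_le_left _ _)
  have m2 : cm ≤ c₁ := hcm ▸ (min_le_left _ _).trans (min_le_right _ _)
  have m3 : cm ≤ κp := hcm ▸ (min_le_right _ _).trans (min_le_left _ _)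
  have m4 : cm ≤ c₃ := hcm ▸ (min_le_right _ _).trans (min_le_right _ _)
  refine ⟨K * cm / 4, by positivity, fun β hβ hβc => ?_⟩
  have hβK : 2 * β / K ≤ cm / 2 := by
    rw [div_le_iff₀ hK0]
    linarith
  obtain ⟨γ₀, hγ₀, HF⟩ := HF β hβ
  refine ⟨γ₀, hγ₀, fun γ hγ hγγ => ?_⟩
  obtain ⟨cF, hcF, HF⟩ := HF γ hγ hγγ
  obtain ⟨δ₁, hδ₁, -, N6, HG⟩ := HG γ hγ
  obtain ⟨ε₂, hε₂⟩ : ∃ x, x = min (ι / (2 * K)) (δ * δ₁ / K) := ⟨_, rfl⟩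
  have hε₂0 : 0 < ε₂ := hε₂ ▸ lt_min (by positivity) (by positivity)
  obtain ⟨dN, cN, hdN, hcN, N7, HN⟩ := HN ε₂ hε₂0
  obtain ⟨dc, hdc⟩ : ∃ x, x = min (min d4 d5) dN := ⟨_, rfl⟩
  have hdc0 : 0 < dc := hdc ▸ lt_min (lt_min hd4 hd5) hdN
  obtain ⟨c2, hc2⟩ : ∃ x, x = min a4 a5 := ⟨_, rfl⟩
  have hc20 : 0 < c2 := hc2 ▸ lt_min ha4 ha5
  obtain ⟨ce, hce⟩ : ∃ x, x = min c' cN := ⟨_, rfl⟩
  have hce0 : 0 < ce := hce ▸ lt_min hc' hcN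
  filter_upwards [len73 h hkap hδ hc.le hcδ hι.le hιδ, flt73 h hK hδ hι hε₂0 (hε₂ ▸ min_le_left _ _),
    ev_L (by omega : 1 ≤ K) (max (max N4 N5) (max N6 N7)),
    (tend_L (by omega : 1 ≤ K)).eventually (ev_lvW (a := β / K) (a' := 2 * β / K) (ε := κp / 2) (c' := c') (c₁ := c₁) (κp := κp) (K := 1)
      (by positivity) (by gcongr; linarith) (by linarith) (by linarith) (by linarith) (by linarith) zero_le_one),
    HF, cone33 h hK hdc0, ev_err73 (c3 := c₃) hK hβ hc20 (by linarith) hcF hce0, ev_n (show 0 < 4 * ι by positivity) (24 * kc ^ 4),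
    ev_n one_pos (2 * kc), ev_n hβ 100, ev_n (show 0 < δ / 2 by positivity) 7] with m e1 e2 e3 e4 e5 e6 e7 e8 e9 e10 e11
  intro p p' q i hC hi j hj k hk hjk r fl
  obtain ⟨n, hn⟩ : ∃ n : ℝ, n = ((2 ^ m : ℕ) : ℝ) := ⟨_, rfl⟩
  have hn1 : 1 ≤ n := hn ▸ n_ge1 m
  have hn0 : 0 < n := lt_of_lt_of_le one_pos hn1
  have hL1 : 1 ≤ L33 K m := Nat.one_le_two_pow
  have hL1' : (1 : ℝ) ≤ ((L33 K m : ℕ) : ℝ) := by exact_mod_cast hL1
  have kap : ∀ x : ℝ, ((L33 K m : ℕ) : ℝ) ^ (x / K) = n ^ x := fun x => by rw [L33_kap (by omega) x, hn]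
  have pw : ∀ {x y : ℝ}, x ≤ y → n ^ x ≤ n ^ y := fun hxy => Real.rpow_le_rpow_of_exponent_le hn1 hxy
  rw [← hn] at e7 e8 e9 e10 e11
  rw [Real.rpow_one] at e9
  -- the scales
  have hm0 : (0 : ℝ) ≤ m := Nat.cast_nonneg _
  have hsq' : sg96 (EE μ s) c m p' ≤ q := by
    have h1 := hC.hsq'
    have h2 : 0 ≤ c * (m : ℝ) := mul_nonneg hc.le hm0
    have h3 : (sg96 (EE μ s) c m p' : ℝ) ≤ q := by linarith only [h1, h2]
    exact_mod_cast h3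
  have hqm' : q ≤ m := by
    have h1 := hC.hqm
    have h2 : 0 ≤ η * (m : ℝ) := mul_nonneg hη.le hm0
    have h3 : (q : ℝ) ≤ m := by linarith only [h1, h2]
    exact_mod_cast h3
  have hpp' := sg_mem96 (fun n => one_le_EE n) (show (1 : ℝ) / 4 + 1 / 4 < 1 by norm_num) (hkap (1 / 4) (by norm_num)) hc.le m p'
  have hss : sg96 (EE μ s) c m p ≤ sg96 (EE μ s) c m p' :=
    Pool.Agent.W_7d29a1_C0.Asm96.sg_mono96 EE_mono (fun n => one_le_EE n) hC.hpp hpp'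
  have hps := hC.hps
  obtain ⟨e, hp10, hpe, hes, hdeep, hσe⟩ := e1 p hC.hp (by omega)
  have G := geo73 (μ := μ) (s := s) (β := β) (γ := γ) (by omega : 1 ≤ K) hp10 hpe hdeep hss (by omega) hj hk
  obtain ⟨hκb, hflt⟩ := e2 p hC.hp hp10
  have hcn := hcn73 (μ := μ) (s := s) (ε₂ := ε₂) hK hδ hδ₁ (hε₂ ▸ min_le_right _ _) hC.hp hκb
  -- the ends
  obtain ⟨hy2, hyM, hyc⟩ := e6
  have hcone : ∀ y ∈ Ico (y33 μ s K m) (y33 μ s K m + M33 m), y ≤ L33 K m ∧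
      |(y : ℝ) - sl μ s * L33 K m| ≤ (L33 K m : ℝ) ^ dc * wd' μ s (L33 K m) := fun y hy => by
    have := mem_Ico.1 hy
    exact hyc y (by omega) (by omega)
  have hM1 : 1 ≤ M33 m := Nat.one_le_two_pow
  have hne : (Ico (y33 μ s K m) (y33 μ s K m + M33 m)).Nonempty := ⟨y33 μ s K m, mem_Ico.2 ⟨le_rfl, by omega⟩⟩
  have dc4 : dc ≤ d4 := hdc ▸ (min_le_left _ _).trans (min_le_left _ _)
  have dc5 : dc ≤ d5 := hdc ▸ (min_le_left _ _).trans (min_le_right _ _)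
  have dcN : dc ≤ dN := hdc ▸ min_le_right _ _
  -- the levels
  have hAn : A52 β m = n ^ (2 * β) := by rw [hn]; rfl
  have hBn : B33 β m = n ^ β := by rw [hn]; rfl
  have hBA : 100 * B33 β m ≤ A52 β m := by
    rw [hAn, hBn, show 2 * β = β + β by ring, Real.rpow_add hn0]
    exact mul_le_mul_of_nonneg_right e10 (Real.rpow_nonneg hn0.le _)
  have hB0 : 0 ≤ B33 β m := hBn ▸ Real.rpow_nonneg hn0.le _
  have hA0 : 0 ≤ A52 β m := hAn ▸ Real.rpow_nonneg hn0.le _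
  have hBe : B33 β m ≤ Real.exp (A52 β m / 100) := by
    have h1 := Real.add_one_le_exp (A52 β m / 100)
    linarith only [h1, hBA]
  have hBe' : B33 β m ≤ Real.exp (A52 β m) := hBe.trans (Real.exp_le_exp.2 (by linarith only [hA0]))
  obtain ⟨V⟩ := e4 (A52 β m) (B33 β m) (B33 β m) (Real.exp (-(L33 K m : ℝ) ^ c₁))
    (by rw [kap, hAn]; exact pw (by linarith only [hβ])) (by rw [kap, hAn]) hB0 hBe hB0 hBA (Real.exp_pos _).le le_rfl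
  -- the prices
  obtain ⟨X, hX⟩ : ∃ X, X = ((L33 K m : ℕ) : ℝ) ^ (ι / K) := ⟨_, rfl⟩
  have hXn : X = n ^ ι := by rw [hX, kap]
  obtain ⟨t, ht⟩ : ∃ t, t = Real.exp (-(L33 K m : ℝ) ^ c2) + 6 * Real.exp (-V.M) := ⟨_, rfl⟩
  have t4 : Real.exp (-(L33 K m : ℝ) ^ a4) + 6 * Real.exp (-V.M) ≤ t := by
    rw [ht]
    exact add_le_add (exp_mono73 hL1 (hc2 ▸ min_le_left _ _)) le_rfl
  have t5 : Real.exp (-(L33 K m : ℝ) ^ a5) ≤ t := by
    have h1 := exp_mono73 hL1 (show c2 ≤ a5 from hc2 ▸ min_le_right _ _)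
    have h2 := Real.exp_pos (-V.M)
    rw [ht]
    linarith only [h1, h2]
  have ht0 : 0 ≤ t := by rw [ht]; positivity
  have hb7 : ((L33 K m : ℕ) : ℝ) ^ (δ / 2 / K) ≤ ((2 ^ p / 7 + 1 : ℕ) : ℝ) := by
    have h1 := two_ge hC.hp
    have h2 : ((2 ^ p : ℕ) : ℝ) ≤ 7 * ((2 ^ p / 7 + 1 : ℕ) : ℝ) := by
      have : 2 ^ p ≤ 7 * (2 ^ p / 7 + 1) := by omega
      exact_mod_cast this
    have h3 : 7 * n ^ (δ / 2) ≤ n ^ δ := by
      have e : n ^ δ = n ^ (δ / 2) * n ^ (δ / 2) := by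
        rw [← Real.rpow_add hn0]
        congr 1
        ring
      rw [e]
      exact mul_le_mul_of_nonneg_right e11 (Real.rpow_nonneg hn0.le _)
    rw [kap]
    rw [← hn] at h1
    linarith only [h1, h2, h3]
  have hbe7 : ((L33 K m : ℕ) : ℝ) ^ (δ / 2 / K) ≤ (e : ℝ) := by
    refine hb7.trans ?_
    have : 2 ^ p / 7 + 1 ≤ e := by omega
    exact_mod_cast this
  have κ4' : κp ≤ κ4 := hκp ▸ min_le_left _ _
  have κ5' : κp ≤ κ5 := hκp ▸ min_le_right _ _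
  have hMκ : V.M ≤ (L33 K m : ℝ) ^ κ4 := V.hM.trans (Real.rpow_le_rpow_of_exponent_le hL1' κ4')
  have hρ4 : ∀ ρ : ℝ, V.ρ₁ / 2 ≤ ρ → Real.exp (-(L33 K m : ℝ) ^ κ4) ≤ ρ := fun ρ h1 =>
    (exp_mono73 hL1 κ4').trans (V.e11.trans h1)
  have hq5 : ∀ q : ℝ, Real.exp (-A52 β m) / 3 / 2 ≤ q → Real.exp (-(L33 K m : ℝ) ^ κ5) ≤ q := fun q h1 => by
    refine (exp_mono73 hL1 κ5').trans (V.e12.trans (le_trans ?_ h1))
    have hi : (L33 K m : ℝ) ^ (-(1 : ℝ)) ≤ 1 := Real.rpow_le_one_of_one_le_of_nonpos hL1' (by norm_num)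
    have h2 : (1 : ℝ) ≤ ((L33 K m : ℝ) + 1) ^ 2 := by nlinarith only [hL1']
    have h3 : V.q0 ≤ 1 := by
      have := V.hq0
      have := V.e4
      nlinarith only [this, V.hq0, h2, hi]
    have h4 : V.q2 ≤ 1 := by
      have := V.e5
      nlinarith only [this, V.hq2, h2, hi]
    have h5 : V.q0 * V.q2 ≤ 1 := mul_le_one₀ h3 V.hq2.le h4
    have h6 := Real.exp_pos (-A52 β m)
    have h7 : V.q0 * V.q2 * (Real.exp (-A52 β m) / 3) ≤ 1 * (Real.exp (-A52 β m) / 3) := mul_le_mul_of_nonneg_right h5 (by positivity)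
    linarith only [h7]
  obtain ⟨⟨P1, P1', P2⟩, PF⟩ := H4 (L33 K m) (by omega) _ hne
    (fun y hy => ⟨(hcone y hy).1, cone_mono73 hL1 dc4 (hcone y hy).2⟩) V.M V.hM8 hMκ γ (B33 β m) _ _ _ _ _ _ G hb7 r
  have P3 := H5 (L33 K m) (by omega) _ hne
    (fun y hy => ⟨(hcone y hy).1, cone_mono73 hL1 dc5 (hcone y hy).2⟩) γ (B33 β m) _ _ _ _ _ _ G hbe7 r
  rw [← hX] at P1 P1' P2 PF P3
  -- the bound of the functional
  have g1 := G.j1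
  have g2 := G.j2
  have gm := (blk_sub73 G.hσ G.hm j).2
  have gN := G.jN
  have R := fun (A1 A2 A3 : ℝ) => rbw_fix73 (A1 := A1) (A2 := A2) (A3 := A3) G hL1 hB0 hA0 hBe' V hflt hκb hcn r fl (y₀ := y33 μ s K m)
    (M := M33 m) (by omega) hM1 (by omega) (ep := Real.exp (-(L33 K m : ℝ) ^ ce)) (Real.exp_pos _).le
    (fun y hy => (HN (L33 K m) (by omega) y (hcone y hy).1 (cone_mono73 hL1 dcN (hcone y hy).2)).trans
      (ENNReal.ofReal_le_ofReal (exp_mono73 hL1 (hce ▸ min_le_right _ _))))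
    ((HG (L33 K m) (by omega)).trans (ENNReal.ofReal_le_ofReal (exp_mono73 hL1 (hce ▸ min_le_left _ _))))
    (θ' := Real.exp (-(L33 K m : ℝ) ^ c₃)) (ε' := Real.exp (-(L33 K m : ℝ) ^ cF)) (Real.exp_pos _).le (Real.exp_pos _).le
    (e5 (B33 β m) le_rfl (2 ^ p) j (two_ge hC.hp) (Nat.pow_le_pow_right two_pos (by omega)) (by omega) (by omega))
  have hE := e7 _ V.e13
  rw [← ht] at hE
  obtain ⟨rest, hrest⟩ : ∃ x, x = 19 * (2 / (M33 m : ℝ) + (3 * (28 * Real.exp (5 * A52 β m)) * Real.exp (-(L33 K m : ℝ) ^ c₃) +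
    4 * Real.exp (-(L33 K m : ℝ) ^ cF))) + 8 * (L33 K m : ℝ) ^ (-(1 : ℝ)) +
      (((L33 K m : ℝ) + 1) ^ 2 + 4) * Real.exp (-(L33 K m : ℝ) ^ ce) := ⟨_, rfl⟩
  rw [← hrest] at hE
  have hrest0 : 0 ≤ rest := by rw [hrest]; positivity
  simp only [← hrest] at R
  -- the numbers
  have pos : ∀ n, 0 < EE μ s n := fun n => EE_pos n
  have one : ∀ n, 1 ≤ EE μ s n := fun n => one_le_EE n
  have hX1 : 1 ≤ X := hXn ▸ Real.one_le_rpow hn1 hι.le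
  obtain ⟨u1, u2, u3, u4⟩ := hU (2 ^ m) (2 ^ p) e (2 ^ sg96 (EE μ s) c m p) X hX1 Nat.one_le_two_pow hpe hes
    (Nat.pow_le_pow_right two_pos (by omega)) (by rw [hXn, hn]; exact hσe)
  have hY : 24 * kc ^ 4 * X ^ 4 ≤ n ^ (8 * ι) := by
    have f1 : X ^ 4 = n ^ (4 * ι) := by
      rw [hXn, ← Real.rpow_natCast, ← Real.rpow_mul hn0.le]
      congr 1
      push_cast
      ring
    have f2 : n ^ (8 * ι) = n ^ (4 * ι) * n ^ (4 * ι) := by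
      rw [← Real.rpow_add hn0]
      congr 1
      ring
    rw [f1, f2]
    exact mul_le_mul_of_nonneg_right e8 (Real.rpow_nonneg hn0.le _)
  have hr : 2 * (21 * t + rest) ≤ 1 / (EE μ s (2 ^ sg96 (EE μ s) c m p) ^ 2 * EE μ s (2 ^ p)) := by
    have h0 := pos (2 ^ sg96 (EE μ s) c m p)
    have h0' := pos (2 ^ p)
    have h1 : 0 < EE μ s (2 ^ sg96 (EE μ s) c m p) ^ 2 * EE μ s (2 ^ p) := by positivity
    rw [← hn] at u4
    rw [le_div_iff₀ h1]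
    calc 2 * (21 * t + rest) * (EE μ s (2 ^ sg96 (EE μ s) c m p) ^ 2 * EE μ s (2 ^ p)) ≤ 2 * (n ^ 4)⁻¹ * (kc * n ^ 3) :=
          mul_le_mul (by linarith only [hE]) u4 h1.le (by positivity)
      _ = 2 * kc / n := by field_simp
      _ ≤ 1 := by rw [div_le_one hn0]; exact e9
  have hprod : 2 ^ (sg96 (EE μ s) c m p' - sg96 (EE μ s) c m p) * 2 ^ sg96 (EE μ s) c m p = 2 ^ sg96 (EE μ s) c m p' := by
    rw [← pow_add]
    congr 1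
    omega
  have pe := pos e
  have pb := pos (2 ^ p)
  by_cases hblk : j / 2 ^ sg96 (EE μ s) c m p' = k / 2 ^ sg96 (EE μ s) c m p'
  · have S := Ph65_same (E := EE μ s) (c := c) (ε₁ := 8 * ι) (fun n => EE_pos n) (p := p) hblk
    rw [← hn] at S
    exact (R _ _ _ (P1.trans (add_le_add le_rfl t4)) (P1'.trans (add_le_add le_rfl t4))
      (fun i' ρ h1 h2 h3 => (P2 i' ρ h1 h2 (hρ4 ρ h3)).trans (add_le_add le_rfl t4)) (by positivity)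
      (fun q' h1 => (P3 q' (hq5 q' h1)).1.trans (add_le_add le_rfl t5))).trans
        ((num_same73 one_le_two ht0 hrest0 hX1 hkc (one _) (one _) (one _) (one _) u1 u2 hr hY).trans S)
  · have S := Ph65_far (E := EE μ s) (c := c) (ε₁ := 8 * ι) (fun n => EE_pos n) m p p' (Nat.dist j k)
    rw [← hn] at S
    rw [hprod] at PF
    obtain ⟨Q1, Q1', Q2⟩ := PF hblk
    exact (R _ _ _ (Q1.trans (add_le_add le_rfl t4)) (Q1'.trans (add_le_add le_rfl t4))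
      (fun i' ρ h1 h2 h3 => (Q2 i' ρ h1 h2 (hρ4 ρ h3)).trans (add_le_add le_rfl t4)) (by positivity)
      (fun q' h1 => ((P3 q' (hq5 q' h1)).2 (by rw [hprod]; exact hblk)).trans (add_le_add le_rfl t5))).trans
        ((num_far73 one_le_two ht0 hrest0 hX1 hkc (one _) (one _) (one _) (one _) u1 u2 u3 hr hY).trans S)

/-- **THE BAD BOXES AT THE CONCRETE FRAME**: `RbL52` of `GSH52`, from the price `PrU73`. -/
theorem rbL73 (h : In μ s c₀ C₀ n₀) (hkap : KapLe96 (EE μ s) (1 / 4)) {K : ℕ} (hK : 32 ≤ K) {Θ : ℝ} (hP : PrU73 μ s) :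
    RbL52 μ s K Θ :=
  Sml.of fun δ hδ => Sml.mono (Sml.le (show 0 < δ / 64 by positivity)) fun c hc hcδ η hη _ => ⟨8, rbE73 h hkap hK hP hδ hc hcδ hη⟩

end

end Pool.W7d29a1.C0.Bd73
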