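import Pool.Agent.W_7d29a1_C0.Lev52
import Pool.Agent.W_7d29a1_C0.E3B52
import Pool.Agent.W_7d29a1_C0.GSW73
import Pool.Agent.W_7d29a1_C0.GSP86

/-!
CURV0 (MP_7d29a1_pr), GS one kick: **S5 = `PrU73`**: the price of the own mass of the pairs which leave a free replica apart of both. From
`pl3_left`, `pl3_right` (Lev52), the exchange of the two replicas of the pair (`gm_exch41`) and the price of two alternatives
(`int_pl3`, E3B52). (helper52)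
-/

set_option autoImplicit false
set_option linter.unusedSectionVars false

namespace Pool.W7d29a1.C0.E3G52

open MeasureTheory ProbabilityTheory Filter Topology Finset
open Pool.Agent.W_7d29a1_F Pool.Agent.W_7d29a1_X Pool.Agent.W_7d29a1_h4g Pool.Agent.W_7d29a1_H
open Pool.Agent.W_7d29a1_HS (In wd md)
open Pool.Agent.W_7d29a1_HZ
open Pool.Agent.W_7d29a1_HZ.Z86
open Pool.Agent.W_7d29a1_C0.Mod92 (Px Pn lw ps pJ ne_Pn ps_Pn pos_card ps_of_le ps_of_ge wm Pm meas_lw meas_wm meas_cE meas_gz meas_gm int_Pm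
  avy int_bdd)
open Pool.Agent.W_7d29a1_C0.P86
open Pool.Agent.W_7d29a1_C0.N51 (Pl3 mc3 On3 mc3_nonneg)
open Pool.Agent.W_7d29a1_C0.Swap57 (NI cE2 NI_nonneg cE2_nonneg cE2_le_one cE2_add cE2_mono)
open Pool.Agent.W_7d29a1_C0.One32 (NA pB NA_nonneg NA_le_one)
open Pool.W7d29a1.C0 (gm gz gz_pos gm_nonneg gm_mono gm_const)
open Pool.W7d29a1.C0.VT31 (Mp cE gm_mul_cE fz fz_pos cE_sum cE_mono cE_nonneg cE_one cE_add cE_smul)
open Pool.W7d29a1.C0.H41 (UK UK_nonneg gm_exch41)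
open Pool.Agent.W_7d29a1_C0.E62 (cE_full)
open Pool.W7d29a1.C0.E3B52
open Pool.W7d29a1.C0.L52
open Pool.W7d29a1.C0.Bd73 (G3 IG3 m73 z73 Geo73 PrU73)
open Pool.Agent.W_7d29a1_C0 (EE'_eq46)
open scoped ENNReal

noncomputable section

variable {μ : Measure ℝ} {s : ℝ} {N : ℕ}

/-! ### The pairs which leave a third path apart -/

section Pt

variable {y : ℕ}

open Classical in
/-- The mass of the third path. -/
def m3 (w : Px (Pn N y) → ℝ) (A : Finset ℕ → Finset ℕ → Finset ℕ → Prop) (x z : Px (Pn N y)) : ℝ :=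
  gm w (fun t => if A x.1 z.1 t.1 then 1 else 0)

open Classical in
/-- The pair leaves a third path of mass more than `q`. -/
def ph3 (w : Px (Pn N y) → ℝ) (A : Finset ℕ → Finset ℕ → Finset ℕ → Prop) (q : ℝ) (x z : Px (Pn N y)) : ℝ :=
  if q < m3 w A x z then 1 else 0

theorem ph3_01 (w : Px (Pn N y) → ℝ) (A : Finset ℕ → Finset ℕ → Finset ℕ → Prop) (q : ℝ) (x z : Px (Pn N y)) :
    0 ≤ ph3 w A q x z ∧ ph3 w A q x z ≤ 1 := by
  unfold ph3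
  split_ifs <;> norm_num

variable [Nonempty (Px (Pn N y))]

theorem m3_nonneg (w : Px (Pn N y) → ℝ) (A : Finset ℕ → Finset ℕ → Finset ℕ → Prop) (x z : Px (Pn N y)) : 0 ≤ m3 w A x z := by
  classical
  exact gm_nonneg _ fun t => by split_ifs <;> norm_num

theorem uk_le {i i' : ℕ} {A : Finset ℕ → Finset ℕ → Finset ℕ → Prop} {w : Px (Pn N y) → ℝ} {q : ℝ} {x z : Px (Pn N y)}
    (hA : ∀ t : Px (Pn N y), NoMeet i i' x.1 z.1 → NoMeet i i' x.1 t.1 → NoMeet i i' z.1 t.1 → A x.1 z.1 t.1 ∨ A z.1 x.1 t.1) :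
    UK w (NI i i') q x z ≤ ph3 w A (q / 2) x z + ph3 w A (q / 2) z x := by
  classical
  have n0 : 0 ≤ ph3 w A (q / 2) x z + ph3 w A (q / 2) z x := add_nonneg (ph3_01 _ _ _ _ _).1 (ph3_01 _ _ _ _ _).1
  unfold UK
  by_cases h1 : NoMeet i i' x.1 z.1
  · rw [NI_yes h1, one_mul]
    split_ifs with h2
    · have h3 : gm w (fun t => NI i i' x t * NI i i' z t) ≤ m3 w A x z + m3 w A z x := by
        unfold m3
        rw [← Pool.W7d29a1.C0.gm_add]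
        refine gm_mono w fun t => ?_
        rw [Pi.add_apply]
        have e1 : (0 : ℝ) ≤ if A x.1 z.1 t.1 then 1 else 0 := by split_ifs <;> norm_num
        have e2 : (0 : ℝ) ≤ if A z.1 x.1 t.1 then 1 else 0 := by split_ifs <;> norm_num
        by_cases h4 : NoMeet i i' x.1 t.1
        · by_cases h5 : NoMeet i i' z.1 t.1
          · rw [NI_yes h4, NI_yes h5, one_mul]
            rcases hA t h1 h4 h5 with h6 | h6
            · rw [if_pos h6]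
              linarith
            · rw [if_pos h6]
              linarith
          · rw [NI_no h5, mul_zero]
            exact add_nonneg e1 e2
        · rw [NI_no h4, zero_mul]
          exact add_nonneg e1 e2
      have h7 : q / 2 < m3 w A x z ∨ q / 2 < m3 w A z x := by
        by_contra hcon
        rw [not_or, not_lt, not_lt] at hcon
        linarith [hcon.1, hcon.2]
      rcases h7 with h7 | h7
      · have e3 : ph3 w A (q / 2) x z = 1 := if_pos h7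
        rw [e3]
        linarith [(ph3_01 w A (q / 2) z x).1]
      · have e3 : ph3 w A (q / 2) z x = 1 := if_pos h7
        rw [e3]
        linarith [(ph3_01 w A (q / 2) x z).1]
    · exact n0
  · rw [NI_no h1, zero_mul]
    exact n0

theorem cE_fibm (w : Px (Pn N y) → ℝ) {Y : Type*} [DecidableEq Y] (p : Px (Pn N y) → Y) {f g : Px (Pn N y) → ℝ} {x : Px (Pn N y)}
    (h : ∀ x', p x' = p x → f x' ≤ g x') : cE w p f x ≤ cE w p g x := by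
  unfold cE
  refine div_le_div_of_nonneg_right (sum_le_sum fun x' _ => ?_) (fz_pos w p x).le
  split_ifs with h1
  · exact mul_le_mul_of_nonneg_left (h x' h1) (Real.exp_pos _).le
  · exact le_rfl

/-- **THE EXCHANGE**: both cases are told from the base path. -/
theorem g3_le {c' d' i i' : ℕ} {A : Finset ℕ → Finset ℕ → Finset ℕ → Prop} {w : Px (Pn N y) → ℝ} {q : ℝ}
    (hA : ∀ x z t : Px (Pn N y), pJ c' d' z = pJ c' d' x → NoMeet i i' x.1 z.1 → NoMeet i i' x.1 t.1 → NoMeet i i' z.1 t.1 →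
      A x.1 z.1 t.1 ∨ A z.1 x.1 t.1) {f : Px (Pn N y) → ℝ} (hf : Mp (pJ c' d') f) (f0 : ∀ x, 0 ≤ f x) :
    gm w (fun x => cE w (pJ c' d') (UK w (NI i i') q x) x * f x) ≤
      2 * gm w (fun x => f x * cE w (pJ c' d') (ph3 w A (q / 2) x) x) := by
  have e := gm_exch41 w hf (ph3 w A (q / 2))
  have k : gm w (fun x => cE w (pJ c' d') (UK w (NI i i') q x) x * f x) ≤ gm w ((fun x => f x * cE w (pJ c' d') (ph3 w A (q / 2) x) x) +
      fun x => f x * cE w (pJ c' d') (fun z => ph3 w A (q / 2) z x) x) := by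
    refine gm_mono w fun x => ?_
    rw [Pi.add_apply, ← mul_add, mul_comm]
    refine mul_le_mul_of_nonneg_left ?_ (f0 x)
    have k1 := cE_fibm w (pJ c' d') (f := UK w (NI i i') q x) (g := ph3 w A (q / 2) x + fun z => ph3 w A (q / 2) z x) (x := x)
      (fun z hz => uk_le fun t => hA x z t hz)
    rwa [cE_add, Pi.add_apply] at k1
  rw [Pool.W7d29a1.C0.gm_add, ← e] at k
  linarith

theorem m3_mc3 {c' d' : ℕ} {A : Finset ℕ → Finset ℕ → Finset ℕ → Prop} (η : Env) (x : Px (Pn N y)) :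
    mc3 μ s N y c' d' 0 N A η x.1 = cE (lw μ s η N (Pn N y)) (pJ c' d') (m3 (lw μ s η N (Pn N y)) A x) x := by
  classical
  unfold mc3
  rw [dif_pos x.2]
  congr 1
  funext a
  unfold mc
  rw [dif_pos x.2, cE_full]
  rfl

/-- The mass is not small: the mass over the level. -/
theorem own_mc3 {c' d' : ℕ} {A : Finset ℕ → Finset ℕ → Finset ℕ → Prop} {q : ℝ} (hq : 0 < q) (η : Env) (x : Px (Pn N y)) :
    cE (lw μ s η N (Pn N y)) (pJ c' d') (ph3 (lw μ s η N (Pn N y)) A q x) x ≤ q⁻¹ * mc3 μ s N y c' d' 0 N A η x.1 := by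
  rw [m3_mc3]
  have k : cE (lw μ s η N (Pn N y)) (pJ c' d') (ph3 (lw μ s η N (Pn N y)) A q x) x ≤
      cE (lw μ s η N (Pn N y)) (pJ c' d') (q⁻¹ • m3 (lw μ s η N (Pn N y)) A x) x := by
    refine cE_mono _ _ (fun z => ?_) x
    rw [Pi.smul_apply, smul_eq_mul]
    unfold ph3
    split_ifs with h
    · rw [inv_mul_eq_div, one_le_div hq]
      exact h.le
    · exact mul_nonneg (inv_nonneg.2 hq.le) (m3_nonneg _ _ _ _)
  rwa [cE_smul, Pi.smul_apply, smul_eq_mul] at k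

end Pt

/-! ### Integrated -/

theorem meas_ph3 {y : ℕ} (A : Finset ℕ → Finset ℕ → Finset ℕ → Prop) (q : ℝ) (x z : Px (Pn N y)) :
    Measurable fun ω : Env × Finset ℕ => ph3 (wm μ s N (Pn N y) ω) A q x z := by
  classical
  unfold ph3 m3
  exact Measurable.ite (measurableSet_lt measurable_const (meas_gm meas_wm fun t => measurable_const)) measurable_const measurable_const

/-- **The price, from a place.** -/
theorem g3_int [IsProbabilityMeasure μ] {y c' d' : ℕ} (hy : y ≤ N) (h1 : c' ≤ d' ∧ d' ≤ N) {A : Finset ℕ → Finset ℕ → Finset ℕ → Prop}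
    (hA3 : On3 c' d' 0 N A) {r p : ℝ} (hr : 0 ≤ r) (hp : 0 ≤ p) {J V : Finset ℕ}
    (hP : Pl3 μ s N y (ENNReal.ofReal r) (ENNReal.ofReal p) A J V) {i i' : ℕ}
    (hA : ∀ x z t : Px (Pn N y), pJ c' d' z = pJ c' d' x → NoMeet i i' x.1 z.1 → NoMeet i i' x.1 t.1 → NoMeet i i' z.1 t.1 →
      A x.1 z.1 t.1 ∨ A z.1 x.1 t.1) {q : ℝ} (hq : 0 < q) (X : ℝ) {f : Env × Finset ℕ → Px (Pn N y) → ℝ}
    (hfm : ∀ x, Measurable fun ω => f ω x) (hfp : ∀ ω, Mp (pJ c' d') (f ω)) (hf0 : ∀ ω x, 0 ≤ f ω x) (hf1 : ∀ ω x, f ω x ≤ 1)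
    (hfo : ∀ (η η' : Env) A x, (∃ E : Finset Pt, (∀ q ∈ E, 0 ≤ q.1 ∧ q.1.toNat ∈ J) ∧ ∀ q, q ∉ E → η q = η' q) → f (η, A) x = f (η', A) x) :
    ∫ ω, gm (wm μ s N (Pn N y) ω) (fun x => cE (wm μ s N (Pn N y) ω) (pJ c' d') (UK (wm μ s N (Pn N y) ω) (NI i i') q x) x * f ω x)
        ∂(Pm μ N) ≤
      2 * (r * ∫ ω, gm (wm μ s N (Pn N y) ω) (f ω) ∂(Pm μ N) +
        (p + (q / 2)⁻¹ * (Real.exp (2 * X) * p + 2 * (((N : ℝ) + 1) ^ 2 * Real.exp (-X))))) := by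
  have hn := ne_Pn (N := N) (y := y) hy
  have g0 : ∀ (ω : Env × Finset ℕ) x, 0 ≤ cE (wm μ s N (Pn N y) ω) (pJ c' d') (ph3 (wm μ s N (Pn N y) ω) A (q / 2) x) x := fun ω x =>
    cE_nonneg _ _ (fun z => (ph3_01 _ _ _ _ _).1) x
  have g1 : ∀ (ω : Env × Finset ℕ) x, cE (wm μ s N (Pn N y) ω) (pJ c' d') (ph3 (wm μ s N (Pn N y) ω) A (q / 2) x) x ≤ 1 := fun ω x =>
    cE_le_one _ _ (fun z => (ph3_01 _ _ _ _ _).2) x
  have k := int_pl3 (μ := μ) (s := s) (N := N) hy (c₁ := c') (d₁ := d') (c₂ := 0) (d₂ := N) h1 ⟨Nat.zero_le _, le_rfl⟩ hA3 hr hp hP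
    (G := fun ω x => cE (wm μ s N (Pn N y) ω) (pJ c' d') (ph3 (wm μ s N (Pn N y) ω) A (q / 2) x) x) g0 g1 (g := (q / 2)⁻¹)
    (by positivity) (fun ω x => own_mc3 (by positivity) ω.1 x) X (f := f)
    (fun A x => (hfm x).comp (measurable_id.prodMk measurable_const)) hf0 hf1 hfo
  refine le_trans ?_ (mul_le_mul_of_nonneg_left k (by norm_num))
  rw [← integral_const_mul]
  refine integral_mono_of_nonneg (Filter.Eventually.of_forall fun ω => ?_) (Integrable.const_mul (int_bdd (M := 1) ?_ fun ω => ?_) 2)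
    (Filter.Eventually.of_forall fun ω => g3_le hA (hfp ω) (hf0 ω))
  · exact gm_nonneg _ fun x => mul_nonneg (cE_nonneg _ _ (fun z => UK_nonneg (fun x y => NI_nonneg _ _ x y) q x z) x) (hf0 ω x)
  · exact meas_gm meas_wm fun x => (hfm x).mul (meas_cE meas_wm (f := fun ω => ph3 (wm μ s N (Pn N y) ω) A (q / 2) x)
      (fun z => meas_ph3 A (q / 2) x z) (pJ c' d') x)
  · rw [abs_of_nonneg (gm_nonneg _ fun x => mul_nonneg (hf0 ω x) (g0 ω x))]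
    exact (gm_mono _ fun x => mul_le_one₀ (hf1 ω x) (g0 ω x) (g1 ω x)).trans_eq (gm_const _ 1)

/-! ### The two sides -/

/-- The rows which are used: in front of `i + e` (`false`), behind `i` (`true`). -/
def JJ (N i e : ℕ) (sd : Bool) : Finset ℕ := if sd then Ico i N else Ico 0 (i + e)

theorem pos_eq0 (S T : Finset ℕ) : pos S 0 = pos T 0 := by
  unfold pos
  simp

theorem pos_eqN {y : ℕ} (x z : Px (Pn N y)) : pos x.1 N = pos z.1 N := (ps_Pn x).trans (ps_Pn z).symm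

/-- **THE PLACE OF THE SIDE `sd`.** -/
theorem pl3_both [IsProbabilityMeasure μ] {c₀ C₀ : ℝ} {n₀ : ℕ} (h : In μ s c₀ C₀ n₀) : ∀ ε θ : ℝ, 0 < ε → 0 < θ →
    ∃ δ a : ℝ, 0 < δ ∧ 0 < a ∧ ∃ N₀ : ℕ, ∀ N : ℕ, N₀ ≤ N → ∀ e : ℕ, (N : ℝ) ^ θ ≤ e →
    ∀ y : ℕ, y ≤ N → |(y : ℝ) - sl μ s * N| ≤ ((N : ℝ) ^ δ * wd' μ s N) → ∀ i c' d' : ℕ, 1 ≤ i → c' ≤ i → i + e ≤ d' → d' ≤ N →
    ∀ sd : Bool, ∃ A : Finset ℕ → Finset ℕ → Finset ℕ → Prop, On3 c' d' 0 N A ∧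
      Pl3 μ s N y (ENNReal.ofReal (((N : ℝ) ^ ε * (EE' μ s e)⁻¹) ^ 2)) (ENNReal.ofReal (Real.exp (-(N : ℝ) ^ a))) A (JJ N i e sd)
        (range (N + 1)) ∧
      ∀ x z t : Px (Pn N y), pJ c' d' z = pJ c' d' x → NoMeet i (i + e) x.1 z.1 → NoMeet i (i + e) x.1 t.1 → NoMeet i (i + e) z.1 t.1 →
        A x.1 z.1 t.1 ∨ A z.1 x.1 t.1 := by
  intro ε θ hε hθ
  obtain ⟨δ₁, a₁, hδ₁, ha₁, N₁, h₁⟩ := pl3_left (μ := μ) (s := s) h ε θ hε hθ
  obtain ⟨δ₂, a₂, hδ₂, ha₂, N₂, h₂⟩ := pl3_right (μ := μ) (s := s) h ε θ hε hθ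
  refine ⟨min δ₁ δ₂, min a₁ a₂, lt_min hδ₁ hδ₂, lt_min ha₁ ha₂, N₁ + N₂ + 1, ?_⟩
  intro N hN e he y hyN hyc i c' d' hi hc hd hdN sd
  have hN1 : 1 ≤ N := by omega
  have hwd : 0 ≤ wd' μ s N := zero_le_one.trans (le_max_left (1 : ℝ) (wd μ s N))
  have hcd : ∀ x z : Px (Pn N y), pJ c' d' z = pJ c' d' x → pos x.1 c' = pos z.1 c' ∧ pos x.1 d' = pos z.1 d' := fun x z hz =>
    ⟨(ps_of_le hz le_rfl).symm, (ps_of_ge hz le_rfl).symm⟩
  cases sd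
  · obtain ⟨M, m1, m2⟩ := h₁ N (by omega) N e (by omega) le_rfl he y hyN
      (hyc.trans (mul_le_mul_of_nonneg_right (rp_le86 hN1 (min_le_left _ _)) hwd)) i hi (by omega) c' d' hdN
    refine ⟨Adm N (lvL N e (i + e)) M c' d', on3_Adm fun n _ => le_rfl, ?_, fun x z t hz g1 g2 g3 => ?_⟩
    · exact Pl3.weak52 m2 le_rfl (ENNReal.ofReal_le_ofReal (exp_rp86 hN1 (min_le_left _ _)))
    · exact tri_left m1 hc hd hdN (hcd x z hz).1 (hcd x z hz).2 (pos_eq0 _ _) (pos_eqN x t) (pos_eq0 _ _) (pos_eqN z t) g1 g2 g3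
  · obtain ⟨he1, M, m1, m2⟩ := h₂ N (by omega) N e (by omega) le_rfl he y hyN
      (hyc.trans (mul_le_mul_of_nonneg_right (rp_le86 hN1 (min_le_right _ _)) hwd)) i hi (by omega) c' d' hdN
    refine ⟨Adm N (lvR N e i) M c' d', on3_Adm fun n _ => min_le_left _ _, ?_, fun x z t hz g1 g2 g3 => ?_⟩
    · exact Pl3.weak52 m2 le_rfl (ENNReal.ofReal_le_ofReal (exp_rp86 hN1 (min_le_right _ _)))
    · exact tri_right he1 m1 hc hd hdN (hcd x z hz).1 (hcd x z hz).2 (pos_eq0 _ _) (pos_eqN x t) (pos_eq0 _ _) (pos_eqN z t) g1 g2 g3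

/-- **THE PRICE OF ONE PAIR WHICH LEAVES A THIRD PATH, ANY WEIGHT WHICH IS BLIND ON ONE SIDE.** -/
theorem g3_side [IsProbabilityMeasure μ] {c₀ C₀ : ℝ} {n₀ : ℕ} (h : In μ s c₀ C₀ n₀) : ∀ ε θ : ℝ, 0 < ε → 0 < θ →
    ∃ δ κ c₂ : ℝ, 0 < δ ∧ 0 < κ ∧ 0 < c₂ ∧ ∃ N₀ : ℕ, ∀ N : ℕ, N₀ ≤ N → ∀ e : ℕ, (N : ℝ) ^ θ ≤ e →
    ∀ y : ℕ, y ≤ N → |(y : ℝ) - sl μ s * N| ≤ ((N : ℝ) ^ δ * wd' μ s N) → ∀ i c' d' : ℕ, 1 ≤ i → c' ≤ i → i + e ≤ d' → d' ≤ N →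
    ∀ (sd : Bool) (q : ℝ), Real.exp (-(N : ℝ) ^ κ) ≤ q → ∀ f : Env × Finset ℕ → Px (Pn N y) → ℝ, (∀ x, Measurable fun ω => f ω x) →
    (∀ ω, Mp (pJ c' d') (f ω)) → (∀ ω x, 0 ≤ f ω x) → (∀ ω x, f ω x ≤ 1) →
    (∀ (η η' : Env) A x, (∃ E : Finset Pt, (∀ q ∈ E, 0 ≤ q.1 ∧ q.1.toNat ∈ JJ N i e sd) ∧ ∀ q, q ∉ E → η q = η' q) →
      f (η, A) x = f (η', A) x) →
    ∫ ω, gm (wm μ s N (Pn N y) ω) (fun x => cE (wm μ s N (Pn N y) ω) (pJ c' d') (UK (wm μ s N (Pn N y) ω) (NI i (i + e)) q x) x *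
        f ω x) ∂(Pm μ N) ≤
      ((N : ℝ) ^ ε * (EE' μ s e)⁻¹) ^ 2 * ∫ ω, gm (wm μ s N (Pn N y) ω) (f ω) ∂(Pm μ N) + Real.exp (-(N : ℝ) ^ c₂) := by
  intro ε θ hε hθ
  obtain ⟨δ, a, hδ, ha, N₁, hP⟩ := pl3_both (μ := μ) (s := s) h (ε / 2) θ (by positivity) hθ
  obtain ⟨κ, c₂, hκ, hc₂, N₂, hX⟩ := num_e3 ha
  obtain ⟨N₃, hN₃⟩ := ev_two86 (show 0 < κ / 2 by positivity)
  obtain ⟨N₄, hN₄⟩ := ev_two86 (show 0 < c₂ / 2 by positivity)
  obtain ⟨N₅, hN₅⟩ := ev_two86 (show 0 < ε / 2 by positivity)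
  refine ⟨δ, κ / 2, c₂ / 2, hδ, by positivity, by positivity, N₁ + N₂ + N₃ + N₄ + N₅ + 1, ?_⟩
  intro N hN e he y hyN hyc i c' d' hi hc hd hdN sd q hq f hfm hfp hf0 hf1 hfo
  obtain ⟨A, A1, A2, A3⟩ := hP N (by omega) e he y hyN hyc i c' d' hi hc hd hdN sd
  obtain ⟨X, hXX⟩ := hX N (by omega) N le_rfl
  have hq0 : 0 < q := (Real.exp_pos _).trans_le hq
  have hN0 : (0 : ℝ) < N := by exact_mod_cast (show 0 < N by omega)
  have n3 := hN₃ N (by omega)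
  have n4 := hN₄ N (by omega)
  have n5 := hN₅ N (by omega)
  have k := g3_int (μ := μ) (s := s) hyN ⟨by omega, hdN⟩ A1 (sq_nonneg _) (Real.exp_pos _).le A2 A3 hq0 X hfm hfp hf0 hf1 hfo
  -- the level
  have q3 : (N : ℝ) ^ κ = (N : ℝ) ^ (κ / 2) * (N : ℝ) ^ (κ / 2) := by
    rw [← Real.rpow_add hN0, add_halves]
  have q4 : (N : ℝ) ^ c₂ = (N : ℝ) ^ (c₂ / 2) * (N : ℝ) ^ (c₂ / 2) := by
    rw [← Real.rpow_add hN0, add_halves]
  have q5 : (N : ℝ) ^ ε = (N : ℝ) ^ (ε / 2) * (N : ℝ) ^ (ε / 2) := by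
    rw [← Real.rpow_add hN0, add_halves]
  have t2 : (2 : ℝ) ≤ Real.exp 1 := by linarith [Real.add_one_le_exp (1 : ℝ)]
  have b1 : (q / 2)⁻¹ ≤ Real.exp ((N : ℝ) ^ κ) := by
    have b2 : (q / 2)⁻¹ = 2 * q⁻¹ := by
      rw [inv_div]
      ring
    have b3 : q⁻¹ ≤ Real.exp ((N : ℝ) ^ (κ / 2)) := by
      have b4 := inv_anti₀ (Real.exp_pos _) hq
      rwa [Real.exp_neg, inv_inv] at b4
    rw [b2]
    calc 2 * q⁻¹ ≤ Real.exp 1 * Real.exp ((N : ℝ) ^ (κ / 2)) := mul_le_mul t2 b3 (inv_nonneg.2 hq0.le) (Real.exp_pos _).le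
      _ = Real.exp (1 + (N : ℝ) ^ (κ / 2)) := (Real.exp_add _ _).symm
      _ ≤ Real.exp ((N : ℝ) ^ κ) := Real.exp_le_exp.2 (by
          rw [q3]
          nlinarith)
  obtain ⟨Z, hZ⟩ : ∃ Z, Z = Real.exp (2 * X) * Real.exp (-(N : ℝ) ^ a) + 2 * (((N : ℝ) + 1) ^ 2 * Real.exp (-X)) := ⟨_, rfl⟩
  have hZ0 : 0 ≤ Z := by rw [hZ]; positivity
  rw [← hZ] at hXX k
  have b5 := mul_le_mul_of_nonneg_right b1 hZ0
  have b6 : 2 * Real.exp (-(N : ℝ) ^ c₂) ≤ Real.exp (-(N : ℝ) ^ (c₂ / 2)) := by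
    calc 2 * Real.exp (-(N : ℝ) ^ c₂) ≤ Real.exp 1 * Real.exp (-(N : ℝ) ^ c₂) := mul_le_mul_of_nonneg_right t2 (Real.exp_pos _).le
      _ = Real.exp (1 + -(N : ℝ) ^ c₂) := (Real.exp_add _ _).symm
      _ ≤ Real.exp (-(N : ℝ) ^ (c₂ / 2)) := Real.exp_le_exp.2 (by
          rw [q4]
          nlinarith)
  have hI0 : 0 ≤ ∫ ω, gm (wm μ s N (Pn N y) ω) (f ω) ∂(Pm μ N) := by
    have := ne_Pn (N := N) (y := y) hyN
    exact integral_nonneg fun ω => gm_nonneg _ (hf0 ω)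
  obtain ⟨I, hI⟩ : ∃ I, I = ∫ ω, gm (wm μ s N (Pn N y) ω) (f ω) ∂(Pm μ N) := ⟨_, rfl⟩
  rw [← hI] at hI0 k ⊢
  obtain ⟨E, hE⟩ : ∃ E, E = (EE' μ s e)⁻¹ := ⟨_, rfl⟩
  obtain ⟨P, hPd⟩ : ∃ P, P = (N : ℝ) ^ (ε / 2) := ⟨_, rfl⟩
  rw [← hE, ← hPd] at k
  rw [← hPd] at q5 n5
  rw [q5, ← hE]
  have b7 : 2 * ((P * E) ^ 2 * I) ≤ (P * P * E) ^ 2 * I := by
    have b8 : 2 * (P * E) ^ 2 ≤ (P * P * E) ^ 2 := by
      have b9 : (P * P * E) ^ 2 = P ^ 2 * (P * E) ^ 2 := by ring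
      rw [b9]
      exact mul_le_mul_of_nonneg_right (by nlinarith) (sq_nonneg _)
    calc 2 * ((P * E) ^ 2 * I) = 2 * (P * E) ^ 2 * I := by ring
      _ ≤ (P * P * E) ^ 2 * I := mul_le_mul_of_nonneg_right b8 hI0
  linarith

end

end Pool.W7d29a1.C0.E3G52
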