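import Pool.Agent.W_7d29a1_C0.Two57
import Pool.Agent.W_7d29a1_C0.Mod92B

/-!
MP_7d29a1_pr, [CURV0]: TWO OUTSIDES OF A BLOCK, PRODUCT FORM (helper32), on `Two57` of helper57.

`SwapId w q NM Lc`: for the local functionals `g` the conditional means given two outsides differ by the exact two replica formula
with the kernel `NM` (no meeting). Consequences:
* `abs_cE_sub_le`: the weighted form `|cE g x - cE g x'| ≤ cE2 (NM (|g z| + |g z'|))`;
* `gv_cE_le`, `gc_cE_le`: variance and covariance of `cE H`, `H ≥ 0` local: `≤ sup H * gm2 (NM H)` (outer non meeting times `H`);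
* `gm2_abs_cV_sub_le`, `gc_cV_le`: for `V = cV q F`, `F = cE p g` local: outer non meeting TIMES inner non meeting, told
  from one base replica `y`, its free competitor `z` and a conditional competitor of `y` or of `z`.
* The model: `swapId`, `mp_NM`, `Lk_cE` (Markov property), `HB` (the functional `H_j = cV_{B'} (cE_B g_j)`), `OI` (outer times inner,
  the inner only given the outside of `B'`), `gs2_L1` (sum over two outsides of `J` of `|cE_J H x - cE_J H x'|`), `gs2_gc` (covariance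
  with any function), `gs2_pair`, `gs2_model` (two rows, weights `wm`, responses `gg`), `OI_le` (one sided events).
-/

set_option autoImplicit false
set_option linter.unusedSectionVars false

namespace Pool.Agent.W_7d29a1_C0.E4T32

open Finset MeasureTheory Pool.Agent.W_7d29a1_F Pool.Agent.W_7d29a1_X Pool.Agent.W_7d29a1_C0.Mod92
open Pool.W7d29a1.C0 (gz gm lse gz_pos gz_ne gm_nonneg gm_mono)
open Pool.W7d29a1.C0.VT31
open Pool.Agent.W_7d29a1_C0.Swap57

noncomputable section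

section Abs

variable {X : Type*} [Fintype X] [Nonempty X] {Y Y' : Type*} [DecidableEq Y] [DecidableEq Y']

/-- The swap identity for the functionals of the class `Lc`. -/
def SwapId (w : X → ℝ) (q : X → Y') (NM : X → X → ℝ) (Lc : (X → ℝ) → Prop) : Prop :=
  ∀ g, Lc g → ∀ x x', cE w q g x - cE w q g x' = cE2 w q (fun z z' => NM z z' * (g z - g z')) x x'

theorem abs_cE2_le (w : X → ℝ) (q : X → Y') (K : X → X → ℝ) (x x' : X) :
    |cE2 w q K x x'| ≤ cE2 w q (fun z z' => |K z z'|) x x' := by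
  rw [abs_le]
  constructor
  · rw [neg_le, ← neg_one_mul, ← cE2_mul]
    exact cE2_mono w q (fun z z' => by linarith [neg_abs_le (K z z')]) x x'
  · exact cE2_mono w q (fun z z' => le_abs_self _) x x'

theorem abs_cE_le' (w : X → ℝ) (q : X → Y') (f : X → ℝ) (x : X) : |cE w q f x| ≤ cE w q (fun z => |f z|) x := by
  rw [abs_le]
  constructor
  · rw [neg_le, ← Pi.neg_apply, ← cE_neg]
    exact cE_mono w q (fun z => by rw [Pi.neg_apply]; linarith [neg_abs_le (f z)]) x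
  · exact cE_mono w q (fun z => le_abs_self _) x

/-- **The weighted form.** -/
theorem abs_cE_sub_le {w : X → ℝ} {q : X → Y'} {NM : X → X → ℝ} {Lc : (X → ℝ) → Prop} (h : SwapId w q NM Lc)
    (h0 : ∀ z z', 0 ≤ NM z z') {g : X → ℝ} (hg : Lc g) (x x' : X) :
    |cE w q g x - cE w q g x'| ≤ cE2 w q (fun z z' => NM z z' * (|g z| + |g z'|)) x x' := by
  rw [h g hg]
  refine (abs_cE2_le w q _ x x').trans (cE2_mono w q (fun z z' => ?_) x x')
  rw [abs_mul, abs_of_nonneg (h0 z z')]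
  exact mul_le_mul_of_nonneg_left (abs_sub _ _) (h0 z z')

/-! ### Two replica means -/

theorem gm2_def' (w : X → ℝ) (K : X → X → ℝ) : gm2 w K = gm w fun z => gm w (K z) := rfl

theorem gm_unit (w : X → ℝ) (f : X → ℝ) (x : X) : cE w (fun _ : X => ()) f x = gm w f := by
  rw [gm_eq_cE]

/-- Fubini for two means. -/
theorem gm2_flip (w : X → ℝ) (K : X → X → ℝ) : gm2 w K = gm2 w fun z z' => K z' z := by
  obtain ⟨x⟩ := (inferInstance : Nonempty X)
  rw [← gm2_eq w K x x, ← gm2_eq w (fun z z' => K z' z) x x]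
  exact cE_comm w (fun _ : X => ()) (fun _ : X => ()) K x x

theorem gm2_mono' {w : X → ℝ} {K K' : X → X → ℝ} (h : ∀ z z', K z z' ≤ K' z z') : gm2 w K ≤ gm2 w K' := by
  obtain ⟨x⟩ := (inferInstance : Nonempty X)
  rw [← gm2_eq w K x x, ← gm2_eq w K' x x]
  exact cE2_mono w _ h x x

theorem gm2_add' (w : X → ℝ) (K K' : X → X → ℝ) : gm2 w (fun z z' => K z z' + K' z z') = gm2 w K + gm2 w K' := by
  obtain ⟨x⟩ := (inferInstance : Nonempty X)
  rw [← gm2_eq w K x x, ← gm2_eq w K' x x, ← gm2_eq w _ x x]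
  exact cE2_add w _ K K' x x

theorem gm2_smul' (w : X → ℝ) (c : ℝ) (K : X → X → ℝ) : gm2 w (fun z z' => c * K z z') = c * gm2 w K := by
  obtain ⟨x⟩ := (inferInstance : Nonempty X)
  rw [← gm2_eq w K x x, ← gm2_eq w _ x x]
  exact cE2_mul w _ c K x x

/-- The tower property under the full measure. -/
theorem gm2_cE2 (w : X → ℝ) (q : X → Y') (K : X → X → ℝ) : gm2 w (cE2 w q K) = gm2 w K := by
  obtain ⟨x⟩ := (inferInstance : Nonempty X)
  rw [← gm2_eq w K x x, ← gm2_eq w _ x x]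
  exact cE2_tower w (fun _ _ _ => rfl) K x x

/-- The covariance through two replicas. -/
theorem gc_eq_two (w f g : X → ℝ) : gc w f g = 1 / 2 * gm2 w fun z z' => (f z - f z') * (g z - g z') := by
  have e1 : gm2 w (fun z z' => (f z - f z') * (g z - g z')) =
      gm2 w (fun z _ => f z * g z) + (gm2 w (fun z z' => (-1) * (f z * g z')) +
        (gm2 w (fun z z' => (-1) * (f z' * g z)) + gm2 w (fun _ z' => f z' * g z'))) := by
    rw [← gm2_add', ← gm2_add', ← gm2_add']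
    congr 1
    funext z z'
    ring
  have hc : ∀ c : ℝ, gm w (fun _ : X => c) = c := fun c => by
    have h := gm_unit w (fun _ : X => c) (Classical.arbitrary X)
    rw [← h]
    exact congrFun (cE_of_meas w (show Mp (fun _ : X => ()) (fun _ : X => c) from fun _ _ _ => rfl)) _
  have hs : ∀ (c : ℝ) (f : X → ℝ), gm w (fun z => c * f z) = c * gm w f := fun c f => by
    rw [← gm_unit w (fun z => c * f z) (Classical.arbitrary X), ← gm_unit w f (Classical.arbitrary X)]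
    exact congrFun (cE_smul w (fun _ : X => ()) c f) _
  have e2 : gm2 w (fun z _ => f z * g z) = gm w (f * g) := by
    unfold gm2
    simp_rw [hc]
    rfl
  have e3 : gm2 w (fun _ z' => f z' * g z') = gm w (f * g) := by
    unfold gm2
    rw [hc]
    rfl
  have e4 : gm2 w (fun z z' => f z * g z') = gm w f * gm w g := by
    unfold gm2
    simp_rw [hs]
    have : (fun z => f z * gm w g) = fun z => gm w g * f z := by funext z; ring
    rw [this, hs]
    ring
  have e5 : gm2 w (fun z z' => f z' * g z) = gm w f * gm w g := by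
    rw [gm2_flip]
    exact e4
  rw [e1, gm2_smul', gm2_smul', e2, e3, e4, e5]
  unfold gc
  ring

theorem abs_gm2_le (w : X → ℝ) (K : X → X → ℝ) : |gm2 w K| ≤ gm2 w fun z z' => |K z z'| := by
  obtain ⟨x⟩ := (inferInstance : Nonempty X)
  rw [← gm2_eq w K x x, ← gm2_eq w (fun z z' => |K z z'|) x x]
  exact abs_cE2_le w _ K x x

/-- A covariance with one function of oscillation at most `h`. -/
theorem gc_le_osc {w f g : X → ℝ} {h : ℝ} (hg : ∀ z z', |g z - g z'| ≤ h) :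
    |gc w f g| ≤ h / 2 * gm2 w fun z z' => |f z - f z'| := by
  rw [gc_eq_two, abs_mul, abs_of_nonneg (by norm_num : (0 : ℝ) ≤ 1 / 2)]
  have h1 : gm2 w (fun z z' => |(f z - f z') * (g z - g z')|) ≤ gm2 w fun z z' => h * |f z - f z'| := by
    refine gm2_mono' fun z z' => ?_
    rw [abs_mul, mul_comm]
    exact mul_le_mul_of_nonneg_right (hg z z') (abs_nonneg _)
  rw [gm2_smul'] at h1
  have h2 := (abs_gm2_le w fun z z' => (f z - f z') * (g z - g z')).trans h1
  linarith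

/-- The difference of the conditional means under two free outsides. -/
theorem gm2_abs_cE_sub_le {w : X → ℝ} {q : X → Y'} {NM : X → X → ℝ} {Lc : (X → ℝ) → Prop} (h : SwapId w q NM Lc)
    (h0 : ∀ z z', 0 ≤ NM z z') (hs : ∀ z z', NM z z' = NM z' z) {H : X → ℝ} (hH : Lc H) (hH0 : ∀ z, 0 ≤ H z) :
    gm2 w (fun x x' => |cE w q H x - cE w q H x'|) ≤ 2 * gm2 w fun z z' => NM z z' * H z := by
  have h1 : gm2 w (fun x x' => |cE w q H x - cE w q H x'|) ≤
      gm2 w (cE2 w q fun z z' => NM z z' * (|H z| + |H z'|)) := gm2_mono' fun x x' => abs_cE_sub_le h h0 hH x x'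
  rw [gm2_cE2] at h1
  have e1 : gm2 w (fun z z' => NM z z' * (|H z| + |H z'|)) =
      gm2 w (fun z z' => NM z z' * H z) + gm2 w (fun z z' => NM z z' * H z') := by
    rw [← gm2_add']
    congr 1
    funext z z'
    rw [abs_of_nonneg (hH0 z), abs_of_nonneg (hH0 z')]
    ring
  have e2 : gm2 w (fun z z' => NM z z' * H z') = gm2 w (fun z z' => NM z z' * H z) := by
    rw [gm2_flip]
    congr 1
    funext z z'
    rw [hs z' z]
  rw [e1, e2] at h1
  linarith

/-- **Covariance of the conditional mean of a local functional `H ≥ 0`** with a function of oscillation at most `h`. -/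
theorem gc_cE_le {w : X → ℝ} {q : X → Y'} {NM : X → X → ℝ} {Lc : (X → ℝ) → Prop} (h : SwapId w q NM Lc)
    (h0 : ∀ z z', 0 ≤ NM z z') (hs : ∀ z z', NM z z' = NM z' z) {H : X → ℝ} (hH : Lc H) (hH0 : ∀ z, 0 ≤ H z)
    {g : X → ℝ} {osc : ℝ} (ho : 0 ≤ osc) (hg : ∀ z z', |g z - g z'| ≤ osc) :
    |gc w (cE w q H) g| ≤ osc * gm2 w fun z z' => NM z z' * H z := by
  have h1 := gc_le_osc (w := w) (f := cE w q H) hg
  have h2 := mul_le_mul_of_nonneg_left (gm2_abs_cE_sub_le h h0 hs hH hH0) (by linarith : 0 ≤ osc / 2)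
  linarith

/-- **Variance of the conditional mean of a local functional `0 ≤ H ≤ M`.** -/
theorem gv_cE_le' {w : X → ℝ} {q : X → Y'} {NM : X → X → ℝ} {Lc : (X → ℝ) → Prop} (h : SwapId w q NM Lc)
    (h0 : ∀ z z', 0 ≤ NM z z') (hs : ∀ z z', NM z z' = NM z' z) {H : X → ℝ} (hH : Lc H) (hH0 : ∀ z, 0 ≤ H z) {M : ℝ}
    (hM : ∀ z, H z ≤ M) : gv w (cE w q H) ≤ M * gm2 w fun z z' => NM z z' * H z := by
  obtain ⟨x0⟩ := (inferInstance : Nonempty X)
  have hM0 : 0 ≤ M := (hH0 x0).trans (hM x0)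
  have hc : ∀ x, cE w q H x ≤ M := fun x => by
    have e := cE_mono w q hM x
    rwa [cE_of_meas w (show Mp q (fun _ : X => M) from fun _ _ _ => rfl)] at e
  refine (le_abs_self _).trans (gc_cE_le h h0 hs hH hH0 hM0 fun z z' => ?_)
  have a := cE_nonneg w q hH0 z
  have b := cE_nonneg w q hH0 z'
  have c := hc z
  have d := hc z'
  rw [abs_le]
  constructor <;> linarith

/-! ### Conditional variances of local functionals -/

theorem cE_congr_fib {w : X → ℝ} {q : X → Y'} {f g : X → ℝ} {x : X} (h : ∀ z, q z = q x → f z = g z) :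
    cE w q f x = cE w q g x := by
  unfold cE
  congr 1
  refine sum_congr rfl fun z _ => ?_
  split_ifs with hz
  · rw [h z hz]
  · rfl

/-- The rest functional of the two step replacement. -/
def RR (w : X → ℝ) (q : X → Y') (NMo Ψ : X → X → ℝ) (x x' y : X) : ℝ :=
  cE w q (fun t => cE2 w q (fun z z' => NMo z z' * (Ψ z t + Ψ z' t)) x x') y

theorem abs_A_sub_le {w : X → ℝ} {q : X → Y'} {NMo : X → X → ℝ} {Lc : (X → ℝ) → Prop} (h : SwapId w q NMo Lc)
    (h0 : ∀ z z', 0 ≤ NMo z z') {Ψ : X → X → ℝ} (hΨ0 : ∀ z z', 0 ≤ Ψ z z') (hΨ : ∀ t, Lc fun z => Ψ z t) (x x' y : X) :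
    |cE2 w q Ψ x y - cE2 w q Ψ x' y| ≤ RR w q NMo Ψ x x' y := by
  have e1 : ∀ x, cE2 w q Ψ x y = cE w q (fun t => cE w q (fun z => Ψ z t) x) y := fun x => cE_comm w q q Ψ x y
  have e2 : cE2 w q Ψ x y - cE2 w q Ψ x' y =
      cE w q (fun t => cE w q (fun z => Ψ z t) x - cE w q (fun z => Ψ z t) x') y := by
    rw [e1, e1]
    have := congrFun (cE_sub w q (fun t => cE w q (fun z => Ψ z t) x) fun t => cE w q (fun z => Ψ z t) x') y
    rw [Pi.sub_apply] at this
    rw [← this]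
    rfl
  rw [e2]
  refine (abs_cE_le' w q _ y).trans (cE_mono w q (fun t => ?_) y)
  refine (abs_cE_sub_le h h0 (hΨ t) x x').trans (cE2_mono w q (fun z z' => ?_) x x')
  rw [abs_of_nonneg (hΨ0 z t), abs_of_nonneg (hΨ0 z' t)]

theorem RR_symm {w : X → ℝ} {q : X → Y'} {NMo Ψ : X → X → ℝ} (hs : ∀ z z', NMo z z' = NMo z' z) (x x' y : X) :
    RR w q NMo Ψ x x' y = RR w q NMo Ψ x' x y := by
  unfold RR
  congr 1
  funext t
  unfold cE2
  rw [cE_comm w q q (fun z z' => NMo z z' * (Ψ z t + Ψ z' t)) x x']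
  congr 1
  funext z'
  congr 1
  funext z
  rw [hs z z']
  ring

theorem gm2_RR (w : X → ℝ) (q : X → Y') (NMo Ψ : X → X → ℝ) :
    gm2 w (fun x x' => RR w q NMo Ψ x x' x) =
      gm2 w fun z z' => NMo z z' * (cE w q (fun t => Ψ z t) z + cE w q (fun t => Ψ z' t) z) := by
  unfold gm2
  have e1 : ∀ x, gm w (fun x' => RR w q NMo Ψ x x' x) =
      cE w q (fun z => gm w fun z' => NMo z z' * (cE w q (fun t => Ψ z t) z + cE w q (fun t => Ψ z' t) z)) x := by
    intro x
    have a1 : ∀ x', RR w q NMo Ψ x x' x =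
        cE w q (fun z => cE w q (fun z' => cE w q (fun t => NMo z z' * (Ψ z t + Ψ z' t)) x) x') x := by
      intro x'
      unfold RR cE2
      rw [cE_comm w q q (fun t z => cE w q (fun z' => NMo z z' * (Ψ z t + Ψ z' t)) x') x x]
      congr 1
      funext z
      exact cE_comm w q q (fun t z' => NMo z z' * (Ψ z t + Ψ z' t)) x x'
    simp_rw [a1]
    rw [← gm_unit w _ x, cE_comm w (fun _ : X => ()) q
      (fun x' z => cE w q (fun z' => cE w q (fun t => NMo z z' * (Ψ z t + Ψ z' t)) x) x') x x]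
    refine cE_congr_fib fun z hz => ?_
    have a2 : cE w (fun _ : X => ()) (fun x' => cE w q (fun z' => cE w q (fun t => NMo z z' * (Ψ z t + Ψ z' t)) x) x') x =
        gm w (fun z' => cE w q (fun t => NMo z z' * (Ψ z t + Ψ z' t)) x) := by
      rw [gm_unit]
      exact gm_cE w q fun z' => cE w q (fun t => NMo z z' * (Ψ z t + Ψ z' t)) x
    rw [a2]
    congr 1
    funext z'
    have a3 : cE w q (fun t => NMo z z' * (Ψ z t + Ψ z' t)) x = cE w q (fun t => NMo z z' * (Ψ z t + Ψ z' t)) z :=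
      cE_meas w q _ x z hz.symm
    have a4 : (fun t => NMo z z' * (Ψ z t + Ψ z' t)) = NMo z z' • ((fun t => Ψ z t) + fun t => Ψ z' t) := by
      funext t
      rfl
    rw [a3, a4, cE_smul, cE_add]
    rfl
  simp_rw [e1]
  exact gm_cE w q _

/-- **Two conditional variances**: the difference of `V = cV q F` for two free outsides. -/
theorem gm2_abs_cV_sub_le' {w : X → ℝ} {q : X → Y'} {NMo : X → X → ℝ} {Lc : (X → ℝ) → Prop} (h : SwapId w q NMo Lc)
    (h0 : ∀ z z', 0 ≤ NMo z z') (hs : ∀ z z', NMo z z' = NMo z' z) {F : X → ℝ} (hF : ∀ c, Lc fun z => (F z - c) ^ 2) :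
    gm2 w (fun x x' => |cV w q F x - cV w q F x'|) ≤
      gm2 w fun z z' => NMo z z' * (cE w q (fun t => (F z - F t) ^ 2) z + cE w q (fun t => (F z' - F t) ^ 2) z) := by
  set Ψ : X → X → ℝ := fun z z' => (F z - F z') ^ 2 with hΨ
  have hΨ0 : ∀ z z', 0 ≤ Ψ z z' := fun z z' => sq_nonneg _
  have hΨs : ∀ z z', Ψ z z' = Ψ z' z := fun z z' => by rw [hΨ]; ring
  have hA : ∀ x y, cE2 w q Ψ x y = cE2 w q Ψ y x := fun x y => by
    unfold cE2
    rw [cE_comm w q q Ψ x y]
    congr 1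
    funext z
    congr 1
    funext z'
    exact hΨs z' z
  have e1 : ∀ x x', |cV w q F x - cV w q F x'| ≤ 1 / 2 * (RR w q NMo Ψ x x' x + RR w q NMo Ψ x x' x') := by
    intro x x'
    rw [cV_eq_two, cV_eq_two]
    have b1 := abs_A_sub_le h h0 hΨ0 (fun t => hF (F t)) x x' x
    have b2 := abs_A_sub_le h h0 hΨ0 (fun t => hF (F t)) x x' x'
    have b3 : 1 / 2 * cE2 w q Ψ x x - 1 / 2 * cE2 w q Ψ x' x' =
        1 / 2 * ((cE2 w q Ψ x x - cE2 w q Ψ x' x) + (cE2 w q Ψ x x' - cE2 w q Ψ x' x')) := by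
      rw [hA x x']
      ring
    show |1 / 2 * cE2 w q Ψ x x - 1 / 2 * cE2 w q Ψ x' x'| ≤ _
    rw [b3, abs_mul, abs_of_nonneg (by norm_num : (0 : ℝ) ≤ 1 / 2)]
    refine mul_le_mul_of_nonneg_left ((abs_add_le _ _).trans (add_le_add b1 b2)) (by norm_num)
  have e2 : gm2 w (fun x x' => RR w q NMo Ψ x x' x') = gm2 w (fun x x' => RR w q NMo Ψ x x' x) := by
    rw [gm2_flip]
    congr 1
    funext x x'
    exact RR_symm hs x' x x
  calc gm2 w (fun x x' => |cV w q F x - cV w q F x'|)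
      ≤ gm2 w (fun x x' => 1 / 2 * (RR w q NMo Ψ x x' x + RR w q NMo Ψ x x' x')) := gm2_mono' e1
    _ = gm2 w (fun x x' => RR w q NMo Ψ x x' x) := by
        rw [gm2_smul', gm2_add', e2]
        ring
    _ = _ := gm2_RR w q NMo Ψ

/-- **Outer non meeting times inner non meeting.** `F` differs between two outsides of the inner block (`p`) only through `NMi`; the
outer kernel `NMo` does not look inside of the inner block. -/
theorem gm2_abs_cV_sub_le {w : X → ℝ} {q : X → Y'} {p : X → Y} (hc : Crs q p) {NMo NMi : X → X → ℝ} {Lc : (X → ℝ) → Prop}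
    (h : SwapId w q NMo Lc) (h0 : ∀ z z', 0 ≤ NMo z z') (hs : ∀ z z', NMo z z' = NMo z' z)
    (hp : ∀ z', Mp p fun z => NMo z z') (hi0 : ∀ z z', 0 ≤ NMi z z') (hi1 : ∀ z z', NMi z z' ≤ 1)
    {F : X → ℝ} (hF : ∀ c, Lc fun z => (F z - c) ^ 2) {L : ℝ} (hd : Dif w p NMi L F) :
    gm2 w (fun x x' => |cV w q F x - cV w q F x'|) ≤
      L ^ 2 * gm2 w fun y z => NMo y z * (cE w q (NMi y) y + cE w q (NMi y) z) := by
  -- the pointwise bound of the square
  have e1 : ∀ z z', (F z - F z') ^ 2 ≤ L ^ 2 * cE2 w p NMi z z' := by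
    intro z z'
    have a0 := cE2_nonneg w p hi0 z z'
    have a1 := cE2_le_one w p hi1 z z'
    have a3 : (F z - F z') ^ 2 ≤ (L * cE2 w p NMi z z') ^ 2 := by
      rw [← sq_abs (F z - F z')]
      exact pow_le_pow_left₀ (abs_nonneg _) (hd z z') 2
    calc (F z - F z') ^ 2 ≤ (L * cE2 w p NMi z z') ^ 2 := a3
      _ = L ^ 2 * (cE2 w p NMi z z' * cE2 w p NMi z z') := by ring
      _ ≤ L ^ 2 * (cE2 w p NMi z z' * 1) :=
          mul_le_mul_of_nonneg_left (mul_le_mul_of_nonneg_left a1 a0) (sq_nonneg L)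
      _ = L ^ 2 * cE2 w p NMi z z' := by ring
  -- the conditional mean over the second inner replica
  have e2 : ∀ z u, cE w q (fun t => (F z - F t) ^ 2) u ≤ L ^ 2 * cE w p (fun y => cE w q (NMi y) u) z := by
    intro z u
    have a1 := cE_mono w q (fun t => e1 z t) u
    have a2 : cE w q (fun t => L ^ 2 * cE2 w p NMi z t) u = L ^ 2 * cE w q (fun t => cE2 w p NMi z t) u :=
      congrFun (cE_smul w q (L ^ 2) fun t => cE2 w p NMi z t) u
    have a3 : cE w q (fun t => cE2 w p NMi z t) u = cE w p (fun y => cE w q (NMi y) u) z := by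
      unfold cE2
      rw [cE_comm w q p (fun t y => cE w p (NMi y) t) u z]
      congr 1
      funext y
      exact congrFun (cE_tower w hc (NMi y)) u
    rw [a2, a3] at a1
    exact a1
  refine (gm2_abs_cV_sub_le' h h0 hs hF).trans ?_
  -- the two pieces
  have e3 : gm2 w (fun z z' => NMo z z' * (cE w q (fun t => (F z - F t) ^ 2) z + cE w q (fun t => (F z' - F t) ^ 2) z)) ≤
      L ^ 2 * (gm2 w (fun z z' => NMo z z' * cE w p (fun y => cE w q (NMi y) z) z) +
        gm2 w (fun z z' => NMo z z' * cE w p (fun y => cE w q (NMi y) z) z')) := by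
    rw [← gm2_add', ← gm2_smul']
    refine gm2_mono' fun z z' => ?_
    have b1 := e2 z z
    have b2 := e2 z' z
    have b3 := mul_le_mul_of_nonneg_left (add_le_add b1 b2) (h0 z z')
    linarith
  refine e3.trans (mul_le_mul_of_nonneg_left (le_of_eq ?_) (sq_nonneg L))
  -- first piece: the base replica is `y` itself
  have f1 : gm2 w (fun z z' => NMo z z' * cE w p (fun y => cE w q (NMi y) z) z) =
      gm2 w fun y z => NMo y z * cE w q (NMi y) y := by
    rw [gm2_flip, gm2_flip w fun y z => NMo y z * cE w q (NMi y) y]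
    unfold gm2
    congr 1
    funext z'
    show gm w (fun z => NMo z z' * cE w p (fun y => cE w q (NMi y) z) z) = gm w (fun z => NMo z z' * cE w q (NMi z) z)
    have g1 : (fun z => NMo z z' * cE w p (fun y => cE w q (NMi y) z) z) =
        (fun z => NMo z z') * cE w p (fun y => cE w q (NMi y) y) := by
      funext z
      rw [Pi.mul_apply]
      congr 1
      refine cE_congr_fib fun y hy => ?_
      exact cE_meas w q (NMi y) z y (hc z y hy.symm)
    have g2 := gm_mul_cE w (hp z') fun y => cE w q (NMi y) y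
    rw [g1, g2]
    rfl
  -- second piece
  have f2 : gm2 w (fun z z' => NMo z z' * cE w p (fun y => cE w q (NMi y) z) z') =
      gm2 w fun y z => NMo y z * cE w q (NMi y) z := by
    rw [gm2_flip w fun y z => NMo y z * cE w q (NMi y) z]
    unfold gm2
    congr 1
    funext z
    show gm w (fun z' => NMo z z' * cE w p (fun y => cE w q (NMi y) z) z') = gm w (fun z' => NMo z' z * cE w q (NMi z') z)
    have g1 : (fun z' => NMo z z' * cE w p (fun y => cE w q (NMi y) z) z') =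
        (fun z' => NMo z' z) * cE w p (fun y => cE w q (NMi y) z) := by
      funext z'
      rw [Pi.mul_apply, hs z z']
    have g2 := gm_mul_cE w (hp z) fun y => cE w q (NMi y) z
    rw [g1, g2]
    rfl
  rw [f1, f2, ← gm2_add']
  congr 1
  funext y z
  ring

/-- Variance of a conditional variance: outer non meeting times inner non meeting. -/
theorem gc_cV_le {w : X → ℝ} {q : X → Y'} {p : X → Y} (hc : Crs q p) {NMo NMi : X → X → ℝ} {Lc : (X → ℝ) → Prop}
    (h : SwapId w q NMo Lc) (h0 : ∀ z z', 0 ≤ NMo z z') (hs : ∀ z z', NMo z z' = NMo z' z)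
    (hp : ∀ z', Mp p fun z => NMo z z') (hi0 : ∀ z z', 0 ≤ NMi z z') (hi1 : ∀ z z', NMi z z' ≤ 1)
    {F : X → ℝ} (hF : ∀ c, Lc fun z => (F z - c) ^ 2) {L : ℝ} (hd : Dif w p NMi L F)
    {g : X → ℝ} {osc : ℝ} (ho : 0 ≤ osc) (hg : ∀ z z', |g z - g z'| ≤ osc) :
    |gc w (cV w q F) g| ≤ osc * L ^ 2 / 2 * gm2 w fun y z => NMo y z * (cE w q (NMi y) y + cE w q (NMi y) z) := by
  have h1 := gc_le_osc (w := w) (f := cV w q F) hg
  have h2 := mul_le_mul_of_nonneg_left (gm2_abs_cV_sub_le hc h h0 hs hp hi0 hi1 hF hd) (by linarith : 0 ≤ osc / 2)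
  linarith

/-- The conditional two replica mean on the diagonal, told from the base replica. -/
theorem gm2_cE2_diag (w : X → ℝ) {q : X → Y'} {NMo : X → X → ℝ} (hp : ∀ z', Mp q fun z => NMo z z') (NMi : X → X → ℝ) :
    gm2 w (fun z z' => NMo z z' * cE2 w q NMi z z) = gm2 w fun y z' => NMo y z' * cE w q (NMi y) y := by
  rw [gm2_flip, gm2_flip w fun y z' => NMo y z' * cE w q (NMi y) y]
  unfold gm2
  congr 1
  funext z'
  show gm w (fun z => NMo z z' * cE2 w q NMi z z) = gm w (fun z => NMo z z' * cE w q (NMi z) z)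
  have g1 : (fun z => NMo z z' * cE2 w q NMi z z) = (fun z => NMo z z') * cE w q (fun y => cE w q (NMi y) y) := by
    funext z
    rw [Pi.mul_apply]
    congr 1
    unfold cE2
    refine cE_congr_fib fun y hy => ?_
    exact cE_meas w q (NMi y) z y hy.symm
  have g2 := gm_mul_cE w (hp z') fun y => cE w q (NMi y) y
  rw [g1, g2]
  rfl

end Abs

/-! ### The model: paths -/

section Model

variable {μ : Measure ℝ} {s : ℝ} {N : ℕ} {Q : Finset (Finset ℕ)} [Nonempty (Px Q)] [SwQ Q]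

theorem NM_symm (c al be d : ℕ) (S S' : Px Q) : NM c al be d S S' = NM c al be d S' S := by
  unfold NM
  rw [Mt_symm]

/-- The swap identity for the block `[c, d)` and the functionals of the rows `[al, be]`. -/
theorem swapId {c al be d : ℕ} (hab : al ≤ be) {w : Px Q → ℝ} (hw : Wk c al be d w) :
    SwapId w (pJ c d) (NM c al be d) (Lk al be) := by
  intro g hg x x'
  rw [cE_sub_eq]
  have e2 := cE2_Mt_zero hab hw hg x x'
  have e3 : cE2 w (pJ c d) (fun S S' => g S - g S') x x' =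
      cE2 w (pJ c d) (fun S S' => NM c al be d S S' * (g S - g S')) x x' +
        cE2 w (pJ c d) (fun S S' => (1 - NM c al be d S S') * (g S - g S')) x x' := by
    rw [← cE2_add]
    exact cE2_congr w _ (fun S S' => by ring) _ _
  rw [e3, e2, add_zero]

omit [SwQ Q] in
/-- The outer kernel does not look inside of the inner block. -/
theorem mp_NM {c al be d : ℕ} (S' : Px Q) : Mp (pJ al be) fun S : Px Q => NM c al be d S S' := by
  intro S T h
  have h1 : ∀ i, i ≤ al ∨ be ≤ i → ps S i = ps T i := fun i hi =>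
    hi.elim (fun h2 => ps_of_le h h2) fun h2 => ps_of_ge h h2
  have h2 : Swap57.Mt c al be d S S' = Swap57.Mt c al be d T S' := by
    unfold Swap57.Mt Eqp
    refine congrArg₂ And ?_ ?_
    · refine congrArg Exists (funext fun i => ?_)
      refine propext ⟨fun h3 => ⟨h3.1, h3.2.1, ?_⟩, fun h3 => ⟨h3.1, h3.2.1, ?_⟩⟩
      · rw [← h1 i (Or.inl h3.2.1)]; exact h3.2.2
      · rw [h1 i (Or.inl h3.2.1)]; exact h3.2.2
    · refine congrArg Exists (funext fun i => ?_)
      refine propext ⟨fun h3 => ⟨h3.1, h3.2.1, ?_⟩, fun h3 => ⟨h3.1, h3.2.1, ?_⟩⟩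
      · rw [← h1 i (Or.inr h3.1)]; exact h3.2.2
      · rw [h1 i (Or.inr h3.1)]; exact h3.2.2
  show NM c al be d S S' = NM c al be d T S'
  unfold NM
  rw [h2]

/-- **Markov property**: the conditional mean given the outside of `[c, d)` of a functional of the rows `[c, d]` is a function of
the positions in the rows `c` and `d`. -/
theorem Lk_cE {c d : ℕ} (hcd : c ≤ d) {w : Px Q → ℝ} (hw : Wk c c d d w) {g : Px Q → ℝ} (hg : Lk c d g) :
    Lk c d (cE w (pJ c d) g) := by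
  intro S S' h
  have h1 := swapId hcd hw g hg S S'
  have h2 : cE2 w (pJ c d) (fun z z' => NM c c d d z z' * (g z - g z')) S S' = 0 := by
    have e : cE2 w (pJ c d) (fun z z' => NM c c d d z z' * (g z - g z')) S S' = cE2 w (pJ c d) (fun _ _ => 0) S S' := by
      unfold cE2
      refine cE_congr_fib fun z hz => cE_congr_fib fun z' hz' => ?_
      have a1 : ps z c = ps z' c := by
        rw [ps_of_le hz le_rfl, ps_of_le hz' le_rfl]
        exact h c le_rfl hcd
      have a2 : ps z d = ps z' d := by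
        rw [ps_of_ge hz le_rfl, ps_of_ge hz' le_rfl]
        exact h d hcd le_rfl
      show NM c c d d z z' * (g z - g z') = 0
      rw [NM_of (show Swap57.Mt c c d d z z' from ⟨⟨c, le_rfl, le_rfl, a1⟩, d, le_rfl, le_rfl, a2⟩), zero_mul]
    rw [e]
    have h3 := cE2_mul w (pJ (Q := Q) c d) 0 (fun _ _ => 0) S S'
    simpa using h3
  rw [h2] at h1
  linarith

omit [Nonempty (Px Q)] [SwQ Q] in
theorem Lk_mono {al be al' be' : ℕ} (h1 : al' ≤ al) (h2 : be ≤ be') {g : Px Q → ℝ} (hg : Lk al be g) : Lk al' be' g :=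
  fun S S' h => hg S S' fun i hi hi' => h i (h1.trans hi) (hi'.trans h2)

omit [Nonempty (Px Q)] [SwQ Q] in
theorem Lk_mul {al be : ℕ} {g g' : Px Q → ℝ} (hg : Lk al be g) (hg' : Lk al be g') : Lk al be (g * g') :=
  fun S S' h => by rw [Pi.mul_apply, Pi.mul_apply, hg S S' h, hg' S S' h]

omit [Nonempty (Px Q)] [SwQ Q] in
theorem Lk_sub {al be : ℕ} {g g' : Px Q → ℝ} (hg : Lk al be g) (hg' : Lk al be g') : Lk al be (g - g') :=
  fun S S' h => by rw [Pi.sub_apply, Pi.sub_apply, hg S S' h, hg' S S' h]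

theorem Lk_cV {c d : ℕ} (hcd : c ≤ d) {w : Px Q → ℝ} (hw : Wk c c d d w) {g : Px Q → ℝ} (hg : Lk c d g) :
    Lk c d (cV w (pJ c d) g) :=
  Lk_sub (Lk_cE hcd hw (Lk_mul hg hg)) (Lk_mul (Lk_cE hcd hw hg) (Lk_cE hcd hw hg))

/-- The inner functional of GS: the conditional variance, given the outside of `B' = [c1, d1)`, of the mean given the outside of
`B = [c2, d2)`. -/
def HB (w : Px Q → ℝ) (c1 d1 c2 d2 : ℕ) (g : Px Q → ℝ) : Px Q → ℝ := cV w (pJ c1 d1) (cE w (pJ c2 d2) g)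

variable {c0 c1 c2 al be d2 d1 d0 : ℕ} {w : Px Q → ℝ} {g : Px Q → ℝ} {M : ℝ}

omit [SwQ Q] in
theorem HB_nonneg (S : Px Q) : 0 ≤ HB w c1 d1 c2 d2 g S := cV_nonneg w _ _ S

omit [SwQ Q] in
theorem HB_le (hM : ∀ S, |g S| ≤ M) (S : Px Q) : HB w c1 d1 c2 d2 g S ≤ M ^ 2 :=
  cV_le_sq w _ (fun x => abs_cE_le w _ hM x) S

theorem HB_Lk (h1 : c1 ≤ c2) (h2 : c2 ≤ d2) (h3 : d2 ≤ d1) (hw1 : Wk c1 c1 d1 d1 w) (hw2 : Wk c2 c2 d2 d2 w)
    (hg : Lk c2 d2 g) : Lk c1 d1 (HB w c1 d1 c2 d2 g) :=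
  Lk_cV (h1.trans (h2.trans h3)) hw1 (Lk_mono h1 h3 (Lk_cE h2 hw2 hg))

/-- The inner tie: the two inner replicas do not meet on both sides of the window inside of `B`. -/
theorem HB_le_NM (h1 : c1 ≤ c2) (h3 : d2 ≤ d1) (hab : al ≤ be) (hw : Wk c2 al be d2 w) (hg : Lk al be g)
    (hM : ∀ S, |g S| ≤ M) (S : Px Q) :
    HB w c1 d1 c2 d2 g S ≤ 2 * M ^ 2 * cE2 w (pJ c1 d1) (NM c2 al be d2) S S := by
  have hd : Dif w (pJ c2 d2) (NM c2 al be d2) (2 * M) (cE w (pJ c2 d2) g) := dif_cE hab hw hg fun S S' => by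
    have a := abs_le.1 (hM S)
    have b := abs_le.1 (hM S')
    rw [abs_le]
    constructor <;> linarith [a.1, a.2, b.1, b.2]
  have h4 := hd.cV_le (crs_pJ h1 h3) (NM_nonneg _ _ _ _) (NM_le_one _ _ _ _) S
  calc HB w c1 d1 c2 d2 g S ≤ (2 * M) ^ 2 / 2 * cE2 w (pJ c1 d1) (NM c2 al be d2) S S := h4
    _ = _ := by ring

/-- The product of the outer and of the inner non meeting, told from the base replica `y`: its free competitor `z` and its competitor
conditional on the outside of `B'`. -/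
def OI (w : Px Q → ℝ) (c0 c1 c2 al be d2 d1 d0 : ℕ) : ℝ :=
  gm2 w fun y z => NM c0 c1 d1 d0 y z * cE w (pJ c1 d1) (NM c2 al be d2 y) y

/-- **(GS2), the sum over two free outsides of `J = [c0, d0)`.** -/
theorem gs2_L1 (h1 : c1 ≤ c2) (h2 : c2 ≤ al) (hab : al ≤ be) (h2' : be ≤ d2) (h3 : d2 ≤ d1)
    (hw0 : Wk c0 c1 d1 d0 w) (hw1 : Wk c1 c1 d1 d1 w) (hw2 : Wk c2 c2 d2 d2 w) (hw : Wk c2 al be d2 w) (hg : Lk al be g)
    (hM : ∀ S, |g S| ≤ M) :
    gm2 w (fun x x' => |cE w (pJ c0 d0) (HB w c1 d1 c2 d2 g) x - cE w (pJ c0 d0) (HB w c1 d1 c2 d2 g) x'|) ≤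
      4 * M ^ 2 * OI w c0 c1 c2 al be d2 d1 d0 := by
  have hc : c1 ≤ d1 := h1.trans (h2.trans (hab.trans (h2'.trans h3)))
  have k1 := gm2_abs_cE_sub_le (swapId hc hw0) (NM_nonneg _ _ _ _) (NM_symm _ _ _ _)
    (HB_Lk h1 (h2.trans (hab.trans h2')) h3 hw1 hw2 (Lk_mono h2 h2' hg)) HB_nonneg
  refine k1.trans ?_
  have k2 : gm2 w (fun z z' => NM c0 c1 d1 d0 z z' * HB w c1 d1 c2 d2 g z) ≤
      gm2 w (fun z z' => 2 * M ^ 2 * (NM c0 c1 d1 d0 z z' * cE2 w (pJ c1 d1) (NM c2 al be d2) z z)) := by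
    refine gm2_mono' fun z z' => ?_
    have := mul_le_mul_of_nonneg_left (HB_le_NM (c1 := c1) (d1 := d1) h1 h3 hab hw hg hM z) (NM_nonneg c0 c1 d1 d0 z z')
    linarith
  rw [gm2_smul', gm2_cE2_diag w (fun z' => mp_NM z')] at k2
  unfold OI
  linarith

/-- **(GS2) Trivial bound for the covariance** of `cE_J H_j` with any function of oscillation at most `osc` (near pairs, diagonal). -/
theorem gs2_gc (h1 : c1 ≤ c2) (h2 : c2 ≤ al) (hab : al ≤ be) (h2' : be ≤ d2) (h3 : d2 ≤ d1)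
    (hw0 : Wk c0 c1 d1 d0 w) (hw1 : Wk c1 c1 d1 d1 w) (hw2 : Wk c2 c2 d2 d2 w) (hw : Wk c2 al be d2 w) (hg : Lk al be g)
    (hM : ∀ S, |g S| ≤ M) {f : Px Q → ℝ} {osc : ℝ} (ho : 0 ≤ osc) (hf : ∀ z z', |f z - f z'| ≤ osc) :
    |gc w (cE w (pJ c0 d0) (HB w c1 d1 c2 d2 g)) f| ≤ 2 * M ^ 2 * osc * OI w c0 c1 c2 al be d2 d1 d0 := by
  have k1 := gc_le_osc (w := w) (f := cE w (pJ c0 d0) (HB w c1 d1 c2 d2 g)) hf
  have k2 := mul_le_mul_of_nonneg_left (gs2_L1 (c0 := c0) (d0 := d0) h1 h2 hab h2' h3 hw0 hw1 hw2 hw hg hM)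
    (by linarith : 0 ≤ osc / 2)
  linarith

/-- The oscillation of `cE_J H`. -/
theorem osc_cE_HB (hM : ∀ S, |g S| ≤ M) (S S' : Px Q) :
    |cE w (pJ c0 d0) (HB w c1 d1 c2 d2 g) S - cE w (pJ c0 d0) (HB w c1 d1 c2 d2 g) S'| ≤ M ^ 2 := by
  have h0 : ∀ S, 0 ≤ cE w (pJ c0 d0) (HB w c1 d1 c2 d2 g) S := fun S => cE_nonneg w _ HB_nonneg S
  have h1 : ∀ S, cE w (pJ c0 d0) (HB w c1 d1 c2 d2 g) S ≤ M ^ 2 := fun S => by
    have e := cE_mono w (pJ c0 d0) (f := HB w c1 d1 c2 d2 g) (g := fun _ => M ^ 2) (HB_le hM) S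
    rwa [cE_of_meas w (show Mp (pJ c0 d0) (fun _ : Px Q => M ^ 2) from fun _ _ _ => rfl)] at e
  rw [abs_le]
  constructor <;> linarith [h0 S, h0 S', h1 S, h1 S']

/-- **(GS2) two rows** `j` (window in `[al, be]`, blocks `B`, `B'`) and `k` (any blocks, response `g'`). -/
theorem gs2_pair (h1 : c1 ≤ c2) (h2 : c2 ≤ al) (hab : al ≤ be) (h2' : be ≤ d2) (h3 : d2 ≤ d1)
    (hw0 : Wk c0 c1 d1 d0 w) (hw1 : Wk c1 c1 d1 d1 w) (hw2 : Wk c2 c2 d2 d2 w) (hw : Wk c2 al be d2 w) (hg : Lk al be g)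
    (hM : ∀ S, |g S| ≤ M) {g' : Px Q → ℝ} (hM' : ∀ S, |g' S| ≤ M) (k1 l1 k2 l2 : ℕ) :
    |gc w (cE w (pJ c0 d0) (HB w c1 d1 c2 d2 g)) (cE w (pJ c0 d0) (HB w k1 l1 k2 l2 g'))| ≤
      2 * M ^ 4 * OI w c0 c1 c2 al be d2 d1 d0 := by
  have e := gs2_gc (c0 := c0) (d0 := d0) h1 h2 hab h2' h3 hw0 hw1 hw2 hw hg hM (sq_nonneg M)
    (osc_cE_HB (w := w) (c0 := c0) (d0 := d0) (c1 := k1) (d1 := l1) (c2 := k2) (d2 := l2) hM')
  calc _ ≤ 2 * M ^ 2 * M ^ 2 * OI w c0 c1 c2 al be d2 d1 d0 := e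
    _ = _ := by ring

/-- The outer kernel against the two one sided events. -/
theorem OI_le (w : Px Q → ℝ) (c0 c1 c2 al be d2 d1 d0 : ℕ) : OI w c0 c1 c2 al be d2 d1 d0 ≤
    gm2 w (fun y z => (NI c0 c1 y z + NI d1 d0 y z) *
      (cE w (pJ c1 d1) (NI c2 al y) y + cE w (pJ c1 d1) (NI be d2 y) y)) := by
  refine gm2_mono' fun y z => ?_
  have a1 := NM_le c0 c1 d1 d0 y z
  have a2 : cE w (pJ c1 d1) (NM c2 al be d2 y) y ≤ cE w (pJ c1 d1) (NI c2 al y) y + cE w (pJ c1 d1) (NI be d2 y) y := by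
    have e := cE_mono w (pJ c1 d1) (f := NM c2 al be d2 y) (g := NI c2 al y + NI be d2 y)
      (fun z => NM_le c2 al be d2 y z) y
    rwa [cE_add, Pi.add_apply] at e
  have a3 : 0 ≤ cE w (pJ c1 d1) (NM c2 al be d2 y) y := cE_nonneg w _ (fun z => NM_nonneg _ _ _ _ y z) y
  exact mul_le_mul a1 a2 a3 (add_nonneg (NI_nonneg _ _ _ _) (NI_nonneg _ _ _ _))

/-- **The model form**: weights `wm`, response `gg`, all the swap conditions are automatic. -/
theorem gs2_model {δ B : ℝ} (hB : 0 ≤ B) {b j k : ℕ} {ω : Env × Finset ℕ} (h1 : c1 ≤ c2) (h2 : c2 ≤ al) (hab : al ≤ be)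
    (h2' : be ≤ d2) (h3 : d2 ≤ d1) (hL : Lk al be (gg μ s Q δ B b ω j)) (k1 l1 k2 l2 : ℕ) :
    |gc (wm μ s N Q ω) (cE (wm μ s N Q ω) (pJ c0 d0) (HB (wm μ s N Q ω) c1 d1 c2 d2 (gg μ s Q δ B b ω j)))
        (cE (wm μ s N Q ω) (pJ c0 d0) (HB (wm μ s N Q ω) k1 l1 k2 l2 (gg μ s Q δ B b ω k)))| ≤
      B ^ 4 / 8 * OI (wm μ s N Q ω) c0 c1 c2 al be d2 d1 d0 := by
  have hc : c1 ≤ d1 := h1.trans (h2.trans (hab.trans (h2'.trans h3)))
  have hc2 : c2 ≤ d2 := h2.trans (hab.trans h2')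
  have e := gs2_pair (w := wm μ s N Q ω) (g := gg μ s Q δ B b ω j) (g' := gg μ s Q δ B b ω k) (M := B / 2)
    (c0 := c0) (d0 := d0) h1 h2 hab h2' h3 (Wk_lw ω.1 hc) (Wk_lw ω.1 hc) (Wk_lw ω.1 hc2) (Wk_lw ω.1 hab) hL
    (fun S => abs_gg hB b ω j S) (fun S => abs_gg hB b ω k S) k1 l1 k2 l2
  calc _ ≤ 2 * (B / 2) ^ 4 * OI (wm μ s N Q ω) c0 c1 c2 al be d2 d1 d0 := e
    _ = _ := by ring

end Model

end

end Pool.Agent.W_7d29a1_C0.E4T32
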