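import Pool.Agent.W_7d29a1_C0.Bri36
import Pool.Agent.W_7d29a1_C0.Two57

/-!
MP_7d29a1_pr, [CURV0], leaf E6 (helper36): THE TIE PRICE. On the pinned family, for a row whose base window is at distance at least
`l` from the ends of the block `[c, d)`, the response `F_j` seen from outside of the block has a variance of at most
`B ^ 2 (L ^ ε / EE' l + exp (- L ^ c'))`; the same for the conditional variance `V_j`. (Swap57, Two57 of helper57; Pair86 of helper86.)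
-/

set_option autoImplicit false
set_option linter.unusedSectionVars false

namespace Pool.Agent.W_7d29a1_C0.Bri36

open Finset MeasureTheory Pool.Agent.W_7d29a1_F Pool.Agent.W_7d29a1_X Pool.Agent.W_7d29a1_H Pool.Agent.W_7d29a1_HZ
open Pool.Agent.W_7d29a1_HS (In wd)
open Pool.Agent.W_7d29a1_C0.Mod92
open Pool.Agent.W_7d29a1_C0.Swap57
open Pool.Agent.W_7d29a1_C0.P86 (NoMeet pair86)
open Pool.W7d29a1.C0 (gz gm gz_pos gz_ne gm_mono gm_const gm_nonneg PP PP_eq PP_mono PP_smul PP_nonneg PP_add)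
open Pool.W7d29a1.C0.VT31
open scoped ENNReal

noncomputable section

variable {μ : Measure ℝ} {s : ℝ} {N y : ℕ}

theorem gm2_PP {X : Type*} [Fintype X] [Nonempty X] (w : X → ℝ) (K : X → X → ℝ) : gm2 w K = PP w K := (PP_eq_gm w K).symm

theorem NI_ind {Q : Finset (Finset ℕ)} (i j : ℕ) (S S' : Px Q) : NI i j S S' = ind (NoMeet i j S.1 S'.1) := by
  unfold NI
  by_cases h : NoMeet i j S.1 S'.1
  · rw [ind_of h]
    exact if_pos h
  · rw [ind_not h]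
    exact if_neg h

theorem meas_gm2 {Ω : Type*} [MeasurableSpace Ω] {X : Type*} [Fintype X] [Nonempty X] {w : Ω → X → ℝ} {K : Ω → X → X → ℝ}
    (hw : ∀ x, Measurable fun ω => w ω x) (hK : ∀ x x', Measurable fun ω => K ω x x') : Measurable fun ω => gm2 (w ω) (K ω) := by
  simp only [gm2_PP]
  exact meas_PP hw hK

theorem gm2_NI_le_one [Nonempty (Px (Pn N y))] (w : Px (Pn N y) → ℝ) (i j : ℕ) : |gm2 w (NI i j)| ≤ 1 := by
  rw [gm2_PP]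
  refine abs_PP_le _ fun S S' => ?_
  rw [NI_ind, abs_of_nonneg (ind_nonneg _)]
  exact ind_le_one _

/-- **The price of a pair, as a mean of `gm2`.** -/
theorem int_NI [IsProbabilityMeasure μ] {c C : ℝ} {n₀ : ℕ} (h : In μ s c C n₀) : ∀ ε θ : ℝ, 0 < ε → 0 < θ →
    ∃ δ c' : ℝ, 0 < δ ∧ 0 < c' ∧ ∃ L₀ : ℕ,
    ∀ L : ℕ, L₀ ≤ L → ∀ N l : ℕ, L ≤ 16 * N → N ≤ L → (L : ℝ) ^ θ ≤ l → ∀ i j : ℕ, i + l ≤ j → j ≤ N →
    ∀ y : ℕ, y ≤ N → |(y : ℝ) - sl μ s * N| ≤ ((L : ℝ) ^ δ * wd' μ s N) →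
    ∫ ω, gm2 (wm μ s N (Pn N y) ω) (NI i j) ∂(Pm μ N) ≤ (L : ℝ) ^ ε * (EE' μ s l)⁻¹ + Real.exp (-(L : ℝ) ^ c') := by
  intro ε θ hε hθ
  obtain ⟨δ, c', hδ, hc', L₀, hP⟩ := pair36 h ε θ hε hθ
  refine ⟨δ, c', hδ, hc', L₀, ?_⟩
  intro L hL N l hLN hNL hlL i j hij hjN y hyN hyc
  haveI := ne_Pn hyN
  refine le_trans ?_ (hP L hL N l hLN hNL hlL i (by omega) y hyN hyc)
  refine integral_mono ?_ ?_ fun ω => ?_
  · refine int_bdd (meas_gm2 (fun x => meas_wm x) fun x x' => measurable_const) (M := 1) fun ω => gm2_NI_le_one _ _ _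
  · refine int_bdd (meas_PP (fun x => meas_wm x) fun x x' => measurable_const) (M := 1) fun ω => abs_PP_le _ fun S S' => ?_
    rw [abs_of_nonneg (ind_nonneg _)]
    exact ind_le_one _
  · show gm2 (wm μ s N (Pn N y) ω) (NI i j) ≤ PP (wm μ s N (Pn N y) ω) fun S S' => ind (NoMeet i (i + l) S.1 S'.1)
    rw [gm2_PP]
    refine PP_mono _ fun S S' => ?_
    rw [← NI_ind]
    exact NI_mono le_rfl (by omega) S S'

/-- **E6, THE TIE PRICE.** -/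
theorem e6_36 [IsProbabilityMeasure μ] {c C : ℝ} {n₀ : ℕ} (h : In μ s c C n₀) : ∀ ε θ : ℝ, 0 < ε → 0 < θ →
    ∃ δ c' : ℝ, 0 < δ ∧ 0 < c' ∧ ∃ L₀ : ℕ,
    ∀ L : ℕ, L₀ ≤ L → ∀ N l : ℕ, L ≤ 16 * N → N ≤ L → (L : ℝ) ^ θ ≤ l →
    ∀ (δ' B : ℝ) (b j p q : ℕ), 0 ≤ B → p + l ≤ j - b → j + b + l ≤ q → q ≤ N →
    ∀ y : ℕ, y ≤ N → |(y : ℝ) - sl μ s * N| ≤ ((L : ℝ) ^ δ * wd' μ s N) →
    ∫ ω, gv (wm μ s N (Pn N y) ω) (Fm μ s N (Pn N y) δ' B b p q ω j) ∂(Pm μ N) ≤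
      B ^ 2 * ((L : ℝ) ^ ε * (EE' μ s l)⁻¹ + Real.exp (-(L : ℝ) ^ c')) := by
  intro ε θ hε hθ
  obtain ⟨δ, c', hδ, hc', L₀, hP⟩ := int_NI h ε θ hε hθ
  refine ⟨δ, c', hδ, hc', L₀, ?_⟩
  intro L hL N l hLN hNL hlL δ' B b j p q hB h1 h2 hqN y hyN hyc
  haveI := ne_Pn hyN
  have hI : ∀ i i' : ℕ, Integrable (fun ω => gm2 (wm μ s N (Pn N y) ω) (NI i i')) (Pm μ N) := fun i i' =>
    int_bdd (meas_gm2 (fun x => meas_wm x) fun x x' => measurable_const) (M := 1) fun ω => gm2_NI_le_one _ _ _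
  have e1 := hP L hL N l hLN hNL hlL p (j - b) h1 (by omega) y hyN hyc
  have e2 := hP L hL N l hLN hNL hlL (j + b) q h2 hqN y hyN hyc
  calc ∫ ω, gv (wm μ s N (Pn N y) ω) (Fm μ s N (Pn N y) δ' B b p q ω j) ∂(Pm μ N)
      ≤ ∫ ω, B ^ 2 / 2 * (gm2 (wm μ s N (Pn N y) ω) (NI p (j - b)) +
          gm2 (wm μ s N (Pn N y) ω) (NI (j + b) q)) ∂(Pm μ N) := by
        refine integral_mono ?_ (((hI _ _).add (hI _ _)).const_mul _) fun ω => ?_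
        · exact int_bdd (meas_gv (fun x => meas_wm x) fun x => meas_Fm δ' B b p q j x) (M := (B / 2) ^ 2) fun ω =>
            abs_gv_le _ fun S => abs_Fm hB b p q ω j S
        · exact gv_Fm_le (Q := Pn N y) hB (show j - b ≤ j + b by omega) (Lk_gg δ' B b j ω le_rfl le_rfl) p q
    _ = B ^ 2 / 2 * (∫ ω, gm2 (wm μ s N (Pn N y) ω) (NI p (j - b)) ∂(Pm μ N) +
          ∫ ω, gm2 (wm μ s N (Pn N y) ω) (NI (j + b) q) ∂(Pm μ N)) := by
        rw [integral_const_mul, integral_add (hI _ _) (hI _ _)]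
    _ ≤ B ^ 2 / 2 * (((L : ℝ) ^ ε * (EE' μ s l)⁻¹ + Real.exp (-(L : ℝ) ^ c')) +
          ((L : ℝ) ^ ε * (EE' μ s l)⁻¹ + Real.exp (-(L : ℝ) ^ c'))) :=
        mul_le_mul_of_nonneg_left (add_le_add e1 e2) (by positivity)
    _ = B ^ 2 * ((L : ℝ) ^ ε * (EE' μ s l)⁻¹ + Real.exp (-(L : ℝ) ^ c')) := by ring

end

end Pool.Agent.W_7d29a1_C0.Bri36
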