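import Pool.Agent.W_7d29a1_C0.Trap82

/-!
CURV0 (MP_7d29a1_pr): the Euler - Maclaurin functional `Z = F_t - (a/3) F_tt` at the actual corner (helper38, board 70036).
`em_one`, `em_two`: the corrected trapezoid rule in one and in two variables. `Jt` = the jet of a function of the two kick
variables `(t, s)`; `Jt.node` = the jet of `log Σ exp`; `node_em` = the exact identity
`<Om'> + Cov(Z_j, Z_k) = Om + Delta` of one node of the tree. (helper92)
-/

set_option autoImplicit false

namespace Pool.W7d29a1.C0.EM92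

open Finset Filter Topology MeasureTheory
open Pool.Agent.W_7d29a1_C0
open Pool.W7d29a1.C0 (Ac Mc)

noncomputable section

/-! ### The corrected trapezoid rule -/

/-- The remainder of the corrected trapezoid rule. -/
def Nc (h4 : ℝ → ℝ) : ℝ := -(1 / 48) * ∫ t in (-1 : ℝ)..1, (1 - t ^ 2) ^ 2 * h4 t

/-- **The corrected trapezoid rule** on `[-1, 1]`: the corner average of `h - (a/3) h'` is the mean of `h`, up to the fourth
derivative. -/
theorem em_one {h h1 h2 h3 h4 : ℝ → ℝ} (d1 : ∀ t, HasDerivAt h (h1 t) t) (d2 : ∀ t, HasDerivAt h1 (h2 t) t)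
    (d3 : ∀ t, HasDerivAt h2 (h3 t) t) (d4 : ∀ t, HasDerivAt h3 (h4 t) t) (hc : Continuous h4) :
    Ac (fun a => h a - a / 3 * h1 a) = Mc h + Nc h4 := by
  have c0 : Continuous h := continuous_iff_continuousAt.2 fun t => (d1 t).continuousAt
  -- the primitive
  have key : ∀ t, HasDerivAt (fun t => (1 - t ^ 2) ^ 2 * h3 t - (-4 * t + 4 * t ^ 3) * h2 t + (-4 + 12 * t ^ 2) * h1 t
      - 24 * t * h t) ((1 - t ^ 2) ^ 2 * h4 t - 24 * h t) t := by
    intro t
    have p0 : HasDerivAt (fun t : ℝ => (1 - t ^ 2) ^ 2) (-4 * t + 4 * t ^ 3) t := by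
      have := (((hasDerivAt_id t).pow 2).const_sub 1).pow 2
      refine this.congr_deriv ?_
      simp only [id, Nat.cast_ofNat, Pi.pow_apply]
      ring
    have p1 : HasDerivAt (fun t : ℝ => -4 * t + 4 * t ^ 3) (-4 + 12 * t ^ 2) t := by
      have := ((hasDerivAt_id t).const_mul (-4)).add (((hasDerivAt_id t).pow 3).const_mul 4)
      refine this.congr_deriv ?_
      simp only [id, Nat.cast_ofNat]
      ring
    have p2 : HasDerivAt (fun t : ℝ => -4 + 12 * t ^ 2) (24 * t) t := by
      have := (((hasDerivAt_id t).pow 2).const_mul 12).const_add (-4)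
      refine this.congr_deriv ?_
      simp only [id, Nat.cast_ofNat]
      ring
    have p3 : HasDerivAt (fun t : ℝ => 24 * t) 24 t := by
      have := (hasDerivAt_id t).const_mul 24
      refine this.congr_deriv ?_
      ring
    have := (((p0.mul (d4 t)).sub (p1.mul (d3 t))).add (p2.mul (d2 t))).sub (p3.mul (d1 t))
    refine this.congr_deriv ?_
    ring
  have hi4 : IntervalIntegrable (fun t => (1 - t ^ 2) ^ 2 * h4 t) volume (-1) 1 :=
    (Continuous.mul (by fun_prop) hc).intervalIntegrable _ _
  have hi0 : IntervalIntegrable (fun t => 24 * h t) volume (-1) 1 :=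
    (Continuous.mul (by fun_prop) c0).intervalIntegrable _ _
  have I := intervalIntegral.integral_eq_sub_of_hasDerivAt (a := -1) (b := 1) (fun t _ => key t) (hi4.sub hi0)
  rw [intervalIntegral.integral_sub hi4 hi0, intervalIntegral.integral_const_mul] at I
  unfold Ac Mc Nc
  have e : (∫ t in (-1 : ℝ)..1, (1 - t ^ 2) ^ 2 * h4 t) = 24 * (∫ t in (-1 : ℝ)..1, h t) + 8 * (h1 1 - h1 (-1))
      - 24 * (h 1 + h (-1)) := by
    have := I
    norm_num at this
    linarith
  rw [e]
  ring

/-- `Nc` is bounded by the supremum of the fourth derivative: the weight `(1/48) (1 - t²)²` has mass `1/45`. -/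
theorem abs_Nc_le {h4 : ℝ → ℝ} {M : ℝ} (hM : ∀ t ∈ Set.Icc (-1 : ℝ) 1, |h4 t| ≤ M) : |Nc h4| ≤ M / 24 := by
  unfold Nc
  have h : ‖∫ t in (-1 : ℝ)..1, (1 - t ^ 2) ^ 2 * h4 t‖ ≤ M * |1 - (-1)| := by
    refine intervalIntegral.norm_integral_le_of_norm_le_const fun t ht => ?_
    have ht' : t ∈ Set.Icc (-1 : ℝ) 1 := by
      rw [Set.uIoc_of_le (by norm_num)] at ht
      exact ⟨ht.1.le, ht.2⟩
    rw [Real.norm_eq_abs, abs_mul]
    have h1 : |(1 - t ^ 2) ^ 2| ≤ 1 := by
      rw [abs_of_nonneg (by positivity)]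
      have : (1 - t ^ 2) ≤ 1 := by nlinarith [sq_nonneg t]
      have : 0 ≤ 1 - t ^ 2 := by nlinarith [ht'.1, ht'.2]
      nlinarith
    calc |(1 - t ^ 2) ^ 2| * |h4 t| ≤ 1 * |h4 t| := mul_le_mul_of_nonneg_right h1 (abs_nonneg _)
      _ ≤ M := by rw [one_mul]; exact hM t ht'
  rw [abs_mul, ← Real.norm_eq_abs (∫ t in (-1 : ℝ)..1, (1 - t ^ 2) ^ 2 * h4 t)]
  norm_num at h ⊢
  linarith

/-! ### Linearity of the third cumulant -/

section Lin

variable {ι : Type*} {S : Finset ι} {w : ι → ℝ}

theorem gav_lin (f g : ι → ℝ) (c : ℝ) : gav S w (fun i => f i - c * g i) = gav S w f - c * gav S w g := by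
  rw [gav_sub f fun i => c * g i, gav_const_mul c g]

theorem gcov_lin_right (f g h : ι → ℝ) (c : ℝ) :
    gcov S w f (fun i => g i - c * h i) = gcov S w f g - c * gcov S w f h := by
  unfold gcov
  rw [gav_lin, show (fun i => f i * (g i - c * h i)) = fun i => f i * g i - c * (f i * h i) from funext fun i => by ring,
    gav_lin (fun i => f i * g i) (fun i => f i * h i)]
  ring

theorem gcov_lin_left (f g h : ι → ℝ) (c : ℝ) :
    gcov S w (fun i => f i - c * g i) h = gcov S w f h - c * gcov S w g h := by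
  rw [gcov_comm, gcov_lin_right, gcov_comm h f, gcov_comm h g]

theorem gk3_lin3 (f g h k : ι → ℝ) (c : ℝ) :
    gk3 S w f g (fun i => h i - c * k i) = gk3 S w f g h - c * gk3 S w f g k := by
  unfold gk3
  rw [gav_lin, show (fun i => f i * g i * (h i - c * k i)) = fun i => f i * g i * h i - c * (f i * g i * k i) from
      funext fun i => by ring,
    show (fun i => f i * (h i - c * k i)) = fun i => f i * h i - c * (f i * k i) from funext fun i => by ring,
    show (fun i => g i * (h i - c * k i)) = fun i => g i * h i - c * (g i * k i) from funext fun i => by ring,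
    gav_lin (fun i => f i * g i * h i) (fun i => f i * g i * k i), gav_lin (fun i => f i * h i) (fun i => f i * k i),
    gav_lin (fun i => g i * h i) (fun i => g i * k i)]
  ring

theorem gk3_lin1 (f g h k : ι → ℝ) (c : ℝ) :
    gk3 S w (fun i => f i - c * k i) g h = gk3 S w f g h - c * gk3 S w k g h := by
  unfold gk3
  rw [gav_lin, show (fun i => (f i - c * k i) * g i * h i) = fun i => f i * g i * h i - c * (k i * g i * h i) from
      funext fun i => by ring,
    show (fun i => (f i - c * k i) * g i) = fun i => f i * g i - c * (k i * g i) from funext fun i => by ring,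
    show (fun i => (f i - c * k i) * h i) = fun i => f i * h i - c * (k i * h i) from funext fun i => by ring,
    gav_lin (fun i => f i * g i * h i) (fun i => k i * g i * h i), gav_lin (fun i => f i * g i) (fun i => k i * g i),
    gav_lin (fun i => f i * h i) (fun i => k i * h i)]
  ring

theorem gk3_swap23 (f g h : ι → ℝ) : gk3 S w f g h = gk3 S w f h g := by
  unfold gk3
  rw [show (fun i => f i * g i * h i) = fun i => f i * h i * g i from funext fun i => by ring,
    show (fun i => g i * h i) = fun i => h i * g i from funext fun i => by ring]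
  ring

theorem gk3_swap12 (f g h : ι → ℝ) : gk3 S w f g h = gk3 S w g f h := by
  unfold gk3
  rw [show (fun i => f i * g i * h i) = fun i => g i * f i * h i from funext fun i => by ring,
    show (fun i => f i * g i) = fun i => g i * f i from funext fun i => by ring]
  ring

theorem gk3_rot (f g h : ι → ℝ) : gk3 S w f g h = gk3 S w h f g := by
  rw [gk3_swap23, gk3_swap12]

theorem gk4_swap34 (f g h k : ι → ℝ) : gk4 S w f g h k = gk4 S w f g k h := by
  unfold gk4
  rw [show (fun i => f i * g i * h i * k i) = fun i => f i * g i * k i * h i from funext fun i => by ring,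
    show (fun i => f i * h i * k i) = fun i => f i * k i * h i from funext fun i => by ring,
    show (fun i => g i * h i * k i) = fun i => g i * k i * h i from funext fun i => by ring,
    show (fun i => h i * k i) = fun i => k i * h i from funext fun i => by ring]
  ring

theorem gk4_swap23 (f g h k : ι → ℝ) : gk4 S w f g h k = gk4 S w f h g k := by
  unfold gk4
  rw [show (fun i => f i * g i * h i * k i) = fun i => f i * h i * g i * k i from funext fun i => by ring,
    show (fun i => f i * g i * h i) = fun i => f i * h i * g i from funext fun i => by ring,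
    show (fun i => g i * h i * k i) = fun i => h i * g i * k i from funext fun i => by ring,
    show (fun i => g i * h i) = fun i => h i * g i from funext fun i => by ring]
  ring

end Lin

/-! ### Jets in the two kick variables -/

/-- The jet of a function of the two kick variables: the derivatives which occur in the functional. -/
structure Jt where
  /-- the function -/
  v : ℝ → ℝ → ℝ
  /-- `∂_t` -/
  t : ℝ → ℝ → ℝ
  /-- `∂_s` -/
  s : ℝ → ℝ → ℝ
  /-- `∂_t ∂_t` -/
  tt : ℝ → ℝ → ℝ
  /-- `∂_t ∂_s` -/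
  ts : ℝ → ℝ → ℝ
  /-- `∂_s ∂_s` -/
  ss : ℝ → ℝ → ℝ
  /-- `∂_t ∂_t ∂_s` -/
  tts : ℝ → ℝ → ℝ
  /-- `∂_t ∂_s ∂_s` -/
  tss : ℝ → ℝ → ℝ
  /-- `∂_t ∂_t ∂_s ∂_s` -/
  ttss : ℝ → ℝ → ℝ

namespace Jt

/-- The entries are the derivatives. -/
structure Ok (J : Jt) : Prop where
  dt : ∀ t s, HasDerivAt (fun u => J.v u s) (J.t t s) t
  ds : ∀ t s, HasDerivAt (fun u => J.v t u) (J.s t s) s
  dtt : ∀ t s, HasDerivAt (fun u => J.t u s) (J.tt t s) t
  dts : ∀ t s, HasDerivAt (fun u => J.t t u) (J.ts t s) s
  dst : ∀ t s, HasDerivAt (fun u => J.s u s) (J.ts t s) t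
  dss : ∀ t s, HasDerivAt (fun u => J.s t u) (J.ss t s) s
  dtts : ∀ t s, HasDerivAt (fun u => J.tt t u) (J.tts t s) s
  dtst : ∀ t s, HasDerivAt (fun u => J.ts u s) (J.tts t s) t
  dtss : ∀ t s, HasDerivAt (fun u => J.ts t u) (J.tss t s) s
  dsst : ∀ t s, HasDerivAt (fun u => J.ss u s) (J.tss t s) t
  dttss : ∀ t s, HasDerivAt (fun u => J.tts t u) (J.ttss t s) s
  dtsst : ∀ t s, HasDerivAt (fun u => J.tss u s) (J.ttss t s) t

/-- The sum of two jets (the two halves of an interval, given the cut). -/
def add (J K : Jt) : Jt where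
  v a b := J.v a b + K.v a b
  t a b := J.t a b + K.t a b
  s a b := J.s a b + K.s a b
  tt a b := J.tt a b + K.tt a b
  ts a b := J.ts a b + K.ts a b
  ss a b := J.ss a b + K.ss a b
  tts a b := J.tts a b + K.tts a b
  tss a b := J.tss a b + K.tss a b
  ttss a b := J.ttss a b + K.ttss a b

theorem Ok.add {J K : Jt} (hJ : J.Ok) (hK : K.Ok) : (J.add K).Ok where
  dt t s := (hJ.dt t s).add (hK.dt t s)
  ds t s := (hJ.ds t s).add (hK.ds t s)
  dtt t s := (hJ.dtt t s).add (hK.dtt t s)
  dts t s := (hJ.dts t s).add (hK.dts t s)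
  dst t s := (hJ.dst t s).add (hK.dst t s)
  dss t s := (hJ.dss t s).add (hK.dss t s)
  dtts t s := (hJ.dtts t s).add (hK.dtts t s)
  dtst t s := (hJ.dtst t s).add (hK.dtst t s)
  dtss t s := (hJ.dtss t s).add (hK.dtss t s)
  dsst t s := (hJ.dsst t s).add (hK.dsst t s)
  dttss t s := (hJ.dttss t s).add (hK.dttss t s)
  dtsst t s := (hJ.dtsst t s).add (hK.dtsst t s)

/-- The bilinear jet `α + t β + s γ + t s δ` (a base window). -/
def bil (α β γ δ : ℝ) : Jt where
  v a b := α + a * β + b * γ + a * b * δ
  t _ b := β + b * δ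
  s a _ := γ + a * δ
  tt _ _ := 0
  ts _ _ := δ
  ss _ _ := 0
  tts _ _ := 0
  tss _ _ := 0
  ttss _ _ := 0

theorem bil_ok (α β γ δ : ℝ) : (bil α β γ δ).Ok where
  dt t s := by
    refine ((((hasDerivAt_id t).mul_const β).const_add α).add_const (s * γ) |>.add
      (((hasDerivAt_id t).mul_const s).mul_const δ)).congr_deriv ?_
    simp [bil]
  ds t s := by
    refine ((((hasDerivAt_id s).mul_const γ).const_add (α + t * β)).add
      (((hasDerivAt_id s).const_mul t).mul_const δ)).congr_deriv ?_
    simp [bil]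
  dtt t s := hasDerivAt_const _ _
  dts t s := by
    refine (((hasDerivAt_id s).mul_const δ).const_add β).congr_deriv ?_
    simp [bil]
  dst t s := by
    refine (((hasDerivAt_id t).mul_const δ).const_add γ).congr_deriv ?_
    simp [bil]
  dss t s := hasDerivAt_const _ _
  dtts t s := hasDerivAt_const _ _
  dtst t s := hasDerivAt_const _ _
  dtss t s := hasDerivAt_const _ _
  dsst t s := hasDerivAt_const _ _
  dttss t s := hasDerivAt_const _ _
  dtsst t s := hasDerivAt_const _ _

/-- `Z_j = F_t - (a/3) F_tt` at the corner `(a, b)`. -/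
def Z1 (J : Jt) (a b : ℝ) : ℝ := J.t a b - a / 3 * J.tt a b

/-- `Z_k = F_s - (b/3) F_ss` at the corner `(a, b)`. -/
def Z2 (J : Jt) (a b : ℝ) : ℝ := J.s a b - b / 3 * J.ss a b

/-- `∂_t Z_k`. -/
def Z2t (J : Jt) (a b : ℝ) : ℝ := J.ts a b - b / 3 * J.tss a b

/-- `∂_s Z_j`. -/
def Z1s (J : Jt) (a b : ℝ) : ℝ := J.ts a b - a / 3 * J.tts a b

/-- `Om = (1 - (a/3) ∂_t) (1 - (b/3) ∂_s) ∂_t ∂_s F` at the corner `(a, b)`. -/
def Om (J : Jt) (a b : ℝ) : ℝ := J.ts a b - a / 3 * J.tts a b - b / 3 * (J.tss a b - a / 3 * J.ttss a b)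

theorem Z1_add (J K : Jt) (a b : ℝ) : (J.add K).Z1 a b = J.Z1 a b + K.Z1 a b := by unfold Z1 add; ring

theorem Z2_add (J K : Jt) (a b : ℝ) : (J.add K).Z2 a b = J.Z2 a b + K.Z2 a b := by unfold Z2 add; ring

theorem Om_add (J K : Jt) (a b : ℝ) : (J.add K).Om a b = J.Om a b + K.Om a b := by unfold Om add; ring

theorem Z1_bil (α β γ δ a b : ℝ) : (bil α β γ δ).Z1 a b = β + b * δ := by unfold Z1 bil; ring

theorem Z2_bil (α β γ δ a b : ℝ) : (bil α β γ δ).Z2 a b = γ + a * δ := by unfold Z2 bil; ring

theorem Om_bil (α β γ δ a b : ℝ) : (bil α β γ δ).Om a b = δ := by unfold Om bil; ring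

end Jt

/-! ### One node of the tree -/

section Node

variable {ι : Type*}

/-- The weights of the cut measure of a node. -/
def cw (J : ι → Jt) (a b : ℝ) : ι → ℝ := ew fun i => (J i).v a b

/-- **The jet of `log Σ exp`.** -/
def Jt.node (S : Finset ι) (J : ι → Jt) : Jt where
  v a b := Real.log (∑ i ∈ S, cw J a b i)
  t a b := gav S (cw J a b) fun i => (J i).t a b
  s a b := gav S (cw J a b) fun i => (J i).s a b
  tt a b := gav S (cw J a b) (fun i => (J i).tt a b) + gcov S (cw J a b) (fun i => (J i).t a b) fun i => (J i).t a b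
  ts a b := gav S (cw J a b) (fun i => (J i).ts a b) + gcov S (cw J a b) (fun i => (J i).t a b) fun i => (J i).s a b
  ss a b := gav S (cw J a b) (fun i => (J i).ss a b) + gcov S (cw J a b) (fun i => (J i).s a b) fun i => (J i).s a b
  tts a b := gav S (cw J a b) (fun i => (J i).tts a b) + gcov S (cw J a b) (fun i => (J i).tt a b) (fun i => (J i).s a b) +
    2 * gcov S (cw J a b) (fun i => (J i).t a b) (fun i => (J i).ts a b) +
    gk3 S (cw J a b) (fun i => (J i).t a b) (fun i => (J i).t a b) fun i => (J i).s a b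
  tss a b := gav S (cw J a b) (fun i => (J i).tss a b) + gcov S (cw J a b) (fun i => (J i).t a b) (fun i => (J i).ss a b) +
    2 * gcov S (cw J a b) (fun i => (J i).ts a b) (fun i => (J i).s a b) +
    gk3 S (cw J a b) (fun i => (J i).t a b) (fun i => (J i).s a b) fun i => (J i).s a b
  ttss a b := gav S (cw J a b) (fun i => (J i).ttss a b) + 2 * gcov S (cw J a b) (fun i => (J i).tts a b) (fun i => (J i).s a b) +
    2 * gcov S (cw J a b) (fun i => (J i).t a b) (fun i => (J i).tss a b) +
    2 * gcov S (cw J a b) (fun i => (J i).ts a b) (fun i => (J i).ts a b) +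
    gcov S (cw J a b) (fun i => (J i).tt a b) (fun i => (J i).ss a b) +
    4 * gk3 S (cw J a b) (fun i => (J i).t a b) (fun i => (J i).ts a b) (fun i => (J i).s a b) +
    gk3 S (cw J a b) (fun i => (J i).tt a b) (fun i => (J i).s a b) (fun i => (J i).s a b) +
    gk3 S (cw J a b) (fun i => (J i).t a b) (fun i => (J i).t a b) (fun i => (J i).ss a b) +
    gk4 S (cw J a b) (fun i => (J i).t a b) (fun i => (J i).t a b) (fun i => (J i).s a b) fun i => (J i).s a b

/-- `Delta` of a node: the exact defect of the telescoping (helper38). -/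
def Delta (S : Finset ι) (J : ι → Jt) (a b : ℝ) : ℝ :=
  a / 3 * (gk3 S (cw J a b) (fun i => (J i).t a b) (fun i => (J i).t a b) (fun i => (J i).Z2 a b) +
    2 * gcov S (cw J a b) (fun i => (J i).t a b) fun i => (J i).Z2t a b) +
  b / 3 * (gk3 S (cw J a b) (fun i => (J i).Z1 a b) (fun i => (J i).s a b) (fun i => (J i).s a b) +
    2 * gcov S (cw J a b) (fun i => (J i).Z1s a b) fun i => (J i).s a b) -
  a * b / 9 * (gk4 S (cw J a b) (fun i => (J i).t a b) (fun i => (J i).t a b) (fun i => (J i).s a b) (fun i => (J i).s a b) +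
    4 * gk3 S (cw J a b) (fun i => (J i).t a b) (fun i => (J i).ts a b) (fun i => (J i).s a b) +
    2 * gcov S (cw J a b) (fun i => (J i).ts a b) fun i => (J i).ts a b)

/-- **One node of the telescoping**, exact: `<Om'> + Cov(Z_j, Z_k) = Om + Delta`. -/
theorem node_em (S : Finset ι) (J : ι → Jt) (a b : ℝ) :
    gav S (cw J a b) (fun i => (J i).Om a b) + gcov S (cw J a b) (fun i => (J i).Z1 a b) (fun i => (J i).Z2 a b) =
      (Jt.node S J).Om a b + Delta S J a b := by
  unfold Jt.Om Delta
  simp only [Jt.node]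
  unfold Jt.Z1 Jt.Z2 Jt.Z2t Jt.Z1s
  rw [gav_lin (fun i => (J i).ts a b - a / 3 * (J i).tts a b) (fun i => (J i).tss a b - a / 3 * (J i).ttss a b),
    gav_lin (fun i => (J i).ts a b) (fun i => (J i).tts a b), gav_lin (fun i => (J i).tss a b) (fun i => (J i).ttss a b),
    gcov_lin_left (fun i => (J i).t a b) (fun i => (J i).tt a b), gcov_lin_right, gcov_lin_right, gcov_lin_right,
    gcov_lin_left (fun i => (J i).ts a b) (fun i => (J i).tts a b), gk3_lin3, gk3_lin1]
  ring

/-- **The node jet is a jet.** -/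
theorem node_ok (S : Finset ι) (hS : S.Nonempty) (J : ι → Jt) (hJ : ∀ i ∈ S, (J i).Ok) : (Jt.node S J).Ok := by
  have gt : ∀ t s, ∀ i ∈ S, HasDerivAt (fun u => (fun u i => (J i).v u s) u i) ((J i).t t s) t :=
    fun t s i hi => (hJ i hi).dt t s
  have gs : ∀ t s, ∀ i ∈ S, HasDerivAt (fun u => (fun u i => (J i).v t u) u i) ((J i).s t s) s :=
    fun t s i hi => (hJ i hi).ds t s
  constructor
  · intro t s
    exact hasDerivAt_lse (G := fun u i => (J i).v u s) hS (gt t s)
  · intro t s
    exact hasDerivAt_lse (G := fun u i => (J i).v t u) hS (gs t s)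
  · intro t s
    exact hasDerivAt_gav (G := fun u i => (J i).v u s) hS (gt t s) (f := fun u i => (J i).t u s)
      fun i hi => (hJ i hi).dtt t s
  · intro t s
    exact hasDerivAt_gav (G := fun u i => (J i).v t u) hS (gs t s) (f := fun u i => (J i).t t u)
      fun i hi => (hJ i hi).dts t s
  · intro t s
    refine (hasDerivAt_gav (G := fun u i => (J i).v u s) hS (gt t s) (f := fun u i => (J i).s u s)
      fun i hi => (hJ i hi).dst t s).congr_deriv ?_
    simp only [Jt.node, cw]
    rw [gcov_comm (fun i => (J i).s t s)]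
  · intro t s
    exact hasDerivAt_gav (G := fun u i => (J i).v t u) hS (gs t s) (f := fun u i => (J i).s t u)
      fun i hi => (hJ i hi).dss t s
  · intro t s
    refine ((hasDerivAt_gav (G := fun u i => (J i).v t u) hS (gs t s) (f := fun u i => (J i).tt t u)
      fun i hi => (hJ i hi).dtts t s).add (hasDerivAt_gcov (G := fun u i => (J i).v t u) hS (gs t s)
      (f := fun u i => (J i).t t u) (g := fun u i => (J i).t t u) (fun i hi => (hJ i hi).dts t s)
      fun i hi => (hJ i hi).dts t s)).congr_deriv ?_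
    simp only [Jt.node, cw]
    rw [gcov_comm (fun i => (J i).ts t s) fun i => (J i).t t s]
    ring
  · intro t s
    refine ((hasDerivAt_gav (G := fun u i => (J i).v u s) hS (gt t s) (f := fun u i => (J i).ts u s)
      fun i hi => (hJ i hi).dtst t s).add (hasDerivAt_gcov (G := fun u i => (J i).v u s) hS (gt t s)
      (f := fun u i => (J i).t u s) (g := fun u i => (J i).s u s) (fun i hi => (hJ i hi).dtt t s)
      fun i hi => (hJ i hi).dst t s)).congr_deriv ?_
    simp only [Jt.node, cw]
    rw [gcov_comm (fun i => (J i).ts t s) fun i => (J i).t t s, gk3_swap23]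
    ring
  · intro t s
    refine ((hasDerivAt_gav (G := fun u i => (J i).v t u) hS (gs t s) (f := fun u i => (J i).ts t u)
      fun i hi => (hJ i hi).dtss t s).add (hasDerivAt_gcov (G := fun u i => (J i).v t u) hS (gs t s)
      (f := fun u i => (J i).t t u) (g := fun u i => (J i).s t u) (fun i hi => (hJ i hi).dts t s)
      fun i hi => (hJ i hi).dss t s)).congr_deriv ?_
    simp only [Jt.node, cw]
    ring
  · intro t s
    refine ((hasDerivAt_gav (G := fun u i => (J i).v u s) hS (gt t s) (f := fun u i => (J i).ss u s)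
      fun i hi => (hJ i hi).dsst t s).add (hasDerivAt_gcov (G := fun u i => (J i).v u s) hS (gt t s)
      (f := fun u i => (J i).s u s) (g := fun u i => (J i).s u s) (fun i hi => (hJ i hi).dst t s)
      fun i hi => (hJ i hi).dst t s)).congr_deriv ?_
    simp only [Jt.node, cw]
    rw [gcov_comm (fun i => (J i).ss t s) fun i => (J i).t t s, gcov_comm (fun i => (J i).s t s) fun i => (J i).ts t s,
      gk3_rot]
    ring
  · intro t s
    have e1 := hasDerivAt_gav (G := fun u i => (J i).v t u) hS (gs t s) (f := fun u i => (J i).tts t u)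
      fun i hi => (hJ i hi).dttss t s
    have e2 := hasDerivAt_gcov (G := fun u i => (J i).v t u) hS (gs t s) (f := fun u i => (J i).tt t u)
      (g := fun u i => (J i).s t u) (fun i hi => (hJ i hi).dtts t s) fun i hi => (hJ i hi).dss t s
    have e3 := hasDerivAt_gcov (G := fun u i => (J i).v t u) hS (gs t s) (f := fun u i => (J i).t t u)
      (g := fun u i => (J i).ts t u) (fun i hi => (hJ i hi).dts t s) fun i hi => (hJ i hi).dtss t s
    have e4 := hasDerivAt_gk3 (G := fun u i => (J i).v t u) hS (gs t s) (f := fun u i => (J i).t t u)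
      (g := fun u i => (J i).t t u) (h := fun u i => (J i).s t u) (fun i hi => (hJ i hi).dts t s)
      (fun i hi => (hJ i hi).dts t s) fun i hi => (hJ i hi).dss t s
    refine (((e1.add e2).add (e3.const_mul 2)).add e4).congr_deriv ?_
    simp only [Jt.node, cw]
    rw [gk3_swap12 (fun i => (J i).ts t s) (fun i => (J i).t t s)]
    ring
  · intro t s
    have e1 := hasDerivAt_gav (G := fun u i => (J i).v u s) hS (gt t s) (f := fun u i => (J i).tss u s)
      fun i hi => (hJ i hi).dtsst t s
    have e2 := hasDerivAt_gcov (G := fun u i => (J i).v u s) hS (gt t s) (f := fun u i => (J i).t u s)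
      (g := fun u i => (J i).ss u s) (fun i hi => (hJ i hi).dtt t s) fun i hi => (hJ i hi).dsst t s
    have e3 := hasDerivAt_gcov (G := fun u i => (J i).v u s) hS (gt t s) (f := fun u i => (J i).ts u s)
      (g := fun u i => (J i).s u s) (fun i hi => (hJ i hi).dtst t s) fun i hi => (hJ i hi).dst t s
    have e4 := hasDerivAt_gk3 (G := fun u i => (J i).v u s) hS (gt t s) (f := fun u i => (J i).t u s)
      (g := fun u i => (J i).s u s) (h := fun u i => (J i).s u s) (fun i hi => (hJ i hi).dtt t s)
      (fun i hi => (hJ i hi).dst t s) fun i hi => (hJ i hi).dst t s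
    refine (((e1.add e2).add (e3.const_mul 2)).add e4).congr_deriv ?_
    simp only [Jt.node, cw]
    rw [gcov_comm (fun i => (J i).tss t s) (fun i => (J i).t t s),
      gk3_swap23 (fun i => (J i).t t s) (fun i => (J i).s t s) (fun i => (J i).ts t s),
      gk3_swap23 (fun i => (J i).t t s) (fun i => (J i).ss t s) (fun i => (J i).t t s),
      gk3_swap23 (fun i => (J i).ts t s) (fun i => (J i).s t s) (fun i => (J i).t t s),
      gk3_swap12 (fun i => (J i).ts t s) (fun i => (J i).t t s) (fun i => (J i).s t s),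
      gk4_swap34 (fun i => (J i).t t s) (fun i => (J i).s t s) (fun i => (J i).s t s) (fun i => (J i).t t s),
      gk4_swap23 (fun i => (J i).t t s) (fun i => (J i).s t s) (fun i => (J i).t t s) (fun i => (J i).s t s)]
    ring

end Node

end

end Pool.W7d29a1.C0.EM92
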