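import Pool.Agent.W_7d29a1_C0.EM92

/-!
CURV0 (MP_7d29a1_pr): the Euler - Maclaurin functional at the root: the corner average of `Om` is the mixed difference of the
free energy up to cumulants of order six and ten; uniqueness of jets. (helper92)
-/

set_option autoImplicit false
set_option linter.unusedSectionVars false
set_option linter.unusedVariables false

namespace Pool.W7d29a1.C0.EM92

open Finset Filter Topology MeasureTheory
open Pool.Agent.W_7d29a1_C0
open Pool.W7d29a1.C0 (Ac Mc Dc cm lse hasDerivAt_cm continuous_cm cm_mid)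

noncomputable section

/-! ### The corrected trapezoid rule in two variables -/

theorem Mc_add {f g : ℝ → ℝ} (hf : Continuous f) (hg : Continuous g) : Mc (fun t => f t + g t) = Mc f + Mc g := by
  unfold Mc
  rw [intervalIntegral.integral_add (hf.intervalIntegrable _ _) (hg.intervalIntegrable _ _)]
  ring

theorem Nc_add {f g : ℝ → ℝ} (hf : Continuous f) (hg : Continuous g) : Nc (fun t => f t + g t) = Nc f + Nc g := by
  unfold Nc
  have e : (fun t : ℝ => (1 - t ^ 2) ^ 2 * (f t + g t)) = fun t => (1 - t ^ 2) ^ 2 * f t + (1 - t ^ 2) ^ 2 * g t :=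
    funext fun t => by ring
  have i1 : IntervalIntegrable (fun t : ℝ => (1 - t ^ 2) ^ 2 * f t) volume (-1) 1 :=
    (Continuous.mul (by fun_prop) hf).intervalIntegrable _ _
  have i2 : IntervalIntegrable (fun t : ℝ => (1 - t ^ 2) ^ 2 * g t) volume (-1) 1 :=
    (Continuous.mul (by fun_prop) hg).intervalIntegrable _ _
  rw [e, intervalIntegral.integral_add i1 i2]
  ring

theorem Mc_cont {f : ℝ → ℝ → ℝ} (hf : Continuous fun p : ℝ × ℝ => f p.1 p.2) : Continuous fun s => Mc fun t => f t s := by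
  unfold Mc
  refine continuous_const.mul ?_
  refine intervalIntegral.continuous_parametric_intervalIntegral_of_continuous' (f := fun s t => f t s) ?_ _ _
  exact hf.comp (continuous_snd.prodMk continuous_fst)

theorem Nc_cont {f : ℝ → ℝ → ℝ} (hf : Continuous fun p : ℝ × ℝ => f p.1 p.2) : Continuous fun s => Nc fun t => f t s := by
  unfold Nc
  refine continuous_const.mul ?_
  refine intervalIntegral.continuous_parametric_intervalIntegral_of_continuous'
    (f := fun s t => (1 - t ^ 2) ^ 2 * f t s) ?_ _ _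
  have h2 : Continuous fun p : ℝ × ℝ => f p.2 p.1 := hf.comp (continuous_snd.prodMk continuous_fst)
  have h3 : Continuous fun p : ℝ × ℝ => (1 - p.2 ^ 2) ^ 2 := by fun_prop
  exact h3.mul h2

theorem Ac_cont {f : ℝ → ℝ → ℝ} (hf : Continuous fun p : ℝ × ℝ => f p.1 p.2) : Continuous fun s => Ac fun t => f t s := by
  unfold Ac
  have h1 : Continuous fun s : ℝ => f 1 s := hf.comp (continuous_const.prodMk continuous_id)
  have h2 : Continuous fun s : ℝ => f (-1) s := hf.comp (continuous_const.prodMk continuous_id)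
  exact (h1.add h2).div_const 2

/-- **The corrected trapezoid rule in two variables.** -/
theorem em_two {H Ht Hs Hts : ℝ → ℝ → ℝ} {T2 T3 T4 S2 S3 S4 St2 St3 St4 U2 U3 U4 : ℝ → ℝ → ℝ}
    (t1 : ∀ t s, HasDerivAt (fun u => H u s) (Ht t s) t) (t2 : ∀ t s, HasDerivAt (fun u => Ht u s) (T2 t s) t)
    (t3 : ∀ t s, HasDerivAt (fun u => T2 u s) (T3 t s) t) (t4 : ∀ t s, HasDerivAt (fun u => T3 u s) (T4 t s) t)
    (s1 : ∀ t s, HasDerivAt (fun u => H t u) (Hs t s) s) (s2 : ∀ t s, HasDerivAt (fun u => Hs t u) (S2 t s) s)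
    (s3 : ∀ t s, HasDerivAt (fun u => S2 t u) (S3 t s) s) (s4 : ∀ t s, HasDerivAt (fun u => S3 t u) (S4 t s) s)
    (r1 : ∀ t s, HasDerivAt (fun u => Ht t u) (Hts t s) s) (r2 : ∀ t s, HasDerivAt (fun u => Hts t u) (St2 t s) s)
    (r3 : ∀ t s, HasDerivAt (fun u => St2 t u) (St3 t s) s) (r4 : ∀ t s, HasDerivAt (fun u => St3 t u) (St4 t s) s)
    (u0 : ∀ t s, HasDerivAt (fun u => S4 u s) (St4 t s) t) (u1 : ∀ t s, HasDerivAt (fun u => St4 u s) (U2 t s) t)
    (u2 : ∀ t s, HasDerivAt (fun u => U2 u s) (U3 t s) t) (u3 : ∀ t s, HasDerivAt (fun u => U3 u s) (U4 t s) t)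
    (cT4 : ∀ s, Continuous fun t => T4 t s) (cS4 : ∀ t, Continuous fun s => S4 t s) (cSt4 : ∀ t, Continuous fun s => St4 t s)
    (cU4 : ∀ s, Continuous fun t => U4 t s) :
    Ac (fun b => Ac fun a => H a b - a / 3 * Ht a b - b / 3 * (Hs a b - a / 3 * Hts a b)) =
      Mc (fun s => Mc (fun t => H t s) + Nc fun t => T4 t s) + Nc (fun s => Mc (fun t => S4 t s) + Nc fun t => U4 t s) := by
  have hA : ∀ b, Ac (fun a => H a b - a / 3 * Ht a b - b / 3 * (Hs a b - a / 3 * Hts a b)) =
      Ac (fun a => H a b - a / 3 * Ht a b) - b / 3 * Ac (fun a => Hs a b - a / 3 * Hts a b) := by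
    intro b
    unfold Ac
    ring
  rw [funext hA]
  have c4 : Continuous fun s => Ac fun a => S4 a s - a / 3 * St4 a s := by
    unfold Ac
    exact (((cS4 1).sub (continuous_const.mul (cSt4 1))).add
      ((cS4 (-1)).sub (continuous_const.mul (cSt4 (-1))))).div_const 2
  have key := em_one (h := fun s => Ac fun a => H a s - a / 3 * Ht a s) (h1 := fun s => Ac fun a => Hs a s - a / 3 * Hts a s)
    (h2 := fun s => Ac fun a => S2 a s - a / 3 * St2 a s) (h3 := fun s => Ac fun a => S3 a s - a / 3 * St3 a s)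
    (h4 := fun s => Ac fun a => S4 a s - a / 3 * St4 a s)
    (fun s => (((s1 1 s).sub ((r1 1 s).const_mul _)).add ((s1 (-1) s).sub ((r1 (-1) s).const_mul _))).div_const 2)
    (fun s => (((s2 1 s).sub ((r2 1 s).const_mul _)).add ((s2 (-1) s).sub ((r2 (-1) s).const_mul _))).div_const 2)
    (fun s => (((s3 1 s).sub ((r3 1 s).const_mul _)).add ((s3 (-1) s).sub ((r3 (-1) s).const_mul _))).div_const 2)
    (fun s => (((s4 1 s).sub ((r4 1 s).const_mul _)).add ((s4 (-1) s).sub ((r4 (-1) s).const_mul _))).div_const 2) c4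
  rw [key]
  congr 1
  · congr 1
    funext s
    exact em_one (fun t => t1 t s) (fun t => t2 t s) (fun t => t3 t s) (fun t => t4 t s) (cT4 s)
  · congr 1
    funext s
    exact em_one (h2 := fun t => U2 t s) (h3 := fun t => U3 t s) (fun t => u0 t s) (fun t => u1 t s) (fun t => u2 t s)
      (fun t => u3 t s) (cU4 s)

/-! ### The root -/

section Root

variable {X : Type*} [Fintype X] [Nonempty X]

/-- The log weights `α + t β + s γ` of the whole polymer in two kick variables (rows of different base windows). -/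
def wr (α β γ : X → ℝ) (t s : ℝ) : X → ℝ := α + t • β + s • γ

/-- The joint cumulant with `i` copies of `β` and `j` copies of `γ` at the point `(t, s)`. -/
def kk (α β γ : X → ℝ) (i j : ℕ) (t s : ℝ) : ℝ := cm (List.replicate i β ++ List.replicate j γ) (wr α β γ t s)

theorem wr_t (α β γ : X → ℝ) (t s : ℝ) : HasDerivAt (fun u => wr α β γ u s) β t := by
  have h := (((hasDerivAt_id t).smul_const β).const_add α).add_const (s • γ)
  simpa [wr] using h

theorem wr_s (α β γ : X → ℝ) (t s : ℝ) : HasDerivAt (fun u => wr α β γ t u) γ s := by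
  have h := ((hasDerivAt_id s).smul_const γ).const_add (α + t • β)
  simpa [wr] using h

theorem kk_t (α β γ : X → ℝ) (i j : ℕ) (t s : ℝ) : HasDerivAt (fun u => kk α β γ i j u s) (kk α β γ (i + 1) j t s) t :=
  hasDerivAt_cm _ (wr_t α β γ t s)

theorem kk_s (α β γ : X → ℝ) (i j : ℕ) (t s : ℝ) : HasDerivAt (fun u => kk α β γ i j t u) (kk α β γ i (j + 1) t s) s := by
  refine (hasDerivAt_cm _ (wr_s α β γ t s)).congr_deriv ?_
  unfold kk
  rw [List.replicate_succ (n := j), cm_mid]

theorem kk_cont (α β γ : X → ℝ) (i j : ℕ) : Continuous fun p : ℝ × ℝ => kk α β γ i j p.1 p.2 := by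
  have hw : Continuous fun p : ℝ × ℝ => wr α β γ p.1 p.2 := by
    unfold wr
    fun_prop
  exact (cm_continuous _).comp hw

theorem kk_cont_t (α β γ : X → ℝ) (i j : ℕ) (s : ℝ) : Continuous fun t => kk α β γ i j t s :=
  (kk_cont α β γ i j).comp (continuous_id.prodMk continuous_const)

theorem kk_cont_s (α β γ : X → ℝ) (i j : ℕ) (t : ℝ) : Continuous fun s => kk α β γ i j t s :=
  (kk_cont α β γ i j).comp (continuous_const.prodMk continuous_id)

/-- The mean of the mixed derivative is the mixed difference. -/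
theorem Mc_kk11 (α β γ : X → ℝ) : Mc (fun s => Mc fun t => kk α β γ 1 1 t s) =
    Dc (fun s => Dc fun t => lse (wr α β γ t s)) := by
  have h1 : ∀ s, Mc (fun t => kk α β γ 1 1 t s) = Dc (fun t => kk α β γ 0 1 t s) := fun s =>
    (Dc_eq_Mc (fun t => kk_t α β γ 0 1 t s) (kk_cont_t α β γ 1 1 s)).symm
  rw [funext h1]
  have hd : ∀ s, HasDerivAt (fun s => Dc fun t => lse (wr α β γ t s)) (Dc fun t => kk α β γ 0 1 t s) s := fun s =>
    ((kk_s α β γ 0 0 1 s).sub (kk_s α β γ 0 0 (-1) s)).div_const 2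
  have hc : Continuous fun s => Dc fun t => kk α β γ 0 1 t s := by
    unfold Dc
    exact ((kk_cont_s α β γ 0 1 1).sub (kk_cont_s α β γ 0 1 (-1))).div_const 2
  exact (Dc_eq_Mc hd hc).symm

/-- `Om` of the whole polymer at the corner `(a, b)`. -/
def OmR (α β γ : X → ℝ) (a b : ℝ) : ℝ := kk α β γ 1 1 a b - a / 3 * kk α β γ 2 1 a b -
  b / 3 * (kk α β γ 1 2 a b - a / 3 * kk α β γ 2 2 a b)

/-- **The root**: the corner average of `Om` is the mixed difference of the free energy, up to cumulants of the orders `5 + 1`,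
`1 + 5` and `5 + 5`. -/
theorem em_root (α β γ : X → ℝ) : Ac (fun b => Ac fun a => OmR α β γ a b) =
    Dc (fun s => Dc fun t => lse (wr α β γ t s)) + Mc (fun s => Nc fun t => kk α β γ 5 1 t s) +
      Nc (fun s => Mc fun t => kk α β γ 1 5 t s) + Nc (fun s => Nc fun t => kk α β γ 5 5 t s) := by
  have key := em_two (H := kk α β γ 1 1) (Ht := kk α β γ 2 1) (Hs := kk α β γ 1 2) (Hts := kk α β γ 2 2)
    (T2 := kk α β γ 3 1) (T3 := kk α β γ 4 1) (T4 := kk α β γ 5 1) (S2 := kk α β γ 1 3) (S3 := kk α β γ 1 4)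
    (S4 := kk α β γ 1 5) (St2 := kk α β γ 2 3) (St3 := kk α β γ 2 4) (St4 := kk α β γ 2 5) (U2 := kk α β γ 3 5)
    (U3 := kk α β γ 4 5) (U4 := kk α β γ 5 5)
    (kk_t α β γ 1 1) (kk_t α β γ 2 1) (kk_t α β γ 3 1) (kk_t α β γ 4 1) (kk_s α β γ 1 1) (kk_s α β γ 1 2)
    (kk_s α β γ 1 3) (kk_s α β γ 1 4) (kk_s α β γ 2 1) (kk_s α β γ 2 2) (kk_s α β γ 2 3) (kk_s α β γ 2 4)
    (kk_t α β γ 1 5) (kk_t α β γ 2 5) (kk_t α β γ 3 5) (kk_t α β γ 4 5) (kk_cont_t α β γ 5 1) (kk_cont_s α β γ 1 5)
    (kk_cont_s α β γ 2 5) (kk_cont_t α β γ 5 5)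
  unfold OmR
  rw [key, ← Mc_kk11, Mc_add (Mc_cont (kk_cont α β γ 1 1)) (Nc_cont (kk_cont α β γ 5 1)),
    Nc_add (Mc_cont (kk_cont α β γ 1 5)) (Nc_cont (kk_cont α β γ 5 5))]
  ring

end Root

/-! ### Uniqueness of jets -/

/-- A jet is determined by its function. -/
theorem Jt.Ok.unique {J K : Jt} (hJ : J.Ok) (hK : K.Ok) (h : ∀ t s, J.v t s = K.v t s) : J = K := by
  have hv : J.v = K.v := funext fun t => funext fun s => h t s
  have ht : J.t = K.t := funext fun t => funext fun s => by
    have h1 := hJ.dt t s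
    rw [hv] at h1
    exact h1.unique (hK.dt t s)
  have hs : J.s = K.s := funext fun t => funext fun s => by
    have h1 := hJ.ds t s
    rw [hv] at h1
    exact h1.unique (hK.ds t s)
  have htt : J.tt = K.tt := funext fun t => funext fun s => by
    have h1 := hJ.dtt t s
    rw [ht] at h1
    exact h1.unique (hK.dtt t s)
  have hts : J.ts = K.ts := funext fun t => funext fun s => by
    have h1 := hJ.dts t s
    rw [ht] at h1
    exact h1.unique (hK.dts t s)
  have hss : J.ss = K.ss := funext fun t => funext fun s => by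
    have h1 := hJ.dss t s
    rw [hs] at h1
    exact h1.unique (hK.dss t s)
  have htts : J.tts = K.tts := funext fun t => funext fun s => by
    have h1 := hJ.dtts t s
    rw [htt] at h1
    exact h1.unique (hK.dtts t s)
  have htss : J.tss = K.tss := funext fun t => funext fun s => by
    have h1 := hJ.dtss t s
    rw [hts] at h1
    exact h1.unique (hK.dtss t s)
  have httss : J.ttss = K.ttss := funext fun t => funext fun s => by
    have h1 := hJ.dttss t s
    rw [htts] at h1
    exact h1.unique (hK.dttss t s)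
  cases J
  cases K
  simp only at hv ht hs htt hts hss htts htss httss
  subst hv ht hs htt hts hss htts htss httss
  rfl

section Root2

variable {X : Type*} [Fintype X] [Nonempty X]

/-- The jet of the whole polymer. -/
def rootJ (α β γ : X → ℝ) : Jt where
  v := kk α β γ 0 0
  t := kk α β γ 1 0
  s := kk α β γ 0 1
  tt := kk α β γ 2 0
  ts := kk α β γ 1 1
  ss := kk α β γ 0 2
  tts := kk α β γ 2 1
  tss := kk α β γ 1 2
  ttss := kk α β γ 2 2

theorem rootJ_ok (α β γ : X → ℝ) : (rootJ α β γ).Ok where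
  dt := kk_t α β γ 0 0
  ds := kk_s α β γ 0 0
  dtt := kk_t α β γ 1 0
  dts := kk_s α β γ 1 0
  dst := kk_t α β γ 0 1
  dss := kk_s α β γ 0 1
  dtts := kk_s α β γ 2 0
  dtst := kk_t α β γ 1 1
  dtss := kk_s α β γ 1 1
  dsst := kk_t α β γ 0 2
  dttss := kk_s α β γ 2 1
  dtsst := kk_t α β γ 1 2

theorem rootJ_Om (α β γ : X → ℝ) (a b : ℝ) : (rootJ α β γ).Om a b = OmR α β γ a b := rfl

/-- **The root in terms of jets**: any jet whose function is the free energy of the whole polymer (for instance the one built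
by `Jt.node` along the tree) has the `Om` of the root. -/
theorem Om_of_root {J : Jt} (hJ : J.Ok) (α β γ : X → ℝ) (h : ∀ t s, J.v t s = lse (wr α β γ t s)) (a b : ℝ) :
    J.Om a b = OmR α β γ a b := by
  have e : J = rootJ α β γ := hJ.unique (rootJ_ok α β γ) h
  rw [e, rootJ_Om]

end Root2

end

end Pool.W7d29a1.C0.EM92
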