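import Pool.Agent.W_7d29a1_C0.Rec96
import Pool.Agent.W_7d29a1_LB.ConsL29

/-!
STORM C0 (helper96): from the recursion for the resistivity to the limsup form of the lower bound, at one tilt.
-/

set_option autoImplicit false

namespace Pool.Agent.W_7d29a1_C0

open MeasureTheory Filter Topology
open Pool.Agent.W_7d29a1_H Pool.Agent.W_7d29a1_LB
open Pool.Agent.W_7d29a1_h47 (EM Nondeg)

/-- The recursion under stiffness gives `n ^ (1 / 3 - ε) ≤ E_n` for arbitrarily large lengths `n`. -/
theorem cvl96 {μ : Measure ℝ} [IsProbabilityMeasure μ] {s : ℝ} (h : ∀ c : ℝ, 0 < c → Stiff96 (EE μ s) c → Rec96 (EE μ s)) : CVL29 μ s :=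
  fun _ε hε => (end96 (Eventually.of_forall fun n => one_le_EE n) h hε).mono fun _n hn => hn.le

end Pool.Agent.W_7d29a1_C0
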