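import Pool.Agent.W_7d29a1_C0.Rec96B
import Pool.Agent.W_7d29a1_C0.End96
import Pool.Agent.W_7d29a1_LB.All29

/-!
STORM C0 (helper96): from what the model side delivers (`Mod96`) to the limsup form of the lower bound, at every tilt.
-/

set_option autoImplicit false

namespace Pool.Agent.W_7d29a1_C0

open MeasureTheory Filter Topology
open Pool.Agent.W_7d29a1_H Pool.Agent.W_7d29a1_LB Pool.Agent.W_7d29a1_HK20
open Pool.Agent.W_7d29a1_h47 (EM Nondeg)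

variable {μ : Measure ℝ} [IsProbabilityMeasure μ]

/-- `n ^ (1 / 4) ≤ E_n`, at every tilt. -/
theorem quarter96 (hE : EM μ) (hN : Nondeg μ) (s : ℝ) : ∀ᶠ n : ℕ in atTop, (n : ℝ) ^ (1 / 4 : ℝ) ≤ EE μ s n := by
  obtain ⟨d, hd, n₁, h2⟩ := (inp20 μ hE hN).np s
  obtain ⟨n₂, h3⟩ := lb_all hE hN s (d / 2) (by positivity)
  filter_upwards [eventually_ge_atTop 1, eventually_ge_atTop n₁, eventually_ge_atTop n₂] with n h4 h5 h6
  have hn1 : (1 : ℝ) ≤ n := by exact_mod_cast h4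
  have h10 := quarter29 (by linarith) (EE_pos (μ := μ) (s := s) n) (h2 n h5) (h3 n h6)
  exact (Real.rpow_le_rpow_of_exponent_le hn1 (by linarith)).trans h10

/-- The exponent of `κ` is at most `1 / 4`. -/
theorem kap_quarter96 (hE : EM μ) (hN : Nondeg μ) (s : ℝ) : KapLe96 (EE μ s) (1 / 4) := by
  intro ε hε
  filter_upwards [quarter96 hE hN s, eventually_ge_atTop 1] with n h1 h2
  have hn1 : (1 : ℝ) ≤ n := by exact_mod_cast h2
  have hn0 : (0 : ℝ) < n := by linarith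
  have e1 : ((n : ℝ) ^ (1 / 4 : ℝ)) ^ 3 ≤ EE μ s n ^ 3 := pow_le_pow_left₀ (Real.rpow_nonneg hn0.le _) h1 3
  have e2 : ((n : ℝ) ^ (1 / 4 : ℝ)) ^ 3 = (n : ℝ) ^ (3 / 4 : ℝ) := by
    rw [← Real.rpow_natCast, ← Real.rpow_mul hn0.le]
    norm_num
  calc (n : ℝ) = (n : ℝ) ^ (1 / 4 : ℝ) * (n : ℝ) ^ (3 / 4 : ℝ) := by
        rw [← Real.rpow_add hn0]
        norm_num
    _ ≤ (n : ℝ) ^ (1 / 4 + ε) * EE μ s n ^ 3 :=
        mul_le_mul (Real.rpow_le_rpow_of_exponent_le hn1 (by linarith)) (e2 ▸ e1) (Real.rpow_nonneg hn0.le _)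
          (Real.rpow_nonneg hn0.le _)

/-- **The lower bound from the model side**: `Mod96` under stiffness gives `n ^ (1 / 3 - ε) ≤ E_n` along a sequence of lengths. -/
theorem cvl_mod96 (hE : EM μ) (hN : Nondeg μ) {s : ℝ}
    (h : ∀ c : ℝ, 0 < c → Stiff96 (EE μ s) c → ∀ Θ : ℝ, 0 < Θ → Θ ≤ 1 / 4 → KapLe96 (EE μ s) Θ → Mod96 (EE μ s) Θ) : CVL29 μ s :=
  cvl96 fun c hc hst => rec_of96 EE_mono (fun n => one_le_EE n) (fun n => EE_mul hE s n (k := 2) (by norm_num)) hc.le hst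
    (kap_quarter96 hE hN s) (h c hc hst)

end Pool.Agent.W_7d29a1_C0
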