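import Pool.Agent.W_7d29a1_C0.End96B
import Pool.Agent.W_7d29a1_C0.Num46P
import Pool.Agent.W_7d29a1_HZ.PB

/-!
STORM C0 (helper46): the regime holds (`reg46`). This file imports the ends of LB and UB; it is for the last file only, the leaves take
`RegP46` (file `Num46P`) as a hypothesis.
-/

set_option autoImplicit false

namespace Pool.Agent.W_7d29a1_C0

open Filter Topology

section reg

open MeasureTheory
open Pool.Agent.W_7d29a1_H Pool.Agent.W_7d29a1_LB Pool.Agent.W_7d29a1_HK20 Pool.Agent.W_7d29a1_HS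
open Pool.Agent.W_7d29a1_HZ (wd' EE' wd'_pow EE'_pow wd'_eq)
open Pool.Agent.W_7d29a1_h47 (EM Nondeg)

/-- What holds for all large `r` holds for all `r ≥ n ^ δ`, for all large `n`. -/
theorem ev46 {P : ℕ → Prop} (h : ∀ᶠ r : ℕ in atTop, P r) {δ : ℝ} (hδ : 0 < δ) :
    ∀ᶠ n : ℕ in atTop, ∀ r : ℕ, (n : ℝ) ^ δ ≤ r → P r := by
  obtain ⟨r₀, hr₀⟩ := eventually_atTop.1 h
  have h1 : ∀ᶠ n : ℕ in atTop, (r₀ : ℝ) ≤ (n : ℝ) ^ δ :=
    ((tendsto_rpow_atTop hδ).comp tendsto_natCast_atTop_atTop).eventually_ge_atTop _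
  filter_upwards [h1] with n hn r hr
  exact hr₀ r (by exact_mod_cast hn.trans hr)

theorem evpow46 {ε : ℝ} (hε : 0 < ε) (K : ℝ) : ∀ᶠ n : ℕ in atTop, K ≤ (n : ℝ) ^ ε :=
  ((tendsto_rpow_atTop hε).comp tendsto_natCast_atTop_atTop).eventually_ge_atTop K

theorem evlog46 {ε : ℝ} (hε : 0 < ε) : ∀ᶠ n : ℕ in atTop, Real.logb 2 n + 1 ≤ (n : ℝ) ^ ε := by
  have hl2 : 0 < Real.log 2 := Real.log_pos one_lt_two
  filter_upwards [(tend96 hε).eventually_le_const (show (0 : ℝ) < Real.log 2 / 2 by positivity), evpow46 hε 2,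
    eventually_ge_atTop 1] with n h3 h4 h5
  have hn : (1 : ℝ) ≤ n := by exact_mod_cast h5
  have hn0 : (0 : ℝ) < n := by linarith
  have hp : 0 < (n : ℝ) ^ ε := Real.rpow_pos_of_pos hn0 _
  have e1 : Real.log n ≤ (n : ℝ) ^ ε * (Real.log 2 / 2) := by
    calc Real.log n = (n : ℝ) ^ ε * ((n : ℝ) ^ (-ε) * Real.log n) := by
          rw [← mul_assoc, ← Real.rpow_add hn0]
          simp
      _ ≤ _ := mul_le_mul_of_nonneg_left h3 hp.le
  have e2 : Real.logb 2 n ≤ (n : ℝ) ^ ε / 2 := by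
    rw [Real.logb, div_le_iff₀ hl2]
    linarith
  linarith

variable {μ : Measure ℝ} [IsProbabilityMeasure μ]

/-- **The regime.** -/
theorem reg46 (hE : EM μ) (hN : Nondeg μ) (s : ℝ) {c₀ Θ : ℝ} (hc₀ : 0 < c₀) (hΘ : 0 < Θ) (hst : Stiff96 (EE μ s) c₀)
    (hk : KapLe96 (EE μ s) Θ) : ∃ a : ℝ, 0 < a ∧ a < 1 ∧ ∀ δ ε : ℝ, 0 < δ → 0 < ε → ∀ᶠ n : ℕ in atTop,
      Reg46 (EE μ s) (wd μ s) c₀ Θ δ a ε n ∧ ∀ r : ℕ, (n : ℝ) ^ δ ≤ r → wd' μ s r = wd μ s r := by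
  obtain ⟨c, C, n₀, h⟩ := in_tilt hE hN s
  obtain ⟨a₁, K₁, ha₁, ha₁', hK₁, hw⟩ := wd'_pow h
  obtain ⟨a₂, K₂, ha₂, ha₂', hK₂, hEE⟩ := EE'_pow h
  obtain ⟨n₁, hn₁⟩ := wd'_eq h
  obtain ⟨a, ha⟩ : ∃ a, a = min a₁ a₂ := ⟨_, rfl⟩
  have haa₁ : a ≤ a₁ := ha ▸ min_le_left _ _
  have haa₂ : a ≤ a₂ := ha ▸ min_le_right _ _
  refine ⟨a, ha ▸ lt_min ha₁ ha₂, by linarith, fun δ ε hδ hε => ?_⟩
  filter_upwards [ev46 (eventually_ge_atTop n₁) hδ, evpow46 hε 16, evpow46 hε K₁, evpow46 hε K₂, evlog46 hε,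
    ev46 (eventually_atTop.2 (ub_all29 hE hN s ε hε)) hδ, ev46 (eventually_atTop.2 (lb_all hE hN s ε hε)) hδ, ev46 hst hδ,
    ev46 (hk ε hε) hδ, ev46 (quarter96 hE hN s) hδ, eventually_ge_atTop 2] with n g1 g2 g3 g4 g5 g6 g7 g8 g9 g10 g11
  have hn1 : (1 : ℝ) < n := by
    have : 1 < n := by omega
    exact_mod_cast this
  have hn0 : (0 : ℝ) < n := by linarith
  have hpos : ∀ r : ℕ, (n : ℝ) ^ δ ≤ r → 0 < r := fun r hr => by
    have : (0 : ℝ) < r := (Real.rpow_pos_of_pos hn0 _).trans_le hr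
    exact_mod_cast this
  have hpw : ∀ r : ℕ, (r : ℝ) ≤ n → (r : ℝ) ^ ε ≤ (n : ℝ) ^ ε := fun r hr => Real.rpow_le_rpow (Nat.cast_nonneg _) hr hε.le
  have hwe : ∀ r : ℕ, (n : ℝ) ^ δ ≤ r → wd' μ s r = wd μ s r := fun r hr => (hn₁ r (g1 r hr)).1
  have hquo : ∀ t r : ℕ, 1 ≤ t → t ≤ r → (1 : ℝ) ≤ (r : ℝ) / t := fun t r ht htr => by
    have : (0 : ℝ) < t := by exact_mod_cast ht
    rw [le_div_iff₀ this, one_mul]
    exact_mod_cast htr
  have hwpos : ∀ r : ℕ, 1 ≤ r → 0 < wd μ s r := fun r hr => wd_pos96 h hr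
  refine ⟨?_, hwe⟩
  refine { N1 := hn1, c₀0 := hc₀, Θ0 := hΘ, δ0 := hδ, a0 := ha ▸ lt_min ha₁ ha₂, a1 := by linarith, ε0 := hε,
           E1 := fun n => one_le_EE n, mono := EE_mono, dbl := fun n => ?_, w0 := hwpos, K := g2, lg := g5,
           wle := fun r hr => ?_, wge := fun r hr => ?_, stiff := fun r hr => ?_, kap := fun r hr => g9 r hr.lo,
           quart := fun r hr => g10 r hr.lo, half := fun t r ht htr => ?_, low := fun t r ht htr => ?_,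
           wmono := fun t r ht htr => ?_, wlow := fun t r ht htr => ?_, wup := fun t r ht htr => ?_ }
  · have := EE_mul hE s n (k := 2) (by norm_num)
    exact_mod_cast this
  · exact (g7 r hr.lo).trans (mul_le_mul_of_nonneg_right (hpw r hr.hi) (by positivity))
  · exact (g6 r hr.lo).trans (mul_le_mul_of_nonneg_right (hpw r hr.hi) (hwpos r (hpos r hr.lo)).le)
  · have hr0 : (0 : ℝ) < r := by exact_mod_cast hpos r hr.lo
    have h1 : EE μ s r ^ 3 ≤ ((r : ℝ) ^ (1 / 3 - c₀)) ^ 3 := pow_le_pow_left₀ (EE_pos r).le (g8 r hr.lo) 3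
    calc (r : ℝ) ^ (3 * c₀) * EE μ s r ^ 3 ≤ (r : ℝ) ^ (3 * c₀) * ((r : ℝ) ^ (1 / 3 - c₀)) ^ 3 :=
          mul_le_mul_of_nonneg_left h1 (Real.rpow_nonneg hr0.le _)
      _ = r := by
          rw [← Real.rpow_natCast ((r : ℝ) ^ (1 / 3 - c₀)) 3, ← Real.rpow_mul hr0.le, ← Real.rpow_add hr0]
          have : 3 * c₀ + (1 / 3 - c₀) * ((3 : ℕ) : ℝ) = 1 := by
            push_cast
            ring
          rw [this, Real.rpow_one]
  · have h1 := (hEE t r ht htr).2.2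
    rw [EE'_eq46, EE'_eq46] at h1
    exact h1.trans (mul_le_mul_of_nonneg_right (mul_le_mul_of_nonneg_right g4 (Real.sqrt_nonneg _)) (EE_pos t).le)
  · have h1 := (hEE t r ht htr).2.1
    rw [EE'_eq46, EE'_eq46, mul_assoc, inv_mul_le_iff₀ (by linarith)] at h1
    calc ((r : ℝ) / t) ^ a * EE μ s t ≤ ((r : ℝ) / t) ^ a₂ * EE μ s t :=
          mul_le_mul_of_nonneg_right (Real.rpow_le_rpow_of_exponent_le (hquo t r ht htr) haa₂) (EE_pos t).le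
      _ ≤ K₂ * EE μ s r := h1
      _ ≤ _ := mul_le_mul_of_nonneg_right g4 (EE_pos r).le
  · have ht1 := hpos t ht
    have hr' : (n : ℝ) ^ δ ≤ r := ht.trans (by exact_mod_cast htr)
    have h1 := (hw t r ht1 htr).1
    rw [hwe t ht, hwe r hr'] at h1
    exact h1.trans (mul_le_mul_of_nonneg_right g3 (hwpos r (hpos r hr')).le)
  · have ht1 := hpos t ht
    have hr' : (n : ℝ) ^ δ ≤ r := ht.trans (by exact_mod_cast htr)
    have h1 := (hw t r ht1 htr).2.1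
    rw [hwe t ht, hwe r hr', mul_assoc, inv_mul_le_iff₀ (by linarith)] at h1
    calc ((r : ℝ) / t) ^ a * wd μ s t ≤ ((r : ℝ) / t) ^ a₁ * wd μ s t :=
          mul_le_mul_of_nonneg_right (Real.rpow_le_rpow_of_exponent_le (hquo t r ht1 htr) haa₁) (hwpos t ht1).le
      _ ≤ K₁ * wd μ s r := h1
      _ ≤ _ := mul_le_mul_of_nonneg_right g3 (hwpos r (hpos r hr')).le
  · have ht1 := hpos t ht
    have hr' : (n : ℝ) ^ δ ≤ r := ht.trans (by exact_mod_cast htr)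
    have h1 := (hw t r ht1 htr).2.2
    rw [hwe t ht, hwe r hr'] at h1
    refine h1.trans (mul_le_mul_of_nonneg_right (mul_le_mul g3 ?_ (Real.rpow_nonneg (by positivity) _) (by positivity))
      (hwpos t ht1).le)
    exact Real.rpow_le_rpow_of_exponent_le (hquo t r ht1 htr) (by linarith)

/-- The regime at the lengths `2 ^ m`. -/
theorem regP46 (hE : EM μ) (hN : Nondeg μ) (s : ℝ) {c₀ Θ : ℝ} (hc₀ : 0 < c₀) (hΘ : 0 < Θ) (hst : Stiff96 (EE μ s) c₀)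
    (hk : KapLe96 (EE μ s) Θ) : RegP46 μ s c₀ Θ := by
  obtain ⟨a, ha, ha', h⟩ := reg46 hE hN s hc₀ hΘ hst hk
  refine ⟨a, ha, ha', fun δ ε hδ hε => ?_⟩
  exact (tendsto_pow_atTop_atTop_of_one_lt (one_lt_two : 1 < (2 : ℕ))).eventually (h δ ε hδ hε)

end reg

end Pool.Agent.W_7d29a1_C0
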