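import Pool.Agent.W_7d29a1_C0.AsmC96
import Pool.Agent.W_7d29a1_C0.End96B
import Pool.Agent.W_7d29a1_C0.Num46R

/-!
STORM C0 (helper96): from the estimates of the model side (`Dlv96`, frame NG) to the limsup form of the lower bound, at every tilt. The
model side may use stiffness, the exponent `Θ` of `κ` and the regime `RegP46` (helper46).
-/

set_option autoImplicit false

namespace Pool.Agent.W_7d29a1_C0.Asm96

open MeasureTheory Filter Topology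
open Pool.Agent.W_7d29a1_H Pool.Agent.W_7d29a1_LB Pool.Agent.W_7d29a1_HK20 Pool.Agent.W_7d29a1_C0
open Pool.Agent.W_7d29a1_h47 (EM Nondeg)

variable {μ : Measure ℝ} [IsProbabilityMeasure μ]

/-- **The lower bound from the estimates of the model side.** -/
theorem cvl_asm96 (hE : EM μ) (hN : Nondeg μ) {s : ℝ}
    (h : ∀ a : ℝ, 0 < a → Stiff96 (EE μ s) a → ∀ Θ : ℝ, 0 < Θ → Θ ≤ 1 / 4 → KapLe96 (EE μ s) Θ → RegP46 μ s a Θ →
      ∃ δ c : ℝ, 0 < δ ∧ δ ≤ Θ / 8 ∧ 0 < c ∧ c ≤ δ / 64 ∧ ∃ (F : ℝ → ℝ → ℝ → Frm96) (c₁ : ℝ), 0 < c₁ ∧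
        Dlv96 μ s F (EE μ s) Θ δ c c₁) : CVL29 μ s :=
  cvl_mod96 hE hN fun a ha hst Θ hΘ hΘ4 hK =>
    mod_of96 EE_mono (fun n => one_le_EE n) (kap_quarter96 hE hN s) hΘ (by linarith)
      (h a ha hst Θ hΘ hΘ4 hK (regP46 hE hN s ha hΘ hst hK))

end Pool.Agent.W_7d29a1_C0.Asm96
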