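import Pool.Agent.W_7d29a1_C0.FlipB61
import Pool.Agent.W_7d29a1_C0.Base5C

/-!
MP_7d29a1_pr, [CURV0], leaf E5, helper33: EQUIVARIANCE UNDER THE FLIP OF FUNCTIONALS WITH TILTED CONDITIONAL MEANS. `EC`: the conditional
means of a block at two log weights respect `Eqv`; it is stable under adding equivariant functions (`EC.add`, `EC.line`), so the mixed
conditional cumulants (`eqv_kX`), the exact responses (`eqv_gb81`), the third order part (`eqv_N1g`), the double ties (`eqv_N2g`) and the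
odd part (`eqv_Mg`) are equivariant. `cov_loc`: from `Eqv` for all related environments to `Cov1`. `cov_ge5`, `cov_N5e`, `cov_N25e`,
`cov_M5e`, `cov_srM5e`, `cov_X5e`: THE PARTS OF THE CHANGE OF BASE OF A ROW `k` ARE COVARIANT for the flip of a row `j` whose window is
disjoint from the window of `k`.
-/

set_option autoImplicit false
set_option linter.unusedSectionVars false

namespace Pool.W7d29a1.C0.EqK33

open Pool.Agent.W_7d29a1_F hiding W_pos W_nonneg W_add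
open Finset MeasureTheory Pool.Agent.W_7d29a1_X Pool.Agent.W_7d29a1_HZ
open Pool.Agent.W_7d29a1_C0.Mod92 Pool.Agent.W_7d29a1_C0.Blk18 Pool.Agent.W_7d29a1_C0.Flip61 Pool.Agent.W_7d29a1_C0.Base5
open Pool.W7d29a1.C0
open Pool.W7d29a1.C0.VT31 (Mp Crs cE cV cC fz gc gv)

noncomputable section

/-! ### Tilts -/

section Gen

variable {X : Type*} [Fintype X] [Nonempty X] {Y : Type*} [DecidableEq Y]

/-- The conditional mean under tilted weights. -/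
theorem cE_tl (w h f : X → ℝ) (p : X → Y) (x : X) : cE (w + h) p f x =
    cE w p (fun x => Real.exp (h x) * f x) x / cE w p (fun x => Real.exp (h x)) x := by
  have e1 : ∀ g : X → ℝ, (∑ x', if p x' = p x then Real.exp ((w + h) x') * g x' else 0) =
      ∑ x', if p x' = p x then Real.exp (w x') * (Real.exp (h x') * g x') else 0 := fun g =>
    sum_congr rfl fun x' _ => by rw [Pi.add_apply, Real.exp_add, mul_assoc]
  have e2 : fz (w + h) p x = ∑ x', if p x' = p x then Real.exp (w x') * Real.exp (h x') else 0 := by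
    unfold fz
    exact sum_congr rfl fun x' _ => by rw [Pi.add_apply, Real.exp_add]
  unfold cE
  rw [e1, e2, div_div_div_cancel_right₀ (VT31.fz_pos w p x).ne']

end Gen

/-! ### Conditional means which respect equivariance -/

section EC

variable {c l : ℕ} {v : ℤ} {Q₁ Q₂ : Finset (Finset ℕ)}

theorem eqv_comp {f : Px Q₁ → ℝ} {f' : Px Q₂ → ℝ} (h : Eqv c l v f f') (φ : ℝ → ℝ) :
    Eqv c l v (fun S => φ (f S)) (fun S => φ (f' S)) := fun S S' e => by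
  show φ (f S) = φ (f' S')
  rw [h S S' e]

/-- **The conditional means of the block `[c', d')` at the log weights `w`, `w'` respect equivariance.** -/
def EC (c l : ℕ) (v : ℤ) {Q₁ Q₂ : Finset (Finset ℕ)} (c' d' : ℕ) (w : Px Q₁ → ℝ) (w' : Px Q₂ → ℝ) : Prop :=
  ∀ (f : Px Q₁ → ℝ) (f' : Px Q₂ → ℝ), Eqv c l v f f' → Eqv c l v (cE w (pJ c' d') f) (cE w' (pJ c' d') f')

variable [Nonempty (Px Q₁)] [Nonempty (Px Q₂)] {c' d' cv dv : ℕ} {w g γ : Px Q₁ → ℝ} {w' g' γ' : Px Q₂ → ℝ}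

theorem EC.add (h : EC c l v c' d' w w') {u : Px Q₁ → ℝ} {u' : Px Q₂ → ℝ} (hu : Eqv c l v u u') :
    EC c l v c' d' (w + u) (w' + u') := by
  intro f f' hf S S' e
  have h1 := h _ _ (eqv_comp hu Real.exp) S S' e
  have h2 := h _ _ ((eqv_comp hu Real.exp).mul hf) S S' e
  rw [cE_tl, cE_tl, h1]
  congr 1

theorem EC.line (h : EC c l v c' d' w w') (hg : Eqv c l v g g') (t : ℝ) : EC c l v c' d' (w + t • g) (w' + t • g') :=
  h.add (hg.smul t)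

theorem EC.cC (h : EC c l v c' d' w w') (hg : Eqv c l v g g') (hγ : Eqv c l v γ γ') :
    Eqv c l v (VT31.cC w (pJ c' d') g γ) (VT31.cC w' (pJ c' d') g' γ') :=
  (h _ _ (hg.mul hγ)).sub ((h _ _ hg).mul (h _ _ hγ))

theorem EC.cV (h : EC c l v c' d' w w') (hg : Eqv c l v g g') :
    Eqv c l v (VT31.cV w (pJ c' d') g) (VT31.cV w' (pJ c' d') g') := h.cC hg hg

theorem EC.Zr (h : EC c l v c' d' w w') (a : ℝ) (hg : Eqv c l v g g') :
    Eqv c l v (VT31.Zr w (pJ c' d') a g) (VT31.Zr w' (pJ c' d') a g') := (h _ _ hg).sub ((h.cV hg).smul _)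

/-- **The mixed conditional cumulants are equivariant.** -/
theorem eqv_kX : ∀ (gs : List (Px Q₁ → ℝ)) (gs' : List (Px Q₂ → ℝ)), List.Forall₂ (Eqv c l v) gs gs' → gs ≠ [] →
    ∀ (w : Px Q₁ → ℝ) (w' : Px Q₂ → ℝ), EC c l v c' d' w w' → Eqv c l v (kX (pJ c' d') gs w) (kX (pJ c' d') gs' w')
  | [], _, _, h0, _, _, _ => absurd rfl h0
  | [g], _, h, _, w, w', hw => by
    cases h with
    | cons h1 h2 =>
      cases h2
      rw [kX_one, kX_one]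
      exact hw _ _ h1
  | g :: g₂ :: gs, _, h, _, w, w', hw => by
    obtain ⟨g', t₁, h1, h2, rfl⟩ := List.forall₂_cons_left_iff.1 h
    obtain ⟨g₂', gs', h3, h4, rfl⟩ := List.forall₂_cons_left_iff.1 h2
    have ih := eqv_kX (g₂ :: gs) (g₂' :: gs') (List.Forall₂.cons h3 h4) (List.cons_ne_nil _ _)
    intro S S' e
    have d1 := hasDerivAt_kX (pJ (Q := Q₁) c' d') (g₂ :: gs) (hasDerivAt_line w g 0) S
    have d2 := hasDerivAt_kX (pJ (Q := Q₂) c' d') (g₂' :: gs') (hasDerivAt_line w' g' 0) S'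
    have e1 : (fun u : ℝ => kX (pJ (Q := Q₁) c' d') (g₂ :: gs) (w + u • g) S) =
        fun u => kX (pJ (Q := Q₂) c' d') (g₂' :: gs') (w' + u • g') S' := by
      funext u
      exact ih _ _ (hw.line h1 u) S S' e
    rw [e1] at d1
    have h5 := d1.unique d2
    rwa [zero_smul, zero_smul, add_zero, add_zero] at h5

/-- **The exact responses are equivariant.** -/
theorem eqv_gb81 (h : EC c l v c' d' w w') (hg : Eqv c l v g g') :
    Eqv c l v (gb81 w g (pJ c' d')) (gb81 w' g' (pJ c' d')) := by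
  intro S S' e
  rw [gb81_apply, gb81_apply]
  congr 1
  funext t
  exact h.line hg t _ _ hg S S' e

/-- **The third order part.** -/
theorem eqv_N1g (h : EC c l v c' d' w w') (hg : Eqv c l v g g') (hγ : Eqv c l v γ γ') :
    Eqv c l v (N1g w g (pJ c' d') γ) (N1g w' g' (pJ c' d') γ') := by
  intro S S' e
  have h1 : ∀ t : ℝ, kX (pJ c' d') [g, g, γ, g] (w + t • g) S = kX (pJ c' d') [g', g', γ', g'] (w' + t • g') S' := fun t =>
    eqv_kX _ _ (List.Forall₂.cons hg (List.Forall₂.cons hg (List.Forall₂.cons hγ (List.Forall₂.cons hg List.Forall₂.nil))))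
      (List.cons_ne_nil _ _) _ _ (h.line hg t) S S' e
  unfold N1g
  simp only [h1]

/-- **The double ties.** -/
theorem eqv_N2g (h : EC c l v c' d' w w') (hv : EC c l v cv dv w w') (hg : Eqv c l v g g') (hγ : Eqv c l v γ γ') :
    Eqv c l v (N2g w g (pJ c' d') (pJ cv dv) γ) (N2g w' g' (pJ c' d') (pJ cv dv) γ') := by
  intro S S' e
  have h1 : ∀ s t : ℝ, VT31.cC (w + t • g) (pJ c' d') g (VT31.cV (w + s • g) (pJ cv dv) g) S =
      VT31.cC (w' + t • g') (pJ c' d') g' (VT31.cV (w' + s • g') (pJ cv dv) g') S' := fun s t =>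
    (h.line hg t).cC hg ((hv.line hg s).cV hg) S S' e
  have h2 : ∀ s t : ℝ, VT31.cC (w + t • g) (pJ c' d') γ (VT31.cV (w + s • g) (pJ cv dv) g) S =
      VT31.cC (w' + t • g') (pJ c' d') γ' (VT31.cV (w' + s • g') (pJ cv dv) g') S' := fun s t =>
    (h.line hg t).cC hγ ((hv.line hg s).cV hg) S S' e
  unfold N2g
  simp only [h1, h2]

/-- **The odd part.** -/
theorem eqv_Mg (h : EC c l v c' d' w w') (hg : Eqv c l v g g') (hγ : Eqv c l v γ γ') :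
    Eqv c l v (Mg w g (pJ c' d') γ) (Mg w' g' (pJ c' d') γ') := by
  intro S S' e
  have h1 : ∀ t : ℝ, Fg w g (pJ c' d') γ S t = Fg w' g' (pJ c' d') γ' S' t := fun t => (h.line hg t).Zr t hγ S S' e
  unfold Mg Dc
  rw [h1, h1]

end EC

/-! ### The model -/

section Model

variable {μ : Measure ℝ} {s : ℝ} {N c l : ℕ} {v : ℤ} {Q₁ Q₂ : Finset (Finset ℕ)} [Nonempty (Px Q₁)] [Nonempty (Px Q₂)]

/-- The actual weights. -/
theorem ec_wm {r : ℕ} (hr : r ≤ l) {ω ω' : Env × Finset ℕ} (h : Rel (c + r) v ω.1 ω'.1) (hQ₁ : Full N Q₁) (hQ₂ : Full N Q₂)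
    {c' d' : ℕ} (hcd : c' ≤ d') (hdN : d' ≤ N) (hd : d' ≤ c ∨ c + l ≤ c') :
    EC c l v c' d' (wm μ s N Q₁ ω) (wm μ s N Q₂ ω') := fun _ _ hf => eqv_cE hr h hQ₁ hQ₂ hcd hdN hd hf

/-- The weights with the kick of a row taken out. -/
theorem ec_w5 {r : ℕ} (hr : r ≤ l) {ω ω' : Env × Finset ℕ} (h : Rel (c + r) v ω.1 ω'.1) (hQ₁ : Full N Q₁) (hQ₂ : Full N Q₂)
    {c' d' : ℕ} (hcd : c' ≤ d') (hdN : d' ≤ N) (hd : d' ≤ c ∨ c + l ≤ c') (δ B : ℝ) {b0 k : ℕ} (hs : sg ω'.2 k = sg ω.2 k)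
    (hw : k + b0 ≤ c ∨ c + l ≤ k - b0) : EC c l v c' d' (w5 μ s N Q₁ δ B b0 ω k) (w5 μ s N Q₂ δ B b0 ω' k) := by
  have h1 := (ec_wm (μ := μ) (s := s) hr h hQ₁ hQ₂ hcd hdN hd).add
    ((eqv_gg (μ := μ) (s := s) (Q₁ := Q₁) (Q₂ := Q₂) hr h δ B hs hw).smul (-(sr ω.2 k)))
  have e : sr ω'.2 k = sr ω.2 k := by
    unfold sr
    rw [hs]
  unfold w5
  rw [e, sub_eq_add_neg, sub_eq_add_neg, ← neg_smul, ← neg_smul]
  exact h1

/-- The data of a row `k` whose window of length `b'` is disjoint from the window of the flip. -/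
structure Dk33 (N c l : ℕ) (v : ℤ) (b' k : ℕ) (Q₁ Q₂ : Finset (Finset ℕ)) (ω ω' : Env × Finset ℕ) : Prop where
  rel : ∃ r ≤ l, Rel (c + r) v ω.1 ω'.1
  f1 : Full N Q₁
  f2 : Full N Q₂
  hN : k + b' ≤ N
  sgn : sg ω'.2 k = sg ω.2 k
  dis : k + b' ≤ c ∨ c + l ≤ k - b'

variable {b' k : ℕ} {ω ω' : Env × Finset ℕ}

theorem Dk33.egg (h : Dk33 N c l v b' k Q₁ Q₂ ω ω') (δ B : ℝ) {b : ℕ} (hb : b ≤ b') :
    Eqv c l v (gg μ s Q₁ δ B b ω k) (gg μ s Q₂ δ B b ω' k) := by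
  obtain ⟨r, hr, hR⟩ := h.rel
  have := h.dis
  exact eqv_gg hr hR δ B h.sgn (by omega)

theorem Dk33.ewm (h : Dk33 N c l v b' k Q₁ Q₂ ω ω') {b : ℕ} (hb : b ≤ b') :
    EC c l v (k - b) (k + b) (wm μ s N Q₁ ω) (wm μ s N Q₂ ω') := by
  obtain ⟨r, hr, hR⟩ := h.rel
  have := h.dis
  have := h.hN
  exact ec_wm hr hR h.f1 h.f2 (by omega) (by omega) (by omega)

theorem Dk33.ew5 (h : Dk33 N c l v b' k Q₁ Q₂ ω ω') (δ B : ℝ) {b0 b : ℕ} (h0 : b0 ≤ b') (hb : b ≤ b') :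
    EC c l v (k - b) (k + b) (w5 μ s N Q₁ δ B b0 ω k) (w5 μ s N Q₂ δ B b0 ω' k) := by
  obtain ⟨r, hr, hR⟩ := h.rel
  have := h.dis
  have := h.hN
  exact ec_w5 hr hR h.f1 h.f2 (by omega) (by omega) (by omega) δ B h.sgn (by omega)

theorem Dk33.ege5 (h : Dk33 N c l v b' k Q₁ Q₂ ω ω') (δ B : ℝ) {b0 b : ℕ} (h0 : b0 ≤ b') (hb : b ≤ b') :
    Eqv c l v (ge5 μ s N Q₁ δ B b0 b ω k) (ge5 μ s N Q₂ δ B b0 b ω' k) :=
  eqv_gb81 (h.ew5 δ B h0 hb) (h.egg δ B h0)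

/-- **The third order part.** -/
theorem Dk33.eN5e (h : Dk33 N c l v b' k Q₁ Q₂ ω ω') (δ B : ℝ) {b0 b : ℕ} (h0 : b0 ≤ b') (hb : b ≤ b') :
    Eqv c l v (N5e μ s N Q₁ δ B b0 b b' ω k) (N5e μ s N Q₂ δ B b0 b b' ω' k) :=
  eqv_N1g (h.ew5 δ B h0 le_rfl) (h.egg δ B h0) (h.ege5 δ B h0 hb)

/-- **The double ties.** -/
theorem Dk33.eN25e (h : Dk33 N c l v b' k Q₁ Q₂ ω ω') (δ B : ℝ) {b0 b : ℕ} (h0 : b0 ≤ b') (hb : b ≤ b') :
    Eqv c l v (N25e μ s N Q₁ δ B b0 b b' ω k) (N25e μ s N Q₂ δ B b0 b b' ω' k) :=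
  eqv_N2g (h.ew5 δ B h0 le_rfl) (h.ew5 δ B h0 hb) (h.egg δ B h0) (h.ege5 δ B h0 hb)

/-- **The odd part.** -/
theorem Dk33.eM5e (h : Dk33 N c l v b' k Q₁ Q₂ ω ω') (δ B : ℝ) {b0 b : ℕ} (h0 : b0 ≤ b') (hb : b ≤ b') :
    Eqv c l v (M5e μ s N Q₁ δ B b0 b b' ω k) (M5e μ s N Q₂ δ B b0 b b' ω' k) :=
  eqv_Mg (h.ew5 δ B h0 le_rfl) (h.egg δ B h0) (h.ege5 δ B h0 hb)

/-- **The main part.** -/
theorem Dk33.eX5e (h : Dk33 N c l v b' k Q₁ Q₂ ω ω') (δ B : ℝ) {b0 b : ℕ} (h0 : b0 ≤ b') (hb : b ≤ b') :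
    Eqv c l v (X5e μ s N Q₁ δ B b0 b b' ω k) (X5e μ s N Q₂ δ B b0 b b' ω' k) := by
  have e : sr ω'.2 k = sr ω.2 k := by
    unfold sr
    rw [h.sgn]
  unfold X5e Xg
  rw [e]
  exact ((h.ewm (μ := μ) (s := s) le_rfl).Zr (sr ω.2 k) (h.ege5 δ B h0 hb)).sub (h.ege5 δ B h0 le_rfl)

end Model

/-! ### Covariance -/

section Cov

variable {μ : Measure ℝ} {s : ℝ} {N b j : ℕ}

/-- **Covariance from equivariance for all related environments.** -/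
theorem cov_loc {F : (y : ℕ) → Env × Finset ℕ → Px (Pn N y) → ℝ} {M : ℝ} (hM : 0 ≤ M) (hb : ∀ y ω S, |F y ω S| ≤ M)
    (hm : ∀ y S, Measurable fun ω => F y ω S)
    (he : ∀ (v : ℤ) (y y' : ℕ), Nonempty (Px (Pn N y)) → Nonempty (Px (Pn N y')) → ∀ ω ω' : Env × Finset ℕ,
      Rel (j - b + (j - (j - b))) v ω.1 ω'.1 → (∀ k, k ≠ j → sg ω'.2 k = sg ω.2 k) →
      Eqv (j - b) (j + b - (j - b)) v (F y ω) (F y' ω')) : Cov1 N b j F M where
  pos := hM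
  bdd := hb
  mes := hm
  mp y ω := by
    intro S S' e
    exact mp_iff'.2 (he 0 y y ⟨S⟩ ⟨S⟩ ω ω (rel_refl _ _) fun _ _ => rfl) S S' e
  eqv y _ _ ω := fun S S' e => he _ _ _ ⟨S⟩ ⟨S'⟩ ω (Tj j ω) (rel_Tj b j ω) (fun k hk => sg_flp_ne hk ω.2) S S' e

/-- The data for the flip of a row `j`. -/
theorem dk33 {b' k : ℕ} (hb' : 0 < b') (hk : k + 2 * b' ≤ j ∨ j + 2 * b' ≤ k) (hkN : k + b' ≤ N) {v : ℤ} {y y' : ℕ}
    {ω ω' : Env × Finset ℕ} (h : Rel (j - b' + (j - (j - b'))) v ω.1 ω'.1) (hs : ∀ k, k ≠ j → sg ω'.2 k = sg ω.2 k) :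
    Dk33 N (j - b') (j + b' - (j - b')) v b' k (Pn N y) (Pn N y') ω ω' where
  rel := ⟨j - (j - b'), by omega, h⟩
  f1 := full_Pn N y
  f2 := full_Pn N y'
  hN := hkN
  sgn := hs k (by omega)
  dis := by omega

theorem _root_.Pool.Agent.W_7d29a1_C0.Flip61.Cov1.abs33 {f : (y : ℕ) → Env × Finset ℕ → Px (Pn N y) → ℝ} {M : ℝ}
    (h : Cov1 N b j f M) : Cov1 N b j (fun y ω S => |f y ω S|) M where
  pos := h.pos
  bdd y ω S := by
    rw [abs_abs]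
    exact h.bdd y ω S
  mes y S := (h.mes y S).abs
  mp y ω := fun S S' e => by
    show |f y ω S| = |f y ω S'|
    rw [h.mp y ω S S' e]
  eqv y h1 h2 ω := eqv_comp (h.eqv y h1 h2 ω) _

variable {b' k : ℕ} (hb' : 0 < b') (hk : k + 2 * b' ≤ j ∨ j + 2 * b' ≤ k) (hkN : k + b' ≤ N)

include hb' hk hkN

/-- The exact response. -/
theorem cov_ge5 (δ : ℝ) {B : ℝ} (hB : 0 ≤ B) {b0 b : ℕ} (h0 : b0 ≤ b') (hb : b ≤ b') :
    Cov1 N b' j (fun y ω => ge5 μ s N (Pn N y) δ B b0 b ω k) (B / 2) :=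
  cov_loc (by positivity) (fun y ω S => have : Nonempty (Px (Pn N y)) := ⟨S⟩; abs_ge5 hB b0 b ω k S)
    (fun y S => have : Nonempty (Px (Pn N y)) := ⟨S⟩; meas_ge5 δ B b0 b k S)
    fun _ _ _ _ _ _ _ h hs => (dk33 hb' hk hkN h hs).ege5 δ B h0 hb

/-- **The third order part of another row is covariant.** -/
theorem cov_N5e (δ : ℝ) {B : ℝ} (hB : 0 ≤ B) {b0 b : ℕ} (h0 : b0 ≤ b') (hb : b ≤ b') :
    Cov1 N b' j (fun y ω => N5e μ s N (Pn N y) δ B b0 b b' ω k) (K5 B) :=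
  cov_loc (K5_nonneg hB) (fun y ω S => have : Nonempty (Px (Pn N y)) := ⟨S⟩; abs_N5e hB b0 hb ω k S)
    (fun y S => have : Nonempty (Px (Pn N y)) := ⟨S⟩; meas_N5e δ B b0 hb k S)
    fun _ _ _ _ _ _ _ h hs => (dk33 hb' hk hkN h hs).eN5e δ B h0 hb

/-- **The double ties of another row are covariant.** -/
theorem cov_N25e (δ : ℝ) {B : ℝ} (hB : 0 ≤ B) {b0 b : ℕ} (h0 : b0 ≤ b') (hb : b ≤ b') :
    Cov1 N b' j (fun y ω => N25e μ s N (Pn N y) δ B b0 b b' ω k) (K5 B) :=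
  cov_loc (K5_nonneg hB) (fun y ω S => have : Nonempty (Px (Pn N y)) := ⟨S⟩; abs_N25e hB b0 b b' ω k S)
    (fun y S => have : Nonempty (Px (Pn N y)) := ⟨S⟩; meas_N25e δ B b0 b b' k S)
    fun _ _ _ _ _ _ _ h hs => (dk33 hb' hk hkN h hs).eN25e δ B h0 hb

/-- **The odd part of another row is covariant.** -/
theorem cov_M5e (δ : ℝ) {B : ℝ} (hB : 0 ≤ B) {b0 b : ℕ} (h0 : b0 ≤ b') (hb : b ≤ b') :
    Cov1 N b' j (fun y ω => M5e μ s N (Pn N y) δ B b0 b b' ω k) (K5 B) :=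
  cov_loc (K5_nonneg hB) (fun y ω S => have : Nonempty (Px (Pn N y)) := ⟨S⟩; abs_M5e hB b0 b b' ω k S)
    (fun y S => have : Nonempty (Px (Pn N y)) := ⟨S⟩; meas_M5e δ B b0 b b' k S)
    fun _ _ _ _ _ _ _ h hs => (dk33 hb' hk hkN h hs).eM5e δ B h0 hb

/-- The odd part with its sign. -/
theorem cov_srM5e (δ : ℝ) {B : ℝ} (hB : 0 ≤ B) {b0 b : ℕ} (h0 : b0 ≤ b') (hb : b ≤ b') :
    Cov1 N b' j (fun y ω S => sr ω.2 k * M5e μ s N (Pn N y) δ B b0 b b' ω k S) (K5 B) :=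
  cov_loc (K5_nonneg hB) (fun y ω S => by
      have : Nonempty (Px (Pn N y)) := ⟨S⟩
      rw [abs_mul, abs_sr, one_mul]
      exact abs_M5e hB b0 b b' ω k S)
    (fun y S => have : Nonempty (Px (Pn N y)) := ⟨S⟩; (meas_sr k).mul (meas_M5e δ B b0 b b' k S))
    fun v y y' n1 n2 ω ω' h hs => by
      have e : sr ω'.2 k = sr ω.2 k := by
        unfold sr
        rw [hs k (by omega)]
      rw [e]
      exact ((dk33 hb' hk hkN h hs).eM5e (μ := μ) (s := s) δ B h0 hb).smul (sr ω.2 k)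

/-- The main part. -/
theorem cov_X5e (δ : ℝ) {B : ℝ} (hB : 0 ≤ B) {b0 b : ℕ} (h0 : b0 ≤ b') (hb : b ≤ b') :
    Cov1 N b' j (fun y ω => X5e μ s N (Pn N y) δ B b0 b b' ω k) (K5 B) :=
  cov_loc (K5_nonneg hB) (fun y ω S => have : Nonempty (Px (Pn N y)) := ⟨S⟩; abs_X5e hB b0 b b' ω k S)
    (fun y S => have : Nonempty (Px (Pn N y)) := ⟨S⟩; meas_X5e δ B b0 b b' k S)
    fun _ _ _ _ _ _ _ h hs => (dk33 hb' hk hkN h hs).eX5e δ B h0 hb

end Cov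

end

end Pool.W7d29a1.C0.EqK33
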