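import Pool.Agent.W_7d29a1_C0.NTopF23

/-!
MP_7d29a1_pr, [CURV0] / [C0], leaves N1B, N2B, MB (helper3): THE CASE OF EQUAL WINDOWS. At `b' = b` the exact response is a function of the
outside of the window, so the three pieces vanish: `N5e_self`, `N25e_self`, `M5e_self`. Hence `RowN23` only has to be proved for `p < p'`:
`rowN23_lt`.
-/

set_option autoImplicit false
set_option linter.unusedSectionVars false

namespace Pool.Agent.W_7d29a1_C0.Eqw3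

open Finset MeasureTheory Filter Topology Pool.Agent.W_7d29a1_F Pool.Agent.W_7d29a1_X Pool.Agent.W_7d29a1_H Pool.Agent.W_7d29a1_C0.Mod92
open Pool.Agent.W_7d29a1_C0 Pool.Agent.W_7d29a1_C0.Asm96 Pool.Agent.W_7d29a1_C0.Base5
open Pool.Agent.W_7d29a1_C0.N38 Pool.Agent.W_7d29a1_C0.NTop23 Pool.Agent.W_7d29a1_C0.Sz23
open Pool.W7d29a1.C0 Pool.W7d29a1.C0.VT31

noncomputable section

section Abs

variable {X : Type*} [Fintype X] [DecidableEq X] [Nonempty X] {Y : Type*} [DecidableEq Y] {p : X → Y} {γ : X → ℝ}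

theorem cC_left3 (w : X → ℝ) (hγ : Mp p γ) (g : X → ℝ) : cC w p γ g = 0 := by
  unfold cC
  rw [cE_pull w hγ g, cE_of_meas w hγ, sub_self]

theorem cC_right3 (w : X → ℝ) (hγ : Mp p γ) (g : X → ℝ) : cC w p g γ = 0 := by
  rw [cC_symm, cC_left3 w hγ g]

/-- A conditional cumulant which vanishes for all weights gives vanishing cumulants of higher order. -/
theorem kX_cons3 {g' : X → ℝ} {gs : List (X → ℝ)} {x : X} (h : ∀ w : X → ℝ, kX p (g' :: gs) w x = 0) (g w : X → ℝ) :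
    kX p (g :: g' :: gs) w x = 0 := by
  have d := hasDerivAt_kX p (g' :: gs) (hasDerivAt_line w g 0) x
  have e : (fun u : ℝ => kX p (g' :: gs) (w + u • g) x) = fun _ => 0 := funext fun u => h _
  rw [e, zero_smul, add_zero] at d
  exact (d.unique (hasDerivAt_const (0 : ℝ) (0 : ℝ)))

theorem kX_mp3 (hγ : Mp p γ) (g : X → ℝ) (w : X → ℝ) (x : X) : kX p [g, g, γ, g] w x = 0 := by
  refine kX_cons3 (fun w => kX_cons3 (fun w => ?_) g w) g w
  rw [kX_two, cC_left3 w hγ g]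
  rfl

/-- The third order part of a response which is a function of the outside of the window. -/
theorem N1g_self (w g : X → ℝ) (hγ : Mp p γ) (x : X) : N1g w g p γ x = 0 := by
  unfold N1g
  simp only [kX_mp3 hγ, mul_zero, intervalIntegral.integral_zero, neg_zero]

theorem N2g_self (w g : X → ℝ) (hγ : Mp p γ) (x : X) : N2g w g p p γ x = 0 := by
  unfold N2g
  have e1 : ∀ s t : ℝ, cC (w + t • g) p g (cV (w + s • g) p g) x = 0 := fun s t => by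
    rw [cC_right3 _ (cV_meas _ p g) g]
    rfl
  have e2 : ∀ a r : ℝ, cC (w + a • g) p γ (cV (w + r • g) p g) x = 0 := fun a r => by
    rw [cC_left3 _ hγ]
    rfl
  simp only [e1, e2, mul_zero, intervalIntegral.integral_zero, neg_zero, zero_add]
  unfold Ac
  norm_num

theorem Zr_mp3 (w : X → ℝ) (hγ : Mp p γ) (a : ℝ) : Pool.W7d29a1.C0.VT31.Zr w p a γ = γ := by
  unfold Pool.W7d29a1.C0.VT31.Zr cV
  rw [cE_of_meas w hγ, cC_left3 w hγ γ, smul_zero, sub_zero]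

theorem Mg_self (w g : X → ℝ) (hγ : Mp p γ) (x : X) : Mg w g p γ x = 0 := by
  unfold Mg Fg Dc
  simp only [Zr_mp3 _ hγ, sub_self, zero_div]

end Abs

section Mod

variable {μ : Measure ℝ} {s : ℝ} {N : ℕ} {Q : Finset (Finset ℕ)} [Nonempty (Px Q)]

theorem N5e_self (δ B : ℝ) (b0 b : ℕ) (ω : Env × Finset ℕ) (j : ℕ) (S : Px Q) : N5e μ s N Q δ B b0 b b ω j S = 0 :=
  N1g_self _ _ (mp_ge5 δ B b0 b ω j) S

theorem N25e_self (δ B : ℝ) (b0 b : ℕ) (ω : Env × Finset ℕ) (j : ℕ) (S : Px Q) : N25e μ s N Q δ B b0 b b ω j S = 0 :=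
  N2g_self _ _ (mp_ge5 δ B b0 b ω j) S

theorem M5e_self (δ B : ℝ) (b0 b : ℕ) (ω : Env × Finset ℕ) (j : ℕ) (S : Px Q) : M5e μ s N Q δ B b0 b b ω j S = 0 :=
  Mg_self _ _ (mp_ge5 δ B b0 b ω j) S

theorem I5_self (F : Frm96) (k : Fin 3) {m p y : ℕ} [Nonempty (Px (Pn (F.L m) y))] (ω : Env × Finset ℕ) (j : ℕ) (S : Px (Pn (F.L m) y)) :
    I5 μ s F k m p p y ω j S = 0 := by
  fin_cases k
  · exact N5e_self _ _ _ _ ω j S
  · exact N25e_self _ _ _ _ ω j S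
  · show sr ω.2 j * M5e μ s (F.L m) (Pn (F.L m) y) F.dl (F.B m) (F.b0 m p) (2 ^ p) (2 ^ p) ω j S = 0
    rw [M5e_self, mul_zero]

end Mod

variable {μ : Measure ℝ} {s : ℝ} {F : Frm96} {E : ℕ → ℝ} {Θ δ c η : ℝ} {m : ℕ}

/-- **Equal windows**: the row estimate holds with the numbers zero. -/
theorem row_self (hE : ∀ n, 0 < E n) (hy : ∀ y ∈ F.ys m, y ≤ F.L m) (k : Fin 3) (p q i : ℕ) :
    ∃ (l h : ℕ) (g A₂ T e : ℝ), 0 < l ∧ l ≤ 2 ^ p ∧ h ≤ 4 * 2 ^ p ∧ 0 ≤ g ∧ g ≤ ((2 ^ m : ℕ) : ℝ) ^ (-(c / 16)) / E (2 ^ q) ∧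
      0 ≤ A₂ ∧ A₂ ≤ ((2 ^ m : ℕ) : ℝ) ^ (c / 32) / E (2 ^ p) ∧ 0 ≤ T ∧ T ≤ 2 ^ q * (E (2 ^ q) * ((2 ^ m : ℕ) : ℝ) ^ (Θ - c / 16)) ∧
      0 ≤ e ∧ e ≤ ((2 ^ m : ℕ) : ℝ) ^ (-1 : ℝ) ∧ RowB μ s F m q i l h g A₂ T e (fun y ω j => I5 μ s F k m p p y ω j) := by
  have i1 := hE (2 ^ q)
  have i2 := hE (2 ^ p)
  have hz : avF μ s F m (fun _ _ _ => (0 : ℝ)) = 0 := by
    unfold avF av
    simp [gm]
  refine ⟨1, 0, 0, 0, 0, 0, one_pos, Nat.one_le_two_pow, Nat.zero_le _, le_rfl, by positivity, le_rfl, by positivity, le_rfl, by positivity,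
    le_rfl, by positivity, fun _ _ _ _ => 0, fun _ => BM.zero, fun _ _ _ _ _ => le_rfl, ?_, fun k' => ?_, fun k' => ?_⟩
  · simp only [sum_const_zero, ne_eq, OfNat.ofNat_ne_zero, not_false_eq_true, zero_pow]
    exact hz.le
  · simp only [ne_eq, OfNat.ofNat_ne_zero, not_false_eq_true, zero_pow, mul_zero]
    exact hz.le
  · have e1 : ∀ j, avF μ s F m (fun y ω S => I5 μ s F k m p p y ω j S * YF F m q i 1 0 k' (fun y ω j => I5 μ s F k m p p y ω j) y ω S) = 0 :=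
      fun j => by
      unfold avF av
      rw [mul_eq_zero]
      right
      refine sum_eq_zero fun y h' => ?_
      have := ne_Pn (hy y h')
      have e2 : ∀ ω : Env × Finset ℕ, gm (wm μ s (F.L m) (Pn (F.L m) y) ω) (fun S => I5 μ s F k m p p y ω j S *
          YF F m q i 1 0 k' (fun y ω j => I5 μ s F k m p p y ω j) y ω S) = 0 := fun ω => by
        simp only [I5_self, zero_mul]
        exact gm_const _ _
      simp only [e2, integral_zero]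
    rw [sum_congr rfl fun j _ => e1 j]
    simp only [sum_const_zero, mul_zero, zero_mul, hz, add_zero]
    exact le_rfl

/-- **`RowN23` only has to be proved for `p < p'`.** -/
theorem rowN23_lt (hE : ∀ n, 0 < E n) (hy : ∀ y ∈ F.ys m, y ≤ F.L m) {k : Fin 3}
    (H : ∀ p p' q i : ℕ, p < p' → Chg96 E Θ δ c η m p p' q → i < 2 ^ (m - q) →
      ∃ (l h : ℕ) (g A₂ T e : ℝ), 0 < l ∧ l ≤ 2 ^ p' ∧ h ≤ 4 * 2 ^ p' ∧ 0 ≤ g ∧ g ≤ ((2 ^ m : ℕ) : ℝ) ^ (-(c / 16)) / E (2 ^ q) ∧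
        0 ≤ A₂ ∧ A₂ ≤ ((2 ^ m : ℕ) : ℝ) ^ (c / 32) / E (2 ^ p) ∧ 0 ≤ T ∧ T ≤ 2 ^ q * (E (2 ^ q) * ((2 ^ m : ℕ) : ℝ) ^ (Θ - c / 16)) ∧
        0 ≤ e ∧ e ≤ ((2 ^ m : ℕ) : ℝ) ^ (-1 : ℝ) ∧ RowB μ s F m q i l h g A₂ T e (fun y ω j => I5 μ s F k m p p' y ω j)) :
    RowN23 μ s F E Θ δ c η k m := by
  intro p p' q i hC hi
  rcases hC.hpp.lt_or_eq with hlt | heq
  · exact H p p' q i hlt hC hi
  · subst heq
    exact row_self hE hy k p q i

end

end Pool.Agent.W_7d29a1_C0.Eqw3
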