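import Pool.Agent.W_7d29a1_C0.AsmC96
import Pool.Agent.W_7d29a1_C0.CrAsm44
import Pool.Agent.W_7d29a1_C0.Num46C
import Pool.Agent.W_7d29a1_C0.Num46P

/-!
STORM C0 (helper46): THE CROSS TERM AT THE LENGTH `2 ^ m` FROM THE FIVE ESTIMATES of `CrAsm44` (E1, T, E2, E2a, E2b) and the clip error, in the
order of the small exponents of `Par92`. `E1N`, `TN`, `E2N`, `E2aN`, `E2bN`, `ClN` are the literal targets of the owners (`c₁` may be different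
for each of them); `cr46` gives `CrN` with one `c₁`.
-/

set_option autoImplicit false

namespace Pool.Agent.W_7d29a1_C0.EstC46

open Finset MeasureTheory Filter Topology Pool.Agent.W_7d29a1_F Pool.Agent.W_7d29a1_X Pool.Agent.W_7d29a1_H
open Pool.Agent.W_7d29a1_C0.Mod92 Pool.Agent.W_7d29a1_C0 Pool.Agent.W_7d29a1_C0.Asm96 Pool.Agent.W_7d29a1_C0.CrA44
open Pool.Agent.W_7d29a1_C0.Par92 (Est Sml)

noncomputable section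

/-- The eighth part `l` of the gap behind the last kicked row of a block of length `2 ^ q`. -/
def gl46 (ι : ℝ) (m q : ℕ) : ℕ := ⌊((2 ^ m : ℕ) : ℝ) ^ (-ι) * 2 ^ q / 8⌋₊

/-- The rows `z` over which (E1) is averaged: `[d - 2 l, d - l)`, `d` = the end of the block number `i` of length `2 ^ q`. -/
def zs46 (ι : ℝ) (m q i : ℕ) : Finset ℕ := Ico ((i + 1) * 2 ^ q - 2 * gl46 ι m q) ((i + 1) * 2 ^ q - gl46 ι m q)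

/-- The factor in front of the root of the variance. -/
def kp46 (Θ c₁ : ℝ) (m q : ℕ) : ℝ := ((2 ^ m : ℕ) : ℝ) ^ (-c₁) * √(2 ^ q * ((2 ^ m : ℕ) : ℝ) ^ Θ)

section defs

variable (μ : Measure ℝ) (s : ℝ) (F : Frm96) (E : ℕ → ℝ) (Θ δ c c₁ ι : ℝ)

/-- The shape of the estimates: all blocks of the grid, all bases of `St96`, all spectators. -/
def Bl46 (m : ℕ) (P : ℕ → ℕ → ℕ → Fam (F.L m) → Prop) : Prop := ∀ p q i : ℕ, St96 E δ c m p q → i < 2 ^ (m - q) →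
  ∀ (D : ℝ) (f : Fam (F.L m)), D ≤ ((2 ^ m : ℕ) : ℝ) ^ 3 → Cls59 (F.L m) (i * 2 ^ q) ((i + 1) * 2 ^ q) D f → P p q i f

/-- **(E1)**, uniform average over the rows of `zs46`. -/
def E1N (m : ℕ) : Prop := Bl46 F E δ c m fun p q i f =>
  PE1 μ s (F.L m) F.dl (F.B m) (F.b0 m p) (2 ^ p) f (F.ys m) (F.R m) (i * 2 ^ q) ((i + 1) * 2 ^ q)
    (kp46 Θ c₁ m q) (1 / 8) (zs46 ι m q i) (fun _ => ((gl46 ι m q : ℕ) : ℝ)⁻¹)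

/-- **(T)**, for every row of `zs46`. -/
def TN (m : ℕ) : Prop := Bl46 F E δ c m fun p q i f => ∀ z ∈ zs46 ι m q i,
  PT μ s (F.L m) F.dl (F.B m) (F.b0 m p) (2 ^ p) (2 ^ sg96 E c m p) f (F.ys m) (F.R m) (i * 2 ^ q) ((i + 1) * 2 ^ q)
    (kp46 Θ c₁ m q) (1 / 8) z

/-- **(E2)**. -/
def E2N (m : ℕ) : Prop := Bl46 F E δ c m fun p q i f =>
  PE2 μ s (F.L m) F.dl (F.B m) (F.b0 m p) (2 ^ p) (2 ^ sg96 E c m p) f (F.ys m) (F.R m) (i * 2 ^ q) ((i + 1) * 2 ^ q)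
    (kp46 Θ c₁ m q) (1 / 8)

/-- **(E2a)**. -/
def E2aN (m : ℕ) : Prop := Bl46 F E δ c m fun p q i f =>
  PE2a μ s (F.L m) F.dl (F.B m) (F.b0 m p) (2 ^ p) f (F.ys m) (F.R m) (i * 2 ^ q) ((i + 1) * 2 ^ q)
    (kp46 Θ c₁ m q) (1 / 8)

/-- **(E2b)**. -/
def E2bN (m : ℕ) : Prop := Bl46 F E δ c m fun p q i f =>
  PE2b μ s (F.L m) F.dl (F.B m) (F.b0 m p) (2 ^ p) (2 ^ sg96 E c m p) f (F.ys m) (F.R m) (i * 2 ^ q) ((i + 1) * 2 ^ q)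
    (kp46 Θ c₁ m q) (1 / 8)

/-- **The clip error.** -/
def ClN (m : ℕ) : Prop := Bl46 F E δ c m fun p q i f =>
  PCl μ s (F.L m) F.dl (F.B m) (F.b0 m p) (2 ^ p) (2 ^ sg96 E c m p) f (F.ys m) (F.R m) (i * 2 ^ q) ((i + 1) * 2 ^ q) (1 / 8)

end defs

variable {μ : Measure ℝ} {s : ℝ} {F : Frm96} {E w : ℕ → ℝ} {Θ δ c c₁ c₀ a ε ι : ℝ} {m p q i : ℕ}

/-! ### The gap -/

/-- The gap is much longer than the corrected scale. -/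
theorem gap46 (R : Reg46 E w c₀ Θ δ a ε ((2 ^ m : ℕ) : ℝ)) (hε : ε ≤ c / 4)
    (h : Bs46 E δ c ((2 ^ m : ℕ) : ℝ) (2 ^ p) (2 ^ sg96 E c m p) (2 ^ q)) (hι : ι ≤ c) (hn : 16 ≤ ((2 ^ m : ℕ) : ℝ) ^ c) :
    ((2 ^ m : ℕ) : ℝ) ^ (5 * c) * 2 ^ sg96 E c m p ≤ gl46 ι m q := by
  obtain ⟨n, hnd⟩ : ∃ n : ℝ, n = ((2 ^ m : ℕ) : ℝ) := ⟨_, rfl⟩
  have hlsr := h.lsr R hε
  have hc0 := h.c0
  have hN1 := R.N1
  unfold gl46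
  rw [← hnd] at hlsr hN1 hn ⊢
  have hN0 : 0 < n := by linarith
  have e1 : n ^ (7 * c) * (2 ^ sg96 E c m p) ≤ (2 : ℝ) ^ q := by
    refine of_lg46 hN1 (by positivity) (by positivity) ?_
    rw [Real.logb_mul (by positivity) (by positivity), lgN46 hN1]
    push_cast at hlsr
    linarith
  have e2 : n ^ (6 * c) * 2 ^ sg96 E c m p / 8 ≤ n ^ (-ι) * 2 ^ q / 8 := by
    have e3 : n ^ (6 * c) * 2 ^ sg96 E c m p ≤ n ^ (-ι) * 2 ^ q := by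
      calc n ^ (6 * c) * 2 ^ sg96 E c m p = n ^ (-c) * (n ^ (7 * c) * 2 ^ sg96 E c m p) := by
            rw [← mul_assoc, ← Real.rpow_add hN0]
            ring_nf
        _ ≤ n ^ (-ι) * 2 ^ q := mul_le_mul (Real.rpow_le_rpow_of_exponent_le hN1.le (by linarith)) e1 (by positivity)
            (by positivity)
    linarith
  have e4 : n ^ (5 * c) * 2 ^ sg96 E c m p + 1 ≤ n ^ (6 * c) * 2 ^ sg96 E c m p / 8 := by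
    have e5 : (1 : ℝ) ≤ n ^ (5 * c) * 2 ^ sg96 E c m p :=
      one_le_mul_of_one_le_of_one_le (Real.one_le_rpow hN1.le (by positivity)) (one_le_pow₀ one_le_two)
    have e6 : n ^ (6 * c) * 2 ^ sg96 E c m p = n ^ c * (n ^ (5 * c) * 2 ^ sg96 E c m p) := by
      rw [← mul_assoc, ← Real.rpow_add hN0]
      ring_nf
    rw [e6]
    nlinarith
  have e7 := Nat.sub_one_lt_floor (n ^ (-ι) * 2 ^ q / 8)
  linarith

/-- **The kicked rows of the block end `8 l` rows before the end of the block.** -/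
theorem kick46 {R : Finset ℕ} (hR : R ⊆ Kr (2 ^ m) m (((2 ^ m : ℕ) : ℝ) ^ (-ι))) (hq : q ≤ m) {j : ℕ}
    (hj : j ∈ Rw R (i * 2 ^ q) ((i + 1) * 2 ^ q)) : j + 8 * gl46 ι m q ≤ (i + 1) * 2 ^ q := by
  unfold Rw at hj
  rw [Finset.mem_inter, Finset.mem_Ico] at hj
  have h1 := hR hj.1
  unfold Kr at h1
  simp only [Finset.mem_filter] at h1
  have h2 := (h1.2 q hq).2
  have h3 : 8 * (gl46 ι m q : ℝ) ≤ ((2 ^ q - j % 2 ^ q : ℕ) : ℝ) := by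
    have h4 : (gl46 ι m q : ℝ) ≤ ((2 ^ m : ℕ) : ℝ) ^ (-ι) * 2 ^ q / 8 := Nat.floor_le (by positivity)
    linarith
  have h4 : 8 * gl46 ι m q ≤ 2 ^ q - j % 2 ^ q := by exact_mod_cast h3
  have h5 := Nat.div_add_mod j (2 ^ q)
  have h6 : j % 2 ^ q < 2 ^ q := Nat.mod_lt _ (by positivity)
  have h7 : j / 2 ^ q ≤ i := by
    rw [← Nat.lt_succ_iff, Nat.div_lt_iff_lt_mul (by positivity)]
    exact hj.2.2
  have h8 : 2 ^ q * (j / 2 ^ q) ≤ i * 2 ^ q := by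
    rw [Nat.mul_comm]
    exact Nat.mul_le_mul_right _ h7
  have h9 : (i + 1) * 2 ^ q = i * 2 ^ q + 2 ^ q := by ring
  omega

/-- The blocks of the kicked rows end before the rows of `zs46`. -/
theorem zs_mem46 {R : Finset ℕ} (hR : R ⊆ Kr (2 ^ m) m (((2 ^ m : ℕ) : ℝ) ^ (-ι))) (hq : q ≤ m) {σ : ℕ} (hσ : 0 < σ)
    (hl : σ ≤ gl46 ι m q) {z : ℕ} (hz : z ∈ zs46 ι m q i) :
    z ≤ (i + 1) * 2 ^ q ∧ ∀ j ∈ Rw R (i * 2 ^ q) ((i + 1) * 2 ^ q), (j / σ + 1) * σ ≤ z := by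
  unfold zs46 at hz
  rw [Finset.mem_Ico] at hz
  refine ⟨by omega, fun j hj => ?_⟩
  have h1 := kick46 hR hq hj
  have h2 : (j / σ + 1) * σ = j / σ * σ + σ := by ring
  have h3 := Nat.div_mul_le_self j σ
  omega

/-- The number of the rows of `zs46`. -/
theorem card_zs46 (h : 2 * gl46 ι m q ≤ (i + 1) * 2 ^ q) : (zs46 ι m q i).card = gl46 ι m q := by
  unfold zs46
  rw [Nat.card_Ico]
  omega

theorem gl_le46 (hι : 0 ≤ ι) : 8 * gl46 ι m q ≤ (i + 1) * 2 ^ q := by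
  have h1 : (gl46 ι m q : ℝ) ≤ ((2 ^ m : ℕ) : ℝ) ^ (-ι) * 2 ^ q / 8 := Nat.floor_le (by positivity)
  have h2 : ((2 ^ m : ℕ) : ℝ) ^ (-ι) ≤ 1 := Real.rpow_le_one_of_one_le_of_nonpos (by exact_mod_cast Nat.one_le_two_pow) (by linarith)
  have h3 : ((2 ^ m : ℕ) : ℝ) ^ (-ι) * 2 ^ q ≤ 1 * 2 ^ q := mul_le_mul_of_nonneg_right h2 (by positivity)
  have h4 : (8 : ℝ) * gl46 ι m q ≤ 2 ^ q := by linarith
  have h5 : 8 * gl46 ι m q ≤ 2 ^ q := by exact_mod_cast h4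
  have h6 : 1 * 2 ^ q ≤ (i + 1) * 2 ^ q := Nat.mul_le_mul_right _ (by omega)
  omega

/-! ### Weaker constants -/

theorem kp_nonneg46 (Θ c₁ : ℝ) (m q : ℕ) : 0 ≤ kp46 Θ c₁ m q := by
  unfold kp46
  positivity

/-- Five small factors. -/
theorem kp_sum46 (h5 : 5 ≤ ((2 ^ m : ℕ) : ℝ) ^ c₁) {x₁ x₂ x₃ x₄ x₅ : ℝ} (h₁ : 2 * c₁ ≤ x₁) (h₂ : 2 * c₁ ≤ x₂) (h₃ : 2 * c₁ ≤ x₃)
    (h₄ : 2 * c₁ ≤ x₄) (h₅ : 2 * c₁ ≤ x₅) :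
    kp46 Θ x₁ m q + kp46 Θ x₂ m q + kp46 Θ x₃ m q + kp46 Θ x₄ m q + kp46 Θ x₅ m q ≤ kp46 Θ c₁ m q := by
  have hN : (1 : ℝ) ≤ ((2 ^ m : ℕ) : ℝ) := by exact_mod_cast Nat.one_le_two_pow
  have hN0 : (0 : ℝ) < ((2 ^ m : ℕ) : ℝ) := by linarith
  have h0 : 0 ≤ √(2 ^ q * ((2 ^ m : ℕ) : ℝ) ^ Θ) := Real.sqrt_nonneg _
  have e : ∀ x, 2 * c₁ ≤ x → kp46 Θ x m q ≤ ((2 ^ m : ℕ) : ℝ) ^ (-(2 * c₁)) * √(2 ^ q * ((2 ^ m : ℕ) : ℝ) ^ Θ) := fun x hx =>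
    mul_le_mul_of_nonneg_right (Real.rpow_le_rpow_of_exponent_le hN (by linarith)) h0
  have e1 : 5 * ((2 ^ m : ℕ) : ℝ) ^ (-(2 * c₁)) ≤ ((2 ^ m : ℕ) : ℝ) ^ (-c₁) := by
    calc 5 * ((2 ^ m : ℕ) : ℝ) ^ (-(2 * c₁)) ≤ ((2 ^ m : ℕ) : ℝ) ^ c₁ * ((2 ^ m : ℕ) : ℝ) ^ (-(2 * c₁)) :=
          mul_le_mul_of_nonneg_right h5 (by positivity)
      _ = _ := by
          rw [← Real.rpow_add hN0]
          ring_nf
  have e2 := mul_le_mul_of_nonneg_right e1 h0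
  have e3 := e x₁ h₁
  have e4 := e x₂ h₂
  have e5 := e x₃ h₃
  have e6 := e x₄ h₄
  have e7 := e x₅ h₅
  unfold kp46 at e3 e4 e5 e6 e7 ⊢
  linarith

theorem cr_mono46 {N : ℕ} {ys : Finset ℕ} {dl B : ℝ} {b0 b σ : ℕ} {R : Finset ℕ} {c d : ℕ} {κ κ' e e' : ℝ} {f : Fam N}
    (h : CR59 μ s N ys dl B b0 b σ R c d κ e f) (hκ : κ ≤ κ') (he : e ≤ e') : CR59 μ s N ys dl B b0 b σ R c d κ' e' f :=
  le_trans h (add_le_add (mul_le_mul_of_nonneg_right hκ (Real.sqrt_nonneg _)) he)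

/-! ### The assembly at one length -/

/-- **`CrN` at one length.** -/
theorem crN46 [IsProbabilityMeasure μ] (hF : F.Ok Θ m) (hc : 0 < c) (hcδ : 64 * c ≤ δ)
    (R : Reg46 E w c₀ Θ δ a ε ((2 ^ m : ℕ) : ℝ)) (hε : ε ≤ c / 4) (hι0 : 0 ≤ ι) (hι : ι ≤ c) (hn : 16 ≤ ((2 ^ m : ℕ) : ℝ) ^ c)
    (hR : F.R m ⊆ Kr (2 ^ m) m (((2 ^ m : ℕ) : ℝ) ^ (-ι)))
    (hdeep : ∀ p q : ℕ, St96 E δ c m p q → Deep (F.R m) (2 ^ p) (2 ^ sg96 E c m p))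
    (h5 : 5 ≤ ((2 ^ m : ℕ) : ℝ) ^ c₁) {x₁ x₂ x₃ x₄ x₅ : ℝ} (h₁ : 2 * c₁ ≤ x₁) (h₂ : 2 * c₁ ≤ x₂) (h₃ : 2 * c₁ ≤ x₃)
    (h₄ : 2 * c₁ ≤ x₄) (h₅ : 2 * c₁ ≤ x₅) (H1 : E1N μ s F E Θ δ c x₁ ι m) (H2 : TN μ s F E Θ δ c x₂ ι m)
    (H3 : E2N μ s F E Θ δ c x₃ m) (H4 : E2aN μ s F E Θ δ c x₄ m) (H5 : E2bN μ s F E Θ δ c x₅ m) (H6 : ClN μ s F E δ c m) :
    CrN μ s F E Θ δ c c₁ m := by
  intro p q i hst hi D f hD hf
  have hB : 0 ≤ F.B m := zero_le_one.trans hF.hB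
  have hbs := bs46 R hc hcδ hst.hp hst.hps hst.hsq hst.hqm hst.leg hst.pin
  have hl := gap46 R hε hbs hι hn
  have hN1 : (1 : ℝ) ≤ ((2 ^ m : ℕ) : ℝ) := by exact_mod_cast Nat.one_le_two_pow
  have hl' : 2 ^ sg96 E c m p ≤ gl46 ι m q := by
    have h1 : (1 : ℝ) * 2 ^ sg96 E c m p ≤ ((2 ^ m : ℕ) : ℝ) ^ (5 * c) * 2 ^ sg96 E c m p :=
      mul_le_mul_of_nonneg_right (Real.one_le_rpow hN1 (by positivity)) (by positivity)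
    have h2 : (2 : ℝ) ^ sg96 E c m p ≤ gl46 ι m q := by linarith
    exact_mod_cast h2
  have hl0 : 0 < gl46 ι m q := lt_of_lt_of_le (by positivity) hl'
  have hl8 := gl_le46 (m := m) (q := q) (i := i) hι0
  have hcard := card_zs46 (ι := ι) (m := m) (q := q) (i := i) (by omega)
  have hσ : 0 < 2 ^ sg96 E c m p := by positivity
  have key := CR59_of44 (μ := μ) (s := s) hF.hy hB (hdeep p q hst) hf (J := zs46 ι m q i) (θ := fun _ => ((gl46 ι m q : ℕ) : ℝ)⁻¹)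
    (by
      rw [sum_const, hcard, nsmul_eq_mul]
      exact mul_inv_cancel₀ (by exact_mod_cast hl0.ne')) (fun z _ => by positivity)
    (fun z hz => (zs_mem46 hR hst.hqm hσ hl' hz).1) (fun z hz => (zs_mem46 hR hst.hqm hσ hl' hz).2)
    (H1 p q i hst hi D f hD hf) (H2 p q i hst hi D f hD hf) (H3 p q i hst hi D f hD hf) (H4 p q i hst hi D f hD hf)
    (H5 p q i hst hi D f hD hf) (H6 p q i hst hi D f hD hf)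
  exact cr_mono46 key (kp_sum46 h5 h₁ h₂ h₃ h₄ h₅) (by norm_num)

/-- **The cross term from its five parts**, one gain `c₁`. -/
theorem cr46 [IsProbabilityMeasure μ] {F : ℝ → ℝ → ℝ → Frm96} (hc : 0 < c) (hcδ : c ≤ δ / 64)
    (hReg : ∃ c₀ a : ℝ, ∀ᶠ m : ℕ in atTop, Reg46 E w c₀ Θ δ a (c / 4) ((2 ^ m : ℕ) : ℝ))
    (hok : Est fun ι β γ m => (F ι β γ).Ok Θ m)
    (hdeep : Est fun ι β γ m => ∀ p q : ℕ, St96 E δ c m p q → Deep ((F ι β γ).R m) (2 ^ p) (2 ^ sg96 E c m p))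
    (hR : ∀ ι β γ : ℝ, ∀ m : ℕ, (F ι β γ).R m ⊆ Kr (2 ^ m) m (((2 ^ m : ℕ) : ℝ) ^ (-ι)))
    (h₁ : ∃ x : ℝ, 0 < x ∧ Est fun ι β γ m => E1N μ s (F ι β γ) E Θ δ c x ι m)
    (h₂ : ∃ x : ℝ, 0 < x ∧ Est fun ι β γ m => TN μ s (F ι β γ) E Θ δ c x ι m)
    (h₃ : ∃ x : ℝ, 0 < x ∧ Est fun ι β γ m => E2N μ s (F ι β γ) E Θ δ c x m)
    (h₄ : ∃ x : ℝ, 0 < x ∧ Est fun ι β γ m => E2aN μ s (F ι β γ) E Θ δ c x m)
    (h₅ : ∃ x : ℝ, 0 < x ∧ Est fun ι β γ m => E2bN μ s (F ι β γ) E Θ δ c x m)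
    (h₆ : Est fun ι β γ m => ClN μ s (F ι β γ) E δ c m) :
    ∃ c₁ : ℝ, 0 < c₁ ∧ Est fun ι β γ m => CrN μ s (F ι β γ) E Θ δ c c₁ m := by
  obtain ⟨x₁, p₁, h₁⟩ := h₁
  obtain ⟨x₂, p₂, h₂⟩ := h₂
  obtain ⟨x₃, p₃, h₃⟩ := h₃
  obtain ⟨x₄, p₄, h₄⟩ := h₄
  obtain ⟨x₅, p₅, h₅⟩ := h₅
  obtain ⟨c₀, a, hReg⟩ := hReg
  obtain ⟨c₁, hc₁⟩ : ∃ c₁, c₁ = min x₁ (min x₂ (min x₃ (min x₄ x₅))) / 2 := ⟨_, rfl⟩
  have hc₁0 : 0 < c₁ := by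
    rw [hc₁]
    positivity
  have q₁ : 2 * c₁ ≤ x₁ := by
    rw [hc₁]
    linarith [min_le_left x₁ (min x₂ (min x₃ (min x₄ x₅)))]
  have q₂ : 2 * c₁ ≤ x₂ := by
    rw [hc₁]
    linarith [min_le_right x₁ (min x₂ (min x₃ (min x₄ x₅))), min_le_left x₂ (min x₃ (min x₄ x₅))]
  have q₃ : 2 * c₁ ≤ x₃ := by
    rw [hc₁]
    linarith [min_le_right x₁ (min x₂ (min x₃ (min x₄ x₅))), min_le_right x₂ (min x₃ (min x₄ x₅)), min_le_left x₃ (min x₄ x₅)]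
  have q₄ : 2 * c₁ ≤ x₄ := by
    rw [hc₁]
    linarith [min_le_right x₁ (min x₂ (min x₃ (min x₄ x₅))), min_le_right x₂ (min x₃ (min x₄ x₅)), min_le_right x₃ (min x₄ x₅),
      min_le_left x₄ x₅]
  have q₅ : 2 * c₁ ≤ x₅ := by
    rw [hc₁]
    linarith [min_le_right x₁ (min x₂ (min x₃ (min x₄ x₅))), min_le_right x₂ (min x₃ (min x₄ x₅)), min_le_right x₃ (min x₄ x₅),
      min_le_right x₄ x₅]
  refine ⟨c₁, hc₁0, ?_⟩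
  have hall := (((hok.and hdeep).and (h₁.and h₂)).and ((h₃.and h₄).and (h₅.and h₆))).and
    ((Est.iota (Sml.le hc)).and (Est.of_ev (hReg.and ((pow_ev96 hc 16).and (pow_ev96 hc₁0 5)))))
  refine hall.mono fun ι β γ hι _ _ => Eventually.of_forall fun m h => ?_
  obtain ⟨⟨⟨⟨g1, g2⟩, g3, g4⟩, ⟨g5, g6⟩, g7, g8⟩, g9, g10, g11, g12⟩ := h
  exact crN46 g1 hc (by linarith) g10 le_rfl hι.le g9 g11 (hR ι β γ m) g2 g12 q₁ q₂ q₃ q₄ q₅ g3 g4 g5 g6 g7 g8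

end

end Pool.Agent.W_7d29a1_C0.EstC46
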