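import Pool.Agent.W_7d29a1_C0.Size1

/-!
MP_7d29a1_pr, [CURV0] / [C0], leaf E5.3 (helper1), part 2: the sizes of the pieces of the change of the base window IN THE MODEL.

`[c, d)` = the window `W`, `[al, be]` = the rows which the finer response `g` looks at (the window `W0`), `[c', d')` = the larger window;
`w + t g` = the log weight at the tilt `t`, `u = w + τ g` the reference weight; `Tau u p i j m S`: two replicas given `p S` do not meet in
`[i, j]` with a mass of at least `exp (- 5 m)`; `tI` = sum of the two indicators for `[c, al]` and `[be, d]`. Every piece `Y` of the change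
of the base: `|Y S| ≤ C M ^ k * tI + C exp (C M - 5 m)`, and `N2` with the product of `tI` and of the indicator of the inner tie.
-/

set_option autoImplicit false
set_option linter.unusedSectionVars false

namespace Pool.W7d29a1.C0.S1

open Finset MeasureTheory Pool.Agent.W_7d29a1_C0.Mod92
open Pool.Agent.W_7d29a1_C0.Swap57 Pool.Agent.W_7d29a1_C0
open Pool.W7d29a1.C0 Pool.W7d29a1.C0.VT31 Pool.W7d29a1.C0.R43

noncomputable section

/-! ### Bound by indicator plus tiny -/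

section Dich

open Classical in
/-- The indicator, real valued. -/
def i1 (A : Prop) : ℝ := if A then 1 else 0

theorem i1_nonneg (A : Prop) : 0 ≤ i1 A := by
  unfold i1
  split_ifs <;> norm_num

theorem i1_of {A : Prop} (h : A) : i1 A = 1 := if_pos h

theorem i1_not {A : Prop} (h : ¬ A) : i1 A = 0 := if_neg h

theorem dich {Y C L T1 T2 e : ℝ} (h1 : |Y| ≤ C) (h2 : |Y| ≤ L * (T1 + T2)) (hL : 0 ≤ L) (he : 0 ≤ e) :
    |Y| ≤ C * (i1 (e ≤ T1) + i1 (e ≤ T2)) + 2 * L * e := by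
  have C0 : 0 ≤ C := (abs_nonneg _).trans h1
  have s0 : 0 ≤ 2 * L * e := by positivity
  by_cases a1 : e ≤ T1
  · rw [i1_of a1]
    have := i1_nonneg (e ≤ T2)
    nlinarith
  by_cases a2 : e ≤ T2
  · rw [i1_of a2]
    have := i1_nonneg (e ≤ T1)
    nlinarith
  · rw [i1_not a1, i1_not a2]
    push Not at a1 a2
    have h3 : L * (T1 + T2) ≤ L * (2 * e) := mul_le_mul_of_nonneg_left (by linarith) hL
    linarith

theorem dich3 {Y C L L' T1 T2 T3 e : ℝ} (h1 : |Y| ≤ C) (h2 : |Y| ≤ L * (T1 + T2)) (h3 : |Y| ≤ L' * T3) (hL : 0 ≤ L)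
    (hL' : 0 ≤ L') (he : 0 ≤ e) :
    |Y| ≤ C * ((i1 (e ≤ T1) + i1 (e ≤ T2)) * i1 (e ≤ T3)) + (2 * L + L') * e := by
  by_cases a : e ≤ T3
  · rw [i1_of a, mul_one]
    have := dich h1 h2 hL he
    have : 0 ≤ L' * e := by positivity
    linarith
  · rw [i1_not a, mul_zero, mul_zero, zero_add]
    push Not at a
    have h4 : L' * T3 ≤ L' * e := mul_le_mul_of_nonneg_left a.le hL'
    have : 0 ≤ 2 * L * e := by positivity
    linarith

end Dich

/-! ### The model -/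

section Model

variable {Q : Finset (Finset ℕ)} [SwQ Q] [Nonempty (Px Q)] {c al be d c' d' : ℕ} {w g : Px Q → ℝ} {M τ : ℝ}

theorem wk_line (hw : Wk c al be d w) (hg : Lk al be g) (s : ℝ) : Wk c al be d (w + s • g) := hw.add (hg.Wk.smul s)

theorem mod_dif (hab : al ≤ be) (hw : Wk c al be d w) (hl : Lk al be g) (hM : 1 ≤ M) (hg : ∀ S, |g S| ≤ M) (hτ : |τ| ≤ 1)
    {s : ℝ} (hs : |s| ≤ 1) :
    Dif (w + τ • g) (pJ c d) (NM c al be d) (2 * M * Real.exp (8 * M)) (cE (w + s • g) (pJ c d) g) :=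
  ln_dif w hg hτ (NM_nonneg c al be d) (by linarith) hs (dif_cE hab (wk_line hw hl s) hl (osd hg))

theorem mod_difV (hab : al ≤ be) (hw : Wk c al be d w) (hl : Lk al be g) (hg : ∀ S, |g S| ≤ M) (hτ : |τ| ≤ 1)
    {s : ℝ} (hs : |s| ≤ 1) :
    Dif (w + τ • g) (pJ c d) (NM c al be d) (5 * M ^ 2 * Real.exp (8 * M)) (cV (w + s • g) (pJ c d) g) :=
  ln_dif w hg hτ (NM_nonneg c al be d) (by positivity) hs (dif_cV hab (wk_line hw hl s) hl hg)

theorem cE2_NM_le (u : Px Q → ℝ) (p : Px Q → Finset ℕ × ℕ) (S : Px Q) :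
    cE2 u p (NM c al be d) S S ≤ cE2 u p (NI c al) S S + cE2 u p (NI be d) S S := by
  rw [← cE2_add]
  exact cE2_mono u p (NM_le c al be d) S S

/-- The sum of the two indicators of `Tau`, sides `[c, al]` and `[be, d]`. -/
def tI (u : Px Q → ℝ) (p : Px Q → Finset ℕ × ℕ) (c al be d : ℕ) (m : ℝ) (S : Px Q) : ℝ :=
  i1 (Tau u p c al m S) + i1 (Tau u p be d m S)

/-- **Indicator form** of a bound by the mass. -/
theorem fin1 {Y C L : ℝ} {u : Px Q → ℝ} {p : Px Q → Finset ℕ × ℕ} {S : Px Q} (m : ℝ) (h1 : |Y| ≤ C)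
    (h2 : |Y| ≤ L * cE2 u p (NM c al be d) S S) (hL : 0 ≤ L) :
    |Y| ≤ C * tI u p c al be d m S + 2 * L * Real.exp (-(5 * m)) :=
  dich h1 (h2.trans (mul_le_mul_of_nonneg_left (cE2_NM_le u p S) hL)) hL (Real.exp_pos _).le

/-- The same with the inner tie. -/
theorem fin2 {Y C L L' T : ℝ} {u : Px Q → ℝ} {p : Px Q → Finset ℕ × ℕ} {S : Px Q} (m : ℝ) (h1 : |Y| ≤ C)
    (h2 : |Y| ≤ L * cE2 u p (NM c al be d) S S) (h3 : |Y| ≤ L' * T) (hL : 0 ≤ L) (hL' : 0 ≤ L') :
    |Y| ≤ C * (tI u p c al be d m S * i1 (Real.exp (-(5 * m)) ≤ T)) + (2 * L + L') * Real.exp (-(5 * m)) :=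
  dich3 h1 (h2.trans (mul_le_mul_of_nonneg_left (cE2_NM_le u p S) hL)) h3 hL hL' (Real.exp_pos _).le

theorem exp2 (M : ℝ) : Real.exp (8 * M) * Real.exp (8 * M) = Real.exp (16 * M) := by
  rw [← Real.exp_add]
  congr 1
  ring

variable (hab : al ≤ be) (hw : Wk c al be d w) (hl : Lk al be g) (hM : 1 ≤ M) (hg : ∀ S, |g S| ≤ M) (hτ : |τ| ≤ 1)
  (hc : c' ≤ c) (hd : d ≤ d')
include hab hw hl hM hg hτ hc hd

/-- The oscillation of the exact response of the window. -/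
theorem mod_osc (S : Px Q) :
    osc (w + τ • g) (pJ c' d') (gb81 w g (pJ c d)) S ≤
      2 * M * Real.exp (8 * M) * cE2 (w + τ • g) (pJ c' d') (NM c al be d) S S :=
  osc_dif _ (crs_pJ hc hd) (dif_gb w fun s hs => mod_dif hab hw hl hM hg hτ hs) S

/-- **Size of `X_j`**, mass form. -/
theorem mod_X' (S : Px Q) {t a : ℝ} (ht : |t| ≤ 1) (ha : |a| ≤ 1) :
    |Zr (w + t • g) (pJ c' d') a (gb81 w g (pJ c d)) S - gb81 w g (pJ c' d') S| ≤
      6 * M ^ 2 * Real.exp (16 * M) * cE2 (w + τ • g) (pJ c' d') (NM c al be d) S S := by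
  have h1 := size_X w hM hg hτ (crs_pJ hc hd) (fun s hs => mod_dif hab hw hl hM hg hτ hs) S ht ha
  refine h1.trans (le_of_eq ?_)
  rw [← exp2 M]
  ring

omit [SwQ Q] hab hw hl hτ hc hd in
theorem triv_Zr (S : Px Q) {t a : ℝ} (ha : |a| ≤ 1) :
    |Zr (w + t • g) (pJ c' d') a (gb81 w g (pJ c d)) S| ≤ 2 * M ^ 2 := by
  have b1 := abs_cE_bd (M := M) (pJ c' d') (f := gb81 w g (pJ c d)) (abs_gb w hg (pJ c d)) (w + t • g) S
  have b2 := cV_le_sq (M := M) (pJ c' d') (γ := gb81 w g (pJ c d)) (abs_gb w hg (pJ c d)) (w + t • g) S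
  have b3 := cV_nonneg (w + t • g) (pJ c' d') (gb81 w g (pJ c d)) S
  have b5 : |a / 3 * cV (w + t • g) (pJ c' d') (gb81 w g (pJ c d)) S| ≤ 1 / 3 * (2 * M ^ 2) := by
    rw [abs_mul, abs_div, abs_of_pos (by norm_num : (0 : ℝ) < 3), abs_of_nonneg b3]
    exact mul_le_mul (by linarith) b2 b3 (by norm_num)
  have e : Zr (w + t • g) (pJ c' d') a (gb81 w g (pJ c d)) S =
      cE (w + t • g) (pJ c' d') (gb81 w g (pJ c d)) S - a / 3 * cV (w + t • g) (pJ c' d') (gb81 w g (pJ c d)) S := by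
    unfold Zr
    rw [Pi.sub_apply, Pi.smul_apply, smul_eq_mul]
  rw [e]
  refine (abs_sub _ _).trans ?_
  nlinarith

/-- **Size of `X_j`.** -/
theorem mod_X (S : Px Q) {t a : ℝ} (ht : |t| ≤ 1) (ha : |a| ≤ 1) (m : ℝ) :
    |Zr (w + t • g) (pJ c' d') a (gb81 w g (pJ c d)) S - gb81 w g (pJ c' d') S| ≤
      3 * M ^ 2 * tI (w + τ • g) (pJ c' d') c al be d m S + 2 * (6 * M ^ 2 * Real.exp (16 * M)) * Real.exp (-(5 * m)) := by
  have h3 : |Zr (w + t • g) (pJ c' d') a (gb81 w g (pJ c d)) S - gb81 w g (pJ c' d') S| ≤ 3 * M ^ 2 := by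
    have b1 := triv_Zr (w := w) (g := g) (c := c) (d := d) (c' := c') (d' := d') hM hg S (t := t) ha
    have b4 := abs_gb w hg (pJ c' d') S
    refine (abs_sub _ _).trans ?_
    nlinarith
  exact fin1 m h3 (mod_X' hab hw hl hM hg hτ hc hd S ht ha) (by positivity)

/-- **Size of `M_j`** (half difference over the sign), mass form. -/
theorem mod_M' (S : Px Q) :
    |Dc (fun a => Zr (w + a • g) (pJ c' d') a (gb81 w g (pJ c d)) S)| ≤
      4 * M ^ 2 * Real.exp (16 * M) * cE2 (w + τ • g) (pJ c' d') (NM c al be d) S S := by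
  have h1 := size_Dc w hM hg hτ (pJ c' d') (γ := gb81 w g (pJ c d)) (abs_gb w hg (pJ c d)) S
  have h2 := mod_osc hab hw hl hM hg hτ hc hd S
  have hM0 : 0 ≤ M := by linarith
  have h3 : 0 ≤ 2 * M * Real.exp (8 * M) := by positivity
  refine (h1.trans (mul_le_mul_of_nonneg_left h2 h3)).trans (le_of_eq ?_)
  rw [← exp2 M]
  ring

/-- **Size of `M_j`.** -/
theorem mod_M (S : Px Q) (m : ℝ) :
    |Dc (fun a => Zr (w + a • g) (pJ c' d') a (gb81 w g (pJ c d)) S)| ≤
      2 * M ^ 2 * tI (w + τ • g) (pJ c' d') c al be d m S + 2 * (4 * M ^ 2 * Real.exp (16 * M)) * Real.exp (-(5 * m)) := by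
  have h3 : |Dc (fun a => Zr (w + a • g) (pJ c' d') a (gb81 w g (pJ c d)) S)| ≤ 2 * M ^ 2 := by
    have b1 := triv_Zr (w := w) (g := g) (c := c) (d := d) (c' := c') (d' := d') hM hg S (t := 1) (a := 1) (by norm_num)
    have b2 := triv_Zr (w := w) (g := g) (c := c) (d := d) (c' := c') (d' := d') hM hg S (t := -1) (a := -1) (by norm_num)
    unfold Dc
    rw [abs_div, abs_of_pos (by norm_num : (0 : ℝ) < 2), div_le_iff₀ (by norm_num : (0 : ℝ) < 2)]
    refine (abs_sub _ _).trans ?_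
    linarith
  exact fin1 m h3 (mod_M' hab hw hl hM hg hτ hc hd S) (by positivity)

/-- **Size of `N_j`** (mean over the sign minus the response of the larger window). -/
theorem mod_N (S : Px Q) (m : ℝ) :
    |Ac (fun a => Zr (w + a • g) (pJ c' d') a (gb81 w g (pJ c d)) S) - gb81 w g (pJ c' d') S| ≤
      3 * M ^ 2 * tI (w + τ • g) (pJ c' d') c al be d m S + 2 * (6 * M ^ 2 * Real.exp (16 * M)) * Real.exp (-(5 * m)) := by
  have b1 := mod_X hab hw hl hM hg hτ hc hd S (t := 1) (a := 1) (by norm_num) (by norm_num) m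
  have b2 := mod_X hab hw hl hM hg hτ hc hd S (t := -1) (a := -1) (by norm_num) (by norm_num) m
  have e : Ac (fun a => Zr (w + a • g) (pJ c' d') a (gb81 w g (pJ c d)) S) - gb81 w g (pJ c' d') S =
      ((Zr (w + (1 : ℝ) • g) (pJ c' d') 1 (gb81 w g (pJ c d)) S - gb81 w g (pJ c' d') S) +
        (Zr (w + (-1 : ℝ) • g) (pJ c' d') (-1) (gb81 w g (pJ c d)) S - gb81 w g (pJ c' d') S)) / 2 := by
    unfold Ac
    ring
  rw [e, abs_div, abs_of_pos (by norm_num : (0 : ℝ) < 2), div_le_iff₀ (by norm_num : (0 : ℝ) < 2)]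
  refine (abs_add_le _ _).trans ?_
  linarith

/-- **Size of `N1_j`**, mass form. -/
theorem mod_N1' (S : Px Q) :
    |(1 / 12) * (∫ t in (-1 : ℝ)..1, t * (1 - t ^ 2) * kX (pJ c' d') [g, g, gb81 w g (pJ c d), g] (w + t • g) S)| ≤
      8 * M ^ 4 * Real.exp (16 * M) * cE2 (w + τ • g) (pJ c' d') (NM c al be d) S S := by
  have h1 := size_N1 w hM hg hτ (pJ c' d') (gb81 w g (pJ c d)) S
  have h2 := mod_osc hab hw hl hM hg hτ hc hd S
  have hM0 : 0 ≤ M := by linarith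
  have h3 : 0 ≤ 4 * M ^ 3 * Real.exp (8 * M) := by positivity
  refine (h1.trans (mul_le_mul_of_nonneg_left h2 h3)).trans (le_of_eq ?_)
  rw [← exp2 M]
  ring

/-- **Size of `N1_j`.** -/
theorem mod_N1 (S : Px Q) (m : ℝ) :
    |(1 / 12) * (∫ t in (-1 : ℝ)..1, t * (1 - t ^ 2) * kX (pJ c' d') [g, g, gb81 w g (pJ c d), g] (w + t • g) S)| ≤
      8 * M ^ 4 * tI (w + τ • g) (pJ c' d') c al be d m S + 2 * (8 * M ^ 4 * Real.exp (16 * M)) * Real.exp (-(5 * m)) := by
  have hM0 : 0 ≤ M := by linarith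
  have h3 : |(1 / 12) * (∫ t in (-1 : ℝ)..1, t * (1 - t ^ 2) * kX (pJ c' d') [g, g, gb81 w g (pJ c d), g] (w + t • g) S)| ≤
      8 * M ^ 4 := by
    have h := abs_int_le (φ := fun t => t * (1 - t ^ 2) * kX (pJ c' d') [g, g, gb81 w g (pJ c d), g] (w + t • g) S)
      (B := 48 * M ^ 4) fun t ht => by
        have h1 : |t * (1 - t ^ 2)| ≤ 1 := by
          have h2 : t ^ 2 ≤ 1 := by
            rw [← sq_abs]
            exact pow_le_one₀ (abs_nonneg t) ht
          have h3 : |1 - t ^ 2| ≤ 1 := by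
            rw [abs_le]
            constructor <;> nlinarith [sq_nonneg t]
          rw [abs_mul]
          exact mul_le_one₀ ht (abs_nonneg _) h3
        have h4 := abs_kX4_le (w + t • g) (pJ c' d') (gb81 w g (pJ c d)) hM0 hg S
        have h5 := osc_le (w + t • g) (pJ c' d') (osd (abs_gb w hg (pJ c d))) S
        have h6 : 24 * M ^ 3 * osc (w + t • g) (pJ c' d') (gb81 w g (pJ c d)) S ≤ 24 * M ^ 3 * (2 * M) :=
          mul_le_mul_of_nonneg_left h5 (by positivity)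
        rw [abs_mul]
        calc |t * (1 - t ^ 2)| * |kX (pJ c' d') [g, g, gb81 w g (pJ c d), g] (w + t • g) S| ≤
              1 * (24 * M ^ 3 * (2 * M)) := mul_le_mul h1 (h4.trans h6) (abs_nonneg _) (by norm_num)
          _ = 48 * M ^ 4 := by ring
    rw [abs_mul, abs_of_pos (by norm_num : (0 : ℝ) < 1 / 12)]
    linarith
  exact fin1 m h3 (mod_N1' hab hw hl hM hg hτ hc hd S) (by positivity)

/-- **Size of `N2_j`**: outer tie at the scale of the window AND inner tie (`osc` of the fine response given the ends of `W`). -/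
theorem mod_N2 (S : Px Q) (m : ℝ) :
    |-(∫ s in (-1 : ℝ)..1, ∫ t in (-1 : ℝ)..1, Kn81 t s * cC (w + t • g) (pJ c' d') g (cV (w + s • g) (pJ c d) g) S) +
      (1 / 6) * Ac (fun a => ∫ u in (-1 : ℝ)..1, (1 + a * u) *
        cC (w + a • g) (pJ c' d') (gb81 w g (pJ c d)) (cV (w + u • g) (pJ c d) g) S)| ≤
      4 * M ^ 3 * (tI (w + τ • g) (pJ c' d') c al be d m S * i1 (Real.exp (-(5 * m)) ≤
        cE (w + τ • g) (pJ c' d') (osc (w + τ • g) (pJ c d) g) S)) +
      (2 * (10 * M ^ 3 * Real.exp (16 * M)) + 4 * M ^ 2 * Real.exp (16 * M)) * Real.exp (-(5 * m)) := by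
  have hM0 : 0 ≤ M := by linarith
  have hγ : ∀ S, |gb81 w g (pJ c d) S| ≤ M := abs_gb w hg (pJ c d)
  refine fin2 m ?_ ?_ ?_ (by positivity) (by positivity)
  · refine (size_N2 w hM hg hγ S (B := 2 * M ^ 2) fun t s _ _ => oscV_triv hg _ _ _ _ S).trans (le_of_eq ?_)
    ring
  · refine (size_N2 w hM hg hγ S (B := Real.exp (8 * M) * (5 * M ^ 2 * Real.exp (8 * M) *
      cE2 (w + τ • g) (pJ c' d') (NM c al be d) S S)) fun t s ht hs =>
        oscV_K w hg hτ (crs_pJ hc hd) (mod_difV hab hw hl hg hτ hs) S ht).trans (le_of_eq ?_)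
    rw [← exp2 M]
    ring
  · refine (size_N2 w hM hg hγ S (B := 2 * M * Real.exp (16 * M) *
      cE (w + τ • g) (pJ c' d') (osc (w + τ • g) (pJ c d) g) S) fun t s ht hs =>
        oscV_in w hM hg hτ _ _ S ht hs).trans (le_of_eq ?_)
    ring

end Model

end

end Pool.W7d29a1.C0.S1
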