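import Pool.Agent.W_7d29a1_C0.BasRow33
import Pool.Agent.W_7d29a1_C0.Size1B

/-!
MP_7d29a1_pr, [CURV0], leaf E5.6 (helper3): THE SECOND PART OF THE CHANGE OF BASE, exact and pathwise.

`Rg_eq`: `R = cE_B (rg)`, `rg = η (G - cE_B G)`, `η = cE_W' g - g'`, `G = cE_W' g + g'`. `gm_proj`: the conditional means given the outsides of
disjoint blocks may be dropped in the second moment of a sum of nonnegative local functionals. `gm_rare`: the ends whose mass given the
block is less than `e` have probability at most (number of ends) times `e`. `mod_eta`: the size of `η` by the micro ties of the window.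
`mod_G`: the size of `G - cE_B G` by the outer ties of the window, two replicas given the BLOCK, off the rare ends.
-/

set_option autoImplicit false
set_option linter.unusedSectionVars false

namespace Pool.Agent.W_7d29a1_C0.Eta3

open Finset MeasureTheory Pool.Agent.W_7d29a1_F Pool.Agent.W_7d29a1_X Pool.Agent.W_7d29a1_H
open Pool.Agent.W_7d29a1_C0.Mod92
open Pool.W7d29a1.C0
open Pool.W7d29a1.C0.VT31 Pool.W7d29a1.C0.S1 Pool.W7d29a1.C0.R43
open Pool.Agent.W_7d29a1_C0 Pool.Agent.W_7d29a1_C0.Swap57 Pool.Agent.W_7d29a1_C0.E4T32 Pool.Agent.W_7d29a1_C0.Base5 Pool.Agent.W_7d29a1_C0.BasRow33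

noncomputable section

section abstract

variable {X : Type*} [Fintype X] [DecidableEq X] [Nonempty X] {Y Z E : Type*} [DecidableEq Y] [DecidableEq Z] [DecidableEq E]

/-- The sum of the two responses. -/
def Gs (w : X → ℝ) (u : X → Z) (g g' : X → ℝ) : X → ℝ := cE w u g + g'

/-- The second part before the conditional mean. -/
def rg (w : X → ℝ) (p : X → Y) (u : X → Z) (g g' : X → ℝ) : X → ℝ := Eg w u g g' * (Gs w u g g' - cE w p (Gs w u g g'))

theorem cC_eq_cE (w : X → ℝ) (p : X → Y) (e G : X → ℝ) : cC w p e G = cE w p (e * (G - cE w p G)) := by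
  rw [mul_sub, cE_sub, mul_comm e (cE w p G), cE_pull w (cE_meas w p G) e]
  unfold cC
  rw [mul_comm (cE w p e)]

/-- **The second part is the conditional mean of `η (G - cE G)`.** -/
theorem Rg_eq (w : X → ℝ) (p : X → Y) (u : X → Z) (g g' : X → ℝ) : Rg w p u g g' = cE w p (rg w p u g g') := by
  unfold rg
  rw [← cC_eq_cE]
  have e : Gs w u g g' = Eg w u g g' + (2 : ℝ) • g' := by
    unfold Gs Eg
    rw [two_smul]
    abel
  rw [e, cC_add_right, cC_smul_right, cC_symm w p (Eg w u g g') g', add_comm]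
  rfl

theorem gm_sum3 {ι : Type*} (w : X → ℝ) (T : Finset ι) (f : ι → X → ℝ) : gm w (fun S => ∑ j ∈ T, f j S) = ∑ j ∈ T, gm w (f j) := by
  unfold gm
  rw [← sum_div]
  congr 1
  rw [sum_comm]
  exact sum_congr rfl fun x _ => by rw [mul_sum]

/-- **Projections**: the conditional means given the outsides of disjoint blocks may be dropped. -/
theorem gm_proj {κ : Type*} [DecidableEq κ] (w : X → ℝ) (K : Finset κ) (p : κ → X → Y) (F : κ → X → ℝ)
    (h1 : ∀ k ∈ K, ∀ k' ∈ K, k ≠ k' → Mp (p k') (F k)) (h2 : ∀ k ∈ K, ∀ k' ∈ K, k ≠ k' → Mp (p k') (cE w (p k) (F k))) :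
    gm w (fun x => (∑ k ∈ K, cE w (p k) (F k) x) ^ 2) ≤ gm w fun x => (∑ k ∈ K, F k x) ^ 2 := by
  have e1 : (fun x => (∑ k ∈ K, cE w (p k) (F k) x) ^ 2) =
      fun x => ∑ k ∈ K, ∑ k' ∈ K, (cE w (p k) (F k) * cE w (p k') (F k')) x := by
    funext x
    rw [sq, sum_mul_sum]
    rfl
  have e2 : (fun x => (∑ k ∈ K, F k x) ^ 2) = fun x => ∑ k ∈ K, ∑ k' ∈ K, (F k * F k') x := by
    funext x
    rw [sq, sum_mul_sum]
    rfl
  rw [e1, e2, gm_sum3, gm_sum3]
  refine sum_le_sum fun k hk => ?_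
  rw [gm_sum3, gm_sum3]
  refine sum_le_sum fun k' hk' => ?_
  by_cases h : k = k'
  · subst h
    have e3 : gm w (F k * F k) = gm w (cE w (p k) (F k * F k)) := (gm_cE w (p k) (F k * F k)).symm
    rw [e3]
    refine gm_mono w fun x => ?_
    have := cV_nonneg w (p k) (F k) x
    unfold cV cC at this
    rw [Pi.sub_apply] at this
    linarith
  · rw [mul_comm (cE w (p k) (F k)), gm_mul_cE w (h2 k' hk' k hk (Ne.symm h)) (F k), mul_comm _ (F k),
      gm_mul_cE w (h1 k hk k' hk' h) (F k')]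

/-- The mass of the end `e x` given `q x`. -/
def rho (w : X → ℝ) (q : X → Y) (e : X → E) (x : X) : ℝ := cE w q (fun z => if e z = e x then 1 else 0) x

/-- **Rare ends.** -/
theorem gm_rare (w : X → ℝ) (q : X → Y) (e : X → E) (T : Finset E) (hT : ∀ x, e x ∈ T) {c : ℝ} (hc : 0 ≤ c) :
    gm w (fun x => i1 (rho w q e x < c)) ≤ T.card * c := by
  obtain ⟨ma, hma⟩ : ∃ ma : E → X → ℝ, ma = fun a => cE w q (fun z => if e z = a then 1 else 0) := ⟨_, rfl⟩
  obtain ⟨Fa, hFa⟩ : ∃ Fa : E → X → ℝ, Fa = fun a => (fun x => i1 (ma a x < c)) * (fun z => if e z = a then (1 : ℝ) else 0) := ⟨_, rfl⟩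
  have h1 : gm w (fun x => i1 (rho w q e x < c)) ≤ gm w (fun x => ∑ a ∈ T, Fa a x) := by
    refine gm_mono w fun x => ?_
    have h3 : Fa (e x) x ≤ ∑ a ∈ T, Fa a x :=
      single_le_sum (f := fun a => Fa a x) (fun a _ => by
          rw [hFa]
          beta_reduce
          rw [Pi.mul_apply]
          refine mul_nonneg (i1_nonneg _) ?_
          split_ifs <;> norm_num) (hT x)
    have h4 : i1 (rho w q e x < c) = Fa (e x) x := by
      rw [hFa]
      beta_reduce
      rw [Pi.mul_apply, if_pos rfl, mul_one, hma]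
      rfl
    rw [h4]
    exact h3
  refine h1.trans ?_
  rw [gm_sum3]
  refine (sum_le_card_nsmul T _ c fun a _ => ?_).trans (le_of_eq (by rw [nsmul_eq_mul]))
  have h5 : Mp q fun x => i1 (ma a x < c) := fun x x' h => by
    have : ma a x = ma a x' := by
      rw [hma]
      exact cE_meas w q _ x x' h
    beta_reduce
    rw [this]
  rw [hFa]
  beta_reduce
  rw [← gm_mul_cE w h5]
  have h6 := gm_mono w (f := (fun x => i1 (ma a x < c)) * cE w q (fun z => if e z = a then (1 : ℝ) else 0)) (g := fun _ => c)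
    fun x => by
      rw [Pi.mul_apply]
      by_cases h7 : ma a x < c
      · rw [i1_of h7, one_mul]
        rw [hma] at h7
        exact h7.le
      · rw [i1_not h7, zero_mul]
        exact hc
  exact h6.trans (le_of_eq (gm_const w c))

end abstract

/-! ### The model -/

section Model

variable {Q : Finset (Finset ℕ)} [SwQ Q] [Nonempty (Px Q)] {c al be d c' d' C D : ℕ} {w g : Px Q → ℝ} {M τ : ℝ}

theorem Lk_gb {c d : ℕ} (hcd : c ≤ d) (hw : Wk c c d d w) (hg : Lk c d g) : Lk c d (gb81 w g (pJ c d)) := fun S S' h => by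
  rw [gb81_apply, gb81_apply]
  congr 1
  funext s
  exact Lk_cE hcd (wk_line hw hg s) hg S S' h

/-- **Markov property**, the values of the ends only. -/
theorem cE_ends (hcd : c ≤ d) (hw : Wk c c d d w) (hg : Lk c d g) {S S' : Px Q} (h1 : ps S c = ps S' c) (h2 : ps S d = ps S' d) :
    cE w (pJ c d) g S = cE w (pJ c d) g S' := by
  obtain ⟨S₁, hS₁⟩ : ∃ S₁, S₁ = swP c d S S' := ⟨_, rfl⟩
  have e1 : cE w (pJ c d) g S₁ = cE w (pJ c d) g S :=
    cE_meas w (pJ c d) g _ _ (by rw [hS₁]; exact pJ_swP le_rfl hcd le_rfl h1 h2)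
  have e2 : cE w (pJ c d) g S₁ = cE w (pJ c d) g S' := Lk_cE hcd hw hg S₁ S' fun i hi hi' => by
    rw [hS₁]
    exact ps_swP_mid hcd h1 h2 hi hi'
  rw [← e1, e2]

theorem NM_mono {c1 al1 be1 d1 : ℕ} (h1 : c ≤ c1) (h2 : al1 ≤ al) (h3 : be ≤ be1) (h4 : d1 ≤ d) (S S' : Px Q) :
    NM c al be d S S' ≤ NM c1 al1 be1 d1 S S' := by
  by_cases h : Swap57.Mt c1 al1 be1 d1 S S'
  · obtain ⟨⟨i, a1, a2, a3⟩, j, b1, b2, b3⟩ := h
    rw [NM_of (show Swap57.Mt c al be d S S' from ⟨⟨i, h1.trans a1, a2.trans h2, a3⟩, j, h3.trans b1, b2.trans h4, b3⟩)]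
    exact NM_nonneg _ _ _ _ _ _
  · rw [NM_of_not h]
    exact NM_le_one _ _ _ _ _ _

/-- The kernel of the outer parts of `[c', d']` looks at the rows `[c', d']`. -/
theorem Lk_NM (c al be d : ℕ) (hca : c ≤ al) (hab : al ≤ be) (hbd : be ≤ d) (S' : Px Q) : Lk c d fun S : Px Q => NM c al be d S S' := by
  intro S T h
  have h2 : Swap57.Mt c al be d S S' = Swap57.Mt c al be d T S' := by
    unfold Swap57.Mt Eqp
    refine congrArg₂ And ?_ ?_
    · refine congrArg Exists (funext fun i => ?_)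
      refine propext ⟨fun h3 => ⟨h3.1, h3.2.1, ?_⟩, fun h3 => ⟨h3.1, h3.2.1, ?_⟩⟩
      · rw [← h i h3.1 (by omega)]; exact h3.2.2
      · rw [h i h3.1 (by omega)]; exact h3.2.2
    · refine congrArg Exists (funext fun i => ?_)
      refine propext ⟨fun h3 => ⟨h3.1, h3.2.1, ?_⟩, fun h3 => ⟨h3.1, h3.2.1, ?_⟩⟩
      · rw [← h i (by omega) h3.2.1]; exact h3.2.2
      · rw [h i (by omega) h3.2.1]; exact h3.2.2
  show NM c al be d S S' = NM c al be d T S'
  unfold NM
  rw [h2]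

/-- **The size of `η`** (exact responses), mass form. -/
theorem mod_eta' (hab : al ≤ be) (hw : Wk c al be d w) (hl : Lk al be g) (hM : 1 ≤ M) (hg : ∀ S, |g S| ≤ M) (hτ : |τ| ≤ 1)
    (hc : c' ≤ c) (hd : d ≤ d') (S : Px Q) :
    |Eg (w + τ • g) (pJ c' d') (gb81 w g (pJ c d)) (gb81 w g (pJ c' d')) S| ≤
      2 * M * Real.exp (12 * M) * cE2 (w + τ • g) (pJ c' d') (NM c al be d) S S := by
  have h := size_gb w hM hg hτ (crs_pJ hc hd) S (B := 2 * M * Real.exp (8 * M) * cE2 (w + τ • g) (pJ c' d') (NM c al be d) S S)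
    fun s hs => osc_dif _ (crs_pJ hc hd) (mod_dif hab hw hl hM hg hτ hs) S
  unfold Eg
  rw [Pi.sub_apply, abs_sub_comm]
  refine h.trans (le_of_eq ?_)
  have e : Real.exp (12 * M) = Real.exp (4 * M) * Real.exp (8 * M) := by
    rw [← Real.exp_add]
    congr 1
    ring
  rw [e]
  ring

theorem abs_eta (hg : ∀ S, |g S| ≤ M) (S : Px Q) :
    |Eg (w + τ • g) (pJ c' d') (gb81 w g (pJ c d)) (gb81 w g (pJ c' d')) S| ≤ 2 * M := by
  unfold Eg
  rw [Pi.sub_apply]
  refine (abs_sub _ _).trans ?_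
  have h1 := abs_cE_bd (M := M) (pJ c' d') (f := gb81 w g (pJ c d)) (abs_gb w hg (pJ c d)) (w + τ • g) S
  have h2 := abs_gb w hg (pJ c' d') S
  linarith

/-- **The size of `η`.** -/
theorem mod_eta (hab : al ≤ be) (hw : Wk c al be d w) (hl : Lk al be g) (hM : 1 ≤ M) (hg : ∀ S, |g S| ≤ M) (hτ : |τ| ≤ 1)
    (hc : c' ≤ c) (hd : d ≤ d') (S : Px Q) (m : ℝ) :
    |Eg (w + τ • g) (pJ c' d') (gb81 w g (pJ c d)) (gb81 w g (pJ c' d')) S| ≤
      2 * M * tI (w + τ • g) (pJ c' d') c al be d m S + 2 * (2 * M * Real.exp (12 * M)) * Real.exp (-(5 * m)) :=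
  fin1 m (abs_eta hg S) (mod_eta' hab hw hl hM hg hτ hc hd S) (by positivity)

/-- The sum of the two responses is controlled by the outer parts of the larger window. -/
theorem dif_G (hcd : c ≤ d) (hab : al ≤ be) (hca : c ≤ al) (hbd : be ≤ d) (hw : Wk c c d d w) (hw' : Wk c' c d d' w) (hw2 : Wk c' al be d' w)
    (hl : Lk al be g) (hM : 1 ≤ M) (hg : ∀ S, |g S| ≤ M) (hτ : |τ| ≤ 1) :
    Dif (w + τ • g) (pJ c' d') (NM c' c d d') (4 * M * Real.exp (8 * M))
      (Gs (w + τ • g) (pJ c' d') (gb81 w g (pJ c d)) (gb81 w g (pJ c' d'))) := by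
  have hl' : Lk c d g := Lk_mono hca hbd hl
  have h1 : Dif (w + τ • g) (pJ c' d') (NM c' c d d') (2 * M) (cE (w + τ • g) (pJ c' d') (gb81 w g (pJ c d))) :=
    dif_cE hcd (wk_line hw' hl' τ) (Lk_gb hcd hw hl') (osd (abs_gb w hg (pJ c d)))
  have h2 : Dif (w + τ • g) (pJ c' d') (NM c' al be d') (2 * M * Real.exp (8 * M)) (gb81 w g (pJ c' d')) :=
    dif_gb w fun s hs => mod_dif hab hw2 hl hM hg hτ hs
  intro x x'
  have a1 := h1 x x'
  have a2 := h2 x x'
  have a3 := cE2_mono (w + τ • g) (pJ (Q := Q) c' d') (fun z z' => NM_mono (c := c') (d := d') le_rfl hca hbd le_rfl z z') x x'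
  obtain ⟨T, hT⟩ : ∃ T, T = cE2 (w + τ • g) (pJ c' d') (NM c' c d d') x x' := ⟨_, rfl⟩
  have T0 : 0 ≤ T := by
    rw [hT]
    exact cE2_nonneg _ _ (NM_nonneg _ _ _ _) _ _
  rw [← hT] at a1 a3 ⊢
  have hE : 1 ≤ Real.exp (8 * M) := Real.one_le_exp (by linarith)
  have hM0 : 0 ≤ M := by linarith
  have a4 : 2 * M * Real.exp (8 * M) * cE2 (w + τ • g) (pJ c' d') (NM c' al be d') x x' ≤ 2 * M * Real.exp (8 * M) * T :=
    mul_le_mul_of_nonneg_left a3 (by positivity)
  have a5 : 2 * M * T ≤ 2 * M * Real.exp (8 * M) * T := by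
    refine mul_le_mul_of_nonneg_right ?_ T0
    nlinarith
  unfold Gs
  rw [Pi.add_apply, Pi.add_apply, add_sub_add_comm]
  refine (abs_add_le _ _).trans ?_
  linarith

/-- The ends of the window. -/
def en (c' d' : ℕ) (S : Px Q) : ℤ × ℤ := (ps S c', ps S d')

/-- The two replica mass given the window of the first and the window of a second replica given the block. -/
theorem cE_cE2 (u : Px Q → ℝ) {p : Px Q → Finset ℕ × ℕ} {q : Px Q → Finset ℕ × ℕ} (hc : Crs q p) (K : Px Q → Px Q → ℝ) (x x' : Px Q) :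
    cE u q (fun z => cE2 u p K x z) x' = cE u p (fun y => cE u q (K y) x') x := by
  have h := cE_comm u p q (fun y => cE u p (K y)) x x'
  have e : ∀ y, cE u q (cE u p (K y)) x' = cE u q (K y) x' := fun y => congrFun (cE_tower u hc (K y)) x'
  simp only [e] at h
  exact h.symm

/-- **From the window to the block**, off the rare ends. -/
theorem rho_le (hcd : c' ≤ d') {u : Px Q → ℝ} (hu : Wk c' c' d' d' u) (hC : C ≤ c') (hD : d' ≤ D) {K : Px Q → Px Q → ℝ}
    (hK0 : ∀ z z', 0 ≤ K z z') (hK : ∀ z', Lk c' d' fun z => K z z') (x : Px Q) :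
    rho u (pJ C D) (en c' d') x * cE u (pJ c' d') (fun y => cE u (pJ C D) (K y) x) x ≤ cE2 u (pJ C D) K x x := by
  obtain ⟨f, hf⟩ : ∃ f : Px Q → ℝ, f = fun y => cE u (pJ C D) (K y) x := ⟨_, rfl⟩
  have hfL : Lk c' d' f := fun S T h => by
    rw [hf]
    beta_reduce
    congr 1
    funext z'
    exact hK z' S T h
  have hf0 : ∀ y, 0 ≤ f y := fun y => by
    rw [hf]
    exact cE_nonneg u _ (hK0 y) x
  have e1 : cE2 u (pJ C D) K x x = cE u (pJ C D) (cE u (pJ c' d') f) x := by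
    rw [cE_tower u (crs_pJ hC hD) f, hf]
    rfl
  have e2 : rho u (pJ C D) (en c' d') x * cE u (pJ c' d') (fun y => cE u (pJ C D) (K y) x) x =
      cE u (pJ C D) (cE u (pJ c' d') f x • fun z => if en c' d' z = en c' d' x then 1 else 0) x := by
    rw [cE_smul, Pi.smul_apply, smul_eq_mul, mul_comm, hf]
    rfl
  rw [e1, e2]
  refine cE_mono u _ (fun z => ?_) x
  rw [Pi.smul_apply, smul_eq_mul]
  split_ifs with h
  · rw [mul_one]
    have h1 : ps z c' = ps x c' := congrArg Prod.fst h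
    have h2 : ps z d' = ps x d' := congrArg Prod.snd h
    exact (cE_ends hcd hu hfL h1 h2).symm.le
  · rw [mul_zero]
    exact cE_nonneg u _ hf0 z

theorem abs_Gs (hg : ∀ S, |g S| ≤ M) (S : Px Q) :
    |Gs (w + τ • g) (pJ c' d') (gb81 w g (pJ c d)) (gb81 w g (pJ c' d')) S| ≤ 2 * M := by
  unfold Gs
  rw [Pi.add_apply]
  refine (abs_add_le _ _).trans ?_
  have h1 := abs_cE_bd (M := M) (pJ c' d') (f := gb81 w g (pJ c d)) (abs_gb w hg (pJ c d)) (w + τ • g) S
  have h2 := abs_gb w hg (pJ c' d') S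
  linarith

/-- **A function of the ends of the window which is controlled by the outer parts of the window**: its distance to the conditional mean
given the block is controlled by the outer ties of two replicas given the BLOCK, off the rare ends. -/
theorem dif_price {u G : Px Q → ℝ} {L K : ℝ} (hcc : c' ≤ c) (hcd : c ≤ d) (hdd : d ≤ d') (hu : Wk c' c' d' d' u) (hC : C ≤ c') (hD : d' ≤ D)
    (hL : 0 ≤ L) (hG : Dif u (pJ c' d') (NM c' c d d') L G) (hb : ∀ S, |G S| ≤ K) (S : Px Q) (m : ℝ) :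
    |G S - cE u (pJ C D) G S| ≤ 2 * K * (tI u (pJ C D) c' c d d' m S + i1 (rho u (pJ C D) (en c' d') S < Real.exp (-m))) +
      2 * L * Real.exp (-(4 * m)) := by
  have hK : 0 ≤ K := (abs_nonneg _).trans (hb S)
  have t1 : |G S - cE u (pJ C D) G S| ≤ 2 * K := by
    refine (abs_sub _ _).trans ?_
    have h1 := hb S
    have h2 := abs_cE_bd (M := K) (pJ (Q := Q) C D) (f := G) hb u S
    linarith
  have hti : 0 ≤ tI u (pJ C D) c' c d d' m S := add_nonneg (i1_nonneg _) (i1_nonneg _)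
  by_cases hr : rho u (pJ C D) (en c' d') S < Real.exp (-m)
  · rw [i1_of hr]
    refine t1.trans ?_
    have h1 : 0 ≤ 2 * L * Real.exp (-(4 * m)) := by positivity
    have h2 : 0 ≤ K * tI u (pJ C D) c' c d d' m S := mul_nonneg hK hti
    linarith
  · rw [i1_not hr, add_zero]
    push Not at hr
    have h1 : |G S - cE u (pJ C D) G S| ≤ L * cE u (pJ c' d') (fun y => cE u (pJ C D) (NM c' c d d' y) S) S := by
      refine (abs_sub_cE u (pJ C D) G (G S) S).trans ?_
      have h2 : cE u (pJ C D) (fun z => |G S - G z|) S ≤ cE u (pJ C D) (L • fun z => cE2 u (pJ c' d') (NM c' c d d') S z) S :=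
        cE_mono u _ (fun z => hG S z) S
      rw [cE_smul, Pi.smul_apply, smul_eq_mul, cE_cE2 u (crs_pJ hC hD)] at h2
      exact h2
    have h3 := rho_le (C := C) (D := D) (by omega : c' ≤ d') hu hC hD (K := NM c' c d d') (NM_nonneg _ _ _ _)
      (Lk_NM c' c d d' hcc hcd hdd) S
    obtain ⟨H, hH⟩ : ∃ H, H = cE u (pJ c' d') (fun y => cE u (pJ C D) (NM c' c d d' y) S) S := ⟨_, rfl⟩
    have H0 : 0 ≤ H := by
      rw [hH]
      exact cE_nonneg u _ (fun y => cE_nonneg u _ (NM_nonneg _ _ _ _ y) S) S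
    rw [← hH] at h1 h3
    have h4 : H ≤ Real.exp m * cE2 u (pJ C D) (NM c' c d d') S S := by
      have h5 : Real.exp (-m) * H ≤ cE2 u (pJ C D) (NM c' c d d') S S := (mul_le_mul_of_nonneg_right hr H0).trans h3
      have h6 := mul_le_mul_of_nonneg_left h5 (Real.exp_pos m).le
      rwa [← mul_assoc, ← Real.exp_add, add_neg_cancel, Real.exp_zero, one_mul] at h6
    have h7 : |G S - cE u (pJ C D) G S| ≤ (L * Real.exp m) * cE2 u (pJ C D) (NM c' c d d') S S := by
      refine h1.trans ?_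
      rw [mul_assoc L]
      exact mul_le_mul_of_nonneg_left h4 hL
    refine (fin1 m t1 h7 (by positivity)).trans (le_of_eq ?_)
    congr 1
    have e : Real.exp (-(4 * m)) = Real.exp m * Real.exp (-(5 * m)) := by
      rw [← Real.exp_add]
      congr 1
      ring
    rw [e]
    ring

/-- **The size of `G - cE_B G`.** -/
theorem mod_G (hcd : c ≤ d) (hab : al ≤ be) (hca : c ≤ al) (hbd : be ≤ d) (hw : Wk c c d d w) (hw' : Wk c' c d d' w)
    (hw2 : Wk c' al be d' w) (hw3 : Wk c' c' d' d' w) (hl : Lk al be g) (hM : 1 ≤ M) (hg : ∀ S, |g S| ≤ M) (hτ : |τ| ≤ 1)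
    (hc : c' ≤ c) (hd : d ≤ d') (hC : C ≤ c') (hD : d' ≤ D) (S : Px Q) (m : ℝ) :
    |Gs (w + τ • g) (pJ c' d') (gb81 w g (pJ c d)) (gb81 w g (pJ c' d')) S -
      cE (w + τ • g) (pJ C D) (Gs (w + τ • g) (pJ c' d') (gb81 w g (pJ c d)) (gb81 w g (pJ c' d'))) S| ≤
      4 * M * (tI (w + τ • g) (pJ C D) c' c d d' m S + i1 (rho (w + τ • g) (pJ C D) (en c' d') S < Real.exp (-m))) +
        8 * M * Real.exp (8 * M) * Real.exp (-(4 * m)) := by
  have hM0 : 0 ≤ M := by linarith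
  have hu : Wk c' c' d' d' (w + τ • g) := wk_line hw3 (Lk_mono (hc.trans hca) (hbd.trans hd) hl) τ
  have hdif := dif_G (c := c) (al := al) (be := be) (d := d) (c' := c') (d' := d') hcd hab hca hbd hw hw' hw2 hl hM hg hτ
  refine (dif_price hc hcd hd hu hC hD (by positivity) hdif (fun S => abs_Gs hg S) S m).trans (le_of_eq ?_)
  ring

/-- The same for the exact response of the window alone (`c'`, `d'` = the window, `al`, `be` = the rows of `g`). -/
theorem mod_ge (hab : al ≤ be) (hca : c' ≤ al) (hbd : be ≤ d') (hw : Wk c' al be d' w) (hw3 : Wk c' c' d' d' w) (hl : Lk al be g)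
    (hM : 1 ≤ M) (hg : ∀ S, |g S| ≤ M) (hτ : |τ| ≤ 1) (hC : C ≤ c') (hD : d' ≤ D) (S : Px Q) (m : ℝ) :
    |gb81 w g (pJ c' d') S - cE (w + τ • g) (pJ C D) (gb81 w g (pJ c' d')) S| ≤
      2 * M * (tI (w + τ • g) (pJ C D) c' al be d' m S + i1 (rho (w + τ • g) (pJ C D) (en c' d') S < Real.exp (-m))) +
        4 * M * Real.exp (8 * M) * Real.exp (-(4 * m)) := by
  have hM0 : 0 ≤ M := by linarith
  have hu : Wk c' c' d' d' (w + τ • g) := wk_line hw3 (Lk_mono hca hbd hl) τ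
  have hdif : Dif (w + τ • g) (pJ c' d') (NM c' al be d') (2 * M * Real.exp (8 * M)) (gb81 w g (pJ c' d')) :=
    dif_gb w fun s hs => mod_dif hab hw hl hM hg hτ hs
  refine (dif_price hca hab hbd hu hC hD (by positivity) hdif (abs_gb w hg (pJ c' d')) S m).trans (le_of_eq ?_)
  ring

/-- **The size of one row.** -/
theorem mod_rg (hcd : c ≤ d) (hab : al ≤ be) (hca : c ≤ al) (hbd : be ≤ d) (hw0 : Wk c al be d w) (hw : Wk c c d d w) (hw' : Wk c' c d d' w)
    (hw2 : Wk c' al be d' w) (hw3 : Wk c' c' d' d' w) (hl : Lk al be g) (hM : 1 ≤ M) (hg : ∀ S, |g S| ≤ M) (hτ : |τ| ≤ 1)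
    (hc : c' ≤ c) (hd : d ≤ d') (hC : C ≤ c') (hD : d' ≤ D) (S : Px Q) {m : ℝ} (hm : 0 ≤ m) :
    |rg (w + τ • g) (pJ C D) (pJ c' d') (gb81 w g (pJ c d)) (gb81 w g (pJ c' d')) S| ≤
      8 * M ^ 2 * (tI (w + τ • g) (pJ c' d') c al be d m S * tI (w + τ • g) (pJ C D) c' c d d' m S) +
        8 * M ^ 2 * i1 (rho (w + τ • g) (pJ C D) (en c' d') S < Real.exp (-m)) + 48 * M ^ 2 * Real.exp (12 * M - 4 * m) := by
  have hM0 : 0 ≤ M := by linarith
  have h1 := mod_eta (c' := c') (d' := d') hab hw0 hl hM hg hτ hc hd S m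
  have h2 := mod_G (C := C) (D := D) hcd hab hca hbd hw hw' hw2 hw3 hl hM hg hτ hc hd hC hD S m
  have h3 := abs_eta (w := w) (τ := τ) (c := c) (d := d) (c' := c') (d' := d') hg S
  unfold rg
  rw [Pi.mul_apply, Pi.sub_apply, abs_mul]
  obtain ⟨a, ha⟩ : ∃ a, a = |Eg (w + τ • g) (pJ c' d') (gb81 w g (pJ c d)) (gb81 w g (pJ c' d')) S| := ⟨_, rfl⟩
  obtain ⟨b, hb⟩ : ∃ b, b = |Gs (w + τ • g) (pJ c' d') (gb81 w g (pJ c d)) (gb81 w g (pJ c' d')) S -
      cE (w + τ • g) (pJ C D) (Gs (w + τ • g) (pJ c' d') (gb81 w g (pJ c d)) (gb81 w g (pJ c' d'))) S| := ⟨_, rfl⟩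
  rw [← ha] at h1 h3 ⊢
  rw [← hb] at h2 ⊢
  obtain ⟨T, hT⟩ : ∃ T, T = tI (w + τ • g) (pJ c' d') c al be d m S := ⟨_, rfl⟩
  obtain ⟨U, hU⟩ : ∃ U, U = tI (w + τ • g) (pJ C D) c' c d d' m S := ⟨_, rfl⟩
  obtain ⟨r, hr⟩ : ∃ r, r = i1 (rho (w + τ • g) (pJ C D) (en c' d') S < Real.exp (-m)) := ⟨_, rfl⟩
  rw [← hT] at h1 ⊢
  rw [← hU, ← hr] at h2 ⊢
  have a0 : 0 ≤ a := by
    rw [ha]
    exact abs_nonneg _
  have i2 : ∀ A : Prop, i1 A ≤ 1 := fun A => by
    unfold i1
    split_ifs <;> norm_num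
  have U0 : 0 ≤ U := by
    rw [hU]
    exact add_nonneg (i1_nonneg _) (i1_nonneg _)
  have U2 : U ≤ 2 := by
    rw [hU]
    unfold tI
    linarith [i2 (Tau (w + τ • g) (pJ (Q := Q) C D) c' c m S), i2 (Tau (w + τ • g) (pJ (Q := Q) C D) d d' m S)]
  have r0 : 0 ≤ r := by
    rw [hr]
    exact i1_nonneg _
  obtain ⟨x, hx⟩ : ∃ x, x = Real.exp (12 * M - 4 * m) := ⟨_, rfl⟩
  have x1 : Real.exp (12 * M) * Real.exp (-(5 * m)) ≤ x := by
    rw [hx, ← Real.exp_add]
    exact Real.exp_le_exp.2 (by linarith)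
  have x2 : Real.exp (8 * M) * Real.exp (-(4 * m)) ≤ x := by
    rw [hx, ← Real.exp_add]
    exact Real.exp_le_exp.2 (by linarith)
  have x0 : 0 ≤ x := by
    rw [hx]
    exact (Real.exp_pos _).le
  rw [← hx]
  have s1 : a ≤ 2 * M * T + 4 * M * x := by
    have : 2 * (2 * M * Real.exp (12 * M)) * Real.exp (-(5 * m)) ≤ 4 * M * x := by
      calc 2 * (2 * M * Real.exp (12 * M)) * Real.exp (-(5 * m)) = 4 * M * (Real.exp (12 * M) * Real.exp (-(5 * m))) := by ring
        _ ≤ 4 * M * x := mul_le_mul_of_nonneg_left x1 (by positivity)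
    linarith
  have s2 : b ≤ 4 * M * (U + r) + 8 * M * x := by
    have : 8 * M * Real.exp (8 * M) * Real.exp (-(4 * m)) ≤ 8 * M * x := by
      rw [mul_assoc]
      exact mul_le_mul_of_nonneg_left x2 (by positivity)
    linarith
  have s3 : a * b ≤ a * (4 * M * (U + r) + 8 * M * x) := mul_le_mul_of_nonneg_left s2 a0
  have s4 : a * (4 * M * U) ≤ (2 * M * T + 4 * M * x) * (4 * M * U) := mul_le_mul_of_nonneg_right s1 (by positivity)
  have s5 : a * (4 * M * r) ≤ 2 * M * (4 * M * r) := mul_le_mul_of_nonneg_right h3 (by positivity)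
  have s6 : a * (8 * M * x) ≤ 2 * M * (8 * M * x) := mul_le_mul_of_nonneg_right h3 (by positivity)
  have s7 : 4 * M * x * (4 * M * U) ≤ 4 * M * x * (4 * M * 2) := mul_le_mul_of_nonneg_left (by nlinarith) (by positivity)
  nlinarith

end Model

end

end Pool.Agent.W_7d29a1_C0.Eta3
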