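import Pool.Agent.W_7d29a1_C0.Eta3
import Pool.Agent.W_7d29a1_C0.Base5D

/-!
MP_7d29a1_pr, [CURV0], leaf E5.6 (helper3), part 2: the second part of the change of base IN THE FRAME, reduced to indicators.

`a5 w b0 b b' σ j m` = (micro ties of the row `j` given the window `W'`) times (outer ties of the window `W'` given the block of length `σ`).
`gm_R5e_le` (pathwise in the environment) and `x5_R5e_le` (in the mean): the second moment of the sum over the kicked rows of the second part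
is at most `8 B ^ 4` times the second moment of the sum of `a5`, plus tiny.
-/

set_option autoImplicit false
set_option linter.unusedSectionVars false

namespace Pool.Agent.W_7d29a1_C0.Eta3

open Finset MeasureTheory Pool.Agent.W_7d29a1_F Pool.Agent.W_7d29a1_X Pool.Agent.W_7d29a1_H
open Pool.Agent.W_7d29a1_C0.Mod92
open Pool.W7d29a1.C0
open Pool.W7d29a1.C0.VT31 Pool.W7d29a1.C0.S1 Pool.W7d29a1.C0.R43
open Pool.Agent.W_7d29a1_C0 Pool.Agent.W_7d29a1_C0.Swap57 Pool.Agent.W_7d29a1_C0.E4T32 Pool.Agent.W_7d29a1_C0.Base5 Pool.Agent.W_7d29a1_C0.BasRow33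

noncomputable section

variable {μ : Measure ℝ} {s : ℝ} {N : ℕ} {Q : Finset (Finset ℕ)}

/-- One row before the conditional mean. -/
def rr5 (μ : Measure ℝ) (s : ℝ) (N : ℕ) (Q : Finset (Finset ℕ)) (δ B : ℝ) (b0 b b' σ : ℕ) (ω : Env × Finset ℕ) (j : ℕ) : Px Q → ℝ :=
  rg (wm μ s N Q ω) (pB σ j) (pW b' j) (ge5 μ s N Q δ B b0 b ω j) (ge5 μ s N Q δ B b0 b' ω j)

/-- Micro ties of the row `j` given the window, times outer ties of the window given the block. -/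
def a5 (w : Px Q → ℝ) (b0 b b' σ j : ℕ) (m : ℝ) (S : Px Q) : ℝ :=
  tI w (pW b' j) (j - b) (j - b0) (j + b0) (j + b) m S * tI w (pB σ j) (j - b') (j - b) (j + b) (j + b') m S

theorem i1_le_one (A : Prop) : i1 A ≤ 1 := by
  unfold i1
  split_ifs <;> norm_num

theorem tI_nonneg (u : Px Q → ℝ) (p : Px Q → Finset ℕ × ℕ) (c al be d : ℕ) (m : ℝ) (S : Px Q) : 0 ≤ tI u p c al be d m S :=
  add_nonneg (i1_nonneg _) (i1_nonneg _)

theorem tI_le (u : Px Q → ℝ) (p : Px Q → Finset ℕ × ℕ) (c al be d : ℕ) (m : ℝ) (S : Px Q) : tI u p c al be d m S ≤ 2 := by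
  unfold tI
  linarith [i1_le_one (Tau u p c al m S), i1_le_one (Tau u p be d m S)]

theorem a5_nonneg (w : Px Q → ℝ) (b0 b b' σ j : ℕ) (m : ℝ) (S : Px Q) : 0 ≤ a5 w b0 b b' σ j m S :=
  mul_nonneg (tI_nonneg _ _ _ _ _ _ _ _) (tI_nonneg _ _ _ _ _ _ _ _)

theorem a5_le (w : Px Q → ℝ) (b0 b b' σ j : ℕ) (m : ℝ) (S : Px Q) : a5 w b0 b b' σ j m S ≤ 4 := by
  have h1 := tI_le w (pW b' j) (j - b) (j - b0) (j + b0) (j + b) m S
  have h2 := tI_le w (pB σ j) (j - b') (j - b) (j + b) (j + b') m S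
  have h3 := tI_nonneg w (pB σ j) (j - b') (j - b) (j + b) (j + b') m S
  unfold a5
  calc _ ≤ 2 * (2 : ℝ) := mul_le_mul h1 h2 h3 (by norm_num)
    _ = 4 := by norm_num

theorem R5e_eq [Nonempty (Px Q)] (δ B : ℝ) (b0 b b' σ : ℕ) (ω : Env × Finset ℕ) (j : ℕ) :
    R5e μ s N Q δ B b0 b b' σ ω j = cE (wm μ s N Q ω) (pB σ j) (rr5 μ s N Q δ B b0 b b' σ ω j) := Rg_eq _ _ _ _ _

theorem w5_self (δ B : ℝ) (b0 : ℕ) (ω : Env × Finset ℕ) (j : ℕ) :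
    w5 μ s N Q δ B b0 ω j + sr ω.2 j • Mod92.gg μ s Q δ B b0 ω j = wm μ s N Q ω := by
  unfold w5
  rw [sub_add_cancel]

section rows

variable [SwQ Q] [Nonempty (Px Q)]

theorem wk_w5 (δ B : ℝ) (b0 : ℕ) (ω : Env × Finset ℕ) {j c al be d : ℕ} (h1 : al ≤ j - b0) (h2 : j + b0 ≤ be) (hab : al ≤ be) :
    Wk c al be d (w5 μ s N Q δ B b0 ω j) := by
  have h := wk_line (Wk_lw (μ := μ) (s := s) (N := N) (Q := Q) (c := c) (d := d) ω.1 hab)
    (Lk_gg (μ := μ) (s := s) (Q := Q) δ B b0 j ω h1 h2) (-sr ω.2 j)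
  have e : w5 μ s N Q δ B b0 ω j = lw μ s ω.1 N Q + -sr ω.2 j • Mod92.gg μ s Q δ B b0 ω j := by
    unfold w5 wm
    rw [neg_smul, sub_eq_add_neg]
  rw [e]
  exact h

theorem abs_sr1 (A : Finset ℕ) (j : ℕ) : |sr A j| ≤ 1 := (abs_sg A j).le

/-- **The size of one row, in the frame.** -/
theorem abs_rr5 {δ B : ℝ} (hB : 2 ≤ B) {b0 b b' σ : ℕ} (h0 : b0 ≤ b) (hb : b ≤ b') (ω : Env × Finset ℕ) {j : ℕ}
    (h1 : j / σ * σ + b' ≤ j) (h2 : j + b' ≤ j / σ * σ + σ) (S : Px Q) {m : ℝ} (hm : 0 ≤ m) :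
    |rr5 μ s N Q δ B b0 b b' σ ω j S| ≤ 2 * B ^ 2 * a5 (wm μ s N Q ω) b0 b b' σ j m S +
      2 * B ^ 2 * i1 (rho (wm μ s N Q ω) (pB σ j) (en (j - b') (j + b')) S < Real.exp (-m)) + 12 * B ^ 2 * Real.exp (6 * B - 4 * m) := by
  have hB0 : 0 ≤ B := by linarith
  have k0 : j - b ≤ j - b0 := by omega
  have k1 : j + b0 ≤ j + b := by omega
  have k2 : j - b' ≤ j - b := by omega
  have k3 : j + b ≤ j + b' := by omega
  have k4 : j - b0 ≤ j + b0 := by omega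
  have k5 : j - b ≤ j + b := by omega
  have k6 : j / σ * σ ≤ j - b' := by omega
  have h := mod_rg (c := j - b) (al := j - b0) (be := j + b0) (d := j + b) (c' := j - b') (d' := j + b') (C := j / σ * σ)
    (D := j / σ * σ + σ) (w := w5 μ s N Q δ B b0 ω j) (g := Mod92.gg μ s Q δ B b0 ω j) (M := B / 2) (τ := sr ω.2 j)
    k5 k4 k0 k1 (wk_w5 δ B b0 ω le_rfl le_rfl k4) (wk_w5 δ B b0 ω k0 k1 k5) (wk_w5 δ B b0 ω k0 k1 k5)
    (wk_w5 δ B b0 ω le_rfl le_rfl k4) (wk_w5 δ B b0 ω (by omega) (by omega) (by omega)) (Lk_gg δ B b0 j ω le_rfl le_rfl)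
    (by linarith) (fun S => abs_gg hB0 b0 ω j S) (abs_sr1 ω.2 j) k2 k3 k6 h2 S hm
  rw [w5_self] at h
  unfold rr5 a5
  refine h.trans (le_of_eq ?_)
  have e : (12 : ℝ) * (B / 2) = 6 * B := by ring
  rw [e]
  ring

theorem Lk_ge5 (δ B : ℝ) {b0 b : ℕ} (h0 : b0 ≤ b) (ω : Env × Finset ℕ) (j : ℕ) :
    Lk (j - b) (j + b) (ge5 μ s N Q δ B b0 b ω j) :=
  Lk_gb (by omega) (wk_w5 δ B b0 ω (by omega) (by omega) (by omega)) (Lk_gg δ B b0 j ω (by omega) (by omega))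

theorem Lk_rr5 (δ B : ℝ) {b0 b b' σ : ℕ} (h0 : b0 ≤ b) (hb : b ≤ b') (ω : Env × Finset ℕ) {j : ℕ}
    (h1 : j / σ * σ + b' ≤ j) (h2 : j + b' ≤ j / σ * σ + σ) :
    Lk (j / σ * σ) (j / σ * σ + σ) (rr5 μ s N Q δ B b0 b b' σ ω j) := by
  have g1 : Lk (j - b') (j + b') (ge5 μ s N Q δ B b0 b ω j) := Lk_mono (by omega) (by omega) (Lk_ge5 δ B h0 ω j)
  have g2 : Lk (j - b') (j + b') (ge5 μ s N Q δ B b0 b' ω j) := Lk_ge5 δ B (h0.trans hb) ω j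
  have hw : Wk (j - b') (j - b') (j + b') (j + b') (wm μ s N Q ω) := Wk_lw ω.1 (by omega)
  have hw' : Wk (j / σ * σ) (j / σ * σ) (j / σ * σ + σ) (j / σ * σ + σ) (wm μ s N Q ω) := Wk_lw ω.1 (by omega)
  have c1 : Lk (j - b') (j + b') (cE (wm μ s N Q ω) (pJ (j - b') (j + b')) (ge5 μ s N Q δ B b0 b ω j)) := Lk_cE (by omega) hw g1
  have e1 : Lk (j / σ * σ) (j / σ * σ + σ) (Eg (wm μ s N Q ω) (pW b' j) (ge5 μ s N Q δ B b0 b ω j) (ge5 μ s N Q δ B b0 b' ω j)) :=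
    Lk_mono (al := j - b') (be := j + b') (by omega) h2 (Lk_sub c1 g2)
  have e2 : Lk (j / σ * σ) (j / σ * σ + σ) (Gs (wm μ s N Q ω) (pW b' j) (ge5 μ s N Q δ B b0 b ω j) (ge5 μ s N Q δ B b0 b' ω j)) :=
    Lk_mono (al := j - b') (be := j + b') (by omega) h2 (Lk_add c1 g2)
  exact Lk_mul e1 (Lk_sub e2 (Lk_cE (by omega) hw' e2))

omit [SwQ Q] [Nonempty (Px Q)] in
theorem mp_Lk {al be C D : ℕ} {f : Px Q → ℝ} (h : Lk al be f) (hd : be ≤ C ∨ D ≤ al) : Mp (pJ C D) f := fun S S' e =>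
  h S S' fun _ hi hi' => hd.elim (fun h1 => ps_of_le e (hi'.trans h1)) fun h1 => ps_of_ge e (h1.trans hi)

/-- **Dropping the conditional means given the blocks of length `σ`**: `t j` any numbers of modulus at most one, `r j` a functional of the
positions in the rows of the block of `j`. -/
theorem gm_drop (σ : ℕ) (J : Finset ℕ) (ω : Env × Finset ℕ) {t : ℕ → ℝ} (ht : ∀ j ∈ J, |t j| ≤ 1) {r : ℕ → Px Q → ℝ}
    (hr : ∀ j ∈ J, Lk (j / σ * σ) (j / σ * σ + σ) (r j)) :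
    gm (wm μ s N Q ω) (fun S => (∑ j ∈ J, t j * cE (wm μ s N Q ω) (pB σ j) (r j) S) ^ 2) ≤
      gm (wm μ s N Q ω) (fun S => (∑ j ∈ J, |r j S|) ^ 2) := by
  obtain ⟨K, hK⟩ : ∃ K, K = J.image fun j => j / σ := ⟨_, rfl⟩
  obtain ⟨p, hp⟩ : ∃ p : ℕ → Px Q → Finset ℕ × ℕ, p = fun k => pJ (k * σ) (k * σ + σ) := ⟨_, rfl⟩
  obtain ⟨F, hF⟩ : ∃ F : ℕ → Px Q → ℝ, F = fun k => ∑ j ∈ J with j / σ = k, fun S => |r j S| := ⟨_, rfl⟩
  have hm : ∀ j ∈ J, j / σ ∈ K := fun j hj => by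
    rw [hK]
    exact mem_image_of_mem _ hj
  have hFL : ∀ k, Lk (k * σ) (k * σ + σ) (F k) := fun k S S' h => by
    rw [hF]
    beta_reduce
    rw [Finset.sum_apply, Finset.sum_apply]
    refine sum_congr rfl fun j hj => ?_
    obtain ⟨hj1, hj2⟩ := mem_filter.1 hj
    have h3 := hr j hj1
    rw [hj2] at h3
    rw [h3 S S' h]
  have e1 : ∀ S, ∑ k ∈ K, F k S = ∑ j ∈ J, |r j S| := fun S => by
    rw [← sum_fiberwise_of_maps_to hm, hF]
    refine sum_congr rfl fun k _ => ?_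
    beta_reduce
    rw [Finset.sum_apply]
  have e2 : ∀ S, ∑ k ∈ K, cE (wm μ s N Q ω) (p k) (F k) S =
      ∑ j ∈ J, cE (wm μ s N Q ω) (pB σ j) (fun S => |r j S|) S := fun S => by
    rw [← sum_fiberwise_of_maps_to hm]
    refine sum_congr rfl fun k _ => ?_
    rw [hF]
    beta_reduce
    rw [cE_sum, Finset.sum_apply]
    refine sum_congr rfl fun j hj => ?_
    rw [← (mem_filter.1 hj).2, hp]
  have h1 : gm (wm μ s N Q ω) (fun S => (∑ j ∈ J, t j * cE (wm μ s N Q ω) (pB σ j) (r j) S) ^ 2) ≤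
      gm (wm μ s N Q ω) (fun S => (∑ k ∈ K, cE (wm μ s N Q ω) (p k) (F k) S) ^ 2) := by
    refine gm_mono _ fun S => ?_
    rw [e2 S, ← sq_abs]
    refine pow_le_pow_left₀ (abs_nonneg _) ((abs_sum_le_sum_abs _ _).trans (sum_le_sum fun j hj => ?_)) 2
    rw [abs_mul]
    calc _ ≤ 1 * |cE (wm μ s N Q ω) (pB σ j) (r j) S| := mul_le_mul_of_nonneg_right (ht j hj) (abs_nonneg _)
      _ ≤ _ := by
          rw [one_mul]
          exact S1.abs_cE_le (wm μ s N Q ω) (pB σ j) (r j) S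
  refine h1.trans ?_
  simp only [← e1]
  have hdis : ∀ k k' : ℕ, k ≠ k' → k * σ + σ ≤ k' * σ ∨ k' * σ + σ ≤ k * σ := fun k k' h => by
    rcases lt_or_gt_of_ne h with h1 | h1
    · left
      calc k * σ + σ = (k + 1) * σ := by ring
        _ ≤ k' * σ := Nat.mul_le_mul_right σ h1
    · right
      calc k' * σ + σ = (k' + 1) * σ := by ring
        _ ≤ k * σ := Nat.mul_le_mul_right σ h1
  refine gm_proj (wm μ s N Q ω) K p F (fun k _ k' _ h => ?_) fun k _ k' _ h => ?_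
  · rw [hp]
    exact mp_Lk (hFL k) (hdis k k' h)
  · rw [hp]
    exact mp_Lk (Lk_cE (by omega) (Wk_lw ω.1 (by omega)) (hFL k)) (hdis k k' h)

/-- The same for the rows of the second part of the change of base. -/
theorem gm_R5e_drop (δ B : ℝ) {b0 b b' σ : ℕ} (h0 : b0 ≤ b) (hb : b ≤ b') {R : Finset ℕ} (hD : Deep R b' σ) (c d : ℕ) (ω : Env × Finset ℕ) :
    gm (wm μ s N Q ω) (fun S => (∑ j ∈ Rw R c d, sr ω.2 j / 3 * R5e μ s N Q δ B b0 b b' σ ω j S) ^ 2) ≤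
      gm (wm μ s N Q ω) (fun S => (∑ j ∈ Rw R c d, |rr5 μ s N Q δ B b0 b b' σ ω j S|) ^ 2) := by
  simp only [R5e_eq]
  refine gm_drop σ (Rw R c d) ω (t := fun j => sr ω.2 j / 3) (fun j _ => ?_) (r := rr5 μ s N Q δ B b0 b b' σ ω) fun j hj => ?_
  · rw [abs_div]
    have := abs_sr1 ω.2 j
    have h3 : |(3 : ℝ)| = 3 := by norm_num
    rw [h3]
    linarith
  · obtain ⟨a1, a2⟩ := hD j (mem_inter.1 hj).1
    rw [Nat.succ_mul] at a2
    exact Lk_rr5 δ B h0 hb ω a1 a2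

omit [SwQ Q] in
theorem gm_rho {C D c' d' : ℕ} (hcd : c' ≤ N) (hd : d' ≤ N) (w : Px Q → ℝ) {m : ℝ} :
    gm w (fun S => i1 (rho w (pJ C D) (en c' d') S < Real.exp (-m))) ≤ ((N : ℝ) + 1) ^ 2 * Real.exp (-m) := by
  have h := gm_rare w (pJ C D) (en c' d') ((Icc (0 : ℤ) c') ×ˢ (Icc (0 : ℤ) d')) (fun S => by
    rw [mem_product, mem_Icc, mem_Icc]
    exact ⟨⟨ps_nonneg S c', ps_le S c'⟩, ps_nonneg S d', ps_le S d'⟩) (Real.exp_pos (-m)).le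
  refine h.trans (mul_le_mul_of_nonneg_right ?_ (Real.exp_pos _).le)
  rw [card_product, Int.card_Icc, Int.card_Icc]
  have e1 : ((c' : ℤ) + 1 - 0).toNat = c' + 1 := by omega
  have e2 : ((d' : ℤ) + 1 - 0).toNat = d' + 1 := by omega
  rw [e1, e2]
  push_cast
  have h1 : (c' : ℝ) ≤ N := by exact_mod_cast hcd
  have h2 : (d' : ℝ) ≤ N := by exact_mod_cast hd
  have h3 : (0 : ℝ) ≤ c' := Nat.cast_nonneg _
  have h4 : (0 : ℝ) ≤ d' := Nat.cast_nonneg _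
  nlinarith

/-- The tiny term of `gm_R5e_le`. -/
def ty5 (N n : ℕ) (B m : ℝ) : ℝ :=
  2 * (n : ℝ) ^ 2 * (8 * B ^ 4 * (((N : ℝ) + 1) ^ 2 * Real.exp (-m)) + 288 * B ^ 4 * Real.exp (6 * B - 4 * m) ^ 2)

/-- **The second part of the change of base, pathwise**: indicators plus tiny. -/
theorem gm_R5e_le {δ B : ℝ} (hB : 2 ≤ B) {b0 b b' σ : ℕ} (h0 : b0 ≤ b) (hb : b ≤ b') {R : Finset ℕ} (hD : Deep R b' σ) {c d : ℕ}
    (hN : ∀ j ∈ Rw R c d, j + b' ≤ N) (ω : Env × Finset ℕ) {m : ℝ} (hm : 0 ≤ m) :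
    gm (wm μ s N Q ω) (fun S => (∑ j ∈ Rw R c d, sr ω.2 j / 3 * R5e μ s N Q δ B b0 b b' σ ω j S) ^ 2) ≤
      8 * B ^ 4 * gm (wm μ s N Q ω) (fun S => (∑ j ∈ Rw R c d, a5 (wm μ s N Q ω) b0 b b' σ j m S) ^ 2) + ty5 N (Rw R c d).card B m := by
  refine (gm_R5e_drop δ B h0 hb hD c d ω).trans ?_
  obtain ⟨w, hw⟩ : ∃ w, w = wm μ s N Q ω := ⟨_, rfl⟩
  obtain ⟨x, hx⟩ : ∃ x, x = Real.exp (6 * B - 4 * m) := ⟨_, rfl⟩
  obtain ⟨r, hr⟩ : ∃ r : ℕ → Px Q → ℝ, r = fun j S => i1 (rho w (pB σ j) (en (j - b') (j + b')) S < Real.exp (-m)) := ⟨_, rfl⟩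
  have hB0 : 0 ≤ B := by linarith
  have x0 : 0 ≤ x := by
    rw [hx]
    exact (Real.exp_pos _).le
  have r0 : ∀ j S, 0 ≤ r j S := fun j S => by
    rw [hr]
    exact i1_nonneg _
  have r1 : ∀ j S, r j S ^ 2 = r j S := fun j S => by
    rw [hr]
    beta_reduce
    unfold i1
    split_ifs <;> norm_num
  have hd : ∀ j ∈ Rw R c d, j / σ * σ + b' ≤ j ∧ j + b' ≤ j / σ * σ + σ := fun j hj => by
    obtain ⟨a1, a2⟩ := hD j (mem_inter.1 hj).1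
    rw [Nat.succ_mul] at a2
    exact ⟨a1, a2⟩
  have h1 : gm w (fun S => (∑ j ∈ Rw R c d, |rr5 μ s N Q δ B b0 b b' σ ω j S|) ^ 2) ≤
      gm w (fun S => 8 * B ^ 4 * (∑ j ∈ Rw R c d, a5 w b0 b b' σ j m S) ^ 2 +
        2 * ((Rw R c d).card : ℝ) * ∑ j ∈ Rw R c d, (8 * B ^ 4 * r j S + 288 * B ^ 4 * x ^ 2)) := by
    refine gm_mono _ fun S => ?_
    have k1 : ∑ j ∈ Rw R c d, |rr5 μ s N Q δ B b0 b b' σ ω j S| ≤
        2 * B ^ 2 * ∑ j ∈ Rw R c d, a5 w b0 b b' σ j m S + ∑ j ∈ Rw R c d, (2 * B ^ 2 * r j S + 12 * B ^ 2 * x) := by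
      rw [mul_sum, ← sum_add_distrib]
      refine sum_le_sum fun j hj => ?_
      obtain ⟨a1, a2⟩ := hd j hj
      have := abs_rr5 (μ := μ) (s := s) (N := N) (Q := Q) (δ := δ) hB h0 hb ω a1 a2 S hm
      rw [hr, hx, hw]
      linarith
    have k2 : (∑ j ∈ Rw R c d, (2 * B ^ 2 * r j S + 12 * B ^ 2 * x)) ^ 2 ≤
        ((Rw R c d).card : ℝ) * ∑ j ∈ Rw R c d, (2 * B ^ 2 * r j S + 12 * B ^ 2 * x) ^ 2 := sq_sum_le_card_mul_sum_sq
    have k3 : ∑ j ∈ Rw R c d, (2 * B ^ 2 * r j S + 12 * B ^ 2 * x) ^ 2 ≤ ∑ j ∈ Rw R c d, (8 * B ^ 4 * r j S + 288 * B ^ 4 * x ^ 2) := by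
      refine sum_le_sum fun j _ => ?_
      have e := r1 j S
      have : (2 * B ^ 2 * r j S + 12 * B ^ 2 * x) ^ 2 ≤ 2 * ((2 * B ^ 2 * r j S) ^ 2 + (12 * B ^ 2 * x) ^ 2) := by
        nlinarith [sq_nonneg (2 * B ^ 2 * r j S - 12 * B ^ 2 * x)]
      refine this.trans (le_of_eq ?_)
      have e2 : (2 * B ^ 2 * r j S) ^ 2 = 4 * B ^ 4 * r j S ^ 2 := by ring
      rw [e2, e]
      ring
    have k4 : 0 ≤ ∑ j ∈ Rw R c d, |rr5 μ s N Q δ B b0 b b' σ ω j S| := sum_nonneg fun _ _ => abs_nonneg _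
    have k5 := pow_le_pow_left₀ k4 k1 2
    obtain ⟨A, hA⟩ : ∃ A, A = ∑ j ∈ Rw R c d, a5 w b0 b b' σ j m S := ⟨_, rfl⟩
    obtain ⟨V, hV⟩ : ∃ V, V = ∑ j ∈ Rw R c d, (2 * B ^ 2 * r j S + 12 * B ^ 2 * x) := ⟨_, rfl⟩
    rw [← hA, ← hV] at k5
    rw [← hV] at k2
    rw [← hA]
    have k6 : (2 * B ^ 2 * A + V) ^ 2 ≤ 8 * B ^ 4 * A ^ 2 + 2 * V ^ 2 := by
      nlinarith [sq_nonneg (2 * B ^ 2 * A - V)]
    have k7 := k2.trans (mul_le_mul_of_nonneg_left k3 (Nat.cast_nonneg _))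
    linarith
  rw [← hw]
  refine h1.trans ?_
  rw [gm_add5, gm_mul5, gm_mul5]
  refine add_le_add le_rfl ?_
  rw [gm_sum5]
  have h2 : ∑ j ∈ Rw R c d, gm w (fun S => 8 * B ^ 4 * r j S + 288 * B ^ 4 * x ^ 2) ≤
      (Rw R c d).card * (8 * B ^ 4 * (((N : ℝ) + 1) ^ 2 * Real.exp (-m)) + 288 * B ^ 4 * x ^ 2) := by
    refine (sum_le_card_nsmul _ _ (8 * B ^ 4 * (((N : ℝ) + 1) ^ 2 * Real.exp (-m)) + 288 * B ^ 4 * x ^ 2) fun j hj => ?_).trans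
      (le_of_eq (by rw [nsmul_eq_mul]))
    rw [gm_add5, gm_mul5, gm_const]
    have h3 := hN j hj
    have h4 : gm w (r j) ≤ ((N : ℝ) + 1) ^ 2 * Real.exp (-m) := by
      rw [hr]
      exact gm_rho (C := j / σ * σ) (D := j / σ * σ + σ) (by omega) h3 w
    have h5 : 8 * B ^ 4 * gm w (r j) ≤ 8 * B ^ 4 * (((N : ℝ) + 1) ^ 2 * Real.exp (-m)) := mul_le_mul_of_nonneg_left h4 (by positivity)
    linarith
  unfold ty5
  rw [← hx]
  calc _ ≤ 2 * ((Rw R c d).card : ℝ) * ((Rw R c d).card * (8 * B ^ 4 * (((N : ℝ) + 1) ^ 2 * Real.exp (-m)) + 288 * B ^ 4 * x ^ 2)) :=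
        mul_le_mul_of_nonneg_left h2 (by positivity)
    _ = _ := by ring

end rows

/-! ### In the mean -/

section mean

variable [Nonempty (Px Q)]

theorem meas_cE2 {K : Px Q → Px Q → ℝ} (p : Px Q → Finset ℕ × ℕ) (S S' : Px Q) :
    Measurable fun ω : Env × Finset ℕ => cE2 (wm μ s N Q ω) p K S S' := by
  have h1 : ∀ z, Measurable fun ω : Env × Finset ℕ => cE (wm μ s N Q ω) p (K z) S' := fun z =>
    meas_cE (w := fun ω => wm μ s N Q ω) (f := fun (_ : Env × Finset ℕ) => K z) meas_wm (fun _ => measurable_const) p S'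
  exact meas_cE (w := fun ω => wm μ s N Q ω) (f := fun (ω : Env × Finset ℕ) z => cE (wm μ s N Q ω) p (K z) S') meas_wm h1 p S

theorem meas_tau (p : Px Q → Finset ℕ × ℕ) (i j : ℕ) (m : ℝ) (S : Px Q) :
    Measurable fun ω : Env × Finset ℕ => i1 (Tau (wm μ s N Q ω) p i j m S) := by
  unfold i1 Tau
  exact Measurable.ite (measurableSet_le measurable_const (meas_cE2 p S S)) measurable_const measurable_const

theorem meas_a5 (b0 b b' σ j : ℕ) (m : ℝ) (S : Px Q) :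
    Measurable fun ω : Env × Finset ℕ => a5 (wm μ s N Q ω) b0 b b' σ j m S := by
  unfold a5 tI
  exact ((meas_tau _ _ _ _ S).add (meas_tau _ _ _ _ S)).mul ((meas_tau _ _ _ _ S).add (meas_tau _ _ _ _ S))

theorem abs_a5 (w : Px Q → ℝ) (b0 b b' σ j : ℕ) (m : ℝ) (S : Px Q) : |a5 w b0 b b' σ j m S| ≤ 4 := by
  rw [abs_of_nonneg (a5_nonneg _ _ _ _ _ _ _ _)]
  exact a5_le _ _ _ _ _ _ _ _

end mean

/-- The second moment of the sum of the indicators, in the mean. -/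
def y5 (μ : Measure ℝ) (s : ℝ) (N : ℕ) (ys : Finset ℕ) (b0 b b' σ : ℕ) (J : Finset ℕ) (m : ℝ) : ℝ :=
  x5 μ s N ys fun y ω S => ∑ j ∈ J, a5 (Q := Pn N y) (wm μ s N (Pn N y) ω) b0 b b' σ j m S

/-- **The second part of the change of base, in the mean**: indicators plus tiny. -/
theorem x5_R5e_le [IsProbabilityMeasure μ] {ys : Finset ℕ} (hys : ∀ y ∈ ys, y ≤ N) {δ B : ℝ} (hB : 2 ≤ B) {b0 b b' σ : ℕ} (h0 : b0 ≤ b)
    (hb : b ≤ b') {R : Finset ℕ} (hD : Deep R b' σ) {c d : ℕ} (hN : ∀ j ∈ Rw R c d, j + b' ≤ N) {m : ℝ} (hm : 0 ≤ m) :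
    x5 μ s N ys (fun y ω S => ∑ j ∈ Rw R c d, sr ω.2 j / 3 * R5e μ s N (Pn N y) δ B b0 b b' σ ω j S) ≤
      8 * B ^ 4 * y5 μ s N ys b0 b b' σ (Rw R c d) m + ty5 N (Rw R c d).card B m := by
  have hB0 : 0 ≤ B := by linarith
  have t0 : 0 ≤ ty5 N (Rw R c d).card B m := by
    unfold ty5
    positivity
  have h1 : x5 μ s N ys (fun y ω S => ∑ j ∈ Rw R c d, sr ω.2 j / 3 * R5e μ s N (Pn N y) δ B b0 b b' σ ω j S) ≤
      avy ys fun y => 8 * B ^ 4 * (∫ ω, gm (wm μ s N (Pn N y) ω)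
        (fun S => (∑ j ∈ Rw R c d, a5 (wm μ s N (Pn N y) ω) b0 b b' σ j m S) ^ 2) ∂(Pm μ N)) + ty5 N (Rw R c d).card B m := by
    unfold x5
    refine avy_mono fun y hy => ?_
    have := ne_Pn (hys y hy)
    have i2 : Integrable (fun ω => gm (wm μ s N (Pn N y) ω)
        (fun S => (∑ j ∈ Rw R c d, a5 (wm μ s N (Pn N y) ω) b0 b b' σ j m S) ^ 2)) (Pm μ N) :=
      int_sq5 (fun S => Finset.measurable_fun_sum _ fun j _ => meas_a5 b0 b b' σ j m S) fun ω S =>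
        abs_sum5 fun j _ => abs_a5 _ b0 b b' σ j m S
    have i1 : Integrable (fun ω => gm (wm μ s N (Pn N y) ω)
        fun S => (∑ j ∈ Rw R c d, sr ω.2 j / 3 * R5e μ s N (Pn N y) δ B b0 b b' σ ω j S) ^ 2) (Pm μ N) :=
      int_sq5 (fun S => Finset.measurable_fun_sum _ fun j _ => ((meas_sr j).div_const 3).mul (meas_R5e δ B b0 b b' σ j S)) fun ω S =>
        abs_sum5 (K := K5 B) fun j _ => by
          rw [abs_mul, abs_div, abs_sr]
          have h1 := abs_R5e (μ := μ) (s := s) (N := N) (δ := δ) hB0 b0 b b' σ ω j S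
          have h2 : |(3 : ℝ)| = 3 := by norm_num
          rw [h2]
          linarith [abs_nonneg (R5e μ s N (Pn N y) δ B b0 b b' σ ω j S)]
    have h := integral_mono i1 ((i2.const_mul (8 * B ^ 4)).add (integrable_const (ty5 N (Rw R c d).card B m)))
      fun ω => gm_R5e_le (μ := μ) (s := s) (N := N) (Q := Pn N y) (δ := δ) hB h0 hb hD hN ω hm
    refine h.trans (le_of_eq ?_)
    refine (integral_add (i2.const_mul (8 * B ^ 4)) (integrable_const (ty5 N (Rw R c d).card B m))).trans ?_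
    rw [integral_const_mul, integral_const, probReal_univ, one_smul]
  refine h1.trans ?_
  rw [avy_add, avy_mul]
  refine add_le_add le_rfl ?_
  unfold avy
  rw [sum_const, nsmul_eq_mul, ← mul_assoc]
  rcases Nat.eq_zero_or_pos ys.card with h | h
  · rw [h]
    simp [t0]
  · rw [inv_mul_cancel₀ (by positivity), one_mul]

end

end Pool.Agent.W_7d29a1_C0.Eta3
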