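import Pool.Agent.W_7d29a1_C0.Eta3B

/-!
MP_7d29a1_pr, [CURV0], leaf E5.6 (helper3), part 3: THE BLOCKS OF LENGTH `σ`.

`two_level`: nonnegative bounded functionals `A k` (one for each block), whose second moments are at most `X`, and which have the price
`P` against every weight which is blind to the rows of their block: the second moment of the sum is at most
`n X + (n P) ^ 2 + tiny`. `y5_le`: the second moment of the sum of `a5` over the rows of a dyadic block.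
-/

set_option autoImplicit false
set_option linter.unusedSectionVars false

namespace Pool.Agent.W_7d29a1_C0.Eta3

open Finset MeasureTheory Pool.Agent.W_7d29a1_F Pool.Agent.W_7d29a1_X Pool.Agent.W_7d29a1_H
open Pool.Agent.W_7d29a1_C0.Mod92
open Pool.W7d29a1.C0
open Pool.W7d29a1.C0.VT31 Pool.W7d29a1.C0.S1 Pool.W7d29a1.C0.R43
open Pool.Agent.W_7d29a1_C0 Pool.Agent.W_7d29a1_C0.Swap57 Pool.Agent.W_7d29a1_C0.E4T32 Pool.Agent.W_7d29a1_C0.Base5 Pool.Agent.W_7d29a1_C0.BasRow33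
open Pool.Agent.W_7d29a1_C0.Row96

noncomputable section

variable {μ : Measure ℝ} {s : ℝ} {N : ℕ} {Q : Finset (Finset ℕ)}

/-- The functional does not look at the rows `J` of the environment. -/
def Blind (J : Finset ℕ) (f : Env × Finset ℕ → Px Q → ℝ) : Prop :=
  ∀ (η η' : Env) (A : Finset ℕ) (x : Px Q), (∀ q : Pt, ¬ (0 ≤ q.1 ∧ q.1.toNat ∈ J) → η q = η' q) → f (η, A) x = f (η', A) x

/-- A price of a functional against every blind weight. -/
def PrJ (μ : Measure ℝ) (s : ℝ) (N : ℕ) (J : Finset ℕ) (A : Env × Finset ℕ → Px Q → ℝ) (P e : ℝ) : Prop :=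
  ∀ f : Env × Finset ℕ → Px Q → ℝ, (∀ x, Measurable fun ω => f ω x) → (∀ ω x, 0 ≤ f ω x) → (∀ ω x, f ω x ≤ 1) → Blind J f →
    ∫ ω, gm (wm μ s N Q ω) (fun x => f ω x * A ω x) ∂(Pm μ N) ≤ P * ∫ ω, gm (wm μ s N Q ω) (f ω) ∂(Pm μ N) + e

theorem Blind.mul_const {J : Finset ℕ} {f : Env × Finset ℕ → Px Q → ℝ} (h : Blind J f) (c : ℝ) : Blind J fun ω x => c * f ω x :=
  fun η η' A x hq => by
    beta_reduce
    rw [h η η' A x hq]

theorem Blind.sum {ι : Type*} {J : Finset ℕ} {T : Finset ι} {f : ι → Env × Finset ℕ → Px Q → ℝ} (h : ∀ i ∈ T, Blind J (f i)) :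
    Blind J fun ω x => ∑ i ∈ T, f i ω x := fun η η' A x hq => sum_congr rfl fun i hi => h i hi η η' A x hq

variable [Nonempty (Px Q)] [IsProbabilityMeasure μ]

theorem int_gm3 {f : Env × Finset ℕ → Px Q → ℝ} {M : ℝ} (hm : ∀ x, Measurable fun ω => f ω x) (hb : ∀ ω x, |f ω x| ≤ M) :
    Integrable (fun ω => gm (wm μ s N Q ω) (f ω)) (Pm μ N) :=
  int_bdd (M := M) (meas_gm meas_wm hm) fun ω => abs_gm5 _ (hb ω)

/-- **Two levels.** -/
theorem two_level {K : Finset ℕ} {A : ℕ → Env × Finset ℕ → Px Q → ℝ} {J : ℕ → Finset ℕ} {M X P e : ℝ} (hM : 0 < M) (hP : 0 ≤ P) (he : 0 ≤ e)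
    (hm : ∀ k ∈ K, ∀ x, Measurable fun ω => A k ω x) (h0 : ∀ k ∈ K, ∀ ω x, 0 ≤ A k ω x) (h1 : ∀ k ∈ K, ∀ ω x, A k ω x ≤ M)
    (hb : ∀ k ∈ K, ∀ k' ∈ K, k ≠ k' → Blind (J k) (A k'))
    (hX : ∀ k ∈ K, ∫ ω, gm (wm μ s N Q ω) (fun x => A k ω x ^ 2) ∂(Pm μ N) ≤ X)
    (hS : ∀ k ∈ K, PrJ μ s N (J k) (A k) P e) :
    ∫ ω, gm (wm μ s N Q ω) (fun x => (∑ k ∈ K, A k ω x) ^ 2) ∂(Pm μ N) ≤
      K.card * X + (K.card * P) ^ 2 + (K.card : ℝ) ^ 2 * ((P + M) * e) := by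
  rcases K.eq_empty_or_nonempty with hK | hK
  · subst hK
    simp [gm]
  have hn : (1 : ℝ) ≤ K.card := by exact_mod_cast hK.card_pos
  obtain ⟨n, hnd⟩ : ∃ n : ℝ, n = K.card := ⟨_, rfl⟩
  rw [← hnd] at hn ⊢
  have hn0 : 0 < n := by linarith
  have habs : ∀ k ∈ K, ∀ ω x, |A k ω x| ≤ M := fun k hk ω x => by
    rw [abs_of_nonneg (h0 k hk ω x)]
    exact h1 k hk ω x
  -- the mean of one block
  have hA : ∀ k ∈ K, ∫ ω, gm (wm μ s N Q ω) (A k ω) ∂(Pm μ N) ≤ P + e := fun k hk => by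
    have h := hS k hk (fun _ _ => 1) (fun _ => measurable_const) (fun _ _ => zero_le_one) (fun _ _ => le_rfl) fun _ _ _ _ _ => rfl
    have e1 : ∀ ω : Env × Finset ℕ, gm (wm μ s N Q ω) (fun _ => (1 : ℝ)) = 1 := fun ω => gm_const _ 1
    have e2 : ∫ ω, gm (wm μ s N Q ω) (fun x => (1 : ℝ) * A k ω x) ∂(Pm μ N) = ∫ ω, gm (wm μ s N Q ω) (A k ω) ∂(Pm μ N) := by
      simp only [one_mul]
    rw [e2] at h
    refine h.trans (le_of_eq ?_)
    have e3 : ∫ ω, gm (wm μ s N Q ω) ((fun _ _ => 1 : Env × Finset ℕ → Px Q → ℝ) ω) ∂(Pm μ N) = 1 := by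
      rw [show (fun ω => gm (wm μ s N Q ω) ((fun _ _ => 1 : Env × Finset ℕ → Px Q → ℝ) ω)) = fun _ => (1 : ℝ) from funext e1]
      rw [integral_const, probReal_univ, one_smul]
    rw [e3, mul_one]
  -- the pairs of different blocks
  obtain ⟨f, hf⟩ : ∃ f : ℕ → Env × Finset ℕ → Px Q → ℝ, f = fun k ω x => (n * M)⁻¹ * ∑ k' ∈ K.erase k, A k' ω x := ⟨_, rfl⟩
  have hnM : 0 < n * M := mul_pos hn0 hM
  have f0 : ∀ k ω x, 0 ≤ f k ω x := fun k ω x => by
    rw [hf]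
    exact mul_nonneg (inv_nonneg.2 hnM.le) (sum_nonneg fun k' hk' => h0 k' (mem_of_mem_erase hk') ω x)
  have f1 : ∀ k ω x, f k ω x ≤ 1 := fun k ω x => by
    rw [hf]
    beta_reduce
    rw [inv_mul_le_iff₀ hnM, mul_one]
    refine (sum_le_card_nsmul _ _ M fun k' hk' => h1 k' (mem_of_mem_erase hk') ω x).trans ?_
    rw [nsmul_eq_mul]
    refine mul_le_mul_of_nonneg_right ?_ hM.le
    rw [hnd]
    exact_mod_cast card_le_card (erase_subset k K)
  have fm : ∀ k x, Measurable fun ω => f k ω x := fun k x => by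
    rw [hf]
    exact (Finset.measurable_fun_sum _ fun k' hk' => hm k' (mem_of_mem_erase hk') x).const_mul _
  have fb : ∀ k ∈ K, Blind (J k) (f k) := fun k hk => by
    rw [hf]
    exact (Blind.sum fun k' hk' => hb k hk k' (mem_of_mem_erase hk') (ne_of_mem_erase hk').symm).mul_const _
  have hfm : ∀ k ∈ K, ∫ ω, gm (wm μ s N Q ω) (f k ω) ∂(Pm μ N) ≤ (n * M)⁻¹ * (n * (P + e)) := fun k hk => by
    have e1 : (fun ω => gm (wm μ s N Q ω) (f k ω)) = fun ω => (n * M)⁻¹ * ∑ k' ∈ K.erase k, gm (wm μ s N Q ω) (A k' ω) := by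
      funext ω
      rw [hf]
      beta_reduce
      rw [gm_mul5, gm_sum5]
    rw [e1, integral_const_mul, integral_finsetSum _ fun k' hk' => int_gm3 (hm k' (mem_of_mem_erase hk')) (habs k' (mem_of_mem_erase hk'))]
    refine mul_le_mul_of_nonneg_left ?_ (inv_nonneg.2 hnM.le)
    refine (sum_le_card_nsmul _ _ (P + e) fun k' hk' => hA k' (mem_of_mem_erase hk')).trans ?_
    rw [nsmul_eq_mul]
    refine mul_le_mul_of_nonneg_right ?_ (by linarith)
    rw [hnd]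
    exact_mod_cast card_le_card (erase_subset k K)
  have hpair : ∀ k ∈ K, ∫ ω, gm (wm μ s N Q ω) (fun x => f k ω x * A k ω x) ∂(Pm μ N) ≤ P * ((n * M)⁻¹ * (n * (P + e))) + e := fun k hk =>
    (hS k hk (f k) (fm k) (f0 k) (f1 k) (fb k hk)).trans (by
      have := mul_le_mul_of_nonneg_left (hfm k hk) hP
      linarith)
  have e0 : (fun ω => gm (wm μ s N Q ω) (fun x => (∑ k ∈ K, A k ω x) ^ 2)) =
      fun ω => ∑ k ∈ K, (gm (wm μ s N Q ω) (fun x => A k ω x ^ 2) + n * M * gm (wm μ s N Q ω) (fun x => f k ω x * A k ω x)) := by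
    funext ω
    have e1 : (fun x => (∑ k ∈ K, A k ω x) ^ 2) = fun x => ∑ k ∈ K, (A k ω x ^ 2 + n * M * (f k ω x * A k ω x)) := by
      funext x
      rw [sq, sum_mul]
      refine sum_congr rfl fun k hk => ?_
      rw [← add_sum_erase K (fun k' => A k' ω x) hk, hf]
      beta_reduce
      rw [mul_add, ← sq]
      congr 1
      field_simp
    rw [e1, gm_sum5]
    refine sum_congr rfl fun k _ => ?_
    rw [gm_add5, gm_mul5]
  have i1 : ∀ k ∈ K, Integrable (fun ω => gm (wm μ s N Q ω) (fun x => A k ω x ^ 2)) (Pm μ N) := fun k hk =>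
    int_sq5 (hm k hk) (habs k hk)
  have i2 : ∀ k ∈ K, Integrable (fun ω => gm (wm μ s N Q ω) (fun x => f k ω x * A k ω x)) (Pm μ N) := fun k hk =>
    int_gm3 (M := 1 * M) (fun x => (fm k x).mul (hm k hk x)) fun ω x => by
      rw [abs_mul]
      refine mul_le_mul ?_ (habs k hk ω x) (abs_nonneg _) zero_le_one
      rw [abs_of_nonneg (f0 k ω x)]
      exact f1 k ω x
  rw [e0]
  refine (integral_finsetSum K (f := fun k ω => gm (wm μ s N Q ω) (fun x => A k ω x ^ 2) +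
    n * M * gm (wm μ s N Q ω) (fun x => f k ω x * A k ω x)) fun k hk => (i1 k hk).add ((i2 k hk).const_mul _)).le.trans ?_
  refine (sum_le_card_nsmul K _ (X + n * M * (P * ((n * M)⁻¹ * (n * (P + e))) + e)) fun k hk => ?_).trans ?_
  · refine (integral_add (i1 k hk) ((i2 k hk).const_mul _)).le.trans ?_
    rw [integral_const_mul]
    exact add_le_add (hX k hk) (mul_le_mul_of_nonneg_left (hpair k hk) hnM.le)
  · rw [nsmul_eq_mul, ← hnd]
    have e5 : n * M * (P * ((n * M)⁻¹ * (n * (P + e))) + e) = P * (n * (P + e)) + n * M * e := by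
      field_simp
    rw [e5]
    refine le_of_eq ?_
    ring

/-! ### The indicators -/

omit [IsProbabilityMeasure μ] [Nonempty (Px Q)] in
theorem ag_of {C D c d : ℕ} (hd : d ≤ C ∨ D ≤ c) {η η' : Env} (h : ∀ q : Pt, ¬ (0 ≤ q.1 ∧ q.1.toNat ∈ Ioo C D) → η q = η' q) :
    Ag c d η η' := fun q h1 h2 => h q fun h3 => by
  obtain ⟨h4, h5⟩ := h3
  rw [mem_Ioo] at h5
  omega

omit [IsProbabilityMeasure μ] in
theorem tI_rows [SwQ Q] {c d C D : ℕ} (hd : d ≤ C ∨ D ≤ c) {η η' : Env} (h : ∀ q : Pt, ¬ (0 ≤ q.1 ∧ q.1.toNat ∈ Ioo C D) → η q = η' q)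
    (A : Finset ℕ) (i j i' j' : ℕ) (m : ℝ) (x : Px Q) :
    tI (wm μ s N Q (η, A)) (pJ c d) i j i' j' m x = tI (wm μ s N Q (η', A)) (pJ c d) i j i' j' m x := by
  have e : ∀ (K : Px Q → Px Q → ℝ), cE2 (wm μ s N Q (η, A)) (pJ c d) K x x = cE2 (wm μ s N Q (η', A)) (pJ c d) K x x := fun K => by
    have h1 := cE_rows (μ := μ) (s := s) (N := N) (Q := Q) (ag_of hd h)
    unfold cE2 wm
    rw [h1]
    congr 1
    funext z
    rw [h1]
  unfold tI Tau
  rw [e, e]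

omit [IsProbabilityMeasure μ] in
theorem blind_a5 [SwQ Q] {b b' σ j C D : ℕ} (b0 : ℕ) (m : ℝ) (h1 : j / σ * σ ≤ j - b') (h2 : j + b' ≤ j / σ * σ + σ)
    (hd : j / σ * σ + σ ≤ C ∨ D ≤ j / σ * σ) :
    Blind (Ioo C D) fun ω x => a5 (Q := Q) (wm μ s N Q ω) b0 b b' σ j m x := fun η η' A x h => by
  show a5 (wm μ s N Q (η, A)) b0 b b' σ j m x = a5 (wm μ s N Q (η', A)) b0 b b' σ j m x
  unfold a5
  rw [tI_rows (c := j - b') (d := j + b') (by omega) h A, tI_rows hd h A]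

/-- The rows of one block of length `σ`. -/
def A5 (b0 b b' σ : ℕ) (R : Finset ℕ) (k : ℕ) (m : ℝ) (w : Px Q → ℝ) (x : Px Q) : ℝ :=
  ∑ j ∈ Rw R (k * σ) ((k + 1) * σ), a5 w b0 b b' σ j m x

/-- **The second moment of the sum of the indicators**, one end: from the blocks of length `σ`. -/
theorem y5_pin [SwQ Q] {b0 b b' σ : ℕ} (hσ : 0 < σ) {R : Finset ℕ} (hD : Deep R b' σ) {c d : ℕ} (hc : σ ∣ c) (hd : σ ∣ d) {m X P e : ℝ} (hP : 0 ≤ P)
    (he : 0 ≤ e)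
    (hX : ∀ k ∈ Ico (c / σ) (d / σ), ∫ ω, gm (wm μ s N Q ω) (fun x => A5 b0 b b' σ R k m (wm μ s N Q ω) x ^ 2) ∂(Pm μ N) ≤ X)
    (hS : ∀ k ∈ Ico (c / σ) (d / σ), PrJ μ s N (Ioo (k * σ) ((k + 1) * σ)) (fun ω x => A5 (Q := Q) b0 b b' σ R k m (wm μ s N Q ω) x) P e) :
    ∫ ω, gm (wm μ s N Q ω) (fun x => (∑ j ∈ Rw R c d, a5 (wm μ s N Q ω) b0 b b' σ j m x) ^ 2) ∂(Pm μ N) ≤
      ((d / σ - c / σ : ℕ) : ℝ) * X + (((d / σ - c / σ : ℕ) : ℝ) * P) ^ 2 + ((d / σ - c / σ : ℕ) : ℝ) ^ 2 * ((P + 4 * σ) * e) := by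
  have hσ1 : (0 : ℝ) < σ := by exact_mod_cast hσ
  have hj : ∀ k, ∀ j ∈ Rw R (k * σ) ((k + 1) * σ), j / σ = k := fun k j hj => by
    unfold Rw at hj
    rw [mem_inter, mem_Ico] at hj
    exact Nat.div_eq_of_lt_le hj.2.1 hj.2.2
  have hmeas : ∀ k x, Measurable fun ω => A5 (Q := Q) b0 b b' σ R k m (wm μ s N Q ω) x := fun k x =>
    Finset.measurable_fun_sum _ fun j _ => meas_a5 b0 b b' σ j m x
  have hb : ∀ k ∈ Ico (c / σ) (d / σ), ∀ k' ∈ Ico (c / σ) (d / σ), k ≠ k' →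
      Blind (Ioo (k * σ) ((k + 1) * σ)) fun ω x => A5 (Q := Q) b0 b b' σ R k' m (wm μ s N Q ω) x := fun k _ k' _ hkk => by
    refine Blind.sum fun j hj' => ?_
    have e1 := hj k' j hj'
    obtain ⟨a1, a2⟩ := hD j (mem_inter.1 hj').1
    rw [Nat.succ_mul] at a2
    refine blind_a5 b0 m (by omega) a2 ?_
    rw [e1]
    rcases lt_or_gt_of_ne hkk with h1 | h1
    · right
      exact Nat.mul_le_mul_right σ h1
    · left
      calc k' * σ + σ = (k' + 1) * σ := by ring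
        _ ≤ k * σ := Nat.mul_le_mul_right σ h1
  have hle : ∀ k (w : Px Q → ℝ) x, A5 b0 b b' σ R k m w x ≤ 4 * σ := fun k w x => by
    unfold A5
    refine (sum_le_card_nsmul _ _ 4 fun j _ => a5_le w b0 b b' σ j m x).trans ?_
    rw [nsmul_eq_mul]
    have h1 : (Rw R (k * σ) ((k + 1) * σ)).card ≤ σ := by
      refine (card_le_card inter_subset_right).trans ?_
      rw [Nat.card_Ico, Nat.succ_mul]
      omega
    have h2 : ((Rw R (k * σ) ((k + 1) * σ)).card : ℝ) ≤ σ := by exact_mod_cast h1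
    linarith
  have h := two_level (μ := μ) (s := s) (N := N) (Q := Q) (K := Ico (c / σ) (d / σ))
    (A := fun k ω x => A5 b0 b b' σ R k m (wm μ s N Q ω) x) (J := fun k => Ioo (k * σ) ((k + 1) * σ)) (M := 4 * σ) (X := X) (P := P)
    (e := e) (by positivity) hP he (fun k _ => hmeas k) (fun k _ ω x => sum_nonneg fun j _ => a5_nonneg _ b0 b b' σ j m x)
    (fun k _ ω x => hle k (wm μ s N Q ω) x) hb hX hS
  rw [Nat.card_Ico] at h
  refine le_trans (le_of_eq ?_) h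
  congr 1
  funext ω
  congr 1
  funext x
  congr 1
  exact (sum_rows5 (fun j => a5 (wm μ s N Q ω) b0 b b' σ j m x) hσ R hc hd).symm

end

end Pool.Agent.W_7d29a1_C0.Eta3
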