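import Mathlib

/-!
MP_7d29a1_pr, [CURV0], leaf GS8 (helper4): THE SUMS OVER THE PAIRS OF ROWS. A double sum over the rows of a block of length `L`, majorised by
a function of the distance `|j - k|` of the form `A` (near pairs), `G / E (max |j - k| s)` (one loop of scale between `s` and `s'` over
both rows), `C` (different loops), is at most `L (2 l A + 6 K G s' / E s' + 2 L C)`.
-/

set_option autoImplicit false

namespace Pool.Agent.W_7d29a1_C0.GS4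

open Finset

/-- The rows on one side. -/
theorem side_le {S : Finset ℕ} {L : ℕ} {Φ : ℕ → ℝ} (hΦ : ∀ m, 0 ≤ Φ m) {f : ℕ → ℕ} (hf : Set.InjOn f (S : Set ℕ))
    (hL : ∀ k ∈ S, f k < L) : ∑ k ∈ S, Φ (f k) ≤ ∑ m ∈ range L, Φ m := by
  rw [← sum_image hf]
  refine sum_le_sum_of_subset_of_nonneg (fun m hm => ?_) fun m _ _ => hΦ m
  obtain ⟨k, hk, rfl⟩ := mem_image.1 hm
  exact mem_range.2 (hL k hk)

/-- The rows around one row. -/
theorem row_le {S : Finset ℕ} {c L : ℕ} (hS : ∀ k ∈ S, c ≤ k ∧ k < c + L) {Φ : ℕ → ℝ} (hΦ : ∀ m, 0 ≤ Φ m) {j : ℕ} (hj : c ≤ j)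
    (hj' : j < c + L) : ∑ k ∈ S, Φ (Nat.dist j k) ≤ 2 * ∑ m ∈ range L, Φ m := by
  rw [← sum_filter_add_sum_filter_not S (fun k => k ≤ j), two_mul]
  refine add_le_add ?_ ?_
  · have e : ∀ k ∈ S.filter (fun k => k ≤ j), Φ (Nat.dist j k) = Φ (j - k) := fun k hk => by
      rw [Nat.dist_comm, Nat.dist_eq_sub_of_le (mem_filter.1 hk).2]
    rw [sum_congr rfl e]
    refine side_le hΦ (fun k hk k' hk' h => ?_) fun k hk => ?_
    · have h1 := (mem_filter.1 (mem_coe.1 hk)).2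
      have h2 := (mem_filter.1 (mem_coe.1 hk')).2
      omega
    · have h1 := hS k (mem_filter.1 hk).1
      omega
  · have e : ∀ k ∈ S.filter (fun k => ¬ k ≤ j), Φ (Nat.dist j k) = Φ (k - j) := fun k hk => by
      rw [Nat.dist_eq_sub_of_le (le_of_not_ge (mem_filter.1 hk).2)]
    rw [sum_congr rfl e]
    refine side_le hΦ (fun k hk k' hk' h => ?_) fun k hk => ?_
    · have h1 := (mem_filter.1 (mem_coe.1 hk)).2
      have h2 := (mem_filter.1 (mem_coe.1 hk')).2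
      omega
    · have h1 := hS k (mem_filter.1 hk).1
      omega

/-- **The double sum over the rows of a block of length `L`.** -/
theorem dsum_le {S : Finset ℕ} {c L : ℕ} (hS : ∀ k ∈ S, c ≤ k ∧ k < c + L) {P : ℕ → ℕ → ℝ} {Φ : ℕ → ℝ} (hΦ : ∀ m, 0 ≤ Φ m)
    (h : ∀ j ∈ S, ∀ k ∈ S, P j k ≤ Φ (Nat.dist j k)) :
    ∑ j ∈ S, ∑ k ∈ S, P j k ≤ S.card * (2 * ∑ m ∈ range L, Φ m) := by
  rw [← nsmul_eq_mul]
  refine sum_le_card_nsmul _ _ _ fun j hj => ?_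
  exact (sum_le_sum fun k hk => h j hj k hk).trans (row_le hS hΦ (hS j hj).1 (hS j hj).2)

theorem sum_sqrt_le (n : ℕ) : ∑ m ∈ range (n + 1), 1 / Real.sqrt (max m 1 : ℕ) ≤ 2 * Real.sqrt n + 1 := by
  induction n with
  | zero => simp
  | succ n ih =>
    rw [sum_range_succ]
    have e : max (n + 1) 1 = n + 1 := by omega
    rw [e]
    obtain ⟨a, ha⟩ : ∃ a, a = Real.sqrt n := ⟨_, rfl⟩
    obtain ⟨b, hb⟩ : ∃ b, b = Real.sqrt ((n + 1 : ℕ) : ℝ) := ⟨_, rfl⟩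
    have ha2 : a ^ 2 = n := by rw [ha, Real.sq_sqrt (Nat.cast_nonneg _)]
    have hb2 : b ^ 2 = n + 1 := by
      rw [hb, Real.sq_sqrt (Nat.cast_nonneg _)]
      push_cast
      ring
    have ha0 : 0 ≤ a := ha ▸ Real.sqrt_nonneg _
    have hb0 : 0 < b := hb ▸ Real.sqrt_pos.2 (by positivity)
    have hab : a ≤ b := by
      rw [ha, hb]
      exact Real.sqrt_le_sqrt (by push_cast; linarith)
    rw [← ha] at ih
    rw [← hb]
    have h1 : 1 / b ≤ 2 * (b - a) := by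
      rw [div_le_iff₀ hb0]
      nlinarith
    linarith

/-- **The loops which contain both rows**: `∑ 1 / E (max m s)` over the distances `m < s'`. -/
theorem sum_inv_le {E : ℕ → ℝ} (hE : ∀ n, 0 < E n) {K : ℝ} (hK : 0 ≤ K)
    (hpow : ∀ t r : ℕ, 1 ≤ t → t ≤ r → E r ≤ K * Real.sqrt ((r : ℝ) / t) * E t) {s s' : ℕ} (hs : 1 ≤ s) (hss : s ≤ s') :
    ∑ m ∈ range s', 1 / E (max m s) ≤ 3 * K * (s' / E s') := by
  have hs' : 1 ≤ s' := hs.trans hss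
  have hs'R : (0 : ℝ) < s' := by exact_mod_cast hs'
  have hE' := hE s'
  have h1 : ∀ m ∈ range s', 1 / E (max m s) ≤ K * Real.sqrt s' / E s' * (1 / Real.sqrt (max m 1 : ℕ)) := by
    intro m hm
    rw [mem_range] at hm
    obtain ⟨t, ht⟩ : ∃ t, t = max m s := ⟨_, rfl⟩
    obtain ⟨u, hu⟩ : ∃ u, u = max m 1 := ⟨_, rfl⟩
    rw [← ht, ← hu]
    have hu1 : 1 ≤ u := by omega
    have hut : u ≤ t := by omega
    have hts : t ≤ s' := by omega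
    have hu0 : (0 : ℝ) < u := by exact_mod_cast hu1
    have ht0 : (0 : ℝ) < t := by exact_mod_cast hu1.trans hut
    have h2 := hpow t s' (hu1.trans hut) hts
    have h3 : Real.sqrt ((s' : ℝ) / t) ≤ Real.sqrt s' / Real.sqrt u := by
      rw [← Real.sqrt_div' _ hu0.le]
      exact Real.sqrt_le_sqrt (div_le_div_of_nonneg_left hs'R.le hu0 (by exact_mod_cast hut))
    have hEt := hE t
    have hsu : 0 < Real.sqrt u := Real.sqrt_pos.2 hu0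
    have e : K * Real.sqrt s' / E s' * (1 / Real.sqrt u) = (K * (Real.sqrt s' / Real.sqrt u)) / E s' := by
      field_simp
    rw [e, div_le_div_iff₀ hEt hE', one_mul]
    calc E s' ≤ K * Real.sqrt ((s' : ℝ) / t) * E t := h2
      _ ≤ K * (Real.sqrt s' / Real.sqrt u) * E t :=
        mul_le_mul_of_nonneg_right (mul_le_mul_of_nonneg_left h3 hK) hEt.le
  refine (sum_le_sum h1).trans ?_
  rw [← mul_sum]
  obtain ⟨n, hn⟩ : ∃ n, s' = n + 1 := ⟨s' - 1, by omega⟩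
  have h4 : ∑ m ∈ range s', 1 / Real.sqrt (max m 1 : ℕ) ≤ 3 * Real.sqrt s' := by
    rw [hn]
    refine (sum_sqrt_le n).trans ?_
    have h5 : Real.sqrt n ≤ Real.sqrt ((n + 1 : ℕ) : ℝ) := Real.sqrt_le_sqrt (by push_cast; linarith)
    have h6 : 1 ≤ Real.sqrt ((n + 1 : ℕ) : ℝ) := by
      rw [Real.one_le_sqrt]
      push_cast
      have : (0 : ℝ) ≤ n := Nat.cast_nonneg n
      linarith
    linarith
  have h7 : 0 ≤ K * Real.sqrt s' / E s' := by positivity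
  refine (mul_le_mul_of_nonneg_left h4 h7).trans_eq ?_
  have h8 : Real.sqrt s' * Real.sqrt s' = s' := Real.mul_self_sqrt hs'R.le
  calc K * Real.sqrt s' / E s' * (3 * Real.sqrt s') = 3 * K * (Real.sqrt s' * Real.sqrt s') / E s' := by ring
    _ = 3 * K * (s' / E s') := by
      rw [h8]
      ring

/-- The majorant as a function of the distance: `A` for near rows (`m < l`), `G / E (max m s)` for rows in one loop of scale at most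
`s'`, `H / E (max m s)` for rows in one loop of any scale, `C` for different loops. -/
noncomputable def Phi (E : ℕ → ℝ) (A G H C : ℝ) (l s s' m : ℕ) : ℝ :=
  (if m < l then A else 0) + (if m < s' then G / E (max m s) else 0) + H / E (max m s) + C

theorem Phi_nonneg {E : ℕ → ℝ} (hE : ∀ n, 0 < E n) {A G H C : ℝ} (hA : 0 ≤ A) (hG : 0 ≤ G) (hH : 0 ≤ H) (hC : 0 ≤ C) (l s s' m : ℕ) :
    0 ≤ Phi E A G H C l s s' m := by
  unfold Phi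
  have := hE (max m s)
  split_ifs <;> positivity

theorem sum_Phi_le {E : ℕ → ℝ} (hE : ∀ n, 0 < E n) {K : ℝ} (hK : 0 ≤ K)
    (hpow : ∀ t r : ℕ, 1 ≤ t → t ≤ r → E r ≤ K * Real.sqrt ((r : ℝ) / t) * E t) {A G H C : ℝ} (hA : 0 ≤ A) (hG : 0 ≤ G) (hH : 0 ≤ H)
    {l s s' L : ℕ} (hs : 1 ≤ s) (hss : s ≤ s') (hsL : s ≤ L) :
    ∑ m ∈ range L, Phi E A G H C l s s' m ≤ l * A + 3 * K * G * (s' / E s') + 3 * K * H * (L / E L) + L * C := by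
  unfold Phi
  rw [sum_add_distrib, sum_add_distrib, sum_add_distrib, sum_const, card_range, nsmul_eq_mul]
  have key : ∀ (G : ℝ), 0 ≤ G → ∀ M : ℕ, s ≤ M → ∑ m ∈ range M, G / E (max m s) ≤ 3 * K * G * (M / E M) := by
    intro G hG M hM
    have e : ∀ m ∈ range M, G / E (max m s) = G * (1 / E (max m s)) := fun m _ => by ring
    rw [sum_congr rfl e, ← mul_sum]
    refine (mul_le_mul_of_nonneg_left (sum_inv_le hE hK hpow hs hM) hG).trans_eq ?_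
    ring
  refine add_le_add (add_le_add (add_le_add ?_ ?_) (key H hH L hsL)) le_rfl
  · rw [← sum_filter, sum_const, nsmul_eq_mul]
    refine mul_le_mul_of_nonneg_right ?_ hA
    have h : (range L).filter (fun m => m < l) ⊆ range l := fun m hm => mem_range.2 (mem_filter.1 hm).2
    have := card_le_card h
    rw [card_range] at this
    exact_mod_cast this
  · rw [← sum_filter]
    have h : (range L).filter (fun m => m < s') ⊆ range s' := fun m hm => mem_range.2 (mem_filter.1 hm).2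
    exact (sum_le_sum_of_subset_of_nonneg h fun m _ _ => div_nonneg hG (hE _).le).trans (key G hG s' hss)

/-- **The double sum with the majorant `Phi`.** -/
theorem dsum_Phi {E : ℕ → ℝ} (hE : ∀ n, 0 < E n) {K : ℝ} (hK : 0 ≤ K)
    (hpow : ∀ t r : ℕ, 1 ≤ t → t ≤ r → E r ≤ K * Real.sqrt ((r : ℝ) / t) * E t) {A G H C : ℝ} (hA : 0 ≤ A) (hG : 0 ≤ G) (hH : 0 ≤ H)
    (hC : 0 ≤ C) {l s s' L : ℕ} (hs : 1 ≤ s) (hss : s ≤ s') (hsL : s ≤ L) {S : Finset ℕ} {c : ℕ} (hS : ∀ k ∈ S, c ≤ k ∧ k < c + L)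
    {P : ℕ → ℕ → ℝ} (h : ∀ j ∈ S, ∀ k ∈ S, P j k ≤ Phi E A G H C l s s' (Nat.dist j k)) :
    ∑ j ∈ S, ∑ k ∈ S, P j k ≤ 2 * L * (l * A + 3 * K * G * (s' / E s') + 3 * K * H * (L / E L) + L * C) := by
  refine (dsum_le hS (Phi_nonneg hE hA hG hH hC l s s') h).trans ?_
  have h1 := sum_Phi_le (C := C) (l := l) hE hK hpow hA hG hH hs hss hsL
  have h2 : (0 : ℝ) ≤ ∑ m ∈ range L, Phi E A G H C l s s' m := sum_nonneg fun m _ => Phi_nonneg hE hA hG hH hC l s s' m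
  have h3 : (S.card : ℝ) ≤ L := by
    have h4 : S ⊆ Ico c (c + L) := fun k hk => mem_Ico.2 (hS k hk)
    have h5 := card_le_card h4
    rw [Nat.card_Ico, Nat.add_sub_cancel_left] at h5
    exact_mod_cast h5
  calc (S.card : ℝ) * (2 * ∑ m ∈ range L, Phi E A G H C l s s' m) ≤ L * (2 * ∑ m ∈ range L, Phi E A G H C l s s' m) :=
        mul_le_mul_of_nonneg_right h3 (by positivity)
    _ ≤ L * (2 * (l * A + 3 * K * G * (s' / E s') + 3 * K * H * (L / E L) + L * C)) :=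
        mul_le_mul_of_nonneg_left (mul_le_mul_of_nonneg_left h1 (by norm_num)) (Nat.cast_nonneg _)
    _ = 2 * L * (l * A + 3 * K * G * (s' / E s') + 3 * K * H * (L / E L) + L * C) := by ring

/-! ### The regime of a change of base -/

/-- The numbers of a change of base `b → b'`, `s → s'` at blocks of length `ρ`: `Eb`, `Eb'`, `Es`, `Es'`, `Er` are the values of `E` at
`b`, `b'`, `s`, `s'`, `ρ`; `N ^ c Er ≤ Eb ^ 2`, `Eb ^ 2, Eb' ^ 2 ≤ N ^ c₁ Er`, `Es ~ N ^ (-β) Eb ^ (3 / 2)`. -/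
structure Reg (N Θ ε c c₁ β a b s' ρ Eb Eb' Es Es' Er : ℝ) : Prop where
  N1 : 1 ≤ N
  e0 : 0 ≤ Θ + ε
  b0 : 0 < b
  s0 : 1 ≤ s'
  sN : s' ≤ N
  r0 : 0 < ρ
  Eb1 : 1 ≤ Eb
  Eb'1 : 1 ≤ Eb'
  Es1 : 1 ≤ Es
  Es'1 : 1 ≤ Es'
  Er1 : N ^ a ≤ Er
  lo : N ^ c * Er ≤ Eb ^ 2
  up : Eb ^ 2 ≤ N ^ c₁ * Er
  up' : Eb' ^ 2 ≤ N ^ c₁ * Er
  sg : Eb ^ 3 ≤ N ^ (2 * β) * Es ^ 2
  sg' : N ^ (2 * β) * Es' ^ 2 ≤ 4 * Eb' ^ 3
  kb : b ≤ N ^ (Θ + ε) * Eb ^ 3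
  kr : ρ ≤ N ^ (Θ + ε) * Er ^ 3
  ks : s' ≤ s' ^ (Θ + ε) * Es' ^ 3

section reg

variable {N Θ ε c c₁ β a b s' ρ Eb Eb' Es Es' Er : ℝ}

theorem rpow_nat {N : ℝ} (hN : 1 ≤ N) (x : ℝ) (n : ℕ) : (N ^ x) ^ n = N ^ (n * x) := by
  rw [← Real.rpow_natCast (N ^ x) n, ← Real.rpow_mul (by linarith), mul_comm]

theorem le_of_pow4 {N x : ℝ} (hN : 1 ≤ N) {X k : ℝ} (hk : 0 ≤ k) (h : X ^ 4 ≤ k ^ 4 * N ^ (4 * x)) : X ≤ k * N ^ x := by
  have e : N ^ (4 * x) = (N ^ x) ^ 4 := by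
    rw [rpow_nat hN]
    norm_num
  rw [e, ← mul_pow] at h
  exact le_of_pow_le_pow_left₀ (by norm_num) (mul_nonneg hk (Real.rpow_nonneg (by linarith) _)) h

theorem Reg.Er0 (h : Reg N Θ ε c c₁ β a b s' ρ Eb Eb' Es Es' Er) : 0 < Er :=
  (Real.rpow_pos_of_pos (by linarith [h.N1]) _).trans_le h.Er1

/-- `Eb ^ 6 ≤ N ^ (3 c₁) Er ^ 3`. -/
theorem six_le {N c₁ Eb Er : ℝ} (hN : 1 ≤ N) (h : Eb ^ 2 ≤ N ^ c₁ * Er) : Eb ^ 6 ≤ N ^ (3 * c₁) * Er ^ 3 := by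
  calc Eb ^ 6 = (Eb ^ 2) ^ 3 := by ring
    _ ≤ (N ^ c₁ * Er) ^ 3 := pow_le_pow_left₀ (by positivity) h 3
    _ = N ^ (3 * c₁) * Er ^ 3 := by
      rw [mul_pow, rpow_nat hN]
      norm_num

/-- `N ^ (3 c - 4 β) Er ^ 3 ≤ Es ^ 4`. -/
theorem Reg.four (h : Reg N Θ ε c c₁ β a b s' ρ Eb Eb' Es Es' Er) : N ^ (3 * c - 4 * β) * Er ^ 3 ≤ Es ^ 4 := by
  have hN := h.N1
  have hN0 : 0 < N := by linarith
  have hr := h.Er0
  have hEb0 : 0 < Eb := by linarith [h.Eb1]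
  have hEs0 : 0 < Es := by linarith [h.Es1]
  have hc : 0 < N ^ c := Real.rpow_pos_of_pos hN0 _
  have hb4 : 0 < N ^ (4 * β) := Real.rpow_pos_of_pos hN0 _
  have e1 : N ^ (3 * c) * Er ^ 3 ≤ N ^ (4 * β) * Es ^ 4 := by
    calc N ^ (3 * c) * Er ^ 3 = (N ^ c * Er) ^ 3 := by
          rw [mul_pow, rpow_nat hN]
          norm_num
      _ ≤ (Eb ^ 2) ^ 3 := pow_le_pow_left₀ (by positivity) h.lo 3
      _ = (Eb ^ 3) ^ 2 := by ring
      _ ≤ (N ^ (2 * β) * Es ^ 2) ^ 2 := pow_le_pow_left₀ (by positivity) h.sg 2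
      _ = N ^ (4 * β) * Es ^ 4 := by
          rw [mul_pow, rpow_nat hN]
          have : N ^ (((2 : ℕ) : ℝ) * (2 * β)) = N ^ (4 * β) := by
            congr 1
            push_cast
            ring
          rw [this]
          ring
  have e2 : N ^ (3 * c) = N ^ (4 * β) * N ^ (3 * c - 4 * β) := by
    rw [← Real.rpow_add hN0]
    ring_nf
  rw [e2, mul_assoc] at e1
  exact le_of_mul_le_mul_left e1 hb4

/-- Near pairs. -/
theorem Reg.near (h : Reg N Θ ε c c₁ β a b s' ρ Eb Eb' Es Es' Er) :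
    b / (Es * Er) ≤ N ^ (Θ + ε + β + 3 / 4 * c₁ - a / 4) := by
  have hN := h.N1
  have hN0 : 0 < N := by linarith
  have hr := h.Er0
  have hEs0 : 0 < Es := by linarith [h.Es1]
  have hEb0 : 0 < Eb := by linarith [h.Eb1]
  rw [← one_mul (N ^ _)]
  refine le_of_pow4 hN zero_le_one ?_
  rw [one_pow, one_mul, div_pow, mul_pow, div_le_iff₀ (by positivity)]
  have e1 : b ^ 4 ≤ (N ^ (Θ + ε) * Eb ^ 3) ^ 4 := pow_le_pow_left₀ h.b0.le h.kb 4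
  have e2 : Eb ^ 6 ≤ N ^ (4 * β) * Es ^ 4 := by
    calc Eb ^ 6 = (Eb ^ 3) ^ 2 := by ring
      _ ≤ (N ^ (2 * β) * Es ^ 2) ^ 2 := pow_le_pow_left₀ (by positivity) h.sg 2
      _ = N ^ (4 * β) * Es ^ 4 := by
        rw [mul_pow, rpow_nat hN]
        have : N ^ (((2 : ℕ) : ℝ) * (2 * β)) = N ^ (4 * β) := by
          congr 1
          push_cast
          ring
        rw [this]
        ring
  have e3 := six_le hN h.up
  have e4 : N ^ (4 * (Θ + ε)) * (N ^ (4 * β) * N ^ (3 * c₁)) ≤ N ^ (4 * (Θ + ε + β + 3 / 4 * c₁ - a / 4)) * Er := by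
    calc N ^ (4 * (Θ + ε)) * (N ^ (4 * β) * N ^ (3 * c₁)) = N ^ (4 * (Θ + ε + β + 3 / 4 * c₁ - a / 4)) * N ^ a := by
          rw [← Real.rpow_add hN0, ← Real.rpow_add hN0, ← Real.rpow_add hN0]
          ring_nf
      _ ≤ _ := mul_le_mul_of_nonneg_left h.Er1 (Real.rpow_nonneg hN0.le _)
  have h1 : 0 ≤ N ^ (4 * (Θ + ε)) := Real.rpow_nonneg hN0.le _
  calc b ^ 4 ≤ (N ^ (Θ + ε) * Eb ^ 3) ^ 4 := e1
    _ = N ^ (4 * (Θ + ε)) * (Eb ^ 6 * Eb ^ 6) := by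
      rw [mul_pow, rpow_nat hN]
      push_cast
      ring
    _ ≤ N ^ (4 * (Θ + ε)) * ((N ^ (4 * β) * Es ^ 4) * (N ^ (3 * c₁) * Er ^ 3)) :=
      mul_le_mul_of_nonneg_left (mul_le_mul e2 e3 (by positivity) (by positivity)) h1
    _ = (N ^ (4 * (Θ + ε)) * (N ^ (4 * β) * N ^ (3 * c₁))) * (Es ^ 4 * Er ^ 3) := by ring
    _ ≤ (N ^ (4 * (Θ + ε + β + 3 / 4 * c₁ - a / 4)) * Er) * (Es ^ 4 * Er ^ 3) := mul_le_mul_of_nonneg_right e4 (by positivity)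
    _ = N ^ (4 * (Θ + ε + β + 3 / 4 * c₁ - a / 4)) * (Es ^ 4 * Er ^ 4) := by ring

/-- Different loops, price of one micro branch. -/
theorem Reg.far (h : Reg N Θ ε c c₁ β a b s' ρ Eb Eb' Es Es' Er) : ρ / (Es ^ 2 * Eb * Er) ≤ N ^ (Θ + ε + 2 * β - 2 * c) := by
  have hN := h.N1
  have hN0 : 0 < N := by linarith
  have hr := h.Er0
  have hEb0 : 0 < Eb := by linarith [h.Eb1]
  have hEs0 : 0 < Es := by linarith [h.Es1]
  rw [div_le_iff₀ (by positivity)]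
  have e1 : N ^ (2 * c) * Er ^ 2 ≤ N ^ (2 * β) * (Es ^ 2 * Eb) := by
    calc N ^ (2 * c) * Er ^ 2 = (N ^ c * Er) ^ 2 := by
          rw [mul_pow, rpow_nat hN]
          norm_num
      _ ≤ (Eb ^ 2) ^ 2 := pow_le_pow_left₀ (mul_nonneg (Real.rpow_nonneg hN0.le _) hr.le) h.lo 2
      _ = Eb ^ 3 * Eb := by ring
      _ ≤ (N ^ (2 * β) * Es ^ 2) * Eb := mul_le_mul_of_nonneg_right h.sg hEb0.le
      _ = N ^ (2 * β) * (Es ^ 2 * Eb) := by ring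
  calc ρ ≤ N ^ (Θ + ε) * Er ^ 3 := h.kr
    _ = N ^ (Θ + ε - 2 * c) * (N ^ (2 * c) * Er ^ 2 * Er) := by
      rw [show N ^ (Θ + ε) = N ^ (Θ + ε - 2 * c) * N ^ (2 * c) by
        rw [← Real.rpow_add hN0]
        ring_nf]
      ring
    _ ≤ N ^ (Θ + ε - 2 * c) * (N ^ (2 * β) * (Es ^ 2 * Eb) * Er) :=
      mul_le_mul_of_nonneg_left (mul_le_mul_of_nonneg_right e1 hr.le) (Real.rpow_nonneg hN0.le _)
    _ = N ^ (Θ + ε + 2 * β - 2 * c) * (Es ^ 2 * Eb * Er) := by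
      rw [show N ^ (Θ + ε + 2 * β - 2 * c) = N ^ (Θ + ε - 2 * c) * N ^ (2 * β) by
        rw [← Real.rpow_add hN0]
        ring_nf]
      ring

/-- `Es' ^ 4 ≤ 16 N ^ (3 c₁ - 4 β) Er ^ 3`. -/
theorem Reg.four' (h : Reg N Θ ε c c₁ β a b s' ρ Eb Eb' Es Es' Er) : Es' ^ 4 ≤ 16 * (N ^ (3 * c₁ - 4 * β) * Er ^ 3) := by
  have hN := h.N1
  have hN0 : 0 < N := by linarith
  have hr := h.Er0
  have hEb'0 : 0 < Eb' := by linarith [h.Eb'1]
  have hEs'0 : 0 < Es' := by linarith [h.Es'1]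
  have hb4 : 0 < N ^ (4 * β) := Real.rpow_pos_of_pos hN0 _
  have e1 : N ^ (4 * β) * Es' ^ 4 ≤ 16 * (N ^ (3 * c₁) * Er ^ 3) := by
    calc N ^ (4 * β) * Es' ^ 4 = (N ^ (2 * β) * Es' ^ 2) ^ 2 := by
          rw [mul_pow, rpow_nat hN]
          have : N ^ (((2 : ℕ) : ℝ) * (2 * β)) = N ^ (4 * β) := by
            congr 1
            push_cast
            ring
          rw [this]
          ring
      _ ≤ (4 * Eb' ^ 3) ^ 2 := pow_le_pow_left₀ (mul_nonneg (Real.rpow_nonneg hN0.le _) (by positivity)) h.sg' 2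
      _ = 16 * Eb' ^ 6 := by ring
      _ ≤ 16 * (N ^ (3 * c₁) * Er ^ 3) := mul_le_mul_of_nonneg_left (six_le hN h.up') (by norm_num)
  have e2 : N ^ (3 * c₁) = N ^ (4 * β) * N ^ (3 * c₁ - 4 * β) := by
    rw [← Real.rpow_add hN0]
    ring_nf
  have e3 : N ^ (4 * β) * Es' ^ 4 ≤ N ^ (4 * β) * (16 * (N ^ (3 * c₁ - 4 * β) * Er ^ 3)) := by
    refine e1.trans_eq ?_
    rw [e2]
    ring
  exact le_of_mul_le_mul_left e3 hb4

theorem Reg.ksN (h : Reg N Θ ε c c₁ β a b s' ρ Eb Eb' Es Es' Er) : s' ≤ N ^ (Θ + ε) * Es' ^ 3 := by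
  have hs0 : 0 < s' := by linarith [h.s0]
  have hEs'0 : 0 < Es' := by linarith [h.Es'1]
  exact h.ks.trans (mul_le_mul_of_nonneg_right (Real.rpow_le_rpow hs0.le h.sN h.e0) (by positivity))

/-- One loop over both rows, price of one micro branch. -/
theorem Reg.same (h : Reg N Θ ε c c₁ β a b s' ρ Eb Eb' Es Es' Er) :
    s' / (Es' * Eb * Er) ≤ 4 * N ^ (Θ + ε - 2 * β + 3 / 2 * c₁ - c / 2) := by
  have hN := h.N1
  have hN0 : 0 < N := by linarith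
  have hr := h.Er0
  have hEs0 : 0 < Es' := by linarith [h.Es'1]
  have hEb0 : 0 < Eb := by linarith [h.Eb1]
  rw [div_le_iff₀ (by positivity)]
  -- `Es' ^ 2 ≤ 4 N ^ x Er Eb`
  have e1 : Es' ^ 2 ≤ 4 * N ^ (-(2 * β) + 3 / 2 * c₁ - c / 2) * (Er * Eb) := by
    refine le_of_pow_le_pow_left₀ (n := 2) (by norm_num) (by positivity) ?_
    calc (Es' ^ 2) ^ 2 = Es' ^ 4 := by ring
      _ ≤ 16 * (N ^ (3 * c₁ - 4 * β) * Er ^ 3) := h.four'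
      _ = 16 * (N ^ (3 * c₁ - 4 * β - c) * (Er ^ 2 * (N ^ c * Er))) := by
        rw [show N ^ (3 * c₁ - 4 * β) = N ^ (3 * c₁ - 4 * β - c) * N ^ c by
          rw [← Real.rpow_add hN0]
          ring_nf]
        ring
      _ ≤ 16 * (N ^ (3 * c₁ - 4 * β - c) * (Er ^ 2 * Eb ^ 2)) := by
        refine mul_le_mul_of_nonneg_left (mul_le_mul_of_nonneg_left ?_ (Real.rpow_nonneg hN0.le _)) (by norm_num)
        exact mul_le_mul_of_nonneg_left h.lo (by positivity)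
      _ = (4 * N ^ (-(2 * β) + 3 / 2 * c₁ - c / 2) * (Er * Eb)) ^ 2 := by
        rw [mul_pow, mul_pow, rpow_nat hN]
        have : N ^ (((2 : ℕ) : ℝ) * (-(2 * β) + 3 / 2 * c₁ - c / 2)) = N ^ (3 * c₁ - 4 * β - c) := by
          congr 1
          push_cast
          ring
        rw [this]
        ring
  calc s' ≤ N ^ (Θ + ε) * Es' ^ 3 := h.ksN
    _ = N ^ (Θ + ε) * (Es' * Es' ^ 2) := by ring
    _ ≤ N ^ (Θ + ε) * (Es' * (4 * N ^ (-(2 * β) + 3 / 2 * c₁ - c / 2) * (Er * Eb))) :=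
      mul_le_mul_of_nonneg_left (mul_le_mul_of_nonneg_left e1 hEs0.le) (Real.rpow_nonneg hN0.le _)
    _ = 4 * N ^ (Θ + ε - 2 * β + 3 / 2 * c₁ - c / 2) * (Es' * Eb * Er) := by
      rw [show N ^ (Θ + ε - 2 * β + 3 / 2 * c₁ - c / 2) = N ^ (Θ + ε) * N ^ (-(2 * β) + 3 / 2 * c₁ - c / 2) by
        rw [← Real.rpow_add hN0]
        ring_nf]
      ring

/-- One loop over both rows and a loop of the scale `s` at one row. -/
theorem Reg.third (h : Reg N Θ ε c c₁ β a b s' ρ Eb Eb' Es Es' Er) :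
    s' / (Es' * Es * Er) ≤ 4 * N ^ (Θ + ε - β + 3 / 2 * c₁ - 3 / 4 * c - a / 4) := by
  have hN := h.N1
  have hN0 : 0 < N := by linarith
  have hr := h.Er0
  have hs0 : 0 < s' := by linarith [h.s0]
  have hEs0 : 0 < Es := by linarith [h.Es1]
  have hEs'0 : 0 < Es' := by linarith [h.Es'1]
  refine le_of_pow4 hN (by norm_num) ?_
  rw [div_pow, div_le_iff₀ (by positivity)]
  have e1 : s' ^ 4 ≤ N ^ (4 * (Θ + ε)) * Es' ^ 12 := by
    calc s' ^ 4 ≤ (N ^ (Θ + ε) * Es' ^ 3) ^ 4 := pow_le_pow_left₀ hs0.le h.ksN 4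
      _ = N ^ (4 * (Θ + ε)) * Es' ^ 12 := by
        rw [mul_pow, rpow_nat hN]
        push_cast
        ring
  have e2 : Es' ^ 8 ≤ 256 * (N ^ (6 * c₁ - 8 * β) * Er ^ 6) := by
    calc Es' ^ 8 = (Es' ^ 4) ^ 2 := by ring
      _ ≤ (16 * (N ^ (3 * c₁ - 4 * β) * Er ^ 3)) ^ 2 := pow_le_pow_left₀ (by positivity) h.four' 2
      _ = 256 * ((N ^ (3 * c₁ - 4 * β)) ^ 2 * Er ^ 6) := by ring
      _ = 256 * (N ^ (6 * c₁ - 8 * β) * Er ^ 6) := by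
        rw [rpow_nat hN]
        congr 3
        push_cast
        ring
  have e3 := h.four
  have e4 : N ^ (4 * (Θ + ε)) * N ^ (6 * c₁ - 8 * β) ≤
      N ^ (4 * (Θ + ε - β + 3 / 2 * c₁ - 3 / 4 * c - a / 4)) * N ^ (3 * c - 4 * β) * Er := by
    calc N ^ (4 * (Θ + ε)) * N ^ (6 * c₁ - 8 * β) =
          N ^ (4 * (Θ + ε - β + 3 / 2 * c₁ - 3 / 4 * c - a / 4)) * N ^ (3 * c - 4 * β) * N ^ a := by
          rw [← Real.rpow_add hN0, ← Real.rpow_add hN0, ← Real.rpow_add hN0]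
          ring_nf
      _ ≤ _ := mul_le_mul_of_nonneg_left h.Er1 (by positivity)
  have p1 : 0 ≤ N ^ (4 * (Θ + ε)) := Real.rpow_nonneg hN0.le _
  calc s' ^ 4 ≤ N ^ (4 * (Θ + ε)) * Es' ^ 12 := e1
    _ = N ^ (4 * (Θ + ε)) * (Es' ^ 4 * Es' ^ 8) := by ring
    _ ≤ N ^ (4 * (Θ + ε)) * (Es' ^ 4 * (256 * (N ^ (6 * c₁ - 8 * β) * Er ^ 6))) :=
      mul_le_mul_of_nonneg_left (mul_le_mul_of_nonneg_left e2 (by positivity)) p1
    _ = 256 * ((N ^ (4 * (Θ + ε)) * N ^ (6 * c₁ - 8 * β)) * (Es' ^ 4 * Er ^ 6)) := by ring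
    _ ≤ 256 * ((N ^ (4 * (Θ + ε - β + 3 / 2 * c₁ - 3 / 4 * c - a / 4)) * N ^ (3 * c - 4 * β) * Er) * (Es' ^ 4 * Er ^ 6)) :=
      mul_le_mul_of_nonneg_left (mul_le_mul_of_nonneg_right e4 (by positivity)) (by norm_num)
    _ = 256 * N ^ (4 * (Θ + ε - β + 3 / 2 * c₁ - 3 / 4 * c - a / 4)) * (Es' ^ 4 * Er ^ 4) * (N ^ (3 * c - 4 * β) * Er ^ 3) := by ring
    _ ≤ 256 * N ^ (4 * (Θ + ε - β + 3 / 2 * c₁ - 3 / 4 * c - a / 4)) * (Es' ^ 4 * Er ^ 4) * Es ^ 4 :=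
      mul_le_mul_of_nonneg_left e3 (by positivity)
    _ = 4 ^ 4 * N ^ (4 * (Θ + ε - β + 3 / 2 * c₁ - 3 / 4 * c - a / 4)) * (Es' * Es * Er) ^ 4 := by ring

/-- A loop of any scale over both rows, two loops of the scale `s`. -/
theorem Reg.two (h : Reg N Θ ε c c₁ β a b s' ρ Eb Eb' Es Es' Er) :
    ρ / (Es ^ 2 * Er ^ 2) ≤ N ^ (Θ + ε + 2 * β - 3 / 2 * c - a / 2) := by
  have hN := h.N1
  have hN0 : 0 < N := by linarith
  have hr := h.Er0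
  have hEs0 : 0 < Es := by linarith [h.Es1]
  rw [div_le_iff₀ (by positivity)]
  have e1 : N ^ (-(2 * β) + 3 / 2 * c + a / 2) * Er ≤ Es ^ 2 := by
    refine le_of_pow_le_pow_left₀ (n := 2) (by norm_num) (by positivity) ?_
    calc (N ^ (-(2 * β) + 3 / 2 * c + a / 2) * Er) ^ 2 = N ^ (3 * c - 4 * β) * Er ^ 2 * N ^ a := by
          rw [mul_pow, rpow_nat hN]
          have : N ^ (((2 : ℕ) : ℝ) * (-(2 * β) + 3 / 2 * c + a / 2)) = N ^ (3 * c - 4 * β) * N ^ a := by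
            rw [← Real.rpow_add hN0]
            congr 1
            push_cast
            ring
          rw [this]
          ring
      _ ≤ N ^ (3 * c - 4 * β) * Er ^ 2 * Er := mul_le_mul_of_nonneg_left h.Er1 (by positivity)
      _ = N ^ (3 * c - 4 * β) * Er ^ 3 := by ring
      _ ≤ Es ^ 4 := h.four
      _ = (Es ^ 2) ^ 2 := by ring
  calc ρ ≤ N ^ (Θ + ε) * Er ^ 3 := h.kr
    _ = N ^ (Θ + ε + 2 * β - 3 / 2 * c - a / 2) * (N ^ (-(2 * β) + 3 / 2 * c + a / 2) * Er * Er ^ 2) := by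
      rw [show N ^ (Θ + ε) = N ^ (Θ + ε + 2 * β - 3 / 2 * c - a / 2) * N ^ (-(2 * β) + 3 / 2 * c + a / 2) by
        rw [← Real.rpow_add hN0]
        ring_nf]
      ring
    _ ≤ N ^ (Θ + ε + 2 * β - 3 / 2 * c - a / 2) * (Es ^ 2 * Er ^ 2) :=
      mul_le_mul_of_nonneg_left (mul_le_mul_of_nonneg_right e1 (by positivity)) (Real.rpow_nonneg hN0.le _)

/-- **All the sums of the change of `s`, divided by the outer tie `Er`.** -/
theorem Reg.total (h : Reg N Θ ε c c₁ β a b s' ρ Eb Eb' Es Es' Er) {K ε₁ c' : ℝ} (hK : 0 ≤ K)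
    (h1 : ε₁ + ε + β + 3 / 4 * c₁ - a / 4 ≤ -(2 * c')) (h2 : ε₁ + ε - 2 * β + 3 / 2 * c₁ - c / 2 ≤ -(2 * c'))
    (h3 : ε₁ + ε - β + 3 / 2 * c₁ - 3 / 4 * c - a / 4 ≤ -(2 * c')) (h4 : ε₁ + ε + 2 * β - 3 / 2 * c - a / 2 ≤ -(2 * c'))
    (h5 : ε₁ + ε + 2 * β - 2 * c ≤ -(2 * c')) (hk : 18 + 54 * K ≤ N ^ c') :
    2 * (8 * b * (N ^ ε₁ / Es) + 3 * K * (N ^ ε₁ * (1 / Eb + 1 / Es)) * (s' / Es') + 3 * K * (N ^ ε₁ / Es ^ 2) * (ρ / Er) +
      ρ * (N ^ ε₁ / (Es ^ 2 * Eb))) ≤ Er * N ^ (Θ - c') := by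
  have hN := h.N1
  have hN0 : 0 < N := by linarith
  have hr := h.Er0
  have hEb0 : 0 < Eb := by linarith [h.Eb1]
  have hEs0 : 0 < Es := by linarith [h.Es1]
  have hEs'0 : 0 < Es' := by linarith [h.Es'1]
  have hp : 0 < N ^ ε₁ := Real.rpow_pos_of_pos hN0 _
  obtain ⟨T, hT⟩ : ∃ T, T = N ^ (Θ - 2 * c') := ⟨_, rfl⟩
  have hT0 : 0 < T := hT ▸ Real.rpow_pos_of_pos hN0 _
  have up : ∀ x : ℝ, ε₁ + x ≤ Θ - 2 * c' → N ^ ε₁ * N ^ x ≤ T := fun x hx => by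
    rw [hT, ← Real.rpow_add hN0]
    exact Real.rpow_le_rpow_of_exponent_le hN hx
  have t1 : N ^ ε₁ * (b / (Es * Er)) ≤ T :=
    (mul_le_mul_of_nonneg_left h.near hp.le).trans (up _ (by linarith))
  have t2 : N ^ ε₁ * (s' / (Es' * Eb * Er)) ≤ 4 * T := by
    refine (mul_le_mul_of_nonneg_left h.same hp.le).trans ?_
    have e1 := up (Θ + ε - 2 * β + 3 / 2 * c₁ - c / 2) (by linarith)
    linarith
  have t3 : N ^ ε₁ * (s' / (Es' * Es * Er)) ≤ 4 * T := by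
    refine (mul_le_mul_of_nonneg_left h.third hp.le).trans ?_
    have e1 := up (Θ + ε - β + 3 / 2 * c₁ - 3 / 4 * c - a / 4) (by linarith)
    linarith
  have t4 : N ^ ε₁ * (ρ / (Es ^ 2 * Er ^ 2)) ≤ T :=
    (mul_le_mul_of_nonneg_left h.two hp.le).trans (up _ (by linarith))
  have t5 : N ^ ε₁ * (ρ / (Es ^ 2 * Eb * Er)) ≤ T :=
    (mul_le_mul_of_nonneg_left h.far hp.le).trans (up _ (by linarith))
  have e : 2 * (8 * b * (N ^ ε₁ / Es) + 3 * K * (N ^ ε₁ * (1 / Eb + 1 / Es)) * (s' / Es') + 3 * K * (N ^ ε₁ / Es ^ 2) * (ρ / Er) +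
      ρ * (N ^ ε₁ / (Es ^ 2 * Eb))) = Er * (16 * (N ^ ε₁ * (b / (Es * Er))) + 6 * K * (N ^ ε₁ * (s' / (Es' * Eb * Er))) +
        6 * K * (N ^ ε₁ * (s' / (Es' * Es * Er))) + 6 * K * (N ^ ε₁ * (ρ / (Es ^ 2 * Er ^ 2))) +
        2 * (N ^ ε₁ * (ρ / (Es ^ 2 * Eb * Er)))) := by
    field_simp
    ring
  rw [e]
  refine mul_le_mul_of_nonneg_left ?_ hr.le
  have eT : N ^ (Θ - c') = N ^ c' * T := by
    rw [hT, ← Real.rpow_add hN0]
    ring_nf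
  rw [eT]
  have f2 := mul_le_mul_of_nonneg_left t2 (show 0 ≤ 6 * K by positivity)
  have f3 := mul_le_mul_of_nonneg_left t3 (show 0 ≤ 6 * K by positivity)
  have f4 := mul_le_mul_of_nonneg_left t4 (show 0 ≤ 6 * K by positivity)
  have f6 := mul_le_mul_of_nonneg_right hk hT0.le
  linarith

end reg

/-- **GS8: the sum over all pairs of rows of the block of length `ρ`** from the pair bounds `Phi` (near pairs `N ^ ε₁ / Es`, one loop of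
scale at most `s'` over both rows `N ^ ε₁ (1 / Eb + 1 / Es) / E (max m s)`, a loop of any scale over both rows and two loops of the scale `s`
`N ^ ε₁ / (Es ^ 2 E (max m s))`, different loops `N ^ ε₁ / (Es ^ 2 Eb)`). -/
theorem gs8 {E : ℕ → ℝ} (hE : ∀ n, 0 < E n) {N Θ ε c c₁ β a K : ℝ} (hK : 0 ≤ K) {b s s' ρ : ℕ} {Eb' : ℝ}
    (hpow : ∀ t r : ℕ, 1 ≤ t → t ≤ r → E r ≤ K * Real.sqrt ((r : ℝ) / t) * E t)
    (h : Reg N Θ ε c c₁ β a b s' ρ (E b) Eb' (E s) (E s') (E ρ)) (hs : 1 ≤ s) (hss : s ≤ s') (hsr : s' ≤ ρ) {ε₁ c' : ℝ}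
    (h1 : ε₁ + ε + β + 3 / 4 * c₁ - a / 4 ≤ -(2 * c')) (h2 : ε₁ + ε - 2 * β + 3 / 2 * c₁ - c / 2 ≤ -(2 * c'))
    (h3 : ε₁ + ε - β + 3 / 2 * c₁ - 3 / 4 * c - a / 4 ≤ -(2 * c')) (h4 : ε₁ + ε + 2 * β - 3 / 2 * c - a / 2 ≤ -(2 * c'))
    (h5 : ε₁ + ε + 2 * β - 2 * c ≤ -(2 * c')) (hk : 18 + 54 * K ≤ N ^ c')
    {S : Finset ℕ} {c₀ : ℕ} (hS : ∀ k ∈ S, c₀ ≤ k ∧ k < c₀ + ρ) {P : ℕ → ℕ → ℝ}
    (hP : ∀ j ∈ S, ∀ k ∈ S, P j k ≤ Phi E (N ^ ε₁ / E s) (N ^ ε₁ * (1 / E b + 1 / E s)) (N ^ ε₁ / E s ^ 2) (N ^ ε₁ / (E s ^ 2 * E b))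
      (8 * b) s s' (Nat.dist j k)) :
    ∑ j ∈ S, ∑ k ∈ S, P j k ≤ ρ * (E ρ * N ^ (Θ - c')) := by
  have hN0 : 0 < N := by linarith [h.N1]
  have hp : 0 < N ^ ε₁ := Real.rpow_pos_of_pos hN0 _
  have hb := hE b
  have hs0 := hE s
  refine (dsum_Phi hE hK hpow (by positivity) (by positivity) (by positivity) (by positivity) hs hss (hss.trans hsr) hS hP).trans ?_
  have h6 := h.total hK h1 h2 h3 h4 h5 hk
  have h7 := mul_le_mul_of_nonneg_left h6 (Nat.cast_nonneg ρ : (0 : ℝ) ≤ ρ)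
  refine le_trans (le_of_eq ?_) h7
  push_cast
  ring

/-- Closing the Cauchy-Schwarz form: `x ≤ A + u √x + v √x`. -/
theorem close_cs {x A u v : ℝ} (hx : 0 ≤ x) (h : x ≤ A + u * Real.sqrt x + v * Real.sqrt x) :
    x ≤ 2 * A + 2 * u ^ 2 + 2 * v ^ 2 := by
  obtain ⟨y, hy⟩ : ∃ y, y = Real.sqrt x := ⟨_, rfl⟩
  have h2 : y ^ 2 = x := by rw [hy, Real.sq_sqrt hx]
  rw [← hy] at h
  nlinarith [sq_nonneg (y / 2 - u), sq_nonneg (y / 2 - v), sq_nonneg (y - 2 * u - 2 * v), sq_nonneg (u - v)]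

/-- The exponents of erratum 2 (helper64, helper18): `c₁ = 5 c / 4`, `β = 3 c / 4`, `15 c ≤ a`, `c' = c / 32`, `ε₁ + ε ≤ c / 32`. -/
theorem exps {c a ε ε₁ : ℝ} (hc : 0 ≤ c) (ha : 15 * c ≤ a) (he : ε₁ + ε ≤ c / 32) :
    ε₁ + ε + 3 / 4 * c + 3 / 4 * (5 / 4 * c) - a / 4 ≤ -(2 * (c / 32)) ∧
    ε₁ + ε - 2 * (3 / 4 * c) + 3 / 2 * (5 / 4 * c) - c / 2 ≤ -(2 * (c / 32)) ∧
    ε₁ + ε - 3 / 4 * c + 3 / 2 * (5 / 4 * c) - 3 / 4 * c - a / 4 ≤ -(2 * (c / 32)) ∧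
    ε₁ + ε + 2 * (3 / 4 * c) - 3 / 2 * c - a / 2 ≤ -(2 * (c / 32)) ∧
    ε₁ + ε + 2 * (3 / 4 * c) - 2 * c ≤ -(2 * (c / 32)) := by
  refine ⟨?_, ?_, ?_, ?_, ?_⟩ <;> linarith

end Pool.Agent.W_7d29a1_C0.GS4
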