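import Pool.Agent.W_7d29a1_C0.Led4
import Pool.Agent.W_7d29a1_C0.GSsum4

/-!
MP_7d29a1_pr, [CURV0] (helper4): THE LEDGER, second part (lines GS and E5 of proofs row 689: the change of the base `(b, s, r) → (b', s', ρ)`,
`b' ≤ N ^ (Θ - c) b`, and the double sums over the pairs of rows `|j - k| < ρ`), over `Num46`, `Led4` and `GSsum4`.
-/

set_option autoImplicit false
set_option linter.unusedSimpArgs false

namespace Pool.Agent.W_7d29a1_C0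

open Finset

variable {E w : ℕ → ℝ} {c₀ Θ δ a ε N c C η : ℝ} {b b₀ b' l r s s' t u ρ n : ℕ}

/-! ### The change of the base -/

namespace Ch46

theorem lA (H : Ch46 E δ c Θ N b s b' s' ρ) (R : Reg46 E w c₀ Θ δ a ε N) :
    5 / 16 * c + 2 * Real.logb N (E s') ≤ Real.logb N (E ρ) + Real.logb N (E b) + ε / 2 := by
  linarith [H.h'.ls2 R, H.h'.lup R, H.h.lpin R]

theorem lB (H : Ch46 E δ c Θ N b s b' s' ρ) (R : Reg46 E w c₀ Θ δ a ε N) :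
    c / 2 + 2 * Real.logb N (E ρ) ≤ Real.logb N (E b) + 2 * Real.logb N (E s) := by
  linarith [H.h.ls1 R, H.h.lpin R]

/-- GS.5: near pairs. -/
theorem gs_5 (H : Ch46 E δ c Θ N b s b' s' ρ) (R : Reg46 E w c₀ Θ δ a ε N) :
    (b : ℝ) / (E s * E ρ) ≤ N ^ (Θ + ε - 2 * c) := by
  obtain ⟨hN, h1, h2, h3, h4, h5, h6, h7, h8, h9⟩ := H.h.ps R
  refine le_pow46 R.N1 (by positivity) ?_
  simp (disch := positivity) only [Real.sqrt_eq_rpow, Real.logb_mul, Real.logb_div, Real.logb_pow, Real.logb_inv,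
    Real.logb_rpow_eq_mul_logb_of_pos, Real.logb_one, Nat.cast_ofNat]
  linarith [R.lkap' H.h.hb, H.h.lup R, H.h.ls1 R, (H.h.l8 R).2, H.h.c0]

/-- GS.1: one inner loop of the scale `t ≤ s'` over both rows, one tie at the base (or the gain). -/
theorem gs_1 (H : Ch46 E δ c Θ N b s b' s' ρ) (R : Reg46 E w c₀ Θ δ a ε N) (ht : 1 ≤ t) (hts : t ≤ s') :
    (t : ℝ) / (E t * E b * E ρ) ≤ N ^ (Θ + 3 * ε - 5 / 16 * c) := by
  obtain ⟨hN, h1, h2, h3, h4, h5, h6, h7, h8, h9⟩ := H.h.ps R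
  have hE' := R.Epos t
  have ht' : (0 : ℝ) < t := by exact_mod_cast ht
  refine le_pow46 R.N1 (by positivity) ?_
  simp (disch := positivity) only [Real.sqrt_eq_rpow, Real.logb_mul, Real.logb_div, Real.logb_pow, Real.logb_inv,
    Real.logb_rpow_eq_mul_logb_of_pos, Real.logb_one, Nat.cast_ofNat]
  linarith [R.lkap' H.h'.hs, H.lA R, R.lhalf ht hts, R.lxmono ht hts, R.ε0]

/-- One inner loop of the scale `t ≤ s'` over both rows, one loop of the scale `s` at one row. -/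
theorem gs_third (H : Ch46 E δ c Θ N b s b' s' ρ) (R : Reg46 E w c₀ Θ δ a ε N) (ht : 1 ≤ t) (hts : t ≤ s') :
    (t : ℝ) / (E t * E s * E ρ) ≤ N ^ (Θ + 3 * ε - 7 * c) := by
  obtain ⟨hN, h1, h2, h3, h4, h5, h6, h7, h8, h9⟩ := H.h.ps R
  have hE' := R.Epos t
  have ht' : (0 : ℝ) < t := by exact_mod_cast ht
  refine le_pow46 R.N1 (by positivity) ?_
  simp (disch := positivity) only [Real.sqrt_eq_rpow, Real.logb_mul, Real.logb_div, Real.logb_pow, Real.logb_inv,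
    Real.logb_rpow_eq_mul_logb_of_pos, Real.logb_one, Nat.cast_ofNat]
  linarith [R.lkap' H.h'.hs, H.lA R, R.lhalf ht hts, R.lxmono ht hts, H.h.ls1 R, (H.h.l8 R).1, H.h.c0, R.ε0]

/-- GS.8: one inner loop of the scale `t ≤ s'` over both rows, closings. -/
theorem gs_8 (H : Ch46 E δ c Θ N b s b' s' ρ) (R : Reg46 E w c₀ Θ δ a ε N) (ht : 1 ≤ t) (hts : t ≤ s') :
    ((b : ℝ) / s) ^ 2 * (t / (E t * E ρ)) ≤ N ^ (Θ + 7 * ε - 13 * c) := by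
  obtain ⟨hN, h1, h2, h3, h4, h5, h6, h7, h8, h9⟩ := H.h.ps R
  have hE' := R.Epos t
  have ht' : (0 : ℝ) < t := by exact_mod_cast ht
  refine le_pow46 R.N1 (by positivity) ?_
  simp (disch := positivity) only [Real.sqrt_eq_rpow, Real.logb_mul, Real.logb_div, Real.logb_pow, Real.logb_inv,
    Real.logb_rpow_eq_mul_logb_of_pos, Real.logb_one, Nat.cast_ofNat]
  linarith [R.lkap' H.h'.hs, H.lA R, R.lhalf ht hts, R.lxmono ht hts, H.h.lbs R, (H.h.l8 R).1, H.h.c0, R.ε0]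

/-- GS.7: two inner loops, one loop of the scale `t ≤ ρ` over both rows. -/
theorem gs_7 (H : Ch46 E δ c Θ N b s b' s' ρ) (R : Reg46 E w c₀ Θ δ a ε N) (ht : 1 ≤ t) (htρ : t ≤ ρ) :
    (t : ℝ) / (E t * E s ^ 2 * E ρ) ≤ N ^ (Θ + 2 * ε - 7 * c) := by
  obtain ⟨hN, h1, h2, h3, h4, h5, h6, h7, h8, h9⟩ := H.h.ps R
  have hE' := R.Epos t
  have ht' : (0 : ℝ) < t := by exact_mod_cast ht
  refine le_pow46 R.N1 (by positivity) ?_
  simp (disch := positivity) only [Real.sqrt_eq_rpow, Real.logb_mul, Real.logb_div, Real.logb_pow, Real.logb_inv,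
    Real.logb_rpow_eq_mul_logb_of_pos, Real.logb_one, Nat.cast_ofNat]
  linarith [R.lkap' H.h.hr, H.lB R, R.lhalf ht htρ, R.lxmono ht htρ, H.h.lup R, (H.h.l8 R).2, H.h.c0]

/-- GS.2: two inner loops and one tie at the base (or the gain). -/
theorem gs_2 (H : Ch46 E δ c Θ N b s b' s' ρ) (R : Reg46 E w c₀ Θ δ a ε N) :
    (ρ : ℝ) / (E s ^ 2 * E b * E ρ) ≤ N ^ (Θ + ε - c / 2) := by
  obtain ⟨hN, h1, h2, h3, h4, h5, h6, h7, h8, h9⟩ := H.h.ps R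
  refine le_pow46 R.N1 (by positivity) ?_
  simp (disch := positivity) only [Real.sqrt_eq_rpow, Real.logb_mul, Real.logb_div, Real.logb_pow, Real.logb_inv,
    Real.logb_rpow_eq_mul_logb_of_pos, Real.logb_one, Nat.cast_ofNat]
  linarith [R.lkap' H.h.hr, H.lB R]

/-- E5.1: near pairs. -/
theorem e5_1 (H : Ch46 E δ c Θ N b s b' s' ρ) (R : Reg46 E w c₀ Θ δ a ε N) :
    (b' : ℝ) / (E b * E ρ) ≤ N ^ (Θ - 15 / 16 * c) := by
  obtain ⟨hN, h1, h2, h3, h4, h5, h6, h7, h8, h9⟩ := H.h.ps R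
  have hb' := H.h'.hb.pos R.N1
  refine le_pow46 R.N1 (by positivity) ?_
  simp (disch := positivity) only [Real.sqrt_eq_rpow, Real.logb_mul, Real.logb_div, Real.logb_pow, Real.logb_inv,
    Real.logb_rpow_eq_mul_logb_of_pos, Real.logb_one, Nat.cast_ofNat]
  linarith [H.ltie R, H.h'.lup R, H.h.lpin R]

/-- E5.3: one loop of the scale `t ≤ s'` over both rows, two ties at the base. -/
theorem e5_3 (H : Ch46 E δ c Θ N b s b' s' ρ) (R : Reg46 E w c₀ Θ δ a ε N) (ht : 1 ≤ t) (hts : t ≤ s') :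
    (t : ℝ) / (E t * E b ^ 2 * E ρ) ≤ N ^ (Θ + 3 * ε - 16 * c) := by
  obtain ⟨hN, h1, h2, h3, h4, h5, h6, h7, h8, h9⟩ := H.h.ps R
  have hE' := R.Epos t
  have ht' : (0 : ℝ) < t := by exact_mod_cast ht
  refine le_pow46 R.N1 (by positivity) ?_
  simp (disch := positivity) only [Real.sqrt_eq_rpow, Real.logb_mul, Real.logb_div, Real.logb_pow, Real.logb_inv,
    Real.logb_rpow_eq_mul_logb_of_pos, Real.logb_one, Nat.cast_ofNat]
  linarith [R.lkap' H.h'.hs, H.lA R, R.lhalf ht hts, R.lxmono ht hts, (H.h.l8 R).1, H.h.c0, R.ε0]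

/-- E5.5: one loop of the scale `t ≤ ρ` over both rows, two ties at the base. -/
theorem e5_5 (H : Ch46 E δ c Θ N b s b' s' ρ) (R : Reg46 E w c₀ Θ δ a ε N) (ht : 1 ≤ t) (htρ : t ≤ ρ) :
    (t : ℝ) / (E t * E b ^ 2 * E ρ) ≤ N ^ (Θ + 2 * ε - c) := by
  obtain ⟨hN, h1, h2, h3, h4, h5, h6, h7, h8, h9⟩ := H.h.ps R
  have hE' := R.Epos t
  have ht' : (0 : ℝ) < t := by exact_mod_cast ht
  refine le_pow46 R.N1 (by positivity) ?_
  simp (disch := positivity) only [Real.sqrt_eq_rpow, Real.logb_mul, Real.logb_div, Real.logb_pow, Real.logb_inv,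
    Real.logb_rpow_eq_mul_logb_of_pos, Real.logb_one, Nat.cast_ofNat]
  linarith [R.lkap' H.h.hr, H.h.lpin R, R.lhalf ht htρ, R.lxmono ht htρ]

/-- E5.4, E5.6: four ties. -/
theorem e5_6 (H : Ch46 E δ c Θ N b s b' s' ρ) (R : Reg46 E w c₀ Θ δ a ε N) (hb₀ : 1 ≤ b₀) (hb : b₀ ≤ b) (hC : (b : ℝ) ≤ N ^ C * b₀) :
    (ρ : ℝ) / (E b ^ 2 * E b₀ ^ 2 * E ρ) ≤ N ^ (Θ + C + 3 * ε - 2 * c) := by
  obtain ⟨hN, h1, h2, h3, h4, h5, h6, h7, h8, h9⟩ := H.h.ps R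
  have hE'' := R.Epos b₀
  refine le_pow46 R.N1 (by positivity) ?_
  simp (disch := positivity) only [Real.sqrt_eq_rpow, Real.logb_mul, Real.logb_div, Real.logb_pow, Real.logb_inv,
    Real.logb_rpow_eq_mul_logb_of_pos, Real.logb_one, Nat.cast_ofNat]
  linarith [R.lkap' H.h.hr, H.h.lpin R, lb0 R hb₀ hb hC]

end Ch46

/-! ### The double sums over the pairs of rows -/

/-- **The double sum** over the rows `S` of a block of length `L`, majorised by `GS4.Phi` of the distance (`A` near pairs `|j - k| < l`;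
`G / E (max |j - k| s₁)` one loop of the scale at most `s₂` over both rows; `H / E (max |j - k| s₁)` one loop of any scale over both rows;
`D` different loops). -/
theorem Reg46.dsum (R : Reg46 E w c₀ Θ δ a ε N) {A G H D : ℝ} (hA : 0 ≤ A) (hG : 0 ≤ G) (hH : 0 ≤ H) (hD : 0 ≤ D)
    {l s₁ s₂ L : ℕ} (hs : 1 ≤ s₁) (hss : s₁ ≤ s₂) (hsL : s₁ ≤ L) {S : Finset ℕ} {c₁ : ℕ} (hS : ∀ k ∈ S, c₁ ≤ k ∧ k < c₁ + L)
    {P : ℕ → ℕ → ℝ} (h : ∀ j ∈ S, ∀ k ∈ S, P j k ≤ GS4.Phi E A G H D l s₁ s₂ (Nat.dist j k)) :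
    ∑ j ∈ S, ∑ k ∈ S, P j k ≤ N ^ (2 * ε) * (L * (l * A + G * (s₂ / E s₂) + H * (L / E L) + L * D)) := by
  have hN := R.N0
  have hK := R.K
  have hE := R.Epos s₂
  have hE' := R.Epos L
  obtain ⟨K, hKd⟩ : ∃ K, K = N ^ ε := ⟨_, rfl⟩
  have e2 : N ^ (2 * ε) = K * K := by
    rw [hKd, ← Real.rpow_add hN]
    ring_nf
  rw [← hKd] at hK
  have h1 := GS4.dsum_Phi R.Epos (K := K) (by linarith) (fun t r ht htr => by
    rw [hKd]
    exact R.half t r ht htr) hA hG hH hD (l := l) hs hss hsL hS h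
  refine h1.trans ?_
  rw [e2]
  have p1 : 0 ≤ (l : ℝ) * A := by positivity
  have p2 : 0 ≤ G * (s₂ / E s₂) := by positivity
  have p3 : 0 ≤ H * (L / E L) := by positivity
  have p4 : 0 ≤ (L : ℝ) * D := by positivity
  have q1 : 2 * (l * A) ≤ K * K * (l * A) := mul_le_mul_of_nonneg_right (by nlinarith) p1
  have q2 : 2 * (3 * K * G * (s₂ / E s₂)) ≤ K * K * (G * (s₂ / E s₂)) := by nlinarith [mul_nonneg p2 (show (0 : ℝ) ≤ K by linarith)]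
  have q3 : 2 * (3 * K * H * (L / E L)) ≤ K * K * (H * (L / E L)) := by nlinarith [mul_nonneg p3 (show (0 : ℝ) ≤ K by linarith)]
  have q4 : 2 * (L * D) ≤ K * K * (L * D) := mul_le_mul_of_nonneg_right (by nlinarith) p4
  have hL : (0 : ℝ) ≤ L := Nat.cast_nonneg _
  calc 2 * (L : ℝ) * (l * A + 3 * K * G * (s₂ / E s₂) + 3 * K * H * (L / E L) + L * D) =
        L * (2 * (l * A) + 2 * (3 * K * G * (s₂ / E s₂)) + 2 * (3 * K * H * (L / E L)) + 2 * (L * D)) := by ring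
    _ ≤ L * (K * K * (l * A) + K * K * (G * (s₂ / E s₂)) + K * K * (H * (L / E L)) + K * K * (L * D)) :=
        mul_le_mul_of_nonneg_left (by linarith) hL
    _ = _ := by ring

/-- **The double sum from the four lines of the ledger.** -/
theorem Reg46.dsum_le (R : Reg46 E w c₀ Θ δ a ε N) {A G H D X : ℝ} (hA : 0 ≤ A) (hG : 0 ≤ G) (hH : 0 ≤ H) (hD : 0 ≤ D)
    {l s₁ s₂ L : ℕ} (hs : 1 ≤ s₁) (hss : s₁ ≤ s₂) (hsL : s₁ ≤ L) {S : Finset ℕ} {c₁ : ℕ} (hS : ∀ k ∈ S, c₁ ≤ k ∧ k < c₁ + L)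
    {P : ℕ → ℕ → ℝ} (h : ∀ j ∈ S, ∀ k ∈ S, P j k ≤ GS4.Phi E A G H D l s₁ s₂ (Nat.dist j k))
    (h1 : l * A ≤ X) (h2 : G * (s₂ / E s₂) ≤ X) (h3 : H * (L / E L) ≤ X) (h4 : L * D ≤ X) :
    ∑ j ∈ S, ∑ k ∈ S, P j k ≤ N ^ (3 * ε) * (L * X) := by
  have hN := R.N0
  have hX : 0 ≤ X := (mul_nonneg (Nat.cast_nonneg _) hA).trans h1
  refine (R.dsum hA hG hH hD hs hss hsL hS h).trans ?_
  have e3 : N ^ (3 * ε) = N ^ (2 * ε) * N ^ ε := by
    rw [← Real.rpow_add hN]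
    ring_nf
  rw [e3, mul_assoc]
  refine mul_le_mul_of_nonneg_left ?_ (Real.rpow_nonneg hN.le _)
  calc (L : ℝ) * (l * A + G * (s₂ / E s₂) + H * (L / E L) + L * D) ≤ L * (4 * X) :=
        mul_le_mul_of_nonneg_left (by linarith) (Nat.cast_nonneg _)
    _ ≤ L * (N ^ ε * X) := mul_le_mul_of_nonneg_left (mul_le_mul_of_nonneg_right (by linarith [R.K]) hX) (Nat.cast_nonneg _)
    _ = N ^ ε * (L * X) := by ring

/-- From a line of the ledger (divided by `E_ρ`) to a hypothesis of `dsum_le`. -/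
theorem mul_of_div4 {x e y : ℝ} (he : 0 < e) (h : x / e ≤ y) : x ≤ e * y := by
  rw [div_le_iff₀ he] at h
  linarith

theorem Reg46.mono4 (R : Reg46 E w c₀ Θ δ a ε N) {x y : ℝ} (h : x ≤ y) : N ^ x ≤ N ^ y :=
  Real.rpow_le_rpow_of_exponent_le R.N1.le h

/-- **GS8 over the regime**: the pair sums of GS. `P j k` without the outer tie; the outer tie `1 / E_ρ` is on the other side. -/
theorem Ch46.gs_sum (H : Ch46 E δ c Θ N b s b' s' ρ) (R : Reg46 E w c₀ Θ δ a ε N) {ε₁ : ℝ} {S : Finset ℕ} {c₁ : ℕ}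
    (hss : s ≤ s') (hS : ∀ k ∈ S, c₁ ≤ k ∧ k < c₁ + ρ) {P : ℕ → ℕ → ℝ}
    (hP : ∀ j ∈ S, ∀ k ∈ S, P j k ≤ GS4.Phi E (N ^ ε₁ / E s) (N ^ ε₁ * (1 / E b + 1 / E s)) (N ^ ε₁ / E s ^ 2)
      (N ^ ε₁ / (E s ^ 2 * E b)) (8 * b) s s' (Nat.dist j k)) :
    ∑ j ∈ S, ∑ k ∈ S, P j k ≤ ρ * (E ρ * N ^ (Θ + 7 * ε + ε₁ - 5 / 16 * c)) := by
  obtain ⟨hN, h1, h2, h3, h4, h5, h6, h7, h8, h9⟩ := H.h.ps R
  have hs1 := H.h.hs.npos R.N1
  have hs1' := H.h'.hs.npos R.N1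
  have hE' := R.Epos s'
  have hc := H.h.c0
  have hε := R.ε0
  have hp : 0 < N ^ ε₁ := Real.rpow_pos_of_pos hN _
  obtain ⟨X, hX⟩ : ∃ X, X = N ^ (Θ + 3 * ε - 5 / 16 * c) := ⟨_, rfl⟩
  have hX0 : 0 < X := by rw [hX]; exact Real.rpow_pos_of_pos hN _
  have m1 : (b : ℝ) / E s ≤ E ρ * X := mul_of_div4 h3 (by
    rw [div_div]
    exact (H.gs_5 R).trans ((R.mono4 (by linarith)).trans hX.ge))
  have m2 : (s' : ℝ) / (E s' * E b) ≤ E ρ * X := mul_of_div4 h3 (by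
    rw [div_div]
    exact (H.gs_1 R hs1' le_rfl).trans ((R.mono4 (by linarith)).trans hX.ge))
  have m3 : (s' : ℝ) / (E s' * E s) ≤ E ρ * X := mul_of_div4 h3 (by
    rw [div_div]
    exact (H.gs_third R hs1' le_rfl).trans ((R.mono4 (by linarith)).trans hX.ge))
  have m4 : (ρ : ℝ) / (E ρ * E s ^ 2) ≤ E ρ * X := mul_of_div4 h3 (by
    rw [div_div]
    exact (H.gs_7 R (H.h.hr.npos R.N1) le_rfl).trans ((R.mono4 (by linarith)).trans hX.ge))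
  have m5 : (ρ : ℝ) / (E s ^ 2 * E b) ≤ E ρ * X := mul_of_div4 h3 (by
    rw [div_div]
    exact (H.gs_2 R).trans ((R.mono4 (by linarith)).trans hX.ge))
  have key := R.dsum_le (X := N ^ ε₁ * (8 * (E ρ * X))) (by positivity) (by positivity) (by positivity) (by positivity)
    hs1 hss H.h.sr hS hP ?_ ?_ ?_ ?_
  · refine key.trans ?_
    have e1 : N ^ (Θ + 7 * ε + ε₁ - 5 / 16 * c) = N ^ (3 * ε) * N ^ ε₁ * N ^ ε * X := by
      rw [hX, ← Real.rpow_add hN, ← Real.rpow_add hN, ← Real.rpow_add hN]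
      ring_nf
    rw [e1]
    have e2 : N ^ (3 * ε) * (ρ * (N ^ ε₁ * (8 * (E ρ * X)))) = (ρ * E ρ * X * (N ^ (3 * ε) * N ^ ε₁)) * 8 := by ring
    have e3 : ρ * (E ρ * (N ^ (3 * ε) * N ^ ε₁ * N ^ ε * X)) = (ρ * E ρ * X * (N ^ (3 * ε) * N ^ ε₁)) * N ^ ε := by ring
    rw [e2, e3]
    exact mul_le_mul_of_nonneg_left (by linarith [R.K]) (by positivity)
  · push_cast
    calc 8 * (b : ℝ) * (N ^ ε₁ / E s) = N ^ ε₁ * (8 * (b / E s)) := by ring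
      _ ≤ _ := mul_le_mul_of_nonneg_left (by linarith) hp.le
  · calc N ^ ε₁ * (1 / E b + 1 / E s) * (s' / E s') = N ^ ε₁ * (s' / (E s' * E b) + s' / (E s' * E s)) := by
          field_simp
      _ ≤ _ := mul_le_mul_of_nonneg_left (by nlinarith [mul_pos h3 hX0]) hp.le
  · calc N ^ ε₁ / E s ^ 2 * (ρ / E ρ) = N ^ ε₁ * (ρ / (E ρ * E s ^ 2)) := by field_simp
      _ ≤ _ := mul_le_mul_of_nonneg_left (by nlinarith [mul_pos h3 hX0]) hp.le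
  · calc (ρ : ℝ) * (N ^ ε₁ / (E s ^ 2 * E b)) = N ^ ε₁ * (ρ / (E s ^ 2 * E b)) := by ring
      _ ≤ _ := mul_le_mul_of_nonneg_left (by nlinarith [mul_pos h3 hX0]) hp.le

/-- **The pair sums of E5** (near pairs `|j - k| < 2 b'` at the price of ONE tie; one loop over both rows and a tie at each row; four
ties). -/
theorem Ch46.e5_sum (H : Ch46 E δ c Θ N b s b' s' ρ) (R : Reg46 E w c₀ Θ δ a ε N) {ε₁ : ℝ} {S : Finset ℕ} {c₁ : ℕ}
    (hb₀ : 1 ≤ b₀) (hb : b₀ ≤ b) (hC0 : 0 ≤ C) (hC : (b : ℝ) ≤ N ^ C * b₀) (hS : ∀ k ∈ S, c₁ ≤ k ∧ k < c₁ + ρ) {P : ℕ → ℕ → ℝ}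
    (hP : ∀ j ∈ S, ∀ k ∈ S, P j k ≤ GS4.Phi E (N ^ ε₁ / E b) 0 (N ^ ε₁ / E b ^ 2) (N ^ ε₁ / (E b ^ 2 * E b₀ ^ 2))
      (2 * b') b' b' (Nat.dist j k)) :
    ∑ j ∈ S, ∑ k ∈ S, P j k ≤ ρ * (E ρ * N ^ (Θ + C + 7 * ε + ε₁ - 15 / 16 * c)) := by
  obtain ⟨hN, h1, h2, h3, h4, h5, h6, h7, h8, h9⟩ := H.h.ps R
  have hb1 := H.h'.hb.npos R.N1
  have hE' := R.Epos b₀
  have hc := H.h.c0
  have hε := R.ε0
  have hp : 0 < N ^ ε₁ := Real.rpow_pos_of_pos hN _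
  obtain ⟨X, hX⟩ : ∃ X, X = N ^ (Θ + C + 3 * ε - 15 / 16 * c) := ⟨_, rfl⟩
  have hX0 : 0 < X := by rw [hX]; exact Real.rpow_pos_of_pos hN _
  have m1 : (b' : ℝ) / E b ≤ E ρ * X := mul_of_div4 h3 (by
    rw [div_div]
    exact (H.e5_1 R).trans ((R.mono4 (by linarith)).trans hX.ge))
  have m4 : (ρ : ℝ) / (E ρ * E b ^ 2) ≤ E ρ * X := mul_of_div4 h3 (by
    rw [div_div]
    exact (H.e5_5 R (H.h.hr.npos R.N1) le_rfl).trans ((R.mono4 (by linarith)).trans hX.ge))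
  have m5 : (ρ : ℝ) / (E b ^ 2 * E b₀ ^ 2) ≤ E ρ * X := mul_of_div4 h3 (by
    rw [div_div]
    exact (H.e5_6 R hb₀ hb hC).trans ((R.mono4 (by linarith)).trans hX.ge))
  have key := R.dsum_le (X := N ^ ε₁ * (8 * (E ρ * X))) (by positivity) le_rfl (by positivity) (by positivity)
    hb1 le_rfl (H.h'.bs.trans H.h'.sr) hS hP ?_ ?_ ?_ ?_
  · refine key.trans ?_
    have e1 : N ^ (Θ + C + 7 * ε + ε₁ - 15 / 16 * c) = N ^ (3 * ε) * N ^ ε₁ * N ^ ε * X := by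
      rw [hX, ← Real.rpow_add hN, ← Real.rpow_add hN, ← Real.rpow_add hN]
      ring_nf
    rw [e1]
    have e2 : N ^ (3 * ε) * (ρ * (N ^ ε₁ * (8 * (E ρ * X)))) = (ρ * E ρ * X * (N ^ (3 * ε) * N ^ ε₁)) * 8 := by ring
    have e3 : ρ * (E ρ * (N ^ (3 * ε) * N ^ ε₁ * N ^ ε * X)) = (ρ * E ρ * X * (N ^ (3 * ε) * N ^ ε₁)) * N ^ ε := by ring
    rw [e2, e3]
    exact mul_le_mul_of_nonneg_left (by linarith [R.K]) (by positivity)
  · push_cast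
    calc 2 * (b' : ℝ) * (N ^ ε₁ / E b) = N ^ ε₁ * (2 * (b' / E b)) := by ring
      _ ≤ _ := mul_le_mul_of_nonneg_left (by nlinarith [mul_pos h3 hX0]) hp.le
  · rw [zero_mul]
    positivity
  · calc N ^ ε₁ / E b ^ 2 * (ρ / E ρ) = N ^ ε₁ * (ρ / (E ρ * E b ^ 2)) := by field_simp
      _ ≤ _ := mul_le_mul_of_nonneg_left (by nlinarith [mul_pos h3 hX0]) hp.le
  · calc (ρ : ℝ) * (N ^ ε₁ / (E b ^ 2 * E b₀ ^ 2)) = N ^ ε₁ * (ρ / (E b ^ 2 * E b₀ ^ 2)) := by ring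
      _ ≤ _ := mul_le_mul_of_nonneg_left (by nlinarith [mul_pos h3 hX0]) hp.le

end Pool.Agent.W_7d29a1_C0
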