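import Pool.Agent.W_7d29a1_C0.Eta3C
import Pool.Agent.W_7d29a1_C0.BasFr33
import Pool.Agent.W_7d29a1_C0.Led4B

/-!
MP_7d29a1_pr, [CURV0], leaf E5.6 (helper3), part 4: THE LITERAL TARGET `RB` of `BasT33` FROM TWO INPUTS. `XI3`: the second moment of the
indicators of one block of length `σ` (pair sum). `SI3`: the price of these indicators against the weights which are blind to the rows of the
block (site). `rb_of3`: at a fixed length. `rb33`: at the concrete frame.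
-/

set_option autoImplicit false
set_option linter.unusedSectionVars false

namespace Pool.Agent.W_7d29a1_C0.Eta3

open Finset MeasureTheory Filter Topology Pool.Agent.W_7d29a1_F Pool.Agent.W_7d29a1_X Pool.Agent.W_7d29a1_H
open Pool.Agent.W_7d29a1_C0.Mod92
open Pool.W7d29a1.C0
open Pool.W7d29a1.C0.VT31 Pool.W7d29a1.C0.S1 Pool.W7d29a1.C0.R43
open Pool.Agent.W_7d29a1_C0 Pool.Agent.W_7d29a1_C0.Swap57 Pool.Agent.W_7d29a1_C0.E4T32 Pool.Agent.W_7d29a1_C0.Base5 Pool.Agent.W_7d29a1_C0.BasRow33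
open Pool.Agent.W_7d29a1_C0.Row96 Pool.Agent.W_7d29a1_C0.Asm96
open Pool.Agent.W_7d29a1_C0.Frm33 (tend_n ev_n n_ge1)

noncomputable section

/-- The same base window twice: no second part. -/
theorem R5e_same {μ : Measure ℝ} {s : ℝ} {N : ℕ} {Q : Finset (Finset ℕ)} [Nonempty (Px Q)] (δ B : ℝ) (b0 b σ : ℕ) (ω : Env × Finset ℕ)
    (j : ℕ) : R5e μ s N Q δ B b0 b b σ ω j = 0 := by
  have e : Eg (wm μ s N Q ω) (pW b j) (ge5 μ s N Q δ B b0 b ω j) (ge5 μ s N Q δ B b0 b ω j) = 0 := by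
    unfold Eg
    rw [cE_of_meas _ (mp_ge5 δ B b0 b ω j), sub_self]
  unfold R5e Rg
  rw [e]
  unfold cV cC
  simp only [mul_zero, cE_zero, sub_self, smul_zero, add_zero]

variable (μ : Measure ℝ) (s : ℝ) (F : Frm96) (E : ℕ → ℝ) (Θ δ c η : ℝ)

/-- **Input 1 (pair sum)**: the second moment of the indicators of one block of length `σ`. -/
def XI3 (ε M : ℝ) (m : ℕ) : Prop := ∀ p p' q k : ℕ, Chg96 E Θ δ c η m p p' q → p < p' →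
  (k + 1) * 2 ^ sg96 E c m p' ≤ 2 ^ m → ∀ y ∈ F.ys m,
    ∫ ω, gm (wm μ s (F.L m) (Pn (F.L m) y) ω) (fun x => A5 (F.b0 m p) (2 ^ p) (2 ^ p') (2 ^ sg96 E c m p') (F.R m) k M
      (wm μ s (F.L m) (Pn (F.L m) y) ω) x ^ 2) ∂(Pm μ (F.L m)) ≤
    ((2 ^ m : ℕ) : ℝ) ^ ε * (2 ^ sg96 E c m p' * (2 ^ p' / E (2 ^ p)) + (2 ^ sg96 E c m p') ^ 2 / (E (2 ^ p) * E (2 ^ p')) ^ 2 +
      (2 ^ sg96 E c m p') ^ 2 / (E (2 ^ sg96 E c m p') * E (2 ^ p) ^ 2)) + ((2 ^ m : ℕ) : ℝ) ^ (-8 : ℝ)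

/-- **Input 2 (site)**: the price of the indicators of one block of length `σ` against the weights blind to the rows of the block. -/
def SI3 (ε M : ℝ) (m : ℕ) : Prop := ∀ p p' q k : ℕ, Chg96 E Θ δ c η m p p' q → p < p' →
  (k + 1) * 2 ^ sg96 E c m p' ≤ 2 ^ m → ∀ y ∈ F.ys m,
    PrJ μ s (F.L m) (Ioo (k * 2 ^ sg96 E c m p') ((k + 1) * 2 ^ sg96 E c m p'))
      (fun ω x => A5 (Q := Pn (F.L m) y) (F.b0 m p) (2 ^ p) (2 ^ p') (2 ^ sg96 E c m p') (F.R m) k M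
        (wm μ s (F.L m) (Pn (F.L m) y) ω) x)
      (((2 ^ m : ℕ) : ℝ) ^ ε * (2 ^ sg96 E c m p' / (E (2 ^ p) * E (2 ^ p')))) (((2 ^ m : ℕ) : ℝ) ^ (-8 : ℝ))

variable {μ s F E Θ δ c η}

/-- The numbers. -/
theorem num3 {w : ℕ → ℝ} {c₀ a ε ε₁ N : ℝ} {b b₁ σ σ' ρ : ℕ} (R : Reg46 E w c₀ Θ δ a ε N) (H : Ch46 E δ c Θ N b σ' b₁ σ ρ)
    (hε : 3 * ε ≤ c) (hε₁ : 0 ≤ ε₁) :
    N ^ ε₁ * (ρ * (b₁ / E b) + ρ * σ / (E b * E b₁) ^ 2 + ρ * σ / (E σ * E b ^ 2)) + (N ^ ε₁ * (ρ / (E b * E b₁))) ^ 2 ≤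
      4 * N ^ (2 * ε₁) * (ρ * (E ρ * N ^ (Θ - 15 / 16 * c))) := by
  have hN := R.N0
  have hN1 := R.N1
  have hEb := R.Epos b
  have hEb₁ := R.Epos b₁
  have hEσ := R.Epos σ
  have hEρ := R.Epos ρ
  have hc := H.h.c0
  have hρ : (0 : ℝ) ≤ ρ := Nat.cast_nonneg _
  obtain ⟨X, hX⟩ : ∃ X, X = E ρ * N ^ (Θ - 15 / 16 * c) := ⟨_, rfl⟩
  have hX0 : 0 ≤ X := by
    rw [hX]
    positivity
  have hmono : ∀ {x y : ℝ}, x ≤ y → N ^ x ≤ N ^ y := fun h => Real.rpow_le_rpow_of_exponent_le hN1.le h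
  have y1 : (b₁ : ℝ) / E b ≤ X := by
    have h := H.e5_1 R
    rw [← div_div, div_le_iff₀ hEρ] at h
    rw [hX]
    linarith
  have y2 : (σ : ℝ) / (E σ * E b ^ 2) ≤ X := by
    have h := (H.e5_3 R (t := σ) (by
      have := H.h'.hs.pos R.N1
      exact_mod_cast this) le_rfl).trans (hmono (show Θ + 3 * ε - 16 * c ≤ Θ - 15 / 16 * c by linarith))
    rw [← div_div, div_le_iff₀ hEρ] at h
    rw [hX]
    linarith
  have y3 : (ρ : ℝ) / (E b * E b₁) ^ 2 ≤ X := by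
    have h := (H.e5_6 R (b₀ := b) (C := 0) (by
      have := H.h.hb.pos R.N1
      exact_mod_cast this) le_rfl (by rw [Real.rpow_zero, one_mul])).trans
        (hmono (show Θ + 0 + 3 * ε - 2 * c ≤ Θ - 15 / 16 * c by linarith))
    rw [← div_div, div_le_iff₀ hEρ] at h
    have h1 : (ρ : ℝ) / (E b * E b₁) ^ 2 ≤ ρ / (E b ^ 2 * E b ^ 2) := by
      refine div_le_div_of_nonneg_left hρ (by positivity) ?_
      rw [mul_pow]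
      exact mul_le_mul_of_nonneg_left (pow_le_pow_left₀ hEb.le (R.mono H.bb) 2) (by positivity)
    rw [hX]
    linarith
  have y4 : (σ : ℝ) / (E b * E b₁) ^ 2 ≤ X := by
    refine le_trans ?_ y3
    have : (σ : ℝ) ≤ ρ := by exact_mod_cast H.h'.sr
    gcongr
  have e1 : (ρ : ℝ) * σ / (E b * E b₁) ^ 2 = ρ * (σ / (E b * E b₁) ^ 2) := by ring
  have e2 : (ρ : ℝ) * σ / (E σ * E b ^ 2) = ρ * (σ / (E σ * E b ^ 2)) := by ring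
  have e3 : (N ^ ε₁ * (ρ / (E b * E b₁))) ^ 2 = N ^ (2 * ε₁) * (ρ * (ρ / (E b * E b₁) ^ 2)) := by
    have : N ^ (2 * ε₁) = (N ^ ε₁) ^ 2 := by
      rw [← Real.rpow_natCast, ← Real.rpow_mul hN.le]
      congr 1
      push_cast
      ring
    rw [this]
    ring
  have h2 : N ^ ε₁ ≤ N ^ (2 * ε₁) := hmono (by linarith)
  have h3 : 0 ≤ N ^ ε₁ := by positivity
  rw [e1, e2, e3, ← hX]
  have z1 : (ρ : ℝ) * (b₁ / E b) + ρ * (σ / (E b * E b₁) ^ 2) + ρ * (σ / (E σ * E b ^ 2)) ≤ 3 * (ρ * X) := by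
    have a1 := mul_le_mul_of_nonneg_left y1 hρ
    have a2 := mul_le_mul_of_nonneg_left y2 hρ
    have a4 := mul_le_mul_of_nonneg_left y4 hρ
    linarith
  have z2 : N ^ ε₁ * ((ρ : ℝ) * (b₁ / E b) + ρ * (σ / (E b * E b₁) ^ 2) + ρ * (σ / (E σ * E b ^ 2))) ≤ N ^ (2 * ε₁) * (3 * (ρ * X)) :=
    (mul_le_mul_of_nonneg_left z1 h3).trans (mul_le_mul_of_nonneg_right h2 (by positivity))
  have z3 : N ^ (2 * ε₁) * (ρ * (ρ / (E b * E b₁) ^ 2)) ≤ N ^ (2 * ε₁) * (ρ * X) :=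
    mul_le_mul_of_nonneg_left (mul_le_mul_of_nonneg_left y3 hρ) (by positivity)
  linarith

/-- The mean over the ends of bounded quantities. -/
theorem avy_le3 {ys : Finset ℕ} {Φ : ℕ → ℝ} {Y : ℝ} (hY : 0 ≤ Y) (h : ∀ y ∈ ys, Φ y ≤ Y) : avy ys Φ ≤ Y := by
  refine (avy_mono h).trans ?_
  unfold avy
  rw [sum_const, nsmul_eq_mul, ← mul_assoc]
  rcases Nat.eq_zero_or_pos ys.card with h | h
  · rw [h]
    simp [hY]
  · rw [inv_mul_cancel₀ (by positivity), one_mul]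

/-- The error terms of the blocks. -/
theorem err3 {n B nb σ P : ℝ} (hn : 8 ≤ n) (hB : B ^ 4 ≤ n) (h1 : 0 ≤ nb) (h1' : nb ≤ n) (h2 : 0 ≤ σ) (h2' : σ ≤ n)
    (h3 : 0 ≤ P) (h3' : P ≤ n ^ 2) :
    8 * B ^ 4 * (nb * n ^ (-8 : ℝ) + nb ^ 2 * ((P + 4 * σ) * n ^ (-8 : ℝ))) ≤ 1 / 4 := by
  have hn0 : 0 < n := by linarith
  have e8 : n ^ (-8 : ℝ) = (n ^ 8)⁻¹ := by
    rw [Real.rpow_neg hn0.le]
    norm_num
  have a1 : nb + nb ^ 2 * (P + 4 * σ) ≤ 6 * n ^ 4 := by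
    have b1 : nb ^ 2 ≤ n ^ 2 := pow_le_pow_left₀ h1 h1' 2
    have b2 : P + 4 * σ ≤ 5 * n ^ 2 := by nlinarith
    have b3 : nb ^ 2 * (P + 4 * σ) ≤ n ^ 2 * (5 * n ^ 2) := mul_le_mul b1 b2 (by positivity) (by positivity)
    have b4 : n ≤ n ^ 4 := by
      calc n = n * 1 := (mul_one n).symm
        _ ≤ n * n ^ 3 := mul_le_mul_of_nonneg_left (one_le_pow₀ (by linarith)) hn0.le
        _ = n ^ 4 := by ring
    nlinarith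
  calc 8 * B ^ 4 * (nb * n ^ (-8 : ℝ) + nb ^ 2 * ((P + 4 * σ) * n ^ (-8 : ℝ))) = 8 * B ^ 4 * ((nb + nb ^ 2 * (P + 4 * σ)) * (n ^ 8)⁻¹) := by
        rw [e8]
        ring
    _ ≤ 8 * n * ((6 * n ^ 4) * (n ^ 8)⁻¹) :=
        mul_le_mul (by linarith) (mul_le_mul_of_nonneg_right a1 (by positivity)) (by positivity) (by positivity)
    _ = 48 * (n ^ 3)⁻¹ := by
        field_simp
        norm_num
    _ ≤ 48 * ((8 : ℝ) ^ 3)⁻¹ := by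
        refine mul_le_mul_of_nonneg_left ?_ (by norm_num)
        exact inv_anti₀ (by norm_num) (pow_le_pow_left₀ (by norm_num) hn 3)
    _ ≤ 1 / 4 := by norm_num

/-- **`RB` FROM THE TWO INPUTS**, at a fixed length. -/
theorem rb_of3 [IsProbabilityMeasure μ] {w : ℕ → ℝ} {c₀ a ε ε₁ M : ℝ} {m : ℕ} (R : Reg46 E w c₀ Θ δ a ε ((2 ^ m : ℕ) : ℝ)) (hc : 0 < c)
    (hcδ : 64 * c ≤ δ) (hcΘ : c ≤ Θ) (hΘ : Θ ≤ 1) (hη : 0 ≤ η) (hε : 3 * ε ≤ c) (hε₁ : 0 ≤ ε₁) (hε₁' : ε₁ ≤ 1) (hn : 8 ≤ ((2 ^ m : ℕ) : ℝ))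
    (hF : F.Ok Θ m) (hB : 2 ≤ F.B m) (hD : DeepB F E δ c m) (hb0 : ∀ p, F.b0 m p ≤ 2 ^ p) (hM : 0 ≤ M)
    (hty : ∀ r : ℕ, r ≤ 2 ^ m → ty5 (F.L m) r (F.B m) M ≤ 1 / 4)
    (hnum : 64 * F.B m ^ 4 * ((2 ^ m : ℕ) : ℝ) ^ (2 * ε₁) ≤ ((2 ^ m : ℕ) : ℝ) ^ (29 / 32 * c))
    (hXI : XI3 μ s F E Θ δ c η ε₁ M m) (hSI : SI3 μ s F E Θ δ c η ε₁ M m) : RB μ s F E Θ δ c η m := by
  intro p p' q i hC hi
  obtain ⟨hsq', hqm⟩ := chg_le33 hC hc.le hη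
  have hN0 := R.N0
  have hN1 := R.N1
  have hEq := R.Epos (2 ^ q)
  have hE1 := R.E1 (2 ^ q)
  have hA0 : 0 ≤ A33 E Θ c m q := by
    unfold A33
    positivity
  rcases eq_or_lt_of_le hC.hpp with hpp | hpp
  · subst hpp
    unfold S33
    have e : ∀ (y : ℕ) [Nonempty (Px (Pn (F.L m) y))] (ω : Env × Finset ℕ) (j : ℕ) (S : Px (Pn (F.L m) y)), sr ω.2 j / 3 *
        R5e μ s (F.L m) (Pn (F.L m) y) F.dl (F.B m) (F.b0 m p) (2 ^ p) (2 ^ p) (2 ^ sg96 E c m p) ω j S = 0 := fun y _ ω j S => by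
      rw [R5e_same, Pi.zero_apply, mul_zero]
    refine (avy_le3 le_rfl fun y hy => ?_).trans hA0
    have := ne_Pn (hF.hy y hy)
    simp only [e, sum_const_zero]
    simp [gm]
  have hp' : δ * m ≤ p' := hC.hp.trans (by exact_mod_cast hC.hpp)
  have hDp : Deep (F.R m) (2 ^ p') (2 ^ sg96 E c m p') := hD p' hp' (hsq'.trans hqm)
  have hm' : (i + 1) * 2 ^ q ≤ 2 ^ m := by
    calc (i + 1) * 2 ^ q ≤ 2 ^ (m - q) * 2 ^ q := Nat.mul_le_mul_right _ hi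
      _ = 2 ^ m := by
          rw [← pow_add]
          congr 1
          omega
  have hrow : ∀ j ∈ Rw (F.R m) (i * 2 ^ q) ((i + 1) * 2 ^ q), j + 2 ^ p' ≤ F.L m := fun j hj => by
    have h6 := hDp.in_block (by positivity) (dvd96 hsq' i) (dvd96 hsq' (i + 1)) hj
    have := hF.hL
    omega
  have hB0 : 0 ≤ F.B m := by linarith
  have hbb : 2 ^ p ≤ 2 ^ p' := Nat.pow_le_pow_right two_pos hC.hpp
  have key := x5_R5e_le (μ := μ) (s := s) (N := F.L m) (ys := F.ys m) hF.hy (δ := F.dl) hB (hb0 p) hbb hDp hrow hM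
  -- the numbers
  obtain ⟨n, hnd⟩ : ∃ n : ℝ, n = ((2 ^ m : ℕ) : ℝ) := ⟨_, rfl⟩
  obtain ⟨σ, hσd⟩ : ∃ σ : ℕ, σ = 2 ^ sg96 E c m p' := ⟨_, rfl⟩
  obtain ⟨nb, hnb⟩ : ∃ nb : ℕ, nb = (i + 1) * 2 ^ q / σ - i * 2 ^ q / σ := ⟨_, rfl⟩
  have hσ0 : 0 < σ := by
    rw [hσd]
    positivity
  have hnbσ : nb * σ = 2 ^ q := by
    obtain ⟨u, hu⟩ : σ ∣ 2 ^ q := by
      rw [hσd]
      exact pow_dvd_pow 2 hsq'
    have e1 : (i + 1) * 2 ^ q / σ = (i + 1) * u := by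
      rw [hu, ← mul_assoc, mul_comm (i + 1) σ, mul_assoc, Nat.mul_div_cancel_left _ hσ0]
    have e2 : i * 2 ^ q / σ = i * u := by
      rw [hu, ← mul_assoc, mul_comm i σ, mul_assoc, Nat.mul_div_cancel_left _ hσ0]
    rw [hnb, e1, e2, ← Nat.sub_mul, Nat.add_sub_cancel_left, one_mul, hu, mul_comm]
  have hρn : (2 : ℕ) ^ q ≤ 2 ^ m := Nat.pow_le_pow_right two_pos hqm
  have hσn : σ ≤ 2 ^ m := by
    rw [hσd]
    exact Nat.pow_le_pow_right two_pos (hsq'.trans hqm)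
  have hnbn : nb ≤ 2 ^ m := by
    refine le_trans ?_ hρn
    rw [← hnbσ]
    exact Nat.le_mul_of_pos_right nb hσ0
  have hEb := R.Epos (2 ^ p)
  have hEb1 := R.E1 (2 ^ p)
  have hEb' := R.Epos (2 ^ p')
  have hEb1' := R.E1 (2 ^ p')
  have hEσ := R.Epos σ
  obtain ⟨X, hX⟩ : ∃ X : ℝ, X = n ^ ε₁ * (σ * (2 ^ p' / E (2 ^ p)) + (σ : ℝ) ^ 2 / (E (2 ^ p) * E (2 ^ p')) ^ 2 +
      (σ : ℝ) ^ 2 / (E σ * E (2 ^ p) ^ 2)) + n ^ (-8 : ℝ) := ⟨_, rfl⟩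
  obtain ⟨P, hP⟩ : ∃ P : ℝ, P = n ^ ε₁ * (σ / (E (2 ^ p) * E (2 ^ p'))) := ⟨_, rfl⟩
  rw [← hnd] at hN0 hN1 hn
  have hσr : (0 : ℝ) ≤ σ := Nat.cast_nonneg _
  have hP0 : 0 ≤ P := by
    rw [hP]
    positivity
  have hPn : P ≤ n ^ 2 := by
    rw [hP, sq]
    have a1 : n ^ ε₁ ≤ n := by
      calc n ^ ε₁ ≤ n ^ (1 : ℝ) := Real.rpow_le_rpow_of_exponent_le hN1.le hε₁'
        _ = n := Real.rpow_one n
    have a2 : (σ : ℝ) / (E (2 ^ p) * E (2 ^ p')) ≤ n := by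
      have a3 : (1 : ℝ) ≤ E (2 ^ p) * E (2 ^ p') := one_le_mul_of_one_le_of_one_le hEb1 hEb1'
      refine (div_le_self hσr a3).trans ?_
      rw [hnd]
      exact_mod_cast hσn
    exact mul_le_mul a1 a2 (by positivity) hN0.le
  have he0 : 0 ≤ n ^ (-8 : ℝ) := by positivity
  obtain ⟨Y, hY⟩ : ∃ Y : ℝ, Y = nb * X + (nb * P) ^ 2 + (nb : ℝ) ^ 2 * ((P + 4 * σ) * n ^ (-8 : ℝ)) := ⟨_, rfl⟩
  have hX0 : 0 ≤ X := by
    rw [hX]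
    positivity
  have hY0 : 0 ≤ Y := by
    rw [hY]
    positivity
  have hy5 : y5 μ s (F.L m) (F.ys m) (F.b0 m p) (2 ^ p) (2 ^ p') (2 ^ sg96 E c m p') (Rw (F.R m) (i * 2 ^ q) ((i + 1) * 2 ^ q)) M ≤ Y := by
    refine avy_le3 hY0 fun y hy => ?_
    have := ne_Pn (hF.hy y hy)
    have hk : ∀ k ∈ Ico (i * 2 ^ q / 2 ^ sg96 E c m p') ((i + 1) * 2 ^ q / 2 ^ sg96 E c m p'), (k + 1) * 2 ^ sg96 E c m p' ≤ 2 ^ m := by
      intro k hk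
      rw [mem_Ico] at hk
      refine le_trans ?_ hm'
      calc (k + 1) * 2 ^ sg96 E c m p' ≤ (i + 1) * 2 ^ q / 2 ^ sg96 E c m p' * 2 ^ sg96 E c m p' := Nat.mul_le_mul_right _ hk.2
        _ ≤ _ := Nat.div_mul_le_self _ _
    have h := y5_pin (μ := μ) (s := s) (N := F.L m) (Q := Pn (F.L m) y) (b0 := F.b0 m p) (b := 2 ^ p) (σ := 2 ^ sg96 E c m p')
      (by positivity) hDp (dvd96 hsq' i) (dvd96 hsq' (i + 1)) (m := M) (X := X) (P := P) (e := n ^ (-8 : ℝ)) hP0 he0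
      (fun k hk' => by
        have h1 := hXI p p' q k hC hpp (hk k hk') y hy
        rw [← hσd, ← hnd] at h1
        rw [hX]
        have e1 : ((σ : ℕ) : ℝ) = 2 ^ sg96 E c m p' := by
          rw [hσd]
          push_cast
          rfl
        rw [e1, ← hσd]
        exact h1)
      (fun k hk' => by
        have h1 := hSI p p' q k hC hpp (hk k hk') y hy
        rw [← hnd] at h1
        have e1 : ((σ : ℕ) : ℝ) = 2 ^ sg96 E c m p' := by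
          rw [hσd]
          push_cast
          rfl
        rw [hP, e1]
        exact h1)
    refine h.trans (le_of_eq ?_)
    rw [← hσd, ← hnb, hY]
  -- the end
  have hK : 8 * F.B m ^ 4 * Y ≤ 8 * F.B m ^ 4 * (4 * n ^ (2 * ε₁) * (2 ^ q * (E (2 ^ q) * n ^ (Θ - 15 / 16 * c)))) + 1 / 4 := by
    have H := ch46 R hc hcδ hC hqm
    rw [← hnd] at H R
    have h1 := num3 R H hε hε₁
    rw [← hσd] at h1
    have hB4 : F.B m ^ 4 ≤ n := by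
      rw [hnd]
      calc F.B m ^ 4 ≤ (((2 ^ m : ℕ) : ℝ) ^ (Θ / 16)) ^ 4 := pow_le_pow_left₀ hB0 hF.hB' 4
        _ = ((2 ^ m : ℕ) : ℝ) ^ (Θ / 4) := by
            rw [← Real.rpow_natCast, ← Real.rpow_mul (by positivity)]
            congr 1
            push_cast
            ring
        _ ≤ ((2 ^ m : ℕ) : ℝ) ^ (1 : ℝ) := Real.rpow_le_rpow_of_exponent_le (by rw [← hnd]; exact hN1.le) (by linarith)
        _ = _ := Real.rpow_one _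
    have h2 := err3 (n := n) (B := F.B m) (nb := nb) (σ := σ) (P := P) hn hB4 (Nat.cast_nonneg _) (by rw [hnd]; exact_mod_cast hnbn)
      hσr (by rw [hnd]; exact_mod_cast hσn) hP0 hPn
    have e1 : (nb : ℝ) * σ = 2 ^ q := by exact_mod_cast hnbσ
    have h3 : Y = n ^ ε₁ * (((2 ^ q : ℕ) : ℝ) * (((2 ^ p' : ℕ) : ℝ) / E (2 ^ p)) + ((2 ^ q : ℕ) : ℝ) * σ / (E (2 ^ p) * E (2 ^ p')) ^ 2 +
        ((2 ^ q : ℕ) : ℝ) * σ / (E σ * E (2 ^ p) ^ 2)) + (n ^ ε₁ * (((2 ^ q : ℕ) : ℝ) / (E (2 ^ p) * E (2 ^ p')))) ^ 2 +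
        (nb * n ^ (-8 : ℝ) + (nb : ℝ) ^ 2 * ((P + 4 * σ) * n ^ (-8 : ℝ))) := by
      rw [hY, hX, hP]
      push_cast
      rw [← e1]
      ring
    have h4 : 8 * F.B m ^ 4 * Y ≤ 8 * F.B m ^ 4 * (4 * n ^ (2 * ε₁) * (((2 ^ q : ℕ) : ℝ) * (E (2 ^ q) * n ^ (Θ - 15 / 16 * c)))) +
        8 * F.B m ^ 4 * (nb * n ^ (-8 : ℝ) + (nb : ℝ) ^ 2 * ((P + 4 * σ) * n ^ (-8 : ℝ))) := by
      rw [← mul_add]
      refine mul_le_mul_of_nonneg_left ?_ (by positivity)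
      rw [h3]
      linarith
    have e2 : ((2 ^ q : ℕ) : ℝ) = 2 ^ q := by
      push_cast
      rfl
    rw [e2] at h4
    linarith
  have hfin : 8 * F.B m ^ 4 * (4 * n ^ (2 * ε₁) * (2 ^ q * (E (2 ^ q) * n ^ (Θ - 15 / 16 * c)))) ≤ 1 / 2 * A33 E Θ c m q := by
    unfold A33
    rw [← hnd] at hnum ⊢
    have e1 : n ^ (Θ - c / 32) = n ^ (29 / 32 * c) * n ^ (Θ - 15 / 16 * c) := by
      rw [← Real.rpow_add hN0]
      congr 1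
      ring
    have h1 : 64 * F.B m ^ 4 * n ^ (2 * ε₁) * (2 ^ q * (E (2 ^ q) * n ^ (Θ - 15 / 16 * c))) ≤
        n ^ (29 / 32 * c) * (2 ^ q * (E (2 ^ q) * n ^ (Θ - 15 / 16 * c))) := mul_le_mul_of_nonneg_right hnum (by positivity)
    rw [e1]
    linarith
  have hA1 : 1 ≤ A33 E Θ c m q := by
    unfold A33
    have h1 : (1 : ℝ) ≤ 2 ^ q := one_le_pow₀ one_le_two
    have h2 : (1 : ℝ) ≤ ((2 ^ m : ℕ) : ℝ) ^ (Θ - c / 32) := Real.one_le_rpow (by rw [← hnd]; exact hN1.le) (by linarith)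
    exact one_le_mul_of_one_le_of_one_le h1 (one_le_mul_of_one_le_of_one_le hE1 h2)
  have ht := hty (Rw (F.R m) (i * 2 ^ q) ((i + 1) * 2 ^ q)).card (by
    have h3 := card_le_card ((inter_subset_left : Rw (F.R m) (i * 2 ^ q) ((i + 1) * 2 ^ q) ⊆ F.R m).trans hF.hR)
    rwa [card_range] at h3)
  have h5 : 8 * F.B m ^ 4 * y5 μ s (F.L m) (F.ys m) (F.b0 m p) (2 ^ p) (2 ^ p') (2 ^ sg96 E c m p')
      (Rw (F.R m) (i * 2 ^ q) ((i + 1) * 2 ^ q)) M ≤ 8 * F.B m ^ 4 * Y := mul_le_mul_of_nonneg_left hy5 (by positivity)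
  have h6 : S33 μ s F m q i (fun y ω j S => sr ω.2 j / 3 *
      R5e μ s (F.L m) (Pn (F.L m) y) F.dl (F.B m) (F.b0 m p) (2 ^ p) (2 ^ p') (2 ^ sg96 E c m p') ω j S) ≤
      8 * F.B m ^ 4 * y5 μ s (F.L m) (F.ys m) (F.b0 m p) (2 ^ p) (2 ^ p') (2 ^ sg96 E c m p')
        (Rw (F.R m) (i * 2 ^ q) ((i + 1) * 2 ^ q)) M + ty5 (F.L m) (Rw (F.R m) (i * 2 ^ q) ((i + 1) * 2 ^ q)).card (F.B m) M := key
  linarith

/-- `n ^ a` against `exp (- n ^ b)`. -/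
theorem ev_exp3 {b : ℝ} (hb : 0 < b) (a : ℝ) {r : ℝ} (hr : 0 < r) :
    ∀ᶠ m : ℕ in atTop, ((2 ^ m : ℕ) : ℝ) ^ a * Real.exp (-((2 ^ m : ℕ) : ℝ) ^ b) ≤ r := by
  have h1 := tendsto_rpow_mul_exp_neg_mul_atTop_nhds_zero (a / b) 1 one_pos
  have h2 := (h1.comp ((tendsto_rpow_atTop hb).comp tend_n)).eventually_lt_const hr
  filter_upwards [h2] with m hm
  refine le_trans (le_of_eq ?_) hm.le
  have hn0 : (0 : ℝ) ≤ ((2 ^ m : ℕ) : ℝ) := Nat.cast_nonneg _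
  show _ = (((2 ^ m : ℕ) : ℝ) ^ b) ^ (a / b) * Real.exp (-1 * ((2 ^ m : ℕ) : ℝ) ^ b)
  rw [← Real.rpow_mul hn0, mul_div_cancel₀ _ hb.ne', neg_one_mul]

/-- The tiny term at the frame. -/
theorem ty5_ev (K : ℕ) {β : ℝ} (hβ : 0 < β) (hβ1 : β ≤ 1 / 4) : ∀ᶠ m : ℕ in atTop, ∀ r : ℕ, r ≤ 2 ^ m →
    ty5 (2 ^ (K * m)) r (((2 ^ m : ℕ) : ℝ) ^ β) (((2 ^ m : ℕ) : ℝ) ^ (2 * β)) ≤ 1 / 4 := by
  filter_upwards [ev_exp3 (b := 2 * β) (by positivity) (3 + 2 * K) (r := 1 / 4096) (by norm_num), ev_n hβ 2] with m h1 h2 r hr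
  obtain ⟨n, hnd⟩ : ∃ n : ℝ, n = ((2 ^ m : ℕ) : ℝ) := ⟨_, rfl⟩
  have hn1 : (1 : ℝ) ≤ n := by
    rw [hnd]
    exact n_ge1 m
  have hn0 : 0 < n := by linarith
  rw [← hnd] at h1 h2 ⊢
  have hrn : (r : ℝ) ≤ n := by
    rw [hnd]
    exact_mod_cast hr
  have hr0 : (0 : ℝ) ≤ r := Nat.cast_nonneg _
  obtain ⟨B, hB⟩ : ∃ B : ℝ, B = n ^ β := ⟨_, rfl⟩
  have hM : n ^ (2 * β) = B ^ 2 := by
    rw [hB, ← Real.rpow_natCast, ← Real.rpow_mul hn0.le]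
    congr 1
    push_cast
    ring
  rw [← hB] at h2 ⊢
  obtain ⟨x, hx⟩ : ∃ x : ℝ, x = Real.exp (-n ^ (2 * β)) := ⟨_, rfl⟩
  rw [← hx] at h1
  have hx0 : 0 < x := by
    rw [hx]
    exact Real.exp_pos _
  have e1 : Real.exp (6 * B - 4 * n ^ (2 * β)) ^ 2 ≤ x := by
    rw [← Real.exp_nat_mul, hx]
    refine Real.exp_le_exp.2 ?_
    rw [hM]
    push_cast
    nlinarith
  have hB4 : B ^ 4 ≤ n := by
    rw [hB, ← Real.rpow_natCast, ← Real.rpow_mul hn0.le]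
    calc n ^ (β * ((4 : ℕ) : ℝ)) ≤ n ^ (1 : ℝ) := Real.rpow_le_rpow_of_exponent_le hn1 (by push_cast; linarith)
      _ = n := Real.rpow_one n
  have hL : ((2 ^ (K * m) : ℕ) : ℝ) = n ^ (K : ℝ) := by
    rw [hnd, Real.rpow_natCast, mul_comm K m, pow_mul]
    push_cast
    rfl
  have hL1 : (1 : ℝ) ≤ n ^ (K : ℝ) := Real.one_le_rpow hn1 (Nat.cast_nonneg _)
  have e2 : (((2 ^ (K * m) : ℕ) : ℝ) + 1) ^ 2 ≤ 4 * n ^ (2 * K : ℝ) := by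
    rw [hL]
    calc (n ^ (K : ℝ) + 1) ^ 2 ≤ (2 * n ^ (K : ℝ)) ^ 2 := pow_le_pow_left₀ (by linarith) (by linarith) 2
      _ = 4 * n ^ (2 * K : ℝ) := by
          rw [mul_pow, ← Real.rpow_natCast (n ^ (K : ℝ)), ← Real.rpow_mul hn0.le]
          norm_num
          congr 1
          ring
  unfold ty5
  rw [← hx]
  have a1 : 8 * B ^ 4 * ((((2 ^ (K * m) : ℕ) : ℝ) + 1) ^ 2 * x) ≤ 8 * n * ((4 * n ^ (2 * K : ℝ)) * x) :=
    mul_le_mul (by linarith) (mul_le_mul_of_nonneg_right e2 hx0.le) (by positivity) (by positivity)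
  have a2 : 288 * B ^ 4 * Real.exp (6 * B - 4 * n ^ (2 * β)) ^ 2 ≤ 288 * n * x :=
    mul_le_mul (by linarith) e1 (by positivity) (by positivity)
  have a3 : 288 * n * x ≤ 288 * n * (n ^ (2 * K : ℝ) * x) := by
    have : (1 : ℝ) ≤ n ^ (2 * K : ℝ) := Real.one_le_rpow hn1 (by positivity)
    nlinarith [mul_pos hn0 hx0]
  have a4 : 2 * (r : ℝ) ^ 2 ≤ 2 * n ^ 2 := by
    have := pow_le_pow_left₀ hr0 hrn 2
    linarith
  have e3 : n ^ (3 + 2 * K : ℝ) = n ^ 2 * n * n ^ (2 * K : ℝ) := by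
    have e4 : n ^ (3 : ℝ) = n ^ 2 * n := by
      rw [show (3 : ℝ) = ((3 : ℕ) : ℝ) by norm_num, Real.rpow_natCast]
      ring
    rw [Real.rpow_add hn0, e4]
  have h3 : n ^ 2 * n * n ^ (2 * K : ℝ) * x ≤ 1 / 4096 := by
    rw [← e3]
    exact h1
  calc _ ≤ 2 * n ^ 2 * (8 * n * ((4 * n ^ (2 * K : ℝ)) * x) + 288 * n * (n ^ (2 * K : ℝ) * x)) :=
        mul_le_mul a4 (by linarith) (by positivity) (by positivity)
    _ = 640 * (n ^ 2 * n * n ^ (2 * K : ℝ) * x) := by ring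
    _ ≤ 640 * (1 / 4096) := mul_le_mul_of_nonneg_left h3 (by norm_num)
    _ ≤ 1 / 4 := by norm_num

/-- **`RB` AT THE CONCRETE FRAME FROM THE TWO INPUTS.** -/
theorem rb33 [IsProbabilityMeasure μ] {K : ℕ} {c₁ C : ℝ} {n₀ : ℕ} (h : Pool.Agent.W_7d29a1_HS.In μ s c₁ C n₀)
    (hk : KapLe96 (EE μ s) (1 / 4)) (hK : 6 ≤ K) {c₀ : ℝ} (hR : RegP46 μ s c₀ Θ) (hΘ : 0 < Θ) (hΘ1 : Θ ≤ 1) (hδ : 0 < δ) (hc : 0 < c)
    (hcδ : 64 * c ≤ δ) (hcΘ : c ≤ Θ) (hη : 0 ≤ η) {ε₁ : ℝ} (hε₁ : 0 ≤ ε₁) (hε₁' : ε₁ ≤ 1) (hε₁c : ε₁ ≤ c / 16)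
    (hX : Par92.Est fun ι β γ m => XI3 μ s (Frm33.frm33 μ s K ι β γ) (EE μ s) Θ δ c η ε₁ (((2 ^ m : ℕ) : ℝ) ^ (2 * β)) m)
    (hS : Par92.Est fun ι β γ m => SI3 μ s (Frm33.frm33 μ s K ι β γ) (EE μ s) Θ δ c η ε₁ (((2 ^ m : ℕ) : ℝ) ^ (2 * β)) m) :
    Par92.Est fun ι β γ m => RB μ s (Frm33.frm33 μ s K ι β γ) (EE μ s) Θ δ c η m := by
  obtain ⟨a, -, -, h1⟩ := hR.est hδ (k := 1) one_pos
  have h2 : Par92.Est fun ι _ _ _ => 0 < ι ∧ 3 * (1 * ι) ≤ c := by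
    refine Par92.Est.iota ?_
    exact ⟨c / 3, by positivity, fun ι hι h => ⟨hι, by linarith⟩⟩
  have h3 : Par92.Est fun ι β γ m => (∃ M : ℝ, 0 ≤ M ∧ (∀ r : ℕ, r ≤ 2 ^ m → ty5 (2 ^ (K * m)) r (((2 ^ m : ℕ) : ℝ) ^ β) M ≤ 1 / 4) ∧
      XI3 μ s (Frm33.frm33 μ s K ι β γ) (EE μ s) Θ δ c η ε₁ M m ∧ SI3 μ s (Frm33.frm33 μ s K ι β γ) (EE μ s) Θ δ c η ε₁ M m) ∧
      64 * (((2 ^ m : ℕ) : ℝ) ^ β) ^ 4 * ((2 ^ m : ℕ) : ℝ) ^ (2 * ε₁) ≤ ((2 ^ m : ℕ) : ℝ) ^ (29 / 32 * c) ∧ 2 ≤ ((2 ^ m : ℕ) : ℝ) ^ β ∧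
      8 ≤ ((2 ^ m : ℕ) : ℝ) := by
    have h4 : Par92.Est fun _ β _ _ => β ≤ c / 32 ∧ β ≤ 1 / 4 := Par92.Est.beta (Par92.Sml.of fun _ _ =>
      ⟨min (c / 32) (1 / 4), by positivity, fun β _ hb => ⟨hb.trans (min_le_left _ _), hb.trans (min_le_right _ _)⟩⟩)
    refine ((hX.and hS).and h4).mono fun ι β γ _ hβ _ => ?_
    by_cases hb : β ≤ c / 32 ∧ β ≤ 1 / 4
    swap
    · exact Eventually.of_forall fun m h => absurd h.2 hb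
    obtain ⟨b2, b3⟩ := hb
    filter_upwards [ty5_ev K hβ b3, ev_n (show 0 < c / 2 by positivity) 64, ev_n hβ 2, ev_n one_pos 8] with m g2 g4 g5 g6 g1
    have hn1 : (1 : ℝ) ≤ ((2 ^ m : ℕ) : ℝ) := n_ge1 m
    have hn0 : (0 : ℝ) < ((2 ^ m : ℕ) : ℝ) := lt_of_lt_of_le one_pos hn1
    refine ⟨⟨((2 ^ m : ℕ) : ℝ) ^ (2 * β), by positivity, g2, ?_⟩, ?_, g5, ?_⟩
    · exact g1.1
    · have e1 : (((2 ^ m : ℕ) : ℝ) ^ β) ^ 4 = ((2 ^ m : ℕ) : ℝ) ^ (4 * β) := by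
        rw [← Real.rpow_natCast, ← Real.rpow_mul hn0.le]
        congr 1
        push_cast
        ring
      rw [e1]
      calc 64 * ((2 ^ m : ℕ) : ℝ) ^ (4 * β) * ((2 ^ m : ℕ) : ℝ) ^ (2 * ε₁)
          ≤ ((2 ^ m : ℕ) : ℝ) ^ (c / 2) * ((2 ^ m : ℕ) : ℝ) ^ (4 * β) * ((2 ^ m : ℕ) : ℝ) ^ (2 * ε₁) := by gcongr
        _ = ((2 ^ m : ℕ) : ℝ) ^ (c / 2 + 4 * β + 2 * ε₁) := by
            rw [Real.rpow_add hn0, Real.rpow_add hn0]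
        _ ≤ _ := Real.rpow_le_rpow_of_exponent_le hn1 (by linarith)
    · rwa [Real.rpow_one] at g6
  have h4 : Par92.Est fun ι β γ m => (Frm33.frm33 μ s K ι β γ).Ok Θ m := Frm33.ok33 hK hΘ
  have h5 : Par92.Est fun ι β γ m => DeepB (Frm33.frm33 μ s K ι β γ) (EE μ s) δ c m := Frm33.deepB33 h hk hδ hc.le (by linarith)
  refine ((h1.and h2).and (h4.and (h5.and h3))).mono
    fun ι β γ _ _ _ => Eventually.of_forall fun m hm => ?_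
  obtain ⟨⟨⟨r1, -⟩, r2, r3⟩, r4, r5, ⟨M, r6, r7, r8, r9⟩, r10, r11, r12⟩ := hm
  exact rb_of3 r1 hc hcδ hcΘ hΘ1 hη r3 hε₁ hε₁' r12 r4 r11 r5 (fun p => Nat.pow_le_pow_right two_pos (Nat.sub_le _ _)) r6 r7 r10 r8 r9

end

end Pool.Agent.W_7d29a1_C0.Eta3
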