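import Pool.Agent.W_7d29a1_C0.EvV50
import Pool.Agent.W_7d29a1_C0.EvW50

/-!
MP_7d29a1_pr, [CURV0] / [C0], leaf (T): THE MICRO TERMS OF (T), numbers included, in the order of the constants of the frame: the clip
exponent `β` depends on `κ`, `εM` only, then the flatness `δ` of the windows, then everything else. (helper50)
-/

set_option autoImplicit false
set_option linter.unusedSectionVars false

namespace Pool.Agent.W_7d29a1_C0.EvT50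

open Finset MeasureTheory Filter Topology Pool.Agent.W_7d29a1_F Pool.Agent.W_7d29a1_X Pool.Agent.W_7d29a1_C0.Mod92
open Pool.Agent.W_7d29a1_H (sl)
open Pool.Agent.W_7d29a1_HS (In wd)
open Pool.Agent.W_7d29a1_C0.Swap57
open Pool.W7d29a1.C0 (gz gm gm_mono gm_const gm_nonneg)
open Pool.W7d29a1.C0.VT31
open Pool.W7d29a1.C0.R43
open Pool.W7d29a1.C0.H27 (pB slb)
open Pool.Agent.W_7d29a1_C0.LocM18 (Cn)
open Pool.Agent.W_7d29a1_C0.Blk18 (full_Pn)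
open Pool.Agent.W_7d29a1_C0.GwA50 (GwW gw_ord73)
open Pool.Agent.W_7d29a1_C0.Tv48 (EndOk)
open Pool.Agent.W_7d29a1_C0.EvW50 (steep50)
open Pool.Agent.W_7d29a1_C0.T72 (Sp72 ind72 ind72_nonneg uj72 abs_uj72 wj_eq72 chi3_nonneg)
open Pool.Agent.W_7d29a1_C0.CutT57 (chi3 P3)
open Pool.Agent.W_7d29a1_C0.NM82 (HdAll HdAll_lw HdAll_Lk)
open Pool.W7d29a1.C0.T72 (fT72)
open Pool.W7d29a1.C0.H7 (E0X)
open Pool.W7d29a1.C0.I52 (ev ev_nonneg)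

noncomputable section

variable {μ : Measure ℝ} {s : ℝ} {N : ℕ} {Q : Finset (Finset ℕ)} [IsProbabilityMeasure μ]

/-- A bound for all signs is a bound over the environment and the signs. -/
theorem int_Pm_le50 {Φ : Env × Finset ℕ → ℝ} (hm : ∀ A, Measurable fun η => Φ (η, A)) {M : ℝ} (hb : ∀ ω, |Φ ω| ≤ M) {E : ℝ}
    (h : ∀ A, ∫ η, Φ (η, A) ∂(law μ) ≤ E) : ∫ ω, Φ ω ∂(Pm μ N) ≤ E := by
  rw [int_Pm (Φ := Φ) (fun A _ => Integrable.of_bound (hm A).aestronglyMeasurable M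
    (Filter.Eventually.of_forall fun η => hb (η, A))) hm]
  have h1 : ∑ A ∈ (range N).powerset, ∫ η, Φ (η, A) ∂(law μ) ≤ ∑ _A ∈ (range N).powerset, E := sum_le_sum fun A _ => h A
  rw [sum_const, card_powerset, card_range, nsmul_eq_mul] at h1
  push_cast at h1
  have h2 : (0 : ℝ) < 2 ^ N := by positivity
  calc (2 ^ N : ℝ)⁻¹ * ∑ A ∈ (range N).powerset, ∫ η, Φ (η, A) ∂(law μ) ≤ (2 ^ N : ℝ)⁻¹ * (2 ^ N * E) :=
        mul_le_mul_of_nonneg_left h1 (inv_pos.2 h2).le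
    _ = E := by rw [← mul_assoc, inv_mul_cancel₀ h2.ne', one_mul]

variable {c C : ℝ} {n₀ : ℕ}

/-- The three rare parts: the bad environments and the paths out of the cone at every tilt. -/
theorem rareX50 (hin : In μ s c C n₀) {κ ε : ℝ} (hκ : 0 < κ) (hε : 0 < ε) : ∃ c₁ : ℝ, 0 < c₁ ∧ ∃ δ₀ : ℝ, 0 < δ₀ ∧
    ∀ δ : ℝ, 0 < δ → δ ≤ δ₀ → ∃ δ₁ δ' c₂ : ℝ, 0 < δ₁ ∧ 0 < δ' ∧ 0 < c₂ ∧ ∃ N₀ : ℕ, ∀ N : ℕ, N₀ ≤ N → ∀ y : ℕ,
    EndOk μ s δ' N y → ∀ [Nonempty (Px (Pn N y))], ∀ B : ℝ, 0 ≤ B → ∀ b j : ℕ, (N : ℝ) ^ κ ≤ b → b ≤ j → j + b ≤ N →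
    (law μ {η | ¬ GW1 μ s N (Pn N y) δ δ₁ B (Real.exp ((N : ℝ) ^ ε)) (Real.exp (-(N : ℝ) ^ c₁)) b j η}).toReal ≤
      Real.exp (-(N : ℝ) ^ c₁) ∧
    ∀ t : ℝ, |t| ≤ 1 → ∫ ω, gm (fun S : Px (Pn N y) => lw μ s ω.1 N (Pn N y) S + uj72 μ s (Pn N y) δ B b j t ω.2 ω.1 S)
      (nC μ s δ₁ (Pn N y) b j) ∂(Pm μ N) ≤ Real.exp (-(N : ℝ) ^ c₂) := by
  obtain ⟨c₁, hc₁, hgw⟩ := gw_ord73 hin hκ hε
  obtain ⟨δ₀, hδ₀, hst⟩ := steep50 hin hκ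
  refine ⟨c₁, hc₁, δ₀, hδ₀, fun δ hδ hδ0 => ?_⟩
  obtain ⟨δ₁, hδ₁, -, N₁, hN₁⟩ := hgw δ hδ
  obtain ⟨δ', c₂, hδ', hc₂, N₂, hN₂⟩ := hst δ hδ hδ0 δ₁ hδ₁
  refine ⟨δ₁, δ', c₂, hδ₁, hδ', hc₂, max N₁ N₂, fun N hN y hy hne B hB b j hb hbj hjN => ⟨?_, fun t ht => ?_⟩⟩
  · have h1 : {η | ¬ GW1 μ s N (Pn N y) δ δ₁ B (Real.exp ((N : ℝ) ^ ε)) (Real.exp (-(N : ℝ) ^ c₁)) b j η} ⊆
        {η | ¬ GwW μ s N κ δ δ₁ ε c₁ η} := fun η hη hG =>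
      hη (GwW.gw1 hG (full_Pn N y) hjN (by rw [Nat.sub_sub_self hbj]; exact hb) hb B)
    exact ENNReal.toReal_le_of_le_ofReal (Real.exp_pos _).le ((measure_mono h1).trans (hN₁ N ((le_max_left _ _).trans hN)))
  · have hum : ∀ (A : Finset ℕ) (S : Px (Pn N y)), Measurable fun η : Env =>
        lw μ s η N (Pn N y) S + uj72 μ s (Pn N y) δ B b j t A η S := fun A S => by
      unfold T72.uj72
      exact (meas_lw S).add ((meas_gj δ B b j (sg A j) S).const_mul _)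
    refine int_Pm_le50 (Φ := fun ω => gm (fun S : Px (Pn N y) => lw μ s ω.1 N (Pn N y) S +
        uj72 μ s (Pn N y) δ B b j t ω.2 ω.1 S) (nC μ s δ₁ (Pn N y) b j))
      (fun A => meas_gm (hum A) fun S => measurable_const) (M := 1) (fun ω => ?_) fun A => ?_
    · rw [abs_of_nonneg (gm_nonneg _ (nC_nonneg δ₁ b j))]
      exact (gm_mono _ (g := fun _ => 1) (nC_le_one δ₁ b j)).trans (gm_const _ _).le
    · exact hN₂ N ((le_max_right _ _).trans hN) y hy B hB b j hb hjN (sg A j) (sg_or A j) t ht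

/-- **THE MICRO TERMS OF (T)** at the parameter `t`, in terms of the alternatives of the base path. The clip exponent `β` is chosen
from `κ`, `εM`, before the flatness `δ`. -/
theorem micX50 (hin : In μ s c C n₀) {κ εM : ℝ} (hκ : 0 < κ) (hεM : 0 < εM) :
    ∃ β : ℝ, 0 < β ∧ ∃ δ₀ : ℝ, 0 < δ₀ ∧ ∀ δ : ℝ, 0 < δ → δ ≤ δ₀ → ∀ ε₀ K' : ℝ, 0 ≤ ε₀ →
      ∃ δ' : ℝ, 0 < δ' ∧ ∃ N₀ : ℕ, ∀ N : ℕ, N₀ ≤ N → ∀ y : ℕ, EndOk μ s δ' N y → ∀ [Nonempty (Px (Pn N y))],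
      ∀ B : ℝ, 0 ≤ B → B ≤ (N : ℝ) ^ β → ∀ b j l q : ℕ, (N : ℝ) ^ κ ≤ b → b ≤ j → j + b ≤ N → ∀ M : ℝ,
      (N : ℝ) ^ εM ≤ M → 10 * M ≤ q → (q : ℝ) ≤ 20 * M → 3 * q * (l + 1) ≤ b → ∀ c0 K m h z z' e : ℕ, j + b ≤ c0 → c0 + K ≤ m →
      m ≤ h → h ≤ z → z ≤ z' → z' ≤ e → ∀ t : ℝ, |t| ≤ 1 →
      (∀ A, E0X μ s 3 N (Pn N y) c0 K (pB (c0 + K)) (2 * B / K) (uj72 μ s (Pn N y) δ B b j t A) ε₀ K') →
      ∀ F : ℝ, 0 ≤ F → 2 * F ≤ (N : ℝ) ^ K' → ∀ f : Env × Finset ℕ → Px (Pn N y) → ℝ, Sp72 (Pn N y) e F c0 K f →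
      ∀ (γ b' : Env × Finset ℕ → Px (Pn N y) → ℝ) (G Mb : ℝ), 0 ≤ G → 0 ≤ Mb → (∀ ω S, |γ ω S| ≤ G) → (∀ ω S, |b' ω S| ≤ Mb) →
      (∀ ω, Lk 0 m (γ ω)) → (∀ ω, Lk 0 h (b' ω)) →
      ∫ ω, |fT72 (pJ 0 z') (pJ 0 z) (cC (wj μ s N (Pn N y) δ B b j ω t) (pJ 0 m) (gg μ s (Pn N y) δ B b ω j) (γ ω))
          (b' ω) (f ω) (wj μ s N (Pn N y) δ B b j ω t)| ∂(Pm μ N) ≤
        2 * Mb * G * B * (N : ℝ) ^ ε₀ * ∫ ω, ev (P3 (pJ 0 z')) (wm μ s N (Pn N y) ω)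
          (chi3 h z z' e (ind72 (fun ω => RpM (wm μ s N (Pn N y) ω) (pJ 0 m) b j l q M) ω) (f ω)) ∂(Pm μ N) +
        4 * Mb * G * (F + 1) * (N : ℝ) ^ (1 + ε₀ - K') := by
  obtain ⟨c₁, hc₁, δ₀, hδ₀, hR⟩ := rareX50 hin hκ (half_pos hεM)
  obtain ⟨β, hβ⟩ : ∃ x : ℝ, x = min (min c₁ εM) 1 / 2 := ⟨_, rfl⟩
  have hβ0 : 0 < β := by rw [hβ]; exact half_pos (lt_min (lt_min hc₁ hεM) one_pos)
  have hβ1 : β < c₁ := by
    have : min (min c₁ εM) 1 ≤ c₁ := (min_le_left _ _).trans (min_le_left _ _)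
    linarith
  have hβ2 : β < εM := by
    have : min (min c₁ εM) 1 ≤ εM := (min_le_left _ _).trans (min_le_right _ _)
    linarith
  have hβ3 : β ≤ 1 := by
    have : min (min c₁ εM) 1 ≤ 1 := min_le_right _ _
    linarith
  refine ⟨β, hβ0, δ₀, hδ₀, fun δ hδ hδ0 ε₀ K' hε₀ => ?_⟩
  obtain ⟨δ₁, δ', c₂, hδ₁, hδ', hc₂, N₁, hN₁⟩ := hR δ hδ hδ0
  have ev1 := ev_pw50 hβ1 16
  have ev2 := ev_pw50 hβ2 16
  have ev3 := ev_pw50 (half_lt_self hεM) 16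
  have ev4 := ev_pw50 hεM 8
  have ev5 := ev_exp50 32 K' (a := 1) one_pos hεM
  have ev6 := ev_exp50 32 (K' + 1) (a := 3 / 4) (by norm_num) hc₁
  have ev7 := ev_exp50 32 (K' + 1) (a := 1) one_pos hc₂
  obtain ⟨N₂, hN₂⟩ := eventually_atTop.1 (ev1.and (ev2.and (ev3.and (ev4.and (ev5.and (ev6.and ev7))))))
  refine ⟨δ', hδ', max (max N₁ N₂) 1, ?_⟩
  intro N hN y hQ hne B hB0 hB b j l q hb hbj hjN M hM hq hq' hl c0 K m h z z' e hj hm h1 h2 h3 h4 t ht hE F hF0 hF f hf γ b' G Mb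
    hG0 hMb hγ hb' hγL hbL
  have k1 : N₁ ≤ N := (le_max_left _ _).trans ((le_max_left _ _).trans hN)
  have k2 : N₂ ≤ N := (le_max_right _ _).trans ((le_max_left _ _).trans hN)
  have k3 : 1 ≤ N := (le_max_right _ _).trans hN
  have k4 : (1 : ℝ) ≤ N := by exact_mod_cast k3
  have k5 : (0 : ℝ) < N := by linarith
  obtain ⟨a1, a2, a3, a4, a5, a6, a7⟩ := hN₂ N k2
  rw [Real.rpow_zero, mul_one] at a4
  obtain ⟨X, hX⟩ : ∃ x : ℝ, x = (N : ℝ) ^ c₁ := ⟨_, rfl⟩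
  obtain ⟨Y, hY⟩ : ∃ x : ℝ, x = (N : ℝ) ^ c₂ := ⟨_, rfl⟩
  obtain ⟨Z, hZ⟩ : ∃ x : ℝ, x = (N : ℝ) ^ (-K') := ⟨_, rfl⟩
  have hX0 : 0 ≤ X := by rw [hX]; exact Real.rpow_nonneg k5.le _
  have hZ0 : 0 ≤ Z := by rw [hZ]; exact Real.rpow_nonneg k5.le _
  obtain ⟨hbad, hcone⟩ := hN₁ N k1 y hQ B hB0 b j hb hbj hjN
  have hcone := hcone t ht
  rw [← hX] at a1 a6 hbad
  rw [← hY] at a7 hcone
  rw [← hZ, one_mul] at a5
  rw [one_mul] at a7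
  have hM0 : 0 ≤ M := (Real.rpow_nonneg k5.le _).trans hM
  have c1 : 16 * B ≤ X := (mul_le_mul_of_nonneg_left hB (by norm_num)).trans a1
  have c2 : 16 * B ≤ M := ((mul_le_mul_of_nonneg_left hB (by norm_num)).trans a2).trans hM
  have c3 : 16 * (N : ℝ) ^ (εM / 2) ≤ M := a3.trans hM
  have c4 : 8 ≤ M := a4.trans hM
  have c5 : 32 * Real.exp (-M) ≤ Z := (mul_le_mul_of_nonneg_left (Real.exp_le_exp.2 (neg_le_neg hM)) (by norm_num)).trans a5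
  have c6 : B ≤ N := hB.trans (by
    calc (N : ℝ) ^ β ≤ (N : ℝ) ^ (1 : ℝ) := Real.rpow_le_rpow_of_exponent_le k4 hβ3
      _ = N := Real.rpow_one _)
  have e1 : (N : ℝ) ^ (-(K' + 1)) * N = Z := by
    rw [hZ]
    nth_rewrite 2 [← Real.rpow_one (N : ℝ)]
    rw [← Real.rpow_add k5]
    congr 1
    ring
  have c7 : 32 * N * Real.exp (-(3 / 4 * X)) ≤ Z := by
    have e2 := mul_le_mul_of_nonneg_right a6 k5.le
    rw [e1] at e2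
    linarith
  have c8 : 32 * N * Real.exp (-Y) ≤ Z := by
    have e2 := mul_le_mul_of_nonneg_right a7 k5.le
    rw [e1] at e2
    linarith
  -- the parameters of the robust event
  obtain ⟨M0, hM0'⟩ : ∃ x : ℝ, x = M - 8 / 5 * B := ⟨_, rfl⟩
  have d1 : 5 * M0 + 4 * (2 * B) ≤ 5 * M := by rw [hM0']; linarith
  have hw : ∀ ω : Env × Finset ℕ, HdAll m (fun S : Px (Pn N y) =>
      lw μ s ω.1 N (Pn N y) S + uj72 μ s (Pn N y) δ B b j t ω.2 ω.1 S) := fun ω => by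
    have e1 : (fun S : Px (Pn N y) => lw μ s ω.1 N (Pn N y) S + uj72 μ s (Pn N y) δ B b j t ω.2 ω.1 S) =
        lw μ s ω.1 N (Pn N y) + (t - sg ω.2 j) • gj μ s ω.1 δ B b j (sg ω.2 j) := rfl
    rw [e1]
    refine (HdAll_lw ω.1 m).add ((HdAll_Lk (g := gj μ s ω.1 δ B b j (sg ω.2 j)) ?_).smul _)
    intro S S' hS
    unfold gj
    rw [hS _ (Nat.zero_le _) (by omega), hS _ (Nat.zero_le _) (by omega)]
  have hum : ∀ S : Px (Pn N y), Measurable fun ω : Env × Finset ℕ => uj72 μ s (Pn N y) δ B b j t ω.2 ω.1 S := fun S => by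
    unfold T72.uj72
    have e1 : (fun ω : Env × Finset ℕ => (t - sg ω.2 j) * gj μ s ω.1 δ B b j (sg ω.2 j) S) =
        fun ω => (t - sr ω.2 j) * gg μ s (Pn N y) δ B b ω j S := rfl
    rw [e1]
    exact (measurable_const.sub (meas_sr j)).mul (meas_gg δ B b j S)
  have key := micV50 (μ := μ) (s := s) (N := N) (Q := Pn N y) hE hum (Du := B)
    (fun A η S => abs_uj72 hB0 b j ht A η S) (δ := δ) (δ₁ := δ₁) (B := B) (R := Real.exp ((N : ℝ) ^ (εM / 2)))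
    (e0 := Real.exp (-X)) (M := M0) (M' := M) (D := 2 * B) hB0 (Real.exp_pos _).le
    (Real.exp_pos _).le hj hm h1 h2 h3 h4 hF0 hf hF (by positivity) le_rfl d1 hG0 hMb hγ hb' hw hγL hbL
  have key' : ∫ ω, |fT72 (pJ 0 z') (pJ 0 z) (cC (wj μ s N (Pn N y) δ B b j ω t) (pJ 0 m) (gg μ s (Pn N y) δ B b ω j) (γ ω))
          (b' ω) (f ω) (wj μ s N (Pn N y) δ B b j ω t)| ∂(Pm μ N) = ∫ ω, |fT72 (pJ 0 z') (pJ 0 z)
      (cC (fun S => lw μ s ω.1 N (Pn N y) S + uj72 μ s (Pn N y) δ B b j t ω.2 ω.1 S) (pJ 0 m)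
        (gg μ s (Pn N y) δ B b ω j) (γ ω)) (b' ω) (f ω)
      (fun S => lw μ s ω.1 N (Pn N y) S + uj72 μ s (Pn N y) δ B b j t ω.2 ω.1 S)| ∂(Pm μ N) := by
    refine integral_congr_ae (Filter.Eventually.of_forall fun ω => ?_)
    simp only [wj_eq72]
  rw [key']
  refine key.trans ?_
  have r1 := tau_rpP (μ := μ) (s := s) (N := N) (Q := Pn N y) (m := m) (h := h) (z := z) (z' := z') hF0 hf (b := b) (j := j)
    (l := l) (q := q) c4 hq hq' hbj hl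
  obtain ⟨X1, hX1⟩ : ∃ x : ℝ, x = ∫ ω, ev (P3 (pJ 0 z')) (wm μ s N (Pn N y) ω)
    (chi3 h z z' e (ind72 (fun ω => TauM (wm μ s N (Pn N y) ω) (pJ 0 m) b j M) ω) (f ω)) ∂(Pm μ N) := ⟨_, rfl⟩
  obtain ⟨X2, hX2⟩ : ∃ x : ℝ, x = ∫ ω, ev (P3 (pJ 0 z')) (wm μ s N (Pn N y) ω)
    (chi3 h z z' e (ind72 (fun ω => RpM (wm μ s N (Pn N y) ω) (pJ 0 m) b j l q M) ω) (f ω)) ∂(Pm μ N) := ⟨_, rfl⟩
  obtain ⟨X3, hX3⟩ : ∃ x : ℝ, x = ∫ ω, gm (fun S : Px (Pn N y) => lw μ s ω.1 N (Pn N y) S +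
    uj72 μ s (Pn N y) δ B b j t ω.2 ω.1 S) (nC μ s δ₁ (Pn N y) b j) ∂(Pm μ N) := ⟨_, rfl⟩
  obtain ⟨X4, hX4⟩ : ∃ x : ℝ, x = (law μ {η | ¬ GW1 μ s N (Pn N y) δ δ₁ B (Real.exp ((N : ℝ) ^ (εM / 2)))
    (Real.exp (-X)) b j η}).toReal := ⟨_, rfl⟩
  rw [← hX1, ← hX2] at r1
  rw [← hX1, ← hX3, ← hX4, ← hX2, ← hZ]
  rw [← hX3] at hcone
  rw [← hX4] at hbad
  clear hX1 hX2 hX3 hX4 key key' hw hum hE hf hγ hb' hγL hbL hN₁ hN₂
  -- the error of the pointwise bound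
  have p1 : Real.exp (4 * B) * (Real.exp ((N : ℝ) ^ (εM / 2)) * (2 * Real.exp (-(5 * M0))) + Real.exp (-X)) ≤ Z / 8 := by
    have q1 : Real.exp (4 * B) * (Real.exp ((N : ℝ) ^ (εM / 2)) * (2 * Real.exp (-(5 * M0)))) ≤ 2 * Real.exp (-M) := by
      have e1 : Real.exp (4 * B) * (Real.exp ((N : ℝ) ^ (εM / 2)) * (2 * Real.exp (-(5 * M0)))) =
          2 * Real.exp (4 * B + (N : ℝ) ^ (εM / 2) + -(5 * M0)) := by
        rw [Real.exp_add, Real.exp_add]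
        ring
      rw [e1]
      refine mul_le_mul_of_nonneg_left (Real.exp_le_exp.2 ?_) (by norm_num)
      rw [hM0']
      linarith only [c2, c3, hM0]
    have q2 : Real.exp (4 * B) * Real.exp (-X) ≤ Real.exp (-(3 / 4 * X)) := by
      rw [← Real.exp_add]
      exact Real.exp_le_exp.2 (by linarith only [c1])
    have q4 : Real.exp (-(3 / 4 * X)) ≤ N * Real.exp (-(3 / 4 * X)) := le_mul_of_one_le_left (Real.exp_pos _).le k4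
    rw [mul_add]
    linarith only [q1, q2, q4, c5, c7, hZ0]
  have p4 : 2 * B * X3 + B * X4 ≤ Z / 8 := by
    have q1 : 2 * B * X3 ≤ 2 * N * Real.exp (-Y) := by
      have h5 := mul_le_mul_of_nonneg_left hcone (by positivity : 0 ≤ 2 * B)
      have h6 := mul_le_mul_of_nonneg_right (by linarith only [c6] : 2 * B ≤ 2 * N) (Real.exp_pos (-Y)).le
      linarith only [h5, h6]
    have q2 : B * X4 ≤ N * Real.exp (-(3 / 4 * X)) := by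
      have h5 := mul_le_mul_of_nonneg_left hbad hB0
      have h6 := mul_le_mul_of_nonneg_right c6 (Real.exp_pos (-X)).le
      have h7 : Real.exp (-X) ≤ Real.exp (-(3 / 4 * X)) := Real.exp_le_exp.2 (by linarith only [hX0])
      have h8 := mul_le_mul_of_nonneg_left h7 k5.le
      linarith only [h5, h6, h8]
    linarith only [q1, q2, c7, c8, hZ0]
  have p2 : X1 + Z ≤ X2 + (F + 1) * Z := by
    have e2 : 2 * F * (2 * Real.exp (-M)) ≤ F * (Z / 4) := by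
      have e3 := mul_le_mul_of_nonneg_left c5 hF0
      linarith only [e3, mul_nonneg hF0 hZ0]
    have e4 : 0 ≤ F * Z := mul_nonneg hF0 hZ0
    linarith only [r1, e2, e4]
  have hNe : 0 ≤ (N : ℝ) ^ ε₀ := Real.rpow_nonneg k5.le _
  have hN1 : 1 ≤ (N : ℝ) ^ ε₀ := Real.one_le_rpow k4 hε₀
  have p3 : (N : ℝ) ^ (1 + ε₀ - K') = N * ((N : ℝ) ^ ε₀ * Z) := by
    rw [hZ, ← Real.rpow_add k5]
    nth_rewrite 2 [← Real.rpow_one (N : ℝ)]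
    rw [← Real.rpow_add k5]
    congr 1
    ring
  rw [p3]
  have s1 : G * B * ((N : ℝ) ^ ε₀ * (X1 + Z)) ≤ G * B * ((N : ℝ) ^ ε₀ * (X2 + (F + 1) * Z)) :=
    mul_le_mul_of_nonneg_left (mul_le_mul_of_nonneg_left p2 hNe) (mul_nonneg hG0 hB0)
  have s2 : G * (Real.exp (4 * B) * (Real.exp ((N : ℝ) ^ (εM / 2)) * (2 * Real.exp (-(5 * M0))) + Real.exp (-X))) * (2 * F) ≤
      G * (Z / 8) * (2 * F) :=
    mul_le_mul_of_nonneg_right (mul_le_mul_of_nonneg_left p1 hG0) (by positivity)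
  have s9 : 2 * F * (G * (2 * B * X3 + B * X4)) ≤ 2 * F * (G * (Z / 8)) :=
    mul_le_mul_of_nonneg_left (mul_le_mul_of_nonneg_left p4 hG0) (by positivity)
  have s3 := mul_le_mul_of_nonneg_left (add_le_add (add_le_add s1 s2) s9) (by positivity : 0 ≤ 2 * Mb)
  refine s3.trans ?_
  have s4 : B * ((N : ℝ) ^ ε₀ * ((F + 1) * Z)) ≤ N * ((N : ℝ) ^ ε₀ * ((F + 1) * Z)) :=
    mul_le_mul_of_nonneg_right c6 (by positivity)
  have s5 : Z * F ≤ N * ((N : ℝ) ^ ε₀ * ((F + 1) * Z)) := by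
    have e1 : Z * F ≤ (F + 1) * Z := by linarith only [mul_comm F Z, hZ0]
    have e2 : (F + 1) * Z ≤ (N : ℝ) ^ ε₀ * ((F + 1) * Z) := le_mul_of_one_le_left (by positivity) hN1
    have e3 : (N : ℝ) ^ ε₀ * ((F + 1) * Z) ≤ N * ((N : ℝ) ^ ε₀ * ((F + 1) * Z)) := le_mul_of_one_le_left (by positivity) k4
    linarith only [e1, e2, e3]
  have s6 := mul_le_mul_of_nonneg_left s4 (mul_nonneg hMb hG0)
  have s7 := mul_le_mul_of_nonneg_left s5 (mul_nonneg hMb hG0)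
  have s8 : 2 * Mb * (G * B * ((N : ℝ) ^ ε₀ * (X2 + (F + 1) * Z)) + G * (Z / 8) * (2 * F) + 2 * F * (G * (Z / 8))) =
      2 * Mb * G * B * (N : ℝ) ^ ε₀ * X2 + (2 * (Mb * G * (B * ((N : ℝ) ^ ε₀ * ((F + 1) * Z)))) + (Mb * G * (Z * F))) := by ring
  rw [s8]
  have s10 : 0 ≤ Mb * G * (N * ((N : ℝ) ^ ε₀ * ((F + 1) * Z))) := by positivity
  linarith only [s6, s7, s10]

end

end Pool.Agent.W_7d29a1_C0.EvT50
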