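import Pool.Agent.W_7d29a1_C0.GSP65

/-!
MP_7d29a1_pr, [C0] (helper65): EXCHANGE OF ONE SIDE OF TWO REPLICAS AT A MEETING.

Two replicas `S`, `S'` with the same outside of a block which have a common position at a row of `[i1, i2]` exchange their pieces
before (`exR`) or behind (`exL`) it: the pair `A S`, `B S'` (`A` an event behind, `B` an event before the meeting) becomes
`A S`, `B S`, told from ONE path. `exchR`, `exchL`: `EE[A S B S'] ≤ E[A B] + EE[A S B S' NI i1 i2]`: either both events are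
events of one path, or the two replicas have one more loop over `[i1, i2]`. Any weights of the class `AxR`, `AxL` (log weights,
functionals of windows off `[i1, i2]`).
-/

set_option autoImplicit false
set_option linter.unusedSectionVars false

namespace Pool.Agent.W_7d29a1_C0.GS65

open Finset MeasureTheory Pool.Agent.W_7d29a1_F Pool.Agent.W_7d29a1_X Pool.Agent.W_7d29a1_C0.Mod92
open Pool.Agent.W_7d29a1_C0.Swap57 Pool.Agent.W_7d29a1_C0.E4T32
open Pool.W7d29a1.C0 (gz gm lse gz_pos gz_ne gm_nonneg gm_mono)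
open Pool.W7d29a1.C0.VT31

noncomputable section

/-! ### An exchange map, abstract -/

section Abs

variable {X : Type*} [Fintype X] [Nonempty X] {Y : Type*} [DecidableEq Y]

open Classical in
/-- **Exchange of one observable between two replicas of one fibre.** -/
theorem exch_abs (w : X → ℝ) (p : X → Y) (T : X → X → Prop) (σ : X → X → X) (hT : ∀ S S', T S S' → T (σ S S') (σ S' S))
    (hs : ∀ S S', T S S' → T S' S) (hi : ∀ S S', T S S' → σ (σ S S') (σ S' S) = S)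
    (hp : ∀ S S', p S = p S' → T S S' → p (σ S S') = p S)
    (hw : ∀ S S', T S S' → w (σ S S') + w (σ S' S) = w S + w S') {A B : X → ℝ} (hA : ∀ S S', T S S' → A (σ S S') = A S)
    (hB : ∀ S S', T S S' → B (σ S S') = B S') (x : X) :
    cE2 w p (fun S S' => if T S S' then A S * B S' else 0) x x = cE2 w p (fun S S' => if T S S' then A S * B S else 0) x x := by
  have e0 : ∀ K : X → X → ℝ, cE2 w p K x x = (∑ q : X × X, (if p q.1 = p x ∧ p q.2 = p x then
      Real.exp (w q.1) * Real.exp (w q.2) * K q.1 q.2 else 0)) / (fz w p x * fz w p x) := by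
    intro K
    have h1 : (∑ q : X × X, (if p q.1 = p x ∧ p q.2 = p x then Real.exp (w q.1) * Real.exp (w q.2) * K q.1 q.2 else 0)) =
        ∑ S, ∑ S', (if p S = p x ∧ p S' = p x then Real.exp (w S) * Real.exp (w S') * K S S' else 0) := by
      rw [← univ_product_univ, sum_product]
    rw [h1]
    unfold cE2 cE
    rw [eq_comm, ← div_div, sum_div]
    congr 1
    refine sum_congr rfl fun S _ => ?_
    by_cases h : p S = p x
    · rw [if_pos h, ← mul_div_assoc, mul_sum]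
      congr 1
      refine sum_congr rfl fun S' _ => ?_
      by_cases h' : p S' = p x
      · rw [if_pos ⟨h, h'⟩, if_pos h']
        ring
      · rw [if_neg fun h2 => h' h2.2, if_neg h', mul_zero]
    · rw [if_neg h, div_eq_zero_iff]
      exact Or.inl (sum_eq_zero fun S' _ => if_neg fun h2 => h h2.1)
  rw [e0, e0]
  congr 1
  -- the involution
  set τ : X × X → X × X := fun q => if T q.1 q.2 ∧ p q.1 = p x ∧ p q.2 = p x then (σ q.1 q.2, σ q.2 q.1) else q with hτ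
  have key : ∀ q : X × X, τ (τ q) = q := by
    intro q
    by_cases h : T q.1 q.2 ∧ p q.1 = p x ∧ p q.2 = p x
    · have e1 : τ q = (σ q.1 q.2, σ q.2 q.1) := by rw [hτ]; exact if_pos h
      have h2 : T (τ q).1 (τ q).2 ∧ p (τ q).1 = p x ∧ p (τ q).2 = p x := by
        rw [e1]
        refine ⟨hT _ _ h.1, ?_, ?_⟩
        · rw [hp _ _ (h.2.1.trans h.2.2.symm) h.1]
          exact h.2.1
        · show p (σ q.2 q.1) = p x
          rw [hp _ _ (h.2.2.trans h.2.1.symm) (hs _ _ h.1)]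
          exact h.2.2
      have e2 : τ (τ q) = (σ (τ q).1 (τ q).2, σ (τ q).2 (τ q).1) := by
        rw [show τ (τ q) = if T (τ q).1 (τ q).2 ∧ p (τ q).1 = p x ∧ p (τ q).2 = p x then
          (σ (τ q).1 (τ q).2, σ (τ q).2 (τ q).1) else τ q from rfl, if_pos h2]
      rw [e2, e1]
      show (σ (σ q.1 q.2) (σ q.2 q.1), σ (σ q.2 q.1) (σ q.1 q.2)) = q
      rw [hi _ _ h.1, hi _ _ (hs _ _ h.1)]
    · have e1 : τ q = q := by rw [hτ]; exact if_neg h
      rw [e1, e1]
  refine Fintype.sum_equiv (Function.Involutive.toPerm τ key) _ _ fun q => ?_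
  show _ = (if p (τ q).1 = p x ∧ p (τ q).2 = p x then
    Real.exp (w (τ q).1) * Real.exp (w (τ q).2) * (if T (τ q).1 (τ q).2 then A (τ q).1 * B (τ q).1 else 0) else 0)
  by_cases h : T q.1 q.2 ∧ p q.1 = p x ∧ p q.2 = p x
  · have e1 : τ q = (σ q.1 q.2, σ q.2 q.1) := by rw [hτ]; exact if_pos h
    rw [e1]
    show _ = (if p (σ q.1 q.2) = p x ∧ p (σ q.2 q.1) = p x then Real.exp (w (σ q.1 q.2)) * Real.exp (w (σ q.2 q.1)) *
      (if T (σ q.1 q.2) (σ q.2 q.1) then A (σ q.1 q.2) * B (σ q.1 q.2) else 0) else 0)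
    have p1 : p (σ q.1 q.2) = p x := by
      rw [hp _ _ (h.2.1.trans h.2.2.symm) h.1]
      exact h.2.1
    have p2 : p (σ q.2 q.1) = p x := by
      rw [hp _ _ (h.2.2.trans h.2.1.symm) (hs _ _ h.1)]
      exact h.2.2
    rw [if_pos h.2, if_pos h.1, if_pos ⟨p1, p2⟩, if_pos (hT _ _ h.1), hA _ _ h.1, hB _ _ h.1, ← Real.exp_add, ← Real.exp_add,
      hw _ _ h.1]
  · have e1 : τ q = q := by rw [hτ]; exact if_neg h
    rw [e1]
    by_cases h2 : p q.1 = p x ∧ p q.2 = p x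
    · have h3 : ¬T q.1 q.2 := fun h4 => h ⟨h4, h2⟩
      rw [if_pos h2, if_pos h2, if_neg h3, if_neg h3]
    · rw [if_neg h2, if_neg h2]

open Classical in
/-- The inequality: either both observables are read from one path, or the pair is not in `T`. -/
theorem exch_le (w : X → ℝ) (p : X → Y) (T : X → X → Prop) (σ : X → X → X) (hT : ∀ S S', T S S' → T (σ S S') (σ S' S))
    (hs : ∀ S S', T S S' → T S' S) (hi : ∀ S S', T S S' → σ (σ S S') (σ S' S) = S)
    (hp : ∀ S S', p S = p S' → T S S' → p (σ S S') = p S)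
    (hw : ∀ S S', T S S' → w (σ S S') + w (σ S' S) = w S + w S') {A B : X → ℝ} (hA : ∀ S S', T S S' → A (σ S S') = A S)
    (hB : ∀ S S', T S S' → B (σ S S') = B S') (hA0 : ∀ S, 0 ≤ A S) (hB0 : ∀ S, 0 ≤ B S) (x : X) :
    cE2 w p (fun S S' => A S * B S') x x ≤ cE w p (A * B) x +
      cE2 w p (fun S S' => A S * B S' * (if T S S' then 0 else 1)) x x := by
  have e1 : cE2 w p (fun S S' => A S * B S') x x = cE2 w p (fun S S' => if T S S' then A S * B S' else 0) x x +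
      cE2 w p (fun S S' => A S * B S' * (if T S S' then 0 else 1)) x x := by
    rw [← cE2_add]
    refine cE2_congr w p (fun S S' => ?_) x x
    split_ifs <;> ring
  have e2 := exch_abs w p T σ hT hs hi hp hw hA hB x
  have e3 : cE2 w p (fun S S' => if T S S' then A S * B S else 0) x x ≤ cE2 w p (fun S _ => A S * B S) x x := by
    refine cE2_mono w p (fun S S' => ?_) x x
    split_ifs
    · exact le_rfl
    · exact mul_nonneg (hA0 S) (hB0 S)
  have e4 : cE2 w p (fun S _ => A S * B S) x x = cE w p (A * B) x := by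
    unfold cE2
    congr 1
    funext S
    exact congrFun (cE_of_meas w (show Mp p (fun _ : X => A S * B S) from fun _ _ _ => rfl)) x
  rw [e1, e2]
  linarith

end Abs

/-! ### The exchange before a meeting and behind a meeting -/

variable {μ : Measure ℝ} {s : ℝ} {N : ℕ} {Q : Finset (Finset ℕ)} [SwQ Q] [Nonempty (Px Q)]

/-- Common positions at `c` and at a row of `[i1, i2]`. -/
def MR (c i1 i2 : ℕ) (S S' : Px Q) : Prop := Eqp S S' c ∧ ∃ i, i1 ≤ i ∧ i ≤ i2 ∧ Eqp S S' i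

omit [SwQ Q] [Nonempty (Px Q)] in
theorem MR_symm {c i1 i2 : ℕ} {S S' : Px Q} (h : MR c i1 i2 S S') : MR c i1 i2 S' S := by
  unfold MR at h ⊢
  rw [Eqp_symm S S']
  exact h

omit [SwQ Q] [Nonempty (Px Q)] in
theorem tF_MR {c i1 i2 : ℕ} {S S' : Px Q} (h : MR c i1 i2 S S') :
    i1 ≤ tF i1 S S' ∧ tF i1 S S' ≤ i2 ∧ Eqp S S' (tF i1 S S') := by
  obtain ⟨_, i, h1, h2, h3⟩ := h
  have h4 : (i : ℕ) ∈ {i | i1 ≤ i ∧ Eqp S S' i} := ⟨h1, h3⟩
  have h5 := Nat.sInf_mem ⟨i, h4⟩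
  exact ⟨h5.1, (Nat.sInf_le h4).trans h2, h5.2⟩

omit [SwQ Q] [Nonempty (Px Q)] in
theorem uF_MR {c i1 i2 : ℕ} {S S' : Px Q} (h : MR c i1 i2 S S') :
    i1 ≤ uF i2 S S' ∧ uF i2 S S' ≤ i2 ∧ Eqp S S' (uF i2 S S') := by
  obtain ⟨_, i, h1, h2, h3⟩ := h
  have h4 : (i : ℕ) ∈ {i | i ≤ i2 ∧ Eqp S S' i} := ⟨h2, h3⟩
  have hb : BddAbove {i | i ≤ i2 ∧ Eqp S S' i} := ⟨i2, fun j hj => hj.1⟩
  have h5 := Nat.sSup_mem ⟨i, h4⟩ hb
  exact ⟨h1.trans (le_csSup hb h4), h5.1, h5.2⟩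

/-- `S` with the piece of `S'` between `c` and the first common position after `i1`. -/
def exR (c i1 : ℕ) (S S' : Px Q) : Px Q := swP c (tF i1 S S') S S'

/-- `S` with the piece of `S'` between the last common position before `i2` and `d`. -/
def exL (i2 d : ℕ) (S S' : Px Q) : Px Q := swP (uF i2 S S') d S S'

/-- The class of weights for `exR`. -/
def AxR (c i1 i2 : ℕ) (w : Px Q → ℝ) : Prop := ∀ (S S' : Px Q) (u : ℕ), i1 ≤ u → u ≤ i2 → Eqp S S' c → Eqp S S' u →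
  w (swP c u S S') + w (swP c u S' S) = w S + w S'

/-- The class of weights for `exL`. -/
def AxL (i1 i2 d : ℕ) (w : Px Q → ℝ) : Prop := ∀ (S S' : Px Q) (t : ℕ), i1 ≤ t → t ≤ i2 → Eqp S S' t → Eqp S S' d →
  w (swP t d S S') + w (swP t d S' S) = w S + w S'

theorem AxR_lw (η : Env) {c i1 i2 : ℕ} (h : c ≤ i1) : AxR (Q := Q) c i1 i2 (lw μ s η N Q) :=
  fun _ _ _ h1 _ hc hu => lw_swP η (h.trans h1) hc hu

theorem AxL_lw (η : Env) {i1 i2 d : ℕ} (h : i2 ≤ d) : AxL (Q := Q) i1 i2 d (lw μ s η N Q) :=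
  fun _ _ _ _ h2 ht hd => lw_swP η (h2.trans h) ht hd

omit [Nonempty (Px Q)] in
theorem AxR.add {c i1 i2 : ℕ} {w w' : Px Q → ℝ} (h : AxR c i1 i2 w) (h' : AxR c i1 i2 w') : AxR c i1 i2 (w + w') :=
  fun S S' u h1 h2 hc hu => by
    have e1 := h S S' u h1 h2 hc hu
    have e2 := h' S S' u h1 h2 hc hu
    simp only [Pi.add_apply]
    linarith

omit [Nonempty (Px Q)] in
theorem AxR.smul {c i1 i2 : ℕ} {w : Px Q → ℝ} (h : AxR c i1 i2 w) (r : ℝ) : AxR c i1 i2 (r • w) :=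
  fun S S' u h1 h2 hc hu => by
    have e1 := h S S' u h1 h2 hc hu
    simp only [Pi.smul_apply, smul_eq_mul]
    linear_combination r * e1

omit [Nonempty (Px Q)] in
theorem AxL.add {i1 i2 d : ℕ} {w w' : Px Q → ℝ} (h : AxL i1 i2 d w) (h' : AxL i1 i2 d w') : AxL i1 i2 d (w + w') :=
  fun S S' u h1 h2 hc hu => by
    have e1 := h S S' u h1 h2 hc hu
    have e2 := h' S S' u h1 h2 hc hu
    simp only [Pi.add_apply]
    linarith

omit [Nonempty (Px Q)] in
theorem AxL.smul {i1 i2 d : ℕ} {w : Px Q → ℝ} (h : AxL i1 i2 d w) (r : ℝ) : AxL i1 i2 d (r • w) :=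
  fun S S' u h1 h2 hc hu => by
    have e1 := h S S' u h1 h2 hc hu
    simp only [Pi.smul_apply, smul_eq_mul]
    linear_combination r * e1

/-- The positions of the exchanged path. -/
theorem ps_swP_out {t u : ℕ} {S S' : Px Q} (htu : t ≤ u) (ht : Eqp S S' t) (hu : Eqp S S' u) {i : ℕ} (hi : i ≤ t ∨ u ≤ i) :
    ps (swP t u S S') i = ps S i := by
  unfold ps
  rw [swP_val htu ht hu]
  rcases hi with hi | hi
  · exact pos_swp_le _ _ hi
  · exact pos_swp_ge htu hi ht hu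

/-- A functional of a window inside of the exchanged rows, before or behind them. -/
theorem Lk.swP_in {al be t u : ℕ} {g : Px Q → ℝ} (hg : Lk al be g) (h1 : t ≤ al) (h2 : be ≤ u) (htu : t ≤ u) {S S' : Px Q}
    (ht : Eqp S S' t) (hu : Eqp S S' u) : g (swP t u S S') = g S' :=
  hg _ _ fun _ hi hi' => ps_swP_mid htu ht hu (h1.trans hi) (hi'.trans h2)

theorem Lk.swP_out {al be t u : ℕ} {g : Px Q → ℝ} (hg : Lk al be g) (h : be ≤ t ∨ u ≤ al) (htu : t ≤ u) {S S' : Px Q}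
    (ht : Eqp S S' t) (hu : Eqp S S' u) : g (swP t u S S') = g S :=
  hg _ _ fun _ hi hi' => ps_swP_out htu ht hu (h.elim (fun h => Or.inl (hi'.trans h)) fun h => Or.inr (h.trans hi))

theorem Lk.AxR {al be c i1 i2 : ℕ} {g : Px Q → ℝ} (hg : Lk al be g) (hc : c ≤ i1)
    (h : (c ≤ al ∧ be ≤ i1) ∨ be ≤ c ∨ i2 ≤ al) : AxR c i1 i2 g := by
  intro S S' u h1 h2 e1 e2
  have hcu := hc.trans h1
  have f1 := Eq.symm e1
  have f2 := Eq.symm e2
  rcases h with ⟨h3, h4⟩ | h3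
  · rw [Lk.swP_in hg h3 (h4.trans h1) hcu e1 e2, Lk.swP_in hg h3 (h4.trans h1) hcu f1 f2, add_comm]
  · have h5 : be ≤ c ∨ u ≤ al := h3.elim Or.inl fun h => Or.inr (h2.trans h)
    rw [Lk.swP_out hg h5 hcu e1 e2, Lk.swP_out hg h5 hcu f1 f2]

theorem Lk.AxL {al be i1 i2 d : ℕ} {g : Px Q → ℝ} (hg : Lk al be g) (hd : i2 ≤ d)
    (h : (i2 ≤ al ∧ be ≤ d) ∨ be ≤ i1 ∨ d ≤ al) : AxL i1 i2 d g := by
  intro S S' t h1 h2 e1 e2
  have htd := h2.trans hd
  have f1 := Eq.symm e1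
  have f2 := Eq.symm e2
  rcases h with ⟨h3, h4⟩ | h3
  · rw [Lk.swP_in hg (h2.trans h3) h4 htd e1 e2, Lk.swP_in hg (h2.trans h3) h4 htd f1 f2, add_comm]
  · have h5 : be ≤ t ∨ d ≤ al := h3.elim (fun h => Or.inl (h.trans h1)) Or.inr
    rw [Lk.swP_out hg h5 htd e1 e2, Lk.swP_out hg h5 htd f1 f2]

section ExR

variable {c i1 i2 : ℕ} {S S' : Px Q}

theorem Eqp_exR (hc : c ≤ i1) (h : MR c i1 i2 S S') : Eqp (exR c i1 S S') (exR c i1 S' S) = Eqp S S' := by
  unfold exR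
  rw [tF_symm i1 S S']
  exact Eqp_swP (hc.trans (tF_MR h).1) h.1 (tF_MR h).2.2

theorem MR_exR (hc : c ≤ i1) (h : MR c i1 i2 S S') : MR c i1 i2 (exR c i1 S S') (exR c i1 S' S) := by
  unfold MR
  rw [Eqp_exR hc h]
  exact h

theorem exR_exR (hc : c ≤ i1) (h : MR c i1 i2 S S') : exR c i1 (exR c i1 S S') (exR c i1 S' S) = S := by
  have e1 : tF i1 (exR c i1 S S') (exR c i1 S' S) = tF i1 S S' := by
    unfold tF
    rw [Eqp_exR hc h]
  have e : exR c i1 (exR c i1 S S') (exR c i1 S' S) =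
      swP c (tF i1 (exR c i1 S S') (exR c i1 S' S)) (exR c i1 S S') (exR c i1 S' S) := rfl
  rw [e, e1]
  unfold exR
  rw [tF_symm i1 S S']
  exact swP_swP (hc.trans (tF_MR h).1) h.1 (tF_MR h).2.2

theorem Eqp_exL {d : ℕ} (hd : i2 ≤ d) (h : MR d i1 i2 S S') : Eqp (exL i2 d S S') (exL i2 d S' S) = Eqp S S' := by
  unfold exL
  rw [uF_symm i2 S S']
  exact Eqp_swP ((uF_MR h).2.1.trans hd) (uF_MR h).2.2 h.1

theorem MR_exL {d : ℕ} (hd : i2 ≤ d) (h : MR d i1 i2 S S') : MR d i1 i2 (exL i2 d S S') (exL i2 d S' S) := by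
  unfold MR
  rw [Eqp_exL hd h]
  exact h

theorem exL_exL {d : ℕ} (hd : i2 ≤ d) (h : MR d i1 i2 S S') : exL i2 d (exL i2 d S S') (exL i2 d S' S) = S := by
  have e1 : uF i2 (exL i2 d S S') (exL i2 d S' S) = uF i2 S S' := by
    unfold uF
    rw [Eqp_exL hd h]
  have e : exL i2 d (exL i2 d S S') (exL i2 d S' S) =
      swP (uF i2 (exL i2 d S S') (exL i2 d S' S)) d (exL i2 d S S') (exL i2 d S' S) := rfl
  rw [e, e1]
  unfold exL
  rw [uF_symm i2 S S']
  exact swP_swP ((uF_MR h).2.1.trans hd) (uF_MR h).2.2 h.1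

end ExR

/-- `A` does not look at the rows strictly inside of `(c, i)`. -/
def Ou (c i : ℕ) (A : Px Q → ℝ) : Prop := ∀ S S' : Px Q, (∀ k, k ≤ c ∨ i ≤ k → ps S k = ps S' k) → A S = A S'

omit [SwQ Q] [Nonempty (Px Q)] in
open Classical in
theorem NI_eq {i1 i2 c : ℕ} {S S' : Px Q} (hc : Eqp S S' c) : NI i1 i2 S S' = if MR c i1 i2 S S' then 0 else 1 := by
  by_cases h : MR c i1 i2 S S'
  · have e : NI i1 i2 S S' = 0 := by
      unfold NI
      obtain ⟨_, i, h1, h2, h3⟩ := h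
      exact if_neg fun h4 => h4 i h1 h2 h3
    rw [if_pos h, e]
  · have e : NI i1 i2 S S' = 1 := by
      unfold NI
      exact if_pos fun k h1 h2 he => h ⟨hc, k, h1, h2, he⟩
    rw [if_neg h, e]

/-- **Exchange before a meeting**, replicas given the outside of the block `[c, d)`: `A` does not look at the rows inside of `(c, i2)`,
`B` looks at the rows `[c, i1]` only. -/
theorem exchR {c i1 i2 d : ℕ} (hc : c ≤ i1) (hd : i2 ≤ d) {w : Px Q → ℝ} (hw : AxR c i1 i2 w) {A B : Px Q → ℝ} (hA : Ou c i2 A)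
    (hB : Lk c i1 B) (hA0 : ∀ S, 0 ≤ A S) (hB0 : ∀ S, 0 ≤ B S) (x : Px Q) :
    cE2 w (pJ c d) (fun S S' => A S * B S') x x ≤ cE w (pJ c d) (A * B) x +
      cE2 w (pJ c d) (fun S S' => A S * B S' * NI i1 i2 S S') x x := by
  classical
  have key := exch_le w (pJ c d) (MR c i1 i2) (exR c i1) (fun S S' h => MR_exR hc h) (fun S S' h => MR_symm h)
    (fun S S' h => exR_exR hc h)
    (fun S S' _ h => pJ_swP (c := c) (d := d) le_rfl (hc.trans (tF_MR h).1) ((tF_MR h).2.1.trans hd) h.1 (tF_MR h).2.2)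
    (fun S S' h => by
      have e := hw S S' (tF i1 S S') (tF_MR h).1 (tF_MR h).2.1 h.1 (tF_MR h).2.2
      unfold exR
      rw [tF_symm i1 S S']
      exact e)
    (A := A) (B := B)
    (fun S S' h => hA _ _ fun k hk => ps_swP_out (hc.trans (tF_MR h).1) h.1 (tF_MR h).2.2
      (hk.elim Or.inl fun h2 => Or.inr ((tF_MR h).2.1.trans h2)))
    (fun S S' h => Lk.swP_in hB le_rfl (tF_MR h).1 (hc.trans (tF_MR h).1) h.1 (tF_MR h).2.2) hA0 hB0 x
  refine key.trans (add_le_add le_rfl ?_)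
  unfold cE2
  refine le_of_eq (cE_congr_fib fun S hS => cE_congr_fib fun S' hS' => ?_)
  have hcc : Eqp S S' c := by
    show ps S c = ps S' c
    exact (ps_of_le hS le_rfl).trans (ps_of_le hS' le_rfl).symm
  show A S * B S' * (if MR c i1 i2 S S' then 0 else 1) = A S * B S' * NI i1 i2 S S'
  rw [NI_eq hcc]

/-- **Exchange behind a meeting**: `A` does not look at the rows inside of `(i1, d)`, `B` looks at the rows `[i2, d]` only. -/
theorem exchL {c i1 i2 d : ℕ} (hc : c ≤ i1) (hd : i2 ≤ d) {w : Px Q → ℝ} (hw : AxL i1 i2 d w) {A B : Px Q → ℝ} (hA : Ou i1 d A)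
    (hB : Lk i2 d B) (hA0 : ∀ S, 0 ≤ A S) (hB0 : ∀ S, 0 ≤ B S) (x : Px Q) :
    cE2 w (pJ c d) (fun S S' => A S * B S') x x ≤ cE w (pJ c d) (A * B) x +
      cE2 w (pJ c d) (fun S S' => A S * B S' * NI i1 i2 S S') x x := by
  classical
  have key := exch_le w (pJ c d) (MR d i1 i2) (exL i2 d) (fun S S' h => MR_exL hd h) (fun S S' h => MR_symm h)
    (fun S S' h => exL_exL hd h)
    (fun S S' _ h => pJ_swP (c := c) (d := d) (hc.trans (uF_MR h).1) ((uF_MR h).2.1.trans hd) le_rfl (uF_MR h).2.2 h.1)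
    (fun S S' h => by
      have e := hw S S' (uF i2 S S') (uF_MR h).1 (uF_MR h).2.1 (uF_MR h).2.2 h.1
      unfold exL
      rw [uF_symm i2 S S']
      exact e)
    (A := A) (B := B)
    (fun S S' h => hA _ _ fun k hk => ps_swP_out ((uF_MR h).2.1.trans hd) (uF_MR h).2.2 h.1
      (hk.elim (fun h2 => Or.inl (h2.trans (uF_MR h).1)) Or.inr))
    (fun S S' h => Lk.swP_in hB (uF_MR h).2.1 le_rfl ((uF_MR h).2.1.trans hd) (uF_MR h).2.2 h.1) hA0 hB0 x
  refine key.trans (add_le_add le_rfl ?_)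
  unfold cE2
  refine le_of_eq (cE_congr_fib fun S hS => cE_congr_fib fun S' hS' => ?_)
  have hcc : Eqp S S' d := by
    show ps S d = ps S' d
    exact (ps_of_ge hS le_rfl).trans (ps_of_ge hS' le_rfl).symm
  show A S * B S' * (if MR d i1 i2 S S' then 0 else 1) = A S * B S' * NI i1 i2 S S'
  rw [NI_eq hcc]

/-- **Exchange before a meeting**, two free replicas: `A` does not look at the rows before `i2`. -/
theorem exchR_free {i1 i2 : ℕ} {w : Px Q → ℝ} (hw : AxR 0 i1 i2 w) {A B : Px Q → ℝ} (hA : Ou 0 i2 A)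
    (hB : Lk 0 i1 B) (hA0 : ∀ S, 0 ≤ A S) (hB0 : ∀ S, 0 ≤ B S) :
    gm2 w (fun S S' => A S * B S') ≤ gm w (A * B) + gm2 w (fun S S' => A S * B S' * NI i1 i2 S S') := by
  classical
  obtain ⟨x⟩ := (inferInstance : Nonempty (Px Q))
  have key := exch_le w (fun _ : Px Q => ()) (MR 0 i1 i2) (exR 0 i1) (fun S S' h => MR_exR (Nat.zero_le _) h)
    (fun S S' h => MR_symm h) (fun S S' h => exR_exR (Nat.zero_le _) h) (fun _ _ _ _ => rfl)
    (fun S S' h => by
      have e := hw S S' (tF i1 S S') (tF_MR h).1 (tF_MR h).2.1 h.1 (tF_MR h).2.2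
      unfold exR
      rw [tF_symm i1 S S']
      exact e)
    (A := A) (B := B)
    (fun S S' h => hA _ _ fun k hk => ps_swP_out (Nat.zero_le _) h.1 (tF_MR h).2.2
      (hk.elim Or.inl fun h2 => Or.inr ((tF_MR h).2.1.trans h2)))
    (fun S S' h => Lk.swP_in hB le_rfl (tF_MR h).1 (Nat.zero_le _) h.1 (tF_MR h).2.2) hA0 hB0 x
  rw [gm2_eq, gm2_eq, gm_eq_cE] at key
  refine key.trans (add_le_add le_rfl (le_of_eq ?_))
  unfold gm2
  congr 1
  funext S
  congr 1
  funext S'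
  have hcc : Eqp S S' 0 := by
    show ps S 0 = ps S' 0
    rw [ps_zero, ps_zero]
  show A S * B S' * (if MR 0 i1 i2 S S' then 0 else 1) = A S * B S' * NI i1 i2 S S'
  rw [NI_eq hcc]

/-- **Exchange behind a meeting**, two free replicas with the same end (pinned): `A` does not look at the rows behind `i1`. -/
theorem exchL_free {i1 i2 d : ℕ} (hd : i2 ≤ d) (hpin : ∀ S S' : Px Q, Eqp S S' d) {w : Px Q → ℝ} (hw : AxL i1 i2 d w)
    {A B : Px Q → ℝ} (hA : Ou i1 d A) (hB : Lk i2 d B) (hA0 : ∀ S, 0 ≤ A S) (hB0 : ∀ S, 0 ≤ B S) :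
    gm2 w (fun S S' => A S * B S') ≤ gm w (A * B) + gm2 w (fun S S' => A S * B S' * NI i1 i2 S S') := by
  classical
  obtain ⟨x⟩ := (inferInstance : Nonempty (Px Q))
  have key := exch_le w (fun _ : Px Q => ()) (MR d i1 i2) (exL i2 d) (fun S S' h => MR_exL hd h)
    (fun S S' h => MR_symm h) (fun S S' h => exL_exL hd h) (fun _ _ _ _ => rfl)
    (fun S S' h => by
      have e := hw S S' (uF i2 S S') (uF_MR h).1 (uF_MR h).2.1 (uF_MR h).2.2 h.1
      unfold exL
      rw [uF_symm i2 S S']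
      exact e)
    (A := A) (B := B)
    (fun S S' h => hA _ _ fun k hk => ps_swP_out ((uF_MR h).2.1.trans hd) (uF_MR h).2.2 h.1
      (hk.elim (fun h2 => Or.inl (h2.trans (uF_MR h).1)) Or.inr))
    (fun S S' h => Lk.swP_in hB (uF_MR h).2.1 le_rfl ((uF_MR h).2.1.trans hd) (uF_MR h).2.2 h.1) hA0 hB0 x
  rw [gm2_eq, gm2_eq, gm_eq_cE] at key
  refine key.trans (add_le_add le_rfl (le_of_eq ?_))
  unfold gm2
  congr 1
  funext S
  congr 1
  funext S'
  show A S * B S' * (if MR d i1 i2 S S' then 0 else 1) = A S * B S' * NI i1 i2 S S'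
  rw [NI_eq (hpin S S')]

end

end Pool.Agent.W_7d29a1_C0.GS65
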