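import Pool.Agent.W_7d29a1_C0.Join41P
import Pool.Agent.W_7d29a1_C0.Exch65

/-!
CURV0 (MP_7d29a1_pr), GS one kick: THE MASS OF THE OTHER ROW, TOLD FROM THE BASE PATH (helper41, on helper52's 78142 (M2)).
`F x = cE2 w pk' NMA x x` is a mass of two replicas `z`, `z'` given the outside of a block. `Ex41 w c d F M`: for every weight `G ≥ 0`
which does not look inside of `(c, d)`, `gm (G F) ≤ ∑ t, gm (G (M t))`, `M t` masses of a competitor of `x` itself.
* `exchF_right41`, `exchF_left41`: `F = cE2 w (pJ c' d') (NI i i2)`: exchange `x` with `z'` from a meeting on: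
  `gm (G F) ≤ gm (G mass [i, i1]) + gm (G mass [i1, i2])`; `G` does not look inside of `(i, d')`, resp. `(c', i2)`.
* `ex_right41`, `ex_left41`: the same block `B' = [c', d')`, the row `k` with block `[e1, e2]` and window `[al, be]`: four masses.
* `ex_other41`: another block `B'_k`: two masses (`ex_exact41`: one, exactly). `ex_one41`: `F ≤ 1`.
-/

set_option autoImplicit false
set_option linter.unusedSectionVars false
set_option linter.unusedVariables false

namespace Pool.W7d29a1.C0.H41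

open Finset
open Pool.W7d29a1.C0 (gz gm gz_pos gz_ne gm_nonneg gm_mono gm_const gm_add gm_smul)
open Pool.W7d29a1.C0.VT31
open Pool.Agent.W_7d29a1_C0.Swap57 (cE2 cE2_mul cE2_mono cE2_add cE_comm gm2)
open Pool.Agent.W_7d29a1_C0.E4T32 (cE_congr_fib)
open Pool.Agent.W_7d29a1_F Pool.Agent.W_7d29a1_X Pool.Agent.W_7d29a1_C0.Mod92
open Pool.Agent.W_7d29a1_C0.NM82 (mem_iff_ps Lk_mono)
open Pool.Agent.W_7d29a1_C0.Swap57 (SwQ Lk Wk NM NM_nonneg NM_le NI NI_nonneg NI_mono)
open Pool.Agent.W_7d29a1_C0.GS65 (Ou AxL AxR exchL exchR)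

noncomputable section

section Abs

variable {X : Type*} [Fintype X] [Nonempty X] {Y : Type*} [DecidableEq Y]

/-- A base path and its fibre. -/
theorem gm_fib41 (w : X → ℝ) {p : X → Y} {Φ : X → X → ℝ} (h : ∀ S, Mp p fun x => Φ x S) :
    gm w (fun x => cE w p (Φ x) x) = gm w (fun S => Φ S S) := by
  rw [← gm_cE w p fun S => Φ S S]
  congr 1
  funext x
  exact cE_congr_fib fun S hS => h S x S hS.symm

/-- A product of a function of one replica and of one of the other. -/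
theorem cE2_prod41 (w : X → ℝ) (p : X → Y) (A B : X → ℝ) (x : X) :
    cE2 w p (fun S S' => A S * B S') x x = cE w p A x * cE w p B x := by
  unfold cE2
  have e1 : (fun S => cE w p (fun S' => A S * B S') x) = cE w p B x • A := by
    funext S
    have e := congrFun (cE_smul w p (A S) B) x
    rw [Pi.smul_apply, smul_eq_mul] at e ⊢
    rw [mul_comm]
    exact e
  rw [e1, cE_smul, Pi.smul_apply, smul_eq_mul, mul_comm]

end Abs

variable {Q : Finset (Finset ℕ)} [Nonempty (Px Q)] {w : Px Q → ℝ} {c' d' c d i i1 i2 : ℕ}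

omit [Nonempty (Px Q)] in
/-- A function of the outside of the block is a functional of the positions out of the open block. -/
theorem Ou_of_Mp41 (hcd : c ≤ d) {A : Px Q → ℝ} (h : Mp (pJ c d) A) : Ou c d A := by
  intro S S' hp
  refine h S S' ?_
  unfold pJ
  have h1 : S.1 \ Ico c d = S'.1 \ Ico c d := by
    ext k
    simp only [Finset.mem_sdiff, Finset.mem_Ico, not_and, not_lt]
    constructor
    · rintro ⟨h1, h2⟩
      refine ⟨?_, h2⟩
      rw [mem_iff_ps] at h1 ⊢
      by_cases hk : c ≤ k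
      · rw [← hp (k + 1) (Or.inr ((h2 hk).trans (Nat.le_succ k))), ← hp k (Or.inr (h2 hk))]
        exact h1
      · rw [← hp (k + 1) (Or.inl (by omega)), ← hp k (Or.inl (by omega))]
        exact h1
    · rintro ⟨h1, h2⟩
      refine ⟨?_, h2⟩
      rw [mem_iff_ps] at h1 ⊢
      by_cases hk : c ≤ k
      · rw [hp (k + 1) (Or.inr ((h2 hk).trans (Nat.le_succ k))), hp k (Or.inr (h2 hk))]
        exact h1
      · rw [hp (k + 1) (Or.inl (by omega)), hp k (Or.inl (by omega))]
        exact h1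
  have h2 : (S.1 ∩ Ico c d).card = (S'.1 ∩ Ico c d).card := by
    have e : ∀ T : Px Q, ps T d = ps T c + ((T.1 ∩ Ico c d).card : ℤ) := fun T => by
      unfold ps
      exact Pool.Agent.W_7d29a1_C0.Swap57.pos_split T.1 hcd
    have e1 := e S
    have e2 := e S'
    rw [hp d (Or.inr le_rfl), hp c (Or.inl le_rfl)] at e1
    have e3 : ((S.1 ∩ Ico c d).card : ℤ) = ((S'.1 ∩ Ico c d).card : ℤ) := by linarith
    exact_mod_cast e3
  rw [h1, h2]

omit [Nonempty (Px Q)] in
theorem NI_symm41 (i j : ℕ) (S S' : Px Q) : NI i j S S' = NI i j S' S := by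
  unfold NI
  have e : (∀ k, i ≤ k → k ≤ j → ps S k ≠ ps S' k) ↔ ∀ k, i ≤ k → k ≤ j → ps S' k ≠ ps S k :=
    forall_congr' fun k => forall_congr' fun _ => forall_congr' fun _ => ne_comm
  simp only [e]

/-- The mass of the competitors of `x` which avoid it on `[i, j]`, given the outside of `[c', d')`. -/
def ms41 (w : Px Q → ℝ) (c' d' i j : ℕ) (x : Px Q) : ℝ := cE w (pJ c' d') (NI i j x) x

theorem ms_nonneg41 (w : Px Q → ℝ) (c' d' i j : ℕ) (x : Px Q) : 0 ≤ ms41 w c' d' i j x :=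
  cE_nonneg w _ (NI_nonneg i j x) x

theorem ms_le_one41 (w : Px Q → ℝ) (c' d' i j : ℕ) (x : Px Q) : ms41 w c' d' i j x ≤ 1 := by
  refine (cE_mono w _ (g := fun _ => 1) (NI_le_one41 i j x) x).trans_eq ?_
  rw [cE_one]

/-- The step common to both sides: `hex` is the exchange inequality for the base path `x0`. -/
theorem exchF_core41 {j1 j2 k1 k2 : ℕ} (hk : ∀ S S' : Px Q, NI i i2 S S' ≤ NI k1 k2 S S') {G : Px Q → ℝ} (G0 : ∀ x, 0 ≤ G x)
    (hex : ∀ x0 : Px Q, cE2 w (pJ c' d') (fun S S' => G S * cE w (pJ c' d') (fun z => NI k1 k2 z S') x0) x0 x0 ≤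
      cE w (pJ c' d') (G * fun S' => cE w (pJ c' d') (fun z => NI k1 k2 z S') x0) x0 +
        cE2 w (pJ c' d') (fun S S' => G S * cE w (pJ c' d') (fun z => NI k1 k2 z S') x0 * NI j1 j2 S S') x0 x0) :
    gm w (fun x => G x * cE2 w (pJ c' d') (NI i i2) x x) ≤
      gm w (fun x => G x * ms41 w c' d' j1 j2 x) + gm w (fun x => G x * ms41 w c' d' k1 k2 x) := by
  set κ : Px Q → Px Q → ℝ := fun x0 S' => cE w (pJ c' d') (fun z => NI k1 k2 z S') x0 with hκ
  have κ0 : ∀ x0 S', 0 ≤ κ x0 S' := fun x0 S' => cE_nonneg w _ (fun z => NI_nonneg k1 k2 z S') x0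
  have κ1 : ∀ x0 S', κ x0 S' ≤ 1 := fun x0 S' => by
    refine (cE_mono w _ (g := fun _ => 1) (fun z => NI_le_one41 k1 k2 z S') x0).trans_eq ?_
    rw [cE_one]
  have κp : ∀ S', Mp (pJ c' d') fun x0 => κ x0 S' := fun S' x x' h => cE_meas w _ _ x x' h
  set M : Px Q → ℝ := fun x => cE w (pJ c' d') (κ x) x with hM
  have Mm : Mp (pJ c' d') M := by
    intro x x' h
    show cE w (pJ c' d') (κ x) x = cE w (pJ c' d') (κ x') x'
    have e : κ x = κ x' := funext fun S' => κp S' x x' h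
    rw [e]
    exact cE_meas w _ _ x x' h
  -- the pair mass
  have s1 : ∀ x, cE2 w (pJ c' d') (NI i i2) x x ≤ M x := fun x => by
    refine (cE2_mono w _ hk x x).trans_eq ?_
    show cE w (pJ c' d') (fun z => cE w (pJ c' d') (NI k1 k2 z) x) x = cE w (pJ c' d') (κ x) x
    exact cE_comm w (pJ c' d') (pJ c' d') (NI k1 k2) x x
  have s2 : gm w (fun x => G x * M x) = gm w (fun x0 => cE2 w (pJ c' d') (fun S S' => G S * κ x0 S') x0 x0) := by
    have a := gm_mul_cE w Mm G
    have b : gm w (fun x => G x * M x) = gm w (M * G) := by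
      congr 1
      funext x
      rw [Pi.mul_apply, mul_comm]
    rw [b, ← a]
    congr 1
    funext x0
    rw [Pi.mul_apply, cE2_prod41, mul_comm]
  have s3 : gm w (fun x0 => cE w (pJ c' d') (G * κ x0) x0) = gm w (fun x => G x * ms41 w c' d' k1 k2 x) := by
    have a := gm_fib41 w (p := pJ c' d') (Φ := fun x0 S => G S * κ x0 S) fun S x x' h => by
      show G S * κ x S = G S * κ x' S
      rw [show κ x S = κ x' S from κp S x x' h]
    refine (Eq.trans ?_ a).trans ?_
    · rfl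
    · congr 1
      funext S
      show G S * cE w (pJ c' d') (fun z => NI k1 k2 z S) S = G S * cE w (pJ c' d') (NI k1 k2 S) S
      congr 2
      funext z
      exact NI_symm41 k1 k2 z S
  have s4 : gm w (fun x0 => cE2 w (pJ c' d') (fun S S' => G S * κ x0 S' * NI j1 j2 S S') x0 x0) ≤
      gm w (fun x => G x * ms41 w c' d' j1 j2 x) := by
    have a : ∀ x0, cE2 w (pJ c' d') (fun S S' => G S * κ x0 S' * NI j1 j2 S S') x0 x0 ≤
        cE w (pJ c' d') (fun S => G S * ms41 w c' d' j1 j2 S) x0 := fun x0 => by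
      refine (cE2_mono w _ (K' := fun S S' => G S * NI j1 j2 S S') (fun S S' => ?_) x0 x0).trans_eq ?_
      · have h1 := mul_le_mul_of_nonneg_left (κ1 x0 S') (G0 S)
        have h2 := mul_le_mul_of_nonneg_right h1 (NI_nonneg j1 j2 S S')
        linarith
      · unfold cE2
        refine cE_congr_fib fun S hS => ?_
        have e := congrFun (cE_smul w (pJ c' d') (G S) (NI j1 j2 S)) x0
        rw [Pi.smul_apply, smul_eq_mul] at e
        refine Eq.trans e ?_
        unfold ms41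
        rw [cE_meas w (pJ c' d') (NI j1 j2 S) x0 S hS.symm]
    refine (gm_mono w a).trans_eq ?_
    exact gm_cE w (pJ c' d') fun S => G S * ms41 w c' d' j1 j2 S
  have s5 : gm w (fun x => G x * cE2 w (pJ c' d') (NI i i2) x x) ≤ gm w (fun x => G x * M x) :=
    gm_mono w fun x => mul_le_mul_of_nonneg_left (s1 x) (G0 x)
  have s6 : gm w (fun x0 => cE2 w (pJ c' d') (fun S S' => G S * κ x0 S') x0 x0) ≤
      gm w ((fun x0 => cE w (pJ c' d') (G * κ x0) x0) +
        fun x0 => cE2 w (pJ c' d') (fun S S' => G S * κ x0 S' * NI j1 j2 S S') x0 x0) := gm_mono w hex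
  rw [gm_add, s3] at s6
  rw [s2] at s5
  linarith

variable [SwQ Q]

/-- **THE EXCHANGE, `k` ON THE RIGHT**: `G` does not look inside of `(i, d')`. -/
theorem exchF_right41 (hc : c' ≤ i) (h1 : i ≤ i1) (h2 : i1 ≤ i2) (hd : i2 ≤ d') (hw : AxL i i1 d' w) {G : Px Q → ℝ}
    (G0 : ∀ x, 0 ≤ G x) (hG : Mp (pJ i d') G) :
    gm w (fun x => G x * cE2 w (pJ c' d') (NI i i2) x x) ≤
      gm w (fun x => G x * ms41 w c' d' i i1 x) + gm w (fun x => G x * ms41 w c' d' i1 i2 x) := by
  refine exchF_core41 (fun S S' => NI_mono h1 le_rfl S S') G0 fun x0 => ?_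
  refine exchL hc (h2.trans hd) hw (Ou_of_Mp41 (h1.trans (h2.trans hd)) hG) (fun S S' h => ?_) G0
    (fun S' => cE_nonneg w _ (fun z => NI_nonneg i1 i2 z S') x0) x0
  show cE w (pJ c' d') (fun z => NI i1 i2 z S) x0 = cE w (pJ c' d') (fun z => NI i1 i2 z S') x0
  have e : (fun z => NI i1 i2 z S) = fun z => NI i1 i2 z S' :=
    funext fun z => Lk_NI41 i1 i2 z S S' fun k hk hk' => h k hk (hk'.trans hd)
  rw [e]

/-- **THE EXCHANGE, `k` ON THE LEFT**: `G` does not look inside of `(c', i2)`. -/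
theorem exchF_left41 (hc : c' ≤ i) (h1 : i ≤ i1) (h2 : i1 ≤ i2) (hd : i2 ≤ d') (hw : AxR c' i1 i2 w) {G : Px Q → ℝ}
    (G0 : ∀ x, 0 ≤ G x) (hG : Mp (pJ c' i2) G) :
    gm w (fun x => G x * cE2 w (pJ c' d') (NI i i2) x x) ≤
      gm w (fun x => G x * ms41 w c' d' i i1 x) + gm w (fun x => G x * ms41 w c' d' i1 i2 x) := by
  rw [add_comm]
  refine exchF_core41 (fun S S' => NI_mono le_rfl h2 S S') G0 fun x0 => ?_
  refine exchR (hc.trans h1) hd hw (Ou_of_Mp41 (hc.trans (h1.trans h2)) hG) (fun S S' h => ?_) G0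
    (fun S' => cE_nonneg w _ (fun z => NI_nonneg i i1 z S') x0) x0
  show cE w (pJ c' d') (fun z => NI i i1 z S) x0 = cE w (pJ c' d') (fun z => NI i i1 z S') x0
  have e : (fun z => NI i i1 z S) = fun z => NI i i1 z S' :=
    funext fun z => Lk_NI41 i i1 z S S' fun k hk hk' => h k (hc.trans hk) hk'
  rw [e]

/-! ### The property -/

/-- For every weight `G ≥ 0` which does not look inside of `(c, d)`. -/
def Ex41 (w : Px Q → ℝ) (c d : ℕ) (F : Px Q → ℝ) {ι : Type*} [Fintype ι] (M : ι → Px Q → ℝ) : Prop :=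
  ∀ G : Px Q → ℝ, (∀ x, 0 ≤ G x) → Mp (pJ c d) G → gm w (fun x => G x * F x) ≤ ∑ t, gm w (fun x => G x * M t x)

variable {e1 l al be r e2 : ℕ} {NMA : Px Q → Px Q → ℝ}

/-- The masses of a list of intervals. -/
def MS41 (w : Px Q → ℝ) (c' d' : ℕ) {ι : Type*} (Iv : ι → ℕ × ℕ) (t : ι) (x : Px Q) : ℝ := ms41 w c' d' (Iv t).1 (Iv t).2 x

/-- **THE SAME BLOCK `B' = [c', d')`, THE ROW `k` ON THE RIGHT**: its block `[e1, e2]`, its window `[al, be]`. -/
theorem ex_right41 (hc : c' ≤ e1) (h1 : e1 ≤ l) (h2 : l ≤ al) (h3 : al ≤ be) (h4 : be ≤ r) (h5 : r ≤ e2) (hd : e2 ≤ d')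
    (hw : AxL e1 l d' w) (hw' : AxL be r d' w) (hN : ∀ z z', NMA z z' ≤ NM e1 al be e2 z z') :
    Ex41 w e1 d' (fun x => cE2 w (pJ c' d') NMA x x) (MS41 w c' d' ![(e1, l), (l, al), (be, r), (r, e2)]) := by
  intro G G0 hG
  have a1 := exchF_right41 hc h1 h2 (h3.trans (h4.trans (h5.trans hd))) hw G0 hG
  have a2 := exchF_right41 (hc.trans (h1.trans (h2.trans h3))) h4 h5 hd hw' G0
    (Mp.of_crs (crs_pJ (h1.trans (h2.trans h3)) le_rfl) hG)
  have a3 : gm w (fun x => G x * cE2 w (pJ c' d') NMA x x) ≤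
      gm w (fun x => G x * cE2 w (pJ c' d') (NI e1 al) x x) + gm w (fun x => G x * cE2 w (pJ c' d') (NI be e2) x x) := by
    rw [← gm_add]
    refine gm_mono w fun x => ?_
    rw [Pi.add_apply, ← mul_add, ← cE2_add]
    exact mul_le_mul_of_nonneg_left (cE2_mono w _ (fun z z' => (hN z z').trans (NM_le e1 al be e2 z z')) x x) (G0 x)
  rw [Fin.sum_univ_four]
  show _ ≤ gm w (fun x => G x * ms41 w c' d' e1 l x) + gm w (fun x => G x * ms41 w c' d' l al x) +
    gm w (fun x => G x * ms41 w c' d' be r x) + gm w (fun x => G x * ms41 w c' d' r e2 x)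
  linarith

/-- **THE SAME BLOCK `B'`, THE ROW `k` ON THE LEFT.** -/
theorem ex_left41 (hc : c' ≤ e1) (h1 : e1 ≤ l) (h2 : l ≤ al) (h3 : al ≤ be) (h4 : be ≤ r) (h5 : r ≤ e2) (hd : e2 ≤ d')
    (hw : AxR c' l al w) (hw' : AxR c' r e2 w) (hN : ∀ z z', NMA z z' ≤ NM e1 al be e2 z z') :
    Ex41 w c' e2 (fun x => cE2 w (pJ c' d') NMA x x) (MS41 w c' d' ![(e1, l), (l, al), (be, r), (r, e2)]) := by
  intro G G0 hG
  have a1 := exchF_left41 hc h1 h2 (h3.trans (h4.trans (h5.trans hd))) hw G0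
    (Mp.of_crs (crs_pJ le_rfl (h3.trans (h4.trans h5))) hG)
  have a2 := exchF_left41 (hc.trans (h1.trans (h2.trans h3))) h4 h5 hd hw' G0 hG
  have a3 : gm w (fun x => G x * cE2 w (pJ c' d') NMA x x) ≤
      gm w (fun x => G x * cE2 w (pJ c' d') (NI e1 al) x x) + gm w (fun x => G x * cE2 w (pJ c' d') (NI be e2) x x) := by
    rw [← gm_add]
    refine gm_mono w fun x => ?_
    rw [Pi.add_apply, ← mul_add, ← cE2_add]
    exact mul_le_mul_of_nonneg_left (cE2_mono w _ (fun z z' => (hN z z').trans (NM_le e1 al be e2 z z')) x x) (G0 x)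
  rw [Fin.sum_univ_four]
  show _ ≤ gm w (fun x => G x * ms41 w c' d' e1 l x) + gm w (fun x => G x * ms41 w c' d' l al x) +
    gm w (fun x => G x * ms41 w c' d' be r x) + gm w (fun x => G x * ms41 w c' d' r e2 x)
  linarith

/-- The pair mass given the block is the mass of one competitor of `x`, for a weight which does not look inside of the block. -/
theorem ex_exact41 {ck dk : ℕ} (w : Px Q → ℝ) (NMA : Px Q → Px Q → ℝ) {G : Px Q → ℝ} (hG : Mp (pJ ck dk) G) :
    gm w (fun x => G x * cE2 w (pJ ck dk) NMA x x) = gm w (fun x => G x * cE w (pJ ck dk) (NMA x) x) := by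
  have a := gm_mul_cE w hG fun z => cE w (pJ ck dk) (NMA z) z
  refine Eq.trans ?_ a
  congr 1
  funext x
  rw [Pi.mul_apply]
  congr 1
  unfold cE2
  exact cE_congr_fib fun z hz => cE_meas w (pJ ck dk) (NMA z) x z hz.symm

/-- **ANOTHER BLOCK `B'_k = [ck, dk)`**: the row `k` has the window `[al, be]` in its block `[e1, e2]`. -/
theorem ex_other41 {ck dk : ℕ} (hN : ∀ z z', NMA z z' ≤ NM e1 al be e2 z z') :
    Ex41 w ck dk (fun x => cE2 w (pJ ck dk) NMA x x) (MS41 w ck dk ![(e1, al), (be, e2)]) := by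
  intro G G0 hG
  rw [ex_exact41 w NMA hG, Fin.sum_univ_two]
  show _ ≤ gm w (fun x => G x * ms41 w ck dk e1 al x) + gm w (fun x => G x * ms41 w ck dk be e2 x)
  rw [← gm_add]
  refine gm_mono w fun x => ?_
  rw [Pi.add_apply, ← mul_add]
  refine mul_le_mul_of_nonneg_left ?_ (G0 x)
  have e := cE_mono w (pJ ck dk) (f := NMA x) (g := NI e1 al x + NI be e2 x)
    (fun z => (hN x z).trans (NM_le e1 al be e2 x z)) x
  rwa [cE_add, Pi.add_apply] at e

/-- `F ≤ 1` (the same block `B`). -/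
theorem ex_one41 {F : Px Q → ℝ} (F1 : ∀ x, F x ≤ 1) (c d : ℕ) : Ex41 w c d F (fun (_ : Unit) (_ : Px Q) => (1 : ℝ)) := by
  intro G G0 _
  rw [Fintype.sum_unique]
  exact gm_mono w fun x => mul_le_mul_of_nonneg_left (F1 x) (G0 x)

end

end Pool.W7d29a1.C0.H41
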