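import Pool.Agent.W_7d29a1_C0.FarB13
import Pool.Agent.W_7d29a1_HZ.Z86_NumWX
import Pool.Agent.W_7d29a1_HZ.NS
import Pool.Agent.W_7d29a1_HZ.ZE_PriceX
import Pool.Agent.W_7d29a1_Z.NumI77

/-!
C0, helper13: **FAR13.** `k + 1` own replicas and a new one, which at a time `i₀ ∈ [τ, τ + t / 4]` has the distance at least
`L ^ (-δ) wd' t` from ALL own replicas (on any side, also between them): the price is `L ^ ε / EE' t` against EVERY observable
`0 ≤ X ≤ 1` of the own replicas which does not see the rows on the left of the time (`rt = false`: rows `[1, τ + t / 4)`), or on its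
right (`rt = true`: rows `[τ, N)`). Several far replicas: by iteration (`far13_two`).
-/

set_option autoImplicit false

namespace Pool.Agent.W_7d29a1_C0.F13

open MeasureTheory ProbabilityTheory Filter Topology Finset
open Pool.Agent.W_7d29a1_F Pool.Agent.W_7d29a1_X Pool.Agent.W_7d29a1_H Pool.Agent.W_7d29a1_HZ
open Pool.Agent.W_7d29a1_HS (In wd md)
open Pool.Agent.W_7d29a1_HZ.ZE
open Pool.Agent.W_7d29a1_HZ.R72 (FlatP)
open Pool.Agent.W_7d29a1_HZ.Z86 (Nm wd'_one_le)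
open Pool.Agent.W_7d29a1_HZ.Z86.GX (WT numWX)
open Pool.Agent.W_7d29a1_ZE (Win Br)
open Pool.Agent.W_7d29a1_Z17 (card_grid)
open Pool.Agent.W_7d29a1_C0.Mod92 (Px Pn lw pos_card ne_Pn)
open Pool.W7d29a1.C0 (rep gz gm gz_pos gz_ne rep_cons rep_mono rep_smul)
open scoped ENNReal

noncomputable section

variable {μ : Measure ℝ} {s : ℝ} {N y : ℕ}

/-! ### Path events -/

open scoped Classical in
/-- A path event of one replica. -/
theorem rep_path0 [IsProbabilityMeasure μ] (hy : y ≤ N) (A : Finset ℕ → Prop) {p : ℝ} (hp : 0 ≤ p)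
    (h : P1 μ s N (y : ℤ) (fun _ S => A S) ≤ ENNReal.ofReal p) {k : ℕ} (j : Fin (k + 1)) :
    ∫ η, rep (k + 1) (lw μ s η N (Pn N y)) (fun x => if A (x j).1 then 1 else 0) ∂(law μ) ≤ p := by
  have e1 : PR μ s N (y : ℤ) (fun _ _ => 1) (fun _ S => A S) = P1 μ s N (y : ℤ) (fun _ S => A S) := by
    unfold PR P1
    simp only [mul_one]
  have hms : Ms fun (_ : Env) S => A S := fun S => by
    by_cases hA : A S <;> simp [hA]
  rw [← e1, PR_eq (fun _ => measurable_const) (fun _ _ => zero_le_one) (fun _ _ => le_rfl) hms,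
    ENNReal.ofReal_le_ofReal_iff hp] at h
  refine le_trans (le_of_eq ?_) h
  refine integral_congr_ae (Filter.Eventually.of_forall fun η => ?_)
  show rep (k + 1) (lw μ s η N (Pn N y)) (fun x => if A (x j).1 then 1 else 0) = _
  have e2 : ∑ S ∈ (range N).powerset, (if A S then (1 : ℝ) else 0) * (gp μ s η N (y : ℤ) S * 1) =
      ∑ S ∈ (range N).powerset, gp μ s η N (y : ℤ) S * (if A S then (1 : ℝ) else 0) := sum_congr rfl fun S _ => by ring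
  rw [rep_coord hy η j (fun S : Px (Pn N y) => if A S.1 then (1 : ℝ) else 0)]
  refine Eq.symm (Eq.trans ?_ (sum_gp_Px η fun S => if A S then (1 : ℝ) else 0))
  rw [← e2]

theorem rep_path [IsProbabilityMeasure μ] (hy : y ≤ N) (A : Finset ℕ → Prop) [DecidablePred A] {p : ℝ} (hp : 0 ≤ p)
    (h : P1 μ s N (y : ℤ) (fun _ S => A S) ≤ ENNReal.ofReal p) {k : ℕ} (j : Fin (k + 1)) :
    ∫ η, rep (k + 1) (lw μ s η N (Pn N y)) (fun x => if A (x j).1 then 1 else 0) ∂(law μ) ≤ p := by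
  convert rep_path0 hy A hp h j

/-! ### The event -/

/-- The new replica `x 0` has at a time of `[τ, τ + t / 4]` the distance at least `L ^ (-δ) wd' t` from all own replicas. -/
def FarAt (μ : Measure ℝ) (s : ℝ) (L : ℕ) (δ : ℝ) (N t τ : ℕ) {k : ℕ} (x : Fin (k + 2) → Finset ℕ) : Prop :=
  ∃ i₀ : ℕ, τ ≤ i₀ ∧ i₀ ≤ τ + t / 4 ∧ i₀ ≤ N ∧ ∀ m : Fin (k + 1),
    (L : ℝ) ^ (-δ) * wd' μ s t ≤ ((|pos (x 0) i₀ - pos (x m.succ) i₀| : ℤ) : ℝ)

/-- The paths of the replicas. -/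
def pt {m : ℕ} (x : Fin m → Px (Pn N y)) : Fin m → Finset ℕ := fun i => (x i).1

/-- The closeness to the line and the divisibility. -/
def Nr (μ : Measure ℝ) (s : ℝ) (W : WT) (sg Y : ℤ) (S : Finset ℕ) : Prop :=
  (((2 ^ W.1 : ℕ)) : ℤ) ∣ Y ∧ |sg * (pos S W.2.1 - md μ s W.2.1) - Y| ≤ ((2 ^ (W.1 + 5) : ℕ) : ℤ)

open scoped Classical in
/-- The number of the lines close to a path. -/
theorem count_lines (G : Finset ℤ) (W : WT) (S : Finset ℕ) :
    ∑ p ∈ (({1, -1} : Finset ℤ) ×ˢ G), (if Nr μ s W p.1 p.2 S then (1 : ℝ) else 0) ≤ 132 := by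
  rw [← sum_filter, sum_const, nsmul_eq_mul, mul_one]
  have h2 : (({1, -1} : Finset ℤ) ×ˢ G).filter (fun p => Nr μ s W p.1 p.2 S) ⊆
      ((G.filter fun Y => (((2 ^ W.1 : ℕ)) : ℤ) ∣ Y ∧ |(pos S W.2.1 - md μ s W.2.1) - Y| ≤ ((2 ^ (W.1 + 5) : ℕ) : ℤ)).image
        fun Y => ((1 : ℤ), Y)) ∪
      ((G.filter fun Y => (((2 ^ W.1 : ℕ)) : ℤ) ∣ Y ∧ |(-(pos S W.2.1 - md μ s W.2.1)) - Y| ≤ ((2 ^ (W.1 + 5) : ℕ) : ℤ)).image
        fun Y => ((-1 : ℤ), Y)) := by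
    intro p hp
    rw [mem_filter, mem_product, mem_insert, mem_singleton] at hp
    obtain ⟨⟨h3, h4⟩, h5, h6⟩ := hp
    rw [mem_union, mem_image, mem_image]
    rcases h3 with h3 | h3
    · left
      refine ⟨p.2, ?_, Prod.ext h3.symm rfl⟩
      rw [mem_filter]
      refine ⟨h4, h5, ?_⟩
      rw [h3, one_mul] at h6
      exact h6
    · right
      refine ⟨p.2, ?_, Prod.ext h3.symm rfl⟩
      rw [mem_filter]
      refine ⟨h4, h5, ?_⟩
      rw [h3, neg_one_mul] at h6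
      exact h6
  have h3 := (card_le_card h2).trans ((card_union_le _ _).trans (add_le_add card_image_le card_image_le))
  have h4 := card_grid G (Nat.one_le_two_pow (n := W.1)) (pos S W.2.1 - md μ s W.2.1) (2 ^ (W.1 + 5))
  have h5 := card_grid G (Nat.one_le_two_pow (n := W.1)) (-(pos S W.2.1 - md μ s W.2.1)) (2 ^ (W.1 + 5))
  have h7 : (((2 ^ (W.1 + 5) : ℕ)) : ℝ) / ((2 ^ W.1 : ℕ) : ℝ) = 32 := by
    have h8 : (0 : ℝ) < 2 ^ W.1 := by positivity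
    push_cast
    rw [div_eq_iff h8.ne', pow_add]
    ring
  rw [h7] at h4 h5
  have h6 : (((({1, -1} : Finset ℤ) ×ˢ G).filter (fun p => Nr μ s W p.1 p.2 S)).card : ℝ) ≤
      ((G.filter fun Y => (((2 ^ W.1 : ℕ)) : ℤ) ∣ Y ∧ |(pos S W.2.1 - md μ s W.2.1) - Y| ≤ ((2 ^ (W.1 + 5) : ℕ) : ℤ)).card : ℝ) +
      ((G.filter fun Y => (((2 ^ W.1 : ℕ)) : ℤ) ∣ Y ∧ |(-(pos S W.2.1 - md μ s W.2.1)) - Y| ≤ ((2 ^ (W.1 + 5) : ℕ) : ℤ)).card : ℝ) := by
    exact_mod_cast h3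
  linarith

open scoped Classical in
/-- **The pointwise inequality.** -/
theorem far_point (rt : Bool) {L t τ k : ℕ} {δ ε₁ : ℝ} {n1 : ℕ → ℕ} {e0 E : ℕ} {p : Par} (hp : POk μ s t n1 e0 E p)
    (hFl : ∀ S, S ⊆ range N → NSp μ s L N ε₁ S → FlatP μ s N e0 E n1 S)
    (hE : ∀ S S' : Finset ℕ, S ⊆ range N → S' ⊆ range N → NSp μ s L N ε₁ S → NSp μ s L N ε₁ S' → ∀ i ≤ N,
      |pos S i - pos S' i| < (2 : ℤ) ^ (E + 2))
    (he : (2 : ℝ) ^ (e0 + 4) ≤ (L : ℝ) ^ (-δ) * wd' μ s t) (hE3 : 2 ^ (E + 3) ≤ L) (hm0 : ∀ j, 0 ≤ md μ s j)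
    (hm1 : ∀ j, md μ s j ≤ j) (hNL : N ≤ L) {X : Env → (Fin (k + 1) → Px (Pn N y)) → ℝ} (h0 : ∀ η x, 0 ≤ X η x)
    (h1 : ∀ η x, X η x ≤ 1) (η : Env) (x : Fin (k + 2) → Px (Pn N y)) :
    (if FarAt μ s L δ N t τ (pt x) then 1 else 0) * X η (Fin.tail x) ≤
      (∑ j : Fin (k + 2), (if ¬ NSp μ s L N ε₁ (x j).1 then (1 : ℝ) else 0)) + (if ¬ TVp μ s N p (x 0).1 then (1 : ℝ) else 0) +
        ∑ W ∈ WL rt N t τ n1 e0 E p.a, ∑ q ∈ (({1, -1} : Finset ℤ) ×ˢ Icc (-(5 * (L : ℤ))) (5 * L)), ∑ l : Fin (k + 1),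
          (if cE μ s (winE N (y : ℤ) p.a W N q.1 q.2) p.L p.e p.C p.i₀ p.i₁ (pos (x 0).1) then 1 else 0) *
            PsL μ s (winE N (y : ℤ) p.a W N q.1 q.2) (Nr μ s W q.1 q.2) X l η (Fin.tail x) := by
  have hX0 := h0 η (Fin.tail x)
  have hX1 := h1 η (Fin.tail x)
  have s1 : 0 ≤ ∑ j : Fin (k + 2), (if ¬ NSp μ s L N ε₁ (x j).1 then (1 : ℝ) else 0) :=
    sum_nonneg fun j _ => by split_ifs <;> norm_num
  have s2 : (0 : ℝ) ≤ (if ¬ TVp μ s N p (x 0).1 then (1 : ℝ) else 0) := by split_ifs <;> norm_num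
  have t0 : ∀ (W : WT) (q : ℤ × ℤ) (l : Fin (k + 1)),
      0 ≤ (if cE μ s (winE N (y : ℤ) p.a W N q.1 q.2) p.L p.e p.C p.i₀ p.i₁ (pos (x 0).1) then (1 : ℝ) else 0) *
            PsL μ s (winE N (y : ℤ) p.a W N q.1 q.2) (Nr μ s W q.1 q.2) X l η (Fin.tail x) := fun W q l =>
    mul_nonneg (by split_ifs <;> norm_num) (PsL_nonneg h0 l η _)
  have s3 := sum_nonneg (s := WL rt N t τ n1 e0 E p.a) fun W _ => sum_nonneg
    (s := (({1, -1} : Finset ℤ) ×ˢ Icc (-(5 * (L : ℤ))) (5 * L))) fun q _ => sum_nonneg (s := (univ : Finset (Fin (k + 1)))) fun l _ => t0 W q l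
  by_cases hF : FarAt μ s L δ N t τ (pt x)
  swap
  · rw [if_neg hF, zero_mul]
    linarith
  rw [if_pos hF, one_mul]
  by_cases hN : ∀ j, NSp μ s L N ε₁ (x j).1
  swap
  · push Not at hN
    obtain ⟨j, hj⟩ := hN
    have : (1 : ℝ) ≤ ∑ j : Fin (k + 2), (if ¬ NSp μ s L N ε₁ (x j).1 then (1 : ℝ) else 0) := by
      refine le_trans ?_ (single_le_sum (f := fun j : Fin (k + 2) => if ¬ NSp μ s L N ε₁ (x j).1 then (1 : ℝ) else 0)
        (fun j _ => by split_ifs <;> norm_num) (mem_univ j))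
      rw [if_pos hj]
    linarith
  by_cases hT : TVp μ s N p (x 0).1
  swap
  · rw [if_pos hT] at s2 ⊢
    linarith
  -- the window
  obtain ⟨i₀, g1, g2, g3, g4⟩ := hF
  have hsub : ∀ j, (x j).1 ⊆ range N ∧ pos (x j).1 N = (y : ℤ) := fun j => mem_Pn.1 (x j).2
  obtain ⟨W, hW, sg, Y, l, hfar⟩ := far_window (μ := μ) (s := s) (N := N) (y := y) rt (x := pt x) (a := p.a) g1 g2 g3
    (fun m => by
      have := he.trans (g4 m)
      have h3 : (((2 : ℤ) ^ (e0 + 4) : ℤ) : ℝ) ≤ ((|pos (pt x 0) i₀ - pos (pt x m.succ) i₀| : ℤ) : ℝ) := by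
        push_cast at this ⊢
        exact this
      exact_mod_cast h3)
    (fun m => hE _ _ (hsub 0).1 (hsub m.succ).1 (hN 0) (hN m.succ) i₀ g3) (fun j => (hsub j).2)
    (fun j => hFl _ (hsub j).1 (hN j)) hp.an1
  have hG := (mem_WL.1 hW).2
  have hcE := cE_ofG hp hG hT hfar.inR hfar.mar (y : ℤ) N
  have hmem : (sg, Y) ∈ (({1, -1} : Finset ℤ) ×ˢ Icc (-(5 * (L : ℤ))) (5 * L)) := by
    rw [mem_product, mem_insert, mem_singleton, mem_Icc]
    refine ⟨hfar.sgn, ?_⟩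
    have h3 := abs_le.1 hfar.near
    have h4 := pos_nonneg (pt x l.succ) W.2.1
    have h5 := pos_le (pt x l.succ) W.2.1
    have h8 : ((2 ^ (W.1 + 5) : ℕ) : ℤ) ≤ 4 * L := by
      have h9 : 2 ^ (W.1 + 5) ≤ 4 * 2 ^ (E + 3) := by
        have : 2 ^ (W.1 + 5) ≤ 2 ^ (E + 5) := Nat.pow_le_pow_right (by norm_num) (by have := hG.le; omega)
        calc 2 ^ (W.1 + 5) ≤ 2 ^ (E + 5) := this
          _ = 4 * 2 ^ (E + 3) := by ring
      exact_mod_cast h9.trans (Nat.mul_le_mul_left 4 hE3)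
    have g5 := hm0 W.2.1
    have g6 := hm1 W.2.1
    have g7 : (W.2.1 : ℤ) ≤ L := by
      obtain ⟨⟨g, m, -, -, -, hWe⟩, -⟩ := mem_WL.1 hW
      have h9 : ∀ i ∈ W.2.2, 1 ≤ i ∧ i < N := hG.row
      have h10 := hG.ne
      obtain ⟨T, hT⟩ := h10
      have h11 := (mem_stv.1 hT).2.2 (mem_Icc.2 ⟨le_rfl, Nat.le_add_right _ _⟩)
      have h12 := (h9 T h11).2
      have h13 : W.2.1 ≤ T := by
        rw [hWe] at h11 ⊢
        exact (mem_Ico.1 h11).1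
      have : W.2.1 ≤ L := by omega
      exact_mod_cast this
    rcases hfar.sgn with h6 | h6
    · rw [h6] at h3
      constructor <;> linarith [h3.1, h3.2]
    · rw [h6] at h3
      constructor <;> linarith [h3.1, h3.2]
  have hPs : PsL μ s (winE N (y : ℤ) p.a W N sg Y) (Nr μ s W sg Y) X l η (Fin.tail x) = X η (Fin.tail x) := by
    unfold PsL
    rw [if_pos, if_pos, one_mul, one_mul]
    · refine ⟨⟨hfar.dvd, hfar.near⟩, fun i j hj hc => ?_⟩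
      exact hfar.out (l.succAbove i) j (winE_J _ _ _ _ _ _ _ hj) hc
    · intro i hi
      exact hfar.inL i (winE_J _ _ _ _ _ _ _ hi)
  have h3 : X η (Fin.tail x) ≤ ∑ W ∈ WL rt N t τ n1 e0 E p.a, ∑ q ∈ (({1, -1} : Finset ℤ) ×ˢ Icc (-(5 * (L : ℤ))) (5 * L)),
      ∑ l : Fin (k + 1), (if cE μ s (winE N (y : ℤ) p.a W N q.1 q.2) p.L p.e p.C p.i₀ p.i₁ (pos (x 0).1) then 1 else 0) *
            PsL μ s (winE N (y : ℤ) p.a W N q.1 q.2) (Nr μ s W q.1 q.2) X l η (Fin.tail x) := by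
    refine le_trans ?_ (single_le_sum (f := fun W => ∑ q ∈ (({1, -1} : Finset ℤ) ×ˢ Icc (-(5 * (L : ℤ))) (5 * L)),
      ∑ l : Fin (k + 1), (if cE μ s (winE N (y : ℤ) p.a W N q.1 q.2) p.L p.e p.C p.i₀ p.i₁ (pos (x 0).1) then 1 else 0) *
            PsL μ s (winE N (y : ℤ) p.a W N q.1 q.2) (Nr μ s W q.1 q.2) X l η (Fin.tail x))
      (fun W _ => sum_nonneg fun q _ => sum_nonneg fun l _ => t0 W q l) hW)
    refine le_trans ?_ (single_le_sum (f := fun q : ℤ × ℤ =>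
      ∑ l : Fin (k + 1), (if cE μ s (winE N (y : ℤ) p.a W N q.1 q.2) p.L p.e p.C p.i₀ p.i₁ (pos (x 0).1) then 1 else 0) *
            PsL μ s (winE N (y : ℤ) p.a W N q.1 q.2) (Nr μ s W q.1 q.2) X l η (Fin.tail x))
      (fun q _ => sum_nonneg fun l _ => t0 W q l) hmem)
    refine le_trans ?_ (single_le_sum (f := fun l : Fin (k + 1) =>
      (if cE μ s (winE N (y : ℤ) p.a W N sg Y) p.L p.e p.C p.i₀ p.i₁ (pos (x 0).1) then 1 else 0) *
            PsL μ s (winE N (y : ℤ) p.a W N sg Y) (Nr μ s W sg Y) X l η (Fin.tail x))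
      (fun l _ => t0 W (sg, Y) l) (mem_univ l))
    rw [hPs, if_pos hcE, one_mul]
  linarith

open scoped Classical in
/-- The sum over the windows and the lines. -/
theorem far_sum [IsProbabilityMeasure μ] (hy : y ≤ N) (rt : Bool) {L t τ k : ℕ} {δ ε₁ : ℝ} {n1 : ℕ → ℕ} {e0 E : ℕ} {p : Par}
    (hp : POk μ s t n1 e0 E p) (hFl : ∀ S, S ⊆ range N → NSp μ s L N ε₁ S → FlatP μ s N e0 E n1 S)
    (hE : ∀ S S' : Finset ℕ, S ⊆ range N → S' ⊆ range N → NSp μ s L N ε₁ S → NSp μ s L N ε₁ S' → ∀ i ≤ N,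
      |pos S i - pos S' i| < (2 : ℤ) ^ (E + 2))
    (he : (2 : ℝ) ^ (e0 + 4) ≤ (L : ℝ) ^ (-δ) * wd' μ s t) (hE3 : 2 ^ (E + 3) ≤ L) (hm0 : ∀ j, 0 ≤ md μ s j)
    (hm1 : ∀ j, md μ s j ≤ j) (hNL : N ≤ L) {z d M : ℝ} (hz : 0 ≤ z) (hd : 0 ≤ d) (hM : 1 ≤ M)
    (hT : TieInW μ s p N (y : ℤ) n1 e0 E z d) {p₁ p₂ : ℝ} (hp₁ : 0 ≤ p₁) (hp₂ : 0 ≤ p₂)
    (hns : P1 μ s N (y : ℤ) (fun _ S => ¬ NSp μ s L N ε₁ S) ≤ ENNReal.ofReal p₁)
    (htv : P1 μ s N (y : ℤ) (fun _ S => ¬ TVp μ s N p S) ≤ ENNReal.ofReal p₂)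
    {X : Env → (Fin (k + 1) → Px (Pn N y)) → ℝ} (hm : ∀ x, Measurable fun η => X η x) (h0 : ∀ η x, 0 ≤ X η x)
    (h1 : ∀ η x, X η x ≤ 1) (hoff : OffX (rowsB rt N t τ) X) :
    ∫ η, rep (k + 2) (lw μ s η N (Pn N y)) (fun x => (if FarAt μ s L δ N t τ (pt x) then 1 else 0) * X η (Fin.tail x)) ∂(law μ) ≤
      z * M * (132 * (k + 1) * (WL rt N t τ n1 e0 E p.a).card) * ∫ η, rep (k + 1) (lw μ s η N (Pn N y)) (X η) ∂(law μ) +
        (((k + 2) * p₁ + p₂) + (WL rt N t τ n1 e0 E p.a).card * ((2 * (10 * L + 1)) * ((k + 1) * (Real.exp (-M) + d)))) := by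
  obtain ⟨G, hG⟩ : ∃ G : Finset ℤ, G = Icc (-(5 * (L : ℤ))) (5 * L) := ⟨_, rfl⟩
  obtain ⟨Q, hQ⟩ : ∃ Q : Finset (ℤ × ℤ), Q = (({1, -1} : Finset ℤ) ×ˢ G) := ⟨_, rfl⟩
  obtain ⟨Ws, hWs⟩ : ∃ Ws, Ws = WL rt N t τ n1 e0 E p.a := ⟨_, rfl⟩
  obtain ⟨c, hc⟩ : ∃ c : WT → ℤ × ℤ → (Fin (k + 2) → Px (Pn N y)) → ℝ, c = fun W q x =>
    if cE μ s (winE N (y : ℤ) p.a W N q.1 q.2) p.L p.e p.C p.i₀ p.i₁ (pos (x 0).1) then 1 else 0 := ⟨_, rfl⟩
  have hc0 : ∀ W q x, 0 ≤ c W q x ∧ c W q x ≤ 1 := fun W q x => by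
    rw [hc]
    dsimp only
    split_ifs <;> norm_num
  obtain ⟨Ps, hPs⟩ : ∃ Ps : WT → ℤ × ℤ → Fin (k + 1) → Env → (Fin (k + 1) → Px (Pn N y)) → ℝ, Ps = fun W q l η T =>
    PsL μ s (winE N (y : ℤ) p.a W N q.1 q.2) (Nr μ s W q.1 q.2) X l η T := ⟨_, rfl⟩
  have hPm : ∀ W q l T, Measurable fun η => Ps W q l η T := fun W q l T => by
    rw [hPs]
    exact PsL_meas hm l T
  have hP0 : ∀ W q l η T, 0 ≤ Ps W q l η T := fun W q l η T => by
    rw [hPs]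
    exact PsL_nonneg h0 l η T
  have hP1 : ∀ W q l η T, Ps W q l η T ≤ 1 := fun W q l η T => by
    rw [hPs]
    exact (PsL_le_X h0 l η T).trans (h1 η T)
  have hcP0 : ∀ W q l η x, 0 ≤ c W q x * Ps W q l η (Fin.tail x) := fun W q l η x => mul_nonneg (hc0 W q x).1 (hP0 W q l η _)
  have hcP1 : ∀ W q l η x, c W q x * Ps W q l η (Fin.tail x) ≤ 1 := fun W q l η x =>
    mul_le_one₀ (hc0 W q x).2 (hP0 W q l η _) (hP1 W q l η _)
  -- integrability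
  have iF : Integrable (fun η => rep (k + 2) (lw μ s η N (Pn N y))
      (fun x => (if FarAt μ s L δ N t τ (pt x) then 1 else 0) * X η (Fin.tail x))) (law μ) :=
    rep_int hy (k + 2) (fun x => (hm (Fin.tail x)).const_mul _)
      (fun η x => mul_nonneg (by split_ifs <;> norm_num) (h0 η _))
      (fun η x => mul_le_one₀ (by split_ifs <;> norm_num) (h0 η _) (h1 η _))
  have iN : ∀ j : Fin (k + 2), Integrable (fun η => rep (k + 2) (lw μ s η N (Pn N y))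
      (fun x => if ¬ NSp μ s L N ε₁ (x j).1 then 1 else 0)) (law μ) := fun j =>
    rep_int hy (k + 2) (fun x => measurable_const) (fun η x => by split_ifs <;> norm_num) (fun η x => by split_ifs <;> norm_num)
  have iT : Integrable (fun η => rep (k + 2) (lw μ s η N (Pn N y))
      (fun x => if ¬ TVp μ s N p (x 0).1 then 1 else 0)) (law μ) :=
    rep_int hy (k + 2) (fun x => measurable_const) (fun η x => by split_ifs <;> norm_num) (fun η x => by split_ifs <;> norm_num)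
  have iP : ∀ W q l, Integrable (fun η => rep (k + 2) (lw μ s η N (Pn N y))
      (fun x => c W q x * Ps W q l η (Fin.tail x))) (law μ) := fun W q l =>
    rep_int hy (k + 2) (fun x => (hPm W q l (Fin.tail x)).const_mul _) (hcP0 W q l) (hcP1 W q l)
  have iP' : ∀ W q l, Integrable (fun η => rep (k + 1) (lw μ s η N (Pn N y)) (Ps W q l η)) (law μ) := fun W q l =>
    rep_int hy (k + 1) (hPm W q l) (hP0 W q l) (hP1 W q l)
  have hne : Nonempty (Px (Pn N y)) := ne_Pn hy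
  -- the quenched inequality
  have hq : ∀ η : Env, rep (k + 2) (lw μ s η N (Pn N y)) (fun x => (if FarAt μ s L δ N t τ (pt x) then 1 else 0) * X η (Fin.tail x)) ≤
      ((∑ j : Fin (k + 2), rep (k + 2) (lw μ s η N (Pn N y)) (fun x => if ¬ NSp μ s L N ε₁ (x j).1 then 1 else 0)) +
        rep (k + 2) (lw μ s η N (Pn N y)) (fun x => if ¬ TVp μ s N p (x 0).1 then 1 else 0)) +
        ∑ W ∈ Ws, ∑ q ∈ Q, ∑ l : Fin (k + 1), rep (k + 2) (lw μ s η N (Pn N y)) (fun x => c W q x * Ps W q l η (Fin.tail x)) := by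
    intro η
    have h2 := rep_mono (k + 2) (lw μ s η N (Pn N y)) (far_point (μ := μ) (s := s) rt (τ := τ) hp hFl hE he hE3 hm0 hm1 hNL h0 h1 η)
    refine h2.trans (le_of_eq ?_)
    rw [rep_add13, rep_add13, rep_finsum, rep_finsum]
    congr 1
    rw [hWs]
    refine sum_congr rfl fun W _ => ?_
    rw [rep_finsum, hQ, hG]
    refine sum_congr rfl fun q _ => ?_
    rw [rep_finsum, hc, hPs]
  -- the integral
  have i1 : Integrable (fun η => ∑ j : Fin (k + 2), rep (k + 2) (lw μ s η N (Pn N y))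
      (fun x => if ¬ NSp μ s L N ε₁ (x j).1 then 1 else 0)) (law μ) := integrable_finsetSum _ fun j _ => iN j
  have i2 : Integrable (fun η => ∑ W ∈ Ws, ∑ q ∈ Q, ∑ l : Fin (k + 1), rep (k + 2) (lw μ s η N (Pn N y))
      (fun x => c W q x * Ps W q l η (Fin.tail x))) (law μ) :=
    integrable_finsetSum _ fun W _ => integrable_finsetSum _ fun q _ => integrable_finsetSum _ fun l _ => iP W q l
  have hI := integral_mono (μ := law μ) iF ((i1.add iT).add i2) hq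
  refine hI.trans ?_
  rw [integral_add' (i1.add iT) i2, integral_add' i1 iT, integral_finsetSum _ fun j _ => iN j,
    integral_finsetSum _ fun W _ => integrable_finsetSum _ fun q _ => integrable_finsetSum _ fun l _ => iP W q l]
  have b1 : ∑ j : Fin (k + 2), ∫ η, rep (k + 2) (lw μ s η N (Pn N y)) (fun x => if ¬ NSp μ s L N ε₁ (x j).1 then 1 else 0) ∂(law μ) ≤
      (k + 2) * p₁ := by
    refine (sum_le_sum fun j _ => rep_path hy (fun S => ¬ NSp μ s L N ε₁ S) hp₁ hns j).trans (le_of_eq ?_)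
    rw [sum_const, card_univ, Fintype.card_fin, nsmul_eq_mul]
    push_cast
    ring
  have b2 : ∫ η, rep (k + 2) (lw μ s η N (Pn N y)) (fun x => if ¬ TVp μ s N p (x 0).1 then 1 else 0) ∂(law μ) ≤ p₂ :=
    rep_path hy (fun S => ¬ TVp μ s N p S) hp₂ htv 0
  have hzM : 0 ≤ z * M := mul_nonneg hz (by linarith)
  -- one line
  have b3 : ∀ W ∈ Ws, ∀ q ∈ Q, ∀ l : Fin (k + 1), ∫ η, rep (k + 2) (lw μ s η N (Pn N y)) (fun x => c W q x * Ps W q l η (Fin.tail x)) ∂(law μ) ≤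
      z * M * ∫ η, rep (k + 1) (lw μ s η N (Pn N y)) (Ps W q l η) ∂(law μ) + (Real.exp (-M) + d) := by
    intro W hW q hq l
    rw [hWs] at hW
    have hGW := (mem_WL.1 hW).2
    have hsg : q.1 = 1 ∨ q.1 = -1 := by
      rw [hQ, mem_product, mem_insert, mem_singleton] at hq
      exact hq.1
    have hJr : (winE N (y : ℤ) p.a W N q.1 q.2).J ⊆ W.2.2 := winE_J _ _ _ _ _ _ _
    have hTT := hT W hGW N M hM q.1 q.2 hsg k (RR μ s N y (winE N (y : ℤ) p.a W N q.1 q.2) (Nr μ s W q.1 q.2) X l)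
      (RR_ok hm h0 h1 l) (RR_blind (hoff.mono (hJr.trans (WL_rows hW))) l)
    rw [hc, hPs]
    exact one_line hy (V := winE N (y : ℤ) p.a W N q.1 q.2) rfl rfl rfl hzM hd (fun i hi => by
      have := hGW.row i (hJr hi)
      omega) hm h0 h1 l hTT
  have b4 : ∑ W ∈ Ws, ∫ η, ∑ q ∈ Q, ∑ l : Fin (k + 1), rep (k + 2) (lw μ s η N (Pn N y)) (fun x => c W q x * Ps W q l η (Fin.tail x)) ∂(law μ) ≤
      ∑ W ∈ Ws, (z * M * (132 * (k + 1)) * ∫ η, rep (k + 1) (lw μ s η N (Pn N y)) (X η) ∂(law μ) +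
        (2 * (10 * L + 1)) * ((k + 1) * (Real.exp (-M) + d))) := by
    refine sum_le_sum fun W hW => ?_
    rw [integral_finsetSum _ fun q _ => integrable_finsetSum _ fun l _ => iP W q l]
    have b5 : ∀ q ∈ Q, ∫ η, ∑ l : Fin (k + 1), rep (k + 2) (lw μ s η N (Pn N y)) (fun x => c W q x * Ps W q l η (Fin.tail x)) ∂(law μ) ≤
        z * M * (∫ η, ∑ l : Fin (k + 1), rep (k + 1) (lw μ s η N (Pn N y)) (Ps W q l η) ∂(law μ)) +
          (k + 1) * (Real.exp (-M) + d) := by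
      intro q hq
      rw [integral_finsetSum _ fun l _ => iP W q l, integral_finsetSum _ fun l _ => iP' W q l, mul_sum]
      refine (sum_le_sum fun l _ => b3 W hW q hq l).trans (le_of_eq ?_)
      rw [sum_add_distrib, sum_const, card_univ, Fintype.card_fin, nsmul_eq_mul]
      push_cast
      ring
    refine (sum_le_sum b5).trans ?_
    rw [sum_add_distrib, ← mul_sum, sum_const, nsmul_eq_mul]
    refine add_le_add ?_ ?_
    · rw [mul_assoc (z * M)]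
      refine mul_le_mul_of_nonneg_left ?_ hzM
      rw [← integral_finsetSum _ fun q _ => integrable_finsetSum _ fun l _ => iP' W q l, ← integral_const_mul]
      refine integral_mono (integrable_finsetSum _ fun q _ => integrable_finsetSum _ fun l _ => iP' W q l)
        ((rep_int hy (k + 1) hm h0 h1).const_mul _) fun η => ?_
      show ∑ q ∈ Q, ∑ l : Fin (k + 1), rep (k + 1) (lw μ s η N (Pn N y)) (Ps W q l η) ≤
        132 * (k + 1) * rep (k + 1) (lw μ s η N (Pn N y)) (X η)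
      rw [sum_comm]
      have b6 : ∀ l : Fin (k + 1), ∑ q ∈ Q, rep (k + 1) (lw μ s η N (Pn N y)) (Ps W q l η) ≤
          132 * rep (k + 1) (lw μ s η N (Pn N y)) (X η) := by
        intro l
        rw [← rep_finsum, ← rep_smul]
        refine rep_mono (k + 1) _ fun T => ?_
        have b7 : ∀ q ∈ Q, Ps W q l η T ≤ (if Nr μ s W q.1 q.2 (T l).1 then 1 else 0) * X η T := by
          intro q _
          rw [hPs]
          dsimp only
          unfold PsL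
          have := h0 η T
          by_cases hn : Nr μ s W q.1 q.2 (T l).1
          · rw [if_pos hn]
            split_ifs <;> linarith
          · rw [if_neg hn, zero_mul, if_neg (show ¬ (Nr μ s W q.1 q.2 (T l).1 ∧
              ∀ i : Fin k, Av μ s (winE N (y : ℤ) p.a W N q.1 q.2) (T (l.succAbove i)).1) from fun hcon => hn hcon.1), zero_mul, mul_zero]
        refine (sum_le_sum b7).trans ?_
        rw [← sum_mul]
        refine mul_le_mul_of_nonneg_right ?_ (h0 η T)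
        rw [hQ]
        exact count_lines G W (T l).1
      refine (sum_le_sum fun l _ => b6 l).trans (le_of_eq ?_)
      rw [sum_const, card_univ, Fintype.card_fin, nsmul_eq_mul]
      push_cast
      ring
    · refine mul_le_mul_of_nonneg_right ?_ (by positivity)
      have h4 : Q.card ≤ 2 * (10 * L + 1) := by
        rw [hQ, card_product, hG, Int.card_Icc]
        have h5 : ({1, -1} : Finset ℤ).card ≤ 2 := card_le_two
        have h6 : ((5 * L : ℤ) + 1 - -(5 * L : ℤ)).toNat = 10 * L + 1 := by omega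
        rw [h6]
        exact Nat.mul_le_mul_right _ h5
      have h5 : (Q.card : ℝ) ≤ ((2 * (10 * L + 1) : ℕ) : ℝ) := by exact_mod_cast h4
      push_cast at h5
      exact h5
  rw [sum_const, nsmul_eq_mul] at b4
  rw [← hWs]
  have b8 : (Ws.card : ℝ) * (z * M * (132 * (k + 1)) * ∫ η, rep (k + 1) (lw μ s η N (Pn N y)) (X η) ∂(law μ) +
        (2 * (10 * L + 1)) * ((k + 1) * (Real.exp (-M) + d))) =
      z * M * (132 * (k + 1) * Ws.card) * ∫ η, rep (k + 1) (lw μ s η N (Pn N y)) (X η) ∂(law μ) +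
        Ws.card * ((2 * (10 * L + 1)) * ((k + 1) * (Real.exp (-M) + d))) := by ring
  linarith

/-- **FAR13.** Against every observable of the `k + 1` own replicas which does not see the rows on one side, the new replica far from all own ones
costs `L ^ ε / EE' t`. -/
theorem far13 [IsProbabilityMeasure μ] {c C : ℝ} {n₀ : ℕ} (h : In μ s c C n₀) (k : ℕ) : ∀ ε θ : ℝ, 0 < ε → 0 < θ → ∃ δ c' : ℝ,
    0 < δ ∧ 0 < c' ∧ ∃ L₀ : ℕ, ∀ L : ℕ, L₀ ≤ L → ∀ N t : ℕ, L ≤ 16 * N → N ≤ L → (L : ℝ) ^ θ ≤ t → t ≤ N →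
    ∀ y : ℕ, y ≤ N → |(y : ℝ) - sl μ s * N| ≤ ((L : ℝ) ^ δ * wd' μ s N) → ∀ (rt : Bool) (τ : ℕ)
    (X : Env → (Fin (k + 1) → Px (Pn N y)) → ℝ), (∀ x, Measurable fun η => X η x) → (∀ η x, 0 ≤ X η x) → (∀ η x, X η x ≤ 1) →
    OffX (rowsB rt N t τ) X →
    ∫ η, rep (k + 2) (lw μ s η N (Pn N y)) (fun x => (by classical exact if FarAt μ s L δ N t τ (pt x) then 1 else 0) *
      X η (Fin.tail x)) ∂(law μ) ≤
      (L : ℝ) ^ ε * (EE' μ s t)⁻¹ * ∫ η, rep (k + 1) (lw μ s η N (Pn N y)) (X η) ∂(law μ) + Real.exp (-(L : ℝ) ^ c') := by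
  classical
  intro ε θ hε hθ
  obtain ⟨β, hβd⟩ : ∃ β : ℝ, β = ε / 5 := ⟨_, rfl⟩
  have hβ : 0 < β := by rw [hβd]; positivity
  obtain ⟨ε₃, ε₅, cX, hε₃, hε₅, hcX, LX, hNX⟩ := numW13 h hβ hθ
  have hε₃' : 0 < min ε₃ (β / 2) := lt_min hε₃ (by positivity)
  obtain ⟨ε₁, ε₄, hε₁, hε₄, h13, h43, LW, hW⟩ := numWX h β 1 θ (min ε₃ (β / 2)) hβ one_pos hθ hε₃'
  obtain ⟨δ5, c5, hδ5, hc5, L5, hNs5⟩ := ns h ε₅ hε₅
  obtain ⟨δn, cn, hδn, hcn, Ln, hNs⟩ := ns h ε₁ hε₁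
  obtain ⟨aw, Kw, haw0, haw1, hKw, hwp⟩ := wd'_pow h
  obtain ⟨cm, hcm⟩ : ∃ cm : ℝ, cm = min (min cX c5) (min cn β) := ⟨_, rfl⟩
  have hcm0 : 0 < cm := by rw [hcm]; exact lt_min (lt_min hcX hc5) (lt_min hcn hβ)
  obtain ⟨cp, hcp, -, Lp, hPE⟩ := Pool.Agent.W_7d29a1_Z.NumI77.pow_exp hcm0 (9 + β)
  obtain ⟨La, hLa⟩ := Pool.Agent.W_7d29a1_HZ.Z86.ev_const 16 hθ
  obtain ⟨Lb, hLb⟩ := Pool.Agent.W_7d29a1_HZ.Z86.ev_const (1188 * ((k : ℝ) + 1)) hβ
  obtain ⟨Lc, hLc⟩ := Pool.Agent.W_7d29a1_HZ.Z86.ev_const (8 * Kw) (show 0 < ε₁ / 2 by positivity)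
  obtain ⟨δ, hδd⟩ : ∃ δ : ℝ, δ = min δ5 (min δn (ε₁ / 2)) := ⟨_, rfl⟩
  have hδ : 0 < δ := by rw [hδd]; exact lt_min hδ5 (lt_min hδn (by positivity))
  have hδ1 : δ ≤ δ5 := by rw [hδd]; exact min_le_left _ _
  have hδ2 : δ ≤ δn := by rw [hδd]; exact (min_le_right _ _).trans (min_le_left _ _)
  have hδ3 : δ ≤ ε₁ / 2 := by rw [hδd]; exact (min_le_right _ _).trans (min_le_right _ _)
  refine ⟨δ, cp, hδ, hcp, LX + LW + L5 + Ln + Lp + La + Lb + Lc + k + 1000000000, ?_⟩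
  intro L hL N t hLN hNL htL htN y hy hyc rt τ X hm h0 h1 hoff
  have hL1 : 1 ≤ L := by omega
  have hLR : (1 : ℝ) ≤ L := by exact_mod_cast hL1
  have hL0 : (0 : ℝ) < L := by linarith
  have ht16 := hLa L (by omega)
  have ht : 16 ≤ t := by exact_mod_cast ht16.trans htL
  have hwd : ∀ n, 0 < wd' μ s n := fun n => lt_of_lt_of_le zero_lt_one (le_max_left _ _)
  have hy0 : (0 : ℤ) ≤ (y : ℤ) := by positivity
  have hyN : (y : ℤ) ≤ (N : ℤ) := by exact_mod_cast hy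
  have hyc' : |(((y : ℤ)) : ℝ) - sl μ s * N| ≤ ((L : ℝ) ^ δ * wd' μ s N) := by
    rw [Int.cast_natCast]
    exact hyc
  have hcone : ∀ δ', δ ≤ δ' → |(((y : ℤ)) : ℝ) - sl μ s * N| ≤ ((L : ℝ) ^ δ' * wd' μ s N) := fun δ' hδ' =>
    hyc'.trans (mul_le_mul_of_nonneg_right (Real.rpow_le_rpow_of_exponent_le hLR hδ') (hwd N).le)
  obtain ⟨n1, e0, E, X', w, hnm, w1, w2, w3, -, -, -, -, -, w9, w10, w11, w12⟩ := hW L (by omega) N t hLN hNL htL htN
  obtain ⟨pr, hp1, hp2⟩ := hNX L (by omega) N t hNL htL htN (y : ℤ) hy0 hyN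
  obtain ⟨hpr, hT⟩ := hp2 ε₁ ε₄ n1 e0 E (h13.trans (min_le_left _ _)) (h43.trans (min_le_left _ _)) hnm
  have hns5 := hNs5 L (by omega) N hLN hNL (y : ℤ) hy0 hyN (hcone _ hδ1)
  have hns := hNs L (by omega) N hLN hNL (y : ℤ) hy0 hyN (hcone _ hδ2)
  have hTVp := P1_tvp (L := L) (ε := ε₅) (pr := pr) (Real.exp_pos _).le (Real.exp_pos _).le hns5 hp1
  obtain ⟨p, hp⟩ : ∃ p : ℝ, p = Real.exp (-(L : ℝ) ^ cm) := ⟨_, rfl⟩
  have hp0 : 0 < p := by rw [hp]; exact Real.exp_pos _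
  have ecX : Real.exp (-(L : ℝ) ^ cX) ≤ p := by
    rw [hp, hcm]
    exact Pool.Agent.W_7d29a1_Z.NumI77.exp_mono ((min_le_left _ _).trans (min_le_left _ _)) hL1
  have ec5 : Real.exp (-(L : ℝ) ^ c5) ≤ p := by
    rw [hp, hcm]
    exact Pool.Agent.W_7d29a1_Z.NumI77.exp_mono ((min_le_left _ _).trans (min_le_right _ _)) hL1
  have ecn : Real.exp (-(L : ℝ) ^ cn) ≤ p := by
    rw [hp, hcm]
    exact Pool.Agent.W_7d29a1_Z.NumI77.exp_mono ((min_le_right _ _).trans (min_le_left _ _)) hL1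
  have ecb : Real.exp (-(L : ℝ) ^ β) ≤ p := by
    rw [hp, hcm]
    exact Pool.Agent.W_7d29a1_Z.NumI77.exp_mono ((min_le_right _ _).trans (min_le_right _ _)) hL1
  obtain ⟨x, hx⟩ : ∃ x : ℝ, x = (L : ℝ) ^ β := ⟨_, rfl⟩
  have hxk : 1188 * ((k : ℝ) + 1) ≤ x := by rw [hx]; exact hLb L (by omega)
  have hk0 : (0 : ℝ) ≤ k := Nat.cast_nonneg k
  have hx1 : 1 ≤ x := by linarith
  have hx0 : 0 < x := by linarith
  -- the width
  have he : (2 : ℝ) ^ (e0 + 4) ≤ (L : ℝ) ^ (-δ) * wd' μ s t := by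
    have g1 := hnm.e0_le
    have g2 := (hwp (t / 4) t (by omega) (by omega)).1
    have g3 : (2 : ℝ) ^ (e0 + 4) = 8 * 2 ^ (e0 + 1) := by ring
    have g4 : (L : ℝ) ^ (-ε₁) * (8 * Kw) ≤ (L : ℝ) ^ (-δ) := by
      have g5 := hLc L (by omega)
      have g6 : (L : ℝ) ^ (-ε₁) * (L : ℝ) ^ (ε₁ / 2) = (L : ℝ) ^ (-(ε₁ / 2)) := by
        rw [← Real.rpow_add hL0]
        congr 1
        ring
      calc (L : ℝ) ^ (-ε₁) * (8 * Kw) ≤ (L : ℝ) ^ (-ε₁) * (L : ℝ) ^ (ε₁ / 2) :=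
            mul_le_mul_of_nonneg_left g5 (Real.rpow_nonneg hL0.le _)
        _ = (L : ℝ) ^ (-(ε₁ / 2)) := g6
        _ ≤ (L : ℝ) ^ (-δ) := Real.rpow_le_rpow_of_exponent_le hLR (by linarith)
    have g7 : (0 : ℝ) ≤ (L : ℝ) ^ (-ε₁) := Real.rpow_nonneg hL0.le _
    rw [g3]
    calc 8 * (2 : ℝ) ^ (e0 + 1) ≤ 8 * ((L : ℝ) ^ (-ε₁) * wd' μ s (t / 4)) := by linarith
      _ ≤ 8 * ((L : ℝ) ^ (-ε₁) * (Kw * wd' μ s t)) := by gcongr
      _ = ((L : ℝ) ^ (-ε₁) * (8 * Kw)) * wd' μ s t := by ring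
      _ ≤ (L : ℝ) ^ (-δ) * wd' μ s t := mul_le_mul_of_nonneg_right g4 (hwd t).le
  -- the distance is bounded
  have hE : ∀ S S' : Finset ℕ, S ⊆ range N → S' ⊆ range N → NSp μ s L N ε₁ S → NSp μ s L N ε₁ S' → ∀ i ≤ N,
      |pos S i - pos S' i| < (2 : ℤ) ^ (E + 2) := by
    intro S S' _ _ hS hS' i hi
    rcases Nat.eq_zero_or_pos i with hi0 | hi0
    · rw [hi0, pos_zero, pos_zero, sub_zero, abs_zero]
      positivity
    · have g1 := hS 0 i hi0 (by omega)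
      have g2 := hS' 0 i hi0 (by omega)
      rw [Nat.zero_add, pos_zero, sub_zero] at g1 g2
      have g3 := hnm.E_gt i hi0 hi
      have g4 : 0 ≤ (L : ℝ) ^ (-ε₁) * wd' μ s (t / 4) := mul_nonneg (Real.rpow_nonneg hL0.le _) (hwd _).le
      have g5 : |((pos S i - pos S' i : ℤ) : ℝ)| < (2 : ℝ) ^ (E + 2) := by
        have e1 : ((pos S i - pos S' i : ℤ) : ℝ) = (((pos S i : ℤ) : ℝ) - sl μ s * i) - (((pos S' i : ℤ) : ℝ) - sl μ s * i) := by
          push_cast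
          ring
        rw [e1]
        have := abs_sub (((pos S i : ℤ) : ℝ) - sl μ s * i) (((pos S' i : ℤ) : ℝ) - sl μ s * i)
        linarith
      have g6 : ((|pos S i - pos S' i| : ℤ) : ℝ) < (((2 : ℤ) ^ (E + 2) : ℤ) : ℝ) := by
        rw [Int.cast_abs]
        push_cast at g5 ⊢
        exact g5
      exact_mod_cast g6
  -- the number of the windows
  have hz1 : 1 ≤ (L : ℝ) ^ ε₄ := Real.one_le_rpow hLR hε₄.le
  have hWc : ((WL rt N t τ n1 e0 E pr.a).card : ℝ) ≤ 3 * x := by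
    have g1 := WL_card (N := N) (rt := rt) (τ := τ) (a := pr.a) hz1 hnm.cnt2 hnm.n1_ge (fun g g1 g2 => by
      have g3 := hpr.an1 g g1 g2
      have g4 := Nat.one_le_two_pow (n := pr.a)
      omega)
    refine g1.trans ?_
    have g2 : ((L : ℝ) ^ ε₄) ^ 2 ≤ x := by
      rw [hx, ← Real.rpow_natCast, ← Real.rpow_mul hL0.le]
      refine Real.rpow_le_rpow_of_exponent_le hLR ?_
      have : ε₄ ≤ β / 2 := h43.trans (min_le_right _ _)
      push_cast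
      linarith
    linarith
  have hW0 : (0 : ℝ) ≤ (WL rt N t τ n1 e0 E pr.a).card := Nat.cast_nonneg _
  -- the main inequality
  have hEt : 0 < EE' μ s t := lt_of_lt_of_le zero_lt_one (le_max_left _ _)
  have key := far_sum (μ := μ) (s := s) hy rt (τ := τ) (k := k) (z := (L : ℝ) ^ β / EE' μ s t) (M := 3 * x) hpr (fun S h1 h2 => (w11 S h1 h2).2) hE he w1
    h.md_nonneg h.md_le_nat hNL (by positivity) (Real.exp_pos _).le (by linarith) hT (Real.exp_pos _).le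
    (add_nonneg (Real.exp_pos _).le (Real.exp_pos _).le) hns hTVp hm h0 h1 hoff
  refine key.trans ?_
  have hI0 : 0 ≤ ∫ η, rep (k + 1) (lw μ s η N (Pn N y)) (X η) ∂(law μ) := integral_nonneg fun η => rep_nonneg13 _ _ (h0 η)
  refine add_le_add (mul_le_mul_of_nonneg_right ?_ hI0) ?_
  · rw [← hx]
    have e6 : (L : ℝ) ^ ε = x ^ 5 := by
      rw [hx, ← Real.rpow_natCast, ← Real.rpow_mul hL0.le, hβd]
      congr 1
      push_cast
      ring
    rw [e6]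
    have g1 : x / EE' μ s t * (3 * x) * (132 * ((k : ℝ) + 1) * (WL rt N t τ n1 e0 E pr.a).card) ≤
        x / EE' μ s t * (3 * x) * (132 * ((k : ℝ) + 1) * (3 * x)) := by gcongr
    refine g1.trans ?_
    have g2 : x / EE' μ s t * (3 * x) * (132 * ((k : ℝ) + 1) * (3 * x)) = (1188 * ((k : ℝ) + 1)) * x ^ 3 * (EE' μ s t)⁻¹ := by
      field_simp
      ring
    rw [g2]
    refine mul_le_mul_of_nonneg_right ?_ (by positivity)
    calc (1188 * ((k : ℝ) + 1)) * x ^ 3 ≤ x * x ^ 3 := mul_le_mul_of_nonneg_right hxk (by positivity)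
      _ = x ^ 4 := by ring
      _ ≤ x ^ 5 := pow_le_pow_right₀ hx1 (by norm_num)
  · have hL9 : (1000000000 : ℝ) + k ≤ L := by exact_mod_cast (show 1000000000 + k ≤ L by omega)
    have k3 : Real.exp (-(3 * x)) ≤ p := by
      refine le_trans (Real.exp_le_exp.2 ?_) (hx ▸ ecb)
      linarith
    have k4 := hPE L (by omega)
    rw [← hp, Real.rpow_add hL0, ← hx] at k4
    have e9 : (L : ℝ) ^ (9 : ℝ) = (L : ℝ) ^ 9 := by
      rw [← Real.rpow_natCast]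
      norm_num
    rw [e9] at k4
    refine le_trans ?_ k4
    have k5 : ((k : ℝ) + 2) * Real.exp (-(L : ℝ) ^ cn) + (Real.exp (-(L : ℝ) ^ c5) + Real.exp (-(L : ℝ) ^ cX)) ≤ ((k : ℝ) + 4) * p := by
      have := mul_le_mul_of_nonneg_left ecn (show (0 : ℝ) ≤ (k : ℝ) + 2 by linarith)
      linarith
    have k6 : ((WL rt N t τ n1 e0 E pr.a).card : ℝ) * ((2 * (10 * (L : ℝ) + 1)) * (((k : ℝ) + 1) * (Real.exp (-(3 * x)) + Real.exp (-(L : ℝ) ^ cX)))) ≤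
        (3 * x) * ((22 * (L : ℝ)) * (((k : ℝ) + 1) * (p + p))) := by
      have a1 : Real.exp (-(3 * x)) + Real.exp (-(L : ℝ) ^ cX) ≤ p + p := add_le_add k3 ecX
      have a2 : 2 * (10 * (L : ℝ) + 1) ≤ 22 * (L : ℝ) := by linarith
      gcongr
    have k7 : ((k : ℝ) + 4) * p + (3 * x) * ((22 * (L : ℝ)) * (((k : ℝ) + 1) * (p + p))) ≤ (L : ℝ) ^ 9 * x * p := by
      have b1 : (k : ℝ) + 4 ≤ L * x := by
        calc (k : ℝ) + 4 ≤ L := by linarith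
          _ ≤ L * x := le_mul_of_one_le_right hL0.le hx1
      have b2 : 132 * ((k : ℝ) + 1) ≤ (L : ℝ) ^ 2 := by nlinarith
      have b3 : (3 * x) * ((22 * (L : ℝ)) * (((k : ℝ) + 1) * (p + p))) = (132 * ((k : ℝ) + 1)) * (L * x * p) := by ring
      have b4 : (L : ℝ) + (L : ℝ) ^ 3 ≤ (L : ℝ) ^ 9 := by
        have c1 : (L : ℝ) ≤ (L : ℝ) ^ 3 := le_self_pow₀ hLR (by norm_num)
        have c2 : (2 : ℝ) ≤ (L : ℝ) ^ 6 := by
          have : (L : ℝ) ≤ (L : ℝ) ^ 6 := le_self_pow₀ hLR (by norm_num)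
          linarith
        calc (L : ℝ) + (L : ℝ) ^ 3 ≤ 2 * (L : ℝ) ^ 3 := by linarith
          _ ≤ (L : ℝ) ^ 6 * (L : ℝ) ^ 3 := mul_le_mul_of_nonneg_right c2 (by positivity)
          _ = (L : ℝ) ^ 9 := by ring
      rw [b3]
      calc ((k : ℝ) + 4) * p + (132 * ((k : ℝ) + 1)) * (L * x * p) ≤ (L * x) * p + (L : ℝ) ^ 2 * (L * x * p) := by gcongr
        _ = ((L : ℝ) + (L : ℝ) ^ 3) * (x * p) := by ring
        _ ≤ (L : ℝ) ^ 9 * (x * p) := mul_le_mul_of_nonneg_right b4 (by positivity)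
        _ = (L : ℝ) ^ 9 * x * p := by ring
    linarith

/-! ### Two far replicas -/

theorem FarAt.mono {L : ℕ} (hL : 1 ≤ L) {δ δ' : ℝ} (hδ : δ' ≤ δ) {N t τ k : ℕ} {x : Fin (k + 2) → Finset ℕ}
    (h : FarAt μ s L δ' N t τ x) : FarAt μ s L δ N t τ x := by
  obtain ⟨i₀, h1, h2, h3, h4⟩ := h
  refine ⟨i₀, h1, h2, h3, fun m => le_trans ?_ (h4 m)⟩
  refine mul_le_mul_of_nonneg_right (Real.rpow_le_rpow_of_exponent_le (by exact_mod_cast hL) (neg_le_neg hδ)) ?_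
  exact zero_le_one.trans (le_max_left _ _)

/-- **Two new replicas**: `x 1` is far from all own replicas at a time of the second window, `x 0` is far from all of them and from `x 1` at a
time of the first window. -/
theorem far13_two [IsProbabilityMeasure μ] {c C : ℝ} {n₀ : ℕ} (h : In μ s c C n₀) (k : ℕ) : ∀ ε θ : ℝ, 0 < ε → 0 < θ → ∃ δ c' : ℝ,
    0 < δ ∧ 0 < c' ∧ ∃ L₀ : ℕ, ∀ L : ℕ, L₀ ≤ L → ∀ N t t' : ℕ, L ≤ 16 * N → N ≤ L → (L : ℝ) ^ θ ≤ t → t ≤ N → (L : ℝ) ^ θ ≤ t' → t' ≤ N →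
    ∀ y : ℕ, y ≤ N → |(y : ℝ) - sl μ s * N| ≤ ((L : ℝ) ^ δ * wd' μ s N) → ∀ (rt rt' : Bool) (τ τ' : ℕ)
    (X : Env → (Fin (k + 1) → Px (Pn N y)) → ℝ), (∀ x, Measurable fun η => X η x) → (∀ η x, 0 ≤ X η x) → (∀ η x, X η x ≤ 1) →
    OffX (rowsB rt N t τ) X → OffX (rowsB rt' N t' τ') X →
    ∫ η, rep (k + 3) (lw μ s η N (Pn N y)) (fun x => (by classical exact if FarAt μ s L δ N t τ (pt x) then 1 else 0) *
      ((by classical exact if FarAt μ s L δ N t' τ' (pt (Fin.tail x)) then 1 else 0) * X η (Fin.tail (Fin.tail x)))) ∂(law μ) ≤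
      ((L : ℝ) ^ ε * (EE' μ s t)⁻¹) * ((L : ℝ) ^ ε * (EE' μ s t')⁻¹) * ∫ η, rep (k + 1) (lw μ s η N (Pn N y)) (X η) ∂(law μ) +
        Real.exp (-(L : ℝ) ^ c') := by
  classical
  intro ε θ hε hθ
  obtain ⟨δ₁, c₁, hδ₁, hc₁, L₁, h1⟩ := far13 h (k + 1) ε θ hε hθ
  obtain ⟨δ₂, c₂, hδ₂, hc₂, L₂, h2⟩ := far13 h k ε θ hε hθ
  obtain ⟨c₃, hc₃, -, L₃, h3⟩ := Pool.Agent.W_7d29a1_Z.NumI77.pow_exp (lt_min hc₁ hc₂) (ε + 1)
  refine ⟨min δ₁ δ₂, c₃, lt_min hδ₁ hδ₂, hc₃, L₁ + L₂ + L₃ + 2, ?_⟩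
  intro L hL N t t' hLN hNL htL htN htL' htN' y hy hyc rt rt' τ τ' X hm h0 h1X hoff hoff'
  have hL1 : 1 ≤ L := by omega
  have hLR : (1 : ℝ) ≤ L := by exact_mod_cast hL1
  have hL0 : (0 : ℝ) < L := by linarith
  have hw0 : 0 ≤ wd' μ s N := zero_le_one.trans (le_max_left _ _)
  have hcone : ∀ δ', min δ₁ δ₂ ≤ δ' → |(y : ℝ) - sl μ s * N| ≤ ((L : ℝ) ^ δ' * wd' μ s N) := fun δ' hδ' =>
    hyc.trans (mul_le_mul_of_nonneg_right (Real.rpow_le_rpow_of_exponent_le hLR hδ') hw0)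
  have hne : Nonempty (Px (Pn N y)) := ne_Pn hy
  -- the first one
  have a1 := h1 L (by omega) N t hLN hNL htL htN y hy (hcone _ (min_le_left _ _)) rt τ
    (fun η x => (if FarAt μ s L δ₂ N t' τ' (pt x) then 1 else 0) * X η (Fin.tail x))
    (fun x => (hm _).const_mul _) (fun η x => mul_nonneg (by split_ifs <;> norm_num) (h0 η _))
    (fun η x => mul_le_one₀ (by split_ifs <;> norm_num) (h0 η _) (h1X η _))
    (fun η η' x hη => congrArg _ (hoff η η' (Fin.tail x) hη))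
  have a2 := h2 L (by omega) N t' hLN hNL htL' htN' y hy (hcone _ (min_le_right _ _)) rt' τ' X hm h0 h1X hoff'
  have hA0 : ∀ n, 0 < EE' μ s n := fun n => lt_of_lt_of_le zero_lt_one (le_max_left _ _)
  obtain ⟨A, hA⟩ : ∃ A : ℝ, A = (L : ℝ) ^ ε * (EE' μ s t)⁻¹ := ⟨_, rfl⟩
  have hApos : 0 ≤ A := by
    rw [hA]
    have := hA0 t
    positivity
  have hAle : A ≤ (L : ℝ) ^ ε := by
    rw [hA]
    refine mul_le_of_le_one_right (Real.rpow_nonneg hL0.le _) ?_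
    rw [inv_le_one₀ (hA0 t)]
    exact le_max_left _ _
  have e1 : Real.exp (-(L : ℝ) ^ c₁) ≤ Real.exp (-(L : ℝ) ^ min c₁ c₂) := Pool.Agent.W_7d29a1_Z.NumI77.exp_mono (min_le_left _ _) hL1
  have e2 : Real.exp (-(L : ℝ) ^ c₂) ≤ Real.exp (-(L : ℝ) ^ min c₁ c₂) := Pool.Agent.W_7d29a1_Z.NumI77.exp_mono (min_le_right _ _) hL1
  have e3 := h3 L (by omega)
  have e4 : (L : ℝ) ^ ε * Real.exp (-(L : ℝ) ^ min c₁ c₂) + Real.exp (-(L : ℝ) ^ min c₁ c₂) ≤ Real.exp (-(L : ℝ) ^ c₃) := by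
    refine le_trans ?_ e3
    rw [Real.rpow_add hL0, Real.rpow_one]
    have g1 : (1 : ℝ) ≤ (L : ℝ) ^ ε := Real.one_le_rpow hLR hε.le
    have g2 : (2 : ℝ) ≤ L := by exact_mod_cast (show 2 ≤ L by omega)
    have g3 := Real.exp_pos (-(L : ℝ) ^ min c₁ c₂)
    calc (L : ℝ) ^ ε * Real.exp (-(L : ℝ) ^ min c₁ c₂) + Real.exp (-(L : ℝ) ^ min c₁ c₂)
        ≤ (L : ℝ) ^ ε * Real.exp (-(L : ℝ) ^ min c₁ c₂) + (L : ℝ) ^ ε * Real.exp (-(L : ℝ) ^ min c₁ c₂) := by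
          have := mul_le_mul_of_nonneg_right g1 g3.le
          linarith
      _ = (L : ℝ) ^ ε * 2 * Real.exp (-(L : ℝ) ^ min c₁ c₂) := by ring
      _ ≤ (L : ℝ) ^ ε * L * Real.exp (-(L : ℝ) ^ min c₁ c₂) := by gcongr
  rw [← hA] at a1 ⊢
  have a3 : ∫ η, rep (k + 3) (lw μ s η N (Pn N y)) (fun x => (if FarAt μ s L (min δ₁ δ₂) N t τ (pt x) then 1 else 0) *
      ((if FarAt μ s L (min δ₁ δ₂) N t' τ' (pt (Fin.tail x)) then 1 else 0) * X η (Fin.tail (Fin.tail x)))) ∂(law μ) ≤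
      ∫ η, rep (k + 3) (lw μ s η N (Pn N y)) (fun x => (if FarAt μ s L δ₁ N t τ (pt x) then 1 else 0) *
      ((if FarAt μ s L δ₂ N t' τ' (pt (Fin.tail x)) then 1 else 0) * X η (Fin.tail (Fin.tail x)))) ∂(law μ) := by
    refine integral_mono (rep_int hy (k + 3) (fun x => ((hm _).const_mul _).const_mul _)
      (fun η x => mul_nonneg (by split_ifs <;> norm_num) (mul_nonneg (by split_ifs <;> norm_num) (h0 η _)))
      (fun η x => mul_le_one₀ (by split_ifs <;> norm_num) (mul_nonneg (by split_ifs <;> norm_num) (h0 η _))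
        (mul_le_one₀ (by split_ifs <;> norm_num) (h0 η _) (h1X η _))))
      (rep_int hy (k + 3) (fun x => ((hm _).const_mul _).const_mul _)
      (fun η x => mul_nonneg (by split_ifs <;> norm_num) (mul_nonneg (by split_ifs <;> norm_num) (h0 η _)))
      (fun η x => mul_le_one₀ (by split_ifs <;> norm_num) (mul_nonneg (by split_ifs <;> norm_num) (h0 η _))
        (mul_le_one₀ (by split_ifs <;> norm_num) (h0 η _) (h1X η _)))) fun η => ?_
    refine rep_mono (k + 3) _ fun x => ?_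
    have b0 := h0 η (Fin.tail (Fin.tail x))
    by_cases c1 : FarAt μ s L (min δ₁ δ₂) N t τ (pt x)
    · rw [if_pos c1, if_pos (c1.mono hL1 (min_le_left _ _)), one_mul, one_mul]
      by_cases c2 : FarAt μ s L (min δ₁ δ₂) N t' τ' (pt (Fin.tail x))
      · rw [if_pos c2, if_pos (c2.mono hL1 (min_le_right _ _))]
      · rw [if_neg c2, zero_mul]
        exact mul_nonneg (by split_ifs <;> norm_num) b0
    · rw [if_neg c1, zero_mul]
      exact mul_nonneg (by split_ifs <;> norm_num) (mul_nonneg (by split_ifs <;> norm_num) b0)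
  refine a3.trans (a1.trans ?_)
  have a4 := mul_le_mul_of_nonneg_left a2 hApos
  have a5 : A * Real.exp (-(L : ℝ) ^ c₂) ≤ (L : ℝ) ^ ε * Real.exp (-(L : ℝ) ^ min c₁ c₂) :=
    mul_le_mul hAle e2 (Real.exp_pos _).le (Real.rpow_nonneg hL0.le _)
  rw [mul_add] at a4
  have a6 : A * ((L : ℝ) ^ ε * (EE' μ s t')⁻¹ * ∫ η, rep (k + 1) (lw μ s η N (Pn N y)) (X η) ∂(law μ)) =
      A * ((L : ℝ) ^ ε * (EE' μ s t')⁻¹) * ∫ η, rep (k + 1) (lw μ s η N (Pn N y)) (X η) ∂(law μ) := by ring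
  linarith

end

end Pool.Agent.W_7d29a1_C0.F13
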