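import Pool.Agent.W_7d29a1_C0.NumW13
import Pool.Agent.W_7d29a1_C0.Mod92B
import Pool.Agent.W_7d29a1_C0.CumB82

/-!
C0, helper13: FAR13, first part. Replica sums; the weight `RR` of the other own replicas outside of a strip; the price of one line: a new
replica in the class of the window, one own replica left of the line, the other own replicas outside of the strip, any observable of
all own replicas which does not see the rows of the window.
-/

set_option autoImplicit false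

namespace Pool.Agent.W_7d29a1_C0.F13

open MeasureTheory ProbabilityTheory Filter Topology Finset
open Pool.Agent.W_7d29a1_F Pool.Agent.W_7d29a1_X Pool.Agent.W_7d29a1_H Pool.Agent.W_7d29a1_HZ
open Pool.Agent.W_7d29a1_HS (In wd md)
open Pool.Agent.W_7d29a1_HZ.ZE
open Pool.Agent.W_7d29a1_HZ.Z15 (kC ZC)
open Pool.Agent.W_7d29a1_HZ.Z36 (kk kk_nonneg)
open Pool.Agent.W_7d29a1_HZ.Z86.GX (WT)
open Pool.Agent.W_7d29a1_ZE (Win Br)
open Pool.Agent.W_7d29a1_C0.Mod92 (Px Pn lw pos_card ne_Pn)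
open Pool.W7d29a1.C0 (rep gz gm gz_pos gz_ne rep_cons rep_mono)
open scoped ENNReal

noncomputable section

variable {μ : Measure ℝ} {s : ℝ} {N y : ℕ}

/-! ### Replica sums -/

theorem sum_Px {Q : Finset (Finset ℕ)} (f : Finset ℕ → ℝ) : ∑ S : Px Q, f S.1 = ∑ S ∈ Q, f S := Finset.sum_coe_sort Q f

theorem Pn_filter (N y : ℕ) : Pn N y = (range N).powerset.filter fun S => pos S N = (y : ℤ) := by
  ext S
  rw [mem_powersetCard, mem_filter, mem_powerset]
  constructor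
  · rintro ⟨h1, h2⟩
    exact ⟨h1, by rw [pos_card h1, h2]⟩
  · rintro ⟨h1, h2⟩
    rw [pos_card h1] at h2
    exact ⟨h1, by exact_mod_cast h2⟩

theorem mem_Pn {S : Finset ℕ} : S ∈ Pn N y ↔ S ⊆ range N ∧ pos S N = (y : ℤ) := by
  rw [Pn_filter, mem_filter, mem_powerset]

theorem pth_pos13 (η : Env) (N : ℕ) (S : Finset ℕ) : 0 < pth μ s η N S := by
  unfold pth
  exact mul_pos (Real.exp_pos _) (prod_pos fun i _ => Real.exp_pos _)

theorem exp_lw (η : Env) (N : ℕ) {Q : Finset (Finset ℕ)} (S : Px Q) : Real.exp (lw μ s η N Q S) = pth μ s η N S.1 :=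
  Real.exp_log (pth_pos13 η N S.1)

theorem ZC_sum (η : Env) : ZC μ s N (y : ℤ) η = ∑ S : Px (Pn N y), pth μ s η N S.1 := by
  rw [sum_Px (fun S => pth μ s η N S)]
  unfold ZC
  rw [Pool.Agent.W_7d29a1_Z.W_eq_Kf0]
  unfold Pool.Agent.W_7d29a1_Z.Kf
  rw [Pool.Agent.W_7d29a1_Z.pcs_pos, ← Pn_filter]
  exact sum_congr rfl fun S _ => Pool.Agent.W_7d29a1_Z.pw_pth η N S

theorem gz_lw (η : Env) : gz (lw μ s η N (Pn N y)) = ZC μ s N (y : ℤ) η := by
  rw [ZC_sum]
  unfold gz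
  exact sum_congr rfl fun S _ => exp_lw η N S

theorem rep_eq (η : Env) (m : ℕ) (Ψ : (Fin m → Px (Pn N y)) → ℝ) :
    rep m (lw μ s η N (Pn N y)) Ψ = (∑ T : Fin m → Px (Pn N y), (∏ i, pth μ s η N (T i).1) * Ψ T) / ZC μ s N (y : ℤ) η ^ m := by
  unfold rep
  rw [gz_lw]
  congr 1
  refine sum_congr rfl fun T _ => ?_
  rw [Real.exp_sum]
  congr 1
  exact prod_congr rfl fun i _ => exp_lw η N (T i)

theorem ZC_pos13 [IsProbabilityMeasure μ] (hy : y ≤ N) (η : Env) : 0 < ZC μ s N (y : ℤ) η :=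
  ZC_pos (by positivity) (by exact_mod_cast hy) η

theorem gp_Px (η : Env) (S : Px (Pn N y)) : gp μ s η N (y : ℤ) S.1 = pth μ s η N S.1 / ZC μ s N (y : ℤ) η := by
  unfold gp
  rw [if_pos (mem_Pn.1 S.2).2]
  rfl

/-- A sum over all paths with the Gibbs weights. -/
theorem sum_gp_Px (η : Env) (f : Finset ℕ → ℝ) :
    ∑ S ∈ (range N).powerset, gp μ s η N (y : ℤ) S * f S = ∑ S : Px (Pn N y), pth μ s η N S.1 / ZC μ s N (y : ℤ) η * f S.1 := by
  have h1 : ∑ S : Px (Pn N y), pth μ s η N S.1 / ZC μ s N (y : ℤ) η * f S.1 =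
      ∑ S ∈ Pn N y, pth μ s η N S / ZC μ s N (y : ℤ) η * f S := sum_Px (fun S => pth μ s η N S / ZC μ s N (y : ℤ) η * f S)
  rw [h1, Pn_filter, sum_filter]
  refine sum_congr rfl fun S _ => ?_
  unfold gp
  split_ifs
  · rfl
  · rw [zero_mul]

/-- Integrating out one replica of `k + 1`, the index `l`. -/
theorem rep_ins (η : Env) {k : ℕ} (l : Fin (k + 1)) (Ψ : (Fin (k + 1) → Px (Pn N y)) → ℝ) :
    rep (k + 1) (lw μ s η N (Pn N y)) Ψ = ∑ S : Px (Pn N y), pth μ s η N S.1 / ZC μ s N (y : ℤ) η *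
      ((∑ T : Fin k → Px (Pn N y), (∏ i, pth μ s η N (T i).1) * Ψ (l.insertNth S T)) / ZC μ s N (y : ℤ) η ^ k) := by
  rw [rep_eq]
  have h1 : ∑ T : Fin (k + 1) → Px (Pn N y), (∏ i, pth μ s η N (T i).1) * Ψ T =
      ∑ S : Px (Pn N y), ∑ T : Fin k → Px (Pn N y), pth μ s η N S.1 * ((∏ i, pth μ s η N (T i).1) * Ψ (l.insertNth S T)) := by
    rw [← (Fin.insertNthEquiv (fun _ : Fin (k + 1) => Px (Pn N y)) l).sum_comp
      fun T : Fin (k + 1) → Px (Pn N y) => (∏ i, pth μ s η N (T i).1) * Ψ T, Fintype.sum_prod_type]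
    refine sum_congr rfl fun S _ => sum_congr rfl fun T _ => ?_
    show (∏ i, pth μ s η N (((l.insertNth S T : Fin (k + 1) → Px (Pn N y))) i).1) * Ψ (l.insertNth S T) = _
    rw [Fin.prod_univ_succAbove _ l, Fin.insertNth_apply_same]
    simp only [Fin.insertNth_apply_succAbove]
    ring
  rw [h1, sum_div]
  refine sum_congr rfl fun S _ => ?_
  rw [← mul_sum, pow_succ, div_mul_div_comm, mul_comm (ZC μ s N (y : ℤ) η) (ZC μ s N (y : ℤ) η ^ k)]

theorem sum_prod_pth (η : Env) (k : ℕ) : ∑ T : Fin k → Px (Pn N y), ∏ i, pth μ s η N (T i).1 = ZC μ s N (y : ℤ) η ^ k := by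
  rw [ZC_sum, Fintype.sum_pow]

/-- A replica average of a function of one coordinate. -/
theorem rep_coord [IsProbabilityMeasure μ] (hy : y ≤ N) (η : Env) {k : ℕ} (l : Fin (k + 1)) (a : Px (Pn N y) → ℝ) :
    rep (k + 1) (lw μ s η N (Pn N y)) (fun x => a (x l)) = ∑ S : Px (Pn N y), pth μ s η N S.1 / ZC μ s N (y : ℤ) η * a S := by
  rw [rep_ins η l]
  refine sum_congr rfl fun S _ => ?_
  congr 1
  have h1 : ∑ T : Fin k → Px (Pn N y), (∏ i, pth μ s η N (T i).1) * a ((l.insertNth S T : Fin (k + 1) → Px (Pn N y)) l) =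
      ZC μ s N (y : ℤ) η ^ k * a S := by
    simp only [Fin.insertNth_apply_same]
    rw [← sum_mul, sum_prod_pth]
  rw [h1, mul_comm, mul_div_assoc, div_self (pow_pos (ZC_pos13 hy η) k).ne', mul_one]

theorem rep_nonneg13 (m : ℕ) (w : Px (Pn N y) → ℝ) {Ψ : (Fin m → Px (Pn N y)) → ℝ} (h : ∀ x, 0 ≤ Ψ x) : 0 ≤ rep m w Ψ := by
  unfold rep
  exact div_nonneg (sum_nonneg fun x _ => mul_nonneg (Real.exp_pos _).le (h x)) (pow_nonneg (sum_nonneg fun x _ => (Real.exp_pos _).le) m)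

theorem rep_le_one [IsProbabilityMeasure μ] (hy : y ≤ N) (η : Env) (m : ℕ) {Ψ : (Fin m → Px (Pn N y)) → ℝ} (h : ∀ x, Ψ x ≤ 1) :
    rep m (lw μ s η N (Pn N y)) Ψ ≤ 1 := by
  rw [rep_eq, div_le_one (pow_pos (ZC_pos13 hy η) m), ← sum_prod_pth]
  exact sum_le_sum fun T _ => mul_le_of_le_one_right (prod_nonneg fun i _ => (pth_pos13 η N _).le) (h T)

theorem rep_finsum {ι : Type*} (I : Finset ι) (m : ℕ) (w : Px (Pn N y) → ℝ) (Ψ : ι → (Fin m → Px (Pn N y)) → ℝ) :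
    rep m w (fun x => ∑ j ∈ I, Ψ j x) = ∑ j ∈ I, rep m w (Ψ j) := by
  unfold rep
  rw [← sum_div]
  congr 1
  rw [sum_comm]
  exact sum_congr rfl fun x _ => mul_sum _ _ _

theorem rep_add13 (m : ℕ) (w : Px (Pn N y) → ℝ) (Ψ Φ : (Fin m → Px (Pn N y)) → ℝ) :
    rep m w (fun x => Ψ x + Φ x) = rep m w Ψ + rep m w Φ := by
  unfold rep
  rw [← add_div, ← sum_add_distrib]
  congr 1
  exact sum_congr rfl fun x _ => mul_add _ _ _

theorem rep_meas (m : ℕ) {Ψ : Env → (Fin m → Px (Pn N y)) → ℝ} (h : ∀ x, Measurable fun η => Ψ η x) :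
    Measurable fun η : Env => rep m (lw μ s η N (Pn N y)) (Ψ η) := by
  have e : (fun η : Env => rep m (lw μ s η N (Pn N y)) (Ψ η)) = fun η =>
      (∑ T : Fin m → Px (Pn N y), (∏ i, pth μ s η N (T i).1) * Ψ η T) / ZC μ s N (y : ℤ) η ^ m := by
    funext η
    exact rep_eq η m (Ψ η)
  rw [e]
  refine Measurable.div (Finset.measurable_sum _ fun T _ => ?_) ((ZC_meas N (y : ℤ)).pow_const m)
  exact (Finset.measurable_prod _ fun i _ => Pool.Agent.W_7d29a1_C0.Mod92.meas_pth N (T i).1).mul (h T)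

theorem rep_int [IsProbabilityMeasure μ] (hy : y ≤ N) (m : ℕ) {Ψ : Env → (Fin m → Px (Pn N y)) → ℝ}
    (h : ∀ x, Measurable fun η => Ψ η x) (h0 : ∀ η x, 0 ≤ Ψ η x) (h1 : ∀ η x, Ψ η x ≤ 1) :
    Integrable (fun η : Env => rep m (lw μ s η N (Pn N y)) (Ψ η)) (law μ) := by
  refine Integrable.of_bound (rep_meas m h).aestronglyMeasurable 1 (Filter.Eventually.of_forall fun η => ?_)
  rw [Real.norm_eq_abs, abs_of_nonneg (rep_nonneg13 m _ (h0 η))]
  exact rep_le_one hy η m (h1 η)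

/-! ### The weight of the other own replicas -/

/-- The path is outside of the strip of the window. -/
def Av (μ : Measure ℝ) (s : ℝ) (V : Win) (T : Finset ℕ) : Prop :=
  ∀ j ∈ V.J, ¬ (V.Y < V.sg * (pos T j - md μ s j) ∧ V.sg * (pos T j - md μ s j) ≤ V.Y + V.w)

theorem pth_Av {V : Win} {T : Finset ℕ} (hT : Av μ s V T) {η η' : Env} (h : ∀ q : Pt, ¬ InStrip μ s V q → η q = η' q) (N : ℕ) :
    pth μ s η N T = pth μ s η' N T := by
  unfold pth
  congr 1
  refine prod_congr rfl fun i _ => ?_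
  rw [h]
  rintro ⟨-, h2, h3⟩
  have e : (((i : ℤ) + 1, pos T (i + 1)) : Pt).1.toNat = i + 1 := by
    show ((i : ℤ) + 1).toNat = i + 1
    omega
  rw [e] at h2 h3
  exact hT (i + 1) h2 h3

open scoped Classical in
/-- The weight of the other own replicas: outside of the strip, times the observable; the own replica `l` is `S`. -/
def RR (μ : Measure ℝ) (s : ℝ) (N y : ℕ) (V : Win) (nr : Finset ℕ → Prop) {k : ℕ} (X : Env → (Fin (k + 1) → Px (Pn N y)) → ℝ)
    (l : Fin (k + 1)) (S : Finset ℕ) (η : Env) : ℝ :=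
  if h : S ∈ Pn N y then ∑ T : Fin k → Px (Pn N y), (∏ i, pth μ s η N (T i).1) *
    ((if nr S ∧ ∀ i, Av μ s V (T i).1 then 1 else 0) * X η (l.insertNth ⟨S, h⟩ T)) else 0

theorem RR_ok {V : Win} {nr : Finset ℕ → Prop} {k : ℕ} {X : Env → (Fin (k + 1) → Px (Pn N y)) → ℝ}
    (hm : ∀ x, Measurable fun η => X η x) (h0 : ∀ η x, 0 ≤ X η x) (h1 : ∀ η x, X η x ≤ 1) (l : Fin (k + 1)) :
    RwOk μ s N (y : ℤ) k (RR μ s N y V nr X l) := by
  classical
  refine ⟨fun S => ?_, fun S η => ?_, fun S η => ?_⟩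
  · unfold RR
    by_cases h : S ∈ Pn N y
    · simp only [h, dif_pos]
      refine Finset.measurable_sum _ fun T _ => ?_
      exact (Finset.measurable_prod _ fun i _ => Pool.Agent.W_7d29a1_C0.Mod92.meas_pth N (T i).1).mul ((hm _).const_mul _)
    · simp only [h, dif_neg, not_false_eq_true]
      exact measurable_const
  · unfold RR
    split_ifs with h
    · refine sum_nonneg fun T _ => mul_nonneg (prod_nonneg fun i _ => (pth_pos13 η N _).le) (mul_nonneg ?_ (h0 _ _))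
      split_ifs <;> norm_num
    · exact le_rfl
  · unfold RR
    split_ifs with h
    · rw [← sum_prod_pth]
      refine sum_le_sum fun T _ => mul_le_of_le_one_right (prod_nonneg fun i _ => (pth_pos13 η N _).le) ?_
      split_ifs
      · rw [one_mul]
        exact h1 _ _
      · rw [zero_mul]
        exact zero_le_one
    · rw [← sum_prod_pth]
      exact sum_nonneg fun T _ => prod_nonneg fun i _ => (pth_pos13 η N _).le

/-- The observable does not see the rows `J`. -/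
def OffX (J : Finset ℕ) {m : ℕ} (X : Env → (Fin m → Px (Pn N y)) → ℝ) : Prop :=
  ∀ (η η' : Env) (T : Fin m → Px (Pn N y)), (∀ q : Pt, ¬ (0 ≤ q.1 ∧ q.1.toNat ∈ J) → η q = η' q) → X η T = X η' T

theorem OffX.mono {J J' : Finset ℕ} (h : J ⊆ J') {m : ℕ} {X : Env → (Fin m → Px (Pn N y)) → ℝ} (hX : OffX J' X) : OffX J X :=
  fun η η' T hη => hX η η' T fun q hq => hη q fun h1 => hq ⟨h1.1, h h1.2⟩

theorem RR_blind {V : Win} {nr : Finset ℕ → Prop} {k : ℕ} {X : Env → (Fin (k + 1) → Px (Pn N y)) → ℝ} (hX : OffX V.J X)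
    (l : Fin (k + 1)) : BlindR μ s V (RR μ s N y V nr X l) := by
  classical
  intro η η' S _ hη
  unfold RR
  split_ifs with h
  · refine sum_congr rfl fun T _ => ?_
    by_cases hA : nr S ∧ ∀ i, Av μ s V (T i).1
    · rw [if_pos hA, hX η η' _ fun q hq => hη q fun h1 => hq ⟨h1.1, h1.2.1⟩]
      congr 1
      exact prod_congr rfl fun i _ => pth_Av (hA.2 i) hη N
    · rw [if_neg hA]
      simp
  · rfl

/-! ### One line -/

open scoped Classical in
/-- The mass of the class. -/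
def mC (μ : Measure ℝ) (s : ℝ) (N y : ℕ) (C : (ℕ → ℤ) → Prop) (η : Env) : ℝ :=
  ∑ S : Px (Pn N y), pth μ s η N S.1 / ZC μ s N (y : ℤ) η * (if C (pos S.1) then 1 else 0)

theorem kk_mC [IsProbabilityMeasure μ] (hy : y ≤ N) (C : (ℕ → ℤ) → Prop) (η : Env) {S : Finset ℕ} (hS : pos S N = (y : ℤ)) :
    kk μ s C η 0 N (pos S) = mC μ s N y C η * ZC μ s N (y : ℤ) η := by
  classical
  unfold kk Pool.Agent.W_7d29a1_Z.Kc
  rw [pos_zero, hS]
  have e1 : (Pool.Agent.W_7d29a1_Z.pcs 0 0 0 N (y : ℤ)).filter (fun g => C (Pool.Agent.W_7d29a1_Z.ps 0 0 0 g)) =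
      (Pn N y).filter fun S => C (pos S) := by
    rw [Pool.Agent.W_7d29a1_Z.pcs_pos, ← Pn_filter]
    refine filter_congr fun S _ => ?_
    have : Pool.Agent.W_7d29a1_Z.ps 0 0 0 S = pos S := funext fun t => Pool.Agent.W_7d29a1_Z.ps_pos S t
    rw [this]
  have e2 : ∀ (D : DecidablePred fun g => C (Pool.Agent.W_7d29a1_Z.ps 0 0 0 g)),
      (@filter _ (fun g => C (Pool.Agent.W_7d29a1_Z.ps 0 0 0 g)) D (Pool.Agent.W_7d29a1_Z.pcs 0 0 0 N (y : ℤ))) =
      (Pn N y).filter fun S => C (pos S) := fun D => by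
    rw [← e1]
    congr
  rw [e2, sum_filter]
  unfold mC
  rw [sum_mul]
  have e3 : ∀ S : Px (Pn N y), pth μ s η N S.1 / ZC μ s N (y : ℤ) η * (if C (pos S.1) then 1 else 0) * ZC μ s N (y : ℤ) η =
      if C (pos S.1) then Pool.Agent.W_7d29a1_Z.pw μ s 0 η 0 0 N S.1 else 0 := fun S => by
    rw [Pool.Agent.W_7d29a1_Z.pw_pth]
    split_ifs
    · rw [mul_one, div_mul_cancel₀ _ (ZC_pos13 hy η).ne']
    · ring
  rw [sum_congr rfl fun S _ => e3 S]
  exact (sum_Px (Q := Pn N y) fun S => if C (pos S) then Pool.Agent.W_7d29a1_Z.pw μ s 0 η 0 0 N S else 0).symm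

theorem kk_le_ZC (C : (ℕ → ℤ) → Prop) (η : Env) {S : Finset ℕ} (hS : pos S N = (y : ℤ)) :
    kk μ s C η 0 N (pos S) ≤ ZC μ s N (y : ℤ) η := by
  unfold kk
  rw [pos_zero, hS]
  unfold ZC
  rw [Pool.Agent.W_7d29a1_Z.W_eq_Kf0]
  exact Pool.Agent.W_7d29a1_Z.Kc_le_Kf _ _ _ _ _ _ _

theorem mC_nonneg [IsProbabilityMeasure μ] (hy : y ≤ N) (C : (ℕ → ℤ) → Prop) (η : Env) : 0 ≤ mC μ s N y C η := by
  unfold mC
  refine sum_nonneg fun S _ => mul_nonneg (div_nonneg (pth_pos13 η N _).le (ZC_pos13 hy η).le) ?_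
  split_ifs <;> norm_num

theorem mC_le_one [IsProbabilityMeasure μ] (hy : y ≤ N) (C : (ℕ → ℤ) → Prop) (η : Env) : mC μ s N y C η ≤ 1 := by
  have h := rep_coord (μ := μ) (s := s) hy η (k := 0) 0 fun S : Px (Pn N y) => (1 : ℝ)
  have h2 := rep_le_one (μ := μ) (s := s) hy η 1 (Ψ := fun _ => (1 : ℝ)) fun _ => le_rfl
  rw [h] at h2
  refine le_trans ?_ h2
  unfold mC
  refine sum_le_sum fun S _ => mul_le_mul_of_nonneg_left ?_ (div_nonneg (pth_pos13 η N _).le (ZC_pos13 hy η).le)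
  split_ifs <;> norm_num

/-- A class of mass at least `e ^ (-M)` is a near tie for every path left of the line (bracket `(0, N)`). -/
theorem nte_of_mass [IsProbabilityMeasure μ] (hy : y ≤ N) {V : Win} (hVN : V.N = N) (hVH : V.H = N) {L : ℕ} {e C : ℝ} {i₀ i₁ : ℕ} {M : ℝ}
    {η : Env} (hM : Real.exp (-M) ≤ mC μ s N y (cE μ s V L e C i₀ i₁) η) {S : Finset ℕ} (hS : pos S N = (y : ℤ))
    (hL : InL μ s V.sg V.J V.Y S) (hJ : ∀ i ∈ V.J, 0 < i ∧ i < N) : NTE μ s V L e C i₀ i₁ M η S := by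
  refine ⟨hL, (0, N), ?_, ?_⟩
  · unfold Br
    rw [mem_filter, mem_product, mem_range, mem_range, hVN, hVH]
    exact ⟨⟨Nat.succ_pos _, Nat.lt_succ_self _⟩, (Nat.zero_add N).ge, hJ⟩
  · rw [kC_clE V L e C i₀ i₁ S hJ, kC_clL V S hJ, kk_mC hy (cE μ s V L e C i₀ i₁) η hS]
    refine mul_le_mul hM (kk_le_ZC _ η hS) (kk_nonneg _ _ _ _ _) (mC_nonneg hy _ η)

open scoped Classical in
/-- The observable of one line: the own replica `l` is near the line and on its left, the others are outside of the strip. -/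
def PsL (μ : Measure ℝ) (s : ℝ) (V : Win) (nr : Finset ℕ → Prop) {k : ℕ} (X : Env → (Fin (k + 1) → Px (Pn N y)) → ℝ)
    (l : Fin (k + 1)) (η : Env) (x : Fin (k + 1) → Px (Pn N y)) : ℝ :=
  (if InL μ s V.sg V.J V.Y (x l).1 then 1 else 0) *
    ((if nr (x l).1 ∧ ∀ i : Fin k, Av μ s V (x (l.succAbove i)).1 then 1 else 0) * X η x)

theorem PsL_meas {V : Win} {nr : Finset ℕ → Prop} {k : ℕ} {X : Env → (Fin (k + 1) → Px (Pn N y)) → ℝ}
    (hm : ∀ x, Measurable fun η => X η x) (l : Fin (k + 1)) (x : Fin (k + 1) → Px (Pn N y)) :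
    Measurable fun η => PsL μ s V nr X l η x := ((hm x).const_mul _).const_mul _

theorem PsL_nonneg {V : Win} {nr : Finset ℕ → Prop} {k : ℕ} {X : Env → (Fin (k + 1) → Px (Pn N y)) → ℝ}
    (h0 : ∀ η x, 0 ≤ X η x) (l : Fin (k + 1)) (η : Env) (x : Fin (k + 1) → Px (Pn N y)) : 0 ≤ PsL μ s V nr X l η x := by
  unfold PsL
  refine mul_nonneg (by split_ifs <;> norm_num) (mul_nonneg (by split_ifs <;> norm_num) (h0 _ _))

theorem PsL_le_X {V : Win} {nr : Finset ℕ → Prop} {k : ℕ} {X : Env → (Fin (k + 1) → Px (Pn N y)) → ℝ}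
    (h0 : ∀ η x, 0 ≤ X η x) (l : Fin (k + 1)) (η : Env) (x : Fin (k + 1) → Px (Pn N y)) : PsL μ s V nr X l η x ≤ X η x := by
  unfold PsL
  have := h0 η x
  split_ifs <;> linarith

/-- The replica average of one line as a mass with the weight `RR`. -/
theorem rep_PsL (η : Env) {V : Win} {nr : Finset ℕ → Prop} {k : ℕ} (X : Env → (Fin (k + 1) → Px (Pn N y)) → ℝ) (l : Fin (k + 1)) :
    rep (k + 1) (lw μ s η N (Pn N y)) (PsL μ s V nr X l η) = ∑ S : Px (Pn N y), pth μ s η N S.1 / ZC μ s N (y : ℤ) η *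
      ((by classical exact if InL μ s V.sg V.J V.Y S.1 then 1 else 0) * rdW μ s N (y : ℤ) k (RR μ s N y V nr X l) S.1 η) := by
  classical
  rw [rep_ins η l]
  refine sum_congr rfl fun S _ => ?_
  congr 1
  unfold rdW RR
  rw [dif_pos S.2, ← mul_div_assoc, mul_sum]
  congr 1
  refine sum_congr rfl fun T _ => ?_
  unfold PsL
  rw [Fin.insertNth_apply_same]
  simp only [Fin.insertNth_apply_succAbove]
  ring

open scoped Classical in
/-- The quenched inequality. -/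
theorem one_line_q [IsProbabilityMeasure μ] (hy : y ≤ N) {V : Win} (hVN : V.N = N) (hVH : V.H = N) {L : ℕ} {e C : ℝ} {i₀ i₁ : ℕ} {M : ℝ}
    (hJ : ∀ i ∈ V.J, 0 < i ∧ i < N) {nr : Finset ℕ → Prop} {k : ℕ} {X : Env → (Fin (k + 1) → Px (Pn N y)) → ℝ}
    (hm : ∀ x, Measurable fun η => X η x) (h0 : ∀ η x, 0 ≤ X η x) (h1 : ∀ η x, X η x ≤ 1) (l : Fin (k + 1)) (η : Env) :
    rep (k + 2) (lw μ s η N (Pn N y)) (fun x => (if cE μ s V L e C i₀ i₁ (pos (x 0).1) then 1 else 0) *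
      PsL μ s V nr X l η (Fin.tail x)) ≤ Real.exp (-M) + ∑ S ∈ (range N).powerset, (if NTE μ s V L e C i₀ i₁ M η S then (1 : ℝ) else 0) *
        (gp μ s η N (y : ℤ) S * rdW μ s N (y : ℤ) k (RR μ s N y V nr X l) S η) := by
  have hne : Nonempty (Px (Pn N y)) := ne_Pn hy
  have hy0 : (0 : ℤ) ≤ (y : ℤ) := by positivity
  have hyN : (y : ℤ) ≤ (N : ℤ) := by exact_mod_cast hy
  have hok := RR_ok (μ := μ) (s := s) (V := V) (nr := nr) hm h0 h1 l
  have hr := rep_cons (k + 1) (lw μ s η N (Pn N y)) (fun S : Px (Pn N y) => if cE μ s V L e C i₀ i₁ (pos S.1) then 1 else 0)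
    (PsL μ s V nr X l η)
  have hg : gm (lw μ s η N (Pn N y)) (fun S : Px (Pn N y) => if cE μ s V L e C i₀ i₁ (pos S.1) then 1 else 0) =
      mC μ s N y (cE μ s V L e C i₀ i₁) η := by
    unfold gm mC
    rw [gz_lw, sum_div]
    refine sum_congr rfl fun S _ => ?_
    rw [exp_lw]
    ring
  rw [hg] at hr
  rw [hr]
  have hP0 : 0 ≤ rep (k + 1) (lw μ s η N (Pn N y)) (PsL μ s V nr X l η) := rep_nonneg13 _ _ (PsL_nonneg h0 l η)
  have hP1 : rep (k + 1) (lw μ s η N (Pn N y)) (PsL μ s V nr X l η) ≤ 1 :=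
    rep_le_one hy η _ fun x => (PsL_le_X h0 l η x).trans (h1 η x)
  have hs0 : 0 ≤ ∑ S ∈ (range N).powerset, (if NTE μ s V L e C i₀ i₁ M η S then (1 : ℝ) else 0) *
        (gp μ s η N (y : ℤ) S * rdW μ s N (y : ℤ) k (RR μ s N y V nr X l) S η) :=
    sum_nonneg fun S _ => mul_nonneg (by split_ifs <;> norm_num) (mul_nonneg (gp_nonneg36 _ _ _ _) (hok.r0 hy0 hyN S η))
  rcases lt_or_ge (mC μ s N y (cE μ s V L e C i₀ i₁) η) (Real.exp (-M)) with hlt | hge
  · have : mC μ s N y (cE μ s V L e C i₀ i₁) η * rep (k + 1) (lw μ s η N (Pn N y)) (PsL μ s V nr X l η) ≤ Real.exp (-M) * 1 :=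
      mul_le_mul hlt.le hP1 hP0 (Real.exp_pos _).le
    linarith
  · have h2 : mC μ s N y (cE μ s V L e C i₀ i₁) η * rep (k + 1) (lw μ s η N (Pn N y)) (PsL μ s V nr X l η) ≤
        1 * rep (k + 1) (lw μ s η N (Pn N y)) (PsL μ s V nr X l η) := mul_le_mul_of_nonneg_right (mC_le_one hy _ η) hP0
    have h3 : rep (k + 1) (lw μ s η N (Pn N y)) (PsL μ s V nr X l η) ≤
        ∑ S ∈ (range N).powerset, (if NTE μ s V L e C i₀ i₁ M η S then (1 : ℝ) else 0) *
        (gp μ s η N (y : ℤ) S * rdW μ s N (y : ℤ) k (RR μ s N y V nr X l) S η) := by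
      have e1 : ∑ S ∈ (range N).powerset, (if NTE μ s V L e C i₀ i₁ M η S then (1 : ℝ) else 0) *
          (gp μ s η N (y : ℤ) S * rdW μ s N (y : ℤ) k (RR μ s N y V nr X l) S η) =
          ∑ S ∈ (range N).powerset, gp μ s η N (y : ℤ) S * ((if NTE μ s V L e C i₀ i₁ M η S then (1 : ℝ) else 0) *
            rdW μ s N (y : ℤ) k (RR μ s N y V nr X l) S η) := sum_congr rfl fun S _ => by ring
      rw [e1, sum_gp_Px η fun S => (if NTE μ s V L e C i₀ i₁ M η S then (1 : ℝ) else 0) *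
            rdW μ s N (y : ℤ) k (RR μ s N y V nr X l) S η, rep_PsL]
      refine sum_le_sum fun S _ => mul_le_mul_of_nonneg_left ?_ (div_nonneg (pth_pos13 η N _).le (ZC_pos13 hy η).le)
      refine mul_le_mul_of_nonneg_right ?_ (hok.r0 hy0 hyN S.1 η)
      by_cases hL : InL μ s V.sg V.J V.Y S.1
      · rw [if_pos hL, if_pos (nte_of_mass hy hVN hVH hge (mem_Pn.1 S.2).2 hL hJ)]
      · rw [if_neg hL]
        split_ifs <;> norm_num
    linarith [Real.exp_pos (-M)]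

theorem InL_ms (sg : ℤ) (J : Finset ℕ) (Y : ℤ) : Ms fun _ S => InL μ s sg J Y S := by
  intro S
  by_cases h : InL μ s sg J Y S
  · simp [h]
  · simp [h]

open scoped Classical in
/-- **The price of one line.** -/
theorem one_line [IsProbabilityMeasure μ] (hy : y ≤ N) {V : Win} (hVN : V.N = N) (hVy : V.y = (y : ℤ)) (hVH : V.H = N) {L : ℕ} {e C : ℝ}
    {i₀ i₁ : ℕ} {M q δ : ℝ} (hq : 0 ≤ q) (hδ : 0 ≤ δ) (hJ : ∀ i ∈ V.J, 0 < i ∧ i < N) {nr : Finset ℕ → Prop} {k : ℕ}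
    {X : Env → (Fin (k + 1) → Px (Pn N y)) → ℝ} (hm : ∀ x, Measurable fun η => X η x) (h0 : ∀ η x, 0 ≤ X η x)
    (h1 : ∀ η x, X η x ≤ 1) (l : Fin (k + 1))
    (hT : PR μ s N (y : ℤ) (rdW μ s N (y : ℤ) k (RR μ s N y V nr X l)) (NTE μ s V L e C i₀ i₁ M) ≤
        ENNReal.ofReal q * PR μ s N (y : ℤ) (rdW μ s N (y : ℤ) k (RR μ s N y V nr X l)) (fun _ S => InL μ s V.sg V.J V.Y S) +
          ENNReal.ofReal δ) :
    ∫ η, rep (k + 2) (lw μ s η N (Pn N y)) (fun x => (if cE μ s V L e C i₀ i₁ (pos (x 0).1) then 1 else 0) *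
      PsL μ s V nr X l η (Fin.tail x)) ∂(law μ) ≤
      q * ∫ η, rep (k + 1) (lw μ s η N (Pn N y)) (PsL μ s V nr X l η) ∂(law μ) + (Real.exp (-M) + δ) := by
  have hne : Nonempty (Px (Pn N y)) := ne_Pn hy
  have hy0 : (0 : ℤ) ≤ (y : ℤ) := by positivity
  have hyN : (y : ℤ) ≤ (N : ℤ) := by exact_mod_cast hy
  have hok := RR_ok (μ := μ) (s := s) (V := V) (nr := nr) hm h0 h1 l
  have hrm := fun S => hok.rm S
  have hr0 := fun S η => hok.r0 hy0 hyN S η
  have hr1 := fun S η => hok.r1 hy0 hyN S η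
  rw [PR_eq hrm hr0 hr1 (NTE_ms _ _ _ _ _ _ _), PR_eq hrm hr0 hr1 (InL_ms _ _ _), ← ENNReal.ofReal_mul hq,
    ← ENNReal.ofReal_add (mul_nonneg hq (integral_nonneg fun η => sum_nonneg fun S _ => mul_nonneg (by split_ifs <;> norm_num)
      (mul_nonneg (gp_nonneg36 _ _ _ _) (hr0 S η)))) hδ,
    ENNReal.ofReal_le_ofReal_iff (add_nonneg (mul_nonneg hq (integral_nonneg fun η => sum_nonneg fun S _ =>
      mul_nonneg (by split_ifs <;> norm_num) (mul_nonneg (gp_nonneg36 _ _ _ _) (hr0 S η)))) hδ)] at hT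
  -- the mass left of the line is the average
  have e2 : ∀ η : Env, ∑ S ∈ (range N).powerset, (if InL μ s V.sg V.J V.Y S then (1 : ℝ) else 0) *
      (gp μ s η N (y : ℤ) S * rdW μ s N (y : ℤ) k (RR μ s N y V nr X l) S η) =
      rep (k + 1) (lw μ s η N (Pn N y)) (PsL μ s V nr X l η) := by
    intro η
    have e1 : ∑ S ∈ (range N).powerset, (if InL μ s V.sg V.J V.Y S then (1 : ℝ) else 0) *
          (gp μ s η N (y : ℤ) S * rdW μ s N (y : ℤ) k (RR μ s N y V nr X l) S η) =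
          ∑ S ∈ (range N).powerset, gp μ s η N (y : ℤ) S * ((if InL μ s V.sg V.J V.Y S then (1 : ℝ) else 0) *
            rdW μ s N (y : ℤ) k (RR μ s N y V nr X l) S η) := sum_congr rfl fun S _ => by ring
    rw [e1, sum_gp_Px η fun S => (if InL μ s V.sg V.J V.Y S then (1 : ℝ) else 0) *
            rdW μ s N (y : ℤ) k (RR μ s N y V nr X l) S η, rep_PsL]
  have e3 : ∫ η, ∑ S ∈ (range N).powerset, (if InL μ s V.sg V.J V.Y S then (1 : ℝ) else 0) *
      (gp μ s η N (y : ℤ) S * rdW μ s N (y : ℤ) k (RR μ s N y V nr X l) S η) ∂(law μ) =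
      ∫ η, rep (k + 1) (lw μ s η N (Pn N y)) (PsL μ s V nr X l η) ∂(law μ) := integral_congr_ae (Filter.Eventually.of_forall e2)
  rw [e3] at hT
  -- the quenched inequality
  have hm' : ∀ S, Measurable fun η : Env => (if NTE μ s V L e C i₀ i₁ M η S then (1 : ℝ) else 0) *
      (gp μ s η N (y : ℤ) S * rdW μ s N (y : ℤ) k (RR μ s N y V nr X l) S η) := fun S =>
    (Measurable.ite (NTE_ms _ _ _ _ _ _ _ S) measurable_const measurable_const).mul ((gp_meas36 N (y : ℤ) S).mul (hrm S))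
  have hint : Integrable (fun η : Env => ∑ S ∈ (range N).powerset, (if NTE μ s V L e C i₀ i₁ M η S then (1 : ℝ) else 0) *
      (gp μ s η N (y : ℤ) S * rdW μ s N (y : ℤ) k (RR μ s N y V nr X l) S η)) (law μ) := by
    refine Integrable.of_bound (Finset.measurable_sum _ fun S _ => hm' S).aestronglyMeasurable 1
      (Filter.Eventually.of_forall fun η => ?_)
    have hpos : ∀ S, 0 ≤ (if NTE μ s V L e C i₀ i₁ M η S then (1 : ℝ) else 0) *
      (gp μ s η N (y : ℤ) S * rdW μ s N (y : ℤ) k (RR μ s N y V nr X l) S η) := fun S =>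
      mul_nonneg (by split_ifs <;> norm_num) (mul_nonneg (gp_nonneg36 _ _ _ _) (hr0 S η))
    rw [Real.norm_eq_abs, abs_of_nonneg (sum_nonneg fun S _ => hpos S)]
    refine le_trans (sum_le_sum fun S _ => ?_) (sum_gp_mul_le_one (μ := μ) (s := s) η N (y : ℤ) (a := fun S => 1) fun _ => le_rfl)
    have g1 := gp_nonneg36 (μ := μ) (s := s) η N (y : ℤ) S
    have g2 := mul_le_mul_of_nonneg_left (hr1 S η) g1
    split_ifs
    · linarith
    · linarith
  have hq1 : ∀ η : Env, rep (k + 2) (lw μ s η N (Pn N y)) (fun x => (if cE μ s V L e C i₀ i₁ (pos (x 0).1) then 1 else 0) *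
      PsL μ s V nr X l η (Fin.tail x)) ≤ Real.exp (-M) + ∑ S ∈ (range N).powerset, (if NTE μ s V L e C i₀ i₁ M η S then (1 : ℝ) else 0) *
        (gp μ s η N (y : ℤ) S * rdW μ s N (y : ℤ) k (RR μ s N y V nr X l) S η) := fun η => one_line_q hy hVN hVH hJ hm h0 h1 l η
  have h5 := integral_mono (μ := law μ) (rep_int hy (k + 2) (fun x => (PsL_meas hm l (Fin.tail x)).const_mul _)
    (fun η x => mul_nonneg (by split_ifs <;> norm_num) (PsL_nonneg h0 l η _))
    (fun η x => by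
      have g1 := PsL_nonneg (μ := μ) (s := s) (V := V) (nr := nr) h0 l η (Fin.tail x)
      have g2 := (PsL_le_X (μ := μ) (s := s) (V := V) (nr := nr) h0 l η (Fin.tail x)).trans (h1 η _)
      split_ifs <;> linarith)) ((integrable_const _).add hint) hq1
  have h6 : ∫ η, ((fun _ : Env => Real.exp (-M)) + fun η : Env => ∑ S ∈ (range N).powerset,
      (if NTE μ s V L e C i₀ i₁ M η S then (1 : ℝ) else 0) *
      (gp μ s η N (y : ℤ) S * rdW μ s N (y : ℤ) k (RR μ s N y V nr X l) S η)) η ∂(law μ) = Real.exp (-M) +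
      ∫ η, ∑ S ∈ (range N).powerset, (if NTE μ s V L e C i₀ i₁ M η S then (1 : ℝ) else 0) *
      (gp μ s η N (y : ℤ) S * rdW μ s N (y : ℤ) k (RR μ s N y V nr X l) S η) ∂(law μ) := by
    rw [integral_add' (integrable_const _) hint, integral_const, probReal_univ, one_smul]
  rw [h6] at h5
  linarith

end

end Pool.Agent.W_7d29a1_C0.F13
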