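import Pool.Agent.W_7d29a1_C0.NM82
import Pool.Agent.W_7d29a1_C0.BoxS19
import Pool.Agent.W_7d29a1_C0.LocM18

/-!
MP_7d29a1_pr, [CURV0], leaf E1f, F5 (helper34): THE FAR TERMS OF E1, path side.

A free replica `S0` which is at distance at least `R` from both replicas `S1`, `S2` of the plan in some row of the slab: either it is an
extreme one in the row `τ` in front of the slab, or it lies between them; then `|f S1 - f S2| ≤ |f S1 - f S0| + |f S0 - f S2|`, and in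
each of the two terms the third replica is an extreme one (`far_cases`). `rep_far`: the three replica average of `far × NI |f - f'|` is at
most three times the average over the extreme positions, and the mass of the steep paths.
-/

set_option autoImplicit false
set_option linter.unusedSectionVars false
set_option linter.unusedVariables false

namespace Pool.Agent.W_7d29a1_C0.Far34

open Finset MeasureTheory Pool.Agent.W_7d29a1_F Pool.Agent.W_7d29a1_X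
open Pool.Agent.W_7d29a1_C0 Pool.Agent.W_7d29a1_C0.Mod92 Pool.Agent.W_7d29a1_C0.Swap57
open Pool.W7d29a1.C0
open Pool.W7d29a1.C0.VT31

noncomputable section

/-! ### Permutations of the replicas -/

section perm

variable {X : Type*} [Fintype X] [Nonempty X]

/-- The replica average is symmetric. -/
theorem rep_perm (m : ℕ) (w : X → ℝ) (σ : Equiv.Perm (Fin m)) (Ψ : (Fin m → X) → ℝ) :
    rep m w (fun x => Ψ fun i => x (σ i)) = rep m w Ψ := by
  unfold rep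
  congr 1
  rw [← (Equiv.arrowCongr σ.symm (Equiv.refl X)).sum_comp fun x => Real.exp (∑ i, w (x i)) * Ψ x]
  refine sum_congr rfl fun x _ => ?_
  have e : (Equiv.arrowCongr σ.symm (Equiv.refl X)) x = fun i => x (σ i) := by
    funext i
    simp [Equiv.arrowCongr]
  rw [e]
  congr 2
  exact (Equiv.sum_comp σ fun i => w (x i)).symm

/-- The average of a function of one replica. -/
theorem rep_coord (m : ℕ) (w : X → ℝ) (g : X → ℝ) (i : Fin (m + 1)) : rep (m + 1) w (fun x => g (x i)) = gm w g := by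
  have h := rep_perm (m + 1) w (Equiv.swap 0 i) fun x => g (x i)
  simp only [Equiv.swap_apply_right] at h
  rw [← h]
  have h2 := rep_cons m w g fun _ => 1
  simp only [mul_one] at h2
  rw [h2, H41.rep_one, mul_one]

end perm

/-! ### The path side -/

variable {N : ℕ} {Q : Finset (Finset ℕ)}

/-- The path is flat: the displacement over `k` rows is `σ k` up to `v k`. -/
def Fl (N : ℕ) (σ : ℝ) (v : ℕ → ℝ) (S : Px Q) : Prop :=
  ∀ i k : ℕ, 1 ≤ k → i + k ≤ N → |((ps S (i + k) - ps S i : ℤ) : ℝ) - σ * k| ≤ v k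

/-- The difference of two flat paths moves slowly. -/
theorem Fl.diff {σ : ℝ} {v : ℕ → ℝ} (hv : 0 ≤ v 0) {S T : Px Q} (hS : Fl N σ v S) (hT : Fl N σ v T) {i j : ℕ} (hij : i ≤ j) (hj : j ≤ N) :
    |((ps S j - ps T j : ℤ) : ℝ) - ((ps S i - ps T i : ℤ) : ℝ)| ≤ 2 * v (j - i) := by
  rcases Nat.eq_or_lt_of_le hij with h | h
  · subst h
    simp only [sub_self, abs_zero, Nat.sub_self]
    linarith
  · have h1 := hS i (j - i) (by omega) (by omega)
    have h2 := hT i (j - i) (by omega) (by omega)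
    rw [show i + (j - i) = j by omega] at h1 h2
    have e : ((ps S j - ps T j : ℤ) : ℝ) - ((ps S i - ps T i : ℤ) : ℝ) =
        (((ps S j - ps S i : ℤ) : ℝ) - σ * (j - i : ℕ)) - (((ps T j - ps T i : ℤ) : ℝ) - σ * (j - i : ℕ)) := by
      push_cast
      ring
    rw [e]
    refine (abs_sub _ _).trans ?_
    linarith

/-- The pair functional. -/
def Zf (m0 m1 : ℕ) (f : Px Q → ℝ) (S T : Px Q) : ℝ := NI m0 m1 S T * |f S - f T|

theorem Zf_nonneg (m0 m1 : ℕ) (f : Px Q → ℝ) (S T : Px Q) : 0 ≤ Zf m0 m1 f S T := mul_nonneg (NI_nonneg _ _ _ _) (abs_nonneg _)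

theorem NI_le_one (i j : ℕ) (S S' : Px Q) : NI i j S S' ≤ 1 := by
  unfold NI
  split_ifs <;> norm_num

theorem Zf_le {m0 m1 : ℕ} {f : Px Q → ℝ} {D : ℝ} (hf : ∀ S, |f S| ≤ D) (S T : Px Q) : Zf m0 m1 f S T ≤ 2 * D := by
  unfold Zf
  have h1 : |f S - f T| ≤ 2 * D := (abs_sub _ _).trans (by linarith [hf S, hf T])
  calc NI m0 m1 S T * |f S - f T| ≤ 1 * |f S - f T| := mul_le_mul_of_nonneg_right (NI_le_one _ _ _ _) (abs_nonneg _)
    _ ≤ 2 * D := by rw [one_mul]; exact h1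

/-- The replica `S0` is, on the side `sg`, at distance at least `r` from the replicas `S1` and `S2` in the row `τ`. -/
def exI (sg : ℤ) (r : ℝ) (τ : ℕ) (S0 S1 S2 : Px Q) : ℝ :=
  if r ≤ (sg : ℝ) * ((ps S0 τ - ps S1 τ : ℤ) : ℝ) ∧ r ≤ (sg : ℝ) * ((ps S0 τ - ps S2 τ : ℤ) : ℝ) then 1 else 0

theorem exI_nonneg (sg : ℤ) (r : ℝ) (τ : ℕ) (S0 S1 S2 : Px Q) : 0 ≤ exI sg r τ S0 S1 S2 := by
  unfold exI
  split_ifs <;> norm_num

/-- The replica `S0` is, in some row of `J`, at distance at least `R` from `S1` and from `S2`. -/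
def FarJ (J : Finset ℕ) (R : ℝ) (S0 S1 S2 : Px Q) : Prop :=
  ∃ m ∈ J, R ≤ |((ps S0 m - ps S1 m : ℤ) : ℝ)| ∧ R ≤ |((ps S0 m - ps S2 m : ℤ) : ℝ)|

open Classical in
/-- Its indicator. -/
def farI (J : Finset ℕ) (R : ℝ) (S0 S1 S2 : Px Q) : ℝ := if FarJ J R S0 S1 S2 then 1 else 0

theorem farI_nonneg (J : Finset ℕ) (R : ℝ) (S0 S1 S2 : Px Q) : 0 ≤ farI J R S0 S1 S2 := by
  unfold farI
  split_ifs <;> norm_num

theorem farI_le_one (J : Finset ℕ) (R : ℝ) (S0 S1 S2 : Px Q) : farI J R S0 S1 S2 ≤ 1 := by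
  unfold farI
  split_ifs <;> norm_num

section cases

variable {σ : ℝ} {v : ℕ → ℝ} {J : Finset ℕ} {R r : ℝ} {τ m0 m1 : ℕ}

/-- Two replicas at distance at least `R` in a row of the slab do not meet in `[m0, m1]`. -/
theorem NI_of_far (hv : 0 ≤ v 0) (hr : 0 < r) (hR : ∀ k, k ≤ m1 - τ → r + 2 * v k ≤ R) (hτ : τ ≤ m0) (h1 : m1 ≤ N) {m : ℕ} (hm0 : m0 ≤ m)
    (hm1 : m ≤ m1) {S T : Px Q} (hS : Fl N σ v S) (hT : Fl N σ v T) (h : R ≤ |((ps S m - ps T m : ℤ) : ℝ)|) : NI m0 m1 S T = 1 := by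
  unfold NI
  rw [if_pos]
  intro k hk0 hk1 he
  have e0 : ((ps S k - ps T k : ℤ) : ℝ) = 0 := by
    rw [he]
    simp
  rcases Nat.le_total k m with hkm | hkm
  · have h2 := Fl.diff hv hS hT hkm (hm1.trans h1)
    rw [e0, sub_zero] at h2
    have h3 := hR (m - k) (by omega)
    linarith
  · have h2 := Fl.diff hv hS hT hkm (hk1.trans h1)
    rw [e0, zero_sub, abs_neg] at h2
    have h3 := hR (k - m) (by omega)
    linarith

/-- The distance in front of the slab. -/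
theorem dist_front (hv : 0 ≤ v 0) (hR : ∀ k, k ≤ m1 - τ → r + 2 * v k ≤ R) (hτ : τ ≤ m0) (h1 : m1 ≤ N) {m : ℕ} (hm0 : m0 ≤ m)
    (hm1 : m ≤ m1) {S T : Px Q} (hS : Fl N σ v S) (hT : Fl N σ v T) (h : R ≤ ((ps S m - ps T m : ℤ) : ℝ)) :
    r ≤ ((ps S τ - ps T τ : ℤ) : ℝ) := by
  have h2 := Fl.diff hv hS hT (hτ.trans hm0) (hm1.trans h1)
  have h3 := hR (m - τ) (by omega)
  have h4 := le_abs_self (((ps S m - ps T m : ℤ) : ℝ) - ((ps S τ - ps T τ : ℤ) : ℝ))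
  linarith

theorem exI_pos {S0 S1 S2 : Px Q} (h1 : r ≤ ((ps S0 τ - ps S1 τ : ℤ) : ℝ)) (h2 : r ≤ ((ps S0 τ - ps S2 τ : ℤ) : ℝ)) :
    exI 1 r τ S0 S1 S2 = 1 := by
  unfold exI
  rw [if_pos]
  simp only [Int.cast_one, one_mul]
  exact ⟨h1, h2⟩

theorem exI_neg {S0 S1 S2 : Px Q} (h1 : r ≤ ((ps S1 τ - ps S0 τ : ℤ) : ℝ)) (h2 : r ≤ ((ps S2 τ - ps S0 τ : ℤ) : ℝ)) :
    exI (-1) r τ S0 S1 S2 = 1 := by
  unfold exI
  rw [if_pos]
  push_cast at h1 h2 ⊢
  constructor <;> linarith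

/-- The two extreme positions. -/
def ex2 (r : ℝ) (τ : ℕ) (S0 S1 S2 : Px Q) : ℝ := exI 1 r τ S0 S1 S2 + exI (-1) r τ S0 S1 S2

theorem ex2_nonneg (r : ℝ) (τ : ℕ) (S0 S1 S2 : Px Q) : 0 ≤ ex2 r τ S0 S1 S2 := add_nonneg (exI_nonneg _ _ _ _ _ _) (exI_nonneg _ _ _ _ _ _)

/-- **The cases**: the far replica is an extreme one, or it is between the two others. -/
theorem far_cases (hv : 0 ≤ v 0) (hr : 0 < r) (hR : ∀ k, k ≤ m1 - τ → r + 2 * v k ≤ R) (hτ : τ ≤ m0) (h1 : m1 ≤ N)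
    (hJ : ∀ m ∈ J, m0 ≤ m ∧ m ≤ m1) (f : Px Q → ℝ) {S0 S1 S2 : Px Q} (g0 : Fl N σ v S0) (g1 : Fl N σ v S1) (g2 : Fl N σ v S2)
    (hfar : FarJ J R S0 S1 S2) :
    Zf m0 m1 f S1 S2 ≤ ex2 r τ S0 S1 S2 * Zf m0 m1 f S1 S2 + ex2 r τ S1 S0 S2 * Zf m0 m1 f S0 S2 + ex2 r τ S2 S1 S0 * Zf m0 m1 f S1 S0 := by
  obtain ⟨m, hm, d1, d2⟩ := hfar
  obtain ⟨hm0, hm1⟩ := hJ m hm
  have z12 := Zf_nonneg m0 m1 f S1 S2
  have z02 := Zf_nonneg m0 m1 f S0 S2
  have z10 := Zf_nonneg m0 m1 f S1 S0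
  have p0 := mul_nonneg (ex2_nonneg r τ S0 S1 S2) z12
  have p1 := mul_nonneg (ex2_nonneg r τ S1 S0 S2) z02
  have p2 := mul_nonneg (ex2_nonneg r τ S2 S1 S0) z10
  have n01 : NI m0 m1 S1 S0 = 1 := NI_of_far (σ := σ) (v := v) (r := r) (R := R) hv hr hR hτ h1 hm0 hm1 g1 g0 (by
    have e : ((ps S1 m - ps S0 m : ℤ) : ℝ) = -((ps S0 m - ps S1 m : ℤ) : ℝ) := by push_cast; ring
    rw [e, abs_neg]
    exact d1)
  have n02 : NI m0 m1 S0 S2 = 1 := NI_of_far (σ := σ) (v := v) (r := r) (R := R) hv hr hR hτ h1 hm0 hm1 g0 g2 d2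
  have tri : Zf m0 m1 f S1 S2 ≤ Zf m0 m1 f S0 S2 + Zf m0 m1 f S1 S0 := by
    unfold Zf
    rw [n01, n02, one_mul, one_mul]
    have h2 := abs_sub_le (f S1) (f S0) (f S2)
    have h3 : NI m0 m1 S1 S2 * |f S1 - f S2| ≤ 1 * |f S1 - f S2| := mul_le_mul_of_nonneg_right (NI_le_one _ _ _ _) (abs_nonneg _)
    linarith
  have neg : ∀ A B : Px Q, ((ps A m - ps B m : ℤ) : ℝ) = -((ps B m - ps A m : ℤ) : ℝ) := fun A B => by push_cast; ring
  have R0 : 0 < R := by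
    have h2 := hR 0 (Nat.zero_le _)
    linarith
  have front : ∀ {A B : Px Q}, Fl N σ v A → Fl N σ v B → R ≤ ((ps A m - ps B m : ℤ) : ℝ) → r ≤ ((ps A τ - ps B τ : ℤ) : ℝ) :=
    fun hA hB h => dist_front hv hR hτ h1 hm0 hm1 hA hB h
  have one_le : ∀ {A B C : Px Q}, exI 1 r τ A B C = 1 → 1 ≤ ex2 r τ A B C := fun {A B C} h => by
    unfold ex2
    have := exI_nonneg (-1) r τ A B C
    linarith
  have one_le' : ∀ {A B C : Px Q}, exI (-1) r τ A B C = 1 → 1 ≤ ex2 r τ A B C := fun {A B C} h => by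
    unfold ex2
    have := exI_nonneg 1 r τ A B C
    linarith
  have up : ∀ {e z : ℝ}, 1 ≤ e → 0 ≤ z → z ≤ e * z := fun he hz => by nlinarith
  rcases le_abs'.1 d1 with k1 | k1 <;> rcases le_abs'.1 d2 with k2 | k2
  · -- below both
    have l1 : R ≤ ((ps S1 m - ps S0 m : ℤ) : ℝ) := by rw [neg]; linarith
    have l2 : R ≤ ((ps S2 m - ps S0 m : ℤ) : ℝ) := by rw [neg]; linarith
    have e := one_le' (exI_neg (front g1 g0 l1) (front g2 g0 l2))
    have := up e z12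
    linarith
  · -- `S2 < S0 < S1`
    have l1 : R ≤ ((ps S1 m - ps S0 m : ℤ) : ℝ) := by rw [neg]; linarith
    have l2 : R ≤ ((ps S1 m - ps S2 m : ℤ) : ℝ) := by
      have e : ((ps S1 m - ps S2 m : ℤ) : ℝ) = ((ps S1 m - ps S0 m : ℤ) : ℝ) + ((ps S0 m - ps S2 m : ℤ) : ℝ) := by push_cast; ring
      rw [e]
      linarith
    have a1 := one_le (exI_pos (front g1 g0 l1) (front g1 g2 l2))
    have a2 := one_le' (exI_neg (S0 := S2) (S1 := S1) (S2 := S0) (front g1 g2 l2) (front g0 g2 k2))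
    have b1 := up a1 z02
    have b2 := up a2 z10
    linarith
  · -- `S1 < S0 < S2`
    have l1 : R ≤ ((ps S2 m - ps S0 m : ℤ) : ℝ) := by rw [neg]; linarith
    have l2 : R ≤ ((ps S2 m - ps S1 m : ℤ) : ℝ) := by
      have e : ((ps S2 m - ps S1 m : ℤ) : ℝ) = ((ps S2 m - ps S0 m : ℤ) : ℝ) + ((ps S0 m - ps S1 m : ℤ) : ℝ) := by push_cast; ring
      rw [e]
      linarith
    have a1 := one_le' (exI_neg (S0 := S1) (S1 := S0) (S2 := S2) (front g0 g1 k1) (front g2 g1 l2))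
    have a2 := one_le (exI_pos (S0 := S2) (S1 := S1) (S2 := S0) (front g2 g1 l2) (front g2 g0 l1))
    have b1 := up a1 z02
    have b2 := up a2 z10
    linarith
  · -- above both
    have e := one_le (exI_pos (front g0 g1 k1) (front g0 g2 k2))
    have := up e z12
    linarith

end cases

/-! ### The average -/

open Classical in
/-- The indicator of the paths which are not flat. -/
def nfl (N : ℕ) (σ : ℝ) (v : ℕ → ℝ) (S : Px Q) : ℝ := if Fl N σ v S then 0 else 1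

theorem nfl_nonneg (N : ℕ) (σ : ℝ) (v : ℕ → ℝ) (S : Px Q) : 0 ≤ nfl N σ v S := by
  unfold nfl
  split_ifs <;> norm_num

variable [Nonempty (Px Q)]

/-- **The three replica average with a far free replica.** -/
theorem rep_far {σ : ℝ} {v : ℕ → ℝ} {J : Finset ℕ} {R r : ℝ} {τ m0 m1 : ℕ} (hv : 0 ≤ v 0) (hr : 0 < r)
    (hR : ∀ k, k ≤ m1 - τ → r + 2 * v k ≤ R) (hτ : τ ≤ m0) (h1 : m1 ≤ N) (hJ : ∀ m ∈ J, m0 ≤ m ∧ m ≤ m1) {f : Px Q → ℝ} {D : ℝ}
    (hf : ∀ S, |f S| ≤ D) (w : Px Q → ℝ) :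
    rep 3 w (fun y => farI J R (y 0) (y 1) (y 2) * Zf m0 m1 f (y 1) (y 2)) ≤
      3 * rep 3 w (fun y => exI 1 r τ (y 0) (y 1) (y 2) * Zf m0 m1 f (y 1) (y 2)) +
      3 * rep 3 w (fun y => exI (-1) r τ (y 0) (y 1) (y 2) * Zf m0 m1 f (y 1) (y 2)) + 6 * D * gm w (nfl N σ v) := by
  have hD : 0 ≤ D := (abs_nonneg _).trans (hf (Classical.arbitrary _))
  have k0 : rep 3 w (fun y => ex2 r τ (y 0) (y 1) (y 2) * Zf m0 m1 f (y 1) (y 2)) =
      rep 3 w (fun y => exI 1 r τ (y 0) (y 1) (y 2) * Zf m0 m1 f (y 1) (y 2)) +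
      rep 3 w (fun y => exI (-1) r τ (y 0) (y 1) (y 2) * Zf m0 m1 f (y 1) (y 2)) := by
    rw [← H41.rep_add]
    exact H41.rep_congr 3 w fun y => by
      unfold ex2
      ring
  have k1 : rep 3 w (fun y => ex2 r τ (y 1) (y 0) (y 2) * Zf m0 m1 f (y 0) (y 2)) =
      rep 3 w (fun y => ex2 r τ (y 0) (y 1) (y 2) * Zf m0 m1 f (y 1) (y 2)) := by
    rw [← rep_perm 3 w (Equiv.swap 0 1) fun y => ex2 r τ (y 0) (y 1) (y 2) * Zf m0 m1 f (y 1) (y 2)]
    exact H41.rep_congr 3 w fun y => rfl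
  have k2 : rep 3 w (fun y => ex2 r τ (y 2) (y 1) (y 0) * Zf m0 m1 f (y 1) (y 0)) =
      rep 3 w (fun y => ex2 r τ (y 0) (y 1) (y 2) * Zf m0 m1 f (y 1) (y 2)) := by
    rw [← rep_perm 3 w (Equiv.swap 0 2) fun y => ex2 r τ (y 0) (y 1) (y 2) * Zf m0 m1 f (y 1) (y 2)]
    exact H41.rep_congr 3 w fun y => rfl
  have kn : ∀ i : Fin 3, rep 3 w (fun y => nfl N σ v (y i)) = gm w (nfl N σ v) := fun i => rep_coord 2 w (nfl N σ v) i
  have key : rep 3 w (fun y => farI J R (y 0) (y 1) (y 2) * Zf m0 m1 f (y 1) (y 2)) ≤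
      rep 3 w (fun y => (ex2 r τ (y 0) (y 1) (y 2) * Zf m0 m1 f (y 1) (y 2) + ex2 r τ (y 1) (y 0) (y 2) * Zf m0 m1 f (y 0) (y 2) +
        ex2 r τ (y 2) (y 1) (y 0) * Zf m0 m1 f (y 1) (y 0)) +
        2 * D * (nfl N σ v (y 0) + nfl N σ v (y 1) + nfl N σ v (y 2))) := by
    refine rep_mono 3 w fun y => ?_
    have q0 := mul_nonneg (ex2_nonneg r τ (y 0) (y 1) (y 2)) (Zf_nonneg m0 m1 f (y 1) (y 2))
    have q1 := mul_nonneg (ex2_nonneg r τ (y 1) (y 0) (y 2)) (Zf_nonneg m0 m1 f (y 0) (y 2))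
    have q2 := mul_nonneg (ex2_nonneg r τ (y 2) (y 1) (y 0)) (Zf_nonneg m0 m1 f (y 1) (y 0))
    have n0 := nfl_nonneg N σ v (y 0)
    have n1 := nfl_nonneg N σ v (y 1)
    have n2 := nfl_nonneg N σ v (y 2)
    have nn : 0 ≤ 2 * D * (nfl N σ v (y 0) + nfl N σ v (y 1) + nfl N σ v (y 2)) := by positivity
    by_cases hfar : FarJ J R (y 0) (y 1) (y 2)
    · have e1 : farI J R (y 0) (y 1) (y 2) = 1 := if_pos hfar
      rw [e1, one_mul]
      by_cases hall : Fl N σ v (y 0) ∧ Fl N σ v (y 1) ∧ Fl N σ v (y 2)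
      · have h2 := far_cases hv hr hR hτ h1 hJ f hall.1 hall.2.1 hall.2.2 hfar
        linarith
      · have h3 : 1 ≤ nfl N σ v (y 0) + nfl N σ v (y 1) + nfl N σ v (y 2) := by
          by_contra hc
          push Not at hc
          refine hall ⟨?_, ?_, ?_⟩
          · by_contra h
            have : nfl N σ v (y 0) = 1 := if_neg h
            linarith
          · by_contra h
            have : nfl N σ v (y 1) = 1 := if_neg h
            linarith
          · by_contra h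
            have : nfl N σ v (y 2) = 1 := if_neg h
            linarith
        have h4 := Zf_le (m0 := m0) (m1 := m1) hf (y 1) (y 2)
        have h5 : 2 * D * 1 ≤ 2 * D * (nfl N σ v (y 0) + nfl N σ v (y 1) + nfl N σ v (y 2)) :=
          mul_le_mul_of_nonneg_left h3 (by positivity)
        linarith
    · have e1 : farI J R (y 0) (y 1) (y 2) = 0 := if_neg hfar
      rw [e1, zero_mul]
      linarith
  refine key.trans (le_of_eq ?_)
  rw [H41.rep_add, H41.rep_add, H41.rep_add, k1, k2, k0]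
  have e2 : rep 3 w (fun y => 2 * D * (nfl N σ v (y 0) + nfl N σ v (y 1) + nfl N σ v (y 2))) = 6 * D * gm w (nfl N σ v) := by
    have e3 : rep 3 w (fun y => 2 * D * (nfl N σ v (y 0) + nfl N σ v (y 1) + nfl N σ v (y 2))) =
        2 * D * rep 3 w (fun y => nfl N σ v (y 0) + nfl N σ v (y 1) + nfl N σ v (y 2)) := by
      unfold rep
      rw [← mul_div_assoc, mul_sum]
      congr 1
      exact sum_congr rfl fun y _ => by ring
    rw [e3, H41.rep_add, H41.rep_add, kn 0, kn 1, kn 2]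
    ring
  rw [e2]
  ring

end

end Pool.Agent.W_7d29a1_C0.Far34
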