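import Pool.Agent.W_7d29a1_C0.FarA13
import Pool.Agent.W_7d29a1_HZ.NT72

/-!
C0, helper13: FAR13, second part. The windows on the left (or on the right) of a time `i₀` at which the new replica is far from all own
replicas; the window of the distance of the nearest own replica; all own replicas are outside of the strip.
-/

set_option autoImplicit false

namespace Pool.Agent.W_7d29a1_C0.F13

open MeasureTheory ProbabilityTheory Filter Topology Finset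
open Pool.Agent.W_7d29a1_F Pool.Agent.W_7d29a1_X Pool.Agent.W_7d29a1_H Pool.Agent.W_7d29a1_HZ
open Pool.Agent.W_7d29a1_HS (In wd md)
open Pool.Agent.W_7d29a1_HZ.ZE
open Pool.Agent.W_7d29a1_HZ.Z86.GX (WT)
open Pool.Agent.W_7d29a1_HZ.R72 (FlatP)
open Pool.Agent.W_7d29a1_ZE (Win Br)
open Pool.Agent.W_7d29a1_C0.Mod92 (Px Pn lw pos_card ne_Pn)
open scoped ENNReal

noncomputable section

variable {μ : Measure ℝ} {s : ℝ} {N y : ℕ}

/-! ### The line -/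

theorem line_ex (P a : ℤ) (hP : 1 ≤ P) : ∃ Y : ℤ, P ∣ Y ∧ Y + 4 * P ≤ a ∧ a < Y + 5 * P := by
  refine ⟨P * (a / P - 4), dvd_mul_right _ _, ?_, ?_⟩
  · have c1 := Int.mul_ediv_add_emod a P
    have c2 := Int.emod_nonneg a (show P ≠ 0 by omega)
    rw [mul_sub]
    linarith
  · have c1 := Int.mul_ediv_add_emod a P
    have c3 := Int.emod_lt_of_pos a (show 0 < P by omega)
    rw [mul_sub]
    linarith

/-- The deterministic core: the new replica has the distance `2 ^ (g + 4) ≤ d < 2 ^ (g + 5)` from the nearest own replica. -/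
theorem far_core {g n i₀ k : ℕ} {x : Fin (k + 2) → Finset ℕ} {l : Fin (k + 1)}
    (h1 : (2 : ℤ) ^ (g + 4) ≤ |pos (x 0) i₀ - pos (x l.succ) i₀|) (h2 : |pos (x 0) i₀ - pos (x l.succ) i₀| < (2 : ℤ) ^ (g + 5))
    (hmin : ∀ m : Fin (k + 1), |pos (x 0) i₀ - pos (x l.succ) i₀| ≤ |pos (x 0) i₀ - pos (x m.succ) i₀|)
    (hF : ∀ j : Fin (k + 2), ∀ i : ℕ, i ≤ N → i ≤ i₀ + n → i₀ ≤ i + n →
      32 * |(pos (x j) i - md μ s i) - (pos (x j) i₀ - md μ s i₀)| ≤ 2 ^ g) :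
    ∃ sg Y : ℤ, (sg = 1 ∨ sg = -1) ∧ (2 : ℤ) ^ g ∣ Y ∧ ∀ i : ℕ, i ≤ N → i ≤ i₀ + n → i₀ ≤ i + n →
      (Y < sg * (pos (x 0) i - md μ s i) ∧ sg * (pos (x 0) i - md μ s i) ≤ Y + 2 ^ (g + 3) ∧
        2 ^ g ≤ 8 * (sg * (pos (x 0) i - md μ s i) - Y)) ∧
      sg * (pos (x l.succ) i - md μ s i) ≤ Y ∧ |sg * (pos (x l.succ) i - md μ s i) - Y| ≤ 2 ^ (g + 5) ∧
      ∀ m : Fin (k + 1), ¬ (Y < sg * (pos (x m.succ) i - md μ s i) ∧ sg * (pos (x m.succ) i - md μ s i) ≤ Y + 2 ^ (g + 4)) := by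
  have hP : (1 : ℤ) ≤ 2 ^ g := by exact_mod_cast Nat.one_le_two_pow
  have e3 : (2 : ℤ) ^ (g + 3) = 8 * 2 ^ g := by ring
  have e4 : (2 : ℤ) ^ (g + 4) = 16 * 2 ^ g := by ring
  have e5 : (2 : ℤ) ^ (g + 5) = 32 * 2 ^ g := by ring
  rw [e4] at h1
  rw [e5] at h2
  rw [e3, e4, e5]
  generalize (2 : ℤ) ^ g = P at *
  -- the sign
  obtain ⟨sg, hsg, hD⟩ : ∃ sg : ℤ, (sg = 1 ∨ sg = -1) ∧
      sg * (pos (x 0) i₀ - md μ s i₀) - sg * (pos (x l.succ) i₀ - md μ s i₀) = |pos (x 0) i₀ - pos (x l.succ) i₀| := by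
    rcases le_total 0 (pos (x 0) i₀ - pos (x l.succ) i₀) with h | h
    · exact ⟨1, Or.inl rfl, by rw [abs_of_nonneg h]; ring⟩
    · exact ⟨-1, Or.inr rfl, by rw [abs_of_nonpos h]; ring⟩
  have hsgA : ∀ z : ℤ, |sg * z| = |z| := fun z => by
    rcases hsg with h | h
    · rw [h, one_mul]
    · rw [h, neg_one_mul, abs_neg]
  have hFs : ∀ j : Fin (k + 2), ∀ i : ℕ, i ≤ N → i ≤ i₀ + n → i₀ ≤ i + n →
      32 * |sg * (pos (x j) i - md μ s i) - sg * (pos (x j) i₀ - md μ s i₀)| ≤ P := fun j i a1 a2 a3 => by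
    rw [← mul_sub, hsgA]
    exact hF j i a1 a2 a3
  have hms : ∀ m : Fin (k + 1), |sg * (pos (x 0) i₀ - md μ s i₀) - sg * (pos (x m.succ) i₀ - md μ s i₀)| =
      |pos (x 0) i₀ - pos (x m.succ) i₀| := fun m => by
    rw [← mul_sub, hsgA]
    congr 1
    ring
  obtain ⟨Y, hY, hY1, hY2⟩ := line_ex P (sg * (pos (x 0) i₀ - md μ s i₀)) hP
  refine ⟨sg, Y, hsg, hY, fun i a1 a2 a3 => ?_⟩
  have f0 := hFs 0 i a1 a2 a3
  have fl := hFs l.succ i a1 a2 a3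
  have b0 := abs_le.1 (show |sg * (pos (x 0) i - md μ s i) - sg * (pos (x 0) i₀ - md μ s i₀)| ≤ _ from le_rfl)
  have bl := abs_le.1 (show |sg * (pos (x l.succ) i - md μ s i) - sg * (pos (x l.succ) i₀ - md μ s i₀)| ≤ _ from le_rfl)
  refine ⟨⟨?_, ?_, ?_⟩, ?_, ?_, fun m hm => ?_⟩
  · linarith [b0.1]
  · linarith [b0.2]
  · linarith [b0.1]
  · linarith [bl.2]
  · rw [abs_le]
    constructor
    · linarith [bl.1]
    · linarith [bl.2]
  · have fm := hFs m.succ i a1 a2 a3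
    have bm := abs_le.1 (show |sg * (pos (x m.succ) i - md μ s i) - sg * (pos (x m.succ) i₀ - md μ s i₀)| ≤ _ from le_rfl)
    have hm1 := hmin m
    rw [← hms m] at hm1
    rcases le_abs.1 (h1.trans hm1) with h | h
    · linarith [bm.2, hm.1]
    · linarith [bm.1, hm.2]

/-! ### The windows -/

/-- The start of the window: on the right or on the left of the grid point `τ + m q`. -/
def wz (rt : Bool) (τ q m : ℕ) : ℕ := if rt = true then τ + m * q else τ + m * q - q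

open scoped Classical in
/-- The list of the windows. -/
def WL (rt : Bool) (N t τ : ℕ) (n1 : ℕ → ℕ) (e0 E a : ℕ) : Finset WT :=
  ((Icc e0 E).biUnion fun g => (range (t / 4 / (n1 g / 4) + 1)).image fun m =>
    ((g, wz rt τ (n1 g / 4) m, Ico (wz rt τ (n1 g / 4) m) (wz rt τ (n1 g / 4) m + n1 g / 4)) : WT)).filter (GWk N n1 e0 E a)

/-- The rows which may be used. -/
def rowsB (rt : Bool) (N t τ : ℕ) : Finset ℕ := if rt = true then Ico τ N else Ico 1 (τ + t / 4)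

open scoped Classical in
theorem mem_WL {rt : Bool} {t τ : ℕ} {n1 : ℕ → ℕ} {e0 E a : ℕ} {W : WT} : W ∈ WL rt N t τ n1 e0 E a ↔
    (∃ g m : ℕ, e0 ≤ g ∧ g ≤ E ∧ m ≤ t / 4 / (n1 g / 4) ∧
      W = (g, wz rt τ (n1 g / 4) m, Ico (wz rt τ (n1 g / 4) m) (wz rt τ (n1 g / 4) m + n1 g / 4))) ∧ GWk N n1 e0 E a W := by
  unfold WL
  rw [mem_filter, mem_biUnion]
  refine and_congr_left fun _ => ?_
  constructor
  · rintro ⟨g, hg, hW⟩
    rw [mem_image] at hW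
    obtain ⟨m, hm, rfl⟩ := hW
    rw [mem_Icc] at hg
    rw [mem_range, Nat.lt_succ_iff] at hm
    exact ⟨g, m, hg.1, hg.2, hm, rfl⟩
  · rintro ⟨g, m, h1, h2, h3, rfl⟩
    exact ⟨g, mem_Icc.2 ⟨h1, h2⟩, mem_image.2 ⟨m, mem_range.2 (Nat.lt_succ_iff.2 h3), rfl⟩⟩

theorem WL_rows {rt : Bool} {t τ : ℕ} {n1 : ℕ → ℕ} {e0 E a : ℕ} {W : WT} (hW : W ∈ WL rt N t τ n1 e0 E a) :
    W.2.2 ⊆ rowsB rt N t τ := by
  obtain ⟨⟨g, m, h1, h2, h3, rfl⟩, hG⟩ := mem_WL.1 hW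
  intro i hi
  have h4 := hG.row i hi
  have h5 : m * (n1 g / 4) ≤ t / 4 := (Nat.mul_le_mul_right _ h3).trans (Nat.div_mul_le_self _ _)
  unfold rowsB
  generalize n1 g / 4 = q at *
  rcases Bool.eq_false_or_eq_true rt with hr | hr
  · rw [if_pos hr, mem_Ico]
    dsimp only at hi
    rw [mem_Ico] at hi
    unfold wz at hi
    rw [if_pos hr] at hi
    omega
  · rw [if_neg (by rw [hr]; simp), mem_Ico]
    have h6 : ∀ j ∈ Ico (wz rt τ q m) (wz rt τ q m + q), 1 ≤ j ∧ j < N := hG.row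
    dsimp only at hi
    rw [mem_Ico] at hi
    have h7 := h6 (wz rt τ q m) (by rw [mem_Ico]; omega)
    unfold wz at hi h7
    rw [if_neg (by rw [hr]; simp)] at hi h7
    omega

theorem WL_card {rt : Bool} {t τ : ℕ} {n1 : ℕ → ℕ} {e0 E a : ℕ} {z : ℝ} (hz1 : 1 ≤ z)
    (h1 : ((E + 1 - e0 : ℕ) : ℝ) ≤ z) (h2 : ∀ g, e0 ≤ g → g ≤ E → (t : ℝ) ≤ z * n1 g) (h3 : ∀ g, e0 ≤ g → g ≤ E → 16 ≤ n1 g) :
    ((WL rt N t τ n1 e0 E a).card : ℝ) ≤ 3 * z ^ 2 := by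
  classical
  have hc : ∀ g ∈ Icc e0 E, ((t / 4 / (n1 g / 4) + 1 : ℕ) : ℝ) ≤ 3 * z := by
    intro g hg
    rw [mem_Icc] at hg
    have g2 := h2 g hg.1 hg.2
    have g3 := h3 g hg.1 hg.2
    have g4 : n1 g ≤ 8 * (n1 g / 4) := by omega
    have g5 : 1 ≤ n1 g / 4 := by omega
    have g6 : (t / 4 / (n1 g / 4)) * (n1 g / 4) ≤ t / 4 := Nat.div_mul_le_self _ _
    generalize n1 g / 4 = q at *
    generalize t / 4 / q = r at *
    have g7 : 4 * (r * q) ≤ t := by omega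
    have g8 : (4 : ℝ) * (r * q) ≤ z * (8 * q) := by
      have e1 : (4 : ℝ) * (r * q) ≤ t := by exact_mod_cast g7
      have e2 : (n1 g : ℝ) ≤ 8 * q := by exact_mod_cast g4
      have e3 : z * n1 g ≤ z * (8 * q) := mul_le_mul_of_nonneg_left e2 (by linarith)
      linarith
    have hq : (0 : ℝ) < q := by exact_mod_cast (show 0 < q by omega)
    have g9 : (r : ℝ) ≤ 2 * z := by
      have e1 : (4 * r : ℝ) * q ≤ (8 * z) * q := by linarith
      have := le_of_mul_le_mul_right e1 hq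
      linarith
    push_cast
    linarith
  have h5 : (WL rt N t τ n1 e0 E a).card ≤ ∑ g ∈ Icc e0 E, (t / 4 / (n1 g / 4) + 1) := by
    unfold WL
    refine (card_filter_le _ _).trans (card_biUnion_le.trans (sum_le_sum fun g _ => ?_))
    refine card_image_le.trans ?_
    rw [card_range]
  have h6 : ((WL rt N t τ n1 e0 E a).card : ℝ) ≤ ∑ g ∈ Icc e0 E, ((t / 4 / (n1 g / 4) + 1 : ℕ) : ℝ) := by
    rw [← Nat.cast_sum]
    exact_mod_cast h5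
  refine h6.trans ((sum_le_sum hc).trans ?_)
  rw [sum_const, Nat.card_Icc, nsmul_eq_mul]
  calc ((E + 1 - e0 : ℕ) : ℝ) * (3 * z) ≤ z * (3 * z) := mul_le_mul_of_nonneg_right h1 (by linarith)
    _ = 3 * z ^ 2 := by ring

/-- The number of rows of the window. -/
theorem gwk_short {n1 : ℕ → ℕ} {e0 E a g z : ℕ} (hg0 : e0 ≤ g) (hgE : g ≤ E) (h1 : 2048 * 2 ^ a ≤ n1 g) (hz : 1 ≤ z)
    (hzN : z + n1 g / 4 ≤ N) (j₀ : ℕ) : GWk N n1 e0 E a ((g, j₀, Ico z (z + n1 g / 4)) : WT) where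
  ge := hg0
  le := hgE
  row := fun i hi => by
    have hi' : i ∈ Ico z (z + n1 g / 4) := hi
    rw [mem_Ico] at hi'
    omega
  card := by
    have h2 := stv_short (a := a) hzN
    have h3 := Nat.one_le_two_pow (n := a)
    show n1 g ≤ 1024 * ((stv N a (Ico z (z + n1 g / 4))).card * 2 ^ a)
    generalize (stv N a (Ico z (z + n1 g / 4))).card * 2 ^ a = c at *
    omega
  pos := by
    have h3 := Nat.one_le_two_pow (n := a)
    show 1 ≤ n1 g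
    omega

/-! ### The window of a far replica -/

/-- What the window of a far replica gives. -/
structure Far (μ : Measure ℝ) (s : ℝ) {k : ℕ} (W : WT) (sg Y : ℤ) (l : Fin (k + 1)) (x : Fin (k + 2) → Finset ℕ) : Prop where
  sgn : sg = 1 ∨ sg = -1
  dvd : (((2 ^ W.1 : ℕ)) : ℤ) ∣ Y
  near : |sg * (pos (x l.succ) W.2.1 - md μ s W.2.1) - Y| ≤ ((2 ^ (W.1 + 5) : ℕ) : ℤ)
  inL : InL μ s sg W.2.2 Y (x l.succ)
  inR : InR μ s sg W.2.2 Y ((2 ^ (W.1 + 3) : ℕ) : ℤ) (x 0)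
  mar : ∀ i ∈ W.2.2, (2 : ℤ) ^ W.1 ≤ 8 * (sg * (pos (x 0) i - md μ s i) - Y)
  out : ∀ m : Fin (k + 1), ∀ i ∈ W.2.2, ¬ (Y < sg * (pos (x m.succ) i - md μ s i) ∧
    sg * (pos (x m.succ) i - md μ s i) ≤ Y + 2 ^ (W.1 + 4))

theorem far_window (rt : Bool) {t τ i₀ k : ℕ} {n1 : ℕ → ℕ} {e0 E a : ℕ} {x : Fin (k + 2) → Finset ℕ} (h1 : τ ≤ i₀) (h2 : i₀ ≤ τ + t / 4)
    (hN : i₀ ≤ N) (hd : ∀ m : Fin (k + 1), (2 : ℤ) ^ (e0 + 4) ≤ |pos (x 0) i₀ - pos (x m.succ) i₀|)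
    (hE : ∀ m : Fin (k + 1), |pos (x 0) i₀ - pos (x m.succ) i₀| < (2 : ℤ) ^ (E + 2)) (hyN : ∀ j, pos (x j) N = (y : ℤ))
    (hF : ∀ j, FlatP μ s N e0 E n1 (x j)) (hn : ∀ g, e0 ≤ g → g ≤ E → 2048 * 2 ^ a ≤ n1 g) :
    ∃ W ∈ WL rt N t τ n1 e0 E a, ∃ sg Y : ℤ, ∃ l : Fin (k + 1), Far μ s W sg Y l x := by
  -- the nearest own replica
  obtain ⟨l, -, hl⟩ := Finset.exists_min_image (univ : Finset (Fin (k + 1))) (fun m => |pos (x 0) i₀ - pos (x m.succ) i₀|)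
    ⟨0, mem_univ _⟩
  have hmin : ∀ m : Fin (k + 1), |pos (x 0) i₀ - pos (x l.succ) i₀| ≤ |pos (x 0) i₀ - pos (x m.succ) i₀| := fun m =>
    hl m (mem_univ _)
  -- the scale of the distance
  obtain ⟨g, hg0, hgE, g1, g2⟩ : ∃ g, e0 ≤ g ∧ g ≤ E ∧ (2 : ℤ) ^ (g + 4) ≤ |pos (x 0) i₀ - pos (x l.succ) i₀| ∧
      |pos (x 0) i₀ - pos (x l.succ) i₀| < (2 : ℤ) ^ (g + 5) := by
    have key : ∀ z : ℕ, 2 ^ (e0 + 4) ≤ z → z < 2 ^ (E + 2) → ∃ g, e0 ≤ g ∧ g ≤ E ∧ 2 ^ (g + 4) ≤ z ∧ z < 2 ^ (g + 5) := by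
      intro z hz1 hz2
      have hz0 : z ≠ 0 := by
        have := Nat.one_le_two_pow (n := e0 + 4)
        omega
      have k1 : e0 + 4 ≤ Nat.log 2 z := (Nat.le_log_iff_pow_le (by norm_num) hz0).2 hz1
      have k2 := (Nat.log_lt_iff_lt_pow (b := 2) (by norm_num) hz0).2 hz2
      have k3 := Nat.pow_log_le_self 2 hz0
      have k4 := Nat.lt_pow_succ_log_self (b := 2) (by norm_num) z
      obtain ⟨m, hm⟩ : ∃ m, Nat.log 2 z = m + 4 := ⟨Nat.log 2 z - 4, by omega⟩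
      rw [hm] at k1 k2 k3 k4
      exact ⟨m, by omega, by omega, k3, k4⟩
    obtain ⟨g, g1, g2, g3, g4⟩ := key (pos (x 0) i₀ - pos (x l.succ) i₀).natAbs (by zify; exact hd l) (by zify; exact hE l)
    refine ⟨g, g1, g2, ?_, ?_⟩
    · zify at g3
      exact g3
    · zify at g4
      exact g4
  have hng := hn g hg0 hgE
  have hPa := Nat.one_le_two_pow (n := a)
  obtain ⟨sg, Y, hsg, hY, hwin⟩ := far_core (μ := μ) (s := s) (N := N) (n := n1 g) (x := x) (l := l) g1 g2 hmin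
    (fun j i c1 c2 c3 => by
      rcases le_total i i₀ with h | h
      · rw [abs_sub_comm]
        exact hF j g hg0 hgE i i₀ h hN c3
      · exact hF j g hg0 hgE i₀ i h c1 c2)
  -- the window does not reach the common start and the common end
  have hst : n1 g < i₀ := by
    by_contra hcon
    have h3 := hwin 0 (Nat.zero_le _) (by omega) (by omega)
    have h4 := h3.1.1
    have h5 := h3.2.1
    rw [pos_zero] at h4 h5
    linarith
  have hen : i₀ + n1 g < N := by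
    by_contra hcon
    have h3 := hwin N le_rfl (by omega) (by omega)
    have h4 := h3.1.1
    have h5 := h3.2.1
    rw [hyN] at h4 h5
    linarith
  -- the grid point
  obtain ⟨q, hq⟩ : ∃ q, q = n1 g / 4 := ⟨_, rfl⟩
  have hq1 : 1 ≤ q := by omega
  obtain ⟨m, hm⟩ : ∃ m, m = (i₀ - τ) / q := ⟨_, rfl⟩
  have hm1 : m * q ≤ i₀ - τ := by rw [hm]; exact Nat.div_mul_le_self _ _
  have hm2 : i₀ - τ < m * q + q := by rw [hm]; exact Nat.lt_div_mul_add (by omega)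
  have hm3 : m ≤ t / 4 / q := by rw [hm]; exact Nat.div_le_div_right (by omega)
  obtain ⟨z, hz⟩ : ∃ z, z = wz rt τ q m := ⟨_, rfl⟩
  have hz1 : 1 ≤ z ∧ z + q ≤ N ∧ i₀ ≤ z + 2 * q ∧ z + q ≤ i₀ + q := by
    rw [hz]
    unfold wz
    rcases Bool.eq_false_or_eq_true rt with hr | hr
    · rw [if_pos hr]
      omega
    · rw [if_neg (by rw [hr]; simp)]
      omega
  have hGW := gwk_short (N := N) (n1 := n1) hg0 hgE hng hz1.1 (by rw [← hq]; exact hz1.2.1) z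
  rw [← hq] at hGW
  have hrow : ∀ i ∈ Ico z (z + q), i ≤ N ∧ i ≤ i₀ + n1 g ∧ i₀ ≤ i + n1 g := by
    intro i hi
    rw [mem_Ico] at hi
    omega
  refine ⟨(g, z, Ico z (z + q)), ?_, sg, Y, l, hsg, ?_, ?_, ?_, ?_, ?_, ?_⟩
  · rw [mem_WL]
    refine ⟨⟨g, m, hg0, hgE, by rw [← hq]; exact hm3, ?_⟩, hGW⟩
    rw [← hq, ← hz]
  · push_cast
    exact hY
  · have h3 := (hwin z (by omega) (by omega) (by omega)).2.2.1
    push_cast
    exact h3
  · intro i hi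
    have h3 := hrow i hi
    exact (hwin i h3.1 h3.2.1 h3.2.2).2.1
  · intro i hi
    have h3 := hrow i hi
    have h4 := (hwin i h3.1 h3.2.1 h3.2.2).1
    push_cast
    exact ⟨h4.1, h4.2.1⟩
  · intro i hi
    have h3 := hrow i hi
    exact (hwin i h3.1 h3.2.1 h3.2.2).1.2.2
  · intro m' i hi
    have h3 := hrow i hi
    exact (hwin i h3.1 h3.2.1 h3.2.2).2.2.2 m'

/-- The new replica is in the class of the window. -/
theorem cE_ofG {t : ℕ} {n1 : ℕ → ℕ} {e0 E : ℕ} {p : Par} (hp : POk μ s t n1 e0 E p) {W : WT} (hW : GWk N n1 e0 E p.a W)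
    {S : Finset ℕ} (hTV : TVp μ s N p S) {sg Y : ℤ} (hR : InR μ s sg W.2.2 Y ((2 ^ (W.1 + 3) : ℕ) : ℤ) S)
    (hm : ∀ i ∈ W.2.2, (2 : ℤ) ^ W.1 ≤ 8 * (sg * (pos S i - md μ s i) - Y)) (y' : ℤ) (H : ℕ) :
    cE μ s (winE N y' p.a W H sg Y) p.L p.e p.C p.i₀ p.i₁ (pos S) := by
  have hrow : ∀ i ∈ W.2.2, Y < sg * (pos S i - md μ s i) ∧ sg * (pos S i - md μ s i) ≤ Y + 2 ^ (W.1 + 3) ∧
      2 ^ W.1 ≤ 8 * (sg * (pos S i - md μ s i) - Y) := by
    intro i hi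
    have h1 := hR i hi
    push_cast at h1
    exact ⟨h1.1, h1.2, hm i hi⟩
  have hP : (0 : ℤ) < 2 ^ W.1 := by positivity
  have e3 : (2 : ℤ) ^ (W.1 + 3) = 8 * 2 ^ W.1 := by ring
  have e4 : (2 : ℤ) ^ (W.1 + 4) = 16 * 2 ^ W.1 := by ring
  refine ⟨fun i hi => ?_, fun i h0 h1 T hT => ?_⟩
  · have h1 := hrow i (winE_J _ _ _ _ _ _ _ hi)
    refine ⟨h1.1, ?_⟩
    show sg * (pos S i - md μ s i) ≤ Y + 2 ^ (W.1 + 4)
    rw [e4]
    rw [e3] at h1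
    linarith [h1.2.1]
  · have hT' : T ∈ stv N p.a W.2.2 := hT
    obtain ⟨-, -, hTJ⟩ := mem_stv.1 hT'
    have hia : i ≤ p.a := h1.trans hp.i₁a
    have hk : ∀ k, k ≤ 2 ^ (p.a - i) → T + k * 2 ^ i ∈ W.2.2 := fun k hk => by
      refine hTJ (mem_Icc.2 ⟨Nat.le_add_right _ _, ?_⟩)
      have h2 : k * 2 ^ i ≤ 2 ^ (p.a - i) * 2 ^ i := Nat.mul_le_mul_right _ hk
      rw [← pow_add, Nat.sub_add_cancel hia] at h2
      omega
    have hTN : T + 2 ^ p.a ≤ N := (hW.row _ (hTJ (mem_Icc.2 ⟨Nat.le_add_right _ _, le_rfl⟩))).2.le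
    obtain ⟨h3, h4⟩ := hTV i h0 h1 T hTN
    refine ⟨fun k hk' => h3 k hk', ?_, fun k hk' => ?_⟩
    · exact h4
    · have h5 := hrow _ (hk k hk')
      have hw := hp.wall W.1 hW.ge hW.le i h0 h1
      obtain ⟨z, hz⟩ : ∃ z : ℤ, z = sg * (pos S (T + k * 2 ^ i) - md μ s (T + k * 2 ^ i)) := ⟨_, rfl⟩
      rw [← hz] at h5
      have hzR : (sg : ℝ) * ((pos S (T + k * 2 ^ i) : ℝ) - md μ s (T + k * 2 ^ i)) = z := by
        rw [hz]
        push_cast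
        ring
      have hgoal : (Y : ℝ) + (p.L : ℝ) ^ (2 * p.e) * wd' μ s (2 ^ i) ≤ z ∧
          (z : ℝ) ≤ Y + ((2 ^ (W.1 + 4) : ℤ) : ℝ) - (p.L : ℝ) ^ (2 * p.e) * wd' μ s (2 ^ i) := by
        rw [e3] at h5
        have h6 : (z : ℝ) ≤ Y + 8 * 2 ^ W.1 := by exact_mod_cast h5.2.1
        have h7 : (2 : ℝ) ^ W.1 ≤ 8 * (z - Y) := by exact_mod_cast h5.2.2
        have h8 : (((2 : ℤ) ^ (W.1 + 4) : ℤ) : ℝ) = 16 * 2 ^ W.1 := by
          rw [e4]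
          push_cast
          ring
        have h9 : (0 : ℝ) < 2 ^ W.1 := by positivity
        rw [h8]
        constructor <;> linarith
      rw [← hzR] at hgoal
      exact hgoal

end

end Pool.Agent.W_7d29a1_C0.F13
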