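import Pool.Agent.W_7d29a1_C0.FarB34
import Pool.Agent.W_7d29a1_C0.Tube73

/-!
MP_7d29a1_pr, [CURV0], leaf E1f, F5 (helper34): THE FAR TERMS OF E1 AS INSERTIONS.

`Geo`: the boxes `b`, the event `O β S` (the path `S` is out of the tube of the boxes `β`), the weight `ns` of the paths which are not
straight, the weight `F` of a free replica which is far from both own replicas. The three kinds of far terms of `box_seqG`, `box_oneG`:
`far_one` (one far insertion), `far_two` (an insertion of any bounded functional after it), `far_dw` (the derivative of the second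
field along the far part of the first one: conditional means given the future of a row in front of the row of the boxes).
-/

set_option autoImplicit false
set_option linter.unusedSectionVars false
set_option linter.unusedVariables false

namespace Pool.Agent.W_7d29a1_C0.Far34

open Finset MeasureTheory Pool.Agent.W_7d29a1_F Pool.Agent.W_7d29a1_X
open Pool.W7d29a1.C0
open Pool.W7d29a1.C0.VT31

noncomputable section

section abs

variable {X : Type*} [Fintype X] [Nonempty X]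

/-- The average over the free replica. -/
theorem rep_free (m : ℕ) (w : X → ℝ) (Φ : (Fin m → X) → X → ℝ) :
    rep (m + 1) w (fun y => Φ (Fin.tail y) (y 0)) = rep m w fun x => gm w (Φ x) := by
  classical
  have e1 : ∀ y : Fin (m + 1) → X, Φ (Fin.tail y) (y 0) = ∑ a, (if y 0 = a then 1 else 0) * Φ (Fin.tail y) a := fun y => by
    rw [Finset.sum_eq_single (y 0)]
    · rw [if_pos rfl, one_mul]
    · intro a _ ha
      rw [if_neg (Ne.symm ha), zero_mul]
    · intro h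
      exact absurd (mem_univ _) h
  have e2 : ∀ x : Fin m → X, gm w (Φ x) = ∑ a, gm w (fun z => if z = a then 1 else 0) * Φ x a := fun x => by
    unfold gm
    rw [Finset.sum_div]
    refine sum_congr rfl fun a _ => ?_
    rw [Finset.sum_eq_single a]
    · show _ = Real.exp (w a) * (if a = a then 1 else 0) / gz w * Φ x a
      rw [if_pos rfl]
      ring
    · intro z _ hz
      show Real.exp (w z) * (if z = a then 1 else 0) = 0
      rw [if_neg hz, mul_zero]
    · intro h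
      exact absurd (mem_univ _) h
  rw [H41.rep_congr _ _ e1, H41.rep_congr _ _ e2, H41.rep_sum, H41.rep_sum]
  refine sum_congr rfl fun a _ => ?_
  have h := rep_cons m w (fun z => if z = a then 1 else 0) fun x => Φ x a
  rw [h, rep_smul]

/-- The tower rule for the free replica. -/
theorem rep_cE {Y : Type*} [DecidableEq Y] (m : ℕ) (w : X → ℝ) (p : X → Y) (Φ : (Fin m → X) → X → ℝ) :
    rep (m + 1) w (fun y => cE w p (Φ (Fin.tail y)) (y 0)) = rep (m + 1) w fun y => Φ (Fin.tail y) (y 0) := by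
  have h1 := rep_free m w fun x => cE w p (Φ x)
  have h2 := rep_free m w Φ
  rw [h1, h2]
  exact H41.rep_congr m w fun x => gm_cE w p (Φ x)

/-- The conditional mean is monotone on the fibre. -/
theorem cE_le_fib {Y : Type*} [DecidableEq Y] (w : X → ℝ) (p : X → Y) {f g : X → ℝ} {x : X} (h : ∀ y, p y = p x → f y ≤ g y) :
    cE w p f x ≤ cE w p g x := by
  unfold cE
  refine div_le_div_of_nonneg_right ?_ (fz_pos w p x).le
  refine sum_le_sum fun y _ => ?_
  split_ifs with hy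
  · exact mul_le_mul_of_nonneg_left (h y hy) (Real.exp_pos _).le
  · exact le_rfl

open Classical in
/-- The indicator of a statement. -/
def i1 (p : Prop) : ℝ := if p then 1 else 0

theorem i1_nonneg (p : Prop) : 0 ≤ i1 p := by
  unfold i1
  split_ifs <;> norm_num

theorem i1_le {p : Prop} {a : ℝ} (ha : 0 ≤ a) (h : p → 1 ≤ a) : i1 p ≤ a := by
  unfold i1
  split_ifs with hp
  · exact h hp
  · exact ha

/-- **The geometry of the boxes.** -/
structure Geo {B : Type*} (b : X → B) (O : (Fin 2 → B) → X → Prop) (ns : X → ℝ) (F : X → X → X → ℝ) : Prop where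
  ns0 : ∀ S, 0 ≤ ns S
  F0 : ∀ S T U, 0 ≤ F S T U
  own : ∀ (β : Fin 2 → B) (i : Fin 2) (T : X), β i = b T → O β T → 1 ≤ ns T
  free : ∀ (x : Fin 2 → X) (T : X), O (fun i => b (x i)) T → 1 ≤ F T (x 0) (x 1) + ns (x 0) + ns (x 1)

variable {B : Type*} {b : X → B} {O : (Fin 2 → B) → X → Prop} {ns : X → ℝ} {F : X → X → X → ℝ} {Z : X → X → ℝ}

/-- The insertion in two replicas. -/
theorem abs_insR2 {R : (Fin 2 → B) → X → ℝ} {Ψ : (Fin 2 → X) → ℝ} {K : ℝ} (hΨ : ∀ x, |Ψ x| ≤ K * Z (x 0) (x 1)) (y : Fin 3 → X) :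
    |(H41.repDr X 2).insR b R Ψ y| ≤ K * Z (y 1) (y 2) * (2 * |R (fun i => b (y i.succ)) (y 0)| +
      (|R (fun i => b (y i.succ)) (y 1)| + |R (fun i => b (y i.succ)) (y 2)|)) := by
  have e : (H41.repDr X 2).insR b R Ψ y = Ψ (fun i => y i.succ) * (-2 * R (fun i => b (y i.succ)) (y 0) +
      (R (fun i => b (y i.succ)) (y 1) + R (fun i => b (y i.succ)) (y 2))) := by
    show Ψ (fun i => y i.succ) * ∑ j, (Fin.cons (-((2 : ℕ) : ℝ)) fun _ => 1 : Fin (2 + 1) → ℝ) j * R (fun i => b (y i.succ)) (y j) = _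
    rw [Fin.sum_univ_succ, Fin.cons_zero]
    simp only [Fin.cons_succ, one_mul]
    rw [Fin.sum_univ_two]
    norm_num
  rw [e, abs_mul]
  refine mul_le_mul (hΨ fun i => y i.succ) ?_ (abs_nonneg _) ((abs_nonneg _).trans (hΨ fun i => y i.succ))
  refine (abs_add_le _ _).trans (add_le_add ?_ (abs_add_le _ _))
  rw [abs_mul]
  norm_num

/-- The free replica out of the tube. -/
theorem rep_out (hG : Geo b O ns F) (hZ0 : ∀ S T, 0 ≤ Z S T) {D : ℝ} (hZ : ∀ S T, Z S T ≤ D) (w : X → ℝ) :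
    rep 3 w (fun y => Z (y 1) (y 2) * i1 (O (fun i => b (y i.succ)) (y 0))) ≤
      rep 3 w (fun y => F (y 0) (y 1) (y 2) * Z (y 1) (y 2)) + 2 * D * gm w ns := by
  have h1 : rep 3 w (fun y => Z (y 1) (y 2) * i1 (O (fun i => b (y i.succ)) (y 0))) ≤
      rep 3 w (fun y => F (y 0) (y 1) (y 2) * Z (y 1) (y 2) + (D * ns (y 1) + D * ns (y 2))) := by
    refine rep_mono 3 w fun y => ?_
    have k1 : i1 (O (fun i => b (y i.succ)) (y 0)) ≤ F (y 0) (y 1) (y 2) + ns (y 1) + ns (y 2) :=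
      i1_le (add_nonneg (add_nonneg (hG.F0 _ _ _) (hG.ns0 _)) (hG.ns0 _)) fun h => hG.free (fun i => y i.succ) (y 0) h
    have k2 := mul_le_mul_of_nonneg_left k1 (hZ0 (y 1) (y 2))
    have k3 := mul_le_mul_of_nonneg_right (hZ (y 1) (y 2)) (hG.ns0 (y 1))
    have k4 := mul_le_mul_of_nonneg_right (hZ (y 1) (y 2)) (hG.ns0 (y 2))
    calc Z (y 1) (y 2) * i1 (O (fun i => b (y i.succ)) (y 0)) ≤ Z (y 1) (y 2) * (F (y 0) (y 1) (y 2) + ns (y 1) + ns (y 2)) := k2
      _ = F (y 0) (y 1) (y 2) * Z (y 1) (y 2) + (Z (y 1) (y 2) * ns (y 1) + Z (y 1) (y 2) * ns (y 2)) := by ring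
      _ ≤ _ := by linarith
  refine h1.trans (le_of_eq ?_)
  have h2 : ∀ i : Fin 3, rep 3 w (fun y => D * ns (y i)) = D * gm w ns := fun i => by rw [rep_smul, rep_coord 2 w ns i]
  rw [H41.rep_add, H41.rep_add, h2 1, h2 2]
  ring

theorem gm_ns_nonneg (w : X → ℝ) {g : X → ℝ} (hg : ∀ S, 0 ≤ g S) : 0 ≤ gm w g := by
  rw [← rep_coord 0 w g 0]
  exact H41.rep_nonneg 1 w fun x => hg (x 0)

/-- **ONE FAR INSERTION.** -/
theorem far_one (hG : Geo b O ns F) (hZ0 : ∀ S T, 0 ≤ Z S T) {D : ℝ} (hZ : ∀ S T, Z S T ≤ D) {M K : ℝ} (hM : 0 ≤ M) (hK : 0 ≤ K)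
    {R : (Fin 2 → B) → X → ℝ} (hR : ∀ β S, |R β S| ≤ M * i1 (O β S)) {Ψ : (Fin 2 → X) → ℝ}
    (hΨ : ∀ x, |Ψ x| ≤ K * Z (x 0) (x 1)) (w : X → ℝ) :
    rep 3 w (fun y => |(H41.repDr X 2).insR b R Ψ y|) ≤
      2 * (M * K) * rep 3 w (fun y => F (y 0) (y 1) (y 2) * Z (y 1) (y 2)) + 6 * (M * K) * D * gm w ns := by
  have h1 : rep 3 w (fun y => |(H41.repDr X 2).insR b R Ψ y|) ≤ rep 3 w (fun y =>
      2 * (M * K) * (Z (y 1) (y 2) * i1 (O (fun i => b (y i.succ)) (y 0))) + (M * K * D * ns (y 1) + M * K * D * ns (y 2))) := by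
    refine rep_mono 3 w fun y => (abs_insR2 hΨ y).trans ?_
    have k0 := hR (fun i => b (y i.succ)) (y 0)
    have k1 := (hR (fun i => b (y i.succ)) (y 1)).trans (mul_le_mul_of_nonneg_left
      (i1_le (hG.ns0 (y 1)) fun h => hG.own (fun i => b (y i.succ)) 0 (y 1) rfl h) hM)
    have k2 := (hR (fun i => b (y i.succ)) (y 2)).trans (mul_le_mul_of_nonneg_left
      (i1_le (hG.ns0 (y 2)) fun h => hG.own (fun i => b (y i.succ)) 1 (y 2) rfl h) hM)
    have k3 : K * Z (y 1) (y 2) * (2 * |R (fun i => b (y i.succ)) (y 0)| +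
        (|R (fun i => b (y i.succ)) (y 1)| + |R (fun i => b (y i.succ)) (y 2)|)) ≤
        K * Z (y 1) (y 2) * (2 * (M * i1 (O (fun i => b (y i.succ)) (y 0))) + (M * ns (y 1) + M * ns (y 2))) :=
      mul_le_mul_of_nonneg_left (by linarith) (mul_nonneg hK (hZ0 _ _))
    have k4 : K * Z (y 1) (y 2) * (M * ns (y 1) + M * ns (y 2)) ≤ M * K * D * ns (y 1) + M * K * D * ns (y 2) := by
      have k5 := mul_le_mul_of_nonneg_right (hZ (y 1) (y 2))
        (mul_nonneg (mul_nonneg hK hM) (add_nonneg (hG.ns0 (y 1)) (hG.ns0 (y 2))))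
      calc K * Z (y 1) (y 2) * (M * ns (y 1) + M * ns (y 2)) = Z (y 1) (y 2) * (K * M * (ns (y 1) + ns (y 2))) := by ring
        _ ≤ D * (K * M * (ns (y 1) + ns (y 2))) := k5
        _ = _ := by ring
    calc _ ≤ _ := k3
      _ = 2 * (M * K) * (Z (y 1) (y 2) * i1 (O (fun i => b (y i.succ)) (y 0))) + K * Z (y 1) (y 2) * (M * ns (y 1) + M * ns (y 2)) := by
        ring
      _ ≤ _ := by linarith
  have h2 : ∀ i : Fin 3, rep 3 w (fun y => M * K * D * ns (y i)) = M * K * D * gm w ns := fun i => by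
    rw [rep_smul, rep_coord 2 w ns i]
  have h3 := mul_le_mul_of_nonneg_left (rep_out hG hZ0 hZ w) (show 0 ≤ 2 * (M * K) by positivity)
  refine h1.trans ?_
  rw [H41.rep_add, H41.rep_add, h2 1, h2 2, rep_smul]
  linarith

/-- The insertion of a bounded functional in three replicas. -/
theorem far_two {R : (Fin 3 → B) → X → ℝ} {M : ℝ} (hR : ∀ β S, |R β S| ≤ M) (Φ : (Fin 3 → X) → ℝ) (w : X → ℝ) :
    rep 4 w (fun y => |(H41.repDr X 3).insR b R Φ y|) ≤ 6 * M * rep 3 w fun y => |Φ y| := by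
  have h1 : ∀ y, |(H41.repDr X 3).insR b R Φ y| ≤ 6 * M * |Φ (Fin.tail y)| := fun y => by
    have e : (H41.repDr X 3).insR b R Φ y = Φ (Fin.tail y) * (-3 * R (fun i => b (y i.succ)) (y 0) +
        (R (fun i => b (y i.succ)) (y 1) + R (fun i => b (y i.succ)) (y 2) + R (fun i => b (y i.succ)) (y 3))) := by
      show Φ (fun i => y i.succ) * ∑ j, (Fin.cons (-((3 : ℕ) : ℝ)) fun _ => 1 : Fin (3 + 1) → ℝ) j * R (fun i => b (y i.succ)) (y j) = _
      rw [Fin.sum_univ_succ, Fin.cons_zero]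
      simp only [Fin.cons_succ, one_mul]
      rw [Fin.sum_univ_three]
      norm_num
      rfl
    rw [e, abs_mul, mul_comm]
    refine mul_le_mul_of_nonneg_right ?_ (abs_nonneg _)
    have q := hR (fun i => b (y i.succ))
    have q0 := q (y 0)
    have q1 := q (y 1)
    have q2 := q (y 2)
    have q3 := q (y 3)
    rw [abs_le] at q0 q1 q2 q3 ⊢
    constructor <;> linarith [q0.1, q0.2, q1.1, q1.2, q2.1, q2.2, q3.1, q3.2]
  refine (rep_mono 4 w h1).trans (le_of_eq ?_)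
  rw [rep_smul]
  congr 1
  exact rep_tail 3 w fun x => |Φ x|

/-- **THE DERIVATIVE OF THE SECOND FIELD ALONG THE FAR PART OF THE FIRST ONE.** -/
theorem far_dw (hG : Geo b O ns F) (hZ0 : ∀ S T, 0 ≤ Z S T) {D : ℝ} (hZ : ∀ S T, Z S T ≤ D) {M K : ℝ} (hM : 0 ≤ M) (hK : 0 ≤ K)
    {ι Y : Type*} [DecidableEq Y] (J : Finset ι) {th : ι → ℝ} (th0 : ∀ z ∈ J, 0 ≤ th z) (th1 : ∑ z ∈ J, th z ≤ 1) (p : ι → X → Y)
    (w : X → ℝ)
    (hp : ∀ z ∈ J, ∀ (β : Fin 2 → B) (i : Fin 2) (S : X), β i = b S → cE w (p z) (fun T => i1 (O β T)) S ≤ ns S + cE w (p z) ns S)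
    {R : (Fin 2 → B) → X → ℝ} (hR : ∀ β S, |R β S| ≤ M * ∑ z ∈ J, th z * cE w (p z) (fun T => i1 (O β T)) S)
    {Ψ : (Fin 2 → X) → ℝ} (hΨ : ∀ x, |Ψ x| ≤ K * Z (x 0) (x 1)) :
    rep 3 w (fun y => |(H41.repDr X 2).insR b R Ψ y|) ≤
      2 * (M * K) * rep 3 w (fun y => F (y 0) (y 1) (y 2) * Z (y 1) (y 2)) + 8 * (M * K) * D * gm w ns := by
  have hD : 0 ≤ D := (hZ0 (Classical.arbitrary _) (Classical.arbitrary _)).trans (hZ _ _)
  have hgn := gm_ns_nonneg w hG.ns0
  obtain ⟨g, hg⟩ : ∃ g : ι → X → ℝ, g = fun z S => ns S + cE w (p z) ns S := ⟨_, rfl⟩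
  have g0 : ∀ z S, 0 ≤ g z S := fun z S => by
    rw [hg]
    exact add_nonneg (hG.ns0 S) (cE_nonneg w (p z) hG.ns0 S)
  -- the own replicas
  have own : ∀ (y : Fin 3 → X) (i : Fin 2), |R (fun i => b (y i.succ)) (y i.succ)| ≤
      M * ∑ z ∈ J, th z * g z (y i.succ) := fun y i => by
    refine (hR _ _).trans (mul_le_mul_of_nonneg_left (sum_le_sum fun z hz => mul_le_mul_of_nonneg_left ?_ (th0 z hz)) hM)
    rw [hg]
    exact hp z hz _ i _ rfl
  have h1 : rep 3 w (fun y => |(H41.repDr X 2).insR b R Ψ y|) ≤ rep 3 w (fun y =>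
      ∑ z ∈ J, th z * (2 * (M * K) * cE w (p z) (fun T => Z (y 1) (y 2) * i1 (O (fun i => b (y i.succ)) T)) (y 0) +
        (M * K * D * g z (y 1) + M * K * D * g z (y 2)))) := by
    refine rep_mono 3 w fun y => (abs_insR2 hΨ y).trans ?_
    have k0 := hR (fun i => b (y i.succ)) (y 0)
    have k1 := own y 0
    have k2 := own y 1
    obtain ⟨A, hA⟩ : ∃ A : ℝ, A = ∑ z ∈ J, th z * cE w (p z) (fun T => i1 (O (fun i => b (y i.succ)) T)) (y 0) := ⟨_, rfl⟩
    obtain ⟨A1, hA1⟩ : ∃ A1 : ℝ, A1 = ∑ z ∈ J, th z * g z (y 1) := ⟨_, rfl⟩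
    obtain ⟨A2, hA2⟩ : ∃ A2 : ℝ, A2 = ∑ z ∈ J, th z * g z (y 2) := ⟨_, rfl⟩
    have k1' : |R (fun i => b (y i.succ)) (y 1)| ≤ M * A1 := by
      rw [hA1]
      exact k1
    have k2' : |R (fun i => b (y i.succ)) (y 2)| ≤ M * A2 := by
      rw [hA2]
      exact k2
    rw [← hA] at k0
    have n1 : 0 ≤ A1 := by
      rw [hA1]
      exact sum_nonneg fun z hz => mul_nonneg (th0 z hz) (g0 z _)
    have n2 : 0 ≤ A2 := by
      rw [hA2]
      exact sum_nonneg fun z hz => mul_nonneg (th0 z hz) (g0 z _)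
    have k3 : K * Z (y 1) (y 2) * (2 * |R (fun i => b (y i.succ)) (y 0)| +
        (|R (fun i => b (y i.succ)) (y 1)| + |R (fun i => b (y i.succ)) (y 2)|)) ≤
        K * Z (y 1) (y 2) * (2 * (M * A) + (M * A1 + M * A2)) :=
      mul_le_mul_of_nonneg_left (by linarith) (mul_nonneg hK (hZ0 _ _))
    have k4 : K * Z (y 1) (y 2) * (M * A1 + M * A2) ≤ M * K * D * A1 + M * K * D * A2 := by
      have k5 := mul_le_mul_of_nonneg_right (hZ (y 1) (y 2)) (mul_nonneg (mul_nonneg hK hM) (add_nonneg n1 n2))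
      calc K * Z (y 1) (y 2) * (M * A1 + M * A2) = Z (y 1) (y 2) * (K * M * (A1 + A2)) := by ring
        _ ≤ D * (K * M * (A1 + A2)) := k5
        _ = _ := by ring
    have e1 : ∀ z, cE w (p z) (fun T => Z (y 1) (y 2) * i1 (O (fun i => b (y i.succ)) T)) (y 0) =
        Z (y 1) (y 2) * cE w (p z) (fun T => i1 (O (fun i => b (y i.succ)) T)) (y 0) := fun z => by
      have h := congrFun (cE_smul w (p z) (Z (y 1) (y 2)) fun T => i1 (O (fun i => b (y i.succ)) T)) (y 0)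
      exact h
    have e2 : ∑ z ∈ J, th z * (2 * (M * K) * cE w (p z) (fun T => Z (y 1) (y 2) * i1 (O (fun i => b (y i.succ)) T)) (y 0) +
        (M * K * D * g z (y 1) + M * K * D * g z (y 2))) =
        2 * (M * K) * Z (y 1) (y 2) * A + (M * K * D * A1 + M * K * D * A2) := by
      rw [hA, hA1, hA2, mul_sum, mul_sum, mul_sum, ← sum_add_distrib, ← sum_add_distrib]
      refine sum_congr rfl fun z _ => ?_
      rw [e1]
      ring
    rw [e2]
    calc _ ≤ _ := k3
      _ = 2 * (M * K) * Z (y 1) (y 2) * A + K * Z (y 1) (y 2) * (M * A1 + M * A2) := by ring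
      _ ≤ _ := by linarith
  refine h1.trans ?_
  rw [H41.rep_sum]
  have h2 : ∀ z ∈ J, rep 3 w (fun y => th z * (2 * (M * K) * cE w (p z) (fun T => Z (y 1) (y 2) *
      i1 (O (fun i => b (y i.succ)) T)) (y 0) + (M * K * D * g z (y 1) + M * K * D * g z (y 2)))) ≤
      th z * (2 * (M * K) * rep 3 w (fun y => F (y 0) (y 1) (y 2) * Z (y 1) (y 2)) + 8 * (M * K) * D * gm w ns) := fun z hz => by
    have e3 := rep_cE 2 w (p z) fun x T => Z (x 0) (x 1) * i1 (O (fun i => b (x i)) T)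
    have e4 : ∀ i : Fin 3, rep 3 w (fun y => M * K * D * g z (y i)) = M * K * D * (2 * gm w ns) := fun i => by
      have e6 : gm w (g z) = 2 * gm w ns := by
        rw [← rep_coord 0 w (g z) 0, hg]
        show rep 1 w (fun x => ns (x 0) + cE w (p z) ns (x 0)) = _
        rw [H41.rep_add, rep_coord 0 w ns 0, rep_coord 0 w (cE w (p z) ns) 0, gm_cE]
        ring
      rw [rep_smul, rep_coord 2 w (g z) i, e6]
    rw [rep_smul, H41.rep_add, H41.rep_add, e4 1, e4 2, rep_smul]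
    refine mul_le_mul_of_nonneg_left ?_ (th0 z hz)
    have h3 := mul_le_mul_of_nonneg_left (rep_out hG hZ0 hZ w) (show 0 ≤ 2 * (M * K) by positivity)
    have e5 : rep 3 w (fun y => cE w (p z) (fun T => Z (y 1) (y 2) * i1 (O (fun i => b (y i.succ)) T)) (y 0)) =
        rep 3 w (fun y => Z (y 1) (y 2) * i1 (O (fun i => b (y i.succ)) (y 0))) := e3
    rw [e5]
    linarith
  refine (sum_le_sum h2).trans ?_
  rw [← sum_mul]
  have h4 : 0 ≤ 2 * (M * K) * rep 3 w (fun y => F (y 0) (y 1) (y 2) * Z (y 1) (y 2)) + 8 * (M * K) * D * gm w ns :=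
    add_nonneg (mul_nonneg (by positivity) (H41.rep_nonneg 3 w fun y => mul_nonneg (hG.F0 _ _ _) (hZ0 _ _)))
      (mul_nonneg (by positivity) hgn)
  calc _ ≤ 1 * _ := mul_le_mul_of_nonneg_right th1 h4
    _ = _ := one_mul _

end abs

end

end Pool.Agent.W_7d29a1_C0.Far34
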