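import Pool.Agent.W_7d29a1_C0.FarC34
import Pool.Agent.W_7d29a1_C0.Far19B

/-!
MP_7d29a1_pr, [CURV0], leaf E1f, F5 (helper34): THE FAR TERMS OF E1 IN THE MODEL, pathwise.

The boxes and tubes of `Tube73` / `Far19` are a geometry in the sense of `Geo` with the weight `nfl` of the paths which are not flat
(`geo34`, `own_dw34`), so the insertions of the far parts of the slab fields are bounded by the average of `Ff` and the mass of `nfl`
(`insFar34`, `insDw34`, `insTwo34`), for every weight.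
-/

set_option autoImplicit false
set_option linter.unusedSectionVars false
set_option linter.unusedVariables false

namespace Pool.Agent.W_7d29a1_C0.Far34

open Finset MeasureTheory Pool.Agent.W_7d29a1_F Pool.Agent.W_7d29a1_X Pool.W7d29a1.C0
open Pool.Agent.W_7d29a1_C0.Mod92 Pool.Agent.W_7d29a1_C0.Swap57
open Pool.W7d29a1.C0.VT31
open Pool.W7d29a1.C0.T73 Pool.W7d29a1.C0.Fld19
open Pool.W7d29a1.C0.H41 (cut' farF dwF repDr repEv)

noncomputable section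

variable {N : ℕ} {Q : Finset (Finset ℕ)} {σ : ℝ} {v : ℕ → ℝ} {R : ℝ} {L k0 n : ℕ} {J : Finset ℕ}

/-- A flat path at a row, seen from another row. -/
theorem Fl.line {S : Px Q} (h : Fl N σ v S) (hR0 : 0 ≤ R) (hR : ∀ k, 1 ≤ k → k ≤ L → v k ≤ R) {i z : ℕ} (hi : i ≤ N) (hz : z ≤ N)
    (h1 : i - z ≤ L) (h2 : z - i ≤ L) : |((ps S i : ℤ) : ℝ) - ((ps S z : ℤ) : ℝ) - σ * ((i : ℝ) - z)| ≤ R := by
  rcases lt_trichotomy i z with h4 | h4 | h4
  · have h5 := h i (z - i) (by omega) (by omega)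
    rw [show i + (z - i) = z by omega] at h5
    have h6 := h5.trans (hR (z - i) (by omega) (by omega))
    rw [← abs_neg] at h6
    refine le_trans (le_of_eq ?_) h6
    congr 1
    push_cast [Nat.cast_sub h4.le]
    ring
  · subst h4
    rw [show ((ps S i : ℤ) : ℝ) - ((ps S i : ℤ) : ℝ) - σ * ((i : ℝ) - i) = 0 by ring, abs_zero]
    exact hR0
  · have h5 := h z (i - z) (by omega) (by omega)
    rw [show z + (i - z) = i by omega] at h5
    refine le_trans (le_of_eq ?_) (h5.trans (hR (i - z) (by omega) (by omega)))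
    congr 1
    push_cast [Nat.cast_sub h4.le]
    ring

/-- A flat path is straight. -/
theorem str_of_fl {S : Px Q} (h : Fl N σ v S) (hR0 : 0 ≤ R) (hR : ∀ k, 1 ≤ k → k ≤ L → v k ≤ R) (hJN : ∀ i ∈ J, i ≤ N) (hk : k0 ≤ N)
    (hJ : ∀ i ∈ J, i - k0 ≤ L ∧ k0 - i ≤ L) : Str pm σ R (k0 : ℤ) (JZ J) S := by
  intro m hm
  obtain ⟨i, hi, rfl⟩ := mem_JZ.1 hm
  have h1 := h.line hR0 hR (hJN i hi) hk (hJ i hi).1 (hJ i hi).2
  unfold dl
  simp only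
  rw [pm_nat, pm_nat]
  exact_mod_cast h1

/-- **THE GEOMETRY.** -/
theorem geo34 (hR1 : 1 ≤ R) (hR : ∀ k, 1 ≤ k → k ≤ L → v k ≤ R) (hJN : ∀ i ∈ J, i ≤ N) (hk : k0 ≤ N)
    (hJ : ∀ i ∈ J, i - k0 ≤ L ∧ k0 - i ≤ L) (hn : k0 ≤ n) :
    Geo (bx (pm (Q := Q)) R (k0 : ℤ) n) (fun (β : Fin 2 → Fin (n + 1)) S => OutB pm σ R (k0 : ℤ) (JZ J) β S) (nfl N σ v)
      (farI J R) where
  ns0 := nfl_nonneg N σ v
  F0 := farI_nonneg J R
  own β i T hi h := by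
    by_cases hf : Fl N σ v T
    · exact absurd h (not_OutB hR1 (pm_nonneg _ _) (pm_le _ (by exact_mod_cast hn)) (i := i) hi
        (str_of_fl hf (by linarith) hR hJN hk hJ))
    · unfold nfl
      rw [if_neg hf]
  free x T h := by
    have n0 := nfl_nonneg N σ v (x 0)
    have n1 := nfl_nonneg N σ v (x 1)
    have f0 := farI_nonneg J R T (x 0) (x 1)
    by_cases h0 : Fl N σ v (x 0)
    · by_cases h1 : Fl N σ v (x 1)
      · have h2 := OutB_sep hR1 (fun i => pm_nonneg (x i) _) (fun i => pm_le (x i) (by exact_mod_cast hn))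
          (fun i : Fin 2 => str_of_fl (S := x i) (by
            fin_cases i
            · exact h0
            · exact h1) (by linarith) hR hJN hk hJ) h
        obtain ⟨m, hm, h3⟩ := h2
        obtain ⟨i, hi, rfl⟩ := mem_JZ.1 hm
        have h4 : FarJ J R T (x 0) (x 1) := by
          refine ⟨i, hi, ?_, ?_⟩
          · have := (h3 0).le
            rwa [pm_nat, pm_nat] at this
          · have := (h3 1).le
            rwa [pm_nat, pm_nat] at this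
        have h5 : farI J R T (x 0) (x 1) = 1 := if_pos h4
        linarith
      · have : nfl N σ v (x 1) = 1 := if_neg h1
        linarith
    · have : nfl N σ v (x 0) = 1 := if_neg h0
      linarith

/-- **The own replicas under the conditional mean given the future of the row `z`.** -/
theorem own_dw34 [Nonempty (Px Q)] (w : Px Q → ℝ) (hR1 : 1 ≤ R) (hR : ∀ k, 1 ≤ k → k ≤ L → v k ≤ R) (hJN : ∀ i ∈ J, i ≤ N) (hk : k0 ≤ N)
    {z : ℕ} (hzN : z ≤ N) (hJ : ∀ i ∈ J, i - z ≤ L ∧ z - i ≤ L) (hz : z - k0 ≤ L ∧ k0 - z ≤ L) (hn : k0 ≤ n)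
    (β : Fin 2 → Fin (n + 1)) (i : Fin 2) (S : Px Q) (hi : β i = bx pm R (k0 : ℤ) n S) :
    cE w (pb z) (fun T => i1 (OutB pm σ R (k0 : ℤ) (JZ J) β T)) S ≤ nfl N σ v S + cE w (pb z) (nfl N σ v) S := by
  have hR0 : (0 : ℝ) ≤ R := by linarith
  have hnn : 0 ≤ cE w (pb z) (nfl N σ v) S := cE_nonneg _ _ (nfl_nonneg N σ v) S
  by_cases h : Fl N σ v S
  · have e0 : nfl N σ v S = 0 := if_pos h
    rw [e0, zero_add]
    refine cE_mono_fib w (pb z) fun T hT => i1_le (nfl_nonneg _ _ _ _) fun hO => ?_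
    by_contra hc
    have h' : Fl N σ v T := by
      by_contra hf
      refine hc ?_
      unfold nfl
      rw [if_neg hf]
    have hzz : ps T z = ps S z := congrArg Prod.fst hT
    obtain ⟨m, hm, h2⟩ := hO
    obtain ⟨k, hk', rfl⟩ := mem_JZ.1 hm
    have a1 := h'.line hR0 hR (hJN k hk') hzN (hJ k hk').1 (hJ k hk').2
    have a2 := h.line hR0 hR hzN hk hz.1 hz.2
    have a3 := bx_spec (pa := pm (Q := Q)) (m0 := (k0 : ℤ)) (n := n) hR1 (x := S) (pm_nonneg _ _) (pm_le _ (by exact_mod_cast hn))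
    have a4 := h2 i
    rw [hi] at a4
    unfold dl at a4
    simp only at a4
    rw [pm_nat] at a3 a4
    rw [hzz] at a1
    have e1 : (((k : ℕ) : ℤ) : ℝ) = (k : ℝ) := by push_cast; ring
    have e2 : (((k0 : ℕ) : ℤ) : ℝ) = (k0 : ℝ) := by push_cast; ring
    rw [e1, e2] at a4
    rw [abs_le] at a1 a2 a3
    rw [lt_abs] at a4
    rcases a4 with a4 | a4 <;> nlinarith [a1.1, a1.2, a2.1, a2.2, a3.1, a3.2]
  · have e0 : nfl N σ v S = 1 := if_neg h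
    rw [e0]
    have h3 : cE w (pb z) (fun T => i1 (OutB pm σ R (k0 : ℤ) (JZ J) β T)) S ≤ 1 := by
      refine (cE_mono w (pb z) (g := fun _ => 1) (fun x => i1_le zero_le_one fun _ => le_rfl) S).trans_eq ?_
      rw [cE_one]
    linarith

/-! ### The insertions -/

variable [Nonempty (Px Q)] {Ψ : (Fin 2 → Px Q) → ℝ} {f : Px Q → ℝ} {D M K : ℝ} {m0 m1 : ℕ}

/-- **(i) ONE FAR INSERTION.** -/
theorem insFar34 (hR1 : 1 ≤ R) (hR : ∀ k, 1 ≤ k → k ≤ L → v k ≤ R) (hJN : ∀ i ∈ J, i ≤ N) (hk : k0 ≤ N)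
    (hJ : ∀ i ∈ J, i - k0 ≤ L ∧ k0 - i ≤ L) (hn : k0 ≤ n) (hf : ∀ S, |f S| ≤ D) (hK : 0 ≤ K)
    (hΨ : ∀ x, |Ψ x| ≤ K * Zf m0 m1 f (x 0) (x 1)) (hJ0 : J.Nonempty) (hM : 0 ≤ M) {c : Pt → Env → ℝ} (η : Env) {K' : ℕ}
    (hc : ∀ p ∈ Sl J K', |c p η| ≤ M / J.card) (w : Px Q → ℝ) :
    rep 3 w (fun y => |(repDr (Px Q) 2).insR (bx pm R (k0 : ℤ) n)
      (farF (fun β : Fin 2 → Fin (n + 1) => chT σ R (k0 : ℤ) β) (Sl J K') c (fun p (S : Px Q) => nn p S.1) η) Ψ y|) ≤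
      2 * (M * K) * rep 3 w (fun y => farI J R (y 0) (y 1) (y 2) * Zf m0 m1 f (y 1) (y 2)) +
        12 * (M * K) * D * gm w (nfl N σ v) := by
  refine (far_one (geo34 hR1 hR hJN hk hJ hn) (Zf_nonneg m0 m1 f) (Zf_le hf) hM hK (fun β S => ?_) hΨ w).trans_eq (by ring)
  have h := abs_farF (Q := Q) (sl' := σ) (R := R) (m0 := (k0 : ℤ)) (K := K') hJ0 hM η hc β S
  unfold i1
  exact h

/-- **(ii) TWO FAR INSERTIONS**: the second one is only bounded. -/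
theorem insTwo34 {b : Px Q → Fin (n + 1)} {χ : (Fin 3 → Fin (n + 1)) → Pt → ℝ} (hχ0 : ∀ β p, 0 ≤ χ β p) (hχ1 : ∀ β p, χ β p ≤ 1)
    (hJ0 : J.Nonempty) (hM : 0 ≤ M) {c : Pt → Env → ℝ} (η : Env) {K' : ℕ} (hc : ∀ p ∈ Sl J K', |c p η| ≤ M / J.card)
    (Φ : (Fin 3 → Px Q) → ℝ) (w : Px Q → ℝ) :
    rep 4 w (fun y => |(repDr (Px Q) 3).insR b (farF χ (Sl J K') c (fun p (S : Px Q) => nn p S.1) η) Φ y|) ≤
      6 * M * rep 3 w fun y => |Φ y| := by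
  refine far_two (fun β S => ?_) Φ w
  unfold farF
  have hcJ : ∀ p ∈ Sl J K', |cut' (χ β) c p η| ≤ M / J.card := fun p hp => by
    unfold H41.cut'
    rw [abs_mul]
    have h2 : |1 - χ β p| ≤ 1 := by
      rw [abs_le]
      constructor <;> linarith [hχ0 β p, hχ1 β p]
    calc |1 - χ β p| * |c p η| ≤ 1 * (M / J.card) := mul_le_mul h2 (hc p hp) (abs_nonneg _) zero_le_one
      _ = _ := one_mul _
  exact abs_Cf_Sl hJ0 hM η hcJ S

/-- **(iii) THE DERIVATIVE OF THE SECOND FIELD ALONG THE FAR PART OF THE FIRST ONE.** -/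
theorem insDw34 {μ : Measure ℝ} {s : ℝ} (hQ : GQ N Q) {U H : Env → Finset ℕ → ℝ} {c : ℕ} (hU : Past c U) (hH : Past c H)
    (hR1 : 1 ≤ R) (hR : ∀ k, 1 ≤ k → k ≤ L → v k ≤ R) (hJN : ∀ i ∈ J, i ≤ N) (hk : k0 ≤ N)
    (hJ : ∀ i ∈ J, i - k0 ≤ L ∧ k0 - i ≤ L) (hn : k0 ≤ n) (hf : ∀ S, |f S| ≤ D) (hK : 0 ≤ K)
    (hΨ : ∀ x, |Ψ x| ≤ K * Zf m0 m1 f (x 0) (x 1)) (hM : 0 ≤ M) (hHM : ∀ η S, |H η S| ≤ M) (hJ0 : J.Nonempty)
    (hcJ : ∀ i ∈ J, c ≤ i) {J' : Finset ℕ} (hJJ : ∀ i ∈ J, ∀ z ∈ J', i < z) (hJN' : ∀ z ∈ J', z ≤ N)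
    (hJ' : ∀ z ∈ J', (∀ i ∈ J, i - z ≤ L ∧ z - i ≤ L) ∧ z - k0 ≤ L ∧ k0 - z ≤ L) {c1 : Pt → Env → ℝ}
    (ms : ∀ q ∈ Sl J N, Measurable (c1 q))
    (bl : ∀ q ∈ Sl J N, ∀ (η : Env) (r : Pt) (x : ℝ), q.1 ≤ r.1 → c1 q (Function.update η r x) = c1 q η) (η : Env) {M1 : ℝ}
    (hM1 : 0 ≤ M1) (h1 : ∀ q ∈ Sl J N, |c1 q η| ≤ M1 / J.card) :
    rep 3 (wU μ s N Q U η) (fun y => |(repDr (Px Q) 2).insR (bx pm R (k0 : ℤ) n)
      (dwF (fun β : Fin 2 → Fin (n + 1) => chT σ R (k0 : ℤ) β) (Sl J N) (Sl J' N) c1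
        (fun p q η => (J'.card : ℝ)⁻¹ * fq' s U H p q η) (fun p (S : Px Q) => nn p S.1) η) Ψ y|) ≤
      4 * (M * M1 * K) * rep 3 (wU μ s N Q U η) (fun y => farI J R (y 0) (y 1) (y 2) * Zf m0 m1 f (y 1) (y 2)) +
        32 * (M * M1 * K) * D * gm (wU μ s N Q U η) (nfl N σ v) := by
  have th0 : ∀ z ∈ J', (0 : ℝ) ≤ (fun _ : ℕ => (J'.card : ℝ)⁻¹) z := fun z _ => inv_nonneg.2 (Nat.cast_nonneg _)
  have th1 : ∑ z ∈ J', (fun _ : ℕ => (J'.card : ℝ)⁻¹) z ≤ 1 := by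
    rw [sum_const, nsmul_eq_mul]
    rcases Nat.eq_zero_or_pos J'.card with h | h
    · rw [h]
      simp
    · rw [mul_inv_cancel₀ (Nat.cast_ne_zero.2 (by omega))]
  refine (far_dw (geo34 hR1 hR hJN hk hJ hn) (Zf_nonneg m0 m1 f) (Zf_le hf) (by positivity : 0 ≤ 2 * M * M1) hK J' th0 th1 pb
    (wU μ s N Q U η) (fun z hz β i S hi => own_dw34 (wU μ s N Q U η) hR1 hR hJN hk (hJN' z hz) (hJ' z hz).1 (hJ' z hz).2 hn β i S hi)
    (fun β S => ?_) hΨ).trans_eq (by ring)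
  have h := abs_dwF (μ := μ) (s := s) (N := N) (Q := Q) (sl' := σ) (R := R) (m0 := (k0 : ℤ)) hQ hU hH hM hHM hJ0 hcJ hJJ hJN' ms bl η
    hM1 h1 β S
  rw [← mul_sum]
  unfold i1
  exact h

end

end Pool.Agent.W_7d29a1_C0.Far34
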