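import Pool.Agent.W_7d29a1_C0.FarE34
import Pool.Agent.W_7d29a1_C0.Cr59

/-!
MP_7d29a1_pr, [CURV0], leaf E1f, F5 (helper34): the far terms of E1 for the assembly: the spectators of the contract are in the class `Sp`
(`sp_of_cls`), and the integrated form of the pathwise inequalities of `FarD34` (`int_far34`).
-/

set_option autoImplicit false
set_option linter.unusedSectionVars false
set_option linter.unusedVariables false

namespace Pool.Agent.W_7d29a1_C0.Far34

open Finset MeasureTheory Filter Topology Pool.Agent.W_7d29a1_F Pool.Agent.W_7d29a1_X Pool.Agent.W_7d29a1_H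
open Pool.Agent.W_7d29a1_C0 Pool.Agent.W_7d29a1_C0.Mod92 Pool.Agent.W_7d29a1_C0.Swap57
open Pool.W7d29a1.C0 Pool.W7d29a1.C0.VT31
open Pool.W7d29a1.C0.Fld19 Pool.W7d29a1.C0.H27

noncomputable section

variable {μ : Measure ℝ} {s : ℝ} {N : ℕ}

/-- **The spectators of the contract.** -/
theorem sp_of_cls {c d : ℕ} {D : ℝ} {f : Fam N} (h : Cls59 N c d D f) (y : ℕ) (A : Finset ℕ) :
    Sp (Pn N y) d D (fun η => f y (η, A)) where
  meas S := (h.meas y S).comp measurable_prodMk_right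
  bdd η S := h.bdd y (η, A) S
  side η S S' e := h.side y (η, A) S S' e
  env η S t x u h0 h1 := h.env y η A S t x u h0 h1

/-- From the pathwise inequalities to the expectation. -/
theorem int_far34 [IsProbabilityMeasure μ] {P : Finset (Finset ℕ)} [Nonempty (Px P)] {c : ℕ} {U : Env → Finset ℕ → ℝ} (hU : Past c U)
    {d : ℕ} {D : ℝ} {f : Env → Px P → ℝ} (hf : Sp P d D f) (σ : ℝ) (v : ℕ → ℝ) (J : Finset ℕ) (R : ℝ) (m0 m1 : ℕ) {F : Env → ℝ}
    {a b : ℝ} (h0 : ∀ η, 0 ≤ F η)
    (h : ∀ η, F η ≤ a * rep 3 (wU μ s N P U η) (Ff J R m0 m1 f η) + b * gm (wU μ s N P U η) (nfl N σ v)) :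
    ∫ η, F η ∂(law μ) ≤ a * ∫ η, rep 3 (wU μ s N P U η) (Ff J R m0 m1 f η) ∂(law μ) +
      b * ∫ η, gm (wU μ s N P U η) (nfl N σ v) ∂(law μ) := by
  have i1' : Integrable (fun η => rep 3 (wU μ s N P U η) (Ff J R m0 m1 f η)) (law μ) :=
    int_rep (measurable_wU hU) (meas_Ff hf J R m0 m1) (Ff_nonneg J R m0 m1 f) (Ff_le hf J R m0 m1)
  have i2' : Integrable (fun η => gm (wU μ s N P U η) (nfl N σ v)) (law μ) := by
    refine Integrable.of_bound (meas_gm_wU hU _).aestronglyMeasurable 1 (ae_of_all _ fun η => ?_)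
    rw [← rep_coord 0 (wU μ s N P U η) (nfl N σ v) 0, Real.norm_eq_abs,
      abs_of_nonneg (H41.rep_nonneg 1 _ fun x => nfl_nonneg N σ v (x 0))]
    exact (rep_mono 1 _ fun x => by
      unfold nfl
      split_ifs <;> norm_num).trans_eq (H41.rep_const 1 _ 1)
  rw [← integral_const_mul, ← integral_const_mul, ← integral_add (i1'.const_mul a) (i2'.const_mul b)]
  exact integral_mono_of_nonneg (ae_of_all _ h0) ((i1'.const_mul a).add (i2'.const_mul b)) (ae_of_all _ h)

end

end Pool.Agent.W_7d29a1_C0.Far34
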