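import Pool.Agent.W_7d29a1_C0.FarP57
import Pool.Agent.W_7d29a1_C0.TM72

/-!
MP_7d29a1_pr, [CURV0] (helper57), leaf (T): the far part of one level in the names of `TT72` (`far_lev57`); at the root there is none:
the replicas stay in the cone, `cone_FV57`.
-/

set_option autoImplicit false
set_option linter.unusedSectionVars false
set_option linter.unusedVariables false

namespace Pool.Agent.W_7d29a1_C0.InT57

open Finset MeasureTheory Pool.Agent.W_7d29a1_F Pool.Agent.W_7d29a1_X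
open Pool.Agent.W_7d29a1_HS (In)
open Pool.Agent.W_7d29a1_HZ (wd' EE')
open Pool.Agent.W_7d29a1_H (sl)
open Pool.Agent.W_7d29a1_C0.Mod92 Pool.Agent.W_7d29a1_C0.Swap57 Pool.Agent.W_7d29a1_C0.NM82 Pool.Agent.W_7d29a1_C0.CutT57
open Pool.Agent.W_7d29a1_C0.FP63 (WF lA at2 Rd)
open Pool.Agent.W_7d29a1_C0.T93 (pr2 rdist)
open Pool.Agent.W_7d29a1_C0.T72 (UQ72 NN72 one72)
open Pool.W7d29a1.C0 Pool.W7d29a1.C0.VT31
open Pool.W7d29a1.C0.T73 (Str dl)

noncomputable section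

variable {μ : Measure ℝ} {s : ℝ} {N : ℕ}

/-- The own price in the names of `TT72`. -/
theorem pr2_UQ57 (a z z' : ℕ → ℕ) (zt d j k y : ℕ) :
    pr2 μ s N (NN57 N zt d) (UA57 μ s N a z z' j) (UA57 μ s N a z z' k) y =
      pr2 μ s N (NN72 N zt d) (UQ72 μ s N (a j) (z j) (z' j) (one72 N)) (UQ72 μ s N (a k) (z k) (z' k) (one72 N)) y := by
  have e : ∀ j, UA57 μ s N a z z' j = UQ72 μ s N (a j) (z j) (z' j) (one72 N) := fun j => by
    funext y ω S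
    exact (one_mul _).symm
  rw [e, e]
  rfl

/-- **THE FAR PART OF ONE LEVEL**, in the names of `TT72`. -/
theorem far_lev57 [IsProbabilityMeasure μ] {c C : ℝ} {n₀ : ℕ} (h : In μ s c C n₀) : ∀ ε θ : ℝ, 0 < ε → 0 < θ → ∃ δ c' : ℝ,
    0 < δ ∧ 0 < c' ∧ ∃ L₀ : ℕ, ∀ L : ℕ, L₀ ≤ L → ∀ N t : ℕ, L ≤ 16 * N → N ≤ L → (L : ℝ) ^ θ ≤ t → t ≤ N →
    ∀ ys : Finset ℕ, ys.Nonempty → (∀ y ∈ ys, y ≤ N ∧ |(y : ℝ) - sl μ s * N| ≤ ((L : ℝ) ^ δ * wd' μ s N)) →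
    ∀ (R : ℝ), (L : ℝ) ^ (-δ) * wd' μ s t ≤ R → ∀ (S : Finset ℕ) (c₁ r : ℕ), (∀ j ∈ S, c₁ ≤ j ∧ j < c₁ + r) →
    ∀ (a z z' : ℕ → ℕ) (zt d : ℕ), (∀ j ∈ S, z' j ≤ zt ∧ z' j ≤ N) → ∀ φ : ℕ → ℝ, (∀ D, 0 ≤ φ D) →
    (∀ j ∈ S, ∀ k ∈ S, avy ys (pr2 μ s N (NN72 N zt d) (UQ72 μ s N (a j) (z j) (z' j) (one72 N))
      (UQ72 μ s N (a k) (z k) (z' k) (one72 N))) ≤ φ (rdist j k)) →
    ∀ (f : Fam N) (F : ℝ), (∀ y ∈ ys, ∀ x, Measurable fun ω => f y ω x) → (∀ y ω x, |f y ω x| ≤ F) →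
    ∑ j ∈ S, avy ys (fun y => ∫ ω, FV57 (wm μ s N (Pn N y) ω) (a j) (z j) (z' j) d R (f y ω) ∂(Pm μ N)) ≤
      Real.sqrt (2 * S.card * ∑ D ∈ range r, ((L : ℝ) ^ ε * (EE' μ s t)⁻¹ * φ D + Real.exp (-(L : ℝ) ^ c'))) *
        Real.sqrt (2 * avy ys (varF μ s N f)) := by
  intro ε θ hε hθ
  obtain ⟨δ, c', hδ, hc', L₀, hF⟩ := far_row57 h ε θ hε hθ
  refine ⟨δ, c', hδ, hc', L₀, fun L hL N t hLN hNL htL htN ys hys hyy R hR S c₁ r hS a z z' zt d hz φ hφ hp f F mf bf => ?_⟩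
  refine hF L hL N t hLN hNL htL htN ys hys hyy R hR S c₁ r hS a z z' zt d hz φ hφ (fun j hj k hk => ?_) f F mf bf
  refine (le_of_eq ?_).trans (hp j hj k hk)
  unfold avy
  congr 1
  exact sum_congr rfl fun y _ => pr2_UQ57 a z z' zt d j k y

/-! ### The cone -/

section Cone

variable {Q : Finset (Finset ℕ)}

theorem ds57_le_bend {sl R : ℝ} (hR : 0 < R) (z : ℕ) (v S S' : Px Q) :
    ds57 R z v S S' ≤ bend57 sl (R / 4) 0 {z} v + bend57 sl (R / 4) 0 {z} S := by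
  unfold ds57 bend57
  by_cases h1 : Str pz sl (R / 4) 0 (JZ {z}) v
  · by_cases h2 : Str pz sl (R / 4) 0 (JZ {z}) S
    · rw [if_neg]
      · split_ifs <;> norm_num
      · rintro ⟨h3, -⟩
        have hz : ((z : ℕ) : ℤ) ∈ JZ {z} := mem_image.2 ⟨z, mem_singleton_self z, rfl⟩
        have a1 := h1 _ hz
        have a2 := h2 _ hz
        unfold dl pz at a1 a2
        simp only [Int.toNat_natCast, Int.toNat_zero, ps_zero] at a1 a2
        have a3 : |((ps v z - ps S z : ℤ) : ℝ)| ≤ R / 4 + R / 4 := by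
          have e : ((ps v z - ps S z : ℤ) : ℝ) = (((ps v z : ℤ) : ℝ) - ((0 : ℤ) : ℝ) - sl * (((z : ℤ) : ℝ) - ((0 : ℤ) : ℝ))) -
              (((ps S z : ℤ) : ℝ) - ((0 : ℤ) : ℝ) - sl * (((z : ℤ) : ℝ) - ((0 : ℤ) : ℝ))) := by
            push_cast
            ring
          rw [e]
          exact (abs_sub _ _).trans (add_le_add a1 a2)
        linarith
    · rw [if_neg h2]
      split_ifs <;> norm_num
  · rw [if_neg h1]
    split_ifs <;> norm_num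

variable [SwQ Q] [Nonempty (Px Q)] {a0 z z' c : ℕ}

theorem FV57_cone {sl R : ℝ} (hR : 0 < R) (w : Px Q → ℝ) {f : Px Q → ℝ} {F : ℝ} (bf : ∀ S, |f S| ≤ F) :
    FV57 w a0 z z' c R f ≤ 4 * F * gm w (bend57 sl (R / 4) 0 {z'}) := by
  obtain ⟨S0⟩ := (inferInstance : Nonempty (Px Q))
  have hF : 0 ≤ F := (abs_nonneg _).trans (bf S0)
  rw [FV57_PP]
  have h1 : ∀ S S' : Px Q, (QA57 w a0 z z' S * dm57 w R z' S S' * NI z' c S S') * |f S - f S'| ≤
      2 * F * (gm w (bend57 sl (R / 4) 0 {z'}) + bend57 sl (R / 4) 0 {z'} S) := fun S S' => by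
    have d1 : dm57 w R z' S S' ≤ gm w (bend57 sl (R / 4) 0 {z'}) + bend57 sl (R / 4) 0 {z'} S := by
      unfold dm57
      refine (gm_mono' w fun v => ds57_le_bend (sl := sl) hR z' v S S').trans_eq ?_
      have e := gm_add w (bend57 sl (R / 4) 0 {z'}) fun _ => bend57 sl (R / 4) 0 {z'} S
      rw [gm_const] at e
      exact e
    have d0 := dm57_nonneg w R z' S S'
    have q0 := QA57_nonneg w a0 z z' S
    have q1 := QA57_le_one w a0 z z' S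
    have f1 : |f S - f S'| ≤ 2 * F := (abs_sub _ _).trans (by linarith [bf S, bf S'])
    have k1 : QA57 w a0 z z' S * dm57 w R z' S S' * NI z' c S S' ≤
        gm w (bend57 sl (R / 4) 0 {z'}) + bend57 sl (R / 4) 0 {z'} S := by
      calc QA57 w a0 z z' S * dm57 w R z' S S' * NI z' c S S' ≤ 1 * dm57 w R z' S S' * 1 :=
            mul_le_mul (mul_le_mul_of_nonneg_right q1 d0) (NI_le_one _ _ _ _) (NI_nonneg _ _ _ _)
              (mul_nonneg zero_le_one d0)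
        _ = dm57 w R z' S S' := by ring
        _ ≤ _ := d1
    have k0 : 0 ≤ QA57 w a0 z z' S * dm57 w R z' S S' * NI z' c S S' := mul_nonneg (mul_nonneg q0 d0) (NI_nonneg _ _ _ _)
    calc (QA57 w a0 z z' S * dm57 w R z' S S' * NI z' c S S') * |f S - f S'|
        ≤ (gm w (bend57 sl (R / 4) 0 {z'}) + bend57 sl (R / 4) 0 {z'} S) * (2 * F) :=
          mul_le_mul k1 f1 (abs_nonneg _) (k0.trans k1)
      _ = _ := by ring
  refine (PP_mono w h1).trans (le_of_eq ?_)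
  rw [PP_smul, PP_add, Row39.PP_const, Row39.PP_fst]
  ring

end Cone

/-- The zero functional. -/
theorem wf_zero57 (al be : ℕ) : WF al be 0 (fun _ _ => (0 : ℝ)) where
  meas := fun _ => measurable_const
  rd := fun _ _ _ _ => rfl
  blind := fun _ _ _ _ => rfl
  bd := fun _ _ => by rw [abs_zero]

/-- **The far functional at the corner for boxes of the width of the cone** of the rows up to `n`. -/
theorem cone_FV57 [IsProbabilityMeasure μ] {c0 C0 : ℝ} {n0 : ℕ} (h : In μ s c0 C0 n0) {ε : ℝ} (hε : 0 < ε) : ∃ δ' c' : ℝ,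
    0 < δ' ∧ 0 < c' ∧ ∃ N₀ : ℕ, ∀ N : ℕ, N₀ ≤ N → ∀ y : ℕ, y ≤ N → |(y : ℝ) - sl μ s * N| ≤ (N : ℝ) ^ δ' * wd' μ s N →
    ∀ (_ : Nonempty (Px (Pn N y))) (a0 z z' c n : ℕ), z' ≤ n → n ≤ N → ∀ R : ℝ, 0 < R →
    (∀ k : ℕ, 1 ≤ k → k ≤ n → (N : ℝ) ^ ε * wd' μ s k ≤ R / 4) →
    ∀ (f : Env × Finset ℕ → Px (Pn N y) → ℝ) (F : ℝ), (∀ S, Measurable fun ω => f ω S) → (∀ ω S, |f ω S| ≤ F) →
    ∫ ω, FV57 (wm μ s N (Pn N y) ω) a0 z z' c R (f ω) ∂(Pm μ N) ≤ 8 * F * Real.exp (-(N : ℝ) ^ c') := by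
  obtain ⟨δ', c', hδ', hc', N₀, hN₀⟩ := bnt57_le h hε
  refine ⟨δ', c', hδ', hc', N₀, fun N hN y hy hyc hne a0 z z' c n hz hn R hR0 hR f F mf bf => ?_⟩
  have := hne
  obtain ⟨S0⟩ := hne
  have hF : 0 ≤ F := (abs_nonneg _).trans (bf (fun _ => 0, ∅) S0)
  have k := hN₀ N hN y hy hyc ⟨S0⟩ (fun _ _ => 0) 0 0 0 (wf_zero57 0 0) ∅ z' z' 0 n 0 (fun i hi => by
    simp only [insert_empty_eq, mem_insert, mem_singleton, or_self] at hi
    subst hi
    exact ⟨Nat.zero_le _, hz⟩) le_rfl (Nat.zero_le _) hn R hR0.le (fun k h1 h2 => hR k h1 (by omega))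
  have mg : Measurable fun η : Env => gm (lw μ s η N (Pn N y)) (bend57 (sl μ s) (R / 4) 0 {z'}) :=
    meas_gm (fun S => meas_lw S) fun _ => measurable_const
  have bg : ∀ η : Env, |gm (lw μ s η N (Pn N y)) (bend57 (sl μ s) (R / 4) 0 {z'})| ≤ 1 := fun η => by
    rw [abs_of_nonneg (gm_nonneg _ fun S => bend57_nonneg _ _ _ _ _)]
    exact (gm_mono' _ fun S => bend57_le_one _ _ _ _ S).trans_eq (gm_const _ 1)
  have k2 : ∫ ω, FV57 (wm μ s N (Pn N y) ω) a0 z z' c R (f ω) ∂(Pm μ N) ≤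
      4 * F * ∫ η, gm (lw μ s η N (Pn N y)) (bend57 (sl μ s) (R / 4) 0 {z'}) ∂(law μ) := by
    rw [← int_fst57 (N := N) mg (M := 1) bg, ← integral_const_mul]
    refine integral_mono_of_nonneg (ae_of_all _ fun ω => ?_) (Integrable.const_mul ?_ _) (ae_of_all _ fun ω => ?_)
    · show 0 ≤ FV57 (wm μ s N (Pn N y) ω) a0 z z' c R (f ω)
      rw [FV57_PP]
      exact PP_nonneg _ fun x x' => mul_nonneg (mul_nonneg (mul_nonneg (QA57_nonneg _ _ _ _ _) (dm57_nonneg _ _ _ _ _))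
        (NI_nonneg _ _ _ _)) (abs_nonneg _)
    · exact int_bdd (M := 1) (mg.comp measurable_fst) fun ω => bg ω.1
    · exact FV57_cone (sl := sl μ s) hR0 _ (bf ω)
  have k3 : ∫ η, gm (lw μ s η N (Pn N y)) (bend57 (sl μ s) (R / 4) 0 {z'}) ∂(law μ) ≤ 2 * Real.exp (-(N : ℝ) ^ c') := by
    refine le_trans (le_of_eq ?_) (k.trans (le_of_eq ?_))
    · unfold bnt57
      refine integral_congr_ae (ae_of_all _ fun η => ?_)
      have e1 : lA μ s N (Pn N y) (fun _ _ => 0) η = lw μ s η N (Pn N y) := by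
        unfold lA
        funext S
        rw [Pi.add_apply]
        show lw μ s η N (Pn N y) S + 0 = _
        rw [add_zero]
      show gm (lw μ s η N (Pn N y)) _ = gm (lA μ s N (Pn N y) (fun _ _ => 0) η) _
      rw [e1]
      congr 2
      simp
    · rw [mul_zero, zero_sub]
  refine k2.trans ((mul_le_mul_of_nonneg_left k3 (by positivity)).trans_eq ?_)
  ring

end

end Pool.Agent.W_7d29a1_C0.InT57
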