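import Pool.Agent.W_7d29a1_C0.FarP13E

/-!
C0, helper13: **FAR13 FOR PLANS OF REPLICAS, EVENT FORM** (`farP13`). Own replicas with any density `OwnD` (free or conditional replicas); a new
replica given the own replica `l` outside of the block `[c, d)` (`c = 0`, `d = N`: a free one). The event that the conditional mass of
[the new replica has at a time of `[τ, τ + t / 4]` the distance at least `L ^ (-δ) wd' t` from ALL own replicas] is at least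
`exp (- L ^ κ)` costs `L ^ ε / EE' t` against every observable which sees of the rows of the window inside the block only the sites of
the own replicas. `farP13_mass`: the same with the mass itself.
-/

set_option autoImplicit false

namespace Pool.Agent.W_7d29a1_C0.F13

open MeasureTheory ProbabilityTheory Filter Topology Finset
open Pool.Agent.W_7d29a1_F Pool.Agent.W_7d29a1_X Pool.Agent.W_7d29a1_H Pool.Agent.W_7d29a1_HZ
open Pool.Agent.W_7d29a1_HS (In wd md)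
open Pool.Agent.W_7d29a1_HZ.ZE
open Pool.Agent.W_7d29a1_HZ.R72 (FlatP)
open Pool.Agent.W_7d29a1_HZ.Z15 (kC ZC)
open Pool.Agent.W_7d29a1_HZ.Z86 (Nm wd'_one_le)
open Pool.Agent.W_7d29a1_HZ.Z86.GX (WT numWX)
open Pool.Agent.W_7d29a1_ZE (Win Br)
open Pool.Agent.W_7d29a1_C0.Mod92 (Px Pn lw pos_card ne_Pn pJ ps_of_le ps_of_ge)
open Pool.W7d29a1.C0 (gz gm gz_pos gz_ne)
open Pool.W7d29a1.C0
open scoped ENNReal

noncomputable section

variable {μ : Measure ℝ} {s : ℝ} {N y : ℕ}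

variable {k : ℕ} {ι : Type} {kd : (Fin (k + 1) → Px (Pn N y)) → ι} {A : Env → (Fin (k + 1) → Px (Pn N y)) → ℝ} {Zq : ι → Env → ℝ}

open scoped Classical in
/-- **FAR13 FOR PLANS OF REPLICAS, EVENT FORM.** -/
theorem farP13 [IsProbabilityMeasure μ] {c₀ C₀ : ℝ} {n₀ : ℕ} (h : In μ s c₀ C₀ n₀) (k : ℕ) : ∀ ε θ B : ℝ, 0 < ε → 0 < θ → 0 ≤ B → ∃ δ κ c' : ℝ,
    0 < δ ∧ 0 < κ ∧ 0 < c' ∧ ∃ L₀ : ℕ, ∀ L : ℕ, L₀ ≤ L → ∀ N t : ℕ, L ≤ 16 * N → N ≤ L → (L : ℝ) ^ θ ≤ t → t ≤ N →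
    ∀ y : ℕ, y ≤ N → |(y : ℝ) - sl μ s * N| ≤ ((L : ℝ) ^ δ * wd' μ s N) → ∀ (ι : Type) [Fintype ι]
    (kd : (Fin (k + 1) → Px (Pn N y)) → ι) (A : Env → (Fin (k + 1) → Px (Pn N y)) → ℝ) (Zq : ι → Env → ℝ),
    OwnD μ s N y kd A Zq → (Fintype.card ι : ℝ) ≤ (L : ℝ) ^ B → ∀ (rt : Bool) (τ c d : ℕ) (l : Fin (k + 1)), c ≤ d → d ≤ N →
    ∀ (X : Env → (Fin (k + 1) → Px (Pn N y)) → ℝ), (∀ x, Measurable fun η => X η x) → (∀ η x, 0 ≤ X η x) → (∀ η x, X η x ≤ 1) →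
    OffV (rowsB rt N t τ ∩ Ioo c d) X →
    ∫ η, evD μ s N y kd A Zq η (fun x => (if Real.exp (-(L : ℝ) ^ κ) ≤ mFar μ s N y L δ t τ c d l η x then 1 else 0) * X η x) ∂(law μ) ≤
      (L : ℝ) ^ ε * (EE' μ s t)⁻¹ * ∫ η, evD μ s N y kd A Zq η (X η) ∂(law μ) + Real.exp (-(L : ℝ) ^ c') := by
  intro ε θ B hε hθ hB
  obtain ⟨β, hβd⟩ : ∃ β : ℝ, β = ε / 5 := ⟨_, rfl⟩
  have hβ : 0 < β := by rw [hβd]; positivity
  obtain ⟨ε₃, ε₅, cX, hε₃, hε₅, hcX, LX, hNX⟩ := numG13 h hβ hθ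
  have hε₃' : 0 < min ε₃ (β / 2) := lt_min hε₃ (by positivity)
  obtain ⟨ε₁, ε₄, hε₁, hε₄, h13, h43, LW, hW⟩ := numWX h β 1 θ (min ε₃ (β / 2)) hβ one_pos hθ hε₃'
  obtain ⟨δ5, c5, hδ5, hc5, L5, hNs5⟩ := ns h ε₅ hε₅
  obtain ⟨δn, cn, hδn, hcn, Ln, hNs⟩ := ns h ε₁ hε₁
  obtain ⟨aw, Kw, haw0, haw1, hKw, hwp⟩ := wd'_pow h
  obtain ⟨cm, hcm⟩ : ∃ cm : ℝ, cm = min (min cX c5) (min cn β) := ⟨_, rfl⟩
  have hcm0 : 0 < cm := by rw [hcm]; exact lt_min (lt_min hcX hc5) (lt_min hcn hβ)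
  obtain ⟨κ, hκ⟩ : ∃ κ : ℝ, κ = cm / 2 := ⟨_, rfl⟩
  have hκ0 : 0 < κ := by rw [hκ]; positivity
  have hκβ : κ ≤ β := by
    have : cm ≤ β := by rw [hcm]; exact (min_le_right _ _).trans (min_le_right _ _)
    rw [hκ]
    linarith
  obtain ⟨cp, hcp, -, Lp, hPE⟩ := Pool.Agent.W_7d29a1_Z.NumI77.pow_exp hκ0 (9 + β + B)
  obtain ⟨cq, hcq, -, Lq, hQE⟩ := Pool.Agent.W_7d29a1_Z.NumI77.pow_exp hβ (4 + β)
  obtain ⟨La, hLa⟩ := Pool.Agent.W_7d29a1_HZ.Z86.ev_const 16 hθ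
  obtain ⟨Lb, hLb⟩ := Pool.Agent.W_7d29a1_HZ.Z86.ev_const (2340 * ((k : ℝ) + 1)) hβ
  obtain ⟨Lc, hLc⟩ := Pool.Agent.W_7d29a1_HZ.Z86.ev_const (8 * Kw) (show 0 < ε₁ / 2 by positivity)
  obtain ⟨Ld, hLd⟩ := Pool.Agent.W_7d29a1_HZ.Z86.ev_const 2 hκ0
  obtain ⟨δ, hδd⟩ : ∃ δ : ℝ, δ = min δ5 (min δn (ε₁ / 2)) := ⟨_, rfl⟩
  have hδ : 0 < δ := by rw [hδd]; exact lt_min hδ5 (lt_min hδn (by positivity))
  have hδ1 : δ ≤ δ5 := by rw [hδd]; exact min_le_left _ _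
  have hδ2 : δ ≤ δn := by rw [hδd]; exact (min_le_right _ _).trans (min_le_left _ _)
  have hδ3 : δ ≤ ε₁ / 2 := by rw [hδd]; exact (min_le_right _ _).trans (min_le_right _ _)
  refine ⟨δ, κ, cp, hδ, hκ0, hcp, LX + LW + L5 + Ln + Lp + Lq + La + Lb + Lc + Ld + k + 1000000000, ?_⟩
  intro L hL N t hLN hNL htL htN y hy hyc ι _ kd A Zq hD hcard rt τ c d l hcd hdN X hm h0 h1 hoff
  have hL1 : 1 ≤ L := by omega
  have hLR : (1 : ℝ) ≤ L := by exact_mod_cast hL1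
  have hL0 : (0 : ℝ) < L := by linarith
  have ht16 := hLa L (by omega)
  have ht : 16 ≤ t := by exact_mod_cast ht16.trans htL
  have hwd : ∀ n, 0 < wd' μ s n := fun n => lt_of_lt_of_le zero_lt_one (le_max_left _ _)
  have hy0 : (0 : ℤ) ≤ (y : ℤ) := by positivity
  have hyN : (y : ℤ) ≤ (N : ℤ) := by exact_mod_cast hy
  have hyc' : |(((y : ℤ)) : ℝ) - sl μ s * N| ≤ ((L : ℝ) ^ δ * wd' μ s N) := by
    rw [Int.cast_natCast]
    exact hyc
  have hcone : ∀ δ', δ ≤ δ' → |(((y : ℤ)) : ℝ) - sl μ s * N| ≤ ((L : ℝ) ^ δ' * wd' μ s N) := fun δ' hδ' =>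
    hyc'.trans (mul_le_mul_of_nonneg_right (Real.rpow_le_rpow_of_exponent_le hLR hδ') (hwd N).le)
  obtain ⟨n1, e0, E, X', w, hnm, w1, w2, w3, -, -, -, -, -, w9, w10, w11, w12⟩ := hW L (by omega) N t hLN hNL htL htN
  obtain ⟨pr, hp1, hp2⟩ := hNX L (by omega) N t hNL htL htN (y : ℤ) hy0 hyN
  obtain ⟨hpr, hT⟩ := hp2 ε₁ ε₄ n1 e0 E (h13.trans (min_le_left _ _)) (h43.trans (min_le_left _ _)) hnm
  have hns5 := hNs5 L (by omega) N hLN hNL (y : ℤ) hy0 hyN (hcone _ hδ1)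
  have hns := hNs L (by omega) N hLN hNL (y : ℤ) hy0 hyN (hcone _ hδ2)
  have hTVp := P1_tvp (L := L) (ε := ε₅) (pr := pr) (Real.exp_pos _).le (Real.exp_pos _).le hns5 hp1
  obtain ⟨p, hp⟩ : ∃ p : ℝ, p = Real.exp (-(L : ℝ) ^ cm) := ⟨_, rfl⟩
  obtain ⟨p', hp'⟩ : ∃ p' : ℝ, p' = Real.exp (-(L : ℝ) ^ κ) := ⟨_, rfl⟩
  have hp0 : 0 < p := by rw [hp]; exact Real.exp_pos _
  have hp'0 : 0 < p' := by rw [hp']; exact Real.exp_pos _
  have ecX : Real.exp (-(L : ℝ) ^ cX) ≤ p := by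
    rw [hp, hcm]
    exact Pool.Agent.W_7d29a1_Z.NumI77.exp_mono ((min_le_left _ _).trans (min_le_left _ _)) hL1
  have ec5 : Real.exp (-(L : ℝ) ^ c5) ≤ p := by
    rw [hp, hcm]
    exact Pool.Agent.W_7d29a1_Z.NumI77.exp_mono ((min_le_left _ _).trans (min_le_right _ _)) hL1
  have ecn : Real.exp (-(L : ℝ) ^ cn) ≤ p := by
    rw [hp, hcm]
    exact Pool.Agent.W_7d29a1_Z.NumI77.exp_mono ((min_le_right _ _).trans (min_le_left _ _)) hL1
  have hpp' : p ≤ p' := by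
    rw [hp, hp']
    exact Pool.Agent.W_7d29a1_Z.NumI77.exp_mono (by rw [hκ]; linarith) hL1
  -- exp (M0) p is at most p'
  have hMp : Real.exp ((L : ℝ) ^ κ) * p ≤ p' := by
    rw [hp, hp', ← Real.exp_add]
    refine Real.exp_le_exp.2 ?_
    have g1 : (L : ℝ) ^ cm = (L : ℝ) ^ κ * (L : ℝ) ^ κ := by
      rw [← Real.rpow_add hL0, hκ]
      congr 1
      ring
    have g2 := hLd L (by omega)
    have g3 : 2 * (L : ℝ) ^ κ ≤ (L : ℝ) ^ κ * (L : ℝ) ^ κ := mul_le_mul_of_nonneg_right g2 (Real.rpow_nonneg hL0.le _)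
    rw [g1]
    linarith
  obtain ⟨x, hx⟩ : ∃ x : ℝ, x = (L : ℝ) ^ β := ⟨_, rfl⟩
  have hxk : 2340 * ((k : ℝ) + 1) ≤ x := by rw [hx]; exact hLb L (by omega)
  have hk0 : (0 : ℝ) ≤ k := Nat.cast_nonneg k
  have hx1 : 1 ≤ x := by linarith
  have hx0 : 0 < x := by linarith
  have hM0x : (L : ℝ) ^ κ ≤ x := by
    rw [hx]
    exact Real.rpow_le_rpow_of_exponent_le hLR hκβ
  -- the width
  have he : (2 : ℝ) ^ (e0 + 4) ≤ (L : ℝ) ^ (-δ) * wd' μ s t := by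
    have g1 := hnm.e0_le
    have g2 := (hwp (t / 4) t (by omega) (by omega)).1
    have g3 : (2 : ℝ) ^ (e0 + 4) = 8 * 2 ^ (e0 + 1) := by ring
    have g4 : (L : ℝ) ^ (-ε₁) * (8 * Kw) ≤ (L : ℝ) ^ (-δ) := by
      have g5 := hLc L (by omega)
      have g6 : (L : ℝ) ^ (-ε₁) * (L : ℝ) ^ (ε₁ / 2) = (L : ℝ) ^ (-(ε₁ / 2)) := by
        rw [← Real.rpow_add hL0]
        congr 1
        ring
      calc (L : ℝ) ^ (-ε₁) * (8 * Kw) ≤ (L : ℝ) ^ (-ε₁) * (L : ℝ) ^ (ε₁ / 2) :=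
            mul_le_mul_of_nonneg_left g5 (Real.rpow_nonneg hL0.le _)
        _ = (L : ℝ) ^ (-(ε₁ / 2)) := g6
        _ ≤ (L : ℝ) ^ (-δ) := Real.rpow_le_rpow_of_exponent_le hLR (by linarith)
    have g7 : (0 : ℝ) ≤ (L : ℝ) ^ (-ε₁) := Real.rpow_nonneg hL0.le _
    rw [g3]
    calc 8 * (2 : ℝ) ^ (e0 + 1) ≤ 8 * ((L : ℝ) ^ (-ε₁) * wd' μ s (t / 4)) := by linarith
      _ ≤ 8 * ((L : ℝ) ^ (-ε₁) * (Kw * wd' μ s t)) := by gcongr
      _ = ((L : ℝ) ^ (-ε₁) * (8 * Kw)) * wd' μ s t := by ring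
      _ ≤ (L : ℝ) ^ (-δ) * wd' μ s t := mul_le_mul_of_nonneg_right g4 (hwd t).le
  -- the distance is bounded
  have hE : ∀ S S' : Finset ℕ, S ⊆ range N → S' ⊆ range N → NSp μ s L N ε₁ S → NSp μ s L N ε₁ S' → ∀ i ≤ N,
      |pos S i - pos S' i| < (2 : ℤ) ^ (E + 2) := by
    intro S S' _ _ hS hS' i hi
    rcases Nat.eq_zero_or_pos i with hi0 | hi0
    · rw [hi0, pos_zero, pos_zero, sub_zero, abs_zero]
      positivity
    · have g1 := hS 0 i hi0 (by omega)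
      have g2 := hS' 0 i hi0 (by omega)
      rw [Nat.zero_add, pos_zero, sub_zero] at g1 g2
      have g3 := hnm.E_gt i hi0 hi
      have g4 : 0 ≤ (L : ℝ) ^ (-ε₁) * wd' μ s (t / 4) := mul_nonneg (Real.rpow_nonneg hL0.le _) (hwd _).le
      have g5 : |((pos S i - pos S' i : ℤ) : ℝ)| < (2 : ℝ) ^ (E + 2) := by
        have e1 : ((pos S i - pos S' i : ℤ) : ℝ) = (((pos S i : ℤ) : ℝ) - sl μ s * i) - (((pos S' i : ℤ) : ℝ) - sl μ s * i) := by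
          push_cast
          ring
        rw [e1]
        have := abs_sub (((pos S i : ℤ) : ℝ) - sl μ s * i) (((pos S' i : ℤ) : ℝ) - sl μ s * i)
        linarith
      have g6 : ((|pos S i - pos S' i| : ℤ) : ℝ) < (((2 : ℤ) ^ (E + 2) : ℤ) : ℝ) := by
        rw [Int.cast_abs]
        push_cast at g5 ⊢
        exact g5
      exact_mod_cast g6
  -- the number of the windows
  have hz1 : 1 ≤ (L : ℝ) ^ ε₄ := Real.one_le_rpow hLR hε₄.le
  have hWc : ((WB rt N t τ n1 e0 E pr.a c d).card : ℝ) ≤ 3 * x := by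
    have g0 : ((WB rt N t τ n1 e0 E pr.a c d).card : ℝ) ≤ ((WL rt N t τ n1 e0 E pr.a).card : ℝ) := by
      exact_mod_cast card_le_card (filter_subset _ _)
    have g1 := WL_card (N := N) (rt := rt) (τ := τ) (a := pr.a) hz1 hnm.cnt2 hnm.n1_ge (fun g g1 g2 => by
      have g3 := hpr.an1 g g1 g2
      have g4 := Nat.one_le_two_pow (n := pr.a)
      omega)
    refine g0.trans (g1.trans ?_)
    have g2 : ((L : ℝ) ^ ε₄) ^ 2 ≤ x := by
      rw [hx, ← Real.rpow_natCast, ← Real.rpow_mul hL0.le]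
      refine Real.rpow_le_rpow_of_exponent_le hLR ?_
      have : ε₄ ≤ β / 2 := h43.trans (min_le_right _ _)
      push_cast
      linarith
    linarith
  have hL9 : (1000000000 : ℝ) + k ≤ L := by exact_mod_cast (show 1000000000 + k ≤ L by omega)
  -- the number of the indices
  have hIc : (((WB rt N t τ n1 e0 E pr.a c d ×ˢ QL L) ×ˢ (univ : Finset (Fin (k + 1)))).card : ℝ) ≤ (3 * x) * ((26 * L) * (k + 1)) := by
    rw [card_product, card_product, card_univ, Fintype.card_fin]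
    push_cast
    have g1 : ((QL L).card : ℝ) ≤ 26 * L := by
      have g2 : ((QL L).card : ℝ) ≤ ((2 * (12 * L + 1) : ℕ) : ℝ) := by exact_mod_cast card_QL L
      push_cast at g2
      linarith
    have g3 : (0 : ℝ) ≤ (QL L).card := Nat.cast_nonneg _
    calc ((WB rt N t τ n1 e0 E pr.a c d).card : ℝ) * ((QL L).card : ℝ) * ((k : ℝ) + 1) ≤ (3 * x) * (26 * L) * (k + 1) := by gcongr
      _ = _ := by ring
  have hIc0 : (0 : ℝ) ≤ (((WB rt N t τ n1 e0 E pr.a c d ×ˢ QL L) ×ˢ (univ : Finset (Fin (k + 1)))).card : ℝ) := Nat.cast_nonneg _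
  have hMM : (((WB rt N t τ n1 e0 E pr.a c d ×ˢ QL L) ×ˢ (univ : Finset (Fin (k + 1)))).card : ℝ) * Real.exp (-(3 * x)) ≤
      Real.exp (-(L : ℝ) ^ κ) / 2 := by
    have g1 := hQE L (by omega)
    have g2 : Real.exp (-(L : ℝ) ^ cq) ≤ 1 := by
      rw [Real.exp_le_one_iff]
      have := Real.rpow_nonneg hL0.le cq
      linarith
    rw [← hx] at g1
    have g3 : (3 * x) * ((26 * L) * (k + 1)) * 2 ≤ (L : ℝ) ^ (4 + β) := by
      rw [Real.rpow_add hL0, ← hx]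
      have e4 : (L : ℝ) ^ (4 : ℝ) = (L : ℝ) ^ 4 := by
        rw [← Real.rpow_natCast]
        norm_num
      rw [e4]
      have b2 : 156 * ((k : ℝ) + 1) ≤ (L : ℝ) ^ 2 := by
        rw [pow_two]
        exact mul_le_mul (by linarith only [hL9, hk0]) (by linarith only [hL9]) (by linarith only [hk0]) hL0.le
      calc (3 * x) * ((26 * L) * (k + 1)) * 2 = (156 * ((k : ℝ) + 1)) * (L * x) := by ring
        _ ≤ (L : ℝ) ^ 2 * (L * x) := mul_le_mul_of_nonneg_right b2 (by positivity)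
        _ = (L : ℝ) ^ 3 * x := by ring
        _ ≤ (L : ℝ) ^ 4 * x := mul_le_mul_of_nonneg_right (pow_le_pow_right₀ hLR (by norm_num)) hx0.le
    have g4 : Real.exp (-(3 * x)) ≤ Real.exp (-x) * Real.exp (-(L : ℝ) ^ κ) := by
      rw [← Real.exp_add]
      refine Real.exp_le_exp.2 ?_
      linarith
    have g5 : (((WB rt N t τ n1 e0 E pr.a c d ×ˢ QL L) ×ˢ (univ : Finset (Fin (k + 1)))).card : ℝ) * 2 * Real.exp (-x) ≤ 1 := by
      have g6 : (((WB rt N t τ n1 e0 E pr.a c d ×ˢ QL L) ×ˢ (univ : Finset (Fin (k + 1)))).card : ℝ) * 2 ≤ (L : ℝ) ^ (4 + β) := by linarith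
      calc _ ≤ (L : ℝ) ^ (4 + β) * Real.exp (-x) := mul_le_mul_of_nonneg_right g6 (Real.exp_pos _).le
        _ ≤ Real.exp (-(L : ℝ) ^ cq) := g1
        _ ≤ 1 := g2
    have g7 := Real.exp_pos (-(L : ℝ) ^ κ)
    have g8 := mul_le_mul_of_nonneg_left g4 hIc0
    have g9 := mul_le_mul_of_nonneg_right g5 g7.le
    rw [le_div_iff₀ (by norm_num : (0 : ℝ) < 2)]
    calc (((WB rt N t τ n1 e0 E pr.a c d ×ˢ QL L) ×ˢ (univ : Finset (Fin (k + 1)))).card : ℝ) * Real.exp (-(3 * x)) * 2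
        ≤ (((WB rt N t τ n1 e0 E pr.a c d ×ˢ QL L) ×ˢ (univ : Finset (Fin (k + 1)))).card : ℝ) * (Real.exp (-x) * Real.exp (-(L : ℝ) ^ κ)) * 2 := by
          linarith
      _ = (((WB rt N t τ n1 e0 E pr.a c d ×ˢ QL L) ×ˢ (univ : Finset (Fin (k + 1)))).card : ℝ) * 2 * Real.exp (-x) * Real.exp (-(L : ℝ) ^ κ) := by ring
      _ ≤ 1 * Real.exp (-(L : ℝ) ^ κ) := g9
      _ = _ := one_mul _
  -- the main inequality
  have hEt : 0 < EE' μ s t := lt_of_lt_of_le zero_lt_one (le_max_left _ _)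
  have key := far_sumG (μ := μ) (s := s) hD hy rt (τ := τ) (z := (L : ℝ) ^ β / EE' μ s t) (M0 := (L : ℝ) ^ κ) (M := 3 * x) hpr
    (fun S h1 h2 => (w11 S h1 h2).2) hE he w1
    h.md_nonneg h.md_le_nat hNL (by positivity) (Real.exp_pos _).le (by linarith) hT (Real.exp_pos _).le
    (add_nonneg (Real.exp_pos _).le (Real.exp_pos _).le) hns hTVp hcd hdN l hMM hm h0 h1 hoff
  refine key.trans ?_
  have hI0 : 0 ≤ ∫ η, evD μ s N y kd A Zq η (X η) ∂(law μ) := integral_nonneg fun η => hD.ev_nonneg hy η (h0 η)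
  refine add_le_add (mul_le_mul_of_nonneg_right ?_ hI0) ?_
  · rw [← hx]
    have e6 : (L : ℝ) ^ ε = x ^ 5 := by
      rw [hx, ← Real.rpow_natCast, ← Real.rpow_mul hL0.le, hβd]
      congr 1
      push_cast
      ring
    rw [e6]
    have g1 : x / EE' μ s t * (3 * x) * (260 * ((k : ℝ) + 1) * (WB rt N t τ n1 e0 E pr.a c d).card) ≤
        x / EE' μ s t * (3 * x) * (260 * ((k : ℝ) + 1) * (3 * x)) := by gcongr
    refine g1.trans ?_
    have g2 : x / EE' μ s t * (3 * x) * (260 * ((k : ℝ) + 1) * (3 * x)) = (2340 * ((k : ℝ) + 1)) * x ^ 3 * (EE' μ s t)⁻¹ := by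
      field_simp
      ring
    rw [g2]
    refine mul_le_mul_of_nonneg_right ?_ (by positivity)
    calc (2340 * ((k : ℝ) + 1)) * x ^ 3 ≤ x * x ^ 3 := mul_le_mul_of_nonneg_right hxk (by positivity)
      _ = x ^ 4 := by ring
      _ ≤ x ^ 5 := pow_le_pow_right₀ hx1 (by norm_num)
  · have k4 := hPE L (by omega)
    rw [← hp', Real.rpow_add hL0, Real.rpow_add hL0, ← hx] at k4
    have e9 : (L : ℝ) ^ (9 : ℝ) = (L : ℝ) ^ 9 := by
      rw [← Real.rpow_natCast]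
      norm_num
    rw [e9] at k4
    refine le_trans ?_ k4
    obtain ⟨b, hb⟩ : ∃ b : ℝ, b = (L : ℝ) ^ B := ⟨_, rfl⟩
    rw [← hb] at hcard ⊢
    have hb1 : 1 ≤ b := by rw [hb]; exact Real.one_le_rpow hLR hB
    have hb0 : 0 < b := by linarith
    have k5 : ((k : ℝ) + 1) * Real.exp (-(L : ℝ) ^ cn) +
        2 * Real.exp ((L : ℝ) ^ κ) * (Real.exp (-(L : ℝ) ^ cn) + (Real.exp (-(L : ℝ) ^ c5) + Real.exp (-(L : ℝ) ^ cX))) ≤ ((k : ℝ) + 7) * p' := by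
      have a1 := mul_le_mul_of_nonneg_left (ecn.trans hpp') (show (0 : ℝ) ≤ (k : ℝ) + 1 by linarith)
      have a2 : Real.exp (-(L : ℝ) ^ cn) + (Real.exp (-(L : ℝ) ^ c5) + Real.exp (-(L : ℝ) ^ cX)) ≤ 3 * p := by linarith
      have a3 := mul_le_mul_of_nonneg_left a2 (show 0 ≤ 2 * Real.exp ((L : ℝ) ^ κ) by positivity)
      have a4 : 2 * Real.exp ((L : ℝ) ^ κ) * (3 * p) = 6 * (Real.exp ((L : ℝ) ^ κ) * p) := by ring
      rw [a4] at a3
      have a5 := mul_le_mul_of_nonneg_left hMp (show (0 : ℝ) ≤ 6 by norm_num)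
      linarith
    have k6 : (((WB rt N t τ n1 e0 E pr.a c d ×ˢ QL L) ×ˢ (univ : Finset (Fin (k + 1)))).card : ℝ) *
        ((Fintype.card ι : ℝ) * Real.exp (-(L : ℝ) ^ cX)) ≤ ((3 * x) * ((26 * L) * (k + 1))) * (b * p') := by
      have a1 : (0 : ℝ) ≤ Fintype.card ι := Nat.cast_nonneg _
      have a2 := ecX.trans hpp'
      gcongr
    have k7 : ((k : ℝ) + 7) * p' + ((3 * x) * ((26 * L) * (k + 1))) * (b * p') ≤ (L : ℝ) ^ 9 * x * b * p' := by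
      have hxb : 1 ≤ x * b := one_le_mul_of_one_le_of_one_le hx1 hb1
      have b1 : (k : ℝ) + 7 ≤ L * (x * b) := by
        calc (k : ℝ) + 7 ≤ L := by linarith
          _ ≤ L * (x * b) := le_mul_of_one_le_right hL0.le hxb
      have b2 : 78 * ((k : ℝ) + 1) ≤ (L : ℝ) ^ 2 := by
        rw [pow_two]
        exact mul_le_mul (by linarith only [hL9, hk0]) (by linarith only [hL9]) (by linarith only [hk0]) hL0.le
      have b3 : ((3 * x) * ((26 * L) * (k + 1))) * (b * p') = (78 * ((k : ℝ) + 1)) * (L * (x * b) * p') := by ring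
      have b4 : (L : ℝ) + (L : ℝ) ^ 3 ≤ (L : ℝ) ^ 9 := by
        have c1 : (L : ℝ) ≤ (L : ℝ) ^ 3 := le_self_pow₀ hLR (by norm_num)
        have c2 : (2 : ℝ) ≤ (L : ℝ) ^ 6 := by
          have : (L : ℝ) ≤ (L : ℝ) ^ 6 := le_self_pow₀ hLR (by norm_num)
          linarith
        calc (L : ℝ) + (L : ℝ) ^ 3 ≤ 2 * (L : ℝ) ^ 3 := by linarith
          _ ≤ (L : ℝ) ^ 6 * (L : ℝ) ^ 3 := mul_le_mul_of_nonneg_right c2 (by positivity)
          _ = (L : ℝ) ^ 9 := by ring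
      rw [b3]
      calc ((k : ℝ) + 7) * p' + (78 * ((k : ℝ) + 1)) * (L * (x * b) * p') ≤ (L * (x * b)) * p' + (L : ℝ) ^ 2 * (L * (x * b) * p') := by gcongr
        _ = ((L : ℝ) + (L : ℝ) ^ 3) * (x * b * p') := by ring
        _ ≤ (L : ℝ) ^ 9 * (x * b * p') := mul_le_mul_of_nonneg_right b4 (by positivity)
        _ = (L : ℝ) ^ 9 * x * b * p' := by ring
    linarith

end

end Pool.Agent.W_7d29a1_C0.F13
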