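import Pool.Agent.W_7d29a1_C0.NumG13
import Pool.Agent.W_7d29a1_C0.FarA13
import Pool.Agent.W_7d29a1_C0.VT31

/-!
C0, helper13: FAR13 FOR PLANS OF REPLICAS, first part. The fibre of a block and its kernels; the mass of a class given the path outside of
a block is a near tie; densities `OwnD` of the own replicas (free or conditional); the price of one line.
-/

set_option autoImplicit false

namespace Pool.Agent.W_7d29a1_C0.F13

open MeasureTheory ProbabilityTheory Filter Topology Finset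
open Pool.Agent.W_7d29a1_F Pool.Agent.W_7d29a1_X Pool.Agent.W_7d29a1_H Pool.Agent.W_7d29a1_HZ
open Pool.Agent.W_7d29a1_HS (In wd md)
open Pool.Agent.W_7d29a1_HZ.ZE
open Pool.Agent.W_7d29a1_HZ.Z15 (kC ZC)
open Pool.Agent.W_7d29a1_HZ.Z36 (kk kk_nonneg)
open Pool.Agent.W_7d29a1_HZ.Z86.GX (WT)
open Pool.Agent.W_7d29a1_Z36 (LocC)
open Pool.Agent.W_7d29a1_ZE (Win Br J_sub_JJ)
open Pool.Agent.W_7d29a1_C0.Mod92 (Px Pn lw pos_card ne_Pn pJ ps_of_le ps_of_ge)
open Pool.W7d29a1.C0 (gz gm gz_pos gz_ne)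
open Pool.W7d29a1.C0
open scoped ENNReal

noncomputable section

variable {μ : Measure ℝ} {s : ℝ} {N y : ℕ}

/-! ### The fibre of a block -/

/-- The weight of the path outside of the block. -/
def ko13 (μ : Measure ℝ) (s : ℝ) (η : Env) (N c d : ℕ) (S : Finset ℕ) : ℝ :=
  W_7d29a1_Z.pw μ s 0 η 0 0 c S * W_7d29a1_Z.pw μ s 0 η d (pos S d) N S

theorem ko13_pos (η : Env) (N c d : ℕ) (S : Finset ℕ) : 0 < ko13 μ s η N c d S :=
  mul_pos (W_7d29a1_Z.pw_pos _ _ _ _ _ _) (W_7d29a1_Z.pw_pos _ _ _ _ _ _)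

theorem ko13_meas (N c d : ℕ) (S : Finset ℕ) : Measurable fun η : Env => ko13 μ s η N c d S :=
  (W_7d29a1_Z.pw_meas _ _ _ _ _).mul (W_7d29a1_Z.pw_meas _ _ _ _ _)

theorem pth_cut (η : Env) {c d : ℕ} (hcd : c ≤ d) (hd : d ≤ N) (S : Finset ℕ) :
    pth μ s η N S = ko13 μ s η N c d S * W_7d29a1_Z.pw μ s 0 η c (pos S c) d S := by
  unfold ko13
  rw [← W_7d29a1_Z.pw_pth, W_7d29a1_Z.pw_cut 0 η 0 S (Nat.zero_le c) (hcd.trans hd), W_7d29a1_Z.pw_cut 0 η _ S hcd hd,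
    W_7d29a1_Z.ps_chain 0 0 S (Nat.zero_le c) hcd, W_7d29a1_Z.ps_pos, W_7d29a1_Z.ps_pos]
  ring

theorem card_blk13 (S : Finset ℕ) {c d : ℕ} (hcd : c ≤ d) : ((S ∩ Ico c d).card : ℤ) = pos S d - pos S c := by
  have h := W_7d29a1_Z.ps_chain 0 0 S (Nat.zero_le c) hcd
  rw [W_7d29a1_Z.ps_pos, W_7d29a1_Z.ps_pos] at h
  unfold W_7d29a1_Z.ps at h
  simp only [Pi.zero_apply, sub_zero, add_zero] at h
  linarith

/-- Two paths which agree outside of the block have the same outside weight. -/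
theorem ko13_congr {c d : ℕ} {v S : Px (Pn N y)} (h : pJ c d v = pJ c d S) (η : Env) : ko13 μ s η N c d v.1 = ko13 μ s η N c d S.1 := by
  unfold ko13
  have h1 : v.1 \ Ico c d = S.1 \ Ico c d := (Prod.mk.inj h).1
  have h2 : pos v.1 d = pos S.1 d := ps_of_ge h le_rfl
  have h3 : v.1 ∩ Ico 0 c = S.1 ∩ Ico 0 c := by
    have e : ∀ T : Finset ℕ, T ∩ Ico 0 c = (T \ Ico c d) ∩ Ico 0 c := fun T => by
      ext i
      simp only [mem_inter, Finset.mem_sdiff, mem_Ico]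
      constructor
      · rintro ⟨h1, h2⟩
        exact ⟨⟨h1, by omega⟩, h2⟩
      · rintro ⟨⟨h1, -⟩, h2⟩
        exact ⟨h1, h2⟩
    rw [e, e S.1, h1]
  have h4 : v.1 ∩ Ico d N = S.1 ∩ Ico d N := by
    have e : ∀ T : Finset ℕ, T ∩ Ico d N = (T \ Ico c d) ∩ Ico d N := fun T => by
      ext i
      simp only [mem_inter, Finset.mem_sdiff, mem_Ico]
      constructor
      · rintro ⟨h1, h2⟩
        exact ⟨⟨h1, by omega⟩, h2⟩
      · rintro ⟨⟨h1, -⟩, h2⟩
        exact ⟨h1, h2⟩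
    rw [e, e S.1, h1]
  rw [h2, W_7d29a1_Z.pw_congr 0 η 0 0 c h3, W_7d29a1_Z.pw_congr 0 η d _ N h4]

open scoped Classical in
/-- The sum over the fibre of a block. -/
theorem fib_sum13 (η : Env) {c d : ℕ} (hcd : c ≤ d) (hd : d ≤ N) (S : Px (Pn N y)) (F : Finset ℕ → ℝ) :
    (∑ v : Px (Pn N y), if pJ c d v = pJ c d S then pth μ s η N v.1 * F v.1 else 0) =
      ko13 μ s η N c d S.1 * ∑ g ∈ W_7d29a1_Z.pcs 0 c (pos S.1 c) d (pos S.1 d),
        W_7d29a1_Z.pw μ s 0 η c (pos S.1 c) d g * F ((S.1 \ Ico c d) ∪ g) := by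
  rw [← sum_filter, mul_sum]
  have hSN := (mem_Pn.1 S.2)
  have hpc : ∀ g : Finset ℕ, g ∈ W_7d29a1_Z.pcs 0 c (pos S.1 c) d (pos S.1 d) ↔ g ⊆ Ico c d ∧ (g.card : ℤ) = ((S.1 ∩ Ico c d).card : ℤ) := by
    intro g
    rw [W_7d29a1_Z.mem_pcs]
    refine and_congr_right fun hg => ?_
    unfold W_7d29a1_Z.ps
    rw [inter_eq_left.2 hg, card_blk13 S.1 hcd]
    simp only [Pi.zero_apply, sub_zero, add_zero]
    constructor
    · intro h
      linarith
    · intro h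
      linarith
  have hin : ∀ g : Finset ℕ, g ⊆ Ico c d → ((S.1 \ Ico c d) ∪ g) ∩ Ico c d = g := fun g hg => by
    rw [union_inter_distrib_right, sdiff_inter_self, empty_union, inter_eq_left.2 hg]
  have hout : ∀ g : Finset ℕ, g ⊆ Ico c d → ((S.1 \ Ico c d) ∪ g) \ Ico c d = S.1 \ Ico c d := fun g hg => by
    rw [union_sdiff_distrib, sdiff_eq_empty_iff_subset.2 hg, union_empty, sdiff_sdiff_left, sup_idem]
  have hmem : ∀ g ∈ W_7d29a1_Z.pcs 0 c (pos S.1 c) d (pos S.1 d), ((S.1 \ Ico c d) ∪ g) ∈ Pn N y := by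
    intro g hg
    obtain ⟨h1, h2⟩ := (hpc g).1 hg
    have h3 : ((S.1 \ Ico c d) ∪ g).card = S.1.card := by
      rw [card_union_of_disjoint]
      · have h4 := card_sdiff_add_card_inter S.1 (Ico c d)
        have h5 : g.card = (S.1 ∩ Ico c d).card := by exact_mod_cast h2
        omega
      · rw [disjoint_left]
        intro i hi hi'
        exact (Finset.mem_sdiff.1 hi).2 (h1 hi')
    have h4 := mem_powersetCard.1 S.2
    refine mem_powersetCard.2 ⟨union_subset (sdiff_subset.trans h4.1) fun i hi => ?_, h3.trans h4.2⟩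
    have := h1 hi
    rw [mem_Ico] at this
    rw [mem_range]
    omega
  refine sum_bij' (fun v _ => v.1 ∩ Ico c d) (fun g hg => if h : ((S.1 \ Ico c d) ∪ g) ∈ Pn N y then ⟨(S.1 \ Ico c d) ∪ g, h⟩ else S)
    ?_ ?_ ?_ ?_ ?_
  · intro v hv
    have h := (mem_filter.1 hv).2
    have h2 : (v.1 ∩ Ico c d).card = (S.1 ∩ Ico c d).card := (Prod.mk.inj h).2
    rw [hpc]
    exact ⟨inter_subset_right, by rw [h2]⟩
  · intro g hg
    rw [dif_pos (hmem g hg), mem_filter]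
    obtain ⟨h1, h2⟩ := (hpc g).1 hg
    refine ⟨mem_univ _, ?_⟩
    unfold pJ
    refine Prod.ext (hout g h1) ?_
    show (((S.1 \ Ico c d) ∪ g) ∩ Ico c d).card = _
    rw [hin g h1]
    exact_mod_cast h2
  · intro v hv
    have h := (mem_filter.1 hv).2
    have h1 : v.1 \ Ico c d = S.1 \ Ico c d := (Prod.mk.inj h).1
    have h3 : (S.1 \ Ico c d) ∪ (v.1 ∩ Ico c d) = v.1 := by
      rw [← h1]
      exact sdiff_union_inter _ _
    have h4 : ((S.1 \ Ico c d) ∪ (v.1 ∩ Ico c d)) ∈ Pn N y := by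
      rw [h3]
      exact v.2
    rw [dif_pos h4]
    exact Subtype.ext h3
  · intro g hg
    rw [dif_pos (hmem g hg)]
    exact hin g ((hpc g).1 hg).1
  · intro v hv
    have h := (mem_filter.1 hv).2
    have h1 : v.1 \ Ico c d = S.1 \ Ico c d := (Prod.mk.inj h).1
    have h3 : (S.1 \ Ico c d) ∪ (v.1 ∩ Ico c d) = v.1 := by
      rw [← h1]
      exact sdiff_union_inter _ _
    have h5 : pos v.1 c = pos S.1 c := ps_of_le h le_rfl
    rw [pth_cut η hcd hd v.1, ko13_congr h η, h5, h3, W_7d29a1_Z.pw_congr 0 η c (pos S.1 c) d (S := v.1 ∩ Ico c d) (S' := v.1) (by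
      rw [inter_assoc, inter_self])]
    ring

theorem fz13 (η : Env) {c d : ℕ} (hcd : c ≤ d) (hd : d ≤ N) (S : Px (Pn N y)) :
    VT31.fz (lw μ s η N (Pn N y)) (pJ c d) S = ko13 μ s η N c d S.1 * W_7d29a1_Z.Kf μ s 0 η c (pos S.1 c) d (pos S.1 d) := by
  classical
  have h := fib_sum13 (μ := μ) (s := s) η hcd hd S fun _ => 1
  simp only [mul_one] at h
  unfold VT31.fz W_7d29a1_Z.Kf
  rw [← h]
  refine sum_congr rfl fun v _ => ?_
  split_ifs
  · exact exp_lw η N v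
  · rfl

theorem Kf_pos13 (η : Env) {c d : ℕ} (hcd : c ≤ d) (hd : d ≤ N) (S : Px (Pn N y)) :
    0 < W_7d29a1_Z.Kf μ s 0 η c (pos S.1 c) d (pos S.1 d) := by
  haveI : Nonempty (Px (Pn N y)) := ⟨S⟩
  have h := VT31.fz_pos (lw μ s η N (Pn N y)) (pJ c d) S
  rw [fz13 η hcd hd S] at h
  exact (mul_pos_iff_of_pos_left (ko13_pos η N c d S.1)).1 h

open scoped Classical in
/-- The mass of a class given the path outside of the block. -/
theorem cE_kk (η : Env) {c d : ℕ} (hcd : c ≤ d) (hd : d ≤ N) (S : Px (Pn N y)) {C : (ℕ → ℤ) → Prop}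
    (hC : ∀ p p' : ℕ → ℤ, (∀ i, c ≤ i → i ≤ d → p i = p' i) → (C p ↔ C p')) :
    VT31.cE (lw μ s η N (Pn N y)) (pJ c d) (fun v => if C (pos v.1) then 1 else 0) S =
      kk μ s C η c d (pos S.1) / W_7d29a1_Z.Kf μ s 0 η c (pos S.1 c) d (pos S.1 d) := by
  unfold VT31.cE
  rw [fz13 η hcd hd S]
  have h := fib_sum13 (μ := μ) (s := s) η hcd hd S fun v => if C (pos v) then 1 else 0
  have e1 : (∑ v : Px (Pn N y), if pJ c d v = pJ c d S then Real.exp (lw μ s η N (Pn N y) v) * (if C (pos v.1) then 1 else 0) else 0) =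
      ∑ v : Px (Pn N y), if pJ c d v = pJ c d S then pth μ s η N v.1 * (if C (pos v.1) then 1 else 0) else 0 :=
    sum_congr rfl fun v _ => by rw [exp_lw]
  rw [e1, h, mul_div_mul_left _ _ (ko13_pos η N c d S.1).ne']
  congr 1
  unfold kk W_7d29a1_Z.Kc
  rw [sum_filter]
  refine sum_congr rfl fun g hg => ?_
  obtain ⟨h1, h2⟩ := W_7d29a1_Z.mem_pcs.1 hg
  have h3 : C (pos ((S.1 \ Ico c d) ∪ g)) ↔ C (W_7d29a1_Z.ps 0 c (pos S.1 c) g) := by
    refine hC _ _ fun i hi1 hi2 => ?_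
    have e2 := W_7d29a1_Z.ps_chain 0 0 ((S.1 \ Ico c d) ∪ g) (Nat.zero_le c) hi1
    rw [W_7d29a1_Z.ps_pos, W_7d29a1_Z.ps_pos] at e2
    rw [← e2]
    have e3 : pos ((S.1 \ Ico c d) ∪ g) c = pos S.1 c := by
      unfold pos
      congr 2
      ext i
      simp only [mem_inter, mem_union, Finset.mem_sdiff, mem_Ico, mem_range]
      constructor
      · rintro ⟨h4 | h4, h5⟩
        · exact ⟨h4.1, h5⟩
        · have := h1 h4
          rw [mem_Ico] at this
          omega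
      · rintro ⟨h4, h5⟩
        exact ⟨Or.inl ⟨h4, by omega⟩, h5⟩
    rw [e3]
    refine W_7d29a1_Z.ps_congr 0 c _ ?_
    ext i
    simp only [mem_inter, mem_union, Finset.mem_sdiff, mem_Ico]
    constructor
    · rintro ⟨h4 | h4, h5⟩
      · omega
      · exact ⟨h4, h5⟩
    · rintro ⟨h4, h5⟩
      exact ⟨Or.inr h4, h5⟩
  by_cases h4 : C (pos ((S.1 \ Ico c d) ∪ g))
  · rw [if_pos h4, if_pos (h3.1 h4), mul_one]
  · rw [if_neg h4, if_neg fun h5 => h4 (h3.2 h5), mul_zero]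

open scoped Classical in
/-- **A class of mass at least `e ^ (-M)` given the path outside of the block is a near tie** for a path left of the line. -/
theorem nte_of_blk {V : Win} (hVN : V.N = N) (hVH : V.H = N) {L : ℕ} {e C : ℝ} {i₀ i₁ : ℕ} {M : ℝ} (hi : i₁ ≤ V.a) {c d : ℕ} (hcd : c ≤ d)
    (hd : d ≤ N) (hJ : ∀ i ∈ V.JJ, c < i ∧ i < d) {η : Env} {S : Px (Pn N y)} (hL : InL μ s V.sg V.J V.Y S.1)
    (hM : Real.exp (-M) ≤ VT31.cE (lw μ s η N (Pn N y)) (pJ c d) (fun v => if cE μ s V L e C i₀ i₁ (pos v.1) then 1 else 0) S) :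
    NTE μ s V L e C i₀ i₁ M η S.1 := by
  have hJ' : ∀ i ∈ V.J, c < i ∧ i < d := fun i hi => hJ i (J_sub_JJ V hi)
  rw [cE_kk η hcd hd S (fun p p' h => locE V L e C i₀ hi p p' fun i hi => h i (hJ i hi).1.le (hJ i hi).2.le),
    le_div_iff₀ (Kf_pos13 η hcd hd S)] at hM
  refine ⟨hL, (c, d), ?_, ?_⟩
  · unfold Br
    rw [mem_filter, mem_product, mem_range, mem_range, hVN, hVH]
    exact ⟨⟨by omega, by omega⟩, by show d ≤ c + N; omega, hJ'⟩
  · rw [kC_clE V L e C i₀ i₁ S.1 hJ', kC_clL V S.1 hJ']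
    refine le_trans (mul_le_mul_of_nonneg_left ?_ (Real.exp_pos _).le) hM
    exact W_7d29a1_Z.Kc_le_Kf _ _ _ _ _ _ _

end

end Pool.Agent.W_7d29a1_C0.F13
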