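import Pool.Agent.W_7d29a1_C0.FarP13A

/-!
C0, helper13: FAR13 FOR PLANS OF REPLICAS, second part: densities `OwnD` of the own replicas (free or conditional): weights which see only
the sites of the replicas, over a monotone normalisation which depends on a kind; the marginals are at most the free law. The price of
one line, in event form: the mass of a class given one own replica outside of a block.
-/

set_option autoImplicit false

namespace Pool.Agent.W_7d29a1_C0.F13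

open MeasureTheory ProbabilityTheory Filter Topology Finset
open Pool.Agent.W_7d29a1_F Pool.Agent.W_7d29a1_X Pool.Agent.W_7d29a1_H Pool.Agent.W_7d29a1_HZ
open Pool.Agent.W_7d29a1_HS (In wd md)
open Pool.Agent.W_7d29a1_HZ.ZE
open Pool.Agent.W_7d29a1_HZ.Z15 (kC ZC)
open Pool.Agent.W_7d29a1_HZ.Z36 (kk kk_nonneg)
open Pool.Agent.W_7d29a1_HZ.Z86.GX (WT)
open Pool.Agent.W_7d29a1_ZE (Win Br J_sub_JJ)
open Pool.Agent.W_7d29a1_C0.Mod92 (Px Pn lw pos_card ne_Pn pJ ps_of_le ps_of_ge)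
open Pool.W7d29a1.C0 (gz gm gz_pos gz_ne)
open Pool.W7d29a1.C0
open scoped ENNReal

noncomputable section

variable {μ : Measure ℝ} {s : ℝ} {N y : ℕ}

/-! ### Sums over tuples -/

theorem sum_ins {k : ℕ} (l : Fin (k + 1)) (f : (Fin (k + 1) → Px (Pn N y)) → ℝ) :
    ∑ x, f x = ∑ S : Px (Pn N y), ∑ T : Fin k → Px (Pn N y), f (l.insertNth S T) := by
  rw [← (Fin.insertNthEquiv (fun _ : Fin (k + 1) => Px (Pn N y)) l).sum_comp f, Fintype.sum_prod_type]
  rfl

theorem sum_fixl {k : ℕ} (l : Fin (k + 1)) (S : Px (Pn N y)) (f : (Fin (k + 1) → Px (Pn N y)) → ℝ) :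
    (∑ x, if x l = S then f x else 0) = ∑ T : Fin k → Px (Pn N y), f (l.insertNth S T) := by
  rw [sum_ins l]
  rw [sum_eq_single S]
  · refine sum_congr rfl fun T _ => ?_
    rw [Fin.insertNth_apply_same, if_pos rfl]
  · intro S' _ hS'
    refine sum_eq_zero fun T _ => ?_
    rw [Fin.insertNth_apply_same, if_neg hS']
  · intro h
    exact absurd (mem_univ S) h

/-! ### Densities of own replicas -/

/-- The site is on the path of one of the replicas. -/
def OnP {m : ℕ} (x : Fin m → Px (Pn N y)) (q : Pt) : Prop :=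
  ∃ j : Fin m, ∃ i : ℕ, i < N ∧ q = ((i : ℤ) + 1, pos (x j).1 (i + 1))

/-- **A density of `k + 1` own replicas**: `A η x / (Zq (kd x) η * Z η)`. -/
structure OwnD (μ : Measure ℝ) (s : ℝ) (N y : ℕ) {k : ℕ} {ι : Type} (kd : (Fin (k + 1) → Px (Pn N y)) → ι)
    (A : Env → (Fin (k + 1) → Px (Pn N y)) → ℝ) (Zq : ι → Env → ℝ) : Prop where
  am : ∀ x, Measurable fun η => A η x
  a0 : ∀ η x, 0 ≤ A η x
  av : ∀ (η η' : Env) (x : Fin (k + 1) → Px (Pn N y)), (∀ q : Pt, OnP x q → η q = η' q) → A η x = A η' x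
  zm : ∀ κ, Measurable (Zq κ)
  z0 : ∀ κ η, 0 < Zq κ η
  zmono : ∀ κ, Monotone (Zq κ)
  marg : ∀ (η : Env) (l : Fin (k + 1)) (S : Px (Pn N y)), (∑ x, if x l = S then A η x / Zq (kd x) η else 0) ≤ pth μ s η N S.1

/-- The average over the own replicas. -/
def evD (μ : Measure ℝ) (s : ℝ) (N y : ℕ) {k : ℕ} {ι : Type} (kd : (Fin (k + 1) → Px (Pn N y)) → ι)
    (A : Env → (Fin (k + 1) → Px (Pn N y)) → ℝ) (Zq : ι → Env → ℝ) (η : Env) (Ψ : (Fin (k + 1) → Px (Pn N y)) → ℝ) : ℝ :=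
  ∑ x, A η x / (Zq (kd x) η * ZC μ s N (y : ℤ) η) * Ψ x

/-- The observable sees of the rows `J` only the sites of the replicas. -/
def OffV (J : Finset ℕ) {m : ℕ} (X : Env → (Fin m → Px (Pn N y)) → ℝ) : Prop :=
  ∀ (η η' : Env) (x : Fin m → Px (Pn N y)), (∀ q : Pt, (0 ≤ q.1 ∧ q.1.toNat ∈ J → OnP x q) → η q = η' q) → X η x = X η' x

theorem OffX.offV {J : Finset ℕ} {m : ℕ} {X : Env → (Fin m → Px (Pn N y)) → ℝ} (h : OffX J X) : OffV J X :=
  fun η η' x hη => h η η' x fun q hq => hη q fun h1 => absurd h1 hq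

theorem OffV.mono {J J' : Finset ℕ} (h : J ⊆ J') {m : ℕ} {X : Env → (Fin m → Px (Pn N y)) → ℝ} (hX : OffV J' X) : OffV J X :=
  fun η η' x hη => hX η η' x fun q hq => hη q fun h1 => hq ⟨h1.1, h h1.2⟩

variable {k : ℕ} {ι : Type} {kd : (Fin (k + 1) → Px (Pn N y)) → ι} {A : Env → (Fin (k + 1) → Px (Pn N y)) → ℝ} {Zq : ι → Env → ℝ}

section D

variable [IsProbabilityMeasure μ] (h : OwnD μ s N y kd A Zq)
include h

theorem OwnD.dn_nonneg (hy : y ≤ N) (η : Env) (x : Fin (k + 1) → Px (Pn N y)) :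
    0 ≤ A η x / (Zq (kd x) η * ZC μ s N (y : ℤ) η) :=
  div_nonneg (h.a0 η x) (mul_pos (h.z0 _ η) (ZC_pos13 hy η)).le

theorem OwnD.ev_nonneg (hy : y ≤ N) (η : Env) {Ψ : (Fin (k + 1) → Px (Pn N y)) → ℝ} (hΨ : ∀ x, 0 ≤ Ψ x) :
    0 ≤ evD μ s N y kd A Zq η Ψ :=
  sum_nonneg fun x _ => mul_nonneg (h.dn_nonneg hy η x) (hΨ x)

theorem OwnD.ev_mono (hy : y ≤ N) (η : Env) {Ψ Φ : (Fin (k + 1) → Px (Pn N y)) → ℝ} (hΨ : ∀ x, Ψ x ≤ Φ x) :
    evD μ s N y kd A Zq η Ψ ≤ evD μ s N y kd A Zq η Φ :=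
  sum_le_sum fun x _ => mul_le_mul_of_nonneg_left (hΨ x) (h.dn_nonneg hy η x)

/-- The marginals are at most the free law. -/
theorem OwnD.ev_coord (hy : y ≤ N) (η : Env) (l : Fin (k + 1)) {b : Px (Pn N y) → ℝ} (hb : ∀ S, 0 ≤ b S) :
    evD μ s N y kd A Zq η (fun x => b (x l)) ≤ ∑ S : Px (Pn N y), pth μ s η N S.1 / ZC μ s N (y : ℤ) η * b S := by
  have hZ := ZC_pos13 (μ := μ) (s := s) hy η
  unfold evD
  rw [sum_ins l]
  refine sum_le_sum fun S _ => ?_
  have h1 := h.marg η l S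
  rw [sum_fixl l S] at h1
  have h2 : ∑ T : Fin k → Px (Pn N y), A η (l.insertNth S T) / (Zq (kd (l.insertNth S T)) η * ZC μ s N (y : ℤ) η) *
      b ((l.insertNth S T : Fin (k + 1) → Px (Pn N y)) l) =
      (∑ T : Fin k → Px (Pn N y), A η (l.insertNth S T) / Zq (kd (l.insertNth S T)) η) * (b S / ZC μ s N (y : ℤ) η) := by
    rw [sum_mul]
    refine sum_congr rfl fun T _ => ?_
    rw [Fin.insertNth_apply_same, ← div_div]
    ring
  rw [h2]
  have h3 := mul_le_mul_of_nonneg_right h1 (div_nonneg (hb S) hZ.le)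
  refine h3.trans (le_of_eq ?_)
  ring

theorem OwnD.ev_le_one (hy : y ≤ N) (η : Env) {Ψ : (Fin (k + 1) → Px (Pn N y)) → ℝ} (hΨ : ∀ x, Ψ x ≤ 1) :
    evD μ s N y kd A Zq η Ψ ≤ 1 := by
  refine (h.ev_mono hy η hΨ).trans ((h.ev_coord hy η 0 (b := fun _ => 1) fun _ => zero_le_one).trans (le_of_eq ?_))
  have hZ := ZC_pos13 (μ := μ) (s := s) hy η
  simp only [mul_one]
  rw [← sum_div, ← ZC_sum, div_self hZ.ne']

theorem OwnD.ev_meas {Ψ : Env → (Fin (k + 1) → Px (Pn N y)) → ℝ} (hm : ∀ x, Measurable fun η => Ψ η x) :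
    Measurable fun η => evD μ s N y kd A Zq η (Ψ η) :=
  Finset.measurable_sum _ fun x _ => ((h.am x).div ((h.zm _).mul (ZC_meas N (y : ℤ)))).mul (hm x)

theorem OwnD.ev_int (hy : y ≤ N) {Ψ : Env → (Fin (k + 1) → Px (Pn N y)) → ℝ} (hm : ∀ x, Measurable fun η => Ψ η x)
    (h0 : ∀ η x, 0 ≤ Ψ η x) (h1 : ∀ η x, Ψ η x ≤ 1) : Integrable (fun η => evD μ s N y kd A Zq η (Ψ η)) (law μ) := by
  refine Integrable.of_bound (h.ev_meas hm).aestronglyMeasurable 1 (Filter.Eventually.of_forall fun η => ?_)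
  rw [Real.norm_eq_abs, abs_of_nonneg (h.ev_nonneg hy η (h0 η))]
  exact h.ev_le_one hy η (h1 η)

end D

/-! ### The weight of the other own replicas -/

open scoped Classical in
/-- The weight of the other own replicas, of one kind. -/
def RG (μ : Measure ℝ) (s : ℝ) (N y : ℕ) {k : ℕ} {ι : Type} (kd : (Fin (k + 1) → Px (Pn N y)) → ι)
    (A : Env → (Fin (k + 1) → Px (Pn N y)) → ℝ) (V : Win) (nr : (Fin (k + 1) → Px (Pn N y)) → Prop)
    (X : Env → (Fin (k + 1) → Px (Pn N y)) → ℝ) (l : Fin (k + 1)) (κ : ι) (S : Finset ℕ) (η : Env) : ℝ :=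
  if h : S ∈ Pn N y then ∑ T : Fin k → Px (Pn N y),
    (if kd (l.insertNth ⟨S, h⟩ T) = κ ∧ nr (l.insertNth ⟨S, h⟩ T) ∧ ∀ i, Av μ s V (T i).1 then 1 else 0) *
      (A η (l.insertNth ⟨S, h⟩ T) / pth μ s η N S * X η (l.insertNth ⟨S, h⟩ T)) else 0

theorem RG_ok (h : OwnD μ s N y kd A Zq) {V : Win} {nr : (Fin (k + 1) → Px (Pn N y)) → Prop}
    {X : Env → (Fin (k + 1) → Px (Pn N y)) → ℝ} (hm : ∀ x, Measurable fun η => X η x) (h0 : ∀ η x, 0 ≤ X η x) (h1 : ∀ η x, X η x ≤ 1)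
    (l : Fin (k + 1)) (κ : ι) : RgOk (Zq κ) (RG μ s N y kd A V nr X l κ) := by
  classical
  refine ⟨h.zm κ, h.z0 κ, h.zmono κ, fun S => ?_, fun S η => ?_, fun S η => ?_⟩
  · unfold RG
    by_cases hS : S ∈ Pn N y
    · simp only [hS, dif_pos]
      refine Finset.measurable_sum _ fun T _ => ?_
      exact (((h.am _).div (Pool.Agent.W_7d29a1_C0.Mod92.meas_pth N S)).mul (hm _)).const_mul _
    · simp only [hS, dif_neg, not_false_eq_true]
      exact measurable_const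
  · unfold RG
    split_ifs with hS
    · refine sum_nonneg fun T _ => mul_nonneg ?_ (mul_nonneg (div_nonneg (h.a0 _ _) (pth_pos13 η N _).le) (h0 _ _))
      split_ifs <;> norm_num
    · exact le_rfl
  · unfold RG
    split_ifs with hS
    swap
    · exact (h.z0 κ η).le
    have hp := pth_pos13 (μ := μ) (s := s) η N S
    have hz := h.z0 κ η
    have h2 := h.marg η l ⟨S, hS⟩
    rw [sum_fixl l ⟨S, hS⟩] at h2
    have h3 : ∀ T : Fin k → Px (Pn N y),
        (if kd (l.insertNth ⟨S, hS⟩ T) = κ ∧ nr (l.insertNth ⟨S, hS⟩ T) ∧ ∀ i, Av μ s V (T i).1 then (1 : ℝ) else 0) *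
          (A η (l.insertNth ⟨S, hS⟩ T) / pth μ s η N S * X η (l.insertNth ⟨S, hS⟩ T)) ≤
        (A η (l.insertNth ⟨S, hS⟩ T) / Zq (kd (l.insertNth ⟨S, hS⟩ T)) η) * (Zq κ η / pth μ s η N S) := by
      intro T
      have a1 := h.a0 η (l.insertNth ⟨S, hS⟩ T)
      have a2 := h.z0 (kd (l.insertNth ⟨S, hS⟩ T)) η
      have a3 := h0 η (l.insertNth ⟨S, hS⟩ T)
      have a4 := h1 η (l.insertNth ⟨S, hS⟩ T)
      by_cases hk : kd (l.insertNth ⟨S, hS⟩ T) = κ ∧ nr (l.insertNth ⟨S, hS⟩ T) ∧ ∀ i, Av μ s V (T i).1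
      · rw [if_pos hk, one_mul, hk.1]
        have e1 : A η (l.insertNth ⟨S, hS⟩ T) / Zq κ η * (Zq κ η / pth μ s η N S) = A η (l.insertNth ⟨S, hS⟩ T) / pth μ s η N S := by
          field_simp
        rw [e1]
        exact mul_le_of_le_one_right (div_nonneg a1 hp.le) a4
      · rw [if_neg hk, zero_mul]
        exact mul_nonneg (div_nonneg a1 a2.le) (div_nonneg hz.le hp.le)
    refine (sum_le_sum fun T _ => h3 T).trans ?_
    rw [← sum_mul]
    have h4 := mul_le_mul_of_nonneg_right h2 (div_nonneg hz.le hp.le)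
    refine h4.trans (le_of_eq ?_)
    show pth μ s η N S * (Zq κ η / pth μ s η N S) = Zq κ η
    field_simp

/-- The sites of replicas outside of the strip are outside of the strip. -/
theorem onP_strip {V : Win} {l : Fin (k + 1)} {S : Px (Pn N y)} {T : Fin k → Px (Pn N y)} (hL : InL μ s V.sg V.J V.Y S.1)
    (hT : ∀ i, Av μ s V (T i).1) {q : Pt} (hq : OnP (l.insertNth S T : Fin (k + 1) → Px (Pn N y)) q) : ¬ InStrip μ s V q := by
  have hav : ∀ j, Av μ s V ((l.insertNth S T : Fin (k + 1) → Px (Pn N y)) j).1 := by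
    intro j
    rcases Fin.eq_self_or_eq_succAbove l j with hj | ⟨i, hi⟩
    · rw [hj, Fin.insertNth_apply_same]
      intro r hr hc
      have := hL r hr
      linarith [hc.1]
    · rw [hi, Fin.insertNth_apply_succAbove]
      exact hT i
  obtain ⟨j, i, -, rfl⟩ := hq
  rintro ⟨-, h2, h3⟩
  have e : (((i : ℤ) + 1, pos ((l.insertNth S T : Fin (k + 1) → Px (Pn N y)) j).1 (i + 1)) : Pt).1.toNat = i + 1 := by
    show ((i : ℤ) + 1).toNat = i + 1
    omega
  rw [e] at h2 h3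
  exact hav j (i + 1) h2 h3

theorem RG_blind (h : OwnD μ s N y kd A Zq) {V : Win} {nr : (Fin (k + 1) → Px (Pn N y)) → Prop}
    {X : Env → (Fin (k + 1) → Px (Pn N y)) → ℝ} (hX : OffV V.J X) (l : Fin (k + 1)) (κ : ι) :
    BlindR μ s V (RG μ s N y kd A V nr X l κ) := by
  classical
  intro η η' S hL hη
  unfold RG
  split_ifs with hS
  · refine sum_congr rfl fun T _ => ?_
    by_cases hk : kd (l.insertNth ⟨S, hS⟩ T) = κ ∧ nr (l.insertNth ⟨S, hS⟩ T) ∧ ∀ i, Av μ s V (T i).1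
    · have hon : ∀ q : Pt, OnP (l.insertNth ⟨S, hS⟩ T : Fin (k + 1) → Px (Pn N y)) q → ¬ InStrip μ s V q := fun q hq =>
        onP_strip (S := ⟨S, hS⟩) hL hk.2.2 hq
      have e1 : A η (l.insertNth ⟨S, hS⟩ T) = A η' (l.insertNth ⟨S, hS⟩ T) := h.av η η' _ fun q hq => hη q (hon q hq)
      have e2 : X η (l.insertNth ⟨S, hS⟩ T) = X η' (l.insertNth ⟨S, hS⟩ T) := hX η η' _ fun q hq => hη q fun hs => by
        exact hon q (hq ⟨hs.1, hs.2.1⟩) hs
      have e3 : pth μ s η N S = pth μ s η' N S := pth_Av (V := V) (fun r hr hc => by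
        have := hL r hr
        linarith [hc.1]) hη N
      rw [e1, e2, e3]
    · rw [if_neg hk, zero_mul, zero_mul]
  · rfl

/-! ### One line -/

open scoped Classical in
/-- The observable of one line: the base replica `l` is on its left, the others are outside of the strip. -/
def PsG (μ : Measure ℝ) (s : ℝ) (V : Win) (nr : (Fin (k + 1) → Px (Pn N y)) → Prop) (X : Env → (Fin (k + 1) → Px (Pn N y)) → ℝ)
    (l : Fin (k + 1)) (η : Env) (x : Fin (k + 1) → Px (Pn N y)) : ℝ :=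
  (if InL μ s V.sg V.J V.Y (x l).1 then 1 else 0) *
    ((if nr x ∧ ∀ i : Fin k, Av μ s V (x (l.succAbove i)).1 then 1 else 0) * X η x)

theorem PsG_meas {V : Win} {nr : (Fin (k + 1) → Px (Pn N y)) → Prop} {X : Env → (Fin (k + 1) → Px (Pn N y)) → ℝ}
    (hm : ∀ x, Measurable fun η => X η x) (l : Fin (k + 1)) (x : Fin (k + 1) → Px (Pn N y)) :
    Measurable fun η => PsG μ s V nr X l η x := ((hm x).const_mul _).const_mul _

theorem PsG_nonneg {V : Win} {nr : (Fin (k + 1) → Px (Pn N y)) → Prop} {X : Env → (Fin (k + 1) → Px (Pn N y)) → ℝ}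
    (h0 : ∀ η x, 0 ≤ X η x) (l : Fin (k + 1)) (η : Env) (x : Fin (k + 1) → Px (Pn N y)) : 0 ≤ PsG μ s V nr X l η x := by
  unfold PsG
  refine mul_nonneg (by split_ifs <;> norm_num) (mul_nonneg (by split_ifs <;> norm_num) (h0 _ _))

theorem PsG_le_X {V : Win} {nr : (Fin (k + 1) → Px (Pn N y)) → Prop} {X : Env → (Fin (k + 1) → Px (Pn N y)) → ℝ}
    (h0 : ∀ η x, 0 ≤ X η x) (l : Fin (k + 1)) (η : Env) (x : Fin (k + 1) → Px (Pn N y)) : PsG μ s V nr X l η x ≤ X η x := by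
  unfold PsG
  have := h0 η x
  split_ifs <;> linarith

open scoped Classical in
/-- The average of one line as masses with the weights `RG`. -/
theorem evD_PsG (h : OwnD μ s N y kd A Zq) [Fintype ι] (η : Env) {V : Win} {nr : (Fin (k + 1) → Px (Pn N y)) → Prop}
    (X : Env → (Fin (k + 1) → Px (Pn N y)) → ℝ) (l : Fin (k + 1)) (b : Px (Pn N y) → ℝ) :
    evD μ s N y kd A Zq η (fun x => b (x l) * PsG μ s V nr X l η x) =
      ∑ κ : ι, ∑ S : Px (Pn N y), pth μ s η N S.1 / ZC μ s N (y : ℤ) η *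
        (b S * ((if InL μ s V.sg V.J V.Y S.1 then 1 else 0) * rdG (Zq κ) (RG μ s N y kd A V nr X l κ) S.1 η)) := by
  unfold evD
  rw [sum_ins l, sum_comm (s := (univ : Finset ι))]
  refine sum_congr rfl fun S _ => ?_
  have hp := pth_pos13 (μ := μ) (s := s) η N S.1
  have e1 : ∀ κ : ι, pth μ s η N S.1 / ZC μ s N (y : ℤ) η *
        (b S * ((if InL μ s V.sg V.J V.Y S.1 then 1 else 0) * rdG (Zq κ) (RG μ s N y kd A V nr X l κ) S.1 η)) =
      ∑ T : Fin k → Px (Pn N y), (if kd (l.insertNth S T) = κ then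
        A η (l.insertNth S T) / (Zq (kd (l.insertNth S T)) η * ZC μ s N (y : ℤ) η) *
        (b ((l.insertNth S T : Fin (k + 1) → Px (Pn N y)) l) * PsG μ s V nr X l η (l.insertNth S T)) else 0) := by
    intro κ
    unfold rdG RG
    rw [dif_pos S.2, sum_div, mul_sum, mul_sum, mul_sum]
    refine sum_congr rfl fun T _ => ?_
    have hz := h.z0 κ η
    unfold PsG
    rw [Fin.insertNth_apply_same]
    simp only [Fin.insertNth_apply_succAbove]
    obtain ⟨I, hI⟩ : ∃ I : ℝ, I = if InL μ s V.sg V.J V.Y S.1 then 1 else 0 := ⟨_, rfl⟩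
    rw [← hI]
    have hS' : (⟨S.1, S.2⟩ : Px (Pn N y)) = S := rfl
    rw [hS']
    by_cases hk : kd (l.insertNth S T) = κ
    · rw [if_pos hk, hk]
      by_cases hk2 : nr (l.insertNth S T) ∧ ∀ i, Av μ s V (T i).1
      · rw [if_pos ⟨rfl, hk2⟩, if_pos hk2]
        field_simp
      · rw [if_neg fun hc => hk2 hc.2, if_neg hk2]
        ring
    · rw [if_neg hk, if_neg fun hc => hk hc.1]
      ring
  rw [sum_congr rfl fun κ _ => e1 κ, sum_comm]
  refine sum_congr rfl fun T _ => ?_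
  rw [sum_ite_eq]
  rw [if_pos (mem_univ _)]

open scoped Classical in
/-- **The price of one line, event form.** -/
theorem one_lineG [IsProbabilityMeasure μ] (h : OwnD μ s N y kd A Zq) [Fintype ι] (hy : y ≤ N) {V : Win} (hVN : V.N = N) (hVH : V.H = N)
    {L : ℕ} {e C : ℝ} {i₀ i₁ : ℕ} (hi : i₁ ≤ V.a) {M q δ : ℝ} (hq : 0 ≤ q) (hδ : 0 ≤ δ) {c d : ℕ} (hcd : c ≤ d) (hd : d ≤ N)
    (hJ : ∀ i ∈ V.JJ, c < i ∧ i < d) {nr : (Fin (k + 1) → Px (Pn N y)) → Prop}
    {X : Env → (Fin (k + 1) → Px (Pn N y)) → ℝ} (hm : ∀ x, Measurable fun η => X η x) (h0 : ∀ η x, 0 ≤ X η x)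
    (h1 : ∀ η x, X η x ≤ 1) (l : Fin (k + 1))
    (hT : ∀ κ : ι, PR μ s N (y : ℤ) (rdG (Zq κ) (RG μ s N y kd A V nr X l κ)) (NTE μ s V L e C i₀ i₁ M) ≤
        ENNReal.ofReal q * PR μ s N (y : ℤ) (rdG (Zq κ) (RG μ s N y kd A V nr X l κ)) (fun _ S => InL μ s V.sg V.J V.Y S) +
          ENNReal.ofReal δ) :
    ∫ η, evD μ s N y kd A Zq η (fun x => (if Real.exp (-M) ≤ VT31.cE (lw μ s η N (Pn N y)) (pJ c d)
        (fun v => if cE μ s V L e C i₀ i₁ (pos v.1) then 1 else 0) (x l) then 1 else 0) * PsG μ s V nr X l η x) ∂(law μ) ≤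
      q * ∫ η, evD μ s N y kd A Zq η (PsG μ s V nr X l η) ∂(law μ) + Fintype.card ι * δ := by
  have hy0 : (0 : ℤ) ≤ (y : ℤ) := by positivity
  have hyN : (y : ℤ) ≤ (N : ℤ) := by exact_mod_cast hy
  obtain ⟨ρ, hρ⟩ : ∃ ρ : ι → Finset ℕ → Env → ℝ, ρ = fun κ => rdG (Zq κ) (RG μ s N y kd A V nr X l κ) := ⟨_, rfl⟩
  have hρm : ∀ κ S, Measurable (ρ κ S) := fun κ S => by
    rw [hρ]
    exact (RG_ok h (V := V) (nr := nr) hm h0 h1 l κ).rm S
  have hρ0 : ∀ κ S η, 0 ≤ ρ κ S η := fun κ S η => by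
    rw [hρ]
    exact (RG_ok h (V := V) (nr := nr) hm h0 h1 l κ).r0 S η
  have hρ1 : ∀ κ S η, ρ κ S η ≤ 1 := fun κ S η => by
    rw [hρ]
    exact (RG_ok h (V := V) (nr := nr) hm h0 h1 l κ).r1 S η
  -- the masses
  obtain ⟨F, hF⟩ : ∃ F : ι → (Env → Finset ℕ → Prop) → Env → ℝ, F = fun κ A η => ∑ S ∈ (range N).powerset,
    (if A η S then (1 : ℝ) else 0) * (gp μ s η N (y : ℤ) S * ρ κ S η) := ⟨_, rfl⟩
  have hF0 : ∀ κ A η, 0 ≤ F κ A η := fun κ A η => by
    rw [hF]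
    exact sum_nonneg fun S _ => mul_nonneg (by split_ifs <;> norm_num) (mul_nonneg (gp_nonneg36 _ _ _ _) (hρ0 κ S η))
  have hF1 : ∀ κ A η, F κ A η ≤ 1 := fun κ A η => by
    rw [hF]
    refine le_trans (sum_le_sum fun S _ => ?_) (sum_gp_mul_le_one (μ := μ) (s := s) η N (y : ℤ) (a := fun S => 1) fun _ => le_rfl)
    have g1 := gp_nonneg36 (μ := μ) (s := s) η N (y : ℤ) S
    have g2 := mul_le_mul_of_nonneg_left (hρ1 κ S η) g1
    split_ifs
    · linarith
    · linarith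
  have hFm : ∀ κ (A : Env → Finset ℕ → Prop), Ms A → Measurable (F κ A) := fun κ A hA => by
    rw [hF]
    exact Finset.measurable_sum _ fun S _ => (Measurable.ite (hA S) measurable_const measurable_const).mul
      ((gp_meas36 N (y : ℤ) S).mul (hρm κ S))
  have hFi : ∀ κ (A : Env → Finset ℕ → Prop), Ms A → Integrable (F κ A) (law μ) := fun κ A hA => by
    refine Integrable.of_bound (hFm κ A hA).aestronglyMeasurable 1 (Filter.Eventually.of_forall fun η => ?_)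
    rw [Real.norm_eq_abs, abs_of_nonneg (hF0 κ A η)]
    exact hF1 κ A η
  -- the hypothesis for integrals
  have hT' : ∀ κ, ∫ η, F κ (NTE μ s V L e C i₀ i₁ M) η ∂(law μ) ≤
      q * ∫ η, F κ (fun _ S => InL μ s V.sg V.J V.Y S) η ∂(law μ) + δ := by
    intro κ
    have h2 := hT κ
    have e1 : rdG (Zq κ) (RG μ s N y kd A V nr X l κ) = ρ κ := by rw [hρ]
    rw [e1, PR_eq (hρm κ) (hρ0 κ) (hρ1 κ) (NTE_ms _ _ _ _ _ _ _), PR_eq (hρm κ) (hρ0 κ) (hρ1 κ) (InL_ms _ _ _), ← ENNReal.ofReal_mul hq,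
      ← ENNReal.ofReal_add (mul_nonneg hq (integral_nonneg fun η => sum_nonneg fun S _ => mul_nonneg (by split_ifs <;> norm_num)
        (mul_nonneg (gp_nonneg36 _ _ _ _) (hρ0 κ S η)))) hδ,
      ENNReal.ofReal_le_ofReal_iff (add_nonneg (mul_nonneg hq (integral_nonneg fun η => sum_nonneg fun S _ =>
        mul_nonneg (by split_ifs <;> norm_num) (mul_nonneg (gp_nonneg36 _ _ _ _) (hρ0 κ S η)))) hδ)] at h2
    rw [hF]
    exact h2
  -- the quenched sums
  have hsum : ∀ (κ : ι) (η : Env) (b : Finset ℕ → ℝ), ∑ S : Px (Pn N y), pth μ s η N S.1 / ZC μ s N (y : ℤ) η * (b S.1 * ρ κ S.1 η) =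
      ∑ S ∈ (range N).powerset, gp μ s η N (y : ℤ) S * (b S * ρ κ S η) := fun κ η b =>
    (sum_gp_Px η fun S => b S * ρ κ S η).symm
  have eL : ∀ η : Env, evD μ s N y kd A Zq η (PsG μ s V nr X l η) = ∑ κ : ι, F κ (fun _ S => InL μ s V.sg V.J V.Y S) η := by
    intro η
    have e1 := evD_PsG h η (V := V) (nr := nr) X l fun _ => 1
    simp only [one_mul] at e1
    rw [e1]
    refine sum_congr rfl fun κ _ => ?_
    have e2 := hsum κ η fun S => if InL μ s V.sg V.J V.Y S then 1 else 0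
    rw [hF]
    rw [hρ] at e2 ⊢
    refine e2.trans (sum_congr rfl fun S _ => ?_)
    dsimp only
    ring
  have eN : ∀ η : Env, evD μ s N y kd A Zq η (fun x => (if Real.exp (-M) ≤ VT31.cE (lw μ s η N (Pn N y)) (pJ c d)
        (fun v => if cE μ s V L e C i₀ i₁ (pos v.1) then 1 else 0) (x l) then 1 else 0) * PsG μ s V nr X l η x) ≤
      ∑ κ : ι, F κ (NTE μ s V L e C i₀ i₁ M) η := by
    intro η
    rw [evD_PsG h η (V := V) (nr := nr) X l fun S => (if Real.exp (-M) ≤ VT31.cE (lw μ s η N (Pn N y)) (pJ c d)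
        (fun v => if cE μ s V L e C i₀ i₁ (pos v.1) then 1 else 0) S then 1 else 0)]
    refine sum_le_sum fun κ _ => ?_
    have e2 := hsum κ η fun S => if NTE μ s V L e C i₀ i₁ M η S then 1 else 0
    have e3 : F κ (NTE μ s V L e C i₀ i₁ M) η =
        ∑ S : Px (Pn N y), pth μ s η N S.1 / ZC μ s N (y : ℤ) η * ((if NTE μ s V L e C i₀ i₁ M η S.1 then 1 else 0) * ρ κ S.1 η) := by
      rw [e2, hF]
      refine sum_congr rfl fun S _ => ?_
      ring
    rw [e3]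
    refine sum_le_sum fun S _ => mul_le_mul_of_nonneg_left ?_ (div_nonneg (pth_pos13 η N _).le (ZC_pos13 hy η).le)
    rw [← mul_assoc]
    have e4 : rdG (Zq κ) (RG μ s N y kd A V nr X l κ) S.1 η = ρ κ S.1 η := by rw [hρ]
    rw [e4]
    refine mul_le_mul_of_nonneg_right ?_ (hρ0 κ S.1 η)
    by_cases hM : Real.exp (-M) ≤ VT31.cE (lw μ s η N (Pn N y)) (pJ c d)
        (fun v => if cE μ s V L e C i₀ i₁ (pos v.1) then 1 else 0) S
    · by_cases hL : InL μ s V.sg V.J V.Y S.1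
      · rw [if_pos hM, if_pos hL, if_pos (nte_of_blk hVN hVH hi hcd hd hJ hL hM)]
        norm_num
      · rw [if_neg hL, mul_zero]
        split_ifs <;> norm_num
    · rw [if_neg hM, zero_mul]
      split_ifs <;> norm_num
  have hI : Integrable (fun η => ∑ κ : ι, F κ (NTE μ s V L e C i₀ i₁ M) η) (law μ) :=
    integrable_finsetSum _ fun κ _ => hFi κ _ (NTE_ms _ _ _ _ _ _ _)
  have h2 := integral_mono_of_nonneg (μ := law μ) (Filter.Eventually.of_forall fun η => h.ev_nonneg hy η fun x =>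
    mul_nonneg (by split_ifs <;> norm_num) (PsG_nonneg (μ := μ) (s := s) (V := V) (nr := nr) h0 l η x)) hI
    (Filter.Eventually.of_forall eN)
  refine h2.trans ?_
  rw [integral_finsetSum _ fun κ _ => hFi κ _ (NTE_ms _ _ _ _ _ _ _)]
  have e5 : ∫ η, evD μ s N y kd A Zq η (PsG μ s V nr X l η) ∂(law μ) =
      ∑ κ : ι, ∫ η, F κ (fun _ S => InL μ s V.sg V.J V.Y S) η ∂(law μ) := by
    rw [← integral_finsetSum _ fun κ _ => hFi κ _ (InL_ms _ _ _)]
    exact integral_congr_ae (Filter.Eventually.of_forall eL)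
  rw [e5, mul_sum]
  refine (sum_le_sum fun κ _ => hT' κ).trans ?_
  rw [sum_add_distrib, sum_const, nsmul_eq_mul, card_univ]

end

end Pool.Agent.W_7d29a1_C0.F13
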