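import Pool.Agent.W_7d29a1_C0.FarP13B
import Pool.Agent.W_7d29a1_C0.Far13

/-!
C0, helper13: FAR13 FOR PLANS OF REPLICAS, third part: the window of a new replica given one own replica outside of a block (the line
separates it from this own replica, all own replicas are outside of the strip); the event inequality.
-/

set_option autoImplicit false

namespace Pool.Agent.W_7d29a1_C0.F13

open MeasureTheory ProbabilityTheory Filter Topology Finset
open Pool.Agent.W_7d29a1_F Pool.Agent.W_7d29a1_X Pool.Agent.W_7d29a1_H Pool.Agent.W_7d29a1_HZ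
open Pool.Agent.W_7d29a1_HS (In wd md)
open Pool.Agent.W_7d29a1_HZ.ZE
open Pool.Agent.W_7d29a1_HZ.R72 (FlatP)
open Pool.Agent.W_7d29a1_HZ.Z15 (kC ZC)
open Pool.Agent.W_7d29a1_HZ.Z86.GX (WT)
open Pool.Agent.W_7d29a1_Z17 (card_grid)
open Pool.Agent.W_7d29a1_ZE (Win Br)
open Pool.Agent.W_7d29a1_C0.Mod92 (Px Pn lw pos_card ne_Pn pJ ps_of_le ps_of_ge)
open Pool.W7d29a1.C0 (gz gm gz_pos gz_ne)
open Pool.W7d29a1.C0
open scoped ENNReal

noncomputable section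

variable {μ : Measure ℝ} {s : ℝ} {N y : ℕ}

/-! ### The geometry -/

/-- The deterministic core: the new replica has the distance `2 ^ (g + 4) ≤ d < 2 ^ (g + 5)` from the nearest own replica `m`; the line
separates it from the own replica `l`. -/
theorem far_coreB {g n i₀ k : ℕ} {x : Fin (k + 2) → Finset ℕ} {m l : Fin (k + 1)}
    (h1 : (2 : ℤ) ^ (g + 4) ≤ |pos (x 0) i₀ - pos (x m.succ) i₀|) (h2 : |pos (x 0) i₀ - pos (x m.succ) i₀| < (2 : ℤ) ^ (g + 5))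
    (hmin : ∀ j : Fin (k + 1), |pos (x 0) i₀ - pos (x m.succ) i₀| ≤ |pos (x 0) i₀ - pos (x j.succ) i₀|)
    (hF : ∀ j : Fin (k + 2), ∀ i : ℕ, i ≤ N → i ≤ i₀ + n → i₀ ≤ i + n →
      32 * |(pos (x j) i - md μ s i) - (pos (x j) i₀ - md μ s i₀)| ≤ 2 ^ g) :
    ∃ sg Y : ℤ, (sg = 1 ∨ sg = -1) ∧ (2 : ℤ) ^ g ∣ Y ∧ ∀ i : ℕ, i ≤ N → i ≤ i₀ + n → i₀ ≤ i + n →
      (Y < sg * (pos (x 0) i - md μ s i) ∧ sg * (pos (x 0) i - md μ s i) ≤ Y + 2 ^ (g + 3) ∧
        2 ^ g ≤ 8 * (sg * (pos (x 0) i - md μ s i) - Y)) ∧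
      sg * (pos (x l.succ) i - md μ s i) ≤ Y ∧ |sg * (pos (x m.succ) i - md μ s i) - Y| ≤ 2 ^ (g + 6) ∧
      ∀ j : Fin (k + 1), ¬ (Y < sg * (pos (x j.succ) i - md μ s i) ∧ sg * (pos (x j.succ) i - md μ s i) ≤ Y + 2 ^ (g + 4)) := by
  have hP : (1 : ℤ) ≤ 2 ^ g := by exact_mod_cast Nat.one_le_two_pow
  have e3 : (2 : ℤ) ^ (g + 3) = 8 * 2 ^ g := by ring
  have e4 : (2 : ℤ) ^ (g + 4) = 16 * 2 ^ g := by ring
  have e5 : (2 : ℤ) ^ (g + 5) = 32 * 2 ^ g := by ring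
  have e6 : (2 : ℤ) ^ (g + 6) = 64 * 2 ^ g := by ring
  rw [e4] at h1
  rw [e5] at h2
  rw [e3, e4, e6]
  generalize (2 : ℤ) ^ g = P at *
  -- the sign
  obtain ⟨sg, hsg, hD⟩ : ∃ sg : ℤ, (sg = 1 ∨ sg = -1) ∧
      sg * (pos (x 0) i₀ - md μ s i₀) - sg * (pos (x l.succ) i₀ - md μ s i₀) = |pos (x 0) i₀ - pos (x l.succ) i₀| := by
    rcases le_total 0 (pos (x 0) i₀ - pos (x l.succ) i₀) with h | h
    · exact ⟨1, Or.inl rfl, by rw [abs_of_nonneg h]; ring⟩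
    · exact ⟨-1, Or.inr rfl, by rw [abs_of_nonpos h]; ring⟩
  have hsgA : ∀ z : ℤ, |sg * z| = |z| := fun z => by
    rcases hsg with h | h
    · rw [h, one_mul]
    · rw [h, neg_one_mul, abs_neg]
  have hFs : ∀ j : Fin (k + 2), ∀ i : ℕ, i ≤ N → i ≤ i₀ + n → i₀ ≤ i + n →
      32 * |sg * (pos (x j) i - md μ s i) - sg * (pos (x j) i₀ - md μ s i₀)| ≤ P := fun j i a1 a2 a3 => by
    rw [← mul_sub, hsgA]
    exact hF j i a1 a2 a3
  have hms : ∀ j : Fin (k + 1), |sg * (pos (x 0) i₀ - md μ s i₀) - sg * (pos (x j.succ) i₀ - md μ s i₀)| =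
      |pos (x 0) i₀ - pos (x j.succ) i₀| := fun j => by
    rw [← mul_sub, hsgA]
    congr 1
    ring
  obtain ⟨Y, hY, hY1, hY2⟩ := line_ex P (sg * (pos (x 0) i₀ - md μ s i₀)) hP
  refine ⟨sg, Y, hsg, hY, fun i a1 a2 a3 => ?_⟩
  have f0 := hFs 0 i a1 a2 a3
  have fl := hFs l.succ i a1 a2 a3
  have fm := hFs m.succ i a1 a2 a3
  have b0 := abs_le.1 (show |sg * (pos (x 0) i - md μ s i) - sg * (pos (x 0) i₀ - md μ s i₀)| ≤ _ from le_rfl)
  have bl := abs_le.1 (show |sg * (pos (x l.succ) i - md μ s i) - sg * (pos (x l.succ) i₀ - md μ s i₀)| ≤ _ from le_rfl)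
  have bm := abs_le.1 (show |sg * (pos (x m.succ) i - md μ s i) - sg * (pos (x m.succ) i₀ - md μ s i₀)| ≤ _ from le_rfl)
  have hl1 := h1.trans (hmin l)
  have hm2 := h2
  rw [← hms m] at hm2
  have hm3 := abs_lt.1 hm2
  refine ⟨⟨?_, ?_, ?_⟩, ?_, ?_, fun j hj => ?_⟩
  · linarith [b0.1]
  · linarith [b0.2]
  · linarith [b0.1]
  · linarith [bl.2]
  · rw [abs_le]
    constructor
    · linarith [bm.1, hm3.2]
    · linarith [bm.2, hm3.1]
  · have fj := hFs j.succ i a1 a2 a3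
    have bj := abs_le.1 (show |sg * (pos (x j.succ) i - md μ s i) - sg * (pos (x j.succ) i₀ - md μ s i₀)| ≤ _ from le_rfl)
    have hj1 := hmin j
    rw [← hms j] at hj1
    rcases le_abs.1 (h1.trans hj1) with h | h
    · linarith [bj.2, hj.1]
    · linarith [bj.1, hj.2]

/-- What the window of a far replica gives. -/
structure FarS (μ : Measure ℝ) (s : ℝ) {k : ℕ} (W : WT) (sg Y : ℤ) (l m : Fin (k + 1)) (x : Fin (k + 2) → Finset ℕ) : Prop where
  sgn : sg = 1 ∨ sg = -1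
  dvd : (((2 ^ W.1 : ℕ)) : ℤ) ∣ Y
  near : |sg * (pos (x m.succ) W.2.1 - md μ s W.2.1) - Y| ≤ ((2 ^ (W.1 + 6) : ℕ) : ℤ)
  inL : InL μ s sg W.2.2 Y (x l.succ)
  inR : InR μ s sg W.2.2 Y ((2 ^ (W.1 + 3) : ℕ) : ℤ) (x 0)
  mar : ∀ i ∈ W.2.2, (2 : ℤ) ^ W.1 ≤ 8 * (sg * (pos (x 0) i - md μ s i) - Y)
  out : ∀ j : Fin (k + 1), ∀ i ∈ W.2.2, ¬ (Y < sg * (pos (x j.succ) i - md μ s i) ∧
    sg * (pos (x j.succ) i - md μ s i) ≤ Y + 2 ^ (W.1 + 4))

open scoped Classical in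
/-- The windows inside of the block. -/
def WB (rt : Bool) (N t τ : ℕ) (n1 : ℕ → ℕ) (e0 E a c d : ℕ) : Finset WT :=
  (WL rt N t τ n1 e0 E a).filter fun W => W.2.2 ⊆ Ioo c d

theorem far_windowB (rt : Bool) {t τ i₀ k : ℕ} {n1 : ℕ → ℕ} {e0 E a : ℕ} {x : Fin (k + 2) → Finset ℕ} (h1 : τ ≤ i₀) (h2 : i₀ ≤ τ + t / 4)
    (hN : i₀ ≤ N) (hd : ∀ m : Fin (k + 1), (2 : ℤ) ^ (e0 + 4) ≤ |pos (x 0) i₀ - pos (x m.succ) i₀|)
    (hE : ∀ m : Fin (k + 1), |pos (x 0) i₀ - pos (x m.succ) i₀| < (2 : ℤ) ^ (E + 2))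
    (hF : ∀ j, FlatP μ s N e0 E n1 (x j)) (hn : ∀ g, e0 ≤ g → g ≤ E → 2048 * 2 ^ a ≤ n1 g) (l : Fin (k + 1)) {c d : ℕ} (hdN : d ≤ N)
    (hbc : ∀ i ≤ c, pos (x 0) i = pos (x l.succ) i) (hbd : ∀ i, d ≤ i → pos (x 0) i = pos (x l.succ) i) :
    ∃ W ∈ WB rt N t τ n1 e0 E a c d, ∃ sg Y : ℤ, ∃ m : Fin (k + 1), FarS μ s W sg Y l m x := by
  classical
  -- the nearest own replica
  obtain ⟨m, -, hm'⟩ := Finset.exists_min_image (univ : Finset (Fin (k + 1))) (fun m => |pos (x 0) i₀ - pos (x m.succ) i₀|)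
    ⟨0, mem_univ _⟩
  have hmin : ∀ j : Fin (k + 1), |pos (x 0) i₀ - pos (x m.succ) i₀| ≤ |pos (x 0) i₀ - pos (x j.succ) i₀| := fun j =>
    hm' j (mem_univ _)
  -- the scale of the distance
  obtain ⟨g, hg0, hgE, g1, g2⟩ : ∃ g, e0 ≤ g ∧ g ≤ E ∧ (2 : ℤ) ^ (g + 4) ≤ |pos (x 0) i₀ - pos (x m.succ) i₀| ∧
      |pos (x 0) i₀ - pos (x m.succ) i₀| < (2 : ℤ) ^ (g + 5) := by
    have key : ∀ z : ℕ, 2 ^ (e0 + 4) ≤ z → z < 2 ^ (E + 2) → ∃ g, e0 ≤ g ∧ g ≤ E ∧ 2 ^ (g + 4) ≤ z ∧ z < 2 ^ (g + 5) := by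
      intro z hz1 hz2
      have hz0 : z ≠ 0 := by
        have := Nat.one_le_two_pow (n := e0 + 4)
        omega
      have k1 : e0 + 4 ≤ Nat.log 2 z := (Nat.le_log_iff_pow_le (by norm_num) hz0).2 hz1
      have k2 := (Nat.log_lt_iff_lt_pow (b := 2) (by norm_num) hz0).2 hz2
      have k3 := Nat.pow_log_le_self 2 hz0
      have k4 := Nat.lt_pow_succ_log_self (b := 2) (by norm_num) z
      obtain ⟨m, hm⟩ : ∃ m, Nat.log 2 z = m + 4 := ⟨Nat.log 2 z - 4, by omega⟩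
      rw [hm] at k1 k2 k3 k4
      exact ⟨m, by omega, by omega, k3, k4⟩
    obtain ⟨g, g1, g2, g3, g4⟩ := key (pos (x 0) i₀ - pos (x m.succ) i₀).natAbs (by zify; exact hd m) (by zify; exact hE m)
    refine ⟨g, g1, g2, ?_, ?_⟩
    · zify at g3
      exact g3
    · zify at g4
      exact g4
  have hng := hn g hg0 hgE
  have hPa := Nat.one_le_two_pow (n := a)
  obtain ⟨sg, Y, hsg, hY, hwin⟩ := far_coreB (μ := μ) (s := s) (N := N) (n := n1 g) (x := x) (l := l) g1 g2 hmin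
    (fun j i c1 c2 c3 => by
      rcases le_total i i₀ with h | h
      · rw [abs_sub_comm]
        exact hF j g hg0 hgE i i₀ h hN c3
      · exact hF j g hg0 hgE i₀ i h c1 c2)
  -- the new replica is different from the own one at all rows of the window
  have hne : ∀ i, i ≤ N → i ≤ i₀ + n1 g → i₀ ≤ i + n1 g → pos (x 0) i ≠ pos (x l.succ) i := by
    intro i a1 a2 a3 he
    have h3 := hwin i a1 a2 a3
    have h4 := h3.1.1
    have h5 := h3.2.1
    rw [he] at h4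
    linarith
  have hci : c < i₀ := by
    by_contra hcon
    exact hne i₀ hN (by omega) (by omega) (hbc i₀ (by omega))
  have hdi : i₀ < d := by
    by_contra hcon
    exact hne i₀ hN (by omega) (by omega) (hbd i₀ (by omega))
  have hst : c + n1 g < i₀ := by
    by_contra hcon
    exact hne c (by omega) (by omega) (by omega) (hbc c le_rfl)
  have hen : i₀ + n1 g < d := by
    by_contra hcon
    exact hne d hdN (by omega) (by omega) (hbd d le_rfl)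
  -- the grid point
  obtain ⟨q, hq⟩ : ∃ q, q = n1 g / 4 := ⟨_, rfl⟩
  have hq1 : 1 ≤ q := by omega
  obtain ⟨j, hj⟩ : ∃ j, j = (i₀ - τ) / q := ⟨_, rfl⟩
  have hm1 : j * q ≤ i₀ - τ := by rw [hj]; exact Nat.div_mul_le_self _ _
  have hm2 : i₀ - τ < j * q + q := by rw [hj]; exact Nat.lt_div_mul_add (by omega)
  have hm3 : j ≤ t / 4 / q := by rw [hj]; exact Nat.div_le_div_right (by omega)
  obtain ⟨z, hz⟩ : ∃ z, z = wz rt τ q j := ⟨_, rfl⟩
  have hz1 : c < z ∧ z + q ≤ d ∧ i₀ ≤ z + 2 * q ∧ z + q ≤ i₀ + q := by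
    rw [hz]
    unfold wz
    rcases Bool.eq_false_or_eq_true rt with hr | hr
    · rw [if_pos hr]
      omega
    · rw [if_neg (by rw [hr]; simp)]
      omega
  have hGW := gwk_short (N := N) (n1 := n1) hg0 hgE hng (z := z) (by omega) (by rw [← hq]; omega) z
  rw [← hq] at hGW
  have hrow : ∀ i ∈ Ico z (z + q), i ≤ N ∧ i ≤ i₀ + n1 g ∧ i₀ ≤ i + n1 g := by
    intro i hi
    rw [mem_Ico] at hi
    omega
  refine ⟨(g, z, Ico z (z + q)), ?_, sg, Y, m, hsg, ?_, ?_, ?_, ?_, ?_, ?_⟩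
  · unfold WB
    rw [mem_filter, mem_WL]
    refine ⟨⟨⟨g, j, hg0, hgE, by rw [← hq]; exact hm3, ?_⟩, hGW⟩, fun i hi => ?_⟩
    · rw [← hq, ← hz]
    · have hi' : i ∈ Ico z (z + q) := hi
      rw [mem_Ico] at hi'
      rw [mem_Ioo]
      omega
  · push_cast
    exact hY
  · have h3 := (hwin z (by omega) (by omega) (by omega)).2.2.1
    push_cast
    exact h3
  · intro i hi
    have h3 := hrow i hi
    exact (hwin i h3.1 h3.2.1 h3.2.2).2.1
  · intro i hi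
    have h3 := hrow i hi
    have h4 := (hwin i h3.1 h3.2.1 h3.2.2).1
    push_cast
    exact ⟨h4.1, h4.2.1⟩
  · intro i hi
    have h3 := hrow i hi
    exact (hwin i h3.1 h3.2.1 h3.2.2).1.2.2
  · intro m' i hi
    have h3 := hrow i hi
    exact (hwin i h3.1 h3.2.1 h3.2.2).2.2.2 m'

/-! ### The conditional mean as a sum -/

open scoped Classical in
/-- The conditional law. -/
def rr13 {X Y : Type*} [Fintype X] [DecidableEq Y] (w : X → ℝ) (p : X → Y) (x v : X) : ℝ :=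
  (if p v = p x then Real.exp (w v) else 0) / VT31.fz w p x

theorem cE_eq_rr {X Y : Type*} [Fintype X] [DecidableEq Y] (w : X → ℝ) (p : X → Y) (f : X → ℝ) (x : X) :
    VT31.cE w p f x = ∑ v, rr13 w p x v * f v := by
  unfold VT31.cE rr13
  rw [sum_div]
  refine sum_congr rfl fun v _ => ?_
  by_cases h : p v = p x
  · rw [if_pos h, if_pos h]
    ring
  · rw [if_neg h, if_neg h]
    ring

theorem rr13_nonneg {X Y : Type*} [Fintype X] [DecidableEq Y] (w : X → ℝ) (p : X → Y) (x v : X) : 0 ≤ rr13 w p x v := by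
  haveI : Nonempty X := ⟨x⟩
  unfold rr13
  refine div_nonneg ?_ (VT31.fz_pos w p x).le
  split_ifs
  · exact (Real.exp_pos _).le
  · exact le_rfl

theorem rr13_fib {X Y : Type*} [Fintype X] [DecidableEq Y] {w : X → ℝ} {p : X → Y} {x v : X} (h : rr13 w p x v ≠ 0) : p v = p x := by
  by_contra hcon
  refine h ?_
  unfold rr13
  rw [if_neg hcon, zero_div]

/-- A mass which is at least `a` comes from one of the classes, or from the exceptional event. -/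
theorem ev_pick {α V : Type*} [Fintype V] {I : Finset α} {r F bad : V → ℝ} (hr : ∀ v, 0 ≤ r v) {ow : α → ℝ} {cl : α → V → ℝ}
    (hF : ∀ v, r v ≠ 0 → F v ≤ bad v + ∑ i ∈ I, ow i * cl i v) {a b : ℝ} (hb0 : 0 ≤ b) (hab : I.card * b ≤ a / 2)
    (how : ∀ i ∈ I, ow i = 0 ∨ ow i = 1) (h : a ≤ ∑ v, r v * F v) (hb : ∑ v, r v * bad v < a / 2) :
    ∃ i ∈ I, ow i = 1 ∧ b ≤ ∑ v, r v * cl i v := by
  by_contra hcon
  push Not at hcon
  have h1 : ∑ v, r v * F v ≤ ∑ v, r v * (bad v + ∑ i ∈ I, ow i * cl i v) := by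
    refine sum_le_sum fun v _ => ?_
    by_cases hv : r v = 0
    · rw [hv, zero_mul, zero_mul]
    · exact mul_le_mul_of_nonneg_left (hF v hv) (hr v)
  have h2 : ∑ v, r v * (bad v + ∑ i ∈ I, ow i * cl i v) = ∑ v, r v * bad v + ∑ i ∈ I, ow i * ∑ v, r v * cl i v := by
    simp only [mul_add, sum_add_distrib]
    congr 1
    simp only [mul_sum]
    rw [sum_comm]
    refine sum_congr rfl fun i _ => sum_congr rfl fun v _ => ?_
    ring
  have h3 : ∑ i ∈ I, ow i * ∑ v, r v * cl i v ≤ ∑ i ∈ I, b := by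
    refine sum_le_sum fun i hi => ?_
    rcases how i hi with h4 | h4
    · rw [h4, zero_mul]
      exact hb0
    · rw [h4, one_mul]
      exact (hcon i hi h4).le
  rw [sum_const, nsmul_eq_mul] at h3
  linarith

/-! ### The event inequality -/

/-- The closeness of the own replica `m` to the line and the divisibility. -/
def Ns6 (μ : Measure ℝ) (s : ℝ) {k : ℕ} (W : WT) (q : ℤ × ℤ) (m : Fin (k + 1)) (x : Fin (k + 1) → Px (Pn N y)) : Prop :=
  (((2 ^ W.1 : ℕ)) : ℤ) ∣ q.2 ∧ |q.1 * (pos (x m).1 W.2.1 - md μ s W.2.1) - q.2| ≤ ((2 ^ (W.1 + 6) : ℕ) : ℤ)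

open scoped Classical in
/-- The indicator of the conditions on the own replicas. -/
def Ow (μ : Measure ℝ) (s : ℝ) {k : ℕ} (V : Win) (nr : (Fin (k + 1) → Px (Pn N y)) → Prop) (l : Fin (k + 1))
    (x : Fin (k + 1) → Px (Pn N y)) : ℝ :=
  (if InL μ s V.sg V.J V.Y (x l).1 then 1 else 0) * (if nr x ∧ ∀ i : Fin k, Av μ s V (x (l.succAbove i)).1 then 1 else 0)

theorem PsG_eq {k : ℕ} (V : Win) (nr : (Fin (k + 1) → Px (Pn N y)) → Prop) (X : Env → (Fin (k + 1) → Px (Pn N y)) → ℝ)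
    (l : Fin (k + 1)) (η : Env) (x : Fin (k + 1) → Px (Pn N y)) : PsG μ s V nr X l η x = Ow μ s V nr l x * X η x := by
  unfold PsG Ow
  ring

theorem Ow_or {k : ℕ} (V : Win) (nr : (Fin (k + 1) → Px (Pn N y)) → Prop) (l : Fin (k + 1)) (x : Fin (k + 1) → Px (Pn N y)) :
    Ow μ s V nr l x = 0 ∨ Ow μ s V nr l x = 1 := by
  unfold Ow
  split_ifs <;> simp

/-- The indices: window, sign and line, nearest own replica. -/
abbrev Ix (k : ℕ) := (WT × (ℤ × ℤ)) × Fin (k + 1)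

/-- The lines. -/
def QL (L : ℕ) : Finset (ℤ × ℤ) := ({1, -1} : Finset ℤ) ×ˢ Icc (-(6 * (L : ℤ))) (6 * L)

theorem card_QL (L : ℕ) : (QL L).card ≤ 2 * (12 * L + 1) := by
  unfold QL
  rw [card_product, Int.card_Icc]
  have h5 : ({1, -1} : Finset ℤ).card ≤ 2 := card_le_two
  have h6 : ((6 * L : ℤ) + 1 - -(6 * L : ℤ)).toNat = 12 * L + 1 := by omega
  rw [h6]
  exact Nat.mul_le_mul_right _ h5

/-- The window of an index. -/
def VI (N y a : ℕ) {k : ℕ} (i : Ix k) : Win := winE N (y : ℤ) a i.1.1 N i.1.2.1 i.1.2.2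

open scoped Classical in
/-- **The pointwise inequality** for the new replica `v` in the fibre of the own replica `l`. -/
theorem far_pointB (rt : Bool) {L t τ k : ℕ} {δ ε₁ : ℝ} {n1 : ℕ → ℕ} {e0 E : ℕ} {p : Par} (hp : POk μ s t n1 e0 E p)
    (hFl : ∀ S, S ⊆ range N → NSp μ s L N ε₁ S → FlatP μ s N e0 E n1 S)
    (hE : ∀ S S' : Finset ℕ, S ⊆ range N → S' ⊆ range N → NSp μ s L N ε₁ S → NSp μ s L N ε₁ S' → ∀ i ≤ N,
      |pos S i - pos S' i| < (2 : ℤ) ^ (E + 2))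
    (he : (2 : ℝ) ^ (e0 + 4) ≤ (L : ℝ) ^ (-δ) * wd' μ s t) (hE3 : 2 ^ (E + 3) ≤ L) (hm0 : ∀ j, 0 ≤ md μ s j)
    (hm1 : ∀ j, md μ s j ≤ j) (hNL : N ≤ L) {c d : ℕ} (hdN : d ≤ N) (l : Fin (k + 1))
    (x : Fin (k + 1) → Px (Pn N y)) (hx : ∀ j, NSp μ s L N ε₁ (x j).1) (v : Px (Pn N y)) (hv : pJ c d v = pJ c d (x l)) :
    (if FarAt μ s L δ N t τ (pt (Fin.cons v x : Fin (k + 2) → Px (Pn N y))) then (1 : ℝ) else 0) ≤
      (if ¬ NSp μ s L N ε₁ v.1 ∨ ¬ TVp μ s N p v.1 then (1 : ℝ) else 0) +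
        ∑ i ∈ (WB rt N t τ n1 e0 E p.a c d ×ˢ QL L) ×ˢ (univ : Finset (Fin (k + 1))),
          Ow μ s (VI N y p.a i) (Ns6 μ s i.1.1 i.1.2 i.2) l x *
            (if cE μ s (VI N y p.a i) p.L p.e p.C p.i₀ p.i₁ (pos v.1) then 1 else 0) := by
  have t0 : ∀ i : Ix k, 0 ≤ Ow μ s (VI N y p.a i) (Ns6 μ s i.1.1 i.1.2 i.2) l x *
      (if cE μ s (VI N y p.a i) p.L p.e p.C p.i₀ p.i₁ (pos v.1) then (1 : ℝ) else 0) := fun i =>
    mul_nonneg (by rcases Ow_or (μ := μ) (s := s) (VI N y p.a i) (Ns6 μ s i.1.1 i.1.2 i.2) l x with h | h <;> rw [h] <;> norm_num)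
      (by split_ifs <;> norm_num)
  have s3 := sum_nonneg (s := (WB rt N t τ n1 e0 E p.a c d ×ˢ QL L) ×ˢ (univ : Finset (Fin (k + 1)))) fun i _ => t0 i
  by_cases hF : FarAt μ s L δ N t τ (pt (Fin.cons v x : Fin (k + 2) → Px (Pn N y)))
  swap
  · rw [if_neg hF]
    have : (0 : ℝ) ≤ (if ¬ NSp μ s L N ε₁ v.1 ∨ ¬ TVp μ s N p v.1 then (1 : ℝ) else 0) := by split_ifs <;> norm_num
    linarith
  rw [if_pos hF]
  by_cases hN : NSp μ s L N ε₁ v.1
  swap
  · rw [if_pos (Or.inl hN)]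
    linarith
  by_cases hT : TVp μ s N p v.1
  swap
  · rw [if_pos (Or.inr hT)]
    linarith
  rw [if_neg (by push Not; exact ⟨hN, hT⟩), zero_add]
  -- the window
  obtain ⟨X, hX⟩ : ∃ X : Fin (k + 2) → Finset ℕ, X = pt (Fin.cons v x : Fin (k + 2) → Px (Pn N y)) := ⟨_, rfl⟩
  have hX0 : X 0 = v.1 := by rw [hX]; rfl
  have hXs : ∀ j : Fin (k + 1), X j.succ = (x j).1 := fun j => by rw [hX]; rfl
  rw [← hX] at hF
  obtain ⟨i₀, g1, g2, g3, g4⟩ := hF
  have hsub : ∀ j, X j ⊆ range N := by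
    intro j
    refine Fin.cases ?_ (fun i => ?_) j
    · rw [hX0]
      exact (mem_Pn.1 v.2).1
    · rw [hXs]
      exact (mem_Pn.1 (x i).2).1
  have hns : ∀ j, NSp μ s L N ε₁ (X j) := by
    intro j
    refine Fin.cases ?_ (fun i => ?_) j
    · rw [hX0]
      exact hN
    · rw [hXs]
      exact hx i
  obtain ⟨W, hW, sg, Y, m, hfar⟩ := far_windowB (μ := μ) (s := s) (N := N) rt (x := X) (a := p.a) g1 g2 g3
    (fun m => by
      have := he.trans (g4 m)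
      have h3 : (((2 : ℤ) ^ (e0 + 4) : ℤ) : ℝ) ≤ ((|pos (X 0) i₀ - pos (X m.succ) i₀| : ℤ) : ℝ) := by
        push_cast at this ⊢
        exact this
      exact_mod_cast h3)
    (fun m => hE _ _ (hsub 0) (hsub m.succ) (hns 0) (hns m.succ) i₀ g3) (fun j => hFl _ (hsub j) (hns j)) hp.an1 l
    (c := c) (d := d) hdN
    (fun i hi => by
      rw [hX0, hXs]
      exact ps_of_le hv hi)
    (fun i hi => by
      rw [hX0, hXs]
      exact ps_of_ge hv hi)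
  have hWL : W ∈ WL rt N t τ n1 e0 E p.a := (mem_filter.1 hW).1
  have hG := (mem_WL.1 hWL).2
  have hTV : TVp μ s N p (X 0) := by rw [hX0]; exact hT
  have hcE := cE_ofG hp hG hTV hfar.inR hfar.mar (y : ℤ) N
  have hmem : (sg, Y) ∈ QL L := by
    unfold QL
    rw [mem_product, mem_insert, mem_singleton, mem_Icc]
    refine ⟨hfar.sgn, ?_⟩
    have h3 := abs_le.1 hfar.near
    have h4 := pos_nonneg (X m.succ) W.2.1
    have h5 := pos_le (X m.succ) W.2.1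
    have g5 := hm0 W.2.1
    have g6 := hm1 W.2.1
    have g7 : (W.2.1 : ℤ) ≤ L := by
      obtain ⟨⟨g, m, -, -, -, hWe⟩, -⟩ := mem_WL.1 hWL
      have h9 : ∀ i ∈ W.2.2, 1 ≤ i ∧ i < N := hG.row
      have h10 := hG.ne
      obtain ⟨T, hT⟩ := h10
      have h11 := (mem_stv.1 hT).2.2 (mem_Icc.2 ⟨le_rfl, Nat.le_add_right _ _⟩)
      have h12 := (h9 T h11).2
      have h13 : W.2.1 ≤ T := by
        rw [hWe] at h11 ⊢
        exact (mem_Ico.1 h11).1
      have : W.2.1 ≤ L := by omega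
      exact_mod_cast this
    -- the line is close to the new replica
    have hne : (winE N (y : ℤ) p.a W N sg Y).J.Nonempty := winE_J_ne hG.ne
    obtain ⟨T, hT⟩ := hne
    have hT2 := winE_J _ _ _ _ _ _ _ hT
    have h14 := hfar.inR T hT2
    have h15 : ((2 ^ (W.1 + 3) : ℕ) : ℤ) ≤ L := by
      have h9 : 2 ^ (W.1 + 3) ≤ 2 ^ (E + 3) := Nat.pow_le_pow_right (by norm_num) (by have := hG.le; omega)
      exact_mod_cast h9.trans hE3
    have h16 := pos_nonneg (X 0) T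
    have h17 := pos_le (X 0) T
    have h18 := hm0 T
    have h19 := hm1 T
    have h20 : (T : ℤ) ≤ L := by
      have := (hG.row T hT2).2
      exact_mod_cast (by omega : T ≤ L)
    have h21 : Y < sg * (pos (X 0) T - md μ s T) ∧ sg * (pos (X 0) T - md μ s T) ≤ Y + L := ⟨h14.1, h14.2.trans (by linarith)⟩
    rcases hfar.sgn with h6 | h6
    · rw [h6] at h21
      constructor <;> linarith [h21.1, h21.2]
    · rw [h6] at h21
      constructor <;> linarith [h21.1, h21.2]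
  have hIx : (((W, (sg, Y)), m) : Ix k) ∈ (WB rt N t τ n1 e0 E p.a c d ×ˢ QL L) ×ˢ (univ : Finset (Fin (k + 1))) := by
    rw [mem_product, mem_product]
    exact ⟨⟨hW, hmem⟩, mem_univ _⟩
  refine le_trans ?_ (single_le_sum (f := fun i : Ix k => Ow μ s (VI N y p.a i) (Ns6 μ s i.1.1 i.1.2 i.2) l x *
            (if cE μ s (VI N y p.a i) p.L p.e p.C p.i₀ p.i₁ (pos v.1) then (1 : ℝ) else 0)) (fun i _ => t0 i) hIx)
  have hOw : Ow μ s (VI N y p.a (((W, (sg, Y)), m) : Ix k)) (Ns6 μ s W (sg, Y) m) l x = 1 := by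
    unfold Ow
    rw [if_pos, if_pos, one_mul]
    · refine ⟨⟨hfar.dvd, ?_⟩, fun i j hj hc => ?_⟩
      · have := hfar.near
        rw [hXs] at this
        exact this
      · have h3 := hfar.out (l.succAbove i) j (winE_J _ _ _ _ _ _ _ hj)
        rw [hXs] at h3
        exact h3 hc
    · intro i hi
      have := hfar.inL i (winE_J _ _ _ _ _ _ _ hi)
      rw [hXs] at this
      exact this
  dsimp only
  rw [hOw, one_mul, if_pos]
  rw [hX0] at hcE
  exact hcE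

end

end Pool.Agent.W_7d29a1_C0.F13
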