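import Pool.Agent.W_7d29a1_C0.FarP13C

/-!
C0, helper13: FAR13 FOR PLANS OF REPLICAS, fourth part: the sum over the windows and the lines.
-/

set_option autoImplicit false

namespace Pool.Agent.W_7d29a1_C0.F13

open MeasureTheory ProbabilityTheory Filter Topology Finset
open Pool.Agent.W_7d29a1_F Pool.Agent.W_7d29a1_X Pool.Agent.W_7d29a1_H Pool.Agent.W_7d29a1_HZ
open Pool.Agent.W_7d29a1_HS (In wd md)
open Pool.Agent.W_7d29a1_HZ.ZE
open Pool.Agent.W_7d29a1_HZ.R72 (FlatP)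
open Pool.Agent.W_7d29a1_HZ.Z15 (kC ZC)
open Pool.Agent.W_7d29a1_HZ.Z86.GX (WT)
open Pool.Agent.W_7d29a1_Z17 (card_grid)
open Pool.Agent.W_7d29a1_ZE (Win Br)
open Pool.Agent.W_7d29a1_C0.Mod92 (Px Pn lw pos_card ne_Pn pJ ps_of_le ps_of_ge)
open Pool.W7d29a1.C0 (gz gm gz_pos gz_ne)
open Pool.W7d29a1.C0
open scoped ENNReal

noncomputable section

variable {μ : Measure ℝ} {s : ℝ} {N y : ℕ}

/-! ### Measurability of the conditional means -/

theorem cE_meas13 (c d : ℕ) (f : Px (Pn N y) → ℝ) (S : Px (Pn N y)) :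
    Measurable fun η : Env => VT31.cE (lw μ s η N (Pn N y)) (pJ c d) f S := by
  have e : (fun η : Env => VT31.cE (lw μ s η N (Pn N y)) (pJ c d) f S) = fun η : Env =>
      (∑ v : Px (Pn N y), if pJ c d v = pJ c d S then pth μ s η N v.1 * f v else 0) /
        ∑ v : Px (Pn N y), if pJ c d v = pJ c d S then pth μ s η N v.1 else 0 := by
    funext η
    unfold VT31.cE VT31.fz
    congr 1
    · exact sum_congr rfl fun v _ => by rw [exp_lw]
    · exact sum_congr rfl fun v _ => by rw [exp_lw]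
  rw [e]
  refine Measurable.div (Finset.measurable_sum _ fun v _ => ?_) (Finset.measurable_sum _ fun v _ => ?_)
  · by_cases h : pJ c d v = pJ c d S
    · simp only [h, if_true]
      exact (Pool.Agent.W_7d29a1_C0.Mod92.meas_pth N v.1).mul_const _
    · simp only [h, if_false]
      exact measurable_const
  · by_cases h : pJ c d v = pJ c d S
    · simp only [h, if_true]
      exact Pool.Agent.W_7d29a1_C0.Mod92.meas_pth N v.1
    · simp only [h, if_false]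
      exact measurable_const

open scoped Classical in
theorem ind_meas13 (c d : ℕ) (f : Px (Pn N y) → ℝ) (S : Px (Pn N y)) (a : ℝ) :
    Measurable fun η : Env => if a ≤ VT31.cE (lw μ s η N (Pn N y)) (pJ c d) f S then (1 : ℝ) else 0 :=
  Measurable.ite (measurableSet_le measurable_const (cE_meas13 c d f S)) measurable_const measurable_const

/-! ### One path -/

theorem sum_gm (η : Env) (f : Px (Pn N y) → ℝ) :
    ∑ S : Px (Pn N y), pth μ s η N S.1 / ZC μ s N (y : ℤ) η * f S = gm (lw μ s η N (Pn N y)) f := by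
  unfold gm
  rw [gz_lw, sum_div]
  refine sum_congr rfl fun S _ => ?_
  rw [exp_lw]
  ring

open scoped Classical in
/-- The mass of an exceptional set of paths. -/
theorem gm_path [IsProbabilityMeasure μ] (hy : y ≤ N) (B : Finset ℕ → Prop) {p : ℝ} (hp : 0 ≤ p)
    (h : P1 μ s N (y : ℤ) (fun _ S => B S) ≤ ENNReal.ofReal p) :
    ∫ η, gm (lw μ s η N (Pn N y)) (fun S => if B S.1 then 1 else 0) ∂(law μ) ≤ p := by
  have h1 := rep_path0 hy B hp h (k := 0) 0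
  refine le_trans (le_of_eq ?_) h1
  refine integral_congr_ae (Filter.Eventually.of_forall fun η => ?_)
  show gm (lw μ s η N (Pn N y)) (fun S => if B S.1 then 1 else 0) = rep (0 + 1) (lw μ s η N (Pn N y)) (fun x => if B (x 0).1 then 1 else 0)
  rw [rep_coord hy η (k := 0) 0 (fun S : Px (Pn N y) => if B S.1 then (1 : ℝ) else 0), sum_gm]

theorem gm_nonneg13 (η : Env) {f : Px (Pn N y) → ℝ} (hf : ∀ S, 0 ≤ f S) : 0 ≤ gm (lw μ s η N (Pn N y)) f := by
  unfold gm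
  exact div_nonneg (sum_nonneg fun S _ => mul_nonneg (Real.exp_pos _).le (hf S)) (sum_nonneg fun S _ => (Real.exp_pos _).le)

theorem gm_meas13 (f : Px (Pn N y) → ℝ) : Measurable fun η : Env => gm (lw μ s η N (Pn N y)) f := by
  have e : (fun η : Env => gm (lw μ s η N (Pn N y)) f) = fun η => ∑ S : Px (Pn N y), pth μ s η N S.1 / ZC μ s N (y : ℤ) η * f S := by
    funext η
    rw [sum_gm]
  rw [e]
  exact Finset.measurable_sum _ fun S _ => ((Pool.Agent.W_7d29a1_C0.Mod92.meas_pth N S.1).div (ZC_meas N (y : ℤ))).mul_const _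

theorem gm_int13 [IsProbabilityMeasure μ] (hy : y ≤ N) {f : Px (Pn N y) → ℝ} (h0 : ∀ S, 0 ≤ f S) (h1 : ∀ S, f S ≤ 1) :
    Integrable (fun η : Env => gm (lw μ s η N (Pn N y)) f) (law μ) := by
  have hne : Nonempty (Px (Pn N y)) := ne_Pn hy
  refine Integrable.of_bound (gm_meas13 f).aestronglyMeasurable 1 (Filter.Eventually.of_forall fun η => ?_)
  rw [Real.norm_eq_abs, abs_of_nonneg (gm_nonneg13 η h0)]
  unfold gm
  rw [div_le_one (gz_pos _)]
  exact sum_le_sum fun S _ => mul_le_of_le_one_right (Real.exp_pos _).le (h1 S)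

variable {k : ℕ} {ι : Type} {kd : (Fin (k + 1) → Px (Pn N y)) → ι} {A : Env → (Fin (k + 1) → Px (Pn N y)) → ℝ} {Zq : ι → Env → ℝ}

open scoped Classical in
/-- The exceptional own replicas. -/
theorem own_path [IsProbabilityMeasure μ] (h : OwnD μ s N y kd A Zq) (hy : y ≤ N) (B : Finset ℕ → Prop) {p : ℝ} (hp : 0 ≤ p)
    (hB : P1 μ s N (y : ℤ) (fun _ S => B S) ≤ ENNReal.ofReal p) (j : Fin (k + 1)) :
    ∫ η, evD μ s N y kd A Zq η (fun x => if B (x j).1 then 1 else 0) ∂(law μ) ≤ p := by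
  refine le_trans (integral_mono_of_nonneg (Filter.Eventually.of_forall fun η => h.ev_nonneg hy η fun x => by split_ifs <;> norm_num)
    (gm_int13 hy (f := fun S => if B S.1 then 1 else 0) (fun S => by split_ifs <;> norm_num) (fun S => by split_ifs <;> norm_num))
    (Filter.Eventually.of_forall fun η => ?_)) (gm_path hy B hp hB)
  have h1 := h.ev_coord hy η j (b := fun S : Px (Pn N y) => if B S.1 then (1 : ℝ) else 0) (fun S => by split_ifs <;> norm_num)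
  rw [sum_gm] at h1
  exact h1

open scoped Classical in
/-- The exceptional conditional masses. -/
theorem own_mass [IsProbabilityMeasure μ] (h : OwnD μ s N y kd A Zq) (hy : y ≤ N) (B : Finset ℕ → Prop) {p a : ℝ} (hp : 0 ≤ p)
    (hB : P1 μ s N (y : ℤ) (fun _ S => B S) ≤ ENNReal.ofReal p) (ha : 0 < a) (c d : ℕ) (l : Fin (k + 1)) :
    ∫ η, evD μ s N y kd A Zq η (fun x => if a ≤ VT31.cE (lw μ s η N (Pn N y)) (pJ c d) (fun v => if B v.1 then 1 else 0) (x l)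
      then 1 else 0) ∂(law μ) ≤ a⁻¹ * p := by
  have hne : Nonempty (Px (Pn N y)) := ne_Pn hy
  have h2 := gm_path hy B hp hB
  have h3 := mul_le_mul_of_nonneg_left h2 (inv_pos.2 ha).le
  rw [← integral_const_mul] at h3
  refine le_trans (integral_mono_of_nonneg (Filter.Eventually.of_forall fun η => h.ev_nonneg hy η fun x => by split_ifs <;> norm_num)
    ((gm_int13 hy (f := fun S => if B S.1 then 1 else 0) (fun S => by split_ifs <;> norm_num)
      (fun S => by split_ifs <;> norm_num)).const_mul _) (Filter.Eventually.of_forall fun η => ?_)) h3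
  have h1 := h.ev_coord hy η l (b := fun S : Px (Pn N y) => if a ≤ VT31.cE (lw μ s η N (Pn N y)) (pJ c d) (fun v => if B v.1 then 1 else 0) S
      then (1 : ℝ) else 0) (fun S => by split_ifs <;> norm_num)
  refine h1.trans ?_
  have h4 : ∑ S : Px (Pn N y), pth μ s η N S.1 / ZC μ s N (y : ℤ) η *
      (if a ≤ VT31.cE (lw μ s η N (Pn N y)) (pJ c d) (fun v => if B v.1 then 1 else 0) S then (1 : ℝ) else 0) ≤
      ∑ S : Px (Pn N y), pth μ s η N S.1 / ZC μ s N (y : ℤ) η *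
        (a⁻¹ * VT31.cE (lw μ s η N (Pn N y)) (pJ c d) (fun v => if B v.1 then 1 else 0) S) := by
    refine sum_le_sum fun S _ => mul_le_mul_of_nonneg_left ?_ (div_nonneg (pth_pos13 η N _).le (ZC_pos13 hy η).le)
    have h5 : 0 ≤ VT31.cE (lw μ s η N (Pn N y)) (pJ c d) (fun v => if B v.1 then 1 else 0) S :=
      VT31.cE_nonneg _ _ (fun v => by split_ifs <;> norm_num) S
    split_ifs with h6
    · have := mul_le_mul_of_nonneg_left h6 (inv_pos.2 ha).le
      rwa [inv_mul_cancel₀ ha.ne'] at this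
    · exact mul_nonneg (inv_pos.2 ha).le h5
  refine h4.trans (le_of_eq ?_)
  have h6 : ∑ S : Px (Pn N y), pth μ s η N S.1 / ZC μ s N (y : ℤ) η *
        (a⁻¹ * VT31.cE (lw μ s η N (Pn N y)) (pJ c d) (fun v => if B v.1 then 1 else 0) S) =
      a⁻¹ * ∑ S : Px (Pn N y), pth μ s η N S.1 / ZC μ s N (y : ℤ) η *
        VT31.cE (lw μ s η N (Pn N y)) (pJ c d) (fun v => if B v.1 then 1 else 0) S := by
    rw [mul_sum]
    exact sum_congr rfl fun S _ => by ring
  rw [h6, sum_gm, VT31.gm_cE]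

theorem own_path' [IsProbabilityMeasure μ] (h : OwnD μ s N y kd A Zq) (hy : y ≤ N) (B : Finset ℕ → Prop) [DecidablePred B] {p : ℝ}
    (hp : 0 ≤ p) (hB : P1 μ s N (y : ℤ) (fun _ S => B S) ≤ ENNReal.ofReal p) (j : Fin (k + 1)) :
    ∫ η, evD μ s N y kd A Zq η (fun x => if B (x j).1 then 1 else 0) ∂(law μ) ≤ p := by
  convert own_path h hy B hp hB j

open scoped Classical in
theorem own_mass' [IsProbabilityMeasure μ] (h : OwnD μ s N y kd A Zq) (hy : y ≤ N) (B : Finset ℕ → Prop) [DecidablePred B] {p a : ℝ}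
    (hp : 0 ≤ p) (hB : P1 μ s N (y : ℤ) (fun _ S => B S) ≤ ENNReal.ofReal p) (ha : 0 < a) (c d : ℕ) (l : Fin (k + 1)) :
    ∫ η, evD μ s N y kd A Zq η (fun x => if a ≤ VT31.cE (lw μ s η N (Pn N y)) (pJ c d) (fun v => if B v.1 then 1 else 0) (x l)
      then 1 else 0) ∂(law μ) ≤ a⁻¹ * p := by
  convert own_mass h hy B hp hB ha c d l

/-! ### The event -/

open scoped Classical in
/-- The conditional mass of the new replica which is far from all own replicas. -/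
def mFar (μ : Measure ℝ) (s : ℝ) (N y : ℕ) (L : ℕ) (δ : ℝ) (t τ c d : ℕ) (l : Fin (k + 1)) (η : Env)
    (x : Fin (k + 1) → Px (Pn N y)) : ℝ :=
  VT31.cE (lw μ s η N (Pn N y)) (pJ c d)
    (fun v => if FarAt μ s L δ N t τ (pt (Fin.cons v x : Fin (k + 2) → Px (Pn N y))) then 1 else 0) (x l)

open scoped Classical in
/-- **The event inequality.** -/
theorem far_eventB (rt : Bool) {L t τ : ℕ} {δ ε₁ : ℝ} {n1 : ℕ → ℕ} {e0 E : ℕ} {p : Par} (hp : POk μ s t n1 e0 E p)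
    (hFl : ∀ S, S ⊆ range N → NSp μ s L N ε₁ S → FlatP μ s N e0 E n1 S)
    (hE : ∀ S S' : Finset ℕ, S ⊆ range N → S' ⊆ range N → NSp μ s L N ε₁ S → NSp μ s L N ε₁ S' → ∀ i ≤ N,
      |pos S i - pos S' i| < (2 : ℤ) ^ (E + 2))
    (he : (2 : ℝ) ^ (e0 + 4) ≤ (L : ℝ) ^ (-δ) * wd' μ s t) (hE3 : 2 ^ (E + 3) ≤ L) (hm0 : ∀ j, 0 ≤ md μ s j)
    (hm1 : ∀ j, md μ s j ≤ j) (hNL : N ≤ L) {c d : ℕ} (hdN : d ≤ N) (l : Fin (k + 1)) {M0 M : ℝ}
    (hM : (((WB rt N t τ n1 e0 E p.a c d ×ˢ QL L) ×ˢ (univ : Finset (Fin (k + 1)))).card : ℝ) * Real.exp (-M) ≤ Real.exp (-M0) / 2)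
    {X : Env → (Fin (k + 1) → Px (Pn N y)) → ℝ} (h0 : ∀ η x, 0 ≤ X η x) (h1 : ∀ η x, X η x ≤ 1) (η : Env)
    (x : Fin (k + 1) → Px (Pn N y)) :
    (if Real.exp (-M0) ≤ mFar μ s N y L δ t τ c d l η x then 1 else 0) * X η x ≤
      (∑ j : Fin (k + 1), (if ¬ NSp μ s L N ε₁ (x j).1 then (1 : ℝ) else 0)) +
        (if Real.exp (-M0) / 2 ≤ VT31.cE (lw μ s η N (Pn N y)) (pJ c d)
          (fun v => if ¬ NSp μ s L N ε₁ v.1 ∨ ¬ TVp μ s N p v.1 then 1 else 0) (x l) then (1 : ℝ) else 0) +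
        ∑ i ∈ (WB rt N t τ n1 e0 E p.a c d ×ˢ QL L) ×ˢ (univ : Finset (Fin (k + 1))),
          (if Real.exp (-M) ≤ VT31.cE (lw μ s η N (Pn N y)) (pJ c d)
            (fun v => if cE μ s (VI N y p.a i) p.L p.e p.C p.i₀ p.i₁ (pos v.1) then 1 else 0) (x l) then 1 else 0) *
          PsG μ s (VI N y p.a i) (Ns6 μ s i.1.1 i.1.2 i.2) X l η x := by
  have hX0 := h0 η x
  have hX1 := h1 η x
  have s1 : 0 ≤ ∑ j : Fin (k + 1), (if ¬ NSp μ s L N ε₁ (x j).1 then (1 : ℝ) else 0) :=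
    sum_nonneg fun j _ => by split_ifs <;> norm_num
  have s2 : (0 : ℝ) ≤ (if Real.exp (-M0) / 2 ≤ VT31.cE (lw μ s η N (Pn N y)) (pJ c d)
          (fun v => if ¬ NSp μ s L N ε₁ v.1 ∨ ¬ TVp μ s N p v.1 then 1 else 0) (x l) then (1 : ℝ) else 0) := by
    split_ifs <;> norm_num
  have t0 : ∀ i : Ix k, 0 ≤ (if Real.exp (-M) ≤ VT31.cE (lw μ s η N (Pn N y)) (pJ c d)
            (fun v => if cE μ s (VI N y p.a i) p.L p.e p.C p.i₀ p.i₁ (pos v.1) then 1 else 0) (x l) then (1 : ℝ) else 0) *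
          PsG μ s (VI N y p.a i) (Ns6 μ s i.1.1 i.1.2 i.2) X l η x := fun i =>
    mul_nonneg (by split_ifs <;> norm_num) (PsG_nonneg h0 l η _)
  have s3 := sum_nonneg (s := (WB rt N t τ n1 e0 E p.a c d ×ˢ QL L) ×ˢ (univ : Finset (Fin (k + 1)))) fun i _ => t0 i
  by_cases hev : Real.exp (-M0) ≤ mFar μ s N y L δ t τ c d l η x
  swap
  · rw [if_neg hev, zero_mul]
    linarith
  rw [if_pos hev, one_mul]
  by_cases hN : ∀ j, NSp μ s L N ε₁ (x j).1
  swap
  · push Not at hN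
    obtain ⟨j, hj⟩ := hN
    have : (1 : ℝ) ≤ ∑ j : Fin (k + 1), (if ¬ NSp μ s L N ε₁ (x j).1 then (1 : ℝ) else 0) := by
      refine le_trans ?_ (single_le_sum (f := fun j : Fin (k + 1) => if ¬ NSp μ s L N ε₁ (x j).1 then (1 : ℝ) else 0)
        (fun j _ => by split_ifs <;> norm_num) (mem_univ j))
      rw [if_pos hj]
    linarith
  by_cases hb : Real.exp (-M0) / 2 ≤ VT31.cE (lw μ s η N (Pn N y)) (pJ c d)
          (fun v => if ¬ NSp μ s L N ε₁ v.1 ∨ ¬ TVp μ s N p v.1 then 1 else 0) (x l)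
  · rw [if_pos hb] at s2 ⊢
    linarith
  push Not at hb
  unfold mFar at hev
  rw [cE_eq_rr] at hev hb
  obtain ⟨i, hi, hi1, hi2⟩ := ev_pick (r := rr13 (lw μ s η N (Pn N y)) (pJ c d) (x l)) (fun v => rr13_nonneg _ _ _ v)
    (ow := fun i : Ix k => Ow μ s (VI N y p.a i) (Ns6 μ s i.1.1 i.1.2 i.2) l x)
    (cl := fun (i : Ix k) (v : Px (Pn N y)) => if cE μ s (VI N y p.a i) p.L p.e p.C p.i₀ p.i₁ (pos v.1) then (1 : ℝ) else 0)
    (I := (WB rt N t τ n1 e0 E p.a c d ×ˢ QL L) ×ˢ (univ : Finset (Fin (k + 1))))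
    (fun v hv => far_pointB rt hp hFl hE he hE3 hm0 hm1 hNL hdN l x hN v (rr13_fib hv)) (Real.exp_pos (-M)).le hM
    (fun i _ => Ow_or _ _ _ _) hev hb
  refine le_trans ?_ (le_add_of_nonneg_left (add_nonneg s1 s2))
  refine le_trans ?_ (single_le_sum (f := fun i : Ix k => (if Real.exp (-M) ≤ VT31.cE (lw μ s η N (Pn N y)) (pJ c d)
            (fun v => if cE μ s (VI N y p.a i) p.L p.e p.C p.i₀ p.i₁ (pos v.1) then 1 else 0) (x l) then (1 : ℝ) else 0) *
          PsG μ s (VI N y p.a i) (Ns6 μ s i.1.1 i.1.2 i.2) X l η x) (fun i _ => t0 i) hi)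
  rw [cE_eq_rr, if_pos hi2, one_mul, PsG_eq, hi1, one_mul]

/-! ### The count of the lines -/

open scoped Classical in
/-- The number of the lines close to a path. -/
theorem count_lines6 (L : ℕ) (W : WT) (m : Fin (k + 1)) (x : Fin (k + 1) → Px (Pn N y)) :
    ∑ q ∈ QL L, (if Ns6 μ s W q m x then (1 : ℝ) else 0) ≤ 260 := by
  obtain ⟨G, hG⟩ : ∃ G : Finset ℤ, G = Icc (-(6 * (L : ℤ))) (6 * L) := ⟨_, rfl⟩
  obtain ⟨z, hz⟩ : ∃ z : ℤ, z = pos (x m).1 W.2.1 - md μ s W.2.1 := ⟨_, rfl⟩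
  rw [← sum_filter, sum_const, nsmul_eq_mul, mul_one]
  have h2 : (QL L).filter (fun q => Ns6 μ s W q m x) ⊆
      ((G.filter fun Y => (((2 ^ W.1 : ℕ)) : ℤ) ∣ Y ∧ |z - Y| ≤ ((2 ^ (W.1 + 6) : ℕ) : ℤ)).image fun Y => ((1 : ℤ), Y)) ∪
      ((G.filter fun Y => (((2 ^ W.1 : ℕ)) : ℤ) ∣ Y ∧ |(-z) - Y| ≤ ((2 ^ (W.1 + 6) : ℕ) : ℤ)).image fun Y => ((-1 : ℤ), Y)) := by
    intro q hq
    unfold QL at hq
    rw [mem_filter, mem_product, mem_insert, mem_singleton, ← hG] at hq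
    obtain ⟨⟨h3, h4⟩, h5, h6⟩ := hq
    rw [← hz] at h6
    rw [mem_union, mem_image, mem_image]
    rcases h3 with h3 | h3
    · left
      refine ⟨q.2, ?_, Prod.ext h3.symm rfl⟩
      rw [mem_filter]
      refine ⟨h4, h5, ?_⟩
      rw [h3, one_mul] at h6
      exact h6
    · right
      refine ⟨q.2, ?_, Prod.ext h3.symm rfl⟩
      rw [mem_filter]
      refine ⟨h4, h5, ?_⟩
      rw [h3, neg_one_mul] at h6
      exact h6
  have h3 := (card_le_card h2).trans ((card_union_le _ _).trans (add_le_add card_image_le card_image_le))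
  have h4 := card_grid G (Nat.one_le_two_pow (n := W.1)) z (2 ^ (W.1 + 6))
  have h5 := card_grid G (Nat.one_le_two_pow (n := W.1)) (-z) (2 ^ (W.1 + 6))
  have h7 : (((2 ^ (W.1 + 6) : ℕ)) : ℝ) / ((2 ^ W.1 : ℕ) : ℝ) = 64 := by
    have h8 : (0 : ℝ) < 2 ^ W.1 := by positivity
    push_cast
    rw [div_eq_iff h8.ne', pow_add]
    ring
  rw [h7] at h4 h5
  have h6 : (((QL L).filter (fun q => Ns6 μ s W q m x)).card : ℝ) ≤
      ((G.filter fun Y => (((2 ^ W.1 : ℕ)) : ℤ) ∣ Y ∧ |z - Y| ≤ ((2 ^ (W.1 + 6) : ℕ) : ℤ)).card : ℝ) +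
      ((G.filter fun Y => (((2 ^ W.1 : ℕ)) : ℤ) ∣ Y ∧ |(-z) - Y| ≤ ((2 ^ (W.1 + 6) : ℕ) : ℤ)).card : ℝ) := by
    exact_mod_cast h3
  linarith

/-- The sum of the observables of the lines. -/
theorem sum_PsG_le (L a : ℕ) (Ws : Finset WT) {X : Env → (Fin (k + 1) → Px (Pn N y)) → ℝ} (h0 : ∀ η x, 0 ≤ X η x) (l : Fin (k + 1)) (η : Env)
    (x : Fin (k + 1) → Px (Pn N y)) :
    ∑ i ∈ (Ws ×ˢ QL L) ×ˢ (univ : Finset (Fin (k + 1))), PsG μ s (VI N y a i) (Ns6 μ s i.1.1 i.1.2 i.2) X l η x ≤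
      260 * (k + 1) * Ws.card * X η x := by
  classical
  have h1 : ∀ i : Ix k, PsG μ s (VI N y a i) (Ns6 μ s i.1.1 i.1.2 i.2) X l η x ≤ (if Ns6 μ s i.1.1 i.1.2 i.2 x then 1 else 0) * X η x := by
    intro i
    unfold PsG
    have := h0 η x
    by_cases hn : Ns6 μ s i.1.1 i.1.2 i.2 x
    · rw [if_pos hn]
      split_ifs <;> linarith
    · have hn' : ¬ (Ns6 μ s i.1.1 i.1.2 i.2 x ∧ ∀ j : Fin k, Av μ s (VI N y a i) (x (l.succAbove j)).1) := fun hcon => hn hcon.1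
      rw [if_neg hn, zero_mul, if_neg hn', zero_mul, mul_zero]
  refine (sum_le_sum fun i _ => h1 i).trans ?_
  rw [← sum_mul]
  refine mul_le_mul_of_nonneg_right ?_ (h0 η x)
  rw [sum_product]
  simp only
  rw [sum_comm]
  have h2 : ∀ m ∈ (univ : Finset (Fin (k + 1))), ∑ j ∈ Ws ×ˢ QL L, (if Ns6 μ s j.1 j.2 m x then (1 : ℝ) else 0) ≤ 260 * Ws.card := by
    intro m _
    rw [sum_product]
    refine (sum_le_sum fun W _ => count_lines6 (μ := μ) (s := s) L W m x).trans (le_of_eq ?_)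
    rw [sum_const, nsmul_eq_mul]
    ring
  refine (sum_le_sum h2).trans (le_of_eq ?_)
  rw [sum_const, card_univ, Fintype.card_fin, nsmul_eq_mul]
  push_cast
  ring

end

end Pool.Agent.W_7d29a1_C0.F13
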