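import Pool.Agent.W_7d29a1_C0.FarP13D

/-!
C0, helper13: FAR13 FOR PLANS OF REPLICAS, fifth part: the sum over the windows and the lines, integrated.
-/

set_option autoImplicit false

namespace Pool.Agent.W_7d29a1_C0.F13

open MeasureTheory ProbabilityTheory Filter Topology Finset
open Pool.Agent.W_7d29a1_F Pool.Agent.W_7d29a1_X Pool.Agent.W_7d29a1_H Pool.Agent.W_7d29a1_HZ
open Pool.Agent.W_7d29a1_HS (In wd md)
open Pool.Agent.W_7d29a1_HZ.ZE
open Pool.Agent.W_7d29a1_HZ.R72 (FlatP)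
open Pool.Agent.W_7d29a1_HZ.Z15 (kC ZC)
open Pool.Agent.W_7d29a1_HZ.Z86 (Nm wd'_one_le)
open Pool.Agent.W_7d29a1_HZ.Z86.GX (WT numWX)
open Pool.Agent.W_7d29a1_ZE (Win Br)
open Pool.Agent.W_7d29a1_C0.Mod92 (Px Pn lw pos_card ne_Pn pJ ps_of_le ps_of_ge)
open Pool.W7d29a1.C0 (gz gm gz_pos gz_ne)
open Pool.W7d29a1.C0
open scoped ENNReal

noncomputable section

variable {μ : Measure ℝ} {s : ℝ} {N y : ℕ}

variable {k : ℕ} {ι : Type} {kd : (Fin (k + 1) → Px (Pn N y)) → ι} {A : Env → (Fin (k + 1) → Px (Pn N y)) → ℝ} {Zq : ι → Env → ℝ}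

theorem evD_add (η : Env) (Ψ Φ : (Fin (k + 1) → Px (Pn N y)) → ℝ) :
    evD μ s N y kd A Zq η (fun x => Ψ x + Φ x) = evD μ s N y kd A Zq η Ψ + evD μ s N y kd A Zq η Φ := by
  unfold evD
  rw [← sum_add_distrib]
  exact sum_congr rfl fun x _ => mul_add _ _ _

theorem evD_sum {α : Type*} (I : Finset α) (η : Env) (Ψ : α → (Fin (k + 1) → Px (Pn N y)) → ℝ) :
    evD μ s N y kd A Zq η (fun x => ∑ j ∈ I, Ψ j x) = ∑ j ∈ I, evD μ s N y kd A Zq η (Ψ j) := by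
  unfold evD
  rw [sum_comm]
  exact sum_congr rfl fun x _ => mul_sum _ _ _

theorem evD_smul (η : Env) (a : ℝ) (Ψ : (Fin (k + 1) → Px (Pn N y)) → ℝ) :
    evD μ s N y kd A Zq η (fun x => a * Ψ x) = a * evD μ s N y kd A Zq η Ψ := by
  unfold evD
  rw [mul_sum]
  exact sum_congr rfl fun x _ => by ring

theorem P1_or13 (A B : Finset ℕ → Prop) : P1 μ s N (y : ℤ) (fun _ S => A S ∨ B S) ≤
    P1 μ s N (y : ℤ) (fun _ S => A S) + P1 μ s N (y : ℤ) (fun _ S => B S) := by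
  have e1 : ∀ A : Finset ℕ → Prop, PR μ s N (y : ℤ) (fun _ _ => 1) (fun _ S => A S) = P1 μ s N (y : ℤ) (fun _ S => A S) := by
    intro A
    unfold PR P1
    simp only [mul_one]
  rw [← e1, ← e1, ← e1]
  exact PR_or (fun _ S => A S) fun _ S => B S

open scoped Classical in
/-- The sum over the windows and the lines. -/
theorem far_sumG [IsProbabilityMeasure μ] (h : OwnD μ s N y kd A Zq) [Fintype ι] (hy : y ≤ N) (rt : Bool) {L t τ : ℕ} {δ ε₁ : ℝ}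
    {n1 : ℕ → ℕ} {e0 E : ℕ} {p : Par}
    (hp : POk μ s t n1 e0 E p) (hFl : ∀ S, S ⊆ range N → NSp μ s L N ε₁ S → FlatP μ s N e0 E n1 S)
    (hE : ∀ S S' : Finset ℕ, S ⊆ range N → S' ⊆ range N → NSp μ s L N ε₁ S → NSp μ s L N ε₁ S' → ∀ i ≤ N,
      |pos S i - pos S' i| < (2 : ℤ) ^ (E + 2))
    (he : (2 : ℝ) ^ (e0 + 4) ≤ (L : ℝ) ^ (-δ) * wd' μ s t) (hE3 : 2 ^ (E + 3) ≤ L) (hm0 : ∀ j, 0 ≤ md μ s j)
    (hm1 : ∀ j, md μ s j ≤ j) (hNL : N ≤ L) {z d' M0 M : ℝ} (hz : 0 ≤ z) (hd : 0 ≤ d') (hM1 : 1 ≤ M)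
    (hT : TieInG μ s p N (y : ℤ) n1 e0 E z d') {p₁ p₂ : ℝ} (hp₁ : 0 ≤ p₁) (hp₂ : 0 ≤ p₂)
    (hns : P1 μ s N (y : ℤ) (fun _ S => ¬ NSp μ s L N ε₁ S) ≤ ENNReal.ofReal p₁)
    (htv : P1 μ s N (y : ℤ) (fun _ S => ¬ TVp μ s N p S) ≤ ENNReal.ofReal p₂) {c d : ℕ} (hcd : c ≤ d) (hdN : d ≤ N) (l : Fin (k + 1))
    (hM : (((WB rt N t τ n1 e0 E p.a c d ×ˢ QL L) ×ˢ (univ : Finset (Fin (k + 1)))).card : ℝ) * Real.exp (-M) ≤ Real.exp (-M0) / 2)
    {X : Env → (Fin (k + 1) → Px (Pn N y)) → ℝ} (hm : ∀ x, Measurable fun η => X η x) (h0 : ∀ η x, 0 ≤ X η x)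
    (h1 : ∀ η x, X η x ≤ 1) (hoff : OffV (rowsB rt N t τ ∩ Ioo c d) X) :
    ∫ η, evD μ s N y kd A Zq η (fun x => (if Real.exp (-M0) ≤ mFar μ s N y L δ t τ c d l η x then 1 else 0) * X η x) ∂(law μ) ≤
      z * M * (260 * (k + 1) * (WB rt N t τ n1 e0 E p.a c d).card) * ∫ η, evD μ s N y kd A Zq η (X η) ∂(law μ) +
        (((k + 1) * p₁ + 2 * Real.exp M0 * (p₁ + p₂)) +
          (((WB rt N t τ n1 e0 E p.a c d ×ˢ QL L) ×ˢ (univ : Finset (Fin (k + 1)))).card : ℝ) * (Fintype.card ι * d')) := by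
  obtain ⟨I, hI⟩ : ∃ I : Finset (Ix k), I = (WB rt N t τ n1 e0 E p.a c d ×ˢ QL L) ×ˢ (univ : Finset (Fin (k + 1))) := ⟨_, rfl⟩
  obtain ⟨g, hg⟩ : ∃ g : Ix k → Env → (Fin (k + 1) → Px (Pn N y)) → ℝ, g = fun i η x =>
    (if Real.exp (-M) ≤ VT31.cE (lw μ s η N (Pn N y)) (pJ c d)
            (fun v => if cE μ s (VI N y p.a i) p.L p.e p.C p.i₀ p.i₁ (pos v.1) then 1 else 0) (x l) then 1 else 0) *
          PsG μ s (VI N y p.a i) (Ns6 μ s i.1.1 i.1.2 i.2) X l η x := ⟨_, rfl⟩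
  obtain ⟨bd, hbd⟩ : ∃ bd : Env → (Fin (k + 1) → Px (Pn N y)) → ℝ, bd = fun η x =>
    if Real.exp (-M0) / 2 ≤ VT31.cE (lw μ s η N (Pn N y)) (pJ c d)
          (fun v => if ¬ NSp μ s L N ε₁ v.1 ∨ ¬ TVp μ s N p v.1 then 1 else 0) (x l) then (1 : ℝ) else 0 := ⟨_, rfl⟩
  have hg0 : ∀ i η x, 0 ≤ g i η x := fun i η x => by
    rw [hg]
    exact mul_nonneg (by split_ifs <;> norm_num) (PsG_nonneg h0 l η _)
  have hg1 : ∀ i η x, g i η x ≤ 1 := fun i η x => by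
    rw [hg]
    exact mul_le_one₀ (by split_ifs <;> norm_num) (PsG_nonneg h0 l η _) ((PsG_le_X h0 l η x).trans (h1 η x))
  have hgm : ∀ i x, Measurable fun η => g i η x := fun i x => by
    rw [hg]
    exact (ind_meas13 c d _ (x l) _).mul (PsG_meas hm l x)
  have hbd0 : ∀ η x, 0 ≤ bd η x := fun η x => by
    rw [hbd]
    dsimp only
    split_ifs <;> norm_num
  have hbd1 : ∀ η x, bd η x ≤ 1 := fun η x => by
    rw [hbd]
    dsimp only
    split_ifs <;> norm_num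
  have hbdm : ∀ x, Measurable fun η => bd η x := fun x => by
    rw [hbd]
    exact ind_meas13 c d _ (x l) _
  -- integrability
  have iN : ∀ j : Fin (k + 1), Integrable (fun η => evD μ s N y kd A Zq η (fun x => if ¬ NSp μ s L N ε₁ (x j).1 then 1 else 0)) (law μ) :=
    fun j => h.ev_int hy (fun x => measurable_const) (fun η x => by split_ifs <;> norm_num) (fun η x => by split_ifs <;> norm_num)
  have iB : Integrable (fun η => evD μ s N y kd A Zq η (bd η)) (law μ) := h.ev_int hy hbdm hbd0 hbd1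
  have iG : ∀ i, Integrable (fun η => evD μ s N y kd A Zq η (g i η)) (law μ) := fun i => h.ev_int hy (hgm i) (hg0 i) (hg1 i)
  have iN' : Integrable (fun η => ∑ j : Fin (k + 1), evD μ s N y kd A Zq η (fun x => if ¬ NSp μ s L N ε₁ (x j).1 then 1 else 0)) (law μ) :=
    integrable_finsetSum _ fun j _ => iN j
  have iG' : Integrable (fun η => ∑ i ∈ I, evD μ s N y kd A Zq η (g i η)) (law μ) := integrable_finsetSum _ fun i _ => iG i
  -- the quenched inequality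
  have hq : ∀ η : Env, evD μ s N y kd A Zq η (fun x => (if Real.exp (-M0) ≤ mFar μ s N y L δ t τ c d l η x then 1 else 0) * X η x) ≤
      ((∑ j : Fin (k + 1), evD μ s N y kd A Zq η (fun x => if ¬ NSp μ s L N ε₁ (x j).1 then 1 else 0)) + evD μ s N y kd A Zq η (bd η)) +
        ∑ i ∈ I, evD μ s N y kd A Zq η (g i η) := by
    intro η
    have h2 := h.ev_mono hy η (far_eventB (μ := μ) (s := s) rt (τ := τ) hp hFl hE he hE3 hm0 hm1 hNL hdN l hM h0 h1 η)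
    refine h2.trans (le_of_eq ?_)
    rw [evD_add, evD_add, evD_sum, evD_sum, hI, hg, hbd]
  have hI2 := integral_mono_of_nonneg (μ := law μ) (Filter.Eventually.of_forall fun η => h.ev_nonneg hy η fun x =>
    mul_nonneg (by split_ifs <;> norm_num) (h0 η x)) ((iN'.add iB).add iG') (Filter.Eventually.of_forall hq)
  refine hI2.trans ?_
  rw [integral_add' (iN'.add iB) iG', integral_add' iN' iB, integral_finsetSum _ fun j _ => iN j, integral_finsetSum _ fun i _ => iG i]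
  have b1 : ∑ j : Fin (k + 1), ∫ η, evD μ s N y kd A Zq η (fun x => if ¬ NSp μ s L N ε₁ (x j).1 then 1 else 0) ∂(law μ) ≤
      (k + 1) * p₁ := by
    refine (sum_le_sum fun j _ => own_path' h hy (fun S => ¬ NSp μ s L N ε₁ S) hp₁ hns j).trans (le_of_eq ?_)
    rw [sum_const, card_univ, Fintype.card_fin, nsmul_eq_mul]
    push_cast
    ring
  have b2 : ∫ η, evD μ s N y kd A Zq η (bd η) ∂(law μ) ≤ 2 * Real.exp M0 * (p₁ + p₂) := by
    have h3 : P1 μ s N (y : ℤ) (fun _ S => ¬ NSp μ s L N ε₁ S ∨ ¬ TVp μ s N p S) ≤ ENNReal.ofReal (p₁ + p₂) := by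
      rw [ENNReal.ofReal_add hp₁ hp₂]
      exact (P1_or13 _ _).trans (add_le_add hns htv)
    have h4 := own_mass' h hy (fun S => ¬ NSp μ s L N ε₁ S ∨ ¬ TVp μ s N p S) (add_nonneg hp₁ hp₂) h3
      (a := Real.exp (-M0) / 2) (by positivity) c d l
    have h5 : (Real.exp (-M0) / 2)⁻¹ = 2 * Real.exp M0 := by
      rw [inv_div, Real.exp_neg, div_inv_eq_mul]
    rw [h5] at h4
    rw [hbd]
    exact h4
  have hzM : 0 ≤ z * M := mul_nonneg hz (by linarith)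
  have iP : ∀ i : Ix k, Integrable (fun η => evD μ s N y kd A Zq η (PsG μ s (VI N y p.a i) (Ns6 μ s i.1.1 i.1.2 i.2) X l η)) (law μ) :=
    fun i => h.ev_int hy (fun x => PsG_meas hm l x) (fun η x => PsG_nonneg h0 l η x) fun η x => (PsG_le_X h0 l η x).trans (h1 η x)
  -- one line
  have b3 : ∀ i ∈ I, ∫ η, evD μ s N y kd A Zq η (g i η) ∂(law μ) ≤
      z * M * ∫ η, evD μ s N y kd A Zq η (PsG μ s (VI N y p.a i) (Ns6 μ s i.1.1 i.1.2 i.2) X l η) ∂(law μ) + Fintype.card ι * d' := by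
    intro i hi
    rw [hI, mem_product, mem_product] at hi
    obtain ⟨⟨hW, hQ⟩, -⟩ := hi
    have hW' := mem_filter.1 hW
    have hGW := (mem_WL.1 hW'.1).2
    have hsg : i.1.2.1 = 1 ∨ i.1.2.1 = -1 := by
      unfold QL at hQ
      rw [mem_product, mem_insert, mem_singleton] at hQ
      exact hQ.1
    have hJr : (VI N y p.a i).J ⊆ i.1.1.2.2 := winE_J _ _ _ _ _ _ _
    have hJJr : (VI N y p.a i).JJ ⊆ i.1.1.2.2 := winE_JJ _ _ _ _ _ _ _
    rw [hg]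
    refine one_lineG h hy (V := VI N y p.a i) rfl rfl (hp.i₁a) hzM hd hcd hdN (fun r hr => mem_Ioo.1 (hW'.2 (hJJr hr))) hm h0 h1 l
      fun κ => ?_
    exact hT i.1.1 hGW N M hM1 i.1.2.1 i.1.2.2 hsg (Zq κ) (RG μ s N y kd A (VI N y p.a i) (Ns6 μ s i.1.1 i.1.2 i.2) X l κ)
      (RG_ok h hm h0 h1 l κ) (RG_blind h (hoff.mono (fun r hr => mem_inter.2 ⟨WL_rows hW'.1 (hJr hr), hW'.2 (hJr hr)⟩)) l κ)
  have b4 : ∑ i ∈ I, ∫ η, evD μ s N y kd A Zq η (PsG μ s (VI N y p.a i) (Ns6 μ s i.1.1 i.1.2 i.2) X l η) ∂(law μ) ≤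
      260 * (k + 1) * (WB rt N t τ n1 e0 E p.a c d).card * ∫ η, evD μ s N y kd A Zq η (X η) ∂(law μ) := by
    rw [← integral_finsetSum _ fun i _ => iP i, ← integral_const_mul]
    refine integral_mono (integrable_finsetSum _ fun i _ => iP i) ((h.ev_int hy hm h0 h1).const_mul _) fun η => ?_
    show ∑ i ∈ I, evD μ s N y kd A Zq η (PsG μ s (VI N y p.a i) (Ns6 μ s i.1.1 i.1.2 i.2) X l η) ≤
      260 * (k + 1) * (WB rt N t τ n1 e0 E p.a c d).card * evD μ s N y kd A Zq η (X η)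
    rw [← evD_sum, ← evD_smul, hI]
    exact h.ev_mono hy η fun x => sum_PsG_le L p.a (WB rt N t τ n1 e0 E p.a c d) h0 l η x
  have b5 : ∑ i ∈ I, ∫ η, evD μ s N y kd A Zq η (g i η) ∂(law μ) ≤
      z * M * (260 * (k + 1) * (WB rt N t τ n1 e0 E p.a c d).card * ∫ η, evD μ s N y kd A Zq η (X η) ∂(law μ)) +
        I.card * (Fintype.card ι * d') := by
    refine (sum_le_sum b3).trans ?_
    rw [sum_add_distrib, ← mul_sum, sum_const, nsmul_eq_mul]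
    exact add_le_add (mul_le_mul_of_nonneg_left b4 hzM) le_rfl
  rw [← hI]
  have b6 : z * M * (260 * (k + 1) * (WB rt N t τ n1 e0 E p.a c d).card) * ∫ η, evD μ s N y kd A Zq η (X η) ∂(law μ) =
      z * M * (260 * (k + 1) * (WB rt N t τ n1 e0 E p.a c d).card * ∫ η, evD μ s N y kd A Zq η (X η) ∂(law μ)) := by ring
  rw [b6]
  linarith

end

end Pool.Agent.W_7d29a1_C0.F13
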