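import Pool.Agent.W_7d29a1_C0.FarU57
import Pool.Agent.W_7d29a1_C0.Far13
import Pool.Agent.W_7d29a1_C0.Tg93

/-!
MP_7d29a1_pr, [CURV0] (helper57), leaf (T): THE FAR PRICE. After the Cauchy - Schwarz inequality over the rows the weight of two rows is
the product of the two own ties, told from one path, and of ONE far event at the larger one of the rows `z'`; everything else is blind
to the rows behind it, so `far13` is applicable: `far_price57`. `far_row57`: the sum over the rows of the far functionals `FV57` against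
the root of the variance, from the own prices alone.
-/

set_option autoImplicit false
set_option linter.unusedSectionVars false
set_option linter.unusedVariables false

namespace Pool.Agent.W_7d29a1_C0.InT57

open Finset MeasureTheory Pool.Agent.W_7d29a1_F Pool.Agent.W_7d29a1_X
open Pool.Agent.W_7d29a1_HS (In)
open Pool.Agent.W_7d29a1_HZ (wd' EE')
open Pool.Agent.W_7d29a1_H (sl)
open Pool.Agent.W_7d29a1_C0.Mod92 Pool.Agent.W_7d29a1_C0.Swap57 Pool.Agent.W_7d29a1_C0.NM82 Pool.Agent.W_7d29a1_C0.CutT57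
open Pool.Agent.W_7d29a1_C0.F13 (FarAt pt rowsB OffX far13)
open Pool.Agent.W_7d29a1_C0.T93 (pr2 rdist dist_sum_le avy_sqrt_mul_le)
open Pool.W7d29a1.C0 Pool.W7d29a1.C0.VT31
open Pool.W7d29a1.C0.Row39 (row_PP int_le_sqrt)
open Pool.W7d29a1.C0.H41 (Obs)

noncomputable section

/-! ### Replicas -/

section Abs

variable {X : Type*} [Fintype X] [Nonempty X]

/-- The first replica is free. -/
theorem rep_free57 (k : ℕ) (w : X → ℝ) (G : (Fin k → X) → X → ℝ) :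
    rep (k + 1) w (fun y => G (Fin.tail y) (y 0)) = rep k w fun x => gm w (G x) := by
  unfold rep gm
  rw [Pool.W7d29a1.C0.sum_cons, Finset.sum_comm]
  have e : ∀ (x : Fin k → X) (y : X), Real.exp (∑ i, w ((Fin.cons y x : Fin (k + 1) → X) i)) *
      G (Fin.tail (Fin.cons y x : Fin (k + 1) → X)) ((Fin.cons y x : Fin (k + 1) → X) 0) =
      Real.exp (∑ i, w (x i)) * (Real.exp (w y) * G x y) := fun x y => by
    rw [Fin.sum_univ_succ, Fin.cons_zero, Fin.tail_cons, Real.exp_add]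
    simp only [Fin.cons_succ]
    ring
  simp_rw [e, ← Finset.mul_sum]
  have hz := gz_ne w
  rw [Finset.sum_div, Finset.sum_div]
  refine Finset.sum_congr rfl fun x _ => ?_
  rw [pow_succ]
  field_simp

/-- A conditional mean does not see a constant on the fibre. -/
theorem cE_shift57 {Y : Type*} [DecidableEq Y] {w w' : X → ℝ} {p : X → Y} {S : X} {a : ℝ} (h : ∀ x, p x = p S → w' x = w x + a)
    (f : X → ℝ) : cE w' p f S = cE w p f S := by
  unfold cE fz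
  have h1 : ∀ g : X → ℝ, (∑ x', if p x' = p S then Real.exp (w' x') * g x' else 0) =
      Real.exp a * ∑ x', if p x' = p S then Real.exp (w x') * g x' else 0 := by
    intro g
    rw [mul_sum]
    refine sum_congr rfl fun x' _ => ?_
    split_ifs with h2
    · rw [h x' h2, Real.exp_add]
      ring
    · rw [mul_zero]
  have h2 := h1 (fun _ => 1)
  simp only [mul_one] at h2
  rw [h1, h2, mul_div_mul_left _ _ (Real.exp_pos _).ne']

end Abs

variable {μ : Measure ℝ} {s : ℝ} {N : ℕ} {Q : Finset (Finset ℕ)}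

/-! ### The own tie is blind to what is behind -/

/-- The two environments agree off the rows `[τ, N)`. -/
def Ag57 (N τ : ℕ) (η η' : Env) : Prop := ∀ q : Pt, ¬ (0 ≤ q.1 ∧ q.1.toNat ∈ Ico τ N) → η q = η' q

theorem lw_eq57 (η : Env) (S : Px Q) :
    lw μ s η N Q S = s * (ps S N : ℝ) - N * lam μ s + ∑ i ∈ range N, η ((i : ℤ) + 1, ps S (i + 1)) := by
  unfold lw pth ps
  rw [← Real.exp_sum, ← Real.exp_add, Real.log_exp]

theorem lw_ag57 {τ z : ℕ} {η η' : Env} (h : Ag57 N τ η η') (hz : z ≤ τ) {S S' : Px Q} (hS : pJ 0 z S' = pJ 0 z S) :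
    lw μ s η' N Q S' = lw μ s η N Q S' + (lw μ s η' N Q S - lw μ s η N Q S) := by
  have key : ∑ i ∈ range N, η' ((i : ℤ) + 1, ps S' (i + 1)) - ∑ i ∈ range N, η ((i : ℤ) + 1, ps S' (i + 1)) =
      ∑ i ∈ range N, η' ((i : ℤ) + 1, ps S (i + 1)) - ∑ i ∈ range N, η ((i : ℤ) + 1, ps S (i + 1)) := by
    rw [← sum_sub_distrib, ← sum_sub_distrib]
    refine sum_congr rfl fun i hi => ?_
    rcases lt_or_ge (i + 1) τ with h1 | h1
    · have h2 : ∀ x : ℤ, η ((i : ℤ) + 1, x) = η' ((i : ℤ) + 1, x) := fun x => h _ fun h3 => by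
        have h4 := (mem_Ico.1 h3.2).1
        have h5 : ((i : ℤ) + 1).toNat = i + 1 := by omega
        dsimp only at h4
        omega
      rw [h2, h2, sub_self, sub_self]
    · rw [ps_of_ge hS (show z ≤ i + 1 by omega)]
  have e1 : ps S' N = ps S N ∨ N < z := by
    rcases lt_or_ge N z with h1 | h1
    · exact Or.inr h1
    · exact Or.inl (ps_of_ge hS h1)
  rw [lw_eq57, lw_eq57, lw_eq57, lw_eq57]
  linarith [key]

theorem QA57_ag {τ a0 z z' : ℕ} [Nonempty (Px Q)] {η η' : Env} (h : Ag57 N τ η η') (hz : z' ≤ τ) (S : Px Q) :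
    QA57 (lw μ s η' N Q) a0 z z' S = QA57 (lw μ s η N Q) a0 z z' S :=
  cE_shift57 (fun _ hx => lw_ag57 h hz hx) _

theorem QA57_nonneg (w : Px Q → ℝ) (a0 z z' : ℕ) (S : Px Q) : 0 ≤ QA57 w a0 z z' S := by
  unfold QA57 cE fz
  refine div_nonneg (sum_nonneg fun x _ => ?_) (sum_nonneg fun x _ => ?_)
  · split_ifs
    · exact mul_nonneg (Real.exp_pos _).le (NI_nonneg _ _ _ _)
    · exact le_rfl
  · split_ifs
    · exact (Real.exp_pos _).le
    · exact le_rfl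

theorem QA57_le_one [SwQ Q] [Nonempty (Px Q)] (w : Px Q → ℝ) (a0 z z' : ℕ) (S : Px Q) : QA57 w a0 z z' S ≤ 1 :=
  (cE_mono w (pJ 0 z') (fun x => NI_le_one a0 z S x) S).trans_eq (by rw [cE_one])

theorem meas_QA57 {Ω : Type*} [MeasurableSpace Ω] {w : Ω → Px Q → ℝ} (hw : ∀ x, Measurable fun ω => w ω x)
    (a0 z z' : ℕ) (S : Px Q) : Measurable fun ω => QA57 (w ω) a0 z z' S :=
  meas_cE hw (f := fun _ => NI a0 z S) (fun _ => measurable_const) _ _

/-! ### The price -/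

/-- The far mass at the row `τ`. -/
def dm57 (w : Px Q → ℝ) (R : ℝ) (τ : ℕ) (S S' : Px Q) : ℝ := gm w fun v => ds57 R τ v S S'

theorem dm57_nonneg [Nonempty (Px Q)] (w : Px Q → ℝ) (R : ℝ) (τ : ℕ) (S S' : Px Q) : 0 ≤ dm57 w R τ S S' :=
  gm_nonneg _ fun v => ds57_nonneg R τ v S S'

theorem dm57_le_one [Nonempty (Px Q)] (w : Px Q → ℝ) (R : ℝ) (τ : ℕ) (S S' : Px Q) : dm57 w R τ S S' ≤ 1 :=
  (gm_mono' w fun v => ds57_le_one R τ v S S').trans_eq (gm_const w 1)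

theorem meas_dm57 {Ω : Type*} [MeasurableSpace Ω] [Nonempty (Px Q)] {w : Ω → Px Q → ℝ} (hw : ∀ x, Measurable fun ω => w ω x)
    (R : ℝ) (τ : ℕ) (S S' : Px Q) : Measurable fun ω => dm57 (w ω) R τ S S' :=
  meas_gm hw fun _ => measurable_const

/-- **THE FAR PRICE**: a third free replica at distance `≥ R` of two free replicas at the row `τ`, against any weight of these two which
does not see the rows `[τ, N)`. -/
theorem far_price57 [IsProbabilityMeasure μ] {c C : ℝ} {n₀ : ℕ} (h : In μ s c C n₀) : ∀ ε θ : ℝ, 0 < ε → 0 < θ → ∃ δ c' : ℝ,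
    0 < δ ∧ 0 < c' ∧ ∃ L₀ : ℕ, ∀ L : ℕ, L₀ ≤ L → ∀ N t : ℕ, L ≤ 16 * N → N ≤ L → (L : ℝ) ^ θ ≤ t → t ≤ N →
    ∀ y : ℕ, y ≤ N → |(y : ℝ) - sl μ s * N| ≤ ((L : ℝ) ^ δ * wd' μ s N) → ∀ (τ : ℕ), τ ≤ N → ∀ (R : ℝ),
    (L : ℝ) ^ (-δ) * wd' μ s t ≤ R → ∀ (X : Env → Px (Pn N y) → Px (Pn N y) → ℝ), (∀ S S', Measurable fun η => X η S S') →
    (∀ η S S', 0 ≤ X η S S') → (∀ η S S', X η S S' ≤ 1) → (∀ η η' : Env, Ag57 N τ η η' → ∀ S S', X η S S' = X η' S S') →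
    ∫ η, PP (lw μ s η N (Pn N y)) (fun S S' => X η S S' * dm57 (lw μ s η N (Pn N y)) R τ S S') ∂(law μ) ≤
      (L : ℝ) ^ ε * (EE' μ s t)⁻¹ * ∫ η, PP (lw μ s η N (Pn N y)) (X η) ∂(law μ) + Real.exp (-(L : ℝ) ^ c') := by
  classical
  intro ε θ hε hθ
  obtain ⟨δ, c', hδ, hc', L₀, hF⟩ := far13 h 1 ε θ hε hθ
  refine ⟨δ, c', hδ, hc', L₀, fun L hL N t hLN hNL htL htN y hy hyc τ hτ R hR X mX X0 X1 hX => ?_⟩
  have hne := ne_Pn hy
  obtain ⟨X', hX'⟩ : ∃ X' : Env → (Fin (1 + 1) → Px (Pn N y)) → ℝ, X' = fun η x => X η (x 0) (x 1) := ⟨_, rfl⟩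
  have k := hF L hL N t hLN hNL htL htN y hy hyc true τ X' (fun x => by rw [hX']; exact mX _ _)
    (fun η x => by rw [hX']; exact X0 _ _ _) (fun η x => by rw [hX']; exact X1 _ _ _) (fun η η' T hη => by
      rw [hX']
      exact hX η η' (fun q hq => hη q fun h1 => hq ⟨h1.1, by
        have h2 := h1.2
        unfold rowsB at h2
        rwa [if_pos rfl] at h2⟩) _ _)
  have mw : Measurable fun η : Env => lw μ s η N (Pn N y) := measurable_pi_lambda _ fun S => meas_lw S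
  refine le_trans ?_ (k.trans_eq ?_)
  · refine integral_mono_of_nonneg (ae_of_all _ fun η => PP_nonneg _ fun S S' =>
      mul_nonneg (X0 η S S') (dm57_nonneg _ _ _ _ _)) ?_ (ae_of_all _ fun η => ?_)
    · refine Integrable.of_bound (C := 1) (Measurable.aestronglyMeasurable ?_) (ae_of_all _ fun η => ?_)
      · exact H41.meas_rep mw (measurable_pi_lambda _ fun x => by
          refine Measurable.const_mul ?_ _
          rw [hX']
          exact mX _ _)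
      · rw [Real.norm_eq_abs]
        refine H41.abs_rep_le_of _ _ fun x => ?_
        have a1 : 0 ≤ X' η (Fin.tail x) := by rw [hX']; exact X0 _ _ _
        have a2 : X' η (Fin.tail x) ≤ 1 := by rw [hX']; exact X1 _ _ _
        split_ifs
        · rw [one_mul, abs_of_nonneg a1]
          exact a2
        · rw [zero_mul, abs_zero]
          exact zero_le_one
    · show PP (lw μ s η N (Pn N y)) (fun S S' => X η S S' * dm57 (lw μ s η N (Pn N y)) R τ S S') ≤ _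
      obtain ⟨G, hG⟩ : ∃ G : (Fin 2 → Px (Pn N y)) → Px (Pn N y) → ℝ, G = fun x v => X η (x 0) (x 1) * ds57 R τ v (x 0) (x 1) := ⟨_, rfl⟩
      have e1 : PP (lw μ s η N (Pn N y)) (fun S S' => X η S S' * dm57 (lw μ s η N (Pn N y)) R τ S S') =
          rep 2 (lw μ s η N (Pn N y)) fun x => gm (lw μ s η N (Pn N y)) (G x) := by
        unfold PP
        refine H41.rep_congr _ _ fun x => ?_
        show X η (x 0) (x 1) * dm57 (lw μ s η N (Pn N y)) R τ (x 0) (x 1) = _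
        rw [hG]
        unfold dm57
        rw [← gm_const_mul]
      rw [e1, ← rep_free57]
      refine rep_mono _ _ fun x => ?_
      rw [hG, hX']
      show X η (Fin.tail x 0) (Fin.tail x 1) * ds57 R τ (x 0) (Fin.tail x 0) (Fin.tail x 1) ≤
        (if FarAt μ s L δ N t τ (pt x) then 1 else 0) * X η (Fin.tail x 0) (Fin.tail x 1)
      rw [mul_comm]
      refine mul_le_mul_of_nonneg_right ?_ (X0 _ _ _)
      unfold ds57
      by_cases h1 : R ≤ |((ps (x 0) τ - ps (Fin.tail x 0) τ : ℤ) : ℝ)| ∧ R ≤ |((ps (x 0) τ - ps (Fin.tail x 1) τ : ℤ) : ℝ)|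
      · rw [if_pos h1, if_pos]
        refine ⟨τ, le_rfl, Nat.le_add_right _ _, hτ, fun m => ?_⟩
        have e2 : ∀ m : Fin 2, ((|pos (pt x 0) τ - pos (pt x m.succ) τ| : ℤ) : ℝ) =
            |((ps (x 0) τ - ps (Fin.tail x m) τ : ℤ) : ℝ)| := fun m => by
          rw [Int.cast_abs]
          rfl
        rw [e2]
        fin_cases m
        · exact hR.trans h1.1
        · exact hR.trans h1.2
      · rw [if_neg h1]
        split_ifs <;> norm_num
  · rw [hX']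
    rfl

/-! ### The sum over the rows -/

section Row

variable [SwQ Q] [Nonempty (Px Q)] {a0 z z' zt c : ℕ}

theorem NI_anti57 {m m' u : ℕ} (h : m ≤ m') (S S' : Px Q) : NI m u S S' ≤ NI m' u S S' := by
  unfold NI
  by_cases h1 : ∀ k, m ≤ k → k ≤ u → ps S k ≠ ps S' k
  · rw [if_pos h1, if_pos fun k hk hu => h1 k (h.trans hk) hu]
  · rw [if_neg h1]
    split_ifs <;> norm_num

/-- The weight of one row: the outer pair, the own tie, the far mass. -/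
def VV57 (w : Px Q → ℝ) (a0 z z' zt c : ℕ) (R : ℝ) (S S' : Px Q) : ℝ :=
  NI zt c S S' * (QA57 w a0 z z' S * dm57 w R z' S S')

theorem VV57_nonneg (w : Px Q → ℝ) (a0 z z' zt c : ℕ) (R : ℝ) (S S' : Px Q) : 0 ≤ VV57 w a0 z z' zt c R S S' :=
  mul_nonneg (NI_nonneg _ _ _ _) (mul_nonneg (QA57_nonneg _ _ _ _ _) (dm57_nonneg _ _ _ _ _))

theorem VV57_le_one (w : Px Q → ℝ) (a0 z z' zt c : ℕ) (R : ℝ) (S S' : Px Q) : VV57 w a0 z z' zt c R S S' ≤ 1 :=
  mul_le_one₀ (NI_le_one _ _ _ _) (mul_nonneg (QA57_nonneg _ _ _ _ _) (dm57_nonneg _ _ _ _ _))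
    (mul_le_one₀ (QA57_le_one _ _ _ _ _) (dm57_nonneg _ _ _ _ _) (dm57_le_one _ _ _ _ _))

theorem FV57_PP (w : Px Q → ℝ) (a0 z z' c : ℕ) (R : ℝ) (f : Px Q → ℝ) : FV57 w a0 z z' c R f =
    PP w fun S S' => (QA57 w a0 z z' S * dm57 w R z' S S' * NI z' c S S') * |f S - f S'| := by
  unfold FV57
  rw [← gm_gm_eq_PP]
  congr 1
  funext S
  rw [← gm_const_mul]
  congr 1
  funext S'
  unfold df57 dm57
  ring

theorem FV57_le_VV (hzt : z' ≤ zt) (w : Px Q → ℝ) (a0 z c : ℕ) (R : ℝ) (f : Px Q → ℝ) :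
    FV57 w a0 z z' c R f ≤ PP w fun S S' => VV57 w a0 z z' zt c R S S' * |f S - f S'| := by
  rw [FV57_PP]
  refine PP_mono w fun S S' => mul_le_mul_of_nonneg_right ?_ (abs_nonneg _)
  unfold VV57
  rw [mul_comm]
  exact mul_le_mul_of_nonneg_right (NI_anti57 hzt S S') (mul_nonneg (QA57_nonneg _ _ _ _ _) (dm57_nonneg _ _ _ _ _))

/-- The square of the weight of two rows: one far mass is enough. -/
theorem VV57_sq (w : Px Q → ℝ) {a z z' : ℕ → ℕ} (R : ℝ) (j k : ℕ) (S S' : Px Q) :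
    VV57 w (a j) (z j) (z' j) zt c R S S' * VV57 w (a k) (z k) (z' k) zt c R S S' ≤
      NI zt c S S' * (QA57 w (a j) (z j) (z' j) S * QA57 w (a k) (z k) (z' k) S) * dm57 w R (max (z' j) (z' k)) S S' := by
  unfold VV57
  have n0 := NI_nonneg zt c S S'
  have n1 := NI_le_one zt c S S'
  have qj := QA57_nonneg w (a j) (z j) (z' j) S
  have qk := QA57_nonneg w (a k) (z k) (z' k) S
  have dj := dm57_nonneg w R (z' j) S S'
  have dk := dm57_nonneg w R (z' k) S S'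
  have dj1 := dm57_le_one w R (z' j) S S'
  have dk1 := dm57_le_one w R (z' k) S S'
  have hq : 0 ≤ QA57 w (a j) (z j) (z' j) S * QA57 w (a k) (z k) (z' k) S := mul_nonneg qj qk
  have hd : dm57 w R (z' j) S S' * dm57 w R (z' k) S S' ≤ dm57 w R (max (z' j) (z' k)) S S' := by
    rcases le_total (z' j) (z' k) with h | h
    · rw [max_eq_right h]
      exact mul_le_of_le_one_left dk dj1
    · rw [max_eq_left h]
      exact mul_le_of_le_one_right dj dk1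
  calc NI zt c S S' * (QA57 w (a j) (z j) (z' j) S * dm57 w R (z' j) S S') *
        (NI zt c S S' * (QA57 w (a k) (z k) (z' k) S * dm57 w R (z' k) S S'))
      = (NI zt c S S' * NI zt c S S') * (QA57 w (a j) (z j) (z' j) S * QA57 w (a k) (z k) (z' k) S) *
          (dm57 w R (z' j) S S' * dm57 w R (z' k) S S') := by ring
    _ ≤ NI zt c S S' * (QA57 w (a j) (z j) (z' j) S * QA57 w (a k) (z k) (z' k) S) * dm57 w R (max (z' j) (z' k)) S S' := by
        refine mul_le_mul (mul_le_mul_of_nonneg_right (mul_le_of_le_one_right n0 n1) hq) hd (mul_nonneg dj dk) (mul_nonneg n0 hq)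

end Row

/-- A functional of the environment alone. -/
theorem int_fst57 [IsProbabilityMeasure μ] {Φ : Env → ℝ} (hm : Measurable Φ) {M : ℝ} (hb : ∀ η, |Φ η| ≤ M) :
    ∫ ω, Φ ω.1 ∂(Pm μ N) = ∫ η, Φ η ∂(law μ) := by
  have hi : Integrable Φ (law μ) := Integrable.of_bound hm.aestronglyMeasurable M (Filter.Eventually.of_forall fun η => by
    rw [Real.norm_eq_abs]
    exact hb η)
  have e : ∀ A ∈ (range N).powerset, ∫ η, Φ ((η, A) : Env × Finset ℕ).1 ∂(law μ) = ∫ η, Φ η ∂(law μ) := fun A _ => rfl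
  rw [int_Pm (Φ := fun ω => Φ ω.1) (fun A _ => hi) fun A => hm, sum_congr rfl e, sum_const, card_powerset, card_range, nsmul_eq_mul]
  push_cast
  rw [← mul_assoc, inv_mul_cancel₀ (by positivity), one_mul]

theorem meas_PP57 {Ω : Type*} [MeasurableSpace Ω] [Nonempty (Px Q)] {w : Ω → Px Q → ℝ} {K : Ω → Px Q → Px Q → ℝ}
    (hw : ∀ x, Measurable fun ω => w ω x) (hK : ∀ x x', Measurable fun ω => K ω x x') : Measurable fun ω => PP (w ω) (K ω) := by
  simp only [← gm_gm_eq_PP]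
  exact meas_gm hw fun x => meas_gm hw (hK x)

/-- The own tie of the row `j`, as a family. -/
def UA57 (μ : Measure ℝ) (s : ℝ) (N : ℕ) (a z z' : ℕ → ℕ) (j : ℕ) : Fam N := fun y ω x =>
  QA57 (wm μ s N (Pn N y) ω) (a j) (z j) (z' j) x

/-- The outer pair. -/
def NN57 (N zt d : ℕ) : T93.Fam2 N := fun _ _ x x' => NI zt d x x'

theorem abs_PP57 [Nonempty (Px Q)] (w : Px Q → ℝ) {K : Px Q → Px Q → ℝ} {D : ℝ} (h : ∀ x x', |K x x'| ≤ D) : |PP w K| ≤ D := by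
  unfold PP
  exact H41.abs_rep_le_of _ _ fun x => h _ _

section Fin

variable [IsProbabilityMeasure μ]

theorem int_PP57 [Nonempty (Px Q)] {w : Env × Finset ℕ → Px Q → ℝ} {K : Env × Finset ℕ → Px Q → Px Q → ℝ} {D : ℝ}
    (hw : ∀ x, Measurable fun ω => w ω x) (hK : ∀ x x', Measurable fun ω => K ω x x') (hD : ∀ ω x x', |K ω x x'| ≤ D) :
    Integrable (fun ω => PP (w ω) (K ω)) (Pm μ N) :=
  int_bdd (meas_PP57 hw hK) fun ω => abs_PP57 _ (hD ω)

theorem meas_VV57 {y : ℕ} [Nonempty (Px (Pn N y))] (a0 z z' zt d : ℕ) (R : ℝ) (S S' : Px (Pn N y)) :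
    Measurable fun ω : Env × Finset ℕ => VV57 (wm μ s N (Pn N y) ω) a0 z z' zt d R S S' :=
  ((meas_QA57 (fun x => meas_wm x) _ _ _ _).mul (meas_dm57 (fun x => meas_wm x) _ _ _ _)).const_mul _

/-- **The price of two rows.** -/
theorem far_pair57 {c C : ℝ} {n₀ : ℕ} (h : In μ s c C n₀) : ∀ ε θ : ℝ, 0 < ε → 0 < θ → ∃ δ c' : ℝ,
    0 < δ ∧ 0 < c' ∧ ∃ L₀ : ℕ, ∀ L : ℕ, L₀ ≤ L → ∀ N t : ℕ, L ≤ 16 * N → N ≤ L → (L : ℝ) ^ θ ≤ t → t ≤ N →
    ∀ y : ℕ, y ≤ N → |(y : ℝ) - sl μ s * N| ≤ ((L : ℝ) ^ δ * wd' μ s N) → ∀ (R : ℝ), (L : ℝ) ^ (-δ) * wd' μ s t ≤ R →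
    ∀ (a z z' : ℕ → ℕ) (zt d j k : ℕ), z' j ≤ N → z' k ≤ N →
    ∫ ω, PP (wm μ s N (Pn N y) ω) (fun S S' => VV57 (wm μ s N (Pn N y) ω) (a j) (z j) (z' j) zt d R S S' *
      VV57 (wm μ s N (Pn N y) ω) (a k) (z k) (z' k) zt d R S S') ∂(Pm μ N) ≤
      (L : ℝ) ^ ε * (EE' μ s t)⁻¹ * pr2 μ s N (NN57 N zt d) (UA57 μ s N a z z' j) (UA57 μ s N a z z' k) y +
        Real.exp (-(L : ℝ) ^ c') := by
  intro ε θ hε hθ
  obtain ⟨δ, c', hδ, hc', L₀, hF⟩ := far_price57 h ε θ hε hθ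
  refine ⟨δ, c', hδ, hc', L₀, fun L hL N t hLN hNL htL htN y hy hyc R hR a z z' zt d j k hj hk => ?_⟩
  have hne := ne_Pn hy
  obtain ⟨X, hX⟩ : ∃ X : Env → Px (Pn N y) → Px (Pn N y) → ℝ, X = fun η S S' => NI zt d S S' *
    (QA57 (lw μ s η N (Pn N y)) (a j) (z j) (z' j) S * QA57 (lw μ s η N (Pn N y)) (a k) (z k) (z' k) S) := ⟨_, rfl⟩
  have mX : ∀ S S', Measurable fun η => X η S S' := fun S S' => by
    rw [hX]
    exact ((meas_QA57 (fun x => meas_lw x) _ _ _ _).mul (meas_QA57 (fun x => meas_lw x) _ _ _ _)).const_mul _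
  have X0 : ∀ η S S', 0 ≤ X η S S' := fun η S S' => by
    rw [hX]
    exact mul_nonneg (NI_nonneg _ _ _ _) (mul_nonneg (QA57_nonneg _ _ _ _ _) (QA57_nonneg _ _ _ _ _))
  have X1 : ∀ η S S', X η S S' ≤ 1 := fun η S S' => by
    rw [hX]
    exact mul_le_one₀ (NI_le_one _ _ _ _) (mul_nonneg (QA57_nonneg _ _ _ _ _) (QA57_nonneg _ _ _ _ _))
      (mul_le_one₀ (QA57_le_one _ _ _ _ _) (QA57_nonneg _ _ _ _ _) (QA57_le_one _ _ _ _ _))
  obtain ⟨τ, hτ⟩ : ∃ τ : ℕ, τ = max (z' j) (z' k) := ⟨_, rfl⟩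
  have k1 := hF L hL N t hLN hNL htL htN y hy hyc τ (by rw [hτ]; exact max_le hj hk) R hR X mX X0 X1 (fun η η' hη S S' => by
    rw [hX]
    show NI zt d S S' * _ = NI zt d S S' * _
    rw [QA57_ag hη (by rw [hτ]; exact le_max_left _ _), QA57_ag hη (by rw [hτ]; exact le_max_right _ _)])
  have md : ∀ S S', Measurable fun η => X η S S' * dm57 (lw μ s η N (Pn N y)) R τ S S' := fun S S' =>
    (mX S S').mul (meas_dm57 (fun x => meas_lw x) _ _ _ _)
  have bd : ∀ η S S', |X η S S' * dm57 (lw μ s η N (Pn N y)) R τ S S'| ≤ 1 := fun η S S' => by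
    rw [abs_of_nonneg (mul_nonneg (X0 _ _ _) (dm57_nonneg _ _ _ _ _))]
    exact mul_le_one₀ (X1 _ _ _) (dm57_nonneg _ _ _ _ _) (dm57_le_one _ _ _ _ _)
  have e1 : ∫ η, PP (lw μ s η N (Pn N y)) (fun S S' => X η S S' * dm57 (lw μ s η N (Pn N y)) R τ S S') ∂(law μ) =
      ∫ ω, PP (wm μ s N (Pn N y) ω) (fun S S' => X ω.1 S S' * dm57 (wm μ s N (Pn N y) ω) R τ S S') ∂(Pm μ N) := by
    refine Eq.symm (int_fst57 (Φ := fun η => PP (lw μ s η N (Pn N y)) fun S S' => X η S S' * dm57 (lw μ s η N (Pn N y)) R τ S S')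
      (meas_PP57 (fun x => meas_lw x) md) (M := 1) fun η => abs_PP57 _ (bd η))
  have e2 : ∫ η, PP (lw μ s η N (Pn N y)) (X η) ∂(law μ) =
      pr2 μ s N (NN57 N zt d) (UA57 μ s N a z z' j) (UA57 μ s N a z z' k) y := by
    have e3 := int_fst57 (μ := μ) (N := N) (Φ := fun η => PP (lw μ s η N (Pn N y)) (X η)) (meas_PP57 (fun x => meas_lw x) mX)
      (M := 1) fun η => abs_PP57 _ fun x x' => by
        rw [abs_of_nonneg (X0 _ _ _)]
        exact X1 _ _ _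
    rw [← e3, hX]
    rfl
  rw [e1, e2] at k1
  refine le_trans ?_ k1
  refine integral_mono (int_PP57 (D := 1) (fun x => meas_wm x) (fun x x' => (meas_VV57 _ _ _ _ _ _ _ _).mul
    (meas_VV57 _ _ _ _ _ _ _ _)) fun ω x x' => ?_) (int_PP57 (D := 1) (fun x => meas_wm x)
    (fun x x' => (md x x').comp measurable_fst) fun ω x x' => bd ω.1 x x') fun ω => ?_
  · rw [abs_of_nonneg (mul_nonneg (VV57_nonneg _ _ _ _ _ _ _ _ _) (VV57_nonneg _ _ _ _ _ _ _ _ _))]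
    exact mul_le_one₀ (VV57_le_one _ _ _ _ _ _ _ _ _) (VV57_nonneg _ _ _ _ _ _ _ _ _) (VV57_le_one _ _ _ _ _ _ _ _ _)
  · refine PP_mono _ fun S S' => (VV57_sq _ R j k S S').trans (le_of_eq ?_)
    rw [hX, hτ]
    rfl

/-- **THE FAR PART OF ONE LEVEL**: the sum over the rows of the far functionals at the corner, from the own prices. -/
theorem far_row57 {c C : ℝ} {n₀ : ℕ} (h : In μ s c C n₀) : ∀ ε θ : ℝ, 0 < ε → 0 < θ → ∃ δ c' : ℝ,
    0 < δ ∧ 0 < c' ∧ ∃ L₀ : ℕ, ∀ L : ℕ, L₀ ≤ L → ∀ N t : ℕ, L ≤ 16 * N → N ≤ L → (L : ℝ) ^ θ ≤ t → t ≤ N →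
    ∀ ys : Finset ℕ, ys.Nonempty → (∀ y ∈ ys, y ≤ N ∧ |(y : ℝ) - sl μ s * N| ≤ ((L : ℝ) ^ δ * wd' μ s N)) →
    ∀ (R : ℝ), (L : ℝ) ^ (-δ) * wd' μ s t ≤ R → ∀ (S : Finset ℕ) (c₁ r : ℕ), (∀ j ∈ S, c₁ ≤ j ∧ j < c₁ + r) →
    ∀ (a z z' : ℕ → ℕ) (zt d : ℕ), (∀ j ∈ S, z' j ≤ zt ∧ z' j ≤ N) → ∀ φ : ℕ → ℝ, (∀ D, 0 ≤ φ D) →
    (∀ j ∈ S, ∀ k ∈ S, avy ys (pr2 μ s N (NN57 N zt d) (UA57 μ s N a z z' j) (UA57 μ s N a z z' k)) ≤ φ (rdist j k)) →
    ∀ (f : Fam N) (F : ℝ), (∀ y ∈ ys, ∀ x, Measurable fun ω => f y ω x) → (∀ y ω x, |f y ω x| ≤ F) →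
    ∑ j ∈ S, avy ys (fun y => ∫ ω, FV57 (wm μ s N (Pn N y) ω) (a j) (z j) (z' j) d R (f y ω) ∂(Pm μ N)) ≤
      Real.sqrt (2 * S.card * ∑ D ∈ range r, ((L : ℝ) ^ ε * (EE' μ s t)⁻¹ * φ D + Real.exp (-(L : ℝ) ^ c'))) *
        Real.sqrt (2 * avy ys (varF μ s N f)) := by
  intro ε θ hε hθ
  obtain ⟨δ, c', hδ, hc', L₀, hF⟩ := far_pair57 h ε θ hε hθ
  refine ⟨δ, c', hδ, hc', L₀, fun L hL N t hLN hNL htL htN ys hys hyy R hR S c₁ r hS a z z' zt d hz φ hφ hp f F mf bf => ?_⟩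
  obtain ⟨V, hV⟩ : ∃ V : (y : ℕ) → ℕ → Env × Finset ℕ → Px (Pn N y) → Px (Pn N y) → ℝ, V = fun y j ω x x' =>
    VV57 (wm μ s N (Pn N y) ω) (a j) (z j) (z' j) zt d R x x' := ⟨_, rfl⟩
  have hE : 0 ≤ (EE' μ s t)⁻¹ := inv_nonneg.2 (zero_le_one.trans (le_max_left _ _))
  have hρ : 0 ≤ (L : ℝ) ^ ε * (EE' μ s t)⁻¹ := mul_nonneg (Real.rpow_nonneg (Nat.cast_nonneg _) _) hE
  have hV0 : ∀ y ∈ ys, ∀ j ω x x', 0 ≤ V y j ω x x' := fun y hy j ω x x' => by
    have := ne_Pn (hyy y hy).1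
    rw [hV]
    exact VV57_nonneg _ _ _ _ _ _ _ _ _
  have hV1 : ∀ y ∈ ys, ∀ j ω x x', V y j ω x x' ≤ 1 := fun y hy j ω x x' => by
    have := ne_Pn (hyy y hy).1
    rw [hV]
    exact VV57_le_one _ _ _ _ _ _ _ _ _
  have mV : ∀ y ∈ ys, ∀ j x x', Measurable fun ω => V y j ω x x' := fun y hy j x x' => by
    have := ne_Pn (hyy y hy).1
    rw [hV]
    exact meas_VV57 _ _ _ _ _ _ _ _
  have iVV : ∀ y ∈ ys, ∀ j k, Integrable (fun ω => PP (wm μ s N (Pn N y) ω) fun x x' => V y j ω x x' * V y k ω x x') (Pm μ N) :=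
    fun y hy j k => by
      have := ne_Pn (hyy y hy).1
      refine int_PP57 (D := 1) (fun x => meas_wm x) (fun x x' => (mV y hy j x x').mul (mV y hy k x x')) fun ω x x' => ?_
      rw [abs_of_nonneg (mul_nonneg (hV0 y hy _ _ _ _) (hV0 y hy _ _ _ _))]
      exact mul_le_one₀ (hV1 y hy _ _ _ _) (hV0 y hy _ _ _ _) (hV1 y hy _ _ _ _)
  have iVf : ∀ y ∈ ys, ∀ j, Integrable (fun ω => PP (wm μ s N (Pn N y) ω) fun x x' => V y j ω x x' * |f y ω x - f y ω x'|)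
      (Pm μ N) := fun y hy j => by
    have := ne_Pn (hyy y hy).1
    refine int_PP57 (D := 1 * (F + F)) (fun x => meas_wm x) (fun x x' => (mV y hy j x x').mul
      (((mf y hy x).sub (mf y hy x')).abs)) fun ω x x' => ?_
    rw [abs_mul, abs_abs, abs_of_nonneg (hV0 y hy _ _ _ _)]
    exact mul_le_mul (hV1 y hy _ _ _ _) ((abs_sub _ _).trans (add_le_add (bf _ _ _) (bf _ _ _))) (abs_nonneg _) zero_le_one
  have iF : ∀ y ∈ ys, Integrable (fun ω => gv (wm μ s N (Pn N y) ω) (f y ω)) (Pm μ N) := fun y hy => by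
    have := ne_Pn (hyy y hy).1
    exact int_bdd (meas_gv (fun x => meas_wm x) (mf y hy)) (M := F ^ 2) fun ω => abs_gv_le _ (bf y ω)
  -- one end
  have one : ∀ y ∈ ys, ∑ j ∈ S, ∫ ω, FV57 (wm μ s N (Pn N y) ω) (a j) (z j) (z' j) d R (f y ω) ∂(Pm μ N) ≤
      Real.sqrt (∑ j ∈ S, ∑ k ∈ S, ∫ ω, PP (wm μ s N (Pn N y) ω) (fun x x' => V y j ω x x' * V y k ω x x') ∂(Pm μ N)) *
        Real.sqrt (2 * varF μ s N f y) := fun y hy => by
    have := ne_Pn (hyy y hy).1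
    have h1 : ∀ j ∈ S, ∫ ω, FV57 (wm μ s N (Pn N y) ω) (a j) (z j) (z' j) d R (f y ω) ∂(Pm μ N) ≤
        ∫ ω, PP (wm μ s N (Pn N y) ω) (fun x x' => V y j ω x x' * |f y ω x - f y ω x'|) ∂(Pm μ N) := fun j hj => by
      refine integral_mono_of_nonneg (ae_of_all _ fun ω => ?_) (iVf y hy j) (ae_of_all _ fun ω => ?_)
      · show 0 ≤ FV57 (wm μ s N (Pn N y) ω) (a j) (z j) (z' j) d R (f y ω)
        rw [FV57_PP]
        exact PP_nonneg _ fun x x' => mul_nonneg (mul_nonneg (mul_nonneg (QA57_nonneg _ _ _ _ _) (dm57_nonneg _ _ _ _ _))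
          (NI_nonneg _ _ _ _)) (abs_nonneg _)
      · rw [hV]
        exact FV57_le_VV (hz j hj).1 _ _ _ _ _ _
    refine (sum_le_sum h1).trans ?_
    rw [← integral_finsetSum _ fun j _ => iVf y hy j]
    have hPI : Integrable (fun ω => ∑ j ∈ S, ∑ k ∈ S, PP (wm μ s N (Pn N y) ω) fun x x' => V y j ω x x' * V y k ω x x') (Pm μ N) :=
      integrable_finsetSum _ fun j _ => integrable_finsetSum _ fun k _ => iVV y hy j k
    have e1 : ∑ j ∈ S, ∑ k ∈ S, ∫ ω, PP (wm μ s N (Pn N y) ω) (fun x x' => V y j ω x x' * V y k ω x x') ∂(Pm μ N) =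
        ∫ ω, ∑ j ∈ S, ∑ k ∈ S, PP (wm μ s N (Pn N y) ω) (fun x x' => V y j ω x x' * V y k ω x x') ∂(Pm μ N) := by
      rw [integral_finsetSum _ fun j _ => integrable_finsetSum _ fun k _ => iVV y hy j k]
      exact sum_congr rfl fun j _ => (integral_finsetSum _ fun k _ => iVV y hy j k).symm
    unfold varF
    rw [e1, ← integral_const_mul]
    refine int_le_sqrt hPI ((iF y hy).const_mul 2) (fun ω => sum_nonneg fun j _ => sum_nonneg fun k _ => PP_nonneg _ fun x x' =>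
      mul_nonneg (hV0 y hy _ _ _ _) (hV0 y hy _ _ _ _)) (fun ω => mul_nonneg (by norm_num) (gv_nonneg _ _))
      (fun ω => sum_nonneg fun j _ => PP_nonneg _ fun x x' => mul_nonneg (hV0 y hy _ _ _ _) (abs_nonneg _)) fun ω => ?_
    refine (row_PP (wm μ s N (Pn N y) ω) S (fun j x x' => V y j ω x x') (f y ω)).trans (le_of_eq ?_)
    congr 2
    have e2 : (fun x x' => (∑ j ∈ S, V y j ω x x') ^ 2) = fun x x' => ∑ j ∈ S, ∑ k ∈ S, V y j ω x x' * V y k ω x x' := by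
      funext x x'
      rw [sq, sum_mul_sum]
    rw [e2, Row39.PP_sum]
    exact sum_congr rfl fun j _ => Row39.PP_sum _ _ _
  have v0 : ∀ y ∈ ys, 0 ≤ varF μ s N f y := fun y hy => by
    have := ne_Pn (hyy y hy).1
    exact integral_nonneg fun ω => gv_nonneg _ _
  have p0 : ∀ y ∈ ys, 0 ≤ ∑ j ∈ S, ∑ k ∈ S, ∫ ω, PP (wm μ s N (Pn N y) ω) (fun x x' => V y j ω x x' * V y k ω x x') ∂(Pm μ N) :=
    fun y hy => by
      have := ne_Pn (hyy y hy).1
      exact sum_nonneg fun j _ => sum_nonneg fun k _ => integral_nonneg fun ω => PP_nonneg _ fun x x' =>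
        mul_nonneg (hV0 y hy _ _ _ _) (hV0 y hy _ _ _ _)
  rw [← avy_sum]
  refine (avy_mono one).trans ((avy_sqrt_mul_le p0 fun y hy => mul_nonneg (by norm_num) (v0 y hy)).trans ?_)
  rw [avy_mul, avy_sum]
  refine mul_le_mul_of_nonneg_right (Real.sqrt_le_sqrt ?_) (Real.sqrt_nonneg _)
  have e2 : ∀ j ∈ S, avy ys (fun y => ∑ k ∈ S, ∫ ω, PP (wm μ s N (Pn N y) ω) (fun x x' => V y j ω x x' * V y k ω x x') ∂(Pm μ N)) =
      ∑ k ∈ S, avy ys fun y => ∫ ω, PP (wm μ s N (Pn N y) ω) (fun x x' => V y j ω x x' * V y k ω x x') ∂(Pm μ N) :=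
    fun j _ => avy_sum ys S fun k y => ∫ ω, PP (wm μ s N (Pn N y) ω) (fun x x' => V y j ω x x' * V y k ω x x') ∂(Pm μ N)
  rw [sum_congr rfl e2]
  have h3 := dist_sum_le hS (φ := fun D => (L : ℝ) ^ ε * (EE' μ s t)⁻¹ * φ D + Real.exp (-(L : ℝ) ^ c'))
    (fun D => add_nonneg (mul_nonneg hρ (hφ D)) (Real.exp_pos _).le)
    (q := fun j k => avy ys fun y => ∫ ω, PP (wm μ s N (Pn N y) ω) (fun x x' => V y j ω x x' * V y k ω x x') ∂(Pm μ N))
    fun j hj k hk => by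
      have h4 : avy ys (fun y => ∫ ω, PP (wm μ s N (Pn N y) ω) (fun x x' => V y j ω x x' * V y k ω x x') ∂(Pm μ N)) ≤
          avy ys fun y => (L : ℝ) ^ ε * (EE' μ s t)⁻¹ * pr2 μ s N (NN57 N zt d) (UA57 μ s N a z z' j) (UA57 μ s N a z z' k) y +
            Real.exp (-(L : ℝ) ^ c') := avy_mono fun y hy => by
        rw [hV]
        exact hF L hL N t hLN hNL htL htN y (hyy y hy).1 (hyy y hy).2 R hR a z z' zt d j k (hz j hj).2 (hz k hk).2
      refine h4.trans ?_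
      rw [avy_add, avy_const hys, avy_mul]
      exact add_le_add_left (mul_le_mul_of_nonneg_left (hp j hj k hk) hρ) _
  refine h3.trans (le_of_eq ?_)
  ring

end Fin

end

end Pool.Agent.W_7d29a1_C0.InT57
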