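import Pool.Agent.W_7d29a1_C0.FarP13E
import Pool.Agent.W_7d29a1_C0.NumT13

/-!
C0, helper13: FAR PRICE AT TILTED WEIGHTS, first part: densities `OwnT` of the own replicas which see of the rows `J` only the sites of the
replicas, over a normalisation of which only the product with the partition function is nondecreasing in the sites of the rows `J`.
The price of one line (`one_lineT`) and the sum over the windows and the lines (`far_sumT`), as in FarP13B, FarP13D, FarP13E.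
-/

set_option autoImplicit false

namespace Pool.Agent.W_7d29a1_C0.F13

open MeasureTheory ProbabilityTheory Filter Topology Finset
open Pool.Agent.W_7d29a1_F Pool.Agent.W_7d29a1_X Pool.Agent.W_7d29a1_H Pool.Agent.W_7d29a1_HZ
open Pool.Agent.W_7d29a1_HS (In wd md)
open Pool.Agent.W_7d29a1_HZ.ZE
open Pool.Agent.W_7d29a1_HZ.R72 (FlatP)
open Pool.Agent.W_7d29a1_HZ.Z15 (kC ZC)
open Pool.Agent.W_7d29a1_HZ.Z36 (kk kk_nonneg)
open Pool.Agent.W_7d29a1_HZ.Z86.GX (WT)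
open Pool.Agent.W_7d29a1_ZE (Win Br J_sub_JJ)
open Pool.Agent.W_7d29a1_C0.Mod92 (Px Pn lw pos_card ne_Pn pJ ps_of_le ps_of_ge)
open Pool.W7d29a1.C0 (gz gm gz_pos gz_ne)
open Pool.W7d29a1.C0
open scoped ENNReal

noncomputable section

variable {μ : Measure ℝ} {s : ℝ} {N y : ℕ}

/-- **A density of `k + 1` own replicas, tilted**: `A η x / (Zq (kd x) η * Z η)`; on the rows `J` it is as in `OwnD`. -/
structure OwnT (μ : Measure ℝ) (s : ℝ) (N y : ℕ) (J : Finset ℕ) {k : ℕ} {ι : Type} (kd : (Fin (k + 1) → Px (Pn N y)) → ι)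
    (A : Env → (Fin (k + 1) → Px (Pn N y)) → ℝ) (Zq : ι → Env → ℝ) : Prop where
  am : ∀ x, Measurable fun η => A η x
  a0 : ∀ η x, 0 ≤ A η x
  av : OffV J A
  zm : ∀ κ, Measurable (Zq κ)
  z0 : ∀ κ η, 0 < Zq κ η
  zmono : ∀ (κ : ι) (η η' : Env), (∀ q, η q ≤ η' q) → (∀ q : Pt, ¬ (0 ≤ q.1 ∧ q.1.toNat ∈ J) → η q = η' q) →
    Zq κ η * ZC μ s N (y : ℤ) η ≤ Zq κ η' * ZC μ s N (y : ℤ) η'
  marg : ∀ (η : Env) (l : Fin (k + 1)) (S : Px (Pn N y)), (∑ x, if x l = S then A η x / Zq (kd x) η else 0) ≤ pth μ s η N S.1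

variable {J : Finset ℕ} {k : ℕ} {ι : Type} {kd : (Fin (k + 1) → Px (Pn N y)) → ι} {A : Env → (Fin (k + 1) → Px (Pn N y)) → ℝ}
  {Zq : ι → Env → ℝ}

section D

variable [IsProbabilityMeasure μ] (h : OwnT μ s N y J kd A Zq)
include h

theorem OwnT.dn_nonneg (hy : y ≤ N) (η : Env) (x : Fin (k + 1) → Px (Pn N y)) :
    0 ≤ A η x / (Zq (kd x) η * ZC μ s N (y : ℤ) η) :=
  div_nonneg (h.a0 η x) (mul_pos (h.z0 _ η) (ZC_pos13 hy η)).le

theorem OwnT.ev_nonneg (hy : y ≤ N) (η : Env) {Ψ : (Fin (k + 1) → Px (Pn N y)) → ℝ} (hΨ : ∀ x, 0 ≤ Ψ x) :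
    0 ≤ evD μ s N y kd A Zq η Ψ :=
  sum_nonneg fun x _ => mul_nonneg (h.dn_nonneg hy η x) (hΨ x)

theorem OwnT.ev_mono (hy : y ≤ N) (η : Env) {Ψ Φ : (Fin (k + 1) → Px (Pn N y)) → ℝ} (hΨ : ∀ x, Ψ x ≤ Φ x) :
    evD μ s N y kd A Zq η Ψ ≤ evD μ s N y kd A Zq η Φ :=
  sum_le_sum fun x _ => mul_le_mul_of_nonneg_left (hΨ x) (h.dn_nonneg hy η x)

/-- The marginals are at most the free law. -/
theorem OwnT.ev_coord (hy : y ≤ N) (η : Env) (l : Fin (k + 1)) {b : Px (Pn N y) → ℝ} (hb : ∀ S, 0 ≤ b S) :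
    evD μ s N y kd A Zq η (fun x => b (x l)) ≤ ∑ S : Px (Pn N y), pth μ s η N S.1 / ZC μ s N (y : ℤ) η * b S := by
  have hZ := ZC_pos13 (μ := μ) (s := s) hy η
  unfold evD
  rw [sum_ins l]
  refine sum_le_sum fun S _ => ?_
  have h1 := h.marg η l S
  rw [sum_fixl l S] at h1
  have h2 : ∑ T : Fin k → Px (Pn N y), A η (l.insertNth S T) / (Zq (kd (l.insertNth S T)) η * ZC μ s N (y : ℤ) η) *
      b ((l.insertNth S T : Fin (k + 1) → Px (Pn N y)) l) =
      (∑ T : Fin k → Px (Pn N y), A η (l.insertNth S T) / Zq (kd (l.insertNth S T)) η) * (b S / ZC μ s N (y : ℤ) η) := by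
    rw [sum_mul]
    refine sum_congr rfl fun T _ => ?_
    rw [Fin.insertNth_apply_same, ← div_div]
    ring
  rw [h2]
  have h3 := mul_le_mul_of_nonneg_right h1 (div_nonneg (hb S) hZ.le)
  refine h3.trans (le_of_eq ?_)
  ring

theorem OwnT.ev_le_one (hy : y ≤ N) (η : Env) {Ψ : (Fin (k + 1) → Px (Pn N y)) → ℝ} (hΨ : ∀ x, Ψ x ≤ 1) :
    evD μ s N y kd A Zq η Ψ ≤ 1 := by
  refine (h.ev_mono hy η hΨ).trans ((h.ev_coord hy η 0 (b := fun _ => 1) fun _ => zero_le_one).trans (le_of_eq ?_))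
  have hZ := ZC_pos13 (μ := μ) (s := s) hy η
  simp only [mul_one]
  rw [← sum_div, ← ZC_sum, div_self hZ.ne']

theorem OwnT.ev_meas {Ψ : Env → (Fin (k + 1) → Px (Pn N y)) → ℝ} (hm : ∀ x, Measurable fun η => Ψ η x) :
    Measurable fun η => evD μ s N y kd A Zq η (Ψ η) :=
  Finset.measurable_sum _ fun x _ => ((h.am x).div ((h.zm _).mul (ZC_meas N (y : ℤ)))).mul (hm x)

theorem OwnT.ev_int (hy : y ≤ N) {Ψ : Env → (Fin (k + 1) → Px (Pn N y)) → ℝ} (hm : ∀ x, Measurable fun η => Ψ η x)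
    (h0 : ∀ η x, 0 ≤ Ψ η x) (h1 : ∀ η x, Ψ η x ≤ 1) : Integrable (fun η => evD μ s N y kd A Zq η (Ψ η)) (law μ) := by
  refine Integrable.of_bound (h.ev_meas hm).aestronglyMeasurable 1 (Filter.Eventually.of_forall fun η => ?_)
  rw [Real.norm_eq_abs, abs_of_nonneg (h.ev_nonneg hy η (h0 η))]
  exact h.ev_le_one hy η (h1 η)

end D

theorem RG_okT (h : OwnT μ s N y J kd A Zq) {V : Win} {nr : (Fin (k + 1) → Px (Pn N y)) → Prop}
    {X : Env → (Fin (k + 1) → Px (Pn N y)) → ℝ} (hm : ∀ x, Measurable fun η => X η x) (h0 : ∀ η x, 0 ≤ X η x) (h1 : ∀ η x, X η x ≤ 1)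
    (l : Fin (k + 1)) (κ : ι) : RgT (Zq κ) (RG μ s N y kd A V nr X l κ) := by
  classical
  refine ⟨h.zm κ, h.z0 κ, fun S => ?_, fun S η => ?_, fun S η => ?_⟩
  · unfold RG
    by_cases hS : S ∈ Pn N y
    · simp only [hS, dif_pos]
      refine Finset.measurable_sum _ fun T _ => ?_
      exact (((h.am _).div (Pool.Agent.W_7d29a1_C0.Mod92.meas_pth N S)).mul (hm _)).const_mul _
    · simp only [hS, dif_neg, not_false_eq_true]
      exact measurable_const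
  · unfold RG
    split_ifs with hS
    · refine sum_nonneg fun T _ => mul_nonneg ?_ (mul_nonneg (div_nonneg (h.a0 _ _) (pth_pos13 η N _).le) (h0 _ _))
      split_ifs <;> norm_num
    · exact le_rfl
  · unfold RG
    split_ifs with hS
    swap
    · exact (h.z0 κ η).le
    have hp := pth_pos13 (μ := μ) (s := s) η N S
    have hz := h.z0 κ η
    have h2 := h.marg η l ⟨S, hS⟩
    rw [sum_fixl l ⟨S, hS⟩] at h2
    have h3 : ∀ T : Fin k → Px (Pn N y),
        (if kd (l.insertNth ⟨S, hS⟩ T) = κ ∧ nr (l.insertNth ⟨S, hS⟩ T) ∧ ∀ i, Av μ s V (T i).1 then (1 : ℝ) else 0) *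
          (A η (l.insertNth ⟨S, hS⟩ T) / pth μ s η N S * X η (l.insertNth ⟨S, hS⟩ T)) ≤
        (A η (l.insertNth ⟨S, hS⟩ T) / Zq (kd (l.insertNth ⟨S, hS⟩ T)) η) * (Zq κ η / pth μ s η N S) := by
      intro T
      have a1 := h.a0 η (l.insertNth ⟨S, hS⟩ T)
      have a2 := h.z0 (kd (l.insertNth ⟨S, hS⟩ T)) η
      have a3 := h0 η (l.insertNth ⟨S, hS⟩ T)
      have a4 := h1 η (l.insertNth ⟨S, hS⟩ T)
      by_cases hk : kd (l.insertNth ⟨S, hS⟩ T) = κ ∧ nr (l.insertNth ⟨S, hS⟩ T) ∧ ∀ i, Av μ s V (T i).1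
      · rw [if_pos hk, one_mul, hk.1]
        have e1 : A η (l.insertNth ⟨S, hS⟩ T) / Zq κ η * (Zq κ η / pth μ s η N S) = A η (l.insertNth ⟨S, hS⟩ T) / pth μ s η N S := by
          field_simp
        rw [e1]
        exact mul_le_of_le_one_right (div_nonneg a1 hp.le) a4
      · rw [if_neg hk, zero_mul]
        exact mul_nonneg (div_nonneg a1 a2.le) (div_nonneg hz.le hp.le)
    refine (sum_le_sum fun T _ => h3 T).trans ?_
    rw [← sum_mul]
    have h4 := mul_le_mul_of_nonneg_right h2 (div_nonneg hz.le hp.le)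
    refine h4.trans (le_of_eq ?_)
    show pth μ s η N S * (Zq κ η / pth μ s η N S) = Zq κ η
    field_simp

theorem RG_blindT (h : OwnT μ s N y J kd A Zq) {V : Win} {nr : (Fin (k + 1) → Px (Pn N y)) → Prop}
    {X : Env → (Fin (k + 1) → Px (Pn N y)) → ℝ} (hX : OffV V.J X) (hJ : V.J ⊆ J) (hVN : V.N = N) (hVy : V.y = (y : ℤ)) (l : Fin (k + 1))
    (κ : ι) : BlindT μ s V (Zq κ) (RG μ s N y kd A V nr X l κ) := by
  classical
  refine ⟨?_, fun η η' h1 h2 => ?_⟩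
  swap
  · unfold ZG
    rw [hVN, hVy]
    exact h.zmono κ η η' h1 fun q hq => h2 q fun hs => hq ⟨hs.1, hJ hs.2.1⟩
  intro η η' S hL hη
  unfold RG
  split_ifs with hS
  · refine sum_congr rfl fun T _ => ?_
    by_cases hk : kd (l.insertNth ⟨S, hS⟩ T) = κ ∧ nr (l.insertNth ⟨S, hS⟩ T) ∧ ∀ i, Av μ s V (T i).1
    · have hon : ∀ q : Pt, OnP (l.insertNth ⟨S, hS⟩ T : Fin (k + 1) → Px (Pn N y)) q → ¬ InStrip μ s V q := fun q hq =>
        onP_strip (S := ⟨S, hS⟩) hL hk.2.2 hq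
      have e1 : A η (l.insertNth ⟨S, hS⟩ T) = A η' (l.insertNth ⟨S, hS⟩ T) := h.av η η' _ fun q hq => hη q fun hs => by
        exact hon q (hq ⟨hs.1, hJ hs.2.1⟩) hs
      have e2 : X η (l.insertNth ⟨S, hS⟩ T) = X η' (l.insertNth ⟨S, hS⟩ T) := hX η η' _ fun q hq => hη q fun hs => by
        exact hon q (hq ⟨hs.1, hs.2.1⟩) hs
      have e3 : pth μ s η N S = pth μ s η' N S := pth_Av (V := V) (fun r hr hc => by
        have := hL r hr
        linarith [hc.1]) hη N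
      rw [e1, e2, e3]
    · rw [if_neg hk, zero_mul, zero_mul]
  · rfl

open scoped Classical in
/-- The average of one line as masses with the weights `RG`. -/
theorem evD_PsGT (h : OwnT μ s N y J kd A Zq) [Fintype ι] (η : Env) {V : Win} {nr : (Fin (k + 1) → Px (Pn N y)) → Prop}
    (X : Env → (Fin (k + 1) → Px (Pn N y)) → ℝ) (l : Fin (k + 1)) (b : Px (Pn N y) → ℝ) :
    evD μ s N y kd A Zq η (fun x => b (x l) * PsG μ s V nr X l η x) =
      ∑ κ : ι, ∑ S : Px (Pn N y), pth μ s η N S.1 / ZC μ s N (y : ℤ) η *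
        (b S * ((if InL μ s V.sg V.J V.Y S.1 then 1 else 0) * rdG (Zq κ) (RG μ s N y kd A V nr X l κ) S.1 η)) := by
  unfold evD
  rw [sum_ins l, sum_comm (s := (univ : Finset ι))]
  refine sum_congr rfl fun S _ => ?_
  have hp := pth_pos13 (μ := μ) (s := s) η N S.1
  have e1 : ∀ κ : ι, pth μ s η N S.1 / ZC μ s N (y : ℤ) η *
        (b S * ((if InL μ s V.sg V.J V.Y S.1 then 1 else 0) * rdG (Zq κ) (RG μ s N y kd A V nr X l κ) S.1 η)) =
      ∑ T : Fin k → Px (Pn N y), (if kd (l.insertNth S T) = κ then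
        A η (l.insertNth S T) / (Zq (kd (l.insertNth S T)) η * ZC μ s N (y : ℤ) η) *
        (b ((l.insertNth S T : Fin (k + 1) → Px (Pn N y)) l) * PsG μ s V nr X l η (l.insertNth S T)) else 0) := by
    intro κ
    unfold rdG RG
    rw [dif_pos S.2, sum_div, mul_sum, mul_sum, mul_sum]
    refine sum_congr rfl fun T _ => ?_
    have hz := h.z0 κ η
    unfold PsG
    rw [Fin.insertNth_apply_same]
    simp only [Fin.insertNth_apply_succAbove]
    obtain ⟨I, hI⟩ : ∃ I : ℝ, I = if InL μ s V.sg V.J V.Y S.1 then 1 else 0 := ⟨_, rfl⟩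
    rw [← hI]
    have hS' : (⟨S.1, S.2⟩ : Px (Pn N y)) = S := rfl
    rw [hS']
    by_cases hk : kd (l.insertNth S T) = κ
    · rw [if_pos hk, hk]
      by_cases hk2 : nr (l.insertNth S T) ∧ ∀ i, Av μ s V (T i).1
      · rw [if_pos ⟨rfl, hk2⟩, if_pos hk2]
        field_simp
      · rw [if_neg fun hc => hk2 hc.2, if_neg hk2]
        ring
    · rw [if_neg hk, if_neg fun hc => hk hc.1]
      ring
  rw [sum_congr rfl fun κ _ => e1 κ, sum_comm]
  refine sum_congr rfl fun T _ => ?_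
  rw [sum_ite_eq]
  rw [if_pos (mem_univ _)]

open scoped Classical in
/-- **The price of one line, event form.** -/
theorem one_lineT [IsProbabilityMeasure μ] (h : OwnT μ s N y J kd A Zq) [Fintype ι] (hy : y ≤ N) {V : Win} (hVN : V.N = N) (hVH : V.H = N)
    {L : ℕ} {e C : ℝ} {i₀ i₁ : ℕ} (hi : i₁ ≤ V.a) {M q δ : ℝ} (hq : 0 ≤ q) (hδ : 0 ≤ δ) {c d : ℕ} (hcd : c ≤ d) (hd : d ≤ N)
    (hJ : ∀ i ∈ V.JJ, c < i ∧ i < d) {nr : (Fin (k + 1) → Px (Pn N y)) → Prop}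
    {X : Env → (Fin (k + 1) → Px (Pn N y)) → ℝ} (hm : ∀ x, Measurable fun η => X η x) (h0 : ∀ η x, 0 ≤ X η x)
    (h1 : ∀ η x, X η x ≤ 1) (l : Fin (k + 1))
    (hT : ∀ κ : ι, PR μ s N (y : ℤ) (rdG (Zq κ) (RG μ s N y kd A V nr X l κ)) (NTE μ s V L e C i₀ i₁ M) ≤
        ENNReal.ofReal q * PR μ s N (y : ℤ) (rdG (Zq κ) (RG μ s N y kd A V nr X l κ)) (fun _ S => InL μ s V.sg V.J V.Y S) +
          ENNReal.ofReal δ) :
    ∫ η, evD μ s N y kd A Zq η (fun x => (if Real.exp (-M) ≤ VT31.cE (lw μ s η N (Pn N y)) (pJ c d)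
        (fun v => if cE μ s V L e C i₀ i₁ (pos v.1) then 1 else 0) (x l) then 1 else 0) * PsG μ s V nr X l η x) ∂(law μ) ≤
      q * ∫ η, evD μ s N y kd A Zq η (PsG μ s V nr X l η) ∂(law μ) + Fintype.card ι * δ := by
  have hy0 : (0 : ℤ) ≤ (y : ℤ) := by positivity
  have hyN : (y : ℤ) ≤ (N : ℤ) := by exact_mod_cast hy
  obtain ⟨ρ, hρ⟩ : ∃ ρ : ι → Finset ℕ → Env → ℝ, ρ = fun κ => rdG (Zq κ) (RG μ s N y kd A V nr X l κ) := ⟨_, rfl⟩
  have hρm : ∀ κ S, Measurable (ρ κ S) := fun κ S => by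
    rw [hρ]
    exact (RG_okT h (V := V) (nr := nr) hm h0 h1 l κ).rm S
  have hρ0 : ∀ κ S η, 0 ≤ ρ κ S η := fun κ S η => by
    rw [hρ]
    exact (RG_okT h (V := V) (nr := nr) hm h0 h1 l κ).r0 S η
  have hρ1 : ∀ κ S η, ρ κ S η ≤ 1 := fun κ S η => by
    rw [hρ]
    exact (RG_okT h (V := V) (nr := nr) hm h0 h1 l κ).r1 S η
  -- the masses
  obtain ⟨F, hF⟩ : ∃ F : ι → (Env → Finset ℕ → Prop) → Env → ℝ, F = fun κ A η => ∑ S ∈ (range N).powerset,
    (if A η S then (1 : ℝ) else 0) * (gp μ s η N (y : ℤ) S * ρ κ S η) := ⟨_, rfl⟩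
  have hF0 : ∀ κ A η, 0 ≤ F κ A η := fun κ A η => by
    rw [hF]
    exact sum_nonneg fun S _ => mul_nonneg (by split_ifs <;> norm_num) (mul_nonneg (gp_nonneg36 _ _ _ _) (hρ0 κ S η))
  have hF1 : ∀ κ A η, F κ A η ≤ 1 := fun κ A η => by
    rw [hF]
    refine le_trans (sum_le_sum fun S _ => ?_) (sum_gp_mul_le_one (μ := μ) (s := s) η N (y : ℤ) (a := fun S => 1) fun _ => le_rfl)
    have g1 := gp_nonneg36 (μ := μ) (s := s) η N (y : ℤ) S
    have g2 := mul_le_mul_of_nonneg_left (hρ1 κ S η) g1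
    split_ifs
    · linarith
    · linarith
  have hFm : ∀ κ (A : Env → Finset ℕ → Prop), Ms A → Measurable (F κ A) := fun κ A hA => by
    rw [hF]
    exact Finset.measurable_sum _ fun S _ => (Measurable.ite (hA S) measurable_const measurable_const).mul
      ((gp_meas36 N (y : ℤ) S).mul (hρm κ S))
  have hFi : ∀ κ (A : Env → Finset ℕ → Prop), Ms A → Integrable (F κ A) (law μ) := fun κ A hA => by
    refine Integrable.of_bound (hFm κ A hA).aestronglyMeasurable 1 (Filter.Eventually.of_forall fun η => ?_)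
    rw [Real.norm_eq_abs, abs_of_nonneg (hF0 κ A η)]
    exact hF1 κ A η
  -- the hypothesis for integrals
  have hT' : ∀ κ, ∫ η, F κ (NTE μ s V L e C i₀ i₁ M) η ∂(law μ) ≤
      q * ∫ η, F κ (fun _ S => InL μ s V.sg V.J V.Y S) η ∂(law μ) + δ := by
    intro κ
    have h2 := hT κ
    have e1 : rdG (Zq κ) (RG μ s N y kd A V nr X l κ) = ρ κ := by rw [hρ]
    rw [e1, PR_eq (hρm κ) (hρ0 κ) (hρ1 κ) (NTE_ms _ _ _ _ _ _ _), PR_eq (hρm κ) (hρ0 κ) (hρ1 κ) (InL_ms _ _ _), ← ENNReal.ofReal_mul hq,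
      ← ENNReal.ofReal_add (mul_nonneg hq (integral_nonneg fun η => sum_nonneg fun S _ => mul_nonneg (by split_ifs <;> norm_num)
        (mul_nonneg (gp_nonneg36 _ _ _ _) (hρ0 κ S η)))) hδ,
      ENNReal.ofReal_le_ofReal_iff (add_nonneg (mul_nonneg hq (integral_nonneg fun η => sum_nonneg fun S _ =>
        mul_nonneg (by split_ifs <;> norm_num) (mul_nonneg (gp_nonneg36 _ _ _ _) (hρ0 κ S η)))) hδ)] at h2
    rw [hF]
    exact h2
  -- the quenched sums
  have hsum : ∀ (κ : ι) (η : Env) (b : Finset ℕ → ℝ), ∑ S : Px (Pn N y), pth μ s η N S.1 / ZC μ s N (y : ℤ) η * (b S.1 * ρ κ S.1 η) =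
      ∑ S ∈ (range N).powerset, gp μ s η N (y : ℤ) S * (b S * ρ κ S η) := fun κ η b =>
    (sum_gp_Px η fun S => b S * ρ κ S η).symm
  have eL : ∀ η : Env, evD μ s N y kd A Zq η (PsG μ s V nr X l η) = ∑ κ : ι, F κ (fun _ S => InL μ s V.sg V.J V.Y S) η := by
    intro η
    have e1 := evD_PsGT h η (V := V) (nr := nr) X l fun _ => 1
    simp only [one_mul] at e1
    rw [e1]
    refine sum_congr rfl fun κ _ => ?_
    have e2 := hsum κ η fun S => if InL μ s V.sg V.J V.Y S then 1 else 0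
    rw [hF]
    rw [hρ] at e2 ⊢
    refine e2.trans (sum_congr rfl fun S _ => ?_)
    dsimp only
    ring
  have eN : ∀ η : Env, evD μ s N y kd A Zq η (fun x => (if Real.exp (-M) ≤ VT31.cE (lw μ s η N (Pn N y)) (pJ c d)
        (fun v => if cE μ s V L e C i₀ i₁ (pos v.1) then 1 else 0) (x l) then 1 else 0) * PsG μ s V nr X l η x) ≤
      ∑ κ : ι, F κ (NTE μ s V L e C i₀ i₁ M) η := by
    intro η
    rw [evD_PsGT h η (V := V) (nr := nr) X l fun S => (if Real.exp (-M) ≤ VT31.cE (lw μ s η N (Pn N y)) (pJ c d)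
        (fun v => if cE μ s V L e C i₀ i₁ (pos v.1) then 1 else 0) S then 1 else 0)]
    refine sum_le_sum fun κ _ => ?_
    have e2 := hsum κ η fun S => if NTE μ s V L e C i₀ i₁ M η S then 1 else 0
    have e3 : F κ (NTE μ s V L e C i₀ i₁ M) η =
        ∑ S : Px (Pn N y), pth μ s η N S.1 / ZC μ s N (y : ℤ) η * ((if NTE μ s V L e C i₀ i₁ M η S.1 then 1 else 0) * ρ κ S.1 η) := by
      rw [e2, hF]
      refine sum_congr rfl fun S _ => ?_
      ring
    rw [e3]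
    refine sum_le_sum fun S _ => mul_le_mul_of_nonneg_left ?_ (div_nonneg (pth_pos13 η N _).le (ZC_pos13 hy η).le)
    rw [← mul_assoc]
    have e4 : rdG (Zq κ) (RG μ s N y kd A V nr X l κ) S.1 η = ρ κ S.1 η := by rw [hρ]
    rw [e4]
    refine mul_le_mul_of_nonneg_right ?_ (hρ0 κ S.1 η)
    by_cases hM : Real.exp (-M) ≤ VT31.cE (lw μ s η N (Pn N y)) (pJ c d)
        (fun v => if cE μ s V L e C i₀ i₁ (pos v.1) then 1 else 0) S
    · by_cases hL : InL μ s V.sg V.J V.Y S.1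
      · rw [if_pos hM, if_pos hL, if_pos (nte_of_blk hVN hVH hi hcd hd hJ hL hM)]
        norm_num
      · rw [if_neg hL, mul_zero]
        split_ifs <;> norm_num
    · rw [if_neg hM, zero_mul]
      split_ifs <;> norm_num
  have hI : Integrable (fun η => ∑ κ : ι, F κ (NTE μ s V L e C i₀ i₁ M) η) (law μ) :=
    integrable_finsetSum _ fun κ _ => hFi κ _ (NTE_ms _ _ _ _ _ _ _)
  have h2 := integral_mono_of_nonneg (μ := law μ) (Filter.Eventually.of_forall fun η => h.ev_nonneg hy η fun x =>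
    mul_nonneg (by split_ifs <;> norm_num) (PsG_nonneg (μ := μ) (s := s) (V := V) (nr := nr) h0 l η x)) hI
    (Filter.Eventually.of_forall eN)
  refine h2.trans ?_
  rw [integral_finsetSum _ fun κ _ => hFi κ _ (NTE_ms _ _ _ _ _ _ _)]
  have e5 : ∫ η, evD μ s N y kd A Zq η (PsG μ s V nr X l η) ∂(law μ) =
      ∑ κ : ι, ∫ η, F κ (fun _ S => InL μ s V.sg V.J V.Y S) η ∂(law μ) := by
    rw [← integral_finsetSum _ fun κ _ => hFi κ _ (InL_ms _ _ _)]
    exact integral_congr_ae (Filter.Eventually.of_forall eL)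
  rw [e5, mul_sum]
  refine (sum_le_sum fun κ _ => hT' κ).trans ?_
  rw [sum_add_distrib, sum_const, nsmul_eq_mul, card_univ]

open scoped Classical in
/-- The exceptional own replicas. -/
theorem own_pathT [IsProbabilityMeasure μ] (h : OwnT μ s N y J kd A Zq) (hy : y ≤ N) (B : Finset ℕ → Prop) {p : ℝ} (hp : 0 ≤ p)
    (hB : P1 μ s N (y : ℤ) (fun _ S => B S) ≤ ENNReal.ofReal p) (j : Fin (k + 1)) :
    ∫ η, evD μ s N y kd A Zq η (fun x => if B (x j).1 then 1 else 0) ∂(law μ) ≤ p := by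
  refine le_trans (integral_mono_of_nonneg (Filter.Eventually.of_forall fun η => h.ev_nonneg hy η fun x => by split_ifs <;> norm_num)
    (gm_int13 hy (f := fun S => if B S.1 then 1 else 0) (fun S => by split_ifs <;> norm_num) (fun S => by split_ifs <;> norm_num))
    (Filter.Eventually.of_forall fun η => ?_)) (gm_path hy B hp hB)
  have h1 := h.ev_coord hy η j (b := fun S : Px (Pn N y) => if B S.1 then (1 : ℝ) else 0) (fun S => by split_ifs <;> norm_num)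
  rw [sum_gm] at h1
  exact h1

open scoped Classical in
/-- The exceptional conditional masses. -/
theorem own_massT [IsProbabilityMeasure μ] (h : OwnT μ s N y J kd A Zq) (hy : y ≤ N) (B : Finset ℕ → Prop) {p a : ℝ} (hp : 0 ≤ p)
    (hB : P1 μ s N (y : ℤ) (fun _ S => B S) ≤ ENNReal.ofReal p) (ha : 0 < a) (c d : ℕ) (l : Fin (k + 1)) :
    ∫ η, evD μ s N y kd A Zq η (fun x => if a ≤ VT31.cE (lw μ s η N (Pn N y)) (pJ c d) (fun v => if B v.1 then 1 else 0) (x l)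
      then 1 else 0) ∂(law μ) ≤ a⁻¹ * p := by
  have hne : Nonempty (Px (Pn N y)) := ne_Pn hy
  have h2 := gm_path hy B hp hB
  have h3 := mul_le_mul_of_nonneg_left h2 (inv_pos.2 ha).le
  rw [← integral_const_mul] at h3
  refine le_trans (integral_mono_of_nonneg (Filter.Eventually.of_forall fun η => h.ev_nonneg hy η fun x => by split_ifs <;> norm_num)
    ((gm_int13 hy (f := fun S => if B S.1 then 1 else 0) (fun S => by split_ifs <;> norm_num)
      (fun S => by split_ifs <;> norm_num)).const_mul _) (Filter.Eventually.of_forall fun η => ?_)) h3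
  have h1 := h.ev_coord hy η l (b := fun S : Px (Pn N y) => if a ≤ VT31.cE (lw μ s η N (Pn N y)) (pJ c d) (fun v => if B v.1 then 1 else 0) S
      then (1 : ℝ) else 0) (fun S => by split_ifs <;> norm_num)
  refine h1.trans ?_
  have h4 : ∑ S : Px (Pn N y), pth μ s η N S.1 / ZC μ s N (y : ℤ) η *
      (if a ≤ VT31.cE (lw μ s η N (Pn N y)) (pJ c d) (fun v => if B v.1 then 1 else 0) S then (1 : ℝ) else 0) ≤
      ∑ S : Px (Pn N y), pth μ s η N S.1 / ZC μ s N (y : ℤ) η *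
        (a⁻¹ * VT31.cE (lw μ s η N (Pn N y)) (pJ c d) (fun v => if B v.1 then 1 else 0) S) := by
    refine sum_le_sum fun S _ => mul_le_mul_of_nonneg_left ?_ (div_nonneg (pth_pos13 η N _).le (ZC_pos13 hy η).le)
    have h5 : 0 ≤ VT31.cE (lw μ s η N (Pn N y)) (pJ c d) (fun v => if B v.1 then 1 else 0) S :=
      VT31.cE_nonneg _ _ (fun v => by split_ifs <;> norm_num) S
    split_ifs with h6
    · have := mul_le_mul_of_nonneg_left h6 (inv_pos.2 ha).le
      rwa [inv_mul_cancel₀ ha.ne'] at this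
    · exact mul_nonneg (inv_pos.2 ha).le h5
  refine h4.trans (le_of_eq ?_)
  have h6 : ∑ S : Px (Pn N y), pth μ s η N S.1 / ZC μ s N (y : ℤ) η *
        (a⁻¹ * VT31.cE (lw μ s η N (Pn N y)) (pJ c d) (fun v => if B v.1 then 1 else 0) S) =
      a⁻¹ * ∑ S : Px (Pn N y), pth μ s η N S.1 / ZC μ s N (y : ℤ) η *
        VT31.cE (lw μ s η N (Pn N y)) (pJ c d) (fun v => if B v.1 then 1 else 0) S := by
    rw [mul_sum]
    exact sum_congr rfl fun S _ => by ring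
  rw [h6, sum_gm, VT31.gm_cE]

theorem own_pathT' [IsProbabilityMeasure μ] (h : OwnT μ s N y J kd A Zq) (hy : y ≤ N) (B : Finset ℕ → Prop) [DecidablePred B] {p : ℝ}
    (hp : 0 ≤ p) (hB : P1 μ s N (y : ℤ) (fun _ S => B S) ≤ ENNReal.ofReal p) (j : Fin (k + 1)) :
    ∫ η, evD μ s N y kd A Zq η (fun x => if B (x j).1 then 1 else 0) ∂(law μ) ≤ p := by
  convert own_pathT h hy B hp hB j

open scoped Classical in
theorem own_massT' [IsProbabilityMeasure μ] (h : OwnT μ s N y J kd A Zq) (hy : y ≤ N) (B : Finset ℕ → Prop) [DecidablePred B] {p a : ℝ}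
    (hp : 0 ≤ p) (hB : P1 μ s N (y : ℤ) (fun _ S => B S) ≤ ENNReal.ofReal p) (ha : 0 < a) (c d : ℕ) (l : Fin (k + 1)) :
    ∫ η, evD μ s N y kd A Zq η (fun x => if a ≤ VT31.cE (lw μ s η N (Pn N y)) (pJ c d) (fun v => if B v.1 then 1 else 0) (x l)
      then 1 else 0) ∂(law μ) ≤ a⁻¹ * p := by
  convert own_massT h hy B hp hB ha c d l

open scoped Classical in
/-- The sum over the windows and the lines. -/
theorem far_sumT [IsProbabilityMeasure μ] (h : OwnT μ s N y J kd A Zq) [Fintype ι] (hy : y ≤ N) (rt : Bool) {L t τ : ℕ} {δ ε₁ : ℝ}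
    {n1 : ℕ → ℕ} {e0 E : ℕ} {p : Par}
    (hp : POk μ s t n1 e0 E p) (hFl : ∀ S, S ⊆ range N → NSp μ s L N ε₁ S → FlatP μ s N e0 E n1 S)
    (hE : ∀ S S' : Finset ℕ, S ⊆ range N → S' ⊆ range N → NSp μ s L N ε₁ S → NSp μ s L N ε₁ S' → ∀ i ≤ N,
      |pos S i - pos S' i| < (2 : ℤ) ^ (E + 2))
    (he : (2 : ℝ) ^ (e0 + 4) ≤ (L : ℝ) ^ (-δ) * wd' μ s t) (hE3 : 2 ^ (E + 3) ≤ L) (hm0 : ∀ j, 0 ≤ md μ s j)
    (hm1 : ∀ j, md μ s j ≤ j) (hNL : N ≤ L) {z d' M0 M : ℝ} (hz : 0 ≤ z) (hd : 0 ≤ d') (hM1 : 1 ≤ M)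
    (hT : TieInT μ s p N (y : ℤ) n1 e0 E z d') {p₁ p₂ : ℝ} (hp₁ : 0 ≤ p₁) (hp₂ : 0 ≤ p₂)
    (hns : P1 μ s N (y : ℤ) (fun _ S => ¬ NSp μ s L N ε₁ S) ≤ ENNReal.ofReal p₁)
    (htv : P1 μ s N (y : ℤ) (fun _ S => ¬ TVp μ s N p S) ≤ ENNReal.ofReal p₂) {c d : ℕ} (hcd : c ≤ d) (hdN : d ≤ N) (l : Fin (k + 1))
    (hM : (((WB rt N t τ n1 e0 E p.a c d ×ˢ QL L) ×ˢ (univ : Finset (Fin (k + 1)))).card : ℝ) * Real.exp (-M) ≤ Real.exp (-M0) / 2)
    {X : Env → (Fin (k + 1) → Px (Pn N y)) → ℝ} (hm : ∀ x, Measurable fun η => X η x) (h0 : ∀ η x, 0 ≤ X η x)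
    (h1 : ∀ η x, X η x ≤ 1) (hoff : OffV (rowsB rt N t τ ∩ Ioo c d) X)
    (hJJ : rowsB rt N t τ ∩ Ioo c d ⊆ J) :
    ∫ η, evD μ s N y kd A Zq η (fun x => (if Real.exp (-M0) ≤ mFar μ s N y L δ t τ c d l η x then 1 else 0) * X η x) ∂(law μ) ≤
      z * M * (260 * (k + 1) * (WB rt N t τ n1 e0 E p.a c d).card) * ∫ η, evD μ s N y kd A Zq η (X η) ∂(law μ) +
        (((k + 1) * p₁ + 2 * Real.exp M0 * (p₁ + p₂)) +
          (((WB rt N t τ n1 e0 E p.a c d ×ˢ QL L) ×ˢ (univ : Finset (Fin (k + 1)))).card : ℝ) * (Fintype.card ι * d')) := by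
  obtain ⟨I, hI⟩ : ∃ I : Finset (Ix k), I = (WB rt N t τ n1 e0 E p.a c d ×ˢ QL L) ×ˢ (univ : Finset (Fin (k + 1))) := ⟨_, rfl⟩
  obtain ⟨g, hg⟩ : ∃ g : Ix k → Env → (Fin (k + 1) → Px (Pn N y)) → ℝ, g = fun i η x =>
    (if Real.exp (-M) ≤ VT31.cE (lw μ s η N (Pn N y)) (pJ c d)
            (fun v => if cE μ s (VI N y p.a i) p.L p.e p.C p.i₀ p.i₁ (pos v.1) then 1 else 0) (x l) then 1 else 0) *
          PsG μ s (VI N y p.a i) (Ns6 μ s i.1.1 i.1.2 i.2) X l η x := ⟨_, rfl⟩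
  obtain ⟨bd, hbd⟩ : ∃ bd : Env → (Fin (k + 1) → Px (Pn N y)) → ℝ, bd = fun η x =>
    if Real.exp (-M0) / 2 ≤ VT31.cE (lw μ s η N (Pn N y)) (pJ c d)
          (fun v => if ¬ NSp μ s L N ε₁ v.1 ∨ ¬ TVp μ s N p v.1 then 1 else 0) (x l) then (1 : ℝ) else 0 := ⟨_, rfl⟩
  have hg0 : ∀ i η x, 0 ≤ g i η x := fun i η x => by
    rw [hg]
    exact mul_nonneg (by split_ifs <;> norm_num) (PsG_nonneg h0 l η _)
  have hg1 : ∀ i η x, g i η x ≤ 1 := fun i η x => by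
    rw [hg]
    exact mul_le_one₀ (by split_ifs <;> norm_num) (PsG_nonneg h0 l η _) ((PsG_le_X h0 l η x).trans (h1 η x))
  have hgm : ∀ i x, Measurable fun η => g i η x := fun i x => by
    rw [hg]
    exact (ind_meas13 c d _ (x l) _).mul (PsG_meas hm l x)
  have hbd0 : ∀ η x, 0 ≤ bd η x := fun η x => by
    rw [hbd]
    dsimp only
    split_ifs <;> norm_num
  have hbd1 : ∀ η x, bd η x ≤ 1 := fun η x => by
    rw [hbd]
    dsimp only
    split_ifs <;> norm_num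
  have hbdm : ∀ x, Measurable fun η => bd η x := fun x => by
    rw [hbd]
    exact ind_meas13 c d _ (x l) _
  -- integrability
  have iN : ∀ j : Fin (k + 1), Integrable (fun η => evD μ s N y kd A Zq η (fun x => if ¬ NSp μ s L N ε₁ (x j).1 then 1 else 0)) (law μ) :=
    fun j => h.ev_int hy (fun x => measurable_const) (fun η x => by split_ifs <;> norm_num) (fun η x => by split_ifs <;> norm_num)
  have iB : Integrable (fun η => evD μ s N y kd A Zq η (bd η)) (law μ) := h.ev_int hy hbdm hbd0 hbd1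
  have iG : ∀ i, Integrable (fun η => evD μ s N y kd A Zq η (g i η)) (law μ) := fun i => h.ev_int hy (hgm i) (hg0 i) (hg1 i)
  have iN' : Integrable (fun η => ∑ j : Fin (k + 1), evD μ s N y kd A Zq η (fun x => if ¬ NSp μ s L N ε₁ (x j).1 then 1 else 0)) (law μ) :=
    integrable_finsetSum _ fun j _ => iN j
  have iG' : Integrable (fun η => ∑ i ∈ I, evD μ s N y kd A Zq η (g i η)) (law μ) := integrable_finsetSum _ fun i _ => iG i
  -- the quenched inequality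
  have hq : ∀ η : Env, evD μ s N y kd A Zq η (fun x => (if Real.exp (-M0) ≤ mFar μ s N y L δ t τ c d l η x then 1 else 0) * X η x) ≤
      ((∑ j : Fin (k + 1), evD μ s N y kd A Zq η (fun x => if ¬ NSp μ s L N ε₁ (x j).1 then 1 else 0)) + evD μ s N y kd A Zq η (bd η)) +
        ∑ i ∈ I, evD μ s N y kd A Zq η (g i η) := by
    intro η
    have h2 := h.ev_mono hy η (far_eventB (μ := μ) (s := s) rt (τ := τ) hp hFl hE he hE3 hm0 hm1 hNL hdN l hM h0 h1 η)
    refine h2.trans (le_of_eq ?_)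
    rw [evD_add, evD_add, evD_sum, evD_sum, hI, hg, hbd]
  have hI2 := integral_mono_of_nonneg (μ := law μ) (Filter.Eventually.of_forall fun η => h.ev_nonneg hy η fun x =>
    mul_nonneg (by split_ifs <;> norm_num) (h0 η x)) ((iN'.add iB).add iG') (Filter.Eventually.of_forall hq)
  refine hI2.trans ?_
  rw [integral_add' (iN'.add iB) iG', integral_add' iN' iB, integral_finsetSum _ fun j _ => iN j, integral_finsetSum _ fun i _ => iG i]
  have b1 : ∑ j : Fin (k + 1), ∫ η, evD μ s N y kd A Zq η (fun x => if ¬ NSp μ s L N ε₁ (x j).1 then 1 else 0) ∂(law μ) ≤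
      (k + 1) * p₁ := by
    refine (sum_le_sum fun j _ => own_pathT' h hy (fun S => ¬ NSp μ s L N ε₁ S) hp₁ hns j).trans (le_of_eq ?_)
    rw [sum_const, card_univ, Fintype.card_fin, nsmul_eq_mul]
    push_cast
    ring
  have b2 : ∫ η, evD μ s N y kd A Zq η (bd η) ∂(law μ) ≤ 2 * Real.exp M0 * (p₁ + p₂) := by
    have h3 : P1 μ s N (y : ℤ) (fun _ S => ¬ NSp μ s L N ε₁ S ∨ ¬ TVp μ s N p S) ≤ ENNReal.ofReal (p₁ + p₂) := by
      rw [ENNReal.ofReal_add hp₁ hp₂]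
      exact (P1_or13 _ _).trans (add_le_add hns htv)
    have h4 := own_massT' h hy (fun S => ¬ NSp μ s L N ε₁ S ∨ ¬ TVp μ s N p S) (add_nonneg hp₁ hp₂) h3
      (a := Real.exp (-M0) / 2) (by positivity) c d l
    have h5 : (Real.exp (-M0) / 2)⁻¹ = 2 * Real.exp M0 := by
      rw [inv_div, Real.exp_neg, div_inv_eq_mul]
    rw [h5] at h4
    rw [hbd]
    exact h4
  have hzM : 0 ≤ z * M := mul_nonneg hz (by linarith)
  have iP : ∀ i : Ix k, Integrable (fun η => evD μ s N y kd A Zq η (PsG μ s (VI N y p.a i) (Ns6 μ s i.1.1 i.1.2 i.2) X l η)) (law μ) :=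
    fun i => h.ev_int hy (fun x => PsG_meas hm l x) (fun η x => PsG_nonneg h0 l η x) fun η x => (PsG_le_X h0 l η x).trans (h1 η x)
  -- one line
  have b3 : ∀ i ∈ I, ∫ η, evD μ s N y kd A Zq η (g i η) ∂(law μ) ≤
      z * M * ∫ η, evD μ s N y kd A Zq η (PsG μ s (VI N y p.a i) (Ns6 μ s i.1.1 i.1.2 i.2) X l η) ∂(law μ) + Fintype.card ι * d' := by
    intro i hi
    rw [hI, mem_product, mem_product] at hi
    obtain ⟨⟨hW, hQ⟩, -⟩ := hi
    have hW' := mem_filter.1 hW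
    have hGW := (mem_WL.1 hW'.1).2
    have hsg : i.1.2.1 = 1 ∨ i.1.2.1 = -1 := by
      unfold QL at hQ
      rw [mem_product, mem_insert, mem_singleton] at hQ
      exact hQ.1
    have hJr : (VI N y p.a i).J ⊆ i.1.1.2.2 := winE_J _ _ _ _ _ _ _
    have hJJr : (VI N y p.a i).JJ ⊆ i.1.1.2.2 := winE_JJ _ _ _ _ _ _ _
    rw [hg]
    refine one_lineT h hy (V := VI N y p.a i) rfl rfl (hp.i₁a) hzM hd hcd hdN (fun r hr => mem_Ioo.1 (hW'.2 (hJJr hr))) hm h0 h1 l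
      fun κ => ?_
    exact hT i.1.1 hGW N M hM1 i.1.2.1 i.1.2.2 hsg (Zq κ) (RG μ s N y kd A (VI N y p.a i) (Ns6 μ s i.1.1 i.1.2 i.2) X l κ)
      (RG_okT h hm h0 h1 l κ) (RG_blindT h (hoff.mono (fun r hr => mem_inter.2 ⟨WL_rows hW'.1 (hJr hr), hW'.2 (hJr hr)⟩))
        (fun r hr => hJJ (mem_inter.2 ⟨WL_rows hW'.1 (hJr hr), hW'.2 (hJr hr)⟩)) rfl rfl l κ)
  have b4 : ∑ i ∈ I, ∫ η, evD μ s N y kd A Zq η (PsG μ s (VI N y p.a i) (Ns6 μ s i.1.1 i.1.2 i.2) X l η) ∂(law μ) ≤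
      260 * (k + 1) * (WB rt N t τ n1 e0 E p.a c d).card * ∫ η, evD μ s N y kd A Zq η (X η) ∂(law μ) := by
    rw [← integral_finsetSum _ fun i _ => iP i, ← integral_const_mul]
    refine integral_mono (integrable_finsetSum _ fun i _ => iP i) ((h.ev_int hy hm h0 h1).const_mul _) fun η => ?_
    show ∑ i ∈ I, evD μ s N y kd A Zq η (PsG μ s (VI N y p.a i) (Ns6 μ s i.1.1 i.1.2 i.2) X l η) ≤
      260 * (k + 1) * (WB rt N t τ n1 e0 E p.a c d).card * evD μ s N y kd A Zq η (X η)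
    rw [← evD_sum, ← evD_smul, hI]
    exact h.ev_mono hy η fun x => sum_PsG_le L p.a (WB rt N t τ n1 e0 E p.a c d) h0 l η x
  have b5 : ∑ i ∈ I, ∫ η, evD μ s N y kd A Zq η (g i η) ∂(law μ) ≤
      z * M * (260 * (k + 1) * (WB rt N t τ n1 e0 E p.a c d).card * ∫ η, evD μ s N y kd A Zq η (X η) ∂(law μ)) +
        I.card * (Fintype.card ι * d') := by
    refine (sum_le_sum b3).trans ?_
    rw [sum_add_distrib, ← mul_sum, sum_const, nsmul_eq_mul]
    exact add_le_add (mul_le_mul_of_nonneg_left b4 hzM) le_rfl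
  rw [← hI]
  have b6 : z * M * (260 * (k + 1) * (WB rt N t τ n1 e0 E p.a c d).card) * ∫ η, evD μ s N y kd A Zq η (X η) ∂(law μ) =
      z * M * (260 * (k + 1) * (WB rt N t τ n1 e0 E p.a c d).card * ∫ η, evD μ s N y kd A Zq η (X η) ∂(law μ)) := by ring
  rw [b6]
  linarith


end

end Pool.Agent.W_7d29a1_C0.F13
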