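import Pool.Agent.W_7d29a1_C0.NumA46
import Pool.Agent.W_7d29a1_C0.FarP13B

/-!
C0, helper46 (after helper13, FarP13B): THE FAR PRICE AT TILTED WEIGHTS, first part: densities `OwnA` of the own replicas which are
ANTITONE in the sites of the rows `J` off the replicas (no normalisation is separated, no kinds), of mass at most one, with marginals at
most `K` times the free law. The price of one line, in event form.
-/

set_option autoImplicit false

namespace Pool.Agent.W_7d29a1_C0.Ft46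

open MeasureTheory ProbabilityTheory Filter Topology Finset
open Pool.Agent.W_7d29a1_F Pool.Agent.W_7d29a1_X Pool.Agent.W_7d29a1_H Pool.Agent.W_7d29a1_HZ
open Pool.Agent.W_7d29a1_HS (In wd md)
open Pool.Agent.W_7d29a1_HZ.ZE
open Pool.Agent.W_7d29a1_HZ.Z15 (kC ZC)
open Pool.Agent.W_7d29a1_HZ.Z36 (kk kk_nonneg)
open Pool.Agent.W_7d29a1_HZ.Z86.GX (WT)
open Pool.Agent.W_7d29a1_ZE (Win Br J_sub_JJ)
open Pool.Agent.W_7d29a1_C0.Mod92 (Px Pn lw pos_card ne_Pn pJ ps_of_le ps_of_ge)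
open Pool.Agent.W_7d29a1_C0.F13
open Pool.W7d29a1.C0 (gz gm gz_pos gz_ne)
open Pool.W7d29a1.C0
open scoped ENNReal

noncomputable section

variable {μ : Measure ℝ} {s : ℝ} {N y : ℕ}

/-! ### Antitone densities of own replicas -/

/-- **A density of `k + 1` own replicas**: nonincreasing in the sites of the rows `J` which are not on the replicas. -/
structure OwnA (μ : Measure ℝ) (s : ℝ) (N y : ℕ) (J : Finset ℕ) (K : ℝ) {k : ℕ} (dn : Env → (Fin (k + 1) → Px (Pn N y)) → ℝ) : Prop where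
  K1 : 1 ≤ K
  dm : ∀ x, Measurable fun η => dn η x
  d0 : ∀ η x, 0 ≤ dn η x
  one : ∀ η, ∑ x, dn η x ≤ 1
  anti : ∀ (η η' : Env) (x : Fin (k + 1) → Px (Pn N y)), η ≤ η' →
    (∀ q : Pt, (0 ≤ q.1 ∧ q.1.toNat ∈ J → OnP x q) → η q = η' q) → dn η' x ≤ dn η x
  marg : ∀ (η : Env) (l : Fin (k + 1)) (S : Px (Pn N y)),
    (∑ x, if x l = S then dn η x else 0) ≤ K * (pth μ s η N S.1 / ZC μ s N (y : ℤ) η)

/-- The average over the own replicas. -/
def evA {m : ℕ} (dn : Env → (Fin m → Px (Pn N y)) → ℝ) (η : Env) (Ψ : (Fin m → Px (Pn N y)) → ℝ) : ℝ := ∑ x, dn η x * Ψ x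

theorem evA_add {m : ℕ} (dn : Env → (Fin m → Px (Pn N y)) → ℝ) (η : Env) (Ψ Φ : (Fin m → Px (Pn N y)) → ℝ) :
    evA dn η (fun x => Ψ x + Φ x) = evA dn η Ψ + evA dn η Φ := by
  unfold evA
  rw [← sum_add_distrib]
  exact sum_congr rfl fun x _ => mul_add _ _ _

theorem evA_sum {m : ℕ} (dn : Env → (Fin m → Px (Pn N y)) → ℝ) {α : Type*} (I : Finset α) (η : Env)
    (Ψ : α → (Fin m → Px (Pn N y)) → ℝ) : evA dn η (fun x => ∑ j ∈ I, Ψ j x) = ∑ j ∈ I, evA dn η (Ψ j) := by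
  unfold evA
  rw [sum_comm]
  exact sum_congr rfl fun x _ => mul_sum _ _ _

theorem evA_smul {m : ℕ} (dn : Env → (Fin m → Px (Pn N y)) → ℝ) (η : Env) (a : ℝ) (Ψ : (Fin m → Px (Pn N y)) → ℝ) :
    evA dn η (fun x => a * Ψ x) = a * evA dn η Ψ := by
  unfold evA
  rw [mul_sum]
  exact sum_congr rfl fun x _ => by ring

variable {k : ℕ} {J : Finset ℕ} {K : ℝ} {dn : Env → (Fin (k + 1) → Px (Pn N y)) → ℝ}

section D

variable (h : OwnA μ s N y J K dn)
include h

theorem OwnA.K0 : 0 < K := lt_of_lt_of_le zero_lt_one h.K1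

theorem OwnA.ev_nonneg (η : Env) {Ψ : (Fin (k + 1) → Px (Pn N y)) → ℝ} (hΨ : ∀ x, 0 ≤ Ψ x) : 0 ≤ evA dn η Ψ :=
  sum_nonneg fun x _ => mul_nonneg (h.d0 η x) (hΨ x)

theorem OwnA.ev_mono (η : Env) {Ψ Φ : (Fin (k + 1) → Px (Pn N y)) → ℝ} (hΨ : ∀ x, Ψ x ≤ Φ x) : evA dn η Ψ ≤ evA dn η Φ :=
  sum_le_sum fun x _ => mul_le_mul_of_nonneg_left (hΨ x) (h.d0 η x)

theorem OwnA.ev_le_one (η : Env) {Ψ : (Fin (k + 1) → Px (Pn N y)) → ℝ} (hΨ : ∀ x, Ψ x ≤ 1) : evA dn η Ψ ≤ 1 := by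
  refine (h.ev_mono η hΨ).trans ?_
  unfold evA
  simp only [mul_one]
  exact h.one η

/-- The marginals are at most `K` times the free law. -/
theorem OwnA.ev_coord (η : Env) (l : Fin (k + 1)) {b : Px (Pn N y) → ℝ} (hb : ∀ S, 0 ≤ b S) :
    evA dn η (fun x => b (x l)) ≤ K * ∑ S : Px (Pn N y), pth μ s η N S.1 / ZC μ s N (y : ℤ) η * b S := by
  unfold evA
  rw [sum_ins l, mul_sum]
  refine sum_le_sum fun S _ => ?_
  have h1 := h.marg η l S
  rw [sum_fixl l S] at h1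
  have h2 : ∑ T : Fin k → Px (Pn N y), dn η (l.insertNth S T) * b ((l.insertNth S T : Fin (k + 1) → Px (Pn N y)) l) =
      (∑ T : Fin k → Px (Pn N y), dn η (l.insertNth S T)) * b S := by
    rw [sum_mul]
    refine sum_congr rfl fun T _ => ?_
    rw [Fin.insertNth_apply_same]
  rw [h2, ← mul_assoc]
  exact mul_le_mul_of_nonneg_right h1 (hb S)

theorem OwnA.ev_meas {Ψ : Env → (Fin (k + 1) → Px (Pn N y)) → ℝ} (hm : ∀ x, Measurable fun η => Ψ η x) :
    Measurable fun η => evA dn η (Ψ η) :=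
  Finset.measurable_fun_sum _ fun x _ => (h.dm x).mul (hm x)

theorem OwnA.ev_int [IsProbabilityMeasure μ] {Ψ : Env → (Fin (k + 1) → Px (Pn N y)) → ℝ} (hm : ∀ x, Measurable fun η => Ψ η x)
    (h0 : ∀ η x, 0 ≤ Ψ η x) (h1 : ∀ η x, Ψ η x ≤ 1) : Integrable (fun η => evA dn η (Ψ η)) (law μ) := by
  refine Integrable.of_bound (h.ev_meas hm).aestronglyMeasurable 1 (Filter.Eventually.of_forall fun η => ?_)
  rw [Real.norm_eq_abs, abs_of_nonneg (h.ev_nonneg η (h0 η))]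
  exact h.ev_le_one η (h1 η)

end D

/-! ### The weight of the other own replicas -/

open scoped Classical in
/-- The weight of the other own replicas. -/
def RA (μ : Measure ℝ) (s : ℝ) (N y : ℕ) (K : ℝ) {k : ℕ} (dn : Env → (Fin (k + 1) → Px (Pn N y)) → ℝ) (V : Win)
    (nr : (Fin (k + 1) → Px (Pn N y)) → Prop) (X : Env → (Fin (k + 1) → Px (Pn N y)) → ℝ) (l : Fin (k + 1)) (S : Finset ℕ) (η : Env) : ℝ :=
  if h : S ∈ Pn N y then (∑ T : Fin k → Px (Pn N y),
    (if nr (l.insertNth ⟨S, h⟩ T) ∧ ∀ i, Av μ s V (T i).1 then 1 else 0) *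
      (dn η (l.insertNth ⟨S, h⟩ T) * X η (l.insertNth ⟨S, h⟩ T))) * (ZC μ s N (y : ℤ) η / (K * pth μ s η N S)) else 0

theorem RA_ok [IsProbabilityMeasure μ] (h : OwnA μ s N y J K dn) (hy : y ≤ N) {V : Win} {nr : (Fin (k + 1) → Px (Pn N y)) → Prop}
    {X : Env → (Fin (k + 1) → Px (Pn N y)) → ℝ} (hm : ∀ x, Measurable fun η => X η x) (h0 : ∀ η x, 0 ≤ X η x) (h1 : ∀ η x, X η x ≤ 1)
    (l : Fin (k + 1)) : RaOk (RA μ s N y K dn V nr X l) := by
  classical
  refine ⟨fun S => ?_, fun S η => ?_, fun S η => ?_⟩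
  · unfold RA
    by_cases hS : S ∈ Pn N y
    · simp only [hS, dif_pos]
      refine Measurable.mul (Finset.measurable_sum _ fun T _ => ?_)
        ((ZC_meas N (y : ℤ)).div ((Pool.Agent.W_7d29a1_C0.Mod92.meas_pth N S).const_mul K))
      exact ((h.dm _).mul (hm _)).const_mul _
    · simp only [hS, dif_neg, not_false_eq_true]
      exact measurable_const
  · unfold RA
    split_ifs with hS
    · refine mul_nonneg (sum_nonneg fun T _ => mul_nonneg ?_ (mul_nonneg (h.d0 _ _) (h0 _ _)))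
        (div_nonneg (ZC_pos13 hy η).le (mul_pos h.K0 (pth_pos13 η N _)).le)
      split_ifs <;> norm_num
    · exact le_rfl
  · unfold RA
    split_ifs with hS
    swap
    · exact zero_le_one
    have hp := pth_pos13 (μ := μ) (s := s) η N S
    have hz := ZC_pos13 (μ := μ) (s := s) hy η
    have hK := h.K0
    have h2 := h.marg η l ⟨S, hS⟩
    rw [sum_fixl l ⟨S, hS⟩] at h2
    have h3 : ∀ T : Fin k → Px (Pn N y),
        (if nr (l.insertNth ⟨S, hS⟩ T) ∧ ∀ i, Av μ s V (T i).1 then (1 : ℝ) else 0) *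
          (dn η (l.insertNth ⟨S, hS⟩ T) * X η (l.insertNth ⟨S, hS⟩ T)) ≤ dn η (l.insertNth ⟨S, hS⟩ T) := by
      intro T
      have a1 := h.d0 η (l.insertNth ⟨S, hS⟩ T)
      have a3 := h0 η (l.insertNth ⟨S, hS⟩ T)
      have a4 := h1 η (l.insertNth ⟨S, hS⟩ T)
      have a5 := mul_le_of_le_one_right a1 a4
      split_ifs
      · rw [one_mul]
        exact a5
      · rw [zero_mul]
        exact a1
    have hd : 0 < K * pth μ s η N S := mul_pos hK hp
    have h4 := (sum_le_sum fun T _ => h3 T).trans h2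
    have h5 := mul_le_mul_of_nonneg_right h4 (div_pos hz hd).le
    refine h5.trans (le_of_eq ?_)
    show K * (pth μ s η N S / ZC μ s N (y : ℤ) η) * (ZC μ s N (y : ℤ) η / (K * pth μ s η N S)) = 1
    field_simp

theorem RA_anti [IsProbabilityMeasure μ] (h : OwnA μ s N y J K dn) (hy : y ≤ N) {V : Win} (hVN : V.N = N) (hVy : V.y = (y : ℤ))
    (hJ : V.J ⊆ J) {nr : (Fin (k + 1) → Px (Pn N y)) → Prop}
    {X : Env → (Fin (k + 1) → Px (Pn N y)) → ℝ} (hX : OffV V.J X) (h0 : ∀ η x, 0 ≤ X η x) (l : Fin (k + 1)) :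
    AntR μ s V (RA μ s N y K dn V nr X l) := by
  classical
  intro η η' S hL hle hη
  rw [hVN, hVy]
  unfold RA
  split_ifs with hS
  swap
  · rw [zero_div, zero_div]
  have hp := pth_pos13 (μ := μ) (s := s) η N S
  have hp' := pth_pos13 (μ := μ) (s := s) η' N S
  have hz := ZC_pos13 (μ := μ) (s := s) hy η
  have hz' := ZC_pos13 (μ := μ) (s := s) hy η'
  have hK := h.K0
  have e3 : pth μ s η N S = pth μ s η' N S := pth_Av (V := V) (fun r hr hc => by
    have := hL r hr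
    linarith [hc.1]) hη N
  have e0 : ∀ (a z : ℝ), 0 < z → a * (z / (K * pth μ s η' N S)) / z = a / (K * pth μ s η' N S) := fun a z hz => by
    field_simp
  rw [e3, e0 _ _ hz, e0 _ _ hz']
  refine div_le_div_of_nonneg_right (sum_le_sum fun T _ => ?_) (mul_pos hK hp').le
  by_cases hk : nr (l.insertNth ⟨S, hS⟩ T) ∧ ∀ i, Av μ s V (T i).1
  · have hon : ∀ q : Pt, OnP (l.insertNth ⟨S, hS⟩ T : Fin (k + 1) → Px (Pn N y)) q → ¬ InStrip μ s V q := fun q hq =>
      onP_strip (S := ⟨S, hS⟩) hL hk.2 hq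
    have e2 : X η (l.insertNth ⟨S, hS⟩ T) = X η' (l.insertNth ⟨S, hS⟩ T) := hX η η' _ fun q hq => hη q fun hs => by
      exact hon q (hq ⟨hs.1, hs.2.1⟩) hs
    have e1 : dn η' (l.insertNth ⟨S, hS⟩ T) ≤ dn η (l.insertNth ⟨S, hS⟩ T) := h.anti η η' _ hle fun q hq => hη q fun hs => by
      exact hon q (hq ⟨hs.1, hJ hs.2.1⟩) hs
    rw [if_pos hk, one_mul, one_mul, e2]
    exact mul_le_mul_of_nonneg_right e1 (h0 _ _)
  · rw [if_neg hk, zero_mul, zero_mul]

/-! ### One line -/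

open scoped Classical in
/-- The average of one line as a mass with the weight `RA`. -/
theorem evA_PsG [IsProbabilityMeasure μ] (h : OwnA μ s N y J K dn) (hy : y ≤ N) (η : Env) {V : Win}
    {nr : (Fin (k + 1) → Px (Pn N y)) → Prop} (X : Env → (Fin (k + 1) → Px (Pn N y)) → ℝ) (l : Fin (k + 1)) (b : Px (Pn N y) → ℝ) :
    evA dn η (fun x => b (x l) * PsG μ s V nr X l η x) =
      K * ∑ S : Px (Pn N y), pth μ s η N S.1 / ZC μ s N (y : ℤ) η *
        (b S * ((if InL μ s V.sg V.J V.Y S.1 then 1 else 0) * RA μ s N y K dn V nr X l S.1 η)) := by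
  unfold evA
  rw [sum_ins l, mul_sum]
  refine sum_congr rfl fun S _ => ?_
  have hp := pth_pos13 (μ := μ) (s := s) η N S.1
  have hz := ZC_pos13 (μ := μ) (s := s) hy η
  have hK := h.K0
  unfold RA
  rw [dif_pos S.2]
  have hS' : (⟨S.1, S.2⟩ : Px (Pn N y)) = S := rfl
  rw [hS']
  obtain ⟨I, hI⟩ : ∃ I : ℝ, I = if InL μ s V.sg V.J V.Y S.1 then 1 else 0 := ⟨_, rfl⟩
  rw [← hI]
  obtain ⟨G, hG⟩ : ∃ G : (Fin k → Px (Pn N y)) → ℝ, G = fun T =>
    (if nr (l.insertNth S T) ∧ ∀ i, Av μ s V (T i).1 then (1 : ℝ) else 0) * (dn η (l.insertNth S T) * X η (l.insertNth S T)) := ⟨_, rfl⟩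
  have e1 : ∀ T : Fin k → Px (Pn N y), dn η (l.insertNth S T) *
      (b ((l.insertNth S T : Fin (k + 1) → Px (Pn N y)) l) * PsG μ s V nr X l η (l.insertNth S T)) = (b S * I) * G T := fun T => by
    rw [hG]
    unfold PsG
    rw [Fin.insertNth_apply_same]
    simp only [Fin.insertNth_apply_succAbove]
    rw [← hI]
    ring
  have e2 : (∑ T : Fin k → Px (Pn N y), (if nr (l.insertNth S T) ∧ ∀ i, Av μ s V (T i).1 then (1 : ℝ) else 0) *
      (dn η (l.insertNth S T) * X η (l.insertNth S T))) = ∑ T, G T := by rw [hG]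
  rw [e2, sum_congr rfl fun T _ => e1 T, ← mul_sum]
  field_simp

open scoped Classical in
/-- **The price of one line, event form.** -/
theorem one_lineA [IsProbabilityMeasure μ] (h : OwnA μ s N y J K dn) (hy : y ≤ N) {V : Win} (hVN : V.N = N) (hVH : V.H = N)
    {L : ℕ} {e C : ℝ} {i₀ i₁ : ℕ} (hi : i₁ ≤ V.a) {M q δ : ℝ} (hq : 0 ≤ q) (hδ : 0 ≤ δ) {c d : ℕ} (hcd : c ≤ d) (hd : d ≤ N)
    (hJJ : ∀ i ∈ V.JJ, c < i ∧ i < d) {nr : (Fin (k + 1) → Px (Pn N y)) → Prop}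
    {X : Env → (Fin (k + 1) → Px (Pn N y)) → ℝ} (hm : ∀ x, Measurable fun η => X η x) (h0 : ∀ η x, 0 ≤ X η x)
    (h1 : ∀ η x, X η x ≤ 1) (l : Fin (k + 1))
    (hT : PR μ s N (y : ℤ) (RA μ s N y K dn V nr X l) (NTE μ s V L e C i₀ i₁ M) ≤
        ENNReal.ofReal q * PR μ s N (y : ℤ) (RA μ s N y K dn V nr X l) (fun _ S => InL μ s V.sg V.J V.Y S) +
          ENNReal.ofReal δ) :
    ∫ η, evA dn η (fun x => (if Real.exp (-M) ≤ VT31.cE (lw μ s η N (Pn N y)) (pJ c d)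
        (fun v => if cE μ s V L e C i₀ i₁ (pos v.1) then 1 else 0) (x l) then 1 else 0) * PsG μ s V nr X l η x) ∂(law μ) ≤
      q * ∫ η, evA dn η (PsG μ s V nr X l η) ∂(law μ) + K * δ := by
  have hK := h.K0
  obtain ⟨ρ, hρ⟩ : ∃ ρ : Finset ℕ → Env → ℝ, ρ = RA μ s N y K dn V nr X l := ⟨_, rfl⟩
  have hok := RA_ok h hy (V := V) (nr := nr) hm h0 h1 l
  rw [← hρ] at hok
  have hρm := hok.rm
  have hρ0 := hok.r0
  have hρ1 := hok.r1
  -- the masses
  obtain ⟨F, hF⟩ : ∃ F : (Env → Finset ℕ → Prop) → Env → ℝ, F = fun A η => ∑ S ∈ (range N).powerset,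
    (if A η S then (1 : ℝ) else 0) * (gp μ s η N (y : ℤ) S * ρ S η) := ⟨_, rfl⟩
  have hF0 : ∀ A η, 0 ≤ F A η := fun A η => by
    rw [hF]
    exact sum_nonneg fun S _ => mul_nonneg (by split_ifs <;> norm_num) (mul_nonneg (gp_nonneg36 _ _ _ _) (hρ0 S η))
  have hF1 : ∀ A η, F A η ≤ 1 := fun A η => by
    rw [hF]
    refine le_trans (sum_le_sum fun S _ => ?_) (sum_gp_mul_le_one (μ := μ) (s := s) η N (y : ℤ) (a := fun S => 1) fun _ => le_rfl)
    have g1 := gp_nonneg36 (μ := μ) (s := s) η N (y : ℤ) S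
    have g2 := mul_le_mul_of_nonneg_left (hρ1 S η) g1
    split_ifs
    · linarith
    · linarith
  have hFm : ∀ (A : Env → Finset ℕ → Prop), Ms A → Measurable (F A) := fun A hA => by
    rw [hF]
    exact Finset.measurable_sum _ fun S _ => (Measurable.ite (hA S) measurable_const measurable_const).mul
      ((gp_meas36 N (y : ℤ) S).mul (hρm S))
  have hFi : ∀ (A : Env → Finset ℕ → Prop), Ms A → Integrable (F A) (law μ) := fun A hA => by
    refine Integrable.of_bound (hFm A hA).aestronglyMeasurable 1 (Filter.Eventually.of_forall fun η => ?_)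
    rw [Real.norm_eq_abs, abs_of_nonneg (hF0 A η)]
    exact hF1 A η
  -- the hypothesis for integrals
  have hT' : ∫ η, F (NTE μ s V L e C i₀ i₁ M) η ∂(law μ) ≤ q * ∫ η, F (fun _ S => InL μ s V.sg V.J V.Y S) η ∂(law μ) + δ := by
    have h2 := hT
    rw [← hρ, PR_eq hρm hρ0 hρ1 (NTE_ms _ _ _ _ _ _ _), PR_eq hρm hρ0 hρ1 (InL_ms _ _ _), ← ENNReal.ofReal_mul hq,
      ← ENNReal.ofReal_add (mul_nonneg hq (integral_nonneg fun η => sum_nonneg fun S _ => mul_nonneg (by split_ifs <;> norm_num)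
        (mul_nonneg (gp_nonneg36 _ _ _ _) (hρ0 S η)))) hδ,
      ENNReal.ofReal_le_ofReal_iff (add_nonneg (mul_nonneg hq (integral_nonneg fun η => sum_nonneg fun S _ =>
        mul_nonneg (by split_ifs <;> norm_num) (mul_nonneg (gp_nonneg36 _ _ _ _) (hρ0 S η)))) hδ)] at h2
    rw [hF]
    exact h2
  -- the quenched sums
  have hsum : ∀ (η : Env) (b : Finset ℕ → ℝ), ∑ S : Px (Pn N y), pth μ s η N S.1 / ZC μ s N (y : ℤ) η * (b S.1 * ρ S.1 η) =
      ∑ S ∈ (range N).powerset, gp μ s η N (y : ℤ) S * (b S * ρ S η) := fun η b =>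
    (sum_gp_Px η fun S => b S * ρ S η).symm
  have eL : ∀ η : Env, evA dn η (PsG μ s V nr X l η) = K * F (fun _ S => InL μ s V.sg V.J V.Y S) η := by
    intro η
    have e1 := evA_PsG h hy η (V := V) (nr := nr) X l fun _ => 1
    simp only [one_mul] at e1
    rw [e1, ← hρ]
    congr 1
    have e2 := hsum η fun S => if InL μ s V.sg V.J V.Y S then 1 else 0
    rw [hF]
    refine e2.trans (sum_congr rfl fun S _ => ?_)
    dsimp only
    ring
  have eN : ∀ η : Env, evA dn η (fun x => (if Real.exp (-M) ≤ VT31.cE (lw μ s η N (Pn N y)) (pJ c d)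
        (fun v => if cE μ s V L e C i₀ i₁ (pos v.1) then 1 else 0) (x l) then 1 else 0) * PsG μ s V nr X l η x) ≤
      K * F (NTE μ s V L e C i₀ i₁ M) η := by
    intro η
    rw [evA_PsG h hy η (V := V) (nr := nr) X l fun S => (if Real.exp (-M) ≤ VT31.cE (lw μ s η N (Pn N y)) (pJ c d)
        (fun v => if cE μ s V L e C i₀ i₁ (pos v.1) then 1 else 0) S then 1 else 0)]
    refine mul_le_mul_of_nonneg_left ?_ hK.le
    have e2 := hsum η fun S => if NTE μ s V L e C i₀ i₁ M η S then 1 else 0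
    have e3 : F (NTE μ s V L e C i₀ i₁ M) η =
        ∑ S : Px (Pn N y), pth μ s η N S.1 / ZC μ s N (y : ℤ) η * ((if NTE μ s V L e C i₀ i₁ M η S.1 then 1 else 0) * ρ S.1 η) := by
      rw [e2, hF]
      refine sum_congr rfl fun S _ => ?_
      ring
    rw [e3]
    refine sum_le_sum fun S _ => mul_le_mul_of_nonneg_left ?_ (div_nonneg (pth_pos13 η N _).le (ZC_pos13 hy η).le)
    rw [← mul_assoc, ← hρ]
    refine mul_le_mul_of_nonneg_right ?_ (hρ0 S.1 η)
    by_cases hM : Real.exp (-M) ≤ VT31.cE (lw μ s η N (Pn N y)) (pJ c d)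
        (fun v => if cE μ s V L e C i₀ i₁ (pos v.1) then 1 else 0) S
    · by_cases hL : InL μ s V.sg V.J V.Y S.1
      · rw [if_pos hM, if_pos hL, if_pos (nte_of_blk hVN hVH hi hcd hd hJJ hL hM)]
        norm_num
      · rw [if_neg hL, mul_zero]
        split_ifs <;> norm_num
    · rw [if_neg hM, zero_mul]
      split_ifs <;> norm_num
  have h2 := integral_mono_of_nonneg (μ := law μ) (Filter.Eventually.of_forall fun η => h.ev_nonneg η fun x =>
    mul_nonneg (by split_ifs <;> norm_num) (PsG_nonneg (μ := μ) (s := s) (V := V) (nr := nr) h0 l η x))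
    ((hFi _ (NTE_ms _ _ _ _ _ _ _)).const_mul K) (Filter.Eventually.of_forall eN)
  refine h2.trans ?_
  have e5 : ∫ η, evA dn η (PsG μ s V nr X l η) ∂(law μ) = K * ∫ η, F (fun _ S => InL μ s V.sg V.J V.Y S) η ∂(law μ) := by
    rw [← integral_const_mul]
    exact integral_congr_ae (Filter.Eventually.of_forall eL)
  rw [e5, integral_const_mul]
  have h3 := mul_le_mul_of_nonneg_left hT' hK.le
  refine h3.trans (le_of_eq ?_)
  ring

end

end Pool.Agent.W_7d29a1_C0.Ft46
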