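import Pool.Agent.W_7d29a1_C0.FarT46C
import Pool.Agent.W_7d29a1_C0.PlanP13
import Pool.Agent.W_7d29a1_C0.FarG34

/-!
C0, helper46: THE FAR PRICE AT TILTED WEIGHTS, fourth part: a plan of blocks (`BP`) at the weights `lw + u`, `|u| ≤ D`, `u` blind on the rows
`J`, is an antitone density `OwnA` with `K = exp (2 D)` (`ownA_plan`): every factor of the density is a weight which sees of the rows `J`
only the own sites, over a fibre sum which is nondecreasing in the sites of these rows. No condition on the blocks of the conditional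
replicas.
-/

set_option autoImplicit false

namespace Pool.Agent.W_7d29a1_C0.Ft46

open MeasureTheory ProbabilityTheory Filter Topology Finset
open Pool.Agent.W_7d29a1_F Pool.Agent.W_7d29a1_X Pool.Agent.W_7d29a1_H Pool.Agent.W_7d29a1_HZ
open Pool.Agent.W_7d29a1_HS (In wd md)
open Pool.Agent.W_7d29a1_HZ.ZE
open Pool.Agent.W_7d29a1_HZ.Z15 (kC ZC)
open Pool.Agent.W_7d29a1_C0.Mod92 (Px Pn lw pos_card ne_Pn pJ ps_of_le ps_of_ge)
open Pool.Agent.W_7d29a1_C0.F13
open Pool.W7d29a1.C0 (gz gm gz_pos gz_ne)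
open Pool.W7d29a1.C0
open Pool.W7d29a1.C0.I52 (Plan)

noncomputable section

variable {μ : Measure ℝ} {s : ℝ} {N y : ℕ}

/-! ### Weights -/

/-- The tilt: measurable, bounded, blind on the rows `J`. -/
structure TwOk (N y : ℕ) (J : Finset ℕ) (D : ℝ) (u : Env → Px (Pn N y) → ℝ) : Prop where
  um : ∀ S, Measurable fun η => u η S
  ub : ∀ η S, |u η S| ≤ D
  uJ : ∀ (η η' : Env) (S : Px (Pn N y)), (∀ q : Pt, ¬ (0 ≤ q.1 ∧ q.1.toNat ∈ J) → η q = η' q) → u η S = u η' S

theorem lw_mono6 {η η' : Env} (h : η ≤ η') (S : Px (Pn N y)) : lw μ s η N (Pn N y) S ≤ lw μ s η' N (Pn N y) S := by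
  show Real.log (pth μ s η N S.1) ≤ Real.log (pth μ s η' N S.1)
  refine Real.log_le_log (pth_pos13 η N S.1) ?_
  rw [← W_7d29a1_Z.pw_pth, ← W_7d29a1_Z.pw_pth]
  exact W_7d29a1_Z.pw_mono _ _ _ _ _ fun p => h p

theorem lw_onP {m : ℕ} {x : Fin m → Px (Pn N y)} (j : Fin m) {η η' : Env} (h : ∀ q : Pt, OnP x q → η q = η' q) :
    lw μ s η N (Pn N y) (x j) = lw μ s η' N (Pn N y) (x j) := by
  show Real.log (pth μ s η N (x j).1) = Real.log (pth μ s η' N (x j).1)
  rw [pth_onP j h]

section Wt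

variable {J : Finset ℕ} {D : ℝ} {u w : Env → Px (Pn N y) → ℝ}

theorem TwOk.wm (hu : TwOk N y J D u) (hw : ∀ η S, w η S = lw μ s η N (Pn N y) S + u η S) : Measurable w := by
  have e : w = fun η S => lw μ s η N (Pn N y) S + u η S := by
    funext η S
    exact hw η S
  rw [e]
  refine measurable_pi_lambda _ fun S => Measurable.add ?_ (hu.um S)
  exact (measurable_pi_apply S).comp Pool.Agent.W_7d29a1_C0.Far34.meas_lw

/-- The weights of a plan are nonincreasing in the sites of the rows `J` off the replicas. -/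
theorem wtT_anti (hu : TwOk N y J D u) (hw : ∀ η S, w η S = lw μ s η N (Pn N y) S + u η S) : {m : ℕ} → (P : Plan (Px (Pn N y)) m) →
    ∀ (η η' : Env) (x : Fin m → Px (Pn N y)), η ≤ η' → (∀ q : Pt, (0 ≤ q.1 ∧ q.1.toNat ∈ J → OnP x q) → η q = η' q) →
      I52.wt P (w η') x ≤ I52.wt P (w η) x
  | _, Plan.nil, _, _, _, _, _ => le_rfl
  | _, @Plan.cons _ m P A hA, η, η', x, hle, hη => by
    rw [I52.wt_cons, I52.wt_cons]
    refine mul_le_mul (wtT_anti hu hw P η η' (Fin.tail x) hle fun q hq => hη q fun h1 => OnP_tail (hq h1)) ?_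
      (I52.ker_nonneg _ _ _) (I52.wt_nonneg _ _ _)
    have huE : ∀ S, u η S = u η' S := fun S => hu.uJ η η' S fun q hq => hη q fun h1 => absurd h1 hq
    have hown : w η (x 0) = w η' (x 0) := by
      rw [hw, hw, huE, lw_onP 0 fun q hq => hη q fun _ => hq]
    unfold I52.ker
    split_ifs with hx
    · rw [← hown]
      refine div_le_div_of_nonneg_left (Real.exp_pos _).le (I52.zs_pos _ (hA _)) ?_
      unfold I52.zs
      refine sum_le_sum fun S _ => Real.exp_le_exp.2 ?_
      rw [hw, hw, huE]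
      exact add_le_add (lw_mono6 hle S) le_rfl
    · exact le_rfl

/-- The tilted free law is at most `exp (2 D)` times the free law. -/
theorem gm_tilt [Nonempty (Px (Pn N y))] (hu : TwOk N y J D u) (hw : ∀ η S, w η S = lw μ s η N (Pn N y) S + u η S) (η : Env)
    {g : Px (Pn N y) → ℝ} (hg : ∀ S, 0 ≤ g S) : gm (w η) g ≤ Real.exp (2 * D) * gm (lw μ s η N (Pn N y)) g := by
  have h1 : ∀ S, Real.exp (w η S) ≤ Real.exp D * Real.exp (lw μ s η N (Pn N y) S) := fun S => by
    rw [← Real.exp_add, hw]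
    exact Real.exp_le_exp.2 (by linarith [(abs_le.1 (hu.ub η S)).2])
  have h2 : ∀ S, Real.exp (-D) * Real.exp (lw μ s η N (Pn N y) S) ≤ Real.exp (w η S) := fun S => by
    rw [← Real.exp_add, hw]
    exact Real.exp_le_exp.2 (by linarith [(abs_le.1 (hu.ub η S)).1])
  have hz := gz_pos (lw μ s η N (Pn N y))
  have hz' := gz_pos (w η)
  have h3 : Real.exp (-D) * gz (lw μ s η N (Pn N y)) ≤ gz (w η) := by
    unfold gz
    rw [mul_sum]
    exact sum_le_sum fun S _ => h2 S
  have h4 : ∑ S, Real.exp (w η S) * g S ≤ Real.exp D * ∑ S, Real.exp (lw μ s η N (Pn N y) S) * g S := by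
    rw [mul_sum]
    refine sum_le_sum fun S _ => ?_
    rw [← mul_assoc]
    exact mul_le_mul_of_nonneg_right (h1 S) (hg S)
  have h5 : 0 ≤ ∑ S, Real.exp (lw μ s η N (Pn N y) S) * g S := sum_nonneg fun S _ => mul_nonneg (Real.exp_pos _).le (hg S)
  have e1 : ∀ v : Px (Pn N y) → ℝ, gm v g = (∑ S, Real.exp (v S) * g S) / gz v := fun v => rfl
  rw [e1, e1, mul_div_assoc', div_le_div_iff₀ hz' hz]
  have e2 : Real.exp (2 * D) * Real.exp (-D) = Real.exp D := by
    rw [← Real.exp_add]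
    congr 1
    ring
  calc (∑ S, Real.exp (w η S) * g S) * gz (lw μ s η N (Pn N y)) ≤
        (Real.exp D * ∑ S, Real.exp (lw μ s η N (Pn N y) S) * g S) * gz (lw μ s η N (Pn N y)) := mul_le_mul_of_nonneg_right h4 hz.le
    _ = Real.exp (2 * D) * (∑ S, Real.exp (lw μ s η N (Pn N y) S) * g S) * (Real.exp (-D) * gz (lw μ s η N (Pn N y))) := by
        rw [← e2]
        ring
    _ ≤ Real.exp (2 * D) * (∑ S, Real.exp (lw μ s η N (Pn N y) S) * g S) * gz (w η) :=
        mul_le_mul_of_nonneg_left h3 (mul_nonneg (Real.exp_pos _).le h5)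

/-- The tilted conditional mean is at most `exp (2 D)` times the conditional mean. -/
theorem cE_tilt {Y : Type*} [DecidableEq Y] (hu : TwOk N y J D u) (hw : ∀ η S, w η S = lw μ s η N (Pn N y) S + u η S) (η : Env)
    (p : Px (Pn N y) → Y) {f : Px (Pn N y) → ℝ} (hf : ∀ S, 0 ≤ f S) (S : Px (Pn N y)) :
    VT31.cE (w η) p f S ≤ Real.exp (2 * D) * VT31.cE (lw μ s η N (Pn N y)) p f S := by
  classical
  have : Nonempty (Px (Pn N y)) := ⟨S⟩
  have h1 : ∀ S, Real.exp (w η S) ≤ Real.exp D * Real.exp (lw μ s η N (Pn N y) S) := fun S => by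
    rw [← Real.exp_add, hw]
    exact Real.exp_le_exp.2 (by linarith [(abs_le.1 (hu.ub η S)).2])
  have h2 : ∀ S, Real.exp (-D) * Real.exp (lw μ s η N (Pn N y) S) ≤ Real.exp (w η S) := fun S => by
    rw [← Real.exp_add, hw]
    exact Real.exp_le_exp.2 (by linarith [(abs_le.1 (hu.ub η S)).1])
  rw [I52.cE_eq_av, I52.cE_eq_av, I52.av_eq, I52.av_eq]
  obtain ⟨A, hA⟩ : ∃ A : Finset (Px (Pn N y)), A = univ.filter fun s => p s = p S := ⟨_, rfl⟩
  have hne : A.Nonempty := by rw [hA]; exact I52.fib_ne p S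
  rw [← hA]
  have hz := I52.zs_pos (lw μ s η N (Pn N y)) hne
  have hz' := I52.zs_pos (w η) hne
  have h3 : Real.exp (-D) * I52.zs (lw μ s η N (Pn N y)) A ≤ I52.zs (w η) A := by
    unfold I52.zs
    rw [mul_sum]
    exact sum_le_sum fun S _ => h2 S
  have h4 : ∑ S ∈ A, Real.exp (w η S) * f S ≤ Real.exp D * ∑ S ∈ A, Real.exp (lw μ s η N (Pn N y) S) * f S := by
    rw [mul_sum]
    refine sum_le_sum fun S _ => ?_
    rw [← mul_assoc]
    exact mul_le_mul_of_nonneg_right (h1 S) (hf S)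
  have h5 : 0 ≤ ∑ S ∈ A, Real.exp (lw μ s η N (Pn N y) S) * f S := sum_nonneg fun S _ => mul_nonneg (Real.exp_pos _).le (hf S)
  rw [mul_div_assoc', div_le_div_iff₀ hz' hz]
  have e2 : Real.exp (2 * D) * Real.exp (-D) = Real.exp D := by
    rw [← Real.exp_add]
    congr 1
    ring
  calc (∑ S ∈ A, Real.exp (w η S) * f S) * I52.zs (lw μ s η N (Pn N y)) A ≤
        (Real.exp D * ∑ S ∈ A, Real.exp (lw μ s η N (Pn N y) S) * f S) * I52.zs (lw μ s η N (Pn N y)) A :=
          mul_le_mul_of_nonneg_right h4 hz.le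
    _ = Real.exp (2 * D) * (∑ S ∈ A, Real.exp (lw μ s η N (Pn N y) S) * f S) * (Real.exp (-D) * I52.zs (lw μ s η N (Pn N y)) A) := by
        rw [← e2]
        ring
    _ ≤ Real.exp (2 * D) * (∑ S ∈ A, Real.exp (lw μ s η N (Pn N y) S) * f S) * I52.zs (w η) A :=
        mul_le_mul_of_nonneg_left h3 (mul_nonneg (Real.exp_pos _).le h5)

theorem meas_wtT {m : ℕ} (P : Plan (Px (Pn N y)) m) (hm : Measurable w) (x : Fin m → Px (Pn N y)) :
    Measurable fun η : Env => I52.wt P (w η) x :=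
  (I52.wt_contDiff (n := 0) P x).continuous.measurable.comp hm

open scoped Classical in
/-- **Every plan of blocks at tilted weights is an antitone density.** -/
theorem ownA_plan [IsProbabilityMeasure μ] (hy : y ≤ N) {k : ℕ} (P : Plan (Px (Pn N y)) (k + 1)) (hP : BP N y P) (hD : 0 ≤ D)
    (hu : TwOk N y J D u) (hw : ∀ η S, w η S = lw μ s η N (Pn N y) S + u η S) :
    OwnA μ s N y J (Real.exp (2 * D)) (fun η x => I52.wt P (w η) x) := by
  have : Nonempty (Px (Pn N y)) := ne_Pn hy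
  refine ⟨Real.one_le_exp (by linarith), fun x => meas_wtT P (hu.wm hw) x, fun η x => I52.wt_nonneg _ _ _, fun η => ?_,
    fun η η' x hle hη => wtT_anti hu hw P η η' x hle hη, fun η l S => ?_⟩
  · have h1 := I52.ev_one P (w η)
    unfold I52.ev at h1
    simp only [mul_one] at h1
    exact h1.le
  · have h1 := hP.ev l (w η) fun S' => if S' = S then 1 else 0
    have h2 : gm (lw μ s η N (Pn N y)) (fun S' => if S' = S then 1 else 0) = pth μ s η N S.1 / ZC μ s N (y : ℤ) η := by
      unfold gm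
      rw [gz_lw]
      simp only [mul_ite, mul_one, mul_zero]
      rw [sum_ite_eq', if_pos (mem_univ _), exp_lw]
    have h3 : (∑ x, if x l = S then I52.wt P (w η) x else 0) = I52.ev P (w η) fun x => if x l = S then 1 else 0 := by
      unfold I52.ev
      refine sum_congr rfl fun x _ => ?_
      beta_reduce
      by_cases hS : x l = S
      · rw [if_pos hS, if_pos hS, mul_one]
      · rw [if_neg hS, if_neg hS, mul_zero]
    rw [h3, h1, ← h2]
    exact gm_tilt hu hw η fun S' => by split_ifs <;> norm_num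

end Wt

end

end Pool.Agent.W_7d29a1_C0.Ft46
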