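import Pool.Agent.W_7d29a1_C0.Loc7F
import Pool.Agent.W_7d29a1_C0.Ins52

/-!
CURV0 (MP_7d29a1_pr), leaf E0: PLANS, abstract part (helper7). `Plan` of Ins52: replicas drawn one after the other, free or given a
function of an old one.

`Marg P`: every replica of the plan has the law of a free one (`Marg.fr`, `Marg.gi`, `Marg.sh`); `Sat p P`: the plan draws through the map
`p` only; `sat_ev`: its averages of functions of `p` depend on the weights only through the sums of the functions of `p`;
`boxesP`, `plan_tv`, `sw_stepP`: the boxes, the change of the weights on a rare set, and the slab step for plans.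
-/

set_option autoImplicit false

namespace Pool.W7d29a1.C0.H7

open Finset MeasureTheory Pool.W7d29a1.C0.VT31 Pool.W7d29a1.C0.I52
open Pool.W7d29a1.C0 (gz gm gz_pos)

noncomputable section

section Abs

variable {X : Type*} [Fintype X] [DecidableEq X]

/-! ### Every replica has the law of a free one -/

/-- Every replica has the law of a free one, whatever the weights. -/
def Marg : {m : ℕ} → Plan X m → Prop
  | _, Plan.nil => True
  | _, Plan.cons P A _ => Marg P ∧ ∀ (w : X → ℝ) (f : X → ℝ), ev P w (fun x => av w (A x) f) = gm w f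

theorem Marg.ev : {m : ℕ} → {P : Plan X m} → Marg P → ∀ (i : Fin m) (w g : X → ℝ), I52.ev P w (fun x => g (x i)) = gm w g
  | _, Plan.nil, _, i, _, _ => i.elim0
  | _, Plan.cons P A h, hm, i, w, g => by
    refine Fin.cases ?_ (fun j => ?_) i
    · rw [ev_cons]
      simp only [Fin.cons_zero]
      exact hm.2 w g
    · have h1 := ev_tail P A h w fun x => g (x j)
      have e : (fun x : Fin _ → X => g (x j.succ)) = fun x => g (Fin.tail x j) := rfl
      rw [e, h1]
      exact hm.1.ev j w g

theorem Marg.S : {m : ℕ} → {P : Plan X m} → Marg P → ∀ (i : Fin m) (w f : X → ℝ),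
    I52.ev P w (fun x => av w (P.S i x) f) = gm w f
  | _, Plan.nil, _, i, _, _ => i.elim0
  | _, Plan.cons P A h, hm, i, w, f => by
    refine Fin.cases ?_ (fun j => ?_) i
    · have e : (fun x : Fin _ → X => av w ((Plan.cons P A h).S 0 x) f) = fun x => av w (A (Fin.tail x)) f := rfl
      rw [e, ev_tail P A h w fun x => av w (A x) f]
      exact hm.2 w f
    · have e : (fun x : Fin _ → X => av w ((Plan.cons P A h).S j.succ x) f) = fun x => av w (P.S j (Fin.tail x)) f := rfl
      rw [e, ev_tail P A h w fun x => av w (P.S j x) f]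
      exact hm.1.S j w f

theorem Marg.nil : Marg (Plan.nil : Plan X 0) := trivial

theorem Marg.sh {m : ℕ} {P : Plan X m} (h : Marg P) (i : Fin m) : Marg (P.sh i) := ⟨h, fun w f => h.S i w f⟩

theorem Marg.fr [Nonempty X] {m : ℕ} {P : Plan X m} (h : Marg P) : Marg P.fr := ⟨h, fun w f => by
  rw [ev_const, gm_eq_av]⟩

theorem Marg.gi [Nonempty X] {Y : Type*} [DecidableEq Y] {m : ℕ} {P : Plan X m} (h : Marg P) (p : X → Y) (i : Fin m) :
    Marg (P.gi p i) := ⟨h, fun w f => by
  have e : (fun x : Fin m → X => av w (univ.filter fun s => p s = p (x i)) f) = fun x => cE w p f (x i) := by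
    funext x
    rw [cE_eq_av]
  rw [e, h.ev i w (cE w p f), gm_cE]⟩

/-! ### The plan draws through `p` -/

section Sat

variable {Y : Type*} (p : X → Y)

/-- The sets of the plan are unions of fibres of `p` and depend on the old replicas through `p`. -/
def Sat : {m : ℕ} → Plan X m → Prop
  | _, Plan.nil => True
  | _, Plan.cons P A _ => Sat P ∧ ∀ x x' s s', (∀ i, p (x i) = p (x' i)) → p s = p s' → (s ∈ A x ↔ s' ∈ A x')

variable {p}

theorem Sat.S : {m : ℕ} → {P : Plan X m} → Sat p P → ∀ (i : Fin m) (x x' : Fin m → X) (s s' : X),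
    (∀ i, p (x i) = p (x' i)) → p s = p s' → (s ∈ P.S i x ↔ s' ∈ P.S i x')
  | _, Plan.nil, _, i, _, _, _, _, _, _ => i.elim0
  | _, Plan.cons P A h, hs, i, x, x', s, s', hx, hss => by
    refine Fin.cases ?_ (fun j => ?_) i
    · rw [S_cons_zero, S_cons_zero]
      exact hs.2 _ _ s s' (fun j => hx j.succ) hss
    · rw [S_cons_succ, S_cons_succ]
      exact hs.1.S j _ _ s s' (fun j => hx j.succ) hss

omit [Fintype X] [DecidableEq X] in
theorem Sat.nil : Sat p (Plan.nil : Plan X 0) := trivial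

theorem Sat.sh {m : ℕ} {P : Plan X m} (h : Sat p P) (i : Fin m) : Sat p (P.sh i) :=
  ⟨h, fun x x' s s' hx hs => h.S i x x' s s' hx hs⟩

omit [DecidableEq X] in
theorem Sat.fr [Nonempty X] {m : ℕ} {P : Plan X m} (h : Sat p P) : Sat p P.fr := ⟨h, fun _ _ s s' _ _ => by simp⟩

theorem Sat.gi {Z : Type*} [DecidableEq Z] {m : ℕ} {P : Plan X m} (h : Sat p P) {q : X → Z} (hq : Crs q p) (i : Fin m) :
    Sat p (P.gi q i) := ⟨h, fun x x' s s' hx hs => by
  rw [mem_filter, mem_filter, hq s s' hs, hq (x i) (x' i) (hx i)]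
  simp⟩

theorem sat_av {w1 w3 : X → ℝ} (huv : ∀ b : Y → ℝ, ∑ x, Real.exp (w1 x) * b (p x) = ∑ x, Real.exp (w3 x) * b (p x))
    {A : Finset X} (hA : ∀ s s', p s = p s' → (s ∈ A ↔ s' ∈ A)) {F : X → ℝ} (hF : ∀ s s', p s = p s' → F s = F s') :
    av w1 A F = av w3 A F := by
  classical
  have key : ∀ F : X → ℝ, (∀ s s', p s = p s' → F s = F s') → ∑ s ∈ A, Real.exp (w1 s) * F s = ∑ s ∈ A, Real.exp (w3 s) * F s := by
    intro F hF
    set b : Y → ℝ := fun y => if h : ∃ s, p s = y ∧ s ∈ A then F h.choose else 0 with hb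
    have e : ∀ s, b (p s) = if s ∈ A then F s else 0 := fun s => by
      by_cases hs : s ∈ A
      · have h : ∃ s', p s' = p s ∧ s' ∈ A := ⟨s, rfl, hs⟩
        rw [hb]
        simp only
        rw [dif_pos h, if_pos hs]
        exact hF _ _ h.choose_spec.1
      · have h : ¬ ∃ s', p s' = p s ∧ s' ∈ A := fun ⟨s', h1, h2⟩ => hs ((hA s' s h1).1 h2)
        rw [hb]
        simp only
        rw [dif_neg h, if_neg hs]
    have h1 := huv b
    simp only [e, mul_ite, mul_zero] at h1
    rw [sum_ite_mem, univ_inter, sum_ite_mem, univ_inter] at h1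
    exact h1
  have h2 := key (fun _ => 1) fun _ _ _ => rfl
  simp only [mul_one] at h2
  rw [av_eq, av_eq, key F hF]
  unfold zs
  rw [h2]

/-- The averages of functions of `p` depend on the weights only through the sums of the functions of `p`. -/
theorem sat_ev {w1 w3 : X → ℝ} (huv : ∀ b : Y → ℝ, ∑ x, Real.exp (w1 x) * b (p x) = ∑ x, Real.exp (w3 x) * b (p x)) :
    {m : ℕ} → {P : Plan X m} → Sat p P → ∀ {Ψ : (Fin m → X) → ℝ},
    (∀ x x' : Fin m → X, (∀ i, p (x i) = p (x' i)) → Ψ x = Ψ x') → I52.ev P w1 Ψ = I52.ev P w3 Ψ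
  | _, Plan.nil, _, Ψ, _ => by rw [ev_nil, ev_nil]
  | _, Plan.cons P A h, hs, Ψ, hΨ => by
    have hcons : ∀ (x x' : Fin _ → X) (s s' : X), (∀ i, p (x i) = p (x' i)) → p s = p s' →
        Ψ (Fin.cons s x) = Ψ (Fin.cons s' x') := fun x x' s s' hx hss => hΨ _ _ fun i => by
      refine Fin.cases ?_ (fun j => ?_) i
      · simpa using hss
      · simpa using hx j
    rw [ev_cons, ev_cons]
    have e : (fun x => av w1 (A x) fun s => Ψ (Fin.cons s x)) = fun x => av w3 (A x) fun s => Ψ (Fin.cons s x) := by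
      funext x
      exact sat_av huv (fun s s' hss => hs.2 x x s s' (fun _ => rfl) hss) fun s s' hss => hcons x x s s' (fun _ => rfl) hss
    rw [e]
    refine sat_ev huv hs.1 fun x x' hx => ?_
    have e2 : A x = A x' := by
      ext s
      exact hs.2 x x' s s hx rfl
    rw [e2]
    exact av_congr w3 _ fun s _ => hcons x x' s s hx rfl

end Sat

/-! ### Domination -/

theorem wt_shift (w : X → ℝ) (M : ℝ) : {m : ℕ} → (P : Plan X m) → (x : Fin m → X) →
    wt P (fun s => w s + M) x = wt P w x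
  | _, Plan.nil, _ => rfl
  | _, Plan.cons P A h, x => by
    rw [wt_cons, wt_cons, wt_shift w M P]
    congr 1
    unfold ker zs
    split_ifs
    · simp only [Real.exp_add]
      rw [← sum_mul, mul_div_mul_right _ _ (Real.exp_pos M).ne']
    · rfl

/-- Smaller weights elsewhere: a larger probability. -/
theorem wt_dom {w w' : X → ℝ} (hle : ∀ s, w' s ≤ w s) : {m : ℕ} → (P : Plan X m) → (x : Fin m → X) →
    (∀ i, w' (x i) = w (x i)) → wt P w x ≤ wt P w' x
  | _, Plan.nil, _, _ => le_rfl
  | _, Plan.cons P A h, x, hx => by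
    rw [wt_cons, wt_cons]
    refine mul_le_mul (wt_dom hle P _ fun i => hx i.succ) ?_ (ker_nonneg _ _ _) (wt_nonneg _ _ _)
    unfold ker
    split_ifs
    · rw [hx 0]
      refine div_le_div_of_nonneg_left (Real.exp_pos _).le (zs_pos w' (h _)) ?_
      exact sum_le_sum fun s _ => Real.exp_le_exp.2 (hle s)
    · exact le_rfl

/-- **The boxes**, for a plan. -/
theorem boxesP {m : ℕ} {P : Plan X m} (hP : Marg P) {β κ : Type*} [DecidableEq β] [DecidableEq κ] (w u : X → ℝ) {M Λ : ℝ}
    (hu : ∀ x, |u x| ≤ M) (c : X → κ) (box : X → β) (nb : β → Finset κ) {Ψ : (Fin m → X) → ℝ} (h0 : ∀ x, 0 ≤ Ψ x)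
    (hΛ : ∀ x, Ψ x ≤ Λ) :
    ev P (fun x => w x + u x) Ψ ≤
      ∑ b ∈ H43.bxs univ box m, ev P (fun x => w x + (if c x ∈ (H43.bx b).biUnion nb then u x + M else 0))
        (fun x => if (fun i => box (x i)) = b then Ψ x else 0) +
      Λ * m * gm (fun x => w x + u x) (fun x => if c x ∈ nb (box x) then 0 else 1) := by
  classical
  set W : X → ℝ := fun x => w x + u x with hW
  set far : X → ℝ := fun x => if c x ∈ nb (box x) then 0 else 1 with hfar
  have far0 : ∀ x, 0 ≤ far x := fun x => by rw [hfar]; simp only; split_ifs <;> norm_num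
  -- the split
  have h1 : ∀ x, Ψ x ≤ (if (∀ i, c (x i) ∈ nb (box (x i))) then Ψ x else 0) + Λ * ∑ i, far (x i) := fun x => by
    by_cases hg : ∀ i, c (x i) ∈ nb (box (x i))
    · rw [if_pos hg]
      have hΛn : 0 ≤ Λ := (h0 x).trans (hΛ x)
      have := mul_nonneg hΛn (sum_nonneg fun i (_ : i ∈ univ) => far0 (x i))
      linarith
    · rw [if_neg hg, zero_add]
      push Not at hg
      obtain ⟨i, hi⟩ := hg
      have hΛn : 0 ≤ Λ := (h0 x).trans (hΛ x)
      have h2 : 1 ≤ ∑ i, far (x i) := by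
        refine le_trans ?_ (single_le_sum (f := fun i => far (x i)) (fun i _ => far0 (x i)) (mem_univ i))
        rw [hfar]
        simp only
        rw [if_neg hi]
      calc Ψ x ≤ Λ := hΛ x
        _ = Λ * 1 := (mul_one _).symm
        _ ≤ _ := mul_le_mul_of_nonneg_left h2 hΛn
  have h2 : ev P W (fun x => Λ * ∑ i, far (x i)) = Λ * m * gm W far := by
    rw [ev_smul, ev_sum univ P W fun i x => far (x i), sum_congr rfl fun i _ => hP.ev i W far, sum_const, card_univ,
      Fintype.card_fin, nsmul_eq_mul]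
    ring
  have h3 : ev P W (fun x => if (∀ i, c (x i) ∈ nb (box (x i))) then Ψ x else 0) ≤
      ∑ b ∈ H43.bxs univ box m, ev P (fun x => w x + (if c x ∈ (H43.bx b).biUnion nb then u x + M else 0))
        (fun x => if (fun i => box (x i)) = b then Ψ x else 0) := by
    have e : (fun x : Fin m → X => if (∀ i, c (x i) ∈ nb (box (x i))) then Ψ x else 0) =
        fun x => ∑ b ∈ H43.bxs univ box m, if (fun i => box (x i)) = b then
          (if (∀ i, c (x i) ∈ nb (box (x i))) then Ψ x else 0) else 0 := by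
      funext x
      have hmem : (fun i => box (x i)) ∈ H43.bxs univ box m := by
        unfold H43.bxs
        rw [Fintype.mem_piFinset]
        exact fun i => mem_image_of_mem box (mem_univ _)
      rw [sum_ite_eq, if_pos hmem]
    rw [e, ev_sum]
    refine sum_le_sum fun b _ => ?_
    unfold ev
    refine sum_le_sum fun x _ => ?_
    beta_reduce
    by_cases hb : (fun i => box (x i)) = b
    · rw [if_pos hb, if_pos hb]
      by_cases hg : ∀ i, c (x i) ∈ nb (box (x i))
      · rw [if_pos hg, ← wt_shift W M P x]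
        refine mul_le_mul_of_nonneg_right (wt_dom (fun s => ?_) P x fun i => ?_) (h0 x)
        · have := abs_le.1 (hu s)
          rw [hW]
          simp only
          split_ifs <;> linarith
        · have hi : c (x i) ∈ (H43.bx b).biUnion nb := by
            rw [mem_biUnion]
            refine ⟨box (x i), ?_, hg i⟩
            unfold H43.bx
            rw [mem_image]
            exact ⟨i, mem_univ _, by rw [← hb]⟩
          rw [hW]
          simp only
          rw [if_pos hi]
          ring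
      · rw [if_neg hg, mul_zero]
        exact mul_nonneg (wt_nonneg _ _ _) (h0 x)
    · rw [if_neg hb, if_neg hb, mul_zero, mul_zero]
  calc ev P W Ψ ≤ ev P W fun x => (if (∀ i, c (x i) ∈ nb (box (x i))) then Ψ x else 0) + Λ * ∑ i, far (x i) := ev_mono P W h1
    _ = ev P W (fun x => if (∀ i, c (x i) ∈ nb (box (x i))) then Ψ x else 0) + ev P W (fun x => Λ * ∑ i, far (x i)) := ev_add _ _ _ _
    _ ≤ _ := add_le_add h3 h2.le

/-! ### The change of the weights on a rare set -/

theorem ker_tilt {w w' : X → ℝ} {D : ℝ} (h : ∀ s, |w' s - w s| ≤ D) (A : Finset X) (s : X) :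
    ker w' A s ≤ Real.exp (2 * D) * ker w A s := by
  unfold ker
  by_cases hs : s ∈ A
  · rw [if_pos hs, if_pos hs]
    have hz' := zs_pos w' ⟨s, hs⟩
    have hz := zs_pos w ⟨s, hs⟩
    have h1 : Real.exp (w' s) ≤ Real.exp D * Real.exp (w s) := by
      rw [← Real.exp_add]
      have := abs_le.1 (h s)
      exact Real.exp_le_exp.2 (by linarith)
    have h2 : zs w A ≤ Real.exp D * zs w' A := by
      unfold zs
      rw [mul_sum]
      refine sum_le_sum fun t _ => ?_
      rw [← Real.exp_add]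
      have := abs_le.1 (h t)
      exact Real.exp_le_exp.2 (by linarith)
    rw [mul_div_assoc', div_le_div_iff₀ hz' hz]
    have e : Real.exp (2 * D) = Real.exp D * Real.exp D := by rw [← Real.exp_add]; ring_nf
    calc Real.exp (w' s) * zs w A ≤ (Real.exp D * Real.exp (w s)) * (Real.exp D * zs w' A) :=
          mul_le_mul h1 h2 hz.le (by positivity)
      _ = Real.exp (2 * D) * Real.exp (w s) * zs w' A := by rw [e]; ring
  · rw [if_neg hs, if_neg hs, mul_zero]

theorem av_tilt {w w' : X → ℝ} {D : ℝ} (h : ∀ s, |w' s - w s| ≤ D) (A : Finset X) {f : X → ℝ} (hf : ∀ s, 0 ≤ f s) :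
    av w' A f ≤ Real.exp (2 * D) * av w A f := by
  unfold av
  rw [mul_sum]
  refine sum_le_sum fun s _ => ?_
  rw [← mul_assoc]
  exact mul_le_mul_of_nonneg_right (ker_tilt h A s) (hf s)

/-- One replica, weights which agree where `o = 0`. -/
theorem av_tv {w2 w3 : X → ℝ} {D : ℝ} (h : ∀ s, |w2 s - w3 s| ≤ D) {o : X → ℝ} (ho : ∀ s, 0 ≤ o s ∧ o s ≤ 1)
    (h23 : ∀ s, o s ≠ 1 → w2 s = w3 s) {A : Finset X} (hA : A.Nonempty) {F : X → ℝ} {Λ : ℝ} (hF : ∀ s, |F s| ≤ Λ) :
    |av w2 A F - av w3 A F| ≤ Λ * (2 * (1 + Real.exp (2 * D)) * av w3 A o) := by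
  classical
  have hΛ : 0 ≤ Λ := (abs_nonneg _).trans (hF hA.choose)
  set k2 := ker w2 A with hk2
  set k3 := ker w3 A with hk3
  have e2 := sum_ker w2 hA
  have e3 := sum_ker w3 hA
  have z2 := zs_pos w2 hA
  have z3 := zs_pos w3 hA
  -- the sum of the differences
  have hd : ∑ s, |k2 s - k3 s| ≤ 2 * (av w2 A o + av w3 A o) := by
    -- off the set `o = 1`, the difference has one sign
    set On : Finset X := univ.filter fun s => o s = 1 with hOn
    have s1 : ∑ s, |k2 s - k3 s| = ∑ s ∈ On, |k2 s - k3 s| + ∑ s ∈ univ.filter (fun s => ¬ o s = 1), |k2 s - k3 s| :=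
      (sum_filter_add_sum_filter_not univ (fun s => o s = 1) _).symm
    have s2 : ∑ s ∈ univ.filter (fun s => ¬ o s = 1), |k2 s - k3 s| =
        |∑ s ∈ univ.filter (fun s => ¬ o s = 1), (k2 s - k3 s)| := by
      have hs : ∀ s ∈ univ.filter (fun s => ¬ o s = 1), k2 s - k3 s =
          (if s ∈ A then Real.exp (w3 s) else 0) * (1 / zs w2 A - 1 / zs w3 A) := fun s hs => by
        have h4 := h23 s (mem_filter.1 hs).2
        rw [hk2, hk3]
        unfold ker
        rw [h4]
        split_ifs
        · ring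
        · ring
      rw [sum_congr rfl hs, ← sum_mul, abs_mul, sum_congr rfl fun s hs' => by rw [hs s hs', abs_mul], ← sum_mul]
      congr 1
      rw [abs_of_nonneg (sum_nonneg fun s _ => by split_ifs; exacts [(Real.exp_pos _).le, le_rfl])]
      exact sum_congr rfl fun s _ => abs_of_nonneg (by split_ifs; exacts [(Real.exp_pos _).le, le_rfl])
    have s3 : ∑ s ∈ univ.filter (fun s => ¬ o s = 1), (k2 s - k3 s) = -∑ s ∈ On, (k2 s - k3 s) := by
      have h5 := sum_filter_add_sum_filter_not univ (fun s => o s = 1) (fun s => k2 s - k3 s)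
      have h6 : ∑ s, (k2 s - k3 s) = 0 := by rw [sum_sub_distrib, e2, e3, sub_self]
      rw [h6] at h5
      linarith
    have s4 : ∑ s ∈ On, |k2 s - k3 s| ≤ av w2 A o + av w3 A o := by
      have h7 : ∀ s ∈ On, |k2 s - k3 s| ≤ k2 s * o s + k3 s * o s := fun s hs => by
        have h8 : o s = 1 := (mem_filter.1 hs).2
        rw [h8, mul_one, mul_one]
        refine (abs_sub _ _).trans (le_of_eq ?_)
        rw [abs_of_nonneg (ker_nonneg _ _ _), abs_of_nonneg (ker_nonneg _ _ _)]
      refine (sum_le_sum h7).trans ?_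
      unfold av
      rw [← sum_add_distrib]
      exact sum_le_sum_of_subset_of_nonneg (subset_univ _) fun s _ _ =>
        add_nonneg (mul_nonneg (ker_nonneg _ _ _) (ho s).1) (mul_nonneg (ker_nonneg _ _ _) (ho s).1)
    rw [s1, s2, s3, abs_neg]
    have s5 := (abs_sum_le_sum_abs (fun s => k2 s - k3 s) On).trans s4
    linarith
  have ht := av_tilt h A fun s => (ho s).1
  have e : av w2 A F - av w3 A F = ∑ s, (k2 s - k3 s) * F s := by
    unfold av
    rw [← sum_sub_distrib]
    exact sum_congr rfl fun s _ => by ring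
  rw [e]
  calc |∑ s, (k2 s - k3 s) * F s| ≤ ∑ s, |k2 s - k3 s| * Λ := by
        refine (abs_sum_le_sum_abs _ _).trans (sum_le_sum fun s _ => ?_)
        rw [abs_mul]
        exact mul_le_mul_of_nonneg_left (hF s) (abs_nonneg _)
    _ = Λ * ∑ s, |k2 s - k3 s| := by rw [← sum_mul, mul_comm]
    _ ≤ Λ * (2 * (1 + Real.exp (2 * D)) * av w3 A o) := by
        refine mul_le_mul_of_nonneg_left (hd.trans ?_) hΛ
        linarith

/-- **A plan, weights which agree off a rare set.** -/
theorem plan_tv {w2 w3 : X → ℝ} {D : ℝ} (h : ∀ s, |w2 s - w3 s| ≤ D) {o : X → ℝ} (ho : ∀ s, 0 ≤ o s ∧ o s ≤ 1)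
    (h23 : ∀ s, o s ≠ 1 → w2 s = w3 s) {Λ : ℝ} : {m : ℕ} → {P : Plan X m} → Marg P → ∀ {F : (Fin m → X) → ℝ},
    (∀ x, |F x| ≤ Λ) → |ev P w2 F - ev P w3 F| ≤ Λ * (m * (2 * (1 + Real.exp (2 * D)) * gm w3 o))
  | _, Plan.nil, _, F, hF => by
    rw [ev_nil, ev_nil, sub_self, abs_zero]
    simp
  | _, Plan.cons (m := m) P A hA, hP, F, hF => by
    rw [ev_cons, ev_cons]
    set a2 : (Fin _ → X) → ℝ := fun x => av w2 (A x) fun s => F (Fin.cons s x) with ha2
    set a3 : (Fin _ → X) → ℝ := fun x => av w3 (A x) fun s => F (Fin.cons s x) with ha3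
    have b2 : ∀ x, |a2 x| ≤ Λ := fun x => by
      rw [ha2]
      refine (abs_av_le _ _ _).trans ((av_mono w2 (A x) fun s _ => hF _).trans (le_of_eq ?_))
      exact av_const w2 (hA x) Λ
    have ih := plan_tv h ho h23 hP.1 b2
    have h1 : |ev P w3 a2 - ev P w3 a3| ≤ Λ * (2 * (1 + Real.exp (2 * D)) * gm w3 o) := by
      rw [← ev_sub, ← hP.2 w3 o, ← ev_smul, ← ev_smul]
      exact abs_ev_le P w3 fun x => av_tv h ho h23 (hA x) fun s => hF _
    have h2 := abs_add_le (ev P w2 a2 - ev P w3 a2) (ev P w3 a2 - ev P w3 a3)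
    rw [sub_add_sub_cancel] at h2
    refine h2.trans ((add_le_add ih h1).trans (le_of_eq ?_))
    push_cast
    ring

end Abs

end

end Pool.W7d29a1.C0.H7
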