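import Pool.Agent.W_7d29a1_C0.InT57
import Pool.Agent.W_7d29a1_C0.BrT57
import Pool.Agent.W_7d29a1_C0.Loc7P

/-!
MP_7d29a1_pr, [CURV0] (helper57), leaf (T), TL3, second part: THE INSERTION IN THE PLAN OF FIVE REPLICAS.

`ins_P5_57`: the insertion of the slab field in `psi5` is at most (i) `a` times the functional of two free replicas and the own tie, (ii)
the same functional with a third FREE replica out of the tubes of the boxes of the two (`FR57`), and (iii) events that a replica is not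
straight. The conditional replicas and their shadows are closed by the row `z'`: they are straight or (iii).
-/

set_option autoImplicit false
set_option linter.unusedSectionVars false
set_option linter.unusedVariables false

namespace Pool.Agent.W_7d29a1_C0.InT57

open Finset MeasureTheory Pool.Agent.W_7d29a1_F Pool.Agent.W_7d29a1_X
open Pool.Agent.W_7d29a1_C0.Mod92 Pool.Agent.W_7d29a1_C0.H32 Pool.Agent.W_7d29a1_C0.FP63 Pool.Agent.W_7d29a1_C0.Blk18
open Pool.Agent.W_7d29a1_C0.Swap57 Pool.Agent.W_7d29a1_C0.NM82 Pool.Agent.W_7d29a1_C0.CutT57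
open Pool.W7d29a1.C0 Pool.W7d29a1.C0.VT31
open Pool.W7d29a1.C0.H41 (Obs Wt SlD cut cut' lcG tail1 int_evP int_ins)
open Pool.W7d29a1.C0.T73 (Vis dl chT bx OutB Str)
open Pool.W7d29a1.C0.H7 (Marg)
open Pool.W7d29a1.C0.I52 (Plan)

noncomputable section

/-! ### The plan of five replicas: laws and shadows -/

section Abs

variable {X : Type*} [Fintype X] [DecidableEq X] [Nonempty X] {Y Y' : Type*} [DecidableEq Y] [DecidableEq Y']

theorem marg_P5 (q' : X → Y') (q : X → Y) : Marg (P5 q' q) := ((((Marg.nil.fr).gi q' 0).gi q 1).gi q 1).fr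

theorem ev_sh_eq {m : ℕ} (P : Plan X m) (i : Fin m) (w : X → ℝ) (Φ : (Fin (m + 1) → X) → ℝ) :
    I52.ev (P.sh i) w Φ = I52.ev P w fun x => I52.av w (P.S i x) fun v => Φ (Fin.cons v x) :=
  I52.ev_cons P (P.S i) (I52.S_ne P i) w Φ

theorem S_P5_0 (q' : X → Y') (q : X → Y) (x : Fin 5 → X) : (P5 q' q).S 0 x = univ := rfl
theorem S_P5_1 (q' : X → Y') (q : X → Y) (x : Fin 5 → X) : (P5 q' q).S 1 x = univ.filter fun v => q v = q (x 3) := rfl
theorem S_P5_2 (q' : X → Y') (q : X → Y) (x : Fin 5 → X) : (P5 q' q).S 2 x = univ.filter fun v => q v = q (x 4) := rfl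
theorem S_P5_3 (q' : X → Y') (q : X → Y) (x : Fin 5 → X) : (P5 q' q).S 3 x = univ.filter fun v => q' v = q' (x 4) := rfl
theorem S_P5_4 (q' : X → Y') (q : X → Y) (x : Fin 5 → X) : (P5 q' q).S 4 x = univ := rfl

/-- A bound by the events of a conditional shadow and of its parent. -/
theorem ev_sh_le {m : ℕ} {P : Plan X m} (hP : Marg P) (i k : Fin m) (w : X → ℝ) {Z : Type*} [DecidableEq Z] (p : X → Z)
    (hS : ∀ x, P.S i x = univ.filter fun v => p v = p (x k)) {Ψ : (Fin m → X) → ℝ} {D0 : ℝ} (hΨ : ∀ x, |Ψ x| ≤ D0)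
    {F : (Fin (m + 1) → X) → ℝ} {B : X → ℝ} (hB0 : ∀ v, 0 ≤ B v) (hF0 : ∀ x, 0 ≤ F x)
    (hF : ∀ x : Fin (m + 1) → X, p (x 0) = p (x k.succ) → F x ≤ B (x 0) + B (x k.succ)) :
    I52.ev (P.sh i) w (fun x => |Ψ (Fin.tail x)| * F x) ≤ D0 * (2 * gm w B) := by
  have h1 : I52.ev (P.sh i) w (fun x => |Ψ (Fin.tail x)| * F x) ≤
      I52.ev (P.sh i) w fun x => D0 * (B (x 0) + B (x k.succ)) := by
    refine I52.ev_mono' (P.sh i) w fun x hx => ?_
    have h2 : x 0 ∈ P.S i (Fin.tail x) := I52.mem_of_wt (P.sh i) w x hx 0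
    rw [hS, mem_filter] at h2
    have h3 := hF x h2.2
    have hD : 0 ≤ D0 := (abs_nonneg _).trans (hΨ (Fin.tail x))
    calc |Ψ (Fin.tail x)| * F x ≤ D0 * F x := mul_le_mul_of_nonneg_right (hΨ _) (hF0 x)
      _ ≤ _ := mul_le_mul_of_nonneg_left h3 hD
  refine h1.trans_eq ?_
  rw [I52.ev_smul, I52.ev_add, (hP.sh i).ev 0 w B, (hP.sh i).ev k.succ w B]
  ring

end Abs

/-! ### The boxes of two replicas -/

variable {Q : Finset (Finset ℕ)}

open Classical in
/-- The free replica `v` leaves the tubes of the boxes of `y` and of `S'`. -/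
def far2 (N : ℕ) (sl R : ℝ) (m0 : ℤ) (J : Finset ℕ) (v y S' : Px Q) : ℝ :=
  if OutB pz sl R m0 (JZ J) (![bx pz R m0 N y, bx pz R m0 N S'] : Fin 2 → Fin (N + 1)) v then 1 else 0

theorem far2_nonneg (N : ℕ) (sl R : ℝ) (m0 : ℤ) (J : Finset ℕ) (v y S' : Px Q) : 0 ≤ far2 N sl R m0 J v y S' := by
  unfold far2
  split_ifs <;> norm_num

theorem far2_le_one (N : ℕ) (sl R : ℝ) (m0 : ℤ) (J : Finset ℕ) (v y S' : Px Q) : far2 N sl R m0 J v y S' ≤ 1 := by
  unfold far2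
  split_ifs <;> norm_num

/-- Fewer boxes, larger event. -/
theorem far57_le_far2 {m : ℕ} (N : ℕ) (sl R : ℝ) (m0 : ℤ) (J : Finset ℕ) (x : Fin (m + 1) → Px Q) (i k : Fin m) :
    far57 N sl R m0 J x ≤ far2 N sl R m0 J (x 0) (Fin.tail x i) (Fin.tail x k) := by
  unfold far57 far2
  by_cases h : OutB pz sl R m0 (JZ J) (fun k => bx pz R m0 N (Fin.tail x k)) (x 0)
  · rw [if_pos h, if_pos]
    obtain ⟨r, h1, h2⟩ := h
    refine ⟨r, h1, fun j => ?_⟩
    fin_cases j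
    · exact h2 i
    · exact h2 k
  · rw [if_neg h]
    split_ifs <;> norm_num

/-- **A conditional shadow is in the tube of the box of its parent**: both are straight over the slab and up to a common row. -/
theorem far57_of_cond {m : ℕ} {N : ℕ} {sl R : ℝ} (hR : 1 ≤ R) {m0 : ℤ} (hm0 : m0 ≤ N) {J : Finset ℕ} {z : ℕ} (hz : z ∉ J)
    (x : Fin (m + 1) → Px Q) (k : Fin m) (h : ps (x 0) z = ps (x k.succ) z) :
    far57 N sl R m0 J x ≤ bend57 sl (R / 2) m0 (insert z J) (x 0) + bend57 sl (R / 2) m0 (insert z J) (x k.succ) := by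
  unfold far57
  by_cases h1 : OutB pz sl R m0 (JZ J) (fun k => bx pz R m0 N (Fin.tail x k)) (x 0)
  · rw [if_pos h1]
    unfold bend57
    by_cases h2 : Str pz sl (R / 2) m0 (JZ (insert z J)) (x 0)
    · by_cases h3 : Str pz sl (R / 2) m0 (JZ (insert z J)) (x k.succ)
      · exfalso
        obtain ⟨r, h4, h5⟩ := h1
        have hzJ : ((z : ℕ) : ℤ) ∈ JZ (insert z J) := mem_image.2 ⟨z, mem_insert_self z J, rfl⟩
        have hrJ : r ∈ JZ (insert z J) := by
          obtain ⟨r', h6, h7⟩ := mem_image.1 h4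
          exact mem_image.2 ⟨r', mem_insert_of_mem h6, h7⟩
        have a1 := h2 r hrJ
        have a2 := h2 z hzJ
        have a3 := h3 z hzJ
        have a4 := h5 k
        have a5 := T73.bx_spec (pa := pz (Q := Q)) (m0 := m0) (n := N) hR (x := x k.succ) (pz_nonneg _ _) (pz_le hm0)
        have e1 : pz (x 0) (z : ℤ) = ps (x 0) z := by
          unfold pz
          rw [Int.toNat_natCast]
        have e2 : pz (x k.succ) (z : ℤ) = ps (x 0) z := by
          unfold pz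
          rw [Int.toNat_natCast, h]
        beta_reduce at a4
        have e3 : Fin.tail x k = x k.succ := rfl
        rw [e3] at a4
        unfold dl at a1 a2 a3 a4
        simp only at a1 a2 a3 a4
        rw [e1] at a2
        rw [e2] at a3
        rw [abs_le] at a1 a2 a3 a5
        rw [lt_abs] at a4
        rcases a4 with a4 | a4 <;> linarith [a1.1, a1.2, a2.1, a2.2, a3.1, a3.2, a5.1, a5.2]
      · rw [if_neg h3]
        split_ifs <;> norm_num
    · rw [if_neg h2]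
      split_ifs <;> norm_num
  · rw [if_neg h1]
    exact add_nonneg (bend57_nonneg _ _ _ _ _) (bend57_nonneg _ _ _ _ _)

/-! ### The functionals of free replicas -/

section Fun

variable [SwQ Q] [Nonempty (Px Q)]

/-- The own tie told from `S`. -/
def QA57 (w : Px Q → ℝ) (a0 z z' : ℕ) (S : Px Q) : ℝ := cE w (pJ 0 z') (NI a0 z S) S

/-- The weight of the spectator. -/
def df57 (z' c : ℕ) (f : Px Q → ℝ) (S S' : Px Q) : ℝ := |f S - f S'| * NI z' c S S'

theorem df57_nonneg (z' c : ℕ) (f : Px Q → ℝ) (S S' : Px Q) : 0 ≤ df57 z' c f S S' :=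
  mul_nonneg (abs_nonneg _) (NI_nonneg _ _ _ _)

/-- **The far functional**: two free replicas, the own tie of the first one, a third free replica out of the tubes of both. -/
def FR57 (N : ℕ) (w : Px Q → ℝ) (a0 z z' c : ℕ) (sl R : ℝ) (m0 : ℤ) (J : Finset ℕ) (f : Px Q → ℝ) : ℝ :=
  gm w fun S => QA57 w a0 z z' S * gm w fun S' => df57 z' c f S S' * gm w fun v => far2 N sl R m0 J v S S'

/-- The functional `XT` as a functional of two free replicas. -/
theorem XT_eq (w : Px Q → ℝ) (a0 z z' c : ℕ) (f : Px Q → ℝ) :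
    XT w a0 z z' c f = gm w fun S => QA57 w a0 z z' S * gm w fun S' => df57 z' c f S S' := by
  unfold XT
  have h := ev_P3 (pJ 0 z') w (fun S x' S' => 1 * NI a0 z S x' * (|f S - f S'| * NI z' c S S'))
  refine h.trans ?_
  congr 1
  funext S
  have e : ∀ x' : Px Q, gm w (fun S' => 1 * NI a0 z S x' * (|f S - f S'| * NI z' c S S')) =
      NI a0 z S x' * gm w fun S' => df57 z' c f S S' := fun x' => by
    rw [← gm_const_mul]
    congr 1
    funext S'
    unfold df57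
    ring
  rw [show (fun x' : Px Q => gm w (fun S' => 1 * NI a0 z S x' * (|f S - f S'| * NI z' c S S'))) =
    fun x' => NI a0 z S x' * gm w fun S' => df57 z' c f S S' from funext e, cE_mul_const]
  rfl

variable {a0 z z' c : ℕ}

/-- **The functional of the five replicas with a free sixth one** is at most the far functional. -/
theorem far_P5 (hzz : z ≤ z') (hzc : z' ≤ c) (w : Px Q → ℝ) {f : Px Q → ℝ} (hf : Rk c f) (F : Px Q → Px Q → Px Q → ℝ) :
    I52.ev (P5 (pJ 0 z') (pJ 0 z)) w (fun x => NI a0 z (x 2) (x 1) * df57 z' c f (x 4) (x 0) * gm w fun v => F v (x 2) (x 0)) =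
      gm w fun S => QA57 w a0 z z' S * gm w fun S' => df57 z' c f S S' * gm w fun v => F v S S' := by
  have h1 := ev_P5 (pJ 0 z') (pJ 0 z) w (fun S x' y y' S' => NI a0 z y y' * df57 z' c f S S' * gm w fun v => F v y S')
  refine h1.trans ?_
  obtain ⟨K, hK⟩ : ∃ K : Px Q → Px Q → ℝ, K = fun y y' => NI a0 z y y' * gm w fun S' => df57 z' c f y S' * gm w fun v => F v y S' :=
    ⟨_, rfl⟩
  have e1 : ∀ S : Px Q, cE w (pJ 0 z') (fun x' => cE w (pJ 0 z) (fun y => cE w (pJ 0 z)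
      (fun y' => gm w fun S' => NI a0 z y y' * df57 z' c f S S' * gm w fun v => F v y S') x') S) S =
      cE w (pJ 0 z') (fun x' => cE2 w (pJ 0 z) K S x') S * 1 := fun S => by
    rw [mul_one]
    congr 1
    funext x'
    unfold cE2
    refine cE_congr_fib fun y hy => ?_
    congr 1
    funext y'
    rw [hK]
    have e2 : ∀ S', df57 z' c f S S' = df57 z' c f y S' := fun S' => by
      unfold df57
      have hp : ∀ i, z ≤ i → ps y i = ps S i := fun i hi => ps_of_ge hy hi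
      rw [hf y S fun i hi => hp i (hzz.trans (hzc.trans hi)),
        NI_congr (S := y) (T := S) (S' := S') (T' := S') (fun i hi _ => hp i (hzz.trans hi)) fun i _ _ => rfl]
    show (gm w fun S' => NI a0 z y y' * df57 z' c f S S' * gm w fun v => F v y S') =
      NI a0 z y y' * gm w fun S' => df57 z' c f y S' * gm w fun v => F v y S'
    rw [← gm_const_mul]
    congr 1
    funext S'
    rw [e2]
    ring
  rw [show (fun S : Px Q => cE w (pJ 0 z') (fun x' => cE w (pJ 0 z) (fun y => cE w (pJ 0 z)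
      (fun y' => gm w fun S' => NI a0 z y y' * df57 z' c f S S' * gm w fun v => F v y S') x') S) S) =
      fun S => cE w (pJ 0 z') (fun x' => cE2 w (pJ 0 z) K S x') S * 1 from funext e1]
  have h2 := gm_pair w (crs_pJ (Q := Q) (le_refl 0) hzz) K (H := fun _ => (1 : ℝ)) fun _ _ _ => rfl
  refine h2.trans ?_
  congr 1
  funext S
  rw [mul_one, hK]
  show cE w (pJ 0 z') (fun y' => NI a0 z S y' * gm w fun S' => df57 z' c f S S' * gm w fun v => F v S S') S = _
  rw [cE_mul_const]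
  rfl

/-- The product of the own tie, the spectator and the far event, as an observable of the six replicas. -/
def phi6 (N : ℕ) (a0 z z' c : ℕ) (sl R : ℝ) (m0 : ℤ) (J : Finset ℕ) (f : Px Q → ℝ) (x : Fin 6 → Px Q) : ℝ :=
  NI a0 z (Fin.tail x 2) (Fin.tail x 1) * df57 z' c f (Fin.tail x 4) (Fin.tail x 0) *
    far2 N sl R m0 J (x 0) (Fin.tail x 2) (Fin.tail x 0)

theorem phi6_nonneg (N : ℕ) (sl R : ℝ) (m0 : ℤ) (J : Finset ℕ) (f : Px Q → ℝ) (x : Fin 6 → Px Q) :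
    0 ≤ phi6 N a0 z z' c sl R m0 J f x :=
  mul_nonneg (mul_nonneg (NI_nonneg _ _ _ _) (df57_nonneg _ _ _ _ _)) (far2_nonneg _ _ _ _ _ _ _ _)

/-- The far functional as the average over the six replicas. -/
theorem FR57_eq (hzz : z ≤ z') (hzc : z' ≤ c) (N : ℕ) (w : Px Q → ℝ) (sl R : ℝ) (m0 : ℤ) (J : Finset ℕ) {f : Px Q → ℝ}
    (hf : Rk c f) (i : Fin 5) (hi : ∀ x, (P5 (pJ (Q := Q) 0 z') (pJ 0 z)).S i x = univ) :
    I52.ev ((P5 (pJ 0 z') (pJ 0 z)).sh i) w (phi6 N a0 z z' c sl R m0 J f) = FR57 N w a0 z z' c sl R m0 J f := by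
  rw [ev_sh_eq]
  have e1 : ∀ x : Fin 5 → Px Q, I52.av w ((P5 (pJ (Q := Q) 0 z') (pJ 0 z)).S i x)
      (fun v => phi6 N a0 z z' c sl R m0 J f (Fin.cons v x)) =
      NI a0 z (x 2) (x 1) * df57 z' c f (x 4) (x 0) * gm w fun v => far2 N sl R m0 J v (x 2) (x 0) := fun x => by
    rw [hi x, ← I52.gm_eq_av, ← gm_const_mul]
    rfl
  rw [I52.ev_congr _ _ e1]
  exact far_P5 hzz hzc w hf fun v y S' => far2 N sl R m0 J v y S'

theorem abs_psi5_57 {κ b f : Px Q → ℝ} {M : ℝ} (hM : ∀ S, |b S| ≤ M) (hκ : ∀ S, |κ S| ≤ M) (x : Fin 5 → Px Q) :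
    |psi5 a0 z z' c κ b f x| ≤ 2 * M * M * (NI a0 z (x 2) (x 1) * df57 z' c f (x 4) (x 0)) := by
  have hM0 : 0 ≤ M := (abs_nonneg _).trans (hM (x 0))
  refine (abs_psi5_le hM x).trans ?_
  have h1 : 0 ≤ NI a0 z (x 2) (x 1) * df57 z' c f (x 4) (x 0) := mul_nonneg (NI_nonneg _ _ _ _) (df57_nonneg _ _ _ _ _)
  unfold df57 at h1 ⊢
  calc 2 * M * (|κ (x 4)| * NI a0 z (x 2) (x 1) * (|f (x 4) - f (x 0)| * NI z' c (x 4) (x 0)))
      = 2 * M * (|κ (x 4)| * (NI a0 z (x 2) (x 1) * (|f (x 4) - f (x 0)| * NI z' c (x 4) (x 0)))) := by ring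
    _ ≤ 2 * M * (M * (NI a0 z (x 2) (x 1) * (|f (x 4) - f (x 0)| * NI z' c (x 4) (x 0)))) :=
        mul_le_mul_of_nonneg_left (mul_le_mul_of_nonneg_right (hκ _) h1) (by linarith)
    _ = _ := by ring

theorem df57_le {f : Px Q → ℝ} {F : ℝ} (hF : ∀ S, |f S| ≤ F) (S S' : Px Q) : df57 z' c f S S' ≤ 2 * F := by
  unfold df57
  have h1 : |f S - f S'| ≤ 2 * F := (abs_sub _ _).trans (by linarith [hF S, hF S'])
  calc |f S - f S'| * NI z' c S S' ≤ |f S - f S'| * 1 := mul_le_mul_of_nonneg_left (NI_le_one _ _ _ _) (abs_nonneg _)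
    _ ≤ 2 * F := by rw [mul_one]; exact h1

theorem abs_psi5_D0 {κ b f : Px Q → ℝ} {M F : ℝ} (hM : ∀ S, |b S| ≤ M) (hκ : ∀ S, |κ S| ≤ M) (hF : ∀ S, |f S| ≤ F)
    (x : Fin 5 → Px Q) : |psi5 a0 z z' c κ b f x| ≤ 4 * M ^ 2 * F := by
  have hM0 : 0 ≤ M := (abs_nonneg _).trans (hM (x 0))
  have hF0 : 0 ≤ F := (abs_nonneg _).trans (hF (x 0))
  refine (abs_psi5_57 hM hκ x).trans ?_
  have h2 : NI a0 z (x 2) (x 1) * df57 z' c f (x 4) (x 0) ≤ 1 * (2 * F) :=
    mul_le_mul (NI_le_one _ _ _ _) (df57_le hF _ _) (df57_nonneg _ _ _ _ _) zero_le_one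
  have h3 : 0 ≤ 2 * M * M := by positivity
  nlinarith [mul_le_mul_of_nonneg_left h2 h3]

end Fun

/-! ### Measurability -/

section Meas

variable [SwQ Q] [Nonempty (Px Q)] {a0 z z' c : ℕ} {M F : ℝ} {κ b f : Env → Px Q → ℝ}

theorem obs_psi5 (mκ : Measurable κ) (mb : Measurable b) (mf : Measurable f) (hb : ∀ η S, |b η S| ≤ M)
    (hκ : ∀ η S, |κ η S| ≤ M) (hF : ∀ η S, |f η S| ≤ F) :
    Obs (fun η => psi5 a0 z z' c (κ η) (b η) (f η)) (4 * M ^ 2 * F) := by
  refine ⟨measurable_pi_lambda _ fun x => ?_, fun η x => abs_psi5_D0 (hb η) (hκ η) (hF η) x⟩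
  unfold psi5
  exact (((measurable_pi_apply _).comp mκ).mul ((((measurable_pi_apply _).comp mb).sub ((measurable_pi_apply _).comp mb)).mul_const
    _)).mul ((((measurable_pi_apply _).comp mf).sub ((measurable_pi_apply _).comp mf)).mul_const _)

theorem obs_chi3 (mf : Measurable f) (hF : ∀ η S, |f η S| ≤ F) :
    Obs (fun η => chi3 a0 z z' c (fun _ => 1) (f η)) (2 * F) := by
  refine ⟨measurable_pi_lambda _ fun x => ?_, fun η x => ?_⟩
  · unfold chi3
    exact ((((measurable_pi_apply _).comp mf).sub ((measurable_pi_apply _).comp mf)).abs.mul_const _).const_mul _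
  · unfold chi3
    rw [one_mul, abs_of_nonneg (mul_nonneg (NI_nonneg _ _ _ _) (mul_nonneg (abs_nonneg _) (NI_nonneg _ _ _ _)))]
    have hF0 : 0 ≤ F := (abs_nonneg _).trans (hF η (x 0))
    calc NI a0 z (x 2) (x 1) * (|f η (x 2) - f η (x 0)| * NI z' c (x 2) (x 0)) ≤ 1 * (2 * F) :=
          mul_le_mul (NI_le_one _ _ _ _) (df57_le (hF η) _ _) (df57_nonneg _ _ _ _ _) zero_le_one
      _ = 2 * F := one_mul _

theorem obs_phi6 (N : ℕ) (sl R : ℝ) (m0 : ℤ) (J : Finset ℕ) (mf : Measurable f) (hF : ∀ η S, |f η S| ≤ F) :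
    Obs (fun η => phi6 N a0 z z' c sl R m0 J (f η)) (2 * F) := by
  refine ⟨measurable_pi_lambda _ fun x => ?_, fun η x => ?_⟩
  · unfold phi6 df57
    exact (((((measurable_pi_apply _).comp mf).sub ((measurable_pi_apply _).comp mf)).abs.mul_const _).const_mul _).mul_const _
  · have hF0 : 0 ≤ F := (abs_nonneg _).trans (hF η (x 0))
    rw [abs_of_nonneg (phi6_nonneg N sl R m0 J (f η) x)]
    unfold phi6
    have h2 : NI a0 z (Fin.tail x 2) (Fin.tail x 1) * df57 z' c (f η) (Fin.tail x 4) (Fin.tail x 0) ≤ 1 * (2 * F) :=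
      mul_le_mul (NI_le_one _ _ _ _) (df57_le (hF η) _ _) (df57_nonneg _ _ _ _ _) zero_le_one
    calc NI a0 z (Fin.tail x 2) (Fin.tail x 1) * df57 z' c (f η) (Fin.tail x 4) (Fin.tail x 0) *
          far2 N sl R m0 J (x 0) (Fin.tail x 2) (Fin.tail x 0) ≤ 1 * (2 * F) * 1 :=
          mul_le_mul h2 (far2_le_one _ _ _ _ _ _ _ _) (far2_nonneg _ _ _ _ _ _ _ _) (by linarith)
      _ = 2 * F := by ring

end Meas

/-! ### TL3 -/

section TL3

variable {μ : Measure ℝ} {s : ℝ} {N : ℕ} [SwQ Q] [Nonempty (Px Q)] {A G Γ : Env → (ℕ → ℤ) → ℝ} {al be al' be' : ℕ}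
  {D' M F : ℝ} {J : Finset ℕ} {a0 z z' c : ℕ} {f : Env → Px Q → ℝ} {f₀ f₀' : ℝ → ℝ}

/-- The sum of the small terms: a replica or a shadow is not straight. -/
def bent57 (μ : Measure ℝ) (s : ℝ) (N : ℕ) (Q : Finset (Finset ℕ)) [Nonempty (Px Q)] (A : Env → (ℕ → ℤ) → ℝ) (J : Finset ℕ)
    (z z' : ℕ) (sl R : ℝ) (m0 : ℤ) : ℝ :=
  5 * ∫ η, gm (lA μ s N Q A η) (bend57 sl R m0 J) ∂(law μ) +
    (4 * ∫ η, gm (lA μ s N Q A η) (bend57 sl (R / 2) m0 (insert z J)) ∂(law μ) +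
      2 * ∫ η, gm (lA μ s N Q A η) (bend57 sl (R / 2) m0 (insert z' J)) ∂(law μ))

/-- **TL3: THE INSERTION OF THE SLAB FIELD IN THE TERM OF THE TELESCOPE.** -/
theorem ins_P5_57 [IsProbabilityMeasure μ] (h : DenLaw μ f₀ f₀') {K θ0 : ℝ} (hs : SG μ (sc f₀ f₀') K θ0)
    (hA : WF al be D' A) (hG : WF al be M G) (hΓ : WF al' be' M Γ) (hbe : be ≤ a0) (hbe' : be' ≤ a0)
    (hJ : ∀ r ∈ J, a0 < r ∧ r < z) (hJ0 : J.Nonempty) (hzz : z ≤ z') (hzc : z' ≤ c) (hcN : c ≤ N)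
    (mf : Measurable f) (bf : ∀ η S, |f η S| ≤ F) (hf : ∀ η, Rk c (f η))
    (hfb : ∀ q ∈ sS J N, ∀ (η : Env) (x : ℝ), f (Function.update η q x) = f η)
    {sl R : ℝ} (hR : 1 ≤ R) {m0 : ℤ} (hm0 : m0 ≤ N) {t a : ℝ} (ht : 0 < t) (ha : 0 ≤ a) (htM : t * (M / J.card) ≤ θ0) :
    |∫ η, I52.ins (P5 (pJ 0 z') (pJ 0 z)) (lA μ s N Q A η) (CF μ s N Q A G J η)
        (psi5 a0 z z' c (at2 Γ η) (at2 G η) (f η)) ∂(law μ)| ≤
      a * (2 * M * M * ∫ η, XT (lA μ s N Q A η) a0 z z' c (f η) ∂(law μ)) +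
      4 * M * M * M * ∫ η, FR57 N (lA μ s N Q A η) a0 z z' c sl R m0 J (f η) ∂(law μ) +
      (((N + 1 : ℕ) : ℝ) ^ 5 * tail1 K (4 * M ^ 2 * F) t a (7 * (5 : ℕ) * R * M ^ 2 / J.card) +
      M * (4 * M ^ 2 * F) * bent57 μ s N Q A J z z' sl R m0) := by
  obtain ⟨S0⟩ := (inferInstance : Nonempty (Px Q))
  have hM0 : 0 ≤ M := (abs_nonneg _).trans (hG.bd (fun _ => 0) fun _ => 0)
  have hF0 : 0 ≤ F := (abs_nonneg _).trans (bf (fun _ => 0) S0)
  have hJN : ∀ r ∈ J, be < r ∧ r ≤ N := fun r hr => ⟨hbe.trans_lt (hJ r hr).1, by have := (hJ r hr).2; omega⟩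
  have bκ : ∀ η (S : Px Q), |at2 Γ η S| ≤ M := fun η S => hΓ.bd η _
  have bb : ∀ η (S : Px Q), |at2 G η S| ≤ M := fun η S => hG.bd η _
  have hΨ : Obs (fun η => psi5 a0 z z' c (at2 Γ η) (at2 G η) (f η)) (4 * M ^ 2 * F) :=
    obs_psi5 (at2_meas hΓ) (at2_meas hG) mf bb bκ bf
  have hrow : ∀ q ∈ sS J N, (a0 : ℤ) < q.1 := fun q hq => by
    obtain ⟨r, hr, zz, _, rfl⟩ := mem_sS.1 hq
    have := (hJ r hr).1
    show (a0 : ℤ) < (r : ℤ)
    exact_mod_cast this
  have hbl : ∀ q ∈ sS J N, ∀ (η : Env) (x : ℝ), psi5 a0 z z' c (at2 (Q := Q) Γ (Function.update η q x))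
      (at2 G (Function.update η q x)) (f (Function.update η q x)) = psi5 a0 z z' c (at2 Γ η) (at2 G η) (f η) := fun q hq η x => by
    have h1 := hrow q hq
    have e1 : at2 (Q := Q) Γ (Function.update η q x) = at2 Γ η := by
      unfold at2
      rw [hΓ.blind η q x (Or.inr (by omega))]
    have e2 : at2 (Q := Q) G (Function.update η q x) = at2 G η := by
      unfold at2
      rw [hG.blind η q x (Or.inr (by omega))]
    rw [e1, e2, hfb q hq]
  have mw : Measurable fun η => lA μ s N Q A η := (Wt_lA (μ := μ) (s := s) (N := N) (Q := Q) hA (S := ∅)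
    (fun p hp => absurd hp (Finset.notMem_empty p))).meas
  have k := ins_box57 (m := 5) (s := s) (P5 (pJ (Q := Q) 0 z') (pJ 0 z)) h hs hA hG hJN hJ0 hΨ hbl (sl := sl) hR hm0 ht ha htM
  refine k.trans ?_
  have hmar := marg_P5 (pJ (Q := Q) 0 z') (pJ (Q := Q) 0 z)
  have iX : Integrable (fun η => XT (lA μ s N Q A η) a0 z z' c (f η)) (law μ) := int_evP (P3 (pJ (Q := Q) 0 z')) (obs_chi3 mf bf) mw
  have iF : ∀ i : Fin 5, (∀ x, (P5 (pJ (Q := Q) 0 z') (pJ 0 z)).S i x = univ) →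
      Integrable (fun η => FR57 N (lA μ s N Q A η) a0 z z' c sl R m0 J (f η)) (law μ) := fun i hi => by
    have h1 := int_evP ((P5 (pJ (Q := Q) 0 z') (pJ 0 z)).sh i) (obs_phi6 (a0 := a0) (z := z) (z' := z') (c := c) N sl R m0 J mf bf)
      mw (μ := μ)
    have e : (fun η => I52.ev ((P5 (pJ (Q := Q) 0 z') (pJ 0 z)).sh i) (lA μ s N Q A η) (phi6 N a0 z z' c sl R m0 J (f η))) =
        fun η => FR57 N (lA μ s N Q A η) a0 z z' c sl R m0 J (f η) := by
      funext η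
      exact FR57_eq hzz hzc N _ sl R m0 J (hf η) i hi
    rwa [e] at h1
  -- the main term
  have t1 : ∫ η, I52.ev (P5 (pJ (Q := Q) 0 z') (pJ 0 z)) (lA μ s N Q A η)
      (fun x => |psi5 a0 z z' c (at2 Γ η) (at2 G η) (f η) x|) ∂(law μ) ≤
      2 * M * M * ∫ η, XT (lA μ s N Q A η) a0 z z' c (f η) ∂(law μ) := by
    rw [← integral_const_mul]
    refine integral_mono (int_evP _ hΨ.abs mw) (iX.const_mul _) fun η => ?_
    have h1 : I52.ev (P5 (pJ (Q := Q) 0 z') (pJ 0 z)) (lA μ s N Q A η) (fun x => |psi5 a0 z z' c (at2 Γ η) (at2 G η) (f η) x|) ≤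
        I52.ev (P5 (pJ (Q := Q) 0 z') (pJ 0 z)) (lA μ s N Q A η) fun x =>
          2 * M * M * (1 * NI a0 z (x 2) (x 1) * (|f η (x 4) - f η (x 0)| * NI z' c (x 4) (x 0))) :=
      I52.ev_mono _ _ fun x => by
        rw [one_mul]
        exact abs_psi5_57 (bb η) (bκ η) x
    refine h1.trans_eq ?_
    rw [I52.ev_smul, ev_P5_le (L := fun _ => (1 : ℝ)) hzz hzc (fun _ _ _ => rfl) (hf η)]
    rfl
  -- the own replicas
  have ib : ∀ (R : ℝ) (J : Finset ℕ), Integrable (fun η => gm (lA μ s N Q A η) (bend57 sl R m0 J)) (law μ) := fun R J => by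
    have h1 : Obs (fun (_ : Env) (x : Fin 5 → Px Q) => bend57 sl R m0 J (x 0)) 1 :=
      ⟨measurable_const, fun η x => by
        rw [abs_of_nonneg (bend57_nonneg _ _ _ _ _)]
        exact bend57_le_one _ _ _ _ _⟩
    have h2 := int_evP (μ := μ) (P5 (pJ (Q := Q) 0 z') (pJ 0 z)) h1 mw
    simpa only [hmar.ev] using h2
  have t2 : ∀ i : Fin 5, ∫ η, I52.ev (P5 (pJ (Q := Q) 0 z') (pJ 0 z)) (lA μ s N Q A η)
      (fun x => |psi5 a0 z z' c (at2 Γ η) (at2 G η) (f η) x| * bend57 sl R m0 J (x i)) ∂(law μ) ≤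
      4 * M ^ 2 * F * ∫ η, gm (lA μ s N Q A η) (bend57 sl R m0 J) ∂(law μ) := fun i => by
    rw [← integral_const_mul]
    refine integral_mono (int_evP _ (Obs_mulfix hΨ (fun x => bend57_nonneg sl R m0 J (x i)) fun x => bend57_le_one sl R m0 J (x i)) mw)
      ((ib R J).const_mul _) fun η => ?_
    have h1 : I52.ev (P5 (pJ (Q := Q) 0 z') (pJ 0 z)) (lA μ s N Q A η)
        (fun x => |psi5 a0 z z' c (at2 Γ η) (at2 G η) (f η) x| * bend57 sl R m0 J (x i)) ≤
        I52.ev (P5 (pJ (Q := Q) 0 z') (pJ 0 z)) (lA μ s N Q A η) fun x => 4 * M ^ 2 * F * bend57 sl R m0 J (x i) :=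
      I52.ev_mono _ _ fun x => mul_le_mul_of_nonneg_right (hΨ.bd η x) (bend57_nonneg _ _ _ _ _)
    refine h1.trans_eq ?_
    rw [I52.ev_smul, hmar.ev i _ (bend57 sl R m0 J)]
  have hzJ : z ∉ J := fun h' => absurd (hJ z h').2 (lt_irrefl z)
  have hzJ' : z' ∉ J := fun h' => absurd (hJ z' h').2 (by omega)
  have iL : ∀ i : Fin 5, Integrable (fun η => I52.ev ((P5 (pJ (Q := Q) 0 z') (pJ 0 z)).sh i) (lA μ s N Q A η)
      (fun x => |psi5 a0 z z' c (at2 Γ η) (at2 G η) (f η) (Fin.tail x)| * far57 N sl R m0 J x)) (law μ) := fun i =>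
    int_evP _ (Obs_mulfix (Obs_tail hΨ) (fun x => far57_nonneg sl R m0 J x) fun x => far57_le_one sl R m0 J x) mw
  -- the free shadows
  have t3 : ∀ i : Fin 5, (∀ x, (P5 (pJ (Q := Q) 0 z') (pJ 0 z)).S i x = univ) →
      ∫ η, I52.ev ((P5 (pJ (Q := Q) 0 z') (pJ 0 z)).sh i) (lA μ s N Q A η)
      (fun x => |psi5 a0 z z' c (at2 Γ η) (at2 G η) (f η) (Fin.tail x)| * far57 N sl R m0 J x) ∂(law μ) ≤
      2 * M * M * ∫ η, FR57 N (lA μ s N Q A η) a0 z z' c sl R m0 J (f η) ∂(law μ) := fun i hi => by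
    rw [← integral_const_mul]
    refine integral_mono (iL i) ((iF i hi).const_mul _) fun η => ?_
    have h1 : I52.ev ((P5 (pJ (Q := Q) 0 z') (pJ 0 z)).sh i) (lA μ s N Q A η)
        (fun x => |psi5 a0 z z' c (at2 Γ η) (at2 G η) (f η) (Fin.tail x)| * far57 N sl R m0 J x) ≤
        I52.ev ((P5 (pJ (Q := Q) 0 z') (pJ 0 z)).sh i) (lA μ s N Q A η)
          fun x => 2 * M * M * phi6 N a0 z z' c sl R m0 J (f η) x := I52.ev_mono _ _ fun x => by
      have h2 := abs_psi5_57 (a0 := a0) (z := z) (z' := z') (c := c) (f := f η) (bb η) (bκ η) (Fin.tail x)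
      have h3 := far57_le_far2 N sl R m0 J x 2 0
      unfold phi6
      rw [← mul_assoc]
      exact mul_le_mul h2 h3 (far57_nonneg _ _ _ _ _)
        (mul_nonneg (by positivity) (mul_nonneg (NI_nonneg _ _ _ _) (df57_nonneg _ _ _ _ _)))
    refine h1.trans_eq ?_
    rw [I52.ev_smul, FR57_eq hzz hzc N _ sl R m0 J (hf η) i hi]
  -- the conditional shadows
  have t4 : ∀ (i k : Fin 5) (y : ℕ), y ∉ J → (∀ x, (P5 (pJ (Q := Q) 0 z') (pJ 0 z)).S i x =
      univ.filter fun v => pJ 0 y v = pJ 0 y (x k)) →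
      ∫ η, I52.ev ((P5 (pJ (Q := Q) 0 z') (pJ 0 z)).sh i) (lA μ s N Q A η)
      (fun x => |psi5 a0 z z' c (at2 Γ η) (at2 G η) (f η) (Fin.tail x)| * far57 N sl R m0 J x) ∂(law μ) ≤
      4 * M ^ 2 * F * (2 * ∫ η, gm (lA μ s N Q A η) (bend57 sl (R / 2) m0 (insert y J)) ∂(law μ)) := fun i k y hy hi => by
    rw [← integral_const_mul, ← integral_const_mul]
    refine integral_mono (iL i) (((ib (R / 2) (insert y J)).const_mul _).const_mul _) fun η => ?_
    exact ev_sh_le hmar i k (lA μ s N Q A η) (pJ 0 y) hi (fun x => hΨ.bd η x)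
      (B := bend57 sl (R / 2) m0 (insert y J)) (fun v => bend57_nonneg _ _ _ _ _) (fun x => far57_nonneg _ _ _ _ _)
      fun x hx => far57_of_cond hR hm0 hy x k (ps_of_ge hx le_rfl)
  have u1 := t4 1 3 z hzJ (S_P5_1 _ _)
  have u2 := t4 2 4 z hzJ (S_P5_2 _ _)
  have u3 := t4 3 4 z' hzJ' (S_P5_3 _ _)
  have u0 := t3 0 (S_P5_0 _ _)
  have u4 := t3 4 (S_P5_4 _ _)
  have v1 := t2 0
  have v2 := t2 1
  have v3 := t2 2
  have v4 := t2 3
  have v5 := t2 4
  have w1 := mul_le_mul_of_nonneg_left t1 ha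
  rw [Fin.sum_univ_five, Fin.sum_univ_five]
  unfold bent57
  have w2 := mul_le_mul_of_nonneg_left (add_le_add (add_le_add (add_le_add (add_le_add v1 v2) v3) v4) v5) hM0
  have w3 := mul_le_mul_of_nonneg_left (add_le_add (add_le_add (add_le_add (add_le_add u0 u1) u2) u3) u4) hM0
  refine (add_le_add (add_le_add w1 le_rfl) (add_le_add w2 w3)).trans (le_of_eq ?_)
  ring

end TL3

end

end Pool.Agent.W_7d29a1_C0.InT57
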