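import Pool.Agent.W_7d29a1_C0.FarT13A
import Pool.Agent.W_7d29a1_C0.PlanP13

/-!
C0, helper13: plans of replicas (Ins52) AT TILTED WEIGHTS `lw + u`: the tilt `u` is blind on the rows `J` and a function of the positions of
the path in `[p0, p1]` (`Tilt`); the given blocks of the plan contain `[p0, p1]` or are disjoint from it (`BPT`). Every such plan has a
density in the sense of `OwnT` (FarT13A), up to the factor `exp (-2 D)`: `own_planT`.
-/

set_option autoImplicit false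

namespace Pool.Agent.W_7d29a1_C0.F13

open MeasureTheory ProbabilityTheory Filter Topology Finset
open Pool.Agent.W_7d29a1_F Pool.Agent.W_7d29a1_X Pool.Agent.W_7d29a1_H Pool.Agent.W_7d29a1_HZ
open Pool.Agent.W_7d29a1_HS (In wd md)
open Pool.Agent.W_7d29a1_HZ.ZE
open Pool.Agent.W_7d29a1_HZ.Z15 (kC ZC)
open Pool.Agent.W_7d29a1_C0.Mod92 (Px Pn lw pos_card ne_Pn pJ ps_of_le ps_of_ge)
open Pool.W7d29a1.C0 (gz gm gz_pos gz_ne)
open Pool.W7d29a1.C0
open Pool.W7d29a1.C0.I52 (Plan av)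
open scoped ENNReal

noncomputable section

variable {μ : Measure ℝ} {s : ℝ} {N y : ℕ} {J : Finset ℕ} {p0 p1 : ℕ}

/-! ### The tilt -/

/-- A tilt: blind on the rows `J`, a function of the positions in `[p0, p1]`. -/
structure Tilt (N y : ℕ) (J : Finset ℕ) (p0 p1 : ℕ) (u : Env → Px (Pn N y) → ℝ) : Prop where
  me : ∀ S, Measurable fun η => u η S
  off : ∀ (η η' : Env) (S : Px (Pn N y)), (∀ q : Pt, ¬ (0 ≤ q.1 ∧ q.1.toNat ∈ J) → η q = η' q) → u η S = u η' S
  loc : ∀ (η : Env) (S S' : Px (Pn N y)), (∀ t, p0 ≤ t → t ≤ p1 → pos S.1 t = pos S'.1 t) → u η S = u η S'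

/-- A plan built by free replicas and replicas given an old one outside of a block which contains `[p0, p1]` or is disjoint from it. -/
def BPT (N y p0 p1 : ℕ) : {m : ℕ} → Plan (Px (Pn N y)) m → Prop
  | _, Plan.nil => True
  | _, @Plan.cons _ m P A _ => BPT N y p0 p1 P ∧ ((∀ x, A x = univ) ∨ ∃ c d : ℕ, ∃ i : Fin m, c ≤ d ∧ d ≤ N ∧
      ((c ≤ p0 ∧ p1 ≤ d) ∨ d ≤ p0 ∨ p1 ≤ c) ∧ ∀ x, A x = univ.filter fun s => pJ c d s = pJ c d (x i))

theorem BPT.nil : BPT N y p0 p1 (Plan.nil : Plan (Px (Pn N y)) 0) := trivial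

theorem BPT.fr [Nonempty (Px (Pn N y))] {m : ℕ} {P : Plan (Px (Pn N y)) m} (h : BPT N y p0 p1 P) : BPT N y p0 p1 P.fr :=
  ⟨h, Or.inl fun _ => rfl⟩

theorem BPT.gi {m : ℕ} {P : Plan (Px (Pn N y)) m} (h : BPT N y p0 p1 P) {c d : ℕ} (hcd : c ≤ d) (hd : d ≤ N)
    (hp : (c ≤ p0 ∧ p1 ≤ d) ∨ d ≤ p0 ∨ p1 ≤ c) (i : Fin m) : BPT N y p0 p1 (P.gi (pJ c d) i) := ⟨h, Or.inr ⟨c, d, i, hcd, hd, hp, fun _ => rfl⟩⟩

/-- The sets of a plan of blocks. -/
theorem BPT.S : {m : ℕ} → {P : Plan (Px (Pn N y)) m} → BPT N y p0 p1 P → ∀ i : Fin m, (∀ x, P.S i x = univ) ∨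
    ∃ c d : ℕ, ∃ j : Fin m, c ≤ d ∧ d ≤ N ∧ ((c ≤ p0 ∧ p1 ≤ d) ∨ d ≤ p0 ∨ p1 ≤ c) ∧ ∀ x, P.S i x = univ.filter fun s => pJ c d s = pJ c d (x j)
  | _, Plan.nil, _, i => i.elim0
  | _, @Plan.cons _ m P A _, h, i => by
    refine Fin.cases ?_ (fun i' => ?_) i
    · rcases h.2 with h1 | ⟨c, d, j, hcd, hd, hp, h1⟩
      · left
        intro x
        exact h1 _
      · right
        exact ⟨c, d, j.succ, hcd, hd, hp, fun x => h1 _⟩
    · rcases BPT.S h.1 i' with h1 | ⟨c, d, j, hcd, hd, hp, h1⟩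
      · left
        intro x
        exact h1 _
      · right
        exact ⟨c, d, j.succ, hcd, hd, hp, fun x => h1 _⟩

theorem BPT.sh {m : ℕ} {P : Plan (Px (Pn N y)) m} (h : BPT N y p0 p1 P) (i : Fin m) : BPT N y p0 p1 (P.sh i) := ⟨h, h.S i⟩

theorem BPT.bp : {m : ℕ} → {P : Plan (Px (Pn N y)) m} → BPT N y p0 p1 P → BP N y P
  | _, Plan.nil, _ => trivial
  | _, @Plan.cons _ m P A _, h => by
    refine ⟨BPT.bp h.1, ?_⟩
    rcases h.2 with h1 | ⟨c, d, i, hcd, hd, -, h1⟩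
    · exact Or.inl h1
    · exact Or.inr ⟨c, d, i, hcd, hd, h1⟩

/-! ### The fibre of a block which contains the window of the tilt -/

theorem glue_mem {c d : ℕ} (hcd : c ≤ d) (hd : d ≤ N) (S : Px (Pn N y)) {g : Finset ℕ}
    (hg : g ∈ W_7d29a1_Z.pcs 0 c (pos S.1 c) d (pos S.1 d)) : ((S.1 \ Ico c d) ∪ g) ∈ Pn N y := by
  obtain ⟨h1, h2⟩ := W_7d29a1_Z.mem_pcs.1 hg
  have h2' : (g.card : ℤ) = ((S.1 ∩ Ico c d).card : ℤ) := by
    unfold W_7d29a1_Z.ps at h2
    rw [inter_eq_left.2 h1] at h2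
    rw [card_blk13 S.1 hcd]
    simp only [Pi.zero_apply, sub_zero, add_zero] at h2
    linarith
  have h3 : ((S.1 \ Ico c d) ∪ g).card = S.1.card := by
    rw [card_union_of_disjoint]
    · have h4 := card_sdiff_add_card_inter S.1 (Ico c d)
      have h5 : g.card = (S.1 ∩ Ico c d).card := by exact_mod_cast h2'
      omega
    · rw [disjoint_left]
      intro i hi hi'
      exact (Finset.mem_sdiff.1 hi).2 (h1 hi')
  have h4 := mem_powersetCard.1 S.2
  refine mem_powersetCard.2 ⟨union_subset (sdiff_subset.trans h4.1) fun i hi => ?_, h3.trans h4.2⟩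
  have := h1 hi
  rw [mem_Ico] at this
  rw [mem_range]
  omega

theorem glue_pos {c d : ℕ} (S : Finset ℕ) {g : Finset ℕ} (hg : g ⊆ Ico c d) {t : ℕ} (h1 : c ≤ t) (h2 : t ≤ d) :
    pos ((S \ Ico c d) ∪ g) t = W_7d29a1_Z.ps 0 c (pos S c) g t := by
  have e2 := W_7d29a1_Z.ps_chain 0 0 ((S \ Ico c d) ∪ g) (Nat.zero_le c) h1
  rw [W_7d29a1_Z.ps_pos, W_7d29a1_Z.ps_pos] at e2
  rw [← e2]
  have e3 : pos ((S \ Ico c d) ∪ g) c = pos S c := by
    unfold pos
    congr 2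
    ext i
    simp only [mem_inter, mem_union, Finset.mem_sdiff, mem_Ico, mem_range]
    constructor
    · rintro ⟨h4 | h4, h5⟩
      · exact ⟨h4.1, h5⟩
      · have := hg h4
        rw [mem_Ico] at this
        omega
    · rintro ⟨h4, h5⟩
      exact ⟨Or.inl ⟨h4, by omega⟩, h5⟩
  rw [e3]
  refine W_7d29a1_Z.ps_congr 0 c _ ?_
  ext i
  simp only [mem_inter, mem_union, Finset.mem_sdiff, mem_Ico]
  constructor
  · rintro ⟨h4 | h4, h5⟩
    · omega
    · exact ⟨h4, h5⟩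
  · rintro ⟨h4, h5⟩
    exact ⟨Or.inr h4, h5⟩

/-- The tilt of a piece of path. -/
def uB (u : Env → Px (Pn N y) → ℝ) (c d : ℕ) (a : ℤ) (g : Finset ℕ) (η : Env) : ℝ := by
  classical
  exact if h : ∃ v : Px (Pn N y), ∀ t, c ≤ t → t ≤ d → pos v.1 t = W_7d29a1_Z.ps 0 c a g t then Real.exp (u η h.choose) else 1

theorem uB_pos (u : Env → Px (Pn N y) → ℝ) (c d : ℕ) (a : ℤ) (g : Finset ℕ) (η : Env) : 0 < uB u c d a g η := by
  unfold uB
  split_ifs
  · exact Real.exp_pos _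
  · exact one_pos

theorem uB_meas {u : Env → Px (Pn N y) → ℝ} (hu : Tilt N y J p0 p1 u) (c d : ℕ) (a : ℤ) (g : Finset ℕ) : Measurable (uB u c d a g) := by
  unfold uB
  split_ifs with h
  · exact (hu.me _).exp
  · exact measurable_const

theorem uB_off {u : Env → Px (Pn N y) → ℝ} (hu : Tilt N y J p0 p1 u) (c d : ℕ) (a : ℤ) (g : Finset ℕ) {η η' : Env}
    (h : ∀ q : Pt, ¬ (0 ≤ q.1 ∧ q.1.toNat ∈ J) → η q = η' q) : uB u c d a g η = uB u c d a g η' := by
  unfold uB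
  split_ifs with h1
  · rw [hu.off η η' _ h]
  · rfl

theorem uB_eq {u : Env → Px (Pn N y) → ℝ} (hu : Tilt N y J p0 p1 u) {c d : ℕ} (h0 : c ≤ p0) (h1 : p1 ≤ d) {a : ℤ} {g : Finset ℕ}
    {v : Px (Pn N y)} (hv : ∀ t, c ≤ t → t ≤ d → pos v.1 t = W_7d29a1_Z.ps 0 c a g t) (η : Env) : uB u c d a g η = Real.exp (u η v) := by
  unfold uB
  have hex : ∃ v : Px (Pn N y), ∀ t, c ≤ t → t ≤ d → pos v.1 t = W_7d29a1_Z.ps 0 c a g t := ⟨v, hv⟩
  rw [dif_pos hex]
  congr 1
  refine hu.loc η _ _ fun t ht1 ht2 => ?_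
  rw [hex.choose_spec t (h0.trans ht1) (ht2.trans h1), hv t (h0.trans ht1) (ht2.trans h1)]

/-- The tilted normalisation of a block with given ends. -/
def KfT (μ : Measure ℝ) (s : ℝ) (u : Env → Px (Pn N y) → ℝ) (c d : ℕ) (a b : ℤ) (η : Env) : ℝ := by
  classical
  exact if (W_7d29a1_Z.pcs 0 c a d b).Nonempty then ∑ g ∈ W_7d29a1_Z.pcs 0 c a d b, W_7d29a1_Z.pw μ s 0 η c a d g * uB u c d a g η else 1

theorem KfT_meas {u : Env → Px (Pn N y) → ℝ} (hu : Tilt N y J p0 p1 u) (c d : ℕ) (a b : ℤ) : Measurable (KfT μ s u c d a b) := by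
  unfold KfT
  split_ifs
  · exact Finset.measurable_fun_sum _ fun g _ => (W_7d29a1_Z.pw_meas _ _ _ _ _).mul (uB_meas hu c d a g)
  · exact measurable_const

theorem KfT_pos (u : Env → Px (Pn N y) → ℝ) (c d : ℕ) (a b : ℤ) (η : Env) : 0 < KfT μ s u c d a b η := by
  unfold KfT
  split_ifs with h
  · exact sum_pos (fun S _ => mul_pos (W_7d29a1_Z.pw_pos _ _ _ _ _ _) (uB_pos _ _ _ _ _ _)) h
  · exact one_pos

theorem KfT_mono {u : Env → Px (Pn N y) → ℝ} (hu : Tilt N y J p0 p1 u) (c d : ℕ) (a b : ℤ) {η η' : Env} (h : ∀ q, η q ≤ η' q)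
    (h' : ∀ q : Pt, ¬ (0 ≤ q.1 ∧ q.1.toNat ∈ J) → η q = η' q) : KfT μ s u c d a b η ≤ KfT μ s u c d a b η' := by
  unfold KfT
  split_ifs
  · refine sum_le_sum fun g _ => ?_
    rw [uB_off hu c d a g h']
    exact mul_le_mul_of_nonneg_right (W_7d29a1_Z.pw_mono 0 c a d g h) (uB_pos _ _ _ _ _ _).le
  · exact le_rfl

theorem pcs_ne {c d : ℕ} (hcd : c ≤ d) (S : Finset ℕ) : (W_7d29a1_Z.pcs 0 c (pos S c) d (pos S d)).Nonempty := by
  refine ⟨S ∩ Ico c d, W_7d29a1_Z.mem_pcs.2 ⟨inter_subset_right, ?_⟩⟩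
  unfold W_7d29a1_Z.ps
  rw [inter_assoc, inter_self, card_blk13 S hcd]
  simp

theorem zs_tilt {u : Env → Px (Pn N y) → ℝ} (hu : Tilt N y J p0 p1 u) (η : Env) {c d : ℕ} (hcd : c ≤ d) (hd : d ≤ N) (h0 : c ≤ p0)
    (h1 : p1 ≤ d) (S : Px (Pn N y)) :
    I52.zs (lw μ s η N (Pn N y) + u η) (univ.filter fun v => pJ c d v = pJ c d S) =
      ko13 μ s η N c d S.1 * KfT μ s u c d (pos S.1 c) (pos S.1 d) η := by
  classical
  obtain ⟨F, hF⟩ : ∃ F : Finset ℕ → ℝ, F = fun T => if h : T ∈ Pn N y then Real.exp (u η ⟨T, h⟩) else 1 := ⟨_, rfl⟩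
  have h := fib_sum13 (μ := μ) (s := s) η hcd hd S F
  have e1 : I52.zs (lw μ s η N (Pn N y) + u η) (univ.filter fun v => pJ c d v = pJ c d S) =
      ∑ v : Px (Pn N y), if pJ c d v = pJ c d S then pth μ s η N v.1 * F v.1 else 0 := by
    unfold I52.zs
    rw [sum_filter]
    refine sum_congr rfl fun v _ => ?_
    split_ifs
    · rw [Pi.add_apply, Real.exp_add, exp_lw, hF]
      beta_reduce
      rw [dif_pos v.2]
    · rfl
  rw [e1, h]
  congr 1
  unfold KfT
  rw [if_pos (pcs_ne hcd S.1)]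
  refine sum_congr rfl fun g hg => ?_
  congr 1
  have hm := glue_mem hcd hd S hg
  rw [hF]
  beta_reduce
  rw [dif_pos hm]
  exact (uB_eq hu h0 h1 (v := ⟨(S.1 \ Ico c d) ∪ g, hm⟩) (fun t ht1 ht2 => glue_pos S.1 (W_7d29a1_Z.mem_pcs.1 hg).1 ht1 ht2) η).symm

/-- Outside of the block the tilt is constant on the fibre. -/
theorem tilt_fib {u : Env → Px (Pn N y) → ℝ} (hu : Tilt N y J p0 p1 u) (η : Env) {c d : ℕ} (h : d ≤ p0 ∨ p1 ≤ c) {v S : Px (Pn N y)}
    (hv : pJ c d v = pJ c d S) : u η v = u η S := by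
  refine hu.loc η _ _ fun t h1 h2 => ?_
  rcases h with h | h
  · exact ps_of_ge hv (h.trans h1)
  · exact ps_of_le hv (h2.trans h)

theorem zs_out {u : Env → Px (Pn N y) → ℝ} (hu : Tilt N y J p0 p1 u) (η : Env) {c d : ℕ} (hcd : c ≤ d) (hd : d ≤ N) (h : d ≤ p0 ∨ p1 ≤ c)
    (S : Px (Pn N y)) :
    I52.zs (lw μ s η N (Pn N y) + u η) (univ.filter fun v => pJ c d v = pJ c d S) =
      Real.exp (u η S) * (ko13 μ s η N c d S.1 * KfP μ s c d (pos S.1 c) (pos S.1 d) η) := by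
  have e : KfP μ s c d (pos S.1 c) (pos S.1 d) η = W_7d29a1_Z.Kf μ s 0 η c (pos S.1 c) d (pos S.1 d) := by
    have h := KfP_eq (μ := μ) (s := s) η hcd hd S
    rwa [pF_val, pF_val] at h
  rw [e, ← fz13 η hcd hd S]
  unfold I52.zs VT31.fz
  rw [sum_filter, mul_sum]
  refine sum_congr rfl fun v _ => ?_
  split_ifs with h1
  · rw [Pi.add_apply, tilt_fib hu η h h1, Real.exp_add, mul_comm]
  · rw [mul_zero]

/-! ### The density -/

/-- What a plan gives. -/
def DenT (μ : Measure ℝ) (s : ℝ) (N y : ℕ) (J : Finset ℕ) (u : Env → Px (Pn N y) → ℝ) {k : ℕ} (P : Plan (Px (Pn N y)) (k + 1)) (ι : Type)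
    (kd : (Fin (k + 1) → Px (Pn N y)) → ι) (A : Env → (Fin (k + 1) → Px (Pn N y)) → ℝ) (Zt : ι → Env → ℝ) : Prop :=
  (∀ x, Measurable fun η => A η x) ∧ (∀ η x, 0 ≤ A η x) ∧ OffV J A ∧
    (∀ κ, Measurable (Zt κ)) ∧ (∀ κ η, 0 < Zt κ η) ∧
    (∀ (κ : ι) (η η' : Env), (∀ q, η q ≤ η' q) → (∀ q : Pt, ¬ (0 ≤ q.1 ∧ q.1.toNat ∈ J) → η q = η' q) → Zt κ η ≤ Zt κ η') ∧
    ∀ η x, I52.wt P (lw μ s η N (Pn N y) + u η) x = A η x / Zt (kd x) η

/-- The tilted partition function. -/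
def ZU (μ : Measure ℝ) (s : ℝ) (N y : ℕ) (u : Env → Px (Pn N y) → ℝ) (η : Env) : ℝ :=
  ∑ S : Px (Pn N y), pth μ s η N S.1 * Real.exp (u η S)

theorem ZU_meas {u : Env → Px (Pn N y) → ℝ} (hu : Tilt N y J p0 p1 u) : Measurable (ZU μ s N y u) := by
  unfold ZU
  exact Finset.measurable_fun_sum _ fun S _ => (Pool.Agent.W_7d29a1_C0.Mod92.meas_pth N S.1).mul (hu.me S).exp

theorem ZU_pos [Nonempty (Px (Pn N y))] (u : Env → Px (Pn N y) → ℝ) (η : Env) : 0 < ZU μ s N y u η :=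
  sum_pos (fun S _ => mul_pos (pth_pos13 η N _) (Real.exp_pos _)) univ_nonempty

theorem ZU_mono {u : Env → Px (Pn N y) → ℝ} (hu : Tilt N y J p0 p1 u) {η η' : Env} (h : ∀ q, η q ≤ η' q)
    (h' : ∀ q : Pt, ¬ (0 ≤ q.1 ∧ q.1.toNat ∈ J) → η q = η' q) : ZU μ s N y u η ≤ ZU μ s N y u η' := by
  unfold ZU
  refine sum_le_sum fun S _ => ?_
  rw [hu.off η η' S h']
  refine mul_le_mul_of_nonneg_right ?_ (Real.exp_pos _).le
  rw [← W_7d29a1_Z.pw_pth, ← W_7d29a1_Z.pw_pth]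
  exact W_7d29a1_Z.pw_mono 0 0 0 N S.1 h

theorem gz_tilt (u : Env → Px (Pn N y) → ℝ) (η : Env) : gz (lw μ s η N (Pn N y) + u η) = ZU μ s N y u η := by
  unfold gz ZU
  exact sum_congr rfl fun S _ => by rw [Pi.add_apply, Real.exp_add, exp_lw]

theorem ker_univT [Nonempty (Px (Pn N y))] (u : Env → Px (Pn N y) → ℝ) (η : Env) (S : Px (Pn N y)) :
    I52.ker (lw μ s η N (Pn N y) + u η) univ S = pth μ s η N S.1 * Real.exp (u η S) / ZU μ s N y u η := by
  unfold I52.ker I52.zs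
  rw [if_pos (mem_univ _), Pi.add_apply, Real.exp_add, exp_lw]
  have e : ∑ S : Px (Pn N y), Real.exp ((lw μ s η N (Pn N y) + u η) S) = ZU μ s N y u η := gz_tilt u η
  rw [e]

theorem ker_fibT {u : Env → Px (Pn N y) → ℝ} (hu : Tilt N y J p0 p1 u) (η : Env) {c d : ℕ} (hcd : c ≤ d) (hd : d ≤ N) (h0 : c ≤ p0)
    (h1 : p1 ≤ d) (S v : Px (Pn N y)) :
    I52.ker (lw μ s η N (Pn N y) + u η) (univ.filter fun s => pJ c d s = pJ c d S) v =
      (if pJ c d v = pJ c d S then pth μ s η N v.1 * Real.exp (u η v) / ko13 μ s η N c d S.1 else 0) /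
        KfT μ s u c d (((pF S c : Fin (N + 1)) : ℕ) : ℤ) (((pF S d : Fin (N + 1)) : ℕ) : ℤ) η := by
  unfold I52.ker
  rw [zs_tilt hu η hcd hd h0 h1 S, pF_val, pF_val]
  by_cases h : pJ c d v = pJ c d S
  · have hm : v ∈ univ.filter (fun s : Px (Pn N y) => pJ c d s = pJ c d S) := by
      rw [mem_filter]
      exact ⟨mem_univ _, h⟩
    rw [if_pos hm, if_pos h, Pi.add_apply, Real.exp_add, exp_lw, div_div]
  · have hm : v ∉ univ.filter (fun s : Px (Pn N y) => pJ c d s = pJ c d S) := by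
      rw [mem_filter]
      exact fun hc => h hc.2
    rw [if_neg hm, if_neg h, zero_div]

theorem ker_outT {u : Env → Px (Pn N y) → ℝ} (hu : Tilt N y J p0 p1 u) (η : Env) {c d : ℕ} (hcd : c ≤ d) (hd : d ≤ N)
    (ho : d ≤ p0 ∨ p1 ≤ c) (S v : Px (Pn N y)) :
    I52.ker (lw μ s η N (Pn N y) + u η) (univ.filter fun s => pJ c d s = pJ c d S) v =
      (if pJ c d v = pJ c d S then pth μ s η N v.1 / ko13 μ s η N c d S.1 else 0) /
        KfP μ s c d (((pF S c : Fin (N + 1)) : ℕ) : ℤ) (((pF S d : Fin (N + 1)) : ℕ) : ℤ) η := by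
  unfold I52.ker
  rw [zs_out hu η hcd hd ho S, pF_val, pF_val]
  by_cases h : pJ c d v = pJ c d S
  · have hm : v ∈ univ.filter (fun s : Px (Pn N y) => pJ c d s = pJ c d S) := by
      rw [mem_filter]
      exact ⟨mem_univ _, h⟩
    rw [if_pos hm, if_pos h, Pi.add_apply, Real.exp_add, exp_lw, div_div, tilt_fib hu η ho h, mul_comm (pth μ s η N v.1),
      mul_div_mul_left _ _ (Real.exp_pos _).ne']
  · have hm : v ∉ univ.filter (fun s : Px (Pn N y) => pJ c d s = pJ c d S) := by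
      rw [mem_filter]
      exact fun hc => h hc.2
    rw [if_neg hm, if_neg h, zero_div]

open scoped Classical in
/-- Every plan of blocks has a density at tilted weights. -/
theorem den_planT [IsProbabilityMeasure μ] (hy : y ≤ N) {u : Env → Px (Pn N y) → ℝ} (hu : Tilt N y J p0 p1 u) :
    {k : ℕ} → (P : Plan (Px (Pn N y)) (k + 1)) → BPT N y p0 p1 P →
    ∃ (ι : Type) (_ : Fintype ι) (kd : (Fin (k + 1) → Px (Pn N y)) → ι) (A : Env → (Fin (k + 1) → Px (Pn N y)) → ℝ)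
      (Zt : ι → Env → ℝ), DenT μ s N y J u P ι kd A Zt ∧ Fintype.card ι ≤ (N + 1) ^ (2 * k)
  | 0, @Plan.cons _ _ P A hA, h => by
    have : Nonempty (Px (Pn N y)) := ne_Pn hy
    refine ⟨Unit, inferInstance, fun _ => (), fun η x => pth μ s η N (x 0).1 * Real.exp (u η (x 0)), fun _ η => ZU μ s N y u η,
      ⟨fun x => ?_, fun η x => ?_, fun η η' x hη => ?_,
      fun _ => ZU_meas hu, fun _ η => ZU_pos u η, fun _ η η' h1 h2 => ZU_mono hu h1 h2, fun η x => ?_⟩, ?_⟩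
    · exact (Pool.Agent.W_7d29a1_C0.Mod92.meas_pth N (x 0).1).mul (hu.me _).exp
    · exact mul_nonneg (pth_pos13 η N _).le (Real.exp_pos _).le
    · dsimp only
      rw [pth_onP 0 fun q hq => hη q fun _ => hq, hu.off η η' (x 0) fun q hq => hη q fun h => absurd h hq]
    · rw [I52.wt_cons]
      have h1 : A (Fin.tail x) = univ := by
        rcases h.2 with h1 | ⟨c, d, i, -⟩
        · exact h1 _
        · exact i.elim0
      have h2 : I52.wt P (lw μ s η N (Pn N y) + u η) (Fin.tail x) = 1 := by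
        cases P
        rfl
      rw [h1, h2, ker_univT, one_mul]
    · simp
  | k + 1, @Plan.cons _ _ P A hA, h => by
    have : Nonempty (Px (Pn N y)) := ne_Pn hy
    obtain ⟨ι, hι, kd, A0, Zt, ⟨m1, m2, m3, m4, m5, m6, m7⟩, hc⟩ := den_planT hy hu P h.1
    have hcard : Fintype.card (ι × (Fin (N + 1) × Fin (N + 1))) ≤ (N + 1) ^ (2 * (k + 1)) := by
      rw [Fintype.card_prod, Fintype.card_prod, Fintype.card_fin]
      calc Fintype.card ι * ((N + 1) * (N + 1)) ≤ (N + 1) ^ (2 * k) * ((N + 1) * (N + 1)) := Nat.mul_le_mul_right _ hc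
        _ = (N + 1) ^ (2 * (k + 1)) := by ring
    rcases h.2 with h1 | ⟨c, d, i, hcd, hd, hp, h1⟩
    · -- a free replica
      refine ⟨ι, hι, fun x => kd (Fin.tail x), fun η x => A0 η (Fin.tail x) * (pth μ s η N (x 0).1 * Real.exp (u η (x 0))),
        fun κ η => Zt κ η * ZU μ s N y u η, ⟨fun x => ?_, fun η x => ?_, fun η η' x hη => ?_, fun κ => ?_, fun κ η => ?_,
          fun κ η η' g1 g2 => ?_, fun η x => ?_⟩, ?_⟩
      · exact (m1 _).mul ((Pool.Agent.W_7d29a1_C0.Mod92.meas_pth N (x 0).1).mul (hu.me _).exp)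
      · exact mul_nonneg (m2 _ _) (mul_nonneg (pth_pos13 η N _).le (Real.exp_pos _).le)
      · dsimp only
        rw [pth_onP 0 fun q hq => hη q fun _ => hq, hu.off η η' (x 0) fun q hq => hη q fun h => absurd h hq,
          m3 η η' (Fin.tail x) fun q hq => hη q fun h => OnP_tail (hq h)]
      · exact (m4 κ).mul (ZU_meas hu)
      · exact mul_pos (m5 κ η) (ZU_pos u η)
      · exact mul_le_mul (m6 κ η η' g1 g2) (ZU_mono hu g1 g2) (ZU_pos u η).le (m5 κ η').le
      · rw [I52.wt_cons, m7, h1, ker_univT]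
        have hz := ZU_pos (μ := μ) (s := s) u η
        have hz' := m5 (kd (Fin.tail x)) η
        field_simp
      · refine hc.trans (Nat.pow_le_pow_right (Nat.succ_pos N) (by omega))
    · rcases hp with hp | hp
      · -- the block contains the window
        refine ⟨ι × (Fin (N + 1) × Fin (N + 1)), inferInstance, fun x => (kd (Fin.tail x), (pF (Fin.tail x i) c, pF (Fin.tail x i) d)),
          fun η x => A0 η (Fin.tail x) * (if pJ c d (x 0) = pJ c d (Fin.tail x i) then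
            pth μ s η N (x 0).1 * Real.exp (u η (x 0)) / ko13 μ s η N c d (Fin.tail x i).1 else 0),
          fun κ η => Zt κ.1 η * KfT μ s u c d ((κ.2.1 : ℕ) : ℤ) ((κ.2.2 : ℕ) : ℤ) η, ⟨fun x => ?_, fun η x => ?_, fun η η' x hη => ?_,
            fun κ => ?_, fun κ η => ?_, fun κ η η' g1 g2 => ?_, fun η x => ?_⟩, hcard⟩
        · refine (m1 _).mul ?_
          by_cases hp : pJ c d (x 0) = pJ c d (Fin.tail x i)
          · simp only [hp, if_true]
            exact ((Pool.Agent.W_7d29a1_C0.Mod92.meas_pth N (x 0).1).mul (hu.me _).exp).div (ko13_meas N c d _)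
          · simp only [hp, if_false]
            exact measurable_const
        · refine mul_nonneg (m2 _ _) ?_
          split_ifs
          · exact div_nonneg (mul_nonneg (pth_pos13 η N _).le (Real.exp_pos _).le) (ko13_pos η N c d _).le
          · exact le_rfl
        · dsimp only
          rw [pth_onP 0 fun q hq => hη q fun _ => hq, hu.off η η' (x 0) fun q hq => hη q fun h => absurd h hq,
            m3 η η' (Fin.tail x) fun q hq => hη q fun h => OnP_tail (hq h),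
            ko13_onP (x := Fin.tail x) i (fun q hq => hη q fun _ => OnP_tail hq) hcd hd]
        · exact (m4 κ.1).mul (KfT_meas hu _ _ _ _)
        · exact mul_pos (m5 κ.1 η) (KfT_pos _ _ _ _ _ η)
        · exact mul_le_mul (m6 κ.1 η η' g1 g2) (KfT_mono hu _ _ _ _ g1 g2) (KfT_pos _ _ _ _ _ η).le (m5 κ.1 η').le
        · rw [I52.wt_cons, m7, h1, ker_fibT hu η hcd hd hp.1 hp.2]
          have hz' := m5 (kd (Fin.tail x)) η
          have hz2 := KfT_pos (μ := μ) (s := s) u c d (((pF (Fin.tail x i) c : Fin (N + 1)) : ℕ) : ℤ)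
            (((pF (Fin.tail x i) d : Fin (N + 1)) : ℕ) : ℤ) η
          field_simp
      · -- the block is disjoint from the window
        refine ⟨ι × (Fin (N + 1) × Fin (N + 1)), inferInstance, fun x => (kd (Fin.tail x), (pF (Fin.tail x i) c, pF (Fin.tail x i) d)),
          fun η x => A0 η (Fin.tail x) * (if pJ c d (x 0) = pJ c d (Fin.tail x i) then
            pth μ s η N (x 0).1 / ko13 μ s η N c d (Fin.tail x i).1 else 0),
          fun κ η => Zt κ.1 η * KfP μ s c d ((κ.2.1 : ℕ) : ℤ) ((κ.2.2 : ℕ) : ℤ) η, ⟨fun x => ?_, fun η x => ?_, fun η η' x hη => ?_,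
            fun κ => ?_, fun κ η => ?_, fun κ η η' g1 g2 => ?_, fun η x => ?_⟩, hcard⟩
        · refine (m1 _).mul ?_
          by_cases hp : pJ c d (x 0) = pJ c d (Fin.tail x i)
          · simp only [hp, if_true]
            exact (Pool.Agent.W_7d29a1_C0.Mod92.meas_pth N (x 0).1).div (ko13_meas N c d _)
          · simp only [hp, if_false]
            exact measurable_const
        · refine mul_nonneg (m2 _ _) ?_
          split_ifs
          · exact div_nonneg (pth_pos13 η N _).le (ko13_pos η N c d _).le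
          · exact le_rfl
        · dsimp only
          rw [pth_onP 0 fun q hq => hη q fun _ => hq,
            m3 η η' (Fin.tail x) fun q hq => hη q fun h => OnP_tail (hq h),
            ko13_onP (x := Fin.tail x) i (fun q hq => hη q fun _ => OnP_tail hq) hcd hd]
        · exact (m4 κ.1).mul (KfP_meas _ _ _ _)
        · exact mul_pos (m5 κ.1 η) (KfP_pos _ _ _ _ η)
        · exact mul_le_mul (m6 κ.1 η η' g1 g2) (KfP_mono _ _ _ _ g1) (KfP_pos _ _ _ _ η).le (m5 κ.1 η').le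
        · rw [I52.wt_cons, m7, h1, ker_outT hu η hcd hd hp]
          have hz' := m5 (kd (Fin.tail x)) η
          have hz2 := KfP_pos (μ := μ) (s := s) c d (((pF (Fin.tail x i) c : Fin (N + 1)) : ℕ) : ℤ)
            (((pF (Fin.tail x i) d : Fin (N + 1)) : ℕ) : ℤ) η
          field_simp

/-- **Every plan of blocks is an own density at tilted weights.** -/
theorem own_planT [IsProbabilityMeasure μ] (hy : y ≤ N) {u : Env → Px (Pn N y) → ℝ} (hu : Tilt N y J p0 p1 u) {D : ℝ}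
    (hD : ∀ η S, |u η S| ≤ D) {k : ℕ} (P : Plan (Px (Pn N y)) (k + 1)) (hP : BPT N y p0 p1 P) :
    ∃ (ι : Type) (_ : Fintype ι) (kd : (Fin (k + 1) → Px (Pn N y)) → ι) (A : Env → (Fin (k + 1) → Px (Pn N y)) → ℝ)
      (Zq : ι → Env → ℝ), OwnT μ s N y J kd A Zq ∧ Fintype.card ι ≤ (N + 1) ^ (2 * k) ∧
      ∀ (η : Env) (Ψ : (Fin (k + 1) → Px (Pn N y)) → ℝ),
        Real.exp (-(2 * D)) * I52.ev P (lw μ s η N (Pn N y) + u η) Ψ = evD μ s N y kd A Zq η Ψ := by
  have : Nonempty (Px (Pn N y)) := ne_Pn hy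
  obtain ⟨ι, hι, kd, A, Zt, ⟨m1, m2, m3, m4, m5, m6, m7⟩, hc⟩ := den_planT (μ := μ) (s := s) hy hu P hP
  obtain ⟨E, hE⟩ : ∃ E : ℝ, E = Real.exp (2 * D) := ⟨_, rfl⟩
  have hE0 : 0 < E := by rw [hE]; exact Real.exp_pos _
  have hEi : Real.exp (-(2 * D)) = E⁻¹ := by rw [hE, Real.exp_neg]
  obtain ⟨Zq, hZq⟩ : ∃ Zq : ι → Env → ℝ, Zq = fun κ η => E * Zt κ η / ZC μ s N (y : ℤ) η := ⟨_, rfl⟩
  have hprod : ∀ κ η, Zq κ η * ZC μ s N (y : ℤ) η = E * Zt κ η := fun κ η => by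
    rw [hZq]
    exact div_mul_cancel₀ _ (ZC_pos13 hy η).ne'
  have hev : ∀ (η : Env) (Ψ : (Fin (k + 1) → Px (Pn N y)) → ℝ),
      Real.exp (-(2 * D)) * I52.ev P (lw μ s η N (Pn N y) + u η) Ψ = evD μ s N y kd A Zq η Ψ := fun η Ψ => by
    unfold I52.ev evD
    rw [mul_sum, hEi]
    refine sum_congr rfl fun x _ => ?_
    rw [m7, hprod]
    have hz := m5 (kd x) η
    field_simp
  refine ⟨ι, hι, kd, A, Zq, ⟨m1, m2, m3, fun κ => ?_, fun κ η => ?_, fun κ η η' g1 g2 => ?_, fun η l S => ?_⟩, hc, hev⟩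
  · rw [hZq]
    exact ((m4 κ).const_mul _).div (ZC_meas N (y : ℤ))
  · rw [hZq]
    exact div_pos (mul_pos hE0 (m5 κ η)) (ZC_pos13 hy η)
  · rw [hprod, hprod]
    exact mul_le_mul_of_nonneg_left (m6 κ η η' g1 g2) hE0.le
  · have hz := ZC_pos13 (μ := μ) (s := s) hy η
    have h1 := hP.bp.ev l (lw μ s η N (Pn N y) + u η) fun S' => if S' = S then 1 else 0
    have h2 : gm (lw μ s η N (Pn N y) + u η) (fun S' => if S' = S then 1 else 0) =
        pth μ s η N S.1 * Real.exp (u η S) / ZU μ s N y u η := by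
      unfold gm
      rw [gz_tilt]
      simp only [mul_ite, mul_one, mul_zero]
      rw [sum_ite_eq', if_pos (mem_univ _), Pi.add_apply, Real.exp_add, exp_lw]
    rw [h2] at h1
    have h3 := hev η fun x => if x l = S then 1 else 0
    rw [h1, hEi] at h3
    have h4 : evD μ s N y kd A Zq η (fun x => if x l = S then 1 else 0) =
        (∑ x, if x l = S then A η x / Zq (kd x) η else 0) / ZC μ s N (y : ℤ) η := by
      unfold evD
      rw [sum_div]
      refine sum_congr rfl fun x _ => ?_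
      by_cases hS : x l = S
      · simp only [hS, if_true]
        rw [mul_one, ← div_div]
      · simp only [hS, if_false]
        rw [mul_zero, zero_div]
    rw [h4] at h3
    have h5 : (∑ x, if x l = S then A η x / Zq (kd x) η else 0) =
        E⁻¹ * (pth μ s η N S.1 * Real.exp (u η S) / ZU μ s N y u η) * ZC μ s N (y : ℤ) η := by
      rw [h3]
      exact (div_mul_cancel₀ _ hz.ne').symm
    rw [h5]
    -- the bounds of the tilt
    have hp := pth_pos13 (μ := μ) (s := s) η N S.1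
    have hU := ZU_pos (μ := μ) (s := s) u η
    have b1 : Real.exp (u η S) ≤ Real.exp D := Real.exp_le_exp.2 (abs_le.1 (hD η S)).2
    have b2 : ZC μ s N (y : ℤ) η ≤ Real.exp D * ZU μ s N y u η := by
      rw [ZC_sum]
      unfold ZU
      rw [mul_sum]
      refine sum_le_sum fun S _ => ?_
      have b3 : 1 ≤ Real.exp D * Real.exp (u η S) := by
        rw [← Real.exp_add]
        exact Real.one_le_exp (by linarith [(abs_le.1 (hD η S)).1])
      have b4 := mul_le_mul_of_nonneg_left b3 (pth_pos13 (μ := μ) (s := s) η N S.1).le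
      linarith
    have e6 : E⁻¹ * (pth μ s η N S.1 * Real.exp (u η S) / ZU μ s N y u η) * ZC μ s N (y : ℤ) η =
        pth μ s η N S.1 * ((Real.exp (u η S) * ZC μ s N (y : ℤ) η) / (E * ZU μ s N y u η)) := by
      field_simp
    rw [e6]
    refine mul_le_of_le_one_right hp.le ?_
    rw [div_le_one (mul_pos hE0 hU)]
    calc Real.exp (u η S) * ZC μ s N (y : ℤ) η ≤ Real.exp D * (Real.exp D * ZU μ s N y u η) :=
          mul_le_mul b1 b2 hz.le (Real.exp_pos _).le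
      _ = E * ZU μ s N y u η := by
          rw [hE, ← mul_assoc, ← Real.exp_add]
          congr 2
          ring

end

end Pool.Agent.W_7d29a1_C0.F13
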