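import Pool.Agent.W_7d29a1_C0.FarT13
import Pool.Agent.W_7d29a1_C0.PlanT13
import Pool.Agent.W_7d29a1_C0.FarPl13

/-!
C0, helper13: THE FAR PRICE FOR PLANS OF REPLICAS AT TILTED WEIGHTS `lw + u` (`far_planET` event form, `far_giT`, `far_frT`, `far_lastT`):
the tilt `u` is at most `D ≤ L ^ κ`, blind site by site on the rows of the window of the far event (inside the block), and a function of
the positions in `[p0, p1]`; the blocks of the plan contain `[p0, p1]` or are disjoint from it.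
-/

set_option autoImplicit false
set_option linter.unusedSectionVars false
set_option linter.unusedVariables false

namespace Pool.Agent.W_7d29a1_C0.F13

open MeasureTheory ProbabilityTheory Filter Topology Finset
open Pool.Agent.W_7d29a1_F Pool.Agent.W_7d29a1_X Pool.Agent.W_7d29a1_H Pool.Agent.W_7d29a1_HZ
open Pool.Agent.W_7d29a1_HS (In wd md)
open Pool.Agent.W_7d29a1_HZ.ZE
open Pool.Agent.W_7d29a1_HZ.Z15 (kC ZC)
open Pool.Agent.W_7d29a1_C0.Mod92 (Px Pn lw pos_card ne_Pn pJ ps_of_le ps_of_ge)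
open Pool.W7d29a1.C0 (gz gm gz_pos gz_ne)
open Pool.W7d29a1.C0
open Pool.W7d29a1.C0.I52 (Plan)
open Pool.Agent.W_7d29a1_C0.Far34 (bx0 lw_box blind_of_upd)

noncomputable section

variable {μ : Measure ℝ} {s : ℝ} {N y : ℕ} {J : Finset ℕ} {p0 p1 : ℕ}

/-- A tilt: blind site by site on the rows `J`, a function of the positions in `[p0, p1]`. -/
structure TiltU (N y : ℕ) (J : Finset ℕ) (p0 p1 : ℕ) (u : Env → Px (Pn N y) → ℝ) : Prop where
  me : ∀ S, Measurable fun η => u η S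
  upd : ∀ (η : Env) (q : Pt) (v : ℝ) (S : Px (Pn N y)), 0 ≤ q.1 → q.1.toNat ∈ J → u (Function.update η q v) S = u η S
  loc : ∀ (η : Env) (S S' : Px (Pn N y)), (∀ t, p0 ≤ t → t ≤ p1 → pos S.1 t = pos S'.1 t) → u η S = u η S'

theorem TiltU.mono {J' : Finset ℕ} (h : J ⊆ J') {u : Env → Px (Pn N y) → ℝ} (hu : TiltU N y J' p0 p1 u) : TiltU N y J p0 p1 u :=
  ⟨hu.me, fun η q v S h1 h2 => hu.upd η q v S h1 (h h2), hu.loc⟩

open scoped Classical in
/-- The conditional mass of the new replica which is far from all own replicas, at the weights `w`. -/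
def mFarW (μ : Measure ℝ) (s : ℝ) (N y : ℕ) (L : ℕ) (δ : ℝ) (t τ c d : ℕ) {k : ℕ} (l : Fin (k + 1)) (w : Px (Pn N y) → ℝ)
    (x : Fin (k + 1) → Px (Pn N y)) : ℝ :=
  VT31.cE w (pJ c d) (fun v => if FarAt μ s L δ N t τ (pt (Fin.cons v x : Fin (k + 2) → Px (Pn N y))) then 1 else 0) (x l)

theorem mFarW_nonneg {k : ℕ} (L : ℕ) (δ : ℝ) (t τ c d : ℕ) (l : Fin (k + 1)) (w : Px (Pn N y) → ℝ) (x : Fin (k + 1) → Px (Pn N y)) :
    0 ≤ mFarW μ s N y L δ t τ c d l w x := by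
  classical
  unfold mFarW
  rw [I52.cE_eq_av]
  exact (I52.av_const w (I52.fib_ne (pJ c d) (x l)) 0).symm.trans_le (I52.av_mono _ _ fun v _ => by split_ifs <;> norm_num)

theorem mFarW_le_one {k : ℕ} (L : ℕ) (δ : ℝ) (t τ c d : ℕ) (l : Fin (k + 1)) (w : Px (Pn N y) → ℝ) (x : Fin (k + 1) → Px (Pn N y)) :
    mFarW μ s N y L δ t τ c d l w x ≤ 1 := by
  classical
  unfold mFarW
  rw [I52.cE_eq_av]
  exact (I52.av_mono _ _ fun v _ => by split_ifs <;> norm_num).trans_eq (I52.av_const w (I52.fib_ne (pJ c d) (x l)) 1)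

/-- A conditional mean at weights which are changed by at most `D`. -/
theorem cE_tilt_le {w u : Px (Pn N y) → ℝ} {D : ℝ} (hD : ∀ S, |u S| ≤ D) {Y : Type*} [DecidableEq Y] (p : Px (Pn N y) → Y)
    {f : Px (Pn N y) → ℝ} (hf : ∀ S, 0 ≤ f S) (S : Px (Pn N y)) : VT31.cE (w + u) p f S ≤ Real.exp (2 * D) * VT31.cE w p f S := by
  rw [I52.cE_eq_av, I52.cE_eq_av, I52.av_eq, I52.av_eq]
  obtain ⟨A, hA⟩ : ∃ A : Finset (Px (Pn N y)), A = univ.filter fun s => p s = p S := ⟨_, rfl⟩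
  rw [← hA]
  have hne : A.Nonempty := by rw [hA]; exact I52.fib_ne p S
  have h1 : ∑ s ∈ A, Real.exp ((w + u) s) * f s ≤ Real.exp D * ∑ s ∈ A, Real.exp (w s) * f s := by
    rw [mul_sum]
    refine sum_le_sum fun s _ => ?_
    have h2 : Real.exp ((w + u) s) ≤ Real.exp D * Real.exp (w s) := by
      rw [Pi.add_apply, ← Real.exp_add]
      exact Real.exp_le_exp.2 (by linarith [(abs_le.1 (hD s)).2])
    calc Real.exp ((w + u) s) * f s ≤ (Real.exp D * Real.exp (w s)) * f s := mul_le_mul_of_nonneg_right h2 (hf s)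
      _ = _ := by ring
  have h3 : I52.zs w A ≤ Real.exp D * I52.zs (w + u) A := by
    unfold I52.zs
    rw [mul_sum]
    refine sum_le_sum fun s _ => ?_
    rw [Pi.add_apply, ← Real.exp_add]
    exact Real.exp_le_exp.2 (by linarith [(abs_le.1 (hD s)).1])
  have z1 := I52.zs_pos w hne
  have z2 := I52.zs_pos (w + u) hne
  have h4 : 0 ≤ ∑ s ∈ A, Real.exp (w s) * f s := sum_nonneg fun s _ => mul_nonneg (Real.exp_pos _).le (hf s)
  have e2 : Real.exp (2 * D) = Real.exp D * Real.exp D := by rw [← Real.exp_add]; congr 1; ring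
  have hD0 := Real.exp_pos D
  rw [div_le_iff₀ z2, e2]
  calc ∑ s ∈ A, Real.exp ((w + u) s) * f s ≤ Real.exp D * ∑ s ∈ A, Real.exp (w s) * f s := h1
    _ = Real.exp D * ((∑ s ∈ A, Real.exp (w s) * f s) / I52.zs w A) * I52.zs w A := by field_simp
    _ ≤ Real.exp D * ((∑ s ∈ A, Real.exp (w s) * f s) / I52.zs w A) * (Real.exp D * I52.zs (w + u) A) :=
        mul_le_mul_of_nonneg_left h3 (mul_nonneg hD0.le (div_nonneg h4 z1.le))
    _ = _ := by ring

/-! ### Averages over a plan -/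

theorem meas_lwu {u : Env → Px (Pn N y) → ℝ} (hu : ∀ S, Measurable fun η => u η S) :
    Measurable fun η : Env => lw μ s η N (Pn N y) + u η :=
  Pool.Agent.W_7d29a1_C0.Far34.meas_lw.add (measurable_pi_lambda _ hu)

theorem meas_evW {m : ℕ} (P : Plan (Px (Pn N y)) m) {w : Env → Px (Pn N y) → ℝ} (hw : Measurable w)
    {Ψ : Env → (Fin m → Px (Pn N y)) → ℝ} (mΨ : ∀ x, Measurable fun η => Ψ η x) : Measurable fun η => I52.ev P (w η) (Ψ η) := by
  unfold I52.ev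
  exact Finset.measurable_fun_sum _ fun x _ => ((I52.wt_contDiff (n := 0) P x).continuous.measurable.comp hw).mul (mΨ x)

theorem int_evW [IsProbabilityMeasure μ] {m : ℕ} (P : Plan (Px (Pn N y)) m) {w : Env → Px (Pn N y) → ℝ} (hw : Measurable w)
    {Ψ : Env → (Fin m → Px (Pn N y)) → ℝ} (mΨ : ∀ x, Measurable fun η => Ψ η x) (h0 : ∀ η x, 0 ≤ Ψ η x) (h1 : ∀ η x, Ψ η x ≤ 1) :
    Integrable (fun η => I52.ev P (w η) (Ψ η)) (law μ) := by
  have : IsProbabilityMeasure (law μ) := by unfold law; infer_instance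
  refine Integrable.of_bound (meas_evW P hw mΨ).aestronglyMeasurable 1 (Filter.Eventually.of_forall fun η => ?_)
  rw [Real.norm_eq_abs, abs_of_nonneg (evP_nonneg P _ (h0 η))]
  exact evP_le_one P _ (h1 η)

theorem mFarW_meas {k : ℕ} (L : ℕ) (δ : ℝ) (t τ c d : ℕ) (l : Fin (k + 1)) {w : Env → Px (Pn N y) → ℝ} (hw : ∀ S, Measurable fun η => w η S)
    (x : Fin (k + 1) → Px (Pn N y)) : Measurable fun η : Env => mFarW μ s N y L δ t τ c d l (w η) x := by
  classical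
  unfold mFarW
  simp only [I52.cE_eq_av, I52.av_eq]
  unfold I52.zs
  exact (Finset.measurable_fun_sum _ fun v _ => ((hw v).exp).mul_const _).div (Finset.measurable_fun_sum _ fun v _ => (hw v).exp)

/-! ### The event form -/

open scoped Classical in
/-- The far price of a plan at tilted weights, event form, for observables which are blind to all sites at once. -/
theorem far_planT0 [IsProbabilityMeasure μ] {c₀ C₀ : ℝ} {n₀ : ℕ} (h : In μ s c₀ C₀ n₀) (k : ℕ) : ∀ ε θ : ℝ, 0 < ε → 0 < θ → ∃ δ κ c' : ℝ,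
    0 < δ ∧ 0 < κ ∧ 0 < c' ∧ ∃ L₀ : ℕ, ∀ L : ℕ, L₀ ≤ L → ∀ N t : ℕ, L ≤ 16 * N → N ≤ L → (L : ℝ) ^ θ ≤ t → t ≤ N →
    ∀ y : ℕ, y ≤ N → |(y : ℝ) - sl μ s * N| ≤ ((L : ℝ) ^ δ * wd' μ s N) →
    ∀ (rt : Bool) (τ c d p0 p1 : ℕ) (l : Fin (k + 1)), c ≤ d → d ≤ N →
    ∀ (P : Plan (Px (Pn N y)) (k + 1)), BPT N y p0 p1 P →
    ∀ (u : Env → Px (Pn N y) → ℝ) (D : ℝ), Tilt N y (rowsB rt N t τ ∩ Ioo c d) p0 p1 u → (∀ η S, |u η S| ≤ D) → D ≤ (L : ℝ) ^ κ →
    ∀ (X : Env → (Fin (k + 1) → Px (Pn N y)) → ℝ), (∀ x, Measurable fun η => X η x) → (∀ η x, 0 ≤ X η x) → (∀ η x, X η x ≤ 1) →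
    OffV (rowsB rt N t τ ∩ Ioo c d) X →
    ∫ η, I52.ev P (lw μ s η N (Pn N y) + u η)
      (fun x => (if Real.exp (-(L : ℝ) ^ κ) ≤ mFarW μ s N y L δ t τ c d l (lw μ s η N (Pn N y) + u η) x then 1 else 0) * X η x) ∂(law μ) ≤
      (L : ℝ) ^ ε * (EE' μ s t)⁻¹ * ∫ η, I52.ev P (lw μ s η N (Pn N y) + u η) (X η) ∂(law μ) + Real.exp (-(L : ℝ) ^ c') := by
  intro ε θ hε hθ
  obtain ⟨δ, κ₁, c₁, hδ, hκ₁, hc₁, L₁, h0⟩ := farT13 h k ε θ (4 * k) hε hθ (by positivity)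
  obtain ⟨m, hm⟩ : ∃ m : ℝ, m = min κ₁ c₁ / 2 := ⟨_, rfl⟩
  have hm0 : 0 < m := by rw [hm]; exact half_pos (lt_min hκ₁ hc₁)
  have hmκ : 2 * m ≤ κ₁ := by rw [hm]; linarith [min_le_left κ₁ c₁]
  have hmc : 2 * m ≤ c₁ := by rw [hm]; linarith [min_le_right κ₁ c₁]
  obtain ⟨L₂, h2⟩ := Pool.Agent.W_7d29a1_HZ.Z86.ev_const 3 hm0
  refine ⟨δ, m, m, hδ, hm0, hm0, L₁ + L₂ + 2, ?_⟩
  intro L hL N t hLN hNL htL htN y hy hyc rt τ c d p0 p1 l hcd hd P hP u D hu hD hDL X mX X0 X1 hX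
  have hpr : IsProbabilityMeasure (law μ) := by unfold law; infer_instance
  have hne : Nonempty (Px (Pn N y)) := ne_Pn hy
  have hL1 : (1 : ℝ) ≤ L := by
    have : 1 ≤ L := by omega
    exact_mod_cast this
  have hL0 : (0 : ℝ) < L := by linarith
  obtain ⟨ι, hι, kd, A, Zq, hDn, hcard, hev⟩ := own_planT (μ := μ) (s := s) hy hu hD P hP
  have hB : (Fintype.card ι : ℝ) ≤ (L : ℝ) ^ (4 * (k : ℝ)) := by
    have hL2 : 2 ≤ L := by omega
    have h1 : N + 1 ≤ L ^ 2 := by nlinarith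
    have h2 : Fintype.card ι ≤ L ^ (4 * k) := by
      calc Fintype.card ι ≤ (N + 1) ^ (2 * k) := hcard
        _ ≤ (L ^ 2) ^ (2 * k) := Nat.pow_le_pow_left h1 _
        _ = L ^ (4 * k) := by rw [← pow_mul]; congr 1; ring
    have h3 : ((L ^ (4 * k) : ℕ) : ℝ) = (L : ℝ) ^ (4 * (k : ℝ)) := by
      rw [Nat.cast_pow, ← Real.rpow_natCast]
      congr 1
      push_cast
      ring
    rw [← h3]
    exact_mod_cast h2
  have key := h0 L (by omega) N t hLN hNL htL htN y hy hyc ι kd A Zq hB rt τ c d l hcd hd hDn X mX X0 X1 hX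
  -- powers
  obtain ⟨q, hq⟩ : ∃ q : ℝ, q = (L : ℝ) ^ m := ⟨_, rfl⟩
  have hq3 : 3 ≤ q := by rw [hq]; exact h2 L (by omega)
  have hqq : (L : ℝ) ^ (2 * m) = q * q := by
    rw [hq, ← Real.rpow_add hL0]
    congr 1
    ring
  have hk1 : 3 * q ≤ (L : ℝ) ^ κ₁ := by
    have g1 : (L : ℝ) ^ (2 * m) ≤ (L : ℝ) ^ κ₁ := Real.rpow_le_rpow_of_exponent_le hL1 hmκ
    nlinarith
  have hk2 : 3 * q ≤ (L : ℝ) ^ c₁ := by
    have g1 : (L : ℝ) ^ (2 * m) ≤ (L : ℝ) ^ c₁ := Real.rpow_le_rpow_of_exponent_le hL1 hmc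
    nlinarith
  rw [← hq] at hDL ⊢
  -- the event
  obtain ⟨I, hI⟩ : ∃ I : Env → (Fin (k + 1) → Px (Pn N y)) → ℝ,
    I = fun η x => if Real.exp (-q) ≤ mFarW μ s N y L δ t τ c d l (lw μ s η N (Pn N y) + u η) x then 1 else 0 := ⟨_, rfl⟩
  obtain ⟨I', hI'⟩ : ∃ I' : Env → (Fin (k + 1) → Px (Pn N y)) → ℝ,
    I' = fun η x => if Real.exp (-(L : ℝ) ^ κ₁) ≤ mFar μ s N y L δ t τ c d l η x then 1 else 0 := ⟨_, rfl⟩
  have hII : ∀ η x, I η x ≤ I' η x := fun η x => by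
    rw [hI, hI']
    beta_reduce
    by_cases h5 : Real.exp (-q) ≤ mFarW μ s N y L δ t τ c d l (lw μ s η N (Pn N y) + u η) x
    · have h6 : mFarW μ s N y L δ t τ c d l (lw μ s η N (Pn N y) + u η) x ≤ Real.exp (2 * D) * mFar μ s N y L δ t τ c d l η x :=
        cE_tilt_le (hD η) (pJ c d) (fun v => by split_ifs <;> norm_num) (x l)
      have h7 : Real.exp (-(L : ℝ) ^ κ₁) ≤ mFar μ s N y L δ t τ c d l η x := by
        have h8 : Real.exp (-q) ≤ Real.exp (2 * D) * mFar μ s N y L δ t τ c d l η x := h5.trans h6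
        have h9 : Real.exp (-(2 * D)) * Real.exp (-q) ≤ mFar μ s N y L δ t τ c d l η x := by
          calc Real.exp (-(2 * D)) * Real.exp (-q) ≤ Real.exp (-(2 * D)) * (Real.exp (2 * D) * mFar μ s N y L δ t τ c d l η x) :=
                mul_le_mul_of_nonneg_left h8 (Real.exp_pos _).le
            _ = mFar μ s N y L δ t τ c d l η x := by
                rw [← mul_assoc, ← Real.exp_add, neg_add_cancel, Real.exp_zero, one_mul]
        refine le_trans ?_ h9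
        rw [← Real.exp_add]
        exact Real.exp_le_exp.2 (by linarith)
      rw [if_pos h5, if_pos h7]
    · rw [if_neg h5]
      split_ifs <;> norm_num
  have I0 : ∀ η x, 0 ≤ I η x := fun η x => by rw [hI]; beta_reduce; split_ifs <;> norm_num
  have I1 : ∀ η x, I' η x ≤ 1 := fun η x => by rw [hI']; beta_reduce; split_ifs <;> norm_num
  have I0' : ∀ η x, 0 ≤ I' η x := fun η x => by rw [hI']; beta_reduce; split_ifs <;> norm_num
  have mI' : ∀ x, Measurable fun η => I' η x := fun x => by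
    rw [hI']
    exact Measurable.ite (measurableSet_le measurable_const (mFar_meas L δ t τ c d l x)) measurable_const measurable_const
  have e1 : ∀ (η : Env) (Ψ : (Fin (k + 1) → Px (Pn N y)) → ℝ), I52.ev P (lw μ s η N (Pn N y) + u η) Ψ =
      Real.exp (2 * D) * evD μ s N y kd A Zq η Ψ := fun η Ψ => by
    rw [← hev, ← mul_assoc, ← Real.exp_add, add_neg_cancel, Real.exp_zero, one_mul]
  have i1 : Integrable (fun η => evD μ s N y kd A Zq η (fun x => I' η x * X η x)) (law μ) :=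
    hDn.ev_int hy (fun x => (mI' x).mul (mX x)) (fun η x => mul_nonneg (I0' _ x) (X0 _ _))
      fun η x => mul_le_one₀ (I1 _ x) (X0 _ _) (X1 _ _)
  have a1 : ∫ η, I52.ev P (lw μ s η N (Pn N y) + u η) (fun x => I η x * X η x) ∂(law μ) ≤
      Real.exp (2 * D) * ∫ η, evD μ s N y kd A Zq η (fun x => I' η x * X η x) ∂(law μ) := by
    rw [← integral_const_mul]
    refine integral_mono_of_nonneg (Filter.Eventually.of_forall fun η => evP_nonneg P _ fun x => mul_nonneg (I0 η x) (X0 η x))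
      (i1.const_mul _) (Filter.Eventually.of_forall fun η => ?_)
    show I52.ev P (lw μ s η N (Pn N y) + u η) (fun x => I η x * X η x) ≤ Real.exp (2 * D) * evD μ s N y kd A Zq η (fun x => I' η x * X η x)
    rw [e1]
    exact mul_le_mul_of_nonneg_left (hDn.ev_mono hy η fun x => mul_le_mul_of_nonneg_right (hII η x) (X0 η x)) (Real.exp_pos _).le
  have a2 : ∫ η, I52.ev P (lw μ s η N (Pn N y) + u η) (X η) ∂(law μ) =
      Real.exp (2 * D) * ∫ η, evD μ s N y kd A Zq η (X η) ∂(law μ) := by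
    rw [← integral_const_mul]
    exact integral_congr_ae (Filter.Eventually.of_forall fun η => e1 η _)
  have key' : ∫ η, evD μ s N y kd A Zq η (fun x => I' η x * X η x) ∂(law μ) ≤
      (L : ℝ) ^ ε * (EE' μ s t)⁻¹ * ∫ η, evD μ s N y kd A Zq η (X η) ∂(law μ) + Real.exp (-(L : ℝ) ^ c₁) := by
    rw [hI']
    exact key
  have a3 : Real.exp (2 * D) * Real.exp (-(L : ℝ) ^ c₁) ≤ Real.exp (-q) := by
    rw [← Real.exp_add]
    exact Real.exp_le_exp.2 (by linarith)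
  have a4 := mul_le_mul_of_nonneg_left key' (Real.exp_pos (2 * D)).le
  have fin : ∫ η, I52.ev P (lw μ s η N (Pn N y) + u η) (fun x => I η x * X η x) ∂(law μ) ≤
      (L : ℝ) ^ ε * (EE' μ s t)⁻¹ * ∫ η, I52.ev P (lw μ s η N (Pn N y) + u η) (X η) ∂(law μ) + Real.exp (-q) := by
    rw [a2]
    calc _ ≤ _ := a1
      _ ≤ _ := a4
      _ = (L : ℝ) ^ ε * (EE' μ s t)⁻¹ * (Real.exp (2 * D) * ∫ η, evD μ s N y kd A Zq η (X η) ∂(law μ)) +
          Real.exp (2 * D) * Real.exp (-(L : ℝ) ^ c₁) := by ring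
      _ ≤ _ := by linarith
  rw [hI] at fin
  exact fin

end

end Pool.Agent.W_7d29a1_C0.F13
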