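import Pool.Agent.W_7d29a1_C0.FarTl13

/-!
C0, helper13: THE FAR PRICE FOR PLANS OF REPLICAS AT TILTED WEIGHTS `lw + u`, for tilts and observables which are blind site by site:
`far_planET` (event form), `far_giT` (a replica given an old one outside of a block), `far_frT` (a free one), `far_lastT` (any last
replica of a block plan). As in FarPl13, over `far_planT0` (FarTl13).
-/

set_option autoImplicit false
set_option linter.unusedSectionVars false
set_option linter.unusedVariables false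

namespace Pool.Agent.W_7d29a1_C0.F13

open MeasureTheory ProbabilityTheory Filter Topology Finset
open Pool.Agent.W_7d29a1_F Pool.Agent.W_7d29a1_X Pool.Agent.W_7d29a1_H Pool.Agent.W_7d29a1_HZ
open Pool.Agent.W_7d29a1_HS (In wd md)
open Pool.Agent.W_7d29a1_HZ.ZE
open Pool.Agent.W_7d29a1_HZ.Z15 (kC ZC)
open Pool.Agent.W_7d29a1_C0.Mod92 (Px Pn lw pos_card ne_Pn pJ ps_of_le ps_of_ge)
open Pool.W7d29a1.C0 (gz gm gz_pos gz_ne)
open Pool.W7d29a1.C0
open Pool.W7d29a1.C0.I52 (Plan)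
open Pool.Agent.W_7d29a1_C0.Far34 (bx0 lw_box blind_of_upd)

noncomputable section

variable {μ : Measure ℝ} {s : ℝ} {N y : ℕ} {J : Finset ℕ} {p0 p1 : ℕ}

open scoped Classical in
/-- **The far price of a plan at tilted weights, event form.** -/
theorem far_planET [IsProbabilityMeasure μ] {c₀ C₀ : ℝ} {n₀ : ℕ} (h : In μ s c₀ C₀ n₀) (k : ℕ) : ∀ ε θ : ℝ, 0 < ε → 0 < θ → ∃ δ κ c' : ℝ,
    0 < δ ∧ 0 < κ ∧ 0 < c' ∧ ∃ L₀ : ℕ, ∀ L : ℕ, L₀ ≤ L → ∀ N t : ℕ, L ≤ 16 * N → N ≤ L → (L : ℝ) ^ θ ≤ t → t ≤ N →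
    ∀ y : ℕ, y ≤ N → |(y : ℝ) - sl μ s * N| ≤ ((L : ℝ) ^ δ * wd' μ s N) →
    ∀ (rt : Bool) (τ c d p0 p1 : ℕ) (l : Fin (k + 1)), c ≤ d → d ≤ N →
    ∀ (P : Plan (Px (Pn N y)) (k + 1)), BPT N y p0 p1 P →
    ∀ (u : Env → Px (Pn N y) → ℝ) (D : ℝ), TiltU N y (rowsB rt N t τ ∩ Ioo c d) p0 p1 u → (∀ η S, |u η S| ≤ D) → D ≤ (L : ℝ) ^ κ →
    ∀ (X : Env → (Fin (k + 1) → Px (Pn N y)) → ℝ), (∀ x, Measurable fun η => X η x) → (∀ η x, 0 ≤ X η x) → (∀ η x, X η x ≤ 1) →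
    BlV (rowsB rt N t τ ∩ Ioo c d) X →
    ∫ η, I52.ev P (lw μ s η N (Pn N y) + u η)
      (fun x => (if Real.exp (-(L : ℝ) ^ κ) ≤ mFarW μ s N y L δ t τ c d l (lw μ s η N (Pn N y) + u η) x then 1 else 0) * X η x) ∂(law μ) ≤
      (L : ℝ) ^ ε * (EE' μ s t)⁻¹ * ∫ η, I52.ev P (lw μ s η N (Pn N y) + u η) (X η) ∂(law μ) + Real.exp (-(L : ℝ) ^ c') := by
  intro ε θ hε hθ
  obtain ⟨δ, κ, c', hδ, hκ, hc', L₀, h0⟩ := far_planT0 h k ε θ hε hθ
  refine ⟨δ, κ, c', hδ, hκ, hc', L₀, fun L hL N t hLN hNL htL htN y hy hyc rt τ c d p0 p1 l hcd hd P hP u D hu hD hDL X mX X0 X1 hX => ?_⟩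
  have hpr : IsProbabilityMeasure (law μ) := by unfold law; infer_instance
  have hne : Nonempty (Px (Pn N y)) := ne_Pn hy
  obtain ⟨J, hJ⟩ : ∃ J : Finset ℕ, J = rowsB rt N t τ ∩ Ioo c d := ⟨_, rfl⟩
  have h1 := h0 L hL N t hLN hNL htL htN y hy hyc rt τ c d p0 p1 l hcd hd P hP
  rw [← hJ] at hX hu h1
  have mlw : ∀ S, Measurable fun η : Env => (lw μ s η N (Pn N y) + u η) S := fun S => by
    have h2 := (measurable_pi_iff.1 (meas_lwu (μ := μ) (s := s) hu.me)) S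
    exact h2
  -- the environment outside of the box
  obtain ⟨B, hBd⟩ : ∃ B : Set Pt, B = {q | q ∉ bx0 N} := ⟨_, rfl⟩
  obtain ⟨gl, hgl⟩ : ∃ gl : Env → Env → Env, gl = fun η η' q => if q ∈ B then η q else η' q := ⟨_, rfl⟩
  obtain ⟨zg, hzg⟩ : ∃ zg : (Fin (k + 1) → Px (Pn N y)) → Env → Env → Env, zg = fun x η η' q => if q ∈ B then η q else
    if (0 ≤ q.1 ∧ q.1.toNat ∈ J ∧ ¬ OnP x q) then 0 else η' q := ⟨_, rfl⟩
  obtain ⟨zu, hzu⟩ : ∃ zu : Env → Env → Env, zu = fun η η' q => if q ∈ B then η q else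
    if (0 ≤ q.1 ∧ q.1.toNat ∈ J) then 0 else η' q := ⟨_, rfl⟩
  have mzg : ∀ x η, Measurable (zg x η) := fun x η => by
    rw [hzg]
    refine measurable_pi_lambda _ fun q => ?_
    by_cases hq : q ∈ B
    · simp only [hq, if_true]
      exact measurable_const
    · by_cases hr : 0 ≤ q.1 ∧ q.1.toNat ∈ J ∧ ¬ OnP x q
      · simp only [hq, if_false, if_pos hr]
        exact measurable_const
      · simp only [hq, if_false, if_neg hr]
        exact measurable_pi_apply q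
  have mzu : ∀ η, Measurable (zu η) := fun η => by
    rw [hzu]
    refine measurable_pi_lambda _ fun q => ?_
    by_cases hq : q ∈ B
    · simp only [hq, if_true]
      exact measurable_const
    · by_cases hr : 0 ≤ q.1 ∧ q.1.toNat ∈ J
      · simp only [hq, if_false, if_pos hr]
        exact measurable_const
      · simp only [hq, if_false, if_neg hr]
        exact measurable_pi_apply q
  have elw : ∀ η η', lw μ s (gl η η') N (Pn N y) = lw μ s η' N (Pn N y) := fun η η' => lw_box fun q hq => by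
    rw [hgl]
    exact if_neg (by rw [hBd]; exact fun hc => hc hq)
  have eu : ∀ η η', u (gl η η') = u (zu η η') := fun η η' => by
    funext S
    refine (blind_of_upd (fun ζ => u ζ S) ((bx0 N).filter fun q => 0 ≤ q.1 ∧ q.1.toNat ∈ J) (fun q hq ζ v => ?_)
      (gl η η') (zu η η') fun q hq => ?_).symm
    · have h2 := (mem_filter.1 hq).2
      exact hu.upd ζ q v S h2.1 h2.2
    · rw [hgl, hzu]
      by_cases h1 : q ∈ B
      · simp only [h1, if_true]
      · by_cases h2 : 0 ≤ q.1 ∧ q.1.toNat ∈ J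
        · have h4 : q ∈ bx0 N := by
            by_contra hc
            exact h1 (by rw [hBd]; exact hc)
          exact absurd (mem_filter.2 ⟨h4, h2⟩) hq
        · simp only [h1, if_false, if_neg h2]
  have eX : ∀ η η' x, X (gl η η') x = X (zg x η η') x := fun η η' x => by
    refine (blind_of_upd (fun ζ => X ζ x) ((bx0 N).filter fun q => 0 ≤ q.1 ∧ q.1.toNat ∈ J ∧ ¬ OnP x q) (fun q hq ζ u => ?_)
      (gl η η') (zg x η η') fun q hq => ?_).symm
    · have h2 := (mem_filter.1 hq).2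
      exact hX ζ q u x h2.1 h2.2.1 h2.2.2
    · rw [hgl, hzg]
      by_cases h1 : q ∈ B
      · simp only [h1, if_true]
      · by_cases h2 : 0 ≤ q.1 ∧ q.1.toNat ∈ J ∧ ¬ OnP x q
        · have h4 : q ∈ bx0 N := by
            by_contra hc
            exact h1 (by rw [hBd]; exact hc)
          exact absurd (mem_filter.2 ⟨h4, h2⟩) hq
        · simp only [h1, if_false, if_neg h2]
  have offX : ∀ η, OffV J (fun η' x => X (zg x η η') x) := fun η η1 η2 x h12 => by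
    have e : zg x η η1 = zg x η η2 := by
      rw [hzg]
      funext q
      by_cases h1 : q ∈ B
      · simp only [h1, if_true]
      · by_cases h2 : 0 ≤ q.1 ∧ q.1.toNat ∈ J ∧ ¬ OnP x q
        · simp only [h1, if_false, if_pos h2]
        · simp only [h1, if_false, if_neg h2]
          exact h12 q fun h3 => by
            by_contra h4
            exact h2 ⟨h3.1, h3.2, h4⟩
    show X (zg x η η1) x = X (zg x η η2) x
    rw [e]
  have tu : ∀ η, Tilt N y J p0 p1 (fun η' => u (zu η η')) := fun η => by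
    refine ⟨fun S => (hu.me S).comp (mzu η), fun η1 η2 S h12 => ?_, fun η' S S' h2 => hu.loc _ S S' h2⟩
    have e : zu η η1 = zu η η2 := by
      rw [hzu]
      funext q
      by_cases h1 : q ∈ B
      · simp only [h1, if_true]
      · by_cases h2 : 0 ≤ q.1 ∧ q.1.toNat ∈ J
        · simp only [h1, if_false, if_pos h2]
        · simp only [h1, if_false, if_neg h2]
          exact h12 q h2
    show u (zu η η1) S = u (zu η η2) S
    rw [e]
  obtain ⟨I, hI⟩ : ∃ I : Env → (Fin (k + 1) → Px (Pn N y)) → ℝ,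
    I = fun η x => if Real.exp (-(L : ℝ) ^ κ) ≤ mFarW μ s N y L δ t τ c d l (lw μ s η N (Pn N y) + u η) x then 1 else 0 := ⟨_, rfl⟩
  have I0 : ∀ η x, 0 ≤ I η x := fun η x => by rw [hI]; beta_reduce; split_ifs <;> norm_num
  have I1 : ∀ η x, I η x ≤ 1 := fun η x => by rw [hI]; beta_reduce; split_ifs <;> norm_num
  have mI : ∀ x, Measurable fun η => I η x := fun x => by
    rw [hI]
    exact Measurable.ite (measurableSet_le measurable_const (mFarW_meas L δ t τ c d l mlw x)) measurable_const measurable_const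
  have mIX : ∀ x, Measurable fun η => I η x * X η x := fun x => (mI x).mul (mX x)
  have IX0 : ∀ η x, 0 ≤ I η x * X η x := fun η x => mul_nonneg (I0 _ x) (X0 _ _)
  have IX1 : ∀ η x, I η x * X η x ≤ 1 := fun η x => mul_le_one₀ (I1 _ x) (X0 _ _) (X1 _ _)
  have mw := meas_lwu (μ := μ) (s := s) hu.me
  have i1 : Integrable (fun η => I52.ev P (lw μ s η N (Pn N y) + u η) (fun x => I η x * X η x)) (law μ) := int_evW P mw mIX IX0 IX1
  have i2 : Integrable (fun η => I52.ev P (lw μ s η N (Pn N y) + u η) (X η)) (law μ) := int_evW P mw mX X0 X1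
  obtain ⟨e1, j1, _⟩ := integral_glue (μ := μ) B (meas_evW P mw mIX) i1
  obtain ⟨e2, j2, _⟩ := integral_glue (μ := μ) B (meas_evW P mw mX) i2
  have key : ∀ η, ∫ η', I52.ev P (lw μ s (gl η η') N (Pn N y) + u (gl η η')) (fun x => I (gl η η') x * X (gl η η') x) ∂(law μ) ≤
      (L : ℝ) ^ ε * (EE' μ s t)⁻¹ * ∫ η', I52.ev P (lw μ s (gl η η') N (Pn N y) + u (gl η η')) (X (gl η η')) ∂(law μ) +
        Real.exp (-(L : ℝ) ^ c') := fun η => by
    have h3 := h1 (fun η' => u (zu η η')) D (tu η) (fun η' S => hD _ S) hDL (fun η' x => X (zg x η η') x) (fun x => (mX x).comp (mzg x η))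
      (fun η' x => X0 _ _) (fun η' x => X1 _ _) (offX η)
    have f1 : ∀ η', I52.ev P (lw μ s (gl η η') N (Pn N y) + u (gl η η')) (fun x => I (gl η η') x * X (gl η η') x) =
        I52.ev P (lw μ s η' N (Pn N y) + u (zu η η'))
          (fun x => (if Real.exp (-(L : ℝ) ^ κ) ≤ mFarW μ s N y L δ t τ c d l (lw μ s η' N (Pn N y) + u (zu η η')) x then 1 else 0) *
            X (zg x η η') x) := fun η' => by
      rw [hI]
      beta_reduce
      rw [elw, eu]
      refine I52.ev_congr P _ fun x => ?_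
      rw [eX]
    have f2 : ∀ η', I52.ev P (lw μ s (gl η η') N (Pn N y) + u (gl η η')) (X (gl η η')) =
        I52.ev P (lw μ s η' N (Pn N y) + u (zu η η')) (fun x => X (zg x η η') x) := fun η' => by
      rw [elw, eu]
      exact I52.ev_congr P _ fun x => eX _ _ x
    simp only [f1, f2]
    exact h3
  have e1' : ∫ η, I52.ev P (lw μ s η N (Pn N y) + u η) (fun x => I η x * X η x) ∂(law μ) =
      ∫ η, ∫ η', I52.ev P (lw μ s (gl η η') N (Pn N y) + u (gl η η')) (fun x => I (gl η η') x * X (gl η η') x) ∂(law μ) ∂(law μ) := by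
    rw [e1, hgl]
  have e2' : ∫ η, I52.ev P (lw μ s η N (Pn N y) + u η) (X η) ∂(law μ) =
      ∫ η, ∫ η', I52.ev P (lw μ s (gl η η') N (Pn N y) + u (gl η η')) (X (gl η η')) ∂(law μ) ∂(law μ) := by
    rw [e2, hgl]
  have j1' : Integrable (fun η => ∫ η', I52.ev P (lw μ s (gl η η') N (Pn N y) + u (gl η η'))
      (fun x => I (gl η η') x * X (gl η η') x) ∂(law μ)) (law μ) := by
    rw [hgl]
    exact j1
  have j2' : Integrable (fun η => ∫ η', I52.ev P (lw μ s (gl η η') N (Pn N y) + u (gl η η')) (X (gl η η')) ∂(law μ)) (law μ) := by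
    rw [hgl]
    exact j2
  have fin : ∫ η, I52.ev P (lw μ s η N (Pn N y) + u η) (fun x => I η x * X η x) ∂(law μ) ≤
      (L : ℝ) ^ ε * (EE' μ s t)⁻¹ * ∫ η, I52.ev P (lw μ s η N (Pn N y) + u η) (X η) ∂(law μ) + Real.exp (-(L : ℝ) ^ c') := by
    rw [e1', e2', ← integral_const_mul]
    have e3 : ∫ η : Env, ((L : ℝ) ^ ε * (EE' μ s t)⁻¹ * ∫ η', I52.ev P (lw μ s (gl η η') N (Pn N y) + u (gl η η')) (X (gl η η')) ∂(law μ) +
        Real.exp (-(L : ℝ) ^ c')) ∂(law μ) =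
        ∫ η, (L : ℝ) ^ ε * (EE' μ s t)⁻¹ * ∫ η', I52.ev P (lw μ s (gl η η') N (Pn N y) + u (gl η η')) (X (gl η η')) ∂(law μ) ∂(law μ) +
        Real.exp (-(L : ℝ) ^ c') := by
      rw [integral_add (j2'.const_mul _) (integrable_const _), integral_const]
      simp
    rw [← e3]
    exact integral_mono j1' ((j2'.const_mul _).add (integrable_const _)) key
  rw [hI] at fin
  exact fin

open scoped Classical in
/-- **The far price of a replica given an old one outside of a block, far from all old ones, at tilted weights.** -/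
theorem far_giT [IsProbabilityMeasure μ] {c₀ C₀ : ℝ} {n₀ : ℕ} (h : In μ s c₀ C₀ n₀) (k : ℕ) : ∀ ε θ : ℝ, 0 < ε → 0 < θ → ∃ δ κ c' : ℝ,
    0 < δ ∧ 0 < κ ∧ 0 < c' ∧ ∃ L₀ : ℕ, ∀ L : ℕ, L₀ ≤ L → ∀ N t : ℕ, L ≤ 16 * N → N ≤ L → (L : ℝ) ^ θ ≤ t → t ≤ N →
    ∀ y : ℕ, y ≤ N → |(y : ℝ) - sl μ s * N| ≤ ((L : ℝ) ^ δ * wd' μ s N) →
    ∀ (rt : Bool) (τ c d p0 p1 : ℕ) (l : Fin (k + 1)), c ≤ d → d ≤ N →
    ∀ (P : Plan (Px (Pn N y)) (k + 1)), BPT N y p0 p1 P →
    ∀ (u : Env → Px (Pn N y) → ℝ) (D : ℝ), TiltU N y (rowsB rt N t τ ∩ Ioo c d) p0 p1 u → (∀ η S, |u η S| ≤ D) → D ≤ (L : ℝ) ^ κ →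
    ∀ (X : Env → (Fin (k + 1) → Px (Pn N y)) → ℝ), (∀ x, Measurable fun η => X η x) → (∀ η x, 0 ≤ X η x) → (∀ η x, X η x ≤ 1) →
    BlV (rowsB rt N t τ ∩ Ioo c d) X →
    ∫ η, I52.ev (P.gi (pJ c d) l) (lw μ s η N (Pn N y) + u η)
      (fun z => (if FarAt μ s L δ N t τ (pt z) then 1 else 0) * X η (Fin.tail z)) ∂(law μ) ≤
      (L : ℝ) ^ ε * (EE' μ s t)⁻¹ * ∫ η, I52.ev P (lw μ s η N (Pn N y) + u η) (X η) ∂(law μ) + Real.exp (-(L : ℝ) ^ c') := by
  intro ε θ hε hθ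
  obtain ⟨δ, κ, c₁, hδ, hκ, hc₁, L₁, h1⟩ := far_planET h k ε θ hε hθ
  obtain ⟨c₂, hc₂, -, L₂, h2⟩ := Pool.Agent.W_7d29a1_Z.NumI77.pow_exp (lt_min hc₁ hκ) 1
  refine ⟨δ, κ, c₂, hδ, hκ, hc₂, L₁ + L₂ + 2,
    fun L hL N t hLN hNL htL htN y hy hyc rt τ c d p0 p1 l hcd hd P hP u D hu hD hDL X mX X0 X1 hX => ?_⟩
  have hpr : IsProbabilityMeasure (law μ) := by unfold law; infer_instance
  have hne : Nonempty (Px (Pn N y)) := ne_Pn hy
  have h3 := h1 L (by omega) N t hLN hNL htL htN y hy hyc rt τ c d p0 p1 l hcd hd P hP u D hu hD hDL X mX X0 X1 hX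
  have hL1 : (1 : ℝ) ≤ L := by
    have : 1 ≤ L := by omega
    exact_mod_cast this
  have hL2 : (2 : ℝ) ≤ L := by
    have : 2 ≤ L := by omega
    exact_mod_cast this
  have mw := meas_lwu (μ := μ) (s := s) hu.me
  have mlw : ∀ S, Measurable fun η : Env => (lw μ s η N (Pn N y) + u η) S := fun S => (measurable_pi_iff.1 mw) S
  -- the last replica
  have e : ∀ η, I52.ev (P.gi (pJ c d) l) (lw μ s η N (Pn N y) + u η)
      (fun z => (if FarAt μ s L δ N t τ (pt z) then 1 else 0) * X η (Fin.tail z)) =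
      I52.ev P (lw μ s η N (Pn N y) + u η) fun x => mFarW μ s N y L δ t τ c d l (lw μ s η N (Pn N y) + u η) x * X η x := fun η => by
    unfold Plan.gi
    rw [I52.ev_cons]
    refine I52.ev_congr P _ fun x => ?_
    unfold mFarW
    rw [I52.cE_eq_av, mul_comm, ← I52.av_smul]
    refine congrArg (I52.av _ _) (funext fun v => ?_)
    rw [Fin.tail_cons, mul_comm]
  obtain ⟨I, hI⟩ : ∃ I : Env → (Fin (k + 1) → Px (Pn N y)) → ℝ,
    I = fun η x => if Real.exp (-(L : ℝ) ^ κ) ≤ mFarW μ s N y L δ t τ c d l (lw μ s η N (Pn N y) + u η) x then 1 else 0 := ⟨_, rfl⟩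
  have I0 : ∀ η x, 0 ≤ I η x := fun η x => by rw [hI]; beta_reduce; split_ifs <;> norm_num
  have I1 : ∀ η x, I η x ≤ 1 := fun η x => by rw [hI]; beta_reduce; split_ifs <;> norm_num
  have mI : ∀ x, Measurable fun η => I η x := fun x => by
    rw [hI]
    exact Measurable.ite (measurableSet_le measurable_const (mFarW_meas L δ t τ c d l mlw x)) measurable_const measurable_const
  have mIX : ∀ x, Measurable fun η => I η x * X η x := fun x => (mI x).mul (mX x)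
  have i1 : Integrable (fun η => I52.ev P (lw μ s η N (Pn N y) + u η) (fun x => I η x * X η x)) (law μ) :=
    int_evW P mw mIX (fun η x => mul_nonneg (I0 _ x) (X0 _ _)) fun η x => mul_le_one₀ (I1 _ x) (X0 _ _) (X1 _ _)
  have mFX : ∀ x, Measurable fun η => mFarW μ s N y L δ t τ c d l (lw μ s η N (Pn N y) + u η) x * X η x := fun x =>
    (mFarW_meas L δ t τ c d l mlw x).mul (mX x)
  have i3 : Integrable (fun η => I52.ev P (lw μ s η N (Pn N y) + u η)
      (fun x => mFarW μ s N y L δ t τ c d l (lw μ s η N (Pn N y) + u η) x * X η x)) (law μ) :=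
    int_evW P mw mFX (fun η x => mul_nonneg (mFarW_nonneg L δ t τ c d l _ x) (X0 _ _))
      fun η x => mul_le_one₀ (mFarW_le_one L δ t τ c d l _ x) (X0 _ _) (X1 _ _)
  have b1 : ∀ η, I52.ev P (lw μ s η N (Pn N y) + u η)
      (fun x => mFarW μ s N y L δ t τ c d l (lw μ s η N (Pn N y) + u η) x * X η x) ≤
      I52.ev P (lw μ s η N (Pn N y) + u η) (fun x => I η x * X η x) + Real.exp (-(L : ℝ) ^ κ) := fun η => by
    rw [← I52.ev_const P (lw μ s η N (Pn N y) + u η) (Real.exp (-(L : ℝ) ^ κ)), ← I52.ev_add]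
    refine I52.ev_mono P _ fun x => ?_
    have hm0 := mFarW_nonneg (μ := μ) (s := s) L δ t τ c d l (lw μ s η N (Pn N y) + u η) x
    have hm1 := mFarW_le_one (μ := μ) (s := s) L δ t τ c d l (lw μ s η N (Pn N y) + u η) x
    have hx0 := X0 η x
    have hx1 := X1 η x
    have he := (Real.exp_pos (-(L : ℝ) ^ κ)).le
    rw [hI]
    beta_reduce
    split_ifs with hc
    · nlinarith
    · have hc' := (not_le.1 hc).le
      nlinarith
  have b2 : ∫ η, I52.ev P (lw μ s η N (Pn N y) + u η)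
      (fun x => mFarW μ s N y L δ t τ c d l (lw μ s η N (Pn N y) + u η) x * X η x) ∂(law μ) ≤
      ∫ η, I52.ev P (lw μ s η N (Pn N y) + u η) (fun x => I η x * X η x) ∂(law μ) + Real.exp (-(L : ℝ) ^ κ) := by
    have e3 : ∫ η, (I52.ev P (lw μ s η N (Pn N y) + u η) (fun x => I η x * X η x) + Real.exp (-(L : ℝ) ^ κ)) ∂(law μ) =
        ∫ η, I52.ev P (lw μ s η N (Pn N y) + u η) (fun x => I η x * X η x) ∂(law μ) + Real.exp (-(L : ℝ) ^ κ) := by
      rw [integral_add i1 (integrable_const _), integral_const]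
      simp
    rw [← e3]
    exact integral_mono i3 (i1.add (integrable_const _)) b1
  have h4 : ∫ η, I52.ev P (lw μ s η N (Pn N y) + u η) (fun x => I η x * X η x) ∂(law μ) ≤
      (L : ℝ) ^ ε * (EE' μ s t)⁻¹ * ∫ η, I52.ev P (lw μ s η N (Pn N y) + u η) (X η) ∂(law μ) + Real.exp (-(L : ℝ) ^ c₁) := by
    rw [hI]
    exact h3
  have hfin : Real.exp (-(L : ℝ) ^ c₁) + Real.exp (-(L : ℝ) ^ κ) ≤ Real.exp (-(L : ℝ) ^ c₂) := by
    have h5 := h2 L (by omega)
    rw [Real.rpow_one] at h5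
    have h6 : Real.exp (-(L : ℝ) ^ c₁) ≤ Real.exp (-(L : ℝ) ^ (min c₁ κ)) :=
      Real.exp_le_exp.2 (neg_le_neg (Real.rpow_le_rpow_of_exponent_le hL1 (min_le_left _ _)))
    have h7 : Real.exp (-(L : ℝ) ^ κ) ≤ Real.exp (-(L : ℝ) ^ (min c₁ κ)) :=
      Real.exp_le_exp.2 (neg_le_neg (Real.rpow_le_rpow_of_exponent_le hL1 (min_le_right _ _)))
    have h8 := Real.exp_pos (-(L : ℝ) ^ (min c₁ κ))
    nlinarith
  simp only [e]
  linarith

open scoped Classical in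
/-- **The far price of the last replica of a block plan at tilted weights.** -/
theorem far_lastT [IsProbabilityMeasure μ] {c₀ C₀ : ℝ} {n₀ : ℕ} (h : In μ s c₀ C₀ n₀) (k : ℕ) : ∀ ε θ : ℝ, 0 < ε → 0 < θ → ∃ δ κ c' : ℝ,
    0 < δ ∧ 0 < κ ∧ 0 < c' ∧ ∃ L₀ : ℕ, ∀ L : ℕ, L₀ ≤ L → ∀ N t : ℕ, L ≤ 16 * N → N ≤ L → (L : ℝ) ^ θ ≤ t → t ≤ N →
    ∀ y : ℕ, y ≤ N → |(y : ℝ) - sl μ s * N| ≤ ((L : ℝ) ^ δ * wd' μ s N) → ∀ (rt : Bool) (τ p0 p1 : ℕ)
    (P : Plan (Px (Pn N y)) (k + 1)) (A : (Fin (k + 1) → Px (Pn N y)) → Finset (Px (Pn N y))) (hA : ∀ x, (A x).Nonempty),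
    BPT N y p0 p1 (Plan.cons P A hA) →
    ∀ (u : Env → Px (Pn N y) → ℝ) (D : ℝ), TiltU N y (rowsB rt N t τ) p0 p1 u → (∀ η S, |u η S| ≤ D) → D ≤ (L : ℝ) ^ κ →
    ∀ (X : Env → (Fin (k + 1) → Px (Pn N y)) → ℝ), (∀ x, Measurable fun η => X η x) → (∀ η x, 0 ≤ X η x) → (∀ η x, X η x ≤ 1) →
    BlV (rowsB rt N t τ) X →
    ∫ η, I52.ev (Plan.cons P A hA) (lw μ s η N (Pn N y) + u η)
      (fun z => (if FarAt μ s L δ N t τ (pt z) then 1 else 0) * X η (Fin.tail z)) ∂(law μ) ≤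
      (L : ℝ) ^ ε * (EE' μ s t)⁻¹ * ∫ η, I52.ev P (lw μ s η N (Pn N y) + u η) (X η) ∂(law μ) + Real.exp (-(L : ℝ) ^ c') := by
  intro ε θ hε hθ
  obtain ⟨δ, κ, c', hδ, hκ, hc', L₀, h1⟩ := far_giT h k ε θ hε hθ
  refine ⟨δ, κ, c', hδ, hκ, hc', L₀, fun L hL N t hLN hNL htL htN y hy hyc rt τ p0 p1 P A hA hP u D hu hD hDL X mX X0 X1 hX => ?_⟩
  have hne : Nonempty (Px (Pn N y)) := ne_Pn hy
  rcases hP.2 with h2 | ⟨c, d, i, hcd, hd, hp, h2⟩
  · have h3 := h1 L hL N t hLN hNL htL htN y hy hyc rt τ 0 N p0 p1 0 (Nat.zero_le _) le_rfl P hP.1 u D (hu.mono inter_subset_left) hD hDL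
      X mX X0 X1 (hX.mono inter_subset_left)
    have e : ∀ η, I52.ev (P.gi (pJ 0 N) 0) (lw μ s η N (Pn N y) + u η)
        (fun z => (if FarAt μ s L δ N t τ (pt z) then 1 else 0) * X η (Fin.tail z)) =
        I52.ev (Plan.cons P A hA) (lw μ s η N (Pn N y) + u η)
          (fun z => (if FarAt μ s L δ N t τ (pt z) then 1 else 0) * X η (Fin.tail z)) := fun η => by
      unfold Plan.gi
      rw [I52.ev_cons, I52.ev_cons]
      refine I52.ev_congr P _ fun x => ?_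
      have hu : (univ.filter fun s : Px (Pn N y) => pJ 0 N s = pJ 0 N (x 0)) = univ :=
        Finset.filter_true_of_mem fun s _ => pJ_full s (x 0)
      rw [hu, h2 x]
    simp only [e] at h3
    exact h3
  · have h3 := h1 L hL N t hLN hNL htL htN y hy hyc rt τ c d p0 p1 i hcd hd P hP.1 u D (hu.mono inter_subset_left) hD hDL
      X mX X0 X1 (hX.mono inter_subset_left)
    have e : ∀ η, I52.ev (P.gi (pJ c d) i) (lw μ s η N (Pn N y) + u η)
        (fun z => (if FarAt μ s L δ N t τ (pt z) then 1 else 0) * X η (Fin.tail z)) =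
        I52.ev (Plan.cons P A hA) (lw μ s η N (Pn N y) + u η)
          (fun z => (if FarAt μ s L δ N t τ (pt z) then 1 else 0) * X η (Fin.tail z)) := fun η => by
      unfold Plan.gi
      rw [I52.ev_cons, I52.ev_cons]
      refine I52.ev_congr P _ fun x => ?_
      rw [h2 x]
    simp only [e] at h3
    exact h3

open scoped Classical in
/-- **The far price of a free replica, far from all old ones, at tilted weights.** -/
theorem far_frT [IsProbabilityMeasure μ] {c₀ C₀ : ℝ} {n₀ : ℕ} (h : In μ s c₀ C₀ n₀) (k : ℕ) : ∀ ε θ : ℝ, 0 < ε → 0 < θ → ∃ δ κ c' : ℝ,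
    0 < δ ∧ 0 < κ ∧ 0 < c' ∧ ∃ L₀ : ℕ, ∀ L : ℕ, L₀ ≤ L → ∀ N t : ℕ, L ≤ 16 * N → N ≤ L → (L : ℝ) ^ θ ≤ t → t ≤ N →
    ∀ y : ℕ, y ≤ N → |(y : ℝ) - sl μ s * N| ≤ ((L : ℝ) ^ δ * wd' μ s N) → ∀ (rt : Bool) (τ p0 p1 : ℕ)
    (P : Plan (Px (Pn N y)) (k + 1)), BPT N y p0 p1 P →
    ∀ (u : Env → Px (Pn N y) → ℝ) (D : ℝ), TiltU N y (rowsB rt N t τ) p0 p1 u → (∀ η S, |u η S| ≤ D) → D ≤ (L : ℝ) ^ κ →
    ∀ (X : Env → (Fin (k + 1) → Px (Pn N y)) → ℝ), (∀ x, Measurable fun η => X η x) → (∀ η x, 0 ≤ X η x) → (∀ η x, X η x ≤ 1) →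
    BlV (rowsB rt N t τ) X →
    ∫ η, I52.ev P (lw μ s η N (Pn N y) + u η) (fun x => gm (lw μ s η N (Pn N y) + u η) fun v =>
      (if FarAt μ s L δ N t τ (pt (Fin.cons v x : Fin (k + 2) → Px (Pn N y))) then 1 else 0) * X η x) ∂(law μ) ≤
      (L : ℝ) ^ ε * (EE' μ s t)⁻¹ * ∫ η, I52.ev P (lw μ s η N (Pn N y) + u η) (X η) ∂(law μ) + Real.exp (-(L : ℝ) ^ c') := by
  intro ε θ hε hθ
  obtain ⟨δ, κ, c', hδ, hκ, hc', L₀, h1⟩ := far_giT h k ε θ hε hθ
  refine ⟨δ, κ, c', hδ, hκ, hc', L₀, fun L hL N t hLN hNL htL htN y hy hyc rt τ p0 p1 P hP u D hu hD hDL X mX X0 X1 hX => ?_⟩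
  have hne : Nonempty (Px (Pn N y)) := ne_Pn hy
  have h3 := h1 L hL N t hLN hNL htL htN y hy hyc rt τ 0 N p0 p1 0 (Nat.zero_le _) le_rfl P hP u D (hu.mono inter_subset_left) hD hDL
      X mX X0 X1 (hX.mono inter_subset_left)
  have e : ∀ η, I52.ev (P.gi (pJ 0 N) 0) (lw μ s η N (Pn N y) + u η)
      (fun z => (if FarAt μ s L δ N t τ (pt z) then 1 else 0) * X η (Fin.tail z)) =
      I52.ev P (lw μ s η N (Pn N y) + u η) (fun x => gm (lw μ s η N (Pn N y) + u η) fun v =>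
        (if FarAt μ s L δ N t τ (pt (Fin.cons v x : Fin (k + 2) → Px (Pn N y))) then 1 else 0) * X η x) := fun η => by
    unfold Plan.gi
    rw [I52.ev_cons]
    refine I52.ev_congr P _ fun x => ?_
    have hu : (univ.filter fun s : Px (Pn N y) => pJ 0 N s = pJ 0 N (x 0)) = univ :=
      Finset.filter_true_of_mem fun s _ => pJ_full s (x 0)
    rw [hu, I52.gm_eq_av]
    refine congrArg (I52.av _ _) (funext fun v => ?_)
    rw [Fin.tail_cons]
  simp only [e] at h3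
  exact h3

end

end Pool.Agent.W_7d29a1_C0.F13
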