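import Pool.Agent.W_7d29a1_C0.FarT57

/-!
MP_7d29a1_pr, [CURV0] (helper57), leaf (T), TL3, third part: THE FAR REPLICA AT ONE ROW.

A free replica out of the tubes of the boxes of `S` and `S'` at a row of the slab is, if everything is straight up to the row `z'`, at a
distance `≥ R` of both of them AT THE ROW `z'`, where the own pair has merged: `far2_le`. `FV57` = the functional of three free replicas
with this event. `ins_T57` = TL3 with all the small terms in one.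
-/

set_option autoImplicit false
set_option linter.unusedSectionVars false
set_option linter.unusedVariables false

namespace Pool.Agent.W_7d29a1_C0.InT57

open Finset MeasureTheory Pool.Agent.W_7d29a1_F Pool.Agent.W_7d29a1_X
open Pool.Agent.W_7d29a1_C0.Mod92 Pool.Agent.W_7d29a1_C0.H32 Pool.Agent.W_7d29a1_C0.FP63 Pool.Agent.W_7d29a1_C0.Blk18
open Pool.Agent.W_7d29a1_C0.Swap57 Pool.Agent.W_7d29a1_C0.NM82 Pool.Agent.W_7d29a1_C0.CutT57
open Pool.W7d29a1.C0 Pool.W7d29a1.C0.VT31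
open Pool.W7d29a1.C0.H41 (Obs Wt tail1 int_evP int_ins)
open Pool.W7d29a1.C0.T73 (Vis dl chT bx OutB Str)
open Pool.W7d29a1.C0.H7 (Marg)
open Pool.W7d29a1.C0.I52 (Plan)

noncomputable section

variable {Q : Finset (Finset ℕ)}

/-! ### Geometry -/

/-- A narrower tube, more rows: a larger event. -/
theorem bend57_mono {sl R R' : ℝ} (hR : R' ≤ R) {m0 : ℤ} {J J' : Finset ℕ} (hJ : J ⊆ J') (S : Px Q) :
    bend57 sl R m0 J S ≤ bend57 sl R' m0 J' S := by
  unfold bend57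
  by_cases h : Str pz sl R' m0 (JZ J') S
  · rw [if_pos h, if_pos]
    intro m hm
    exact (h m (image_subset_image hJ hm)).trans hR
  · rw [if_neg h]
    split_ifs <;> norm_num

/-- Out of the tube of the box of `y`: far from `y` at a later row. -/
theorem far_one {N : ℕ} {sl R : ℝ} (hR : 1 ≤ R) {m0 : ℤ} (hm0 : m0 ≤ N) {J : Finset ℕ} {z : ℕ} {v y : Px Q}
    (hv : Str pz sl (R / 4) m0 (JZ (insert z J)) v) (hy : Str pz sl (R / 4) m0 (JZ (insert z J)) y) {r : ℤ} (hr : r ∈ JZ J)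
    (h : 3 * R < dl sl m0 (R * ((bx pz R m0 N y : ℕ) : ℝ)) (r, pz v r)) : R ≤ |((ps v z - ps y z : ℤ) : ℝ)| := by
  have hzJ : ((z : ℕ) : ℤ) ∈ JZ (insert z J) := mem_image.2 ⟨z, mem_insert_self z J, rfl⟩
  have hrJ : r ∈ JZ (insert z J) := by
    obtain ⟨r', h6, h7⟩ := mem_image.1 hr
    exact mem_image.2 ⟨r', mem_insert_of_mem h6, h7⟩
  have a1 := hv r hrJ
  have a2 := hv z hzJ
  have a3 := hy z hzJ
  have a5 := T73.bx_spec (pa := pz (Q := Q)) (m0 := m0) (n := N) hR (x := y) (pz_nonneg _ _) (pz_le hm0)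
  have e1 : pz v (z : ℤ) = ps v z := by
    unfold pz
    rw [Int.toNat_natCast]
  have e2 : pz y (z : ℤ) = ps y z := by
    unfold pz
    rw [Int.toNat_natCast]
  unfold dl at a1 a2 a3 h
  simp only at a1 a2 a3 h
  rw [e1] at a2
  rw [e2] at a3
  rw [abs_le] at a1 a2 a3 a5
  rw [lt_abs] at h
  rw [le_abs]
  push_cast
  rcases h with h | h
  · left
    linarith [a1.1, a1.2, a2.1, a2.2, a3.1, a3.2, a5.1, a5.2]
  · right
    linarith [a1.1, a1.2, a2.1, a2.2, a3.1, a3.2, a5.1, a5.2]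

open Classical in
/-- The replica `v` is at a distance `≥ R` of `S` and of `S'` at the row `z`. -/
def ds57 (R : ℝ) (z : ℕ) (v S S' : Px Q) : ℝ :=
  if R ≤ |((ps v z - ps S z : ℤ) : ℝ)| ∧ R ≤ |((ps v z - ps S' z : ℤ) : ℝ)| then 1 else 0

theorem ds57_nonneg (R : ℝ) (z : ℕ) (v S S' : Px Q) : 0 ≤ ds57 R z v S S' := by
  unfold ds57
  split_ifs <;> norm_num

theorem ds57_le_one (R : ℝ) (z : ℕ) (v S S' : Px Q) : ds57 R z v S S' ≤ 1 := by
  unfold ds57
  split_ifs <;> norm_num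

/-- **The far replica at the row `z`.** -/
theorem far2_le {N : ℕ} {sl R : ℝ} (hR : 1 ≤ R) {m0 : ℤ} (hm0 : m0 ≤ N) (J : Finset ℕ) (z : ℕ) (v y S' : Px Q) :
    far2 N sl R m0 J v y S' ≤ ds57 R z v y S' + (bend57 sl (R / 4) m0 (insert z J) v +
      (bend57 sl (R / 4) m0 (insert z J) y + bend57 sl (R / 4) m0 (insert z J) S')) := by
  have b1 := bend57_nonneg sl (R / 4) m0 (insert z J) v
  have b2 := bend57_nonneg sl (R / 4) m0 (insert z J) y
  have b3 := bend57_nonneg sl (R / 4) m0 (insert z J) S'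
  have b4 := ds57_nonneg R z v y S'
  unfold far2
  by_cases h : OutB pz sl R m0 (JZ J) (![bx pz R m0 N y, bx pz R m0 N S'] : Fin 2 → Fin (N + 1)) v
  · rw [if_pos h]
    by_cases h1 : Str pz sl (R / 4) m0 (JZ (insert z J)) v
    · by_cases h2 : Str pz sl (R / 4) m0 (JZ (insert z J)) y
      · by_cases h3 : Str pz sl (R / 4) m0 (JZ (insert z J)) S'
        · obtain ⟨r, h4, h5⟩ := h
          have e0 := far_one hR hm0 h1 h2 h4 (h5 0)
          have e1 := far_one hR hm0 h1 h3 h4 (h5 1)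
          have e : ds57 R z v y S' = 1 := if_pos ⟨e0, e1⟩
          rw [e]
          linarith
        · have e : bend57 sl (R / 4) m0 (insert z J) S' = 1 := if_neg h3
          rw [e]
          linarith
      · have e : bend57 sl (R / 4) m0 (insert z J) y = 1 := if_neg h2
        rw [e]
        linarith
    · have e : bend57 sl (R / 4) m0 (insert z J) v = 1 := if_neg h1
      rw [e]
      linarith
  · rw [if_neg h]
    linarith

/-! ### The functional -/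

section Fun

variable [SwQ Q] [Nonempty (Px Q)] {a0 z z' c : ℕ}

/-- **The far functional at the row `z'`**: three free replicas, the own tie of `S`, the replica `v` far from `S` and `S'` at `z'`. -/
def FV57 (w : Px Q → ℝ) (a0 z z' c : ℕ) (R : ℝ) (f : Px Q → ℝ) : ℝ :=
  gm w fun S => QA57 w a0 z z' S * gm w fun S' => df57 z' c f S S' * gm w fun v => ds57 R z' v S S'

/-- The observable of the six replicas with the event at the row `z'`. -/
def psi6 (a0 z z' c : ℕ) (R : ℝ) (f : Px Q → ℝ) (x : Fin 6 → Px Q) : ℝ :=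
  NI a0 z (Fin.tail x 2) (Fin.tail x 1) * df57 z' c f (Fin.tail x 4) (Fin.tail x 0) *
    ds57 R z' (x 0) (Fin.tail x 2) (Fin.tail x 0)

theorem psi6_nonneg (R : ℝ) (f : Px Q → ℝ) (x : Fin 6 → Px Q) : 0 ≤ psi6 a0 z z' c R f x :=
  mul_nonneg (mul_nonneg (NI_nonneg _ _ _ _) (df57_nonneg _ _ _ _ _)) (ds57_nonneg _ _ _ _ _)

theorem FV57_eq (hzz : z ≤ z') (hzc : z' ≤ c) (w : Px Q → ℝ) (R : ℝ) {f : Px Q → ℝ} (hf : Rk c f) :
    I52.ev ((P5 (pJ 0 z') (pJ 0 z)).sh 0) w (psi6 a0 z z' c R f) = FV57 w a0 z z' c R f := by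
  rw [ev_sh_eq]
  have e1 : ∀ x : Fin 5 → Px Q, I52.av w ((P5 (pJ (Q := Q) 0 z') (pJ 0 z)).S 0 x)
      (fun v => psi6 a0 z z' c R f (Fin.cons v x)) =
      NI a0 z (x 2) (x 1) * df57 z' c f (x 4) (x 0) * gm w fun v => ds57 R z' v (x 2) (x 0) := fun x => by
    rw [S_P5_0, ← I52.gm_eq_av, ← gm_const_mul]
    rfl
  rw [I52.ev_congr _ _ e1]
  exact far_P5 hzz hzc w hf fun v y S' => ds57 R z' v y S'

theorem FV57_nonneg (hzz : z ≤ z') (hzc : z' ≤ c) (w : Px Q → ℝ) (R : ℝ) {f : Px Q → ℝ} (hf : Rk c f) :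
    0 ≤ FV57 w a0 z z' c R f := by
  rw [← FV57_eq hzz hzc w R hf]
  exact I52.ev_nonneg _ _ fun x => psi6_nonneg R f x

theorem obs_psi6 {f : Env → Px Q → ℝ} {F : ℝ} (R : ℝ) (mf : Measurable f) (hF : ∀ η S, |f η S| ≤ F) :
    Obs (fun η => psi6 a0 z z' c R (f η)) (2 * F) := by
  refine ⟨measurable_pi_lambda _ fun x => ?_, fun η x => ?_⟩
  · unfold psi6 df57
    exact (((((measurable_pi_apply _).comp mf).sub ((measurable_pi_apply _).comp mf)).abs.mul_const _).const_mul _).mul_const _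
  · have hF0 : 0 ≤ F := (abs_nonneg _).trans (hF η (x 0))
    rw [abs_of_nonneg (psi6_nonneg R (f η) x)]
    unfold psi6
    have h2 : NI a0 z (Fin.tail x 2) (Fin.tail x 1) * df57 z' c (f η) (Fin.tail x 4) (Fin.tail x 0) ≤ 1 * (2 * F) :=
      mul_le_mul (NI_le_one _ _ _ _) (df57_le (hF η) _ _) (df57_nonneg _ _ _ _ _) zero_le_one
    calc NI a0 z (Fin.tail x 2) (Fin.tail x 1) * df57 z' c (f η) (Fin.tail x 4) (Fin.tail x 0) *
          ds57 R z' (x 0) (Fin.tail x 2) (Fin.tail x 0) ≤ 1 * (2 * F) * 1 :=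
          mul_le_mul h2 (ds57_le_one _ _ _ _ _) (ds57_nonneg _ _ _ _ _) (by linarith)
      _ = 2 * F := by ring

/-- **From the slab to the row `z'`.** -/
theorem FR57_le (hzz : z ≤ z') (hzc : z' ≤ c) (N : ℕ) (w : Px Q → ℝ) {sl R : ℝ} (hR : 1 ≤ R) {m0 : ℤ} (hm0 : m0 ≤ N)
    (J : Finset ℕ) {f : Px Q → ℝ} (hf : Rk c f) {F : ℝ} (hF : ∀ S, |f S| ≤ F) :
    FR57 N w a0 z z' c sl R m0 J f ≤ FV57 w a0 z z' c R f + 6 * F * gm w (bend57 sl (R / 4) m0 (insert z' J)) := by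
  obtain ⟨S0⟩ := (inferInstance : Nonempty (Px Q))
  have hF0 : 0 ≤ F := (abs_nonneg _).trans (hF S0)
  have hmar := (marg_P5 (pJ (Q := Q) 0 z') (pJ (Q := Q) 0 z)).sh 0
  rw [← FR57_eq hzz hzc N w sl R m0 J hf 0 (S_P5_0 _ _), ← FV57_eq hzz hzc w R hf]
  obtain ⟨b, hb⟩ : ∃ b : Px Q → ℝ, b = bend57 sl (R / 4) m0 (insert z' J) := ⟨_, rfl⟩
  have hb0 : ∀ S, 0 ≤ b S := fun S => by
    rw [hb]
    exact bend57_nonneg _ _ _ _ _
  have h1 : I52.ev ((P5 (pJ 0 z') (pJ 0 z)).sh 0) w (phi6 N a0 z z' c sl R m0 J f) ≤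
      I52.ev ((P5 (pJ 0 z') (pJ 0 z)).sh 0) w (fun x => psi6 a0 z z' c R f x +
        2 * F * (b (x 0) + (b (x 3) + b (x 1)))) := I52.ev_mono _ _ fun x => by
    have k1 := far2_le hR hm0 J z' (x 0) (Fin.tail x 2) (Fin.tail x 0) (sl := sl)
    rw [← hb] at k1
    have k2 : 0 ≤ NI a0 z (Fin.tail x 2) (Fin.tail x 1) * df57 z' c f (Fin.tail x 4) (Fin.tail x 0) :=
      mul_nonneg (NI_nonneg _ _ _ _) (df57_nonneg _ _ _ _ _)
    have k3 : NI a0 z (Fin.tail x 2) (Fin.tail x 1) * df57 z' c f (Fin.tail x 4) (Fin.tail x 0) ≤ 1 * (2 * F) :=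
      mul_le_mul (NI_le_one _ _ _ _) (df57_le hF _ _) (df57_nonneg _ _ _ _ _) zero_le_one
    have k4 : 0 ≤ b (x 0) + (b (x 3) + b (x 1)) := add_nonneg (hb0 _) (add_nonneg (hb0 _) (hb0 _))
    unfold phi6 psi6
    calc NI a0 z (Fin.tail x 2) (Fin.tail x 1) * df57 z' c f (Fin.tail x 4) (Fin.tail x 0) *
          far2 N sl R m0 J (x 0) (Fin.tail x 2) (Fin.tail x 0)
        ≤ NI a0 z (Fin.tail x 2) (Fin.tail x 1) * df57 z' c f (Fin.tail x 4) (Fin.tail x 0) *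
          (ds57 R z' (x 0) (Fin.tail x 2) (Fin.tail x 0) + (b (x 0) + (b (x 3) + b (x 1)))) :=
          mul_le_mul_of_nonneg_left k1 k2
      _ ≤ _ := by
          rw [mul_add]
          refine add_le_add le_rfl ?_
          rw [one_mul] at k3
          exact mul_le_mul_of_nonneg_right k3 k4
  refine h1.trans_eq ?_
  rw [I52.ev_add, I52.ev_smul, I52.ev_add, I52.ev_add, hmar.ev 0 w b, hmar.ev 3 w b, hmar.ev 1 w b, ← hb]
  ring

end Fun

/-! ### TL3, final form -/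

section TL3

variable {μ : Measure ℝ} {s : ℝ} {N : ℕ} [SwQ Q] [Nonempty (Px Q)] {A G Γ : Env → (ℕ → ℤ) → ℝ} {al be al' be' : ℕ}
  {D' M F : ℝ} {J : Finset ℕ} {a0 z z' c : ℕ} {f : Env → Px Q → ℝ} {f₀ f₀' : ℝ → ℝ}

/-- The mass of the paths which are not straight up to the row `z'`. -/
def bnt57 (μ : Measure ℝ) (s : ℝ) (N : ℕ) (Q : Finset (Finset ℕ)) [Nonempty (Px Q)] (A : Env → (ℕ → ℤ) → ℝ) (J : Finset ℕ)
    (z z' : ℕ) (sl R : ℝ) (m0 : ℤ) : ℝ :=
  ∫ η, gm (lA μ s N Q A η) (bend57 sl (R / 4) m0 (insert z (insert z' J))) ∂(law μ)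

/-- **TL3, FINAL FORM**: the insertion of the slab field in the term of the telescope. -/
theorem ins_T57 [IsProbabilityMeasure μ] (h : DenLaw μ f₀ f₀') {K θ0 : ℝ} (hs : SG μ (sc f₀ f₀') K θ0)
    (hA : WF al be D' A) (hG : WF al be M G) (hΓ : WF al' be' M Γ) (hbe : be ≤ a0) (hbe' : be' ≤ a0)
    (hJ : ∀ r ∈ J, a0 < r ∧ r < z) (hJ0 : J.Nonempty) (hzz : z ≤ z') (hzc : z' ≤ c) (hcN : c ≤ N)
    (mf : Measurable f) (bf : ∀ η S, |f η S| ≤ F) (hf : ∀ η, Rk c (f η))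
    (hfb : ∀ q ∈ sS J N, ∀ (η : Env) (x : ℝ), f (Function.update η q x) = f η)
    {sl R : ℝ} (hR : 1 ≤ R) {m0 : ℤ} (hm0 : m0 ≤ N) {t a : ℝ} (ht : 0 < t) (ha : 0 ≤ a) (htM : t * (M / J.card) ≤ θ0) :
    |∫ η, I52.ins (P5 (pJ 0 z') (pJ 0 z)) (lA μ s N Q A η) (CF μ s N Q A G J η)
        (psi5 a0 z z' c (at2 Γ η) (at2 G η) (f η)) ∂(law μ)| ≤
      a * (2 * M * M * ∫ η, XT (lA μ s N Q A η) a0 z z' c (f η) ∂(law μ)) +
      4 * M * M * M * ∫ η, FV57 (lA μ s N Q A η) a0 z z' c R (f η) ∂(law μ) +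
      (((N + 1 : ℕ) : ℝ) ^ 5 * tail1 K (4 * M ^ 2 * F) t a (7 * (5 : ℕ) * R * M ^ 2 / J.card) +
      68 * M ^ 3 * F * bnt57 μ s N Q A J z z' sl R m0) := by
  obtain ⟨S0⟩ := (inferInstance : Nonempty (Px Q))
  have hM0 : 0 ≤ M := (abs_nonneg _).trans (hG.bd (fun _ => 0) fun _ => 0)
  have hF0 : 0 ≤ F := (abs_nonneg _).trans (bf (fun _ => 0) S0)
  have k := ins_P5_57 (s := s) h hs hA hG hΓ hbe hbe' hJ hJ0 hzz hzc hcN mf bf hf hfb (sl := sl) hR hm0 ht ha htM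
  refine k.trans ?_
  have mw : Measurable fun η => lA μ s N Q A η := (Wt_lA (μ := μ) (s := s) (N := N) (Q := Q) hA (S := ∅)
    (fun p hp => absurd hp (Finset.notMem_empty p))).meas
  have hmar := marg_P5 (pJ (Q := Q) 0 z') (pJ (Q := Q) 0 z)
  have ib : ∀ (R : ℝ) (J : Finset ℕ), Integrable (fun η => gm (lA μ s N Q A η) (bend57 sl R m0 J)) (law μ) := fun R J => by
    have h1 : Obs (fun (_ : Env) (x : Fin 5 → Px Q) => bend57 sl R m0 J (x 0)) 1 :=
      ⟨measurable_const, fun η x => by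
        rw [abs_of_nonneg (bend57_nonneg _ _ _ _ _)]
        exact bend57_le_one _ _ _ _ _⟩
    have h2 := int_evP (μ := μ) (P5 (pJ (Q := Q) 0 z') (pJ 0 z)) h1 mw
    simpa only [hmar.ev] using h2
  have mon : ∀ (R' : ℝ) (J' : Finset ℕ), R / 4 ≤ R' → J' ⊆ insert z (insert z' J) →
      ∫ η, gm (lA μ s N Q A η) (bend57 sl R' m0 J') ∂(law μ) ≤ bnt57 μ s N Q A J z z' sl R m0 := fun R' J' h1 h2 =>
    integral_mono (ib R' J') (ib (R / 4) (insert z (insert z' J))) fun η => gm_mono' _ fun S => bend57_mono h1 h2 S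
  have m1 := mon R J (by linarith) ((subset_insert z' J).trans (subset_insert z _))
  have m2 := mon (R / 2) (insert z J) (by linarith) (insert_subset_insert z (subset_insert z' J))
  have m3 := mon (R / 2) (insert z' J) (by linarith) (subset_insert z _)
  have m4 := mon (R / 4) (insert z' J) le_rfl (subset_insert z _)
  have iV : Integrable (fun η => FV57 (lA μ s N Q A η) a0 z z' c R (f η)) (law μ) := by
    have h1 := int_evP ((P5 (pJ (Q := Q) 0 z') (pJ 0 z)).sh 0) (obs_psi6 (a0 := a0) (z := z) (z' := z') (c := c) R mf bf)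
      mw (μ := μ)
    have e : (fun η => I52.ev ((P5 (pJ (Q := Q) 0 z') (pJ 0 z)).sh 0) (lA μ s N Q A η) (psi6 a0 z z' c R (f η))) =
        fun η => FV57 (lA μ s N Q A η) a0 z z' c R (f η) := by
      funext η
      exact FV57_eq hzz hzc _ R (hf η)
    rwa [e] at h1
  have iR : Integrable (fun η => FR57 N (lA μ s N Q A η) a0 z z' c sl R m0 J (f η)) (law μ) := by
    have h1 := int_evP ((P5 (pJ (Q := Q) 0 z') (pJ 0 z)).sh 0)
      (obs_phi6 (a0 := a0) (z := z) (z' := z') (c := c) N sl R m0 J mf bf) mw (μ := μ)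
    have e : (fun η => I52.ev ((P5 (pJ (Q := Q) 0 z') (pJ 0 z)).sh 0) (lA μ s N Q A η) (phi6 N a0 z z' c sl R m0 J (f η))) =
        fun η => FR57 N (lA μ s N Q A η) a0 z z' c sl R m0 J (f η) := by
      funext η
      exact FR57_eq hzz hzc N _ sl R m0 J (hf η) 0 (S_P5_0 _ _)
    rwa [e] at h1
  have t1 : ∫ η, FR57 N (lA μ s N Q A η) a0 z z' c sl R m0 J (f η) ∂(law μ) ≤
      ∫ η, FV57 (lA μ s N Q A η) a0 z z' c R (f η) ∂(law μ) +
      6 * F * ∫ η, gm (lA μ s N Q A η) (bend57 sl (R / 4) m0 (insert z' J)) ∂(law μ) := by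
    rw [← integral_const_mul, ← integral_add iV ((ib _ _).const_mul _)]
    exact integral_mono iR (iV.add ((ib _ _).const_mul _)) fun η => FR57_le hzz hzc N _ hR hm0 J (hf η) (bf η)
  have u1 : bent57 μ s N Q A J z z' sl R m0 ≤ 11 * bnt57 μ s N Q A J z z' sl R m0 := by
    unfold bent57
    linarith
  have hM3 : 0 ≤ 4 * M * M * M := by positivity
  have u2 := mul_le_mul_of_nonneg_left t1 hM3
  have u3 := mul_le_mul_of_nonneg_left m4 (show 0 ≤ 4 * M * M * M * (6 * F) by positivity)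
  have u4 := mul_le_mul_of_nonneg_left u1 (show 0 ≤ M * (4 * M ^ 2 * F) by positivity)
  have e3 : M * (4 * M ^ 2 * F) * (11 * bnt57 μ s N Q A J z z' sl R m0) + 4 * M * M * M * (6 * F) *
      bnt57 μ s N Q A J z z' sl R m0 = 68 * M ^ 3 * F * bnt57 μ s N Q A J z z' sl R m0 := by ring
  linarith

end TL3

end

end Pool.Agent.W_7d29a1_C0.InT57
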