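import Pool.Agent.W_7d29a1_C0.Lft33
import Pool.Agent.W_7d29a1_C0.EndC96

/-!
MP_7d29a1_pr, [CURV0] (helper33): THE LOWER BOUND `CVL29` at one tilt from what is left at the concrete frame (`CrL33`, `SigL33`, `BasL33`)
and the error of the clipping (`ClipP`).
-/

set_option autoImplicit false

namespace Pool.Agent.W_7d29a1_C0.Frm33

open MeasureTheory Filter Topology
open Pool.Agent.W_7d29a1_H Pool.Agent.W_7d29a1_LB Pool.Agent.W_7d29a1_HK20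
open Pool.Agent.W_7d29a1_C0 Pool.Agent.W_7d29a1_C0.Asm96
open Pool.Agent.W_7d29a1_h47 (EM Nondeg)
open Pool.Agent.W_7d29a1_HS (in_tilt)

variable {μ : Measure ℝ} [IsProbabilityMeasure μ]

/-- **The lower bound from what is left.** -/
theorem cvl33 (hE : EM μ) (hN : Nondeg μ) {s : ℝ} (hcl : ClipP μ s) {K : ℕ} (hK : 32 ≤ K)
    (h : ∀ a : ℝ, 0 < a → Stiff96 (EE μ s) a → ∀ Θ : ℝ, 0 < Θ → Θ ≤ 1 / 4 → KapLe96 (EE μ s) Θ → RegP46 μ s a Θ →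
      CrL33 μ s K Θ ∧ SigL33 μ s K Θ ∧ BasL33 μ s K Θ) : CVL29 μ s := by
  obtain ⟨c₂, C, n₀, hin⟩ := in_tilt hE hN s
  refine cvl_asm96 hE hN fun a ha hst Θ hΘ hΘ4 hKap hR => ?_
  obtain ⟨h1, h2, h3⟩ := h a ha hst Θ hΘ hΘ4 hKap hR
  exact dlv_of33 (lb_all hE hN s) hin (kap_quarter96 hE hN s) hcl hK hΘ h1 h2 h3

end Pool.Agent.W_7d29a1_C0.Frm33
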