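import Pool.Agent.W_7d29a1_C0.FrmV33
import Pool.Agent.W_7d29a1_C0.End96B
import Pool.Agent.W_7d29a1_C0.Num46R

/-!
MP_7d29a1_pr, [CURV0] (helper33): THE LOWER BOUND `CVL29` at one tilt from what is left at the concrete frame: the cross terms with covariant
spectators (`CrLv33`), the change of the corrected scale (`SigL33`) and of the base window (`BasL33`).
-/

set_option autoImplicit false

namespace Pool.Agent.W_7d29a1_C0.Frm33

open MeasureTheory Filter Topology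
open Pool.Agent.W_7d29a1_H Pool.Agent.W_7d29a1_LB Pool.Agent.W_7d29a1_HK20
open Pool.Agent.W_7d29a1_C0 Pool.Agent.W_7d29a1_C0.Asm96
open Pool.Agent.W_7d29a1_h47 (EM Nondeg)
open Pool.Agent.W_7d29a1_HS (in_tilt)

variable {μ : Measure ℝ} [IsProbabilityMeasure μ]

/-- **The lower bound from what is left.** -/
theorem cvlV33 (hE : EM μ) (hN : Nondeg μ) {s : ℝ} {K : ℕ} (hK : 32 ≤ K)
    (h : ∀ a : ℝ, 0 < a → Stiff96 (EE μ s) a → ∀ Θ : ℝ, 0 < Θ → Θ ≤ 1 / 4 → KapLe96 (EE μ s) Θ → RegP46 μ s a Θ →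
      CrLv33 μ s K Θ ∧ SigL33 μ s K Θ ∧ BasL33 μ s K Θ) : CVL29 μ s := by
  obtain ⟨c₂, C, n₀, hin⟩ := in_tilt hE hN s
  refine cvl_mod96 hE hN fun a ha hst Θ hΘ hΘ4 hKap => ?_
  obtain ⟨h1, h2, h3⟩ := h a ha hst Θ hΘ hΘ4 hKap (regP46 hE hN s ha hΘ hst hKap)
  exact mod_ofV33 EE_mono (fun n => one_le_EE n) (kap_quarter96 hE hN s) hΘ (by linarith)
    (dlvV_of33 (lb_all hE hN s) hin (kap_quarter96 hE hN s) hK hΘ (by linarith) h1 h2 h3)

end Pool.Agent.W_7d29a1_C0.Frm33
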