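import Pool.Agent.W_7d29a1_C0.Blk18
import Pool.Agent.W_7d29a1_C0.Mod92B
import Pool.Agent.W_7d29a1_C0.Two63

/-!
CURV0 (MP_7d29a1_pr): THE FIELDS OF A PINNED BLOCK. `pm` is the mean of a functional `G` of the trajectory over the
pieces of path from `(c, x)` to `(m, y)`, tilted by `A`; it does not see the environment off the rows `c + 1 .. m - 1`. It is the
conditional mean given the path outside of `[c, m)` (`cE_pm`). Forward fields (the right end runs over the slab, the left end is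
pinned), backward fields (the left end runs over the slab, the right end is pinned), the sites of a slab, the path functionals
`Cf_cf`, `Cf_cb`, the derivative of the log weights along a site (`nq`, `wt_Wt`). (helper63)
-/

set_option autoImplicit false
set_option linter.unusedSectionVars false
set_option linter.unusedVariables false

namespace Pool.Agent.W_7d29a1_C0.FP63

open Finset MeasureTheory Pool.Agent.W_7d29a1_F Pool.Agent.W_7d29a1_X Pool.Agent.W_7d29a1_H
open Pool.Agent.W_7d29a1_C0.Mod92 Pool.Agent.W_7d29a1_C0.Blk18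
open Pool.Agent.W_7d29a1_Z74 (ZJ)
open Pool.W7d29a1.C0 (gz gm)
open Pool.W7d29a1.C0.VT31 (Mp Crs cE fz)
open Pool.W7d29a1.C0.H19 (BF Cf)
open Pool.W7d29a1.C0.R63 (BB DF)
open Pool.W7d29a1.C0.H41 (Wt)

noncomputable section

variable {μ : Measure ℝ} {s : ℝ} {N c m al be : ℕ} {Q : Finset (Finset ℕ)}

/-! ### The weight of a piece without its last row -/

/-- The weight of the piece `T` from `(c, x)` to the row `m`, without the site of the last row. -/
def pw (μ : Measure ℝ) (s : ℝ) (η : Env) (c m : ℕ) (x : ℤ) (T : Finset ℕ) : ℝ :=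
  Real.exp (s * (pos T (m - c) : ℝ) - ((m - c : ℕ) : ℝ) * lam μ s) *
    ∏ i ∈ range (m - c - 1), Real.exp (η ((i : ℤ) + 1 + c, pos T (i + 1) + x))

/-- The site of the last row. -/
def lst (η : Env) (c m : ℕ) (z : ℤ) : ℝ := if c < m then Real.exp (η ((m : ℤ), z)) else 1

theorem lst_pos (η : Env) (c m : ℕ) (z : ℤ) : 0 < lst η c m z := by
  unfold lst
  split_ifs
  · exact Real.exp_pos _
  · exact one_pos

theorem pw_pos (η : Env) (c m : ℕ) (x : ℤ) (T : Finset ℕ) : 0 < pw μ s η c m x T :=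
  mul_pos (Real.exp_pos _) (prod_pos fun _ _ => Real.exp_pos _)

theorem pth_pw (η : Env) (hcm : c ≤ m) (x : ℤ) (T : Finset ℕ) :
    pth μ s (sh ((c : ℤ), x) η) (m - c) T = pw μ s η c m x T * lst η c m (pos T (m - c) + x) := by
  unfold pth pw lst
  have e0 : ∀ (k : ℕ) (y : ℤ), sh ((c : ℤ), x) η ((k : ℤ) + 1, y) = η ((k : ℤ) + 1 + c, y + x) := fun k y => rfl
  simp only [e0]
  by_cases h : c < m
  · rw [if_pos h]
    obtain ⟨k, hk⟩ : ∃ k, m - c = k + 1 := ⟨m - c - 1, by omega⟩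
    have hk' : m - c - 1 = k := by omega
    rw [hk', hk, prod_range_succ]
    have e : ((k : ℤ) + 1 + c, pos T (k + 1) + x) = ((m : ℤ), pos T (k + 1) + x) := by
      refine Prod.ext ?_ rfl
      show (k : ℤ) + 1 + c = m
      omega
    rw [e]
    ring
  · rw [if_neg h]
    have hk : m - c = 0 := by omega
    rw [hk]
    simp

theorem pw_blind (η : Env) (x : ℤ) (T : Finset ℕ) {p : Pt} (hp : p.1 ≤ (c : ℤ) ∨ (m : ℤ) ≤ p.1) (t : ℝ) :
    pw μ s (Function.update η p t) c m x T = pw μ s η c m x T := by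
  unfold pw
  congr 1
  refine prod_congr rfl fun i hi => ?_
  rw [mem_range] at hi
  rw [Function.update_of_ne]
  intro h
  have h1 : (i : ℤ) + 1 + c = p.1 := congrArg Prod.fst h
  omega

theorem meas_pw (c m : ℕ) (x : ℤ) (T : Finset ℕ) : Measurable fun η : Env => pw μ s η c m x T := by
  unfold pw
  exact measurable_const.mul (Finset.measurable_prod _ fun i _ => (measurable_pi_apply _).exp)

/-! ### The mean over the pieces -/

/-- The trajectory of the piece `T` from `(c, x)`. -/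
def tr (c : ℕ) (x : ℤ) (T : Finset ℕ) : ℕ → ℤ := fun r => x + pos T (r - c)

/-- The sum over the pieces. -/
def nm (μ : Measure ℝ) (s : ℝ) (A G : Env → (ℕ → ℤ) → ℝ) (c m : ℕ) (x y : ℤ) (η : Env) : ℝ :=
  ∑ T ∈ (range (m - c)).powerset, if pos T (m - c) = y - x then
    pw μ s η c m x T * (Real.exp (A η (tr c x T)) * G η (tr c x T)) else 0

/-- **The mean over the pieces from `(c, x)` to `(m, y)`.** -/
def pm (μ : Measure ℝ) (s : ℝ) (A G : Env → (ℕ → ℤ) → ℝ) (c m : ℕ) (x y : ℤ) (η : Env) : ℝ :=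
  nm μ s A G c m x y η / nm μ s A (fun _ _ => 1) c m x y η

variable {A G : Env → (ℕ → ℤ) → ℝ}

theorem nm_one_nonneg (x y : ℤ) (η : Env) : 0 ≤ nm μ s A (fun _ _ => 1) c m x y η := by
  unfold nm
  refine sum_nonneg fun T _ => ?_
  split_ifs
  · rw [mul_one]
    exact mul_nonneg (pw_pos η c m x T).le (Real.exp_pos _).le
  · exact le_rfl

theorem abs_nm_le {D : ℝ} {η : Env} (hG : ∀ f, |G η f| ≤ D) (x y : ℤ) :
    |nm μ s A G c m x y η| ≤ D * nm μ s A (fun _ _ => 1) c m x y η := by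
  unfold nm
  rw [mul_sum]
  refine (abs_sum_le_sum_abs _ _).trans (sum_le_sum fun T _ => ?_)
  split_ifs
  · rw [abs_mul, abs_of_pos (pw_pos η c m x T), abs_mul, abs_of_pos (Real.exp_pos _), mul_one]
    have h := hG (tr c x T)
    have h2 := (pw_pos (μ := μ) (s := s) η c m x T).le
    have h3 := (Real.exp_pos (A η (tr c x T))).le
    calc _ ≤ pw μ s η c m x T * (Real.exp (A η (tr c x T)) * D) :=
          mul_le_mul_of_nonneg_left (mul_le_mul_of_nonneg_left h h3) h2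
      _ = _ := by ring
  · rw [abs_zero, mul_zero]

theorem abs_pm_le {D : ℝ} (hD : 0 ≤ D) {η : Env} (hG : ∀ f, |G η f| ≤ D) (x y : ℤ) :
    |pm μ s A G c m x y η| ≤ D := by
  unfold pm
  rw [abs_div, abs_of_nonneg (nm_one_nonneg x y η)]
  exact div_le_of_le_mul₀ (nm_one_nonneg x y η) hD (abs_nm_le hG x y)

theorem nm_blind {η : Env} {p : Pt} {t : ℝ} (hp : p.1 ≤ (c : ℤ) ∨ (m : ℤ) ≤ p.1)
    (hA : A (Function.update η p t) = A η) (hG : G (Function.update η p t) = G η) (x y : ℤ) :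
    nm μ s A G c m x y (Function.update η p t) = nm μ s A G c m x y η := by
  unfold nm
  refine sum_congr rfl fun T _ => ?_
  rw [pw_blind η x T hp t, hA, hG]

theorem pm_blind {η : Env} {p : Pt} {t : ℝ} (hp : p.1 ≤ (c : ℤ) ∨ (m : ℤ) ≤ p.1)
    (hA : A (Function.update η p t) = A η) (hG : G (Function.update η p t) = G η) (x y : ℤ) :
    pm μ s A G c m x y (Function.update η p t) = pm μ s A G c m x y η := by
  unfold pm
  rw [nm_blind hp hA hG, nm_blind hp hA rfl]

theorem meas_nm (hA : ∀ f, Measurable fun η => A η f) (hG : ∀ f, Measurable fun η => G η f) (x y : ℤ) :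
    Measurable (nm μ s A G c m x y) := by
  unfold nm
  refine Finset.measurable_sum _ fun T _ => ?_
  split_ifs
  · exact (meas_pw c m x T).mul ((hA _).exp.mul (hG _))
  · exact measurable_const

theorem meas_pm (hA : ∀ f, Measurable fun η => A η f) (hG : ∀ f, Measurable fun η => G η f) (x y : ℤ) :
    Measurable (pm μ s A G c m x y) :=
  (meas_nm hA hG x y).div (meas_nm hA (fun _ => measurable_const) x y)

/-! ### The conditional mean given the path outside of the block -/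

/-- A functional of the trajectory as a function of the path. -/
def at2 (A : Env → (ℕ → ℤ) → ℝ) (η : Env) (S : Px Q) : ℝ := A η (ps S)

/-- The tilted log weights. -/
def lA (μ : Measure ℝ) (s : ℝ) (N : ℕ) (Q : Finset (Finset ℕ)) (A : Env → (ℕ → ℤ) → ℝ) (η : Env) : Px Q → ℝ :=
  lw μ s η N Q + at2 A η

theorem exp_lA (η : Env) (S : Px Q) : Real.exp (lA μ s N Q A η S) =
    Real.exp (lw μ s η N Q S) * Real.exp (A η (pos S.1)) := by
  unfold lA
  rw [Pi.add_apply, Real.exp_add]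
  rfl

/-- The functional reads the trajectory only at the rows `al .. be`. -/
def Rd (al be : ℕ) (G : Env → (ℕ → ℤ) → ℝ) : Prop := ∀ (η : Env) (f g : ℕ → ℤ), (∀ r, al ≤ r → r ≤ be → f r = g r) → G η f = G η g

/-- The sum over a fibre, with the weights. -/
theorem sum_fib_w (hQ : Full N Q) (η : Env) (hcm : c ≤ m) (hm : m ≤ N) (S : Px Q) (F : Finset ℕ → ℝ) :
    (∑ S' : Px Q, if pJ c m S' = pJ c m S then Real.exp (lw μ s η N Q S') * F S'.1 else 0) =
      ko μ s η N c m S.1 * ∑ T ∈ (range (m - c)).powerset, if pos T (m - c) = ps S m - ps S c then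
        pth μ s (sh ((c : ℤ), ps S c) η) (m - c) T * F (spl c m S.1 T) else 0 := by
  have h1 : (∑ S' : Px Q, if pJ c m S' = pJ c m S then Real.exp (lw μ s η N Q S') * F S'.1 else 0) =
      ∑ S' ∈ Q, (if (S' \ Ico c m, (S' ∩ Ico c m).card) = (S.1 \ Ico c m, (S.1 ∩ Ico c m).card) then
        pth μ s η N S' * F S' else 0) := by
    rw [← sum_Px (Q := Q) fun S' => (if (S' \ Ico c m, (S' ∩ Ico c m).card) = (S.1 \ Ico c m, (S.1 ∩ Ico c m).card) then
        pth μ s η N S' * F S' else 0)]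
    refine sum_congr rfl fun S' _ => ?_
    unfold pJ
    rw [exp_lw]
  rw [h1, sum_fib hQ hcm hm S.2, mul_sum]
  refine sum_congr rfl fun T hT => ?_
  rw [mem_powerset] at hT
  unfold ps
  split_ifs with h
  · rw [pth_spl η hcm hm hT h]
    ring
  · rw [mul_zero]

theorem sum_fib_nm (hQ : Full N Q) (hA : Rd al be A) (hG : Rd al be G) (η : Env) (hcm : c ≤ m) (hal : c ≤ al) (hbe : be ≤ m)
    (hm : m ≤ N) (S : Px Q) :
    (∑ S' : Px Q, if pJ c m S' = pJ c m S then Real.exp (lA μ s N Q A η S') * G η (ps S') else 0) =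
      ko μ s η N c m S.1 * lst η c m (ps S m) * nm μ s A G c m (ps S c) (ps S m) η := by
  have h := sum_fib_w (μ := μ) (s := s) hQ η hcm hm S fun S' => Real.exp (A η (pos S')) * G η (pos S')
  have e1 : ∀ S' : Px Q, (if pJ c m S' = pJ c m S then Real.exp (lA μ s N Q A η S') * G η (ps S') else 0) =
      if pJ c m S' = pJ c m S then Real.exp (lw μ s η N Q S') *
        (Real.exp (A η (pos S'.1)) * G η (pos S'.1)) else 0 := fun S' => by
    split_ifs
    · rw [exp_lA, mul_assoc]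
      rfl
    · rfl
  rw [sum_congr rfl fun S' _ => e1 S', h, mul_assoc]
  congr 1
  unfold nm
  rw [mul_sum]
  refine sum_congr rfl fun T hT => ?_
  rw [mem_powerset] at hT
  split_ifs with h1
  · have a1 : ∀ r, al ≤ r → r ≤ be → pos (spl c m S.1 T) r = tr c (ps S c) T r := fun r h2 h3 => by
      have := pos_spl_mid (c := c) (d := m) (S := S.1) hT (k := r - c) (by omega)
      rwa [Nat.add_sub_cancel' (hal.trans h2)] at this
    have a3 : pos T (m - c) + ps S c = ps S m := by rw [h1]; ring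
    rw [pth_pw η hcm, hA η _ _ a1, hG η _ _ a1, a3]
    ring
  · rw [mul_zero]

/-- **The conditional mean given the path outside of `[c, m)`.** -/
theorem cE_pm (hQ : Full N Q) (hA : Rd al be A) (hG : Rd al be G) (η : Env) (hcm : c ≤ m) (hal : c ≤ al) (hbe : be ≤ m)
    (hm : m ≤ N) (S : Px Q) :
    cE (lA μ s N Q A η) (pJ c m) (at2 G η) S =
      pm μ s A G c m (ps S c) (ps S m) η := by
  have h1 := sum_fib_nm (μ := μ) (s := s) (A := A) (G := G) hQ hA hG η hcm hal hbe hm S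
  have h2 := sum_fib_nm (μ := μ) (s := s) (A := A) (G := fun _ _ => 1) hQ hA (fun _ _ _ _ => rfl) η hcm hal hbe hm S
  simp only [mul_one] at h2
  unfold cE fz pm
  have h0 : (∑ S' : Px Q, if pJ c m S' = pJ c m S then Real.exp (lA μ s N Q A η S') * at2 G η S' else 0) =
      ∑ S' : Px Q, if pJ c m S' = pJ c m S then Real.exp (lA μ s N Q A η S') * G η (ps S') else 0 :=
    rfl
  rw [h0, h1, h2, mul_div_mul_left _ _ (mul_pos (ko_pos η N c m S.1) (lst_pos η c m (ps S m))).ne']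

/-! ### The sites of a slab -/

/-- The sites of the rows `J`, positions `0 .. N`. -/
def sS (J : Finset ℕ) (N : ℕ) : Finset Pt := (J ×ˢ range (N + 1)).image fun q => (((q.1 : ℕ) : ℤ), ((q.2 : ℕ) : ℤ))

theorem mem_sS {J : Finset ℕ} {N : ℕ} {p : Pt} : p ∈ sS J N ↔ ∃ r ∈ J, ∃ z ≤ N, p = ((r : ℤ), (z : ℤ)) := by
  unfold sS
  rw [mem_image]
  constructor
  · rintro ⟨q, hq, rfl⟩
    rw [mem_product, mem_range] at hq
    exact ⟨q.1, hq.1, q.2, by omega, rfl⟩
  · rintro ⟨r, hr, z, hz, rfl⟩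
    exact ⟨(r, z), by rw [mem_product, mem_range]; exact ⟨hr, by omega⟩, rfl⟩

theorem sum_sS {J : Finset ℕ} {N : ℕ} (F : Pt → ℝ) :
    ∑ p ∈ sS J N, F p = ∑ r ∈ J, ∑ z ∈ range (N + 1), F ((r : ℤ), (z : ℤ)) := by
  unfold sS
  rw [sum_image, sum_product]
  intro q _ q' _ h
  have h1 : ((q.1 : ℕ) : ℤ) = ((q'.1 : ℕ) : ℤ) := congrArg Prod.fst h
  have h2 : ((q.2 : ℕ) : ℤ) = ((q'.2 : ℕ) : ℤ) := congrArg Prod.snd h
  exact Prod.ext (by exact_mod_cast h1) (by exact_mod_cast h2)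

theorem disj_sS {J J' : Finset ℕ} {N N' : ℕ} (h : Disjoint J J') : Disjoint (sS J N) (sS J' N') := by
  rw [disjoint_left]
  intro p h1 h2
  obtain ⟨r, hr, z, _, rfl⟩ := mem_sS.1 h1
  obtain ⟨r', hr', z', _, e⟩ := mem_sS.1 h2
  have h3 : (r : ℤ) = r' := congrArg Prod.fst e
  have h4 : r = r' := by exact_mod_cast h3
  exact (disjoint_left.1 h) hr (h4 ▸ hr')

/-! ### The derivative of the log weights along a site -/

/-- The path visits the site. -/
def nq (N : ℕ) (p : Pt) (S : Px Q) : ℝ := if (1 ≤ p.1 ∧ p.1 ≤ (N : ℤ)) ∧ ps S p.1.toNat = p.2 then 1 else 0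

theorem abs_nq (p : Pt) (S : Px Q) : |nq N p S| ≤ 1 := by
  unfold nq
  split_ifs
  · rw [abs_one]
  · rw [abs_zero]
    exact zero_le_one

theorem nq_row {r : ℕ} (h1 : 1 ≤ r) (hN : r ≤ N) (z : ℤ) (S : Px Q) : nq N ((r : ℤ), z) S = if ps S r = z then 1 else 0 := by
  unfold nq
  have e : (((r : ℤ), z) : Pt).1.toNat = r := Int.toNat_natCast r
  rw [e]
  have h3 : (1 : ℤ) ≤ r ∧ (r : ℤ) ≤ N := ⟨by exact_mod_cast h1, by exact_mod_cast hN⟩
  by_cases h : ps S r = z
  · rw [if_pos ⟨h3, h⟩, if_pos h]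
  · rw [if_neg fun h' => h h'.2, if_neg h]

theorem lw_eq (η : Env) (S : Px Q) : lw μ s η N Q S =
    (s * (pos S.1 N : ℝ) - N * lam μ s) + ∑ i ∈ range N, η ((i : ℤ) + 1, pos S.1 (i + 1)) := by
  unfold lw pth
  rw [Real.log_mul (Real.exp_pos _).ne' (prod_pos fun _ _ => Real.exp_pos _).ne', Real.log_exp, Real.log_prod
    (fun _ _ => (Real.exp_pos _).ne')]
  congr 1
  exact sum_congr rfl fun i _ => Real.log_exp _

theorem lw_der (η : Env) (p : Pt) (x : ℝ) :
    HasDerivAt (fun t => lw μ s (Function.update η p t) N Q) (nq N p) x := by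
  rw [hasDerivAt_pi]
  intro S
  simp only [lw_eq]
  have h1 : ∀ i ∈ range N, HasDerivAt (fun t => (Function.update η p t) ((i : ℤ) + 1, pos S.1 (i + 1)))
      (if ((i : ℤ) + 1, pos S.1 (i + 1)) = p then 1 else 0) x := fun i _ => by
    by_cases h : (((i : ℤ) + 1, pos S.1 (i + 1)) : Pt) = p
    · rw [if_pos h]
      simp only [h, Function.update_self]
      exact hasDerivAt_id x
    · rw [if_neg h]
      simp only [Function.update_of_ne h]
      exact hasDerivAt_const x _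
  refine ((HasDerivAt.fun_sum h1).const_add _).congr_deriv ?_
  unfold nq
  by_cases h2 : (1 ≤ p.1 ∧ p.1 ≤ (N : ℤ)) ∧ ps S p.1.toNat = p.2
  · rw [if_pos h2, sum_eq_single (p.1.toNat - 1)]
    · rw [if_pos]
      obtain ⟨⟨h3, h4⟩, h5⟩ := h2
      have e : p.1.toNat - 1 + 1 = p.1.toNat := by omega
      refine Prod.ext ?_ ?_
      · show ((p.1.toNat - 1 : ℕ) : ℤ) + 1 = p.1
        omega
      · show pos S.1 (p.1.toNat - 1 + 1) = p.2
        rw [e]
        exact h5
    · intro i _ hi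
      rw [if_neg]
      intro h
      have h6 : (i : ℤ) + 1 = p.1 := congrArg Prod.fst h
      exact hi (by omega)
    · intro h
      exfalso
      refine h ?_
      rw [mem_range]
      obtain ⟨⟨h3, h4⟩, _⟩ := h2
      omega
  · rw [if_neg h2]
    refine sum_eq_zero fun i hi => ?_
    rw [mem_range] at hi
    rw [if_neg]
    intro h
    refine h2 ?_
    have h6 : (i : ℤ) + 1 = p.1 := congrArg Prod.fst h
    have h7 : pos S.1 (i + 1) = p.2 := congrArg Prod.snd h
    have h8 : p.1.toNat = i + 1 := by omega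
    refine ⟨⟨by omega, by omega⟩, ?_⟩
    rw [h8]
    exact h7

/-- The log weights `lw + A`, `A` measurable and blind on the slab. -/
theorem Wt_lw {S : Finset Pt} {A : Env → Px Q → ℝ} (mA : Measurable A)
    (hA : ∀ p ∈ S, ∀ (η : Env) (x : ℝ), A (Function.update η p x) = A η) :
    Wt S (fun η => lw μ s η N Q + A η) (nq N) 1 where
  meas := (measurable_pi_lambda _ fun S => meas_lw S).add mA
  der := fun p hp η x => by
    have e : ∀ t : ℝ, A (Function.update η p t) = A η := fun t => hA p hp η t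
    simp only [e]
    exact (lw_der η p x).add_const _
  bd := fun p _ y => abs_nq p y

/-! ### The fields -/

variable {J : Finset ℕ} {D : ℝ}

/-- The forward field: the left end `(c, x)` is pinned. -/
def cf (μ : Measure ℝ) (s : ℝ) (A G : Env → (ℕ → ℤ) → ℝ) (c : ℕ) (x : ℤ) (J : Finset ℕ) (p : Pt) (η : Env) : ℝ :=
  (J.card : ℝ)⁻¹ * pm μ s A G c p.1.toNat x p.2 η

/-- The backward field: the right end `(d, x')` is pinned. -/
def cb (μ : Measure ℝ) (s : ℝ) (A G : Env → (ℕ → ℤ) → ℝ) (d : ℕ) (x' : ℤ) (J : Finset ℕ) (p : Pt) (η : Env) : ℝ :=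
  (J.card : ℝ)⁻¹ * pm μ s A G p.1.toNat d p.2 x' η

/-- A window function: it sees only the rows of the window. -/
structure WF (al be : ℕ) (D : ℝ) (G : Env → (ℕ → ℤ) → ℝ) : Prop where
  meas : ∀ f, Measurable fun η => G η f
  rd : Rd al be G
  blind : ∀ (η : Env) (p : Pt) (t : ℝ), (p.1 ≤ (al : ℤ) ∨ (be : ℤ) < p.1) → G (Function.update η p t) = G η
  bd : ∀ η f, |G η f| ≤ D

theorem abs_fld {D : ℝ} (hD : 0 ≤ D) (J : Finset ℕ) {u : ℝ} (hu : |u| ≤ D) : |(J.card : ℝ)⁻¹ * u| ≤ D / J.card := by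
  rw [abs_mul, abs_of_nonneg (inv_nonneg.2 (Nat.cast_nonneg _)), div_eq_inv_mul]
  exact mul_le_mul_of_nonneg_left hu (inv_nonneg.2 (Nat.cast_nonneg _))

/-- **The forward field is predictable.** -/
theorem bf_cf {D D' : ℝ} (hA : WF al be D' A) (hG : WF al be D G) (x : ℤ) (hJ : ∀ r ∈ J, be < r) (N : ℕ) :
    BF (sS J N) (cf μ s A G c x J) (D / J.card) := by
  have hD : 0 ≤ D := (abs_nonneg _).trans (hG.bd (fun _ => 0) fun _ => 0)
  refine ⟨fun p _ => (meas_pm hA.meas hG.meas x p.2).const_mul _, ?_, fun p _ η => abs_fld hD J (abs_pm_le hD (hG.bd η) _ _)⟩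
  intro p hp q hq hle η t
  obtain ⟨r, hr, z, hz, rfl⟩ := mem_sS.1 hp
  unfold cf
  have e : (((r : ℤ), (z : ℤ)) : Pt).1.toNat = r := Int.toNat_natCast r
  have h1 : (r : ℤ) ≤ q.1 := hle
  have h2 : (be : ℤ) < q.1 := by
    have := hJ r hr
    omega
  rw [e, pm_blind (Or.inr h1) (hA.blind η q t (Or.inr h2)) (hG.blind η q t (Or.inr h2))]

/-- **The backward field is predictable.** -/
theorem bb_cb {D D' : ℝ} (hA : WF al be D' A) (hG : WF al be D G) {d : ℕ} (x' : ℤ) (hJ : ∀ r ∈ J, r ≤ al) (N : ℕ) :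
    BB (sS J N) (cb μ s A G d x' J) (D / J.card) := by
  have hD : 0 ≤ D := (abs_nonneg _).trans (hG.bd (fun _ => 0) fun _ => 0)
  refine ⟨fun p _ => (meas_pm hA.meas hG.meas p.2 x').const_mul _, ?_, fun p _ η => abs_fld hD J (abs_pm_le hD (hG.bd η) _ _)⟩
  intro p hp q hq hle η t
  obtain ⟨r, hr, z, hz, rfl⟩ := mem_sS.1 hp
  unfold cb
  have e : (((r : ℤ), (z : ℤ)) : Pt).1.toNat = r := Int.toNat_natCast r
  have h1 : q.1 ≤ (r : ℤ) := hle
  have h2 : q.1 ≤ (al : ℤ) := by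
    have := hJ r hr
    omega
  rw [e, pm_blind (Or.inl h1) (hA.blind η q t (Or.inl h2)) (hG.blind η q t (Or.inl h2))]

theorem df_cf {D D' : ℝ} (hA : WF al be D' A) (hG : WF al be D G) (x : ℤ) (hJ : ∀ r ∈ J, be < r) (N : ℕ) :
    DF false (sS J N) (cf μ s A G c x J) (D / J.card) := Pool.W7d29a1.C0.R63.DF.fwd (bf_cf hA hG x hJ N)

theorem df_cb {D D' : ℝ} (hA : WF al be D' A) (hG : WF al be D G) {d : ℕ} (x' : ℤ) (hJ : ∀ r ∈ J, r ≤ al) (N : ℕ) :
    DF true (sS J N) (cb μ s A G d x' J) (D / J.card) := Pool.W7d29a1.C0.R63.DF.bwd (bb_cb hA hG x' hJ N)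

/-- The forward field does not see the rows from its own row on, nor the rows up to `c`. -/
theorem cf_blind {D D' : ℝ} (hA : WF al be D' A) (hG : WF al be D G) (x : ℤ) (hJ : ∀ r ∈ J, be < r) {p q : Pt}
    (hp : p ∈ sS J N) (hq : (be : ℤ) < q.1 ∧ p.1 ≤ q.1 ∨ q.1 ≤ (c : ℤ) ∧ c ≤ al) (η : Env) (t : ℝ) :
    cf μ s A G c x J p (Function.update η q t) = cf μ s A G c x J p η := by
  obtain ⟨r, hr, z, hz, rfl⟩ := mem_sS.1 hp
  unfold cf
  have e : (((r : ℤ), (z : ℤ)) : Pt).1.toNat = r := Int.toNat_natCast r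
  rw [e]
  rcases hq with ⟨h1, h2⟩ | ⟨h1, h2⟩
  · rw [pm_blind (Or.inr h2) (hA.blind η q t (Or.inr h1)) (hG.blind η q t (Or.inr h1))]
  · have h3 : q.1 ≤ (al : ℤ) := by omega
    rw [pm_blind (Or.inl h1) (hA.blind η q t (Or.inl h3)) (hG.blind η q t (Or.inl h3))]

/-- The backward field does not see the rows up to its own row, nor the rows from `d` on. -/
theorem cb_blind {D D' : ℝ} (hA : WF al be D' A) (hG : WF al be D G) {d : ℕ} (x' : ℤ) (hJ : ∀ r ∈ J, r ≤ al) {p q : Pt}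
    (hp : p ∈ sS J N) (hq : q.1 ≤ (al : ℤ) ∧ q.1 ≤ p.1 ∨ (d : ℤ) ≤ q.1 ∧ be < d) (η : Env) (t : ℝ) :
    cb μ s A G d x' J p (Function.update η q t) = cb μ s A G d x' J p η := by
  obtain ⟨r, hr, z, hz, rfl⟩ := mem_sS.1 hp
  unfold cb
  have e : (((r : ℤ), (z : ℤ)) : Pt).1.toNat = r := Int.toNat_natCast r
  rw [e]
  rcases hq with ⟨h1, h2⟩ | ⟨h1, h2⟩
  · rw [pm_blind (Or.inl h2) (hA.blind η q t (Or.inl h1)) (hG.blind η q t (Or.inl h1))]
  · have h3 : (be : ℤ) < q.1 := by omega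
    rw [pm_blind (Or.inr h1) (hA.blind η q t (Or.inr h3)) (hG.blind η q t (Or.inr h3))]

/-! ### The path functionals -/

theorem Cf_row {N : ℕ} (hQ : Full N Q) (hJ : ∀ r ∈ J, 1 ≤ r ∧ r ≤ N) (cc : Pt → Env → ℝ) (η : Env) (S : Px Q) :
    Cf (sS J N) cc (nq N) η S = ∑ r ∈ J, cc ((r : ℤ), ps S r) η := by
  unfold Cf
  rw [Finset.sum_apply, sum_sS]
  refine sum_congr rfl fun r hr => ?_
  obtain ⟨h1, h2⟩ := hJ r hr
  have h3 := ps_nonneg S r
  have h4 := ps_le S r
  rw [sum_eq_single (ps S r).toNat]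
  · rw [Pi.smul_apply, smul_eq_mul, nq_row h1 h2, if_pos (Int.toNat_of_nonneg h3).symm, mul_one, Int.toNat_of_nonneg h3]
  · intro z _ hz
    rw [Pi.smul_apply, smul_eq_mul, nq_row h1 h2, if_neg, mul_zero]
    intro h
    exact hz (by omega)
  · intro h
    exfalso
    refine h ?_
    rw [mem_range]
    omega

/-- **The path functional of the forward field** on the paths through `(c, x)`. -/
theorem Cf_cf (hQ : Full N Q) (hA : Rd al be A) (hG : Rd al be G) (hal : c ≤ al) (hab : al ≤ be)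
    (hJ : ∀ r ∈ J, be < r ∧ r ≤ N) (η : Env) (S : Px Q) :
    Cf (sS J N) (cf μ s A G c (ps S c) J) (nq N) η S =
      (J.card : ℝ)⁻¹ * ∑ r ∈ J, cE (lA μ s N Q A η) (pJ c r) (at2 G η) S := by
  rw [Cf_row hQ (fun r hr => ⟨by have := (hJ r hr).1; omega, (hJ r hr).2⟩), mul_sum]
  refine sum_congr rfl fun r hr => ?_
  rw [cE_pm hQ hA hG η (by have := (hJ r hr).1; omega) hal (hJ r hr).1.le (hJ r hr).2]
  unfold cf
  rw [show (((r : ℤ), ps S r) : Pt).1.toNat = r from Int.toNat_natCast r]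

/-- **The path functional of the backward field** on the paths through `(d, x')`. -/
theorem Cf_cb {d : ℕ} (hQ : Full N Q) (hA : Rd al be A) (hG : Rd al be G) (hab : al ≤ be) (hbe : be ≤ d) (hd : d ≤ N)
    (hJ : ∀ r ∈ J, 1 ≤ r ∧ r ≤ al) (η : Env) (S : Px Q) :
    Cf (sS J N) (cb μ s A G d (ps S d) J) (nq N) η S =
      (J.card : ℝ)⁻¹ * ∑ r ∈ J, cE (lA μ s N Q A η) (pJ r d) (at2 G η) S := by
  rw [Cf_row hQ (fun r hr => ⟨(hJ r hr).1, by have := (hJ r hr).2; omega⟩), mul_sum]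
  refine sum_congr rfl fun r hr => ?_
  rw [cE_pm hQ hA hG η (by have := (hJ r hr).2; omega) (hJ r hr).2 hbe hd]
  unfold cb
  rw [show (((r : ℤ), ps S r) : Pt).1.toNat = r from Int.toNat_natCast r]

/-! ### Closure of the window functionals -/

theorem WF.mono {D D' : ℝ} {al' be' : ℕ} (h : WF al be D G) (ha : al' ≤ al) (hb : be ≤ be') (hD : D ≤ D') : WF al' be' D' G where
  meas := h.meas
  rd := fun η f g hfg => h.rd η f g fun r h1 h2 => hfg r (ha.trans h1) (h2.trans hb)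
  blind := fun η p t hp => h.blind η p t (hp.imp (fun h1 => by omega) fun h1 => by omega)
  bd := fun η f => (h.bd η f).trans hD

theorem WF.add {D D' : ℝ} (h : WF al be D G) (h' : WF al be D' A) : WF al be (D + D') (fun η f => G η f + A η f) where
  meas := fun f => (h.meas f).add (h'.meas f)
  rd := fun η f g hfg => by
    beta_reduce
    rw [h.rd η f g hfg, h'.rd η f g hfg]
  blind := fun η p t hp => by rw [h.blind η p t hp, h'.blind η p t hp]
  bd := fun η f => (abs_add_le _ _).trans (add_le_add (h.bd η f) (h'.bd η f))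

theorem WF.smul {D : ℝ} (h : WF al be D G) (a : ℝ) : WF al be (|a| * D) (fun η f => a * G η f) where
  meas := fun f => (h.meas f).const_mul a
  rd := fun η f g hfg => by
    beta_reduce
    rw [h.rd η f g hfg]
  blind := fun η p t hp => by rw [h.blind η p t hp]
  bd := fun η f => by
    rw [abs_mul]
    exact mul_le_mul_of_nonneg_left (h.bd η f) (abs_nonneg a)

theorem WF.mul {D D' : ℝ} (h : WF al be D G) (h' : WF al be D' A) : WF al be (D * D') (fun η f => G η f * A η f) where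
  meas := fun f => (h.meas f).mul (h'.meas f)
  rd := fun η f g hfg => by
    beta_reduce
    rw [h.rd η f g hfg, h'.rd η f g hfg]
  blind := fun η p t hp => by rw [h.blind η p t hp, h'.blind η p t hp]
  bd := fun η f => by
    rw [abs_mul]
    exact mul_le_mul (h.bd η f) (h'.bd η f) (abs_nonneg _) ((abs_nonneg _).trans (h.bd η f))

theorem WF.zero : WF al be 0 (fun _ _ => 0) :=
  ⟨fun _ => measurable_const, fun _ _ _ _ => rfl, fun _ _ _ _ => rfl, fun _ _ => by rw [abs_zero]⟩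

/-! ### The half responses -/

theorem W_blind (η : Env) (a : Pt) (n : ℕ) (y : ℤ) {p : Pt} (hp : p.1 ≤ a.1 ∨ a.1 + n < p.1) (t : ℝ) :
    W μ s (Function.update η p t) a n y = W μ s η a n y := by
  have e : ∀ ζ : Env, W μ s ζ a n y = W μ s (sh a ζ) 0 n y := fun ζ => by rw [W_sh, zero_add]
  rw [e, e η, ← Mt_one, ← Mt_one]
  unfold Mt pth
  refine sum_congr rfl fun T _ => ?_
  have e2 : ∏ i ∈ range n, Real.exp (sh a (Function.update η p t) ((i : ℤ) + 1, pos T (i + 1))) =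
      ∏ i ∈ range n, Real.exp (sh a η ((i : ℤ) + 1, pos T (i + 1))) := by
    refine prod_congr rfl fun i hi => ?_
    rw [mem_range] at hi
    unfold sh
    rw [Function.update_of_ne]
    intro h
    have h1 : (i : ℤ) + 1 + a.1 = p.1 := congrArg Prod.fst h
    omega
  rw [e2]

theorem ZJ_blind (η : Env) (a : Pt) (k l : ℕ) (v y : ℤ) {p : Pt} (hp : p.1 ≤ a.1 ∨ a.1 + k + l < p.1) (t : ℝ) :
    ZJ μ s (Function.update η p t) a k l v y = ZJ μ s η a k l v y := by
  unfold ZJ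
  refine sum_congr rfl fun z _ => ?_
  have h1 : p.1 ≤ a.1 ∨ a.1 + k < p.1 := hp.imp id fun h => by omega
  have h2 : p.1 ≤ a.1 + k ∨ a.1 + k + l < p.1 := hp.imp (fun h => by omega) id
  rw [W_blind η a k z h1, W_blind η (a.1 + k, a.2 + z + v) l _ h2]

theorem gw_blind (η : Env) (δ B : ℝ) (a : ℤ) {c l k : ℕ} (hk : k ≤ l) (x y : ℤ) {p : Pt}
    (hp : p.1 ≤ (c : ℤ) ∨ ((c + l : ℕ) : ℤ) < p.1) (t : ℝ) :
    gw μ s (Function.update η p t) δ B a c l k x y = gw μ s η δ B a c l k x y := by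
  unfold gw lk
  have h1 : p.1 ≤ (c : ℤ) ∨ (c : ℤ) + k + (l - k : ℕ) < p.1 := hp.imp id fun h => by push_cast [Nat.cast_sub hk] at h ⊢; omega
  have h2 : p.1 ≤ (c : ℤ) ∨ (c : ℤ) + l < p.1 := hp.imp id fun h => by push_cast at h; omega
  rw [ZJ_blind η ((c : ℤ), x) k (l - k) (-a) (y - x) h1, W_blind η ((c : ℤ), x) l (y - x) h2]

/-- The half response of the row `j` at the base `b` as a functional of the trajectory. -/
def gf (μ : Measure ℝ) (s : ℝ) (δ B : ℝ) (b j : ℕ) (a : ℤ) (η : Env) (f : ℕ → ℤ) : ℝ :=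
  gw μ s η δ B a (j - b) (j + b - (j - b)) (j - (j - b)) (f (j - b)) (f (j + b))

theorem at2_gf (η : Env) (δ B : ℝ) (b j : ℕ) (a : ℤ) : at2 (gf μ s δ B b j a) η = gj (Q := Q) μ s η δ B b j a := rfl

/-- **The half response is a window functional of its (centred) window.** -/
theorem wf_gf {B : ℝ} (hB : 0 ≤ B) (δ : ℝ) (b j : ℕ) {a : ℤ} (ha : |(a : ℝ)| ≤ 1) :
    WF (j - b) (j + b) (B / 2) (gf μ s δ B b j a) where
  meas := fun f => meas_gw δ B a _ _ _ _ _
  rd := fun η f g hfg => by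
    unfold gf
    rw [hfg _ le_rfl (by omega), hfg _ (by omega) le_rfl]
  blind := fun η p t hp => by
    funext f
    refine gw_blind η δ B a (by omega) _ _ ?_ t
    rw [show j - b + (j + b - (j - b)) = j + b by omega]
    exact hp
  bd := fun η f => abs_gw η hB ha _ _ _ _ _

/-- The tilt of the measure with the kick of the row `j` at `t`. -/
def tf (μ : Measure ℝ) (s : ℝ) (δ B : ℝ) (b j : ℕ) (a : ℤ) (t : ℝ) (η : Env) (f : ℕ → ℤ) : ℝ := (t - a) * gf μ s δ B b j a η f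

theorem lA_tf (η : Env) (δ B : ℝ) (b j : ℕ) (a : ℤ) (t : ℝ) :
    lA μ s N Q (tf μ s δ B b j a t) η = wt μ s η N Q δ B b j a t := rfl

theorem wf_tf {B : ℝ} (hB : 0 ≤ B) (δ : ℝ) (b j : ℕ) {a : ℤ} (ha : |(a : ℝ)| ≤ 1) (t : ℝ) :
    WF (j - b) (j + b) (|t - a| * (B / 2)) (tf μ s δ B b j a t) := (wf_gf hB δ b j ha).smul (t - a)

theorem at2_meas {D : ℝ} (h : WF al be D G) : Measurable fun η => at2 (Q := Q) G η :=
  measurable_pi_lambda _ fun S => h.meas (ps S)

/-- **The weights `lw + A`** for a window functional `A`, on the sites off its rows. -/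
theorem Wt_lA {D : ℝ} (h : WF al be D A) {S : Finset Pt} (hS : ∀ p ∈ S, p.1 ≤ (al : ℤ) ∨ (be : ℤ) < p.1) :
    Wt S (fun η => lA μ s N Q A η) (nq N) 1 :=
  Wt_lw (at2_meas h) fun p hp η x => by
    unfold at2
    rw [h.blind η p x (hS p hp)]

/-- The measure with the kick of the row `j` at `t`. -/
theorem Wt_wt {B : ℝ} (hB : 0 ≤ B) (δ : ℝ) (b j : ℕ) {a : ℤ} (ha : |(a : ℝ)| ≤ 1) (t : ℝ) {S : Finset Pt}
    (hS : ∀ p ∈ S, p.1 ≤ ((j - b : ℕ) : ℤ) ∨ ((j + b : ℕ) : ℤ) < p.1) :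
    Wt S (fun η => wt μ s η N Q δ B b j a t) (nq N) 1 :=
  Wt_lA (μ := μ) (s := s) (N := N) (Q := Q) (wf_tf (μ := μ) (s := s) hB δ b j ha t) hS

/-- **The slab field of `g_j` at the tilt `t`, forward**, on the paths through `(c, x)`. -/
theorem Cf_wt {B : ℝ} (hB : 0 ≤ B) (δ : ℝ) (b j : ℕ) {a : ℤ} (ha : |(a : ℝ)| ≤ 1) (t : ℝ)
    (hQ : Full N Q) (hc : c ≤ j - b) (hJ : ∀ r ∈ J, j + b < r ∧ r ≤ N) (η : Env) (S : Px Q) :
    Cf (sS J N) (cf μ s (tf μ s δ B b j a t) (gf μ s δ B b j a) c (ps S c) J) (nq N) η S =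
      (J.card : ℝ)⁻¹ * ∑ r ∈ J, cE (wt μ s η N Q δ B b j a t) (pJ c r) (gj μ s η δ B b j a) S :=
  Cf_cf hQ (wf_tf (μ := μ) (s := s) hB δ b j ha t).rd (wf_gf (μ := μ) (s := s) hB δ b j ha).rd hc (by omega) hJ η S

/-- **The slab field of `g_j` at the tilt `t`, backward**, on the paths through `(d, x')`. -/
theorem Cf_wt_back {B : ℝ} (hB : 0 ≤ B) (δ : ℝ) (b j : ℕ) {a : ℤ} (ha : |(a : ℝ)| ≤ 1) (t : ℝ) {d : ℕ}
    (hQ : Full N Q) (hd : j + b ≤ d) (hN : d ≤ N) (hJ : ∀ r ∈ J, 1 ≤ r ∧ r ≤ j - b) (η : Env) (S : Px Q) :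
    Cf (sS J N) (cb μ s (tf μ s δ B b j a t) (gf μ s δ B b j a) d (ps S d) J) (nq N) η S =
      (J.card : ℝ)⁻¹ * ∑ r ∈ J, cE (wt μ s η N Q δ B b j a t) (pJ r d) (gj μ s η δ B b j a) S :=
  Cf_cb hQ (wf_tf (μ := μ) (s := s) hB δ b j ha t).rd (wf_gf (μ := μ) (s := s) hB δ b j ha).rd (by omega) hd hN hJ η S

end

end Pool.Agent.W_7d29a1_C0.FP63
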