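import Pool.Agent.W_7d29a1_C0.Quasi27

/-!
CURV0 (MP_7d29a1_pr), section SM: quasi-invariance of `law μ` under an adapted shift of finitely many sites, in the explicit
form `E F = E F (Sh η) exp (UU η)`, with all the moments of the weight. (helper32)
-/

set_option autoImplicit false

namespace Pool.Agent.W_7d29a1_C0.Q32

open MeasureTheory ProbabilityTheory Filter Topology
open scoped ENNReal
open Pool.Agent.W_7d29a1_F
open Pool.W7d29a1.C0.H27 (Sh PredR Sh_meas Sh_in Sh_out)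

noncomputable section

/-- The class of laws: `exp (u a x)` is the density of the shift by `a`, with gaussian moments of all orders `|k a| ≤ θ`. -/
structure WL (μ : Measure ℝ) (u : ℝ → ℝ → ℝ) (C θ : ℝ) : Prop where
  meas : Measurable (Function.uncurry u)
  hC : 0 ≤ C
  hθ : 0 < θ
  shift : ∀ a, |a| ≤ θ → ∀ F : ℝ → ℝ≥0∞, Measurable F →
    ∫⁻ x, F (x + a) * ENNReal.ofReal (Real.exp (u a x)) ∂μ = ∫⁻ x, F x ∂μ
  mom : ∀ a k : ℝ, |a| ≤ θ → |k * a| ≤ θ →
    ∫⁻ x, ENNReal.ofReal (Real.exp (k * u a x)) ∂μ ≤ ENNReal.ofReal (Real.exp (C * (k ^ 2 + 1) * a ^ 2))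

/-- The logarithm of the weight. -/
def UU (u : ℝ → ℝ → ℝ) (S : Finset Pt) (φ : Pt → Env → ℝ) (η : Env) : ℝ := ∑ p ∈ S, u (φ p η) (η p)

variable {μ : Measure ℝ} {u : ℝ → ℝ → ℝ} {C θ : ℝ}

theorem UU_meas (h : Measurable (Function.uncurry u)) {S : Finset Pt} {φ : Pt → Env → ℝ}
    (hm : ∀ p ∈ S, Measurable (φ p)) : Measurable (UU u S φ) := by
  unfold UU
  refine Finset.measurable_sum _ fun p hp => ?_
  exact h.comp ((hm p hp).prodMk (measurable_pi_apply p))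

theorem predR_mono {ρ : Pt → ℤ} {S T : Finset Pt} {φ : Pt → Env → ℝ} (h : PredR ρ T φ) (hST : S ⊆ T) : PredR ρ S φ :=
  fun p hp q hq => h p (hST hp) q (hST hq)

theorem Sh_insert {ρ : Pt → ℤ} {S : Finset Pt} {φ : Pt → Env → ℝ} {a : Pt} (ha : a ∉ S)
    (hmax : ∀ p ∈ S, ρ p ≤ ρ a) (hc : PredR ρ (insert a S) φ) (η : Env) (x : ℝ) :
    Sh (insert a S) φ (Function.update η a x) = Function.update (Sh S φ η) a (x + φ a η) := by
  funext q
  have hA : a ∈ insert a S := Finset.mem_insert_self _ _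
  by_cases hqa : q = a
  · subst hqa
    rw [Function.update_self]
    simp only [Sh, hA, if_true, Function.update_self]
    rw [hc q hA q hA le_rfl]
  · rw [Function.update_of_ne hqa]
    by_cases hq : q ∈ S
    · have hq' : q ∈ insert a S := Finset.mem_insert_of_mem hq
      simp only [Sh, hq, hq', if_true]
      rw [Function.update_of_ne hqa, hc q hq' a hA (hmax q hq)]
    · have hq' : q ∉ insert a S := by simp [hqa, hq]
      simp only [Sh, hq, hq', if_false]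
      rw [Function.update_of_ne hqa]

theorem UU_insert {ρ : Pt → ℤ} {S : Finset Pt} {φ : Pt → Env → ℝ} {a : Pt} (ha : a ∉ S)
    (hmax : ∀ p ∈ S, ρ p ≤ ρ a) (hc : PredR ρ (insert a S) φ) (η : Env) (x : ℝ) :
    UU u (insert a S) φ (Function.update η a x) = UU u S φ η + u (φ a η) x := by
  have hA : a ∈ insert a S := Finset.mem_insert_self _ _
  unfold UU
  rw [Finset.sum_insert ha, Function.update_self, hc a hA a hA le_rfl, add_comm]
  congr 1
  refine Finset.sum_congr rfl fun p hp => ?_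
  have hp' : p ∈ insert a S := Finset.mem_insert_of_mem hp
  rw [Function.update_of_ne (by rintro rfl; exact ha hp), hc p hp' a hA (hmax p hp)]

variable [IsProbabilityMeasure μ]

theorem lint_upd (a : Pt) {F : Env → ℝ≥0∞} (hF : Measurable F) :
    ∫⁻ η, F η ∂(law μ) = ∫⁻ η, ∫⁻ x, F (Function.update η a x) ∂μ ∂(law μ) := by
  have hu := W_7d29a1_Z17.mp_upd (μ := μ) a
  rw [← hu.lintegral_comp hF]
  exact lintegral_prod (fun q : Env × ℝ => F (Function.update q.1 a q.2)) (hF.comp hu.measurable).aemeasurable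

theorem meas_upd_int (a : Pt) {F : Env → ℝ≥0∞} (hF : Measurable F) :
    Measurable fun η : Env => ∫⁻ x, F (Function.update η a x) ∂μ := by
  have hu := W_7d29a1_Z17.mp_upd (μ := μ) a
  exact (hF.comp hu.measurable).lintegral_prod_right'

/-- **(Q0)** The exact change of variables. -/
theorem q0 (h : WL μ u C θ) (ρ : Pt → ℤ) (S : Finset Pt) (φ : Pt → Env → ℝ) (hm : ∀ p ∈ S, Measurable (φ p))
    (hc : PredR ρ S φ) (hb : ∀ p ∈ S, ∀ η, |φ p η| ≤ θ) (F : Env → ℝ≥0∞) (hF : Measurable F) :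
    ∫⁻ η, F (Sh S φ η) * ENNReal.ofReal (Real.exp (UU u S φ η)) ∂(law μ) = ∫⁻ η, F η ∂(law μ) := by
  induction S using Finset.induction_on_max_value ρ generalizing F with
  | empty =>
    refine lintegral_congr fun η => ?_
    have : Sh ∅ φ η = η := by funext q; simp [Sh]
    rw [this]
    simp [UU]
  | insert a S ha hmax ih =>
    have hA : a ∈ insert a S := Finset.mem_insert_self _ _
    have hS : ∀ p ∈ S, p ∈ insert a S := fun p hp => Finset.mem_insert_of_mem hp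
    have hG : Measurable fun η : Env => F (Sh (insert a S) φ η) *
        ENNReal.ofReal (Real.exp (UU u (insert a S) φ η)) :=
      (hF.comp (Sh_meas hm)).mul (UU_meas h.meas hm).exp.ennreal_ofReal
    set H : Env → ℝ≥0∞ := fun ζ => ∫⁻ x, F (Function.update ζ a x) ∂μ with hH
    have hHm : Measurable H := meas_upd_int a hF
    calc ∫⁻ η, F (Sh (insert a S) φ η) * ENNReal.ofReal (Real.exp (UU u (insert a S) φ η)) ∂(law μ)
        = ∫⁻ η, ∫⁻ x, F (Sh (insert a S) φ (Function.update η a x)) *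
            ENNReal.ofReal (Real.exp (UU u (insert a S) φ (Function.update η a x))) ∂μ ∂(law μ) := lint_upd a hG
      _ = ∫⁻ η, H (Sh S φ η) * ENNReal.ofReal (Real.exp (UU u S φ η)) ∂(law μ) := by
          refine lintegral_congr fun η => ?_
          have e1 : ∀ x, F (Sh (insert a S) φ (Function.update η a x)) *
              ENNReal.ofReal (Real.exp (UU u (insert a S) φ (Function.update η a x))) =
              ENNReal.ofReal (Real.exp (UU u S φ η)) * (F (Function.update (Sh S φ η) a (x + φ a η)) *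
                ENNReal.ofReal (Real.exp (u (φ a η) x))) := fun x => by
            rw [Sh_insert ha hmax hc, UU_insert ha hmax hc, Real.exp_add, ENNReal.ofReal_mul (Real.exp_pos _).le]
            ring
          simp_rw [e1]
          have hu' : Measurable fun x : ℝ => F (Function.update (Sh S φ η) a x) :=
            hF.comp (measurable_update (Sh S φ η))
          have m2 : Measurable fun x : ℝ => u (φ a η) x := h.meas.comp (measurable_const.prodMk measurable_id)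
          have m3 : Measurable fun x : ℝ => F (Function.update (Sh S φ η) a (x + φ a η)) *
              ENNReal.ofReal (Real.exp (u (φ a η) x)) :=
            (hu'.comp (measurable_id.add_const (φ a η))).mul m2.exp.ennreal_ofReal
          rw [lintegral_const_mul _ m3,
            h.shift (φ a η) (hb a hA η) (fun x => F (Function.update (Sh S φ η) a x)) hu', mul_comm]
      _ = ∫⁻ ζ, H ζ ∂(law μ) := ih (fun p hp => hm p (hS p hp)) (predR_mono hc fun p hp => hS p hp)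
          (fun p hp => hb p (hS p hp)) H hHm
      _ = ∫⁻ η, F η ∂(law μ) := (lint_upd a hF).symm

/-- **(Q1)** The exponential moments of the logarithm of the weight. -/
theorem q1 (h : WL μ u C θ) (ρ : Pt → ℤ) (S : Finset Pt) (φ : Pt → Env → ℝ) (hm : ∀ p ∈ S, Measurable (φ p))
    (hc : PredR ρ S φ) {k : ℝ} (hb : ∀ p ∈ S, ∀ η, |φ p η| ≤ θ) (hk : ∀ p ∈ S, ∀ η, |k * φ p η| ≤ θ) :
    ∫⁻ η, ENNReal.ofReal (Real.exp (k * UU u S φ η - C * (k ^ 2 + 1) * ∑ p ∈ S, φ p η ^ 2)) ∂(law μ) ≤ 1 := by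
  induction S using Finset.induction_on_max_value ρ with
  | empty => simp [UU]
  | insert a S ha hmax ih =>
    have hA : a ∈ insert a S := Finset.mem_insert_self _ _
    have hS : ∀ p ∈ S, p ∈ insert a S := fun p hp => Finset.mem_insert_of_mem hp
    have ih' := ih (fun p hp => hm p (hS p hp)) (predR_mono hc fun p hp => hS p hp) (fun p hp => hb p (hS p hp))
      (fun p hp => hk p (hS p hp))
    have hG : Measurable fun η : Env => ENNReal.ofReal (Real.exp (k * UU u (insert a S) φ η -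
        C * (k ^ 2 + 1) * ∑ p ∈ insert a S, φ p η ^ 2)) := by
      refine (((UU_meas h.meas hm).const_mul k).sub ?_).exp.ennreal_ofReal
      exact (Finset.measurable_sum _ fun p hp => (hm p hp).pow_const 2).const_mul _
    rw [lint_upd a hG]
    refine le_trans (lintegral_mono fun η => ?_) ih'
    have e1 : ∀ x, k * UU u (insert a S) φ (Function.update η a x) -
        C * (k ^ 2 + 1) * ∑ p ∈ insert a S, φ p (Function.update η a x) ^ 2 =
        (k * UU u S φ η - C * (k ^ 2 + 1) * ∑ p ∈ S, φ p η ^ 2 - C * (k ^ 2 + 1) * φ a η ^ 2) +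
          k * u (φ a η) x := fun x => by
      rw [UU_insert ha hmax hc, Finset.sum_insert ha, hc a hA a hA le_rfl]
      have : ∑ p ∈ S, φ p (Function.update η a x) ^ 2 = ∑ p ∈ S, φ p η ^ 2 :=
        Finset.sum_congr rfl fun p hp => by rw [hc p (hS p hp) a hA (hmax p hp)]
      rw [this]
      ring
    simp_rw [e1, Real.exp_add, ENNReal.ofReal_mul (Real.exp_pos _).le]
    have m2 : Measurable fun x : ℝ => u (φ a η) x := h.meas.comp (measurable_const.prodMk measurable_id)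
    rw [lintegral_const_mul _ (m2.const_mul k).exp.ennreal_ofReal]
    calc _ ≤ ENNReal.ofReal (Real.exp (k * UU u S φ η - C * (k ^ 2 + 1) * ∑ p ∈ S, φ p η ^ 2 -
              C * (k ^ 2 + 1) * φ a η ^ 2)) * ENNReal.ofReal (Real.exp (C * (k ^ 2 + 1) * φ a η ^ 2)) := by
            gcongr
            exact h.mom _ _ (hb a hA η) (hk a hA η)
      _ = _ := by
            rw [← ENNReal.ofReal_mul (Real.exp_pos _).le, ← Real.exp_add]
            ring_nf

/-- (Q1) with the absolute value. -/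
theorem q1_abs (h : WL μ u C θ) (ρ : Pt → ℤ) (S : Finset Pt) (φ : Pt → Env → ℝ) (hm : ∀ p ∈ S, Measurable (φ p))
    (hc : PredR ρ S φ) {k B : ℝ} (hk0 : 0 ≤ k) (hb : ∀ p ∈ S, ∀ η, |φ p η| ≤ θ)
    (hk : ∀ p ∈ S, ∀ η, k * |φ p η| ≤ θ) (hB : ∀ η, ∑ p ∈ S, φ p η ^ 2 ≤ B) :
    ∫⁻ η, ENNReal.ofReal (Real.exp (k * |UU u S φ η|)) ∂(law μ) ≤
      ENNReal.ofReal (2 * Real.exp (C * (k ^ 2 + 1) * B)) := by
  have key : ∀ κ : ℝ, |κ| = k → ∫⁻ η, ENNReal.ofReal (Real.exp (κ * UU u S φ η)) ∂(law μ) ≤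
      ENNReal.ofReal (Real.exp (C * (k ^ 2 + 1) * B)) := fun κ hκ => by
    have h1 := q1 h ρ S φ hm hc (k := κ) hb (fun p hp η => by rw [abs_mul, hκ]; exact hk p hp η)
    have h3 : κ ^ 2 = k ^ 2 := by rw [← hκ, sq_abs]
    rw [h3] at h1
    have h2 : ∀ η, ENNReal.ofReal (Real.exp (κ * UU u S φ η)) ≤ ENNReal.ofReal (Real.exp (C * (k ^ 2 + 1) * B)) *
        ENNReal.ofReal (Real.exp (κ * UU u S φ η - C * (k ^ 2 + 1) * ∑ p ∈ S, φ p η ^ 2)) := fun η => by
      rw [← ENNReal.ofReal_mul (Real.exp_pos _).le, ← Real.exp_add]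
      refine ENNReal.ofReal_le_ofReal (Real.exp_le_exp.2 ?_)
      have h4 : 0 ≤ C * (k ^ 2 + 1) := mul_nonneg h.hC (by positivity)
      have := mul_le_mul_of_nonneg_left (hB η) h4
      linarith
    calc ∫⁻ η, ENNReal.ofReal (Real.exp (κ * UU u S φ η)) ∂(law μ)
        ≤ ∫⁻ η, ENNReal.ofReal (Real.exp (C * (k ^ 2 + 1) * B)) *
            ENNReal.ofReal (Real.exp (κ * UU u S φ η - C * (k ^ 2 + 1) * ∑ p ∈ S, φ p η ^ 2)) ∂(law μ) :=
          lintegral_mono h2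
      _ = ENNReal.ofReal (Real.exp (C * (k ^ 2 + 1) * B)) *
            ∫⁻ η, ENNReal.ofReal (Real.exp (κ * UU u S φ η - C * (k ^ 2 + 1) * ∑ p ∈ S, φ p η ^ 2)) ∂(law μ) :=
          lintegral_const_mul' _ _ ENNReal.ofReal_ne_top
      _ ≤ ENNReal.ofReal (Real.exp (C * (k ^ 2 + 1) * B)) * 1 := by gcongr
      _ = _ := mul_one _
  have hU := UU_meas h.meas hm
  calc ∫⁻ η, ENNReal.ofReal (Real.exp (k * |UU u S φ η|)) ∂(law μ)
      ≤ ∫⁻ η, (ENNReal.ofReal (Real.exp (k * UU u S φ η)) + ENNReal.ofReal (Real.exp (-k * UU u S φ η))) ∂(law μ) := by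
        refine lintegral_mono fun η => ?_
        rcases le_or_gt 0 (UU u S φ η) with h | h
        · rw [abs_of_nonneg h]
          exact le_self_add
        · rw [abs_of_neg h, mul_neg, ← neg_mul]
          exact le_add_self
    _ = ∫⁻ η, ENNReal.ofReal (Real.exp (k * UU u S φ η)) ∂(law μ) +
          ∫⁻ η, ENNReal.ofReal (Real.exp (-k * UU u S φ η)) ∂(law μ) :=
        lintegral_add_left ((hU.const_mul k).exp.ennreal_ofReal) _
    _ ≤ ENNReal.ofReal (Real.exp (C * (k ^ 2 + 1) * B)) + ENNReal.ofReal (Real.exp (C * (k ^ 2 + 1) * B)) :=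
        add_le_add (key k (abs_of_nonneg hk0)) (key (-k) (by rw [abs_neg, abs_of_nonneg hk0]))
    _ = ENNReal.ofReal (2 * Real.exp (C * (k ^ 2 + 1) * B)) := by
        rw [two_mul, ENNReal.ofReal_add (Real.exp_pos _).le (Real.exp_pos _).le]

omit [IsProbabilityMeasure μ] in
/-- The integral form of an exact change of variables. -/
theorem int_of_lint {T : Env → Env} (hT : Measurable T) {W : Env → ℝ} (hW : Measurable W)
    (h0 : ∀ F : Env → ℝ≥0∞, Measurable F →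
      ∫⁻ η, F (T η) * ENNReal.ofReal (Real.exp (W η)) ∂(law μ) = ∫⁻ η, F η ∂(law μ))
    {F : Env → ℝ} (hF : Integrable F (law μ)) :
    Integrable (fun η => F (T η) * Real.exp (W η)) (law μ) ∧
      ∫ η, F (T η) * Real.exp (W η) ∂(law μ) = ∫ η, F η ∂(law μ) := by
  set w : Env → ℝ≥0∞ := fun η => ENNReal.ofReal (Real.exp (W η)) with hw
  have hwm : Measurable w := hW.exp.ennreal_ofReal
  have mp : MeasurePreserving T ((law μ).withDensity w) (law μ) := by
    refine ⟨hT, ?_⟩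
    ext A hA
    rw [Measure.map_apply hT hA, withDensity_apply _ (hT hA), ← lintegral_indicator (hT hA)]
    have h1 := h0 (A.indicator fun _ => 1) (measurable_const.indicator hA)
    rw [lintegral_indicator hA, setLIntegral_const, one_mul] at h1
    rw [← h1]
    refine lintegral_congr fun η => ?_
    by_cases hη : T η ∈ A
    · rw [Set.indicator_of_mem (by exact hη : η ∈ T ⁻¹' A), Set.indicator_of_mem hη, one_mul]
    · rw [Set.indicator_of_notMem (by exact hη : η ∉ T ⁻¹' A), Set.indicator_of_notMem hη, zero_mul]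
  have h1 : Integrable (fun η => F (T η)) ((law μ).withDensity w) := mp.integrable_comp_of_integrable hF
  have hlt : ∀ᵐ η ∂(law μ), w η < ∞ := ae_of_all _ fun η => ENNReal.ofReal_lt_top
  have e1 : (fun η => (w η).toReal • F (T η)) = fun η => F (T η) * Real.exp (W η) := by
    funext η
    show (ENNReal.ofReal (Real.exp (W η))).toReal • F (T η) = _
    rw [ENNReal.toReal_ofReal (Real.exp_pos _).le, smul_eq_mul, mul_comm]
  refine ⟨?_, ?_⟩
  · have h2 := (integrable_withDensity_iff_integrable_smul' hwm hlt).1 h1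
    rwa [e1] at h2
  · have h2 := integral_withDensity_eq_integral_toReal_smul hwm hlt (fun η => F (T η))
    rw [e1] at h2
    rw [← h2]
    conv_rhs => rw [← mp.map_eq]
    exact (integral_map hT.aemeasurable (by rw [mp.map_eq]; exact hF.aestronglyMeasurable)).symm

omit [IsProbabilityMeasure μ] in
/-- Cauchy - Schwarz against the weight. -/
theorem cs_real {T : Env → Env} (hT : Measurable T) {W : Env → ℝ} (hW : Measurable W)
    (h0 : ∀ F : Env → ℝ≥0∞, Measurable F →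
      ∫⁻ η, F (T η) * ENNReal.ofReal (Real.exp (W η)) ∂(law μ) = ∫⁻ η, F η ∂(law μ))
    {F : Env → ℝ} (hF : Measurable F) (hF2 : Integrable (fun η => F η ^ 2) (law μ))
    {X : Env → ℝ} (hX : Measurable X) {K : ℝ} (hK0 : 0 ≤ K)
    (hK : ∫⁻ η, ENNReal.ofReal (Real.exp (2 * X η - W η)) ∂(law μ) ≤ ENNReal.ofReal K) :
    Integrable (fun η => F (T η) * Real.exp (X η)) (law μ) ∧
      ∫ η, |F (T η)| * Real.exp (X η) ∂(law μ) ≤ Real.sqrt (∫ η, F η ^ 2 ∂(law μ)) * Real.sqrt K := by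
  obtain ⟨i1, e1⟩ := int_of_lint hT hW h0 hF2
  set f : Env → ℝ := fun η => F (T η) * Real.exp (W η / 2) with hf
  set g : Env → ℝ := fun η => Real.exp (X η - W η / 2) with hg
  have mf : Measurable f := (hF.comp hT).mul (hW.div_const 2).exp
  have mg : Measurable g := (hX.sub (hW.div_const 2)).exp
  have ef : ∀ η, f η ^ 2 = F (T η) ^ 2 * Real.exp (W η) := fun η => by
    simp only [hf]
    rw [mul_pow, ← Real.exp_nat_mul]
    congr 2
    push_cast
    ring
  have eg : ∀ η, g η ^ 2 = Real.exp (2 * X η - W η) := fun η => by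
    simp only [hg]
    rw [← Real.exp_nat_mul]
    congr 1
    push_cast
    ring
  have efg : ∀ η, f η * g η = F (T η) * Real.exp (X η) := fun η => by
    simp only [hf, hg]
    rw [mul_assoc, ← Real.exp_add]
    congr 2
    ring
  have hf2 : Integrable (fun η => f η ^ 2) (law μ) := i1.congr (ae_of_all _ fun η => (ef η).symm)
  have hg2 : Integrable (fun η => g η ^ 2) (law μ) := by
    have m2 : Measurable fun η : Env => Real.exp (2 * X η - W η) := ((hX.const_mul 2).sub hW).exp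
    refine Integrable.congr (f := fun η => Real.exp (2 * X η - W η)) ⟨m2.aestronglyMeasurable, ?_⟩
      (ae_of_all _ fun η => (eg η).symm)
    rw [hasFiniteIntegral_iff_ofReal (ae_of_all _ fun η => (Real.exp_pos _).le)]
    exact hK.trans_lt ENNReal.ofReal_lt_top
  have lf : MemLp f 2 (law μ) := (memLp_two_iff_integrable_sq mf.aestronglyMeasurable).2 hf2
  have lg : MemLp g 2 (law μ) := (memLp_two_iff_integrable_sq mg.aestronglyMeasurable).2 hg2
  refine ⟨(lf.integrable_mul lg).congr (ae_of_all _ fun η => efg η), ?_⟩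
  have labs : MemLp (fun η => |f η|) 2 (law μ) := by
    simpa [Real.norm_eq_abs] using lf.norm
  have key := integral_mul_le_Lp_mul_Lq_of_nonneg (μ := law μ) Real.HolderConjugate.two_two
    (ae_of_all _ fun η => abs_nonneg (f η)) (ae_of_all _ fun η => (Real.exp_pos _).le : 0 ≤ᵐ[law μ] g)
    (by simpa using labs) (by simpa using lg)
  have e3 : ∫ η, g η ^ 2 ∂(law μ) ≤ K := by
    have h3 : ∫⁻ η, ENNReal.ofReal (g η ^ 2) ∂(law μ) ≤ ENNReal.ofReal K := by
      simp_rw [eg]; exact hK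
    rw [← ofReal_integral_eq_lintegral_ofReal hg2 (ae_of_all _ fun η => sq_nonneg _)] at h3
    exact (ENNReal.ofReal_le_ofReal_iff hK0).1 h3
  have e4 : ∫ η, f η ^ 2 ∂(law μ) = ∫ η, F η ^ 2 ∂(law μ) := by
    rw [← e1]
    exact integral_congr_ae (ae_of_all _ fun η => ef η)
  calc ∫ η, |F (T η)| * Real.exp (X η) ∂(law μ) = ∫ η, |f η| * g η ∂(law μ) := by
        refine integral_congr_ae (ae_of_all _ fun η => ?_)
        show |F (T η)| * Real.exp (X η) = |f η| * g η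
        have : |f η| * g η = |f η * g η| := by rw [abs_mul (f η) (g η), abs_of_pos (Real.exp_pos _ : 0 < g η)]
        rw [this, efg, abs_mul, abs_of_pos (Real.exp_pos _)]
    _ ≤ (∫ η, |f η| ^ (2 : ℝ) ∂(law μ)) ^ (1 / (2 : ℝ)) * (∫ η, g η ^ (2 : ℝ) ∂(law μ)) ^ (1 / (2 : ℝ)) := key
    _ = Real.sqrt (∫ η, f η ^ 2 ∂(law μ)) * Real.sqrt (∫ η, g η ^ 2 ∂(law μ)) := by
        rw [Real.sqrt_eq_rpow, Real.sqrt_eq_rpow]
        congr 2
        · refine integral_congr_ae (ae_of_all _ fun η => ?_)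
          show |f η| ^ (2 : ℝ) = f η ^ 2
          rw [Real.rpow_two, sq_abs]
        · refine integral_congr_ae (ae_of_all _ fun η => ?_)
          show g η ^ (2 : ℝ) = g η ^ 2
          rw [Real.rpow_two]
    _ ≤ Real.sqrt (∫ η, F η ^ 2 ∂(law μ)) * Real.sqrt K := by
        rw [e4]
        exact mul_le_mul_of_nonneg_left (Real.sqrt_le_sqrt e3) (Real.sqrt_nonneg _)

/-- The pointwise splitting of the weight. -/
theorem split_w (U : ℝ) {a t : ℝ} (ha : 0 ≤ a) (ht : 0 ≤ t) :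
    |1 - Real.exp U| ≤ (Real.exp a - 1) * Real.exp U + 2 * Real.exp (-(t * a)) * Real.exp ((t + 1) * |U|) := by
  have hU := Real.exp_pos U
  have ha1 : 1 ≤ Real.exp a := Real.one_le_exp ha
  have hp : 0 ≤ 2 * Real.exp (-(t * a)) * Real.exp ((t + 1) * |U|) := by positivity
  have hq : 0 ≤ (Real.exp a - 1) * Real.exp U := mul_nonneg (by linarith) hU.le
  rcases le_or_gt |U| a with h | h
  · refine le_trans ?_ (le_add_of_nonneg_right hp)
    rcases le_or_gt 0 U with h1 | h1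
    · rw [abs_of_nonneg h1] at h
      have h2 : 1 ≤ Real.exp U := Real.one_le_exp h1
      have h3 : Real.exp U ≤ Real.exp a := Real.exp_le_exp.2 h
      rw [abs_of_nonpos (by linarith)]
      nlinarith
    · rw [abs_of_neg h1] at h
      have h2 : Real.exp U ≤ 1 := Real.exp_le_one_iff.2 h1.le
      have h3 : 1 ≤ Real.exp a * Real.exp U := by
        rw [← Real.exp_add]
        exact Real.one_le_exp (by linarith)
      rw [abs_of_nonneg (by linarith)]
      linarith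
  · refine le_trans ?_ (le_add_of_nonneg_left hq)
    have h1 : |1 - Real.exp U| ≤ 2 * Real.exp |U| := by
      have h2 : 1 ≤ Real.exp |U| := Real.one_le_exp (abs_nonneg _)
      have h3 : Real.exp U ≤ Real.exp |U| := Real.exp_le_exp.2 (le_abs_self _)
      rw [abs_le]
      constructor <;> linarith
    have h2 : Real.exp |U| ≤ Real.exp (-(t * a)) * Real.exp ((t + 1) * |U|) := by
      rw [← Real.exp_add]
      refine Real.exp_le_exp.2 ?_
      nlinarith [mul_le_mul_of_nonneg_left h.le ht]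
    linarith

theorem sum_sq_nonneg {S : Finset Pt} {φ : Pt → Env → ℝ} {B : ℝ} (hB : ∀ η, ∑ p ∈ S, φ p η ^ 2 ≤ B) : 0 ≤ B :=
  (Finset.sum_nonneg fun p _ => sq_nonneg (φ p fun _ => 0)).trans (hB fun _ => 0)

theorem sqrt_le_self_of_one_le {K : ℝ} (hK : 1 ≤ K) : Real.sqrt K ≤ K := by
  rw [Real.sqrt_le_left (by linarith)]
  nlinarith

/-- **(Q3)** The difference form: one total derivative of an adapted shift on the whole functional. -/
theorem q3 (h : WL μ u C θ) (ρ : Pt → ℤ) (S : Finset Pt) (φ : Pt → Env → ℝ) (hm : ∀ p ∈ S, Measurable (φ p))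
    (hc : PredR ρ S φ) {a t B : ℝ} (ha : 0 ≤ a) (ht : 0 ≤ t)
    (hk : ∀ p ∈ S, ∀ η, (2 * t + 3) * |φ p η| ≤ θ) (hB : ∀ η, ∑ p ∈ S, φ p η ^ 2 ≤ B)
    {F : Env → ℝ} (hF : Measurable F) (hF2 : Integrable (fun η => F η ^ 2) (law μ)) :
    Integrable (fun η => F (Sh S φ η)) (law μ) ∧
      |∫ η, F (Sh S φ η) ∂(law μ) - ∫ η, F η ∂(law μ)| ≤ (Real.exp a - 1) * ∫ η, |F η| ∂(law μ) +
        4 * Real.exp (-(t * a)) * Real.exp (C * ((2 * t + 3) ^ 2 + 1) * B) * Real.sqrt (∫ η, F η ^ 2 ∂(law μ)) := by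
  have hb : ∀ p ∈ S, ∀ η, |φ p η| ≤ θ := fun p hp η => by
    have h1 := hk p hp η
    nlinarith [abs_nonneg (φ p η)]
  have hB0 : 0 ≤ B := sum_sq_nonneg hB
  have hU := UU_meas h.meas hm
  have hUa : Measurable fun η => |UU u S φ η| := by
    have := hU.norm
    simpa [Real.norm_eq_abs] using this
  have h0 := fun F hF => q0 h ρ S φ hm hc hb F hF
  have hT := Sh_meas hm
  have hF1 : Integrable F (law μ) := by
    have : MemLp F 2 (law μ) := (memLp_two_iff_integrable_sq hF.aestronglyMeasurable).2 hF2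
    exact this.integrable (by norm_num)
  set K : ℝ := 2 * Real.exp (C * ((2 * t + 3) ^ 2 + 1) * B) with hK
  have hK1 : 1 ≤ K := by
    have h1 : 1 ≤ Real.exp (C * ((2 * t + 3) ^ 2 + 1) * B) :=
      Real.one_le_exp (mul_nonneg (mul_nonneg h.hC (by positivity)) hB0)
    linarith
  have hq := q1_abs h ρ S φ hm hc (k := 2 * t + 3) (by linarith) hb hk hB
  have hbd : ∀ s : ℝ, 0 ≤ s → s ≤ t + 1 → ∫⁻ η, ENNReal.ofReal (Real.exp (2 * (s * |UU u S φ η|) - UU u S φ η)) ∂(law μ)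
      ≤ ENNReal.ofReal K := fun s hs0 hs => by
    refine le_trans (lintegral_mono fun η => ENNReal.ofReal_le_ofReal (Real.exp_le_exp.2 ?_)) hq
    have h1 := neg_abs_le (UU u S φ η)
    nlinarith [abs_nonneg (UU u S φ η), mul_le_mul_of_nonneg_right hs (abs_nonneg (UU u S φ η))]
  obtain ⟨j0, _⟩ := cs_real hT hU h0 hF hF2 (X := fun η => 0 * |UU u S φ η|) (hUa.const_mul 0) (by linarith)
    (hbd 0 le_rfl (by linarith))
  obtain ⟨j1, b1⟩ := cs_real hT hU h0 hF hF2 (X := fun η => (t + 1) * |UU u S φ η|) (hUa.const_mul _) (by linarith)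
    (hbd (t + 1) (by linarith) le_rfl)
  have j0' : Integrable (fun η => F (Sh S φ η)) (law μ) := by
    refine j0.congr (ae_of_all _ fun η => ?_)
    simp
  refine ⟨j0', ?_⟩
  obtain ⟨i1, e1⟩ := int_of_lint hT hU h0 hF1
  obtain ⟨i2, e2⟩ := int_of_lint hT hU h0 hF1.abs
  have e3 : ∫ η, F (Sh S φ η) ∂(law μ) - ∫ η, F η ∂(law μ) =
      ∫ η, F (Sh S φ η) * (1 - Real.exp (UU u S φ η)) ∂(law μ) := by
    rw [← e1, ← integral_sub j0' i1]
    refine integral_congr_ae (ae_of_all _ fun η => ?_)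
    show _ - _ = _
    ring
  have j2 : Integrable (fun η => |F (Sh S φ η)| * Real.exp ((t + 1) * |UU u S φ η|)) (law μ) := by
    refine j1.abs.congr (ae_of_all _ fun η => ?_)
    show |F (Sh S φ η) * Real.exp ((t + 1) * |UU u S φ η|)| = _
    rw [abs_mul, abs_of_pos (Real.exp_pos _)]
  rw [e3]
  calc |∫ η, F (Sh S φ η) * (1 - Real.exp (UU u S φ η)) ∂(law μ)|
      ≤ ∫ η, |F (Sh S φ η) * (1 - Real.exp (UU u S φ η))| ∂(law μ) := abs_integral_le_integral_abs
    _ ≤ ∫ η, ((Real.exp a - 1) * (|F (Sh S φ η)| * Real.exp (UU u S φ η)) +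
          2 * Real.exp (-(t * a)) * (|F (Sh S φ η)| * Real.exp ((t + 1) * |UU u S φ η|))) ∂(law μ) := by
        refine integral_mono_of_nonneg (ae_of_all _ fun η => abs_nonneg _)
          ((i2.const_mul _).add (j2.const_mul _)) (ae_of_all _ fun η => ?_)
        show |F (Sh S φ η) * (1 - Real.exp (UU u S φ η))| ≤ _
        rw [abs_mul]
        have := mul_le_mul_of_nonneg_left (split_w (UU u S φ η) ha ht) (abs_nonneg (F (Sh S φ η)))
        linarith
    _ = (Real.exp a - 1) * ∫ η, |F (Sh S φ η)| * Real.exp (UU u S φ η) ∂(law μ) +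
          2 * Real.exp (-(t * a)) * ∫ η, |F (Sh S φ η)| * Real.exp ((t + 1) * |UU u S φ η|) ∂(law μ) := by
        rw [integral_add (i2.const_mul _) (j2.const_mul _), integral_const_mul, integral_const_mul]
    _ ≤ (Real.exp a - 1) * ∫ η, |F η| ∂(law μ) +
          2 * Real.exp (-(t * a)) * (Real.sqrt (∫ η, F η ^ 2 ∂(law μ)) * K) := by
        rw [e2]
        have h1 := b1.trans (mul_le_mul_of_nonneg_left (sqrt_le_self_of_one_le hK1) (Real.sqrt_nonneg _))
        have h2 := mul_le_mul_of_nonneg_left h1 (by positivity : 0 ≤ 2 * Real.exp (-(t * a)))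
        linarith
    _ = _ := by
        rw [hK]
        ring

/-- A function which does not see the single sites of `S` does not see `S`. -/
theorem blind_of_upd {S : Finset Pt} {f : Env → ℝ} (h : ∀ b ∈ S, ∀ (η : Env) (x : ℝ), f (Function.update η b x) = f η)
    {η η' : Env} (he : ∀ q, q ∉ S → η q = η' q) : f η = f η' := by
  classical
  induction S using Finset.induction_on generalizing η with
  | empty =>
    have : η = η' := funext fun q => he q (by simp)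
    rw [this]
  | insert a S ha ih =>
    rw [← h a (Finset.mem_insert_self _ _) η (η' a)]
    refine ih (fun b hb => h b (Finset.mem_insert_of_mem hb)) fun q hq => ?_
    by_cases hqa : q = a
    · subst hqa
      rw [Function.update_self]
    · rw [Function.update_of_ne hqa]
      exact he q (by simp [hqa, hq])

section Two

variable {ρ1 ρ2 : Pt → ℤ} {S1 S2 : Finset Pt} {φ1 φ2 : Pt → Env → ℝ}

/-- The second field seen before the first shift. -/
def pull (S1 : Finset Pt) (φ1 φ2 : Pt → Env → ℝ) : Pt → Env → ℝ := fun p η => φ2 p (Sh S1 φ1 η)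

theorem sh_upd (hd : Disjoint S1 S2) (h12 : ∀ a ∈ S1, ∀ b ∈ S2, ∀ (η : Env) (x : ℝ), φ1 a (Function.update η b x) = φ1 a η)
    {b : Pt} (hb : b ∈ S2) (η : Env) (x : ℝ) :
    Sh S1 φ1 (Function.update η b x) = Function.update (Sh S1 φ1 η) b x := by
  have hb1 : b ∉ S1 := fun h => Finset.disjoint_left.1 hd h hb
  funext q
  by_cases hqb : q = b
  · subst hqb
    rw [Sh_out _ _ hb1, Function.update_self, Function.update_self]
  · rw [Function.update_of_ne hqb]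
    by_cases hq : q ∈ S1
    · rw [Sh_in _ _ hq, Sh_in _ _ hq, Function.update_of_ne hqb, h12 q hq b hb]
    · rw [Sh_out _ _ hq, Sh_out _ _ hq, Function.update_of_ne hqb]

theorem pull_pred (hd : Disjoint S1 S2)
    (h12 : ∀ a ∈ S1, ∀ b ∈ S2, ∀ (η : Env) (x : ℝ), φ1 a (Function.update η b x) = φ1 a η) (hc2 : PredR ρ2 S2 φ2) :
    PredR ρ2 S2 (pull S1 φ1 φ2) := fun a ha b hb hab η x => by
  unfold pull
  rw [sh_upd hd h12 hb, hc2 a ha b hb hab]

theorem pull_meas (hm1 : ∀ p ∈ S1, Measurable (φ1 p)) (hm2 : ∀ p ∈ S2, Measurable (φ2 p)) :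
    ∀ p ∈ S2, Measurable (pull S1 φ1 φ2 p) := fun p hp => (hm2 p hp).comp (Sh_meas hm1)

theorem off_sh (S : Finset Pt) (φ : Pt → Env → ℝ) (η : Env) : ∀ q, q ∉ S → Sh S φ η q = η q := fun _ hq => Sh_out _ _ hq

theorem comm (hd : Disjoint S1 S2)
    (h12 : ∀ a ∈ S1, ∀ b ∈ S2, ∀ (η : Env) (x : ℝ), φ1 a (Function.update η b x) = φ1 a η) (η : Env) :
    Sh S2 φ2 (Sh S1 φ1 η) = Sh S1 φ1 (Sh S2 (pull S1 φ1 φ2) η) := by
  funext q
  by_cases h1 : q ∈ S1
  · have h2 : q ∉ S2 := Finset.disjoint_left.1 hd h1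
    rw [Sh_out _ _ h2, Sh_in _ _ h1, Sh_in _ _ h1, Sh_out _ _ h2]
    congr 1
    exact (blind_of_upd (h12 q h1) (off_sh S2 _ η)).symm
  · rw [Sh_out φ1 _ h1]
    by_cases h2 : q ∈ S2
    · rw [Sh_in _ _ h2, Sh_in _ _ h2, Sh_out _ _ h1]
      rfl
    · rw [Sh_out _ _ h2, Sh_out _ _ h2, Sh_out _ _ h1]

theorem UU_blind (hd : Disjoint S1 S2)
    (h12 : ∀ a ∈ S1, ∀ b ∈ S2, ∀ (η : Env) (x : ℝ), φ1 a (Function.update η b x) = φ1 a η) (ψ : Pt → Env → ℝ) (η : Env) :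
    UU u S1 φ1 (Sh S2 ψ η) = UU u S1 φ1 η := by
  unfold UU
  refine Finset.sum_congr rfl fun p hp => ?_
  rw [Sh_out _ _ (Finset.disjoint_left.1 hd hp), blind_of_upd (h12 p hp) (off_sh S2 ψ η)]

/-- **(Q0) for two slabs.** -/
theorem q0_two (h : WL μ u C θ) (hd : Disjoint S1 S2)
    (h12 : ∀ a ∈ S1, ∀ b ∈ S2, ∀ (η : Env) (x : ℝ), φ1 a (Function.update η b x) = φ1 a η)
    (hm1 : ∀ p ∈ S1, Measurable (φ1 p)) (hm2 : ∀ p ∈ S2, Measurable (φ2 p))
    (hc1 : PredR ρ1 S1 φ1) (hc2 : PredR ρ2 S2 φ2)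
    (hb1 : ∀ p ∈ S1, ∀ η, |φ1 p η| ≤ θ) (hb2 : ∀ p ∈ S2, ∀ η, |φ2 p η| ≤ θ) (F : Env → ℝ≥0∞) (hF : Measurable F) :
    ∫⁻ η, F (Sh S2 φ2 (Sh S1 φ1 η)) *
      ENNReal.ofReal (Real.exp (UU u S1 φ1 η + UU u S2 (pull S1 φ1 φ2) η)) ∂(law μ) = ∫⁻ η, F η ∂(law μ) := by
  rw [← q0 h ρ1 S1 φ1 hm1 hc1 hb1 F hF]
  rw [← q0 h ρ2 S2 (pull S1 φ1 φ2) (pull_meas hm1 hm2) (pull_pred hd h12 hc2) (fun p hp η => hb2 p hp _)
    (fun η => F (Sh S1 φ1 η) * ENNReal.ofReal (Real.exp (UU u S1 φ1 η)))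
    ((hF.comp (Sh_meas hm1)).mul (UU_meas h.meas hm1).exp.ennreal_ofReal)]
  refine lintegral_congr fun η => ?_
  rw [comm hd h12, UU_blind hd h12, Real.exp_add, ENNReal.ofReal_mul (Real.exp_pos _).le, mul_assoc]

/-- **(Q4)** The second difference over two slabs. -/
theorem q4 (h : WL μ u C θ) (hd : Disjoint S1 S2)
    (h12 : ∀ a ∈ S1, ∀ b ∈ S2, ∀ (η : Env) (x : ℝ), φ1 a (Function.update η b x) = φ1 a η)
    (hm1 : ∀ p ∈ S1, Measurable (φ1 p)) (hm2 : ∀ p ∈ S2, Measurable (φ2 p))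
    (hc1 : PredR ρ1 S1 φ1) (hc2 : PredR ρ2 S2 φ2) {a1 a2 t1 t2 B1 B2 : ℝ}
    (ha1 : 0 ≤ a1) (ha1' : a1 ≤ 1) (ha2 : 0 ≤ a2) (ha2' : a2 ≤ 1) (ht1 : 0 ≤ t1) (ht2 : 0 ≤ t2)
    (hk1 : ∀ p ∈ S1, ∀ η, (4 * t1 + 6) * |φ1 p η| ≤ θ) (hk2 : ∀ p ∈ S2, ∀ η, (4 * t2 + 6) * |φ2 p η| ≤ θ)
    (hB1 : ∀ η, ∑ p ∈ S1, φ1 p η ^ 2 ≤ B1) (hB2 : ∀ η, ∑ p ∈ S2, φ2 p η ^ 2 ≤ B2)
    {F : Env → ℝ} (hF : Measurable F) (hF2 : Integrable (fun η => F η ^ 2) (law μ)) :
    Integrable (fun η => F (Sh S2 φ2 (Sh S1 φ1 η))) (law μ) ∧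
    |∫ η, F (Sh S2 φ2 (Sh S1 φ1 η)) ∂(law μ) - ∫ η, F (Sh S2 φ2 η) ∂(law μ) - ∫ η, F (Sh S1 φ1 η) ∂(law μ) +
        ∫ η, F η ∂(law μ)| ≤
      (Real.exp a1 - 1) * (Real.exp a2 - 1) * ∫ η, |F η| ∂(law μ) +
        8 * (Real.exp (-(t1 * a1)) + Real.exp (-(t2 * a2))) *
          (Real.exp (C * ((4 * t1 + 6) ^ 2 + 1) * B1) + Real.exp (C * ((4 * t2 + 6) ^ 2 + 1) * B2)) *
          Real.sqrt (∫ η, F η ^ 2 ∂(law μ)) := by
  have hb1 : ∀ p ∈ S1, ∀ η, |φ1 p η| ≤ θ := fun p hp η => by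
    have h1 := hk1 p hp η
    nlinarith [abs_nonneg (φ1 p η)]
  have hb2 : ∀ p ∈ S2, ∀ η, |φ2 p η| ≤ θ := fun p hp η => by
    have h1 := hk2 p hp η
    nlinarith [abs_nonneg (φ2 p η)]
  have hB10 : 0 ≤ B1 := sum_sq_nonneg hB1
  have hB20 : 0 ≤ B2 := sum_sq_nonneg hB2
  set U1 : Env → ℝ := UU u S1 φ1 with hU1
  set U2 : Env → ℝ := UU u S2 (pull S1 φ1 φ2) with hU2
  have mU1 : Measurable U1 := UU_meas h.meas hm1
  have mU2 : Measurable U2 := UU_meas h.meas (pull_meas hm1 hm2)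
  have mA1 : Measurable fun η => |U1 η| := by
    have := mU1.norm
    simpa [Real.norm_eq_abs] using this
  have mA2 : Measurable fun η => |U2 η| := by
    have := mU2.norm
    simpa [Real.norm_eq_abs] using this
  have hc2' := pull_pred (φ1 := φ1) hd h12 hc2
  have hm2' := pull_meas (φ1 := φ1) hm1 hm2
  have hT1 := Sh_meas hm1
  have hT2 := Sh_meas hm2
  have hT2' := Sh_meas hm2'
  have h01 := fun F hF => q0 h ρ1 S1 φ1 hm1 hc1 hb1 F hF
  have h02' := fun F hF => q0 h ρ2 S2 (pull S1 φ1 φ2) hm2' hc2' (fun p hp η => hb2 p hp _) F hF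
  have h0 := fun F hF => q0_two h hd h12 hm1 hm2 hc1 hc2 hb1 hb2 F hF
  have hF1 : Integrable F (law μ) := by
    have : MemLp F 2 (law μ) := (memLp_two_iff_integrable_sq hF.aestronglyMeasurable).2 hF2
    exact this.integrable (by norm_num)
  -- integrability of the one slab pieces
  obtain ⟨jT1, _⟩ := q3 h ρ1 S1 φ1 hm1 hc1 (a := 0) (t := 0) le_rfl le_rfl (fun p hp η => by
    have h1 := hk1 p hp η
    nlinarith [abs_nonneg (φ1 p η), mul_nonneg ht1 (abs_nonneg (φ1 p η))]) hB1 hF hF2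
  obtain ⟨jT2, _⟩ := q3 h ρ2 S2 φ2 hm2 hc2 (a := 0) (t := 0) le_rfl le_rfl (fun p hp η => by
    have h1 := hk2 p hp η
    nlinarith [abs_nonneg (φ2 p η), mul_nonneg ht2 (abs_nonneg (φ2 p η))]) hB2 hF hF2
  -- the three identities
  obtain ⟨i12, e12⟩ := int_of_lint (hT2.comp hT1) (mU1.add mU2) h0 hF1
  obtain ⟨i12a, e12a⟩ := int_of_lint (hT2.comp hT1) (mU1.add mU2) h0 hF1.abs
  obtain ⟨i1, e1⟩ := int_of_lint (F := fun η => F (Sh S2 φ2 η)) hT1 mU1 h01 jT2
  obtain ⟨i2, e2⟩ := int_of_lint (F := fun η => F (Sh S1 φ1 η)) hT2' mU2 h02' jT1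
  have e2' : ∀ η, F (Sh S1 φ1 (Sh S2 (pull S1 φ1 φ2) η)) = F (Sh S2 φ2 (Sh S1 φ1 η)) := fun η => by
    rw [comm hd h12]
  -- Cauchy - Schwarz
  set K : ℝ := Real.exp (C * ((4 * t1 + 6) ^ 2 + 1) * B1) + Real.exp (C * ((4 * t2 + 6) ^ 2 + 1) * B2) with hK
  have hK1 : 1 ≤ K := by
    have h1 : 1 ≤ Real.exp (C * ((4 * t1 + 6) ^ 2 + 1) * B1) :=
      Real.one_le_exp (mul_nonneg (mul_nonneg h.hC (by positivity)) hB10)
    have h2 := Real.exp_pos (C * ((4 * t2 + 6) ^ 2 + 1) * B2)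
    linarith
  have hq1 := q1_abs h ρ1 S1 φ1 hm1 hc1 (k := 4 * t1 + 6) (by linarith) hb1 hk1 hB1
  have hq2 := q1_abs h ρ2 S2 (pull S1 φ1 φ2) hm2' hc2' (k := 4 * t2 + 6) (by linarith) (fun p hp η => hb2 p hp _)
    (fun p hp η => hk2 p hp _) (fun η => hB2 _)
  have hbd : ∀ s1 s2 : ℝ, 0 ≤ s1 → s1 ≤ t1 + 1 → 0 ≤ s2 → s2 ≤ t2 + 1 →
      ∫⁻ η, ENNReal.ofReal (Real.exp (2 * (s1 * |U1 η| + s2 * |U2 η|) - (U1 η + U2 η))) ∂(law μ) ≤
        ENNReal.ofReal K := fun s1 s2 hs1 hs1' hs2 hs2' => by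
    have hpt : ∀ η, ENNReal.ofReal (Real.exp (2 * (s1 * |U1 η| + s2 * |U2 η|) - (U1 η + U2 η))) ≤
        ENNReal.ofReal (1 / 2) * (ENNReal.ofReal (Real.exp ((4 * t1 + 6) * |U1 η|)) +
          ENNReal.ofReal (Real.exp ((4 * t2 + 6) * |U2 η|))) := fun η => by
      rw [← ENNReal.ofReal_add (Real.exp_pos _).le (Real.exp_pos _).le, ← ENNReal.ofReal_mul (by norm_num)]
      refine ENNReal.ofReal_le_ofReal ?_
      set x : ℝ := (2 * t1 + 3) * |U1 η| with hx
      set y : ℝ := (2 * t2 + 3) * |U2 η| with hy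
      have h1 : Real.exp (2 * (s1 * |U1 η| + s2 * |U2 η|) - (U1 η + U2 η)) ≤ Real.exp (x + y) := by
        refine Real.exp_le_exp.2 ?_
        have g1 := neg_abs_le (U1 η)
        have g2 := neg_abs_le (U2 η)
        have g3 := mul_le_mul_of_nonneg_right hs1' (abs_nonneg (U1 η))
        have g4 := mul_le_mul_of_nonneg_right hs2' (abs_nonneg (U2 η))
        rw [hx, hy]
        nlinarith
      have h2 : Real.exp (x + y) ≤ 1 / 2 * (Real.exp (2 * x) + Real.exp (2 * y)) := by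
        have g1 : Real.exp (2 * x) = Real.exp x ^ 2 := by rw [two_mul, Real.exp_add, sq]
        have g2 : Real.exp (2 * y) = Real.exp y ^ 2 := by rw [two_mul, Real.exp_add, sq]
        rw [Real.exp_add, g1, g2]
        nlinarith [sq_nonneg (Real.exp x - Real.exp y)]
      have h3 : 2 * x = (4 * t1 + 6) * |U1 η| := by rw [hx]; ring
      have h4 : 2 * y = (4 * t2 + 6) * |U2 η| := by rw [hy]; ring
      rw [h3, h4] at h2
      exact h1.trans h2
    calc ∫⁻ η, ENNReal.ofReal (Real.exp (2 * (s1 * |U1 η| + s2 * |U2 η|) - (U1 η + U2 η))) ∂(law μ)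
        ≤ ∫⁻ η, ENNReal.ofReal (1 / 2) * (ENNReal.ofReal (Real.exp ((4 * t1 + 6) * |U1 η|)) +
            ENNReal.ofReal (Real.exp ((4 * t2 + 6) * |U2 η|))) ∂(law μ) := lintegral_mono hpt
      _ = ENNReal.ofReal (1 / 2) * (∫⁻ η, ENNReal.ofReal (Real.exp ((4 * t1 + 6) * |U1 η|)) ∂(law μ) +
            ∫⁻ η, ENNReal.ofReal (Real.exp ((4 * t2 + 6) * |U2 η|)) ∂(law μ)) := by
          rw [lintegral_const_mul' _ _ ENNReal.ofReal_ne_top,
            lintegral_add_left (mA1.const_mul _).exp.ennreal_ofReal]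
      _ ≤ ENNReal.ofReal (1 / 2) * (ENNReal.ofReal (2 * Real.exp (C * ((4 * t1 + 6) ^ 2 + 1) * B1)) +
            ENNReal.ofReal (2 * Real.exp (C * ((4 * t2 + 6) ^ 2 + 1) * B2))) := by gcongr
      _ = ENNReal.ofReal K := by
          rw [← ENNReal.ofReal_add (by positivity) (by positivity), ← ENNReal.ofReal_mul (by norm_num)]
          congr 1
          rw [hK]
          ring
  obtain ⟨j0, _⟩ := cs_real (hT2.comp hT1) (mU1.add mU2) h0 hF hF2
    (X := fun η => 0 * |U1 η| + 0 * |U2 η|) ((mA1.const_mul 0).add (mA2.const_mul 0)) (by linarith)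
    (hbd 0 0 le_rfl (by linarith) le_rfl (by linarith))
  obtain ⟨j1, b1⟩ := cs_real (hT2.comp hT1) (mU1.add mU2) h0 hF hF2
    (X := fun η => (t1 + 1) * |U1 η| + (t2 + 1) * |U2 η|) ((mA1.const_mul _).add (mA2.const_mul _)) (by linarith)
    (hbd (t1 + 1) (t2 + 1) (by linarith) le_rfl (by linarith) le_rfl)
  have j0' : Integrable (fun η => F (Sh S2 φ2 (Sh S1 φ1 η))) (law μ) := by
    refine j0.congr (ae_of_all _ fun η => ?_)
    simp
  refine ⟨j0', ?_⟩
  have i2' : Integrable (fun η => F (Sh S2 φ2 (Sh S1 φ1 η)) * Real.exp (U2 η)) (law μ) :=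
    i2.congr (ae_of_all _ fun η => by show F _ * _ = _; rw [e2'])
  have e2'' : ∫ η, F (Sh S2 φ2 (Sh S1 φ1 η)) * Real.exp (U2 η) ∂(law μ) = ∫ η, F (Sh S1 φ1 η) ∂(law μ) := by
    rw [← e2]
    exact integral_congr_ae (ae_of_all _ fun η => by show _ = F _ * _; rw [e2'])
  have i12' : Integrable (fun η => F (Sh S2 φ2 (Sh S1 φ1 η)) * Real.exp (U1 η + U2 η)) (law μ) := i12
  have e12' : ∫ η, F (Sh S2 φ2 (Sh S1 φ1 η)) * Real.exp (U1 η + U2 η) ∂(law μ) = ∫ η, F η ∂(law μ) := e12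
  have i12a' : Integrable (fun η => |F (Sh S2 φ2 (Sh S1 φ1 η))| * Real.exp (U1 η + U2 η)) (law μ) := i12a
  have e12a' : ∫ η, |F (Sh S2 φ2 (Sh S1 φ1 η))| * Real.exp (U1 η + U2 η) ∂(law μ) = ∫ η, |F η| ∂(law μ) := e12a
  have b1' : ∫ η, |F (Sh S2 φ2 (Sh S1 φ1 η))| * Real.exp ((t1 + 1) * |U1 η| + (t2 + 1) * |U2 η|) ∂(law μ) ≤
      Real.sqrt (∫ η, F η ^ 2 ∂(law μ)) * Real.sqrt K := b1
  have j2 : Integrable (fun η => |F (Sh S2 φ2 (Sh S1 φ1 η))| *
      Real.exp ((t1 + 1) * |U1 η| + (t2 + 1) * |U2 η|)) (law μ) := by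
    refine j1.abs.congr (ae_of_all _ fun η => ?_)
    show |F (Sh S2 φ2 (Sh S1 φ1 η)) * Real.exp ((t1 + 1) * |U1 η| + (t2 + 1) * |U2 η|)| = _
    rw [abs_mul, abs_of_pos (Real.exp_pos _)]
  have e3 : ∫ η, F (Sh S2 φ2 (Sh S1 φ1 η)) ∂(law μ) - ∫ η, F (Sh S2 φ2 η) ∂(law μ) -
      ∫ η, F (Sh S1 φ1 η) ∂(law μ) + ∫ η, F η ∂(law μ) =
      ∫ η, F (Sh S2 φ2 (Sh S1 φ1 η)) * ((1 - Real.exp (U1 η)) * (1 - Real.exp (U2 η))) ∂(law μ) := by
    have g1 : ∫ η, F (Sh S2 φ2 (Sh S1 φ1 η)) * ((1 - Real.exp (U1 η)) * (1 - Real.exp (U2 η))) ∂(law μ) =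
        ∫ η, ((F (Sh S2 φ2 (Sh S1 φ1 η)) - F (Sh S2 φ2 (Sh S1 φ1 η)) * Real.exp (U1 η)) -
          (F (Sh S2 φ2 (Sh S1 φ1 η)) * Real.exp (U2 η) -
            F (Sh S2 φ2 (Sh S1 φ1 η)) * Real.exp (U1 η + U2 η))) ∂(law μ) := by
      refine integral_congr_ae (ae_of_all _ fun η => ?_)
      show _ = _ - _ - (_ - _)
      rw [Real.exp_add]
      ring
    have g2 : ∫ η, ((F (Sh S2 φ2 (Sh S1 φ1 η)) - F (Sh S2 φ2 (Sh S1 φ1 η)) * Real.exp (U1 η)) -
          (F (Sh S2 φ2 (Sh S1 φ1 η)) * Real.exp (U2 η) -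
            F (Sh S2 φ2 (Sh S1 φ1 η)) * Real.exp (U1 η + U2 η))) ∂(law μ) =
        ∫ η, (F (Sh S2 φ2 (Sh S1 φ1 η)) - F (Sh S2 φ2 (Sh S1 φ1 η)) * Real.exp (U1 η)) ∂(law μ) -
        ∫ η, (F (Sh S2 φ2 (Sh S1 φ1 η)) * Real.exp (U2 η) -
            F (Sh S2 φ2 (Sh S1 φ1 η)) * Real.exp (U1 η + U2 η)) ∂(law μ) := integral_sub (j0'.sub i1) (i2'.sub i12')
    rw [g1, g2, integral_sub j0' i1, integral_sub i2' i12', e1, e2'', e12']
    ring
  rw [e3]
  have hexp : ∀ a : ℝ, 0 ≤ a → a ≤ 1 → Real.exp a - 1 ≤ 2 := fun a h0 h1 => by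
    have h2 : Real.exp a ≤ Real.exp 1 := Real.exp_le_exp.2 h1
    have h3 := Real.exp_one_lt_d9
    linarith
  set τ1 : ℝ := 2 * Real.exp (-(t1 * a1)) with hτ1
  set τ2 : ℝ := 2 * Real.exp (-(t2 * a2)) with hτ2
  have τ1p : 0 < τ1 := by positivity
  have τ2p : 0 < τ2 := by positivity
  have τ1q : τ1 ≤ 2 := by
    have : Real.exp (-(t1 * a1)) ≤ 1 := Real.exp_le_one_iff.2 (by nlinarith)
    rw [hτ1]; linarith
  have x1 : 0 ≤ Real.exp a1 - 1 := by have := Real.one_le_exp ha1; linarith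
  have x2 : 0 ≤ Real.exp a2 - 1 := by have := Real.one_le_exp ha2; linarith
  have y1 := hexp a1 ha1 ha1'
  have y2 := hexp a2 ha2 ha2'
  have hpt : ∀ η, |F (Sh S2 φ2 (Sh S1 φ1 η)) * ((1 - Real.exp (U1 η)) * (1 - Real.exp (U2 η)))| ≤
      (Real.exp a1 - 1) * (Real.exp a2 - 1) * (|F (Sh S2 φ2 (Sh S1 φ1 η))| * Real.exp (U1 η + U2 η)) +
        4 * (τ1 + τ2) * (|F (Sh S2 φ2 (Sh S1 φ1 η))| *
          Real.exp ((t1 + 1) * |U1 η| + (t2 + 1) * |U2 η|)) := fun η => by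
    have s1 := split_w (U1 η) ha1 ht1
    have s2 := split_w (U2 η) ha2 ht2
    rw [← hτ1] at s1
    rw [← hτ2] at s2
    set f : ℝ := |F (Sh S2 φ2 (Sh S1 φ1 η))| with hf
    set w1 : ℝ := Real.exp (U1 η) with hw1
    set w2 : ℝ := Real.exp (U2 η) with hw2
    set v1 : ℝ := Real.exp ((t1 + 1) * |U1 η|) with hv1
    set v2 : ℝ := Real.exp ((t2 + 1) * |U2 η|) with hv2
    have f0 : 0 ≤ f := abs_nonneg _
    have w1p : 0 < w1 := Real.exp_pos _
    have w2p : 0 < w2 := Real.exp_pos _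
    have v1p : 0 < v1 := Real.exp_pos _
    have v2p : 0 < v2 := Real.exp_pos _
    have wv1 : w1 ≤ v1 := Real.exp_le_exp.2 (by nlinarith [le_abs_self (U1 η), abs_nonneg (U1 η)])
    have wv2 : w2 ≤ v2 := Real.exp_le_exp.2 (by nlinarith [le_abs_self (U2 η), abs_nonneg (U2 η)])
    rw [abs_mul, abs_mul, Real.exp_add, Real.exp_add, ← hf, ← hw1, ← hw2, ← hv1, ← hv2]
    have g1 : |1 - w1| * |1 - w2| ≤ ((Real.exp a1 - 1) * w1 + τ1 * v1) * ((Real.exp a2 - 1) * w2 + τ2 * v2) :=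
      mul_le_mul s1 s2 (abs_nonneg _) (by positivity)
    have g2 : (Real.exp a1 - 1) * w1 * (τ2 * v2) ≤ 2 * τ2 * (v1 * v2) := by
      have : (Real.exp a1 - 1) * w1 ≤ 2 * v1 := mul_le_mul y1 wv1 w1p.le (by norm_num)
      have := mul_le_mul_of_nonneg_right this (mul_pos τ2p v2p).le
      linarith
    have g3 : τ1 * v1 * ((Real.exp a2 - 1) * w2) ≤ 2 * τ1 * (v1 * v2) := by
      have : (Real.exp a2 - 1) * w2 ≤ 2 * v2 := mul_le_mul y2 wv2 w2p.le (by norm_num)
      have := mul_le_mul_of_nonneg_left this (mul_pos τ1p v1p).le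
      linarith
    have g4 : τ1 * v1 * (τ2 * v2) ≤ 2 * τ2 * (v1 * v2) := by
      have := mul_le_mul_of_nonneg_right τ1q (mul_pos τ2p (mul_pos v1p v2p)).le
      linarith
    have g5 : 0 ≤ τ1 * (v1 * v2) := by positivity
    have g6 : |1 - w1| * |1 - w2| ≤ (Real.exp a1 - 1) * (Real.exp a2 - 1) * (w1 * w2) + 4 * (τ1 + τ2) * (v1 * v2) := by
      linarith
    have := mul_le_mul_of_nonneg_left g6 f0
    linarith
  calc |∫ η, F (Sh S2 φ2 (Sh S1 φ1 η)) * ((1 - Real.exp (U1 η)) * (1 - Real.exp (U2 η))) ∂(law μ)|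
      ≤ ∫ η, |F (Sh S2 φ2 (Sh S1 φ1 η)) * ((1 - Real.exp (U1 η)) * (1 - Real.exp (U2 η)))| ∂(law μ) :=
        abs_integral_le_integral_abs
    _ ≤ ∫ η, ((Real.exp a1 - 1) * (Real.exp a2 - 1) *
            (|F (Sh S2 φ2 (Sh S1 φ1 η))| * Real.exp (U1 η + U2 η)) +
          4 * (τ1 + τ2) * (|F (Sh S2 φ2 (Sh S1 φ1 η))| *
            Real.exp ((t1 + 1) * |U1 η| + (t2 + 1) * |U2 η|))) ∂(law μ) :=
        integral_mono_of_nonneg (ae_of_all _ fun η => abs_nonneg _)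
          ((i12a'.const_mul _).add (j2.const_mul _)) (ae_of_all _ hpt)
    _ = (Real.exp a1 - 1) * (Real.exp a2 - 1) *
            ∫ η, |F (Sh S2 φ2 (Sh S1 φ1 η))| * Real.exp (U1 η + U2 η) ∂(law μ) +
          4 * (τ1 + τ2) * ∫ η, |F (Sh S2 φ2 (Sh S1 φ1 η))| *
            Real.exp ((t1 + 1) * |U1 η| + (t2 + 1) * |U2 η|) ∂(law μ) := by
        rw [integral_add (i12a'.const_mul _) (j2.const_mul _), integral_const_mul, integral_const_mul]
    _ ≤ (Real.exp a1 - 1) * (Real.exp a2 - 1) * ∫ η, |F η| ∂(law μ) +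
          4 * (τ1 + τ2) * (Real.sqrt (∫ η, F η ^ 2 ∂(law μ)) * K) := by
        rw [e12a']
        have g1 := b1'.trans (mul_le_mul_of_nonneg_left (sqrt_le_self_of_one_le hK1) (Real.sqrt_nonneg _))
        have g2 := mul_le_mul_of_nonneg_left g1 (by positivity : 0 ≤ 4 * (τ1 + τ2))
        linarith
    _ = _ := by
        rw [hτ1, hτ2]
        ring

end Two

end

end Pool.Agent.W_7d29a1_C0.Q32
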