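import Pool.Agent.W_7d29a1_C0.Trans27
import Pool.Agent.W_7d29a1_C0.Rep41

/-!
CURV0 (MP_7d29a1_pr), leaf E0, part 2. (helper27)

(T3) `fG_tail`: the field at a site is at most `exp (2 D)` times the mass of the tilted paths among the paths which end there, so it
is tiny far from the boxes. (T4) `quasi_ev`: quasi-invariance with a good event (the compensator is used on the event only).
(T5) replica averages with weights (`rpv`), comparison with the unrestricted measure (`rpv_rep`), bounded tilts (`gm_tilt`);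
`e0_pt` = the slab step for one environment, with passengers.
-/

set_option autoImplicit false

namespace Pool.W7d29a1.C0.H27

open Finset MeasureTheory Pool.Agent.W_7d29a1_F Pool.Agent.W_7d29a1_X Pool.Agent.W_7d29a1_C0.Mod92
  Pool.Agent.W_7d29a1_C0.H32
open scoped ENNReal

noncomputable section

variable {μ : Measure ℝ} {s : ℝ}

/-! ### (T3) The tail of the field -/

theorem exp_num (Q : Finset Pt) (η : Env) (c : ℕ) (F : Finset ℕ → ℝ) (k : ℕ) (z : ℤ) :
    Real.exp (η ((c : ℤ) + k + 1, z)) * num (PG Q) (qG μ s) η c (Mt μ s η c F) k z =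
      Mt μ s η (c + k + 1) (fun S => F (S ∩ range c) * ind c (k + 1) Q S) z := by
  have h := fwd_GS (μ := μ) (s := s) Q η c F (k + 1) z
  rw [fwd_succ] at h
  exact h

/-- The field at the site `(c + k + 1, z)`. -/
theorem fG_eq (c K : ℕ) (Q : Finset Pt) (A : Env → Finset ℕ → ℝ) (k : ℕ) (z : ℤ) (η : Env) :
    fG μ s c K Q A (((c + k + 1 : ℕ) : ℤ), z) η =
      Real.log (Mt μ s η (c + k + 1) (fun S => Real.exp (sch 0 1 K (k + 1) * A η (S ∩ range c)) * ind c (k + 1) Q S) z /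
        Mt μ s η (c + k + 1) (fun S => Real.exp (sch 0 1 K k * A η (S ∩ range c)) * ind c (k + 1) Q S) z) := by
  have h1 : ((((c + k + 1 : ℕ) : ℤ), z) : Pt).1 - (c : ℤ) - 1 = (k : ℤ) := by push_cast; ring
  unfold fG fld
  rw [h1, Int.toNat_natCast]
  have h2 := fun τ => exp_num (μ := μ) (s := s) Q η c (fun S => Real.exp (τ * A η S)) k z
  have h3 : ∀ τ, num (PG Q) (qG μ s) η c (gG μ s c A τ η) k z = Real.exp (-η ((c : ℤ) + k + 1, z)) *
      Mt μ s η (c + k + 1) (fun S => Real.exp (τ * A η (S ∩ range c)) * ind c (k + 1) Q S) z := fun τ => by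
    rw [← h2 τ, ← mul_assoc, ← Real.exp_add, neg_add_cancel, Real.exp_zero, one_mul]
    rfl
  rw [h3, h3, mul_div_mul_left _ _ (Real.exp_pos _).ne']

theorem Mt_mono (η : Env) (t : ℕ) {F G : Finset ℕ → ℝ} (z : ℤ) (h : ∀ S, F S ≤ G S) : Mt μ s η t F z ≤ Mt μ s η t G z := by
  unfold Mt
  refine sum_le_sum fun S _ => ?_
  split_ifs
  · exact mul_le_mul_of_nonneg_left (h S) (pth_nonneg _ _ _)
  · exact le_rfl

theorem Mt_smul (η : Env) (t : ℕ) (F : Finset ℕ → ℝ) (a : ℝ) (z : ℤ) :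
    Mt μ s η t (fun S => a * F S) z = a * Mt μ s η t F z := by
  unfold Mt
  rw [mul_sum]
  refine sum_congr rfl fun S _ => ?_
  split_ifs <;> ring

theorem Mt_add_fun (η : Env) (t : ℕ) (F G : Finset ℕ → ℝ) (z : ℤ) :
    Mt μ s η t (fun S => F S + G S) z = Mt μ s η t F z + Mt μ s η t G z := by
  unfold Mt
  rw [← sum_add_distrib]
  refine sum_congr rfl fun S _ => ?_
  split_ifs <;> ring

/-- Elementary: two positive numbers close to each other relative to both. -/
theorem abs_log_div_le {a b e : ℝ} (ha : 0 < a) (hb : 0 < b) (h1 : a ≤ b + e * b) (h2 : b ≤ a + e * a) :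
    |Real.log (a / b)| ≤ e := by
  rw [abs_le]
  constructor
  · rw [neg_le, ← Real.log_inv, inv_div]
    refine (Real.log_le_sub_one_of_pos (div_pos hb ha)).trans ?_
    rw [sub_le_iff_le_add, div_le_iff₀ ha]
    linarith
  · refine (Real.log_le_sub_one_of_pos (div_pos ha hb)).trans ?_
    rw [sub_le_iff_le_add, div_le_iff₀ hb]
    linarith

/-- **(T3)** the field is small where the tilted paths have a small mass; `a S` = an upper indicator of `A ≠ 0`. -/
theorem fG_tail {c K : ℕ} {Q : Finset Pt} {D : ℝ} {A : Env → Finset ℕ → ℝ} (hD : 0 ≤ D) (h : PA c D A) {k : ℕ} (hk : k < K)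
    (z : ℤ) (η : Env) {a : Finset ℕ → ℝ} (ha0 : ∀ S, 0 ≤ a S) (ha : ∀ S, A η S ≠ 0 → 1 ≤ a S) :
    |fG μ s c K Q A (((c + k + 1 : ℕ) : ℤ), z) η| ≤ Real.exp (2 * D) *
      (Mt μ s η (c + k + 1) (fun S => a (S ∩ range c) * ind c (k + 1) Q S) z /
        Mt μ s η (c + k + 1) (ind c (k + 1) Q) z) := by
  rw [fG_eq]
  set M0 : ℝ := Mt μ s η (c + k + 1) (ind c (k + 1) Q) z with hM0
  set Ma : ℝ := Mt μ s η (c + k + 1) (fun S => a (S ∩ range c) * ind c (k + 1) Q S) z with hMa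
  have hKr : (0 : ℝ) < K := by exact_mod_cast (by omega : 0 < K)
  have hs : ∀ i ≤ K, 0 ≤ sch 0 1 K i ∧ sch 0 1 K i ≤ 1 := fun i hi => by
    unfold sch
    have h1 : (i : ℝ) ≤ K := by exact_mod_cast hi
    constructor
    · positivity
    · rw [zero_add, sub_zero, one_mul, div_le_one hKr]
      exact h1
  -- bounds of the tilted sums
  set g : ℝ → ℝ := fun τ => Mt μ s η (c + k + 1) (fun S => Real.exp (τ * A η (S ∩ range c)) * ind c (k + 1) Q S) z with hg
  have low : ∀ τ, 0 ≤ τ → τ ≤ 1 → Real.exp (-D) * M0 ≤ g τ := fun τ h0 h1 => by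
    rw [hM0, hg, ← Mt_smul]
    refine Mt_mono η _ z fun S => mul_le_mul_of_nonneg_right (Real.exp_le_exp.2 ?_) (ind_nonneg _ _ _ _)
    have h3 := neg_le_of_abs_le (h.bd η (S ∩ range c))
    nlinarith [abs_nonneg (A η (S ∩ range c))]
  have dif : ∀ τ τ', 0 ≤ τ → τ ≤ 1 → 0 ≤ τ' → τ' ≤ 1 → g τ' ≤ g τ + Real.exp D * Ma := fun τ τ' h0 h1 h0' h1' => by
    rw [hMa, hg, ← Mt_smul, ← Mt_add_fun]
    refine Mt_mono η _ z fun S => ?_
    rw [← mul_assoc, ← add_mul]
    refine mul_le_mul_of_nonneg_right ?_ (ind_nonneg _ _ _ _)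
    by_cases hz : A η (S ∩ range c) = 0
    · rw [hz]
      simp only [mul_zero, Real.exp_zero]
      have := mul_nonneg (Real.exp_pos D).le (ha0 (S ∩ range c))
      linarith
    · have h3 := ha _ hz
      have h4 : Real.exp (τ' * A η (S ∩ range c)) ≤ Real.exp D := by
        refine Real.exp_le_exp.2 ?_
        have h5 := (le_abs_self _).trans (h.bd η (S ∩ range c))
        nlinarith [abs_nonneg (A η (S ∩ range c))]
      have h6 : Real.exp D * 1 ≤ Real.exp D * a (S ∩ range c) := mul_le_mul_of_nonneg_left h3 (Real.exp_pos _).le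
      have h7 := (Real.exp_pos (τ * A η (S ∩ range c))).le
      linarith
  have hM0n : 0 ≤ M0 := Mt_nonneg η _ (ind_nonneg _ _ _) z
  obtain ⟨p0, p1⟩ := hs k (by omega)
  obtain ⟨q0, q1⟩ := hs (k + 1) (by omega)
  have hMan : 0 ≤ Ma := Mt_nonneg η _ (fun S => mul_nonneg (ha0 _) (ind_nonneg _ _ _ _)) z
  change |Real.log (g (sch 0 1 K (k + 1)) / g (sch 0 1 K k))| ≤ _
  rcases hM0n.eq_or_lt with h0 | h0
  · -- no path at all
    have hz : ∀ τ, g τ = 0 := fun τ => by
      have h1 : g τ ≤ Real.exp (|τ| * D) * M0 := by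
        rw [hM0, hg, ← Mt_smul]
        refine Mt_mono η _ z fun S => mul_le_mul_of_nonneg_right (Real.exp_le_exp.2 ?_) (ind_nonneg _ _ _ _)
        calc τ * A η (S ∩ range c) ≤ |τ * A η (S ∩ range c)| := le_abs_self _
          _ = |τ| * |A η (S ∩ range c)| := abs_mul _ _
          _ ≤ |τ| * D := mul_le_mul_of_nonneg_left (h.bd _ _) (abs_nonneg _)
      have h2 : 0 ≤ g τ := Mt_nonneg η _ (fun S => mul_nonneg (Real.exp_pos _).le (ind_nonneg _ _ _ _)) z
      rw [← h0, mul_zero] at h1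
      exact le_antisymm h1 h2
    rw [hz, hz, ← h0]
    simp
  · have hgp : ∀ τ, 0 ≤ τ → τ ≤ 1 → 0 < g τ := fun τ t0 t1 =>
      (mul_pos (Real.exp_pos _) h0).trans_le (low τ t0 t1)
    have hrel : ∀ τ, 0 ≤ τ → τ ≤ 1 → Real.exp D * Ma ≤ Real.exp (2 * D) * (Ma / M0) * g τ := fun τ t0 t1 => by
      have h1 := mul_le_mul_of_nonneg_left (low τ t0 t1) (mul_nonneg (Real.exp_pos (2 * D)).le (div_nonneg hMan hM0n))
      refine le_trans (le_of_eq ?_) h1
      have h2 : Real.exp (2 * D) = Real.exp D * Real.exp D := by rw [← Real.exp_add]; ring_nf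
      rw [h2, Real.exp_neg]
      have := (Real.exp_pos D).ne'
      field_simp
    refine abs_log_div_le (hgp _ q0 q1) (hgp _ p0 p1) ?_ ?_
    · have h1 := dif _ _ p0 p1 q0 q1
      have h2 := hrel _ p0 p1
      linarith
    · have h1 := dif _ _ q0 q1 p0 p1
      have h2 := hrel _ q0 q1
      linarith

/-! ### (T4) Quasi-invariance with a good event -/

theorem quasi_ev [IsProbabilityMeasure μ] {p C θ0 B : ℝ} (hp : 1 ≤ p) (hC : 0 ≤ C) (hQI : QI μ p C θ0) (r : Pt → ℤ)
    (S : Finset Pt) (φ : Pt → Env → ℝ) (hm : ∀ a ∈ S, Measurable (φ a)) (hc : PredR r S φ)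
    (hM : ∀ a ∈ S, ∀ η, |φ a η| ≤ θ0) {Ω : Set Env} (hΩ : MeasurableSet Ω) (hB : ∀ η ∈ Ω, ∑ a ∈ S, φ a η ^ 2 ≤ B)
    (F F' : Env → ℝ≥0∞) (hF : Measurable F) (hFF : ∀ η ∈ Ω, F' η ≤ F (Sh S φ η)) {M : ℝ≥0∞} (hF' : ∀ η, F' η ≤ M) :
    ∫⁻ η, F' η ∂(law μ) ≤ ENNReal.ofReal (Real.exp (C * B)) * (∫⁻ η, F η ^ p ∂(law μ)) ^ (1 / p) + M * law μ Ωᶜ := by
  have h1 := quasi_r hp hQI r S φ hm hc hM F hF
  rw [← lintegral_add_compl F' hΩ]
  refine add_le_add ?_ ?_
  · calc ∫⁻ η in Ω, F' η ∂(law μ)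
        ≤ ∫⁻ η in Ω, ENNReal.ofReal (Real.exp (C * B)) * (F (Sh S φ η) *
            ENNReal.ofReal (Real.exp (-(C * ∑ a ∈ S, φ a η ^ 2)))) ∂(law μ) := by
          refine setLIntegral_mono' hΩ fun η hη => (hFF η hη).trans ?_
          have h2 : (1 : ℝ≥0∞) ≤ ENNReal.ofReal (Real.exp (C * B)) *
              ENNReal.ofReal (Real.exp (-(C * ∑ a ∈ S, φ a η ^ 2))) := by
            rw [← ENNReal.ofReal_mul (Real.exp_pos _).le, ← Real.exp_add, ← ENNReal.ofReal_one]
            refine ENNReal.ofReal_le_ofReal (Real.one_le_exp ?_)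
            nlinarith [hB η hη]
          calc F (Sh S φ η) = F (Sh S φ η) * 1 := (mul_one _).symm
            _ ≤ F (Sh S φ η) * (ENNReal.ofReal (Real.exp (C * B)) *
              ENNReal.ofReal (Real.exp (-(C * ∑ a ∈ S, φ a η ^ 2)))) := by gcongr
            _ = _ := by ring
      _ ≤ ∫⁻ η, ENNReal.ofReal (Real.exp (C * B)) * (F (Sh S φ η) *
            ENNReal.ofReal (Real.exp (-(C * ∑ a ∈ S, φ a η ^ 2)))) ∂(law μ) := setLIntegral_le_lintegral _ _
      _ = ENNReal.ofReal (Real.exp (C * B)) * ∫⁻ η, F (Sh S φ η) *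
            ENNReal.ofReal (Real.exp (-(C * ∑ a ∈ S, φ a η ^ 2))) ∂(law μ) := by
          refine lintegral_const_mul _ ?_
          refine (hF.comp (Sh_meas hm)).mul ?_
          refine Measurable.ennreal_ofReal (Measurable.exp (Measurable.neg (Measurable.const_mul ?_ _)))
          exact Finset.measurable_sum _ fun b hb => (hm b hb).pow_const 2
      _ ≤ _ := by gcongr
  · calc ∫⁻ η in Ωᶜ, F' η ∂(law μ) ≤ ∫⁻ _η in Ωᶜ, M ∂(law μ) := setLIntegral_mono' hΩ.compl fun η _ => hF' η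
      _ = M * law μ Ωᶜ := by rw [setLIntegral_const]

/-! ### (T5) Replicas -/

section Rep

variable {X : Type*} [Fintype X] {Y : Type*}

/-- The average over `m` replicas of the measure with the weights `v ≥ 0`. -/
def rpv (m : ℕ) (v : X → ℝ) (Ψ : (Fin m → X) → ℝ) : ℝ := (∑ x : Fin m → X, (∏ i, v (x i)) * Ψ x) / (∑ x, v x) ^ m

theorem rpv_exp [Nonempty X] (m : ℕ) (w : X → ℝ) (Ψ : (Fin m → X) → ℝ) :
    rpv m (fun x => Real.exp (w x)) Ψ = rep m w Ψ := by
  unfold rpv rep gz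
  congr 1
  exact sum_congr rfl fun x _ => by rw [Real.exp_sum]

theorem rpv_mono (m : ℕ) {v : X → ℝ} (hv : ∀ x, 0 ≤ v x) {Ψ Φ : (Fin m → X) → ℝ} (h : ∀ x, Ψ x ≤ Φ x) :
    rpv m v Ψ ≤ rpv m v Φ := by
  unfold rpv
  refine div_le_div_of_nonneg_right ?_ (pow_nonneg (sum_nonneg fun x _ => hv x) m)
  exact sum_le_sum fun x _ => mul_le_mul_of_nonneg_left (h x) (prod_nonneg fun i _ => hv (x i))

theorem rpv_nonneg (m : ℕ) {v : X → ℝ} (hv : ∀ x, 0 ≤ v x) {Ψ : (Fin m → X) → ℝ} (h : ∀ x, 0 ≤ Ψ x) : 0 ≤ rpv m v Ψ :=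
  div_nonneg (sum_nonneg fun x _ => mul_nonneg (prod_nonneg fun i _ => hv (x i)) (h x))
    (pow_nonneg (sum_nonneg fun x _ => hv x) m)

/-- Two weights with the same sums against the functions of `p` have the same replica averages of the functions of `p`. -/
theorem sum_rep_eq (m : ℕ) {u v : X → ℝ} {p : X → Y} (huv : ∀ b : Y → ℝ, ∑ x, u x * b (p x) = ∑ x, v x * b (p x))
    (b : (Fin m → Y) → ℝ) :
    ∑ x : Fin m → X, (∏ i, u (x i)) * b (fun i => p (x i)) = ∑ x : Fin m → X, (∏ i, v (x i)) * b (fun i => p (x i)) := by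
  induction m with
  | zero => simp
  | succ m ih =>
    have hc : ∀ (f : X → ℝ), ∑ x : Fin (m + 1) → X, (∏ i, f (x i)) * b (fun i => p (x i)) =
        ∑ y : X, f y * ∑ x : Fin m → X, (∏ i, f (x i)) * b (Fin.cons (p y) (fun i => p (x i))) := fun f => by
      rw [← (Fin.consEquiv (fun _ : Fin (m + 1) => X)).sum_comp, Fintype.sum_prod_type]
      refine sum_congr rfl fun y _ => ?_
      rw [mul_sum]
      refine sum_congr rfl fun x _ => ?_
      have e1 : (fun i => p ((Fin.consEquiv fun _ : Fin (m + 1) => X) (y, x) i)) =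
          (Fin.cons (p y) (fun i => p (x i)) : Fin (m + 1) → Y) := by
        funext i
        refine Fin.cases ?_ (fun j => ?_) i
        · rfl
        · rfl
      rw [e1, Fin.prod_univ_succ]
      show f y * (∏ i : Fin m, f (x i)) * _ = _
      ring
    rw [hc, hc]
    calc ∑ y : X, u y * ∑ x : Fin m → X, (∏ i, u (x i)) * b (Fin.cons (p y) (fun i => p (x i)))
        = ∑ y : X, u y * ∑ x : Fin m → X, (∏ i, v (x i)) * b (Fin.cons (p y) (fun i => p (x i))) :=
          sum_congr rfl fun y _ => by rw [ih fun z => b (Fin.cons (p y) z)]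
      _ = _ := huv fun y' => ∑ x : Fin m → X, (∏ i, v (x i)) * b (Fin.cons y' (fun i => p (x i)))

/-- Replica averages of the functions of `p`. -/
theorem rpv_eq (m : ℕ) {u v : X → ℝ} {p : X → Y} (huv : ∀ b : Y → ℝ, ∑ x, u x * b (p x) = ∑ x, v x * b (p x))
    {Ψ : (Fin m → X) → ℝ} (hΨ : ∀ x x' : Fin m → X, (∀ i, p (x i) = p (x' i)) → Ψ x = Ψ x') :
    rpv m u Ψ = rpv m v Ψ := by
  classical
  obtain ⟨b, hb⟩ : ∃ b : (Fin m → Y) → ℝ, ∀ x, Ψ x = b (fun i => p (x i)) := by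
    refine ⟨fun y => if h : ∃ x : Fin m → X, (fun i => p (x i)) = y then Ψ h.choose else 0, fun x => ?_⟩
    have hx : ∃ x' : Fin m → X, (fun i => p (x' i)) = fun i => p (x i) := ⟨x, rfl⟩
    show Ψ x = if h : ∃ x' : Fin m → X, (fun i => p (x' i)) = (fun i => p (x i)) then Ψ h.choose else 0
    rw [dif_pos hx]
    exact hΨ _ _ fun i => (congrFun hx.choose_spec i).symm
  unfold rpv
  simp only [hb]
  rw [sum_rep_eq m huv b]
  have h1 := huv fun _ => 1
  simp only [mul_one] at h1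
  rw [h1]

theorem rep_site [Nonempty X] (m : ℕ) (w a : X → ℝ) (i : Fin m) : rep m w (fun x => a (x i)) = gm w a := by
  induction m with
  | zero => exact i.elim0
  | succ m ih =>
    refine Fin.cases ?_ (fun j => ?_) i
    · have h := rep_cons m w a fun _ => 1
      rw [H41.rep_one, mul_one] at h
      simpa using h
    · have h := rep_tail m w fun x => a (x j)
      rw [ih j] at h
      exact h

/-- Restriction of the replicas to a set of paths of almost full mass: `a` = the indicator. -/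
theorem rpv_rep [Nonempty X] (m : ℕ) (w : X → ℝ) {a : X → ℝ} (ha : ∀ x, 0 ≤ a x ∧ a x ≤ 1) {Ψ : (Fin m → X) → ℝ} {M : ℝ}
    (hΨ : ∀ x, |Ψ x| ≤ M) (hpos : 0 < ∑ x, Real.exp (w x) * a x) :
    |rpv m (fun x => Real.exp (w x) * a x) Ψ - rep m w Ψ| ≤ 2 * (m * gm w (fun x => 1 - a x)) * M := by
  have hZp : 0 < gz w := gz_pos w
  have hM : 0 ≤ M := (abs_nonneg _).trans (hΨ fun _ => Classical.arbitrary X)
  have hpa : ∀ x : Fin m → X, 0 ≤ ∏ i, a (x i) ∧ ∏ i, a (x i) ≤ 1 := fun x =>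
    ⟨prod_nonneg fun i _ => (ha _).1, prod_le_one (fun i _ => (ha _).1) fun i _ => (ha _).2⟩
  have e1 : ∑ x : Fin m → X, (∏ i, Real.exp (w (x i)) * a (x i)) * Ψ x =
      gz w ^ m * rep m w (fun x => (∏ i, a (x i)) * Ψ x) := by
    unfold rep
    rw [mul_div_cancel₀ _ (pow_pos hZp m).ne']
    refine sum_congr rfl fun x _ => ?_
    rw [prod_mul_distrib, Real.exp_sum]
    ring
  have e2 : (∑ x, Real.exp (w x) * a x) ^ m = gz w ^ m * rep m w (fun x => ∏ i, a (x i)) := by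
    have h1 : (∑ x, Real.exp (w x) * a x) ^ m = ∑ x : Fin m → X, ∏ i, (Real.exp (w (x i)) * a (x i)) := by
      rw [← Fin.prod_const m (∑ x, Real.exp (w x) * a x), Fintype.prod_sum]
    rw [h1]
    unfold rep
    rw [mul_div_cancel₀ _ (pow_pos hZp m).ne']
    refine sum_congr rfl fun x _ => ?_
    rw [prod_mul_distrib, Real.exp_sum]
  have hPp : 0 < rep m w (fun x => ∏ i, a (x i)) := by
    have : 0 < gz w ^ m * rep m w (fun x => ∏ i, a (x i)) := by rw [← e2]; exact pow_pos hpos m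
    exact (pos_iff_pos_of_mul_pos this).1 (pow_pos hZp m)
  have e3 : rpv m (fun x => Real.exp (w x) * a x) Ψ =
      rep m w (fun x => (∏ i, a (x i)) * Ψ x) / rep m w (fun x => ∏ i, a (x i)) := by
    unfold rpv
    rw [e1, e2, mul_div_mul_left _ _ (pow_pos hZp m).ne']
  -- the mass of the product indicator is close to one
  have e4 : rep m w (fun x => 1 - ∏ i, a (x i)) = 1 - rep m w (fun x => ∏ i, a (x i)) := by
    rw [H41.rep_sub m w (fun _ => 1) fun x => ∏ i, a (x i), H41.rep_one]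
  have hP1 : 1 - rep m w (fun x => ∏ i, a (x i)) ≤ m * gm w (fun x => 1 - a x) := by
    have h1 : ∀ x : Fin m → X, 1 - ∏ i, a (x i) ≤ ∑ i ∈ (univ : Finset (Fin m)), (1 - a (x i)) := fun x => by
      have key : ∀ T : Finset (Fin m), 1 - ∏ i ∈ T, a (x i) ≤ ∑ i ∈ T, (1 - a (x i)) := fun T => by
        classical
        induction T using Finset.induction_on with
        | empty => simp
        | insert j T hj ih =>
          rw [prod_insert hj, sum_insert hj]
          have h3 : 0 ≤ ∏ i ∈ T, a (x i) := prod_nonneg fun i _ => (ha _).1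
          have h4 : ∏ i ∈ T, a (x i) ≤ 1 := prod_le_one (fun i _ => (ha _).1) fun i _ => (ha _).2
          nlinarith [(ha (x j)).1, (ha (x j)).2]
      exact key univ
    have h2 := rep_mono m w h1
    rw [e4, H41.rep_sum] at h2
    refine h2.trans_eq ?_
    rw [sum_congr rfl fun i _ => rep_site m w (fun x => 1 - a x) i, sum_const, card_univ, Fintype.card_fin, nsmul_eq_mul]
  have hPle : rep m w (fun x => ∏ i, a (x i)) ≤ 1 := by
    have h := rep_mono m w fun x => (hpa x).2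
    rwa [H41.rep_one] at h
  have hR : |rep m w (fun x => (∏ i, a (x i)) * Ψ x)| ≤ M * rep m w (fun x => ∏ i, a (x i)) := by
    have h : ∀ x : Fin m → X, |(∏ i, a (x i)) * Ψ x| ≤ M * ∏ i, a (x i) := fun x => by
      rw [abs_mul, abs_of_nonneg (hpa x).1, mul_comm]
      exact mul_le_mul_of_nonneg_right (hΨ x) (hpa x).1
    exact (abs_rep_le m w h).trans_eq (rep_smul m w M _)
  have hd : |rep m w Ψ - rep m w (fun x => (∏ i, a (x i)) * Ψ x)| ≤ M * (1 - rep m w (fun x => ∏ i, a (x i))) := by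
    rw [← H41.rep_sub, ← e4, ← rep_smul]
    refine abs_rep_le m w fun x => ?_
    have e : Ψ x - (∏ i, a (x i)) * Ψ x = (1 - ∏ i, a (x i)) * Ψ x := by ring
    rw [e, abs_mul, abs_of_nonneg (by linarith [(hpa x).2]), mul_comm]
    exact mul_le_mul_of_nonneg_right (hΨ x) (by linarith [(hpa x).2])
  rw [e3]
  set P : ℝ := rep m w (fun x => ∏ i, a (x i))
  set R : ℝ := rep m w (fun x => (∏ i, a (x i)) * Ψ x)
  have h5 : |R / P - R| ≤ M * (1 - P) := by
    have e : R / P - R = (R / P) * (1 - P) := by field_simp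
    rw [e, abs_mul, abs_of_nonneg (by linarith : (0 : ℝ) ≤ 1 - P), abs_div, abs_of_pos hPp]
    refine mul_le_mul_of_nonneg_right ?_ (by linarith)
    rw [div_le_iff₀ hPp]
    exact hR
  have h6 : |R / P - rep m w Ψ| ≤ |R / P - R| + |rep m w Ψ - R| := by
    have e : R / P - rep m w Ψ = (R / P - R) - (rep m w Ψ - R) := by ring
    rw [e]
    exact abs_sub _ _
  have h7 : M * (1 - P) ≤ M * (m * gm w fun x => 1 - a x) := mul_le_mul_of_nonneg_left hP1 hM
  linarith

/-- Bounded tilts. -/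
theorem gm_tilt [Nonempty X] {w w' : X → ℝ} {D : ℝ} (h : ∀ x, |w' x - w x| ≤ D) {f : X → ℝ} (hf : ∀ x, 0 ≤ f x) :
    gm w' f ≤ Real.exp (2 * D) * gm w f := by
  unfold gm
  have h1 : ∑ x, Real.exp (w' x) * f x ≤ Real.exp D * ∑ x, Real.exp (w x) * f x := by
    rw [mul_sum]
    refine sum_le_sum fun x _ => ?_
    rw [← mul_assoc, ← Real.exp_add]
    refine mul_le_mul_of_nonneg_right (Real.exp_le_exp.2 ?_) (hf x)
    linarith [(abs_le.1 (h x)).2]
  have h2 : Real.exp (-D) * gz w ≤ gz w' := by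
    unfold gz
    rw [mul_sum]
    refine sum_le_sum fun x _ => ?_
    rw [← Real.exp_add]
    refine Real.exp_le_exp.2 ?_
    linarith [(abs_le.1 (h x)).1]
  have h3 : 0 ≤ ∑ x, Real.exp (w x) * f x := sum_nonneg fun x _ => mul_nonneg (Real.exp_pos _).le (hf x)
  rw [div_le_iff₀ (gz_pos w')]
  refine h1.trans ?_
  have h4 : Real.exp D * ∑ x, Real.exp (w x) * f x =
      Real.exp (2 * D) * ((∑ x, Real.exp (w x) * f x) / gz w) * (Real.exp (-D) * gz w) := by
    have e : Real.exp (2 * D) = Real.exp D * Real.exp D := by rw [← Real.exp_add]; ring_nf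
    rw [e, Real.exp_neg]
    have h5 := (gz_pos w).ne'
    have h6 := (Real.exp_pos D).ne'
    field_simp
  rw [h4]
  exact mul_le_mul_of_nonneg_left h2 (mul_nonneg (Real.exp_pos _).le (div_nonneg h3 (gz_pos w).le))

end Rep

/-! ### The slab step -/

section Final

variable {N c K : ℕ} {P : Finset (Finset ℕ)} {Q : Finset Pt} {D : ℝ} {A : Env → Finset ℕ → ℝ}

theorem lw_eq (η : Env) (S : Px P) : lw μ s η N P S =
    s * (pos S.1 N : ℝ) - N * lam μ s + ∑ i ∈ range N, η ((i : ℤ) + 1, pos S.1 (i + 1)) := by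
  unfold lw pth
  rw [← Real.exp_sum, ← Real.exp_add, Real.log_exp]

/-- The logarithm of the weight of a path changes by at most `D`. -/
theorem abs_lw_Sh (hQ : Rws c K Q) (hD : 0 ≤ D) (h : PA c D A) (η : Env) (S : Px P) :
    |lw μ s (Sh Q (fG μ s c K Q A) η) N P S - lw μ s η N P S| ≤ D := by
  classical
  rw [lw_eq, lw_eq, add_sub_add_left_eq_sub, ← sum_sub_distrib]
  have h1 : ∀ i ∈ range N, |Sh Q (fG μ s c K Q A) η ((i : ℤ) + 1, pos S.1 (i + 1)) - η ((i : ℤ) + 1, pos S.1 (i + 1))| ≤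
      if i ∈ Ico c (c + K) then D / K else 0 := fun i _ => by
    by_cases hp : (((i : ℤ) + 1, pos S.1 (i + 1)) : Pt) ∈ Q
    · have h2 := hQ _ hp
      simp only at h2
      rw [Sh_in _ _ hp, add_sub_cancel_left, if_pos (mem_Ico.2 (by omega))]
      exact fG_bd hD h _ _
    · rw [Sh_out _ _ hp, sub_self, abs_zero]
      split_ifs <;> positivity
  refine (abs_sum_le_sum_abs _ _).trans ((sum_le_sum h1).trans ?_)
  rw [← sum_filter]
  have h3 : ((range N).filter fun i => i ∈ Ico c (c + K)).card ≤ K := by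
    refine (card_le_card fun i hi => (mem_filter.1 hi).2).trans ?_
    rw [Nat.card_Ico]
    omega
  rw [sum_const, nsmul_eq_mul]
  rcases Nat.eq_zero_or_pos K with h0 | h0
  · subst h0
    simp [hD]
  · have hK : (0 : ℝ) < K := by exact_mod_cast h0
    calc ((((range N).filter fun i => i ∈ Ico c (c + K)).card : ℕ) : ℝ) * (D / K) ≤ K * (D / K) :=
          mul_le_mul_of_nonneg_right (by exact_mod_cast h3) (by positivity)
      _ = D := by field_simp

/-- **The slab step, for one environment**: the tilted average of a function `Ψ` of what the replicas do behind the slab against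
the average of `Ψ'` in the shifted environment. -/
theorem e0_pt [Nonempty (Px P)] (hP : Fam N (c + K) P) (hQ : Rws c K Q) (hK0 : 0 < K) (hN : c + K ≤ N) (hD : 0 ≤ D)
    (h : PA c D A) (η : Env) {m : ℕ} {Ψ Ψ' : (Fin m → Px P) → ℝ} {M ε : ℝ}
    (hΨ : ∀ x x' : Fin m → Px P, (∀ i, pB (c + K) (x i) = pB (c + K) (x' i)) → Ψ x = Ψ x') (hle : ∀ x, Ψ x ≤ Ψ' x)
    (hM : ∀ x, |Ψ x| ≤ M) (hM' : ∀ x, |Ψ' x| ≤ M)
    (hε : gm (lw μ s η N P) (fun S => 1 - ind c K Q S.1) ≤ ε) (hε1 : ε < 1) :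
    rep m (fun S => lw μ s η N P S + tA c A η S) Ψ ≤
      rep m (lw μ s (Sh Q (fG μ s c K Q A) η) N P) Ψ' + 4 * m * Real.exp (2 * D) * ε * M := by
  set w1 : Px P → ℝ := fun S => lw μ s η N P S + tA c A η S with hw1
  set w2 : Px P → ℝ := lw μ s (Sh Q (fG μ s c K Q A) η) N P with hw2
  have ha : ∀ S : Px P, 0 ≤ ind c K Q S.1 ∧ ind c K Q S.1 ≤ 1 := fun S => ⟨ind_nonneg _ _ _ _, ind_le_one _ _ _ _⟩
  have hM0 : 0 ≤ M := (abs_nonneg _).trans (hM fun _ => Classical.arbitrary _)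
  have t1 : ∀ S, |w1 S - lw μ s η N P S| ≤ D := fun S => by
    rw [hw1]
    simp only [add_sub_cancel_left]
    exact h.bd η _
  have t2 : ∀ S, |w2 S - lw μ s η N P S| ≤ D := fun S => abs_lw_Sh hQ hD h η S
  have f0 : ∀ S : Px P, 0 ≤ 1 - ind c K Q S.1 := fun S => by linarith [(ha S).2]
  have g1 := (gm_tilt t1 f0).trans (mul_le_mul_of_nonneg_left hε (Real.exp_pos (2 * D)).le)
  have g2 := (gm_tilt t2 f0).trans (mul_le_mul_of_nonneg_left hε (Real.exp_pos (2 * D)).le)
  -- some path passes the slab inside of `Q`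
  obtain ⟨S0, hS0⟩ : ∃ S : Px P, ind c K Q S.1 ≠ 0 := by
    by_contra hcon
    push Not at hcon
    have e : (fun S : Px P => 1 - ind c K Q S.1) = fun _ => 1 := by
      funext S
      rw [hcon S, sub_zero]
    rw [e, gm_one] at hε
    linarith
  have hpos : ∀ w : Px P → ℝ, 0 < ∑ S, Real.exp (w S) * ind c K Q S.1 := fun w =>
    sum_pos' (fun S _ => mul_nonneg (Real.exp_pos _).le (ha S).1)
      ⟨S0, mem_univ _, mul_pos (Real.exp_pos _) (lt_of_le_of_ne (ha S0).1 (Ne.symm hS0))⟩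
  have r1 := (abs_le.1 (rpv_rep m w1 ha hM (hpos w1))).1
  have r2 := (abs_le.1 (rpv_rep m w2 ha hM' (hpos w2))).2
  have huv : ∀ b : ℤ × Finset ℕ → ℝ, ∑ S : Px P, (Real.exp (w1 S) * ind c K Q S.1) * b (pB (c + K) S) =
      ∑ S : Px P, (Real.exp (w2 S) * ind c K Q S.1) * b (pB (c + K) S) := fun b => by
    have key := trans_lw (μ := μ) (s := s) hP hQ hK0 hN h η b
    refine Eq.trans (sum_congr rfl fun S _ => mul_assoc _ _ _) (key.symm.trans (sum_congr rfl fun S _ => ?_))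
    exact (mul_assoc _ _ _).symm
  have r3 := rpv_eq m huv hΨ
  have r4 := rpv_mono m (v := fun S : Px P => Real.exp (w2 S) * ind c K Q S.1)
    (fun S => mul_nonneg (Real.exp_pos _).le (ha S).1) hle
  have g1' : 2 * ((m : ℝ) * gm w1 fun S => 1 - ind c K Q S.1) * M ≤ 2 * m * Real.exp (2 * D) * ε * M := by
    have := mul_le_mul_of_nonneg_left g1 (by positivity : (0 : ℝ) ≤ 2 * m * M)
    linarith
  have g2' : 2 * ((m : ℝ) * gm w2 fun S => 1 - ind c K Q S.1) * M ≤ 2 * m * Real.exp (2 * D) * ε * M := by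
    have := mul_le_mul_of_nonneg_left g2 (by positivity : (0 : ℝ) ≤ 2 * m * M)
    linarith
  linarith

end Final

end

end Pool.W7d29a1.C0.H27
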