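import Pool.Agent.W_7d29a1_C0.Far19
import Pool.Agent.W_7d29a1_C0.BFld63
import Pool.Agent.W_7d29a1_C0.Quasi32
import Pool.Agent.W_7d29a1_C0.FldP63
import Pool.Agent.W_7d29a1_C0.Trans27B

/-!
CURV0 (MP_7d29a1_pr), section GS (one kick): THE KICK FIELD `C_β`, forward and backward. (helper27)

`lw_Sh`: a shift `η p ↦ η p + φ p η` over sites `V` of the rows `1 .. N` changes the log weights EXACTLY by the path functional
`Cf V φ nn η`. `KF`: the data of a shift which `Q32.q1`, `Q32.q3` need. `kf_cut`: a field over whole rows cut to the tube of the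
boxes `β` of a finite family of replicas has small squares. `cF` / `cB`: the slab averages of the conditional means of a function
`H` given the path behind the rows of a slab behind the window (forward), resp. of `A` given the path up to the rows of a slab
before the window (backward); `Cf_cF`, `Cf_cB`: their path functionals, on the cut fields. (`KickR27` / `KickL27`: `H = - 2 a_j g_j`.)
-/

set_option autoImplicit false
set_option linter.unusedSectionVars false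
set_option linter.unusedVariables false

namespace Pool.W7d29a1.C0.K27

open Finset MeasureTheory Pool.Agent.W_7d29a1_F Pool.Agent.W_7d29a1_X Pool.W7d29a1.C0
open Pool.Agent.W_7d29a1_C0.Mod92
open Pool.W7d29a1.C0.H27 (Sh PredR Sh_in Sh_out Sh_meas Fam fam_Fr fam_Pn pos_split)
open Pool.W7d29a1.C0.VT31 (Mp Crs cE fz)
open Pool.W7d29a1.C0.H19 (Cf)
open Pool.W7d29a1.C0.H41 (cut QV)
open Pool.W7d29a1.C0.Fld19 (nn nn_nonneg nn_le_one Ph Cf_Px Sl mem_Sl Ph_Sl GQ gq_Fr gq_Pn Past fq pb pb_eq_iff BF_fq fq_blind cE_fq wU)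
open Pool.W7d29a1.C0.T73 (chT chT_nonneg chT_le_one JZ QV_Sl abs_Cf_Sl)
open Pool.Agent.W_7d29a1_C0.Q32 (WL UU blind_of_upd)
open scoped ENNReal

noncomputable section

variable {μ : Measure ℝ} {s : ℝ} {N : ℕ} {Q : Finset (Finset ℕ)}

/-! ### The shift of the log weights -/

/-- The visits of a path. -/
abbrev nP (Q : Finset (Finset ℕ)) : Pt → Px Q → ℝ := fun p S => nn p S.1

/-- **The exact shift of the log weights.** -/
theorem lw_Sh {V : Finset Pt} (hV : ∀ p ∈ V, 1 ≤ p.1 ∧ p.1 ≤ (N : ℤ)) (φ : Pt → Env → ℝ) (η : Env) :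
    lw μ s (Sh V φ η) N Q = lw μ s η N Q + Cf V φ (nP Q) η := by
  funext S
  rw [Pi.add_apply, congrFun (Cf_Px V φ η) S, H27.lw_eq, H27.lw_eq]
  have e1 : ∀ i ∈ range N, Sh V φ η ((i : ℤ) + 1, pos S.1 (i + 1)) = η ((i : ℤ) + 1, pos S.1 (i + 1)) +
      ∑ q ∈ V, (if q = ((i : ℤ) + 1, pos S.1 (i + 1)) then φ q η else 0) := fun i _ => by
    rw [sum_ite_eq']
    split_ifs with h
    · exact Sh_in φ η h
    · rw [Sh_out φ η h, add_zero]
  rw [sum_congr rfl e1, sum_add_distrib, sum_comm]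
  have e2 : ∀ q ∈ V, ∑ i ∈ range N, (if q = ((i : ℤ) + 1, pos S.1 (i + 1)) then φ q η else 0) = φ q η * nn q S.1 := fun q hq => by
    obtain ⟨h1, h2⟩ := hV q hq
    rw [sum_eq_single (q.1.toNat - 1)]
    · have a1 : ((q.1.toNat - 1 : ℕ) : ℤ) + 1 = q.1 := by omega
      have a2 : q.1.toNat - 1 + 1 = q.1.toNat := by omega
      rw [a1, a2]
      unfold nn
      by_cases h : pos S.1 q.1.toNat = q.2
      · rw [if_pos (show q = (q.1, pos S.1 q.1.toNat) from Prod.ext rfl h.symm), if_pos (⟨h1, h⟩ : 1 ≤ q.1 ∧ _), mul_one]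
      · rw [if_neg fun h' : q = (q.1, pos S.1 q.1.toNat) => h (congrArg Prod.snd h').symm, if_neg fun h' => h h'.2, mul_zero]
    · intro i _ hi
      rw [if_neg]
      intro h
      have h3 := congrArg Prod.fst h
      simp only at h3
      exact hi (by omega)
    · intro h
      exact absurd (mem_range.2 (by omega)) h
  rw [sum_congr rfl e2]
  unfold Ph
  ring

/-- The same for the log weights of the outer space. -/
theorem wm_Sh {V : Finset Pt} (hV : ∀ p ∈ V, 1 ≤ p.1 ∧ p.1 ≤ (N : ℤ)) (φ : Pt → Env → ℝ) (ω : Env × Finset ℕ) :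
    wm μ s N Q (Sh V φ ω.1, ω.2) = wm μ s N Q ω + Cf V φ (nP Q) ω.1 := lw_Sh hV φ ω.1

/-- A response with a window off the shifted sites does not change. -/
theorem gw_Sh {V : Finset Pt} (φ : Pt → Env → ℝ) (η : Env) (δ B : ℝ) (a : ℤ) {c l k : ℕ} (hk : k ≤ l)
    (hV : ∀ p ∈ V, p.1 ≤ (c : ℤ) ∨ ((c + l : ℕ) : ℤ) < p.1) (x y : ℤ) :
    gw μ s (Sh V φ η) δ B a c l k x y = gw μ s η δ B a c l k x y :=
  blind_of_upd (S := V) (f := fun η => gw μ s η δ B a c l k x y)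
    (fun p hp η t => Pool.Agent.W_7d29a1_C0.FP63.gw_blind η δ B a hk x y (hV p hp) t) fun q hq => Sh_out φ η hq

theorem gj_Sh {V : Finset Pt} (φ : Pt → Env → ℝ) (η : Env) (δ B : ℝ) (b k : ℕ) (a : ℤ)
    (hV : ∀ p ∈ V, p.1 ≤ ((k - b : ℕ) : ℤ) ∨ ((k + b : ℕ) : ℤ) < p.1) :
    gj (Q := Q) μ s (Sh V φ η) δ B b k a = gj μ s η δ B b k a := by
  funext S
  unfold gj
  refine gw_Sh φ η δ B a (by omega) (fun p hp => ?_) _ _
  rw [show k - b + (k + b - (k - b)) = k + b by omega]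
  exact hV p hp

/-- The responses of the rows whose window is off the slab do not change. -/
theorem gg_Sh {J : Finset ℕ} {K : ℕ} (φ : Pt → Env → ℝ) (ω : Env × Finset ℕ) (δ B : ℝ) (b k : ℕ)
    (hJ : ∀ i ∈ J, i ≤ k - b ∨ k + b < i) :
    gg μ s Q δ B b (Sh (Sl J K) φ ω.1, ω.2) k = gg μ s Q δ B b ω k := by
  unfold gg
  refine gj_Sh φ ω.1 δ B b k (sg ω.2 k) fun p hp => ?_
  obtain ⟨i, hi, y, _, rfl⟩ := mem_Sl.1 hp
  simp only
  exact (hJ i hi).imp (fun h => by exact_mod_cast h) fun h => by exact_mod_cast h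

/-- A shift of the environment by a field which may depend on the signs is measurable on the outer space. -/
theorem sh_om {V : Finset Pt} {φ : Finset ℕ → Pt → Env → ℝ} (hm : ∀ A, ∀ p ∈ V, Measurable (φ A p)) :
    Measurable fun ω : Env × Finset ℕ => (Sh V (φ ω.2) ω.1, ω.2) :=
  meas_om fun A => (Sh_meas (hm A)).prodMk measurable_const

/-! ### The data of a kick -/

/-- The data of a shift which `Q32.q1` and `Q32.q3` need: measurable, triangular, size `d`, sum of the squares `BB`. -/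
structure KF (ρ : Pt → ℤ) (V : Finset Pt) (φ : Pt → Env → ℝ) (d BB : ℝ) : Prop where
  meas : ∀ p ∈ V, Measurable (φ p)
  pred : PredR ρ V φ
  bd : ∀ p ∈ V, ∀ η, |φ p η| ≤ d
  sq : ∀ η, ∑ p ∈ V, φ p η ^ 2 ≤ BB

theorem KF.mono {ρ : Pt → ℤ} {V : Finset Pt} {φ : Pt → Env → ℝ} {d d' BB BB' : ℝ} (h : KF ρ V φ d BB) (h1 : d ≤ d')
    (h2 : BB ≤ BB') : KF ρ V φ d' BB' :=
  ⟨h.meas, h.pred, fun p hp η => (h.bd p hp η).trans h1, fun η => (h.sq η).trans h2⟩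

/-- The hypothesis `hk` of `Q32.q3`. -/
theorem KF.hk {ρ : Pt → ℤ} {V : Finset Pt} {φ : Pt → Env → ℝ} {d BB t θ : ℝ} (h : KF ρ V φ d BB) (ht : 0 ≤ t)
    (hd : (2 * t + 3) * d ≤ θ) : ∀ p ∈ V, ∀ η, (2 * t + 3) * |φ p η| ≤ θ := fun p hp η =>
  (mul_le_mul_of_nonneg_left (h.bd p hp η) (by linarith)).trans hd

/-- **`Q32.q3` for a kick.** -/
theorem KF.q3 [IsProbabilityMeasure μ] {u : ℝ → ℝ → ℝ} {C θ : ℝ} (hW : WL μ u C θ) {ρ : Pt → ℤ} {V : Finset Pt}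
    {φ : Pt → Env → ℝ} {d BB a t : ℝ} (h : KF ρ V φ d BB) (ha : 0 ≤ a) (ht : 0 ≤ t) (hd : (2 * t + 3) * d ≤ θ)
    {F : Env → ℝ} (hF : Measurable F) (hF2 : Integrable (fun η => F η ^ 2) (law μ)) :
    Integrable (fun η => F (Sh V φ η)) (law μ) ∧
      |∫ η, F (Sh V φ η) ∂(law μ) - ∫ η, F η ∂(law μ)| ≤ (Real.exp a - 1) * ∫ η, |F η| ∂(law μ) +
        4 * Real.exp (-(t * a)) * Real.exp (C * ((2 * t + 3) ^ 2 + 1) * BB) * Real.sqrt (∫ η, F η ^ 2 ∂(law μ)) :=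
  Pool.Agent.W_7d29a1_C0.Q32.q3 hW ρ V φ h.meas h.pred ha ht (h.hk ht hd) h.sq hF hF2

/-- The cut of a field. -/
theorem cut_pred {ρ : Pt → ℤ} {V : Finset Pt} {c : Pt → Env → ℝ} (h : PredR ρ V c) (χ : Pt → ℝ) : PredR ρ V (cut χ c) :=
  fun p hp q hq hpq η x => by
    unfold H41.cut
    rw [h p hp q hq hpq η x]

section Cut

variable {sl' R : ℝ} {m0 : ℤ} {n : ℕ} {J : Finset ℕ} {K : ℕ} {ι : Type*} [Fintype ι]

/-- The cut field is smaller. -/
theorem abs_cut_le (β : ι → Fin (n + 1)) {c : Pt → Env → ℝ} {p : Pt} {η : Env} {d : ℝ} (h : |c p η| ≤ d) :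
    |cut (chT sl' R m0 β) c p η| ≤ d := by
  unfold H41.cut
  rw [abs_mul, abs_of_nonneg (chT_nonneg β p)]
  calc chT sl' R m0 β p * |c p η| ≤ 1 * d :=
        mul_le_mul (chT_le_one β p) h (abs_nonneg _) zero_le_one
    _ = d := one_mul _

/-- **The kick of a field cut to the tube of the boxes `β`.** -/
theorem kf_cut (hR : 1 ≤ R) (hJ : J.Nonempty) {ρ : Pt → ℤ} {c : Pt → Env → ℝ} {M : ℝ} (hm : ∀ p ∈ Sl J K, Measurable (c p))
    (hp : PredR ρ (Sl J K) c) (hb : ∀ p ∈ Sl J K, ∀ η, |c p η| ≤ M / J.card) (β : ι → Fin (n + 1)) :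
    KF ρ (Sl J K) (cut (chT sl' R m0 β) c) (M / J.card) (7 * Fintype.card ι * R * M ^ 2 / J.card) where
  meas := fun p hp' => (hm p hp').const_mul _
  pred := cut_pred hp _
  bd := fun p hp' η => abs_cut_le β (hb p hp' η)
  sq := fun η => QV_Sl hR hJ η (fun p hp' => hb p hp' η) β

/-- The path functional of a cut field over whole rows. -/
theorem Cf_cut_Sl (hJ : ∀ i ∈ J, 1 ≤ i) (hK : ∀ i ∈ J, i ≤ K) (χ : Pt → ℝ) (c : Pt → Env → ℝ) (η : Env) (S : Px Q) :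
    Cf (Sl J K) (cut χ c) (nP Q) η S = ∑ i ∈ J, χ ((i : ℤ), ps S i) * c ((i : ℤ), ps S i) η := by
  rw [congrFun (Cf_Px (Sl J K) (cut χ c) η) S, Ph_Sl hJ _ η fun i hi => (pos_le _ _).trans (by exact_mod_cast hK i hi)]
  rfl

theorem Cf_Sl (hJ : ∀ i ∈ J, 1 ≤ i) (hK : ∀ i ∈ J, i ≤ K) (c : Pt → Env → ℝ) (η : Env) (S : Px Q) :
    Cf (Sl J K) c (nP Q) η S = ∑ i ∈ J, c ((i : ℤ), ps S i) η := by
  rw [congrFun (Cf_Px (Sl J K) c η) S, Ph_Sl hJ _ η fun i hi => (pos_le _ _).trans (by exact_mod_cast hK i hi)]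
  rfl

/-- The size of the path functional of a cut field. -/
theorem abs_Cf_cut (hJ : J.Nonempty) {M : ℝ} (hM : 0 ≤ M) {c : Pt → Env → ℝ} (hb : ∀ p ∈ Sl J K, ∀ η, |c p η| ≤ M / J.card)
    (β : ι → Fin (n + 1)) (η : Env) (S : Px Q) : |Cf (Sl J K) (cut (chT sl' R m0 β) c) (nP Q) η S| ≤ M :=
  abs_Cf_Sl hJ hM η (fun p hp => abs_cut_le β (hb p hp η)) S

/-- The path functional depends on the positions at the rows `J` only. -/
theorem Cf_dep (hJ : ∀ i ∈ J, 1 ≤ i) (hK : ∀ i ∈ J, i ≤ K) (c : Pt → Env → ℝ) (η : Env) {S S' : Px Q}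
    (h : ∀ i ∈ J, ps S i = ps S' i) : Cf (Sl J K) c (nP Q) η S = Cf (Sl J K) c (nP Q) η S' := by
  rw [Cf_Sl hJ hK, Cf_Sl hJ hK]
  exact sum_congr rfl fun i hi => by rw [h i hi]

/-- It is a function of what the path does outside of a block without rows of `J`. -/
theorem Cf_mp (hJ : ∀ i ∈ J, 1 ≤ i) (hK : ∀ i ∈ J, i ≤ K) (c : Pt → Env → ℝ) (η : Env) {c' d' : ℕ}
    (h : ∀ i ∈ J, i ≤ c' ∨ d' ≤ i) : Mp (pJ (Q := Q) c' d') (Cf (Sl J K) c (nP Q) η) := fun S S' hS =>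
  Cf_dep hJ hK c η fun i hi => (h i hi).elim (fun h1 => ps_of_le hS h1) fun h1 => ps_of_ge hS h1

theorem Cf_meas {V : Finset Pt} {c : Pt → Env → ℝ} (hm : ∀ p ∈ V, Measurable (c p)) (S : Px Q) :
    Measurable fun η => Cf V c (nP Q) η S := by
  have e : (fun η => Cf V c (nP Q) η S) = fun η => ∑ p ∈ V, c p η * nn p S.1 := by
    funext η
    exact congrFun (Cf_Px V c η) S
  rw [e]
  exact Finset.measurable_sum _ fun p hp => (hm p hp).mul_const _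

theorem Sl_sub (hJ : ∀ i ∈ J, 1 ≤ i ∧ i ≤ N) : ∀ p ∈ Sl J K, 1 ≤ p.1 ∧ p.1 ≤ (N : ℤ) := fun p hp => by
  obtain ⟨i, hi, y, _, rfl⟩ := mem_Sl.1 hp
  obtain ⟨h1, h2⟩ := hJ i hi
  simp only
  exact ⟨by exact_mod_cast h1, by exact_mod_cast h2⟩

end Cut

/-! ### Fibres -/

section Fib

variable {X Y Y' : Type*} [Fintype X] [Nonempty X] [DecidableEq Y] [DecidableEq Y']

/-- The conditional mean depends on the fibres only. -/
theorem cE_congr_fib (w : X → ℝ) {p : X → Y} {q : X → Y'} (h : ∀ x x', p x' = p x ↔ q x' = q x) (f : X → ℝ) :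
    cE w p f = cE w q f := by
  funext x
  unfold cE fz
  congr 1
  · refine sum_congr rfl fun x' _ => ?_
    by_cases h1 : p x' = p x
    · rw [if_pos h1, if_pos ((h x x').1 h1)]
    · rw [if_neg h1, if_neg fun h2 => h1 ((h x x').2 h2)]
  · refine sum_congr rfl fun x' _ => ?_
    by_cases h1 : p x' = p x
    · rw [if_pos h1, if_pos ((h x x').1 h1)]
    · rw [if_neg h1, if_neg fun h2 => h1 ((h x x').2 h2)]

end Fib

/-- The fibres of `pb m` and of `pJ 0 m` are the same. -/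
theorem pb_pJ (m : ℕ) (S S' : Px Q) : pb m S' = pb m S ↔ pJ 0 m S' = pJ 0 m S := by
  rw [pb_eq_iff]
  unfold pJ
  rw [Prod.mk.injEq, ← range_eq_Ico, and_comm]

theorem cE_pb_pJ [Nonempty (Px Q)] (w : Px Q → ℝ) (m : ℕ) (f : Px Q → ℝ) : cE w (pb m) f = cE w (pJ 0 m) f :=
  cE_congr_fib w (fun S S' => pb_pJ m S S') f

/-- For the pinned paths the fibres of the past and of `pJ m N` are the same. -/
theorem pA_pJ {y : ℕ} {m : ℕ} (hm : m ≤ N) (S S' : Px (Pn N y)) : BF63.pA m S' = BF63.pA m S ↔ pJ m N S' = pJ m N S := by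
  have e1 : ∀ S : Px (Pn N y), S.1 \ Ico m N = S.1 ∩ range m := fun S => by
    ext i
    have h1 := (mem_powersetCard.1 S.2).1
    simp only [mem_sdiff, mem_inter, mem_Ico, mem_range]
    constructor
    · rintro ⟨h2, h3⟩
      have := mem_range.1 (h1 h2)
      exact ⟨h2, by omega⟩
    · rintro ⟨h2, h3⟩
      exact ⟨h2, by omega⟩
  have e2 : ∀ S : Px (Pn N y), (S.1 ∩ Ico m N).card + (S.1 ∩ range m).card = y := fun S => by
    have h1 := (mem_powersetCard.1 S.2).2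
    have h2 := card_sdiff_add_card_inter S.1 (Ico m N)
    rw [e1 S] at h2
    omega
  unfold BF63.pA pJ
  rw [Prod.mk.injEq, e1 S, e1 S']
  constructor
  · intro h
    refine ⟨h, ?_⟩
    have h1 := e2 S
    have h2 := e2 S'
    rw [h] at h2
    omega
  · exact fun h => h.1

theorem cE_pA_pJ {y : ℕ} [Nonempty (Px (Pn N y))] (w : Px (Pn N y) → ℝ) {m : ℕ} (hm : m ≤ N) (f : Px (Pn N y) → ℝ) :
    cE w (BF63.pA m) f = cE w (pJ m N) f := cE_congr_fib w (fun S S' => pA_pJ hm S S') f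

/-! ### The forward field -/

section Fwd

variable {c : ℕ} {H : Env → Finset ℕ → ℝ} {J : Finset ℕ} {M : ℝ} {K : ℕ}

/-- **The forward field**: the slab average over the rows `J` of the means of `H` over the paths from the origin to the site. -/
def cF (s : ℝ) (H : Env → Finset ℕ → ℝ) (J : Finset ℕ) : Pt → Env → ℝ := fun p η => (J.card : ℝ)⁻¹ * fq s (fun _ _ => 0) H p η

theorem bf_fq (hH : Past c H) (hM : ∀ η S, |H η S| ≤ M) (hJ : ∀ i ∈ J, c < i) : H19.BF (Sl J K) (fq s (fun _ _ => 0) H) M :=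
  BF_fq (Past.zero c) hH hM fun q hq => by
    obtain ⟨i, hi, y, _, rfl⟩ := mem_Sl.1 hq
    simp only
    exact_mod_cast hJ i hi

theorem cF_meas (hH : Past c H) (hM : ∀ η S, |H η S| ≤ M) (hJ : ∀ i ∈ J, c < i) : ∀ p ∈ Sl J K, Measurable (cF s H J p) :=
  fun p hp => ((bf_fq hH hM hJ).meas p hp).const_mul _

theorem cF_blind (hH : Past c H) {q r : Pt} (hcq : (c : ℤ) < q.1) (hr : q.1 ≤ r.1) (η : Env) (x : ℝ) :
    cF s H J q (Function.update η r x) = cF s H J q η := by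
  unfold cF
  rw [fq_blind (Past.zero c) hH hcq hr]

theorem cF_pred (hH : Past c H) (hJ : ∀ i ∈ J, c < i) : PredR (fun p => p.1) (Sl J K) (cF s H J) := fun p hp q _ hpq η x => by
  obtain ⟨i, hi, y, _, rfl⟩ := mem_Sl.1 hp
  exact cF_blind hH (by simp only; exact_mod_cast hJ i hi) hpq η x

theorem cF_bd (hH : Past c H) (hM : ∀ η S, |H η S| ≤ M) (hJ : ∀ i ∈ J, c < i) : ∀ p ∈ Sl J K, ∀ η, |cF s H J p η| ≤ M / J.card :=
  fun p hp η => by
    unfold cF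
    rw [abs_mul, abs_of_nonneg (inv_nonneg.2 (Nat.cast_nonneg _)), mul_comm, div_eq_mul_inv]
    exact mul_le_mul_of_nonneg_right ((bf_fq (s := s) hH hM hJ).bd p hp η) (inv_nonneg.2 (Nat.cast_nonneg _))

/-- Along a path: the conditional mean given the path behind the row. -/
theorem cF_path [Nonempty (Px Q)] (hQ : GQ N Q) (hH : Past c H) {m : ℕ} (hcm : c ≤ m) (hm : m ≤ N) (η : Env) (S : Px Q) :
    cF s H J ((m : ℤ), ps S m) η = (J.card : ℝ)⁻¹ * cE (lw μ s η N Q) (pJ 0 m) (fun S' => H η S'.1) S := by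
  unfold cF
  rw [← cE_fq (μ := μ) hQ hcm hm (Past.zero c) (hH.mono hcm) η S, cE_pb_pJ]
  have e : wU μ s N Q (fun _ _ => 0) η = lw μ s η N Q := by
    funext S
    unfold Fld19.wU
    rw [add_zero]
  rw [e]

/-- **The path functional of the cut forward field.** -/
theorem Cf_cF [Nonempty (Px Q)] (hQ : GQ N Q) (hH : Past c H) (hJ : ∀ i ∈ J, c < i ∧ i ≤ N) (χ : Pt → ℝ) (η : Env) (S : Px Q) :
    Cf (Sl J N) (cut χ (cF s H J)) (nP Q) η S =
      ∑ m ∈ J, χ ((m : ℤ), ps S m) * ((J.card : ℝ)⁻¹ * cE (lw μ s η N Q) (pJ 0 m) (fun S' => H η S'.1) S) := by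
  rw [Cf_cut_Sl (fun i hi => by have := (hJ i hi).1; omega) fun i hi => (hJ i hi).2]
  exact sum_congr rfl fun m hm => by rw [cF_path (μ := μ) hQ hH (hJ m hm).1.le (hJ m hm).2]

end Fwd

/-! ### The backward field -/

section Bwd

variable {c1 : ℕ} {A : Env → ℤ × Finset ℕ → ℝ} {J : Finset ℕ} {M : ℝ} {K : ℕ}

/-- **The backward field**: the slab average over the rows `J` of the means of `A` over the paths from the site. -/
def cB (μ : Measure ℝ) (s : ℝ) (N : ℕ) (Q : Finset (Finset ℕ)) (c1 : ℕ) (A : Env → ℤ × Finset ℕ → ℝ) (J : Finset ℕ) :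
    Pt → Env → ℝ := fun p η => (J.card : ℝ)⁻¹ * BF63.bc μ s N Q c1 (fun _ _ => 0) A p η

theorem fa_zero (c1 : ℕ) : BF63.FA c1 0 fun _ _ => 0 := ⟨fun _ _ => by rw [abs_zero], fun _ _ _ _ => rfl, fun _ => measurable_const⟩

theorem cB_meas (hA : BF63.FA c1 M A) (p : Pt) : Measurable (cB μ s N Q c1 A J p) :=
  (BF63.bc_meas (fa_zero c1) hA p).const_mul _

theorem cB_blind (hA : BF63.FA c1 M A) {q p : Pt} (hq0 : 0 ≤ q.1) (hq : q.1 ≤ c1) (hp : p.1 ≤ q.1) (η : Env) (x : ℝ) :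
    cB μ s N Q c1 A J q (Function.update η p x) = cB μ s N Q c1 A J q η := by
  unfold cB
  rw [BF63.bc_blind (fa_zero c1) hA hq0 hq hp]

theorem cB_pred (hA : BF63.FA c1 M A) (hJ : ∀ i ∈ J, i ≤ c1) : PredR (fun p => -p.1) (Sl J K) (cB μ s N Q c1 A J) :=
  fun p hp q _ hpq η x => by
    obtain ⟨i, hi, y, _, rfl⟩ := mem_Sl.1 hp
    refine cB_blind hA (by simp only; omega) (by simp only; exact_mod_cast hJ i hi) ?_ η x
    simp only at hpq ⊢
    omega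

theorem cB_bd (hM : 0 ≤ M) (hA : BF63.FA c1 M A) (p : Pt) (η : Env) : |cB μ s N Q c1 A J p η| ≤ M / J.card := by
  unfold cB
  rw [abs_mul, abs_of_nonneg (inv_nonneg.2 (Nat.cast_nonneg _)), mul_comm, div_eq_mul_inv]
  exact mul_le_mul_of_nonneg_right (BF63.abs_bc_le hM hA.bd p η) (inv_nonneg.2 (Nat.cast_nonneg _))

/-- Along a path: the conditional mean given the path up to the row. -/
theorem cB_path [Nonempty (Px Q)] (hQ : Fam N c1 Q) (hN : c1 ≤ N) {m : ℕ} (hm : m ≤ c1) (η : Env) (S : Px Q) :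
    cB μ s N Q c1 A J ((m : ℤ), ps S m) η =
      (J.card : ℝ)⁻¹ * cE (lw μ s η N Q) (BF63.pA m) (fun S' => A η (H27.pB c1 S')) S := by
  unfold cB
  rw [← BF63.cE_pA hQ hm hN (fun _ _ => 0) A η S]
  congr 3
  funext S
  rw [add_zero]

/-- **The path functional of the cut backward field.** -/
theorem Cf_cB [Nonempty (Px Q)] (hQ : Fam N c1 Q) (hN : c1 ≤ N) (hJ : ∀ i ∈ J, 1 ≤ i ∧ i ≤ c1) (χ : Pt → ℝ) (η : Env) (S : Px Q) :
    Cf (Sl J N) (cut χ (cB μ s N Q c1 A J)) (nP Q) η S =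
      ∑ m ∈ J, χ ((m : ℤ), ps S m) *
        ((J.card : ℝ)⁻¹ * cE (lw μ s η N Q) (BF63.pA m) (fun S' => A η (H27.pB c1 S')) S) := by
  rw [Cf_cut_Sl (fun i hi => (hJ i hi).1) fun i hi => (hJ i hi).2.trans hN]
  exact sum_congr rfl fun m hm => by rw [cB_path hQ hN (hJ m hm).2]

end Bwd

/-! ### The kick of the row `j` -/

section Kick

variable {δ B : ℝ} {b j : ℕ} {a : ℤ} {J : Finset ℕ} {sl' R : ℝ} {m0 : ℤ} {n : ℕ} {ι : Type*} [Fintype ι]

/-- `- 2 a g_j` as a function of the past of the row `j + b`. -/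
def gR (μ : Measure ℝ) (s δ B : ℝ) (b j : ℕ) (a : ℤ) (η : Env) (T : Finset ℕ) : ℝ :=
  -2 * (a : ℝ) * gw μ s η δ B a (j - b) (j + b - (j - b)) (j - (j - b)) (pos T (j - b)) (pos T (j + b))

/-- `- 2 a g_j` as a function of the future of the row `j - b` (or of an earlier row). -/
def gL (μ : Measure ℝ) (s δ B : ℝ) (b j : ℕ) (a : ℤ) (η : Env) (u : ℤ × Finset ℕ) : ℝ :=
  -2 * (a : ℝ) * gw μ s η δ B a (j - b) (j + b - (j - b)) (j - (j - b)) (u.1 + (((u.2 ∩ range (j - b)).card : ℕ) : ℤ))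
    (u.1 + (((u.2 ∩ range (j + b)).card : ℕ) : ℤ))

theorem abs_2ag (hB : 0 ≤ B) (ha : |(a : ℝ)| ≤ 1) {g : ℝ} (hg : |g| ≤ B / 2) : |-2 * (a : ℝ) * g| ≤ B := by
  rw [abs_mul, abs_mul, abs_neg, abs_two]
  calc 2 * |(a : ℝ)| * |g| ≤ 2 * 1 * (B / 2) :=
        mul_le_mul (by linarith) hg (abs_nonneg _) (by norm_num)
    _ = B := by ring

theorem abs_gR (hB : 0 ≤ B) (ha : |(a : ℝ)| ≤ 1) (η : Env) (T : Finset ℕ) : |gR μ s δ B b j a η T| ≤ B :=
  abs_2ag hB ha (abs_gw η hB ha _ _ _ _ _)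

theorem past_gR : Past (j + b) (gR μ s δ B b j a) where
  cut η S := by
    unfold gR
    rw [pos_inter S (show j - b ≤ j + b by omega), pos_inter S le_rfl]
  bl η S r x hr := by
    unfold gR
    rw [Pool.Agent.W_7d29a1_C0.FP63.gw_blind η δ B a (by omega) _ _ (Or.inr (by
      rw [show j - b + (j + b - (j - b)) = j + b by omega]
      exact hr)) x]
  ms S := (meas_gw δ B a _ _ _ _ _).const_mul _

theorem gR_Px (η : Env) (S : Px Q) : gR μ s δ B b j a η S.1 = -2 * (a : ℝ) * gj μ s η δ B b j a S := rfl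

theorem fa_gL {c1 : ℕ} (hc : c1 ≤ j - b) (hB : 0 ≤ B) (ha : |(a : ℝ)| ≤ 1) : BF63.FA c1 B (gL μ s δ B b j a) where
  bd η u := abs_2ag hB ha (abs_gw η hB ha _ _ _ _ _)
  bl η p x hp := by
    funext u
    unfold gL
    have h : (c1 : ℤ) ≤ ((j - b : ℕ) : ℤ) := by exact_mod_cast hc
    rw [Pool.Agent.W_7d29a1_C0.FP63.gw_blind η δ B a (by omega) _ _ (Or.inl (hp.trans h)) x]
  ms u := (meas_gw δ B a _ _ _ _ _).const_mul _

theorem gL_Px {c1 : ℕ} (hc : c1 ≤ j - b) (η : Env) (S : Px Q) :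
    gL μ s δ B b j a η (H27.pB c1 S) = -2 * (a : ℝ) * gj μ s η δ B b j a S := by
  unfold gL H27.pB gj ps
  simp only
  rw [← pos_split hc S.1, ← pos_split (show c1 ≤ j + b by omega) S.1]

/-- **The kick field behind the window** (right slab, forward), cut to the tube of the boxes `β`. -/
abbrev kR (μ : Measure ℝ) (s δ B : ℝ) (b j : ℕ) (a : ℤ) (J : Finset ℕ) (sl' R : ℝ) (m0 : ℤ) {n : ℕ} (β : ι → Fin (n + 1)) :
    Pt → Env → ℝ := cut (chT sl' R m0 β) (cF s (gR μ s δ B b j a) J)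

/-- **The kick field before the window** (left slab, backward), cut to the tube of the boxes `β`. -/
abbrev kL (μ : Measure ℝ) (s : ℝ) (N : ℕ) (Q : Finset (Finset ℕ)) (δ B : ℝ) (b j : ℕ) (a : ℤ) (J : Finset ℕ) (sl' R : ℝ)
    (m0 : ℤ) {n : ℕ} (β : ι → Fin (n + 1)) : Pt → Env → ℝ :=
  cut (chT sl' R m0 β) (cB μ s N Q (j - b) (gL μ s δ B b j a) J)

/-- `C_β`, forward. -/
abbrev CR (μ : Measure ℝ) (s : ℝ) (N : ℕ) (Q : Finset (Finset ℕ)) (δ B : ℝ) (b j : ℕ) (a : ℤ) (J : Finset ℕ) (sl' R : ℝ)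
    (m0 : ℤ) {n : ℕ} (β : ι → Fin (n + 1)) (η : Env) : Px Q → ℝ := Cf (Sl J N) (kR μ s δ B b j a J sl' R m0 β) (nP Q) η

/-- `C_β`, backward. -/
abbrev CL (μ : Measure ℝ) (s : ℝ) (N : ℕ) (Q : Finset (Finset ℕ)) (δ B : ℝ) (b j : ℕ) (a : ℤ) (J : Finset ℕ) (sl' R : ℝ)
    (m0 : ℤ) {n : ℕ} (β : ι → Fin (n + 1)) (η : Env) : Px Q → ℝ := Cf (Sl J N) (kL μ s N Q δ B b j a J sl' R m0 β) (nP Q) η

/-- **The right kick**: the data for `Q32.q1`, `Q32.q3` with the rank `p.1`. -/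
theorem kf_kR (hB : 0 ≤ B) (ha : |(a : ℝ)| ≤ 1) (hR : 1 ≤ R) (hJ : J.Nonempty) (hJ1 : ∀ i ∈ J, j + b < i)
    (β : ι → Fin (n + 1)) :
    KF (fun p => p.1) (Sl J N) (kR μ s δ B b j a J sl' R m0 β) (B / J.card) (7 * Fintype.card ι * R * B ^ 2 / J.card) :=
  kf_cut hR hJ (cF_meas past_gR (abs_gR hB ha) hJ1) (cF_pred past_gR hJ1) (cF_bd past_gR (abs_gR hB ha) hJ1) β

/-- **The left kick**: the data for `Q32.q1`, `Q32.q3` with the rank `- p.1`. -/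
theorem kf_kL (hB : 0 ≤ B) (ha : |(a : ℝ)| ≤ 1) (hR : 1 ≤ R) (hJ : J.Nonempty) (hJ1 : ∀ i ∈ J, i ≤ j - b)
    (β : ι → Fin (n + 1)) :
    KF (fun p => -p.1) (Sl J N) (kL μ s N Q δ B b j a J sl' R m0 β) (B / J.card) (7 * Fintype.card ι * R * B ^ 2 / J.card) :=
  kf_cut hR hJ (fun p _ => cB_meas (fa_gL le_rfl hB ha) p) (cB_pred (fa_gL le_rfl hB ha) hJ1)
    (fun p _ η => cB_bd hB (fa_gL le_rfl hB ha) p η) β

/-- **The log weights after the right kick.** -/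
theorem wm_kR (hJ : ∀ i ∈ J, 1 ≤ i ∧ i ≤ N) (β : ι → Fin (n + 1)) (ω : Env × Finset ℕ) :
    wm μ s N Q (Sh (Sl J N) (kR μ s δ B b j a J sl' R m0 β) ω.1, ω.2) = wm μ s N Q ω + CR μ s N Q δ B b j a J sl' R m0 β ω.1 :=
  wm_Sh (Sl_sub hJ) _ ω

theorem wm_kL (hJ : ∀ i ∈ J, 1 ≤ i ∧ i ≤ N) (β : ι → Fin (n + 1)) (ω : Env × Finset ℕ) :
    wm μ s N Q (Sh (Sl J N) (kL μ s N Q δ B b j a J sl' R m0 β) ω.1, ω.2) =
      wm μ s N Q ω + CL μ s N Q δ B b j a J sl' R m0 β ω.1 := wm_Sh (Sl_sub hJ) _ ω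

theorem abs_CR (hB : 0 ≤ B) (ha : |(a : ℝ)| ≤ 1) (hJ : J.Nonempty) (hJ1 : ∀ i ∈ J, j + b < i) (β : ι → Fin (n + 1)) (η : Env)
    (S : Px Q) : |CR μ s N Q δ B b j a J sl' R m0 β η S| ≤ B :=
  abs_Cf_cut hJ hB (cF_bd past_gR (abs_gR hB ha) hJ1) β η S

theorem abs_CL (hB : 0 ≤ B) (ha : |(a : ℝ)| ≤ 1) (hJ : J.Nonempty) (β : ι → Fin (n + 1)) (η : Env)
    (S : Px Q) : |CL μ s N Q δ B b j a J sl' R m0 β η S| ≤ B :=
  abs_Cf_cut hJ hB (fun p _ η => cB_bd hB (fa_gL le_rfl hB ha) p η) β η S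

theorem CR_meas (hB : 0 ≤ B) (ha : |(a : ℝ)| ≤ 1) (hR : 1 ≤ R) (hJ : J.Nonempty) (hJ1 : ∀ i ∈ J, j + b < i)
    (β : ι → Fin (n + 1)) (S : Px Q) : Measurable fun η => CR μ s N Q δ B b j a J sl' R m0 β η S :=
  Cf_meas (kf_kR hB ha hR hJ hJ1 β).meas S

theorem CL_meas (hB : 0 ≤ B) (ha : |(a : ℝ)| ≤ 1) (hR : 1 ≤ R) (hJ : J.Nonempty) (hJ1 : ∀ i ∈ J, i ≤ j - b)
    (β : ι → Fin (n + 1)) (S : Px Q) : Measurable fun η => CL μ s N Q δ B b j a J sl' R m0 β η S :=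
  Cf_meas (kf_kL hB ha hR hJ hJ1 β).meas S

/-- `C_β` is a function of what the path does outside of a block without rows of the slab. -/
theorem CR_mp (hJ : ∀ i ∈ J, 1 ≤ i ∧ i ≤ N) (β : ι → Fin (n + 1)) (η : Env) {c' d' : ℕ} (h : ∀ i ∈ J, i ≤ c' ∨ d' ≤ i) :
    Mp (pJ (Q := Q) c' d') (CR μ s N Q δ B b j a J sl' R m0 β η) :=
  Cf_mp (fun i hi => (hJ i hi).1) (fun i hi => (hJ i hi).2) _ η h

theorem CL_mp (hJ : ∀ i ∈ J, 1 ≤ i ∧ i ≤ N) (β : ι → Fin (n + 1)) (η : Env) {c' d' : ℕ} (h : ∀ i ∈ J, i ≤ c' ∨ d' ≤ i) :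
    Mp (pJ (Q := Q) c' d') (CL μ s N Q δ B b j a J sl' R m0 β η) :=
  Cf_mp (fun i hi => (hJ i hi).1) (fun i hi => (hJ i hi).2) _ η h

/-- The right kick does not see the environment behind the slab. -/
theorem CR_blind (hJ1 : ∀ i ∈ J, j + b < i) (β : ι → Fin (n + 1)) {r : Pt} (hr : ∀ i ∈ J, (i : ℤ) ≤ r.1) (η : Env) (x : ℝ) :
    CR μ s N Q δ B b j a J sl' R m0 β (Function.update η r x) = CR μ s N Q δ B b j a J sl' R m0 β η := by
  refine sum_congr rfl fun p hp => ?_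
  congr 1
  obtain ⟨i, hi, y, _, rfl⟩ := mem_Sl.1 hp
  show chT sl' R m0 β _ * cF s (gR μ s δ B b j a) J _ (Function.update η r x) = chT sl' R m0 β _ * cF s (gR μ s δ B b j a) J _ η
  rw [cF_blind past_gR (by simp only; exact_mod_cast hJ1 i hi) (hr i hi)]

/-- The left kick does not see the environment up to the first row of the slab. -/
theorem CL_blind (hB : 0 ≤ B) (ha : |(a : ℝ)| ≤ 1) (hJ1 : ∀ i ∈ J, i ≤ j - b) (β : ι → Fin (n + 1)) {r : Pt}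
    (hr : ∀ i ∈ J, r.1 ≤ (i : ℤ)) (η : Env) (x : ℝ) :
    CL μ s N Q δ B b j a J sl' R m0 β (Function.update η r x) = CL μ s N Q δ B b j a J sl' R m0 β η := by
  refine sum_congr rfl fun p hp => ?_
  congr 1
  obtain ⟨i, hi, y, _, rfl⟩ := mem_Sl.1 hp
  show chT sl' R m0 β _ * cB μ s N Q (j - b) (gL μ s δ B b j a) J _ (Function.update η r x) =
    chT sl' R m0 β _ * cB μ s N Q (j - b) (gL μ s δ B b j a) J _ η
  rw [cB_blind (fa_gL le_rfl hB ha) (by simp only; omega) (by simp only; exact_mod_cast hJ1 i hi) (hr i hi)]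

/-- The kicks of the outer space: the sign of the row `j` is read from the signs. -/
theorem CR_meas_om (hB : 0 ≤ B) (hR : 1 ≤ R) (hJ : J.Nonempty) (hJ1 : ∀ i ∈ J, j + b < i) (β : ι → Fin (n + 1)) (S : Px Q) :
    Measurable fun ω : Env × Finset ℕ => CR μ s N Q δ B b j (sg ω.2 j) J sl' R m0 β ω.1 S :=
  meas_om fun A => CR_meas (a := sg A j) hB (abs_sg A j).le hR hJ hJ1 β S

theorem CL_meas_om (hB : 0 ≤ B) (hR : 1 ≤ R) (hJ : J.Nonempty) (hJ1 : ∀ i ∈ J, i ≤ j - b) (β : ι → Fin (n + 1)) (S : Px Q) :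
    Measurable fun ω : Env × Finset ℕ => CL μ s N Q δ B b j (sg ω.2 j) J sl' R m0 β ω.1 S :=
  meas_om fun A => CL_meas (a := sg A j) hB (abs_sg A j).le hR hJ hJ1 β S

variable [Nonempty (Px Q)]

theorem cE_smul_gj {Y : Type*} [DecidableEq Y] (w : Px Q → ℝ) (p : Px Q → Y) (r : ℝ) (g : Px Q → ℝ) (S : Px Q) :
    cE w p (fun S' => r * g S') S = r * cE w p g S := congrFun (VT31.cE_smul w p r g) S

/-- **`C_β`, forward: the formula.** -/
theorem CR_eq (hQ : GQ N Q) (hJ : ∀ i ∈ J, j + b < i ∧ i ≤ N) (β : ι → Fin (n + 1)) (η : Env) (S : Px Q) :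
    CR μ s N Q δ B b j a J sl' R m0 β η S = -2 * (a : ℝ) * ∑ m ∈ J, (J.card : ℝ)⁻¹ * (chT sl' R m0 β ((m : ℤ), ps S m) *
      cE (lw μ s η N Q) (pJ 0 m) (gj μ s η δ B b j a) S) := by
  show Cf (Sl J N) (cut (chT sl' R m0 β) (cF s (gR μ s δ B b j a) J)) (nP Q) η S = _
  rw [Cf_cF (μ := μ) hQ past_gR hJ, mul_sum]
  refine sum_congr rfl fun m _ => ?_
  rw [show (fun S' : Px Q => gR μ s δ B b j a η S'.1) = fun S' => -2 * (a : ℝ) * gj μ s η δ B b j a S' from rfl, cE_smul_gj]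
  ring

/-- **`C_β`, backward: the formula.** -/
theorem CL_eq (hQ : Fam N (j - b) Q) (hN : j - b ≤ N) (hJ : ∀ i ∈ J, 1 ≤ i ∧ i ≤ j - b) (β : ι → Fin (n + 1)) (η : Env)
    (S : Px Q) :
    CL μ s N Q δ B b j a J sl' R m0 β η S = -2 * (a : ℝ) * ∑ m ∈ J, (J.card : ℝ)⁻¹ * (chT sl' R m0 β ((m : ℤ), ps S m) *
      cE (lw μ s η N Q) (BF63.pA m) (gj μ s η δ B b j a) S) := by
  show Cf (Sl J N) (cut (chT sl' R m0 β) (cB μ s N Q (j - b) (gL μ s δ B b j a) J)) (nP Q) η S = _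
  rw [Cf_cB hQ hN hJ, mul_sum]
  refine sum_congr rfl fun m _ => ?_
  rw [show (fun S' : Px Q => gL μ s δ B b j a η (H27.pB (j - b) S')) = fun S' => -2 * (a : ℝ) * gj μ s η δ B b j a S' from
    funext fun S' => gL_Px le_rfl η S', cE_smul_gj]
  ring

/-- **The full field, forward** (`hC` of `Bd73`, `K = J`, `θ m = |J|⁻¹`, `pm m = pJ 0 m`). -/
theorem hC_R (hQ : GQ N Q) (hJ : ∀ i ∈ J, j + b < i ∧ i ≤ N) (η : Env) (S : Px Q) :
    Cf (Sl J N) (cF s (gR μ s δ B b j a) J) (nP Q) η S = -2 * (a : ℝ) * ∑ m ∈ J, (J.card : ℝ)⁻¹ *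
      cE (lw μ s η N Q) (pJ 0 m) (gj μ s η δ B b j a) S := by
  rw [Cf_Sl (fun i hi => by have := (hJ i hi).1; omega) (fun i hi => (hJ i hi).2), mul_sum]
  refine sum_congr rfl fun m hm => ?_
  rw [cF_path (μ := μ) hQ past_gR (hJ m hm).1.le (hJ m hm).2,
    show (fun S' : Px Q => gR μ s δ B b j a η S'.1) = fun S' => -2 * (a : ℝ) * gj μ s η δ B b j a S' from rfl, cE_smul_gj]
  ring

/-- **The full field, backward** (`hC` of `Bd73`, `pm m = BF63.pA m`; pinned paths: `cE_pA_pJ`). -/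
theorem hC_L (hQ : Fam N (j - b) Q) (hN : j - b ≤ N) (hJ : ∀ i ∈ J, 1 ≤ i ∧ i ≤ j - b) (η : Env) (S : Px Q) :
    Cf (Sl J N) (cB μ s N Q (j - b) (gL μ s δ B b j a) J) (nP Q) η S = -2 * (a : ℝ) * ∑ m ∈ J, (J.card : ℝ)⁻¹ *
      cE (lw μ s η N Q) (BF63.pA m) (gj μ s η δ B b j a) S := by
  rw [Cf_Sl (fun i hi => (hJ i hi).1) (fun i hi => (hJ i hi).2.trans hN), mul_sum]
  refine sum_congr rfl fun m hm => ?_
  rw [cB_path hQ hN (hJ m hm).2, show (fun S' : Px Q => gL μ s δ B b j a η (H27.pB (j - b) S')) =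
    fun S' => -2 * (a : ℝ) * gj μ s η δ B b j a S' from funext fun S' => gL_Px le_rfl η S', cE_smul_gj]
  ring

end Kick

end

end Pool.W7d29a1.C0.K27
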