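import Pool.Agent.W_7d29a1_C0.Near32
import Pool.Agent.W_7d29a1_C0.Quasi32

/-!
MP_7d29a1_pr, [CURV0], GS IN ONE KICK, G5 (helper32): THE STEP (1 - T).

`q3_Pm`: the difference form of the quasi-invariance of the law under an adapted shift of a slab, over the environment and the signs; the
slab and the field may depend on the signs (and on the boxes). `PhB`: the star functional `gm (h cE_B g cE_B' (cls (g x - g y)))` with the
boxes of `x` and of `y`; `sum_PhB`, `abs_PhB_le`, `sum_MjB`: sums over the boxes. `kickT`: the sum over the boxes of the differences under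
the shifts is at most `(exp a - 1) 2 M ^ 2` times the mean of `|h| cE_B' (cls x .)`, up to a tiny term. `sum_rows`: the sum over the rows.
-/

set_option autoImplicit false
set_option linter.unusedSectionVars false

namespace Pool.Agent.W_7d29a1_C0.KickT32

open Finset MeasureTheory Pool.Agent.W_7d29a1_F Pool.Agent.W_7d29a1_X Pool.Agent.W_7d29a1_C0.Mod92
open Pool.W7d29a1.C0 (gz gm lse gz_pos gz_ne gm_nonneg gm_mono gm_const)
open Pool.W7d29a1.C0.VT31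
open Pool.W7d29a1.C0.H27 (Sh PredR Sh_meas)
open Pool.Agent.W_7d29a1_C0.Q32 (WL q3)
open Pool.Agent.W_7d29a1_C0.Near32

noncomputable section

/-! ### The law change over the environment and the signs -/

variable {μ : Measure ℝ} {N : ℕ}

/-- **(Q3) over `Pm`.** -/
theorem q3_Pm [IsProbabilityMeasure μ] {u : ℝ → ℝ → ℝ} {C θ : ℝ} (h : WL μ u C θ) (ρ : Finset ℕ → Pt → ℤ)
    (S : Finset ℕ → Finset Pt) (φ : Finset ℕ → Pt → Env → ℝ) (hm : ∀ A, ∀ p ∈ S A, Measurable (φ A p))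
    (hc : ∀ A, PredR (ρ A) (S A) (φ A)) {a t B : ℝ} (ha : 0 ≤ a) (ht : 0 ≤ t)
    (hk : ∀ A, ∀ p ∈ S A, ∀ η, (2 * t + 3) * |φ A p η| ≤ θ) (hB : ∀ A η, ∑ p ∈ S A, φ A p η ^ 2 ≤ B)
    {Φ : Env × Finset ℕ → ℝ} (hΦ : Measurable Φ) {D : ℝ} (hD : ∀ ω, |Φ ω| ≤ D) :
    |∫ ω, Φ (Sh (S ω.2) (φ ω.2) ω.1, ω.2) ∂(Pm μ N) - ∫ ω, Φ ω ∂(Pm μ N)| ≤ (Real.exp a - 1) * ∫ ω, |Φ ω| ∂(Pm μ N) +
      4 * Real.exp (-(t * a)) * Real.exp (C * ((2 * t + 3) ^ 2 + 1) * B) * D := by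
  have hD0 : 0 ≤ D := (abs_nonneg _).trans (hD (fun _ => 0, ∅))
  have mA : ∀ A, Measurable fun η : Env => Φ (η, A) := fun A => hΦ.comp (meas_pair A)
  have mS : ∀ A, Measurable fun η : Env => Φ (Sh (S A) (φ A) η, A) := fun A => (mA A).comp (Sh_meas (hm A))
  have bi : ∀ {f : Env → ℝ}, Measurable f → (∀ η, |f η| ≤ D) → Integrable f (law μ) := fun hf hb =>
    (integrable_const D).mono' hf.aestronglyMeasurable (Filter.Eventually.of_forall fun η => by
      rw [Real.norm_eq_abs]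
      exact hb η)
  have e1 := int_Pm (μ := μ) (N := N) (Φ := fun ω => Φ (Sh (S ω.2) (φ ω.2) ω.1, ω.2)) (fun A _ => bi (mS A) fun η => hD _) mS
  have e2 := int_Pm (μ := μ) (N := N) (Φ := Φ) (fun A _ => bi (mA A) fun η => hD _) mA
  have e3 := int_Pm (μ := μ) (N := N) (Φ := fun ω => |Φ ω|) (fun A _ => bi (mA A).norm fun η => by
    rw [abs_abs]
    exact hD _) fun A => (mA A).norm
  have hP : (0 : ℝ) < 2 ^ N := by positivity
  rw [e1, e2, e3, ← mul_sub, ← sum_sub_distrib, abs_mul, abs_of_pos (inv_pos.2 hP)]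
  have key : ∀ A, |∫ η, Φ (Sh (S A) (φ A) η, A) ∂(law μ) - ∫ η, Φ (η, A) ∂(law μ)| ≤
      (Real.exp a - 1) * ∫ η, |Φ (η, A)| ∂(law μ) + 4 * Real.exp (-(t * a)) * Real.exp (C * ((2 * t + 3) ^ 2 + 1) * B) * D := by
    intro A
    have hF2 : Integrable (fun η => Φ (η, A) ^ 2) (law μ) :=
      (integrable_const (D ^ 2)).mono' ((mA A).pow_const 2).aestronglyMeasurable (Filter.Eventually.of_forall fun η => by
        rw [Real.norm_eq_abs, abs_pow]
        exact pow_le_pow_left₀ (abs_nonneg _) (hD _) 2)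
    refine (q3 h (ρ A) (S A) (φ A) (hm A) (hc A) ha ht (hk A) (hB A) (mA A) hF2).2.trans ?_
    have e4 : Real.sqrt (∫ η, Φ (η, A) ^ 2 ∂(law μ)) ≤ D := by
      have e5 : ∫ η, Φ (η, A) ^ 2 ∂(law μ) ≤ D ^ 2 := by
        have e6 := integral_mono hF2 (integrable_const (D ^ 2)) (fun η => by
          have := pow_le_pow_left₀ (abs_nonneg _) (hD (η, A)) 2
          rwa [sq_abs] at this)
        rwa [integral_const, probReal_univ, one_smul] at e6
      exact (Real.sqrt_le_sqrt e5).trans (le_of_eq (Real.sqrt_sq hD0))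
    exact add_le_add le_rfl (mul_le_mul_of_nonneg_left e4 (by positivity))
  have hcard : ((range N).powerset.card : ℝ) = 2 ^ N := by
    rw [card_powerset, card_range]
    push_cast
    rfl
  calc (2 ^ N : ℝ)⁻¹ * |∑ A ∈ (range N).powerset, (∫ η, Φ (Sh (S A) (φ A) η, A) ∂(law μ) - ∫ η, Φ (η, A) ∂(law μ))|
      ≤ (2 ^ N : ℝ)⁻¹ * ∑ A ∈ (range N).powerset, ((Real.exp a - 1) * ∫ η, |Φ (η, A)| ∂(law μ) +
          4 * Real.exp (-(t * a)) * Real.exp (C * ((2 * t + 3) ^ 2 + 1) * B) * D) :=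
        mul_le_mul_of_nonneg_left ((abs_sum_le_sum_abs _ _).trans (sum_le_sum fun A _ => key A)) (inv_pos.2 hP).le
    _ = _ := by
        rw [sum_add_distrib, ← mul_sum, sum_const, nsmul_eq_mul, hcard]
        field_simp

/-! ### The star with boxes -/

section Box

variable {X : Type*} [Fintype X] [Nonempty X] {Y Y' : Type*} [DecidableEq Y] [DecidableEq Y'] {κ : Type*} [DecidableEq κ]

/-- The indicator of a box. -/
def ib (bx : X → κ) (β : κ) (x : X) : ℝ := if bx x = β then 1 else 0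

omit [Fintype X] [Nonempty X] in
theorem ib_nonneg (bx : X → κ) (β : κ) (x : X) : 0 ≤ ib bx β x := by
  unfold ib
  split_ifs <;> norm_num

omit [Fintype X] [Nonempty X] in
theorem ib_le_one (bx : X → κ) (β : κ) (x : X) : ib bx β x ≤ 1 := by
  unfold ib
  split_ifs <;> norm_num

omit [Fintype X] [Nonempty X] in
theorem sum_ib (bx : X → κ) {I : Finset κ} (hI : ∀ x, bx x ∈ I) (x : X) : ∑ β ∈ I, ib bx β x = 1 := by
  unfold ib
  rw [sum_ite_eq]
  exact if_pos (hI x)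

/-- The star `(x; y | q'; z | q)` with the boxes of `x` and `y`: `gm (h cE_q g cE_q' (cls x y (g x - g y)))`. -/
def PhB (w : X → ℝ) (q' : X → Y') (q : X → Y) (cls : X → X → ℝ) (g h : X → ℝ) (bx : X → κ) (β : κ × κ) : ℝ :=
  gm w fun x => ib bx β.1 x * h x * cE w q g x * cE w q' (fun y => cls x y * (g x - g y) * ib bx β.2 y) x

/-- The star without boxes. -/
def Ph (w : X → ℝ) (q' : X → Y') (q : X → Y) (cls : X → X → ℝ) (g h : X → ℝ) : ℝ :=
  gm w fun x => h x * cE w q g x * cE w q' (fun y => cls x y * (g x - g y)) x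

/-- Its size. -/
def MjB (w : X → ℝ) (q' : X → Y') (cls : X → X → ℝ) (M : ℝ) (h : X → ℝ) (bx : X → κ) (β : κ × κ) : ℝ :=
  gm w fun x => ib bx β.1 x * (2 * M ^ 2 * |h x|) * cE w q' (fun y => cls x y * ib bx β.2 y) x

theorem cE_sum' {ι : Type*} (w : X → ℝ) (q : X → Y) (R : Finset ι) (f : ι → X → ℝ) (x : X) :
    cE w q (fun y => ∑ i ∈ R, f i y) x = ∑ i ∈ R, cE w q (f i) x := by
  have e : (fun y => ∑ i ∈ R, f i y) = ∑ i ∈ R, f i := by
    funext y
    rw [Finset.sum_apply]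
  rw [e, cE_sum, Finset.sum_apply]

theorem sum_box {bx : X → κ} {I : Finset κ} (hI : ∀ x, bx x ∈ I) (w : X → ℝ) (q' : X → Y') (F : X → ℝ) (G : X → X → ℝ) :
    ∑ β ∈ I ×ˢ I, gm w (fun x => ib bx β.1 x * F x * cE w q' (fun y => G x y * ib bx β.2 y) x) =
      gm w fun x => F x * cE w q' (G x) x := by
  rw [← gm_sum']
  congr 1
  funext x
  rw [sum_product]
  have e1 : ∀ β1 ∈ I, ∑ β2 ∈ I, ib bx β1 x * F x * cE w q' (fun y => G x y * ib bx β2 y) x =
      ib bx β1 x * (F x * cE w q' (G x) x) := by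
    intro β1 _
    rw [← mul_sum, ← cE_sum', mul_assoc]
    congr 3
    funext y
    rw [← mul_sum, sum_ib bx hI y, mul_one]
  rw [sum_congr rfl e1, ← sum_mul, sum_ib bx hI x, one_mul]

/-- **The sum over the boxes.** -/
theorem sum_PhB {bx : X → κ} {I : Finset κ} (hI : ∀ x, bx x ∈ I) (w : X → ℝ) (q' : X → Y') (q : X → Y) (cls : X → X → ℝ)
    (g h : X → ℝ) : ∑ β ∈ I ×ˢ I, PhB w q' q cls g h bx β = Ph w q' q cls g h := by
  have e := sum_box hI w q' (fun x => h x * cE w q g x) (fun x y => cls x y * (g x - g y))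
  unfold PhB Ph
  rw [← e]
  refine sum_congr rfl fun β _ => ?_
  congr 1
  funext x
  ring

theorem sum_MjB {bx : X → κ} {I : Finset κ} (hI : ∀ x, bx x ∈ I) (w : X → ℝ) (q' : X → Y') (cls : X → X → ℝ) (M : ℝ) (h : X → ℝ) :
    ∑ β ∈ I ×ˢ I, MjB w q' cls M h bx β = 2 * M ^ 2 * gm w fun x => |h x| * cE w q' (cls x) x := by
  have e := sum_box hI w q' (fun x => 2 * M ^ 2 * |h x|) cls
  unfold MjB
  rw [e]
  unfold gm
  rw [← mul_div_assoc, mul_sum]
  congr 1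
  refine sum_congr rfl fun x _ => ?_
  ring

theorem abs_PhB_le (w : X → ℝ) (q' : X → Y') (q : X → Y) {cls : X → X → ℝ} (hc : ∀ x y, 0 ≤ cls x y) {g : X → ℝ} {M : ℝ}
    (hg : ∀ x, |g x| ≤ M) (h : X → ℝ) (bx : X → κ) (β : κ × κ) : |PhB w q' q cls g h bx β| ≤ MjB w q' cls M h bx β := by
  obtain ⟨x₀⟩ := ‹Nonempty X›
  have hM : 0 ≤ M := (abs_nonneg _).trans (hg x₀)
  unfold PhB MjB
  rw [← gm_eq_cE w _ x₀, ← gm_eq_cE w _ x₀]
  have key : ∀ x, |ib bx β.1 x * h x * cE w q g x * cE w q' (fun y => cls x y * (g x - g y) * ib bx β.2 y) x| ≤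
      ib bx β.1 x * (2 * M ^ 2 * |h x|) * cE w q' (fun y => cls x y * ib bx β.2 y) x := by
    intro x
    have a1 := ib_nonneg bx β.1 x
    have a2 := abs_cE_le w q hg x
    have a3 : |cE w q' (fun y => cls x y * (g x - g y) * ib bx β.2 y) x| ≤ 2 * M * cE w q' (fun y => cls x y * ib bx β.2 y) x := by
      have b1 : ∀ y, |cls x y * (g x - g y) * ib bx β.2 y| ≤ 2 * M * (cls x y * ib bx β.2 y) := fun y => by
        rw [abs_mul, abs_mul, abs_of_nonneg (hc x y), abs_of_nonneg (ib_nonneg bx β.2 y)]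
        have b2 : |g x - g y| ≤ 2 * M := (abs_sub _ _).trans (by linarith [hg x, hg y])
        have b3 := mul_nonneg (hc x y) (ib_nonneg bx β.2 y)
        nlinarith [mul_le_mul_of_nonneg_left b2 b3]
      have b4 : cE w q' (fun y => 2 * M * (cls x y * ib bx β.2 y)) x = 2 * M * cE w q' (fun y => cls x y * ib bx β.2 y) x := by
        have := congrFun (cE_smul w q' (2 * M) (fun y => cls x y * ib bx β.2 y)) x
        exact this
      rw [← b4, abs_le]
      constructor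
      · have c1 := cE_mono w q' (f := -(fun y => 2 * M * (cls x y * ib bx β.2 y))) (g := fun y => cls x y * (g x - g y) * ib bx β.2 y)
          (fun y => (abs_le.1 (b1 y)).1) x
        rwa [cE_neg, Pi.neg_apply] at c1
      · exact cE_mono w q' (fun y => (abs_le.1 (b1 y)).2) x
    have a4 : 0 ≤ cE w q' (fun y => cls x y * ib bx β.2 y) x :=
      cE_nonneg w q' (fun y => mul_nonneg (hc x y) (ib_nonneg bx β.2 y)) x
    rw [abs_mul, abs_mul, abs_mul, abs_of_nonneg a1]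
    calc ib bx β.1 x * |h x| * |cE w q g x| * |cE w q' (fun y => cls x y * (g x - g y) * ib bx β.2 y) x|
        ≤ ib bx β.1 x * |h x| * M * (2 * M * cE w q' (fun y => cls x y * ib bx β.2 y) x) :=
          mul_le_mul (mul_le_mul_of_nonneg_left a2 (mul_nonneg a1 (abs_nonneg _))) a3 (abs_nonneg _)
            (mul_nonneg (mul_nonneg a1 (abs_nonneg _)) hM)
      _ = _ := by ring
  rw [abs_le]
  constructor
  · have c1 := cE_mono w (fun _ : X => ())
      (f := -(fun x => ib bx β.1 x * (2 * M ^ 2 * |h x|) * cE w q' (fun y => cls x y * ib bx β.2 y) x))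
      (g := fun x => ib bx β.1 x * h x * cE w q g x * cE w q' (fun y => cls x y * (g x - g y) * ib bx β.2 y) x)
      (fun x => (abs_le.1 (key x)).1) x₀
    rwa [cE_neg, Pi.neg_apply] at c1
  · exact cE_mono w _ (fun x => (abs_le.1 (key x)).2) x₀

theorem MjB_le {w : X → ℝ} {q' : X → Y'} {cls : X → X → ℝ} (hc : ∀ x y, 0 ≤ cls x y) (hc1 : ∀ x y, cls x y ≤ 1) {M H : ℝ}
    {h : X → ℝ} (hh : ∀ x, |h x| ≤ H) (bx : X → κ) (β : κ × κ) : |MjB w q' cls M h bx β| ≤ 2 * M ^ 2 * H := by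
  have h0 : ∀ x, 0 ≤ ib bx β.1 x * (2 * M ^ 2 * |h x|) * cE w q' (fun y => cls x y * ib bx β.2 y) x := fun x =>
    mul_nonneg (mul_nonneg (ib_nonneg _ _ _) (by positivity)) (cE_nonneg w q' (fun y => mul_nonneg (hc x y) (ib_nonneg bx β.2 y)) x)
  have h1 : ∀ x, ib bx β.1 x * (2 * M ^ 2 * |h x|) * cE w q' (fun y => cls x y * ib bx β.2 y) x ≤ 2 * M ^ 2 * H := by
    intro x
    have a1 : cE w q' (fun y => cls x y * ib bx β.2 y) x ≤ 1 := by
      have e := cE_mono w q' (f := fun y => cls x y * ib bx β.2 y) (g := fun _ => 1) (fun y => by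
        nlinarith [hc x y, hc1 x y, ib_nonneg bx β.2 y, ib_le_one bx β.2 y]) x
      rwa [cE_one] at e
    have a2 := cE_nonneg w q' (fun y => mul_nonneg (hc x y) (ib_nonneg bx β.2 y)) x
    have a3 : ib bx β.1 x * (2 * M ^ 2 * |h x|) ≤ 1 * (2 * M ^ 2 * H) :=
      mul_le_mul (ib_le_one _ _ _) (mul_le_mul_of_nonneg_left (hh x) (by positivity)) (by positivity) zero_le_one
    calc _ ≤ 1 * (2 * M ^ 2 * H) * 1 := mul_le_mul a3 a1 a2 (by
          have := (abs_nonneg _).trans (hh x)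
          positivity)
      _ = _ := by ring
  unfold MjB
  rw [abs_of_nonneg (gm_nonneg w h0)]
  refine (gm_mono w h1).trans (le_of_eq ?_)
  rw [gm_const]

end Box

/-! ### The step (1 - T) in the model -/

section Model

variable {s : ℝ} {Q : Finset (Finset ℕ)} [Nonempty (Px Q)] {κ : Type*} [DecidableEq κ]

theorem meas_PhB {c' d' c'' d'' : ℕ} {cls : Px Q → Px Q → ℝ} {g h : Env × Finset ℕ → Px Q → ℝ}
    (hg : ∀ S, Measurable fun ω => g ω S) (hh : ∀ S, Measurable fun ω => h ω S) (bx : Px Q → κ) (β : κ × κ) :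
    Measurable fun ω => PhB (wm μ s N Q ω) (pJ c' d') (pJ c'' d'') cls (g ω) (h ω) bx β := by
  unfold PhB
  refine meas_gm meas_wm fun x => ?_
  exact (((hh x).const_mul _).mul (meas_cE meas_wm hg _ x)).mul
    (meas_cE (f := fun ω y => cls x y * (g ω x - g ω y) * ib bx β.2 y) meas_wm
      (fun y => (((hg x).sub (hg y)).const_mul _).mul_const _) _ x)

theorem meas_Mj {c' d' : ℕ} {cls : Px Q → Px Q → ℝ} {h : Env × Finset ℕ → Px Q → ℝ} (hh : ∀ S, Measurable fun ω => h ω S) :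
    Measurable fun ω => gm (wm μ s N Q ω) fun x => |h ω x| * cE (wm μ s N Q ω) (pJ c' d') (cls x) x := by
  refine meas_gm meas_wm fun x => ?_
  exact ((hh x).norm).mul (meas_cE (f := fun _ => cls x) meas_wm (fun y => measurable_const) _ x)

theorem abs_Mj {w : Px Q → ℝ} {c' d' : ℕ} {cls : Px Q → Px Q → ℝ} (hc : ∀ x y, 0 ≤ cls x y) (hc1 : ∀ x y, cls x y ≤ 1) {H : ℝ}
    {h : Px Q → ℝ} (hh : ∀ x, |h x| ≤ H) : |gm w fun x => |h x| * cE w (pJ c' d') (cls x) x| ≤ H := by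
  have h0 : ∀ x, 0 ≤ |h x| * cE w (pJ c' d') (cls x) x := fun x => mul_nonneg (abs_nonneg _) (cE_nonneg w _ (hc x) x)
  rw [abs_of_nonneg (gm_nonneg w h0)]
  refine (gm_mono w (g := fun _ => H) fun x => ?_).trans (le_of_eq (gm_const w H))
  have e := cE_mono w (pJ c' d') (f := cls x) (g := fun _ => 1) (hc1 x) x
  rw [cE_one] at e
  have e' := cE_nonneg w (pJ c' d') (hc x) x
  calc |h x| * cE w (pJ c' d') (cls x) x ≤ H * 1 := mul_le_mul (hh x) e e' ((abs_nonneg _).trans (hh x))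
    _ = H := mul_one H

/-- **THE STEP (1 - T)**, one row, one class, sum over the boxes of `x` and `y`. The slab and the field depend on the boxes and the signs. -/
theorem kickT [IsProbabilityMeasure μ] {u : ℝ → ℝ → ℝ} {C θ : ℝ} (hW : WL μ u C θ) {bx : Px Q → κ} {I : Finset κ}
    (hI : ∀ x, bx x ∈ I) (ρ : κ × κ → Finset ℕ → Pt → ℤ) (S : κ × κ → Finset ℕ → Finset Pt) (φ : κ × κ → Finset ℕ → Pt → Env → ℝ)
    (hm : ∀ β A, ∀ p ∈ S β A, Measurable (φ β A p)) (hc : ∀ β A, PredR (ρ β A) (S β A) (φ β A)) {a t B : ℝ} (ha : 0 ≤ a)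
    (ht : 0 ≤ t) (hk : ∀ β A, ∀ p ∈ S β A, ∀ η, (2 * t + 3) * |φ β A p η| ≤ θ) (hB : ∀ β A η, ∑ p ∈ S β A, φ β A p η ^ 2 ≤ B)
    {c' d' c'' d'' j : ℕ} {cls : Px Q → Px Q → ℝ} (h0 : ∀ x y, 0 ≤ cls x y) (h1 : ∀ x y, cls x y ≤ 1) {g h : Env × Finset ℕ → Px Q → ℝ}
    (mg : ∀ S, Measurable fun ω => g ω S) (mh : ∀ S, Measurable fun ω => h ω S) {M H : ℝ} (bg : ∀ ω S, |g ω S| ≤ M)
    (bh : ∀ ω S, |h ω S| ≤ H) :
    |∑ β ∈ I ×ˢ I, (∫ ω, sr ω.2 j * PhB (wm μ s N Q (Sh (S β ω.2) (φ β ω.2) ω.1, ω.2)) (pJ c' d') (pJ c'' d'') cls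
          (g (Sh (S β ω.2) (φ β ω.2) ω.1, ω.2)) (h (Sh (S β ω.2) (φ β ω.2) ω.1, ω.2)) bx β ∂(Pm μ N) -
        ∫ ω, sr ω.2 j * PhB (wm μ s N Q ω) (pJ c' d') (pJ c'' d'') cls (g ω) (h ω) bx β ∂(Pm μ N))| ≤
      (Real.exp a - 1) * (2 * M ^ 2) * ∫ ω, gm (wm μ s N Q ω) (fun x => |h ω x| * cE (wm μ s N Q ω) (pJ c' d') (cls x) x) ∂(Pm μ N) +
        (I.card : ℝ) ^ 2 * (4 * Real.exp (-(t * a)) * Real.exp (C * ((2 * t + 3) ^ 2 + 1) * B) * (2 * M ^ 2 * H)) := by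
  have hea : 0 ≤ Real.exp a - 1 := by linarith [Real.one_le_exp ha]
  have mP : ∀ β, Measurable fun ω : Env × Finset ℕ => sr ω.2 j *
      PhB (wm μ s N Q ω) (pJ c' d') (pJ c'' d'') cls (g ω) (h ω) bx β := fun β => (meas_sr j).mul (meas_PhB mg mh bx β)
  have bP : ∀ β ω, |sr ω.2 j * PhB (wm μ s N Q ω) (pJ c' d') (pJ c'' d'') cls (g ω) (h ω) bx β| ≤
      MjB (wm μ s N Q ω) (pJ c' d') cls M (h ω) bx β := fun β ω => by
    rw [abs_mul, abs_sr, one_mul]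
    exact abs_PhB_le _ _ _ h0 (bg ω) (h ω) bx β
  have bP' : ∀ β ω, |sr ω.2 j * PhB (wm μ s N Q ω) (pJ c' d') (pJ c'' d'') cls (g ω) (h ω) bx β| ≤ 2 * M ^ 2 * H := fun β ω =>
    (bP β ω).trans ((le_abs_self _).trans (MjB_le h0 h1 (bh ω) bx β))
  have mM : ∀ β, Measurable fun ω => MjB (wm μ s N Q ω) (pJ c' d') cls M (h ω) bx β := fun β => by
    unfold MjB
    refine meas_gm meas_wm fun x => ?_
    exact ((((mh x).norm).const_mul _).const_mul _).mul
      (meas_cE (f := fun _ y => cls x y * ib bx β.2 y) meas_wm (fun y => measurable_const) _ x)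
  refine (abs_sum_le_sum_abs _ _).trans ?_
  have key : ∀ β ∈ I ×ˢ I, |∫ ω, sr ω.2 j * PhB (wm μ s N Q (Sh (S β ω.2) (φ β ω.2) ω.1, ω.2)) (pJ c' d') (pJ c'' d'') cls
          (g (Sh (S β ω.2) (φ β ω.2) ω.1, ω.2)) (h (Sh (S β ω.2) (φ β ω.2) ω.1, ω.2)) bx β ∂(Pm μ N) -
        ∫ ω, sr ω.2 j * PhB (wm μ s N Q ω) (pJ c' d') (pJ c'' d'') cls (g ω) (h ω) bx β ∂(Pm μ N)| ≤
      (Real.exp a - 1) * ∫ ω, MjB (wm μ s N Q ω) (pJ c' d') cls M (h ω) bx β ∂(Pm μ N) +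
        4 * Real.exp (-(t * a)) * Real.exp (C * ((2 * t + 3) ^ 2 + 1) * B) * (2 * M ^ 2 * H) := by
    intro β _
    refine (q3_Pm hW (ρ β) (S β) (φ β) (hm β) (hc β) ha ht (hk β) (hB β) (mP β) (bP' β)).trans (add_le_add ?_ le_rfl)
    have i1 : Integrable (fun ω => |sr ω.2 j * PhB (wm μ s N Q ω) (pJ c' d') (pJ c'' d'') cls (g ω) (h ω) bx β|) (Pm μ N) :=
      int_bdd (M := 2 * M ^ 2 * H) (mP β).norm fun ω => by
        rw [abs_abs]
        exact bP' β ω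
    exact mul_le_mul_of_nonneg_left (integral_mono i1 (int_bdd (mM β) fun ω => MjB_le h0 h1 (bh ω) bx β) (bP β)) hea
  refine (sum_le_sum key).trans (le_of_eq ?_)
  rw [sum_add_distrib, ← mul_sum, sum_const, card_product, nsmul_eq_mul,
    ← integral_finsetSum _ fun β _ => int_bdd (mM β) fun ω => MjB_le h0 h1 (bh ω) bx β]
  have e1 : (fun ω => ∑ β ∈ I ×ˢ I, MjB (wm μ s N Q ω) (pJ c' d') cls M (h ω) bx β) =
      fun ω => 2 * M ^ 2 * gm (wm μ s N Q ω) (fun x => |h ω x| * cE (wm μ s N Q ω) (pJ c' d') (cls x) x) := by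
    funext ω
    exact sum_MjB hI (wm μ s N Q ω) (pJ c' d') cls M (h ω)
  rw [e1, integral_const_mul]
  push_cast
  ring

/-! ### The sum over the rows -/

omit [Nonempty (Px Q)] in
/-- The sum over the rows, pointwise. -/
theorem rows_pt {R : Finset ℕ} {K e θ : ℝ} (hK : 0 ≤ K) (hθ : 0 < θ) {D : ℝ} {Df m : ℕ → ℝ} (hm : ∀ j ∈ R, 0 ≤ m j)
    (hD : ∀ j ∈ R, |Df j| ≤ |D| + e) :
    K * ∑ j ∈ R, |Df j| * m j ≤ θ / 2 * D ^ 2 + K ^ 2 / (2 * θ) * (∑ j ∈ R, m j) ^ 2 + K * e * ∑ j ∈ R, m j := by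
  have h1 : ∑ j ∈ R, |Df j| * m j ≤ |D| * (∑ j ∈ R, m j) + e * ∑ j ∈ R, m j := by
    rw [← add_mul, mul_sum]
    exact sum_le_sum fun j hj => mul_le_mul_of_nonneg_right (hD j hj) (hm j hj)
  have h2 : K * (|D| * (∑ j ∈ R, m j)) ≤ θ / 2 * D ^ 2 + K ^ 2 / (2 * θ) * (∑ j ∈ R, m j) ^ 2 := by
    have h3 : 0 ≤ (θ * |D| - K * ∑ j ∈ R, m j) ^ 2 / (2 * θ) := by positivity
    have h4 : (θ * |D| - K * ∑ j ∈ R, m j) ^ 2 / (2 * θ) =
        θ / 2 * D ^ 2 + K ^ 2 / (2 * θ) * (∑ j ∈ R, m j) ^ 2 - K * (|D| * (∑ j ∈ R, m j)) := by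
      have h5 : D ^ 2 = |D| ^ 2 := (sq_abs D).symm
      rw [h5]
      field_simp
      ring
    linarith
  have h6 := mul_le_mul_of_nonneg_left h1 hK
  linarith

variable {B : ℝ} (δ : ℝ) (b σ m : ℕ) (R : Finset ℕ) (c d h : ℕ)

/-- The far part of `j` against the whole. -/
theorem abs_Df_le (hB : 0 ≤ B) (hσ : 0 < σ) (hm : 0 < m) (hcd : c ≤ d) (hc : m * σ ∣ c) (hd : m * σ ∣ d) (ω : Env × Finset ℕ) (j : ℕ)
    (S : Px Q) : |Df μ s N Q δ B b σ m R c d h ω j S| ≤ |Dt μ s N Q δ B b σ m R c d ω S| + 2 * h * ((B / 2) ^ 2 / 3) := by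
  have e1 : Df μ s N Q δ B b σ m R c d h ω j S = Dt μ s N Q δ B b σ m R c d ω S -
      ∑ k ∈ (Rw R c d).filter (fun k => j < k + h ∧ k < j + h), sr ω.2 k / 3 * Vn μ s N Q δ B b σ m ω k S := by
    rw [Dt_eq δ B b hσ hm R hcd hc hd ω, Finset.sum_apply,
      ← sum_filter_add_sum_filter_not (Rw R c d) (fun k => j < k + h ∧ k < j + h)]
    unfold Df Fa
    rw [Finset.sum_apply]
    simp only [Pi.smul_apply, smul_eq_mul]
    ring
  have hcard : (((Rw R c d).filter fun k => j < k + h ∧ k < j + h).card : ℝ) ≤ 2 * h := by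
    have h1 : ((Rw R c d).filter fun k => j < k + h ∧ k < j + h) ⊆ Ico (j + 1 - h) (j + h) := by
      intro k hk
      rw [mem_filter] at hk
      rw [mem_Ico]
      omega
    have h2 := card_le_card h1
    rw [Nat.card_Ico] at h2
    have h3 : ((Rw R c d).filter fun k => j < k + h ∧ k < j + h).card ≤ 2 * h := h2.trans (by omega)
    exact_mod_cast h3
  rw [e1]
  refine (abs_sub _ _).trans (add_le_add le_rfl ?_)
  refine (abs_sumV hB b σ m _ ω S).trans ?_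
  exact mul_le_mul_of_nonneg_right hcard (by positivity)

/-- The mass of the replicas given the outside of the block, weighted with the class. -/
def mC (w : Px Q → ℝ) (c' d' : ℕ) (cls : Px Q → Px Q → ℝ) (x : Px Q) : ℝ := cE w (pJ c' d') (cls x) x

theorem mC_nonneg {w : Px Q → ℝ} {c' d' : ℕ} {cls : Px Q → Px Q → ℝ} (h0 : ∀ x y, 0 ≤ cls x y) (x : Px Q) : 0 ≤ mC w c' d' cls x :=
  cE_nonneg w _ (h0 x) x

theorem mC_le_one {w : Px Q → ℝ} {c' d' : ℕ} {cls : Px Q → Px Q → ℝ} (h1 : ∀ x y, cls x y ≤ 1) (x : Px Q) : mC w c' d' cls x ≤ 1 := by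
  have e := cE_mono w (pJ c' d') (f := cls x) (g := fun _ => 1) (h1 x) x
  rwa [cE_one] at e

omit [Nonempty (Px Q)] in
theorem meas_mC (c' d' : ℕ) (cls : Px Q → Px Q → ℝ) (x : Px Q) : Measurable fun ω => mC (wm μ s N Q ω) c' d' cls x :=
  meas_cE (f := fun _ => cls x) meas_wm (fun y => measurable_const) _ x

/-- **THE SUM OVER THE ROWS, averaged** (AM - GM: linear in the mean of `Dt ^ 2`, so the average over the pinned ends is trivial). -/
theorem rows_Pm [IsProbabilityMeasure μ] (hB : 0 ≤ B) (hσ : 0 < σ) (hm : 0 < m) (hcd : c ≤ d) (hc : m * σ ∣ c) (hd : m * σ ∣ d)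
    {K θ : ℝ} (hK : 0 ≤ K) (hθ : 0 < θ) (c' d' : ℕ → ℕ) {cls : ℕ → Px Q → Px Q → ℝ} (h0 : ∀ j x y, 0 ≤ cls j x y)
    (h1 : ∀ j x y, cls j x y ≤ 1) :
    K * ∑ j ∈ Rw R c d, ∫ ω, gm (wm μ s N Q ω) (fun x => |Df μ s N Q δ B b σ m R c d h ω j x| *
        mC (wm μ s N Q ω) (c' j) (d' j) (cls j) x) ∂(Pm μ N) ≤
      θ / 2 * ∫ ω, gm (wm μ s N Q ω) (fun x => Dt μ s N Q δ B b σ m R c d ω x ^ 2) ∂(Pm μ N) +
        K ^ 2 / (2 * θ) * ∫ ω, gm (wm μ s N Q ω) (fun x => (∑ j ∈ Rw R c d, mC (wm μ s N Q ω) (c' j) (d' j) (cls j) x) ^ 2) ∂(Pm μ N) +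
        K * (2 * h * ((B / 2) ^ 2 / 3)) * ∑ j ∈ Rw R c d, ∫ ω, gm (wm μ s N Q ω) (mC (wm μ s N Q ω) (c' j) (d' j) (cls j)) ∂(Pm μ N) := by
  obtain ⟨A, hA⟩ : ∃ A : ℝ, A = (Rw R c d).card * ((B / 2) ^ 2 / 3) := ⟨_, rfl⟩
  have hA0 : 0 ≤ A := by
    rw [hA]
    positivity
  have bgm : ∀ (w : Px Q → ℝ) {f : Px Q → ℝ} {C : ℝ}, (∀ x, |f x| ≤ C) → |gm w f| ≤ C := fun w f C hf => by
    obtain ⟨x₀⟩ := ‹Nonempty (Px Q)›
    rw [← gm_eq_cE w f x₀]
    exact abs_cE_le w _ hf x₀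
  have i1 : ∀ j, Integrable (fun ω => gm (wm μ s N Q ω) (fun x => |Df μ s N Q δ B b σ m R c d h ω j x| *
      mC (wm μ s N Q ω) (c' j) (d' j) (cls j) x)) (Pm μ N) := fun j =>
    int_bdd (M := A * 1) (meas_gm meas_wm fun x => ((meas_Df δ B b σ m R c d h j x).norm).mul (meas_mC _ _ _ x)) fun ω =>
      bgm _ fun x => by
        rw [abs_mul, abs_abs, abs_of_nonneg (mC_nonneg (h0 j) x)]
        exact mul_le_mul (hA ▸ abs_Df hB b σ m R c d h ω j x) (mC_le_one (h1 j) x) (mC_nonneg (h0 j) x) hA0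
  have i2 : Integrable (fun ω => gm (wm μ s N Q ω) (fun x => Dt μ s N Q δ B b σ m R c d ω x ^ 2)) (Pm μ N) :=
    int_bdd (M := A ^ 2) (meas_gm meas_wm fun x => (meas_Dt δ B b hσ hm R hcd hc hd x).pow_const 2) fun ω => bgm _ fun x => by
      rw [abs_pow]
      exact pow_le_pow_left₀ (abs_nonneg _) (hA ▸ abs_Dt hB b hσ hm R hcd hc hd ω x) 2
  have hs : ∀ ω x, |∑ j ∈ Rw R c d, mC (wm μ s N Q ω) (c' j) (d' j) (cls j) x| ≤ (Rw R c d).card := fun ω x => by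
    rw [abs_of_nonneg (sum_nonneg fun j _ => mC_nonneg (h0 j) x)]
    refine (sum_le_card_nsmul _ _ 1 fun j _ => mC_le_one (h1 j) x).trans (le_of_eq ?_)
    rw [nsmul_eq_mul, mul_one]
  have i3 : Integrable (fun ω => gm (wm μ s N Q ω) (fun x => (∑ j ∈ Rw R c d, mC (wm μ s N Q ω) (c' j) (d' j) (cls j) x) ^ 2))
      (Pm μ N) :=
    int_bdd (M := ((Rw R c d).card : ℝ) ^ 2) (meas_gm meas_wm fun x =>
      (Finset.measurable_fun_sum _ fun j _ => meas_mC _ _ _ x).pow_const 2) fun ω => bgm _ fun x => by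
      rw [abs_pow]
      exact pow_le_pow_left₀ (abs_nonneg _) (hs ω x) 2
  have i4 : ∀ j, Integrable (fun ω => gm (wm μ s N Q ω) (mC (wm μ s N Q ω) (c' j) (d' j) (cls j))) (Pm μ N) := fun j =>
    int_bdd (M := 1) (meas_gm meas_wm fun x => meas_mC _ _ _ x) fun ω => bgm _ fun x => by
      rw [abs_of_nonneg (mC_nonneg (h0 j) x)]
      exact mC_le_one (h1 j) x
  have key : ∀ ω, K * ∑ j ∈ Rw R c d, gm (wm μ s N Q ω) (fun x => |Df μ s N Q δ B b σ m R c d h ω j x| *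
        mC (wm μ s N Q ω) (c' j) (d' j) (cls j) x) ≤
      θ / 2 * gm (wm μ s N Q ω) (fun x => Dt μ s N Q δ B b σ m R c d ω x ^ 2) +
        K ^ 2 / (2 * θ) * gm (wm μ s N Q ω) (fun x => (∑ j ∈ Rw R c d, mC (wm μ s N Q ω) (c' j) (d' j) (cls j) x) ^ 2) +
        K * (2 * h * ((B / 2) ^ 2 / 3)) * ∑ j ∈ Rw R c d, gm (wm μ s N Q ω) (mC (wm μ s N Q ω) (c' j) (d' j) (cls j)) := by
    intro ω
    have cm : ∀ (a : ℝ) (f : Px Q → ℝ), a * gm (wm μ s N Q ω) f = gm (wm μ s N Q ω) fun x => a * f x := fun a f => by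
      unfold gm
      rw [← mul_div_assoc, mul_sum]
      congr 1
      refine sum_congr rfl fun x _ => ?_
      ring
    have ad : ∀ f g : Px Q → ℝ, gm (wm μ s N Q ω) f + gm (wm μ s N Q ω) g = gm (wm μ s N Q ω) fun x => f x + g x := fun f g => by
      unfold gm
      rw [← add_div, ← sum_add_distrib]
      congr 1
      refine sum_congr rfl fun x _ => ?_
      ring
    rw [← gm_sum', ← gm_sum', cm, cm, cm, cm, ad, ad]
    refine gm_mono _ fun x => ?_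
    have e := rows_pt (R := Rw R c d) (K := K) (e := 2 * h * ((B / 2) ^ 2 / 3)) (θ := θ) hK hθ (D := Dt μ s N Q δ B b σ m R c d ω x)
      (Df := fun j => Df μ s N Q δ B b σ m R c d h ω j x) (m := fun j => mC (wm μ s N Q ω) (c' j) (d' j) (cls j) x)
      (fun j _ => mC_nonneg (h0 j) x) fun j _ => abs_Df_le δ b σ m R c d h hB hσ hm hcd hc hd ω j x
    exact e
  have j1 := (integrable_finsetSum (Rw R c d) fun j _ => i1 j).const_mul K
  have j2 := i2.const_mul (θ / 2)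
  have j3 := i3.const_mul (K ^ 2 / (2 * θ))
  have j4 := (integrable_finsetSum (Rw R c d) fun j _ => i4 j).const_mul (K * (2 * h * ((B / 2) ^ 2 / 3)))
  have e := integral_mono j1 ((j2.add j3).add j4) key
  rw [integral_const_mul, integral_finsetSum _ fun j _ => i1 j] at e
  refine e.trans (le_of_eq ?_)
  have e2 := integral_add (j2.add j3) j4
  have e3 := integral_add j2 j3
  rw [integral_const_mul, integral_const_mul] at e3
  rw [integral_const_mul, integral_finsetSum _ fun j _ => i4 j] at e2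
  rw [← e3]
  exact e2

end Model

end

end Pool.Agent.W_7d29a1_C0.KickT32
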