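import Pool.Agent.W_7d29a1_C0.FldK27
import Pool.Agent.W_7d29a1_C0.KickT32

/-!
CURV0 (MP_7d29a1_pr), section GS (one kick): THE STEP (1 - T) AND THE CORNER `w + C_β` FOR THE KICK FIELDS OF `FldK27`. (helper27)

`kickT_R` / `kickT_L`: `KickT32.kickT` for the right and the left kick of the row `j`, the boxes `κ = Fin (n + 1)` of two replicas;
`corner_R` / `corner_L`: for `0 ≤ F ≤ D` the mean of `F` at the kicked environment is at most `exp a` times the mean of `F`, up to a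
tiny term; `diff_R` / `diff_L`: the two sided form for one pair of boxes.
-/

set_option autoImplicit false
set_option linter.unusedSectionVars false
set_option linter.unusedVariables false

namespace Pool.W7d29a1.C0.K27

open Finset MeasureTheory Pool.Agent.W_7d29a1_F Pool.Agent.W_7d29a1_X Pool.W7d29a1.C0
open Pool.Agent.W_7d29a1_C0.Mod92
open Pool.W7d29a1.C0.H27 (Sh PredR Sh_meas)
open Pool.W7d29a1.C0.VT31 (Mp Crs cE fz)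
open Pool.W7d29a1.C0.Fld19 (Sl)
open Pool.Agent.W_7d29a1_C0.Q32 (WL)
open Pool.Agent.W_7d29a1_C0.KickT32 (PhB q3_Pm kickT)

noncomputable section

variable {μ : Measure ℝ} {s : ℝ} {N : ℕ} {Q : Finset (Finset ℕ)}

/-- The tiny term of the kicks. -/
def tlK (C t a BB : ℝ) : ℝ := 4 * Real.exp (-(t * a)) * Real.exp (C * ((2 * t + 3) ^ 2 + 1) * BB)

/-- A kick whose field may depend on the signs: the difference form over the outer space. -/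
theorem diff_KF [IsProbabilityMeasure μ] {u : ℝ → ℝ → ℝ} {C θ : ℝ} (hW : WL μ u C θ) {ρ : Pt → ℤ} {V : Finset Pt}
    {φ : Finset ℕ → Pt → Env → ℝ} {d BB a t : ℝ} (h : ∀ A, KF ρ V (φ A) d BB) (ha : 0 ≤ a) (ht : 0 ≤ t)
    (hd : (2 * t + 3) * d ≤ θ) {F F' : Env × Finset ℕ → ℝ} (hF : Measurable F) {D : ℝ} (hD : ∀ ω, |F ω| ≤ D)
    (hF' : ∀ ω, F (Sh V (φ ω.2) ω.1, ω.2) = F' ω) :
    |∫ ω, F' ω ∂(Pm μ N) - ∫ ω, F ω ∂(Pm μ N)| ≤ (Real.exp a - 1) * ∫ ω, |F ω| ∂(Pm μ N) + tlK C t a BB * D := by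
  have h1 := q3_Pm (N := N) hW (fun _ => ρ) (fun _ => V) φ (fun A => (h A).meas) (fun A => (h A).pred) ha ht
    (fun A => (h A).hk ht hd) (fun A => (h A).sq) hF hD
  rw [show (fun ω => F' ω) = fun ω => F (Sh V (φ ω.2) ω.1, ω.2) from funext fun ω => (hF' ω).symm]
  exact h1

/-- **The corner**: a nonnegative function at the kicked environment. -/
theorem corner_KF [IsProbabilityMeasure μ] {u : ℝ → ℝ → ℝ} {C θ : ℝ} (hW : WL μ u C θ) {ρ : Pt → ℤ} {V : Finset Pt}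
    {φ : Finset ℕ → Pt → Env → ℝ} {d BB a t : ℝ} (h : ∀ A, KF ρ V (φ A) d BB) (ha : 0 ≤ a) (ht : 0 ≤ t)
    (hd : (2 * t + 3) * d ≤ θ) {F F' : Env × Finset ℕ → ℝ} (hF : Measurable F) {D : ℝ} (h0 : ∀ ω, 0 ≤ F ω) (hD : ∀ ω, F ω ≤ D)
    (hF' : ∀ ω, F (Sh V (φ ω.2) ω.1, ω.2) = F' ω) :
    ∫ ω, F' ω ∂(Pm μ N) ≤ Real.exp a * ∫ ω, F ω ∂(Pm μ N) + tlK C t a BB * D := by
  have h1 := diff_KF (N := N) hW h ha ht hd hF (D := D) (fun ω => by rw [abs_of_nonneg (h0 ω)]; exact hD ω) hF'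
  have h2 : ∫ ω, |F ω| ∂(Pm μ N) = ∫ ω, F ω ∂(Pm μ N) := by
    congr 1
    funext ω
    exact abs_of_nonneg (h0 ω)
  rw [h2] at h1
  have h3 := (abs_le.1 h1).2
  linarith

section Kick

variable {δ B : ℝ} {b j : ℕ} {J : Finset ℕ} {sl' R : ℝ} {m0 : ℤ} {n : ℕ}

/-- The right kick for a pair of boxes, the sign of the row `j` read from the signs. -/
abbrev pR (μ : Measure ℝ) (s δ B : ℝ) (b j : ℕ) (J : Finset ℕ) (sl' R : ℝ) (m0 : ℤ) {n : ℕ} (β : Fin (n + 1) × Fin (n + 1))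
    (A : Finset ℕ) : Pt → Env → ℝ := kR μ s δ B b j (sg A j) J sl' R m0 ![β.1, β.2]

/-- The left kick for a pair of boxes. -/
abbrev pL (μ : Measure ℝ) (s : ℝ) (N : ℕ) (Q : Finset (Finset ℕ)) (δ B : ℝ) (b j : ℕ) (J : Finset ℕ) (sl' R : ℝ) (m0 : ℤ) {n : ℕ}
    (β : Fin (n + 1) × Fin (n + 1)) (A : Finset ℕ) : Pt → Env → ℝ := kL μ s N Q δ B b j (sg A j) J sl' R m0 ![β.1, β.2]

/-- `C_β` for a pair of boxes, on the outer space. -/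
abbrev CR2 (μ : Measure ℝ) (s : ℝ) (N : ℕ) (Q : Finset (Finset ℕ)) (δ B : ℝ) (b j : ℕ) (J : Finset ℕ) (sl' R : ℝ) (m0 : ℤ) {n : ℕ}
    (β : Fin (n + 1) × Fin (n + 1)) (ω : Env × Finset ℕ) : Px Q → ℝ :=
  CR μ s N Q δ B b j (sg ω.2 j) J sl' R m0 ![β.1, β.2] ω.1

abbrev CL2 (μ : Measure ℝ) (s : ℝ) (N : ℕ) (Q : Finset (Finset ℕ)) (δ B : ℝ) (b j : ℕ) (J : Finset ℕ) (sl' R : ℝ) (m0 : ℤ) {n : ℕ}
    (β : Fin (n + 1) × Fin (n + 1)) (ω : Env × Finset ℕ) : Px Q → ℝ :=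
  CL μ s N Q δ B b j (sg ω.2 j) J sl' R m0 ![β.1, β.2] ω.1

theorem kf_pR (hB : 0 ≤ B) (hR : 1 ≤ R) (hJ : J.Nonempty) (hJ1 : ∀ i ∈ J, j + b < i ∧ i ≤ N) (β : Fin (n + 1) × Fin (n + 1))
    (A : Finset ℕ) : KF (fun p => p.1) (Sl J N) (pR μ s δ B b j J sl' R m0 β A) (B / J.card) (14 * R * B ^ 2 / J.card) := by
  have h := kf_kR (μ := μ) (s := s) (N := N) (δ := δ) (a := sg A j) (sl' := sl') (m0 := m0) hB (abs_sg A j).le hR hJ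
    (fun i hi => (hJ1 i hi).1) ![β.1, β.2]
  refine h.mono le_rfl (le_of_eq ?_)
  rw [Fintype.card_fin]
  norm_num

theorem kf_pL (hB : 0 ≤ B) (hR : 1 ≤ R) (hJ : J.Nonempty) (hJ1 : ∀ i ∈ J, 1 ≤ i ∧ i ≤ j - b ∧ i ≤ N) (β : Fin (n + 1) × Fin (n + 1))
    (A : Finset ℕ) : KF (fun p => -p.1) (Sl J N) (pL μ s N Q δ B b j J sl' R m0 β A) (B / J.card) (14 * R * B ^ 2 / J.card) := by
  have h := kf_kL (μ := μ) (s := s) (N := N) (Q := Q) (δ := δ) (a := sg A j) (sl' := sl') (m0 := m0) hB (abs_sg A j).le hR hJ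
    (fun i hi => (hJ1 i hi).2.1) ![β.1, β.2]
  refine h.mono le_rfl (le_of_eq ?_)
  rw [Fintype.card_fin]
  norm_num

/-- The log weights and the response at the right kick. -/
theorem wm_pR (hJ1 : ∀ i ∈ J, j + b < i ∧ i ≤ N) (β : Fin (n + 1) × Fin (n + 1)) (ω : Env × Finset ℕ) :
    wm μ s N Q (Sh (Sl J N) (pR μ s δ B b j J sl' R m0 β ω.2) ω.1, ω.2) = wm μ s N Q ω + CR2 μ s N Q δ B b j J sl' R m0 β ω :=
  wm_kR (fun i hi => ⟨by have := (hJ1 i hi).1; omega, (hJ1 i hi).2⟩) _ ω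

theorem wm_pL (hJ1 : ∀ i ∈ J, 1 ≤ i ∧ i ≤ j - b ∧ i ≤ N) (β : Fin (n + 1) × Fin (n + 1)) (ω : Env × Finset ℕ) :
    wm μ s N Q (Sh (Sl J N) (pL μ s N Q δ B b j J sl' R m0 β ω.2) ω.1, ω.2) = wm μ s N Q ω + CL2 μ s N Q δ B b j J sl' R m0 β ω :=
  wm_kL (fun i hi => ⟨(hJ1 i hi).1, (hJ1 i hi).2.2⟩) _ ω

theorem gg_pR (hJ1 : ∀ i ∈ J, j + b < i ∧ i ≤ N) (φ : Pt → Env → ℝ) (ω : Env × Finset ℕ) :
    gg μ s Q δ B b (Sh (Sl J N) φ ω.1, ω.2) j = gg μ s Q δ B b ω j := gg_Sh _ ω δ B b j fun i hi => Or.inr (hJ1 i hi).1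

theorem gg_pL (hJ1 : ∀ i ∈ J, 1 ≤ i ∧ i ≤ j - b ∧ i ≤ N) (φ : Pt → Env → ℝ) (ω : Env × Finset ℕ) :
    gg μ s Q δ B b (Sh (Sl J N) φ ω.1, ω.2) j = gg μ s Q δ B b ω j := gg_Sh _ ω δ B b j fun i hi => Or.inl (hJ1 i hi).2.1

variable [Nonempty (Px Q)] [IsProbabilityMeasure μ] {u : ℝ → ℝ → ℝ} {C θ : ℝ}

/-- **The step (1 - T), right kick**, summed over the pairs of boxes. -/
theorem kickT_R (hW : WL μ u C θ) (hB : 0 ≤ B) (hR : 1 ≤ R) (hJ : J.Nonempty) (hJ1 : ∀ i ∈ J, j + b < i ∧ i ≤ N)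
    {bx : Px Q → Fin (n + 1)} {a t : ℝ} (ha : 0 ≤ a) (ht : 0 ≤ t) (hd : (2 * t + 3) * (B / J.card) ≤ θ)
    {c' d' c'' d'' : ℕ} {cls : Px Q → Px Q → ℝ} (h0 : ∀ x y, 0 ≤ cls x y) (h1 : ∀ x y, cls x y ≤ 1)
    {h : Env × Finset ℕ → Px Q → ℝ} {h' : Fin (n + 1) × Fin (n + 1) → Env × Finset ℕ → Px Q → ℝ}
    (mh : ∀ S, Measurable fun ω => h ω S) {H : ℝ} (bh : ∀ ω S, |h ω S| ≤ H)
    (hh : ∀ β ω, h (Sh (Sl J N) (pR μ s δ B b j J sl' R m0 β ω.2) ω.1, ω.2) = h' β ω) :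
    |∑ β : Fin (n + 1) × Fin (n + 1),
        (∫ ω, sr ω.2 j * PhB (wm μ s N Q ω + CR2 μ s N Q δ B b j J sl' R m0 β ω) (pJ c' d') (pJ c'' d'') cls
          (gg μ s Q δ B b ω j) (h' β ω) bx β ∂(Pm μ N) -
        ∫ ω, sr ω.2 j * PhB (wm μ s N Q ω) (pJ c' d') (pJ c'' d'') cls (gg μ s Q δ B b ω j) (h ω) bx β ∂(Pm μ N))| ≤
      (Real.exp a - 1) * (2 * (B / 2) ^ 2) *
          ∫ ω, gm (wm μ s N Q ω) (fun x => |h ω x| * cE (wm μ s N Q ω) (pJ c' d') (cls x) x) ∂(Pm μ N) +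
        ((n : ℝ) + 1) ^ 2 * (tlK C t a (14 * R * B ^ 2 / J.card) * (2 * (B / 2) ^ 2 * H)) := by
  have key := kickT (s := s) (Q := Q) (N := N) hW (bx := bx) (I := univ) (fun x => mem_univ _) (fun _ _ p => p.1)
    (fun _ _ => Sl J N) (fun β A => pR μ s δ B b j J sl' R m0 β A) (fun β A => (kf_pR hB hR hJ hJ1 β A).meas)
    (fun β A => (kf_pR hB hR hJ hJ1 β A).pred) ha ht (fun β A => (kf_pR hB hR hJ hJ1 β A).hk ht hd)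
    (fun β A => (kf_pR hB hR hJ hJ1 β A).sq) (c' := c') (d' := d') (c'' := c'') (d'' := d'') (j := j) h0 h1
    (g := fun ω => gg μ s Q δ B b ω j) (fun S => meas_gg δ B b j S) mh (fun ω S => abs_gg hB b ω j S) bh
  simp only [wm_pR hJ1, gg_pR hJ1, hh] at key
  rw [univ_product_univ] at key
  refine key.trans (le_of_eq ?_)
  rw [card_univ, Fintype.card_fin]
  push_cast
  rfl

/-- **The step (1 - T), left kick**, summed over the pairs of boxes. -/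
theorem kickT_L (hW : WL μ u C θ) (hB : 0 ≤ B) (hR : 1 ≤ R) (hJ : J.Nonempty) (hJ1 : ∀ i ∈ J, 1 ≤ i ∧ i ≤ j - b ∧ i ≤ N)
    {bx : Px Q → Fin (n + 1)} {a t : ℝ} (ha : 0 ≤ a) (ht : 0 ≤ t) (hd : (2 * t + 3) * (B / J.card) ≤ θ)
    {c' d' c'' d'' : ℕ} {cls : Px Q → Px Q → ℝ} (h0 : ∀ x y, 0 ≤ cls x y) (h1 : ∀ x y, cls x y ≤ 1)
    {h : Env × Finset ℕ → Px Q → ℝ} {h' : Fin (n + 1) × Fin (n + 1) → Env × Finset ℕ → Px Q → ℝ}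
    (mh : ∀ S, Measurable fun ω => h ω S) {H : ℝ} (bh : ∀ ω S, |h ω S| ≤ H)
    (hh : ∀ β ω, h (Sh (Sl J N) (pL μ s N Q δ B b j J sl' R m0 β ω.2) ω.1, ω.2) = h' β ω) :
    |∑ β : Fin (n + 1) × Fin (n + 1),
        (∫ ω, sr ω.2 j * PhB (wm μ s N Q ω + CL2 μ s N Q δ B b j J sl' R m0 β ω) (pJ c' d') (pJ c'' d'') cls
          (gg μ s Q δ B b ω j) (h' β ω) bx β ∂(Pm μ N) -
        ∫ ω, sr ω.2 j * PhB (wm μ s N Q ω) (pJ c' d') (pJ c'' d'') cls (gg μ s Q δ B b ω j) (h ω) bx β ∂(Pm μ N))| ≤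
      (Real.exp a - 1) * (2 * (B / 2) ^ 2) *
          ∫ ω, gm (wm μ s N Q ω) (fun x => |h ω x| * cE (wm μ s N Q ω) (pJ c' d') (cls x) x) ∂(Pm μ N) +
        ((n : ℝ) + 1) ^ 2 * (tlK C t a (14 * R * B ^ 2 / J.card) * (2 * (B / 2) ^ 2 * H)) := by
  have key := kickT (s := s) (Q := Q) (N := N) hW (bx := bx) (I := univ) (fun x => mem_univ _) (fun _ _ p => -p.1)
    (fun _ _ => Sl J N) (fun β A => pL μ s N Q δ B b j J sl' R m0 β A) (fun β A => (kf_pL hB hR hJ hJ1 β A).meas)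
    (fun β A => (kf_pL hB hR hJ hJ1 β A).pred) ha ht (fun β A => (kf_pL hB hR hJ hJ1 β A).hk ht hd)
    (fun β A => (kf_pL hB hR hJ hJ1 β A).sq) (c' := c') (d' := d') (c'' := c'') (d'' := d'') (j := j) h0 h1
    (g := fun ω => gg μ s Q δ B b ω j) (fun S => meas_gg δ B b j S) mh (fun ω S => abs_gg hB b ω j S) bh
  simp only [wm_pL hJ1, gg_pL hJ1, hh] at key
  rw [univ_product_univ] at key
  refine key.trans (le_of_eq ?_)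
  rw [card_univ, Fintype.card_fin]
  push_cast
  rfl

/-- **The corner `w + C_β`, right kick**: `F' ω = F` at the kicked environment. -/
theorem corner_R (hW : WL μ u C θ) (hB : 0 ≤ B) (hR : 1 ≤ R) (hJ : J.Nonempty) (hJ1 : ∀ i ∈ J, j + b < i ∧ i ≤ N)
    (β : Fin (n + 1) × Fin (n + 1)) {a t : ℝ} (ha : 0 ≤ a) (ht : 0 ≤ t) (hd : (2 * t + 3) * (B / J.card) ≤ θ)
    {F F' : Env × Finset ℕ → ℝ} (hF : Measurable F) {D : ℝ} (h0 : ∀ ω, 0 ≤ F ω) (hD : ∀ ω, F ω ≤ D)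
    (hF' : ∀ ω, F (Sh (Sl J N) (pR μ s δ B b j J sl' R m0 β ω.2) ω.1, ω.2) = F' ω) :
    ∫ ω, F' ω ∂(Pm μ N) ≤ Real.exp a * ∫ ω, F ω ∂(Pm μ N) + tlK C t a (14 * R * B ^ 2 / J.card) * D :=
  corner_KF hW (fun A => kf_pR hB hR hJ hJ1 β A) ha ht hd hF h0 hD hF'

/-- **The corner `w + C_β`, left kick.** -/
theorem corner_L (hW : WL μ u C θ) (hB : 0 ≤ B) (hR : 1 ≤ R) (hJ : J.Nonempty) (hJ1 : ∀ i ∈ J, 1 ≤ i ∧ i ≤ j - b ∧ i ≤ N)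
    (β : Fin (n + 1) × Fin (n + 1)) {a t : ℝ} (ha : 0 ≤ a) (ht : 0 ≤ t) (hd : (2 * t + 3) * (B / J.card) ≤ θ)
    {F F' : Env × Finset ℕ → ℝ} (hF : Measurable F) {D : ℝ} (h0 : ∀ ω, 0 ≤ F ω) (hD : ∀ ω, F ω ≤ D)
    (hF' : ∀ ω, F (Sh (Sl J N) (pL μ s N Q δ B b j J sl' R m0 β ω.2) ω.1, ω.2) = F' ω) :
    ∫ ω, F' ω ∂(Pm μ N) ≤ Real.exp a * ∫ ω, F ω ∂(Pm μ N) + tlK C t a (14 * R * B ^ 2 / J.card) * D :=
  corner_KF hW (fun A => kf_pL hB hR hJ hJ1 β A) ha ht hd hF h0 hD hF'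

end Kick

end

end Pool.W7d29a1.C0.K27
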