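import Pool.Agent.W_7d29a1_C0.E2Mac63
import Pool.Agent.W_7d29a1_C0.MicL14

/-!
CURV0 (MP_7d29a1_pr), section E2, part L: THE PINNED NEAR FIELDS. `cL` is the backward field of the window functional `G` on the rows `J` in
front of the window, pinned at the right end `(e, ke β)` (the position of `x 2` at the row `e` is part of the key `β`), cut to the tubes
`χ β`. `Nx_L`, `Hx_L`: the remainder of `e2_mac` is `NbL (ke β) + FfL β`, `NbL b` = the remainder pinned at `b`, `FfL β` = the far part.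
`NbL_own`: on the paths through `(e, b)` the remainder is `g` minus its average given `pJ m e`, `m ∈ J`, so at most the micro tie
(`abs_NbL_own`). All other hypotheses of `e2_mac` and of `HL` on the near fields: `df_cL`, `rf_cL`, `card_cL`, `qv_cL`, `cL_blind`,
`lk_NbL`, `abs_NbL`; the far part is at most `τ` times the event that the path leaves the tubes (`abs_FfL`). (helper65)
-/

set_option autoImplicit false
set_option linter.unusedSectionVars false
set_option linter.unusedVariables false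

namespace Pool.Agent.W_7d29a1_C0.FL65

open Finset MeasureTheory Pool.Agent.W_7d29a1_F Pool.Agent.W_7d29a1_X Pool.Agent.W_7d29a1_H
open Pool.Agent.W_7d29a1_C0.Mod92 Pool.Agent.W_7d29a1_C0.Blk18 Pool.Agent.W_7d29a1_C0.FP63
open Pool.Agent.W_7d29a1_C0.InT57 Pool.Agent.W_7d29a1_C0.FM63 Pool.Agent.W_7d29a1_C0.EM63 Pool.Agent.W_7d29a1_C0.Swap57
open Pool.Agent.W_7d29a1_C0.MicE14 (Cq nn abs_sub_Cq_le)
open Pool.W7d29a1.C0 Pool.W7d29a1.C0.VT31
open Pool.W7d29a1.C0.H19 (Cf)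
open Pool.W7d29a1.C0.H41 (cut cut' QV Cf_split meas_Cf)
open Pool.W7d29a1.C0.R63 (DF)
open Pool.W7d29a1.C0.T73 (chT OutB)

noncomputable section

variable {μ : Measure ℝ} {s : ℝ} {N al be e z' : ℕ} {Q : Finset (Finset ℕ)} {A G : Env → (ℕ → ℤ) → ℝ} {J J2 : Finset ℕ} {D τ : ℝ}
  [Nonempty (Px Q)]

theorem wf0 (hG : WF al be τ G) : 0 ≤ τ := (abs_nonneg _).trans (hG.bd (fun _ => 0) fun _ => 0)

/-- The near remainder, pinned at the position `b` of the row `e`. -/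
def NbL (μ : Measure ℝ) (s : ℝ) (N : ℕ) (Q : Finset (Finset ℕ)) (A G : Env → (ℕ → ℤ) → ℝ) (e : ℕ) (J : Finset ℕ) (b : ℤ) (η : Env) :
    Px Q → ℝ := at2 G η - Cf (sS J N) (cb μ s A G e b J) (nq N) η

/-- The field is bounded on the slab. -/
theorem abs_cb_le (hG : WF al be τ G) (b : ℤ) (η : Env) (p : Pt) : |cb μ s A G e b J p η| ≤ τ / J.card :=
  abs_fld (wf0 hG) J (abs_pm_le (wf0 hG) (hG.bd η) _ _)

/-- **On the paths through `(e, b)` the remainder is honest.** -/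
theorem NbL_own (hQ : Full N Q) (hA : WF al be D A) (hG : WF al be τ G) (hab : al ≤ be) (hbe : be ≤ e) (he : e ≤ N)
    (hJ : ∀ r ∈ J, 1 ≤ r ∧ r ≤ al) (η : Env) (S : Px Q) :
    NbL μ s N Q A G e J (ps S e) η S =
      (at2 (Q := Q) G η - Cq (lA μ s N Q A η) J (fun m => pJ (Q := Q) m e) (at2 (Q := Q) G η)) S := by
  unfold NbL
  rw [Pi.sub_apply, Pi.sub_apply, Cf_cb hQ hA.rd hG.rd hab hbe he hJ η S]
  rfl

/-- **The remainder at its own paths is at most the micro tie** given `pJ m e`, `m` in the slab. -/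
theorem abs_NbL_own (hQ : Full N Q) (hA : WF al be D A) (hG : WF al be τ G) (hab : al ≤ be) (hbe : be ≤ e)
    (he : e ≤ N) (hJ : ∀ r ∈ J, 1 ≤ r ∧ r ≤ al) (hJ0 : J.Nonempty) (η : Env) (S : Px Q) :
    |NbL μ s N Q A G e J (ps S e) η S| ≤ nn (lA μ s N Q A η) J (fun m => pJ (Q := Q) m e) (at2 (Q := Q) G η) S := by
  rw [NbL_own hQ hA hG hab hbe he hJ]
  exact abs_sub_Cq_le hJ0 (fun m => pJ (Q := Q) m e) (at2 (Q := Q) G η) S

/-- The remainder is bounded. -/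
theorem abs_NbL (hG : WF al be τ G) (hJ0 : J.Nonempty) (b : ℤ) (η : Env) (S : Px Q) : |NbL μ s N Q A G e J b η S| ≤ τ + τ := by
  have h1 : |Cf (sS J N) (cb μ s A G e b J) (nq N) η S| ≤ τ :=
    T73.abs_Cf_vis (pa := pz) (J := JZ J) vis_nq (fun p hp => fst_mem_JZ hp) (JZ_ne hJ0) (wf0 hG) η (fun p _ => by
      rw [card_JZ]
      exact abs_cb_le hG b η p) S
  unfold NbL
  rw [Pi.sub_apply]
  exact (abs_sub _ _).trans (add_le_add (hG.bd η _) h1)

/-- The remainder looks at the rows up to the end of the window only. -/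
theorem lk_NbL (hQ : Full N Q) (hG : WF al be τ G) (hab : al ≤ be) (hbe : be ≤ z') (hN : al ≤ N) (hJ : ∀ r ∈ J, 1 ≤ r ∧ r ≤ al)
    (b : ℤ) (η : Env) : Lk 0 z' (NbL μ s N Q A G e J b η) := by
  intro S S' h
  have hJN : ∀ r ∈ J, 1 ≤ r ∧ r ≤ N := fun r hr => ⟨(hJ r hr).1, (hJ r hr).2.trans hN⟩
  have e1 : at2 G η S = at2 G η S' := hG.rd η _ _ fun r _ h2 => h r (Nat.zero_le r) (h2.trans hbe)
  unfold NbL
  rw [Pi.sub_apply, Pi.sub_apply, Cf_row hQ hJN _ η S, Cf_row hQ hJN _ η S', e1]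
  congr 1
  refine sum_congr rfl fun r hr => ?_
  rw [h r (Nat.zero_le r) (by have := (hJ r hr).2; omega)]

theorem lk_abs_NbL (hQ : Full N Q) (hG : WF al be τ G) (hab : al ≤ be) (hbe : be ≤ z') (hN : al ≤ N) (hJ : ∀ r ∈ J, 1 ≤ r ∧ r ≤ al)
    (b : ℤ) (η : Env) : Lk 0 z' fun y => |NbL μ s N Q A G e J b η y| := fun S S' h => by
  show |NbL μ s N Q A G e J b η S| = |NbL μ s N Q A G e J b η S'|
  rw [lk_NbL hQ hG hab hbe hN hJ b η S S' h]

theorem meas_NbL (hA : WF al be D A) (hG : WF al be τ G) (b : ℤ) : Measurable fun η => NbL μ s N Q A G e J b η :=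
  (at2_meas hG).sub (meas_Cf (fun p _ => (meas_pm hA.meas hG.meas p.2 b).const_mul _) (nq N))

/-! ### The fields of the key -/

section Key

variable {T : Type*} {ke : T → ℤ} {χ : T → Pt → ℝ}

/-- The pinned near field of the key, cut to the tubes. -/
def cL (μ : Measure ℝ) (s : ℝ) (A G : Env → (ℕ → ℤ) → ℝ) (e : ℕ) (J : Finset ℕ) (ke : T → ℤ) (χ : T → Pt → ℝ) (β : T) :
    Pt → Env → ℝ := cut (χ β) (cb μ s A G e (ke β) J)

/-- Its far part. -/
def FfL (μ : Measure ℝ) (s : ℝ) (N : ℕ) (Q : Finset (Finset ℕ)) (A G : Env → (ℕ → ℤ) → ℝ) (e : ℕ) (J : Finset ℕ) (ke : T → ℤ)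
    (χ : T → Pt → ℝ) (β : T) (η : Env) : Px Q → ℝ := Cf (sS J N) (cut' (χ β) (cb μ s A G e (ke β) J)) (nq N) η

/-- **The near remainder = the pinned remainder + the far part.** -/
theorem Nx_L (β : T) (η : Env) :
    Nx N Q G J (cL μ s A G e J ke χ) β η = NbL μ s N Q A G e J (ke β) η + FfL μ s N Q A G e J ke χ β η := by
  have h := Cf_split (χ β) (sS J N) (cb μ s A G e (ke β) J) (nq (Q := Q) N) η
  unfold Nx NbL FfL cL
  rw [h]
  abel

/-- **The remainder of `e2_mac` in the form of `HL.one`, `HL.two`, `HL.mac`.** -/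
theorem Hx_L (J3 : Finset ℕ) (β : T) (η : Env) :
    Hx μ s N Q A G J (cL μ s A G e J ke χ) J3 β η =
      (NbL μ s N Q A G e J (ke β) η + FfL μ s N Q A G e J ke χ β η) -
        Cq (lA μ s N Q A η) J3 (pJ 0) (NbL μ s N Q A G e J (ke β) η + FfL μ s N Q A G e J ke χ β η) := by
  unfold Hx
  rw [Nx_L]

theorem df_cL (hA : WF al be D A) (hG : WF al be τ G) (x0 : ∀ β p, 0 ≤ χ β p) (x1 : ∀ β p, χ β p ≤ 1) (hJ : ∀ r ∈ J, r ≤ al)
    (N : ℕ) (β : T) : DF true (sS J N) (cL μ s A G e J ke χ β) (τ / J.card) := (df_cb hA hG (ke β) hJ N).cut (x0 β) (x1 β)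

theorem rf_cL (hA : WF al be D A) (hG : WF al be τ G) (x0 : ∀ β p, 0 ≤ χ β p) (x1 : ∀ β p, χ β p ≤ 1) (hab : al ≤ be)
    (hbe : be ≤ e) (hJ : ∀ r ∈ J, r ≤ al) (β : T) : RF 0 e J (τ / J.card) (cL μ s A G e J ke χ β) :=
  (rf_cb (μ := μ) (s := s) (c := 0) hA hG hab hbe (ke β) fun r hr => ⟨Nat.zero_le r, hJ r hr⟩).cut (x0 β) (x1 β)

theorem card_cL (τ0 : 0 ≤ τ) (J : Finset ℕ) : (J.card : ℝ) * (τ / J.card) ≤ τ := by
  rcases J.eq_empty_or_nonempty with h | h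
  · rw [h]
    simpa using τ0
  · have h0 : (J.card : ℝ) ≠ 0 := Nat.cast_ne_zero.2 h.card_pos.ne'
    rw [mul_div_cancel₀ _ h0]

/-- **The near field does not see the slabs in front of its own.** -/
theorem cL_blind (hA : WF al be D A) (hG : WF al be τ G) (hJ : ∀ r ∈ J, r ≤ al) (h21 : ∀ r ∈ J, ∀ r' ∈ J2, r' ≤ r) (β : T) :
    ∀ q1 ∈ sS J N, ∀ q2 ∈ sS J2 N, ∀ (η : Env) (x : ℝ),
      cL μ s A G e J ke χ β q1 (Function.update η q2 x) = cL μ s A G e J ke χ β q1 η := by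
  intro q1 h1 q2 h2 η x
  have h3 : q2.1 ≤ (al : ℤ) ∧ q2.1 ≤ q1.1 := by
    obtain ⟨r, hr, z, _, rfl⟩ := mem_sS.1 h1
    obtain ⟨r', hr', z', _, rfl⟩ := mem_sS.1 h2
    have h4 := h21 r hr r' hr'
    have h5 := hJ r hr
    show (r' : ℤ) ≤ al ∧ (r' : ℤ) ≤ r
    exact ⟨by exact_mod_cast h4.trans h5, by exact_mod_cast h4⟩
  unfold cL cut
  rw [cb_blind hA hG (ke β) hJ h1 (Or.inl h3) η x]

theorem meas_FfL (hA : WF al be D A) (hG : WF al be τ G) (β : T) : Measurable fun η => FfL μ s N Q A G e J ke χ β η := by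
  refine meas_Cf (fun p _ => ?_) (nq N)
  unfold cut'
  exact ((meas_pm hA.meas hG.meas p.2 (ke β)).const_mul _).const_mul _

/-! ### The tubes -/

variable {ι : Type*} [Fintype ι] {sl R : ℝ} {m0 : ℤ} {n : ℕ} {bxs : T → ι → Fin (n + 1)}

/-- The quadratic variation of the near field, cut to the tubes of the boxes `bxs β`. -/
theorem qv_cL (hG : WF al be τ G) (hR : 1 ≤ R) (hJ0 : J.Nonempty) (β : T) (η : Env) :
    QV (sS J N) (cL μ s A G e J ke (fun β => chT sl R m0 (bxs β)) β) η ≤ 7 * Fintype.card ι * R * τ ^ 2 / J.card :=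
  QV_sS hR hJ0 η (fun p _ => abs_cb_le hG (ke β) η p) (bxs β)

open Classical in
/-- **The far part is at most the event that the path leaves the tubes.** -/
theorem abs_FfL (hG : WF al be τ G) (hJ0 : J.Nonempty) (β : T) (η : Env) (S : Px Q) :
    |FfL μ s N Q A G e J ke (fun β => chT sl R m0 (bxs β)) β η S| ≤
      τ * (if OutB pz sl R m0 (JZ J) (bxs β) S then 1 else 0) :=
  abs_farS hJ0 (wf0 hG) η (fun p _ => abs_cb_le hG (ke β) η p) (bxs β) S

end Key

end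

end Pool.Agent.W_7d29a1_C0.FL65
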