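import Pool.Agent.W_7d29a1_C0.InT57
import Pool.Agent.W_7d29a1_C0.MicE14

/-!
CURV0 (MP_7d29a1_pr), section E2: MACRO FIELDS. `rf J c` = the functional of the trajectory of a row field `c` on the rows `J` (its path
function is `Cf (sS J N) c nq`, `at2_rf`); if the field sees only the rows of a window then `rf J c` is a window functional (`RF.wf`).
So the remainder `N = g - rf J c` of a (cut, pinned) near field is a window functional of `(0, e]`, its macro average
`Cq w J' (pJ 0) N` is realised by a forward field on the rows `J'` behind `e` (`Cf_mac`), and so on for `g (N - Cq w J' (pJ 0) N)`.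
`QV_sS`, `abs_farS`: quadratic variation and far part of the field cut to the tubes of `Tube73`. (helper63)
-/

set_option autoImplicit false
set_option linter.unusedSectionVars false
set_option linter.unusedVariables false

namespace Pool.Agent.W_7d29a1_C0.FM63

open Finset MeasureTheory Pool.Agent.W_7d29a1_F Pool.Agent.W_7d29a1_X Pool.Agent.W_7d29a1_H
open Pool.Agent.W_7d29a1_C0.Mod92 Pool.Agent.W_7d29a1_C0.Blk18 Pool.Agent.W_7d29a1_C0.FP63 Pool.Agent.W_7d29a1_C0.InT57
open Pool.Agent.W_7d29a1_C0.MicE14 (Cq)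
open Pool.W7d29a1.C0 Pool.W7d29a1.C0.VT31
open Pool.W7d29a1.C0.H19 (BF Cf)
open Pool.W7d29a1.C0.H41 (Wt cut cut' QV Cf_split)
open Pool.W7d29a1.C0.R63 (DF)
open Pool.W7d29a1.C0.T73 (chT OutB)

noncomputable section

variable {μ : Measure ℝ} {s : ℝ} {N c m al be e e' : ℕ} {Q : Finset (Finset ℕ)} {A G F : Env → (ℕ → ℤ) → ℝ} {J : Finset ℕ}
  {D D' M M' : ℝ}

/-! ### The functional of a row field -/

/-- The functional of a row field. -/
def rf (J : Finset ℕ) (c : Pt → Env → ℝ) (η : Env) (f : ℕ → ℤ) : ℝ := ∑ r ∈ J, c ((r : ℤ), f r) η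

/-- Its path function. -/
theorem at2_rf (hQ : Full N Q) (hJ : ∀ r ∈ J, 1 ≤ r ∧ r ≤ N) (c : Pt → Env → ℝ) (η : Env) :
    at2 (Q := Q) (rf J c) η = Cf (sS J N) c (nq N) η := by
  funext S
  exact (Cf_row hQ hJ c η S).symm

/-- A row field on the rows `J` which sees only the rows of `(al, be]`. -/
structure RF (al be : ℕ) (J : Finset ℕ) (M : ℝ) (c : Pt → Env → ℝ) : Prop where
  meas : ∀ p, Measurable (c p)
  blind : ∀ r ∈ J, ∀ (z : ℤ) (η : Env) (q : Pt) (t : ℝ), (q.1 ≤ (al : ℤ) ∨ (be : ℤ) < q.1) →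
    c ((r : ℤ), z) (Function.update η q t) = c ((r : ℤ), z) η
  bd : ∀ r ∈ J, ∀ (z : ℤ) (η : Env), |c ((r : ℤ), z) η| ≤ M
  row : ∀ r ∈ J, al ≤ r ∧ r ≤ be

theorem RF.wf {cc : Pt → Env → ℝ} (h : RF al be J M cc) : WF al be (J.card * M) (rf J cc) where
  meas := fun f => Finset.measurable_sum _ fun r _ => h.meas _
  rd := fun η f g hfg => by
    unfold rf
    refine sum_congr rfl fun r hr => ?_
    rw [hfg r (h.row r hr).1 (h.row r hr).2]
  blind := fun η p t hp => by
    funext f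
    unfold rf
    exact sum_congr rfl fun r hr => h.blind r hr _ η p t hp
  bd := fun η f => by
    unfold rf
    refine (abs_sum_le_sum_abs _ _).trans ((sum_le_sum fun r hr => h.bd r hr _ η).trans_eq ?_)
    rw [sum_const, nsmul_eq_mul]

theorem RF.mono {cc : Pt → Env → ℝ} {al' be' : ℕ} (h : RF al be J M cc) (ha : al' ≤ al) (hb : be ≤ be') (hM : M ≤ M') :
    RF al' be' J M' cc where
  meas := h.meas
  blind := fun r hr z η q t hq => h.blind r hr z η q t (hq.imp (fun h1 => by omega) fun h1 => by omega)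
  bd := fun r hr z η => (h.bd r hr z η).trans hM
  row := fun r hr => ⟨ha.trans (h.row r hr).1, (h.row r hr).2.trans hb⟩

/-- Cutting a row field. -/
theorem RF.cut {cc : Pt → Env → ℝ} (h : RF al be J M cc) {χ : Pt → ℝ} (h0 : ∀ p, 0 ≤ χ p) (h1 : ∀ p, χ p ≤ 1) :
    RF al be J M (H41.cut χ cc) where
  meas := fun p => (h.meas p).const_mul _
  blind := fun r hr z η q t hq => by
    unfold H41.cut
    rw [h.blind r hr z η q t hq]
  bd := fun r hr z η => by
    unfold H41.cut
    rw [abs_mul, abs_of_nonneg (h0 _)]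
    have h2 := h.bd r hr z η
    calc χ ((r : ℤ), z) * |cc ((r : ℤ), z) η| ≤ 1 * |cc ((r : ℤ), z) η| :=
          mul_le_mul_of_nonneg_right (h1 _) (abs_nonneg _)
      _ ≤ M := by rw [one_mul]; exact h2
  row := h.row

/-- The bound on the sites of the slab. -/
theorem RF.bdS {cc : Pt → Env → ℝ} (h : RF al be J M cc) {p : Pt} (hp : p ∈ sS J N) (η : Env) : |cc p η| ≤ M := by
  obtain ⟨r, hr, z, _, rfl⟩ := mem_sS.1 hp
  exact h.bd r hr _ η

/-- The field does not see the sites outside of its window. -/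
theorem RF.blS {cc : Pt → Env → ℝ} (h : RF al be J M cc) {p : Pt} (hp : p ∈ sS J N) {q : Pt}
    (hq : q.1 ≤ (al : ℤ) ∨ (be : ℤ) < q.1) (η : Env) (t : ℝ) : cc p (Function.update η q t) = cc p η := by
  obtain ⟨r, hr, z, _, rfl⟩ := mem_sS.1 hp
  exact h.blind r hr _ η q t hq

/-- **The forward field, pinned on the left.** -/
theorem rf_cf (hA : WF al be D' A) (hG : WF al be D G) (hab : al ≤ be) (hc : c ≤ al) (x : ℤ) (hJ : ∀ r ∈ J, be < r ∧ r ≤ e) :
    RF c e J (D / J.card) (cf μ s A G c x J) := by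
  have hD : 0 ≤ D := (abs_nonneg _).trans (hG.bd (fun _ => 0) fun _ => 0)
  refine ⟨fun p => (meas_pm hA.meas hG.meas x p.2).const_mul _, ?_, fun r hr z η => abs_fld hD J (abs_pm_le hD (hG.bd η) _ _),
    fun r hr => by have := hJ r hr; omega⟩
  intro r hr z η q t hq
  obtain ⟨h1, h2⟩ := hJ r hr
  unfold cf
  have e0 : (((r : ℤ), z) : Pt).1.toNat = r := Int.toNat_natCast r
  have h3 : q.1 ≤ (al : ℤ) ∨ (be : ℤ) < q.1 := hq.imp (fun h => by omega) fun h => by omega
  rw [e0, pm_blind (hq.imp id fun h => by omega) (hA.blind η q t h3) (hG.blind η q t h3)]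

/-- **The backward field, pinned on the right at `(e, x')`.** -/
theorem rf_cb (hA : WF al be D' A) (hG : WF al be D G) (hab : al ≤ be) (he : be ≤ e) (x' : ℤ) (hJ : ∀ r ∈ J, c ≤ r ∧ r ≤ al) :
    RF c e J (D / J.card) (cb μ s A G e x' J) := by
  have hD : 0 ≤ D := (abs_nonneg _).trans (hG.bd (fun _ => 0) fun _ => 0)
  refine ⟨fun p => (meas_pm hA.meas hG.meas p.2 x').const_mul _, ?_, fun r hr z η => abs_fld hD J (abs_pm_le hD (hG.bd η) _ _),
    fun r hr => by have := hJ r hr; omega⟩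
  intro r hr z η q t hq
  obtain ⟨h1, h2⟩ := hJ r hr
  unfold cb
  have e0 : (((r : ℤ), z) : Pt).1.toNat = r := Int.toNat_natCast r
  have h3 : q.1 ≤ (al : ℤ) ∨ (be : ℤ) < q.1 := hq.imp (fun h => by omega) fun h => by omega
  rw [e0, pm_blind (hq.imp (fun h => by omega) fun h => by omega) (hA.blind η q t h3) (hG.blind η q t h3)]

/-- The difference of two window functionals. -/
theorem WF_sub (h : WF al be D G) (h' : WF al be D' F) : WF al be (D + D') (fun η f => G η f - F η f) where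
  meas := fun f => (h.meas f).sub (h'.meas f)
  rd := fun η f g hfg => by
    beta_reduce
    rw [h.rd η f g hfg, h'.rd η f g hfg]
  blind := fun η p t hp => by rw [h.blind η p t hp, h'.blind η p t hp]
  bd := fun η f => (abs_sub _ _).trans (add_le_add (h.bd η f) (h'.bd η f))

theorem at2_sub (η : Env) : at2 (Q := Q) (fun η f => G η f - F η f) η = at2 G η - at2 F η := rfl

theorem at2_mul (η : Env) : at2 (Q := Q) (fun η f => G η f * F η f) η = at2 G η * at2 F η := rfl

/-! ### The macro average -/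

/-- **The macro average of a functional of `(0, e]` is realised by a forward field behind `e`.** -/
theorem Cf_mac (hQ : Full N Q) (hA : WF al be D' A) (hF : WF 0 e D F) (hae : be ≤ e) (hJ : ∀ r ∈ J, e < r ∧ r ≤ N) (η : Env) :
    Cf (sS J N) (cf μ s A F 0 0 J) (nq N) η = Cq (lA μ s N Q A η) J (pJ 0) (at2 F η) := by
  funext S
  have h := Cf_cf (μ := μ) (s := s) (c := 0) (J := J) hQ (hA.mono (Nat.zero_le al) hae le_rfl).rd hF.rd le_rfl (Nat.zero_le e) hJ η S
  rw [ps_zero] at h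
  exact h

/-- The macro field. -/
theorem rf_mac (hA : WF al be D' A) (hF : WF 0 e D F) (hae : be ≤ e) (hJ : ∀ r ∈ J, e < r ∧ r ≤ e') :
    RF 0 e' J (D / J.card) (cf μ s A F 0 0 J) :=
  rf_cf (hA.mono (Nat.zero_le al) hae le_rfl) hF (Nat.zero_le e) le_rfl 0 hJ

theorem df_mac (hA : WF al be D' A) (hF : WF 0 e D F) (hae : be ≤ e) (hJ : ∀ r ∈ J, e < r) (N : ℕ) :
    DF false (sS J N) (cf μ s A F 0 0 J) (D / J.card) :=
  df_cf (hA.mono (Nat.zero_le al) hae le_rfl) hF 0 hJ N

/-! ### Quadratic variation and far part -/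

variable {ι : Type*} [Fintype ι] {sl R : ℝ} {m0 : ℤ} {n : ℕ}

/-- The quadratic variation of the field cut to the tubes. -/
theorem QV_sS (hR : 1 ≤ R) (hJ : J.Nonempty) {cc : Pt → Env → ℝ} (η : Env) (hc : ∀ p ∈ sS J N, |cc p η| ≤ M / J.card)
    (β : ι → Fin (n + 1)) : QV (sS J N) (cut (chT sl R m0 β) cc) η ≤ 7 * Fintype.card ι * R * M ^ 2 / J.card := by
  have h1 := T73.QV_chT (sl := sl) (m0 := m0) (S := sS J N) (J := JZ J) (fun p hp => fst_mem_JZ hp) hR (JZ_ne hJ) (M := M) η
    (fun p hp => by rw [card_JZ]; exact hc p hp) β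
  rw [card_JZ] at h1
  exact h1

open Classical in
/-- The far part of the field cut to the tubes. -/
theorem abs_farS (hJ : J.Nonempty) (hM : 0 ≤ M) {cc : Pt → Env → ℝ} (η : Env) (hc : ∀ p ∈ sS J N, |cc p η| ≤ M / J.card)
    (β : ι → Fin (n + 1)) (S : Px Q) :
    |Cf (sS J N) (cut' (chT sl R m0 β) cc) (nq N) η S| ≤ M * (if OutB pz sl R m0 (JZ J) β S then 1 else 0) :=
  T73.abs_far_le vis_nq (fun p hp => fst_mem_JZ hp) (JZ_ne hJ) hM η (fun p hp => by rw [card_JZ]; exact hc p hp) β S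

end

end Pool.Agent.W_7d29a1_C0.FM63
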