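import Pool.Agent.W_7d29a1_C0.Kick14
import Pool.Agent.W_7d29a1_LB.NSDef

/-!
CURV0 (MP_7d29a1_pr), E7, the exact part: THE FLIP OF ONE KICK IS A SHEAR OF THE ENVIRONMENT. `shj t v η`: the rows behind the time
`t` are shifted by `v`. The weight of a path `S` of the environment `η` is multiplied by `Rk` = (kernel of the window with the jump `v`)
/ (kernel of the window), both with the ends of `S`. `sum_flip`: for the functions of the path outside the window, the new weights are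
the weights of the environment `shj t v η`, the positions behind the window being moved by `v`, except for straight runs in the window.
(helper61)
-/

set_option autoImplicit false

namespace Pool.Agent.W_7d29a1_C0.Flip61

open Pool.Agent.W_7d29a1_F hiding W_pos W_nonneg W_add
open Finset MeasureTheory Pool.Agent.W_7d29a1_X Pool.Agent.W_7d29a1_HZ
open Pool.Agent.W_7d29a1_Z74
open Pool.Agent.W_7d29a1_HZ.Z74

noncomputable section

variable {μ : Measure ℝ} {s : ℝ}

/-! ### A path as a beginning and an end -/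

/-- The number of steps up of the set `C` of times before the time `t`. -/
def cn (C : Finset ℕ) (t : ℕ) : ℤ := ((C ∩ range t).card : ℤ)

/-- The weight of the steps in `[t, N)`, started at the position `z` at the time `t`; `C` is the set of the times of the steps up. -/
def tl (μ : Measure ℝ) (s : ℝ) (η : Env) (t N : ℕ) (z : ℤ) (C : Finset ℕ) : ℝ :=
  Real.exp (s * ((C.card : ℤ) : ℝ) - ((N - t : ℕ) : ℝ) * lam μ s) * ∏ i ∈ Ico t N, Real.exp (η ((i : ℤ) + 1, z + cn C (i + 1)))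

theorem tl_nonneg (η : Env) (t N : ℕ) (z : ℤ) (C : Finset ℕ) : 0 ≤ tl μ s η t N z C :=
  mul_nonneg (Real.exp_pos _).le (prod_nonneg fun _ _ => (Real.exp_pos _).le)

theorem pos_split {S : Finset ℕ} {t u : ℕ} (h : t ≤ u) : pos S u = pos S t + cn (S \ range t) u := by
  unfold pos cn
  have e : S ∩ range u = (S ∩ range t) ∪ ((S \ range t) ∩ range u) := by
    ext i
    simp only [mem_inter, mem_union, mem_sdiff, mem_range]
    constructor
    · rintro ⟨h1, h2⟩
      by_cases h3 : i < t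
      · exact Or.inl ⟨h1, h3⟩
      · exact Or.inr ⟨⟨h1, h3⟩, h2⟩
    · rintro (⟨h1, h2⟩ | ⟨⟨h1, _⟩, h2⟩)
      · exact ⟨h1, by omega⟩
      · exact ⟨h1, h2⟩
  have d : Disjoint (S ∩ range t) ((S \ range t) ∩ range u) := by
    rw [disjoint_left]
    intro i h1 h2
    simp only [mem_inter, mem_sdiff, mem_range] at h1 h2
    exact h2.1.2 h1.2
  rw [e, card_union_of_disjoint d]
  push_cast
  rfl

theorem pth_split (η : Env) {t N : ℕ} (h : t ≤ N) {S : Finset ℕ} (hS : S ⊆ range N) :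
    pth μ s η N S = pth μ s η t (S ∩ range t) * tl μ s η t N (pos S t) (S \ range t) := by
  unfold pth tl
  have h1 : ((pos S N : ℤ) : ℝ) = (pos (S ∩ range t) t : ℝ) + (((S \ range t).card : ℤ) : ℝ) := by
    rw [pos_inter _ le_rfl, pos_split h]
    unfold cn
    rw [inter_eq_left.2 (sdiff_subset.trans hS)]
    push_cast
    ring
  have h2 : ∏ i ∈ range N, Real.exp (η ((i : ℤ) + 1, pos S (i + 1))) =
      (∏ i ∈ range t, Real.exp (η ((i : ℤ) + 1, pos (S ∩ range t) (i + 1)))) *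
        ∏ i ∈ Ico t N, Real.exp (η ((i : ℤ) + 1, pos S t + cn (S \ range t) (i + 1))) := by
    rw [range_eq_Ico, range_eq_Ico, ← prod_Ico_consecutive _ (Nat.zero_le t) h]
    congr 1
    · refine prod_congr rfl fun i hi => ?_
      rw [mem_Ico] at hi
      rw [← range_eq_Ico, pos_inter _ (by omega)]
    · refine prod_congr rfl fun i hi => ?_
      rw [mem_Ico] at hi
      rw [← range_eq_Ico, ← pos_split (by omega)]
  rw [h2, h1]
  have h3 : Real.exp (s * ((pos (S ∩ range t) t : ℝ) + (((S \ range t).card : ℤ) : ℝ)) - (N : ℝ) * lam μ s) =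
      Real.exp (s * (pos (S ∩ range t) t : ℝ) - t * lam μ s) *
        Real.exp (s * (((S \ range t).card : ℤ) : ℝ) - ((N - t : ℕ) : ℝ) * lam μ s) := by
    rw [← Real.exp_add]
    congr 1
    rw [Nat.cast_sub h]
    ring
  rw [h3]
  ring

/-- The sum over the paths = the sum over the beginnings and the ends. -/
theorem sum_split {t N : ℕ} (h : t ≤ N) (Φ : Finset ℕ → Finset ℕ → ℝ) :
    ∑ S ∈ (range N).powerset, Φ (S ∩ range t) (S \ range t) =
      ∑ C ∈ (Ico t N).powerset, ∑ B ∈ (range t).powerset, Φ B C := by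
  rw [← sum_product' (f := fun C B => Φ B C)]
  refine sum_bij' (fun S _ => (S \ range t, S ∩ range t)) (fun q _ => q.2 ∪ q.1) ?_ ?_ ?_ ?_ ?_
  · intro S hS
    rw [mem_powerset] at hS
    rw [mem_product, mem_powerset, mem_powerset]
    refine ⟨fun i hi => ?_, inter_subset_right⟩
    rw [mem_sdiff, mem_range] at hi
    rw [mem_Ico]
    have := hS hi.1
    rw [mem_range] at this
    omega
  · rintro ⟨C, B⟩ hq
    rw [mem_product, mem_powerset, mem_powerset] at hq
    rw [mem_powerset]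
    refine union_subset (hq.2.trans (range_subset_range.2 h)) fun i hi => ?_
    have := hq.1 hi
    rw [mem_Ico] at this
    rw [mem_range]
    exact this.2
  · intro S _
    show S ∩ range t ∪ S \ range t = S
    rw [union_comm]
    exact sdiff_union_inter S (range t)
  · rintro ⟨C, B⟩ hq
    rw [mem_product, mem_powerset, mem_powerset] at hq
    have hC : ∀ i ∈ C, t ≤ i := fun i hi => (mem_Ico.1 (hq.1 hi)).1
    have hB : ∀ i ∈ B, i < t := fun i hi => mem_range.1 (hq.2 hi)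
    rw [Prod.mk.injEq]
    constructor
    · ext i
      simp only [mem_sdiff, mem_union, mem_range]
      constructor
      · rintro ⟨h1 | h1, h2⟩
        · exact absurd (hB i h1) h2
        · exact h1
      · intro h1
        exact ⟨Or.inr h1, by have := hC i h1; omega⟩
    · ext i
      simp only [mem_inter, mem_union, mem_range]
      constructor
      · rintro ⟨h1 | h1, h2⟩
        · exact h1
        · have := hC i h1
          omega
      · intro h1
        exact ⟨Or.inl h1, hB i h1⟩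
  · intro S _
    rfl

/-- The sum over the paths: the beginning, the window, the end. -/
theorem sum_three (η : Env) (i₀ l k : ℕ) (H : Finset ℕ → ℤ → Finset ℕ → ℝ) :
    ∑ S ∈ (range (i₀ + l + k)).powerset, pth μ s η (i₀ + l + k) S * H (S ∩ range i₀) (pos S (i₀ + l)) (S \ range (i₀ + l)) =
      ∑ C ∈ (Ico (i₀ + l) (i₀ + l + k)).powerset, ∑ z ∈ Icc (0 : ℤ) ((i₀ + l : ℕ) : ℤ), ∑ x ∈ Icc (0 : ℤ) i₀,
        Mt μ s η i₀ (fun A => H A z C) x * W μ s η ((i₀ : ℤ), x) l (z - x) * tl μ s η (i₀ + l) (i₀ + l + k) z C := by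
  have h1 := sum_split (t := i₀ + l) (N := i₀ + l + k) (by omega)
    (fun B C => pth μ s η (i₀ + l) B * tl μ s η (i₀ + l) (i₀ + l + k) (pos B (i₀ + l)) C * H (B ∩ range i₀) (pos B (i₀ + l)) C)
  have h2 : ∑ S ∈ (range (i₀ + l + k)).powerset, pth μ s η (i₀ + l + k) S * H (S ∩ range i₀) (pos S (i₀ + l)) (S \ range (i₀ + l)) =
      ∑ S ∈ (range (i₀ + l + k)).powerset, (fun B C => pth μ s η (i₀ + l) B *
        tl μ s η (i₀ + l) (i₀ + l + k) (pos B (i₀ + l)) C * H (B ∩ range i₀) (pos B (i₀ + l)) C) (S ∩ range (i₀ + l))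
        (S \ range (i₀ + l)) := by
    refine sum_congr rfl fun S hS => ?_
    rw [mem_powerset] at hS
    beta_reduce
    rw [pth_split η (show i₀ + l ≤ i₀ + l + k by omega) hS, pos_inter _ le_rfl, inter_assoc,
      inter_eq_right.2 (range_subset_range.2 (show i₀ ≤ i₀ + l by omega))]
  rw [h2, h1]
  refine sum_congr rfl fun C _ => ?_
  have h3 : ∑ B ∈ (range (i₀ + l)).powerset, pth μ s η (i₀ + l) B * tl μ s η (i₀ + l) (i₀ + l + k) (pos B (i₀ + l)) C *
      H (B ∩ range i₀) (pos B (i₀ + l)) C = ∑ z ∈ Icc (0 : ℤ) ((i₀ + l : ℕ) : ℤ),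
        Mt μ s η (i₀ + l) (fun S => H (S ∩ range i₀) z C * tl μ s η (i₀ + l) (i₀ + l + k) z C) z := by
    unfold Mt
    rw [sum_comm]
    refine sum_congr rfl fun B _ => ?_
    rw [sum_ite_eq, if_pos]
    · ring
    · rw [mem_Icc]
      exact ⟨pos_nonneg _ _, pos_le _ _⟩
  rw [h3]
  refine sum_congr rfl fun z _ => ?_
  rw [Mt_add η i₀ l (fun A => H A z C * tl μ s η (i₀ + l) (i₀ + l + k) z C) z]
  refine sum_congr rfl fun x _ => ?_
  have h4 : Mt μ s η i₀ (fun A => H A z C * tl μ s η (i₀ + l) (i₀ + l + k) z C) x =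
      Mt μ s η i₀ (fun A => H A z C) x * tl μ s η (i₀ + l) (i₀ + l + k) z C := by
    unfold Mt
    rw [sum_mul]
    refine sum_congr rfl fun A _ => ?_
    split_ifs
    · ring
    · ring
  rw [h4]
  ring

/-! ### The kick -/

/-- The ratio of the kernels of the window with and without the jump `v` at the row `i₀ + m`. -/
def Rk (μ : Measure ℝ) (s : ℝ) (η : Env) (i₀ m n : ℕ) (v x z : ℤ) : ℝ :=
  ZJ μ s η ((i₀ : ℤ), x) m n v (z - x) / W μ s η ((i₀ : ℤ), x) (m + n) (z - x)

theorem Rk_nonneg (η : Env) (i₀ m n : ℕ) (v x z : ℤ) : 0 ≤ Rk μ s η i₀ m n v x z :=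
  div_nonneg (ZJ_nonneg _ _ _ _ _ _) (W_nonneg _ _ _ _)

theorem Rk_mul (η : Env) (i₀ m n : ℕ) (v x z : ℤ) : Rk μ s η i₀ m n v x z * W μ s η ((i₀ : ℤ), x) (m + n) (z - x) =
    if 0 ≤ z - x ∧ z - x ≤ ((m + n : ℕ) : ℤ) then ZJ μ s η ((i₀ : ℤ), x) m n v (z - x) else 0 := by
  unfold Rk
  split_ifs with h
  · rw [div_mul_cancel₀ _ (W_pos _ _ h.1 h.2).ne']
  · rw [W_zero η _ h, mul_zero]

/-- The rows up to the kick are not moved. -/
theorem pth_shj (η : Env) {t i₀ : ℕ} (v : ℤ) (h : i₀ ≤ t) (A : Finset ℕ) : pth μ s (shj t v η) i₀ A = pth μ s η i₀ A := by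
  unfold pth
  congr 1
  refine prod_congr rfl fun i hi => ?_
  rw [mem_range] at hi
  unfold shj
  rw [if_neg (by push_cast; omega)]

/-- The rows behind the kick are shifted. -/
theorem tl_shj (η : Env) {t i₁ N : ℕ} (v z : ℤ) (h : t ≤ i₁) (C : Finset ℕ) :
    tl μ s (shj t v η) i₁ N z C = tl μ s η i₁ N (z + v) C := by
  unfold tl
  congr 1
  refine prod_congr rfl fun i hi => ?_
  rw [mem_Ico] at hi
  unfold shj
  rw [if_pos (by push_cast; omega)]
  congr 3
  ring

theorem Mt_shj (η : Env) {t i₀ : ℕ} (v : ℤ) (h : i₀ ≤ t) (F : Finset ℕ → ℝ) (x : ℤ) :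
    Mt μ s (shj t v η) i₀ F x = Mt μ s η i₀ F x := by
  unfold Mt
  refine sum_congr rfl fun A _ => ?_
  rw [pth_shj η v h]

theorem sum_shift {f : ℤ → ℝ} {K : ℤ} (v : ℤ) (h0 : ∀ z, ¬ (0 ≤ z ∧ z ≤ K) → f z = 0) (h1 : ∀ z, ¬ (0 ≤ z - v ∧ z - v ≤ K) → f z = 0) :
    ∑ z ∈ Icc (0 : ℤ) K, f z = ∑ z ∈ Icc (0 : ℤ) K, f (z + v) := by
  have e1 : ∑' z, f z = ∑ z ∈ Icc (0 : ℤ) K, f z := tsum_eq_sum fun z hz => h0 z fun h => hz (mem_Icc.2 h)
  have e2 : ∑' z, f (z + v) = ∑ z ∈ Icc (0 : ℤ) K, f (z + v) := tsum_eq_sum fun z hz => h1 _ fun h => hz (by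
    rw [mem_Icc]
    omega)
  rw [← e1, ← e2]
  exact ((Equiv.addRight v).tsum_eq f).symm

/-- **THE FLIP**, exact: the weights with the kick `v` at the row `i₀ + m`, for the functions of the path outside the window, are the
weights in the sheared environment, the positions behind the window being moved by `v`; the paths of the sheared environment with a
straight run in the window, whose image is out of the cone, are lost. -/
theorem sum_flip (η : Env) (i₀ m n k : ℕ) (v : ℤ) (F : Finset ℕ → ℤ → Finset ℕ → ℝ) :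
    ∑ S ∈ (range (i₀ + (m + n) + k)).powerset, pth μ s η (i₀ + (m + n) + k) S *
        (Rk μ s η i₀ m n v (pos S i₀) (pos S (i₀ + (m + n))) * F (S ∩ range i₀) (pos S (i₀ + (m + n))) (S \ range (i₀ + (m + n)))) =
      ∑ S ∈ (range (i₀ + (m + n) + k)).powerset, pth μ s (shj ((i₀ + m : ℕ) : ℤ) v η) (i₀ + (m + n) + k) S *
        ((if 0 ≤ pos S (i₀ + (m + n)) + v - pos S i₀ ∧ pos S (i₀ + (m + n)) + v - pos S i₀ ≤ ((m + n : ℕ) : ℤ) then 1 else 0) *
          F (S ∩ range i₀) (pos S (i₀ + (m + n)) + v) (S \ range (i₀ + (m + n)))) := by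
  have hL := sum_three (μ := μ) (s := s) η i₀ (m + n) k
    (fun A z C => Rk μ s η i₀ m n v (pos A i₀) z * F A z C)
  have hR := sum_three (μ := μ) (s := s) (shj ((i₀ + m : ℕ) : ℤ) v η) i₀ (m + n) k
    (fun A z C => (if 0 ≤ z + v - pos A i₀ ∧ z + v - pos A i₀ ≤ ((m + n : ℕ) : ℤ) then 1 else 0) * F A (z + v) C)
  simp only [pos_inter _ le_rfl] at hL hR
  rw [hL, hR]
  refine sum_congr rfl fun C _ => ?_
  -- the summand
  set f : ℤ → ℝ := fun z => ∑ x ∈ Icc (0 : ℤ) i₀, Mt μ s η i₀ (fun A => F A z C) x *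
    (if 0 ≤ z - x ∧ z - x ≤ ((m + n : ℕ) : ℤ) then ZJ μ s η ((i₀ : ℤ), x) m n v (z - x) else 0) *
      tl μ s η (i₀ + (m + n)) (i₀ + (m + n) + k) z C with hf
  have e1 : ∀ z : ℤ, ∑ x ∈ Icc (0 : ℤ) i₀, Mt μ s η i₀ (fun A => Rk μ s η i₀ m n v (pos A i₀) z * F A z C) x *
      W μ s η ((i₀ : ℤ), x) (m + n) (z - x) * tl μ s η (i₀ + (m + n)) (i₀ + (m + n) + k) z C = f z := by
    intro z
    rw [hf]
    refine sum_congr rfl fun x _ => ?_
    have e2 : Mt μ s η i₀ (fun A => Rk μ s η i₀ m n v (pos A i₀) z * F A z C) x =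
        Rk μ s η i₀ m n v x z * Mt μ s η i₀ (fun A => F A z C) x := by
      unfold Mt
      rw [mul_sum]
      refine sum_congr rfl fun A _ => ?_
      by_cases hx : pos A i₀ = x
      · rw [if_pos hx, if_pos hx]
        beta_reduce
        rw [hx]
        ring
      · rw [if_neg hx, if_neg hx, mul_zero]
    rw [e2, ← Rk_mul]
    ring
  have e3 : ∀ z : ℤ, ∑ x ∈ Icc (0 : ℤ) i₀, Mt μ s (shj ((i₀ + m : ℕ) : ℤ) v η) i₀ (fun A =>
      (if 0 ≤ z + v - pos A i₀ ∧ z + v - pos A i₀ ≤ ((m + n : ℕ) : ℤ) then 1 else 0) * F A (z + v) C) x *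
      W μ s (shj ((i₀ + m : ℕ) : ℤ) v η) ((i₀ : ℤ), x) (m + n) (z - x) *
        tl μ s (shj ((i₀ + m : ℕ) : ℤ) v η) (i₀ + (m + n)) (i₀ + (m + n) + k) z C = f (z + v) := by
    intro z
    rw [hf]
    refine sum_congr rfl fun x _ => ?_
    have e2 : Mt μ s (shj ((i₀ + m : ℕ) : ℤ) v η) i₀ (fun A =>
        (if 0 ≤ z + v - pos A i₀ ∧ z + v - pos A i₀ ≤ ((m + n : ℕ) : ℤ) then 1 else 0) * F A (z + v) C) x =
        (if 0 ≤ z + v - x ∧ z + v - x ≤ ((m + n : ℕ) : ℤ) then 1 else 0) * Mt μ s η i₀ (fun A => F A (z + v) C) x := by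
      rw [Mt_shj η v (Nat.le_add_right _ _)]
      unfold Mt
      rw [mul_sum]
      refine sum_congr rfl fun A _ => ?_
      by_cases hx : pos A i₀ = x
      · rw [if_pos hx, if_pos hx]
        beta_reduce
        rw [hx]
        ring
      · rw [if_neg hx, if_neg hx, mul_zero]
    have e4 : W μ s (shj ((i₀ + m : ℕ) : ℤ) v η) ((i₀ : ℤ), x) (m + n) (z - x) =
        ZJ μ s η ((i₀ : ℤ), x) m n v (z + v - x) := by
      rw [ZJ_shj]
      push_cast
      congr 1
      ring
    rw [e2, e4, tl_shj η v z (show i₀ + m ≤ i₀ + (m + n) by omega)]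
    split_ifs
    · ring
    · ring
  rw [sum_congr rfl fun z _ => e1 z, sum_congr rfl fun z _ => e3 z]
  refine sum_shift v (fun z hz => ?_) fun z hz => ?_
  · refine sum_eq_zero fun x hx => ?_
    rw [mem_Icc] at hx
    rw [if_neg, mul_zero, zero_mul]
    intro h
    refine hz ?_
    push_cast at h ⊢
    omega
  · refine sum_eq_zero fun x hx => ?_
    rw [mem_Icc] at hx
    have e5 : ZJ μ s η ((i₀ : ℤ), x) m n v (z - x) = 0 := by
      rw [ZJ_shj]
      refine W_zero _ _ fun h => hz ?_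
      push_cast at h ⊢
      omega
    rw [e5, ite_self, mul_zero, zero_mul]

end

end Pool.Agent.W_7d29a1_C0.Flip61
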