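import Pool.Agent.W_7d29a1_C0.Loc7W
import Pool.Agent.W_7d29a1_C0.Loc7R
import Pool.Agent.W_7d29a1_C0.Mic57

/-!
CURV0 (MP_7d29a1_pr), leaf T3: THE THIRD TERM OF THE TWO SIDED COMPARISON, part 2: IN THE FRAME OF MOD92 (helper7).

`HL7`: the level `u S - δ` has the conditional mass at least `1 / 2` at every row of the slab. `LB7 w w' u u'`: it is missed under the
weights `w` with the tilt `u` and under the weights `w'` with the tilt `u'`. `t3_mod`: the dichotomy in the frame. `chi7`: the smooth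
cut off: `chi7 ≠ 0` implies `NL7`, `chi7 ≠ 1` implies that `HL7` fails; `split7`: `1 ≤ χ_a + χ_-a + 1_LB`.
-/

set_option autoImplicit false

namespace Pool.W7d29a1.C0.H7

open Finset MeasureTheory Filter Topology Pool.Agent.W_7d29a1_F Pool.Agent.W_7d29a1_X Pool.Agent.W_7d29a1_C0.Mod92
  Pool.Agent.W_7d29a1_C0.H32 Pool.W7d29a1.C0.H27
open Pool.W7d29a1.C0 (gz gm gz_pos)
open Pool.W7d29a1.C0.VT31
open scoped ENNReal

noncomputable section

variable {μ : Measure ℝ} {s : ℝ} {N : ℕ} {P : Finset (Finset ℕ)}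

/-- The mass of the level `u S - δ` given the path behind the row `m`. -/
def lv7 (w u : Px P → ℝ) (δ : ℝ) (m : ℕ) (S : Px P) : ℝ := cE w (pJ 0 m) (fun S' => if u S - δ ≤ u S' then 1 else 0) S

theorem lv7_nonneg (w u : Px P → ℝ) (δ : ℝ) (m : ℕ) (S : Px P) : 0 ≤ lv7 w u δ m S := by
  have : Nonempty (Px P) := ⟨S⟩
  exact cE_nonneg w _ (fun _ => by split_ifs <;> norm_num) S

theorem NL7_iff {w u : Px P → ℝ} {δ : ℝ} {c K : ℕ} {S : Px P} :
    NL7 w u δ c K S ↔ ∀ m, c < m → m ≤ c + K → 1 / 4 ≤ lv7 w u δ m S := Iff.rfl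

/-- The level is seen with mass at least one half. -/
def HL7 (w u : Px P → ℝ) (δ : ℝ) (c K : ℕ) (S : Px P) : Prop := ∀ m, c < m → m ≤ c + K → 1 / 2 ≤ lv7 w u δ m S

theorem HL7.nl {w u : Px P → ℝ} {δ : ℝ} {c K : ℕ} {S : Px P} (h : HL7 w u δ c K S) : NL7 w u δ c K S :=
  fun m h1 h2 => (by norm_num : (1 / 4 : ℝ) ≤ 1 / 2).trans (h m h1 h2)

/-- The level is missed at both corners. -/
def LB7 (w w' u u' : Px P → ℝ) (δ : ℝ) (c K : ℕ) (S : Px P) : Prop := ¬ HL7 w u δ c K S ∧ ¬ HL7 w' u' δ c K S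

/-! ### The smooth cut off -/

/-- `0` below `1 / 4`, `1` above `1 / 2`, linear between. -/
def cut7 (x : ℝ) : ℝ := max 0 (min 1 (4 * x - 1))

theorem cut7_nonneg (x : ℝ) : 0 ≤ cut7 x := le_max_left _ _

theorem cut7_le (x : ℝ) : cut7 x ≤ 1 := max_le (by norm_num) (min_le_left _ _)

theorem cut7_zero {x : ℝ} (h : cut7 x ≠ 0) : 1 / 4 ≤ x := by
  by_contra hx
  refine h ?_
  unfold cut7
  exact max_eq_left ((min_le_right _ _).trans (by linarith))

theorem cut7_one {x : ℝ} (h : cut7 x ≠ 1) : x < 1 / 2 := by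
  by_contra hx
  refine h ?_
  unfold cut7
  rw [min_eq_left (by linarith)]
  norm_num

theorem cut7_lip (x y : ℝ) : |cut7 x - cut7 y| ≤ 4 * |x - y| := by
  unfold cut7
  have e : |(4 * x - 1) - (4 * y - 1)| = 4 * |x - y| := by
    rw [show (4 * x - 1) - (4 * y - 1) = 4 * (x - y) by ring, abs_mul]
    norm_num
  have h1 := abs_max_sub_max_le_max (0 : ℝ) (min 1 (4 * x - 1)) 0 (min 1 (4 * y - 1))
  have h2 := abs_min_sub_min_le_max (1 : ℝ) (4 * x - 1) 1 (4 * y - 1)
  rw [sub_self, abs_zero, max_eq_right (abs_nonneg (min 1 (4 * x - 1) - min 1 (4 * y - 1)))] at h1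
  rw [sub_self, abs_zero, max_eq_right (abs_nonneg (4 * x - 1 - (4 * y - 1)))] at h2
  rw [← e]
  exact h1.trans h2

/-- **The smooth cut off** of the level. -/
def chi7 (w u : Px P → ℝ) (δ : ℝ) (c K : ℕ) (S : Px P) : ℝ := ∏ m ∈ Ioc c (c + K), cut7 (lv7 w u δ m S)

theorem chi7_nonneg (w u : Px P → ℝ) (δ : ℝ) (c K : ℕ) (S : Px P) : 0 ≤ chi7 w u δ c K S :=
  prod_nonneg fun _ _ => cut7_nonneg _

theorem chi7_le (w u : Px P → ℝ) (δ : ℝ) (c K : ℕ) (S : Px P) : chi7 w u δ c K S ≤ 1 :=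
  prod_le_one (fun _ _ => cut7_nonneg _) fun _ _ => cut7_le _

theorem chi7_nl {w u : Px P → ℝ} {δ : ℝ} {c K : ℕ} {S : Px P} (h : chi7 w u δ c K S ≠ 0) : NL7 w u δ c K S :=
  fun m h1 h2 => cut7_zero (prod_ne_zero_iff.1 h m (mem_Ioc.2 ⟨h1, h2⟩))

theorem chi7_hl {w u : Px P → ℝ} {δ : ℝ} {c K : ℕ} {S : Px P} (h : chi7 w u δ c K S ≠ 1) : ¬ HL7 w u δ c K S := fun hH => by
  refine h (prod_eq_one fun m hm => ?_)
  by_contra hc
  rw [mem_Ioc] at hm
  exact absurd (hH m hm.1 hm.2) (not_le.2 (cut7_one hc))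

open Classical in
/-- **The three terms.** -/
theorem split7 (w w' u u' : Px P → ℝ) (δ : ℝ) (c K : ℕ) (S : Px P) :
    (1 - chi7 w u δ c K S) * (1 - chi7 w' u' δ c K S) ≤ if LB7 w w' u u' δ c K S then 1 else 0 := by
  have h1 := chi7_nonneg w u δ c K S
  have h2 := chi7_nonneg w' u' δ c K S
  have h3 := chi7_le w u δ c K S
  have h4 := chi7_le w' u' δ c K S
  by_cases h5 : chi7 w u δ c K S = 1
  · rw [h5, sub_self, zero_mul]
    split_ifs <;> norm_num
  by_cases h6 : chi7 w' u' δ c K S = 1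
  · rw [h6, sub_self, mul_zero]
    split_ifs <;> norm_num
  rw [if_pos ⟨chi7_hl h5, chi7_hl h6⟩]
  nlinarith

/-! ### The dichotomy in the frame -/

/-- Conditional means of functions of the past depend on the site only. -/
theorem site7 {c r : ℕ} (hr : c ≤ r) (hrN : r ≤ N) (hP : Fam N r P) (η : Env) (F : Finset ℕ → ℝ) {S S' : Px P}
    (h : ps S r = ps S' r) : cE (lw μ s η N P) (pJ 0 r) (fun T => F (T.1 ∩ range c)) S =
      cE (lw μ s η N P) (pJ 0 r) (fun T => F (T.1 ∩ range c)) S' := by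
  have e1 : (fun T : Px P => F (T.1 ∩ range c)) = fun T => (fun A : Finset ℕ => F (A ∩ range c)) (T.1 ∩ range r) := by
    funext T
    have e : T.1 ∩ range r ∩ range c = T.1 ∩ range c := by
      rw [inter_assoc, inter_eq_right.2 (range_subset_range.2 hr)]
    simp only [e]
  rw [e1, cE_Mt7 hrN hP η (fun A => F (A ∩ range c)) S, cE_Mt7 hrN hP η (fun A => F (A ∩ range c)) S']
  have h' : pos S.1 r = pos S'.1 r := h
  rw [h']

/-- The same under the weights tilted by a function of the past. -/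
theorem site7t {c r : ℕ} (hr : c ≤ r) (hrN : r ≤ N) (hP : Fam N r P) (η : Env) (A F : Finset ℕ → ℝ) {S S' : Px P}
    (h : ps S r = ps S' r) : cE (fun T => lw μ s η N P T + A (T.1 ∩ range c)) (pJ 0 r) (fun T => F (T.1 ∩ range c)) S =
      cE (fun T => lw μ s η N P T + A (T.1 ∩ range c)) (pJ 0 r) (fun T => F (T.1 ∩ range c)) S' := by
  have : Nonempty (Px P) := ⟨S⟩
  rw [Pool.W7d29a1.C0.E23.cE_tilt, Pool.W7d29a1.C0.E23.cE_tilt,
    site7 hr hrN hP η (fun T => Real.exp (A T) * F T) h, site7 hr hrN hP η (fun T => Real.exp (A T)) h]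

/-- A condition on the level which fails, as a mass above it. -/
theorem not_HL7 {w u : Px P → ℝ} {δ : ℝ} {c K : ℕ} {S : Px P} (h : ¬ HL7 w u δ c K S) :
    ∃ r ∈ Ioc c (c + K), 1 / 2 ≤ cE w (pJ 0 r) (fun S' => if u S - δ ≤ u S' then 0 else 1) S := by
  have : Nonempty (Px P) := ⟨S⟩
  unfold HL7 at h
  push Not at h
  obtain ⟨r, h1, h2, h3⟩ := h
  refine ⟨r, mem_Ioc.2 ⟨h1, h2⟩, ?_⟩
  have e1 : (fun S' : Px P => if u S - δ ≤ u S' then (0 : ℝ) else 1) =
      (fun _ => 1) - fun S' => if u S - δ ≤ u S' then (1 : ℝ) else 0 := by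
    funext S'
    rw [Pi.sub_apply]
    split_ifs <;> norm_num
  rw [e1, cE_sub, Pi.sub_apply, cE_one]
  unfold lv7 at h3
  linarith

/-- Alternatives above and below at both corners are at distance `δ / 2`. -/
theorem apart7 {a t δ x p q : ℝ} (ha : a = 1 ∨ a = -1) (ht : |t| ≤ 1) (hδ : 0 ≤ δ) :
    (if (t - a) * x - δ ≤ (t - a) * p then (0 : ℝ) else 1) * (if (t + a) * x - δ ≤ (t + a) * q then 0 else 1) ≤
      I3 (δ / 2) x p q := by
  by_cases h1 : (t - a) * x - δ ≤ (t - a) * p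
  · rw [if_pos h1, zero_mul]
    exact I3_nonneg _ _ _ _
  by_cases h2 : (t + a) * x - δ ≤ (t + a) * q
  · rw [if_pos h2, mul_zero]
    exact I3_nonneg _ _ _ _
  rw [if_neg h1, if_neg h2, mul_one]
  rw [not_le] at h1 h2
  obtain ⟨t1, t2⟩ := abs_le.1 ht
  have key : (δ / 2 ≤ p - x ∧ δ / 2 ≤ x - q) ∨ (δ / 2 ≤ x - p ∧ δ / 2 ≤ q - x) := by
    rcases ha with rfl | rfl
    · left
      constructor
      · by_contra hc
        rw [not_le] at hc
        by_cases h3 : p - x ≤ 0
        · nlinarith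
        · rw [not_le] at h3
          nlinarith
      · by_contra hc
        rw [not_le] at hc
        by_cases h3 : x - q ≤ 0
        · nlinarith
        · rw [not_le] at h3
          nlinarith
    · right
      constructor
      · by_contra hc
        rw [not_le] at hc
        by_cases h3 : x - p ≤ 0
        · nlinarith
        · rw [not_le] at h3
          nlinarith
      · by_contra hc
        rw [not_le] at hc
        by_cases h3 : q - x ≤ 0
        · nlinarith
        · rw [not_le] at h3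
          nlinarith
  refine le_of_eq (Eq.symm (if_pos ?_))
  rcases key with ⟨k1, k2⟩ | ⟨k1, k2⟩
  · refine ⟨?_, ?_, ?_⟩
    · rw [abs_sub_comm]
      exact k1.trans (le_abs_self _)
    · exact k2.trans (le_abs_self _)
    · refine le_trans ?_ (le_abs_self _)
      linarith
  · refine ⟨?_, ?_, ?_⟩
    · exact k1.trans (le_abs_self _)
    · rw [abs_sub_comm]
      exact k2.trans (le_abs_self _)
    · rw [abs_sub_comm]
      refine le_trans ?_ (le_abs_self _)
      linarith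

/-- The number of the sites. -/
theorem num_t3 {B m : ℝ} (hm : 8 * B + 4 * Real.log (N + 1) + 4 ≤ m) :
    32 * ((N + 1 : ℝ) * (N + 1)) ^ 2 * Real.exp (8 * B) ≤ Real.exp m := by
  have hN : (0 : ℝ) < N + 1 := by positivity
  refine le_trans ?_ (Real.exp_le_exp.2 hm)
  rw [Real.exp_add, Real.exp_add]
  have e1 : Real.exp (4 * Real.log (N + 1)) = ((N + 1 : ℝ) * (N + 1)) ^ 2 := by
    rw [show 4 * Real.log (N + 1 : ℝ) = ((4 : ℕ) : ℝ) * Real.log (N + 1) by norm_num, Real.exp_nat_mul, Real.exp_log hN]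
    ring
  have e2 : (32 : ℝ) ≤ Real.exp 4 := by
    have h1 : (2.7 : ℝ) ≤ Real.exp 1 := by
      have := Real.exp_one_gt_d9
      linarith
    have h2 : Real.exp 4 = Real.exp 1 ^ 4 := by
      rw [← Real.exp_nat_mul]
      norm_num
    rw [h2]
    calc (32 : ℝ) ≤ 2.7 ^ 4 := by norm_num
      _ ≤ Real.exp 1 ^ 4 := pow_le_pow_left₀ (by norm_num) h1 4
  rw [e1]
  have h3 : 0 ≤ Real.exp (8 * B) * ((N + 1 : ℝ) * (N + 1)) ^ 2 := by positivity
  nlinarith

open Classical in
/-- **T3 in the frame**: the paths at which the level is missed at both corners. -/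
theorem t3_mod (hP : ∀ r ≤ N, Fam N r P) {c K : ℕ} (hN : c + K ≤ N) {B : ℝ} {A : Env → Finset ℕ → ℝ} (hA : PA c (B / 2) A)
    {a t δ m : ℝ} (ha : a = 1 ∨ a = -1) (ht : |t| ≤ 1) (hδ : 0 ≤ δ) (hm : 8 * B + 4 * Real.log (N + 1) + 4 ≤ m) (η : Env)
    (S : Px P) :
    cE (fun S => lw μ s η N P S + (t - a) * tA c A η S) (pJ 0 (c + K))
        (fun x => if LB7 (lw μ s η N P) (fun S => lw μ s η N P S + (-a - a) * tA c A η S) (fun S => (t - a) * tA c A η S)
          (fun S => (t + a) * tA c A η S) δ c K x then 1 else 0) S ≤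
      Real.exp (-m) + if Real.exp (-(4 * m)) ≤ T3m (lw μ s η N P) (pJ 0 (c + K)) (tA c A η) (δ / 2) S then 1 else 0 := by
  have : Nonempty (Px P) := ⟨S⟩
  have hg : ∀ x : Px P, |tA c A η x| ≤ B / 2 := fun x => hA.bd η _
  have hab : |a| = 1 := by rcases ha with rfl | rfl <;> norm_num
  obtain ⟨t1, t2⟩ := abs_le.1 ht
  have b1 : ∀ τ : ℝ, |τ| ≤ 2 → ∀ x : Px P, |τ * tA c A η x| ≤ B := fun τ hτ x => by
    rw [abs_mul]
    calc |τ| * |tA c A η x| ≤ 2 * (B / 2) := mul_le_mul hτ (hg x) (abs_nonneg _) (by norm_num)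
      _ = B := by ring
  have b2 : |t - a| ≤ 2 := (abs_sub _ _).trans (by linarith)
  have b3 : |t + a| ≤ 2 := (abs_add_le _ _).trans (by linarith)
  have b4 : |-a - a| ≤ 2 := (abs_sub _ _).trans (by rw [abs_neg]; linarith)
  have key := t3_abs (X := Px P) (w := lw μ s η N P) (w1 := fun S => lw μ s η N P S + (t - a) * tA c A η S)
    (w2 := fun S => lw μ s η N P S + (-a - a) * tA c A η S) (B := B) (m := m)
    (fun x => by
      simp only [add_sub_cancel_left]
      exact b1 _ b2 x)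
    (fun x => by
      have e : lw μ s η N P x + (t - a) * tA c A η x - (lw μ s η N P x + (-a - a) * tA c A η x) = (t + a) * tA c A η x := by ring
      rw [e]
      exact b1 _ b3 x)
    (fun x => by
      simp only [add_sub_cancel_left]
      exact b1 _ b4 x)
    (q := pJ 0 (c + K)) (R := Ioc c (c + K)) (p := fun r => pJ 0 r)
    (fun r hr => crs_pJ le_rfl (mem_Ioc.1 hr).2) (σ := fun r x => ps x r) (Vs := Icc (0 : ℤ) N)
    (fun r hr x => mem_Icc.2 ⟨ps_nonneg x _, (ps_le x _).trans (by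
      have := (mem_Ioc.1 hr).2
      exact_mod_cast this.trans hN)⟩)
    (up := fun x y => if (t - a) * tA c A η x - δ ≤ (t - a) * tA c A η y then 0 else 1)
    (dn := fun x y => if (t + a) * tA c A η x - δ ≤ (t + a) * tA c A η y then 0 else 1)
    (fun x y => by split_ifs <;> norm_num) (fun x y => by split_ifs <;> norm_num)
    (fun r hr x y y' h => site7 (mem_Ioc.1 hr).1.le ((mem_Ioc.1 hr).2.trans hN) (hP _ ((mem_Ioc.1 hr).2.trans hN)) η
      (fun T => if (t - a) * tA c A η x - δ ≤ (t - a) * A η T then 0 else 1) h)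
    (fun r hr x y y' h => site7t (mem_Ioc.1 hr).1.le ((mem_Ioc.1 hr).2.trans hN) (hP _ ((mem_Ioc.1 hr).2.trans hN)) η
      (fun T => (-a - a) * A η T) (fun T => if (t + a) * tA c A η x - δ ≤ (t + a) * A η T then 0 else 1) h)
    (T := fun x y z => I3 (δ / 2) (tA c A η x) (tA c A η y) (tA c A η z))
    (fun x y z => apart7 ha ht hδ) (n := (N + 1 : ℝ) * (N + 1)) (by positivity)
    (by
      rw [Nat.card_Ioc, Int.card_Icc]
      have e1 : c + K - c = K := by omega
      have e2 : ((N : ℤ) + 1 - 0).toNat = N + 1 := by omega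
      rw [e1, e2]
      push_cast
      have h1 : (K : ℝ) ≤ N + 1 := by
        have : K ≤ N + 1 := by omega
        exact_mod_cast this
      exact mul_le_mul_of_nonneg_right h1 (by positivity))
    (num_t3 hm) S
  refine le_trans (cE_mono _ _ (fun x => ?_) S) key
  by_cases h : LB7 (lw μ s η N P) (fun S => lw μ s η N P S + (-a - a) * tA c A η S) (fun S => (t - a) * tA c A η S)
          (fun S => (t + a) * tA c A η S) δ c K x
  · have h1 := not_HL7 h.1
    have h2 := not_HL7 h.2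
    rw [if_pos h, if_pos ⟨h1, h2⟩]
  · rw [if_neg h]
    split_ifs <;> norm_num

end

end Pool.W7d29a1.C0.H7
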