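import Pool.Agent.W_7d29a1_C0.FlipR4D
import Pool.Agent.W_7d29a1_C0.Loc7X
import Pool.Agent.W_7d29a1_C0.MicE14

/-!
CURV0 (MP_7d29a1_pr), [C0], E0D / T4 (requests of helper45, helper7): THE FLIP OF THE PART SEEN FROM THE OTHER CORNER, with the level events.
`tsw_hl`: the level event `HL7` at the flipped corner (threshold `1/2`, level `δ/2`) goes to `NL7` at the actual one (threshold `1/4`, level
`δ`). `trep_nX`: the micro mean at the tilted weights. `trep_rh`: the tie of a covariant spectator with a free replica. `tsw_ow1`, `tsw_tau`: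
own events. `flip_PP`: the flip for two free replicas at the tilted weights. (helper4)
-/

set_option autoImplicit false
set_option linter.unusedSectionVars false
set_option linter.unusedVariables false

namespace Pool.Agent.W_7d29a1_C0.FlipR4.C4

open Pool.Agent.W_7d29a1_F hiding W_pos W_nonneg W_add
open Finset MeasureTheory Pool.Agent.W_7d29a1_X Pool.Agent.W_7d29a1_HZ
open Pool.Agent.W_7d29a1_Z74
open Pool.Agent.W_7d29a1_HZ.Z74
open Pool.Agent.W_7d29a1_C0.Mod92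
open Pool.Agent.W_7d29a1_C0.Blk18
open Pool.Agent.W_7d29a1_C0.Pin18
open Pool.Agent.W_7d29a1_C0.Flip61
open Pool.W7d29a1.C0 (gz gm gz_pos gz_ne gm_const gm_mono gm_nonneg gm_sub PP PP_eq)
open Pool.W7d29a1.C0.VT31 (Mp Crs cE cV cC gc gv cE_mono cE_nonneg)
open Pool.Agent.W_7d29a1_C0.MicE14 (rh rh_nonneg)
open Pool.W7d29a1.C0.H7 (NL7 HL7 lv7)
open Pool.Agent.W_7d29a1_C0.Swap57 (NI NI_nonneg)
open Pool.W7d29a1.C0.R43 (mI)

noncomputable section

variable {μ : Measure ℝ} {s : ℝ} {N b j : ℕ}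

/-! ### Two free replicas -/

theorem PP_gm {X : Type*} [Fintype X] [Nonempty X] (w : X → ℝ) (Q : X → X → ℝ) : PP w Q = gm w fun x => gm w fun y => Q x y := by
  rw [PP_eq]
  unfold gm
  rw [sq, ← div_div]
  congr 1
  rw [sum_div]
  refine sum_congr rfl fun x _ => ?_
  rw [mul_div_assoc', mul_sum]
  congr 1
  exact sum_congr rfl fun y _ => by ring

theorem PP_one {X : Type*} [Fintype X] [Nonempty X] (w : X → ℝ) (P n : X → ℝ) (R : X → X → ℝ) :
    PP w (fun x y => P x * (n x * R x y)) = gm w fun x => P x * (n x * gm w (R x)) := by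
  rw [PP_gm]
  congr 1
  funext x
  have e : (fun y => P x * (n x * R x y)) = fun y => (P x * n x) * R x y := by
    funext y
    ring
  rw [e]
  have h := Pool.W7d29a1.C0.gm_smul w (P x * n x) (R x)
  refine Eq.trans h ?_
  ring

/-! ### The tilt of the row -/

/-- The coefficient of the tilt seen from the corner of the signs `A`. -/
def cT (t : ℝ) (j : ℕ) (A : Finset ℕ) : ℝ := t - sg A j

theorem abs_cT {t : ℝ} (ht : |t| ≤ 1) (A : Finset ℕ) : |cT t j A| ≤ 2 := by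
  unfold cT
  refine (abs_sub _ _).trans ?_
  have h : |(sg A j : ℝ)| = 1 := by
    rcases sg_or A j with h | h <;> rw [h] <;> norm_num
  linarith

/-- The tilt of the row `j` to the weights `wt .. t`. -/
def tT (μ : Measure ℝ) (s : ℝ) (δ : ℝ) {B : ℝ} (hB : 0 ≤ B) (t : ℝ) (A : Finset ℕ) : CovW N b j := gT μ s δ hB le_rfl (cT t j A)

theorem tT_K {δ B : ℝ} (hB : 0 ≤ B) {t : ℝ} (ht : |t| ≤ 1) (A : Finset ℕ) : (tT (N := N) (b := b) (j := j) μ s δ hB t A).K ≤ B := by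
  show |cT t j A| * (B / 2) ≤ B
  have h := abs_cT (j := j) ht A
  nlinarith

theorem tT_wm {δ B : ℝ} (hB : 0 ≤ B) (t : ℝ) (y : ℕ) (ω : Env × Finset ℕ) :
    wm μ s N (Pn N y) ω + (tT (N := N) (b := b) (j := j) μ s δ hB t ω.2).F y ω = wt μ s ω.1 N (Pn N y) δ B b j (sg ω.2 j) t :=
  wm_tilt δ B y ω t

theorem tT_wf {δ B : ℝ} (hB : 0 ≤ B) (t : ℝ) (y : ℕ) (ω : Env × Finset ℕ) :
    wf μ s N δ B b j y ω + (tT (N := N) (b := b) (j := j) μ s δ hB t (flp j ω.2)).F y ω = wt μ s ω.1 N (Pn N y) δ B b j (sg ω.2 j) t :=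
  wf_tilt δ B y ω t

/-! ### The events -/

section Ev

variable {δ B : ℝ}

/-- **The levels**: threshold `1/2`, level `dl / 2` at the flipped corner, `1/4`, `dl` at the actual one. -/
theorem tsw_lev (hB : 0 ≤ B) (t : ℝ) {dl : ℝ} (hdl : 0 < dl) {c d : ℕ} (hc : c ≤ j - b) (hd : j + b ≤ d) :
    TSw μ s N δ B b j
      (fun y ω A w ρ => 1 / 2 ≤ cE w (pJ c d) (fun z => iv (cT t j A * gj μ s ω.1 δ B b j (sg ω.2 j) (ρ 0) - dl / 2 ≤
        cT t j A * gj μ s ω.1 δ B b j (sg ω.2 j) z)) (ρ 0))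
      (fun y ω A w ρ => 1 / 4 ≤ cE w (pJ c d) (fun z => iv (cT t j A * gj μ s ω.1 δ B b j (sg ω.2 j) (ρ 0) - dl ≤
        cT t j A * gj μ s ω.1 δ B b j (sg ω.2 j) z)) (ρ 0)) 8 := by
  have h0 := cov_gj' (μ := μ) (s := s) (N := N) (j := j) (le_refl b) δ hB
  have h1 : CovM N b j (fun y ω ρ => gj μ s ω.1 δ B b j (sg ω.2 j) (ρ 0) - gj μ s ω.1 δ B b j (sg ω.2 j) (ρ 1)) (B / 2 + B / 2) :=
    (CovM.of1 h0 0).sub (CovM.of1 h0 1)
  have h2 : TRep μ s N δ B b j (fun y ω A _ ρ => cT t j A * (gj μ s ω.1 δ B b j (sg ω.2 j) (ρ 0) - gj μ s ω.1 δ B b j (sg ω.2 j) (ρ 1)))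
      ((|t| + 1) * (B / 2 + B / 2)) 0 := by
    have h3 := (TRep.cstA (μ := μ) (s := s) (N := N) (δ := δ) (B := B) (b := b) (j := j) (M := |t| + 1) (cT t j) fun A => by
      unfold cT
      refine (abs_sub _ _).trans ?_
      have h : |(sg A j : ℝ)| = 1 := by
        rcases sg_or A j with h | h <;> rw [h] <;> norm_num
      rw [h]).mul (TRep.fn h1)
    exact h3.mono le_rfl (le_of_eq (by ring))
  have h3 := TSw.thr h2 (q := -(dl / 2)) (q' := -dl) (by linarith)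
  have h4 := h3.mass hc hd 0 (fun _ => zT) (K := 0) (fun _ => le_rfl) (q := 1 / 2) (q' := 1 / 4) (by norm_num)
  have hz : ∀ y ω, (zT (N := N) (b := b) (j := j)).F y ω = 0 := fun _ _ => rfl
  simp only [hz, add_zero, cns_zero] at h4
  have e : ∀ (a : ℝ) (y : ℕ) (ω : Env × Finset ℕ) (A : Finset ℕ) (ρ : ℕ → Px (Pn N y)) (z : Px (Pn N y)),
      iv (-a ≤ cT t j A * (gj μ s ω.1 δ B b j (sg ω.2 j) z - gj μ s ω.1 δ B b j (sg ω.2 j) (cns z ρ 1))) =
      iv (cT t j A * gj μ s ω.1 δ B b j (sg ω.2 j) (ρ 0) - a ≤ cT t j A * gj μ s ω.1 δ B b j (sg ω.2 j) z) := by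
    intro a y ω A ρ z
    congr 1
    have e1 : cns z ρ 1 = ρ 0 := rfl
    rw [e1, mul_sub]
    exact propext ⟨fun h => by linarith, fun h => by linarith⟩
  simp only [e] at h4
  refine h4.mono (le_of_eq ?_)
  rw [mul_zero, Real.exp_zero]
  norm_num

/-- **The level events of the slab** `(c0, c0 + K]`. -/
theorem tsw_hl (hB : 0 ≤ B) (t : ℝ) {dl : ℝ} (hdl : 0 < dl) {c0 K : ℕ} (hc : j + b ≤ c0) :
    TSw μ s N δ B b j
      (fun y ω A w ρ => HL7 w (fun S => cT t j A * gj μ s ω.1 δ B b j (sg ω.2 j) S) (dl / 2) c0 K (ρ 0))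
      (fun y ω A w ρ => NL7 w (fun S => cT t j A * gj μ s ω.1 δ B b j (sg ω.2 j) S) dl c0 K (ρ 0)) (8 * K) := by
  have h := TSw.all (Ioc c0 (c0 + K)) (μ := μ) (s := s) (N := N) (δ := δ) (B := B) (b := b) (j := j) (L := fun _ => 8) fun m hm =>
    tsw_lev (μ := μ) (s := s) (δ := δ) hB t hdl (c := 0) (d := m) (Nat.zero_le _) (by
      have := (mem_Ioc.1 hm).1
      omega)
  rw [sum_const, Nat.card_Ioc, nsmul_eq_mul, Nat.add_sub_cancel_left] at h
  have e1 : ∀ (y : ℕ) (ω : Env × Finset ℕ) (A : Finset ℕ) (w : Px (Pn N y) → ℝ) (ρ : ℕ → Px (Pn N y)),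
      (∀ m ∈ Ioc c0 (c0 + K), 1 / 2 ≤ cE w (pJ 0 m) (fun z => iv (cT t j A * gj μ s ω.1 δ B b j (sg ω.2 j) (ρ 0) - dl / 2 ≤
        cT t j A * gj μ s ω.1 δ B b j (sg ω.2 j) z)) (ρ 0)) ↔
      HL7 w (fun S => cT t j A * gj μ s ω.1 δ B b j (sg ω.2 j) S) (dl / 2) c0 K (ρ 0) := by
    intro y ω A w ρ
    simp only [iv_eq, mem_Ioc]
    exact ⟨fun h m h1 h2 => h m ⟨h1, h2⟩, fun h m h1 => h m h1.1 h1.2⟩
  have e2 : ∀ (y : ℕ) (ω : Env × Finset ℕ) (A : Finset ℕ) (w : Px (Pn N y) → ℝ) (ρ : ℕ → Px (Pn N y)),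
      (∀ m ∈ Ioc c0 (c0 + K), 1 / 4 ≤ cE w (pJ 0 m) (fun z => iv (cT t j A * gj μ s ω.1 δ B b j (sg ω.2 j) (ρ 0) - dl ≤
        cT t j A * gj μ s ω.1 δ B b j (sg ω.2 j) z)) (ρ 0)) ↔
      NL7 w (fun S => cT t j A * gj μ s ω.1 δ B b j (sg ω.2 j) S) dl c0 K (ρ 0) := by
    intro y ω A w ρ
    simp only [iv_eq, mem_Ioc]
    exact ⟨fun h m h1 h2 => h m ⟨h1, h2⟩, fun h m h1 => h m h1.1 h1.2⟩
  simp only [e1, e2] at h
  exact h.mono (le_of_eq (by ring))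

theorem thr_half {a a' : ℝ} (h : a + 1 ≤ a') : Real.exp (-a') ≤ Real.exp (-a) / 2 := by
  have h1 : Real.exp (-a') ≤ Real.exp (-a) * Real.exp (-1) := by
    rw [← Real.exp_add]
    exact Real.exp_le_exp.2 (by linarith)
  have h2 : Real.exp (-1) ≤ 1 / 2 := by
    rw [Real.exp_neg, ← one_div]
    refine one_div_le_one_div_of_le two_pos ?_
    have := Real.add_one_le_exp (1 : ℝ)
    linarith
  calc Real.exp (-a') ≤ Real.exp (-a) * Real.exp (-1) := h1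
    _ ≤ Real.exp (-a) * (1 / 2) := mul_le_mul_of_nonneg_left h2 (Real.exp_pos _).le
    _ = _ := by ring

theorem thr_lip {a a' K : ℝ} (h : a + 1 ≤ a') (hK : 0 ≤ K) : 1 / (Real.exp (-a) - Real.exp (-a')) * K ≤ 2 * Real.exp a * K := by
  refine mul_le_mul_of_nonneg_right ?_ hK
  have h1 := thr_half h
  have h2 := Real.exp_pos (-a)
  have h3 : Real.exp a * Real.exp (-a) = 1 := by rw [← Real.exp_add, add_neg_cancel, Real.exp_zero]
  have h4 := Real.exp_pos a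
  rw [div_le_iff₀ (by linarith)]
  nlinarith

theorem thr_lt {a a' : ℝ} (h : a + 1 ≤ a') : Real.exp (-a') < Real.exp (-a) := Real.exp_lt_exp.2 (by linarith)

/-- **The own mass of the path** given a block which contains the window (rows outside of the open window). -/
theorem tsw_ow1 {c d : ℕ} (hc : c ≤ j - b) (hd : j + b ≤ d) {i k : ℕ} (hik : k ≤ j - b ∨ j + b ≤ i) {a a' : ℝ} (h : a + 1 ≤ a') (n : ℕ) :
    TSw μ s N δ B b j (fun y _ _ w ρ => Real.exp (-a) ≤ mI w (pJ c d) i k (ρ n)) (fun y _ _ w ρ => Real.exp (-a') ≤ mI w (pJ c d) i k (ρ n))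
      (4 * Real.exp a) := by
  have h1 := TSw.thr (TRep.mass (μ := μ) (s := s) (δ := δ) (B := B) (K' := fun _ _ => NI i k) (cov_NI (N := N) hik 0 1) hc hd n) (thr_lt h)
  refine h1.mono ((thr_lip h (by norm_num)).trans (le_of_eq ?_))
  ring

/-- **The mean of the own mass.** -/
theorem tsw_tau {c d c' d' : ℕ} (hc : c ≤ j - b) (hd : j + b ≤ d) (hc' : c' ≤ j - b) (hd' : j + b ≤ d') {i k : ℕ}
    (hik : k ≤ j - b ∨ j + b ≤ i) {a a' : ℝ} (h : a + 1 ≤ a') (n : ℕ) :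
    TSw μ s N δ B b j (fun y _ _ w ρ => Real.exp (-a) ≤ cE w (pJ c d) (mI w (pJ c' d') i k) (ρ n))
      (fun y _ _ w ρ => Real.exp (-a') ≤ cE w (pJ c d) (mI w (pJ c' d') i k) (ρ n)) (8 * Real.exp a) := by
  have h0 : TRep μ s N δ B b j (fun y _ _ w ρ => mI w (pJ c' d') i k (ρ 0)) 1 (2 * 1) :=
    TRep.mass (μ := μ) (s := s) (δ := δ) (B := B) (K' := fun _ _ => NI i k) (cov_NI (N := N) hik 0 1) hc' hd' 0
  have h1 := h0.ce hc hd n
  have h2 := TSw.thr h1 (thr_lt h)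
  refine h2.mono ((thr_lip h (by norm_num)).trans (le_of_eq ?_))
  ring

end Ev

/-! ### The passengers -/

section Pas

variable {δ B : ℝ}

/-- **The tie of a covariant spectator**; the spectator is covariant after subtraction of a function of the end; `F` is the bound of its
differences. -/
theorem cov_rh {f : (y : ℕ) → Env × Finset ℕ → Px (Pn N y) → ℝ} {c : ℕ → ℝ} {D F : ℝ} (hf : Cov1 N b j (fun y ω S => f y ω S - c y) D)
    (F0 : 0 ≤ F) (hF : ∀ y ω S S', |f y ω S - f y ω S'| ≤ F) {zf cc : ℕ} (hz : cc ≤ j - b ∨ j + b ≤ zf) (n n' : ℕ) :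
    CovM N b j (fun y ω ρ => rh zf cc (f y ω) (ρ n) (ρ n')) F := by
  have h1 := (((CovM.of1 hf n).sub (CovM.of1 hf n')).abs).mul (cov_NI (N := N) hz n n')
  have e : (fun (y : ℕ) (ω : Env × Finset ℕ) (ρ : ℕ → Px (Pn N y)) => rh zf cc (f y ω) (ρ n) (ρ n')) =
      fun y ω ρ => |f y ω (ρ n) - c y - (f y ω (ρ n') - c y)| * NI zf cc (ρ n) (ρ n') := by
    funext y ω ρ
    unfold rh
    rw [sub_sub_sub_cancel_right]
  rw [e]
  refine h1.scov.covM F0 (fun y ω ρ => ?_) h1.mes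
  rw [sub_sub_sub_cancel_right, abs_mul, abs_abs, abs_of_nonneg (NI_nonneg _ _ _ _)]
  have h2 : NI zf cc (ρ n) (ρ n') ≤ 1 := by
    unfold NI
    split_ifs <;> norm_num
  calc |f y ω (ρ n) - f y ω (ρ n')| * NI zf cc (ρ n) (ρ n') ≤ F * 1 := mul_le_mul (hF _ _ _ _) h2 (NI_nonneg _ _ _ _) F0
    _ = F := mul_one F

/-- **The tie with a free replica at the tilted weights.** -/
theorem trep_rh (hB : 0 ≤ B) {t : ℝ} (ht : |t| ≤ 1) {f : (y : ℕ) → Env × Finset ℕ → Px (Pn N y) → ℝ} {c : ℕ → ℝ} {D F : ℝ}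
    (hf : Cov1 N b j (fun y ω S => f y ω S - c y) D) (F0 : 0 ≤ F) (hF : ∀ y ω S S', |f y ω S - f y ω S'| ≤ F)
    {zf cc : ℕ} (hz : cc ≤ j - b ∨ j + b ≤ zf) (n : ℕ) :
    TRep μ s N δ B b j (fun y ω A w ρ => gm (w + (tT (N := N) (b := b) (j := j) μ s δ hB t A).F y ω) (rh zf cc (f y ω) (ρ n))) F
      (Real.exp (2 * B) * (2 * F)) := by
  have h1 : TRep μ s N δ B b j (fun y ω _ _ ρ => rh zf cc (f y ω) (ρ (n + 1)) (ρ 0)) F 0 := TRep.fn (cov_rh hf F0 hF hz (n + 1) 0)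
  have h2 := h1.meT (fun A => tT μ s δ hB t A) (K := B) (fun A => tT_K hB ht A)
  rw [zero_add] at h2
  exact h2

/-- **The micro mean at the tilted weights.** -/
theorem trep_nX (hB : 0 ≤ B) {t : ℝ} (ht : |t| ≤ 1) {c1 d1 c2 d2 : ℕ} (h1 : c1 ≤ j - b) (h1' : j + b ≤ d1) (h2 : c2 ≤ j - b)
    (h2' : j + b ≤ d2) (n : ℕ) :
    TRep μ s N δ B b j (fun y ω A w ρ => cE (w + (tT (N := N) (b := b) (j := j) μ s δ hB t A).F y ω) (pJ c1 d1) (fun x =>
      cE (w + (tT (N := N) (b := b) (j := j) μ s δ hB t A).F y ω) (pJ c2 d2)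
        (fun z => |Mod92.gg μ s (Pn N y) δ B b ω j x - Mod92.gg μ s (Pn N y) δ B b ω j z|) x) (ρ n)) B
      (Real.exp (4 * B) * (4 * B)) := by
  have k0 : CovM N b j (fun y ω ρ => |Mod92.gg μ s (Pn N y) δ B b ω j (ρ 0) - Mod92.gg μ s (Pn N y) δ B b ω j (ρ 1)|) B :=
    cov_dgg (le_refl b) δ hB
  have k1 := TRep.massT (μ := μ) (s := s) (δ := δ) (B := B)
    (K' := fun y ω x z => |Mod92.gg μ s (Pn N y) δ B b ω j x - Mod92.gg μ s (Pn N y) δ B b ω j z|) k0 h2 h2' 0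
    (fun A => tT μ s δ hB t A) (K := B) (fun A => tT_K hB ht A)
  have k2 := k1.ceT h1 h1' n (fun A => tT μ s δ hB t A) (K := B) (fun A => tT_K hB ht A)
  refine k2.mono le_rfl ?_
  have e1 : 1 ≤ Real.exp (2 * B) := Real.one_le_exp (by linarith)
  have e2 : Real.exp (4 * B) = Real.exp (2 * B) * Real.exp (2 * B) := by
    rw [← Real.exp_add]
    congr 1
    ring
  rw [e2, mul_assoc]
  refine mul_le_mul_of_nonneg_left ?_ (Real.exp_pos _).le
  have := mul_le_mul_of_nonneg_right e1 (show 0 ≤ 2 * B by linarith)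
  linarith

end Pas

/-! ### The flip with the levels -/

section Law

variable [IsProbabilityMeasure μ] {δ B : ℝ} {y₀ n : ℕ} {θ ε : ℝ} {G : Fnl N} {M LG : ℝ}

/-- **THE FLIP OF THE PART SEEN FROM THE OTHER CORNER**: own event `P₁`, level event, passenger `G`, outer mean at the tilt `t`. -/
theorem flip_nl (hb0 : 0 < b) (hj : j + b ≤ N) (hB : 0 ≤ B) {t : ℝ} (ht : |t| ≤ 1) {dl : ℝ} (hdl : 0 < dl) {c0 K : ℕ} (hc : j + b ≤ c0)
    {P₁ P₁' : Pfl N} {L₁ : ℝ} (hP : TSw μ s N δ B b j P₁ P₁' L₁) (hG : TRep μ s N δ B b j G M LG)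
    (G0 : ∀ y ω A t ρ, 0 ≤ G y ω A (wg μ s N δ B b j y ω t) ρ)
    (hy : 1 ≤ y₀) (hn : 1 ≤ n) (hyN : y₀ + n ≤ N) (hE : FErr2 μ s N δ B b j y₀ n θ ε) :
    avy (Ico y₀ (y₀ + n)) (fun y => ∫ ω, gm (wt μ s ω.1 N (Pn N y) δ B b j (sg ω.2 j) t) (fun x =>
        iv (P₁ y ω (flp j ω.2) (wf μ s N δ B b j y ω) (fun _ => x) ∧
          HL7 (wf μ s N δ B b j y ω) (fun S => (t + sg ω.2 j) * gj μ s ω.1 δ B b j (sg ω.2 j) S) (dl / 2) c0 K x) *
        G y ω (flp j ω.2) (wf μ s N δ B b j y ω) fun _ => x) ∂(Pm μ N)) ≤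
      avy (Ico y₀ (y₀ + n)) (fun y => ∫ ω, gm (wt μ s ω.1 N (Pn N y) δ B b j (sg ω.2 j) t) (fun x =>
        iv (P₁' y ω ω.2 (wm μ s N (Pn N y) ω) (fun _ => x) ∧
          NL7 (wm μ s N (Pn N y) ω) (fun S => (t - sg ω.2 j) * gj μ s ω.1 δ B b j (sg ω.2 j) S) dl c0 K x) *
        G y ω ω.2 (wm μ s N (Pn N y) ω) fun _ => x) ∂(Pm μ N)) +
      (2 * M / n + (3 * (Real.exp (2 * B) * ((M * (L₁ + 8 * K) + LG) + 2 * M)) * θ + 4 * M * ε)) := by
  have h1 := hP.and (tsw_hl (μ := μ) (s := s) (δ := δ) hB t hdl (K := K) hc)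
  have key := h1.flip hb0 hj hG G0 (fun A => tT μ s δ hB t A) (K := B) (fun A => tT_K hB ht A) hy hn hyN hE
  simp only [tT_wm, tT_wf] at key
  have e : ∀ ω : Env × Finset ℕ, cT t j (flp j ω.2) = t + sg ω.2 j := fun ω => by
    unfold cT
    rw [sg_flp]
    push_cast
    ring
  simp only [e] at key
  exact key

end Law

end

end Pool.Agent.W_7d29a1_C0.FlipR4.C4
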