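import Pool.Agent.W_7d29a1_C0.FlipB61

/-!
CURV0 (MP_7d29a1_pr), E7, LAW INVARIANCE, averaged over the environment, the signs and the pinned ends. `fl_even`: the mean of an
expression (which may depend on the sign `a_j`) is its mean over both corners of the row `j`. `fl_odd`: for a function blind to `a_j` the
half difference is zero; `fl_pos`: for the position behind the window it is `1 / 2`. The errors: `clip` (helper48) and `nok`
(helper18). (helper61)
-/

set_option autoImplicit false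
set_option linter.unusedSectionVars false

namespace Pool.Agent.W_7d29a1_C0.Flip61

open Pool.Agent.W_7d29a1_F hiding W_pos W_nonneg W_add
open Finset MeasureTheory Pool.Agent.W_7d29a1_X Pool.Agent.W_7d29a1_HZ
open Pool.Agent.W_7d29a1_Z74
open Pool.Agent.W_7d29a1_HZ.Z74
open Pool.Agent.W_7d29a1_C0.Mod92
open Pool.Agent.W_7d29a1_C0.Blk18
open Pool.Agent.W_7d29a1_C0.Pin18
open Pool.W7d29a1.C0 (gz gm gz_pos gz_ne gm_const gm_mono gm_nonneg gm_sub)
open Pool.W7d29a1.C0.VT31 (Mp Crs cE cV cC gc gv)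

noncomputable section

/-! ### Both corners, abstract -/

/-- The even twin of `pin_signs`. -/
theorem pin_even {N j : ℕ} (hj : j < N) {F Fl : Finset ℕ → ℕ → ℝ} {M e : ℝ} (hF : ∀ A y, |F A y| ≤ M) {y₀ m : ℕ} (hy : 1 ≤ y₀)
    (hm : 1 ≤ m) (h : ∀ A ∈ (range N).powerset, ∀ y ∈ Ico y₀ (y₀ + m), |Fl A y - F (flp j A) (nb (sg A j) y)| ≤ e) :
    |(m : ℝ)⁻¹ * ∑ y ∈ Ico y₀ (y₀ + m), (2 ^ N : ℝ)⁻¹ * ∑ A ∈ (range N).powerset, (F A y - Fl A y)| ≤ 2 * M / m + e := by
  have hm0 : (0 : ℝ) < m := by exact_mod_cast hm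
  -- the flipped terms, after the substitution
  have e1 : ∀ y, ∑ A ∈ (range N).powerset, (F A y - Fl A y) =
      ∑ A ∈ (range N).powerset, (F A y - F A (nb (-sg A j) y)) -
        ∑ A ∈ (range N).powerset, (Fl A y - F (flp j A) (nb (sg A j) y)) := by
    intro y
    have h1 := sum_flp hj (fun A => F A (nb (-sg A j) y))
    have h2 : ∀ A, F (flp j A) (nb (-sg (flp j A) j) y) = F (flp j A) (nb (sg A j) y) := fun A => by rw [sg_flp, neg_neg]
    simp only [h2] at h1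
    rw [sum_sub_distrib, sum_sub_distrib, sum_sub_distrib, h1]
    ring
  simp only [e1]
  have e2 : (m : ℝ)⁻¹ * ∑ y ∈ Ico y₀ (y₀ + m), (2 ^ N : ℝ)⁻¹ * (∑ A ∈ (range N).powerset, (F A y - F A (nb (-sg A j) y)) -
        ∑ A ∈ (range N).powerset, (Fl A y - F (flp j A) (nb (sg A j) y))) =
      (2 ^ N : ℝ)⁻¹ * ∑ A ∈ (range N).powerset, (m : ℝ)⁻¹ * ((∑ y ∈ Ico y₀ (y₀ + m), (F A y - F A (nb (-sg A j) y))) -
        ∑ y ∈ Ico y₀ (y₀ + m), (Fl A y - F (flp j A) (nb (sg A j) y))) := by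
    rw [← mul_sum, ← mul_sum, ← mul_assoc, ← mul_assoc, mul_comm (m : ℝ)⁻¹]
    congr 1
    simp only [← sum_sub_distrib]
    exact sum_comm
  rw [e2, abs_mul, abs_of_pos (by positivity : (0 : ℝ) < (2 ^ N : ℝ)⁻¹)]
  have h1 : |∑ A ∈ (range N).powerset, (m : ℝ)⁻¹ * ((∑ y ∈ Ico y₀ (y₀ + m), (F A y - F A (nb (-sg A j) y))) -
        ∑ y ∈ Ico y₀ (y₀ + m), (Fl A y - F (flp j A) (nb (sg A j) y)))| ≤ (2 ^ N : ℝ) * (2 * M / m + e) := by
    have h2 : ∀ A ∈ (range N).powerset, |(m : ℝ)⁻¹ * ((∑ y ∈ Ico y₀ (y₀ + m), (F A y - F A (nb (-sg A j) y))) -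
        ∑ y ∈ Ico y₀ (y₀ + m), (Fl A y - F (flp j A) (nb (sg A j) y)))| ≤ 2 * M / m + e := by
      intro A hA
      have ha : -sg A j = 1 ∨ -sg A j = -1 := by
        rcases sg_or A j with h3 | h3 <;> rw [h3] <;> norm_num
      have h3 := tel_sgn ha (hF A) (y₀ := y₀) (m := m) hy
      have h4 : |∑ y ∈ Ico y₀ (y₀ + m), (F A y - F A (nb (-sg A j) y))| ≤ 2 * M := by
        have h5 : ∑ y ∈ Ico y₀ (y₀ + m), ((-sg A j : ℤ) : ℝ) * (F A y - F A (nb (-sg A j) y)) =
            ((-sg A j : ℤ) : ℝ) * ∑ y ∈ Ico y₀ (y₀ + m), (F A y - F A (nb (-sg A j) y)) := (mul_sum _ _ _).symm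
        rw [h5, abs_mul] at h3
        have h6 : |((-sg A j : ℤ) : ℝ)| = 1 := by
          push_cast
          rw [abs_neg]
          exact abs_sg A j
        rwa [h6, one_mul] at h3
      have h5 : |∑ y ∈ Ico y₀ (y₀ + m), (Fl A y - F (flp j A) (nb (sg A j) y))| ≤ m * e := by
        refine (abs_sum_le_sum_abs _ _).trans ((sum_le_sum fun y hy' => h A hA y hy').trans (le_of_eq ?_))
        rw [sum_const, Nat.card_Ico, Nat.add_sub_cancel_left, nsmul_eq_mul]
      rw [abs_mul, abs_of_pos (inv_pos.2 hm0)]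
      have h6 := abs_sub (∑ y ∈ Ico y₀ (y₀ + m), (F A y - F A (nb (-sg A j) y)))
        (∑ y ∈ Ico y₀ (y₀ + m), (Fl A y - F (flp j A) (nb (sg A j) y)))
      refine (mul_le_mul_of_nonneg_left (h6.trans (add_le_add h4 h5)) (inv_pos.2 hm0).le).trans (le_of_eq ?_)
      field_simp
    refine (abs_sum_le_sum_abs _ _).trans ((sum_le_sum h2).trans (le_of_eq ?_))
    rw [sum_const, card_powerset, card_range, nsmul_eq_mul]
    push_cast
    ring
  refine (mul_le_mul_of_nonneg_left h1 (by positivity)).trans (le_of_eq ?_)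
  rw [← mul_assoc, inv_mul_cancel₀ (by positivity), one_mul]

/-! ### Conditional covariances as expressions -/

namespace Ex

variable {ι β : Type*} {Y : Type*} [DecidableEq Y] {X : Type*} [Fintype X] [Nonempty X]

/-- The size of an expression: it bounds the value and the Lipschitz constant. -/
def sz (b : ι → ℝ) (e : Ex ι β) : ℝ := li b e + 2 * bd b e

/-- The conditional covariance given the map `k`. -/
def cc (k : β) (e e' : Ex ι β) : Ex ι β := add (ce k (mul e e')) (mul (cst (-1)) (mul (ce k e) (ce k e')))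

/-- The covariance (a constant). -/
def gcc (e e' : Ex ι β) : Ex ι β := add (me (mul e e')) (mul (cst (-1)) (mul (me e) (me e')))

/-- The row functional `Zr`. -/
def zr (k : β) (a : ℝ) (e : Ex ι β) : Ex ι β := add (ce k e) (mul (cst (-(a / 3))) (cc k e e))

theorem evX_cc (w : X → ℝ) (f : ι → X → ℝ) (Q : β → X → Y) (k : β) (e e' : Ex ι β) :
    evX w f Q (cc k e e') = cC w (Q k) (evX w f Q e) (evX w f Q e') := by
  funext x
  show cE w (Q k) (fun x => evX w f Q e x * evX w f Q e' x) x + -1 * (cE w (Q k) (evX w f Q e) x * cE w (Q k) (evX w f Q e') x) = _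
  unfold cC
  rw [Pi.sub_apply, Pi.mul_apply]
  have h : (fun x => evX w f Q e x * evX w f Q e' x) = evX w f Q e * evX w f Q e' := rfl
  rw [h]
  ring

theorem evX_gcc (w : X → ℝ) (f : ι → X → ℝ) (Q : β → X → Y) (e e' : Ex ι β) :
    gm w (evX w f Q (gcc e e')) = gc w (evX w f Q e) (evX w f Q e') := by
  have h : evX w f Q (gcc e e') = fun _ => gc w (evX w f Q e) (evX w f Q e') := by
    funext x
    show gm w (fun x => evX w f Q e x * evX w f Q e' x) + -1 * (gm w (evX w f Q e) * gm w (evX w f Q e')) = _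
    unfold gc
    have h : (fun x => evX w f Q e x * evX w f Q e' x) = evX w f Q e * evX w f Q e' := rfl
    rw [h]
    ring
  rw [h, gm_const]

theorem evX_zr (w : X → ℝ) (f : ι → X → ℝ) (Q : β → X → Y) (k : β) (a : ℝ) (e : Ex ι β) :
    evX w f Q (zr k a e) = Pool.W7d29a1.C0.VT31.Zr w (Q k) a (evX w f Q e) := by
  funext x
  show cE w (Q k) (evX w f Q e) x + -(a / 3) * evX w f Q (cc k e e) x = _
  rw [evX_cc]
  unfold Pool.W7d29a1.C0.VT31.Zr cV
  rw [Pi.sub_apply, Pi.smul_apply, smul_eq_mul]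
  ring

theorem sz_fn (b : ι → ℝ) (i : ι) : sz b (fn i : Ex ι β) = 2 * b i := by
  unfold sz li bd
  ring

theorem sz_cst (b : ι → ℝ) (r : ℝ) : sz b (cst r : Ex ι β) = 2 * |r| := by
  unfold sz li bd
  ring

theorem sz_add (b : ι → ℝ) (e e' : Ex ι β) : sz b (add e e') = sz b e + sz b e' := by
  show (li b e + li b e') + 2 * (bd b e + bd b e') = _
  unfold sz
  ring

theorem sz_nonneg {b : ι → ℝ} (hb : ∀ i, 0 ≤ b i) (e : Ex ι β) : 0 ≤ sz b e := by
  have h1 := li_nonneg hb e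
  have h2 := bd_nonneg hb e
  unfold sz
  linarith

theorem sz_mul {b : ι → ℝ} (hb : ∀ i, 0 ≤ b i) (e e' : Ex ι β) : sz b (mul e e') ≤ sz b e * sz b e' := by
  have h1 := li_nonneg hb e
  have h2 := bd_nonneg hb e
  have h3 := li_nonneg hb e'
  have h4 := bd_nonneg hb e'
  show (bd b e' * li b e + bd b e * li b e') + 2 * (bd b e * bd b e') ≤ _
  unfold sz
  have t1 := mul_nonneg h1 h3
  have t2 := mul_nonneg h1 h4
  have t3 := mul_nonneg h2 h3
  have t4 := mul_nonneg h2 h4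
  nlinarith

theorem sz_ce {b : ι → ℝ} (hb : ∀ i, 0 ≤ b i) (k : β) (e : Ex ι β) : sz b (ce k e) ≤ 2 * sz b e := by
  have h1 := li_nonneg hb e
  show (li b e + 2 * bd b e) + 2 * bd b e ≤ _
  unfold sz
  linarith

theorem sz_me {b : ι → ℝ} (hb : ∀ i, 0 ≤ b i) (e : Ex ι β) : sz b (me e) ≤ 2 * sz b e := by
  have h1 := li_nonneg hb e
  have h2 := bd_nonneg hb e
  show (li b e + bd b e) + 2 * bd b e ≤ _
  unfold sz
  linarith

theorem sz_cst_mul {b : ι → ℝ} (hb : ∀ i, 0 ≤ b i) {r : ℝ} (hr : |r| ≤ 1) (e : Ex ι β) : sz b (mul (cst r) e) ≤ sz b e := by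
  have h1 := li_nonneg hb e
  have h2 := bd_nonneg hb e
  show (bd b e * 0 + |r| * li b e) + 2 * (|r| * bd b e) ≤ _
  unfold sz
  nlinarith [mul_le_mul_of_nonneg_right hr h1, mul_le_mul_of_nonneg_right hr h2]

theorem sz_cc {b : ι → ℝ} (hb : ∀ i, 0 ≤ b i) (k : β) (e e' : Ex ι β) : sz b (cc k e e') ≤ 6 * (sz b e * sz b e') := by
  unfold cc
  rw [sz_add]
  have h1 := (sz_ce hb k (mul e e')).trans (mul_le_mul_of_nonneg_left (sz_mul hb e e') zero_le_two)
  have h2 := sz_cst_mul hb (r := -1) (by norm_num) (mul (ce k e) (ce k e'))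
  have h3 := sz_mul hb (ce k e) (ce k e')
  have h4 := mul_le_mul (sz_ce hb k e) (sz_ce hb k e') (sz_nonneg hb _) (mul_nonneg zero_le_two (sz_nonneg hb e))
  linarith

theorem sz_gcc {b : ι → ℝ} (hb : ∀ i, 0 ≤ b i) (e e' : Ex ι β) : sz b (gcc e e') ≤ 6 * (sz b e * sz b e') := by
  unfold gcc
  rw [sz_add]
  have h1 := (sz_me hb (mul e e')).trans (mul_le_mul_of_nonneg_left (sz_mul hb e e') zero_le_two)
  have h2 := sz_cst_mul hb (r := -1) (by norm_num) (mul (me e) (me e'))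
  have h3 := sz_mul hb (me e) (me e')
  have h4 := mul_le_mul (sz_me hb e) (sz_me hb e') (sz_nonneg hb _) (mul_nonneg zero_le_two (sz_nonneg hb e))
  linarith

theorem sz_zr {b : ι → ℝ} (hb : ∀ i, 0 ≤ b i) (k : β) {a : ℝ} (ha : |a| ≤ 1) (e : Ex ι β) :
    sz b (zr k a e) ≤ 2 * sz b e + 6 * (sz b e * sz b e) := by
  unfold zr
  rw [sz_add]
  have h1 := sz_ce hb k e
  have h2 := sz_cst_mul hb (r := -(a / 3)) (by
    rw [abs_neg, abs_div]
    have : |(3 : ℝ)| = 3 := by norm_num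
    rw [this]
    linarith) (cc k e e)
  have h3 := sz_cc hb k e e
  linarith

end Ex

/-! ### The model -/

variable {μ : Measure ℝ} {s : ℝ} {N : ℕ} {ι β : Type*} [IsProbabilityMeasure μ]

/-- **The errors of the flip of the row `j`** at the base `b`, for the pinned ends of `[y₀, y₀ + m)` and their neighbours. -/
structure FErr (μ : Measure ℝ) (s : ℝ) (N : ℕ) (δ B : ℝ) (b j y₀ m : ℕ) (ε : ℝ) : Prop where
  clip : ∀ A : Finset ℕ, ∀ y ∈ Ico y₀ (y₀ + m), ∫ η, clip μ s N δ B b j (sg A j) y η ∂(law μ) ≤ ε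
  nok : ∀ A : Finset ℕ, ∀ y ∈ Ico y₀ (y₀ + m), ∫ η, nok μ s N (j - b) (j + b - (j - b)) (-sg A j) (nb (sg A j) y) η ∂(law μ) ≤ ε

theorem int_ob (j : ℕ) (C D : β → ℕ) {h : (y : ℕ) → Env × Finset ℕ → ι → Px (Pn N y) → ℝ} {bb : ι → ℝ} (hp : ∀ i, 0 ≤ bb i)
    (hb : ∀ y ω i S, |h y ω i S| ≤ bb i) (hm : ∀ y i S, Measurable fun ω => h y ω i S) (e : ℤ → Ex ι β) (y : ℕ) (A : Finset ℕ) :
    Integrable (fun η : Env => ob μ s N j C D h e y (η, A)) (law μ) :=
  Integrable.of_bound ((meas_ob j C D hm e y).comp (meas_pair A)).aestronglyMeasurable (Ex.bd bb (e (sg A j)))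
    (Filter.Eventually.of_forall fun η => by
      rw [Real.norm_eq_abs]
      exact ob_bdd j C D hp hb e y (η, A))

theorem int_obf (δ B : ℝ) (b j : ℕ) (C D : β → ℕ) {h : (y : ℕ) → Env × Finset ℕ → ι → Px (Pn N y) → ℝ} {bb : ι → ℝ}
    (hp : ∀ i, 0 ≤ bb i) (hb : ∀ y ω i S, |h y ω i S| ≤ bb i) (hm : ∀ y i S, Measurable fun ω => h y ω i S) (e : ℤ → Ex ι β) (y : ℕ)
    (A : Finset ℕ) : Integrable (fun η : Env => obf μ s N δ B b j C D h e y (η, A)) (law μ) :=
  Integrable.of_bound ((meas_obf δ B b j C D hm e y).comp (meas_pair A)).aestronglyMeasurable (Ex.bd bb (e (-sg A j)))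
    (Filter.Eventually.of_forall fun η => by
      rw [Real.norm_eq_abs]
      exact obf_bdd δ B b j C D hp hb e y (η, A))

theorem abs_int_le {f : Env → ℝ} {M : ℝ} (h : ∀ η, |f η| ≤ M) : |∫ η, f η ∂(law μ)| ≤ M := by
  have h1 := norm_integral_le_of_norm_le_const (μ := law μ) (f := f) (C := M)
    (Filter.Eventually.of_forall fun η => by
      rw [Real.norm_eq_abs]
      exact h η)
  rwa [Real.norm_eq_abs, probReal_univ, mul_one] at h1

/-- **BOTH CORNERS.** The mean of an expression, over the environment, the signs and the pinned ends, is its mean over both corners of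
the row `j`. The expression may depend on the sign `a_j` (the same dependence at the flipped corner, with the flipped sign). -/
theorem fl_even {b j : ℕ} (hb : 0 < b) (hj : j + b ≤ N) {h : (y : ℕ) → Env × Finset ℕ → ι → Px (Pn N y) → ℝ} {bb : ι → ℝ}
    (H : Cov N b j h bb) (C D : β → ℕ) (hC : ∀ i, C i ≤ j - b) (hD : ∀ i, j + b ≤ D i) (e : ℤ → Ex ι β)
    {δ B : ℝ} {L M ε : ℝ} (hL : ∀ a : ℤ, a = 1 ∨ a = -1 → Ex.li bb (e a) + 2 * Ex.bd bb (e a) ≤ L)
    (hM : ∀ y ω, |ob μ s N j C D h e y ω| ≤ M)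
    {y₀ m : ℕ} (hy : 1 ≤ y₀) (hm : 1 ≤ m) (hyN : y₀ + m ≤ N) (hE : FErr μ s N δ B b j y₀ m ε) :
    |(m : ℝ)⁻¹ * ∑ y ∈ Ico y₀ (y₀ + m), ∫ ω, (ob μ s N j C D h e y ω - obf μ s N δ B b j C D h e y ω) ∂(Pm μ N)| ≤
      2 * M / m + 3 * L * ε := by
  have hjN : j < N := by omega
  have i1 := fun y A => int_ob (μ := μ) (s := s) (N := N) j C D H.pos H.bdd H.mes e y A
  have i2 := fun y A => int_obf (μ := μ) (s := s) (N := N) δ B b j C D H.pos H.bdd H.mes e y A
  have e1 : ∀ y, ∫ ω, (ob μ s N j C D h e y ω - obf μ s N δ B b j C D h e y ω) ∂(Pm μ N) =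
      (2 ^ N : ℝ)⁻¹ * ∑ A ∈ (range N).powerset, (∫ η, ob μ s N j C D h e y (η, A) ∂(law μ) -
        ∫ η, obf μ s N δ B b j C D h e y (η, A) ∂(law μ)) := by
    intro y
    rw [int_Pm (Φ := fun ω => ob μ s N j C D h e y ω - obf μ s N δ B b j C D h e y ω) (fun A _ => (i1 y A).sub (i2 y A))
      fun A => ((meas_ob j C D H.mes e y).sub (meas_obf δ B b j C D H.mes e y)).comp (meas_pair A)]
    congr 1
    exact sum_congr rfl fun A _ => integral_sub (i1 y A) (i2 y A)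
  simp only [e1]
  have hL0 : 0 ≤ L := by
    have h1 := hL 1 (Or.inl rfl)
    have h2 := Ex.bd_nonneg H.pos (e 1)
    have h3 := Ex.li_nonneg H.pos (e 1)
    linarith
  refine pin_even hjN (F := fun A y => ∫ η, ob μ s N j C D h e y (η, A) ∂(law μ))
    (Fl := fun A y => ∫ η, obf μ s N δ B b j C D h e y (η, A) ∂(law μ)) (fun A y => ?_) hy hm fun A _ y hy' => ?_
  · exact abs_int_le fun η => hM y (η, A)
  · have hy2 := mem_Ico.1 hy'
    refine (one_end_int hb hj H C D hC hD e δ B (by omega) (by omega) A hL).trans ?_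
    have h1 := hE.clip A y hy'
    have h2 := hE.nok A y hy'
    have h3 : L * (∫ η, clip μ s N δ B b j (sg A j) y η ∂(law μ) +
        2 * ∫ η, nok μ s N (j - b) (j + b - (j - b)) (-sg A j) (nb (sg A j) y) η ∂(law μ)) ≤ L * (3 * ε) :=
      mul_le_mul_of_nonneg_left (by linarith) hL0
    linarith

/-- **THE HALF DIFFERENCE** (a function blind to the sign `a_j`): zero. -/
theorem fl_odd {b j : ℕ} (hb : 0 < b) (hj : j + b ≤ N) {h : (y : ℕ) → Env × Finset ℕ → ι → Px (Pn N y) → ℝ} {bb : ι → ℝ}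
    (H : Cov N b j h bb) (C D : β → ℕ) (hC : ∀ i, C i ≤ j - b) (hD : ∀ i, j + b ≤ D i) (e : Ex ι β)
    (hbl : ∀ (y : ℕ) (η : Env) (A : Finset ℕ), h y (η, flp j A) = h y (η, A)) {δ B : ℝ} {ε : ℝ}
    {y₀ m : ℕ} (hy : 1 ≤ y₀) (hm : 1 ≤ m) (hyN : y₀ + m ≤ N) (hE : FErr μ s N δ B b j y₀ m ε) :
    |(m : ℝ)⁻¹ * ∑ y ∈ Ico y₀ (y₀ + m), ∫ ω, sr ω.2 j / 2 * (ob μ s N j C D h (fun _ => e) y ω -
      obf μ s N δ B b j C D h (fun _ => e) y ω) ∂(Pm μ N)| ≤ Ex.bd bb e / m + 3 / 2 * (Ex.li bb e + 2 * Ex.bd bb e) * ε := by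
  have i1 := fun y A => int_ob (μ := μ) (s := s) (N := N) j C D H.pos H.bdd H.mes (fun _ => e) y A
  have i2 := fun y A => int_obf (μ := μ) (s := s) (N := N) δ B b j C D H.pos H.bdd H.mes (fun _ => e) y A
  have e1 : ∀ y, ∫ ω, sr ω.2 j / 2 * (ob μ s N j C D h (fun _ => e) y ω - obf μ s N δ B b j C D h (fun _ => e) y ω) ∂(Pm μ N) =
      (2 ^ N : ℝ)⁻¹ * ∑ A ∈ (range N).powerset, sr A j / 2 * (∫ η, ob μ s N j C D h (fun _ => e) y (η, A) ∂(law μ) -
        ∫ η, obf μ s N δ B b j C D h (fun _ => e) y (η, A) ∂(law μ)) := by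
    intro y
    rw [int_Pm (Φ := fun ω => sr ω.2 j / 2 * (ob μ s N j C D h (fun _ => e) y ω - obf μ s N δ B b j C D h (fun _ => e) y ω))
      (fun A _ => ((i1 y A).sub (i2 y A)).const_mul (sr A j / 2))
      fun A => (((meas_sr j).div_const 2).mul ((meas_ob j C D H.mes (fun _ => e) y).sub
        (meas_obf δ B b j C D H.mes (fun _ => e) y))).comp (meas_pair A)]
    congr 1
    refine sum_congr rfl fun A _ => ?_
    rw [← integral_sub (i1 y A) (i2 y A), ← integral_const_mul]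
  simp only [e1]
  have hL0 : 0 ≤ Ex.li bb e + 2 * Ex.bd bb e := by
    have h2 := Ex.bd_nonneg H.pos e
    have h3 := Ex.li_nonneg H.pos e
    linarith
  have hp := pin_signs (N := N) (j := j) (F := fun A y => ∫ η, ob μ s N j C D h (fun _ => e) y (η, A) ∂(law μ))
    (Fl := fun A y => ∫ η, obf μ s N δ B b j C D h (fun _ => e) y (η, A) ∂(law μ)) (M := Ex.bd bb e) (c := 0)
    (e := (Ex.li bb e + 2 * Ex.bd bb e) * (3 * ε)) (fun A y => abs_int_le fun η => ob_bdd j C D H.pos H.bdd (fun _ => e) y (η, A))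
    hy hm fun A _ y hy' => ?_
  · rw [zero_div, sub_zero] at hp
    refine hp.trans (le_of_eq ?_)
    ring
  · have hy2 := mem_Ico.1 hy'
    have h0 := one_end_int (μ := μ) (s := s) hb hj H C D hC hD (fun _ => e) δ B (y := y) (by omega) (by omega) A
      (L := Ex.li bb e + 2 * Ex.bd bb e) fun _ _ => le_rfl
    have h4 : ∀ η : Env, ob μ s N j C D h (fun _ => e) (nb (sg A j) y) (η, flp j A) =
        ob μ s N j C D h (fun _ => e) (nb (sg A j) y) (η, A) := fun η => by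
      unfold ob
      rw [hbl]
    simp only [h4] at h0
    have h1 := hE.clip A y hy'
    have h2 := hE.nok A y hy'
    have h3 : (Ex.li bb e + 2 * Ex.bd bb e) * (∫ η, clip μ s N δ B b j (sg A j) y η ∂(law μ) +
        2 * ∫ η, nok μ s N (j - b) (j + b - (j - b)) (-sg A j) (nb (sg A j) y) η ∂(law μ)) ≤ (Ex.li bb e + 2 * Ex.bd bb e) * (3 * ε) :=
      mul_le_mul_of_nonneg_left (by linarith) hL0
    show |(∫ η, obf μ s N δ B b j C D h (fun _ => e) y (η, A) ∂(law μ)) -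
      ((∫ η, ob μ s N j C D h (fun _ => e) (nb (sg A j) y) (η, A) ∂(law μ)) - sr A j * 0)| ≤ _
    rw [mul_zero, sub_zero]
    exact h0.trans h3

end

end Pool.Agent.W_7d29a1_C0.Flip61
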