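import Pool.Agent.W_7d29a1_C0.FlipR4D
import Pool.Agent.W_7d29a1_C0.N25c

/-!
CURV0 (MP_7d29a1_pr), [C0], DT5 (requests of helper5): THE FLIP OF THE DOUBLE TIE. The double tie of the row `j` (micro tie in terms of the
kick, own tie of the path or of its fibre), all masses at the actual weight, under the law of the other corner `vm`, is at most the double
tie with larger exponent under the actual law, in the mean over the ends; a passenger `H` (covariant function of the path). (helper4)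
-/

set_option autoImplicit false
set_option linter.unusedSectionVars false
set_option linter.unusedVariables false

namespace Pool.Agent.W_7d29a1_C0.FlipR4.DT

open Pool.Agent.W_7d29a1_F hiding W_pos W_nonneg W_add
open Finset MeasureTheory Pool.Agent.W_7d29a1_X Pool.Agent.W_7d29a1_HZ
open Pool.Agent.W_7d29a1_Z74
open Pool.Agent.W_7d29a1_HZ.Z74
open Pool.Agent.W_7d29a1_C0.Mod92
open Pool.Agent.W_7d29a1_C0.Blk18
open Pool.Agent.W_7d29a1_C0.Pin18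
open Pool.Agent.W_7d29a1_C0.Flip61
open Pool.W7d29a1.C0 (gz gm gz_pos gz_ne gm_const gm_mono gm_nonneg gm_sub)
open Pool.W7d29a1.C0.VT31 (Mp Crs cE cV cC gc gv cE_mono cE_nonneg)
open Pool.Agent.W_7d29a1_C0.Swap57 (cE2 NM NM_of NM_of_not Mt Eqp cE2_nonneg cE2_mono cE2_mul)
open Pool.W7d29a1.C0.S1 (osc osc_nonneg)
open Pool.Agent.W_7d29a1_C0.Base5 (pW)
open Pool.Agent.W_7d29a1_C0.N25 (ow Ft Gt Gj owj)

noncomputable section

variable {μ : Measure ℝ} {s : ℝ} {N b j : ℕ}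

/-! ### The kernel -/

open Classical in
theorem NM_Mo {c al be d : ℕ} (h1 : al ≤ j - b) (h2 : j + b ≤ be) {Q : Finset (Finset ℕ)} (S S' : Px Q) :
    NM c al be d S S' = (fun R : ℕ → Prop =>
      if (∃ i, c ≤ i ∧ i ≤ al ∧ R i) ∧ ∃ i, be ≤ i ∧ i ≤ d ∧ R i then (0 : ℝ) else 1) (Mo b j S S') := by
  have e : Mt c al be d S S' ↔ (∃ i, c ≤ i ∧ i ≤ al ∧ Mo b j S S' i) ∧ ∃ i, be ≤ i ∧ i ≤ d ∧ Mo b j S S' i := by
    constructor
    · rintro ⟨⟨i, a1, a2, a3⟩, i', k1, k2, k3⟩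
      exact ⟨⟨i, a1, a2, ⟨Or.inl (a2.trans h1), a3⟩⟩, i', k1, k2, ⟨Or.inr (h2.trans k1), k3⟩⟩
    · rintro ⟨⟨i, a1, a2, a3⟩, i', k1, k2, k3⟩
      exact ⟨⟨i, a1, a2, a3.2⟩, i', k1, k2, k3.2⟩
  by_cases h3 : Mt c al be d S S'
  · rw [NM_of h3]
    exact (if_pos (e.1 h3)).symm
  · rw [NM_of_not h3]
    exact (if_neg fun h4 => h3 (e.2 h4)).symm

/-- The kernel of the missing meetings on the two sides of the open window. -/
theorem cov_NM {c al be d : ℕ} (h1 : al ≤ j - b) (h2 : j + b ≤ be) (n n' : ℕ) :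
    CovM N b j (fun _ _ ρ => NM c al be d (ρ n) (ρ n')) 1 := by
  classical
  have h := cov_Mo (N := N) (b := b) (j := j) (fun R : ℕ → Prop =>
      if (∃ i, c ≤ i ∧ i ≤ al ∧ R i) ∧ ∃ i, be ≤ i ∧ i ≤ d ∧ R i then (0 : ℝ) else 1) zero_le_one
    (fun x => by split_ifs <;> simp) n n'
  simp only [← NM_Mo h1 h2] at h
  exact h

theorem i1_iv (P : Prop) : Pool.W7d29a1.C0.S1.i1 P = iv P := by
  by_cases h : P
  · rw [Pool.W7d29a1.C0.S1.i1_of h, iv_true h]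
  · rw [Pool.W7d29a1.C0.S1.i1_not h, iv_false h]

/-! ### The events -/

section Ev

variable {δ B : ℝ} {q q' : ℝ}

/-- The micro tie. -/
theorem tsw_osc (hB : 0 ≤ B) {b₁ : ℕ} (hb : b ≤ b₁) {c d : ℕ} (hc : c ≤ j - b) (hd : j + b ≤ d) (h : q' < q) :
    TSw μ s N δ B b j (fun y ω _ w ρ => q ≤ osc w (pJ c d) (Mod92.gg μ s (Pn N y) δ B b₁ ω j) (ρ 0))
      (fun y ω _ w ρ => q' ≤ osc w (pJ c d) (Mod92.gg μ s (Pn N y) δ B b₁ ω j) (ρ 0)) (1 / (q - q') * (4 * B)) := by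
  have h1 : CovM N b j (fun y ω ρ => |Mod92.gg μ s (Pn N y) δ B b₁ ω j (ρ 0) - Mod92.gg μ s (Pn N y) δ B b₁ ω j (ρ 1)|) B :=
    cov_dgg hb δ hB
  exact TSw.thr (TRep.cE2 (K' := fun y ω z z' => |Mod92.gg μ s (Pn N y) δ B b₁ ω j z - Mod92.gg μ s (Pn N y) δ B b₁ ω j z'|) h1 hc hd 0 0) h

/-- The own tie of the path. -/
theorem tsw_ow {c d : ℕ} (hc : c ≤ j - b) (hd : j + b ≤ d) {c' al be d' : ℕ} (h1 : al ≤ j - b) (h2 : j + b ≤ be) (h : q' < q) :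
    TSw μ s N δ B b j (fun y _ _ w ρ => q ≤ ow w (pJ c d) c' al be d' (ρ 0)) (fun y _ _ w ρ => q' ≤ ow w (pJ c d) c' al be d' (ρ 0))
      (1 / (q - q') * (2 * 1)) :=
  TSw.thr (TRep.mass (K' := fun _ _ => NM c' al be d') (cov_NM h1 h2 0 1) hc hd 0) h

/-- The own tie of the fibre. -/
theorem tsw_ow2 {c d : ℕ} (hc : c ≤ j - b) (hd : j + b ≤ d) {c' al be d' : ℕ} (h1 : al ≤ j - b) (h2 : j + b ≤ be) (h : q' < q) :
    TSw μ s N δ B b j (fun y _ _ w ρ => q ≤ cE2 w (pJ c d) (NM c' al be d') (ρ 0) (ρ 0))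
      (fun y _ _ w ρ => q' ≤ cE2 w (pJ c d) (NM c' al be d') (ρ 0) (ρ 0)) (1 / (q - q') * (4 * 1)) :=
  TSw.thr (TRep.cE2 (K' := fun _ _ => NM c' al be d') (cov_NM h1 h2 0 1) hc hd 0 0) h

end Ev

/-! ### The two weights -/

theorem vm_eq (δ B : ℝ) (y : ℕ) (ω : Env × Finset ℕ) : N25.vm μ s N (Pn N y) δ B b ω j = wf μ s N δ B b j y ω := by
  funext S
  show lw μ s ω.1 N (Pn N y) S - 2 * (sg ω.2 j : ℝ) * gj μ s ω.1 δ B b j (sg ω.2 j) S =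
    lw μ s ω.1 N (Pn N y) S + (-(sg ω.2 j : ℝ) - sg ω.2 j) * gj μ s ω.1 δ B b j (sg ω.2 j) S
  ring

/-- The actual weight over the flipped one. -/
theorem wm_wf {δ B : ℝ} (hB : 0 ≤ B) (y : ℕ) (ω : Env × Finset ℕ) :
    ∃ A : Px (Pn N y) → ℝ, (∀ S, |A S| ≤ B) ∧ wm μ s N (Pn N y) ω = wf μ s N δ B b j y ω + A := by
  refine ⟨(2 * (sg ω.2 j : ℝ)) • Mod92.gg μ s (Pn N y) δ B b ω j, fun S => ?_, ?_⟩
  · show |2 * (sg ω.2 j : ℝ) * Mod92.gg μ s (Pn N y) δ B b ω j S| ≤ B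
    rw [abs_mul, abs_mul, abs_two]
    have h1 : |(sg ω.2 j : ℝ)| = 1 := by
      rcases sg_or ω.2 j with h | h <;> rw [h] <;> norm_num
    rw [h1]
    linarith [abs_gg (μ := μ) (s := s) (Q := Pn N y) (δ := δ) hB b ω j S]
  · funext S
    show lw μ s ω.1 N (Pn N y) S = lw μ s ω.1 N (Pn N y) S + (-(sg ω.2 j : ℝ) - sg ω.2 j) * gj μ s ω.1 δ B b j (sg ω.2 j) S +
      2 * (sg ω.2 j : ℝ) * gj μ s ω.1 δ B b j (sg ω.2 j) S
    ring

section Law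

variable [IsProbabilityMeasure μ] {δ B : ℝ} {y₀ n : ℕ} {θ ε : ℝ} {G : Fnl N} {M LG : ℝ}

/-- **ONE OF THE TWO FORMS**: the ties at the flipped corner, masses at the actual weight. -/
theorem flip_two (hb0 : 0 < b) (hj : j + b ≤ N) (hB : 0 ≤ B) {m m' : ℝ} {L : ℝ}
    {X Y : (y : ℕ) → Env × Finset ℕ → (Px (Pn N y) → ℝ) → Px (Pn N y) → ℝ}
    (hX : TSw μ s N δ B b j (fun y ω _ w ρ => Real.exp (-(5 * m + 4 * B)) ≤ X y ω w (ρ 0))
      (fun y ω _ w ρ => Real.exp (-(5 * m')) ≤ X y ω w (ρ 0)) L)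
    (hX1 : ∀ y ω (w A : Px (Pn N y) → ℝ), (∀ S, |A S| ≤ B) → ∀ x, X y ω (w + A) x ≤ Real.exp (4 * B) * X y ω w x)
    {L' : ℝ} (hY : TSw μ s N δ B b j (fun y ω _ w ρ => Real.exp (-(5 * m + 4 * B)) ≤ Y y ω w (ρ 0))
      (fun y ω _ w ρ => Real.exp (-(5 * m')) ≤ Y y ω w (ρ 0)) L')
    (hY1 : ∀ y ω (w A : Px (Pn N y) → ℝ), (∀ S, |A S| ≤ B) → ∀ x, Y y ω (w + A) x ≤ Real.exp (4 * B) * Y y ω w x)
    (hG : TRep μ s N δ B b j G M LG) (G0 : ∀ y ω A t ρ, 0 ≤ G y ω A (wg μ s N δ B b j y ω t) ρ)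
    (hy : 1 ≤ y₀) (hn : 1 ≤ n) (hyN : y₀ + n ≤ N) (hE : FErr2 μ s N δ B b j y₀ n θ ε) :
    avy (Ico y₀ (y₀ + n)) (fun y => ∫ ω, gm (wf μ s N δ B b j y ω) (fun x => (G y ω (flp j ω.2) (wf μ s N δ B b j y ω) fun _ => x) *
        (iv (Real.exp (-(5 * m)) ≤ X y ω (wm μ s N (Pn N y) ω) x) * iv (Real.exp (-(5 * m)) ≤ Y y ω (wm μ s N (Pn N y) ω) x))) ∂(Pm μ N)) ≤
      avy (Ico y₀ (y₀ + n)) (fun y => ∫ ω, gm (wm μ s N (Pn N y) ω) (fun x => (G y ω ω.2 (wm μ s N (Pn N y) ω) fun _ => x) *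
        (iv (Real.exp (-(5 * m')) ≤ X y ω (wm μ s N (Pn N y) ω) x) * iv (Real.exp (-(5 * m')) ≤ Y y ω (wm μ s N (Pn N y) ω) x))) ∂(Pm μ N)) +
      (2 * M / n + (3 * ((M * (L + L') + LG) + 2 * M) * θ + 4 * M * ε)) := by
  have hXY := hX.and hY
  have key := hXY.flip hb0 hj hG G0 (fun _ => zT) (K := 0) (fun _ => le_rfl) hy hn hyN hE
  rw [mul_zero, Real.exp_zero, one_mul] at key
  have hz : ∀ y ω, (zT (N := N) (b := b) (j := j)).F y ω = 0 := fun _ _ => rfl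
  simp only [hz, add_zero] at key
  have e1 : Real.exp (-(5 * m + 4 * B)) = Real.exp (-(4 * B)) * Real.exp (-(5 * m)) := by
    rw [← Real.exp_add]
    congr 1
    ring
  have e0 : Real.exp (-(4 * B)) * Real.exp (4 * B) = 1 := by
    rw [← Real.exp_add, neg_add_cancel, Real.exp_zero]
  have lift : ∀ {Z : (y : ℕ) → Env × Finset ℕ → (Px (Pn N y) → ℝ) → Px (Pn N y) → ℝ},
      (∀ y ω (w A : Px (Pn N y) → ℝ), (∀ S, |A S| ≤ B) → ∀ x, Z y ω (w + A) x ≤ Real.exp (4 * B) * Z y ω w x) →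
      ∀ y ω x, Real.exp (-(5 * m)) ≤ Z y ω (wm μ s N (Pn N y) ω) x → Real.exp (-(5 * m + 4 * B)) ≤ Z y ω (wf μ s N δ B b j y ω) x := by
    intro Z hZ y ω x h1
    obtain ⟨A, hA, e⟩ := wm_wf (μ := μ) (s := s) (N := N) (b := b) (j := j) (δ := δ) hB y ω
    rw [e] at h1
    have h2 := h1.trans (hZ y ω _ A hA x)
    have h3 := mul_le_mul_of_nonneg_left h2 (Real.exp_pos (-(4 * B))).le
    rw [← mul_assoc, e0, one_mul, ← e1] at h3
    exact h3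
  have g2 : ∀ y ω x, 0 ≤ G y ω (flp j ω.2) (wf μ s N δ B b j y ω) (fun _ => x) ∧
      G y ω (flp j ω.2) (wf μ s N δ B b j y ω) (fun _ => x) ≤ M := fun y ω x => by
    have h5 := G0 y ω (flp j ω.2) (-(sg ω.2 j : ℝ) - sg ω.2 j) fun _ => x
    have h6 := hG.bdd y ω (flp j ω.2) (-(sg ω.2 j : ℝ) - sg ω.2 j) fun _ => x
    rw [← wf_eq] at h5 h6
    exact ⟨h5, (le_abs_self _).trans h6⟩
  -- the left side
  have kL : ∀ y ∈ Ico y₀ (y₀ + n), ∫ ω, gm (wf μ s N δ B b j y ω) (fun x => (G y ω (flp j ω.2) (wf μ s N δ B b j y ω) fun _ => x) *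
        (iv (Real.exp (-(5 * m)) ≤ X y ω (wm μ s N (Pn N y) ω) x) * iv (Real.exp (-(5 * m)) ≤ Y y ω (wm μ s N (Pn N y) ω) x))) ∂(Pm μ N) ≤
      ∫ ω, gm (wf μ s N δ B b j y ω) (fun x => iv (Real.exp (-(5 * m + 4 * B)) ≤ X y ω (wf μ s N δ B b j y ω) x ∧
        Real.exp (-(5 * m + 4 * B)) ≤ Y y ω (wf μ s N δ B b j y ω) x) * G y ω (flp j ω.2) (wf μ s N δ B b j y ω) fun _ => x) ∂(Pm μ N) := by
    intro y hy'
    have n1 : Nonempty (Px (Pn N y)) := ne_Pn (by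
      rw [mem_Ico] at hy'
      omega)
    have hw : ∀ S : Px (Pn N y), Measurable fun ω : Env × Finset ℕ => wf μ s N δ B b j y ω S := fun S => by
      refine meas_om fun A => ?_
      show Measurable fun η : Env => lw μ s η N (Pn N y) S + (-(sg A j : ℝ) - sg A j) * gj μ s η δ B b j (sg A j) S
      exact (meas_lw S).add ((meas_gj δ B b j (sg A j) S).const_mul _)
    refine integral_mono_of_nonneg (Filter.Eventually.of_forall fun ω => gm_nonneg _ fun x =>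
      mul_nonneg (g2 y ω x).1 (mul_nonneg (iv_nonneg _) (iv_nonneg _))) (int_bdd (meas_gm hw fun x => ?_) (M := M) fun ω => ?_)
      (Filter.Eventually.of_forall fun ω => gm_mono _ fun x => ?_)
    · refine Measurable.mul ?_ (hG.meas_wf y fun _ => x)
      exact meas_iv (hXY.2.1 (fun A => flp j A) (fun A => -(sg A j : ℝ) - sg A j) y fun _ => x)
    · refine Ex.gm_bdd _ fun x => ?_
      rw [abs_mul, abs_of_nonneg (g2 y ω x).1]
      calc |iv _| * _ ≤ 1 * M := mul_le_mul (abs_iv _) (g2 y ω x).2 (g2 y ω x).1 zero_le_one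
        _ = M := one_mul M
    · rw [mul_comm]
      refine mul_le_mul_of_nonneg_right ?_ (g2 y ω x).1
      rw [iv_and]
      exact mul_le_mul (iv_mono (lift hX1 y ω x)) (iv_mono (lift hY1 y ω x)) (iv_nonneg _) (iv_nonneg _)
  have a1 := mul_le_mul_of_nonneg_left (sum_le_sum kL) (show (0 : ℝ) ≤ ((Ico y₀ (y₀ + n)).card : ℝ)⁻¹ by positivity)
  unfold avy at key ⊢
  refine a1.trans (key.trans (le_of_eq ?_))
  congr 2
  refine sum_congr rfl fun y _ => integral_congr_ae (Filter.Eventually.of_forall fun ω => ?_)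
  show gm _ _ = gm _ _
  congr 1
  funext x
  rw [iv_and]
  ring

/-! ### The double tie -/

theorem thr_half {a a' : ℝ} (h : a + 1 ≤ a') : Real.exp (-a') ≤ Real.exp (-a) / 2 := by
  have h1 : Real.exp (-a') ≤ Real.exp (-a) * Real.exp (-1) := by
    rw [← Real.exp_add]
    exact Real.exp_le_exp.2 (by linarith)
  have h2 : Real.exp (-1) ≤ 1 / 2 := by
    rw [Real.exp_neg, ← one_div]
    refine one_div_le_one_div_of_le two_pos ?_
    have := Real.add_one_le_exp (1 : ℝ)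
    linarith
  calc Real.exp (-a') ≤ Real.exp (-a) * Real.exp (-1) := h1
    _ ≤ Real.exp (-a) * (1 / 2) := mul_le_mul_of_nonneg_left h2 (Real.exp_pos _).le
    _ = _ := by ring

theorem thr_lip {a a' K : ℝ} (h : a + 1 ≤ a') (hK : 0 ≤ K) : 1 / (Real.exp (-a) - Real.exp (-a')) * K ≤ 2 * Real.exp a * K := by
  refine mul_le_mul_of_nonneg_right ?_ hK
  have h1 := thr_half h
  have h2 := Real.exp_pos (-a)
  have h3 : Real.exp a * Real.exp (-a) = 1 := by rw [← Real.exp_add, add_neg_cancel, Real.exp_zero]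
  have h4 := Real.exp_pos a
  rw [div_le_iff₀ (by linarith)]
  nlinarith

theorem thr_lt {a a' : ℝ} (h : a + 1 ≤ a') : Real.exp (-a') < Real.exp (-a) := Real.exp_lt_exp.2 (by linarith)

variable {b₁ b' : ℕ}

/-- **(P2) THE FLIP OF THE DOUBLE TIE `Ft`** (own tie of the path): factor `G` of the class `TRep`. -/
theorem flip_Ft (hb0 : 0 < b) (hj : j + b ≤ N) (hB : 0 ≤ B) (hb1 : b ≤ b₁) (hb' : b ≤ b') {m m' : ℝ} (hm : 5 * m + 4 * B + 1 ≤ 5 * m')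
    (hG : TRep μ s N δ B b j G M LG) (G0 : ∀ y ω A t ρ, 0 ≤ G y ω A (wg μ s N δ B b j y ω t) ρ)
    (hy : 1 ≤ y₀) (hn : 1 ≤ n) (hyN : y₀ + n ≤ N) (hE : FErr2 μ s N δ B b j y₀ n θ ε) :
    avy (Ico y₀ (y₀ + n)) (fun y => ∫ ω, gm (wf μ s N δ B b j y ω) (fun x => (G y ω (flp j ω.2) (wf μ s N δ B b j y ω) fun _ => x) *
        Ft (wm μ s N (Pn N y) ω) (pW b' j) (j - b₁) (j - b) (j + b) (j + b₁) (Mod92.gg μ s (Pn N y) δ B b ω j) m x) ∂(Pm μ N)) ≤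
      avy (Ico y₀ (y₀ + n)) (fun y => ∫ ω, gm (wm μ s N (Pn N y) ω) (fun x => (G y ω ω.2 (wm μ s N (Pn N y) ω) fun _ => x) *
        Ft (wm μ s N (Pn N y) ω) (pW b' j) (j - b₁) (j - b) (j + b) (j + b₁) (Mod92.gg μ s (Pn N y) δ B b ω j) m' x) ∂(Pm μ N)) +
      (2 * M / n + (3 * ((M * (2 * Real.exp (5 * m + 4 * B) * (4 * B + 2)) + LG) + 2 * M) * θ + 4 * M * ε)) := by
  have h1 : TSw μ s N δ B b j (fun y ω _ w ρ => Real.exp (-(5 * m + 4 * B)) ≤ osc w (pJ (j - b₁) (j + b₁)) (Mod92.gg μ s (Pn N y) δ B b ω j) (ρ 0))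
      (fun y ω _ w ρ => Real.exp (-(5 * m')) ≤ osc w (pJ (j - b₁) (j + b₁)) (Mod92.gg μ s (Pn N y) δ B b ω j) (ρ 0))
      (2 * Real.exp (5 * m + 4 * B) * (4 * B)) :=
    (tsw_osc hB le_rfl (by omega) (by omega) (thr_lt hm)).mono (thr_lip hm (by positivity))
  have h2 : TSw μ s N δ B b j (fun y ω _ w ρ => Real.exp (-(5 * m + 4 * B)) ≤ ow w (pW b' j) (j - b₁) (j - b) (j + b) (j + b₁) (ρ 0))
      (fun y ω _ w ρ => Real.exp (-(5 * m')) ≤ ow w (pW b' j) (j - b₁) (j - b) (j + b) (j + b₁) (ρ 0))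
      (2 * Real.exp (5 * m + 4 * B) * (2 * 1)) :=
    (tsw_ow (c := j - b') (d := j + b') (by omega) (by omega) le_rfl le_rfl (thr_lt hm)).mono (thr_lip hm (by norm_num))
  have key := flip_two (X := fun y ω w x => osc w (pJ (j - b₁) (j + b₁)) (Mod92.gg μ s (Pn N y) δ B b ω j) x)
    (Y := fun y ω w x => ow w (pW b' j) (j - b₁) (j - b) (j + b) (j + b₁) x) hb0 hj hB h1
    (fun y ω w A hA x => by
      have n1 : Nonempty (Px (Pn N y)) := ⟨x⟩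
      exact Pool.W7d29a1.C0.R43.cE2_tilt hA _ (fun _ _ => abs_nonneg _) x x) h2
    (fun y ω w A hA x => by
      have n1 : Nonempty (Px (Pn N y)) := ⟨x⟩
      refine (Pool.W7d29a1.C0.R43.cE_tilt hA _ (fun z => Swap57.NM_nonneg _ _ _ _ x z) x).trans ?_
      refine mul_le_mul_of_nonneg_right (Real.exp_le_exp.2 (by linarith)) (cE_nonneg _ _ (fun z => Swap57.NM_nonneg _ _ _ _ x z) _))
    hG G0 hy hn hyN hE
  simp only [← i1_iv] at key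
  refine key.trans (le_of_eq ?_)
  congr 1
  ring

/-- **(P2) THE FLIP OF THE DOUBLE TIE**, own tie of the fibre. -/
theorem flip_Fp (hb0 : 0 < b) (hj : j + b ≤ N) (hB : 0 ≤ B) (hb1 : b ≤ b₁) (hb' : b ≤ b') {m m' : ℝ} (hm : 5 * m + 4 * B + 1 ≤ 5 * m')
    (hG : TRep μ s N δ B b j G M LG) (G0 : ∀ y ω A t ρ, 0 ≤ G y ω A (wg μ s N δ B b j y ω t) ρ)
    (hy : 1 ≤ y₀) (hn : 1 ≤ n) (hyN : y₀ + n ≤ N) (hE : FErr2 μ s N δ B b j y₀ n θ ε) :
    avy (Ico y₀ (y₀ + n)) (fun y => ∫ ω, gm (wf μ s N δ B b j y ω) (fun x => (G y ω (flp j ω.2) (wf μ s N δ B b j y ω) fun _ => x) *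
        (Pool.W7d29a1.C0.S1.i1 (Real.exp (-(5 * m)) ≤ cE2 (wm μ s N (Pn N y) ω) (pW b' j) (NM (j - b₁) (j - b) (j + b) (j + b₁)) x x) *
        Pool.W7d29a1.C0.S1.i1 (Real.exp (-(5 * m)) ≤ osc (wm μ s N (Pn N y) ω) (pJ (j - b₁) (j + b₁)) (Mod92.gg μ s (Pn N y) δ B b ω j) x)))
        ∂(Pm μ N)) ≤
      avy (Ico y₀ (y₀ + n)) (fun y => ∫ ω, gm (wm μ s N (Pn N y) ω) (fun x => (G y ω ω.2 (wm μ s N (Pn N y) ω) fun _ => x) *
        (Pool.W7d29a1.C0.S1.i1 (Real.exp (-(5 * m')) ≤ cE2 (wm μ s N (Pn N y) ω) (pW b' j) (NM (j - b₁) (j - b) (j + b) (j + b₁)) x x) *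
        Pool.W7d29a1.C0.S1.i1 (Real.exp (-(5 * m')) ≤ osc (wm μ s N (Pn N y) ω) (pJ (j - b₁) (j + b₁)) (Mod92.gg μ s (Pn N y) δ B b ω j) x)))
        ∂(Pm μ N)) +
      (2 * M / n + (3 * ((M * (2 * Real.exp (5 * m + 4 * B) * (4 * B + 4)) + LG) + 2 * M) * θ + 4 * M * ε)) := by
  have h1 : TSw μ s N δ B b j (fun y ω _ w ρ => Real.exp (-(5 * m + 4 * B)) ≤ osc w (pJ (j - b₁) (j + b₁)) (Mod92.gg μ s (Pn N y) δ B b ω j) (ρ 0))
      (fun y ω _ w ρ => Real.exp (-(5 * m')) ≤ osc w (pJ (j - b₁) (j + b₁)) (Mod92.gg μ s (Pn N y) δ B b ω j) (ρ 0))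
      (2 * Real.exp (5 * m + 4 * B) * (4 * B)) :=
    (tsw_osc hB le_rfl (by omega) (by omega) (thr_lt hm)).mono (thr_lip hm (by positivity))
  have h2 : TSw μ s N δ B b j (fun y ω _ w ρ => Real.exp (-(5 * m + 4 * B)) ≤ cE2 w (pW b' j) (NM (j - b₁) (j - b) (j + b) (j + b₁)) (ρ 0) (ρ 0))
      (fun y ω _ w ρ => Real.exp (-(5 * m')) ≤ cE2 w (pW b' j) (NM (j - b₁) (j - b) (j + b) (j + b₁)) (ρ 0) (ρ 0))
      (2 * Real.exp (5 * m + 4 * B) * (4 * 1)) :=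
    (tsw_ow2 (c := j - b') (d := j + b') (by omega) (by omega) le_rfl le_rfl (thr_lt hm)).mono (thr_lip hm (by norm_num))
  have key := flip_two (X := fun y ω w x => cE2 w (pW b' j) (NM (j - b₁) (j - b) (j + b) (j + b₁)) x x)
    (Y := fun y ω w x => osc w (pJ (j - b₁) (j + b₁)) (Mod92.gg μ s (Pn N y) δ B b ω j) x) hb0 hj hB h2
    (fun y ω w A hA x => by
      have n1 : Nonempty (Px (Pn N y)) := ⟨x⟩
      exact Pool.W7d29a1.C0.R43.cE2_tilt hA _ (fun z z' => Swap57.NM_nonneg _ _ _ _ z z') x x) h1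
    (fun y ω w A hA x => by
      have n1 : Nonempty (Px (Pn N y)) := ⟨x⟩
      exact Pool.W7d29a1.C0.R43.cE2_tilt hA _ (fun _ _ => abs_nonneg _) x x)
    hG G0 hy hn hyN hE
  simp only [← i1_iv] at key
  refine key.trans (le_of_eq ?_)
  congr 1
  ring

/-- The two parts of a mean. -/
theorem int_two {W : (y : ℕ) → Env × Finset ℕ → Px (Pn N y) → ℝ} (hW : ∀ y S, Measurable fun ω => W y ω S)
    {F G : (y : ℕ) → Env × Finset ℕ → Px (Pn N y) → ℝ} {M : ℝ} (mF : ∀ y x, Measurable fun ω => F y ω x)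
    (mG : ∀ y x, Measurable fun ω => G y ω x) (bF : ∀ y ω x, |F y ω x| ≤ M) (bG : ∀ y ω x, |G y ω x| ≤ M) (hyN : y₀ + n ≤ N) :
    avy (Ico y₀ (y₀ + n)) (fun y => ∫ ω, gm (W y ω) (fun x => F y ω x + G y ω x) ∂(Pm μ N)) =
      avy (Ico y₀ (y₀ + n)) (fun y => ∫ ω, gm (W y ω) (F y ω) ∂(Pm μ N)) + avy (Ico y₀ (y₀ + n)) (fun y => ∫ ω, gm (W y ω) (G y ω) ∂(Pm μ N)) := by
  unfold avy
  rw [← mul_add, ← sum_add_distrib]
  congr 1
  refine sum_congr rfl fun y hy => ?_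
  have n1 : Nonempty (Px (Pn N y)) := ne_Pn (by
    rw [mem_Ico] at hy
    omega)
  rw [← integral_add (int_bdd (meas_gm (hW y) (mF y)) fun ω => Ex.gm_bdd _ (bF y ω)) (int_bdd (meas_gm (hW y) (mG y)) fun ω => Ex.gm_bdd _ (bG y ω))]
  refine integral_congr_ae (Filter.Eventually.of_forall fun ω => ?_)
  exact Pool.W7d29a1.C0.gm_add _ _ _

/-- **(P2) THE FLIP OF THE DOUBLE TIE `Gj`**, factor `G` of the class `TRep`. -/
theorem flip_Gj (hb0 : 0 < b) (hj : j + b ≤ N) (hB : 0 ≤ B) (hb1 : b ≤ b₁) (hb' : b ≤ b') {m m' : ℝ} (hm : 5 * m + 4 * B + 1 ≤ 5 * m')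
    (hG : TRep μ s N δ B b j G M LG) (G0 : ∀ y ω A t ρ, 0 ≤ G y ω A (wg μ s N δ B b j y ω t) ρ)
    (hy : 1 ≤ y₀) (hn : 1 ≤ n) (hyN : y₀ + n ≤ N) (hE : FErr2 μ s N δ B b j y₀ n θ ε) :
    avy (Ico y₀ (y₀ + n)) (fun y => ∫ ω, gm (wf μ s N δ B b j y ω) (fun x => (G y ω (flp j ω.2) (wf μ s N δ B b j y ω) fun _ => x) *
        Gj μ s N (Pn N y) δ B b b₁ b' m ω j x) ∂(Pm μ N)) ≤
      avy (Ico y₀ (y₀ + n)) (fun y => ∫ ω, gm (wm μ s N (Pn N y) ω) (fun x => (G y ω ω.2 (wm μ s N (Pn N y) ω) fun _ => x) *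
        Gj μ s N (Pn N y) δ B b b₁ b' m' ω j x) ∂(Pm μ N)) +
      (4 * M / n + (3 * ((M * (2 * Real.exp (5 * m + 4 * B) * (8 * B + 6)) + 2 * LG) + 4 * M) * θ + 8 * M * ε)) := by
  have k1 := flip_Ft hb0 hj hB hb1 hb' hm hG G0 hy hn hyN hE
  have k2 := flip_Fp hb0 hj hB hb1 hb' hm hG G0 hy hn hyN hE
  have mo : ∀ (y : ℕ) (x : Px (Pn N y)), Measurable fun ω =>
      osc (wm μ s N (Pn N y) ω) (pJ (j - b₁) (j + b₁)) (Mod92.gg μ s (Pn N y) δ B b ω j) x := fun y x =>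
    (TRep.cE2 (μ := μ) (s := s) (δ := δ) (B := B) (K' := fun y ω z z' => |Mod92.gg μ s (Pn N y) δ B b ω j z - Mod92.gg μ s (Pn N y) δ B b ω j z'|)
      (cov_dgg (le_refl b) δ hB) (show j - b₁ ≤ j - b by omega) (show j + b ≤ j + b₁ by omega) 0 0).meas_wm y fun _ => x
  have mow : ∀ (y : ℕ) (x : Px (Pn N y)), Measurable fun ω => ow (wm μ s N (Pn N y) ω) (pW b' j) (j - b₁) (j - b) (j + b) (j + b₁) x :=
    fun y x => (TRep.mass (μ := μ) (s := s) (δ := δ) (B := B) (K' := fun y _ => NM (j - b₁) (j - b) (j + b) (j + b₁))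
      (cov_NM (N := N) (le_refl (j - b)) (le_refl (j + b)) 0 1) (show j - b' ≤ j - b by omega) (show j + b ≤ j + b' by omega) 0).meas_wm y fun _ => x
  have mow2 : ∀ (y : ℕ) (x : Px (Pn N y)), Measurable fun ω => cE2 (wm μ s N (Pn N y) ω) (pW b' j) (NM (j - b₁) (j - b) (j + b) (j + b₁)) x x :=
    fun y x => (TRep.cE2 (μ := μ) (s := s) (δ := δ) (B := B) (K' := fun y _ => NM (j - b₁) (j - b) (j + b) (j + b₁))
      (cov_NM (N := N) (le_refl (j - b)) (le_refl (j + b)) 0 1) (show j - b' ≤ j - b by omega) (show j + b ≤ j + b' by omega) 0 0).meas_wm y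
        fun _ => x
  have mFt : ∀ (m : ℝ) (y : ℕ) (x : Px (Pn N y)), Measurable fun ω =>
      Ft (wm μ s N (Pn N y) ω) (pW b' j) (j - b₁) (j - b) (j + b) (j + b₁) (Mod92.gg μ s (Pn N y) δ B b ω j) m x := fun m y x => by
    unfold Ft
    simp only [i1_iv]
    exact (meas_iv (measurableSet_le measurable_const (mo y x))).mul (meas_iv (measurableSet_le measurable_const (mow y x)))
  have mFp : ∀ (m : ℝ) (y : ℕ) (x : Px (Pn N y)), Measurable fun ω =>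
      Pool.W7d29a1.C0.S1.i1 (Real.exp (-(5 * m)) ≤ cE2 (wm μ s N (Pn N y) ω) (pW b' j) (NM (j - b₁) (j - b) (j + b) (j + b₁)) x x) *
        Pool.W7d29a1.C0.S1.i1 (Real.exp (-(5 * m)) ≤ osc (wm μ s N (Pn N y) ω) (pJ (j - b₁) (j + b₁)) (Mod92.gg μ s (Pn N y) δ B b ω j) x) :=
    fun m y x => by
    simp only [i1_iv]
    exact (meas_iv (measurableSet_le measurable_const (mow2 y x))).mul (meas_iv (measurableSet_le measurable_const (mo y x)))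
  have i01 : ∀ P : Prop, |Pool.W7d29a1.C0.S1.i1 P| ≤ 1 := fun P => by
    rw [i1_iv]
    exact abs_iv P
  have ii : ∀ P P' : Prop, |Pool.W7d29a1.C0.S1.i1 P * Pool.W7d29a1.C0.S1.i1 P'| ≤ 1 := fun P P' => by
    rw [abs_mul]
    exact mul_le_one₀ (i01 P) (abs_nonneg _) (i01 P')
  have hM0 := hG.nonneg.1
  have bd : ∀ {u v : ℝ}, |u| ≤ M → |v| ≤ 1 → |u * v| ≤ M := fun {u v} hu hv => by
    rw [abs_mul]
    calc |u| * |v| ≤ M * 1 := mul_le_mul hu hv (abs_nonneg _) hM0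
      _ = M := mul_one M
  have hwf : ∀ (y : ℕ) (S : Px (Pn N y)), Measurable fun ω : Env × Finset ℕ => wf μ s N δ B b j y ω S := fun y S => by
    refine meas_om fun A => ?_
    show Measurable fun η : Env => lw μ s η N (Pn N y) S + (-(sg A j : ℝ) - sg A j) * gj μ s η δ B b j (sg A j) S
    exact (meas_lw S).add ((meas_gj δ B b j (sg A j) S).const_mul _)
  have hwm : ∀ (y : ℕ) (S : Px (Pn N y)), Measurable fun ω : Env × Finset ℕ => wm μ s N (Pn N y) ω S := fun y S => by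
    refine meas_om fun A => ?_
    exact meas_lw S
  have gf : ∀ (y : ℕ) ω (x : Px (Pn N y)), |G y ω (flp j ω.2) (wf μ s N δ B b j y ω) fun _ => x| ≤ M := fun y ω x => by
    have h6 := hG.bdd y ω (flp j ω.2) (-(sg ω.2 j : ℝ) - sg ω.2 j) fun _ => x
    rwa [← wf_eq] at h6
  have gmm : ∀ (y : ℕ) ω (x : Px (Pn N y)), |G y ω ω.2 (wm μ s N (Pn N y) ω) fun _ => x| ≤ M := fun y ω x => by
    have h6 := hG.bdd y ω ω.2 0 fun _ => x
    rwa [wg_zero] at h6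
  have s1 := int_two (μ := μ) (y₀ := y₀) (n := n) hwf (M := M)
    (F := fun y ω x => (G y ω (flp j ω.2) (wf μ s N δ B b j y ω) fun _ => x) *
      Ft (wm μ s N (Pn N y) ω) (pW b' j) (j - b₁) (j - b) (j + b) (j + b₁) (Mod92.gg μ s (Pn N y) δ B b ω j) m x)
    (G := fun y ω x => (G y ω (flp j ω.2) (wf μ s N δ B b j y ω) fun _ => x) *
      (Pool.W7d29a1.C0.S1.i1 (Real.exp (-(5 * m)) ≤ cE2 (wm μ s N (Pn N y) ω) (pW b' j) (NM (j - b₁) (j - b) (j + b) (j + b₁)) x x) *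
        Pool.W7d29a1.C0.S1.i1 (Real.exp (-(5 * m)) ≤ osc (wm μ s N (Pn N y) ω) (pJ (j - b₁) (j + b₁)) (Mod92.gg μ s (Pn N y) δ B b ω j) x)))
    (fun y x => (hG.meas_wf y fun _ => x).mul (mFt m y x)) (fun y x => (hG.meas_wf y fun _ => x).mul (mFp m y x))
    (fun y ω x => bd (gf y ω x) (ii _ _)) (fun y ω x => bd (gf y ω x) (ii _ _)) hyN
  have s2 := int_two (μ := μ) (y₀ := y₀) (n := n) hwm (M := M)
    (F := fun y ω x => (G y ω ω.2 (wm μ s N (Pn N y) ω) fun _ => x) *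
      Ft (wm μ s N (Pn N y) ω) (pW b' j) (j - b₁) (j - b) (j + b) (j + b₁) (Mod92.gg μ s (Pn N y) δ B b ω j) m' x)
    (G := fun y ω x => (G y ω ω.2 (wm μ s N (Pn N y) ω) fun _ => x) *
      (Pool.W7d29a1.C0.S1.i1 (Real.exp (-(5 * m')) ≤ cE2 (wm μ s N (Pn N y) ω) (pW b' j) (NM (j - b₁) (j - b) (j + b) (j + b₁)) x x) *
        Pool.W7d29a1.C0.S1.i1 (Real.exp (-(5 * m')) ≤ osc (wm μ s N (Pn N y) ω) (pJ (j - b₁) (j + b₁)) (Mod92.gg μ s (Pn N y) δ B b ω j) x)))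
    (fun y x => (hG.meas_wm y fun _ => x).mul (mFt m' y x)) (fun y x => (hG.meas_wm y fun _ => x).mul (mFp m' y x))
    (fun y ω x => bd (gmm y ω x) (ii _ _)) (fun y ω x => bd (gmm y ω x) (ii _ _)) hyN
  have e0 : ∀ (a : ℝ) (m : ℝ) (y : ℕ) ω (x : Px (Pn N y)), a * Gj μ s N (Pn N y) δ B b b₁ b' m ω j x =
      a * Ft (wm μ s N (Pn N y) ω) (pW b' j) (j - b₁) (j - b) (j + b) (j + b₁) (Mod92.gg μ s (Pn N y) δ B b ω j) m x +
      a * (Pool.W7d29a1.C0.S1.i1 (Real.exp (-(5 * m)) ≤ cE2 (wm μ s N (Pn N y) ω) (pW b' j) (NM (j - b₁) (j - b) (j + b) (j + b₁)) x x) *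
        Pool.W7d29a1.C0.S1.i1 (Real.exp (-(5 * m)) ≤ osc (wm μ s N (Pn N y) ω) (pJ (j - b₁) (j + b₁)) (Mod92.gg μ s (Pn N y) δ B b ω j) x)) :=
    fun a m y ω x => mul_add _ _ _
  simp only [e0]
  rw [s1, s2]
  refine (add_le_add k1 k2).trans (le_of_eq ?_)
  ring

/-- **THE REQUEST OF helper5**: the second term of `row_N25e`, in the mean over the ends. -/
theorem flip_dt4 (hb0 : 0 < b) (hj : j + b ≤ N) (hB : 0 ≤ B) (hb1 : b ≤ b₁) (hb' : b ≤ b') {m m' : ℝ} (hm : 5 * m + 4 * B + 1 ≤ 5 * m')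
    {H : (y : ℕ) → Env × Finset ℕ → Px (Pn N y) → ℝ} (hH : Cov1 N b j H M) (H0 : ∀ y ω x, 0 ≤ H y ω x)
    (hy : 1 ≤ y₀) (hn : 1 ≤ n) (hyN : y₀ + n ≤ N) (hE : FErr2 μ s N δ B b j y₀ n θ ε) :
    avy (Ico y₀ (y₀ + n)) (fun y => ∫ ω, gm (N25.vm μ s N (Pn N y) δ B b ω j) (fun x => H y ω x *
        Gj μ s N (Pn N y) δ B b b₁ b' m ω j x) ∂(Pm μ N)) ≤
      avy (Ico y₀ (y₀ + n)) (fun y => ∫ ω, gm (wm μ s N (Pn N y) ω) (fun x => H y ω x *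
        Gj μ s N (Pn N y) δ B b b₁ b' m' ω j x) ∂(Pm μ N)) +
      (4 * M / n + (3 * (M * (2 * Real.exp (5 * m + 4 * B) * (8 * B + 6)) + 4 * M) * θ + 8 * M * ε)) := by
  have hG : TRep μ s N δ B b j (fun y ω _ _ ρ => H y ω (ρ 0)) M 0 := TRep.fn (CovM.of1 hH 0)
  have key := flip_Gj hb0 hj hB hb1 hb' hm hG (fun y ω _ _ ρ => H0 y ω (ρ 0)) hy hn hyN hE
  simp only [vm_eq]
  refine key.trans (le_of_eq ?_)
  congr 1
  ring

end Law

end

end Pool.Agent.W_7d29a1_C0.FlipR4.DT
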