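import Pool.Agent.W_7d29a1_C0.FlipDT4
import Pool.Agent.W_7d29a1_C0.FlipC4C

/-!
CURV0 (MP_7d29a1_pr), [C0], DT5: THE FLIP OF THE DOUBLE TIE AT THE CONCRETE FRAME. (helper4)
-/

set_option autoImplicit false
set_option linter.unusedSectionVars false
set_option linter.unusedVariables false

namespace Pool.Agent.W_7d29a1_C0.FlipR4.DT

open Pool.Agent.W_7d29a1_F hiding W_pos W_nonneg W_add
open Finset MeasureTheory Filter Topology Pool.Agent.W_7d29a1_X Pool.Agent.W_7d29a1_HZ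
open Pool.Agent.W_7d29a1_Z74
open Pool.Agent.W_7d29a1_HZ.Z74
open Pool.Agent.W_7d29a1_HS (In wd)
open Pool.Agent.W_7d29a1_C0.Mod92
open Pool.Agent.W_7d29a1_C0.Blk18
open Pool.Agent.W_7d29a1_C0.Pin18
open Pool.Agent.W_7d29a1_C0.Flip61
open Pool.Agent.W_7d29a1_C0.Frm33
open Pool.W7d29a1.C0 (gz gm gz_pos gz_ne gm_const gm_mono gm_nonneg gm_sub)
open Pool.W7d29a1.C0.VT31 (Mp Crs cE cV cC gc gv cE_mono cE_nonneg)
open Pool.Agent.W_7d29a1_C0.FlipR4.C4 (fl4_33 ev_num4 ev_exp4)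
open Pool.Agent.W_7d29a1_C0.N25 (Gj)

noncomputable section

/-- The arithmetic of the error of `TSw.flip` with a passenger. -/
theorem err_le {M L x θ ε n : ℝ} {Mn : ℕ} (hM : 0 ≤ M) (hL : L ≤ 1 / 3 * (M * Real.exp x)) (hn : 16 ≤ n) (hMn : n ^ 6 = Mn)
    (hθ0 : 0 ≤ θ) (hθ : θ * Real.exp x ≤ (n ^ 8)⁻¹) (hε : ε ≤ (n ^ 8)⁻¹) :
    4 * M / Mn + (3 * L * θ + 8 * M * ε) ≤ M * (n ^ 5)⁻¹ := by
  have hn0 : 0 < n := by linarith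
  have k1 : 4 * M / (Mn : ℝ) ≤ 1 / 4 * (M * (n ^ 5)⁻¹) := by
    rw [← hMn, div_le_iff₀ (by positivity)]
    have h1 : 1 / 4 * (M * (n ^ 5)⁻¹) * n ^ 6 = 1 / 4 * M * n := by
      field_simp
    rw [h1]
    nlinarith
  have k8 : (n ^ 8)⁻¹ ≤ 1 / 4096 * (n ^ 5)⁻¹ := by
    have h1 : (n ^ 8)⁻¹ = (n ^ 3)⁻¹ * (n ^ 5)⁻¹ := by
      rw [← mul_inv]
      congr 1
      ring
    rw [h1]
    refine mul_le_mul_of_nonneg_right ?_ (by positivity)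
    rw [one_div]
    refine inv_anti₀ (by norm_num) ?_
    calc (4096 : ℝ) = 16 ^ 3 := by norm_num
      _ ≤ n ^ 3 := pow_le_pow_left₀ (by norm_num) hn 3
  have k2 : 3 * L * θ ≤ M * (n ^ 8)⁻¹ := by
    have h1 := mul_le_mul_of_nonneg_right (mul_le_mul_of_nonneg_left hL (show (0 : ℝ) ≤ 3 by norm_num)) hθ0
    refine h1.trans ?_
    calc 3 * (1 / 3 * (M * Real.exp x)) * θ = M * (θ * Real.exp x) := by ring
      _ ≤ M * (n ^ 8)⁻¹ := mul_le_mul_of_nonneg_left hθ hM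
  have k3 : 8 * M * ε ≤ 8 * M * (n ^ 8)⁻¹ := mul_le_mul_of_nonneg_left hε (by positivity)
  have k4 := mul_le_mul_of_nonneg_left k8 hM
  have k5 : 0 ≤ M * (n ^ 5)⁻¹ := by positivity
  linarith

theorem exp_fac {B m x : ℝ} (hB : 0 ≤ B) (hB2 : 24 * B ≤ x) (hm : 10 * m ≤ x) (hx : 60 ≤ Real.exp (x / 4)) :
    2 * Real.exp (5 * m + 4 * B) * (8 * B + 6) + 4 ≤ 1 / 3 * Real.exp x := by
  have x0 : 0 ≤ x := by linarith
  have h2 : 8 * B + 6 ≤ 8 * Real.exp B := by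
    have := Real.add_one_le_exp B
    linarith
  have h3 : Real.exp (5 * m + 4 * B) * Real.exp B ≤ Real.exp (3 / 4 * x) := by
    rw [← Real.exp_add]
    exact Real.exp_le_exp.2 (by linarith)
  have h4 : (1 : ℝ) ≤ Real.exp (3 / 4 * x) := Real.one_le_exp (by linarith)
  have h5 : Real.exp x = Real.exp (x / 4) * Real.exp (3 / 4 * x) := by
    rw [← Real.exp_add]
    congr 1
    ring
  have h6 : 2 * Real.exp (5 * m + 4 * B) * (8 * B + 6) ≤ 16 * Real.exp (3 / 4 * x) := by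
    calc 2 * Real.exp (5 * m + 4 * B) * (8 * B + 6) ≤ 2 * Real.exp (5 * m + 4 * B) * (8 * Real.exp B) :=
          mul_le_mul_of_nonneg_left h2 (by positivity)
      _ = 16 * (Real.exp (5 * m + 4 * B) * Real.exp B) := by ring
      _ ≤ 16 * Real.exp (3 / 4 * x) := mul_le_mul_of_nonneg_left h3 (by norm_num)
  rw [h5]
  have h7 := mul_le_mul_of_nonneg_right hx (Real.exp_pos (3 / 4 * x)).le
  linarith

variable {μ : Measure ℝ} {s : ℝ} [IsProbabilityMeasure μ]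

/-- **THE FLIP OF THE DOUBLE TIE AT THE FRAME**: `b₀` = the base of the kick and of the flip, `[j - b, j + b)` the window of the micro tie,
`[j - b', j + b')` the large window, `m`, `m'` the levels, `H` a passenger. -/
theorem flip_dt4_33 {c C : ℝ} {n₀ : ℕ} (h : In μ s c C n₀) {K : ℕ} (hK : 32 ≤ K) {κ : ℝ} (hκ : 0 < κ) :
    ∃ c₃ : ℝ, 0 < c₃ ∧ ∀ β : ℝ, 0 < β → ∃ γ₀ : ℝ, 0 < γ₀ ∧ ∀ γ : ℝ, 0 < γ → γ ≤ γ₀ →
      ∀ᶠ k : ℕ in atTop, ∀ B : ℝ, B33 β k ≤ B → 24 * B ≤ ((2 ^ k : ℕ) : ℝ) ^ c₃ →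
        ∀ b₀ j : ℕ, ((2 ^ k : ℕ) : ℝ) ^ κ ≤ b₀ → b₀ ≤ 2 ^ k → b₀ ≤ j → j + b₀ ≤ L33 K k → ∀ b b' : ℕ, b₀ ≤ b → b₀ ≤ b' →
        ∀ m m' : ℝ, 5 * m + 4 * B + 1 ≤ 5 * m' → 10 * m ≤ ((2 ^ k : ℕ) : ℝ) ^ c₃ →
        ∀ (H : (y : ℕ) → Env × Finset ℕ → Px (Pn (L33 K k) y) → ℝ) (Mh : ℝ), Cov1 (L33 K k) b₀ j H Mh → (∀ y ω x, 0 ≤ H y ω x) →
        avy (ys33 μ s K k) (fun y => ∫ ω, gm (N25.vm μ s (L33 K k) (Pn (L33 K k) y) γ B b₀ ω j) (fun x => H y ω x *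
            Gj μ s (L33 K k) (Pn (L33 K k) y) γ B b₀ b b' m ω j x) ∂(Pm μ (L33 K k))) ≤
          avy (ys33 μ s K k) (fun y => ∫ ω, gm (wm μ s (L33 K k) (Pn (L33 K k) y) ω) (fun x => H y ω x *
            Gj μ s (L33 K k) (Pn (L33 K k) y) γ B b₀ b b' m' ω j x) ∂(Pm μ (L33 K k))) + Mh * (((2 ^ k : ℕ) : ℝ) ^ 5)⁻¹ := by
  obtain ⟨c₃, hc₃, h1⟩ := fl4_33 h hK hκ 8
  refine ⟨c₃, hc₃, fun β hβ => ?_⟩
  obtain ⟨γ₀, hγ₀, h1⟩ := h1 β hβ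
  refine ⟨γ₀, hγ₀, fun γ hγ hγ' => ?_⟩
  filter_upwards [h1 γ hγ hγ', ev_n one_pos 16, ev_n hκ 1, ev_n hc₃ 240] with k h2 h3 h4 h5 B hB hB24 b₀ j hb hbn hbj hj b b' e1 e2 m m' hm
    hm10 H Mh hH H0
  rw [Real.rpow_one] at h3
  obtain ⟨⟨g1, g2⟩, h2⟩ := h2
  obtain ⟨θ, ε, hθ0, hθ, hε, hE⟩ := h2 B hB
  have hB0 : 0 ≤ B := le_trans (by unfold B33; positivity) hB
  have hb1 : 0 < b₀ := by
    have : (1 : ℝ) ≤ b₀ := h4.trans hb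
    exact_mod_cast this
  have key := flip_dt4 (μ := μ) (s := s) (N := L33 K k) (δ := γ) (B := B) (y₀ := y33 μ s K k) (n := M33 k) (θ := θ) (ε := ε) hb1 hj hB0
    e1 e2 hm hH H0 (by omega) Nat.one_le_two_pow (by omega) (hE b₀ j hb hbn hbj hj)
  refine key.trans (add_le_add le_rfl ?_)
  have hx : 60 ≤ Real.exp (((2 ^ k : ℕ) : ℝ) ^ c₃ / 4) := by
    have h6 := Real.add_one_le_exp (((2 ^ k : ℕ) : ℝ) ^ c₃ / 4)
    linarith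
  have h7 := exp_fac hB0 hB24 hm10 hx
  refine err_le hH.pos ?_ h3 (M33_real k).symm hθ0 hθ hε
  have h8 := mul_le_mul_of_nonneg_left h7 hH.pos
  linarith

end

end Pool.Agent.W_7d29a1_C0.FlipR4.DT
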