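import Pool.Agent.W_7d29a1_C0.FlipR4E

/-!
CURV0 (MP_7d29a1_pr), [C0], E7: the law invariance at the concrete frame with the error `M n^(-11/2)` (real exponent). `err_55b`: the
arithmetic with four terms. (helper4)
-/

set_option autoImplicit false
set_option linter.unusedSectionVars false
set_option linter.unusedVariables false

namespace Pool.Agent.W_7d29a1_C0.FlipR4

open Pool.Agent.W_7d29a1_F hiding W_pos W_nonneg W_add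
open Finset MeasureTheory Filter Topology Pool.Agent.W_7d29a1_X Pool.Agent.W_7d29a1_HZ
open Pool.Agent.W_7d29a1_Z74
open Pool.Agent.W_7d29a1_HZ.Z74
open Pool.Agent.W_7d29a1_HS (In wd)
open Pool.Agent.W_7d29a1_C0.Mod92
open Pool.Agent.W_7d29a1_C0.Blk18
open Pool.Agent.W_7d29a1_C0.Pin18
open Pool.Agent.W_7d29a1_C0.Flip61
open Pool.Agent.W_7d29a1_C0.Frm33
open Pool.Agent.W_7d29a1_C0.Ferr61 (ferr2_33)
open Pool.W7d29a1.C0 (gz gm gz_pos gz_ne gm_const gm_mono gm_nonneg gm_sub)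
open Pool.W7d29a1.C0.VT31 (Mp Crs cE cV cC gc gv cE_mono cE_nonneg)

noncomputable section

variable {μ : Measure ℝ} {s : ℝ} [IsProbabilityMeasure μ]

/-- The arithmetic of the error, at the exponent `11 / 2`, for two terms. -/
theorem err_55b {M L x θ ε n : ℝ} {Mn : ℕ} (hM : 0 ≤ M) (hL : L ≤ 1 / 3 * (M * Real.exp x)) (hn : 256 ≤ n) (hMn : n ^ 6 = Mn)
    (hθ0 : 0 ≤ θ) (hθ : θ * Real.exp x ≤ (n ^ 8)⁻¹) (hε : ε ≤ (n ^ 8)⁻¹) :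
    8 * M / Mn + (3 * L * θ + 16 * M * ε) ≤ M * n ^ (-(11 / 2) : ℝ) := by
  have hn0 : 0 < n := by linarith
  obtain ⟨z, hz⟩ : ∃ z, z = (n ^ 6)⁻¹ := ⟨_, rfl⟩
  have hz0 : 0 < z := by rw [hz]; positivity
  have e1 : n ^ (-(11 / 2) : ℝ) = n ^ (1 / 2 : ℝ) * z := by
    rw [hz, ← Real.rpow_natCast, ← Real.rpow_neg hn0.le, ← Real.rpow_add hn0]
    congr 1
    norm_num
  have e2 : (16 : ℝ) ≤ n ^ (1 / 2 : ℝ) := by
    have h1 : ((256 : ℝ)) ^ (1 / 2 : ℝ) ≤ n ^ (1 / 2 : ℝ) := Real.rpow_le_rpow (by norm_num) hn (by norm_num)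
    have h2 : ((256 : ℝ)) ^ (1 / 2 : ℝ) = 16 := by
      rw [show (256 : ℝ) = 16 ^ (2 : ℝ) by norm_num, ← Real.rpow_mul (by norm_num)]
      norm_num
    linarith
  have k1 : 8 * M / (Mn : ℝ) = 8 * M * z := by
    rw [← hMn, hz, div_eq_mul_inv]
  have k8 : (n ^ 8)⁻¹ ≤ 1 / 65536 * z := by
    have h1 : (n ^ 8)⁻¹ = (n ^ 2)⁻¹ * z := by
      rw [hz, ← mul_inv]
      congr 1
      ring
    rw [h1]
    refine mul_le_mul_of_nonneg_right ?_ hz0.le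
    rw [one_div]
    refine inv_anti₀ (by norm_num) ?_
    calc (65536 : ℝ) = 256 ^ 2 := by norm_num
      _ ≤ n ^ 2 := pow_le_pow_left₀ (by norm_num) hn 2
  have k2 : 3 * L * θ ≤ M * (n ^ 8)⁻¹ := by
    have h1 := mul_le_mul_of_nonneg_right (mul_le_mul_of_nonneg_left hL (show (0 : ℝ) ≤ 3 by norm_num)) hθ0
    refine h1.trans ?_
    calc 3 * (1 / 3 * (M * Real.exp x)) * θ = M * (θ * Real.exp x) := by ring
      _ ≤ M * (n ^ 8)⁻¹ := mul_le_mul_of_nonneg_left hθ hM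
  have k3 : 16 * M * ε ≤ 16 * M * (n ^ 8)⁻¹ := mul_le_mul_of_nonneg_left hε (by positivity)
  have k4 := mul_le_mul_of_nonneg_left k8 hM
  have k5 : 16 * (M * z) ≤ n ^ (1 / 2 : ℝ) * (M * z) := mul_le_mul_of_nonneg_right e2 (by positivity)
  have k6 : 0 ≤ M * z := by positivity
  rw [e1, k1]
  calc 8 * M * z + (3 * L * θ + 16 * M * ε) ≤ 16 * (M * z) := by linarith
    _ ≤ n ^ (1 / 2 : ℝ) * (M * z) := k5
    _ = M * (n ^ (1 / 2 : ℝ) * z) := by ring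

/-- The arithmetic of the error of one flip. -/
theorem err_55 {M L x θ ε n : ℝ} {Mn : ℕ} (hM : 0 ≤ M) (hL : L ≤ 1 / 3 * (M * Real.exp x)) (hn : 256 ≤ n) (hMn : n ^ 6 = Mn)
    (hθ0 : 0 ≤ θ) (hθ : θ * Real.exp x ≤ (n ^ 8)⁻¹) (hε : ε ≤ (n ^ 8)⁻¹) :
    2 * M / Mn + (3 * L * θ + 4 * M * ε) ≤ M * n ^ (-(11 / 2) : ℝ) := by
  refine le_trans ?_ (err_55b hM hL hn hMn hθ0 hθ (le_refl (n ^ 8)⁻¹))
  have hn0 : 0 < n := by linarith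
  have h1 : 2 * M / (Mn : ℝ) ≤ 8 * M / Mn := by
    rw [← hMn]
    exact div_le_div_of_nonneg_right (by linarith) (by positivity)
  have h2 : 4 * M * ε ≤ 4 * M * (n ^ 8)⁻¹ := mul_le_mul_of_nonneg_left hε (by positivity)
  have h3 : 0 ≤ M * (n ^ 8)⁻¹ := by positivity
  linarith

/-- **THE FLIP AT THE FRAME, BOTH DIRECTIONS**: an event `TSw`, a passenger `TRep`, tilts. -/
theorem flip_55 {c C : ℝ} {n₀ : ℕ} (h : In μ s c C n₀) {K : ℕ} (hK : 32 ≤ K) {κ : ℝ} (hκ : 0 < κ) :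
    ∃ c₃ : ℝ, 0 < c₃ ∧ ∀ β : ℝ, 0 < β → ∃ γ₀ : ℝ, 0 < γ₀ ∧ ∀ γ : ℝ, 0 < γ → γ ≤ γ₀ →
      ∀ᶠ k : ℕ in atTop, ∀ B : ℝ, B33 β k ≤ B → ∀ b j : ℕ, ((2 ^ k : ℕ) : ℝ) ^ κ ≤ b → b ≤ 2 ^ k → b ≤ j → j + b ≤ L33 K k →
        ∀ (P P' : Pfl (L33 K k)) (L : ℝ) (G : Fnl (L33 K k)) (M LG : ℝ) (ψ : Finset ℕ → CovW (L33 K k) b j) (Kp : ℝ),
        TSw μ s (L33 K k) γ B b j P P' L → TRep μ s (L33 K k) γ B b j G M LG →
        (∀ y ω A t ρ, 0 ≤ G y ω A (wg μ s (L33 K k) γ B b j y ω t) ρ) → (∀ A, (ψ A).K ≤ Kp) →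
        Real.exp (2 * Kp) * ((M * L + LG) + 2 * M) ≤ 1 / 3 * (M * Real.exp (((2 ^ k : ℕ) : ℝ) ^ c₃)) →
        (avy (ys33 μ s K k) (fun y => ∫ ω, gm (wf μ s (L33 K k) γ B b j y ω + (ψ (flp j ω.2)).F y ω) (fun x =>
            iv (P y ω (flp j ω.2) (wf μ s (L33 K k) γ B b j y ω) fun _ => x) *
              G y ω (flp j ω.2) (wf μ s (L33 K k) γ B b j y ω) fun _ => x) ∂(Pm μ (L33 K k))) ≤
          avy (ys33 μ s K k) (fun y => ∫ ω, gm (wm μ s (L33 K k) (Pn (L33 K k) y) ω + (ψ ω.2).F y ω) (fun x =>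
            iv (P' y ω ω.2 (wm μ s (L33 K k) (Pn (L33 K k) y) ω) fun _ => x) *
              G y ω ω.2 (wm μ s (L33 K k) (Pn (L33 K k) y) ω) fun _ => x) ∂(Pm μ (L33 K k))) + M * ((2 ^ k : ℕ) : ℝ) ^ (-(11 / 2) : ℝ)) ∧
        (avy (ys33 μ s K k) (fun y => ∫ ω, gm (wm μ s (L33 K k) (Pn (L33 K k) y) ω + (ψ ω.2).F y ω) (fun x =>
            iv (P y ω ω.2 (wm μ s (L33 K k) (Pn (L33 K k) y) ω) fun _ => x) *
              G y ω ω.2 (wm μ s (L33 K k) (Pn (L33 K k) y) ω) fun _ => x) ∂(Pm μ (L33 K k))) ≤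
          avy (ys33 μ s K k) (fun y => ∫ ω, gm (wf μ s (L33 K k) γ B b j y ω + (ψ (flp j ω.2)).F y ω) (fun x =>
            iv (P' y ω (flp j ω.2) (wf μ s (L33 K k) γ B b j y ω) fun _ => x) *
              G y ω (flp j ω.2) (wf μ s (L33 K k) γ B b j y ω) fun _ => x) ∂(Pm μ (L33 K k))) + M * ((2 ^ k : ℕ) : ℝ) ^ (-(11 / 2) : ℝ)) := by
  obtain ⟨c₃, hc₃, h1⟩ := fl_33 h hK hκ 8
  refine ⟨c₃, hc₃, fun β hβ => ?_⟩
  obtain ⟨γ₀, hγ₀, h1⟩ := h1 β hβ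
  refine ⟨γ₀, hγ₀, fun γ hγ hγ' => ?_⟩
  filter_upwards [h1 γ hγ hγ', ev_n one_pos 256, ev_n hκ 1] with k h2 h3 h4 B hB b j hb hbn hbj hj P P' L G M LG ψ Kp hP hG G0 hψ hL
  rw [Real.rpow_one] at h3
  obtain ⟨⟨g1, g2⟩, h2⟩ := h2
  obtain ⟨θ, ε, hθ0, hθ, hε, hE⟩ := h2 B hB
  have hb1 : 0 < b := by
    have : (1 : ℝ) ≤ b := h4.trans hb
    exact_mod_cast this
  have e := err_55 hG.nonneg.1 hL h3 (M33_real k).symm hθ0 hθ hε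
  refine ⟨?_, ?_⟩
  · exact (hP.flip (y₀ := y33 μ s K k) (m := M33 k) hb1 hj hG G0 ψ hψ (by omega) Nat.one_le_two_pow (by omega) (hE b j hb hbn hbj hj)).trans (add_le_add le_rfl e)
  · exact (hP.unflip (y₀ := y33 μ s K k) (m := M33 k) hb1 hj hG G0 ψ hψ (by omega) Nat.one_le_two_pow (by omega) (hE b j hb hbn hbj hj)).trans (add_le_add le_rfl e)

end

end Pool.Agent.W_7d29a1_C0.FlipR4
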