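import Pool.Agent.W_7d29a1_C0.FlipV61
import Pool.Agent.W_7d29a1_C0.FlipD61

/-!
CURV0 (MP_7d29a1_pr), GS: THE FLIP OF ONE KICK (helper61). `VW w ω j = cV_(B' j) (cE_(B j) g_j)` under the log weights `w` (the blocks `B`
of length `σ`, `B'` of length `m σ`), `DW` the weighted sum of the `VW` over a set of rows, `PW w ω = gm w (VW j * DW)`. `one_kick`: averaged
over the environment, the signs and the pinned ends, `E a_j PW w = (1/2) E a_j (PW w - PW (w - 2 a_j g_j))`. ALL the means are under the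
moved weights, the responses are fixed.
-/

set_option autoImplicit false
set_option linter.unusedSectionVars false

namespace Pool.Agent.W_7d29a1_C0.Flip61

open Pool.Agent.W_7d29a1_F hiding W_pos W_nonneg W_add
open Finset MeasureTheory Pool.Agent.W_7d29a1_X Pool.Agent.W_7d29a1_HZ
open Pool.Agent.W_7d29a1_Z74
open Pool.Agent.W_7d29a1_HZ.Z74
open Pool.Agent.W_7d29a1_C0.Mod92
open Pool.Agent.W_7d29a1_C0.Blk18
open Pool.Agent.W_7d29a1_C0.Pin18
open Pool.W7d29a1.C0 (gz gm gz_pos gz_ne gm_const gm_mono gm_nonneg gm_sub gm_smul)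
open Pool.W7d29a1.C0.VT31 (Mp Crs cE cV cC gc gv fz fz_pos)

noncomputable section

/-! Sums of expressions -/

namespace Ex

variable {ι β : Type*} {Y : Type*} [DecidableEq Y] {X : Type*} [Fintype X] [Nonempty X]

/-- The sum of a list of expressions. -/
def lsum {α : Type*} (t : α → Ex ι β) : List α → Ex ι β
  | [] => cst 0
  | k :: l => add (t k) (lsum t l)

theorem evX_lsum {α : Type*} (w : X → ℝ) (f : ι → X → ℝ) (Q : β → X → Y) (t : α → Ex ι β) (x : X) :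
    ∀ l : List α, evX w f Q (lsum t l) x = (l.map fun k => evX w f Q (t k) x).sum
  | [] => rfl
  | k :: l => by
    rw [List.map_cons, List.sum_cons, ← evX_lsum w f Q t x l]
    rfl

theorem sz_lsum {α : Type*} {b : ι → ℝ} {T : ℝ} (t : α → Ex ι β) : ∀ l : List α, (∀ k ∈ l, sz b (t k) ≤ T) →
    sz b (lsum t l) ≤ l.length * T
  | [], _ => by
    show sz b (cst 0) ≤ _
    rw [sz_cst, abs_zero]
    simp
  | k :: l, h => by
    show sz b (add (t k) (lsum t l)) ≤ _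
    rw [sz_add, List.length_cons]
    have h1 := h k (List.mem_cons_self)
    have h2 := sz_lsum t l fun k hk => h k (List.mem_cons_of_mem _ hk)
    push_cast
    linarith

/-- The sum over a finite set. -/
def fsum {α : Type*} (t : α → Ex ι β) (K : Finset α) : Ex ι β := lsum t K.toList

theorem evX_fsum {α : Type*} (w : X → ℝ) (f : ι → X → ℝ) (Q : β → X → Y) (t : α → Ex ι β) (K : Finset α) (x : X) :
    evX w f Q (fsum t K) x = ∑ k ∈ K, evX w f Q (t k) x := by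
  unfold fsum
  rw [evX_lsum, Finset.sum_map_toList]

theorem sz_fsum {α : Type*} {b : ι → ℝ} {T : ℝ} (t : α → Ex ι β) (K : Finset α) (h : ∀ k ∈ K, sz b (t k) ≤ T) :
    sz b (fsum t K) ≤ K.card * T := by
  unfold fsum
  have := sz_lsum (T := T) t K.toList fun k hk => h k (Finset.mem_toList.1 hk)
  rwa [Finset.length_toList] at this

end Ex

/-- Tilting by a function of the conditioning changes nothing. -/
theorem cE_tilt {X : Type*} [Fintype X] {Y : Type*} [DecidableEq Y] (w u : X → ℝ) {p : X → Y} (hu : Mp p u) (f : X → ℝ) :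
    cE (w + u) p f = cE w p f := by
  funext x
  unfold cE fz
  have h1 : ∀ g : X → ℝ, (∑ x', if p x' = p x then Real.exp ((w + u) x') * g x' else 0) =
      Real.exp (u x) * ∑ x', if p x' = p x then Real.exp (w x') * g x' else 0 := by
    intro g
    rw [mul_sum]
    refine sum_congr rfl fun x' _ => ?_
    split_ifs with h
    · rw [Pi.add_apply, Real.exp_add, hu x' x h]
      ring
    · rw [mul_zero]
  have h2 := h1 (fun _ => 1)
  simp only [mul_one] at h2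
  rw [h1, h2, mul_div_mul_left _ _ (Real.exp_pos _).ne']

theorem cV_tilt {X : Type*} [Fintype X] {Y : Type*} [DecidableEq Y] (w u : X → ℝ) {p : X → Y} (hu : Mp p u) (f : X → ℝ) :
    cV (w + u) p f = cV w p f := by
  unfold cV cC
  rw [cE_tilt w u hu, cE_tilt w u hu]

variable {μ : Measure ℝ} {s : ℝ} {N : ℕ}

/-- **Conditional variances over disjoint blocks** of covariant functions are covariant. -/
theorem cov_cV {b₀ j : ℕ} {f : (y : ℕ) → Env × Finset ℕ → Px (Pn N y) → ℝ} {M : ℝ} (H : Cov1 N b₀ j f M) {c d : ℕ}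
    (hcd : c ≤ d) (hdN : d ≤ N) (hW : d ≤ j - b₀ ∨ j + b₀ ≤ c) :
    Cov1 N b₀ j (fun y ω => cV (wm μ s N (Pn N y) ω) (pJ c d) (f y ω)) (M * M + |(-1 : ℝ)| * (M * M)) := by
  have h1 := (H.mul H).cE (μ := μ) (s := s) hcd hdN hW
  have h2 := H.cE (μ := μ) (s := s) hcd hdN hW
  have h3 := h1.add ((Cov1.const (N := N) (b := b₀) (j := j) (-1)).mul (h2.mul h2))
  have e : (fun (y : ℕ) (ω : Env × Finset ℕ) => cV (wm μ s N (Pn N y) ω) (pJ c d) (f y ω)) = fun y ω =>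
      cE (wm μ s N (Pn N y) ω) (pJ c d) (f y ω * f y ω) +
        (fun _ => (-1 : ℝ)) * (cE (wm μ s N (Pn N y) ω) (pJ c d) (f y ω) * cE (wm μ s N (Pn N y) ω) (pJ c d) (f y ω)) := by
    funext y ω S
    unfold Pool.W7d29a1.C0.VT31.cV Pool.W7d29a1.C0.VT31.cC
    simp only [Pi.sub_apply, Pi.add_apply, Pi.mul_apply]
    ring
  rw [e]
  exact h3

/-! The loss of the change of `σ` to `m σ` -/

/-- The loss of the row `j` under the log weights `w`: `cV_(B' j) (cE_(B j) g_j)`. -/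
def VW (μ : Measure ℝ) (s : ℝ) {Q : Finset (Finset ℕ)} (δ B : ℝ) (b σ m : ℕ) (w : Px Q → ℝ) (ω : Env × Finset ℕ) (j : ℕ) : Px Q → ℝ :=
  cV w (pJ (j / (m * σ) * (m * σ)) (j / (m * σ) * (m * σ) + m * σ))
    (cE w (pJ (j / σ * σ) (j / σ * σ + σ)) (gg μ s Q δ B b ω j))

/-- The weighted sum of the losses of the rows of `K`. -/
def DW (μ : Measure ℝ) (s : ℝ) {Q : Finset (Finset ℕ)} (δ B : ℝ) (b σ m : ℕ) (K : Finset ℕ) (w : Px Q → ℝ) (ω : Env × Finset ℕ) :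
    Px Q → ℝ :=
  ∑ k ∈ K, (sr ω.2 k / 3) • VW μ s δ B b σ m w ω k

/-- The mean of the product, all means under the log weights `w`. -/
def PW (μ : Measure ℝ) (s : ℝ) {Q : Finset (Finset ℕ)} (δ B : ℝ) (b σ m : ℕ) (K : Finset ℕ) (j : ℕ) (w : Px Q → ℝ)
    (ω : Env × Finset ℕ) : ℝ :=
  gm w (VW μ s δ B b σ m w ω j * DW μ s δ B b σ m K w ω)

/-- The given functions: the response, its conditional mean, the whole loss, according to the position of the row `k` with respect to the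
blocks of the row `j`. -/
def hK (μ : Measure ℝ) (s : ℝ) (N : ℕ) (δ B : ℝ) (b σ m j : ℕ) (K : Finset ℕ) (y : ℕ) (ω : Env × Finset ℕ) (k : ℕ) :
    Px (Pn N y) → ℝ :=
  if k ∉ insert j K then 0
  else if k / σ = j / σ then gg μ s (Pn N y) δ B b ω k
  else if k / (m * σ) = j / (m * σ) then cE (wm μ s N (Pn N y) ω) (pJ (k / σ * σ) (k / σ * σ + σ)) (gg μ s (Pn N y) δ B b ω k)
  else VW μ s δ B b σ m (wm μ s N (Pn N y) ω) ω k

/-- The loss of the row `k` as an expression. -/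
def tK (σ m j k : ℕ) : Ex ℕ Bool :=
  if k / σ = j / σ then Ex.cc true (Ex.ce false (Ex.fn k)) (Ex.ce false (Ex.fn k))
  else if k / (m * σ) = j / (m * σ) then Ex.cc true (Ex.fn k) (Ex.fn k)
  else Ex.fn k

/-- The left and right ends of the blocks of the row `j`. -/
def CK (σ m j : ℕ) : Bool → ℕ
  | false => j / σ * σ
  | true => j / (m * σ) * (m * σ)

def DK (σ m j : ℕ) : Bool → ℕ
  | false => j / σ * σ + σ
  | true => j / (m * σ) * (m * σ) + m * σ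

/-- The grid of the blocks `B`, `B'`. -/
theorem grid_in {σ m : ℕ} (hm : 0 < m) (j : ℕ) : j / (m * σ) * (m * σ) ≤ j / σ * σ ∧
    j / σ * σ + σ ≤ j / (m * σ) * (m * σ) + m * σ := by
  have e : j / (m * σ) = j / σ / m := by rw [Nat.mul_comm m σ, Nat.div_div_eq_div_mul]
  rw [e]
  have h1 : j / σ / m * m ≤ j / σ := Nat.div_mul_le_self _ _
  have h2 : j / σ + 1 ≤ j / σ / m * m + m := Nat.lt_div_mul_add hm
  constructor
  · calc j / σ / m * (m * σ) = j / σ / m * m * σ := by ring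
      _ ≤ j / σ * σ := Nat.mul_le_mul_right σ h1
  · calc j / σ * σ + σ = (j / σ + 1) * σ := by ring
      _ ≤ (j / σ / m * m + m) * σ := Nat.mul_le_mul_right σ h2
      _ = _ := by ring

theorem blk_ne {σ j k : ℕ} (h : k / σ ≠ j / σ) : k / σ * σ + σ ≤ j / σ * σ ∨ j / σ * σ + σ ≤ k / σ * σ := by
  rcases Nat.lt_or_gt_of_ne h with h1 | h1
  · left
    calc k / σ * σ + σ = (k / σ + 1) * σ := by ring
      _ ≤ j / σ * σ := Nat.mul_le_mul_right σ h1
  · right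
    calc j / σ * σ + σ = (j / σ + 1) * σ := by ring
      _ ≤ k / σ * σ := Nat.mul_le_mul_right σ h1

/-- The value of the loss as an expression, under the log weights moved by a function of the ends of the window of `j`. -/
theorem evX_tK (δ B : ℝ) (b : ℕ) {σ m : ℕ} (j : ℕ) (y : ℕ) [Nonempty (Px (Pn N y))] (ω : Env × Finset ℕ) (u : Px (Pn N y) → ℝ) {a1 a2 : ℕ}
    (hu : ∀ c d, d ≤ a1 ∨ a2 ≤ c → c ≤ d → Mp (pJ c d) u) (h1 : j / σ * σ ≤ a1) (h2 : a2 ≤ j / σ * σ + σ)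
    (h3 : j / (m * σ) * (m * σ) ≤ a1) (h4 : a2 ≤ j / (m * σ) * (m * σ) + m * σ) (K : Finset ℕ) {k : ℕ} (hk : k ∈ insert j K) :
    Ex.evX (wm μ s N (Pn N y) ω + u) (hK μ s N δ B b σ m j K y ω) (fun i => pJ (CK σ m j i) (DK σ m j i)) (tK σ m j k) =
      VW μ s δ B b σ m (wm μ s N (Pn N y) ω + u) ω k := by
  unfold tK
  by_cases c1 : k / σ = j / σ
  · rw [if_pos c1, Ex.evX_cc]
    show cV _ _ (cE _ (pJ (j / σ * σ) (j / σ * σ + σ)) (hK μ s N δ B b σ m j K y ω k)) = _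
    have c2 : k / (m * σ) = j / (m * σ) := by rw [Nat.mul_comm m σ, ← Nat.div_div_eq_div_mul, ← Nat.div_div_eq_div_mul, c1]
    unfold hK VW
    rw [if_neg (not_not.2 hk), if_pos c1, c1, c2]
    rfl
  · rw [if_neg c1]
    have d1 : k / σ * σ + σ ≤ a1 ∨ a2 ≤ k / σ * σ := by
      rcases blk_ne c1 with h | h
      · exact Or.inl (h.trans h1)
      · exact Or.inr (h2.trans h)
    have e1 := cE_tilt (wm μ s N (Pn N y) ω) u (hu (k / σ * σ) (k / σ * σ + σ) d1 (Nat.le_add_right _ _)) (gg μ s (Pn N y) δ B b ω k)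
    by_cases c2 : k / (m * σ) = j / (m * σ)
    · rw [if_pos c2, Ex.evX_cc]
      show cV _ _ (hK μ s N δ B b σ m j K y ω k) = _
      unfold hK VW
      rw [if_neg (not_not.2 hk), if_neg c1, if_pos c2, e1, c2]
      rfl
    · rw [if_neg c2]
      have d2 : k / (m * σ) * (m * σ) + m * σ ≤ a1 ∨ a2 ≤ k / (m * σ) * (m * σ) := by
        rcases blk_ne c2 with h | h
        · exact Or.inl (h.trans h3)
        · exact Or.inr (h4.trans h)
      show hK μ s N δ B b σ m j K y ω k = _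
      unfold hK VW
      rw [if_neg (not_not.2 hk), if_neg c1, if_neg c2, cV_tilt _ u (hu _ _ d2 (Nat.le_add_right _ _)), e1]

/-- The size of the loss of a row. -/
theorem sz_tK {bb : ℕ → ℝ} {K0 : ℝ} (h0 : ∀ i, 0 ≤ bb i) (hb : ∀ i, bb i ≤ K0) (hK0 : 0 ≤ K0) (σ m j k : ℕ) :
    Ex.sz bb (tK σ m j k) ≤ 96 * K0 ^ 2 + 2 * K0 := by
  have hs : Ex.sz bb (Ex.fn k : Ex ℕ Bool) ≤ 2 * K0 := by
    rw [Ex.sz_fn]
    linarith [hb k]
  have hs0 : 0 ≤ Ex.sz bb (Ex.fn k : Ex ℕ Bool) := Ex.sz_nonneg h0 _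
  unfold tK
  split_ifs
  · have h1 := Ex.sz_cc h0 true (Ex.ce false (Ex.fn k)) (Ex.ce false (Ex.fn k))
    have h2 := Ex.sz_ce h0 false (Ex.fn k : Ex ℕ Bool)
    have h3 : Ex.sz bb (Ex.ce false (Ex.fn k) : Ex ℕ Bool) ≤ 4 * K0 := by linarith
    have h4 : 0 ≤ Ex.sz bb (Ex.ce false (Ex.fn k) : Ex ℕ Bool) := Ex.sz_nonneg h0 _
    have h5 := mul_le_mul h3 h3 h4 (by positivity)
    nlinarith
  · have h1 := Ex.sz_cc h0 true (Ex.fn k) (Ex.fn k : Ex ℕ Bool)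
    have h5 := mul_le_mul hs hs hs0 (by positivity)
    nlinarith
  · nlinarith

variable [IsProbabilityMeasure μ]

/-- The expression of the product. -/
def eK (σ m j : ℕ) (K : Finset ℕ) (A : Finset ℕ) : Ex ℕ Bool :=
  Ex.mul (Ex.cst (sg A j : ℝ)) (Ex.mul (tK σ m j j) (Ex.fsum (fun k => Ex.mul (Ex.cst ((sg A k : ℝ) / 3)) (tK σ m j k)) K))

/-- The given functions are covariant. -/
theorem cov_hK {b0 b σ m : ℕ} (hb0 : 0 < b0) (hb : 0 < b) (hm : 0 < m) (d1 : b0 ≤ b) {j : ℕ}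
    (hjd : j / σ * σ + b ≤ j ∧ j + b ≤ (j / σ + 1) * σ) {K : Finset ℕ}
    (hK' : ∀ k ∈ K, k + b ≤ j - b0 ∨ j + b0 ≤ k - b) (δ : ℝ) {B : ℝ} (hB : 1 ≤ B)
    (hN : ∀ k ∈ insert j K, k / (m * σ) * (m * σ) + m * σ ≤ N) : Cov N b0 j (hK μ s N δ B b σ m j K) (fun _ => B ^ 2) := by
  have hB0 : 0 ≤ B := by linarith
  have hBB : B / 2 ≤ B ^ 2 := by nlinarith
  refine cov_of fun k => ?_
  unfold hK
  by_cases hk : k ∉ insert j K
  · simp only [if_pos hk]
    have h0 := Cov1.const (N := N) (b := b0) (j := j) 0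
    exact h0.mono (by rw [abs_zero]; positivity)
  simp only [if_neg hk]
  rw [not_not] at hk
  obtain ⟨g1, g2⟩ := grid_in (σ := σ) hm j
  obtain ⟨g3, g4⟩ := grid_in (σ := σ) hm k
  have hNk := hN k hk
  have hwj : j / σ * σ ≤ j - b0 ∧ j + b0 ≤ j / σ * σ + σ := by
    have := hjd.2
    rw [Nat.succ_mul] at this
    omega
  -- the response itself
  have hg : Cov1 N b0 j (fun y ω => gg μ s (Pn N y) δ B b ω k) (B / 2) := by
    rcases mem_insert.1 hk with h | h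
    · rw [h]
      exact cov_gj' d1 δ hB0
    · exact cov_gg hb0 hb (hK' k h) δ hB0
  by_cases c1 : k / σ = j / σ
  · simp only [if_pos c1]
    exact hg.mono hBB
  simp only [if_neg c1]
  have dB : k / σ * σ + σ ≤ j - b0 ∨ j + b0 ≤ k / σ * σ := by
    rcases blk_ne c1 with h | h
    · exact Or.inl (h.trans hwj.1)
    · exact Or.inr (hwj.2.trans h)
  have hcE := hg.cE (μ := μ) (s := s) (Nat.le_add_right (k / σ * σ) σ) (g4.trans hNk) dB
  by_cases c2 : k / (m * σ) = j / (m * σ)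
  · simp only [if_pos c2]
    exact hcE.mono hBB
  simp only [if_neg c2]
  have dB' : k / (m * σ) * (m * σ) + m * σ ≤ j - b0 ∨ j + b0 ≤ k / (m * σ) * (m * σ) := by
    rcases blk_ne c2 with h | h
    · exact Or.inl ((h.trans g1).trans hwj.1)
    · exact Or.inr ((hwj.2.trans g2).trans h)
  have hcV := cov_cV (μ := μ) (s := s) hcE (Nat.le_add_right (k / (m * σ) * (m * σ)) (m * σ)) hNk dB'
  refine hcV.mono ?_
  rw [abs_neg, abs_one]
  nlinarith

/-- The value of the whole expression. -/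
theorem evX_eK (δ B : ℝ) (b : ℕ) {σ m : ℕ} (j : ℕ) (y : ℕ) [Nonempty (Px (Pn N y))] (ω : Env × Finset ℕ) (u : Px (Pn N y) → ℝ)
    {a1 a2 : ℕ} (hu : ∀ c d, d ≤ a1 ∨ a2 ≤ c → c ≤ d → Mp (pJ c d) u) (h1 : j / σ * σ ≤ a1) (h2 : a2 ≤ j / σ * σ + σ)
    (h3 : j / (m * σ) * (m * σ) ≤ a1) (h4 : a2 ≤ j / (m * σ) * (m * σ) + m * σ) (K A : Finset ℕ)
    (hA : ∀ k ∈ K, sg A k = sg ω.2 k) :
    gm (wm μ s N (Pn N y) ω + u) (Ex.evX (wm μ s N (Pn N y) ω + u) (hK μ s N δ B b σ m j K y ω)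
      (fun i => pJ (CK σ m j i) (DK σ m j i)) (eK σ m j K A)) =
      (sg A j : ℝ) * PW μ s δ B b σ m K j (wm μ s N (Pn N y) ω + u) ω := by
  unfold PW
  rw [← gm_smul]
  congr 1
  funext S
  have e1 := fun k (hk : k ∈ insert j K) => congrFun (evX_tK (μ := μ) (s := s) δ B b j y ω u hu h1 h2 h3 h4 K hk) S
  have e2 := Ex.evX_fsum (wm μ s N (Pn N y) ω + u) (hK μ s N δ B b σ m j K y ω) (fun i => pJ (CK σ m j i) (DK σ m j i))
    (fun k => Ex.mul (Ex.cst ((sg A k : ℝ) / 3)) (tK σ m j k)) K S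
  unfold eK
  show (sg A j : ℝ) * (Ex.evX _ _ _ (tK σ m j j) S * Ex.evX _ _ _ (Ex.fsum _ K) S) = _
  rw [e2, e1 j (mem_insert_self j K)]
  simp only [Pi.smul_apply, Pi.mul_apply, smul_eq_mul]
  congr 2
  unfold DW
  rw [Finset.sum_apply]
  refine sum_congr rfl fun k hk => ?_
  show (sg A k : ℝ) / 3 * Ex.evX _ _ _ (tK σ m j k) S = _
  rw [e1 k (mem_insert_of_mem hk), hA k hk]
  rfl

/-- **THE FLIP OF ONE KICK** (GS (1)). -/
theorem one_kick {b0 b σ m : ℕ} (hb0 : 0 < b0) (hb : 0 < b) (hm : 0 < m) (d1 : b0 ≤ b) {j : ℕ}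
    (hjd : j / σ * σ + b ≤ j ∧ j + b ≤ (j / σ + 1) * σ) {K : Finset ℕ}
    (hK' : ∀ k ∈ K, k + b ≤ j - b0 ∨ j + b0 ≤ k - b) {δ B : ℝ} (hB : 1 ≤ B)
    (hN : ∀ k ∈ insert j K, k / (m * σ) * (m * σ) + m * σ ≤ N)
    {y₀ M : ℕ} (hy : 1 ≤ y₀) (hM : 1 ≤ M) (hyN : y₀ + M ≤ N) {ε : ℝ} (hE : FErr μ s N δ B b0 j y₀ M ε) :
    |avy (Ico y₀ (y₀ + M)) (fun y => ∫ ω, sr ω.2 j * PW μ s δ B b σ m K j (wm μ s N (Pn N y) ω) ω ∂(Pm μ N)) -
        1 / 2 * avy (Ico y₀ (y₀ + M)) (fun y => ∫ ω, sr ω.2 j * (PW μ s δ B b σ m K j (wm μ s N (Pn N y) ω) ω -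
          PW μ s δ B b σ m K j (wj μ s N (Pn N y) δ B b0 j ω (-(sg ω.2 j : ℝ))) ω) ∂(Pm μ N))| ≤
      K.card * (98 * B ^ 4) ^ 2 * (1 / M + 3 * ε) := by
  have hB0 : 0 ≤ B := by linarith
  have hC := cov_hK (μ := μ) (s := s) (N := N) hb0 hb hm d1 hjd hK' δ hB hN
  obtain ⟨g1, g2⟩ := grid_in (σ := σ) hm j
  have hwj : j / σ * σ ≤ j - b0 ∧ j + b0 ≤ j / σ * σ + σ := by
    have := hjd.2
    rw [Nat.succ_mul] at this
    omega
  have hjN := hN j (mem_insert_self j K)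
  have hj : j + b0 ≤ N := (hwj.2.trans g2).trans hjN
  have c0 : Cov1 N b0 j (fun y _ => (0 : Px (Pn N y) → ℝ)) 0 := by
    have := Cov1.const (N := N) (b := b0) (j := j) 0
    rw [abs_zero] at this
    exact this
  have hbp : ∀ i : ℕ, 0 ≤ (fun _ : ℕ => B ^ 2) i := fun _ => by positivity
  obtain ⟨T, hT⟩ : ∃ T : ℝ, T = 98 * B ^ 4 := ⟨_, rfl⟩
  have hT0 : 0 ≤ T := by rw [hT]; positivity
  have ht : ∀ k, Ex.sz (fun _ : ℕ => B ^ 2) (tK σ m j k) ≤ T := fun k => by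
    refine (sz_tK hbp (K0 := B ^ 2) (fun _ => le_rfl) (by positivity) σ m j k).trans ?_
    have h1 : B ^ 2 ≤ B ^ 4 := pow_le_pow_right₀ hB (by norm_num)
    have h2 : (B ^ 2) ^ 2 = B ^ 4 := by ring
    rw [hT, h2]
    linarith
  have hsz : ∀ A, Ex.sz (fun _ : ℕ => B ^ 2) (eK σ m j K A) ≤ K.card * T ^ 2 := fun A => by
    unfold eK
    have h1 : |(sg A j : ℝ)| ≤ 1 := (abs_sg A j).le
    refine (Ex.sz_cst_mul hbp h1 _).trans ((Ex.sz_mul hbp _ _).trans ?_)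
    have h2 := Ex.sz_fsum (b := fun _ : ℕ => B ^ 2) (T := T) (fun k => Ex.mul (Ex.cst ((sg A k : ℝ) / 3)) (tK σ m j k)) K fun k _ =>
      (Ex.sz_cst_mul hbp (by
        rw [abs_div, abs_sg]
        have : |(3 : ℝ)| = 3 := by norm_num
        rw [this]
        norm_num) _).trans (ht k)
    calc Ex.sz (fun _ : ℕ => B ^ 2) (tK σ m j j) * Ex.sz (fun _ : ℕ => B ^ 2)
          (Ex.fsum (fun k => Ex.mul (Ex.cst ((sg A k : ℝ) / 3)) (tK σ m j k)) K) ≤ T * (K.card * T) :=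
          mul_le_mul (ht j) h2 (Ex.sz_nonneg hbp _) hT0
      _ = K.card * T ^ 2 := by ring
  have hL : ∀ A, Ex.li (fun _ : ℕ => B ^ 2) (eK σ m j K A) + 2 * Ex.bd (fun _ : ℕ => B ^ 2) (eK σ m j K A) ≤ K.card * T ^ 2 := hsz
  have hbd : ∀ A, Ex.bd (fun _ : ℕ => B ^ 2) (eK σ m j K A) ≤ K.card * T ^ 2 / 2 := fun A => by
    have h1 := hL A
    have h2 := Ex.li_nonneg hbp (eK σ m j K A)
    linarith
  have hCj : ∀ i, CK σ m j i ≤ j - b0 := fun i => by
    cases i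
    · exact hwj.1
    · exact g1.trans hwj.1
  have hDj : ∀ i, j + b0 ≤ DK σ m j i := fun i => by
    cases i
    · exact hwj.2
    · exact hwj.2.trans g2
  have hmain := fl_tilt (μ := μ) (s := s) (δ := δ) (B := B) hb0 hj c0 hC (CK σ m j) (DK σ m j) hCj hDj (eK σ m j K) hL
    (M := K.card * T ^ 2 / 2) (fun y ω => (obh_bdd _ _ hC.pos hC.bdd _ y ω).trans (hbd _)) hy hM hyN hE
  rw [mul_zero, Real.exp_zero, mul_one] at hmain
  have hsgk : ∀ (ω : Env × Finset ℕ), ∀ k ∈ K, sg (flp j ω.2) k = sg ω.2 k := fun ω k hk =>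
    sg_flp_ne (by
      have := hK' k hk
      omega) ω.2
  -- the two values
  have v1 : ∀ y, y ≤ N → ∀ ω, obh μ s N (CK σ m j) (DK σ m j) (fun _ _ => 0) (hK μ s N δ B b σ m j K) (eK σ m j K) y ω =
      sr ω.2 j * PW μ s δ B b σ m K j (wm μ s N (Pn N y) ω) ω := by
    intro y hyy ω
    have n1 : Nonempty (Px (Pn N y)) := ne_Pn hyy
    have h := evX_eK (μ := μ) (s := s) (N := N) δ B b (σ := σ) (m := m) j y ω 0 (a1 := j - b0) (a2 := j + b0)
      (fun _ _ _ _ => fun _ _ _ => rfl) hwj.1 hwj.2 (g1.trans hwj.1) (hwj.2.trans g2) K ω.2 fun _ _ => rfl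
    rw [add_zero] at h
    unfold obh
    rw [add_zero]
    exact h
  have v2 : ∀ y, y ≤ N → ∀ ω, obfh μ s N δ B b0 j (CK σ m j) (DK σ m j) (fun _ _ => 0) (hK μ s N δ B b σ m j K) (eK σ m j K) y ω =
      -(sr ω.2 j * PW μ s δ B b σ m K j (wj μ s N (Pn N y) δ B b0 j ω (-(sg ω.2 j : ℝ))) ω) := by
    intro y hyy ω
    have n1 : Nonempty (Px (Pn N y)) := ne_Pn hyy
    have h := evX_eK (μ := μ) (s := s) (N := N) δ B b (σ := σ) (m := m) j y ω
      ((-(sg ω.2 j : ℝ) - sg ω.2 j) • gj μ s ω.1 δ B b0 j (sg ω.2 j)) (a1 := j - b0) (a2 := j + b0)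
      (fun c d hcd hcd' => by
        have h1 : Mp (pJ c d) (gj (Q := Pn N y) μ s ω.1 δ B b0 j (sg ω.2 j)) :=
          mp_ps (Q := Pn N y) (gw μ s ω.1 δ B (sg ω.2 j) (j - b0) (j + b0 - (j - b0)) (j - (j - b0))) (by omega) (by omega)
        intro S S' e
        rw [Pi.smul_apply, Pi.smul_apply, h1 S S' e])
      hwj.1 hwj.2 (g1.trans hwj.1) (hwj.2.trans g2) K (flp j ω.2) (hsgk ω)
    rw [sg_flp] at h
    push_cast at h
    unfold obfh
    rw [add_zero]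
    refine h.trans ?_
    unfold sr
    rw [neg_mul]
    rfl
  have e1 : avy (Ico y₀ (y₀ + M)) (fun y => ∫ ω, sr ω.2 j * PW μ s δ B b σ m K j (wm μ s N (Pn N y) ω) ω ∂(Pm μ N)) -
        1 / 2 * avy (Ico y₀ (y₀ + M)) (fun y => ∫ ω, sr ω.2 j * (PW μ s δ B b σ m K j (wm μ s N (Pn N y) ω) ω -
          PW μ s δ B b σ m K j (wj μ s N (Pn N y) δ B b0 j ω (-(sg ω.2 j : ℝ))) ω) ∂(Pm μ N)) =
      1 / 2 * ((M : ℝ)⁻¹ * ∑ y ∈ Ico y₀ (y₀ + M), ∫ ω,
        (obh μ s N (CK σ m j) (DK σ m j) (fun _ _ => 0) (hK μ s N δ B b σ m j K) (eK σ m j K) y ω -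
          obfh μ s N δ B b0 j (CK σ m j) (DK σ m j) (fun _ _ => 0) (hK μ s N δ B b σ m j K) (eK σ m j K) y ω) ∂(Pm μ N)) := by
    rw [← avy_mul, avy_sub, avy_Ico, mul_left_comm, mul_sum (s := Ico y₀ (y₀ + M)) (a := (1 / 2 : ℝ))]
    congr 1
    refine sum_congr rfl fun y hy' => ?_
    have hyy : y ≤ N := by
      have := mem_Ico.1 hy'
      omega
    have n1 : Nonempty (Px (Pn N y)) := ne_Pn hyy
    have z1 : ∀ (y : ℕ) (S : Px (Pn N y)), Measurable fun _ : Env × Finset ℕ => (0 : Px (Pn N y) → ℝ) S := fun y S => measurable_const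
    have j1 := int_bdd (μ := μ) (N := N) (meas_obh (μ := μ) (s := s) (H := fun _ _ => 0) (CK σ m j) (DK σ m j) z1 hC.mes (eK σ m j K) y)
      (fun ω => (obh_bdd (H := fun _ _ => 0) _ _ hC.pos hC.bdd _ y ω).trans (hbd _))
    have j2 := int_bdd (μ := μ) (N := N) (meas_obfh (μ := μ) (s := s) (H := fun _ _ => 0) δ B b0 j (CK σ m j) (DK σ m j) z1 hC.mes
      (eK σ m j K) y) (fun ω => (obfh_bdd (H := fun _ _ => 0) δ B b0 j _ _ hC.pos hC.bdd _ y ω).trans (hbd _))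
    have e2 : ∫ ω, sr ω.2 j * PW μ s δ B b σ m K j (wm μ s N (Pn N y) ω) ω ∂(Pm μ N) =
        ∫ ω, obh μ s N (CK σ m j) (DK σ m j) (fun _ _ => 0) (hK μ s N δ B b σ m j K) (eK σ m j K) y ω ∂(Pm μ N) :=
      integral_congr_ae (Filter.Eventually.of_forall fun ω => (v1 y hyy ω).symm)
    have e3 : ∫ ω, sr ω.2 j * (PW μ s δ B b σ m K j (wm μ s N (Pn N y) ω) ω -
          PW μ s δ B b σ m K j (wj μ s N (Pn N y) δ B b0 j ω (-(sg ω.2 j : ℝ))) ω) ∂(Pm μ N) =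
        ∫ ω, obh μ s N (CK σ m j) (DK σ m j) (fun _ _ => 0) (hK μ s N δ B b σ m j K) (eK σ m j K) y ω ∂(Pm μ N) +
        ∫ ω, obfh μ s N δ B b0 j (CK σ m j) (DK σ m j) (fun _ _ => 0) (hK μ s N δ B b σ m j K) (eK σ m j K) y ω ∂(Pm μ N) := by
      rw [← integral_add j1 j2]
      refine integral_congr_ae (Filter.Eventually.of_forall fun ω => ?_)
      show _ = _ + _
      rw [v1 y hyy ω, v2 y hyy ω]
      ring
    rw [e2, e3, integral_sub j1 j2]
    ring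
  rw [e1, abs_mul, abs_of_pos (by norm_num : (0 : ℝ) < 1 / 2)]
  refine (mul_le_mul_of_nonneg_left hmain (by norm_num : (0 : ℝ) ≤ 1 / 2)).trans ?_
  rw [hT] at *
  have hM0 : (0 : ℝ) < M := by exact_mod_cast hM
  have hX : 0 ≤ (K.card : ℝ) * (98 * B ^ 4) ^ 2 := by positivity
  have h5 : 1 / 2 * (2 * ((K.card : ℝ) * (98 * B ^ 4) ^ 2 / 2) / M + 6 * ((K.card : ℝ) * (98 * B ^ 4) ^ 2) * ε) =
      (K.card : ℝ) * (98 * B ^ 4) ^ 2 * (1 / 2 * (1 / M) + 3 * ε) := by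
    field_simp
    ring
  rw [h5]
  refine mul_le_mul_of_nonneg_left ?_ hX
  have h6 : 0 < 1 / (M : ℝ) := by positivity
  linarith

end

end Pool.Agent.W_7d29a1_C0.Flip61
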