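import Pool.Agent.W_7d29a1_C0.VT31B

/-!
CURV0 (MP_7d29a1_pr), E7: LIPSCHITZ CALCULUS. Expressions built from given functions by sums, products, conditional means and the mean
of a probability measure on a finite set. `Ex.ev`: the value under the mass function `m` on the finite set of labels `O`. `ev_lip`: under
two mass functions the values differ in `L1 (m1)` by at most `Ex.li` times the total variation distance. `ev_evX`: the value of the
expression under a Gibbs measure on `X` (conditional means `cE` of `VT31`) is its value under the law of the label. (helper61)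
-/

set_option autoImplicit false
set_option linter.unusedSectionVars false

namespace Pool.Agent.W_7d29a1_C0.Flip61

open Finset
open Pool.W7d29a1.C0 (gz gm gz_pos gz_ne)
open Pool.W7d29a1.C0.VT31 (Mp cE cV cC gc gv fz fz_pos)

noncomputable section

/-! ### One conditional mean -/

section One

variable {O : Type*} [Fintype O] {Y : Type*} [DecidableEq Y]

/-- The conditional mean given `Q` under the mass function `m`. -/
def ce (m : O → ℝ) (Q : O → Y) (H : O → ℝ) (o : O) : ℝ :=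
  (∑ o', if Q o' = Q o then m o' * H o' else 0) / ∑ o', if Q o' = Q o then m o' else 0

/-- The mean. -/
def me (m : O → ℝ) (H : O → ℝ) : ℝ := ∑ o, m o * H o

/-- The total variation distance (the sum of the absolute values). -/
def tv (m₁ m₂ : O → ℝ) : ℝ := ∑ o, |m₁ o - m₂ o|

/-- The distance in `L1`. -/
def d1 (m : O → ℝ) (H K : O → ℝ) : ℝ := ∑ o, m o * |H o - K o|

theorem tv_nonneg (m₁ m₂ : O → ℝ) : 0 ≤ tv m₁ m₂ := sum_nonneg fun _ _ => abs_nonneg _

theorem ce_bdd {m : O → ℝ} (hm : ∀ o, 0 ≤ m o) (Q : O → Y) {H : O → ℝ} {B : ℝ} (hB : 0 ≤ B) (hH : ∀ o, |H o| ≤ B) (o : O) :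
    |ce m Q H o| ≤ B := by
  unfold ce
  have h0 : 0 ≤ ∑ o', if Q o' = Q o then m o' else 0 := sum_nonneg fun o' _ => by
    split_ifs
    · exact hm o'
    · exact le_rfl
  rw [abs_div, abs_of_nonneg h0]
  refine div_le_of_le_mul₀ h0 hB ?_
  rw [mul_sum]
  refine (abs_sum_le_sum_abs _ _).trans (sum_le_sum fun o' _ => ?_)
  split_ifs
  · rw [abs_mul, abs_of_nonneg (hm o'), mul_comm]
    exact mul_le_mul_of_nonneg_right (hH o') (hm o')
  · rw [abs_zero, mul_zero]

/-- The key inequality of one class. -/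
theorem ce_diff {m₁ m₂ : O → ℝ} (h1 : ∀ o, 0 ≤ m₁ o) (h2 : ∀ o, 0 ≤ m₂ o) (Q : O → Y) {H K : O → ℝ} {B : ℝ} (hB : 0 ≤ B)
    (hK : ∀ o, |K o| ≤ B) (o : O) (ho : 0 < ∑ o', if Q o' = Q o then m₁ o' else 0) :
    (∑ o', if Q o' = Q o then m₁ o' else 0) * |ce m₁ Q H o - ce m₂ Q K o| ≤
      ∑ o', if Q o' = Q o then m₁ o' * |H o' - K o'| + 2 * B * |m₁ o' - m₂ o'| else 0 := by
  set a₁ := ∑ o', if Q o' = Q o then m₁ o' else 0 with ha1
  set a₂ := ∑ o', if Q o' = Q o then m₂ o' else 0 with ha2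
  have hc2 : |ce m₂ Q K o| ≤ B := ce_bdd h2 Q hB hK o
  have e1 : a₁ * ce m₁ Q H o = ∑ o', if Q o' = Q o then m₁ o' * H o' else 0 := by
    unfold ce
    rw [← ha1]
    field_simp
  have e2 : a₂ * ce m₂ Q K o = ∑ o', if Q o' = Q o then m₂ o' * K o' else 0 := by
    by_cases h : a₂ = 0
    · rw [h, zero_mul]
      symm
      refine sum_eq_zero fun o' _ => ?_
      by_cases hq : Q o' = Q o
      · have h3 : ∀ o'' ∈ (univ : Finset O), (if Q o'' = Q o then m₂ o'' else 0) = 0 := by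
          refine (sum_eq_zero_iff_of_nonneg fun o'' _ => ?_).1 h
          split_ifs
          · exact h2 o''
          · exact le_rfl
        have h4 := h3 o' (mem_univ _)
        rw [if_pos hq] at h4
        rw [if_pos hq, h4, zero_mul]
      · rw [if_neg hq]
    · unfold ce
      rw [← ha2]
      field_simp
  have e3 : a₁ * (ce m₁ Q H o - ce m₂ Q K o) = ∑ o', if Q o' = Q o then
      m₁ o' * (H o' - K o') + (m₁ o' - m₂ o') * K o' - (m₁ o' - m₂ o') * ce m₂ Q K o else 0 := by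
    have e4 : a₁ * (ce m₁ Q H o - ce m₂ Q K o) = a₁ * ce m₁ Q H o - a₂ * ce m₂ Q K o - (a₁ - a₂) * ce m₂ Q K o := by ring
    rw [e4, e1, e2, ha1, ha2, ← sum_sub_distrib, ← sum_sub_distrib, sum_mul, ← sum_sub_distrib]
    refine sum_congr rfl fun o' _ => ?_
    split_ifs <;> ring
  rw [← abs_of_pos ho, ← abs_mul, e3]
  refine (abs_sum_le_sum_abs _ _).trans (sum_le_sum fun o' _ => ?_)
  split_ifs
  · have t1 : |m₁ o' * (H o' - K o')| = m₁ o' * |H o' - K o'| := by rw [abs_mul, abs_of_nonneg (h1 o')]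
    have t2 : |(m₁ o' - m₂ o') * K o'| ≤ B * |m₁ o' - m₂ o'| := by
      rw [abs_mul, mul_comm]
      exact mul_le_mul_of_nonneg_right (hK o') (abs_nonneg _)
    have t3 : |(m₁ o' - m₂ o') * ce m₂ Q K o| ≤ B * |m₁ o' - m₂ o'| := by
      rw [abs_mul, mul_comm]
      exact mul_le_mul_of_nonneg_right hc2 (abs_nonneg _)
    have t4 := abs_sub (m₁ o' * (H o' - K o') + (m₁ o' - m₂ o') * K o') ((m₁ o' - m₂ o') * ce m₂ Q K o)
    have t5 := abs_add_le (m₁ o' * (H o' - K o')) ((m₁ o' - m₂ o') * K o')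
    linarith
  · rw [abs_zero]

/-- **The conditional mean is Lipschitz.** -/
theorem ce_lip {m₁ m₂ : O → ℝ} (h1 : ∀ o, 0 ≤ m₁ o) (h2 : ∀ o, 0 ≤ m₂ o) (Q : O → Y) {H K : O → ℝ} {B : ℝ} (hB : 0 ≤ B)
    (hK : ∀ o, |K o| ≤ B) : d1 m₁ (ce m₁ Q H) (ce m₂ Q K) ≤ d1 m₁ H K + 2 * B * tv m₁ m₂ := by
  unfold d1 tv
  rw [mul_sum, ← sum_add_distrib]
  set r : O → ℝ := fun o' => m₁ o' * |H o' - K o'| + 2 * B * |m₁ o' - m₂ o'| with hr
  have hr0 : ∀ o', 0 ≤ r o' := fun o' => add_nonneg (mul_nonneg (h1 o') (abs_nonneg _)) (mul_nonneg (by linarith) (abs_nonneg _))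
  set a : O → ℝ := fun o => ∑ o', if Q o' = Q o then m₁ o' else 0 with ha
  have ha0 : ∀ o, 0 ≤ a o := fun o => sum_nonneg fun o' _ => by
    split_ifs
    · exact h1 o'
    · exact le_rfl
  have key : ∀ o, m₁ o * |ce m₁ Q H o - ce m₂ Q K o| ≤ ∑ o', if Q o' = Q o then m₁ o / a o * r o' else 0 := by
    intro o
    by_cases h : a o = 0
    · have h3 : m₁ o = 0 := by
        have h4 : ∀ o'' ∈ (univ : Finset O), (if Q o'' = Q o then m₁ o'' else 0) = 0 := by
          refine (sum_eq_zero_iff_of_nonneg fun o'' _ => ?_).1 h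
          split_ifs
          · exact h1 o''
          · exact le_rfl
        have h5 := h4 o (mem_univ _)
        rwa [if_pos rfl] at h5
      rw [h3]
      simp
    · have hp : 0 < a o := lt_of_le_of_ne (ha0 o) (Ne.symm h)
      have h3 := ce_diff h1 h2 Q (H := H) hB hK o hp
      have h4 : m₁ o * |ce m₁ Q H o - ce m₂ Q K o| = m₁ o / a o * (a o * |ce m₁ Q H o - ce m₂ Q K o|) := by
        field_simp
      rw [h4]
      refine (mul_le_mul_of_nonneg_left h3 (div_nonneg (h1 o) (ha0 o))).trans (le_of_eq ?_)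
      rw [mul_sum]
      refine sum_congr rfl fun o' _ => ?_
      rw [mul_ite, mul_zero]
  refine (sum_le_sum fun o _ => key o).trans ?_
  rw [sum_comm]
  refine sum_le_sum fun o' _ => ?_
  have h5 : ∑ o, (if Q o' = Q o then m₁ o / a o * r o' else 0) = (∑ o, if Q o' = Q o then m₁ o / a o else 0) * r o' := by
    rw [sum_mul]
    refine sum_congr rfl fun o _ => ?_
    split_ifs
    · rfl
    · rw [zero_mul]
  rw [h5]
  have h6 : ∑ o, (if Q o' = Q o then m₁ o / a o else 0) = (∑ o, if Q o' = Q o then m₁ o else 0) / a o' := by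
    rw [sum_div]
    refine sum_congr rfl fun o _ => ?_
    split_ifs with hq
    · have : a o = a o' := by
        rw [ha]
        simp only [hq]
      rw [this]
    · rw [zero_div]
  have h7 : (∑ o, if Q o' = Q o then m₁ o else 0) = a o' := by
    rw [ha]
    refine sum_congr rfl fun o _ => ?_
    by_cases hq : Q o' = Q o
    · rw [if_pos hq, if_pos hq.symm]
    · rw [if_neg hq, if_neg fun h => hq h.symm]
  rw [h6, h7]
  have h8 : a o' / a o' ≤ 1 := div_self_le_one _
  calc a o' / a o' * r o' ≤ 1 * r o' := mul_le_mul_of_nonneg_right h8 (hr0 o')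
    _ = r o' := one_mul _

theorem me_lip {m₁ m₂ : O → ℝ} (h1 : ∀ o, 0 ≤ m₁ o) {H K : O → ℝ} {B : ℝ} (hK : ∀ o, |K o| ≤ B) :
    |me m₁ H - me m₂ K| ≤ d1 m₁ H K + B * tv m₁ m₂ := by
  unfold me d1 tv
  rw [← sum_sub_distrib, mul_sum, ← sum_add_distrib]
  refine (abs_sum_le_sum_abs _ _).trans (sum_le_sum fun o _ => ?_)
  have e : m₁ o * H o - m₂ o * K o = m₁ o * (H o - K o) + (m₁ o - m₂ o) * K o := by ring
  rw [e]
  refine (abs_add_le _ _).trans (add_le_add (le_of_eq ?_) ?_)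
  · rw [abs_mul, abs_of_nonneg (h1 o)]
  · rw [abs_mul, mul_comm]
    exact mul_le_mul_of_nonneg_right (hK o) (abs_nonneg _)

theorem me_bdd {m : O → ℝ} (hm : ∀ o, 0 ≤ m o) (hs : ∑ o, m o = 1) {H : O → ℝ} {B : ℝ} (hH : ∀ o, |H o| ≤ B) :
    |me m H| ≤ B := by
  unfold me
  refine (abs_sum_le_sum_abs _ _).trans ?_
  calc ∑ o, |m o * H o| ≤ ∑ o, m o * B := sum_le_sum fun o _ => by
        rw [abs_mul, abs_of_nonneg (hm o)]
        exact mul_le_mul_of_nonneg_left (hH o) (hm o)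
    _ = B := by rw [← sum_mul, hs, one_mul]

end One

/-! ### Expressions -/

/-- Bounded Lipschitz functions of a real variable. -/
structure LipF where
  /-- the function -/
  f : ℝ → ℝ
  /-- its bound -/
  M : ℝ
  /-- its Lipschitz constant -/
  Λ : ℝ
  hM : ∀ x, |f x| ≤ M
  hΛ : ∀ x y, |f x - f y| ≤ Λ * |x - y|
  hΛ0 : 0 ≤ Λ

/-- Expressions: given functions (`ι`), constants, sums, products, bounded Lipschitz functions, conditional means given one of the maps
`β`, the mean. -/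
inductive Ex (ι β : Type*) : Type _
  /-- a given function -/
  | fn (i : ι) : Ex ι β
  /-- a constant -/
  | cst (c : ℝ) : Ex ι β
  /-- the sum -/
  | add (e e' : Ex ι β) : Ex ι β
  /-- the product -/
  | mul (e e' : Ex ι β) : Ex ι β
  /-- a bounded Lipschitz function of an expression -/
  | lf (φ : LipF) (e : Ex ι β) : Ex ι β
  /-- the conditional mean -/
  | ce (k : β) (e : Ex ι β) : Ex ι β
  /-- the mean -/
  | me (e : Ex ι β) : Ex ι β

namespace Ex

variable {ι β : Type*} {Y : Type*} [DecidableEq Y]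

/-- The value under the mass function `m`. -/
def ev {O : Type*} [Fintype O] (m : O → ℝ) (f : ι → O → ℝ) (Q : β → O → Y) : Ex ι β → O → ℝ
  | fn i => f i
  | cst c => fun _ => c
  | add e e' => fun o => ev m f Q e o + ev m f Q e' o
  | mul e e' => fun o => ev m f Q e o * ev m f Q e' o
  | lf φ e => fun o => φ.f (ev m f Q e o)
  | ce k e => Flip61.ce m (Q k) (ev m f Q e)
  | me e => fun _ => Flip61.me m (ev m f Q e)

/-- The bound of an expression. -/
def bd (b : ι → ℝ) : Ex ι β → ℝ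
  | fn i => b i
  | cst c => |c|
  | add e e' => bd b e + bd b e'
  | mul e e' => bd b e * bd b e'
  | lf φ _ => φ.M
  | ce _ e => bd b e
  | me e => bd b e

/-- The Lipschitz constant of an expression. -/
def li (b : ι → ℝ) : Ex ι β → ℝ
  | fn _ => 0
  | cst _ => 0
  | add e e' => li b e + li b e'
  | mul e e' => bd b e' * li b e + bd b e * li b e'
  | lf φ e => φ.Λ * li b e
  | ce _ e => li b e + 2 * bd b e
  | me e => li b e + bd b e

theorem bd_nonneg {b : ι → ℝ} (hb : ∀ i, 0 ≤ b i) : ∀ e : Ex ι β, 0 ≤ bd b e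
  | fn i => hb i
  | cst _ => abs_nonneg _
  | add e e' => add_nonneg (bd_nonneg hb e) (bd_nonneg hb e')
  | mul e e' => mul_nonneg (bd_nonneg hb e) (bd_nonneg hb e')
  | lf φ _ => (abs_nonneg _).trans (φ.hM 0)
  | ce _ e => bd_nonneg hb e
  | me e => bd_nonneg hb e

theorem li_nonneg {b : ι → ℝ} (hb : ∀ i, 0 ≤ b i) : ∀ e : Ex ι β, 0 ≤ li b e
  | fn _ => le_rfl
  | cst _ => le_rfl
  | add e e' => add_nonneg (li_nonneg hb e) (li_nonneg hb e')
  | mul e e' => add_nonneg (mul_nonneg (bd_nonneg hb e') (li_nonneg hb e)) (mul_nonneg (bd_nonneg hb e) (li_nonneg hb e'))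
  | lf φ e => mul_nonneg φ.hΛ0 (li_nonneg hb e)
  | ce _ e => add_nonneg (li_nonneg hb e) (mul_nonneg zero_le_two (bd_nonneg hb e))
  | me e => add_nonneg (li_nonneg hb e) (bd_nonneg hb e)

section Lip

variable {O : Type*} [Fintype O]

theorem ev_bdd {m : O → ℝ} (hm : ∀ o, 0 ≤ m o) (hs : ∑ o, m o = 1) {f : ι → O → ℝ} (Q : β → O → Y) {b : ι → ℝ}
    (hb : ∀ i, 0 ≤ b i) (hf : ∀ i o, |f i o| ≤ b i) : ∀ (e : Ex ι β) (o : O), |ev m f Q e o| ≤ bd b e
  | fn i, o => hf i o
  | cst _, _ => le_rfl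
  | add e e', o => (abs_add_le _ _).trans (add_le_add (ev_bdd hm hs Q hb hf e o) (ev_bdd hm hs Q hb hf e' o))
  | mul e e', o => by
    show |ev m f Q e o * ev m f Q e' o| ≤ bd b e * bd b e'
    rw [abs_mul]
    exact mul_le_mul (ev_bdd hm hs Q hb hf e o) (ev_bdd hm hs Q hb hf e' o) (abs_nonneg _) (bd_nonneg hb e)
  | lf φ e, o => φ.hM _
  | ce k e, o => ce_bdd hm (Q k) (bd_nonneg hb e) (fun o' => ev_bdd hm hs Q hb hf e o') o
  | me e, _ => me_bdd hm hs fun o' => ev_bdd hm hs Q hb hf e o'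

/-- **The expressions are Lipschitz** in the mass function. -/
theorem ev_lip {m₁ m₂ : O → ℝ} (h1 : ∀ o, 0 ≤ m₁ o) (h2 : ∀ o, 0 ≤ m₂ o) (s1 : ∑ o, m₁ o = 1) (s2 : ∑ o, m₂ o = 1)
    {f : ι → O → ℝ} (Q : β → O → Y) {b : ι → ℝ} (hb : ∀ i, 0 ≤ b i) (hf : ∀ i o, |f i o| ≤ b i) :
    ∀ e : Ex ι β, d1 m₁ (ev m₁ f Q e) (ev m₂ f Q e) ≤ li b e * tv m₁ m₂
  | fn i => by
    unfold d1 li
    rw [zero_mul]
    refine (sum_eq_zero fun o _ => ?_).le
    show m₁ o * |f i o - f i o| = 0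
    rw [sub_self, abs_zero, mul_zero]
  | cst c => by
    unfold d1 li
    rw [zero_mul]
    refine (sum_eq_zero fun o _ => ?_).le
    show m₁ o * |c - c| = 0
    rw [sub_self, abs_zero, mul_zero]
  | add e e' => by
    have i1 := ev_lip h1 h2 s1 s2 Q hb hf e
    have i2 := ev_lip h1 h2 s1 s2 Q hb hf e'
    have h : d1 m₁ (ev m₁ f Q (add e e')) (ev m₂ f Q (add e e')) ≤
        d1 m₁ (ev m₁ f Q e) (ev m₂ f Q e) + d1 m₁ (ev m₁ f Q e') (ev m₂ f Q e') := by
      unfold d1
      rw [← sum_add_distrib]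
      refine sum_le_sum fun o _ => ?_
      rw [← mul_add]
      refine mul_le_mul_of_nonneg_left ?_ (h1 o)
      show |(ev m₁ f Q e o + ev m₁ f Q e' o) - (ev m₂ f Q e o + ev m₂ f Q e' o)| ≤ _
      have e3 : (ev m₁ f Q e o + ev m₁ f Q e' o) - (ev m₂ f Q e o + ev m₂ f Q e' o) =
        (ev m₁ f Q e o - ev m₂ f Q e o) + (ev m₁ f Q e' o - ev m₂ f Q e' o) := by ring
      rw [e3]
      exact abs_add_le _ _
    refine h.trans ?_
    show _ ≤ (li b e + li b e') * tv m₁ m₂
    linarith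
  | mul e e' => by
    have i1 := ev_lip h1 h2 s1 s2 Q hb hf e
    have i2 := ev_lip h1 h2 s1 s2 Q hb hf e'
    have h : d1 m₁ (ev m₁ f Q (mul e e')) (ev m₂ f Q (mul e e')) ≤
        bd b e' * d1 m₁ (ev m₁ f Q e) (ev m₂ f Q e) + bd b e * d1 m₁ (ev m₁ f Q e') (ev m₂ f Q e') := by
      unfold d1
      rw [mul_sum, mul_sum, ← sum_add_distrib]
      refine sum_le_sum fun o _ => ?_
      show m₁ o * |ev m₁ f Q e o * ev m₁ f Q e' o - ev m₂ f Q e o * ev m₂ f Q e' o| ≤ _
      have e3 : ev m₁ f Q e o * ev m₁ f Q e' o - ev m₂ f Q e o * ev m₂ f Q e' o =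
        (ev m₁ f Q e o - ev m₂ f Q e o) * ev m₁ f Q e' o + ev m₂ f Q e o * (ev m₁ f Q e' o - ev m₂ f Q e' o) := by ring
      have t1 : |(ev m₁ f Q e o - ev m₂ f Q e o) * ev m₁ f Q e' o| ≤ bd b e' * |ev m₁ f Q e o - ev m₂ f Q e o| := by
        rw [abs_mul, mul_comm]
        exact mul_le_mul_of_nonneg_right (ev_bdd h1 s1 Q hb hf e' o) (abs_nonneg _)
      have t2 : |ev m₂ f Q e o * (ev m₁ f Q e' o - ev m₂ f Q e' o)| ≤ bd b e * |ev m₁ f Q e' o - ev m₂ f Q e' o| := by
        rw [abs_mul]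
        exact mul_le_mul_of_nonneg_right (ev_bdd h2 s2 Q hb hf e o) (abs_nonneg _)
      calc m₁ o * |ev m₁ f Q e o * ev m₁ f Q e' o - ev m₂ f Q e o * ev m₂ f Q e' o|
          ≤ m₁ o * (bd b e' * |ev m₁ f Q e o - ev m₂ f Q e o| + bd b e * |ev m₁ f Q e' o - ev m₂ f Q e' o|) := by
            refine mul_le_mul_of_nonneg_left ?_ (h1 o)
            rw [e3]
            exact (abs_add_le _ _).trans (add_le_add t1 t2)
        _ = _ := by ring
    refine h.trans ?_
    show _ ≤ (bd b e' * li b e + bd b e * li b e') * tv m₁ m₂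
    have j1 := mul_le_mul_of_nonneg_left i1 (bd_nonneg hb e')
    have j2 := mul_le_mul_of_nonneg_left i2 (bd_nonneg hb e)
    linarith
  | lf φ e => by
    have i1 := ev_lip h1 h2 s1 s2 Q hb hf e
    have h : d1 m₁ (ev m₁ f Q (lf φ e)) (ev m₂ f Q (lf φ e)) ≤ φ.Λ * d1 m₁ (ev m₁ f Q e) (ev m₂ f Q e) := by
      unfold d1
      rw [mul_sum]
      refine sum_le_sum fun o _ => ?_
      calc m₁ o * |φ.f (ev m₁ f Q e o) - φ.f (ev m₂ f Q e o)| ≤ m₁ o * (φ.Λ * |ev m₁ f Q e o - ev m₂ f Q e o|) :=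
            mul_le_mul_of_nonneg_left (φ.hΛ _ _) (h1 o)
        _ = _ := by ring
    refine h.trans ?_
    show _ ≤ φ.Λ * li b e * tv m₁ m₂
    rw [mul_assoc]
    exact mul_le_mul_of_nonneg_left i1 φ.hΛ0
  | ce k e => by
    have i1 := ev_lip h1 h2 s1 s2 Q hb hf e
    have h := ce_lip h1 h2 (Q k) (H := ev m₁ f Q e) (K := ev m₂ f Q e) (bd_nonneg hb e) fun o => ev_bdd h2 s2 Q hb hf e o
    refine h.trans ?_
    show _ ≤ (li b e + 2 * bd b e) * tv m₁ m₂
    linarith
  | me e => by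
    have i1 := ev_lip h1 h2 s1 s2 Q hb hf e
    have h := me_lip (m₂ := m₂) h1 (H := ev m₁ f Q e) (K := ev m₂ f Q e) fun o => ev_bdd h2 s2 Q hb hf e o
    have h3 : d1 m₁ (ev m₁ f Q (me e)) (ev m₂ f Q (me e)) = |Flip61.me m₁ (ev m₁ f Q e) - Flip61.me m₂ (ev m₂ f Q e)| := by
      unfold d1
      show ∑ o, m₁ o * |Flip61.me m₁ (ev m₁ f Q e) - Flip61.me m₂ (ev m₂ f Q e)| = _
      rw [← sum_mul, s1, one_mul]
    rw [h3]
    refine h.trans ?_
    show _ ≤ (li b e + bd b e) * tv m₁ m₂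
    linarith

/-- The mean of an expression is Lipschitz. -/
theorem me_ev_lip {m₁ m₂ : O → ℝ} (h1 : ∀ o, 0 ≤ m₁ o) (h2 : ∀ o, 0 ≤ m₂ o) (s1 : ∑ o, m₁ o = 1) (s2 : ∑ o, m₂ o = 1)
    {f : ι → O → ℝ} (Q : β → O → Y) {b : ι → ℝ} (hb : ∀ i, 0 ≤ b i) (hf : ∀ i o, |f i o| ≤ b i) (e : Ex ι β) :
    |Flip61.me m₁ (ev m₁ f Q e) - Flip61.me m₂ (ev m₂ f Q e)| ≤ (li b e + bd b e) * tv m₁ m₂ := by
  have h := me_lip (m₂ := m₂) h1 (H := ev m₁ f Q e) (K := ev m₂ f Q e) fun o => ev_bdd h2 s2 Q hb hf e o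
  have i1 := ev_lip h1 h2 s1 s2 Q hb hf e
  refine h.trans ?_
  linarith

end Lip

/-! ### The value under a Gibbs measure -/

section Gibbs

variable {X : Type*} [Fintype X] [Nonempty X]

/-- The value under the Gibbs measure with the log weights `w` on `X`. -/
def evX (w : X → ℝ) (f : ι → X → ℝ) (Q : β → X → Y) : Ex ι β → X → ℝ
  | fn i => f i
  | cst c => fun _ => c
  | add e e' => fun x => evX w f Q e x + evX w f Q e' x
  | mul e e' => fun x => evX w f Q e x * evX w f Q e' x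
  | lf φ e => fun x => φ.f (evX w f Q e x)
  | ce k e => cE w (Q k) (evX w f Q e)
  | me e => fun _ => gm w (evX w f Q e)

/-- The law of the label. -/
def lm {O : Type*} [DecidableEq O] (w : X → ℝ) (lam : X → O) (o : O) : ℝ := (∑ x, if lam x = o then Real.exp (w x) else 0) / gz w

section Label

variable {O : Type*} [Fintype O] [DecidableEq O]

theorem lm_nonneg (w : X → ℝ) (lam : X → O) (o : O) : 0 ≤ lm w lam o := by
  unfold lm
  refine div_nonneg (sum_nonneg fun x _ => ?_) (gz_pos w).le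
  split_ifs
  · exact (Real.exp_pos _).le
  · exact le_rfl

/-- The sums over the labels. -/
theorem sum_lm (w : X → ℝ) (lam : X → O) (P : O → Prop) [DecidablePred P] (H : O → ℝ) :
    (∑ o, if P o then lm w lam o * H o else 0) = (∑ x, if P (lam x) then Real.exp (w x) * H (lam x) else 0) / gz w := by
  have h1 : ∀ o, (if P o then lm w lam o * H o else 0) =
      (∑ x, if lam x = o then (if P o then Real.exp (w x) * H o else 0) else 0) / gz w := by
    intro o
    unfold lm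
    by_cases hP : P o
    · simp only [if_pos hP]
      rw [div_mul_eq_mul_div, sum_mul]
      congr 1
      refine sum_congr rfl fun x _ => ?_
      split_ifs
      · rfl
      · rw [zero_mul]
    · simp only [if_neg hP, ite_self]
      rw [sum_const_zero, zero_div]
  simp only [h1]
  rw [← sum_div, sum_comm]
  congr 1
  refine sum_congr rfl fun x _ => ?_
  rw [sum_ite_eq, if_pos (mem_univ _)]

theorem sum_lm_one (w : X → ℝ) (lam : X → O) : ∑ o, lm w lam o = 1 := by
  have h := sum_lm w lam (fun _ => True) (fun _ => 1)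
  simp only [if_true, mul_one] at h
  rw [h]
  exact div_self (gz_ne w)

theorem me_lm (w : X → ℝ) (lam : X → O) (H : O → ℝ) : Flip61.me (lm w lam) H = gm w fun x => H (lam x) := by
  have h := sum_lm w lam (fun _ => True) H
  simp only [if_true] at h
  exact h

theorem ce_lm (w : X → ℝ) (lam : X → O) (Q : O → Y) (H : O → ℝ) (x : X) :
    Flip61.ce (lm w lam) Q H (lam x) = cE w (fun x => Q (lam x)) (fun x => H (lam x)) x := by
  unfold Flip61.ce cE fz
  have h1 := sum_lm w lam (fun o => Q o = Q (lam x)) H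
  have h2 := sum_lm w lam (fun o => Q o = Q (lam x)) (fun _ => 1)
  simp only [mul_one] at h2
  rw [h1, h2, div_div_div_cancel_right₀ (gz_ne w)]

/-- **The value under a Gibbs measure** is the value under the law of the label. -/
theorem ev_evX (w : X → ℝ) (lam : X → O) (f : ι → O → ℝ) (Q : β → O → Y) : ∀ (e : Ex ι β) (x : X),
    evX w (fun i x => f i (lam x)) (fun k x => Q k (lam x)) e x = ev (lm w lam) f Q e (lam x)
  | fn _, _ => rfl
  | cst _, _ => rfl
  | add e e', x => by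
    show _ + _ = _ + _
    rw [ev_evX w lam f Q e x, ev_evX w lam f Q e' x]
  | mul e e', x => by
    show _ * _ = _ * _
    rw [ev_evX w lam f Q e x, ev_evX w lam f Q e' x]
  | lf φ e, x => by
    show φ.f _ = φ.f _
    rw [ev_evX w lam f Q e x]
  | ce k e, x => by
    show cE w (fun x => Q k (lam x)) (evX w (fun i x => f i (lam x)) (fun k x => Q k (lam x)) e) x = _
    rw [funext (ev_evX w lam f Q e), ← ce_lm w lam (Q k) (ev (lm w lam) f Q e) x]
    rfl
  | me e, x => by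
    show gm w (evX w (fun i x => f i (lam x)) (fun k x => Q k (lam x)) e) = _
    rw [funext (ev_evX w lam f Q e), ← me_lm]
    rfl

end Label

/-- The conditional mean depends only on the partition. -/
theorem cE_part {Y₁ Y₂ : Type*} [DecidableEq Y₁] [DecidableEq Y₂] (w : X → ℝ) {q : X → Y₁} {q' : X → Y₂}
    (h : ∀ x x', q x = q x' ↔ q' x = q' x') (f : X → ℝ) : cE w q f = cE w q' f := by
  funext x
  unfold cE fz
  have e1 : ∀ x', (q x' = q x) = (q' x' = q' x) := fun x' => propext (h x' x)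
  simp only [e1]

theorem evX_part {Y₁ Y₂ : Type*} [DecidableEq Y₁] [DecidableEq Y₂] (w : X → ℝ) (f : ι → X → ℝ) {q : β → X → Y₁} {q' : β → X → Y₂}
    (h : ∀ k x x', q k x = q k x' ↔ q' k x = q' k x') : ∀ e : Ex ι β, evX w f q e = evX w f q' e
  | fn _ => rfl
  | cst _ => rfl
  | add e e' => by
    funext x
    show _ + _ = _ + _
    rw [evX_part w f h e, evX_part w f h e']
  | mul e e' => by
    funext x
    show _ * _ = _ * _
    rw [evX_part w f h e, evX_part w f h e']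
  | lf φ e => by
    funext x
    show φ.f _ = φ.f _
    rw [evX_part w f h e]
  | ce k e => by
    show cE w (q k) (evX w f q e) = cE w (q' k) (evX w f q' e)
    rw [evX_part w f h e, cE_part w (h k)]
  | me e => by
    funext x
    show gm w _ = gm w _
    rw [evX_part w f h e]

end Gibbs

/-! ### Two Gibbs measures with labels -/

open Classical in
/-- **TWO GIBBS MEASURES.** `lam₁`, `lam₂` are labels with values in the same set, the given functions agree at equal labels, the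
partitions are given by the labels: the means of an expression differ by at most a constant times the total variation distance of the
laws of the labels. -/
theorem flip_obs {X₁ X₂ : Type*} [Fintype X₁] [Nonempty X₁] [Fintype X₂] [Nonempty X₂] {O : Type*} [Fintype O] [DecidableEq O]
    {Y₁ Y₂ : Type*} [DecidableEq Y₁] [DecidableEq Y₂]
    (w₁ : X₁ → ℝ) (w₂ : X₂ → ℝ) (lam₁ : X₁ → O) (lam₂ : X₂ → O) {h₁ : ι → X₁ → ℝ} {h₂ : ι → X₂ → ℝ} {q₁ : β → X₁ → Y₁}
    {q₂ : β → X₂ → Y₂} (Q : β → O → Y) {b : ι → ℝ} (hb : ∀ i, 0 ≤ b i) (b1 : ∀ i x, |h₁ i x| ≤ b i) (b2 : ∀ i x, |h₂ i x| ≤ b i)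
    (c12 : ∀ i x y, lam₁ x = lam₂ y → h₁ i x = h₂ i y) (c11 : ∀ i x y, lam₁ x = lam₁ y → h₁ i x = h₁ i y)
    (c22 : ∀ i x y, lam₂ x = lam₂ y → h₂ i x = h₂ i y)
    (p1 : ∀ k x y, q₁ k x = q₁ k y ↔ Q k (lam₁ x) = Q k (lam₁ y)) (p2 : ∀ k x y, q₂ k x = q₂ k y ↔ Q k (lam₂ x) = Q k (lam₂ y))
    (e : Ex ι β) : |gm w₁ (evX w₁ h₁ q₁ e) - gm w₂ (evX w₂ h₂ q₂ e)| ≤ (li b e + bd b e) * tv (lm w₁ lam₁) (lm w₂ lam₂) := by
  set f : ι → O → ℝ := fun i o => if h : ∃ x, lam₁ x = o then h₁ i h.choose else if h : ∃ y, lam₂ y = o then h₂ i h.choose else 0 with hf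
  have f1 : ∀ i x, f i (lam₁ x) = h₁ i x := by
    intro i x
    have h : ∃ x', lam₁ x' = lam₁ x := ⟨x, rfl⟩
    rw [hf]
    simp only [dif_pos h]
    exact c11 i _ _ h.choose_spec
  have f2 : ∀ i y, f i (lam₂ y) = h₂ i y := by
    intro i y
    rw [hf]
    by_cases h : ∃ x', lam₁ x' = lam₂ y
    · simp only [dif_pos h]
      exact c12 i _ _ h.choose_spec
    · have h' : ∃ y', lam₂ y' = lam₂ y := ⟨y, rfl⟩
      simp only [dif_neg h, dif_pos h']
      exact c22 i _ _ h'.choose_spec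
  have fb : ∀ i o, |f i o| ≤ b i := by
    intro i o
    rw [hf]
    by_cases h : ∃ x, lam₁ x = o
    · simp only [dif_pos h]
      exact b1 i _
    · by_cases h' : ∃ y, lam₂ y = o
      · simp only [dif_neg h, dif_pos h']
        exact b2 i _
      · simp only [dif_neg h, dif_neg h', abs_zero]
        exact hb i
  have g1 : gm w₁ (evX w₁ h₁ q₁ e) = Flip61.me (lm w₁ lam₁) (ev (lm w₁ lam₁) f Q e) := by
    have e1 : h₁ = fun i x => f i (lam₁ x) := by
      funext i x
      rw [f1]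
    rw [evX_part w₁ h₁ p1 e, e1, funext (ev_evX w₁ lam₁ f Q e), ← me_lm]
  have g2 : gm w₂ (evX w₂ h₂ q₂ e) = Flip61.me (lm w₂ lam₂) (ev (lm w₂ lam₂) f Q e) := by
    have e1 : h₂ = fun i x => f i (lam₂ x) := by
      funext i x
      rw [f2]
    rw [evX_part w₂ h₂ p2 e, e1, funext (ev_evX w₂ lam₂ f Q e), ← me_lm]
  rw [g1, g2]
  exact me_ev_lip (lm_nonneg w₁ lam₁) (lm_nonneg w₂ lam₂) (sum_lm_one w₁ lam₁) (sum_lm_one w₂ lam₂) Q hb fb e

end Ex

end

end Pool.Agent.W_7d29a1_C0.Flip61
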