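import Pool.Agent.W_7d29a1_C0.Flip61
import Pool.Agent.W_7d29a1_C0.FlipL61
import Pool.Agent.W_7d29a1_C0.Mod92B

/-!
CURV0 (MP_7d29a1_pr), E7, the model part. The flip of the kick of the row `j = c + k`, with the window `[c, c + l)`, for a family `Q₁` of
paths in the environment `η`, against the family `Q₂` in the environment `shj j v η` (`v = - a_j`). `tv_flip`: the laws of the outside
data of the window (positions behind the window moved by `v`) differ by the error of the clipping and the mass of the straight runs.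
(helper61)
-/

set_option autoImplicit false
set_option linter.unusedSectionVars false

namespace Pool.Agent.W_7d29a1_C0.Flip61

open Pool.Agent.W_7d29a1_F hiding W_pos W_nonneg W_add
open Finset MeasureTheory Pool.Agent.W_7d29a1_X Pool.Agent.W_7d29a1_HZ
open Pool.Agent.W_7d29a1_Z74
open Pool.Agent.W_7d29a1_HZ.Z74
open Pool.Agent.W_7d29a1_C0.Mod92
open Pool.W7d29a1.C0 (gz gm gz_pos gz_ne)
open Pool.W7d29a1.C0.VT31 (Mp cE cV cC gc gv)

noncomputable section

variable {μ : Measure ℝ} {s : ℝ}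

/-! ### The outside data of a window -/

/-- The outside data of the window `[c, c + l)`, the displacement being moved by `v`. -/
def dJ (c l : ℕ) (v : ℤ) (S : Finset ℕ) : Finset ℕ × ℤ := (S \ Ico c (c + l), ((S ∩ Ico c (c + l)).card : ℤ) + v)

theorem card_Ico_pos (S : Finset ℕ) {c d : ℕ} (h : c ≤ d) : ((S ∩ Ico c d).card : ℤ) = pos S d - pos S c := by
  have h1 := pos_split (S := S) h
  have h2 : (S \ range c) ∩ range d = S ∩ Ico c d := by
    ext i
    simp only [mem_inter, mem_sdiff, mem_range, mem_Ico]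
    constructor
    · rintro ⟨⟨h3, h4⟩, h5⟩
      exact ⟨h3, by omega, h5⟩
    · rintro ⟨h3, h4, h5⟩
      exact ⟨⟨h3, by omega⟩, h5⟩
  unfold cn at h1
  rw [h2] at h1
  omega

theorem sdiff_Ico_eq (S : Finset ℕ) (c l : ℕ) : S ∩ range c ∪ S \ range (c + l) = S \ Ico c (c + l) := by
  ext i
  simp only [mem_union, mem_inter, mem_sdiff, mem_range, mem_Ico]
  constructor
  · rintro (⟨h1, h2⟩ | ⟨h1, h2⟩)
    · exact ⟨h1, by omega⟩
    · exact ⟨h1, by omega⟩
  · rintro ⟨h1, h2⟩
    by_cases h3 : i < c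
    · exact Or.inl ⟨h1, h3⟩
    · exact Or.inr ⟨h1, by omega⟩

/-- The indicator of the paths without a straight run which leaves the cone. -/
def Ok (c l : ℕ) (v : ℤ) (S : Finset ℕ) : Prop := 0 ≤ pos S (c + l) + v - pos S c ∧ pos S (c + l) + v - pos S c ≤ (l : ℤ)

instance (c l : ℕ) (v : ℤ) (S : Finset ℕ) : Decidable (Ok c l v S) := by
  unfold Ok
  infer_instance

/-- The family of the paths of length `N` whose end satisfies `P`. -/
def fam (N : ℕ) (P : ℤ → Prop) [DecidablePred P] : Finset (Finset ℕ) := (range N).powerset.filter fun S => P (pos S N)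

theorem fam_true (N : ℕ) : fam N (fun _ => True) = Fr N := filter_true_of_mem fun _ _ => trivial

theorem fam_eq (N y : ℕ) : fam N (fun x => x = (y : ℤ)) = Pn N y := by
  unfold fam Pn
  ext S
  rw [mem_filter, mem_powersetCard, mem_powerset]
  constructor
  · rintro ⟨h1, h2⟩
    rw [pos_card h1] at h2
    exact ⟨h1, by exact_mod_cast h2⟩
  · rintro ⟨h1, h2⟩
    rw [pos_card h1, h2]
    exact ⟨h1, rfl⟩

/-- The flipped weight of the path. -/
def Rp (μ : Measure ℝ) (s : ℝ) (η : Env) (c l k : ℕ) (v : ℤ) (S : Finset ℕ) : ℝ :=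
  Rk μ s η c k (l - k) v (pos S c) (pos S (c + l))

theorem Rp_nonneg (η : Env) (c l k : ℕ) (v : ℤ) (S : Finset ℕ) : 0 ≤ Rp μ s η c l k v S := Rk_nonneg _ _ _ _ _ _ _

/-- **The flip on the outside data.** -/
theorem flip_data (η : Env) {N c l k : ℕ} (hk : k ≤ l) (hN : c + l ≤ N) (v : ℤ) (P : ℤ → Prop) [DecidablePred P]
    (H : Finset ℕ × ℤ → ℝ) :
    ∑ S ∈ fam N P, pth μ s η N S * (Rp μ s η c l k v S * H (dJ c l 0 S)) =
      ∑ S ∈ fam N (fun x => P (x + v)), pth μ s (shj ((c + k : ℕ) : ℤ) v η) N S * ((if Ok c l v S then 1 else 0) * H (dJ c l v S)) := by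
  obtain ⟨q, rfl⟩ := Nat.exists_eq_add_of_le hN
  obtain ⟨n, rfl⟩ := Nat.exists_eq_add_of_le hk
  have h := sum_flip (μ := μ) (s := s) η c k n q v
    (fun A z C => if P (z + (C.card : ℤ)) then H (A ∪ C, z - (A.card : ℤ)) else 0)
  have t1 : ∀ S ∈ (range (c + (k + n) + q)).powerset,
      pos S (c + (k + n)) + ((S \ range (c + (k + n))).card : ℤ) = pos S (c + (k + n) + q) := by
    intro S hS
    rw [mem_powerset] at hS
    rw [pos_split (S := S) (show c + (k + n) ≤ c + (k + n) + q by omega)]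
    unfold cn
    rw [inter_eq_left.2 (sdiff_subset.trans hS)]
  have t2 : ∀ S : Finset ℕ, ((S ∩ range c).card : ℤ) = pos S c := fun S => rfl
  unfold fam
  rw [sum_filter, sum_filter]
  have e1 : ∀ S ∈ (range (c + (k + n) + q)).powerset, (if P (pos S (c + (k + n) + q)) then
      pth μ s η (c + (k + n) + q) S * (Rp μ s η c (k + n) k v S * H (dJ c (k + n) 0 S)) else 0) =
      pth μ s η (c + (k + n) + q) S * (Rk μ s η c k n v (pos S c) (pos S (c + (k + n))) *
        (if P (pos S (c + (k + n)) + ((S \ range (c + (k + n))).card : ℤ)) then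
          H (S ∩ range c ∪ S \ range (c + (k + n)), pos S (c + (k + n)) - ((S ∩ range c).card : ℤ)) else 0)) := by
    intro S hS
    rw [t1 S hS, t2 S, sdiff_Ico_eq]
    unfold Rp dJ
    rw [Nat.add_sub_cancel_left, card_Ico_pos S (Nat.le_add_right _ _), add_zero]
    split_ifs
    · rfl
    · ring
  have e2 : ∀ S ∈ (range (c + (k + n) + q)).powerset, (if P (pos S (c + (k + n) + q) + v) then
      pth μ s (shj ((c + k : ℕ) : ℤ) v η) (c + (k + n) + q) S * ((if Ok c (k + n) v S then 1 else 0) * H (dJ c (k + n) v S)) else 0) =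
      pth μ s (shj ((c + k : ℕ) : ℤ) v η) (c + (k + n) + q) S *
        ((if 0 ≤ pos S (c + (k + n)) + v - pos S c ∧ pos S (c + (k + n)) + v - pos S c ≤ ((k + n : ℕ) : ℤ) then 1 else 0) *
        (if P (pos S (c + (k + n)) + v + ((S \ range (c + (k + n))).card : ℤ)) then
          H (S ∩ range c ∪ S \ range (c + (k + n)), pos S (c + (k + n)) + v - ((S ∩ range c).card : ℤ)) else 0)) := by
    intro S hS
    have e3 : pos S (c + (k + n)) + v + ((S \ range (c + (k + n))).card : ℤ) = pos S (c + (k + n) + q) + v := by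
      rw [← t1 S hS]
      ring
    rw [e3, t2 S, sdiff_Ico_eq]
    unfold Ok dJ
    rw [card_Ico_pos S (Nat.le_add_right _ _)]
    have e4 : pos S (c + (k + n)) - pos S c + v = pos S (c + (k + n)) + v - pos S c := by ring
    rw [e4]
    by_cases hP : P (pos S (c + (k + n) + q) + v)
    · rw [if_pos hP, if_pos hP]
    · rw [if_neg hP, if_neg hP]
      ring
  rw [sum_congr rfl e1, sum_congr rfl e2]
  exact h

/-! ### The total variation distance -/

section TV

variable {O : Type*} [Fintype O] [DecidableEq O]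

theorem tv_triangle (m₁ m₂ m₃ : O → ℝ) : tv m₁ m₃ ≤ tv m₁ m₂ + tv m₂ m₃ := by
  unfold tv
  rw [← sum_add_distrib]
  exact sum_le_sum fun o _ => abs_sub_le _ _ _

/-- The law of a label under a mass function. -/
def push {X : Type*} [Fintype X] (p : X → ℝ) (lam : X → O) (o : O) : ℝ := ∑ x, if lam x = o then p x else 0

theorem tv_push {X : Type*} [Fintype X] (p p' : X → ℝ) (lam : X → O) : tv (push p lam) (push p' lam) ≤ ∑ x, |p x - p' x| := by
  unfold tv push
  have h : ∀ o, |(∑ x, if lam x = o then p x else 0) - ∑ x, if lam x = o then p' x else 0| ≤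
      ∑ x, if lam x = o then |p x - p' x| else 0 := by
    intro o
    rw [← sum_sub_distrib]
    refine (abs_sum_le_sum_abs _ _).trans (sum_le_sum fun x _ => ?_)
    split_ifs
    · exact le_rfl
    · simp
  refine (sum_le_sum fun o _ => h o).trans ?_
  rw [sum_comm]
  refine sum_le_sum fun x _ => ?_
  rw [sum_ite_eq, if_pos (mem_univ _)]

theorem lm_eq_push {X : Type*} [Fintype X] [Nonempty X] (w : X → ℝ) (lam : X → O) :
    Ex.lm w lam = push (fun x => Real.exp (w x) / gz w) lam := by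
  funext o
  unfold Ex.lm push
  rw [sum_div]
  refine sum_congr rfl fun x _ => ?_
  split_ifs
  · rfl
  · rw [zero_div]

/-- Conditioning on a set: the mass function `p` restricted to `G` and normalised. -/
theorem cond_tv {X : Type*} [Fintype X] (p : X → ℝ) (hp : ∀ x, 0 ≤ p x) (hs : ∑ x, p x = 1) (G : X → Prop) [DecidablePred G]
    (hG : 0 < ∑ x, if G x then p x else 0) :
    ∑ x, |(if G x then p x else 0) / (∑ x, if G x then p x else 0) - p x| ≤ 2 * ∑ x, if G x then 0 else p x := by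
  set D := ∑ x, if G x then p x else 0 with hD
  have hD1 : D + (∑ x, if G x then 0 else p x) = 1 := by
    rw [hD, ← sum_add_distrib, ← hs]
    refine sum_congr rfl fun x _ => ?_
    split_ifs <;> ring
  have hD0 : 0 ≤ ∑ x, if G x then 0 else p x := sum_nonneg fun x _ => by
    split_ifs
    · exact le_rfl
    · exact hp x
  have key : ∀ x, |(if G x then p x else 0) / D - p x| = (if G x then p x else 0) * (1 / D - 1) + if G x then 0 else p x := by
    intro x
    split_ifs with h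
    · have h1 : p x / D - p x = p x * (1 / D - 1) := by ring
      have h2 : 0 ≤ 1 / D - 1 := by
        rw [sub_nonneg, le_div_iff₀ hG]
        linarith
      rw [h1, abs_of_nonneg (mul_nonneg (hp x) h2), add_zero]
    · rw [zero_div, zero_sub, abs_neg, abs_of_nonneg (hp x), zero_mul, zero_add]
  rw [sum_congr rfl fun x _ => key x, sum_add_distrib, ← sum_mul, ← hD]
  have h3 : D * (1 / D - 1) = 1 - D := by
    field_simp
  rw [h3]
  linarith

end TV

/-! ### The two measures -/

/-- The label of a path. -/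
def lab {N : ℕ} {Q : Finset (Finset ℕ)} (hQ : Q ⊆ Fr N) (c l : ℕ) {v : ℤ} (hv : |v| ≤ 1) (S : Px Q) :
    {o : Finset ℕ × ℤ // o ∈ (range N).powerset ×ˢ Icc (-1 : ℤ) (N + 1)} :=
  ⟨dJ c l v S.1, by
    have h1 := hQ S.2
    rw [mem_powerset] at h1
    rw [mem_product, mem_powerset, mem_Icc]
    have h2 : (S.1 ∩ Ico c (c + l)).card ≤ N := by
      calc (S.1 ∩ Ico c (c + l)).card ≤ S.1.card := card_le_card inter_subset_left
        _ ≤ (range N).card := card_le_card h1
        _ = N := card_range N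
    obtain ⟨h3, h4⟩ := abs_le.1 hv
    unfold dJ
    refine ⟨sdiff_subset.trans h1, ?_, ?_⟩
    · show -1 ≤ ((S.1 ∩ Ico c (c + l)).card : ℤ) + v
      omega
    · show ((S.1 ∩ Ico c (c + l)).card : ℤ) + v ≤ N + 1
      omega⟩

/-- **THE FLIP, IN TOTAL VARIATION.** `w₁`: any log weights on the family `Q₁` (the clipped flip). -/
theorem tv_flip (η : Env) {N c l k : ℕ} (hk : k ≤ l) (hN : c + l ≤ N) {v : ℤ} (hv : |v| ≤ 1) (h0 : |(0 : ℤ)| ≤ 1)
    (P : ℤ → Prop) [DecidablePred P] {Q₁ Q₂ : Finset (Finset ℕ)} (e1 : Q₁ = fam N P) (e2 : Q₂ = fam N fun x => P (x + v))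
    (hQ₁ : Q₁ ⊆ Fr N) (hQ₂ : Q₂ ⊆ Fr N) [Nonempty (Px Q₁)] [Nonempty (Px Q₂)] (w₁ : Px Q₁ → ℝ)
    (hD : 0 < ∑ S ∈ Q₁, pth μ s η N S * Rp μ s η c l k v S) :
    tv (Ex.lm w₁ (lab hQ₁ c l h0)) (Ex.lm (lw μ s (shj ((c + k : ℕ) : ℤ) v η) N Q₂) (lab hQ₂ c l hv)) ≤
      (∑ S : Px Q₁, |Real.exp (w₁ S) / gz w₁ - pth μ s η N S.1 * Rp μ s η c l k v S.1 /
        ∑ S ∈ Q₁, pth μ s η N S * Rp μ s η c l k v S|) +
      2 * gm (lw μ s (shj ((c + k : ℕ) : ℤ) v η) N Q₂) (fun S => if Ok c l v S.1 then 0 else 1) := by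
  set η' := shj ((c + k : ℕ) : ℤ) v η with hη'
  set D := ∑ S ∈ Q₁, pth μ s η N S * Rp μ s η c l k v S with hDdef
  set w₂ := lw μ s η' N Q₂ with hw2
  -- the exact flip
  set p₁ : Px Q₁ → ℝ := fun S => pth μ s η N S.1 * Rp μ s η c l k v S.1 / D with hp1
  set p₂ : Px Q₂ → ℝ := fun S => Real.exp (w₂ S) / gz w₂ with hp2
  have hp2s : ∑ S, p₂ S = 1 := by
    rw [hp2, ← sum_div]
    exact div_self (gz_ne w₂)
  have hp20 : ∀ S, 0 ≤ p₂ S := fun S => div_nonneg (Real.exp_pos _).le (gz_pos w₂).le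
  -- the normaliser
  have hD2 : D = gz w₂ * ∑ S : Px Q₂, if Ok c l v S.1 then p₂ S else 0 := by
    have h := flip_data (μ := μ) (s := s) η hk hN v P (fun _ => 1)
    rw [← e1, ← e2, ← hη'] at h
    simp only [mul_one] at h
    rw [hDdef, h, mul_sum, ← sum_Px]
    refine sum_congr rfl fun S _ => ?_
    split_ifs
    · rw [mul_one, hp2]
      show _ = gz w₂ * (Real.exp (w₂ S) / gz w₂)
      rw [mul_div_cancel₀ _ (gz_ne w₂), hw2, exp_lw]
    · rw [mul_zero, mul_zero]
  have hpos : 0 < ∑ S : Px Q₂, if Ok c l v S.1 then p₂ S else 0 := by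
    by_contra hc
    have h1 : D ≤ 0 := by
      rw [hD2]
      exact mul_nonpos_of_nonneg_of_nonpos (gz_pos w₂).le (not_lt.1 hc)
    linarith
  set p₃ : Px Q₂ → ℝ := fun S => (if Ok c l v S.1 then p₂ S else 0) / ∑ S : Px Q₂, (if Ok c l v S.1 then p₂ S else 0) with hp3
  have hpush : push p₁ (lab hQ₁ c l h0) = push p₃ (lab hQ₂ c l hv) := by
    funext o
    have h := flip_data (μ := μ) (s := s) η hk hN v P (fun o' => if o' = o.1 then 1 else 0)
    rw [← e1, ← e2, ← hη'] at h
    have t1 : push p₁ (lab hQ₁ c l h0) o = (∑ S ∈ Q₁, pth μ s η N S * (Rp μ s η c l k v S * if dJ c l 0 S = o.1 then 1 else 0)) / D := by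
      unfold push
      rw [← sum_Px, sum_div]
      refine sum_congr rfl fun S _ => ?_
      have e3 : (lab hQ₁ c l h0 S = o) ↔ dJ c l 0 S.1 = o.1 := Subtype.ext_iff
      by_cases h3 : dJ c l 0 S.1 = o.1
      · rw [if_pos (e3.2 h3), if_pos h3, mul_one]
      · rw [if_neg fun h4 => h3 (e3.1 h4), if_neg h3, mul_zero, mul_zero, zero_div]
    have t2 : push p₃ (lab hQ₂ c l hv) o = (∑ S ∈ Q₂, pth μ s η' N S * ((if Ok c l v S then 1 else 0) *
        if dJ c l v S = o.1 then 1 else 0)) / D := by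
      unfold push
      rw [← sum_Px, sum_div]
      refine sum_congr rfl fun S _ => ?_
      have e3 : (lab hQ₂ c l hv S = o) ↔ dJ c l v S.1 = o.1 := Subtype.ext_iff
      by_cases h3 : dJ c l v S.1 = o.1
      · rw [if_pos (e3.2 h3), if_pos h3, mul_one, hp3]
        show (if Ok c l v S.1 then p₂ S else 0) / _ = _
        rw [hD2]
        split_ifs
        · rw [mul_one, ← exp_lw (Q := Q₂) η' S, ← hw2, hp2, div_div]
        · rw [zero_div, mul_zero, zero_div]
      · rw [if_neg fun h4 => h3 (e3.1 h4), if_neg h3, mul_zero, mul_zero, zero_div]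
    rw [t1, t2, h]
  have s1 : tv (Ex.lm w₁ (lab hQ₁ c l h0)) (push p₁ (lab hQ₁ c l h0)) ≤ ∑ S, |Real.exp (w₁ S) / gz w₁ - p₁ S| := by
    rw [lm_eq_push]
    exact tv_push _ _ _
  have s2 : tv (push p₃ (lab hQ₂ c l hv)) (Ex.lm w₂ (lab hQ₂ c l hv)) ≤ ∑ S, |p₃ S - p₂ S| := by
    rw [lm_eq_push]
    exact tv_push _ _ _
  have s3 := cond_tv p₂ hp20 hp2s (fun S => Ok c l v S.1) hpos
  have s4 : (∑ S, if Ok c l v S.1 then 0 else p₂ S) = gm w₂ fun S => if Ok c l v S.1 then 0 else 1 := by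
    unfold gm
    rw [sum_div]
    refine sum_congr rfl fun S _ => ?_
    beta_reduce
    split_ifs
    · rw [mul_zero, zero_div]
    · rw [mul_one]
  rw [← s4]
  refine (tv_triangle _ (push p₁ (lab hQ₁ c l h0)) _).trans (add_le_add s1 ?_)
  rw [hpush]
  exact s2.trans s3

end

end Pool.Agent.W_7d29a1_C0.Flip61
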