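import Pool.Agent.W_7d29a1_C0.FlipL61
import Pool.Agent.W_7d29a1_C0.Ins52

/-!
CURV0 (MP_7d29a1_pr), E7, LIPSCHITZ CALCULUS FOR SEVERAL REPLICAS, first part. Tilted conditional means `ct` and tilted means `mt` on a
finite set of labels; `ct_diff`, `mt_diff`: under two mass functions. `Adm m E C`: positive functionals `E` of functions of `n` replicas
with marginals at most `C` times `m`; a new replica in the fibre of the replica `i` (`Adm.gi`), a new free replica (`Adm.fr`), reindexing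
(`Adm.re`). (helper4)
-/

set_option autoImplicit false
set_option linter.unusedSectionVars false
set_option linter.unusedVariables false

namespace Pool.Agent.W_7d29a1_C0.FlipP4

open Finset
open Pool.W7d29a1.C0 (gz gm gz_pos gz_ne gm_const gm_mono)
open Pool.W7d29a1.C0.VT31 (Mp cE cV cC gc gv fz fz_pos)
open Pool.Agent.W_7d29a1_C0.Flip61 (ce me tv tv_nonneg LipF ce_bdd)

noncomputable section

/-! ### Tilted conditional means on labels -/

section One

variable {O : Type*} [Fintype O] {Y : Type*} [DecidableEq Y]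

/-- The tilted mass function. -/
def tm (m ψ : O → ℝ) (o : O) : ℝ := m o * Real.exp (ψ o)

/-- The conditional mean given `Q` under the mass function `m`, tilted by `ψ`. -/
def ct (m ψ : O → ℝ) (Q : O → Y) (H : O → ℝ) (o : O) : ℝ := ce (tm m ψ) Q H o

/-- The mean under the mass function `m`, tilted by `ψ`. -/
def mt (m ψ H : O → ℝ) : ℝ := (∑ o, tm m ψ o * H o) / ∑ o, tm m ψ o

theorem tm_nonneg {m ψ : O → ℝ} (hm : ∀ o, 0 ≤ m o) (o : O) : 0 ≤ tm m ψ o := mul_nonneg (hm o) (Real.exp_pos _).le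

theorem tm_le {m ψ : O → ℝ} (hm : ∀ o, 0 ≤ m o) {K : ℝ} (hψ : ∀ o, |ψ o| ≤ K) (o : O) : tm m ψ o ≤ Real.exp K * m o := by
  unfold tm
  rw [mul_comm]
  exact mul_le_mul_of_nonneg_right (Real.exp_le_exp.2 (abs_le.1 (hψ o)).2) (hm o)

theorem le_tm {m ψ : O → ℝ} (hm : ∀ o, 0 ≤ m o) {K : ℝ} (hψ : ∀ o, |ψ o| ≤ K) (o : O) : m o ≤ Real.exp K * tm m ψ o := by
  unfold tm
  have h1 : (1 : ℝ) ≤ Real.exp K * Real.exp (ψ o) := by
    rw [← Real.exp_add]
    exact Real.one_le_exp (by linarith [(abs_le.1 (hψ o)).1])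
  have h2 := mul_le_mul_of_nonneg_right h1 (hm o)
  linarith

theorem abs_tm_sub {m₁ m₂ ψ : O → ℝ} {K : ℝ} (hψ : ∀ o, |ψ o| ≤ K) (o : O) :
    |tm m₁ ψ o - tm m₂ ψ o| ≤ Real.exp K * |m₁ o - m₂ o| := by
  unfold tm
  rw [← sub_mul, abs_mul, abs_of_pos (Real.exp_pos _), mul_comm]
  exact mul_le_mul_of_nonneg_right (Real.exp_le_exp.2 (abs_le.1 (hψ o)).2) (abs_nonneg _)

theorem ct_bdd {m ψ : O → ℝ} (hm : ∀ o, 0 ≤ m o) (Q : O → Y) {H : O → ℝ} {B : ℝ} (hB : 0 ≤ B) (hH : ∀ o, |H o| ≤ B) (o : O) :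
    |ct m ψ Q H o| ≤ B := ce_bdd (tm_nonneg hm) Q hB hH o

theorem ce_mono {m : O → ℝ} (hm : ∀ o, 0 ≤ m o) (Q : O → Y) {H K : O → ℝ} (h : ∀ o, H o ≤ K o) (o : O) : ce m Q H o ≤ ce m Q K o := by
  unfold ce
  refine div_le_div_of_nonneg_right (sum_le_sum fun o' _ => ?_) (sum_nonneg fun o' _ => ?_)
  · split_ifs
    · exact mul_le_mul_of_nonneg_left (h o') (hm o')
    · exact le_rfl
  · split_ifs
    · exact hm o'
    · exact le_rfl

theorem ce_add (m : O → ℝ) (Q : O → Y) (H K : O → ℝ) (o : O) : ce m Q (fun o => H o + K o) o = ce m Q H o + ce m Q K o := by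
  unfold ce
  rw [← add_div, ← sum_add_distrib]
  congr 1
  refine sum_congr rfl fun o' _ => ?_
  split_ifs <;> ring

theorem ce_sub (m : O → ℝ) (Q : O → Y) (H K : O → ℝ) (o : O) : ce m Q (fun o => H o - K o) o = ce m Q H o - ce m Q K o := by
  unfold ce
  rw [← sub_div, ← sum_sub_distrib]
  congr 1
  refine sum_congr rfl fun o' _ => ?_
  split_ifs <;> ring

theorem ce_smul (m : O → ℝ) (Q : O → Y) (c : ℝ) (H : O → ℝ) (o : O) : ce m Q (fun o => c * H o) o = c * ce m Q H o := by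
  unfold ce
  rw [← mul_div_assoc, mul_sum]
  congr 1
  refine sum_congr rfl fun o' _ => ?_
  split_ifs <;> ring

theorem ce_nonneg {m : O → ℝ} (hm : ∀ o, 0 ≤ m o) (Q : O → Y) {H : O → ℝ} (h : ∀ o, 0 ≤ H o) (o : O) : 0 ≤ ce m Q H o := by
  have h1 := ce_mono hm Q h o
  have h2 := ce_smul m Q 0 (fun _ => 1) o
  simp only [zero_mul] at h2
  rwa [h2] at h1

theorem ce_const_le {m : O → ℝ} (hm : ∀ o, 0 ≤ m o) (Q : O → Y) {c : ℝ} (hc : 0 ≤ c) (o : O) : ce m Q (fun _ => c) o ≤ c :=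
  (abs_le.1 (ce_bdd hm Q hc (fun _ => le_of_eq (abs_of_nonneg hc)) o)).2

theorem abs_ce_le {m : O → ℝ} (hm : ∀ o, 0 ≤ m o) (Q : O → Y) (H : O → ℝ) (o : O) : |ce m Q H o| ≤ ce m Q (fun o => |H o|) o := by
  rw [abs_le]
  constructor
  · have h1 := ce_mono hm Q (fun o => neg_abs_le (H o)) o
    have h2 := ce_smul m Q (-1) (fun o => |H o|) o
    simp only [neg_mul, one_mul] at h2
    rwa [h2] at h1
  · exact ce_mono hm Q (fun o => le_abs_self (H o)) o

theorem mt_mono {m ψ : O → ℝ} (hm : ∀ o, 0 ≤ m o) {H K : O → ℝ} (h : ∀ o, H o ≤ K o) : mt m ψ H ≤ mt m ψ K :=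
  div_le_div_of_nonneg_right (sum_le_sum fun o _ => mul_le_mul_of_nonneg_left (h o) (tm_nonneg hm o)) (sum_nonneg fun o _ => tm_nonneg hm o)

theorem mt_add (m ψ H K : O → ℝ) : mt m ψ (fun o => H o + K o) = mt m ψ H + mt m ψ K := by
  unfold mt
  rw [← add_div, ← sum_add_distrib]
  congr 1
  exact sum_congr rfl fun o _ => by ring

theorem mt_sub (m ψ H K : O → ℝ) : mt m ψ (fun o => H o - K o) = mt m ψ H - mt m ψ K := by
  unfold mt
  rw [← sub_div, ← sum_sub_distrib]
  congr 1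
  exact sum_congr rfl fun o _ => by ring

theorem mt_smul (m ψ : O → ℝ) (c : ℝ) (H : O → ℝ) : mt m ψ (fun o => c * H o) = c * mt m ψ H := by
  unfold mt
  rw [← mul_div_assoc, mul_sum]
  congr 1
  exact sum_congr rfl fun o _ => by ring

theorem mt_nonneg {m ψ : O → ℝ} (hm : ∀ o, 0 ≤ m o) {H : O → ℝ} (h : ∀ o, 0 ≤ H o) : 0 ≤ mt m ψ H :=
  div_nonneg (sum_nonneg fun o _ => mul_nonneg (tm_nonneg hm o) (h o)) (sum_nonneg fun o _ => tm_nonneg hm o)

theorem mt_const_le {m ψ : O → ℝ} {c : ℝ} (hc : 0 ≤ c) : mt m ψ (fun _ => c) ≤ c := by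
  unfold mt
  rw [← sum_mul, mul_div_right_comm]
  calc (∑ o, tm m ψ o) / (∑ o, tm m ψ o) * c ≤ 1 * c := mul_le_mul_of_nonneg_right (div_self_le_one _) hc
    _ = c := one_mul c

theorem mt_bdd {m ψ : O → ℝ} (hm : ∀ o, 0 ≤ m o) {H : O → ℝ} {B : ℝ} (hB : 0 ≤ B) (hH : ∀ o, |H o| ≤ B) : |mt m ψ H| ≤ B := by
  rw [abs_le]
  constructor
  · have h1 := mt_mono (ψ := ψ) hm fun o => (abs_le.1 (hH o)).1
    have h2 := mt_smul m ψ (-1) (fun _ => B)
    simp only [neg_mul, one_mul] at h2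
    have h3 := mt_const_le (m := m) (ψ := ψ) hB
    linarith
  · exact (mt_mono (ψ := ψ) hm fun o => (abs_le.1 (hH o)).2).trans (mt_const_le hB)

theorem abs_mt_le {m ψ : O → ℝ} (hm : ∀ o, 0 ≤ m o) (H : O → ℝ) : |mt m ψ H| ≤ mt m ψ fun o => |H o| := by
  rw [abs_le]
  constructor
  · have h1 := mt_mono (ψ := ψ) hm fun o => neg_abs_le (H o)
    have h2 := mt_smul m ψ (-1) fun o => |H o|
    simp only [neg_mul, one_mul] at h2
    rwa [h2] at h1
  · exact mt_mono hm fun o => le_abs_self (H o)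

/-- The tilted conditional mean of a nonnegative function. -/
theorem ct_le_ce {m ψ : O → ℝ} (hm : ∀ o, 0 ≤ m o) {K : ℝ} (hψ : ∀ o, |ψ o| ≤ K) (Q : O → Y) {H : O → ℝ} (hH : ∀ o, 0 ≤ H o) (o : O) :
    ct m ψ Q H o ≤ Real.exp (2 * K) * ce m Q H o := by
  unfold ct ce
  set a := ∑ o', if Q o' = Q o then m o' else 0 with ha
  set a' := ∑ o', if Q o' = Q o then tm m ψ o' else 0 with ha'
  have ha0 : 0 ≤ a := sum_nonneg fun o' _ => by
    split_ifs
    · exact hm o'
    · exact le_rfl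
  have ha'0 : 0 ≤ a' := sum_nonneg fun o' _ => by
    split_ifs
    · exact tm_nonneg hm o'
    · exact le_rfl
  have h1 : a ≤ Real.exp K * a' := by
    rw [ha, ha', mul_sum]
    refine sum_le_sum fun o' _ => ?_
    split_ifs
    · exact le_tm hm hψ o'
    · rw [mul_zero]
  have h2 : (∑ o', if Q o' = Q o then tm m ψ o' * H o' else 0) ≤ Real.exp K * ∑ o', if Q o' = Q o then m o' * H o' else 0 := by
    rw [mul_sum]
    refine sum_le_sum fun o' _ => ?_
    split_ifs
    · rw [← mul_assoc]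
      exact mul_le_mul_of_nonneg_right (tm_le hm hψ o') (hH o')
    · rw [mul_zero]
  have hS : 0 ≤ ∑ o', if Q o' = Q o then m o' * H o' else 0 := sum_nonneg fun o' _ => by
    split_ifs
    · exact mul_nonneg (hm o') (hH o')
    · exact le_rfl
  rcases ha0.eq_or_lt with h0 | h0
  · have h3 : (∑ o', if Q o' = Q o then tm m ψ o' * H o' else 0) ≤ 0 := by
      refine h2.trans (le_of_eq ?_)
      have h4 : (∑ o', if Q o' = Q o then m o' * H o' else 0) = 0 := by
        have h5 := (sum_eq_zero_iff_of_nonneg (fun o' _ => by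
          split_ifs
          · exact hm o'
          · exact le_rfl)).1 h0.symm
        refine sum_eq_zero fun o' ho' => ?_
        have h6 := h5 o' ho'
        by_cases hq : Q o' = Q o
        · rw [if_pos hq] at h6
          rw [if_pos hq, h6, zero_mul]
        · rw [if_neg hq]
      rw [h4, mul_zero]
    exact (div_nonpos_of_nonpos_of_nonneg h3 ha'0).trans (mul_nonneg (Real.exp_pos _).le (div_nonneg hS ha0))
  · have ha'p : 0 < a' := by
      by_contra hc
      have h3 : a' = 0 := le_antisymm (not_lt.1 hc) ha'0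
      rw [h3, mul_zero] at h1
      linarith
    rw [div_le_iff₀ ha'p]
    refine h2.trans ?_
    have e : Real.exp (2 * K) * ((∑ o', if Q o' = Q o then m o' * H o' else 0) / a) * a' =
        Real.exp K * (∑ o', if Q o' = Q o then m o' * H o' else 0) * (Real.exp K * a' / a) := by
      rw [two_mul, Real.exp_add]
      field_simp
    rw [e]
    have h4 : 1 ≤ Real.exp K * a' / a := by
      rw [le_div_iff₀ h0, one_mul]
      exact h1
    have h5 : 0 ≤ Real.exp K * ∑ o', if Q o' = Q o then m o' * H o' else 0 := mul_nonneg (Real.exp_pos _).le hS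
    nlinarith

theorem mt_le_me {m ψ : O → ℝ} (hm : ∀ o, 0 ≤ m o) (hs : ∑ o, m o = 1) {K : ℝ} (hψ : ∀ o, |ψ o| ≤ K) {H : O → ℝ}
    (hH : ∀ o, 0 ≤ H o) : mt m ψ H ≤ Real.exp (2 * K) * me m H := by
  unfold mt me
  have h1 : 1 ≤ Real.exp K * ∑ o, tm m ψ o := by
    rw [← hs, mul_sum]
    exact sum_le_sum fun o _ => le_tm hm hψ o
  have h2 : ∑ o, tm m ψ o * H o ≤ Real.exp K * ∑ o, m o * H o := by
    rw [mul_sum]
    refine sum_le_sum fun o _ => ?_
    rw [← mul_assoc]
    exact mul_le_mul_of_nonneg_right (tm_le hm hψ o) (hH o)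
  have hS : 0 ≤ ∑ o, m o * H o := sum_nonneg fun o _ => mul_nonneg (hm o) (hH o)
  have hp : 0 < ∑ o, tm m ψ o := by
    by_contra hc
    have h3 : Real.exp K * ∑ o, tm m ψ o ≤ 0 := mul_nonpos_of_nonneg_of_nonpos (Real.exp_pos _).le (not_lt.1 hc)
    linarith
  rw [div_le_iff₀ hp]
  refine h2.trans ?_
  have e : Real.exp (2 * K) * (∑ o, m o * H o) * ∑ o, tm m ψ o =
      Real.exp K * (∑ o, m o * H o) * (Real.exp K * ∑ o, tm m ψ o) := by
    rw [two_mul, Real.exp_add]
    ring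
  rw [e]
  have h5 : 0 ≤ Real.exp K * ∑ o, m o * H o := mul_nonneg (Real.exp_pos _).le hS
  nlinarith

/-- The relative difference of the masses of the class of `o`. -/
def rd (m₁ m₂ : O → ℝ) (Q : O → Y) (o : O) : ℝ := (∑ o', if Q o' = Q o then |m₁ o' - m₂ o'| else 0) / ∑ o', if Q o' = Q o then m₁ o' else 0

theorem rd_nonneg {m₁ m₂ : O → ℝ} (h1 : ∀ o, 0 ≤ m₁ o) (Q : O → Y) (o : O) : 0 ≤ rd m₁ m₂ Q o :=
  div_nonneg (sum_nonneg fun o' _ => by
    split_ifs
    · exact abs_nonneg _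
    · exact le_rfl) (sum_nonneg fun o' _ => by
    split_ifs
    · exact h1 o'
    · exact le_rfl)

theorem me_rd {m₁ m₂ : O → ℝ} (h1 : ∀ o, 0 ≤ m₁ o) (Q : O → Y) : me m₁ (rd m₁ m₂ Q) ≤ tv m₁ m₂ := by
  unfold me tv rd
  set a : O → ℝ := fun o => ∑ o', if Q o' = Q o then m₁ o' else 0 with ha
  have ha0 : ∀ o, 0 ≤ a o := fun o => sum_nonneg fun o' _ => by
    split_ifs
    · exact h1 o'
    · exact le_rfl
  have e1 : ∀ o, m₁ o * ((∑ o', if Q o' = Q o then |m₁ o' - m₂ o'| else 0) / a o) =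
      ∑ o', if Q o' = Q o then m₁ o / a o * |m₁ o' - m₂ o'| else 0 := by
    intro o
    rw [mul_div_assoc', div_eq_mul_inv, mul_sum, sum_mul]
    refine sum_congr rfl fun o' _ => ?_
    split_ifs
    · rw [div_eq_mul_inv]
      ring
    · ring
  rw [sum_congr rfl fun o _ => e1 o, sum_comm]
  refine sum_le_sum fun o' _ => ?_
  have h5 : ∑ o, (if Q o' = Q o then m₁ o / a o * |m₁ o' - m₂ o'| else 0) =
      (∑ o, if Q o' = Q o then m₁ o / a o else 0) * |m₁ o' - m₂ o'| := by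
    rw [sum_mul]
    refine sum_congr rfl fun o _ => ?_
    split_ifs
    · rfl
    · rw [zero_mul]
  rw [h5]
  have h6 : ∑ o, (if Q o' = Q o then m₁ o / a o else 0) = (∑ o, if Q o' = Q o then m₁ o else 0) / a o' := by
    rw [sum_div]
    refine sum_congr rfl fun o _ => ?_
    split_ifs with hq
    · have : a o = a o' := by
        rw [ha]
        simp only [hq]
      rw [this]
    · rw [zero_div]
  have h7 : (∑ o, if Q o' = Q o then m₁ o else 0) = a o' := by
    rw [ha]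
    refine sum_congr rfl fun o _ => ?_
    by_cases hq : Q o' = Q o
    · rw [if_pos hq, if_pos hq.symm]
    · rw [if_neg hq, if_neg fun h => hq h.symm]
  rw [h6, h7]
  calc a o' / a o' * |m₁ o' - m₂ o'| ≤ 1 * |m₁ o' - m₂ o'| := mul_le_mul_of_nonneg_right (div_self_le_one _) (abs_nonneg _)
    _ = _ := one_mul _

/-- **ONE CLASS.** If the class of `o` has mass `0` under `m₁`, the bound is `2 B`. -/
theorem ct_diff {m₁ m₂ ψ : O → ℝ} (h1 : ∀ o, 0 ≤ m₁ o) (h2 : ∀ o, 0 ≤ m₂ o) {K : ℝ} (hψ : ∀ o, |ψ o| ≤ K) (Q : O → Y) {H : O → ℝ} {B : ℝ}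
    (hB : 0 ≤ B) (hH : ∀ o, |H o| ≤ B) (o : O) :
    |ct m₁ ψ Q H o - ct m₂ ψ Q H o| ≤ 2 * B * (Real.exp (2 * K) * rd m₁ m₂ Q o) +
      2 * B * (if (∑ o', if Q o' = Q o then m₁ o' else 0) = 0 then 1 else 0) := by
  set a := ∑ o', if Q o' = Q o then m₁ o' else 0 with ha
  have hb1 : |ct m₁ ψ Q H o - ct m₂ ψ Q H o| ≤ 2 * B := by
    have t1 := ct_bdd (ψ := ψ) h1 Q hB hH o
    have t2 := ct_bdd (ψ := ψ) h2 Q hB hH o
    have t3 := abs_sub (ct m₁ ψ Q H o) (ct m₂ ψ Q H o)
    linarith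
  have hr : 0 ≤ rd m₁ m₂ Q o := rd_nonneg h1 Q o
  by_cases h0 : a = 0
  · rw [if_pos h0]
    have : 0 ≤ 2 * B * (Real.exp (2 * K) * rd m₁ m₂ Q o) := by positivity
    linarith
  · rw [if_neg h0, mul_zero, add_zero]
    have ha0 : 0 ≤ a := sum_nonneg fun o' _ => by
      split_ifs
      · exact h1 o'
      · exact le_rfl
    have hap : 0 < a := lt_of_le_of_ne ha0 (Ne.symm h0)
    set a' := ∑ o', if Q o' = Q o then tm m₁ ψ o' else 0 with ha'
    have h3 : a ≤ Real.exp K * a' := by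
      rw [ha, ha', mul_sum]
      refine sum_le_sum fun o' _ => ?_
      split_ifs
      · exact le_tm h1 hψ o'
      · rw [mul_zero]
    have ha'p : 0 < a' := by
      by_contra hc
      have h4 : Real.exp K * a' ≤ 0 := mul_nonpos_of_nonneg_of_nonpos (Real.exp_pos _).le (not_lt.1 hc)
      linarith
    have h4 := Flip61.ce_diff (m₁ := tm m₁ ψ) (m₂ := tm m₂ ψ) (tm_nonneg h1) (tm_nonneg h2) Q (H := H) (K := H) hB hH o ha'p
    have h5 : (∑ o', if Q o' = Q o then tm m₁ ψ o' * |H o' - H o'| + 2 * B * |tm m₁ ψ o' - tm m₂ ψ o'| else 0) ≤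
        2 * B * (Real.exp K * ∑ o', if Q o' = Q o then |m₁ o' - m₂ o'| else 0) := by
      rw [mul_sum, mul_sum]
      refine sum_le_sum fun o' _ => ?_
      split_ifs
      · rw [sub_self, abs_zero, mul_zero, zero_add]
        exact mul_le_mul_of_nonneg_left (abs_tm_sub hψ o') (by positivity)
      · rw [mul_zero, mul_zero]
    have h6 : a' * |ct m₁ ψ Q H o - ct m₂ ψ Q H o| ≤ 2 * B * (Real.exp K * ∑ o', if Q o' = Q o then |m₁ o' - m₂ o'| else 0) := h4.trans h5
    have hs : 0 ≤ ∑ o', if Q o' = Q o then |m₁ o' - m₂ o'| else 0 := sum_nonneg fun o' _ => by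
      split_ifs
      · exact abs_nonneg _
      · exact le_rfl
    have h7 : a * |ct m₁ ψ Q H o - ct m₂ ψ Q H o| ≤
        2 * B * (Real.exp (2 * K) * ∑ o', if Q o' = Q o then |m₁ o' - m₂ o'| else 0) := by
      calc a * |ct m₁ ψ Q H o - ct m₂ ψ Q H o| ≤ Real.exp K * a' * |ct m₁ ψ Q H o - ct m₂ ψ Q H o| :=
            mul_le_mul_of_nonneg_right h3 (abs_nonneg _)
        _ = Real.exp K * (a' * |ct m₁ ψ Q H o - ct m₂ ψ Q H o|) := by ring
        _ ≤ Real.exp K * (2 * B * (Real.exp K * ∑ o', if Q o' = Q o then |m₁ o' - m₂ o'| else 0)) :=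
            mul_le_mul_of_nonneg_left h6 (Real.exp_pos _).le
        _ = _ := by
          rw [two_mul K, Real.exp_add]
          ring
    unfold rd
    rw [← ha, mul_div_assoc', mul_div_assoc', le_div_iff₀ hap, mul_comm _ a]
    exact h7

/-- The tilted means under two mass functions. -/
theorem mt_diff {m₁ m₂ ψ : O → ℝ} (h1 : ∀ o, 0 ≤ m₁ o) (h2 : ∀ o, 0 ≤ m₂ o) (s1 : ∑ o, m₁ o = 1) {K : ℝ} (hψ : ∀ o, |ψ o| ≤ K)
    {H : O → ℝ} {B : ℝ} (hB : 0 ≤ B) (hH : ∀ o, |H o| ≤ B) :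
    |mt m₁ ψ H - mt m₂ ψ H| ≤ 2 * B * (Real.exp (2 * K) * tv m₁ m₂) := by
  have hO : Nonempty O := by
    by_contra hc
    rw [not_nonempty_iff] at hc
    rw [Finset.univ_eq_empty, sum_empty] at s1
    exact zero_ne_one s1
  obtain ⟨o⟩ := hO
  have e0 : ∀ m : O → ℝ, ct m ψ (fun _ => ()) H o = mt m ψ H := fun m => by
    unfold ct ce mt
    simp only [if_true]
  have h := ct_diff h1 h2 hψ (fun _ => ()) hB hH o
  have s2 : (∑ o', if (() : Unit) = () then m₁ o' else 0) = 1 := by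
    simp only [if_true]
    exact s1
  rw [e0, e0] at h
  unfold rd at h
  rw [s2, if_neg one_ne_zero, mul_zero, add_zero, div_one] at h
  simp only [if_true] at h
  exact h

end One

/-! ### Admissible functionals of several replicas -/

/-- Positive functionals of functions of `n` replicas whose marginals are at most `C` times the mass function `m`. -/
structure Adm {O : Type*} [Fintype O] (m : O → ℝ) {n : ℕ} (E : ((Fin n → O) → ℝ) → ℝ) (C : ℝ) : Prop where
  mono : ∀ {F G : (Fin n → O) → ℝ}, (∀ x, F x ≤ G x) → E F ≤ E G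
  add : ∀ F G : (Fin n → O) → ℝ, E (fun x => F x + G x) ≤ E F + E G
  smul : ∀ (c : ℝ) (F : (Fin n → O) → ℝ), 0 ≤ c → E (fun x => c * F x) ≤ c * E F
  cst : ∀ c : ℝ, 0 ≤ c → E (fun _ => c) ≤ C * c
  marg : ∀ (i : Fin n) (f : O → ℝ), (∀ o, 0 ≤ f o) → E (fun x => f (x i)) ≤ C * me m f

section Adm

variable {O : Type*} [Fintype O] {Y : Type*} [DecidableEq Y] {m : O → ℝ} {n : ℕ} {E : ((Fin n → O) → ℝ) → ℝ} {C : ℝ}

theorem Adm.nil : Adm m (n := 0) (fun F => F Fin.elim0) 1 where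
  mono h := h _
  add _ _ := le_rfl
  smul _ _ _ := le_rfl
  cst c _ := by rw [one_mul]
  marg i := i.elim0

/-- Reindexing. -/
theorem Adm.re (h : Adm m E C) {k : ℕ} (r : Fin k → Fin n) : Adm m (fun F : (Fin k → O) → ℝ => E fun x => F fun i => x (r i)) C where
  mono h' := h.mono fun x => h' _
  add F G := h.add _ _
  smul c F hc := h.smul c _ hc
  cst c hc := h.cst c hc
  marg i f hf := h.marg (r i) f hf

/-- A new replica in the fibre of the replica `i`. -/
theorem Adm.gi (h : Adm m E C) (hC : 0 ≤ C) (hm : ∀ o, 0 ≤ m o) {ψ : O → ℝ} {K : ℝ} (hK : 0 ≤ K) (hψ : ∀ o, |ψ o| ≤ K) (Q : O → Y)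
    (i : Fin n) :
    Adm m (fun F : (Fin (n + 1) → O) → ℝ => E fun x => ct m ψ Q (fun o => F (Fin.cons o x)) (x i)) (C * Real.exp (2 * K)) where
  mono h' := h.mono fun x => ce_mono (tm_nonneg hm) Q (fun o => h' _) _
  add F G := by
    refine le_trans (le_of_eq ?_) (h.add _ _)
    congr 1
    funext x
    exact ce_add _ _ _ _ _
  smul c F hc := by
    refine le_trans (le_of_eq ?_) (h.smul c _ hc)
    congr 1
    funext x
    exact ce_smul _ _ _ _ _
  cst c hc := by
    refine (h.mono fun x => ce_const_le (tm_nonneg hm) Q hc _).trans ((h.cst c hc).trans ?_)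
    have h1 : C * 1 ≤ C * Real.exp (2 * K) := mul_le_mul_of_nonneg_left (Real.one_le_exp (by linarith)) hC
    rw [mul_one] at h1
    exact mul_le_mul_of_nonneg_right h1 hc
  marg j f hf := by
    have hme : 0 ≤ me m f := sum_nonneg fun o _ => mul_nonneg (hm o) (hf o)
    refine Fin.cases ?_ (fun j' => ?_) j
    · simp only [Fin.cons_zero]
      refine (h.marg i (ct m ψ Q f) fun o => ce_nonneg (tm_nonneg hm) Q hf o).trans ?_
      rw [mul_assoc]
      refine mul_le_mul_of_nonneg_left ?_ hC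
      have h1 : me m (ct m ψ Q f) ≤ Real.exp (2 * K) * me m (ce m Q f) := by
        unfold me
        rw [mul_sum]
        refine sum_le_sum fun o _ => ?_
        have h2 := mul_le_mul_of_nonneg_left (ct_le_ce hm hψ Q hf o) (hm o)
        linarith
      refine h1.trans (mul_le_mul_of_nonneg_left ?_ (Real.exp_pos _).le)
      have h3 := Flip61.ce_lip (m₁ := m) (m₂ := m) hm hm Q (H := f) (K := fun _ => 0) (B := 0) le_rfl (fun _ => by simp)
      unfold Flip61.d1 at h3
      have h4 : ∀ o, |ce m Q f o - ce m Q (fun _ => 0) o| = ce m Q f o := fun o => by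
        have h5 := ce_smul m Q 0 (fun _ => 1) o
        simp only [zero_mul] at h5
        rw [h5, sub_zero]
        exact abs_of_nonneg (ce_nonneg hm Q hf o)
      simp only [h4] at h3
      have h6 : ∀ o, |f o - 0| = f o := fun o => by
        rw [sub_zero]
        exact abs_of_nonneg (hf o)
      simp only [h6, mul_zero, zero_mul, add_zero] at h3
      exact h3
    · simp only [Fin.cons_succ]
      refine (h.mono fun x => ?_).trans ((h.marg j' f hf).trans ?_)
      · exact ce_const_le (tm_nonneg hm) Q (hf _) _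
      · have h1 : C * 1 ≤ C * Real.exp (2 * K) := mul_le_mul_of_nonneg_left (Real.one_le_exp (by linarith)) hC
        rw [mul_one] at h1
        exact mul_le_mul_of_nonneg_right h1 hme

/-- A new free replica. -/
theorem Adm.fr (h : Adm m E C) (hC : 0 ≤ C) (hm : ∀ o, 0 ≤ m o) (hs : ∑ o, m o = 1) {ψ : O → ℝ} {K : ℝ} (hK : 0 ≤ K)
    (hψ : ∀ o, |ψ o| ≤ K) : Adm m (fun F : (Fin (n + 1) → O) → ℝ => E fun x => mt m ψ fun o => F (Fin.cons o x)) (C * Real.exp (2 * K)) where
  mono h' := h.mono fun x => mt_mono hm fun o => h' _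
  add F G := by
    refine le_trans (le_of_eq ?_) (h.add _ _)
    congr 1
    funext x
    exact mt_add _ _ _ _
  smul c F hc := by
    refine le_trans (le_of_eq ?_) (h.smul c _ hc)
    congr 1
    funext x
    exact mt_smul _ _ _ _
  cst c hc := by
    refine (h.mono fun x => mt_const_le hc).trans ((h.cst c hc).trans ?_)
    have h1 : C * 1 ≤ C * Real.exp (2 * K) := mul_le_mul_of_nonneg_left (Real.one_le_exp (by linarith)) hC
    rw [mul_one] at h1
    exact mul_le_mul_of_nonneg_right h1 hc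
  marg j f hf := by
    have hme : 0 ≤ me m f := sum_nonneg fun o _ => mul_nonneg (hm o) (hf o)
    refine Fin.cases ?_ (fun j' => ?_) j
    · simp only [Fin.cons_zero]
      refine (h.cst _ (mt_nonneg hm hf)).trans ?_
      rw [mul_assoc]
      exact mul_le_mul_of_nonneg_left (mt_le_me hm hs hψ hf) hC
    · simp only [Fin.cons_succ]
      refine (h.mono fun x => mt_const_le (hf _)).trans ((h.marg j' f hf).trans ?_)
      have h1 : C * 1 ≤ C * Real.exp (2 * K) := mul_le_mul_of_nonneg_left (Real.one_le_exp (by linarith)) hC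
      rw [mul_one] at h1
      exact mul_le_mul_of_nonneg_right h1 hme

end Adm

end

end Pool.Agent.W_7d29a1_C0.FlipP4
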