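import Pool.Agent.W_7d29a1_C0.FlipP4

/-!
CURV0 (MP_7d29a1_pr), E7, LIPSCHITZ CALCULUS FOR SEVERAL REPLICAS. Expressions `EX n` of `n` replicas: given functions of `n` replicas,
sums, products, bounded Lipschitz functions, reindexing, tilted conditional means (a new replica in the fibre of the replica `i`) and
tilted means (a new free replica). `EX.ev`: the value under a mass function on a finite set of labels. `EX.ev_lip`: under two mass
functions the values of a closed expression differ by at most `li` times the total variation distance. `EX.evX`: the value under Gibbs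
weights; `EX.flipX_obs`: two Gibbs measures with labels. (helper4)
-/

set_option autoImplicit false
set_option linter.unusedSectionVars false
set_option linter.unusedVariables false

namespace Pool.Agent.W_7d29a1_C0.FlipP4

open Finset
open Pool.W7d29a1.C0 (gz gm gz_pos gz_ne gm_const gm_mono)
open Pool.W7d29a1.C0.VT31 (Mp cE cV cC gc gv fz fz_pos)
open Pool.Agent.W_7d29a1_C0.Flip61 (ce me tv tv_nonneg LipF ce_bdd)

noncomputable section

/-! ### Expressions -/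

/-- Expressions of `n` replicas: given functions, constants, sums, products, bounded Lipschitz functions, reindexing, tilted conditional
means (the new replica `0` in the fibre of the replica `i` of the partition `k`, tilt `t`), tilted means (a new free replica `0`). -/
inductive EX (ι : ℕ → Type) (β τ : Type) : ℕ → Type
  /-- a given function -/
  | fn {n : ℕ} (i : ι n) : EX ι β τ n
  /-- a constant -/
  | cst {n : ℕ} (c : ℝ) : EX ι β τ n
  /-- the sum -/
  | add {n : ℕ} (e e' : EX ι β τ n) : EX ι β τ n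
  /-- the product -/
  | mul {n : ℕ} (e e' : EX ι β τ n) : EX ι β τ n
  /-- a bounded Lipschitz function of an expression -/
  | lf {n : ℕ} (φ : LipF) (e : EX ι β τ n) : EX ι β τ n
  /-- reindexing -/
  | re {n k : ℕ} (r : Fin n → Fin k) (e : EX ι β τ n) : EX ι β τ k
  /-- the tilted conditional mean over a new replica in the fibre of the replica `i` -/
  | ce {n : ℕ} (k : β) (t : τ) (i : Fin n) (e : EX ι β τ (n + 1)) : EX ι β τ n
  /-- the tilted mean over a new free replica -/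
  | me {n : ℕ} (t : τ) (e : EX ι β τ (n + 1)) : EX ι β τ n

namespace EX

variable {ι : ℕ → Type} {β τ : Type} {Y : Type*} [DecidableEq Y]

/-- The value under the mass function `m`. -/
def ev {O : Type*} [Fintype O] (m : O → ℝ) (f : (n : ℕ) → ι n → (Fin n → O) → ℝ) (ψ : τ → O → ℝ) (Q : β → O → Y) :
    {n : ℕ} → EX ι β τ n → (Fin n → O) → ℝ
  | _, fn i => f _ i
  | _, cst c => fun _ => c
  | _, add e e' => fun x => ev m f ψ Q e x + ev m f ψ Q e' x
  | _, mul e e' => fun x => ev m f ψ Q e x * ev m f ψ Q e' x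
  | _, lf φ e => fun x => φ.f (ev m f ψ Q e x)
  | _, re r e => fun x => ev m f ψ Q e fun i => x (r i)
  | _, ce k t i e => fun x => ct m (ψ t) (Q k) (fun o => ev m f ψ Q e (Fin.cons o x)) (x i)
  | _, me t e => fun x => mt m (ψ t) fun o => ev m f ψ Q e (Fin.cons o x)

/-- The bound of an expression. -/
def bd (b : (n : ℕ) → ι n → ℝ) : {n : ℕ} → EX ι β τ n → ℝ
  | _, fn i => b _ i
  | _, cst c => |c|
  | _, add e e' => bd b e + bd b e'
  | _, mul e e' => bd b e * bd b e'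
  | _, lf φ _ => φ.M
  | _, re _ e => bd b e
  | _, ce _ _ _ e => bd b e
  | _, me _ e => bd b e

/-- The Lipschitz constant of an expression. -/
def li (b : (n : ℕ) → ι n → ℝ) (K : τ → ℝ) : {n : ℕ} → EX ι β τ n → ℝ
  | _, fn _ => 0
  | _, cst _ => 0
  | _, add e e' => li b K e + li b K e'
  | _, mul e e' => bd b e' * li b K e + bd b e * li b K e'
  | _, lf φ e => φ.Λ * li b K e
  | _, re _ e => li b K e
  | _, ce _ t _ e => Real.exp (2 * K t) * (li b K e + 2 * bd b e)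
  | _, me t e => Real.exp (2 * K t) * (li b K e + 2 * bd b e)

theorem bd_nonneg {b : (n : ℕ) → ι n → ℝ} (hb : ∀ n i, 0 ≤ b n i) : ∀ {n : ℕ} (e : EX ι β τ n), 0 ≤ bd b e
  | _, fn i => hb _ i
  | _, cst _ => abs_nonneg _
  | _, add e e' => add_nonneg (bd_nonneg hb e) (bd_nonneg hb e')
  | _, mul e e' => mul_nonneg (bd_nonneg hb e) (bd_nonneg hb e')
  | _, lf φ _ => (abs_nonneg _).trans (φ.hM 0)
  | _, re _ e => bd_nonneg hb e
  | _, ce _ _ _ e => bd_nonneg hb e
  | _, me _ e => bd_nonneg hb e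

theorem li_nonneg {b : (n : ℕ) → ι n → ℝ} (hb : ∀ n i, 0 ≤ b n i) (K : τ → ℝ) : ∀ {n : ℕ} (e : EX ι β τ n), 0 ≤ li b K e
  | _, fn _ => le_rfl
  | _, cst _ => le_rfl
  | _, add e e' => add_nonneg (li_nonneg hb K e) (li_nonneg hb K e')
  | _, mul e e' => add_nonneg (mul_nonneg (bd_nonneg hb e') (li_nonneg hb K e)) (mul_nonneg (bd_nonneg hb e) (li_nonneg hb K e'))
  | _, lf φ e => mul_nonneg φ.hΛ0 (li_nonneg hb K e)
  | _, re _ e => li_nonneg hb K e
  | _, ce _ _ _ e => mul_nonneg (Real.exp_pos _).le (add_nonneg (li_nonneg hb K e) (mul_nonneg zero_le_two (bd_nonneg hb e)))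
  | _, me _ e => mul_nonneg (Real.exp_pos _).le (add_nonneg (li_nonneg hb K e) (mul_nonneg zero_le_two (bd_nonneg hb e)))

section Lip

variable {O : Type*} [Fintype O]

theorem ev_bdd {m : O → ℝ} (hm : ∀ o, 0 ≤ m o) {f : (n : ℕ) → ι n → (Fin n → O) → ℝ} (ψ : τ → O → ℝ) (Q : β → O → Y)
    {b : (n : ℕ) → ι n → ℝ} (hb : ∀ n i, 0 ≤ b n i) (hf : ∀ n i x, |f n i x| ≤ b n i) :
    ∀ {n : ℕ} (e : EX ι β τ n) (x : Fin n → O), |ev m f ψ Q e x| ≤ bd b e
  | _, fn i, x => hf _ i x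
  | _, cst _, _ => le_rfl
  | _, add e e', x => (abs_add_le _ _).trans (add_le_add (ev_bdd hm ψ Q hb hf e x) (ev_bdd hm ψ Q hb hf e' x))
  | _, mul e e', x => by
    show |ev m f ψ Q e x * ev m f ψ Q e' x| ≤ bd b e * bd b e'
    rw [abs_mul]
    exact mul_le_mul (ev_bdd hm ψ Q hb hf e x) (ev_bdd hm ψ Q hb hf e' x) (abs_nonneg _) (bd_nonneg hb e)
  | _, lf φ e, x => φ.hM _
  | _, re r e, x => ev_bdd hm ψ Q hb hf e _
  | _, ce k t i e, x => ct_bdd hm (Q k) (bd_nonneg hb e) (fun o => ev_bdd hm ψ Q hb hf e _) _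
  | _, me t e, x => mt_bdd hm (bd_nonneg hb e) fun o => ev_bdd hm ψ Q hb hf e _

/-- **THE EXPRESSIONS ARE LIPSCHITZ** in the mass function, in the mean over any admissible functional. -/
theorem ev_lipE {m₁ m₂ : O → ℝ} (h1 : ∀ o, 0 ≤ m₁ o) (h2 : ∀ o, 0 ≤ m₂ o) (s1 : ∑ o, m₁ o = 1)
    {f : (n : ℕ) → ι n → (Fin n → O) → ℝ} {ψ : τ → O → ℝ} (Q : β → O → Y) {b : (n : ℕ) → ι n → ℝ} (hb : ∀ n i, 0 ≤ b n i)
    (hf : ∀ n i x, |f n i x| ≤ b n i) {K : τ → ℝ} (hK : ∀ t, 0 ≤ K t) (hψ : ∀ t o, |ψ t o| ≤ K t) :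
    ∀ {n : ℕ} (e : EX ι β τ n) {E : ((Fin n → O) → ℝ) → ℝ} {C : ℝ}, 0 ≤ C → Adm m₁ E C →
      E (fun x => |ev m₁ f ψ Q e x - ev m₂ f ψ Q e x|) ≤ C * (li b K e * tv m₁ m₂)
  | _, fn i, E, C, hC, hE => by
    have h := hE.cst 0 le_rfl
    refine (hE.mono fun x => ?_).trans (h.trans (le_of_eq ?_))
    · show |f _ i x - f _ i x| ≤ 0
      rw [sub_self, abs_zero]
    · show C * 0 = C * (0 * tv m₁ m₂)
      ring
  | _, cst c, E, C, hC, hE => by
    have h := hE.cst 0 le_rfl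
    refine (hE.mono fun x => ?_).trans (h.trans (le_of_eq ?_))
    · show |c - c| ≤ 0
      rw [sub_self, abs_zero]
    · show C * 0 = C * (0 * tv m₁ m₂)
      ring
  | _, add e e', E, C, hC, hE => by
    have i1 := ev_lipE h1 h2 s1 Q hb hf hK hψ e hC hE
    have i2 := ev_lipE h1 h2 s1 Q hb hf hK hψ e' hC hE
    refine (hE.mono fun x => ?_).trans ((hE.add _ _).trans ((add_le_add i1 i2).trans (le_of_eq ?_)))
    · show |(ev m₁ f ψ Q e x + ev m₁ f ψ Q e' x) - (ev m₂ f ψ Q e x + ev m₂ f ψ Q e' x)| ≤ _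
      rw [add_sub_add_comm]
      exact abs_add_le _ _
    · show _ = C * ((li b K e + li b K e') * tv m₁ m₂)
      ring
  | _, mul e e', E, C, hC, hE => by
    have i1 := ev_lipE h1 h2 s1 Q hb hf hK hψ e hC hE
    have i2 := ev_lipE h1 h2 s1 Q hb hf hK hψ e' hC hE
    have j1 := (hE.smul (bd b e') _ (bd_nonneg hb e')).trans (mul_le_mul_of_nonneg_left i1 (bd_nonneg hb e'))
    have j2 := (hE.smul (bd b e) _ (bd_nonneg hb e)).trans (mul_le_mul_of_nonneg_left i2 (bd_nonneg hb e))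
    refine (hE.mono fun x => ?_).trans ((hE.add _ _).trans ((add_le_add j1 j2).trans (le_of_eq ?_)))
    · show |ev m₁ f ψ Q e x * ev m₁ f ψ Q e' x - ev m₂ f ψ Q e x * ev m₂ f ψ Q e' x| ≤ _
      have e3 : ev m₁ f ψ Q e x * ev m₁ f ψ Q e' x - ev m₂ f ψ Q e x * ev m₂ f ψ Q e' x =
        (ev m₁ f ψ Q e x - ev m₂ f ψ Q e x) * ev m₁ f ψ Q e' x + ev m₂ f ψ Q e x * (ev m₁ f ψ Q e' x - ev m₂ f ψ Q e' x) := by ring
      rw [e3]
      refine (abs_add_le _ _).trans (add_le_add ?_ ?_)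
      · rw [abs_mul, mul_comm]
        exact mul_le_mul_of_nonneg_right (ev_bdd h1 ψ Q hb hf e' x) (abs_nonneg _)
      · rw [abs_mul]
        exact mul_le_mul_of_nonneg_right (ev_bdd h2 ψ Q hb hf e x) (abs_nonneg _)
    · show _ = C * ((bd b e' * li b K e + bd b e * li b K e') * tv m₁ m₂)
      ring
  | _, lf φ e, E, C, hC, hE => by
    have i1 := ev_lipE h1 h2 s1 Q hb hf hK hψ e hC hE
    have j1 := (hE.smul φ.Λ _ φ.hΛ0).trans (mul_le_mul_of_nonneg_left i1 φ.hΛ0)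
    refine (hE.mono fun x => ?_).trans (j1.trans (le_of_eq ?_))
    · exact φ.hΛ _ _
    · show _ = C * (φ.Λ * li b K e * tv m₁ m₂)
      ring
  | _, re r e, E, C, hC, hE => ev_lipE h1 h2 s1 Q hb hf hK hψ e hC (hE.re r)
  | _, ce k t i e, E, C, hC, hE => by
    have i1 := ev_lipE h1 h2 s1 Q hb hf hK hψ e (mul_nonneg hC (Real.exp_pos _).le) (hE.gi hC h1 (hK t) (hψ t) (Q k) i)
    set B := bd b e with hB
    have hB0 : 0 ≤ B := bd_nonneg hb e
    set g : O → ℝ := fun o => Real.exp (2 * K t) * rd m₁ m₂ (Q k) o + (if (∑ o', if Q k o' = Q k o then m₁ o' else 0) = 0 then 1 else 0)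
      with hg
    have hg0 : ∀ o, 0 ≤ g o := fun o => by
      have t1 := rd_nonneg (m₂ := m₂) h1 (Q k) o
      have t2 : (0 : ℝ) ≤ (if (∑ o', if Q k o' = Q k o then m₁ o' else 0) = 0 then 1 else 0) := by split_ifs <;> norm_num
      exact add_nonneg (mul_nonneg (Real.exp_pos _).le t1) t2
    have hgm : Flip61.me m₁ g ≤ Real.exp (2 * K t) * tv m₁ m₂ := by
      have e1 : Flip61.me m₁ g = Real.exp (2 * K t) * Flip61.me m₁ (rd m₁ m₂ (Q k)) := by
        unfold Flip61.me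
        rw [mul_sum]
        refine sum_congr rfl fun o _ => ?_
        have e2 : m₁ o * (if (∑ o', if Q k o' = Q k o then m₁ o' else 0) = 0 then (1 : ℝ) else 0) = 0 := by
          split_ifs with h0
          · have h4 := (sum_eq_zero_iff_of_nonneg (fun o' _ => by
              split_ifs
              · exact h1 o'
              · exact le_rfl)).1 h0 o (mem_univ _)
            rw [if_pos rfl] at h4
            rw [h4, zero_mul]
          · rw [mul_zero]
        rw [hg]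
        simp only
        rw [mul_add, e2]
        ring
      rw [e1]
      exact mul_le_mul_of_nonneg_left (me_rd h1 (Q k)) (Real.exp_pos _).le
    have j2 := (hE.smul (2 * B) _ (by positivity)).trans (mul_le_mul_of_nonneg_left (hE.marg i g hg0) (by positivity : (0 : ℝ) ≤ 2 * B))
    have j3 : 2 * B * (C * Flip61.me m₁ g) ≤ 2 * B * (C * (Real.exp (2 * K t) * tv m₁ m₂)) :=
      mul_le_mul_of_nonneg_left (mul_le_mul_of_nonneg_left hgm hC) (by positivity)
    refine (hE.mono fun x => ?_).trans ((hE.add _ _).trans ((add_le_add i1 (j2.trans j3)).trans (le_of_eq ?_)))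
    · show |ct m₁ (ψ t) (Q k) (fun o => ev m₁ f ψ Q e (Fin.cons o x)) (x i) - ct m₂ (ψ t) (Q k) (fun o => ev m₂ f ψ Q e (Fin.cons o x)) (x i)| ≤
        ct m₁ (ψ t) (Q k) (fun o => |ev m₁ f ψ Q e (Fin.cons o x) - ev m₂ f ψ Q e (Fin.cons o x)|) (x i) + 2 * B * g (x i)
      have t1 := ct_diff h1 h2 (hψ t) (Q k) (H := fun o => ev m₂ f ψ Q e (Fin.cons o x)) hB0 (fun o => ev_bdd h2 ψ Q hb hf e _) (x i)
      have t2 := abs_ce_le (tm_nonneg (ψ := ψ t) h1) (Q k) (fun o => ev m₁ f ψ Q e (Fin.cons o x) - ev m₂ f ψ Q e (Fin.cons o x)) (x i)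
      rw [ce_sub] at t2
      have t3 := abs_sub_le (ct m₁ (ψ t) (Q k) (fun o => ev m₁ f ψ Q e (Fin.cons o x)) (x i))
        (ct m₁ (ψ t) (Q k) (fun o => ev m₂ f ψ Q e (Fin.cons o x)) (x i))
        (ct m₂ (ψ t) (Q k) (fun o => ev m₂ f ψ Q e (Fin.cons o x)) (x i))
      refine t3.trans (add_le_add t2 (t1.trans (le_of_eq ?_)))
      rw [hg]
      ring
    · show _ = C * (Real.exp (2 * K t) * (li b K e + 2 * B) * tv m₁ m₂)
      ring
  | _, me t e, E, C, hC, hE => by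
    have i1 := ev_lipE h1 h2 s1 Q hb hf hK hψ e (mul_nonneg hC (Real.exp_pos _).le) (hE.fr hC h1 s1 (hK t) (hψ t))
    set B := bd b e with hB
    have hB0 : 0 ≤ B := bd_nonneg hb e
    have htv := tv_nonneg m₁ m₂
    have j2 := hE.cst (2 * B * (Real.exp (2 * K t) * tv m₁ m₂)) (by positivity)
    refine (hE.mono fun x => ?_).trans ((hE.add _ _).trans ((add_le_add i1 j2).trans (le_of_eq ?_)))
    · show |mt m₁ (ψ t) (fun o => ev m₁ f ψ Q e (Fin.cons o x)) - mt m₂ (ψ t) (fun o => ev m₂ f ψ Q e (Fin.cons o x))| ≤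
        mt m₁ (ψ t) (fun o => |ev m₁ f ψ Q e (Fin.cons o x) - ev m₂ f ψ Q e (Fin.cons o x)|) + 2 * B * (Real.exp (2 * K t) * tv m₁ m₂)
      have t1 := mt_diff h1 h2 s1 (hψ t) (H := fun o => ev m₂ f ψ Q e (Fin.cons o x)) hB0 (fun o => ev_bdd h2 ψ Q hb hf e _)
      have t2 := abs_mt_le (ψ := ψ t) h1 (fun o => ev m₁ f ψ Q e (Fin.cons o x) - ev m₂ f ψ Q e (Fin.cons o x))
      rw [mt_sub] at t2
      have t3 := abs_sub_le (mt m₁ (ψ t) (fun o => ev m₁ f ψ Q e (Fin.cons o x)))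
        (mt m₁ (ψ t) (fun o => ev m₂ f ψ Q e (Fin.cons o x))) (mt m₂ (ψ t) (fun o => ev m₂ f ψ Q e (Fin.cons o x)))
      exact t3.trans (add_le_add t2 t1)
    · show _ = C * (Real.exp (2 * K t) * (li b K e + 2 * B) * tv m₁ m₂)
      ring

/-- **CLOSED EXPRESSIONS.** -/
theorem ev_lip {m₁ m₂ : O → ℝ} (h1 : ∀ o, 0 ≤ m₁ o) (h2 : ∀ o, 0 ≤ m₂ o) (s1 : ∑ o, m₁ o = 1)
    {f : (n : ℕ) → ι n → (Fin n → O) → ℝ} {ψ : τ → O → ℝ} (Q : β → O → Y) {b : (n : ℕ) → ι n → ℝ} (hb : ∀ n i, 0 ≤ b n i)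
    (hf : ∀ n i x, |f n i x| ≤ b n i) {K : τ → ℝ} (hK : ∀ t, 0 ≤ K t) (hψ : ∀ t o, |ψ t o| ≤ K t) (e : EX ι β τ 0) :
    |ev m₁ f ψ Q e Fin.elim0 - ev m₂ f ψ Q e Fin.elim0| ≤ li b K e * tv m₁ m₂ := by
  have h := ev_lipE h1 h2 s1 Q hb hf hK hψ e zero_le_one Adm.nil
  rwa [one_mul] at h

end Lip

end EX

end

end Pool.Agent.W_7d29a1_C0.FlipP4
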