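import Pool.Agent.W_7d29a1_C0.FlipP4B

/-!
CURV0 (MP_7d29a1_pr), E7, LIPSCHITZ CALCULUS FOR SEVERAL REPLICAS, Gibbs measures. `EX.evX`: the value of an expression under Gibbs
weights. `EX.ev_evX`: it is the value under the law of the label. `EX.flipX_obs`: two Gibbs measures with labels, for closed
expressions. (helper4)
-/

set_option autoImplicit false
set_option linter.unusedSectionVars false
set_option linter.unusedVariables false

namespace Pool.Agent.W_7d29a1_C0.FlipP4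

open Finset
open Pool.W7d29a1.C0 (gz gm gz_pos gz_ne gm_const gm_mono)
open Pool.W7d29a1.C0.VT31 (Mp cE cV cC gc gv fz fz_pos)
open Pool.Agent.W_7d29a1_C0.Flip61 (ce me tv tv_nonneg LipF ce_bdd)
open Pool.Agent.W_7d29a1_C0.Flip61.Ex (lm lm_nonneg sum_lm sum_lm_one)

noncomputable section

section Label

variable {X : Type*} [Fintype X] [Nonempty X] {O : Type*} [Fintype O] [DecidableEq O] {Y : Type*} [DecidableEq Y]

theorem ct_lm (w : X → ℝ) (lam : X → O) (ψ : O → ℝ) (Q : O → Y) (H : O → ℝ) (x : X) :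
    ct (lm w lam) ψ Q H (lam x) = cE (w + fun x => ψ (lam x)) (fun x => Q (lam x)) (fun x => H (lam x)) x := by
  unfold ct ce cE fz tm
  have h1 := sum_lm w lam (fun o => Q o = Q (lam x)) (fun o => Real.exp (ψ o) * H o)
  have h2 := sum_lm w lam (fun o => Q o = Q (lam x)) (fun o => Real.exp (ψ o))
  have e1 : (∑ o, if Q o = Q (lam x) then lm w lam o * Real.exp (ψ o) * H o else 0) =
      (∑ x', if Q (lam x') = Q (lam x) then Real.exp ((w + fun x => ψ (lam x)) x') * H (lam x') else 0) / gz w := by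
    rw [sum_congr rfl fun o _ => show (if Q o = Q (lam x) then lm w lam o * Real.exp (ψ o) * H o else 0) =
      if Q o = Q (lam x) then lm w lam o * (Real.exp (ψ o) * H o) else 0 by rw [mul_assoc], h1]
    congr 1
    refine sum_congr rfl fun x' _ => ?_
    rw [Pi.add_apply, Real.exp_add, mul_assoc]
  have e2 : (∑ o, if Q o = Q (lam x) then lm w lam o * Real.exp (ψ o) else 0) =
      (∑ x', if Q (lam x') = Q (lam x) then Real.exp ((w + fun x => ψ (lam x)) x') else 0) / gz w := by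
    rw [h2]
    congr 1
    refine sum_congr rfl fun x' _ => ?_
    rw [Pi.add_apply, Real.exp_add]
  rw [e1, e2, div_div_div_cancel_right₀ (gz_ne w)]

theorem mt_lm (w : X → ℝ) (lam : X → O) (ψ H : O → ℝ) :
    mt (lm w lam) ψ H = gm (w + fun x => ψ (lam x)) (fun x => H (lam x)) := by
  unfold mt gm gz tm
  have h1 := sum_lm w lam (fun _ => True) (fun o => Real.exp (ψ o) * H o)
  have h2 := sum_lm w lam (fun _ => True) (fun o => Real.exp (ψ o))
  simp only [if_true] at h1 h2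
  have e1 : (∑ o, lm w lam o * Real.exp (ψ o) * H o) =
      (∑ x', Real.exp ((w + fun x => ψ (lam x)) x') * H (lam x')) / gz w := by
    rw [sum_congr rfl fun o _ => mul_assoc _ _ _, h1]
    congr 1
    refine sum_congr rfl fun x' _ => ?_
    rw [Pi.add_apply, Real.exp_add, mul_assoc]
  have e2 : (∑ o, lm w lam o * Real.exp (ψ o)) = (∑ x', Real.exp ((w + fun x => ψ (lam x)) x')) / gz w := by
    rw [h2]
    congr 1
    refine sum_congr rfl fun x' _ => ?_
    rw [Pi.add_apply, Real.exp_add]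
  rw [e1, e2, div_div_div_cancel_right₀ (gz_ne w)]

end Label

namespace EX

variable {ι : ℕ → Type} {β τ : Type} {Y : Type*} [DecidableEq Y]

section Gibbs

variable {X : Type*} [Fintype X]

/-- The value under the Gibbs weights `w`; tilts `ψ`, partitions `q`. -/
def evX (w : X → ℝ) (h : (n : ℕ) → ι n → (Fin n → X) → ℝ) (ψ : τ → X → ℝ) (q : β → X → Y) :
    {n : ℕ} → EX ι β τ n → (Fin n → X) → ℝ
  | _, fn i => h _ i
  | _, cst c => fun _ => c
  | _, add e e' => fun x => evX w h ψ q e x + evX w h ψ q e' x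
  | _, mul e e' => fun x => evX w h ψ q e x * evX w h ψ q e' x
  | _, lf φ e => fun x => φ.f (evX w h ψ q e x)
  | _, re r e => fun x => evX w h ψ q e fun i => x (r i)
  | _, ce k t i e => fun x => cE (w + ψ t) (q k) (fun z => evX w h ψ q e (Fin.cons z x)) (x i)
  | _, me t e => fun x => gm (w + ψ t) fun z => evX w h ψ q e (Fin.cons z x)

theorem evX_bdd [Nonempty X] (w : X → ℝ) {h : (n : ℕ) → ι n → (Fin n → X) → ℝ} (ψ : τ → X → ℝ) (q : β → X → Y)
    {b : (n : ℕ) → ι n → ℝ} (hb : ∀ n i, 0 ≤ b n i) (hf : ∀ n i x, |h n i x| ≤ b n i) :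
    ∀ {n : ℕ} (e : EX ι β τ n) (x : Fin n → X), |evX w h ψ q e x| ≤ bd b e
  | _, fn i, x => hf _ i x
  | _, cst _, _ => le_rfl
  | _, add e e', x => (abs_add_le _ _).trans (add_le_add (evX_bdd w ψ q hb hf e x) (evX_bdd w ψ q hb hf e' x))
  | _, mul e e', x => by
    show |evX w h ψ q e x * evX w h ψ q e' x| ≤ bd b e * bd b e'
    rw [abs_mul]
    exact mul_le_mul (evX_bdd w ψ q hb hf e x) (evX_bdd w ψ q hb hf e' x) (abs_nonneg _) (bd_nonneg hb e)
  | _, lf φ e, x => φ.hM _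
  | _, re r e, x => evX_bdd w ψ q hb hf e _
  | _, ce k t i e, x => by
    have hB := bd_nonneg hb e
    show |cE (w + ψ t) (q k) (fun z => evX w h ψ q e (Fin.cons z x)) (x i)| ≤ bd b e
    unfold cE
    have h0 : 0 < fz (w + ψ t) (q k) (x i) := fz_pos _ _ _
    rw [abs_div, abs_of_pos h0, div_le_iff₀ h0]
    unfold fz
    rw [mul_sum]
    refine (abs_sum_le_sum_abs _ _).trans (sum_le_sum fun x' _ => ?_)
    split_ifs
    · rw [abs_mul, abs_of_pos (Real.exp_pos _), mul_comm]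
      exact mul_le_mul_of_nonneg_right (evX_bdd w ψ q hb hf e _) (Real.exp_pos _).le
    · rw [abs_zero, mul_zero]
  | _, me t e, x => by
    have hB := bd_nonneg hb e
    show |gm (w + ψ t) fun z => evX w h ψ q e (Fin.cons z x)| ≤ bd b e
    rw [abs_le]
    constructor
    · rw [← gm_const (w + ψ t) (-bd b e)]
      exact gm_mono _ fun z => (abs_le.1 (evX_bdd w ψ q hb hf e _)).1
    · rw [← gm_const (w + ψ t) (bd b e)]
      exact gm_mono _ fun z => (abs_le.1 (evX_bdd w ψ q hb hf e _)).2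

/-- Measurability. -/
theorem meas_evX [Nonempty X] {Ω : Type*} [MeasurableSpace Ω] {w : Ω → X → ℝ} (hw : ∀ x, Measurable fun ω => w ω x)
    {h : Ω → (n : ℕ) → ι n → (Fin n → X) → ℝ} (hf : ∀ n i x, Measurable fun ω => h ω n i x) {ψ : Ω → τ → X → ℝ}
    (hψ : ∀ t x, Measurable fun ω => ψ ω t x) (q : β → X → Y) :
    ∀ {n : ℕ} (e : EX ι β τ n) (x : Fin n → X), Measurable fun ω => evX (w ω) (h ω) (ψ ω) q e x
  | _, fn i, x => hf _ i x
  | _, cst _, _ => measurable_const
  | _, add e e', x => (meas_evX hw hf hψ q e x).add (meas_evX hw hf hψ q e' x)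
  | _, mul e e', x => (meas_evX hw hf hψ q e x).mul (meas_evX hw hf hψ q e' x)
  | _, lf φ e, x => by
    have hφ : Measurable φ.f := by
      have h : LipschitzWith ⟨φ.Λ, φ.hΛ0⟩ φ.f := LipschitzWith.of_dist_le_mul fun x y => by
        rw [Real.dist_eq, Real.dist_eq]
        exact φ.hΛ x y
      exact h.continuous.measurable
    exact hφ.comp (meas_evX hw hf hψ q e x)
  | _, re r e, x => meas_evX hw hf hψ q e _
  | _, ce k t i e, x => by
    have hw' : ∀ z, Measurable fun ω => Real.exp ((w ω + ψ ω t) z) := fun z => ((hw z).add (hψ t z)).exp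
    show Measurable fun ω => cE (w ω + ψ ω t) (q k) (fun z => evX (w ω) (h ω) (ψ ω) q e (Fin.cons z x)) (x i)
    unfold cE fz
    refine Measurable.div (Finset.measurable_fun_sum _ fun z _ => ?_) (Finset.measurable_fun_sum _ fun z _ => ?_)
    · split_ifs
      · exact (hw' z).mul (meas_evX hw hf hψ q e _)
      · exact measurable_const
    · split_ifs
      · exact hw' z
      · exact measurable_const
  | _, me t e, x => by
    have hw' : ∀ z, Measurable fun ω => Real.exp ((w ω + ψ ω t) z) := fun z => ((hw z).add (hψ t z)).exp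
    show Measurable fun ω => gm (w ω + ψ ω t) fun z => evX (w ω) (h ω) (ψ ω) q e (Fin.cons z x)
    unfold gm gz
    exact Measurable.div (Finset.measurable_fun_sum _ fun z _ => (hw' z).mul (meas_evX hw hf hψ q e _))
      (Finset.measurable_fun_sum _ fun z _ => hw' z)

theorem comp_cons {A B : Type*} {n : ℕ} (lam : A → B) (z : A) (x : Fin n → A) :
    (fun j => lam ((Fin.cons z x : Fin (n + 1) → A) j)) = (Fin.cons (lam z) fun j => lam (x j) : Fin (n + 1) → B) := by
  funext j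
  refine Fin.cases ?_ (fun j' => ?_) j
  · rfl
  · rfl

/-- **The value under a Gibbs measure** is the value under the law of the label. -/
theorem ev_evX [Nonempty X] {O : Type*} [Fintype O] [DecidableEq O] (w : X → ℝ) (lam : X → O) (f : (n : ℕ) → ι n → (Fin n → O) → ℝ)
    (ψ : τ → O → ℝ) (Q : β → O → Y) : ∀ {n : ℕ} (e : EX ι β τ n) (x : Fin n → X),
    evX w (fun n i x => f n i fun j => lam (x j)) (fun t x => ψ t (lam x)) (fun k x => Q k (lam x)) e x =
      ev (lm w lam) f ψ Q e fun j => lam (x j)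
  | _, fn _, _ => rfl
  | _, cst _, _ => rfl
  | _, add e e', x => by
    show _ + _ = _ + _
    rw [ev_evX w lam f ψ Q e x, ev_evX w lam f ψ Q e' x]
  | _, mul e e', x => by
    show _ * _ = _ * _
    rw [ev_evX w lam f ψ Q e x, ev_evX w lam f ψ Q e' x]
  | _, lf φ e, x => by
    show φ.f _ = φ.f _
    rw [ev_evX w lam f ψ Q e x]
  | _, re r e, x => ev_evX w lam f ψ Q e fun i => x (r i)
  | _, ce k t i e, x => by
    show cE (w + fun x => ψ t (lam x)) (fun x => Q k (lam x)) (fun z => evX w (fun n i x => f n i fun j => lam (x j))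
      (fun t x => ψ t (lam x)) (fun k x => Q k (lam x)) e (Fin.cons z x)) (x i) =
      ct (lm w lam) (ψ t) (Q k) (fun o => ev (lm w lam) f ψ Q e (Fin.cons o fun j => lam (x j))) (lam (x i))
    rw [ct_lm]
    congr 1
    funext z
    rw [ev_evX w lam f ψ Q e, comp_cons]
  | _, me t e, x => by
    show gm (w + fun x => ψ t (lam x)) (fun z => evX w (fun n i x => f n i fun j => lam (x j))
      (fun t x => ψ t (lam x)) (fun k x => Q k (lam x)) e (Fin.cons z x)) =
      mt (lm w lam) (ψ t) (fun o => ev (lm w lam) f ψ Q e (Fin.cons o fun j => lam (x j)))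
    rw [mt_lm]
    congr 1
    funext z
    rw [ev_evX w lam f ψ Q e, comp_cons]

/-- The value depends only on the partitions. -/
theorem evX_part [Nonempty X] {Y₁ Y₂ : Type*} [DecidableEq Y₁] [DecidableEq Y₂] (w : X → ℝ) (h : (n : ℕ) → ι n → (Fin n → X) → ℝ) (ψ : τ → X → ℝ)
    {q : β → X → Y₁} {q' : β → X → Y₂} (hq : ∀ k x x', q k x = q k x' ↔ q' k x = q' k x') :
    ∀ {n : ℕ} (e : EX ι β τ n), evX w h ψ q e = evX w h ψ q' e
  | _, fn _ => rfl
  | _, cst _ => rfl
  | _, add e e' => by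
    funext x
    show _ + _ = _ + _
    rw [evX_part w h ψ hq e, evX_part w h ψ hq e']
  | _, mul e e' => by
    funext x
    show _ * _ = _ * _
    rw [evX_part w h ψ hq e, evX_part w h ψ hq e']
  | _, lf φ e => by
    funext x
    show φ.f _ = φ.f _
    rw [evX_part w h ψ hq e]
  | _, re r e => by
    funext x
    show evX w h ψ q e _ = evX w h ψ q' e _
    rw [evX_part w h ψ hq e]
  | _, ce k t i e => by
    funext x
    show cE (w + ψ t) (q k) (fun z => evX w h ψ q e (Fin.cons z x)) (x i) =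
      cE (w + ψ t) (q' k) (fun z => evX w h ψ q' e (Fin.cons z x)) (x i)
    rw [evX_part w h ψ hq e, Flip61.Ex.cE_part (w + ψ t) (hq k)]
  | _, me t e => by
    funext x
    show gm _ _ = gm _ _
    rw [evX_part w h ψ hq e]

end Gibbs

/-! ### Two Gibbs measures with labels -/

open Classical in
/-- **TWO GIBBS MEASURES, CLOSED EXPRESSIONS.** `lam₁`, `lam₂`: labels with values in the same set; the given functions and the tilts
agree at equal labels, the partitions are given by the labels. -/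
theorem flipX_obs {X₁ X₂ : Type*} [Fintype X₁] [Nonempty X₁] [Fintype X₂] [Nonempty X₂] {O : Type*} [Fintype O] [DecidableEq O]
    {Y₁ Y₂ : Type*} [DecidableEq Y₁] [DecidableEq Y₂] (w₁ : X₁ → ℝ) (w₂ : X₂ → ℝ) (lam₁ : X₁ → O) (lam₂ : X₂ → O)
    {h₁ : (n : ℕ) → ι n → (Fin n → X₁) → ℝ} {h₂ : (n : ℕ) → ι n → (Fin n → X₂) → ℝ} {ψ₁ : τ → X₁ → ℝ} {ψ₂ : τ → X₂ → ℝ}
    {q₁ : β → X₁ → Y₁} {q₂ : β → X₂ → Y₂} (Q : β → O → Y) {b : (n : ℕ) → ι n → ℝ} (hb : ∀ n i, 0 ≤ b n i)
    (b1 : ∀ n i x, |h₁ n i x| ≤ b n i) (b2 : ∀ n i x, |h₂ n i x| ≤ b n i)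
    (c12 : ∀ n i x y, (∀ j, lam₁ (x j) = lam₂ (y j)) → h₁ n i x = h₂ n i y)
    (c11 : ∀ n i x y, (∀ j, lam₁ (x j) = lam₁ (y j)) → h₁ n i x = h₁ n i y)
    (c22 : ∀ n i x y, (∀ j, lam₂ (x j) = lam₂ (y j)) → h₂ n i x = h₂ n i y)
    {K : τ → ℝ} (hK : ∀ t, 0 ≤ K t) (k1 : ∀ t x, |ψ₁ t x| ≤ K t) (k2 : ∀ t x, |ψ₂ t x| ≤ K t)
    (d12 : ∀ t x y, lam₁ x = lam₂ y → ψ₁ t x = ψ₂ t y) (d11 : ∀ t x y, lam₁ x = lam₁ y → ψ₁ t x = ψ₁ t y)
    (d22 : ∀ t x y, lam₂ x = lam₂ y → ψ₂ t x = ψ₂ t y)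
    (p1 : ∀ k x y, q₁ k x = q₁ k y ↔ Q k (lam₁ x) = Q k (lam₁ y)) (p2 : ∀ k x y, q₂ k x = q₂ k y ↔ Q k (lam₂ x) = Q k (lam₂ y))
    (e : EX ι β τ 0) :
    |evX w₁ h₁ ψ₁ q₁ e Fin.elim0 - evX w₂ h₂ ψ₂ q₂ e Fin.elim0| ≤ li b K e * tv (lm w₁ lam₁) (lm w₂ lam₂) := by
  set f : (n : ℕ) → ι n → (Fin n → O) → ℝ := fun n i o =>
    if h : ∃ x : Fin n → X₁, ∀ j, lam₁ (x j) = o j then h₁ n i h.choose
    else if h : ∃ y : Fin n → X₂, ∀ j, lam₂ (y j) = o j then h₂ n i h.choose else 0 with hf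
  set ψ : τ → O → ℝ := fun t o =>
    if h : ∃ x, lam₁ x = o then ψ₁ t h.choose else if h : ∃ y, lam₂ y = o then ψ₂ t h.choose else 0 with hψ
  have f1 : ∀ n i x, f n i (fun j => lam₁ (x j)) = h₁ n i x := by
    intro n i x
    have h : ∃ x' : Fin n → X₁, ∀ j, lam₁ (x' j) = lam₁ (x j) := ⟨x, fun _ => rfl⟩
    rw [hf]
    simp only [dif_pos h]
    exact c11 n i _ _ h.choose_spec
  have f2 : ∀ n i y, f n i (fun j => lam₂ (y j)) = h₂ n i y := by
    intro n i y
    rw [hf]
    by_cases h : ∃ x' : Fin n → X₁, ∀ j, lam₁ (x' j) = lam₂ (y j)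
    · simp only [dif_pos h]
      exact c12 n i _ _ h.choose_spec
    · have h' : ∃ y' : Fin n → X₂, ∀ j, lam₂ (y' j) = lam₂ (y j) := ⟨y, fun _ => rfl⟩
      simp only [dif_neg h, dif_pos h']
      exact c22 n i _ _ h'.choose_spec
  have fb : ∀ n i o, |f n i o| ≤ b n i := by
    intro n i o
    rw [hf]
    by_cases h : ∃ x : Fin n → X₁, ∀ j, lam₁ (x j) = o j
    · simp only [dif_pos h]
      exact b1 n i _
    · by_cases h' : ∃ y : Fin n → X₂, ∀ j, lam₂ (y j) = o j
      · simp only [dif_neg h, dif_pos h']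
        exact b2 n i _
      · simp only [dif_neg h, dif_neg h', abs_zero]
        exact hb n i
  have g1 : ∀ t x, ψ t (lam₁ x) = ψ₁ t x := by
    intro t x
    have h : ∃ x', lam₁ x' = lam₁ x := ⟨x, rfl⟩
    rw [hψ]
    simp only [dif_pos h]
    exact d11 t _ _ h.choose_spec
  have g2 : ∀ t y, ψ t (lam₂ y) = ψ₂ t y := by
    intro t y
    rw [hψ]
    by_cases h : ∃ x', lam₁ x' = lam₂ y
    · simp only [dif_pos h]
      exact d12 t _ _ h.choose_spec
    · have h' : ∃ y', lam₂ y' = lam₂ y := ⟨y, rfl⟩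
      simp only [dif_neg h, dif_pos h']
      exact d22 t _ _ h'.choose_spec
  have gb : ∀ t o, |ψ t o| ≤ K t := by
    intro t o
    rw [hψ]
    by_cases h : ∃ x, lam₁ x = o
    · simp only [dif_pos h]
      exact k1 t _
    · by_cases h' : ∃ y, lam₂ y = o
      · simp only [dif_neg h, dif_pos h']
        exact k2 t _
      · simp only [dif_neg h, dif_neg h', abs_zero]
        exact hK t
  have v1 : evX w₁ h₁ ψ₁ q₁ e Fin.elim0 = ev (lm w₁ lam₁) f ψ Q e Fin.elim0 := by
    have e1 : h₁ = fun n i x => f n i fun j => lam₁ (x j) := by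
      funext n i x
      rw [f1]
    have e2 : ψ₁ = fun t x => ψ t (lam₁ x) := by
      funext t x
      rw [g1]
    have e3 := ev_evX w₁ lam₁ f ψ Q e Fin.elim0
    rw [evX_part w₁ h₁ ψ₁ p1 e, e1, e2, e3]
    congr 1
    funext j
    exact j.elim0
  have v2 : evX w₂ h₂ ψ₂ q₂ e Fin.elim0 = ev (lm w₂ lam₂) f ψ Q e Fin.elim0 := by
    have e1 : h₂ = fun n i x => f n i fun j => lam₂ (x j) := by
      funext n i x
      rw [f2]
    have e2 : ψ₂ = fun t x => ψ t (lam₂ x) := by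
      funext t x
      rw [g2]
    have e3 := ev_evX w₂ lam₂ f ψ Q e Fin.elim0
    rw [evX_part w₂ h₂ ψ₂ p2 e, e1, e2, e3]
    congr 1
    funext j
    exact j.elim0
  rw [v1, v2]
  exact ev_lip (lm_nonneg w₁ lam₁) (lm_nonneg w₂ lam₂) (sum_lm_one w₁ lam₁) Q hb fb hK gb e

end EX

end

end Pool.Agent.W_7d29a1_C0.FlipP4
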