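import Pool.Agent.W_7d29a1_C0.FlipL61

/-!
CURV0 (MP_7d29a1_pr), E7, SEVERAL REPLICAS (helper61). Expressions of several replicas: the given functions are functions of a sequence of
replicas, `ce k n e` averages over a new replica in the class `k` of the replica number `n`, `me e` over a new free replica (the new
replica gets the number `0`). Such an expression is Lipschitz in the law of one replica, with respect to the total variation (`ExM.closed`).
-/

set_option autoImplicit false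
set_option linter.unusedSectionVars false

namespace Pool.Agent.W_7d29a1_C0.Flip61

open Finset
open Pool.W7d29a1.C0 (gz gm gz_pos gz_ne gm_const gm_mono gm_nonneg gm_sub)
open Pool.W7d29a1.C0.VT31 (cE fz)

noncomputable section

/-- A new replica in front of the others. -/
def cns {O : Type*} (z : O) (ρ : ℕ → O) : ℕ → O
  | 0 => z
  | n + 1 => ρ n

@[simp] theorem cns_zero {O : Type*} (z : O) (ρ : ℕ → O) : cns z ρ 0 = z := rfl

@[simp] theorem cns_succ {O : Type*} (z : O) (ρ : ℕ → O) (n : ℕ) : cns z ρ (n + 1) = ρ n := rfl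

theorem comp_cns {O O' : Type*} (f : O → O') (z : O) (ρ : ℕ → O) : (fun n => f (cns z ρ n)) = cns (f z) fun n => f (ρ n) := by
  funext n
  cases n <;> rfl

section Cls

variable {O : Type*} [Fintype O] {Y : Type*} [DecidableEq Y]

/-- The sum over the classes. -/
theorem sum_fib {m : O → ℝ} (hm : ∀ o, 0 ≤ m o) (Q : O → Y) {r : O → ℝ} (hr : ∀ o, 0 ≤ r o) :
    ∑ o, m o * ((∑ o', if Q o' = Q o then r o' else 0) / ∑ o', if Q o' = Q o then m o' else 0) ≤ ∑ o, r o := by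
  set a : O → ℝ := fun o => ∑ o', if Q o' = Q o then m o' else 0 with ha
  have ha0 : ∀ o, 0 ≤ a o := fun o => sum_nonneg fun o' _ => by
    split_ifs
    · exact hm o'
    · exact le_rfl
  have e1 : ∀ o, m o * ((∑ o', if Q o' = Q o then r o' else 0) / a o) = ∑ o', if Q o' = Q o then m o / a o * r o' else 0 := by
    intro o
    rw [mul_div_assoc', mul_comm (m o), sum_mul, sum_div]
    refine sum_congr rfl fun o' _ => ?_
    split_ifs
    · ring
    · rw [zero_mul, zero_div]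
  have e0 : ∀ o, m o * ((∑ o', if Q o' = Q o then r o' else 0) / ∑ o', if Q o' = Q o then m o' else 0) =
      m o * ((∑ o', if Q o' = Q o then r o' else 0) / a o) := fun _ => rfl
  rw [sum_congr rfl fun o _ => (e0 o).trans (e1 o), sum_comm]
  refine sum_le_sum fun o' _ => ?_
  have h5 : ∑ o, (if Q o' = Q o then m o / a o * r o' else 0) = (∑ o, if Q o' = Q o then m o / a o else 0) * r o' := by
    rw [sum_mul]
    refine sum_congr rfl fun o _ => ?_
    split_ifs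
    · rfl
    · rw [zero_mul]
  rw [h5]
  have h6 : ∑ o, (if Q o' = Q o then m o / a o else 0) = (∑ o, if Q o' = Q o then m o else 0) / a o' := by
    rw [sum_div]
    refine sum_congr rfl fun o _ => ?_
    split_ifs with hq
    · have : a o = a o' := by
        rw [ha]
        simp only [hq]
      rw [this]
    · rw [zero_div]
  have h7 : (∑ o, if Q o' = Q o then m o else 0) = a o' := by
    rw [ha]
    refine sum_congr rfl fun o _ => ?_
    by_cases hq : Q o' = Q o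
    · rw [if_pos hq, if_pos hq.symm]
    · rw [if_neg hq, if_neg fun h => hq h.symm]
  rw [h6, h7]
  have h8 : a o' / a o' ≤ 1 := div_self_le_one _
  calc a o' / a o' * r o' ≤ 1 * r o' := mul_le_mul_of_nonneg_right h8 (hr o')
    _ = r o' := one_mul _

/-- The mass of the class. -/
def mc (m : O → ℝ) (Q : O → Y) (o : O) : ℝ := ∑ o', if Q o' = Q o then m o' else 0

theorem mc_nonneg {m : O → ℝ} (hm : ∀ o, 0 ≤ m o) (Q : O → Y) (o : O) : 0 ≤ mc m Q o := sum_nonneg fun o' _ => by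
  split_ifs
  · exact hm o'
  · exact le_rfl

/-- The distance of the two conditional laws. -/
def tq (m₁ m₂ : O → ℝ) (Q : O → Y) (o : O) : ℝ :=
  if mc m₁ Q o = 0 then 1 else (∑ o', if Q o' = Q o then |m₁ o' - m₂ o'| else 0) / mc m₁ Q o

theorem tq_nonneg {m₁ m₂ : O → ℝ} (h1 : ∀ o, 0 ≤ m₁ o) (Q : O → Y) (o : O) : 0 ≤ tq m₁ m₂ Q o := by
  unfold tq
  split_ifs
  · exact zero_le_one
  · exact div_nonneg (sum_nonneg fun o' _ => by split_ifs; exacts [abs_nonneg _, le_rfl]) (mc_nonneg h1 Q o)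

theorem eq_zero_of_mc {m : O → ℝ} (hm : ∀ o, 0 ≤ m o) {Q : O → Y} {o : O} (h : mc m Q o = 0) : m o = 0 := by
  have h4 : ∀ o'' ∈ (univ : Finset O), (if Q o'' = Q o then m o'' else 0) = 0 := by
    refine (sum_eq_zero_iff_of_nonneg fun o'' _ => ?_).1 h
    split_ifs
    · exact hm o''
    · exact le_rfl
  have h5 := h4 o (mem_univ _)
  rwa [if_pos rfl] at h5

theorem me_tq {m₁ m₂ : O → ℝ} (h1 : ∀ o, 0 ≤ m₁ o) (Q : O → Y) : me m₁ (tq m₁ m₂ Q) ≤ tv m₁ m₂ := by
  unfold me tv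
  refine le_trans (sum_le_sum fun o _ => ?_) (sum_fib h1 Q (r := fun o => |m₁ o - m₂ o|) fun o => abs_nonneg _)
  unfold tq
  split_ifs with h
  · rw [eq_zero_of_mc h1 h, zero_mul, zero_mul]
  · exact le_rfl

theorem ce_nonneg' {m : O → ℝ} (hm : ∀ o, 0 ≤ m o) (Q : O → Y) {H : O → ℝ} (hH : ∀ o, 0 ≤ H o) (o : O) : 0 ≤ ce m Q H o := by
  unfold ce
  exact div_nonneg (sum_nonneg fun o' _ => by split_ifs; exacts [mul_nonneg (hm o') (hH o'), le_rfl]) (mc_nonneg hm Q o)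

theorem me_nonneg' {m : O → ℝ} (hm : ∀ o, 0 ≤ m o) {H : O → ℝ} (hH : ∀ o, 0 ≤ H o) : 0 ≤ me m H :=
  sum_nonneg fun o _ => mul_nonneg (hm o) (hH o)

/-- The mean of the conditional mean. -/
theorem me_ce_le {m : O → ℝ} (hm : ∀ o, 0 ≤ m o) (Q : O → Y) {H : O → ℝ} (hH : ∀ o, 0 ≤ H o) : me m (ce m Q H) ≤ me m H := by
  have h := sum_fib hm Q (r := fun o => m o * H o) fun o => mul_nonneg (hm o) (hH o)
  exact h

/-- The conditional means at one class. -/
theorem ce_point {m₁ m₂ : O → ℝ} (h1 : ∀ o, 0 ≤ m₁ o) (h2 : ∀ o, 0 ≤ m₂ o) (Q : O → Y) {H K E : O → ℝ} {B c : ℝ} (hB : 0 ≤ B)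
    (hH : ∀ o, |H o| ≤ B) (hK : ∀ o, |K o| ≤ B) (hc : 0 ≤ c) (hE0 : ∀ o, 0 ≤ E o) (hE : ∀ o, |H o - K o| ≤ c + E o) (o : O) :
    |ce m₁ Q H o - ce m₂ Q K o| ≤ c + ce m₁ Q E o + 2 * B * tq m₁ m₂ Q o := by
  by_cases h : mc m₁ Q o = 0
  · have e1 : tq m₁ m₂ Q o = 1 := if_pos h
    have b1 := ce_bdd h1 Q hB hH o
    have b2 := ce_bdd h2 Q hB hK o
    have b3 := abs_sub (ce m₁ Q H o) (ce m₂ Q K o)
    have b4 := ce_nonneg' h1 Q hE0 o
    rw [e1]
    linarith
  · have hp : 0 < mc m₁ Q o := lt_of_le_of_ne (mc_nonneg h1 Q o) (Ne.symm h)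
    have h3 := ce_diff h1 h2 Q (H := H) hB hK o hp
    have e1 : tq m₁ m₂ Q o = (∑ o', if Q o' = Q o then |m₁ o' - m₂ o'| else 0) / mc m₁ Q o := if_neg h
    have e2 : ce m₁ Q E o = (∑ o', if Q o' = Q o then m₁ o' * E o' else 0) / mc m₁ Q o := rfl
    refine le_of_mul_le_mul_left (h3.trans ?_) hp
    show _ ≤ mc m₁ Q o * _
    rw [e1, e2]
    have e3 : mc m₁ Q o * (c + (∑ o', if Q o' = Q o then m₁ o' * E o' else 0) / mc m₁ Q o +
        2 * B * ((∑ o', if Q o' = Q o then |m₁ o' - m₂ o'| else 0) / mc m₁ Q o)) =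
        ∑ o', if Q o' = Q o then m₁ o' * (c + E o') + 2 * B * |m₁ o' - m₂ o'| else 0 := by
      have e4 : (∑ o', if Q o' = Q o then m₁ o' * (c + E o') + 2 * B * |m₁ o' - m₂ o'| else 0) =
          mc m₁ Q o * c + (∑ o', if Q o' = Q o then m₁ o' * E o' else 0) +
            2 * B * (∑ o', if Q o' = Q o then |m₁ o' - m₂ o'| else 0) := by
        unfold mc
        rw [sum_mul, mul_sum, ← sum_add_distrib, ← sum_add_distrib]
        refine sum_congr rfl fun o' _ => ?_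
        split_ifs
        · ring
        · ring
      rw [e4]
      field_simp
    rw [e3]
    refine sum_le_sum fun o' _ => ?_
    split_ifs
    · exact add_le_add (mul_le_mul_of_nonneg_left (hE o') (h1 o')) le_rfl
    · exact le_rfl

end Cls

/-! Expressions of several replicas -/

/-- Expressions: given functions of the replicas (`ι`), constants, sums, products, bounded Lipschitz functions, the mean over a new
replica given the class (`β`) of a replica, the mean over a new free replica. -/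
inductive ExM (ι β : Type*) : Type _
  /-- a given function -/
  | fn (i : ι) : ExM ι β
  /-- a constant -/
  | cst (c : ℝ) : ExM ι β
  /-- the sum -/
  | add (e e' : ExM ι β) : ExM ι β
  /-- the product -/
  | mul (e e' : ExM ι β) : ExM ι β
  /-- a bounded Lipschitz function of an expression -/
  | lf (φ : LipF) (e : ExM ι β) : ExM ι β
  /-- the mean over a new replica given the class of the replica `n` -/
  | ce (k : β) (n : ℕ) (e : ExM ι β) : ExM ι β
  /-- the mean over a new free replica -/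
  | me (e : ExM ι β) : ExM ι β

namespace ExM

variable {ι β : Type*} {Y : Type*} [DecidableEq Y]

/-- The value under the mass function `m`. -/
def ev {O : Type*} [Fintype O] (m : O → ℝ) (f : ι → (ℕ → O) → ℝ) (Q : β → O → Y) : ExM ι β → (ℕ → O) → ℝ
  | fn i => f i
  | cst c => fun _ => c
  | add e e' => fun ρ => ev m f Q e ρ + ev m f Q e' ρ
  | mul e e' => fun ρ => ev m f Q e ρ * ev m f Q e' ρ
  | lf φ e => fun ρ => φ.f (ev m f Q e ρ)
  | ce k n e => fun ρ => Flip61.ce m (Q k) (fun z => ev m f Q e (cns z ρ)) (ρ n)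
  | me e => fun ρ => Flip61.me m fun z => ev m f Q e (cns z ρ)

/-- The bound of an expression. -/
def bd (b : ι → ℝ) : ExM ι β → ℝ
  | fn i => b i
  | cst c => |c|
  | add e e' => bd b e + bd b e'
  | mul e e' => bd b e * bd b e'
  | lf φ _ => φ.M
  | ce _ _ e => bd b e
  | me e => bd b e

/-- The Lipschitz constant of an expression. -/
def li (b : ι → ℝ) : ExM ι β → ℝ
  | fn _ => 0
  | cst _ => 0
  | add e e' => li b e + li b e'
  | mul e e' => bd b e' * li b e + bd b e * li b e'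
  | lf φ e => φ.Λ * li b e
  | ce _ _ e => li b e + 2 * bd b e
  | me e => li b e + bd b e

/-- The means of the expression are given replicas `< a` only (no condition on the given functions). -/
def Sc : ℕ → ExM ι β → Prop
  | _, fn _ => True
  | _, cst _ => True
  | a, add e e' => Sc a e ∧ Sc a e'
  | a, mul e e' => Sc a e ∧ Sc a e'
  | a, lf _ e => Sc a e
  | a, ce _ n e => n < a ∧ Sc (a + 1) e
  | a, me e => Sc (a + 1) e

theorem bd_nonneg {b : ι → ℝ} (hb : ∀ i, 0 ≤ b i) : ∀ e : ExM ι β, 0 ≤ bd b e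
  | fn i => hb i
  | cst _ => abs_nonneg _
  | add e e' => add_nonneg (bd_nonneg hb e) (bd_nonneg hb e')
  | mul e e' => mul_nonneg (bd_nonneg hb e) (bd_nonneg hb e')
  | lf φ _ => (abs_nonneg _).trans (φ.hM 0)
  | ce _ _ e => bd_nonneg hb e
  | me e => bd_nonneg hb e

theorem li_nonneg {b : ι → ℝ} (hb : ∀ i, 0 ≤ b i) : ∀ e : ExM ι β, 0 ≤ li b e
  | fn _ => le_rfl
  | cst _ => le_rfl
  | add e e' => add_nonneg (li_nonneg hb e) (li_nonneg hb e')
  | mul e e' => add_nonneg (mul_nonneg (bd_nonneg hb e') (li_nonneg hb e)) (mul_nonneg (bd_nonneg hb e) (li_nonneg hb e'))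
  | lf φ e => mul_nonneg φ.hΛ0 (li_nonneg hb e)
  | ce _ _ e => add_nonneg (li_nonneg hb e) (mul_nonneg zero_le_two (bd_nonneg hb e))
  | me e => add_nonneg (li_nonneg hb e) (bd_nonneg hb e)

section Lip

variable {O : Type*} [Fintype O]

theorem ev_bdd {m : O → ℝ} (hm : ∀ o, 0 ≤ m o) (hs : ∑ o, m o = 1) {f : ι → (ℕ → O) → ℝ} (Q : β → O → Y) {b : ι → ℝ}
    (hb : ∀ i, 0 ≤ b i) (hf : ∀ i ρ, |f i ρ| ≤ b i) : ∀ (e : ExM ι β) (ρ : ℕ → O), |ev m f Q e ρ| ≤ bd b e
  | fn i, ρ => hf i ρ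
  | cst _, _ => le_rfl
  | add e e', ρ => (abs_add_le _ _).trans (add_le_add (ev_bdd hm hs Q hb hf e ρ) (ev_bdd hm hs Q hb hf e' ρ))
  | mul e e', ρ => by
    show |ev m f Q e ρ * ev m f Q e' ρ| ≤ bd b e * bd b e'
    rw [abs_mul]
    exact mul_le_mul (ev_bdd hm hs Q hb hf e ρ) (ev_bdd hm hs Q hb hf e' ρ) (abs_nonneg _) (bd_nonneg hb e)
  | lf φ e, ρ => φ.hM _
  | ce k n e, ρ => ce_bdd hm (Q k) (bd_nonneg hb e) (fun z => ev_bdd hm hs Q hb hf e (cns z ρ)) (ρ n)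
  | me e, ρ => me_bdd hm hs fun z => ev_bdd hm hs Q hb hf e (cns z ρ)

/-- **The error of an expression**: a constant and one function of every replica. -/
theorem err {m₁ m₂ : O → ℝ} (h1 : ∀ o, 0 ≤ m₁ o) (h2 : ∀ o, 0 ≤ m₂ o) (s1 : ∑ o, m₁ o = 1) (s2 : ∑ o, m₂ o = 1)
    {f : ι → (ℕ → O) → ℝ} (Q : β → O → Y) {b : ι → ℝ} (hb : ∀ i, 0 ≤ b i) (hf : ∀ i ρ, |f i ρ| ≤ b i) :
    ∀ (e : ExM ι β) (a : ℕ), Sc a e → ∃ (c : ℝ) (D : ℕ → O → ℝ), 0 ≤ c ∧ (∀ k o, 0 ≤ D k o) ∧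
      (∀ ρ, |ev m₁ f Q e ρ - ev m₂ f Q e ρ| ≤ c + ∑ k ∈ range a, D k (ρ k)) ∧
      c + ∑ k ∈ range a, Flip61.me m₁ (D k) ≤ li b e * tv m₁ m₂
  | fn i, a, _ => ⟨0, fun _ _ => 0, le_rfl, fun _ _ => le_rfl, fun ρ => by
      show |f i ρ - f i ρ| ≤ _
      rw [sub_self, abs_zero]
      simp, by
      unfold Flip61.me li
      simp⟩
  | cst x, a, _ => ⟨0, fun _ _ => 0, le_rfl, fun _ _ => le_rfl, fun ρ => by
      show |x - x| ≤ _
      rw [sub_self, abs_zero]
      simp, by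
      unfold Flip61.me li
      simp⟩
  | add e e', a, hs => by
    obtain ⟨c, D, p1, p2, p3, p4⟩ := err h1 h2 s1 s2 Q hb hf e a hs.1
    obtain ⟨c', D', q1, q2, q3, q4⟩ := err h1 h2 s1 s2 Q hb hf e' a hs.2
    refine ⟨c + c', fun k o => D k o + D' k o, add_nonneg p1 q1, fun k o => add_nonneg (p2 k o) (q2 k o), fun ρ => ?_, ?_⟩
    · show |(ev m₁ f Q e ρ + ev m₁ f Q e' ρ) - (ev m₂ f Q e ρ + ev m₂ f Q e' ρ)| ≤ _
      have e3 : (ev m₁ f Q e ρ + ev m₁ f Q e' ρ) - (ev m₂ f Q e ρ + ev m₂ f Q e' ρ) =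
        (ev m₁ f Q e ρ - ev m₂ f Q e ρ) + (ev m₁ f Q e' ρ - ev m₂ f Q e' ρ) := by ring
      rw [e3, sum_add_distrib]
      have t1 := abs_add_le (ev m₁ f Q e ρ - ev m₂ f Q e ρ) (ev m₁ f Q e' ρ - ev m₂ f Q e' ρ)
      have t2 := p3 ρ
      have t3 := q3 ρ
      linarith
    · have e4 : ∀ k, Flip61.me m₁ (fun o => D k o + D' k o) = Flip61.me m₁ (D k) + Flip61.me m₁ (D' k) := fun k => by
        unfold Flip61.me
        rw [← sum_add_distrib]
        exact sum_congr rfl fun o _ => by ring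
      simp only [e4]
      rw [sum_add_distrib]
      show _ ≤ (li b e + li b e') * tv m₁ m₂
      linarith
  | mul e e', a, hs => by
    obtain ⟨c, D, p1, p2, p3, p4⟩ := err h1 h2 s1 s2 Q hb hf e a hs.1
    obtain ⟨c', D', q1, q2, q3, q4⟩ := err h1 h2 s1 s2 Q hb hf e' a hs.2
    have be := bd_nonneg hb e
    have be' := bd_nonneg hb e'
    refine ⟨bd b e' * c + bd b e * c', fun k o => bd b e' * D k o + bd b e * D' k o,
      add_nonneg (mul_nonneg be' p1) (mul_nonneg be q1),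
      fun k o => add_nonneg (mul_nonneg be' (p2 k o)) (mul_nonneg be (q2 k o)), fun ρ => ?_, ?_⟩
    · show |ev m₁ f Q e ρ * ev m₁ f Q e' ρ - ev m₂ f Q e ρ * ev m₂ f Q e' ρ| ≤ _
      have e3 : ev m₁ f Q e ρ * ev m₁ f Q e' ρ - ev m₂ f Q e ρ * ev m₂ f Q e' ρ =
        (ev m₁ f Q e ρ - ev m₂ f Q e ρ) * ev m₁ f Q e' ρ + ev m₂ f Q e ρ * (ev m₁ f Q e' ρ - ev m₂ f Q e' ρ) := by ring
      have t1 : |(ev m₁ f Q e ρ - ev m₂ f Q e ρ) * ev m₁ f Q e' ρ| ≤ bd b e' * |ev m₁ f Q e ρ - ev m₂ f Q e ρ| := by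
        rw [abs_mul, mul_comm]
        exact mul_le_mul_of_nonneg_right (ev_bdd h1 s1 Q hb hf e' ρ) (abs_nonneg _)
      have t2 : |ev m₂ f Q e ρ * (ev m₁ f Q e' ρ - ev m₂ f Q e' ρ)| ≤ bd b e * |ev m₁ f Q e' ρ - ev m₂ f Q e' ρ| := by
        rw [abs_mul]
        exact mul_le_mul_of_nonneg_right (ev_bdd h2 s2 Q hb hf e ρ) (abs_nonneg _)
      have t3 := mul_le_mul_of_nonneg_left (p3 ρ) be'
      have t4 := mul_le_mul_of_nonneg_left (q3 ρ) be
      have t5 := abs_add_le ((ev m₁ f Q e ρ - ev m₂ f Q e ρ) * ev m₁ f Q e' ρ) (ev m₂ f Q e ρ * (ev m₁ f Q e' ρ - ev m₂ f Q e' ρ))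
      rw [e3, sum_add_distrib, ← mul_sum, ← mul_sum]
      linarith
    · have e4 : ∀ k, Flip61.me m₁ (fun o => bd b e' * D k o + bd b e * D' k o) =
          bd b e' * Flip61.me m₁ (D k) + bd b e * Flip61.me m₁ (D' k) := fun k => by
        unfold Flip61.me
        rw [mul_sum, mul_sum, ← sum_add_distrib]
        exact sum_congr rfl fun o _ => by ring
      simp only [e4]
      rw [sum_add_distrib, ← mul_sum, ← mul_sum]
      show _ ≤ (bd b e' * li b e + bd b e * li b e') * tv m₁ m₂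
      have t3 := mul_le_mul_of_nonneg_left p4 be'
      have t4 := mul_le_mul_of_nonneg_left q4 be
      linarith
  | lf φ e, a, hs => by
    obtain ⟨c, D, p1, p2, p3, p4⟩ := err h1 h2 s1 s2 Q hb hf e a hs
    refine ⟨φ.Λ * c, fun k o => φ.Λ * D k o, mul_nonneg φ.hΛ0 p1, fun k o => mul_nonneg φ.hΛ0 (p2 k o), fun ρ => ?_, ?_⟩
    · refine (φ.hΛ _ _).trans ?_
      rw [← mul_sum, ← mul_add]
      exact mul_le_mul_of_nonneg_left (p3 ρ) φ.hΛ0
    · have e4 : ∀ k, Flip61.me m₁ (fun o => φ.Λ * D k o) = φ.Λ * Flip61.me m₁ (D k) := fun k => by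
        unfold Flip61.me
        rw [mul_sum]
        exact sum_congr rfl fun o _ => by ring
      simp only [e4]
      rw [← mul_sum, ← mul_add]
      show _ ≤ φ.Λ * li b e * tv m₁ m₂
      rw [mul_assoc]
      exact mul_le_mul_of_nonneg_left p4 φ.hΛ0
  | ce k n e, a, hs => by
    obtain ⟨c, D, p1, p2, p3, p4⟩ := err h1 h2 s1 s2 Q hb hf e (a + 1) hs.2
    have be := bd_nonneg hb e
    have c0 := fun o => ce_nonneg' h1 (Q k) (p2 0) o
    have t0 := fun o => tq_nonneg (m₂ := m₂) h1 (Q k) o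
    refine ⟨c, fun i o => D (i + 1) o + if i = n then Flip61.ce m₁ (Q k) (D 0) o + 2 * bd b e * tq m₁ m₂ (Q k) o else 0, p1,
      fun i o => add_nonneg (p2 _ o) ?_, fun ρ => ?_, ?_⟩
    · split_ifs
      · exact add_nonneg (c0 o) (mul_nonneg (mul_nonneg zero_le_two be) (t0 o))
      · exact le_rfl
    · show |Flip61.ce m₁ (Q k) (fun z => ev m₁ f Q e (cns z ρ)) (ρ n) - Flip61.ce m₂ (Q k) (fun z => ev m₂ f Q e (cns z ρ)) (ρ n)| ≤ _
      have hsum : 0 ≤ ∑ i ∈ range a, D (i + 1) (ρ i) := sum_nonneg fun i _ => p2 _ _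
      have hpt := ce_point h1 h2 (Q k) (H := fun z => ev m₁ f Q e (cns z ρ)) (K := fun z => ev m₂ f Q e (cns z ρ)) (E := D 0)
        (c := c + ∑ i ∈ range a, D (i + 1) (ρ i)) be (fun z => ev_bdd h1 s1 Q hb hf e _) (fun z => ev_bdd h2 s2 Q hb hf e _)
        (add_nonneg p1 hsum) (p2 0) (fun z => by
          have h3 := p3 (cns z ρ)
          rw [sum_range_succ'] at h3
          simp only [cns_succ, cns_zero] at h3
          linarith) (ρ n)
      refine hpt.trans (le_of_eq ?_)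
      rw [sum_add_distrib, sum_ite_eq', if_pos (mem_range.2 hs.1)]
      ring
    · have e4 : ∀ i, Flip61.me m₁ (fun o => D (i + 1) o + if i = n then Flip61.ce m₁ (Q k) (D 0) o + 2 * bd b e * tq m₁ m₂ (Q k) o else 0) =
          Flip61.me m₁ (D (i + 1)) + if i = n then Flip61.me m₁ (Flip61.ce m₁ (Q k) (D 0)) + 2 * bd b e * Flip61.me m₁ (tq m₁ m₂ (Q k)) else 0 := by
        intro i
        unfold Flip61.me
        split_ifs with hi
        · rw [mul_sum, ← sum_add_distrib, ← sum_add_distrib]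
          exact sum_congr rfl fun o _ => by ring
        · simp
      simp only [e4]
      rw [sum_add_distrib, sum_ite_eq', if_pos (mem_range.2 hs.1)]
      have h3 := me_ce_le h1 (Q k) (p2 0)
      have h4 := me_tq (m₂ := m₂) h1 (Q k)
      rw [sum_range_succ'] at p4
      have h5 := mul_le_mul_of_nonneg_left h4 (mul_nonneg zero_le_two be)
      show _ ≤ (li b e + 2 * bd b e) * tv m₁ m₂
      linarith
  | me e, a, hs => by
    obtain ⟨c, D, p1, p2, p3, p4⟩ := err h1 h2 s1 s2 Q hb hf e (a + 1) hs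
    have be := bd_nonneg hb e
    have t0 := tv_nonneg m₁ m₂
    have d0 : 0 ≤ Flip61.me m₁ (D 0) := me_nonneg' h1 (p2 0)
    refine ⟨c + Flip61.me m₁ (D 0) + bd b e * tv m₁ m₂, fun i o => D (i + 1) o,
      add_nonneg (add_nonneg p1 d0) (mul_nonneg be t0), fun i o => p2 _ o, fun ρ => ?_, ?_⟩
    · show |Flip61.me m₁ (fun z => ev m₁ f Q e (cns z ρ)) - Flip61.me m₂ (fun z => ev m₂ f Q e (cns z ρ))| ≤ _
      have h := me_lip (m₂ := m₂) h1 (H := fun z => ev m₁ f Q e (cns z ρ)) (K := fun z => ev m₂ f Q e (cns z ρ)) (B := bd b e)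
        fun z => ev_bdd h2 s2 Q hb hf e _
      have h5 : d1 m₁ (fun z => ev m₁ f Q e (cns z ρ)) (fun z => ev m₂ f Q e (cns z ρ)) ≤
          c + ∑ i ∈ range a, D (i + 1) (ρ i) + Flip61.me m₁ (D 0) := by
        unfold d1
        calc ∑ o, m₁ o * |ev m₁ f Q e (cns o ρ) - ev m₂ f Q e (cns o ρ)|
            ≤ ∑ o, (m₁ o * (c + ∑ i ∈ range a, D (i + 1) (ρ i)) + m₁ o * D 0 o) := by
              refine sum_le_sum fun o _ => ?_
              rw [← mul_add]
              refine mul_le_mul_of_nonneg_left ?_ (h1 o)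
              have h3 := p3 (cns o ρ)
              rw [sum_range_succ'] at h3
              simp only [cns_succ, cns_zero] at h3
              linarith
          _ = _ := by
              rw [sum_add_distrib, ← sum_mul, s1, one_mul]
              rfl
      linarith
    · rw [sum_range_succ'] at p4
      show _ ≤ (li b e + bd b e) * tv m₁ m₂
      linarith

/-- **A closed expression is Lipschitz** in the law of one replica. -/
theorem closed {m₁ m₂ : O → ℝ} (h1 : ∀ o, 0 ≤ m₁ o) (h2 : ∀ o, 0 ≤ m₂ o) (s1 : ∑ o, m₁ o = 1) (s2 : ∑ o, m₂ o = 1)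
    {f : ι → (ℕ → O) → ℝ} (Q : β → O → Y) {b : ι → ℝ} (hb : ∀ i, 0 ≤ b i) (hf : ∀ i ρ, |f i ρ| ≤ b i)
    (e : ExM ι β) (hs : Sc 0 e) (ρ : ℕ → O) : |ev m₁ f Q e ρ - ev m₂ f Q e ρ| ≤ li b e * tv m₁ m₂ := by
  obtain ⟨c, D, -, -, p3, p4⟩ := err h1 h2 s1 s2 Q hb hf e 0 hs
  have h3 := p3 ρ
  rw [range_zero, sum_empty, add_zero] at h3 p4
  exact h3.trans p4

/-- **The mean of an expression of one replica is Lipschitz**. -/
theorem one {m₁ m₂ : O → ℝ} (h1 : ∀ o, 0 ≤ m₁ o) (h2 : ∀ o, 0 ≤ m₂ o) (s1 : ∑ o, m₁ o = 1) (s2 : ∑ o, m₂ o = 1)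
    {f : ι → (ℕ → O) → ℝ} (Q : β → O → Y) {b : ι → ℝ} (hb : ∀ i, 0 ≤ b i) (hf : ∀ i ρ, |f i ρ| ≤ b i)
    (e : ExM ι β) (hs : Sc 1 e) : |Flip61.me m₁ (fun o => ev m₁ f Q e fun _ => o) - Flip61.me m₂ (fun o => ev m₂ f Q e fun _ => o)| ≤
      (li b e + bd b e) * tv m₁ m₂ := by
  obtain ⟨c, D, p1, p2, p3, p4⟩ := err h1 h2 s1 s2 Q hb hf e 1 hs
  rw [sum_range_one] at p4
  have h := me_lip (m₂ := m₂) h1 (H := fun o => ev m₁ f Q e fun _ => o) (K := fun o => ev m₂ f Q e fun _ => o) (B := bd b e)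
    fun o => ev_bdd h2 s2 Q hb hf e _
  have h5 : d1 m₁ (fun o => ev m₁ f Q e fun _ => o) (fun o => ev m₂ f Q e fun _ => o) ≤ c + Flip61.me m₁ (D 0) := by
    unfold d1
    calc ∑ o, m₁ o * |ev m₁ f Q e (fun _ => o) - ev m₂ f Q e (fun _ => o)| ≤ ∑ o, (m₁ o * c + m₁ o * D 0 o) := by
          refine sum_le_sum fun o _ => ?_
          rw [← mul_add]
          refine mul_le_mul_of_nonneg_left ?_ (h1 o)
          have h3 := p3 fun _ => o
          rw [sum_range_one] at h3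
          exact h3
      _ = _ := by
          rw [sum_add_distrib, ← sum_mul, s1, one_mul]
          rfl
  linarith

end Lip

/-! The value under a Gibbs measure -/

section Gibbs

variable {X : Type*} [Fintype X] [Nonempty X]

/-- The value under the Gibbs measure with the log weights `w` on `X`. -/
def evX (w : X → ℝ) (f : ι → (ℕ → X) → ℝ) (Q : β → X → Y) : ExM ι β → (ℕ → X) → ℝ
  | fn i => f i
  | cst c => fun _ => c
  | add e e' => fun ρ => evX w f Q e ρ + evX w f Q e' ρ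
  | mul e e' => fun ρ => evX w f Q e ρ * evX w f Q e' ρ
  | lf φ e => fun ρ => φ.f (evX w f Q e ρ)
  | ce k n e => fun ρ => cE w (Q k) (fun z => evX w f Q e (cns z ρ)) (ρ n)
  | me e => fun ρ => gm w fun z => evX w f Q e (cns z ρ)

variable {O : Type*} [Fintype O] [DecidableEq O]

/-- **The value under a Gibbs measure** is the value under the law of the label. -/
theorem ev_evX (w : X → ℝ) (lam : X → O) (f : ι → (ℕ → O) → ℝ) (Q : β → O → Y) : ∀ (e : ExM ι β) (ρ : ℕ → X),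
    evX w (fun i ρ => f i fun n => lam (ρ n)) (fun k x => Q k (lam x)) e ρ = ev (Ex.lm w lam) f Q e fun n => lam (ρ n)
  | fn _, _ => rfl
  | cst _, _ => rfl
  | add e e', ρ => by
    show _ + _ = _ + _
    rw [ev_evX w lam f Q e ρ, ev_evX w lam f Q e' ρ]
  | mul e e', ρ => by
    show _ * _ = _ * _
    rw [ev_evX w lam f Q e ρ, ev_evX w lam f Q e' ρ]
  | lf φ e, ρ => by
    show φ.f _ = φ.f _
    rw [ev_evX w lam f Q e ρ]
  | ce k n e, ρ => by
    show cE w (fun x => Q k (lam x)) (fun z => evX w (fun i ρ => f i fun n => lam (ρ n)) (fun k x => Q k (lam x)) e (cns z ρ)) (ρ n) = _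
    have e1 : (fun z => evX w (fun i ρ => f i fun n => lam (ρ n)) (fun k x => Q k (lam x)) e (cns z ρ)) =
        fun z => (fun o => ev (Ex.lm w lam) f Q e (cns o fun n => lam (ρ n))) (lam z) := funext fun z => by
      rw [ev_evX w lam f Q e (cns z ρ), comp_cns lam z ρ]
    rw [e1, ← Ex.ce_lm w lam (Q k) (fun o => ev (Ex.lm w lam) f Q e (cns o fun n => lam (ρ n))) (ρ n)]
    rfl
  | me e, ρ => by
    show gm w (fun z => evX w (fun i ρ => f i fun n => lam (ρ n)) (fun k x => Q k (lam x)) e (cns z ρ)) = _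
    have e1 : (fun z => evX w (fun i ρ => f i fun n => lam (ρ n)) (fun k x => Q k (lam x)) e (cns z ρ)) =
        fun z => (fun o => ev (Ex.lm w lam) f Q e (cns o fun n => lam (ρ n))) (lam z) := funext fun z => by
      rw [ev_evX w lam f Q e (cns z ρ), comp_cns lam z ρ]
    rw [e1]
    exact (Ex.me_lm w lam fun o => ev (Ex.lm w lam) f Q e (cns o fun n => lam (ρ n))).symm

theorem evX_part {Y₁ Y₂ : Type*} [DecidableEq Y₁] [DecidableEq Y₂] (w : X → ℝ) (f : ι → (ℕ → X) → ℝ) {q : β → X → Y₁} {q' : β → X → Y₂}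
    (h : ∀ k x x', q k x = q k x' ↔ q' k x = q' k x') : ∀ e : ExM ι β, evX w f q e = evX w f q' e
  | fn _ => rfl
  | cst _ => rfl
  | add e e' => by
    funext ρ
    show _ + _ = _ + _
    rw [evX_part w f h e, evX_part w f h e']
  | mul e e' => by
    funext ρ
    show _ * _ = _ * _
    rw [evX_part w f h e, evX_part w f h e']
  | lf φ e => by
    funext ρ
    show φ.f _ = φ.f _
    rw [evX_part w f h e]
  | ce k n e => by
    funext ρ
    show cE w (q k) _ (ρ n) = cE w (q' k) _ (ρ n)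
    rw [evX_part w f h e, Ex.cE_part w (h k)]
  | me e => by
    funext ρ
    show gm w _ = gm w _
    rw [evX_part w f h e]

end Gibbs

open Classical in
/-- **TWO GIBBS MEASURES, SEVERAL REPLICAS.** `lam₁`, `lam₂` are labels with values in the same set, the given functions agree at equal
labels, the partitions are given by the labels: the means of an expression of one replica differ by at most a constant times the total
variation distance of the laws of the labels. -/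
theorem flip_obs {X₁ X₂ : Type*} [Fintype X₁] [Nonempty X₁] [Fintype X₂] [Nonempty X₂] {O : Type*} [Fintype O] [DecidableEq O]
    {Y₁ Y₂ : Type*} [DecidableEq Y₁] [DecidableEq Y₂]
    (w₁ : X₁ → ℝ) (w₂ : X₂ → ℝ) (lam₁ : X₁ → O) (lam₂ : X₂ → O) {h₁ : ι → (ℕ → X₁) → ℝ} {h₂ : ι → (ℕ → X₂) → ℝ} {q₁ : β → X₁ → Y₁}
    {q₂ : β → X₂ → Y₂} (Q : β → O → Y) {b : ι → ℝ} (hb : ∀ i, 0 ≤ b i) (b1 : ∀ i x, |h₁ i x| ≤ b i) (b2 : ∀ i x, |h₂ i x| ≤ b i)
    (c12 : ∀ i ρ ρ', (∀ n, lam₁ (ρ n) = lam₂ (ρ' n)) → h₁ i ρ = h₂ i ρ')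
    (c11 : ∀ i ρ ρ', (∀ n, lam₁ (ρ n) = lam₁ (ρ' n)) → h₁ i ρ = h₁ i ρ')
    (c22 : ∀ i ρ ρ', (∀ n, lam₂ (ρ n) = lam₂ (ρ' n)) → h₂ i ρ = h₂ i ρ')
    (p1 : ∀ k x y, q₁ k x = q₁ k y ↔ Q k (lam₁ x) = Q k (lam₁ y)) (p2 : ∀ k x y, q₂ k x = q₂ k y ↔ Q k (lam₂ x) = Q k (lam₂ y))
    (e : ExM ι β) (hs : Sc 1 e) : |gm w₁ (fun x => evX w₁ h₁ q₁ e fun _ => x) - gm w₂ (fun x => evX w₂ h₂ q₂ e fun _ => x)| ≤
      (li b e + bd b e) * tv (Ex.lm w₁ lam₁) (Ex.lm w₂ lam₂) := by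
  set f : ι → (ℕ → O) → ℝ := fun i o => if h : ∃ ρ : ℕ → X₁, ∀ n, lam₁ (ρ n) = o n then h₁ i h.choose else
    if h : ∃ ρ : ℕ → X₂, ∀ n, lam₂ (ρ n) = o n then h₂ i h.choose else 0 with hf
  have f1 : ∀ i ρ, (f i fun n => lam₁ (ρ n)) = h₁ i ρ := by
    intro i ρ
    have h : ∃ ρ' : ℕ → X₁, ∀ n, lam₁ (ρ' n) = lam₁ (ρ n) := ⟨ρ, fun _ => rfl⟩
    rw [hf]
    simp only [dif_pos h]
    exact c11 i _ _ h.choose_spec
  have f2 : ∀ i ρ, (f i fun n => lam₂ (ρ n)) = h₂ i ρ := by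
    intro i ρ
    rw [hf]
    by_cases h : ∃ ρ' : ℕ → X₁, ∀ n, lam₁ (ρ' n) = lam₂ (ρ n)
    · simp only [dif_pos h]
      exact c12 i _ _ h.choose_spec
    · have h' : ∃ ρ' : ℕ → X₂, ∀ n, lam₂ (ρ' n) = lam₂ (ρ n) := ⟨ρ, fun _ => rfl⟩
      simp only [dif_neg h, dif_pos h']
      exact c22 i _ _ h'.choose_spec
  have fb : ∀ i o, |f i o| ≤ b i := by
    intro i o
    rw [hf]
    by_cases h : ∃ ρ : ℕ → X₁, ∀ n, lam₁ (ρ n) = o n
    · simp only [dif_pos h]
      exact b1 i _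
    · by_cases h' : ∃ ρ : ℕ → X₂, ∀ n, lam₂ (ρ n) = o n
      · simp only [dif_neg h, dif_pos h']
        exact b2 i _
      · simp only [dif_neg h, dif_neg h', abs_zero]
        exact hb i
  have g1 : gm w₁ (fun x => evX w₁ h₁ q₁ e fun _ => x) = Flip61.me (Ex.lm w₁ lam₁) (fun o => ev (Ex.lm w₁ lam₁) f Q e fun _ => o) := by
    have e1 : h₁ = fun i ρ => f i fun n => lam₁ (ρ n) := by
      funext i ρ
      rw [f1]
    have e2 : (fun x => evX w₁ h₁ q₁ e fun _ => x) = fun x => (fun o => ev (Ex.lm w₁ lam₁) f Q e fun _ => o) (lam₁ x) := by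
      funext x
      rw [evX_part w₁ h₁ p1 e, e1, ev_evX w₁ lam₁ f Q e]
    rw [e2]
    exact (Ex.me_lm w₁ lam₁ fun o => ev (Ex.lm w₁ lam₁) f Q e fun _ => o).symm
  have g2 : gm w₂ (fun x => evX w₂ h₂ q₂ e fun _ => x) = Flip61.me (Ex.lm w₂ lam₂) (fun o => ev (Ex.lm w₂ lam₂) f Q e fun _ => o) := by
    have e1 : h₂ = fun i ρ => f i fun n => lam₂ (ρ n) := by
      funext i ρ
      rw [f2]
    have e2 : (fun x => evX w₂ h₂ q₂ e fun _ => x) = fun x => (fun o => ev (Ex.lm w₂ lam₂) f Q e fun _ => o) (lam₂ x) := by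
      funext x
      rw [evX_part w₂ h₂ p2 e, e1, ev_evX w₂ lam₂ f Q e]
    rw [e2]
    exact (Ex.me_lm w₂ lam₂ fun o => ev (Ex.lm w₂ lam₂) f Q e fun _ => o).symm
  rw [g1, g2]
  exact one (Ex.lm_nonneg w₁ lam₁) (Ex.lm_nonneg w₂ lam₂) (Ex.sum_lm_one w₁ lam₁) (Ex.sum_lm_one w₂ lam₂) Q hb fb e hs

end ExM

end

end Pool.Agent.W_7d29a1_C0.Flip61
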