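import Pool.Agent.W_7d29a1_C0.FlipT61

/-!
CURV0 (MP_7d29a1_pr), E7, LAW INVARIANCE FOR TILTED MEASURES, averaged. `fl_tilt`: `fl_even` for the measures tilted by a covariant
function `H`. `fl_pair`: the mean of an expression is its mean over the four corners of two rows with disjoint windows. (helper61)
-/

set_option autoImplicit false
set_option linter.unusedSectionVars false

namespace Pool.Agent.W_7d29a1_C0.Flip61

open Pool.Agent.W_7d29a1_F hiding W_pos W_nonneg W_add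
open Finset MeasureTheory Pool.Agent.W_7d29a1_X Pool.Agent.W_7d29a1_HZ
open Pool.Agent.W_7d29a1_Z74
open Pool.Agent.W_7d29a1_HZ.Z74
open Pool.Agent.W_7d29a1_C0.Mod92
open Pool.Agent.W_7d29a1_C0.Blk18
open Pool.Agent.W_7d29a1_C0.Pin18
open Pool.W7d29a1.C0 (gz gm gz_pos gz_ne gm_const gm_mono gm_nonneg gm_sub)
open Pool.W7d29a1.C0.VT31 (Mp Crs cE cV cC gc gv)

noncomputable section

variable {μ : Measure ℝ} {s : ℝ} {N : ℕ} {ι β : Type*} [IsProbabilityMeasure μ]

section Tilted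

variable {H : (y : ℕ) → Env × Finset ℕ → Px (Pn N y) → ℝ} {h : (y : ℕ) → Env × Finset ℕ → ι → Px (Pn N y) → ℝ} {bb : ι → ℝ}

theorem meas_obh (C D : β → ℕ) (hH : ∀ y S, Measurable fun ω => H y ω S)
    (hm : ∀ y i S, Measurable fun ω => h y ω i S) (e : Finset ℕ → Ex ι β) (y : ℕ) : Measurable (obh μ s N C D H h e y) := by
  by_cases hy : y ≤ N
  swap
  · unfold obh
    simp only [gm_zero_empty hy]
    exact measurable_const
  have n1 : Nonempty (Px (Pn N y)) := ne_Pn hy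
  refine meas_om fun A => ?_
  have hA : Measurable fun η : Env => (η, A) := meas_pair A
  have hw : ∀ S : Px (Pn N y), Measurable fun η : Env => (lw μ s η N (Pn N y) + H y (η, A)) S := fun S =>
    (meas_lw S).add ((hH y S).comp hA)
  unfold obh
  exact meas_gm (w := fun η : Env => lw μ s η N (Pn N y) + H y (η, A)) hw
    (Ex.meas_evX (w := fun η : Env => lw μ s η N (Pn N y) + H y (η, A)) (f := fun η : Env => h y (η, A)) hw
      (fun i S => (hm y i S).comp hA) (fun i => pJ (C i) (D i)) (e A))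

theorem meas_obfh (δ B : ℝ) (b j : ℕ) (C D : β → ℕ) (hH : ∀ y S, Measurable fun ω => H y ω S)
    (hm : ∀ y i S, Measurable fun ω => h y ω i S) (e : Finset ℕ → Ex ι β) (y : ℕ) : Measurable (obfh μ s N δ B b j C D H h e y) := by
  by_cases hy : y ≤ N
  swap
  · unfold obfh
    simp only [gm_zero_empty hy]
    exact measurable_const
  have n1 : Nonempty (Px (Pn N y)) := ne_Pn hy
  refine meas_om fun A => ?_
  have hA : Measurable fun η : Env => (η, A) := meas_pair A
  have hw : ∀ S : Px (Pn N y), Measurable fun η : Env =>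
      (wt μ s η N (Pn N y) δ B b j (sg A j) (-(sg A j : ℝ)) + H y (η, A)) S := fun S =>
    ((meas_lw S).add ((meas_gj δ B b j (sg A j) S).const_mul _)).add ((hH y S).comp hA)
  unfold obfh
  exact meas_gm (w := fun η : Env => wt μ s η N (Pn N y) δ B b j (sg A j) (-(sg A j : ℝ)) + H y (η, A)) hw
    (Ex.meas_evX (w := fun η : Env => wt μ s η N (Pn N y) δ B b j (sg A j) (-(sg A j : ℝ)) + H y (η, A))
      (f := fun η : Env => h y (η, A)) hw (fun i S => (hm y i S).comp hA) (fun i => pJ (C i) (D i)) (e (flp j A)))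

theorem obh_bdd (C D : β → ℕ) (hp : ∀ i, 0 ≤ bb i) (hb : ∀ y ω i S, |h y ω i S| ≤ bb i) (e : Finset ℕ → Ex ι β) (y : ℕ)
    (ω : Env × Finset ℕ) : |obh μ s N C D H h e y ω| ≤ Ex.bd bb (e ω.2) := by
  by_cases hy : y ≤ N
  swap
  · unfold obh
    rw [gm_zero_empty hy, abs_zero]
    exact Ex.bd_nonneg hp _
  have n1 : Nonempty (Px (Pn N y)) := ne_Pn hy
  unfold obh
  exact Ex.gm_bdd _ fun S => Ex.evX_bdd _ _ hp (hb y ω) _ S

theorem obfh_bdd (δ B : ℝ) (b j : ℕ) (C D : β → ℕ) (hp : ∀ i, 0 ≤ bb i) (hb : ∀ y ω i S, |h y ω i S| ≤ bb i) (e : Finset ℕ → Ex ι β)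
    (y : ℕ) (ω : Env × Finset ℕ) : |obfh μ s N δ B b j C D H h e y ω| ≤ Ex.bd bb (e (flp j ω.2)) := by
  by_cases hy : y ≤ N
  swap
  · unfold obfh
    rw [gm_zero_empty hy, abs_zero]
    exact Ex.bd_nonneg hp _
  have n1 : Nonempty (Px (Pn N y)) := ne_Pn hy
  unfold obfh
  exact Ex.gm_bdd _ fun S => Ex.evX_bdd _ _ hp (hb y ω) _ S

theorem int_obh (C D : β → ℕ) (hH : ∀ y S, Measurable fun ω => H y ω S) (hp : ∀ i, 0 ≤ bb i)
    (hb : ∀ y ω i S, |h y ω i S| ≤ bb i) (hm : ∀ y i S, Measurable fun ω => h y ω i S) (e : Finset ℕ → Ex ι β) (y : ℕ) (A : Finset ℕ) :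
    Integrable (fun η : Env => obh μ s N C D H h e y (η, A)) (law μ) :=
  Integrable.of_bound ((meas_obh C D hH hm e y).comp (meas_pair A)).aestronglyMeasurable (Ex.bd bb (e A))
    (Filter.Eventually.of_forall fun η => by
      rw [Real.norm_eq_abs]
      exact obh_bdd C D hp hb e y (η, A))

theorem int_obfh (δ B : ℝ) (b j : ℕ) (C D : β → ℕ) (hH : ∀ y S, Measurable fun ω => H y ω S) (hp : ∀ i, 0 ≤ bb i)
    (hb : ∀ y ω i S, |h y ω i S| ≤ bb i) (hm : ∀ y i S, Measurable fun ω => h y ω i S) (e : Finset ℕ → Ex ι β) (y : ℕ) (A : Finset ℕ) :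
    Integrable (fun η : Env => obfh μ s N δ B b j C D H h e y (η, A)) (law μ) :=
  Integrable.of_bound ((meas_obfh δ B b j C D hH hm e y).comp (meas_pair A)).aestronglyMeasurable (Ex.bd bb (e (flp j A)))
    (Filter.Eventually.of_forall fun η => by
      rw [Real.norm_eq_abs]
      exact obfh_bdd δ B b j C D hp hb e y (η, A))

/-- **ONE PINNED END**, tilted, mean over the environment. -/
theorem one_tilt_int {b j : ℕ} (hb : 0 < b) (hjN : j + b ≤ N) {K : ℝ} (HH : Cov1 N b j H K) (Hh : Cov N b j h bb)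
    (C D : β → ℕ) (hC : ∀ i, C i ≤ j - b) (hD : ∀ i, j + b ≤ D i) (e : Finset ℕ → Ex ι β)
    (δ B : ℝ) {y : ℕ} (hy : 1 ≤ y) (hyN : y < N) (A : Finset ℕ) {L : ℝ}
    (hL : ∀ A, Ex.li bb (e A) + 2 * Ex.bd bb (e A) ≤ L) :
    |∫ η, obfh μ s N δ B b j C D H h e y (η, A) ∂(law μ) -
        ∫ η, obh μ s N C D H h e (nb (sg A j) y) (η, flp j A) ∂(law μ)| ≤
      2 * Real.exp (2 * K) * L * (∫ η, clip μ s N δ B b j (sg A j) y η ∂(law μ) +
        2 * ∫ η, nok μ s N (j - b) (j + b - (j - b)) (-sg A j) (nb (sg A j) y) η ∂(law μ)) := by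
  have m2 : Measurable fun η : Env => obh μ s N C D H h e (nb (sg A j) y) (η, flp j A) :=
    (meas_obh C D HH.mes Hh.mes e _).comp (meas_pair _)
  have ms : Measurable (shj (j : ℤ) (-sg A j)) := (mp_shj (μ := μ) (j : ℤ) (-sg A j)).measurable
  have m2' : Measurable fun η : Env => obh μ s N C D H h e (nb (sg A j) y) (shj (j : ℤ) (-sg A j) η, flp j A) := m2.comp ms
  have m3 : Measurable fun η : Env => nok μ s N (j - b) (j + b - (j - b)) (-sg A j) (nb (sg A j) y) η := meas_nok _ _ _ _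
  have m3' : Measurable fun η : Env => nok μ s N (j - b) (j + b - (j - b)) (-sg A j) (nb (sg A j) y) (shj (j : ℤ) (-sg A j) η) := m3.comp ms
  have m4 : Measurable fun η : Env => clip μ s N δ B b j (sg A j) y η := meas_clip _ _ _ _ _ _
  have i1 := int_obfh (μ := μ) (s := s) (H := H) δ B b j C D HH.mes Hh.pos Hh.bdd Hh.mes e y A
  have i2 : Integrable (fun η : Env => obh μ s N C D H h e (nb (sg A j) y) (shj (j : ℤ) (-sg A j) η, flp j A)) (law μ) :=
    Integrable.of_bound m2'.aestronglyMeasurable (Ex.bd bb (e (flp j A))) (Filter.Eventually.of_forall fun η => by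
      rw [Real.norm_eq_abs]
      exact obh_bdd C D Hh.pos Hh.bdd e _ (shj (j : ℤ) (-sg A j) η, flp j A))
  have i3 : Integrable (fun η : Env => nok μ s N (j - b) (j + b - (j - b)) (-sg A j) (nb (sg A j) y) (shj (j : ℤ) (-sg A j) η)) (law μ) :=
    Integrable.of_bound m3'.aestronglyMeasurable 1 (Filter.Eventually.of_forall fun η => by
      rw [Real.norm_eq_abs, abs_of_nonneg (nok_nonneg _ _ _ _ _)]
      exact nok_le _ _ _ _ _)
  have i4 : Integrable (fun η : Env => clip μ s N δ B b j (sg A j) y η) (law μ) :=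
    Integrable.of_bound m4.aestronglyMeasurable 2 (Filter.Eventually.of_forall fun η => by
      rw [Real.norm_eq_abs, abs_of_nonneg (clip_nonneg _ _ _ _ _ _ _)]
      exact clip_le _ _ _ _ _ _ _)
  rw [← int_shj (μ := μ) (j : ℤ) (-sg A j) m2, ← int_shj (μ := μ) (j : ℤ) (-sg A j) m3, ← integral_sub i1 i2,
    ← integral_const_mul, ← integral_add i4 (i3.const_mul 2), ← integral_const_mul]
  refine (abs_integral_le_integral_abs).trans ?_
  refine integral_mono (i1.sub i2).abs ((i4.add (i3.const_mul 2)).const_mul (2 * Real.exp (2 * K) * L)) fun η => ?_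
  exact one_end_tilt hb hjN HH Hh C D hC hD e δ B hy hyN (η, A) hL

/-- **BOTH CORNERS, TILTED MEASURES.** -/
theorem fl_tilt {b j : ℕ} (hb : 0 < b) (hj : j + b ≤ N) {K : ℝ} (HH : Cov1 N b j H K) (Hh : Cov N b j h bb)
    (C D : β → ℕ) (hC : ∀ i, C i ≤ j - b) (hD : ∀ i, j + b ≤ D i) (e : Finset ℕ → Ex ι β)
    {δ B : ℝ} {L M ε : ℝ} (hL : ∀ A, Ex.li bb (e A) + 2 * Ex.bd bb (e A) ≤ L)
    (hM : ∀ y ω, |obh μ s N C D H h e y ω| ≤ M)
    {y₀ m : ℕ} (hy : 1 ≤ y₀) (hm : 1 ≤ m) (hyN : y₀ + m ≤ N) (hE : FErr μ s N δ B b j y₀ m ε) :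
    |(m : ℝ)⁻¹ * ∑ y ∈ Ico y₀ (y₀ + m), ∫ ω, (obh μ s N C D H h e y ω - obfh μ s N δ B b j C D H h e y ω) ∂(Pm μ N)| ≤
      2 * M / m + 6 * Real.exp (2 * K) * L * ε := by
  have hjN : j < N := by omega
  have i1 := fun y A => int_obh (μ := μ) (s := s) (N := N) C D HH.mes Hh.pos Hh.bdd Hh.mes e y A
  have i2 := fun y A => int_obfh (μ := μ) (s := s) (N := N) δ B b j C D HH.mes Hh.pos Hh.bdd Hh.mes e y A
  have e1 : ∀ y, ∫ ω, (obh μ s N C D H h e y ω - obfh μ s N δ B b j C D H h e y ω) ∂(Pm μ N) =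
      (2 ^ N : ℝ)⁻¹ * ∑ A ∈ (range N).powerset, (∫ η, obh μ s N C D H h e y (η, A) ∂(law μ) -
        ∫ η, obfh μ s N δ B b j C D H h e y (η, A) ∂(law μ)) := by
    intro y
    rw [int_Pm (Φ := fun ω => obh μ s N C D H h e y ω - obfh μ s N δ B b j C D H h e y ω) (fun A _ => (i1 y A).sub (i2 y A))
      fun A => ((meas_obh C D HH.mes Hh.mes e y).sub (meas_obfh δ B b j C D HH.mes Hh.mes e y)).comp (meas_pair A)]
    congr 1
    exact sum_congr rfl fun A _ => integral_sub (i1 y A) (i2 y A)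
  simp only [e1]
  have hL0 : 0 ≤ L := by
    have h1 := hL ∅
    have h2 := Ex.bd_nonneg Hh.pos (e ∅)
    have h3 := Ex.li_nonneg Hh.pos (e ∅)
    linarith
  have hmain := pin_even hjN (F := fun A y => ∫ η, obh μ s N C D H h e y (η, A) ∂(law μ))
    (Fl := fun A y => ∫ η, obfh μ s N δ B b j C D H h e y (η, A) ∂(law μ)) (M := M) (e := 2 * Real.exp (2 * K) * L * (3 * ε))
    (fun A y => abs_int_le fun η => hM y (η, A)) hy hm fun A _ y hy' => ?_
  · refine hmain.trans (le_of_eq ?_)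
    ring
  · have hy2 := mem_Ico.1 hy'
    refine (one_tilt_int hb hj HH Hh C D hC hD e δ B (by omega) (by omega) A hL).trans ?_
    have h1 := hE.clip A y hy'
    have h2 := hE.nok A y hy'
    exact mul_le_mul_of_nonneg_left (by linarith) (by positivity)

end Tilted

end

end Pool.Agent.W_7d29a1_C0.Flip61
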