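import Pool.Agent.W_7d29a1_C0.FlipP61
import Pool.Agent.W_7d29a1_C0.FlipU61

/-!
CURV0 (MP_7d29a1_pr), E7, SEVERAL REPLICAS, one environment (helper61). `CovM` = covariant functions of several replicas, `obM` = the mean
of an expression of several replicas under the actual pinned measure, `obfM` = the same under the clipped flip of the kick of the row `j`;
`one_endM`: the two means agree up to the errors of the clipping and of the straight windows.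
-/

set_option autoImplicit false
set_option linter.unusedSectionVars false

namespace Pool.Agent.W_7d29a1_C0.Flip61

open Pool.Agent.W_7d29a1_F hiding W_pos W_nonneg W_add
open Finset MeasureTheory Pool.Agent.W_7d29a1_X Pool.Agent.W_7d29a1_HZ
open Pool.Agent.W_7d29a1_Z74
open Pool.Agent.W_7d29a1_HZ.Z74
open Pool.Agent.W_7d29a1_C0.Mod92
open Pool.Agent.W_7d29a1_C0.Blk18
open Pool.Agent.W_7d29a1_C0.Pin18
open Pool.W7d29a1.C0 (gz gm gz_pos gz_ne gm_const gm_mono gm_nonneg gm_sub)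
open Pool.W7d29a1.C0.VT31 (Mp Crs cE cV cC gc gv)

noncomputable section

variable {μ : Measure ℝ} {s : ℝ} {N : ℕ} {ι β : Type*}

namespace ExM

variable {Y : Type*} [DecidableEq Y] {X : Type*} [Fintype X] [Nonempty X]

theorem evX_bdd (w : X → ℝ) {f : ι → (ℕ → X) → ℝ} (Q : β → X → Y) {b : ι → ℝ} (hb : ∀ i, 0 ≤ b i) (hf : ∀ i x, |f i x| ≤ b i) :
    ∀ (e : ExM ι β) (ρ : ℕ → X), |evX w f Q e ρ| ≤ bd b e
  | fn i, ρ => hf i ρ
  | cst _, _ => le_rfl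
  | add e e', ρ => (abs_add_le _ _).trans (add_le_add (evX_bdd w Q hb hf e ρ) (evX_bdd w Q hb hf e' ρ))
  | mul e e', ρ => by
    show |evX w f Q e ρ * evX w f Q e' ρ| ≤ bd b e * bd b e'
    rw [abs_mul]
    exact mul_le_mul (evX_bdd w Q hb hf e ρ) (evX_bdd w Q hb hf e' ρ) (abs_nonneg _) (bd_nonneg hb e)
  | lf φ _, _ => φ.hM _
  | ce k n e, ρ => abs_cE_le w (Q k) (fun z => evX_bdd w Q hb hf e (cns z ρ)) (ρ n)
  | me e, ρ => Ex.gm_bdd w fun z => evX_bdd w Q hb hf e (cns z ρ)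

theorem meas_evX {Ω : Type*} [MeasurableSpace Ω] {w : Ω → X → ℝ} (hw : ∀ x, Measurable fun ω => w ω x) {f : Ω → ι → (ℕ → X) → ℝ}
    (hf : ∀ i x, Measurable fun ω => f ω i x) (Q : β → X → Y) : ∀ (e : ExM ι β) (ρ : ℕ → X), Measurable fun ω => evX (w ω) (f ω) Q e ρ
  | fn i, ρ => hf i ρ
  | cst _, _ => measurable_const
  | add e e', ρ => (meas_evX hw hf Q e ρ).add (meas_evX hw hf Q e' ρ)
  | mul e e', ρ => (meas_evX hw hf Q e ρ).mul (meas_evX hw hf Q e' ρ)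
  | lf φ e, ρ => φ.meas.comp (meas_evX hw hf Q e ρ)
  | ce k n e, ρ => meas_cE hw (fun z => meas_evX hw hf Q e (cns z ρ)) (Q k) (ρ n)
  | me e, ρ => meas_gm hw fun z => meas_evX hw hf Q e (cns z ρ)

end ExM

/-! The law invariance for one environment -/

/-- The outside data, up to the shift of the displacement. -/
theorem dJ_shift {c l : ℕ} {u : ℤ} {S S' : Finset ℕ} (e : dJ c l u S = dJ c l u S') : dJ c l 0 S = dJ c l 0 S' := by
  unfold dJ at e ⊢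
  rw [Prod.mk.injEq] at e ⊢
  exact ⟨e.1, by linarith [e.2]⟩

/-- **THE LAW INVARIANCE UNDER THE FLIP, SEVERAL REPLICAS.** -/
theorem flip_closeM {c l : ℕ} {v : ℤ} {Q₁ Q₂ : Finset (Finset ℕ)} (η : Env) {N k : ℕ} (hk : k ≤ l) (hN : c + l ≤ N) (hv : |v| ≤ 1)
    (P : ℤ → Prop) [DecidablePred P] (e1 : Q₁ = fam N P) (e2 : Q₂ = fam N fun x => P (x + v))
    [Nonempty (Px Q₁)] [Nonempty (Px Q₂)] (w₁ : Px Q₁ → ℝ)
    {h₁ : ι → (ℕ → Px Q₁) → ℝ} {h₂ : ι → (ℕ → Px Q₂) → ℝ}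
    (hE : ∀ i ρ ρ', (∀ n, dJ c l 0 (ρ n).1 = dJ c l v (ρ' n).1) → h₁ i ρ = h₂ i ρ')
    (m1 : ∀ i ρ ρ', (∀ n, dJ c l 0 (ρ n).1 = dJ c l 0 (ρ' n).1) → h₁ i ρ = h₁ i ρ')
    (m2 : ∀ i ρ ρ', (∀ n, dJ c l 0 (ρ n).1 = dJ c l 0 (ρ' n).1) → h₂ i ρ = h₂ i ρ') {b : ι → ℝ} (hb : ∀ i, 0 ≤ b i)
    (b1 : ∀ i x, |h₁ i x| ≤ b i) (b2 : ∀ i x, |h₂ i x| ≤ b i)
    (C D : β → ℕ) (hC : ∀ i, C i ≤ c) (hD : ∀ i, c + l ≤ D i) (e : ExM ι β) (hs : ExM.Sc 1 e)
    (hp : 0 < ∑ S ∈ Q₁, pth μ s η N S * Rp μ s η c l k v S) :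
    |gm w₁ (fun x => ExM.evX w₁ h₁ (fun i => pJ (C i) (D i)) e fun _ => x) -
        gm (lw μ s (shj ((c + k : ℕ) : ℤ) v η) N Q₂)
          (fun x => ExM.evX (lw μ s (shj ((c + k : ℕ) : ℤ) v η) N Q₂) h₂ (fun i => pJ (C i) (D i)) e fun _ => x)| ≤
      (ExM.li b e + ExM.bd b e) *
        ((∑ S : Px Q₁, |Real.exp (w₁ S) / gz w₁ - pth μ s η N S.1 * Rp μ s η c l k v S.1 /
          ∑ S ∈ Q₁, pth μ s η N S * Rp μ s η c l k v S|) +
        2 * gm (lw μ s (shj ((c + k : ℕ) : ℤ) v η) N Q₂) (fun S => if Ok c l v S.1 then 0 else 1)) := by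
  have hQ₁ : Q₁ ⊆ Fr N := by
    rw [e1]
    exact filter_subset _ _
  have hQ₂ : Q₂ ⊆ Fr N := by
    rw [e2]
    exact filter_subset _ _
  have h0 : |(0 : ℤ)| ≤ 1 := by simp
  have ht := tv_flip (μ := μ) (s := s) η hk hN hv h0 P e1 e2 hQ₁ hQ₂ w₁ hp
  have hobs := ExM.flip_obs w₁ (lw μ s (shj ((c + k : ℕ) : ℤ) v η) N Q₂) (lab hQ₁ c l h0) (lab hQ₂ c l hv) (h₁ := h₁) (h₂ := h₂)
    (q₁ := fun i => pJ (C i) (D i)) (q₂ := fun i => pJ (C i) (D i)) (fun i o => oq (C i) (D i) o.1) hb b1 b2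
    (fun i ρ ρ' h => hE i ρ ρ' fun n => congrArg Subtype.val (h n))
    (fun i ρ ρ' h => m1 i ρ ρ' fun n => congrArg Subtype.val (h n))
    (fun i ρ ρ' h => m2 i ρ ρ' fun n => dJ_shift (congrArg Subtype.val (h n)))
    (fun i x y => part_pJ (hC i) (hD i) 0 x y) (fun i x y => part_pJ (hC i) (hD i) v x y) e hs
  refine hobs.trans ?_
  refine mul_le_mul_of_nonneg_left ht ?_
  exact add_nonneg (ExM.li_nonneg hb e) (ExM.bd_nonneg hb e)

/-! Covariant functions of several replicas -/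

/-- **Covariant functions** of several replicas: functions of the outside data of the window of the row `j`, with the same values at `ω`,
end `y`, and at `Tj ω`, end `y + a_j`. -/
structure CovM (N b j : ℕ) (F : (y : ℕ) → Env × Finset ℕ → (ℕ → Px (Pn N y)) → ℝ) (M : ℝ) : Prop where
  pos : 0 ≤ M
  bdd : ∀ y ω ρ, |F y ω ρ| ≤ M
  mes : ∀ y ρ, Measurable fun ω => F y ω ρ
  mp : ∀ y ω ρ ρ', (∀ n, dJ (j - b) (j + b - (j - b)) 0 (ρ n).1 = dJ (j - b) (j + b - (j - b)) 0 (ρ' n).1) → F y ω ρ = F y ω ρ'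
  eqv : ∀ y, 1 ≤ y → y < N → ∀ (ω : Env × Finset ℕ) (ρ : ℕ → Px (Pn N y)) (ρ' : ℕ → Px (Pn N (nb (sg ω.2 j) y))),
    (∀ n, dJ (j - b) (j + b - (j - b)) 0 (ρ n).1 = dJ (j - b) (j + b - (j - b)) (-sg ω.2 j) (ρ' n).1) →
      F y ω ρ = F (nb (sg ω.2 j) y) (Tj j ω) ρ'

/-- The mean of the expression `e` (which may depend on the signs) under the actual pinned measure. -/
def obM (μ : Measure ℝ) (s : ℝ) (N : ℕ) (C D : β → ℕ) (h : (y : ℕ) → Env × Finset ℕ → ι → (ℕ → Px (Pn N y)) → ℝ)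
    (e : Finset ℕ → ExM ι β) (y : ℕ) (ω : Env × Finset ℕ) : ℝ :=
  gm (lw μ s ω.1 N (Pn N y)) fun S => ExM.evX (lw μ s ω.1 N (Pn N y)) (h y ω) (fun i => pJ (C i) (D i)) (e ω.2) fun _ => S

/-- The mean of the expression under the clipped flip of the kick of the row `j`. -/
def obfM (μ : Measure ℝ) (s : ℝ) (N : ℕ) (δ B : ℝ) (b j : ℕ) (C D : β → ℕ) (h : (y : ℕ) → Env × Finset ℕ → ι → (ℕ → Px (Pn N y)) → ℝ)
    (e : Finset ℕ → ExM ι β) (y : ℕ) (ω : Env × Finset ℕ) : ℝ :=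
  gm (wt μ s ω.1 N (Pn N y) δ B b j (sg ω.2 j) (-(sg ω.2 j : ℝ)))
    fun S => ExM.evX (wt μ s ω.1 N (Pn N y) δ B b j (sg ω.2 j) (-(sg ω.2 j : ℝ))) (h y ω) (fun i => pJ (C i) (D i)) (e (flp j ω.2)) fun _ => S

section One

variable {h : (y : ℕ) → Env × Finset ℕ → ι → (ℕ → Px (Pn N y)) → ℝ} {bb : ι → ℝ}

theorem obM_bdd {b j : ℕ} (H : ∀ i, CovM N b j (fun y ω => h y ω i) (bb i)) (C D : β → ℕ) (e : Finset ℕ → ExM ι β) (y : ℕ)
    (ω : Env × Finset ℕ) : |obM μ s N C D h e y ω| ≤ ExM.bd bb (e ω.2) := by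
  have hp := fun i => (H i).pos
  by_cases hy : y ≤ N
  swap
  · unfold obM
    rw [gm_zero_empty hy, abs_zero]
    exact ExM.bd_nonneg hp _
  have n1 : Nonempty (Px (Pn N y)) := ne_Pn hy
  unfold obM
  exact Ex.gm_bdd _ fun S => ExM.evX_bdd _ _ hp (fun i ρ => (H i).bdd y ω ρ) _ _

theorem obfM_bdd {b j : ℕ} (H : ∀ i, CovM N b j (fun y ω => h y ω i) (bb i)) (δ B : ℝ) (C D : β → ℕ) (e : Finset ℕ → ExM ι β)
    (y : ℕ) (ω : Env × Finset ℕ) : |obfM μ s N δ B b j C D h e y ω| ≤ ExM.bd bb (e (flp j ω.2)) := by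
  have hp := fun i => (H i).pos
  by_cases hy : y ≤ N
  swap
  · unfold obfM
    rw [gm_zero_empty hy, abs_zero]
    exact ExM.bd_nonneg hp _
  have n1 : Nonempty (Px (Pn N y)) := ne_Pn hy
  unfold obfM
  exact Ex.gm_bdd _ fun S => ExM.evX_bdd _ _ hp (fun i ρ => (H i).bdd y ω ρ) _ _

variable [IsProbabilityMeasure μ]

/-- **ONE PINNED END.** -/
theorem one_endM {b j : ℕ} (hb : 0 < b) (hjN : j + b ≤ N) (H : ∀ i, CovM N b j (fun y ω => h y ω i) (bb i))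
    (C D : β → ℕ) (hC : ∀ i, C i ≤ j - b) (hD : ∀ i, j + b ≤ D i) (e : Finset ℕ → ExM ι β) (hs : ∀ A, ExM.Sc 1 (e A)) (δ B : ℝ)
    {y : ℕ} (hy : 1 ≤ y) (hyN : y < N) (ω : Env × Finset ℕ) {L : ℝ} (hL : ∀ A, ExM.li bb (e A) + 2 * ExM.bd bb (e A) ≤ L) :
    |obfM μ s N δ B b j C D h e y ω - obM μ s N C D h e (nb (sg ω.2 j) y) (Tj j ω)| ≤
      L * (clip μ s N δ B b j (sg ω.2 j) y ω.1 + 2 * nok μ s N (j - b) (j + b - (j - b)) (-sg ω.2 j) (nb (sg ω.2 j) y) (Tj j ω).1) := by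
  classical
  have n1 : Nonempty (Px (Pn N y)) := ne_Pn hyN.le
  have hnb : ((nb (sg ω.2 j) y : ℕ) : ℤ) = y + sg ω.2 j := by
    unfold nb
    rcases sg_or ω.2 j with h1 | h1 <;> rw [h1] <;> omega
  have hnbN : nb (sg ω.2 j) y ≤ N := by
    rcases sg_or ω.2 j with h1 | h1 <;> rw [h1] at hnb ⊢ <;> omega
  have n2 : Nonempty (Px (Pn N (nb (sg ω.2 j) y))) := ne_Pn hnbN
  have hp0 := fun i => (H i).pos
  set a := sg ω.2 j with ha
  set w₁ := wt μ s ω.1 N (Pn N y) δ B b j a (-(a : ℝ)) with hw₁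
  have hj : ((j - b + (j - (j - b)) : ℕ) : ℤ) = (j : ℤ) := by
    exact_mod_cast (show j - b + (j - (j - b)) = j by omega)
  have hη : (Tj j ω).1 = shj ((j - b + (j - (j - b)) : ℕ) : ℤ) (-a) ω.1 := by
    rw [hj]
    rfl
  have hA : (Tj j ω).2 = flp j ω.2 := rfl
  have hLe := hL (flp j ω.2)
  have hbd := ExM.bd_nonneg hp0 (e (flp j ω.2))
  have hli := ExM.li_nonneg hp0 (e (flp j ω.2))
  have hnok := nok_nonneg (μ := μ) (s := s) (N := N) (j - b) (j + b - (j - b)) (-a) (nb a y) (Tj j ω).1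
  have hclip := clip_nonneg (μ := μ) (s := s) (N := N) δ B b j a y ω.1
  have hL0 : 0 ≤ L := by linarith
  have hob : obM μ s N C D h e (nb a y) (Tj j ω) = gm (lw μ s (shj ((j - b + (j - (j - b)) : ℕ) : ℤ) (-a) ω.1) N (Pn N (nb a y)))
      (fun S => ExM.evX (lw μ s (shj ((j - b + (j - (j - b)) : ℕ) : ℤ) (-a) ω.1) N (Pn N (nb a y))) (h (nb a y) (Tj j ω))
        (fun i => pJ (C i) (D i)) (e (flp j ω.2)) fun _ => S) := by
    unfold obM
    rw [hA, hη]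
  by_cases hp : 0 < ∑ S ∈ Pn N y, pth μ s ω.1 N S * Rp μ s ω.1 (j - b) (j + b - (j - b)) (j - (j - b)) (-a) S
  · have hfc := flip_closeM (μ := μ) (s := s) (c := j - b) (l := j + b - (j - b)) (k := j - (j - b)) (v := -a) (Q₁ := Pn N y)
      (Q₂ := Pn N (nb a y)) ω.1 (by omega) (by omega) (sg_abs ω.2 j) (fun x => x = (y : ℤ)) (fam_eq N y).symm (by
        rw [← fam_eq N (nb a y)]
        unfold fam
        refine filter_congr fun S _ => ?_
        rw [hnb]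
        constructor <;> intro h1 <;> omega) w₁ (h₁ := h y ω) (h₂ := h (nb a y) (Tj j ω)) (fun i ρ ρ' hh => (H i).eqv y hy hyN ω ρ ρ' hh)
      (fun i ρ ρ' hh => (H i).mp y ω ρ ρ' hh) (fun i ρ ρ' hh => (H i).mp _ _ ρ ρ' hh) hp0 (fun i ρ => (H i).bdd y ω ρ)
      (fun i ρ => (H i).bdd _ _ ρ) C D hC (fun i => by rw [hcl]; exact hD i) (e (flp j ω.2)) (hs _) hp
    rw [hob]
    unfold obfM
    rw [← ha, ← hw₁]
    refine hfc.trans ?_
    have e1 : (∑ S : Px (Pn N y), |Real.exp (w₁ S) / gz w₁ - pth μ s ω.1 N S.1 * Rp μ s ω.1 (j - b) (j + b - (j - b)) (j - (j - b)) (-a) S.1 /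
          ∑ S ∈ Pn N y, pth μ s ω.1 N S * Rp μ s ω.1 (j - b) (j + b - (j - b)) (j - (j - b)) (-a) S|) +
        2 * gm (lw μ s (shj ((j - b + (j - (j - b)) : ℕ) : ℤ) (-a) ω.1) N (Pn N (nb a y)))
          (fun S => if Ok (j - b) (j + b - (j - b)) (-a) S.1 then 0 else 1) =
        clip μ s N δ B b j a y ω.1 + 2 * nok μ s N (j - b) (j + b - (j - b)) (-a) (nb a y) (Tj j ω).1 := by
      unfold clip nok
      rw [hη]
    rw [e1]
    refine mul_le_mul_of_nonneg_right ?_ (by positivity)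
    linarith
  · -- the degenerate case
    have h0 : ∑ S ∈ Pn N y, pth μ s ω.1 N S * Rp μ s ω.1 (j - b) (j + b - (j - b)) (j - (j - b)) (-a) S = 0 :=
      le_antisymm (not_lt.1 hp) (sum_nonneg fun S _ => mul_nonneg (pth_pos _ _ _).le (Rp_nonneg _ _ _ _ _ _))
    have hc1 : clip μ s N δ B b j a y ω.1 = 1 := by
      unfold clip
      rw [h0, ← hw₁]
      have e2 : ∀ S : Px (Pn N y), |Real.exp (w₁ S) / gz w₁ - pth μ s ω.1 N S.1 * Rp μ s ω.1 (j - b) (j + b - (j - b)) (j - (j - b)) (-a) S.1 / 0| =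
          Real.exp (w₁ S) / gz w₁ := fun S => by
        rw [div_zero, sub_zero]
        exact abs_of_nonneg (div_nonneg (Real.exp_pos _).le (gz_pos w₁).le)
      rw [sum_congr rfl fun S _ => e2 S, ← sum_div]
      exact div_self (gz_ne w₁)
    have h1 := obfM_bdd (μ := μ) (s := s) H δ B C D e y ω
    have h2 := obM_bdd (μ := μ) (s := s) H C D e (nb a y) (Tj j ω)
    rw [hA] at h2
    have h3 := abs_sub (obfM μ s N δ B b j C D h e y ω) (obM μ s N C D h e (nb a y) (Tj j ω))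
    rw [hc1]
    calc |obfM μ s N δ B b j C D h e y ω - obM μ s N C D h e (nb a y) (Tj j ω)|
        ≤ 2 * ExM.bd bb (e (flp j ω.2)) := by linarith
      _ ≤ L * 1 := by linarith
      _ ≤ _ := mul_le_mul_of_nonneg_left (by linarith) hL0

theorem meas_obM {b j : ℕ} (H : ∀ i, CovM N b j (fun y ω => h y ω i) (bb i)) (C D : β → ℕ) (e : Finset ℕ → ExM ι β) (y : ℕ) :
    Measurable (obM μ s N C D h e y) := by
  by_cases hy : y ≤ N
  swap
  · unfold obM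
    simp only [gm_zero_empty hy]
    exact measurable_const
  have n1 : Nonempty (Px (Pn N y)) := ne_Pn hy
  refine meas_om fun A => ?_
  have hA : Measurable fun η : Env => (η, A) := meas_pair A
  have hw : ∀ S : Px (Pn N y), Measurable fun η : Env => (lw μ s η N (Pn N y)) S := fun S => meas_lw S
  unfold obM
  exact meas_gm (w := fun η : Env => lw μ s η N (Pn N y)) hw fun S =>
    ExM.meas_evX (w := fun η : Env => lw μ s η N (Pn N y)) (f := fun η : Env => h y (η, A)) hw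
      (fun i ρ => ((H i).mes y ρ).comp hA) (fun i => pJ (C i) (D i)) (e A) fun _ => S

theorem meas_obfM {b j : ℕ} (H : ∀ i, CovM N b j (fun y ω => h y ω i) (bb i)) (δ B : ℝ) (C D : β → ℕ) (e : Finset ℕ → ExM ι β)
    (y : ℕ) : Measurable (obfM μ s N δ B b j C D h e y) := by
  by_cases hy : y ≤ N
  swap
  · unfold obfM
    simp only [gm_zero_empty hy]
    exact measurable_const
  have n1 : Nonempty (Px (Pn N y)) := ne_Pn hy
  refine meas_om fun A => ?_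
  have hA : Measurable fun η : Env => (η, A) := meas_pair A
  have hw : ∀ S : Px (Pn N y), Measurable fun η : Env => wt μ s η N (Pn N y) δ B b j (sg A j) (-(sg A j : ℝ)) S := fun S =>
    (meas_lw S).add ((meas_gj δ B b j (sg A j) S).const_mul _)
  unfold obfM
  exact meas_gm (w := fun η : Env => wt μ s η N (Pn N y) δ B b j (sg A j) (-(sg A j : ℝ))) hw fun S =>
    ExM.meas_evX (w := fun η : Env => wt μ s η N (Pn N y) δ B b j (sg A j) (-(sg A j : ℝ)))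
      (f := fun η : Env => h y (η, A)) hw (fun i ρ => ((H i).mes y ρ).comp hA) (fun i => pJ (C i) (D i)) (e (flp j A)) fun _ => S

end One

end

end Pool.Agent.W_7d29a1_C0.Flip61
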