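import Pool.Agent.W_7d29a1_C0.Exch65

/-!
MP_7d29a1_pr, [C0], G4 (helper65): THE SWAP CLASS OF A SET OF ROWS, KERNELS OF MEETINGS.

`AxP P w`: the swap of two paths between two common rows `t ≤ u` with `P t`, `P u` keeps the sum of `w`. This class contains the log
weights of every environment, the site fields `∑ φ i (ps S i)`, the functionals of windows whose open interior avoids `P`, and is closed
under sums and multiples. `NIP P i j`, `NMP P c al be d`: no meeting in a row of `P` in `[i, j]`, resp. on one of the two sides. `KOk c d K`: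
the kernel `K` looks at the rows `[c, d]` only. `NM = KR + KL` (`NM_KR_KL`): `KR` = no meeting on the right, `KL` = a meeting on the
right, none on the left. `swap_abs`: the abstract involution.
-/

set_option autoImplicit false
set_option linter.unusedSectionVars false

namespace Pool.Agent.W_7d29a1_C0.GS65

open Finset MeasureTheory Pool.Agent.W_7d29a1_F Pool.Agent.W_7d29a1_X Pool.Agent.W_7d29a1_C0.Mod92
open Pool.Agent.W_7d29a1_C0.Swap57 Pool.Agent.W_7d29a1_C0.E4T32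
open Pool.W7d29a1.C0 (gz gm lse gz_pos gz_ne gm_nonneg gm_mono)
open Pool.W7d29a1.C0.VT31
open Pool.W7d29a1.C0.I52

noncomputable section

/-! ### An involution of pairs, abstract -/

section Abs

variable {X : Type*} [Fintype X] [Nonempty X] {Y : Type*} [DecidableEq Y]

theorem cE2_sum (w : X → ℝ) (p : X → Y) (K : X → X → ℝ) (x x' : X) :
    cE2 w p K x x' = (∑ q : X × X, (if p q.1 = p x ∧ p q.2 = p x' then
      Real.exp (w q.1) * Real.exp (w q.2) * K q.1 q.2 else 0)) / (fz w p x * fz w p x') := by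
  have h1 : (∑ q : X × X, (if p q.1 = p x ∧ p q.2 = p x' then Real.exp (w q.1) * Real.exp (w q.2) * K q.1 q.2 else 0)) =
      ∑ S, ∑ S', (if p S = p x ∧ p S' = p x' then Real.exp (w S) * Real.exp (w S') * K S S' else 0) := by
    rw [← univ_product_univ, sum_product]
  rw [h1]
  unfold cE2 cE
  rw [eq_comm, mul_comm (fz w p x), ← div_div, sum_div]
  congr 1
  refine sum_congr rfl fun S _ => ?_
  by_cases h : p S = p x
  · rw [if_pos h, ← mul_div_assoc, mul_sum]
    congr 1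
    refine sum_congr rfl fun S' _ => ?_
    by_cases h' : p S' = p x'
    · rw [if_pos ⟨h, h'⟩, if_pos h']
      ring
    · rw [if_neg fun h2 => h' h2.2, if_neg h', mul_zero]
  · rw [if_neg h, div_eq_zero_iff]
    exact Or.inl (sum_eq_zero fun S' _ => if_neg fun h2 => h h2.1)

open Classical in
/-- **An antisymmetric functional has the mean zero**, replicas given two outsides. -/
theorem swap_abs (w : X → ℝ) (p : X → Y) (T : X → X → Prop) (σ : X → X → X) (hT : ∀ S S', T S S' → T (σ S S') (σ S' S))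
    (hs : ∀ S S', T S S' → T S' S) (hi : ∀ S S', T S S' → σ (σ S S') (σ S' S) = S)
    (hp : ∀ S S', T S S' → p (σ S S') = p S)
    (hw : ∀ S S', T S S' → w (σ S S') + w (σ S' S) = w S + w S') {F : X → X → ℝ}
    (hF : ∀ S S', T S S' → F (σ S S') (σ S' S) = -F S S') (x x' : X) :
    cE2 w p (fun S S' => if T S S' then F S S' else 0) x x' = 0 := by
  rw [cE2_sum]
  set τ : X × X → X × X := fun q => if T q.1 q.2 then (σ q.1 q.2, σ q.2 q.1) else q with hτ
  have key : ∀ q : X × X, τ (τ q) = q := by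
    intro q
    by_cases h : T q.1 q.2
    · have e1 : τ q = (σ q.1 q.2, σ q.2 q.1) := by rw [hτ]; exact if_pos h
      have h2 : T (τ q).1 (τ q).2 := by
        rw [e1]
        exact hT _ _ h
      have e2 : τ (τ q) = (σ (τ q).1 (τ q).2, σ (τ q).2 (τ q).1) := by
        rw [show τ (τ q) = if T (τ q).1 (τ q).2 then (σ (τ q).1 (τ q).2, σ (τ q).2 (τ q).1) else τ q from rfl, if_pos h2]
      rw [e2, e1]
      show (σ (σ q.1 q.2) (σ q.2 q.1), σ (σ q.2 q.1) (σ q.1 q.2)) = q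
      rw [hi _ _ h, hi _ _ (hs _ _ h)]
    · have e1 : τ q = q := by rw [hτ]; exact if_neg h
      rw [e1, e1]
  set Φ : X × X → ℝ := fun q => if p q.1 = p x ∧ p q.2 = p x' then
    Real.exp (w q.1) * Real.exp (w q.2) * (if T q.1 q.2 then F q.1 q.2 else 0) else 0 with hΦ
  have h1 : ∑ q : X × X, Φ q = ∑ q : X × X, -Φ q := by
    refine Fintype.sum_equiv (Function.Involutive.toPerm τ key) _ _ fun q => ?_
    show Φ q = -Φ (τ q)
    by_cases h : T q.1 q.2
    · have e1 : τ q = (σ q.1 q.2, σ q.2 q.1) := by rw [hτ]; exact if_pos h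
      have p1 : p (σ q.1 q.2) = p q.1 := hp _ _ h
      have p2 : p (σ q.2 q.1) = p q.2 := hp _ _ (hs _ _ h)
      rw [e1, hΦ]
      show (if p q.1 = p x ∧ p q.2 = p x' then Real.exp (w q.1) * Real.exp (w q.2) * (if T q.1 q.2 then F q.1 q.2 else 0) else 0) =
        -(if p (σ q.1 q.2) = p x ∧ p (σ q.2 q.1) = p x' then Real.exp (w (σ q.1 q.2)) * Real.exp (w (σ q.2 q.1)) *
        (if T (σ q.1 q.2) (σ q.2 q.1) then F (σ q.1 q.2) (σ q.2 q.1) else 0) else 0)
      rw [p1, p2, if_pos h, if_pos (hT _ _ h), hF _ _ h]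
      split_ifs
      · rw [← Real.exp_add, ← Real.exp_add, hw _ _ h]
        ring
      · rw [neg_zero]
    · have e1 : τ q = q := by rw [hτ]; exact if_neg h
      have e2 : Φ q = 0 := by
        rw [hΦ]
        show (if p q.1 = p x ∧ p q.2 = p x' then Real.exp (w q.1) * Real.exp (w q.2) * (if T q.1 q.2 then F q.1 q.2 else 0) else 0) = 0
        rw [if_neg h, mul_zero, ite_self]
      rw [e1, e2, neg_zero]
  rw [sum_neg_distrib] at h1
  have h2 : ∑ q : X × X, Φ q = 0 := by linarith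
  rw [h2, zero_div]

end Abs

/-! ### The swap class of a set of rows -/

variable {μ : Measure ℝ} {s : ℝ} {N : ℕ} {Q : Finset (Finset ℕ)} [SwQ Q] [Nonempty (Px Q)]

/-- The swap class: the exchange of the pieces between two common rows in `P` keeps the sum. -/
def AxP (P : ℕ → Prop) (w : Px Q → ℝ) : Prop := ∀ (S S' : Px Q) (t u : ℕ), P t → P u → t ≤ u → Eqp S S' t → Eqp S S' u →
  w (swP t u S S') + w (swP t u S' S) = w S + w S'

theorem AxP_lw (P : ℕ → Prop) (η : Env) : AxP (Q := Q) P (lw μ s η N Q) := fun _ _ _ _ _ _ h h1 h2 => lw_swP η h h1 h2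

omit [Nonempty (Px Q)] in
theorem AxP.mono {P P' : ℕ → Prop} (h : ∀ i, P' i → P i) {w : Px Q → ℝ} (hw : AxP P w) : AxP P' w :=
  fun S S' t u h1 h2 h3 h4 h5 => hw S S' t u (h _ h1) (h _ h2) h3 h4 h5

omit [Nonempty (Px Q)] in
theorem AxP.add {P : ℕ → Prop} {w w' : Px Q → ℝ} (h : AxP P w) (h' : AxP P w') : AxP P (w + w') :=
  fun S S' t u h1 h2 h3 h4 h5 => by
    have e1 := h S S' t u h1 h2 h3 h4 h5
    have e2 := h' S S' t u h1 h2 h3 h4 h5
    simp only [Pi.add_apply]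
    linarith

omit [Nonempty (Px Q)] in
theorem AxP.smul {P : ℕ → Prop} {w : Px Q → ℝ} (h : AxP P w) (r : ℝ) : AxP P (r • w) :=
  fun S S' t u h1 h2 h3 h4 h5 => by
    have e1 := h S S' t u h1 h2 h3 h4 h5
    simp only [Pi.smul_apply, smul_eq_mul]
    linear_combination r * e1

omit [Nonempty (Px Q)] in
theorem AxP.sum {P : ℕ → Prop} {ι : Type*} (I : Finset ι) {w : ι → Px Q → ℝ} (h : ∀ i ∈ I, AxP P (w i)) :
    AxP P (∑ i ∈ I, w i) := fun S S' t u h1 h2 h3 h4 h5 => by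
  simp only [Finset.sum_apply]
  rw [← sum_add_distrib, ← sum_add_distrib]
  exact sum_congr rfl fun i hi => h i hi S S' t u h1 h2 h3 h4 h5

/-- A functional of a window whose interior avoids the rows of `P`. -/
theorem Lk.AxP {P : ℕ → Prop} {a b : ℕ} {g : Px Q → ℝ} (hg : Lk a b g) (h : ∀ t, P t → t ≤ a ∨ b ≤ t) : AxP P g := by
  intro S S' t u h1 h2 h3 e1 e2
  have f1 := Eq.symm e1
  have f2 := Eq.symm e2
  rcases h t h1 with h4 | h4
  · rcases h u h2 with h5 | h5
    · rw [Lk.swP_out hg (Or.inr h5) h3 e1 e2, Lk.swP_out hg (Or.inr h5) h3 f1 f2]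
    · rw [Lk.swP_in hg h4 h5 h3 e1 e2, Lk.swP_in hg h4 h5 h3 f1 f2, add_comm]
  · rw [Lk.swP_out hg (Or.inl h4) h3 e1 e2, Lk.swP_out hg (Or.inl h4) h3 f1 f2]

/-- A functional of one row. -/
theorem AxP_site (P : ℕ → Prop) (φ : ℤ → ℝ) (i : ℕ) : AxP P fun S : Px Q => φ (ps S i) := by
  intro S S' t u _ _ h3 e1 e2
  rcases ps_swP h3 e1 e2 i with ⟨h4, h5, _⟩ | ⟨h4, h5, _⟩
  · show φ (ps (swP t u S S') i) + φ (ps (swP t u S' S) i) = _
    rw [h4, h5]
  · show φ (ps (swP t u S S') i) + φ (ps (swP t u S' S) i) = _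
    rw [h4, h5, add_comm]

/-- **Site fields.** -/
theorem AxP_field (P : ℕ → Prop) (I : Finset ℕ) (φ : ℕ → ℤ → ℝ) : AxP P fun S : Px Q => ∑ i ∈ I, φ i (ps S i) := by
  have h := AxP.sum (P := P) I (w := fun i (S : Px Q) => φ i (ps S i)) fun i _ => AxP_site P (φ i) i
  have e : (∑ i ∈ I, (fun i (S : Px Q) => φ i (ps S i)) i) = fun S : Px Q => ∑ i ∈ I, φ i (ps S i) := by
    funext S
    rw [Finset.sum_apply]
  rw [e] at h
  exact h

/-- Functionals of the outside of a block which contains the rows of `P`. -/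
theorem Mp.AxP {P : ℕ → Prop} {c d : ℕ} {g : Px Q → ℝ} (hg : Mp (pJ c d) g) (h : ∀ t, P t → c ≤ t ∧ t ≤ d) : AxP P g := by
  intro S S' t u h1 h2 h3 e1 e2
  rw [hg _ _ (pJ_swP (h t h1).1 h3 (h u h2).2 e1 e2), hg _ _ (pJ_swP (h t h1).1 h3 (h u h2).2 (Eq.symm e1) (Eq.symm e2))]

/-- The classes of `Swap57`. -/
theorem AxP.Wk {P : ℕ → Prop} {c al be d : ℕ} (hab : al ≤ be) (hP : ∀ t, (c ≤ t ∧ t ≤ al) ∨ (be ≤ t ∧ t ≤ d) → P t)
    {w : Px Q → ℝ} (hw : AxP P w) : Swap57.Wk c al be d w := by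
  intro S S' h
  have a1 := tF_spec h
  have a2 := uF_spec h
  have e := hw S S' (tF c S S') (uF d S S') (hP _ (Or.inl ⟨a1.1, a1.2.1⟩)) (hP _ (Or.inr ⟨a2.1, a2.2.1⟩)) (sw_times hab h)
    a1.2.2 a2.2.2
  unfold sw
  rw [tF_symm c S S', uF_symm d S S']
  exact e

/-- The Markov class: the two ends of a block. -/
theorem AxP.Wk_end {P : ℕ → Prop} {c d : ℕ} (hcd : c ≤ d) (hc : P c) (hd : P d) {w : Px Q → ℝ} (hw : AxP P w) : Swap57.Wk c c d d w :=
  AxP.Wk hcd (fun t h => by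
    rcases h with ⟨h1, h2⟩ | ⟨h1, h2⟩
    · rw [show t = c by omega]
      exact hc
    · rw [show t = d by omega]
      exact hd) hw

/-! ### No meeting in the rows of `P` -/

open Classical in
/-- No common position in the rows of `P` in `[i, j]`. -/
def NIP (P : ℕ → Prop) (i j : ℕ) (S S' : Px Q) : ℝ := if ∃ k, i ≤ k ∧ k ≤ j ∧ P k ∧ Eqp S S' k then 0 else 1

/-- The two paths meet in rows of `P` in `[c, al]` and in `[be, d]`. -/
def MtP (P : ℕ → Prop) (c al be d : ℕ) (S S' : Px Q) : Prop :=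
  (∃ i, c ≤ i ∧ i ≤ al ∧ P i ∧ Eqp S S' i) ∧ ∃ i, be ≤ i ∧ i ≤ d ∧ P i ∧ Eqp S S' i

open Classical in
/-- No meeting in the rows of `P` on one side at least. -/
def NMP (P : ℕ → Prop) (c al be d : ℕ) (S S' : Px Q) : ℝ := if MtP P c al be d S S' then 0 else 1

section NoMeet

omit [SwQ Q] [Nonempty (Px Q)]

variable {P : ℕ → Prop} {c al be d : ℕ}

theorem NIP_symm (i j : ℕ) (S S' : Px Q) : NIP P i j S S' = NIP P i j S' S := by
  unfold NIP
  rw [Eqp_symm]

theorem MtP_symm (S S' : Px Q) : MtP P c al be d S' S = MtP P c al be d S S' := by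
  unfold MtP
  rw [Eqp_symm]

theorem NMP_symm (S S' : Px Q) : NMP P c al be d S S' = NMP P c al be d S' S := by
  unfold NMP
  rw [MtP_symm]

theorem NIP_nonneg (i j : ℕ) (S S' : Px Q) : 0 ≤ NIP P i j S S' := by
  unfold NIP
  split_ifs <;> norm_num

theorem NIP_le_one (i j : ℕ) (S S' : Px Q) : NIP P i j S S' ≤ 1 := by
  unfold NIP
  split_ifs <;> norm_num

theorem NMP_nonneg (S S' : Px Q) : 0 ≤ NMP P c al be d S S' := by
  unfold NMP
  split_ifs <;> norm_num

theorem NMP_le_one (S S' : Px Q) : NMP P c al be d S S' ≤ 1 := by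
  unfold NMP
  split_ifs <;> norm_num

/-- `NIP` is smaller than the indicator of a piece with rows of `P` only. -/
theorem NIP_le_NI {i j i' j' : ℕ} (h : i ≤ i') (h' : j' ≤ j) (hP : ∀ t, i' ≤ t → t ≤ j' → P t) (S S' : Px Q) :
    NIP P i j S S' ≤ NI i' j' S S' := by
  unfold NIP NI
  by_cases h1 : ∀ k, i' ≤ k → k ≤ j' → ps S k ≠ ps S' k
  · rw [if_pos h1]
    split_ifs <;> norm_num
  · rw [if_neg h1, if_pos]
    push Not at h1
    obtain ⟨k, h2, h3, h4⟩ := h1
    exact ⟨k, h.trans h2, h3.trans h', hP k h2 h3, h4⟩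

theorem NI_le_NIP (i j : ℕ) (S S' : Px Q) : NI i j S S' ≤ NIP P i j S S' := by
  unfold NIP NI
  by_cases h1 : ∃ k, i ≤ k ∧ k ≤ j ∧ P k ∧ Eqp S S' k
  · obtain ⟨k, h2, h3, _, h4⟩ := h1
    rw [if_neg fun h5 => h5 k h2 h3 h4]
    split_ifs <;> norm_num
  · rw [if_neg h1]
    split_ifs <;> norm_num

theorem NIP_eq {i j : ℕ} (hP : ∀ t, i ≤ t → t ≤ j → P t) (S S' : Px Q) : NIP P i j S S' = NI i j S S' :=
  le_antisymm (NIP_le_NI le_rfl le_rfl hP S S') (NI_le_NIP i j S S')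

/-- **The split**: no meeting on the right, or a meeting on the right and none on the left. -/
theorem NMP_split (S S' : Px Q) :
    NMP P c al be d S S' = NIP P be d S S' + (1 - NIP P be d S S') * NIP P c al S S' := by
  unfold NMP MtP NIP
  by_cases h1 : ∃ k, be ≤ k ∧ k ≤ d ∧ P k ∧ Eqp S S' k
  · by_cases h2 : ∃ k, c ≤ k ∧ k ≤ al ∧ P k ∧ Eqp S S' k
    · rw [if_pos ⟨h2, h1⟩, if_pos h1, if_pos h2]
      ring
    · rw [if_neg fun h3 => h2 h3.1, if_pos h1, if_neg h2]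
      ring
  · rw [if_neg fun h3 => h1 h3.2, if_neg h1]
    ring

theorem NMP_le (S S' : Px Q) : NMP P c al be d S S' ≤ NIP P c al S S' + NIP P be d S S' := by
  rw [NMP_split]
  have h1 := NIP_nonneg (P := P) c al S S'
  have h2 := NIP_nonneg (P := P) be d S S'
  nlinarith [mul_nonneg h1 h2]

theorem NMP_eq (hP : ∀ t, (c ≤ t ∧ t ≤ al) ∨ (be ≤ t ∧ t ≤ d) → P t) (S S' : Px Q) :
    NMP P c al be d S S' = NM c al be d S S' := by
  have e : MtP P c al be d S S' = Swap57.Mt c al be d S S' := by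
    unfold MtP Swap57.Mt
    refine propext ⟨fun h => ⟨?_, ?_⟩, fun h => ⟨?_, ?_⟩⟩
    · obtain ⟨⟨i, h1, h2, _, h3⟩, _⟩ := h
      exact ⟨i, h1, h2, h3⟩
    · obtain ⟨_, i, h1, h2, _, h3⟩ := h
      exact ⟨i, h1, h2, h3⟩
    · obtain ⟨⟨i, h1, h2, h3⟩, _⟩ := h
      exact ⟨i, h1, h2, hP i (Or.inl ⟨h1, h2⟩), h3⟩
    · obtain ⟨_, i, h1, h2, h3⟩ := h
      exact ⟨i, h1, h2, hP i (Or.inr ⟨h1, h2⟩), h3⟩
  unfold NMP NM
  rw [e]

theorem NM_split (S S' : Px Q) :
    NM c al be d S S' = NI be d S S' + (1 - NI be d S S') * NI c al S S' := by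
  have h := NMP_split (P := fun _ => True) (c := c) (al := al) (be := be) (d := d) S S'
  rw [NMP_eq (fun _ _ => trivial), NIP_eq (fun _ _ _ => trivial), NIP_eq (fun _ _ _ => trivial)] at h
  exact h

/-- The kernels look at the rows of the block only. -/
theorem NIP_Lk {i j c' d' : ℕ} (h1 : c' ≤ i) (h2 : j ≤ d') (y : Px Q) : Lk c' d' fun x : Px Q => NIP P i j x y := by
  intro S T h
  have e : (∃ k, i ≤ k ∧ k ≤ j ∧ P k ∧ Eqp S y k) = ∃ k, i ≤ k ∧ k ≤ j ∧ P k ∧ Eqp T y k := by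
    unfold Eqp
    refine congrArg Exists (funext fun k => propext ⟨fun h6 => ⟨h6.1, h6.2.1, h6.2.2.1, ?_⟩, fun h6 => ⟨h6.1, h6.2.1, h6.2.2.1, ?_⟩⟩)
    · rw [← h k (by omega) (by omega)]
      exact h6.2.2.2
    · rw [h k (by omega) (by omega)]
      exact h6.2.2.2
  show NIP P i j S y = NIP P i j T y
  unfold NIP
  rw [e]

theorem NIP_Mp {i j c' d' : ℕ} (h : j ≤ c' ∨ d' ≤ i) (y : Px Q) : Mp (pJ c' d') fun x : Px Q => NIP P i j x y :=
  Lk_Mp h (NIP_Lk le_rfl le_rfl y)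

end NoMeet

/-- A kernel which looks at the rows `[c, d]` of both paths. -/
structure KOk (c d : ℕ) (K : Px Q → Px Q → ℝ) : Prop where
  l1 : ∀ y, Lk c d fun x => K x y
  l2 : ∀ x, Lk c d fun y => K x y

section KOk

omit [SwQ Q] [Nonempty (Px Q)]

variable {P : ℕ → Prop} {c al be d : ℕ}

theorem KOk.mul {c d : ℕ} {K K' : Px Q → Px Q → ℝ} (h : KOk c d K) (h' : KOk c d K') : KOk c d fun x y => K x y * K' x y :=
  ⟨fun y => Lk_mul (h.l1 y) (h'.l1 y), fun x => Lk_mul (h.l2 x) (h'.l2 x)⟩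

theorem KOk.one_sub {c d : ℕ} {K : Px Q → Px Q → ℝ} (h : KOk c d K) : KOk c d fun x y => 1 - K x y :=
  ⟨fun y S S' e => by
    have := h.l1 y S S' e
    show 1 - K S y = 1 - K S' y
    rw [show K S y = K S' y from this], fun x S S' e => by
    have := h.l2 x S S' e
    show 1 - K x S = 1 - K x S'
    rw [show K x S = K x S' from this]⟩

theorem KOk_NIP {i j c' d' : ℕ} (h1 : c' ≤ i) (h2 : j ≤ d') : KOk (Q := Q) c' d' (NIP P i j) :=
  ⟨fun y => NIP_Lk h1 h2 y, fun x => by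
    have h := NIP_Lk (P := P) h1 h2 x
    have e : (fun y : Px Q => NIP P i j y x) = fun y => NIP P i j x y := by
      funext y
      exact NIP_symm i j y x
    rw [e] at h
    exact h⟩

theorem KOk_NI {i j c' d' : ℕ} (h1 : c' ≤ i) (h2 : j ≤ d') : KOk (Q := Q) c' d' (NI i j) := by
  have h := KOk_NIP (Q := Q) (P := fun _ => True) h1 h2
  have e : (NIP (Q := Q) (fun _ => True) i j) = NI i j := by
    funext S S'
    exact NIP_eq (fun _ _ _ => trivial) S S'
  rw [e] at h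
  exact h

theorem KOk_NMP {c' d' : ℕ} (h1 : c' ≤ c) (h2 : al ≤ d') (h3 : c' ≤ be) (h4 : d ≤ d') : KOk (Q := Q) c' d' (NMP P c al be d) := by
  have e : NMP (Q := Q) P c al be d = fun S S' => 1 - (1 - NIP P be d S S') * (1 - NIP P c al S S') := by
    funext S S'
    rw [NMP_split]
    ring
  rw [e]
  exact ((KOk_NIP h3 h4).one_sub.mul (KOk_NIP h1 h2).one_sub).one_sub

end KOk

/-- The class `R`: no meeting on the right of the window. -/
def KR (be d : ℕ) : Px Q → Px Q → ℝ := NI be d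

/-- The class `L \ R`: a meeting on the right of the window, none on the left. -/
def KL (c al be d : ℕ) (S S' : Px Q) : ℝ := (1 - NI be d S S') * NI c al S S'

section Classes

omit [SwQ Q] [Nonempty (Px Q)]

variable {c al be d : ℕ}

theorem NM_KR_KL : NM (Q := Q) c al be d = KR be d + KL c al be d := by
  funext S S'
  exact NM_split S S'

theorem NI_le_one' (i j : ℕ) (S S' : Px Q) : NI i j S S' ≤ 1 := by
  unfold NI
  split_ifs <;> norm_num

theorem KL_nonneg (S S' : Px Q) : 0 ≤ KL c al be d S S' :=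
  mul_nonneg (by linarith [NI_le_one' be d S S']) (NI_nonneg _ _ _ _)

theorem KL_le (S S' : Px Q) : KL c al be d S S' ≤ NI c al S S' := by
  unfold KL
  have h1 := NI_nonneg c al S S'
  have h2 := NI_nonneg be d S S'
  nlinarith [mul_nonneg h1 h2]

theorem KR_nonneg (S S' : Px Q) : 0 ≤ KR be d S S' := NI_nonneg _ _ _ _

theorem NI_symm' (i j : ℕ) (S S' : Px Q) : NI i j S S' = NI i j S' S := by
  have h := NIP_symm (P := fun _ => True) i j S S'
  rwa [NIP_eq (fun _ _ _ => trivial), NIP_eq (fun _ _ _ => trivial)] at h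

theorem KR_symm (S S' : Px Q) : KR be d S S' = KR be d S' S := NI_symm' _ _ _ _

theorem KL_symm (S S' : Px Q) : KL c al be d S S' = KL c al be d S' S := by
  unfold KL
  rw [NI_symm' be d S S', NI_symm' c al S S']

theorem KOk_KR {c' d' : ℕ} (h3 : c' ≤ be) (h4 : d ≤ d') : KOk (Q := Q) c' d' (KR be d) := KOk_NI h3 h4

theorem KOk_KL {c' d' : ℕ} (h1 : c' ≤ c) (h2 : al ≤ d') (h3 : c' ≤ be) (h4 : d ≤ d') : KOk (Q := Q) c' d' (KL c al be d) :=
  (KOk_NI h3 h4).one_sub.mul (KOk_NI h1 h2)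

end Classes

end

end Pool.Agent.W_7d29a1_C0.GS65
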