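import Pool.Agent.W_7d29a1_C0.Rob43
import Pool.Agent.W_7d29a1_C0.Two57

/-!
MP_7d29a1_pr, [CURV0] / [C0]: THE ROBUST STEP IN THE MODEL `Mod92` (helper43), over `Rob43` and helper57's `Two57`.

`mI w p i j S` is the conditional mass, given `p S`, of the paths which do not meet `S` in `[i, j]`; `cE2 w p (NI i j) S S` the mass of
the pairs of replicas given `p S` which do not meet in `[i, j]`. `Tau`: this mass is at least `exp (- 5 M)`; `Rp`: in some piece `n` of
the `3 q` pieces behind `τ` the mass `mI` is more than `exp (- 7 M)`. `tau_rp`: the paths with `Tau` and without `Rp` have Gibbs mass at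
most `exp (- M)`; `prod_ind`: so in every product of indicators `Tau` can be replaced by `Rp`, all on ONE path; `rp_nt`: Markov,
`Rp` without the near tie `NT n` costs `exp (7 M)` times the mass of the pairs without meeting and without near tie.
`cE_tilt`, `cE2_tilt`, `gm_tilt43`: a change of the log weights by at most `D`; `cE2_tau`: at EVERY log weight at distance at most `D`,
the mass of the non meeting pairs is at most `1 [Tau] + exp (4 D - 5 M)`, `Tau` at the original weight.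
`SwP`: the conditions `p` (`pJ c d`, everything behind a row) which do not see exchanges of pieces.
-/

set_option autoImplicit false
set_option linter.unusedSectionVars false

namespace Pool.W7d29a1.C0.R43

open Finset MeasureTheory Pool.Agent.W_7d29a1_F Pool.Agent.W_7d29a1_X Pool.Agent.W_7d29a1_C0.Mod92
open Pool.Agent.W_7d29a1_C0.Swap57
open Pool.W7d29a1.C0 (gz gm lse gz_pos gz_ne gm_nonneg gm_mono gm_const)
open Pool.W7d29a1.C0.VT31

noncomputable section

/-! ### Bounded changes of the weights -/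

section Tilt

variable {X : Type*} [Fintype X] [Nonempty X] {Y : Type*} [DecidableEq Y]

theorem cE_tilt {w A : X → ℝ} {D : ℝ} (hA : ∀ x, |A x| ≤ D) (p : X → Y) {f : X → ℝ} (hf : ∀ x, 0 ≤ f x) (x : X) :
    cE (w + A) p f x ≤ Real.exp (2 * D) * cE w p f x := by
  have h1 : (∑ x', if p x' = p x then Real.exp ((w + A) x') * f x' else 0) ≤
      Real.exp D * ∑ x', if p x' = p x then Real.exp (w x') * f x' else 0 := by
    rw [mul_sum]
    refine sum_le_sum fun x' _ => ?_
    split_ifs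
    · rw [Pi.add_apply, Real.exp_add]
      have : Real.exp (A x') ≤ Real.exp D := Real.exp_le_exp.2 (abs_le.1 (hA x')).2
      have h0 : 0 ≤ Real.exp (w x') * f x' := mul_nonneg (Real.exp_pos _).le (hf x')
      calc Real.exp (w x') * Real.exp (A x') * f x' = Real.exp (A x') * (Real.exp (w x') * f x') := by ring
        _ ≤ _ := mul_le_mul_of_nonneg_right this h0
    · rw [mul_zero]
  have h2 : Real.exp (-D) * fz w p x ≤ fz (w + A) p x := by
    unfold fz
    rw [mul_sum]
    refine sum_le_sum fun x' _ => ?_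
    split_ifs
    · rw [Pi.add_apply, Real.exp_add, mul_comm]
      exact mul_le_mul_of_nonneg_left (Real.exp_le_exp.2 (abs_le.1 (hA x')).1) (Real.exp_pos _).le
    · rw [mul_zero]
  have h3 := fz_pos w p x
  have h4 := fz_pos (w + A) p x
  unfold cE
  rw [div_le_iff₀ h4]
  have h5 : 0 ≤ ∑ x', if p x' = p x then Real.exp (w x') * f x' else 0 := by
    refine sum_nonneg fun x' _ => ?_
    split_ifs
    · exact mul_nonneg (Real.exp_pos _).le (hf x')
    · exact le_rfl
  have h6 : Real.exp (2 * D) * Real.exp (-D) = Real.exp D := by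
    rw [← Real.exp_add]
    congr 1
    ring
  calc _ ≤ Real.exp D * ∑ x', (if p x' = p x then Real.exp (w x') * f x' else 0) := h1
    _ = (Real.exp (2 * D) * ((∑ x', if p x' = p x then Real.exp (w x') * f x' else 0) / fz w p x)) *
        (Real.exp (-D) * fz w p x) := by
      rw [← h6]
      field_simp
    _ ≤ _ := mul_le_mul_of_nonneg_left h2 (mul_nonneg (Real.exp_pos _).le (div_nonneg h5 h3.le))

theorem cE2_tilt {w A : X → ℝ} {D : ℝ} (hA : ∀ x, |A x| ≤ D) (p : X → Y) {K : X → X → ℝ} (hK : ∀ z z', 0 ≤ K z z') (x x' : X) :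
    cE2 (w + A) p K x x' ≤ Real.exp (4 * D) * cE2 w p K x x' := by
  unfold cE2
  have h1 := cE_tilt (w := w) hA p (f := fun z => cE (w + A) p (K z) x') (fun z => cE_nonneg _ _ (hK z) _) x
  refine h1.trans ?_
  have h2 : cE w p (fun z => cE (w + A) p (K z) x') x ≤ cE w p (fun z => Real.exp (2 * D) * cE w p (K z) x') x :=
    cE_mono w p (fun z => cE_tilt hA p (hK z) x') x
  have h3 : cE w p (fun z => Real.exp (2 * D) * cE w p (K z) x') x = Real.exp (2 * D) * cE w p (fun z => cE w p (K z) x') x := by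
    have := congrFun (cE_smul w p (Real.exp (2 * D)) fun z => cE w p (K z) x') x
    exact this
  have h4 : Real.exp (4 * D) = Real.exp (2 * D) * Real.exp (2 * D) := by
    rw [← Real.exp_add]
    congr 1
    ring
  calc _ ≤ Real.exp (2 * D) * (Real.exp (2 * D) * cE w p (fun z => cE w p (K z) x') x) :=
        mul_le_mul_of_nonneg_left (h2.trans_eq h3) (Real.exp_pos _).le
    _ = _ := by rw [h4, mul_assoc]

theorem gm_tilt43 {w A : X → ℝ} {D : ℝ} (hA : ∀ x, |A x| ≤ D) {f : X → ℝ} (hf : ∀ x, 0 ≤ f x) :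
    gm (w + A) f ≤ Real.exp (2 * D) * gm w f := by
  obtain ⟨x⟩ := (inferInstance : Nonempty X)
  have h := cE_tilt hA (fun _ : X => ()) hf x (w := w)
  rwa [gm_eq_cE, gm_eq_cE] at h

/-- Products of indicators: `T i` can be replaced by `R i` if the Gibbs mass of `T i` without `R i` is small. -/
theorem prod_ind {ι : Type*} (w : X → ℝ) (I : Finset ι) (T R : ι → X → Prop) (e : ι → ℝ) {F : X → ℝ} (hF0 : ∀ x, 0 ≤ F x)
    (hF1 : ∀ x, F x ≤ 1) [∀ i x, Decidable (T i x)] [∀ i x, Decidable (R i x)]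
    (h : ∀ i ∈ I, gm w (fun x => if T i x ∧ ¬ R i x then 1 else 0) ≤ e i) :
    gm w (fun x => F x * ∏ i ∈ I, (if T i x then 1 else 0)) ≤
      gm w (fun x => F x * ∏ i ∈ I, (if R i x then 1 else 0)) + ∑ i ∈ I, e i := by
  classical
  have h1 : ∀ x, F x * ∏ i ∈ I, (if T i x then (1 : ℝ) else 0) ≤
      (fun x => F x * ∏ i ∈ I, (if R i x then (1 : ℝ) else 0)) x + (∑ i ∈ I, fun x => (if T i x ∧ ¬ R i x then (1 : ℝ) else 0)) x := by
    intro x
    rw [Finset.sum_apply]
    have h0 : 0 ≤ ∏ i ∈ I, (if R i x then (1 : ℝ) else 0) := prod_nonneg fun i _ => by split_ifs <;> norm_num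
    have hs : 0 ≤ ∑ i ∈ I, (if T i x ∧ ¬ R i x then (1 : ℝ) else 0) := sum_nonneg fun i _ => by split_ifs <;> norm_num
    by_cases hT : ∀ i ∈ I, T i x
    · by_cases hR : ∀ i ∈ I, R i x
      · have e1 : ∏ i ∈ I, (if T i x then (1 : ℝ) else 0) = 1 := prod_eq_one fun i hi => if_pos (hT i hi)
        have e2 : ∏ i ∈ I, (if R i x then (1 : ℝ) else 0) = 1 := prod_eq_one fun i hi => if_pos (hR i hi)
        simp only [e1, e2]
        linarith
      · push Not at hR
        obtain ⟨i, hi, hRi⟩ := hR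
        have e1 : ∏ i ∈ I, (if T i x then (1 : ℝ) else 0) = 1 := prod_eq_one fun i hi => if_pos (hT i hi)
        have e2 : (1 : ℝ) ≤ ∑ i ∈ I, (if T i x ∧ ¬ R i x then (1 : ℝ) else 0) := by
          have := single_le_sum (f := fun i => (if T i x ∧ ¬ R i x then (1 : ℝ) else 0)) (fun i _ => by
            show (0 : ℝ) ≤ if T i x ∧ ¬ R i x then (1 : ℝ) else 0
            split_ifs <;> norm_num) hi
          have e3 : (if T i x ∧ ¬ R i x then (1 : ℝ) else 0) = 1 := if_pos ⟨hT i hi, hRi⟩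
          rw [e3] at this
          exact this
        rw [e1]
        have := mul_nonneg (hF0 x) h0
        have := hF1 x
        simp only
        linarith
    · push Not at hT
      obtain ⟨i, hi, hTi⟩ := hT
      have e1 : ∏ i ∈ I, (if T i x then (1 : ℝ) else 0) = 0 := prod_eq_zero hi (if_neg hTi)
      rw [e1, mul_zero]
      have := mul_nonneg (hF0 x) h0
      simp only
      linarith
  refine (gm_mono w h1).trans ?_
  have e2 : gm w (fun x => (fun x => F x * ∏ i ∈ I, (if R i x then (1 : ℝ) else 0)) x +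
      (∑ i ∈ I, fun x => (if T i x ∧ ¬ R i x then (1 : ℝ) else 0)) x) =
      gm w (fun x => F x * ∏ i ∈ I, (if R i x then (1 : ℝ) else 0)) + gm w (∑ i ∈ I, fun x => (if T i x ∧ ¬ R i x then (1 : ℝ) else 0)) :=
    Pool.W7d29a1.C0.gm_add w _ _
  rw [e2]
  refine add_le_add le_rfl ?_
  have e3 : ∀ J : Finset ι, gm w (∑ i ∈ J, fun x => (if T i x ∧ ¬ R i x then (1 : ℝ) else 0)) =
      ∑ i ∈ J, gm w (fun x => (if T i x ∧ ¬ R i x then (1 : ℝ) else 0)) := by
    intro J
    induction J using Finset.induction_on with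
    | empty =>
      rw [sum_empty, sum_empty]
      exact gm_const w 0
    | insert i J hi ih => rw [sum_insert hi, sum_insert hi, Pool.W7d29a1.C0.gm_add, ih]
  rw [e3]
  exact sum_le_sum h

end Tilt

/-! ### The fibres of a condition -/

/-- A family of paths which is closed under the exchange of any set of pieces. -/
class MxQ (Q : Finset (Finset ℕ)) : Prop where
  mem : ∀ I : Finset ℕ, ∀ S ∈ Q, ∀ T ∈ Q, Bd I S T → mx I S T ∈ Q

instance (N : ℕ) : MxQ (Fr N) := ⟨fun I S hS T hT _ => by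
  rw [mem_powerset] at hS hT ⊢
  exact mx_sub hS hT⟩

instance (N y : ℕ) : MxQ (Pn N y) := ⟨fun I S hS T hT h => by
  rw [mem_powersetCard] at hS hT ⊢
  refine ⟨mx_sub hS.1 hT.1, ?_⟩
  have h1 := pos_mx_or h N
  have e1 : pos (mx I S T) N = (mx I S T).card := pos_card (mx_sub hS.1 hT.1)
  have e2 : pos S N = y := by rw [pos_card hS.1, hS.2]
  have e3 : pos T N = y := by rw [pos_card hT.1, hT.2]
  rw [e1, e2, e3] at h1
  rcases h1 with ⟨h2, -⟩ | ⟨h2, -⟩ <;> exact_mod_cast h2⟩

variable {μ : Measure ℝ} {s : ℝ} {N : ℕ} {Q : Finset (Finset ℕ)}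

/-- The condition `p` does not see exchanges of pieces between two paths with the same `p`. -/
def SwP {Y : Type*} (p : Px Q → Y) : Prop :=
  ∀ (I : Finset ℕ) (S T U : Px Q), p S = p T → Bd I S.1 T.1 → U.1 = mx I S.1 T.1 → p U = p S

theorem mx_sdiff {I S T J : Finset ℕ} (h : S \ J = T \ J) : mx I S T \ J = S \ J := by
  ext t
  rw [mem_sdiff, mem_mx, mem_sdiff]
  have h1 : t ∉ J → (t ∈ S ↔ t ∈ T) := fun h2 => by
    have := congrArg (fun V => t ∈ V) h
    simp only [mem_sdiff, h2, not_false_eq_true, and_true, eq_iff_iff] at this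
    exact this
  constructor
  · rintro ⟨h2, h3⟩
    refine ⟨?_, h3⟩
    split_ifs at h2 with h4
    · exact (h1 h3).2 h2
    · exact h2
  · rintro ⟨h2, h3⟩
    refine ⟨?_, h3⟩
    split_ifs with h4
    · exact (h1 h3).1 h2
    · exact h2

theorem card_Ico_pos (S : Finset ℕ) {c d : ℕ} (h : c ≤ d) : ((S ∩ Ico c d).card : ℤ) = pos S d - pos S c := by
  have := pos_split S h
  linarith

theorem swP_pJ {c d : ℕ} (hcd : c ≤ d) : SwP (Q := Q) (pJ c d) := by
  intro I S T U h hb hU
  have h1 : S.1 \ Ico c d = T.1 \ Ico c d := congrArg Prod.fst h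
  have hc : pos S.1 c = pos T.1 c := ps_of_le h le_rfl
  have hd : pos S.1 d = pos T.1 d := ps_of_ge h le_rfl
  unfold pJ
  rw [hU, mx_sdiff h1]
  congr 1
  have e1 := card_Ico_pos (mx I S.1 T.1) hcd
  have e2 := card_Ico_pos S.1 hcd
  have e3 : pos (mx I S.1 T.1) c = pos S.1 c := by
    rcases pos_mx_or hb c with ⟨h2, -⟩ | ⟨h2, -⟩
    · exact h2
    · rw [h2, hc]
  have e4 : pos (mx I S.1 T.1) d = pos S.1 d := by
    rcases pos_mx_or hb d with ⟨h2, -⟩ | ⟨h2, -⟩
    · exact h2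
    · rw [h2, hd]
  rw [e3, e4, ← e2] at e1
  exact_mod_cast e1

theorem swP_const : SwP (Q := Q) fun _ : Px Q => () := fun _ _ _ _ _ _ _ => rfl

/-- Everything behind the row `z`. -/
theorem swP_beh (z : ℕ) : SwP (Q := Q) fun S : Px Q => (ps S z, S.1 \ range z) := by
  intro I S T U h hb hU
  have h1 : ps S z = ps T z := congrArg Prod.fst h
  have h2 : S.1 \ range z = T.1 \ range z := congrArg Prod.snd h
  refine Prod.ext ?_ ?_
  · show pos U.1 z = pos S.1 z
    rw [hU]
    rcases pos_mx_or hb z with ⟨h3, -⟩ | ⟨h3, -⟩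
    · exact h3
    · rw [h3]
      exact h1.symm
  · show U.1 \ range z = S.1 \ range z
    rw [hU]
    exact mx_sdiff h2

section Fib

variable {Y : Type*} [DecidableEq Y] [Nonempty (Px Q)]

open Classical in
/-- The paths with the same `p` as `S₀`. -/
def fbQ (p : Px Q → Y) (S₀ : Px Q) : Finset (Finset ℕ) := (univ.filter fun T : Px Q => p T = p S₀).image Subtype.val

open Classical in
/-- Their conditional weights. -/
def fbw (w : Px Q → ℝ) (p : Px Q → Y) (S₀ : Px Q) (T : Finset ℕ) : ℝ := if h : T ∈ Q then Real.exp (w ⟨T, h⟩) / fz w p S₀ else 0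

theorem mem_fbQ {p : Px Q → Y} {S₀ : Px Q} {T : Finset ℕ} : T ∈ fbQ p S₀ ↔ ∃ h : T ∈ Q, p ⟨T, h⟩ = p S₀ := by
  classical
  unfold fbQ
  rw [mem_image]
  constructor
  · rintro ⟨U, hU, rfl⟩
    rw [mem_filter] at hU
    exact ⟨U.2, hU.2⟩
  · rintro ⟨h, h1⟩
    exact ⟨⟨T, h⟩, mem_filter.2 ⟨mem_univ _, h1⟩, rfl⟩

theorem sum_fbQ (w : Px Q → ℝ) (p : Px Q → Y) (S₀ : Px Q) (f : Finset ℕ → ℝ) :
    ∑ T ∈ fbQ p S₀, fbw w p S₀ T * f T = cE w p (fun T => f T.1) S₀ := by
  classical
  unfold fbQ cE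
  rw [sum_image fun _ _ _ _ h => Subtype.ext h, sum_filter, sum_div]
  refine sum_congr rfl fun T _ => ?_
  split_ifs with h
  · unfold fbw
    rw [dif_pos T.2]
    ring
  · rw [zero_div]

theorem swF_fb [MxQ Q] (η : Env) {p : Px Q → Y} (hp : SwP p) (S₀ : Px Q) :
    SwF (fbQ p S₀) (fbw (lw μ s η N Q) p S₀) where
  nn S _ := by
    unfold fbw
    split_ifs
    · exact div_nonneg (Real.exp_pos _).le (fz_pos _ _ _).le
    · exact le_rfl
  mem I S hS T hT hb := by
    rw [mem_fbQ] at hS hT ⊢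
    obtain ⟨hS1, hS2⟩ := hS
    obtain ⟨hT1, hT2⟩ := hT
    have h1 := MxQ.mem I S hS1 T hT1 hb
    exact ⟨h1, (hp I ⟨S, hS1⟩ ⟨T, hT1⟩ ⟨_, h1⟩ (hS2.trans hT2.symm) hb rfl).trans hS2⟩
  mul I S hS T hT hb := by
    rw [mem_fbQ] at hS hT
    obtain ⟨hS1, hS2⟩ := hS
    obtain ⟨hT1, hT2⟩ := hT
    have h1 := MxQ.mem I S hS1 T hT1 hb
    have h2 := MxQ.mem I T hT1 S hS1 hb.symm
    unfold fbw
    rw [dif_pos h1, dif_pos h2, dif_pos hS1, dif_pos hT1, div_mul_div_comm, div_mul_div_comm, exp_lw, exp_lw, exp_lw, exp_lw,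
      pth_mx η N hb]
  tot := by
    have h := sum_fbQ (lw μ s η N Q) p S₀ fun _ => 1
    simp only [mul_one] at h
    rw [h]
    exact le_of_eq (congrFun (cE_one _ _) S₀)

open Classical in
theorem nm_NI (i j : ℕ) (S : Px Q) : (fun T : Px Q => if Nm i j S.1 T.1 then (1 : ℝ) else 0) = NI i j S := by
  funext T
  unfold NI
  exact if_congr Iff.rfl rfl rfl

/-- The conditional mass, given `p S`, of the paths which do not meet `S` in `[i, j]`. -/
def mI (w : Px Q → ℝ) (p : Px Q → Y) (i j : ℕ) (S : Px Q) : ℝ := cE w p (NI i j S) S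

theorem mI_nonneg (w : Px Q → ℝ) (p : Px Q → Y) (i j : ℕ) (S : Px Q) : 0 ≤ mI w p i j S :=
  cE_nonneg _ _ (fun _ => NI_nonneg _ _ _ _) _

theorem cE2_mI (w : Px Q → ℝ) (p : Px Q → Y) (i j : ℕ) (S : Px Q) : cE2 w p (NI i j) S S = cE w p (mI w p i j) S := by
  classical
  unfold cE2 cE
  congr 1
  refine sum_congr rfl fun z _ => ?_
  split_ifs with h
  · congr 1
    exact cE_meas w p (NI i j z) _ _ h.symm
  · rfl

theorem mn_fb (w : Px Q → ℝ) (p : Px Q → Y) (S₀ S : Px Q) (hS : p S = p S₀) (τ l n : ℕ) :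
    mn (fbQ p S₀) (fbw w p S₀) τ l n S.1 = mI w p (st τ l n) (st τ l n + l) S := by
  classical
  unfold mn mI
  rw [cE_meas w p _ _ _ hS]
  have h := sum_fbQ w p S₀ fun T => if Nm (st τ l n) (st τ l n + l) S.1 T then 1 else 0
  calc _ = ∑ T ∈ fbQ p S₀, fbw w p S₀ T * (if Nm (st τ l n) (st τ l n + l) S.1 T then 1 else 0) := by
        refine sum_congr rfl fun T _ => ?_
        split_ifs
        · rw [mul_one]
        · rw [mul_zero]
    _ = _ := by rw [h, nm_NI]

theorem pN_fb (w : Px Q → ℝ) (p : Px Q → Y) (S₀ : Px Q) (i j : ℕ) :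
    pN (fbQ p S₀) (fbw w p S₀) i j = cE2 w p (NI i j) S₀ S₀ := by
  classical
  unfold pN cE2
  have h : ∀ S : Px Q, ∑ T ∈ fbQ p S₀, (if Nm i j S.1 T then fbw w p S₀ S.1 * fbw w p S₀ T else 0) =
      fbw w p S₀ S.1 * cE w p (NI i j S) S₀ := by
    intro S
    have h1 := sum_fbQ w p S₀ fun T => if Nm i j S.1 T then 1 else 0
    have h2 : cE w p (fun T : Px Q => if Nm i j S.1 T.1 then (1 : ℝ) else 0) S₀ = cE w p (NI i j S) S₀ := by rw [nm_NI]
    rw [← h2, ← h1, mul_sum]
    refine sum_congr rfl fun T _ => ?_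
    split_ifs
    · ring
    · ring
  have h3 := sum_fbQ w p S₀ fun S => if hS : S ∈ Q then cE w p (NI i j ⟨S, hS⟩) S₀ else 0
  have h4 : cE w p (fun T : Px Q => if hS : T.1 ∈ Q then cE w p (NI i j ⟨T.1, hS⟩) S₀ else 0) S₀ =
      cE w p (fun z => cE w p (NI i j z) S₀) S₀ := by
    congr 1
    funext T
    rw [dif_pos T.2]
  rw [← h4, ← h3]
  refine sum_congr rfl fun S hS => ?_
  obtain ⟨hS1, -⟩ := mem_fbQ.1 hS
  rw [dif_pos hS1]
  exact h ⟨S, hS1⟩

open Classical in
/-- The paths without an alternative in the pieces. -/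
def bI (w : Px Q → ℝ) (p : Px Q → Y) (τ l q : ℕ) (d : ℝ) (S : Px Q) : ℝ :=
  if ∀ n < 3 * q, mI w p (st τ l n) (st τ l n + l) S ≤ d then 1 else 0

theorem gB_fb (w : Px Q → ℝ) (p : Px Q → Y) (S₀ : Px Q) (τ l q : ℕ) (d : ℝ) :
    gB (fbQ p S₀) (fbw w p S₀) τ l q d = cE w p (bI w p τ l q d) S₀ := by
  classical
  unfold gB
  have h := sum_fbQ w p S₀ fun S => if ∀ n < 3 * q, mn (fbQ p S₀) (fbw w p S₀) τ l n S ≤ d then 1 else 0
  have h1 : cE w p (fun T : Px Q => if ∀ n < 3 * q, mn (fbQ p S₀) (fbw w p S₀) τ l n T.1 ≤ d then (1 : ℝ) else 0) S₀ =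
      cE w p (bI w p τ l q d) S₀ := by
    unfold cE
    congr 1
    refine sum_congr rfl fun T _ => ?_
    by_cases hT : p T = p S₀
    · rw [if_pos hT, if_pos hT]
      congr 1
      unfold bI
      simp only [mn_fb w p S₀ T hT]
    · rw [if_neg hT, if_neg hT]
  rw [← h1, ← h]
  refine sum_congr rfl fun S _ => ?_
  split_ifs
  · rw [mul_one]
  · rw [mul_zero]

/-- **THE ROBUST STEP IN THE MODEL**, for every environment and every condition. -/
theorem robP [MxQ Q] (η : Env) {p : Px Q → Y} (hp : SwP p) (S₀ : Px Q) (τ l q : ℕ) {d : ℝ} (hd : 0 ≤ d) {L : ℕ}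
    (hL : τ + 3 * q * (l + 1) ≤ L) :
    cE (lw μ s η N Q) p (bI (lw μ s η N Q) p τ l q d) S₀ * cE2 (lw μ s η N Q) p (NI τ L) S₀ S₀ ≤ (1 / 2) ^ q + 3 * q * d := by
  have h := rob (swF_fb (μ := μ) (s := s) (N := N) η hp S₀) τ l q hd hL
  rwa [gB_fb, pN_fb] at h

/-- The near tie indicator seen at all tilts: the non meeting pairs have mass at least `exp (- 5 M)`. -/
def Tau (w : Px Q → ℝ) (p : Px Q → Y) (i j : ℕ) (M : ℝ) (S : Px Q) : Prop := Real.exp (-(5 * M)) ≤ cE2 w p (NI i j) S S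

/-- The path has an alternative of mass more than `exp (- 7 M)` in one of the pieces. -/
def Rp (w : Px Q → ℝ) (p : Px Q → Y) (τ l q : ℕ) (M : ℝ) (S : Px Q) : Prop :=
  ∃ n < 3 * q, Real.exp (-(7 * M)) < mI w p (st τ l n) (st τ l n + l) S

theorem rob_tauP [MxQ Q] (η : Env) {p : Px Q → Y} (hp : SwP p) (S₀ : Px Q) (τ l q : ℕ) {M : ℝ} (hM : 8 ≤ M) (hq : 10 * M ≤ q)
    (hq' : (q : ℝ) ≤ 20 * M) {L : ℕ} (hL : τ + 3 * q * (l + 1) ≤ L) (h : Tau (lw μ s η N Q) p τ L M S₀) :
    cE (lw μ s η N Q) p (bI (lw μ s η N Q) p τ l q (Real.exp (-(7 * M)))) S₀ ≤ Real.exp (-M) := by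
  have h1 := rob_tau (swF_fb (μ := μ) (s := s) (N := N) η hp S₀) τ l q hM hq hq' hL (by rw [pN_fb]; exact h)
  rwa [gB_fb] at h1

theorem tau_meas (w : Px Q → ℝ) (p : Px Q → Y) (i j : ℕ) (M : ℝ) {S S' : Px Q} (h : p S = p S') :
    Tau w p i j M S ↔ Tau w p i j M S' := by
  unfold Tau
  rw [cE2_mI, cE2_mI, cE_meas w p _ _ _ h]

open Classical in
/-- **The paths with `Tau` and without `Rp` have mass at most `exp (- M)`.** -/
theorem tau_rp [MxQ Q] (η : Env) {p : Px Q → Y} (hp : SwP p) (τ l q : ℕ) {M : ℝ} (hM : 8 ≤ M) (hq : 10 * M ≤ q)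
    (hq' : (q : ℝ) ≤ 20 * M) {L : ℕ} (hL : τ + 3 * q * (l + 1) ≤ L) :
    gm (lw μ s η N Q) (fun S => if Tau (lw μ s η N Q) p τ L M S ∧ ¬ Rp (lw μ s η N Q) p τ l q M S then 1 else 0) ≤
      Real.exp (-M) := by
  set w := lw μ s η N Q with hw
  have e1 : (fun S => if Tau w p τ L M S ∧ ¬ Rp w p τ l q M S then (1 : ℝ) else 0) =
      (fun S => if Tau w p τ L M S then (1 : ℝ) else 0) * bI w p τ l q (Real.exp (-(7 * M))) := by
    funext S
    rw [Pi.mul_apply]
    unfold bI Rp
    by_cases h1 : Tau w p τ L M S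
    · by_cases h2 : ∀ n < 3 * q, mI w p (st τ l n) (st τ l n + l) S ≤ Real.exp (-(7 * M))
      · rw [if_pos h1, if_pos h2, if_pos ⟨h1, by push Not; exact h2⟩, mul_one]
      · rw [if_neg h2, if_neg, mul_zero]
        rintro ⟨-, h3⟩
        push Not at h3
        exact h2 h3
    · rw [if_neg h1, if_neg fun h3 => h1 h3.1, zero_mul]
  have hmp : Mp p (fun S => if Tau w p τ L M S then (1 : ℝ) else 0) := fun S S' h => by
    simp only [tau_meas w p τ L M h]
  rw [e1, ← gm_mul_cE w hmp]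
  refine (gm_mono w (g := fun _ => Real.exp (-M)) fun S => ?_).trans (gm_const w _).le
  rw [Pi.mul_apply]
  split_ifs with h1
  · rw [one_mul]
    exact rob_tauP η hp S τ l q hM hq hq' hL h1
  · rw [zero_mul]
    exact (Real.exp_pos _).le

/-- **At every log weight at distance at most `D`.** -/
theorem cE2_tau {w A : Px Q → ℝ} {D : ℝ} (hA : ∀ x, |A x| ≤ D) (p : Px Q → Y) (i j : ℕ) (M : ℝ) (S : Px Q)
    [Decidable (Tau w p i j M S)] :
    cE2 (w + A) p (NI i j) S S ≤ (if Tau w p i j M S then 1 else 0) + Real.exp (4 * D - 5 * M) := by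
  have h1 : ∀ z z' : Px Q, NI i j z z' ≤ 1 := fun z z' => by
    unfold NI
    split_ifs <;> norm_num
  split_ifs with h
  · have := cE2_le_one (w + A) p h1 S S
    have := (Real.exp_pos (4 * D - 5 * M)).le
    linarith
  · unfold Tau at h
    rw [not_le] at h
    have h2 := cE2_tilt hA p (K := NI i j) (fun z z' => NI_nonneg i j z z') S S (w := w)
    have h3 : Real.exp (4 * D - 5 * M) = Real.exp (4 * D) * Real.exp (-(5 * M)) := by
      rw [← Real.exp_add]
      congr 1
    rw [zero_add, h3]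
    exact h2.trans (mul_le_mul_of_nonneg_left h.le (Real.exp_pos _).le)

open Classical in
/-- **Markov**: `Rp` without the near ties `NT n` of the path. -/
theorem rp_nt (w : Px Q → ℝ) (p : Px Q → Y) (τ l q : ℕ) (M : ℝ) (NT : ℕ → Px Q → Prop) :
    gm w (fun S => if Rp w p τ l q M S ∧ ∀ n < 3 * q, ¬ NT n S then 1 else 0) ≤
      ∑ n ∈ range (3 * q), Real.exp (7 * M) *
        gm w (fun S => cE w p (fun T => NI (st τ l n) (st τ l n + l) S T * (if NT n S then 0 else 1)) S) := by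
  have h1 : ∀ S : Px Q, (if Rp w p τ l q M S ∧ ∀ n < 3 * q, ¬ NT n S then (1 : ℝ) else 0) ≤
      (∑ n ∈ range (3 * q), Real.exp (7 * M) • fun S : Px Q =>
        cE w p (fun T => NI (st τ l n) (st τ l n + l) S T * (if NT n S then 0 else 1)) S) S := by
    intro S
    rw [Finset.sum_apply]
    have h0 : ∀ n, 0 ≤ (Real.exp (7 * M) • fun S : Px Q =>
        cE w p (fun T => NI (st τ l n) (st τ l n + l) S T * (if NT n S then 0 else 1)) S) S := fun n => by
      rw [Pi.smul_apply, smul_eq_mul]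
      refine mul_nonneg (Real.exp_pos _).le (cE_nonneg _ _ (fun T => mul_nonneg (NI_nonneg _ _ _ _) ?_) _)
      split_ifs <;> norm_num
    split_ifs with h
    · obtain ⟨⟨n, hn, h2⟩, h3⟩ := h
      have h4 := single_le_sum (f := fun n => (Real.exp (7 * M) • fun S : Px Q =>
        cE w p (fun T => NI (st τ l n) (st τ l n + l) S T * (if NT n S then 0 else 1)) S) S) (fun n _ => h0 n) (mem_range.2 hn)
      refine le_trans ?_ h4
      show (1 : ℝ) ≤ Real.exp (7 * M) * cE w p (fun T => NI (st τ l n) (st τ l n + l) S T * (if NT n S then 0 else 1)) S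
      have h5 : (fun T => NI (st τ l n) (st τ l n + l) S T * (if NT n S then (0 : ℝ) else 1)) = NI (st τ l n) (st τ l n + l) S := by
        funext T
        rw [if_neg (h3 n hn), mul_one]
      rw [h5]
      have h6 : Real.exp (7 * M) * Real.exp (-(7 * M)) = 1 := by
        rw [← Real.exp_add, add_neg_cancel, Real.exp_zero]
      rw [← h6]
      exact mul_le_mul_of_nonneg_left h2.le (Real.exp_pos _).le
    · exact sum_nonneg fun n _ => h0 n
  refine (gm_mono w h1).trans (le_of_eq ?_)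
  have e3 : ∀ J : Finset ℕ, gm w (∑ n ∈ J, Real.exp (7 * M) • fun S : Px Q =>
        cE w p (fun T => NI (st τ l n) (st τ l n + l) S T * (if NT n S then 0 else 1)) S) =
      ∑ n ∈ J, Real.exp (7 * M) * gm w (fun S : Px Q =>
        cE w p (fun T => NI (st τ l n) (st τ l n + l) S T * (if NT n S then 0 else 1)) S) := by
    intro J
    induction J using Finset.induction_on with
    | empty =>
      rw [sum_empty, sum_empty]
      exact gm_const w 0
    | insert i J hi ih => rw [sum_insert hi, sum_insert hi, Pool.W7d29a1.C0.gm_add, ih, Pool.W7d29a1.C0.gm_smul]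
  exact e3 _

end Fib

end

end Pool.W7d29a1.C0.R43
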