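import Pool.Agent.W_7d29a1_C0.FlipW61
import Pool.Agent.W_7d29a1_C0.Bd73
import Pool.Agent.W_7d29a1_C0.Join41
import Pool.Agent.W_7d29a1_C0.Rob43B
import Pool.Agent.W_7d29a1_C0.GSQ65

/-!
CURV0 (MP_7d29a1_pr), GS IN ONE KICK, THE LAW FORM (helper61): the three kinds of bad places of `RBs` under the flipped kick `wj` are bounded
by the same places (half the level) under the actual weight `wm`: `law_T` (the transfer functional `TT`), `law_I` (a mass of no meeting in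
an interval outside of the open window), `law_E` (`E3`), `law_O` (any mass of one kernel). `rep_G`: the factor `own mass * mass of k`.
-/

set_option autoImplicit false
set_option linter.unusedSectionVars false
set_option linter.unusedVariables false

namespace Pool.Agent.W_7d29a1_C0.Flip61

open Pool.Agent.W_7d29a1_F hiding W_pos W_nonneg W_add
open Finset MeasureTheory Pool.Agent.W_7d29a1_X Pool.Agent.W_7d29a1_HZ
open Pool.Agent.W_7d29a1_Z74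
open Pool.Agent.W_7d29a1_HZ.Z74
open Pool.Agent.W_7d29a1_C0.Mod92
open Pool.Agent.W_7d29a1_C0.Blk18
open Pool.Agent.W_7d29a1_C0.Pin18
open Pool.W7d29a1.C0 (gz gm gz_pos gz_ne gm_const gm_mono gm_nonneg gm_sub)
open Pool.W7d29a1.C0.VT31 (Mp Crs cE cV cC gc gv cE_nonneg cE_mono)
open Pool.Agent.W_7d29a1_C0.Swap57 (cE2 NI NI_nonneg Eqp)
open Pool.Agent.W_7d29a1_C0.GS65 (KR KL NMP MtP)
open Pool.W7d29a1.C0.Bd73 (TT)
open Pool.W7d29a1.C0.R43 (mI)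
open Pool.W7d29a1.C0.H41 (E3)

noncomputable section

variable {μ : Measure ℝ} {s : ℝ} {N b j : ℕ}

/-! ### The kernels -/

/-- A kernel which is a function of the meetings outside of the open window, and of the end. -/
theorem cov_Mo (φ : (ℕ → Prop) → ℝ) {M : ℝ} (h0 : 0 ≤ M) (hφ : ∀ x, |φ x| ≤ M) (n n' : ℕ) :
    CovM N b j (fun _ _ ρ => φ (Mo b j (ρ n) (ρ n'))) M :=
  ((scov_Mo n n').map φ).covM h0 (fun _ _ _ => hφ _) fun _ _ => measurable_const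

open Classical in
theorem NI_Mo {i k : ℕ} (h : k ≤ j - b ∨ j + b ≤ i) {Q : Finset (Finset ℕ)} (S S' : Px Q) :
    NI i k S S' = (fun P : ℕ → Prop => if ∀ t, i ≤ t → t ≤ k → ¬P t then (1 : ℝ) else 0) (Mo b j S S') := by
  have e : (∀ t, i ≤ t → t ≤ k → ps S t ≠ ps S' t) ↔ ∀ t, i ≤ t → t ≤ k → ¬Mo b j S S' t := by
    constructor
    · intro h1 t h2 h3 h4
      exact h1 t h2 h3 h4.2
    · intro h1 t h2 h3 h4
      exact h1 t h2 h3 ⟨by omega, h4⟩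
  unfold NI
  by_cases h1 : ∀ t, i ≤ t → t ≤ k → ps S t ≠ ps S' t
  · rw [if_pos h1]
    exact (if_pos (e.1 h1)).symm
  · rw [if_neg h1]
    exact (if_neg fun h2 => h1 (e.2 h2)).symm

/-- The no meeting kernel of an interval outside of the open window. -/
theorem cov_NI {i k : ℕ} (h : k ≤ j - b ∨ j + b ≤ i) (n n' : ℕ) : CovM N b j (fun _ _ ρ => NI i k (ρ n) (ρ n')) 1 := by
  classical
  have h1 := cov_Mo (N := N) (b := b) (j := j) (fun P : ℕ → Prop => if ∀ t, i ≤ t → t ≤ k → ¬P t then (1 : ℝ) else 0) zero_le_one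
    (fun x => by split_ifs <;> simp) n n'
  simp only [← NI_Mo h] at h1
  exact h1

open Classical in
theorem NMP_Mo {P : ℕ → Prop} (hP : ∀ t, P t → t ≤ j - b ∨ j + b ≤ t) (c al be d : ℕ) {Q : Finset (Finset ℕ)} (S S' : Px Q) :
    NMP P c al be d S S' = (fun R : ℕ → Prop =>
      if (∃ i, c ≤ i ∧ i ≤ al ∧ P i ∧ R i) ∧ ∃ i, be ≤ i ∧ i ≤ d ∧ P i ∧ R i then (0 : ℝ) else 1) (Mo b j S S') := by
  have e : MtP P c al be d S S' ↔ (∃ i, c ≤ i ∧ i ≤ al ∧ P i ∧ Mo b j S S' i) ∧ ∃ i, be ≤ i ∧ i ≤ d ∧ P i ∧ Mo b j S S' i := by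
    have e1 : ∀ i, P i → (Eqp S S' i ↔ Mo b j S S' i) := fun i hi => ⟨fun h => ⟨hP i hi, h⟩, fun h => h.2⟩
    constructor
    · rintro ⟨⟨i, h1, h2, h3, h4⟩, i', k1, k2, k3, k4⟩
      exact ⟨⟨i, h1, h2, h3, (e1 i h3).1 h4⟩, i', k1, k2, k3, (e1 i' k3).1 k4⟩
    · rintro ⟨⟨i, h1, h2, h3, h4⟩, i', k1, k2, k3, k4⟩
      exact ⟨⟨i, h1, h2, h3, (e1 i h3).2 h4⟩, i', k1, k2, k3, (e1 i' k3).2 k4⟩
  unfold NMP
  by_cases h1 : MtP P c al be d S S'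
  · rw [if_pos h1]
    exact (if_pos (e.1 h1)).symm
  · rw [if_neg h1]
    exact (if_neg fun h2 => h1 (e.2 h2)).symm

/-- The kernel of the missing meetings in rows outside of the open window. -/
theorem cov_NMP {P : ℕ → Prop} (hP : ∀ t, P t → t ≤ j - b ∨ j + b ≤ t) (c al be d : ℕ) (n n' : ℕ) :
    CovM N b j (fun _ _ ρ => NMP P c al be d (ρ n) (ρ n')) 1 := by
  classical
  have h1 := cov_Mo (N := N) (b := b) (j := j) (fun R : ℕ → Prop =>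
      if (∃ i, c ≤ i ∧ i ≤ al ∧ P i ∧ R i) ∧ ∃ i, be ≤ i ∧ i ≤ d ∧ P i ∧ R i then (0 : ℝ) else 1) zero_le_one
    (fun x => by split_ifs <;> simp) n n'
  simp only [← NMP_Mo hP] at h1
  exact h1

theorem cov_KR {be d : ℕ} (h : j + b ≤ be) (n n' : ℕ) : CovM N b j (fun _ _ ρ => KR be d (ρ n) (ρ n')) 1 := cov_NI (Or.inr h) n n'

theorem cov_KL {c al be d : ℕ} (h1 : al ≤ j - b) (h2 : j + b ≤ be) (n n' : ℕ) :
    CovM N b j (fun _ _ ρ => KL c al be d (ρ n) (ρ n')) 1 := by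
  have h := (cov_NI (N := N) (b := b) (j := j) (i := be) (k := d) (Or.inr h2) n n').scov.map₂
    (fun x x' : ℝ => (1 - x) * x') (cov_NI (N := N) (b := b) (j := j) (i := c) (k := al) (Or.inl h1) n n').scov
  refine h.covM zero_le_one (fun y ω ρ => ?_) fun _ _ => measurable_const
  have e : ∀ (i k : ℕ) (S S' : Px (Pn N y)), NI i k S S' = 0 ∨ NI i k S S' = 1 := fun i k S S' => by
    unfold NI
    split_ifs
    · exact Or.inr rfl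
    · exact Or.inl rfl
  rcases e be d (ρ n) (ρ n') with h3 | h3 <;> rcases e c al (ρ n) (ρ n') with h4 | h4 <;> rw [h3, h4] <;> norm_num

/-- The difference of the responses of the flipped row. -/
theorem cov_dgg {b₀ : ℕ} (hb₀ : b₀ ≤ b) (δ : ℝ) {B : ℝ} (hB : 0 ≤ B) :
    CovM N b₀ j (fun y ω ρ => |gg μ s (Pn N y) δ B b ω j (ρ 0) - gg μ s (Pn N y) δ B b ω j (ρ 1)|) B := by
  have h0 := cov_gj' (μ := μ) (s := s) (N := N) (j := j) hb₀ δ hB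
  have h := ((CovM.of1 h0 0).sub (CovM.of1 h0 1)).abs
  rw [add_halves] at h
  exact h

/-! ### The factor -/

/-- **The factor** `own mass of a kernel * mass of a pair kernel of the row k`. -/
theorem rep_G {δ B : ℝ} {cls NMA : (y : ℕ) → Px (Pn N y) → Px (Pn N y) → ℝ}
    (h1 : CovM N b j (fun y _ ρ => cls y (ρ 0) (ρ 1)) 1) (h2 : CovM N b j (fun y _ ρ => NMA y (ρ 0) (ρ 1)) 1)
    {c' d' ck dk : ℕ} (hc : c' ≤ j - b) (hd : j + b ≤ d') (hk : ck ≤ dk) (hkN : dk ≤ N)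
    (hW : (ck ≤ j - b ∧ j + b ≤ dk) ∨ dk ≤ j - b ∨ j + b ≤ ck) :
    Rep μ s N δ B b j 1 (fun y _ w ρ => cE w (pJ c' d') (cls y (ρ 0)) (ρ 0) * cE2 w (pJ ck dk) (NMA y) (ρ 0) (ρ 0)) 1 6 := by
  have r1 : Rep μ s N δ B b j 1 (fun y _ w ρ => cE w (pJ c' d') (cls y (ρ 0)) (ρ 0)) 1 (2 * 1) :=
    Rep.mass (K := fun y _ => cls y) h1 hc hd zero_lt_one
  have r2 : Rep μ s N δ B b j 1 (fun y _ w ρ => cE2 w (pJ ck dk) (NMA y) (ρ 0) (ρ 0)) 1 (4 * 1) :=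
    Rep.cE2' (K := fun y _ => NMA y) h2 hk hkN hW zero_lt_one zero_lt_one
  exact (r1.mul r2).mono (by norm_num) (by norm_num)

/-- The factor without the row `k`. -/
theorem rep_G1 {δ B : ℝ} {cls : (y : ℕ) → Px (Pn N y) → Px (Pn N y) → ℝ}
    (h1 : CovM N b j (fun y _ ρ => cls y (ρ 0) (ρ 1)) 1) {c' d' : ℕ} (hc : c' ≤ j - b) (hd : j + b ≤ d') :
    Rep μ s N δ B b j 1 (fun y _ w ρ => cE w (pJ c' d') (cls y (ρ 0)) (ρ 0)) 1 6 :=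
  (Rep.mass (K := fun y _ => cls y) h1 hc hd zero_lt_one).mono le_rfl (by norm_num)

/-- The factor of the row `k` alone. -/
theorem rep_F {δ B : ℝ} {NMA : (y : ℕ) → Px (Pn N y) → Px (Pn N y) → ℝ}
    (h2 : CovM N b j (fun y _ ρ => NMA y (ρ 0) (ρ 1)) 1) {ck dk : ℕ} (hk : ck ≤ dk) (hkN : dk ≤ N)
    (hW : (ck ≤ j - b ∧ j + b ≤ dk) ∨ dk ≤ j - b ∨ j + b ≤ ck) :
    Rep μ s N δ B b j 1 (fun y _ w ρ => cE2 w (pJ ck dk) (NMA y) (ρ 0) (ρ 0)) 1 6 :=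
  (Rep.cE2' (K := fun y _ => NMA y) h2 hk hkN hW zero_lt_one zero_lt_one).mono le_rfl (by norm_num)

/-- No factor. -/
theorem rep_one {δ B : ℝ} : Rep μ s N δ B b j 1 (fun _ _ _ _ => 1) 1 6 :=
  (Rep.cst 1).mono (by norm_num) (by norm_num)

/-! ### The law forms -/

section Law

variable [IsProbabilityMeasure μ] {δ B : ℝ} {y₀ m : ℕ} {θ ε : ℝ}
  {G : (y : ℕ) → Env × Finset ℕ → (Px (Pn N y) → ℝ) → Px (Pn N y) → ℝ}

theorem meas_if_le {Ω : Type*} [MeasurableSpace Ω] {f : Ω → ℝ} (hf : Measurable f) (a : ℝ) [∀ ω, Decidable (a ≤ f ω)] :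
    Measurable fun ω => if a ≤ f ω then (1 : ℝ) else 0 :=
  Measurable.ite (p := fun ω => a ≤ f ω) (measurableSet_le measurable_const hf) measurable_const measurable_const

theorem meas_if_lt {Ω : Type*} [MeasurableSpace Ω] {f : Ω → ℝ} (hf : Measurable f) (a : ℝ) [∀ ω, Decidable (a < f ω)] :
    Measurable fun ω => if a < f ω then (1 : ℝ) else 0 :=
  Measurable.ite (p := fun ω => a < f ω) (measurableSet_lt measurable_const hf) measurable_const measurable_const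

open Classical in
/-- **(L2) A mass of no meeting in an interval outside of the open window.** -/
theorem law_I (hb : 0 < b) (hj : j + b ≤ N) (hG : Rep μ s N δ B b j 1 (fun y ω w ρ => G y ω w (ρ 0)) 1 6)
    (G0 : ∀ y ω w x, 0 ≤ G y ω w x) {c1 d1 : ℕ} (hc1 : c1 ≤ j - b) (hd1 : j + b ≤ d1) {i k : ℕ} (hik : k ≤ j - b ∨ j + b ≤ i) {r1 : ℝ}
    (hr : 0 < r1) (hy : 1 ≤ y₀) (hm : 1 ≤ m) (hyN : y₀ + m ≤ N) (hE : FErr2 μ s N δ B b j y₀ m θ ε) :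
    avy (Ico y₀ (y₀ + m)) (fun y => ∫ ω, gm (wt μ s ω.1 N (Pn N y) δ B b j (sg ω.2 j) (-(sg ω.2 j : ℝ))) (fun x =>
        (if r1 ≤ mI (wt μ s ω.1 N (Pn N y) δ B b j (sg ω.2 j) (-(sg ω.2 j : ℝ))) (pJ c1 d1) i k x then 1 else 0) *
          G y ω (wt μ s ω.1 N (Pn N y) δ B b j (sg ω.2 j) (-(sg ω.2 j : ℝ))) x) ∂(Pm μ N)) ≤
      avy (Ico y₀ (y₀ + m)) (fun y => ∫ ω, gm (wm μ s N (Pn N y) ω) (fun x =>
        (if r1 / 2 ≤ mI (wm μ s N (Pn N y) ω) (pJ c1 d1) i k x then 1 else 0) * G y ω (wm μ s N (Pn N y) ω) x) ∂(Pm μ N)) +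
      (2 / m + (3 * (4 / r1 + 8) * θ + 4 * ε)) := by
  have hX : Rep μ s N δ B b j 1 (fun y _ w ρ => mI w (pJ c1 d1) i k (ρ 0)) 1 (2 * 1) :=
    Rep.mass (K := fun y _ => NI i k) (cov_NI hik 0 1) hc1 hd1 zero_lt_one
  have h := Rep.thr_law hb hj hX hG (fun y ω w ρ => G0 y ω w (ρ 0)) hr hy hm hyN hE
    (P := fun y ω x => r1 ≤ mI (wt μ s ω.1 N (Pn N y) δ B b j (sg ω.2 j) (-(sg ω.2 j : ℝ))) (pJ c1 d1) i k x)
    (P' := fun y ω x => r1 / 2 ≤ mI (wm μ s N (Pn N y) ω) (pJ c1 d1) i k x) (fun _ _ _ h => h) (fun _ _ _ h => h.le)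
    (fun y x => meas_if_le (hX.meas y fun _ => x) _)
  refine h.trans (le_of_eq ?_)
  ring

open Classical in
/-- **(L3) The event `E3`** for a covariant kernel. -/
theorem law_E (hb : 0 < b) (hj : j + b ≤ N) (hG : Rep μ s N δ B b j 1 (fun y ω w ρ => G y ω w (ρ 0)) 1 6)
    (G0 : ∀ y ω w x, 0 ≤ G y ω w x) {K : (y : ℕ) → Px (Pn N y) → Px (Pn N y) → ℝ}
    (hK : CovM N b j (fun y _ ρ => K y (ρ 0) (ρ 1)) 1) {q : ℝ} (hq : 0 < q) (hy : 1 ≤ y₀) (hm : 1 ≤ m) (hyN : y₀ + m ≤ N)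
    (hE : FErr2 μ s N δ B b j y₀ m θ ε) :
    avy (Ico y₀ (y₀ + m)) (fun y => ∫ ω, gm (wt μ s ω.1 N (Pn N y) δ B b j (sg ω.2 j) (-(sg ω.2 j : ℝ))) (fun x =>
        (if E3 (wt μ s ω.1 N (Pn N y) δ B b j (sg ω.2 j) (-(sg ω.2 j : ℝ))) (K y) q x then 1 else 0) *
          G y ω (wt μ s ω.1 N (Pn N y) δ B b j (sg ω.2 j) (-(sg ω.2 j : ℝ))) x) ∂(Pm μ N)) ≤
      avy (Ico y₀ (y₀ + m)) (fun y => ∫ ω, gm (wm μ s N (Pn N y) ω) (fun x =>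
        (if E3 (wm μ s N (Pn N y) ω) (K y) (q / 2) x then 1 else 0) * G y ω (wm μ s N (Pn N y) ω) x) ∂(Pm μ N)) +
      (2 / m + (3 * (4 / q + 8) * θ + 4 * ε)) := by
  have k10 : Rep μ s N δ B b j 3 (fun y ω _ ρ => K y (ρ 2) (ρ 0)) 1 0 := Rep.fn (CovM.swap (K := fun y _ => K y) hK 2 0)
  have k11 : Rep μ s N δ B b j 3 (fun y ω _ ρ => K y (ρ 1) (ρ 0)) 1 0 := Rep.fn (CovM.swap (K := fun y _ => K y) hK 1 0)
  have k2 : Rep μ s N δ B b j 2 (fun y ω w ρ => gm w fun t => K y (ρ 1) t * K y (ρ 0) t) (1 * 1) ((1 * 0 + 1 * 0) + 1 * 1) :=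
    (k10.mul k11).me
  have k3 : Rep μ s N δ B b j 2 (fun y ω _ ρ => K y (ρ 1) (ρ 0)) 1 0 := Rep.fn (CovM.swap (K := fun y _ => K y) hK 1 0)
  have hX : Rep μ s N δ B b j 1 (fun y ω w ρ => gm w fun z => K y (ρ 0) z * gm w fun t => K y (ρ 0) t * K y z t)
      (1 * (1 * 1)) (((1 * 1) * 0 + 1 * ((1 * 0 + 1 * 0) + 1 * 1)) + 1 * (1 * 1)) := (k3.mul k2).me
  have h := Rep.thr_law hb hj hX hG (fun y ω w ρ => G0 y ω w (ρ 0)) hq hy hm hyN hE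
    (P := fun y ω x => E3 (wt μ s ω.1 N (Pn N y) δ B b j (sg ω.2 j) (-(sg ω.2 j : ℝ))) (K y) q x)
    (P' := fun y ω x => E3 (wm μ s N (Pn N y) ω) (K y) (q / 2) x) (fun _ _ _ h => le_of_lt h) (fun _ _ _ h => h)
    (fun y x => meas_if_lt (hX.meas y fun _ => x) _)
  refine h.trans (le_of_eq ?_)
  ring

open Classical in
/-- **(L1) The transfer functional** `TT` of the response of the flipped row (base `b₁ ≥ b`). -/
theorem law_T (hb : 0 < b) (hj : j + b ≤ N) (hG : Rep μ s N δ B b j 1 (fun y ω w ρ => G y ω w (ρ 0)) 1 6)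
    (G0 : ∀ y ω w x, 0 ≤ G y ω w x) {c1 d1 c2 d2 : ℕ} (hc1 : c1 ≤ j - b) (hd1 : j + b ≤ d1) (hc2 : c2 ≤ j - b) (hd2 : j + b ≤ d2)
    (hB : 0 ≤ B) {q1 de : ℝ} (hq : 0 < q1) (hde : 0 < de) (hy : 1 ≤ y₀) (hm : 1 ≤ m) (hyN : y₀ + m ≤ N)
    (hE : FErr2 μ s N δ B b j y₀ m θ ε) :
    avy (Ico y₀ (y₀ + m)) (fun y => ∫ ω, gm (wt μ s ω.1 N (Pn N y) δ B b j (sg ω.2 j) (-(sg ω.2 j : ℝ))) (fun x =>
        (if q1 ≤ cE (wt μ s ω.1 N (Pn N y) δ B b j (sg ω.2 j) (-(sg ω.2 j : ℝ))) (pJ c1 d1) (fun S =>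
          if de ≤ TT (wt μ s ω.1 N (Pn N y) δ B b j (sg ω.2 j) (-(sg ω.2 j : ℝ))) (pJ c2 d2) (gg μ s (Pn N y) δ B b ω j) S
            then 1 else 0) x then 1 else 0) *
          G y ω (wt μ s ω.1 N (Pn N y) δ B b j (sg ω.2 j) (-(sg ω.2 j : ℝ))) x) ∂(Pm μ N)) ≤
      avy (Ico y₀ (y₀ + m)) (fun y => ∫ ω, gm (wm μ s N (Pn N y) ω) (fun x =>
        (if q1 / 2 ≤ cE (wm μ s N (Pn N y) ω) (pJ c1 d1) (fun S =>
          if de / 2 ≤ TT (wm μ s N (Pn N y) ω) (pJ c2 d2) (gg μ s (Pn N y) δ B b ω j) S then 1 else 0) x then 1 else 0) *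
          G y ω (wm μ s N (Pn N y) ω) x) ∂(Pm μ N)) +
      (2 / m + (3 * (2 / q1 * (8 * B / de + 2) + 8) * θ + 4 * ε)) := by
  have hT : Rep μ s N δ B b j 2 (fun y ω w ρ => TT w (pJ c2 d2) (gg μ s (Pn N y) δ B b ω j) (ρ 0)) B (4 * B) :=
    Rep.cE2 (K := fun y ω S S' => |gg μ s (Pn N y) δ B b ω j S - gg μ s (Pn N y) δ B b ω j S'|) (cov_dgg le_rfl δ hB) hc2 hd2
      zero_lt_two zero_lt_two
  have hX : Rep μ s N δ B b j 1 (fun y ω w ρ => cE w (pJ c1 d1)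
      (fun S => (ramp de hde).f (TT w (pJ c2 d2) (gg μ s (Pn N y) δ B b ω j) S)) (ρ 0)) 1 (2 / de * (4 * B) + 2 * 1) :=
    Rep.ce hc1 hd1 zero_lt_one (Rep.lf (ramp de hde) hT)
  have h := Rep.thr_law hb hj hX hG (fun y ω w ρ => G0 y ω w (ρ 0)) hq hy hm hyN hE
    (P := fun y ω x => q1 ≤ cE (wt μ s ω.1 N (Pn N y) δ B b j (sg ω.2 j) (-(sg ω.2 j : ℝ))) (pJ c1 d1) (fun S =>
          if de ≤ TT (wt μ s ω.1 N (Pn N y) δ B b j (sg ω.2 j) (-(sg ω.2 j : ℝ))) (pJ c2 d2) (gg μ s (Pn N y) δ B b ω j) S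
            then 1 else 0) x)
    (P' := fun y ω x => q1 / 2 ≤ cE (wm μ s N (Pn N y) ω) (pJ c1 d1) (fun S =>
          if de / 2 ≤ TT (wm μ s N (Pn N y) ω) (pJ c2 d2) (gg μ s (Pn N y) δ B b ω j) S then 1 else 0) x)
    (fun y ω x h => by
      have n1 : Nonempty (Px (Pn N y)) := ⟨x⟩
      exact h.trans (cE_mono _ _ (fun S => ind_le_ramp hde fun h => h) x))
    (fun y ω x h => by
      have n1 : Nonempty (Px (Pn N y)) := ⟨x⟩
      exact h.le.trans (cE_mono _ _ (fun S => ramp_le_ind hde fun h => h.le) x))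
    (fun y x => by
      have n1 : Nonempty (Px (Pn N y)) := ⟨x⟩
      refine meas_if_le (meas_cE meas_wm (fun S => meas_if_le (hT.meas y fun _ => S) _) (pJ c1 d1) x) _)
  refine h.trans (le_of_eq ?_)
  ring

open Classical in
/-- **Any mass of one covariant kernel.** -/
theorem law_O (hb : 0 < b) (hj : j + b ≤ N) (hG : Rep μ s N δ B b j 1 (fun y ω w ρ => G y ω w (ρ 0)) 1 6)
    (G0 : ∀ y ω w x, 0 ≤ G y ω w x) {c1 d1 : ℕ} (hc1 : c1 ≤ j - b) (hd1 : j + b ≤ d1) {K : (y : ℕ) → Px (Pn N y) → Px (Pn N y) → ℝ}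
    (hK : CovM N b j (fun y _ ρ => K y (ρ 0) (ρ 1)) 1) {r1 : ℝ}
    (hr : 0 < r1) (hy : 1 ≤ y₀) (hm : 1 ≤ m) (hyN : y₀ + m ≤ N) (hE : FErr2 μ s N δ B b j y₀ m θ ε) :
    avy (Ico y₀ (y₀ + m)) (fun y => ∫ ω, gm (wt μ s ω.1 N (Pn N y) δ B b j (sg ω.2 j) (-(sg ω.2 j : ℝ))) (fun x =>
        (if r1 ≤ cE (wt μ s ω.1 N (Pn N y) δ B b j (sg ω.2 j) (-(sg ω.2 j : ℝ))) (pJ c1 d1) (K y x) x then 1 else 0) *
          G y ω (wt μ s ω.1 N (Pn N y) δ B b j (sg ω.2 j) (-(sg ω.2 j : ℝ))) x) ∂(Pm μ N)) ≤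
      avy (Ico y₀ (y₀ + m)) (fun y => ∫ ω, gm (wm μ s N (Pn N y) ω) (fun x =>
        (if r1 / 2 ≤ cE (wm μ s N (Pn N y) ω) (pJ c1 d1) (K y x) x then 1 else 0) * G y ω (wm μ s N (Pn N y) ω) x) ∂(Pm μ N)) +
      (2 / m + (3 * (4 / r1 + 8) * θ + 4 * ε)) := by
  have hX : Rep μ s N δ B b j 1 (fun y _ w ρ => cE w (pJ c1 d1) (K y (ρ 0)) (ρ 0)) 1 (2 * 1) :=
    Rep.mass (K := fun y _ => K y) hK hc1 hd1 zero_lt_one
  have h := Rep.thr_law hb hj hX hG (fun y ω w ρ => G0 y ω w (ρ 0)) hr hy hm hyN hE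
    (P := fun y ω x => r1 ≤ cE (wt μ s ω.1 N (Pn N y) δ B b j (sg ω.2 j) (-(sg ω.2 j : ℝ))) (pJ c1 d1) (K y x) x)
    (P' := fun y ω x => r1 / 2 ≤ cE (wm μ s N (Pn N y) ω) (pJ c1 d1) (K y x) x) (fun _ _ _ h => h) (fun _ _ _ h => h.le)
    (fun y x => meas_if_le (hX.meas y fun _ => x) _)
  refine h.trans (le_of_eq ?_)
  ring

end Law

end

end Pool.Agent.W_7d29a1_C0.Flip61
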