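import Pool.Agent.W_7d29a1_C0.FlipP4C
import Pool.Agent.W_7d29a1_C0.FlipX61

/-!
CURV0 (MP_7d29a1_pr), E7, SEVERAL REPLICAS AND SEVERAL WEIGHTS. Expressions `ET` of a sequence of replicas (the new replica gets the number
`0`, as in `FlipP61`), with tilted conditional means and tilted means (as in `FlipP4B`). `ET.obs`: two Gibbs measures with labels.
(helper4)
-/

set_option autoImplicit false
set_option linter.unusedSectionVars false
set_option linter.unusedVariables false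

namespace Pool.Agent.W_7d29a1_C0.FlipR4

open Finset
open Pool.W7d29a1.C0 (gz gm gz_pos gz_ne gm_const gm_mono)
open Pool.W7d29a1.C0.VT31 (Mp cE fz fz_pos)
open Pool.Agent.W_7d29a1_C0.Flip61 (tv tv_nonneg LipF cns cns_zero cns_succ)
open Pool.Agent.W_7d29a1_C0.Flip61.Ex (lm)
open Pool.Agent.W_7d29a1_C0.FlipP4 (EX)

noncomputable section

/-- Expressions of a sequence of replicas: given functions, constants, sums, products, bounded Lipschitz functions, tilted conditional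
means (a new replica in the class `k` of the replica number `n`, tilt `t`), tilted means (a new free replica). -/
inductive ET (ι β τ : Type) : Type
  /-- a given function -/
  | fn (i : ι) : ET ι β τ
  /-- a constant -/
  | cst (c : ℝ) : ET ι β τ
  /-- the sum -/
  | add (e e' : ET ι β τ) : ET ι β τ
  /-- the product -/
  | mul (e e' : ET ι β τ) : ET ι β τ
  /-- a bounded Lipschitz function of an expression -/
  | lf (φ : LipF) (e : ET ι β τ) : ET ι β τ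
  /-- the tilted conditional mean over a new replica in the class of the replica `n` -/
  | ce (k : β) (t : τ) (n : ℕ) (e : ET ι β τ) : ET ι β τ
  /-- the tilted mean over a new free replica -/
  | me (t : τ) (e : ET ι β τ) : ET ι β τ

namespace ET

variable {ι β τ : Type} {Y : Type*} [DecidableEq Y]

/-- The bound of an expression. -/
def bd (b : ι → ℝ) : ET ι β τ → ℝ
  | fn i => b i
  | cst c => |c|
  | add e e' => bd b e + bd b e'
  | mul e e' => bd b e * bd b e'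
  | lf φ _ => φ.M
  | ce _ _ _ e => bd b e
  | me _ e => bd b e

/-- The Lipschitz constant of an expression. -/
def li (b : ι → ℝ) (K : τ → ℝ) : ET ι β τ → ℝ
  | fn _ => 0
  | cst _ => 0
  | add e e' => li b K e + li b K e'
  | mul e e' => bd b e' * li b K e + bd b e * li b K e'
  | lf φ e => φ.Λ * li b K e
  | ce _ t _ e => Real.exp (2 * K t) * (li b K e + 2 * bd b e)
  | me t e => Real.exp (2 * K t) * (li b K e + 2 * bd b e)

/-- The replicas of an expression of `n + 1` replicas, as a sequence. -/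
def ex {X : Type*} {n : ℕ} (x : Fin (n + 1) → X) (m : ℕ) : X := x ⟨min m n, by omega⟩

/-- The same expression for `n + 1` replicas. -/
def tr : ET ι β τ → (n : ℕ) → EX (fun _ => ι) β τ (n + 1)
  | fn i, _ => EX.fn (ι := fun _ => ι) i
  | cst c, _ => EX.cst c
  | add e e', n => EX.add (tr e n) (tr e' n)
  | mul e e', n => EX.mul (tr e n) (tr e' n)
  | lf φ e, n => EX.lf φ (tr e n)
  | ce k t m e, n => EX.ce k t ⟨min m n, by omega⟩ (tr e (n + 1))
  | me t e, n => EX.me t (tr e (n + 1))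

theorem bd_tr (b : ι → ℝ) : ∀ (e : ET ι β τ) (n : ℕ), EX.bd (fun _ => b) (tr e n) = bd b e
  | fn _, _ => rfl
  | cst _, _ => rfl
  | add e e', n => by
    show EX.bd _ (tr e n) + EX.bd _ (tr e' n) = bd b e + bd b e'
    rw [bd_tr b e, bd_tr b e']
  | mul e e', n => by
    show EX.bd _ (tr e n) * EX.bd _ (tr e' n) = bd b e * bd b e'
    rw [bd_tr b e, bd_tr b e']
  | lf _ _, _ => rfl
  | ce _ _ _ e, n => bd_tr b e (n + 1)
  | me _ e, n => bd_tr b e (n + 1)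

theorem li_tr (b : ι → ℝ) (K : τ → ℝ) : ∀ (e : ET ι β τ) (n : ℕ), EX.li (fun _ => b) K (tr e n) = li b K e
  | fn _, _ => rfl
  | cst _, _ => rfl
  | add e e', n => by
    show EX.li _ K (tr e n) + EX.li _ K (tr e' n) = li b K e + li b K e'
    rw [li_tr b K e, li_tr b K e']
  | mul e e', n => by
    show EX.bd _ (tr e' n) * EX.li _ K (tr e n) + EX.bd _ (tr e n) * EX.li _ K (tr e' n) = bd b e' * li b K e + bd b e * li b K e'
    rw [li_tr b K e, li_tr b K e', bd_tr, bd_tr]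
  | lf φ e, n => by
    show φ.Λ * EX.li _ K (tr e n) = φ.Λ * li b K e
    rw [li_tr b K e]
  | ce _ t _ e, n => by
    show Real.exp (2 * K t) * (EX.li _ K (tr e (n + 1)) + 2 * EX.bd _ (tr e (n + 1))) = Real.exp (2 * K t) * (li b K e + 2 * bd b e)
    rw [li_tr b K e, bd_tr]
  | me t e, n => by
    show Real.exp (2 * K t) * (EX.li _ K (tr e (n + 1)) + 2 * EX.bd _ (tr e (n + 1))) = Real.exp (2 * K t) * (li b K e + 2 * bd b e)
    rw [li_tr b K e, bd_tr]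

theorem bd_nonneg {b : ι → ℝ} (hb : ∀ i, 0 ≤ b i) (e : ET ι β τ) : 0 ≤ bd b e := by
  rw [← bd_tr b e 0]
  exact EX.bd_nonneg (fun _ i => hb i) _

theorem li_nonneg {b : ι → ℝ} (hb : ∀ i, 0 ≤ b i) (K : τ → ℝ) (e : ET ι β τ) : 0 ≤ li b K e := by
  rw [← li_tr b K e 0]
  exact EX.li_nonneg (fun _ i => hb i) K _

theorem ex_cons {X : Type*} {n : ℕ} (z : X) (x : Fin (n + 1) → X) : ex (Fin.cons z x : Fin (n + 2) → X) = cns z (ex x) := by
  funext m
  cases m with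
  | zero => rfl
  | succ m =>
    unfold ex
    have e : (⟨min (m + 1) (n + 1), by omega⟩ : Fin (n + 2)) = Fin.succ ⟨min m n, by omega⟩ := by
      apply Fin.ext
      show min (m + 1) (n + 1) = min m n + 1
      omega
    rw [e, Fin.cons_succ]
    rfl

/-- The given functions for `n` replicas. -/
def hx {X : Type*} (h : ι → (ℕ → X) → ℝ) : (n : ℕ) → ι → (Fin n → X) → ℝ
  | 0, _, _ => 0
  | _ + 1, i, x => h i (ex x)

section Gibbs

variable {X : Type*} [Fintype X]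

/-- The value under the Gibbs weights `w`; tilts `ψ`, partitions `q`. -/
def evX (w : X → ℝ) (h : ι → (ℕ → X) → ℝ) (ψ : τ → X → ℝ) (q : β → X → Y) : ET ι β τ → (ℕ → X) → ℝ
  | fn i => h i
  | cst c => fun _ => c
  | add e e' => fun ρ => evX w h ψ q e ρ + evX w h ψ q e' ρ
  | mul e e' => fun ρ => evX w h ψ q e ρ * evX w h ψ q e' ρ
  | lf φ e => fun ρ => φ.f (evX w h ψ q e ρ)
  | ce k t n e => fun ρ => cE (w + ψ t) (q k) (fun z => evX w h ψ q e (cns z ρ)) (ρ n)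
  | me t e => fun ρ => gm (w + ψ t) fun z => evX w h ψ q e (cns z ρ)

theorem evX_tr (w : X → ℝ) (h : ι → (ℕ → X) → ℝ) (ψ : τ → X → ℝ) (q : β → X → Y) : ∀ (e : ET ι β τ) (n : ℕ) (x : Fin (n + 1) → X),
    EX.evX w (hx h) ψ q (tr e n) x = evX w h ψ q e (ex x)
  | fn _, _, _ => rfl
  | cst _, _, _ => rfl
  | add e e', n, x => by
    show EX.evX w (hx h) ψ q (tr e n) x + EX.evX w (hx h) ψ q (tr e' n) x = evX w h ψ q e (ex x) + evX w h ψ q e' (ex x)
    rw [evX_tr w h ψ q e, evX_tr w h ψ q e']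
  | mul e e', n, x => by
    show EX.evX w (hx h) ψ q (tr e n) x * EX.evX w (hx h) ψ q (tr e' n) x = evX w h ψ q e (ex x) * evX w h ψ q e' (ex x)
    rw [evX_tr w h ψ q e, evX_tr w h ψ q e']
  | lf φ e, n, x => by
    show φ.f (EX.evX w (hx h) ψ q (tr e n) x) = φ.f (evX w h ψ q e (ex x))
    rw [evX_tr w h ψ q e]
  | ce k t m e, n, x => by
    show cE (w + ψ t) (q k) (fun z => EX.evX w (hx h) ψ q (tr e (n + 1)) (Fin.cons z x)) (x ⟨min m n, by omega⟩) =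
      cE (w + ψ t) (q k) (fun z => evX w h ψ q e (cns z (ex x))) (ex x m)
    simp only [evX_tr w h ψ q e, ex_cons]
    rfl
  | me t e, n, x => by
    show gm (w + ψ t) (fun z => EX.evX w (hx h) ψ q (tr e (n + 1)) (Fin.cons z x)) =
      gm (w + ψ t) (fun z => evX w h ψ q e (cns z (ex x)))
    simp only [evX_tr w h ψ q e, ex_cons]

theorem ex_one (z : X) : ex (Fin.cons z Fin.elim0 : Fin 1 → X) = fun _ => z := by
  funext m
  unfold ex
  have e1 : (⟨min m 0, by omega⟩ : Fin 1) = 0 := Fin.ext (by show min m 0 = 0; omega)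
  rw [e1, Fin.cons_zero]

theorem ex_const {n : ℕ} (x : X) : ex (fun _ : Fin (n + 1) => x) = fun _ => x := rfl

theorem hx_bdd {h : ι → (ℕ → X) → ℝ} {b : ι → ℝ} (hb : ∀ i, 0 ≤ b i) (hf : ∀ i ρ, |h i ρ| ≤ b i) (n : ℕ) (i : ι) (x : Fin n → X) :
    |hx h n i x| ≤ b i := by
  cases n with
  | zero =>
    show |(0 : ℝ)| ≤ b i
    rw [abs_zero]
    exact hb i
  | succ n => exact hf i _

theorem evX_bdd [Nonempty X] (w : X → ℝ) {h : ι → (ℕ → X) → ℝ} (ψ : τ → X → ℝ) (q : β → X → Y) {b : ι → ℝ} (hb : ∀ i, 0 ≤ b i)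
    (hf : ∀ i ρ, |h i ρ| ≤ b i) : ∀ (e : ET ι β τ) (ρ : ℕ → X), |evX w h ψ q e ρ| ≤ bd b e
  | fn i, ρ => hf i ρ
  | cst _, _ => le_rfl
  | add e e', ρ => (abs_add_le _ _).trans (add_le_add (evX_bdd w ψ q hb hf e ρ) (evX_bdd w ψ q hb hf e' ρ))
  | mul e e', ρ => by
    show |evX w h ψ q e ρ * evX w h ψ q e' ρ| ≤ bd b e * bd b e'
    rw [abs_mul]
    exact mul_le_mul (evX_bdd w ψ q hb hf e ρ) (evX_bdd w ψ q hb hf e' ρ) (abs_nonneg _) (bd_nonneg hb e)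
  | lf φ _, _ => φ.hM _
  | ce k t n e, ρ => Mod92.abs_cE_le (w + ψ t) (q k) (fun z => evX_bdd w ψ q hb hf e (cns z ρ)) (ρ n)
  | me t e, ρ => Flip61.Ex.gm_bdd (w + ψ t) fun z => evX_bdd w ψ q hb hf e (cns z ρ)

theorem meas_evX [Nonempty X] {Ω : Type*} [MeasurableSpace Ω] {w : Ω → X → ℝ} (hw : ∀ x, Measurable fun ω => w ω x)
    {f : Ω → ι → (ℕ → X) → ℝ} (hf : ∀ i x, Measurable fun ω => f ω i x) {ψ : Ω → τ → X → ℝ} (hψ : ∀ t x, Measurable fun ω => ψ ω t x)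
    (q : β → X → Y) : ∀ (e : ET ι β τ) (ρ : ℕ → X), Measurable fun ω => evX (w ω) (f ω) (ψ ω) q e ρ
  | fn i, ρ => hf i ρ
  | cst _, _ => measurable_const
  | add e e', ρ => (meas_evX hw hf hψ q e ρ).add (meas_evX hw hf hψ q e' ρ)
  | mul e e', ρ => (meas_evX hw hf hψ q e ρ).mul (meas_evX hw hf hψ q e' ρ)
  | lf φ e, ρ => φ.meas.comp (meas_evX hw hf hψ q e ρ)
  | ce k t n e, ρ => Mod92.meas_cE (fun x => (hw x).add (hψ t x)) (fun z => meas_evX hw hf hψ q e (cns z ρ)) (q k) (ρ n)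
  | me t e, ρ => Mod92.meas_gm (fun x => (hw x).add (hψ t x)) fun z => meas_evX hw hf hψ q e (cns z ρ)

end Gibbs

/-- **TWO GIBBS MEASURES.** `lam₁`, `lam₂`: labels with values in the same set; the given functions and the tilts agree at equal labels,
the partitions are given by the labels. -/
theorem obs {X₁ X₂ : Type*} [Fintype X₁] [Nonempty X₁] [Fintype X₂] [Nonempty X₂] {O : Type*} [Fintype O] [DecidableEq O]
    {Y₁ Y₂ : Type*} [DecidableEq Y₁] [DecidableEq Y₂] (w₁ : X₁ → ℝ) (w₂ : X₂ → ℝ) (lam₁ : X₁ → O) (lam₂ : X₂ → O)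
    {h₁ : ι → (ℕ → X₁) → ℝ} {h₂ : ι → (ℕ → X₂) → ℝ} {ψ₁ : τ → X₁ → ℝ} {ψ₂ : τ → X₂ → ℝ}
    {q₁ : β → X₁ → Y₁} {q₂ : β → X₂ → Y₂} (Q : β → O → Y) {b : ι → ℝ} (hb : ∀ i, 0 ≤ b i)
    (b1 : ∀ i ρ, |h₁ i ρ| ≤ b i) (b2 : ∀ i ρ, |h₂ i ρ| ≤ b i)
    (c12 : ∀ i ρ ρ', (∀ n, lam₁ (ρ n) = lam₂ (ρ' n)) → h₁ i ρ = h₂ i ρ')
    (c11 : ∀ i ρ ρ', (∀ n, lam₁ (ρ n) = lam₁ (ρ' n)) → h₁ i ρ = h₁ i ρ')
    (c22 : ∀ i ρ ρ', (∀ n, lam₂ (ρ n) = lam₂ (ρ' n)) → h₂ i ρ = h₂ i ρ')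
    {K : τ → ℝ} (hK : ∀ t, 0 ≤ K t) (k1 : ∀ t x, |ψ₁ t x| ≤ K t) (k2 : ∀ t x, |ψ₂ t x| ≤ K t)
    (d12 : ∀ t x y, lam₁ x = lam₂ y → ψ₁ t x = ψ₂ t y) (d11 : ∀ t x y, lam₁ x = lam₁ y → ψ₁ t x = ψ₁ t y)
    (d22 : ∀ t x y, lam₂ x = lam₂ y → ψ₂ t x = ψ₂ t y)
    (p1 : ∀ k x y, q₁ k x = q₁ k y ↔ Q k (lam₁ x) = Q k (lam₁ y)) (p2 : ∀ k x y, q₂ k x = q₂ k y ↔ Q k (lam₂ x) = Q k (lam₂ y))
    (t : τ) (e : ET ι β τ) :
    |gm (w₁ + ψ₁ t) (fun x => evX w₁ h₁ ψ₁ q₁ e fun _ => x) - gm (w₂ + ψ₂ t) (fun x => evX w₂ h₂ ψ₂ q₂ e fun _ => x)| ≤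
      Real.exp (2 * K t) * (li b K e + 2 * bd b e) * tv (lm w₁ lam₁) (lm w₂ lam₂) := by
  have key := EX.flipX_obs (ι := fun _ => ι) w₁ w₂ lam₁ lam₂ (h₁ := hx h₁) (h₂ := hx h₂) (ψ₁ := ψ₁) (ψ₂ := ψ₂) (q₁ := q₁) (q₂ := q₂) Q
    (b := fun _ => b) (fun _ i => hb i) (fun n i x => hx_bdd hb b1 n i x) (fun n i x => hx_bdd hb b2 n i x)
    (fun n i x y hxy => by
      cases n with
      | zero => rfl
      | succ n => exact c12 i _ _ fun m => hxy _)
    (fun n i x y hxy => by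
      cases n with
      | zero => rfl
      | succ n => exact c11 i _ _ fun m => hxy _)
    (fun n i x y hxy => by
      cases n with
      | zero => rfl
      | succ n => exact c22 i _ _ fun m => hxy _) hK k1 k2 d12 d11 d22 p1 p2 (EX.me t (tr e 0))
  have e1 : EX.evX w₁ (hx h₁) ψ₁ q₁ (EX.me t (tr e 0)) Fin.elim0 = gm (w₁ + ψ₁ t) (fun x => evX w₁ h₁ ψ₁ q₁ e fun _ => x) := by
    show gm (w₁ + ψ₁ t) (fun z => EX.evX w₁ (hx h₁) ψ₁ q₁ (tr e 0) (Fin.cons z Fin.elim0)) = _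
    simp only [evX_tr, ex_one]
  have e2 : EX.evX w₂ (hx h₂) ψ₂ q₂ (EX.me t (tr e 0)) Fin.elim0 = gm (w₂ + ψ₂ t) (fun x => evX w₂ h₂ ψ₂ q₂ e fun _ => x) := by
    show gm (w₂ + ψ₂ t) (fun z => EX.evX w₂ (hx h₂) ψ₂ q₂ (tr e 0) (Fin.cons z Fin.elim0)) = _
    simp only [evX_tr, ex_one]
  rw [e1, e2] at key
  refine key.trans (le_of_eq ?_)
  show Real.exp (2 * K t) * (EX.li _ K (tr e 0) + 2 * EX.bd _ (tr e 0)) * _ = _
  rw [li_tr, bd_tr]

end ET

end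

end Pool.Agent.W_7d29a1_C0.FlipR4
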