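import Pool.Agent.W_7d29a1_C0.FlipR4

/-!
CURV0 (MP_7d29a1_pr), E7, SEVERAL REPLICAS AND SEVERAL WEIGHTS, one row. `obT` = the mean of an expression with tilts under the tilted
actual pinned measure, `obfT` = the same over the clipped flip of the kick of the row `j`; `one_endT`, `law_levT`: the law invariance, the
errors of the flip in the form of two levels `FErr2`. (helper4; after `FlipQ61`, `FlipR61` of helper61)
-/

set_option autoImplicit false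
set_option linter.unusedSectionVars false
set_option linter.unusedVariables false

namespace Pool.Agent.W_7d29a1_C0.FlipR4

open Pool.Agent.W_7d29a1_F hiding W_pos W_nonneg W_add
open Finset MeasureTheory Pool.Agent.W_7d29a1_X Pool.Agent.W_7d29a1_HZ
open Pool.Agent.W_7d29a1_Z74
open Pool.Agent.W_7d29a1_HZ.Z74
open Pool.Agent.W_7d29a1_C0.Mod92
open Pool.Agent.W_7d29a1_C0.Blk18
open Pool.Agent.W_7d29a1_C0.Pin18
open Pool.Agent.W_7d29a1_C0.Flip61
open Pool.W7d29a1.C0 (gz gm gz_pos gz_ne gm_const gm_mono gm_nonneg gm_sub)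
open Pool.W7d29a1.C0.VT31 (Mp Crs cE cV cC gc gv)

noncomputable section

variable {μ : Measure ℝ} {s : ℝ} {N : ℕ} {ι β τ : Type}

/-- **THE LAW INVARIANCE UNDER THE FLIP, SEVERAL REPLICAS AND SEVERAL WEIGHTS**, one environment. -/
theorem flip_closeT {c l : ℕ} {v : ℤ} {Q₁ Q₂ : Finset (Finset ℕ)} (η : Env) {N k : ℕ} (hk : k ≤ l) (hN : c + l ≤ N) (hv : |v| ≤ 1)
    (P : ℤ → Prop) [DecidablePred P] (e1 : Q₁ = fam N P) (e2 : Q₂ = fam N fun x => P (x + v))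
    [Nonempty (Px Q₁)] [Nonempty (Px Q₂)] (w₁ : Px Q₁ → ℝ)
    {h₁ : ι → (ℕ → Px Q₁) → ℝ} {h₂ : ι → (ℕ → Px Q₂) → ℝ} {ψ₁ : τ → Px Q₁ → ℝ} {ψ₂ : τ → Px Q₂ → ℝ}
    (hE : ∀ i ρ ρ', (∀ n, dJ c l 0 (ρ n).1 = dJ c l v (ρ' n).1) → h₁ i ρ = h₂ i ρ')
    (m1 : ∀ i ρ ρ', (∀ n, dJ c l 0 (ρ n).1 = dJ c l 0 (ρ' n).1) → h₁ i ρ = h₁ i ρ')
    (m2 : ∀ i ρ ρ', (∀ n, dJ c l 0 (ρ n).1 = dJ c l 0 (ρ' n).1) → h₂ i ρ = h₂ i ρ') {b : ι → ℝ} (hb : ∀ i, 0 ≤ b i)
    (b1 : ∀ i x, |h₁ i x| ≤ b i) (b2 : ∀ i x, |h₂ i x| ≤ b i)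
    (tE : ∀ t S S', dJ c l 0 S.1 = dJ c l v S'.1 → ψ₁ t S = ψ₂ t S')
    (n1 : ∀ t S S', dJ c l 0 S.1 = dJ c l 0 S'.1 → ψ₁ t S = ψ₁ t S')
    (n2 : ∀ t S S', dJ c l 0 S.1 = dJ c l 0 S'.1 → ψ₂ t S = ψ₂ t S') {K : τ → ℝ} (hK : ∀ t, 0 ≤ K t)
    (k1 : ∀ t x, |ψ₁ t x| ≤ K t) (k2 : ∀ t x, |ψ₂ t x| ≤ K t)
    (C D : β → ℕ) (hC : ∀ i, C i ≤ c) (hD : ∀ i, c + l ≤ D i) (t : τ) (e : ET ι β τ)
    (hp : 0 < ∑ S ∈ Q₁, pth μ s η N S * Rp μ s η c l k v S) :
    |gm (w₁ + ψ₁ t) (fun x => ET.evX w₁ h₁ ψ₁ (fun i => pJ (C i) (D i)) e fun _ => x) -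
        gm (lw μ s (shj ((c + k : ℕ) : ℤ) v η) N Q₂ + ψ₂ t)
          (fun x => ET.evX (lw μ s (shj ((c + k : ℕ) : ℤ) v η) N Q₂) h₂ ψ₂ (fun i => pJ (C i) (D i)) e fun _ => x)| ≤
      Real.exp (2 * K t) * (ET.li b K e + 2 * ET.bd b e) *
        ((∑ S : Px Q₁, |Real.exp (w₁ S) / gz w₁ - pth μ s η N S.1 * Rp μ s η c l k v S.1 /
          ∑ S ∈ Q₁, pth μ s η N S * Rp μ s η c l k v S|) +
        2 * gm (lw μ s (shj ((c + k : ℕ) : ℤ) v η) N Q₂) (fun S => if Ok c l v S.1 then 0 else 1)) := by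
  have hQ₁ : Q₁ ⊆ Fr N := by
    rw [e1]
    exact filter_subset _ _
  have hQ₂ : Q₂ ⊆ Fr N := by
    rw [e2]
    exact filter_subset _ _
  have h0 : |(0 : ℤ)| ≤ 1 := by simp
  have ht := tv_flip (μ := μ) (s := s) η hk hN hv h0 P e1 e2 hQ₁ hQ₂ w₁ hp
  have hobs := ET.obs w₁ (lw μ s (shj ((c + k : ℕ) : ℤ) v η) N Q₂) (lab hQ₁ c l h0) (lab hQ₂ c l hv) (h₁ := h₁) (h₂ := h₂)
    (ψ₁ := ψ₁) (ψ₂ := ψ₂) (q₁ := fun i => pJ (C i) (D i)) (q₂ := fun i => pJ (C i) (D i)) (fun i o => oq (C i) (D i) o.1) hb b1 b2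
    (fun i ρ ρ' h => hE i ρ ρ' fun n => congrArg Subtype.val (h n))
    (fun i ρ ρ' h => m1 i ρ ρ' fun n => congrArg Subtype.val (h n))
    (fun i ρ ρ' h => m2 i ρ ρ' fun n => dJ_shift (congrArg Subtype.val (h n))) hK k1 k2
    (fun t x y h => tE t x y (congrArg Subtype.val h)) (fun t x y h => n1 t x y (congrArg Subtype.val h))
    (fun t x y h => n2 t x y (dJ_shift (congrArg Subtype.val h)))
    (fun i x y => part_pJ (hC i) (hD i) 0 x y) (fun i x y => part_pJ (hC i) (hD i) v x y) t e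
  refine hobs.trans ?_
  refine mul_le_mul_of_nonneg_left ht ?_
  have k1 := ET.li_nonneg hb K e
  have k2 := ET.bd_nonneg hb e
  positivity

/-- The mean of the expression `e` with tilts (both may depend on the signs) under the tilted actual pinned measure. -/
def obT (μ : Measure ℝ) (s : ℝ) (N : ℕ) (C D : β → ℕ) (h : (y : ℕ) → Env × Finset ℕ → ι → (ℕ → Px (Pn N y)) → ℝ)
    (ψ : (y : ℕ) → Env × Finset ℕ → τ → Px (Pn N y) → ℝ) (t : Finset ℕ → τ) (e : Finset ℕ → ET ι β τ) (y : ℕ) (ω : Env × Finset ℕ) : ℝ :=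
  gm (lw μ s ω.1 N (Pn N y) + ψ y ω (t ω.2)) fun S =>
    ET.evX (lw μ s ω.1 N (Pn N y)) (h y ω) (ψ y ω) (fun i => pJ (C i) (D i)) (e ω.2) fun _ => S

/-- The same over the clipped flip of the kick of the row `j`. -/
def obfT (μ : Measure ℝ) (s : ℝ) (N : ℕ) (δ B : ℝ) (b j : ℕ) (C D : β → ℕ) (h : (y : ℕ) → Env × Finset ℕ → ι → (ℕ → Px (Pn N y)) → ℝ)
    (ψ : (y : ℕ) → Env × Finset ℕ → τ → Px (Pn N y) → ℝ) (t : Finset ℕ → τ) (e : Finset ℕ → ET ι β τ) (y : ℕ) (ω : Env × Finset ℕ) : ℝ :=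
  gm (wt μ s ω.1 N (Pn N y) δ B b j (sg ω.2 j) (-(sg ω.2 j : ℝ)) + ψ y ω (t (flp j ω.2))) fun S =>
    ET.evX (wt μ s ω.1 N (Pn N y) δ B b j (sg ω.2 j) (-(sg ω.2 j : ℝ))) (h y ω) (ψ y ω) (fun i => pJ (C i) (D i)) (e (flp j ω.2)) fun _ => S

section One

variable {h : (y : ℕ) → Env × Finset ℕ → ι → (ℕ → Px (Pn N y)) → ℝ} {bb : ι → ℝ}
  {ψ : (y : ℕ) → Env × Finset ℕ → τ → Px (Pn N y) → ℝ} {K : τ → ℝ}

theorem obT_bdd {b j : ℕ} (H : ∀ i, CovM N b j (fun y ω => h y ω i) (bb i)) (C D : β → ℕ) (t : Finset ℕ → τ) (e : Finset ℕ → ET ι β τ)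
    (y : ℕ) (ω : Env × Finset ℕ) : |obT μ s N C D h ψ t e y ω| ≤ ET.bd bb (e ω.2) := by
  have hp := fun i => (H i).pos
  by_cases hy : y ≤ N
  swap
  · unfold obT
    rw [gm_zero_empty hy, abs_zero]
    exact ET.bd_nonneg hp _
  have n1 : Nonempty (Px (Pn N y)) := ne_Pn hy
  unfold obT
  exact Ex.gm_bdd _ fun S => ET.evX_bdd _ _ _ hp (fun i ρ => (H i).bdd y ω ρ) _ _

theorem obfT_bdd {b j : ℕ} (H : ∀ i, CovM N b j (fun y ω => h y ω i) (bb i)) (δ B : ℝ) (C D : β → ℕ) (t : Finset ℕ → τ)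
    (e : Finset ℕ → ET ι β τ) (y : ℕ) (ω : Env × Finset ℕ) : |obfT μ s N δ B b j C D h ψ t e y ω| ≤ ET.bd bb (e (flp j ω.2)) := by
  have hp := fun i => (H i).pos
  by_cases hy : y ≤ N
  swap
  · unfold obfT
    rw [gm_zero_empty hy, abs_zero]
    exact ET.bd_nonneg hp _
  have n1 : Nonempty (Px (Pn N y)) := ne_Pn hy
  unfold obfT
  exact Ex.gm_bdd _ fun S => ET.evX_bdd _ _ _ hp (fun i ρ => (H i).bdd y ω ρ) _ _

variable [IsProbabilityMeasure μ]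

/-- **ONE PINNED END.** -/
theorem one_endT {b j : ℕ} (hb : 0 < b) (hjN : j + b ≤ N) (H : ∀ i, CovM N b j (fun y ω => h y ω i) (bb i))
    (HK : ∀ t, Cov1 N b j (fun y ω => ψ y ω t) (K t)) (C D : β → ℕ) (hC : ∀ i, C i ≤ j - b) (hD : ∀ i, j + b ≤ D i)
    (t : Finset ℕ → τ) (e : Finset ℕ → ET ι β τ) (δ B : ℝ) {y : ℕ} (hy : 1 ≤ y) (hyN : y < N) (ω : Env × Finset ℕ) {L : ℝ}
    (hL : ∀ A, Real.exp (2 * K (t A)) * (ET.li bb K (e A) + 2 * ET.bd bb (e A)) ≤ L) :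
    |obfT μ s N δ B b j C D h ψ t e y ω - obT μ s N C D h ψ t e (nb (sg ω.2 j) y) (Tj j ω)| ≤
      L * (clip μ s N δ B b j (sg ω.2 j) y ω.1 + 2 * nok μ s N (j - b) (j + b - (j - b)) (-sg ω.2 j) (nb (sg ω.2 j) y) (Tj j ω).1) := by
  classical
  have n1 : Nonempty (Px (Pn N y)) := ne_Pn hyN.le
  have hnb : ((nb (sg ω.2 j) y : ℕ) : ℤ) = y + sg ω.2 j := by
    unfold nb
    rcases sg_or ω.2 j with h1 | h1 <;> rw [h1] <;> omega
  have hnbN : nb (sg ω.2 j) y ≤ N := by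
    rcases sg_or ω.2 j with h1 | h1 <;> rw [h1] at hnb ⊢ <;> omega
  have n2 : Nonempty (Px (Pn N (nb (sg ω.2 j) y))) := ne_Pn hnbN
  have hp0 := fun i => (H i).pos
  have hK0 := fun t => (HK t).pos
  set a := sg ω.2 j with ha
  set w₁ := wt μ s ω.1 N (Pn N y) δ B b j a (-(a : ℝ)) with hw₁
  have hj : ((j - b + (j - (j - b)) : ℕ) : ℤ) = (j : ℤ) := by
    exact_mod_cast (show j - b + (j - (j - b)) = j by omega)
  have hη : (Tj j ω).1 = shj ((j - b + (j - (j - b)) : ℕ) : ℤ) (-a) ω.1 := by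
    rw [hj]
    rfl
  have hA : (Tj j ω).2 = flp j ω.2 := rfl
  have hLe := hL (flp j ω.2)
  have hbd := ET.bd_nonneg hp0 (e (flp j ω.2))
  have hli := ET.li_nonneg hp0 K (e (flp j ω.2))
  have hexp : 1 ≤ Real.exp (2 * K (t (flp j ω.2))) := Real.one_le_exp (by have := hK0 (t (flp j ω.2)); linarith)
  have hL2 : 2 * ET.bd bb (e (flp j ω.2)) ≤ L := by
    have h1 : ET.li bb K (e (flp j ω.2)) + 2 * ET.bd bb (e (flp j ω.2)) ≤
        Real.exp (2 * K (t (flp j ω.2))) * (ET.li bb K (e (flp j ω.2)) + 2 * ET.bd bb (e (flp j ω.2))) :=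
      le_mul_of_one_le_left (by positivity) hexp
    linarith
  have hnok := nok_nonneg (μ := μ) (s := s) (N := N) (j - b) (j + b - (j - b)) (-a) (nb a y) (Tj j ω).1
  have hclip := clip_nonneg (μ := μ) (s := s) (N := N) δ B b j a y ω.1
  have hL0 : 0 ≤ L := by linarith
  have hob : obT μ s N C D h ψ t e (nb a y) (Tj j ω) = gm (lw μ s (shj ((j - b + (j - (j - b)) : ℕ) : ℤ) (-a) ω.1) N (Pn N (nb a y)) +
        ψ (nb a y) (Tj j ω) (t (flp j ω.2)))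
      (fun S => ET.evX (lw μ s (shj ((j - b + (j - (j - b)) : ℕ) : ℤ) (-a) ω.1) N (Pn N (nb a y))) (h (nb a y) (Tj j ω))
        (ψ (nb a y) (Tj j ω)) (fun i => pJ (C i) (D i)) (e (flp j ω.2)) fun _ => S) := by
    unfold obT
    rw [hA, hη]
  by_cases hp : 0 < ∑ S ∈ Pn N y, pth μ s ω.1 N S * Rp μ s ω.1 (j - b) (j + b - (j - b)) (j - (j - b)) (-a) S
  · have hfc := flip_closeT (μ := μ) (s := s) (c := j - b) (l := j + b - (j - b)) (k := j - (j - b)) (v := -a) (Q₁ := Pn N y)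
      (Q₂ := Pn N (nb a y)) ω.1 (by omega) (by omega) (sg_abs ω.2 j) (fun x => x = (y : ℤ)) (fam_eq N y).symm (by
        rw [← fam_eq N (nb a y)]
        unfold fam
        refine filter_congr fun S _ => ?_
        rw [hnb]
        constructor <;> intro h1 <;> omega) w₁ (h₁ := h y ω) (h₂ := h (nb a y) (Tj j ω)) (ψ₁ := ψ y ω) (ψ₂ := ψ (nb a y) (Tj j ω))
      (fun i ρ ρ' hh => (H i).eqv y hy hyN ω ρ ρ' hh)
      (fun i ρ ρ' hh => (H i).mp y ω ρ ρ' hh) (fun i ρ ρ' hh => (H i).mp _ _ ρ ρ' hh) hp0 (fun i ρ => (H i).bdd y ω ρ)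
      (fun i ρ => (H i).bdd _ _ ρ) (fun t S S' hh => (HK t).eqv y hy hyN ω S S' hh)
      (fun t S S' hh => mp_iff'.1 ((HK t).mp y ω) _ _ hh) (fun t S S' hh => mp_iff'.1 ((HK t).mp _ _) _ _ hh) hK0
      (fun t S => (HK t).bdd y ω S) (fun t S => (HK t).bdd _ _ S) C D hC (fun i => by rw [hcl]; exact hD i) (t (flp j ω.2))
      (e (flp j ω.2)) hp
    rw [hob]
    unfold obfT
    rw [← ha, ← hw₁]
    refine hfc.trans ?_
    have e1 : (∑ S : Px (Pn N y), |Real.exp (w₁ S) / gz w₁ - pth μ s ω.1 N S.1 * Rp μ s ω.1 (j - b) (j + b - (j - b)) (j - (j - b)) (-a) S.1 /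
          ∑ S ∈ Pn N y, pth μ s ω.1 N S * Rp μ s ω.1 (j - b) (j + b - (j - b)) (j - (j - b)) (-a) S|) +
        2 * gm (lw μ s (shj ((j - b + (j - (j - b)) : ℕ) : ℤ) (-a) ω.1) N (Pn N (nb a y)))
          (fun S => if Ok (j - b) (j + b - (j - b)) (-a) S.1 then 0 else 1) =
        clip μ s N δ B b j a y ω.1 + 2 * nok μ s N (j - b) (j + b - (j - b)) (-a) (nb a y) (Tj j ω).1 := by
      unfold clip nok
      rw [hη]
    rw [e1]
    exact mul_le_mul_of_nonneg_right hLe (by positivity)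
  · -- the degenerate case
    have h0 : ∑ S ∈ Pn N y, pth μ s ω.1 N S * Rp μ s ω.1 (j - b) (j + b - (j - b)) (j - (j - b)) (-a) S = 0 :=
      le_antisymm (not_lt.1 hp) (sum_nonneg fun S _ => mul_nonneg (pth_pos _ _ _).le (Rp_nonneg _ _ _ _ _ _))
    have hc1 : clip μ s N δ B b j a y ω.1 = 1 := by
      unfold clip
      rw [h0, ← hw₁]
      have e2 : ∀ S : Px (Pn N y), |Real.exp (w₁ S) / gz w₁ - pth μ s ω.1 N S.1 * Rp μ s ω.1 (j - b) (j + b - (j - b)) (j - (j - b)) (-a) S.1 / 0| =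
          Real.exp (w₁ S) / gz w₁ := fun S => by
        rw [div_zero, sub_zero]
        exact abs_of_nonneg (div_nonneg (Real.exp_pos _).le (gz_pos w₁).le)
      rw [sum_congr rfl fun S _ => e2 S, ← sum_div]
      exact div_self (gz_ne w₁)
    have h1 := obfT_bdd (μ := μ) (s := s) (ψ := ψ) H δ B C D t e y ω
    have h2 := obT_bdd (μ := μ) (s := s) (ψ := ψ) H C D t e (nb a y) (Tj j ω)
    rw [hA] at h2
    have h3 := abs_sub (obfT μ s N δ B b j C D h ψ t e y ω) (obT μ s N C D h ψ t e (nb a y) (Tj j ω))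
    rw [hc1]
    calc |obfT μ s N δ B b j C D h ψ t e y ω - obT μ s N C D h ψ t e (nb a y) (Tj j ω)|
        ≤ 2 * ET.bd bb (e (flp j ω.2)) := by linarith
      _ ≤ L * 1 := by linarith
      _ ≤ _ := mul_le_mul_of_nonneg_left (by linarith) hL0

theorem meas_obT {b j : ℕ} (H : ∀ i, CovM N b j (fun y ω => h y ω i) (bb i)) (HK : ∀ t, Cov1 N b j (fun y ω => ψ y ω t) (K t))
    (C D : β → ℕ) (t : Finset ℕ → τ) (e : Finset ℕ → ET ι β τ) (y : ℕ) : Measurable (obT μ s N C D h ψ t e y) := by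
  by_cases hy : y ≤ N
  swap
  · unfold obT
    simp only [gm_zero_empty hy]
    exact measurable_const
  have n1 : Nonempty (Px (Pn N y)) := ne_Pn hy
  refine meas_om fun A => ?_
  have hA : Measurable fun η : Env => (η, A) := meas_pair A
  have hw : ∀ S : Px (Pn N y), Measurable fun η : Env => (lw μ s η N (Pn N y)) S := fun S => meas_lw S
  have hψ : ∀ t (S : Px (Pn N y)), Measurable fun η : Env => ψ y (η, A) t S := fun t S => ((HK t).mes y S).comp hA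
  unfold obT
  exact meas_gm (w := fun η : Env => lw μ s η N (Pn N y) + ψ y (η, A) (t A)) (fun S => (hw S).add (hψ _ S)) fun S =>
    ET.meas_evX (w := fun η : Env => lw μ s η N (Pn N y)) (f := fun η : Env => h y (η, A)) (ψ := fun η : Env => ψ y (η, A)) hw
      (fun i ρ => ((H i).mes y ρ).comp hA) hψ (fun i => pJ (C i) (D i)) (e A) fun _ => S

theorem meas_obfT {b j : ℕ} (H : ∀ i, CovM N b j (fun y ω => h y ω i) (bb i)) (HK : ∀ t, Cov1 N b j (fun y ω => ψ y ω t) (K t))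
    (δ B : ℝ) (C D : β → ℕ) (t : Finset ℕ → τ) (e : Finset ℕ → ET ι β τ) (y : ℕ) : Measurable (obfT μ s N δ B b j C D h ψ t e y) := by
  by_cases hy : y ≤ N
  swap
  · unfold obfT
    simp only [gm_zero_empty hy]
    exact measurable_const
  have n1 : Nonempty (Px (Pn N y)) := ne_Pn hy
  refine meas_om fun A => ?_
  have hA : Measurable fun η : Env => (η, A) := meas_pair A
  have hw : ∀ S : Px (Pn N y), Measurable fun η : Env => wt μ s η N (Pn N y) δ B b j (sg A j) (-(sg A j : ℝ)) S := fun S =>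
    (meas_lw S).add ((meas_gj δ B b j (sg A j) S).const_mul _)
  have hψ : ∀ t (S : Px (Pn N y)), Measurable fun η : Env => ψ y (η, A) t S := fun t S => ((HK t).mes y S).comp hA
  unfold obfT
  exact meas_gm (w := fun η : Env => wt μ s η N (Pn N y) δ B b j (sg A j) (-(sg A j : ℝ)) + ψ y (η, A) (t (flp j A)))
    (fun S => (hw S).add (hψ _ S)) fun S =>
    ET.meas_evX (w := fun η : Env => wt μ s η N (Pn N y) δ B b j (sg A j) (-(sg A j : ℝ)))
      (f := fun η : Env => h y (η, A)) (ψ := fun η : Env => ψ y (η, A)) hw (fun i ρ => ((H i).mes y ρ).comp hA) hψ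
      (fun i => pJ (C i) (D i)) (e (flp j A)) fun _ => S

end One

section Law

variable {h : (y : ℕ) → Env × Finset ℕ → ι → (ℕ → Px (Pn N y)) → ℝ} {bb : ι → ℝ}
  {ψ : (y : ℕ) → Env × Finset ℕ → τ → Px (Pn N y) → ℝ} {K : τ → ℝ} [IsProbabilityMeasure μ]

theorem int_obT {b j : ℕ} (H : ∀ i, CovM N b j (fun y ω => h y ω i) (bb i)) (HK : ∀ t, Cov1 N b j (fun y ω => ψ y ω t) (K t))
    (C D : β → ℕ) (t : Finset ℕ → τ) (e : Finset ℕ → ET ι β τ) (y : ℕ) (A : Finset ℕ) :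
    Integrable (fun η : Env => obT μ s N C D h ψ t e y (η, A)) (law μ) :=
  Integrable.of_bound ((meas_obT H HK C D t e y).comp (meas_pair A)).aestronglyMeasurable (ET.bd bb (e A))
    (Filter.Eventually.of_forall fun η => by
      rw [Real.norm_eq_abs]
      exact obT_bdd H C D t e y (η, A))

theorem int_obfT {b j : ℕ} (H : ∀ i, CovM N b j (fun y ω => h y ω i) (bb i)) (HK : ∀ t, Cov1 N b j (fun y ω => ψ y ω t) (K t))
    (δ B : ℝ) (C D : β → ℕ) (t : Finset ℕ → τ) (e : Finset ℕ → ET ι β τ) (y : ℕ) (A : Finset ℕ) :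
    Integrable (fun η : Env => obfT μ s N δ B b j C D h ψ t e y (η, A)) (law μ) :=
  Integrable.of_bound ((meas_obfT H HK δ B C D t e y).comp (meas_pair A)).aestronglyMeasurable (ET.bd bb (e (flp j A)))
    (Filter.Eventually.of_forall fun η => by
      rw [Real.norm_eq_abs]
      exact obfT_bdd H δ B C D t e y (η, A))

/-- One pinned end, mean over the environment, two levels. -/
theorem one_intT {b j : ℕ} (hb : 0 < b) (hjN : j + b ≤ N) (H : ∀ i, CovM N b j (fun y ω => h y ω i) (bb i))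
    (HK : ∀ t, Cov1 N b j (fun y ω => ψ y ω t) (K t)) (C D : β → ℕ) (hC : ∀ i, C i ≤ j - b) (hD : ∀ i, j + b ≤ D i)
    (t : Finset ℕ → τ) (e : Finset ℕ → ET ι β τ) (δ B : ℝ) {y : ℕ} (hy : 1 ≤ y) (hyN : y < N) (A : Finset ℕ) {L : ℝ}
    (hL : ∀ A, Real.exp (2 * K (t A)) * (ET.li bb K (e A) + 2 * ET.bd bb (e A)) ≤ L) {M θ ε : ℝ}
    (hM : ∀ y ω, |obT μ s N C D h ψ t e y ω| ≤ M) (hM' : ∀ y ω, |obfT μ s N δ B b j C D h ψ t e y ω| ≤ M) (hθ : 0 ≤ θ)
    (p1 : (law μ).real {η | θ < clip μ s N δ B b j (sg A j) y η} ≤ ε)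
    (p2 : (law μ).real {η | θ < nok μ s N (j - b) (j + b - (j - b)) (-sg A j) (nb (sg A j) y) η} ≤ ε) :
    |∫ η, obfT μ s N δ B b j C D h ψ t e y (η, A) ∂(law μ) -
        ∫ η, obT μ s N C D h ψ t e (nb (sg A j) y) (η, flp j A) ∂(law μ)| ≤ 3 * L * θ + 4 * M * ε := by
  have hp0 := fun i => (H i).pos
  have m1 : Measurable fun η : Env => obfT μ s N δ B b j C D h ψ t e y (η, A) := (meas_obfT H HK δ B C D t e y).comp (meas_pair A)
  have m2 : Measurable fun η : Env => obT μ s N C D h ψ t e (nb (sg A j) y) (η, flp j A) :=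
    (meas_obT H HK C D t e _).comp (meas_pair _)
  have mps := mp_shj (μ := μ) (j : ℤ) (-sg A j)
  have ms : Measurable (shj (j : ℤ) (-sg A j)) := mps.measurable
  have m2' : Measurable fun η : Env => obT μ s N C D h ψ t e (nb (sg A j) y) (shj (j : ℤ) (-sg A j) η, flp j A) := m2.comp ms
  have m3 : Measurable fun η : Env => nok μ s N (j - b) (j + b - (j - b)) (-sg A j) (nb (sg A j) y) η := meas_nok _ _ _ _
  have m3' : Measurable fun η : Env => nok μ s N (j - b) (j + b - (j - b)) (-sg A j) (nb (sg A j) y) (shj (j : ℤ) (-sg A j) η) := m3.comp ms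
  have m4 : Measurable fun η : Env => clip μ s N δ B b j (sg A j) y η := meas_clip _ _ _ _ _ _
  have i1 := int_obfT (μ := μ) (s := s) H HK δ B C D t e y A
  have b2 : ∀ η, |obT μ s N C D h ψ t e (nb (sg A j) y) (shj (j : ℤ) (-sg A j) η, flp j A)| ≤ ET.bd bb (e (flp j A)) := fun η =>
    obT_bdd H C D t e _ (shj (j : ℤ) (-sg A j) η, flp j A)
  have i2 : Integrable (fun η : Env => obT μ s N C D h ψ t e (nb (sg A j) y) (shj (j : ℤ) (-sg A j) η, flp j A)) (law μ) :=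
    Integrable.of_bound m2'.aestronglyMeasurable (ET.bd bb (e (flp j A))) (Filter.Eventually.of_forall fun η => by
      rw [Real.norm_eq_abs]
      exact b2 η)
  have hpt : ∀ η, |obfT μ s N δ B b j C D h ψ t e y (η, A) - obT μ s N C D h ψ t e (nb (sg A j) y) (shj (j : ℤ) (-sg A j) η, flp j A)| ≤
      L * (clip μ s N δ B b j (sg A j) y η + 2 * nok μ s N (j - b) (j + b - (j - b)) (-sg A j) (nb (sg A j) y) (shj (j : ℤ) (-sg A j) η)) :=
    fun η => one_endT hb hjN H HK C D hC hD t e δ B hy hyN (η, A) hL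
  rw [← int_shj (μ := μ) (j : ℤ) (-sg A j) m2, ← integral_sub i1 i2]
  have hL0 : 0 ≤ L := by
    have h1 := hL ∅
    have h2 := ET.bd_nonneg hp0 (e ∅)
    have h3 := ET.li_nonneg hp0 K (e ∅)
    have h4 := (Real.exp_pos (2 * K (t ∅))).le
    have h5 : 0 ≤ Real.exp (2 * K (t ∅)) * (ET.li bb K (e ∅) + 2 * ET.bd bb (e ∅)) := by positivity
    linarith
  have hM0 : 0 ≤ M := (abs_nonneg _).trans (hM 0 (fun _ => 0, ∅))
  have p2' : (law μ).real {η | θ < nok μ s N (j - b) (j + b - (j - b)) (-sg A j) (nb (sg A j) y) (shj (j : ℤ) (-sg A j) η)} ≤ ε := by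
    have e1 := mps.measureReal_preimage (s := {η | θ < nok μ s N (j - b) (j + b - (j - b)) (-sg A j) (nb (sg A j) y) η})
      (measurableSet_lt measurable_const m3).nullMeasurableSet
    rw [← e1] at p2
    exact p2
  have hfin := int_lev (μ := μ) (f := fun η => obfT μ s N δ B b j C D h ψ t e y (η, A) -
      obT μ s N C D h ψ t e (nb (sg A j) y) (shj (j : ℤ) (-sg A j) η, flp j A)) (m1.sub m2') m4 m3' hL0 (K := 2 * M) (by linarith) hθ hpt
    (fun η => by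
      have h1 := hM' y (η, A)
      have h2 := hM (nb (sg A j) y) (shj (j : ℤ) (-sg A j) η, flp j A)
      have h4 := abs_sub (obfT μ s N δ B b j C D h ψ t e y (η, A)) (obT μ s N C D h ψ t e (nb (sg A j) y) (shj (j : ℤ) (-sg A j) η, flp j A))
      linarith) p1 p2'
  refine hfin.trans (le_of_eq ?_)
  ring

variable {b j : ℕ} {δ B : ℝ} {L M : ℝ} {y₀ m : ℕ}

/-- **THE LAW INVARIANCE, SEVERAL REPLICAS AND SEVERAL WEIGHTS**, two levels. -/
theorem law_levT (hb : 0 < b) (hj : j + b ≤ N) (H : ∀ i, CovM N b j (fun y ω => h y ω i) (bb i))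
    (HK : ∀ t, Cov1 N b j (fun y ω => ψ y ω t) (K t)) (C D : β → ℕ)
    (hC : ∀ i, C i ≤ j - b) (hD : ∀ i, j + b ≤ D i) (t : Finset ℕ → τ) (e : Finset ℕ → ET ι β τ)
    (hL : ∀ A, Real.exp (2 * K (t A)) * (ET.li bb K (e A) + 2 * ET.bd bb (e A)) ≤ L) (hM : ∀ y ω, |obT μ s N C D h ψ t e y ω| ≤ M)
    (hM' : ∀ y ω, |obfT μ s N δ B b j C D h ψ t e y ω| ≤ M) (hy : 1 ≤ y₀) (hm : 1 ≤ m)
    (hyN : y₀ + m ≤ N) {θ ε : ℝ} (hE : FErr2 μ s N δ B b j y₀ m θ ε) :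
    |(m : ℝ)⁻¹ * ∑ y ∈ Ico y₀ (y₀ + m), ∫ ω, (obT μ s N C D h ψ t e y ω - obfT μ s N δ B b j C D h ψ t e y ω) ∂(Pm μ N)| ≤
      2 * M / m + (3 * L * θ + 4 * M * ε) := by
  have hjN : j < N := by omega
  have i1 := fun y A => int_obT (μ := μ) (s := s) H HK C D t e y A
  have i2 := fun y A => int_obfT (μ := μ) (s := s) H HK δ B C D t e y A
  have e1 : ∀ y, ∫ ω, (obT μ s N C D h ψ t e y ω - obfT μ s N δ B b j C D h ψ t e y ω) ∂(Pm μ N) =
      (2 ^ N : ℝ)⁻¹ * ∑ A ∈ (range N).powerset, (∫ η, obT μ s N C D h ψ t e y (η, A) ∂(law μ) -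
        ∫ η, obfT μ s N δ B b j C D h ψ t e y (η, A) ∂(law μ)) := by
    intro y
    rw [int_Pm (Φ := fun ω => obT μ s N C D h ψ t e y ω - obfT μ s N δ B b j C D h ψ t e y ω) (fun A _ => (i1 y A).sub (i2 y A))
      fun A => ((meas_obT H HK C D t e y).sub (meas_obfT H HK δ B C D t e y)).comp (meas_pair A)]
    congr 1
    exact sum_congr rfl fun A _ => integral_sub (i1 y A) (i2 y A)
  simp only [e1]
  exact pin_even hjN (F := fun A y => ∫ η, obT μ s N C D h ψ t e y (η, A) ∂(law μ))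
    (Fl := fun A y => ∫ η, obfT μ s N δ B b j C D h ψ t e y (η, A) ∂(law μ)) (M := M) (e := 3 * L * θ + 4 * M * ε)
    (fun A y => abs_int_le fun η => hM y (η, A)) hy hm fun A _ y hy' => by
      have hy2 := mem_Ico.1 hy'
      exact one_intT hb hj H HK C D hC hD t e δ B (by omega) (by omega) A hL hM hM' hE.th (hE.clip A y hy') (hE.nok A y hy')

end Law

end

end Pool.Agent.W_7d29a1_C0.FlipR4
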