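import Pool.Agent.W_7d29a1_C0.FlipR4B

/-!
CURV0 (MP_7d29a1_pr), E7, SEVERAL REPLICAS AND SEVERAL WEIGHTS: constructors. `TRep`: functionals of the signs, of a base weight and of the
replicas, given by an expression with tilts; `TRep.law`: the law invariance for them. The base weight is the actual weight `wm` resp. the
flipped weight `wt .. (-a)`; inside of the functional every weight `base + ψ` may occur, `ψ` covariant. (helper4)
-/

set_option autoImplicit false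
set_option linter.unusedSectionVars false
set_option linter.unusedVariables false

namespace Pool.Agent.W_7d29a1_C0.FlipR4

open Pool.Agent.W_7d29a1_F hiding W_pos W_nonneg W_add
open Finset MeasureTheory Pool.Agent.W_7d29a1_X Pool.Agent.W_7d29a1_HZ
open Pool.Agent.W_7d29a1_Z74
open Pool.Agent.W_7d29a1_HZ.Z74
open Pool.Agent.W_7d29a1_C0.Mod92
open Pool.Agent.W_7d29a1_C0.Blk18
open Pool.Agent.W_7d29a1_C0.Pin18
open Pool.Agent.W_7d29a1_C0.Flip61
open Pool.W7d29a1.C0 (gz gm gz_pos gz_ne gm_const gm_mono gm_nonneg gm_sub)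
open Pool.W7d29a1.C0.VT31 (Mp Crs cE cV cC gc gv)

noncomputable section

variable {μ : Measure ℝ} {s : ℝ} {N b j : ℕ}

/-! ### Tilts -/

/-- A bundled tilt: a covariant function of one replica. -/
structure CovW (N b j : ℕ) where
  /-- the function -/
  F : (y : ℕ) → Env × Finset ℕ → Px (Pn N y) → ℝ
  /-- its bound -/
  K : ℝ
  cov : Cov1 N b j F K

/-- No tilt. -/
def zT : CovW N b j where
  F _ _ := 0
  K := 0
  cov := by
    have h := Cov1.const (N := N) (b := b) (j := j) 0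
    rw [abs_zero] at h
    exact h

/-- The tilt `c` times the response of the row `j` (base `b₁ ≥ b`). -/
def gT (μ : Measure ℝ) (s : ℝ) (δ : ℝ) {B : ℝ} (hB : 0 ≤ B) {b₁ : ℕ} (hb : b ≤ b₁) (c : ℝ) : CovW N b j where
  F _ ω := c • gj μ s ω.1 δ B b₁ j (sg ω.2 j)
  K := |c| * (B / 2)
  cov := by
    have h := cov_gj' (μ := μ) (s := s) (N := N) (j := j) hb δ hB
    exact ⟨by positivity, fun y ω S => by
      show |c * gj μ s ω.1 δ B b₁ j (sg ω.2 j) S| ≤ |c| * (B / 2)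
      rw [abs_mul]
      exact mul_le_mul_of_nonneg_left (h.bdd y ω S) (abs_nonneg c), fun y S => (h.mes y S).const_mul c,
      fun y ω S S' e => congrArg (fun x => c * x) (h.mp y ω S S' e),
      fun y h1 h2 ω S S' e => congrArg (fun x => c * x) (h.eqv y h1 h2 ω S S' e)⟩

/-- The functionals. -/
abbrev Fnl (N : ℕ) := (y : ℕ) → Env × Finset ℕ → Finset ℕ → (Px (Pn N y) → ℝ) → (ℕ → Px (Pn N y)) → ℝ

/-- The expressions of the model. -/
abbrev EM (N b j : ℕ) := ET (CovF N b j) (Blk b j) (CovW N b j)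

/-- The value of an expression of the model. -/
def vM (e : EM N b j) (y : ℕ) (ω : Env × Finset ℕ) (w : Px (Pn N y) → ℝ) (ρ : ℕ → Px (Pn N y)) : ℝ :=
  ET.evX w (fun i : CovF N b j => i.F y ω) (fun k : CovW N b j => k.F y ω) (fun k : Blk b j => pJ k.c k.d) e ρ

/-- **Functionals given by an expression with tilts**; bound `M`, Lipschitz constant `L`. -/
def TRep (μ : Measure ℝ) (s : ℝ) (N : ℕ) (δ B : ℝ) (b j : ℕ) (G : Fnl N) (M L : ℝ) : Prop :=
  ∃ e : Finset ℕ → EM N b j, (∀ A, ET.bd CovF.M (e A) ≤ M) ∧ (∀ A, ET.li CovF.M CovW.K (e A) ≤ L) ∧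
    ∀ (y : ℕ) (ω : Env × Finset ℕ) (A : Finset ℕ) (t : ℝ) (ρ : ℕ → Px (Pn N y)),
      G y ω A (wg μ s N δ B b j y ω t) ρ = vM (e A) y ω (wg μ s N δ B b j y ω t) ρ

namespace TRep

variable {δ B : ℝ} {G H : Fnl N} {M M' L L' : ℝ}

theorem posM (i : CovF N b j) : 0 ≤ i.M := i.cov.pos

theorem mono (h : TRep μ s N δ B b j G M L) (hM : M ≤ M') (hL : L ≤ L') : TRep μ s N δ B b j G M' L' := by
  obtain ⟨e, h2, h3, h4⟩ := h
  exact ⟨e, fun A => (h2 A).trans hM, fun A => (h3 A).trans hL, h4⟩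

/-- The values at the weights `wg` matter only. -/
theorem congr (h : TRep μ s N δ B b j G M L)
    (e : ∀ y ω A t ρ, H y ω A (wg μ s N δ B b j y ω t) ρ = G y ω A (wg μ s N δ B b j y ω t) ρ) : TRep μ s N δ B b j H M L := by
  obtain ⟨e', h2, h3, h4⟩ := h
  exact ⟨e', h2, h3, fun y ω A t ρ => (e y ω A t ρ).trans (h4 y ω A t ρ)⟩

theorem nonneg (h : TRep μ s N δ B b j G M L) : 0 ≤ M ∧ 0 ≤ L := by
  obtain ⟨e, h2, h3, _⟩ := h
  exact ⟨(ET.bd_nonneg posM (e ∅)).trans (h2 ∅), (ET.li_nonneg posM CovW.K (e ∅)).trans (h3 ∅)⟩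

theorem bdd (h : TRep μ s N δ B b j G M L) (y : ℕ) (ω : Env × Finset ℕ) (A : Finset ℕ) (t : ℝ) (ρ : ℕ → Px (Pn N y)) :
    |G y ω A (wg μ s N δ B b j y ω t) ρ| ≤ M := by
  obtain ⟨e, h2, h3, h4⟩ := h
  have n1 : Nonempty (Px (Pn N y)) := ⟨ρ 0⟩
  rw [h4]
  exact (ET.evX_bdd _ _ _ posM (fun (i : CovF N b j) ρ => i.cov.bdd y ω ρ) _ _).trans (h2 A)

/-- A given function. -/
theorem fn {F : (y : ℕ) → Env × Finset ℕ → (ℕ → Px (Pn N y)) → ℝ} (h : CovM N b j F M) :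
    TRep μ s N δ B b j (fun y ω _ _ ρ => F y ω ρ) M 0 :=
  ⟨fun _ => ET.fn ⟨F, M, h⟩, fun _ => le_rfl, fun _ => le_rfl, fun _ _ _ _ _ => rfl⟩

/-- A given function which depends on the signs `A`. -/
theorem fnA {F : Finset ℕ → (y : ℕ) → Env × Finset ℕ → (ℕ → Px (Pn N y)) → ℝ} (h : ∀ A, CovM N b j (F A) M) :
    TRep μ s N δ B b j (fun y ω A _ ρ => F A y ω ρ) M 0 :=
  ⟨fun A => ET.fn ⟨F A, M, h A⟩, fun _ => le_rfl, fun _ => le_rfl, fun _ _ _ _ _ => rfl⟩

theorem of_cov {F : (y : ℕ) → Env × Finset ℕ → (ℕ → Px (Pn N y)) → ℝ} (h : CovM N b j F M)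
    (hG : ∀ y ω A t ρ, G y ω A (wg μ s N δ B b j y ω t) ρ = F y ω ρ) : TRep μ s N δ B b j G M 0 := (fn h).congr hG

theorem cst (r : ℝ) : TRep μ s N δ B b j (fun _ _ _ _ _ => r) |r| 0 :=
  ⟨fun _ => ET.cst r, fun _ => le_rfl, fun _ => le_rfl, fun _ _ _ _ _ => rfl⟩

/-- A constant which depends on the signs. -/
theorem cstA (r : Finset ℕ → ℝ) (hr : ∀ A, |r A| ≤ M) : TRep μ s N δ B b j (fun _ _ A _ _ => r A) M 0 :=
  ⟨fun A => ET.cst (r A), hr, fun _ => le_rfl, fun _ _ _ _ _ => rfl⟩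

theorem add (h : TRep μ s N δ B b j G M L) (k : TRep μ s N δ B b j H M' L') :
    TRep μ s N δ B b j (fun y ω A w ρ => G y ω A w ρ + H y ω A w ρ) (M + M') (L + L') := by
  obtain ⟨e, h2, h3, h4⟩ := h
  obtain ⟨e', k2, k3, k4⟩ := k
  refine ⟨fun A => ET.add (e A) (e' A), fun A => add_le_add (h2 A) (k2 A), fun A => add_le_add (h3 A) (k3 A), fun y ω A t ρ => ?_⟩
  show _ = vM (e A) y ω _ ρ + vM (e' A) y ω _ ρ
  rw [← h4, ← k4]

theorem mul (h : TRep μ s N δ B b j G M L) (k : TRep μ s N δ B b j H M' L') :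
    TRep μ s N δ B b j (fun y ω A w ρ => G y ω A w ρ * H y ω A w ρ) (M * M') (M' * L + M * L') := by
  have hn := h.nonneg
  have kn := k.nonneg
  obtain ⟨e, h2, h3, h4⟩ := h
  obtain ⟨e', k2, k3, k4⟩ := k
  refine ⟨fun A => ET.mul (e A) (e' A), fun A => mul_le_mul (h2 A) (k2 A) (ET.bd_nonneg posM _) hn.1,
    fun A => add_le_add (mul_le_mul (k2 A) (h3 A) (ET.li_nonneg posM _ _) kn.1) (mul_le_mul (h2 A) (k3 A) (ET.li_nonneg posM _ _) hn.1),
    fun y ω A t ρ => ?_⟩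
  show _ = vM (e A) y ω _ ρ * vM (e' A) y ω _ ρ
  rw [← h4, ← k4]

theorem smul (r : ℝ) (h : TRep μ s N δ B b j G M L) : TRep μ s N δ B b j (fun y ω A w ρ => r * G y ω A w ρ) (|r| * M) (|r| * L) := by
  have h1 := (cst (μ := μ) (s := s) (N := N) (δ := δ) (B := B) (b := b) (j := j) r).mul h
  refine h1.mono le_rfl (le_of_eq ?_)
  ring

theorem sub (h : TRep μ s N δ B b j G M L) (k : TRep μ s N δ B b j H M' L') :
    TRep μ s N δ B b j (fun y ω A w ρ => G y ω A w ρ - H y ω A w ρ) (M + M') (L + L') := by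
  have h1 := h.add (k.smul (-1))
  refine (h1.mono (by rw [abs_neg, abs_one, one_mul]) (by rw [abs_neg, abs_one, one_mul])).congr fun y ω A t ρ => ?_
  ring

theorem lf (φ : LipF) (h : TRep μ s N δ B b j G M L) : TRep μ s N δ B b j (fun y ω A w ρ => φ.f (G y ω A w ρ)) φ.M (φ.Λ * L) := by
  obtain ⟨e, _, h3, h4⟩ := h
  refine ⟨fun A => ET.lf φ (e A), fun _ => le_rfl, fun A => mul_le_mul_of_nonneg_left (h3 A) φ.hΛ0, fun y ω A t ρ => ?_⟩
  show _ = φ.f (vM (e A) y ω _ ρ)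
  rw [← h4]

theorem sum {I : Type*} (S : Finset I) {G : I → Fnl N} {M L : I → ℝ} (h : ∀ i ∈ S, TRep μ s N δ B b j (G i) (M i) (L i)) :
    TRep μ s N δ B b j (fun y ω A w ρ => ∑ i ∈ S, G i y ω A w ρ) (∑ i ∈ S, M i) (∑ i ∈ S, L i) := by
  classical
  induction S using Finset.induction_on with
  | empty =>
    have h1 := cst (μ := μ) (s := s) (N := N) (δ := δ) (B := B) (b := b) (j := j) 0
    rw [abs_zero] at h1
    simpa using h1
  | insert i S hi ih =>
    have h1 := (h i (mem_insert_self i S)).add (ih fun k hk => h k (mem_insert_of_mem hk))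
    rw [sum_insert hi, sum_insert hi]
    refine h1.congr fun y ω A t ρ => ?_
    rw [sum_insert hi]

/-- Products of functionals bounded by one. -/
theorem prod {I : Type*} (S : Finset I) {G : I → Fnl N} {L : I → ℝ} (h : ∀ i ∈ S, TRep μ s N δ B b j (G i) 1 (L i)) :
    TRep μ s N δ B b j (fun y ω A w ρ => ∏ i ∈ S, G i y ω A w ρ) 1 (∑ i ∈ S, L i) := by
  classical
  induction S using Finset.induction_on with
  | empty =>
    have h1 := cst (μ := μ) (s := s) (N := N) (δ := δ) (B := B) (b := b) (j := j) 1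
    rw [abs_one] at h1
    simpa using h1
  | insert i S hi ih =>
    have h1 := (h i (mem_insert_self i S)).mul (ih fun k hk => h k (mem_insert_of_mem hk))
    rw [sum_insert hi]
    refine (h1.mono (by norm_num) (le_of_eq (by ring))).congr fun y ω A t ρ => ?_
    rw [prod_insert hi]

/-- **The tilted mean over a new replica given the outside of a block which contains the window.** -/
theorem ceT {c d : ℕ} (hc : c ≤ j - b) (hd : j + b ≤ d) (n : ℕ) (ψ : Finset ℕ → CovW N b j) {K : ℝ} (hK : ∀ A, (ψ A).K ≤ K)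
    (h : TRep μ s N δ B b j G M L) :
    TRep μ s N δ B b j (fun y ω A w ρ => cE (w + (ψ A).F y ω) (pJ c d) (fun z => G y ω A w (cns z ρ)) (ρ n)) M
      (Real.exp (2 * K) * (L + 2 * M)) := by
  obtain ⟨e, h2, h3, h4⟩ := h
  refine ⟨fun A => ET.ce ⟨c, d, hc, hd⟩ (ψ A) n (e A), h2, fun A => ?_, fun y ω A t ρ => ?_⟩
  · have h5 := ET.bd_nonneg posM (e A)
    have h6 := ET.li_nonneg posM CovW.K (e A)
    exact mul_le_mul (Real.exp_le_exp.2 (by linarith [hK A])) (by linarith [h2 A, h3 A]) (by positivity) (Real.exp_pos _).le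
  · show _ = cE _ (pJ c d) (fun z => vM (e A) y ω _ (cns z ρ)) (ρ n)
    simp only [← h4]

/-- **The tilted mean over a new free replica.** -/
theorem meT (ψ : Finset ℕ → CovW N b j) {K : ℝ} (hK : ∀ A, (ψ A).K ≤ K) (h : TRep μ s N δ B b j G M L) :
    TRep μ s N δ B b j (fun y ω A w ρ => gm (w + (ψ A).F y ω) fun z => G y ω A w (cns z ρ)) M (Real.exp (2 * K) * (L + 2 * M)) := by
  obtain ⟨e, h2, h3, h4⟩ := h
  refine ⟨fun A => ET.me (ψ A) (e A), h2, fun A => ?_, fun y ω A t ρ => ?_⟩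
  · have h5 := ET.bd_nonneg posM (e A)
    have h6 := ET.li_nonneg posM CovW.K (e A)
    exact mul_le_mul (Real.exp_le_exp.2 (by linarith [hK A])) (by linarith [h2 A, h3 A]) (by positivity) (Real.exp_pos _).le
  · show _ = gm _ fun z => vM (e A) y ω _ (cns z ρ)
    simp only [← h4]

/-- The mean over a new replica given the outside of a block which contains the window. -/
theorem ce {c d : ℕ} (hc : c ≤ j - b) (hd : j + b ≤ d) (n : ℕ) (h : TRep μ s N δ B b j G M L) :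
    TRep μ s N δ B b j (fun y ω A w ρ => cE w (pJ c d) (fun z => G y ω A w (cns z ρ)) (ρ n)) M (L + 2 * M) := by
  have h1 := ceT hc hd n (fun _ => zT) (K := 0) (fun _ => le_rfl) h
  rw [mul_zero, Real.exp_zero, one_mul] at h1
  refine h1.congr fun y ω A t ρ => ?_
  have e1 : wg μ s N δ B b j y ω t + (zT (N := N) (b := b) (j := j)).F y ω = wg μ s N δ B b j y ω t := add_zero _
  rw [e1]

/-- The mean over a new free replica. -/
theorem me (h : TRep μ s N δ B b j G M L) :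
    TRep μ s N δ B b j (fun y ω A w ρ => gm w fun z => G y ω A w (cns z ρ)) M (L + 2 * M) := by
  have h1 := meT (fun _ => zT) (K := 0) (fun _ => le_rfl) h
  rw [mul_zero, Real.exp_zero, one_mul] at h1
  refine h1.congr fun y ω A t ρ => ?_
  have e1 : wg μ s N δ B b j y ω t + (zT (N := N) (b := b) (j := j)).F y ω = wg μ s N δ B b j y ω t := add_zero _
  rw [e1]

/-- Masses of a kernel of two replicas, tilted. -/
theorem massT {K' : (y : ℕ) → Env × Finset ℕ → Px (Pn N y) → Px (Pn N y) → ℝ} (H : CovM N b j (fun y ω ρ => K' y ω (ρ 0) (ρ 1)) M)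
    {c d : ℕ} (hc : c ≤ j - b) (hd : j + b ≤ d) (n : ℕ) (ψ : Finset ℕ → CovW N b j) {K : ℝ} (hK : ∀ A, (ψ A).K ≤ K) :
    TRep μ s N δ B b j (fun y ω A w ρ => cE (w + (ψ A).F y ω) (pJ c d) (K' y ω (ρ n)) (ρ n)) M (Real.exp (2 * K) * (2 * M)) := by
  have h1 : TRep μ s N δ B b j (fun y ω _ _ ρ => K' y ω (ρ (n + 1)) (ρ 0)) M 0 := fn (H.swap (n + 1) 0)
  have h2 := ceT hc hd n ψ hK h1
  rw [zero_add] at h2
  exact h2

theorem mass {K' : (y : ℕ) → Env × Finset ℕ → Px (Pn N y) → Px (Pn N y) → ℝ} (H : CovM N b j (fun y ω ρ => K' y ω (ρ 0) (ρ 1)) M)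
    {c d : ℕ} (hc : c ≤ j - b) (hd : j + b ≤ d) (n : ℕ) :
    TRep μ s N δ B b j (fun y ω A w ρ => cE w (pJ c d) (K' y ω (ρ n)) (ρ n)) M (2 * M) := by
  have h1 : TRep μ s N δ B b j (fun y ω _ _ ρ => K' y ω (ρ (n + 1)) (ρ 0)) M 0 := fn (H.swap (n + 1) 0)
  have h2 := ce hc hd n h1
  rw [zero_add] at h2
  exact h2

/-- Masses of a kernel of two new replicas, given the replicas `n`, `n'`, conditions which may be different, tilted. -/
theorem mass2T {K' : (y : ℕ) → Env × Finset ℕ → Px (Pn N y) → Px (Pn N y) → ℝ} (H : CovM N b j (fun y ω ρ => K' y ω (ρ 0) (ρ 1)) M)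
    {c d c' d' : ℕ} (hc : c ≤ j - b) (hd : j + b ≤ d) (hc' : c' ≤ j - b) (hd' : j + b ≤ d') (n n' : ℕ) (ψ : Finset ℕ → CovW N b j) {K : ℝ}
    (hK0 : 0 ≤ K) (hK : ∀ A, (ψ A).K ≤ K) :
    TRep μ s N δ B b j (fun y ω A w ρ => cE (w + (ψ A).F y ω) (pJ c d)
      (fun z => cE (w + (ψ A).F y ω) (pJ c' d') (K' y ω z) (ρ n')) (ρ n)) M (Real.exp (4 * K) * (4 * M)) := by
  have hM := H.pos
  have h1 : TRep μ s N δ B b j (fun y ω _ _ ρ => K' y ω (ρ 1) (ρ 0)) M 0 := fn (H.swap 1 0)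
  have h2 := ceT hc' hd' (n' + 1) ψ hK h1
  have h3 := ceT hc hd n ψ hK h2
  refine h3.mono le_rfl ?_
  have e1 : 1 ≤ Real.exp (2 * K) := Real.one_le_exp (by linarith)
  have e2 : Real.exp (4 * K) = Real.exp (2 * K) * Real.exp (2 * K) := by
    rw [← Real.exp_add]
    congr 1
    ring
  rw [e2, zero_add]
  have e3 : Real.exp (2 * K) * (2 * M) + 2 * M ≤ Real.exp (2 * K) * (4 * M) := by
    have := mul_le_mul_of_nonneg_right e1 (show 0 ≤ 2 * M by linarith)
    linarith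
  calc Real.exp (2 * K) * (Real.exp (2 * K) * (2 * M) + 2 * M) ≤ Real.exp (2 * K) * (Real.exp (2 * K) * (4 * M)) :=
        mul_le_mul_of_nonneg_left e3 (Real.exp_pos _).le
    _ = _ := by ring

/-- The mass of a kernel over two replicas in the same class. -/
theorem cE2 {K' : (y : ℕ) → Env × Finset ℕ → Px (Pn N y) → Px (Pn N y) → ℝ} (H : CovM N b j (fun y ω ρ => K' y ω (ρ 0) (ρ 1)) M)
    {c d : ℕ} (hc : c ≤ j - b) (hd : j + b ≤ d) (n n' : ℕ) :
    TRep μ s N δ B b j (fun y ω A w ρ => Swap57.cE2 w (pJ c d) (K' y ω) (ρ n) (ρ n')) M (4 * M) := by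
  have h1 : TRep μ s N δ B b j (fun y ω _ _ ρ => K' y ω (ρ 1) (ρ 0)) M 0 := fn (H.swap 1 0)
  have h2 := ce hc hd (n' + 1) h1
  have h3 := ce hc hd n h2
  exact h3.mono le_rfl (by linarith)

end TRep

/-! ### From `Rep` -/

/-- The expression without tilts. -/
def trM (z : CovW N b j) : ExM (CovF N b j) (Blk b j) → EM N b j
  | .fn i => .fn i
  | .cst c => .cst c
  | .add e e' => .add (trM z e) (trM z e')
  | .mul e e' => .mul (trM z e) (trM z e')
  | .lf φ e => .lf φ (trM z e)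
  | .ce k n e => .ce k z n (trM z e)
  | .me e => .me z (trM z e)

theorem bd_trM (z : CovW N b j) : ∀ e : ExM (CovF N b j) (Blk b j), ET.bd CovF.M (trM z e) = ExM.bd CovF.M e
  | .fn _ => rfl
  | .cst _ => rfl
  | .add e e' => by
    show ET.bd _ (trM z e) + ET.bd _ (trM z e') = ExM.bd _ e + ExM.bd _ e'
    rw [bd_trM z e, bd_trM z e']
  | .mul e e' => by
    show ET.bd _ (trM z e) * ET.bd _ (trM z e') = ExM.bd _ e * ExM.bd _ e'
    rw [bd_trM z e, bd_trM z e']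
  | .lf _ _ => rfl
  | .ce _ _ e => bd_trM z e
  | .me e => bd_trM z e

theorem li_trM (z : CovW N b j) (hz : z.K = 0) : ∀ e : ExM (CovF N b j) (Blk b j),
    ET.li CovF.M CovW.K (trM z e) ≤ 2 * ExM.li CovF.M e
  | .fn _ => le_of_eq (mul_zero 2).symm
  | .cst _ => le_of_eq (mul_zero 2).symm
  | .add e e' => by
    show ET.li _ _ (trM z e) + ET.li _ _ (trM z e') ≤ 2 * (ExM.li _ e + ExM.li _ e')
    have := li_trM z hz e
    have := li_trM z hz e'
    linarith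
  | .mul e e' => by
    have p1 := ExM.bd_nonneg Rep.posM e
    have p2 := ExM.bd_nonneg Rep.posM e'
    have h1 := mul_le_mul_of_nonneg_left (li_trM z hz e) p2
    have h2 := mul_le_mul_of_nonneg_left (li_trM z hz e') p1
    show ET.bd _ (trM z e') * ET.li _ _ (trM z e) + ET.bd _ (trM z e) * ET.li _ _ (trM z e') ≤
      2 * (ExM.bd _ e' * ExM.li _ e + ExM.bd _ e * ExM.li _ e')
    rw [bd_trM, bd_trM]
    linarith
  | .lf φ e => by
    have h1 := mul_le_mul_of_nonneg_left (li_trM z hz e) φ.hΛ0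
    show φ.Λ * ET.li _ _ (trM z e) ≤ 2 * (φ.Λ * ExM.li _ e)
    linarith
  | .ce _ _ e => by
    have h1 := li_trM z hz e
    have p1 := ExM.bd_nonneg Rep.posM e
    show Real.exp (2 * z.K) * (ET.li _ _ (trM z e) + 2 * ET.bd _ (trM z e)) ≤ 2 * (ExM.li _ e + 2 * ExM.bd _ e)
    rw [hz, mul_zero, Real.exp_zero, one_mul, bd_trM]
    linarith
  | .me e => by
    have h1 := li_trM z hz e
    show Real.exp (2 * z.K) * (ET.li _ _ (trM z e) + 2 * ET.bd _ (trM z e)) ≤ 2 * (ExM.li _ e + ExM.bd _ e)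
    rw [hz, mul_zero, Real.exp_zero, one_mul, bd_trM]
    linarith

theorem ev_trM (y : ℕ) (ω : Env × Finset ℕ) (w : Px (Pn N y) → ℝ) : ∀ (e : ExM (CovF N b j) (Blk b j)) (ρ : ℕ → Px (Pn N y)),
    vM (trM zT e) y ω w ρ = ExM.evX w (fun i : CovF N b j => i.F y ω) (fun k : Blk b j => pJ k.c k.d) e ρ
  | .fn _, _ => rfl
  | .cst _, _ => rfl
  | .add e e', ρ => by
    show vM (trM zT e) y ω w ρ + vM (trM zT e') y ω w ρ = ExM.evX _ _ _ e ρ + ExM.evX _ _ _ e' ρ
    rw [ev_trM y ω w e, ev_trM y ω w e']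
  | .mul e e', ρ => by
    show vM (trM zT e) y ω w ρ * vM (trM zT e') y ω w ρ = ExM.evX _ _ _ e ρ * ExM.evX _ _ _ e' ρ
    rw [ev_trM y ω w e, ev_trM y ω w e']
  | .lf φ e, ρ => by
    show φ.f (vM (trM zT e) y ω w ρ) = φ.f (ExM.evX _ _ _ e ρ)
    rw [ev_trM y ω w e]
  | .ce k n e, ρ => by
    show cE (w + 0) (pJ k.c k.d) (fun z => vM (trM zT e) y ω w (cns z ρ)) (ρ n) = cE w (pJ k.c k.d) (fun z => ExM.evX _ _ _ e (cns z ρ)) (ρ n)
    rw [add_zero]
    simp only [ev_trM y ω w e]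
  | .me e, ρ => by
    show gm (w + 0) (fun z => vM (trM zT e) y ω w (cns z ρ)) = gm w (fun z => ExM.evX _ _ _ e (cns z ρ))
    rw [add_zero]
    simp only [ev_trM y ω w e]

/-- **Functionals of helper61's kind.** -/
theorem TRep.of_rep {δ B : ℝ} {a : ℕ} {G : (y : ℕ) → Env × Finset ℕ → (Px (Pn N y) → ℝ) → (ℕ → Px (Pn N y)) → ℝ} {M L : ℝ}
    (h : Rep μ s N δ B b j a G M L) : TRep μ s N δ B b j (fun y ω _ w ρ => G y ω w ρ) M (2 * L) := by
  obtain ⟨e, _, h2, h3, h4⟩ := h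
  refine ⟨fun _ => trM zT e, fun _ => by rw [bd_trM]; exact h2, fun _ => (li_trM zT rfl e).trans (by linarith), fun y ω A t ρ => ?_⟩
  show G y ω (wg μ s N δ B b j y ω t) ρ = vM (trM zT e) y ω (wg μ s N δ B b j y ω t) ρ
  rw [h4, ev_trM]

/-! ### The law invariance -/

/-- The flipped weight. -/
def wf (μ : Measure ℝ) (s : ℝ) (N : ℕ) (δ B : ℝ) (b j y : ℕ) (ω : Env × Finset ℕ) : Px (Pn N y) → ℝ :=
  wt μ s ω.1 N (Pn N y) δ B b j (sg ω.2 j) (-(sg ω.2 j : ℝ))

theorem wf_eq (δ B : ℝ) (y : ℕ) (ω : Env × Finset ℕ) : wf μ s N δ B b j y ω = wg μ s N δ B b j y ω (-(sg ω.2 j : ℝ) - sg ω.2 j) := rfl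

/-- The weight of the tilt `t` over the actual weight. -/
theorem wm_tilt (δ B : ℝ) (y : ℕ) (ω : Env × Finset ℕ) (t : ℝ) :
    wm μ s N (Pn N y) ω + (t - sg ω.2 j) • gj μ s ω.1 δ B b j (sg ω.2 j) = wt μ s ω.1 N (Pn N y) δ B b j (sg ω.2 j) t := rfl

/-- The same weight over the flipped weight. -/
theorem wf_tilt (δ B : ℝ) (y : ℕ) (ω : Env × Finset ℕ) (t : ℝ) :
    wf μ s N δ B b j y ω + (t - sg (flp j ω.2) j) • gj μ s ω.1 δ B b j (sg ω.2 j) = wt μ s ω.1 N (Pn N y) δ B b j (sg ω.2 j) t := by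
  unfold wf wt
  rw [sg_flp, add_assoc, ← add_smul]
  congr 2
  push_cast
  ring

namespace TRep

variable {δ B : ℝ} {G : Fnl N} {M L : ℝ}

/-- Measurability, the weight and the signs may be changed. -/
theorem meas (h : TRep μ s N δ B b j G M L) (α : Finset ℕ → Finset ℕ) (τ : Finset ℕ → ℝ) (y : ℕ) (ρ : ℕ → Px (Pn N y)) :
    Measurable fun ω => G y ω (α ω.2) (wg μ s N δ B b j y ω (τ ω.2)) ρ := by
  have n1 : Nonempty (Px (Pn N y)) := ⟨ρ 0⟩
  obtain ⟨e, h2, h3, h4⟩ := h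
  simp only [h4]
  refine meas_om fun A => ?_
  have hA : Measurable fun η : Env => (η, A) := meas_pair A
  have hw : ∀ S : Px (Pn N y), Measurable fun η : Env => wg μ s N δ B b j y (η, A) (τ A) S := fun S =>
    (meas_lw S).add ((meas_gj δ B b j (sg A j) S).const_mul _)
  exact ET.meas_evX (w := fun η : Env => wg μ s N δ B b j y (η, A) (τ A)) (f := fun (η : Env) (i : CovF N b j) => i.F y (η, A))
    (ψ := fun (η : Env) (k : CovW N b j) => k.F y (η, A)) hw (fun i ρ => (i.cov.mes y ρ).comp hA)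
    (fun k S => (k.cov.mes y S).comp hA) (fun k : Blk b j => pJ k.c k.d) (e (α A)) ρ

theorem meas_wm (h : TRep μ s N δ B b j G M L) (y : ℕ) (ρ : ℕ → Px (Pn N y)) :
    Measurable fun ω => G y ω ω.2 (wm μ s N (Pn N y) ω) ρ := by
  have h1 := h.meas (fun A => A) (fun _ => 0) y ρ
  simp only [wg_zero] at h1
  exact h1

theorem meas_wf (h : TRep μ s N δ B b j G M L) (y : ℕ) (ρ : ℕ → Px (Pn N y)) :
    Measurable fun ω => G y ω (flp j ω.2) (wf μ s N δ B b j y ω) ρ :=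
  h.meas (fun A => flp j A) (fun A => -(sg A j : ℝ) - sg A j) y ρ

/-- **THE LAW INVARIANCE FOR FUNCTIONALS WITH TILTS.** -/
theorem law [IsProbabilityMeasure μ] (hb : 0 < b) (hj : j + b ≤ N) (h : TRep μ s N δ B b j G M L) (ψ : Finset ℕ → CovW N b j) {K : ℝ}
    (hK : ∀ A, (ψ A).K ≤ K) {y₀ m : ℕ} (hy : 1 ≤ y₀) (hm : 1 ≤ m)
    (hyN : y₀ + m ≤ N) {θ ε : ℝ} (hE : FErr2 μ s N δ B b j y₀ m θ ε) :
    (∀ y, Integrable (fun ω => gm (wm μ s N (Pn N y) ω + (ψ ω.2).F y ω) fun x => G y ω ω.2 (wm μ s N (Pn N y) ω) fun _ => x) (Pm μ N)) ∧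
    (∀ y, Integrable (fun ω => gm (wf μ s N δ B b j y ω + (ψ (flp j ω.2)).F y ω) fun x =>
      G y ω (flp j ω.2) (wf μ s N δ B b j y ω) fun _ => x) (Pm μ N)) ∧
    |avy (Ico y₀ (y₀ + m)) (fun y => ∫ ω, gm (wm μ s N (Pn N y) ω + (ψ ω.2).F y ω) (fun x =>
        G y ω ω.2 (wm μ s N (Pn N y) ω) fun _ => x) ∂(Pm μ N)) -
      avy (Ico y₀ (y₀ + m)) (fun y => ∫ ω, gm (wf μ s N δ B b j y ω + (ψ (flp j ω.2)).F y ω)
        (fun x => G y ω (flp j ω.2) (wf μ s N δ B b j y ω) fun _ => x) ∂(Pm μ N))| ≤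
      2 * M / m + (3 * (Real.exp (2 * K) * (L + 2 * M)) * θ + 4 * M * ε) := by
  obtain ⟨e, h2, h3, h4⟩ := h
  have e1 : ∀ (y : ℕ) (ω : Env × Finset ℕ), gm (wm μ s N (Pn N y) ω + (ψ ω.2).F y ω) (fun x =>
      G y ω ω.2 (wm μ s N (Pn N y) ω) fun _ => x) =
      obT μ s N (fun k : Blk b j => k.c) (fun k : Blk b j => k.d) (fun y ω (i : CovF N b j) => i.F y ω)
        (fun y ω (k : CovW N b j) => k.F y ω) ψ e y ω := by
    intro y ω
    unfold obT
    have := fun x => h4 y ω ω.2 0 fun _ => x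
    rw [wg_zero] at this
    simp only [this]
    rfl
  have e2 : ∀ (y : ℕ) (ω : Env × Finset ℕ), gm (wf μ s N δ B b j y ω + (ψ (flp j ω.2)).F y ω) (fun x =>
      G y ω (flp j ω.2) (wf μ s N δ B b j y ω) fun _ => x) =
      obfT μ s N δ B b j (fun k : Blk b j => k.c) (fun k : Blk b j => k.d) (fun y ω (i : CovF N b j) => i.F y ω)
        (fun y ω (k : CovW N b j) => k.F y ω) ψ e y ω := by
    intro y ω
    unfold obfT
    have := fun x => h4 y ω (flp j ω.2) (-(sg ω.2 j : ℝ) - sg ω.2 j) fun _ => x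
    rw [← wf_eq] at this
    simp only [this]
    rfl
  simp only [e1, e2]
  have hM0 : 0 ≤ M := (ET.bd_nonneg posM (e ∅)).trans (h2 ∅)
  have b1 := fun y ω => obT_bdd (μ := μ) (s := s) (N := N) (b := b) (j := j) (h := fun y ω (i : CovF N b j) => i.F y ω)
    (bb := CovF.M) (ψ := fun y ω (k : CovW N b j) => k.F y ω) (fun i => i.cov) (fun k : Blk b j => k.c) (fun k : Blk b j => k.d) ψ e y ω
  have b2 := fun y ω => obfT_bdd (μ := μ) (s := s) (N := N) (b := b) (j := j) (h := fun y ω (i : CovF N b j) => i.F y ω)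
    (bb := CovF.M) (ψ := fun y ω (k : CovW N b j) => k.F y ω) (fun i => i.cov) δ B (fun k : Blk b j => k.c) (fun k : Blk b j => k.d) ψ e y ω
  have m1 := fun y => meas_obT (μ := μ) (s := s) (N := N) (b := b) (j := j) (h := fun y ω (i : CovF N b j) => i.F y ω)
    (bb := CovF.M) (ψ := fun y ω (k : CovW N b j) => k.F y ω) (K := CovW.K) (fun i => i.cov) (fun k => k.cov)
    (fun k : Blk b j => k.c) (fun k : Blk b j => k.d) ψ e y
  have m2 := fun y => meas_obfT (μ := μ) (s := s) (N := N) (b := b) (j := j) (h := fun y ω (i : CovF N b j) => i.F y ω)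
    (bb := CovF.M) (ψ := fun y ω (k : CovW N b j) => k.F y ω) (K := CovW.K) (fun i => i.cov) (fun k => k.cov) δ B
    (fun k : Blk b j => k.c) (fun k : Blk b j => k.d) ψ e y
  have i1 := fun y => int_bdd (μ := μ) (N := N) (m1 y) (M := M) fun ω => (b1 y ω).trans (h2 _)
  have i2 := fun y => int_bdd (μ := μ) (N := N) (m2 y) (M := M) fun ω => (b2 y ω).trans (h2 _)
  refine ⟨i1, i2, ?_⟩
  have key := law_levT (μ := μ) (s := s) (N := N) (b := b) (j := j) (δ := δ) (B := B) (L := Real.exp (2 * K) * (L + 2 * M)) (M := M) hb hj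
    (h := fun y ω (i : CovF N b j) => i.F y ω) (bb := CovF.M) (ψ := fun y ω (k : CovW N b j) => k.F y ω) (K := CovW.K)
    (fun i => i.cov) (fun k => k.cov) (fun k : Blk b j => k.c) (fun k : Blk b j => k.d)
    (fun k => k.hc) (fun k => k.hd) ψ e (fun A => by
      have h5 := ET.bd_nonneg posM (e A)
      have h6 := ET.li_nonneg posM CovW.K (e A)
      exact mul_le_mul (Real.exp_le_exp.2 (by linarith [hK A])) (by linarith [h2 A, h3 A]) (by positivity) (Real.exp_pos _).le)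
    (fun y ω => (b1 y ω).trans (h2 _)) (fun y ω => (b2 y ω).trans (h2 _)) hy hm hyN hE
  rw [avy_sub, avy_Ico]
  refine le_trans (le_of_eq ?_) key
  congr 2
  exact sum_congr rfl fun y _ => (integral_sub (i1 y) (i2 y)).symm

end TRep

end

end Pool.Agent.W_7d29a1_C0.FlipR4
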