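import Pool.Agent.W_7d29a1_C0.FlipR4C

/-!
CURV0 (MP_7d29a1_pr), E7, SEVERAL REPLICAS AND SEVERAL WEIGHTS: events. `TSw P P' L`: the indicators of the events `P`, `P'` are separated
by a functional of the class `TRep`. Thresholds (`thr`), conjunctions, disjunctions, finite intersections and unions, complements, masses of
events (`mass`). `TSw.flip`, `TSw.unflip`: the law invariance for the mean of an event times a functional. (helper4)
-/

set_option autoImplicit false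
set_option linter.unusedSectionVars false
set_option linter.unusedVariables false

namespace Pool.Agent.W_7d29a1_C0.FlipR4

open Pool.Agent.W_7d29a1_F hiding W_pos W_nonneg W_add
open Finset MeasureTheory Pool.Agent.W_7d29a1_X Pool.Agent.W_7d29a1_HZ
open Pool.Agent.W_7d29a1_Z74
open Pool.Agent.W_7d29a1_HZ.Z74
open Pool.Agent.W_7d29a1_C0.Mod92
open Pool.Agent.W_7d29a1_C0.Blk18
open Pool.Agent.W_7d29a1_C0.Pin18
open Pool.Agent.W_7d29a1_C0.Flip61
open Pool.W7d29a1.C0 (gz gm gz_pos gz_ne gm_const gm_mono gm_nonneg gm_sub)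
open Pool.W7d29a1.C0.VT31 (Mp Crs cE cV cC gc gv cE_mono cE_nonneg)

noncomputable section

variable {μ : Measure ℝ} {s : ℝ} {N b j : ℕ}

/-! ### Indicators and ramps -/

/-- The indicator. -/
def iv (P : Prop) : ℝ := by
  classical
  exact if P then 1 else 0

theorem iv_true {P : Prop} (h : P) : iv P = 1 := by
  unfold iv
  exact if_pos h

theorem iv_false {P : Prop} (h : ¬P) : iv P = 0 := by
  unfold iv
  exact if_neg h

theorem iv_nonneg (P : Prop) : 0 ≤ iv P := by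
  by_cases h : P
  · rw [iv_true h]; exact zero_le_one
  · rw [iv_false h]

theorem iv_le_one (P : Prop) : iv P ≤ 1 := by
  by_cases h : P
  · rw [iv_true h]
  · rw [iv_false h]; exact zero_le_one

theorem iv_mono {P Q : Prop} (h : P → Q) : iv P ≤ iv Q := by
  by_cases hP : P
  · rw [iv_true hP, iv_true (h hP)]
  · rw [iv_false hP]; exact iv_nonneg Q

theorem iv_eq (P : Prop) [Decidable P] : iv P = if P then 1 else 0 := by
  by_cases h : P
  · rw [iv_true h, if_pos h]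
  · rw [iv_false h, if_neg h]

theorem iv_and (P Q : Prop) : iv (P ∧ Q) = iv P * iv Q := by
  by_cases h : P
  · by_cases h' : Q
    · rw [iv_true h, iv_true h', iv_true ⟨h, h'⟩, mul_one]
    · rw [iv_false h', iv_false fun x => h' x.2, mul_zero]
  · rw [iv_false h, iv_false fun x => h x.1, zero_mul]

theorem abs_iv (P : Prop) : |iv P| ≤ 1 := by
  rw [abs_of_nonneg (iv_nonneg P)]
  exact iv_le_one P

theorem meas_iv {Ω : Type*} [MeasurableSpace Ω] {P : Ω → Prop} (h : MeasurableSet {ω | P ω}) : Measurable fun ω => iv (P ω) := by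
  classical
  simp only [iv_eq]
  exact Measurable.ite h measurable_const measurable_const

/-- The ramp between two levels. -/
def rp (q q' : ℝ) (h : q' < q) : LipF where
  f x := max 0 (min 1 ((x - q') / (q - q')))
  M := 1
  Λ := 1 / (q - q')
  hM x := by
    rw [abs_of_nonneg (le_max_left _ _)]
    exact max_le zero_le_one (min_le_left _ _)
  hΛ x y := by
    refine (ramp_lip _ _).trans (le_of_eq ?_)
    have e : (x - q') / (q - q') - (y - q') / (q - q') = 1 / (q - q') * (x - y) := by ring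
    rw [e, abs_mul, abs_of_pos (by have := sub_pos.2 h; positivity)]
  hΛ0 := by
    have := sub_pos.2 h
    positivity

theorem rp_nonneg {q q' : ℝ} (h : q' < q) (x : ℝ) : 0 ≤ (rp q q' h).f x := le_max_left _ _

theorem rp_le_one {q q' : ℝ} (h : q' < q) (x : ℝ) : (rp q q' h).f x ≤ 1 := max_le zero_le_one (min_le_left _ _)

theorem rp_one {q q' : ℝ} (h : q' < q) {x : ℝ} (hx : q ≤ x) : (rp q q' h).f x = 1 := by
  have h0 := sub_pos.2 h
  have h1 : 1 ≤ (x - q') / (q - q') := by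
    rw [le_div_iff₀ h0]
    linarith
  show max 0 (min 1 ((x - q') / (q - q'))) = 1
  rw [min_eq_left h1, max_eq_right zero_le_one]

theorem rp_zero {q q' : ℝ} (h : q' < q) {x : ℝ} (hx : x ≤ q') : (rp q q' h).f x = 0 := by
  have h0 := sub_pos.2 h
  have h1 : (x - q') / (q - q') ≤ 0 := div_nonpos_of_nonpos_of_nonneg (by linarith) h0.le
  exact max_eq_left ((min_le_right _ _).trans h1)

theorem iv_le_rp {q q' : ℝ} (h : q' < q) {P : Prop} {x : ℝ} (hP : P → q ≤ x) : iv P ≤ (rp q q' h).f x := by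
  by_cases h1 : P
  · rw [iv_true h1, rp_one h (hP h1)]
  · rw [iv_false h1]
    exact rp_nonneg h x

theorem rp_le_iv {q q' : ℝ} (h : q' < q) {P : Prop} {x : ℝ} (hP : q' < x → P) : (rp q q' h).f x ≤ iv P := by
  by_cases h1 : P
  · rw [iv_true h1]
    exact rp_le_one h x
  · rw [iv_false h1, rp_zero h (not_lt.1 fun h' => h1 (hP h'))]

/-- The function `min 1 (max 0 x)`. -/
def c01 : LipF := rp 1 0 zero_lt_one

theorem c01_of {x : ℝ} (h0 : 0 ≤ x) (h1 : x ≤ 1) : c01.f x = x := by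
  show max 0 (min 1 ((x - 0) / (1 - 0))) = x
  rw [sub_zero, sub_zero, div_one, min_eq_right h1, max_eq_right h0]

theorem c01_le {x : ℝ} (h0 : 0 ≤ x) : c01.f x ≤ x := by
  show max 0 (min 1 ((x - 0) / (1 - 0))) ≤ x
  rw [sub_zero, sub_zero, div_one]
  exact max_le h0 (min_le_right _ _)

/-! ### Events -/

/-- The events. -/
abbrev Pfl (N : ℕ) := (y : ℕ) → Env × Finset ℕ → Finset ℕ → (Px (Pn N y) → ℝ) → (ℕ → Px (Pn N y)) → Prop

/-- Measurable events. -/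
def MsP (μ : Measure ℝ) (s : ℝ) (N : ℕ) (δ B : ℝ) (b j : ℕ) (P : Pfl N) : Prop :=
  ∀ (α : Finset ℕ → Finset ℕ) (τ : Finset ℕ → ℝ) (y : ℕ) (ρ : ℕ → Px (Pn N y)),
    MeasurableSet {ω : Env × Finset ℕ | P y ω (α ω.2) (wg μ s N δ B b j y ω (τ ω.2)) ρ}

/-- **Two events separated by a functional** of the class `TRep`: `1[P] ≤ R ≤ 1[P']`. -/
def TSw (μ : Measure ℝ) (s : ℝ) (N : ℕ) (δ B : ℝ) (b j : ℕ) (P P' : Pfl N) (L : ℝ) : Prop :=
  (∃ R : Fnl N, TRep μ s N δ B b j R 1 L ∧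
    ∀ y ω A t ρ, iv (P y ω A (wg μ s N δ B b j y ω t) ρ) ≤ R y ω A (wg μ s N δ B b j y ω t) ρ ∧
      R y ω A (wg μ s N δ B b j y ω t) ρ ≤ iv (P' y ω A (wg μ s N δ B b j y ω t) ρ)) ∧
  MsP μ s N δ B b j P ∧ MsP μ s N δ B b j P'

namespace TSw

variable {δ B : ℝ} {P P' Q Q' : Pfl N} {L L' : ℝ}

theorem mono (h : TSw μ s N δ B b j P P' L) (hL : L ≤ L') : TSw μ s N δ B b j P P' L' := by
  obtain ⟨⟨R, h1, h2⟩, h3, h4⟩ := h
  exact ⟨⟨R, h1.mono le_rfl hL, h2⟩, h3, h4⟩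

/-- **One threshold.** -/
theorem thr {X : Fnl N} {MX LX : ℝ} (hX : TRep μ s N δ B b j X MX LX) {q q' : ℝ} (h : q' < q) :
    TSw μ s N δ B b j (fun y ω A w ρ => q ≤ X y ω A w ρ) (fun y ω A w ρ => q' ≤ X y ω A w ρ) (1 / (q - q') * LX) :=
  ⟨⟨fun y ω A w ρ => (rp q q' h).f (X y ω A w ρ), TRep.lf (rp q q' h) hX, fun y ω A t ρ =>
      ⟨iv_le_rp h fun h' => h', rp_le_iv h fun h' => h'.le⟩⟩,
    fun α τ y ρ => measurableSet_le measurable_const (hX.meas α τ y ρ), fun α τ y ρ => measurableSet_le measurable_const (hX.meas α τ y ρ)⟩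

/-- A covariant event. -/
theorem of_cov {F : (y : ℕ) → Env × Finset ℕ → (ℕ → Px (Pn N y)) → Prop} (h : CovM N b j (fun y ω ρ => iv (F y ω ρ)) 1) :
    TSw μ s N δ B b j (fun y ω _ _ ρ => F y ω ρ) (fun y ω _ _ ρ => F y ω ρ) 0 := by
  have hm : MsP μ s N δ B b j (fun y ω _ _ ρ => F y ω ρ) := fun α τ y ρ => by
    have h1 := h.mes y ρ
    have h2 : {ω : Env × Finset ℕ | F y ω ρ} = (fun ω => iv (F y ω ρ)) ⁻¹' {1} := by
      ext ω
      rw [Set.mem_preimage, Set.mem_singleton_iff, Set.mem_ofPred_eq]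
      constructor
      · intro h3
        exact iv_true h3
      · intro h3
        by_contra h4
        rw [iv_false h4] at h3
        exact zero_ne_one h3
    show MeasurableSet {ω : Env × Finset ℕ | F y ω ρ}
    rw [h2]
    exact h1 (measurableSet_singleton 1)
  exact ⟨⟨fun y ω _ _ ρ => iv (F y ω ρ), TRep.fn h, fun y ω A t ρ => ⟨le_rfl, le_rfl⟩⟩, hm, hm⟩

theorem and (h : TSw μ s N δ B b j P P' L) (k : TSw μ s N δ B b j Q Q' L') :
    TSw μ s N δ B b j (fun y ω A w ρ => P y ω A w ρ ∧ Q y ω A w ρ) (fun y ω A w ρ => P' y ω A w ρ ∧ Q' y ω A w ρ) (L + L') := by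
  obtain ⟨⟨R, h1, h2⟩, h3, h4⟩ := h
  obtain ⟨⟨T, k1, k2⟩, k3, k4⟩ := k
  refine ⟨⟨fun y ω A w ρ => R y ω A w ρ * T y ω A w ρ, (h1.mul k1).mono (by norm_num) (le_of_eq (by ring)), fun y ω A t ρ => ?_⟩,
    fun α τ y ρ => (h3 α τ y ρ).inter (k3 α τ y ρ), fun α τ y ρ => (h4 α τ y ρ).inter (k4 α τ y ρ)⟩
  have a1 := h2 y ω A t ρ
  have a2 := k2 y ω A t ρ
  show iv (_ ∧ _) ≤ _ * _ ∧ _ * _ ≤ iv (_ ∧ _)
  rw [iv_and, iv_and]
  have p1 := iv_nonneg (P y ω A (wg μ s N δ B b j y ω t) ρ)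
  have p2 := iv_nonneg (Q y ω A (wg μ s N δ B b j y ω t) ρ)
  have p3 := iv_nonneg (P' y ω A (wg μ s N δ B b j y ω t) ρ)
  exact ⟨mul_le_mul a1.1 a2.1 p2 (p1.trans a1.1), mul_le_mul a1.2 a2.2 (p2.trans a2.1) p3⟩

theorem or (h : TSw μ s N δ B b j P P' L) (k : TSw μ s N δ B b j Q Q' L') :
    TSw μ s N δ B b j (fun y ω A w ρ => P y ω A w ρ ∨ Q y ω A w ρ) (fun y ω A w ρ => P' y ω A w ρ ∨ Q' y ω A w ρ) (L + L') := by
  obtain ⟨⟨R, h1, h2⟩, h3, h4⟩ := h
  obtain ⟨⟨T, k1, k2⟩, k3, k4⟩ := k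
  refine ⟨⟨fun y ω A w ρ => c01.f (R y ω A w ρ + T y ω A w ρ), (TRep.lf c01 (h1.add k1)).mono le_rfl
      (le_of_eq (by show 1 / (1 - 0) * (L + L') = L + L'; ring)), fun y ω A t ρ => ?_⟩,
    fun α τ y ρ => (h3 α τ y ρ).union (k3 α τ y ρ), fun α τ y ρ => (h4 α τ y ρ).union (k4 α τ y ρ)⟩
  have a1 := h2 y ω A t ρ
  have a2 := k2 y ω A t ρ
  have p1 := iv_nonneg (P y ω A (wg μ s N δ B b j y ω t) ρ)
  have p2 := iv_nonneg (Q y ω A (wg μ s N δ B b j y ω t) ρ)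
  constructor
  · refine iv_le_rp zero_lt_one fun h5 => ?_
    rcases h5 with h5 | h5
    · rw [iv_true h5] at a1
      linarith
    · rw [iv_true h5] at a2
      linarith
  · refine rp_le_iv zero_lt_one fun h5 => ?_
    by_contra h6
    rw [iv_false fun h7 => h6 (Or.inl h7)] at a1
    rw [iv_false fun h7 => h6 (Or.inr h7)] at a2
    linarith [a1.2, a2.2]

/-- The complement. -/
theorem not (h : TSw μ s N δ B b j P P' L) :
    TSw μ s N δ B b j (fun y ω A w ρ => ¬P' y ω A w ρ) (fun y ω A w ρ => ¬P y ω A w ρ) L := by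
  obtain ⟨⟨R, h1, h2⟩, h3, h4⟩ := h
  have h5 := (TRep.cst (μ := μ) (s := s) (N := N) (δ := δ) (B := B) (b := b) (j := j) 1).sub h1
  refine ⟨⟨fun y ω A w ρ => c01.f (1 - R y ω A w ρ), (TRep.lf c01 h5).mono le_rfl
      (le_of_eq (by show 1 / (1 - 0) * (0 + L) = L; ring)), fun y ω A t ρ => ?_⟩,
    fun α τ y ρ => (h4 α τ y ρ).compl, fun α τ y ρ => (h3 α τ y ρ).compl⟩
  have a1 := h2 y ω A t ρ
  constructor
  · refine iv_le_rp zero_lt_one fun h5 => ?_
    rw [iv_false h5] at a1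
    linarith [a1.2]
  · refine rp_le_iv zero_lt_one fun h5 h6 => ?_
    rw [iv_true h6] at a1
    linarith [a1.1]

/-- Finite intersections. -/
theorem all {I : Type*} (S : Finset I) {P P' : I → Pfl N} {L : I → ℝ} (h : ∀ i ∈ S, TSw μ s N δ B b j (P i) (P' i) (L i)) :
    TSw μ s N δ B b j (fun y ω A w ρ => ∀ i ∈ S, P i y ω A w ρ) (fun y ω A w ρ => ∀ i ∈ S, P' i y ω A w ρ) (∑ i ∈ S, L i) := by
  classical
  induction S using Finset.induction_on with
  | empty =>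
    have h1 := CovM.const (N := N) (b := b) (j := j) 1
    rw [abs_one] at h1
    have h2 : TSw μ s N δ B b j (fun y ω _ _ ρ => True) (fun y ω _ _ ρ => True) 0 :=
      of_cov (F := fun _ _ _ => True) (by simp only [iv_true trivial]; exact h1)
    simpa using h2
  | insert i S hi ih =>
    have h1 := (h i (mem_insert_self i S)).and (ih fun k hk => h k (mem_insert_of_mem hk))
    rw [sum_insert hi]
    simp only [mem_insert, forall_eq_or_imp]
    exact h1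

/-- Finite unions. -/
theorem any {I : Type*} (S : Finset I) {P P' : I → Pfl N} {L : I → ℝ} (h : ∀ i ∈ S, TSw μ s N δ B b j (P i) (P' i) (L i)) :
    TSw μ s N δ B b j (fun y ω A w ρ => ∃ i ∈ S, P i y ω A w ρ) (fun y ω A w ρ => ∃ i ∈ S, P' i y ω A w ρ) (∑ i ∈ S, L i) := by
  classical
  induction S using Finset.induction_on with
  | empty =>
    have h1 := (CovM.const (N := N) (b := b) (j := j) 0).mono (M' := 1) (by rw [abs_zero]; exact zero_le_one)
    have h2 : TSw μ s N δ B b j (fun y ω _ _ ρ => False) (fun y ω _ _ ρ => False) 0 :=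
      of_cov (F := fun _ _ _ => False) (by simp only [iv_false not_false]; exact h1)
    simpa using h2
  | insert i S hi ih =>
    have h1 := (h i (mem_insert_self i S)).or (ih fun k hk => h k (mem_insert_of_mem hk))
    rw [sum_insert hi]
    simp only [mem_insert, exists_eq_or_imp]
    exact h1

/-- **The mass of an event.** -/
theorem mass (h : TSw μ s N δ B b j P P' L) {c d : ℕ} (hc : c ≤ j - b) (hd : j + b ≤ d) (n : ℕ) (ψ : Finset ℕ → CovW N b j) {K : ℝ}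
    (hK : ∀ A, (ψ A).K ≤ K) {q q' : ℝ} (hq : q' < q) :
    TSw μ s N δ B b j
      (fun y ω A w ρ => q ≤ cE (w + (ψ A).F y ω) (pJ c d) (fun z => iv (P y ω A w (cns z ρ))) (ρ n))
      (fun y ω A w ρ => q' ≤ cE (w + (ψ A).F y ω) (pJ c d) (fun z => iv (P' y ω A w (cns z ρ))) (ρ n))
      (1 / (q - q') * (Real.exp (2 * K) * (L + 2))) := by
  obtain ⟨⟨R, h1, h2⟩, h3, h4⟩ := h
  have h5 := h1.ceT hc hd n ψ hK
  have hw : ∀ (τ : Finset ℕ → ℝ) (α : Finset ℕ → Finset ℕ) (y : ℕ) (S : Px (Pn N y)),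
      Measurable fun ω : Env × Finset ℕ => (wg μ s N δ B b j y ω (τ ω.2) + (ψ (α ω.2)).F y ω) S := fun τ α y S => by
    refine meas_om fun A => ?_
    show Measurable fun η : Env => (lw μ s η N (Pn N y) S + τ A * gj μ s η δ B b j (sg A j) S) + (ψ (α A)).F y (η, A) S
    exact ((meas_lw S).add ((meas_gj δ B b j (sg A j) S).const_mul _)).add (((ψ (α A)).cov.mes y S).comp (meas_pair A))
  refine ⟨⟨fun y ω A w ρ => (rp q q' hq).f (cE (w + (ψ A).F y ω) (pJ c d) (fun z => R y ω A w (cns z ρ)) (ρ n)),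
    (TRep.lf (rp q q' hq) h5).mono le_rfl (le_of_eq (by show 1 / (q - q') * _ = _; ring)), fun y ω A t ρ => ?_⟩,
    fun α τ y ρ => measurableSet_le measurable_const (meas_cE (hw τ α y) (fun z => meas_iv (h3 α τ y (cns z ρ))) _ _),
    fun α τ y ρ => measurableSet_le measurable_const (meas_cE (hw τ α y) (fun z => meas_iv (h4 α τ y (cns z ρ))) _ _)⟩
  have n1 : Nonempty (Px (Pn N y)) := ⟨ρ 0⟩
  exact ⟨iv_le_rp hq fun h' => h'.trans (cE_mono _ _ (fun z => (h2 y ω A t (cns z ρ)).1) _),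
    rp_le_iv hq fun h' => h'.le.trans (cE_mono _ _ (fun z => (h2 y ω A t (cns z ρ)).2) _)⟩

/-! ### The law invariance for events -/

variable {G : Fnl N} {M LG : ℝ}

/-- **FROM THE FLIPPED CORNER TO THE ACTUAL ONE.** -/
theorem flip [IsProbabilityMeasure μ] (hb : 0 < b) (hj : j + b ≤ N) (h : TSw μ s N δ B b j P P' L) (hG : TRep μ s N δ B b j G M LG)
    (G0 : ∀ y ω A t ρ, 0 ≤ G y ω A (wg μ s N δ B b j y ω t) ρ) (ψ : Finset ℕ → CovW N b j) {K : ℝ} (hK : ∀ A, (ψ A).K ≤ K)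
    {y₀ m : ℕ} (hy : 1 ≤ y₀) (hm : 1 ≤ m) (hyN : y₀ + m ≤ N) {θ ε : ℝ} (hE : FErr2 μ s N δ B b j y₀ m θ ε) :
    avy (Ico y₀ (y₀ + m)) (fun y => ∫ ω, gm (wf μ s N δ B b j y ω + (ψ (flp j ω.2)).F y ω) (fun x =>
        iv (P y ω (flp j ω.2) (wf μ s N δ B b j y ω) fun _ => x) * G y ω (flp j ω.2) (wf μ s N δ B b j y ω) fun _ => x) ∂(Pm μ N)) ≤
      avy (Ico y₀ (y₀ + m)) (fun y => ∫ ω, gm (wm μ s N (Pn N y) ω + (ψ ω.2).F y ω) (fun x =>
        iv (P' y ω ω.2 (wm μ s N (Pn N y) ω) fun _ => x) * G y ω ω.2 (wm μ s N (Pn N y) ω) fun _ => x) ∂(Pm μ N)) +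
      (2 * M / m + (3 * (Real.exp (2 * K) * ((M * L + LG) + 2 * M)) * θ + 4 * M * ε)) := by
  obtain ⟨⟨R, h1, h2⟩, h3, h4⟩ := h
  have hR := h1.mul hG
  obtain ⟨i1, i2, key⟩ := hR.law hb hj ψ hK hy hm hyN hE
  rw [one_mul, one_mul] at key
  have hM0 := hG.nonneg.1
  have k1 : ∀ y ∈ Ico y₀ (y₀ + m), ∫ ω, gm (wf μ s N δ B b j y ω + (ψ (flp j ω.2)).F y ω) (fun x =>
        iv (P y ω (flp j ω.2) (wf μ s N δ B b j y ω) fun _ => x) * G y ω (flp j ω.2) (wf μ s N δ B b j y ω) fun _ => x) ∂(Pm μ N) ≤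
      ∫ ω, gm (wf μ s N δ B b j y ω + (ψ (flp j ω.2)).F y ω) (fun x =>
        R y ω (flp j ω.2) (wf μ s N δ B b j y ω) (fun _ => x) * G y ω (flp j ω.2) (wf μ s N δ B b j y ω) fun _ => x) ∂(Pm μ N) := by
    intro y hy'
    have n1 : Nonempty (Px (Pn N y)) := ne_Pn (by
      rw [mem_Ico] at hy'
      omega)
    refine integral_mono_of_nonneg (Filter.Eventually.of_forall fun ω => ?_) (i2 y) (Filter.Eventually.of_forall fun ω => ?_)
    · exact gm_nonneg _ fun x => mul_nonneg (iv_nonneg _) (G0 _ _ _ _ _)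
    · exact gm_mono _ fun x => mul_le_mul_of_nonneg_right (h2 y ω _ _ _).1 (G0 _ _ _ _ _)
  have k2 : ∀ y ∈ Ico y₀ (y₀ + m), ∫ ω, gm (wm μ s N (Pn N y) ω + (ψ ω.2).F y ω) (fun x =>
        R y ω ω.2 (wm μ s N (Pn N y) ω) (fun _ => x) * G y ω ω.2 (wm μ s N (Pn N y) ω) fun _ => x) ∂(Pm μ N) ≤
      ∫ ω, gm (wm μ s N (Pn N y) ω + (ψ ω.2).F y ω) (fun x =>
        iv (P' y ω ω.2 (wm μ s N (Pn N y) ω) fun _ => x) * G y ω ω.2 (wm μ s N (Pn N y) ω) fun _ => x) ∂(Pm μ N) := by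
    intro y hy'
    have n1 : Nonempty (Px (Pn N y)) := ne_Pn (by
      rw [mem_Ico] at hy'
      omega)
    have g0 : ∀ ω x, 0 ≤ G y ω ω.2 (wm μ s N (Pn N y) ω) (fun _ => x) ∧ G y ω ω.2 (wm μ s N (Pn N y) ω) (fun _ => x) ≤ M := fun ω x => by
      have h5 := G0 y ω ω.2 0 fun _ => x
      have h6 := hG.bdd y ω ω.2 0 fun _ => x
      rw [wg_zero] at h5 h6
      exact ⟨h5, (le_abs_self _).trans h6⟩
    have hw : ∀ S : Px (Pn N y), Measurable fun ω : Env × Finset ℕ => (wm μ s N (Pn N y) ω + (ψ ω.2).F y ω) S := fun S => by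
      refine meas_om fun A => ?_
      exact (meas_lw S).add (((ψ A).cov.mes y S).comp (meas_pair A))
    have mP : ∀ x, Measurable fun ω => iv (P' y ω ω.2 (wm μ s N (Pn N y) ω) fun _ => x) := fun x => by
      have h5 := meas_iv (h4 (fun A => A) (fun _ => 0) y fun _ => x)
      simp only [wg_zero] at h5
      exact h5
    refine integral_mono (i1 y) (int_bdd (meas_gm hw fun x => (mP x).mul (hG.meas_wm y fun _ => x)) (M := M) fun ω => ?_) fun ω =>
      gm_mono _ fun x => mul_le_mul_of_nonneg_right ?_ (g0 ω x).1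
    · refine Ex.gm_bdd _ fun x => ?_
      rw [abs_mul, abs_of_nonneg (g0 ω x).1]
      calc |iv _| * _ ≤ 1 * M := mul_le_mul (abs_iv _) (g0 ω x).2 (g0 ω x).1 zero_le_one
        _ = M := one_mul M
    · have h5 := (h2 y ω ω.2 0 fun _ => x).2
      rw [wg_zero] at h5
      exact h5
  have a1 := mul_le_mul_of_nonneg_left (sum_le_sum k1) (show (0 : ℝ) ≤ ((Ico y₀ (y₀ + m)).card : ℝ)⁻¹ by positivity)
  have a2 := mul_le_mul_of_nonneg_left (sum_le_sum k2) (show (0 : ℝ) ≤ ((Ico y₀ (y₀ + m)).card : ℝ)⁻¹ by positivity)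
  have a3 := (abs_le.1 key).1
  unfold avy at a3 ⊢
  linarith

/-- **FROM THE ACTUAL CORNER TO THE FLIPPED ONE.** -/
theorem unflip [IsProbabilityMeasure μ] (hb : 0 < b) (hj : j + b ≤ N) (h : TSw μ s N δ B b j P P' L) (hG : TRep μ s N δ B b j G M LG)
    (G0 : ∀ y ω A t ρ, 0 ≤ G y ω A (wg μ s N δ B b j y ω t) ρ) (ψ : Finset ℕ → CovW N b j) {K : ℝ} (hK : ∀ A, (ψ A).K ≤ K)
    {y₀ m : ℕ} (hy : 1 ≤ y₀) (hm : 1 ≤ m) (hyN : y₀ + m ≤ N) {θ ε : ℝ} (hE : FErr2 μ s N δ B b j y₀ m θ ε) :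
    avy (Ico y₀ (y₀ + m)) (fun y => ∫ ω, gm (wm μ s N (Pn N y) ω + (ψ ω.2).F y ω) (fun x =>
        iv (P y ω ω.2 (wm μ s N (Pn N y) ω) fun _ => x) * G y ω ω.2 (wm μ s N (Pn N y) ω) fun _ => x) ∂(Pm μ N)) ≤
      avy (Ico y₀ (y₀ + m)) (fun y => ∫ ω, gm (wf μ s N δ B b j y ω + (ψ (flp j ω.2)).F y ω) (fun x =>
        iv (P' y ω (flp j ω.2) (wf μ s N δ B b j y ω) fun _ => x) * G y ω (flp j ω.2) (wf μ s N δ B b j y ω) fun _ => x) ∂(Pm μ N)) +
      (2 * M / m + (3 * (Real.exp (2 * K) * ((M * L + LG) + 2 * M)) * θ + 4 * M * ε)) := by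
  obtain ⟨⟨R, h1, h2⟩, h3, h4⟩ := h
  have hR := h1.mul hG
  obtain ⟨i1, i2, key⟩ := hR.law hb hj ψ hK hy hm hyN hE
  rw [one_mul, one_mul] at key
  have hM0 := hG.nonneg.1
  have g0 : ∀ y ω x, 0 ≤ G y ω ω.2 (wm μ s N (Pn N y) ω) (fun _ => x) := fun y ω x => by
    have h5 := G0 y ω ω.2 0 fun _ => x
    rw [wg_zero] at h5
    exact h5
  have k1 : ∀ y ∈ Ico y₀ (y₀ + m), ∫ ω, gm (wm μ s N (Pn N y) ω + (ψ ω.2).F y ω) (fun x =>
        iv (P y ω ω.2 (wm μ s N (Pn N y) ω) fun _ => x) * G y ω ω.2 (wm μ s N (Pn N y) ω) fun _ => x) ∂(Pm μ N) ≤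
      ∫ ω, gm (wm μ s N (Pn N y) ω + (ψ ω.2).F y ω) (fun x =>
        R y ω ω.2 (wm μ s N (Pn N y) ω) (fun _ => x) * G y ω ω.2 (wm μ s N (Pn N y) ω) fun _ => x) ∂(Pm μ N) := by
    intro y hy'
    have n1 : Nonempty (Px (Pn N y)) := ne_Pn (by
      rw [mem_Ico] at hy'
      omega)
    refine integral_mono_of_nonneg (Filter.Eventually.of_forall fun ω => ?_) (i1 y) (Filter.Eventually.of_forall fun ω => ?_)
    · exact gm_nonneg _ fun x => mul_nonneg (iv_nonneg _) (g0 _ _ _)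
    · refine gm_mono _ fun x => mul_le_mul_of_nonneg_right ?_ (g0 _ _ _)
      have h5 := (h2 y ω ω.2 0 fun _ => x).1
      rw [wg_zero] at h5
      exact h5
  have k2 : ∀ y ∈ Ico y₀ (y₀ + m), ∫ ω, gm (wf μ s N δ B b j y ω + (ψ (flp j ω.2)).F y ω) (fun x =>
        R y ω (flp j ω.2) (wf μ s N δ B b j y ω) (fun _ => x) * G y ω (flp j ω.2) (wf μ s N δ B b j y ω) fun _ => x) ∂(Pm μ N) ≤
      ∫ ω, gm (wf μ s N δ B b j y ω + (ψ (flp j ω.2)).F y ω) (fun x =>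
        iv (P' y ω (flp j ω.2) (wf μ s N δ B b j y ω) fun _ => x) * G y ω (flp j ω.2) (wf μ s N δ B b j y ω) fun _ => x) ∂(Pm μ N) := by
    intro y hy'
    have n1 : Nonempty (Px (Pn N y)) := ne_Pn (by
      rw [mem_Ico] at hy'
      omega)
    have hw : ∀ S : Px (Pn N y), Measurable fun ω : Env × Finset ℕ => (wf μ s N δ B b j y ω + (ψ (flp j ω.2)).F y ω) S := fun S => by
      refine meas_om fun A => ?_
      rw [show (fun η : Env => (wf μ s N δ B b j y (η, A) + (ψ (flp j (η, A).2)).F y (η, A)) S) = fun η : Env =>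
        (lw μ s η N (Pn N y) S + (-(sg A j : ℝ) - sg A j) * gj μ s η δ B b j (sg A j) S) + (ψ (flp j A)).F y (η, A) S from
        funext fun η => rfl]
      exact ((meas_lw S).add ((meas_gj δ B b j (sg A j) S).const_mul _)).add (((ψ (flp j A)).cov.mes y S).comp (meas_pair A))
    have mP : ∀ x, Measurable fun ω => iv (P' y ω (flp j ω.2) (wf μ s N δ B b j y ω) fun _ => x) := fun x =>
      meas_iv (h4 (fun A => flp j A) (fun A => -(sg A j : ℝ) - sg A j) y fun _ => x)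
    refine integral_mono (i2 y) (int_bdd (meas_gm hw fun x => (mP x).mul (hG.meas_wf y fun _ => x)) (M := M) fun ω => ?_) fun ω =>
      gm_mono _ fun x => mul_le_mul_of_nonneg_right (h2 y ω _ _ _).2 (G0 _ _ _ _ _)
    refine Ex.gm_bdd _ fun x => ?_
    have h5 := G0 y ω (flp j ω.2) (-(sg ω.2 j : ℝ) - sg ω.2 j) fun _ => x
    have h6 := hG.bdd y ω (flp j ω.2) (-(sg ω.2 j : ℝ) - sg ω.2 j) fun _ => x
    rw [← wf_eq] at h5 h6
    rw [abs_mul]
    calc |iv _| * _ ≤ 1 * M := mul_le_mul (abs_iv _) h6 (abs_nonneg _) zero_le_one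
      _ = M := one_mul M
  have a1 := mul_le_mul_of_nonneg_left (sum_le_sum k1) (show (0 : ℝ) ≤ ((Ico y₀ (y₀ + m)).card : ℝ)⁻¹ by positivity)
  have a2 := mul_le_mul_of_nonneg_left (sum_le_sum k2) (show (0 : ℝ) ≤ ((Ico y₀ (y₀ + m)).card : ℝ)⁻¹ by positivity)
  have a3 := (abs_le.1 key).2
  unfold avy at a3 ⊢
  linarith

end TSw

end

end Pool.Agent.W_7d29a1_C0.FlipR4
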