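import Pool.Agent.W_7d29a1_C0.FlipR4D
import Pool.Agent.W_7d29a1_C0.Ferr61

/-!
CURV0 (MP_7d29a1_pr), [C0], E7: THE LAW INVARIANCE OF MIXED FUNCTIONALS WITH TILTS AT THE CONCRETE FRAME. `flip_33`, `unflip_33`: any event
`TSw`, any passenger `TRep`, error `M n^(-5)`, `n = 2 ^ k`, as soon as the Lipschitz constants are at most `exp (n ^ c₃)`. (helper4)
-/

set_option autoImplicit false
set_option linter.unusedSectionVars false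
set_option linter.unusedVariables false

namespace Pool.Agent.W_7d29a1_C0.FlipR4

open Pool.Agent.W_7d29a1_F hiding W_pos W_nonneg W_add
open Finset MeasureTheory Filter Topology Pool.Agent.W_7d29a1_X Pool.Agent.W_7d29a1_HZ
open Pool.Agent.W_7d29a1_Z74
open Pool.Agent.W_7d29a1_HZ.Z74
open Pool.Agent.W_7d29a1_HS (In wd)
open Pool.Agent.W_7d29a1_C0.Mod92
open Pool.Agent.W_7d29a1_C0.Blk18
open Pool.Agent.W_7d29a1_C0.Pin18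
open Pool.Agent.W_7d29a1_C0.Flip61
open Pool.Agent.W_7d29a1_C0.Frm33
open Pool.Agent.W_7d29a1_C0.Ferr61 (ferr2_33)
open Pool.W7d29a1.C0 (gz gm gz_pos gz_ne gm_const gm_mono gm_nonneg gm_sub)
open Pool.W7d29a1.C0.VT31 (Mp Crs cE cV cC gc gv cE_mono cE_nonneg)

noncomputable section

variable {μ : Measure ℝ} {s : ℝ} [IsProbabilityMeasure μ]

/-- The stretched exponential against a power of the scale. -/
theorem ev_expE {c : ℝ} (hc : 0 < c) (A : ℕ) : ∀ᶠ m : ℕ in atTop, Real.exp (-((2 ^ m : ℕ) : ℝ) ^ c) ≤ (((2 ^ m : ℕ) : ℝ) ^ A)⁻¹ := by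
  obtain ⟨c₁, hc₁, -, N₁, h1⟩ := Pool.Agent.W_7d29a1_Z.NumI77.pow_exp hc A
  have h2 : ∀ᶠ m : ℕ in atTop, N₁ ≤ 2 ^ m := (tendsto_pow_atTop_atTop_of_one_lt one_lt_two).eventually_ge_atTop N₁
  filter_upwards [h2] with m hm
  have h3 := h1 (2 ^ m) hm
  have h4 : (0 : ℝ) < ((2 ^ m : ℕ) : ℝ) ^ A := by positivity
  rw [Real.rpow_natCast] at h3
  have h5 : ((2 ^ m : ℕ) : ℝ) ^ A * Real.exp (-((2 ^ m : ℕ) : ℝ) ^ c) ≤ 1 := h3.trans (Real.exp_le_one_iff.2 (by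
    have := Real.rpow_nonneg (show (0 : ℝ) ≤ ((2 ^ m : ℕ) : ℝ) by positivity) c₁
    linarith))
  rw [← one_div, le_div_iff₀ h4, mul_comm]
  exact h5

/-- **The errors of the flip at the frame**: the level beats `exp (n ^ c₃)`. -/
theorem fl_33 {c C : ℝ} {n₀ : ℕ} (h : In μ s c C n₀) {K : ℕ} (hK : 32 ≤ K) {κ : ℝ} (hκ : 0 < κ) (A : ℕ) :
    ∃ c₃ : ℝ, 0 < c₃ ∧ ∀ β : ℝ, 0 < β → ∃ γ₀ : ℝ, 0 < γ₀ ∧ ∀ γ : ℝ, 0 < γ → γ ≤ γ₀ →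
      ∀ᶠ m : ℕ in atTop, (2 ≤ y33 μ s K m ∧ y33 μ s K m + M33 m + 1 ≤ L33 K m) ∧
        ∀ B : ℝ, B33 β m ≤ B → ∃ θ ε : ℝ, 0 ≤ θ ∧ θ * Real.exp (((2 ^ m : ℕ) : ℝ) ^ c₃) ≤ (((2 ^ m : ℕ) : ℝ) ^ A)⁻¹ ∧
          ε ≤ (((2 ^ m : ℕ) : ℝ) ^ A)⁻¹ ∧ ∀ b0 j : ℕ, ((2 ^ m : ℕ) : ℝ) ^ κ ≤ b0 → b0 ≤ 2 ^ m → b0 ≤ j → j + b0 ≤ L33 K m →
            FErr2 μ s (L33 K m) γ B b0 j (y33 μ s K m) (M33 m) θ ε := by
  obtain ⟨c₃, hc₃, h1⟩ := ferr2_33 h hK hκ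
  refine ⟨c₃, hc₃, fun β hβ => ?_⟩
  obtain ⟨γ₀, hγ₀, h1⟩ := h1 β hβ
  refine ⟨γ₀, hγ₀, fun γ hγ hγ' => ?_⟩
  obtain ⟨c', hc', h1⟩ := h1 γ hγ hγ'
  have hK0 : (32 : ℝ) ≤ K := by exact_mod_cast hK
  filter_upwards [h1, cone33 h hK one_pos, ev_n hc₃ 2, ev_expE hc₃ A, ev_expE hc' A] with m h2 h3 h4 h5 h6
  have hn1 : (1 : ℝ) ≤ ((2 ^ m : ℕ) : ℝ) := n_ge1 m
  have hn0 : (0 : ℝ) < ((2 ^ m : ℕ) : ℝ) := lt_of_lt_of_le one_pos hn1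
  refine ⟨⟨h3.1, h3.2.1⟩, fun B hB => ⟨_, _, (Real.exp_pos _).le, ?_, ?_, fun b0 j k1 k2 k3 k4 => h2 B hB b0 j k1 k2 k3 k4⟩⟩
  · refine le_trans ?_ h5
    rw [← Real.exp_add]
    refine Real.exp_le_exp.2 ?_
    have e1 : 2 * ((2 ^ m : ℕ) : ℝ) ^ c₃ ≤ (L33 K m : ℝ) ^ c₃ := by
      rw [L33_pow]
      have e2 : ((2 ^ m : ℕ) : ℝ) ^ (c₃ + c₃) ≤ ((2 ^ m : ℕ) : ℝ) ^ ((K : ℝ) * c₃) :=
        Real.rpow_le_rpow_of_exponent_le hn1 (by nlinarith)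
      refine le_trans ?_ e2
      rw [Real.rpow_add hn0]
      exact mul_le_mul_of_nonneg_right h4 (Real.rpow_nonneg hn0.le _)
    linarith
  · refine le_trans (Real.exp_le_exp.2 (neg_le_neg ?_)) h6
    rw [L33_pow]
    exact Real.rpow_le_rpow_of_exponent_le hn1 (by nlinarith)

/-- The arithmetic of the error. -/
theorem err_E {M L x θ ε n : ℝ} {Mn : ℕ} (hM : 0 ≤ M) (hL : L ≤ 1 / 3 * (M * Real.exp x)) (hn : 16 ≤ n) (hMn : n ^ 6 = Mn)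
    (hθ0 : 0 ≤ θ) (hθ : θ * Real.exp x ≤ (n ^ 8)⁻¹) (hε : ε ≤ (n ^ 8)⁻¹) :
    2 * M / Mn + (3 * L * θ + 4 * M * ε) ≤ M * (n ^ 5)⁻¹ := by
  have hn0 : 0 < n := by linarith
  have k1 : 2 * M / (Mn : ℝ) ≤ 1 / 4 * (M * (n ^ 5)⁻¹) := by
    rw [← hMn, div_le_iff₀ (by positivity)]
    have h1 : 1 / 4 * (M * (n ^ 5)⁻¹) * n ^ 6 = 1 / 4 * M * n := by
      field_simp
    rw [h1]
    nlinarith
  have k8 : (n ^ 8)⁻¹ ≤ 1 / 4096 * (n ^ 5)⁻¹ := by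
    have h1 : (n ^ 8)⁻¹ = (n ^ 3)⁻¹ * (n ^ 5)⁻¹ := by
      rw [← mul_inv]
      congr 1
      ring
    rw [h1]
    refine mul_le_mul_of_nonneg_right ?_ (by positivity)
    rw [one_div]
    refine inv_anti₀ (by norm_num) ?_
    calc (4096 : ℝ) = 16 ^ 3 := by norm_num
      _ ≤ n ^ 3 := pow_le_pow_left₀ (by norm_num) hn 3
  have k2 : 3 * L * θ ≤ M * (n ^ 8)⁻¹ := by
    have h1 := mul_le_mul_of_nonneg_right (mul_le_mul_of_nonneg_left hL (show (0 : ℝ) ≤ 3 by norm_num)) hθ0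
    refine h1.trans ?_
    calc 3 * (1 / 3 * (M * Real.exp x)) * θ = M * (θ * Real.exp x) := by ring
      _ ≤ M * (n ^ 8)⁻¹ := mul_le_mul_of_nonneg_left hθ hM
  have k3 : 4 * M * ε ≤ 4 * M * (n ^ 8)⁻¹ := mul_le_mul_of_nonneg_left hε (by positivity)
  have k4 := mul_le_mul_of_nonneg_left k8 hM
  have k5 : 0 ≤ M * (n ^ 5)⁻¹ := by positivity
  linarith

/-- **THE FLIP AT THE FRAME, BOTH DIRECTIONS**: an event `TSw`, a passenger `TRep`, tilts. -/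
theorem flip_33 {c C : ℝ} {n₀ : ℕ} (h : In μ s c C n₀) {K : ℕ} (hK : 32 ≤ K) {κ : ℝ} (hκ : 0 < κ) :
    ∃ c₃ : ℝ, 0 < c₃ ∧ ∀ β : ℝ, 0 < β → ∃ γ₀ : ℝ, 0 < γ₀ ∧ ∀ γ : ℝ, 0 < γ → γ ≤ γ₀ →
      ∀ᶠ k : ℕ in atTop, ∀ B : ℝ, B33 β k ≤ B → ∀ b j : ℕ, ((2 ^ k : ℕ) : ℝ) ^ κ ≤ b → b ≤ 2 ^ k → b ≤ j → j + b ≤ L33 K k →
        ∀ (P P' : Pfl (L33 K k)) (L : ℝ) (G : Fnl (L33 K k)) (M LG : ℝ) (ψ : Finset ℕ → CovW (L33 K k) b j) (Kp : ℝ),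
        TSw μ s (L33 K k) γ B b j P P' L → TRep μ s (L33 K k) γ B b j G M LG →
        (∀ y ω A t ρ, 0 ≤ G y ω A (wg μ s (L33 K k) γ B b j y ω t) ρ) → (∀ A, (ψ A).K ≤ Kp) →
        Real.exp (2 * Kp) * ((M * L + LG) + 2 * M) ≤ 1 / 3 * (M * Real.exp (((2 ^ k : ℕ) : ℝ) ^ c₃)) →
        (avy (ys33 μ s K k) (fun y => ∫ ω, gm (wf μ s (L33 K k) γ B b j y ω + (ψ (flp j ω.2)).F y ω) (fun x =>
            iv (P y ω (flp j ω.2) (wf μ s (L33 K k) γ B b j y ω) fun _ => x) *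
              G y ω (flp j ω.2) (wf μ s (L33 K k) γ B b j y ω) fun _ => x) ∂(Pm μ (L33 K k))) ≤
          avy (ys33 μ s K k) (fun y => ∫ ω, gm (wm μ s (L33 K k) (Pn (L33 K k) y) ω + (ψ ω.2).F y ω) (fun x =>
            iv (P' y ω ω.2 (wm μ s (L33 K k) (Pn (L33 K k) y) ω) fun _ => x) *
              G y ω ω.2 (wm μ s (L33 K k) (Pn (L33 K k) y) ω) fun _ => x) ∂(Pm μ (L33 K k))) + M * (((2 ^ k : ℕ) : ℝ) ^ 5)⁻¹) ∧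
        (avy (ys33 μ s K k) (fun y => ∫ ω, gm (wm μ s (L33 K k) (Pn (L33 K k) y) ω + (ψ ω.2).F y ω) (fun x =>
            iv (P y ω ω.2 (wm μ s (L33 K k) (Pn (L33 K k) y) ω) fun _ => x) *
              G y ω ω.2 (wm μ s (L33 K k) (Pn (L33 K k) y) ω) fun _ => x) ∂(Pm μ (L33 K k))) ≤
          avy (ys33 μ s K k) (fun y => ∫ ω, gm (wf μ s (L33 K k) γ B b j y ω + (ψ (flp j ω.2)).F y ω) (fun x =>
            iv (P' y ω (flp j ω.2) (wf μ s (L33 K k) γ B b j y ω) fun _ => x) *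
              G y ω (flp j ω.2) (wf μ s (L33 K k) γ B b j y ω) fun _ => x) ∂(Pm μ (L33 K k))) + M * (((2 ^ k : ℕ) : ℝ) ^ 5)⁻¹) := by
  obtain ⟨c₃, hc₃, h1⟩ := fl_33 h hK hκ 8
  refine ⟨c₃, hc₃, fun β hβ => ?_⟩
  obtain ⟨γ₀, hγ₀, h1⟩ := h1 β hβ
  refine ⟨γ₀, hγ₀, fun γ hγ hγ' => ?_⟩
  filter_upwards [h1 γ hγ hγ', ev_n one_pos 16, ev_n hκ 1] with k h2 h3 h4 B hB b j hb hbn hbj hj P P' L G M LG ψ Kp hP hG G0 hψ hL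
  rw [Real.rpow_one] at h3
  obtain ⟨⟨g1, g2⟩, h2⟩ := h2
  obtain ⟨θ, ε, hθ0, hθ, hε, hE⟩ := h2 B hB
  have hb1 : 0 < b := by
    have : (1 : ℝ) ≤ b := h4.trans hb
    exact_mod_cast this
  have e := err_E hG.nonneg.1 hL h3 (M33_real k).symm hθ0 hθ hε
  refine ⟨?_, ?_⟩
  · exact (hP.flip (y₀ := y33 μ s K k) (m := M33 k) hb1 hj hG G0 ψ hψ (by omega) Nat.one_le_two_pow (by omega) (hE b j hb hbn hbj hj)).trans (add_le_add le_rfl e)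
  · exact (hP.unflip (y₀ := y33 μ s K k) (m := M33 k) hb1 hj hG G0 ψ hψ (by omega) Nat.one_le_two_pow (by omega) (hE b j hb hbn hbj hj)).trans (add_le_add le_rfl e)

end

end Pool.Agent.W_7d29a1_C0.FlipR4
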