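import Pool.Agent.W_7d29a1_C0.FlipQ61

/-!
CURV0 (MP_7d29a1_pr), E7, SEVERAL REPLICAS, AND TWO LEVELS (helper61). The mean of an expression of several replicas under the clipped flip
of the kick of the row `j` is its mean under the actual measure, averaged over the environment, the signs and the pinned ends. `law_mean`:
the error is that of `FErr` (means). `law_lev`: the error in the form of two levels `FErr2` (the errors of the flip are at most `θ` off an
event of probability `ε`), so that the Lipschitz constant may be as large as a power of `1 / θ`.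
-/

set_option autoImplicit false
set_option linter.unusedSectionVars false

namespace Pool.Agent.W_7d29a1_C0.Flip61

open Pool.Agent.W_7d29a1_F hiding W_pos W_nonneg W_add
open Finset MeasureTheory Pool.Agent.W_7d29a1_X Pool.Agent.W_7d29a1_HZ
open Pool.Agent.W_7d29a1_Z74
open Pool.Agent.W_7d29a1_HZ.Z74
open Pool.Agent.W_7d29a1_C0.Mod92
open Pool.Agent.W_7d29a1_C0.Blk18
open Pool.Agent.W_7d29a1_C0.Pin18
open Pool.W7d29a1.C0 (gz gm gz_pos gz_ne gm_const gm_mono gm_nonneg gm_sub)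
open Pool.W7d29a1.C0.VT31 (Mp Crs cE cV cC gc gv)

noncomputable section

variable {μ : Measure ℝ} {s : ℝ} {N : ℕ} {ι β : Type*} [IsProbabilityMeasure μ]

/-- **The errors of the flip in the form of two levels.** -/
structure FErr2 (μ : Measure ℝ) (s : ℝ) (N : ℕ) (δ B : ℝ) (b j y₀ m : ℕ) (θ ε : ℝ) : Prop where
  th : 0 ≤ θ
  clip : ∀ A : Finset ℕ, ∀ y ∈ Ico y₀ (y₀ + m), (law μ).real {η | θ < clip μ s N δ B b j (sg A j) y η} ≤ ε
  nok : ∀ A : Finset ℕ, ∀ y ∈ Ico y₀ (y₀ + m),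
    (law μ).real {η | θ < nok μ s N (j - b) (j + b - (j - b)) (-sg A j) (nb (sg A j) y) η} ≤ ε

/-- The integral of a function with two bounds. -/
theorem int_lev {f u v : Env → ℝ} (hf : Measurable f) (hu : Measurable u) (hv : Measurable v) {L K θ ε : ℝ} (hL : 0 ≤ L) (hK : 0 ≤ K)
    (hθ : 0 ≤ θ) (h1 : ∀ η, |f η| ≤ L * (u η + 2 * v η)) (h2 : ∀ η, |f η| ≤ K) (pu : (law μ).real {η | θ < u η} ≤ ε)
    (pv : (law μ).real {η | θ < v η} ≤ ε) : |∫ η, f η ∂(law μ)| ≤ 3 * L * θ + 2 * K * ε := by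
  have mu : MeasurableSet {η : Env | θ < u η} := measurableSet_lt measurable_const hu
  have mv : MeasurableSet {η : Env | θ < v η} := measurableSet_lt measurable_const hv
  have i0 : Integrable (fun η : Env => |f η|) (law μ) :=
    Integrable.of_bound hf.abs.aestronglyMeasurable K (Filter.Eventually.of_forall fun η => by
      rw [Real.norm_eq_abs, abs_abs]
      exact h2 η)
  have i1 : Integrable ({η : Env | θ < u η}.indicator fun _ => K) (law μ) := (integrable_const K).indicator mu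
  have i2 : Integrable ({η : Env | θ < v η}.indicator fun _ => K) (law μ) := (integrable_const K).indicator mv
  have i3 : Integrable (fun _ : Env => 3 * L * θ) (law μ) := integrable_const _
  have hpt : ∀ η : Env, |f η| ≤ 3 * L * θ + {η : Env | θ < u η}.indicator (fun _ => K) η + {η : Env | θ < v η}.indicator (fun _ => K) η := by
    intro η
    have n1 : 0 ≤ {η : Env | θ < u η}.indicator (fun _ => K) η := Set.indicator_nonneg (fun _ _ => hK) η
    have n2 : 0 ≤ {η : Env | θ < v η}.indicator (fun _ => K) η := Set.indicator_nonneg (fun _ _ => hK) η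
    have n3 : 0 ≤ 3 * L * θ := by positivity
    by_cases c1 : θ < u η
    · rw [Set.indicator_of_mem (show η ∈ {η : Env | θ < u η} from c1)]
      have := h2 η
      linarith
    · by_cases c2 : θ < v η
      · rw [Set.indicator_of_mem (show η ∈ {η : Env | θ < v η} from c2)]
        have := h2 η
        linarith
      · have h3 : L * (u η + 2 * v η) ≤ L * (3 * θ) := mul_le_mul_of_nonneg_left (by linarith [not_lt.1 c1, not_lt.1 c2]) hL
        have := h1 η
        linarith
  have e1 : ∫ η, {η : Env | θ < u η}.indicator (fun _ => K) η ∂(law μ) = (law μ).real {η | θ < u η} * K := by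
    rw [integral_indicator mu, setIntegral_const, smul_eq_mul]
  have e2 : ∫ η, {η : Env | θ < v η}.indicator (fun _ => K) η ∂(law μ) = (law μ).real {η | θ < v η} * K := by
    rw [integral_indicator mv, setIntegral_const, smul_eq_mul]
  have e3 : ∫ η : Env, (3 * L * θ + {η : Env | θ < u η}.indicator (fun _ => K) η + {η : Env | θ < v η}.indicator (fun _ => K) η) ∂(law μ) =
      3 * L * θ + (law μ).real {η | θ < u η} * K + (law μ).real {η | θ < v η} * K := by
    have a1 := integral_add (i3.add i1) i2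
    have a2 := integral_add i3 i1
    have a3 : ∫ _ : Env, 3 * L * θ ∂(law μ) = 3 * L * θ := by simp
    simp only [Pi.add_apply] at a1 a2
    rw [a1, a2, a3, e1, e2]
  calc |∫ η, f η ∂(law μ)| ≤ ∫ η, |f η| ∂(law μ) := abs_integral_le_integral_abs
    _ ≤ ∫ η : Env, (3 * L * θ + {η : Env | θ < u η}.indicator (fun _ => K) η + {η : Env | θ < v η}.indicator (fun _ => K) η) ∂(law μ) :=
        integral_mono i0 ((i3.add i1).add i2) hpt
    _ = 3 * L * θ + (law μ).real {η | θ < u η} * K + (law μ).real {η | θ < v η} * K := e3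
    _ ≤ 3 * L * θ + ε * K + ε * K := add_le_add (add_le_add le_rfl (mul_le_mul_of_nonneg_right pu hK)) (mul_le_mul_of_nonneg_right pv hK)
    _ = _ := by ring

section Law

variable {h : (y : ℕ) → Env × Finset ℕ → ι → (ℕ → Px (Pn N y)) → ℝ} {bb : ι → ℝ}

theorem int_obM {b j : ℕ} (H : ∀ i, CovM N b j (fun y ω => h y ω i) (bb i)) (C D : β → ℕ) (e : Finset ℕ → ExM ι β) (y : ℕ)
    (A : Finset ℕ) : Integrable (fun η : Env => obM μ s N C D h e y (η, A)) (law μ) :=
  Integrable.of_bound ((meas_obM H C D e y).comp (meas_pair A)).aestronglyMeasurable (ExM.bd bb (e A))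
    (Filter.Eventually.of_forall fun η => by
      rw [Real.norm_eq_abs]
      exact obM_bdd H C D e y (η, A))

theorem int_obfM {b j : ℕ} (H : ∀ i, CovM N b j (fun y ω => h y ω i) (bb i)) (δ B : ℝ) (C D : β → ℕ) (e : Finset ℕ → ExM ι β)
    (y : ℕ) (A : Finset ℕ) : Integrable (fun η : Env => obfM μ s N δ B b j C D h e y (η, A)) (law μ) :=
  Integrable.of_bound ((meas_obfM H δ B C D e y).comp (meas_pair A)).aestronglyMeasurable (ExM.bd bb (e (flp j A)))
    (Filter.Eventually.of_forall fun η => by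
      rw [Real.norm_eq_abs]
      exact obfM_bdd H δ B C D e y (η, A))

/-- One pinned end, mean over the environment, both forms of the error. -/
theorem one_intM {b j : ℕ} (hb : 0 < b) (hjN : j + b ≤ N) (H : ∀ i, CovM N b j (fun y ω => h y ω i) (bb i))
    (C D : β → ℕ) (hC : ∀ i, C i ≤ j - b) (hD : ∀ i, j + b ≤ D i) (e : Finset ℕ → ExM ι β) (hs : ∀ A, ExM.Sc 1 (e A))
    (δ B : ℝ) {y : ℕ} (hy : 1 ≤ y) (hyN : y < N) (A : Finset ℕ) {L : ℝ} (hL : ∀ A, ExM.li bb (e A) + 2 * ExM.bd bb (e A) ≤ L) :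
    |∫ η, obfM μ s N δ B b j C D h e y (η, A) ∂(law μ) -
        ∫ η, obM μ s N C D h e (nb (sg A j) y) (η, flp j A) ∂(law μ)| ≤
      L * (∫ η, clip μ s N δ B b j (sg A j) y η ∂(law μ) +
        2 * ∫ η, nok μ s N (j - b) (j + b - (j - b)) (-sg A j) (nb (sg A j) y) η ∂(law μ)) ∧
    ∀ M θ ε : ℝ, (∀ y ω, |obM μ s N C D h e y ω| ≤ M) → (∀ y ω, |obfM μ s N δ B b j C D h e y ω| ≤ M) → 0 ≤ θ →
      (law μ).real {η | θ < clip μ s N δ B b j (sg A j) y η} ≤ ε →
      (law μ).real {η | θ < nok μ s N (j - b) (j + b - (j - b)) (-sg A j) (nb (sg A j) y) η} ≤ ε →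
      |∫ η, obfM μ s N δ B b j C D h e y (η, A) ∂(law μ) -
        ∫ η, obM μ s N C D h e (nb (sg A j) y) (η, flp j A) ∂(law μ)| ≤ 3 * L * θ + 4 * M * ε := by
  have hp0 := fun i => (H i).pos
  have m1 : Measurable fun η : Env => obfM μ s N δ B b j C D h e y (η, A) := (meas_obfM H δ B C D e y).comp (meas_pair A)
  have m2 : Measurable fun η : Env => obM μ s N C D h e (nb (sg A j) y) (η, flp j A) :=
    (meas_obM H C D e _).comp (meas_pair _)
  have mps := mp_shj (μ := μ) (j : ℤ) (-sg A j)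
  have ms : Measurable (shj (j : ℤ) (-sg A j)) := mps.measurable
  have m2' : Measurable fun η : Env => obM μ s N C D h e (nb (sg A j) y) (shj (j : ℤ) (-sg A j) η, flp j A) := m2.comp ms
  have m3 : Measurable fun η : Env => nok μ s N (j - b) (j + b - (j - b)) (-sg A j) (nb (sg A j) y) η := meas_nok _ _ _ _
  have m3' : Measurable fun η : Env => nok μ s N (j - b) (j + b - (j - b)) (-sg A j) (nb (sg A j) y) (shj (j : ℤ) (-sg A j) η) := m3.comp ms
  have m4 : Measurable fun η : Env => clip μ s N δ B b j (sg A j) y η := meas_clip _ _ _ _ _ _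
  have i1 := int_obfM (μ := μ) (s := s) H δ B C D e y A
  have b2 : ∀ η, |obM μ s N C D h e (nb (sg A j) y) (shj (j : ℤ) (-sg A j) η, flp j A)| ≤ ExM.bd bb (e (flp j A)) := fun η =>
    obM_bdd H C D e _ (shj (j : ℤ) (-sg A j) η, flp j A)
  have i2 : Integrable (fun η : Env => obM μ s N C D h e (nb (sg A j) y) (shj (j : ℤ) (-sg A j) η, flp j A)) (law μ) :=
    Integrable.of_bound m2'.aestronglyMeasurable (ExM.bd bb (e (flp j A))) (Filter.Eventually.of_forall fun η => by
      rw [Real.norm_eq_abs]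
      exact b2 η)
  have i3 : Integrable (fun η : Env => nok μ s N (j - b) (j + b - (j - b)) (-sg A j) (nb (sg A j) y) (shj (j : ℤ) (-sg A j) η)) (law μ) :=
    Integrable.of_bound m3'.aestronglyMeasurable 1 (Filter.Eventually.of_forall fun η => by
      rw [Real.norm_eq_abs, abs_of_nonneg (nok_nonneg _ _ _ _ _)]
      exact nok_le _ _ _ _ _)
  have i4 : Integrable (fun η : Env => clip μ s N δ B b j (sg A j) y η) (law μ) :=
    Integrable.of_bound m4.aestronglyMeasurable 2 (Filter.Eventually.of_forall fun η => by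
      rw [Real.norm_eq_abs, abs_of_nonneg (clip_nonneg _ _ _ _ _ _ _)]
      exact clip_le _ _ _ _ _ _ _)
  have hpt : ∀ η, |obfM μ s N δ B b j C D h e y (η, A) - obM μ s N C D h e (nb (sg A j) y) (shj (j : ℤ) (-sg A j) η, flp j A)| ≤
      L * (clip μ s N δ B b j (sg A j) y η + 2 * nok μ s N (j - b) (j + b - (j - b)) (-sg A j) (nb (sg A j) y) (shj (j : ℤ) (-sg A j) η)) :=
    fun η => one_endM hb hjN H C D hC hD e hs δ B hy hyN (η, A) hL
  rw [← int_shj (μ := μ) (j : ℤ) (-sg A j) m2, ← integral_sub i1 i2]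
  refine ⟨?_, fun M θ ε hM hM' hθ p1 p2 => ?_⟩
  · rw [← int_shj (μ := μ) (j : ℤ) (-sg A j) m3, ← integral_const_mul, ← integral_add i4 (i3.const_mul 2), ← integral_const_mul]
    refine (abs_integral_le_integral_abs).trans ?_
    exact integral_mono (i1.sub i2).abs ((i4.add (i3.const_mul 2)).const_mul L) hpt
  · have hL0 : 0 ≤ L := by
      have h1 := hL ∅
      have h2 := ExM.bd_nonneg hp0 (e ∅)
      have h3 := ExM.li_nonneg hp0 (e ∅)
      linarith
    have hM0 : 0 ≤ M := (abs_nonneg _).trans (hM 0 (fun _ => 0, ∅))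
    have p2' : (law μ).real {η | θ < nok μ s N (j - b) (j + b - (j - b)) (-sg A j) (nb (sg A j) y) (shj (j : ℤ) (-sg A j) η)} ≤ ε := by
      have e1 := mps.measureReal_preimage (s := {η | θ < nok μ s N (j - b) (j + b - (j - b)) (-sg A j) (nb (sg A j) y) η})
        (measurableSet_lt measurable_const m3).nullMeasurableSet
      rw [← e1] at p2
      exact p2
    have hfin := int_lev (μ := μ) (f := fun η => obfM μ s N δ B b j C D h e y (η, A) -
        obM μ s N C D h e (nb (sg A j) y) (shj (j : ℤ) (-sg A j) η, flp j A)) (m1.sub m2') m4 m3' hL0 (K := 2 * M) (by linarith) hθ hpt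
      (fun η => by
        have h1 := hM' y (η, A)
        have h2 := hM (nb (sg A j) y) (shj (j : ℤ) (-sg A j) η, flp j A)
        have h4 := abs_sub (obfM μ s N δ B b j C D h e y (η, A)) (obM μ s N C D h e (nb (sg A j) y) (shj (j : ℤ) (-sg A j) η, flp j A))
        linarith) p1 p2'
    refine hfin.trans (le_of_eq ?_)
    ring

variable {b j : ℕ} {δ B : ℝ} {L M : ℝ} {y₀ m : ℕ}

/-- The reduction to one pinned end. -/
theorem law_red (hb : 0 < b) (hj : j + b ≤ N) (H : ∀ i, CovM N b j (fun y ω => h y ω i) (bb i)) (C D : β → ℕ)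
    (e : Finset ℕ → ExM ι β) (hM : ∀ y ω, |obM μ s N C D h e y ω| ≤ M) (hy : 1 ≤ y₀) (hm : 1 ≤ m) {κ : ℝ}
    (hκ : ∀ A ∈ (range N).powerset, ∀ y ∈ Ico y₀ (y₀ + m), |∫ η, obfM μ s N δ B b j C D h e y (η, A) ∂(law μ) -
        ∫ η, obM μ s N C D h e (nb (sg A j) y) (η, flp j A) ∂(law μ)| ≤ κ) :
    |(m : ℝ)⁻¹ * ∑ y ∈ Ico y₀ (y₀ + m), ∫ ω, (obM μ s N C D h e y ω - obfM μ s N δ B b j C D h e y ω) ∂(Pm μ N)| ≤ 2 * M / m + κ := by
  have hjN : j < N := by omega
  have i1 := fun y A => int_obM (μ := μ) (s := s) H C D e y A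
  have i2 := fun y A => int_obfM (μ := μ) (s := s) H δ B C D e y A
  have e1 : ∀ y, ∫ ω, (obM μ s N C D h e y ω - obfM μ s N δ B b j C D h e y ω) ∂(Pm μ N) =
      (2 ^ N : ℝ)⁻¹ * ∑ A ∈ (range N).powerset, (∫ η, obM μ s N C D h e y (η, A) ∂(law μ) -
        ∫ η, obfM μ s N δ B b j C D h e y (η, A) ∂(law μ)) := by
    intro y
    rw [int_Pm (Φ := fun ω => obM μ s N C D h e y ω - obfM μ s N δ B b j C D h e y ω) (fun A _ => (i1 y A).sub (i2 y A))
      fun A => ((meas_obM H C D e y).sub (meas_obfM H δ B C D e y)).comp (meas_pair A)]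
    congr 1
    exact sum_congr rfl fun A _ => integral_sub (i1 y A) (i2 y A)
  simp only [e1]
  exact pin_even hjN (F := fun A y => ∫ η, obM μ s N C D h e y (η, A) ∂(law μ))
    (Fl := fun A y => ∫ η, obfM μ s N δ B b j C D h e y (η, A) ∂(law μ)) (M := M) (e := κ)
    (fun A y => abs_int_le fun η => hM y (η, A)) hy hm hκ

/-- **THE LAW INVARIANCE, SEVERAL REPLICAS**, mean error. -/
theorem law_mean (hb : 0 < b) (hj : j + b ≤ N) (H : ∀ i, CovM N b j (fun y ω => h y ω i) (bb i)) (C D : β → ℕ)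
    (hC : ∀ i, C i ≤ j - b) (hD : ∀ i, j + b ≤ D i) (e : Finset ℕ → ExM ι β) (hs : ∀ A, ExM.Sc 1 (e A))
    (hL : ∀ A, ExM.li bb (e A) + 2 * ExM.bd bb (e A) ≤ L) (hM : ∀ y ω, |obM μ s N C D h e y ω| ≤ M) (hy : 1 ≤ y₀) (hm : 1 ≤ m)
    (hyN : y₀ + m ≤ N) {ε : ℝ} (hE : FErr μ s N δ B b j y₀ m ε) :
    |(m : ℝ)⁻¹ * ∑ y ∈ Ico y₀ (y₀ + m), ∫ ω, (obM μ s N C D h e y ω - obfM μ s N δ B b j C D h e y ω) ∂(Pm μ N)| ≤
      2 * M / m + 3 * L * ε := by
  have hp0 := fun i => (H i).pos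
  have hL0 : 0 ≤ L := by
    have h1 := hL ∅
    have h2 := ExM.bd_nonneg hp0 (e ∅)
    have h3 := ExM.li_nonneg hp0 (e ∅)
    linarith
  refine law_red hb hj H C D e hM hy hm fun A _ y hy' => ?_
  have hy2 := mem_Ico.1 hy'
  refine (one_intM hb hj H C D hC hD e hs δ B (by omega) (by omega) A hL).1.trans ?_
  have h1 := hE.clip A y hy'
  have h2 := hE.nok A y hy'
  calc _ ≤ L * (3 * ε) := mul_le_mul_of_nonneg_left (by linarith) hL0
    _ = _ := by ring

/-- **THE LAW INVARIANCE, SEVERAL REPLICAS**, two levels. -/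
theorem law_lev (hb : 0 < b) (hj : j + b ≤ N) (H : ∀ i, CovM N b j (fun y ω => h y ω i) (bb i)) (C D : β → ℕ)
    (hC : ∀ i, C i ≤ j - b) (hD : ∀ i, j + b ≤ D i) (e : Finset ℕ → ExM ι β) (hs : ∀ A, ExM.Sc 1 (e A))
    (hL : ∀ A, ExM.li bb (e A) + 2 * ExM.bd bb (e A) ≤ L) (hM : ∀ y ω, |obM μ s N C D h e y ω| ≤ M)
    (hM' : ∀ y ω, |obfM μ s N δ B b j C D h e y ω| ≤ M) (hy : 1 ≤ y₀) (hm : 1 ≤ m)
    (hyN : y₀ + m ≤ N) {θ ε : ℝ} (hE : FErr2 μ s N δ B b j y₀ m θ ε) :
    |(m : ℝ)⁻¹ * ∑ y ∈ Ico y₀ (y₀ + m), ∫ ω, (obM μ s N C D h e y ω - obfM μ s N δ B b j C D h e y ω) ∂(Pm μ N)| ≤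
      2 * M / m + (3 * L * θ + 4 * M * ε) := by
  refine law_red hb hj H C D e hM hy hm fun A _ y hy' => ?_
  have hy2 := mem_Ico.1 hy'
  exact (one_intM hb hj H C D hC hD e hs δ B (by omega) (by omega) A hL).2 M θ ε hM hM' hE.th (hE.clip A y hy') (hE.nok A y hy')

end Law

end

end Pool.Agent.W_7d29a1_C0.Flip61
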