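import Pool.Agent.W_7d29a1_C0.FlipR61
import Pool.Agent.W_7d29a1_C0.FlipK61

/-!
CURV0 (MP_7d29a1_pr), E7, SEVERAL REPLICAS (helper61): constructors. `SCov` = static covariant data of the replicas (positions outside of the
open window, differences, meetings), `Rep` = functionals of the weight and of the replicas given by an expression; `Rep.law` = the law
invariance for them.
-/

set_option autoImplicit false
set_option linter.unusedSectionVars false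
set_option linter.unusedVariables false

namespace Pool.Agent.W_7d29a1_C0.Flip61

open Pool.Agent.W_7d29a1_F hiding W_pos W_nonneg W_add
open Finset MeasureTheory Pool.Agent.W_7d29a1_X Pool.Agent.W_7d29a1_HZ
open Pool.Agent.W_7d29a1_Z74
open Pool.Agent.W_7d29a1_HZ.Z74
open Pool.Agent.W_7d29a1_C0.Mod92
open Pool.Agent.W_7d29a1_C0.Blk18
open Pool.Agent.W_7d29a1_C0.Pin18
open Pool.W7d29a1.C0 (gz gm gz_pos gz_ne gm_const gm_mono gm_nonneg gm_sub)
open Pool.W7d29a1.C0.VT31 (Mp Crs cE cV cC gc gv)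

noncomputable section

variable {μ : Measure ℝ} {s : ℝ} {N b j : ℕ}

/-! ### Static data -/

/-- **Covariant static data** of the replicas: the same outside data give the same value, also at the flipped end and environment. -/
structure SCov (N b j : ℕ) {T : Type*} (F : (y : ℕ) → Env × Finset ℕ → (ℕ → Px (Pn N y)) → T) : Prop where
  mp : ∀ y ω ρ ρ', (∀ n, dJ (j - b) (j + b - (j - b)) 0 (ρ n).1 = dJ (j - b) (j + b - (j - b)) 0 (ρ' n).1) → F y ω ρ = F y ω ρ'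
  eqv : ∀ y, 1 ≤ y → y < N → ∀ (ω : Env × Finset ℕ) (ρ : ℕ → Px (Pn N y)) (ρ' : ℕ → Px (Pn N (nb (sg ω.2 j) y))),
    (∀ n, dJ (j - b) (j + b - (j - b)) 0 (ρ n).1 = dJ (j - b) (j + b - (j - b)) (-sg ω.2 j) (ρ' n).1) →
      F y ω ρ = F (nb (sg ω.2 j) y) (Tj j ω) ρ'

namespace SCov

variable {T T' T'' : Type*} {F : (y : ℕ) → Env × Finset ℕ → (ℕ → Px (Pn N y)) → T}
  {G : (y : ℕ) → Env × Finset ℕ → (ℕ → Px (Pn N y)) → T'}

theorem const (c : T) : SCov N b j (fun _ _ _ => c) := ⟨fun _ _ _ _ _ => rfl, fun _ _ _ _ _ _ _ => rfl⟩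

theorem map (φ : T → T') (H : SCov N b j F) : SCov N b j (fun y ω ρ => φ (F y ω ρ)) :=
  ⟨fun y ω ρ ρ' h => congrArg φ (H.mp y ω ρ ρ' h), fun y h1 h2 ω ρ ρ' h => congrArg φ (H.eqv y h1 h2 ω ρ ρ' h)⟩

theorem map₂ (φ : T → T' → T'') (H : SCov N b j F) (K : SCov N b j G) : SCov N b j (fun y ω ρ => φ (F y ω ρ) (G y ω ρ)) :=
  ⟨fun y ω ρ ρ' h => congrArg₂ φ (H.mp y ω ρ ρ' h) (K.mp y ω ρ ρ' h),
    fun y h1 h2 ω ρ ρ' h => congrArg₂ φ (H.eqv y h1 h2 ω ρ ρ' h) (K.eqv y h1 h2 ω ρ ρ' h)⟩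

theorem pi {I : Type*} {F : I → (y : ℕ) → Env × Finset ℕ → (ℕ → Px (Pn N y)) → T} (H : ∀ i, SCov N b j (F i)) :
    SCov N b j (fun y ω ρ i => F i y ω ρ) :=
  ⟨fun y ω ρ ρ' h => funext fun i => (H i).mp y ω ρ ρ' h, fun y h1 h2 ω ρ ρ' h => funext fun i => (H i).eqv y h1 h2 ω ρ ρ' h⟩

/-- Other replicas. -/
theorem re (r : ℕ → ℕ) (H : SCov N b j F) : SCov N b j (fun y ω ρ => F y ω fun n => ρ (r n)) :=
  ⟨fun y ω ρ ρ' h => H.mp y ω _ _ fun n => h (r n), fun y h1 h2 ω ρ ρ' h => H.eqv y h1 h2 ω _ _ fun n => h (r n)⟩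

/-- A smaller window. -/
theorem window {b₀ : ℕ} (hb : b₀ ≤ b) (H : SCov N b j F) : SCov N b₀ j F :=
  ⟨fun y ω ρ ρ' h => H.mp y ω ρ ρ' fun n => by
      rw [← oq_dJ' (c := j - b) (l := j + b - (j - b)) (c₀ := j - b₀) (l₀ := j + b₀ - (j - b₀)) (by omega) (by omega) 0 (ρ n).1,
        ← oq_dJ' (c := j - b) (l := j + b - (j - b)) (c₀ := j - b₀) (l₀ := j + b₀ - (j - b₀)) (by omega) (by omega) 0 (ρ' n).1, h n],
    fun y h1 h2 ω ρ ρ' h => H.eqv y h1 h2 ω ρ ρ' fun n => by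
      rw [← oq_dJ' (c := j - b) (l := j + b - (j - b)) (c₀ := j - b₀) (l₀ := j + b₀ - (j - b₀)) (by omega) (by omega) 0 (ρ n).1,
        ← oq_dJ' (c := j - b) (l := j + b - (j - b)) (c₀ := j - b₀) (l₀ := j + b₀ - (j - b₀)) (by omega) (by omega) (-sg ω.2 j) (ρ' n).1,
        h n]⟩

end SCov

/-- The position of a replica in a row outside of the open window, seen from the end behind the window. -/
def rp (b j y : ℕ) {Q : Finset (Finset ℕ)} (S : Px Q) (t : ℕ) : ℤ := if t ≤ j - b then ps S t else ps S t - y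

theorem nb_eq {y : ℕ} (hy : 1 ≤ y) (ω : Env × Finset ℕ) : ((nb (sg ω.2 j) y : ℕ) : ℤ) = y + sg ω.2 j := by
  unfold nb
  rcases sg_or ω.2 j with h1 | h1 <;> rw [h1] <;> omega

theorem scov_rp {t : ℕ} (ht : t ≤ j - b ∨ j + b ≤ t) (n : ℕ) : SCov N b j (fun y _ ρ => rp b j y (ρ n) t) := by
  refine ⟨fun y ω ρ ρ' h => ?_, fun y h1 h2 ω ρ ρ' h => ?_⟩
  · show rp b j y (ρ n) t = rp b j y (ρ' n) t
    unfold rp ps
    split_ifs with h3
    · exact same_le (h n) h3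
    · have h4 := same_ge (h n) (t := t) (by rw [hcl]; omega)
      rw [h4, add_zero]
  · show rp b j y (ρ n) t = rp b j (nb (sg ω.2 j) y) (ρ' n) t
    unfold rp ps
    split_ifs with h3
    · exact same_le (h n) h3
    · have h4 := same_ge (h n) (t := t) (by rw [hcl]; omega)
      rw [h4, nb_eq h1 ω]
      ring

/-- The rows outside of the open window in which two replicas meet. -/
def Mo (b j : ℕ) {Q : Finset (Finset ℕ)} (S S' : Px Q) (t : ℕ) : Prop := (t ≤ j - b ∨ j + b ≤ t) ∧ ps S t = ps S' t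

theorem scov_Mo (n n' : ℕ) : SCov N b j (fun _ _ ρ => Mo b j (ρ n) (ρ n')) := by
  refine ⟨fun y ω ρ ρ' h => ?_, fun y h1 h2 ω ρ ρ' h => ?_⟩
  · funext t
    refine propext (and_congr_right fun ht => ?_)
    rcases ht with ht | ht
    · rw [show ps (ρ n) t = ps (ρ' n) t from same_le (h n) ht, show ps (ρ n') t = ps (ρ' n') t from same_le (h n') ht]
    · rw [show ps (ρ n) t = ps (ρ' n) t + 0 from same_ge (h n) (by rw [hcl]; exact ht),
        show ps (ρ n') t = ps (ρ' n') t + 0 from same_ge (h n') (by rw [hcl]; exact ht), add_zero, add_zero]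
  · funext t
    refine propext (and_congr_right fun ht => ?_)
    rcases ht with ht | ht
    · rw [show ps (ρ n) t = ps (ρ' n) t from same_le (h n) ht, show ps (ρ n') t = ps (ρ' n') t from same_le (h n') ht]
    · rw [show ps (ρ n) t = ps (ρ' n) t + -sg ω.2 j from same_ge (h n) (by rw [hcl]; exact ht),
        show ps (ρ n') t = ps (ρ' n') t + -sg ω.2 j from same_ge (h n') (by rw [hcl]; exact ht)]
      exact add_left_inj _

theorem SCov.covM {F : (y : ℕ) → Env × Finset ℕ → (ℕ → Px (Pn N y)) → ℝ} {M : ℝ} (H : SCov N b j F) (h0 : 0 ≤ M)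
    (hb : ∀ y ω ρ, |F y ω ρ| ≤ M) (hm : ∀ y ρ, Measurable fun ω => F y ω ρ) : CovM N b j F M := ⟨h0, hb, hm, H.mp, H.eqv⟩

namespace CovM

variable {F G : (y : ℕ) → Env × Finset ℕ → (ℕ → Px (Pn N y)) → ℝ} {M M' : ℝ}

theorem scov (H : CovM N b j F M) : SCov N b j F := ⟨H.mp, H.eqv⟩

theorem mono (H : CovM N b j F M) (h : M ≤ M') : CovM N b j F M' :=
  ⟨H.pos.trans h, fun y ω ρ => (H.bdd y ω ρ).trans h, H.mes, H.mp, H.eqv⟩

theorem const (r : ℝ) : CovM N b j (fun _ _ _ => r) |r| :=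
  (SCov.const r).covM (abs_nonneg r) (fun _ _ _ => le_rfl) fun _ _ => measurable_const

theorem add (H : CovM N b j F M) (K : CovM N b j G M') : CovM N b j (fun y ω ρ => F y ω ρ + G y ω ρ) (M + M') :=
  (H.scov.map₂ (fun x x' => x + x') K.scov).covM (add_nonneg H.pos K.pos)
    (fun y ω ρ => (abs_add_le _ _).trans (add_le_add (H.bdd y ω ρ) (K.bdd y ω ρ))) fun y ρ => (H.mes y ρ).add (K.mes y ρ)

theorem sub (H : CovM N b j F M) (K : CovM N b j G M') : CovM N b j (fun y ω ρ => F y ω ρ - G y ω ρ) (M + M') :=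
  (H.scov.map₂ (fun x x' => x - x') K.scov).covM (add_nonneg H.pos K.pos)
    (fun y ω ρ => (abs_sub _ _).trans (add_le_add (H.bdd y ω ρ) (K.bdd y ω ρ))) fun y ρ => (H.mes y ρ).sub (K.mes y ρ)

theorem mul (H : CovM N b j F M) (K : CovM N b j G M') : CovM N b j (fun y ω ρ => F y ω ρ * G y ω ρ) (M * M') :=
  (H.scov.map₂ (fun x x' => x * x') K.scov).covM (mul_nonneg H.pos K.pos)
    (fun y ω ρ => by
      rw [abs_mul]
      exact mul_le_mul (H.bdd y ω ρ) (K.bdd y ω ρ) (abs_nonneg _) H.pos) fun y ρ => (H.mes y ρ).mul (K.mes y ρ)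

theorem abs (H : CovM N b j F M) : CovM N b j (fun y ω ρ => |F y ω ρ|) M :=
  (H.scov.map fun x => |x|).covM H.pos (fun y ω ρ => by
    rw [abs_abs]
    exact H.bdd y ω ρ) fun y ρ => (H.mes y ρ).norm

/-- Other replicas. -/
theorem re (r : ℕ → ℕ) (H : CovM N b j F M) : CovM N b j (fun y ω ρ => F y ω fun n => ρ (r n)) M :=
  (H.scov.re r).covM H.pos (fun y ω ρ => H.bdd y ω _) fun y ρ => H.mes y _

/-- A smaller window. -/
theorem window {b₀ : ℕ} (hb : b₀ ≤ b) (H : CovM N b j F M) : CovM N b₀ j F M :=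
  (H.scov.window hb).covM H.pos H.bdd H.mes

/-- A covariant function of one replica. -/
theorem of1 {f : (y : ℕ) → Env × Finset ℕ → Px (Pn N y) → ℝ} (H : Cov1 N b j f M) (n : ℕ) : CovM N b j (fun y ω ρ => f y ω (ρ n)) M :=
  ⟨H.pos, fun y ω ρ => H.bdd y ω _, fun y ρ => H.mes y _, fun y ω ρ ρ' h => mp_iff'.1 (H.mp y ω) _ _ (h n),
    fun y h1 h2 ω ρ ρ' h => H.eqv y h1 h2 ω _ _ (h n)⟩

/-- A static function without the environment. -/
theorem of_static {T : Type*} {F : (y : ℕ) → (ℕ → Px (Pn N y)) → T} (H : SCov N b j fun y _ ρ => F y ρ) (φ : T → ℝ) {M : ℝ}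
    (h0 : 0 ≤ M) (hφ : ∀ x, |φ x| ≤ M) : CovM N b j (fun y _ ρ => φ (F y ρ)) M :=
  (H.map φ).covM h0 (fun _ _ _ => hφ _) fun _ _ => measurable_const

/-- **The mean over a new replica given the outside of a block disjoint from the window** is covariant. -/
theorem ce (H : CovM N b j F M) {c d : ℕ} (hcd : c ≤ d) (hdN : d ≤ N) (hW : d ≤ j - b ∨ j + b ≤ c) (n : ℕ) :
    CovM N b j (fun y ω ρ => cE (wm μ s N (Pn N y) ω) (pJ c d) (fun z => F y ω (cns z ρ)) (ρ n)) M := by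
  have hW' : d ≤ j - b ∨ j - b + (j + b - (j - b)) ≤ c := by rw [hcl]; exact hW
  refine ⟨H.pos, fun y ω ρ => ?_, fun y ρ => ?_, fun y ω ρ ρ' h => ?_, fun y h1 h2 ω ρ ρ' h => ?_⟩
  · have n1 : Nonempty (Px (Pn N y)) := ⟨ρ 0⟩
    exact abs_cE_le _ _ (fun z => H.bdd y ω (cns z ρ)) _
  · have n1 : Nonempty (Px (Pn N y)) := ⟨ρ 0⟩
    exact meas_cE meas_wm (fun z => H.mes y (cns z ρ)) _ _
  · have n1 : Nonempty (Px (Pn N y)) := ⟨ρ 0⟩
    refine eqv_cE (c := j - b) (l := j + b - (j - b)) (k := j - (j - b)) (v := 0) (by omega) (rel_refl _ ω.1) (full_Pn N y) (full_Pn N y)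
      hcd hdN hW' (f := fun z => F y ω (cns z ρ)) (f' := fun z => F y ω (cns z ρ')) (fun S S' e => H.mp y ω _ _ fun k => ?_) _ _ (h n)
    cases k
    · exact e
    · exact h _
  · have n1 : Nonempty (Px (Pn N y)) := ne_Pn h2.le
    have n2 : Nonempty (Px (Pn N (nb (sg ω.2 j) y))) := ne_Pn (nb_le h2 ω)
    refine eqv_cE (c := j - b) (l := j + b - (j - b)) (k := j - (j - b)) (by omega) (rel_Tj b j ω) (full_Pn N y) (full_Pn N _)
      hcd hdN hW' (f := fun z => F y ω (cns z ρ)) (f' := fun z => F (nb (sg ω.2 j) y) (Tj j ω) (cns z ρ'))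
      (fun S S' e => H.eqv y h1 h2 ω _ _ fun k => ?_) _ _ (h n)
    cases k
    · exact e
    · exact h _

end CovM

/-! ### Functionals of the weight and of the replicas -/

/-- A bundled covariant function. -/
structure CovF (N b j : ℕ) where
  /-- the function -/
  F : (y : ℕ) → Env × Finset ℕ → (ℕ → Px (Pn N y)) → ℝ
  /-- its bound -/
  M : ℝ
  cov : CovM N b j F M

/-- A block which contains the window. -/
structure Blk (b j : ℕ) where
  /-- the first row -/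
  c : ℕ
  /-- the last row -/
  d : ℕ
  hc : c ≤ j - b
  hd : j + b ≤ d

/-- The weight with the tilt `t` along the response of the row `j`. -/
def wg (μ : Measure ℝ) (s : ℝ) (N : ℕ) (δ B : ℝ) (b j y : ℕ) (ω : Env × Finset ℕ) (t : ℝ) : Px (Pn N y) → ℝ :=
  lw μ s ω.1 N (Pn N y) + t • gj μ s ω.1 δ B b j (sg ω.2 j)

/-- **Functionals given by an expression**, of the replicas `< a`; bound `M`, Lipschitz constant `L`. -/
def Rep (μ : Measure ℝ) (s : ℝ) (N : ℕ) (δ B : ℝ) (b j a : ℕ)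
    (G : (y : ℕ) → Env × Finset ℕ → (Px (Pn N y) → ℝ) → (ℕ → Px (Pn N y)) → ℝ) (M L : ℝ) : Prop :=
  ∃ e : ExM (CovF N b j) (Blk b j), ExM.Sc a e ∧ ExM.bd CovF.M e ≤ M ∧ ExM.li CovF.M e ≤ L ∧
    ∀ (y : ℕ) (ω : Env × Finset ℕ) (t : ℝ) (ρ : ℕ → Px (Pn N y)), G y ω (wg μ s N δ B b j y ω t) ρ =
      ExM.evX (wg μ s N δ B b j y ω t) (fun i : CovF N b j => i.F y ω) (fun k : Blk b j => pJ k.c k.d) e ρ

namespace Rep

variable {δ B : ℝ} {a : ℕ} {G H : (y : ℕ) → Env × Finset ℕ → (Px (Pn N y) → ℝ) → (ℕ → Px (Pn N y)) → ℝ} {M M' L L' : ℝ}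

theorem posM (i : CovF N b j) : 0 ≤ i.M := i.cov.pos

theorem mono (h : Rep μ s N δ B b j a G M L) (hM : M ≤ M') (hL : L ≤ L') : Rep μ s N δ B b j a G M' L' := by
  obtain ⟨e, h1, h2, h3, h4⟩ := h
  exact ⟨e, h1, h2.trans hM, h3.trans hL, h4⟩

/-- The values at the weights `wg` matter only. -/
theorem congr (h : Rep μ s N δ B b j a G M L) (e : ∀ y ω t ρ, H y ω (wg μ s N δ B b j y ω t) ρ = G y ω (wg μ s N δ B b j y ω t) ρ) :
    Rep μ s N δ B b j a H M L := by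
  obtain ⟨e', h1, h2, h3, h4⟩ := h
  exact ⟨e', h1, h2, h3, fun y ω t ρ => (e y ω t ρ).trans (h4 y ω t ρ)⟩

theorem nonneg (h : Rep μ s N δ B b j a G M L) : 0 ≤ M ∧ 0 ≤ L := by
  obtain ⟨e, _, h2, h3, _⟩ := h
  exact ⟨(ExM.bd_nonneg posM e).trans h2, (ExM.li_nonneg posM e).trans h3⟩

/-- A given function. -/
theorem fn {F : (y : ℕ) → Env × Finset ℕ → (ℕ → Px (Pn N y)) → ℝ} (h : CovM N b j F M) :
    Rep μ s N δ B b j a (fun y ω _ ρ => F y ω ρ) M 0 :=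
  ⟨ExM.fn ⟨F, M, h⟩, trivial, le_rfl, le_rfl, fun _ _ _ _ => rfl⟩

theorem cst (r : ℝ) : Rep μ s N δ B b j a (fun _ _ _ _ => r) |r| 0 :=
  ⟨ExM.cst r, trivial, le_rfl, le_rfl, fun _ _ _ _ => rfl⟩

theorem add (h : Rep μ s N δ B b j a G M L) (k : Rep μ s N δ B b j a H M' L') :
    Rep μ s N δ B b j a (fun y ω w ρ => G y ω w ρ + H y ω w ρ) (M + M') (L + L') := by
  obtain ⟨e, h1, h2, h3, h4⟩ := h
  obtain ⟨e', k1, k2, k3, k4⟩ := k
  refine ⟨ExM.add e e', ⟨h1, k1⟩, add_le_add h2 k2, add_le_add h3 k3, fun y ω t ρ => ?_⟩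
  show _ = ExM.evX _ _ _ e ρ + ExM.evX _ _ _ e' ρ
  rw [← h4, ← k4]

theorem mul (h : Rep μ s N δ B b j a G M L) (k : Rep μ s N δ B b j a H M' L') :
    Rep μ s N δ B b j a (fun y ω w ρ => G y ω w ρ * H y ω w ρ) (M * M') (M' * L + M * L') := by
  have hn := h.nonneg
  have kn := k.nonneg
  obtain ⟨e, h1, h2, h3, h4⟩ := h
  obtain ⟨e', k1, k2, k3, k4⟩ := k
  refine ⟨ExM.mul e e', ⟨h1, k1⟩, mul_le_mul h2 k2 (ExM.bd_nonneg posM _) hn.1,
    add_le_add (mul_le_mul k2 h3 (ExM.li_nonneg posM _) kn.1) (mul_le_mul h2 k3 (ExM.li_nonneg posM _) hn.1), fun y ω t ρ => ?_⟩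
  show _ = ExM.evX _ _ _ e ρ * ExM.evX _ _ _ e' ρ
  rw [← h4, ← k4]

theorem lf (φ : LipF) (h : Rep μ s N δ B b j a G M L) : Rep μ s N δ B b j a (fun y ω w ρ => φ.f (G y ω w ρ)) φ.M (φ.Λ * L) := by
  obtain ⟨e, h1, _, h3, h4⟩ := h
  refine ⟨ExM.lf φ e, h1, le_rfl, mul_le_mul_of_nonneg_left h3 φ.hΛ0, fun y ω t ρ => ?_⟩
  show _ = φ.f (ExM.evX _ _ _ e ρ)
  rw [← h4]

/-- The mean over a new replica given the outside of a block which contains the window. -/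
theorem ce {c d : ℕ} (hc : c ≤ j - b) (hd : j + b ≤ d) {n : ℕ} (hn : n < a) (h : Rep μ s N δ B b j (a + 1) G M L) :
    Rep μ s N δ B b j a (fun y ω w ρ => cE w (pJ c d) (fun z => G y ω w (cns z ρ)) (ρ n)) M (L + 2 * M) := by
  obtain ⟨e, h1, h2, h3, h4⟩ := h
  refine ⟨ExM.ce ⟨c, d, hc, hd⟩ n e, ⟨hn, h1⟩, h2, add_le_add h3 (by linarith), fun y ω t ρ => ?_⟩
  show _ = cE _ (pJ c d) (fun z => ExM.evX _ _ _ e (cns z ρ)) (ρ n)
  simp only [← h4]

/-- The mean over a new free replica. -/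
theorem me (h : Rep μ s N δ B b j (a + 1) G M L) :
    Rep μ s N δ B b j a (fun y ω w ρ => gm w fun z => G y ω w (cns z ρ)) M (L + M) := by
  obtain ⟨e, h1, h2, h3, h4⟩ := h
  refine ⟨ExM.me e, h1, h2, add_le_add h3 h2, fun y ω t ρ => ?_⟩
  show _ = gm _ fun z => ExM.evX _ _ _ e (cns z ρ)
  simp only [← h4]

/-- The response of the row `j` is seen from outside of every block disjoint from the open window. -/
theorem mp_gj_disj {Q : Finset (Finset ℕ)} (η : Env) {c d : ℕ} (hcd : c ≤ d) (hW : d ≤ j - b ∨ j + b ≤ c) (v : ℤ) (t : ℝ) :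
    Mp (pJ c d) (t • gj (Q := Q) μ s η δ B b j v) := by
  intro S S' e
  rw [Pi.smul_apply, Pi.smul_apply]
  congr 1
  unfold gj
  rcases hW with h | h
  · rw [ps_of_ge e h, ps_of_ge e (show d ≤ j + b by omega)]
  · rw [ps_of_le e (show j - b ≤ c by omega), ps_of_le e h]

/-- **The mean over a new replica given the outside of a block disjoint from the window**: the tilt does not matter. -/
theorem ceD {F : (y : ℕ) → Env × Finset ℕ → (ℕ → Px (Pn N y)) → ℝ} {c d : ℕ} (hcd : c ≤ d) (hdN : d ≤ N)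
    (hW : d ≤ j - b ∨ j + b ≤ c) (n : ℕ) (h : CovM N b j F M) (hG : ∀ y ω t ρ, G y ω (wg μ s N δ B b j y ω t) ρ = F y ω ρ) :
    CovM N b j (fun y ω ρ => cE (wm μ s N (Pn N y) ω) (pJ c d) (fun z => F y ω (cns z ρ)) (ρ n)) M ∧
    ∀ y ω t ρ, cE (wg μ s N δ B b j y ω t) (pJ c d) (fun z => G y ω (wg μ s N δ B b j y ω t) (cns z ρ)) (ρ n) =
      cE (wm μ s N (Pn N y) ω) (pJ c d) (fun z => F y ω (cns z ρ)) (ρ n) := by
  refine ⟨h.ce hcd hdN hW n, fun y ω t ρ => ?_⟩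
  simp only [hG]
  exact congrFun (cE_tilt (lw μ s ω.1 N (Pn N y)) (t • gj μ s ω.1 δ B b j (sg ω.2 j)) (mp_gj_disj ω.1 hcd hW _ t)
    (fun z => F y ω (cns z ρ))) (ρ n)

theorem of_cov {F : (y : ℕ) → Env × Finset ℕ → (ℕ → Px (Pn N y)) → ℝ} (h : CovM N b j F M)
    (hG : ∀ y ω t ρ, G y ω (wg μ s N δ B b j y ω t) ρ = F y ω ρ) : Rep μ s N δ B b j a G M 0 := (fn h).congr hG

end Rep

theorem wg_zero (δ B : ℝ) (y : ℕ) (ω : Env × Finset ℕ) : wg μ s N δ B b j y ω 0 = wm μ s N (Pn N y) ω := by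
  unfold wg wm
  rw [zero_smul, add_zero]

theorem wg_flip (δ B : ℝ) (y : ℕ) (ω : Env × Finset ℕ) : wg μ s N δ B b j y ω (-(sg ω.2 j : ℝ) - sg ω.2 j) =
    wt μ s ω.1 N (Pn N y) δ B b j (sg ω.2 j) (-(sg ω.2 j : ℝ)) := rfl

namespace Rep

variable {δ B : ℝ} {G : (y : ℕ) → Env × Finset ℕ → (Px (Pn N y) → ℝ) → (ℕ → Px (Pn N y)) → ℝ} {M L : ℝ}

/-- **THE LAW INVARIANCE FOR FUNCTIONALS OF SEVERAL REPLICAS.** -/
theorem law [IsProbabilityMeasure μ] (hb : 0 < b) (hj : j + b ≤ N) (h : Rep μ s N δ B b j 1 G M L) {y₀ m : ℕ} (hy : 1 ≤ y₀) (hm : 1 ≤ m)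
    (hyN : y₀ + m ≤ N) {θ ε : ℝ} (hE : FErr2 μ s N δ B b j y₀ m θ ε) :
    (∀ y, Integrable (fun ω => gm (wm μ s N (Pn N y) ω) fun x => G y ω (wm μ s N (Pn N y) ω) fun _ => x) (Pm μ N)) ∧
    (∀ y, Integrable (fun ω => gm (wt μ s ω.1 N (Pn N y) δ B b j (sg ω.2 j) (-(sg ω.2 j : ℝ))) fun x =>
      G y ω (wt μ s ω.1 N (Pn N y) δ B b j (sg ω.2 j) (-(sg ω.2 j : ℝ))) fun _ => x) (Pm μ N)) ∧
    |avy (Ico y₀ (y₀ + m)) (fun y => ∫ ω, gm (wm μ s N (Pn N y) ω) (fun x => G y ω (wm μ s N (Pn N y) ω) fun _ => x) ∂(Pm μ N)) -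
      avy (Ico y₀ (y₀ + m)) (fun y => ∫ ω, gm (wt μ s ω.1 N (Pn N y) δ B b j (sg ω.2 j) (-(sg ω.2 j : ℝ)))
        (fun x => G y ω (wt μ s ω.1 N (Pn N y) δ B b j (sg ω.2 j) (-(sg ω.2 j : ℝ))) fun _ => x) ∂(Pm μ N))| ≤
      2 * M / m + (3 * (L + 2 * M) * θ + 4 * M * ε) := by
  have hn := h.nonneg
  obtain ⟨e, h1, h2, h3, h4⟩ := h
  have e1 : ∀ (y : ℕ) (ω : Env × Finset ℕ), gm (wm μ s N (Pn N y) ω) (fun x => G y ω (wm μ s N (Pn N y) ω) fun _ => x) =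
      obM μ s N (fun k : Blk b j => k.c) (fun k : Blk b j => k.d) (fun y ω (i : CovF N b j) => i.F y ω) (fun _ => e) y ω := by
    intro y ω
    unfold obM
    have := fun x => h4 y ω 0 fun _ => x
    rw [wg_zero] at this
    simp only [this]
    rfl
  have e2 : ∀ (y : ℕ) (ω : Env × Finset ℕ), gm (wt μ s ω.1 N (Pn N y) δ B b j (sg ω.2 j) (-(sg ω.2 j : ℝ))) (fun x =>
      G y ω (wt μ s ω.1 N (Pn N y) δ B b j (sg ω.2 j) (-(sg ω.2 j : ℝ))) fun _ => x) =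
      obfM μ s N δ B b j (fun k : Blk b j => k.c) (fun k : Blk b j => k.d) (fun y ω (i : CovF N b j) => i.F y ω) (fun _ => e) y ω := by
    intro y ω
    unfold obfM
    have := fun x => h4 y ω (-(sg ω.2 j : ℝ) - sg ω.2 j) fun _ => x
    rw [wg_flip] at this
    simp only [this]
  simp only [e1, e2]
  have b1 := fun y ω => obM_bdd (μ := μ) (s := s) (N := N) (b := b) (j := j) (h := fun y ω (i : CovF N b j) => i.F y ω)
    (bb := CovF.M) (fun i => i.cov) (fun k : Blk b j => k.c) (fun k : Blk b j => k.d) (fun _ => e) y ω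
  have b2 := fun y ω => obfM_bdd (μ := μ) (s := s) (N := N) (b := b) (j := j) (h := fun y ω (i : CovF N b j) => i.F y ω)
    (bb := CovF.M) (fun i => i.cov) δ B (fun k : Blk b j => k.c) (fun k : Blk b j => k.d) (fun _ => e) y ω
  have m1 := fun y => meas_obM (μ := μ) (s := s) (N := N) (b := b) (j := j) (h := fun y ω (i : CovF N b j) => i.F y ω)
    (bb := CovF.M) (fun i => i.cov) (fun k : Blk b j => k.c) (fun k : Blk b j => k.d) (fun _ => e) y
  have m2 := fun y => meas_obfM (μ := μ) (s := s) (N := N) (b := b) (j := j) (h := fun y ω (i : CovF N b j) => i.F y ω)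
    (bb := CovF.M) (fun i => i.cov) δ B (fun k : Blk b j => k.c) (fun k : Blk b j => k.d) (fun _ => e) y
  have i1 := fun y => int_bdd (μ := μ) (N := N) (m1 y) (M := M) fun ω => (b1 y ω).trans h2
  have i2 := fun y => int_bdd (μ := μ) (N := N) (m2 y) (M := M) fun ω => (b2 y ω).trans h2
  refine ⟨i1, i2, ?_⟩
  have key := law_lev (μ := μ) (s := s) (N := N) (b := b) (j := j) (δ := δ) (B := B) (L := L + 2 * M) (M := M) hb hj
    (h := fun y ω (i : CovF N b j) => i.F y ω) (bb := CovF.M) (fun i => i.cov) (fun k : Blk b j => k.c) (fun k : Blk b j => k.d)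
    (fun k => k.hc) (fun k => k.hd) (fun _ => e) (fun _ => h1) (fun _ => by linarith) (fun y ω => (b1 y ω).trans h2)
    (fun y ω => (b2 y ω).trans h2) hy hm hyN hE
  rw [avy_sub, avy_Ico]
  refine le_trans (le_of_eq ?_) key
  congr 2
  exact sum_congr rfl fun y _ => (integral_sub (i1 y) (i2 y)).symm

end Rep

end

end Pool.Agent.W_7d29a1_C0.Flip61
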