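import Pool.Agent.W_7d29a1_C0.FlipC61

/-!
CURV0 (MP_7d29a1_pr), E7, LAW INVARIANCE FOR TILTED MEASURES AND FOR TWO ROWS. `tv_tilt`: tilting both measures by the same function of
the label costs a factor `2 exp (2 K)`. `fl_tilt`: `fl_even` for the measures tilted by a covariant function `H` (for instance the moved
kick of another row). `fl_pair`: the mean of an expression is its mean over the four corners of two rows with disjoint windows.
(helper61)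
-/

set_option autoImplicit false
set_option linter.unusedSectionVars false

namespace Pool.Agent.W_7d29a1_C0.Flip61

open Pool.Agent.W_7d29a1_F hiding W_pos W_nonneg W_add
open Finset MeasureTheory Pool.Agent.W_7d29a1_X Pool.Agent.W_7d29a1_HZ
open Pool.Agent.W_7d29a1_Z74
open Pool.Agent.W_7d29a1_HZ.Z74
open Pool.Agent.W_7d29a1_C0.Mod92
open Pool.Agent.W_7d29a1_C0.Blk18
open Pool.Agent.W_7d29a1_C0.Pin18
open Pool.W7d29a1.C0 (gz gm gz_pos gz_ne gm_const gm_mono gm_nonneg gm_sub)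
open Pool.W7d29a1.C0.VT31 (Mp Crs cE cV cC gc gv)

noncomputable section

/-! ### Tilts -/

section Tilt

variable {O : Type*} [Fintype O]

/-- The tilted mass function. -/
def tilt (φ m : O → ℝ) (o : O) : ℝ := Real.exp (φ o) * m o / ∑ o, Real.exp (φ o) * m o

theorem tilt_tv {m₁ m₂ : O → ℝ} (h1 : ∀ o, 0 ≤ m₁ o) (h2 : ∀ o, 0 ≤ m₂ o) (s1 : ∑ o, m₁ o = 1) (s2 : ∑ o, m₂ o = 1)
    {φ : O → ℝ} {K : ℝ} (hK : ∀ o, |φ o| ≤ K) : tv (tilt φ m₁) (tilt φ m₂) ≤ 2 * Real.exp (2 * K) * tv m₁ m₂ := by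
  set P := ∑ o, Real.exp (φ o) * m₁ o with hP
  set Q := ∑ o, Real.exp (φ o) * m₂ o with hQ
  have hlow : ∀ {m : O → ℝ}, (∀ o, 0 ≤ m o) → ∑ o, m o = 1 → Real.exp (-K) ≤ ∑ o, Real.exp (φ o) * m o := by
    intro m hm hs
    calc Real.exp (-K) = ∑ o, Real.exp (-K) * m o := by rw [← mul_sum, hs, mul_one]
      _ ≤ ∑ o, Real.exp (φ o) * m o :=
          sum_le_sum fun o _ => mul_le_mul_of_nonneg_right (Real.exp_le_exp.2 (abs_le.1 (hK o)).1) (hm o)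
  have hP1 : Real.exp (-K) ≤ P := hlow h1 s1
  have hQ1 : Real.exp (-K) ≤ Q := hlow h2 s2
  have hP0 : 0 < P := lt_of_lt_of_le (Real.exp_pos _) hP1
  have hQ0 : 0 < Q := lt_of_lt_of_le (Real.exp_pos _) hQ1
  have hT : ∑ o, Real.exp (φ o) * |m₁ o - m₂ o| ≤ Real.exp K * tv m₁ m₂ := by
    unfold tv
    rw [mul_sum]
    exact sum_le_sum fun o _ => mul_le_mul_of_nonneg_right (Real.exp_le_exp.2 (abs_le.1 (hK o)).2) (abs_nonneg _)
  have hPQ : |P - Q| ≤ ∑ o, Real.exp (φ o) * |m₁ o - m₂ o| := by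
    rw [hP, hQ, ← sum_sub_distrib]
    refine (abs_sum_le_sum_abs _ _).trans (le_of_eq (sum_congr rfl fun o _ => ?_))
    rw [← mul_sub, abs_mul, abs_of_pos (Real.exp_pos _)]
  have key : ∀ o, |tilt φ m₁ o - tilt φ m₂ o| ≤ Real.exp (φ o) * |m₁ o - m₂ o| / P + tilt φ m₂ o * (|P - Q| / P) := by
    intro o
    have e : tilt φ m₁ o - tilt φ m₂ o = Real.exp (φ o) * (m₁ o - m₂ o) / P + tilt φ m₂ o * ((Q - P) / P) := by
      unfold tilt
      rw [← hP, ← hQ]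
      field_simp
      ring
    have ht : 0 ≤ tilt φ m₂ o := div_nonneg (mul_nonneg (Real.exp_pos _).le (h2 o)) hQ0.le
    rw [e]
    refine (abs_add_le _ _).trans (add_le_add (le_of_eq ?_) (le_of_eq ?_))
    · rw [abs_div, abs_mul, abs_of_pos (Real.exp_pos _), abs_of_pos hP0]
    · rw [abs_mul, abs_of_nonneg ht, abs_div, abs_of_pos hP0, abs_sub_comm]
  have hs : ∑ o, tilt φ m₂ o = 1 := by
    unfold tilt
    rw [← sum_div, ← hQ]
    exact div_self hQ0.ne'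
  calc tv (tilt φ m₁) (tilt φ m₂) ≤ ∑ o, (Real.exp (φ o) * |m₁ o - m₂ o| / P + tilt φ m₂ o * (|P - Q| / P)) :=
        sum_le_sum fun o _ => key o
    _ = (∑ o, Real.exp (φ o) * |m₁ o - m₂ o|) / P + |P - Q| / P := by
        rw [sum_add_distrib, ← sum_mul, hs, one_mul, sum_div]
    _ ≤ Real.exp K * tv m₁ m₂ / P + Real.exp K * tv m₁ m₂ / P :=
        add_le_add (div_le_div_of_nonneg_right hT hP0.le) (div_le_div_of_nonneg_right (hPQ.trans hT) hP0.le)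
    _ = 2 * (Real.exp K * tv m₁ m₂ / P) := by ring
    _ ≤ 2 * (Real.exp K * tv m₁ m₂ * Real.exp K) := by
        refine mul_le_mul_of_nonneg_left ?_ zero_le_two
        rw [div_le_iff₀ hP0]
        have h3 : 1 ≤ Real.exp K * P := by
          calc (1 : ℝ) = Real.exp K * Real.exp (-K) := by rw [← Real.exp_add, add_neg_cancel, Real.exp_zero]
            _ ≤ Real.exp K * P := mul_le_mul_of_nonneg_left hP1 (Real.exp_pos _).le
        have h4 : 0 ≤ Real.exp K * tv m₁ m₂ := mul_nonneg (Real.exp_pos _).le (tv_nonneg _ _)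
        calc Real.exp K * tv m₁ m₂ = Real.exp K * tv m₁ m₂ * 1 := (mul_one _).symm
          _ ≤ Real.exp K * tv m₁ m₂ * (Real.exp K * P) := mul_le_mul_of_nonneg_left h3 h4
          _ = _ := by ring
    _ = 2 * Real.exp (2 * K) * tv m₁ m₂ := by
        rw [two_mul K, Real.exp_add]
        ring

variable [DecidableEq O]

/-- The law of the label under a tilted Gibbs measure. -/
theorem lm_tilt {X : Type*} [Fintype X] [Nonempty X] (w h : X → ℝ) (lam : X → O) (φ : O → ℝ) (hφ : ∀ x, h x = φ (lam x)) :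
    Ex.lm (w + h) lam = tilt φ (Ex.lm w lam) := by
  have e1 : ∀ o, (∑ x, if lam x = o then Real.exp ((w + h) x) else 0) = Real.exp (φ o) * ∑ x, if lam x = o then Real.exp (w x) else 0 := by
    intro o
    rw [mul_sum]
    refine sum_congr rfl fun x _ => ?_
    split_ifs with hx
    · rw [Pi.add_apply, Real.exp_add, hφ, hx, mul_comm]
    · rw [mul_zero]
  have e2 : gz (w + h) = gz w * ∑ o, Real.exp (φ o) * Ex.lm w lam o := by
    have h3 := Ex.sum_lm w lam (fun _ => True) (fun o => Real.exp (φ o))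
    simp only [if_true] at h3
    have h4 : ∑ o, Real.exp (φ o) * Ex.lm w lam o = (∑ x, Real.exp (w x) * Real.exp (φ (lam x))) / gz w := by
      rw [← h3]
      exact sum_congr rfl fun o _ => mul_comm _ _
    rw [h4, mul_div_cancel₀ _ (gz_ne w)]
    unfold gz
    refine sum_congr rfl fun x _ => ?_
    rw [Pi.add_apply, Real.exp_add, hφ]
  funext o
  unfold tilt
  show (∑ x, if lam x = o then Real.exp ((w + h) x) else 0) / gz (w + h) = _
  rw [e1, e2]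
  show _ = Real.exp (φ o) * ((∑ x, if lam x = o then Real.exp (w x) else 0) / gz w) / _
  rw [← mul_div_assoc, div_div]

/-- **TWO TILTED GIBBS MEASURES.** -/
theorem tv_tilt {X₁ X₂ : Type*} [Fintype X₁] [Nonempty X₁] [Fintype X₂] [Nonempty X₂] (w₁ : X₁ → ℝ) (w₂ : X₂ → ℝ) (lam₁ : X₁ → O)
    (lam₂ : X₂ → O) {h₁ : X₁ → ℝ} {h₂ : X₂ → ℝ} {K : ℝ} (b1 : ∀ x, |h₁ x| ≤ K) (b2 : ∀ x, |h₂ x| ≤ K)
    (c12 : ∀ x y, lam₁ x = lam₂ y → h₁ x = h₂ y) (c11 : ∀ x y, lam₁ x = lam₁ y → h₁ x = h₁ y)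
    (c22 : ∀ x y, lam₂ x = lam₂ y → h₂ x = h₂ y) :
    tv (Ex.lm (w₁ + h₁) lam₁) (Ex.lm (w₂ + h₂) lam₂) ≤ 2 * Real.exp (2 * K) * tv (Ex.lm w₁ lam₁) (Ex.lm w₂ lam₂) := by
  classical
  set φ : O → ℝ := fun o => if h : ∃ x, lam₁ x = o then h₁ h.choose else if h : ∃ y, lam₂ y = o then h₂ h.choose else 0 with hφ
  have f1 : ∀ x, h₁ x = φ (lam₁ x) := by
    intro x
    have h : ∃ x', lam₁ x' = lam₁ x := ⟨x, rfl⟩
    rw [hφ]
    simp only [dif_pos h]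
    exact (c11 _ _ h.choose_spec).symm
  have f2 : ∀ y, h₂ y = φ (lam₂ y) := by
    intro y
    rw [hφ]
    by_cases h : ∃ x', lam₁ x' = lam₂ y
    · simp only [dif_pos h]
      exact (c12 _ _ h.choose_spec).symm
    · have h' : ∃ y', lam₂ y' = lam₂ y := ⟨y, rfl⟩
      simp only [dif_neg h, dif_pos h']
      exact (c22 _ _ h'.choose_spec).symm
  have hK0 : 0 ≤ K := (abs_nonneg _).trans (b1 (Classical.arbitrary X₁))
  have fb : ∀ o, |φ o| ≤ K := by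
    intro o
    rw [hφ]
    by_cases h : ∃ x, lam₁ x = o
    · simp only [dif_pos h]
      exact b1 _
    · by_cases h' : ∃ y, lam₂ y = o
      · simp only [dif_neg h, dif_pos h']
        exact b2 _
      · simp only [dif_neg h, dif_neg h', abs_zero]
        exact hK0
  rw [lm_tilt w₁ h₁ lam₁ φ f1, lm_tilt w₂ h₂ lam₂ φ f2]
  exact tilt_tv (Ex.lm_nonneg w₁ lam₁) (Ex.lm_nonneg w₂ lam₂) (Ex.sum_lm_one w₁ lam₁) (Ex.sum_lm_one w₂ lam₂) fb

end Tilt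

/-! ### One row, tilted measures -/

variable {μ : Measure ℝ} {s : ℝ}

section Close

variable {c l : ℕ} {v : ℤ} {Q₁ Q₂ : Finset (Finset ℕ)}

/-- **THE LAW INVARIANCE UNDER THE FLIP, TILTED MEASURES.** -/
theorem flip_close_tilt (η : Env) {N k : ℕ} (hk : k ≤ l) (hN : c + l ≤ N) (hv : |v| ≤ 1)
    (P : ℤ → Prop) [DecidablePred P] (e1 : Q₁ = fam N P) (e2 : Q₂ = fam N fun x => P (x + v))
    [Nonempty (Px Q₁)] [Nonempty (Px Q₂)] (w₁ : Px Q₁ → ℝ) {H₁ : Px Q₁ → ℝ} {H₂ : Px Q₂ → ℝ} (hH : Eqv c l v H₁ H₂)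
    (hH1 : Mp (pJ c (c + l)) H₁) (hH2 : Mp (pJ c (c + l)) H₂) {K : ℝ} (hK1 : ∀ x, |H₁ x| ≤ K) (hK2 : ∀ x, |H₂ x| ≤ K)
    {ι β : Type*} {h₁ : ι → Px Q₁ → ℝ} {h₂ : ι → Px Q₂ → ℝ} (hE : ∀ i, Eqv c l v (h₁ i) (h₂ i))
    (m1 : ∀ i, Mp (pJ c (c + l)) (h₁ i)) (m2 : ∀ i, Mp (pJ c (c + l)) (h₂ i)) {b : ι → ℝ} (hb : ∀ i, 0 ≤ b i)
    (b1 : ∀ i x, |h₁ i x| ≤ b i) (b2 : ∀ i x, |h₂ i x| ≤ b i)
    (C D : β → ℕ) (hC : ∀ i, C i ≤ c) (hD : ∀ i, c + l ≤ D i) (e : Ex ι β)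
    (hp : 0 < ∑ S ∈ Q₁, pth μ s η N S * Rp μ s η c l k v S) :
    |gm (w₁ + H₁) (Ex.evX (w₁ + H₁) h₁ (fun i => pJ (C i) (D i)) e) -
        gm (lw μ s (shj ((c + k : ℕ) : ℤ) v η) N Q₂ + H₂)
          (Ex.evX (lw μ s (shj ((c + k : ℕ) : ℤ) v η) N Q₂ + H₂) h₂ (fun i => pJ (C i) (D i)) e)| ≤
      2 * Real.exp (2 * K) * (Ex.li b e + Ex.bd b e) *
        ((∑ S : Px Q₁, |Real.exp (w₁ S) / gz w₁ - pth μ s η N S.1 * Rp μ s η c l k v S.1 /
          ∑ S ∈ Q₁, pth μ s η N S * Rp μ s η c l k v S|) +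
        2 * gm (lw μ s (shj ((c + k : ℕ) : ℤ) v η) N Q₂) (fun S => if Ok c l v S.1 then 0 else 1)) := by
  classical
  have hQ₁ : Q₁ ⊆ Fr N := by
    rw [e1]
    exact filter_subset _ _
  have hQ₂ : Q₂ ⊆ Fr N := by
    rw [e2]
    exact filter_subset _ _
  have h0 : |(0 : ℤ)| ≤ 1 := by simp
  have ht := tv_flip (μ := μ) (s := s) η hk hN hv h0 P e1 e2 hQ₁ hQ₂ w₁ hp
  have ht2 := tv_tilt w₁ (lw μ s (shj ((c + k : ℕ) : ℤ) v η) N Q₂) (lab hQ₁ c l h0) (lab hQ₂ c l hv) hK1 hK2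
    (fun x y h => hH x y (congrArg Subtype.val h)) (fun x y h => mp_dJ hH1 (congrArg Subtype.val h))
    (fun x y h => mp_dJ hH2 (congrArg Subtype.val h))
  have hobs := Ex.flip_obs (w₁ + H₁) (lw μ s (shj ((c + k : ℕ) : ℤ) v η) N Q₂ + H₂) (lab hQ₁ c l h0) (lab hQ₂ c l hv)
    (h₁ := h₁) (h₂ := h₂) (q₁ := fun i => pJ (C i) (D i)) (q₂ := fun i => pJ (C i) (D i)) (fun i o => oq (C i) (D i) o.1) hb b1 b2
    (fun i x y h => hE i x y (congrArg Subtype.val h))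
    (fun i x y h => mp_dJ (m1 i) (congrArg Subtype.val h))
    (fun i x y h => mp_dJ (m2 i) (congrArg Subtype.val h))
    (fun i x y => part_pJ (hC i) (hD i) 0 x y) (fun i x y => part_pJ (hC i) (hD i) v x y) e
  have hLe : 0 ≤ Ex.li b e + Ex.bd b e := add_nonneg (Ex.li_nonneg hb e) (Ex.bd_nonneg hb e)
  refine hobs.trans ?_
  refine (mul_le_mul_of_nonneg_left ht2 hLe).trans ?_
  refine (mul_le_mul_of_nonneg_left (mul_le_mul_of_nonneg_left ht (by positivity)) hLe).trans (le_of_eq ?_)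
  ring

end Close

variable {N : ℕ} {ι β : Type*}

/-- The mean of the expression under the actual measure tilted by `H`. -/
def obh (μ : Measure ℝ) (s : ℝ) (N : ℕ) (C D : β → ℕ) (H : (y : ℕ) → Env × Finset ℕ → Px (Pn N y) → ℝ)
    (h : (y : ℕ) → Env × Finset ℕ → ι → Px (Pn N y) → ℝ) (e : Finset ℕ → Ex ι β) (y : ℕ) (ω : Env × Finset ℕ) : ℝ :=
  gm (lw μ s ω.1 N (Pn N y) + H y ω) (Ex.evX (lw μ s ω.1 N (Pn N y) + H y ω) (h y ω) (fun i => pJ (C i) (D i)) (e ω.2))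

/-- The mean of the expression under the clipped flip of the kick of the row `j`, tilted by `H`. -/
def obfh (μ : Measure ℝ) (s : ℝ) (N : ℕ) (δ B : ℝ) (b j : ℕ) (C D : β → ℕ) (H : (y : ℕ) → Env × Finset ℕ → Px (Pn N y) → ℝ)
    (h : (y : ℕ) → Env × Finset ℕ → ι → Px (Pn N y) → ℝ) (e : Finset ℕ → Ex ι β) (y : ℕ) (ω : Env × Finset ℕ) : ℝ :=
  gm (wt μ s ω.1 N (Pn N y) δ B b j (sg ω.2 j) (-(sg ω.2 j : ℝ)) + H y ω)
    (Ex.evX (wt μ s ω.1 N (Pn N y) δ B b j (sg ω.2 j) (-(sg ω.2 j : ℝ)) + H y ω) (h y ω) (fun i => pJ (C i) (D i)) (e (flp j ω.2)))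

/-- **ONE PINNED END**, tilted. -/
theorem one_end_tilt {b j : ℕ} (hb : 0 < b) (hjN : j + b ≤ N) {H : (y : ℕ) → Env × Finset ℕ → Px (Pn N y) → ℝ} {K : ℝ}
    (HH : Cov1 N b j H K) {h : (y : ℕ) → Env × Finset ℕ → ι → Px (Pn N y) → ℝ} {bb : ι → ℝ}
    (Hh : Cov N b j h bb) (C D : β → ℕ) (hC : ∀ i, C i ≤ j - b) (hD : ∀ i, j + b ≤ D i) (e : Finset ℕ → Ex ι β) (δ B : ℝ)
    {y : ℕ} (hy : 1 ≤ y) (hyN : y < N) (ω : Env × Finset ℕ) {L : ℝ}
    (hL : ∀ A, Ex.li bb (e A) + 2 * Ex.bd bb (e A) ≤ L) :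
    |obfh μ s N δ B b j C D H h e y ω - obh μ s N C D H h e (nb (sg ω.2 j) y) (Tj j ω)| ≤
      2 * Real.exp (2 * K) * L *
        (clip μ s N δ B b j (sg ω.2 j) y ω.1 + 2 * nok μ s N (j - b) (j + b - (j - b)) (-sg ω.2 j) (nb (sg ω.2 j) y) (Tj j ω).1) := by
  classical
  have n1 : Nonempty (Px (Pn N y)) := ne_Pn hyN.le
  have hnb : ((nb (sg ω.2 j) y : ℕ) : ℤ) = y + sg ω.2 j := by
    unfold nb
    rcases sg_or ω.2 j with h1 | h1 <;> rw [h1] <;> omega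
  have hnbN : nb (sg ω.2 j) y ≤ N := nb_le hyN ω
  have n2 : Nonempty (Px (Pn N (nb (sg ω.2 j) y))) := ne_Pn hnbN
  set a := sg ω.2 j with ha
  set w₁ := wt μ s ω.1 N (Pn N y) δ B b j a (-(a : ℝ)) with hw₁
  have hη : (Tj j ω).1 = shj ((j - b + (j - (j - b)) : ℕ) : ℤ) (-a) ω.1 := by
    rw [jeq]
    rfl
  have hLe := hL (flp j ω.2)
  have hbd := Ex.bd_nonneg Hh.pos (e (flp j ω.2))
  have hli := Ex.li_nonneg Hh.pos (e (flp j ω.2))
  have hnok : 0 ≤ nok μ s N (j - b) (j + b - (j - b)) (-a) (nb a y) (Tj j ω).1 := by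
    unfold nok
    refine gm_nonneg _ fun S => ?_
    split_ifs
    · exact le_rfl
    · exact zero_le_one
  have hclip : 0 ≤ clip μ s N δ B b j a y ω.1 := sum_nonneg fun _ _ => abs_nonneg _
  have hL0 : 0 ≤ L := by linarith
  have hK1 : 1 ≤ Real.exp (2 * K) := Real.one_le_exp (by have := HH.pos; linarith)
  have hob : obh μ s N C D H h e (nb a y) (Tj j ω) =
      gm (lw μ s (shj ((j - b + (j - (j - b)) : ℕ) : ℤ) (-a) ω.1) N (Pn N (nb a y)) + H (nb a y) (Tj j ω))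
      (Ex.evX (lw μ s (shj ((j - b + (j - (j - b)) : ℕ) : ℤ) (-a) ω.1) N (Pn N (nb a y)) + H (nb a y) (Tj j ω)) (h (nb a y) (Tj j ω))
        (fun i => pJ (C i) (D i)) (e (flp j ω.2))) := by
    unfold obh
    rw [hη]
    rfl
  by_cases hp : 0 < ∑ S ∈ Pn N y, pth μ s ω.1 N S * Rp μ s ω.1 (j - b) (j + b - (j - b)) (j - (j - b)) (-a) S
  · have hfc := flip_close_tilt (μ := μ) (s := s) (c := j - b) (l := j + b - (j - b)) (k := j - (j - b)) (v := -a)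
      (Q₁ := Pn N y) (Q₂ := Pn N (nb a y)) ω.1 (by omega) (by omega) (sg_abs ω.2 j) (fun x => x = (y : ℤ)) (fam_eq N y).symm (by
        rw [← fam_eq N (nb a y)]
        unfold fam
        refine filter_congr fun S _ => ?_
        rw [hnb]
        constructor <;> intro h1 <;> omega) w₁ (HH.eqv y hy hyN ω)
      (by rw [hcl]; exact HH.mp _ _) (by rw [hcl]; exact HH.mp _ _) (HH.bdd _ _) (HH.bdd _ _)
      (h₁ := h y ω) (h₂ := h (nb a y) (Tj j ω)) (Hh.eqv y hy hyN ω) (fun i => by rw [hcl]; exact Hh.mp y ω i)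
      (fun i => by rw [hcl]; exact Hh.mp _ _ i) Hh.pos (Hh.bdd y ω) (Hh.bdd _ _) C D hC
      (fun i => by rw [hcl]; exact hD i) (e (flp j ω.2)) hp
    rw [hob]
    unfold obfh
    rw [← ha, ← hw₁]
    refine hfc.trans ?_
    have e1 : (∑ S : Px (Pn N y), |Real.exp (w₁ S) / gz w₁ - pth μ s ω.1 N S.1 * Rp μ s ω.1 (j - b) (j + b - (j - b)) (j - (j - b)) (-a) S.1 /
          ∑ S ∈ Pn N y, pth μ s ω.1 N S * Rp μ s ω.1 (j - b) (j + b - (j - b)) (j - (j - b)) (-a) S|) +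
        2 * gm (lw μ s (shj ((j - b + (j - (j - b)) : ℕ) : ℤ) (-a) ω.1) N (Pn N (nb a y)))
          (fun S => if Ok (j - b) (j + b - (j - b)) (-a) S.1 then 0 else 1) =
        clip μ s N δ B b j a y ω.1 + 2 * nok μ s N (j - b) (j + b - (j - b)) (-a) (nb a y) (Tj j ω).1 := by
      unfold clip nok
      rw [hη]
    rw [e1]
    refine mul_le_mul_of_nonneg_right ?_ (by positivity)
    exact mul_le_mul_of_nonneg_left (by linarith) (by positivity)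
  · -- the degenerate case
    have h0 : ∑ S ∈ Pn N y, pth μ s ω.1 N S * Rp μ s ω.1 (j - b) (j + b - (j - b)) (j - (j - b)) (-a) S = 0 :=
      le_antisymm (not_lt.1 hp) (sum_nonneg fun S _ => mul_nonneg (pth_pos _ _ _).le (Rp_nonneg _ _ _ _ _ _))
    have hc1 : clip μ s N δ B b j a y ω.1 = 1 := by
      unfold clip
      rw [h0, ← hw₁]
      have e2 : ∀ S : Px (Pn N y), |Real.exp (w₁ S) / gz w₁ - pth μ s ω.1 N S.1 * Rp μ s ω.1 (j - b) (j + b - (j - b)) (j - (j - b)) (-a) S.1 / 0| =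
          Real.exp (w₁ S) / gz w₁ := fun S => by
        rw [div_zero, sub_zero]
        exact abs_of_nonneg (div_nonneg (Real.exp_pos _).le (gz_pos w₁).le)
      rw [sum_congr rfl fun S _ => e2 S, ← sum_div]
      exact div_self (gz_ne w₁)
    have h1 : |obfh μ s N δ B b j C D H h e y ω| ≤ Ex.bd bb (e (flp j ω.2)) := by
      unfold obfh
      exact Ex.gm_bdd _ fun S => Ex.evX_bdd _ _ Hh.pos (Hh.bdd y ω) _ S
    have h2 : |obh μ s N C D H h e (nb a y) (Tj j ω)| ≤ Ex.bd bb (e (flp j ω.2)) := by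
      rw [hob]
      exact Ex.gm_bdd _ fun S => Ex.evX_bdd _ _ Hh.pos (Hh.bdd _ _) _ S
    have h3 := abs_sub (obfh μ s N δ B b j C D H h e y ω) (obh μ s N C D H h e (nb a y) (Tj j ω))
    rw [hc1]
    have hX : L ≤ 2 * Real.exp (2 * K) * L := by nlinarith
    calc |obfh μ s N δ B b j C D H h e y ω - obh μ s N C D H h e (nb a y) (Tj j ω)|
        ≤ 2 * Ex.bd bb (e (flp j ω.2)) := by linarith
      _ ≤ 2 * Real.exp (2 * K) * L * 1 := by linarith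
      _ ≤ _ := mul_le_mul_of_nonneg_left (by linarith) (by positivity)

end

end Pool.Agent.W_7d29a1_C0.Flip61
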