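import Pool.Agent.W_7d29a1_C0.FlipU61

/-!
CURV0 (MP_7d29a1_pr), E7, LAW INVARIANCE FOR TWO ROWS. `fl_pair`: the mean of an expression is its mean over the four corners of two rows
with disjoint windows: weights, half responses and signs of the two rows are flipped together. (helper61)
-/

set_option autoImplicit false
set_option linter.unusedSectionVars false

namespace Pool.Agent.W_7d29a1_C0.Flip61

open Pool.Agent.W_7d29a1_F hiding W_pos W_nonneg W_add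
open Finset MeasureTheory Pool.Agent.W_7d29a1_X Pool.Agent.W_7d29a1_HZ
open Pool.Agent.W_7d29a1_Z74
open Pool.Agent.W_7d29a1_HZ.Z74
open Pool.Agent.W_7d29a1_C0.Mod92
open Pool.Agent.W_7d29a1_C0.Blk18
open Pool.Agent.W_7d29a1_C0.Pin18
open Pool.W7d29a1.C0 (gz gm gz_pos gz_ne gm_const gm_mono gm_nonneg gm_sub)
open Pool.W7d29a1.C0.VT31 (Mp Crs cE cV cC gc gv)

noncomputable section

variable {μ : Measure ℝ} {s : ℝ} {N : ℕ}

/-! ### The other rows as covariant functions -/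

/-- The half response of another row (base `b`), its window disjoint from the window (base `b₀`) of the flipped row. -/
theorem cov_gg {b₀ b j i : ℕ} (hb₀ : 0 < b₀) (hb : 0 < b) (hd : i + b ≤ j - b₀ ∨ j + b₀ ≤ i - b)
    (δ : ℝ) {B : ℝ} (hB : 0 ≤ B) : Cov1 N b₀ j (fun y ω => gg μ s (Pn N y) δ B b ω i) (B / 2) := by
  have hij : i ≠ j := by omega
  have hd' : i + b ≤ j - b₀ ∨ j - b₀ + (j + b₀ - (j - b₀)) ≤ i - b := by rw [hcl]; exact hd
  refine ⟨by positivity, fun y ω S => abs_gg hB b ω i S, fun y S => meas_gg δ B b i S, fun y ω => ?_, fun y h1 h2 ω => ?_⟩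
  · rw [mp_iff']
    exact eqv_gg (c := j - b₀) (l := j + b₀ - (j - b₀)) (k := j - (j - b₀)) (by omega) (rel_refl _ ω.1) δ B rfl hd'
  · exact eqv_gg (c := j - b₀) (l := j + b₀ - (j - b₀)) (k := j - (j - b₀)) (by omega) (rel_Tj b₀ j ω) δ B (sg_flp_ne hij ω.2) hd'

/-- The sign of another row. -/
theorem cov_sr {b j i : ℕ} (hij : i ≠ j) : Cov1 N b j (fun _ ω _ => sr ω.2 i) 1 where
  pos := zero_le_one
  bdd _ ω _ := (abs_sr ω.2 i).le
  mes _ _ := meas_sr i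
  mp _ _ := fun _ _ _ => rfl
  eqv _ _ _ ω := fun _ _ _ => by
    show sr ω.2 i = sr (flp j ω.2) i
    unfold sr
    rw [sg_flp_ne hij]

/-- The tilt which flips the kick of the row `i`. -/
def Hk (μ : Measure ℝ) (s : ℝ) (N : ℕ) (δ B : ℝ) (b i : ℕ) (t : ℝ) (y : ℕ) (ω : Env × Finset ℕ) : Px (Pn N y) → ℝ :=
  (t * sr ω.2 i - sr ω.2 i) • gg μ s (Pn N y) δ B b ω i

theorem wt_Hk (δ B : ℝ) (b i y : ℕ) (ω : Env × Finset ℕ) :
    wt μ s ω.1 N (Pn N y) δ B b i (sg ω.2 i) (-(sg ω.2 i : ℝ)) = lw μ s ω.1 N (Pn N y) + Hk μ s N δ B b i (-1) y ω := by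
  unfold wt Hk gg sr
  congr 2
  ring

/-- The kick of another row, moved to `t` (times its sign), is covariant. -/
theorem cov_Hk {b₀ b j i : ℕ} (hb₀ : 0 < b₀) (hb : 0 < b) (hd : i + b ≤ j - b₀ ∨ j + b₀ ≤ i - b)
    (δ : ℝ) {B : ℝ} (hB : 0 ≤ B) {t : ℝ} (ht : |t| ≤ 1) : Cov1 N b₀ j (Hk μ s N δ B b i t) B := by
  have hij : i ≠ j := by omega
  have h1 := (cov_sr (N := N) (b := b₀) hij).mul (cov_gg (μ := μ) (s := s) (N := N) hb₀ hb hd δ hB)
  have h2 := (Cov1.const (N := N) (b := b₀) (j := j) (t - 1)).mul h1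
  have e : Hk μ s N δ B b i t = fun (y : ℕ) (ω : Env × Finset ℕ) =>
      (fun _ : Px (Pn N y) => t - 1) * ((fun _ => sr ω.2 i) * gg μ s (Pn N y) δ B b ω i) := by
    funext y ω S
    show (t * sr ω.2 i - sr ω.2 i) * gg μ s (Pn N y) δ B b ω i S = (t - 1) * (sr ω.2 i * gg μ s (Pn N y) δ B b ω i S)
    ring
  rw [e]
  refine h2.mono ?_
  have h3 : |t - 1| ≤ 2 := (abs_sub _ _).trans (by
    rw [abs_one]
    linarith)
  calc |t - 1| * (1 * (B / 2)) ≤ 2 * (1 * (B / 2)) := mul_le_mul_of_nonneg_right h3 (by positivity)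
    _ = B := by ring

/-! ### Two rows -/

variable {ι β : Type*} [IsProbabilityMeasure μ]

theorem Hk_one (δ B : ℝ) (b i y : ℕ) (ω : Env × Finset ℕ) : Hk μ s N δ B b i 1 y ω = 0 := by
  unfold Hk
  rw [one_mul, sub_self, zero_smul]

/-- The value at a corner: the kicks of the rows `j`, `k` moved to `t`, `u` times their signs. -/
def cor (μ : Measure ℝ) (s : ℝ) (N : ℕ) (δ B : ℝ) (b j k : ℕ) (C D : β → ℕ) (h : (y : ℕ) → Env × Finset ℕ → ι → Px (Pn N y) → ℝ)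
    (t u : ℝ) (e : Ex ι β) (y : ℕ) (ω : Env × Finset ℕ) : ℝ :=
  gm (lw μ s ω.1 N (Pn N y) + Hk μ s N δ B b j t y ω + Hk μ s N δ B b k u y ω)
    (Ex.evX (lw μ s ω.1 N (Pn N y) + Hk μ s N δ B b j t y ω + Hk μ s N δ B b k u y ω) (h y ω) (fun i => pJ (C i) (D i)) e)

theorem cor_obh (δ B : ℝ) (b j k : ℕ) (C D : β → ℕ) (h : (y : ℕ) → Env × Finset ℕ → ι → Px (Pn N y) → ℝ) (e : Finset ℕ → Ex ι β)
    (y : ℕ) (ω : Env × Finset ℕ) :
    cor μ s N δ B b j k C D h 1 1 (e ω.2) y ω = obh μ s N C D (fun _ _ => 0) h e y ω := by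
  unfold cor obh
  rw [Hk_one, Hk_one, add_zero]

theorem cor_k (δ B : ℝ) (b j k : ℕ) (C D : β → ℕ) (h : (y : ℕ) → Env × Finset ℕ → ι → Px (Pn N y) → ℝ) (e : Finset ℕ → Ex ι β)
    (y : ℕ) (ω : Env × Finset ℕ) :
    cor μ s N δ B b j k C D h 1 (-1) (e (flp k ω.2)) y ω = obfh μ s N δ B b k C D (fun _ _ => 0) h e y ω := by
  unfold cor obfh
  rw [Hk_one, add_zero, wt_Hk, add_zero]

theorem cor_j (δ B : ℝ) (b j k : ℕ) (C D : β → ℕ) (h : (y : ℕ) → Env × Finset ℕ → ι → Px (Pn N y) → ℝ) (e : Finset ℕ → Ex ι β)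
    (y : ℕ) (ω : Env × Finset ℕ) :
    cor μ s N δ B b j k C D h (-1) 1 (e (flp j ω.2)) y ω = obfh μ s N δ B b j C D (fun _ _ => 0) h e y ω := by
  unfold cor obfh
  rw [Hk_one, add_zero, wt_Hk, add_zero]

theorem cor_H (δ B : ℝ) (b j k : ℕ) (C D : β → ℕ) (h : (y : ℕ) → Env × Finset ℕ → ι → Px (Pn N y) → ℝ) (e : Finset ℕ → Ex ι β)
    (y : ℕ) (ω : Env × Finset ℕ) :
    cor μ s N δ B b j k C D h 1 (-1) (e (flp k ω.2)) y ω =
      obh μ s N C D (Hk μ s N δ B b k (-1)) h (fun A => e (flp k A)) y ω := by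
  unfold cor obh
  rw [Hk_one, add_zero]

theorem cor_HH (δ B : ℝ) (b j k : ℕ) (C D : β → ℕ) (h : (y : ℕ) → Env × Finset ℕ → ι → Px (Pn N y) → ℝ) (e : Finset ℕ → Ex ι β)
    (y : ℕ) (ω : Env × Finset ℕ) :
    cor μ s N δ B b j k C D h (-1) (-1) (e (flp k (flp j ω.2))) y ω =
      obfh μ s N δ B b j C D (Hk μ s N δ B b k (-1)) h (fun A => e (flp k A)) y ω := by
  unfold cor obfh
  rw [wt_Hk]

theorem int_three {ν : Measure (Env × Finset ℕ)} {F1 F2 F3 : Env × Finset ℕ → ℝ} (h1 : Integrable F1 ν) (h2 : Integrable F2 ν)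
    (h3 : Integrable F3 ν) : ∫ ω, (1 / 2 * F1 ω + 1 / 4 * F2 ω + 1 / 4 * F3 ω) ∂ν =
      1 / 2 * ∫ ω, F1 ω ∂ν + 1 / 4 * ∫ ω, F2 ω ∂ν + 1 / 4 * ∫ ω, F3 ω ∂ν := by
  rw [integral_add (f := fun ω => 1 / 2 * F1 ω + 1 / 4 * F2 ω) ((h1.const_mul _).add (h2.const_mul _)) (h3.const_mul _),
    integral_add (h1.const_mul _) (h2.const_mul _), integral_const_mul, integral_const_mul, integral_const_mul]

/-- **TWO ROWS.** The mean of an expression is its mean over the four corners of the rows `j`, `k` with disjoint windows (base `b`). The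
expression may depend on the signs (`e (sgn_j, sgn_k)`, flipped together with the kicks). -/
theorem fl_pair {b j k : ℕ} (hb : 0 < b) (hj : j + b ≤ N) (hk : k + b ≤ N) (hw : k + b ≤ j - b ∨ j + b ≤ k - b) {δ B : ℝ}
    (hB : 0 ≤ B) {h : (y : ℕ) → Env × Finset ℕ → ι → Px (Pn N y) → ℝ} {bb : ι → ℝ}
    (Hj : Cov N b j h bb) (Hkk : Cov N b k h bb) (C D : β → ℕ) (hCj : ∀ i, C i ≤ j - b) (hDj : ∀ i, j + b ≤ D i)
    (hCk : ∀ i, C i ≤ k - b) (hDk : ∀ i, k + b ≤ D i) (e : Finset ℕ → Ex ι β)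
    {L M ε : ℝ} (hL : ∀ A, Ex.li bb (e A) + 2 * Ex.bd bb (e A) ≤ L)
    (hM : ∀ A, Ex.bd bb (e A) ≤ M)
    {y₀ m : ℕ} (hy : 1 ≤ y₀) (hm : 1 ≤ m) (hyN : y₀ + m ≤ N) (hEj : FErr μ s N δ B b j y₀ m ε) (hEk : FErr μ s N δ B b k y₀ m ε)
    (hε : 0 ≤ ε) :
    |(m : ℝ)⁻¹ * ∑ y ∈ Ico y₀ (y₀ + m), ∫ ω, (cor μ s N δ B b j k C D h 1 1 (e ω.2) y ω -
        (cor μ s N δ B b j k C D h 1 1 (e ω.2) y ω + cor μ s N δ B b j k C D h (-1) 1 (e (flp j ω.2)) y ω +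
          cor μ s N δ B b j k C D h 1 (-1) (e (flp k ω.2)) y ω +
          cor μ s N δ B b j k C D h (-1) (-1) (e (flp k (flp j ω.2))) y ω) / 4) ∂(Pm μ N)| ≤
      2 * M / m + 6 * Real.exp (2 * B) * L * ε := by
  have c0j : Cov1 N b j (fun y _ => (0 : Px (Pn N y) → ℝ)) 0 := by
    have := Cov1.const (N := N) (b := b) (j := j) 0
    rw [abs_zero] at this
    exact this
  have c0k : Cov1 N b k (fun y _ => (0 : Px (Pn N y) → ℝ)) 0 := by
    have := Cov1.const (N := N) (b := b) (j := k) 0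
    rw [abs_zero] at this
    exact this
  have cH : Cov1 N b j (Hk μ s N δ B b k (-1)) B := cov_Hk hb hb hw δ hB (by norm_num)
  have hL0 : 0 ≤ L := by
    have h1 := hL ∅
    have h2 := Ex.bd_nonneg Hj.pos (e ∅)
    have h3 := Ex.li_nonneg Hj.pos (e ∅)
    linarith
  -- the three flips
  have f1 := fl_tilt (μ := μ) (s := s) (δ := δ) (B := B) hb hk c0k Hkk C D hCk hDk e hL
    (M := M) (fun y ω => (obh_bdd C D Hkk.pos Hkk.bdd e y ω).trans (hM _)) hy hm hyN hEk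
  have f2 := fl_tilt (μ := μ) (s := s) (δ := δ) (B := B) hb hj c0j Hj C D hCj hDj e hL
    (M := M) (fun y ω => (obh_bdd C D Hj.pos Hj.bdd e y ω).trans (hM _)) hy hm hyN hEj
  have f3 := fl_tilt (μ := μ) (s := s) (δ := δ) (B := B) hb hj cH Hj C D hCj hDj (fun A => e (flp k A)) (fun A => hL _)
    (M := M) (fun y ω => (obh_bdd C D Hj.pos Hj.bdd (fun A => e (flp k A)) y ω).trans (hM _)) hy hm hyN hEj
  have bM : ∀ A, Ex.bd bb (e A) ≤ M := hM
  have z1 : ∀ (y : ℕ) (S : Px (Pn N y)), Measurable fun _ : Env × Finset ℕ => (0 : Px (Pn N y) → ℝ) S := fun y S => measurable_const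
  have zH : ∀ (y : ℕ) (S : Px (Pn N y)), Measurable fun ω : Env × Finset ℕ => Hk μ s N δ B b k (-1) y ω S := cH.mes
  have j11 : ∀ y, Integrable (fun ω => obh μ s N C D (fun _ _ => 0) h e y ω) (Pm μ N) := fun y =>
    int_bdd (meas_obh C D z1 Hj.mes e y) fun ω => (obh_bdd C D Hj.pos Hj.bdd e y ω).trans (hM _)
  have j12 : ∀ y, Integrable (fun ω => obfh μ s N δ B b k C D (fun _ _ => 0) h e y ω) (Pm μ N) := fun y =>
    int_bdd (meas_obfh δ B b k C D z1 Hj.mes e y) fun ω => (obfh_bdd δ B b k C D Hj.pos Hj.bdd e y ω).trans (hM _)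
  have j21 : ∀ y, Integrable (fun ω => obfh μ s N δ B b j C D (fun _ _ => 0) h e y ω) (Pm μ N) := fun y =>
    int_bdd (meas_obfh δ B b j C D z1 Hj.mes e y) fun ω => (obfh_bdd δ B b j C D Hj.pos Hj.bdd e y ω).trans (hM _)
  have jH : ∀ y, Integrable (fun ω => obh μ s N C D (Hk μ s N δ B b k (-1)) h (fun A => e (flp k A)) y ω) (Pm μ N) := fun y =>
    int_bdd (meas_obh C D zH Hj.mes _ y) fun ω => (obh_bdd C D Hj.pos Hj.bdd (fun A => e (flp k A)) y ω).trans (hM _)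
  have j22 : ∀ y, Integrable (fun ω => obfh μ s N δ B b j C D (Hk μ s N δ B b k (-1)) h (fun A => e (flp k A)) y ω) (Pm μ N) :=
    fun y => int_bdd (meas_obfh δ B b j C D zH Hj.mes _ y) fun ω =>
      (obfh_bdd δ B b j C D Hj.pos Hj.bdd (fun A => e (flp k A)) y ω).trans (hM _)
  have key : ∀ y, ∫ ω, (cor μ s N δ B b j k C D h 1 1 (e ω.2) y ω -
        (cor μ s N δ B b j k C D h 1 1 (e ω.2) y ω + cor μ s N δ B b j k C D h (-1) 1 (e (flp j ω.2)) y ω +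
          cor μ s N δ B b j k C D h 1 (-1) (e (flp k ω.2)) y ω +
          cor μ s N δ B b j k C D h (-1) (-1) (e (flp k (flp j ω.2))) y ω) / 4) ∂(Pm μ N) =
      1 / 2 * ∫ ω, (obh μ s N C D (fun _ _ => 0) h e y ω - obfh μ s N δ B b k C D (fun _ _ => 0) h e y ω) ∂(Pm μ N) +
      1 / 4 * ∫ ω, (obh μ s N C D (fun _ _ => 0) h e y ω - obfh μ s N δ B b j C D (fun _ _ => 0) h e y ω) ∂(Pm μ N) +
      1 / 4 * ∫ ω, (obh μ s N C D (Hk μ s N δ B b k (-1)) h (fun A => e (flp k A)) y ω -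
        obfh μ s N δ B b j C D (Hk μ s N δ B b k (-1)) h (fun A => e (flp k A)) y ω) ∂(Pm μ N) := by
    intro y
    rw [← int_three (F1 := fun ω => obh μ s N C D (fun _ _ => 0) h e y ω - obfh μ s N δ B b k C D (fun _ _ => 0) h e y ω)
      (F2 := fun ω => obh μ s N C D (fun _ _ => 0) h e y ω - obfh μ s N δ B b j C D (fun _ _ => 0) h e y ω)
      (F3 := fun ω => obh μ s N C D (Hk μ s N δ B b k (-1)) h (fun A => e (flp k A)) y ω -
        obfh μ s N δ B b j C D (Hk μ s N δ B b k (-1)) h (fun A => e (flp k A)) y ω)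
      ((j11 y).sub (j12 y)) ((j11 y).sub (j21 y)) ((jH y).sub (j22 y))]
    refine integral_congr_ae (Filter.Eventually.of_forall fun ω => ?_)
    show _ - (_ + _ + _ + _) / 4 = (1 / 2 * (_ - _) + 1 / 4 * (_ - _)) + 1 / 4 * (_ - _)
    have c1 := cor_k (μ := μ) (s := s) δ B b j k C D h e y ω
    have c2 := cor_H (μ := μ) (s := s) δ B b j k C D h e y ω
    rw [c1] at c2
    rw [cor_obh, cor_j, cor_HH, c1]
    linear_combination (1 / 4) * c2
  simp only [key]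
  rw [sum_add_distrib, sum_add_distrib, ← mul_sum, ← mul_sum, ← mul_sum, mul_add, mul_add]
  rw [mul_zero, Real.exp_zero, mul_one] at f1 f2
  have hB1 : 1 ≤ Real.exp (2 * B) := Real.one_le_exp (by linarith)
  have hLe : 6 * L * ε ≤ 6 * Real.exp (2 * B) * L * ε := by
    have h1 : 0 ≤ L * ε := mul_nonneg hL0 hε
    nlinarith
  obtain ⟨a1, ha1⟩ : ∃ a, a = ∑ y ∈ Ico y₀ (y₀ + m), ∫ ω, (obh μ s N C D (fun _ _ => 0) h e y ω -
    obfh μ s N δ B b k C D (fun _ _ => 0) h e y ω) ∂(Pm μ N) := ⟨_, rfl⟩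
  obtain ⟨a2, ha2⟩ : ∃ a, a = ∑ y ∈ Ico y₀ (y₀ + m), ∫ ω, (obh μ s N C D (fun _ _ => 0) h e y ω -
    obfh μ s N δ B b j C D (fun _ _ => 0) h e y ω) ∂(Pm μ N) := ⟨_, rfl⟩
  obtain ⟨a3, ha3⟩ : ∃ a, a = ∑ y ∈ Ico y₀ (y₀ + m), ∫ ω, (obh μ s N C D (Hk μ s N δ B b k (-1)) h (fun A => e (flp k A)) y ω -
        obfh μ s N δ B b j C D (Hk μ s N δ B b k (-1)) h (fun A => e (flp k A)) y ω) ∂(Pm μ N) := ⟨_, rfl⟩
  rw [← ha1] at f1
  rw [← ha2] at f2
  rw [← ha3] at f3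
  rw [← ha1, ← ha2, ← ha3]
  obtain ⟨p1, p2⟩ := abs_le.1 f1
  obtain ⟨p3, p4⟩ := abs_le.1 f2
  obtain ⟨p5, p6⟩ := abs_le.1 f3
  have r1 : (m : ℝ)⁻¹ * (1 / 2 * a1) = 1 / 2 * ((m : ℝ)⁻¹ * a1) := by ring
  have r2 : (m : ℝ)⁻¹ * (1 / 4 * a2) = 1 / 4 * ((m : ℝ)⁻¹ * a2) := by ring
  have r3 : (m : ℝ)⁻¹ * (1 / 4 * a3) = 1 / 4 * ((m : ℝ)⁻¹ * a3) := by ring
  rw [r1, r2, r3, abs_le]
  constructor <;> linarith

end

end Pool.Agent.W_7d29a1_C0.Flip61
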