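import Pool.Agent.W_7d29a1_C0.FlipS61
import Pool.Agent.W_7d29a1_C0.Two57

/-!
CURV0 (MP_7d29a1_pr), E7, SEVERAL REPLICAS (helper61): masses of two replicas and thresholds. `thr_law` = the law invariance for the mean of
an indicator of a threshold (the level is halved).
-/

set_option autoImplicit false
set_option linter.unusedSectionVars false
set_option linter.unusedVariables false

namespace Pool.Agent.W_7d29a1_C0.Flip61

open Pool.Agent.W_7d29a1_F hiding W_pos W_nonneg W_add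
open Finset MeasureTheory Pool.Agent.W_7d29a1_X Pool.Agent.W_7d29a1_HZ
open Pool.Agent.W_7d29a1_Z74
open Pool.Agent.W_7d29a1_HZ.Z74
open Pool.Agent.W_7d29a1_C0.Mod92
open Pool.Agent.W_7d29a1_C0.Blk18
open Pool.Agent.W_7d29a1_C0.Pin18
open Pool.W7d29a1.C0 (gz gm gz_pos gz_ne gm_const gm_mono gm_nonneg gm_sub)
open Pool.W7d29a1.C0.VT31 (Mp Crs cE cV cC gc gv)
open Pool.Agent.W_7d29a1_C0.Swap57 (cE2 NI)

noncomputable section

variable {μ : Measure ℝ} {s : ℝ} {N b j : ℕ}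

/-! ### The ramp -/

theorem ramp_lip (x y : ℝ) : |max 0 (min 1 x) - max 0 (min 1 y)| ≤ |x - y| := by
  have h1 := abs_max_sub_max_le_abs (min 1 x) (min 1 y) 0
  rw [max_comm _ 0, max_comm _ 0] at h1
  have h2 := abs_min_sub_min_le_max 1 x 1 y
  rw [sub_self, abs_zero, max_eq_right (abs_nonneg _)] at h2
  exact h1.trans h2

/-- The ramp: `1[q ≤ x] ≤ ramp q x ≤ 1[q / 2 < x]`. -/
def ramp (q : ℝ) (hq : 0 < q) : LipF where
  f x := max 0 (min 1 (2 * x / q - 1))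
  M := 1
  Λ := 2 / q
  hM x := by
    rw [abs_of_nonneg (le_max_left _ _)]
    exact max_le zero_le_one (min_le_left _ _)
  hΛ x y := by
    refine (ramp_lip _ _).trans (le_of_eq ?_)
    have e : 2 * x / q - 1 - (2 * y / q - 1) = 2 / q * (x - y) := by ring
    rw [e, abs_mul, abs_of_pos (by positivity)]
  hΛ0 := by positivity

theorem ramp_nonneg {q : ℝ} (hq : 0 < q) (x : ℝ) : 0 ≤ (ramp q hq).f x := le_max_left _ _

theorem ramp_le_one {q : ℝ} (hq : 0 < q) (x : ℝ) : (ramp q hq).f x ≤ 1 := max_le zero_le_one (min_le_left _ _)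

theorem ramp_one {q : ℝ} (hq : 0 < q) {x : ℝ} (h : q ≤ x) : (ramp q hq).f x = 1 := by
  have h1 : 1 ≤ 2 * x / q - 1 := by
    rw [le_sub_iff_add_le, le_div_iff₀ hq]
    linarith
  show max 0 (min 1 (2 * x / q - 1)) = 1
  rw [min_eq_left h1, max_eq_right zero_le_one]

theorem ramp_zero {q : ℝ} (hq : 0 < q) {x : ℝ} (h : x ≤ q / 2) : (ramp q hq).f x = 0 := by
  have h1 : 2 * x / q - 1 ≤ 0 := by
    rw [sub_nonpos, div_le_one hq]
    linarith
  exact max_eq_left ((min_le_right _ _).trans h1)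

open Classical in
theorem ind_le_ramp {q : ℝ} (hq : 0 < q) {P : Prop} {x : ℝ} (h : P → q ≤ x) : (if P then (1 : ℝ) else 0) ≤ (ramp q hq).f x := by
  split_ifs with hP
  · rw [ramp_one hq (h hP)]
  · exact ramp_nonneg hq x

open Classical in
theorem ramp_le_ind {q : ℝ} (hq : 0 < q) {P : Prop} {x : ℝ} (h : q / 2 < x → P) : (ramp q hq).f x ≤ if P then (1 : ℝ) else 0 := by
  split_ifs with hP
  · exact ramp_le_one hq x
  · rw [ramp_zero hq (not_lt.1 fun h' => hP (h h'))]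

/-! ### Masses of two replicas -/

theorem CovM.swap {K : (y : ℕ) → Env × Finset ℕ → Px (Pn N y) → Px (Pn N y) → ℝ} {M : ℝ}
    (H : CovM N b j (fun y ω ρ => K y ω (ρ 0) (ρ 1)) M) (n n' : ℕ) : CovM N b j (fun y ω ρ => K y ω (ρ n) (ρ n')) M :=
  H.re fun k => if k = 0 then n else n'

/-- A kernel of two replicas over a block disjoint from the window. -/
theorem CovM.cE2 {K : (y : ℕ) → Env × Finset ℕ → Px (Pn N y) → Px (Pn N y) → ℝ} {M : ℝ}
    (H : CovM N b j (fun y ω ρ => K y ω (ρ 0) (ρ 1)) M) {c d : ℕ} (hcd : c ≤ d) (hdN : d ≤ N) (hW : d ≤ j - b ∨ j + b ≤ c) (n n' : ℕ) :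
    CovM N b j (fun y ω ρ => Swap57.cE2 (wm μ s N (Pn N y) ω) (pJ c d) (K y ω) (ρ n) (ρ n')) M :=
  CovM.ce (F := fun y ω ρ => cE (wm μ s N (Pn N y) ω) (pJ c d) (fun z => K y ω (ρ 0) z) (ρ (n' + 1)))
    (CovM.ce (F := fun y ω ρ => K y ω (ρ 1) (ρ 0)) (H.swap 1 0) hcd hdN hW (n' + 1)) hcd hdN hW n

namespace Rep

variable {δ B : ℝ} {a : ℕ} {M L : ℝ}

/-- The mass of a kernel of two replicas over a block which contains the window. -/
theorem cE2 {K : (y : ℕ) → Env × Finset ℕ → Px (Pn N y) → Px (Pn N y) → ℝ} (H : CovM N b j (fun y ω ρ => K y ω (ρ 0) (ρ 1)) M)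
    {c d : ℕ} (hc : c ≤ j - b) (hd : j + b ≤ d) {n n' : ℕ} (hn : n < a) (hn' : n' < a) :
    Rep μ s N δ B b j a (fun y ω w ρ => Swap57.cE2 w (pJ c d) (K y ω) (ρ n) (ρ n')) M (4 * M) := by
  have h1 : Rep μ s N δ B b j (a + 2) (fun y ω _ ρ => K y ω (ρ 1) (ρ 0)) M 0 := Rep.fn (H.swap 1 0)
  have h2 : Rep μ s N δ B b j (a + 1) (fun y ω w ρ => cE w (pJ c d) (fun z => K y ω (ρ 0) z) (ρ (n' + 1))) M (0 + 2 * M) :=
    Rep.ce hc hd (n := n' + 1) (by omega) h1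
  have h3 := Rep.ce hc hd (n := n) hn h2
  exact h3.mono le_rfl (by linarith)

/-- The mass of the replicas given the outside of a block which contains the window. -/
theorem mass {K : (y : ℕ) → Env × Finset ℕ → Px (Pn N y) → Px (Pn N y) → ℝ} (H : CovM N b j (fun y ω ρ => K y ω (ρ 0) (ρ 1)) M)
    {c d : ℕ} (hc : c ≤ j - b) (hd : j + b ≤ d) {n : ℕ} (hn : n < a) :
    Rep μ s N δ B b j a (fun y ω w ρ => cE w (pJ c d) (K y ω (ρ n)) (ρ n)) M (2 * M) := by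
  have h1 : Rep μ s N δ B b j (a + 1) (fun y ω _ ρ => K y ω (ρ (n + 1)) (ρ 0)) M 0 := Rep.fn (H.swap (n + 1) 0)
  have h3 := Rep.ce hc hd (n := n) hn h1
  exact h3.mono le_rfl (by linarith)

/-- **The mass of a kernel of two replicas over a block which contains the window or is disjoint from it.** -/
theorem cE2' {K : (y : ℕ) → Env × Finset ℕ → Px (Pn N y) → Px (Pn N y) → ℝ} (H : CovM N b j (fun y ω ρ => K y ω (ρ 0) (ρ 1)) M)
    {c d : ℕ} (hcd : c ≤ d) (hdN : d ≤ N) (hW : (c ≤ j - b ∧ j + b ≤ d) ∨ d ≤ j - b ∨ j + b ≤ c) {n n' : ℕ} (hn : n < a)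
    (hn' : n' < a) :
    Rep μ s N δ B b j a (fun y ω w ρ => Swap57.cE2 w (pJ c d) (K y ω) (ρ n) (ρ n')) M (4 * M) := by
  rcases hW with hW | hW
  · exact cE2 H hW.1 hW.2 hn hn'
  · refine (of_cov (CovM.cE2 (μ := μ) (s := s) H hcd hdN hW n n') fun y ω t ρ => ?_).mono le_rfl (by have := H.pos; linarith)
    have h1 := fun f : Px (Pn N y) → ℝ => cE_tilt (lw μ s ω.1 N (Pn N y)) (t • gj μ s ω.1 δ B b j (sg ω.2 j))
      (mp_gj_disj ω.1 hcd hW (sg ω.2 j) t) f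
    show cE (wg μ s N δ B b j y ω t) (pJ c d) (fun z => cE (wg μ s N δ B b j y ω t) (pJ c d) (K y ω z) (ρ n')) (ρ n) =
      cE (lw μ s ω.1 N (Pn N y)) (pJ c d) (fun z => cE (lw μ s ω.1 N (Pn N y)) (pJ c d) (K y ω z) (ρ n')) (ρ n)
    unfold wg
    rw [h1]
    simp only [h1]

/-- The functional at the actual weight is measurable. -/
theorem meas {G : (y : ℕ) → Env × Finset ℕ → (Px (Pn N y) → ℝ) → (ℕ → Px (Pn N y)) → ℝ} (h : Rep μ s N δ B b j a G M L) (y : ℕ)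
    (ρ : ℕ → Px (Pn N y)) : Measurable fun ω => G y ω (wm μ s N (Pn N y) ω) ρ := by
  have n1 : Nonempty (Px (Pn N y)) := ⟨ρ 0⟩
  obtain ⟨e, h1, h2, h3, h4⟩ := h
  have h5 := ExM.meas_evX (w := fun ω : Env × Finset ℕ => wm μ s N (Pn N y) ω) meas_wm
    (f := fun ω (i : CovF N b j) => i.F y ω) (fun i x => i.cov.mes y x) (fun k : Blk b j => pJ k.c k.d) e ρ
  have e6 : (fun ω => G y ω (wm μ s N (Pn N y) ω) ρ) = fun ω : Env × Finset ℕ => ExM.evX (wm μ s N (Pn N y) ω)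
      (fun i : CovF N b j => i.F y ω) (fun k : Blk b j => pJ k.c k.d) e ρ := by
    funext ω
    have h6 := h4 y ω 0 ρ
    rw [wg_zero] at h6
    exact h6
  rw [e6]
  exact h5

open Classical in
/-- **THE LAW INVARIANCE FOR ONE THRESHOLD**: the indicator of a threshold times a functional; the level is halved. -/
theorem thr_law [IsProbabilityMeasure μ] (hb : 0 < b) (hj : j + b ≤ N)
    {X G : (y : ℕ) → Env × Finset ℕ → (Px (Pn N y) → ℝ) → (ℕ → Px (Pn N y)) → ℝ} {MX LX LG : ℝ}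
    (hX : Rep μ s N δ B b j 1 X MX LX) (hG : Rep μ s N δ B b j 1 G 1 LG) (G0 : ∀ y ω w ρ, 0 ≤ G y ω w ρ) {q : ℝ} (hq : 0 < q)
    {y₀ m : ℕ} (hy : 1 ≤ y₀) (hm : 1 ≤ m) (hyN : y₀ + m ≤ N) {θ ε : ℝ} (hE : FErr2 μ s N δ B b j y₀ m θ ε)
    {P P' : (y : ℕ) → Env × Finset ℕ → Px (Pn N y) → Prop}
    (hP : ∀ y ω x, P y ω x → q ≤ X y ω (wt μ s ω.1 N (Pn N y) δ B b j (sg ω.2 j) (-(sg ω.2 j : ℝ))) fun _ => x)
    (hP' : ∀ y ω x, q / 2 < X y ω (wm μ s N (Pn N y) ω) (fun _ => x) → P' y ω x)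
    (mP' : ∀ y x, Measurable fun ω => if P' y ω x then (1 : ℝ) else 0) :
    avy (Ico y₀ (y₀ + m)) (fun y => ∫ ω, gm (wt μ s ω.1 N (Pn N y) δ B b j (sg ω.2 j) (-(sg ω.2 j : ℝ))) (fun x =>
        (if P y ω x then 1 else 0) * G y ω (wt μ s ω.1 N (Pn N y) δ B b j (sg ω.2 j) (-(sg ω.2 j : ℝ))) fun _ => x) ∂(Pm μ N)) ≤
      avy (Ico y₀ (y₀ + m)) (fun y => ∫ ω, gm (wm μ s N (Pn N y) ω) (fun x =>
        (if P' y ω x then 1 else 0) * G y ω (wm μ s N (Pn N y) ω) fun _ => x) ∂(Pm μ N)) +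
      (2 / m + (3 * (2 / q * LX + LG + 2) * θ + 4 * ε)) := by
  have hR := (Rep.lf (ramp q hq) hX).mul hG
  obtain ⟨i1, i2, key⟩ := hR.law hb hj hy hm hyN hE
  have e1 : (ramp q hq).M = 1 := rfl
  have e2 : (ramp q hq).Λ = 2 / q := rfl
  rw [e1, e2] at key
  have k1 : ∀ y ∈ Ico y₀ (y₀ + m), ∫ ω, gm (wt μ s ω.1 N (Pn N y) δ B b j (sg ω.2 j) (-(sg ω.2 j : ℝ))) (fun x =>
        (if P y ω x then 1 else 0) * G y ω (wt μ s ω.1 N (Pn N y) δ B b j (sg ω.2 j) (-(sg ω.2 j : ℝ))) fun _ => x) ∂(Pm μ N) ≤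
      ∫ ω, gm (wt μ s ω.1 N (Pn N y) δ B b j (sg ω.2 j) (-(sg ω.2 j : ℝ))) (fun x =>
        (ramp q hq).f (X y ω (wt μ s ω.1 N (Pn N y) δ B b j (sg ω.2 j) (-(sg ω.2 j : ℝ))) fun _ => x) *
          G y ω (wt μ s ω.1 N (Pn N y) δ B b j (sg ω.2 j) (-(sg ω.2 j : ℝ))) fun _ => x) ∂(Pm μ N) := by
    intro y hy'
    have n1 : Nonempty (Px (Pn N y)) := ne_Pn (by
      rw [mem_Ico] at hy'
      omega)
    refine integral_mono_of_nonneg (Filter.Eventually.of_forall fun ω => ?_) (i2 y) (Filter.Eventually.of_forall fun ω => ?_)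
    · exact gm_nonneg _ fun x => mul_nonneg (by split_ifs <;> norm_num) (G0 _ _ _ _)
    · exact gm_mono _ fun x => mul_le_mul_of_nonneg_right (ind_le_ramp hq (hP y ω x)) (G0 _ _ _ _)
  have k2 : ∀ y ∈ Ico y₀ (y₀ + m), ∫ ω, gm (wm μ s N (Pn N y) ω) (fun x =>
        (ramp q hq).f (X y ω (wm μ s N (Pn N y) ω) fun _ => x) * G y ω (wm μ s N (Pn N y) ω) fun _ => x) ∂(Pm μ N) ≤
      ∫ ω, gm (wm μ s N (Pn N y) ω) (fun x => (if P' y ω x then 1 else 0) * G y ω (wm μ s N (Pn N y) ω) fun _ => x) ∂(Pm μ N) := by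
    intro y hy'
    have n1 : Nonempty (Px (Pn N y)) := ne_Pn (by
      rw [mem_Ico] at hy'
      omega)
    have gb : ∀ ω x, G y ω (wm μ s N (Pn N y) ω) (fun _ => x) ≤ 1 := fun ω x => by
      obtain ⟨e, h1, h2, h3, h4⟩ := hG
      have h6 := h4 y ω 0 fun _ => x
      rw [wg_zero] at h6
      rw [h6]
      exact (le_abs_self _).trans ((ExM.evX_bdd _ _ posM (fun (i : CovF N b j) ρ => i.cov.bdd y ω ρ) e _).trans h2)
    refine integral_mono (i1 y) (int_bdd (meas_gm meas_wm fun x => (mP' y x).mul (hG.meas y fun _ => x)) (M := 1) fun ω => ?_) fun ω =>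
      gm_mono _ fun x => mul_le_mul_of_nonneg_right (ramp_le_ind hq (hP' y ω x)) (G0 _ _ _ _)
    refine Ex.gm_bdd _ fun x => ?_
    rw [abs_mul]
    have h7 : |if P' y ω x then (1 : ℝ) else 0| ≤ 1 := by split_ifs <;> simp
    have h8 : |G y ω (wm μ s N (Pn N y) ω) fun _ => x| ≤ 1 := by
      rw [abs_of_nonneg (G0 _ _ _ _)]
      exact gb ω x
    exact mul_le_one₀ h7 (abs_nonneg _) h8
  have a1 := mul_le_mul_of_nonneg_left (sum_le_sum k1) (show (0 : ℝ) ≤ ((Ico y₀ (y₀ + m)).card : ℝ)⁻¹ by positivity)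
  have a2 := mul_le_mul_of_nonneg_left (sum_le_sum k2) (show (0 : ℝ) ≤ ((Ico y₀ (y₀ + m)).card : ℝ)⁻¹ by positivity)
  have a3 := (abs_le.1 key).1
  unfold avy at a3 ⊢
  have a4 : 2 * (1 * 1) / (m : ℝ) + (3 * (1 * (2 / q * LX) + 1 * LG + 2 * (1 * 1)) * θ + 4 * (1 * 1) * ε) =
      2 / m + (3 * (2 / q * LX + LG + 2) * θ + 4 * ε) := by ring
  rw [a4] at a3
  linarith

end Rep

end

end Pool.Agent.W_7d29a1_C0.Flip61
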