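import Pool.Agent.W_7d29a1_C0.FlipE61

/-!
CURV0 (MP_7d29a1_pr), E7, LAW INVARIANCE UNDER THE FLIP, second part. `eqv_gg`, `eqv_Zm`: the half responses of the other rows and the
block functionals of the blocks disjoint from the window are equivariant. `flip_close`: THE LAW INVARIANCE for all expressions built from
equivariant functions by sums, products, conditional means over the blocks which contain the window, and the mean. (helper61)
-/

set_option autoImplicit false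
set_option linter.unusedSectionVars false

namespace Pool.Agent.W_7d29a1_C0.Flip61

open Pool.Agent.W_7d29a1_F hiding W_pos W_nonneg W_add
open Finset MeasureTheory Pool.Agent.W_7d29a1_X Pool.Agent.W_7d29a1_HZ
open Pool.Agent.W_7d29a1_Z74
open Pool.Agent.W_7d29a1_HZ.Z74
open Pool.Agent.W_7d29a1_C0.Mod92
open Pool.Agent.W_7d29a1_C0.Blk18
open Pool.W7d29a1.C0 (gz gm gz_pos gz_ne)
open Pool.W7d29a1.C0.VT31 (Mp Crs cE cV cC gc gv Zr Zb)

noncomputable section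

variable {μ : Measure ℝ} {s : ℝ} {c l : ℕ} {v : ℤ} {Q₁ Q₂ : Finset (Finset ℕ)}

/-! ### Sums -/

theorem Eqv.sum {ι : Type*} {f : ι → Px Q₁ → ℝ} {f' : ι → Px Q₂ → ℝ} (R : Finset ι) (h : ∀ i ∈ R, Eqv c l v (f i) (f' i)) :
    Eqv c l v (∑ i ∈ R, f i) (∑ i ∈ R, f' i) := fun S S' e => by
  rw [Finset.sum_apply, Finset.sum_apply]
  exact sum_congr rfl fun i hi => h i hi S S' e

/-! ### The other rows -/

/-- The half response of a row whose window is disjoint from the window of the flip. -/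
theorem eqv_gg {b k : ℕ} (hkl : k ≤ l) {ω ω' : Env × Finset ℕ} (h : Rel (c + k) v ω.1 ω'.1) (δ B : ℝ) {i : ℕ}
    (hs : sg ω'.2 i = sg ω.2 i) (hd : i + b ≤ c ∨ c + l ≤ i - b) :
    Eqv c l v (gg μ s Q₁ δ B b ω i) (gg μ s Q₂ δ B b ω' i) := by
  have e0 : i - b + (i + b - (i - b)) = i + b := by omega
  have e := eqv_gw (μ := μ) (s := s) (Q₁ := Q₁) (Q₂ := Q₂) hkl h δ B (sg ω.2 i) (c' := i - b) (l' := i + b - (i - b))
    (k' := i - (i - b)) (by omega) (by rw [e0]; exact hd)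
  rw [e0] at e
  unfold gg gj
  rw [hs]
  exact e

/-- **The block functional of a disjoint block is equivariant.** -/
theorem eqv_Zm {N b k : ℕ} (hkl : k ≤ l) {ω ω' : Env × Finset ℕ} (h : Rel (c + k) v ω.1 ω'.1)
    (hQ₁ : Full N Q₁) (hQ₂ : Full N Q₂) [Nonempty (Px Q₁)] [Nonempty (Px Q₂)] {c' d' : ℕ} (hcd : c' ≤ d') (hdN : d' ≤ N)
    (hd : d' ≤ c ∨ c + l ≤ c') (δ B : ℝ) (R : Finset ℕ) (hs : ∀ i ∈ Rw R c' d', sg ω'.2 i = sg ω.2 i)
    (hw : ∀ i ∈ Rw R c' d', i + b ≤ c ∨ c + l ≤ i - b) :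
    Eqv c l v (Zm μ s N Q₁ δ B b R c' d' ω) (Zm μ s N Q₂ δ B b R c' d' ω') := by
  unfold Zm Zb
  refine Eqv.sum _ fun i hi => ?_
  have h1 := eqv_gg (μ := μ) (s := s) (Q₁ := Q₁) (Q₂ := Q₂) hkl h δ B (hs i hi) (hw i hi)
  have h2 : sr ω'.2 i = sr ω.2 i := by
    unfold sr
    rw [hs i hi]
  unfold Pool.W7d29a1.C0.VT31.Zr
  rw [h2]
  unfold wm
  exact (eqv_cE hkl h hQ₁ hQ₂ hcd hdN hd h1).sub ((eqv_cV hkl h hQ₁ hQ₂ hcd hdN hd h1).smul _)

/-! ### Partitions -/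

/-- The outside data of a block as a function of the outside data of a window inside of it. -/
def oq (c' d' : ℕ) (o : Finset ℕ × ℤ) : Finset ℕ × ℤ := (o.1 \ Ico c' d', ((o.1 ∩ Ico c' d').card : ℤ) + o.2)

theorem oq_dJ {c' d' : ℕ} (hc : c' ≤ c) (hd : c + l ≤ d') (u : ℤ) (S : Finset ℕ) :
    oq c' d' (dJ c l u S) = (S \ Ico c' d', ((S ∩ Ico c' d').card : ℤ) + u) := by
  unfold oq dJ
  rw [Prod.mk.injEq]
  constructor
  · ext i
    simp only [mem_sdiff, mem_Ico]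
    constructor
    · rintro ⟨⟨h3, h4⟩, h5⟩
      exact ⟨h3, by omega⟩
    · rintro ⟨h3, h4⟩
      exact ⟨⟨h3, by omega⟩, h4⟩
  · have h1 : (S ∩ Ico c' d').card = ((S \ Ico c (c + l)) ∩ Ico c' d').card + (S ∩ Ico c (c + l)).card := by
      rw [← card_union_of_disjoint]
      · congr 1
        ext i
        simp only [mem_inter, mem_sdiff, mem_Ico, mem_union]
        constructor
        · rintro ⟨h3, h4⟩
          by_cases h5 : c ≤ i ∧ i < c + l
          · exact Or.inr ⟨h3, h5⟩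
          · exact Or.inl ⟨⟨h3, h5⟩, h4⟩
        · rintro (⟨⟨h3, _⟩, h4⟩ | ⟨h3, h4, h5⟩)
          · exact ⟨h3, h4⟩
          · exact ⟨h3, by omega⟩
      · rw [disjoint_left]
        intro i h3 h4
        simp only [mem_inter, mem_sdiff] at h3 h4
        exact h3.1.2 h4.2
    rw [h1]
    push_cast
    ring

theorem part_pJ {Q : Finset (Finset ℕ)} {c' d' : ℕ} (hc : c' ≤ c) (hd : c + l ≤ d') (u : ℤ) (S S' : Px Q) :
    pJ c' d' S = pJ c' d' S' ↔ oq c' d' (dJ c l u S.1) = oq c' d' (dJ c l u S'.1) := by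
  rw [oq_dJ hc hd, oq_dJ hc hd]
  unfold pJ
  rw [Prod.mk.injEq, Prod.mk.injEq]
  refine and_congr_right fun _ => ?_
  constructor <;> intro h <;> omega

theorem mp_dJ {Q : Finset (Finset ℕ)} {f : Px Q → ℝ} (h : Mp (pJ c (c + l)) f) {S S' : Px Q} {u : ℤ} (e : dJ c l u S.1 = dJ c l u S'.1) :
    f S = f S' := by
  refine h S S' ?_
  rw [part_pJ (l := l) le_rfl le_rfl u]
  rw [e]

/-! ### The law invariance -/

/-- **THE LAW INVARIANCE UNDER THE FLIP.** `h₁`, `h₂`: equivariant functions of the outside data of the window, bounded by `b`. The mean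
of an expression (conditional means over blocks which contain the window) under the log weights `w₁` (the clipped flip) and under the
actual measure in the environment `shj j v η`. -/
theorem flip_close (η : Env) {N k : ℕ} (hk : k ≤ l) (hN : c + l ≤ N) (hv : |v| ≤ 1)
    (P : ℤ → Prop) [DecidablePred P] (e1 : Q₁ = fam N P) (e2 : Q₂ = fam N fun x => P (x + v))
    [Nonempty (Px Q₁)] [Nonempty (Px Q₂)] (w₁ : Px Q₁ → ℝ)
    {ι β : Type*} {h₁ : ι → Px Q₁ → ℝ} {h₂ : ι → Px Q₂ → ℝ} (hE : ∀ i, Eqv c l v (h₁ i) (h₂ i))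
    (m1 : ∀ i, Mp (pJ c (c + l)) (h₁ i)) (m2 : ∀ i, Mp (pJ c (c + l)) (h₂ i)) {b : ι → ℝ} (hb : ∀ i, 0 ≤ b i)
    (b1 : ∀ i x, |h₁ i x| ≤ b i) (b2 : ∀ i x, |h₂ i x| ≤ b i)
    (C D : β → ℕ) (hC : ∀ i, C i ≤ c) (hD : ∀ i, c + l ≤ D i) (e : Ex ι β)
    (hp : 0 < ∑ S ∈ Q₁, pth μ s η N S * Rp μ s η c l k v S) :
    |gm w₁ (Ex.evX w₁ h₁ (fun i => pJ (C i) (D i)) e) -
        gm (lw μ s (shj ((c + k : ℕ) : ℤ) v η) N Q₂)
          (Ex.evX (lw μ s (shj ((c + k : ℕ) : ℤ) v η) N Q₂) h₂ (fun i => pJ (C i) (D i)) e)| ≤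
      (Ex.li b e + Ex.bd b e) *
        ((∑ S : Px Q₁, |Real.exp (w₁ S) / gz w₁ - pth μ s η N S.1 * Rp μ s η c l k v S.1 /
          ∑ S ∈ Q₁, pth μ s η N S * Rp μ s η c l k v S|) +
        2 * gm (lw μ s (shj ((c + k : ℕ) : ℤ) v η) N Q₂) (fun S => if Ok c l v S.1 then 0 else 1)) := by
  have hQ₁ : Q₁ ⊆ Fr N := by
    rw [e1]
    exact filter_subset _ _
  have hQ₂ : Q₂ ⊆ Fr N := by
    rw [e2]
    exact filter_subset _ _
  have h0 : |(0 : ℤ)| ≤ 1 := by simp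
  have ht := tv_flip (μ := μ) (s := s) η hk hN hv h0 P e1 e2 hQ₁ hQ₂ w₁ hp
  have hobs := Ex.flip_obs w₁ (lw μ s (shj ((c + k : ℕ) : ℤ) v η) N Q₂) (lab hQ₁ c l h0) (lab hQ₂ c l hv) (h₁ := h₁) (h₂ := h₂)
    (q₁ := fun i => pJ (C i) (D i)) (q₂ := fun i => pJ (C i) (D i)) (fun i o => oq (C i) (D i) o.1) hb b1 b2
    (fun i x y h => hE i x y (congrArg Subtype.val h))
    (fun i x y h => mp_dJ (m1 i) (congrArg Subtype.val h))
    (fun i x y h => mp_dJ (m2 i) (congrArg Subtype.val h))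
    (fun i x y => part_pJ (hC i) (hD i) 0 x y) (fun i x y => part_pJ (hC i) (hD i) v x y) e
  refine hobs.trans ?_
  refine mul_le_mul_of_nonneg_left ht ?_
  exact add_nonneg (Ex.li_nonneg hb e) (Ex.bd_nonneg hb e)

end

end Pool.Agent.W_7d29a1_C0.Flip61
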