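import Pool.Agent.W_7d29a1_C0.CrossX82
import Pool.Agent.W_7d29a1_C0.CumB82

/-!
CURV0 (MP_7d29a1_pr, helper44): THE EXPECTATION LAYER over `cm`, `cj`, `CJ`, `DJ`, `D2`. Measurability in all arguments, crude bounds
which depend only on the sup norms and the number of arguments, exchange of the integral over `t` with the expectation, derivative
under the expectation, and the expectation forms of `crossX_mean`, `crossX_nu`, `crossX`: the error is at most
`(1/3) sup_t |E DJ| + (1/24) sup_t |E D2|`.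
-/

set_option autoImplicit false
set_option linter.unusedSectionVars false
set_option linter.unusedVariables false

namespace Pool.W7d29a1.C0

open Finset Filter Topology MeasureTheory intervalIntegral
open Pool.Agent.W_7d29a1_C0

noncomputable section

variable {X : Type*} [Fintype X] [Nonempty X] {Y : Type*} [Fintype Y] [Nonempty Y] [DecidableEq Y]

/-! ### Measurability -/

section Meas

variable {Ω : Type*} [MeasurableSpace Ω] {p : X → Y}

/-- The cumulants are measurable functions of all their arguments. -/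
theorem meas_cm {w : Ω → X → ℝ} (hw : Measurable w) : ∀ (fs : List (Ω → X → ℝ)), (∀ f ∈ fs, Measurable f) →
    ∀ k : List (X → ℝ), Measurable fun u => cm (k ++ fs.map fun f => f u) (w u)
  | [], _, k => (cm_continuous (k ++ [])).measurable.comp hw
  | f :: fs, h, k => by
    classical
    have hf : Measurable f := h f (by simp)
    have e : (fun u => cm (k ++ (f :: fs).map fun f => f u) (w u)) = fun u => ∑ i, f u i *
        cm ((k ++ [fun j => if i = j then (1 : ℝ) else 0]) ++ fs.map fun f => f u) (w u) := by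
      funext u
      rw [List.map_cons, cm_mid_basis]
      refine Finset.sum_congr rfl fun i _ => ?_
      rw [List.append_assoc, List.singleton_append]
    rw [e]
    refine Finset.measurable_fun_sum _ fun i _ => ?_
    exact ((measurable_pi_apply i).comp hf).mul (meas_cm hw fs (fun g hg => h g (by simp [hg])) _)

theorem meas_rs (p : X → Y) (y : Y) {g : Ω → X → ℝ} (hg : Measurable g) : Measurable fun u => rs p y (g u) :=
  measurable_pi_lambda _ fun x => (measurable_pi_apply x.1).comp hg

/-- The joint conditional cumulants are measurable. -/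
theorem meas_cj (hp : Function.Surjective p) {w : Ω → X → ℝ} (hw : Measurable w) (gs : List (Ω → X → ℝ))
    (hg : ∀ g ∈ gs, Measurable g) : Measurable fun u => cj p (gs.map fun g => g u) (w u) := by
  refine measurable_pi_lambda _ fun y => ?_
  have := nonempty_fib hp y
  have h := meas_cm (meas_rs p y hw) (gs.map fun g => fun u => rs p y (g u)) (fun f hf => by
    obtain ⟨g, h1, rfl⟩ := List.mem_map.1 hf
    exact meas_rs p y (hg g h1)) []
  have e : (fun u => cj p (gs.map fun g => g u) (w u) y) = fun u => cm ([] ++ (gs.map fun g => fun u =>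
      rs p y (g u)).map fun f => f u) (rs p y (w u)) := by
    funext u
    unfold cj
    rw [List.nil_append, List.map_map, List.map_map]
    rfl
  rw [e]
  exact h

theorem meas_wmarg (hp : Function.Surjective p) {w : Ω → X → ℝ} (hw : Measurable w) : Measurable fun u => wmarg p (w u) := by
  have h := meas_cj hp hw [] (by simp)
  have e : (fun u => wmarg p (w u)) = fun u => cj p ([].map fun g : Ω → X → ℝ => g u) (w u) := by
    funext u
    exact (cj_nil hp _).symm
  rw [e]
  exact h

theorem meas_line {g w : Ω → X → ℝ} (hg : Measurable g) (hw : Measurable w) (t : ℝ) : Measurable fun u => w u + t • g u :=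
  hw.add (hg.const_smul t)

/-- The cumulants of the conditional cumulants are measurable. -/
theorem meas_CJ (hp : Function.Surjective p) {w : Ω → X → ℝ} (hw : Measurable w) (ls : List (List (Ω → X → ℝ)))
    (hls : ∀ gs ∈ ls, ∀ g ∈ gs, Measurable g) (l : List (Ω → Y → ℝ)) (hl : ∀ f ∈ l, Measurable f) :
    Measurable fun u => CJ p (w u) (ls.map fun gs => gs.map fun g => g u) (l.map fun f => f u) := by
  have h := meas_cm (meas_wmarg hp hw) ((ls.map fun gs => fun u => cj p (gs.map fun g => g u) (w u)) ++ l) (fun F hF => by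
    rcases List.mem_append.1 hF with h1 | h1
    · obtain ⟨gs, h2, rfl⟩ := List.mem_map.1 h1
      exact meas_cj hp hw gs (hls gs h2)
    · exact hl F h1) []
  have e : (fun u => CJ p (w u) (ls.map fun gs => gs.map fun g => g u) (l.map fun f => f u)) = fun u => cm ([] ++
      ((ls.map fun gs => fun u => cj p (gs.map fun g => g u) (w u)) ++ l).map fun F => F u) (wmarg p (w u)) := by
    funext u
    unfold CJ
    rw [List.nil_append, List.map_append, List.map_map, List.map_map]
    rfl
  rw [e]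
  exact h

theorem meas_djs (hp : Function.Surjective p) {w C : Ω → X → ℝ} (hw : Measurable w) (hC : Measurable C)
    (l : List (Ω → Y → ℝ)) (hl : ∀ f ∈ l, Measurable f) : ∀ ls pre : List (List (Ω → X → ℝ)),
    (∀ gs ∈ ls, ∀ g ∈ gs, Measurable g) → (∀ gs ∈ pre, ∀ g ∈ gs, Measurable g) →
    Measurable fun u => djs p (w u) (C u) (l.map fun f => f u) (pre.map fun gs => gs.map fun g => g u)
      (ls.map fun gs => gs.map fun g => g u)
  | [], pre, _, _ => by
    simp only [List.map_nil, djs]
    exact measurable_const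
  | gs :: ls, pre, h1, h2 => by
    have ih := meas_djs hp hw hC l hl ls (pre ++ [gs]) (fun a ha => h1 a (by simp [ha])) (fun a ha => by
      rcases List.mem_append.1 ha with h3 | h3
      · exact h2 a h3
      · rw [List.mem_singleton.1 h3]
        exact h1 gs (by simp))
    have h4 := meas_CJ hp hw (pre ++ (C :: gs) :: ls) (fun a ha => by
      rcases List.mem_append.1 ha with h3 | h3
      · exact h2 a h3
      · rcases List.mem_cons.1 h3 with rfl | h5
        · intro g hg
          rcases List.mem_cons.1 hg with rfl | h6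
          · exact hC
          · exact h1 gs (by simp) g h6
        · exact h1 a (by simp [h5])) l hl
    have e : (fun u => djs p (w u) (C u) (l.map fun f => f u) (pre.map fun gs => gs.map fun g => g u)
        ((gs :: ls).map fun gs => gs.map fun g => g u)) = fun u =>
        CJ p (w u) ((pre ++ (C :: gs) :: ls).map fun gs => gs.map fun g => g u) (l.map fun f => f u) +
        djs p (w u) (C u) (l.map fun f => f u) ((pre ++ [gs]).map fun gs => gs.map fun g => g u)
          (ls.map fun gs => gs.map fun g => g u) := by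
      funext u
      simp only [List.map_append, List.map_cons, List.map_nil, djs]
    rw [e]
    exact h4.add ih

/-- The derivatives of `CJ` are measurable. -/
theorem meas_DJ (hp : Function.Surjective p) {w C : Ω → X → ℝ} (hw : Measurable w) (hC : Measurable C)
    (ls : List (List (Ω → X → ℝ))) (hls : ∀ gs ∈ ls, ∀ g ∈ gs, Measurable g) (l : List (Ω → Y → ℝ))
    (hl : ∀ f ∈ l, Measurable f) :
    Measurable fun u => DJ p (w u) (C u) (ls.map fun gs => gs.map fun g => g u) (l.map fun f => f u) := by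
  have h1 := meas_CJ hp hw ([C] :: ls) (fun a ha => by
    rcases List.mem_cons.1 ha with rfl | h3
    · intro g hg
      rw [List.mem_singleton.1 hg]
      exact hC
    · exact hls a h3) l hl
  have h2 := meas_djs hp hw hC l hl ls [] hls (by simp)
  have e : (fun u => DJ p (w u) (C u) (ls.map fun gs => gs.map fun g => g u) (l.map fun f => f u)) = fun u =>
      CJ p (w u) (([C] :: ls).map fun gs => gs.map fun g => g u) (l.map fun f => f u) +
      djs p (w u) (C u) (l.map fun f => f u) (([] : List (List (Ω → X → ℝ))).map fun gs => gs.map fun g => g u)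
        (ls.map fun gs => gs.map fun g => g u) := by
    funext u
    simp only [List.map_cons, List.map_nil, DJ]
  rw [e]
  exact h1.add h2

theorem meas_D2 (hp : Function.Surjective p) {w C γ g : Ω → X → ℝ} (hw : Measurable w) (hC : Measurable C) (hγ : Measurable γ)
    (hg : Measurable g) (l : List (Ω → Y → ℝ)) (hl : ∀ f ∈ l, Measurable f) :
    Measurable fun u => D2 p (w u) (C u) (γ u) (g u) (l.map fun f => f u) := by
  have h1 := meas_DJ hp hw hC [[g], [γ, g]] (fun a ha b hb => by
    simp only [List.mem_cons, List.not_mem_nil, or_false] at ha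
    rcases ha with rfl | rfl
    · rw [List.mem_singleton.1 hb]; exact hg
    · simp only [List.mem_cons, List.not_mem_nil, or_false] at hb
      rcases hb with rfl | rfl
      · exact hγ
      · exact hg) l hl
  have h2 := meas_DJ hp hw hC [[g, γ, g]] (fun a ha b hb => by
    rw [List.mem_singleton.1 ha] at hb
    simp only [List.mem_cons, List.not_mem_nil, or_false] at hb
    rcases hb with rfl | rfl | rfl
    · exact hg
    · exact hγ
    · exact hg) l hl
  exact h1.add h2

end Meas

/-! ### Crude bounds -/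

/-- The crude constant: `n` arguments of size `M`. -/
def KB (n : ℕ) (M : ℝ) : ℝ := n.factorial * (2 * M) ^ n

theorem KB_nonneg {M : ℝ} (hM : 0 ≤ M) (n : ℕ) : 0 ≤ KB n M := by
  unfold KB
  positivity

theorem cst_le {M : ℝ} (hM : 0 ≤ M) : ∀ l : List (X → ℝ), (∀ f ∈ l, ∀ x, |f x| ≤ M) →
    cst l ≤ 1 / 2 * ((2 * M) ^ l.length * (l.length + 1).factorial)
  | [], _ => by norm_num [cst]
  | A :: l, h => by
    have ih := cst_le hM l fun f hf => h f (by simp [hf])
    have hA : ‖A‖ ≤ M := (pi_norm_le_iff_of_nonneg hM).2 fun x => by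
      rw [Real.norm_eq_abs]
      exact h A (by simp) x
    have e : (1 / 2 : ℝ) * ((2 * M) ^ (l.length + 1) * ((l.length + 1 + 1).factorial : ℝ)) =
        2 * (l.length + 2 : ℝ) * M * (1 / 2 * ((2 * M) ^ l.length * (l.length + 1).factorial)) := by
      rw [Nat.factorial_succ (l.length + 1)]
      push_cast
      ring
    show 2 * (l.length + 2 : ℝ) * ‖A‖ * cst l ≤ 1 / 2 * ((2 * M) ^ (l.length + 1) * ((l.length + 1 + 1).factorial : ℝ))
    rw [e]
    exact mul_le_mul (mul_le_mul_of_nonneg_left hA (by positivity)) ih (cst_nonneg _) (by positivity)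

theorem list_two_last {α : Type*} : ∀ l : List α, l = [] ∨ (∃ a, l = [a]) ∨ ∃ k a b, l = k ++ [a, b]
  | [] => Or.inl rfl
  | a :: l => by
    rcases list_two_last l with h | ⟨b, h⟩ | ⟨k, b, c, h⟩
    · exact Or.inr (Or.inl ⟨a, by rw [h]⟩)
    · exact Or.inr (Or.inr ⟨[], a, b, by rw [h]; rfl⟩)
    · exact Or.inr (Or.inr ⟨a :: k, b, c, by rw [h]; rfl⟩)

/-- **The crude bound of a cumulant.** -/
theorem abs_cm_le_KB {M : ℝ} (hM : 0 ≤ M) (l : List (X → ℝ)) (hne : l ≠ []) (h : ∀ f ∈ l, ∀ x, |f x| ≤ M) (w : X → ℝ) :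
    |cm l w| ≤ KB l.length M := by
  rcases list_two_last l with h0 | ⟨a, rfl⟩ | ⟨k, a, b, rfl⟩
  · exact absurd h0 hne
  · have h1 : cm [a] w = gm w a := by rw [cm_one, gm_eq_gav]
    rw [h1]
    refine (abs_gm_le w a).trans ((gm_mono w (g := fun _ => M) fun x => h a (by simp) x).trans ?_)
    rw [gm_const]
    unfold KB
    norm_num
    linarith
  · have h1 := abs_cm_le k a b w
    have ha : ∀ x, |a x| ≤ M := h a (by simp)
    have hb : ∀ x, |b x| ≤ M := h b (by simp)
    have h2 : PP w (fun y z => |a y - a z| * |b y - b z|) ≤ (2 * M) * (2 * M) := by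
      have h3 : PP w (fun y z => |a y - a z| * |b y - b z|) ≤ PP w (fun _ _ => (2 * M) * (2 * M)) := by
        refine PP_mono w fun y z => ?_
        have e1 : |a y - a z| ≤ 2 * M := (abs_sub _ _).trans (by linarith [ha y, ha z])
        have e2 : |b y - b z| ≤ 2 * M := (abs_sub _ _).trans (by linarith [hb y, hb z])
        exact mul_le_mul e1 e2 (abs_nonneg _) (by linarith)
      have h4 : PP w (fun _ _ : X => (2 * M) * (2 * M)) = (2 * M) * (2 * M) := by
        have := PP_mul w (fun _ => 2 * M) (fun _ => 2 * M)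
        rw [this, gm_const]
      rw [h4] at h3
      exact h3
    have h5 := cst_le hM k fun f hf => h f (by simp [hf])
    have h6 : 0 ≤ PP w (fun y z => |a y - a z| * |b y - b z|) :=
      PP_nonneg w fun y z => mul_nonneg (abs_nonneg _) (abs_nonneg _)
    have h7 := h1.trans (mul_le_mul h5 h2 h6 (by positivity))
    refine h7.trans ?_
    have e3 : (k ++ [a, b]).length = k.length + 2 := by simp
    rw [e3]
    unfold KB
    have e4 : ((k.length + 2).factorial : ℝ) = (k.length + 2 : ℝ) * (k.length + 1).factorial := by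
      rw [show k.length + 2 = (k.length + 1) + 1 from rfl, Nat.factorial_succ]
      push_cast
      ring
    rw [e4]
    have e5 : (1 : ℝ) / 2 * ((2 * M) ^ k.length * (k.length + 1).factorial) * (2 * M * (2 * M)) =
        1 / 2 * ((k.length + 1).factorial * (2 * M) ^ (k.length + 2)) := by ring
    rw [e5]
    have e6 : (0 : ℝ) ≤ (k.length + 1).factorial * (2 * M) ^ (k.length + 2) := by positivity
    have e7 : (0 : ℝ) ≤ (k.length : ℝ) := Nat.cast_nonneg _
    nlinarith [mul_nonneg e7 e6]

theorem abs_cj_le_KB {p : X → Y} (hp : Function.Surjective p) {M : ℝ} (hM : 0 ≤ M) (gs : List (X → ℝ)) (hne : gs ≠ [])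
    (h : ∀ g ∈ gs, ∀ x, |g x| ≤ M) (w : X → ℝ) (y : Y) : |cj p gs w y| ≤ KB gs.length M := by
  have := nonempty_fib hp y
  have h1 := abs_cm_le_KB hM (gs.map (rs p y)) (by simpa using hne) (fun f hf x => by
    obtain ⟨g, h2, rfl⟩ := List.mem_map.1 hf
    exact h g h2 x.1) (rs p y w)
  rw [List.length_map] at h1
  exact h1

/-- The constant for lists of at most `N` lists of at most `N` functions. -/
def MB (N : ℕ) (M : ℝ) : ℝ := M + ∑ n ∈ range (N + 1), KB n M

theorem KB_le_MB {M : ℝ} (hM : 0 ≤ M) {n N : ℕ} (h : n ≤ N) : KB n M ≤ MB N M := by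
  have h1 := Finset.single_le_sum (f := fun n => KB n M) (fun i _ => KB_nonneg hM i) (mem_range.2 (Nat.lt_succ_of_le h))
  unfold MB
  linarith

theorem le_MB {M : ℝ} (hM : 0 ≤ M) (N : ℕ) : M ≤ MB N M := by
  have h1 := Finset.sum_nonneg fun n (_ : n ∈ range (N + 1)) => KB_nonneg hM n
  unfold MB
  linarith

theorem MB_nonneg {M : ℝ} (hM : 0 ≤ M) (N : ℕ) : 0 ≤ MB N M := hM.trans (le_MB hM N)

/-- The final constant. -/
def CB (N : ℕ) (M : ℝ) : ℝ := ∑ n ∈ range (N + 1), KB n (MB N M)

theorem CB_nonneg {M : ℝ} (hM : 0 ≤ M) (N : ℕ) : 0 ≤ CB N M :=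
  Finset.sum_nonneg fun n _ => KB_nonneg (MB_nonneg hM N) n

/-- **The crude bound of `CJ`.** -/
theorem abs_CJ_le {p : X → Y} (hp : Function.Surjective p) {M : ℝ} (hM : 0 ≤ M) {N : ℕ} (w : X → ℝ)
    (ls : List (List (X → ℝ))) (l : List (Y → ℝ)) (hN : ls.length + l.length ≤ N) (hne : ls ≠ [] ∨ l ≠ [])
    (hls : ∀ gs ∈ ls, gs ≠ [] ∧ gs.length ≤ N ∧ ∀ g ∈ gs, ∀ x, |g x| ≤ M) (hl : ∀ f ∈ l, ∀ y, |f y| ≤ M) :
    |CJ p w ls l| ≤ CB N M := by
  have h1 := abs_cm_le_KB (MB_nonneg hM N) (ls.map (fun gs => cj p gs w) ++ l) (by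
    rcases hne with h | h
    · simp [h]
    · simp [h]) (fun f hf y => by
    rcases List.mem_append.1 hf with h2 | h2
    · obtain ⟨gs, h3, rfl⟩ := List.mem_map.1 h2
      obtain ⟨a1, a2, a3⟩ := hls gs h3
      exact (abs_cj_le_KB hp hM gs a1 a3 w y).trans (KB_le_MB hM a2)
    · exact (hl f h2 y).trans (le_MB hM N)) (wmarg p w)
  refine h1.trans ?_
  have e : (ls.map (fun gs => cj p gs w) ++ l).length = ls.length + l.length := by simp
  rw [e]
  exact Finset.single_le_sum (f := fun n => KB n (MB N M)) (fun i _ => KB_nonneg (MB_nonneg hM N) i)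
    (mem_range.2 (Nat.lt_succ_of_le hN))

theorem abs_djs_le {p : X → Y} (hp : Function.Surjective p) {M : ℝ} (hM : 0 ≤ M) {N : ℕ} (w C : X → ℝ)
    (hC : ∀ x, |C x| ≤ M) (l : List (Y → ℝ)) (hl : ∀ f ∈ l, ∀ y, |f y| ≤ M) : ∀ ls pre : List (List (X → ℝ)),
    pre.length + ls.length + l.length ≤ N → (∀ gs ∈ ls, gs ≠ [] ∧ gs.length + 1 ≤ N ∧ ∀ g ∈ gs, ∀ x, |g x| ≤ M) →
    (∀ gs ∈ pre, gs ≠ [] ∧ gs.length + 1 ≤ N ∧ ∀ g ∈ gs, ∀ x, |g x| ≤ M) → |djs p w C l pre ls| ≤ ls.length * CB N M
  | [], pre, _, _, _ => by simp [djs]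
  | gs :: ls, pre, hN, h1, h2 => by
    have ih := abs_djs_le hp hM w C hC l hl ls (pre ++ [gs]) (by simp at hN ⊢; omega) (fun a ha => h1 a (by simp [ha]))
      (fun a ha => by
        rcases List.mem_append.1 ha with h3 | h3
        · exact h2 a h3
        · rw [List.mem_singleton.1 h3]
          exact h1 gs (by simp))
    have h4 := abs_CJ_le hp hM (N := N) w (pre ++ (C :: gs) :: ls) l (by simp at hN ⊢; omega) (Or.inl (by simp))
      (fun a ha => by
        rcases List.mem_append.1 ha with h3 | h3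
        · obtain ⟨a1, a2, a3⟩ := h2 a h3
          exact ⟨a1, by omega, a3⟩
        · rcases List.mem_cons.1 h3 with rfl | h5
          · obtain ⟨a1, a2, a3⟩ := h1 gs (by simp)
            refine ⟨by simp, by simpa using a2, fun g hg => ?_⟩
            rcases List.mem_cons.1 hg with rfl | h6
            · exact hC
            · exact a3 g h6
          · obtain ⟨a1, a2, a3⟩ := h1 a (by simp [h5])
            exact ⟨a1, by omega, a3⟩) hl
    show |CJ p w (pre ++ (C :: gs) :: ls) l + djs p w C l (pre ++ [gs]) ls| ≤ _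
    refine (abs_add_le _ _).trans ((add_le_add h4 ih).trans (le_of_eq ?_))
    simp only [List.length_cons, Nat.cast_add, Nat.cast_one]
    ring

/-- **The crude bound of `DJ`.** -/
theorem abs_DJ_le {p : X → Y} (hp : Function.Surjective p) {M : ℝ} (hM : 0 ≤ M) {N : ℕ} (w C : X → ℝ)
    (hC : ∀ x, |C x| ≤ M) (ls : List (List (X → ℝ))) (l : List (Y → ℝ)) (hN : ls.length + l.length + 1 ≤ N)
    (hls : ∀ gs ∈ ls, gs ≠ [] ∧ gs.length + 1 ≤ N ∧ ∀ g ∈ gs, ∀ x, |g x| ≤ M) (hl : ∀ f ∈ l, ∀ y, |f y| ≤ M) :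
    |DJ p w C ls l| ≤ (ls.length + 1) * CB N M := by
  have h1 := abs_CJ_le hp hM (N := N) w ([C] :: ls) l (by simp; omega) (Or.inl (by simp)) (fun a ha => by
    rcases List.mem_cons.1 ha with rfl | h3
    · refine ⟨by simp, by simp; omega, fun g hg => ?_⟩
      rw [List.mem_singleton.1 hg]
      exact hC
    · obtain ⟨a1, a2, a3⟩ := hls a h3
      exact ⟨a1, by omega, a3⟩) hl
  have h2 := abs_djs_le hp hM (N := N) w C hC l hl ls [] (by simp; omega) hls (by simp)
  unfold DJ
  refine (abs_add_le _ _).trans ((add_le_add h1 h2).trans (le_of_eq ?_))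
  ring

theorem abs_D2_le {p : X → Y} (hp : Function.Surjective p) {M : ℝ} (hM : 0 ≤ M) (w C γ g : X → ℝ)
    (hC : ∀ x, |C x| ≤ M) (hγ : ∀ x, |γ x| ≤ M) (hg : ∀ x, |g x| ≤ M) (l : List (Y → ℝ)) (hl : ∀ f ∈ l, ∀ y, |f y| ≤ M) :
    |D2 p w C γ g l| ≤ 5 * CB (l.length + 4) M := by
  have h1 := abs_DJ_le hp hM (N := l.length + 4) w C hC [[g], [γ, g]] l (by simp; omega) (fun a ha => by
    simp only [List.mem_cons, List.not_mem_nil, or_false] at ha
    rcases ha with rfl | rfl
    · refine ⟨by simp, by simp, fun b hb => ?_⟩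
      rw [List.mem_singleton.1 hb]; exact hg
    · refine ⟨by simp, by simp, fun b hb => ?_⟩
      simp only [List.mem_cons, List.not_mem_nil, or_false] at hb
      rcases hb with rfl | rfl
      · exact hγ
      · exact hg) hl
  have h2 := abs_DJ_le hp hM (N := l.length + 4) w C hC [[g, γ, g]] l (by simp; omega) (fun a ha => by
    rw [List.mem_singleton.1 ha]
    refine ⟨by simp, by simp, fun b hb => ?_⟩
    simp only [List.mem_cons, List.not_mem_nil, or_false] at hb
    rcases hb with rfl | rfl | rfl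
    · exact hg
    · exact hγ
    · exact hg) hl
  unfold D2
  refine (abs_add_le _ _).trans ((add_le_add h1 h2).trans (le_of_eq ?_))
  simp only [List.length_cons, List.length_nil]
  push_cast
  ring

/-! ### The integral over `t` and the expectation -/

section Int

variable {Ω : Type*} [MeasurableSpace Ω] (P : Measure Ω) [IsProbabilityMeasure P]

/-- **Exchange of the integral over `t` and the expectation.** -/
theorem int_swap44 {Ψ : ℝ → Ω → ℝ} (hc : ∀ ω, Continuous fun t => Ψ t ω) (hm : ∀ t, Measurable (Ψ t)) {K : ℝ}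
    (hK : ∀ t ω, |Ψ t ω| ≤ K) {c : ℝ → ℝ} (hcc : Continuous c) {a b : ℝ} (hab : a ≤ b) :
    ∫ ω, (∫ t in a..b, c t * Ψ t ω) ∂P = ∫ t in a..b, c t * ∫ ω, Ψ t ω ∂P := by
  have hu : Measurable (Function.uncurry fun (t : ℝ) (ω : Ω) => Ψ t ω) :=
    measurable_uncurry_of_continuous_of_measurable hc hm
  obtain ⟨B, hB⟩ := (isCompact_Icc (a := a) (b := b)).exists_bound_of_continuousOn hcc.continuousOn
  have hK0 : ∀ ω : Ω, 0 ≤ K := fun ω => (abs_nonneg _).trans (hK 0 ω)
  have hint : Integrable (Function.uncurry fun (ω : Ω) (t : ℝ) => c t * Ψ t ω) (P.prod (volume.restrict (Set.Ioc a b))) := by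
    refine Integrable.of_bound (C := |B| * |K|) ?_ ?_
    · refine Measurable.aestronglyMeasurable ?_
      have h1 : Measurable fun q : Ω × ℝ => c q.2 * Ψ q.2 q.1 :=
        (hcc.measurable.comp measurable_snd).mul (hu.comp (measurable_snd.prodMk measurable_fst))
      exact h1
    · rw [Measure.ae_prod_iff_ae_ae]
      · refine Eventually.of_forall fun ω => ?_
        rw [ae_restrict_iff' measurableSet_Ioc]
        refine Eventually.of_forall fun t ht => ?_
        show ‖c t * Ψ t ω‖ ≤ |B| * |K|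
        rw [norm_mul, Real.norm_eq_abs (Ψ t ω)]
        have h2 := hB t ⟨ht.1.le, ht.2⟩
        exact mul_le_mul (h2.trans (le_abs_self _)) ((hK t ω).trans (le_abs_self _)) (abs_nonneg _) (abs_nonneg _)
      · refine measurableSet_le ?_ measurable_const
        have h1 : Measurable fun q : Ω × ℝ => c q.2 * Ψ q.2 q.1 :=
          (hcc.measurable.comp measurable_snd).mul (hu.comp (measurable_snd.prodMk measurable_fst))
        exact h1.norm
  simp_rw [intervalIntegral.integral_of_le hab]
  rw [integral_integral_swap hint]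
  refine integral_congr_ae (Eventually.of_forall fun t => ?_)
  exact integral_const_mul _ _

/-- The bound of the expectation of an integral over `t`. -/
theorem abs_int_le44 {Ψ : ℝ → Ω → ℝ} (hc : ∀ ω, Continuous fun t => Ψ t ω) (hm : ∀ t, Measurable (Ψ t)) {K : ℝ}
    (hK : ∀ t ω, |Ψ t ω| ≤ K) {c : ℝ → ℝ} (hcc : Continuous c) {a b e : ℝ} (hab : a ≤ b)
    (he : ∀ t, a ≤ t → t ≤ b → |∫ ω, Ψ t ω ∂P| ≤ e) :
    |∫ ω, (∫ t in a..b, c t * Ψ t ω) ∂P| ≤ (∫ t in a..b, |c t|) * e := by
  rw [int_swap44 P hc hm hK hcc hab, ← intervalIntegral.integral_mul_const]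
  refine (intervalIntegral.abs_integral_le_integral_abs hab).trans ?_
  have hcE : Continuous fun t => ∫ ω, Ψ t ω ∂P := by
    refine continuous_of_dominated (bound := fun _ => K) (fun t => (hm t).aestronglyMeasurable)
      (fun t => Eventually.of_forall fun ω => ?_) (integrable_const _) (Eventually.of_forall fun ω => hc ω)
    rw [Real.norm_eq_abs]
    exact hK t ω
  refine intervalIntegral.integral_mono_on hab (Continuous.intervalIntegrable (by fun_prop) _ _)
    (Continuous.intervalIntegrable (by fun_prop) _ _) fun t ht => ?_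
  rw [abs_mul]
  exact mul_le_mul_of_nonneg_left (he t ht.1 ht.2) (abs_nonneg _)

omit [IsProbabilityMeasure P] in
theorem int_three {A B C : Ω → ℝ} (hA : Integrable A P) (hB : Integrable B P) (hC : Integrable C P) (a b : ℝ) :
    ∫ ω, (A ω + a * B ω - b * C ω) ∂P = (∫ ω, A ω ∂P) + a * (∫ ω, B ω ∂P) - b * ∫ ω, C ω ∂P := by
  have h1 : Integrable (fun ω => A ω + a * B ω) P := hA.add (hB.const_mul a)
  rw [MeasureTheory.integral_sub h1 (hC.const_mul b), MeasureTheory.integral_add hA (hB.const_mul a),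
    MeasureTheory.integral_const_mul, MeasureTheory.integral_const_mul]

/-- The derivative under the expectation. -/
theorem hasDerivAt_int44 {Ψ Ψ1 : ℝ → Ω → ℝ} (hd : ∀ t ω, HasDerivAt (fun t => Ψ t ω) (Ψ1 t ω) t)
    (hm : ∀ t, Measurable (Ψ t)) (hm1 : ∀ t, Measurable (Ψ1 t)) {K : ℝ} (hK : ∀ t ω, |Ψ t ω| ≤ K)
    (hK1 : ∀ t ω, |Ψ1 t ω| ≤ K) (t : ℝ) : HasDerivAt (fun t => ∫ ω, Ψ t ω ∂P) (∫ ω, Ψ1 t ω ∂P) t := by
  have hi : Integrable (Ψ t) P := Integrable.of_bound (hm t).aestronglyMeasurable K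
    (Eventually.of_forall fun ω => by rw [Real.norm_eq_abs]; exact hK t ω)
  exact (hasDerivAt_integral_of_dominated_loc_of_deriv_le (bound := fun _ => K) (Metric.ball_mem_nhds t one_pos)
    (Eventually.of_forall fun u => (hm u).aestronglyMeasurable) hi (hm1 t).aestronglyMeasurable
    (Eventually.of_forall fun ω u _ => by rw [Real.norm_eq_abs]; exact hK1 u ω) (integrable_const _)
    (Eventually.of_forall fun ω u _ => hd u ω)).2

end Int

/-! ### The expectation form of the cross term -/

theorem int_one_sub_sq : ∫ t in (-1 : ℝ)..1, |(1 - t ^ 2)| = 4 / 3 := by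
  have e : ∫ t in (-1 : ℝ)..1, |(1 - t ^ 2)| = ∫ t in (-1 : ℝ)..1, (1 - t ^ 2) := by
    refine intervalIntegral.integral_congr fun t ht => ?_
    rw [Set.uIcc_of_le (by norm_num)] at ht
    exact abs_of_nonneg (by nlinarith [ht.1, ht.2])
  rw [e, intervalIntegral.integral_sub (by simp) (by apply Continuous.intervalIntegrable; fun_prop), integral_pow]
  norm_num

theorem int_t_one_sub_sq : ∫ t in (-1 : ℝ)..1, |t * (1 - t ^ 2)| = 1 / 2 := by
  have hc : Continuous fun t : ℝ => |t * (1 - t ^ 2)| := by fun_prop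
  rw [← intervalIntegral.integral_add_adjacent_intervals (a := (-1 : ℝ)) (b := 0) (c := 1) (hc.intervalIntegrable _ _)
    (hc.intervalIntegrable _ _)]
  have e1 : ∫ t in (-1 : ℝ)..0, |t * (1 - t ^ 2)| = ∫ t in (-1 : ℝ)..0, (t ^ 3 - t) := by
    refine intervalIntegral.integral_congr fun t ht => ?_
    rw [Set.uIcc_of_le (by norm_num)] at ht
    show |t * (1 - t ^ 2)| = t ^ 3 - t
    rw [abs_of_nonpos (by nlinarith [ht.1, ht.2, mul_nonneg (show 0 ≤ -t by linarith [ht.2]) (show 0 ≤ 1 + t by linarith [ht.1])])]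
    ring
  have e2 : ∫ t in (0 : ℝ)..1, |t * (1 - t ^ 2)| = ∫ t in (0 : ℝ)..1, (t - t ^ 3) := by
    refine intervalIntegral.integral_congr fun t ht => ?_
    rw [Set.uIcc_of_le (by norm_num)] at ht
    show |t * (1 - t ^ 2)| = t - t ^ 3
    rw [abs_of_nonneg (mul_nonneg ht.1 (by nlinarith [ht.1, ht.2]))]
    ring
  rw [e1, e2, intervalIntegral.integral_sub (by apply Continuous.intervalIntegrable; fun_prop)
    (by apply Continuous.intervalIntegrable; fun_prop), intervalIntegral.integral_sub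
    (by apply Continuous.intervalIntegrable; fun_prop) (by apply Continuous.intervalIntegrable; fun_prop),
    integral_pow, integral_id, integral_pow, integral_id]
  norm_num

/-- **The expectation form of `crossX_mean`**: the owners of the estimates bound two expectations at one fixed `t`. -/
theorem E_crossX {Ω : Type*} [MeasurableSpace Ω] (P : Measure Ω) [IsProbabilityMeasure P] {p : X → Y}
    (hp : Function.Surjective p) {γ g w : Ω → X → ℝ} {f : Ω → Y → ℝ} (hγ : Measurable γ) (hg : Measurable g)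
    (hw : Measurable w) (hf : Measurable f) {M : ℝ} (hM : 0 ≤ M) (bγ : ∀ ω x, |γ ω x| ≤ M) (bg : ∀ ω x, |g ω x| ≤ M)
    (bf : ∀ ω y, |f ω y| ≤ M) {e1 e2 : ℝ}
    (h1 : ∀ t : ℝ, -1 ≤ t → t ≤ 1 → |∫ ω, DJ p (w ω + t • g ω) (g ω) [[γ ω], [g ω]] [f ω] ∂P| ≤ e1)
    (h2 : ∀ t : ℝ, -1 ≤ t → t ≤ 1 → |∫ ω, D2 p (w ω + t • g ω) (g ω) (γ ω) (g ω) [f ω] ∂P| ≤ e2) :
    |(∫ ω, Ac (fun a => CJ p (w ω + a • g ω) [[γ ω]] [f ω] - a / 3 * CJ p (w ω + a • g ω) [[γ ω, g ω]] [f ω]) ∂P) -
      ∫ ω, Mc (fun t => CJ p (w ω + t • g ω) [[γ ω]] [f ω]) ∂P| ≤ 1 / 3 * e1 + 1 / 24 * e2 := by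
  have bl : ∀ ω, ∀ F ∈ [f ω], ∀ y, |F y| ≤ M := fun ω F hF => by
    rw [List.mem_singleton.1 hF]
    exact bf ω
  have ml : ∀ F ∈ [f], Measurable F := fun F hF => by
    rw [List.mem_singleton.1 hF]
    exact hf
  -- the two functionals
  have c1 : ∀ ω, Continuous fun t : ℝ => DJ p (w ω + t • g ω) (g ω) [[γ ω], [g ω]] [f ω] := fun ω =>
    (continuous_DJ hp _ _ _).comp (continuous_line _ _)
  have c2 : ∀ ω, Continuous fun t : ℝ => D2 p (w ω + t • g ω) (g ω) (γ ω) (g ω) [f ω] := fun ω =>
    (continuous_D2 hp _ _ _ _).comp (continuous_line _ _)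
  have m1 : ∀ t : ℝ, Measurable fun ω => DJ p (w ω + t • g ω) (g ω) [[γ ω], [g ω]] [f ω] := fun t =>
    meas_DJ hp (meas_line hg hw t) hg [[γ], [g]] (fun a ha b hb => by
      simp only [List.mem_cons, List.not_mem_nil, or_false] at ha
      rcases ha with rfl | rfl
      · rw [List.mem_singleton.1 hb]; exact hγ
      · rw [List.mem_singleton.1 hb]; exact hg) [f] ml
  have m2 : ∀ t : ℝ, Measurable fun ω => D2 p (w ω + t • g ω) (g ω) (γ ω) (g ω) [f ω] := fun t =>
    meas_D2 hp (meas_line hg hw t) hg hγ hg [f] ml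
  have b1 : ∀ (t : ℝ) (ω : Ω), |DJ p (w ω + t • g ω) (g ω) [[γ ω], [g ω]] [f ω]| ≤
      (([[γ ω], [g ω]] : List (List (X → ℝ))).length + 1) * CB 4 M := fun t ω =>
    abs_DJ_le hp hM (N := 4) _ _ (bg ω) _ _ (by simp) (fun a ha => by
      simp only [List.mem_cons, List.not_mem_nil, or_false] at ha
      rcases ha with rfl | rfl
      · exact ⟨by simp, by simp, fun b hb => by rw [List.mem_singleton.1 hb]; exact bγ ω⟩
      · exact ⟨by simp, by simp, fun b hb => by rw [List.mem_singleton.1 hb]; exact bg ω⟩) (bl ω)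
  have b1' : ∀ (t : ℝ) (ω : Ω), |DJ p (w ω + t • g ω) (g ω) [[γ ω], [g ω]] [f ω]| ≤ 3 * CB 4 M := fun t ω => by
    refine (b1 t ω).trans (le_of_eq ?_)
    simp only [List.length_cons, List.length_nil]
    push_cast
    ring
  have b2 : ∀ (t : ℝ) (ω : Ω), |D2 p (w ω + t • g ω) (g ω) (γ ω) (g ω) [f ω]| ≤ 5 * CB 5 M := fun t ω =>
    abs_D2_le hp hM _ _ _ _ (bg ω) (bγ ω) (bg ω) _ (bl ω)
  have k1 := abs_int_le44 P c1 m1 b1' (c := fun t => 1 - t ^ 2) (by fun_prop) (by norm_num : (-1 : ℝ) ≤ 1) h1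
  have k2 := abs_int_le44 P c2 m2 b2 (c := fun t => t * (1 - t ^ 2)) (by fun_prop) (by norm_num : (-1 : ℝ) ≤ 1) h2
  rw [int_one_sub_sq] at k1
  rw [int_t_one_sub_sq] at k2
  -- integrability of the two remainders
  have hbd : ∀ (Ψ : ℝ → Ω → ℝ) (c : ℝ → ℝ) (K : ℝ), (∀ ω, Continuous fun t => Ψ t ω) → (∀ t, Measurable (Ψ t)) →
      (∀ t ω, |Ψ t ω| ≤ K) → Continuous c → Integrable (fun ω => ∫ t in (-1 : ℝ)..1, c t * Ψ t ω) P := by
    intro Ψ c K hc hm hK hcc
    have hu : Measurable (Function.uncurry fun (t : ℝ) (ω : Ω) => Ψ t ω) :=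
      measurable_uncurry_of_continuous_of_measurable hc hm
    have hq : Measurable fun q : Ω × ℝ => c q.2 * Ψ q.2 q.1 :=
      (hcc.measurable.comp measurable_snd).mul (hu.comp (measurable_snd.prodMk measurable_fst))
    refine Integrable.of_bound (C := (∫ t in (-1 : ℝ)..1, |c t|) * |K|) ?_ (Eventually.of_forall fun ω => ?_)
    · simp_rw [intervalIntegral.integral_of_le (show (-1 : ℝ) ≤ 1 by norm_num)]
      exact (hq.stronglyMeasurable.integral_prod_right').aestronglyMeasurable
    · rw [Real.norm_eq_abs, ← intervalIntegral.integral_mul_const]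
      refine (intervalIntegral.abs_integral_le_integral_abs (by norm_num)).trans ?_
      refine intervalIntegral.integral_mono_on (by norm_num) (Continuous.intervalIntegrable ((hcc.mul (hc ω)).abs) _ _)
        (Continuous.intervalIntegrable (by fun_prop) _ _) fun t _ => ?_
      rw [abs_mul]
      exact mul_le_mul_of_nonneg_left ((hK t ω).trans (le_abs_self _)) (abs_nonneg _)
  have i1 := hbd _ (fun t => 1 - t ^ 2) _ c1 m1 b1' (by fun_prop)
  have i2 := hbd _ (fun t => t * (1 - t ^ 2)) _ c2 m2 b2 (by fun_prop)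
  have i3 : Integrable (fun ω => Mc (fun t => CJ p (w ω + t • g ω) [[γ ω]] [f ω])) P := by
    have c3 : ∀ ω, Continuous fun t : ℝ => CJ p (w ω + t • g ω) [[γ ω]] [f ω] := fun ω =>
      (continuous_CJ hp _ _).comp (continuous_line _ _)
    have m3 : ∀ t : ℝ, Measurable fun ω => CJ p (w ω + t • g ω) [[γ ω]] [f ω] := fun t =>
      meas_CJ hp (meas_line hg hw t) [[γ]] (fun a ha b hb => by
        rw [List.mem_singleton.1 ha] at hb
        rw [List.mem_singleton.1 hb]; exact hγ) [f] ml
    have b3 : ∀ (t : ℝ) (ω : Ω), |CJ p (w ω + t • g ω) [[γ ω]] [f ω]| ≤ CB 4 M := fun t ω =>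
      abs_CJ_le hp hM (N := 4) _ _ _ (by simp) (Or.inl (by simp)) (fun a ha => by
        rw [List.mem_singleton.1 ha]
        exact ⟨by simp, by simp, fun b hb => by rw [List.mem_singleton.1 hb]; exact bγ ω⟩) (bl ω)
    have := (hbd _ (fun _ => (1 : ℝ)) _ c3 m3 b3 continuous_const).const_mul (1 / 2 : ℝ)
    simp only [one_mul] at this
    exact this
  have e : (fun ω => Ac (fun a => CJ p (w ω + a • g ω) [[γ ω]] [f ω] - a / 3 * CJ p (w ω + a • g ω) [[γ ω, g ω]] [f ω])) =
      fun ω => Mc (fun t => CJ p (w ω + t • g ω) [[γ ω]] [f ω]) +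
      (1 / 4) * (∫ t in (-1 : ℝ)..1, (1 - t ^ 2) * DJ p (w ω + t • g ω) (g ω) [[γ ω], [g ω]] [f ω]) -
      (1 / 12) * ∫ t in (-1 : ℝ)..1, t * (1 - t ^ 2) * D2 p (w ω + t • g ω) (g ω) (γ ω) (g ω) [f ω] := by
    funext ω
    exact crossX_mean hp (γ ω) (g ω) (w ω) [f ω]
  rw [e, int_three P i3 i1 i2, abs_le]
  obtain ⟨a1, a2⟩ := abs_le.1 k1
  obtain ⟨a3, a4⟩ := abs_le.1 k2
  constructor <;> linarith

end

end Pool.W7d29a1.C0
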