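import Pool.Agent.W_7d29a1_C0.TL72
import Pool.Agent.W_7d29a1_C0.EvX50

/-!
CURV0 (MP_7d29a1_pr), leaf (T): THE MICRO HYPOTHESES OF `levN72` AT THE FRAME, from the micro terms of helper50. (helper48)
-/

set_option autoImplicit false
set_option linter.unusedSectionVars false
set_option linter.unusedVariables false

namespace Pool.Agent.W_7d29a1_C0.T72

open Finset MeasureTheory Filter Topology
open Pool.Agent.W_7d29a1_C0 Pool.Agent.W_7d29a1_C0.Mod92 Pool.Agent.W_7d29a1_C0.Swap57 Pool.Agent.W_7d29a1_C0.NM82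
open Pool.Agent.W_7d29a1_C0.CutT57 Pool.Agent.W_7d29a1_C0.Base5
open Pool.Agent.W_7d29a1_F Pool.Agent.W_7d29a1_X
open Pool.Agent.W_7d29a1_H (sl)
open Pool.Agent.W_7d29a1_HS (In wd)
open Pool.Agent.W_7d29a1_HZ (wd')
open Pool.Agent.W_7d29a1_C0.H32
open Pool.Agent.W_7d29a1_C0.CrA44 (ge)
open Pool.Agent.W_7d29a1_C0.EvT50 (RpM meas_RpM micX50)
open Pool.W7d29a1.C0 Pool.W7d29a1.C0.VT31 Pool.W7d29a1.C0.T72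
open Pool.W7d29a1.C0.H7 (E0X Pok)
open Pool.W7d29a1.C0.H27 (QI pB)
open Pool.W7d29a1.C0.R43 (MxQ)

noncomputable section

variable {μ : Measure ℝ} {s : ℝ} {N : ℕ}

/-- The two micro terms of a row, from a bound for all the functions. -/
theorem gp_one72 [IsProbabilityMeasure μ] {y : ℕ} [Nonempty (Px (Pn N y))] {δ B t X : ℝ} {b0 b j m h z z' : ℕ} (hB : 0 ≤ B)
    (hb : b0 ≤ b) (hjN : j + b ≤ N) (hjm : j + b ≤ m) (hmh : m ≤ h) {f : Fam N}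
    (hmic : ∀ γ b' : Env × Finset ℕ → Px (Pn N y) → ℝ, (∀ ω S, |γ ω S| ≤ B / 2) → (∀ ω S, |b' ω S| ≤ B / 2) →
      (∀ ω, Lk 0 m (γ ω)) → (∀ ω, Lk 0 h (b' ω)) →
      ∫ ω, |fT72 (pJ 0 z') (pJ 0 z) (cC (wj μ s N (Pn N y) δ B b0 j ω t) (pJ 0 m) (gg μ s (Pn N y) δ B b0 ω j) (γ ω))
          (b' ω) (f y ω) (wj μ s N (Pn N y) δ B b0 j ω t)| ∂(Pm μ N) ≤ X) :
    |MX72 μ s N (Pn N y) δ B b0 j t z z'
      (KX72 μ s N (Pn N y) δ B b0 j t m fun ω => ge μ s N (Pn N y) δ B b0 b ω j)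
      (fun ω => gg μ s (Pn N y) δ B b0 ω j) (f y)| ≤ X ∧
    |MX72 μ s N (Pn N y) δ B b0 j t z z'
      (KX72 μ s N (Pn N y) δ B b0 j t m fun ω => gg μ s (Pn N y) δ B b0 ω j)
      (fun ω => ge μ s N (Pn N y) δ B b0 b ω j) (f y)| ≤ X := by
  have a1 : ∀ (ω : Env × Finset ℕ) (S : Px (Pn N y)), |ge μ s N (Pn N y) δ B b0 b ω j S| ≤ B / 2 := fun ω S => abs_ge72 hB ω S
  have a2 : ∀ (ω : Env × Finset ℕ) (S : Px (Pn N y)), |gg μ s (Pn N y) δ B b0 ω j S| ≤ B / 2 := fun ω S => abs_gg hB b0 ω j S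
  have a3 : ∀ (n : ℕ), j + b ≤ n → ∀ ω, Lk 0 n (ge μ s N (Pn N y) δ B b0 b ω j) := fun n hn ω => Lk_ge72 hB hb hjN hn ω
  have a4 : ∀ (n : ℕ), j + b ≤ n → ∀ ω : Env × Finset ℕ, Lk 0 n (gg μ s (Pn N y) δ B b0 ω j) := fun n hn ω =>
    Lk_gg (Q := Pn N y) δ B b0 j ω (Nat.zero_le _) (by omega)
  constructor
  · unfold MX72
    exact (abs_integral_le_integral_abs).trans (hmic _ _ a1 a2 (a3 m hjm) (a4 h (by omega)))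
  · unfold MX72
    exact (abs_integral_le_integral_abs).trans (hmic _ _ a2 a1 (a4 m hjm) (a3 h (by omega)))

/-- **THE MICRO TERMS OF ONE ROW AT THE FRAME**, in the order of the constants `β`, `δ₀`, `δ`, `δ'`. -/
theorem gpm72 [IsProbabilityMeasure μ] {c₀ C₀ : ℝ} {n₀ : ℕ} (h : In μ s c₀ C₀ n₀)
    (hQI : ∀ p : ℝ, 1 < p → ∃ C θ0 : ℝ, 0 ≤ C ∧ 0 < θ0 ∧ QI μ p C θ0) {κ εM ε K1 : ℝ} (hκ : 0 < κ) (hκ1 : κ ≤ 1)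
    (hεM : 0 < εM) (hε : 0 < ε) (hK1 : 0 ≤ K1) :
    ∃ β : ℝ, 0 < β ∧ ∃ δ₀ : ℝ, 0 < δ₀ ∧ ∀ δ : ℝ, 0 < δ → δ ≤ δ₀ → ∃ δ' : ℝ, 0 < δ' ∧ ∃ N₀ : ℕ, ∀ N : ℕ, N₀ ≤ N →
      ∀ y : ℕ, y ≤ N → |(y : ℝ) - sl μ s * N| ≤ (N : ℝ) ^ δ' * wd' μ s N →
      ∀ [Nonempty (Px (Pn N y))], ∀ B : ℝ, 0 ≤ B → B ≤ (N : ℝ) ^ β → ∀ b0 b j l0 q0 : ℕ,
      (N : ℝ) ^ κ ≤ b0 → b0 ≤ b → b0 ≤ j → ∀ M : ℝ, (N : ℝ) ^ εM ≤ M → 10 * M ≤ q0 → (q0 : ℝ) ≤ 20 * M → 3 * q0 * (l0 + 1) ≤ b0 →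
      ∀ c0 K m h z z' c cc d : ℕ, (N : ℝ) ^ κ ≤ K → j + b ≤ c0 → c0 + K ≤ m → m ≤ h → h ≤ z → z ≤ z' → z' ≤ c → c ≤ d → d ≤ N →
      ∀ (D : ℝ) (f : Fam N), 0 ≤ D → D ≤ (N : ℝ) ^ 3 → Cls59 N cc d D f → ∀ t : ℝ, |t| ≤ 1 →
      |MX72 μ s N (Pn N y) δ B b0 j t z z' (KX72 μ s N (Pn N y) δ B b0 j t m fun ω => ge μ s N (Pn N y) δ B b0 b ω j)
        (fun ω => gg μ s (Pn N y) δ B b0 ω j) (f y)| ≤ B ^ 3 / 2 * (N : ℝ) ^ ε *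
          RX72 μ s N (Pn N y) h z z' c (LR72 μ s N m b0 j l0 q0 M y) (f y) + (N : ℝ) ^ (-K1) ∧
      |MX72 μ s N (Pn N y) δ B b0 j t z z' (KX72 μ s N (Pn N y) δ B b0 j t m fun ω => gg μ s (Pn N y) δ B b0 ω j)
        (fun ω => ge μ s N (Pn N y) δ B b0 b ω j) (f y)| ≤ B ^ 3 / 2 * (N : ℝ) ^ ε *
          RX72 μ s N (Pn N y) h z z' c (LR72 μ s N m b0 j l0 q0 M y) (f y) + (N : ℝ) ^ (-K1) := by
  obtain ⟨ε', hε'd⟩ : ∃ ε' : ℝ, ε' = min ε 1 := ⟨_, rfl⟩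
  have hε' : 0 < ε' := hε'd ▸ lt_min hε one_pos
  have hε'1 : ε' ≤ 1 := hε'd ▸ min_le_right _ _
  have hε'ε : ε' ≤ ε := hε'd ▸ min_le_left _ _
  obtain ⟨K', hK'⟩ : ∃ K' : ℝ, K' = K1 + 9 := ⟨_, rfl⟩
  obtain ⟨β1, hβ1, δ₀, hδ₀, hM1⟩ := micX50 h hκ hεM
  obtain ⟨δ2, β2, hδ2, hβ2, N₂, hN₂⟩ := e0_uj72 h hQI hκ hκ1 3 hε' (show 0 ≤ K' by rw [hK']; linarith)
  refine ⟨min (min β1 β2) 1, lt_min (lt_min hβ1 hβ2) one_pos, δ₀, hδ₀, fun δ hδ hδδ => ?_⟩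
  obtain ⟨δ1, hδ1, N₁, hN₁⟩ := hM1 δ hδ hδδ ε' K' hε'.le
  refine ⟨min δ1 δ2, lt_min hδ1 hδ2, max (max N₁ N₂) 2, ?_⟩
  intro N hN y hy hyc _ B hB0 hBβ b0 b j l0 q0 hb0 hb hbj M hM hq hq' hl c0 K m h z z' c cc d hK hj hcK hm hz hzz hzc hcd hdN D f
    hD0 hD hf t ht
  have k1 : N₁ ≤ N := (le_max_left _ _).trans ((le_max_left _ _).trans hN)
  have k2 : N₂ ≤ N := (le_max_right _ _).trans ((le_max_left _ _).trans hN)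
  have k3 : 2 ≤ N := (le_max_right _ _).trans hN
  have hN1' : (1 : ℝ) ≤ N := by exact_mod_cast (show 1 ≤ N by omega)
  have hN2' : (2 : ℝ) ≤ N := by exact_mod_cast k3
  have hN0 : (0 : ℝ) < N := by linarith
  have hw0 : 0 ≤ wd' μ s N := zero_le_one.trans (le_max_left _ _)
  have hp : ∀ {x : ℝ}, min (min β1 β2) 1 ≤ x → B ≤ (N : ℝ) ^ x := fun hx => hBβ.trans (Real.rpow_le_rpow_of_exponent_le hN1' hx)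
  have hok : ∀ {x : ℝ}, min δ1 δ2 ≤ x → Pok μ s N x (Pn N y) := fun hx =>
    Or.inr ⟨y, hy, Pok.mono72 (by omega) hx hw0 hyc, rfl⟩
  have hBN : B ≤ N := (hp (min_le_right _ _)).trans (Real.rpow_one _).le
  have hD2 : 2 * D ≤ (N : ℝ) ^ K' := by
    calc 2 * D ≤ N * (N : ℝ) ^ 3 := mul_le_mul hN2' hD hD0 hN0.le
      _ = (N : ℝ) ^ (4 : ℝ) := by
          rw [show (4 : ℝ) = ((4 : ℕ) : ℝ) by norm_num, Real.rpow_natCast]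
          ring
      _ ≤ _ := Real.rpow_le_rpow_of_exponent_le hN1' (by rw [hK']; linarith)
  have hc0 : (N : ℝ) ^ κ ≤ c0 := hb0.trans (by exact_mod_cast (show b0 ≤ c0 by omega))
  have hSp : Sp72 (Pn N y) c D c0 K (f y) := sp72_of_cls hf hcd (by omega) y
  -- the error
  have herr : 4 * (B / 2) * (B / 2) * (D + 1) * (N : ℝ) ^ (1 + ε' - K') ≤ (N : ℝ) ^ (-K1) := by
    have h1 : 4 * (B / 2) * (B / 2) * (D + 1) ≤ (N : ℝ) ^ (6 : ℝ) := by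
      have h2 : B ^ 2 ≤ (N : ℝ) ^ 2 := pow_le_pow_left₀ hB0 hBN 2
      have h3 : D + 1 ≤ (N : ℝ) ^ 4 := by
        have h4 : (1 : ℝ) ≤ (N : ℝ) ^ 3 := one_le_pow₀ hN1'
        calc D + 1 ≤ (N : ℝ) ^ 3 + (N : ℝ) ^ 3 := by linarith
          _ = 2 * (N : ℝ) ^ 3 := by ring
          _ ≤ N * (N : ℝ) ^ 3 := mul_le_mul_of_nonneg_right hN2' (by positivity)
          _ = (N : ℝ) ^ 4 := by ring
      calc 4 * (B / 2) * (B / 2) * (D + 1) = B ^ 2 * (D + 1) := by ring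
        _ ≤ (N : ℝ) ^ 2 * (N : ℝ) ^ 4 := mul_le_mul h2 h3 (by linarith) (by positivity)
        _ = (N : ℝ) ^ (6 : ℝ) := by
            rw [show (6 : ℝ) = ((6 : ℕ) : ℝ) by norm_num, Real.rpow_natCast]
            ring
    have h5 : 0 ≤ (N : ℝ) ^ (1 + ε' - K') := Real.rpow_nonneg hN0.le _
    refine (mul_le_mul_of_nonneg_right h1 h5).trans ?_
    rw [← Real.rpow_add hN0]
    exact Real.rpow_le_rpow_of_exponent_le hN1' (by rw [hK']; linarith)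
  refine gp_one72 (μ := μ) (s := s) (N := N) (y := y) (δ := δ) (B := B) (t := t) (b0 := b0) (b := b) (j := j) (m := m)
    (h := h) (z := z) (z' := z') (f := f) hB0 hb (by omega) (by omega) (by omega) fun γ b' hγ hb' hγL hbL => ?_
  have hEnd : Tv48.EndOk μ s δ1 N y := Pok.mono72 (by omega) (min_le_left _ _) hw0 hyc
  have key := hN₁ N k1 y hEnd B hB0 (hp ((min_le_left _ _).trans (min_le_left _ _))) b0 j l0 q0 hb0 hbj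
    (by omega) M hM hq hq' hl c0 K m h z z' c (by omega) (by omega) (by omega) hz hzz hzc t ht
    (fun A => hN₂ N k2 _ (hok (min_le_right _ _)) c0 K hc0 hK (by omega) B hB0 (hp ((min_le_left _ _).trans (min_le_right _ _)))
      δ b0 j (by omega) t ht A) D hD0 hD2 (f y) hSp γ b' (B / 2) (B / 2) (by linarith) (by linarith) hγ hb' hγL hbL
  refine key.trans ?_
  have e1 : RX72 μ s N (Pn N y) h z z' c (LR72 μ s N m b0 j l0 q0 M y) (f y) =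
      ∫ ω, I52.ev (P3 (pJ 0 z')) (wm μ s N (Pn N y) ω)
        (chi3 h z z' c (ind72 (fun ω => RpM (wm μ s N (Pn N y) ω) (pJ 0 m) b0 j l0 q0 M) ω) (f y ω)) ∂(Pm μ N) :=
    rfl
  rw [e1]
  have e0 : 0 ≤ ∫ ω, I52.ev (P3 (pJ 0 z')) (wm μ s N (Pn N y) ω)
        (chi3 h z z' c (ind72 (fun ω => RpM (wm μ s N (Pn N y) ω) (pJ 0 m) b0 j l0 q0 M) ω) (f y ω)) ∂(Pm μ N) :=
    integral_nonneg fun ω => I52.ev_nonneg _ _ fun x => chi3_nonneg (fun S => ind72_nonneg _ ω S) _ x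
  refine add_le_add ?_ herr
  have e2 : (N : ℝ) ^ ε' ≤ (N : ℝ) ^ ε := Real.rpow_le_rpow_of_exponent_le hN1' hε'ε
  have e3 : 2 * (B / 2) * (B / 2) * B * (N : ℝ) ^ ε' ≤ B ^ 3 / 2 * (N : ℝ) ^ ε := by
    have e4 : 2 * (B / 2) * (B / 2) * B = B ^ 3 / 2 := by ring
    rw [e4]
    exact mul_le_mul_of_nonneg_left e2 (by positivity)
  exact mul_le_mul_of_nonneg_right e3 e0

/-- **THE MICRO HYPOTHESES OF `levN72`**: `gpm72` at the rows `a0 + 1 + m` of the slab. -/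
theorem gp72 [IsProbabilityMeasure μ] {c₀ C₀ : ℝ} {n₀ : ℕ} (h : In μ s c₀ C₀ n₀)
    (hQI : ∀ p : ℝ, 1 < p → ∃ C θ0 : ℝ, 0 ≤ C ∧ 0 < θ0 ∧ QI μ p C θ0) {κ εM ε K1 : ℝ} (hκ : 0 < κ) (hκ1 : κ ≤ 1)
    (hεM : 0 < εM) (hε : 0 < ε) (hK1 : 0 ≤ K1) :
    ∃ β : ℝ, 0 < β ∧ ∃ δ₀ : ℝ, 0 < δ₀ ∧ ∀ δ : ℝ, 0 < δ → δ ≤ δ₀ → ∃ δ' : ℝ, 0 < δ' ∧ ∃ N₀ : ℕ, ∀ N : ℕ, N₀ ≤ N →
      ∀ y : ℕ, y ≤ N → |(y : ℝ) - sl μ s * N| ≤ (N : ℝ) ^ δ' * wd' μ s N →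
      ∀ [Nonempty (Px (Pn N y))], ∀ B : ℝ, 0 ≤ B → B ≤ (N : ℝ) ^ β → ∀ b0 b j l0 q0 c0 K a0 n m z z' c cc d : ℕ,
      (N : ℝ) ^ κ ≤ b0 → b0 ≤ b → b0 ≤ j → (N : ℝ) ^ κ ≤ K → j + b ≤ c0 → c0 + K ≤ a0 → m < n → a0 + n ≤ z → z ≤ z' →
      z' ≤ c → c ≤ d → d ≤ N → ∀ M : ℝ, (N : ℝ) ^ εM ≤ M → 10 * M ≤ q0 → (q0 : ℝ) ≤ 20 * M → 3 * q0 * (l0 + 1) ≤ b0 →
      ∀ (D : ℝ) (f : Fam N), 0 ≤ D → D ≤ (N : ℝ) ^ 3 → Cls59 N cc d D f → ∀ t : ℝ, |t| ≤ 1 →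
      |MX72 μ s N (Pn N y) δ B b0 j t z z' (KX72 μ s N (Pn N y) δ B b0 j t (a0 + 1 + m) fun ω => ge μ s N (Pn N y) δ B b0 b ω j)
        (fun ω => gg μ s (Pn N y) δ B b0 ω j) (f y)| ≤ B ^ 3 / 2 * (N : ℝ) ^ ε *
          RX72 μ s N (Pn N y) (a0 + n) z z' c (LR72 μ s N (a0 + 1 + m) b0 j l0 q0 M y) (f y) + (N : ℝ) ^ (-K1) ∧
      |MX72 μ s N (Pn N y) δ B b0 j t z z' (KX72 μ s N (Pn N y) δ B b0 j t (a0 + 1 + m) fun ω => gg μ s (Pn N y) δ B b0 ω j)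
        (fun ω => ge μ s N (Pn N y) δ B b0 b ω j) (f y)| ≤ B ^ 3 / 2 * (N : ℝ) ^ ε *
          RX72 μ s N (Pn N y) (a0 + n) z z' c (LR72 μ s N (a0 + 1 + m) b0 j l0 q0 M y) (f y) + (N : ℝ) ^ (-K1) := by
  obtain ⟨β, hβ, δ₀, hδ₀, hT⟩ := gpm72 h hQI hκ hκ1 hεM hε hK1
  refine ⟨β, hβ, δ₀, hδ₀, fun δ hδ hδδ => ?_⟩
  obtain ⟨δ', hδ', N₀, hN₀⟩ := hT δ hδ hδδ
  refine ⟨δ', hδ', N₀, ?_⟩
  intro N hN y hy hyc _ B hB0 hBβ b0 b j l0 q0 c0 K a0 n m z z' c cc d hb0 hb hbj hK hj hcK hm hz hzz hzc hcd hdN M hM hq hq' hl D f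
    hD0 hD hf t ht
  exact hN₀ N hN y hy hyc B hB0 hBβ b0 b j l0 q0 hb0 hb hbj M hM hq hq' hl c0 K (a0 + 1 + m) (a0 + n) z z' c cc d hK hj
    (by omega) (by omega) hz hzz hzc hcd hdN D f hD0 hD hf t ht

/-- The Prop `MicG57` of helper57, literally. -/
theorem micG48 [IsProbabilityMeasure μ] {c₀ C₀ : ℝ} {n₀ : ℕ} (h : In μ s c₀ C₀ n₀)
    (hQI : ∀ p : ℝ, 1 < p → ∃ C θ0 : ℝ, 0 ≤ C ∧ 0 < θ0 ∧ QI μ p C θ0) :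
    ∀ κ εM ε K1 : ℝ, 0 < κ → κ ≤ 1 → 0 < εM → 0 < ε → 0 ≤ K1 → ∃ β γ₀ : ℝ, 0 < β ∧ 0 < γ₀ ∧
  ∀ γ : ℝ, 0 < γ → γ ≤ γ₀ → ∃ δ' : ℝ, 0 < δ' ∧ ∃ N₀ : ℕ, ∀ N : ℕ, N₀ ≤ N → ∀ y : ℕ, y ≤ N →
  |(y : ℝ) - sl μ s * N| ≤ (N : ℝ) ^ δ' * wd' μ s N → ∀ [Nonempty (Px (Pn N y))], ∀ B : ℝ, 1 ≤ B → B ≤ (N : ℝ) ^ β →
  ∀ b0 b j l q : ℕ, (N : ℝ) ^ κ ≤ b0 → b0 ≤ b → b ≤ j → ∀ M : ℝ, (N : ℝ) ^ εM ≤ M → 10 * M ≤ q → (q : ℝ) ≤ 20 * M →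
  3 * q * (l + 1) ≤ b0 → ∀ c0 K m h z z' c cc d : ℕ, (N : ℝ) ^ κ ≤ c0 → (N : ℝ) ^ κ ≤ K → j + b ≤ c0 → c0 + K ≤ m → m ≤ h →
  h ≤ z → z ≤ z' → z' ≤ c → c ≤ d → d ≤ N → ∀ (D : ℝ) (f : Fam N), 0 ≤ D → D ≤ (N : ℝ) ^ 3 → Cls59 N cc d D f → ∀ t : ℝ, |t| ≤ 1 →
  |MX72 μ s N (Pn N y) γ B b0 j t z z' (KX72 μ s N (Pn N y) γ B b0 j t m fun ω => ge μ s N (Pn N y) γ B b0 b ω j)
    (fun ω => gg μ s (Pn N y) γ B b0 ω j) (f y)| ≤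
      B ^ 3 * (N : ℝ) ^ ε * RX72 μ s N (Pn N y) h z z' c (LR72 μ s N m b0 j l q M y) (f y) + (N : ℝ) ^ (-K1) ∧
  |MX72 μ s N (Pn N y) γ B b0 j t z z' (KX72 μ s N (Pn N y) γ B b0 j t m fun ω => gg μ s (Pn N y) γ B b0 ω j)
    (fun ω => ge μ s N (Pn N y) γ B b0 b ω j) (f y)| ≤
      B ^ 3 * (N : ℝ) ^ ε * RX72 μ s N (Pn N y) h z z' c (LR72 μ s N m b0 j l q M y) (f y) + (N : ℝ) ^ (-K1) := by
  intro κ εM ε K1 hκ hκ1 hεM hε hK1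
  obtain ⟨β, hβ, δ₀, hδ₀, hT⟩ := gpm72 h hQI hκ hκ1 hεM hε hK1
  refine ⟨β, δ₀, hβ, hδ₀, fun δ hδ hδδ => ?_⟩
  obtain ⟨δ', hδ', N₀, hN₀⟩ := hT δ hδ hδδ
  refine ⟨δ', hδ', N₀, ?_⟩
  intro N hN y hy hyc _ B hB1 hBβ b0 b j l0 q0 hb0 hb hbj M hM hq hq' hl c0 K m h z z' c cc d hc0 hK hj hcK hm hz hzz hzc hcd hdN D f
    hD0 hD hf t ht
  have hB0 : 0 ≤ B := by linarith
  obtain ⟨q1, q2⟩ := hN₀ N hN y hy hyc B hB0 hBβ b0 b j l0 q0 hb0 hb (hb.trans hbj) M hM hq hq' hl c0 K m h z z' c cc d hK hj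
    hcK hm hz hzz hzc hcd hdN D f hD0 hD hf t ht
  have e0 : 0 ≤ RX72 μ s N (Pn N y) h z z' c (LR72 μ s N m b0 j l0 q0 M y) (f y) :=
    integral_nonneg fun ω => I52.ev_nonneg _ _ fun x => chi3_nonneg (fun S => LR72_nonneg _ _ _ _ _ _ _ ω S) _ x
  have e1 : B ^ 3 / 2 * (N : ℝ) ^ ε * RX72 μ s N (Pn N y) h z z' c (LR72 μ s N m b0 j l0 q0 M y) (f y) ≤
      B ^ 3 * (N : ℝ) ^ ε * RX72 μ s N (Pn N y) h z z' c (LR72 μ s N m b0 j l0 q0 M y) (f y) := by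
    refine mul_le_mul_of_nonneg_right (mul_le_mul_of_nonneg_right ?_ (Real.rpow_nonneg (Nat.cast_nonneg _) _)) e0
    have : 0 ≤ B ^ 3 := by positivity
    linarith
  exact ⟨q1.trans (by linarith only [e1]), q2.trans (by linarith only [e1])⟩

end

end Pool.Agent.W_7d29a1_C0.T72
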