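import Pool.Agent.W_7d29a1_C0.TNm57
import Pool.Agent.W_7d29a1_C0.GP72

/-!
MP_7d29a1_pr, [CURV0], leaf (T): the Prop `MicG57` of helper57 (micro hypotheses of `levN72`), from `GP72`. (helper48)
-/

set_option autoImplicit false

namespace Pool.Agent.W_7d29a1_C0.TN57

open MeasureTheory Pool.Agent.W_7d29a1_F

/-- **`MicG57` HOLDS.** -/
theorem micG57 {μ : Measure ℝ} {s : ℝ} [IsProbabilityMeasure μ] {c₀ C₀ : ℝ} {n₀ : ℕ} (h : Pool.Agent.W_7d29a1_HS.In μ s c₀ C₀ n₀)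
    (hQI : ∀ p : ℝ, 1 < p → ∃ C θ0 : ℝ, 0 ≤ C ∧ 0 < θ0 ∧ Pool.W7d29a1.C0.H27.QI μ p C θ0) : MicG57 μ s :=
  Pool.Agent.W_7d29a1_C0.T72.micG48 h hQI

end Pool.Agent.W_7d29a1_C0.TN57
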