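import Pool.Agent.W_7d29a1_C0.E4T32
import Pool.Agent.W_7d29a1_C0.Ins52B

/-!
MP_7d29a1_pr, [C0], GS4 (helper65): THE PLAN OF `G[V_j V_k]`, a star with five replicas.

`starP p`: a free base path (the last index) and replicas drawn given what `p i` sees of the base path; `ev_starP` is its product
formula. `UU` is the pathwise functional with `HB = cE (pJ c1 d1) UU` (`HB_eq`, the swap inside of the block `B` with the spectator
`cE (pJ c2 d2) g`), `gm_HB_mul`: for two blocks with disjoint rows `G[HB_j HB_k] = G[UU_j UU_k]`, which is the value of the plan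
`gsP` with the integrand `gsPsi` at EVERY weight of the swap class (`ev_gsP`).
-/

set_option autoImplicit false
set_option linter.unusedSectionVars false

namespace Pool.Agent.W_7d29a1_C0.GS65

open Finset MeasureTheory Pool.Agent.W_7d29a1_F Pool.Agent.W_7d29a1_X Pool.Agent.W_7d29a1_C0.Mod92
open Pool.Agent.W_7d29a1_C0.Swap57 Pool.Agent.W_7d29a1_C0.E4T32
open Pool.W7d29a1.C0 (gz gm lse gz_pos gz_ne gm_nonneg gm_mono)
open Pool.W7d29a1.C0.VT31
open Pool.W7d29a1.C0.I52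

noncomputable section

/-! ### Stars -/

section Star

variable {X : Type*} [Fintype X] [DecidableEq X] [Nonempty X] {Y : Type*} [DecidableEq Y]

/-- The star: the base path is free (last index), the replica `i` is drawn given what `p i` sees of the base path. -/
def starP : {m : ℕ} → (Fin m → X → Y) → Plan X (m + 1)
  | 0, _ => (Plan.nil : Plan X 0).fr
  | m + 1, p => (starP fun i => p i.succ).gi (p 0) (Fin.last m)

theorem ev_fr {m : ℕ} (P : Plan X m) (w : X → ℝ) (Ψ : (Fin (m + 1) → X) → ℝ) :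
    ev P.fr w Ψ = ev P w fun x => gm w fun s => Ψ (Fin.cons s x) := by
  unfold Plan.fr
  rw [ev_cons]
  refine ev_congr P w fun x => ?_
  rw [gm_eq_av]

theorem ev_gi {m : ℕ} (P : Plan X m) (p : X → Y) (i : Fin m) (w : X → ℝ) (Ψ : (Fin (m + 1) → X) → ℝ) :
    ev (P.gi p i) w Ψ = ev P w fun x => cE w p (fun s => Ψ (Fin.cons s x)) (x i) := by
  unfold Plan.gi
  rw [ev_cons]
  refine ev_congr P w fun x => ?_
  rw [cE_eq_av]

theorem cE_mul_const (w : X → ℝ) (p : X → Y) (f : X → ℝ) (c : ℝ) (x : X) : cE w p (fun s => f s * c) x = cE w p f x * c := by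
  have h := congrFun (cE_smul w p c f) x
  have e : (c • f) = fun s => f s * c := by
    funext s
    rw [Pi.smul_apply, smul_eq_mul, mul_comm]
  rw [e] at h
  rw [h, Pi.smul_apply, smul_eq_mul, mul_comm]

/-- **The product formula of the star.** -/
theorem ev_starP : {m : ℕ} → (p : Fin m → X → Y) → (w : X → ℝ) → (φ : X → ℝ) → (ψ : Fin m → X → X → ℝ) →
    ev (starP p) w (fun x => (∏ i, ψ i (x (Fin.last m)) (x i.castSucc)) * φ (x (Fin.last m))) =
      gm w fun x => (∏ i, cE w (p i) (ψ i x) x) * φ x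
  | 0, p, w, φ, ψ => by
    show ev (Plan.nil : Plan X 0).fr w _ = _
    rw [ev_fr, ev_nil]
    congr 1
  | m + 1, p, w, φ, ψ => by
    show ev ((starP fun i => p i.succ).gi (p 0) (Fin.last m)) w _ = _
    rw [ev_gi]
    have e1 : ∀ x : Fin (m + 1) → X, cE w (p 0) (fun s => (∏ i : Fin (m + 1), ψ i ((Fin.cons s x : Fin (m + 2) → X)
        (Fin.last (m + 1))) ((Fin.cons s x : Fin (m + 2) → X) i.castSucc)) * φ ((Fin.cons s x : Fin (m + 2) → X) (Fin.last (m + 1))))
        (x (Fin.last m)) =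
        (∏ i : Fin m, ψ i.succ (x (Fin.last m)) (x i.castSucc)) *
          (cE w (p 0) (ψ 0 (x (Fin.last m))) (x (Fin.last m)) * φ (x (Fin.last m))) := by
      intro x
      have e2 : ∀ s : X, (∏ i : Fin (m + 1), ψ i ((Fin.cons s x : Fin (m + 2) → X) (Fin.last (m + 1)))
          ((Fin.cons s x : Fin (m + 2) → X) i.castSucc)) * φ ((Fin.cons s x : Fin (m + 2) → X) (Fin.last (m + 1))) =
          ψ 0 (x (Fin.last m)) s * ((∏ i : Fin m, ψ i.succ (x (Fin.last m)) (x i.castSucc)) * φ (x (Fin.last m))) := by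
        intro s
        have e3 : (Fin.cons s x : Fin (m + 2) → X) (Fin.last (m + 1)) = x (Fin.last m) := by
          rw [← Fin.succ_last, Fin.cons_succ]
        rw [e3, Fin.prod_univ_succ]
        have e4 : (Fin.cons s x : Fin (m + 2) → X) (Fin.castSucc 0) = s := rfl
        rw [e4]
        have e5 : ∀ i : Fin m, (Fin.cons s x : Fin (m + 2) → X) i.succ.castSucc = x i.castSucc := fun i => by
          rw [← Fin.succ_castSucc, Fin.cons_succ]
        rw [prod_congr rfl fun i _ => by rw [e5 i]]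
        ring
      rw [show (fun s => (∏ i : Fin (m + 1), ψ i ((Fin.cons s x : Fin (m + 2) → X) (Fin.last (m + 1)))
          ((Fin.cons s x : Fin (m + 2) → X) i.castSucc)) * φ ((Fin.cons s x : Fin (m + 2) → X) (Fin.last (m + 1)))) =
          fun s => ψ 0 (x (Fin.last m)) s * ((∏ i : Fin m, ψ i.succ (x (Fin.last m)) (x i.castSucc)) * φ (x (Fin.last m)))
          from funext e2, cE_mul_const]
      ring
    rw [ev_congr _ w e1, ev_starP (fun i => p i.succ) w (fun x => cE w (p 0) (ψ 0 x) x * φ x) fun i => ψ i.succ]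
    congr 1
    funext x
    rw [Fin.prod_univ_succ]
    ring

/-- The set of a replica of the star. -/
theorem S_starP_cast : {m : ℕ} → (p : Fin m → X → Y) → (i : Fin m) → (x : Fin (m + 1) → X) →
    (starP p).S i.castSucc x = univ.filter fun s => p i s = p i (x (Fin.last m))
  | 0, _, i, _ => i.elim0
  | m + 1, p, i, x => by
    refine Fin.cases ?_ (fun j => ?_) i
    · show ((starP fun i => p i.succ).gi (p 0) (Fin.last m)).S 0 x = _
      unfold Plan.gi
      rw [S_cons_zero]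
      show (univ.filter fun s => p 0 s = p 0 (x (Fin.last m).succ)) = _
      rw [Fin.succ_last]
    · show ((starP fun i => p i.succ).gi (p 0) (Fin.last m)).S j.castSucc.succ x = _
      unfold Plan.gi
      rw [S_cons_succ, S_starP_cast (fun i => p i.succ) j (Fin.tail x)]
      show (univ.filter fun s => p j.succ s = p j.succ (x (Fin.last m).succ)) = _
      rw [Fin.succ_last]

/-- The set of the base path. -/
theorem S_starP_last : {m : ℕ} → (p : Fin m → X → Y) → (x : Fin (m + 1) → X) → (starP p).S (Fin.last m) x = univ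
  | 0, _, _ => rfl
  | m + 1, p, x => by
    show ((starP fun i => p i.succ).gi (p 0) (Fin.last m)).S (Fin.last m).succ x = _
    unfold Plan.gi
    rw [S_cons_succ]
    exact S_starP_last _ _

theorem av_fib (w : X → ℝ) (p : X → Y) (f : X → ℝ) (x : X) : av w (univ.filter fun s => p s = p x) f = cE w p f x :=
  (cE_eq_av w p f x).symm

/-- The star with the shadow of a replica. -/
theorem ev_sh_cast {m : ℕ} (p : Fin m → X → Y) (l : Fin m) (w : X → ℝ) (Φ : (Fin (m + 1) → X) → ℝ) (R : X → X → ℝ) :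
    ev ((starP p).sh l.castSucc) w (fun x => Φ (Fin.tail x) * R (Fin.tail x (Fin.last m)) (x 0)) =
      ev (starP p) w fun x => Φ x * cE w (p l) (R (x (Fin.last m))) (x (Fin.last m)) := by
  unfold Plan.sh
  rw [ev_cons]
  refine ev_congr _ w fun x => ?_
  rw [S_starP_cast]
  simp only [Fin.tail_cons, Fin.cons_zero]
  rw [av_smul, av_fib]

/-- The star with the shadow of the base path. -/
theorem ev_sh_last {m : ℕ} (p : Fin m → X → Y) (w : X → ℝ) (Φ : (Fin (m + 1) → X) → ℝ) (R : X → X → ℝ) :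
    ev ((starP p).sh (Fin.last m)) w (fun x => Φ (Fin.tail x) * R (Fin.tail x (Fin.last m)) (x 0)) =
      ev (starP p) w fun x => Φ x * gm w (R (x (Fin.last m))) := by
  unfold Plan.sh
  rw [ev_cons]
  refine ev_congr _ w fun x => ?_
  rw [S_starP_last]
  simp only [Fin.tail_cons, Fin.cons_zero]
  rw [av_smul, gm_eq_av]

end Star

/-! ### The swap with a spectator -/

variable {μ : Measure ℝ} {s : ℝ} {N : ℕ} {Q : Finset (Finset ℕ)} [SwQ Q] [Nonempty (Px Q)]

/-- The swap identity inside of a smaller block, with a spectator. -/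
theorem cE2_Mt_zeroH {c1 d1 c al be d : ℕ} (hc : c1 ≤ c) (hd : d ≤ d1) (hab : al ≤ be) {w : Px Q → ℝ} (hw : Wk c al be d w)
    {g : Px Q → ℝ} (hg : Lk al be g) (H : Px Q → Px Q → ℝ)
    (hH : ∀ S S', Swap57.Mt c al be d S S' → H (sw c d S S') (sw c d S' S) = H S S') (S0 S0' : Px Q) :
    cE2 w (pJ c1 d1) (fun S S' => (1 - NM c al be d S S') * (H S S' * (g S - g S'))) S0 S0' = 0 := by
  classical
  have hk : ∀ {S S' : Px Q}, Swap57.Mt c al be d S S' → pJ c1 d1 (sw c d S S') = pJ c1 d1 S := fun hm =>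
    crs_pJ hc hd _ _ (pJ_sw hab hm)
  have h := swap_zero hab hw hg
    (fun S S' => (if pJ c1 d1 S = pJ c1 d1 S0 then (if pJ c1 d1 S' = pJ c1 d1 S0' then (1 : ℝ) else 0) else 0) * H S S')
    (fun S S' hm => by
      show (if pJ c1 d1 (sw c d S S') = pJ c1 d1 S0 then (if pJ c1 d1 (sw c d S' S) = pJ c1 d1 S0' then (1 : ℝ) else 0) else 0) *
        H (sw c d S S') (sw c d S' S) = _
      rw [hk hm, hk (show Swap57.Mt c al be d S' S by rw [Mt_symm]; exact hm), hH S S' hm])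
  have e1 : cE2 w (pJ c1 d1) (fun S S' => (1 - NM c al be d S S') * (H S S' * (g S - g S'))) S0 S0' =
      (∑ S, ∑ S', (if Swap57.Mt c al be d S S' then Real.exp (w S) * Real.exp (w S') *
        ((if pJ c1 d1 S = pJ c1 d1 S0 then (if pJ c1 d1 S' = pJ c1 d1 S0' then (1 : ℝ) else 0) else 0) * H S S') * (g S - g S')
        else 0)) / (fz w (pJ c1 d1) S0 * fz w (pJ c1 d1) S0') := by
    unfold cE2 cE
    rw [eq_comm, mul_comm (fz w (pJ c1 d1) S0), ← div_div, sum_div]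
    congr 1
    refine sum_congr rfl fun S _ => ?_
    split_ifs with h1
    · rw [← mul_div_assoc, mul_sum]
      congr 1
      refine sum_congr rfl fun S' _ => ?_
      beta_reduce
      by_cases hm : Swap57.Mt c al be d S S'
      · rw [NM_of hm, if_pos hm]
        split_ifs <;> ring
      · rw [NM_of_not hm, if_neg hm]
        split_ifs <;> ring
    · rw [div_eq_zero_iff]
      left
      refine sum_eq_zero fun S' _ => ?_
      split_ifs <;> ring
  rw [e1, h, zero_div]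

/-! ### One row -/

/-- The difference of `g` at the base path and at a replica given the outside of `[c1, d1)`, without common position on both sides
of the window inside of `[c2, d2)`. -/
def DD (w : Px Q → ℝ) (c1 d1 c2 d2 al be : ℕ) (g : Px Q → ℝ) (x : Px Q) : ℝ :=
  cE w (pJ c1 d1) (fun y => NM c2 al be d2 x y * (g x - g y)) x

/-- The pathwise functional of one row. -/
def UU (w : Px Q → ℝ) (c1 d1 c2 d2 al be : ℕ) (g : Px Q → ℝ) (x : Px Q) : ℝ :=
  cE w (pJ c2 d2) g x * DD w c1 d1 c2 d2 al be g x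

variable {c1 d1 c2 d2 al be : ℕ} {w : Px Q → ℝ} {g : Px Q → ℝ}

omit [SwQ Q] in
theorem cE_UU (x0 : Px Q) : cE w (pJ c1 d1) (UU w c1 d1 c2 d2 al be g) x0 =
    cE2 w (pJ c1 d1) (fun x y => NM c2 al be d2 x y * (cE w (pJ c2 d2) g x * (g x - g y))) x0 x0 := by
  unfold cE2
  refine cE_congr_fib fun x hx => ?_
  unfold UU DD
  have e1 : cE w (pJ c1 d1) (fun y => NM c2 al be d2 x y * (g x - g y)) x =
      cE w (pJ c1 d1) (fun y => NM c2 al be d2 x y * (g x - g y)) x0 := cE_meas w (pJ c1 d1) _ x x0 hx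
  rw [e1, mul_comm, ← cE_mul_const]
  congr 1
  funext y
  ring

/-- **One row**: the conditional variance is the conditional mean of `UU`. -/
theorem HB_eq (h1 : c1 ≤ c2) (h3 : d2 ≤ d1) (hab : al ≤ be) (hw : Wk c2 al be d2 w) (hg : Lk al be g) :
    HB w c1 d1 c2 d2 g = cE w (pJ c1 d1) (UU w c1 d1 c2 d2 al be g) := by
  funext x0
  set F : Px Q → ℝ := cE w (pJ c2 d2) g with hF
  have hFm : Mp (pJ c2 d2) F := cE_meas w _ g
  rw [cE_UU]
  -- the swap
  have k1 := cE2_Mt_zeroH h1 h3 hab hw hg (fun S _ => F S) (fun S S' hm => hFm _ _ (pJ_sw hab hm)) x0 x0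
  have k2 : cE2 w (pJ c1 d1) (fun x y => NM c2 al be d2 x y * (F x * (g x - g y))) x0 x0 =
      cE2 w (pJ c1 d1) (fun x y => F x * (g x - g y)) x0 x0 := by
    have e : cE2 w (pJ c1 d1) (fun x y => F x * (g x - g y)) x0 x0 =
        cE2 w (pJ c1 d1) (fun x y => NM c2 al be d2 x y * (F x * (g x - g y))) x0 x0 +
          cE2 w (pJ c1 d1) (fun x y => (1 - NM c2 al be d2 x y) * (F x * (g x - g y))) x0 x0 := by
      rw [← cE2_add]
      exact cE2_congr w _ (fun S S' => by ring) _ _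
    rw [e, k1, add_zero]
  rw [k2]
  -- the algebra
  have t1 : cE w (pJ c1 d1) (F * F) = cE w (pJ c1 d1) (F * g) := by
    rw [show F * F = cE w (pJ c2 d2) (F * g) by rw [cE_pull w hFm g], cE_tower w (crs_pJ h1 h3)]
  have t2 : cE w (pJ c1 d1) F = cE w (pJ c1 d1) g := by
    rw [hF, cE_tower w (crs_pJ h1 h3)]
  have t3 : cE2 w (pJ c1 d1) (fun x y => F x * (g x - g y)) x0 x0 =
      cE w (pJ c1 d1) (F * g) x0 - cE w (pJ c1 d1) F x0 * cE w (pJ c1 d1) g x0 := by
    unfold cE2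
    have e2 : ∀ x, cE w (pJ c1 d1) (fun y => F x * (g x - g y)) x0 = F x * g x - F x * cE w (pJ c1 d1) g x0 := by
      intro x
      have a1 : (fun y => F x * (g x - g y)) = (fun _ => F x * g x) - (F x) • g := by
        funext y
        simp only [Pi.sub_apply, Pi.smul_apply, smul_eq_mul]
        ring
      rw [a1, cE_sub, Pi.sub_apply, cE_smul, Pi.smul_apply, smul_eq_mul,
        cE_of_meas w (show Mp (pJ c1 d1) (fun _ : Px Q => F x * g x) from fun _ _ _ => rfl)]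
    rw [funext e2]
    have a2 : (fun x => F x * g x - F x * cE w (pJ c1 d1) g x0) = F * g - (cE w (pJ c1 d1) g x0) • F := by
      funext x
      simp only [Pi.sub_apply, Pi.mul_apply, Pi.smul_apply, smul_eq_mul]
      ring
    rw [a2, cE_sub, Pi.sub_apply, cE_smul, Pi.smul_apply, smul_eq_mul]
    ring
  rw [t3]
  show cE w (pJ c1 d1) (F * F) x0 - cE w (pJ c1 d1) F x0 * cE w (pJ c1 d1) F x0 = _
  rw [t1, t2]

/-! ### Two rows -/

omit [SwQ Q] [Nonempty (Px Q)] in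
/-- A functional of the rows `[a, b]` does not look inside of a block with other rows. -/
theorem Lk_Mp {a b c d : ℕ} (h : b ≤ c ∨ d ≤ a) {f : Px Q → ℝ} (hf : Lk a b f) : Mp (pJ c d) f := by
  intro S S' e
  refine hf S S' fun i hi hi' => ?_
  rcases h with h | h
  · exact ps_of_le e (hi'.trans h)
  · exact ps_of_ge e (h.trans hi)

omit [SwQ Q] [Nonempty (Px Q)] in
theorem NM_Lk {c d c' d' : ℕ} (h1 : c ≤ c') (h2 : d' ≤ d) (h3 : c' ≤ al) (h4 : be ≤ d') (h5 : al ≤ be) (y : Px Q) :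
    Lk c d fun x : Px Q => NM c' al be d' x y := by
  intro S T h
  have e : Swap57.Mt c' al be d' S y = Swap57.Mt c' al be d' T y := by
    unfold Swap57.Mt Eqp
    refine congrArg₂ And ?_ ?_
    · refine congrArg Exists (funext fun i => propext ⟨fun h6 => ⟨h6.1, h6.2.1, ?_⟩, fun h6 => ⟨h6.1, h6.2.1, ?_⟩⟩)
      · rw [← h i (by omega) (by omega)]
        exact h6.2.2
      · rw [h i (by omega) (by omega)]
        exact h6.2.2
    · refine congrArg Exists (funext fun i => propext ⟨fun h6 => ⟨h6.1, h6.2.1, ?_⟩, fun h6 => ⟨h6.1, h6.2.1, ?_⟩⟩)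
      · rw [← h i (by omega) (by omega)]
        exact h6.2.2
      · rw [h i (by omega) (by omega)]
        exact h6.2.2
  show NM c' al be d' S y = NM c' al be d' T y
  by_cases hm : Swap57.Mt c' al be d' T y
  · rw [NM_of hm, NM_of (show Swap57.Mt c' al be d' S y by rw [e]; exact hm)]
  · rw [NM_of_not hm, NM_of_not (show ¬Swap57.Mt c' al be d' S y by rw [e]; exact hm)]

theorem DD_Lk (h1 : c1 ≤ c2) (h2 : c2 ≤ al) (hab : al ≤ be) (h2' : be ≤ d2) (h3 : d2 ≤ d1) (hw1 : Wk c1 c1 d1 d1 w)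
    (hg : Lk al be g) : Lk c1 d1 (DD w c1 d1 c2 d2 al be g) := by
  have hc : c1 ≤ d1 := h1.trans (h2.trans (hab.trans (h2'.trans h3)))
  intro S S' h
  unfold DD
  have e1 : (fun y => NM c2 al be d2 S y * (g S - g y)) = fun y => NM c2 al be d2 S' y * (g S' - g y) := by
    funext y
    have a0 : NM c2 al be d2 S y = NM c2 al be d2 S' y := NM_Lk h1 h3 h2 h2' hab y S S' h
    rw [a0, Lk_mono (h1.trans h2) (h2'.trans h3) hg S S' h]
  rw [e1]
  have hK : Lk c1 d1 fun y => NM c2 al be d2 S' y * (g S' - g y) := by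
    intro T T' hT
    have a1 : NM c2 al be d2 S' T = NM c2 al be d2 S' T' := by
      rw [NM_symm, NM_symm c2 al be d2 S' T']
      exact NM_Lk h1 h3 h2 h2' hab S' T T' hT
    have a2 := Lk_mono (h1.trans h2) (h2'.trans h3) hg T T' hT
    show NM c2 al be d2 S' T * (g S' - g T) = NM c2 al be d2 S' T' * (g S' - g T')
    rw [a1, a2]
  exact Lk_cE hc hw1 hK S S' h

theorem UU_Lk (h1 : c1 ≤ c2) (h2 : c2 ≤ al) (hab : al ≤ be) (h2' : be ≤ d2) (h3 : d2 ≤ d1) (hw1 : Wk c1 c1 d1 d1 w)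
    (hw2 : Wk c2 c2 d2 d2 w) (hg : Lk al be g) : Lk c1 d1 (UU w c1 d1 c2 d2 al be g) :=
  Lk_mul (Lk_mono h1 h3 (Lk_cE (h2.trans (hab.trans h2')) hw2 (Lk_mono h2 h2' hg)))
    (DD_Lk h1 h2 hab h2' h3 hw1 hg)

/-- The swap conditions of one row (block `B' = [c1, d1)`, `B = [c2, d2)`, window `[al, be]`). -/
structure RowOk (w : Px Q → ℝ) (c1 d1 c2 d2 al be : ℕ) (g : Px Q → ℝ) : Prop where
  h1 : c1 ≤ c2
  h2 : c2 ≤ al
  hab : al ≤ be
  h2' : be ≤ d2
  h3 : d2 ≤ d1
  w1 : Wk c1 c1 d1 d1 w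
  w2 : Wk c2 c2 d2 d2 w
  w3 : Wk c2 al be d2 w
  lk : Lk al be g

variable {k1 l1 k2 l2 al' be' : ℕ} {g' : Px Q → ℝ}

/-- **Two rows in blocks with disjoint rows.** -/
theorem gm_HB_mul (h : RowOk w c1 d1 c2 d2 al be g) (h' : RowOk w k1 l1 k2 l2 al' be' g') (hd : d1 ≤ k1 ∨ l1 ≤ c1) :
    gm w (HB w c1 d1 c2 d2 g * HB w k1 l1 k2 l2 g') =
      gm w (UU w c1 d1 c2 d2 al be g * UU w k1 l1 k2 l2 al' be' g') := by
  have e1 : Mp (pJ c1 d1) (HB w k1 l1 k2 l2 g') := by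
    refine Lk_Mp ?_ (HB_Lk h'.h1 (h'.h2.trans (h'.hab.trans h'.h2')) h'.h3 h'.w1 h'.w2 (Lk_mono h'.h2 h'.h2' h'.lk))
    rcases hd with hd | hd
    · exact Or.inr hd
    · exact Or.inl hd
  have e2 : Mp (pJ k1 l1) (UU w c1 d1 c2 d2 al be g) := by
    refine Lk_Mp ?_ (UU_Lk h.h1 h.h2 h.hab h.h2' h.h3 h.w1 h.w2 h.lk)
    rcases hd with hd | hd
    · exact Or.inl hd
    · exact Or.inr hd
  calc gm w (HB w c1 d1 c2 d2 g * HB w k1 l1 k2 l2 g')
      = gm w (HB w k1 l1 k2 l2 g' * cE w (pJ c1 d1) (UU w c1 d1 c2 d2 al be g)) := by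
        rw [HB_eq h.h1 h.h3 h.hab h.w3 h.lk, mul_comm]
    _ = gm w (HB w k1 l1 k2 l2 g' * UU w c1 d1 c2 d2 al be g) := gm_mul_cE w e1 _
    _ = gm w (UU w c1 d1 c2 d2 al be g * cE w (pJ k1 l1) (UU w k1 l1 k2 l2 al' be' g')) := by
        rw [HB_eq h'.h1 h'.h3 h'.hab h'.w3 h'.lk, mul_comm]
    _ = gm w (UU w c1 d1 c2 d2 al be g * UU w k1 l1 k2 l2 al' be' g') := gm_mul_cE w e2 _

/-! ### The plan -/

/-- The plan: `0`: `z_k`, `1`: `y_k`, `2`: `z_j`, `3`: `y_j`, `4`: the base path. -/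
def gsP (Q : Finset (Finset ℕ)) [Nonempty (Px Q)] (c1 d1 c2 d2 k1 l1 k2 l2 : ℕ) : Plan (Px Q) 5 :=
  starP ![pJ k2 l2, pJ k1 l1, pJ c2 d2, pJ c1 d1]

/-- The integrand. -/
def gsPsi (c2 d2 al be k2 l2 al' be' : ℕ) (g g' : Px Q → ℝ) (x : Fin 5 → Px Q) : ℝ :=
  g' (x 0) * (NM k2 al' be' l2 (x 4) (x 1) * (g' (x 4) - g' (x 1))) *
    (g (x 2) * (NM c2 al be d2 (x 4) (x 3) * (g (x 4) - g (x 3))))

/-- **The value of the plan**, at every weight. -/
theorem ev_gsP (c1 d1 c2 d2 al be k1 l1 k2 l2 al' be' : ℕ) (w g g' : Px Q → ℝ) :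
    ev (gsP Q c1 d1 c2 d2 k1 l1 k2 l2) w (gsPsi c2 d2 al be k2 l2 al' be' g g') =
      gm w (UU w c1 d1 c2 d2 al be g * UU w k1 l1 k2 l2 al' be' g') := by
  have h := ev_starP (Y := Finset ℕ × ℕ) ![pJ k2 l2, pJ k1 l1, pJ c2 d2, pJ c1 d1] w (fun _ : Px Q => 1)
    ![fun _ z => g' z, fun x y => NM k2 al' be' l2 x y * (g' x - g' y), fun _ z => g z,
      fun x y => NM c2 al be d2 x y * (g x - g y)]
  have e1 : gsPsi c2 d2 al be k2 l2 al' be' g g' = fun x : Fin 5 → Px Q =>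
      (∏ i : Fin 4, (![fun _ z => g' z, fun x y => NM k2 al' be' l2 x y * (g' x - g' y), fun _ z => g z,
        fun x y => NM c2 al be d2 x y * (g x - g y)] : Fin 4 → Px Q → Px Q → ℝ) i (x (Fin.last 4)) (x i.castSucc)) *
        (fun _ : Px Q => (1 : ℝ)) (x (Fin.last 4)) := by
    funext x
    rw [Fin.prod_univ_four]
    show g' (x 0) * (NM k2 al' be' l2 (x 4) (x 1) * (g' (x 4) - g' (x 1))) *
      (g (x 2) * (NM c2 al be d2 (x 4) (x 3) * (g (x 4) - g (x 3)))) =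
      g' (x 0) * (NM k2 al' be' l2 (x 4) (x 1) * (g' (x 4) - g' (x 1))) * g (x 2) *
        (NM c2 al be d2 (x 4) (x 3) * (g (x 4) - g (x 3))) * 1
    ring
  rw [e1]
  refine h.trans ?_
  congr 1
  funext x
  rw [Fin.prod_univ_four]
  show cE w (pJ k2 l2) g' x * cE w (pJ k1 l1) (fun y => NM k2 al' be' l2 x y * (g' x - g' y)) x * cE w (pJ c2 d2) g x *
    cE w (pJ c1 d1) (fun y => NM c2 al be d2 x y * (g x - g y)) x * 1 =
    (cE w (pJ c2 d2) g x * DD w c1 d1 c2 d2 al be g x) * (cE w (pJ k2 l2) g' x * DD w k1 l1 k2 l2 al' be' g' x)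
  unfold DD
  ring

/-- **`G[V_j V_k]` as the value of a plan.** -/
theorem gm_HB_ev (h : RowOk w c1 d1 c2 d2 al be g) (h' : RowOk w k1 l1 k2 l2 al' be' g') (hd : d1 ≤ k1 ∨ l1 ≤ c1) :
    gm w (HB w c1 d1 c2 d2 g * HB w k1 l1 k2 l2 g') =
      ev (gsP Q c1 d1 c2 d2 k1 l1 k2 l2) w (gsPsi c2 d2 al be k2 l2 al' be' g g') := by
  rw [gm_HB_mul h h' hd, ev_gsP]

/-! ### Two rows in the same block -/

/-- The plan for two rows in the same block `[c1, d1)`: `0`: `z_k`, `1`: `y_k`, `2`: `z_j`, `3`: `y_j`, `4`: the second path `x'` given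
the outside of the block, `5`: the base path. -/
def gsS (Q : Finset (Finset ℕ)) [Nonempty (Px Q)] (c1 d1 c2 d2 k2 l2 : ℕ) : Plan (Px Q) 6 :=
  (((((Plan.nil : Plan (Px Q) 0).fr.gi (pJ c1 d1) 0).gi (pJ c1 d1) 1).gi (pJ c2 d2) 2).gi (pJ c1 d1) 2).gi (pJ k2 l2) 3

/-- The integrand. -/
def gsSPsi (c2 d2 al be k2 l2 al' be' : ℕ) (g g' : Px Q → ℝ) (x : Fin 6 → Px Q) : ℝ :=
  g' (x 0) * (NM k2 al' be' l2 (x 4) (x 1) * (g' (x 4) - g' (x 1))) *
    (g (x 2) * (NM c2 al be d2 (x 5) (x 3) * (g (x 5) - g (x 3))))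

omit [SwQ Q] in
theorem ev_gsS (c1 d1 c2 d2 al be k2 l2 al' be' : ℕ) (w g g' : Px Q → ℝ) :
    ev (gsS Q c1 d1 c2 d2 k2 l2) w (gsSPsi c2 d2 al be k2 l2 al' be' g g') =
      gm w (UU w c1 d1 c2 d2 al be g * cE w (pJ c1 d1) (UU w c1 d1 k2 l2 al' be' g')) := by
  unfold gsS
  rw [ev_gi, ev_gi, ev_gi, ev_gi, ev_gi, ev_fr, ev_nil]
  congr 1
  funext x
  have e0 : ∀ (a b c d e : Px Q), gsSPsi c2 d2 al be k2 l2 al' be' g g'
      (Fin.cons a (Fin.cons b (Fin.cons c (Fin.cons d (Fin.cons e (Fin.cons x Fin.elim0)))))) =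
      g' a * ((NM k2 al' be' l2 e b * (g' e - g' b)) * (g c * (NM c2 al be d2 x d * (g x - g d)))) := by
    intro a b c d e
    show g' a * (NM k2 al' be' l2 e b * (g' e - g' b)) * (g c * (NM c2 al be d2 x d * (g x - g d))) = _
    ring
  have e1 : ∀ (b c d e : Px Q), cE w (pJ k2 l2) (fun a => gsSPsi c2 d2 al be k2 l2 al' be' g g'
      (Fin.cons a (Fin.cons b (Fin.cons c (Fin.cons d (Fin.cons e (Fin.cons x Fin.elim0))))))) e =
      (NM k2 al' be' l2 e b * (g' e - g' b)) * ((g c * (NM c2 al be d2 x d * (g x - g d))) * cE w (pJ k2 l2) g' e) := by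
    intro b c d e
    rw [show (fun a => gsSPsi c2 d2 al be k2 l2 al' be' g g'
      (Fin.cons a (Fin.cons b (Fin.cons c (Fin.cons d (Fin.cons e (Fin.cons x Fin.elim0))))))) = fun a => g' a *
        ((NM k2 al' be' l2 e b * (g' e - g' b)) * (g c * (NM c2 al be d2 x d * (g x - g d)))) from funext fun a => e0 a b c d e,
      cE_mul_const]
    ring
  have e2 : ∀ (c d e : Px Q), cE w (pJ c1 d1) (fun b => (NM k2 al' be' l2 e b * (g' e - g' b)) *
      ((g c * (NM c2 al be d2 x d * (g x - g d))) * cE w (pJ k2 l2) g' e)) e =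
      g c * ((NM c2 al be d2 x d * (g x - g d)) * UU w c1 d1 k2 l2 al' be' g' e) := by
    intro c d e
    rw [cE_mul_const]
    unfold UU DD
    ring
  have e3 : ∀ (d e : Px Q), cE w (pJ c2 d2) (fun c => g c * ((NM c2 al be d2 x d * (g x - g d)) * UU w c1 d1 k2 l2 al' be' g' e)) x =
      (NM c2 al be d2 x d * (g x - g d)) * (UU w c1 d1 k2 l2 al' be' g' e * cE w (pJ c2 d2) g x) := by
    intro d e
    rw [cE_mul_const]
    ring
  have e4 : ∀ e : Px Q, cE w (pJ c1 d1) (fun d => (NM c2 al be d2 x d * (g x - g d)) *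
      (UU w c1 d1 k2 l2 al' be' g' e * cE w (pJ c2 d2) g x)) x =
      UU w c1 d1 k2 l2 al' be' g' e * UU w c1 d1 c2 d2 al be g x := by
    intro e
    rw [cE_mul_const]
    show DD w c1 d1 c2 d2 al be g x * _ = _
    unfold UU
    ring
  show cE w (pJ c1 d1) (fun e => cE w (pJ c1 d1) (fun d => cE w (pJ c2 d2) (fun c => cE w (pJ c1 d1) (fun b =>
    cE w (pJ k2 l2) (fun a => gsSPsi c2 d2 al be k2 l2 al' be' g g'
      (Fin.cons a (Fin.cons b (Fin.cons c (Fin.cons d (Fin.cons e (Fin.cons x Fin.elim0))))))) e) e) x) x) x = _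
  have f1 : ∀ c d e : Px Q, cE w (pJ c1 d1) (fun b =>
      cE w (pJ k2 l2) (fun a => gsSPsi c2 d2 al be k2 l2 al' be' g g'
        (Fin.cons a (Fin.cons b (Fin.cons c (Fin.cons d (Fin.cons e (Fin.cons x Fin.elim0))))))) e) e =
      g c * ((NM c2 al be d2 x d * (g x - g d)) * UU w c1 d1 k2 l2 al' be' g' e) := fun c d e => by
    rw [← e2 c d e]
    exact congrArg (fun f => cE w (pJ c1 d1) f e) (funext fun b => e1 b c d e)
  have f2 : ∀ d e : Px Q, cE w (pJ c2 d2) (fun c => cE w (pJ c1 d1) (fun b =>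
      cE w (pJ k2 l2) (fun a => gsSPsi c2 d2 al be k2 l2 al' be' g g'
        (Fin.cons a (Fin.cons b (Fin.cons c (Fin.cons d (Fin.cons e (Fin.cons x Fin.elim0))))))) e) e) x =
      (NM c2 al be d2 x d * (g x - g d)) * (UU w c1 d1 k2 l2 al' be' g' e * cE w (pJ c2 d2) g x) := fun d e => by
    rw [← e3 d e]
    exact congrArg (fun f => cE w (pJ c2 d2) f x) (funext fun c => f1 c d e)
  have f3 : ∀ e : Px Q, cE w (pJ c1 d1) (fun d => cE w (pJ c2 d2) (fun c => cE w (pJ c1 d1) (fun b =>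
      cE w (pJ k2 l2) (fun a => gsSPsi c2 d2 al be k2 l2 al' be' g g'
        (Fin.cons a (Fin.cons b (Fin.cons c (Fin.cons d (Fin.cons e (Fin.cons x Fin.elim0))))))) e) e) x) x =
      UU w c1 d1 k2 l2 al' be' g' e * UU w c1 d1 c2 d2 al be g x := fun e => by
    rw [← e4 e]
    exact congrArg (fun f => cE w (pJ c1 d1) f x) (funext fun d => f2 d e)
  have f4 := congrArg (fun f => cE w (pJ c1 d1) f x) (funext fun e => f3 e)
  refine f4.trans ?_
  show cE w (pJ c1 d1) (fun e => UU w c1 d1 k2 l2 al' be' g' e * UU w c1 d1 c2 d2 al be g x) x = _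
  rw [cE_mul_const, mul_comm]
  rfl

/-- **`G[V_j V_k]` as the value of a plan, two rows in the same block.** -/
theorem gm_HB_evS (h : RowOk w c1 d1 c2 d2 al be g) (h' : RowOk w c1 d1 k2 l2 al' be' g') :
    gm w (HB w c1 d1 c2 d2 g * HB w c1 d1 k2 l2 g') =
      ev (gsS Q c1 d1 c2 d2 k2 l2) w (gsSPsi c2 d2 al be k2 l2 al' be' g g') := by
  rw [ev_gsS, HB_eq h.h1 h.h3 h.hab h.w3 h.lk, HB_eq h'.h1 h'.h3 h'.hab h'.w3 h'.lk]
  rw [mul_comm, gm_mul_cE w (cE_meas w _ _), mul_comm]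

/-! ### Sizes -/

/-- The mass of the replicas given the outside of `B'` which do not meet the base path on both sides of the window inside of `B`. -/
def mNM (w : Px Q → ℝ) (c1 d1 c2 d2 al be : ℕ) (x : Px Q) : ℝ := cE w (pJ c1 d1) (NM c2 al be d2 x) x

omit [SwQ Q] in
theorem mNM_nonneg (x : Px Q) : 0 ≤ mNM w c1 d1 c2 d2 al be x := cE_nonneg w _ (NM_nonneg _ _ _ _ x) x

omit [SwQ Q] [Nonempty (Px Q)] in
theorem abs_gsPsi_le {M : ℝ} (hM : ∀ S, |g S| ≤ M) (hM' : ∀ S, |g' S| ≤ M) (x : Fin 5 → Px Q) :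
    |gsPsi c2 d2 al be k2 l2 al' be' g g' x| ≤ 4 * M ^ 4 * (NM k2 al' be' l2 (x 4) (x 1) * NM c2 al be d2 (x 4) (x 3)) := by
  have hM0 : 0 ≤ M := (abs_nonneg _).trans (hM (x 0))
  have hd : |g (x 4) - g (x 3)| ≤ 2 * M := (abs_sub _ _).trans (by linarith [hM (x 4), hM (x 3)])
  have hd' : |g' (x 4) - g' (x 1)| ≤ 2 * M := (abs_sub _ _).trans (by linarith [hM' (x 4), hM' (x 1)])
  have n1 := NM_nonneg k2 al' be' l2 (x 4) (x 1)
  have n2 := NM_nonneg c2 al be d2 (x 4) (x 3)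
  unfold gsPsi
  rw [abs_mul, abs_mul, abs_mul, abs_mul, abs_mul, abs_of_nonneg n1, abs_of_nonneg n2]
  calc |g' (x 0)| * (NM k2 al' be' l2 (x 4) (x 1) * |g' (x 4) - g' (x 1)|) *
        (|g (x 2)| * (NM c2 al be d2 (x 4) (x 3) * |g (x 4) - g (x 3)|))
      ≤ M * (NM k2 al' be' l2 (x 4) (x 1) * (2 * M)) * (M * (NM c2 al be d2 (x 4) (x 3) * (2 * M))) := by
        have m1 : |g' (x 0)| * (NM k2 al' be' l2 (x 4) (x 1) * |g' (x 4) - g' (x 1)|) ≤
            M * (NM k2 al' be' l2 (x 4) (x 1) * (2 * M)) :=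
          mul_le_mul (hM' _) (mul_le_mul_of_nonneg_left hd' n1) (mul_nonneg n1 (abs_nonneg _)) hM0
        have m2 : |g (x 2)| * (NM c2 al be d2 (x 4) (x 3) * |g (x 4) - g (x 3)|) ≤
            M * (NM c2 al be d2 (x 4) (x 3) * (2 * M)) :=
          mul_le_mul (hM _) (mul_le_mul_of_nonneg_left hd n2) (mul_nonneg n2 (abs_nonneg _)) hM0
        exact mul_le_mul m1 m2 (mul_nonneg (abs_nonneg _) (mul_nonneg n2 (abs_nonneg _)))
          (mul_nonneg hM0 (mul_nonneg n1 (by linarith)))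
    _ = _ := by ring

omit [SwQ Q] in
/-- **The trivial size of the plan** (for prices: `mNM` is a conditional replica given the outside of a block). -/
theorem ev_abs_gsPsi_le {M : ℝ} (hM : ∀ S, |g S| ≤ M) (hM' : ∀ S, |g' S| ≤ M) :
    ev (gsP Q c1 d1 c2 d2 k1 l1 k2 l2) w (fun x => |gsPsi c2 d2 al be k2 l2 al' be' g g' x|) ≤
      4 * M ^ 4 * gm w (mNM w c1 d1 c2 d2 al be * mNM w k1 l1 k2 l2 al' be') := by
  refine (ev_mono _ w fun x => abs_gsPsi_le hM hM' x).trans_eq ?_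
  rw [ev_smul]
  congr 1
  have h := ev_starP (Y := Finset ℕ × ℕ) ![pJ k2 l2, pJ k1 l1, pJ c2 d2, pJ c1 d1] w (fun _ : Px Q => 1)
    ![fun _ _ => 1, fun x y => NM k2 al' be' l2 x y, fun _ _ => 1, fun x y => NM c2 al be d2 x y]
  have e1 : (fun x : Fin 5 → Px Q => NM k2 al' be' l2 (x 4) (x 1) * NM c2 al be d2 (x 4) (x 3)) = fun x : Fin 5 → Px Q =>
      (∏ i : Fin 4, (![fun _ _ => 1, fun x y => NM k2 al' be' l2 x y, fun _ _ => 1, fun x y => NM c2 al be d2 x y] :
        Fin 4 → Px Q → Px Q → ℝ) i (x (Fin.last 4)) (x i.castSucc)) * (fun _ : Px Q => (1 : ℝ)) (x (Fin.last 4)) := by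
    funext x
    rw [Fin.prod_univ_four]
    show NM k2 al' be' l2 (x 4) (x 1) * NM c2 al be d2 (x 4) (x 3) =
      1 * NM k2 al' be' l2 (x 4) (x 1) * 1 * NM c2 al be d2 (x 4) (x 3) * 1
    ring
  rw [e1]
  refine h.trans ?_
  congr 1
  funext x
  rw [Fin.prod_univ_four]
  show cE w (pJ k2 l2) (fun _ => 1) x * cE w (pJ k1 l1) (fun y => NM k2 al' be' l2 x y) x * cE w (pJ c2 d2) (fun _ => 1) x *
    cE w (pJ c1 d1) (fun y => NM c2 al be d2 x y) x * 1 = mNM w c1 d1 c2 d2 al be x * mNM w k1 l1 k2 l2 al' be' x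
  rw [cE_one, cE_one]
  unfold mNM
  ring

end

end Pool.Agent.W_7d29a1_C0.GS65
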