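import Pool.Agent.W_7d29a1_C0.KT52
import Pool.Agent.W_7d29a1_C0.GSP65
import Pool.Agent.W_7d29a1_C0.KickT32

/-!
CURV0 (MP_7d29a1_pr), GS, (T - flip) AT ONE ENVIRONMENT (helper52), abstract over a finite set of paths.

`PhB` (KickT32): the functional of the row `j` (own pair `x`, `y`, `y` given `p' x`, class `cls`, boxes `β` of the pair) with the
spectator `h x`. `Vk`: the functional of another row as a mean over `x'`, `y'`, `z'`. `P6`: the plan of the product, six replicas, for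
every pair of rows. `rb`: the mass of the pairs. `tf52`: `PhB` at two weights `w + R` and `w`, with the spectator `Vk` at the same
weights, differs by very little, unless the paths with `|R| > τ` have a mass of more than `q`; in this case the difference is at most
`4 M ^ 4` times the sum of the two `rb`.
-/

set_option autoImplicit false
set_option linter.unusedSectionVars false
set_option linter.unusedVariables false

namespace Pool.W7d29a1.C0.I52

open Finset MeasureTheory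
open Pool.Agent.W_7d29a1_C0 Pool.W7d29a1.C0 Pool.W7d29a1.C0.VT31
open Pool.Agent.W_7d29a1_C0.Swap57 (cE2)
open Pool.Agent.W_7d29a1_C0.GS65 (ev_fr ev_gi)
open Pool.Agent.W_7d29a1_C0.KickT32 (ib ib_nonneg ib_le_one PhB)

noncomputable section

variable {X : Type*} [Fintype X] [DecidableEq X] [Nonempty X] {Y : Type*} [DecidableEq Y]

theorem cE_cmul (w : X → ℝ) (p : X → Y) (f : X → ℝ) (c : ℝ) (x : X) : cE w p (fun s => c * f s) x = c * cE w p f x := by
  have h := congrFun (cE_smul w p c f) x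
  exact h

theorem cE_mulc (w : X → ℝ) (p : X → Y) (f : X → ℝ) (c : ℝ) (x : X) : cE w p (fun s => f s * c) x = cE w p f x * c :=
  GS65.cE_mul_const w p f c x

theorem cE_congr_loc (w : X → ℝ) (p : X → Y) {f g : X → ℝ} {x : X} (h : ∀ z, p z = p x → f z = g z) :
    cE w p f x = cE w p g x := by
  rw [cE_eq_av, cE_eq_av]
  exact av_congr w _ fun z hz => h z (mem_filter.1 hz).2

theorem cE_one' (w : X → ℝ) (p : X → Y) (x : X) : cE w p (fun _ => (1 : ℝ)) x = 1 := by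
  rw [cE_of_meas w (show Mp p (fun _ : X => (1 : ℝ)) from fun _ _ _ => rfl)]

/-! ### The plan -/

/-- Indices: `5` the base path `x`, `4`: `y` given `p' x`, `3`: `z` given `p x`, `2`: `x'` given `pk' x`, `1`: `y'` given `pk' x'`, `0`: `z'`
given `pk x'`. -/
def P6 (p p' pk pk' : X → Y) : Plan X 6 :=
  (((((Plan.nil : Plan X 0).fr.gi p' 0).gi p 1).gi pk' 2).gi pk' 0).gi pk 1

theorem mg6 (p p' pk pk' : X → Y) (w : X → ℝ) : MG (P6 p p' pk pk') w :=
  mg_gi (mg_gi (mg_gi (mg_gi (mg_gi (mg_fr (mg_nil w)) p' 0) p 1) pk' 2) pk' 0) pk 1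

theorem ev6 (p p' pk pk' : X → Y) (w : X → ℝ) (A : X → X → ℝ) (g0 : X → ℝ) (C : X → X → ℝ) (k0 : X → ℝ) :
    ev (P6 p p' pk pk') w (fun v => A (v 5) (v 4) * g0 (v 3) * (C (v 2) (v 1) * k0 (v 0))) =
      gm w fun x => cE w p' (A x) x * cE w p g0 x * cE w pk' (fun x' => cE w pk' (C x') x' * cE w pk k0 x') x := by
  unfold P6
  rw [ev_gi, ev_gi, ev_gi, ev_gi, ev_gi, ev_fr, ev_nil]
  congr 1
  funext x
  have e1 : ∀ y z x' y' : X, cE w pk (fun z' => A x y * g0 z * (C x' y' * k0 z')) x' =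
      (A x y * g0 z) * (C x' y' * cE w pk k0 x') := by
    intro y z x' y'
    rw [cE_cmul, cE_cmul]
  have e2 : ∀ y z x' : X, cE w pk' (fun y' => (A x y * g0 z) * (C x' y' * cE w pk k0 x')) x' =
      (A x y * g0 z) * (cE w pk' (C x') x' * cE w pk k0 x') := by
    intro y z x'
    rw [cE_cmul, cE_mulc]
  have e3 : ∀ y z : X, cE w pk' (fun x' => (A x y * g0 z) * (cE w pk' (C x') x' * cE w pk k0 x')) x =
      (A x y * g0 z) * cE w pk' (fun x' => cE w pk' (C x') x' * cE w pk k0 x') x := by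
    intro y z
    rw [cE_cmul]
  have e4 : ∀ y : X, cE w p (fun z => (A x y * g0 z) * cE w pk' (fun x' => cE w pk' (C x') x' * cE w pk k0 x') x) x =
      A x y * (cE w p g0 x * cE w pk' (fun x' => cE w pk' (C x') x' * cE w pk k0 x') x) := by
    intro y
    rw [cE_mulc, cE_cmul]
    ring
  have e5 : cE w p' (fun y => A x y * (cE w p g0 x * cE w pk' (fun x' => cE w pk' (C x') x' * cE w pk k0 x') x)) x =
      cE w p' (A x) x * cE w p g0 x * cE w pk' (fun x' => cE w pk' (C x') x' * cE w pk k0 x') x := by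
    rw [cE_mulc]
    ring
  rw [← e5]
  show cE w p' (fun y => cE w p (fun z => cE w pk' (fun x' => cE w pk' (fun y' => cE w pk (fun z' =>
    A x y * g0 z * (C x' y' * k0 z')) x') x') x) x) x = _
  congr 1
  funext y
  rw [← e4]
  congr 1
  funext z
  rw [← e3]
  congr 1
  funext x'
  rw [← e2]
  congr 1
  funext y'
  exact e1 y z x' y'

/-! ### The functionals -/

variable {K : Type*} [DecidableEq K]

/-- The functional of another row. -/
def Vk (w : X → ℝ) (pk pk' : X → Y) (gk : X → ℝ) (NMA : X → X → ℝ) : X → ℝ :=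
  cE w pk' fun x' => cE w pk gk x' * cE w pk' (fun y => NMA x' y * (gk x' - gk y)) x'

/-- The mass of the two own pairs. -/
def rb (w : X → ℝ) (p' pk' : X → Y) (cls : X → X → ℝ) (bx : X → K) (β : K × K) (NMA : X → X → ℝ) : ℝ :=
  gm w fun x => ib bx β.1 x * cE w p' (fun y => cls x y * ib bx β.2 y) x * cE2 w pk' NMA x x

theorem phi_Vk (w : X → ℝ) (p p' pk pk' : X → Y) (g gk : X → ℝ) (cls NMA : X → X → ℝ) (bx : X → K) (β : K × K) :
    PhB w p' p cls g (Vk w pk pk' gk NMA) bx β = ev (P6 p p' pk pk') w (fun v =>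
      (ib bx β.1 (v 5) * (cls (v 5) (v 4) * (g (v 5) - g (v 4)) * ib bx β.2 (v 4))) * g (v 3) *
        ((NMA (v 2) (v 1) * (gk (v 2) - gk (v 1))) * gk (v 0))) := by
  rw [ev6 p p' pk pk' w (fun x y => ib bx β.1 x * (cls x y * (g x - g y) * ib bx β.2 y)) g
    (fun x' y' => NMA x' y' * (gk x' - gk y')) gk]
  unfold PhB Vk
  congr 1
  funext x
  rw [cE_cmul]
  have e : (fun x' => cE w pk' (fun y' => NMA x' y' * (gk x' - gk y')) x' * cE w pk gk x') =
      fun x' => cE w pk gk x' * cE w pk' (fun y' => NMA x' y' * (gk x' - gk y')) x' := by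
    funext x'
    ring
  rw [e]
  ring

theorem rb_ev (w : X → ℝ) (p p' pk pk' : X → Y) (cls NMA : X → X → ℝ) (bx : X → K) (β : K × K) :
    ev (P6 p p' pk pk') w (fun v => (ib bx β.1 (v 5) * (cls (v 5) (v 4) * ib bx β.2 (v 4))) * 1 * (NMA (v 2) (v 1) * 1)) =
      rb w p' pk' cls bx β NMA := by
  rw [ev6 p p' pk pk' w (fun x y => ib bx β.1 x * (cls x y * ib bx β.2 y)) (fun _ => 1) NMA fun _ => 1]
  unfold rb cE2
  congr 1
  funext x
  rw [cE_cmul, cE_one', mul_one]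
  congr 1
  have e : (fun x' => cE w pk' (NMA x') x' * cE w pk (fun _ => (1 : ℝ)) x') = fun x' => cE w pk' (NMA x') x' := by
    funext x'
    rw [cE_one', mul_one]
  rw [e]
  -- the replica `x'` has the same `pk'` as `x`
  show cE w pk' (fun x' => cE w pk' (NMA x') x') x = cE w pk' (fun x' => cE w pk' (fun y => NMA x' y) x) x
  exact cE_congr_loc w pk' fun x' hx' => cE_meas w pk' (NMA x') x' x hx'

theorem abs_psi6 {M : ℝ} {g gk : X → ℝ} (hg : ∀ x, |g x| ≤ M) (hk : ∀ x, |gk x| ≤ M) {cls NMA : X → X → ℝ}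
    (hc0 : ∀ x y, 0 ≤ cls x y) (hn0 : ∀ x y, 0 ≤ NMA x y) (bx : X → K) (β : K × K) (v : Fin 6 → X) :
    |(ib bx β.1 (v 5) * (cls (v 5) (v 4) * (g (v 5) - g (v 4)) * ib bx β.2 (v 4))) * g (v 3) *
        ((NMA (v 2) (v 1) * (gk (v 2) - gk (v 1))) * gk (v 0))| ≤
      4 * M ^ 4 * ((ib bx β.1 (v 5) * (cls (v 5) (v 4) * ib bx β.2 (v 4))) * 1 * (NMA (v 2) (v 1) * 1)) := by
  have hM : 0 ≤ M := (abs_nonneg _).trans (hg (v 0))
  have h1 : |g (v 5) - g (v 4)| ≤ 2 * M := by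
    have := abs_sub (g (v 5)) (g (v 4))
    have := hg (v 5)
    have := hg (v 4)
    linarith
  have h2 : |gk (v 2) - gk (v 1)| ≤ 2 * M := by
    have := abs_sub (gk (v 2)) (gk (v 1))
    have := hk (v 2)
    have := hk (v 1)
    linarith
  have a1 := ib_nonneg bx β.1 (v 5)
  have a2 := ib_nonneg bx β.2 (v 4)
  have a3 := hc0 (v 5) (v 4)
  have a4 := hn0 (v 2) (v 1)
  rw [abs_mul, abs_mul, abs_mul, abs_mul, abs_mul, abs_mul, abs_mul, abs_of_nonneg a1, abs_of_nonneg a2, abs_of_nonneg a3,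
    abs_of_nonneg a4]
  have b1 : |g (v 5) - g (v 4)| * |g (v 3)| ≤ (2 * M) * M := mul_le_mul h1 (hg _) (abs_nonneg _) (by positivity)
  have b2 : |gk (v 2) - gk (v 1)| * |gk (v 0)| ≤ (2 * M) * M := mul_le_mul h2 (hk _) (abs_nonneg _) (by positivity)
  have b3 : (|g (v 5) - g (v 4)| * |g (v 3)|) * (|gk (v 2) - gk (v 1)| * |gk (v 0)|) ≤ ((2 * M) * M) * ((2 * M) * M) :=
    mul_le_mul b1 b2 (mul_nonneg (abs_nonneg _) (abs_nonneg _)) (by positivity)
  have b4 := mul_le_mul_of_nonneg_left b3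
    (mul_nonneg (mul_nonneg a1 (mul_nonneg a3 a2)) a4 : 0 ≤ ib bx β.1 (v 5) * (cls (v 5) (v 4) * ib bx β.2 (v 4)) * NMA (v 2) (v 1))
  nlinarith [b4]

variable {M D τ q : ℝ} {w R : X → ℝ}

/-- **(T - flip) AT ONE ENVIRONMENT.** -/
theorem tf52 (p p' pk pk' : X → Y) {g gk : X → ℝ} (hg : ∀ x, |g x| ≤ M) (hk : ∀ x, |gk x| ≤ M) {cls NMA : X → X → ℝ}
    (hc0 : ∀ x y, 0 ≤ cls x y) (hc1 : ∀ x y, cls x y ≤ 1) (hn0 : ∀ x y, 0 ≤ NMA x y) (hn1 : ∀ x y, NMA x y ≤ 1)
    (bx : X → K) (β : K × K) (hτ : 0 < τ) (hτ' : τ ≤ 1 / 4) (hR : ∀ s, |R s| ≤ D) (hq : 0 ≤ q) :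
    |PhB (w + R) p' p cls g (Vk (w + R) pk pk' gk NMA) bx β - PhB w p' p cls g (Vk w pk pk' gk NMA) bx β| ≤
      4 * M ^ 4 * ((Real.exp (24 * τ) - 1) + 24 * (q * Real.exp (5 * D) / τ)) +
        (if q < gm w (bd R τ) then 1 else 0) * (4 * M ^ 4 * (rb (w + R) p' pk' cls bx β NMA + rb w p' pk' cls bx β NMA)) := by
  obtain ⟨s₀⟩ := ‹Nonempty X›
  have hM : 0 ≤ M := (abs_nonneg _).trans (hg s₀)
  rw [phi_Vk, phi_Vk]
  set Ψ : (Fin 6 → X) → ℝ := fun v => (ib bx β.1 (v 5) * (cls (v 5) (v 4) * (g (v 5) - g (v 4)) * ib bx β.2 (v 4))) * g (v 3) *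
        ((NMA (v 2) (v 1) * (gk (v 2) - gk (v 1))) * gk (v 0)) with hΨ
  have hab : ∀ v, |Ψ v| ≤ 4 * M ^ 4 * ((ib bx β.1 (v 5) * (cls (v 5) (v 4) * ib bx β.2 (v 4))) * 1 * (NMA (v 2) (v 1) * 1)) :=
    fun v => abs_psi6 hg hk hc0 hn0 bx β v
  have hab1 : ∀ v, |Ψ v| ≤ 4 * M ^ 4 := by
    intro v
    refine (hab v).trans ?_
    have h1 : ib bx β.1 (v 5) * (cls (v 5) (v 4) * ib bx β.2 (v 4)) ≤ 1 := by
      calc ib bx β.1 (v 5) * (cls (v 5) (v 4) * ib bx β.2 (v 4)) ≤ 1 * (1 * 1) :=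
            mul_le_mul (ib_le_one _ _ _) (mul_le_mul (hc1 _ _) (ib_le_one _ _ _) (ib_nonneg _ _ _) zero_le_one)
              (mul_nonneg (hc0 _ _) (ib_nonneg _ _ _)) zero_le_one
        _ = 1 := by ring
    have h0 : 0 ≤ ib bx β.1 (v 5) * (cls (v 5) (v 4) * ib bx β.2 (v 4)) :=
      mul_nonneg (ib_nonneg _ _ _) (mul_nonneg (hc0 _ _) (ib_nonneg _ _ _))
    have h2 : (ib bx β.1 (v 5) * (cls (v 5) (v 4) * ib bx β.2 (v 4))) * 1 * (NMA (v 2) (v 1) * 1) ≤ 1 := by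
      rw [mul_one, mul_one]
      calc _ ≤ (1 : ℝ) * 1 := mul_le_mul h1 (hn1 _ _) (hn0 _ _) zero_le_one
        _ = 1 := by ring
    calc _ ≤ 4 * M ^ 4 * 1 := mul_le_mul_of_nonneg_left h2 (by positivity)
      _ = 4 * M ^ 4 := by ring
  have hevle : ∀ w' : X → ℝ, ev (P6 p p' pk pk') w' (fun v => |Ψ v|) ≤ 4 * M ^ 4 * rb w' p' pk' cls bx β NMA := by
    intro w'
    refine (ev_mono _ w' hab).trans_eq ?_
    rw [ev_smul, rb_ev]
  have hev1 : ev (P6 p p' pk pk') w (fun v => |Ψ v|) ≤ 4 * M ^ 4 :=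
    (ev_mono _ w hab1).trans_eq (ev_const _ w _)
  have hkt := kt_all (P := P6 p p' pk pk') hτ hτ' hR hq (mg6 p p' pk pk' w) (mg6 p p' pk pk' (w + R)) hab1
  have e24 : (4 * ((6 : ℕ) : ℝ) * τ) = 24 * τ := by
    push_cast
    ring
  rw [e24] at hkt
  refine hkt.trans (add_le_add ?_ ?_)
  · have h3 : 0 ≤ Real.exp (24 * τ) - 1 := by
      have := Real.add_one_le_exp (24 * τ)
      linarith
    have h4 := mul_le_mul_of_nonneg_left hev1 h3
    have h5 : 4 * ((6 : ℕ) : ℝ) * (4 * M ^ 4) * (q * Real.exp (5 * D) / τ) = 4 * M ^ 4 * (24 * (q * Real.exp (5 * D) / τ)) := by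
      push_cast
      ring
    rw [h5]
    linarith
  · refine mul_le_mul_of_nonneg_left ?_ (by split_ifs <;> norm_num)
    have h6 := hevle (w + R)
    have h7 := hevle w
    linarith

/-! ### Linearity and the sum over the boxes -/

theorem PhB_sum {J : Type*} (S : Finset J) (w : X → ℝ) (p p' : X → Y) (g : X → ℝ) (cls : X → X → ℝ) (bx : X → K) (β : K × K)
    (c : J → ℝ) (h : J → X → ℝ) :
    PhB w p' p cls g (∑ k ∈ S, c k • h k) bx β = ∑ k ∈ S, c k * PhB w p' p cls g (h k) bx β := by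
  unfold PhB
  have e : (fun x => ib bx β.1 x * (∑ k ∈ S, c k • h k) x * cE w p g x *
      cE w p' (fun y => cls x y * (g x - g y) * ib bx β.2 y) x) =
      fun x => ∑ k ∈ S, c k * (ib bx β.1 x * h k x * cE w p g x * cE w p' (fun y => cls x y * (g x - g y) * ib bx β.2 y) x) := by
    funext x
    rw [Finset.sum_apply, Finset.mul_sum, Finset.sum_mul, Finset.sum_mul]
    refine Finset.sum_congr rfl fun k _ => ?_
    rw [Pi.smul_apply, smul_eq_mul]
    ring
  rw [e, gm_eq_av, av_sum]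
  refine Finset.sum_congr rfl fun k _ => ?_
  rw [av_smul, gm_eq_av]

theorem rb_nonneg (w : X → ℝ) (p' pk' : X → Y) {cls NMA : X → X → ℝ} (hc0 : ∀ x y, 0 ≤ cls x y) (hn0 : ∀ x y, 0 ≤ NMA x y)
    (bx : X → K) (β : K × K) : 0 ≤ rb w p' pk' cls bx β NMA :=
  gm_nonneg w fun x => mul_nonneg (mul_nonneg (ib_nonneg _ _ _)
    (cE_nonneg w p' (fun y => mul_nonneg (hc0 x y) (ib_nonneg _ _ _)) x))
    (cE_nonneg w pk' (fun x' => cE_nonneg w pk' (fun y => hn0 x' y) x) x)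

end

end Pool.W7d29a1.C0.I52
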