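import Pool.Agent.W_7d29a1_C0.KickT32

/-!
MP_7d29a1_pr, [CURV0], GS IN ONE KICK (helper32): THE LAW CHANGE FOR NONNEGATIVE FUNCTIONS.

`q1_Pm`: for `F ≥ 0` bounded by `D`, the mean of `F` at the shifted environment is at most `exp a` times the mean of `F`, up to the tiny
term of (Q3). `q1_sum`: the sum over the boxes, the field and the slab depend on the box and the signs.
-/

set_option autoImplicit false
set_option linter.unusedSectionVars false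

namespace Pool.Agent.W_7d29a1_C0.KickT32

open Finset MeasureTheory Pool.Agent.W_7d29a1_F Pool.Agent.W_7d29a1_X Pool.Agent.W_7d29a1_C0.Mod92
open Pool.W7d29a1.C0.VT31
open Pool.W7d29a1.C0.H27 (Sh PredR Sh_meas)
open Pool.Agent.W_7d29a1_C0.Q32 (WL q3)
open Pool.Agent.W_7d29a1_C0.Near32

noncomputable section

variable {μ : Measure ℝ} {N : ℕ}

/-- **(Q1) over `Pm`.** -/
theorem q1_Pm [IsProbabilityMeasure μ] {u : ℝ → ℝ → ℝ} {C θ : ℝ} (h : WL μ u C θ) (ρ : Finset ℕ → Pt → ℤ)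
    (S : Finset ℕ → Finset Pt) (φ : Finset ℕ → Pt → Env → ℝ) (hm : ∀ A, ∀ p ∈ S A, Measurable (φ A p))
    (hc : ∀ A, PredR (ρ A) (S A) (φ A)) {a t B : ℝ} (ha : 0 ≤ a) (ht : 0 ≤ t)
    (hk : ∀ A, ∀ p ∈ S A, ∀ η, (2 * t + 3) * |φ A p η| ≤ θ) (hB : ∀ A η, ∑ p ∈ S A, φ A p η ^ 2 ≤ B)
    {F : Env × Finset ℕ → ℝ} (hF : Measurable F) {D : ℝ} (h0 : ∀ ω, 0 ≤ F ω) (hD : ∀ ω, F ω ≤ D) :
    ∫ ω, F (Sh (S ω.2) (φ ω.2) ω.1, ω.2) ∂(Pm μ N) ≤ Real.exp a * ∫ ω, F ω ∂(Pm μ N) +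
      4 * Real.exp (-(t * a)) * Real.exp (C * ((2 * t + 3) ^ 2 + 1) * B) * D := by
  have e := q3_Pm (N := N) h ρ S φ hm hc ha ht hk hB hF (D := D) fun ω => by
    rw [abs_of_nonneg (h0 ω)]
    exact hD ω
  have e1 : ∫ ω, |F ω| ∂(Pm μ N) = ∫ ω, F ω ∂(Pm μ N) := by
    congr 1
    funext ω
    exact abs_of_nonneg (h0 ω)
  rw [e1] at e
  have e2 := (abs_le.1 e).2
  linarith

/-- **(Q1) over `Pm`, the sum over the boxes.** -/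
theorem q1_sum [IsProbabilityMeasure μ] {ι : Type*} {T : Finset ι} {u : ℝ → ℝ → ℝ} {C θ : ℝ} (h : WL μ u C θ)
    (ρ : ι → Finset ℕ → Pt → ℤ) (S : ι → Finset ℕ → Finset Pt) (φ : ι → Finset ℕ → Pt → Env → ℝ)
    (hm : ∀ β A, ∀ p ∈ S β A, Measurable (φ β A p)) (hc : ∀ β A, PredR (ρ β A) (S β A) (φ β A)) {a t B : ℝ} (ha : 0 ≤ a)
    (ht : 0 ≤ t) (hk : ∀ β A, ∀ p ∈ S β A, ∀ η, (2 * t + 3) * |φ β A p η| ≤ θ) (hB : ∀ β A η, ∑ p ∈ S β A, φ β A p η ^ 2 ≤ B)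
    {F : ι → Env × Finset ℕ → ℝ} (hF : ∀ β, Measurable (F β)) {D : ℝ} (h0 : ∀ β ω, 0 ≤ F β ω) (hD : ∀ β ω, F β ω ≤ D) :
    ∑ β ∈ T, ∫ ω, F β (Sh (S β ω.2) (φ β ω.2) ω.1, ω.2) ∂(Pm μ N) ≤ Real.exp a * ∫ ω, ∑ β ∈ T, F β ω ∂(Pm μ N) +
      (T.card : ℝ) * (4 * Real.exp (-(t * a)) * Real.exp (C * ((2 * t + 3) ^ 2 + 1) * B) * D) := by
  have e1 : ∫ ω, ∑ β ∈ T, F β ω ∂(Pm μ N) = ∑ β ∈ T, ∫ ω, F β ω ∂(Pm μ N) :=
    integral_finsetSum _ fun β _ => int_bdd (hF β) fun ω => by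
      rw [abs_of_nonneg (h0 β ω)]
      exact hD β ω
  rw [e1, mul_sum, ← nsmul_eq_mul, ← sum_const, ← sum_add_distrib]
  exact sum_le_sum fun β _ => q1_Pm h (ρ β) (S β) (φ β) (hm β) (hc β) ha ht (hk β) (hB β) (hF β) (h0 β) (hD β)

end

end Pool.Agent.W_7d29a1_C0.KickT32
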