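import Pool.Agent.W_7d29a1_C0.GSA52
import Pool.Agent.W_7d29a1_C0.Bd73B
import Pool.Agent.W_7d29a1_C0.KickQ32

/-!
CURV0 (MP_7d29a1_pr), GS, THE BAD BOXES (helper52). `RBb`: the mass `rb` of the pairs with the boxes `β`, times the indicator of `BadF`
(Bd73B) for `β`. `red52`: the event of `tf52` at the base `w + C` (`C` the field of the slab, `u` the tilt of the flip) lies in `BadF` at
`w`; `term52`: hence the bad term of `tf52` is at most `RBb` at `w + C` plus `RBb` at `w + u`, at changed thresholds. `bad_int`: the sum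
over the boxes of the integrals: the part at the shifted environments is at most `exp a` times the integral of `RB`, up to a tiny term.
-/

set_option autoImplicit false
set_option linter.unusedSectionVars false
set_option linter.unusedVariables false

namespace Pool.W7d29a1.C0.GSB52

open Finset MeasureTheory Pool.Agent.W_7d29a1_F
open Pool.Agent.W_7d29a1_C0 Pool.W7d29a1.C0 Pool.W7d29a1.C0.VT31
open Pool.Agent.W_7d29a1_C0.Swap57 (cE2 cE2_nonneg)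
open Pool.Agent.W_7d29a1_C0.KickT32 (ib ib_nonneg ib_le_one PhB)
open Pool.W7d29a1.C0.I52 (rb rb_nonneg bd)
open Pool.W7d29a1.C0.Bd73 (BadF badF73 dv TT)
open Pool.W7d29a1.C0.R43 (gm_tilt43)

noncomputable section

section Abs

variable {X : Type*} [Fintype X] [DecidableEq X] [Nonempty X] {Y Y2 Y' : Type*} [DecidableEq Y] [DecidableEq Y2] [DecidableEq Y']
  {K : Type*} [DecidableEq K]

/-- `BadF` at other thresholds. -/
theorem BadF.mono {w : X → ℝ} {p : X → Y2} {g : X → ℝ} {out : X → Prop} {δ δ' q q' : ℝ} (h : BadF w p g out δ q) (h1 : δ' ≤ δ)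
    (h2 : q' ≤ q) : BadF w p g out δ' q' := by
  classical
  rcases h with h | h
  · exact Or.inl (h2.trans_lt h)
  · refine Or.inr ((h2.trans_lt h).trans_le (gm_mono w fun S => ?_))
    by_cases h3 : δ ≤ TT w p g S
    · rw [if_pos h3, if_pos (h1.trans h3)]
    · rw [if_neg h3]
      split_ifs <;> norm_num

open Classical in
/-- The mass of the pairs with the boxes `β`, on `BadF`. -/
def RBb (w : X → ℝ) (p : X → Y2) (g : X → ℝ) (out : X → Prop) (δ q : ℝ) (p' pk' : X → Y) (cls : X → X → ℝ) (bx : X → K) (β : K × K)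
    (NMA : X → X → ℝ) : ℝ :=
  if BadF w p g out δ q then rb w p' pk' cls bx β NMA else 0

theorem rb_le_one (w : X → ℝ) (p' pk' : X → Y) {cls NMA : X → X → ℝ} (hc0 : ∀ x y, 0 ≤ cls x y) (hc1 : ∀ x y, cls x y ≤ 1)
    (hn0 : ∀ x y, 0 ≤ NMA x y) (hn1 : ∀ x y, NMA x y ≤ 1) (bx : X → K) (β : K × K) : rb w p' pk' cls bx β NMA ≤ 1 := by
  unfold rb
  refine (gm_mono w (g := fun _ => 1) fun x => ?_).trans (le_of_eq (gm_const w 1))
  have a1 : cE w p' (fun y => cls x y * ib bx β.2 y) x ≤ 1 := by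
    have e := cE_mono w p' (f := fun y => cls x y * ib bx β.2 y) (g := fun _ => 1) (fun y => by
      nlinarith [hc0 x y, hc1 x y, ib_nonneg bx β.2 y, ib_le_one bx β.2 y]) x
    rwa [cE_one] at e
  have a0 : 0 ≤ cE w p' (fun y => cls x y * ib bx β.2 y) x := cE_nonneg w p' (fun y => mul_nonneg (hc0 x y) (ib_nonneg _ _ _)) x
  have b1 : cE2 w pk' NMA x x ≤ 1 := by
    have e1 := Pool.Agent.W_7d29a1_C0.Swap57.cE2_mono w pk' (K := NMA) (K' := fun _ _ => 1) hn1 x x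
    rwa [Pool.Agent.W_7d29a1_C0.Swap57.cE2_one] at e1
  have b0 : 0 ≤ cE2 w pk' NMA x x := cE2_nonneg w pk' hn0 x x
  calc ib bx β.1 x * cE w p' (fun y => cls x y * ib bx β.2 y) x * cE2 w pk' NMA x x ≤ 1 * 1 * 1 :=
        mul_le_mul (mul_le_mul (ib_le_one _ _ _) a1 a0 zero_le_one) b1 b0 (by norm_num)
    _ = 1 := by norm_num

theorem RBb_nonneg (w : X → ℝ) (p : X → Y2) (g : X → ℝ) (out : X → Prop) (δ q : ℝ) (p' pk' : X → Y) {cls NMA : X → X → ℝ}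
    (hc0 : ∀ x y, 0 ≤ cls x y) (hn0 : ∀ x y, 0 ≤ NMA x y) (bx : X → K) (β : K × K) : 0 ≤ RBb w p g out δ q p' pk' cls bx β NMA := by
  unfold RBb
  split_ifs
  · exact rb_nonneg w p' pk' hc0 hn0 bx β
  · exact le_rfl

theorem RBb_le_one (w : X → ℝ) (p : X → Y2) (g : X → ℝ) (out : X → Prop) (δ q : ℝ) (p' pk' : X → Y) {cls NMA : X → X → ℝ}
    (hc0 : ∀ x y, 0 ≤ cls x y) (hc1 : ∀ x y, cls x y ≤ 1) (hn0 : ∀ x y, 0 ≤ NMA x y) (hn1 : ∀ x y, NMA x y ≤ 1) (bx : X → K)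
    (β : K × K) : RBb w p g out δ q p' pk' cls bx β NMA ≤ 1 := by
  unfold RBb
  split_ifs
  · exact rb_le_one w p' pk' hc0 hc1 hn0 hn1 bx β
  · exact zero_le_one

/-- Other thresholds. -/
theorem RBb_mono (w : X → ℝ) (p : X → Y2) (g : X → ℝ) (out : X → Prop) {δ δ' q q' : ℝ} (h1 : δ' ≤ δ) (h2 : q' ≤ q) (p' pk' : X → Y)
    {cls NMA : X → X → ℝ} (hc0 : ∀ x y, 0 ≤ cls x y) (hn0 : ∀ x y, 0 ≤ NMA x y) (bx : X → K) (β : K × K) :
    RBb w p g out δ q p' pk' cls bx β NMA ≤ RBb w p g out δ' q' p' pk' cls bx β NMA := by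
  unfold RBb
  by_cases h : BadF w p g out δ q
  · rw [if_pos h, if_pos (BadF.mono h h1 h2)]
  · rw [if_neg h]
    split_ifs
    · exact rb_nonneg w p' pk' hc0 hn0 bx β
    · exact le_rfl

/-- **THE BAD EVENT OF `tf52` IS IN `BadF` AT THE CORNER.** -/
theorem red52 {w C u : X → ℝ} {D : ℝ} (hC : ∀ x, |C x| ≤ D) {p : X → Y2} {κ' : Type*} {J : Finset κ'} {θ : κ' → ℝ}
    (hθ0 : ∀ m ∈ J, 0 ≤ θ m) (hθ : ∑ m ∈ J, θ m = 1) {pm : κ' → X → Y'} (hp : ∀ m ∈ J, Crs p (pm m)) {g : X → ℝ} {δ q τ : ℝ}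
    (hτ : 0 < τ) (hδ : 0 ≤ δ) (hq : 12 * δ / τ ≤ q * Real.exp (-(2 * D))) {out : X → Prop}
    (hR : ∀ S, ¬ out S → |(u - C) S| = 2 * dv w J θ pm g S) (hbad : q < gm (w + C) (bd (u - C) τ)) :
    BadF w p g out δ (q * Real.exp (-(2 * D)) / 3) := by
  have e2 : Real.exp (2 * D) * Real.exp (-(2 * D)) = 1 := by rw [← Real.exp_add, add_neg_cancel, Real.exp_zero]
  have h0 : ∀ s, 0 ≤ bd (u - C) τ s := fun s => by
    unfold bd
    split_ifs <;> norm_num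
  have h1 := gm_tilt43 (w := w) hC h0
  have h2 := lt_of_lt_of_le hbad h1
  have h3 := mul_lt_mul_of_pos_right h2 (Real.exp_pos (-(2 * D)))
  have h4 : q * Real.exp (-(2 * D)) < gm w (bd (u - C) τ) := by
    calc _ < Real.exp (2 * D) * gm w (bd (u - C) τ) * Real.exp (-(2 * D)) := h3
      _ = Real.exp (2 * D) * Real.exp (-(2 * D)) * gm w (bd (u - C) τ) := by ring
      _ = _ := by rw [e2, one_mul]
  refine badF73 w hθ0 hθ hp g hτ hδ (R := u - C) (out := out) ?_ hR ?_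
  · have h5 : 4 * δ / τ = (12 * δ / τ) / 3 := by ring
    rw [h5]
    linarith
  · have h6 : 3 * (q * Real.exp (-(2 * D)) / 3) = q * Real.exp (-(2 * D)) := by ring
    rw [h6]
    exact h4

/-- **THE BAD TERM OF `tf52`.** -/
theorem term52 {w C u : X → ℝ} {D : ℝ} (hC : ∀ x, |C x| ≤ D) (hu : ∀ x, |u x| ≤ D) {p : X → Y2} {κ' : Type*} {J : Finset κ'}
    {θ : κ' → ℝ} (hθ0 : ∀ m ∈ J, 0 ≤ θ m) (hθ : ∑ m ∈ J, θ m = 1) {pm : κ' → X → Y'} (hp : ∀ m ∈ J, Crs p (pm m)) {g : X → ℝ}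
    {δ q τ : ℝ} (hτ : 0 < τ) (hδ : 0 ≤ δ) (hq : 12 * δ / τ ≤ q * Real.exp (-(2 * D))) {out : X → Prop}
    (hR : ∀ S, ¬ out S → |(u - C) S| = 2 * dv w J θ pm g S) (p' pk' : X → Y) {cls NMA : X → X → ℝ} (hc0 : ∀ x y, 0 ≤ cls x y)
    (hn0 : ∀ x y, 0 ≤ NMA x y) (bx : X → K) (β : K × K) :
    (if q < gm (w + C) (bd (u - C) τ) then 1 else 0) * (rb (w + u) p' pk' cls bx β NMA + rb (w + C) p' pk' cls bx β NMA) ≤
      RBb (w + u) p g out (δ * Real.exp (-(4 * D))) (q * Real.exp (-(4 * D)) / 3) p' pk' cls bx β NMA +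
        RBb (w + C) p g out (δ * Real.exp (-(4 * D))) (q * Real.exp (-(4 * D)) / 3) p' pk' cls bx β NMA := by
  classical
  have g1 := RBb_nonneg (w + u) p g out (δ * Real.exp (-(4 * D))) (q * Real.exp (-(4 * D)) / 3) p' pk' hc0 hn0 bx β
  have g2 := RBb_nonneg (w + C) p g out (δ * Real.exp (-(4 * D))) (q * Real.exp (-(4 * D)) / 3) p' pk' hc0 hn0 bx β
  by_cases hbad : q < gm (w + C) (bd (u - C) τ)
  · rw [if_pos hbad, one_mul]
    have h1 := red52 hC hθ0 hθ hp hτ hδ hq hR hbad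
    have e4 : q * Real.exp (-(2 * D)) / 3 * Real.exp (-(2 * D)) = q * Real.exp (-(4 * D)) / 3 := by
      have h5 : Real.exp (-(4 * D)) = Real.exp (-(2 * D)) * Real.exp (-(2 * D)) := by
        rw [← Real.exp_add]
        congr 1
        ring
      rw [h5]
      ring
    have key : ∀ A : X → ℝ, (∀ x, |A x| ≤ D) → BadF (w + A) p g out (δ * Real.exp (-(4 * D))) (q * Real.exp (-(4 * D)) / 3) := by
      intro A hA
      have h2 : w = (w + A) + -A := by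
        funext x
        simp
      have h3 : BadF ((w + A) + -A) p g out δ (q * Real.exp (-(2 * D)) / 3) := by
        rw [← h2]
        exact h1
      have h4 := Pool.W7d29a1.C0.Bd73.BadF.tilt (w := w + A) (A := -A) (D := D) (fun x => by rw [Pi.neg_apply, abs_neg]; exact hA x) h3
      rwa [e4] at h4
    have k1 : RBb (w + u) p g out (δ * Real.exp (-(4 * D))) (q * Real.exp (-(4 * D)) / 3) p' pk' cls bx β NMA =
        rb (w + u) p' pk' cls bx β NMA := if_pos (key u hu)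
    have k2 : RBb (w + C) p g out (δ * Real.exp (-(4 * D))) (q * Real.exp (-(4 * D)) / 3) p' pk' cls bx β NMA =
        rb (w + C) p' pk' cls bx β NMA := if_pos (key C hC)
    rw [k1, k2]
  · rw [if_neg hbad, zero_mul]
    exact add_nonneg g1 g2

end Abs

/-! ### The model -/

section Model

open Pool.Agent.W_7d29a1_X Pool.Agent.W_7d29a1_C0.Mod92
open Pool.W7d29a1.C0.H27 (Sh PredR Sh_meas)
open Pool.Agent.W_7d29a1_C0.Q32 (WL)
open Pool.Agent.W_7d29a1_C0.KickT32 (q1_sum)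

variable {μ : Measure ℝ} {s : ℝ} {N : ℕ} {Q : Finset (Finset ℕ)} [Nonempty (Px Q)] {K : Type*} [DecidableEq K]

theorem meas_ind {Ω : Type*} [MeasurableSpace Ω] {E : Ω → Prop} (h : MeasurableSet {ω | E ω}) [DecidablePred E] :
    Measurable fun ω => if E ω then (1 : ℝ) else 0 := Measurable.ite h measurable_const measurable_const

open Classical in
theorem meas_BadF {w g : Env × Finset ℕ → Px Q → ℝ} (hw : ∀ S, Measurable fun ω => w ω S) (hg : ∀ S, Measurable fun ω => g ω S)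
    {Y : Type*} [DecidableEq Y] (p : Px Q → Y) (out : Px Q → Prop) (δ q : ℝ) : MeasurableSet {ω | BadF (w ω) p (g ω) out δ q} := by
  have hT : ∀ S, Measurable fun ω => TT (w ω) p (g ω) S := fun S => by
    unfold TT Pool.Agent.W_7d29a1_C0.Swap57.cE2
    exact meas_cE hw (fun z => meas_cE (f := fun ω z' => |g ω z - g ω z'|) hw (fun z' => ((hg z).sub (hg z')).norm) p S) p S
  have h1 : Measurable fun ω => gm (w ω) (fun S => if out S then (1 : ℝ) else 0) := meas_gm hw fun S => measurable_const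
  have h2 : Measurable fun ω => gm (w ω) (fun S => if δ ≤ TT (w ω) p (g ω) S then (1 : ℝ) else 0) :=
    meas_gm hw fun S => Measurable.ite (measurableSet_le measurable_const (hT S)) measurable_const measurable_const
  have e : {ω | BadF (w ω) p (g ω) out δ q} = {ω | q < gm (w ω) (fun S => if out S then (1 : ℝ) else 0)} ∪
      {ω | q < gm (w ω) (fun S => if δ ≤ TT (w ω) p (g ω) S then (1 : ℝ) else 0)} := by
    ext ω
    rfl
  rw [e]
  exact (measurableSet_lt measurable_const h1).union (measurableSet_lt measurable_const h2)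

theorem meas_RBb {w g : Env × Finset ℕ → Px Q → ℝ} (hw : ∀ S, Measurable fun ω => w ω S) (hg : ∀ S, Measurable fun ω => g ω S)
    {Y Y2 : Type*} [DecidableEq Y] [DecidableEq Y2] (p : Px Q → Y2) (out : Px Q → Prop) (δ q : ℝ) (p' pk' : Px Q → Y)
    (cls NMA : Px Q → Px Q → ℝ) (bx : Px Q → K) (β : K × K) :
    Measurable fun ω => RBb (w ω) p (g ω) out δ q p' pk' cls bx β NMA := by
  classical
  unfold RBb
  refine Measurable.ite (meas_BadF hw hg p out δ q) ?_ measurable_const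
  unfold rb Pool.Agent.W_7d29a1_C0.Swap57.cE2
  refine meas_gm hw fun x => ?_
  exact ((meas_cE (f := fun _ y => cls x y * ib bx β.2 y) hw (fun y => measurable_const) p' x).const_mul _).mul
    (meas_cE hw (fun z => meas_cE (f := fun _ => NMA z) hw (fun z' => measurable_const) pk' x) pk' x)

/-- The bad functional of the pair of rows: the sum over the boxes. -/
def RBs (w : Px Q → ℝ) {Y Y2 : Type*} [DecidableEq Y] [DecidableEq Y2] (p : Px Q → Y2) (g : Px Q → ℝ) (out : K × K → Px Q → Prop)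
    (δ q : ℝ) (p' pk' : Px Q → Y) (cls : Px Q → Px Q → ℝ) (bx : Px Q → K) (I : Finset K) (NMA : Px Q → Px Q → ℝ) : ℝ :=
  ∑ β ∈ I ×ˢ I, RBb w p g (out β) δ q p' pk' cls bx β NMA

/-- **THE BAD TERMS, INTEGRATED.** `Cb β ω` the field of the box, `u ω` the tilt of the flip. -/
theorem bad_int [IsProbabilityMeasure μ] {uu : ℝ → ℝ → ℝ} {Cc θ0 : ℝ} (hW : WL μ uu Cc θ0) {bx : Px Q → K} {I : Finset K}
    (ρ : K × K → Finset ℕ → Pt → ℤ) (S : K × K → Finset ℕ → Finset Pt) (φ : K × K → Finset ℕ → Pt → Env → ℝ)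
    (hm : ∀ β A, ∀ p ∈ S β A, Measurable (φ β A p)) (hc : ∀ β A, PredR (ρ β A) (S β A) (φ β A)) {a t Bq : ℝ} (ha : 0 ≤ a)
    (ht : 0 ≤ t) (hk : ∀ β A, ∀ p ∈ S β A, ∀ η, (2 * t + 3) * |φ β A p η| ≤ θ0) (hB : ∀ β A η, ∑ p ∈ S β A, φ β A p η ^ 2 ≤ Bq)
    {Y Y2 Y' : Type*} [DecidableEq Y] [DecidableEq Y2] [DecidableEq Y'] (p : Px Q → Y2) {g u : Env × Finset ℕ → Px Q → ℝ}
    (mg : ∀ S, Measurable fun ω => g ω S) (mu : ∀ S, Measurable fun ω => u ω S) (Cb : K × K → Env × Finset ℕ → Px Q → ℝ)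
    (hsh : ∀ β ω, wm μ s N Q (Sh (S β ω.2) (φ β ω.2) ω.1, ω.2) = wm μ s N Q ω + Cb β ω)
    (hgsh : ∀ β ω, g (Sh (S β ω.2) (φ β ω.2) ω.1, ω.2) = g ω)
    {D : ℝ} (hC : ∀ β ω x, |Cb β ω x| ≤ D) (hu : ∀ ω x, |u ω x| ≤ D) {κ' : Type*} {J : Finset κ'} {θ : κ' → ℝ}
    (hθ0 : ∀ m ∈ J, 0 ≤ θ m) (hθ : ∑ m ∈ J, θ m = 1) {pm : κ' → Px Q → Y'} (hp : ∀ m ∈ J, Crs p (pm m)) {δ q τ : ℝ}
    (hτ : 0 < τ) (hδ : 0 ≤ δ) (hq : 12 * δ / τ ≤ q * Real.exp (-(2 * D))) (out : K × K → Px Q → Prop)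
    (hR : ∀ β ω x, ¬ out β x → |(u ω - Cb β ω) x| = 2 * dv (wm μ s N Q ω) J θ pm (g ω) x) (p' pk' : Px Q → Y)
    {cls NMA : Px Q → Px Q → ℝ} (hc0 : ∀ x y, 0 ≤ cls x y) (hc1 : ∀ x y, cls x y ≤ 1) (hn0 : ∀ x y, 0 ≤ NMA x y)
    (hn1 : ∀ x y, NMA x y ≤ 1) :
    ∑ β ∈ I ×ˢ I, ∫ ω, (if q < gm (wm μ s N Q ω + Cb β ω) (bd (u ω - Cb β ω) τ) then (1 : ℝ) else 0) *
        (rb (wm μ s N Q ω + u ω) p' pk' cls bx β NMA + rb (wm μ s N Q ω + Cb β ω) p' pk' cls bx β NMA) ∂(Pm μ N) ≤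
      ∫ ω, RBs (wm μ s N Q ω + u ω) p (g ω) out (δ * Real.exp (-(4 * D))) (q * Real.exp (-(4 * D)) / 3) p' pk' cls bx I NMA ∂(Pm μ N) +
        (Real.exp a * ∫ ω, RBs (wm μ s N Q ω) p (g ω) out (δ * Real.exp (-(4 * D))) (q * Real.exp (-(4 * D)) / 3) p' pk' cls bx I NMA
            ∂(Pm μ N) +
          (I.card : ℝ) ^ 2 * (4 * Real.exp (-(t * a)) * Real.exp (Cc * ((2 * t + 3) ^ 2 + 1) * Bq))) := by
  classical
  set δ' := δ * Real.exp (-(4 * D)) with hδ'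
  set q' := q * Real.exp (-(4 * D)) / 3 with hq'
  have mw : ∀ S, Measurable fun ω => wm μ s N Q ω S := fun S => meas_wm S
  have mwu : ∀ S, Measurable fun ω => (wm μ s N Q ω + u ω) S := fun S => (mw S).add (mu S)
  -- the functional at the corner
  set F : K × K → Env × Finset ℕ → ℝ := fun β ω => RBb (wm μ s N Q ω) p (g ω) (out β) δ' q' p' pk' cls bx β NMA with hF
  set G : K × K → Env × Finset ℕ → ℝ := fun β ω => RBb (wm μ s N Q ω + u ω) p (g ω) (out β) δ' q' p' pk' cls bx β NMA with hG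
  have mF : ∀ β, Measurable (F β) := fun β => meas_RBb mw mg p (out β) δ' q' p' pk' cls NMA bx β
  have mG : ∀ β, Measurable (G β) := fun β => meas_RBb mwu mg p (out β) δ' q' p' pk' cls NMA bx β
  have F0 : ∀ β ω, 0 ≤ F β ω := fun β ω => RBb_nonneg _ _ _ _ _ _ _ _ hc0 hn0 _ _
  have F1 : ∀ β ω, F β ω ≤ 1 := fun β ω => RBb_le_one _ _ _ _ _ _ _ _ hc0 hc1 hn0 hn1 _ _
  have G0 : ∀ β ω, 0 ≤ G β ω := fun β ω => RBb_nonneg _ _ _ _ _ _ _ _ hc0 hn0 _ _
  have G1 : ∀ β ω, G β ω ≤ 1 := fun β ω => RBb_le_one _ _ _ _ _ _ _ _ hc0 hc1 hn0 hn1 _ _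
  have hFsh : ∀ β ω, F β (Sh (S β ω.2) (φ β ω.2) ω.1, ω.2) =
      RBb (wm μ s N Q ω + Cb β ω) p (g ω) (out β) δ' q' p' pk' cls bx β NMA := fun β ω => by
    show RBb (wm μ s N Q (Sh (S β ω.2) (φ β ω.2) ω.1, ω.2)) p (g (Sh (S β ω.2) (φ β ω.2) ω.1, ω.2)) _ _ _ _ _ _ _ _ _ = _
    rw [hsh, hgsh]
  have mSh : ∀ β, Measurable fun ω : Env × Finset ℕ => F β (Sh (S β ω.2) (φ β ω.2) ω.1, ω.2) := fun β => by
    refine meas_om fun A => ?_
    exact (mF β).comp ((meas_pair A).comp (Sh_meas (hm β A)))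
  have step : ∀ β ∈ I ×ˢ I, ∫ ω, (if q < gm (wm μ s N Q ω + Cb β ω) (bd (u ω - Cb β ω) τ) then (1 : ℝ) else 0) *
        (rb (wm μ s N Q ω + u ω) p' pk' cls bx β NMA + rb (wm μ s N Q ω + Cb β ω) p' pk' cls bx β NMA) ∂(Pm μ N) ≤
      ∫ ω, G β ω ∂(Pm μ N) + ∫ ω, F β (Sh (S β ω.2) (φ β ω.2) ω.1, ω.2) ∂(Pm μ N) := by
    intro β _
    have iG : Integrable (G β) (Pm μ N) := int_bdd (M := 1) (mG β) fun ω => by
      rw [abs_of_nonneg (G0 β ω)]
      exact G1 β ω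
    have iF : Integrable (fun ω : Env × Finset ℕ => F β (Sh (S β ω.2) (φ β ω.2) ω.1, ω.2)) (Pm μ N) :=
      int_bdd (M := 1) (mSh β) fun ω => by
        rw [abs_of_nonneg (F0 β _)]
        exact F1 β _
    rw [← integral_add iG iF]
    refine integral_mono_of_nonneg (Filter.Eventually.of_forall fun ω => ?_) (iG.add iF) (Filter.Eventually.of_forall fun ω => ?_)
    · exact mul_nonneg (by split_ifs <;> norm_num) (add_nonneg (rb_nonneg _ _ _ hc0 hn0 _ _) (rb_nonneg _ _ _ hc0 hn0 _ _))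
    · have h1 := term52 (w := wm μ s N Q ω) (C := Cb β ω) (u := u ω) (hC β ω) (hu ω) hθ0 hθ hp hτ hδ hq (hR β ω) p' pk' hc0 hn0 bx β
      show _ ≤ G β ω + F β (Sh (S β ω.2) (φ β ω.2) ω.1, ω.2)
      rw [hFsh β ω]
      exact h1
  have hq1 := q1_sum (μ := μ) (N := N) (T := I ×ˢ I) hW ρ S φ hm hc ha ht hk hB mF (D := 1) F0 F1
  have hsumG : ∑ β ∈ I ×ˢ I, ∫ ω, G β ω ∂(Pm μ N) =
      ∫ ω, RBs (wm μ s N Q ω + u ω) p (g ω) out δ' q' p' pk' cls bx I NMA ∂(Pm μ N) := by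
    unfold RBs
    rw [integral_finsetSum _ fun β _ => int_bdd (M := 1) (mG β) fun ω => by
      rw [abs_of_nonneg (G0 β ω)]
      exact G1 β ω]
  have hcard : ((I ×ˢ I).card : ℝ) = (I.card : ℝ) ^ 2 := by
    rw [card_product]
    push_cast
    ring
  calc _ ≤ ∑ β ∈ I ×ˢ I, (∫ ω, G β ω ∂(Pm μ N) + ∫ ω, F β (Sh (S β ω.2) (φ β ω.2) ω.1, ω.2) ∂(Pm μ N)) := sum_le_sum step
    _ = ∑ β ∈ I ×ˢ I, ∫ ω, G β ω ∂(Pm μ N) + ∑ β ∈ I ×ˢ I, ∫ ω, F β (Sh (S β ω.2) (φ β ω.2) ω.1, ω.2) ∂(Pm μ N) := sum_add_distrib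
    _ ≤ _ := by
      rw [hsumG]
      refine add_le_add le_rfl (hq1.trans (le_of_eq ?_))
      rw [hcard, mul_one]
      rfl

end Model

end

end Pool.W7d29a1.C0.GSB52
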