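import Pool.Agent.W_7d29a1_C0.E4T32
import Pool.Agent.W_7d29a1_C0.Mod92C

/-!
MP_7d29a1_pr, [CURV0], GS (helper32): THE SQUARE OF THE LOSS `Dt` OF THE CHANGE `σ → m σ` UNDER AN OUTER KERNEL, NEAR AND FAR PAIRS.

`Vn ω j = cV_(B' j) (cE_(B j) g_j)`, `Dt = ∑ Gb = ∑_j (a_j / 3) V_j` (`Dt_eq`), `Gs = cE_J Dt`. For an outer kernel `K y z ≥ 0` (after the
strip: `K = NI c al + NI be d`) which does not look inside of the blocks `B'`:
`gm2 (K Dt ^ 2) ≤ (h M ^ 4 4 / 9) ∑_j OK_j + ∑_j (a_j / 3) gm2 (K (V_j Df_j))`, `Df_j` = the part of `Dt` at the distance at least `h` of `j`,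
`OK_j = gm2 (K y z * cE_(B' j) (NM_j y .) y)` (outer kernel times inner non meeting, one base path `y`). `near_int`: the averaged form.
-/

set_option autoImplicit false
set_option linter.unusedSectionVars false

namespace Pool.Agent.W_7d29a1_C0.Near32

open Finset MeasureTheory Pool.Agent.W_7d29a1_F Pool.Agent.W_7d29a1_X Pool.Agent.W_7d29a1_C0.Mod92
open Pool.W7d29a1.C0 (gz gm lse gz_pos gz_ne gm_nonneg gm_mono gm_const)
open Pool.W7d29a1.C0.VT31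
open Pool.Agent.W_7d29a1_C0.Swap57 Pool.Agent.W_7d29a1_C0.E4T32

noncomputable section

section Abs

variable {X : Type*} [Fintype X] [Nonempty X]

theorem gm_sum' (w : X → ℝ) {ι : Type*} (R : Finset ι) (f : ι → X → ℝ) : gm w (fun y => ∑ j ∈ R, f j y) = ∑ j ∈ R, gm w (f j) := by
  unfold gm
  rw [← sum_div, sum_comm]
  congr 1
  refine sum_congr rfl fun x _ => ?_
  rw [mul_sum]

theorem gm2_sum (w : X → ℝ) {ι : Type*} (R : Finset ι) (f : ι → X → X → ℝ) :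
    gm2 w (fun y z => ∑ j ∈ R, f j y z) = ∑ j ∈ R, gm2 w (f j) := by
  unfold gm2
  rw [← gm_sum']
  congr 1
  funext y
  rw [← gm_sum']

/-- The square of a sum under a kernel. -/
theorem gm2_sq_sum (w : X → ℝ) (K : X → X → ℝ) {ι : Type*} (R : Finset ι) (V : ι → X → ℝ) :
    gm2 w (fun y z => K y z * (∑ j ∈ R, V j y) ^ 2) = ∑ j ∈ R, ∑ k ∈ R, gm2 w (fun y z => K y z * (V j y * V k y)) := by
  have e : (fun y z => K y z * (∑ j ∈ R, V j y) ^ 2) = fun y z => ∑ j ∈ R, ∑ k ∈ R, K y z * (V j y * V k y) := by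
    funext y z
    rw [sq, sum_mul_sum, mul_sum]
    exact sum_congr rfl fun j _ => mul_sum _ _ _
  rw [e, gm2_sum]
  exact sum_congr rfl fun j _ => gm2_sum _ _ _

theorem abs_gm2_le (w : X → ℝ) {K K' : X → X → ℝ} (h : ∀ y z, |K y z| ≤ K' y z) : |gm2 w K| ≤ gm2 w K' := by
  rw [abs_le]
  constructor
  · have e : gm2 w (fun y z => (-1) * K' y z) ≤ gm2 w K := gm2_mono' fun y z => by linarith [neg_abs_le (K y z), h y z]
    rw [gm2_smul'] at e
    linarith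
  · exact gm2_mono' fun y z => (le_abs_self _).trans (h y z)

end Abs

/-! ### Paths -/

section Model

variable {μ : Measure ℝ} {s : ℝ} {N : ℕ} {Q : Finset (Finset ℕ)} [Nonempty (Px Q)] [SwQ Q]

/-- The outer kernel times the inner non meeting, told from the base replica `y`: the inner competitor given the outside of `B'`. -/
def OK (w : Px Q → ℝ) (K : Px Q → Px Q → ℝ) (c1 c2 al be d2 d1 : ℕ) : ℝ :=
  gm2 w fun y z => K y z * cE w (pJ c1 d1) (NM c2 al be d2 y) y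

omit [SwQ Q] in
theorem OK_nonneg {w : Px Q → ℝ} {K : Px Q → Px Q → ℝ} (hK : ∀ y z, 0 ≤ K y z) (c1 c2 al be d2 d1 : ℕ) :
    0 ≤ OK w K c1 c2 al be d2 d1 := by
  have e := gm2_mono' (w := w) (K := fun _ _ => 0) (K' := fun y z => K y z * cE w (pJ c1 d1) (NM c2 al be d2 y) y)
    fun y z => mul_nonneg (hK y z) (cE_nonneg w _ (fun z => NM_nonneg _ _ _ _ y z) y)
  refine le_trans (le_of_eq ?_) e
  show (0 : ℝ) = gm w fun _ => gm w fun _ => 0
  rw [gm_const, gm_const]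

variable {c1 c2 al be d2 d1 : ℕ} {w : Px Q → ℝ} {g : Px Q → ℝ} {M : ℝ} {K : Px Q → Px Q → ℝ}

/-- **One pair, price only.** -/
theorem pair_le (hK : ∀ y z, 0 ≤ K y z) (hKp : ∀ z, Mp (pJ c1 d1) fun y => K y z) (h1 : c1 ≤ c2) (h3 : d2 ≤ d1) (hab : al ≤ be)
    (hw : Wk c2 al be d2 w) (hg : Lk al be g) (hM : ∀ S, |g S| ≤ M) {H' : Px Q → ℝ} (hH' : ∀ S, |H' S| ≤ M ^ 2) :
    |gm2 w (fun y z => K y z * (HB w c1 d1 c2 d2 g y * H' y))| ≤ 2 * M ^ 4 * OK w K c1 c2 al be d2 d1 := by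
  have k1 : |gm2 w (fun y z => K y z * (HB w c1 d1 c2 d2 g y * H' y))| ≤
      gm2 w (fun y z => 2 * M ^ 4 * (K y z * cE2 w (pJ c1 d1) (NM c2 al be d2) y y)) := by
    refine abs_gm2_le w fun y z => ?_
    have a1 := HB_le_NM (c1 := c1) (d1 := d1) h1 h3 hab hw hg hM y
    have a2 : 0 ≤ HB w c1 d1 c2 d2 g y := HB_nonneg y
    have a3 : 0 ≤ cE2 w (pJ c1 d1) (NM c2 al be d2) y y := cE2_nonneg w _ (NM_nonneg _ _ _ _) y y
    rw [abs_mul, abs_mul, abs_of_nonneg (hK y z), abs_of_nonneg a2]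
    calc K y z * (HB w c1 d1 c2 d2 g y * |H' y|)
        ≤ K y z * ((2 * M ^ 2 * cE2 w (pJ c1 d1) (NM c2 al be d2) y y) * M ^ 2) := by
          refine mul_le_mul_of_nonneg_left ?_ (hK y z)
          exact mul_le_mul a1 (hH' y) (abs_nonneg _) (by positivity)
      _ = _ := by ring
  rw [gm2_smul', gm2_cE2_diag w hKp] at k1
  exact k1

/-! ### The loss of the change of `σ` -/

/-- `V_j = cV_(B' j) (cE_(B j) g_j)`, `B j`, `B' j` the blocks of length `σ`, `m σ` of the grid which contain `j`. -/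
def Vn (μ : Measure ℝ) (s : ℝ) (N : ℕ) (Q : Finset (Finset ℕ)) (δ B : ℝ) (b σ m : ℕ) (ω : Env × Finset ℕ) (j : ℕ) : Px Q → ℝ :=
  HB (wm μ s N Q ω) (j / (m * σ) * (m * σ)) (j / (m * σ) * (m * σ) + m * σ) (j / σ * σ) (j / σ * σ + σ) (gg μ s Q δ B b ω j)

/-- The loss seen from inside: `Gs = cE_J Dt`. -/
def Dt (μ : Measure ℝ) (s : ℝ) (N : ℕ) (Q : Finset (Finset ℕ)) (δ B : ℝ) (b σ m : ℕ) (R : Finset ℕ) (c d : ℕ)
    (ω : Env × Finset ℕ) : Px Q → ℝ :=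
  ∑ k ∈ Ico (c / (m * σ)) (d / (m * σ)), Gb μ s N Q δ B b σ m R k ω

omit [Nonempty (Px Q)] [SwQ Q] in
theorem Gs_eq (δ B : ℝ) (b σ m : ℕ) (R : Finset ℕ) (c d : ℕ) (ω : Env × Finset ℕ) :
    Gs μ s N Q δ B b σ m R c d ω = cE (wm μ s N Q ω) (pJ c d) (Dt μ s N Q δ B b σ m R c d ω) := rfl

theorem sum_Rw {A : Type*} [AddCommMonoid A] (R : Finset ℕ) (σ : ℕ) (f : ℕ → A) {a b : ℕ} (hab : a ≤ b) :
    ∑ i ∈ Ico a b, ∑ j ∈ Rw R (i * σ) ((i + 1) * σ), f j = ∑ j ∈ Rw R (a * σ) (b * σ), f j := by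
  induction b, hab using Nat.le_induction with
  | base =>
    rw [Ico_self, sum_empty]
    unfold Rw
    rw [Ico_self, inter_empty, sum_empty]
  | succ b hab ih =>
    rw [sum_Ico_succ_top hab, ih]
    have h1 : Rw R (a * σ) ((b + 1) * σ) = Rw R (a * σ) (b * σ) ∪ Rw R (b * σ) ((b + 1) * σ) := by
      unfold Rw
      rw [← inter_union_distrib_left, Ico_union_Ico_eq_Ico (Nat.mul_le_mul_right σ hab) (Nat.mul_le_mul_right σ (Nat.le_succ b))]
    have h2 : Disjoint (Rw R (a * σ) (b * σ)) (Rw R (b * σ) ((b + 1) * σ)) := by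
      unfold Rw
      refine disjoint_of_subset_left inter_subset_right (disjoint_of_subset_right inter_subset_right ?_)
      exact Ico_disjoint_Ico_consecutive _ _ _
    rw [h1, sum_union h2]

omit [Nonempty (Px Q)] [SwQ Q] in
/-- **The loss as a sum over the kicked rows.** -/
theorem Dt_eq (δ B : ℝ) (b : ℕ) {σ m : ℕ} (hσ : 0 < σ) (hm : 0 < m) (R : Finset ℕ) {c d : ℕ} (hcd : c ≤ d) (hc : m * σ ∣ c)
    (hd : m * σ ∣ d) (ω : Env × Finset ℕ) :
    Dt μ s N Q δ B b σ m R c d ω = ∑ j ∈ Rw R c d, (sr ω.2 j / 3) • Vn μ s N Q δ B b σ m ω j := by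
  obtain ⟨c', rfl⟩ := hc
  obtain ⟨d', rfl⟩ := hd
  have hp : 0 < m * σ := Nat.mul_pos hm hσ
  have hcd' : c' ≤ d' := Nat.le_of_mul_le_mul_left hcd hp
  unfold Dt
  rw [Nat.mul_div_cancel_left _ hp, Nat.mul_div_cancel_left _ hp]
  have h1 : ∀ k, Gb μ s N Q δ B b σ m R k ω = ∑ j ∈ Rw R (k * (m * σ)) ((k + 1) * (m * σ)), (sr ω.2 j / 3) • Vn μ s N Q δ B b σ m ω j := by
    intro k
    have h2 := sum_Rw R σ (fun j => (sr ω.2 j / 3) • Vn μ s N Q δ B b σ m ω j) (Nat.mul_le_mul_right m (Nat.le_succ k))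
    have e1 : k * (m * σ) = k * m * σ := (Nat.mul_assoc _ _ _).symm
    have e2 : (k + 1) * (m * σ) = (k + 1) * m * σ := (Nat.mul_assoc _ _ _).symm
    rw [e1, e2, ← h2]
    unfold Gb Gam
    refine sum_congr rfl fun i hi => sum_congr rfl fun j hj => ?_
    unfold Rw at hj
    rw [mem_inter, mem_Ico] at hj
    rw [mem_Ico] at hi
    have e3 : j / σ = i := by
      rw [Nat.div_eq_iff hσ]
      constructor
      · omega
      · have := hj.2.2
        rw [Nat.add_mul, Nat.one_mul] at this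
        omega
    have e4 : j / (m * σ) = k := by
      rw [Nat.mul_comm m σ, ← Nat.div_div_eq_div_mul, e3, Nat.div_eq_iff hm]
      constructor
      · omega
      · have := hi.2
        rw [Nat.succ_mul] at this
        omega
    unfold Vn HB
    rw [e3, e4, Nat.add_mul, Nat.add_mul, Nat.one_mul, Nat.one_mul]
  rw [sum_congr rfl fun k _ => h1 k, sum_Rw R (m * σ) _ hcd', Nat.mul_comm c', Nat.mul_comm d']

/-- The rows at the distance at least `h` of `j`. -/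
def Fa (R : Finset ℕ) (h j : ℕ) : Finset ℕ := R.filter fun k => ¬(j < k + h ∧ k < j + h)

/-- The part of the loss at the distance at least `h` of `j`. -/
def Df (μ : Measure ℝ) (s : ℝ) (N : ℕ) (Q : Finset (Finset ℕ)) (δ B : ℝ) (b σ m : ℕ) (R : Finset ℕ) (c d h : ℕ)
    (ω : Env × Finset ℕ) (j : ℕ) : Px Q → ℝ :=
  ∑ k ∈ Fa (Rw R c d) h j, (sr ω.2 k / 3) • Vn μ s N Q δ B b σ m ω k

omit [SwQ Q] in
theorem Vn_nonneg (δ B : ℝ) (b σ m : ℕ) (ω : Env × Finset ℕ) (j : ℕ) (S : Px Q) : 0 ≤ Vn μ s N Q δ B b σ m ω j S := HB_nonneg S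

omit [SwQ Q] in
theorem Vn_le {δ B : ℝ} (hB : 0 ≤ B) (b σ m : ℕ) (ω : Env × Finset ℕ) (j : ℕ) (S : Px Q) :
    Vn μ s N Q δ B b σ m ω j S ≤ (B / 2) ^ 2 := HB_le (fun S => abs_gg hB b ω j S) S

omit [SwQ Q] in
theorem abs_Vn {δ B : ℝ} (hB : 0 ≤ B) (b σ m : ℕ) (ω : Env × Finset ℕ) (j : ℕ) (S : Px Q) :
    |Vn μ s N Q δ B b σ m ω j S| ≤ (B / 2) ^ 2 := by
  rw [abs_of_nonneg (Vn_nonneg _ _ _ _ _ _ _ _)]
  exact Vn_le hB b σ m ω j S

omit [Nonempty (Px Q)] [SwQ Q] in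
theorem meas_Vn (δ B : ℝ) (b σ m j : ℕ) (S : Px Q) : Measurable fun ω => Vn μ s N Q δ B b σ m ω j S :=
  meas_cV meas_wm (fun S => meas_cE meas_wm (fun S => meas_gg δ B b j S) _ S) _ S

/-- The blocks of the grid. -/
theorem grid {σ m : ℕ} (hσ : 0 < σ) (hm : 0 < m) (j : ℕ) : j / (m * σ) * (m * σ) ≤ j / σ * σ ∧
    j / σ * σ + σ ≤ j / (m * σ) * (m * σ) + m * σ := by
  have e : j / (m * σ) = j / σ / m := by rw [Nat.mul_comm m σ, Nat.div_div_eq_div_mul]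
  rw [e]
  have h1 : j / σ / m * m ≤ j / σ := Nat.div_mul_le_self _ _
  have h2 : j / σ < j / σ / m * m + m := by
    have := Nat.lt_div_mul_add (a := j / σ) hm
    exact this
  constructor
  · calc j / σ / m * (m * σ) = j / σ / m * m * σ := (Nat.mul_assoc _ _ _).symm
      _ ≤ j / σ * σ := Nat.mul_le_mul_right _ h1
  · calc j / σ * σ + σ = (j / σ + 1) * σ := by ring
      _ ≤ (j / σ / m * m + m) * σ := Nat.mul_le_mul_right _ h2
      _ = j / σ / m * (m * σ) + m * σ := by ring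

/-- The outer kernel times the inner non meeting of the row `j`; the window of `j` is `[j - b, j + b)`. -/
def OKj (μ : Measure ℝ) (s : ℝ) (N : ℕ) (Q : Finset (Finset ℕ)) (K : Px Q → Px Q → ℝ) (b σ m : ℕ) (ω : Env × Finset ℕ) (j : ℕ) : ℝ :=
  OK (wm μ s N Q ω) K (j / (m * σ) * (m * σ)) (j / σ * σ) (j - b) (j + b) (j / σ * σ + σ) (j / (m * σ) * (m * σ) + m * σ)

/-- **NEAR AND FAR PAIRS** at a fixed environment. -/
theorem near_le {δ B : ℝ} (hB : 0 ≤ B) (b : ℕ) {σ m : ℕ} (hσ : 0 < σ) (hm : 0 < m) (R : Finset ℕ) {c d : ℕ} (hcd : c ≤ d)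
    (hc : m * σ ∣ c) (hd : m * σ ∣ d) (h : ℕ) (ω : Env × Finset ℕ) (hK : ∀ y z, 0 ≤ K y z)
    (hKp : ∀ j ∈ Rw R c d, ∀ z, Mp (pJ (j / (m * σ) * (m * σ)) (j / (m * σ) * (m * σ) + m * σ)) fun y => K y z) :
    gm2 (wm μ s N Q ω) (fun y z => K y z * (Dt μ s N Q δ B b σ m R c d ω y) ^ 2) ≤
      h * B ^ 4 / 36 * ∑ j ∈ Rw R c d, OKj μ s N Q K b σ m ω j +
        ∑ j ∈ Rw R c d, sr ω.2 j / 3 *
          gm2 (wm μ s N Q ω) (fun y z => K y z * (Vn μ s N Q δ B b σ m ω j y * Df μ s N Q δ B b σ m R c d h ω j y)) := by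
  have e0 : (fun y z => K y z * (Dt μ s N Q δ B b σ m R c d ω y) ^ 2) =
      fun y z => K y z * (∑ j ∈ Rw R c d, sr ω.2 j / 3 * Vn μ s N Q δ B b σ m ω j y) ^ 2 := by
    funext y z
    rw [Dt_eq δ B b hσ hm R hcd hc hd ω, Finset.sum_apply]
    rfl
  rw [e0, gm2_sq_sum, mul_sum, ← sum_add_distrib]
  refine sum_le_sum fun j hj => ?_
  rw [← sum_filter_add_sum_filter_not (Rw R c d) (fun k => j < k + h ∧ k < j + h)]
  refine add_le_add ?_ (le_of_eq ?_)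
  · have hcard : (((Rw R c d).filter fun k => j < k + h ∧ k < j + h).card : ℝ) ≤ 2 * h := by
      have h1 : ((Rw R c d).filter fun k => j < k + h ∧ k < j + h) ⊆ Ico (j + 1 - h) (j + h) := by
        intro k hk
        rw [mem_filter] at hk
        rw [mem_Ico]
        omega
      have h2 := card_le_card h1
      rw [Nat.card_Ico] at h2
      have h3 : ((Rw R c d).filter fun k => j < k + h ∧ k < j + h).card ≤ 2 * h := h2.trans (by omega)
      exact_mod_cast h3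
    have hOK : 0 ≤ OKj μ s N Q K b σ m ω j := OK_nonneg hK _ _ _ _ _ _
    have hterm : ∀ k ∈ (Rw R c d).filter (fun k => j < k + h ∧ k < j + h),
        gm2 (wm μ s N Q ω) (fun y z => K y z * (sr ω.2 j / 3 * Vn μ s N Q δ B b σ m ω j y * (sr ω.2 k / 3 * Vn μ s N Q δ B b σ m ω k y))) ≤
          B ^ 4 / 72 * OKj μ s N Q K b σ m ω j := by
      intro k _
      have e1 : (fun y z => K y z * (sr ω.2 j / 3 * Vn μ s N Q δ B b σ m ω j y * (sr ω.2 k / 3 * Vn μ s N Q δ B b σ m ω k y))) =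
          fun y z => sr ω.2 j * sr ω.2 k / 9 * (K y z * (Vn μ s N Q δ B b σ m ω j y * Vn μ s N Q δ B b σ m ω k y)) := by
        funext y z
        ring
      rw [e1, gm2_smul']
      have hg := grid hσ hm j
      have e2 := pair_le (w := wm μ s N Q ω) (K := K) (c1 := j / (m * σ) * (m * σ)) (d1 := j / (m * σ) * (m * σ) + m * σ)
        (c2 := j / σ * σ) (d2 := j / σ * σ + σ) (al := j - b) (be := j + b) (g := gg μ s Q δ B b ω j) (M := B / 2)
        hK (hKp j hj) hg.1 hg.2 (by omega) (Wk_lw ω.1 (by omega)) (Lk_gg δ B b j ω le_rfl le_rfl) (fun S => abs_gg hB b ω j S)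
        (H' := Vn μ s N Q δ B b σ m ω k) (fun S => abs_Vn hB b σ m ω k S)
      have e3 : |sr ω.2 j * sr ω.2 k / 9| = 1 / 9 := by
        rw [abs_div, abs_mul, abs_sr, abs_sr]
        norm_num
      refine (le_abs_self _).trans ?_
      rw [abs_mul, e3]
      have e4 : |gm2 (wm μ s N Q ω) (fun y z => K y z * (Vn μ s N Q δ B b σ m ω j y * Vn μ s N Q δ B b σ m ω k y))| ≤
          2 * (B / 2) ^ 4 * OKj μ s N Q K b σ m ω j := e2
      calc 1 / 9 * |gm2 (wm μ s N Q ω) (fun y z => K y z * (Vn μ s N Q δ B b σ m ω j y * Vn μ s N Q δ B b σ m ω k y))|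
          ≤ 1 / 9 * (2 * (B / 2) ^ 4 * OKj μ s N Q K b σ m ω j) := by linarith
        _ = _ := by ring
    refine (sum_le_card_nsmul _ _ _ hterm).trans ?_
    rw [nsmul_eq_mul]
    calc (((Rw R c d).filter fun k => j < k + h ∧ k < j + h).card : ℝ) * (B ^ 4 / 72 * OKj μ s N Q K b σ m ω j)
        ≤ 2 * h * (B ^ 4 / 72 * OKj μ s N Q K b σ m ω j) := mul_le_mul_of_nonneg_right hcard (by positivity)
      _ = _ := by ring
  · have e1 : (fun y z => K y z * (Vn μ s N Q δ B b σ m ω j y * Df μ s N Q δ B b σ m R c d h ω j y)) =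
        fun y z => ∑ k ∈ Fa (Rw R c d) h j, K y z * (Vn μ s N Q δ B b σ m ω j y * (sr ω.2 k / 3 * Vn μ s N Q δ B b σ m ω k y)) := by
      funext y z
      unfold Df
      rw [Finset.sum_apply, mul_sum, mul_sum]
      rfl
    rw [e1, gm2_sum, mul_sum]
    unfold Fa
    refine sum_congr rfl fun k _ => ?_
    rw [← gm2_smul']
    congr 1
    funext y z
    ring

/-! ### Measurability, the averaged form -/

omit [SwQ Q] [Nonempty (Px Q)] in
theorem meas_gm2 {K : Env × Finset ℕ → Px Q → Px Q → ℝ} (hK : ∀ y z, Measurable fun ω => K ω y z) :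
    Measurable fun ω => gm2 (wm μ s N Q ω) (K ω) :=
  meas_gm meas_wm fun y => meas_gm meas_wm fun z => hK y z

omit [SwQ Q] in
theorem abs_gm2_of {w : Px Q → ℝ} {K : Px Q → Px Q → ℝ} {C : ℝ} (h : ∀ y z, |K y z| ≤ C) : |gm2 w K| ≤ C := by
  have e := abs_gm2_le w (K' := fun _ _ => C) h
  refine e.trans (le_of_eq ?_)
  show (gm w fun _ => gm w fun _ => C) = C
  rw [gm_const, gm_const]

omit [Nonempty (Px Q)] [SwQ Q] in
theorem meas_Df (δ B : ℝ) (b σ m : ℕ) (R : Finset ℕ) (c d h j : ℕ) (S : Px Q) :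
    Measurable fun ω => Df μ s N Q δ B b σ m R c d h ω j S := by
  unfold Df
  simp only [Finset.sum_apply, Pi.smul_apply, smul_eq_mul]
  exact Finset.measurable_fun_sum _ fun k _ => ((meas_sr k).div_const 3).mul (meas_Vn δ B b σ m k S)

omit [Nonempty (Px Q)] [SwQ Q] in
theorem meas_Dt (δ B : ℝ) (b : ℕ) {σ m : ℕ} (hσ : 0 < σ) (hm : 0 < m) (R : Finset ℕ) {c d : ℕ} (hcd : c ≤ d) (hc : m * σ ∣ c)
    (hd : m * σ ∣ d) (S : Px Q) : Measurable fun ω => Dt μ s N Q δ B b σ m R c d ω S := by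
  have e : (fun ω => Dt μ s N Q δ B b σ m R c d ω S) = fun ω => ∑ j ∈ Rw R c d, sr ω.2 j / 3 * Vn μ s N Q δ B b σ m ω j S := by
    funext ω
    rw [Dt_eq δ B b hσ hm R hcd hc hd ω, Finset.sum_apply]
    rfl
  rw [e]
  exact Finset.measurable_fun_sum _ fun k _ => ((meas_sr k).div_const 3).mul (meas_Vn δ B b σ m k S)

omit [SwQ Q] in
theorem abs_sumV {δ B : ℝ} (hB : 0 ≤ B) (b σ m : ℕ) (R' : Finset ℕ) (ω : Env × Finset ℕ) (S : Px Q) :
    |∑ j ∈ R', sr ω.2 j / 3 * Vn μ s N Q δ B b σ m ω j S| ≤ R'.card * ((B / 2) ^ 2 / 3) := by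
  refine (abs_sum_le_sum_abs _ _).trans ?_
  rw [← nsmul_eq_mul]
  refine sum_le_card_nsmul _ _ _ fun j _ => ?_
  have e1 := abs_Vn (μ := μ) (s := s) (N := N) (δ := δ) hB b σ m ω j S
  rw [abs_mul, abs_div, abs_sr, abs_of_pos (by norm_num : (0 : ℝ) < 3)]
  linarith

omit [SwQ Q] in
theorem abs_Df {δ B : ℝ} (hB : 0 ≤ B) (b σ m : ℕ) (R : Finset ℕ) (c d h : ℕ) (ω : Env × Finset ℕ) (j : ℕ) (S : Px Q) :
    |Df μ s N Q δ B b σ m R c d h ω j S| ≤ (Rw R c d).card * ((B / 2) ^ 2 / 3) := by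
  unfold Df
  rw [Finset.sum_apply]
  refine (abs_sumV hB b σ m _ ω S).trans (mul_le_mul_of_nonneg_right ?_ (by positivity))
  exact_mod_cast card_le_card (filter_subset _ _)

omit [SwQ Q] in
theorem abs_Dt {δ B : ℝ} (hB : 0 ≤ B) (b : ℕ) {σ m : ℕ} (hσ : 0 < σ) (hm : 0 < m) (R : Finset ℕ) {c d : ℕ} (hcd : c ≤ d)
    (hc : m * σ ∣ c) (hd : m * σ ∣ d) (ω : Env × Finset ℕ) (S : Px Q) :
    |Dt μ s N Q δ B b σ m R c d ω S| ≤ (Rw R c d).card * ((B / 2) ^ 2 / 3) := by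
  rw [Dt_eq δ B b hσ hm R hcd hc hd ω, Finset.sum_apply]
  exact abs_sumV hB b σ m _ ω S

omit [SwQ Q] in
theorem meas_OK (c1 c2 al be d2 d1 : ℕ) : Measurable fun ω => OK (wm μ s N Q ω) K c1 c2 al be d2 d1 := by
  unfold OK
  refine meas_gm2 fun y z => Measurable.const_mul ?_ _
  exact meas_cE (w := wm μ s N Q) (f := fun _ => NM c2 al be d2 y) meas_wm (fun S => measurable_const) (pJ c1 d1) y

omit [SwQ Q] in
theorem abs_OK (hK : ∀ y z, 0 ≤ K y z) {CK : ℝ} (hK1 : ∀ y z, K y z ≤ CK) (c1 c2 al be d2 d1 : ℕ) :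
    |OK w K c1 c2 al be d2 d1| ≤ CK := by
  unfold OK
  refine abs_gm2_of fun y z => ?_
  have e1 := abs_cE_le w (pJ c1 d1) (f := NM c2 al be d2 y) (M := 1)
    (fun z => by rw [abs_of_nonneg (NM_nonneg _ _ _ _ _ _)]; exact NM_le_one _ _ _ _ _ _) y
  rw [abs_mul, abs_of_nonneg (hK y z)]
  calc K y z * |cE w (pJ c1 d1) (NM c2 al be d2 y) y| ≤ CK * 1 := mul_le_mul (hK1 y z) e1 (abs_nonneg _) ((hK y z).trans (hK1 y z))
    _ = CK := mul_one _

omit [SwQ Q] in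
theorem int_OKj [IsProbabilityMeasure μ] (hK : ∀ y z, 0 ≤ K y z) {CK : ℝ} (hK1 : ∀ y z, K y z ≤ CK) (b σ m j : ℕ) :
    Integrable (fun ω => OKj μ s N Q K b σ m ω j) (Pm μ N) :=
  int_bdd (meas_OK _ _ _ _ _ _) fun ω => abs_OK hK hK1 _ _ _ _ _ _

/-- **NEAR AND FAR PAIRS, averaged.** -/
theorem near_int [IsProbabilityMeasure μ] {δ B : ℝ} (hB : 0 ≤ B) (b : ℕ) {σ m : ℕ} (hσ : 0 < σ) (hm : 0 < m) (R : Finset ℕ) {c d : ℕ}
    (hcd : c ≤ d) (hc : m * σ ∣ c) (hd : m * σ ∣ d) (h : ℕ) (hK : ∀ y z, 0 ≤ K y z) {CK : ℝ} (hK1 : ∀ y z, K y z ≤ CK)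
    (hKp : ∀ j ∈ Rw R c d, ∀ z, Mp (pJ (j / (m * σ) * (m * σ)) (j / (m * σ) * (m * σ) + m * σ)) fun y => K y z) :
    ∫ ω, gm2 (wm μ s N Q ω) (fun y z => K y z * (Dt μ s N Q δ B b σ m R c d ω y) ^ 2) ∂(Pm μ N) ≤
      h * B ^ 4 / 36 * ∑ j ∈ Rw R c d, ∫ ω, OKj μ s N Q K b σ m ω j ∂(Pm μ N) +
        1 / 3 * ∑ j ∈ Rw R c d, ∫ ω, sr ω.2 j *
          gm2 (wm μ s N Q ω) (fun y z => K y z * (Vn μ s N Q δ B b σ m ω j y * Df μ s N Q δ B b σ m R c d h ω j y)) ∂(Pm μ N) := by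
  obtain ⟨A, hA⟩ : ∃ A : ℝ, A = (Rw R c d).card * ((B / 2) ^ 2 / 3) := ⟨_, rfl⟩
  have hA0 : 0 ≤ A := by
    rw [hA]
    positivity
  have i0 : Integrable (fun ω => gm2 (wm μ s N Q ω) (fun y z => K y z * (Dt μ s N Q δ B b σ m R c d ω y) ^ 2)) (Pm μ N) := by
    refine int_bdd (M := CK * A ^ 2) (meas_gm2 fun y z => ((meas_Dt δ B b hσ hm R hcd hc hd y).pow_const 2).const_mul _)
      fun ω => abs_gm2_of fun y z => ?_
    have e1 := abs_Dt (μ := μ) (s := s) (N := N) (δ := δ) hB b hσ hm R hcd hc hd ω y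
    rw [← hA] at e1
    rw [abs_mul, abs_of_nonneg (hK y z), abs_pow]
    exact mul_le_mul (hK1 y z) (pow_le_pow_left₀ (abs_nonneg _) e1 2) (by positivity) ((hK y z).trans (hK1 y z))
  have i1 : ∀ j, Integrable (fun ω => OKj μ s N Q K b σ m ω j) (Pm μ N) := fun j => int_OKj hK hK1 b σ m j
  have i2 : ∀ j, Integrable (fun ω => sr ω.2 j *
      gm2 (wm μ s N Q ω) (fun y z => K y z * (Vn μ s N Q δ B b σ m ω j y * Df μ s N Q δ B b σ m R c d h ω j y))) (Pm μ N) := fun j => by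
    refine int_bdd (M := 1 * (CK * ((B / 2) ^ 2 * A))) ((meas_sr j).mul (meas_gm2 fun y z =>
      ((meas_Vn δ B b σ m j y).mul (meas_Df δ B b σ m R c d h j y)).const_mul _)) fun ω => ?_
    rw [abs_mul, abs_sr]
    refine mul_le_mul_of_nonneg_left (abs_gm2_of fun y z => ?_) zero_le_one
    have e1 := abs_Df (μ := μ) (s := s) (N := N) (δ := δ) hB b σ m R c d h ω j y
    have e2 := abs_Vn (μ := μ) (s := s) (N := N) (δ := δ) hB b σ m ω j y
    rw [← hA] at e1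
    rw [abs_mul, abs_mul, abs_of_nonneg (hK y z)]
    exact mul_le_mul (hK1 y z) (mul_le_mul e2 e1 (abs_nonneg _) (by positivity)) (by positivity) ((hK y z).trans (hK1 y z))
  have e : (fun ω => gm2 (wm μ s N Q ω) (fun y z => K y z * (Dt μ s N Q δ B b σ m R c d ω y) ^ 2)) ≤ fun ω =>
      h * B ^ 4 / 36 * ∑ j ∈ Rw R c d, OKj μ s N Q K b σ m ω j + 1 / 3 * ∑ j ∈ Rw R c d, sr ω.2 j *
          gm2 (wm μ s N Q ω) (fun y z => K y z * (Vn μ s N Q δ B b σ m ω j y * Df μ s N Q δ B b σ m R c d h ω j y)) := fun ω => by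
    refine (near_le hB b hσ hm R hcd hc hd h ω hK hKp).trans (le_of_eq ?_)
    beta_reduce
    rw [mul_sum (Rw R c d) (fun j => sr ω.2 j * gm2 (wm μ s N Q ω) (fun y z => K y z * (Vn μ s N Q δ B b σ m ω j y *
      Df μ s N Q δ B b σ m R c d h ω j y))) (1 / 3 : ℝ)]
    congr 1
    refine sum_congr rfl fun j _ => ?_
    ring
  have i3 := (integrable_finsetSum (Rw R c d) fun j _ => i1 j).const_mul (h * B ^ 4 / 36)
  have i4 := (integrable_finsetSum (Rw R c d) fun j _ => i2 j).const_mul (1 / 3 : ℝ)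
  refine (integral_mono i0 (i3.add i4) e).trans (le_of_eq ?_)
  have e5 := integral_add i3 i4
  rw [integral_const_mul, integral_const_mul, integral_finsetSum _ fun j _ => i1 j, integral_finsetSum _ fun j _ => i2 j] at e5
  exact e5

/-! ### The far part is blind to the sign of the row -/

omit [Nonempty (Px Q)] [SwQ Q] in
theorem gg_flp (δ B : ℝ) (b : ℕ) (ω : Env × Finset ℕ) {j k : ℕ} (h : k ≠ j) :
    gg μ s Q δ B b (ω.1, flp j ω.2) k = gg μ s Q δ B b ω k := by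
  unfold gg
  rw [sg_flp_ne h]

omit [Nonempty (Px Q)] [SwQ Q] in
theorem Vn_flp (δ B : ℝ) (b σ m : ℕ) (ω : Env × Finset ℕ) {j k : ℕ} (h : k ≠ j) :
    Vn μ s N Q δ B b σ m (ω.1, flp j ω.2) k = Vn μ s N Q δ B b σ m ω k := by
  unfold Vn
  rw [gg_flp δ B b ω h]
  rfl

omit [Nonempty (Px Q)] [SwQ Q] in
/-- The far part does not see the sign of the row `j`. -/
theorem Df_flp (δ B : ℝ) (b σ m : ℕ) (R : Finset ℕ) (c d : ℕ) {h : ℕ} (hh : 0 < h) (ω : Env × Finset ℕ) (j : ℕ) :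
    Df μ s N Q δ B b σ m R c d h (ω.1, flp j ω.2) j = Df μ s N Q δ B b σ m R c d h ω j := by
  unfold Df
  refine sum_congr rfl fun k hk => ?_
  unfold Fa at hk
  rw [mem_filter] at hk
  have hkj : k ≠ j := by
    rintro rfl
    exact hk.2 ⟨by omega, by omega⟩
  rw [Vn_flp δ B b σ m ω hkj]
  unfold sr
  rw [sg_flp_ne hkj]

end Model

end

end Pool.Agent.W_7d29a1_C0.Near32
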