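import Pool.Agent.W_7d29a1_C0.GSS65
import Pool.Agent.W_7d29a1_C0.Near32

/-!
MP_7d29a1_pr, [C0], G4 (helper65): THE MODEL FORM OF THE STAR, on `Near32` (helper32).

`Pof b I`: the rows off the open windows `(i - b, i + b)`, `i ∈ I`. `AxP_kick`: log weights of any environment, kicks of the windows of
`I`, site fields. `VnW w ω j`, `DfW w .. ω j`: the functionals `Vn`, `Df` of `Near32` at any weight `w`. `RowP_model`: the conditions of the row
`k` at the weights of the class of `Pof b I`. **`star_model`**: `G2[Ko (y, z) V_j D_j]` at the weight `w` is the sum of the two classes, each the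
value of the plan `gs3 .fr` with the integrand `psi3 K g_j * D_j (x)`. `pair_far`, `pair_same`: one class (times any kernel which looks at
the rows of `B'`, e.g. the indicator of boxes) times `V_k` as the value of the plan `gsP .fr`, `gsS .fr`.
-/

set_option autoImplicit false
set_option linter.unusedSectionVars false

namespace Pool.Agent.W_7d29a1_C0.GS65

open Finset MeasureTheory Pool.Agent.W_7d29a1_F Pool.Agent.W_7d29a1_X Pool.Agent.W_7d29a1_C0.Mod92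
open Pool.Agent.W_7d29a1_C0.Swap57 Pool.Agent.W_7d29a1_C0.E4T32 Pool.Agent.W_7d29a1_C0.Near32
open Pool.W7d29a1.C0 (gz gm lse gz_pos gz_ne gm_nonneg gm_mono)
open Pool.W7d29a1.C0.VT31
open Pool.W7d29a1.C0.I52

noncomputable section

variable {μ : Measure ℝ} {s : ℝ} {N : ℕ} {Q : Finset (Finset ℕ)} [SwQ Q] [Nonempty (Px Q)]

/-! ### The outer kernel in front of the plans of two rows -/

section Outer2

variable {P : ℕ → Prop} {w : Px Q → ℝ} {c1 d1 c2 d2 al be k1 l1 k2 l2 al' be' : ℕ} {g g' : Px Q → ℝ} {K : Px Q → Px Q → ℝ}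

/-- **`G2[Ko (y, z) U_j V_k]`**, different blocks `B'`: the outer replica is the replica `0`, the base path the replica `5`. -/
theorem gm2_UUK_HB (r : RowP P w c1 d1 c2 d2 al be g) (r' : RowP P w k1 l1 k2 l2 al' be' g') (hd : d1 ≤ k1 ∨ l1 ≤ c1)
    (hK : KOk c1 d1 K) {Ko : Px Q → Px Q → ℝ} (hKo : ∀ z, Mp (pJ k1 l1) fun y => Ko y z) :
    gm2 w (fun y z => Ko y z * (UUK w c1 d1 c2 d2 K g y * HB w k1 l1 k2 l2 g' y)) =
      ev (gsP Q c1 d1 c2 d2 k1 l1 k2 l2).fr w (fun x => Ko (Fin.tail x 4) (x 0) *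
        gsPsiK K (NMP P k2 al' be' l2) g g' (Fin.tail x)) := by
  rw [ev_fr_outer (gsP Q c1 d1 c2 d2 k1 l1 k2 l2) 4 w Ko (gsPsiK K (NMP P k2 al' be' l2) g g'), gm2_outer w Ko]
  have h := gm_UUK_HB r r' hd hK (outer_Mp w hKo)
  have e : ((fun y => gm w (Ko y)) * fun y => UUK w c1 d1 c2 d2 K g y * HB w k1 l1 k2 l2 g' y) =
      (fun y => gm w (Ko y)) * (UUK w c1 d1 c2 d2 K g * HB w k1 l1 k2 l2 g') := rfl
  rw [e, h]
  exact ev_congr _ w fun x => mul_comm _ _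

/-- **`G2[Ko (y, z) U_j V_k]`**, the same block `B'`: the outer replica is the replica `0`, the base path the replica `6`. -/
theorem gm2_UUK_HBS (r' : RowP P w c1 d1 k2 l2 al' be' g') (c2 d2 : ℕ) (K : Px Q → Px Q → ℝ) (g : Px Q → ℝ)
    (Ko : Px Q → Px Q → ℝ) :
    gm2 w (fun y z => Ko y z * (UUK w c1 d1 c2 d2 K g y * HB w c1 d1 k2 l2 g' y)) =
      ev (gsS Q c1 d1 c2 d2 k2 l2).fr w (fun x => Ko (Fin.tail x 5) (x 0) *
        gsSPsiK K (NMP P k2 al' be' l2) g g' (Fin.tail x)) := by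
  rw [ev_fr_outer (gsS Q c1 d1 c2 d2 k2 l2) 5 w Ko (gsSPsiK K (NMP P k2 al' be' l2) g g'), gm2_outer w Ko]
  have h := gm_UUK_HBS r' c2 d2 K g (fun y => gm w (Ko y))
  have e : ((fun y => gm w (Ko y)) * fun y => UUK w c1 d1 c2 d2 K g y * HB w c1 d1 k2 l2 g' y) =
      (fun y => gm w (Ko y)) * (UUK w c1 d1 c2 d2 K g * HB w c1 d1 k2 l2 g') := rfl
  rw [e, h]
  exact ev_congr _ w fun x => mul_comm _ _

end Outer2

/-! ### The rows off the windows -/

/-- The rows off the open windows of `I`. -/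
def Pof (b : ℕ) (I : Finset ℕ) (t : ℕ) : Prop := ∀ i ∈ I, t ≤ i - b ∨ i + b ≤ t

theorem AxP_gg {δ B : ℝ} {b : ℕ} {I : Finset ℕ} {i : ℕ} (hi : i ∈ I) (ω : Env × Finset ℕ) :
    AxP (Pof b I) (gg μ s Q δ B b ω i) := Lk.AxP (Lk_gg δ B b i ω le_rfl le_rfl) fun _ ht => ht i hi

/-- **The class of the kicked weights**: any environment, kicks of the windows of `I`, a site field. -/
theorem AxP_kick {δ B : ℝ} {b : ℕ} (I : Finset ℕ) (η : Env) (α : ℕ → ℝ) (ω : Env × Finset ℕ) (J : Finset ℕ) (φ : ℕ → ℤ → ℝ) :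
    AxP (Pof b I) (lw μ s η N Q + (∑ i ∈ I, α i • gg μ s Q δ B b ω i) + fun S => ∑ i ∈ J, φ i (ps S i)) :=
  ((AxP_lw _ η).add (AxP.sum I fun i hi => (AxP_gg hi ω).smul (α i))).add (AxP_field _ J φ)

/-- One kick. -/
theorem AxP_one {δ B : ℝ} {b : ℕ} (j : ℕ) (ω : Env × Finset ℕ) (α : ℝ) :
    AxP (Pof b {j}) (wm μ s N Q ω + α • gg μ s Q δ B b ω j) :=
  (AxP_lw _ ω.1).add ((AxP_gg (mem_singleton_self j) ω).smul α)

theorem AxP_wm (P : ℕ → Prop) (ω : Env × Finset ℕ) : AxP P (wm μ s N Q ω) := AxP_lw P ω.1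

/-- The multiples of `σ` are off the windows of the kicked rows. -/
theorem Deep_off {R : Finset ℕ} {b σ : ℕ} (hR : Deep R b σ) {i : ℕ} (hi : i ∈ R) {t : ℕ} (ht : σ ∣ t) : t ≤ i - b ∨ i + b ≤ t := by
  obtain ⟨h1, h2⟩ := hR i hi
  obtain ⟨q, rfl⟩ := ht
  rcases Nat.lt_or_ge (i / σ) q with h | h
  · right
    have : (i / σ + 1) * σ ≤ σ * q := by
      rw [mul_comm σ q]
      exact Nat.mul_le_mul_right σ h
    omega
  · left
    have : σ * q ≤ i / σ * σ := by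
      rw [mul_comm σ q]
      exact Nat.mul_le_mul_right σ h
    omega

theorem Pof_grid {R : Finset ℕ} {b σ : ℕ} (hR : Deep R b σ) {I : Finset ℕ} (hI : I ⊆ R) {t : ℕ} (ht : σ ∣ t) : Pof b I t :=
  fun _ hi => Deep_off hR (hI hi) ht

/-- A single window. -/
theorem Pof_self (b j t : ℕ) (h : t ≤ j - b ∨ j + b ≤ t) : Pof b {j} t := fun i hi => by
  rw [mem_singleton] at hi
  rw [hi]
  exact h

/-- The rows of another block `B`. -/
theorem Pof_other {R : Finset ℕ} {b σ : ℕ} (hR : Deep R b σ) {j k : ℕ} (hj : j ∈ R) (hjk : j / σ ≠ k / σ) {t : ℕ}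
    (h1 : k / σ * σ ≤ t) (h2 : t ≤ k / σ * σ + σ) : Pof b {j} t := by
  refine Pof_self b j t ?_
  obtain ⟨h3, h4⟩ := hR j hj
  rcases Nat.lt_or_gt_of_ne hjk with h | h
  · right
    have : (j / σ + 1) * σ ≤ k / σ * σ := Nat.mul_le_mul_right σ h
    omega
  · left
    have : (k / σ + 1) * σ ≤ j / σ * σ := Nat.mul_le_mul_right σ h
    rw [Nat.add_mul, Nat.one_mul] at this
    omega

/-- **The conditions of the row `k`** at the weights of the class. -/
theorem RowP_model {δ B : ℝ} {R : Finset ℕ} {b σ m : ℕ} (hσ : 0 < σ) (hm : 0 < m) (hR : Deep R b σ) {I : Finset ℕ} (hI : I ⊆ R)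
    {w : Px Q → ℝ} (hw : AxP (Pof b I) w) {k : ℕ} (hk : k ∈ R) (ω : Env × Finset ℕ) :
    RowP (Pof b I) w (k / (m * σ) * (m * σ)) (k / (m * σ) * (m * σ) + m * σ) (k / σ * σ) (k / σ * σ + σ) (k - b) (k + b)
      (gg μ s Q δ B b ω k) := by
  obtain ⟨h1, h2⟩ := hR k hk
  have hg := grid hσ hm k
  have hdiv : ∀ q, σ ∣ q * (m * σ) := fun q => ⟨q * m, by ring⟩
  refine ⟨hg.1, by omega, by omega, ?_, hg.2, Pof_grid hR hI (hdiv _), Pof_grid hR hI ?_, Pof_grid hR hI ⟨k / σ, by ring⟩,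
    Pof_grid hR hI ⟨k / σ + 1, by ring⟩, hw, Lk_gg δ B b k ω le_rfl le_rfl⟩
  · rw [Nat.add_mul, Nat.one_mul] at h2
    exact h2
  · have : k / (m * σ) * (m * σ) + m * σ = (k / (m * σ) + 1) * (m * σ) := by ring
    rw [this]
    exact hdiv _

/-! ### The functionals of `Near32` at any weight -/

/-- `V_j` at the weight `w`. -/
def VnW (w : Px Q → ℝ) (μ : Measure ℝ) (s : ℝ) (δ B : ℝ) (b σ m : ℕ) (ω : Env × Finset ℕ) (j : ℕ) : Px Q → ℝ :=
  HB w (j / (m * σ) * (m * σ)) (j / (m * σ) * (m * σ) + m * σ) (j / σ * σ) (j / σ * σ + σ) (gg μ s Q δ B b ω j)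

/-- The far part at the weight `w`. -/
def DfW (w : Px Q → ℝ) (μ : Measure ℝ) (s : ℝ) (δ B : ℝ) (b σ m : ℕ) (R : Finset ℕ) (c d h : ℕ)
    (ω : Env × Finset ℕ) (j : ℕ) : Px Q → ℝ :=
  ∑ k ∈ Fa (Rw R c d) h j, (sr ω.2 k / 3) • VnW w μ s δ B b σ m ω k

omit [SwQ Q] [Nonempty (Px Q)] in
theorem VnW_wm (δ B : ℝ) (b σ m : ℕ) (ω : Env × Finset ℕ) (j : ℕ) :
    VnW (wm μ s N Q ω) μ s δ B b σ m ω j = Vn μ s N Q δ B b σ m ω j := rfl

omit [SwQ Q] [Nonempty (Px Q)] in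
theorem DfW_wm (δ B : ℝ) (b σ m : ℕ) (R : Finset ℕ) (c d h : ℕ) (ω : Env × Finset ℕ) (j : ℕ) :
    DfW (wm μ s N Q ω) μ s δ B b σ m R c d h ω j = Df μ s N Q δ B b σ m R c d h ω j := rfl

section Mod

variable {δ B : ℝ} {R : Finset ℕ} {b σ m : ℕ} {I : Finset ℕ} {w : Px Q → ℝ}

/-- Different indices of blocks: disjoint rows. -/
theorem blk_off {t j k : ℕ} (h : j / t ≠ k / t) : j / t * t + t ≤ k / t * t ∨ k / t * t + t ≤ j / t * t := by
  rcases Nat.lt_or_gt_of_ne h with h1 | h1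
  · left
    have : (j / t + 1) * t ≤ k / t * t := Nat.mul_le_mul_right t h1
    rwa [Nat.add_mul, Nat.one_mul] at this
  · right
    have : (k / t + 1) * t ≤ j / t * t := Nat.mul_le_mul_right t h1
    rwa [Nat.add_mul, Nat.one_mul] at this

/-- `V_k` does not look inside of the block `B'` of `j`. -/
theorem VnW_Mp (hσ : 0 < σ) (hm : 0 < m) (hR : Deep R b σ) (hI : I ⊆ R) (hw : AxP (Pof b I) w) {k : ℕ} (hk : k ∈ R) (j : ℕ)
    (ω : Env × Finset ℕ) :
    Mp (pJ (j / (m * σ) * (m * σ)) (j / (m * σ) * (m * σ) + m * σ)) (VnW w μ s δ B b σ m ω k) := by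
  by_cases h : k / (m * σ) = j / (m * σ)
  · rw [← h]
    exact HB_Mp_self w _ _ _ _ _
  · exact (RowP_model hσ hm hR hI hw hk ω).HB_Mp (blk_off h)

/-- The far part does not look inside of the block `B'` of `j`. -/
theorem DfW_Mp (hσ : 0 < σ) (hm : 0 < m) (hR : Deep R b σ) (hI : I ⊆ R) (hw : AxP (Pof b I) w) (c d h i j : ℕ)
    (ω : Env × Finset ℕ) :
    Mp (pJ (j / (m * σ) * (m * σ)) (j / (m * σ) * (m * σ) + m * σ)) (DfW w μ s δ B b σ m R c d h ω i) := by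
  intro S S' e
  unfold DfW
  rw [Finset.sum_apply, Finset.sum_apply]
  refine sum_congr rfl fun k hk => ?_
  have hk' : k ∈ R := by
    unfold Fa Rw at hk
    exact (mem_inter.1 (mem_filter.1 hk).1).1
  rw [Pi.smul_apply, Pi.smul_apply, VnW_Mp hσ hm hR hI hw hk' j ω S S' e]

/-- The kernel `KR` of the row `j`. -/
def KRj (b σ j : ℕ) : Px Q → Px Q → ℝ := KR (j + b) (j / σ * σ + σ)

/-- The kernel `KL` of the row `j`. -/
def KLj (b σ j : ℕ) : Px Q → Px Q → ℝ := KL (j / σ * σ) (j - b) (j + b) (j / σ * σ + σ)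

/-- The plan of the row `j`: `0`: `z | B_j`, `1`: `y | B'_j`, `2`: the base path. -/
def gs3j (Q : Finset (Finset ℕ)) [Nonempty (Px Q)] (σ m j : ℕ) : Plan (Px Q) 3 :=
  gs3 Q (j / (m * σ) * (m * σ)) (j / (m * σ) * (m * σ) + m * σ) (j / σ * σ) (j / σ * σ + σ)

/-- **THE STAR**, model form, every weight of the class of the window of `j`. -/
theorem star_model (hσ : 0 < σ) (hm : 0 < m) (hR : Deep R b σ) {j : ℕ} (hj : j ∈ R) (hw : AxP (Pof b {j}) w)
    (ω : Env × Finset ℕ) {Ko : Px Q → Px Q → ℝ}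
    (hKo : ∀ z, Mp (pJ (j / (m * σ) * (m * σ)) (j / (m * σ) * (m * σ) + m * σ)) fun y => Ko y z) {D : Px Q → ℝ}
    (hD : Mp (pJ (j / (m * σ) * (m * σ)) (j / (m * σ) * (m * σ) + m * σ)) D) :
    gm2 w (fun y z => Ko y z * (VnW w μ s δ B b σ m ω j y * D y)) =
      ev (gs3j Q σ m j).fr w (fun x => Ko (Fin.tail x 2) (x 0) *
        (psi3 (KRj b σ j) (gg μ s Q δ B b ω j) (Fin.tail x) * D (Fin.tail x 2))) +
      ev (gs3j Q σ m j).fr w (fun x => Ko (Fin.tail x 2) (x 0) *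
        (psi3 (KLj b σ j) (gg μ s Q δ B b ω j) (Fin.tail x) * D (Fin.tail x 2))) :=
  gm2_HB_classes (RowP_model hσ hm hR (singleton_subset_iff.2 hj) hw hj ω) (fun t ht => Pof_self b j t (by omega)) hKo hD

/-- **The star with the far part.** -/
theorem star_Df (hσ : 0 < σ) (hm : 0 < m) (hR : Deep R b σ) {j : ℕ} (hj : j ∈ R) (hw : AxP (Pof b {j}) w)
    (ω : Env × Finset ℕ) (c d h : ℕ) {Ko : Px Q → Px Q → ℝ}
    (hKo : ∀ z, Mp (pJ (j / (m * σ) * (m * σ)) (j / (m * σ) * (m * σ) + m * σ)) fun y => Ko y z) :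
    gm2 w (fun y z => Ko y z * (VnW w μ s δ B b σ m ω j y * DfW w μ s δ B b σ m R c d h ω j y)) =
      ev (gs3j Q σ m j).fr w (fun x => Ko (Fin.tail x 2) (x 0) *
        (psi3 (KRj b σ j) (gg μ s Q δ B b ω j) (Fin.tail x) * DfW w μ s δ B b σ m R c d h ω j (Fin.tail x 2))) +
      ev (gs3j Q σ m j).fr w (fun x => Ko (Fin.tail x 2) (x 0) *
        (psi3 (KLj b σ j) (gg μ s Q δ B b ω j) (Fin.tail x) * DfW w μ s δ B b σ m R c d h ω j (Fin.tail x 2))) :=
  star_model hσ hm hR hj hw ω hKo (DfW_Mp hσ hm hR (singleton_subset_iff.2 hj) hw c d h j j ω)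

/-- The actual weights: the term of `Near32.near_int`. -/
theorem star_wm (hσ : 0 < σ) (hm : 0 < m) (hR : Deep R b σ) {j : ℕ} (hj : j ∈ R) (ω : Env × Finset ℕ) (c d h : ℕ)
    {Ko : Px Q → Px Q → ℝ}
    (hKo : ∀ z, Mp (pJ (j / (m * σ) * (m * σ)) (j / (m * σ) * (m * σ) + m * σ)) fun y => Ko y z) :
    gm2 (wm μ s N Q ω) (fun y z => Ko y z * (Vn μ s N Q δ B b σ m ω j y * Df μ s N Q δ B b σ m R c d h ω j y)) =
      ev (gs3j Q σ m j).fr (wm μ s N Q ω) (fun x => Ko (Fin.tail x 2) (x 0) *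
        (psi3 (KRj b σ j) (gg μ s Q δ B b ω j) (Fin.tail x) * Df μ s N Q δ B b σ m R c d h ω j (Fin.tail x 2))) +
      ev (gs3j Q σ m j).fr (wm μ s N Q ω) (fun x => Ko (Fin.tail x 2) (x 0) *
        (psi3 (KLj b σ j) (gg μ s Q δ B b ω j) (Fin.tail x) * Df μ s N Q δ B b σ m R c d h ω j (Fin.tail x 2))) :=
  star_Df hσ hm hR hj (AxP_wm _ ω) ω c d h hKo

/-- The kernel of the row `k` at the weights with the kicked window of `j`. -/
def Kkj (b σ j k : ℕ) : Px Q → Px Q → ℝ := NMP (Pof b {j}) (k / σ * σ) (k - b) (k + b) (k / σ * σ + σ)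

/-- **One class of the row `j` times `V_k`**, different blocks `B'`. -/
theorem pair_far (hσ : 0 < σ) (hm : 0 < m) (hR : Deep R b σ) {j k : ℕ} (hj : j ∈ R) (hk : k ∈ R)
    (hjk : j / (m * σ) ≠ k / (m * σ)) (hw : AxP (Pof b {j}) w) (ω : Env × Finset ℕ) {K : Px Q → Px Q → ℝ}
    (hK : KOk (j / (m * σ) * (m * σ)) (j / (m * σ) * (m * σ) + m * σ) K) {Ko : Px Q → Px Q → ℝ}
    (hKo : ∀ z, Mp (pJ (k / (m * σ) * (m * σ)) (k / (m * σ) * (m * σ) + m * σ)) fun y => Ko y z) :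
    gm2 w (fun y z => Ko y z * (UUK w (j / (m * σ) * (m * σ)) (j / (m * σ) * (m * σ) + m * σ) (j / σ * σ) (j / σ * σ + σ) K
        (gg μ s Q δ B b ω j) y * VnW w μ s δ B b σ m ω k y)) =
      ev (gsP Q (j / (m * σ) * (m * σ)) (j / (m * σ) * (m * σ) + m * σ) (j / σ * σ) (j / σ * σ + σ) (k / (m * σ) * (m * σ))
        (k / (m * σ) * (m * σ) + m * σ) (k / σ * σ) (k / σ * σ + σ)).fr w
        (fun x => Ko (Fin.tail x 4) (x 0) * gsPsiK K (Kkj b σ j k) (gg μ s Q δ B b ω j) (gg μ s Q δ B b ω k) (Fin.tail x)) :=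
  gm2_UUK_HB (RowP_model hσ hm hR (singleton_subset_iff.2 hj) hw hj ω) (RowP_model hσ hm hR (singleton_subset_iff.2 hj) hw hk ω)
    (blk_off hjk) hK hKo

/-- **One class of the row `j` times `V_k`**, the same block `B'`. -/
theorem pair_same (hσ : 0 < σ) (hm : 0 < m) (hR : Deep R b σ) {j k : ℕ} (hj : j ∈ R) (hk : k ∈ R)
    (hjk : j / (m * σ) = k / (m * σ)) (hw : AxP (Pof b {j}) w) (ω : Env × Finset ℕ) (K Ko : Px Q → Px Q → ℝ) :
    gm2 w (fun y z => Ko y z * (UUK w (j / (m * σ) * (m * σ)) (j / (m * σ) * (m * σ) + m * σ) (j / σ * σ) (j / σ * σ + σ) K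
        (gg μ s Q δ B b ω j) y * VnW w μ s δ B b σ m ω k y)) =
      ev (gsS Q (j / (m * σ) * (m * σ)) (j / (m * σ) * (m * σ) + m * σ) (j / σ * σ) (j / σ * σ + σ) (k / σ * σ)
        (k / σ * σ + σ)).fr w
        (fun x => Ko (Fin.tail x 5) (x 0) * gsSPsiK K (Kkj b σ j k) (gg μ s Q δ B b ω j) (gg μ s Q δ B b ω k) (Fin.tail x)) := by
  have r := RowP_model (μ := μ) (s := s) (δ := δ) (B := B) hσ hm hR (singleton_subset_iff.2 hj) hw hk ω
  rw [← hjk] at r
  unfold VnW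
  rw [← hjk]
  exact gm2_UUK_HBS r (j / σ * σ) (j / σ * σ + σ) K (gg μ s Q δ B b ω j) Ko

/-- The kernel of the row `k` in another block `B`. -/
theorem Kkj_other (hR : Deep R b σ) {j k : ℕ} (hj : j ∈ R) (hjk : j / σ ≠ k / σ) (S S' : Px Q) (hk : k / σ * σ + b ≤ k)
    (hk' : k + b ≤ k / σ * σ + σ) : Kkj b σ j k S S' = NM (k / σ * σ) (k - b) (k + b) (k / σ * σ + σ) S S' :=
  NMP_eq (fun t ht => Pof_other hR hj hjk (by omega) (by omega)) S S'

/-- The kernel of the row `k` in the same block `B`, `j` on the left of `k`. -/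
theorem Kkj_le_right {j k : ℕ} (h : j + b ≤ k - b) (hj : j / σ * σ + b ≤ j) (hjk : j / σ = k / σ) (S S' : Px Q) :
    Kkj b σ j k S S' ≤ NI (j + b) (k - b) S S' + NI (k + b) (k / σ * σ + σ) S S' := by
  have e := NMP_le (P := Pof b {j}) (c := k / σ * σ) (al := k - b) (be := k + b) (d := k / σ * σ + σ) S S'
  have e1 := NIP_le_NI (P := Pof b {j}) (i := k / σ * σ) (j := k - b) (i' := j + b) (j' := k - b) (by rw [← hjk]; omega) le_rfl
    (fun t ht ht' => Pof_self b j t (Or.inr ht)) S S'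
  have e2 := NIP_le_NI (P := Pof b {j}) (i := k + b) (j := k / σ * σ + σ) (i' := k + b) (j' := k / σ * σ + σ) le_rfl le_rfl
    (fun t ht ht' => Pof_self b j t (Or.inr (by omega))) S S'
  exact e.trans (add_le_add e1 e2)

/-- The same, the other piece. -/
theorem Kkj_le_right' {j k : ℕ} (h : j + b ≤ k - b) (hjk : j / σ = k / σ) (S S' : Px Q) :
    Kkj b σ j k S S' ≤ NI (j / σ * σ) (j - b) S S' + NI (k + b) (k / σ * σ + σ) S S' := by
  have e := NMP_le (P := Pof b {j}) (c := k / σ * σ) (al := k - b) (be := k + b) (d := k / σ * σ + σ) S S'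
  have e1 := NIP_le_NI (P := Pof b {j}) (i := k / σ * σ) (j := k - b) (i' := j / σ * σ) (j' := j - b) (by rw [hjk]) (by omega)
    (fun t ht ht' => Pof_self b j t (Or.inl ht')) S S'
  have e2 := NIP_le_NI (P := Pof b {j}) (i := k + b) (j := k / σ * σ + σ) (i' := k + b) (j' := k / σ * σ + σ) le_rfl le_rfl
    (fun t ht ht' => Pof_self b j t (Or.inr (by omega))) S S'
  exact e.trans (add_le_add e1 e2)

/-- The kernel of the row `k` in the same block `B`, `j` on the right of `k`. -/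
theorem Kkj_le_left {j k : ℕ} (h : k + b ≤ j - b) (hj : j + b ≤ k / σ * σ + σ) (S S' : Px Q) :
    Kkj b σ j k S S' ≤ NI (k / σ * σ) (k - b) S S' + NI (k + b) (j - b) S S' := by
  have e := NMP_le (P := Pof b {j}) (c := k / σ * σ) (al := k - b) (be := k + b) (d := k / σ * σ + σ) S S'
  have e1 := NIP_le_NI (P := Pof b {j}) (i := k / σ * σ) (j := k - b) (i' := k / σ * σ) (j' := k - b) le_rfl le_rfl
    (fun t ht ht' => Pof_self b j t (Or.inl (by omega))) S S'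
  have e2 := NIP_le_NI (P := Pof b {j}) (i := k + b) (j := k / σ * σ + σ) (i' := k + b) (j' := j - b) le_rfl (by omega)
    (fun t ht ht' => Pof_self b j t (Or.inl ht')) S S'
  exact e.trans (add_le_add e1 e2)

/-- The same, the other piece. -/
theorem Kkj_le_left' {j k : ℕ} (h : k + b ≤ j - b) (S S' : Px Q) :
    Kkj b σ j k S S' ≤ NI (k / σ * σ) (k - b) S S' + NI (j + b) (k / σ * σ + σ) S S' := by
  have e := NMP_le (P := Pof b {j}) (c := k / σ * σ) (al := k - b) (be := k + b) (d := k / σ * σ + σ) S S'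
  have e1 := NIP_le_NI (P := Pof b {j}) (i := k / σ * σ) (j := k - b) (i' := k / σ * σ) (j' := k - b) le_rfl le_rfl
    (fun t ht ht' => Pof_self b j t (Or.inl (by omega))) S S'
  have e2 := NIP_le_NI (P := Pof b {j}) (i := k + b) (j := k / σ * σ + σ) (i' := j + b) (j' := k / σ * σ + σ) (by omega) le_rfl
    (fun t ht ht' => Pof_self b j t (Or.inr ht)) S S'
  exact e.trans (add_le_add e1 e2)

end Mod

end

end Pool.Agent.W_7d29a1_C0.GS65
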