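import Pool.Agent.W_7d29a1_C0.AsmC96
import Pool.Agent.W_7d29a1_C0.GSsum4
import Pool.Agent.W_7d29a1_C0.Near32
import Pool.Agent.W_7d29a1_C0.Num46C
import Pool.Agent.W_7d29a1_C0.Num46P

/-!
STORM C0 (helper96): THE TOP OF GS, the change of the corrected scale `σ p → σ p'`. `dx96` is the mean of the square of the loss
`Dt` of the change. `StN`: the variance of the response `Gs = cE_J Dt` costs the outer tie, `N ^ ε₁ / E_ρ`. `KbN`: the kick, the square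
of the loss in terms of the prices of the pairs of rows, in the form of `gs8`. Both imply `SigN` with the gain `c / 64` (`sigN96`).
-/

set_option autoImplicit false

namespace Pool.Agent.W_7d29a1_C0.Asm96

open Finset MeasureTheory Filter Topology Pool.Agent.W_7d29a1_F Pool.Agent.W_7d29a1_X Pool.Agent.W_7d29a1_H
open Pool.Agent.W_7d29a1_C0.Mod92 Pool.Agent.W_7d29a1_C0
open Pool.W7d29a1.C0 (gz gm lse gz_pos gz_ne gm_nonneg gm_mono gm_const)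
open Pool.W7d29a1.C0.VT31
open Pool.Agent.W_7d29a1_HS (wd)
open Pool.Agent.W_7d29a1_C0.Par92 (Est Sml)
open Pool.Agent.W_7d29a1_C0.Near32 (Dt)
open Pool.Agent.W_7d29a1_C0.GS4 (Phi Reg gs8 close_cs exps rpow_nat)

noncomputable section

variable (μ : Measure ℝ) (s : ℝ) (F : Frm96) (E : ℕ → ℝ) (Θ δ c η ε₁ : ℝ)

/-- The mean of the square of the loss of the change `σ p → σ p'`. -/
def dx96 (m p p' q i : ℕ) : ℝ :=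
  avy (F.ys m) fun y => ∫ ω, gm (wm μ s (F.L m) (Pn (F.L m) y) ω)
    (fun S => Dt μ s (F.L m) (Pn (F.L m) y) F.dl (F.B m) (2 ^ p) (2 ^ sg96 E c m p) (2 ^ (sg96 E c m p' - sg96 E c m p)) (F.R m)
      (i * 2 ^ q) ((i + 1) * 2 ^ q) ω S ^ 2) ∂(Pm μ (F.L m))

/-- **The strip**: the outer tie of the response. -/
def StN (m : ℕ) : Prop := ∀ p p' q i : ℕ, Chg96 E Θ δ c η m p p' q → i < 2 ^ (m - q) →
  avy (F.ys m) (fun y => ∫ ω, gv (wm μ s (F.L m) (Pn (F.L m) y) ω)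
    (Gs μ s (F.L m) (Pn (F.L m) y) F.dl (F.B m) (2 ^ p) (2 ^ sg96 E c m p) (2 ^ (sg96 E c m p' - sg96 E c m p)) (F.R m)
      (i * 2 ^ q) ((i + 1) * 2 ^ q) ω) ∂(Pm μ (F.L m))) ≤
    ((2 ^ m : ℕ) : ℝ) ^ ε₁ / E (2 ^ q) * dx96 μ s F E c m p p' q i + 1

/-- The majorant of the pair of rows at the distance `n`. -/
def Ph96 (m p p' n : ℕ) : ℝ :=
  Phi E (((2 ^ m : ℕ) : ℝ) ^ ε₁ / E (2 ^ sg96 E c m p)) (((2 ^ m : ℕ) : ℝ) ^ ε₁ * (1 / E (2 ^ p) + 1 / E (2 ^ sg96 E c m p)))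
    (((2 ^ m : ℕ) : ℝ) ^ ε₁ / E (2 ^ sg96 E c m p) ^ 2) (((2 ^ m : ℕ) : ℝ) ^ ε₁ / (E (2 ^ sg96 E c m p) ^ 2 * E (2 ^ p)))
      (8 * 2 ^ p) (2 ^ sg96 E c m p) (2 ^ sg96 E c m p') n

/-- **The kick**: near pairs, first order (Cauchy - Schwarz against the loss), second order. -/
def KbN (m : ℕ) : Prop := ∀ p p' q i : ℕ, Chg96 E Θ δ c η m p p' q → i < 2 ^ (m - q) → ∃ P P' : ℕ → ℕ → ℝ,
  (∀ j ∈ Rw (F.R m) (i * 2 ^ q) ((i + 1) * 2 ^ q), ∀ k ∈ Rw (F.R m) (i * 2 ^ q) ((i + 1) * 2 ^ q),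
    P j k ≤ Ph96 E c ε₁ m p p' (Nat.dist j k) ∧ P' j k ≤ Ph96 E c ε₁ m p p' (Nat.dist j k)) ∧
  dx96 μ s F E c m p p' q i ≤ 2 ^ q * (8 * 2 ^ p * (((2 ^ m : ℕ) : ℝ) ^ ε₁ / E (2 ^ sg96 E c m p))) +
    √(∑ j ∈ Rw (F.R m) (i * 2 ^ q) ((i + 1) * 2 ^ q), ∑ k ∈ Rw (F.R m) (i * 2 ^ q) ((i + 1) * 2 ^ q), P j k) *
      √(dx96 μ s F E c m p p' q i) +
    ∑ j ∈ Rw (F.R m) (i * 2 ^ q) ((i + 1) * 2 ^ q), ∑ k ∈ Rw (F.R m) (i * 2 ^ q) ((i + 1) * 2 ^ q), P' j k + 1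

variable {μ s F E Θ δ c η ε₁}

/-- **The numbers of a change of base** in the form of `gs8`. -/
theorem reg_of46 {w : ℕ → ℝ} {c₀ a ε N : ℝ} {b s₁ b' s' ρ : ℕ} (R : Reg46 E w c₀ Θ δ a ε N) (h : Ch46 E δ c Θ N b s₁ b' s' ρ) :
    Reg N Θ ε c (5 / 4 * c) (3 / 4 * c) (16 * c) b s' ρ (E b) (E b') (E s₁) (E s') (E ρ) := by
  have hN := R.N1
  have hN0 := R.N0
  have hN1 : 1 ≤ N := hN.le
  have hc := h.h.c0
  have hΘε : 0 ≤ Θ + ε := by linarith [R.Θ0, R.ε0]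
  have hup : ∀ x : ℕ, N ^ (9 / 8 * c) * E x ≤ N ^ (5 / 4 * c) * E x := fun x =>
    mul_le_mul_of_nonneg_right (Real.rpow_le_rpow_of_exponent_le hN1 (by linarith)) (R.Epos x).le
  have hkap : ∀ r : ℕ, Rg46 δ N r → (r : ℝ) ≤ N ^ (Θ + ε) * E r ^ 3 := fun r hr => by
    refine (R.kap r hr).trans (mul_le_mul_of_nonneg_right ?_ (pow_nonneg (R.Epos r).le 3))
    exact Real.rpow_le_rpow (Nat.cast_nonneg _) hr.hi hΘε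
  have e2 : N ^ (3 * c) = (N ^ (2 * (3 / 4 * c))) ^ 2 := by
    rw [rpow_nat hN1]
    congr 1
    push_cast
    ring
  refine { N1 := hN1, e0 := hΘε, b0 := h.h.hb.pos hN, s0 := ?_, sN := h.h'.hs.hi, r0 := h.h.hr.pos hN, Eb1 := R.E1 _, Eb'1 := R.E1 _,
           Es1 := R.E1 _, Es'1 := R.E1 _, Er1 := ?_, lo := h.h.pin, up := h.h.up.trans (hup _), up' := h.h'.up.trans (hup _),
           sg := ?_, sg' := ?_, kb := hkap _ h.h.hb, kr := hkap _ h.h.hr, ks := R.kap _ h.h'.hs }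
  · exact_mod_cast h.h'.hs.npos hN
  · have h1 := (h.h.l8 R).2
    exact pow_le46 hN (R.Epos _) h1
  · refine le_of_pow_le_pow_left₀ (n := 2) two_ne_zero (mul_nonneg (Real.rpow_nonneg hN0.le _) (sq_nonneg _)) ?_
    calc (E b ^ 3) ^ 2 = E b ^ 6 := by ring
      _ ≤ N ^ (3 * c) * E s₁ ^ 4 := h.h.s1
      _ = (N ^ (2 * (3 / 4 * c)) * E s₁ ^ 2) ^ 2 := by
        rw [e2]
        ring
  · refine le_of_pow_le_pow_left₀ (n := 2) two_ne_zero (mul_nonneg (by norm_num) (pow_nonneg (R.Epos _).le 3)) ?_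
    calc (N ^ (2 * (3 / 4 * c)) * E s' ^ 2) ^ 2 = N ^ (3 * c) * E s' ^ 4 := by
          rw [e2]
          ring
      _ ≤ 16 * E b' ^ 6 := h.h'.s2
      _ = (4 * E b' ^ 3) ^ 2 := by ring

/-- The sums of one change of base: the near pairs and the double sums of the majorant. -/
theorem sums96 {w : ℕ → ℝ} {c₀ a ε : ℝ} {m p p' q i : ℕ} (R : Reg46 E w c₀ Θ δ a ε ((2 ^ m : ℕ) : ℝ)) (hcδ : 64 * c ≤ δ)
    (hc : 0 < c) (hε : ε ≤ c / 128) (hε₁ : ε₁ ≤ c / 128) (hmono : Monotone E) (hC : Chg96 E Θ δ c η m p p' q) (hqm : q ≤ m)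
    {S : Finset ℕ} (hS : S ⊆ Ico (i * 2 ^ q) ((i + 1) * 2 ^ q)) {P : ℕ → ℕ → ℝ}
    (hP : ∀ j ∈ S, ∀ k ∈ S, P j k ≤ Ph96 E c ε₁ m p p' (Nat.dist j k)) :
    8 * (2 : ℝ) ^ p * (((2 ^ m : ℕ) : ℝ) ^ ε₁ / E (2 ^ sg96 E c m p)) ≤ E (2 ^ q) * ((2 ^ m : ℕ) : ℝ) ^ (Θ - c / 32) ∧
      ∑ j ∈ S, ∑ k ∈ S, P j k ≤ 2 ^ q * (E (2 ^ q) * ((2 ^ m : ℕ) : ℝ) ^ (Θ - c / 32)) := by
  have hN := R.N1
  have hN0 := R.N0
  have hN1 : (1 : ℝ) ≤ ((2 ^ m : ℕ) : ℝ) := hN.le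
  have H := ch46 R hc hcδ hC hqm
  have hreg := reg_of46 R H
  obtain ⟨h1, h2, h3, h4, h5⟩ := exps (c := c) (a := 16 * c) (ε := ε) (ε₁ := ε₁) hc.le (by linarith) (by linarith)
  have hK0 : 0 ≤ ((2 ^ m : ℕ) : ℝ) ^ ε := Real.rpow_nonneg hN0.le _
  have hk : 18 + 54 * ((2 ^ m : ℕ) : ℝ) ^ ε ≤ ((2 ^ m : ℕ) : ℝ) ^ (c / 32) := by
    have hK := R.K
    have e1 : ((2 ^ m : ℕ) : ℝ) ^ ε * (((2 ^ m : ℕ) : ℝ) ^ ε * ((2 ^ m : ℕ) : ℝ) ^ ε) ≤ ((2 ^ m : ℕ) : ℝ) ^ (c / 32) := by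
      rw [← Real.rpow_add hN0, ← Real.rpow_add hN0]
      exact Real.rpow_le_rpow_of_exponent_le hN1 (by linarith)
    nlinarith [mul_le_mul hK hK (by norm_num) hK0]
  have hpow := R.half
  have hss : 2 ^ sg96 E c m p ≤ 2 ^ sg96 E c m p' := by
    refine Nat.pow_le_pow_right two_pos (Nat.sInf_le ⟨hC.hpp.trans hC.hps', le_trans ?_ H.h'.s1⟩)
    exact pow_le_pow_left₀ (R.Epos _).le (hmono (Nat.pow_le_pow_right two_pos hC.hpp)) 6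
  have hsr : 2 ^ sg96 E c m p' ≤ 2 ^ q := H.h'.sr
  have hEp := R.Epos
  refine ⟨?_, ?_⟩
  · have h6 := hreg.total hK0 h1 h2 h3 h4 h5 hk
    have e0 := hEp (2 ^ sg96 E c m p)
    have e1 := hEp (2 ^ p)
    have e2 := hEp (2 ^ q)
    have e3 := hEp (2 ^ sg96 E c m p')
    have e4 : 0 ≤ ((2 ^ m : ℕ) : ℝ) ^ ε₁ := Real.rpow_nonneg hN0.le _
    have f1 : 0 ≤ 3 * ((2 ^ m : ℕ) : ℝ) ^ ε * (((2 ^ m : ℕ) : ℝ) ^ ε₁ * (1 / E (2 ^ p) + 1 / E (2 ^ sg96 E c m p))) *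
      (((2 ^ sg96 E c m p' : ℕ) : ℝ) / E (2 ^ sg96 E c m p')) := by positivity
    have f2 : 0 ≤ 3 * ((2 ^ m : ℕ) : ℝ) ^ ε * (((2 ^ m : ℕ) : ℝ) ^ ε₁ / E (2 ^ sg96 E c m p) ^ 2) *
      (((2 ^ q : ℕ) : ℝ) / E (2 ^ q)) := by positivity
    have f3 : 0 ≤ ((2 ^ q : ℕ) : ℝ) * (((2 ^ m : ℕ) : ℝ) ^ ε₁ / (E (2 ^ sg96 E c m p) ^ 2 * E (2 ^ p))) := by positivity
    have f4 : 0 ≤ 8 * (2 : ℝ) ^ p * (((2 ^ m : ℕ) : ℝ) ^ ε₁ / E (2 ^ sg96 E c m p)) := by positivity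
    have f5 : ((2 ^ p : ℕ) : ℝ) = (2 : ℝ) ^ p := by push_cast; rfl
    rw [f5] at h6
    linarith
  · have e1 := gs8 (S := S) (c₀ := i * 2 ^ q) hEp hK0 hpow hreg (Nat.one_le_two_pow) hss hsr h1 h2 h3 h4 h5 hk (P := P)
      (fun k hk => by
        have h6 := mem_Ico.1 (hS hk)
        have h7 : (i + 1) * 2 ^ q = i * 2 ^ q + 2 ^ q := by ring
        omega) hP
    push_cast at e1 ⊢
    exact e1

/-- **THE TOP OF GS**, at a fixed length. -/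
theorem sig_of96 {w : ℕ → ℝ} {c₀ a ε : ℝ} {m : ℕ} (R : Reg46 E w c₀ Θ δ a ε ((2 ^ m : ℕ) : ℝ)) (hcδ : 64 * c ≤ δ) (hc : 0 < c)
    (hcΘ : c ≤ Θ) (hη : 0 ≤ η) (hε : ε ≤ c / 128) (hε₁0 : 0 ≤ ε₁) (hε₁ : ε₁ ≤ c / 128) (hmono : Monotone E)
    (hF : F.Ok Θ m) (hst : StN μ s F E Θ δ c η ε₁ m) (hkb : KbN μ s F E Θ δ c η ε₁ m) :
    SigN μ s F E Θ δ c η (c / 64) m := by
  intro p p' q i hC hi
  have hqm : q ≤ m := by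
    have h1 := hC.hqm
    have h2 : 0 ≤ η * (m : ℝ) := mul_nonneg hη (Nat.cast_nonneg _)
    have h3 : (q : ℝ) ≤ m := by linarith
    exact_mod_cast h3
  have hN := R.N1
  have hN0 := R.N0
  have hN1 : (1 : ℝ) ≤ ((2 ^ m : ℕ) : ℝ) := hN.le
  obtain ⟨P, P', hP, hdx⟩ := hkb p p' q i hC hi
  have hS : Rw (F.R m) (i * 2 ^ q) ((i + 1) * 2 ^ q) ⊆ Ico (i * 2 ^ q) ((i + 1) * 2 ^ q) := inter_subset_right
  obtain ⟨s1, s2⟩ := sums96 R hcδ hc hε hε₁ hmono hC hqm hS (P := P) fun j hj k hk => (hP j hj k hk).1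
  obtain ⟨-, s3⟩ := sums96 R hcδ hc hε hε₁ hmono hC hqm hS (P := P') fun j hj k hk => (hP j hj k hk).2
  refine (hst p p' q i hC hi).trans ?_
  have hx0 : 0 ≤ dx96 μ s F E c m p p' q i := avy_nonneg fun y hy => by
    have := ne_Pn (hF.hy y hy)
    exact integral_nonneg fun _ => gm_nonneg _ fun _ => sq_nonneg _
  obtain ⟨x, hx⟩ : ∃ x, x = dx96 μ s F E c m p p' q i := ⟨_, rfl⟩
  rw [← hx] at hx0 hdx ⊢
  obtain ⟨A, hA⟩ : ∃ A, A = (2 : ℝ) ^ q * (E (2 ^ q) * ((2 ^ m : ℕ) : ℝ) ^ (Θ - c / 32)) := ⟨_, rfl⟩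
  have hE := R.Epos (2 ^ q)
  have hE1 := R.E1 (2 ^ q)
  have hA0 : 0 ≤ A := by
    rw [hA]
    positivity
  rw [← hA] at s2 s3
  have s1' : (2 : ℝ) ^ q * (8 * 2 ^ p * (((2 ^ m : ℕ) : ℝ) ^ ε₁ / E (2 ^ sg96 E c m p))) ≤ A := by
    rw [hA]
    exact mul_le_mul_of_nonneg_left s1 (by positivity)
  have h1 : x ≤ (A + A + 1) + √A * √x + 0 * √x := by
    have h2 := mul_le_mul_of_nonneg_right (Real.sqrt_le_sqrt s2) (Real.sqrt_nonneg x)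
    linarith
  have h2 := close_cs hx0 h1
  rw [Real.sq_sqrt hA0] at h2
  have h3 : x ≤ 6 * A + 2 := by linarith
  have hNe : 0 ≤ ((2 ^ m : ℕ) : ℝ) ^ ε₁ := Real.rpow_nonneg hN0.le _
  have h4 : ((2 ^ m : ℕ) : ℝ) ^ ε₁ / E (2 ^ q) * A = 2 ^ q * ((2 ^ m : ℕ) : ℝ) ^ (Θ - c / 32 + ε₁) := by
    rw [hA, Real.rpow_add hN0]
    field_simp
  have hq1 : (1 : ℝ) ≤ 2 ^ q := one_le_pow₀ one_le_two
  have hT : (1 : ℝ) ≤ ((2 ^ m : ℕ) : ℝ) ^ (Θ - c / 32 + ε₁) := Real.one_le_rpow hN1 (by linarith)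
  have h5 : ((2 ^ m : ℕ) : ℝ) ^ ε₁ / E (2 ^ q) ≤ 2 ^ q * ((2 ^ m : ℕ) : ℝ) ^ (Θ - c / 32 + ε₁) := by
    calc ((2 ^ m : ℕ) : ℝ) ^ ε₁ / E (2 ^ q) ≤ ((2 ^ m : ℕ) : ℝ) ^ ε₁ := div_le_self hNe hE1
      _ ≤ ((2 ^ m : ℕ) : ℝ) ^ (Θ - c / 32 + ε₁) := Real.rpow_le_rpow_of_exponent_le hN1 (by linarith)
      _ ≤ _ := le_mul_of_one_le_left (by linarith) hq1
  have h6 : (1 : ℝ) ≤ 2 ^ q * ((2 ^ m : ℕ) : ℝ) ^ (Θ - c / 32 + ε₁) := one_le_mul_of_one_le_of_one_le hq1 hT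
  have h7 : 16 * ((2 ^ m : ℕ) : ℝ) ^ (Θ - c / 32 + ε₁) ≤ ((2 ^ m : ℕ) : ℝ) ^ (Θ - c / 64) := by
    have e1 : ((2 ^ m : ℕ) : ℝ) ^ ε * ((2 ^ m : ℕ) : ℝ) ^ (Θ - c / 32 + ε₁) ≤ ((2 ^ m : ℕ) : ℝ) ^ (Θ - c / 64) := by
      rw [← Real.rpow_add hN0]
      exact Real.rpow_le_rpow_of_exponent_le hN1 (by linarith)
    exact (mul_le_mul_of_nonneg_right R.K (Real.rpow_nonneg hN0.le _)).trans e1
  have h8 : (2 : ℝ) ^ q * (16 * ((2 ^ m : ℕ) : ℝ) ^ (Θ - c / 32 + ε₁)) ≤ 2 ^ q * ((2 ^ m : ℕ) : ℝ) ^ (Θ - c / 64) :=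
    mul_le_mul_of_nonneg_left h7 (by positivity)
  obtain ⟨U, hU⟩ : ∃ U, U = (2 : ℝ) ^ q * ((2 ^ m : ℕ) : ℝ) ^ (Θ - c / 32 + ε₁) := ⟨_, rfl⟩
  have h9 : (2 : ℝ) ^ q * (16 * ((2 ^ m : ℕ) : ℝ) ^ (Θ - c / 32 + ε₁)) = 16 * U := by
    rw [hU]
    ring
  rw [h9] at h8
  rw [← hU] at h4 h5 h6
  have h10 : ((2 ^ m : ℕ) : ℝ) ^ ε₁ / E (2 ^ q) * x + 1 ≤ 9 * U := by
    have e1 := mul_le_mul_of_nonneg_left h3 (div_nonneg hNe hE.le)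
    linarith
  linarith

/-- **THE TOP OF GS**: the strip and the kick give the change of the corrected scale. -/
theorem sigN96 [IsProbabilityMeasure μ] {F : ℝ → ℝ → ℝ → Frm96} {c₀ C : ℝ} (hR : RegP46 μ s c₀ Θ) (hδ : 0 < δ) (hc : 0 < c) (hcδ : 64 * c ≤ δ) (hcΘ : c ≤ Θ)
    (hη : 0 ≤ η) (hC : 0 < C) (hok : Est fun ι β γ m => (F ι β γ).Ok Θ m)
    (hst : Est fun ι β γ m => StN μ s (F ι β γ) (EE μ s) Θ δ c η (C * ι) m)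
    (hkb : Est fun ι β γ m => KbN μ s (F ι β γ) (EE μ s) Θ δ c η (C * ι) m) :
    Est fun ι β γ m => SigN μ s (F ι β γ) (EE μ s) Θ δ c η (c / 64) m := by
  obtain ⟨a, -, -, h1⟩ := hR.est hδ (k := 1) one_pos
  have h2 : Est fun ι _ _ _ => 0 < ι ∧ C * ι ≤ c / 128 ∧ 1 * ι ≤ c / 128 := by
    refine Est.iota ?_
    refine ⟨min (c / 128 / C) (c / 128), by positivity, fun ι hι h => ⟨hι, ?_, ?_⟩⟩
    · have h3 := h.trans (min_le_left _ _)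
      rw [le_div_iff₀ hC] at h3
      linarith
    · linarith [h.trans (min_le_right _ _)]
  refine ((h1.and h2).and (hok.and (hst.and hkb))).mono fun ι β γ _ _ _ => Eventually.of_forall fun m h => ?_
  obtain ⟨⟨⟨h3, -⟩, h4, h5, h6⟩, h7, h8, h9⟩ := h
  exact sig_of96 h3 hcδ hc hcΘ hη h6 (by positivity) h5 EE_mono h7 h8 h9

end

end Pool.Agent.W_7d29a1_C0.Asm96
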