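import Pool.Agent.W_7d29a1_C0.GSB52
import Pool.Agent.W_7d29a1_C0.GSM65
import Pool.Agent.W_7d29a1_C0.GSTop96

/-!
CURV0 (MP_7d29a1_pr), GS, THE CLOSING (helper52). `xq`: the averaged mean of the square of the loss; `rowq`: the averaged mean of
`a_j V_j Df_j`; `mN j`: the mass of the replicas given the outside of the block `B'` of `j` which do not meet the path on both sides of the
window of `j` inside of `B`; `mq`, `pq`: its averaged mean, and the one of the product for two rows. **`close52`**: if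
`rowq j ≤ K E gm (|Df_j| mN_j) + T j` for every row, then `xq` is at most the near term, plus `K ^ 2 / 9` times the sum of the `pq`, plus
`2 / 3` of the sum of the `T j`. **`kb52`**: `KbN` of `GSTop96` at one change of base, from the prices.
-/

set_option autoImplicit false
set_option linter.unusedSectionVars false
set_option linter.unusedVariables false

namespace Pool.W7d29a1.C0.GSC52

open Finset MeasureTheory Pool.Agent.W_7d29a1_F Pool.Agent.W_7d29a1_X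
open Pool.Agent.W_7d29a1_C0 Pool.Agent.W_7d29a1_C0.Mod92
open Pool.W7d29a1.C0 Pool.W7d29a1.C0.VT31
open Pool.Agent.W_7d29a1_C0.Swap57 Pool.Agent.W_7d29a1_C0.E4T32
open Pool.Agent.W_7d29a1_C0.Near32 Pool.Agent.W_7d29a1_C0.KickT32
open Pool.Agent.W_7d29a1_C0.GS65 (KRj KLj NM_KR_KL KR KL)

noncomputable section

/-- The kernel of the row `j`: no meeting on one side of its window, inside of the block `B`. -/
def Nj {Q : Finset (Finset ℕ)} (b σ j : ℕ) : Px Q → Px Q → ℝ := NM (j / σ * σ) (j - b) (j + b) (j / σ * σ + σ)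

/-- The mass of such replicas given the outside of `B'`. -/
def mN {Q : Finset (Finset ℕ)} (w : Px Q → ℝ) (b σ m j : ℕ) (x : Px Q) : ℝ :=
  mC w (j / (m * σ) * (m * σ)) (j / (m * σ) * (m * σ) + m * σ) (Nj b σ j) x

section Pt

variable {Q : Finset (Finset ℕ)} [Nonempty (Px Q)]

theorem mN_nonneg (w : Px Q → ℝ) (b σ m j : ℕ) (x : Px Q) : 0 ≤ mN w b σ m j x := mC_nonneg (NM_nonneg _ _ _ _) x

theorem mN_le_one (w : Px Q → ℝ) (b σ m j : ℕ) (x : Px Q) : mN w b σ m j x ≤ 1 := mC_le_one (NM_le_one _ _ _ _) x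

/-- The two classes. -/
theorem mN_classes (w : Px Q → ℝ) (b σ m j : ℕ) (x : Px Q) :
    mN w b σ m j x = mC w (j / (m * σ) * (m * σ)) (j / (m * σ) * (m * σ) + m * σ) (KRj b σ j) x +
      mC w (j / (m * σ) * (m * σ)) (j / (m * σ) * (m * σ) + m * σ) (KLj b σ j) x := by
  have e : Nj (Q := Q) b σ j x = KRj b σ j x + KLj b σ j x := congrFun NM_KR_KL x
  unfold mN mC
  rw [e, cE_add, Pi.add_apply]

theorem gm2_one (w f : Px Q → ℝ) : gm2 w (fun y z => 1 * f y) = gm w f := by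
  show gm w (fun y => gm w fun _ => 1 * f y) = gm w f
  congr 1
  funext y
  rw [gm_const, one_mul]

end Pt

section Vars

variable (μ : Measure ℝ) (s : ℝ) (N : ℕ) (ys : Finset ℕ) (δ B : ℝ) (b σ m : ℕ) (R : Finset ℕ) (c d h : ℕ)

/-- The averaged mean of the square of the loss. -/
def xq : ℝ :=
  avy ys fun y => ∫ ω, gm (wm μ s N (Pn N y) ω) (fun S => Dt μ s N (Pn N y) δ B b σ m R c d ω S ^ 2) ∂(Pm μ N)

/-- The averaged mean of `a_j V_j Df_j`. -/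
def rowq (j : ℕ) : ℝ :=
  avy ys fun y => ∫ ω, sr ω.2 j * gm (wm μ s N (Pn N y) ω)
    (fun S => Vn μ s N (Pn N y) δ B b σ m ω j S * Df μ s N (Pn N y) δ B b σ m R c d h ω j S) ∂(Pm μ N)

/-- The averaged mean of `|Df_j| mN_j`. -/
def dmq (j : ℕ) : ℝ :=
  avy ys fun y => ∫ ω, gm (wm μ s N (Pn N y) ω)
    (fun S => |Df μ s N (Pn N y) δ B b σ m R c d h ω j S| * mN (wm μ s N (Pn N y) ω) b σ m j S) ∂(Pm μ N)

/-- The averaged mean of `mN_j`. -/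
def mq (j : ℕ) : ℝ := avy ys fun y => ∫ ω, gm (wm μ s N (Pn N y) ω) (mN (wm μ s N (Pn N y) ω) b σ m j) ∂(Pm μ N)

/-- The averaged mean of `mN_j mN_k`. -/
def pq (j k : ℕ) : ℝ :=
  avy ys fun y => ∫ ω, gm (wm μ s N (Pn N y) ω)
    (fun S => mN (wm μ s N (Pn N y) ω) b σ m j S * mN (wm μ s N (Pn N y) ω) b σ m k S) ∂(Pm μ N)

variable {μ s N ys δ B b σ m R c d h}

theorem avy_sum {ι : Type*} (ys : Finset ℕ) (T : Finset ι) (Φ : ι → ℕ → ℝ) :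
    avy ys (fun y => ∑ i ∈ T, Φ i y) = ∑ i ∈ T, avy ys (Φ i) := by
  unfold avy
  rw [sum_comm, mul_sum]

theorem avy_mulc (ys : Finset ℕ) (r : ℝ) (Φ : ℕ → ℝ) : avy ys (fun y => r * Φ y) = r * avy ys Φ := by
  unfold avy
  rw [← mul_sum]
  ring

theorem meas_mN {Q : Finset (Finset ℕ)} (b σ m j : ℕ) (x : Px Q) : Measurable fun ω => mN (wm μ s N Q ω) b σ m j x :=
  meas_mC _ _ _ x

/-- **THE CLOSING.** -/
theorem close52 [IsProbabilityMeasure μ] (hy : ∀ y ∈ ys, y ≤ N) (hB : 0 ≤ B) (hσ : 0 < σ) (hm : 0 < m) (hcd : c ≤ d)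
    (hc : m * σ ∣ c) (hd : m * σ ∣ d) {K : ℝ} (hK : 0 ≤ K) {T : ℕ → ℝ}
    (hrow : ∀ j ∈ Rw R c d, rowq μ s N ys δ B b σ m R c d h j ≤ K * dmq μ s N ys δ B b σ m R c d h j + T j) :
    xq μ s N ys δ B b σ m R c d ≤ (h * B ^ 4 / 18 + K * (h * B ^ 2 / 9)) * ∑ j ∈ Rw R c d, mq μ s N ys b σ m j +
      K ^ 2 / 9 * ∑ j ∈ Rw R c d, ∑ k ∈ Rw R c d, pq μ s N ys b σ m j k + 2 / 3 * ∑ j ∈ Rw R c d, T j := by
  -- near and far pairs
  have h1 : xq μ s N ys δ B b σ m R c d ≤ h * B ^ 4 / 36 * ∑ j ∈ Rw R c d, mq μ s N ys b σ m j +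
      1 / 3 * ∑ j ∈ Rw R c d, rowq μ s N ys δ B b σ m R c d h j := by
    have e1 : ∀ y ∈ ys, ∫ ω, gm (wm μ s N (Pn N y) ω) (fun S => Dt μ s N (Pn N y) δ B b σ m R c d ω S ^ 2) ∂(Pm μ N) ≤
        h * B ^ 4 / 36 * ∑ j ∈ Rw R c d, ∫ ω, gm (wm μ s N (Pn N y) ω) (mN (wm μ s N (Pn N y) ω) b σ m j) ∂(Pm μ N) +
        1 / 3 * ∑ j ∈ Rw R c d, ∫ ω, sr ω.2 j * gm (wm μ s N (Pn N y) ω)
          (fun S => Vn μ s N (Pn N y) δ B b σ m ω j S * Df μ s N (Pn N y) δ B b σ m R c d h ω j S) ∂(Pm μ N) := by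
      intro y hyy
      have n1 : Nonempty (Px (Pn N y)) := ne_Pn (hy y hyy)
      have e2 := near_int (μ := μ) (s := s) (N := N) (Q := Pn N y) (δ := δ) hB b hσ hm R hcd hc hd h (K := fun _ _ => 1)
        (fun _ _ => zero_le_one) (CK := 1) (fun _ _ => le_rfl) (fun _ _ _ _ _ _ => rfl)
      have e3 : ∀ ω, gm2 (wm μ s N (Pn N y) ω) (fun y' z => 1 * (Dt μ s N (Pn N y) δ B b σ m R c d ω y') ^ 2) =
          gm (wm μ s N (Pn N y) ω) (fun S => Dt μ s N (Pn N y) δ B b σ m R c d ω S ^ 2) := fun ω => gm2_one _ _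
      have e4 : ∀ ω j, OKj μ s N (Pn N y) (fun _ _ => 1) b σ m ω j = gm (wm μ s N (Pn N y) ω) (mN (wm μ s N (Pn N y) ω) b σ m j) :=
        fun ω j => gm2_one _ _
      have e5 : ∀ ω j, gm2 (wm μ s N (Pn N y) ω) (fun y' z => 1 * (Vn μ s N (Pn N y) δ B b σ m ω j y' *
          Df μ s N (Pn N y) δ B b σ m R c d h ω j y')) = gm (wm μ s N (Pn N y) ω)
          (fun S => Vn μ s N (Pn N y) δ B b σ m ω j S * Df μ s N (Pn N y) δ B b σ m R c d h ω j S) := fun ω j => gm2_one _ _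
      simp only [e3, e4, e5] at e2
      exact e2
    unfold xq
    refine (avy_mono e1).trans (le_of_eq ?_)
    rw [avy_add, avy_mulc, avy_mulc, avy_sum, avy_sum]
    rfl
  -- the sum over the rows
  have h2 : K * ∑ j ∈ Rw R c d, dmq μ s N ys δ B b σ m R c d h j ≤ 3 / 2 * xq μ s N ys δ B b σ m R c d +
      K ^ 2 / 6 * ∑ j ∈ Rw R c d, ∑ k ∈ Rw R c d, pq μ s N ys b σ m j k +
      K * (h * B ^ 2 / 6) * ∑ j ∈ Rw R c d, mq μ s N ys b σ m j := by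
    have e1 : ∀ y ∈ ys, K * ∑ j ∈ Rw R c d, ∫ ω, gm (wm μ s N (Pn N y) ω)
          (fun S => |Df μ s N (Pn N y) δ B b σ m R c d h ω j S| * mN (wm μ s N (Pn N y) ω) b σ m j S) ∂(Pm μ N) ≤
        3 / 2 * ∫ ω, gm (wm μ s N (Pn N y) ω) (fun S => Dt μ s N (Pn N y) δ B b σ m R c d ω S ^ 2) ∂(Pm μ N) +
        K ^ 2 / 6 * (∑ j ∈ Rw R c d, ∑ k ∈ Rw R c d, ∫ ω, gm (wm μ s N (Pn N y) ω)
          (fun S => mN (wm μ s N (Pn N y) ω) b σ m j S * mN (wm μ s N (Pn N y) ω) b σ m k S) ∂(Pm μ N)) +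
        K * (h * B ^ 2 / 6) * ∑ j ∈ Rw R c d, ∫ ω, gm (wm μ s N (Pn N y) ω) (mN (wm μ s N (Pn N y) ω) b σ m j) ∂(Pm μ N) := by
      intro y hyy
      have n1 : Nonempty (Px (Pn N y)) := ne_Pn (hy y hyy)
      have e2 := rows_Pm (μ := μ) (s := s) (N := N) (Q := Pn N y) (B := B) δ b σ m R c d h hB hσ hm hcd hc hd (K := K) (θ := 3) hK
        (by norm_num) (fun j => j / (m * σ) * (m * σ)) (fun j => j / (m * σ) * (m * σ) + m * σ) (cls := fun j => Nj b σ j)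
        (fun j => NM_nonneg _ _ _ _) (fun j => NM_le_one _ _ _ _)
      have e3 : ∫ ω, gm (wm μ s N (Pn N y) ω) (fun x => (∑ j ∈ Rw R c d, mC (wm μ s N (Pn N y) ω) (j / (m * σ) * (m * σ))
            (j / (m * σ) * (m * σ) + m * σ) (Nj b σ j) x) ^ 2) ∂(Pm μ N) =
          ∑ j ∈ Rw R c d, ∑ k ∈ Rw R c d, ∫ ω, gm (wm μ s N (Pn N y) ω)
          (fun S => mN (wm μ s N (Pn N y) ω) b σ m j S * mN (wm μ s N (Pn N y) ω) b σ m k S) ∂(Pm μ N) := by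
        have i1 : ∀ j k, Integrable (fun ω => gm (wm μ s N (Pn N y) ω)
            (fun S => mN (wm μ s N (Pn N y) ω) b σ m j S * mN (wm μ s N (Pn N y) ω) b σ m k S)) (Pm μ N) := fun j k =>
          int_bdd (M := 1) (meas_gm meas_wm fun x => (meas_mN b σ m j x).mul (meas_mN b σ m k x)) fun ω => by
            rw [abs_of_nonneg (gm_nonneg _ fun x => mul_nonneg (mN_nonneg _ _ _ _ _ x) (mN_nonneg _ _ _ _ _ x))]
            refine (gm_mono _ (g := fun _ => 1) fun x => ?_).trans (le_of_eq (gm_const _ 1))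
            calc _ ≤ (1 : ℝ) * 1 := mul_le_mul (mN_le_one _ _ _ _ _ x) (mN_le_one _ _ _ _ _ x) (mN_nonneg _ _ _ _ _ x) zero_le_one
              _ = 1 := one_mul 1
        have e4 : ∀ ω, gm (wm μ s N (Pn N y) ω) (fun x => (∑ j ∈ Rw R c d, mC (wm μ s N (Pn N y) ω) (j / (m * σ) * (m * σ))
            (j / (m * σ) * (m * σ) + m * σ) (Nj b σ j) x) ^ 2) =
          ∑ j ∈ Rw R c d, ∑ k ∈ Rw R c d, gm (wm μ s N (Pn N y) ω)
            (fun S => mN (wm μ s N (Pn N y) ω) b σ m j S * mN (wm μ s N (Pn N y) ω) b σ m k S) := by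
          intro ω
          have e5 : (fun x => (∑ j ∈ Rw R c d, mC (wm μ s N (Pn N y) ω) (j / (m * σ) * (m * σ))
              (j / (m * σ) * (m * σ) + m * σ) (Nj b σ j) x) ^ 2) = fun x => ∑ j ∈ Rw R c d, ∑ k ∈ Rw R c d,
              mN (wm μ s N (Pn N y) ω) b σ m j x * mN (wm μ s N (Pn N y) ω) b σ m k x := by
            funext x
            rw [sq, sum_mul_sum]
            rfl
          rw [e5, gm_sum']
          exact sum_congr rfl fun j _ => gm_sum' _ _ _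
        simp only [e4]
        rw [integral_finsetSum _ fun j _ => integrable_finsetSum _ fun k _ => i1 j k]
        exact sum_congr rfl fun j _ => integral_finsetSum _ fun k _ => i1 j k
      rw [e3] at e2
      have e6 : (3 : ℝ) ^ 1 = 3 := by norm_num
      have e7 : K * (2 * (h : ℝ) * ((B / 2) ^ 2 / 3)) = K * (h * B ^ 2 / 6) := by ring
      have e8 : K ^ 2 / (2 * 3) = K ^ 2 / 6 := by norm_num
      rw [e7, e8] at e2
      exact e2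
    have e9 := avy_mono e1
    rw [avy_add, avy_add, avy_mulc, avy_mulc, avy_mulc, avy_mulc, avy_sum, avy_sum, avy_sum] at e9
    have e10 : ∑ j ∈ Rw R c d, avy ys (fun y => ∑ k ∈ Rw R c d, ∫ ω, gm (wm μ s N (Pn N y) ω)
          (fun S => mN (wm μ s N (Pn N y) ω) b σ m j S * mN (wm μ s N (Pn N y) ω) b σ m k S) ∂(Pm μ N)) =
        ∑ j ∈ Rw R c d, ∑ k ∈ Rw R c d, pq μ s N ys b σ m j k := sum_congr rfl fun j _ => avy_sum _ _ _
    rw [e10] at e9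
    exact e9
  have h3 : ∑ j ∈ Rw R c d, rowq μ s N ys δ B b σ m R c d h j ≤
      K * ∑ j ∈ Rw R c d, dmq μ s N ys δ B b σ m R c d h j + ∑ j ∈ Rw R c d, T j := by
    rw [mul_sum, ← sum_add_distrib]
    exact sum_le_sum hrow
  obtain ⟨x, hx⟩ : ∃ x, x = xq μ s N ys δ B b σ m R c d := ⟨_, rfl⟩
  obtain ⟨S1, hS1⟩ : ∃ x, x = ∑ j ∈ Rw R c d, mq μ s N ys b σ m j := ⟨_, rfl⟩
  obtain ⟨S2, hS2⟩ : ∃ x, x = ∑ j ∈ Rw R c d, ∑ k ∈ Rw R c d, pq μ s N ys b σ m j k := ⟨_, rfl⟩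
  obtain ⟨S3, hS3⟩ : ∃ x, x = ∑ j ∈ Rw R c d, T j := ⟨_, rfl⟩
  rw [← hx, ← hS1] at h1
  rw [← hx, ← hS1, ← hS2] at h2
  rw [← hS3] at h3
  rw [← hx, ← hS1, ← hS2, ← hS3]
  nlinarith [h1, h2, h3]

end Vars

/-! ### The prices and the top -/

section Top

open Filter
open Pool.Agent.W_7d29a1_C0.Asm96 (dx96 Ph96 KbN Frm96)
open Pool.Agent.W_7d29a1_C0.GS4 (Phi)
open Pool.Agent.W_7d29a1_C0.Par92 (Est Sml)

variable (μ : Measure ℝ) (s : ℝ) (F : Frm96) (E : ℕ → ℝ) (Θ δ c η ε : ℝ)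

/-- The kicked rows of the block. -/
def RwF (m q i : ℕ) : Finset ℕ := Rw (F.R m) (i * 2 ^ q) ((i + 1) * 2 ^ q)

/-- `mq` at one change of base. -/
def mqF (m p p' j : ℕ) : ℝ := mq μ s (F.L m) (F.ys m) (2 ^ p) (2 ^ sg96 E c m p) (2 ^ (sg96 E c m p' - sg96 E c m p)) j

/-- `pq` at one change of base. -/
def pqF (m p p' j k : ℕ) : ℝ := pq μ s (F.L m) (F.ys m) (2 ^ p) (2 ^ sg96 E c m p) (2 ^ (sg96 E c m p' - sg96 E c m p)) j k

/-- **The price of one row**: `N ^ ε / E_s`. -/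
def MqN (m : ℕ) : Prop := ∀ p p' q i : ℕ, Chg96 E Θ δ c η m p p' q → i < 2 ^ (m - q) → ∀ j ∈ RwF F m q i,
  mqF μ s F E c m p p' j ≤ ((2 ^ m : ℕ) : ℝ) ^ ε / E (2 ^ sg96 E c m p)

/-- **The price of two rows**: `N ^ ε (1 / E_s ^ 2 + [|j - k| < s'] / E_max(|j - k|, s))` (two gaps, or one long gap). -/
def PqN (m : ℕ) : Prop := ∀ p p' q i : ℕ, Chg96 E Θ δ c η m p p' q → i < 2 ^ (m - q) → ∀ j ∈ RwF F m q i, ∀ k ∈ RwF F m q i,
  pqF μ s F E c m p p' j k ≤ ((2 ^ m : ℕ) : ℝ) ^ ε * (1 / E (2 ^ sg96 E c m p) ^ 2 +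
    if Nat.dist j k < 2 ^ sg96 E c m p' then 1 / E (max (Nat.dist j k) (2 ^ sg96 E c m p)) else 0)

/-- **One row**: the kick of the row `j`, with the prices of the bad boxes. -/
def RowN (m : ℕ) : Prop := ∀ p p' q i : ℕ, Chg96 E Θ δ c η m p p' q → i < 2 ^ (m - q) → ∃ (K t : ℝ) (T : ℕ → ℕ → ℝ),
  0 ≤ K ∧ K ^ 2 ≤ ((2 ^ m : ℕ) : ℝ) ^ ε / E (2 ^ p) ∧ 2 ^ q * t ≤ 1 ∧
  (∀ j ∈ RwF F m q i, rowq μ s (F.L m) (F.ys m) F.dl (F.B m) (2 ^ p) (2 ^ sg96 E c m p) (2 ^ (sg96 E c m p' - sg96 E c m p)) (F.R m)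
      (i * 2 ^ q) ((i + 1) * 2 ^ q) (8 * 2 ^ p) j ≤
    K * dmq μ s (F.L m) (F.ys m) F.dl (F.B m) (2 ^ p) (2 ^ sg96 E c m p) (2 ^ (sg96 E c m p' - sg96 E c m p)) (F.R m)
      (i * 2 ^ q) ((i + 1) * 2 ^ q) (8 * 2 ^ p) j + (∑ k ∈ RwF F m q i, T j k + t)) ∧
  ∀ j ∈ RwF F m q i, ∀ k ∈ RwF F m q i, T j k ≤ Ph96 E c ε m p p' (Nat.dist j k)

variable {μ s F E Θ δ c η ε}

/-- The majorant is nonnegative. -/
theorem Ph_nonneg {m p p' : ℕ} {ε₁ : ℝ} (hE : ∀ n, 1 ≤ E n) (n : ℕ) : 0 ≤ Ph96 E c ε₁ m p p' n := by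
  have hE0 : ∀ n, 0 < E n := fun n => lt_of_lt_of_le one_pos (hE n)
  have hX : 0 ≤ ((2 ^ m : ℕ) : ℝ) ^ ε₁ := Real.rpow_nonneg (Nat.cast_nonneg _) _
  have e1 := hE0 (2 ^ p)
  have e2 := hE0 (2 ^ sg96 E c m p)
  exact Pool.Agent.W_7d29a1_C0.GS4.Phi_nonneg hE0 (by positivity) (by positivity) (by positivity) (by positivity) _ _ _ _

/-- The exponents of the majorant. -/
theorem Ph_exp {m p p' : ℕ} {ε₁ : ℝ} (hE : ∀ n, 1 ≤ E n) (h : 2 * ((2 ^ m : ℕ) : ℝ) ^ ε ≤ ((2 ^ m : ℕ) : ℝ) ^ ε₁) (n : ℕ) :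
    2 * Ph96 E c ε m p p' n ≤ Ph96 E c ε₁ m p p' n := by
  have hE0 : ∀ n, 0 < E n := fun n => lt_of_lt_of_le one_pos (hE n)
  obtain ⟨x, hx⟩ : ∃ x, x = ((2 ^ m : ℕ) : ℝ) ^ ε := ⟨_, rfl⟩
  obtain ⟨y, hy⟩ : ∃ y, y = ((2 ^ m : ℕ) : ℝ) ^ ε₁ := ⟨_, rfl⟩
  unfold Ph96 Phi
  rw [← hx, ← hy] at h
  rw [← hx, ← hy]
  have e1 := hE0 (2 ^ p)
  have e2 := hE0 (2 ^ sg96 E c m p)
  have e3 := hE0 (max n (2 ^ sg96 E c m p))
  have k1 : 2 * (if n < 8 * 2 ^ p then x / E (2 ^ sg96 E c m p) else 0) ≤ if n < 8 * 2 ^ p then y / E (2 ^ sg96 E c m p) else 0 := by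
    split_ifs
    · rw [← mul_div_assoc]
      exact div_le_div_of_nonneg_right h e2.le
    · rw [mul_zero]
  have k2 : 2 * (if n < 2 ^ sg96 E c m p' then x * (1 / E (2 ^ p) + 1 / E (2 ^ sg96 E c m p)) / E (max n (2 ^ sg96 E c m p)) else 0) ≤
      if n < 2 ^ sg96 E c m p' then y * (1 / E (2 ^ p) + 1 / E (2 ^ sg96 E c m p)) / E (max n (2 ^ sg96 E c m p)) else 0 := by
    split_ifs
    · rw [← mul_div_assoc, ← mul_assoc]
      exact div_le_div_of_nonneg_right (mul_le_mul_of_nonneg_right h (by positivity)) e3.le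
    · rw [mul_zero]
  have k3 : 2 * (x / E (2 ^ sg96 E c m p) ^ 2 / E (max n (2 ^ sg96 E c m p))) ≤
      y / E (2 ^ sg96 E c m p) ^ 2 / E (max n (2 ^ sg96 E c m p)) := by
    rw [← mul_div_assoc, ← mul_div_assoc]
    exact div_le_div_of_nonneg_right (div_le_div_of_nonneg_right h (by positivity)) e3.le
  have k4 : 2 * (x / (E (2 ^ sg96 E c m p) ^ 2 * E (2 ^ p))) ≤ y / (E (2 ^ sg96 E c m p) ^ 2 * E (2 ^ p)) := by
    rw [← mul_div_assoc]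
    exact div_le_div_of_nonneg_right h (by positivity)
  linarith

/-- The first order part under the majorant. -/
theorem Ph_pq {m p p' : ℕ} {ε₁ x : ℝ} (hE : ∀ n, 1 ≤ E n) (hx0 : 0 ≤ x) (hx : x ≤ ((2 ^ m : ℕ) : ℝ) ^ ε₁) (n : ℕ) :
    x / E (2 ^ p) * (1 / E (2 ^ sg96 E c m p) ^ 2 +
      if n < 2 ^ sg96 E c m p' then 1 / E (max n (2 ^ sg96 E c m p)) else 0) ≤ Ph96 E c ε₁ m p p' n := by
  have hE0 : ∀ n, 0 < E n := fun n => lt_of_lt_of_le one_pos (hE n)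
  obtain ⟨y, hy⟩ : ∃ y, y = ((2 ^ m : ℕ) : ℝ) ^ ε₁ := ⟨_, rfl⟩
  unfold Ph96 Phi
  rw [← hy] at hx
  rw [← hy]
  have e1 := hE0 (2 ^ p)
  have e2 := hE0 (2 ^ sg96 E c m p)
  have e3 := hE0 (max n (2 ^ sg96 E c m p))
  have hy0 : 0 ≤ y := hx0.trans hx
  have f1 : 0 ≤ (if n < 8 * 2 ^ p then y / E (2 ^ sg96 E c m p) else 0) := by
    split_ifs <;> positivity
  have f3 : 0 ≤ y / E (2 ^ sg96 E c m p) ^ 2 / E (max n (2 ^ sg96 E c m p)) := by positivity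
  have k4 : x / E (2 ^ p) * (1 / E (2 ^ sg96 E c m p) ^ 2) ≤ y / (E (2 ^ sg96 E c m p) ^ 2 * E (2 ^ p)) := by
    have e : x / E (2 ^ p) * (1 / E (2 ^ sg96 E c m p) ^ 2) = x / (E (2 ^ sg96 E c m p) ^ 2 * E (2 ^ p)) := by
      field_simp
    rw [e]
    exact div_le_div_of_nonneg_right hx (by positivity)
  have k2 : x / E (2 ^ p) * (if n < 2 ^ sg96 E c m p' then 1 / E (max n (2 ^ sg96 E c m p)) else 0) ≤
      if n < 2 ^ sg96 E c m p' then y * (1 / E (2 ^ p) + 1 / E (2 ^ sg96 E c m p)) / E (max n (2 ^ sg96 E c m p)) else 0 := by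
    split_ifs
    · have e : x / E (2 ^ p) * (1 / E (max n (2 ^ sg96 E c m p))) = x * (1 / E (2 ^ p)) / E (max n (2 ^ sg96 E c m p)) := by ring
      rw [e]
      refine div_le_div_of_nonneg_right ?_ e3.le
      refine mul_le_mul hx ?_ (by positivity) hy0
      have : 0 ≤ 1 / E (2 ^ sg96 E c m p) := by positivity
      linarith
    · rw [mul_zero]
  rw [mul_add]
  linarith

/-- **`KbN` FROM THE PRICES AND ONE ROW.** -/
theorem kbn52 [IsProbabilityMeasure μ] {m : ℕ} {β ε₁ : ℝ} (hE : ∀ n, 1 ≤ E n) (hy : ∀ y ∈ F.ys m, y ≤ F.L m) (hB : 1 ≤ F.B m)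
    (hBβ : F.B m ≤ ((2 ^ m : ℕ) : ℝ) ^ β) (hss : ∀ p p' q, Chg96 E Θ δ c η m p p' q → sg96 E c m p ≤ sg96 E c m p') (hcm : 0 ≤ c)
    (hε : 0 ≤ ε) (hε₁ : 2 * ε + 4 * β ≤ ε₁) (h2 : 2 * ((2 ^ m : ℕ) : ℝ) ^ ε ≤ ((2 ^ m : ℕ) : ℝ) ^ ε₁) (hM : MqN μ s F E Θ δ c η ε m) (hP : PqN μ s F E Θ δ c η ε m)
    (hR : RowN μ s F E Θ δ c η ε m) : KbN μ s F E Θ δ c η ε₁ m := by
  intro p p' q i hC hi
  obtain ⟨K, t, T, hK0, hK2, ht, hrow, hT⟩ := hR p p' q i hC hi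
  have hE0 : ∀ n, 0 < E n := fun n => lt_of_lt_of_le one_pos (hE n)
  set X : ℝ := ((2 ^ m : ℕ) : ℝ) with hX
  have hX1 : 1 ≤ X := by
    rw [hX]
    exact_mod_cast Nat.one_le_two_pow
  have hX0 : 0 < X := by linarith
  have hsp := hss p p' q hC
  have hsq : sg96 E c m p' ≤ q := by
    have h1 := hC.hsq'
    have h2 : 0 ≤ c * (m : ℝ) := mul_nonneg hcm (Nat.cast_nonneg _)
    have h3 : (sg96 E c m p' : ℝ) ≤ q := by linarith
    exact_mod_cast h3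
  have hprod : 2 ^ (sg96 E c m p' - sg96 E c m p) * 2 ^ sg96 E c m p = 2 ^ sg96 E c m p' := by
    rw [← pow_add]
    congr 1
    omega
  have hdiv : ∀ i : ℕ, 2 ^ (sg96 E c m p' - sg96 E c m p) * 2 ^ sg96 E c m p ∣ i * 2 ^ q := fun i => by
    rw [hprod]
    exact Dvd.dvd.mul_left (pow_dvd_pow 2 hsq) i
  have hcl := close52 (μ := μ) (s := s) (N := F.L m) (ys := F.ys m) (δ := F.dl) (B := F.B m) (b := 2 ^ p) (σ := 2 ^ sg96 E c m p)
    (m := 2 ^ (sg96 E c m p' - sg96 E c m p)) (R := F.R m) (c := i * 2 ^ q) (d := (i + 1) * 2 ^ q) (h := 8 * 2 ^ p) hy (by linarith)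
    (by positivity) (by positivity) (Nat.mul_le_mul_right _ (Nat.le_succ i)) (hdiv i) (hdiv (i + 1)) hK0
    (T := fun j => ∑ k ∈ RwF F m q i, T j k + t) hrow
  obtain ⟨S, hS⟩ : ∃ S, S = RwF F m q i := ⟨_, rfl⟩
  have hS' : Rw (F.R m) (i * 2 ^ q) ((i + 1) * 2 ^ q) = S := by
    rw [hS]
    rfl
  rw [hS'] at hcl
  rw [← hS] at hcl
  have hcard : (S.card : ℝ) ≤ 2 ^ q := by
    have h1 : S.card ≤ (Ico (i * 2 ^ q) ((i + 1) * 2 ^ q)).card := by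
      rw [← hS']
      exact card_le_card inter_subset_right
    rw [Nat.card_Ico] at h1
    have h2 : (i + 1) * 2 ^ q - i * 2 ^ q = 2 ^ q := by
      rw [Nat.add_mul, Nat.one_mul, Nat.add_sub_cancel_left]
    rw [h2] at h1
    exact_mod_cast h1
  have eb := hE0 (2 ^ p)
  have es := hE0 (2 ^ sg96 E c m p)
  have hMj : ∀ j ∈ S, mqF μ s F E c m p p' j ≤ X ^ ε / E (2 ^ sg96 E c m p) := fun j hj => hM p p' q i hC hi j (by rwa [hS] at hj)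
  have hPjk : ∀ j ∈ S, ∀ k ∈ S, pqF μ s F E c m p p' j k ≤ X ^ ε * (1 / E (2 ^ sg96 E c m p) ^ 2 +
      if Nat.dist j k < 2 ^ sg96 E c m p' then 1 / E (max (Nat.dist j k) (2 ^ sg96 E c m p)) else 0) := fun j hj k hk =>
    hP p p' q i hC hi j (by rwa [hS] at hj) k (by rwa [hS] at hk)
  rw [← hS] at hT
  -- numbers
  have hXe : 1 ≤ X ^ ε := Real.one_le_rpow hX1 hε
  have hXe1 : X ^ ε * X ^ ε * X ^ (4 * β) ≤ X ^ ε₁ := by
    rw [← Real.rpow_add hX0, ← Real.rpow_add hX0]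
    exact Real.rpow_le_rpow_of_exponent_le hX1 (by linarith)
  have hB4 : F.B m ^ 4 ≤ X ^ (4 * β) := by
    have h1 := pow_le_pow_left₀ (by linarith : (0 : ℝ) ≤ F.B m) hBβ 4
    have h2 : (X ^ β) ^ 4 = X ^ (4 * β) := by
      rw [← Real.rpow_natCast, ← Real.rpow_mul hX0.le]
      congr 1
      push_cast
      ring
    rwa [h2] at h1
  have hB1 : 1 ≤ F.B m ^ 4 := one_le_pow₀ hB
  have hB24 : F.B m ^ 2 ≤ F.B m ^ 4 := pow_le_pow_right₀ hB (by norm_num)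
  have hX4 : 1 ≤ X ^ (4 * β) := hB1.trans hB4
  have hXX : X ^ ε * X ^ ε ≤ X ^ ε₁ := by
    calc X ^ ε * X ^ ε = X ^ ε * X ^ ε * 1 := (mul_one _).symm
      _ ≤ X ^ ε * X ^ ε * X ^ (4 * β) := mul_le_mul_of_nonneg_left hX4 (by positivity)
      _ ≤ _ := hXe1
  have hXle : X ^ ε ≤ X ^ ε₁ := by
    calc X ^ ε = X ^ ε * 1 := (mul_one _).symm
      _ ≤ X ^ ε * X ^ ε := mul_le_mul_of_nonneg_left hXe (by positivity)
      _ ≤ _ := hXX
  have hK2' : K ^ 2 ≤ X ^ ε := hK2.trans (div_le_self (by positivity) (hE _))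
  have hK1 : K ≤ X ^ ε := by
    have h1 : K ^ 2 ≤ (X ^ ε) ^ 2 := hK2'.trans (by nlinarith)
    exact le_of_sq_le_sq h1 (by positivity)
  refine ⟨fun _ _ => 0, fun j k => K ^ 2 / 9 * pqF μ s F E c m p p' j k + 2 / 3 * T j k, ?_, ?_⟩
  · intro j hj k hk
    rw [hS'] at hj hk
    refine ⟨Ph_nonneg hE _, ?_⟩
    have e3 := hE0 (max (Nat.dist j k) (2 ^ sg96 E c m p))
    have h1 := hPjk j hj k hk
    have h3 : K ^ 2 / 9 * pqF μ s F E c m p p' j k ≤ 1 / 9 * ((X ^ ε * X ^ ε) / E (2 ^ p) * (1 / E (2 ^ sg96 E c m p) ^ 2 +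
        if Nat.dist j k < 2 ^ sg96 E c m p' then 1 / E (max (Nat.dist j k) (2 ^ sg96 E c m p)) else 0)) := by
      have h0 : 0 ≤ (1 / E (2 ^ sg96 E c m p) ^ 2 +
        if Nat.dist j k < 2 ^ sg96 E c m p' then 1 / E (max (Nat.dist j k) (2 ^ sg96 E c m p)) else 0) := by
        split_ifs <;> positivity
      calc K ^ 2 / 9 * pqF μ s F E c m p p' j k ≤ K ^ 2 / 9 * (X ^ ε * (1 / E (2 ^ sg96 E c m p) ^ 2 +
            if Nat.dist j k < 2 ^ sg96 E c m p' then 1 / E (max (Nat.dist j k) (2 ^ sg96 E c m p)) else 0)) :=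
              mul_le_mul_of_nonneg_left h1 (by positivity)
        _ ≤ (X ^ ε / E (2 ^ p)) / 9 * (X ^ ε * (1 / E (2 ^ sg96 E c m p) ^ 2 +
            if Nat.dist j k < 2 ^ sg96 E c m p' then 1 / E (max (Nat.dist j k) (2 ^ sg96 E c m p)) else 0)) :=
              mul_le_mul_of_nonneg_right (by linarith) (mul_nonneg (by positivity) h0)
        _ = _ := by ring
    have h4 := Ph_pq (E := E) (c := c) (m := m) (p := p) (p' := p') (ε₁ := ε₁) (x := X ^ ε * X ^ ε) hE (by positivity) hXX (Nat.dist j k)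
    have h5 := hT j hj k hk
    have h6 := Ph_exp (E := E) (c := c) (p := p) (p' := p') (ε₁ := ε₁) hE h2 (Nat.dist j k)
    have h7 := Ph_nonneg (E := E) (c := c) (m := m) (p := p) (p' := p') (ε₁ := ε₁) hE (Nat.dist j k)
    have h8 := Ph_nonneg (E := E) (c := c) (m := m) (p := p) (p' := p') (ε₁ := ε) hE (Nat.dist j k)
    linarith
  · have hz : (∑ j ∈ Rw (F.R m) (i * 2 ^ q) ((i + 1) * 2 ^ q), ∑ k ∈ Rw (F.R m) (i * 2 ^ q) ((i + 1) * 2 ^ q), (fun _ _ : ℕ => (0 : ℝ)) j k) = 0 := by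
      simp
    rw [hz, Real.sqrt_zero, zero_mul, add_zero, hS']
    refine (show dx96 μ s F E c m p p' q i = xq μ s (F.L m) (F.ys m) F.dl (F.B m) (2 ^ p) (2 ^ sg96 E c m p)
      (2 ^ (sg96 E c m p' - sg96 E c m p)) (F.R m) (i * 2 ^ q) ((i + 1) * 2 ^ q) from rfl).le.trans (hcl.trans ?_)
    have hsm : ∑ j ∈ S, mq μ s (F.L m) (F.ys m) (2 ^ p) (2 ^ sg96 E c m p) (2 ^ (sg96 E c m p' - sg96 E c m p)) j ≤
        2 ^ q * (X ^ ε / E (2 ^ sg96 E c m p)) := by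
      refine (sum_le_card_nsmul _ _ _ hMj).trans ?_
      rw [nsmul_eq_mul]
      exact mul_le_mul_of_nonneg_right hcard (by positivity)
    have hsm0 : 0 ≤ 2 ^ q * (X ^ ε / E (2 ^ sg96 E c m p)) := by positivity
    have hco : ((8 * 2 ^ p : ℕ) : ℝ) * F.B m ^ 4 / 18 + K * (((8 * 2 ^ p : ℕ) : ℝ) * F.B m ^ 2 / 9) ≤ 8 * 2 ^ p * (X ^ ε * X ^ (4 * β)) := by
      have h1 : ((8 * 2 ^ p : ℕ) : ℝ) = 8 * 2 ^ p := by push_cast; ring
      rw [h1]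
      have h2 : K * F.B m ^ 2 ≤ X ^ ε * X ^ (4 * β) := mul_le_mul hK1 (hB24.trans hB4) (by positivity) (by positivity)
      have h3 : F.B m ^ 4 ≤ X ^ ε * X ^ (4 * β) := by
        calc F.B m ^ 4 ≤ 1 * X ^ (4 * β) := by rw [one_mul]; exact hB4
          _ ≤ _ := mul_le_mul_of_nonneg_right hXe (by positivity)
      have h4 : (0 : ℝ) ≤ 8 * 2 ^ p := by positivity
      have h5 := mul_le_mul_of_nonneg_left h2 h4
      have h6 := mul_le_mul_of_nonneg_left h3 h4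
      have h7 : 0 ≤ 8 * 2 ^ p * (X ^ ε * X ^ (4 * β)) := by positivity
      have h8 : 8 * (2 : ℝ) ^ p * F.B m ^ 4 / 18 + K * (8 * 2 ^ p * F.B m ^ 2 / 9) =
          8 * 2 ^ p * F.B m ^ 4 / 18 + 8 * 2 ^ p * (K * F.B m ^ 2) / 9 := by ring
      rw [h8]
      linarith
    have hco0 : 0 ≤ ((8 * 2 ^ p : ℕ) : ℝ) * F.B m ^ 4 / 18 + K * (((8 * 2 ^ p : ℕ) : ℝ) * F.B m ^ 2 / 9) := by positivity
    have hnear : (((8 * 2 ^ p : ℕ) : ℝ) * F.B m ^ 4 / 18 + K * (((8 * 2 ^ p : ℕ) : ℝ) * F.B m ^ 2 / 9)) *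
        ∑ j ∈ S, mq μ s (F.L m) (F.ys m) (2 ^ p) (2 ^ sg96 E c m p) (2 ^ (sg96 E c m p' - sg96 E c m p)) j ≤
        2 ^ q * (8 * 2 ^ p * (X ^ ε₁ / E (2 ^ sg96 E c m p))) := by
      calc _ ≤ (8 * 2 ^ p * (X ^ ε * X ^ (4 * β))) * (2 ^ q * (X ^ ε / E (2 ^ sg96 E c m p))) :=
            (mul_le_mul_of_nonneg_left hsm hco0).trans (mul_le_mul_of_nonneg_right hco hsm0)
        _ = 2 ^ q * (8 * 2 ^ p * ((X ^ ε * X ^ ε * X ^ (4 * β)) / E (2 ^ sg96 E c m p))) := by ring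
        _ ≤ _ := by
          refine mul_le_mul_of_nonneg_left ?_ (by positivity)
          refine mul_le_mul_of_nonneg_left ?_ (by positivity)
          exact div_le_div_of_nonneg_right hXe1 es.le
    have hsum : K ^ 2 / 9 * ∑ j ∈ S, ∑ k ∈ S, pq μ s (F.L m) (F.ys m) (2 ^ p) (2 ^ sg96 E c m p)
          (2 ^ (sg96 E c m p' - sg96 E c m p)) j k + 2 / 3 * ∑ j ∈ S, (∑ k ∈ S, T j k + t) =
        ∑ j ∈ S, ∑ k ∈ S, (K ^ 2 / 9 * pqF μ s F E c m p p' j k + 2 / 3 * T j k) + 2 / 3 * (S.card * t) := by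
      rw [sum_add_distrib, sum_const, nsmul_eq_mul]
      simp only [sum_add_distrib, ← mul_sum]
      unfold pqF
      ring
    have ht' : 2 / 3 * (S.card * t) ≤ 1 := by
      rcases le_or_gt t 0 with h | h
      · have : (S.card : ℝ) * t ≤ 0 := mul_nonpos_of_nonneg_of_nonpos (Nat.cast_nonneg _) h
        linarith
      · have : (S.card : ℝ) * t ≤ 2 ^ q * t := mul_le_mul_of_nonneg_right hcard h.le
        linarith
    linarith

end Top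

end

end Pool.W7d29a1.C0.GSC52
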