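import Pool.Agent.W_7d29a1_C0.GSQ65

/-!
MP_7d29a1_pr, [C0], G4 (helper65): THE STAR OF `V_j` AT EVERY WEIGHT.

`HB_eqP`: at every weight of the class `AxP P`, `V_j = cV_B' (cE_B g) = cE_B' (UUK (NMP P ..))`. The plan `gs3` (`0`: `z | B`, `1`: `y | B'`,
`2`: the free base path `x`) and `psi3 K g`: `ev_gs3` for every kernel `K`, every weight and every function `h` of `x`, `gm_HB_gs3` for
`h` which does not look inside of `B'`, `gm_HB_classes` the classes `KR`, `KL`; sizes; `gm_cE_swap` exchanges `x` and `y`.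
-/

set_option autoImplicit false
set_option linter.unusedSectionVars false

namespace Pool.Agent.W_7d29a1_C0.GS65

open Finset MeasureTheory Pool.Agent.W_7d29a1_F Pool.Agent.W_7d29a1_X Pool.Agent.W_7d29a1_C0.Mod92
open Pool.Agent.W_7d29a1_C0.Swap57 Pool.Agent.W_7d29a1_C0.E4T32
open Pool.W7d29a1.C0 (gz gm lse gz_pos gz_ne gm_nonneg gm_mono)
open Pool.W7d29a1.C0.VT31
open Pool.W7d29a1.C0.I52

noncomputable section

variable {μ : Measure ℝ} {s : ℝ} {N : ℕ} {Q : Finset (Finset ℕ)} [SwQ Q] [Nonempty (Px Q)]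

/-! ### The swap at a meeting in the rows of `P` -/

section Sw

variable {P : ℕ → Prop} {c al be d : ℕ} {S S' : Px Q}

/-- The first common position in the rows of `P` after `c`. -/
def tP (P : ℕ → Prop) (c : ℕ) (S S' : Px Q) : ℕ := sInf {i | c ≤ i ∧ P i ∧ Eqp S S' i}

/-- The last common position in the rows of `P` before `d`. -/
def uP (P : ℕ → Prop) (d : ℕ) (S S' : Px Q) : ℕ := sSup {i | i ≤ d ∧ P i ∧ Eqp S S' i}

/-- The swapped path. -/
def sP (P : ℕ → Prop) (c d : ℕ) (S S' : Px Q) : Px Q := swP (tP P c S S') (uP P d S S') S S'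

omit [SwQ Q] [Nonempty (Px Q)] in
theorem tP_symm (P : ℕ → Prop) (c : ℕ) (S S' : Px Q) : tP P c S' S = tP P c S S' := by
  unfold tP
  rw [Eqp_symm]

omit [SwQ Q] [Nonempty (Px Q)] in
theorem uP_symm (P : ℕ → Prop) (d : ℕ) (S S' : Px Q) : uP P d S' S = uP P d S S' := by
  unfold uP
  rw [Eqp_symm]

omit [SwQ Q] [Nonempty (Px Q)] in
theorem tP_spec (h : MtP P c al be d S S') : c ≤ tP P c S S' ∧ tP P c S S' ≤ al ∧ P (tP P c S S') ∧ Eqp S S' (tP P c S S') := by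
  obtain ⟨⟨i, h1, h2, h2', h3⟩, _⟩ := h
  have h4 : (i : ℕ) ∈ {i | c ≤ i ∧ P i ∧ Eqp S S' i} := ⟨h1, h2', h3⟩
  have h5 := Nat.sInf_mem ⟨i, h4⟩
  exact ⟨h5.1, (Nat.sInf_le h4).trans h2, h5.2.1, h5.2.2⟩

omit [SwQ Q] [Nonempty (Px Q)] in
theorem uP_spec (h : MtP P c al be d S S') : be ≤ uP P d S S' ∧ uP P d S S' ≤ d ∧ P (uP P d S S') ∧ Eqp S S' (uP P d S S') := by
  obtain ⟨_, i, h1, h2, h2', h3⟩ := h
  have h4 : (i : ℕ) ∈ {i | i ≤ d ∧ P i ∧ Eqp S S' i} := ⟨h2, h2', h3⟩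
  have hb : BddAbove {i | i ≤ d ∧ P i ∧ Eqp S S' i} := ⟨d, fun j hj => hj.1⟩
  have h5 := Nat.sSup_mem ⟨i, h4⟩ hb
  exact ⟨h1.trans (le_csSup hb h4), h5.1, h5.2.1, h5.2.2⟩

omit [SwQ Q] [Nonempty (Px Q)] in
theorem tu_P (hab : al ≤ be) (h : MtP P c al be d S S') : tP P c S S' ≤ uP P d S S' :=
  (tP_spec h).2.1.trans (hab.trans (uP_spec h).1)

theorem Eqp_sP (hab : al ≤ be) (h : MtP P c al be d S S') : Eqp (sP P c d S S') (sP P c d S' S) = Eqp S S' := by
  unfold sP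
  rw [tP_symm P c S S', uP_symm P d S S']
  exact Eqp_swP (tu_P hab h) (tP_spec h).2.2.2 (uP_spec h).2.2.2

theorem MtP_sP (hab : al ≤ be) (h : MtP P c al be d S S') : MtP P c al be d (sP P c d S S') (sP P c d S' S) := by
  unfold MtP
  rw [Eqp_sP hab h]
  exact h

theorem sP_sP (hab : al ≤ be) (h : MtP P c al be d S S') : sP P c d (sP P c d S S') (sP P c d S' S) = S := by
  have h1 : tP P c (sP P c d S S') (sP P c d S' S) = tP P c S S' := by
    unfold tP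
    rw [Eqp_sP hab h]
  have h2 : uP P d (sP P c d S S') (sP P c d S' S) = uP P d S S' := by
    unfold uP
    rw [Eqp_sP hab h]
  have e : sP P c d (sP P c d S S') (sP P c d S' S) =
      swP (tP P c (sP P c d S S') (sP P c d S' S)) (uP P d (sP P c d S S') (sP P c d S' S)) (sP P c d S S') (sP P c d S' S) := rfl
  rw [e, h1, h2]
  unfold sP
  rw [tP_symm P c S S', uP_symm P d S S']
  exact swP_swP (tu_P hab h) (tP_spec h).2.2.2 (uP_spec h).2.2.2

/-- The swap identity for a symmetric kernel times a difference, replicas given two outsides of the block `[c1, d1)`. -/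
theorem cE2_NMP {c1 d1 : ℕ} (hc : c1 ≤ c) (hd : d ≤ d1) (hab : al ≤ be) {w : Px Q → ℝ} (hw : AxP P w)
    {g : Px Q → ℝ} (hg : Lk al be g) (H : Px Q → Px Q → ℝ)
    (hH : ∀ (S S' : Px Q) (t u : ℕ), c ≤ t → t ≤ al → be ≤ u → u ≤ d → P t → P u → Eqp S S' t → Eqp S S' u →
      H (swP t u S S') (swP t u S' S) = H S S') (S0 S0' : Px Q) :
    cE2 w (pJ c1 d1) (fun S S' => NMP P c al be d S S' * (H S S' * (g S - g S'))) S0 S0' =
      cE2 w (pJ c1 d1) (fun S S' => H S S' * (g S - g S')) S0 S0' := by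
  classical
  have hg' : ∀ S S' : Px Q, MtP P c al be d S S' → g (sP P c d S S') = g S' := fun S S' h =>
    Lk.swP_in hg (tP_spec h).2.1 (uP_spec h).1 (tu_P hab h) (tP_spec h).2.2.2 (uP_spec h).2.2.2
  have hs' : ∀ S S' : Px Q, MtP P c al be d S S' → MtP P c al be d S' S := fun S S' h => by rw [MtP_symm]; exact h
  have key := swap_abs w (pJ c1 d1) (MtP P c al be d) (sP P c d) (fun S S' h => MtP_sP hab h) hs'
    (fun S S' h => sP_sP hab h)
    (fun S S' h => pJ_swP (hc.trans (tP_spec h).1) (tu_P hab h) ((uP_spec h).2.1.trans hd) (tP_spec h).2.2.2 (uP_spec h).2.2.2)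
    (fun S S' h => by
      have e := hw S S' (tP P c S S') (uP P d S S') (tP_spec h).2.2.1 (uP_spec h).2.2.1 (tu_P hab h) (tP_spec h).2.2.2
        (uP_spec h).2.2.2
      unfold sP
      rw [tP_symm P c S S', uP_symm P d S S']
      exact e)
    (F := fun S S' => H S S' * (g S - g S'))
    (fun S S' h => by
      show H (sP P c d S S') (sP P c d S' S) * (g (sP P c d S S') - g (sP P c d S' S)) = _
      have e : H (sP P c d S S') (sP P c d S' S) = H S S' := by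
        unfold sP
        rw [tP_symm P c S S', uP_symm P d S S']
        exact hH _ _ _ _ (tP_spec h).1 (tP_spec h).2.1 (uP_spec h).1 (uP_spec h).2.1 (tP_spec h).2.2.1 (uP_spec h).2.2.1
          (tP_spec h).2.2.2 (uP_spec h).2.2.2
      rw [e, hg' _ _ h, hg' _ _ (hs' _ _ h)]
      ring) S0 S0'
  have e1 : cE2 w (pJ c1 d1) (fun S S' => H S S' * (g S - g S')) S0 S0' =
      cE2 w (pJ c1 d1) (fun S S' => NMP P c al be d S S' * (H S S' * (g S - g S'))) S0 S0' +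
        cE2 w (pJ c1 d1) (fun S S' => if MtP P c al be d S S' then H S S' * (g S - g S') else 0) S0 S0' := by
    rw [← cE2_add]
    refine cE2_congr w _ (fun S S' => ?_) _ _
    unfold NMP
    split_ifs <;> ring
  rw [e1, key, add_zero]

end Sw

/-! ### One row -/

/-- The difference of `g` at the base path and at a replica given the outside of `[c1, d1)`, with the kernel `K`. -/
def DDK (w : Px Q → ℝ) (c1 d1 : ℕ) (K : Px Q → Px Q → ℝ) (g : Px Q → ℝ) (x : Px Q) : ℝ :=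
  cE w (pJ c1 d1) (fun y => K x y * (g x - g y)) x

/-- The pathwise functional of one row, with the kernel `K`. -/
def UUK (w : Px Q → ℝ) (c1 d1 c2 d2 : ℕ) (K : Px Q → Px Q → ℝ) (g : Px Q → ℝ) (x : Px Q) : ℝ :=
  cE w (pJ c2 d2) g x * DDK w c1 d1 K g x

section Row

variable {P : ℕ → Prop} {c1 d1 c2 d2 al be : ℕ} {w : Px Q → ℝ} {g : Px Q → ℝ} {K K' : Px Q → Px Q → ℝ}

omit [SwQ Q] in
theorem UUK_add : UUK w c1 d1 c2 d2 (K + K') g = UUK w c1 d1 c2 d2 K g + UUK w c1 d1 c2 d2 K' g := by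
  funext x
  have e : DDK w c1 d1 (K + K') g x = DDK w c1 d1 K g x + DDK w c1 d1 K' g x := by
    unfold DDK
    have h := congrFun (cE_add w (pJ c1 d1) (fun y => K x y * (g x - g y)) fun y => K' x y * (g x - g y)) x
    rw [Pi.add_apply] at h
    rw [← h]
    congr 1
    funext y
    simp only [Pi.add_apply]
    ring
  rw [Pi.add_apply]
  unfold UUK
  rw [e]
  ring

omit [SwQ Q] in
theorem UUK_congr (h : ∀ x y, K x y = K' x y) : UUK w c1 d1 c2 d2 K g = UUK w c1 d1 c2 d2 K' g := by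
  have e : K = K' := funext fun x => funext fun y => h x y
  rw [e]

omit [SwQ Q] in
theorem cE_UUK (x0 : Px Q) : cE w (pJ c1 d1) (UUK w c1 d1 c2 d2 K g) x0 =
    cE2 w (pJ c1 d1) (fun x y => K x y * (cE w (pJ c2 d2) g x * (g x - g y))) x0 x0 := by
  unfold cE2
  refine cE_congr_fib fun x hx => ?_
  unfold UUK DDK
  have e1 : cE w (pJ c1 d1) (fun y => K x y * (g x - g y)) x =
      cE w (pJ c1 d1) (fun y => K x y * (g x - g y)) x0 := cE_meas w (pJ c1 d1) _ x x0 hx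
  rw [e1, mul_comm, ← cE_mul_const]
  congr 1
  funext y
  ring

omit [SwQ Q] in
/-- The conditional variance without the kernel. -/
theorem HB_eq_one (h1 : c1 ≤ c2) (h3 : d2 ≤ d1) (x0 : Px Q) : HB w c1 d1 c2 d2 g x0 =
    cE2 w (pJ c1 d1) (fun x y => cE w (pJ c2 d2) g x * (g x - g y)) x0 x0 := by
  set F : Px Q → ℝ := cE w (pJ c2 d2) g with hF
  have hFm : Mp (pJ c2 d2) F := cE_meas w _ g
  have t1 : cE w (pJ c1 d1) (F * F) = cE w (pJ c1 d1) (F * g) := by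
    rw [show F * F = cE w (pJ c2 d2) (F * g) by rw [cE_pull w hFm g], cE_tower w (crs_pJ h1 h3)]
  have t2 : cE w (pJ c1 d1) F = cE w (pJ c1 d1) g := by
    rw [hF, cE_tower w (crs_pJ h1 h3)]
  have t3 : cE2 w (pJ c1 d1) (fun x y => F x * (g x - g y)) x0 x0 =
      cE w (pJ c1 d1) (F * g) x0 - cE w (pJ c1 d1) F x0 * cE w (pJ c1 d1) g x0 := by
    unfold cE2
    have e2 : ∀ x, cE w (pJ c1 d1) (fun y => F x * (g x - g y)) x0 = F x * g x - F x * cE w (pJ c1 d1) g x0 := by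
      intro x
      have a1 : (fun y => F x * (g x - g y)) = (fun _ => F x * g x) - (F x) • g := by
        funext y
        simp only [Pi.sub_apply, Pi.smul_apply, smul_eq_mul]
        ring
      rw [a1, cE_sub, Pi.sub_apply, cE_smul, Pi.smul_apply, smul_eq_mul,
        cE_of_meas w (show Mp (pJ c1 d1) (fun _ : Px Q => F x * g x) from fun _ _ _ => rfl)]
    rw [funext e2]
    have a2 : (fun x => F x * g x - F x * cE w (pJ c1 d1) g x0) = F * g - (cE w (pJ c1 d1) g x0) • F := by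
      funext x
      simp only [Pi.sub_apply, Pi.mul_apply, Pi.smul_apply, smul_eq_mul]
      ring
    rw [a2, cE_sub, Pi.sub_apply, cE_smul, Pi.smul_apply, smul_eq_mul]
    ring
  rw [t3]
  show cE w (pJ c1 d1) (F * F) x0 - cE w (pJ c1 d1) F x0 * cE w (pJ c1 d1) F x0 = _
  rw [t1, t2]

/-- **One row, every weight of the class `AxP P`.** -/
theorem HB_eqP (h1 : c1 ≤ c2) (h3 : d2 ≤ d1) (hab : al ≤ be) (hw : AxP P w) (hg : Lk al be g) :
    HB w c1 d1 c2 d2 g = cE w (pJ c1 d1) (UUK w c1 d1 c2 d2 (NMP P c2 al be d2) g) := by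
  funext x0
  have hFm : Mp (pJ c2 d2) (cE w (pJ c2 d2) g) := cE_meas w _ g
  have h := cE2_NMP (P := P) (c := c2) (d := d2) h1 h3 hab hw hg (fun S _ => cE w (pJ c2 d2) g S)
    (fun S S' t u a1 a2 a3 a4 _ _ a5 a6 => hFm _ _ (pJ_swP a1 (a2.trans (hab.trans a3)) a4 a5 a6)) x0 x0
  rw [cE_UUK, HB_eq_one h1 h3, ← h]

/-- **The conditional mean against a function which does not look inside of `B'`.** -/
theorem gm_HB_h (h1 : c1 ≤ c2) (h3 : d2 ≤ d1) (hab : al ≤ be) (hw : AxP P w) (hg : Lk al be g) {h : Px Q → ℝ}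
    (hh : Mp (pJ c1 d1) h) :
    gm w (h * HB w c1 d1 c2 d2 g) = gm w (h * UUK w c1 d1 c2 d2 (NMP P c2 al be d2) g) := by
  rw [HB_eqP h1 h3 hab hw hg, gm_mul_cE w hh]

end Row

/-! ### The plan of three replicas -/

/-- The star of `V_j`: `0`: `z` given the outside of `B`, `1`: `y` given the outside of `B'`, `2`: the free base path `x`. -/
def gs3 (Q : Finset (Finset ℕ)) [Nonempty (Px Q)] (c1 d1 c2 d2 : ℕ) : Plan (Px Q) 3 := starP ![pJ c2 d2, pJ c1 d1]

/-- The integrand. -/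
def psi3 (K : Px Q → Px Q → ℝ) (g : Px Q → ℝ) (x : Fin 3 → Px Q) : ℝ := g (x 0) * (K (x 2) (x 1) * (g (x 2) - g (x 1)))

section Three

variable {P : ℕ → Prop} {c1 d1 c2 d2 al be : ℕ} {w : Px Q → ℝ} {g : Px Q → ℝ} {K : Px Q → Px Q → ℝ}

omit [SwQ Q] in
/-- **The value of the plan**, every weight, every kernel. -/
theorem ev_gs3 (c1 d1 c2 d2 : ℕ) (w : Px Q → ℝ) (K : Px Q → Px Q → ℝ) (g h : Px Q → ℝ) :
    ev (gs3 Q c1 d1 c2 d2) w (fun x => psi3 K g x * h (x 2)) = gm w (h * UUK w c1 d1 c2 d2 K g) := by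
  have e := ev_starP (Y := Finset ℕ × ℕ) ![pJ c2 d2, pJ c1 d1] w h ![fun _ z => g z, fun x y => K x y * (g x - g y)]
  have e1 : (fun x : Fin 3 → Px Q => psi3 K g x * h (x 2)) = fun x : Fin 3 → Px Q =>
      (∏ i : Fin 2, (![fun _ z => g z, fun x y => K x y * (g x - g y)] : Fin 2 → Px Q → Px Q → ℝ) i (x (Fin.last 2))
        (x i.castSucc)) * h (x (Fin.last 2)) := by
    funext x
    rw [Fin.prod_univ_two]
    rfl
  rw [e1]
  refine e.trans ?_
  congr 1
  funext x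
  rw [Fin.prod_univ_two]
  show cE w (pJ c2 d2) g x * cE w (pJ c1 d1) (fun y => K x y * (g x - g y)) x * h x = h x * UUK w c1 d1 c2 d2 K g x
  unfold UUK DDK
  ring

/-- **`G[h V_j]` as the value of the plan**, every weight of the class, `h` does not look inside of `B'`. -/
theorem gm_HB_gs3 (h1 : c1 ≤ c2) (h3 : d2 ≤ d1) (hab : al ≤ be) (hw : AxP P w) (hg : Lk al be g) {h : Px Q → ℝ}
    (hh : Mp (pJ c1 d1) h) :
    gm w (h * HB w c1 d1 c2 d2 g) = ev (gs3 Q c1 d1 c2 d2) w (fun x => psi3 (NMP P c2 al be d2) g x * h (x 2)) := by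
  rw [ev_gs3, gm_HB_h h1 h3 hab hw hg hh]

/-- **The two classes**, for the weights which keep the full swap. -/
theorem gm_HB_classes (h1 : c1 ≤ c2) (h3 : d2 ≤ d1) (hab : al ≤ be) (hP : ∀ t, (c2 ≤ t ∧ t ≤ al) ∨ (be ≤ t ∧ t ≤ d2) → P t)
    (hw : AxP P w) (hg : Lk al be g) {h : Px Q → ℝ} (hh : Mp (pJ c1 d1) h) :
    gm w (h * HB w c1 d1 c2 d2 g) =
      ev (gs3 Q c1 d1 c2 d2) w (fun x => psi3 (KR be d2) g x * h (x 2)) +
        ev (gs3 Q c1 d1 c2 d2) w (fun x => psi3 (KL c2 al be d2) g x * h (x 2)) := by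
  rw [ev_gs3, ev_gs3, gm_HB_h h1 h3 hab hw hg hh]
  have e : UUK w c1 d1 c2 d2 (NMP P c2 al be d2) g = UUK w c1 d1 c2 d2 (KR be d2) g + UUK w c1 d1 c2 d2 (KL c2 al be d2) g := by
    rw [← UUK_add]
    refine UUK_congr fun x y => ?_
    rw [NMP_eq hP, NM_KR_KL]
  rw [e, mul_add]
  have h5 := congrFun (cE_add w (fun _ : Px Q => ()) (h * UUK w c1 d1 c2 d2 (KR be d2) g) (h * UUK w c1 d1 c2 d2 (KL c2 al be d2) g))
    (Classical.arbitrary _)
  rw [Pi.add_apply, gm_unit, gm_unit, gm_unit] at h5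
  exact h5

omit [SwQ Q] [Nonempty (Px Q)] in
theorem abs_psi3_le {M : ℝ} (hM : ∀ S, |g S| ≤ M) (hK : ∀ x y, 0 ≤ K x y) (x : Fin 3 → Px Q) :
    |psi3 K g x| ≤ 2 * M ^ 2 * K (x 2) (x 1) := by
  have hM0 : 0 ≤ M := (abs_nonneg _).trans (hM (x 0))
  have hd : |g (x 2) - g (x 1)| ≤ 2 * M := (abs_sub _ _).trans (by linarith [hM (x 2), hM (x 1)])
  unfold psi3
  rw [abs_mul, abs_mul, abs_of_nonneg (hK (x 2) (x 1))]
  calc |g (x 0)| * (K (x 2) (x 1) * |g (x 2) - g (x 1)|) ≤ M * (K (x 2) (x 1) * (2 * M)) :=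
        mul_le_mul (hM _) (mul_le_mul_of_nonneg_left hd (hK _ _)) (mul_nonneg (hK _ _) (abs_nonneg _)) hM0
    _ = _ := by ring

/-- The mass of the kernel, told from the base path. -/
def mK (w : Px Q → ℝ) (c1 d1 : ℕ) (K : Px Q → Px Q → ℝ) (x : Px Q) : ℝ := cE w (pJ c1 d1) (K x) x

omit [SwQ Q] in
theorem mK_nonneg (hK : ∀ x y, 0 ≤ K x y) (x : Px Q) : 0 ≤ mK w c1 d1 K x := cE_nonneg w _ (hK x) x

omit [SwQ Q] in
/-- **The trivial size.** -/
theorem ev_abs_psi3_le {M : ℝ} (hM : ∀ S, |g S| ≤ M) (hK : ∀ x y, 0 ≤ K x y) (h : Px Q → ℝ) :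
    ev (gs3 Q c1 d1 c2 d2) w (fun x => |psi3 K g x * h (x 2)|) ≤ 2 * M ^ 2 * gm w (fun x => |h x| * mK w c1 d1 K x) := by
  have e0 : ∀ x : Fin 3 → Px Q, |psi3 K g x * h (x 2)| ≤ 2 * M ^ 2 * (K (x 2) (x 1) * |h (x 2)|) := fun x => by
    rw [abs_mul]
    have := mul_le_mul_of_nonneg_right (abs_psi3_le hM hK x) (abs_nonneg (h (x 2)))
    linarith
  refine (ev_mono _ w e0).trans_eq ?_
  rw [ev_smul]
  congr 1
  have e := ev_starP (Y := Finset ℕ × ℕ) ![pJ c2 d2, pJ c1 d1] w (fun x : Px Q => |h x|) ![fun _ _ => 1, fun x y => K x y]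
  have e1 : (fun x : Fin 3 → Px Q => K (x 2) (x 1) * |h (x 2)|) = fun x : Fin 3 → Px Q =>
      (∏ i : Fin 2, (![fun _ _ => 1, fun x y => K x y] : Fin 2 → Px Q → Px Q → ℝ) i (x (Fin.last 2))
        (x i.castSucc)) * |h (x (Fin.last 2))| := by
    funext x
    rw [Fin.prod_univ_two]
    show K (x 2) (x 1) * |h (x 2)| = 1 * K (x 2) (x 1) * |h (x 2)|
    ring
  rw [e1]
  refine e.trans ?_
  congr 1
  funext x
  rw [Fin.prod_univ_two]
  show cE w (pJ c2 d2) (fun _ => 1) x * cE w (pJ c1 d1) (fun y => K x y) x * |h x| = |h x| * mK w c1 d1 K x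
  rw [cE_one]
  unfold mK
  ring

omit [SwQ Q] in
/-- **Exchange of the roles of `x` and `y`.** -/
theorem gm_cE_swap (w : Px Q → ℝ) (c1 d1 : ℕ) {h : Px Q → ℝ} (hh : Mp (pJ c1 d1) h) (F : Px Q → Px Q → ℝ) :
    gm w (fun x => h x * cE w (pJ c1 d1) (F x) x) = gm w (fun x => h x * cE w (pJ c1 d1) (fun y => F y x) x) := by
  have e1 : ∀ G : Px Q → Px Q → ℝ, gm w (fun x => h x * cE w (pJ c1 d1) (G x) x) = gm w (fun x => h x * cE2 w (pJ c1 d1) G x x) := by
    intro G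
    have e2 := gm_mul_cE w hh fun x => cE w (pJ c1 d1) (G x) x
    have e3 : (h * cE w (pJ c1 d1) fun x => cE w (pJ c1 d1) (G x) x) = fun x => h x * cE2 w (pJ c1 d1) G x x := by
      funext x0
      rw [Pi.mul_apply]
      congr 1
      unfold cE2
      exact cE_congr_fib fun x hx => cE_meas w (pJ c1 d1) _ x x0 hx
    rw [e3] at e2
    exact e2.symm
  rw [e1, e1 fun x y => F y x]
  congr 1
  funext x
  congr 1
  unfold cE2
  exact cE_comm w _ _ F x x

end Three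

end

end Pool.Agent.W_7d29a1_C0.GS65
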