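import Pool.Agent.W_7d29a1_C0.GSA52
import Pool.Agent.W_7d29a1_C0.GSR65
import Pool.Agent.W_7d29a1_C0.FlipK61
import Pool.Agent.W_7d29a1_C0.KickQ32

/-!
MP_7d29a1_pr, [CURV0], GS IN ONE KICK (helper32): ONE ROW.

`VA`: the loss of the row `k` as the functional `Vk` of `x', y', z'`, no meeting in the rows outside of the window of `j`; `VW_VA`: at every
weight which keeps the swap between these rows. `PW_Ph`: the mean `PW` of the product (helper61) as the sum of the two classes `KR`, `KL` of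
the star `Ph`. `one_cls`: `(wm) - (wm + U)` = the step (1 - T) (`kickT`) + (T - flip) (`tf52`), one class, at a fixed end. `one32`: the flip
identity + the two steps: the mean of `a_j V_j D_j`.
-/

set_option autoImplicit false
set_option linter.unusedSectionVars false

namespace Pool.Agent.W_7d29a1_C0.One32

open Finset MeasureTheory Pool.Agent.W_7d29a1_F Pool.Agent.W_7d29a1_X Pool.Agent.W_7d29a1_C0.Mod92
open Pool.W7d29a1.C0 (gz gm lse gz_pos gz_ne gm_nonneg gm_mono gm_const)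
open Pool.W7d29a1.C0.VT31
open Pool.W7d29a1.C0.H27 (Sh PredR Sh_meas)
open Pool.Agent.W_7d29a1_C0.Q32 (WL q3)
open Pool.Agent.W_7d29a1_C0.Near32
open Pool.Agent.W_7d29a1_C0.KickT32
open Pool.Agent.W_7d29a1_C0.GS65
open Pool.Agent.W_7d29a1_C0.E4T32
open Pool.Agent.W_7d29a1_C0.Swap57 (SwQ Lk NM NI Lk_gg)
open Pool.Agent.W_7d29a1_C0.Flip61 (VW DW PW FErr one_kick grid_in)
open Pool.W7d29a1.C0.I52 (Vk rb tf52 PhB_sum rb_nonneg)

noncomputable section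

variable {μ : Measure ℝ} {s : ℝ} {N : ℕ} {Q : Finset (Finset ℕ)} [SwQ Q] [Nonempty (Px Q)]

/-! ### The objects -/

/-- The rows outside of the open window of `j`. -/
def Po (b j t : ℕ) : Prop := t ≤ j - b ∨ j + b ≤ t

/-- The outside of the block of length `σ` of the row `k`. -/
def pB (σ k : ℕ) : Px Q → Finset ℕ × ℕ := pJ (k / σ * σ) (k / σ * σ + σ)

/-- No meeting, outside of the window of `j`, on one side of the window of `k` in its block. -/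
def NA (b σ j k : ℕ) : Px Q → Px Q → ℝ := NMP (Po b j) (k / σ * σ) (k - b) (k + b) (k / σ * σ + σ)

/-- The loss of the row `k`, spectator of the row `j`. -/
def VA (μ : Measure ℝ) (s : ℝ) (δ B : ℝ) (b σ m j : ℕ) (w : Px Q → ℝ) (ω : Env × Finset ℕ) (k : ℕ) : Px Q → ℝ :=
  Vk w (pB σ k) (pB (m * σ) k) (gg μ s Q δ B b ω k) (NA b σ j k)

/-- The weighted sum over the rows of `K`. -/
def DA (μ : Measure ℝ) (s : ℝ) (δ B : ℝ) (b σ m j : ℕ) (K : Finset ℕ) (w : Px Q → ℝ) (ω : Env × Finset ℕ) : Px Q → ℝ :=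
  ∑ k ∈ K, (sr ω.2 k / 3) • VA μ s δ B b σ m j w ω k

/-- The classes of the own pair: `true` = no meeting on the right, `false` = a meeting on the right, none on the left. -/
def Cl (b σ j : ℕ) (r : Bool) : Px Q → Px Q → ℝ :=
  if r then KR (j + b) (j / σ * σ + σ) else KL (j / σ * σ) (j - b) (j + b) (j / σ * σ + σ)

omit [SwQ Q] [Nonempty (Px Q)] in
theorem Cl_nonneg (b σ j : ℕ) (r : Bool) (x y : Px Q) : 0 ≤ Cl b σ j r x y := by
  unfold Cl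
  split_ifs
  · exact KR_nonneg x y
  · exact KL_nonneg x y

omit [SwQ Q] [Nonempty (Px Q)] in
theorem Cl_le_one (b σ j : ℕ) (r : Bool) (x y : Px Q) : Cl b σ j r x y ≤ 1 := by
  unfold Cl
  split_ifs
  · exact NI_le_one' _ _ _ _
  · exact (KL_le x y).trans (NI_le_one' _ _ _ _)

omit [SwQ Q] [Nonempty (Px Q)] in
theorem NA_nonneg (b σ j k : ℕ) (x y : Px Q) : 0 ≤ NA b σ j k x y := NMP_nonneg x y

omit [SwQ Q] [Nonempty (Px Q)] in
theorem NA_le_one (b σ j k : ℕ) (x y : Px Q) : NA b σ j k x y ≤ 1 := NMP_le_one x y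

/-! ### The grid -/

omit [SwQ Q] [Nonempty (Px Q)] in
/-- The points of the grid are outside of the window. -/
theorem Po_grid {b σ j : ℕ} (h : j / σ * σ + b ≤ j ∧ j + b ≤ (j / σ + 1) * σ) (i : ℕ) : Po b j (i * σ) := by
  unfold Po
  rcases Nat.lt_or_ge (j / σ) i with h1 | h1
  · right
    exact h.2.trans (Nat.mul_le_mul_right σ h1)
  · left
    have := Nat.mul_le_mul_right σ h1
    omega

theorem Po_grid' {b σ m j : ℕ} (h : j / σ * σ + b ≤ j ∧ j + b ≤ (j / σ + 1) * σ) (i : ℕ) : Po b j (i * (m * σ)) := by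
  have := Po_grid h (i * m)
  rwa [mul_assoc] at this

/-- A row outside of the window of `j`. -/
theorem win {b σ k : ℕ} (h : k / σ * σ + b ≤ k ∧ k + b ≤ (k / σ + 1) * σ) : k / σ * σ ≤ k - b ∧ k + b ≤ k / σ * σ + σ := by
  have := h.2
  rw [Nat.succ_mul] at this
  omega

/-! ### The loss at the weights of the class -/

variable {δ B : ℝ} {b σ m j : ℕ}

theorem VW_VA (hm : 0 < m) {w : Px Q → ℝ} (hw : AxP (Po b j) w) (ω : Env × Finset ℕ) {k : ℕ}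
    (hk : k / σ * σ + b ≤ k ∧ k + b ≤ (k / σ + 1) * σ) :
    VW μ s δ B b σ m w ω k = VA μ s δ B b σ m j w ω k := by
  obtain ⟨g1, g2⟩ := grid_in (σ := σ) hm k
  have e := HB_eqP (P := Po b j) g1 g2 (show k - b ≤ k + b by omega) hw (Lk_gg (μ := μ) (s := s) (Q := Q) δ B b k ω le_rfl le_rfl)
  exact e

theorem Wk_blk {w : Px Q → ℝ} (hw : AxP (Po b j) w) (hj : j / σ * σ + b ≤ j ∧ j + b ≤ (j / σ + 1) * σ) (i : ℕ) :
    Swap57.Wk (i * σ) (i * σ) (i * σ + σ) (i * σ + σ) w := by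
  have h2 := Po_grid hj (i + 1)
  rw [Nat.succ_mul] at h2
  exact hw.Wk_end (Nat.le_add_right _ _) (Po_grid hj i) h2

theorem Wk_blk' {w : Px Q → ℝ} (hw : AxP (Po b j) w) (hj : j / σ * σ + b ≤ j ∧ j + b ≤ (j / σ + 1) * σ) (i : ℕ) :
    Swap57.Wk (i * (m * σ)) (i * (m * σ)) (i * (m * σ) + m * σ) (i * (m * σ) + m * σ) w := by
  have h2 := Po_grid' (m := m) hj (i + 1)
  rw [Nat.succ_mul] at h2
  exact hw.Wk_end (Nat.le_add_right _ _) (Po_grid' hj i) h2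

/-- The spectators do not look inside of the block `B'` of `j`. -/
theorem Mp_VW (hm : 0 < m) {w : Px Q → ℝ} (hw : AxP (Po b j) w) (hj : j / σ * σ + b ≤ j ∧ j + b ≤ (j / σ + 1) * σ)
    (ω : Env × Finset ℕ) {k : ℕ} (hk : k / σ * σ + b ≤ k ∧ k + b ≤ (k / σ + 1) * σ) :
    Mp (pB (m * σ) j) (VW μ s δ B b σ m w ω k) := by
  by_cases h : k / (m * σ) = j / (m * σ)
  · have h1 : VW μ s δ B b σ m w ω k = cV w (pB (m * σ) j) (cE w (pJ (k / σ * σ) (k / σ * σ + σ)) (gg μ s Q δ B b ω k)) := by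
      unfold VW pB
      rw [h]
    rw [h1]
    exact cV_meas w _ _
  · obtain ⟨g1, g2⟩ := grid_in (σ := σ) hm k
    obtain ⟨w1, w2⟩ := win hk
    have h1 : Lk (k / σ * σ) (k / σ * σ + σ) (gg μ s Q δ B b ω k) := Lk_gg δ B b k ω w1 w2
    have h2 := Lk_cE (Nat.le_add_right _ _) (Wk_blk hw hj (k / σ)) h1
    have h3 := Lk_cV (Nat.le_add_right _ _) (Wk_blk' (m := m) hw hj (k / (m * σ))) (Lk_mono g1 g2 h2)
    exact Lk_Mp (Flip61.blk_ne h) h3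

/-- **The product as the sum of the two classes.** -/
theorem PW_Ph (hm : 0 < m) {w : Px Q → ℝ} (hw : AxP (Po b j) w) (hj : j / σ * σ + b ≤ j ∧ j + b ≤ (j / σ + 1) * σ)
    (ω : Env × Finset ℕ) {K : Finset ℕ} (hK : ∀ k ∈ K, k / σ * σ + b ≤ k ∧ k + b ≤ (k / σ + 1) * σ) :
    PW μ s δ B b σ m K j w ω = ∑ r : Bool, Ph w (pB (m * σ) j) (pB σ j) (Cl b σ j r) (gg μ s Q δ B b ω j)
      (DA μ s δ B b σ m j K w ω) := by
  have e1 : DW μ s δ B b σ m K w ω = DA μ s δ B b σ m j K w ω := by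
    unfold DW DA
    exact sum_congr rfl fun k hk => by rw [VW_VA hm hw ω (hK k hk)]
  have hM : Mp (pJ (j / (m * σ) * (m * σ)) (j / (m * σ) * (m * σ) + m * σ)) (DA μ s δ B b σ m j K w ω) := by
    rw [← e1]
    intro S S' h
    unfold DW
    rw [Finset.sum_apply, Finset.sum_apply]
    exact sum_congr rfl fun k hk => by
      rw [Pi.smul_apply, Pi.smul_apply, Mp_VW hm hw hj ω (hK k hk) S S' h]
  obtain ⟨g1, g2⟩ := grid_in (σ := σ) hm j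
  obtain ⟨w1, w2⟩ := win hj
  have e2 := gm_HB_h (P := Po b j) g1 g2 (show j - b ≤ j + b by omega) hw (Lk_gg (μ := μ) (s := s) (Q := Q) δ B b j ω le_rfl le_rfl) hM
  have e3 : (NMP (Po b j) (j / σ * σ) (j - b) (j + b) (j / σ * σ + σ) : Px Q → Px Q → ℝ) =
      Cl b σ j true + Cl b σ j false := by
    funext x y
    rw [NMP_eq (fun t ht => by
      unfold Po
      omega), NM_KR_KL]
    rfl
  have e4 : ∀ r : Bool, Ph w (pB (m * σ) j) (pB σ j) (Cl b σ j r) (gg μ s Q δ B b ω j) (DA μ s δ B b σ m j K w ω) =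
      gm w (DA μ s δ B b σ m j K w ω * UUK w (j / (m * σ) * (m * σ)) (j / (m * σ) * (m * σ) + m * σ) (j / σ * σ) (j / σ * σ + σ)
        (Cl b σ j r) (gg μ s Q δ B b ω j)) := by
    intro r
    unfold Ph
    congr 1
    funext x
    rw [Pi.mul_apply]
    unfold UUK DDK pB
    ring
  rw [Fintype.sum_bool, e4, e4]
  have e5 : PW μ s δ B b σ m K j w ω = gm w (DA μ s δ B b σ m j K w ω *
      HB w (j / (m * σ) * (m * σ)) (j / (m * σ) * (m * σ) + m * σ) (j / σ * σ) (j / σ * σ + σ) (gg μ s Q δ B b ω j)) := by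
    unfold PW
    rw [e1, mul_comm]
    rfl
  rw [e5, e2, e3, UUK_add, mul_add]
  have h5 := congrFun (cE_add w (fun _ : Px Q => ()) (DA μ s δ B b σ m j K w ω *
    UUK w (j / (m * σ) * (m * σ)) (j / (m * σ) * (m * σ) + m * σ) (j / σ * σ) (j / σ * σ + σ) (Cl b σ j true) (gg μ s Q δ B b ω j))
    (DA μ s δ B b σ m j K w ω * UUK w (j / (m * σ) * (m * σ)) (j / (m * σ) * (m * σ) + m * σ) (j / σ * σ) (j / σ * σ + σ)
      (Cl b σ j false) (gg μ s Q δ B b ω j))) (Classical.arbitrary _)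
  rw [Pi.add_apply, E4T32.gm_unit, E4T32.gm_unit, E4T32.gm_unit] at h5
  exact h5

/-! ### Measurability, sizes -/

section Meas

variable {κ : Type*} [DecidableEq κ]

omit [SwQ Q] in
theorem meas_PhBg {W : Env × Finset ℕ → Px Q → ℝ} (hW : ∀ S, Measurable fun ω => W ω S) {p' p : Px Q → Finset ℕ × ℕ}
    {cls : Px Q → Px Q → ℝ} {g h : Env × Finset ℕ → Px Q → ℝ} (hg : ∀ S, Measurable fun ω => g ω S)
    (hh : ∀ S, Measurable fun ω => h ω S) (bx : Px Q → κ) (β : κ × κ) :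
    Measurable fun ω => PhB (W ω) p' p cls (g ω) (h ω) bx β := by
  unfold PhB
  refine meas_gm hW fun x => ?_
  exact (((hh x).const_mul _).mul (meas_cE hW hg _ x)).mul
    (meas_cE (f := fun ω y => cls x y * (g ω x - g ω y) * ib bx β.2 y) hW
      (fun y => (((hg x).sub (hg y)).const_mul _).mul_const _) _ x)

omit [SwQ Q] in
theorem meas_Vk {W : Env × Finset ℕ → Px Q → ℝ} (hW : ∀ S, Measurable fun ω => W ω S) {p' p : Px Q → Finset ℕ × ℕ}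
    {g : Env × Finset ℕ → Px Q → ℝ} (hg : ∀ S, Measurable fun ω => g ω S) (NMA : Px Q → Px Q → ℝ) (x : Px Q) :
    Measurable fun ω => Vk (W ω) p p' (g ω) NMA x := by
  unfold Pool.W7d29a1.C0.I52.Vk
  refine meas_cE hW (fun x' => ?_) _ x
  exact (meas_cE hW hg _ x').mul (meas_cE (f := fun ω y => NMA x' y * (g ω x' - g ω y)) hW
    (fun y => ((hg x').sub (hg y)).const_mul _) _ x')

omit [SwQ Q] in
theorem meas_DA {W : Env × Finset ℕ → Px Q → ℝ} (hW : ∀ S, Measurable fun ω => W ω S) (K : Finset ℕ) (x : Px Q) :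
    Measurable fun ω => DA μ s δ B b σ m j K (W ω) ω x := by
  unfold DA
  have e : (fun ω : Env × Finset ℕ => (∑ k ∈ K, (sr ω.2 k / 3) • VA μ s δ B b σ m j (W ω) ω k) x) =
      fun ω => ∑ k ∈ K, (sr ω.2 k / 3) * VA μ s δ B b σ m j (W ω) ω k x := by
    funext ω
    rw [Finset.sum_apply]
    rfl
  rw [e]
  exact Finset.measurable_fun_sum _ fun k _ => ((meas_sr k).div_const 3).mul (meas_Vk hW (fun S => meas_gg δ B b k S) _ x)

omit [SwQ Q] in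
theorem meas_rb {W : Env × Finset ℕ → Px Q → ℝ} (hW : ∀ S, Measurable fun ω => W ω S) (p' pk' : Px Q → Finset ℕ × ℕ)
    (cls NMA : Px Q → Px Q → ℝ) (bx : Px Q → κ) (β : κ × κ) : Measurable fun ω => rb (W ω) p' pk' cls bx β NMA := by
  unfold Pool.W7d29a1.C0.I52.rb Swap57.cE2
  refine meas_gm hW fun x => ?_
  exact ((meas_cE (f := fun _ y => cls x y * ib bx β.2 y) hW (fun y => measurable_const) _ x).const_mul _).mul
    (meas_cE hW (fun x' => meas_cE (f := fun _ y => NMA x' y) hW (fun y => measurable_const) _ x) _ x)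

omit [SwQ Q] in
theorem abs_VA (hB : 0 ≤ B) (w : Px Q → ℝ) (ω : Env × Finset ℕ) (k : ℕ) (x : Px Q) :
    |VA μ s δ B b σ m j w ω k x| ≤ 2 * (B / 2) ^ 2 := by
  have hg := fun S => abs_gg (μ := μ) (s := s) (Q := Q) (δ := δ) hB b ω k S
  refine abs_cE_le w _ (fun x' => ?_) x
  have h1 := abs_cE_le w (pB σ k) hg x'
  have h2 : |cE w (pB (m * σ) k) (fun y => NA b σ j k x' y * (gg μ s Q δ B b ω k x' - gg μ s Q δ B b ω k y)) x'| ≤ B :=
    abs_cE_le w _ (fun y => by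
      rw [abs_mul, abs_of_nonneg (NA_nonneg _ _ _ _ _ _)]
      have h3 : |gg μ s Q δ B b ω k x' - gg μ s Q δ B b ω k y| ≤ B := (abs_sub _ _).trans (by linarith [hg x', hg y])
      calc _ ≤ 1 * B := mul_le_mul (NA_le_one _ _ _ _ _ _) h3 (abs_nonneg _) zero_le_one
        _ = B := one_mul B) x'
  rw [abs_mul]
  calc _ ≤ B / 2 * B := mul_le_mul h1 h2 (abs_nonneg _) (by linarith)
    _ = _ := by ring

omit [SwQ Q] in
theorem abs_DA (hB : 0 ≤ B) (K : Finset ℕ) (w : Px Q → ℝ) (ω : Env × Finset ℕ) (x : Px Q) :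
    |DA μ s δ B b σ m j K w ω x| ≤ K.card * (B ^ 2 / 6) := by
  unfold DA
  rw [Finset.sum_apply]
  refine (abs_sum_le_sum_abs _ _).trans ((sum_le_card_nsmul _ _ (B ^ 2 / 6) fun k _ => ?_).trans (le_of_eq (nsmul_eq_mul _ _)))
  rw [Pi.smul_apply, smul_eq_mul, abs_mul, abs_div, abs_sr]
  have h1 := abs_VA (μ := μ) (s := s) (δ := δ) (b := b) (σ := σ) (m := m) (j := j) hB w ω k x
  have h3 : |(3 : ℝ)| = 3 := by norm_num
  rw [h3]
  calc 1 / 3 * |VA μ s δ B b σ m j w ω k x| ≤ 1 / 3 * (2 * (B / 2) ^ 2) := mul_le_mul_of_nonneg_left h1 (by norm_num)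
    _ = B ^ 2 / 6 := by ring

omit [SwQ Q] in
theorem rb_le_one (w : Px Q → ℝ) (p' pk' : Px Q → Finset ℕ × ℕ) {cls NMA : Px Q → Px Q → ℝ} (hc0 : ∀ x y, 0 ≤ cls x y)
    (hc1 : ∀ x y, cls x y ≤ 1) (hn0 : ∀ x y, 0 ≤ NMA x y) (hn1 : ∀ x y, NMA x y ≤ 1) (bx : Px Q → κ) (β : κ × κ) :
    rb w p' pk' cls bx β NMA ≤ 1 := by
  have l1 : ∀ (p : Px Q → Finset ℕ × ℕ) (f : Px Q → ℝ), (∀ y, f y ≤ 1) → ∀ x, cE w p f x ≤ 1 := fun p f hf x => by
    have e := cE_mono w p (f := f) (g := fun _ => 1) hf x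
    rwa [cE_one] at e
  refine (gm_mono w (g := fun _ => (1 : ℝ)) fun x => ?_).trans (le_of_eq (gm_const w 1))
  have a1 : cE w p' (fun y => cls x y * ib bx β.2 y) x ≤ 1 := l1 _ _ (fun y => by
    nlinarith [hc0 x y, hc1 x y, ib_nonneg bx β.2 y, ib_le_one bx β.2 y]) x
  have a2 : 0 ≤ cE w p' (fun y => cls x y * ib bx β.2 y) x := cE_nonneg w _ (fun y => mul_nonneg (hc0 x y) (ib_nonneg _ _ _)) x
  have a3 : Swap57.cE2 w pk' NMA x x ≤ 1 := l1 _ _ (fun x' => l1 _ _ (hn1 x') x) x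
  have a4 : 0 ≤ Swap57.cE2 w pk' NMA x x := cE_nonneg w _ (fun x' => cE_nonneg w _ (hn0 x') x) x
  calc _ ≤ (1 : ℝ) * 1 * 1 := mul_le_mul (mul_le_mul (ib_le_one _ _ _) a1 a2 zero_le_one) a3 a4 (by norm_num)
    _ = 1 := by norm_num

/-- The bad term of `tf52`, from the weight `w` to the weight `w'`. -/
def BT (w w' : Px Q → ℝ) (p' pk' : Px Q → Finset ℕ × ℕ) (cls NMA : Px Q → Px Q → ℝ) (bx : Px Q → κ) (β : κ × κ) (M q τ : ℝ) : ℝ :=
  (if q < gm w (Pool.W7d29a1.C0.I52.bd (w' - w) τ) then 1 else 0) *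
    (4 * M ^ 4 * (rb w' p' pk' cls bx β NMA + rb w p' pk' cls bx β NMA))

omit [SwQ Q] in
theorem BT_nonneg (w w' : Px Q → ℝ) (p' pk' : Px Q → Finset ℕ × ℕ) {cls NMA : Px Q → Px Q → ℝ} (hc0 : ∀ x y, 0 ≤ cls x y)
    (hn0 : ∀ x y, 0 ≤ NMA x y) (bx : Px Q → κ) (β : κ × κ) (M q τ : ℝ) : 0 ≤ BT w w' p' pk' cls NMA bx β M q τ := by
  refine mul_nonneg (by split_ifs <;> norm_num) (mul_nonneg (by positivity) (add_nonneg (rb_nonneg _ _ _ hc0 hn0 _ _)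
    (rb_nonneg _ _ _ hc0 hn0 _ _)))

omit [SwQ Q] in
theorem BT_le (w w' : Px Q → ℝ) (p' pk' : Px Q → Finset ℕ × ℕ) {cls NMA : Px Q → Px Q → ℝ} (hc0 : ∀ x y, 0 ≤ cls x y)
    (hc1 : ∀ x y, cls x y ≤ 1) (hn0 : ∀ x y, 0 ≤ NMA x y) (hn1 : ∀ x y, NMA x y ≤ 1) (bx : Px Q → κ) (β : κ × κ) (M q τ : ℝ) :
    BT w w' p' pk' cls NMA bx β M q τ ≤ 8 * M ^ 4 := by
  have h1 := rb_le_one w p' pk' hc0 hc1 hn0 hn1 bx β
  have h2 := rb_le_one w' p' pk' hc0 hc1 hn0 hn1 bx β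
  have h3 : 4 * M ^ 4 * (rb w' p' pk' cls bx β NMA + rb w p' pk' cls bx β NMA) ≤ 8 * M ^ 4 := by
    have : 0 ≤ M ^ 4 := by positivity
    nlinarith
  have h4 : (0 : ℝ) ≤ 8 * M ^ 4 := by positivity
  unfold BT
  split_ifs
  · rw [one_mul]
    exact h3
  · rw [zero_mul]
    exact h4

omit [SwQ Q] in
theorem meas_BT {W W' : Env × Finset ℕ → Px Q → ℝ} (hW : ∀ S, Measurable fun ω => W ω S) (hW' : ∀ S, Measurable fun ω => W' ω S)
    (p' pk' : Px Q → Finset ℕ × ℕ) (cls NMA : Px Q → Px Q → ℝ) (bx : Px Q → κ) (β : κ × κ) (M q τ : ℝ) :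
    Measurable fun ω => BT (W ω) (W' ω) p' pk' cls NMA bx β M q τ := by
  unfold BT
  refine Measurable.mul ?_ (((meas_rb hW' _ _ _ _ _ _).add (meas_rb hW _ _ _ _ _ _)).const_mul _)
  refine Measurable.ite (measurableSet_lt measurable_const (meas_gm hW fun x => ?_)) measurable_const measurable_const
  unfold Pool.W7d29a1.C0.I52.bd
  exact Measurable.ite (measurableSet_lt measurable_const ((hW' x).sub (hW x)).norm) measurable_const measurable_const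

end Meas

/-! ### One class, a fixed end -/

section Cls

variable {κ : Type*} [DecidableEq κ]

/-- The shifted environment, the signs unchanged. -/
def shf (S : Finset ℕ → Finset Pt) (φ : Finset ℕ → Pt → Env → ℝ) (ω : Env × Finset ℕ) : Env × Finset ℕ :=
  (Sh (S ω.2) (φ ω.2) ω.1, ω.2)

theorem meas_shf {S : Finset ℕ → Finset Pt} {φ : Finset ℕ → Pt → Env → ℝ} (hm : ∀ A, ∀ p ∈ S A, Measurable (φ A p))
    {F : Env × Finset ℕ → ℝ} (hF : Measurable F) : Measurable fun ω => F (shf S φ ω) :=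
  meas_om fun A => (hF.comp (meas_pair A)).comp (Sh_meas (hm A))

omit [SwQ Q] in
/-- `tf52` for the sum over the spectators. -/
theorem tf_sum (hB : 0 ≤ B) (r : Bool) (bx : Px Q → κ) (β : κ × κ) (K : Finset ℕ) (ω : Env × Finset ℕ) (w w' : Px Q → ℝ)
    {τ q D : ℝ} (hτ : 0 < τ) (hτ' : τ ≤ 1 / 4) (hD : ∀ x, |w' x - w x| ≤ D) (hq : 0 ≤ q) :
    |PhB w' (pB (m * σ) j) (pB σ j) (Cl b σ j r) (gg μ s Q δ B b ω j) (DA μ s δ B b σ m j K w' ω) bx β -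
        PhB w (pB (m * σ) j) (pB σ j) (Cl b σ j r) (gg μ s Q δ B b ω j) (DA μ s δ B b σ m j K w ω) bx β| ≤
      K.card * (1 / 3 * (4 * (B / 2) ^ 4 * ((Real.exp (24 * τ) - 1) + 24 * (q * Real.exp (5 * D) / τ)))) +
        ∑ k ∈ K, 1 / 3 * BT w w' (pB (m * σ) j) (pB (m * σ) k) (Cl b σ j r) (NA b σ j k) bx β (B / 2) q τ := by
  classical
  unfold DA
  rw [PhB_sum, PhB_sum, ← sum_sub_distrib]
  refine (abs_sum_le_sum_abs _ _).trans ?_
  rw [← nsmul_eq_mul, ← sum_const, ← sum_add_distrib]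
  refine sum_le_sum fun k _ => ?_
  have h := tf52 (w := w) (R := w' - w) (pB σ j) (pB (m * σ) j) (pB σ k) (pB (m * σ) k)
    (fun x => abs_gg (μ := μ) (s := s) (Q := Q) (δ := δ) hB b ω j x) (fun x => abs_gg (μ := μ) (s := s) (Q := Q) (δ := δ) hB b ω k x)
    (Cl_nonneg b σ j r) (Cl_le_one b σ j r) (NA_nonneg b σ j k) (NA_le_one b σ j k) bx β hτ hτ'
    (fun x => by
      rw [Pi.sub_apply]
      exact hD x) hq
  rw [add_sub_cancel] at h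
  have h3 : |sr ω.2 k / 3| = 1 / 3 := by
    rw [abs_div, abs_sr]
    norm_num
  rw [← mul_sub, abs_mul, h3, ← mul_add]
  exact mul_le_mul_of_nonneg_left h (by norm_num)

omit [SwQ Q] in
/-- **ONE CLASS, A FIXED END**: the step (1 - T) and the step (T - flip). The extra log weight `U` is arbitrary; the field and the slab may
depend on the boxes and the signs. -/
theorem one_cls [IsProbabilityMeasure μ] {u : ℝ → ℝ → ℝ} {C θ : ℝ} (hW : WL μ u C θ) (r : Bool) {bx : Px Q → κ} {I : Finset κ}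
    (hI : ∀ x, bx x ∈ I) (ρ : κ × κ → Finset ℕ → Pt → ℤ) (S : κ × κ → Finset ℕ → Finset Pt) (φ : κ × κ → Finset ℕ → Pt → Env → ℝ)
    (hm : ∀ β A, ∀ p ∈ S β A, Measurable (φ β A p)) (hc : ∀ β A, PredR (ρ β A) (S β A) (φ β A)) {a t Bq : ℝ} (ha : 0 ≤ a)
    (ht : 0 ≤ t) (hk : ∀ β A, ∀ p ∈ S β A, ∀ η, (2 * t + 3) * |φ β A p η| ≤ θ) (hBq : ∀ β A η, ∑ p ∈ S β A, φ β A p η ^ 2 ≤ Bq)
    (hB : 0 ≤ B) {K : Finset ℕ} {U : Env × Finset ℕ → Px Q → ℝ} (mU : ∀ x, Measurable fun ω => U ω x) {τ q D : ℝ} (hτ : 0 < τ)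
    (hτ' : τ ≤ 1 / 4) (hq : 0 ≤ q) (hD : ∀ β ω x, |wm μ s N Q ω x + U ω x - wm μ s N Q (shf (S β) (φ β) ω) x| ≤ D)
    (hgg : ∀ β ω, ∀ k ∈ insert j K, gg μ s Q δ B b (shf (S β) (φ β) ω) k = gg μ s Q δ B b ω k) :
    |∫ ω, sr ω.2 j * Ph (wm μ s N Q ω) (pB (m * σ) j) (pB σ j) (Cl b σ j r) (gg μ s Q δ B b ω j)
          (DA μ s δ B b σ m j K (wm μ s N Q ω) ω) ∂(Pm μ N) -
        ∫ ω, sr ω.2 j * Ph (wm μ s N Q ω + U ω) (pB (m * σ) j) (pB σ j) (Cl b σ j r) (gg μ s Q δ B b ω j)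
          (DA μ s δ B b σ m j K (wm μ s N Q ω + U ω) ω) ∂(Pm μ N)| ≤
      (Real.exp a - 1) * (2 * (B / 2) ^ 2) * ∫ ω, gm (wm μ s N Q ω) (fun x => |DA μ s δ B b σ m j K (wm μ s N Q ω) ω x| *
          mC (wm μ s N Q ω) (j / (m * σ) * (m * σ)) (j / (m * σ) * (m * σ) + m * σ) (Cl b σ j r) x) ∂(Pm μ N) +
        (I.card : ℝ) ^ 2 * (4 * Real.exp (-(t * a)) * Real.exp (C * ((2 * t + 3) ^ 2 + 1) * Bq) *
          (2 * (B / 2) ^ 2 * (K.card * (B ^ 2 / 6)))) +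
        (I.card : ℝ) ^ 2 * (K.card * (1 / 3 * (4 * (B / 2) ^ 4 * ((Real.exp (24 * τ) - 1) + 24 * (q * Real.exp (5 * D) / τ))))) +
        ∑ β ∈ I ×ˢ I, ∑ k ∈ K, 1 / 3 * ∫ ω, BT (wm μ s N Q (shf (S β) (φ β) ω)) (wm μ s N Q ω + U ω) (pB (m * σ) j) (pB (m * σ) k)
          (Cl b σ j r) (NA b σ j k) bx β (B / 2) q τ ∂(Pm μ N) := by
  have mg : ∀ S, Measurable fun ω => gg μ s Q δ B b ω j S := fun S => meas_gg δ B b j S
  have bg := fun (ω : Env × Finset ℕ) S => abs_gg (μ := μ) (s := s) (Q := Q) (δ := δ) hB b ω j S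
  have mW : ∀ S, Measurable fun ω => wm μ s N Q ω S := fun S => meas_wm S
  have mWU : ∀ S, Measurable fun ω => (wm μ s N Q ω + U ω) S := fun S => (mW S).add (mU S)
  have mWs : ∀ β S', Measurable fun ω => wm μ s N Q (shf (S β) (φ β) ω) S' := fun β S' => meas_shf (hm β) (mW S')
  have bD := fun (w : Px Q → ℝ) (ω : Env × Finset ℕ) x =>
    abs_DA (μ := μ) (s := s) (δ := δ) (b := b) (σ := σ) (m := m) (j := j) hB K w ω x
  -- the three functionals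
  obtain ⟨F, hF⟩ : ∃ F : κ × κ → Env × Finset ℕ → ℝ, F = fun β ω => sr ω.2 j * PhB (wm μ s N Q ω) (pB (m * σ) j) (pB σ j)
    (Cl b σ j r) (gg μ s Q δ B b ω j) (DA μ s δ B b σ m j K (wm μ s N Q ω) ω) bx β := ⟨_, rfl⟩
  obtain ⟨G, hG⟩ : ∃ G : κ × κ → Env × Finset ℕ → ℝ, G = fun β ω => sr ω.2 j * PhB (wm μ s N Q (shf (S β) (φ β) ω))
    (pB (m * σ) j) (pB σ j) (Cl b σ j r) (gg μ s Q δ B b ω j) (DA μ s δ B b σ m j K (wm μ s N Q (shf (S β) (φ β) ω)) ω) bx β := ⟨_, rfl⟩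
  obtain ⟨E, hE⟩ : ∃ E : κ × κ → Env × Finset ℕ → ℝ, E = fun β ω => sr ω.2 j * PhB (wm μ s N Q ω + U ω) (pB (m * σ) j) (pB σ j)
    (Cl b σ j r) (gg μ s Q δ B b ω j) (DA μ s δ B b σ m j K (wm μ s N Q ω + U ω) ω) bx β := ⟨_, rfl⟩
  have bnd : ∀ (w : Px Q → ℝ) (ω : Env × Finset ℕ) (β : κ × κ), |sr ω.2 j * PhB w (pB (m * σ) j) (pB σ j) (Cl b σ j r)
      (gg μ s Q δ B b ω j) (DA μ s δ B b σ m j K w ω) bx β| ≤ 2 * (B / 2) ^ 2 * (K.card * (B ^ 2 / 6)) := fun w ω β => by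
    rw [abs_mul, abs_sr, one_mul]
    exact (abs_PhB_le _ _ _ (Cl_nonneg b σ j r) (bg ω) _ bx β).trans
      ((le_abs_self _).trans (MjB_le (Cl_nonneg b σ j r) (Cl_le_one b σ j r) (bD w ω) bx β))
  have mF : ∀ β, Measurable (F β) := fun β => by
    rw [hF]
    exact (meas_sr j).mul (meas_PhBg mW mg (fun x => meas_DA mW K x) bx β)
  have mG : ∀ β, Measurable (G β) := fun β => by
    rw [hG]
    exact (meas_sr j).mul (meas_PhBg (mWs β) mg (fun x => meas_DA (mWs β) K x) bx β)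
  have mE : ∀ β, Measurable (E β) := fun β => by
    rw [hE]
    exact (meas_sr j).mul (meas_PhBg mWU mg (fun x => meas_DA mWU K x) bx β)
  have iF : ∀ β, Integrable (F β) (Pm μ N) := fun β => int_bdd (mF β) fun ω => by
    rw [hF]
    exact bnd _ ω β
  have iG : ∀ β, Integrable (G β) (Pm μ N) := fun β => int_bdd (mG β) fun ω => by
    rw [hG]
    exact bnd _ ω β
  have iE : ∀ β, Integrable (E β) (Pm μ N) := fun β => int_bdd (mE β) fun ω => by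
    rw [hE]
    exact bnd _ ω β
  have s1 : ∫ ω, sr ω.2 j * Ph (wm μ s N Q ω) (pB (m * σ) j) (pB σ j) (Cl b σ j r) (gg μ s Q δ B b ω j)
      (DA μ s δ B b σ m j K (wm μ s N Q ω) ω) ∂(Pm μ N) = ∑ β ∈ I ×ˢ I, ∫ ω, F β ω ∂(Pm μ N) := by
    rw [← integral_finsetSum _ fun β _ => iF β]
    refine integral_congr_ae (Filter.Eventually.of_forall fun ω => ?_)
    show _ = ∑ β ∈ I ×ˢ I, F β ω
    rw [hF, ← mul_sum, sum_PhB hI]
  have s2 : ∫ ω, sr ω.2 j * Ph (wm μ s N Q ω + U ω) (pB (m * σ) j) (pB σ j) (Cl b σ j r) (gg μ s Q δ B b ω j)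
      (DA μ s δ B b σ m j K (wm μ s N Q ω + U ω) ω) ∂(Pm μ N) = ∑ β ∈ I ×ˢ I, ∫ ω, E β ω ∂(Pm μ N) := by
    rw [← integral_finsetSum _ fun β _ => iE β]
    refine integral_congr_ae (Filter.Eventually.of_forall fun ω => ?_)
    show _ = ∑ β ∈ I ×ˢ I, E β ω
    rw [hE, ← mul_sum, sum_PhB hI]
  -- (1 - T)
  have k1 := kickT (N := N) (Q := Q) (s := s) hW hI ρ S φ hm hc ha ht hk hBq (c' := j / (m * σ) * (m * σ))
    (d' := j / (m * σ) * (m * σ) + m * σ) (c'' := j / σ * σ) (d'' := j / σ * σ + σ) (j := j) (Cl_nonneg b σ j r) (Cl_le_one b σ j r)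
    (g := fun ω => gg μ s Q δ B b ω j) (h := fun ω => DA μ s δ B b σ m j K (wm μ s N Q ω) ω) mg (fun x => meas_DA mW K x) bg
    (fun ω x => bD _ ω x)
  have k2 : ∑ β ∈ I ×ˢ I, (∫ ω, sr ω.2 j * PhB (wm μ s N Q (Sh (S β ω.2) (φ β ω.2) ω.1, ω.2)) (pJ (j / (m * σ) * (m * σ))
          (j / (m * σ) * (m * σ) + m * σ)) (pJ (j / σ * σ) (j / σ * σ + σ)) (Cl b σ j r)
          (gg μ s Q δ B b (Sh (S β ω.2) (φ β ω.2) ω.1, ω.2) j) (DA μ s δ B b σ m j K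
          (wm μ s N Q (Sh (S β ω.2) (φ β ω.2) ω.1, ω.2)) (Sh (S β ω.2) (φ β ω.2) ω.1, ω.2)) bx β ∂(Pm μ N) -
        ∫ ω, sr ω.2 j * PhB (wm μ s N Q ω) (pJ (j / (m * σ) * (m * σ)) (j / (m * σ) * (m * σ) + m * σ))
          (pJ (j / σ * σ) (j / σ * σ + σ)) (Cl b σ j r) (gg μ s Q δ B b ω j) (DA μ s δ B b σ m j K (wm μ s N Q ω) ω) bx β ∂(Pm μ N)) =
      ∑ β ∈ I ×ˢ I, (∫ ω, G β ω ∂(Pm μ N) - ∫ ω, F β ω ∂(Pm μ N)) := by
    refine sum_congr rfl fun β _ => ?_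
    congr 1
    · refine integral_congr_ae (Filter.Eventually.of_forall fun ω => ?_)
      show _ = G β ω
      rw [hG]
      have e1 : gg μ s Q δ B b (Sh (S β ω.2) (φ β ω.2) ω.1, ω.2) j = gg μ s Q δ B b ω j := hgg β ω j (mem_insert_self j K)
      have e2 : DA μ s δ B b σ m j K (wm μ s N Q (Sh (S β ω.2) (φ β ω.2) ω.1, ω.2)) (Sh (S β ω.2) (φ β ω.2) ω.1, ω.2) =
          DA μ s δ B b σ m j K (wm μ s N Q (Sh (S β ω.2) (φ β ω.2) ω.1, ω.2)) ω := by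
        unfold DA VA
        refine sum_congr rfl fun k hk' => ?_
        have e3 : gg μ s Q δ B b (Sh (S β ω.2) (φ β ω.2) ω.1, ω.2) k = gg μ s Q δ B b ω k := hgg β ω k (mem_insert_of_mem hk')
        rw [e3]
      show sr ω.2 j * PhB (wm μ s N Q (Sh (S β ω.2) (φ β ω.2) ω.1, ω.2)) _ _ _ (gg μ s Q δ B b (Sh (S β ω.2) (φ β ω.2) ω.1, ω.2) j)
        (DA μ s δ B b σ m j K (wm μ s N Q (Sh (S β ω.2) (φ β ω.2) ω.1, ω.2)) (Sh (S β ω.2) (φ β ω.2) ω.1, ω.2)) bx β = _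
      rw [e1, e2]
      rfl
    · rw [hF]
      rfl
  rw [k2] at k1
  -- (T - flip)
  have k3 : ∀ β ∈ I ×ˢ I, |∫ ω, G β ω ∂(Pm μ N) - ∫ ω, E β ω ∂(Pm μ N)| ≤
      K.card * (1 / 3 * (4 * (B / 2) ^ 4 * ((Real.exp (24 * τ) - 1) + 24 * (q * Real.exp (5 * D) / τ)))) +
        ∑ k ∈ K, 1 / 3 * ∫ ω, BT (wm μ s N Q (shf (S β) (φ β) ω)) (wm μ s N Q ω + U ω) (pB (m * σ) j) (pB (m * σ) k)
          (Cl b σ j r) (NA b σ j k) bx β (B / 2) q τ ∂(Pm μ N) := by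
    intro β _
    have iBT : ∀ k, Integrable (fun ω => 1 / 3 * BT (wm μ s N Q (shf (S β) (φ β) ω)) (wm μ s N Q ω + U ω) (pB (m * σ) j)
        (pB (m * σ) k) (Cl b σ j r) (NA b σ j k) bx β (B / 2) q τ) (Pm μ N) := fun k =>
      int_bdd (M := 1 / 3 * (8 * (B / 2) ^ 4)) ((meas_BT (mWs β) mWU _ _ _ _ _ _ _ _ _).const_mul _) fun ω => by
        rw [abs_mul, abs_of_nonneg (BT_nonneg _ _ _ _ (Cl_nonneg b σ j r) (NA_nonneg b σ j k) _ _ _ _ _)]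
        have h3 : |(1 / 3 : ℝ)| = 1 / 3 := by norm_num
        rw [h3]
        exact mul_le_mul_of_nonneg_left (BT_le _ _ _ _ (Cl_nonneg b σ j r) (Cl_le_one b σ j r) (NA_nonneg b σ j k)
          (NA_le_one b σ j k) _ _ _ _ _) (by norm_num)
    have iS : Integrable (fun ω => K.card * (1 / 3 * (4 * (B / 2) ^ 4 * ((Real.exp (24 * τ) - 1) + 24 * (q * Real.exp (5 * D) / τ)))) +
        ∑ k ∈ K, 1 / 3 * BT (wm μ s N Q (shf (S β) (φ β) ω)) (wm μ s N Q ω + U ω) (pB (m * σ) j)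
        (pB (m * σ) k) (Cl b σ j r) (NA b σ j k) bx β (B / 2) q τ) (Pm μ N) :=
      (integrable_const _).add (integrable_finsetSum _ fun k _ => iBT k)
    rw [← integral_sub (iG β) (iE β)]
    refine (abs_integral_le_integral_abs).trans ?_
    refine (integral_mono ((iG β).sub (iE β)).abs iS fun ω => ?_).trans (le_of_eq ?_)
    · show |G β ω - E β ω| ≤ _
      rw [hG, hE]
      show |sr ω.2 j * _ - sr ω.2 j * _| ≤ _
      rw [← mul_sub, abs_mul, abs_sr, one_mul, abs_sub_comm]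
      exact tf_sum hB r bx β K ω _ _ hτ hτ' (fun x => hD β ω x) hq
    · rw [integral_add (integrable_const _) (integrable_finsetSum _ fun k _ => iBT k), integral_const, probReal_univ, one_smul,
        integral_finsetSum _ fun k _ => iBT k]
      congr 1
      exact sum_congr rfl fun k _ => integral_const_mul _ _
  rw [s1, s2, ← sum_sub_distrib]
  have e1 : ∑ β ∈ I ×ˢ I, (∫ ω, F β ω ∂(Pm μ N) - ∫ ω, E β ω ∂(Pm μ N)) =
      -∑ β ∈ I ×ˢ I, (∫ ω, G β ω ∂(Pm μ N) - ∫ ω, F β ω ∂(Pm μ N)) + ∑ β ∈ I ×ˢ I, (∫ ω, G β ω ∂(Pm μ N) - ∫ ω, E β ω ∂(Pm μ N)) := by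
    rw [← sum_neg_distrib, ← sum_add_distrib]
    exact sum_congr rfl fun β _ => by ring
  rw [e1]
  refine (abs_add_le _ _).trans ?_
  rw [abs_neg]
  have k4 := (abs_sum_le_sum_abs (fun β => ∫ ω, G β ω ∂(Pm μ N) - ∫ ω, E β ω ∂(Pm μ N)) (I ×ˢ I)).trans (sum_le_sum k3)
  rw [sum_add_distrib, sum_const, card_product, nsmul_eq_mul] at k4
  push_cast at k4
  have k5 := add_le_add k1 k4
  refine k5.trans (le_of_eq ?_)
  unfold mC
  ring

end Cls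

/-! ### One row -/

section Row

omit [SwQ Q] in
theorem meas_Ph {W : Env × Finset ℕ → Px Q → ℝ} (hW : ∀ S, Measurable fun ω => W ω S) {p' p : Px Q → Finset ℕ × ℕ}
    {cls : Px Q → Px Q → ℝ} {g h : Env × Finset ℕ → Px Q → ℝ} (hg : ∀ S, Measurable fun ω => g ω S)
    (hh : ∀ S, Measurable fun ω => h ω S) : Measurable fun ω => Ph (W ω) p' p cls (g ω) (h ω) := by
  unfold Ph
  refine meas_gm hW fun x => ?_
  exact ((hh x).mul (meas_cE hW hg _ x)).mul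
    (meas_cE (f := fun ω y => cls x y * (g ω x - g ω y)) hW (fun y => ((hg x).sub (hg y)).const_mul _) _ x)

omit [SwQ Q] in
theorem abs_Ph_le (w : Px Q → ℝ) (p' p : Px Q → Finset ℕ × ℕ) {cls : Px Q → Px Q → ℝ} (hc : ∀ x y, 0 ≤ cls x y)
    (hc1 : ∀ x y, cls x y ≤ 1) {g h : Px Q → ℝ} {M H : ℝ} (hg : ∀ x, |g x| ≤ M) (hh : ∀ x, |h x| ≤ H) :
    |Ph w p' p cls g h| ≤ 2 * M ^ 2 * H := by
  have e := sum_PhB (bx := fun _ : Px Q => ()) (I := {()}) (fun x => mem_singleton.2 rfl) w p' p cls g h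
  rw [singleton_product_singleton, sum_singleton] at e
  rw [← e]
  exact (abs_PhB_le _ _ _ hc hg h _ _).trans ((le_abs_self _).trans (MjB_le hc hc1 hh _ _))

theorem abs_avy_le (ys : Finset ℕ) (Φ : ℕ → ℝ) : |avy ys Φ| ≤ avy ys fun y => |Φ y| := by
  unfold avy
  rw [abs_mul, abs_of_nonneg (by positivity : (0 : ℝ) ≤ (ys.card : ℝ)⁻¹)]
  exact mul_le_mul_of_nonneg_left (abs_sum_le_sum_abs _ _) (by positivity)

/-- The moved log weights of the row `j`. -/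
theorem AxP_wj {w : Px Q → ℝ} (hw : AxP (Po b j) w) (ω : Env × Finset ℕ) (c : ℝ) :
    AxP (Po b j) (w + c • gj μ s ω.1 δ B b j (sg ω.2 j)) :=
  hw.add (AxP.smul (Lk.AxP (Lk_gg (μ := μ) (s := s) (Q := Q) δ B b j ω le_rfl le_rfl) fun t ht => ht) c)

/-- **ONE ROW** of GS in one kick: the flip identity, the step (1 - T), the step (T - flip). -/
theorem one32 [IsProbabilityMeasure μ] {u : ℝ → ℝ → ℝ} {C θ : ℝ} (hW : WL μ u C θ) {b σ m : ℕ} (hb : 0 < b) (hm : 0 < m) {j : ℕ}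
    (hjd : j / σ * σ + b ≤ j ∧ j + b ≤ (j / σ + 1) * σ) {K : Finset ℕ} (hKd : ∀ k ∈ K, k / σ * σ + b ≤ k ∧ k + b ≤ (k / σ + 1) * σ)
    (hK : ∀ k ∈ K, k + b ≤ j - b ∨ j + b ≤ k - b) {δ B : ℝ} (hB : 1 ≤ B)
    (hN : ∀ k ∈ insert j K, k / (m * σ) * (m * σ) + m * σ ≤ N) {y₀ M : ℕ} (hy : 1 ≤ y₀) (hM : 1 ≤ M) (hyN : y₀ + M ≤ N) {ε : ℝ}
    (hE : FErr μ s N δ B b j y₀ M ε) {κ : Type*} [DecidableEq κ] (bx : Bool → (y : ℕ) → Px (Pn N y) → κ) {I : Finset κ}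
    (hI : ∀ r y x, bx r y x ∈ I) (ρ : ℕ → Bool → κ × κ → Finset ℕ → Pt → ℤ) (S : ℕ → Bool → κ × κ → Finset ℕ → Finset Pt)
    (φ : ℕ → Bool → κ × κ → Finset ℕ → Pt → Env → ℝ)
    (hme : ∀ y, y ≤ N → ∀ r β A, ∀ p ∈ S y r β A, Measurable (φ y r β A p))
    (hc : ∀ y, y ≤ N → ∀ r β A, PredR (ρ y r β A) (S y r β A) (φ y r β A)) {a t Bq : ℝ} (ha : 0 ≤ a) (ht : 0 ≤ t)
    (hk : ∀ y, y ≤ N → ∀ r β A, ∀ p ∈ S y r β A, ∀ η, (2 * t + 3) * |φ y r β A p η| ≤ θ)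
    (hBq : ∀ y, y ≤ N → ∀ r β A η, ∑ p ∈ S y r β A, φ y r β A p η ^ 2 ≤ Bq) {τ q D : ℝ} (hτ : 0 < τ) (hτ' : τ ≤ 1 / 4) (hq : 0 ≤ q)
    (hD : ∀ y, y ≤ N → ∀ r β ω x, |wj μ s N (Pn N y) δ B b j ω (-(sg ω.2 j : ℝ)) x -
      wm μ s N (Pn N y) (shf (S y r β) (φ y r β) ω) x| ≤ D)
    (hgg : ∀ y, y ≤ N → ∀ r β ω, ∀ k ∈ insert j K, gg μ s (Pn N y) δ B b (shf (S y r β) (φ y r β) ω) k =
      gg μ s (Pn N y) δ B b ω k) :
    |avy (Ico y₀ (y₀ + M)) (fun y => ∫ ω, sr ω.2 j * PW μ s δ B b σ m K j (wm μ s N (Pn N y) ω) ω ∂(Pm μ N))| ≤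
      K.card * (98 * B ^ 4) ^ 2 * (1 / M + 3 * ε) +
      ((Real.exp a - 1) * (B / 2) ^ 2 * ∑ r : Bool, avy (Ico y₀ (y₀ + M)) (fun y => ∫ ω, gm (wm μ s N (Pn N y) ω)
          (fun x => |DA μ s δ B b σ m j K (wm μ s N (Pn N y) ω) ω x| * mC (wm μ s N (Pn N y) ω) (j / (m * σ) * (m * σ))
            (j / (m * σ) * (m * σ) + m * σ) (Cl b σ j r) x) ∂(Pm μ N)) +
        (I.card : ℝ) ^ 2 * (4 * Real.exp (-(t * a)) * Real.exp (C * ((2 * t + 3) ^ 2 + 1) * Bq) *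
          (2 * (B / 2) ^ 2 * (K.card * (B ^ 2 / 6)))) +
        (I.card : ℝ) ^ 2 * (K.card * (1 / 3 * (4 * (B / 2) ^ 4 * ((Real.exp (24 * τ) - 1) + 24 * (q * Real.exp (5 * D) / τ))))) +
        1 / 6 * ∑ r : Bool, ∑ β ∈ I ×ˢ I, ∑ k ∈ K, avy (Ico y₀ (y₀ + M)) (fun y => ∫ ω, BT (wm μ s N (Pn N y) (shf (S y r β) (φ y r β) ω))
          (wj μ s N (Pn N y) δ B b j ω (-(sg ω.2 j : ℝ))) (pB (m * σ) j) (pB (m * σ) k) (Cl b σ j r) (NA b σ j k) (bx r y) β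
          (B / 2) q τ ∂(Pm μ N))) := by
  have hB0 : 0 ≤ B := by linarith
  have h1 := one_kick (μ := μ) (s := s) (N := N) hb hb hm le_rfl hjd hK (δ := δ) hB hN hy hM hyN hE
  obtain ⟨A, hA⟩ : ∃ A : ℕ → ℝ, A = fun y => ∫ ω, sr ω.2 j * PW μ s δ B b σ m K j (wm μ s N (Pn N y) ω) ω ∂(Pm μ N) := ⟨_, rfl⟩
  obtain ⟨A', hA'⟩ : ∃ A' : ℕ → ℝ, A' = fun y => ∫ ω, sr ω.2 j * (PW μ s δ B b σ m K j (wm μ s N (Pn N y) ω) ω -
    PW μ s δ B b σ m K j (wj μ s N (Pn N y) δ B b j ω (-(sg ω.2 j : ℝ))) ω) ∂(Pm μ N) := ⟨_, rfl⟩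
  rw [← hA, ← hA'] at h1
  rw [← hA]
  have h2 : |avy (Ico y₀ (y₀ + M)) A| ≤ K.card * (98 * B ^ 4) ^ 2 * (1 / M + 3 * ε) +
      1 / 2 * avy (Ico y₀ (y₀ + M)) fun y => |A' y| := by
    have h3 := abs_avy_le (Ico y₀ (y₀ + M)) A'
    have h4 : |avy (Ico y₀ (y₀ + M)) A| ≤ |avy (Ico y₀ (y₀ + M)) A - 1 / 2 * avy (Ico y₀ (y₀ + M)) A'| +
        1 / 2 * |avy (Ico y₀ (y₀ + M)) A'| := by
      have h5 := abs_add_le (avy (Ico y₀ (y₀ + M)) A - 1 / 2 * avy (Ico y₀ (y₀ + M)) A') (1 / 2 * avy (Ico y₀ (y₀ + M)) A')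
      rw [sub_add_cancel, abs_mul, abs_of_pos (by norm_num : (0 : ℝ) < 1 / 2)] at h5
      exact h5
    linarith
  refine h2.trans (add_le_add le_rfl ?_)
  -- one end
  have key : ∀ y ∈ Ico y₀ (y₀ + M), |A' y| ≤ ∑ r : Bool, ((Real.exp a - 1) * (2 * (B / 2) ^ 2) *
        (∫ ω, gm (wm μ s N (Pn N y) ω) (fun x => |DA μ s δ B b σ m j K (wm μ s N (Pn N y) ω) ω x| * mC (wm μ s N (Pn N y) ω)
          (j / (m * σ) * (m * σ)) (j / (m * σ) * (m * σ) + m * σ) (Cl b σ j r) x) ∂(Pm μ N)) +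
        (I.card : ℝ) ^ 2 * (4 * Real.exp (-(t * a)) * Real.exp (C * ((2 * t + 3) ^ 2 + 1) * Bq) *
          (2 * (B / 2) ^ 2 * (K.card * (B ^ 2 / 6)))) +
        (I.card : ℝ) ^ 2 * (K.card * (1 / 3 * (4 * (B / 2) ^ 4 * ((Real.exp (24 * τ) - 1) + 24 * (q * Real.exp (5 * D) / τ))))) +
        ∑ β ∈ I ×ˢ I, ∑ k ∈ K, 1 / 3 * ∫ ω, BT (wm μ s N (Pn N y) (shf (S y r β) (φ y r β) ω))
          (wj μ s N (Pn N y) δ B b j ω (-(sg ω.2 j : ℝ))) (pB (m * σ) j) (pB (m * σ) k) (Cl b σ j r) (NA b σ j k) (bx r y) β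
          (B / 2) q τ ∂(Pm μ N)) := by
    intro y hy'
    have hyy : y ≤ N := by
      have := mem_Ico.1 hy'
      omega
    haveI n1 : Nonempty (Px (Pn N y)) := ne_Pn hyy
    have mW : ∀ S, Measurable fun ω => wm μ s N (Pn N y) ω S := fun S => meas_wm S
    have mg : ∀ S, Measurable fun ω => gg μ s (Pn N y) δ B b ω j S := fun S => meas_gg δ B b j S
    have bg := fun (ω : Env × Finset ℕ) S => abs_gg (μ := μ) (s := s) (Q := Pn N y) (δ := δ) hB0 b ω j S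
    obtain ⟨U, hU⟩ : ∃ U : Env × Finset ℕ → Px (Pn N y) → ℝ, U = fun ω => (-(sg ω.2 j : ℝ) - sg ω.2 j) •
      gj μ s ω.1 δ B b j (sg ω.2 j) := ⟨_, rfl⟩
    have hwj : ∀ ω, wj μ s N (Pn N y) δ B b j ω (-(sg ω.2 j : ℝ)) = wm μ s N (Pn N y) ω + U ω := fun ω => by
      rw [hU]
      rfl
    have mU : ∀ x, Measurable fun ω => U ω x := fun x => by
      rw [hU]
      have e : (fun ω : Env × Finset ℕ => ((-(sg ω.2 j : ℝ) - sg ω.2 j) • gj (Q := Pn N y) μ s ω.1 δ B b j (sg ω.2 j)) x) =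
          fun ω => (-(sr ω.2 j) - sr ω.2 j) * gg μ s (Pn N y) δ B b ω j x := rfl
      rw [e]
      exact (((meas_sr j).neg).sub (meas_sr j)).mul (mg x)
    have mWU : ∀ x, Measurable fun ω => (wm μ s N (Pn N y) ω + U ω) x := fun x => (mW x).add (mU x)
    have bD := fun (w : Px (Pn N y) → ℝ) (ω : Env × Finset ℕ) x =>
      abs_DA (μ := μ) (s := s) (δ := δ) (b := b) (σ := σ) (m := m) (j := j) hB0 K w ω x
    have i1 : ∀ r : Bool, Integrable (fun ω => sr ω.2 j * Ph (wm μ s N (Pn N y) ω) (pB (m * σ) j) (pB σ j) (Cl b σ j r)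
        (gg μ s (Pn N y) δ B b ω j) (DA μ s δ B b σ m j K (wm μ s N (Pn N y) ω) ω)) (Pm μ N) := fun r =>
      int_bdd ((meas_sr j).mul (meas_Ph mW mg fun x => meas_DA mW K x)) fun ω => by
        rw [abs_mul, abs_sr, one_mul]
        exact abs_Ph_le _ _ _ (Cl_nonneg b σ j r) (Cl_le_one b σ j r) (bg ω) (bD _ ω)
    have i2 : ∀ r : Bool, Integrable (fun ω => sr ω.2 j * Ph (wm μ s N (Pn N y) ω + U ω) (pB (m * σ) j) (pB σ j) (Cl b σ j r)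
        (gg μ s (Pn N y) δ B b ω j) (DA μ s δ B b σ m j K (wm μ s N (Pn N y) ω + U ω) ω)) (Pm μ N) := fun r =>
      int_bdd ((meas_sr j).mul (meas_Ph mWU mg fun x => meas_DA mWU K x)) fun ω => by
        rw [abs_mul, abs_sr, one_mul]
        exact abs_Ph_le _ _ _ (Cl_nonneg b σ j r) (Cl_le_one b σ j r) (bg ω) (bD _ ω)
    have e1 : A' y = ∑ r : Bool, (∫ ω, sr ω.2 j * Ph (wm μ s N (Pn N y) ω) (pB (m * σ) j) (pB σ j) (Cl b σ j r)
          (gg μ s (Pn N y) δ B b ω j) (DA μ s δ B b σ m j K (wm μ s N (Pn N y) ω) ω) ∂(Pm μ N) -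
        ∫ ω, sr ω.2 j * Ph (wm μ s N (Pn N y) ω + U ω) (pB (m * σ) j) (pB σ j) (Cl b σ j r)
          (gg μ s (Pn N y) δ B b ω j) (DA μ s δ B b σ m j K (wm μ s N (Pn N y) ω + U ω) ω) ∂(Pm μ N)) := by
      have e2 : ∀ r : Bool, (∫ ω, sr ω.2 j * Ph (wm μ s N (Pn N y) ω) (pB (m * σ) j) (pB σ j) (Cl b σ j r)
          (gg μ s (Pn N y) δ B b ω j) (DA μ s δ B b σ m j K (wm μ s N (Pn N y) ω) ω) ∂(Pm μ N) -
        ∫ ω, sr ω.2 j * Ph (wm μ s N (Pn N y) ω + U ω) (pB (m * σ) j) (pB σ j) (Cl b σ j r)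
          (gg μ s (Pn N y) δ B b ω j) (DA μ s δ B b σ m j K (wm μ s N (Pn N y) ω + U ω) ω) ∂(Pm μ N)) =
          ∫ ω, (sr ω.2 j * Ph (wm μ s N (Pn N y) ω) (pB (m * σ) j) (pB σ j) (Cl b σ j r)
          (gg μ s (Pn N y) δ B b ω j) (DA μ s δ B b σ m j K (wm μ s N (Pn N y) ω) ω) -
          sr ω.2 j * Ph (wm μ s N (Pn N y) ω + U ω) (pB (m * σ) j) (pB σ j) (Cl b σ j r)
          (gg μ s (Pn N y) δ B b ω j) (DA μ s δ B b σ m j K (wm μ s N (Pn N y) ω + U ω) ω)) ∂(Pm μ N) := fun r =>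
        (integral_sub (i1 r) (i2 r)).symm
      rw [sum_congr rfl fun r _ => e2 r]
      refine Eq.trans ?_ (integral_finsetSum (univ : Finset Bool) fun r _ => (i1 r).sub (i2 r))
      rw [hA']
      refine integral_congr_ae (Filter.Eventually.of_forall fun ω => ?_)
      show sr ω.2 j * (PW μ s δ B b σ m K j (wm μ s N (Pn N y) ω) ω -
        PW μ s δ B b σ m K j (wj μ s N (Pn N y) δ B b j ω (-(sg ω.2 j : ℝ))) ω) =
        ∑ r : Bool, (sr ω.2 j * Ph (wm μ s N (Pn N y) ω) (pB (m * σ) j) (pB σ j) (Cl b σ j r)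
          (gg μ s (Pn N y) δ B b ω j) (DA μ s δ B b σ m j K (wm μ s N (Pn N y) ω) ω) -
          sr ω.2 j * Ph (wm μ s N (Pn N y) ω + U ω) (pB (m * σ) j) (pB σ j) (Cl b σ j r)
          (gg μ s (Pn N y) δ B b ω j) (DA μ s δ B b σ m j K (wm μ s N (Pn N y) ω + U ω) ω))
      have a1 : AxP (Po b j) (wm μ s N (Pn N y) ω) := AxP_lw _ ω.1
      have a2 : AxP (Po b j) (wm μ s N (Pn N y) ω + U ω) := by
        rw [hU]
        exact AxP_wj a1 ω _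
      rw [hwj ω, PW_Ph hm a1 hjd ω hKd, PW_Ph hm a2 hjd ω hKd, mul_sub, mul_sum, mul_sum, ← sum_sub_distrib]
    rw [e1]
    refine (abs_sum_le_sum_abs _ _).trans (sum_le_sum fun r _ => ?_)
    have h5 := one_cls (N := N) (s := s) (δ := δ) (m := m) (j := j) (σ := σ) (b := b) hW r (hI r y) (ρ y r) (S y r) (φ y r) (hme y hyy r)
      (hc y hyy r) ha ht (hk y hyy r) (hBq y hyy r) hB0 (K := K) mU hτ hτ' hq (fun β ω x => by
        have := hD y hyy r β ω x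
        rwa [hwj ω] at this) (hgg y hyy r)
    refine h5.trans (le_of_eq ?_)
    congr 1
    refine sum_congr rfl fun β _ => sum_congr rfl fun k _ => ?_
    congr 2
    funext ω
    rw [hwj ω]
  refine (mul_le_mul_of_nonneg_left (avy_mono key) (by norm_num : (0 : ℝ) ≤ 1 / 2)).trans (le_of_eq ?_)
  have hne : (Ico y₀ (y₀ + M)).Nonempty := by
    rw [nonempty_Ico]
    omega
  rw [avy_sum]
  have e3 : ∀ r : Bool, avy (Ico y₀ (y₀ + M)) (fun y => (Real.exp a - 1) * (2 * (B / 2) ^ 2) *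
        (∫ ω, gm (wm μ s N (Pn N y) ω) (fun x => |DA μ s δ B b σ m j K (wm μ s N (Pn N y) ω) ω x| * mC (wm μ s N (Pn N y) ω)
          (j / (m * σ) * (m * σ)) (j / (m * σ) * (m * σ) + m * σ) (Cl b σ j r) x) ∂(Pm μ N)) +
        (I.card : ℝ) ^ 2 * (4 * Real.exp (-(t * a)) * Real.exp (C * ((2 * t + 3) ^ 2 + 1) * Bq) *
          (2 * (B / 2) ^ 2 * (K.card * (B ^ 2 / 6)))) +
        (I.card : ℝ) ^ 2 * (K.card * (1 / 3 * (4 * (B / 2) ^ 4 * ((Real.exp (24 * τ) - 1) + 24 * (q * Real.exp (5 * D) / τ))))) +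
        ∑ β ∈ I ×ˢ I, ∑ k ∈ K, 1 / 3 * ∫ ω, BT (wm μ s N (Pn N y) (shf (S y r β) (φ y r β) ω))
          (wj μ s N (Pn N y) δ B b j ω (-(sg ω.2 j : ℝ))) (pB (m * σ) j) (pB (m * σ) k) (Cl b σ j r) (NA b σ j k) (bx r y) β
          (B / 2) q τ ∂(Pm μ N)) =
      (Real.exp a - 1) * (2 * (B / 2) ^ 2) * avy (Ico y₀ (y₀ + M)) (fun y =>
        ∫ ω, gm (wm μ s N (Pn N y) ω) (fun x => |DA μ s δ B b σ m j K (wm μ s N (Pn N y) ω) ω x| * mC (wm μ s N (Pn N y) ω)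
          (j / (m * σ) * (m * σ)) (j / (m * σ) * (m * σ) + m * σ) (Cl b σ j r) x) ∂(Pm μ N)) +
        (I.card : ℝ) ^ 2 * (4 * Real.exp (-(t * a)) * Real.exp (C * ((2 * t + 3) ^ 2 + 1) * Bq) *
          (2 * (B / 2) ^ 2 * (K.card * (B ^ 2 / 6)))) +
        (I.card : ℝ) ^ 2 * (K.card * (1 / 3 * (4 * (B / 2) ^ 4 * ((Real.exp (24 * τ) - 1) + 24 * (q * Real.exp (5 * D) / τ))))) +
        ∑ β ∈ I ×ˢ I, ∑ k ∈ K, 1 / 3 * avy (Ico y₀ (y₀ + M)) (fun y => ∫ ω, BT (wm μ s N (Pn N y) (shf (S y r β) (φ y r β) ω))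
          (wj μ s N (Pn N y) δ B b j ω (-(sg ω.2 j : ℝ))) (pB (m * σ) j) (pB (m * σ) k) (Cl b σ j r) (NA b σ j k) (bx r y) β
          (B / 2) q τ ∂(Pm μ N)) := by
    intro r
    rw [avy_add, avy_add, avy_add, avy_const hne, avy_const hne, avy_mul, avy_sum]
    congr 1
    refine sum_congr rfl fun β _ => ?_
    rw [avy_sum]
    exact sum_congr rfl fun k _ => avy_mul _ _ _
  rw [sum_congr rfl fun r _ => e3 r, Fintype.sum_bool, Fintype.sum_bool, Fintype.sum_bool]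
  simp only [← mul_sum]
  ring

end Row

end

end Pool.Agent.W_7d29a1_C0.One32
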