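import Pool.Agent.W_7d29a1_C0.GSB52
import Pool.Agent.W_7d29a1_C0.One32
import Pool.Agent.W_7d29a1_C0.FldK27B

/-!
CURV0 (MP_7d29a1_pr), GS, THE BAD TERMS OF ONE ROW AT THE KICK FIELDS (helper52). `RBj`: the bad functional of the rows `j`, `k` and one
class, told at the log weights `w`. `bt_R`, `bt_L`: the sum over the boxes of the integrals of `BT` (One32) at the fields of FldK27B is at
most `4 M ^ 4` times: the integral of `RBj` at the flipped weights, plus `exp a` times the integral of `RBj` at the weights themselves, plus a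
tiny term.
-/

set_option autoImplicit false
set_option linter.unusedSectionVars false
set_option linter.unusedVariables false

namespace Pool.W7d29a1.C0.GSD52

open Finset MeasureTheory Pool.Agent.W_7d29a1_F Pool.Agent.W_7d29a1_X
open Pool.Agent.W_7d29a1_C0 Pool.Agent.W_7d29a1_C0.Mod92
open Pool.W7d29a1.C0 Pool.W7d29a1.C0.VT31
open Pool.Agent.W_7d29a1_C0.Swap57 (SwQ)
open Pool.W7d29a1.C0.H27 (Sh PredR Sh_meas)
open Pool.W7d29a1.C0.Fld19 (Sl)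
open Pool.Agent.W_7d29a1_C0.Q32 (WL)
open Pool.Agent.W_7d29a1_C0.One32 (BT pB Cl NA Cl_nonneg Cl_le_one NA_nonneg NA_le_one)
open Pool.W7d29a1.C0.GSB52 (RBb RBs bad_int)
open Pool.W7d29a1.C0.I52 (bd rb)
open Pool.W7d29a1.C0.K27 (pR pL CR2 CL2 CR CL kf_pR kf_pL wm_pR wm_pL gg_pR gg_pL abs_CR abs_CL hC_R hC_L tlK)
open Pool.W7d29a1.C0.Bd73 (dv r_eq)

noncomputable section

/-- The flip of the row `j`. -/
def uj {Q : Finset (Finset ℕ)} (μ : Measure ℝ) (s δ B : ℝ) (b j : ℕ) (ω : Env × Finset ℕ) : Px Q → ℝ :=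
  fun x => -2 * sr ω.2 j * gg μ s Q δ B b ω j x

section Gen

variable {μ : Measure ℝ} {s : ℝ} {N : ℕ} {Q : Finset (Finset ℕ)}

theorem wj_uj (δ B : ℝ) (b j : ℕ) (ω : Env × Finset ℕ) :
    wj μ s N Q δ B b j ω (-(sg ω.2 j : ℝ)) = wm μ s N Q ω + uj μ s δ B b j ω := by
  funext x
  show wm μ s N Q ω x + (-(sg ω.2 j : ℝ) - sg ω.2 j) * gj μ s ω.1 δ B b j (sg ω.2 j) x =
    wm μ s N Q ω x + -2 * (sg ω.2 j : ℝ) * gj μ s ω.1 δ B b j (sg ω.2 j) x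
  ring

theorem abs_uj {δ B : ℝ} (hB : 0 ≤ B) (b j : ℕ) (ω : Env × Finset ℕ) (x : Px Q) : |uj μ s δ B b j ω x| ≤ B := by
  unfold uj
  rw [abs_mul, abs_mul, abs_sr]
  have h1 := abs_gg (μ := μ) (s := s) (Q := Q) (δ := δ) hB b ω j x
  have h2 : |(-2 : ℝ)| = 2 := by norm_num
  rw [h2]
  linarith

theorem meas_uj (δ B : ℝ) (b j : ℕ) (x : Px Q) : Measurable fun ω => uj μ s δ B b j ω x :=
  ((meas_sr j).const_mul (-2)).mul (meas_gg δ B b j x)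

variable [Nonempty (Px Q)]

/-- **The bad terms, abstract fields.** -/
theorem bt_gen [IsProbabilityMeasure μ] {uu : ℝ → ℝ → ℝ} {Cc θ0 : ℝ} (hW : WL μ uu Cc θ0) {K : Type*} [DecidableEq K] {bx : Px Q → K}
    {I : Finset K} (ρ : K × K → Finset ℕ → Pt → ℤ) (S : K × K → Finset ℕ → Finset Pt) (φ : K × K → Finset ℕ → Pt → Env → ℝ)
    (hm : ∀ β A, ∀ p ∈ S β A, Measurable (φ β A p)) (hc : ∀ β A, PredR (ρ β A) (S β A) (φ β A)) {a t Bq : ℝ} (ha : 0 ≤ a)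
    (ht : 0 ≤ t) (hk : ∀ β A, ∀ p ∈ S β A, ∀ η, (2 * t + 3) * |φ β A p η| ≤ θ0) (hB : ∀ β A η, ∑ p ∈ S β A, φ β A p η ^ 2 ≤ Bq)
    {Y2 Y' : Type*} [DecidableEq Y2] [DecidableEq Y'] (p : Px Q → Y2) {g u : Env × Finset ℕ → Px Q → ℝ}
    (mg : ∀ S, Measurable fun ω => g ω S) (mu : ∀ S, Measurable fun ω => u ω S) (Cb : K × K → Env × Finset ℕ → Px Q → ℝ)
    (hsh : ∀ β ω, wm μ s N Q (Sh (S β ω.2) (φ β ω.2) ω.1, ω.2) = wm μ s N Q ω + Cb β ω)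
    (hgsh : ∀ β ω, g (Sh (S β ω.2) (φ β ω.2) ω.1, ω.2) = g ω)
    {D : ℝ} (hC : ∀ β ω x, |Cb β ω x| ≤ D) (hu : ∀ ω x, |u ω x| ≤ D) {κ' : Type*} {J : Finset κ'} {θ : κ' → ℝ}
    (hθ0 : ∀ m ∈ J, 0 ≤ θ m) (hθ : ∑ m ∈ J, θ m = 1) {pm : κ' → Px Q → Y'} (hp : ∀ m ∈ J, Crs p (pm m)) {δ q τ : ℝ}
    (hτ : 0 < τ) (hδ : 0 ≤ δ) (hq : 12 * δ / τ ≤ q * Real.exp (-(2 * D))) (out : K × K → Px Q → Prop)
    (hR : ∀ β ω x, ¬ out β x → |(u ω - Cb β ω) x| = 2 * dv (wm μ s N Q ω) J θ pm (g ω) x) (p' pk' : Px Q → Finset ℕ × ℕ)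
    {cls NMA : Px Q → Px Q → ℝ} (hc0 : ∀ x y, 0 ≤ cls x y) (hc1 : ∀ x y, cls x y ≤ 1) (hn0 : ∀ x y, 0 ≤ NMA x y)
    (hn1 : ∀ x y, NMA x y ≤ 1) (M : ℝ) :
    ∑ β ∈ I ×ˢ I, ∫ ω, BT (wm μ s N Q ω + Cb β ω) (wm μ s N Q ω + u ω) p' pk' cls NMA bx β M q τ ∂(Pm μ N) ≤
      4 * M ^ 4 * (∫ ω, RBs (wm μ s N Q ω + u ω) p (g ω) out (δ * Real.exp (-(4 * D))) (q * Real.exp (-(4 * D)) / 3) p' pk' cls bx I
          NMA ∂(Pm μ N) +
        (Real.exp a * ∫ ω, RBs (wm μ s N Q ω) p (g ω) out (δ * Real.exp (-(4 * D))) (q * Real.exp (-(4 * D)) / 3) p' pk' cls bx I NMA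
            ∂(Pm μ N) +
          (I.card : ℝ) ^ 2 * (4 * Real.exp (-(t * a)) * Real.exp (Cc * ((2 * t + 3) ^ 2 + 1) * Bq)))) := by
  have h := bad_int (N := N) (s := s) hW (bx := bx) (I := I) ρ S φ hm hc ha ht hk hB p mg mu Cb hsh hgsh hC hu hθ0 hθ hp hτ hδ hq out hR
    p' pk' hc0 hc1 hn0 hn1
  have e : ∀ β ω, BT (wm μ s N Q ω + Cb β ω) (wm μ s N Q ω + u ω) p' pk' cls NMA bx β M q τ =
      4 * M ^ 4 * ((if q < gm (wm μ s N Q ω + Cb β ω) (bd (u ω - Cb β ω) τ) then (1 : ℝ) else 0) *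
        (rb (wm μ s N Q ω + u ω) p' pk' cls bx β NMA + rb (wm μ s N Q ω + Cb β ω) p' pk' cls bx β NMA)) := fun β ω => by
    unfold BT
    have e1 : wm μ s N Q ω + u ω - (wm μ s N Q ω + Cb β ω) = u ω - Cb β ω := by
      funext x
      simp only [Pi.sub_apply, Pi.add_apply]
      ring
    rw [e1]
    ring
  simp only [e, integral_const_mul]
  rw [← mul_sum]
  exact mul_le_mul_of_nonneg_left h (by positivity)

end Gen

/-! ### The kick fields -/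

section Kick

variable {μ : Measure ℝ} {s : ℝ} {N : ℕ} {Q : Finset (Finset ℕ)} [Nonempty (Px Q)]

/-- The bad functional of the rows `j`, `k`, class `r`, told at the log weights `w`; `p` = everything behind (in front of) the slab `J`. -/
def RBj (μ : Measure ℝ) (s δ B : ℝ) (b σ m j k : ℕ) (r : Bool) (J : Finset ℕ) (sl' R : ℝ) (m0 : ℤ) (n : ℕ) (p : Px Q → Finset ℕ × ℕ)
    (bx : Px Q → Fin (n + 1)) (δ₀ q₀ : ℝ) (w : Px Q → ℝ) (ω : Env × Finset ℕ) : ℝ :=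
  RBs w p (gg μ s Q δ B b ω j) (fun (β : Fin (n + 1) × Fin (n + 1)) x => T73.OutB T73.pm sl' R m0 (T73.JZ J) ![β.1, β.2] x) δ₀ q₀
    (pB (m * σ) j) (pB (m * σ) k) (Cl b σ j r) bx univ (NA b σ j k)

variable [IsProbabilityMeasure μ] {uu : ℝ → ℝ → ℝ} {Cc θ0 δ B : ℝ} {b σ m j k : ℕ} {J : Finset ℕ} {R : ℝ} {sl' : ℝ} {m0 : ℤ} {n : ℕ}

/-- **The bad terms of the right kick** (`r` any class; used for `true`). -/
theorem bt_R (hW : WL μ uu Cc θ0) (hQ : Fld19.GQ N Q) (hB : 0 ≤ B) (hR : 1 ≤ R) (hJ : J.Nonempty) {m1 : ℕ}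
    (hJ1 : ∀ i ∈ J, j + b < i ∧ i ≤ m1) (hm1 : m1 ≤ N) {bx : Px Q → Fin (n + 1)} {a t : ℝ} (ha : 0 ≤ a) (ht : 0 ≤ t)
    (hd : (2 * t + 3) * (B / J.card) ≤ θ0) {δ₀ q τ : ℝ} (hτ : 0 < τ) (hδ : 0 ≤ δ₀) (hq : 12 * δ₀ / τ ≤ q * Real.exp (-(2 * B)))
    (r : Bool) (M : ℝ) :
    ∑ β : Fin (n + 1) × Fin (n + 1), ∫ ω, BT (wm μ s N Q ω + CR2 μ s N Q δ B b j J sl' R m0 β ω)
        (wj μ s N Q δ B b j ω (-(sg ω.2 j : ℝ))) (pB (m * σ) j) (pB (m * σ) k) (Cl b σ j r) (NA b σ j k) bx β M q τ ∂(Pm μ N) ≤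
      4 * M ^ 4 * (∫ ω, RBj μ s δ B b σ m j k r J sl' R m0 n (pJ 0 m1) bx (δ₀ * Real.exp (-(4 * B))) (q * Real.exp (-(4 * B)) / 3)
          (wj μ s N Q δ B b j ω (-(sg ω.2 j : ℝ))) ω ∂(Pm μ N) +
        (Real.exp a * ∫ ω, RBj μ s δ B b σ m j k r J sl' R m0 n (pJ 0 m1) bx (δ₀ * Real.exp (-(4 * B)))
            (q * Real.exp (-(4 * B)) / 3) (wm μ s N Q ω) ω ∂(Pm μ N) +
          ((n : ℝ) + 1) ^ 2 * tlK Cc t a (14 * R * B ^ 2 / J.card))) := by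
  have hJN : ∀ i ∈ J, j + b < i ∧ i ≤ N := fun i hi => ⟨(hJ1 i hi).1, (hJ1 i hi).2.trans hm1⟩
  have hcard : (0 : ℝ) < J.card := by exact_mod_cast hJ.card_pos
  have h := bt_gen (N := N) (s := s) hW (K := Fin (n + 1)) (bx := bx) (I := univ) (fun _ _ p => p.1) (fun _ _ => Sl J N)
    (fun β A => pR μ s δ B b j J sl' R m0 β A) (fun β A => (kf_pR hB hR hJ hJN β A).meas) (fun β A => (kf_pR hB hR hJ hJN β A).pred)
    ha ht (fun β A => (kf_pR hB hR hJ hJN β A).hk ht hd) (fun β A => (kf_pR hB hR hJ hJN β A).sq) (pJ (Q := Q) 0 m1)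
    (g := fun ω => gg μ s Q δ B b ω j) (u := uj μ s δ B b j) (fun S => meas_gg δ B b j S) (meas_uj δ B b j)
    (fun β ω => CR2 μ s N Q δ B b j J sl' R m0 β ω) (fun β ω => wm_pR hJN β ω) (fun β ω => gg_pR hJN _ ω) (D := B)
    (fun β ω x => abs_CR hB (abs_sg _ _).le hJ (fun i hi => (hJN i hi).1) _ _ x) (abs_uj hB b j) (J := J)
    (θ := fun _ => (J.card : ℝ)⁻¹) (fun _ _ => by positivity)
    (by rw [sum_const, nsmul_eq_mul]; exact mul_inv_cancel₀ hcard.ne') (pm := fun i => pJ (Q := Q) 0 i)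
    (fun i hi => crs_pJ le_rfl (hJ1 i hi).2) hτ hδ hq
    (fun (β : Fin (n + 1) × Fin (n + 1)) x => T73.OutB T73.pm sl' R m0 (T73.JZ J) ![β.1, β.2] x)
    (fun β ω x hx => by
      have e1 := r_eq T73.vis_nn T73.Sl_rows (hC_R (μ := μ) (s := s) (δ := δ) (B := B) (b := b) (j := j) (a := sg ω.2 j) hQ hJN ω.1)
        (abs_sg _ _) hx
      rw [Pi.sub_apply, abs_sub_comm]
      exact e1) (pB (m * σ) j) (pB (m * σ) k) (Cl_nonneg b σ j r) (Cl_le_one b σ j r) (NA_nonneg b σ j k) (NA_le_one b σ j k) M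
  rw [univ_product_univ] at h
  simp only [wj_uj]
  refine h.trans (le_of_eq ?_)
  rw [card_univ, Fintype.card_fin]
  push_cast
  rfl

/-- **The bad terms of the left kick.** -/
theorem bt_L {y : ℕ} [Nonempty (Px (Pn N y))] (hW : WL μ uu Cc θ0) (hB : 0 ≤ B) (hR : 1 ≤ R) (hJ : J.Nonempty) {m1 : ℕ}
    (hJ1 : ∀ i ∈ J, 1 ≤ i ∧ m1 ≤ i ∧ i ≤ j - b) (hjN : j - b ≤ N) {bx : Px (Pn N y) → Fin (n + 1)} {a t : ℝ} (ha : 0 ≤ a)
    (ht : 0 ≤ t) (hd : (2 * t + 3) * (B / J.card) ≤ θ0) {δ₀ q τ : ℝ} (hτ : 0 < τ) (hδ : 0 ≤ δ₀)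
    (hq : 12 * δ₀ / τ ≤ q * Real.exp (-(2 * B))) (r : Bool) (M : ℝ) :
    ∑ β : Fin (n + 1) × Fin (n + 1), ∫ ω, BT (wm μ s N (Pn N y) ω + CL2 μ s N (Pn N y) δ B b j J sl' R m0 β ω)
        (wj μ s N (Pn N y) δ B b j ω (-(sg ω.2 j : ℝ))) (pB (m * σ) j) (pB (m * σ) k) (Cl b σ j r) (NA b σ j k) bx β M q τ ∂(Pm μ N) ≤
      4 * M ^ 4 * (∫ ω, RBj μ s δ B b σ m j k r J sl' R m0 n (pJ m1 N) bx (δ₀ * Real.exp (-(4 * B))) (q * Real.exp (-(4 * B)) / 3)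
          (wj μ s N (Pn N y) δ B b j ω (-(sg ω.2 j : ℝ))) ω ∂(Pm μ N) +
        (Real.exp a * ∫ ω, RBj μ s δ B b σ m j k r J sl' R m0 n (pJ m1 N) bx (δ₀ * Real.exp (-(4 * B)))
            (q * Real.exp (-(4 * B)) / 3) (wm μ s N (Pn N y) ω) ω ∂(Pm μ N) +
          ((n : ℝ) + 1) ^ 2 * tlK Cc t a (14 * R * B ^ 2 / J.card))) := by
  have hJN : ∀ i ∈ J, 1 ≤ i ∧ i ≤ j - b ∧ i ≤ N := fun i hi => ⟨(hJ1 i hi).1, (hJ1 i hi).2.2, (hJ1 i hi).2.2.trans hjN⟩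
  have hcard : (0 : ℝ) < J.card := by exact_mod_cast hJ.card_pos
  have h := bt_gen (N := N) (s := s) (Q := Pn N y) hW (K := Fin (n + 1)) (bx := bx) (I := univ) (fun _ _ p => -p.1) (fun _ _ => Sl J N)
    (fun β A => pL μ s N (Pn N y) δ B b j J sl' R m0 β A) (fun β A => (kf_pL hB hR hJ hJN β A).meas)
    (fun β A => (kf_pL hB hR hJ hJN β A).pred)
    ha ht (fun β A => (kf_pL hB hR hJ hJN β A).hk ht hd) (fun β A => (kf_pL hB hR hJ hJN β A).sq) (pJ (Q := Pn N y) m1 N)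
    (g := fun ω => gg μ s (Pn N y) δ B b ω j) (u := uj μ s δ B b j) (fun S => meas_gg δ B b j S) (meas_uj δ B b j)
    (fun β ω => CL2 μ s N (Pn N y) δ B b j J sl' R m0 β ω) (fun β ω => wm_pL hJN β ω) (fun β ω => gg_pL hJN _ ω) (D := B)
    (fun β ω x => abs_CL hB (abs_sg _ _).le hJ _ _ x) (abs_uj hB b j) (J := J)
    (θ := fun _ => (J.card : ℝ)⁻¹) (fun _ _ => by positivity)
    (by rw [sum_const, nsmul_eq_mul]; exact mul_inv_cancel₀ hcard.ne') (pm := fun i => BF63.pA (P := Pn N y) i)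
    (fun i hi x x' hx => by
      have h1 := (K27.pA_pJ (N := N) (y := y) (hJN i hi).2.2 x' x).1 hx
      exact crs_pJ (hJ1 i hi).2.1 le_rfl x x' h1) hτ hδ hq
    (fun (β : Fin (n + 1) × Fin (n + 1)) x => T73.OutB T73.pm sl' R m0 (T73.JZ J) ![β.1, β.2] x)
    (fun β ω x hx => by
      have e1 := r_eq T73.vis_nn T73.Sl_rows (hC_L (μ := μ) (s := s) (δ := δ) (B := B) (b := b) (j := j) (a := sg ω.2 j)
        (H27.fam_Pn hjN y) hjN (fun i hi => ⟨(hJN i hi).1, (hJN i hi).2.1⟩) ω.1) (abs_sg _ _) hx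
      rw [Pi.sub_apply, abs_sub_comm]
      exact e1) (pB (m * σ) j) (pB (m * σ) k) (Cl_nonneg b σ j r) (Cl_le_one b σ j r) (NA_nonneg b σ j k) (NA_le_one b σ j k) M
  rw [univ_product_univ] at h
  simp only [wj_uj]
  refine h.trans (le_of_eq ?_)
  rw [card_univ, Fintype.card_fin]
  push_cast
  rfl

end Kick

end

end Pool.W7d29a1.C0.GSD52
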