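import Pool.Agent.W_7d29a1_C0.One32

/-!
MP_7d29a1_pr, [CURV0], GS IN ONE KICK (helper32): THE SUM OVER THE ROWS.

`x32`: the mean `x` of the square of the loss `Dt` is at most: the own masses (near pairs), `(exp a - 1) ^ 2` times the mean of the square of
the sum of the own masses (the steps (1 - T) of all the rows, closed against `x`), the bad terms `BT` of the pairs (steps (T - flip)), and a
tiny term `tny`. `FldJ`: the contract of the field of one row.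
-/

set_option autoImplicit false
set_option linter.unusedSectionVars false

namespace Pool.Agent.W_7d29a1_C0.One32

open Finset MeasureTheory Pool.Agent.W_7d29a1_F Pool.Agent.W_7d29a1_X Pool.Agent.W_7d29a1_C0.Mod92
open Pool.W7d29a1.C0 (gz gm lse gz_pos gz_ne gm_nonneg gm_mono gm_const)
open Pool.W7d29a1.C0.VT31
open Pool.W7d29a1.C0.H27 (Sh PredR Sh_meas)
open Pool.Agent.W_7d29a1_C0.Q32 (WL q3)
open Pool.Agent.W_7d29a1_C0.Near32
open Pool.Agent.W_7d29a1_C0.KickT32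
open Pool.Agent.W_7d29a1_C0.GS65
open Pool.Agent.W_7d29a1_C0.E4T32
open Pool.Agent.W_7d29a1_C0.Swap57 (SwQ Lk NM NI Lk_gg gm2)
open Pool.Agent.W_7d29a1_C0.Flip61 (VW DW PW FErr one_kick grid_in)
open Pool.W7d29a1.C0.I52 (Vk rb tf52 PhB_sum rb_nonneg)

noncomputable section

/-! ### The contract of the field -/

/-- **The field of the row `j`**: predictable on its slabs, small, close to the flip, off the windows of the rows. -/
structure FldJ (μ : Measure ℝ) (s : ℝ) (N : ℕ) (δ B : ℝ) (b j : ℕ) (K : Finset ℕ) (t θ Bq D : ℝ) {κ : Type*}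
    (ρ : ℕ → Bool → κ × κ → Finset ℕ → Pt → ℤ) (S : ℕ → Bool → κ × κ → Finset ℕ → Finset Pt)
    (φ : ℕ → Bool → κ × κ → Finset ℕ → Pt → Env → ℝ) : Prop where
  me : ∀ y, y ≤ N → ∀ r β A, ∀ p ∈ S y r β A, Measurable (φ y r β A p)
  pr : ∀ y, y ≤ N → ∀ r β A, PredR (ρ y r β A) (S y r β A) (φ y r β A)
  kl : ∀ y, y ≤ N → ∀ r β A, ∀ p ∈ S y r β A, ∀ η, (2 * t + 3) * |φ y r β A p η| ≤ θ
  sq : ∀ y, y ≤ N → ∀ r β A η, ∑ p ∈ S y r β A, φ y r β A p η ^ 2 ≤ Bq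
  cl : ∀ y, y ≤ N → ∀ r β ω x, |wj μ s N (Pn N y) δ B b j ω (-(sg ω.2 j : ℝ)) x -
    wm μ s N (Pn N y) (shf (S y r β) (φ y r β) ω) x| ≤ D
  gg : ∀ y, y ≤ N → ∀ r β ω, ∀ k ∈ insert j K, gg μ s (Pn N y) δ B b (shf (S y r β) (φ y r β) ω) k = gg μ s (Pn N y) δ B b ω k

/-- The tiny term of one row. -/
def tny (n : ℝ) (nI : ℝ) (B M ε a t C Bq τ q D : ℝ) : ℝ :=
  n * (98 * B ^ 4) ^ 2 * (1 / M + 3 * ε) +
    (nI ^ 2 * (4 * Real.exp (-(t * a)) * Real.exp (C * ((2 * t + 3) ^ 2 + 1) * Bq) * (2 * (B / 2) ^ 2 * (n * (B ^ 2 / 6)))) +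
      nI ^ 2 * (n * (1 / 3 * (4 * (B / 2) ^ 4 * ((Real.exp (24 * τ) - 1) + 24 * (q * Real.exp (5 * D) / τ))))))

theorem tny_mono {n n' nI B M ε a t C Bq τ q D : ℝ} (h : n ≤ n') (hM : 0 ≤ M) (hε : 0 ≤ ε) (hτ : 0 < τ) (hq : 0 ≤ q) :
    tny n nI B M ε a t C Bq τ q D ≤ tny n' nI B M ε a t C Bq τ q D := by
  have h1 : 0 ≤ Real.exp (24 * τ) - 1 := by
    have := Real.add_one_le_exp (24 * τ)
    linarith
  have h2 : 0 ≤ 1 / M + 3 * ε := by positivity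
  have h3 : 0 ≤ 24 * (q * Real.exp (5 * D) / τ) := by positivity
  have h4 : 0 ≤ 4 * Real.exp (-(t * a)) * Real.exp (C * ((2 * t + 3) ^ 2 + 1) * Bq) := by positivity
  unfold tny
  refine add_le_add (mul_le_mul_of_nonneg_right (mul_le_mul_of_nonneg_right h (by positivity)) h2) (add_le_add ?_ ?_)
  · refine mul_le_mul_of_nonneg_left (mul_le_mul_of_nonneg_left (mul_le_mul_of_nonneg_left ?_ (by positivity)) h4) (by positivity)
    exact mul_le_mul_of_nonneg_right h (by positivity)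
  · exact mul_le_mul_of_nonneg_left (mul_le_mul_of_nonneg_right h (by positivity)) (by positivity)

/-! ### The own masses -/

variable {μ : Measure ℝ} {s : ℝ} {N : ℕ} {Q : Finset (Finset ℕ)} [SwQ Q] [Nonempty (Px Q)]

/-- The own mass of the class `r`, told from the base path. -/
def mJ (b σ m j : ℕ) (r : Bool) (w : Px Q → ℝ) : Px Q → ℝ :=
  mC w (j / (m * σ) * (m * σ)) (j / (m * σ) * (m * σ) + m * σ) (Cl b σ j r)

omit [SwQ Q] in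
theorem mJ_nonneg (b σ m j : ℕ) (r : Bool) (w : Px Q → ℝ) (x : Px Q) : 0 ≤ mJ b σ m j r w x := mC_nonneg (Cl_nonneg b σ j r) x

omit [SwQ Q] in
theorem mJ_le_one (b σ m j : ℕ) (r : Bool) (w : Px Q → ℝ) (x : Px Q) : mJ b σ m j r w x ≤ 1 := mC_le_one (Cl_le_one b σ j r) x

omit [SwQ Q] in
theorem gm2_fst (w : Px Q → ℝ) (f : Px Q → ℝ) : gm2 w (fun y _ => f y) = gm w f := by
  unfold Swap57.gm2
  congr 1
  funext y
  exact gm_const w _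

omit [SwQ Q] in
/-- The near price with the trivial kernel is the sum of the two own masses. -/
theorem OKj_one (b σ m j : ℕ) (ω : Env × Finset ℕ) :
    OKj μ s N Q (fun _ _ => 1) b σ m ω j = ∑ r : Bool, gm (wm μ s N Q ω) (mJ b σ m j r (wm μ s N Q ω)) := by
  unfold OKj OK
  have e1 : (fun (y : Px Q) (_ : Px Q) => (1 : ℝ) * cE (wm μ s N Q ω) (pJ (j / (m * σ) * (m * σ)) (j / (m * σ) * (m * σ) + m * σ))
      (NM (j / σ * σ) (j - b) (j + b) (j / σ * σ + σ) y) y) = fun y _ =>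
      (mJ b σ m j true (wm μ s N Q ω) + mJ b σ m j false (wm μ s N Q ω)) y := by
    funext y _
    rw [one_mul, NM_KR_KL, Pi.add_apply]
    have e2 := congrFun (cE_add (wm μ s N Q ω) (pJ (j / (m * σ) * (m * σ)) (j / (m * σ) * (m * σ) + m * σ))
      (KR (j + b) (j / σ * σ + σ) y) (KL (j / σ * σ) (j - b) (j + b) (j / σ * σ + σ) y)) y
    exact e2
  rw [e1, gm2_fst, Fintype.sum_bool]
  obtain ⟨x₀⟩ := ‹Nonempty (Px Q)›
  have e3 := congrFun (cE_add (wm μ s N Q ω) (fun _ : Px Q => ()) (mJ b σ m j true (wm μ s N Q ω))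
    (mJ b σ m j false (wm μ s N Q ω))) x₀
  rw [Pi.add_apply, E4T32.gm_unit, E4T32.gm_unit, E4T32.gm_unit] at e3
  exact e3

variable {δ B : ℝ} {b σ m : ℕ}

/-! ### The losses -/

theorem DA_Df (hm : 0 < m) {R : Finset ℕ} (hR : Deep R b σ) (c d h j : ℕ) (ω : Env × Finset ℕ) :
    DA μ s δ B b σ m j (Fa (Rw R c d) h j) (wm μ s N Q ω) ω = Df μ s N Q δ B b σ m R c d h ω j := by
  unfold DA Df
  refine sum_congr rfl fun k hk => ?_
  have hk' : k ∈ R := by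
    have h1 := (mem_filter.1 hk).1
    exact (mem_inter.1 h1).1
  have a1 : AxP (Po b j) (wm μ s N Q ω) := AxP_lw _ ω.1
  rw [← VW_VA hm a1 ω (hR k hk')]
  rfl

theorem PW_Df (hm : 0 < m) {R : Finset ℕ} (hR : Deep R b σ) (c d h j : ℕ) (ω : Env × Finset ℕ) :
    PW μ s δ B b σ m (Fa (Rw R c d) h j) j (wm μ s N Q ω) ω =
      gm (wm μ s N Q ω) (fun x => Vn μ s N Q δ B b σ m ω j x * Df μ s N Q δ B b σ m R c d h ω j x) := by
  unfold PW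
  have e1 : DW μ s δ B b σ m (Fa (Rw R c d) h j) (wm μ s N Q ω) ω = Df μ s N Q δ B b σ m R c d h ω j := by
    rw [← DA_Df hm hR]
    unfold DW DA
    refine sum_congr rfl fun k hk => ?_
    have hk' : k ∈ R := by
      have h1 := (mem_filter.1 hk).1
      exact (mem_inter.1 h1).1
    have a1 : AxP (Po b j) (wm μ s N Q ω) := AxP_lw _ ω.1
    rw [VW_VA hm a1 ω (hR k hk')]
  rw [e1]
  rfl

omit [SwQ Q] in
theorem meas_mJ (j : ℕ) (r : Bool) (x : Px Q) : Measurable fun ω => mJ b σ m j r (wm μ s N Q ω) x := meas_mC _ _ _ x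

/-- The block of a row of the block `[c, d)`. -/
theorem blk_le {σ' d k : ℕ} (hd : σ' ∣ d) (hk : k < d) : k / σ' * σ' + σ' ≤ d := by
  obtain ⟨e, rfl⟩ := hd
  have hσ : 0 < σ' := by
    rcases Nat.eq_zero_or_pos σ' with h | h
    · rw [h, zero_mul] at hk
      omega
    · exact h
  have h1 : k / σ' < e := by
    rw [Nat.div_lt_iff_lt_mul hσ, mul_comm]
    exact hk
  calc k / σ' * σ' + σ' = (k / σ' + 1) * σ' := by ring
    _ ≤ e * σ' := Nat.mul_le_mul_right _ h1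
    _ = σ' * e := mul_comm _ _

/-! ### The sum over the rows -/

/-- One end: the near pairs, the far pairs. -/
theorem near_y [IsProbabilityMeasure μ] (hB : 0 ≤ B) (hσ : 0 < σ) (hm : 0 < m) {R : Finset ℕ} (hR : Deep R b σ) {c d : ℕ}
    (hcd : c ≤ d) (hc : m * σ ∣ c) (hd : m * σ ∣ d) (h : ℕ) :
    ∫ ω, gm (wm μ s N Q ω) (fun S => Dt μ s N Q δ B b σ m R c d ω S ^ 2) ∂(Pm μ N) ≤
      h * B ^ 4 / 36 * ∑ j ∈ Rw R c d, ∑ r : Bool, ∫ ω, gm (wm μ s N Q ω) (mJ b σ m j r (wm μ s N Q ω)) ∂(Pm μ N) +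
        1 / 3 * ∑ j ∈ Rw R c d, ∫ ω, sr ω.2 j * PW μ s δ B b σ m (Fa (Rw R c d) h j) j (wm μ s N Q ω) ω ∂(Pm μ N) := by
  have h1 := near_int (μ := μ) (s := s) (N := N) (Q := Q) (δ := δ) hB b hσ hm R hcd hc hd h (K := fun _ _ => (1 : ℝ))
    (fun _ _ => zero_le_one) (CK := 1) (fun _ _ => le_rfl) (fun _ _ _ => fun _ _ _ => rfl)
  have e1 : ∀ ω, gm2 (wm μ s N Q ω) (fun y _ => (1 : ℝ) * (Dt μ s N Q δ B b σ m R c d ω y) ^ 2) =
      gm (wm μ s N Q ω) (fun S => Dt μ s N Q δ B b σ m R c d ω S ^ 2) := fun ω => by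
    rw [gm2_fst]
    congr 1
    funext S
    rw [one_mul]
  have e2 : ∀ j, ∫ ω, OKj μ s N Q (fun _ _ => (1 : ℝ)) b σ m ω j ∂(Pm μ N) =
      ∑ r : Bool, ∫ ω, gm (wm μ s N Q ω) (mJ b σ m j r (wm μ s N Q ω)) ∂(Pm μ N) := fun j => by
    rw [← integral_finsetSum _ fun r _ => int_bdd (M := 1) (meas_gm meas_wm fun x => meas_mJ j r x) fun ω => by
      rw [abs_of_nonneg (gm_nonneg _ fun x => mJ_nonneg b σ m j r _ x)]
      exact (gm_mono _ (g := fun _ => (1 : ℝ)) fun x => mJ_le_one b σ m j r _ x).trans (le_of_eq (gm_const _ 1))]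
    refine integral_congr_ae (Filter.Eventually.of_forall fun ω => ?_)
    exact OKj_one b σ m j ω
  have e3 : ∀ j, ∫ ω, sr ω.2 j * gm2 (wm μ s N Q ω) (fun y _ => (1 : ℝ) * (Vn μ s N Q δ B b σ m ω j y *
      Df μ s N Q δ B b σ m R c d h ω j y)) ∂(Pm μ N) =
      ∫ ω, sr ω.2 j * PW μ s δ B b σ m (Fa (Rw R c d) h j) j (wm μ s N Q ω) ω ∂(Pm μ N) := fun j => by
    refine integral_congr_ae (Filter.Eventually.of_forall fun ω => ?_)
    show sr ω.2 j * gm2 (wm μ s N Q ω) (fun y _ => (1 : ℝ) * (Vn μ s N Q δ B b σ m ω j y *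
      Df μ s N Q δ B b σ m R c d h ω j y)) = sr ω.2 j * PW μ s δ B b σ m (Fa (Rw R c d) h j) j (wm μ s N Q ω) ω
    rw [PW_Df hm hR, gm2_fst]
    congr 2
    funext S
    rw [one_mul]
  simp only [e1, e2, e3] at h1
  exact h1

/-- **GS IN ONE KICK, THE SUM OVER THE ROWS.** -/
theorem x32 [IsProbabilityMeasure μ] {u : ℝ → ℝ → ℝ} {C θ : ℝ} (hW : WL μ u C θ) {b σ m : ℕ} (hb : 0 < b) (hσ : 0 < σ) (hm : 0 < m)
    {R : Finset ℕ} (hR : Deep R b σ) {c d : ℕ} (hcd : c ≤ d) (hdN : d ≤ N) (hc : m * σ ∣ c) (hd : m * σ ∣ d) {h : ℕ} (hh : 2 * b ≤ h)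
    {δ B : ℝ} (hB : 1 ≤ B) {y₀ M : ℕ} (hy : 1 ≤ y₀) (hM : 1 ≤ M) (hyN : y₀ + M ≤ N) {ε : ℝ} (hε : 0 ≤ ε)
    (hE : ∀ j ∈ Rw R c d, FErr μ s N δ B b j y₀ M ε) {κ : Type*} [DecidableEq κ] (bx : ℕ → Bool → (y : ℕ) → Px (Pn N y) → κ)
    {I : Finset κ} (hI : ∀ j r y x, bx j r y x ∈ I) (ρ : ℕ → ℕ → Bool → κ × κ → Finset ℕ → Pt → ℤ)
    (S : ℕ → ℕ → Bool → κ × κ → Finset ℕ → Finset Pt) (φ : ℕ → ℕ → Bool → κ × κ → Finset ℕ → Pt → Env → ℝ) {a t Bq τ q D : ℝ}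
    (ha : 0 ≤ a) (ht : 0 ≤ t) (hτ : 0 < τ) (hτ' : τ ≤ 1 / 4) (hq : 0 ≤ q)
    (hF : ∀ j ∈ Rw R c d, FldJ μ s N δ B b j (Fa (Rw R c d) h j) t θ Bq D (ρ j) (S j) (φ j)) :
    avy (Ico y₀ (y₀ + M)) (fun y => ∫ ω, gm (wm μ s N (Pn N y) ω) (fun S => Dt μ s N (Pn N y) δ B b σ m R c d ω S ^ 2) ∂(Pm μ N)) ≤
      (h * B ^ 4 / 18 + (Real.exp a - 1) * (h * B ^ 4 / 36)) * (∑ j ∈ Rw R c d, ∑ r : Bool, avy (Ico y₀ (y₀ + M))
          (fun y => ∫ ω, gm (wm μ s N (Pn N y) ω) (mJ b σ m j r (wm μ s N (Pn N y) ω)) ∂(Pm μ N))) +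
        2 * ((Real.exp a - 1) * (B / 2) ^ 2 / 3) ^ 2 * (∑ r : Bool, avy (Ico y₀ (y₀ + M)) (fun y => ∫ ω, gm (wm μ s N (Pn N y) ω)
          (fun x => (∑ j ∈ Rw R c d, mJ b σ m j r (wm μ s N (Pn N y) ω) x) ^ 2) ∂(Pm μ N))) +
        2 / 3 * ((Rw R c d).card * tny (Rw R c d).card I.card B M ε a t C Bq τ q D) +
        1 / 9 * ∑ j ∈ Rw R c d, ∑ r : Bool, ∑ β ∈ I ×ˢ I, ∑ k ∈ Fa (Rw R c d) h j, avy (Ico y₀ (y₀ + M)) (fun y =>
          ∫ ω, BT (wm μ s N (Pn N y) (shf (S j y r β) (φ j y r β) ω)) (wj μ s N (Pn N y) δ B b j ω (-(sg ω.2 j : ℝ)))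
            (pB (m * σ) j) (pB (m * σ) k) (Cl b σ j r) (NA b σ j k) (bx j r y) β (B / 2) q τ ∂(Pm μ N)) := by
  have hB0 : 0 ≤ B := by linarith
  have hea : 0 ≤ Real.exp a - 1 := by linarith [Real.one_le_exp ha]
  obtain ⟨ys, hys⟩ : ∃ ys : Finset ℕ, ys = Ico y₀ (y₀ + M) := ⟨_, rfl⟩
  have hyy : ∀ y ∈ ys, y ≤ N := fun y hy' => by
    rw [hys, mem_Ico] at hy'
    omega
  obtain ⟨x, hx⟩ : ∃ x : ℕ → ℝ, x = fun y => ∫ ω, gm (wm μ s N (Pn N y) ω)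
    (fun S => Dt μ s N (Pn N y) δ B b σ m R c d ω S ^ 2) ∂(Pm μ N) := ⟨_, rfl⟩
  obtain ⟨M1, hM1⟩ : ∃ M1 : ℕ → Bool → ℕ → ℝ, M1 = fun j r y => ∫ ω, gm (wm μ s N (Pn N y) ω)
    (mJ b σ m j r (wm μ s N (Pn N y) ω)) ∂(Pm μ N) := ⟨_, rfl⟩
  obtain ⟨M2, hM2⟩ : ∃ M2 : Bool → ℕ → ℝ, M2 = fun r y => ∫ ω, gm (wm μ s N (Pn N y) ω)
    (fun x => (∑ j ∈ Rw R c d, mJ b σ m j r (wm μ s N (Pn N y) ω) x) ^ 2) ∂(Pm μ N) := ⟨_, rfl⟩
  obtain ⟨Z, hZ⟩ : ∃ Z : ℕ → ℕ → ℝ, Z = fun j y => ∫ ω, sr ω.2 j *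
    PW μ s δ B b σ m (Fa (Rw R c d) h j) j (wm μ s N (Pn N y) ω) ω ∂(Pm μ N) := ⟨_, rfl⟩
  obtain ⟨Y, hY⟩ : ∃ Y : ℕ → Bool → ℕ → ℝ, Y = fun j r y => ∫ ω, gm (wm μ s N (Pn N y) ω)
    (fun x => |DA μ s δ B b σ m j (Fa (Rw R c d) h j) (wm μ s N (Pn N y) ω) ω x| * mC (wm μ s N (Pn N y) ω)
      (j / (m * σ) * (m * σ)) (j / (m * σ) * (m * σ) + m * σ) (Cl b σ j r) x) ∂(Pm μ N) := ⟨_, rfl⟩
  obtain ⟨T, hT⟩ : ∃ T : ℕ → ℝ, T = fun j => ∑ r : Bool, ∑ β ∈ I ×ˢ I, ∑ k ∈ Fa (Rw R c d) h j, avy ys (fun y =>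
    ∫ ω, BT (wm μ s N (Pn N y) (shf (S j y r β) (φ j y r β) ω)) (wj μ s N (Pn N y) δ B b j ω (-(sg ω.2 j : ℝ)))
      (pB (m * σ) j) (pB (m * σ) k) (Cl b σ j r) (NA b σ j k) (bx j r y) β (B / 2) q τ ∂(Pm μ N)) := ⟨_, rfl⟩
  -- the near pairs
  have s1 : avy ys x ≤ h * B ^ 4 / 36 * (∑ j ∈ Rw R c d, ∑ r : Bool, avy ys (M1 j r)) + 1 / 3 * ∑ j ∈ Rw R c d, avy ys (Z j) := by
    have h1 : avy ys x ≤ avy ys fun y => h * B ^ 4 / 36 * (∑ j ∈ Rw R c d, ∑ r : Bool, M1 j r y) + 1 / 3 * ∑ j ∈ Rw R c d, Z j y := by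
      refine avy_mono fun y hy' => ?_
      haveI n1 : Nonempty (Px (Pn N y)) := ne_Pn (hyy y hy')
      rw [hx, hM1, hZ]
      exact near_y hB0 hσ hm hR hcd hc hd h
    refine h1.trans (le_of_eq ?_)
    rw [avy_add, avy_mul, avy_mul, avy_sum, avy_sum]
    congr 2
    exact sum_congr rfl fun j _ => avy_sum _ _ _
  -- one row
  have s2 : ∀ j ∈ Rw R c d, avy ys (Z j) ≤ (Real.exp a - 1) * (B / 2) ^ 2 * (∑ r : Bool, avy ys (Y j r)) +
      tny (Rw R c d).card I.card B M ε a t C Bq τ q D + 1 / 6 * T j := by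
    intro j hj
    have hjR : j ∈ R := (mem_inter.1 hj).1
    have hKR : ∀ k ∈ Fa (Rw R c d) h j, k ∈ Rw R c d := fun k hk => (mem_filter.1 hk).1
    have hin : ∀ k ∈ insert j (Fa (Rw R c d) h j), k ∈ Rw R c d := fun k hk => by
      rcases mem_insert.1 hk with h1 | h1
      · rw [h1]
        exact hj
      · exact hKR k h1
    have f := hF j hj
    have h1 := one32 hW hb hm (hR j hjR) (fun k hk => hR k (mem_inter.1 (hKR k hk)).1) (fun k hk => by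
      have h2 := (mem_filter.1 hk).2
      have h3 := (hR k (mem_inter.1 (hKR k hk)).1).1
      have h4 := (hR j hjR).1
      omega) hB (fun k hk => (blk_le hd (mem_Ico.1 (mem_inter.1 (hin k hk)).2).2).trans hdN) hy hM hyN (hE j hj) (bx j) (hI j)
      (ρ j) (S j) (φ j) f.me f.pr ha ht f.kl f.sq hτ hτ' hq f.cl f.gg
    rw [← hys] at h1
    have e1 : avy ys (Z j) ≤ |avy ys (Z j)| := le_abs_self _
    have hcard : ((Fa (Rw R c d) h j).card : ℝ) ≤ (Rw R c d).card := by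
      exact_mod_cast card_le_card (filter_subset _ _)
    have h5 := tny_mono (n := ((Fa (Rw R c d) h j).card : ℝ)) (n' := ((Rw R c d).card : ℝ)) (nI := (I.card : ℝ)) (B := B) (M := (M : ℝ))
      (ε := ε) (a := a) (t := t) (C := C) (Bq := Bq) (τ := τ) (q := q) (D := D) hcard (Nat.cast_nonneg _) hε hτ hq
    rw [hZ] at e1 ⊢
    rw [hY, hT]
    refine (e1.trans h1).trans ?_
    unfold tny at h5 ⊢
    linarith
  -- the sum of the steps (1 - T)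
  have s3 : (Real.exp a - 1) * (B / 2) ^ 2 / 3 * (∑ j ∈ Rw R c d, ∑ r : Bool, avy ys (Y j r)) ≤ 1 / 2 * avy ys x +
      ((Real.exp a - 1) * (B / 2) ^ 2 / 3) ^ 2 * (∑ r : Bool, avy ys (M2 r)) +
      (Real.exp a - 1) * (B / 2) ^ 2 / 3 * (h * B ^ 2 / 6) * (∑ j ∈ Rw R c d, ∑ r : Bool, avy ys (M1 j r)) := by
    have h1 : ∀ r : Bool, (Real.exp a - 1) * (B / 2) ^ 2 / 3 * (∑ j ∈ Rw R c d, avy ys (Y j r)) ≤ 1 / 4 * avy ys x +
        ((Real.exp a - 1) * (B / 2) ^ 2 / 3) ^ 2 * avy ys (M2 r) +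
        (Real.exp a - 1) * (B / 2) ^ 2 / 3 * (h * B ^ 2 / 6) * (∑ j ∈ Rw R c d, avy ys (M1 j r)) := by
      intro r
      have h2 : avy ys (fun y => (Real.exp a - 1) * (B / 2) ^ 2 / 3 * ∑ j ∈ Rw R c d, Y j r y) ≤ avy ys fun y =>
          (1 / 4 * x y + ((Real.exp a - 1) * (B / 2) ^ 2 / 3) ^ 2 * M2 r y) +
          (Real.exp a - 1) * (B / 2) ^ 2 / 3 * (h * B ^ 2 / 6) * ∑ j ∈ Rw R c d, M1 j r y := by
        refine avy_mono fun y hy' => ?_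
        haveI n1 : Nonempty (Px (Pn N y)) := ne_Pn (hyy y hy')
        have h3 := rows_Pm (μ := μ) (s := s) (N := N) (Q := Pn N y) (B := B) δ b σ m R c d h hB0 hσ hm hcd hc hd
          (K := (Real.exp a - 1) * (B / 2) ^ 2 / 3) (θ := 1 / 2) (by positivity) (by norm_num)
          (fun j => j / (m * σ) * (m * σ)) (fun j => j / (m * σ) * (m * σ) + m * σ) (cls := fun j => Cl b σ j r)
          (fun j => Cl_nonneg b σ j r) (fun j => Cl_le_one b σ j r)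
        have e1 : ∀ j ∈ Rw R c d, Y j r y = ∫ ω, gm (wm μ s N (Pn N y) ω) (fun x => |Df μ s N (Pn N y) δ B b σ m R c d h ω j x| *
            mC (wm μ s N (Pn N y) ω) (j / (m * σ) * (m * σ)) (j / (m * σ) * (m * σ) + m * σ) (Cl b σ j r) x) ∂(Pm μ N) := by
          intro j _
          rw [hY]
          refine integral_congr_ae (Filter.Eventually.of_forall fun ω => ?_)
          show gm _ _ = gm _ _
          congr 1
          funext x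
          rw [DA_Df hm hR]
        rw [sum_congr rfl e1, hx, hM1, hM2]
        refine h3.trans (le_of_eq ?_)
        show _ + _ * (∫ ω, gm (wm μ s N (Pn N y) ω) (fun x => (∑ j ∈ Rw R c d, mJ b σ m j r (wm μ s N (Pn N y) ω) x) ^ 2) ∂(Pm μ N)) +
          _ * (∑ j ∈ Rw R c d, ∫ ω, gm (wm μ s N (Pn N y) ω) (mJ b σ m j r (wm μ s N (Pn N y) ω)) ∂(Pm μ N)) = _
        ring
      rw [avy_mul, avy_sum, avy_add, avy_add, avy_mul, avy_mul, avy_mul, avy_sum] at h2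
      exact h2
    have h2 := add_le_add (h1 true) (h1 false)
    have e1 : ∀ f : ℕ → Bool → ℝ, ∑ j ∈ Rw R c d, ∑ r : Bool, f j r = (∑ j ∈ Rw R c d, f j true) + ∑ j ∈ Rw R c d, f j false :=
      fun f => by
        rw [← sum_add_distrib]
        exact sum_congr rfl fun j _ => Fintype.sum_bool _
    rw [e1, e1, Fintype.sum_bool]
    linarith
  have s4 : ∑ j ∈ Rw R c d, avy ys (Z j) ≤ (Real.exp a - 1) * (B / 2) ^ 2 * (∑ j ∈ Rw R c d, ∑ r : Bool, avy ys (Y j r)) +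
      (Rw R c d).card * tny (Rw R c d).card I.card B M ε a t C Bq τ q D + 1 / 6 * ∑ j ∈ Rw R c d, T j := by
    refine (sum_le_sum s2).trans (le_of_eq ?_)
    rw [sum_add_distrib, sum_add_distrib, ← mul_sum, ← mul_sum, sum_const, nsmul_eq_mul]
  rw [← hys]
  have g1 : avy ys (fun y => ∫ ω, gm (wm μ s N (Pn N y) ω) (fun S => Dt μ s N (Pn N y) δ B b σ m R c d ω S ^ 2) ∂(Pm μ N)) =
      avy ys x := by
    rw [hx]
  have g2 : ∑ j ∈ Rw R c d, ∑ r : Bool, avy ys (fun y => ∫ ω, gm (wm μ s N (Pn N y) ω) (mJ b σ m j r (wm μ s N (Pn N y) ω)) ∂(Pm μ N)) =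
      ∑ j ∈ Rw R c d, ∑ r : Bool, avy ys (M1 j r) := by
    rw [hM1]
  have g3 : ∑ r : Bool, avy ys (fun y => ∫ ω, gm (wm μ s N (Pn N y) ω)
      (fun x => (∑ j ∈ Rw R c d, mJ b σ m j r (wm μ s N (Pn N y) ω) x) ^ 2) ∂(Pm μ N)) = ∑ r : Bool, avy ys (M2 r) := by
    rw [hM2]
  have g4 : ∑ j ∈ Rw R c d, ∑ r : Bool, ∑ β ∈ I ×ˢ I, ∑ k ∈ Fa (Rw R c d) h j, avy ys (fun y =>
      ∫ ω, BT (wm μ s N (Pn N y) (shf (S j y r β) (φ j y r β) ω)) (wj μ s N (Pn N y) δ B b j ω (-(sg ω.2 j : ℝ)))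
        (pB (m * σ) j) (pB (m * σ) k) (Cl b σ j r) (NA b σ j k) (bx j r y) β (B / 2) q τ ∂(Pm μ N)) = ∑ j ∈ Rw R c d, T j := by
    rw [hT]
  rw [g1, g2, g3, g4]
  nlinarith [s1, s3, s4]

end

end Pool.Agent.W_7d29a1_C0.One32
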