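import Pool.Agent.W_7d29a1_C0.FldK27B
import Pool.Agent.W_7d29a1_C0.OneS32
import Pool.Agent.W_7d29a1_C0.Bd73

/-!
CURV0 (MP_7d29a1_pr), section GS (one kick): ONE ROW WITH THE KICK FIELDS. (helper27)

`uF` = the flip `- 2 a_j g_j` (`wj_uF`). `CF y r β ω` = the tilt `C_β` of the class `r` (`true` = right slab `JR`, `false` = left slab
`JL`, futures pinned at `y`). `one27`: `One32.one32` for these fields, no hypothesis on the fields left. `hR_R`, `hR_L`: off the paths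
which leave the tube `|u - C_β|` is `2 dv` (for `GSB52.bad_int`), `crs_R`, `crs_L` the condition on the fibres.
-/

set_option autoImplicit false
set_option linter.unusedSectionVars false
set_option linter.unusedVariables false

namespace Pool.W7d29a1.C0.K27

open Finset MeasureTheory Pool.Agent.W_7d29a1_F Pool.Agent.W_7d29a1_X Pool.W7d29a1.C0
open Pool.Agent.W_7d29a1_C0.Mod92
open Pool.W7d29a1.C0.H27 (Sh PredR Sh_meas Fam fam_Fr fam_Pn)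
open Pool.W7d29a1.C0.VT31 (Mp Crs cE fz)
open Pool.W7d29a1.C0.Fld19 (Sl GQ gq_Pn gq_Fr)
open Pool.Agent.W_7d29a1_C0.Q32 (WL)
open Pool.Agent.W_7d29a1_C0.KickT32 (mC)
open Pool.Agent.W_7d29a1_C0.Flip61 (PW FErr)
open Pool.Agent.W_7d29a1_C0.One32 (BT DA Cl NA pB shf one32 FldJ tny)

noncomputable section

variable {μ : Measure ℝ} {s : ℝ} {N : ℕ} {Q : Finset (Finset ℕ)}

/-! ### The flip and the fields -/

/-- The flip of the row `j`. -/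
def uF (μ : Measure ℝ) (s : ℝ) (Q : Finset (Finset ℕ)) (δ B : ℝ) (b j : ℕ) (ω : Env × Finset ℕ) : Px Q → ℝ :=
  (-2 * sr ω.2 j) • gg μ s Q δ B b ω j

theorem wj_uF (δ B : ℝ) (b j : ℕ) (ω : Env × Finset ℕ) :
    wj μ s N Q δ B b j ω (-(sg ω.2 j : ℝ)) = wm μ s N Q ω + uF μ s Q δ B b j ω := by
  show lw μ s ω.1 N Q + (-(sg ω.2 j : ℝ) - sg ω.2 j) • gj μ s ω.1 δ B b j (sg ω.2 j) = _
  rw [show -(sg ω.2 j : ℝ) - sg ω.2 j = -2 * sr ω.2 j by unfold sr; ring]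
  rfl

theorem uF_apply (δ B : ℝ) (b j : ℕ) (ω : Env × Finset ℕ) (x : Px Q) :
    uF μ s Q δ B b j ω x = -2 * (sg ω.2 j : ℝ) * gj μ s ω.1 δ B b j (sg ω.2 j) x := rfl

theorem abs_uF {B : ℝ} (hB : 0 ≤ B) (δ : ℝ) (b j : ℕ) (ω : Env × Finset ℕ) (x : Px Q) : |uF μ s Q δ B b j ω x| ≤ B := by
  rw [uF_apply]
  exact abs_2ag hB (abs_sg ω.2 j).le (abs_gj ω.1 hB (abs_sg ω.2 j).le b j x)

theorem uF_meas (δ B : ℝ) (b j : ℕ) (x : Px Q) : Measurable fun ω => uF μ s Q δ B b j ω x :=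
  ((meas_sr j).const_mul _).mul (meas_gg δ B b j x)

/-- The rank of the class. -/
def ρF (r : Bool) : Pt → ℤ := if r then fun p => p.1 else fun p => -p.1

/-- The slab of the class. -/
def SF (N : ℕ) (JR JL : Finset ℕ) (r : Bool) : Finset Pt := if r then Sl JR N else Sl JL N

/-- The field of the class, paths with the end `y`. -/
def φF (μ : Measure ℝ) (s : ℝ) (N : ℕ) (δ B : ℝ) (b j : ℕ) (JR JL : Finset ℕ) (sl' R : ℝ) (mR mL : ℤ) {n : ℕ} (y : ℕ) (r : Bool)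
    (β : Fin (n + 1) × Fin (n + 1)) (A : Finset ℕ) : Pt → Env → ℝ :=
  if r then pR μ s δ B b j JR sl' R mR β A else pL μ s N (Pn N y) δ B b j JL sl' R mL β A

/-- The tilt `C_β` of the class, paths with the end `y`. -/
def CF (μ : Measure ℝ) (s : ℝ) (N : ℕ) (δ B : ℝ) (b j : ℕ) (JR JL : Finset ℕ) (sl' R : ℝ) (mR mL : ℤ) {n : ℕ} (y : ℕ) (r : Bool)
    (β : Fin (n + 1) × Fin (n + 1)) (ω : Env × Finset ℕ) : Px (Pn N y) → ℝ :=
  if r then CR2 μ s N (Pn N y) δ B b j JR sl' R mR β ω else CL2 μ s N (Pn N y) δ B b j JL sl' R mL β ω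

/-- The geometry of the two slabs of `L` rows. -/
structure Geo27 (N b j : ℕ) (JR JL : Finset ℕ) (L : ℕ) : Prop where
  pos : 0 < L
  cR : JR.card = L
  cL : JL.card = L
  rR : ∀ i ∈ JR, j + b < i ∧ i ≤ N
  rL : ∀ i ∈ JL, 1 ≤ i ∧ i ≤ j - b ∧ i ≤ N

section Geo

variable {δ B : ℝ} {b j : ℕ} {JR JL : Finset ℕ} {L : ℕ} {sl' R : ℝ} {mR mL : ℤ} {n : ℕ}

theorem Geo27.neR (G : Geo27 N b j JR JL L) : JR.Nonempty := by
  rw [← card_pos, G.cR]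
  exact G.pos

theorem Geo27.neL (G : Geo27 N b j JR JL L) : JL.Nonempty := by
  rw [← card_pos, G.cL]
  exact G.pos

/-- **The data of the kick of the class.** -/
theorem kfF (G : Geo27 N b j JR JL L) (hB : 0 ≤ B) (hR : 1 ≤ R) (y : ℕ) (r : Bool) (β : Fin (n + 1) × Fin (n + 1))
    (A : Finset ℕ) :
    KF (ρF r) (SF N JR JL r) (φF μ s N δ B b j JR JL sl' R mR mL y r β A) (B / L) (14 * R * B ^ 2 / L) := by
  cases r
  · have h := kf_pL (μ := μ) (s := s) (N := N) (Q := Pn N y) (δ := δ) (sl' := sl') (m0 := mL) hB hR G.neL G.rL β A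
    rw [G.cL] at h
    exact h
  · have h := kf_pR (μ := μ) (s := s) (N := N) (δ := δ) (sl' := sl') (m0 := mR) hB hR G.neR G.rR β A
    rw [G.cR] at h
    exact h

/-- **The log weights at the kick of the class.** -/
theorem wm_F (G : Geo27 N b j JR JL L) (y : ℕ) (r : Bool) (β : Fin (n + 1) × Fin (n + 1)) (ω : Env × Finset ℕ) :
    wm μ s N (Pn N y) (shf (fun _ => SF N JR JL r) (φF μ s N δ B b j JR JL sl' R mR mL y r β) ω) =
      wm μ s N (Pn N y) ω + CF μ s N δ B b j JR JL sl' R mR mL y r β ω := by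
  cases r
  · exact wm_pL G.rL β ω
  · exact wm_pR G.rR β ω

theorem abs_CF (G : Geo27 N b j JR JL L) (hB : 0 ≤ B) (y : ℕ) (r : Bool) (β : Fin (n + 1) × Fin (n + 1)) (ω : Env × Finset ℕ)
    (x : Px (Pn N y)) : |CF μ s N δ B b j JR JL sl' R mR mL y r β ω x| ≤ B := by
  cases r
  · exact abs_CL hB (abs_sg ω.2 j).le G.neL _ ω.1 x
  · exact abs_CR hB (abs_sg ω.2 j).le G.neR (fun i hi => (G.rR i hi).1) _ ω.1 x

theorem CF_meas (G : Geo27 N b j JR JL L) (hB : 0 ≤ B) (hR : 1 ≤ R) (y : ℕ) (r : Bool) (β : Fin (n + 1) × Fin (n + 1))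
    (x : Px (Pn N y)) : Measurable fun ω => CF μ s N δ B b j JR JL sl' R mR mL y r β ω x := by
  cases r
  · exact CL_meas_om hB hR G.neL (fun i hi => (G.rL i hi).2.1) _ x
  · exact CR_meas_om hB hR G.neR (fun i hi => (G.rR i hi).1) _ x

/-- The responses whose windows are off the slabs. -/
theorem gg_F (y : ℕ) (r : Bool) (β : Fin (n + 1) × Fin (n + 1)) (ω : Env × Finset ℕ) {k : ℕ}
    (hk : ∀ i ∈ JR ∪ JL, i ≤ k - b ∨ k + b < i) :
    gg μ s Q δ B b (shf (fun _ => SF N JR JL r) (φF μ s N δ B b j JR JL sl' R mR mL y r β) ω) k = gg μ s Q δ B b ω k := by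
  cases r
  · exact gg_Sh _ ω δ B b k fun i hi => hk i (mem_union_right _ hi)
  · exact gg_Sh _ ω δ B b k fun i hi => hk i (mem_union_left _ hi)

end Geo

/-- **The field contract of `OneS32`**, `K` = the far rows. -/
theorem fldJ27 {δ B : ℝ} {b j : ℕ} {JR JL : Finset ℕ} {L : ℕ} {sl' R : ℝ} {mR mL : ℤ} {n : ℕ} {K : Finset ℕ} {t θ : ℝ}
    (G : Geo27 N b j JR JL L) (hB : 0 ≤ B) (hR : 1 ≤ R) (hs : ∀ k ∈ insert j K, ∀ i ∈ JR ∪ JL, i ≤ k - b ∨ k + b < i)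
    (ht : 0 ≤ t) (hθ : (2 * t + 3) * (B / L) ≤ θ) :
    FldJ μ s N δ B b j K t θ (14 * R * B ^ 2 / L) (2 * B) (fun _ r (_ : Fin (n + 1) × Fin (n + 1)) _ => ρF r)
      (fun _ r _ _ => SF N JR JL r) (fun y r β A => φF μ s N δ B b j JR JL sl' R mR mL y r β A) where
  me := fun y _ r β A => (kfF G hB hR y r β A).meas
  pr := fun y _ r β A => (kfF G hB hR y r β A).pred
  kl := fun y _ r β A => (kfF G hB hR y r β A).hk ht hθ
  sq := fun y _ r β A => (kfF G hB hR y r β A).sq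
  cl := fun y _ r β ω x => by
    rw [wm_F G y r β ω, wj_uF, Pi.add_apply, Pi.add_apply, add_sub_add_left_eq_sub]
    refine (abs_sub _ _).trans ?_
    have h1 := abs_uF (μ := μ) (s := s) (Q := Pn N y) hB δ b j ω x
    have h2 := abs_CF (μ := μ) (s := s) (δ := δ) (sl' := sl') (R := R) (mR := mR) (mL := mL) G hB y r β ω x
    linarith
  gg := fun y _ r β ω k hk => gg_F y r β ω (hs k hk)

/-- **The slabs** `[j + 2 b, j + 3 b)` and `[j - 3 b, j - 2 b)`. -/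
theorem geo27 {b j : ℕ} (hb : 0 < b) (h1 : 3 * b < j) (h2 : j + 3 * b ≤ N) :
    Geo27 N b j (Ico (j + 2 * b) (j + 3 * b)) (Ico (j - 3 * b) (j - 2 * b)) b where
  pos := hb
  cR := by
    rw [Nat.card_Ico]
    omega
  cL := by
    rw [Nat.card_Ico]
    omega
  rR := fun i hi => by
    rw [mem_Ico] at hi
    omega
  rL := fun i hi => by
    rw [mem_Ico] at hi
    omega

/-- The windows of `j` and of the far rows are off the slabs. -/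
theorem hs27 {b j h : ℕ} (hb : 0 < b) (h1 : 3 * b < j) (hh : 5 * b ≤ h) {T : Finset ℕ} :
    ∀ k ∈ insert j (Pool.Agent.W_7d29a1_C0.Near32.Fa T h j), ∀ i ∈ Ico (j + 2 * b) (j + 3 * b) ∪ Ico (j - 3 * b) (j - 2 * b), i ≤ k - b ∨ k + b < i := by
  intro k hk i hi
  rw [mem_union, mem_Ico, mem_Ico] at hi
  rcases mem_insert.1 hk with h3 | h3
  · omega
  · have h4 := (mem_filter.1 h3).2
    omega

/-! ### One row -/

/-- **ONE ROW OF GS IN ONE KICK, WITH THE KICK FIELDS**: no hypothesis on the fields left. `G` = the slabs, `hs` = the windows of `j`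
and of the rows of `K` are off the slabs, `hθ` = the size of the fields. -/
theorem one27 [IsProbabilityMeasure μ] {u : ℝ → ℝ → ℝ} {C θ : ℝ} (hW : WL μ u C θ) {b σ m : ℕ} (hb : 0 < b) (hm : 0 < m) {j : ℕ}
    (hjd : j / σ * σ + b ≤ j ∧ j + b ≤ (j / σ + 1) * σ) {K : Finset ℕ} (hKd : ∀ k ∈ K, k / σ * σ + b ≤ k ∧ k + b ≤ (k / σ + 1) * σ)
    (hK : ∀ k ∈ K, k + b ≤ j - b ∨ j + b ≤ k - b) {δ B : ℝ} (hB : 1 ≤ B)
    (hN : ∀ k ∈ insert j K, k / (m * σ) * (m * σ) + m * σ ≤ N) {y₀ M : ℕ} (hy : 1 ≤ y₀) (hM : 1 ≤ M) (hyN : y₀ + M ≤ N) {ε : ℝ}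
    (hE : FErr μ s N δ B b j y₀ M ε) {n : ℕ} (bx : Bool → (y : ℕ) → Px (Pn N y) → Fin (n + 1)) {JR JL : Finset ℕ} {L : ℕ}
    (G : Geo27 N b j JR JL L) (hs : ∀ k ∈ insert j K, ∀ i ∈ JR ∪ JL, i ≤ k - b ∨ k + b < i) (sl' : ℝ) {R : ℝ} (hR : 1 ≤ R)
    (mR mL : ℤ) {a t : ℝ} (ha : 0 ≤ a) (ht : 0 ≤ t) (hθ : (2 * t + 3) * (B / L) ≤ θ) {τ q : ℝ} (hτ : 0 < τ) (hτ' : τ ≤ 1 / 4)
    (hq : 0 ≤ q) :
    |avy (Ico y₀ (y₀ + M)) (fun y => ∫ ω, sr ω.2 j * PW μ s δ B b σ m K j (wm μ s N (Pn N y) ω) ω ∂(Pm μ N))| ≤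
      K.card * (98 * B ^ 4) ^ 2 * (1 / M + 3 * ε) +
      ((Real.exp a - 1) * (B / 2) ^ 2 * ∑ r : Bool, avy (Ico y₀ (y₀ + M)) (fun y => ∫ ω, gm (wm μ s N (Pn N y) ω)
          (fun x => |DA μ s δ B b σ m j K (wm μ s N (Pn N y) ω) ω x| * mC (wm μ s N (Pn N y) ω) (j / (m * σ) * (m * σ))
            (j / (m * σ) * (m * σ) + m * σ) (Cl b σ j r) x) ∂(Pm μ N)) +
        ((n : ℝ) + 1) ^ 2 * (tlK C t a (14 * R * B ^ 2 / L) * (2 * (B / 2) ^ 2 * (K.card * (B ^ 2 / 6)))) +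
        ((n : ℝ) + 1) ^ 2 * (K.card * (1 / 3 * (4 * (B / 2) ^ 4 *
          ((Real.exp (24 * τ) - 1) + 24 * (q * Real.exp (5 * (2 * B)) / τ))))) +
        1 / 6 * ∑ r : Bool, ∑ β ∈ (univ : Finset (Fin (n + 1))) ×ˢ (univ : Finset (Fin (n + 1))), ∑ k ∈ K,
          avy (Ico y₀ (y₀ + M)) (fun y => ∫ ω, BT (wm μ s N (Pn N y) ω + CF μ s N δ B b j JR JL sl' R mR mL y r β ω)
            (wm μ s N (Pn N y) ω + uF μ s (Pn N y) δ B b j ω) (pB (m * σ) j) (pB (m * σ) k) (Cl b σ j r) (NA b σ j k) (bx r y) β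
            (B / 2) q τ ∂(Pm μ N))) := by
  have hB0 : 0 ≤ B := by linarith
  have f := fldJ27 (μ := μ) (s := s) (δ := δ) (K := K) (sl' := sl') (mR := mR) (mL := mL) (n := n) G hB0 hR hs ht hθ
  have h := one32 hW hb hm hjd hKd hK hB hN hy hM hyN hE bx (I := univ) (fun _ _ _ => mem_univ _) _ _ _ f.me f.pr ha ht f.kl
    f.sq hτ hτ' hq f.cl f.gg
  have e1 : ((univ : Finset (Fin (n + 1))).card : ℝ) = n + 1 := by
    rw [card_univ, Fintype.card_fin]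
    push_cast
    rfl
  rw [e1] at h
  simp only [wm_F G, wj_uF] at h
  exact h

/-! ### Off the tube -/

section Tube

variable {δ B : ℝ} {b j : ℕ} {J : Finset ℕ} {sl' R : ℝ} {m0 : ℤ} {n : ℕ}

/-- **The right class**: off the paths out of the tube the tilt of `KT52` is `2 dv`. -/
theorem hR_R [Nonempty (Px Q)] (hQ : GQ N Q) (hJ1 : ∀ i ∈ J, j + b < i ∧ i ≤ N) (β : Fin (n + 1) × Fin (n + 1))
    (ω : Env × Finset ℕ) (x : Px Q) (hx : ¬ T73.OutB T73.pm sl' R m0 (T73.JZ J) ![β.1, β.2] x) :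
    |(uF μ s Q δ B b j ω - CR2 μ s N Q δ B b j J sl' R m0 β ω) x| =
      2 * Bd73.dv (wm μ s N Q ω) J (fun _ => (J.card : ℝ)⁻¹) (fun m => pJ 0 m) (gg μ s Q δ B b ω j) x := by
  rw [Pi.sub_apply, abs_sub_comm, uF_apply]
  exact Bd73.r_eq T73.vis_nn T73.Sl_rows (hC_R hQ hJ1 ω.1) (abs_sg ω.2 j) hx

/-- The full left field on the pinned paths, with the fibres `pJ m N`. -/
theorem hC_L' {y : ℕ} [Nonempty (Px (Pn N y))] (hN : j - b ≤ N) (hJ : ∀ i ∈ J, 1 ≤ i ∧ i ≤ j - b) {a : ℤ} (η : Env)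
    (S : Px (Pn N y)) :
    H19.Cf (Sl J N) (cB μ s N (Pn N y) (j - b) (gL μ s δ B b j a) J) (nP (Pn N y)) η S = -2 * (a : ℝ) * ∑ m ∈ J, (J.card : ℝ)⁻¹ *
      cE (lw μ s η N (Pn N y)) (pJ m N) (gj μ s η δ B b j a) S := by
  rw [hC_L (fam_Pn hN y) hN hJ η S]
  congr 1
  refine sum_congr rfl fun m hm => ?_
  rw [cE_pA_pJ _ ((hJ m hm).2.trans hN)]

/-- **The left class**, pinned paths. -/
theorem hR_L {y : ℕ} [Nonempty (Px (Pn N y))] (hN : j - b ≤ N) (hJ1 : ∀ i ∈ J, 1 ≤ i ∧ i ≤ j - b ∧ i ≤ N)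
    (β : Fin (n + 1) × Fin (n + 1)) (ω : Env × Finset ℕ) (x : Px (Pn N y))
    (hx : ¬ T73.OutB T73.pm sl' R m0 (T73.JZ J) ![β.1, β.2] x) :
    |(uF μ s (Pn N y) δ B b j ω - CL2 μ s N (Pn N y) δ B b j J sl' R m0 β ω) x| =
      2 * Bd73.dv (wm μ s N (Pn N y) ω) J (fun _ => (J.card : ℝ)⁻¹) (fun m => pJ m N) (gg μ s (Pn N y) δ B b ω j) x := by
  rw [Pi.sub_apply, abs_sub_comm, uF_apply]
  exact Bd73.r_eq T73.vis_nn T73.Sl_rows (hC_L' hN (fun i hi => ⟨(hJ1 i hi).1, (hJ1 i hi).2.1⟩) ω.1) (abs_sg ω.2 j) hx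

theorem crs_R {m1 : ℕ} (h : ∀ i ∈ J, i ≤ m1) : ∀ m ∈ J, Crs (pJ (Q := Q) 0 m1) (pJ 0 m) := fun m hm =>
  crs_pJ le_rfl (h m hm)

theorem crs_L {m1 : ℕ} (h : ∀ i ∈ J, m1 ≤ i) : ∀ m ∈ J, Crs (pJ (Q := Q) m1 N) (pJ m N) := fun m hm =>
  crs_pJ (h m hm) le_rfl

theorem sum_w (hJ : J.Nonempty) : (∀ m ∈ J, (0 : ℝ) ≤ (J.card : ℝ)⁻¹) ∧ ∑ m ∈ J, (J.card : ℝ)⁻¹ = 1 := by
  refine ⟨fun m _ => inv_nonneg.2 (Nat.cast_nonneg _), ?_⟩
  rw [sum_const, nsmul_eq_mul, mul_inv_cancel₀]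
  exact_mod_cast hJ.card_pos.ne'

end Tube

end

end Pool.W7d29a1.C0.K27
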