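import Pool.Agent.W_7d29a1_C0.OneS32
import Pool.Agent.W_7d29a1_C0.GSC52

/-!
MP_7d29a1_pr, [CURV0], GS IN ONE KICK (helper32): ONE ROW IN THE NAMES OF `GSC52`.

`row32`: `rowq j ≤ (exp a - 1) (B / 2) ^ 2 dmq j + tny + 1 / 6` times the sum over the classes, the pairs of boxes and the far rows of the
averaged means of the bad terms `BT`.
-/

set_option autoImplicit false
set_option linter.unusedSectionVars false

namespace Pool.Agent.W_7d29a1_C0.One32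

open Finset MeasureTheory Pool.Agent.W_7d29a1_F Pool.Agent.W_7d29a1_X Pool.Agent.W_7d29a1_C0.Mod92
open Pool.W7d29a1.C0 (gz gm lse gz_pos gz_ne gm_nonneg gm_mono gm_const)
open Pool.W7d29a1.C0.VT31
open Pool.Agent.W_7d29a1_C0.Q32 (WL q3)
open Pool.Agent.W_7d29a1_C0.Near32
open Pool.Agent.W_7d29a1_C0.KickT32
open Pool.Agent.W_7d29a1_C0.GS65
open Pool.Agent.W_7d29a1_C0.E4T32
open Pool.Agent.W_7d29a1_C0.Swap57 (SwQ Lk NM NI Lk_gg gm2)
open Pool.Agent.W_7d29a1_C0.Flip61 (VW DW PW FErr one_kick grid_in)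
open Pool.W7d29a1.C0.GSC52 (rowq dmq mN mN_classes Nj)

noncomputable section

variable {μ : Measure ℝ} {s : ℝ} {N : ℕ}

/-- The two classes of `|Df_j|` times the own mass. -/
theorem dmq_classes [IsProbabilityMeasure μ] {ys : Finset ℕ} (hys : ∀ y ∈ ys, y ≤ N) {δ B : ℝ} (hB : 0 ≤ B) {b σ m : ℕ} (hm : 0 < m)
    {R : Finset ℕ} (hR : Deep R b σ) (c d h j : ℕ) :
    ∑ r : Bool, avy ys (fun y => ∫ ω, gm (wm μ s N (Pn N y) ω) (fun x =>
        |DA μ s δ B b σ m j (Fa (Rw R c d) h j) (wm μ s N (Pn N y) ω) ω x| * mC (wm μ s N (Pn N y) ω) (j / (m * σ) * (m * σ))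
          (j / (m * σ) * (m * σ) + m * σ) (Cl b σ j r) x) ∂(Pm μ N)) = dmq μ s N ys δ B b σ m R c d h j := by
  rw [Fintype.sum_bool, ← avy_add]
  unfold dmq avy
  congr 1
  refine sum_congr rfl fun y hy => ?_
  haveI n1 : Nonempty (Px (Pn N y)) := ne_Pn (hys y hy)
  have ii : ∀ r : Bool, Integrable (fun ω => gm (wm μ s N (Pn N y) ω) (fun x =>
        |DA μ s δ B b σ m j (Fa (Rw R c d) h j) (wm μ s N (Pn N y) ω) ω x| * mC (wm μ s N (Pn N y) ω) (j / (m * σ) * (m * σ))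
          (j / (m * σ) * (m * σ) + m * σ) (Cl b σ j r) x)) (Pm μ N) := fun r => by
    refine int_bdd (M := (Fa (Rw R c d) h j).card * (B ^ 2 / 6) * 1) (meas_gm meas_wm fun x =>
      ((meas_DA (δ := δ) (B := B) (fun S => meas_wm S) _ x).norm).mul (meas_mC _ _ _ x)) fun ω => ?_
    have h0 : ∀ x, 0 ≤ |DA μ s δ B b σ m j (Fa (Rw R c d) h j) (wm μ s N (Pn N y) ω) ω x| * mC (wm μ s N (Pn N y) ω)
        (j / (m * σ) * (m * σ)) (j / (m * σ) * (m * σ) + m * σ) (Cl b σ j r) x := fun x =>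
      mul_nonneg (abs_nonneg _) (mC_nonneg (Cl_nonneg b σ j r) x)
    rw [abs_of_nonneg (gm_nonneg _ h0)]
    refine (gm_mono _ (g := fun _ => (Fa (Rw R c d) h j).card * (B ^ 2 / 6) * 1) fun x => ?_).trans (le_of_eq (gm_const _ _))
    exact mul_le_mul (abs_DA hB _ _ ω x) (mC_le_one (Cl_le_one b σ j r) x) (mC_nonneg (Cl_nonneg b σ j r) x) (by positivity)
  refine (integral_add (ii true) (ii false)).symm.trans ?_
  refine integral_congr_ae (Filter.Eventually.of_forall fun ω => ?_)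
  have x₀ : Px (Pn N y) := Classical.arbitrary _
  have e3 := congrFun (cE_add (wm μ s N (Pn N y) ω) (fun _ : Px (Pn N y) => ())
    (fun x => |DA μ s δ B b σ m j (Fa (Rw R c d) h j) (wm μ s N (Pn N y) ω) ω x| * mC (wm μ s N (Pn N y) ω) (j / (m * σ) * (m * σ))
          (j / (m * σ) * (m * σ) + m * σ) (Cl b σ j true) x)
    (fun x => |DA μ s δ B b σ m j (Fa (Rw R c d) h j) (wm μ s N (Pn N y) ω) ω x| * mC (wm μ s N (Pn N y) ω) (j / (m * σ) * (m * σ))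
          (j / (m * σ) * (m * σ) + m * σ) (Cl b σ j false) x)) x₀
  rw [Pi.add_apply, E4T32.gm_unit, E4T32.gm_unit, E4T32.gm_unit] at e3
  refine e3.symm.trans ?_
  show gm _ _ = gm _ _
  congr 1
  funext x
  rw [Pi.add_apply, mN_classes, DA_Df hm hR, ← mul_add]
  rfl

/-- **ONE ROW.** -/
theorem row32 [IsProbabilityMeasure μ] {u : ℝ → ℝ → ℝ} {C θ : ℝ} (hW : WL μ u C θ) {b σ m : ℕ} (hb : 0 < b) (hm : 0 < m)
    {R : Finset ℕ} (hR : Deep R b σ) {c d : ℕ} (hdN : d ≤ N) (hd : m * σ ∣ d) {h : ℕ} (hh : 2 * b ≤ h)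
    {δ B : ℝ} (hB : 1 ≤ B) {y₀ M : ℕ} (hy : 1 ≤ y₀) (hM : 1 ≤ M) (hyN : y₀ + M ≤ N) {ε : ℝ} (hε : 0 ≤ ε) {j : ℕ} (hj : j ∈ Rw R c d)
    (hE : FErr μ s N δ B b j y₀ M ε) {κ : Type*} [DecidableEq κ] (bx : Bool → (y : ℕ) → Px (Pn N y) → κ)
    {I : Finset κ} (hI : ∀ r y x, bx r y x ∈ I) (ρ : ℕ → Bool → κ × κ → Finset ℕ → Pt → ℤ)
    (S : ℕ → Bool → κ × κ → Finset ℕ → Finset Pt) (φ : ℕ → Bool → κ × κ → Finset ℕ → Pt → Env → ℝ) {a t Bq τ q D : ℝ}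
    (ha : 0 ≤ a) (ht : 0 ≤ t) (hτ : 0 < τ) (hτ' : τ ≤ 1 / 4) (hq : 0 ≤ q)
    (f : FldJ μ s N δ B b j (Fa (Rw R c d) h j) t θ Bq D ρ S φ) :
    rowq μ s N (Ico y₀ (y₀ + M)) δ B b σ m R c d h j ≤
      (Real.exp a - 1) * (B / 2) ^ 2 * dmq μ s N (Ico y₀ (y₀ + M)) δ B b σ m R c d h j +
        (tny (Rw R c d).card I.card B M ε a t C Bq τ q D +
        1 / 6 * ∑ r : Bool, ∑ β ∈ I ×ˢ I, ∑ k ∈ Fa (Rw R c d) h j, avy (Ico y₀ (y₀ + M)) (fun y =>
          ∫ ω, BT (wm μ s N (Pn N y) (shf (S y r β) (φ y r β) ω)) (wj μ s N (Pn N y) δ B b j ω (-(sg ω.2 j : ℝ)))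
            (pB (m * σ) j) (pB (m * σ) k) (Cl b σ j r) (NA b σ j k) (bx r y) β (B / 2) q τ ∂(Pm μ N))) := by
  have hB0 : 0 ≤ B := by linarith
  have hys : ∀ y ∈ Ico y₀ (y₀ + M), y ≤ N := fun y hy' => by
    rw [mem_Ico] at hy'
    omega
  have hjR : j ∈ R := (mem_inter.1 hj).1
  have hKR : ∀ k ∈ Fa (Rw R c d) h j, k ∈ Rw R c d := fun k hk => (mem_filter.1 hk).1
  have hin : ∀ k ∈ insert j (Fa (Rw R c d) h j), k ∈ Rw R c d := fun k hk => by
    rcases mem_insert.1 hk with h1 | h1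
    · rw [h1]
      exact hj
    · exact hKR k h1
  have h1 := one32 hW hb hm (hR j hjR) (fun k hk => hR k (mem_inter.1 (hKR k hk)).1) (fun k hk => by
    have h2 := (mem_filter.1 hk).2
    have h3 := (hR k (mem_inter.1 (hKR k hk)).1).1
    have h4 := (hR j hjR).1
    omega) hB (fun k hk => (blk_le hd (mem_Ico.1 (mem_inter.1 (hin k hk)).2).2).trans hdN) hy hM hyN hE bx hI
    ρ S φ f.me f.pr ha ht f.kl f.sq hτ hτ' hq f.cl f.gg
  have e0 : rowq μ s N (Ico y₀ (y₀ + M)) δ B b σ m R c d h j = avy (Ico y₀ (y₀ + M)) (fun y => ∫ ω, sr ω.2 j *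
      PW μ s δ B b σ m (Fa (Rw R c d) h j) j (wm μ s N (Pn N y) ω) ω ∂(Pm μ N)) := by
    unfold rowq
    refine congrArg (fun z => _ * z) (sum_congr rfl fun y hy' => ?_)
    haveI n1 : Nonempty (Px (Pn N y)) := ne_Pn (hys y hy')
    refine integral_congr_ae (Filter.Eventually.of_forall fun ω => ?_)
    show sr ω.2 j * _ = sr ω.2 j * _
    rw [PW_Df hm hR]
  have hcard : ((Fa (Rw R c d) h j).card : ℝ) ≤ (Rw R c d).card := by
    exact_mod_cast card_le_card (filter_subset _ _)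
  have h5 := tny_mono (n := ((Fa (Rw R c d) h j).card : ℝ)) (n' := ((Rw R c d).card : ℝ)) (nI := (I.card : ℝ)) (B := B) (M := (M : ℝ))
    (ε := ε) (a := a) (t := t) (C := C) (Bq := Bq) (τ := τ) (q := q) (D := D) hcard (Nat.cast_nonneg _) hε hτ hq
  rw [dmq_classes hys hB0 hm hR] at h1
  rw [e0]
  refine ((le_abs_self _).trans h1).trans ?_
  unfold tny at h5 ⊢
  linarith

end

end Pool.Agent.W_7d29a1_C0.One32
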