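import Pool.Agent.W_7d29a1_C0.GSD52
import Pool.Agent.W_7d29a1_C0.OneF27
import Pool.Agent.W_7d29a1_C0.Row32

/-!
CURV0 (MP_7d29a1_pr), GS IN ONE KICK, ONE ROW (helper52). `RBF`: the bad functional of the rows `j`, `k` and the class `r` at the log
weights `w`, paths pinned at `y`. **`row52`**: `rowq j ≤ (exp a - 1) (B / 2) ^ 2 dmq j + Σ_k T_jk + tiny`, `T_jk` = the averaged means of `RBF`
at the two weights `wj` (flipped) and `wm`.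
-/

set_option autoImplicit false
set_option linter.unusedSectionVars false
set_option linter.unusedVariables false

namespace Pool.W7d29a1.C0.GSE52

open Finset MeasureTheory Pool.Agent.W_7d29a1_F Pool.Agent.W_7d29a1_X
open Pool.Agent.W_7d29a1_C0 Pool.Agent.W_7d29a1_C0.Mod92
open Pool.W7d29a1.C0 Pool.W7d29a1.C0.VT31
open Pool.Agent.W_7d29a1_C0.Near32
open Pool.Agent.W_7d29a1_C0.Q32 (WL)
open Pool.Agent.W_7d29a1_C0.Flip61 (FErr)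
open Pool.Agent.W_7d29a1_C0.One32
open Pool.W7d29a1.C0.K27 (tlK CR2 CL2 CF Geo27 fldJ27 wm_F φF SF ρF)
open Pool.W7d29a1.C0.GSC52 (rowq dmq avy_mulc)
open Pool.W7d29a1.C0.GSD52 (RBj bt_R bt_L uj wj_uj meas_uj)
open Pool.W7d29a1.C0.GSB52 (RBs RBb RBb_nonneg RBb_le_one RBb_mono meas_RBb)

noncomputable section

section RBj

variable {μ : Measure ℝ} {s : ℝ} {N : ℕ} {Q : Finset (Finset ℕ)} [Nonempty (Px Q)] {δ B : ℝ} {b σ m j k : ℕ} {r : Bool}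
  {J : Finset ℕ} {sl' R : ℝ} {m0 : ℤ} {n : ℕ} {p : Px Q → Finset ℕ × ℕ} {bx : Px Q → Fin (n + 1)} {δ₀ q₀ : ℝ}

theorem RBj_nonneg (w : Px Q → ℝ) (ω : Env × Finset ℕ) : 0 ≤ RBj μ s δ B b σ m j k r J sl' R m0 n p bx δ₀ q₀ w ω :=
  sum_nonneg fun β _ => RBb_nonneg _ _ _ _ _ _ _ _ (Cl_nonneg b σ j r) (NA_nonneg b σ j k) _ _

theorem RBj_le (w : Px Q → ℝ) (ω : Env × Finset ℕ) : RBj μ s δ B b σ m j k r J sl' R m0 n p bx δ₀ q₀ w ω ≤ ((n : ℝ) + 1) ^ 2 := by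
  refine (sum_le_card_nsmul _ _ 1 fun β _ => RBb_le_one _ _ _ _ _ _ _ _ (Cl_nonneg b σ j r) (Cl_le_one b σ j r)
    (NA_nonneg b σ j k) (NA_le_one b σ j k) _ _).trans (le_of_eq ?_)
  rw [nsmul_eq_mul, mul_one, card_product, card_univ, Fintype.card_fin]
  push_cast
  ring

theorem RBj_mono {δ₁ q₁ : ℝ} (h1 : δ₁ ≤ δ₀) (h2 : q₁ ≤ q₀) (w : Px Q → ℝ) (ω : Env × Finset ℕ) :
    RBj μ s δ B b σ m j k r J sl' R m0 n p bx δ₀ q₀ w ω ≤ RBj μ s δ B b σ m j k r J sl' R m0 n p bx δ₁ q₁ w ω :=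
  sum_le_sum fun β _ => RBb_mono _ _ _ _ h1 h2 _ _ (Cl_nonneg b σ j r) (NA_nonneg b σ j k) _ _

theorem meas_RBj {W : Env × Finset ℕ → Px Q → ℝ} (hW : ∀ S, Measurable fun ω => W ω S) :
    Measurable fun ω => RBj μ s δ B b σ m j k r J sl' R m0 n p bx δ₀ q₀ (W ω) ω :=
  Finset.measurable_fun_sum _ fun β _ => meas_RBb hW (fun S => meas_gg δ B b j S) _ _ _ _ _ _ _ _ _ _

end RBj

/-- **The bad functional** of the rows `j`, `k`, class `r`, at the log weights `w`, paths pinned at `y`. -/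
def RBF (μ : Measure ℝ) (s : ℝ) (N : ℕ) (δ B : ℝ) (b σ m j k : ℕ) (JR JL : Finset ℕ) (sl' R : ℝ) (mR mL : ℤ) (m1 m2 : ℕ) {n : ℕ}
    (bx : Bool → (y : ℕ) → Px (Pn N y) → Fin (n + 1)) (δ₀ q₀ : ℝ) (r : Bool) (y : ℕ) (w : Px (Pn N y) → ℝ) (ω : Env × Finset ℕ) : ℝ :=
  if r then RBj μ s δ B b σ m j k true JR sl' R mR n (pJ 0 m1) (bx true y) δ₀ q₀ w ω
  else RBj μ s δ B b σ m j k false JL sl' R mL n (pJ m2 N) (bx false y) δ₀ q₀ w ω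

/-- The weights: flipped at the row `j` (`true`), or not. -/
def Wf (μ : Measure ℝ) (s : ℝ) (N : ℕ) (δ B : ℝ) (b j : ℕ) (fl : Bool) (y : ℕ) (ω : Env × Finset ℕ) : Px (Pn N y) → ℝ :=
  if fl then wj μ s N (Pn N y) δ B b j ω (-(sg ω.2 j : ℝ)) else wm μ s N (Pn N y) ω

/-- **The averaged mean of the bad functional**: class `r`, weights `Wf fl`. -/
def RBq (μ : Measure ℝ) (s : ℝ) (N : ℕ) (ys : Finset ℕ) (δ B : ℝ) (b σ m j k : ℕ) (JR JL : Finset ℕ) (sl' R : ℝ) (mR mL : ℤ)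
    (m1 m2 : ℕ) {n : ℕ} (bx : Bool → (y : ℕ) → Px (Pn N y) → Fin (n + 1)) (δ₀ q₀ : ℝ) (r fl : Bool) : ℝ :=
  avy ys fun y => ∫ ω, RBF μ s N δ B b σ m j k JR JL sl' R mR mL m1 m2 bx δ₀ q₀ r y (Wf μ s N δ B b j fl y ω) ω ∂(Pm μ N)

section RBF

variable {μ : Measure ℝ} {s : ℝ} {N : ℕ} {δ B : ℝ} {b σ m j k : ℕ} {JR JL : Finset ℕ} {sl' R : ℝ} {mR mL : ℤ} {m1 m2 : ℕ} {n : ℕ}
  {bx : Bool → (y : ℕ) → Px (Pn N y) → Fin (n + 1)} {δ₀ q₀ : ℝ}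

theorem RBF_nonneg {y : ℕ} (hy : y ≤ N) (r : Bool) (w : Px (Pn N y) → ℝ) (ω : Env × Finset ℕ) :
    0 ≤ RBF μ s N δ B b σ m j k JR JL sl' R mR mL m1 m2 bx δ₀ q₀ r y w ω := by
  haveI n1 : Nonempty (Px (Pn N y)) := ne_Pn hy
  unfold RBF
  split_ifs
  · exact RBj_nonneg w ω
  · exact RBj_nonneg w ω

theorem RBF_le {y : ℕ} (hy : y ≤ N) (r : Bool) (w : Px (Pn N y) → ℝ) (ω : Env × Finset ℕ) :
    RBF μ s N δ B b σ m j k JR JL sl' R mR mL m1 m2 bx δ₀ q₀ r y w ω ≤ ((n : ℝ) + 1) ^ 2 := by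
  haveI n1 : Nonempty (Px (Pn N y)) := ne_Pn hy
  unfold RBF
  split_ifs
  · exact RBj_le w ω
  · exact RBj_le w ω

theorem RBF_mono {y : ℕ} (hy : y ≤ N) {δ₁ q₁ : ℝ} (h1 : δ₁ ≤ δ₀) (h2 : q₁ ≤ q₀) (r : Bool) (w : Px (Pn N y) → ℝ)
    (ω : Env × Finset ℕ) : RBF μ s N δ B b σ m j k JR JL sl' R mR mL m1 m2 bx δ₀ q₀ r y w ω ≤
      RBF μ s N δ B b σ m j k JR JL sl' R mR mL m1 m2 bx δ₁ q₁ r y w ω := by
  haveI n1 : Nonempty (Px (Pn N y)) := ne_Pn hy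
  unfold RBF
  split_ifs
  · exact RBj_mono h1 h2 w ω
  · exact RBj_mono h1 h2 w ω

theorem meas_Wf {y : ℕ} (fl : Bool) (S : Px (Pn N y)) : Measurable fun ω => Wf μ s N δ B b j fl y ω S := by
  cases fl
  · exact meas_wm S
  · have e : (fun ω => Wf μ s N δ B b j true y ω S) = fun ω => wm μ s N (Pn N y) ω S + uj μ s δ B b j ω S := by
      funext ω
      show wj μ s N (Pn N y) δ B b j ω (-(sg ω.2 j : ℝ)) S = _
      rw [wj_uj]
      rfl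
    rw [e]
    exact (meas_wm S).add (meas_uj δ B b j S)

theorem meas_RBF {y : ℕ} (hy : y ≤ N) (r fl : Bool) : Measurable fun ω =>
    RBF μ s N δ B b σ m j k JR JL sl' R mR mL m1 m2 bx δ₀ q₀ r y (Wf μ s N δ B b j fl y ω) ω := by
  haveI n1 : Nonempty (Px (Pn N y)) := ne_Pn hy
  cases r
  · exact meas_RBj fun S => meas_Wf fl S
  · exact meas_RBj fun S => meas_Wf fl S

variable [IsProbabilityMeasure μ]

theorem int_RBF {y : ℕ} (hy : y ≤ N) (r fl : Bool) : Integrable (fun ω =>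
    RBF μ s N δ B b σ m j k JR JL sl' R mR mL m1 m2 bx δ₀ q₀ r y (Wf μ s N δ B b j fl y ω) ω) (Pm μ N) :=
  int_bdd (M := ((n : ℝ) + 1) ^ 2) (meas_RBF hy r fl) fun ω => by
    rw [abs_of_nonneg (RBF_nonneg hy r _ ω)]
    exact RBF_le hy r _ ω

theorem RBq_nonneg {ys : Finset ℕ} (hys : ∀ y ∈ ys, y ≤ N) (r fl : Bool) :
    0 ≤ RBq μ s N ys δ B b σ m j k JR JL sl' R mR mL m1 m2 bx δ₀ q₀ r fl :=
  avy_nonneg fun y hy => integral_nonneg fun ω => RBF_nonneg (hys y hy) r _ ω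

theorem RBq_mono {ys : Finset ℕ} (hys : ∀ y ∈ ys, y ≤ N) {δ₁ q₁ : ℝ} (h1 : δ₁ ≤ δ₀) (h2 : q₁ ≤ q₀) (r fl : Bool) :
    RBq μ s N ys δ B b σ m j k JR JL sl' R mR mL m1 m2 bx δ₀ q₀ r fl ≤
      RBq μ s N ys δ B b σ m j k JR JL sl' R mR mL m1 m2 bx δ₁ q₁ r fl :=
  avy_mono fun y hy => integral_mono (int_RBF (hys y hy) r fl) (int_RBF (hys y hy) r fl) fun ω => RBF_mono (hys y hy) h1 h2 r _ ω

end RBF

/-- **ONE ROW.** -/
theorem row52 {μ : Measure ℝ} {s : ℝ} {N : ℕ} [IsProbabilityMeasure μ] {u : ℝ → ℝ → ℝ} {C θ : ℝ} (hW : WL μ u C θ) {b σ m : ℕ}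
    (hb : 0 < b) (hm : 0 < m) {R' : Finset ℕ} (hR' : Deep R' b σ) {c d : ℕ} (hdN : d ≤ N) (hd : m * σ ∣ d) {h : ℕ} (hh : 2 * b ≤ h)
    {δ B : ℝ} (hB : 1 ≤ B) {y₀ M : ℕ} (hy : 1 ≤ y₀) (hM : 1 ≤ M) (hyN : y₀ + M ≤ N) {ε : ℝ} (hε : 0 ≤ ε) {j : ℕ}
    (hj : j ∈ Rw R' c d) (hE : FErr μ s N δ B b j y₀ M ε) {n : ℕ} (bx : Bool → (y : ℕ) → Px (Pn N y) → Fin (n + 1))
    {JR JL : Finset ℕ} {L : ℕ} (G : Geo27 N b j JR JL L) (hs : ∀ k ∈ insert j (Fa (Rw R' c d) h j), ∀ i ∈ JR ∪ JL, i ≤ k - b ∨ k + b < i)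
    {m1 m2 : ℕ} (hm1 : ∀ i ∈ JR, i ≤ m1) (hm1N : m1 ≤ N) (hm2 : ∀ i ∈ JL, m2 ≤ i) (hjN : j - b ≤ N) (sl' : ℝ) {R : ℝ} (hR : 1 ≤ R)
    (mR mL : ℤ) {a t : ℝ} (ha : 0 ≤ a) (ht : 0 ≤ t) (hθ : (2 * t + 3) * (B / L) ≤ θ) {τ q δ₀ : ℝ} (hτ : 0 < τ) (hτ' : τ ≤ 1 / 4)
    (hq : 0 ≤ q) (hδ₀ : 0 ≤ δ₀) (hq' : 12 * δ₀ / τ ≤ q * Real.exp (-(2 * B))) {d₁ q₁ : ℝ} (hd₁ : d₁ ≤ δ₀ * Real.exp (-(4 * B)))
    (hq₁ : q₁ ≤ q * Real.exp (-(4 * B)) / 3) :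
    rowq μ s N (Ico y₀ (y₀ + M)) δ B b σ m R' c d h j ≤
      (Real.exp a - 1) * (B / 2) ^ 2 * dmq μ s N (Ico y₀ (y₀ + M)) δ B b σ m R' c d h j +
        (∑ k ∈ Fa (Rw R' c d) h j, 2 / 3 * (B / 2) ^ 4 * (∑ r : Bool,
          (RBq μ s N (Ico y₀ (y₀ + M)) δ B b σ m j k JR JL sl' R mR mL m1 m2 bx d₁ q₁ r true +
            Real.exp a * RBq μ s N (Ico y₀ (y₀ + M)) δ B b σ m j k JR JL sl' R mR mL m1 m2 bx d₁ q₁ r false)) +
        (tny (Rw R' c d).card ((n : ℝ) + 1) B M ε a t C (14 * R * B ^ 2 / L) τ q (2 * B) +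
          (Rw R' c d).card * (4 / 3 * (B / 2) ^ 4 * (((n : ℝ) + 1) ^ 2 * tlK C t a (14 * R * B ^ 2 / L))))) := by
  have hB0 : 0 ≤ B := by linarith
  obtain ⟨ys, hys'⟩ : ∃ ys : Finset ℕ, ys = Ico y₀ (y₀ + M) := ⟨_, rfl⟩
  have hys : ∀ y ∈ ys, y ≤ N := fun y hy' => by
    rw [hys', mem_Ico] at hy'
    omega
  have hne : ys.Nonempty := by
    rw [hys', nonempty_Ico]
    omega
  have f := fldJ27 (μ := μ) (s := s) (δ := δ) (K := Fa (Rw R' c d) h j) (sl' := sl') (mR := mR) (mL := mL) (n := n) G hB0 hR hs ht hθ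
  have key := row32 hW hb hm hR' hdN hd hh hB hy hM hyN hε hj hE bx (I := univ) (fun _ _ _ => mem_univ _) _ _ _ ha ht hτ hτ' hq f
  rw [← hys'] at key ⊢
  have ecard : ((univ : Finset (Fin (n + 1))).card : ℝ) = n + 1 := by
    rw [card_univ, Fintype.card_fin]
    push_cast
    rfl
  rw [ecard] at key
  -- one far row, one class
  have one : ∀ (r : Bool) (k : ℕ), ∑ β ∈ (univ : Finset (Fin (n + 1))) ×ˢ (univ : Finset (Fin (n + 1))), avy ys (fun y =>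
      ∫ ω, BT (wm μ s N (Pn N y) (shf ((fun (_ : ℕ) (r : Bool) (_ : Fin (n + 1) × Fin (n + 1)) (_ : Finset ℕ) => SF N JR JL r) y r β)
          ((fun y r β A => φF μ s N δ B b j JR JL sl' R mR mL y r β A) y r β) ω))
        (wj μ s N (Pn N y) δ B b j ω (-(sg ω.2 j : ℝ))) (pB (m * σ) j) (pB (m * σ) k) (Cl b σ j r) (NA b σ j k) (bx r y) β (B / 2) q τ
          ∂(Pm μ N)) ≤
      4 * (B / 2) ^ 4 * (RBq μ s N ys δ B b σ m j k JR JL sl' R mR mL m1 m2 bx d₁ q₁ r true +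
        (Real.exp a * RBq μ s N ys δ B b σ m j k JR JL sl' R mR mL m1 m2 bx d₁ q₁ r false +
          ((n : ℝ) + 1) ^ 2 * tlK C t a (14 * R * B ^ 2 / L))) := by
    intro r k
    rw [← Pool.W7d29a1.C0.GSC52.avy_sum]
    have h1 : ∀ y ∈ ys, ∑ β ∈ (univ : Finset (Fin (n + 1))) ×ˢ (univ : Finset (Fin (n + 1))),
        ∫ ω, BT (wm μ s N (Pn N y) (shf ((fun (_ : ℕ) (r : Bool) (_ : Fin (n + 1) × Fin (n + 1)) (_ : Finset ℕ) => SF N JR JL r) y r β)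
          ((fun y r β A => φF μ s N δ B b j JR JL sl' R mR mL y r β A) y r β) ω))
        (wj μ s N (Pn N y) δ B b j ω (-(sg ω.2 j : ℝ))) (pB (m * σ) j) (pB (m * σ) k) (Cl b σ j r) (NA b σ j k) (bx r y) β (B / 2) q τ
          ∂(Pm μ N) ≤
        4 * (B / 2) ^ 4 * ((∫ ω, RBF μ s N δ B b σ m j k JR JL sl' R mR mL m1 m2 bx d₁ q₁ r y (Wf μ s N δ B b j true y ω) ω ∂(Pm μ N)) +
          (Real.exp a * (∫ ω, RBF μ s N δ B b σ m j k JR JL sl' R mR mL m1 m2 bx d₁ q₁ r y (Wf μ s N δ B b j false y ω) ω ∂(Pm μ N)) +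
            ((n : ℝ) + 1) ^ 2 * tlK C t a (14 * R * B ^ 2 / L))) := by
      intro y hy'
      haveI n1 : Nonempty (Px (Pn N y)) := ne_Pn (hys y hy')
      have e1 : ∀ (β : Fin (n + 1) × Fin (n + 1)) (ω : Env × Finset ℕ),
          wm μ s N (Pn N y) (shf ((fun (_ : ℕ) (r : Bool) (_ : Fin (n + 1) × Fin (n + 1)) (_ : Finset ℕ) => SF N JR JL r) y r β)
          ((fun y r β A => φF μ s N δ B b j JR JL sl' R mR mL y r β A) y r β) ω) =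
          wm μ s N (Pn N y) ω + CF μ s N δ B b j JR JL sl' R mR mL y r β ω := fun β ω => wm_F G y r β ω
      simp only [e1, univ_product_univ]
      have hmo : ∀ fl : Bool, ∫ ω, RBF μ s N δ B b σ m j k JR JL sl' R mR mL m1 m2 bx (δ₀ * Real.exp (-(4 * B)))
          (q * Real.exp (-(4 * B)) / 3) r y (Wf μ s N δ B b j fl y ω) ω ∂(Pm μ N) ≤
          ∫ ω, RBF μ s N δ B b σ m j k JR JL sl' R mR mL m1 m2 bx d₁ q₁ r y (Wf μ s N δ B b j fl y ω) ω ∂(Pm μ N) := fun fl =>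
        integral_mono (int_RBF (hys y hy') r fl) (int_RBF (hys y hy') r fl) fun ω => RBF_mono (hys y hy') hd₁ hq₁ r _ ω
      have h2 : ∑ β : Fin (n + 1) × Fin (n + 1), ∫ ω, BT (wm μ s N (Pn N y) ω + CF μ s N δ B b j JR JL sl' R mR mL y r β ω)
          (wj μ s N (Pn N y) δ B b j ω (-(sg ω.2 j : ℝ))) (pB (m * σ) j) (pB (m * σ) k) (Cl b σ j r) (NA b σ j k) (bx r y) β (B / 2)
            q τ ∂(Pm μ N) ≤
          4 * (B / 2) ^ 4 * ((∫ ω, RBF μ s N δ B b σ m j k JR JL sl' R mR mL m1 m2 bx (δ₀ * Real.exp (-(4 * B)))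
            (q * Real.exp (-(4 * B)) / 3) r y (Wf μ s N δ B b j true y ω) ω ∂(Pm μ N)) +
          (Real.exp a * (∫ ω, RBF μ s N δ B b σ m j k JR JL sl' R mR mL m1 m2 bx (δ₀ * Real.exp (-(4 * B)))
            (q * Real.exp (-(4 * B)) / 3) r y (Wf μ s N δ B b j false y ω) ω ∂(Pm μ N)) +
            ((n : ℝ) + 1) ^ 2 * tlK C t a (14 * R * B ^ 2 / L))) := by
        cases r
        · have h3 := bt_L (μ := μ) (s := s) (N := N) (δ := δ) (y := y) (σ := σ) (m := m) (j := j) (k := k) (sl' := sl') (m0 := mL) (n := n) hW hB0 hR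
            G.neL (m1 := m2) (fun i hi => ⟨(G.rL i hi).1, hm2 i hi, (G.rL i hi).2.1⟩) hjN (bx := bx false y) ha ht
            (by rw [G.cL]; exact hθ) hτ hδ₀ hq' false (B / 2)
          rw [G.cL] at h3
          exact h3
        · have h3 := bt_R (μ := μ) (s := s) (N := N) (δ := δ) (Q := Pn N y) (σ := σ) (m := m) (j := j) (k := k) (sl' := sl') (m0 := mR) (n := n) hW
            (Fld19.gq_Pn N y) hB0 hR G.neR (m1 := m1) (fun i hi => ⟨(G.rR i hi).1, hm1 i hi⟩) hm1N (bx := bx true y) ha ht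
            (by rw [G.cR]; exact hθ) hτ hδ₀ hq' true (B / 2)
          rw [G.cR] at h3
          exact h3
      refine h2.trans (mul_le_mul_of_nonneg_left ?_ (by positivity))
      exact add_le_add (hmo true) (add_le_add (mul_le_mul_of_nonneg_left (hmo false) (Real.exp_pos a).le) le_rfl)
    refine (avy_mono h1).trans (le_of_eq ?_)
    rw [avy_mulc, avy_add, avy_add, avy_mulc, avy_const hne]
    rfl
  -- all
  have htl : 0 ≤ ((n : ℝ) + 1) ^ 2 * tlK C t a (14 * R * B ^ 2 / L) := by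
    unfold tlK
    positivity
  have hX : ∀ k, 0 ≤ ∑ r : Bool, 4 * (B / 2) ^ 4 * (RBq μ s N ys δ B b σ m j k JR JL sl' R mR mL m1 m2 bx d₁ q₁ r true +
        (Real.exp a * RBq μ s N ys δ B b σ m j k JR JL sl' R mR mL m1 m2 bx d₁ q₁ r false +
          ((n : ℝ) + 1) ^ 2 * tlK C t a (14 * R * B ^ 2 / L))) := fun k => sum_nonneg fun r _ => mul_nonneg (by positivity)
    (add_nonneg (RBq_nonneg hys r true) (add_nonneg (mul_nonneg (Real.exp_pos a).le (RBq_nonneg hys r false)) htl))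
  have s1 : ∀ F : Bool → Fin (n + 1) × Fin (n + 1) → ℕ → ℝ, (∑ r : Bool,
      ∑ β ∈ (univ : Finset (Fin (n + 1))) ×ˢ (univ : Finset (Fin (n + 1))), ∑ k ∈ Fa (Rw R' c d) h j, F r β k) =
      ∑ k ∈ Fa (Rw R' c d) h j, ∑ r : Bool, ∑ β ∈ (univ : Finset (Fin (n + 1))) ×ˢ (univ : Finset (Fin (n + 1))), F r β k := fun F => by
    rw [sum_comm' (s := Fa (Rw R' c d) h j) (t := fun _ => (univ : Finset Bool)) (t' := univ) (s' := fun _ => Fa (Rw R' c d) h j)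
      (by intro x y; tauto)]
    exact sum_congr rfl fun r _ => sum_comm
  have s2 := sum_le_sum fun k (_ : k ∈ Fa (Rw R' c d) h j) => sum_le_sum fun r (_ : r ∈ (univ : Finset Bool)) => one r k
  have s3 := s2
  rw [s1] at key
  refine key.trans (add_le_add le_rfl ?_)
  have s4 := add_le_add (le_refl (tny (Rw R' c d).card ((n : ℝ) + 1) B M ε a t C (14 * R * B ^ 2 / L) τ q (2 * B)))
    (mul_le_mul_of_nonneg_left s3 (by norm_num : (0 : ℝ) ≤ 1 / 6))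
  refine s4.trans ?_
  have s5 : ∀ k, (∑ r : Bool, 4 * (B / 2) ^ 4 * (RBq μ s N ys δ B b σ m j k JR JL sl' R mR mL m1 m2 bx d₁ q₁ r true +
        (Real.exp a * RBq μ s N ys δ B b σ m j k JR JL sl' R mR mL m1 m2 bx d₁ q₁ r false +
          ((n : ℝ) + 1) ^ 2 * tlK C t a (14 * R * B ^ 2 / L)))) =
      4 * (B / 2) ^ 4 * (∑ r : Bool, (RBq μ s N ys δ B b σ m j k JR JL sl' R mR mL m1 m2 bx d₁ q₁ r true +
        Real.exp a * RBq μ s N ys δ B b σ m j k JR JL sl' R mR mL m1 m2 bx d₁ q₁ r false)) +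
      4 * (B / 2) ^ 4 * (2 * (((n : ℝ) + 1) ^ 2 * tlK C t a (14 * R * B ^ 2 / L))) := fun k => by
    rw [Fintype.sum_bool, Fintype.sum_bool]
    ring
  have hcard : ((Fa (Rw R' c d) h j).card : ℝ) ≤ (Rw R' c d).card := by
    exact_mod_cast card_le_card (filter_subset _ _)
  have s7 : (Fa (Rw R' c d) h j).card * (4 * (B / 2) ^ 4 * (2 * (((n : ℝ) + 1) ^ 2 * tlK C t a (14 * R * B ^ 2 / L)))) ≤
      (Rw R' c d).card * (4 * (B / 2) ^ 4 * (2 * (((n : ℝ) + 1) ^ 2 * tlK C t a (14 * R * B ^ 2 / L)))) :=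
    mul_le_mul_of_nonneg_right hcard (mul_nonneg (by positivity) (mul_nonneg (by norm_num) htl))
  rw [sum_congr rfl fun k _ => s5 k, sum_add_distrib, sum_const, nsmul_eq_mul]
  have s6 : ∑ k ∈ Fa (Rw R' c d) h j, 2 / 3 * (B / 2) ^ 4 * (∑ r : Bool, (RBq μ s N ys δ B b σ m j k JR JL sl' R mR mL m1 m2 bx d₁ q₁ r true +
        Real.exp a * RBq μ s N ys δ B b σ m j k JR JL sl' R mR mL m1 m2 bx d₁ q₁ r false)) =
      1 / 6 * ∑ k ∈ Fa (Rw R' c d) h j, 4 * (B / 2) ^ 4 * (∑ r : Bool, (RBq μ s N ys δ B b σ m j k JR JL sl' R mR mL m1 m2 bx d₁ q₁ r true +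
        Real.exp a * RBq μ s N ys δ B b σ m j k JR JL sl' R mR mL m1 m2 bx d₁ q₁ r false)) := by
    rw [mul_sum]
    exact sum_congr rfl fun k _ => by ring
  rw [s6]
  linarith

end

end Pool.W7d29a1.C0.GSE52
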