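import Pool.Agent.W_7d29a1_C0.Strip96
import Pool.Agent.W_7d29a1_C0.StripP80
import Pool.Agent.W_7d29a1_C0.Num46P

/-!
STORM C0 (helper96): THE STRIP IN THE FORM OF ALL ESTIMATES. `Wpr96`: the prices of the two margins of a block (helper80, helper15).
`stripAt96`: with `StripP80` they give `StripAt`; `strN96`: `StrN` in every frame whose length is a power of `2 ^ m` and whose ends are in
the cone.
-/

set_option autoImplicit false

namespace Pool.Agent.W_7d29a1_C0.Asm96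

open Finset MeasureTheory Filter Topology Pool.Agent.W_7d29a1_F Pool.Agent.W_7d29a1_X Pool.Agent.W_7d29a1_H
open Pool.Agent.W_7d29a1_C0.Mod92 Pool.Agent.W_7d29a1_C0
open Pool.W7d29a1.C0 (gz gm lse gz_pos gz_ne gm_nonneg gm_mono gm_const)
open Pool.W7d29a1.C0.VT31
open Pool.Agent.W_7d29a1_HS (wd)
open Pool.Agent.W_7d29a1_HZ (wd' EE')
open Pool.Agent.W_7d29a1_C0.Par92 (Est Sml)
open Pool.Agent.W_7d29a1_C0.Swap57 (Lk)
open Pool.Agent.W_7d29a1_C0.Row96 (Ag In96)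
open Pool.Agent.W_7d29a1_C0.Strip80 (WPr OffD strip_Pm)

noncomputable section

/-- A functional of the environment alone. -/
theorem int_fst96 {μ : Measure ℝ} [IsProbabilityMeasure μ] {N : ℕ} {X : Env → ℝ} (hX : Measurable X) {C : ℝ} (hb : ∀ η, |X η| ≤ C) :
    ∫ ω, X ω.1 ∂(Pm μ N) = ∫ η, X η ∂(law μ) := by
  have hi : Integrable X (law μ) := (integrable_const C).mono' hX.aestronglyMeasurable
    (Filter.Eventually.of_forall fun η => by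
      rw [Real.norm_eq_abs]
      exact hb η)
  have e : ∀ A ∈ (range N).powerset, ∫ η, (fun ω : Env × Finset ℕ => X ω.1) (η, A) ∂(law μ) = ∫ η, X η ∂(law μ) := fun _ _ => rfl
  rw [int_Pm (Φ := fun ω => X ω.1) (fun _ _ => hi) fun _ => hX, sum_congr rfl e, sum_const, card_powerset, card_range, nsmul_eq_mul]
  push_cast
  rw [← mul_assoc, inv_mul_cancel₀ (by positivity), one_mul]

/-- **The outer tie from the prices of the margins.** -/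
theorem stripAt96 {μ : Measure ℝ} {s : ℝ} [IsProbabilityMeasure μ] {N y : ℕ} (hy : y ≤ N) {r p : ℝ} (hr : 0 ≤ r) (hp : 0 ≤ p)
    {c al be d l : ℕ} (hab : al ≤ be) (hcl : c + l ≤ al) (hdl : be + l ≤ d)
    (hW1 : WPr μ s N y (ENNReal.ofReal r) (ENNReal.ofReal p) (al - l) al (Icc 0 al))
    (hW2 : WPr μ s N y (ENNReal.ofReal r) (ENNReal.ofReal p) be (be + l) (Ioc be N)) :
    StripAt μ s N y c al be d (4 * r) (4 * p) := by
  intro M D hDm hDb hDL hDr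
  have hne : Nonempty (Px (Pn N y)) := ne_Pn hy
  have hDM : ∀ η S, D η S ^ 2 ≤ M ^ 2 := fun η S => by
    rw [← sq_abs]
    exact pow_le_pow_left₀ (abs_nonneg _) (hDb η S) 2
  have hoff : ∀ J : Finset ℕ, (∀ n, al < n → n ≤ be → n ∉ J) → OffD (N := N) J (fun ω : Env × Finset ℕ => D ω.1) := by
    intro J hJ η η' A S h
    show D η S = D η' S
    rw [hDr η η' fun q h1 h2 => h q fun h3 => hJ q.1.toNat (by omega) (by omega) h3.2]
  have h := strip_Pm (μ := μ) (s := s) hy hr hp hab (hW1.mono (i' := c) (j' := al) le_rfl le_rfl (by omega) le_rfl (Finset.Subset.refl _))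
    (hW2.mono (i' := be) (j' := d) le_rfl le_rfl le_rfl hdl (Finset.Subset.refl _)) (D := fun ω => D ω.1) (M := M) (fun ω S => hDb ω.1 S)
    (fun S => (hDm S).comp measurable_fst) (hoff _ fun n h1 h2 h3 => by
      rw [mem_Icc] at h3
      omega) (hoff _ fun n h1 h2 h3 => by
      rw [mem_Ioc] at h3
      omega) (fun ω => hDL ω.1)
  have e1 : ∫ ω, gv (wm μ s N (Pn N y) ω) (cE (wm μ s N (Pn N y) ω) (pJ c d) (D ω.1)) ∂(Pm μ N) =
      ∫ η, gv (lw μ s η N (Pn N y)) (cE (lw μ s η N (Pn N y)) (pJ c d) (D η)) ∂(law μ) :=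
    int_fst96 (X := fun η => gv (lw μ s η N (Pn N y)) (cE (lw μ s η N (Pn N y)) (pJ c d) (D η)))
      (meas_gv (fun S => meas_lw S) fun S => meas_cE (fun S => meas_lw S) (fun S => hDm S) _ S)
      (fun η => abs_gv_le _ fun S => abs_cE_le _ _ (hDb η) S)
  have e2 : ∫ ω, gm (wm μ s N (Pn N y) ω) (fun S => D ω.1 S ^ 2) ∂(Pm μ N) =
      ∫ η, gm (lw μ s η N (Pn N y)) (fun S => D η S ^ 2) ∂(law μ) :=
    int_fst96 (X := fun η => gm (lw μ s η N (Pn N y)) (fun S => D η S ^ 2))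
      (meas_gm (fun S => meas_lw S) fun S => (hDm S).pow_const 2)
      (fun η => abs_gm96 (M := M ^ 2) _ fun S => by
        rw [abs_of_nonneg (sq_nonneg _)]
        exact hDM η S)
  rw [e1, e2] at h
  refine h.trans (le_of_eq ?_)
  ring

/-- **The prices of the margins** below and above the row `e`. -/
def Wpr96 (μ : Measure ℝ) (s : ℝ) : Prop :=
  ∀ ε θ : ℝ, 0 < ε → 0 < θ → ∃ δ c' : ℝ, 0 < δ ∧ 0 < c' ∧ ∃ L₀ : ℕ, ∀ N l : ℕ, L₀ ≤ N → (N : ℝ) ^ θ ≤ l → ∀ y : ℕ, y ≤ N →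
    |(y : ℝ) - sl μ s * N| ≤ (N : ℝ) ^ δ * wd' μ s N → ∀ e : ℕ,
      (e + l ≤ N → WPr μ s N y (ENNReal.ofReal ((N : ℝ) ^ ε * (EE' μ s l)⁻¹)) (ENNReal.ofReal (Real.exp (-(N : ℝ) ^ c')))
        e (e + l) (Ioc e N)) ∧
      (l ≤ e → e ≤ N → WPr μ s N y (ENNReal.ofReal ((N : ℝ) ^ ε * (EE' μ s l)⁻¹)) (ENNReal.ofReal (Real.exp (-(N : ℝ) ^ c')))
        (e - l) e (Icc 0 e))

/-- The frames: the length is `(2 ^ m) ^ K`, the ends are in the cone. -/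
structure Frk96 (μ : Measure ℝ) (s : ℝ) (K : ℕ) (F : Frm96) : Prop where
  hL : ∀ m, F.L m = (2 ^ m) ^ K
  hy : ∀ d : ℝ, 0 < d → ∀ᶠ m : ℕ in atTop, ∀ y ∈ F.ys m, y ≤ F.L m ∧
    |(y : ℝ) - sl μ s * F.L m| ≤ (F.L m : ℝ) ^ d * wd' μ s (F.L m)

/-- The margins are long. -/
theorem gl_ge96 {ι δ : ℝ} {m q : ℕ} (hι : 0 < ι) (hιδ : ι ≤ δ / 4) (hN : 32 ≤ ((2 ^ m : ℕ) : ℝ) ^ ι) (hq : δ * m ≤ q) :
    ((2 ^ q : ℕ) : ℝ) ≤ ((2 ^ m : ℕ) : ℝ) ^ (2 * ι) * gl96 ι m q ∧ ((2 ^ m : ℕ) : ℝ) ^ (δ / 2) ≤ gl96 ι m q ∧ 1 ≤ gl96 ι m q := by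
  obtain ⟨n, hn⟩ : ∃ n : ℝ, n = ((2 ^ m : ℕ) : ℝ) := ⟨_, rfl⟩
  have hn1 : 1 ≤ n := by
    rw [hn]
    exact_mod_cast Nat.one_le_two_pow
  have hn0 : 0 < n := by linarith
  have e4 : (gl96 ι m q : ℝ) = (⌊n ^ (-ι) * 2 ^ q / 8⌋₊ : ℝ) := by
    unfold gl96
    rw [← hn]
  rw [← hn] at hN ⊢
  have h1 : n ^ δ ≤ (2 : ℝ) ^ q := by
    rw [hn, pow_two96, ← Real.rpow_natCast 2 q]
    exact Real.rpow_le_rpow_of_exponent_le one_le_two hq
  have e3 := Nat.sub_one_lt_floor (n ^ (-ι) * 2 ^ q / 8)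
  rw [← e4] at e3
  have h2 : n ^ (δ - ι) ≤ n ^ (-ι) * 2 ^ q := by
    have h3 : n ^ (δ - ι) = n ^ (-ι) * n ^ δ := by
      rw [← Real.rpow_add hn0]
      ring_nf
    rw [h3]
    exact mul_le_mul_of_nonneg_left h1 (Real.rpow_nonneg hn0.le _)
  have h3 : 32 * n ^ (δ / 2) ≤ n ^ (δ - ι) := by
    calc 32 * n ^ (δ / 2) ≤ n ^ ι * n ^ (δ / 2) := mul_le_mul_of_nonneg_right hN (Real.rpow_nonneg hn0.le _)
      _ = n ^ (ι + δ / 2) := by rw [← Real.rpow_add hn0]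
      _ ≤ n ^ (δ - ι) := Real.rpow_le_rpow_of_exponent_le hn1 (by linarith)
  have h4 : (1 : ℝ) ≤ n ^ (δ / 2) := Real.one_le_rpow hn1 (by linarith)
  have h5 : n ^ (-ι) * 2 ^ q / 16 ≤ gl96 ι m q := by linarith
  refine ⟨?_, by linarith, ?_⟩
  · have e10 : n ^ (2 * ι) * (n ^ (-ι) * 2 ^ q / 16) ≤ n ^ (2 * ι) * gl96 ι m q :=
      mul_le_mul_of_nonneg_left h5 (Real.rpow_nonneg hn0.le _)
    have e11 : n ^ (2 * ι) * (n ^ (-ι) * 2 ^ q / 16) = n ^ ι * 2 ^ q / 16 := by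
      have e12 : n ^ (2 * ι) * n ^ (-ι) = n ^ ι := by
        rw [← Real.rpow_add hn0]
        ring_nf
      rw [← e12]
      ring
    have e13 : (32 : ℝ) * 2 ^ q ≤ n ^ ι * 2 ^ q := mul_le_mul_of_nonneg_right hN (by positivity)
    have e14 : (0 : ℝ) < 2 ^ q := by positivity
    push_cast
    linarith
  · have h6 : (1 : ℝ) ≤ gl96 ι m q := by linarith
    exact_mod_cast h6

/-- **THE STRIP** in every frame. -/
theorem strN96 {μ : Measure ℝ} {s : ℝ} [IsProbabilityMeasure μ] {F : ℝ → ℝ → ℝ → Frm96} {K : ℕ} {Θ δ c₀ : ℝ} (hK : 0 < K)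
    (hF : ∀ ι β γ, Frk96 μ s K (F ι β γ)) (hR : RegP46 μ s c₀ Θ) (hδ : 0 < δ) (hW : Wpr96 μ s) :
    Est fun ι β γ m => StrN μ s (F ι β γ) (EE μ s) δ ι (5 * ι) m := by
  obtain ⟨a, -, -, hreg⟩ := hR
  refine ⟨δ / 4, by positivity, fun ι hι hιδ => Par92.Sml.of fun β _ => Par92.Sml.of fun γ _ => ?_⟩
  obtain ⟨d, c', hd, hc', L₀, h⟩ := hW (ι / K) (δ / 2 / K) (by positivity) (by positivity)
  have hF' := hF ι β γ
  have hKR : (0 : ℝ) < K := by exact_mod_cast hK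
  have ht : Tendsto (fun m : ℕ => ((2 ^ m : ℕ) : ℝ)) atTop atTop :=
    tendsto_natCast_atTop_atTop.comp (tendsto_pow_atTop_atTop_of_one_lt one_lt_two)
  have hev1 : ∀ᶠ m : ℕ in atTop, 4 * Real.exp (-(((2 ^ m : ℕ) : ℝ) ^ K) ^ c') ≤ ((2 ^ m : ℕ) : ℝ) ^ (-8 : ℝ) := by
    have h1 : Tendsto (fun x : ℝ => x ^ (8 : ℝ) * Real.exp (-1 * x ^ (K * c'))) atTop (𝓝 0) := by
      have h2 := tendsto_rpow_mul_exp_neg_mul_atTop_nhds_zero (8 / (K * c')) 1 one_pos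
      have h3 := h2.comp (tendsto_rpow_atTop (show 0 < K * c' by positivity))
      refine h3.congr' ?_
      filter_upwards [eventually_ge_atTop 0] with x hx
      show (x ^ (K * c')) ^ (8 / (K * c')) * Real.exp (-1 * x ^ (K * c')) = _
      rw [← Real.rpow_mul hx]
      congr 2
      field_simp
    have h2 := (h1.eventually_lt_const (show (0 : ℝ) < 1 / 4 by norm_num))
    filter_upwards [ht.eventually h2] with m hm
    have hn0 : (0 : ℝ) < ((2 ^ m : ℕ) : ℝ) := by positivity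
    rw [neg_one_mul, Real.rpow_mul hn0.le, Real.rpow_natCast] at hm
    rw [Real.rpow_neg hn0.le, ← one_div, le_div_iff₀ (Real.rpow_pos_of_pos hn0 _)]
    linarith
  have hev2 : ∀ᶠ m : ℕ in atTop, L₀ ≤ (F ι β γ).L m := by
    have h1 : ∀ᶠ m : ℕ in atTop, L₀ ≤ 2 ^ m := (tendsto_pow_atTop_atTop_of_one_lt one_lt_two).eventually_ge_atTop L₀
    filter_upwards [h1] with m hm
    rw [hF'.hL]
    exact hm.trans (Nat.le_self_pow hK.ne' _)
  filter_upwards [hreg δ ι hδ hι, hF'.hy d hd, hev1, hev2, ((tendsto_rpow_atTop hι).comp ht).eventually_ge_atTop 32]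
    with m hr hcone he hL hN q i hq hqm hi y hy al be hal hab hbe
  obtain ⟨R, hwd⟩ := hr
  replace hN : 32 ≤ ((2 ^ m : ℕ) : ℝ) ^ ι := hN
  obtain ⟨g1, g2, g3⟩ := gl_ge96 hι hιδ hN hq
  obtain ⟨hy1, hy2⟩ := hcone y hy
  have hN0 := R.N0
  have hLR : (((F ι β γ).L m : ℕ) : ℝ) = ((2 ^ m : ℕ) : ℝ) ^ K := by
    rw [hF'.hL]
    push_cast
    rfl
  have hpow : ∀ x : ℝ, (((F ι β γ).L m : ℕ) : ℝ) ^ (x / K) = ((2 ^ m : ℕ) : ℝ) ^ x := fun x => by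
    rw [hLR, ← Real.rpow_natCast, ← Real.rpow_mul hN0.le]
    congr 1
    field_simp
  have h1 := h ((F ι β γ).L m) (gl96 ι m q) hL (by rw [hpow]; exact g2) y hy1 hy2
  rw [hpow, EE'_eq46, hLR] at h1
  have hLm : (i + 1) * 2 ^ q ≤ (F ι β γ).L m := by
    rw [hF'.hL]
    refine le_trans ?_ (Nat.le_self_pow hK.ne' _)
    calc (i + 1) * 2 ^ q ≤ 2 ^ (m - q) * 2 ^ q := Nat.mul_le_mul_right _ hi
      _ = 2 ^ m := by
          rw [← pow_add]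
          congr 1
          omega
  have h2 := stripAt96 (μ := μ) (s := s) (c := i * 2 ^ q) (d := (i + 1) * 2 ^ q) hy1
    (mul_nonneg (Real.rpow_nonneg hN0.le _) (inv_nonneg.2 (R.Epos _).le)) (Real.exp_pos _).le hab hal hbe
    ((h1 al).2 (by omega) (by omega)) ((h1 be).1 (by omega))
  -- the price
  have hE1 := R.Epos (gl96 ι m q)
  have hE2 := R.Epos (2 ^ q)
  have g4 : gl96 ι m q ≤ 2 ^ q := by
    have := gl_le96 (q := q) R.N1.le hι.le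
    omega
  have h3 := R.Esub g3 g4 g1
  have h5 : 4 * (((2 ^ m : ℕ) : ℝ) ^ ι * (EE μ s (gl96 ι m q))⁻¹) ≤ ((2 ^ m : ℕ) : ℝ) ^ (5 * ι) / EE μ s (2 ^ q) := by
    rw [← div_eq_mul_inv, ← mul_div_assoc, div_le_div_iff₀ hE1 hE2]
    have e1 : 4 * ((2 ^ m : ℕ) : ℝ) ^ ι ≤ ((2 ^ m : ℕ) : ℝ) ^ (2 * ι) := by
      have e2 : ((2 ^ m : ℕ) : ℝ) ^ (2 * ι) = ((2 ^ m : ℕ) : ℝ) ^ ι * ((2 ^ m : ℕ) : ℝ) ^ ι := by
        rw [← Real.rpow_add hN0]
        ring_nf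
      rw [e2]
      exact mul_le_mul_of_nonneg_right (by linarith) (Real.rpow_nonneg hN0.le _)
    calc 4 * ((2 ^ m : ℕ) : ℝ) ^ ι * EE μ s (2 ^ q) ≤
          ((2 ^ m : ℕ) : ℝ) ^ (2 * ι) * (((2 ^ m : ℕ) : ℝ) ^ (2 * ι / 2 + ι) * EE μ s (gl96 ι m q)) :=
          mul_le_mul e1 h3 hE2.le (Real.rpow_nonneg hN0.le _)
      _ = ((2 ^ m : ℕ) : ℝ) ^ (2 * ι + (2 * ι / 2 + ι)) * EE μ s (gl96 ι m q) := by
          rw [Real.rpow_add hN0 (2 * ι) (2 * ι / 2 + ι)]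
          ring
      _ ≤ ((2 ^ m : ℕ) : ℝ) ^ (5 * ι) * EE μ s (gl96 ι m q) :=
          mul_le_mul_of_nonneg_right (Real.rpow_le_rpow_of_exponent_le R.N1.le (by linarith)) hE1.le
  intro M D hDm hDb hDL hDr
  have hne : Nonempty (Px (Pn ((F ι β γ).L m) y)) := ne_Pn hy1
  refine (h2 M D hDm hDb hDL hDr).trans (add_le_add (mul_le_mul_of_nonneg_right h5 ?_) (mul_le_mul_of_nonneg_left he (sq_nonneg _)))
  exact integral_nonneg fun η => gm_nonneg _ fun S => sq_nonneg _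

end

end Pool.Agent.W_7d29a1_C0.Asm96
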