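import Pool.Agent.W_7d29a1_C0.GSSt96
import Pool.Agent.W_7d29a1_C0.StN96

/-!
STORM C0 (helper96): THE END OF GS. `SigN` at the gain `c / 64` in every frame from the kick `KbN` and the prices `Wpr96` of the margins
(`sigE96`).
-/

set_option autoImplicit false

namespace Pool.Agent.W_7d29a1_C0.Asm96

open Finset MeasureTheory Filter Topology Pool.Agent.W_7d29a1_F Pool.Agent.W_7d29a1_X Pool.Agent.W_7d29a1_H
open Pool.Agent.W_7d29a1_C0.Mod92 Pool.Agent.W_7d29a1_C0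
open Pool.W7d29a1.C0 (gz gm lse gz_pos gz_ne gm_nonneg gm_mono gm_const)
open Pool.W7d29a1.C0.VT31
open Pool.Agent.W_7d29a1_C0.Par92 (Est Sml)
open Pool.Agent.W_7d29a1_C0.GS4 (Phi)

noncomputable section

variable {μ : Measure ℝ} {s : ℝ} {F : Frm96} {E : ℕ → ℝ} {Θ δ c η ε₁ ε₂ ι : ℝ} {m : ℕ}

theorem pw_mono96 (h : ε₁ ≤ ε₂) : ((2 ^ m : ℕ) : ℝ) ^ ε₁ ≤ ((2 ^ m : ℕ) : ℝ) ^ ε₂ :=
  Real.rpow_le_rpow_of_exponent_le (by exact_mod_cast Nat.one_le_two_pow) h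

theorem dx_nonneg96 (hF : F.Ok Θ m) (p p' q i : ℕ) : 0 ≤ dx96 μ s F E c m p p' q i := avy_nonneg fun y hy => by
  have := ne_Pn (hF.hy y hy)
  exact integral_nonneg fun _ => gm_nonneg _ fun _ => sq_nonneg _

theorem StN.mono (hE : ∀ n, 0 < E n) (hF : F.Ok Θ m) (h : StN μ s F E Θ δ c η ε₁ m) (h1 : ε₁ ≤ ε₂) : StN μ s F E Θ δ c η ε₂ m := by
  intro p p' q i hC hi
  refine (h p p' q i hC hi).trans (add_le_add (mul_le_mul_of_nonneg_right ?_ (dx_nonneg96 hF p p' q i)) le_rfl)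
  exact div_le_div_of_nonneg_right (pw_mono96 h1) (hE _).le

theorem Ph_mono96 (hE : ∀ n, 0 < E n) (h1 : ε₁ ≤ ε₂) (p p' n : ℕ) : Ph96 E c ε₁ m p p' n ≤ Ph96 E c ε₂ m p p' n := by
  have h2 := pw_mono96 (m := m) h1
  have e1 := hE (2 ^ sg96 E c m p)
  have e2 := hE (2 ^ p)
  unfold Ph96 Phi
  have e3 := hE (max n (2 ^ sg96 E c m p))
  refine add_le_add (add_le_add (add_le_add ?_ ?_) ?_) ?_
  · split_ifs
    · exact div_le_div_of_nonneg_right h2 e1.le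
    · exact le_rfl
  · split_ifs
    · exact div_le_div_of_nonneg_right (mul_le_mul_of_nonneg_right h2 (by positivity)) e3.le
    · exact le_rfl
  · exact div_le_div_of_nonneg_right (div_le_div_of_nonneg_right h2 (by positivity)) e3.le
  · exact div_le_div_of_nonneg_right h2 (by positivity)

theorem KbN.mono (hE : ∀ n, 0 < E n) (h : KbN μ s F E Θ δ c η ε₁ m) (h1 : ε₁ ≤ ε₂) : KbN μ s F E Θ δ c η ε₂ m := by
  intro p p' q i hC hi
  obtain ⟨P, P', hP, hd⟩ := h p p' q i hC hi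
  refine ⟨P, P', fun j hj k hk => ⟨(hP j hj k hk).1.trans (Ph_mono96 hE h1 _ _ _), (hP j hj k hk).2.trans (Ph_mono96 hE h1 _ _ _)⟩,
    hd.trans ?_⟩
  refine add_le_add (add_le_add (add_le_add ?_ le_rfl) le_rfl) le_rfl
  refine mul_le_mul_of_nonneg_left (mul_le_mul_of_nonneg_left ?_ (by positivity)) (by positivity)
  exact div_le_div_of_nonneg_right (pw_mono96 h1) (hE _).le

/-- **THE END OF GS.** -/
theorem sigE96 [IsProbabilityMeasure μ] {F : ℝ → ℝ → ℝ → Frm96} {K : ℕ} {c₀ C : ℝ} (hK : 0 < K)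
    (hFk : ∀ ι β γ, Frk96 μ s K (F ι β γ)) (hRK : ∀ ι β γ m, (F ι β γ).R m ⊆ Kr (2 ^ m) m (((2 ^ m : ℕ) : ℝ) ^ (-ι)))
    (hR : RegP46 μ s c₀ Θ) (hδ : 0 < δ) (hc : 0 < c) (hcδ : 64 * c ≤ δ) (hcΘ : c ≤ Θ) (hΘ1 : Θ ≤ 1) (hη : 0 ≤ η)
    (hok : Est fun ι β γ m => (F ι β γ).Ok Θ m)
    (hdeep : Est fun ι β γ m => ∀ p q : ℕ, St96 (EE μ s) δ c m p q → Deep ((F ι β γ).R m) (2 ^ p) (2 ^ sg96 (EE μ s) c m p))
    (hW : Wpr96 μ s) (hkb : Est fun ι β γ m => KbN μ s (F ι β γ) (EE μ s) Θ δ c η (C * ι) m) :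
    Est fun ι β γ m => SigN μ s (F ι β γ) (EE μ s) Θ δ c η (c / 64) m := by
  have hE : ∀ n, 0 < EE μ s n := fun n => EE_pos n
  obtain ⟨C', hC'⟩ : ∃ C', C' = max C 5 := ⟨_, rfl⟩
  have hC1 : C ≤ C' := hC' ▸ le_max_left _ _
  have hC5 : 5 ≤ C' := hC' ▸ le_max_right _ _
  obtain ⟨a, -, -, h1⟩ := hR.est hδ (k := 1) one_pos
  have ht : Tendsto (fun m : ℕ => ((2 ^ m : ℕ) : ℝ)) atTop atTop :=
    tendsto_natCast_atTop_atTop.comp (tendsto_pow_atTop_atTop_of_one_lt one_lt_two)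
  refine sigN96 hR hδ hc hcδ hcΘ hη (C := C') (by linarith) hok ?_ ?_
  · have h2 : Est fun ι _ _ m => 0 < ι ∧ ι ≤ c / 4 ∧ 32 ≤ ((2 ^ m : ℕ) : ℝ) ^ ι := by
      refine ⟨c / 4, by positivity, fun ι hι h => Sml.of fun _ _ => Sml.of fun _ _ => ?_⟩
      filter_upwards [((tendsto_rpow_atTop hι).comp ht).eventually_ge_atTop 32] with m hm
      exact ⟨hι, h, hm⟩
    refine ((h1.and h2).and ((hok.and hdeep).and (strN96 hK hFk hR hδ hW))).mono fun ι β γ _ _ _ =>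
      Eventually.of_forall fun m h => ?_
    obtain ⟨⟨⟨h3, -⟩, h4, h5, h6⟩, ⟨h7, h8⟩, h9⟩ := h
    exact (st_of96 h3 hΘ1 hη hc hcδ h4 h5 h6 h7 EE_mono h8 (hRK ι β γ m) h9).mono hE h7
      (mul_le_mul_of_nonneg_right hC5 h4.le)
  · exact hkb.mono fun ι β γ hι _ _ => Eventually.of_forall fun m h => h.mono hE (mul_le_mul_of_nonneg_right hC1 hι.le)

end

end Pool.Agent.W_7d29a1_C0.Asm96
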