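import Pool.Agent.W_7d29a1_C0.GSM65
import Pool.Agent.W_7d29a1_C0.KickT32

/-!
MP_7d29a1_pr, [C0], GS, identity (i) (helper65): `Psi_j(w')` AS THE SUM OVER THE CLASSES AND THE BOXES OF `PhB`, on `GSM65` and `KickT32`.

At every weight `w` of the class of the window of `j` (actual weights of any environment, kicks of the window of `j`, site fields):
`psi_Ph`: `G[h V_j] = Ph KR + Ph KL` for every `h` which does not look inside of `B'_j`; `psi_PhB`: `= ∑ β, (PhB KR β + PhB KL β)`;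
`psi_Df`: `h` = the far part `DfW w`, with or without an outer kernel. `VnW_two`: `V_k` as the two step mean with the kernel `Kkj` (any `k`).
-/

set_option autoImplicit false
set_option linter.unusedSectionVars false

namespace Pool.Agent.W_7d29a1_C0.GS65

open Finset MeasureTheory Pool.Agent.W_7d29a1_F Pool.Agent.W_7d29a1_X Pool.Agent.W_7d29a1_C0.Mod92
open Pool.Agent.W_7d29a1_C0.Swap57 Pool.Agent.W_7d29a1_C0.E4T32 Pool.Agent.W_7d29a1_C0.Near32 Pool.Agent.W_7d29a1_C0.KickT32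
open Pool.W7d29a1.C0 (gz gm lse gz_pos gz_ne gm_nonneg gm_mono)
open Pool.W7d29a1.C0.VT31
open Pool.W7d29a1.C0.I52

noncomputable section

variable {μ : Measure ℝ} {s : ℝ} {N : ℕ} {Q : Finset (Finset ℕ)} [SwQ Q] [Nonempty (Px Q)]

section Abs

variable {c1 d1 c2 d2 al be : ℕ} {w : Px Q → ℝ} {g : Px Q → ℝ} {P : ℕ → Prop}

omit [SwQ Q] in
/-- `Ph` of `KickT32` in terms of `UUK`. -/
theorem Ph_eq (w : Px Q → ℝ) (c1 d1 c2 d2 : ℕ) (K : Px Q → Px Q → ℝ) (g h : Px Q → ℝ) :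
    Ph w (pJ c1 d1) (pJ c2 d2) K g h = gm w (h * UUK w c1 d1 c2 d2 K g) := by
  unfold Ph
  congr 1
  funext x
  rw [Pi.mul_apply]
  unfold UUK DDK
  ring

/-- **One row, any `h` which does not look inside of `B'`.** -/
theorem RowP.gm_Ph (r : RowP P w c1 d1 c2 d2 al be g) (hP : ∀ t, (c2 ≤ t ∧ t ≤ al) ∨ (be ≤ t ∧ t ≤ d2) → P t) {h : Px Q → ℝ}
    (hh : Mp (pJ c1 d1) h) :
    gm w (h * HB w c1 d1 c2 d2 g) =
      Ph w (pJ c1 d1) (pJ c2 d2) (KR be d2) g h + Ph w (pJ c1 d1) (pJ c2 d2) (KL c2 al be d2) g h := by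
  rw [Ph_eq, Ph_eq, gm_HB_classes r.h1 r.h3 r.hab hP r.ax r.lk hh, ev_gs3, ev_gs3]

/-- The general kernel. -/
theorem RowP.gm_PhP (r : RowP P w c1 d1 c2 d2 al be g) {h : Px Q → ℝ} (hh : Mp (pJ c1 d1) h) :
    gm w (h * HB w c1 d1 c2 d2 g) = Ph w (pJ c1 d1) (pJ c2 d2) (NMP P c2 al be d2) g h := by
  rw [Ph_eq, r.gm_h hh]

/-- **`V_k` as the two step mean with the kernel `NMP`.** -/
theorem RowP.HB_two (r : RowP P w c1 d1 c2 d2 al be g) :
    HB w c1 d1 c2 d2 g = cE w (pJ c1 d1) fun x => cE w (pJ c2 d2) g x *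
      cE w (pJ c1 d1) (fun y => NMP P c2 al be d2 x y * (g x - g y)) x :=
  HB_eqP r.h1 r.h3 r.hab r.ax r.lk

end Abs

section Mod

variable {δ B : ℝ} {R : Finset ℕ} {b σ m : ℕ} {w : Px Q → ℝ} {κ : Type*} [DecidableEq κ]

/-- What a path does outside of the block `B'` of `j`. -/
def pB' (Q : Finset (Finset ℕ)) (σ m j : ℕ) : Px Q → Finset ℕ × ℕ := pJ (j / (m * σ) * (m * σ)) (j / (m * σ) * (m * σ) + m * σ)

/-- What a path does outside of the block `B` of `j`. -/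
def pB (Q : Finset (Finset ℕ)) (σ j : ℕ) : Px Q → Finset ℕ × ℕ := pJ (j / σ * σ) (j / σ * σ + σ)

/-- **`V_k` at the weights with the kicked window of `j`**, any `k` (in the same block or not). -/
theorem VnW_two (hσ : 0 < σ) (hm : 0 < m) (hR : Deep R b σ) {j k : ℕ} (hj : j ∈ R) (hk : k ∈ R) (hw : AxP (Pof b {j}) w)
    (ω : Env × Finset ℕ) :
    VnW w μ s δ B b σ m ω k = cE w (pB' Q σ m k) fun x => cE w (pB Q σ k) (gg μ s Q δ B b ω k) x *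
      cE w (pB' Q σ m k) (fun y => Kkj b σ j k x y * (gg μ s Q δ B b ω k x - gg μ s Q δ B b ω k y)) x :=
  (RowP_model (μ := μ) (s := s) (δ := δ) (B := B) hσ hm hR (singleton_subset_iff.2 hj) hw hk ω).HB_two

omit [SwQ Q] [Nonempty (Px Q)] in
theorem Kkj_nonneg (b σ j k : ℕ) (x y : Px Q) : 0 ≤ Kkj b σ j k x y := NMP_nonneg x y

omit [SwQ Q] [Nonempty (Px Q)] in
theorem Kkj_le_one (b σ j k : ℕ) (x y : Px Q) : Kkj b σ j k x y ≤ 1 := NMP_le_one x y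

omit [SwQ Q] [Nonempty (Px Q)] in
theorem Kkj_symm (b σ j k : ℕ) (x y : Px Q) : Kkj b σ j k x y = Kkj b σ j k y x := NMP_symm x y

omit [SwQ Q] [Nonempty (Px Q)] in
theorem KRj_nonneg (b σ j : ℕ) (x y : Px Q) : 0 ≤ KRj b σ j x y := KR_nonneg x y

omit [SwQ Q] [Nonempty (Px Q)] in
theorem KRj_le_one (b σ j : ℕ) (x y : Px Q) : KRj b σ j x y ≤ 1 := NI_le_one' _ _ x y

omit [SwQ Q] [Nonempty (Px Q)] in
theorem KLj_nonneg (b σ j : ℕ) (x y : Px Q) : 0 ≤ KLj b σ j x y := KL_nonneg x y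

omit [SwQ Q] [Nonempty (Px Q)] in
theorem KLj_le_one (b σ j : ℕ) (x y : Px Q) : KLj b σ j x y ≤ 1 := (KL_le x y).trans (NI_le_one' _ _ x y)

/-- **IDENTITY (i)**, classes: `h` does not look inside of `B'_j`. -/
theorem psi_Ph (hσ : 0 < σ) (hm : 0 < m) (hR : Deep R b σ) {j : ℕ} (hj : j ∈ R) (hw : AxP (Pof b {j}) w)
    (ω : Env × Finset ℕ) {h : Px Q → ℝ} (hh : Mp (pB' Q σ m j) h) :
    gm w (h * VnW w μ s δ B b σ m ω j) =
      Ph w (pB' Q σ m j) (pB Q σ j) (KRj b σ j) (gg μ s Q δ B b ω j) h +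
        Ph w (pB' Q σ m j) (pB Q σ j) (KLj b σ j) (gg μ s Q δ B b ω j) h :=
  (RowP_model hσ hm hR (singleton_subset_iff.2 hj) hw hj ω).gm_Ph (fun t ht => Pof_self b j t (by omega)) hh

/-- **IDENTITY (i)**, classes and boxes. -/
theorem psi_PhB (hσ : 0 < σ) (hm : 0 < m) (hR : Deep R b σ) {j : ℕ} (hj : j ∈ R) (hw : AxP (Pof b {j}) w)
    (ω : Env × Finset ℕ) {h : Px Q → ℝ} (hh : Mp (pB' Q σ m j) h) {bx : Px Q → κ} {I : Finset κ} (hI : ∀ x, bx x ∈ I) :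
    gm w (h * VnW w μ s δ B b σ m ω j) =
      ∑ β ∈ I ×ˢ I, PhB w (pB' Q σ m j) (pB Q σ j) (KRj b σ j) (gg μ s Q δ B b ω j) h bx β +
        ∑ β ∈ I ×ˢ I, PhB w (pB' Q σ m j) (pB Q σ j) (KLj b σ j) (gg μ s Q δ B b ω j) h bx β := by
  rw [psi_Ph hσ hm hR hj hw ω hh, sum_PhB hI, sum_PhB hI]

/-- **IDENTITY (i)** with the far part, classes. -/
theorem psi_Df (hσ : 0 < σ) (hm : 0 < m) (hR : Deep R b σ) {j : ℕ} (hj : j ∈ R) (hw : AxP (Pof b {j}) w)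
    (ω : Env × Finset ℕ) (c d l : ℕ) :
    gm w (fun x => VnW w μ s δ B b σ m ω j x * DfW w μ s δ B b σ m R c d l ω j x) =
      Ph w (pB' Q σ m j) (pB Q σ j) (KRj b σ j) (gg μ s Q δ B b ω j) (DfW w μ s δ B b σ m R c d l ω j) +
        Ph w (pB' Q σ m j) (pB Q σ j) (KLj b σ j) (gg μ s Q δ B b ω j) (DfW w μ s δ B b σ m R c d l ω j) := by
  have e := psi_Ph (μ := μ) (s := s) (δ := δ) (B := B) hσ hm hR hj hw ω
    (DfW_Mp (μ := μ) (s := s) (δ := δ) (B := B) hσ hm hR (singleton_subset_iff.2 hj) hw c d l j j ω)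
  rw [← e]
  congr 1
  funext x
  rw [Pi.mul_apply, mul_comm]

/-- **IDENTITY (i)** with the far part, classes and boxes. -/
theorem psi_DfB (hσ : 0 < σ) (hm : 0 < m) (hR : Deep R b σ) {j : ℕ} (hj : j ∈ R) (hw : AxP (Pof b {j}) w)
    (ω : Env × Finset ℕ) (c d l : ℕ) {bx : Px Q → κ} {I : Finset κ} (hI : ∀ x, bx x ∈ I) :
    gm w (fun x => VnW w μ s δ B b σ m ω j x * DfW w μ s δ B b σ m R c d l ω j x) =
      ∑ β ∈ I ×ˢ I, PhB w (pB' Q σ m j) (pB Q σ j) (KRj b σ j) (gg μ s Q δ B b ω j) (DfW w μ s δ B b σ m R c d l ω j) bx β +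
        ∑ β ∈ I ×ˢ I, PhB w (pB' Q σ m j) (pB Q σ j) (KLj b σ j) (gg μ s Q δ B b ω j) (DfW w μ s δ B b σ m R c d l ω j) bx β := by
  rw [psi_Df hσ hm hR hj hw ω c d l, sum_PhB hI, sum_PhB hI]

omit [SwQ Q] [Nonempty (Px Q)] in
theorem DfW_apply (w : Px Q → ℝ) (μ : Measure ℝ) (s δ B : ℝ) (b σ m : ℕ) (R : Finset ℕ) (c d l : ℕ) (ω : Env × Finset ℕ) (j : ℕ) :
    DfW w μ s δ B b σ m R c d l ω j = ∑ k ∈ Fa (Rw R c d) l j, (sr ω.2 k / 3) • VnW w μ s δ B b σ m ω k := rfl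

/-- The outer kernel: `gm2 (Ko (y, z) V_j D_j)` of `Near32` at any weight of the class. -/
theorem psi_outer (hσ : 0 < σ) (hm : 0 < m) (hR : Deep R b σ) {j : ℕ} (hj : j ∈ R) (hw : AxP (Pof b {j}) w)
    (ω : Env × Finset ℕ) (c d l : ℕ) {Ko : Px Q → Px Q → ℝ} (hKo : ∀ z, Mp (pB' Q σ m j) fun y => Ko y z) :
    gm2 w (fun y z => Ko y z * (VnW w μ s δ B b σ m ω j y * DfW w μ s δ B b σ m R c d l ω j y)) =
      Ph w (pB' Q σ m j) (pB Q σ j) (KRj b σ j) (gg μ s Q δ B b ω j)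
          ((fun y => gm w (Ko y)) * DfW w μ s δ B b σ m R c d l ω j) +
        Ph w (pB' Q σ m j) (pB Q σ j) (KLj b σ j) (gg μ s Q δ B b ω j)
          ((fun y => gm w (Ko y)) * DfW w μ s δ B b σ m R c d l ω j) := by
  have hD := DfW_Mp (μ := μ) (s := s) (δ := δ) (B := B) hσ hm hR (singleton_subset_iff.2 hj) hw c d l j j ω
  have hh : Mp (pB' Q σ m j) ((fun y => gm w (Ko y)) * DfW w μ s δ B b σ m R c d l ω j) := by
    intro S S' h
    have a := outer_Mp w hKo S S' h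
    rw [Pi.mul_apply, Pi.mul_apply, hD S S' h]
    exact congrArg (fun t => t * DfW w μ s δ B b σ m R c d l ω j S') a
  rw [← psi_Ph (μ := μ) (s := s) (δ := δ) (B := B) hσ hm hR hj hw ω hh,
    gm2_outer w Ko (fun y => VnW w μ s δ B b σ m ω j y * DfW w μ s δ B b σ m R c d l ω j y)]
  congr 1
  funext y
  simp only [Pi.mul_apply]
  ring

/-- The size of `V_k` at any weight. -/
theorem VnW_nonneg (w : Px Q → ℝ) (ω : Env × Finset ℕ) (k : ℕ) (S : Px Q) : 0 ≤ VnW w μ s δ B b σ m ω k S := HB_nonneg S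

omit [SwQ Q] in
theorem abs_VnW (w : Px Q → ℝ) (hB : 0 ≤ B) (ω : Env × Finset ℕ) (k : ℕ) (S : Px Q) :
    |VnW w μ s δ B b σ m ω k S| ≤ (B / 2) ^ 2 := by
  rw [abs_of_nonneg (show 0 ≤ VnW w μ s δ B b σ m ω k S from HB_nonneg S)]
  exact HB_le (fun S => abs_gg hB b ω k S) S

/-- **The envelope of `V_k`** at the weights with the kicked window of `j`. -/
theorem VnW_le (hB : 0 ≤ B) (hσ : 0 < σ) (hm : 0 < m) (hR : Deep R b σ) {j k : ℕ} (hj : j ∈ R) (hk : k ∈ R)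
    (hw : AxP (Pof b {j}) w) (ω : Env × Finset ℕ) (S : Px Q) :
    VnW w μ s δ B b σ m ω k S ≤ B ^ 2 / 2 * cE2 w (pB' Q σ m k) (Kkj b σ j k) S S := by
  have e := (RowP_model (μ := μ) (s := s) (δ := δ) (B := B) hσ hm hR (singleton_subset_iff.2 hj) hw hk ω).HB_le
    (fun S => abs_gg hB b ω k S) S
  calc VnW w μ s δ B b σ m ω k S ≤ 2 * (B / 2) ^ 2 * cE2 w (pB' Q σ m k) (Kkj b σ j k) S S := e
    _ = _ := by ring

end Mod

end

end Pool.Agent.W_7d29a1_C0.GS65
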