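import Pool.Agent.W_7d29a1_C0.GSI65
import Pool.Agent.W_7d29a1_C0.GSA52
import Pool.Agent.W_7d29a1_C0.FlipK61

/-!
MP_7d29a1_pr, [C0], GS, identity (i) in the names of helper61 (`PW`, `DW`, `VW`), helper32 (`PhB`) and helper52 (`Vk`) (helper65).

`PW_sum`: for every weight `w` of the class of the window of `j` (`wm`, `wm + u`, `wm + C_β`), `PW K j w` is the sum over the two classes
`clj`, over the boxes of the own pair and over `k ∈ K` of `sr k / 3` times `PhB` with the spectator `Vk w .. (Kkj b σ j k)`.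
-/

set_option autoImplicit false
set_option linter.unusedSectionVars false

namespace Pool.Agent.W_7d29a1_C0.GS65

open Finset MeasureTheory Pool.Agent.W_7d29a1_F Pool.Agent.W_7d29a1_X Pool.Agent.W_7d29a1_C0.Mod92
open Pool.Agent.W_7d29a1_C0.Swap57 Pool.Agent.W_7d29a1_C0.E4T32 Pool.Agent.W_7d29a1_C0.Near32 Pool.Agent.W_7d29a1_C0.KickT32
open Pool.Agent.W_7d29a1_C0.Flip61 (VW DW PW)
open Pool.W7d29a1.C0 (gz gm lse gz_pos gz_ne gm_nonneg gm_mono)
open Pool.W7d29a1.C0.VT31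
open Pool.W7d29a1.C0.I52

noncomputable section

variable {μ : Measure ℝ} {s : ℝ} {N : ℕ} {Q : Finset (Finset ℕ)} [SwQ Q] [Nonempty (Px Q)]

/-! ### The two classes -/

/-- The class of the row `j`: `true`: no meeting on the right, `false`: a meeting on the right, none on the left. -/
def clj (b σ : ℕ) (cl : Bool) (j : ℕ) : Px Q → Px Q → ℝ := if cl then KRj b σ j else KLj b σ j

section Cl

omit [SwQ Q] [Nonempty (Px Q)]

theorem clj_nonneg (b σ : ℕ) (cl : Bool) (j : ℕ) (x y : Px Q) : 0 ≤ clj b σ cl j x y := by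
  unfold clj
  split_ifs
  · exact KRj_nonneg b σ j x y
  · exact KLj_nonneg b σ j x y

theorem clj_le_one (b σ : ℕ) (cl : Bool) (j : ℕ) (x y : Px Q) : clj b σ cl j x y ≤ 1 := by
  unfold clj
  split_ifs
  · exact KRj_le_one b σ j x y
  · exact KLj_le_one b σ j x y

theorem clj_symm (b σ : ℕ) (cl : Bool) (j : ℕ) (x y : Px Q) : clj b σ cl j x y = clj b σ cl j y x := by
  unfold clj
  split_ifs
  · exact KR_symm x y
  · exact KL_symm x y

theorem clj_true (b σ j : ℕ) (x y : Px Q) : clj b σ true j x y = NI (j + b) (j / σ * σ + σ) x y := rfl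

theorem clj_false_le (b σ j : ℕ) (x y : Px Q) : clj b σ false j x y ≤ NI (j / σ * σ) (j - b) x y := KL_le x y

/-- The class looks at the rows of `B'` only. -/
theorem clj_KOk {R : Finset ℕ} {b σ m : ℕ} (hσ : 0 < σ) (hm : 0 < m) (hR : Deep R b σ) {j : ℕ} (hj : j ∈ R) (cl : Bool) :
    KOk (Q := Q) (j / (m * σ) * (m * σ)) (j / (m * σ) * (m * σ) + m * σ) (clj b σ cl j) := by
  obtain ⟨h1, h2⟩ := hR j hj
  have hg := grid hσ hm j
  rw [Nat.add_mul, Nat.one_mul] at h2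
  unfold clj
  split_ifs
  · exact KOk_KR (by omega) hg.2
  · exact KOk_KL hg.1 (by omega) (by omega) hg.2

end Cl

/-! ### The weights -/

/-- The log weights of a shifted environment. -/
theorem AxP_Sh (P : ℕ → Prop) {w : Px Q → ℝ} {ω' : Env × Finset ℕ} (h : wm μ s N Q ω' = w) : AxP P w := by
  rw [← h]
  exact AxP_wm P ω'

/-- The flipped weights. -/
theorem AxP_flip {δ B : ℝ} {b : ℕ} (j : ℕ) (ω : Env × Finset ℕ) :
    AxP (Pof b {j}) (wm μ s N Q ω + (-2 * sr ω.2 j) • gg μ s Q δ B b ω j) := AxP_one j ω _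

section Mod

variable {δ B : ℝ} {R : Finset ℕ} {b σ m : ℕ} {w : Px Q → ℝ} {κ : Type*} [DecidableEq κ]

omit [SwQ Q] [Nonempty (Px Q)] in
theorem VW_eq (w : Px Q → ℝ) (ω : Env × Finset ℕ) (k : ℕ) : VW μ s δ B b σ m w ω k = VnW w μ s δ B b σ m ω k := rfl

/-- **`V_k = Vk`** at the weights with the kicked window of `j`, any `k`. -/
theorem VW_Vk (hσ : 0 < σ) (hm : 0 < m) (hR : Deep R b σ) {j k : ℕ} (hj : j ∈ R) (hk : k ∈ R) (hw : AxP (Pof b {j}) w)
    (ω : Env × Finset ℕ) :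
    VW μ s δ B b σ m w ω k = Vk w (pB Q σ k) (pB' Q σ m k) (gg μ s Q δ B b ω k) (Kkj b σ j k) :=
  VnW_two hσ hm hR hj hk hw ω

theorem DW_Vk (hσ : 0 < σ) (hm : 0 < m) (hR : Deep R b σ) {j : ℕ} (hj : j ∈ R) {K : Finset ℕ} (hK : K ⊆ R)
    (hw : AxP (Pof b {j}) w) (ω : Env × Finset ℕ) :
    DW μ s δ B b σ m K w ω =
      ∑ k ∈ K, (sr ω.2 k / 3) • Vk w (pB Q σ k) (pB' Q σ m k) (gg μ s Q δ B b ω k) (Kkj b σ j k) :=
  sum_congr rfl fun k hk => by rw [VW_Vk hσ hm hR hj (hK hk) hw ω]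

theorem DW_Mp (hσ : 0 < σ) (hm : 0 < m) (hR : Deep R b σ) {j : ℕ} (hj : j ∈ R) {K : Finset ℕ} (hK : K ⊆ R)
    (hw : AxP (Pof b {j}) w) (ω : Env × Finset ℕ) : Mp (pB' Q σ m j) (DW μ s δ B b σ m K w ω) := by
  intro S S' e
  unfold DW
  rw [Finset.sum_apply, Finset.sum_apply]
  refine sum_congr rfl fun k hk => ?_
  rw [Pi.smul_apply, Pi.smul_apply]
  congr 1
  exact VnW_Mp (μ := μ) (s := s) (δ := δ) (B := B) hσ hm hR (singleton_subset_iff.2 hj) hw (hK hk) j ω S S' e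

/-- **`PW` as the sum over the classes and the boxes**, the spectator is `DW`. -/
theorem PW_boxes (hσ : 0 < σ) (hm : 0 < m) (hR : Deep R b σ) {j : ℕ} (hj : j ∈ R) {K : Finset ℕ} (hK : K ⊆ R)
    (hw : AxP (Pof b {j}) w) (ω : Env × Finset ℕ) {bx : Px Q → κ} {I : Finset κ} (hI : ∀ x, bx x ∈ I) :
    PW μ s δ B b σ m K j w ω = ∑ cl : Bool, ∑ β ∈ I ×ˢ I,
      PhB w (pB' Q σ m j) (pB Q σ j) (clj b σ cl j) (gg μ s Q δ B b ω j) (DW μ s δ B b σ m K w ω) bx β := by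
  have e := psi_PhB (μ := μ) (s := s) (δ := δ) (B := B) hσ hm hR hj hw ω
    (DW_Mp (μ := μ) (s := s) (δ := δ) (B := B) hσ hm hR hj hK hw ω) hI
  rw [Fintype.sum_bool]
  show gm w (VW μ s δ B b σ m w ω j * DW μ s δ B b σ m K w ω) = _
  rw [mul_comm]
  exact e

/-- **IDENTITY (i)**: `PW` as the sum over the classes, the boxes and the rows `k ∈ K`, every weight of the class. -/
theorem PW_sum (hσ : 0 < σ) (hm : 0 < m) (hR : Deep R b σ) {j : ℕ} (hj : j ∈ R) {K : Finset ℕ} (hK : K ⊆ R)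
    (hw : AxP (Pof b {j}) w) (ω : Env × Finset ℕ) {bx : Px Q → κ} {I : Finset κ} (hI : ∀ x, bx x ∈ I) :
    PW μ s δ B b σ m K j w ω = ∑ cl : Bool, ∑ β ∈ I ×ˢ I, ∑ k ∈ K, sr ω.2 k / 3 *
      PhB w (pB' Q σ m j) (pB Q σ j) (clj b σ cl j) (gg μ s Q δ B b ω j)
        (Vk w (pB Q σ k) (pB' Q σ m k) (gg μ s Q δ B b ω k) (Kkj b σ j k)) bx β := by
  rw [PW_boxes hσ hm hR hj hK hw ω hI]
  refine sum_congr rfl fun cl _ => sum_congr rfl fun β _ => ?_
  rw [DW_Vk hσ hm hR hj hK hw ω]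
  exact PhB_sum K w (pB Q σ j) (pB' Q σ m j) (gg μ s Q δ B b ω j) (clj b σ cl j) bx β (fun k => sr ω.2 k / 3)
    fun k => Vk w (pB Q σ k) (pB' Q σ m k) (gg μ s Q δ B b ω k) (Kkj b σ j k)

omit [SwQ Q] [Nonempty (Px Q)] in
theorem Fa_sub {c d h : ℕ} (j : ℕ) : Fa (Rw R c d) h j ⊆ R := fun k hk => by
  unfold Fa Rw at hk
  exact (mem_inter.1 (mem_filter.1 hk).1).1

omit [SwQ Q] in
/-- The spectator of `Near32`. -/
theorem DW_Df {c d h : ℕ} (j : ℕ) (ω : Env × Finset ℕ) :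
    DW μ s δ B b σ m (Fa (Rw R c d) h j) (wm μ s N Q ω) ω = Df μ s N Q δ B b σ m R c d h ω j := rfl

/-- **The far rows do not see a field or a kick off their blocks**: if the change `u` of the weights does not look inside of `B'_k`, then
`V_k` is the same. -/
theorem VW_add (w u : Px Q → ℝ) (ω : Env × Finset ℕ) (k : ℕ) (hu : Mp (pB' Q σ m k) u) (hu' : Mp (pB Q σ k) u) :
    VW μ s δ B b σ m (w + u) ω k = VW μ s δ B b σ m w ω k := by
  have e1 := Pool.Agent.W_7d29a1_C0.Flip61.cE_tilt w u hu' (gg μ s Q δ B b ω k)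
  have e2 := Pool.Agent.W_7d29a1_C0.Flip61.cV_tilt w u hu (cE w (pB Q σ k) (gg μ s Q δ B b ω k))
  show cV (w + u) (pB' Q σ m k) (cE (w + u) (pB Q σ k) (gg μ s Q δ B b ω k)) = cV w (pB' Q σ m k) (cE w (pB Q σ k) (gg μ s Q δ B b ω k))
  rw [e1, e2]

end Mod

end

end Pool.Agent.W_7d29a1_C0.GS65
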