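import Pool.Agent.W_7d29a1_HZ.Z74_Num74

/-!
CURV0 (MP_7d29a1_pr), GS one kick: THE LEVELS. All the thresholds of the bad part of GS from one number `A = N ^ a`:
`τ` (closeness of the weights), `q` (mass of the bad paths), `δ` (difference of the half response), `q0`, `q2` (rare own masses),
`m`, `M` (`T_int`), `ρ`, `ρ'` (rare conditional masses), `ρ₁` (`out_int`). `D` bounds the tilts, `B` the clipping level, `θ` the mass of
the bad paths of the good environments, `K` any power. `ev_lev73`: they exist for all large `N` as soon as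
`β < a < c', c₁, κp` and `ε < κp`. (helper73)
-/

set_option autoImplicit false
set_option linter.unusedVariables false

namespace Pool.W7d29a1.C0.Bd73

open Filter
open Pool.Agent.W_7d29a1_HZ.Z74 (ev_pow ev_pow_le)

noncomputable section

/-- The thresholds and their inequalities. `q' = q exp (- 4 D) / 12` and `δ' = δ exp (- 4 D) / 4` are the thresholds after the changes of
the weights and the law form. -/
structure Lev73 (N : ℕ) (B D K κp ε c' θ : ℝ) where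
  (τ q δ q0 q2 m M ρ ρ₁ ρ' : ℝ)
  hτ : 0 < τ
  hτ4 : τ ≤ 1 / 4
  e1 : Real.exp (24 * τ) - 1 ≤ (N : ℝ) ^ (-K)
  hq : 0 < q
  hq1 : q ≤ 1
  e2 : 24 * (q * Real.exp (5 * D) / τ) ≤ (N : ℝ) ^ (-K)
  hδ : 0 < δ
  e3 : 12 * δ / τ ≤ q * Real.exp (-(2 * D))
  hq0 : 0 < q0
  e4 : ((N : ℝ) + 1) ^ 2 * q0 ≤ (N : ℝ) ^ (-K)
  hq2 : 0 < q2
  e5 : ((N : ℝ) + 1) ^ 2 * q2 ≤ (N : ℝ) ^ (-K)
  hm : 0 < m
  e6 : 2 * Real.exp ((N : ℝ) ^ ε) * Real.exp (4 * D) * m + Real.exp (-(N : ℝ) ^ c') + 2 * B * ρ ≤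
    q0 * (q * Real.exp (-(4 * D)) / 12) / (3 * N) * (δ * Real.exp (-(4 * D)) / 4)
  e7 : ((N : ℝ) + 1) ^ 2 * Real.exp (-(5 * M)) ≤ m ^ 2
  hM8 : 8 ≤ M
  hM : M + 1 ≤ (N : ℝ) ^ κp
  hρ : 0 < ρ
  hρ1 : ρ ≤ 1
  e8 : Real.exp (2 * D) * θ / ρ ≤ (N : ℝ) ^ (-K)
  hρ₁ : 0 < ρ₁
  hρ' : 0 < ρ'
  hρ'1 : ρ' ≤ 1
  e9 : 8 * ρ₁ + ρ' ≤ q0 * (q * Real.exp (-(4 * D)) / 12) / (3 * N)
  e10 : 2 * (Real.exp (2 * D) * θ) / ρ' ≤ (N : ℝ) ^ (-K)
  e11 : Real.exp (-(N : ℝ) ^ κp) ≤ ρ₁ / 2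
  e12 : Real.exp (-(N : ℝ) ^ κp) ≤ q0 * q2 * (q * Real.exp (-(4 * D)) / 12) / 6

namespace Lev73

variable {N : ℕ} {B D K κp ε c' θ : ℝ}

/-- The mass of the bad boxes after the changes of the weights. -/
def qb (V : Lev73 N B D K κp ε c' θ) : ℝ := V.q * Real.exp (-(4 * D)) / 3

/-- The level of the half response after the changes of the weights. -/
def δb (V : Lev73 N B D K κp ε c' θ) : ℝ := V.δ * Real.exp (-(4 * D))

/-- The conditional mass of the bad boxes after joining. -/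
def q1 (V : Lev73 N B D K κp ε c' θ) : ℝ := V.q0 * V.qb / (3 * N)

/-- The level of the three free replicas. -/
def q3 (V : Lev73 N B D K κp ε c' θ) : ℝ := V.q0 * V.q2 * (V.qb / 3)

variable (V : Lev73 N B D K κp ε c' θ)

theorem qb_pos : 0 < V.qb := by
  have := V.hq
  unfold qb
  positivity

theorem δb_pos : 0 < V.δb := by
  have := V.hδ
  unfold δb
  positivity

theorem q1_pos (hN : 1 ≤ N) : 0 < V.q1 := by
  have := V.hq0
  have := V.qb_pos
  have : (0 : ℝ) < N := by exact_mod_cast hN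
  unfold q1
  positivity

theorem q3_pos : 0 < V.q3 := by
  have := V.hq0
  have := V.hq2
  have := V.qb_pos
  unfold q3
  positivity

/-- The level of `T_places` at the model, after the law form. -/
theorem e6' (hN : 1 ≤ N) (hD : 0 ≤ D) : 2 * Real.exp ((N : ℝ) ^ ε) * V.m + Real.exp (-(N : ℝ) ^ c') + 2 * B * V.ρ ≤ V.q1 / 2 * (V.δb / 2) := by
  have h1 := V.e6
  have hm := V.hm
  have h2 : (1 : ℝ) ≤ Real.exp (4 * D) := Real.one_le_exp (by linarith)
  have h3 : 2 * Real.exp ((N : ℝ) ^ ε) * V.m ≤ 2 * Real.exp ((N : ℝ) ^ ε) * Real.exp (4 * D) * V.m := by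
    have h4 : 0 ≤ 2 * Real.exp ((N : ℝ) ^ ε) * V.m := by positivity
    nlinarith
  have h5 : V.q0 * (V.q * Real.exp (-(4 * D)) / 12) / (3 * N) * (V.δ * Real.exp (-(4 * D)) / 4) = V.q1 * V.δb / 16 := by
    unfold q1 δb qb
    ring
  have h6 : 0 < V.q1 * V.δb := mul_pos (V.q1_pos hN) V.δb_pos
  rw [h5] at h1
  linarith

/-- The level of `out_places`, any weight. -/
theorem e9' (hN : 1 ≤ N) : 8 * V.ρ₁ + V.ρ' ≤ V.q1 := by
  have h1 := V.e9
  have h5 : V.q0 * (V.q * Real.exp (-(4 * D)) / 12) / (3 * N) = V.q1 / 4 := by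
    unfold q1 qb
    ring
  have h6 := V.q1_pos hN
  rw [h5] at h1
  linarith

theorem e12' : Real.exp (-(N : ℝ) ^ κp) ≤ V.q3 / 2 := by
  have h1 := V.e12
  have h5 : V.q0 * V.q2 * (V.q * Real.exp (-(4 * D)) / 12) / 6 = V.q3 / 8 := by
    unfold q3 qb
    ring
  have h6 := V.q3_pos
  rw [h5] at h1
  linarith

end Lev73

/-- **THE LEVELS EXIST.** -/
theorem ev_lev73 {β a ε c' c₁ κp K : ℝ} (hβ : β < a) (ha0 : 0 < a) (hac : a < c') (hac₁ : a < c₁) (haκ : a < κp) (hεκ : ε < κp)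
    (hK : 0 ≤ K) :
    ∀ᶠ N : ℕ in atTop, ∀ B D θ : ℝ, 0 ≤ B → B ≤ (N : ℝ) ^ β → 0 ≤ D → D ≤ 8 * (N : ℝ) ^ β → 0 ≤ θ →
      θ ≤ Real.exp (-(N : ℝ) ^ c₁) → Nonempty (Lev73 N B D K κp ε c' θ) := by
  have hlog : ∀ k : ℝ, ∀ᶠ N : ℕ in atTop, (N : ℝ) ^ k ≤ Real.exp ((N : ℝ) ^ a / 100) := fun k => by
    have h1 : Tendsto (fun N : ℕ => ((N : ℝ) ^ a) ^ (k / a) * Real.exp (-(1 / 100) * (N : ℝ) ^ a)) atTop (nhds 0) :=
      (tendsto_rpow_mul_exp_neg_mul_atTop_nhds_zero (k / a) (1 / 100) (by norm_num)).comp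
        ((tendsto_rpow_atTop ha0).comp tendsto_natCast_atTop_atTop)
    filter_upwards [h1.eventually (Iic_mem_nhds zero_lt_one), eventually_ge_atTop 1] with N h2 h3
    have hN0 : (0 : ℝ) < N := by exact_mod_cast h3
    have e : ((N : ℝ) ^ a) ^ (k / a) = (N : ℝ) ^ k := by
      rw [← Real.rpow_mul hN0.le]
      congr 1
      field_simp
    rw [e] at h2
    have h4 := mul_le_mul_of_nonneg_right h2 (Real.exp_pos ((N : ℝ) ^ a / 100)).le
    rw [mul_assoc, ← Real.exp_add, show -(1 / 100) * (N : ℝ) ^ a + (N : ℝ) ^ a / 100 = 0 by ring, Real.exp_zero, mul_one, one_mul] at h4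
    exact h4
  filter_upwards [ev_pow_le (K := 800) hβ one_pos, ev_pow ha0 2000, hlog (2 * K + 20), hlog β, hlog (K + 7),
    ev_pow_le (K := 10) hac one_pos, ev_pow_le (K := 10) hac₁ one_pos, ev_pow_le (K := 10) haκ (show (0 : ℝ) < 1 / 2 by norm_num),
    ev_pow_le (K := 1) hεκ (show (0 : ℝ) < 1 / 2 by norm_num), eventually_ge_atTop 4, hlog 1, hlog K] with
    N g1 g2 g3 g4 g5 g6 g7 g8 g9 g10 g11 g12
  intro B D θ hB0 hB hD0 hD hθ0 hθ
  have hN4 : (4 : ℝ) ≤ N := by exact_mod_cast g10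
  have hN0 : (0 : ℝ) < N := by linarith
  obtain ⟨A, hA⟩ : ∃ A : ℝ, A = (N : ℝ) ^ a := ⟨_, rfl⟩
  rw [← hA] at g1 g2 g3 g4 g5 g6 g7 g8 g11 g12
  have hA0 : 2000 ≤ A := g2
  have hDA : D ≤ A / 100 := by linarith
  have hBA : B ≤ Real.exp (A / 100) := hB.trans g4
  have hc : 4 * A + 6 * A ≤ (N : ℝ) ^ c' := by linarith
  have hc1 : 10 * A ≤ (N : ℝ) ^ c₁ := by linarith
  have hε0 : 0 ≤ (N : ℝ) ^ ε := Real.rpow_nonneg hN0.le _
  have hE : ∀ x : ℝ, 1 + x ≤ Real.exp x := fun x => by linarith [Real.add_one_le_exp x]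
  have h20 : (20 : ℝ) ≤ Real.exp (A / 100) := by linarith [hE (A / 100)]
  -- powers of `N`
  have p1 : (N : ℝ) ^ (-K) = ((N : ℝ) ^ K)⁻¹ := Real.rpow_neg hN0.le K
  have hNK : Real.exp (-(A / 100)) ≤ (N : ℝ) ^ (-K) := by
    rw [p1, Real.exp_neg]
    exact inv_anti₀ (Real.rpow_pos_of_pos hN0 _) g12
  have hτv : (N : ℝ) ^ (-(K + 7)) = ((N : ℝ) ^ (K + 7))⁻¹ := Real.rpow_neg hN0.le _
  have hτ0 : 0 < (N : ℝ) ^ (-(K + 7)) := Real.rpow_pos_of_pos hN0 _
  have hτl : Real.exp (-(A / 100)) ≤ (N : ℝ) ^ (-(K + 7)) := by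
    rw [hτv, Real.exp_neg]
    exact inv_anti₀ (Real.rpow_pos_of_pos hN0 _) g5
  have hτK : 48 * (N : ℝ) ^ (-(K + 7)) ≤ (N : ℝ) ^ (-K) := by
    have e : (N : ℝ) ^ (-(K + 7)) = (N : ℝ) ^ (-K) * (N : ℝ) ^ (-(7 : ℝ)) := by
      rw [← Real.rpow_add hN0]
      congr 1
      ring
    have e7 : (N : ℝ) ^ (-(7 : ℝ)) ≤ 1 / 48 := by
      rw [Real.rpow_neg hN0.le, show (7 : ℝ) = ((7 : ℕ) : ℝ) by norm_num, Real.rpow_natCast, ← one_div]
      refine one_div_le_one_div_of_le (by norm_num) ?_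
      calc (48 : ℝ) ≤ 4 ^ 7 := by norm_num
        _ ≤ (N : ℝ) ^ 7 := pow_le_pow_left₀ (by norm_num) hN4 7
    rw [e]
    have hp := Real.rpow_pos_of_pos hN0 (-K)
    nlinarith
  have hτ1 : 48 * (N : ℝ) ^ (-(K + 7)) ≤ 1 := hτK.trans (by
    rw [Real.rpow_neg hN0.le]
    exact inv_le_one_of_one_le₀ (Real.one_le_rpow (by linarith) hK))
  obtain ⟨τ, hτ⟩ : ∃ t : ℝ, t = (N : ℝ) ^ (-(K + 7)) := ⟨_, rfl⟩
  rw [← hτ] at hτ0 hτl hτK hτ1
  -- the product `exp`
  have ex : ∀ x y : ℝ, Real.exp x * Real.exp y = Real.exp (x + y) := fun x y => (Real.exp_add x y).symm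
  have hqd : Real.exp (-(A + A / 100 * 6)) ≤ Real.exp (-A) * Real.exp (-(4 * D)) / 12 := by
    rw [le_div_iff₀ (by norm_num : (0 : ℝ) < 12), ex]
    have : Real.exp (-(A + A / 100 * 6)) * 12 ≤ Real.exp (-(A + A / 100 * 6)) * Real.exp (A / 100) :=
      mul_le_mul_of_nonneg_left (by linarith) (Real.exp_pos _).le
    refine this.trans ?_
    rw [ex]
    exact Real.exp_le_exp.2 (by linarith)
  have hδd : Real.exp (-(A + A / 100 * 10)) ≤ τ * Real.exp (-A) * Real.exp (-(2 * D)) / 12 * Real.exp (-(4 * D)) / 4 := by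
    have e48 : τ * Real.exp (-A) * Real.exp (-(2 * D)) / 12 * Real.exp (-(4 * D)) / 4 =
        τ * Real.exp (-A - 6 * D) / 48 := by
      rw [show -A - 6 * D = -A + (-(2 * D) + -(4 * D)) by ring, Real.exp_add, Real.exp_add]
      ring
    rw [e48, le_div_iff₀ (by norm_num : (0 : ℝ) < 48)]
    have h48 : (48 : ℝ) ≤ Real.exp (A / 100 * 3) := by
      have := hE (A / 100 * 3)
      linarith
    have k1 : Real.exp (-(A + A / 100 * 10)) * 48 ≤ Real.exp (-(A + A / 100 * 10)) * Real.exp (A / 100 * 3) :=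
      mul_le_mul_of_nonneg_left h48 (Real.exp_pos _).le
    refine k1.trans ?_
    rw [ex]
    calc Real.exp (-(A + A / 100 * 10) + A / 100 * 3) ≤ Real.exp (-(A / 100) + (-A - 6 * D)) := Real.exp_le_exp.2 (by linarith)
      _ = Real.exp (-(A / 100)) * Real.exp (-A - 6 * D) := by rw [Real.exp_add]
      _ ≤ τ * Real.exp (-A - 6 * D) := mul_le_mul_of_nonneg_right hτl (Real.exp_pos _).le
  have h3N : 3 * (N : ℝ) ≤ Real.exp (A / 100 * 2) := by
    rw [Real.rpow_one] at g11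
    calc 3 * (N : ℝ) ≤ Real.exp (A / 100) * Real.exp (A / 100) := mul_le_mul (by linarith) g11 hN0.le (Real.exp_pos _).le
      _ = _ := by rw [ex]; congr 1; ring
  have hq1 : Real.exp (-(2 * A + A / 100 * 8)) ≤ Real.exp (-A) * (Real.exp (-A) * Real.exp (-(4 * D)) / 12) / (3 * N) := by
    rw [le_div_iff₀ (by positivity)]
    calc Real.exp (-(2 * A + A / 100 * 8)) * (3 * N) ≤ Real.exp (-(2 * A + A / 100 * 8)) * Real.exp (A / 100 * 2) :=
          mul_le_mul_of_nonneg_left h3N (Real.exp_pos _).le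
      _ = Real.exp (-A) * Real.exp (-(A + A / 100 * 6)) := by rw [ex, ex]; congr 1; ring
      _ ≤ _ := mul_le_mul_of_nonneg_left hqd (Real.exp_pos _).le
  have hbig : (N : ℝ) ^ (2 * K + 20) * Real.exp (-(A / 100)) ≤ 1 := by
    have := mul_le_mul_of_nonneg_right g3 (Real.exp_pos (-(A / 100))).le
    rwa [ex, show A / 100 + -(A / 100) = 0 by ring, Real.exp_zero] at this
  have hθD : Real.exp (2 * D) * θ ≤ Real.exp (-(9 * A)) := by
    calc Real.exp (2 * D) * θ ≤ Real.exp (2 * D) * Real.exp (-(N : ℝ) ^ c₁) := mul_le_mul_of_nonneg_left hθ (Real.exp_pos _).le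
      _ = Real.exp (2 * D + -(N : ℝ) ^ c₁) := ex _ _
      _ ≤ _ := Real.exp_le_exp.2 (by linarith)
  have hN1 : ((N : ℝ) + 1) ^ 2 ≤ Real.exp (A / 100 * 4) := by
    rw [Real.rpow_one] at g11
    have k1 : (N : ℝ) + 1 ≤ Real.exp (A / 100 * 2) := by
      calc (N : ℝ) + 1 ≤ 3 * N := by linarith
        _ ≤ _ := h3N
    calc ((N : ℝ) + 1) ^ 2 ≤ (Real.exp (A / 100 * 2)) ^ 2 := pow_le_pow_left₀ (by linarith) k1 2
      _ = _ := by rw [sq, ex]; congr 1; ring
  refine ⟨{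
    τ := τ
    q := Real.exp (-A)
    δ := τ * Real.exp (-A) * Real.exp (-(2 * D)) / 12
    q0 := Real.exp (-A)
    q2 := Real.exp (-A)
    m := Real.exp (-((N : ℝ) ^ ε + 5 * A))
    M := (N : ℝ) ^ ε + 4 * A
    ρ := Real.exp (-(4 * A))
    ρ₁ := Real.exp (-(3 * A))
    ρ' := Real.exp (-(3 * A))
    hτ := hτ0
    hτ4 := by linarith
    e1 := ?_
    hq := Real.exp_pos _
    hq1 := Real.exp_le_one_iff.2 (by linarith)
    e2 := ?_
    hδ := by positivity
    e3 := ?_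
    hq0 := Real.exp_pos _
    e4 := ?_
    hq2 := Real.exp_pos _
    e5 := ?_
    hm := Real.exp_pos _
    e6 := ?_
    e7 := ?_
    hM8 := by linarith
    hM := by linarith
    hρ := Real.exp_pos _
    hρ1 := Real.exp_le_one_iff.2 (by linarith)
    e8 := ?_
    hρ₁ := Real.exp_pos _
    hρ' := Real.exp_pos _
    hρ'1 := Real.exp_le_one_iff.2 (by linarith)
    e9 := ?_
    e10 := ?_
    e11 := ?_
    e12 := ?_ }⟩
  · -- e1
    have k1 : Real.exp (24 * τ) ≤ 1 + 2 * (24 * τ) := by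
      have k2 : 24 * τ ≤ 1 / 2 := by linarith
      have k3 := Real.add_one_le_exp (-(24 * τ))
      have k4 : Real.exp (24 * τ) * Real.exp (-(24 * τ)) = 1 := by rw [ex, add_neg_cancel, Real.exp_zero]
      have k5 := Real.exp_pos (24 * τ)
      nlinarith
    linarith
  · -- e2
    have k1 : Real.exp (-A) * Real.exp (5 * D) / τ ≤ Real.exp (-(A / 2)) := by
      rw [div_le_iff₀ hτ0]
      calc Real.exp (-A) * Real.exp (5 * D) = Real.exp (-A + 5 * D) := ex _ _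
        _ ≤ Real.exp (-(A / 2) + -(A / 100)) := Real.exp_le_exp.2 (by linarith)
        _ = Real.exp (-(A / 2)) * Real.exp (-(A / 100)) := by rw [Real.exp_add]
        _ ≤ _ := mul_le_mul_of_nonneg_left hτl (Real.exp_pos _).le
    have k2 : 24 * Real.exp (-(A / 2)) ≤ Real.exp (-(A / 100)) := by
      have h24 : (24 : ℝ) ≤ Real.exp (A / 2 - A / 100) := by
        have := hE (A / 2 - A / 100)
        linarith
      calc 24 * Real.exp (-(A / 2)) ≤ Real.exp (A / 2 - A / 100) * Real.exp (-(A / 2)) :=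
            mul_le_mul_of_nonneg_right h24 (Real.exp_pos _).le
        _ = _ := by rw [ex]; congr 1; ring
    linarith
  · -- e3
    refine le_of_eq ?_
    field_simp
  · -- e4
    calc ((N : ℝ) + 1) ^ 2 * Real.exp (-A) ≤ Real.exp (A / 100 * 4) * Real.exp (-A) :=
          mul_le_mul_of_nonneg_right hN1 (Real.exp_pos _).le
      _ = Real.exp (A / 100 * 4 + -A) := ex _ _
      _ ≤ Real.exp (-(A / 100)) := Real.exp_le_exp.2 (by linarith)
      _ ≤ _ := hNK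
  · calc ((N : ℝ) + 1) ^ 2 * Real.exp (-A) ≤ Real.exp (A / 100 * 4) * Real.exp (-A) :=
          mul_le_mul_of_nonneg_right hN1 (Real.exp_pos _).le
      _ = Real.exp (A / 100 * 4 + -A) := ex _ _
      _ ≤ Real.exp (-(A / 100)) := Real.exp_le_exp.2 (by linarith)
      _ ≤ _ := hNK
  · -- e6
    have k1 : 2 * Real.exp ((N : ℝ) ^ ε) * Real.exp (4 * D) * Real.exp (-((N : ℝ) ^ ε + 5 * A)) ≤ 2 * Real.exp (-(4 * A)) := by
      rw [mul_assoc, mul_assoc, ex, ex]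
      exact mul_le_mul_of_nonneg_left (Real.exp_le_exp.2 (by linarith)) (by norm_num)
    have k2 : Real.exp (-(N : ℝ) ^ c') ≤ Real.exp (-(4 * A)) := Real.exp_le_exp.2 (by linarith)
    have k3 : 2 * B * Real.exp (-(4 * A)) ≤ 2 * Real.exp (-(4 * A) + A / 100) := by
      rw [Real.exp_add]
      have := mul_le_mul_of_nonneg_right hBA (Real.exp_pos (-(4 * A))).le
      linarith
    have k4 : Real.exp (-(4 * A)) ≤ Real.exp (-(4 * A) + A / 100) := Real.exp_le_exp.2 (by linarith)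
    have k5 : 5 * Real.exp (-(4 * A) + A / 100) ≤ Real.exp (-(2 * A + A / 100 * 8) + -(A + A / 100 * 10)) := by
      have h5 : (5 : ℝ) ≤ Real.exp (A / 2) := by
        have := hE (A / 2)
        linarith
      calc 5 * Real.exp (-(4 * A) + A / 100) ≤ Real.exp (A / 2) * Real.exp (-(4 * A) + A / 100) :=
            mul_le_mul_of_nonneg_right h5 (Real.exp_pos _).le
        _ = Real.exp (A / 2 + (-(4 * A) + A / 100)) := ex _ _
        _ ≤ _ := Real.exp_le_exp.2 (by linarith)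
    refine le_trans (by linarith) (k5.trans ?_)
    rw [Real.exp_add]
    exact mul_le_mul hq1 hδd (Real.exp_pos _).le ((Real.exp_pos _).le.trans hq1)
  · -- e7
    have k1 : Real.exp (-((N : ℝ) ^ ε + 5 * A)) ^ 2 = Real.exp (-(2 * (N : ℝ) ^ ε + 10 * A)) := by
      rw [sq, ex]
      congr 1
      ring
    rw [k1]
    calc ((N : ℝ) + 1) ^ 2 * Real.exp (-(5 * ((N : ℝ) ^ ε + 4 * A))) ≤ Real.exp (A / 100 * 4) * Real.exp (-(5 * ((N : ℝ) ^ ε + 4 * A))) :=
          mul_le_mul_of_nonneg_right hN1 (Real.exp_pos _).le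
      _ = Real.exp (A / 100 * 4 + -(5 * ((N : ℝ) ^ ε + 4 * A))) := ex _ _
      _ ≤ _ := Real.exp_le_exp.2 (by linarith)
  · -- e8
    rw [div_le_iff₀ (Real.exp_pos _)]
    calc Real.exp (2 * D) * θ ≤ Real.exp (-(9 * A)) := hθD
      _ ≤ Real.exp (-(A / 100) + -(4 * A)) := Real.exp_le_exp.2 (by linarith)
      _ = Real.exp (-(A / 100)) * Real.exp (-(4 * A)) := by rw [Real.exp_add]
      _ ≤ _ := mul_le_mul_of_nonneg_right hNK (Real.exp_pos _).le
  · -- e9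
    refine le_trans ?_ hq1
    have h9 : (9 : ℝ) ≤ Real.exp (A / 2) := by
      have := hE (A / 2)
      linarith
    calc 8 * Real.exp (-(3 * A)) + Real.exp (-(3 * A)) = 9 * Real.exp (-(3 * A)) := by ring
      _ ≤ Real.exp (A / 2) * Real.exp (-(3 * A)) := mul_le_mul_of_nonneg_right h9 (Real.exp_pos _).le
      _ = Real.exp (A / 2 + -(3 * A)) := ex _ _
      _ ≤ _ := Real.exp_le_exp.2 (by linarith)
  · -- e10
    rw [div_le_iff₀ (Real.exp_pos _)]
    have k1 : 2 * (Real.exp (2 * D) * θ) ≤ Real.exp (-(8 * A)) := by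
      have h2 : (2 : ℝ) ≤ Real.exp A := by
        have := hE A
        linarith
      calc 2 * (Real.exp (2 * D) * θ) ≤ Real.exp A * Real.exp (-(9 * A)) :=
            mul_le_mul h2 hθD (mul_nonneg (Real.exp_pos _).le hθ0) (Real.exp_pos _).le
        _ = _ := by rw [ex]; congr 1; ring
    calc 2 * (Real.exp (2 * D) * θ) ≤ Real.exp (-(8 * A)) := k1
      _ ≤ Real.exp (-(A / 100) + -(3 * A)) := Real.exp_le_exp.2 (by linarith)
      _ = Real.exp (-(A / 100)) * Real.exp (-(3 * A)) := by rw [Real.exp_add]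
      _ ≤ _ := mul_le_mul_of_nonneg_right hNK (Real.exp_pos _).le
  · -- e11
    rw [le_div_iff₀ (by norm_num : (0 : ℝ) < 2)]
    have h2 : (2 : ℝ) ≤ Real.exp A := by
      have := hE A
      linarith
    calc Real.exp (-(N : ℝ) ^ κp) * 2 ≤ Real.exp (-(N : ℝ) ^ κp) * Real.exp A := mul_le_mul_of_nonneg_left h2 (Real.exp_pos _).le
      _ = Real.exp (-(N : ℝ) ^ κp + A) := ex _ _
      _ ≤ _ := Real.exp_le_exp.2 (by linarith)
  · -- e12
    have k1 : Real.exp (-(4 * A)) ≤ Real.exp (-A) * Real.exp (-A) * (Real.exp (-A) * Real.exp (-(4 * D)) / 12) / 6 := by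
      rw [le_div_iff₀ (by norm_num : (0 : ℝ) < 6)]
      have h3 : (6 : ℝ) ≤ Real.exp (A / 2) := by
        have := hE (A / 2)
        linarith
      calc Real.exp (-(4 * A)) * 6 ≤ Real.exp (-(4 * A)) * Real.exp (A / 2) := mul_le_mul_of_nonneg_left h3 (Real.exp_pos _).le
        _ = Real.exp (-(4 * A) + A / 2) := ex _ _
        _ ≤ Real.exp (-A + -A + -(A + A / 100 * 6)) := Real.exp_le_exp.2 (by linarith)
        _ = Real.exp (-A) * Real.exp (-A) * Real.exp (-(A + A / 100 * 6)) := by rw [Real.exp_add, Real.exp_add]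
        _ ≤ _ := mul_le_mul_of_nonneg_left hqd (mul_nonneg (Real.exp_pos _).le (Real.exp_pos _).le)
    exact le_trans (Real.exp_le_exp.2 (by linarith)) k1

end

end Pool.W7d29a1.C0.Bd73
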