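import Pool.Agent.W_7d29a1_C0.GSR65

/-!
MP_7d29a1_pr, [C0], G4 (helper65): THE STAR OF `V_j V_k` AT EVERY WEIGHT, ANY KERNELS; THE ENVELOPE OF `V_k`; THE MODEL.

`RowP w P ..`: the conditions of one row at a weight of the class `AxP P`. `gm_UUK_HB`, `gm_UUK_HBS`: `G[h U_j V_k]` (`U_j` = the pathwise
functional of the row `j` with any kernel `K`, e.g. a class times the indicator of boxes) as the value of the plan `gsP` (different blocks
`B'`) and of `gsS` (the same `B'`), `h` a function which does not look inside of the blocks. `HB_le_NMP`: `V_k ≤ 2 M² EE[NMP]` at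
every weight of the class. `Pof b I`: the rows off the open windows of `I`; `AxP_model`: the log weights of any environment plus kicks
of the windows of `I` plus site fields are in the class of `Pof b I`; `RowP_model`: the conditions of the row `k` at these weights.
-/

set_option autoImplicit false
set_option linter.unusedSectionVars false

namespace Pool.Agent.W_7d29a1_C0.GS65

open Finset MeasureTheory Pool.Agent.W_7d29a1_F Pool.Agent.W_7d29a1_X Pool.Agent.W_7d29a1_C0.Mod92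
open Pool.Agent.W_7d29a1_C0.Swap57 Pool.Agent.W_7d29a1_C0.E4T32
open Pool.W7d29a1.C0 (gz gm lse gz_pos gz_ne gm_nonneg gm_mono)
open Pool.W7d29a1.C0.VT31
open Pool.W7d29a1.C0.I52

noncomputable section

variable {μ : Measure ℝ} {s : ℝ} {N : ℕ} {Q : Finset (Finset ℕ)} [SwQ Q] [Nonempty (Px Q)]

/-! ### The conditions of one row -/

/-- The conditions of one row (block `B' = [c1, d1)`, `B = [c2, d2)`, window `[al, be]`) at a weight of the class `AxP P`. -/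
structure RowP (P : ℕ → Prop) (w : Px Q → ℝ) (c1 d1 c2 d2 al be : ℕ) (g : Px Q → ℝ) : Prop where
  h1 : c1 ≤ c2
  h2 : c2 ≤ al
  hab : al ≤ be
  h2' : be ≤ d2
  h3 : d2 ≤ d1
  p1 : P c1
  q1 : P d1
  p2 : P c2
  q2 : P d2
  ax : AxP P w
  lk : Lk al be g

section Row

variable {P : ℕ → Prop} {w : Px Q → ℝ} {c1 d1 c2 d2 al be k1 l1 k2 l2 al' be' : ℕ} {g g' : Px Q → ℝ} {K K' : Px Q → Px Q → ℝ}

theorem RowP.w1 (r : RowP P w c1 d1 c2 d2 al be g) : Wk c1 c1 d1 d1 w :=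
  AxP.Wk_end (r.h1.trans (r.h2.trans (r.hab.trans (r.h2'.trans r.h3)))) r.p1 r.q1 r.ax

theorem RowP.w2 (r : RowP P w c1 d1 c2 d2 al be g) : Wk c2 c2 d2 d2 w :=
  AxP.Wk_end (r.h2.trans (r.hab.trans r.h2')) r.p2 r.q2 r.ax

/-- The conditional mean against a function which does not look inside of `B'`. -/
theorem RowP.gm_h (r : RowP P w c1 d1 c2 d2 al be g) {h : Px Q → ℝ} (hh : Mp (pJ c1 d1) h) :
    gm w (h * HB w c1 d1 c2 d2 g) = gm w (h * UUK w c1 d1 c2 d2 (NMP P c2 al be d2) g) :=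
  gm_HB_h r.h1 r.h3 r.hab r.ax r.lk hh

theorem RowP.HB_Lk (r : RowP P w c1 d1 c2 d2 al be g) : Lk c1 d1 (HB w c1 d1 c2 d2 g) :=
  E4T32.HB_Lk r.h1 (r.h2.trans (r.hab.trans r.h2')) r.h3 r.w1 r.w2 (Lk_mono r.h2 r.h2' r.lk)

/-- `V_k` does not look inside of another block `B'`. -/
theorem RowP.HB_Mp (r : RowP P w c1 d1 c2 d2 al be g) (hd : d1 ≤ k1 ∨ l1 ≤ c1) : Mp (pJ k1 l1) (HB w c1 d1 c2 d2 g) :=
  Lk_Mp hd r.HB_Lk

omit [SwQ Q] in
/-- `V_k` does not look inside of its own block `B'`. -/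
theorem HB_Mp_self (w : Px Q → ℝ) (c1 d1 c2 d2 : ℕ) (g : Px Q → ℝ) : Mp (pJ c1 d1) (HB w c1 d1 c2 d2 g) := by
  unfold HB cV cC
  intro S S' h
  simp only [Pi.sub_apply, Pi.mul_apply]
  rw [cE_meas w (pJ c1 d1) _ S S' h, cE_meas w (pJ c1 d1) (cE w (pJ c2 d2) g) S S' h]

theorem DDK_Lk (h1 : c1 ≤ al) (hab : al ≤ be) (h3 : be ≤ d1) (hw1 : Wk c1 c1 d1 d1 w) (hg : Lk al be g) (hK : KOk c1 d1 K) :
    Lk c1 d1 (DDK w c1 d1 K g) := by
  have hc : c1 ≤ d1 := h1.trans (hab.trans h3)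
  intro S S' h
  unfold DDK
  have e1 : (fun y => K S y * (g S - g y)) = fun y => K S' y * (g S' - g y) := by
    funext y
    have a0 : K S y = K S' y := hK.l1 y S S' h
    rw [a0, Lk_mono h1 h3 hg S S' h]
  rw [e1]
  have hK2 : Lk c1 d1 fun y => K S' y * (g S' - g y) := by
    intro T T' hT
    have a1 : K S' T = K S' T' := hK.l2 S' T T' hT
    have a2 := Lk_mono h1 h3 hg T T' hT
    show K S' T * (g S' - g T) = K S' T' * (g S' - g T')
    rw [a1, a2]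
  exact Lk_cE hc hw1 hK2 S S' h

theorem RowP.UUK_Lk (r : RowP P w c1 d1 c2 d2 al be g) (hK : KOk c1 d1 K) : Lk c1 d1 (UUK w c1 d1 c2 d2 K g) :=
  Lk_mul (Lk_mono r.h1 r.h3 (Lk_cE (r.h2.trans (r.hab.trans r.h2')) r.w2 (Lk_mono r.h2 r.h2' r.lk)))
    (DDK_Lk (r.h1.trans r.h2) r.hab (r.h2'.trans r.h3) r.w1 r.lk hK)

/-! ### Two rows -/

/-- **Two rows in different blocks `B'`**: any kernel for the first row. -/
theorem gm_UUK_HB' (r : RowP P w c1 d1 c2 d2 al be g) (r' : RowP P w k1 l1 k2 l2 al' be' g') (hd : d1 ≤ k1 ∨ l1 ≤ c1)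
    (hK : KOk c1 d1 K) {h : Px Q → ℝ} (hh : Mp (pJ k1 l1) h) :
    gm w (h * (UUK w c1 d1 c2 d2 K g * HB w k1 l1 k2 l2 g')) =
      gm w (h * (UUK w c1 d1 c2 d2 K g * UUK w k1 l1 k2 l2 (NMP P k2 al' be' l2) g')) := by
  have e1 : Mp (pJ k1 l1) (h * UUK w c1 d1 c2 d2 K g) := by
    have a := Lk_Mp (c := k1) (d := l1) hd (r.UUK_Lk hK)
    intro S S' e
    rw [Pi.mul_apply, Pi.mul_apply, hh S S' e, a S S' e]
  rw [← mul_assoc, ← mul_assoc]
  exact r'.gm_h e1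

/-- The integrand of the plan `gsP`, with kernels. -/
def gsPsiK (K K' : Px Q → Px Q → ℝ) (g g' : Px Q → ℝ) (x : Fin 5 → Px Q) : ℝ :=
  g' (x 0) * (K' (x 4) (x 1) * (g' (x 4) - g' (x 1))) * (g (x 2) * (K (x 4) (x 3) * (g (x 4) - g (x 3))))

omit [SwQ Q] in
/-- **The value of the plan `gsP`**, every weight, every kernel. -/
theorem ev_gsPK (c1 d1 c2 d2 k1 l1 k2 l2 : ℕ) (w : Px Q → ℝ) (K K' : Px Q → Px Q → ℝ) (g g' h : Px Q → ℝ) :
    ev (gsP Q c1 d1 c2 d2 k1 l1 k2 l2) w (fun x => gsPsiK K K' g g' x * h (x 4)) =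
      gm w (h * (UUK w c1 d1 c2 d2 K g * UUK w k1 l1 k2 l2 K' g')) := by
  have e := ev_starP (Y := Finset ℕ × ℕ) ![pJ k2 l2, pJ k1 l1, pJ c2 d2, pJ c1 d1] w h
    ![fun _ z => g' z, fun x y => K' x y * (g' x - g' y), fun _ z => g z, fun x y => K x y * (g x - g y)]
  have e1 : (fun x : Fin 5 → Px Q => gsPsiK K K' g g' x * h (x 4)) = fun x : Fin 5 → Px Q =>
      (∏ i : Fin 4, (![fun _ z => g' z, fun x y => K' x y * (g' x - g' y), fun _ z => g z,
        fun x y => K x y * (g x - g y)] : Fin 4 → Px Q → Px Q → ℝ) i (x (Fin.last 4)) (x i.castSucc)) *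
        h (x (Fin.last 4)) := by
    funext x
    rw [Fin.prod_univ_four]
    show g' (x 0) * (K' (x 4) (x 1) * (g' (x 4) - g' (x 1))) * (g (x 2) * (K (x 4) (x 3) * (g (x 4) - g (x 3)))) * h (x 4) =
      g' (x 0) * (K' (x 4) (x 1) * (g' (x 4) - g' (x 1))) * g (x 2) * (K (x 4) (x 3) * (g (x 4) - g (x 3))) * h (x 4)
    ring
  rw [e1]
  refine e.trans ?_
  congr 1
  funext x
  rw [Fin.prod_univ_four]
  show cE w (pJ k2 l2) g' x * cE w (pJ k1 l1) (fun y => K' x y * (g' x - g' y)) x * cE w (pJ c2 d2) g x *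
    cE w (pJ c1 d1) (fun y => K x y * (g x - g y)) x * h x =
    h x * ((cE w (pJ c2 d2) g x * DDK w c1 d1 K g x) * (cE w (pJ k2 l2) g' x * DDK w k1 l1 K' g' x))
  unfold DDK
  ring

/-- **`G[h U_j V_k]` as the value of the plan `gsP`**, every weight of the class. -/
theorem gm_UUK_HB (r : RowP P w c1 d1 c2 d2 al be g) (r' : RowP P w k1 l1 k2 l2 al' be' g') (hd : d1 ≤ k1 ∨ l1 ≤ c1)
    (hK : KOk c1 d1 K) {h : Px Q → ℝ} (hh : Mp (pJ k1 l1) h) :
    gm w (h * (UUK w c1 d1 c2 d2 K g * HB w k1 l1 k2 l2 g')) =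
      ev (gsP Q c1 d1 c2 d2 k1 l1 k2 l2) w (fun x => gsPsiK K (NMP P k2 al' be' l2) g g' x * h (x 4)) := by
  rw [ev_gsPK, gm_UUK_HB' r r' hd hK hh]

/-- **Two rows in the same block `B'`**: any kernel for the first row. -/
theorem gm_UUK_HBS' (r' : RowP P w c1 d1 k2 l2 al' be' g') (U h : Px Q → ℝ) :
    gm w (h * (U * HB w c1 d1 k2 l2 g')) = gm w (h * (U * cE w (pJ c1 d1) (UUK w c1 d1 k2 l2 (NMP P k2 al' be' l2) g'))) := by
  rw [HB_eqP r'.h1 r'.h3 r'.hab r'.ax r'.lk]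

/-- The integrand of the plan `gsS`, with kernels. -/
def gsSPsiK (K K' : Px Q → Px Q → ℝ) (g g' : Px Q → ℝ) (x : Fin 6 → Px Q) : ℝ :=
  g' (x 0) * (K' (x 4) (x 1) * (g' (x 4) - g' (x 1))) * (g (x 2) * (K (x 5) (x 3) * (g (x 5) - g (x 3))))

omit [SwQ Q] in
/-- **The value of the plan `gsS`**, every weight, every kernel. -/
theorem ev_gsSK (c1 d1 c2 d2 k2 l2 : ℕ) (w : Px Q → ℝ) (K K' : Px Q → Px Q → ℝ) (g g' h : Px Q → ℝ) :
    ev (gsS Q c1 d1 c2 d2 k2 l2) w (fun x => gsSPsiK K K' g g' x * h (x 5)) =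
      gm w (h * (UUK w c1 d1 c2 d2 K g * cE w (pJ c1 d1) (UUK w c1 d1 k2 l2 K' g'))) := by
  unfold gsS
  rw [ev_gi, ev_gi, ev_gi, ev_gi, ev_gi, ev_fr, ev_nil]
  congr 1
  funext x
  have e1 : ∀ (b c d e : Px Q), cE w (pJ k2 l2) (fun a => (fun x : Fin 6 → Px Q => gsSPsiK K K' g g' x * h (x 5))
      (Fin.cons a (Fin.cons b (Fin.cons c (Fin.cons d (Fin.cons e (Fin.cons x Fin.elim0))))))) e =
      (K' e b * (g' e - g' b)) * ((g c * (K x d * (g x - g d))) * (cE w (pJ k2 l2) g' e * h x)) := by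
    intro b c d e
    have e0 : (fun a => (fun x : Fin 6 → Px Q => gsSPsiK K K' g g' x * h (x 5))
        (Fin.cons a (Fin.cons b (Fin.cons c (Fin.cons d (Fin.cons e (Fin.cons x Fin.elim0))))))) = fun a => g' a *
        ((K' e b * (g' e - g' b)) * (g c * (K x d * (g x - g d))) * h x) := by
      funext a
      show g' a * (K' e b * (g' e - g' b)) * (g c * (K x d * (g x - g d))) * h x = _
      ring
    rw [e0, cE_mul_const]
    ring
  have e2 : ∀ (c d e : Px Q), cE w (pJ c1 d1) (fun b => (K' e b * (g' e - g' b)) *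
      ((g c * (K x d * (g x - g d))) * (cE w (pJ k2 l2) g' e * h x))) e =
      g c * ((K x d * (g x - g d)) * (UUK w c1 d1 k2 l2 K' g' e * h x)) := by
    intro c d e
    rw [cE_mul_const]
    unfold UUK DDK
    ring
  have e3 : ∀ (d e : Px Q), cE w (pJ c2 d2) (fun c => g c * ((K x d * (g x - g d)) * (UUK w c1 d1 k2 l2 K' g' e * h x))) x =
      (K x d * (g x - g d)) * (UUK w c1 d1 k2 l2 K' g' e * (cE w (pJ c2 d2) g x * h x)) := by
    intro d e
    rw [cE_mul_const]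
    ring
  have e4 : ∀ e : Px Q, cE w (pJ c1 d1) (fun d => (K x d * (g x - g d)) *
      (UUK w c1 d1 k2 l2 K' g' e * (cE w (pJ c2 d2) g x * h x))) x =
      UUK w c1 d1 k2 l2 K' g' e * (UUK w c1 d1 c2 d2 K g x * h x) := by
    intro e
    rw [cE_mul_const]
    show DDK w c1 d1 K g x * _ = _
    unfold UUK
    ring
  have f1 : ∀ c d e : Px Q, cE w (pJ c1 d1) (fun b =>
      cE w (pJ k2 l2) (fun a => (fun x : Fin 6 → Px Q => gsSPsiK K K' g g' x * h (x 5))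
        (Fin.cons a (Fin.cons b (Fin.cons c (Fin.cons d (Fin.cons e (Fin.cons x Fin.elim0))))))) e) e =
      g c * ((K x d * (g x - g d)) * (UUK w c1 d1 k2 l2 K' g' e * h x)) := fun c d e => by
    rw [← e2 c d e]
    exact congrArg (fun f => cE w (pJ c1 d1) f e) (funext fun b => e1 b c d e)
  have f2 : ∀ d e : Px Q, cE w (pJ c2 d2) (fun c => cE w (pJ c1 d1) (fun b =>
      cE w (pJ k2 l2) (fun a => (fun x : Fin 6 → Px Q => gsSPsiK K K' g g' x * h (x 5))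
        (Fin.cons a (Fin.cons b (Fin.cons c (Fin.cons d (Fin.cons e (Fin.cons x Fin.elim0))))))) e) e) x =
      (K x d * (g x - g d)) * (UUK w c1 d1 k2 l2 K' g' e * (cE w (pJ c2 d2) g x * h x)) := fun d e => by
    rw [← e3 d e]
    exact congrArg (fun f => cE w (pJ c2 d2) f x) (funext fun c => f1 c d e)
  have f3 : ∀ e : Px Q, cE w (pJ c1 d1) (fun d => cE w (pJ c2 d2) (fun c => cE w (pJ c1 d1) (fun b =>
      cE w (pJ k2 l2) (fun a => (fun x : Fin 6 → Px Q => gsSPsiK K K' g g' x * h (x 5))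
        (Fin.cons a (Fin.cons b (Fin.cons c (Fin.cons d (Fin.cons e (Fin.cons x Fin.elim0))))))) e) e) x) x =
      UUK w c1 d1 k2 l2 K' g' e * (UUK w c1 d1 c2 d2 K g x * h x) := fun e => by
    rw [← e4 e]
    exact congrArg (fun f => cE w (pJ c1 d1) f x) (funext fun d => f2 d e)
  have f4 := congrArg (fun f => cE w (pJ c1 d1) f x) (funext fun e => f3 e)
  refine f4.trans ?_
  show cE w (pJ c1 d1) (fun e => UUK w c1 d1 k2 l2 K' g' e * (UUK w c1 d1 c2 d2 K g x * h x)) x =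
    h x * (UUK w c1 d1 c2 d2 K g x * cE w (pJ c1 d1) (UUK w c1 d1 k2 l2 K' g') x)
  rw [cE_mul_const]
  ring

/-- **`G[h U_j V_k]` as the value of the plan `gsS`** (the same `B'`), every weight of the class. -/
theorem gm_UUK_HBS (r' : RowP P w c1 d1 k2 l2 al' be' g') (c2 d2 : ℕ) (K : Px Q → Px Q → ℝ) (g h : Px Q → ℝ) :
    gm w (h * (UUK w c1 d1 c2 d2 K g * HB w c1 d1 k2 l2 g')) =
      ev (gsS Q c1 d1 c2 d2 k2 l2) w (fun x => gsSPsiK K (NMP P k2 al' be' l2) g g' x * h (x 5)) := by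
  rw [ev_gsSK, gm_UUK_HBS' r']

/-! ### Sizes -/

omit [SwQ Q] [Nonempty (Px Q)] in
theorem abs_gsPsiK_le {M : ℝ} (hM : ∀ S, |g S| ≤ M) (hM' : ∀ S, |g' S| ≤ M) (hK : ∀ x y, 0 ≤ K x y) (hK' : ∀ x y, 0 ≤ K' x y)
    (x : Fin 5 → Px Q) : |gsPsiK K K' g g' x| ≤ 4 * M ^ 4 * (K' (x 4) (x 1) * K (x 4) (x 3)) := by
  have h1 := abs_psi3_le hM hK ![x 2, x 3, x 4]
  have h2 := abs_psi3_le hM' hK' ![x 0, x 1, x 4]
  have e : gsPsiK K K' g g' x = psi3 K' g' ![x 0, x 1, x 4] * psi3 K g ![x 2, x 3, x 4] := rfl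
  rw [e, abs_mul]
  refine (mul_le_mul h2 h1 (abs_nonneg _) (mul_nonneg (by positivity) (hK' _ _))).trans (le_of_eq ?_)
  show 2 * M ^ 2 * K' (x 4) (x 1) * (2 * M ^ 2 * K (x 4) (x 3)) = _
  ring

omit [SwQ Q] [Nonempty (Px Q)] in
theorem abs_gsSPsiK_le {M : ℝ} (hM : ∀ S, |g S| ≤ M) (hM' : ∀ S, |g' S| ≤ M) (hK : ∀ x y, 0 ≤ K x y) (hK' : ∀ x y, 0 ≤ K' x y)
    (x : Fin 6 → Px Q) : |gsSPsiK K K' g g' x| ≤ 4 * M ^ 4 * (K' (x 4) (x 1) * K (x 5) (x 3)) := by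
  have h1 := abs_psi3_le hM hK ![x 2, x 3, x 5]
  have h2 := abs_psi3_le hM' hK' ![x 0, x 1, x 4]
  have e : gsSPsiK K K' g g' x = psi3 K' g' ![x 0, x 1, x 4] * psi3 K g ![x 2, x 3, x 5] := rfl
  rw [e, abs_mul]
  refine (mul_le_mul h2 h1 (abs_nonneg _) (mul_nonneg (by positivity) (hK' _ _))).trans (le_of_eq ?_)
  show 2 * M ^ 2 * K' (x 4) (x 1) * (2 * M ^ 2 * K (x 5) (x 3)) = _
  ring

/-! ### The envelope of `V_k` -/

/-- The swap identity at a weight of the class. -/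
theorem swapIdP {c d : ℕ} (hab : al ≤ be) (hw : AxP P w) : SwapId w (pJ c d) (NMP P c al be d) (Lk al be) := by
  intro g hg x x'
  rw [cE_sub_eq]
  have h := cE2_NMP (P := P) (c1 := c) (d1 := d) le_rfl le_rfl hab hw hg (fun _ _ => 1) (fun _ _ _ _ _ _ _ _ _ _ _ _ => rfl) x x'
  simp only [one_mul] at h
  exact h.symm

theorem dif_cEP {c d : ℕ} (hab : al ≤ be) (hw : AxP P w) (hg : Lk al be g) {L : ℝ} (hL : ∀ S S', |g S - g S'| ≤ L) :
    Dif w (pJ c d) (NMP P c al be d) L (cE w (pJ c d) g) := by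
  intro x x'
  rw [swapIdP hab hw g hg x x']
  refine (abs_cE2_le w _ _ x x').trans ?_
  rw [← cE2_mul]
  refine cE2_mono w _ (fun S S' => ?_) x x'
  rw [abs_mul, abs_of_nonneg (NMP_nonneg S S'), mul_comm]
  exact mul_le_mul_of_nonneg_right (hL S S') (NMP_nonneg S S')

/-- **The envelope**, at every weight of the class. -/
theorem RowP.HB_le (r : RowP P w c1 d1 c2 d2 al be g) {M : ℝ} (hM : ∀ S, |g S| ≤ M) (S : Px Q) :
    HB w c1 d1 c2 d2 g S ≤ 2 * M ^ 2 * cE2 w (pJ c1 d1) (NMP P c2 al be d2) S S := by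
  have hd : Dif w (pJ c2 d2) (NMP P c2 al be d2) (2 * M) (cE w (pJ c2 d2) g) := dif_cEP r.hab r.ax r.lk fun S S' => by
    have a := abs_le.1 (hM S)
    have b := abs_le.1 (hM S')
    rw [abs_le]
    constructor <;> linarith [a.1, a.2, b.1, b.2]
  have h4 := hd.cV_le (crs_pJ r.h1 r.h3) (fun z z' => NMP_nonneg z z') (fun z z' => NMP_le_one z z') S
  calc HB w c1 d1 c2 d2 g S ≤ (2 * M) ^ 2 / 2 * cE2 w (pJ c1 d1) (NMP P c2 al be d2) S S := h4
    _ = _ := by ring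

end Row

/-! ### The outer kernel -/

section Outer

variable {X : Type*} [Fintype X] [DecidableEq X] [Nonempty X]

/-- An outer free replica in front of a plan. -/
theorem ev_fr_outer {m : ℕ} (P : Plan X m) (i : Fin m) (w : X → ℝ) (Ko : X → X → ℝ) (Ψ : (Fin m → X) → ℝ) :
    ev P.fr w (fun x => Ko (Fin.tail x i) (x 0) * Ψ (Fin.tail x)) = ev P w fun x => gm w (Ko (x i)) * Ψ x := by
  rw [ev_fr]
  refine ev_congr P w fun x => ?_
  simp only [Fin.tail_cons, Fin.cons_zero]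
  rw [gm_eq_av, gm_eq_av, mul_comm, ← av_smul]
  congr 1
  funext s
  ring

omit [DecidableEq X] in
theorem gm2_outer (w : X → ℝ) (Ko : X → X → ℝ) (F : X → ℝ) :
    gm2 w (fun y z => Ko y z * F y) = gm w ((fun y => gm w (Ko y)) * F) := by
  unfold gm2
  congr 1
  funext y
  rw [Pi.mul_apply, mul_comm, ← gm_unit w (Ko y) y, ← gm_unit w (fun z => Ko y z * F y) y]
  have h := congrFun (cE_smul w (fun _ : X => ()) (F y) (Ko y)) y
  rw [Pi.smul_apply, smul_eq_mul] at h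
  rw [← h]
  congr 1
  funext z
  rw [Pi.smul_apply, smul_eq_mul]
  ring

omit [DecidableEq X] in
theorem outer_Mp {Y : Type*} [DecidableEq Y] {p : X → Y} (w : X → ℝ) {Ko : X → X → ℝ} (hK : ∀ z, Mp p fun y => Ko y z) :
    Mp p fun y => gm w (Ko y) := by
  intro S S' h
  have e : Ko S = Ko S' := funext fun z => hK z S S' h
  show gm w (Ko S) = gm w (Ko S')
  rw [e]

end Outer

/-- **`G2[Ko (y, z) V_j D]` as the sum of the two classes**, the outer replica is the replica `0`, the base path is the replica `3`. -/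
theorem gm2_HB_classes {P : ℕ → Prop} {w : Px Q → ℝ} {c1 d1 c2 d2 al be : ℕ} {g : Px Q → ℝ}
    (r : RowP P w c1 d1 c2 d2 al be g) (hP : ∀ t, (c2 ≤ t ∧ t ≤ al) ∨ (be ≤ t ∧ t ≤ d2) → P t) {Ko : Px Q → Px Q → ℝ}
    (hKo : ∀ z, Mp (pJ c1 d1) fun y => Ko y z) {D : Px Q → ℝ} (hD : Mp (pJ c1 d1) D) :
    gm2 w (fun y z => Ko y z * (HB w c1 d1 c2 d2 g y * D y)) =
      ev (gs3 Q c1 d1 c2 d2).fr w (fun x => Ko (Fin.tail x 2) (x 0) * (psi3 (KR be d2) g (Fin.tail x) * D (Fin.tail x 2))) +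
        ev (gs3 Q c1 d1 c2 d2).fr w (fun x => Ko (Fin.tail x 2) (x 0) * (psi3 (KL c2 al be d2) g (Fin.tail x) * D (Fin.tail x 2))) := by
  have e1 := gm2_outer w Ko (fun y => HB w c1 d1 c2 d2 g y * D y)
  have hh : Mp (pJ c1 d1) ((fun y => gm w (Ko y)) * D) := by
    intro S S' h
    have a := outer_Mp w hKo S S' h
    have b := hD S S' h
    rw [Pi.mul_apply, Pi.mul_apply, b]
    exact congrArg (fun t => t * D S') a
  have e2 := gm_HB_classes r.h1 r.h3 r.hab hP r.ax r.lk hh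
  have e3 : ((fun y => gm w (Ko y)) * fun y => HB w c1 d1 c2 d2 g y * D y) =
      ((fun y => gm w (Ko y)) * D) * HB w c1 d1 c2 d2 g := by
    funext y
    simp only [Pi.mul_apply]
    ring
  have e4 : ∀ K : Px Q → Px Q → ℝ, ev (gs3 Q c1 d1 c2 d2).fr w
      (fun x => Ko (Fin.tail x 2) (x 0) * (psi3 K g (Fin.tail x) * D (Fin.tail x 2))) =
      ev (gs3 Q c1 d1 c2 d2) w (fun x => psi3 K g x * ((fun y => gm w (Ko y)) * D) (x 2)) := by
    intro K
    rw [ev_fr_outer (gs3 Q c1 d1 c2 d2) 2 w Ko fun x => psi3 K g x * D (x 2)]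
    refine ev_congr _ w fun x => ?_
    rw [Pi.mul_apply]
    ring
  rw [e1, e3, e2, e4, e4]

end

end Pool.Agent.W_7d29a1_C0.GS65
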