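import Pool.Agent.W_7d29a1_C0.GSTop96
import Pool.Agent.W_7d29a1_C0.Strip96

/-!
STORM C0 (helper96): THE STRIP OF GS at the length `2 ^ m`: the loss `Dt` is a functional of the rows of the blocks of the grid which
contain kicked rows, so `StrN` gives `StN`.
-/

set_option autoImplicit false

namespace Pool.Agent.W_7d29a1_C0.Asm96

open Finset MeasureTheory Filter Topology Pool.Agent.W_7d29a1_F Pool.Agent.W_7d29a1_X Pool.Agent.W_7d29a1_H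
open Pool.Agent.W_7d29a1_C0.Mod92 Pool.Agent.W_7d29a1_C0
open Pool.W7d29a1.C0 (gz gm lse gz_pos gz_ne gm_nonneg gm_mono gm_const)
open Pool.W7d29a1.C0.VT31
open Pool.Agent.W_7d29a1_HS (wd)
open Pool.Agent.W_7d29a1_C0.Par92 (Est Sml)
open Pool.Agent.W_7d29a1_C0.Near32 (Dt)
open Pool.Agent.W_7d29a1_C0.Swap57 (Lk)
open Pool.Agent.W_7d29a1_C0.Row96 (Ag In96)

noncomputable section

variable {μ : Measure ℝ} {s : ℝ} {F : Frm96} {E : ℕ → ℝ} {Θ δ c η ε₁ ι : ℝ} {m p p' q i : ℕ}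

/-- **The strip of GS at a fixed length.** -/
theorem st_of96 [IsProbabilityMeasure μ] {w : ℕ → ℝ} {c₀ a ε : ℝ} (R : Reg46 E w c₀ Θ δ a ε ((2 ^ m : ℕ) : ℝ)) (hΘ1 : Θ ≤ 1)
    (hη : 0 ≤ η) (hc : 0 < c) (hcδ : 64 * c ≤ δ)
    (hι : 0 < ι) (hιc : ι ≤ c / 4) (hN : 32 ≤ ((2 ^ m : ℕ) : ℝ) ^ ι) (hF : F.Ok Θ m) (hmono : Monotone E)
    (hdeep : ∀ p q : ℕ, St96 E δ c m p q → Deep (F.R m) (2 ^ p) (2 ^ sg96 E c m p))
    (hR : F.R m ⊆ Kr (2 ^ m) m (((2 ^ m : ℕ) : ℝ) ^ (-ι))) (hS : StrN μ s F E δ ι ε₁ m) : StN μ s F E Θ δ c η ε₁ m := by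
  intro p p' q i hC hi
  have hqm : q ≤ m := by
    have h1 := hC.hqm
    have h2 : 0 ≤ η * (m : ℝ) := mul_nonneg hη (Nat.cast_nonneg _)
    have h3 : (q : ℝ) ≤ m := by linarith
    exact_mod_cast h3
  have hN1 := R.N1
  have hN0 := R.N0
  have H := ch46 R hc hcδ hC hqm
  obtain ⟨g1, g2⟩ := gl_num96 R hι hιc hC hN
  have hss : sg96 E c m p ≤ sg96 E c m p' := by
    refine Nat.sInf_le ⟨hC.hpp.trans hC.hps', le_trans ?_ H.h'.s1⟩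
    exact pow_le_pow_left₀ (R.Epos _).le (hmono (Nat.pow_le_pow_right two_pos hC.hpp)) 6
  have hσ : 2 ^ (sg96 E c m p' - sg96 E c m p) * 2 ^ sg96 E c m p = 2 ^ sg96 E c m p' := by
    rw [← pow_add]
    congr 1
    omega
  have hsq' : sg96 E c m p' ≤ q := by
    have h2 := hC.hsq'
    have h3 : 0 ≤ c * (m : ℝ) := mul_nonneg hc.le (Nat.cast_nonneg _)
    have h4 : (sg96 E c m p' : ℝ) ≤ q := by linarith
    exact_mod_cast h4
  have hδq : δ * m ≤ q := hC.hp.trans (by exact_mod_cast hC.hps.trans hC.hsq)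
  have hD : Deep (F.R m) (2 ^ p) (2 ^ sg96 E c m p) := hdeep p q ⟨hC.hp, hC.hps, hC.hsq, hqm, hC.low, hC.upp⟩
  obtain ⟨al, hal⟩ : ∃ al, al = i * 2 ^ q + gl96 ι m q := ⟨_, rfl⟩
  obtain ⟨be, hbe⟩ : ∃ be, be = (i + 1) * 2 ^ q - gl96 ι m q := ⟨_, rfl⟩
  have hI : In96 (F.R m) (2 ^ sg96 E c m p') (i * 2 ^ q) ((i + 1) * 2 ^ q) al be := hal ▸ hbe ▸ in96 hR hqm (by positivity) g1
  have hcd : i * 2 ^ q ≤ (i + 1) * 2 ^ q := Nat.mul_le_mul_right _ (Nat.le_succ i)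
  have hB0 : 0 ≤ F.B m := zero_le_one.trans hF.hB
  -- the size of the loss
  obtain ⟨M, hM⟩ : ∃ M : ℝ, M = ((Rw (F.R m) (i * 2 ^ q) ((i + 1) * 2 ^ q)).card : ℝ) * ((F.B m / 2) ^ 2 / 3) := ⟨_, rfl⟩
  have hM0 : 0 ≤ M := by
    rw [hM]
    positivity
  have hM2 : M ≤ ((2 ^ m : ℕ) : ℝ) ^ 2 := by
    have h1 : ((Rw (F.R m) (i * 2 ^ q) ((i + 1) * 2 ^ q)).card : ℝ) ≤ ((2 ^ m : ℕ) : ℝ) := by
      have h2 : (Rw (F.R m) (i * 2 ^ q) ((i + 1) * 2 ^ q)).card ≤ 2 ^ m := by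
        have h3 := card_le_card ((inter_subset_left : Rw (F.R m) (i * 2 ^ q) ((i + 1) * 2 ^ q) ⊆ F.R m).trans hF.hR)
        rwa [card_range] at h3
      exact_mod_cast h2
    have h2 : F.B m ^ 2 ≤ ((2 ^ m : ℕ) : ℝ) := by
      calc F.B m ^ 2 ≤ (((2 ^ m : ℕ) : ℝ) ^ (Θ / 16)) ^ 2 := pow_le_pow_left₀ hB0 hF.hB' 2
        _ = ((2 ^ m : ℕ) : ℝ) ^ (Θ / 8) := by
            rw [← Real.rpow_natCast, ← Real.rpow_mul hN0.le]
            congr 1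
            push_cast
            ring
        _ ≤ ((2 ^ m : ℕ) : ℝ) ^ (1 : ℝ) := Real.rpow_le_rpow_of_exponent_le hN1.le (by linarith)
        _ = _ := Real.rpow_one _
    have h3 : (F.B m / 2) ^ 2 / 3 ≤ ((2 ^ m : ℕ) : ℝ) := by nlinarith [sq_nonneg (F.B m)]
    have h4 := mul_le_mul h1 h3 (by positivity) hN0.le
    rw [← hM] at h4
    linarith [h4, sq (((2 ^ m : ℕ) : ℝ))]
  have hmσ : 0 < 2 ^ (sg96 E c m p' - sg96 E c m p) := by positivity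
  have hσ0 : 0 < 2 ^ sg96 E c m p := by positivity
  have hc' : 2 ^ (sg96 E c m p' - sg96 E c m p) * 2 ^ sg96 E c m p ∣ i * 2 ^ q := hσ ▸ dvd96 hsq' i
  have hd' : 2 ^ (sg96 E c m p' - sg96 E c m p) * 2 ^ sg96 E c m p ∣ (i + 1) * 2 ^ q := hσ ▸ dvd96 hsq' (i + 1)
  have g4 := gl_le96 hN1.le hι.le (q := q)
  have g5 : (i + 1) * 2 ^ q = i * 2 ^ q + 2 ^ q := by ring
  exact strip96 hF hS hδq hqm hi (al := al) (be := be) (by omega) (by omega) (by omega)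
    (fun y ω => Dt μ s (F.L m) (Pn (F.L m) y) F.dl (F.B m) (2 ^ p) (2 ^ sg96 E c m p) (2 ^ (sg96 E c m p' - sg96 E c m p)) (F.R m)
      (i * 2 ^ q) ((i + 1) * 2 ^ q) ω)
    (fun y S => Near32.meas_Dt F.dl (F.B m) (2 ^ p) hσ0 hmσ (F.R m) hcd hc' hd' S) hM0
    (hM2.trans (pow_le_pow_right₀ hN1.le (by norm_num)))
    (fun y hy ω S => by
      have := ne_Pn (hF.hy y hy)
      rw [hM]
      exact Near32.abs_Dt hB0 (2 ^ p) hσ0 hmσ (F.R m) hcd hc' hd' ω S)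
    (fun y hy ω => by
      have := ne_Pn (hF.hy y hy)
      exact Row96.Dt_Lk F.dl (F.B m) hσ0 hmσ hD hcd hc' hd' (by rw [hσ]; exact hI) ω)
    (fun y hy η η' A h => by
      have := ne_Pn (hF.hy y hy)
      exact Row96.Dt_rows F.dl (F.B m) hσ0 hmσ hD hcd hc' hd' (by rw [hσ]; exact hI) A h)

end

end Pool.Agent.W_7d29a1_C0.Asm96
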