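import Pool.Agent.W_7d29a1_C0.GST73

/-!
CURV0 (MP_7d29a1_pr), GS one kick: THE BAD FUNCTIONAL, FROM THE LAW FORMS AND THE PRICES. `rb_fix73`: at fixed numbers, both weights:
`RBw ≤ 16 A2 + 4 A1 + Cg A3 + errors`; `num_same73`, `num_far73`: the numbers under `Ph65`. (helper73)
-/

set_option autoImplicit false
set_option linter.unusedSectionVars false
set_option linter.unusedVariables false

namespace Pool.W7d29a1.C0.Bd73

open Finset MeasureTheory Pool.Agent.W_7d29a1_F Pool.Agent.W_7d29a1_X Pool.W7d29a1.C0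
open Pool.W7d29a1.C0 (gz gm gm_nonneg gm_mono gm_const)
open Pool.W7d29a1.C0.VT31
open Pool.Agent.W_7d29a1_H (sl)
open Pool.Agent.W_7d29a1_HZ (wd')
open Pool.Agent.W_7d29a1_C0 Pool.Agent.W_7d29a1_C0.Mod92
open Pool.W7d29a1.C0.GSG52 (RBw)
open Pool.Agent.W_7d29a1_C0.GwA50 (GwW)
open Pool.Agent.W_7d29a1_C0.Far34 (nfl)

noncomputable section

variable {μ : Measure ℝ} {s : ℝ} {N : ℕ} {δ B : ℝ} {b σ m j k e : ℕ} {γ ε c₁ A K κp θ R : ℝ} {v : ℕ → ℝ}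

/-- **THE BAD FUNCTIONAL, FROM THE LAW FORMS AND THE PRICES.** -/
theorem rb_fix73 [IsProbabilityMeasure μ] (G : Geo73 N b σ m j k e) (hB : 0 ≤ B) (V : LvW N A B B K κp ε c₁ θ) (F : Flt73 b R v)
    {κ δ₁ : ℝ} (hκ : (N : ℝ) ^ κ ≤ b) (hcn : v (2 * b) ≤ ((2 * b : ℕ) : ℝ) ^ δ₁ * wd' μ s (2 * b)) (r fl : Bool)
    {ys : Finset ℕ} (hne : ys.Nonempty) (hys : ∀ y ∈ ys, y ≤ N) {ep : ℝ} (hep : 0 ≤ ep)
    (hΩ : ∀ y ∈ ys, law μ {η | θ < gm (lw μ s η N (Pn N y)) (nfl N (sl μ s) v)} ≤ ENNReal.ofReal ep)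
    (hΩ' : law μ {η | ¬ GwW μ s N κ δ δ₁ ε c₁ η} ≤ ENNReal.ofReal ep) {eL : ℝ} (heL : 0 ≤ eL)
    (lT : IFT μ s N ys δ B b σ m j k (z73 b j e r) r true V.q1 (Real.exp (-A)) ≤
      IFT μ s N ys δ B b σ m j k (z73 b j e r) r false (V.q1 / 2) (Real.exp (-A) / 2) + eL)
    (lI : ∀ i i' : ℕ, i' ≤ j - b ∨ j + b ≤ i → IF2 μ s N ys δ B b σ m j k (z73 b j e r) r true i i' V.ρ₁ ≤
      IF2 μ s N ys δ B b σ m j k (z73 b j e r) r false i i' (V.ρ₁ / 2) + eL)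
    {Cg : ℝ} (hCg : 1 ≤ Cg)
    (lE : IG3 μ s N ys δ B b σ m j k true (min (m73 b j r) (z73 b j e r)) (max (m73 b j r) (z73 b j e r)) (Real.exp (-A) / 3) ≤
      Cg * IG3 μ s N ys δ B b σ m j k false (min (m73 b j r) (z73 b j e r)) (max (m73 b j r) (z73 b j e r))
        (Real.exp (-A) / 3 / 2) + eL)
    {A1 A2 A3 : ℝ} (p1 : IF1 μ s N ys δ B b σ m j k (z73 b j e r) r false (j - b) j V.M ≤ A1)
    (p1' : IF1 μ s N ys δ B b σ m j k (z73 b j e r) r false j (j + b) V.M ≤ A1)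
    (p2 : ∀ (i : ℕ) (ρ : ℝ), a73 b j r ≤ i → i + (b / 7 + 1) ≤ a73 b j r + 8 * (b / 7 + 1) → V.ρ₁ / 2 ≤ ρ →
      IF2 μ s N ys δ B b σ m j k (z73 b j e r) r false i (i + (b / 7 + 1)) ρ ≤ A2)
    (h3 : 0 ≤ A3) (p3 : ∀ q : ℝ, Real.exp (-A) / 3 / 2 ≤ q →
      IG3 μ s N ys δ B b σ m j k false (min (m73 b j r) (z73 b j e r)) (max (m73 b j r) (z73 b j e r)) q ≤ A3) :
    RBw μ s N ys δ B b σ m j k R A r fl ≤ 16 * A2 + 4 * A1 + Cg * A3 + (19 * eL + 8 * (N : ℝ) ^ (-K) + (((N : ℝ) + 1) ^ 2 + 4) * ep) := by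
  have g1 := G.j1
  have g2 := G.j2
  have hb := G.hb
  have hbe := G.hbe
  have hN : 1 ≤ N := by
    have := G.jN
    obtain ⟨s1, s2⟩ := blk_sub73 G.hσ G.hm j
    omega
  have hq1 := V.q1_pos hN
  have hq3 := V.q3_pos
  have hρ := V.hρ₁
  have k1 := rbw73 (μ := μ) (s := s) (δ := δ) G hB V F r fl hne hys hep hΩ
  have k2 : ∀ {q1 δ' : ℝ}, V.q1 / 2 ≤ q1 → Real.exp (-A) / 2 ≤ δ' → IFT μ s N ys δ B b σ m j k (z73 b j e r) r false q1 δ' ≤
      2 * A1 + ((N : ℝ) ^ (-K) + 2 * ep) := fun {q1 δ'} h1 h2 => by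
    have h3 := ift73 (μ := μ) (s := s) (δ := δ) (κ := κ) (δ₁ := δ₁) G hB V hκ hcn r hne hys (ep := 2 * ep) (by positivity)
      (fun y hy => by
        have h4 : {η | ¬ (GwW μ s N κ δ δ₁ ε c₁ η ∧ gm (lw μ s η N (Pn N y)) (nfl N (sl μ s) v) ≤ θ)} ⊆
            {η | ¬ GwW μ s N κ δ δ₁ ε c₁ η} ∪ {η | θ < gm (lw μ s η N (Pn N y)) (nfl N (sl μ s) v)} := fun η hη => by
          by_cases h5 : GwW μ s N κ δ δ₁ ε c₁ η
          · exact Or.inr (lt_of_not_ge fun h6 => hη ⟨h5, h6⟩)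
          · exact Or.inl h5
        refine ((measure_mono h4).trans (measure_union_le _ _)).trans ((add_le_add hΩ' (hΩ y hy)).trans (le_of_eq ?_))
        rw [← ENNReal.ofReal_add hep hep, two_mul]) (q1 := q1) (δ' := δ') h1 h2
    linarith
  have e1 : ∀ t ∈ range 8, IF2 μ s N ys δ B b σ m j k (z73 b j e r) r fl (a73 b j r + t * (b / 7 + 1))
      (a73 b j r + t * (b / 7 + 1) + (b / 7 + 1)) V.ρ₁ ≤ A2 + eL := fun t ht => by
    have ht' := mem_range.1 ht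
    have h8 : a73 b j r + t * (b / 7 + 1) + (b / 7 + 1) ≤ a73 b j r + 8 * (b / 7 + 1) := by
      have : (t + 1) * (b / 7 + 1) ≤ 8 * (b / 7 + 1) := Nat.mul_le_mul_right _ (by omega)
      have e2 : (t + 1) * (b / 7 + 1) = t * (b / 7 + 1) + (b / 7 + 1) := by ring
      omega
    cases fl
    · have := p2 (a73 b j r + t * (b / 7 + 1)) V.ρ₁ (by omega) h8 (by linarith)
      linarith
    · have h1 := lI (a73 b j r + t * (b / 7 + 1)) (a73 b j r + t * (b / 7 + 1) + (b / 7 + 1)) (by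
        cases r
        · left
          have e3 : a73 b j false = j - 3 * b := rfl
          rw [e3] at h8 ⊢
          omega
        · right
          have e3 : a73 b j true = j + 2 * b := rfl
          rw [e3]
          omega)
      have h2 := p2 (a73 b j r + t * (b / 7 + 1)) (V.ρ₁ / 2) (by omega) h8 le_rfl
      linarith
  have e2 : ∑ t ∈ range 8, IF2 μ s N ys δ B b σ m j k (z73 b j e r) r fl (a73 b j r + t * (b / 7 + 1))
      (a73 b j r + t * (b / 7 + 1) + (b / 7 + 1)) V.ρ₁ ≤ 8 * (A2 + eL) := by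
    refine (sum_le_card_nsmul _ _ (A2 + eL) e1).trans (le_of_eq ?_)
    rw [card_range, nsmul_eq_mul]
    norm_num
  have e3 : IFT μ s N ys δ B b σ m j k (z73 b j e r) r fl V.q1 (Real.exp (-A)) ≤ 2 * A1 + ((N : ℝ) ^ (-K) + 2 * ep) + eL := by
    have hA := Real.exp_pos (-A)
    cases fl
    · have := k2 (q1 := V.q1) (δ' := Real.exp (-A)) (by linarith) (by linarith)
      linarith
    · have := k2 (q1 := V.q1 / 2) (δ' := Real.exp (-A) / 2) le_rfl le_rfl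
      linarith
  have e4 : IG3 μ s N ys δ B b σ m j k fl (min (m73 b j r) (z73 b j e r)) (max (m73 b j r) (z73 b j e r)) (Real.exp (-A) / 3) ≤
      Cg * A3 + eL := by
    have hA := Real.exp_pos (-A)
    cases fl
    · have := p3 (Real.exp (-A) / 3) (by linarith)
      nlinarith
    · have := p3 (Real.exp (-A) / 3 / 2) le_rfl
      nlinarith
  have hN2 : 0 ≤ ((N : ℝ) + 1) ^ 2 := by positivity
  refine k1.trans ?_
  have e5 : (((N : ℝ) + 1) ^ 2 + 4) * ep = ((N : ℝ) + 1) ^ 2 * ep + 4 * ep := by ring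
  rw [e5]
  linarith

end

end Pool.W7d29a1.C0.Bd73
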