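import Pool.Agent.W_7d29a1_C0.FlipY61
import Pool.Agent.W_7d29a1_C0.GSX61

/-!
CURV0 (MP_7d29a1_pr), GS one kick (helper61): THE LAW FORM of `IG3` (own mass of the pairs which leave a free replica apart of both).
-/

set_option autoImplicit false
set_option linter.unusedSectionVars false
set_option linter.unusedVariables false

namespace Pool.Agent.W_7d29a1_C0.GSX61

open Finset MeasureTheory Pool.Agent.W_7d29a1_F Pool.Agent.W_7d29a1_X Pool.W7d29a1.C0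
open Pool.W7d29a1.C0.VT31
open Pool.Agent.W_7d29a1_C0 Pool.Agent.W_7d29a1_C0.Swap57 Pool.Agent.W_7d29a1_C0.Mod92 Pool.Agent.W_7d29a1_C0.Near32
open Pool.Agent.W_7d29a1_C0.One32
open Pool.Agent.W_7d29a1_C0.Flip61
open Pool.W7d29a1.C0.GSE52 (Wf)
open Pool.W7d29a1.C0.Bd73

noncomputable section

variable {μ : Measure ℝ} {s : ℝ} {N b σ m j k : ℕ}

section Law

variable [IsProbabilityMeasure μ] {δ B : ℝ} {y₀ M : ℕ} {θ ε : ℝ} (g : Geo61 N b σ m j k)
  (hy : 1 ≤ y₀) (hM : 1 ≤ M) (hyN : y₀ + M ≤ N) (hE : FErr2 μ s N δ B b j y₀ M θ ε)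

include g hy hM hyN hE in
/-- **(L3').** -/
theorem ig3_61 {i i' : ℕ} (hii : i' ≤ j - b ∨ j + b ≤ i) {q : ℝ} (hq : 0 < q) :
    IG3 μ s N (Ico y₀ (y₀ + M)) δ B b σ m j k true i i' q ≤ IG3 μ s N (Ico y₀ (y₀ + M)) δ B b σ m j k false i i' (q / 2) +
      (2 / M + (3 * (4 / q + 8) * θ + 4 * ε)) :=
  law_U g.hb g.hjN' (cls := fun _ => NI i i') (NMA := fun _ => NA b σ j k) (K := fun _ => NI i i')
    (cov_NI hii 0 1) cov_NA (cov_NI hii 0 1) (fun y S S' => NI_nonneg i i' S S') (fun y S S' => NA0_61 S S')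
    g.le1 g.le2 (Nat.le_add_right _ _) g.hkN g.blk hq hy hM hyN hE

end Law

end

end Pool.Agent.W_7d29a1_C0.GSX61
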