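import Pool.Agent.W_7d29a1_C0.GSW73
import Pool.Agent.W_7d29a1_C0.E3B52

/-!
CURV0 (MP_7d29a1_pr), GS one kick: THE TOP OF THE PRICE OF THREE BRANCHES. `UP73`: the price at one end, one window, one side, for every
factor `F` which is blind on the side; **`prU73_of`**: `PrU73` of `GSW73` (averages over the ends, both factors) from it. (helper73)
-/

set_option autoImplicit false
set_option linter.unusedSectionVars false
set_option linter.unusedVariables false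

namespace Pool.W7d29a1.C0.Bd73

open Finset MeasureTheory Filter Topology Pool.Agent.W_7d29a1_F Pool.Agent.W_7d29a1_X Pool.Agent.W_7d29a1_h4g Pool.W7d29a1.C0
open Pool.W7d29a1.C0 (gm gz gm_nonneg gm_mono gm_const)
open Pool.W7d29a1.C0.VT31
open Pool.Agent.W_7d29a1_H (sl EE EE_pos EE_mono one_le_EE)
open Pool.Agent.W_7d29a1_HS (In)
open Pool.Agent.W_7d29a1_HZ (wd' EE')
open Pool.Agent.W_7d29a1_C0 Pool.Agent.W_7d29a1_C0.Mod92 Pool.Agent.W_7d29a1_C0.One32 Pool.Agent.W_7d29a1_C0.Swap57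
open Pool.W7d29a1.C0.H41 (UK UK_nonneg)
open Pool.W7d29a1.C0.GSE52 (Wf)
open Pool.Agent.W_7d29a1_C0.P86 (na_le86 avy_le86)

noncomputable section

/-- **THE PRICE at one end**: one window `[i, i + e]`, block `[c', d')`, side `J`, any factor `F` which is blind on the side. -/
def UP73 (μ : Measure ℝ) (s : ℝ) : Prop := ∀ ε θ : ℝ, 0 < ε → 0 < θ → ∃ δ κ c₂ : ℝ, 0 < δ ∧ 0 < κ ∧ 0 < c₂ ∧ ∃ N₀ : ℕ,
  ∀ N : ℕ, N₀ ≤ N → ∀ y : ℕ, y ≤ N → |(y : ℝ) - sl μ s * N| ≤ (N : ℝ) ^ δ * wd' μ s N →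
  ∀ i e c' d' : ℕ, c' ≤ i → i + e ≤ d' → d' ≤ N → (N : ℝ) ^ θ ≤ e → ∀ q : ℝ, Real.exp (-(N : ℝ) ^ κ) ≤ q →
  ∀ J : Finset ℕ, (J = Ico i N ∨ J = range (i + e)) → ∀ F : Env × Finset ℕ → Px (Pn N y) → ℝ,
  (∀ A x, Measurable fun η => F (η, A) x) → (∀ ω x, 0 ≤ F ω x) → (∀ ω x, F ω x ≤ 1) → (∀ ω, Mp (pJ c' d') (F ω)) →
  (∀ (η η' : Env) A x, (∃ E : Finset Pt, (∀ q ∈ E, 0 ≤ q.1 ∧ q.1.toNat ∈ J) ∧ ∀ q, q ∉ E → η q = η' q) → F (η, A) x = F (η', A) x) →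
  ∫ ω, gm (wm μ s N (Pn N y) ω) (fun x => cE (wm μ s N (Pn N y) ω) (pJ c' d') (UK (wm μ s N (Pn N y) ω) (NI i (i + e)) q x) x * F ω x)
      ∂(Pm μ N) ≤
    ((N : ℝ) ^ ε * (EE' μ s e)⁻¹) ^ 2 * ∫ ω, gm (wm μ s N (Pn N y) ω) (F ω) ∂(Pm μ N) + Real.exp (-(N : ℝ) ^ c₂)

variable {μ : Measure ℝ} {s : ℝ} [IsProbabilityMeasure μ] {c₀ C₀ : ℝ} {n₀ : ℕ}

/-- The own mass of `UK` is in `[0, 1]`. -/
theorem ownUK_01 {Q : Finset (Finset ℕ)} [Nonempty (Px Q)] (v : Px Q → ℝ) (p' : Px Q → Finset ℕ × ℕ) (i k : ℕ) (q' : ℝ) (x : Px Q) :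
    0 ≤ cE v p' (UK v (NI i k) q' x) x ∧ cE v p' (UK v (NI i k) q' x) x ≤ 1 := by
  have k0 : ∀ x y : Px Q, 0 ≤ UK v (NI i k) q' x y := fun x y => UK_nonneg (fun x y => NI_nonneg i k x y) q' x y
  have k1 : ∀ x y : Px Q, UK v (NI i k) q' x y ≤ 1 := fun x y => by
    have h1 := NI_nonneg i k x y
    have h2 : NI i k x y ≤ 1 := by
      unfold NI
      split_ifs <;> norm_num
    unfold UK
    split_ifs <;> linarith
  refine ⟨cE_nonneg v p' (k0 x) x, ?_⟩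
  have e := cE_mono v p' (f := UK v (NI i k) q' x) (g := fun _ => 1) (k1 x) x
  rwa [cE_one] at e

/-- The mean of the own mass of `UK` with a factor, measurable. -/
theorem meas_UF {N y : ℕ} [Nonempty (Px (Pn N y))] (p' : Px (Pn N y) → Finset ℕ × ℕ) (i k : ℕ) (q' : ℝ)
    {F : Env × Finset ℕ → Px (Pn N y) → ℝ} (hF : ∀ x, Measurable fun ω => F ω x) :
    Measurable fun ω => gm (wm μ s N (Pn N y) ω) (fun x => cE (wm μ s N (Pn N y) ω) p' (UK (wm μ s N (Pn N y) ω) (NI i k) q' x) x *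
      F ω x) := by
  have hw : ∀ x : Px (Pn N y), Measurable fun ω => wm μ s N (Pn N y) ω x := fun x => meas_wm x
  refine meas_gm hw fun x => Measurable.mul ?_ (hF x)
  refine meas_cE (f := fun ω => UK (wm μ s N (Pn N y) ω) (NI i k) q' x) hw (fun z => ?_) p' x
  unfold UK
  refine measurable_const.mul (Measurable.ite (measurableSet_lt measurable_const ?_) measurable_const measurable_const)
  exact meas_gm hw fun t => measurable_const

/-- **ONE END**, both factors. -/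
theorem one_end73 (h : In μ s c₀ C₀ n₀) (hU : UP73 μ s) : ∀ ε θ : ℝ, 0 < ε → 0 < θ → ∃ δ κ c₂ : ℝ, 0 < δ ∧ 0 < κ ∧ 0 < c₂ ∧ ∃ N₀ : ℕ,
    ∀ N : ℕ, N₀ ≤ N → ∀ y : ℕ, y ≤ N → |(y : ℝ) - sl μ s * N| ≤ (N : ℝ) ^ δ * wd' μ s N →
    ∀ (b σ m j k e i : ℕ), Geo73 N b σ m j k e → j / (m * σ) * (m * σ) ≤ i → i + e ≤ j / (m * σ) * (m * σ) + m * σ →
    (N : ℝ) ^ θ ≤ e → ∀ q : ℝ, Real.exp (-(N : ℝ) ^ κ) ≤ q →
    (∫ ω, G3 (wm μ s N (Pn N y) ω) (pB (m * σ) j) (pB (m * σ) k) (NA b σ j k) i (i + e) q ∂(Pm μ N) ≤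
      (N : ℝ) ^ ε / EE μ s e ^ 2 + Real.exp (-(N : ℝ) ^ c₂)) ∧
    (j / (m * σ) ≠ k / (m * σ) →
      ∫ ω, G3 (wm μ s N (Pn N y) ω) (pB (m * σ) j) (pB (m * σ) k) (NA b σ j k) i (i + e) q ∂(Pm μ N) ≤
        (N : ℝ) ^ ε / EE μ s e ^ 3 + Real.exp (-(N : ℝ) ^ c₂)) := by
  intro ε θ hε hθ
  obtain ⟨δ₁, κ, c₁, hδ₁, hκ, hc₁, N₁, hP⟩ := hU (ε / 4) θ (by positivity) hθ
  obtain ⟨δ₂, c₂, hδ₂, hc₂, N₂, hQ⟩ := Pool.W7d29a1.C0.E3B52.pair_one h (ε / 4) θ (by positivity) hθ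
  obtain ⟨cm, hcm⟩ : ∃ x, x = min c₁ c₂ := ⟨_, rfl⟩
  have hcm0 : 0 < cm := hcm ▸ lt_min hc₁ hc₂
  obtain ⟨c₃, hc₃, -, N₃, hX⟩ := Pool.Agent.W_7d29a1_Z.NumI77.pow_exp hcm0 (ε + 1)
  obtain ⟨N₄, hN₄⟩ := Pool.Agent.W_7d29a1_C0.P86.ev_two86 (show 0 < ε / 4 by positivity)
  refine ⟨min δ₁ δ₂, κ, c₃, lt_min hδ₁ hδ₂, hκ, hc₃, N₁ + N₂ + N₃ + N₄ + 3, ?_⟩
  intro N hN y hyN hyc b σ m j k e i G hci hid he q hq
  have hN3 : (3 : ℝ) ≤ N := by exact_mod_cast (show 3 ≤ N by omega)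
  have hN1 : (1 : ℝ) ≤ N := by linarith
  have hN0 : (0 : ℝ) < N := by linarith
  have hn := ne_Pn (N := N) (y := y) hyN
  have n4 := hN₄ N (by omega)
  obtain ⟨E, hE⟩ : ∃ E, E = Real.exp (-(N : ℝ) ^ cm) := ⟨_, rfl⟩
  have hE0 : 0 ≤ E := hE ▸ (Real.exp_pos _).le
  have E1 : Real.exp (-(N : ℝ) ^ c₁) ≤ E := hE ▸ exp_mono73 (by omega) (hcm ▸ min_le_left _ _)
  have E2 : Real.exp (-(N : ℝ) ^ c₂) ≤ E := hE ▸ exp_mono73 (by omega) (hcm ▸ min_le_right _ _)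
  have g := hX N (by omega)
  rw [← hE, Real.rpow_add hN0, Real.rpow_one] at g
  -- the units
  obtain ⟨X, hXd⟩ : ∃ X, X = (N : ℝ) ^ (ε / 4) := ⟨_, rfl⟩
  have hXε : (N : ℝ) ^ ε = X ^ 4 := by
    rw [hXd, ← Real.rpow_natCast, ← Real.rpow_mul hN0.le]
    congr 1
    push_cast
    ring
  rw [← hXd] at n4
  rw [hXε] at g ⊢
  obtain ⟨z, hz⟩ : ∃ z, z = (EE μ s e)⁻¹ := ⟨_, rfl⟩
  have hz0 : 0 < z := by
    rw [hz]
    exact inv_pos.2 (EE_pos e)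
  have hz1 : z ≤ 1 := by
    rw [hz]
    exact inv_le_one_of_one_le₀ (one_le_EE e)
  have d2 : X ^ 4 / EE μ s e ^ 2 = X ^ 4 * z ^ 2 := by rw [hz, inv_pow, div_eq_mul_inv]
  have d3 : X ^ 4 / EE μ s e ^ 3 = X ^ 4 * z ^ 3 := by rw [hz, inv_pow, div_eq_mul_inv]
  have hP' := hP N (by omega) y hyN (cone_mono73 (by omega) (min_le_left _ _) hyc) i e _ _ hci hid G.jN he q hq
  rw [d2, d3]
  simp only [EE'_eq46, ← hXd, ← hz] at hP'
  have p1 : (1 : ℝ) ≤ X := by linarith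
  have hXX : X ^ 2 ≤ X ^ 4 := pow_le_pow_right₀ p1 (by norm_num)
  have hXX3 : 2 * X ^ 3 ≤ X ^ 4 := by
    have : 0 ≤ X ^ 3 := by positivity
    nlinarith
  have F01 : ∀ (ω : Env × Finset ℕ) x, 0 ≤ cE2 (wm μ s N (Pn N y) ω) (pB (m * σ) k) (NA b σ j k) x x ∧
      cE2 (wm μ s N (Pn N y) ω) (pB (m * σ) k) (NA b σ j k) x x ≤ 1 := fun ω x =>
    ⟨cE2_nonneg _ _ (NA_nonneg b σ j k) x x, cE2_le_one _ _ (NA_le_one b σ j k) x x⟩
  constructor
  · -- the factor is at most one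
    have k1 := hP' (Ico i N) (Or.inl rfl) (fun _ _ => 1) (fun _ _ => measurable_const) (fun _ _ => zero_le_one) (fun _ _ => le_rfl)
      (fun _ _ _ _ => rfl) (fun _ _ _ _ _ => rfl)
    simp only [gm_const, integral_const, probReal_univ, smul_eq_mul, mul_one] at k1
    have k2 : ∫ ω, G3 (wm μ s N (Pn N y) ω) (pB (m * σ) j) (pB (m * σ) k) (NA b σ j k) i (i + e) q ∂(Pm μ N) ≤
        ∫ ω, gm (wm μ s N (Pn N y) ω) (fun x => cE (wm μ s N (Pn N y) ω) (pJ (j / (m * σ) * (m * σ)) (j / (m * σ) * (m * σ) + m * σ))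
          (UK (wm μ s N (Pn N y) ω) (NI i (i + e)) q x) x) ∂(Pm μ N) := by
      have m1 := meas_UF (μ := μ) (s := s) (N := N) (y := y) (pJ (j / (m * σ) * (m * σ)) (j / (m * σ) * (m * σ) + m * σ)) i (i + e) q
        (F := fun _ _ => 1) (fun _ => measurable_const)
      simp only [mul_one] at m1
      refine integral_mono_of_nonneg (Filter.Eventually.of_forall fun ω => ?_) (int_bdd (M := 1) m1 fun ω => ?_)
        (Filter.Eventually.of_forall fun ω => ?_)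
      · exact (G3_01 (NA_nonneg b σ j k) (NA_le_one b σ j k) _ _ _).1
      · rw [abs_of_nonneg (gm_nonneg _ fun x => (ownUK_01 _ _ i (i + e) q x).1)]
        exact (gm_mono _ fun x => (ownUK_01 _ _ i (i + e) q x).2).trans_eq (gm_const _ 1)
      · refine gm_mono _ fun x => ?_
        exact mul_le_of_le_one_right (ownUK_01 _ _ i (i + e) q x).1 (F01 ω x).2
    have k3 : (X * z) ^ 2 ≤ X ^ 4 * z ^ 2 := by
      rw [mul_pow]
      exact mul_le_mul_of_nonneg_right hXX (by positivity)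
    have k4 : E ≤ Real.exp (-(N : ℝ) ^ c₃) := by
      refine le_trans ?_ g
      have : 1 ≤ X ^ 4 * (N : ℝ) := one_le_mul_of_one_le_of_one_le (one_le_pow₀ p1) hN1
      nlinarith
    linarith
  · intro hblk
    have hbo := blk_or73 (τ := m * σ) j k hblk
    -- the side
    obtain ⟨J, hJ, hJk⟩ : ∃ J : Finset ℕ, (J = Ico i N ∨ J = range (i + e)) ∧
        ∀ j' ∈ J, j' ≤ k / (m * σ) * (m * σ) ∨ k / (m * σ) * (m * σ) + m * σ ≤ j' := by
      rcases hbo with h1 | h1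
      · exact ⟨Ico i N, Or.inl rfl, fun j' hj' => by
          have := mem_Ico.1 hj'
          omega⟩
      · exact ⟨range (i + e), Or.inr rfl, fun j' hj' => by
          have := mem_range.1 hj'
          omega⟩
    have k1 := hP' J hJ (fun ω x => cE2 (wm μ s N (Pn N y) ω) (pB (m * σ) k) (NA b σ j k) x x)
      (fun A x => Pool.W7d29a1.C0.E3B52.meas_cE2_52 _ _ _ A x) (fun ω x => (F01 ω x).1) (fun ω x => (F01 ω x).2)
      (fun ω => by
        have := Mp_Fk73 (μ := μ) (s := s) (δ := 0) (B := 0) G (Q := Pn N y) ω 0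
        simpa only [zero_smul, add_zero] using this)
      (fun η η' A x hη => Pool.W7d29a1.C0.E3B52.cE2_o (Pool.W7d29a1.C0.E3B52.ago_of_fin hJk hη) _ x x)
    -- the factor
    obtain ⟨s1, s2⟩ := blk_sub73 G.hσ G.hm k
    have g3 := G.k1
    have g4 := G.k2
    have hcy := cone_mono73 (μ := μ) (s := s) (show 1 ≤ N by omega) (min_le_right δ₁ δ₂) hyc
    have q1 := hQ N (by omega) N (by omega) le_rfl y hyN hcy (k / (m * σ) * (m * σ)) (k / (m * σ) * (m * σ) + m * σ) (k / σ * σ)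
      (k / σ * σ + e) e (by omega) le_rfl (by omega) G.kN he
    have q2 := hQ N (by omega) N (by omega) le_rfl y hyN hcy (k / (m * σ) * (m * σ)) (k / (m * σ) * (m * σ) + m * σ) (k + b)
      (k + b + e) e (by omega) le_rfl (by omega) G.kN he
    simp only [EE'_eq46, ← hXd, ← hz] at q1 q2
    have mint : ∀ U V : ℕ, Integrable (fun ω => gm (wm μ s N (Pn N y) ω)
        (fun x => cE2 (wm μ s N (Pn N y) ω) (pJ (k / (m * σ) * (m * σ)) (k / (m * σ) * (m * σ) + m * σ)) (NI U V) x x)) (Pm μ N) :=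
      fun U V => by
      have a1 : ∀ (ω : Env × Finset ℕ) x, 0 ≤ cE2 (wm μ s N (Pn N y) ω) (pJ (k / (m * σ) * (m * σ)) (k / (m * σ) * (m * σ) + m * σ))
          (NI U V) x x := fun ω x => cE2_nonneg _ _ (fun _ _ => NI_nonneg _ _ _ _) x x
      have a2 : ∀ (ω : Env × Finset ℕ) x, cE2 (wm μ s N (Pn N y) ω) (pJ (k / (m * σ) * (m * σ)) (k / (m * σ) * (m * σ) + m * σ))
          (NI U V) x x ≤ 1 := fun ω x => cE2_le_one _ _ (fun z z' => by unfold NI; split_ifs <;> norm_num) x x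
      refine int_bdd (M := 1) (meas_gm (fun x => meas_wm x) fun x => ?_) fun ω => ?_
      · exact Pool.Agent.W_7d29a1_C0.E62.meas_cE262 meas_wm _ (NI U V) x x
      · rw [abs_of_nonneg (gm_nonneg _ (a1 ω))]
        exact (gm_mono _ (a2 ω)).trans_eq (gm_const _ 1)
    have k2 : ∫ ω, gm (wm μ s N (Pn N y) ω) (fun x => cE2 (wm μ s N (Pn N y) ω) (pB (m * σ) k) (NA b σ j k) x x) ∂(Pm μ N) ≤
        (X * z + E) + (X * z + E) := by
      refine le_trans ?_ (add_le_add (q1.trans (add_le_add le_rfl E2)) (q2.trans (add_le_add le_rfl E2)))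
      rw [← integral_add (mint _ _) (mint _ _)]
      refine integral_mono_of_nonneg (Filter.Eventually.of_forall fun ω => gm_nonneg _ fun x => (F01 ω x).1)
        ((mint _ _).add (mint _ _)) (Filter.Eventually.of_forall fun ω => ?_)
      have a1 : ∀ x, cE2 (wm μ s N (Pn N y) ω) (pB (m * σ) k) (NA b σ j k) x x ≤
          cE2 (wm μ s N (Pn N y) ω) (pJ (k / (m * σ) * (m * σ)) (k / (m * σ) * (m * σ) + m * σ)) (NI (k / σ * σ) (k / σ * σ + e)) x x +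
          cE2 (wm μ s N (Pn N y) ω) (pJ (k / (m * σ) * (m * σ)) (k / (m * σ) * (m * σ) + m * σ)) (NI (k + b) (k + b + e)) x x := fun x => by
        rw [← cE2_add]
        exact cE2_mono _ _ (fun x x' => na_le86 hblk G.j1 G.j2 g3 g4 x x') x x
      exact (gm_mono _ a1).trans_eq (Pool.W7d29a1.C0.gm_add _ _ _)
    have r0 : 0 ≤ (X * z) ^ 2 := sq_nonneg _
    have k3 := mul_le_mul_of_nonneg_left k2 r0
    have k4 : (X * z) ^ 2 * ((X * z + E) + (X * z + E)) = 2 * X ^ 3 * z ^ 3 + 2 * (X ^ 2 * z ^ 2) * E := by ring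
    have k5 : 2 * X ^ 3 * z ^ 3 ≤ X ^ 4 * z ^ 3 := mul_le_mul_of_nonneg_right hXX3 (by positivity)
    have k6 : X ^ 2 * z ^ 2 ≤ X ^ 4 := by
      calc X ^ 2 * z ^ 2 ≤ X ^ 4 * 1 := mul_le_mul hXX (pow_le_one₀ hz0.le hz1) (by positivity) (by positivity)
        _ = X ^ 4 := mul_one _
    have k7 : 2 * (X ^ 2 * z ^ 2) * E + E ≤ Real.exp (-(N : ℝ) ^ c₃) := by
      refine le_trans ?_ g
      have x4 : 1 ≤ X ^ 4 := one_le_pow₀ p1
      have a1 : 2 * (X ^ 2 * z ^ 2) + 1 ≤ X ^ 4 * (N : ℝ) := by nlinarith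
      calc 2 * (X ^ 2 * z ^ 2) * E + E = (2 * (X ^ 2 * z ^ 2) + 1) * E := by ring
        _ ≤ X ^ 4 * (N : ℝ) * E := mul_le_mul_of_nonneg_right a1 hE0
    have k8 : ∫ ω, G3 (wm μ s N (Pn N y) ω) (pB (m * σ) j) (pB (m * σ) k) (NA b σ j k) i (i + e) q ∂(Pm μ N) ≤ _ := k1
    linarith

/-- **THE TOP OF THE PRICE**: `PrU73` from the price at one end. -/
theorem prU73_of (h : In μ s c₀ C₀ n₀) (hU : UP73 μ s) : PrU73 μ s := by
  intro ε θ hε hθ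
  obtain ⟨δ, κ, c₂, hδ, hκ, hc₂, N₀, hP⟩ := one_end73 h hU ε θ hε hθ
  refine ⟨δ, κ, c₂, hδ, hκ, hc₂, N₀, ?_⟩
  intro N hN ys hne hys dl B b σ m j k e G he r q hq
  obtain ⟨s1, s2⟩ := blk_sub73 G.hσ G.hm j
  have g1 := G.j1
  have g2 := G.j2
  obtain ⟨i, hi, hi', hc1, hc2⟩ : ∃ i, min (m73 b j r) (z73 b j e r) = i ∧ max (m73 b j r) (z73 b j e r) = i + e ∧
      j / (m * σ) * (m * σ) ≤ i ∧ i + e ≤ j / (m * σ) * (m * σ) + m * σ := by
    cases r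
    · refine ⟨j - 3 * b - e, ?_, ?_, by omega, by omega⟩
      · show min (j - 3 * b) (j - 3 * b - e) = _
        omega
      · show max (j - 3 * b) (j - 3 * b - e) = _
        omega
    · refine ⟨j + 3 * b, ?_, ?_, by omega, by omega⟩
      · show min (j + 3 * b) (j + 3 * b + e) = _
        omega
      · show max (j + 3 * b) (j + 3 * b + e) = _
        omega
  rw [hi, hi']
  have key := fun y (hy : y ∈ ys) => hP N hN y (hys y hy).1 (hys y hy).2 b σ m j k e i G hc1 hc2 he q hq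
  exact ⟨avy_le86 hne fun y hy => (key y hy).1, fun hb => avy_le86 hne fun y hy => (key y hy).2 hb⟩

end

end Pool.W7d29a1.C0.Bd73
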