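import Pool.Agent.W_7d29a1_C0.E3G52

/-!
CURV0 (MP_7d29a1_pr), GS one kick: **`prU52` : `PrU73`** (S5), the last price of `KbL65`. (helper52)
-/

set_option autoImplicit false
set_option linter.unusedSectionVars false

namespace Pool.W7d29a1.C0.GSY52

open MeasureTheory ProbabilityTheory Filter Topology Finset
open Pool.Agent.W_7d29a1_F Pool.Agent.W_7d29a1_X Pool.Agent.W_7d29a1_h4g Pool.Agent.W_7d29a1_H
open Pool.Agent.W_7d29a1_HS (In wd md)
open Pool.Agent.W_7d29a1_HZ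
open Pool.Agent.W_7d29a1_HZ.Z86
open Pool.Agent.W_7d29a1_C0.Mod92 (Px Pn lw ps pJ ne_Pn wm Pm meas_lw meas_wm meas_cE meas_gz meas_gm int_Pm avy int_bdd)
open Pool.Agent.W_7d29a1_C0.P86
open Pool.Agent.W_7d29a1_C0.Swap57 (NI cE2 NI_nonneg cE2_nonneg cE2_le_one cE2_add cE2_mono)
open Pool.Agent.W_7d29a1_C0.One32 (NA pB NA_nonneg NA_le_one)
open Pool.W7d29a1.C0 (gm gz gz_pos gm_nonneg gm_mono gm_const)
open Pool.W7d29a1.C0.VT31 (Mp cE cE_mono cE_nonneg cE_one)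
open Pool.W7d29a1.C0.H41 (UK UK_nonneg UK_le)
open Pool.W7d29a1.C0.E3B52
open Pool.W7d29a1.C0.E3G52
open Pool.W7d29a1.C0.Bd73 (G3 IG3 m73 z73 Geo73 PrU73 blk_sub73 blk_or73 Mp_Fk73)
open Pool.Agent.W_7d29a1_C0 (EE'_eq46)

noncomputable section

variable {μ : Measure ℝ} {s : ℝ} {N : ℕ}

theorem meas_uk52 {y : ℕ} (i i' : ℕ) (q : ℝ) (x z : Px (Pn N y)) :
    Measurable fun ω : Env × Finset ℕ => UK (wm μ s N (Pn N y) ω) (NI i i') q x z := by
  classical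
  unfold UK
  exact measurable_const.mul (Measurable.ite (measurableSet_lt measurable_const (meas_gm meas_wm fun t => measurable_const))
    measurable_const measurable_const)

/-- The factor of the other row, two windows. -/
theorem fk_int [IsProbabilityMeasure μ] {y : ℕ} (hy : y ≤ N) (c d U V U' V' : ℕ) {K : Px (Pn N y) → Px (Pn N y) → ℝ}
    (K0 : ∀ x z, 0 ≤ K x z) (KN : ∀ x z, K x z ≤ NI U V x z + NI U' V' x z) :
    ∫ ω, gm (wm μ s N (Pn N y) ω) (fun x => cE2 (wm μ s N (Pn N y) ω) (pJ c d) K x x) ∂(Pm μ N) ≤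
      ∫ ω, gm (wm μ s N (Pn N y) ω) (fun x => cE2 (wm μ s N (Pn N y) ω) (pJ c d) (NI U V) x x) ∂(Pm μ N) +
      ∫ ω, gm (wm μ s N (Pn N y) ω) (fun x => cE2 (wm μ s N (Pn N y) ω) (pJ c d) (NI U' V') x x) ∂(Pm μ N) := by
  have hn := ne_Pn (N := N) (y := y) hy
  have hint : ∀ U V, Integrable (fun ω => gm (wm μ s N (Pn N y) ω) (fun x => cE2 (wm μ s N (Pn N y) ω) (pJ c d) (NI U V) x x))
      (Pm μ N) := fun U V => by
    have a1 : ∀ (ω : Env × Finset ℕ) x, 0 ≤ cE2 (wm μ s N (Pn N y) ω) (pJ c d) (NI U V) x x := fun ω x =>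
      cE2_nonneg _ _ (fun _ _ => NI_nonneg _ _ _ _) x x
    have a2 : ∀ (ω : Env × Finset ℕ) x, cE2 (wm μ s N (Pn N y) ω) (pJ c d) (NI U V) x x ≤ 1 := fun ω x =>
      cE2_le_one _ _ (fun z z' => ni_le_one86 _ _ z z') x x
    refine int_bdd (M := 1) (meas_gm meas_wm fun x => Pool.Agent.W_7d29a1_C0.E62.meas_cE262 meas_wm (pJ c d) (NI U V) x x) fun ω => ?_
    rw [abs_of_nonneg (gm_nonneg _ (a1 ω))]
    exact (gm_mono _ (a2 ω)).trans_eq (gm_const _ 1)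
  rw [← integral_add (hint U V) (hint U' V')]
  refine integral_mono_of_nonneg (Filter.Eventually.of_forall fun ω => gm_nonneg _ fun x => cE2_nonneg _ _ K0 x x)
    ((hint U V).add (hint U' V')) (Filter.Eventually.of_forall fun ω => ?_)
  have a1 : ∀ x, cE2 (wm μ s N (Pn N y) ω) (pJ c d) K x x ≤ cE2 (wm μ s N (Pn N y) ω) (pJ c d) (NI U V) x x +
      cE2 (wm μ s N (Pn N y) ω) (pJ c d) (NI U' V') x x := fun x => by
    rw [← cE2_add]
    exact cE2_mono _ _ KN x x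
  exact (gm_mono _ a1).trans_eq (Pool.W7d29a1.C0.gm_add _ _ _)

/-- The window of the side `r`. -/
theorem win73 {N b σ m j k e : ℕ} (G : Geo73 N b σ m j k e) (r : Bool) : ∃ i, min (m73 b j r) (z73 b j e r) = i ∧
    max (m73 b j r) (z73 b j e r) = i + e ∧ 1 ≤ i ∧ j / (m * σ) * (m * σ) ≤ i ∧ i + e ≤ j / (m * σ) * (m * σ) + m * σ := by
  obtain ⟨s1, s2⟩ := blk_sub73 G.hσ G.hm j
  have g1 := G.j1
  have g2 := G.j2
  have g3 := G.hb
  have g4 := G.hbe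
  cases r
  · refine ⟨j - 3 * b - e, ?_, ?_, by omega, by omega, by omega⟩
    · show min (j - 3 * b) (j - 3 * b - e) = _
      omega
    · show max (j - 3 * b) (j - 3 * b - e) = _
      omega
  · refine ⟨j + 3 * b, ?_, ?_, by omega, by omega, by omega⟩
    · show min (j + 3 * b) (j + 3 * b + e) = _
      omega
    · show max (j + 3 * b) (j + 3 * b + e) = _
      omega

/-- **S5.** -/
theorem prU52 [IsProbabilityMeasure μ] {c₀ C₀ : ℝ} {n₀ : ℕ} (h : In μ s c₀ C₀ n₀) : PrU73 μ s := by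
  intro ε θ hε hθ
  obtain ⟨δ₁, κ, a₁, hδ₁, hκ, ha₁, N₁, hP⟩ := g3_side (μ := μ) (s := s) h (ε / 4) θ (by positivity) hθ
  obtain ⟨δ₂, a₂, hδ₂, ha₂, N₂, hQ⟩ := pair_one (μ := μ) (s := s) h (ε / 4) θ (by positivity) hθ
  obtain ⟨a, had⟩ : ∃ a, a = min a₁ a₂ := ⟨_, rfl⟩
  have ha : 0 < a := by rw [had]; exact lt_min ha₁ ha₂
  obtain ⟨c₂, hc₂, -, N₃, hX⟩ := Pool.Agent.W_7d29a1_Z.NumI77.pow_exp ha (ε / 2 + 1)
  obtain ⟨N₄, hN₄⟩ := ev_two86 (show 0 < ε / 4 by positivity)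
  refine ⟨min δ₁ δ₂, κ, c₂, lt_min hδ₁ hδ₂, hκ, hc₂, N₁ + N₂ + N₃ + N₄ + 3, ?_⟩
  intro N hN ys hne hys dl B b σ m j k e G he r q hq
  have hN1 : 1 ≤ N := by omega
  have hN3 : (3 : ℝ) ≤ N := by exact_mod_cast (show 3 ≤ N by omega)
  have hN0 : (0 : ℝ) < N := by linarith
  have hwd : 0 ≤ wd' μ s N := zero_le_one.trans (le_max_left (1 : ℝ) (wd μ s N))
  obtain ⟨i, w1, w2, w3, w4, w5⟩ := win73 G r
  rw [w1, w2]
  have g5 := G.jN
  obtain ⟨s1, s2⟩ := blk_sub73 G.hσ G.hm j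
  obtain ⟨s3, s4⟩ := blk_sub73 G.hσ G.hm k
  have j1 := G.j1
  have j2 := G.j2
  have k1 := G.k1
  have k2 := G.k2
  have kN := G.kN
  -- the numbers
  have n4 := hN₄ N (by omega)
  have e1 : Real.exp (-(N : ℝ) ^ a₁) ≤ Real.exp (-(N : ℝ) ^ a) := exp_rp86 hN1 (by rw [had]; exact min_le_left _ _)
  have e2 : Real.exp (-(N : ℝ) ^ a₂) ≤ Real.exp (-(N : ℝ) ^ a) := exp_rp86 hN1 (by rw [had]; exact min_le_right _ _)
  have e3 := hX N (by omega)
  have q4 : (N : ℝ) ^ ε = (N : ℝ) ^ (ε / 4) * (N : ℝ) ^ (ε / 4) * (N : ℝ) ^ (ε / 4) * (N : ℝ) ^ (ε / 4) := by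
    rw [← Real.rpow_add hN0, ← Real.rpow_add hN0, ← Real.rpow_add hN0]
    congr 1
    ring
  have q5 : (N : ℝ) ^ (ε / 2 + 1) = (N : ℝ) ^ (ε / 4) * (N : ℝ) ^ (ε / 4) * N := by
    rw [Real.rpow_add hN0, Real.rpow_one, ← Real.rpow_add hN0]
    congr 2
    ring
  have hEE : 1 ≤ EE μ s e := one_le_EE e
  obtain ⟨P, hPd⟩ : ∃ P, P = (N : ℝ) ^ (ε / 4) := ⟨_, rfl⟩
  obtain ⟨E, hEd⟩ : ∃ E, E = (EE μ s e)⁻¹ := ⟨_, rfl⟩
  obtain ⟨W, hWd⟩ : ∃ W, W = Real.exp (-(N : ℝ) ^ a) := ⟨_, rfl⟩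
  have hE0 : 0 ≤ E := by rw [hEd]; exact inv_nonneg.2 (by linarith)
  have hE1 : E ≤ 1 := by rw [hEd]; exact inv_le_one_of_one_le₀ hEE
  have hW0 : 0 ≤ W := by rw [hWd]; exact (Real.exp_pos _).le
  rw [← hPd] at n4 q4 q5
  rw [← hWd] at e1 e2 e3
  rw [q5] at e3
  have hPP : 4 ≤ P * P := by nlinarith
  have f2 : (N : ℝ) ^ ε / EE μ s e ^ 2 = P * P * P * P * E ^ 2 := by
    rw [q4, hEd, div_eq_mul_inv, inv_pow]
  have f3 : (N : ℝ) ^ ε / EE μ s e ^ 3 = P * P * P * P * E ^ 3 := by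
    rw [q4, hEd, div_eq_mul_inv, inv_pow]
  rw [f2, f3]
  have e4 : (2 * (P * P) + 1) * W ≤ Real.exp (-(N : ℝ) ^ c₂) := by
    refine le_trans (mul_le_mul_of_nonneg_right ?_ hW0) e3
    nlinarith
  have e5 : W ≤ Real.exp (-(N : ℝ) ^ c₂) := by nlinarith
  constructor
  · -- any row `k`: the factor is at most one
    refine avy_le86 hne fun y hy => ?_
    obtain ⟨hyN, hyc⟩ := hys y hy
    have hn := ne_Pn (N := N) (y := y) hyN
    have key := hP N (by omega) e he y hyN (hyc.trans (mul_le_mul_of_nonneg_right (rp_le86 hN1 (min_le_left _ _)) hwd)) i _ _ w3 w4 w5 g5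
      false q hq (fun _ _ => 1) (fun _ => measurable_const) (fun _ _ _ _ => rfl) (fun _ _ => zero_le_one) (fun _ _ => le_rfl)
      (fun _ _ _ _ _ => rfl)
    have o1 : ∫ ω, gm (wm μ s N (Pn N y) ω) (fun _ => (1 : ℝ)) ∂(Pm μ N) = 1 := by
      simp [gm_const]
    have u0 : ∀ (ω : Env × Finset ℕ) (x : Px (Pn N y)), 0 ≤ cE (wm μ s N (Pn N y) ω) (pB (m * σ) j)
        (UK (wm μ s N (Pn N y) ω) (NI i (i + e)) q x) x := fun ω x =>
      cE_nonneg _ _ (fun z => UK_nonneg (fun x y => NI_nonneg _ _ x y) q x z) x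
    have u1 : ∀ (ω : Env × Finset ℕ) (x : Px (Pn N y)), cE (wm μ s N (Pn N y) ω) (pB (m * σ) j)
        (UK (wm μ s N (Pn N y) ω) (NI i (i + e)) q x) x ≤ 1 := fun ω x =>
      cE_le_one _ _ (fun z => (UK_le (fun x y => NI_nonneg _ _ x y) q x z).trans (ni_le_one86 _ _ _ _)) x
    have o2 : ∫ ω, G3 (Pool.W7d29a1.C0.GSE52.Wf μ s N dl B b j false y ω) (pB (m * σ) j) (pB (m * σ) k) (NA b σ j k) i (i + e) q
        ∂(Pm μ N) ≤ ∫ ω, gm (wm μ s N (Pn N y) ω) (fun x => cE (wm μ s N (Pn N y) ω) (pB (m * σ) j)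
        (UK (wm μ s N (Pn N y) ω) (NI i (i + e)) q x) x * 1) ∂(Pm μ N) := by
      refine integral_mono_of_nonneg (Filter.Eventually.of_forall fun ω => ?_) (int_bdd (M := 1) ?_ fun ω => ?_)
        (Filter.Eventually.of_forall fun ω => ?_)
      · exact gm_nonneg _ fun x => mul_nonneg (u0 ω x) (cE2_nonneg _ _ (NA_nonneg b σ j k) x x)
      · exact meas_gm meas_wm fun x => (meas_cE meas_wm (f := fun ω => UK (wm μ s N (Pn N y) ω) (NI i (i + e)) q x)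
          (fun z => meas_uk52 i (i + e) q x z) (pB (m * σ) j) x).mul measurable_const
      · rw [abs_of_nonneg (gm_nonneg _ fun x => mul_nonneg (u0 ω x) zero_le_one)]
        exact (gm_mono _ fun x => (mul_one _).trans_le (u1 ω x)).trans_eq (gm_const _ 1)
      · exact gm_mono _ fun x => mul_le_mul_of_nonneg_left (cE2_le_one _ _ (NA_le_one b σ j k) x x) (u0 ω x)
    refine o2.trans (key.trans ?_)
    rw [o1, mul_one, EE'_eq46, ← hPd, ← hEd]
    have z1 : (P * E) ^ 2 ≤ P * P * P * P * E ^ 2 := by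
      have z2 : P * P * P * P * E ^ 2 = P * P * (P * E) ^ 2 := by ring
      rw [z2]
      nlinarith [sq_nonneg (P * E)]
    linarith
  · -- another block
    intro hjk
    refine avy_le86 hne fun y hy => ?_
    obtain ⟨hyN, hyc⟩ := hys y hy
    have hn := ne_Pn (N := N) (y := y) hyN
    obtain ⟨ck, hck⟩ : ∃ ck, ck = k / (m * σ) * (m * σ) := ⟨_, rfl⟩
    obtain ⟨sd, hsd⟩ : ∃ sd : Bool, ∀ t ∈ JJ N i e sd, t ≤ ck ∨ ck + m * σ ≤ t := by
      rcases blk_or73 (τ := m * σ) j k hjk with g | g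
      · refine ⟨true, fun t ht => ?_⟩
        have ht' : t ∈ Ico i N := ht
        rw [mem_Ico] at ht'
        omega
      · refine ⟨false, fun t ht => ?_⟩
        have ht' : t ∈ Ico 0 (i + e) := ht
        rw [mem_Ico] at ht'
        omega
    have hpk : (pB (m * σ) k : Px (Pn N y) → Finset ℕ × ℕ) = pJ ck (ck + m * σ) := by
      rw [hck]
      rfl
    have key := hP N (by omega) e he y hyN (hyc.trans (mul_le_mul_of_nonneg_right (rp_le86 hN1 (min_le_left _ _)) hwd)) i _ _ w3 w4 w5 g5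
      sd q hq (fun ω x => cE2 (wm μ s N (Pn N y) ω) (pB (m * σ) k) (NA b σ j k) x x)
      (fun x => Pool.Agent.W_7d29a1_C0.E62.meas_cE262 meas_wm (pB (m * σ) k) (NA b σ j k) x x)
      (fun ω => by
        have z := Mp_Fk73 (μ := μ) (s := s) (δ := 0) (B := 0) G (Q := Pn N y) ω 0
        simp only [zero_smul, add_zero] at z
        exact z)
      (fun ω x => cE2_nonneg _ _ (NA_nonneg b σ j k) x x) (fun ω x => cE2_le_one _ _ (NA_le_one b σ j k) x x)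
      (fun η η' A x hη => by
        show cE2 (lw μ s η N (Pn N y)) (pB (m * σ) k) (NA b σ j k) x x = cE2 (lw μ s η' N (Pn N y)) (pB (m * σ) k) (NA b σ j k) x x
        rw [hpk]
        exact cE2_o (ago_of_fin hsd hη) _ _ _)
    refine key.trans ?_
    have cone2 := hyc.trans (mul_le_mul_of_nonneg_right (rp_le86 hN1 (min_le_right δ₁ δ₂)) hwd)
    have p1 := hQ N (by omega) N (by omega) le_rfl y hyN cone2 ck (ck + m * σ) (k / σ * σ) (k / σ * σ + e) e (by omega) le_rfl (by omega)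
      (by omega) he
    have p2 := hQ N (by omega) N (by omega) le_rfl y hyN cone2 ck (ck + m * σ) (k + b) (k + b + e) e (by omega) le_rfl (by omega)
      (by omega) he
    have p3 := fk_int (μ := μ) (s := s) hyN ck (ck + m * σ) (k / σ * σ) (k / σ * σ + e) (k + b) (k + b + e)
      (K := (NA b σ j k : Px (Pn N y) → Px (Pn N y) → ℝ)) (fun x z => NA_nonneg b σ j k x z)
      (fun x z => na_le86 hjk j1 j2 k1 k2 x z)
    rw [← hpk] at p1 p2 p3
    rw [EE'_eq46, ← hPd, ← hEd] at p1 p2 ⊢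
    obtain ⟨I, hI⟩ : ∃ I, I = ∫ ω, gm (wm μ s N (Pn N y) ω) (fun x => cE2 (wm μ s N (Pn N y) ω) (pB (m * σ) k) (NA b σ j k) x x)
      ∂(Pm μ N) := ⟨_, rfl⟩
    rw [← hI] at p3 ⊢
    have p4 : I ≤ 2 * (P * E) + 2 * W := by linarith
    have p5 : 0 ≤ P * E := mul_nonneg (by linarith) hE0
    have p6 : (P * E) ^ 2 ≤ P * P := by
      have : P * E ≤ P := mul_le_of_le_one_right (by linarith) hE1
      nlinarith
    have p7 : (P * E) ^ 2 * I ≤ (P * E) ^ 2 * (2 * (P * E) + 2 * W) := mul_le_mul_of_nonneg_left p4 (sq_nonneg _)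
    have p8 : (P * E) ^ 2 * (2 * W) ≤ P * P * (2 * W) := mul_le_mul_of_nonneg_right p6 (by linarith)
    have p9 : (P * E) ^ 2 * (2 * (P * E)) ≤ P * P * P * P * E ^ 3 := by
      have z1 : (P * E) ^ 2 * (2 * (P * E)) = 2 * (P * P * P * E ^ 3) := by ring
      have z2 : P * P * P * P * E ^ 3 = P * (P * P * P * E ^ 3) := by ring
      rw [z1, z2]
      exact mul_le_mul_of_nonneg_right n4 (by positivity)
    nlinarith

end

end Pool.W7d29a1.C0.GSY52
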