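import Pool.Agent.W_7d29a1_C0.PrL86
import Pool.Agent.W_7d29a1_C0.GSF52
import Pool.Agent.W_7d29a1_C0.Lft33

/-!
C0, helper65: THE MASS OF THE REPLICAS WHICH DO NOT MEET THE PATH ON BOTH SIDES OF THE WINDOW (`mN`), at the concrete frame: one row costs
`N ^ (3 ι) / E_s`, two rows in different blocks `B'` cost `N ^ (5 ι) / E_s ^ 2`.
-/

set_option autoImplicit false

namespace Pool.Agent.W_7d29a1_C0.MqN65

open MeasureTheory ProbabilityTheory Filter Topology Finset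
open Pool.Agent.W_7d29a1_X (pos)
open Pool.Agent.W_7d29a1_H (EE EE_pos one_le_EE EE_mono sl)
open Pool.Agent.W_7d29a1_F (Env)
open Pool.Agent.W_7d29a1_HS (In wd)
open Pool.Agent.W_7d29a1_HZ (EE' wd')
open Pool.Agent.W_7d29a1_C0 Pool.Agent.W_7d29a1_C0.Frm33 Pool.Agent.W_7d29a1_C0.Asm96
open Pool.Agent.W_7d29a1_C0.Mod92 Pool.Agent.W_7d29a1_C0.P86
open Pool.Agent.W_7d29a1_C0.Par92 (Sml Est)
open Pool.Agent.W_7d29a1_C0.Swap57 (NM Mt)
open Pool.W7d29a1.C0 (gm gm_nonneg gm_mono gm_const)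
open Pool.W7d29a1.C0.VT31 (cE)
open Pool.W7d29a1.C0.GSC52 (mN Nj mq pq mqF pqF RwF MqN mN_nonneg mN_le_one)
open Pool.W7d29a1.C0.GSF52 (PqM)
open Pool.Agent.W_7d29a1_C0.KickT32 (mC)

noncomputable section

variable {μ : Measure ℝ} {s : ℝ} {N : ℕ}

/-! ### The place of a row -/

/-- No meeting on one of the two sides. -/
def NB (lo al be hi : ℕ) (S S' : Finset ℕ) : Prop :=
  ¬ ((∃ k, lo ≤ k ∧ k ≤ al ∧ pos S k = pos S' k) ∧ ∃ k, be ≤ k ∧ k ≤ hi ∧ pos S k = pos S' k)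

/-- The length of the shorter side. -/
def len (b σ j : ℕ) : ℕ := min (j - b - j / σ * σ) (j / σ * σ + σ - (j + b))

/-- The place of the row `j`. -/
def plj (b σ m j : ℕ) : Plc :=
  ⟨j / (m * σ) * (m * σ), j / (m * σ) * (m * σ) + m * σ, j / (m * σ) * (m * σ), j / (m * σ) * (m * σ) + m * σ, j / σ * σ, j / σ * σ + σ,
    len b σ j, Ty.L, False⟩

theorem blk_sub {σ m : ℕ} (hσ : 0 < σ) (hm : 0 < m) (j : ℕ) :
    j / (m * σ) * (m * σ) ≤ j / σ * σ ∧ j / σ * σ + σ ≤ j / (m * σ) * (m * σ) + m * σ := by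
  have h3 : j / (m * σ) * (m * σ) ≤ j / σ * σ := by
    have h4 : j / (m * σ) * m ≤ j / σ := by
      rw [Nat.le_div_iff_mul_le hσ, mul_assoc]
      exact Nat.div_mul_le_self j (m * σ)
    calc j / (m * σ) * (m * σ) = j / (m * σ) * m * σ := by ring
      _ ≤ j / σ * σ := Nat.mul_le_mul_right σ h4
  have h5 : (j / σ + 1) * σ ≤ (j / (m * σ) + 1) * (m * σ) := by
    have h6 : j / σ + 1 ≤ (j / (m * σ) + 1) * m := by
      have h7 : j / σ < (j / (m * σ) + 1) * m := by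
        rw [Nat.div_lt_iff_lt_mul hσ, mul_assoc]
        exact Nat.lt_mul_of_div_lt (Nat.lt_succ_self _) (Nat.mul_pos hm hσ)
      exact h7
    calc (j / σ + 1) * σ ≤ (j / (m * σ) + 1) * m * σ := Nat.mul_le_mul_right σ h6
      _ = (j / (m * σ) + 1) * (m * σ) := by ring
  refine ⟨h3, ?_⟩
  calc j / σ * σ + σ = (j / σ + 1) * σ := by ring
    _ ≤ (j / (m * σ) + 1) * (m * σ) := h5
    _ = _ := by ring

theorem dom_mN {y b σ m j : ℕ} {X M : ℝ} (hX : 2 ≤ X) (hσ : 0 < σ) (hm : 0 < m) (h1 : j / σ * σ + b ≤ j) (h2 : j + b ≤ j / σ * σ + σ) :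
    Dom μ s N y X M (plj b σ m j) (fun ω x => mN (wm μ s N (Pn N y) ω) b σ m j x) := by
  obtain ⟨a1, a2⟩ := blk_sub hσ hm j
  refine ⟨fun ω x => ?_, fun ω x => ?_, Or.inl ⟨fun h => h, NB (j / σ * σ) (j - b) (j + b) (j / σ * σ + σ), 2,
    fun n => if n = 0 then j / σ * σ else j + b, fun n => if n = 0 then j - b else j / σ * σ + σ, by simpa using hX, ?_, ?_, ?_⟩⟩
  · have : Nonempty (Px (Pn N y)) := ⟨x⟩
    exact mN_nonneg _ _ _ _ _ x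
  · have : Nonempty (Px (Pn N y)) := ⟨x⟩
    exact mN_le_one _ _ _ _ _ x
  · intro n _
    have l1 : len b σ j ≤ j - b - j / σ * σ := min_le_left _ _
    have l2 : len b σ j ≤ j / σ * σ + σ - (j + b) := min_le_right _ _
    show j / σ * σ ≤ (if n = 0 then j / σ * σ else j + b) ∧
      (if n = 0 then j / σ * σ else j + b) + len b σ j ≤ (if n = 0 then j - b else j / σ * σ + σ) ∧
      (if n = 0 then j - b else j / σ * σ + σ) ≤ j / σ * σ + σ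
    split_ifs
    · generalize j / σ * σ = r at *
      omega
    · generalize j / σ * σ = r at *
      omega
  · intro S S' _ _ _ _ hag hA
    show ∃ n < 2, Gap (j / (m * σ) * (m * σ)) (j / (m * σ) * (m * σ) + m * σ) (if n = 0 then j / σ * σ else j + b)
      (if n = 0 then j - b else j / σ * σ + σ) S S'
    have hag' : ∀ i, i ≤ j / (m * σ) * (m * σ) ∨ j / (m * σ) * (m * σ) + m * σ ≤ i → pos S i = pos S' i := hag
    generalize j / (m * σ) * (m * σ) = r' at *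
    generalize j / σ * σ = r at *
    unfold NB at hA
    rw [not_and_or] at hA
    rcases hA with hA | hA
    · refine ⟨0, by norm_num, ?_⟩
      rw [if_pos rfl, if_pos rfl]
      exact gap_of_nm (by omega) (by omega) hag' fun k k1 k2 e => hA ⟨k, k1, k2, e⟩
    · refine ⟨1, by norm_num, ?_⟩
      rw [if_neg one_ne_zero, if_neg one_ne_zero]
      exact gap_of_nm (by omega) (by omega) hag' fun k k1 k2 e => hA ⟨k, k1, k2, e⟩
  · intro ω x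
    classical
    have e1 : mN (wm μ s N (Pn N y) ω) b σ m j x =
        mc μ s N y (j / (m * σ) * (m * σ)) (j / (m * σ) * (m * σ) + m * σ) (NB (j / σ * σ) (j - b) (j + b) (j / σ * σ + σ)) ω.1 x.1 := by
      unfold mN mC mc
      rw [dif_pos x.2]
      show cE (lw μ s ω.1 N (Pn N y)) _ _ _ = cE (lw μ s ω.1 N (Pn N y)) _ _ _
      congr 1
      funext x'
      show (if Mt (j / σ * σ) (j - b) (j + b) (j / σ * σ + σ) x x' then (0 : ℝ) else 1) = _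
      by_cases hM : Mt (j / σ * σ) (j - b) (j + b) (j / σ * σ + σ) x x'
      · rw [if_pos hM, if_neg (fun h => h hM)]
      · rw [if_neg hM, if_pos (show NB (j / σ * σ) (j - b) (j + b) (j / σ * σ + σ) x.1 x'.1 from hM)]
    show mN (wm μ s N (Pn N y) ω) b σ m j x ≤ Real.exp X *
      mc μ s N y (j / (m * σ) * (m * σ)) (j / (m * σ) * (m * σ) + m * σ) (NB (j / σ * σ) (j - b) (j + b) (j / σ * σ + σ)) ω.1 x.1
    rw [← e1]
    have : Nonempty (Px (Pn N y)) := ⟨x⟩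
    exact le_mul_of_one_le_left (mN_nonneg _ _ _ _ _ x) (Real.one_le_exp (by linarith))

/-! ### The lengths -/

/-- The rows are deep: the shorter side is at least `n ^ (-ι) σ / 2`. -/
theorem len_ge {n ι δ : ℝ} {M q j b σ : ℕ} (hn : 1 ≤ n) (hι : ι ≤ δ / 16) (h4 : 4 ≤ n ^ (δ / 16)) (hσ : σ = 2 ^ q)
    (hb : 1 ≤ b) (hq : q ≤ M) (hbσ : n ^ (δ / 8) * (b : ℝ) ≤ (σ : ℝ)) (hj : j ∈ Kr N M (n ^ (-ι))) :
    j / σ * σ + b ≤ j ∧ j + b ≤ j / σ * σ + σ ∧ n ^ (-ι) * (σ : ℝ) / 2 ≤ ((len b σ j : ℕ) : ℝ) := by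
  have hn0 : 0 < n := by linarith
  unfold Kr at hj
  simp only [mem_filter] at hj
  obtain ⟨h1, h2⟩ := hj.2 q hq
  have e0 : (2 : ℝ) ^ q = ((σ : ℕ) : ℝ) := by
    rw [hσ]
    push_cast
    rfl
  rw [e0, ← hσ] at h1 h2
  have hσ0 : 0 < σ := by
    rw [hσ]
    positivity
  have h5 := Nat.div_add_mod j σ
  have h6 : j % σ < σ := Nat.mod_lt _ hσ0
  rw [mul_comm] at h5
  have hb1 : (1 : ℝ) ≤ b := by exact_mod_cast hb
  have g1 : 4 * (b : ℝ) ≤ n ^ (-ι) * σ := by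
    calc 4 * (b : ℝ) ≤ n ^ (δ / 16) * b := mul_le_mul_of_nonneg_right h4 (by linarith)
      _ = n ^ (-(δ / 16)) * (n ^ (δ / 8) * b) := by
          rw [← mul_assoc, ← Real.rpow_add hn0]
          congr 2
          ring
      _ ≤ n ^ (-ι) * σ :=
          mul_le_mul (Real.rpow_le_rpow_of_exponent_le hn (by linarith)) hbσ (by positivity) (Real.rpow_nonneg hn0.le _)
  have g2 : b ≤ j % σ := by
    have : (b : ℝ) ≤ ((j % σ : ℕ) : ℝ) := by linarith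
    exact_mod_cast this
  have g3 : b ≤ σ - j % σ := by
    have : (b : ℝ) ≤ ((σ - j % σ : ℕ) : ℝ) := by linarith
    exact_mod_cast this
  have l1 : j - b - j / σ * σ = j % σ - b := by
    generalize j / σ * σ = r at *
    omega
  have l2 : j / σ * σ + σ - (j + b) = σ - j % σ - b := by
    generalize j / σ * σ = r at *
    omega
  refine ⟨?_, ?_, ?_⟩
  · generalize j / σ * σ = r at *
    omega
  · generalize j / σ * σ = r at *
    omega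
  · unfold len
    rw [l1, l2, Nat.cast_min, le_min_iff, Nat.cast_sub g2, Nat.cast_sub g3]
    constructor <;> linarith

/-- The errors. -/
theorem err_ev {a : ℝ} (ha : 0 < a) : ∀ᶠ m : ℕ in atTop, 5 * Real.exp (-(((2 ^ m : ℕ) : ℝ) ^ a)) ≤ (((2 ^ m : ℕ) : ℝ) ^ 2)⁻¹ := by
  obtain ⟨k, hk⟩ := exists_nat_ge (2 / a)
  have h1 : Tendsto (fun m : ℕ => ((2 ^ m : ℕ) : ℝ) ^ a) atTop atTop := (tendsto_rpow_atTop ha).comp tend_n
  have h2 := (Real.tendsto_pow_mul_exp_neg_atTop_nhds_zero k).comp h1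
  filter_upwards [h2.eventually_lt_const (show (0 : ℝ) < 1 / 5 by norm_num)] with m hm
  obtain ⟨n, hn⟩ : ∃ n : ℝ, n = ((2 ^ m : ℕ) : ℝ) := ⟨_, rfl⟩
  have hn1 : 1 ≤ n := hn ▸ n_ge1 m
  have hn0 : 0 < n := by linarith
  simp only [Function.comp_apply, ← hn] at hm
  rw [← hn]
  have e1 : n ^ 2 ≤ (n ^ a) ^ k := by
    rw [← Real.rpow_natCast (n ^ a) k, ← Real.rpow_mul hn0.le, ← Real.rpow_natCast n 2]
    refine Real.rpow_le_rpow_of_exponent_le hn1 ?_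
    rw [div_le_iff₀ ha] at hk
    push_cast
    linarith
  have e2 : n ^ 2 * Real.exp (-(n ^ a)) ≤ 1 / 5 :=
    (mul_le_mul_of_nonneg_right e1 (Real.exp_pos _).le).trans hm.le
  rw [← one_div, le_div_iff₀ (by positivity)]
  nlinarith

/-- The unit at the shorter side. -/
theorem EE_len [IsProbabilityMeasure μ] {c₁ C : ℝ} {n₀ : ℕ} (h : In μ s c₁ C n₀) {δ ι : ℝ} (hδ : 0 < δ) (hι : 0 < ι) :
    ∀ᶠ m : ℕ in atTop, ∀ σ l : ℕ, ((2 ^ m : ℕ) : ℝ) ^ δ ≤ σ → 1 ≤ l → l ≤ σ → ((2 ^ m : ℕ) : ℝ) ^ (-ι) * (σ : ℝ) / 2 ≤ l →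
      (EE' μ s l)⁻¹ ≤ ((2 ^ m : ℕ) : ℝ) ^ ι / EE μ s σ := by
  obtain ⟨a, K₂, -, -, hK₂, hpow⟩ := Pool.Agent.W_7d29a1_HZ.EE'_pow h
  obtain ⟨n₁, hw⟩ := Pool.Agent.W_7d29a1_HZ.wd'_eq h
  filter_upwards [ev_n (show 0 < ι / 2 by positivity) (2 * K₂), ev_n hδ n₁] with m h1 h2 σ l hσ hl hlσ hls
  obtain ⟨n, hn⟩ : ∃ n : ℝ, n = ((2 ^ m : ℕ) : ℝ) := ⟨_, rfl⟩
  have hn1 : 1 ≤ n := hn ▸ n_ge1 m
  have hn0 : 0 < n := by linarith
  rw [← hn] at h1 h2 hσ hls ⊢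
  have hσn : n₁ ≤ σ := by
    have := h2.trans hσ
    exact_mod_cast this
  have e1 := (hpow l σ hl hlσ).2.2
  rw [(hw σ hσn).2.1] at e1
  have hl0 : (0 : ℝ) < l := by exact_mod_cast hl
  have hE := EE_pos (μ := μ) (s := s) σ
  have hE' : 0 < EE' μ s l := lt_of_lt_of_le one_pos (le_max_left _ _)
  have e2 : (σ : ℝ) / l ≤ 2 * n ^ ι := by
    rw [div_le_iff₀ hl0]
    have e3 : n ^ ι * (n ^ (-ι) * (σ : ℝ) / 2) ≤ n ^ ι * l := mul_le_mul_of_nonneg_left hls (Real.rpow_nonneg hn0.le _)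
    have e4 : n ^ ι * n ^ (-ι) = 1 := by
      rw [← Real.rpow_add hn0]
      simp
    have e5 : n ^ ι * (n ^ (-ι) * (σ : ℝ) / 2) = (n ^ ι * n ^ (-ι)) * σ / 2 := by ring
    rw [e5, e4, one_mul] at e3
    linarith
  have e3 : Real.sqrt ((σ : ℝ) / l) ≤ 2 * n ^ (ι / 2) := by
    rw [Real.sqrt_le_left (by positivity)]
    refine e2.trans ?_
    have e4 : (n ^ (ι / 2)) ^ 2 = n ^ ι := by
      rw [← Real.rpow_natCast, ← Real.rpow_mul hn0.le]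
      congr 1
      push_cast
      ring
    rw [mul_pow, e4]
    have : 0 ≤ n ^ ι := Real.rpow_nonneg hn0.le _
    linarith
  have e4 : EE μ s σ ≤ n ^ ι * EE' μ s l := by
    calc EE μ s σ ≤ K₂ * Real.sqrt ((σ : ℝ) / l) * EE' μ s l := e1
      _ ≤ K₂ * (2 * n ^ (ι / 2)) * EE' μ s l := by gcongr
      _ = (2 * K₂) * n ^ (ι / 2) * EE' μ s l := by ring
      _ ≤ n ^ (ι / 2) * n ^ (ι / 2) * EE' μ s l := by gcongr
      _ = n ^ ι * EE' μ s l := by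
          rw [← Real.rpow_add hn0]
          congr 2
          ring
  rw [inv_eq_one_div, div_le_div_iff₀ hE' hE, one_mul]
  exact e4

/-! ### The prices -/

/-- One factor. -/
theorem core1 [IsProbabilityMeasure μ] {c₀ C₀ : ℝ} {n₀ : ℕ} (h : In μ s c₀ C₀ n₀) : ∀ ε θ : ℝ, 0 < ε → 0 < θ → ∃ δ κ c₂ : ℝ,
    0 < δ ∧ 0 < κ ∧ 0 < c₂ ∧ ∃ L₀ : ℕ,
    ∀ L : ℕ, L₀ ≤ L → ∀ N : ℕ, L ≤ 16 * N → N ≤ L → ∀ y : ℕ, y ≤ N → |(y : ℝ) - sl μ s * N| ≤ ((L : ℝ) ^ δ * wd' μ s N) →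
    ∀ M : ℝ, 8 ≤ M → M ≤ (L : ℝ) ^ κ →
    ∀ (P : Plc) (G : Env × Finset ℕ → Px (Pn N y) → ℝ), P.Ok L N θ → Dom μ s N y ((L : ℝ) ^ κ) M P G →
    ∫ ω, gm (wm μ s N (Pn N y) ω) (G ω) ∂(Pm μ N) ≤
      ((L : ℝ) ^ ε * (EE' μ s P.l)⁻¹) + (Real.exp (-(L : ℝ) ^ c₂) + 4 * Real.exp (-M)) := by
  intro ε θ hε hθ
  obtain ⟨δ, κ, c₂, hδ, hκ, hc₂, L₀, hP⟩ := price_one h 1 (by norm_num) ε θ hε hθ
  refine ⟨δ, κ, c₂, hδ, hκ, hc₂, L₀, ?_⟩
  intro L hL N hLN hNL y hyN hyc M hM hML P G o d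
  have h1 := hP L hL N hLN hNL y hyN hyc M hM hML [(P, G)] rfl
    (by simp only [List.mem_singleton]; rintro Q rfl; exact o) (List.pairwise_singleton _ _)
    (by simp only [List.mem_singleton]; rintro Q rfl; exact d)
  simp only [List.map_cons, List.map_nil, List.prod_cons, List.prod_nil, mul_one] at h1
  refine h1.trans ?_
  have := Real.exp_pos (-M)
  push_cast
  linarith

/-- The corrected scale grows with the base. -/
theorem sg_le65 [IsProbabilityMeasure μ] {c : ℝ} (hk : KapLe96 (EE μ s) (1 / 4)) (hc : 0 ≤ c) {m p p' : ℕ} (hpp : p ≤ p') :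
    sg96 (EE μ s) c m p ≤ sg96 (EE μ s) c m p' :=
  sg_mono96 EE_mono (fun n => one_le_EE n) hpp (sg_mem96 (fun n => one_le_EE n) (show (1 : ℝ) / 4 + 1 / 4 < 1 by norm_num)
    (hk (1 / 4) (by norm_num)) hc m p')

/-- **The masses of one row and of two rows**, for one end. -/
theorem core65 [IsProbabilityMeasure μ] {c₁ C : ℝ} {n₀ : ℕ} (h : In μ s c₁ C n₀) (hk : KapLe96 (EE μ s) (1 / 4)) {K : ℕ}
    (hK : 32 ≤ K) {δ c ι : ℝ} (hδ : 0 < δ) (hc : 0 ≤ c) (hcδ : c ≤ δ / 64) (hι : 0 < ι) (hι' : ι ≤ δ / 16) :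
    ∀ᶠ m : ℕ in atTop, ∀ p p' : ℕ, δ * m ≤ p → p ≤ p' → sg96 (EE μ s) c m p' ≤ m → ∀ y ∈ ys33 μ s K m,
      (∀ j ∈ R33 ι m, ∫ ω, gm (wm μ s (L33 K m) (Pn (L33 K m) y) ω) (mN (wm μ s (L33 K m) (Pn (L33 K m) y) ω) (2 ^ p)
        (2 ^ sg96 (EE μ s) c m p) (2 ^ (sg96 (EE μ s) c m p' - sg96 (EE μ s) c m p)) j) ∂(Pm μ (L33 K m)) ≤
          ((2 ^ m : ℕ) : ℝ) ^ (3 * ι) / EE μ s (2 ^ sg96 (EE μ s) c m p)) ∧
      ∀ j ∈ R33 ι m, ∀ k ∈ R33 ι m, j / 2 ^ sg96 (EE μ s) c m p' ≠ k / 2 ^ sg96 (EE μ s) c m p' →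
        ∫ ω, gm (wm μ s (L33 K m) (Pn (L33 K m) y) ω) (fun S => mN (wm μ s (L33 K m) (Pn (L33 K m) y) ω) (2 ^ p)
        (2 ^ sg96 (EE μ s) c m p) (2 ^ (sg96 (EE μ s) c m p' - sg96 (EE μ s) c m p)) j S *
        mN (wm μ s (L33 K m) (Pn (L33 K m) y) ω) (2 ^ p)
        (2 ^ sg96 (EE μ s) c m p) (2 ^ (sg96 (EE μ s) c m p' - sg96 (EE μ s) c m p)) k S) ∂(Pm μ (L33 K m)) ≤
          ((2 ^ m : ℕ) : ℝ) ^ (5 * ι) / EE μ s (2 ^ sg96 (EE μ s) c m p) ^ 2 := by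
  have hK0 : (0 : ℝ) < K := by
    have : (32 : ℝ) ≤ K := by exact_mod_cast hK
    linarith
  obtain ⟨δ₁, κ₁, c₂, hδ₁, hκ₁, hc₂, L₁, P1⟩ := core1 h (ι / K) (δ / (4 * K)) (by positivity) (by positivity)
  obtain ⟨δ₂, κ₂, c₃, hδ₂, hκ₂, hc₃, L₂, P2⟩ := gs_core2 h (ι / K) (δ / (4 * K)) (by positivity) (by positivity)
  have hsm := Pool.Agent.W_7d29a1_HK20.EE_le20 h one_pos
  filter_upwards [ev_L (by omega : 1 ≤ K) (max L₁ L₂), cone33 h hK hδ₁, cone33 h hK hδ₂, reg33 h hk hδ hc hcδ, EE_len h hδ hι,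
    ev_n (show 0 < δ / 16 by positivity) 4, ev_n (show 0 < K * κ₁ by positivity) 8, ev_n (show 0 < K * κ₂ by positivity) 8,
    (err_ev (show 0 < K * c₂ by positivity)).and (err_ev (show 0 < K * κ₁ by positivity)),
    (err_ev (show 0 < K * c₃ by positivity)).and (err_ev (show 0 < K * κ₂ by positivity)), ev_n hι 2, ev_two hsm hδ]
    with m hL hco1 hco2 hreg hEl h4 h8a h8b her1 her2 hn2 hsm' p p' hp hpp hsm1 y hy
  obtain ⟨n, hn⟩ : ∃ n : ℝ, n = ((2 ^ m : ℕ) : ℝ) := ⟨_, rfl⟩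
  have hn1 : 1 ≤ n := hn ▸ n_ge1 m
  have hn0 : 0 < n := by linarith
  have hLp : ∀ a : ℝ, ((L33 K m : ℕ) : ℝ) ^ a = n ^ (K * a) := fun a => by rw [L33_pow, hn]
  obtain ⟨hps, hEb, hbs⟩ := hreg p hp
  have hsg : sg96 (EE μ s) c m p ≤ sg96 (EE μ s) c m p' := sg_le65 hk hc hpp
  obtain ⟨q, hq⟩ : ∃ q, q = sg96 (EE μ s) c m p := ⟨_, rfl⟩
  obtain ⟨q', hq'⟩ : ∃ q', q' = sg96 (EE μ s) c m p' := ⟨_, rfl⟩
  rw [← hq] at hps hbs hsg
  rw [← hq'] at hsg hsm1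
  rw [← hq, ← hq', ← hn]
  rw [← hn] at hbs h4 h8a h8b her1 her2 hn2
  have hEσ := EE_pos (μ := μ) (s := s) (2 ^ q)
  have hEσ1 : 1 ≤ EE μ s (2 ^ q) := one_le_EE _
  have hpq : δ * m ≤ q := hp.trans (by exact_mod_cast hps)
  have hEn : EE μ s (2 ^ q) ≤ n := by
    have e1 := hsm' q hpq
    rw [one_mul] at e1
    refine e1.trans ?_
    rw [hn]
    exact_mod_cast Nat.pow_le_pow_right two_pos (hsg.trans hsm1)
  have hσδ : n ^ δ ≤ ((2 ^ q : ℕ) : ℝ) := hn ▸ two_ge hpq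
  have hmσ : 2 ^ (q' - q) * 2 ^ q = 2 ^ q' := by
    rw [← pow_add]
    congr 1
    omega
  -- the length of the shorter side
  have key : ∀ j ∈ R33 ι m, j / 2 ^ q * 2 ^ q + 2 ^ p ≤ j ∧ j + 2 ^ p ≤ j / 2 ^ q * 2 ^ q + 2 ^ q ∧
      n ^ (-ι) * ((2 ^ q : ℕ) : ℝ) / 2 ≤ ((len (2 ^ p) (2 ^ q) j : ℕ) : ℝ) := fun j hj =>
    len_ge (M := m) (q := q) hn1 hι' h4 rfl Nat.one_le_two_pow (hsg.trans hsm1) hbs (by
      rw [hn]
      exact hj)
  have hlen : ∀ j ∈ R33 ι m, ((L33 K m : ℕ) : ℝ) ^ (δ / (4 * K)) ≤ ((len (2 ^ p) (2 ^ q) j : ℕ) : ℝ) := by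
    intro j hj
    refine le_trans ?_ (key j hj).2.2
    have e1 : (K : ℝ) * (δ / (4 * K)) = δ / 4 := by field_simp
    rw [hLp, e1]
    have e2 : n ^ (δ / 4) * 2 ≤ n ^ (-ι) * ((2 ^ q : ℕ) : ℝ) := by
      calc n ^ (δ / 4) * 2 ≤ n ^ (δ / 4) * n ^ (δ / 16) := mul_le_mul_of_nonneg_left (by linarith) (Real.rpow_nonneg hn0.le _)
        _ = n ^ (δ / 4 + δ / 16) := (Real.rpow_add hn0 _ _).symm
        _ ≤ n ^ (-ι + δ) := Real.rpow_le_rpow_of_exponent_le hn1 (by linarith)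
        _ = n ^ (-ι) * n ^ δ := Real.rpow_add hn0 _ _
        _ ≤ _ := mul_le_mul_of_nonneg_left hσδ (Real.rpow_nonneg hn0.le _)
    linarith
  have hEl' : ∀ j ∈ R33 ι m, (EE' μ s (len (2 ^ p) (2 ^ q) j))⁻¹ ≤ n ^ ι / EE μ s (2 ^ q) := by
    intro j hj
    obtain ⟨k1, k2, k3⟩ := key j hj
    have l1 := hlen j hj
    have l2 : (1 : ℝ) ≤ ((len (2 ^ p) (2 ^ q) j : ℕ) : ℝ) := le_trans (by
      rw [hLp]
      exact Real.one_le_rpow hn1 (by positivity)) l1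
    have l3 : len (2 ^ p) (2 ^ q) j ≤ 2 ^ q := by
      refine (min_le_left _ _).trans ?_
      have l4 : j ≤ j / 2 ^ q * 2 ^ q + 2 ^ q := (Nat.le_add_right _ _).trans k2
      exact (Nat.sub_le_sub_right (Nat.sub_le _ _) _).trans (Nat.sub_le_iff_le_add'.2 l4)
    rw [hn]
    rw [hn] at k3 hσδ
    exact hEl (2 ^ q) _ hσδ (by exact_mod_cast l2) l3 k3
  have hrate : ∀ j ∈ R33 ι m, ((L33 K m : ℕ) : ℝ) ^ (ι / K) * (EE' μ s (len (2 ^ p) (2 ^ q) j))⁻¹ ≤ n ^ (2 * ι) / EE μ s (2 ^ q) := by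
    intro j hj
    have e1 : (K : ℝ) * (ι / K) = ι := by field_simp
    rw [hLp, e1]
    calc n ^ ι * (EE' μ s (len (2 ^ p) (2 ^ q) j))⁻¹ ≤ n ^ ι * (n ^ ι / EE μ s (2 ^ q)) :=
          mul_le_mul_of_nonneg_left (hEl' j hj) (Real.rpow_nonneg hn0.le _)
      _ = n ^ (2 * ι) / EE μ s (2 ^ q) := by
          rw [← mul_div_assoc, ← Real.rpow_add hn0]
          congr 2
          ring
  have hOk : ∀ j ∈ R33 ι m, (plj (2 ^ p) (2 ^ q) (2 ^ (q' - q)) j).Ok (L33 K m) (L33 K m) (δ / (4 * K)) := by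
    intro j hj
    obtain ⟨k1, k2, -⟩ := key j hj
    obtain ⟨a1, a2⟩ := blk_sub (show 0 < 2 ^ q by positivity) (show 0 < 2 ^ (q' - q) by positivity) j
    have hjm : j < 2 ^ m := mem_range.1 (R33_sub ι m hj)
    have a3 : j / (2 ^ (q' - q) * 2 ^ q) * (2 ^ (q' - q) * 2 ^ q) + 2 ^ (q' - q) * 2 ^ q ≤ 2 ^ m := by
      rw [hmσ]
      have e1 : 2 ^ m = 2 ^ (m - q') * 2 ^ q' := by
        rw [← pow_add]
        congr 1
        omega
      have e2 : j / 2 ^ q' < 2 ^ (m - q') := by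
        rw [Nat.div_lt_iff_lt_mul (by positivity), ← e1]
        exact hjm
      calc j / 2 ^ q' * 2 ^ q' + 2 ^ q' = (j / 2 ^ q' + 1) * 2 ^ q' := by ring
        _ ≤ 2 ^ (m - q') * 2 ^ q' := Nat.mul_le_mul_right _ e2
        _ = 2 ^ m := e1.symm
    have a4 := L33_ge (by omega : 1 ≤ K) m
    refine ⟨?_, hlen j hj⟩
    show j / (2 ^ (q' - q) * 2 ^ q) * (2 ^ (q' - q) * 2 ^ q) ≤ j / (2 ^ (q' - q) * 2 ^ q) * (2 ^ (q' - q) * 2 ^ q) ∧
      j / (2 ^ (q' - q) * 2 ^ q) * (2 ^ (q' - q) * 2 ^ q) ≤ j / 2 ^ q * 2 ^ q ∧ j / 2 ^ q * 2 ^ q ≤ j / 2 ^ q * 2 ^ q + 2 ^ q ∧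
      j / 2 ^ q * 2 ^ q + 2 ^ q ≤ j / (2 ^ (q' - q) * 2 ^ q) * (2 ^ (q' - q) * 2 ^ q) + 2 ^ (q' - q) * 2 ^ q ∧
      j / (2 ^ (q' - q) * 2 ^ q) * (2 ^ (q' - q) * 2 ^ q) + 2 ^ (q' - q) * 2 ^ q ≤
        j / (2 ^ (q' - q) * 2 ^ q) * (2 ^ (q' - q) * 2 ^ q) + 2 ^ (q' - q) * 2 ^ q ∧
      j / (2 ^ (q' - q) * 2 ^ q) * (2 ^ (q' - q) * 2 ^ q) + 2 ^ (q' - q) * 2 ^ q ≤ L33 K m
    exact ⟨le_rfl, a1, Nat.le_add_right _ _, a2, le_rfl, a3.trans a4⟩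
  have hyI := mem_Ico.1 (show y ∈ Ico (y33 μ s K m) (y33 μ s K m + M33 m) from hy)
  obtain ⟨hyL, hc1⟩ := hco1.2.2 y (by omega) (by omega)
  obtain ⟨-, hc2'⟩ := hco2.2.2 y (by omega) (by omega)
  have hσ0 : 0 < 2 ^ q := by positivity
  have hm0 : 0 < 2 ^ (q' - q) := by positivity
  have hin : (n ^ 2)⁻¹ ≤ 1 / EE μ s (2 ^ q) ^ 2 := by
    rw [inv_eq_one_div]
    exact one_div_le_one_div_of_le (by positivity) (pow_le_pow_left₀ hEσ.le hEn 2)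
  have hin1 : 1 / EE μ s (2 ^ q) ^ 2 ≤ 1 / EE μ s (2 ^ q) :=
    one_div_le_one_div_of_le hEσ (by nlinarith)
  have hX1 : 1 ≤ n ^ (2 * ι) := Real.one_le_rpow hn1 (by positivity)
  have hX2 : 1 ≤ n ^ (4 * ι) := Real.one_le_rpow hn1 (by positivity)
  constructor
  · intro j hj
    obtain ⟨k1, k2, -⟩ := key j hj
    have h1 := P1 (L33 K m) ((le_max_left _ _).trans hL) (L33 K m) (by omega) le_rfl y hyL hc1 (((L33 K m : ℕ) : ℝ) ^ κ₁)
      (by rw [hLp]; exact h8a) le_rfl (plj (2 ^ p) (2 ^ q) (2 ^ (q' - q)) j) _ (hOk j hj)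
      (dom_mN (by rw [hLp]; linarith) hσ0 hm0 k1 k2)
    refine h1.trans ?_
    have e1 := hrate j hj
    have e2 : Real.exp (-((L33 K m : ℕ) : ℝ) ^ c₂) + 4 * Real.exp (-((L33 K m : ℕ) : ℝ) ^ κ₁) ≤ (n ^ 2)⁻¹ := by
      rw [hLp, hLp]
      linarith [her1.1, her1.2]
    calc _ ≤ n ^ (2 * ι) / EE μ s (2 ^ q) + (n ^ 2)⁻¹ := add_le_add e1 e2
      _ ≤ n ^ (2 * ι) / EE μ s (2 ^ q) + n ^ (2 * ι) / EE μ s (2 ^ q) := by
          refine add_le_add le_rfl ((hin.trans hin1).trans ?_)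
          exact div_le_div_of_nonneg_right hX1 hEσ.le
      _ = (2 * n ^ (2 * ι)) / EE μ s (2 ^ q) := by ring
      _ ≤ n ^ (3 * ι) / EE μ s (2 ^ q) := by
          refine div_le_div_of_nonneg_right ?_ hEσ.le
          calc 2 * n ^ (2 * ι) ≤ n ^ ι * n ^ (2 * ι) := mul_le_mul_of_nonneg_right hn2 (by linarith)
            _ = n ^ (3 * ι) := by
                rw [← Real.rpow_add hn0]
                congr 1
                ring
  · intro j hj k hk' hjk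
    obtain ⟨k1, k2, -⟩ := key j hj
    obtain ⟨k3, k4, -⟩ := key k hk'
    have hbef : (plj (2 ^ p) (2 ^ q) (2 ^ (q' - q)) j).Bef (plj (2 ^ p) (2 ^ q) (2 ^ (q' - q)) k) := by
      show j / (2 ^ (q' - q) * 2 ^ q) * (2 ^ (q' - q) * 2 ^ q) + 2 ^ (q' - q) * 2 ^ q ≤ k / (2 ^ (q' - q) * 2 ^ q) * (2 ^ (q' - q) * 2 ^ q) ∨
        k / (2 ^ (q' - q) * 2 ^ q) * (2 ^ (q' - q) * 2 ^ q) + 2 ^ (q' - q) * 2 ^ q ≤ j / (2 ^ (q' - q) * 2 ^ q) * (2 ^ (q' - q) * 2 ^ q) ∨ _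
      rw [hmσ]
      rcases lt_or_gt_of_ne hjk with h1 | h1
      · left
        calc j / 2 ^ q' * 2 ^ q' + 2 ^ q' = (j / 2 ^ q' + 1) * 2 ^ q' := by ring
          _ ≤ k / 2 ^ q' * 2 ^ q' := Nat.mul_le_mul_right _ h1
      · right
        left
        calc k / 2 ^ q' * 2 ^ q' + 2 ^ q' = (k / 2 ^ q' + 1) * 2 ^ q' := by ring
          _ ≤ j / 2 ^ q' * 2 ^ q' := Nat.mul_le_mul_right _ h1
    have h1 := P2 (L33 K m) ((le_max_right _ _).trans hL) (L33 K m) (by omega) le_rfl y hyL hc2' (((L33 K m : ℕ) : ℝ) ^ κ₂)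
      (by rw [hLp]; exact h8b) le_rfl (plj (2 ^ p) (2 ^ q) (2 ^ (q' - q)) j) (plj (2 ^ p) (2 ^ q) (2 ^ (q' - q)) k) _ _ (hOk j hj) (hOk k hk')
      (dom_mN (by rw [hLp]; linarith) hσ0 hm0 k1 k2) (dom_mN (by rw [hLp]; linarith) hσ0 hm0 k3 k4) hbef
    refine h1.trans ?_
    have e1 := hrate j hj
    have e1' := hrate k hk'
    have e2 : Real.exp (-((L33 K m : ℕ) : ℝ) ^ c₃) + 4 * Real.exp (-((L33 K m : ℕ) : ℝ) ^ κ₂) ≤ (n ^ 2)⁻¹ := by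
      rw [hLp, hLp]
      linarith [her2.1, her2.2]
    have e3 : 0 ≤ ((L33 K m : ℕ) : ℝ) ^ (ι / K) * (EE' μ s (len (2 ^ p) (2 ^ q) k))⁻¹ :=
      mul_nonneg (Real.rpow_nonneg (Nat.cast_nonneg _) _) (inv_nonneg.2 (zero_le_one.trans (le_max_left _ _)))
    calc _ ≤ n ^ (2 * ι) / EE μ s (2 ^ q) * (n ^ (2 * ι) / EE μ s (2 ^ q)) + (n ^ 2)⁻¹ :=
          add_le_add (mul_le_mul e1 e1' e3 (by positivity)) e2
      _ ≤ n ^ (4 * ι) / EE μ s (2 ^ q) ^ 2 + n ^ (4 * ι) / EE μ s (2 ^ q) ^ 2 := by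
          refine add_le_add (le_of_eq ?_) (hin.trans ?_)
          · rw [div_mul_div_comm, ← Real.rpow_add hn0, ← sq]
            congr 2
            ring
          · exact div_le_div_of_nonneg_right hX2 (by positivity)
      _ = (2 * n ^ (4 * ι)) / EE μ s (2 ^ q) ^ 2 := by ring
      _ ≤ n ^ (5 * ι) / EE μ s (2 ^ q) ^ 2 := by
          refine div_le_div_of_nonneg_right ?_ (by positivity)
          calc 2 * n ^ (4 * ι) ≤ n ^ ι * n ^ (4 * ι) := mul_le_mul_of_nonneg_right hn2 (by linarith)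
            _ = n ^ (5 * ι) := by
                rw [← Real.rpow_add hn0]
                congr 1
                ring

/-! ### The contracts -/

theorem avy_le65 {ys : Finset ℕ} {Φ : ℕ → ℝ} {R : ℝ} (hR : 0 ≤ R) (h : ∀ y ∈ ys, Φ y ≤ R) : avy ys Φ ≤ R := by
  unfold avy
  rcases eq_or_ne (ys.card : ℝ) 0 with h0 | h0
  · rw [h0, inv_zero, zero_mul]
    exact hR
  · have h1 := sum_le_card_nsmul ys Φ R h
    rw [nsmul_eq_mul] at h1
    calc (ys.card : ℝ)⁻¹ * ∑ y ∈ ys, Φ y ≤ (ys.card : ℝ)⁻¹ * (ys.card * R) := mul_le_mul_of_nonneg_left h1 (by positivity)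
      _ = R := by rw [← mul_assoc, inv_mul_cancel₀ h0, one_mul]

/-- **One row**: `MqL96` of `KbE96`. -/
theorem mqL65 [IsProbabilityMeasure μ] {c₁ C : ℝ} {n₀ : ℕ} (h : In μ s c₁ C n₀) (hk : KapLe96 (EE μ s) (1 / 4)) {K : ℕ}
    (hK : 32 ≤ K) (Θ : ℝ) : Sml fun δ => Sml fun c => ∀ η : ℝ, 0 < η → η ≤ c / 64 → ∃ C : ℝ,
      Est fun ι β γ m => MqN μ s (frm33 μ s K ι β γ) (EE μ s) Θ δ c η (C * ι) m :=
  Sml.of fun δ hδ => ⟨δ / 64, by positivity, fun c hc hcδ η _ _ => ⟨3, δ / 16, by positivity, fun ι hι hι' =>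
    Sml.of fun β _ => Sml.of fun γ _ => by
      filter_upwards [core65 h hk hK hδ hc.le hcδ hι hι'] with m hm p p' q i hC hi j hj
      have hqm : (q : ℝ) ≤ m := by
        have h1 := hC.hqm
        have h2 : (0 : ℝ) ≤ m := Nat.cast_nonneg _
        nlinarith
      have hsq : sg96 (EE μ s) c m p' ≤ m := by
        have h1 := hC.hsq'
        have h2 : 0 ≤ c * (m : ℝ) := mul_nonneg hc.le (Nat.cast_nonneg _)
        have h3 : (sg96 (EE μ s) c m p' : ℝ) ≤ m := by linarith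
        exact_mod_cast h3
      exact avy_le65 (div_nonneg (Real.rpow_nonneg (Nat.cast_nonneg _) _) (EE_pos _).le) fun y hy =>
        (hm p p' hC.hp hC.hpp hsq y hy).1 j (mem_inter.1 hj).1⟩⟩

/-- **Two rows in different blocks `B'`**: `PqM` of `GSF52` at the concrete frame. -/
theorem pqL65 [IsProbabilityMeasure μ] {c₁ C : ℝ} {n₀ : ℕ} (h : In μ s c₁ C n₀) (hk : KapLe96 (EE μ s) (1 / 4)) {K : ℕ}
    (hK : 32 ≤ K) (Θ : ℝ) : Sml fun δ => Sml fun c => ∀ η : ℝ, 0 < η → η ≤ c / 64 → ∃ C : ℝ,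
      Est fun ι β γ m => PqM μ s (frm33 μ s K ι β γ) (EE μ s) Θ δ c η (C * ι) m :=
  Sml.of fun δ hδ => ⟨δ / 64, by positivity, fun c hc hcδ η _ _ => ⟨5, δ / 16, by positivity, fun ι hι hι' =>
    Sml.of fun β _ => Sml.of fun γ _ => by
      filter_upwards [core65 h hk hK hδ hc.le hcδ hι hι'] with m hm p p' q i hC hi j hj k hkk hjk
      have hqm : (q : ℝ) ≤ m := by
        have h1 := hC.hqm
        have h2 : (0 : ℝ) ≤ m := Nat.cast_nonneg _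
        nlinarith
      have hsq : sg96 (EE μ s) c m p' ≤ m := by
        have h1 := hC.hsq'
        have h2 : 0 ≤ c * (m : ℝ) := mul_nonneg hc.le (Nat.cast_nonneg _)
        have h3 : (sg96 (EE μ s) c m p' : ℝ) ≤ m := by linarith
        exact_mod_cast h3
      exact avy_le65 (div_nonneg (Real.rpow_nonneg (Nat.cast_nonneg _) _) (by have := EE_pos (μ := μ) (s := s) (2 ^ sg96 (EE μ s) c m p); positivity))
        fun y hy => (hm p p' hC.hp hC.hpp hsq y hy).2 j (mem_inter.1 hj).1 k (mem_inter.1 hkk).1 hjk⟩⟩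

end

end Pool.Agent.W_7d29a1_C0.MqN65
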