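import Pool.Agent.W_7d29a1_C0.KbE96
import Pool.Agent.W_7d29a1_C0.MqN65
import Pool.Agent.W_7d29a1_C0.NumL32
import Pool.Agent.W_7d29a1_C0.GSW73

/-!
STORM C0 (helper96): THE KICK OF GS AT THE CONCRETE FRAME FROM ONE PRICE. `kbZ96`: `KbL65` (the contract of the lower bound for the kick) from
`PrU73` (the price of the bad boxes, section S5); everything else of GS is proved: one row (`mqL65`), two rows (`pqL65`), the row of the kick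
(`rowL52` from `rbL73` and `numL32`).
-/

set_option autoImplicit false

namespace Pool.Agent.W_7d29a1_C0.Asm96

open MeasureTheory Filter Topology
open Pool.Agent.W_7d29a1_F Pool.Agent.W_7d29a1_X Pool.Agent.W_7d29a1_HS Pool.Agent.W_7d29a1_HZ
open Pool.Agent.W_7d29a1_C0.Frm33 Pool.Agent.W_7d29a1_C0.Par92 Pool.Agent.W_7d29a1_C0.Q32
open Pool.Agent.W_7d29a1_H (EE EE_mono one_le_EE EE_pos)
open Pool.Agent.W_7d29a1_C0.MqN65 (mqL65 pqL65)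
open Pool.Agent.W_7d29a1_C0.NumL32 (numL32)
open Pool.W7d29a1.C0 Pool.W7d29a1.C0.GSC52 Pool.W7d29a1.C0.GSF52 Pool.W7d29a1.C0.GSH52 Pool.W7d29a1.C0.Bd73

variable {μ : Measure ℝ} {s : ℝ} {K : ℕ} {Θ : ℝ}

/-- **THE KICK OF GS FROM ONE PRICE.** -/
theorem kbZ96 [IsProbabilityMeasure μ] {c₁ C₁ : ℝ} {n₀ : ℕ} (h : In μ s c₁ C₁ n₀) (hk : KapLe96 (EE μ s) (1 / 4)) (hK : 32 ≤ K)
    (hΘ : 0 < Θ) {c₀ : ℝ} (hR : RegP46 μ s c₀ Θ) {u : ℝ → ℝ → ℝ} {Cw θ : ℝ} (hW : WL μ u Cw θ) (hP : PrU73 μ s) : KbL65 μ s K Θ :=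
  kbL96 (by omega) hΘ hk (mqL65 h hk hK Θ) (pqL65 h hk hK Θ)
    (rowL52 h hk hK hΘ hW (rbL73 h hk hK hP) (numL32 hR (by omega) hW.hC hW.hθ))

end Pool.Agent.W_7d29a1_C0.Asm96
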