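import Pool.Agent.W_7d29a1_C0.Mod92

/-!
CURV0 (MP_7d29a1_pr), leaf (T), GEOMETRY (D) of helper57 (helper36). The kicked rows are deep in every dyadic block: `en i j` = the end
of the block of length `2 ^ i` of the row `j`, `zz z i j = min (en i j) z`; the rows of the level `i`: `zz z i j < zz z (i + 1) j`.
Two rows of one level lie in one block of length `2 ^ i` (all data coincide), or in different blocks of length `2 ^ (i + 1)` (the data are
apart, in the order of the rows). The same for the jump from the level `i` to `z`.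
-/

set_option autoImplicit false

namespace Pool.Agent.W_7d29a1_C0.GeoD36

open Finset Pool.Agent.W_7d29a1_C0 Pool.Agent.W_7d29a1_C0.Mod92

noncomputable section

/-- The end of the block of length `2 ^ i` of the row `j`. -/
def en (i j : ℕ) : ℕ := (j / 2 ^ i + 1) * 2 ^ i

/-- The start of the block of length `2 ^ i` of the row `j`. -/
def st (i j : ℕ) : ℕ := j / 2 ^ i * 2 ^ i

/-- The row `z` of the level `i`. -/
def zz (z i j : ℕ) : ℕ := min (en i j) z

/-- A quarter of the distance of the kicked rows to the ends of the blocks of length `2 ^ i`. -/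
def xx (ρ : ℝ) (i : ℕ) : ℕ := ⌊ρ * 2 ^ i / 4⌋₊

/-- The row `a₀` of the level `i`. -/
def aa (ρ : ℝ) (z i j : ℕ) : ℕ := zz z i j - 3 * xx ρ i

/-- The rows of the level `i`. -/
def Sr (S : Finset ℕ) (z i : ℕ) : Finset ℕ := S.filter fun j => zz z i j < zz z (i + 1) j

/-- The rows of the jump from the level `i` to `z`. -/
def Sj (S : Finset ℕ) (z i : ℕ) : Finset ℕ := S.filter fun j => zz z i j < z

variable {ρ : ℝ} {N M z i i' j k q : ℕ}

/-! ### The blocks -/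

theorem en_eq (i j : ℕ) : en i j = st i j + 2 ^ i := by
  unfold en st
  ring

theorem st_le (i j : ℕ) : st i j ≤ j := Nat.div_mul_le_self _ _

theorem lt_en (i j : ℕ) : j < en i j := by
  have h1 := Nat.div_add_mod j (2 ^ i)
  have h2 : j % 2 ^ i < 2 ^ i := Nat.mod_lt _ (by positivity)
  have h3 : 2 ^ i * (j / 2 ^ i) = st i j := Nat.mul_comm _ _
  rw [en_eq]
  omega

theorem st_add_mod (i j : ℕ) : st i j + j % 2 ^ i = j := by
  have h1 := Nat.div_add_mod j (2 ^ i)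
  have h3 : 2 ^ i * (j / 2 ^ i) = st i j := Nat.mul_comm _ _
  omega

theorem en_sub (i j : ℕ) : j + (2 ^ i - j % 2 ^ i) = en i j := by
  have h1 := st_add_mod i j
  have h2 : j % 2 ^ i < 2 ^ i := Nat.mod_lt _ (by positivity)
  rw [en_eq]
  omega

/-- The larger block, in the first half (the ends differ) or in the second half (the same end). -/
theorem halves (i j : ℕ) : (st (i + 1) j = st i j ∧ en (i + 1) j = en i j + 2 ^ i) ∨
    (st (i + 1) j + 2 ^ i = st i j ∧ en (i + 1) j = en i j) := by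
  have e : (2 : ℕ) ^ (i + 1) = 2 ^ i * 2 := pow_succ _ _
  have h1 : j / 2 ^ (i + 1) = j / 2 ^ i / 2 := by rw [e, Nat.div_div_eq_div_mul]
  obtain ⟨u, hu⟩ : ∃ u, u = j / 2 ^ i := ⟨_, rfl⟩
  have hs : st i j = u * 2 ^ i := by rw [hu]; rfl
  have hs' : st (i + 1) j = u / 2 * (2 ^ i * 2) := by
    rw [hu, ← e, ← h1]
    rfl
  rw [en_eq, en_eq, e]
  rcases Nat.even_or_odd' u with ⟨v, hv | hv⟩
  · left
    have h2 : u / 2 = v := by omega
    have h3 : st (i + 1) j = st i j := by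
      rw [hs', hs, h2, hv]
      ring
    exact ⟨h3, by omega⟩
  · right
    have h2 : u / 2 = v := by omega
    have h3 : st (i + 1) j + 2 ^ i = st i j := by
      rw [hs', hs, h2, hv]
      ring
    exact ⟨h3, by omega⟩

theorem en_mono_succ (i j : ℕ) : en i j ≤ en (i + 1) j := by
  have h0 := Nat.zero_le (2 ^ i)
  rcases halves i j with ⟨_, h⟩ | ⟨_, h⟩ <;> omega

theorem en_mono (h : i ≤ i') (j : ℕ) : en i j ≤ en i' j := by
  induction i', h using Nat.le_induction with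
  | base => exact le_rfl
  | succ n _ ih => exact ih.trans (en_mono_succ n j)

theorem en_mono_row (i : ℕ) (h : j ≤ k) : en i j ≤ en i k := by
  unfold en
  exact Nat.mul_le_mul_right _ (Nat.succ_le_succ (Nat.div_le_div_right h))

theorem st_mono_row (i : ℕ) (h : j ≤ k) : st i j ≤ st i k := Nat.mul_le_mul_right _ (Nat.div_le_div_right h)

/-- Two rows in one block: the same start and the same end. -/
theorem same_en (h : j / 2 ^ i = k / 2 ^ i) : st i j = st i k ∧ en i j = en i k := by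
  unfold en st
  rw [h]
  exact ⟨rfl, rfl⟩

/-- One block on the level `i`, one block on all higher levels. -/
theorem same_up (h : j / 2 ^ i = k / 2 ^ i) (hi : i ≤ i') : j / 2 ^ i' = k / 2 ^ i' := by
  obtain ⟨t, rfl⟩ := Nat.exists_eq_add_of_le hi
  rw [pow_add, ← Nat.div_div_eq_div_mul, ← Nat.div_div_eq_div_mul, h]

/-- Different blocks. -/
theorem diff_en (h : j / 2 ^ i ≠ k / 2 ^ i) (hjk : j ≤ k) : en i j ≤ st i k := by
  have h1 : j / 2 ^ i ≤ k / 2 ^ i := Nat.div_le_div_right hjk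
  unfold en st
  exact Nat.mul_le_mul_right _ (by omega)

/-- Rows in one block are at a distance less than its length. -/
theorem same_dist (h : j / 2 ^ i = k / 2 ^ i) : j < k + 2 ^ i ∧ k < j + 2 ^ i := by
  obtain ⟨h1, h2⟩ := same_en h
  have h3 := st_le i j
  have h4 := st_le i k
  have h5 := lt_en i j
  have h6 := lt_en i k
  rw [en_eq] at h5 h6
  omega

/-! ### The rows of the chain -/

theorem zz_le (z i j : ℕ) : zz z i j ≤ z := min_le_right _ _

theorem zz_le_en (z i j : ℕ) : zz z i j ≤ en i j := min_le_left _ _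

theorem zz_mono_succ (z i j : ℕ) : zz z i j ≤ zz z (i + 1) j := min_le_min_right _ (en_mono_succ i j)

theorem zz_mono (h : i ≤ i') (z j : ℕ) : zz z i j ≤ zz z i' j := min_le_min_right _ (en_mono h j)

theorem zz_mono_row (z i : ℕ) (h : j ≤ k) : zz z i j ≤ zz z i k := min_le_min_right _ (en_mono_row i h)

theorem zz_same (h : j / 2 ^ i = k / 2 ^ i) (z : ℕ) : zz z i j = zz z i k := by
  unfold zz
  rw [(same_en h).2]

theorem lt_zz (hz : j < z) (i : ℕ) : j < zz z i j := lt_min (lt_en i j) hz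

/-- The first row of the chain: the end of the own block. -/
theorem zz_first (h : (j / 2 ^ i + 1) * 2 ^ i ≤ z) : zz z i j = (j / 2 ^ i + 1) * 2 ^ i := min_eq_left h

/-- The last row of the chain. -/
theorem zz_last {u : ℕ} (hj : u * 2 ^ q ≤ j) (hz : z ≤ (u + 1) * 2 ^ q) : zz z q j = z := by
  refine min_eq_right (hz.trans ?_)
  have h1 : u ≤ j / 2 ^ q := (Nat.le_div_iff_mul_le (by positivity)).2 hj
  unfold en
  exact Nat.mul_le_mul_right _ (by omega)

/-- A row of the level `i` or of the jump: its own block ends before `z`. -/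
theorem zz_en (h : zz z i j < z) : zz z i j = en i j ∧ en i j < z := by
  unfold zz at h ⊢
  rcases le_total (en i j) z with h1 | h1
  · rw [min_eq_left h1] at h ⊢
    exact ⟨rfl, h⟩
  · rw [min_eq_right h1] at h
    omega

theorem lev_lt (h : zz z i j < zz z (i + 1) j) : zz z i j < z := lt_of_lt_of_le h (zz_le _ _ _)

/-- A row of the level `i` lies in the first half of its block of length `2 ^ (i + 1)`. -/
theorem lev_half (h : zz z i j < zz z (i + 1) j) : st (i + 1) j = st i j ∧ en (i + 1) j = en i j + 2 ^ i := by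
  rcases halves i j with h1 | ⟨_, h1⟩
  · exact h1
  · exfalso
    unfold zz at h
    rw [h1] at h
    omega

/-- **THE DICHOTOMY OF THE LEVEL** (first part): one block of length `2 ^ i`, or different blocks of length `2 ^ (i + 1)`. -/
theorem lev_dich (hj : zz z i j < zz z (i + 1) j) (hk : zz z i k < zz z (i + 1) k) :
    j / 2 ^ i = k / 2 ^ i ∨ j / 2 ^ (i + 1) ≠ k / 2 ^ (i + 1) := by
  by_contra hc
  push Not at hc
  obtain ⟨h1, h2⟩ := hc
  obtain ⟨h3, _⟩ := same_en h2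
  have h4 := (lev_half hj).1
  have h5 := (lev_half hk).1
  have h6 : st i j = st i k := by omega
  unfold st at h6
  exact h1 (Nat.eq_of_mul_eq_mul_right (by positivity) h6)

/-! ### Numbers -/

theorem xx_le (hρ : 0 ≤ ρ) (i : ℕ) : (4 : ℝ) * xx ρ i ≤ ρ * 2 ^ i := by
  have h : (xx ρ i : ℝ) ≤ ρ * 2 ^ i / 4 := Nat.floor_le (by positivity)
  linarith

theorem lt_xx (ρ : ℝ) (i : ℕ) : ρ * 2 ^ i < 4 * xx ρ i + 4 := by
  have h : ρ * 2 ^ i / 4 < xx ρ i + 1 := Nat.lt_floor_add_one _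
  linarith

/-- `8 x ≤ 2 ^ i` for `ρ ≤ 1/2`. -/
theorem xx8 (hρ : 0 ≤ ρ) (h : ρ ≤ 1 / 2) (i : ℕ) : 8 * xx ρ i ≤ 2 ^ i := by
  have h1 := xx_le hρ i
  have h2 : ρ * 2 ^ i ≤ 1 / 2 * (2 : ℝ) ^ i := mul_le_mul_of_nonneg_right h (by positivity)
  have h3 : (8 : ℝ) * xx ρ i ≤ 2 ^ i := by linarith
  exact_mod_cast h3

theorem xx_mono (hρ : 0 ≤ ρ) (h : i ≤ i') : xx ρ i ≤ xx ρ i' := by
  refine Nat.floor_le_floor ?_
  have h1 : (2 : ℝ) ^ i ≤ 2 ^ i' := pow_le_pow_right₀ one_le_two h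
  have h2 := mul_le_mul_of_nonneg_left h1 hρ
  linarith

/-- The kicked rows are deep: `j + 4 x ≤ en i j`. -/
theorem deepR (hρ : 0 ≤ ρ) (hj : j ∈ Kr N M ρ) (hi : i ≤ M) : j + 4 * xx ρ i ≤ en i j := by
  unfold Kr at hj
  simp only [mem_filter] at hj
  have h1 := (hj.2 i hi).2
  have h2 := xx_le hρ i
  have h3 : (4 : ℝ) * xx ρ i ≤ ((2 ^ i - j % 2 ^ i : ℕ) : ℝ) := h2.trans h1
  have h4 : 4 * xx ρ i ≤ 2 ^ i - j % 2 ^ i := by exact_mod_cast h3
  have h5 := en_sub i j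
  omega

/-- The kicked rows are deep: `st i j + 4 x ≤ j + 1`. -/
theorem deepL (hρ : 0 ≤ ρ) (hj : j ∈ Kr N M ρ) (hi : i ≤ M) : st i j + 4 * xx ρ i ≤ j + 1 := by
  unfold Kr at hj
  simp only [mem_filter] at hj
  have h1 := (hj.2 i hi).1
  have h2 := xx_le hρ i
  have h3 : (4 : ℝ) * xx ρ i ≤ ((j % 2 ^ i : ℕ) : ℝ) + 1 := h2.trans h1
  have h4 : 4 * xx ρ i ≤ j % 2 ^ i + 1 := by exact_mod_cast h3
  have h5 := st_add_mod i j
  omega

/-- The real form of the two. -/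
theorem deepR_real (hj : j ∈ Kr N M ρ) (hi : i ≤ M) : (j : ℝ) + ρ * 2 ^ i ≤ en i j := by
  unfold Kr at hj
  simp only [mem_filter] at hj
  have h1 := (hj.2 i hi).2
  have h5 := en_sub i j
  have h6 : (j : ℝ) + ((2 ^ i - j % 2 ^ i : ℕ) : ℝ) = en i j := by exact_mod_cast h5
  linarith

theorem deepL_real (hj : j ∈ Kr N M ρ) (hi : i ≤ M) : (st i j : ℝ) + ρ * 2 ^ i ≤ j + 1 := by
  unfold Kr at hj
  simp only [mem_filter] at hj
  have h1 := (hj.2 i hi).1
  have h5 := st_add_mod i j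
  have h6 : (st i j : ℝ) + ((j % 2 ^ i : ℕ) : ℝ) = j := by exact_mod_cast h5
  linarith

/-! ### One row -/

/-- **ONE ROW** of the level `i` or of the jump: `j + x ≤ a₀`, `a₀ + 3 x = z_i ≤ z`, `j + b ≤ a₀` for every `b ≤ x`. -/
theorem row_aa (hρ : 0 ≤ ρ) (hj : j ∈ Kr N M ρ) (hi : i ≤ M) (h : zz z i j < z) :
    j + xx ρ i ≤ aa ρ z i j ∧ aa ρ z i j + 3 * xx ρ i = zz z i j ∧ zz z i j = en i j := by
  obtain ⟨h1, h2⟩ := zz_en h
  have h3 := deepR hρ hj hi
  unfold aa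
  rw [h1]
  exact ⟨by omega, by omega, rfl⟩

/-- All rows before `z` with `j + 4 x ≤ z` (the last block of the chain included). -/
theorem row_aa' (hρ : 0 ≤ ρ) (hj : j ∈ Kr N M ρ) (hi : i ≤ M) (h : j + 4 * xx ρ i ≤ z) :
    j + xx ρ i ≤ aa ρ z i j ∧ aa ρ z i j + 3 * xx ρ i = zz z i j := by
  have h3 := deepR hρ hj hi
  have h4 : j + 4 * xx ρ i ≤ zz z i j := le_min h3 h
  unfold aa
  omega

/-- One block: the data coincide. -/
theorem aa_same (h : j / 2 ^ i = k / 2 ^ i) (z : ℕ) :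
    aa ρ z i j = aa ρ z i k ∧ zz z i j = zz z i k ∧ zz z (i + 1) j = zz z (i + 1) k := by
  refine ⟨?_, zz_same h z, zz_same (same_up h (Nat.le_succ i)) z⟩
  unfold aa
  rw [zz_same h z]

/-! ### Two rows of one level -/

/-- **DIFFERENT BLOCKS OF LENGTH `2 ^ (i + 1)`**: `z'_j ≤ st ≤ k`, `z'_j + 2 ^ (i - 1) ≤ a₀ k` (twice: `2 z'_j + 2 ^ i ≤ 2 a₀ k`), and the
rows are at distance `≥ 8 x - 1`. -/
theorem lev_diff (hρ : 0 ≤ ρ) (hρ1 : ρ ≤ 1 / 2) (hj : j ∈ Kr N M ρ) (hk : k ∈ Kr N M ρ) (hi : i + 1 ≤ M) (hjk : j ≤ k)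
    (hSk : zz z i k < zz z (i + 1) k) (h : j / 2 ^ (i + 1) ≠ k / 2 ^ (i + 1)) :
    zz z (i + 1) j ≤ st i k ∧ 2 * zz z (i + 1) j + 2 ^ i ≤ 2 * aa ρ z i k ∧ j + 8 * xx ρ i ≤ k + 1 := by
  have h1 := diff_en h hjk
  have h2 := (lev_half hSk).1
  have h3 : zz z (i + 1) j ≤ st i k := by
    have := zz_le_en z (i + 1) j
    omega
  have h4 := (row_aa hρ hk (by omega) (lev_lt hSk)).2
  have h5 := xx8 hρ hρ1 i
  have h6 := en_eq i k
  have h7 := deepL hρ hk (show i ≤ M by omega)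
  have h8 := deepR hρ hj (show i ≤ M by omega)
  have h9 := en_mono_succ i j
  refine ⟨h3, by omega, by omega⟩

/-- **TWO ROWS OF ONE LEVEL.** -/
theorem lev_two (hρ : 0 ≤ ρ) (hρ1 : ρ ≤ 1 / 2) (hj : j ∈ Kr N M ρ) (hk : k ∈ Kr N M ρ) (hi : i + 1 ≤ M) (hjk : j ≤ k)
    (hSj : zz z i j < zz z (i + 1) j) (hSk : zz z i k < zz z (i + 1) k) :
    (k < j + 2 ^ i ∧ aa ρ z i j = aa ρ z i k ∧ zz z i j = zz z i k ∧ zz z (i + 1) j = zz z (i + 1) k) ∨
    (zz z (i + 1) j ≤ st i k ∧ 2 * zz z (i + 1) j + 2 ^ i ≤ 2 * aa ρ z i k ∧ j + 8 * xx ρ i ≤ k + 1) := by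
  rcases lev_dich hSj hSk with h | h
  · exact Or.inl ⟨(same_dist h).2, aa_same h z⟩
  · exact Or.inr (lev_diff hρ hρ1 hj hk hi hjk hSk h)

/-! ### The jump -/

/-- **TWO ROWS OF THE JUMP** (`z' = z` for both). -/
theorem jump_two (hρ : 0 ≤ ρ) (hρ1 : ρ ≤ 1 / 2) (hj : j ∈ Kr N M ρ) (hk : k ∈ Kr N M ρ) (hi : i ≤ M) (hjk : j ≤ k)
    (hSk : zz z i k < z) :
    (k < j + 2 ^ i ∧ aa ρ z i j = aa ρ z i k ∧ zz z i j = zz z i k) ∨
    (zz z i j ≤ st i k ∧ 2 * zz z i j + 2 ^ i ≤ 2 * aa ρ z i k ∧ j + 8 * xx ρ i ≤ k + 1) := by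
  by_cases h : j / 2 ^ i = k / 2 ^ i
  · obtain ⟨h1, h2, _⟩ := aa_same (ρ := ρ) h z
    exact Or.inl ⟨(same_dist h).2, h1, h2⟩
  · right
    have h1 := diff_en h hjk
    have h3 : zz z i j ≤ st i k := (zz_le_en z i j).trans h1
    have h4 := (row_aa hρ hk hi hSk).2
    have h5 := xx8 hρ hρ1 i
    have h6 := en_eq i k
    have h7 := deepL hρ hk hi
    have h8 := deepR hρ hj hi
    exact ⟨h3, by omega, by omega⟩

/-! ### The chain -/

/-- The first row of the chain is the end of the block `2 ^ i₀`, the last one is `z`. -/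
theorem chain_bd {i₀ u : ℕ} (hc : u * 2 ^ q ≤ j) (hd : z ≤ (u + 1) * 2 ^ q) (h0 : (j / 2 ^ i₀ + 1) * 2 ^ i₀ ≤ z) :
    zz z i₀ j = (j / 2 ^ i₀ + 1) * 2 ^ i₀ ∧ zz z q j = z ∧ ∀ i, zz z i j ≤ zz z (i + 1) j :=
  ⟨zz_first h0, zz_last hc hd, fun i => zz_mono_succ z i j⟩

/-- The rows of the level are rows of the family. -/
theorem mem_Sr {S : Finset ℕ} : j ∈ Sr S z i ↔ j ∈ S ∧ zz z i j < zz z (i + 1) j := by
  unfold Sr
  rw [mem_filter]

theorem mem_Sj {S : Finset ℕ} : j ∈ Sj S z i ↔ j ∈ S ∧ zz z i j < z := by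
  unfold Sj
  rw [mem_filter]

/-- Rows which are not rows of the level do not move. -/
theorem not_Sr {S : Finset ℕ} (hj : j ∈ S) (h : j ∉ Sr S z i) : zz z i j = zz z (i + 1) j := by
  have h1 := zz_mono_succ z i j
  rw [mem_Sr] at h
  by_contra hc
  exact h ⟨hj, lt_of_le_of_ne h1 hc⟩

theorem not_Sj {S : Finset ℕ} (hj : j ∈ S) (h : j ∉ Sj S z i) : zz z i j = z := by
  have h1 := zz_le z i j
  rw [mem_Sj] at h
  by_contra hc
  exact h ⟨hj, lt_of_le_of_ne h1 hc⟩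

end

end Pool.Agent.W_7d29a1_C0.GeoD36
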