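import Pool.Agent.W_7d29a1_LB.Swap82
import Pool.Agent.W_7d29a1_Z74.ShJ

/-!
MP_7d29a1_pr, [CURV0] / [C0]: TWO REPLICAS IN ONE WINDOW WITH A KICK, the exact part. (helper50)

`kn η c x m z` is the weight of the paths from `(c, x)` to `(c + m, z)`. `MM η c x x' m z z'` is the weight of the pairs of such paths,
from `x` to `z` and from `x'` to `z'`, which have a common position in the rows `[c, c + m]`. Exchange of the tails:
`MM_swap : MM .. z z' = MM .. z' z`. `MW η c x x' m n y y'` is the weight of the pairs over the window `[c, c + m + n]` which have a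
common position in `[c, c + m]` and one in `[c + m, c + m + n]`; `MW_eq`: it is the sum over the positions at the row `c + m`.
-/

set_option autoImplicit false

namespace Pool.Agent.W_7d29a1_C0.GwA50

open Finset MeasureTheory Pool.Agent.W_7d29a1_F Pool.Agent.W_7d29a1_X
open Pool.Agent.W_7d29a1_LB (cut cut_sub pos_cut_le pos_cut_ge dst fm sw met fm_spec fm_sw sw_sw met_sw pth_cut)

noncomputable section

variable {μ : Measure ℝ} {s : ℝ}

/-! ### Gluing two pieces -/

/-- The piece `B` of length `m`, then the piece `U`. -/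
def cat (m : ℕ) (B U : Finset ℕ) : Finset ℕ := B ∪ U.image (· + m)

theorem cat_sub {m n : ℕ} {B U : Finset ℕ} (hB : B ⊆ range m) (hU : U ⊆ range n) : cat m B U ⊆ range (m + n) := by
  intro i hi
  unfold cat at hi
  rw [mem_union, mem_image] at hi
  rw [mem_range]
  rcases hi with h | ⟨k, hk, rfl⟩
  · have := mem_range.1 (hB h)
    omega
  · have := mem_range.1 (hU hk)
    omega

theorem pos_cat_le {m : ℕ} {B U : Finset ℕ} {i : ℕ} (hi : i ≤ m) : pos (cat m B U) i = pos B i := by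
  unfold pos cat
  congr 2
  ext k
  simp only [mem_inter, mem_union, mem_image, mem_range]
  constructor
  · rintro ⟨h | ⟨j, _, rfl⟩, h2⟩
    · exact ⟨h, h2⟩
    · omega
  · rintro ⟨h1, h2⟩
    exact ⟨Or.inl h1, h2⟩

theorem pos_cat_ge {m : ℕ} {B U : Finset ℕ} (hB : B ⊆ range m) (i : ℕ) :
    pos (cat m B U) (m + i) = pos B m + pos U i := by
  unfold pos cat
  have h : (B ∪ U.image (· + m)) ∩ range (m + i) = (B ∩ range m) ∪ (U ∩ range i).image (· + m) := by
    ext k
    simp only [mem_inter, mem_union, mem_image, mem_range]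
    constructor
    · rintro ⟨h | ⟨j, hj, rfl⟩, h2⟩
      · exact Or.inl ⟨h, mem_range.1 (hB h)⟩
      · exact Or.inr ⟨j, ⟨hj, by omega⟩, rfl⟩
    · rintro (⟨h1, h2⟩ | ⟨j, ⟨hj, hj'⟩, rfl⟩)
      · exact ⟨Or.inl h1, by omega⟩
      · exact ⟨Or.inr ⟨j, hj, rfl⟩, by omega⟩
  rw [h, card_union_of_disjoint, card_image_of_injective _ fun a b h => by simpa using h]
  · push_cast
    rfl
  · rw [disjoint_left]
    intro k h1 h2
    rw [mem_inter, mem_range] at h1
    rw [mem_image] at h2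
    obtain ⟨j, _, rfl⟩ := h2
    omega

/-- The weight of a glued path. -/
theorem pth_cat (η : Env) {m n : ℕ} {B U : Finset ℕ} (hB : B ⊆ range m) :
    pth μ s η (m + n) (cat m B U) = pth μ s η m B * pth μ s (sh ((m : ℤ), pos B m) η) n U := by
  unfold pth
  rw [prod_range_add, pos_cat_ge hB]
  have e1 : ∏ i ∈ range m, Real.exp (η ((i : ℤ) + 1, pos (cat m B U) (i + 1))) =
      ∏ i ∈ range m, Real.exp (η ((i : ℤ) + 1, pos B (i + 1))) := by
    refine prod_congr rfl fun i hi => ?_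
    rw [mem_range] at hi
    rw [pos_cat_le (by omega)]
  have e2 : ∏ i ∈ range n, Real.exp (η (((m + i : ℕ) : ℤ) + 1, pos (cat m B U) (m + i + 1))) =
      ∏ i ∈ range n, Real.exp (sh ((m : ℤ), pos B m) η ((i : ℤ) + 1, pos U (i + 1))) := by
    refine prod_congr rfl fun i _ => ?_
    rw [Nat.add_assoc, pos_cat_ge hB]
    unfold sh
    congr 2
    refine Prod.ext ?_ ?_
    · show ((m + i : ℕ) : ℤ) + 1 = (i : ℤ) + 1 + m
      push_cast
      ring
    · show pos B m + pos U (i + 1) = pos U (i + 1) + pos B m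
      ring
  have e3 : Real.exp (s * ((pos B m + pos U n : ℤ) : ℝ) - ((m + n : ℕ) : ℝ) * lam μ s) =
      Real.exp (s * (pos B m : ℝ) - m * lam μ s) * Real.exp (s * (pos U n : ℝ) - n * lam μ s) := by
    rw [← Real.exp_add]
    congr 1
    push_cast
    ring
  rw [e1, e2, e3]
  ring

/-- The sum over the paths of length `m + n`. -/
theorem sum_cat (m n : ℕ) (F : Finset ℕ → ℝ) :
    ∑ T ∈ (range (m + n)).powerset, F T = ∑ B ∈ (range m).powerset, ∑ U ∈ (range n).powerset, F (cat m B U) := by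
  rw [← sum_product' (f := fun B U => F (cat m B U))]
  refine (sum_bij' (fun q _ => cat m q.1 q.2) (fun T _ => (T ∩ range m, (T \ range m).image (· - m))) ?_ ?_ ?_ ?_ ?_).symm
  · rintro ⟨B, U⟩ hq
    rw [mem_product, mem_powerset, mem_powerset] at hq
    rw [mem_powerset]
    exact cat_sub hq.1 hq.2
  · intro T hT
    rw [mem_powerset] at hT
    rw [mem_product, mem_powerset, mem_powerset]
    refine ⟨inter_subset_right, fun i hi => ?_⟩
    rw [mem_image] at hi
    obtain ⟨k, hk, rfl⟩ := hi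
    rw [mem_sdiff, mem_range] at hk
    have := mem_range.1 (hT hk.1)
    rw [mem_range]
    omega
  · rintro ⟨B, U⟩ hq
    rw [mem_product, mem_powerset, mem_powerset] at hq
    have hB : ∀ i ∈ B, i < m := fun i hi => mem_range.1 (hq.1 hi)
    rw [Prod.mk.injEq]
    unfold cat
    constructor
    · ext i
      simp only [mem_inter, mem_union, mem_image, mem_range]
      constructor
      · rintro ⟨h | ⟨j, _, rfl⟩, h2⟩
        · exact h
        · omega
      · intro h
        exact ⟨Or.inl h, hB i h⟩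
    · ext i
      simp only [mem_sdiff, mem_union, mem_image, mem_range]
      constructor
      · rintro ⟨k, ⟨h | ⟨j, hj, rfl⟩, h2⟩, rfl⟩
        · exact absurd (hB k h) h2
        · rw [Nat.add_sub_cancel]
          exact hj
      · intro h
        exact ⟨i + m, ⟨Or.inr ⟨i, h, rfl⟩, by omega⟩, by omega⟩
  · intro T hT
    rw [mem_powerset] at hT
    show cat m (T ∩ range m) ((T \ range m).image (· - m)) = T
    unfold cat
    ext i
    simp only [mem_inter, mem_sdiff, mem_union, mem_image, mem_range]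
    constructor
    · rintro (⟨h, _⟩ | ⟨j, ⟨k, ⟨hk, hk'⟩, rfl⟩, rfl⟩)
      · exact h
      · rw [Nat.sub_add_cancel (by omega)]
        exact hk
    · intro h
      by_cases h2 : i < m
      · exact Or.inl ⟨h, h2⟩
      · exact Or.inr ⟨i - m, ⟨i, ⟨h, h2⟩, rfl⟩, by omega⟩
  · rintro ⟨B, U⟩ _
    rfl

/-! ### Kernels and pairs -/

/-- The weight of the paths from `(c, x)` to `(c + m, z)`. -/
def kn (μ : Measure ℝ) (s : ℝ) (η : Env) (c : ℕ) (x : ℤ) (m : ℕ) (z : ℤ) : ℝ := W μ s η ((c : ℤ), x) m (z - x)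

/-- The weight of a path from `(c, x)`. -/
def pw (μ : Measure ℝ) (s : ℝ) (η : Env) (c : ℕ) (x : ℤ) (m : ℕ) (T : Finset ℕ) : ℝ := pth μ s (sh ((c : ℤ), x) η) m T

theorem pw_pos (η : Env) (c : ℕ) (x : ℤ) (m : ℕ) (T : Finset ℕ) : 0 < pw μ s η c x m T :=
  mul_pos (Real.exp_pos _) (prod_pos fun _ _ => Real.exp_pos _)

theorem kn_nonneg (η : Env) (c : ℕ) (x : ℤ) (m : ℕ) (z : ℤ) : 0 ≤ kn μ s η c x m z := Pool.Agent.W_7d29a1_Z74.W_nonneg _ _ _ _

theorem kn_eq (η : Env) (c : ℕ) (x : ℤ) (m : ℕ) (z : ℤ) :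
    kn μ s η c x m z = ∑ T ∈ (range m).powerset, if x + pos T m = z then pw μ s η c x m T else 0 := by
  unfold kn pw
  have h : W μ s η ((c : ℤ), x) m (z - x) = W μ s (sh ((c : ℤ), x) η) 0 m (z - x) := by
    rw [W_sh, zero_add]
  rw [h, ← Mt_one]
  unfold Mt
  refine sum_congr rfl fun T _ => ?_
  by_cases h1 : x + pos T m = z
  · rw [if_pos h1, if_pos (by omega), mul_one]
  · rw [if_neg h1, if_neg (by omega)]

theorem kn_zero (η : Env) {c : ℕ} {x : ℤ} {m : ℕ} {z : ℤ} (h : ¬(x ≤ z ∧ z ≤ x + m)) : kn μ s η c x m z = 0 :=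
  Pool.Agent.W_7d29a1_Z74.W_zero _ _ (by omega)

/-- The paths `T` from `x` and `T'` from `x'` have a common position at the time `i`. -/
def eqp (x x' : ℤ) (T T' : Finset ℕ) (i : ℕ) : Prop := x + pos T i = x' + pos T' i

open Classical in
/-- The weight of the pairs which meet. -/
def MM (μ : Measure ℝ) (s : ℝ) (η : Env) (c : ℕ) (x x' : ℤ) (m : ℕ) (z z' : ℤ) : ℝ :=
  ∑ T ∈ (range m).powerset, ∑ T' ∈ (range m).powerset,
    if (x + pos T m = z ∧ x' + pos T' m = z') ∧ ∃ i ≤ m, eqp x x' T T' i then pw μ s η c x m T * pw μ s η c x' m T' else 0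

theorem MM_nonneg (η : Env) (c : ℕ) (x x' : ℤ) (m : ℕ) (z z' : ℤ) : 0 ≤ MM μ s η c x x' m z z' := by
  unfold MM
  refine sum_nonneg fun T _ => sum_nonneg fun T' _ => ?_
  split_ifs
  · exact (mul_pos (pw_pos _ _ _ _ _) (pw_pos _ _ _ _ _)).le
  · exact le_rfl

theorem kn_mul (η : Env) (c : ℕ) (x x' : ℤ) (m : ℕ) (z z' : ℤ) :
    kn μ s η c x m z * kn μ s η c x' m z' = ∑ T ∈ (range m).powerset, ∑ T' ∈ (range m).powerset,
      if x + pos T m = z ∧ x' + pos T' m = z' then pw μ s η c x m T * pw μ s η c x' m T' else 0 := by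
  rw [kn_eq, kn_eq, sum_mul_sum]
  refine sum_congr rfl fun T _ => sum_congr rfl fun T' _ => ?_
  by_cases h1 : x + pos T m = z
  · by_cases h2 : x' + pos T' m = z'
    · rw [if_pos h1, if_pos h2, if_pos ⟨h1, h2⟩]
    · rw [if_neg h2, mul_zero, if_neg fun h => h2 h.2]
  · rw [if_neg h1, zero_mul, if_neg fun h => h1 h.1]

theorem MM_le (η : Env) (c : ℕ) (x x' : ℤ) (m : ℕ) (z z' : ℤ) :
    MM μ s η c x x' m z z' ≤ kn μ s η c x m z * kn μ s η c x' m z' := by
  rw [kn_mul]
  unfold MM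
  refine sum_le_sum fun T _ => sum_le_sum fun T' _ => ?_
  have h := (mul_pos (pw_pos (μ := μ) (s := s) η c x m T) (pw_pos (μ := μ) (s := s) η c x' m T')).le
  split_ifs with h1 h2 h2
  · exact le_rfl
  · exact absurd h1.1 h2
  · exact h
  · exact le_rfl

/-- The order of the pair. -/
theorem MM_symm (η : Env) (c : ℕ) (x x' : ℤ) (m : ℕ) (z z' : ℤ) :
    MM μ s η c x x' m z z' = MM μ s η c x' x m z' z := by
  unfold MM
  rw [sum_comm]
  refine sum_congr rfl fun T _ => sum_congr rfl fun T' _ => ?_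
  have e : ((x + pos T' m = z ∧ x' + pos T m = z') ∧ ∃ i ≤ m, eqp x x' T' T i) ↔
      ((x' + pos T m = z' ∧ x + pos T' m = z) ∧ ∃ i ≤ m, eqp x' x T T' i) := by
    unfold eqp
    constructor
    · rintro ⟨⟨h1, h2⟩, i, hi, h3⟩
      exact ⟨⟨h2, h1⟩, i, hi, h3.symm⟩
    · rintro ⟨⟨h1, h2⟩, i, hi, h3⟩
      exact ⟨⟨h2, h1⟩, i, hi, h3.symm⟩
  by_cases h : (x + pos T' m = z ∧ x' + pos T m = z') ∧ ∃ i ≤ m, eqp x x' T' T i
  · rw [if_pos h, if_pos (e.1 h), mul_comm]
  · rw [if_neg h, if_neg fun h' => h (e.2 h')]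

theorem sh_two (η : Env) (c x x' : ℤ) : sh (0, x' - x) (sh (c, x) η) = sh (c, x') η := by
  funext p
  unfold sh
  congr 1
  refine Prod.ext ?_ ?_
  · show p.1 + 0 + c = p.1 + c
    ring
  · show p.2 + (x' - x) + x = p.2 + x'
    ring

theorem eqp_iff {x x' : ℤ} {T T' : Finset ℕ} {i : ℕ} : eqp x x' T T' i ↔ dst (x' - x) T T' i = 0 := by
  unfold eqp dst
  constructor <;> intro h <;> omega

theorem met_iff {x x' : ℤ} {T T' : Finset ℕ} {m : ℕ} : (∃ i ≤ m, eqp x x' T T' i) ↔ met (x' - x) m (T, T') := by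
  unfold met
  simp only [eqp_iff]

/-- **EXCHANGE OF THE TAILS.** -/
theorem MM_swap (η : Env) (c : ℕ) (x x' : ℤ) (m : ℕ) (z z' : ℤ) :
    MM μ s η c x x' m z z' = MM μ s η c x x' m z' z := by
  classical
  unfold MM
  rw [← sum_product' (f := fun T T' => if (x + pos T m = z ∧ x' + pos T' m = z') ∧ ∃ i ≤ m, eqp x x' T T' i then
      pw μ s η c x m T * pw μ s η c x' m T' else 0),
    ← sum_product' (f := fun T T' => if (x + pos T m = z' ∧ x' + pos T' m = z) ∧ ∃ i ≤ m, eqp x x' T T' i then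
      pw μ s η c x m T * pw μ s η c x' m T' else 0), ← sum_filter, ← sum_filter]
  have key : ∀ z z' : ℤ, ∀ P ∈ ((range m).powerset ×ˢ (range m).powerset).filter fun P : Finset ℕ × Finset ℕ =>
      (x + pos P.1 m = z ∧ x' + pos P.2 m = z') ∧ ∃ i ≤ m, eqp x x' P.1 P.2 i,
      sw (x' - x) P ∈ ((range m).powerset ×ˢ (range m).powerset).filter fun P : Finset ℕ × Finset ℕ =>
      (x + pos P.1 m = z' ∧ x' + pos P.2 m = z) ∧ ∃ i ≤ m, eqp x x' P.1 P.2 i := by
    intro z z' P hP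
    rw [mem_filter, mem_product, mem_powerset, mem_powerset] at hP ⊢
    obtain ⟨⟨h1, h2⟩, ⟨h3, h4⟩, h5⟩ := hP
    rw [met_iff] at h5
    obtain ⟨h6, h7⟩ := fm_spec h5
    have h8 : x' - x + pos P.2 (fm (x' - x) P) - pos P.1 (fm (x' - x) P) = 0 := h6
    have h9 : fm (x' - x) P ≤ m := h7
    refine ⟨⟨cut_sub h1 h2, cut_sub h2 h1⟩, ⟨?_, ?_⟩, ?_⟩
    · show x + pos (cut (fm (x' - x) P) P.1 P.2) m = z'
      rw [pos_cut_ge h9]
      omega
    · show x' + pos (cut (fm (x' - x) P) P.2 P.1) m = z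
      rw [pos_cut_ge h9]
      omega
    · rw [met_iff]
      exact met_sw h5
  refine sum_bij' (fun P _ => sw (x' - x) P) (fun P _ => sw (x' - x) P) (key z z') (key z' z) ?_ ?_ ?_
  · intro P hP
    rw [mem_filter] at hP
    exact sw_sw (met_iff.1 hP.2.2)
  · intro P hP
    rw [mem_filter] at hP
    exact sw_sw (met_iff.1 hP.2.2)
  · intro P hP
    rw [mem_filter] at hP
    obtain ⟨h6, h7⟩ := fm_spec (met_iff.1 hP.2.2)
    have h8 := pth_cut (μ := μ) (s := s) (sh ((c : ℤ), x) η) h7 h6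
    rw [sh_two] at h8
    exact h8.symm

/-! ### The sums over the position at the middle row -/

/-- Sums over the positions: a window of positions which contains all the values. -/
theorem sum_pos {I : Finset ℤ} {x : ℤ} {m : ℕ} (hI : ∀ z : ℤ, x ≤ z → z ≤ x + m → z ∈ I) (F : ℤ → Finset ℕ → ℝ) :
    ∑ T ∈ (range m).powerset, F (x + pos T m) T = ∑ z ∈ I, ∑ T ∈ (range m).powerset, if x + pos T m = z then F z T else 0 := by
  rw [sum_comm]
  refine sum_congr rfl fun T _ => ?_
  have h0 := pos_nonneg T m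
  have h1 := pos_le T m
  rw [sum_eq_single (x + pos T m)]
  · rw [if_pos rfl]
  · intro z _ h
    rw [if_neg fun h' => h h'.symm]
  · intro h
    exact absurd (hI _ (by omega) (by omega)) h

theorem kn_add {I : Finset ℤ} (η : Env) {c : ℕ} {x : ℤ} {m : ℕ} (hI : ∀ z : ℤ, x ≤ z → z ≤ x + m → z ∈ I) (n : ℕ) (y : ℤ) :
    kn μ s η c x (m + n) y = ∑ z ∈ I, kn μ s η c x m z * kn μ s η (c + m) z n y := by
  have h1 : ∀ z ∈ I, z ∉ (Icc (0 : ℤ) m).image (x + ·) → kn μ s η c x m z * kn μ s η (c + m) z n y = 0 := by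
    intro z _ hz
    rw [kn_zero, zero_mul]
    rintro ⟨h1, h2⟩
    refine hz (mem_image.2 ⟨z - x, mem_Icc.2 ⟨by omega, by omega⟩, by show x + (z - x) = z; ring⟩)
  rw [← sum_subset (s₁ := (Icc (0 : ℤ) m).image (x + ·)) _ h1]
  · rw [sum_image fun a _ b _ h => by simpa using h]
    unfold kn
    rw [Pool.Agent.W_7d29a1_Z74.W_add]
    refine sum_congr rfl fun k _ => ?_
    have e1 : x + k - x = k := by ring
    have e2 : y - x - k = y - (x + k) := by ring
    have e3 : (((c + m : ℕ) : ℤ), x + k) = (((c : ℤ), x).1 + (m : ℤ), ((c : ℤ), x).2 + k) := by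
      push_cast
      rfl
    rw [e1, e2, e3]
  · intro z hz
    rw [mem_image] at hz
    obtain ⟨k, hk, rfl⟩ := hz
    rw [mem_Icc] at hk
    exact hI _ (by show x ≤ x + k; omega) (by show x + k ≤ x + m; omega)

open Classical in
/-- The weight of the pairs over the window `[c, c + m + n]` which meet in `[c, c + m]` and in `[c + m, c + m + n]`. -/
def MW (μ : Measure ℝ) (s : ℝ) (η : Env) (c : ℕ) (x x' : ℤ) (m n : ℕ) (y y' : ℤ) : ℝ :=
  ∑ T ∈ (range (m + n)).powerset, ∑ T' ∈ (range (m + n)).powerset,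
    if (x + pos T (m + n) = y ∧ x' + pos T' (m + n) = y') ∧ (∃ i ≤ m, eqp x x' T T' i) ∧ ∃ i ≤ n, eqp x x' T T' (m + i) then
      pw μ s η c x (m + n) T * pw μ s η c x' (m + n) T' else 0

theorem pw_cat (η : Env) (c : ℕ) (x : ℤ) {m n : ℕ} {B U : Finset ℕ} (hB : B ⊆ range m) :
    pw μ s η c x (m + n) (cat m B U) = pw μ s η c x m B * pw μ s η (c + m) (x + pos B m) n U := by
  unfold pw
  rw [pth_cat _ hB]
  congr 2
  funext p
  unfold sh
  congr 1
  refine Prod.ext ?_ ?_
  · show p.1 + m + c = p.1 + ((c + m : ℕ) : ℤ)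
    push_cast
    ring
  · show p.2 + pos B m + x = p.2 + (x + pos B m)
    ring

theorem MW_eq {I : Finset ℤ} (η : Env) {c : ℕ} {x x' : ℤ} {m : ℕ} (hI : ∀ z : ℤ, x ≤ z → z ≤ x + m → z ∈ I)
    (hI' : ∀ z : ℤ, x' ≤ z → z ≤ x' + m → z ∈ I) (n : ℕ) (y y' : ℤ) :
    MW μ s η c x x' m n y y' = ∑ z ∈ I, ∑ z' ∈ I, MM μ s η c x x' m z z' * MM μ s η (c + m) z z' n y y' := by
  classical
  unfold MW
  rw [sum_cat]
  have e1 : ∀ B ∈ (range m).powerset, ∀ U ∈ (range n).powerset, (∑ T' ∈ (range (m + n)).powerset,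
      if (x + pos (cat m B U) (m + n) = y ∧ x' + pos T' (m + n) = y') ∧ (∃ i ≤ m, eqp x x' (cat m B U) T' i) ∧
        ∃ i ≤ n, eqp x x' (cat m B U) T' (m + i) then
      pw μ s η c x (m + n) (cat m B U) * pw μ s η c x' (m + n) T' else 0) =
      ∑ B' ∈ (range m).powerset, ∑ U' ∈ (range n).powerset,
        (if ∃ i ≤ m, eqp x x' B B' i then pw μ s η c x m B * pw μ s η c x' m B' else 0) *
        (if (x + pos B m + pos U n = y ∧ x' + pos B' m + pos U' n = y') ∧
          ∃ i ≤ n, eqp (x + pos B m) (x' + pos B' m) U U' i then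
          pw μ s η (c + m) (x + pos B m) n U * pw μ s η (c + m) (x' + pos B' m) n U' else 0) := by
    intro B hB U hU
    rw [mem_powerset] at hB hU
    rw [sum_cat]
    refine sum_congr rfl fun B' hB' => sum_congr rfl fun U' hU' => ?_
    rw [mem_powerset] at hB' hU'
    have g1 : (∃ i ≤ m, eqp x x' (cat m B U) (cat m B' U') i) ↔ ∃ i ≤ m, eqp x x' B B' i := by
      unfold eqp
      constructor
      · rintro ⟨i, hi, h⟩
        rw [pos_cat_le hi, pos_cat_le hi] at h
        exact ⟨i, hi, h⟩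
      · rintro ⟨i, hi, h⟩
        refine ⟨i, hi, ?_⟩
        rw [pos_cat_le hi, pos_cat_le hi]
        exact h
    have g2 : (∃ i ≤ n, eqp x x' (cat m B U) (cat m B' U') (m + i)) ↔ ∃ i ≤ n, eqp (x + pos B m) (x' + pos B' m) U U' i := by
      unfold eqp
      simp only [pos_cat_ge hB, pos_cat_ge hB', add_assoc]
    have g3 : (x + pos (cat m B U) (m + n) = y ∧ x' + pos (cat m B' U') (m + n) = y') ↔
        (x + pos B m + pos U n = y ∧ x' + pos B' m + pos U' n = y') := by
      simp only [pos_cat_ge hB, pos_cat_ge hB', add_assoc]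
    rw [pw_cat η c x hB, pw_cat η c x' hB']
    by_cases h1 : ∃ i ≤ m, eqp x x' B B' i
    · by_cases h2 : (x + pos B m + pos U n = y ∧ x' + pos B' m + pos U' n = y') ∧
          ∃ i ≤ n, eqp (x + pos B m) (x' + pos B' m) U U' i
      · rw [if_pos h1, if_pos h2, if_pos ⟨g3.2 h2.1, g1.2 h1, g2.2 h2.2⟩]
        ring
      · rw [if_pos h1, if_neg h2, mul_zero, if_neg fun h => h2 ⟨g3.1 h.1, g2.1 h.2.2⟩]
    · rw [if_neg h1, zero_mul, if_neg fun h => h1 (g1.1 h.2.1)]
  rw [sum_congr rfl fun B hB => sum_congr rfl fun U hU => e1 B hB U hU]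
  have e2 : ∀ B ∈ (range m).powerset, (∑ U ∈ (range n).powerset, ∑ B' ∈ (range m).powerset, ∑ U' ∈ (range n).powerset,
        (if ∃ i ≤ m, eqp x x' B B' i then pw μ s η c x m B * pw μ s η c x' m B' else 0) *
        (if (x + pos B m + pos U n = y ∧ x' + pos B' m + pos U' n = y') ∧
          ∃ i ≤ n, eqp (x + pos B m) (x' + pos B' m) U U' i then
          pw μ s η (c + m) (x + pos B m) n U * pw μ s η (c + m) (x' + pos B' m) n U' else 0)) =
      ∑ B' ∈ (range m).powerset, (if ∃ i ≤ m, eqp x x' B B' i then pw μ s η c x m B * pw μ s η c x' m B' else 0) *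
        MM μ s η (c + m) (x + pos B m) (x' + pos B' m) n y y' := by
    intro B _
    rw [sum_comm]
    refine sum_congr rfl fun B' _ => ?_
    unfold MM
    rw [mul_sum]
    exact sum_congr rfl fun U _ => (mul_sum _ _ _).symm
  rw [sum_congr rfl e2]
  have e3 := sum_pos (I := I) (x := x) (m := m) hI fun z B => ∑ B' ∈ (range m).powerset,
    (if ∃ i ≤ m, eqp x x' B B' i then pw μ s η c x m B * pw μ s η c x' m B' else 0) * MM μ s η (c + m) z (x' + pos B' m) n y y'
  rw [e3]
  refine sum_congr rfl fun z _ => ?_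
  have e4 : ∀ B ∈ (range m).powerset, (if x + pos B m = z then ∑ B' ∈ (range m).powerset,
      (if ∃ i ≤ m, eqp x x' B B' i then pw μ s η c x m B * pw μ s η c x' m B' else 0) *
        MM μ s η (c + m) z (x' + pos B' m) n y y' else 0) =
      ∑ z' ∈ I, ∑ B' ∈ (range m).powerset, (if (x + pos B m = z ∧ x' + pos B' m = z') ∧ ∃ i ≤ m, eqp x x' B B' i then
        pw μ s η c x m B * pw μ s η c x' m B' else 0) * MM μ s η (c + m) z z' n y y' := by
    intro B _
    by_cases h : x + pos B m = z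
    · rw [if_pos h]
      have e5 := sum_pos (I := I) (x := x') (m := m) hI' fun z' B' =>
        (if ∃ i ≤ m, eqp x x' B B' i then pw μ s η c x m B * pw μ s η c x' m B' else 0) * MM μ s η (c + m) z z' n y y'
      rw [e5]
      refine sum_congr rfl fun z' _ => sum_congr rfl fun B' _ => ?_
      by_cases h1 : x' + pos B' m = z'
      · by_cases h2 : ∃ i ≤ m, eqp x x' B B' i
        · rw [if_pos h1, if_pos h2, if_pos ⟨⟨h, h1⟩, h2⟩]
        · rw [if_pos h1, if_neg h2, if_neg fun h3 => h2 h3.2]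
      · rw [if_neg h1, if_neg fun h3 => h1 h3.1.2, zero_mul]
    · rw [if_neg h]
      refine (sum_eq_zero fun z' _ => sum_eq_zero fun B' _ => ?_).symm
      rw [if_neg fun h3 => h h3.1.1, zero_mul]
  rw [sum_congr rfl e4, sum_comm]
  refine sum_congr rfl fun z' _ => ?_
  unfold MM
  rw [sum_mul]
  refine sum_congr rfl fun B _ => ?_
  rw [sum_mul]

end

end Pool.Agent.W_7d29a1_C0.GwA50
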