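import Pool.Agent.W_7d29a1_C0.GwA50

/-!
MP_7d29a1_pr, [CURV0] / [C0]: TWO REPLICAS IN ONE WINDOW WITH A KICK, the inequality. (helper50)

`zj η c x m n v y` is the weight of the paths over the window `[c, c + m + n]` from `x` to `y` which jump by `v` at the row `c + m`.
`zj_sub`: if the jump costs at most a factor `E` (before and after the jump) for the positions `z` with `G z`, `zj x y * kn x' y'` and
`kn x y * zj x' y'` differ by at most `2 E` times the weight of the pairs without jump which do not meet before or do not meet behind the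
row of the jump (`kn * kn - MW`), and the tails.
-/

set_option autoImplicit false

namespace Pool.Agent.W_7d29a1_C0.GwA50

open Finset MeasureTheory Pool.Agent.W_7d29a1_F Pool.Agent.W_7d29a1_X
open Pool.Agent.W_7d29a1_Z74 (ZJ)

noncomputable section

variable {μ : Measure ℝ} {s : ℝ}

/-- The weight of the paths with a jump by `v` at the row `c + m`. -/
def zj (μ : Measure ℝ) (s : ℝ) (η : Env) (c : ℕ) (x : ℤ) (m n : ℕ) (v y : ℤ) : ℝ := ZJ μ s η ((c : ℤ), x) m n v (y - x)

theorem zj_eq {I : Finset ℤ} (η : Env) {c : ℕ} {x : ℤ} {m : ℕ} (hI : ∀ z : ℤ, x ≤ z → z ≤ x + m → z ∈ I) (n : ℕ) (v y : ℤ) :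
    zj μ s η c x m n v y = ∑ z ∈ I, kn μ s η c x m z * kn μ s η (c + m) (z + v) n y := by
  have h1 : ∀ z ∈ I, z ∉ (Icc (0 : ℤ) m).image (x + ·) → kn μ s η c x m z * kn μ s η (c + m) (z + v) n y = 0 := by
    intro z _ hz
    rw [kn_zero, zero_mul]
    rintro ⟨h1, h2⟩
    refine hz (mem_image.2 ⟨z - x, mem_Icc.2 ⟨by omega, by omega⟩, by show x + (z - x) = z; ring⟩)
  rw [← sum_subset (s₁ := (Icc (0 : ℤ) m).image (x + ·)) _ h1]
  · rw [sum_image fun a _ b _ h => by simpa using h]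
    unfold zj kn ZJ
    refine sum_congr rfl fun k _ => ?_
    have e1 : x + k - x = k := by ring
    have e2 : y - x - k - v = y - (x + k + v) := by ring
    have e3 : (((c + m : ℕ) : ℤ), x + k + v) = (((c : ℤ), x).1 + (m : ℤ), ((c : ℤ), x).2 + k + v) := by
      push_cast
      rfl
    rw [e1, e2, e3]
  · intro z hz
    rw [mem_image] at hz
    obtain ⟨k, hk, rfl⟩ := hz
    rw [mem_Icc] at hk
    exact hI _ (by show x ≤ x + k; omega) (by show x + k ≤ x + m; omega)

theorem shift_le {I : Finset ℤ} (v : ℤ) {f : ℤ → ℝ} (h0 : ∀ z, 0 ≤ f z) (hf : ∀ z, z ∉ I → f z = 0) :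
    ∑ z ∈ I, f (z + v) ≤ ∑ z ∈ I, f z := by
  classical
  have e1 : ∑ z ∈ I, f (z + v) = ∑ w ∈ I.image (· + v), f w := (sum_image fun a _ b _ h => by simpa using h).symm
  have e2 : ∑ w ∈ I.image (· + v), f w = ∑ w ∈ (I.image (· + v)) ∩ I, f w := by
    refine (sum_subset inter_subset_left fun w hw hw' => ?_).symm
    refine hf w fun h => hw' (mem_inter.2 ⟨hw, h⟩)
  rw [e1, e2]
  exact sum_le_sum_of_subset_of_nonneg inter_subset_right fun w _ _ => h0 w

/-- The weight of the pairs without jump which do not meet in `[c, c + m]` or do not meet in `[c + m, c + m + n]`. -/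
def Pn0 (μ : Measure ℝ) (s : ℝ) (η : Env) (c : ℕ) (x x' : ℤ) (m n : ℕ) (y y' : ℤ) : ℝ :=
  kn μ s η c x (m + n) y * kn μ s η c x' (m + n) y' - MW μ s η c x x' m n y y'

/-- The common part. -/
def CC (μ : Measure ℝ) (s : ℝ) (η : Env) (I : Finset ℤ) (c : ℕ) (x x' : ℤ) (m n : ℕ) (v y y' : ℤ) : ℝ :=
  ∑ z ∈ I, ∑ z' ∈ I, MM μ s η c x x' m z z' * MM μ s η (c + m) (z + v) z' n y y'

theorem CC_symm (η : Env) (I : Finset ℤ) (c : ℕ) (x x' : ℤ) (m n : ℕ) (v y y' : ℤ) :
    CC μ s η I c x' x m n v y' y = CC μ s η I c x x' m n v y y' := by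
  unfold CC
  refine sum_congr rfl fun z _ => sum_congr rfl fun z' _ => ?_
  rw [MM_symm η c x' x m z z', MM_swap η c x x' m z' z, MM_swap η (c + m) (z + v) z' n y' y]

theorem MW_symm (η : Env) (c : ℕ) (x x' : ℤ) (m n : ℕ) (y y' : ℤ) :
    MW μ s η c x' x m n y' y = MW μ s η c x x' m n y y' := by
  classical
  obtain ⟨I, hI⟩ : ∃ I : Finset ℤ, I = Icc (min x x') (max x x' + m) := ⟨_, rfl⟩
  have h1 : ∀ z : ℤ, x ≤ z → z ≤ x + m → z ∈ I := fun z h1 h2 => by
    rw [hI, mem_Icc]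
    exact ⟨(min_le_left _ _).trans h1, h2.trans (by linarith [le_max_left x x'])⟩
  have h2 : ∀ z : ℤ, x' ≤ z → z ≤ x' + m → z ∈ I := fun z h1 h2 => by
    rw [hI, mem_Icc]
    exact ⟨(min_le_right _ _).trans h1, h2.trans (by linarith [le_max_right x x'])⟩
  rw [MW_eq η h1 h2, MW_eq η h2 h1, sum_comm]
  refine sum_congr rfl fun z _ => sum_congr rfl fun z' _ => ?_
  rw [MM_symm η c x' x m z' z, MM_symm η (c + m) z' z n y' y]

theorem Pn0_symm (η : Env) (c : ℕ) (x x' : ℤ) (m n : ℕ) (y y' : ℤ) :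
    Pn0 μ s η c x' x m n y' y = Pn0 μ s η c x x' m n y y' := by
  unfold Pn0
  rw [MW_symm]
  ring

section main

variable {I : Finset ℤ} {c : ℕ} {x x' : ℤ} {m : ℕ}

theorem Pn0_eq (η : Env) (hI : ∀ z : ℤ, x ≤ z → z ≤ x + m → z ∈ I) (hI' : ∀ z : ℤ, x' ≤ z → z ≤ x' + m → z ∈ I)
    (n : ℕ) (y y' : ℤ) :
    Pn0 μ s η c x x' m n y y' = ∑ z ∈ I, ∑ z' ∈ I, (kn μ s η c x m z * kn μ s η c x' m z' *
      (kn μ s η (c + m) z n y * kn μ s η (c + m) z' n y') - MM μ s η c x x' m z z' * MM μ s η (c + m) z z' n y y') := by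
  unfold Pn0
  rw [kn_add η hI, kn_add η hI', MW_eq η hI hI', sum_mul_sum, ← sum_sub_distrib]
  refine sum_congr rfl fun z _ => ?_
  rw [← sum_sub_distrib]
  refine sum_congr rfl fun z' _ => ?_
  ring

/-- The pairs which do not meet before the row `c + m`. -/
theorem Pn0_ge_one (η : Env) (hI : ∀ z : ℤ, x ≤ z → z ≤ x + m → z ∈ I) (hI' : ∀ z : ℤ, x' ≤ z → z ≤ x' + m → z ∈ I)
    (n : ℕ) (y y' : ℤ) :
    ∑ z ∈ I, ∑ z' ∈ I, (kn μ s η c x m z * kn μ s η c x' m z' - MM μ s η c x x' m z z') *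
      (kn μ s η (c + m) z n y * kn μ s η (c + m) z' n y') ≤ Pn0 μ s η c x x' m n y y' := by
  rw [Pn0_eq η hI hI']
  refine sum_le_sum fun z _ => sum_le_sum fun z' _ => ?_
  have h1 := MM_nonneg (μ := μ) (s := s) η c x x' m z z'
  have h2 := MM_le (μ := μ) (s := s) η (c + m) z z' n y y'
  nlinarith

/-- The pairs which do not meet behind the row `c + m`. -/
theorem Pn0_ge_two (η : Env) (hI : ∀ z : ℤ, x ≤ z → z ≤ x + m → z ∈ I) (hI' : ∀ z : ℤ, x' ≤ z → z ≤ x' + m → z ∈ I)
    (n : ℕ) (y y' : ℤ) :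
    ∑ z ∈ I, ∑ z' ∈ I, kn μ s η c x m z * kn μ s η c x' m z' *
      (kn μ s η (c + m) z n y * kn μ s η (c + m) z' n y' - MM μ s η (c + m) z z' n y y') ≤ Pn0 μ s η c x x' m n y y' := by
  rw [Pn0_eq η hI hI']
  refine sum_le_sum fun z _ => sum_le_sum fun z' _ => ?_
  have h1 := MM_nonneg (μ := μ) (s := s) η (c + m) z z' n y y'
  have h2 := MM_le (μ := μ) (s := s) η c x x' m z z'
  nlinarith

theorem Pn0_nonneg (η : Env) (c : ℕ) (x x' : ℤ) (m n : ℕ) (y y' : ℤ) : 0 ≤ Pn0 μ s η c x x' m n y y' := by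
  obtain ⟨I, hI⟩ : ∃ I : Finset ℤ, I = Icc (min x x') (max x x' + m) := ⟨_, rfl⟩
  have h1 : ∀ z : ℤ, x ≤ z → z ≤ x + m → z ∈ I := fun z h1 h2 => by
    rw [hI, mem_Icc]
    exact ⟨(min_le_left _ _).trans h1, h2.trans (by linarith [le_max_left x x'])⟩
  have h2 : ∀ z : ℤ, x' ≤ z → z ≤ x' + m → z ∈ I := fun z h1 h2 => by
    rw [hI, mem_Icc]
    exact ⟨(min_le_right _ _).trans h1, h2.trans (by linarith [le_max_right x x'])⟩
  refine le_trans ?_ (Pn0_ge_one η h1 h2 n y y')
  refine sum_nonneg fun z _ => sum_nonneg fun z' _ => mul_nonneg ?_ (mul_nonneg (kn_nonneg _ _ _ _ _) (kn_nonneg _ _ _ _ _))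
  have := MM_le (μ := μ) (s := s) η c x x' m z z'
  linarith

open Classical in
/-- **ONE SIDE**: the pairs (path with the jump, path without) which do not meet on both sides of the row of the jump. -/
theorem zj_sub_CC (η : Env) (hI : ∀ z : ℤ, x ≤ z → z ≤ x + m → z ∈ I) (hI' : ∀ z : ℤ, x' ≤ z → z ≤ x' + m → z ∈ I)
    {n : ℕ} {v y y' : ℤ} {G : ℤ → Prop} {E τ : ℝ} (hE : 0 ≤ E)
    (h1 : ∀ z, G z → kn μ s η (c + m) (z + v) n y ≤ E * kn μ s η (c + m) z n y)
    (h2 : ∀ z, G z → kn μ s η c x m z ≤ E * kn μ s η c x m (z + v))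
    (h3 : ∑ z ∈ I, (if G z then 0 else kn μ s η c x m z * kn μ s η (c + m) (z + v) n y) ≤ τ) :
    0 ≤ zj μ s η c x m n v y * kn μ s η c x' (m + n) y' - CC μ s η I c x x' m n v y y' ∧
    zj μ s η c x m n v y * kn μ s η c x' (m + n) y' - CC μ s η I c x x' m n v y y' ≤
      2 * E * Pn0 μ s η c x x' m n y y' + 2 * τ * kn μ s η c x' (m + n) y' := by
  have e0 : zj μ s η c x m n v y * kn μ s η c x' (m + n) y' - CC μ s η I c x x' m n v y y' =
      ∑ z ∈ I, ∑ z' ∈ I, (kn μ s η c x m z * kn μ s η c x' m z' *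
      (kn μ s η (c + m) (z + v) n y * kn μ s η (c + m) z' n y') -
        MM μ s η c x x' m z z' * MM μ s η (c + m) (z + v) z' n y y') := by
    unfold CC
    rw [zj_eq η hI, kn_add η hI', sum_mul_sum, ← sum_sub_distrib]
    refine sum_congr rfl fun z _ => ?_
    rw [← sum_sub_distrib]
    refine sum_congr rfl fun z' _ => ?_
    ring
  have k0 := fun (c : ℕ) (x : ℤ) (m : ℕ) (z : ℤ) => kn_nonneg (μ := μ) (s := s) η c x m z
  have m0 := fun (c : ℕ) (x x' : ℤ) (m : ℕ) (z z' : ℤ) => MM_nonneg (μ := μ) (s := s) η c x x' m z z'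
  have m1 := fun (c : ℕ) (x x' : ℤ) (m : ℕ) (z z' : ℤ) => MM_le (μ := μ) (s := s) η c x x' m z z'
  have hT : ∑ z ∈ I, ∑ z' ∈ I, (if G z then 0 else kn μ s η c x m z * kn μ s η (c + m) (z + v) n y) *
      (kn μ s η c x' m z' * kn μ s η (c + m) z' n y') ≤ τ * kn μ s η c x' (m + n) y' := by
    rw [kn_add η hI', ← sum_mul_sum]
    exact mul_le_mul_of_nonneg_right h3 (sum_nonneg fun z _ => mul_nonneg (k0 _ _ _ _) (k0 _ _ _ _))
  rw [e0]
  constructor
  · refine sum_nonneg fun z _ => sum_nonneg fun z' _ => sub_nonneg.2 ?_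
    exact mul_le_mul (m1 _ _ _ _ _ _) (m1 _ _ _ _ _ _) (m0 _ _ _ _ _ _) (mul_nonneg (k0 _ _ _ _) (k0 _ _ _ _))
  · -- split
    have e1 : ∑ z ∈ I, ∑ z' ∈ I, (kn μ s η c x m z * kn μ s η c x' m z' *
        (kn μ s η (c + m) (z + v) n y * kn μ s η (c + m) z' n y') -
          MM μ s η c x x' m z z' * MM μ s η (c + m) (z + v) z' n y y') ≤
        ∑ z ∈ I, ∑ z' ∈ I, (kn μ s η c x m z * kn μ s η c x' m z' - MM μ s η c x x' m z z') *
          (kn μ s η (c + m) (z + v) n y * kn μ s η (c + m) z' n y') +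
        ∑ z ∈ I, ∑ z' ∈ I, kn μ s η c x m z * kn μ s η c x' m z' *
          (kn μ s η (c + m) (z + v) n y * kn μ s η (c + m) z' n y' - MM μ s η (c + m) (z + v) z' n y y') := by
      rw [← sum_add_distrib]
      refine sum_le_sum fun z _ => ?_
      rw [← sum_add_distrib]
      refine sum_le_sum fun z' _ => ?_
      have g1 := m1 c x x' m z z'
      have g2 := m1 (c + m) (z + v) z' n y y'
      have g3 := m0 (c + m) (z + v) z' n y y'
      nlinarith
    have e2 : ∑ z ∈ I, ∑ z' ∈ I, (kn μ s η c x m z * kn μ s η c x' m z' - MM μ s η c x x' m z z') *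
          (kn μ s η (c + m) (z + v) n y * kn μ s η (c + m) z' n y') ≤
        E * Pn0 μ s η c x x' m n y y' + τ * kn μ s η c x' (m + n) y' := by
      refine le_trans ?_ (add_le_add (mul_le_mul_of_nonneg_left (Pn0_ge_one η hI hI' n y y') hE) hT)
      rw [mul_sum, ← sum_add_distrib]
      refine sum_le_sum fun z _ => ?_
      rw [mul_sum, ← sum_add_distrib]
      refine sum_le_sum fun z' _ => ?_
      have g1 := m1 c x x' m z z'
      have g2 := m0 c x x' m z z'
      have g3 := k0 (c + m) z' n y'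
      have g4 := k0 (c + m) (z + v) n y
      by_cases hG : G z
      · rw [if_pos hG, zero_mul, add_zero]
        have g5 := h1 z hG
        calc (kn μ s η c x m z * kn μ s η c x' m z' - MM μ s η c x x' m z z') *
            (kn μ s η (c + m) (z + v) n y * kn μ s η (c + m) z' n y')
            ≤ (kn μ s η c x m z * kn μ s η c x' m z' - MM μ s η c x x' m z z') *
            ((E * kn μ s η (c + m) z n y) * kn μ s η (c + m) z' n y') :=
              mul_le_mul_of_nonneg_left (mul_le_mul_of_nonneg_right g5 g3) (by linarith)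
          _ = E * ((kn μ s η c x m z * kn μ s η c x' m z' - MM μ s η c x x' m z z') *
            (kn μ s η (c + m) z n y * kn μ s η (c + m) z' n y')) := by ring
      · rw [if_neg hG]
        have g5 : 0 ≤ E * ((kn μ s η c x m z * kn μ s η c x' m z' - MM μ s η c x x' m z z') *
            (kn μ s η (c + m) z n y * kn μ s η (c + m) z' n y')) :=
          mul_nonneg hE (mul_nonneg (by linarith) (mul_nonneg (k0 _ _ _ _) g3))
        have g6 : (kn μ s η c x m z * kn μ s η c x' m z' - MM μ s η c x x' m z z') *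
            (kn μ s η (c + m) (z + v) n y * kn μ s η (c + m) z' n y') ≤
            (kn μ s η c x m z * kn μ s η c x' m z') * (kn μ s η (c + m) (z + v) n y * kn μ s η (c + m) z' n y') :=
          mul_le_mul_of_nonneg_right (by linarith) (mul_nonneg g4 g3)
        calc _ ≤ (kn μ s η c x m z * kn μ s η c x' m z') * (kn μ s η (c + m) (z + v) n y * kn μ s η (c + m) z' n y') := g6
          _ = (kn μ s η c x m z * kn μ s η (c + m) (z + v) n y) * (kn μ s η c x' m z' * kn μ s η (c + m) z' n y') := by ring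
          _ ≤ _ := by linarith
    have e3 : ∑ z ∈ I, ∑ z' ∈ I, kn μ s η c x m z * kn μ s η c x' m z' *
          (kn μ s η (c + m) (z + v) n y * kn μ s η (c + m) z' n y' - MM μ s η (c + m) (z + v) z' n y y') ≤
        E * Pn0 μ s η c x x' m n y y' + τ * kn μ s η c x' (m + n) y' := by
      obtain ⟨f, hf⟩ : ∃ f : ℤ → ℝ, f = fun w => ∑ z' ∈ I, kn μ s η c x m w * kn μ s η c x' m z' *
          (kn μ s η (c + m) w n y * kn μ s η (c + m) z' n y' - MM μ s η (c + m) w z' n y y') := ⟨_, rfl⟩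
      have f0 : ∀ w, 0 ≤ f w := fun w => by
        rw [hf]
        refine sum_nonneg fun z' _ => mul_nonneg (mul_nonneg (k0 _ _ _ _) (k0 _ _ _ _)) ?_
        have := m1 (c + m) w z' n y y'
        linarith
      have f1 : ∀ w, w ∉ I → f w = 0 := fun w hw => by
        rw [hf]
        refine sum_eq_zero fun z' _ => ?_
        rw [kn_zero η (x := x) (z := w) fun h => hw (hI w h.1 h.2)]
        ring
      have f2 : ∑ z ∈ I, f (z + v) ≤ Pn0 μ s η c x x' m n y y' := by
        refine (shift_le v f0 f1).trans ?_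
        rw [hf]
        exact Pn0_ge_two η hI hI' n y y'
      refine le_trans ?_ (add_le_add (mul_le_mul_of_nonneg_left f2 hE) hT)
      rw [mul_sum, ← sum_add_distrib]
      refine sum_le_sum fun z _ => ?_
      rw [hf]
      beta_reduce
      rw [mul_sum, ← sum_add_distrib]
      refine sum_le_sum fun z' _ => ?_
      have g1 := m1 (c + m) (z + v) z' n y y'
      have g2 := m0 (c + m) (z + v) z' n y y'
      have g3 := k0 c x' m z'
      have g4 := k0 c x m z
      by_cases hG : G z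
      · rw [if_pos hG, zero_mul, add_zero]
        have g5 := h2 z hG
        calc kn μ s η c x m z * kn μ s η c x' m z' *
            (kn μ s η (c + m) (z + v) n y * kn μ s η (c + m) z' n y' - MM μ s η (c + m) (z + v) z' n y y')
            ≤ ((E * kn μ s η c x m (z + v)) * kn μ s η c x' m z') *
            (kn μ s η (c + m) (z + v) n y * kn μ s η (c + m) z' n y' - MM μ s η (c + m) (z + v) z' n y y') :=
              mul_le_mul_of_nonneg_right (mul_le_mul_of_nonneg_right g5 g3) (by linarith)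
          _ = E * (kn μ s η c x m (z + v) * kn μ s η c x' m z' *
            (kn μ s η (c + m) (z + v) n y * kn μ s η (c + m) z' n y' - MM μ s η (c + m) (z + v) z' n y y')) := by ring
      · rw [if_neg hG]
        have g5 : 0 ≤ E * (kn μ s η c x m (z + v) * kn μ s η c x' m z' *
            (kn μ s η (c + m) (z + v) n y * kn μ s η (c + m) z' n y' - MM μ s η (c + m) (z + v) z' n y y')) :=
          mul_nonneg hE (mul_nonneg (mul_nonneg (k0 _ _ _ _) g3) (by linarith))
        have g6 : kn μ s η c x m z * kn μ s η c x' m z' *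
            (kn μ s η (c + m) (z + v) n y * kn μ s η (c + m) z' n y' - MM μ s η (c + m) (z + v) z' n y y') ≤
            kn μ s η c x m z * kn μ s η c x' m z' * (kn μ s η (c + m) (z + v) n y * kn μ s η (c + m) z' n y') :=
          mul_le_mul_of_nonneg_left (by linarith) (mul_nonneg g4 g3)
        calc _ ≤ kn μ s η c x m z * kn μ s η c x' m z' * (kn μ s η (c + m) (z + v) n y * kn μ s η (c + m) z' n y') := g6
          _ = (kn μ s η c x m z * kn μ s η (c + m) (z + v) n y) * (kn μ s η c x' m z' * kn μ s η (c + m) z' n y') := by ring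
          _ ≤ _ := by linarith
    linarith

open Classical in
/-- **TWO REPLICAS WITH ONE JUMP.** -/
theorem zj_sub (η : Env) (hI : ∀ z : ℤ, x ≤ z → z ≤ x + m → z ∈ I) (hI' : ∀ z : ℤ, x' ≤ z → z ≤ x' + m → z ∈ I)
    {n : ℕ} {v y y' : ℤ} {G G' : ℤ → Prop} {E τ τ' : ℝ} (hE : 0 ≤ E)
    (h1 : ∀ z, G z → kn μ s η (c + m) (z + v) n y ≤ E * kn μ s η (c + m) z n y)
    (h2 : ∀ z, G z → kn μ s η c x m z ≤ E * kn μ s η c x m (z + v))
    (h3 : ∑ z ∈ I, (if G z then 0 else kn μ s η c x m z * kn μ s η (c + m) (z + v) n y) ≤ τ)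
    (h1' : ∀ z, G' z → kn μ s η (c + m) (z + v) n y' ≤ E * kn μ s η (c + m) z n y')
    (h2' : ∀ z, G' z → kn μ s η c x' m z ≤ E * kn μ s η c x' m (z + v))
    (h3' : ∑ z ∈ I, (if G' z then 0 else kn μ s η c x' m z * kn μ s η (c + m) (z + v) n y') ≤ τ') :
    |zj μ s η c x m n v y * kn μ s η c x' (m + n) y' - zj μ s η c x' m n v y' * kn μ s η c x (m + n) y| ≤
      2 * E * Pn0 μ s η c x x' m n y y' + 2 * τ * kn μ s η c x' (m + n) y' + 2 * τ' * kn μ s η c x (m + n) y := by
  obtain ⟨a1, a2⟩ := zj_sub_CC (y' := y') η hI hI' hE h1 h2 h3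
  obtain ⟨b1, b2⟩ := zj_sub_CC (y' := y) η hI' hI hE h1' h2' h3'
  rw [CC_symm, Pn0_symm] at b2
  rw [CC_symm] at b1
  have t0 : 0 ≤ τ := le_trans (sum_nonneg fun z _ => by
    split_ifs
    · exact le_rfl
    · exact mul_nonneg (kn_nonneg _ _ _ _ _) (kn_nonneg _ _ _ _ _)) h3
  have t0' : 0 ≤ τ' := le_trans (sum_nonneg fun z _ => by
    split_ifs
    · exact le_rfl
    · exact mul_nonneg (kn_nonneg _ _ _ _ _) (kn_nonneg _ _ _ _ _)) h3'
  have c1 : 0 ≤ 2 * τ * kn μ s η c x' (m + n) y' := mul_nonneg (by linarith) (kn_nonneg _ _ _ _ _)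
  have c2 : 0 ≤ 2 * τ' * kn μ s η c x (m + n) y := mul_nonneg (by linarith) (kn_nonneg _ _ _ _ _)
  rw [abs_le]
  constructor <;> linarith

end main

end

end Pool.Agent.W_7d29a1_C0.GwA50
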