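import Pool.Agent.W_7d29a1_C0.GwB50
import Pool.Agent.W_7d29a1_C0.Blk18
import Pool.Agent.W_7d29a1_C0.Two57

/-!
MP_7d29a1_pr, [CURV0] / [C0]: `gj` IS `Dif` WITH THE INNER KERNEL, the deterministic part. (helper50)

`Pn0_cE2`: the weight of the pairs over a window which do not meet on both sides of a row, as a conditional mean of two replicas.
`lk_sub_le`: the responses of a window to a kick, for two pairs of ends, differ by at most `exp κ * (2 E cE2 (NM) + 4 t)`.
-/

set_option autoImplicit false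

namespace Pool.Agent.W_7d29a1_C0.GwA50

open Finset MeasureTheory Pool.Agent.W_7d29a1_F Pool.Agent.W_7d29a1_X
open Pool.Agent.W_7d29a1_Z74 (ZJ)
open Pool.Agent.W_7d29a1_HZ (gp)
open Pool.W7d29a1.C0 (gz gm)
open Pool.W7d29a1.C0.VT31 (cE)
open Pool.Agent.W_7d29a1_C0.Mod92
open Pool.Agent.W_7d29a1_C0.Blk18
open Pool.Agent.W_7d29a1_C0.Swap57 (cE2 NM NM_of NM_of_not Eqp)

noncomputable section

variable {μ : Measure ℝ} {s : ℝ} {N : ℕ} {Q : Finset (Finset ℕ)}

theorem kn_pos (η : Env) {c : ℕ} {x : ℤ} {m : ℕ} {z : ℤ} (h0 : x ≤ z) (h1 : z ≤ x + m) : 0 < kn μ s η c x m z :=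
  Pool.Agent.W_7d29a1_Z74.W_pos _ _ (by omega) (by omega)

theorem gp_pw (η : Env) (c : ℕ) (x : ℤ) (m : ℕ) (y : ℤ) (T : Finset ℕ) :
    gp μ s (sh ((c : ℤ), x) η) m (y - x) T = if x + pos T m = y then pw μ s η c x m T / kn μ s η c x m y else 0 := by
  unfold gp pw kn
  rw [W_sh, zero_add]
  by_cases h : pos T m = y - x
  · rw [if_pos h, if_pos (by omega)]
  · rw [if_neg h, if_neg (by omega)]

/-- The pairs which do not meet on both sides of the row `c + m`, as two replicas given the outsides of the window. -/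
theorem Pn0_cE2 [Nonempty (Px Q)] (hQ : Full N Q) (η : Env) {c m n : ℕ} (hd : c + (m + n) ≤ N) (S S' : Px Q) :
    Pn0 μ s η c (ps S c) (ps S' c) m n (ps S (c + (m + n))) (ps S' (c + (m + n))) =
      kn μ s η c (ps S c) (m + n) (ps S (c + (m + n))) * kn μ s η c (ps S' c) (m + n) (ps S' (c + (m + n))) *
      cE2 (lw μ s η N Q) (pJ c (c + (m + n))) (NM c (c + m) (c + m) (c + (m + n))) S S' := by
  classical
  obtain ⟨x, hx⟩ : ∃ x, x = ps S c := ⟨_, rfl⟩
  obtain ⟨x', hx'⟩ : ∃ x, x = ps S' c := ⟨_, rfl⟩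
  obtain ⟨y, hy⟩ : ∃ x, x = ps S (c + (m + n)) := ⟨_, rfl⟩
  obtain ⟨y', hy'⟩ : ∃ x, x = ps S' (c + (m + n)) := ⟨_, rfl⟩
  have hcd : c ≤ c + (m + n) := Nat.le_add_right _ _
  have hsub : c + (m + n) - c = m + n := Nat.add_sub_cancel_left _ _
  have hb : ∀ S : Px Q, ps S c ≤ ps S (c + (m + n)) ∧ ps S (c + (m + n)) ≤ ps S c + ((m + n : ℕ) : ℤ) := fun S => by
    have h1 := card_blk (c := c) S.1 hcd
    have h2 : ((S.1 ∩ Ico c (c + (m + n))).card : ℤ) ≤ ((m + n : ℕ) : ℤ) := by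
      have := card_le_card (inter_subset_right : S.1 ∩ Ico c (c + (m + n)) ⊆ Ico c (c + (m + n)))
      rw [Nat.card_Ico, hsub] at this
      exact_mod_cast this
    have h3 : (0 : ℤ) ≤ ((S.1 ∩ Ico c (c + (m + n))).card : ℤ) := Int.natCast_nonneg _
    unfold ps
    omega
  have hk : 0 < kn μ s η c x (m + n) y := by
    rw [hx, hy]
    exact kn_pos η (hb S).1 (hb S).2
  have hk' : 0 < kn μ s η c x' (m + n) y' := by
    rw [hx', hy']
    exact kn_pos η (hb S').1 (hb S').2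
  rw [← hx, ← hx', ← hy, ← hy']
  -- the conditional mean
  have e1 : cE2 (lw μ s η N Q) (pJ c (c + (m + n))) (NM c (c + m) (c + m) (c + (m + n))) S S' =
      ∑ T ∈ (range (m + n)).powerset, ∑ T' ∈ (range (m + n)).powerset,
        (if x + pos T (m + n) = y ∧ x' + pos T' (m + n) = y' then
          pw μ s η c x (m + n) T * pw μ s η c x' (m + n) T' else 0) /
          (kn μ s η c x (m + n) y * kn μ s η c x' (m + n) y') *
        (if (∃ i ≤ m, eqp x x' T T' i) ∧ ∃ i ≤ n, eqp x x' T T' (m + i) then 0 else 1) := by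
    unfold cE2
    rw [blk18 hQ η hcd hd, hsub]
    refine sum_congr rfl fun T hT => ?_
    rw [mem_powerset] at hT
    rw [blk18 hQ η hcd hd, hsub, mul_sum]
    refine sum_congr rfl fun T' hT' => ?_
    rw [mem_powerset] at hT'
    rw [← hx, ← hx', ← hy, ← hy', gp_pw, gp_pw]
    by_cases h1 : x + pos T (m + n) = y
    · by_cases h2 : x' + pos T' (m + n) = y'
      · rw [if_pos h1, if_pos h2, if_pos ⟨h1, h2⟩]
        have g1 : pos T (c + (m + n) - c) = ps S (c + (m + n)) - ps S c := by rw [hsub]; omega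
        have g2 : pos T' (c + (m + n) - c) = ps S' (c + (m + n)) - ps S' c := by rw [hsub]; omega
        have p1 : ∀ i ≤ m + n, ps (splP c (c + (m + n)) S T) (c + i) = x + pos T i := fun i hi => by
          rw [ps_splP_mid hQ hcd hd S (by rw [hsub]; exact hT) g1 (by omega), hx]
        have p2 : ∀ i ≤ m + n, ps (splP c (c + (m + n)) S' T') (c + i) = x' + pos T' i := fun i hi => by
          rw [ps_splP_mid hQ hcd hd S' (by rw [hsub]; exact hT') g2 (by omega), hx']
        have e : Pool.Agent.W_7d29a1_C0.Swap57.Mt c (c + m) (c + m) (c + (m + n)) (splP c (c + (m + n)) S T) (splP c (c + (m + n)) S' T') ↔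
            (∃ i ≤ m, eqp x x' T T' i) ∧ ∃ i ≤ n, eqp x x' T T' (m + i) := by
          unfold Pool.Agent.W_7d29a1_C0.Swap57.Mt Eqp eqp
          constructor
          · rintro ⟨⟨i, h3, h4, h5⟩, ⟨k, h6, h7, h8⟩⟩
            refine ⟨⟨i - c, by omega, ?_⟩, ⟨k - (c + m), by omega, ?_⟩⟩
            · rw [← p1 _ (by omega), ← p2 _ (by omega), Nat.add_sub_cancel' h3]
              exact h5
            · rw [← p1 _ (by omega), ← p2 _ (by omega), show c + (m + (k - (c + m))) = k by omega]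
              exact h8
          · rintro ⟨⟨i, h3, h4⟩, ⟨k, h6, h7⟩⟩
            refine ⟨⟨c + i, by omega, by omega, ?_⟩, ⟨c + (m + k), by omega, by omega, ?_⟩⟩
            · rw [p1 _ (by omega), p2 _ (by omega)]
              exact h4
            · rw [p1 _ (by omega), p2 _ (by omega)]
              exact h7
        have e2 : NM c (c + m) (c + m) (c + (m + n)) (splP c (c + (m + n)) S T) (splP c (c + (m + n)) S' T') =
            if (∃ i ≤ m, eqp x x' T T' i) ∧ ∃ i ≤ n, eqp x x' T T' (m + i) then 0 else 1 := by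
          by_cases h : (∃ i ≤ m, eqp x x' T T' i) ∧ ∃ i ≤ n, eqp x x' T T' (m + i)
          · rw [if_pos h]
            exact NM_of (e.2 h)
          · rw [if_neg h]
            exact NM_of_not fun h' => h (e.1 h')
        rw [e2]
        field_simp
      · rw [if_neg h2, if_neg (show ¬(x + pos T (m + n) = y ∧ x' + pos T' (m + n) = y') from fun h => h2 h.2)]
        ring
    · rw [if_neg h1, if_neg (show ¬(x + pos T (m + n) = y ∧ x' + pos T' (m + n) = y') from fun h => h1 h.1)]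
      ring
  rw [e1]
  have e3 : ∑ T ∈ (range (m + n)).powerset, ∑ T' ∈ (range (m + n)).powerset,
        (if x + pos T (m + n) = y ∧ x' + pos T' (m + n) = y' then
          pw μ s η c x (m + n) T * pw μ s η c x' (m + n) T' else 0) /
          (kn μ s η c x (m + n) y * kn μ s η c x' (m + n) y') *
        (if (∃ i ≤ m, eqp x x' T T' i) ∧ ∃ i ≤ n, eqp x x' T T' (m + i) then 0 else 1) =
      (kn μ s η c x (m + n) y * kn μ s η c x' (m + n) y' - MW μ s η c x x' m n y y') /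
        (kn μ s η c x (m + n) y * kn μ s η c x' (m + n) y') := by
    rw [sub_div]
    nth_rw 2 [kn_mul]
    unfold MW
    rw [sum_div, sum_div, ← sum_sub_distrib]
    refine sum_congr rfl fun T _ => ?_
    rw [sum_div, sum_div, ← sum_sub_distrib]
    refine sum_congr rfl fun T' _ => ?_
    by_cases h1 : x + pos T (m + n) = y ∧ x' + pos T' (m + n) = y'
    · by_cases h2 : (∃ i ≤ m, eqp x x' T T' i) ∧ ∃ i ≤ n, eqp x x' T T' (m + i)
      · rw [if_pos h1, if_pos h2, if_pos ⟨h1, h2⟩]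
        ring
      · rw [if_pos h1, if_neg h2, if_neg (show ¬((x + pos T (m + n) = y ∧ x' + pos T' (m + n) = y') ∧
          (∃ i ≤ m, eqp x x' T T' i) ∧ ∃ i ≤ n, eqp x x' T T' (m + i)) from fun h => h2 h.2)]
        ring
    · rw [if_neg h1, if_neg (show ¬((x + pos T (m + n) = y ∧ x' + pos T' (m + n) = y') ∧
          (∃ i ≤ m, eqp x x' T T' i) ∧ ∃ i ≤ n, eqp x x' T T' (m + i)) from fun h => h1 h.1)]
      ring
  rw [e3]
  unfold Pn0
  field_simp

/-! ### Logarithms -/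

theorem abs_log_sub {a b κ : ℝ} (ha : Real.exp (-κ) ≤ a) (hb : Real.exp (-κ) ≤ b) :
    |Real.log a - Real.log b| ≤ Real.exp κ * |a - b| := by
  have key : ∀ a b : ℝ, Real.exp (-κ) ≤ a → Real.exp (-κ) ≤ b → Real.log a - Real.log b ≤ Real.exp κ * |a - b| := by
    intro a b ha hb
    have ha0 : 0 < a := (Real.exp_pos _).trans_le ha
    have hb0 : 0 < b := (Real.exp_pos _).trans_le hb
    rw [← Real.log_div ha0.ne' hb0.ne']
    have h1 : Real.log (a / b) ≤ a / b - 1 := Real.log_le_sub_one_of_pos (div_pos ha0 hb0)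
    have h2 : a / b - 1 = (a - b) * b⁻¹ := by
      field_simp
    have h3 : b⁻¹ ≤ Real.exp κ := by
      rw [inv_le_comm₀ hb0 (Real.exp_pos _), ← Real.exp_neg]
      exact hb
    calc Real.log (a / b) ≤ (a - b) * b⁻¹ := by rw [← h2]; exact h1
      _ ≤ |a - b| * b⁻¹ := mul_le_mul_of_nonneg_right (le_abs_self _) (inv_pos.2 hb0).le
      _ ≤ |a - b| * Real.exp κ := mul_le_mul_of_nonneg_left h3 (abs_nonneg _)
      _ = Real.exp κ * |a - b| := mul_comm _ _
  rw [abs_le]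
  constructor
  · have := key b a hb ha
    rw [abs_sub_comm] at this
    linarith
  · exact key a b ha hb

/-- The displacement of a path over a window. -/
theorem ps_rng {c l : ℕ} (S : Px Q) : ps S c ≤ ps S (c + l) ∧ ps S (c + l) ≤ ps S c + (l : ℤ) := by
  have h1 := card_blk (c := c) (d := c + l) S.1 (Nat.le_add_right _ _)
  have h2 : ((S.1 ∩ Ico c (c + l)).card : ℤ) ≤ (l : ℤ) := by
    have := card_le_card (inter_subset_right : S.1 ∩ Ico c (c + l) ⊆ Ico c (c + l))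
    rw [Nat.card_Ico, Nat.add_sub_cancel_left] at this
    exact_mod_cast this
  have h3 : (0 : ℤ) ≤ ((S.1 ∩ Ico c (c + l)).card : ℤ) := Int.natCast_nonneg _
  unfold ps
  omega

theorem lk_eq (η : Env) (c m n : ℕ) (v x y : ℤ) : lk μ s η c (m + n) m v x y =
    Real.log (zj μ s η c x m n v y) - Real.log (kn μ s η c x (m + n) y) := by
  unfold lk zj kn
  rw [Nat.add_sub_cancel_left]

open Classical in
/-- **THE RESPONSES OF A WINDOW TO A KICK FOR TWO PAIRS OF ENDS**, kernels. -/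
theorem lk_sub_aux (η : Env) {I : Finset ℤ} {c : ℕ} {x x' : ℤ} {m : ℕ}
    (hI : ∀ z : ℤ, x ≤ z → z ≤ x + m → z ∈ I) (hI' : ∀ z : ℤ, x' ≤ z → z ≤ x' + m → z ∈ I)
    {n : ℕ} {v y y' : ℤ} (hr : x ≤ y ∧ y ≤ x + ((m + n : ℕ) : ℤ)) (hr' : x' ≤ y' ∧ y' ≤ x' + ((m + n : ℕ) : ℤ))
    {G G' : ℤ → Prop} {E κ t K : ℝ} (hE : 0 ≤ E)
    (h1 : ∀ z, G z → kn μ s η (c + m) (z + v) n y ≤ E * kn μ s η (c + m) z n y)
    (h2 : ∀ z, G z → kn μ s η c x m z ≤ E * kn μ s η c x m (z + v))
    (h3 : ∑ z ∈ I, (if G z then 0 else kn μ s η c x m z * kn μ s η (c + m) (z + v) n y) ≤ t * kn μ s η c x (m + n) y)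
    (h1' : ∀ z, G' z → kn μ s η (c + m) (z + v) n y' ≤ E * kn μ s η (c + m) z n y')
    (h2' : ∀ z, G' z → kn μ s η c x' m z ≤ E * kn μ s η c x' m (z + v))
    (h3' : ∑ z ∈ I, (if G' z then 0 else kn μ s η c x' m z * kn μ s η (c + m) (z + v) n y') ≤ t * kn μ s η c x' (m + n) y')
    (hz : 0 < zj μ s η c x m n v y) (hz' : 0 < zj μ s η c x' m n v y')
    (hk : |lk μ s η c (m + n) m v x y| ≤ κ) (hk' : |lk μ s η c (m + n) m v x' y'| ≤ κ)
    (hP : Pn0 μ s η c x x' m n y y' = kn μ s η c x (m + n) y * kn μ s η c x' (m + n) y' * K) :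
    |lk μ s η c (m + n) m v x y - lk μ s η c (m + n) m v x' y'| ≤ Real.exp κ * (2 * E * K + 4 * t) := by
  have a0 : 0 < kn μ s η c x (m + n) y := kn_pos η hr.1 hr.2
  have b0 : 0 < kn μ s η c x' (m + n) y' := kn_pos η hr'.1 hr'.2
  have hmain := zj_sub η hI hI' hE h1 h2 h3 h1' h2' h3'
  have e2 : ∀ x y : ℤ, 0 < zj μ s η c x m n v y → 0 < kn μ s η c x (m + n) y →
      lk μ s η c (m + n) m v x y = Real.log (zj μ s η c x m n v y / kn μ s η c x (m + n) y) := fun x y h1 h2 => by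
    rw [lk_eq, Real.log_div h1.ne' h2.ne']
  have e3 : ∀ x y : ℤ, 0 < zj μ s η c x m n v y → 0 < kn μ s η c x (m + n) y → |lk μ s η c (m + n) m v x y| ≤ κ →
      Real.exp (-κ) ≤ zj μ s η c x m n v y / kn μ s η c x (m + n) y := fun x y h1 h2 h3 => by
    rw [e2 x y h1 h2] at h3
    rw [← Real.exp_log (div_pos h1 h2)]
    exact Real.exp_le_exp.2 (abs_le.1 h3).1
  have g1 := abs_log_sub (e3 x y hz a0 hk) (e3 x' y' hz' b0 hk')
  rw [← e2 x y hz a0, ← e2 x' y' hz' b0] at g1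
  refine g1.trans (mul_le_mul_of_nonneg_left ?_ (Real.exp_pos _).le)
  have e4 : zj μ s η c x m n v y / kn μ s η c x (m + n) y - zj μ s η c x' m n v y' / kn μ s η c x' (m + n) y' =
      (zj μ s η c x m n v y * kn μ s η c x' (m + n) y' - zj μ s η c x' m n v y' * kn μ s η c x (m + n) y) /
        (kn μ s η c x (m + n) y * kn μ s η c x' (m + n) y') := by
    field_simp
  rw [e4, abs_div, abs_of_pos (mul_pos a0 b0), div_le_iff₀ (mul_pos a0 b0)]
  refine hmain.trans (le_of_eq ?_)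
  rw [hP]
  ring

open Classical in
/-- **THE RESPONSES OF A WINDOW TO A KICK FOR TWO PATHS.** -/
theorem lk_sub_le [Nonempty (Px Q)] (hQ : Full N Q) (η : Env) {I : Finset ℤ} {c m n : ℕ} (hd : c + (m + n) ≤ N) {v : ℤ}
    (S S' : Px Q)
    (hI : ∀ z : ℤ, ps S c ≤ z → z ≤ ps S c + m → z ∈ I) (hI' : ∀ z : ℤ, ps S' c ≤ z → z ≤ ps S' c + m → z ∈ I)
    {G G' : ℤ → Prop} {E κ t : ℝ} (hE : 0 ≤ E)
    (h1 : ∀ z, G z → kn μ s η (c + m) (z + v) n (ps S (c + (m + n))) ≤ E * kn μ s η (c + m) z n (ps S (c + (m + n))))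
    (h2 : ∀ z, G z → kn μ s η c (ps S c) m z ≤ E * kn μ s η c (ps S c) m (z + v))
    (h3 : ∑ z ∈ I, (if G z then 0 else kn μ s η c (ps S c) m z * kn μ s η (c + m) (z + v) n (ps S (c + (m + n)))) ≤
      t * kn μ s η c (ps S c) (m + n) (ps S (c + (m + n))))
    (h1' : ∀ z, G' z → kn μ s η (c + m) (z + v) n (ps S' (c + (m + n))) ≤ E * kn μ s η (c + m) z n (ps S' (c + (m + n))))
    (h2' : ∀ z, G' z → kn μ s η c (ps S' c) m z ≤ E * kn μ s η c (ps S' c) m (z + v))
    (h3' : ∑ z ∈ I, (if G' z then 0 else kn μ s η c (ps S' c) m z * kn μ s η (c + m) (z + v) n (ps S' (c + (m + n)))) ≤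
      t * kn μ s η c (ps S' c) (m + n) (ps S' (c + (m + n))))
    (hz : 0 < zj μ s η c (ps S c) m n v (ps S (c + (m + n)))) (hz' : 0 < zj μ s η c (ps S' c) m n v (ps S' (c + (m + n))))
    (hk : |lk μ s η c (m + n) m v (ps S c) (ps S (c + (m + n)))| ≤ κ)
    (hk' : |lk μ s η c (m + n) m v (ps S' c) (ps S' (c + (m + n)))| ≤ κ) :
    |lk μ s η c (m + n) m v (ps S c) (ps S (c + (m + n))) - lk μ s η c (m + n) m v (ps S' c) (ps S' (c + (m + n)))| ≤
      Real.exp κ * (2 * E * cE2 (lw μ s η N Q) (pJ c (c + (m + n))) (NM c (c + m) (c + m) (c + (m + n))) S S' + 4 * t) :=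
  lk_sub_aux η hI hI' (ps_rng S) (ps_rng S') hE h1 h2 h3 h1' h2' h3' hz hz' hk hk' (Pn0_cE2 hQ η hd S S')

/-! ### The clipped half responses -/

theorem cl_sub (B u v : ℝ) : |cl B u - cl B v| ≤ |u - v| := by
  unfold cl
  have h1 := abs_max_sub_max_le_max (-B) (min B u) (-B) (min B v)
  have h2 := abs_min_sub_min_le_max B u B v
  have h3 : max |(-B) - (-B)| |min B u - min B v| = |min B u - min B v| := by
    rw [sub_self, abs_zero]
    exact max_eq_right (abs_nonneg (min B u - min B v))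
  have h4 : max |B - B| |u - v| = |u - v| := by
    rw [sub_self, abs_zero]
    exact max_eq_right (abs_nonneg (u - v))
  rw [h3] at h1
  rw [h4] at h2
  exact h1.trans h2

theorem gw_sub_le (η : Env) {δ B : ℝ} {a : ℤ} (ha : |(a : ℝ)| ≤ 1) {c l k : ℕ} {x y x' y' : ℤ} (hf : Flat μ s δ l a (y - x))
    (hf' : Flat μ s δ l a (y' - x')) :
    |gw μ s η δ B a c l k x y - gw μ s η δ B a c l k x' y'| ≤
      1 / 2 * |lk μ s η c l k (-a) x y - lk μ s η c l k (-a) x' y'| := by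
  unfold gw
  rw [if_pos hf, if_pos hf', ← mul_sub, abs_mul, abs_neg, abs_div, abs_two]
  refine mul_le_mul (by linarith) (cl_sub _ _ _) (abs_nonneg _) (by norm_num)

end

end Pool.Agent.W_7d29a1_C0.GwA50
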