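import Pool.Agent.W_7d29a1_HZ.Z74_URW
import Pool.Agent.W_7d29a1_HZ.NS

/-!
MP_7d29a1_pr, [CURV0]: the response of one kick. `ZJ μ s η a m n j y` (file `W_7d29a1_Z74/Resp`) is the kernel from `a`, length
`m + n`, end displacement `y`, of the paths which jump by `j` at the row `m` (both ends fixed in the frame of the environment).
`kick14`: off `exp (-L ^ c')`, for ALL windows `[i, i + l]` of the box, all starts, all rows `k₀ < l` of the jump, all jumps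
`|j| ≤ wd r`, `L ^ θ ≤ r ≤ l / 32`, and all ends in the cone, the logarithm of the kernel moves by at most `L ^ ε EE r`.
`kick14_unit`: `|j| ≤ 1`, by at most `L ^ ε`, all windows of length at least `L ^ ε`. (helper14; corollary of `Z74.rsp_one`)
-/

set_option autoImplicit false

namespace Pool.Agent.W_7d29a1_C0.K14

open Pool.Agent.W_7d29a1_F hiding W_pos W_nonneg W_add
open Finset MeasureTheory Filter Topology Pool.Agent.W_7d29a1_X Pool.Agent.W_7d29a1_HZ Pool.Agent.W_7d29a1_h4g Pool.Agent.W_7d29a1_H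
open Pool.Agent.W_7d29a1_HS (In wd)
open Pool.Agent.W_7d29a1_Z74
open Pool.Agent.W_7d29a1_HZ.Z74
open scoped ENNReal

noncomputable section

variable {μ : Measure ℝ} {s : ℝ}

/-- Translation of the kernels with a jump. -/
theorem ZJ_sh (η : Env) (c : Pt) (m n : ℕ) (j y : ℤ) : ZJ μ s (sh c η) 0 m n j y = ZJ μ s η c m n j y := by
  unfold ZJ
  refine sum_congr rfl fun z _ => ?_
  rw [W_sh, W_sh, zero_add]
  have e1 : (((0 : Pt).1 + (m : ℤ), (0 : Pt).2 + z + j) : Pt) + c = (c.1 + m, c.2 + z + j) := by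
    rw [Prod.ext_iff]
    constructor
    · simp [add_comm]
    · simp [add_comm, add_left_comm]
  rw [e1]

/-- The kernels with a jump are positive. -/
theorem ZJ_pos (η : Env) (a : Pt) (m n : ℕ) {j y : ℤ} (h0 : 0 ≤ y - j) (h1 : y - j ≤ ((m + n : ℕ) : ℤ)) :
    0 < ZJ μ s η a m n j y := by
  rw [ZJ_shj]
  exact W_pos _ _ h0 h1

/-- The jump at the row `0` is a shift of the start. -/
theorem ZJ_row0 (η : Env) (a : Pt) (n : ℕ) (j y : ℤ) : ZJ μ s η a 0 n j y = W μ s η (a.1, a.2 + j) n (y - j) := by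
  unfold ZJ
  rw [Nat.cast_zero, Icc_self, sum_singleton]
  have e1 : W μ s η a 0 0 = 1 := by
    unfold W WR
    rw [Pool.Agent.W_7d29a1_X.Zr_zero89]
    simp
  rw [e1, one_mul, add_zero, add_zero, sub_zero]

/-- **All kicks are small**: all the windows `[i, i + l]`, all starts, jumps `j`, `|j| ≤ wd r`, at any row. -/
def KOK (μ : Measure ℝ) (s : ℝ) (L : ℕ) (θ δ ε : ℝ) (η : Env) : Prop :=
  ∀ i l : ℕ, i + l ≤ L → ∀ x : ℤ, |x| ≤ 2 * L → ∀ r : ℕ, (L : ℝ) ^ θ ≤ r → 32 * r ≤ l → ∀ j : ℤ, |(j : ℝ)| ≤ wd μ s r →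
    ∀ k₀ : ℕ, k₀ < l → ∀ y : ℤ, |(y : ℝ) - sl μ s * l| ≤ (l : ℝ) ^ δ * wd μ s l →
    |Real.log (ZJ μ s η ((i : ℤ), x) k₀ (l - k₀) j y) - Real.log (W μ s η ((i : ℤ), x) l y)| ≤ (L : ℝ) ^ ε * EE μ s r

/-- One window, one row, one jump, started at `0`. -/
def B14 (μ : Measure ℝ) (s : ℝ) (δ ε : ℝ) (l r k₀ : ℕ) (j : ℤ) : Set Env :=
  {η | ∃ y : ℤ, |(y : ℝ) - sl μ s * l| ≤ (l : ℝ) ^ δ * wd μ s l ∧
    (l : ℝ) ^ ε * EE μ s r < |Real.log (ZJ μ s η 0 k₀ (l - k₀) j y) - Real.log (W μ s η 0 l y)|}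

theorem law_B14 {δ ε p : ℝ} {l r k₀ : ℕ} {j : ℤ} (hk : k₀ < l)
    (hR : Rsp μ s l {k₀} (-j) ((l : ℝ) ^ δ * wd μ s l) ((l : ℝ) ^ ε * EE μ s r) p) :
    law μ (B14 μ s δ ε l r k₀ j) ≤ ENNReal.ofReal p := by
  unfold Rsp at hR
  refine (measure_mono fun η hη => ?_).trans hR
  obtain ⟨y, h1, h2⟩ := hη
  refine ⟨0, l, by omega, by omega, le_rfl, y, ?_, ?_⟩
  · rw [Nat.cast_zero, sub_zero]
    exact h1
  · rw [fk_one hk (-j) η (Nat.zero_le _) hk le_rfl 0 y, fk_zero, sub_zero, neg_neg, Nat.sub_zero, Nat.sub_zero]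
    have e : (((0 : ℕ) : ℤ), (0 : ℤ)) = (0 : Pt) := rfl
    rw [e]
    exact h2

variable [IsProbabilityMeasure μ]

/-- Translation of the bad events. -/
theorem law_B14_sh {δ ε : ℝ} {l r k₀ : ℕ} {j : ℤ} (a : Pt) :
    law μ (sh a ⁻¹' B14 μ s δ ε l r k₀ j) ≤ law μ (B14 μ s δ ε l r k₀ j) := by
  have h := mp_sh (μ := μ) a
  have h1 := Measure.le_map_apply (μ := law μ) h.measurable.aemeasurable (B14 μ s δ ε l r k₀ j)
  rwa [h.map_eq] at h1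

/-- The indices of the bad events. -/
def Ix (L : ℕ) : Finset (ℕ × ℕ × ℕ × ℕ × ℤ × ℤ) :=
  range (L + 1) ×ˢ range (L + 1) ×ˢ range (L + 1) ×ˢ range (L + 1) ×ˢ Icc (-(2 * (L : ℤ))) (2 * L) ×ˢ Icc (-(L : ℤ)) L

omit [IsProbabilityMeasure μ] in
theorem card_Ix {L : ℕ} (hL : 1 ≤ L) : ((Ix L).card : ℝ) ≤ 240 * (L : ℝ) ^ (6 : ℝ) := by
  unfold Ix
  rw [card_product, card_product, card_product, card_product, card_product, card_range, Int.card_Icc, Int.card_Icc]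
  have e1 : (2 * (L : ℤ) + 1 - -(2 * (L : ℤ))).toNat = 4 * L + 1 := by omega
  have e2 : ((L : ℤ) + 1 - -(L : ℤ)).toNat = 2 * L + 1 := by omega
  rw [e1, e2]
  have hL' : (1 : ℝ) ≤ L := by exact_mod_cast hL
  have e3 : (L : ℝ) ^ (6 : ℝ) = L ^ 6 := by
    rw [← Real.rpow_natCast]
    norm_num
  rw [e3]
  push_cast
  have a1 : (L : ℝ) + 1 ≤ 2 * L := by linarith
  have a2 : 4 * (L : ℝ) + 1 ≤ 5 * L := by linarith
  have a3 : 2 * (L : ℝ) + 1 ≤ 3 * L := by linarith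
  have hL0 : (0 : ℝ) ≤ L := by linarith
  calc ((L : ℝ) + 1) * (((L : ℝ) + 1) * (((L : ℝ) + 1) * (((L : ℝ) + 1) * ((4 * (L : ℝ) + 1) * (2 * (L : ℝ) + 1)))))
      ≤ (2 * L) * ((2 * L) * ((2 * L) * ((2 * L) * ((5 * L) * (3 * L))))) := by gcongr
    _ = 240 * (L : ℝ) ^ 6 := by ring

/-- **THE RESPONSE OF ONE KICK**, all windows, all rows, all starts and ends, all sizes. -/
theorem kick14 {c C : ℝ} {n₀ : ℕ} (h : In μ s c C n₀) {θ ε : ℝ} (hθ : 0 < θ) (hε : 0 < ε) :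
    ∃ δ c' : ℝ, 0 < δ ∧ 0 < c' ∧ ∃ L₀ : ℕ, ∀ L : ℕ, L₀ ≤ L →
      law μ {η | ¬ KOK μ s L θ δ ε η} ≤ ENNReal.ofReal (Real.exp (-(L : ℝ) ^ c')) := by
  obtain ⟨δ, c₁, hδ, hc₁, t₀, ht₀⟩ := rsp_one h (fun ε hε => ns h ε hε) hθ hε
  obtain ⟨n₄, hn₄⟩ := (h.tv.eventually (Iio_mem_nhds (show (0 : ℝ) < 1 from one_pos))).exists_forall_of_atTop
  refine ⟨δ, θ * c₁ / 2, hδ, by positivity, ?_⟩
  have hev : ∀ᶠ L : ℕ in atTop, 1 ≤ L ∧ (t₀ : ℝ) + n₄ ≤ (L : ℝ) ^ θ ∧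
      240 * (L : ℝ) ^ (6 : ℝ) * Real.exp (-(1 * (L : ℝ) ^ (θ * c₁))) ≤ 1 / 2 * Real.exp (-(L : ℝ) ^ (θ * c₁ / 2)) :=
    (eventually_ge_atTop 1).and ((ev_pow hθ _).and
      (ev_exp (by norm_num) one_pos (by positivity) (by linarith [show 0 < θ * c₁ by positivity]) 6))
  obtain ⟨L₀, hL₀⟩ := hev.exists_forall_of_atTop
  refine ⟨L₀, fun L hL => ?_⟩
  obtain ⟨h1, h2, h3⟩ := hL₀ L hL
  have hL1 : (1 : ℝ) ≤ L := by exact_mod_cast h1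
  have ht0' : (0 : ℝ) ≤ t₀ := Nat.cast_nonneg _
  have hn4' : (0 : ℝ) ≤ n₄ := Nat.cast_nonneg _
  classical
  -- one bad event
  have key : ∀ q ∈ Ix L, law μ (if (L : ℝ) ^ θ ≤ q.2.2.1 ∧ 32 * q.2.2.1 ≤ q.2.1 ∧ |(q.2.2.2.2.2 : ℝ)| ≤ wd μ s q.2.2.1 ∧
      q.2.2.2.1 < q.2.1 ∧ q.2.1 ≤ L
      then sh (((q.1 : ℤ), q.2.2.2.2.1) : Pt) ⁻¹' B14 μ s δ ε q.2.1 q.2.2.1 q.2.2.2.1 q.2.2.2.2.2 else ∅) ≤
      ENNReal.ofReal (Real.exp (-(1 * (L : ℝ) ^ (θ * c₁)))) := by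
    rintro ⟨i, l, r, k₀, x, j⟩ _
    simp only
    split_ifs with hq
    swap
    · rw [measure_empty]
      exact zero_le
    obtain ⟨q1, q2, q3, q4, q5⟩ := hq
    have q6 : (L : ℝ) ^ θ ≤ l := by
      refine q1.trans ?_
      have : r ≤ l := by omega
      exact_mod_cast this
    have q7 : t₀ ≤ l := by
      have : (t₀ : ℝ) ≤ l := by linarith
      exact_mod_cast this
    have hlL : (l : ℝ) ≤ L := by exact_mod_cast q5
    have q8 : (l : ℝ) ^ θ ≤ r := (Real.rpow_le_rpow (Nat.cast_nonneg _) hlL hθ.le).trans q1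
    have hj : |((-j : ℤ) : ℝ)| ≤ wd μ s r := by
      push_cast
      rw [abs_neg]
      exact q3
    have g1 := law_B14 (μ := μ) (s := s) q4 (ht₀ l q7 r q8 q2 (-j) hj k₀ q4)
    refine (law_B14_sh _).trans (g1.trans (ENNReal.ofReal_le_ofReal (Real.exp_le_exp.2 ?_)))
    rw [one_mul, neg_le_neg_iff, Real.rpow_mul (by linarith)]
    exact Real.rpow_le_rpow (by positivity) q6 hc₁.le
  have hsub : {η | ¬ KOK μ s L θ δ ε η} ⊆ ⋃ q ∈ Ix L, if (L : ℝ) ^ θ ≤ q.2.2.1 ∧ 32 * q.2.2.1 ≤ q.2.1 ∧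
      |(q.2.2.2.2.2 : ℝ)| ≤ wd μ s q.2.2.1 ∧ q.2.2.2.1 < q.2.1 ∧ q.2.1 ≤ L
      then sh (((q.1 : ℤ), q.2.2.2.2.1) : Pt) ⁻¹' B14 μ s δ ε q.2.1 q.2.2.1 q.2.2.2.1 q.2.2.2.2.2 else ∅ := by
    intro η hη
    rw [Set.mem_ofPred_eq] at hη
    unfold KOK at hη
    push Not at hη
    obtain ⟨i, l, hil, x, hx, r, hr, hrl, j, hj, k₀, hk₀, y, hy, hc⟩ := hη
    have hlL : l ≤ L := by omega
    have hlL' : (l : ℝ) ≤ L := by exact_mod_cast hlL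
    have hl1 : (1 : ℝ) ≤ l := by
      have : 1 ≤ l := by omega
      exact_mod_cast this
    have hrL : (r : ℝ) ≤ L := by
      have : r ≤ L := by omega
      exact_mod_cast this
    have hr0 : (0 : ℝ) ≤ r := Nat.cast_nonneg _
    have hr4 : n₄ ≤ r := by
      have : (n₄ : ℝ) ≤ r := by linarith
      exact_mod_cast this
    have hjL : |(j : ℝ)| ≤ L := by
      refine hj.trans (le_trans ?_ hrL)
      unfold wd
      exact mul_le_of_le_one_right hr0 (le_of_lt (hn₄ r hr4))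
    have hjL' : |j| ≤ (L : ℤ) := by exact_mod_cast hjL
    simp only [Set.mem_iUnion]
    refine ⟨(i, l, r, k₀, x, j), ?_, ?_⟩
    · unfold Ix
      simp only [mem_product, mem_range, mem_Icc]
      rw [abs_le] at hx hjL'
      omega
    · rw [if_pos ⟨hr, hrl, hj, hk₀, hlL⟩]
      refine ⟨y, hy, ?_⟩
      rw [ZJ_sh, W_sh, zero_add]
      refine lt_of_le_of_lt ?_ hc
      have h5 : (l : ℝ) ^ ε ≤ (L : ℝ) ^ ε := Real.rpow_le_rpow (by linarith) hlL' hε.le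
      exact mul_le_mul_of_nonneg_right h5 (zero_le_one.trans (Pool.Agent.W_7d29a1_H.one_le_EE r))
  refine (measure_mono hsub).trans ((measure_biUnion_finset_le _ _).trans ((sum_le_sum key).trans ?_))
  rw [sum_const, nsmul_eq_mul, ← ENNReal.ofReal_natCast, ← ENNReal.ofReal_mul (Nat.cast_nonneg _)]
  refine ENNReal.ofReal_le_ofReal ?_
  refine (mul_le_mul_of_nonneg_right (card_Ix h1) (Real.exp_pos _).le).trans (h3.trans ?_)
  linarith [Real.exp_pos (-(L : ℝ) ^ (θ * c₁ / 2))]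

/-- **All unit kicks are small**, all the windows of length at least `L ^ ε`. -/
def KU (μ : Measure ℝ) (s : ℝ) (L : ℕ) (δ ε : ℝ) (η : Env) : Prop :=
  ∀ i l : ℕ, i + l ≤ L → (L : ℝ) ^ ε ≤ l → ∀ x : ℤ, |x| ≤ 2 * L → ∀ j : ℤ, |j| ≤ 1 → ∀ k₀ : ℕ, k₀ < l →
    ∀ y : ℤ, |(y : ℝ) - sl μ s * l| ≤ (l : ℝ) ^ δ * wd μ s l →
    |Real.log (ZJ μ s η ((i : ℤ), x) k₀ (l - k₀) j y) - Real.log (W μ s η ((i : ℤ), x) l y)| ≤ (L : ℝ) ^ ε

/-- **THE RESPONSE OF A UNIT KICK**, all windows, all rows, all starts and ends. -/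
theorem kick14_unit {c C : ℝ} {n₀ : ℕ} (h : In μ s c C n₀) {ε : ℝ} (hε : 0 < ε) :
    ∃ δ c' : ℝ, 0 < δ ∧ 0 < c' ∧ ∃ L₀ : ℕ, ∀ L : ℕ, L₀ ≤ L →
      law μ {η | ¬ KU μ s L δ ε η} ≤ ENNReal.ofReal (Real.exp (-(L : ℝ) ^ c')) := by
  obtain ⟨δ, c', hδ, hc', L₁, hL₁⟩ := kick14 h (show 0 < ε / 4 by positivity) (show 0 < ε / 4 by positivity)
  obtain ⟨n₂, hw1⟩ := (tendsto_atTop.1 (Pool.Agent.W_7d29a1_HS.wd_tendsto h) 1).exists_forall_of_atTop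
  have hE1 : 1 ≤ EE μ s 1 := Pool.Agent.W_7d29a1_H.one_le_EE 1
  have hev : ∀ᶠ L : ℕ in atTop, L₁ ≤ L ∧ 1 ≤ L ∧ (n₂ : ℝ) + 1 ≤ (L : ℝ) ^ (ε / 4) ∧
      64 * (L : ℝ) ^ (ε / 4) ≤ 1 * (L : ℝ) ^ ε ∧ 2 * EE μ s 1 * (L : ℝ) ^ (ε / 2) ≤ 1 * (L : ℝ) ^ ε :=
    (eventually_ge_atTop L₁).and ((eventually_ge_atTop 1).and ((ev_pow (by positivity) _).and
      ((ev_pow_le (by linarith) one_pos).and (ev_pow_le (by linarith) one_pos))))
  obtain ⟨L₀, hL₀⟩ := hev.exists_forall_of_atTop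
  refine ⟨δ, c', hδ, hc', L₀, fun L hL => ?_⟩
  obtain ⟨g0, g1, g2, g3, g4⟩ := hL₀ L hL
  refine (measure_mono fun η hη => ?_).trans (hL₁ L g0)
  rw [Set.mem_ofPred_eq] at hη ⊢
  intro hK
  refine hη fun i l hil hl x hx j hj k₀ hk₀ y hy => ?_
  have hL1 : (1 : ℝ) ≤ L := by exact_mod_cast g1
  have hL0 : (0 : ℝ) < L := by linarith
  have hn2 : (0 : ℝ) ≤ n₂ := Nat.cast_nonneg _
  obtain ⟨r, hr⟩ : ∃ r : ℕ, r = ⌈(L : ℝ) ^ (ε / 4)⌉₊ := ⟨_, rfl⟩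
  have hr1 : (L : ℝ) ^ (ε / 4) ≤ r := by rw [hr]; exact Nat.le_ceil _
  have hr2 : (r : ℝ) ≤ 2 * (L : ℝ) ^ (ε / 4) := by
    have h1 : (r : ℝ) < (L : ℝ) ^ (ε / 4) + 1 := by rw [hr]; exact Nat.ceil_lt_add_one (by positivity)
    linarith
  have hr3 : 32 * r ≤ l := by
    have : 32 * (r : ℝ) ≤ l := by linarith
    exact_mod_cast this
  have hr4 : n₂ ≤ r := by
    have : (n₂ : ℝ) ≤ r := by linarith
    exact_mod_cast this
  have hr5 : 1 ≤ r := by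
    have : (1 : ℝ) ≤ r := by linarith
    exact_mod_cast this
  have hj' : |(j : ℝ)| ≤ wd μ s r := by
    refine le_trans ?_ (hw1 r hr4)
    have : |(j : ℝ)| ≤ (1 : ℤ) := by exact_mod_cast hj
    simpa using this
  refine (hK i l hil x hx r hr1 hr3 j hj' k₀ hk₀ y hy).trans ?_
  have h5 : EE μ s r ≤ 2 * (L : ℝ) ^ (ε / 4) * EE μ s 1 :=
    (EE_lin h hr5).trans (mul_le_mul_of_nonneg_right hr2 (by linarith))
  have e1 : (L : ℝ) ^ (ε / 4) * (L : ℝ) ^ (ε / 4) = (L : ℝ) ^ (ε / 2) := by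
    rw [← Real.rpow_add hL0]
    congr 1
    ring
  calc (L : ℝ) ^ (ε / 4) * EE μ s r ≤ (L : ℝ) ^ (ε / 4) * (2 * (L : ℝ) ^ (ε / 4) * EE μ s 1) :=
        mul_le_mul_of_nonneg_left h5 (by positivity)
    _ = 2 * EE μ s 1 * ((L : ℝ) ^ (ε / 4) * (L : ℝ) ^ (ε / 4)) := by ring
    _ ≤ (L : ℝ) ^ ε := by rw [e1]; linarith

end

end Pool.Agent.W_7d29a1_C0.K14
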