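import Pool.Agent.W_7d29a1_C0.GwC50
import Pool.Agent.W_7d29a1_C0.Kick14
import Pool.Agent.W_7d29a1_C0.Loc14

/-!
MP_7d29a1_pr, [CURV0] / [C0]: the unit shifts of the ends of a kernel, and the tails, on the good events of `Kick14` and `Loc14`.
(helper50)
-/

set_option autoImplicit false

namespace Pool.Agent.W_7d29a1_C0.GwA50

open Finset MeasureTheory Filter Topology Pool.Agent.W_7d29a1_F Pool.Agent.W_7d29a1_X
open Pool.Agent.W_7d29a1_Z74 (ZJ)
open Pool.Agent.W_7d29a1_H (sl)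
open Pool.Agent.W_7d29a1_HS (In wd)
open Pool.Agent.W_7d29a1_HZ (gp NSp wd')
open Pool.Agent.W_7d29a1_C0.K14 (KU kick14_unit ZJ_row0)
open Pool.Agent.W_7d29a1_C0.Loc14 (Qp LocG loc14)

noncomputable section

variable {μ : Measure ℝ} {s : ℝ} {N : ℕ}

theorem le_of_log {a b κ : ℝ} (ha : 0 < a) (hb : 0 < b) (h : |Real.log a - Real.log b| ≤ κ) : a ≤ Real.exp κ * b := by
  have h1 := (abs_le.1 h).2
  rw [← Real.exp_log ha, ← Real.exp_log hb, ← Real.exp_add]
  exact Real.exp_le_exp.2 (by linarith)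

theorem ge_of_log {a b κ : ℝ} (ha : 0 < a) (hb : 0 < b) (h : |Real.log a - Real.log b| ≤ κ) : b ≤ Real.exp κ * a := by
  rw [abs_sub_comm] at h
  exact le_of_log hb ha h

/-- **THE SHIFT OF THE START.** -/
theorem kn_row {η : Env} {δ ε : ℝ} (hK : KU μ s N δ ε η) {c n : ℕ} (hc : c + n ≤ N) (hn : (N : ℝ) ^ ε ≤ n) (hn1 : 1 ≤ n)
    {z v y : ℤ} (hz : |z| ≤ 2 * N) (hv : |v| ≤ 1) (hy : |((y - z : ℤ) : ℝ) - sl μ s * n| ≤ (n : ℝ) ^ δ * wd μ s n)
    (h0 : 0 ≤ y - z) (h1 : y - z ≤ n) : kn μ s η c (z + v) n y ≤ Real.exp ((N : ℝ) ^ ε) * kn μ s η c z n y := by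
  have hp : 0 < kn μ s η c z n y := kn_pos η (by omega) (by omega)
  by_cases h2 : z + v ≤ y ∧ y ≤ z + v + n
  · have hq : 0 < kn μ s η c (z + v) n y := kn_pos η h2.1 h2.2
    have h3 := hK c n hc hn z hz v hv 0 hn1 (y - z) hy
    rw [ZJ_row0, Nat.sub_zero] at h3
    have e : kn μ s η c (z + v) n y = W μ s η ((((c : ℤ), z) : Pt).1, (((c : ℤ), z) : Pt).2 + v) n (y - z - v) := by
      unfold kn
      show W μ s η ((c : ℤ), z + v) n (y - (z + v)) = W μ s η ((c : ℤ), z + v) n (y - z - v)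
      congr 1
      ring
    rw [← e] at h3
    exact le_of_log hq hp h3
  · rw [kn_zero η h2]
    exact mul_nonneg (Real.exp_pos _).le hp.le

theorem kn_zero_len (η : Env) (c : ℕ) (w y : ℤ) : kn μ s η c w 0 y = if y = w then 1 else 0 := by
  unfold kn W WR
  rw [Pool.Agent.W_7d29a1_X.Zr_zero89]
  by_cases h : y = w
  · rw [if_pos h, if_pos (by omega), h]
    simp
  · rw [if_neg h, if_neg (by omega), mul_zero]

theorem kn_succ (η : Env) (c : ℕ) (x : ℤ) (m : ℕ) (y : ℤ) : kn μ s η c x (m + 1) y =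
    Real.exp (η (((c + m + 1 : ℕ) : ℤ), y)) * Real.exp (-lam μ s) *
      (kn μ s η c x m y + Real.exp s * kn μ s η c x m (y - 1)) := by
  unfold kn
  rw [W_succ]
  have e1 : ((((c : ℤ), x) : Pt).1 + ((m : ℤ) + 1), (((c : ℤ), x) : Pt).2 + (y - x)) = (((c + m + 1 : ℕ) : ℤ), y) := by
    refine Prod.ext ?_ ?_
    · show (c : ℤ) + ((m : ℤ) + 1) = ((c + m + 1 : ℕ) : ℤ)
      push_cast
      ring
    · show x + (y - x) = y
      ring
  rw [e1, show y - 1 - x = y - x - 1 by ring]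

/-- The jump one row before the end of the window. -/
theorem zj_last (η : Env) (c : ℕ) (x : ℤ) (m : ℕ) (v y : ℤ) :
    zj μ s η c x m 1 v y * Real.exp (η (((c + m + 1 : ℕ) : ℤ), y - v)) =
      kn μ s η c x (m + 1) (y - v) * Real.exp (η (((c + m + 1 : ℕ) : ℤ), y)) := by
  obtain ⟨I, hI⟩ : ∃ I : Finset ℤ, I = (Icc x (x + m)) ∪ {y - v, y - v - 1} := ⟨_, rfl⟩
  have h1 : ∀ z : ℤ, x ≤ z → z ≤ x + m → z ∈ I := fun z h1 h2 => by
    rw [hI, mem_union, mem_Icc]
    exact Or.inl ⟨h1, h2⟩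
  have h2 : y - v ∈ I := by
    rw [hI]
    simp
  have h3 : y - v - 1 ∈ I := by
    rw [hI]
    simp
  have e1 : zj μ s η c x m 1 v y = Real.exp (η (((c + m + 1 : ℕ) : ℤ), y)) * Real.exp (-lam μ s) *
      (kn μ s η c x m (y - v) + Real.exp s * kn μ s η c x m (y - v - 1)) := by
    rw [zj_eq η h1]
    have e2 : ∀ z ∈ I, kn μ s η c x m z * kn μ s η (c + m) (z + v) 1 y =
        (if z = y - v then Real.exp (η (((c + m + 1 : ℕ) : ℤ), y)) * Real.exp (-lam μ s) * kn μ s η c x m (y - v) else 0) +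
        (if z = y - v - 1 then Real.exp (η (((c + m + 1 : ℕ) : ℤ), y)) * Real.exp (-lam μ s) *
          (Real.exp s * kn μ s η c x m (y - v - 1)) else 0) := by
      intro z _
      have e3 := kn_succ (μ := μ) (s := s) η (c + m) (z + v) 0 y
      rw [zero_add, Nat.add_zero] at e3
      rw [e3, kn_zero_len, kn_zero_len]
      by_cases g1 : z = y - v
      · rw [if_pos (by omega), if_neg (by omega), if_pos g1, if_neg (by omega), g1]
        ring
      · by_cases g2 : z = y - v - 1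
        · rw [if_neg (by omega), if_pos (by omega), if_neg g1, if_pos g2, g2]
          ring
        · rw [if_neg (by omega), if_neg (by omega), if_neg g1, if_neg g2]
          ring
    rw [sum_congr rfl e2, sum_add_distrib, sum_ite_eq' I (y - v), sum_ite_eq' I (y - v - 1), if_pos h2, if_pos h3]
    ring
  rw [e1, kn_succ]
  ring

/-- **THE SHIFT OF THE END.** -/
theorem kn_col {η : Env} {δ ε : ℝ} (hK : KU μ s N δ ε η)
    (hb : ∀ i : ℕ, i ≤ N → ∀ y : ℤ, |y| ≤ 4 * N → |η ((i : ℤ), y)| ≤ (N : ℝ) ^ ε) {c m : ℕ} (hc : c + m ≤ N)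
    (hm : (N : ℝ) ^ ε ≤ m) (hm1 : 1 ≤ m) {x v z : ℤ} (hx : |x| ≤ 2 * N) (hv : |v| ≤ 1)
    (hz : |((z + v - x : ℤ) : ℝ) - sl μ s * m| ≤ (m : ℝ) ^ δ * wd μ s m) (h0 : 0 ≤ z + v - x) (h1 : z + v - x ≤ m) :
    kn μ s η c x m z ≤ Real.exp (3 * (N : ℝ) ^ ε) * kn μ s η c x m (z + v) := by
  have hp : 0 < kn μ s η c x m (z + v) := kn_pos η (by omega) (by omega)
  by_cases h2 : x ≤ z ∧ z ≤ x + m
  · have hq : 0 < kn μ s η c x m z := kn_pos η h2.1 h2.2
    obtain ⟨k, rfl⟩ : ∃ k, m = k + 1 := ⟨m - 1, by omega⟩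
    have h3 := hK c (k + 1) hc hm x hx v hv k (Nat.lt_succ_self k) (z + v - x) hz
    rw [Nat.add_sub_cancel_left] at h3
    have h4 := zj_last (μ := μ) (s := s) η c x k v (z + v)
    rw [show z + v - v = z by ring] at h4
    have e1 : zj μ s η c x k 1 v (z + v) = ZJ μ s η ((c : ℤ), x) k 1 v (z + v - x) := rfl
    have e2 : kn μ s η c x (k + 1) (z + v) = W μ s η ((c : ℤ), x) (k + 1) (z + v - x) := rfl
    rw [← e1, ← e2] at h3
    have hN1 : (c + k + 1 : ℕ) ≤ N := by omega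
    rw [abs_le] at hx hv
    have b1 := hb (c + k + 1) hN1 z (by rw [abs_le]; omega)
    have b2 := hb (c + k + 1) hN1 (z + v) (by rw [abs_le]; omega)
    rw [abs_le] at b1 b2
    have hj : 0 < zj μ s η c x k 1 v (z + v) := by
      have g1 : 0 < zj μ s η c x k 1 v (z + v) * Real.exp (η (((c + k + 1 : ℕ) : ℤ), z)) := by
        rw [h4]
        exact mul_pos hq (Real.exp_pos _)
      exact pos_of_mul_pos_left g1 (Real.exp_pos _).le
    have h5 := le_of_log hj hp h3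
    have h6 : kn μ s η c x (k + 1) z = zj μ s η c x k 1 v (z + v) *
        Real.exp (η (((c + k + 1 : ℕ) : ℤ), z) - η (((c + k + 1 : ℕ) : ℤ), z + v)) := by
      rw [Real.exp_sub, ← mul_div_assoc, h4, mul_div_assoc, div_self (Real.exp_pos _).ne', mul_one]
    have h7 : Real.exp (η (((c + k + 1 : ℕ) : ℤ), z) - η (((c + k + 1 : ℕ) : ℤ), z + v)) ≤ Real.exp (2 * (N : ℝ) ^ ε) :=
      Real.exp_le_exp.2 (by linarith)
    rw [h6]
    calc zj μ s η c x k 1 v (z + v) * Real.exp (η (((c + k + 1 : ℕ) : ℤ), z) - η (((c + k + 1 : ℕ) : ℤ), z + v))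
        ≤ (Real.exp ((N : ℝ) ^ ε) * kn μ s η c x (k + 1) (z + v)) * Real.exp (2 * (N : ℝ) ^ ε) :=
          mul_le_mul h5 h7 (Real.exp_pos _).le (mul_nonneg (Real.exp_pos _).le hp.le)
      _ = Real.exp ((N : ℝ) ^ ε) * Real.exp (2 * (N : ℝ) ^ ε) * kn μ s η c x (k + 1) (z + v) := by ring
      _ = Real.exp (3 * (N : ℝ) ^ ε) * kn μ s η c x (k + 1) (z + v) := by
          rw [← Real.exp_add]
          congr 2
          ring
  · rw [kn_zero η h2]
    exact mul_nonneg (Real.exp_pos _).le hp.le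

/-! ### The tails -/

/-- The law of the position at the row `c + m`. -/
theorem kn_law {I : Finset ℤ} (η : Env) {c : ℕ} {x : ℤ} {m : ℕ} (hI : ∀ z : ℤ, x ≤ z → z ≤ x + m → z ∈ I) (n : ℕ) (y : ℤ)
    (φ : ℤ → ℝ) :
    ∑ z ∈ I, φ z * (kn μ s η c x m z * kn μ s η (c + m) z n y) = ∑ T ∈ (range (m + n)).powerset,
      (if x + pos T (m + n) = y then pw μ s η c x (m + n) T else 0) * φ (x + pos T m) := by
  rw [sum_cat]
  have e1 : ∀ B ∈ (range m).powerset, ∑ U ∈ (range n).powerset,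
      (if x + pos (cat m B U) (m + n) = y then pw μ s η c x (m + n) (cat m B U) else 0) * φ (x + pos (cat m B U) m) =
      pw μ s η c x m B * (φ (x + pos B m) * kn μ s η (c + m) (x + pos B m) n y) := by
    intro B hB
    rw [mem_powerset] at hB
    rw [kn_eq, mul_sum, mul_sum]
    refine sum_congr rfl fun U _ => ?_
    rw [pos_cat_ge hB, pos_cat_le le_rfl, pw_cat η c x hB, ← add_assoc]
    split_ifs
    · ring
    · ring
  rw [sum_congr rfl e1]
  have e2 := sum_pos (I := I) (x := x) (m := m) hI fun z B => pw μ s η c x m B * (φ z * kn μ s η (c + m) z n y)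
  rw [e2]
  refine sum_congr rfl fun z _ => ?_
  rw [kn_eq η c x m z, ← mul_assoc, mul_comm (φ z), mul_assoc, sum_mul]
  refine sum_congr rfl fun B _ => ?_
  split_ifs
  · ring
  · ring

/-- The kernels of the environment whose rows behind `c + m` are shifted. -/
theorem kn_shj (η : Env) (c : ℕ) (x : ℤ) (m n : ℕ) (v z y : ℤ) :
    kn μ s (Pool.Agent.W_7d29a1_HZ.Z74.shj ((c + m : ℕ) : ℤ) v η) c x m z = kn μ s η c x m z ∧
    kn μ s (Pool.Agent.W_7d29a1_HZ.Z74.shj ((c + m : ℕ) : ℤ) v η) (c + m) z n (y - v) = kn μ s η (c + m) (z + v) n y := by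
  unfold kn
  constructor
  · exact Pool.Agent.W_7d29a1_HZ.Z74.W_shj_lt s η v _ _ _ (by show (c : ℤ) + m ≤ ((c + m : ℕ) : ℤ); push_cast; exact le_rfl)
  · rw [Pool.Agent.W_7d29a1_HZ.Z74.W_shj_ge s η v _ _ _ (by show ((c + m : ℕ) : ℤ) ≤ ((c + m : ℕ) : ℤ); exact le_rfl)]
    show W μ s η (((c + m : ℕ) : ℤ), z + v) n (y - v - z) = W μ s η (((c + m : ℕ) : ℤ), z + v) n (y - (z + v))
    congr 1
    ring

open Classical in
/-- **THE TAIL OF THE POSITION AT THE KICKED ROW**, paths with the jump. -/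
theorem tail_zj {I : Finset ℤ} (η : Env) {c : ℕ} {x : ℤ} {m : ℕ} (hI : ∀ z : ℤ, x ≤ z → z ≤ x + m → z ∈ I) {n : ℕ} {v y : ℤ}
    {ε t : ℝ} {G : ℤ → Prop}
    (hG : ∀ T : Finset ℕ, x + pos T (m + n) = y - v → NSp μ s (m + n) (m + n) ε T → G (x + pos T m))
    (hQ : Qp μ s (sh ((c : ℤ), x) (Pool.Agent.W_7d29a1_HZ.Z74.shj ((c + m : ℕ) : ℤ) v η)) (m + n) ε (y - v - x) ≤ t) :
    ∑ z ∈ I, (if G z then 0 else kn μ s η c x m z * kn μ s η (c + m) (z + v) n y) ≤ t * zj μ s η c x m n v y := by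
  obtain ⟨ζ, hζ⟩ : ∃ ζ, ζ = Pool.Agent.W_7d29a1_HZ.Z74.shj ((c + m : ℕ) : ℤ) v η := ⟨_, rfl⟩
  have e0 : zj μ s η c x m n v y = kn μ s ζ c x (m + n) (y - v) := by
    rw [zj_eq η hI, kn_add ζ hI]
    refine sum_congr rfl fun z _ => ?_
    obtain ⟨h1, h2⟩ := kn_shj (μ := μ) (s := s) η c x m n v z y
    rw [hζ, h1, h2]
  have e1 : ∑ z ∈ I, (if G z then 0 else kn μ s η c x m z * kn μ s η (c + m) (z + v) n y) =
      ∑ z ∈ I, (if G z then 0 else 1) * (kn μ s ζ c x m z * kn μ s ζ (c + m) z n (y - v)) := by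
    refine sum_congr rfl fun z _ => ?_
    obtain ⟨h1, h2⟩ := kn_shj (μ := μ) (s := s) η c x m n v z y
    rw [hζ, h1, h2]
    split_ifs
    · ring
    · ring
  rw [e0, e1, kn_law ζ hI n (y - v) fun z => if G z then 0 else 1]
  by_cases hp : x ≤ y - v ∧ y - v ≤ x + ((m + n : ℕ) : ℤ)
  · have h0 : 0 < kn μ s ζ c x (m + n) (y - v) := kn_pos ζ hp.1 hp.2
    rw [← hζ] at hQ
    refine le_trans ?_ (mul_le_mul_of_nonneg_right hQ h0.le)
    unfold Qp
    rw [sum_mul]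
    refine sum_le_sum fun T _ => ?_
    rw [gp_pw]
    have hw := (pw_pos (μ := μ) (s := s) ζ c x (m + n) T).le
    by_cases g1 : x + pos T (m + n) = y - v
    · rw [if_pos g1, if_pos g1, mul_right_comm, div_mul_cancel₀ _ h0.ne']
      refine mul_le_mul_of_nonneg_left ?_ hw
      by_cases g2 : NSp μ s (m + n) (m + n) ε T
      · rw [if_pos (hG T g1 g2), if_pos g2]
      · rw [if_neg g2]
        split_ifs <;> norm_num
    · rw [if_neg g1, if_neg g1]
      simp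
  · have h0 : kn μ s ζ c x (m + n) (y - v) = 0 := kn_zero ζ hp
    rw [h0, mul_zero]
    refine le_of_eq (sum_eq_zero fun T hT => ?_)
    rw [mem_powerset] at hT
    have h2 := pos_nonneg T (m + n)
    have h3 := pos_le T (m + n)
    rw [if_neg (by omega), zero_mul]

end

end Pool.Agent.W_7d29a1_C0.GwA50
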