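import Pool.Agent.W_7d29a1_C0.GwD50
import Pool.Agent.W_7d29a1_C0.LocM18

/-!
MP_7d29a1_pr, [CURV0] / [C0]: **THE HALF RESPONSE `gj` OF A WINDOW, COMPARED BETWEEN TWO PATHS.** (helper50)

`gw50`: for all exponents `ε, κ, δ > 0` there is a cone `δ₁` such that outside of an event of probability `exp (- N ^ c')`, for all full
families of paths, all the windows `[c, c + m + n)` with the kicked row `j = c + m`, `N ^ κ ≤ m, n`, all clipping levels `B`, and all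
paths `S`, `S'` whose displacements over the window are in the cone, the clipped half responses `gw` of the window satisfy
`|gw S - gw S'| ≤ exp (N ^ ε) * K S S' + exp (- N ^ c')`, where `K S S'` is the probability that two replicas of the window, with the
ends of `S` and of `S'`, have no common position in `[c, j]` or none in `[j, c + m + n]` (`GwW`). For the windows of the model see `GwJ50`.
To be used with the trivial bound `|gj S - gj S'| ≤ B`.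
-/

set_option autoImplicit false

namespace Pool.Agent.W_7d29a1_C0.GwA50

open Finset MeasureTheory Filter Topology Pool.Agent.W_7d29a1_F Pool.Agent.W_7d29a1_X
open Pool.Agent.W_7d29a1_Z74 (ZJ)
open Pool.Agent.W_7d29a1_H (sl Dirs vA)
open Pool.Agent.W_7d29a1_HS (In wd)
open Pool.Agent.W_7d29a1_HZ (gp NSp wd')
open Pool.Agent.W_7d29a1_HZ.Z74 (ev_pow ev_pow_le ev_exp shj mp_shj)
open Pool.Agent.W_7d29a1_C0.K14 (KU kick14_unit ZJ_row0 ZJ_pos)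
open Pool.Agent.W_7d29a1_C0.Loc14 (Qp LocG loc14)
open Pool.W7d29a1.C0.VT31 (cE)
open Pool.Agent.W_7d29a1_C0.Mod92
open Pool.Agent.W_7d29a1_C0.Blk18
open Pool.Agent.W_7d29a1_C0.LocM18 (Cn)
open Pool.Agent.W_7d29a1_C0.Swap57 (cE2 NM)
open scoped ENNReal

noncomputable section

variable {μ : Measure ℝ} {s : ℝ} {N : ℕ}

/-- The weights of the sites of the box are not large. -/
def SB (N : ℕ) (ε : ℝ) (η : Env) : Prop := ∀ i : ℕ, i ≤ N → ∀ y : ℤ, |y| ≤ 4 * N → |η ((i : ℤ), y)| ≤ (N : ℝ) ^ ε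

/-- The good event. -/
structure Gd (μ : Measure ℝ) (s : ℝ) (N : ℕ) (κ δ ε δ₂ ε₂ δL εL cL : ℝ) (η : Env) : Prop where
  ku : KU μ s N δ ε η
  ku2 : KU μ s N δ₂ ε₂ η
  sb : SB N ε η
  loc : ∀ k : ℕ, k ≤ N → ∀ v : ℤ, (v = 1 ∨ v = -1) → LocG μ s N κ δL εL cL (shj (k : ℤ) v η)

/-- The conditions on the numbers. -/
structure Nu (μ : Measure ℝ) (s : ℝ) (N : ℕ) (κ δ ε δ₂ ε₂ δL εL δ₁ : ℝ) : Prop where
  one : 1 ≤ N
  e1 : ∀ m : ℕ, (N : ℝ) ^ κ ≤ m → 1 ≤ m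
  e2 : ∀ m : ℕ, (N : ℝ) ^ κ ≤ m → (N : ℝ) ^ ε ≤ m
  e3 : ∀ m : ℕ, (N : ℝ) ^ κ ≤ m → (N : ℝ) ^ ε₂ ≤ m
  e4 : ∀ m : ℕ, (N : ℝ) ^ κ ≤ m → ∀ l : ℕ, l ≤ N → (l : ℝ) ^ εL * wd' μ s m + 1 ≤ (m : ℝ) ^ δ * wd μ s m
  e5 : ∀ m : ℕ, (N : ℝ) ^ κ ≤ m → ∀ y : ℤ, |(y : ℝ) - sl μ s * m| ≤ (m : ℝ) ^ δ * wd μ s m → 0 ≤ y ∧ y ≤ m
  e6 : ∀ m : ℕ, (N : ℝ) ^ κ ≤ m → (m : ℝ) ^ δ₁ * wd' μ s m + 1 ≤ (m : ℝ) ^ δ₂ * wd μ s m
  e7 : ∀ m : ℕ, (N : ℝ) ^ κ ≤ m → (m : ℝ) ^ δ₁ * wd' μ s m + 1 ≤ (m : ℝ) ^ δL * wd' μ s m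
  e8 : ∀ m : ℕ, (N : ℝ) ^ κ ≤ m → (m : ℝ) ^ δ₁ * wd' μ s m + 1 ≤ (m : ℝ) ^ δ * wd μ s m

open Classical in
/-- **ONE WINDOW.** -/
theorem lk50 {Q : Finset (Finset ℕ)} [Nonempty (Px Q)] (hQ : Full N Q) {κ δ ε δ₂ ε₂ δL εL cL δ₁ : ℝ} {η : Env}
    (hη : Gd μ s N κ δ ε δ₂ ε₂ δL εL cL η) (hN : Nu μ s N κ δ ε δ₂ ε₂ δL εL δ₁) {c m n : ℕ} (hd : c + (m + n) ≤ N)
    (hm : (N : ℝ) ^ κ ≤ m) (hn : (N : ℝ) ^ κ ≤ n) {v : ℤ} (hv : v = 1 ∨ v = -1) (S S' : Px Q)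
    (hS : Cn μ s δ₁ c (c + (m + n)) S) (hS' : Cn μ s δ₁ c (c + (m + n)) S') :
    |lk μ s η c (m + n) m v (ps S c) (ps S (c + (m + n))) - lk μ s η c (m + n) m v (ps S' c) (ps S' (c + (m + n)))| ≤
      Real.exp ((N : ℝ) ^ ε₂) * (2 * Real.exp (3 * (N : ℝ) ^ ε) *
        cE2 (lw μ s η N Q) (pJ c (c + (m + n))) (NM c (c + m) (c + m) (c + (m + n))) S S' +
        4 * (Real.exp (-(N : ℝ) ^ cL) * Real.exp ((N : ℝ) ^ ε₂))) := by
  obtain ⟨I, hI⟩ : ∃ I : Finset ℤ, I = Icc (0 : ℤ) (2 * N) := ⟨_, rfl⟩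
  have hm1 := hN.e1 m hm
  have hn1 := hN.e1 n hn
  have hmn : (N : ℝ) ^ κ ≤ ((m + n : ℕ) : ℝ) := hm.trans (by exact_mod_cast Nat.le_add_right m n)
  have hmn1 : 1 ≤ m + n := by omega
  have hvabs : |v| ≤ 1 := by rcases hv with h | h <;> rw [h] <;> norm_num
  have hvr : |(v : ℝ)| ≤ 1 := by rcases hv with h | h <;> rw [h] <;> norm_num
  have hsub : c + (m + n) - c = m + n := Nat.add_sub_cancel_left _ _
  -- one path
  have key : ∀ S : Px Q, Cn μ s δ₁ c (c + (m + n)) S → ∃ G : ℤ → Prop,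
      (∀ z, G z → kn μ s η (c + m) (z + v) n (ps S (c + (m + n))) ≤
        Real.exp (3 * (N : ℝ) ^ ε) * kn μ s η (c + m) z n (ps S (c + (m + n)))) ∧
      (∀ z, G z → kn μ s η c (ps S c) m z ≤ Real.exp (3 * (N : ℝ) ^ ε) * kn μ s η c (ps S c) m (z + v)) ∧
      (∑ z ∈ I, (if G z then 0 else kn μ s η c (ps S c) m z * kn μ s η (c + m) (z + v) n (ps S (c + (m + n)))) ≤
        Real.exp (-(N : ℝ) ^ cL) * Real.exp ((N : ℝ) ^ ε₂) * kn μ s η c (ps S c) (m + n) (ps S (c + (m + n)))) ∧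
      0 < zj μ s η c (ps S c) m n v (ps S (c + (m + n))) ∧
      |lk μ s η c (m + n) m v (ps S c) (ps S (c + (m + n)))| ≤ (N : ℝ) ^ ε₂ ∧
      (∀ z : ℤ, ps S c ≤ z → z ≤ ps S c + m → z ∈ I) := by
    intro S hS
    obtain ⟨x, hx⟩ : ∃ x, x = ps S c := ⟨_, rfl⟩
    obtain ⟨y, hy⟩ : ∃ y, y = ps S (c + (m + n)) := ⟨_, rfl⟩
    unfold Cn at hS
    rw [hsub, ← hx, ← hy] at hS
    have hx0 : 0 ≤ x := by rw [hx]; exact ps_nonneg _ _
    have hxc : x ≤ c := by rw [hx]; exact ps_le _ _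
    have hr := ps_rng (c := c) (l := m + n) S
    rw [← hx, ← hy] at hr
    rw [← hx, ← hy]
    have hy2 : |((y - x : ℤ) : ℝ) - sl μ s * ((m + n : ℕ) : ℝ)| ≤ ((m + n : ℕ) : ℝ) ^ δ₂ * wd μ s (m + n) := by
      have := hN.e6 (m + n) hmn
      linarith
    -- the response
    have hlk : |lk μ s η c (m + n) m v x y| ≤ (N : ℝ) ^ ε₂ := by
      have h1 := hη.ku2 c (m + n) hd (hN.e3 _ hmn) x (by rw [abs_le]; omega) v hvabs m (by omega) (y - x) hy2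
      unfold lk
      exact h1
    -- the end of the kicked path
    have hyv : 0 ≤ y - x - v ∧ y - x - v ≤ ((m + n : ℕ) : ℤ) := by
      refine hN.e5 (m + n) hmn (y - x - v) ?_
      have h1 := hN.e8 (m + n) hmn
      have h2 : (((y - x - v : ℤ) : ℝ)) - sl μ s * ((m + n : ℕ) : ℝ) =
          (((y - x : ℤ) : ℝ) - sl μ s * ((m + n : ℕ) : ℝ)) - v := by
        push_cast
        ring
      rw [h2]
      refine (abs_sub _ _).trans ?_
      linarith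
    have hzj : 0 < zj μ s η c x m n v y := ZJ_pos η ((c : ℤ), x) m n hyv.1 hyv.2
    refine ⟨fun z => (0 ≤ z ∧ z ≤ N) ∧ |((z - x : ℤ) : ℝ) - sl μ s * m| ≤ (m : ℝ) ^ δ * wd μ s m - 1 ∧
      |((y - z : ℤ) : ℝ) - sl μ s * n| ≤ (n : ℝ) ^ δ * wd μ s n, ?_, ?_, ?_, hzj, hlk, ?_⟩
    · rintro z ⟨hz0, -, hz2⟩
      obtain ⟨r1, r2⟩ := hN.e5 n hn (y - z) hz2
      have h1 := kn_row hη.ku (c := c + m) (n := n) (by omega) (hN.e2 n hn) hn1 (z := z) (v := v) (y := y)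
        (by rw [abs_le]; omega) hvabs hz2 r1 r2
      refine h1.trans (mul_le_mul_of_nonneg_right (Real.exp_le_exp.2 ?_) (kn_nonneg _ _ _ _ _))
      have : 0 ≤ (N : ℝ) ^ ε := Real.rpow_nonneg (Nat.cast_nonneg _) _
      linarith
    · rintro z ⟨hz0, hz1, -⟩
      have h2 : |((z + v - x : ℤ) : ℝ) - sl μ s * m| ≤ (m : ℝ) ^ δ * wd μ s m := by
        have h3 : ((z + v - x : ℤ) : ℝ) - sl μ s * m = (((z - x : ℤ) : ℝ) - sl μ s * m) + v := by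
          push_cast
          ring
        rw [h3]
        refine (abs_add_le _ _).trans ?_
        linarith
      obtain ⟨r1, r2⟩ := hN.e5 m hm (z + v - x) h2
      exact kn_col hη.ku hη.sb (c := c) (m := m) (by omega) (hN.e2 m hm) hm1 (x := x) (by rw [abs_le]; omega) hvabs h2 r1 r2
    · have hI' : ∀ z : ℤ, x ≤ z → z ≤ x + m → z ∈ I := fun z h1 h2 => by
        rw [hI, mem_Icc]
        omega
      have h1 := hη.loc (c + m) (by omega) v hv c (by omega) x (by rw [abs_le]; omega) (m + n) hmn (by omega)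
      have h2 := h1.1 (y - v - x) (by omega) (by omega) (by
        have h3 := hN.e7 (m + n) hmn
        have h4 : (((y - v - x : ℤ) : ℝ)) - sl μ s * ((m + n : ℕ) : ℝ) =
            (((y - x : ℤ) : ℝ) - sl μ s * ((m + n : ℕ) : ℝ)) - v := by
          push_cast
          ring
        rw [h4]
        refine (abs_sub _ _).trans ?_
        linarith)
      have h5 := tail_zj (μ := μ) (s := s) η hI' (n := n) (v := v) (y := y) (ε := εL) (t := Real.exp (-(N : ℝ) ^ cL))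
        (G := fun z => (0 ≤ z ∧ z ≤ N) ∧ |((z - x : ℤ) : ℝ) - sl μ s * m| ≤ (m : ℝ) ^ δ * wd μ s m - 1 ∧
          |((y - z : ℤ) : ℝ) - sl μ s * n| ≤ (n : ℝ) ^ δ * wd μ s n) (fun T hT hNS => ?_) h2
      · refine h5.trans ?_
        have h6 : zj μ s η c x m n v y ≤ Real.exp ((N : ℝ) ^ ε₂) * kn μ s η c x (m + n) y := by
          refine le_of_log hzj (kn_pos η hr.1 hr.2) ?_
          rw [← lk_eq]
          exact hlk
        calc Real.exp (-(N : ℝ) ^ cL) * zj μ s η c x m n v y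
            ≤ Real.exp (-(N : ℝ) ^ cL) * (Real.exp ((N : ℝ) ^ ε₂) * kn μ s η c x (m + n) y) :=
              mul_le_mul_of_nonneg_left h6 (Real.exp_pos _).le
          _ = _ := by ring
      · have t0 := pos_nonneg T m
        have t1 := pos_le T m
        refine ⟨⟨by omega, by omega⟩, ?_, ?_⟩
        · have h6 := hNS 0 m hm1 (by omega)
          rw [zero_add, show pos T 0 = 0 by simp [pos], sub_zero] at h6
          have h7 := hN.e4 m hm (m + n) (by omega)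
          rw [show x + pos T m - x = pos T m by ring]
          linarith
        · have h6 := hNS m n hn1 le_rfl
          have h7 := hN.e4 n hn (m + n) (by omega)
          have h8 : ((y - (x + pos T m) : ℤ) : ℝ) - sl μ s * n =
              (((pos T (m + n) - pos T m : ℤ) : ℝ) - sl μ s * n) + v := by
            have h9 : y - (x + pos T m) = pos T (m + n) - pos T m + v := by omega
            rw [h9]
            push_cast
            ring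
          rw [h8]
          refine (abs_add_le _ _).trans ?_
          linarith
    · intro z h1 h2
      rw [hI, mem_Icc]
      omega
  obtain ⟨G, a1, a2, a3, a4, a5, a6⟩ := key S hS
  obtain ⟨G', b1, b2, b3, b4, b5, b6⟩ := key S' hS'
  exact lk_sub_le hQ η hd S S' a6 b6 (Real.exp_pos _).le a1 a2 a3 b1 b2 b3 a4 b4 a5 b5

/-! ### The numbers -/

theorem ev_of {κ : ℝ} (hκ : 0 < κ) {P : ℕ → Prop} (h : ∀ᶠ m : ℕ in atTop, P m) :
    ∀ᶠ N : ℕ in atTop, ∀ m : ℕ, (N : ℝ) ^ κ ≤ m → P m := by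
  obtain ⟨m₀, hm₀⟩ := h.exists_forall_of_atTop
  filter_upwards [ev_pow hκ (m₀ : ℝ)] with N hN m hm
  refine hm₀ m ?_
  exact_mod_cast hN.trans hm

section prob

variable [IsProbabilityMeasure μ] {c C : ℝ} {n₀ : ℕ}

theorem ev_wd (h : In μ s c C n₀) {α β : ℝ} (hα : 0 ≤ α) (hαβ : α < β) :
    ∀ᶠ m : ℕ in atTop, (m : ℝ) ^ α * wd' μ s m + 1 ≤ (m : ℝ) ^ β * wd μ s m := by
  have h1 := (Pool.Agent.W_7d29a1_HS.wd_tendsto h).eventually_ge_atTop 1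
  filter_upwards [h1, ev_pow_le hαβ (K := 2) one_pos, eventually_ge_atTop 1] with m h1 h2 h3
  have h4 : (1 : ℝ) ≤ (m : ℝ) ^ α := Real.one_le_rpow (by exact_mod_cast h3) hα
  have h5 : wd' μ s m = wd μ s m := max_eq_right h1
  rw [h5]
  rw [one_mul] at h2
  calc (m : ℝ) ^ α * wd μ s m + 1 ≤ 2 * (m : ℝ) ^ α * wd μ s m := by nlinarith
    _ ≤ (m : ℝ) ^ β * wd μ s m := mul_le_mul_of_nonneg_right h2 (by linarith)

theorem ev_wd' (h : In μ s c C n₀) {α β : ℝ} (hα : 0 ≤ α) (hαβ : α < β) :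
    ∀ᶠ m : ℕ in atTop, (m : ℝ) ^ α * wd' μ s m + 1 ≤ (m : ℝ) ^ β * wd' μ s m := by
  filter_upwards [ev_wd h hα hαβ] with m hm
  refine hm.trans (mul_le_mul_of_nonneg_left (le_max_right _ _) (Real.rpow_nonneg (Nat.cast_nonneg _) _))

/-- The cone is in the range. -/
theorem cone_rng (h : In μ s c C n₀) : ∃ a : ℝ, 0 < a ∧ ∀ δ : ℝ, δ ≤ a → ∀ᶠ m : ℕ in atTop, ∀ y : ℤ,
    |(y : ℝ) - sl μ s * m| ≤ (m : ℝ) ^ δ * wd μ s m → 0 ≤ y ∧ y ≤ m := by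
  obtain ⟨H, δD, hD⟩ := h.dir
  obtain ⟨K, a, hK, ha, -, hv⟩ := Pool.Agent.W_7d29a1_HZ.Z74.vA_neg h
  refine ⟨a / 2, by positivity, fun δ hδ => ?_⟩
  filter_upwards [ev_pow (show 0 < a / 2 by positivity) (K / δD), eventually_ge_atTop 1] with m h1 h2 y hy
  have hm0 : (0 : ℝ) < m := by exact_mod_cast h2
  have hm1 : (1 : ℝ) ≤ m := by exact_mod_cast h2
  have hrng : |(y : ℝ) - sl μ s * m| ≤ δD * m → 0 ≤ y ∧ y ≤ m := by
    intro g
    rw [abs_le] at g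
    have g2 := mul_le_mul_of_nonneg_right (hD.lo s (Set.mem_singleton s)) hm0.le
    have g3 := mul_le_mul_of_nonneg_right (hD.hi s (Set.mem_singleton s)) hm0.le
    constructor
    · have : (0 : ℝ) ≤ y := by linarith [g.1]
      exact_mod_cast this
    · have : (y : ℝ) ≤ ((m : ℤ) : ℝ) := by
        push_cast
        linarith [g.2]
      exact_mod_cast this
  refine hrng (hy.trans ?_)
  have h3 := hv m h2
  have h4 : (m : ℝ) ^ δ ≤ (m : ℝ) ^ (a / 2) := Real.rpow_le_rpow_of_exponent_le hm1 hδ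
  have h5 : 0 ≤ vA 1 μ s m := (h.vA_pos h2).le
  have h6 : K ≤ δD * (m : ℝ) ^ (a / 2) := by
    rw [div_le_iff₀ hD.δ0] at h1
    linarith
  have h7 : (m : ℝ) ^ (a / 2) * (m : ℝ) ^ (-a) * (m : ℝ) ^ (a / 2) = 1 := by
    rw [← Real.rpow_add hm0, ← Real.rpow_add hm0]
    have : a / 2 + -a + a / 2 = 0 := by ring
    rw [this, Real.rpow_zero]
  have h8 : (m : ℝ) ^ (a / 2) * (K * (m : ℝ) ^ (-a)) ≤ δD := by
    have p1 : 0 < (m : ℝ) ^ (a / 2) := Real.rpow_pos_of_pos hm0 _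
    have p2 : 0 < (m : ℝ) ^ (-a) := Real.rpow_pos_of_pos hm0 _
    calc (m : ℝ) ^ (a / 2) * (K * (m : ℝ) ^ (-a)) = K * ((m : ℝ) ^ (a / 2) * (m : ℝ) ^ (-a)) := by ring
      _ ≤ (δD * (m : ℝ) ^ (a / 2)) * ((m : ℝ) ^ (a / 2) * (m : ℝ) ^ (-a)) := mul_le_mul_of_nonneg_right h6 (by positivity)
      _ = δD * ((m : ℝ) ^ (a / 2) * (m : ℝ) ^ (-a) * (m : ℝ) ^ (a / 2)) := by ring
      _ = δD := by rw [h7, mul_one]
  unfold wd
  calc (m : ℝ) ^ δ * (m * vA 1 μ s m) = m * ((m : ℝ) ^ δ * vA 1 μ s m) := by ring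
    _ ≤ m * ((m : ℝ) ^ (a / 2) * (K * (m : ℝ) ^ (-a))) :=
        mul_le_mul_of_nonneg_left (mul_le_mul h4 h3 h5 (Real.rpow_nonneg hm0.le _)) hm0.le
    _ ≤ m * δD := mul_le_mul_of_nonneg_left h8 hm0.le
    _ = δD * m := mul_comm _ _

/-- The conditions on the numbers hold for large `N`. -/
theorem ev_Nu (h : In μ s c C n₀) {κ δ ε δ₂ ε₂ δL εL δ₁ : ℝ} (hκ : 0 < κ) (hεκ : ε ≤ κ) (hε₂κ : ε₂ ≤ κ) (hδ0 : 0 < δ)
    (hεL0 : 0 ≤ εL) (hεL : εL ≤ κ * (δ / 2)) (hδ₁ : 0 ≤ δ₁) (h12 : δ₁ < δ₂) (h1L : δ₁ < δL) (h1δ : δ₁ < δ)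
    (hrng : ∀ᶠ m : ℕ in atTop, ∀ y : ℤ, |(y : ℝ) - sl μ s * m| ≤ (m : ℝ) ^ δ * wd μ s m → 0 ≤ y ∧ y ≤ m) :
    ∀ᶠ N : ℕ in atTop, Nu μ s N κ δ ε δ₂ ε₂ δL εL δ₁ := by
  filter_upwards [eventually_ge_atTop 1, ev_of hκ (eventually_ge_atTop 1),
    ev_of hκ (ev_wd h (show 0 ≤ δ / 2 by positivity) (show δ / 2 < δ by linarith)), ev_of hκ hrng,
    ev_of hκ (ev_wd h hδ₁ h12), ev_of hκ (ev_wd' h hδ₁ h1L), ev_of hκ (ev_wd h hδ₁ h1δ)] with N g1 g2 g3 g4 g5 g6 g7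
  have hN1 : (1 : ℝ) ≤ N := by exact_mod_cast g1
  refine ⟨g1, g2, fun m hm => ?_, fun m hm => ?_, fun m hm l hl => ?_, g4, g5, g6, g7⟩
  · exact (Real.rpow_le_rpow_of_exponent_le hN1 hεκ).trans hm
  · exact (Real.rpow_le_rpow_of_exponent_le hN1 hε₂κ).trans hm
  · refine le_trans ?_ (g3 m hm)
    have h1 : (l : ℝ) ^ εL ≤ (m : ℝ) ^ (δ / 2) := by
      calc (l : ℝ) ^ εL ≤ (N : ℝ) ^ εL := Real.rpow_le_rpow (Nat.cast_nonneg _) (by exact_mod_cast hl) hεL0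
        _ ≤ (N : ℝ) ^ (κ * (δ / 2)) := Real.rpow_le_rpow_of_exponent_le hN1 hεL
        _ = ((N : ℝ) ^ κ) ^ (δ / 2) := Real.rpow_mul (by linarith) _ _
        _ ≤ (m : ℝ) ^ (δ / 2) := Real.rpow_le_rpow (Real.rpow_nonneg (by linarith) _) hm (by positivity)
    have h2 := mul_le_mul_of_nonneg_right h1 (zero_le_one.trans (le_max_left 1 (wd μ s m)))
    unfold wd' at h2 ⊢
    linarith

/-! ### The events -/

theorem law_site (hμ : Pool.Agent.W_7d29a1_h47.EM μ) (p : Pt) (t : ℝ) :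
    law μ {η : Env | t < |η p|} ≤ ENNReal.ofReal (Pool.Agent.W_7d29a1_h47.Mom μ 1 * Real.exp (-t)) := by
  have h1 : MeasurePreserving (fun η : Env => η p) (law μ) μ := measurePreserving_eval_infinitePi (fun _ : Pt => μ) p
  have h2 : MeasurableSet {u : ℝ | t < |u|} := measurableSet_lt measurable_const measurable_id.abs
  have h3 : law μ {η : Env | t < |η p|} = μ {u : ℝ | t < |u|} := h1.measure_preimage h2.nullMeasurableSet
  rw [h3]
  have h4 := mul_meas_ge_le_lintegral₀ (μ := μ) (f := fun u : ℝ => ENNReal.ofReal (Real.exp (1 * |u|)))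
    (by fun_prop) (ENNReal.ofReal (Real.exp t))
  have h5 : μ {u : ℝ | t < |u|} ≤ μ {u : ℝ | ENNReal.ofReal (Real.exp t) ≤ ENNReal.ofReal (Real.exp (1 * |u|))} :=
    measure_mono fun u (hu : t < |u|) => ENNReal.ofReal_le_ofReal (Real.exp_le_exp.2 (by linarith))
  have h6 : ∫⁻ u, ENNReal.ofReal (Real.exp (1 * |u|)) ∂μ = ENNReal.ofReal (Pool.Agent.W_7d29a1_h47.Mom μ 1) := by
    unfold Pool.Agent.W_7d29a1_h47.Mom
    rw [ofReal_integral_eq_lintegral_ofReal (hμ 1) (Eventually.of_forall fun u => (Real.exp_pos _).le)]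
  rw [h6] at h4
  have h7 : ENNReal.ofReal (Real.exp t) * μ {u : ℝ | t < |u|} ≤ ENNReal.ofReal (Pool.Agent.W_7d29a1_h47.Mom μ 1) :=
    (mul_le_mul_right h5 _).trans h4
  have h8 : ENNReal.ofReal (Real.exp (-t)) * ENNReal.ofReal (Real.exp t) = 1 := by
    rw [← ENNReal.ofReal_mul (Real.exp_pos _).le, ← Real.exp_add, neg_add_cancel, Real.exp_zero, ENNReal.ofReal_one]
  calc μ {u : ℝ | t < |u|} = ENNReal.ofReal (Real.exp (-t)) * (ENNReal.ofReal (Real.exp t) * μ {u : ℝ | t < |u|}) := by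
        rw [← mul_assoc, h8, one_mul]
    _ ≤ ENNReal.ofReal (Real.exp (-t)) * ENNReal.ofReal (Pool.Agent.W_7d29a1_h47.Mom μ 1) := mul_le_mul_right h7 _
    _ = ENNReal.ofReal (Pool.Agent.W_7d29a1_h47.Mom μ 1 * Real.exp (-t)) := by
        rw [← ENNReal.ofReal_mul (Real.exp_pos _).le, mul_comm]

theorem law_SB (hμ : Pool.Agent.W_7d29a1_h47.EM μ) {ε : ℝ} (hε : 0 < ε) : ∀ᶠ N : ℕ in atTop,
    law μ {η : Env | ¬ SB N ε η} ≤ ENNReal.ofReal (1 / 2 * Real.exp (-(N : ℝ) ^ (ε / 2))) := by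
  obtain ⟨A, hA⟩ : ∃ A : ℝ, A = Pool.Agent.W_7d29a1_h47.Mom μ 1 := ⟨_, rfl⟩
  have hA1 : 0 ≤ A := by
    rw [hA]
    exact integral_nonneg fun u => (Real.exp_pos _).le
  filter_upwards [eventually_ge_atTop 1, ev_exp (A := 18 * (A + 1)) (by positivity) one_pos hε (show ε / 2 < ε by linarith) 2]
    with N h1 h2
  have hN1 : (1 : ℝ) ≤ N := by exact_mod_cast h1
  obtain ⟨J, hJ⟩ : ∃ J : Finset (ℕ × ℤ), J = range (N + 1) ×ˢ Icc (-(4 * (N : ℤ))) (4 * N) := ⟨_, rfl⟩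
  have hsub : {η : Env | ¬ SB N ε η} ⊆ ⋃ q ∈ J, {η : Env | (N : ℝ) ^ ε < |η ((q.1 : ℤ), q.2)|} := by
    intro η hη
    rw [Set.mem_ofPred_eq] at hη
    unfold SB at hη
    push Not at hη
    obtain ⟨i, hi, y, hy, hlt⟩ := hη
    rw [Set.mem_iUnion₂]
    refine ⟨(i, y), ?_, hlt⟩
    rw [hJ, mem_product, mem_range, mem_Icc]
    rw [abs_le] at hy
    constructor
    · show i < N + 1
      omega
    · exact hy
  refine (measure_mono hsub).trans ((measure_biUnion_finset_le _ _).trans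
    ((sum_le_sum fun q _ => law_site hμ ((q.1 : ℤ), q.2) ((N : ℝ) ^ ε)).trans ?_))
  rw [sum_const, nsmul_eq_mul, ← hA]
  have hcard : (J.card : ℝ) ≤ 18 * (N : ℝ) ^ (2 : ℝ) := by
    rw [hJ, card_product, card_range, Int.card_Icc]
    have e1 : (4 * (N : ℤ) + 1 - -(4 * (N : ℤ))).toNat = 8 * N + 1 := by omega
    have e2 : (N : ℝ) ^ (2 : ℝ) = N ^ 2 := by
      rw [← Real.rpow_natCast]
      norm_num
    rw [e1, e2]
    push_cast
    nlinarith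
  rw [← ENNReal.ofReal_natCast, ← ENNReal.ofReal_mul (Nat.cast_nonneg _)]
  refine ENNReal.ofReal_le_ofReal ?_
  have hE : 0 < Real.exp (-(N : ℝ) ^ ε) := Real.exp_pos _
  calc (J.card : ℝ) * (A * Real.exp (-(N : ℝ) ^ ε)) ≤ (18 * (N : ℝ) ^ (2 : ℝ)) * ((A + 1) * Real.exp (-(N : ℝ) ^ ε)) :=
        mul_le_mul hcard (mul_le_mul_of_nonneg_right (by linarith) hE.le) (mul_nonneg hA1 hE.le) (by positivity)
    _ = 18 * (A + 1) * (N : ℝ) ^ (2 : ℝ) * Real.exp (-(1 * (N : ℝ) ^ ε)) := by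
        rw [one_mul]
        ring
    _ ≤ _ := h2

/-- Localisation in all the environments whose rows are shifted behind one row. -/
theorem law_loc {κ δL εL cL : ℝ} (hcL : 0 < cL)
    (hloc : ∀ᶠ N : ℕ in atTop, law μ {η | ¬ LocG μ s N κ δL εL cL η} ≤ ENNReal.ofReal (Real.exp (-(N : ℝ) ^ cL))) :
    ∀ᶠ N : ℕ in atTop, law μ {η : Env | ¬ ∀ k : ℕ, k ≤ N → ∀ v : ℤ, (v = 1 ∨ v = -1) → LocG μ s N κ δL εL cL (shj (k : ℤ) v η)} ≤
      ENNReal.ofReal (1 / 2 * Real.exp (-(N : ℝ) ^ (cL / 2))) := by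
  filter_upwards [hloc, eventually_ge_atTop 1, ev_exp (A := 4) (by norm_num) one_pos hcL (show cL / 2 < cL by linarith) 1]
    with N h0 h1 h2
  have hN1 : (1 : ℝ) ≤ N := by exact_mod_cast h1
  obtain ⟨J, hJ⟩ : ∃ J : Finset (ℕ × ℤ), J = range (N + 1) ×ˢ {1, -1} := ⟨_, rfl⟩
  have hsub : {η : Env | ¬ ∀ k : ℕ, k ≤ N → ∀ v : ℤ, (v = 1 ∨ v = -1) → LocG μ s N κ δL εL cL (shj (k : ℤ) v η)} ⊆
      ⋃ q ∈ J, shj (q.1 : ℤ) q.2 ⁻¹' {η | ¬ LocG μ s N κ δL εL cL η} := by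
    intro η hη
    rw [Set.mem_ofPred_eq] at hη
    push Not at hη
    obtain ⟨k, hk, v, hv, hn⟩ := hη
    rw [Set.mem_iUnion₂]
    refine ⟨(k, v), ?_, hn⟩
    rw [hJ, mem_product, mem_range, mem_insert, mem_singleton]
    exact ⟨by show k < N + 1; omega, hv⟩
  have hone : ∀ q ∈ J, law μ (shj (q.1 : ℤ) q.2 ⁻¹' {η | ¬ LocG μ s N κ δL εL cL η}) ≤ ENNReal.ofReal (Real.exp (-(N : ℝ) ^ cL)) := by
    intro q _
    have g := mp_shj (μ := μ) (q.1 : ℤ) q.2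
    have g1 := Measure.le_map_apply (μ := law μ) g.measurable.aemeasurable {η | ¬ LocG μ s N κ δL εL cL η}
    rw [g.map_eq] at g1
    exact g1.trans h0
  refine (measure_mono hsub).trans ((measure_biUnion_finset_le _ _).trans ((sum_le_sum hone).trans ?_))
  rw [sum_const, nsmul_eq_mul, ← ENNReal.ofReal_natCast, ← ENNReal.ofReal_mul (Nat.cast_nonneg _)]
  refine ENNReal.ofReal_le_ofReal ?_
  have hcard : (J.card : ℝ) ≤ 4 * (N : ℝ) ^ (1 : ℝ) := by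
    rw [hJ, card_product, card_range, Real.rpow_one]
    have e1 : ({1, -1} : Finset ℤ).card = 2 := rfl
    rw [e1]
    push_cast
    linarith
  have h3 := mul_le_mul_of_nonneg_right hcard (Real.exp_pos (-(N : ℝ) ^ cL)).le
  rw [one_mul] at h2
  exact h3.trans h2

omit [IsProbabilityMeasure μ] in
theorem KU_mono {δ δ' ε : ℝ} (hδ : δ' ≤ δ) {η : Env} (h : KU μ s N δ ε η) : KU μ s N δ' ε η := by
  intro i l hil hl x hx j hj k₀ hk₀ y hy
  refine h i l hil hl x hx j hj k₀ hk₀ y (hy.trans ?_)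
  have h1 : (1 : ℝ) ≤ l := by
    have : 1 ≤ l := by omega
    exact_mod_cast this
  have h2 : 0 ≤ wd μ s l := by
    have h3 := (abs_nonneg _).trans hy
    have h4 : 0 < (l : ℝ) ^ δ' := Real.rpow_pos_of_pos (by linarith) _
    exact nonneg_of_mul_nonneg_right h3 h4
  exact mul_le_mul_of_nonneg_right (Real.rpow_le_rpow_of_exponent_le h1 hδ) h2

/-- THE GOOD EVENT OF THE MODEL, all the windows `[c, c + m + n)` with the kicked row `c + m`. -/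
def GwW (μ : Measure ℝ) (s : ℝ) (N : ℕ) (κ δ δ₁ ε c' : ℝ) (η : Env) : Prop :=
  ∀ (Q : Finset (Finset ℕ)) [Nonempty (Px Q)], Full N Q → ∀ c m n : ℕ, c + (m + n) ≤ N → (N : ℝ) ^ κ ≤ m → (N : ℝ) ^ κ ≤ n →
    ∀ (B : ℝ) (a : ℤ), (a = 1 ∨ a = -1) → ∀ S S' : Px Q, Cn μ s δ₁ c (c + (m + n)) S → Cn μ s δ₁ c (c + (m + n)) S' →
      |gw μ s η δ B a c (m + n) m (ps S c) (ps S (c + (m + n))) - gw μ s η δ B a c (m + n) m (ps S' c) (ps S' (c + (m + n)))| ≤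
        Real.exp ((N : ℝ) ^ ε) * cE2 (lw μ s η N Q) (pJ c (c + (m + n))) (NM c (c + m) (c + m) (c + (m + n))) S S' +
        Real.exp (-(N : ℝ) ^ c')

/-- **THE HALF RESPONSE OF A WINDOW FOR TWO PATHS.** -/
theorem gw50 (h : In μ s c C n₀) {κ δ ε : ℝ} (hκ : 0 < κ) (hδ : 0 < δ) (hε : 0 < ε) :
    ∃ δ₁ c' : ℝ, 0 < δ₁ ∧ δ₁ < δ ∧ 0 < c' ∧ ∃ N₀ : ℕ, ∀ N : ℕ, N₀ ≤ N →
      law μ {η | ¬ GwW μ s N κ δ δ₁ ε c' η} ≤ ENNReal.ofReal (Real.exp (-(N : ℝ) ^ c')) := by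
  -- the exponents
  obtain ⟨εK, hεK⟩ : ∃ e : ℝ, e = min (ε / 2) κ := ⟨_, rfl⟩
  have hεK0 : 0 < εK := by rw [hεK]; exact lt_min (by positivity) hκ
  have hεK1 : εK ≤ ε / 2 := by rw [hεK]; exact min_le_left _ _
  have hεK2 : εK ≤ κ := by rw [hεK]; exact min_le_right _ _
  obtain ⟨δK, cK, hδK, hcK, N₁, hN₁⟩ := kick14_unit h hεK0
  obtain ⟨a, ha, hrng⟩ := cone_rng h
  obtain ⟨d, hd⟩ : ∃ d : ℝ, d = min δK a := ⟨_, rfl⟩
  have hd0 : 0 < d := by rw [hd]; exact lt_min hδK ha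
  have hdK : d ≤ δK := by rw [hd]; exact min_le_left _ _
  have hda : d ≤ a := by rw [hd]; exact min_le_right _ _
  obtain ⟨εL, hεL⟩ : ∃ e : ℝ, e = κ * (d / 2) := ⟨_, rfl⟩
  have hεL0 : 0 < εL := by rw [hεL]; positivity
  obtain ⟨δL, cL, hδL, hcL, N₂, hN₂⟩ := loc14 h hκ εL hεL0
  obtain ⟨ε₂, hε₂⟩ : ∃ e : ℝ, e = min (cL / 2) εK := ⟨_, rfl⟩
  have hε₂0 : 0 < ε₂ := by rw [hε₂]; exact lt_min (by positivity) hεK0
  have hε₂L : ε₂ ≤ cL / 2 := by rw [hε₂]; exact min_le_left _ _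
  have hε₂K : ε₂ ≤ εK := by rw [hε₂]; exact min_le_right _ _
  obtain ⟨δ₂, c₂, hδ₂, hc₂, N₃, hN₃⟩ := kick14_unit h hε₂0
  obtain ⟨δ₁, hδ₁⟩ : ∃ e : ℝ, e = min (min δ₂ δL) (min d δ) / 2 := ⟨_, rfl⟩
  have hδ₁0 : 0 < δ₁ := by
    rw [hδ₁]
    have : 0 < min (min δ₂ δL) (min d δ) := lt_min (lt_min hδ₂ hδL) (lt_min hd0 hδ)
    linarith
  have hmin : δ₁ < min (min δ₂ δL) (min d δ) := by
    have : 2 * δ₁ = min (min δ₂ δL) (min d δ) := by rw [hδ₁]; ring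
    linarith
  have h12 : δ₁ < δ₂ := hmin.trans_le ((min_le_left _ _).trans (min_le_left _ _))
  have h1L : δ₁ < δL := hmin.trans_le ((min_le_left _ _).trans (min_le_right _ _))
  have h1d : δ₁ < d := hmin.trans_le ((min_le_right _ _).trans (min_le_left _ _))
  have h1δ : δ₁ < δ := hmin.trans_le ((min_le_right _ _).trans (min_le_right _ _))
  obtain ⟨c', hc'⟩ : ∃ e : ℝ, e = min (min (cK / 2) (c₂ / 2)) (min (εK / 4) (cL / 4)) := ⟨_, rfl⟩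
  have hc'0 : 0 < c' := by
    rw [hc']
    exact lt_min (lt_min (by positivity) (by positivity)) (lt_min (by positivity) (by positivity))
  have hc'K : c' ≤ cK / 2 := by rw [hc']; exact (min_le_left _ _).trans (min_le_left _ _)
  have hc'2 : c' ≤ c₂ / 2 := by rw [hc']; exact (min_le_left _ _).trans (min_le_right _ _)
  have hc'ε : c' ≤ εK / 4 := by rw [hc']; exact (min_le_right _ _).trans (min_le_left _ _)
  have hc'L : c' ≤ cL / 4 := by rw [hc']; exact (min_le_right _ _).trans (min_le_right _ _)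
  refine ⟨δ₁, c', hδ₁0, h1δ, hc'0, ?_⟩
  -- the numbers
  have hNu := ev_Nu (μ := μ) (s := s) h (κ := κ) (δ := d) (ε := εK) (δ₂ := δ₂) (ε₂ := ε₂) (δL := δL) (εL := εL) (δ₁ := δ₁) hκ hεK2
    (hε₂K.trans hεK2) hd0 hεL0.le hεL.le hδ₁0.le h12 h1L h1d (hrng d hda)
  have hev := hNu.and ((eventually_ge_atTop N₁).and ((eventually_ge_atTop N₃).and ((law_SB (μ := μ) h.em hεK0).and
    ((law_loc hcL (eventually_atTop.2 ⟨N₂, hN₂⟩)).and ((ev_of hκ (ev_wd h hδ₁0.le h1δ)).and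
    ((ev_pow_le (show εK < ε by linarith) (K := 5) one_pos).and ((ev_pow_le (show cL / 2 < cL by linarith) (K := 5) one_pos).and
    (ev_pow (show (0 : ℝ) < c' by linarith) 10))))))))
  obtain ⟨N₀, hN₀⟩ := hev.exists_forall_of_atTop
  refine ⟨N₀, fun N hN => ?_⟩
  obtain ⟨g1, g2, g3, g4, g5, g6, g7, g8, g9⟩ := hN₀ N hN
  have hN1 : (1 : ℝ) ≤ N := by exact_mod_cast g1.one
  -- the good event
  have hsub : {η | ¬ GwW μ s N κ δ δ₁ ε c' η} ⊆ (({η | ¬ KU μ s N δK εK η} ∪ {η | ¬ KU μ s N δ₂ ε₂ η}) ∪ {η | ¬ SB N εK η}) ∪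
      {η : Env | ¬ ∀ k : ℕ, k ≤ N → ∀ v : ℤ, (v = 1 ∨ v = -1) → LocG μ s N κ δL εL cL (shj (k : ℤ) v η)} := by
    intro η hη
    by_contra hno
    simp only [Set.mem_union, Set.mem_ofPred_eq, not_or, not_not] at hno
    obtain ⟨⟨⟨q1, q2⟩, q3⟩, q4⟩ := hno
    rw [Set.mem_ofPred_eq] at hη
    refine hη ?_
    intro Q hne hQ c₀ m n hjN hm hn B a ha S S' hS hS'
    have hGd : Gd μ s N κ d εK δ₂ ε₂ δL εL cL η := ⟨KU_mono hdK q1, q2, q3, q4⟩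
    have hv : (-a = 1 ∨ -a = -1) := by omega
    have hmain := lk50 (Q := Q) hQ hGd g1 hjN hm hn hv S S' hS hS'
    have hb : (N : ℝ) ^ κ ≤ ((m + n : ℕ) : ℝ) := hm.trans (by exact_mod_cast Nat.le_add_right m n)
    have hflat : ∀ S : Px Q, Cn μ s δ₁ c₀ (c₀ + (m + n)) S → Flat μ s δ (m + n) a (ps S (c₀ + (m + n)) - ps S c₀) := by
      intro S hS
      unfold Cn at hS
      rw [Nat.add_sub_cancel_left] at hS
      have h1 := g6 (m + n) hb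
      have h2 : |(a : ℝ) / 2| ≤ 1 := by
        rcases ha with h | h <;> rw [h] <;> norm_num [abs_le]
      unfold Flat
      have h3 : ((ps S (c₀ + (m + n)) - ps S c₀ : ℤ) : ℝ) + (a : ℝ) / 2 - sl μ s * ((m + n : ℕ) : ℝ) =
          (((ps S (c₀ + (m + n)) - ps S c₀ : ℤ) : ℝ) - sl μ s * ((m + n : ℕ) : ℝ)) + (a : ℝ) / 2 := by ring
      rw [h3]
      refine (abs_add_le _ _).trans ?_
      linarith
    have ha1 : |(a : ℝ)| ≤ 1 := by rcases ha with h | h <;> rw [h] <;> norm_num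
    have hgw := gw_sub_le (μ := μ) (s := s) η (δ := δ) (B := B) ha1 (c := c₀) (l := m + n) (k := m)
      (hflat S hS) (hflat S' hS')
    obtain ⟨K, hK⟩ : ∃ K, K = cE2 (lw μ s η N Q) (pJ c₀ (c₀ + (m + n))) (NM c₀ (c₀ + m) (c₀ + m) (c₀ + (m + n))) S S' :=
      ⟨_, rfl⟩
    have hK0 : 0 ≤ K := by
      rw [hK]
      exact Pool.Agent.W_7d29a1_C0.Swap57.cE2_nonneg _ _ (fun z z' => Pool.Agent.W_7d29a1_C0.Swap57.NM_nonneg _ _ _ _ z z') S S'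
    rw [← hK] at hmain ⊢
    refine hgw.trans ((mul_le_mul_of_nonneg_left hmain (by norm_num)).trans ?_)
    have p1 : (N : ℝ) ^ ε₂ ≤ (N : ℝ) ^ εK := Real.rpow_le_rpow_of_exponent_le hN1 hε₂K
    have p2 : (N : ℝ) ^ ε₂ ≤ (N : ℝ) ^ (cL / 2) := Real.rpow_le_rpow_of_exponent_le hN1 hε₂L
    have p3 : (N : ℝ) ^ c' ≤ (N : ℝ) ^ (cL / 2) := Real.rpow_le_rpow_of_exponent_le hN1 (by linarith)
    have p4 : 1 ≤ (N : ℝ) ^ (cL / 2) := Real.one_le_rpow hN1 (by positivity)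
    have p5 : 0 ≤ (N : ℝ) ^ ε := Real.rpow_nonneg (by linarith) _
    have p6 : 0 ≤ (N : ℝ) ^ εK := Real.rpow_nonneg (by linarith) _
    have r1 : Real.exp ((N : ℝ) ^ ε₂) * Real.exp (3 * (N : ℝ) ^ εK) ≤ Real.exp ((N : ℝ) ^ ε) := by
      rw [← Real.exp_add]
      exact Real.exp_le_exp.2 (by linarith)
    have r2 : 2 * (Real.exp ((N : ℝ) ^ ε₂) * (Real.exp (-(N : ℝ) ^ cL) * Real.exp ((N : ℝ) ^ ε₂))) ≤ Real.exp (-(N : ℝ) ^ c') := by
      have r3 : (2 : ℝ) ≤ Real.exp 1 := by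
        have := Real.add_one_le_exp (1 : ℝ)
        linarith
      calc 2 * (Real.exp ((N : ℝ) ^ ε₂) * (Real.exp (-(N : ℝ) ^ cL) * Real.exp ((N : ℝ) ^ ε₂)))
          ≤ Real.exp 1 * (Real.exp ((N : ℝ) ^ ε₂) * (Real.exp (-(N : ℝ) ^ cL) * Real.exp ((N : ℝ) ^ ε₂))) :=
            mul_le_mul_of_nonneg_right r3 (by positivity)
        _ = Real.exp (1 + ((N : ℝ) ^ ε₂ + (-(N : ℝ) ^ cL + (N : ℝ) ^ ε₂))) := by
            rw [Real.exp_add, Real.exp_add, Real.exp_add]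
        _ ≤ Real.exp (-(N : ℝ) ^ c') := Real.exp_le_exp.2 (by linarith)
    calc 1 / 2 * (Real.exp ((N : ℝ) ^ ε₂) * (2 * Real.exp (3 * (N : ℝ) ^ εK) * K +
          4 * (Real.exp (-(N : ℝ) ^ cL) * Real.exp ((N : ℝ) ^ ε₂))))
        = (Real.exp ((N : ℝ) ^ ε₂) * Real.exp (3 * (N : ℝ) ^ εK)) * K +
          2 * (Real.exp ((N : ℝ) ^ ε₂) * (Real.exp (-(N : ℝ) ^ cL) * Real.exp ((N : ℝ) ^ ε₂))) := by ring
      _ ≤ Real.exp ((N : ℝ) ^ ε) * K + Real.exp (-(N : ℝ) ^ c') := add_le_add (mul_le_mul_of_nonneg_right r1 hK0) r2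
  -- the probability
  have hex : ∀ e : ℝ, 2 * c' ≤ e → Real.exp (-(N : ℝ) ^ e) ≤ 1 / 4 * Real.exp (-(N : ℝ) ^ c') := by
    intro e he
    have h1 : (N : ℝ) ^ (2 * c') ≤ (N : ℝ) ^ e := Real.rpow_le_rpow_of_exponent_le hN1 he
    have h2 : (N : ℝ) ^ (2 * c') = (N : ℝ) ^ c' * (N : ℝ) ^ c' := by
      rw [← Real.rpow_add (by linarith)]
      congr 1
      ring
    have h3 : 10 * (N : ℝ) ^ c' ≤ (N : ℝ) ^ c' * (N : ℝ) ^ c' := mul_le_mul_of_nonneg_right g9 (by linarith)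
    have h4 : Real.exp (-(N : ℝ) ^ e) ≤ Real.exp (-3 + -(N : ℝ) ^ c') := Real.exp_le_exp.2 (by linarith)
    have h5 : Real.exp (-3) ≤ 1 / 4 := by
      rw [Real.exp_neg, inv_le_comm₀ (Real.exp_pos _) (by norm_num)]
      have := Real.add_one_le_exp (3 : ℝ)
      linarith
    rw [Real.exp_add] at h4
    exact h4.trans (mul_le_mul_of_nonneg_right h5 (Real.exp_pos _).le)
  have x1 := hex cK (by linarith)
  have x2 := hex c₂ (by linarith)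
  have x3 := hex (εK / 2) (by linarith)
  have x4 := hex (cL / 2) (by linarith)
  have E0 : ∀ e : ℝ, 0 ≤ Real.exp (-(N : ℝ) ^ e) := fun e => (Real.exp_pos _).le
  refine (measure_mono hsub).trans ((measure_union_le _ _).trans ((add_le_add ((measure_union_le _ _).trans
    (add_le_add ((measure_union_le _ _).trans (add_le_add (hN₁ N g2) (hN₃ N g3))) g4)) g5).trans ?_))
  have t2 := E0 (εK / 2)
  have t3 := E0 (cL / 2)
  rw [← ENNReal.ofReal_add (E0 _) (E0 _), ← ENNReal.ofReal_add (add_nonneg (E0 _) (E0 _)) (by linarith),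
    ← ENNReal.ofReal_add (add_nonneg (add_nonneg (E0 _) (E0 _)) (by linarith)) (by linarith)]
  refine ENNReal.ofReal_le_ofReal ?_
  linarith [E0 c']

end prob

end

end Pool.Agent.W_7d29a1_C0.GwA50
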