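import Pool.Agent.W_7d29a1_Z17.CoinA17

/-!
CURV0 (MP_7d29a1_pr), section SM, the leaf of the law: integration by parts at one site for a law with a differentiable density,
and the exponential moments of the predictable score sums. (helper32)
-/

set_option autoImplicit false

namespace Pool.Agent.W_7d29a1_C0.H32

open MeasureTheory ProbabilityTheory Filter Topology
open Pool.Agent.W_7d29a1_F

noncomputable section

/-- The law `μ` has the differentiable density `f` with the derivative `f'`, and the score `- f' / f` has an exponential moment. -/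
structure DenLaw (μ : Measure ℝ) (f f' : ℝ → ℝ) : Prop where
  nn : ∀ x, 0 ≤ f x
  der : ∀ x, HasDerivAt f (f' x) x
  eq : μ = volume.withDensity fun x => ENNReal.ofReal (f x)
  mom : ∃ θ : ℝ, 0 < θ ∧ Integrable (fun x => Real.exp (θ * |f' x / f x|)) μ

/-- The score. -/
def sc (f f' : ℝ → ℝ) (x : ℝ) : ℝ := -(f' x / f x)

variable {μ : Measure ℝ} {f f' : ℝ → ℝ}

theorem DenLaw.cont (h : DenLaw μ f f') : Continuous f :=
  continuous_iff_continuousAt.2 fun x => (h.der x).continuousAt

theorem DenLaw.meas (h : DenLaw μ f f') : Measurable f := h.cont.measurable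

theorem DenLaw.meas' (h : DenLaw μ f f') : Measurable f' := by
  have h1 : f' = deriv f := funext fun x => (h.der x).deriv.symm
  rw [h1]
  exact measurable_deriv f

theorem DenLaw.meas_sc (h : DenLaw μ f f') : Measurable (sc f f') := (h.meas'.div h.meas).neg

/-- At the zeros of the density its derivative is zero. -/
theorem DenLaw.zero (h : DenLaw μ f f') {x : ℝ} (hx : f x = 0) : f' x = 0 := by
  have h1 : IsLocalMin f x := Filter.Eventually.of_forall fun y => by rw [hx]; exact h.nn y
  exact h1.hasDerivAt_eq_zero (h.der x)

theorem DenLaw.sc_mul (h : DenLaw μ f f') (x : ℝ) : sc f f' x * f x = -f' x := by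
  unfold sc
  by_cases hx : f x = 0
  · rw [hx, h.zero hx]; simp
  · field_simp

/-- Integrals with respect to `μ`. -/
theorem DenLaw.int_eq (h : DenLaw μ f f') (g : ℝ → ℝ) : ∫ x, g x ∂μ = ∫ x, f x * g x := by
  rw [h.eq]
  rw [integral_withDensity_eq_integral_toReal_smul (by exact h.meas.ennreal_ofReal)
    (ae_of_all _ fun x => ENNReal.ofReal_lt_top)]
  refine integral_congr_ae (ae_of_all _ fun x => ?_)
  show (ENNReal.ofReal (f x)).toReal • g x = f x * g x
  rw [ENNReal.toReal_ofReal (h.nn x), smul_eq_mul]

theorem DenLaw.int_iff (h : DenLaw μ f f') (g : ℝ → ℝ) : Integrable g μ ↔ Integrable fun x => f x * g x := by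
  rw [h.eq]
  rw [integrable_withDensity_iff_integrable_smul' (by exact h.meas.ennreal_ofReal)
    (ae_of_all _ fun x => ENNReal.ofReal_lt_top)]
  refine integrable_congr (ae_of_all _ fun x => ?_)
  show (ENNReal.ofReal (f x)).toReal • g x = f x * g x
  rw [ENNReal.toReal_ofReal (h.nn x), smul_eq_mul]

/-- **Integration by parts at one site.** -/
theorem DenLaw.ibp (h : DenLaw μ f f') {g g' : ℝ → ℝ} (hg : ∀ x, HasDerivAt g (g' x) x)
    (i0 : Integrable g μ) (i1 : Integrable g' μ) (i2 : Integrable (fun x => g x * sc f f' x) μ) :
    ∫ x, g' x ∂μ = ∫ x, g x * sc f f' x ∂μ := by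
  rw [h.int_eq, h.int_eq]
  have e2 : (fun x => f x * (g x * sc f f' x)) = fun x => -(g x * f' x) := by
    funext x
    have := h.sc_mul x
    linear_combination (g x) * this
  have j0 : Integrable (g * f) := by
    refine ((h.int_iff g).1 i0).congr (ae_of_all _ fun x => ?_)
    show f x * g x = g x * f x
    ring
  have j1 : Integrable (g' * f) := by
    refine ((h.int_iff g').1 i1).congr (ae_of_all _ fun x => ?_)
    show f x * g' x = g' x * f x
    ring
  have j2 : Integrable (g * f') := by
    have := (h.int_iff _).1 i2
    rw [e2] at this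
    refine this.neg.congr (ae_of_all _ fun x => ?_)
    show -(-(g x * f' x)) = g x * f' x
    ring
  have key := integral_mul_deriv_eq_deriv_mul_of_integrable (u := g) (v := f) (u' := g') (v' := f')
    (fun x _ => hg x) (fun x _ => h.der x) j2 j1 j0
  rw [e2, integral_neg, key, neg_neg]
  exact integral_congr_ae (ae_of_all _ fun x => by show f x * g' x = g' x * f x; ring)

variable [IsProbabilityMeasure μ]

/-- **Integration by parts at the site `p`** with a coefficient which does not see the site `p`. -/
theorem DenLaw.ibp_site (h : DenLaw μ f f') (p : Pt) {c Φ Φ' : Env → ℝ}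
    (hc : ∀ η x, c (Function.update η p x) = c η)
    (hΦ : ∀ (η : Env) (x : ℝ), HasDerivAt (fun t => Φ (Function.update η p t)) (Φ' (Function.update η p x)) x)
    (i0 : Integrable (fun η => c η * Φ η) (law μ)) (i1 : Integrable (fun η => c η * Φ' η) (law μ))
    (i2 : Integrable (fun η => c η * Φ η * sc f f' (η p)) (law μ)) :
    ∫ η, c η * Φ' η ∂(law μ) = ∫ η, c η * Φ η * sc f f' (η p) ∂(law μ) := by
  have hu := W_7d29a1_Z17.mp_upd (μ := μ) p
  have e1 : ∀ {F : Env → ℝ}, Integrable F (law μ) → ∫ η, F η ∂(law μ) =
      ∫ η, ∫ x, F (Function.update η p x) ∂μ ∂(law μ) := fun {F} hF => by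
    have h1 : Integrable (fun q : Env × ℝ => F (Function.update q.1 p q.2)) ((law μ).prod μ) :=
      hu.integrable_comp_of_integrable hF
    rw [← integral_prod _ h1]
    conv_lhs => rw [← hu.map_eq]
    exact integral_map hu.measurable.aemeasurable (by rw [hu.map_eq]; exact hF.aestronglyMeasurable)
  have e2 : ∀ {F : Env → ℝ}, Integrable F (law μ) →
      ∀ᵐ η ∂(law μ), Integrable (fun x => F (Function.update η p x)) μ := fun {F} hF => by
    have h1 : Integrable (fun q : Env × ℝ => F (Function.update q.1 p q.2)) ((law μ).prod μ) :=
      hu.integrable_comp_of_integrable hF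
    exact h1.prod_right_ae
  rw [e1 i1, e1 i2]
  refine integral_congr_ae ?_
  filter_upwards [e2 i0, e2 i1, e2 i2] with η j0 j1 j2
  by_cases h0 : c η = 0
  · refine integral_congr_ae (ae_of_all _ fun x => ?_)
    show c (Function.update η p x) * _ = c (Function.update η p x) * _ * _
    rw [hc, h0]
    ring
  · have k0 : Integrable (fun x => Φ (Function.update η p x)) μ := by
      have := j0.const_mul (c η)⁻¹
      refine this.congr (ae_of_all _ fun x => ?_)
      show (c η)⁻¹ * (c (Function.update η p x) * Φ (Function.update η p x)) = _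
      rw [hc, ← mul_assoc, inv_mul_cancel₀ h0, one_mul]
    have k1 : Integrable (fun x => Φ' (Function.update η p x)) μ := by
      have := j1.const_mul (c η)⁻¹
      refine this.congr (ae_of_all _ fun x => ?_)
      show (c η)⁻¹ * (c (Function.update η p x) * Φ' (Function.update η p x)) = _
      rw [hc, ← mul_assoc, inv_mul_cancel₀ h0, one_mul]
    have k2 : Integrable (fun x => Φ (Function.update η p x) * sc f f' x) μ := by
      have := j2.const_mul (c η)⁻¹
      refine this.congr (ae_of_all _ fun x => ?_)
      show (c η)⁻¹ * (c (Function.update η p x) * Φ (Function.update η p x) *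
        sc f f' (Function.update η p x p)) = _
      rw [hc, Function.update_self, mul_assoc, ← mul_assoc, inv_mul_cancel₀ h0, one_mul]
    have key := h.ibp (hΦ η) k0 k1 k2
    calc ∫ x, c (Function.update η p x) * Φ' (Function.update η p x) ∂μ
        = c η * ∫ x, Φ' (Function.update η p x) ∂μ := by
          rw [← integral_const_mul]
          refine integral_congr_ae (ae_of_all _ fun x => ?_)
          show c (Function.update η p x) * _ = _
          rw [hc]
      _ = c η * ∫ x, Φ (Function.update η p x) * sc f f' x ∂μ := by rw [key]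
      _ = _ := by
          rw [← integral_const_mul]
          refine integral_congr_ae (ae_of_all _ fun x => ?_)
          show _ = c (Function.update η p x) * Φ (Function.update η p x) *
            sc f f' (Function.update η p x p)
          rw [hc, Function.update_self]
          ring

end

end Pool.Agent.W_7d29a1_C0.H32
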