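import Pool.Agent.W_7d29a1_C0.PlanS41
import Pool.Agent.W_7d29a1_C0.FldP63
import Pool.Agent.W_7d29a1_C0.Tube73

/-!
MP_7d29a1_pr, [CURV0] (helper57), leaf (T), TL3: THE INSERTION OF A FORWARD SLAB FIELD IN A PLAN OF REPLICAS.

The weights are `lw + A`, `A` a functional of a window, `G` a bounded functional of the same window, `J` rows behind the window. The path
functional `CF` is the average over the rows `r` of `J` of the mean of `G` given the path behind `r`. `ins_box57`: for any plan `P` and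
any bounded observable `Ψ` which does not see the sites of the slab, `|E ins P (CF) Ψ|` is at most `a E ev |Ψ|` plus the tail of the
score, the event that an old replica is not straight over the slab, and the event that a new replica (a shadow of an old one) leaves
the tubes of the boxes of all the old replicas. `a_num57`: the choice of `a`.
-/

set_option autoImplicit false
set_option linter.unusedSectionVars false
set_option linter.unusedVariables false

namespace Pool.Agent.W_7d29a1_C0.InT57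

open Finset MeasureTheory Pool.Agent.W_7d29a1_F Pool.Agent.W_7d29a1_X
open Pool.Agent.W_7d29a1_C0.Mod92 Pool.Agent.W_7d29a1_C0.H32 Pool.Agent.W_7d29a1_C0.FP63 Pool.Agent.W_7d29a1_C0.Blk18
open Pool.W7d29a1.C0 Pool.W7d29a1.C0.VT31
open Pool.W7d29a1.C0.H41 (Obs Wt SlD cut cut' lcG tail1 planOne_blind sum_abs_ins_lc int_evP int_ins Cf_split QV meas_Cf)
open Pool.W7d29a1.C0.T73 (Vis dl chT bx OutB Str)
open Pool.W7d29a1.C0.R63 (DF)
open Pool.W7d29a1.C0.I52 (Plan)

noncomputable section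

variable {μ : Measure ℝ} {s : ℝ} {N : ℕ} {Q : Finset (Finset ℕ)}

/-! ### Positions at integer rows -/

/-- The position at an integer row. -/
def pz (S : Px Q) (m : ℤ) : ℤ := ps S m.toNat

theorem vis_nq : Vis (pz (Q := Q)) (nq N) where
  nonneg := fun p x => by
    unfold nq
    split_ifs <;> norm_num
  le_one := fun p x => by
    unfold nq
    split_ifs <;> norm_num
  on := fun p x h => by
    unfold nq at h
    split_ifs at h with h1
    · exact h1.2
    · exact absurd rfl h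

/-- The rows of a slab as integers. -/
def JZ (J : Finset ℕ) : Finset ℤ := J.image fun r : ℕ => (r : ℤ)

theorem card_JZ (J : Finset ℕ) : (JZ J).card = J.card := card_image_of_injective _ Nat.cast_injective

theorem JZ_ne {J : Finset ℕ} (h : J.Nonempty) : (JZ J).Nonempty := h.image _

theorem fst_mem_JZ {J : Finset ℕ} {p : Pt} (hp : p ∈ sS J N) : p.1 ∈ JZ J := by
  obtain ⟨r, hr, z, _, rfl⟩ := mem_sS.1 hp
  exact mem_image.2 ⟨r, hr, rfl⟩

theorem pz_nonneg (S : Px Q) (m : ℤ) : 0 ≤ pz S m := ps_nonneg S _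

theorem pz_le {S : Px Q} {m : ℤ} (hm : m ≤ N) : pz S m ≤ N := by
  have h1 := ps_le S m.toNat
  have h2 : (m.toNat : ℤ) ≤ N := by omega
  exact h1.trans h2

/-! ### The path functional of the slab -/

/-- The path functional of the forward field: the average over the rows `r ∈ J` of the mean of `G` given the path behind `r`. -/
def CF (μ : Measure ℝ) (s : ℝ) (N : ℕ) (Q : Finset (Finset ℕ)) (A G : Env → (ℕ → ℤ) → ℝ) (J : Finset ℕ) (η : Env) : Px Q → ℝ :=
  H19.Cf (sS J N) (cf μ s A G 0 0 J) (nq N) η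

variable {A G : Env → (ℕ → ℤ) → ℝ} {al be : ℕ} {D D' : ℝ} {J : Finset ℕ}

/-- **The path functional of the slab is the average of the conditional means.** -/
theorem CF_eq [Nonempty (Px Q)] (hQ : Full N Q) (hA : WF al be D' A) (hG : WF al be D G) (hab : al ≤ be)
    (hJ : ∀ r ∈ J, be < r ∧ r ≤ N) (η : Env) (S : Px Q) :
    CF μ s N Q A G J η S = (J.card : ℝ)⁻¹ * ∑ r ∈ J, cE (lA μ s N Q A η) (pJ 0 r) (at2 G η) S := by
  have h := Cf_cf (μ := μ) (s := s) (c := 0) hQ hA.rd hG.rd (Nat.zero_le al) hab hJ η S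
  rw [ps_zero] at h
  exact h

theorem abs_cf_le (hG : WF al be D G) (p : Pt) (η : Env) : |cf μ s A G 0 0 J p η| ≤ D / J.card := by
  have hD : 0 ≤ D := (abs_nonneg _).trans (hG.bd (fun _ => 0) fun _ => 0)
  exact abs_fld hD J (abs_pm_le hD (hG.bd η) _ _)

theorem abs_CF_le (hG : WF al be D G) (hJ0 : J.Nonempty) (η : Env) (S : Px Q) : |CF μ s N Q A G J η S| ≤ D := by
  have hD : 0 ≤ D := (abs_nonneg _).trans (hG.bd (fun _ => 0) fun _ => 0)
  exact T73.abs_Cf_vis (pa := pz) (J := JZ J) vis_nq (fun p hp => fst_mem_JZ hp) (JZ_ne hJ0) hD η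
    (fun p _ => by
      rw [card_JZ]
      exact abs_cf_le hG p η) S

theorem meas_CF [Nonempty (Px Q)] (hA : WF al be D' A) (hG : WF al be D G) : Measurable fun η => CF μ s N Q A G J η :=
  meas_Cf (fun p _ => (meas_pm hA.meas hG.meas 0 p.2).const_mul _) (nq N)

/-! ### Observables -/

section Obsv

variable {X : Type*} {m : ℕ}

theorem Obs_mulfix {Ψ : Env → (Fin m → X) → ℝ} {D0 : ℝ} (h : Obs Ψ D0) {φ : (Fin m → X) → ℝ} (h0 : ∀ x, 0 ≤ φ x) (h1 : ∀ x, φ x ≤ 1) :
    Obs (fun η x => |Ψ η x| * φ x) D0 := by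
  refine ⟨measurable_pi_lambda _ fun x => (((measurable_pi_apply x).comp h.meas).abs).mul_const _, fun η x => ?_⟩
  rw [abs_mul, abs_abs, abs_of_nonneg (h0 x)]
  calc |Ψ η x| * φ x ≤ |Ψ η x| * 1 := mul_le_mul_of_nonneg_left (h1 x) (abs_nonneg _)
    _ = |Ψ η x| := mul_one _
    _ ≤ D0 := h.bd η x

theorem Obs_tail {Ψ : Env → (Fin m → X) → ℝ} {D0 : ℝ} (h : Obs Ψ D0) : Obs (fun η (x : Fin (m + 1) → X) => Ψ η (Fin.tail x)) D0 :=
  ⟨measurable_pi_lambda _ fun x => (measurable_pi_apply (Fin.tail x)).comp h.meas, fun η x => h.bd η _⟩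

end Obsv

/-! ### The insertion -/

section Ins

variable [Nonempty (Px Q)] {m : ℕ}

open Classical in
/-- The event of the new replica: the shadow `x 0` leaves the tubes of the boxes of the old ones. -/
def far57 (N : ℕ) (sl R : ℝ) (m0 : ℤ) (J : Finset ℕ) (x : Fin (m + 1) → Px Q) : ℝ :=
  if OutB pz sl R m0 (JZ J) (fun k => bx pz R m0 N (Fin.tail x k)) (x 0) then 1 else 0

open Classical in
/-- The event that the path is not straight over the slab. -/
def bend57 (sl R : ℝ) (m0 : ℤ) (J : Finset ℕ) (S : Px Q) : ℝ := if Str pz sl R m0 (JZ J) S then 0 else 1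

omit [Nonempty (Px Q)] in
theorem far57_nonneg (sl R : ℝ) (m0 : ℤ) (J : Finset ℕ) (x : Fin (m + 1) → Px Q) : 0 ≤ far57 N sl R m0 J x := by
  unfold far57
  split_ifs <;> norm_num

omit [Nonempty (Px Q)] in
theorem far57_le_one (sl R : ℝ) (m0 : ℤ) (J : Finset ℕ) (x : Fin (m + 1) → Px Q) : far57 N sl R m0 J x ≤ 1 := by
  unfold far57
  split_ifs <;> norm_num

omit [Nonempty (Px Q)] in
theorem bend57_nonneg (sl R : ℝ) (m0 : ℤ) (J : Finset ℕ) (S : Px Q) : 0 ≤ bend57 sl R m0 J S := by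
  unfold bend57
  split_ifs <;> norm_num

omit [Nonempty (Px Q)] in
theorem bend57_le_one (sl R : ℝ) (m0 : ℤ) (J : Finset ℕ) (S : Px Q) : bend57 sl R m0 J S ≤ 1 := by
  unfold bend57
  split_ifs <;> norm_num

variable {f f' : ℝ → ℝ}

/-- **THE INSERTION OF A FORWARD SLAB FIELD IN A PLAN.** -/
theorem ins_box57 [IsProbabilityMeasure μ] (P : Plan (Px Q) m) (h : DenLaw μ f f') {K θ0 : ℝ} (hs : SG μ (sc f f') K θ0)
    (hA : WF al be D' A) (hG : WF al be D G) (hJ : ∀ r ∈ J, be < r ∧ r ≤ N) (hJ0 : J.Nonempty)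
    {Ψ : Env → (Fin m → Px Q) → ℝ} {D0 : ℝ} (hΨ : Obs Ψ D0)
    (hbl : ∀ q ∈ sS J N, ∀ (η : Env) (x : ℝ), Ψ (Function.update η q x) = Ψ η)
    {sl R : ℝ} (hR : 1 ≤ R) {m0 : ℤ} (hm0 : m0 ≤ N) {t a : ℝ} (ht : 0 < t) (ha : 0 ≤ a) (htM : t * (D / J.card) ≤ θ0) :
    |∫ η, I52.ins P (lA μ s N Q A η) (CF μ s N Q A G J η) (Ψ η) ∂(law μ)| ≤
      a * ∫ η, I52.ev P (lA μ s N Q A η) (fun x => |Ψ η x|) ∂(law μ) +
      ((N + 1 : ℕ) : ℝ) ^ m * tail1 K D0 t a (7 * m * R * D ^ 2 / J.card) +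
      (D * ∑ i, ∫ η, I52.ev P (lA μ s N Q A η) (fun x => |Ψ η x| * bend57 sl R m0 J (x i)) ∂(law μ) +
      D * ∑ i, ∫ η, I52.ev (P.sh i) (lA μ s N Q A η) (fun x => |Ψ η (Fin.tail x)| * far57 N sl R m0 J x) ∂(law μ)) := by
  classical
  have hD : 0 ≤ D := (abs_nonneg _).trans (hG.bd (fun _ => 0) fun _ => 0)
  have hJc : (0 : ℝ) < J.card := Nat.cast_pos.2 hJ0.card_pos
  have hSJ : ∀ p ∈ sS J N, p.1 ∈ JZ J := fun p hp => fst_mem_JZ hp
  have hcb : ∀ (η : Env), ∀ p ∈ sS J N, |cf μ s A G 0 0 J p η| ≤ D / (JZ J).card := fun η p _ => by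
    rw [card_JZ]
    exact abs_cf_le hG p η
  have sl1 : SlD false (sS J N) (cf μ s A G 0 0 J) (D / J.card) (chT sl R m0 : (Fin m → Fin (N + 1)) → Pt → ℝ)
      (7 * m * R * D ^ 2 / J.card) := by
    refine ⟨df_cf hA hG 0 (fun r hr => (hJ r hr).1) N, div_nonneg hD hJc.le, fun β p => T73.chT_nonneg β p,
      fun β p => T73.chT_le_one β p, fun β η => ?_⟩
    have h1 := T73.QV_chT (sl := sl) (m0 := m0) hSJ hR (JZ_ne hJ0) η (hcb η) β
    rw [Fintype.card_fin, card_JZ] at h1
    exact h1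
  have hw : Wt (sS J N) (fun η => lA μ s N Q A η) (nq N) 1 := Wt_lA hA fun p hp => by
    obtain ⟨r, hr, z, _, rfl⟩ := mem_sS.1 hp
    have := (hJ r hr).1
    right
    show (be : ℤ) < (r : ℤ)
    exact_mod_cast this
  have mC : Measurable fun η => CF μ s N Q A G J η := meas_CF hA hG
  have k := planOne_blind (χ := (chT sl R m0 : (Fin m → Fin (N + 1)) → Pt → ℝ)) P h hs sl1 hw hΨ hbl mC
    (fun η S => abs_CF_le hG hJ0 η S) (fun S => bx pz R m0 N S) ht ha htM
  have hcard : (Fintype.card (Fin m → Fin (N + 1)) : ℝ) = ((N + 1 : ℕ) : ℝ) ^ m := by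
    rw [Fintype.card_fun, Fintype.card_fin, Fintype.card_fin, Nat.cast_pow]
  rw [hcard] at k
  refine k.trans (add_le_add le_rfl ?_)
  -- the far part
  obtain ⟨Rr, hRr⟩ : ∃ Rr : (Fin m → Fin (N + 1)) → Env → Px Q → ℝ,
      Rr = fun β η => H19.Cf (sS J N) (cut' (chT sl R m0 β) (cf μ s A G 0 0 J)) (nq N) η := ⟨_, rfl⟩
  have e1 : ∀ (β : Fin m → Fin (N + 1)) (η : Env),
      CF μ s N Q A G J η - H19.Cf (sS J N) (cut (chT sl R m0 β) (cf μ s A G 0 0 J)) (nq N) η = Rr β η := fun β η => by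
    unfold CF
    rw [Cf_split (chT sl R m0 β) (sS J N) (cf μ s A G 0 0 J) (nq N) η, hRr]
    abel
  have mR : ∀ β, Measurable fun η => Rr β η := fun β => by
    rw [hRr]
    refine meas_Cf (fun p _ => ?_) (nq N)
    unfold cut'
    exact ((meas_pm hA.meas hG.meas 0 p.2).const_mul _).const_mul _
  have bR : ∀ β η S, |Rr β η S| ≤ D * (if OutB pz sl R m0 (JZ J) β S then 1 else 0) := fun β η S => by
    rw [hRr]
    exact T73.abs_far_le vis_nq hSJ (JZ_ne hJ0) hD η (hcb η) β S
  have bR' : ∀ β η S, |Rr β η S| ≤ D := fun β η S => by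
    refine (bR β η S).trans ?_
    split_ifs
    · rw [mul_one]
    · rw [mul_zero]
      exact hD
  have iI : ∀ β, Integrable (fun η => I52.ins P (lA μ s N Q A η) (Rr β η) (lcG (fun S => bx pz R m0 N S) β (Ψ η))) (law μ) :=
    fun β => int_ins P (hΨ.lc _ β) (mR β) (bR' β) hw.meas
  have o1 : ∀ i, Obs (fun η (x : Fin m → Px Q) => |Ψ η x| * bend57 sl R m0 J (x i)) D0 := fun i =>
    Obs_mulfix hΨ (fun x => bend57_nonneg sl R m0 J (x i)) fun x => bend57_le_one sl R m0 J (x i)
  have o2 : Obs (fun η (x : Fin (m + 1) → Px Q) => |Ψ η (Fin.tail x)| * far57 N sl R m0 J x) D0 :=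
    Obs_mulfix (Obs_tail hΨ) (fun x => far57_nonneg sl R m0 J x) fun x => far57_le_one sl R m0 J x
  have i1 : ∀ i, Integrable (fun η => I52.ev P (lA μ s N Q A η) (fun x => |Ψ η x| * bend57 sl R m0 J (x i))) (law μ) :=
    fun i => int_evP P (o1 i) hw.meas
  have i2 : ∀ i, Integrable (fun η => I52.ev (P.sh i) (lA μ s N Q A η) (fun x => |Ψ η (Fin.tail x)| * far57 N sl R m0 J x))
      (law μ) := fun i => int_evP (P.sh i) o2 hw.meas
  calc ∑ β : Fin m → Fin (N + 1), |∫ η, I52.ins P (lA μ s N Q A η)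
        (CF μ s N Q A G J η - H19.Cf (sS J N) (cut (chT sl R m0 β) (cf μ s A G 0 0 J)) (nq N) η)
        (lcG (fun S => bx pz R m0 N S) β (Ψ η)) ∂(law μ)|
      ≤ ∑ β : Fin m → Fin (N + 1), ∫ η, |I52.ins P (lA μ s N Q A η) (Rr β η)
        (lcG (fun S => bx pz R m0 N S) β (Ψ η))| ∂(law μ) := by
        refine sum_le_sum fun β _ => ?_
        simp_rw [e1]
        exact abs_integral_le_integral_abs
    _ = ∫ η, ∑ β : Fin m → Fin (N + 1), |I52.ins P (lA μ s N Q A η) (Rr β η)
        (lcG (fun S => bx pz R m0 N S) β (Ψ η))| ∂(law μ) := (integral_finsetSum _ fun β _ => (iI β).abs).symm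
    _ ≤ ∫ η, (D * ∑ i, I52.ev P (lA μ s N Q A η) (fun x => |Ψ η x| * bend57 sl R m0 J (x i)) +
        D * ∑ i, I52.ev (P.sh i) (lA μ s N Q A η) (fun x => |Ψ η (Fin.tail x)| * far57 N sl R m0 J x)) ∂(law μ) := by
        refine integral_mono (integrable_finsetSum _ fun β _ => (iI β).abs)
          (((integrable_finsetSum _ fun i _ => i1 i).const_mul D).add ((integrable_finsetSum _ fun i _ => i2 i).const_mul D))
          fun η => ?_
        refine (sum_abs_ins_lc P (lA μ s N Q A η) (fun S => bx pz R m0 N S) (fun β => Rr β η) (Ψ η)).trans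
          (add_le_add ?_ ?_)
        · rw [mul_sum]
          refine sum_le_sum fun i _ => ?_
          rw [← I52.ev_smul]
          refine I52.ev_mono P _ fun x => ?_
          have h1 := bR (fun k => bx pz R m0 N (x k)) η (x i)
          have h2 : D * (if OutB pz sl R m0 (JZ J) (fun k => bx pz R m0 N (x k)) (x i) then (1 : ℝ) else 0) ≤
              D * bend57 sl R m0 J (x i) := by
            refine mul_le_mul_of_nonneg_left ?_ hD
            unfold bend57
            by_cases h3 : Str pz sl R m0 (JZ J) (x i)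
            · rw [if_pos h3, if_neg (T73.not_OutB (i := i) hR (pz_nonneg _ _) (pz_le hm0) rfl h3)]
            · rw [if_neg h3]
              split_ifs <;> norm_num
          calc |Ψ η x| * |Rr (fun k => bx pz R m0 N (x k)) η (x i)|
              ≤ |Ψ η x| * (D * bend57 sl R m0 J (x i)) := mul_le_mul_of_nonneg_left (h1.trans h2) (abs_nonneg _)
            _ = D * (|Ψ η x| * bend57 sl R m0 J (x i)) := by ring
        · rw [mul_sum]
          refine sum_le_sum fun i _ => ?_
          rw [← I52.ev_smul]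
          refine I52.ev_mono _ _ fun x => ?_
          have h1 := bR (fun k => bx pz R m0 N (Fin.tail x k)) η (x 0)
          calc |Ψ η (Fin.tail x)| * |Rr (fun k => bx pz R m0 N (Fin.tail x k)) η (x 0)|
              ≤ |Ψ η (Fin.tail x)| * (D * far57 N sl R m0 J x) := mul_le_mul_of_nonneg_left h1 (abs_nonneg _)
            _ = D * (|Ψ η (Fin.tail x)| * far57 N sl R m0 J x) := by ring
    _ = _ := by
        rw [integral_add ((integrable_finsetSum _ fun i _ => i1 i).const_mul D)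
          ((integrable_finsetSum _ fun i _ => i2 i).const_mul D), integral_const_mul, integral_const_mul,
          integral_finsetSum _ fun i _ => i1 i, integral_finsetSum _ fun i _ => i2 i]

end Ins

/-! ### The choice of the parameters -/

/-- **The choice of `t` and `a`**: `t = θ / sqrt Q`, `a = L sqrt Q`; the tail is at most `4 D (sqrt Q / θ) e^(K θ² - θ L / 2)`. -/
theorem tail_num57 {K D0 θ L q : ℝ} (hq : 0 < q) (hθ : 0 < θ) :
    tail1 K D0 (θ / Real.sqrt q) (L * Real.sqrt q) q = 4 * D0 * (Real.sqrt q / θ) * Real.exp (K * θ ^ 2 - θ * L / 2) := by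
  have hs : 0 < Real.sqrt q := Real.sqrt_pos.2 hq
  unfold tail1
  have e1 : θ / Real.sqrt q * (L * Real.sqrt q) / 2 = θ * L / 2 := by
    field_simp
  have e2 : K * (θ / Real.sqrt q) ^ 2 * q = K * θ ^ 2 := by
    rw [div_pow, Real.sq_sqrt hq.le]
    field_simp
  rw [e1, e2, sub_eq_add_neg, Real.exp_add]
  field_simp
  ring

end

end Pool.Agent.W_7d29a1_C0.InT57
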