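import Pool.Agent.W_7d29a1_C0.Ins52

/-!
CURV0 (MP_7d29a1_pr), leaf T.d: the REMAINDER of a slab step for any plan of replicas (`Ins52`). `CF w J pm χ g` is the path
functional of the slab `J` (`pm r` = what is behind the row `r`, `χ r` = the cut at the boxes): the average over the rows of
`χ * E[g | pm r]`. The difference `g - CF` at a replica of a plan is one more replica `z`, drawn given `pm r` of that replica,
with `g z ≠ g x` (micro tie which closes in the slab), or the replica is outside of the boxes. For a replica before which the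
observable is blind the difference has the mean zero. (helper90)
-/

set_option autoImplicit false
set_option linter.unusedSectionVars false
set_option linter.unusedVariables false

namespace Pool.W7d29a1.C0.R90

open Finset Pool.W7d29a1.C0 Pool.W7d29a1.C0.I52 Pool.W7d29a1.C0.VT31

noncomputable section

variable {X : Type*} [Fintype X] [Nonempty X] [DecidableEq X] {Y Y' : Type*} [DecidableEq Y] [DecidableEq Y']

/-- The path functional of the slab `J`. -/
def CF (w : X → ℝ) (J : Finset ℕ) (pm : ℕ → X → Y) (χ : ℕ → X → ℝ) (g : X → ℝ) (S : X) : ℝ :=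
  (J.card : ℝ)⁻¹ * ∑ r ∈ J, χ r S * cE w (pm r) g S

theorem cE_sub_const (w : X → ℝ) (p : X → Y) (g : X → ℝ) (a : ℝ) (S : X) :
    cE w p (fun z => a - g z) S = a - cE w p g S := by
  have e : (fun z => a - g z) = (fun _ => a) - g := rfl
  rw [e, cE_sub, Pi.sub_apply, cE_of_meas w (h := fun _ => a) fun _ _ _ => rfl]

/-- The absolute value of a conditional mean. -/
theorem abs_cE_le_abs (w : X → ℝ) (p : X → Y) (h : X → ℝ) (S : X) : |cE w p h S| ≤ cE w p (fun z => |h z|) S := by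
  rw [cE_eq_av, cE_eq_av]
  exact abs_av_le w _ h

theorem avg_split {J : Finset ℕ} (hJ : J.Nonempty) (a : ℝ) (u v : ℕ → ℝ) :
    a - (J.card : ℝ)⁻¹ * ∑ r ∈ J, u r * v r = (J.card : ℝ)⁻¹ * ∑ r ∈ J, (u r * (a - v r) + (1 - u r) * a) := by
  have h0 : (J.card : ℝ) ≠ 0 := Nat.cast_ne_zero.2 (card_pos.2 hJ).ne'
  have e : ∑ r ∈ J, (u r * (a - v r) + (1 - u r) * a) = J.card * a - ∑ r ∈ J, u r * v r := by
    rw [← nsmul_eq_mul, ← sum_const, ← sum_sub_distrib]
    exact sum_congr rfl fun r _ => by ring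
  rw [e, mul_sub, ← mul_assoc, inv_mul_cancel₀ h0, one_mul]

/-- **The remainder, pathwise**: one more replica given `pm r`, or outside of the boxes. -/
theorem abs_sub_CF_le {w : X → ℝ} {J : Finset ℕ} (hJ : J.Nonempty) (pm : ℕ → X → Y) {χ : ℕ → X → ℝ}
    (h0 : ∀ r S, 0 ≤ χ r S) (h1 : ∀ r S, χ r S ≤ 1) (g : X → ℝ) (S : X) :
    |g S - CF w J pm χ g S| ≤ (J.card : ℝ)⁻¹ *
      ∑ r ∈ J, (χ r S * cE w (pm r) (fun z => |g S - g z|) S + (1 - χ r S) * |g S|) := by
  unfold CF
  rw [avg_split hJ, abs_mul, abs_of_nonneg (inv_nonneg.2 (Nat.cast_nonneg _))]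
  refine mul_le_mul_of_nonneg_left ?_ (inv_nonneg.2 (Nat.cast_nonneg _))
  refine (abs_sum_le_sum_abs _ _).trans (sum_le_sum fun r _ => (abs_add_le _ _).trans (add_le_add ?_ ?_))
  · rw [abs_mul, abs_of_nonneg (h0 r S), ← cE_sub_const]
    exact mul_le_mul_of_nonneg_left (abs_cE_le_abs _ _ _ _) (h0 r S)
  · rw [abs_mul, abs_of_nonneg (by linarith [h1 r S])]

/-- **The remainder in a plan**: at the replica `k` of any plan `P` the absolute difference costs one more replica `z` (index `0`),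
drawn given `pm r` of the replica `k`, which has another value of `g`; or the replica `k` is outside of the boxes. The cut may
depend on all the replicas (`β` = their boxes). -/
theorem ev_abs_sub_CF_le {m : ℕ} (P : Plan X m) (w : X → ℝ) {J : Finset ℕ} (hJ : J.Nonempty) (pm : ℕ → X → Y)
    {χ : (Fin m → X) → ℕ → X → ℝ} (h0 : ∀ x r S, 0 ≤ χ x r S) (h1 : ∀ x r S, χ x r S ≤ 1) (g : X → ℝ)
    {Φ : (Fin m → X) → ℝ} (hΦ : ∀ x, 0 ≤ Φ x) (k : Fin m) :
    ev P w (fun x => Φ x * |g (x k) - CF w J pm (χ x) g (x k)|) ≤ (J.card : ℝ)⁻¹ * ∑ r ∈ J,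
      (ev (P.gi (pm r) k) w (fun y => Φ (Fin.tail y) * (χ (Fin.tail y) r (y k.succ) * |g (y k.succ) - g (y 0)|)) +
        ev P w (fun x => Φ x * ((1 - χ x r (x k)) * |g (x k)|))) := by
  have e : ∀ r, ev (P.gi (pm r) k) w (fun y => Φ (Fin.tail y) * (χ (Fin.tail y) r (y k.succ) * |g (y k.succ) - g (y 0)|)) =
      ev P w fun x => Φ x * (χ x r (x k) * cE w (pm r) (fun z => |g (x k) - g z|) (x k)) := fun r => by
    unfold Plan.gi
    rw [ev_cons]
    refine ev_congr P w fun x => ?_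
    rw [cE_eq_av, ← av_smul, ← av_smul]
    refine av_congr w _ fun s _ => ?_
    rw [Fin.tail_cons, Fin.cons_succ, Fin.cons_zero]
  have e2 : (J.card : ℝ)⁻¹ * ∑ r ∈ J,
      (ev (P.gi (pm r) k) w (fun y => Φ (Fin.tail y) * (χ (Fin.tail y) r (y k.succ) * |g (y k.succ) - g (y 0)|)) +
        ev P w (fun x => Φ x * ((1 - χ x r (x k)) * |g (x k)|))) =
      ev P w fun x => Φ x * ((J.card : ℝ)⁻¹ *
        ∑ r ∈ J, (χ x r (x k) * cE w (pm r) (fun z => |g (x k) - g z|) (x k) + (1 - χ x r (x k)) * |g (x k)|)) := by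
    have e3 : ∀ r ∈ J, (ev (P.gi (pm r) k) w (fun y => Φ (Fin.tail y) *
        (χ (Fin.tail y) r (y k.succ) * |g (y k.succ) - g (y 0)|)) + ev P w (fun x => Φ x * ((1 - χ x r (x k)) * |g (x k)|))) =
        ev P w fun x => Φ x * (χ x r (x k) * cE w (pm r) (fun z => |g (x k) - g z|) (x k)) +
          Φ x * ((1 - χ x r (x k)) * |g (x k)|) := fun r _ => by
      rw [e r, ev_add]
    rw [sum_congr rfl e3, ← ev_sum, ← ev_smul]
    refine ev_congr P w fun x => ?_
    rw [mul_sum, mul_sum, mul_sum]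
    exact sum_congr rfl fun r _ => by ring
  rw [e2]
  exact ev_mono P w fun x => mul_le_mul_of_nonneg_left (abs_sub_CF_le hJ pm (h0 x) (h1 x) g (x k)) (hΦ x)

/-! ### Exact zeros -/

theorem Mp_one_mul {q : X → Y'} {p : X → Y} (h : Crs q p) {φ : X → ℝ} (hφ : Mp p φ) : Mp p φ := hφ

/-- **Tower**: given anything coarser than all the `pm r` the uncut difference has the mean zero, also against a function of `pm r`. -/
theorem cE_mul_sub_CF {w : X → ℝ} {J : Finset ℕ} (hJ : J.Nonempty) {pm : ℕ → X → Y} {q : X → Y'}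
    (hq : ∀ r ∈ J, Crs q (pm r)) {φ : X → ℝ} (hφ : ∀ r ∈ J, Mp (pm r) φ) (g : X → ℝ) (S : X) :
    cE w q (fun z => φ z * (g z - CF w J pm (fun _ _ => 1) g z)) S = 0 := by
  have h0 : (J.card : ℝ) ≠ 0 := Nat.cast_ne_zero.2 (card_pos.2 hJ).ne'
  have e1 : (fun z => φ z * (g z - CF w J pm (fun _ _ => 1) g z)) =
      (J.card : ℝ)⁻¹ • ∑ r ∈ J, (φ * g - φ * cE w (pm r) g) := by
    funext z
    unfold CF
    rw [avg_split hJ, Pi.smul_apply, Finset.sum_apply, smul_eq_mul, mul_left_comm, mul_sum]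
    congr 1
    exact sum_congr rfl fun r _ => by
      rw [Pi.sub_apply, Pi.mul_apply, Pi.mul_apply]
      ring
  rw [e1, cE_smul, cE_sum, Pi.smul_apply, Finset.sum_apply, sum_eq_zero, smul_zero]
  intro r hr
  rw [cE_sub, Pi.sub_apply, ← cE_pull w (hφ r hr), cE_tower w (hq r hr), sub_self]

theorem cE_sub_CF {w : X → ℝ} {J : Finset ℕ} (hJ : J.Nonempty) {pm : ℕ → X → Y} {q : X → Y'}
    (hq : ∀ r ∈ J, Crs q (pm r)) (g : X → ℝ) (S : X) :
    cE w q (fun z => g z - CF w J pm (fun _ _ => 1) g z) S = 0 := by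
  have h := cE_mul_sub_CF (w := w) hJ hq (φ := fun _ => 1) (fun _ _ _ _ _ => rfl) g S
  simpa only [one_mul] using h

/-- The difference at the last replica of a plan, which is drawn given something coarser than the `pm r` (or free: `q` constant);
the observable sees this replica only through `pm r`. -/
theorem ev_last_zero {m : ℕ} (P : Plan X m) (w : X → ℝ) {J : Finset ℕ} (hJ : J.Nonempty) {pm : ℕ → X → Y} {q : X → Y'}
    (hq : ∀ r ∈ J, Crs q (pm r)) (i : Fin m) (g : X → ℝ) {Ψ : (Fin (m + 1) → X) → ℝ}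
    (hΨ : ∀ x, ∀ r ∈ J, Mp (pm r) fun s => Ψ (Fin.cons s x)) :
    ev (P.gi q i) w (fun y => Ψ y * (g (y 0) - CF w J pm (fun _ _ => 1) g (y 0))) = 0 := by
  unfold Plan.gi
  rw [ev_cons]
  have h : ∀ x : Fin m → X, (av w (univ.filter fun s => q s = q (x i)) fun s =>
      Ψ (Fin.cons s x) * (g ((Fin.cons s x : Fin (m + 1) → X) 0) -
        CF w J pm (fun _ _ => 1) g ((Fin.cons s x : Fin (m + 1) → X) 0))) = 0 := fun x => by
    rw [← cE_eq_av]
    simp only [Fin.cons_zero]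
    exact cE_mul_sub_CF hJ hq (fun r hr => hΨ x r hr) g (x i)
  rw [ev_congr P w h]
  exact ev_const P w 0

theorem ev_last_zero_free {m : ℕ} (P : Plan X m) (w : X → ℝ) {J : Finset ℕ} (hJ : J.Nonempty) {pm : ℕ → X → Y}
    (g : X → ℝ) {Ψ : (Fin (m + 1) → X) → ℝ} (hΨ : ∀ x, ∀ r ∈ J, Mp (pm r) fun s => Ψ (Fin.cons s x)) :
    ev P.fr w (fun y => Ψ y * (g (y 0) - CF w J pm (fun _ _ => 1) g (y 0))) = 0 := by
  unfold Plan.fr
  rw [ev_cons]
  have h : ∀ x : Fin m → X, (av w univ fun s =>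
      Ψ (Fin.cons s x) * (g ((Fin.cons s x : Fin (m + 1) → X) 0) -
        CF w J pm (fun _ _ => 1) g ((Fin.cons s x : Fin (m + 1) → X) 0))) = 0 := fun x => by
    have e := cE_mul_sub_CF (w := w) hJ (q := fun _ : X => ()) (fun r _ => fun _ _ _ => rfl)
      (φ := fun s => Ψ (Fin.cons s x)) (fun r hr => hΨ x r hr) g (Classical.arbitrary X)
    rw [cE_eq_av] at e
    simp only [Fin.cons_zero]
    rw [← e]
    congr 1
    ext s
    simp
  rw [ev_congr P w h]
  exact ev_const P w 0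

/-- The cut changes the functional only outside of the boxes. -/
theorem abs_CF_sub_le {w : X → ℝ} (J : Finset ℕ) (pm : ℕ → X → Y) {χ : ℕ → X → ℝ}
    (h1 : ∀ r S, χ r S ≤ 1) {g : X → ℝ} {M : ℝ} (hg : ∀ S, |g S| ≤ M) (S : X) :
    |CF w J pm (fun _ _ => 1) g S - CF w J pm χ g S| ≤ (J.card : ℝ)⁻¹ * ∑ r ∈ J, (1 - χ r S) * M := by
  unfold CF
  rw [← mul_sub, ← sum_sub_distrib, abs_mul, abs_of_nonneg (inv_nonneg.2 (Nat.cast_nonneg _))]
  refine mul_le_mul_of_nonneg_left ?_ (inv_nonneg.2 (Nat.cast_nonneg _))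
  refine (abs_sum_le_sum_abs _ _).trans (sum_le_sum fun r _ => ?_)
  rw [← sub_mul, abs_mul, abs_of_nonneg (by linarith [h1 r S])]
  refine mul_le_mul_of_nonneg_left ?_ (by linarith [h1 r S])
  refine (abs_cE_le_abs w (pm r) g S).trans ?_
  have h := cE_mono w (pm r) (f := fun z => |g z|) (g := fun _ => M) hg S
  rwa [cE_of_meas w (h := fun _ => M) fun _ _ _ => rfl] at h

end

end Pool.W7d29a1.C0.R90
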