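import Pool.Agent.W_7d29a1_C0.Join41P

/-!
CURV0 (MP_7d29a1_pr), GS one kick, G8: JOINING BEHIND THE SLAB, THE LEFT SIDE (helper41). Mirror of `rb_right41`: slab behind the row
`m1` (towards larger rows), join window `[z, m1]`, `p r = pJ r N` = everything before the row `r` (and the pinned end), `Do β`, `Dt` functionals of the rows `≥ m1`.
-/

set_option autoImplicit false
set_option linter.unusedSectionVars false
set_option linter.unusedVariables false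

namespace Pool.W7d29a1.C0.H41

open Finset
open Pool.W7d29a1.C0 (gz gm gz_pos gz_ne gm_nonneg gm_mono gm_const gm_add gm_smul)
open Pool.W7d29a1.C0.VT31
open Pool.Agent.W_7d29a1_C0.Swap57 (cE2 cE2_mul gm2)
open Pool.Agent.W_7d29a1_F Pool.Agent.W_7d29a1_X Pool.Agent.W_7d29a1_C0.Mod92
open Pool.Agent.W_7d29a1_C0.NM82 (Hd HdAll Lk_field Lk_mono)
open Pool.Agent.W_7d29a1_C0.Swap57 (SwQ Lk Wk NM NM_of NI NI_nonneg)

noncomputable section

variable {Q : Finset (Finset ℕ)} [SwQ Q] [Nonempty (Px Q)] {w : Px Q → ℝ} {N : ℕ}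

/-- The mean given everything before the row `r`, of a functional of the rows `≥ r`, is a function of the position at `r`. -/
theorem Lk_back41 (hE : ∀ S S' : Px Q, ps S N = ps S' N) {r : ℕ} (hr : r ≤ N) (hw : Wk r r N N w) {g : Px Q → ℝ}
    (hg : Lk r N g) : Lk r r (cE w (pJ r N) g) := fun S S' h =>
  cE_ends41 hr hw hg (h r le_rfl le_rfl) (hE S S')

/-- The mirror of `T`. -/
theorem Lk_TTl41 (hE : ∀ S S' : Px Q, ps S N = ps S' N) {m : ℕ} (hm : m ≤ N) (hw : Wk m m N N w) {g : Px Q → ℝ}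
    (hg : Lk m N g) : Lk m m fun S => cE2 w (pJ m N) (fun z z' => |g z - g z'|) S S := by
  have k : ∀ φ : Px Q → ℝ, Lk m N φ → Lk m m (cE w (pJ m N) φ) := fun φ h => Lk_back41 hE hm hw h
  intro S S' h
  show cE w (pJ m N) (fun z => cE w (pJ m N) (fun z' => |g z - g z'|) S) S =
    cE w (pJ m N) (fun z => cE w (pJ m N) (fun z' => |g z - g z'|) S') S'
  have e1 : (fun z => cE w (pJ m N) (fun z' => |g z - g z'|) S) = fun z => cE w (pJ m N) (fun z' => |g z - g z'|) S' := by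
    funext z
    exact k (fun z' => |g z - g z'|) (fun T T' hT => by simp only [hg T T' hT]) S S' h
  rw [e1]
  refine k _ (fun T T' hT => ?_) S S' h
  show cE w (pJ m N) (fun z' => |g T - g z'|) S' = cE w (pJ m N) (fun z' => |g T' - g z'|) S'
  rw [hg T T' hT]

variable {β : Type*} [DecidableEq β] {cls : Px Q → Px Q → ℝ} {F : Px Q → ℝ} {c' d' m1 z : ℕ}

open Classical in
/-- **G8, THE LEFT SIDE.** -/
theorem rb_left41 (hE : ∀ S S' : Px Q, ps S N = ps S' N) (h1 : c' ≤ z) (h2 : z ≤ m1) (h3 : m1 ≤ d') (hN : d' ≤ N)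
    (hw : ∀ r, z ≤ r → r ≤ m1 → Wk r r N N w) (hw' : Wk c' c' d' d' w) (bx : Px Q → β)
    (I : Finset (β × β))
    {Do : β × β → Px Q → ℝ} {Do1 : β → Px Q → ℝ} {Dt : Px Q → ℝ}
    (hD0 : ∀ be t, 0 ≤ Do be t) (hD1 : ∀ be t, Do be t ≤ 1) (hDl : ∀ be t, Do be t ≤ Do1 be.1 t)
    (hDr : ∀ be t, Do be t ≤ Do1 be.2 t) (hT0 : ∀ t, 0 ≤ Dt t) (hT1 : ∀ t, Dt t ≤ 1) (hLo : ∀ b, Lk m1 N (Do1 b))
    (hLt : Lk m1 N Dt) (c0 : ∀ x y, 0 ≤ cls x y) (c2 : ∀ x y, cls x y ≤ NI z m1 x y) (cs : ∀ x y, cls x y = cls y x)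
    (F0 : ∀ x, 0 ≤ F x) (F1 : ∀ x, F x ≤ 1) (hF : Mp (pJ c' d') F) {q q0 q2 : ℝ} (hq : 0 < q) (h0 : 0 < q0) (hq2 : 0 ≤ q2)
    {Bad : β × β → Prop} [DecidablePred Bad] (hBad : ∀ be, Bad be → q < gm w (Do be) ∨ q < gm w Dt) :
    ∑ be ∈ I, (if Bad be then gm w (fun x => (if bx x = be.1 then 1 else 0) *
      cE w (pJ c' d') (fun y => cls x y * if bx y = be.2 then 1 else 0) x * F x) else 0) ≤
      2 * gm w (fun x => (if q * q0 / (3 * ((m1 + 1 - z : ℕ) : ℝ)) < cE w (pJ z N) (Do1 (bx x)) x then 1 else 0) *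
        cE w (pJ c' d') (cls x) x * F x) +
        2 * gm w (fun x => (if q * q0 / (3 * ((m1 + 1 - z : ℕ) : ℝ)) < cE w (pJ z N) Dt x then 1 else 0) *
          cE w (pJ c' d') (cls x) x * F x) +
          gm w (fun x => (if E3 w (NI z m1) (q0 * q2 * (q / 3)) x then 1 else 0) * F x) +
            (2 * (((m1 + 1 - z : ℕ) : ℝ) * ((d' + 1) * q0)) + (d' + 1) * (d' + 1) * q0 + q2) := by
  have hm : ∀ r ∈ Icc z m1, z ≤ r ∧ r ≤ m1 := fun r hr => mem_Icc.1 hr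
  have hu : ∀ D : Px Q → ℝ, Lk m1 N D → ∀ r ∈ Icc z m1, ∀ x y, ps x r = ps y r →
      cE w (pJ r N) D x = cE w (pJ r N) D y := fun D hD r hr x y h =>
    cE_ends41 ((hm r hr).2.trans (h3.trans hN)) (hw r (hm r hr).1 (hm r hr).2) (Lk_mono (hm r hr).2 le_rfl hD) h (hE x y)
  have key := rb_abs41 (w := w) (R := Icc z m1) (v := fun r S => ps S r) (K := NI z m1) (p := fun r => pJ (Q := Q) r N)
    (pz := pJ (Q := Q) z N) (p' := pJ (Q := Q) c' d') (cls := cls) (F := F) bx I (nonempty_Icc.2 h2) (NI_alt41 z m1)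
    (NI_nonneg z m1) (NI_le_one41 z m1) (fun r hr => crs_pJ (hm r hr).1 le_rfl) (fun r hr x y h => ps_of_le h le_rfl)
    hD0 hD1 hDl hDr hT0 hT1 (fun b => hu _ (hLo b)) (hu _ hLt)
    c0 c2 cs F0 F1 hF (T := Icc (0 : ℤ) d') (fun r hr x => ps_mem41 ((hm r hr).2.trans h3) x)
    (e := fun x => (ps x c', ps x d')) (T' := Icc (0 : ℤ) d' ×ˢ Icc (0 : ℤ) d')
    (fun x => mem_product.2 ⟨ps_mem41 (h1.trans (h2.trans h3)) x, ps_mem41 le_rfl x⟩) hq h0 hq2
    (fun x s t h => cE_ends41 (h1.trans (h2.trans h3)) hw' (Lk_mono h1 h3 (Lk_UK41 w z m1 (q / 3) x))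
      (congrArg Prod.fst h) (congrArg Prod.snd h)) (Bad := Bad) hBad
  rw [card_product, Nat.card_Icc] at key
  push_cast at key
  rw [card_Icc41] at key
  exact_mod_cast key

end

end Pool.W7d29a1.C0.H41
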