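import Pool.Agent.W_7d29a1_C0.Join41
import Pool.Agent.W_7d29a1_C0.NM82
import Pool.Agent.W_7d29a1_C0.E4T32

/-!
CURV0 (MP_7d29a1_pr), GS one kick, G8: JOINING BEHIND THE SLAB, PATHS, RIGHT SIDE (helper41, plan 75297, 75807 of helper52).
`rb_right41` = `rb_abs41` for the paths: slab in front of the row `m1`, join window `[m1, z]`, `B' = [c', d')`; `cE_ends41` = the two
sided Markov property (positions at both ends of the block); `Lk_TT41`, `Lk_ind41` = `T` of helper73 is a function of the position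
at `m1`, so `1(δ ≤ T)` is an admissible `Dt`.
-/

set_option autoImplicit false
set_option linter.unusedSectionVars false
set_option linter.unusedVariables false

namespace Pool.W7d29a1.C0.H41

open Finset
open Pool.W7d29a1.C0 (gz gm gz_pos gz_ne gm_nonneg gm_mono gm_const gm_add gm_smul)
open Pool.W7d29a1.C0.VT31
open Pool.Agent.W_7d29a1_C0.Swap57 (cE2 cE2_mul gm2)
open Pool.Agent.W_7d29a1_C0.E4T32 (cE_congr_fib)

noncomputable section

/-! ### Paths -/

section Paths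

open Pool.Agent.W_7d29a1_F Pool.Agent.W_7d29a1_X Pool.Agent.W_7d29a1_C0.Mod92
open Pool.Agent.W_7d29a1_C0.NM82 (Hd HdAll Lk_field Lk_mono)
open Pool.Agent.W_7d29a1_C0.Swap57 (SwQ Lk Wk NM NM_of NI NI_nonneg)

variable {Q : Finset (Finset ℕ)} [SwQ Q] [Nonempty (Px Q)] {w : Px Q → ℝ}

/-- **The two sided Markov property**: the conditional mean given the outside of `[c, d)` of a functional of the rows `[c, d]` is the
same for two paths with the same positions in the rows `c` and `d`. -/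
theorem cE_ends41 {c d : ℕ} (hcd : c ≤ d) (hw : Wk c c d d w) {g : Px Q → ℝ} (hg : Lk c d g) {S S' : Px Q}
    (hc : ps S c = ps S' c) (hd : ps S d = ps S' d) : cE w (pJ c d) g S = cE w (pJ c d) g S' := by
  have h1 := Pool.Agent.W_7d29a1_C0.E4T32.swapId hcd hw g hg S S'
  have h2 : cE2 w (pJ c d) (fun z z' => NM c c d d z z' * (g z - g z')) S S' = 0 := by
    have e : cE2 w (pJ c d) (fun z z' => NM c c d d z z' * (g z - g z')) S S' = cE2 w (pJ c d) (fun _ _ => 0) S S' := by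
      unfold cE2
      refine cE_congr_fib fun z hz => cE_congr_fib fun z' hz' => ?_
      have a1 : ps z c = ps z' c := by
        rw [ps_of_le hz le_rfl, ps_of_le hz' le_rfl]
        exact hc
      have a2 : ps z d = ps z' d := by
        rw [ps_of_ge hz le_rfl, ps_of_ge hz' le_rfl]
        exact hd
      show NM c c d d z z' * (g z - g z') = 0
      rw [NM_of (show Pool.Agent.W_7d29a1_C0.Swap57.Mt c c d d z z' from ⟨⟨c, le_rfl, le_rfl, a1⟩, d, le_rfl, le_rfl, a2⟩),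
        zero_mul]
    rw [e]
    have h3 := cE2_mul w (pJ (Q := Q) c d) 0 (fun _ _ => 0) S S'
    simpa using h3
  rw [h2] at h1
  linarith

omit [SwQ Q] [Nonempty (Px Q)] in
theorem NI_le_one41 (i j : ℕ) (S S' : Px Q) : NI i j S S' ≤ 1 := by
  unfold NI
  split_ifs <;> norm_num

omit [SwQ Q] [Nonempty (Px Q)] in
theorem NI_alt41 (i j : ℕ) (S S' : Px Q) : NI i j S S' = 1 ∨ ∃ r ∈ Icc i j, ps S' r = ps S r := by
  by_cases h : ∀ k, i ≤ k → k ≤ j → ps S k ≠ ps S' k
  · left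
    unfold NI
    exact if_pos h
  · right
    push Not at h
    obtain ⟨k, h1, h2, h3⟩ := h
    exact ⟨k, mem_Icc.2 ⟨h1, h2⟩, h3.symm⟩

omit [SwQ Q] [Nonempty (Px Q)] in
theorem Lk_NI41 (i j : ℕ) (S : Px Q) : Lk i j (NI i j S) := by
  intro T T' h
  unfold NI
  have e : (∀ k, i ≤ k → k ≤ j → ps S k ≠ ps T k) ↔ ∀ k, i ≤ k → k ≤ j → ps S k ≠ ps T' k :=
    forall_congr' fun k => forall_congr' fun h1 => forall_congr' fun h2 => by rw [h k h1 h2]
  simp only [e]

omit [SwQ Q] [Nonempty (Px Q)] in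
theorem NI_congr41 {i j : ℕ} {T T' : Px Q} (h : ∀ k, i ≤ k → k ≤ j → ps T k = ps T' k) (S : Px Q) :
    NI i j T S = NI i j T' S := by
  unfold NI
  have e : (∀ k, i ≤ k → k ≤ j → ps T k ≠ ps S k) ↔ ∀ k, i ≤ k → k ≤ j → ps T' k ≠ ps S k :=
    forall_congr' fun k => forall_congr' fun h1 => forall_congr' fun h2 => by rw [h k h1 h2]
  simp only [e]

omit [SwQ Q] in
theorem Lk_UK41 (w : Px Q → ℝ) (i j : ℕ) (q' : ℝ) (S : Px Q) : Lk i j (UK w (NI i j) q' S) := by
  intro T T' h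
  unfold UK
  rw [Lk_NI41 i j S T T' h]
  have e : (fun t => NI i j S t * NI i j T t) = fun t => NI i j S t * NI i j T' t := by
    funext t
    rw [NI_congr41 h t]
  rw [e]

omit [SwQ Q] [Nonempty (Px Q)] in
open Classical in
/-- Indicators of functionals of some rows. -/
theorem Lk_ind41 {al be : ℕ} {T : Px Q → ℝ} (hT : Lk al be T) (dl : ℝ) : Lk al be fun S => if dl ≤ T S then (1 : ℝ) else 0 :=
  fun S S' h => by simp only [hT S S' h]

/-- `T` of helper73 (the mean difference of two replicas given everything behind `m`) is a function of the position in the row `m`. -/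
theorem Lk_TT41 {m : ℕ} (hw : HdAll m w) {g : Px Q → ℝ} (hg : Lk 0 m g) :
    Lk m m fun S => cE2 w (pJ 0 m) (fun z z' => |g z - g z'|) S S := by
  have k : ∀ φ : Px Q → ℝ, Lk 0 m φ → Lk m m (cE w (pJ 0 m) φ) := fun φ h => Lk_field hw h le_rfl
  intro S S' h
  show cE w (pJ 0 m) (fun z => cE w (pJ 0 m) (fun z' => |g z - g z'|) S) S =
    cE w (pJ 0 m) (fun z => cE w (pJ 0 m) (fun z' => |g z - g z'|) S') S'
  have e1 : (fun z => cE w (pJ 0 m) (fun z' => |g z - g z'|) S) = fun z => cE w (pJ 0 m) (fun z' => |g z - g z'|) S' := by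
    funext z
    exact k (fun z' => |g z - g z'|) (fun T T' hT => by simp only [hg T T' hT]) S S' h
  rw [e1]
  refine k _ (fun T T' hT => ?_) S S' h
  show cE w (pJ 0 m) (fun z' => |g T - g z'|) S' = cE w (pJ 0 m) (fun z' => |g T' - g z'|) S'
  rw [hg T T' hT]

variable {β : Type*} [DecidableEq β] {cls : Px Q → Px Q → ℝ} {F : Px Q → ℝ} {c' d' m1 z : ℕ}

omit [SwQ Q] [Nonempty (Px Q)] in
theorem ps_mem41 {d' r : ℕ} (hr : r ≤ d') (S : Px Q) : ps S r ∈ Icc (0 : ℤ) d' :=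
  mem_Icc.2 ⟨ps_nonneg S r, (ps_le S r).trans (by exact_mod_cast hr)⟩

theorem card_Icc41 (d' : ℕ) : ((Icc (0 : ℤ) d').card : ℝ) = d' + 1 := by
  rw [Int.card_Icc]
  simp

open Classical in
/-- **G8, THE RIGHT SIDE**: slab in front of the row `m1`, join window `[m1, z]`, `B' = [c', d')`. `Do β` (out of the boxes) and `Dt`
(the paths with `T ≥ δ`) are functionals of the rows `≤ m1`. -/
theorem rb_right41 (h1 : c' ≤ m1) (h2 : m1 ≤ z) (h3 : z ≤ d') (hw : HdAll m1 w) (hw' : Wk c' c' d' d' w) (bx : Px Q → β)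
    (I : Finset (β × β))
    {Do : β × β → Px Q → ℝ} {Do1 : β → Px Q → ℝ} {Dt : Px Q → ℝ}
    (hD0 : ∀ be t, 0 ≤ Do be t) (hD1 : ∀ be t, Do be t ≤ 1) (hDl : ∀ be t, Do be t ≤ Do1 be.1 t)
    (hDr : ∀ be t, Do be t ≤ Do1 be.2 t) (hT0 : ∀ t, 0 ≤ Dt t) (hT1 : ∀ t, Dt t ≤ 1) (hLo : ∀ b, Lk 0 m1 (Do1 b))
    (hLt : Lk 0 m1 Dt) (c0 : ∀ x y, 0 ≤ cls x y) (c2 : ∀ x y, cls x y ≤ NI m1 z x y) (cs : ∀ x y, cls x y = cls y x)
    (F0 : ∀ x, 0 ≤ F x) (F1 : ∀ x, F x ≤ 1) (hF : Mp (pJ c' d') F) {q q0 q2 : ℝ} (hq : 0 < q) (h0 : 0 < q0) (hq2 : 0 ≤ q2)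
    {Bad : β × β → Prop} [DecidablePred Bad] (hBad : ∀ be, Bad be → q < gm w (Do be) ∨ q < gm w Dt) :
    ∑ be ∈ I, (if Bad be then gm w (fun x => (if bx x = be.1 then 1 else 0) *
      cE w (pJ c' d') (fun y => cls x y * if bx y = be.2 then 1 else 0) x * F x) else 0) ≤
      2 * gm w (fun x => (if q * q0 / (3 * ((z + 1 - m1 : ℕ) : ℝ)) < cE w (pJ 0 z) (Do1 (bx x)) x then 1 else 0) *
        cE w (pJ c' d') (cls x) x * F x) +
        2 * gm w (fun x => (if q * q0 / (3 * ((z + 1 - m1 : ℕ) : ℝ)) < cE w (pJ 0 z) Dt x then 1 else 0) *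
          cE w (pJ c' d') (cls x) x * F x) +
          gm w (fun x => (if E3 w (NI m1 z) (q0 * q2 * (q / 3)) x then 1 else 0) * F x) +
            (2 * (((z + 1 - m1 : ℕ) : ℝ) * ((d' + 1) * q0)) + (d' + 1) * (d' + 1) * q0 + q2) := by
  have hm : ∀ r ∈ Icc m1 z, m1 ≤ r ∧ r ≤ z := fun r hr => mem_Icc.1 hr
  have key := rb_abs41 (w := w) (R := Icc m1 z) (v := fun r S => ps S r) (K := NI m1 z) (p := fun r => pJ (Q := Q) 0 r)
    (pz := pJ (Q := Q) 0 z) (p' := pJ (Q := Q) c' d') (cls := cls) (F := F) bx I (nonempty_Icc.2 h2) (NI_alt41 m1 z)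
    (NI_nonneg m1 z) (NI_le_one41 m1 z) (fun r hr => crs_pJ le_rfl (hm r hr).2) (fun r hr x y h => ps_of_ge h le_rfl)
    hD0 hD1 hDl hDr hT0 hT1
    (fun b r hr x y h => Lk_field hw (hLo b) (hm r hr).1 x y fun i hi hi' => by
      have : i = r := le_antisymm hi' hi
      rw [this]
      exact h)
    (fun r hr x y h => Lk_field hw hLt (hm r hr).1 x y fun i hi hi' => by
      have : i = r := le_antisymm hi' hi
      rw [this]
      exact h)
    c0 c2 cs F0 F1 hF (T := Icc (0 : ℤ) d') (fun r hr x => ps_mem41 ((hm r hr).2.trans h3) x)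
    (e := fun x => (ps x c', ps x d')) (T' := Icc (0 : ℤ) d' ×ˢ Icc (0 : ℤ) d')
    (fun x => mem_product.2 ⟨ps_mem41 (h1.trans (h2.trans h3)) x, ps_mem41 le_rfl x⟩) hq h0 hq2
    (fun x s t h => cE_ends41 (h1.trans (h2.trans h3)) hw' (Lk_mono h1 h3 (Lk_UK41 w m1 z (q / 3) x))
      (congrArg Prod.fst h) (congrArg Prod.snd h)) (Bad := Bad) hBad
  rw [card_product, Nat.card_Icc] at key
  push_cast at key
  rw [card_Icc41] at key
  exact_mod_cast key

end Paths

end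

end Pool.W7d29a1.C0.H41
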