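import Pool.Agent.W_7d29a1_C0.Join41L
import Pool.Agent.W_7d29a1_C0.GSB52
import Pool.Agent.W_7d29a1_C0.Bd73C

/-!
CURV0 (MP_7d29a1_pr), GS one kick, G8 FOR `RBs` OF GSB52 (helper41): `RBs_right41`, `RBs_left41` (any boxes: `out1 b` = out of the box
`b`, a statement on the rows of one side), `RBs_OutB_right41`, `RBs_OutB_left41` (the tubes of helper73 / helper19, literally): `RBs` is
at most twice the mass of the paths `x` for which the bad event is robust given what is behind the join window, times the own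
mass, times `F = cE2 w pk' NMA x x`, plus `E3 F`, plus a tiny number. `Mp_F41` : `F` of another block is a function of the outside of `B'`.
-/

set_option autoImplicit false
set_option linter.unusedSectionVars false
set_option linter.unusedVariables false

namespace Pool.W7d29a1.C0.H41

open Finset
open Pool.W7d29a1.C0 (gz gm gz_pos gz_ne gm_nonneg gm_mono gm_const gm_add gm_smul)
open Pool.W7d29a1.C0.VT31
open Pool.Agent.W_7d29a1_C0.Swap57 (cE2 cE2_nonneg cE2_le_one gm2)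
open Pool.Agent.W_7d29a1_F Pool.Agent.W_7d29a1_X Pool.Agent.W_7d29a1_C0.Mod92
open Pool.Agent.W_7d29a1_C0.NM82 (Hd HdAll Lk_field Lk_mono)
open Pool.Agent.W_7d29a1_C0.Swap57 (SwQ Lk Wk NM NM_of NI NI_nonneg)
open Pool.Agent.W_7d29a1_C0.KickT32 (ib)
open Pool.W7d29a1.C0.I52 (rb)
open Pool.W7d29a1.C0.Bd73 (BadF TT)
open Pool.W7d29a1.C0.GSB52 (RBb RBs)
open Pool.W7d29a1.C0.T73 (OutB pm JZ pm_nat mem_JZ)

noncomputable section

variable {Q : Finset (Finset ℕ)} [Nonempty (Px Q)] {w : Px Q → ℝ} {N : ℕ}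

/-- `F` of another block is a function of the outside of `B' = [c', d')`. -/
theorem Mp_F41 [SwQ Q] {ck dk c' d' : ℕ} (hk : ck ≤ dk) (hd : dk ≤ c' ∨ d' ≤ ck) (hw : Wk ck ck dk dk w) {NMA : Px Q → Px Q → ℝ}
    (l1 : ∀ y, Lk ck dk fun x => NMA x y) (l2 : ∀ x, Lk ck dk fun y => NMA x y) :
    Mp (pJ c' d') fun x => cE2 w (pJ ck dk) NMA x x := by
  intro x x' h
  have a1 : ps x ck = ps x' ck := hd.elim (fun h1 => ps_of_le h (hk.trans h1)) fun h1 => ps_of_ge h h1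
  have a2 : ps x dk = ps x' dk := hd.elim (fun h1 => ps_of_le h h1) fun h1 => ps_of_ge h (h1.trans hk)
  show cE w (pJ ck dk) (fun z => cE w (pJ ck dk) (NMA z) x) x = cE w (pJ ck dk) (fun z => cE w (pJ ck dk) (NMA z) x') x'
  have e1 : (fun z => cE w (pJ ck dk) (NMA z) x) = fun z => cE w (pJ ck dk) (NMA z) x' :=
    funext fun z => cE_ends41 hk hw (l2 z) a1 a2
  rw [e1]
  refine cE_ends41 hk hw (fun T T' hT => ?_) a1 a2
  have e2 : NMA T = NMA T' := funext fun y => l1 y T T' hT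
  rw [e2]

/-- The same block. -/
theorem Mp_Fs41 {Y : Type*} [DecidableEq Y] (p' : Px Q → Y) (NMA : Px Q → Px Q → ℝ) : Mp p' fun x => cE2 w p' NMA x x := by
  intro x x' h
  show cE w p' (fun z => cE w p' (NMA z) x) x = cE w p' (fun z => cE w p' (NMA z) x') x'
  have e1 : (fun z => cE w p' (NMA z) x) = fun z => cE w p' (NMA z) x' := funext fun z => cE_meas w p' _ x x' h
  rw [e1]
  exact cE_meas w p' _ x x' h

/-- Masses of indicators at the strict and at the weak threshold. -/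
theorem gm_le41 (w : Px Q → ℝ) {q1 : ℝ} (f : Px Q → ℝ) {a b : Px Q → ℝ} (ha : ∀ x, 0 ≤ a x) (hb : ∀ x, 0 ≤ b x) :
    gm w (fun x => (if q1 < f x then 1 else 0) * a x * b x) ≤ gm w (fun x => (if q1 ≤ f x then 1 else 0) * (a x * b x)) := by
  refine gm_mono w fun x => ?_
  rw [mul_assoc]
  refine mul_le_mul_of_nonneg_right ?_ (mul_nonneg (ha x) (hb x))
  by_cases h : q1 < f x
  · rw [if_pos h, if_pos h.le]
  · rw [if_neg h]
    split_ifs <;> norm_num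

variable {K : Type*} [DecidableEq K] {c' d' m1 z : ℕ} {g : Px Q → ℝ} {cls NMA : Px Q → Px Q → ℝ}
  {out : K × K → Px Q → Prop} {out1 : K → Px Q → Prop} {pk' : Px Q → Finset ℕ × ℕ}

open Classical in
/-- **G8 FOR `RBs`, THE RIGHT SIDE.** -/
theorem RBs_right41 [SwQ Q] (h1 : c' ≤ m1) (h2 : m1 ≤ z) (h3 : z ≤ d') (hw : HdAll m1 w) (hw' : Wk c' c' d' d' w) (hg : Lk 0 m1 g)
    (ho : ∀ be S, out be S → out1 be.1 S ∧ out1 be.2 S)
    (hL : ∀ b (S S' : Px Q), (∀ i, i ≤ m1 → ps S i = ps S' i) → (out1 b S ↔ out1 b S'))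
    (c0 : ∀ x y, 0 ≤ cls x y) (c2 : ∀ x y, cls x y ≤ NI m1 z x y) (cs : ∀ x y, cls x y = cls y x)
    (n0 : ∀ x y, 0 ≤ NMA x y) (n1 : ∀ x y, NMA x y ≤ 1) (hF : Mp (pJ c' d') fun x => cE2 w pk' NMA x x)
    (bx : Px Q → K) (I : Finset K) {δ q q0 q2 : ℝ} (hq : 0 < q) (h0 : 0 < q0) (hq2 : 0 ≤ q2) :
    RBs w (pJ 0 m1) g out δ q (pJ c' d') pk' cls bx I NMA ≤
      2 * gm w (fun x => (if q * q0 / (3 * ((z + 1 - m1 : ℕ) : ℝ)) ≤ cE w (pJ 0 z) (fun S => if out1 (bx x) S then 1 else 0) x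
        then 1 else 0) * (cE w (pJ c' d') (cls x) x * cE2 w pk' NMA x x)) +
        2 * gm w (fun x => (if q * q0 / (3 * ((z + 1 - m1 : ℕ) : ℝ)) ≤ cE w (pJ 0 z) (fun S => if δ ≤ TT w (pJ 0 m1) g S then 1
          else 0) x then 1 else 0) * (cE w (pJ c' d') (cls x) x * cE2 w pk' NMA x x)) +
          gm w (fun x => (if E3 w (NI m1 z) (q0 * q2 * (q / 3)) x then 1 else 0) * cE2 w pk' NMA x x) +
            (2 * (((z + 1 - m1 : ℕ) : ℝ) * ((d' + 1) * q0)) + (d' + 1) * (d' + 1) * q0 + q2) := by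
  have i0 : ∀ (P : Prop) [Decidable P], (0 : ℝ) ≤ if P then 1 else 0 := fun P _ => by split_ifs <;> norm_num
  have i1 : ∀ (P : Prop) [Decidable P], (if P then (1 : ℝ) else 0) ≤ 1 := fun P _ => by split_ifs <;> norm_num
  have key := rb_right41 (w := w) (cls := cls) (F := fun x => cE2 w pk' NMA x x) h1 h2 h3 hw hw' bx (I ×ˢ I)
    (Do := fun be S => if out be S then 1 else 0) (Do1 := fun b S => if out1 b S then 1 else 0)
    (Dt := fun S => if δ ≤ TT w (pJ 0 m1) g S then 1 else 0) (fun _ _ => i0 _) (fun _ _ => i1 _)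
    (fun be S => by
      by_cases h : out be S
      · rw [if_pos h, if_pos (ho be S h).1]
      · rw [if_neg h]
        exact i0 _)
    (fun be S => by
      by_cases h : out be S
      · rw [if_pos h, if_pos (ho be S h).2]
      · rw [if_neg h]
        exact i0 _)
    (fun _ => i0 _) (fun _ => i1 _)
    (fun b S S' h => by simp only [hL b S S' fun i hi => h i (Nat.zero_le i) hi])
    (Lk_ind41 (Lk_mono (Nat.zero_le m1) le_rfl (Lk_TT41 hw hg)) δ) c0 c2 cs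
    (fun x => cE2_nonneg w pk' n0 x x) (fun x => cE2_le_one w pk' n1 x x) hF hq h0 hq2
    (Bad := fun be => BadF w (pJ 0 m1) g (out be) δ q) fun be h => h
  have a1 := gm_le41 w (q1 := q * q0 / (3 * ((z + 1 - m1 : ℕ) : ℝ))) (fun x => cE w (pJ 0 z) (fun S => if out1 (bx x) S then 1 else 0) x)
    (a := fun x => cE w (pJ c' d') (cls x) x) (b := fun x => cE2 w pk' NMA x x) (fun x => cE_nonneg w _ (c0 x) x)
    (fun x => cE2_nonneg w pk' n0 x x)
  have a2 := gm_le41 w (q1 := q * q0 / (3 * ((z + 1 - m1 : ℕ) : ℝ))) (fun x => cE w (pJ 0 z) (fun S => if δ ≤ TT w (pJ 0 m1) g S then 1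
    else 0) x) (a := fun x => cE w (pJ c' d') (cls x) x) (b := fun x => cE2 w pk' NMA x x) (fun x => cE_nonneg w _ (c0 x) x)
    (fun x => cE2_nonneg w pk' n0 x x)
  have a3 : RBs w (pJ 0 m1) g out δ q (pJ c' d') pk' cls bx I NMA = ∑ be ∈ I ×ˢ I, (if BadF w (pJ 0 m1) g (out be) δ q then
      gm w (fun x => (if bx x = be.1 then 1 else 0) *
        cE w (pJ c' d') (fun y => cls x y * if bx y = be.2 then 1 else 0) x * cE2 w pk' NMA x x) else 0) := rfl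
  rw [a3]
  linarith

open Classical in
/-- **G8 FOR `RBs`, THE LEFT SIDE.** -/
theorem RBs_left41 [SwQ Q] (hE : ∀ S S' : Px Q, ps S N = ps S' N) (h1 : c' ≤ z) (h2 : z ≤ m1) (h3 : m1 ≤ d') (hN : d' ≤ N)
    (hw : ∀ r, z ≤ r → r ≤ m1 → Wk r r N N w) (hw' : Wk c' c' d' d' w) (hg : Lk m1 N g)
    (ho : ∀ be S, out be S → out1 be.1 S ∧ out1 be.2 S)
    (hL : ∀ b (S S' : Px Q), (∀ i, m1 ≤ i → i ≤ N → ps S i = ps S' i) → (out1 b S ↔ out1 b S'))
    (c0 : ∀ x y, 0 ≤ cls x y) (c2 : ∀ x y, cls x y ≤ NI z m1 x y) (cs : ∀ x y, cls x y = cls y x)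
    (n0 : ∀ x y, 0 ≤ NMA x y) (n1 : ∀ x y, NMA x y ≤ 1) (hF : Mp (pJ c' d') fun x => cE2 w pk' NMA x x)
    (bx : Px Q → K) (I : Finset K) {δ q q0 q2 : ℝ} (hq : 0 < q) (h0 : 0 < q0) (hq2 : 0 ≤ q2) :
    RBs w (pJ m1 N) g out δ q (pJ c' d') pk' cls bx I NMA ≤
      2 * gm w (fun x => (if q * q0 / (3 * ((m1 + 1 - z : ℕ) : ℝ)) ≤ cE w (pJ z N) (fun S => if out1 (bx x) S then 1 else 0) x
        then 1 else 0) * (cE w (pJ c' d') (cls x) x * cE2 w pk' NMA x x)) +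
        2 * gm w (fun x => (if q * q0 / (3 * ((m1 + 1 - z : ℕ) : ℝ)) ≤ cE w (pJ z N) (fun S => if δ ≤ TT w (pJ m1 N) g S then 1
          else 0) x then 1 else 0) * (cE w (pJ c' d') (cls x) x * cE2 w pk' NMA x x)) +
          gm w (fun x => (if E3 w (NI z m1) (q0 * q2 * (q / 3)) x then 1 else 0) * cE2 w pk' NMA x x) +
            (2 * (((m1 + 1 - z : ℕ) : ℝ) * ((d' + 1) * q0)) + (d' + 1) * (d' + 1) * q0 + q2) := by
  have i0 : ∀ (P : Prop) [Decidable P], (0 : ℝ) ≤ if P then 1 else 0 := fun P _ => by split_ifs <;> norm_num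
  have i1 : ∀ (P : Prop) [Decidable P], (if P then (1 : ℝ) else 0) ≤ 1 := fun P _ => by split_ifs <;> norm_num
  have hmN : m1 ≤ N := h3.trans hN
  have key := rb_left41 (w := w) (cls := cls) (F := fun x => cE2 w pk' NMA x x) hE h1 h2 h3 hN hw hw' bx (I ×ˢ I)
    (Do := fun be S => if out be S then 1 else 0) (Do1 := fun b S => if out1 b S then 1 else 0)
    (Dt := fun S => if δ ≤ TT w (pJ m1 N) g S then 1 else 0) (fun _ _ => i0 _) (fun _ _ => i1 _)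
    (fun be S => by
      by_cases h : out be S
      · rw [if_pos h, if_pos (ho be S h).1]
      · rw [if_neg h]
        exact i0 _)
    (fun be S => by
      by_cases h : out be S
      · rw [if_pos h, if_pos (ho be S h).2]
      · rw [if_neg h]
        exact i0 _)
    (fun _ => i0 _) (fun _ => i1 _)
    (fun b S S' h => by simp only [hL b S S' h])
    (Lk_ind41 (Lk_mono le_rfl hmN (Lk_TTl41 hE hmN (hw m1 h2 le_rfl) hg)) δ) c0 c2 cs
    (fun x => cE2_nonneg w pk' n0 x x) (fun x => cE2_le_one w pk' n1 x x) hF hq h0 hq2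
    (Bad := fun be => BadF w (pJ m1 N) g (out be) δ q) fun be h => h
  have a1 := gm_le41 w (q1 := q * q0 / (3 * ((m1 + 1 - z : ℕ) : ℝ))) (fun x => cE w (pJ z N) (fun S => if out1 (bx x) S then 1 else 0) x)
    (a := fun x => cE w (pJ c' d') (cls x) x) (b := fun x => cE2 w pk' NMA x x) (fun x => cE_nonneg w _ (c0 x) x)
    (fun x => cE2_nonneg w pk' n0 x x)
  have a2 := gm_le41 w (q1 := q * q0 / (3 * ((m1 + 1 - z : ℕ) : ℝ))) (fun x => cE w (pJ z N) (fun S => if δ ≤ TT w (pJ m1 N) g S then 1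
    else 0) x) (a := fun x => cE w (pJ c' d') (cls x) x) (b := fun x => cE2 w pk' NMA x x) (fun x => cE_nonneg w _ (c0 x) x)
    (fun x => cE2_nonneg w pk' n0 x x)
  have a3 : RBs w (pJ m1 N) g out δ q (pJ c' d') pk' cls bx I NMA = ∑ be ∈ I ×ˢ I, (if BadF w (pJ m1 N) g (out be) δ q then
      gm w (fun x => (if bx x = be.1 then 1 else 0) *
        cE w (pJ c' d') (fun y => cls x y * if bx y = be.2 then 1 else 0) x * cE2 w pk' NMA x x) else 0) := rfl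
  rw [a3]
  linarith

/-! ### The tubes -/

section Tube

variable {σ R : ℝ} {k0 n : ℕ} {J : Finset ℕ} {bx : Px Q → Fin (n + 1)} {I : Finset (Fin (n + 1))}

omit [Nonempty (Px Q)] in
/-- Out of the tube of the pair of boxes: out of the tube of each box. -/
theorem OutB_pair41 (be : Fin (n + 1) × Fin (n + 1)) (S : Px Q) (h : OutB pm σ R (k0 : ℤ) (JZ J) ![be.1, be.2] S) :
    OutB pm σ R (k0 : ℤ) (JZ J) (fun _ : Unit => be.1) S ∧ OutB pm σ R (k0 : ℤ) (JZ J) (fun _ : Unit => be.2) S := by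
  obtain ⟨m, hm, h1⟩ := h
  exact ⟨⟨m, hm, fun _ => h1 0⟩, ⟨m, hm, fun _ => h1 1⟩⟩

omit [Nonempty (Px Q)] in
/-- It depends on the rows of `J` only. -/
theorem OutB_congr41 (b : Fin (n + 1)) {S S' : Px Q} (h : ∀ i ∈ J, ps S i = ps S' i) :
    OutB pm σ R (k0 : ℤ) (JZ J) (fun _ : Unit => b) S ↔ OutB pm σ R (k0 : ℤ) (JZ J) (fun _ : Unit => b) S' := by
  have e : ∀ m ∈ JZ J, pm S m = pm S' m := fun m hm => by
    obtain ⟨i, hi, rfl⟩ := mem_JZ.1 hm
    rw [pm_nat, pm_nat]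
    exact h i hi
  constructor
  · rintro ⟨m, hm, h1⟩
    exact ⟨m, hm, fun i => by rw [← e m hm]; exact h1 i⟩
  · rintro ⟨m, hm, h1⟩
    exact ⟨m, hm, fun i => by rw [e m hm]; exact h1 i⟩

open Classical in
/-- **G8 FOR `RBs` WITH THE TUBES, THE RIGHT SIDE**: the slab `J` in front of the row `m1`. -/
theorem RBs_OutB_right41 [SwQ Q] (h1 : c' ≤ m1) (h2 : m1 ≤ z) (h3 : z ≤ d') (hw : HdAll m1 w) (hw' : Wk c' c' d' d' w)
    (hg : Lk 0 m1 g) (hJ : ∀ i ∈ J, i ≤ m1)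
    (c0 : ∀ x y, 0 ≤ cls x y) (c2 : ∀ x y, cls x y ≤ NI m1 z x y) (cs : ∀ x y, cls x y = cls y x)
    (n0 : ∀ x y, 0 ≤ NMA x y) (n1 : ∀ x y, NMA x y ≤ 1) (hF : Mp (pJ c' d') fun x => cE2 w pk' NMA x x)
    {δ q q0 q2 : ℝ} (hq : 0 < q) (h0 : 0 < q0) (hq2 : 0 ≤ q2) :
    RBs w (pJ 0 m1) g (fun be S => OutB pm σ R (k0 : ℤ) (JZ J) ![be.1, be.2] S) δ q (pJ c' d') pk' cls bx I NMA ≤
      2 * gm w (fun x => (if q * q0 / (3 * ((z + 1 - m1 : ℕ) : ℝ)) ≤ cE w (pJ 0 z) (fun S =>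
        if OutB pm σ R (k0 : ℤ) (JZ J) (fun _ : Unit => bx x) S then 1 else 0) x
        then 1 else 0) * (cE w (pJ c' d') (cls x) x * cE2 w pk' NMA x x)) +
        2 * gm w (fun x => (if q * q0 / (3 * ((z + 1 - m1 : ℕ) : ℝ)) ≤ cE w (pJ 0 z) (fun S => if δ ≤ TT w (pJ 0 m1) g S then 1
          else 0) x then 1 else 0) * (cE w (pJ c' d') (cls x) x * cE2 w pk' NMA x x)) +
          gm w (fun x => (if E3 w (NI m1 z) (q0 * q2 * (q / 3)) x then 1 else 0) * cE2 w pk' NMA x x) +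
            (2 * (((z + 1 - m1 : ℕ) : ℝ) * ((d' + 1) * q0)) + (d' + 1) * (d' + 1) * q0 + q2) :=
  RBs_right41 (out1 := fun b S => OutB pm σ R (k0 : ℤ) (JZ J) (fun _ : Unit => b) S) h1 h2 h3 hw hw' hg
    (fun be S h => OutB_pair41 be S h) (fun b S S' h => OutB_congr41 b fun i hi => h i (hJ i hi)) c0 c2 cs n0 n1 hF bx I hq h0 hq2

open Classical in
/-- **G8 FOR `RBs` WITH THE TUBES, THE LEFT SIDE**: the slab `J` behind the row `m1`. -/
theorem RBs_OutB_left41 [SwQ Q] (hE : ∀ S S' : Px Q, ps S N = ps S' N) (h1 : c' ≤ z) (h2 : z ≤ m1) (h3 : m1 ≤ d') (hN : d' ≤ N)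
    (hw : ∀ r, z ≤ r → r ≤ m1 → Wk r r N N w) (hw' : Wk c' c' d' d' w) (hg : Lk m1 N g) (hJ : ∀ i ∈ J, m1 ≤ i ∧ i ≤ N)
    (c0 : ∀ x y, 0 ≤ cls x y) (c2 : ∀ x y, cls x y ≤ NI z m1 x y) (cs : ∀ x y, cls x y = cls y x)
    (n0 : ∀ x y, 0 ≤ NMA x y) (n1 : ∀ x y, NMA x y ≤ 1) (hF : Mp (pJ c' d') fun x => cE2 w pk' NMA x x)
    {δ q q0 q2 : ℝ} (hq : 0 < q) (h0 : 0 < q0) (hq2 : 0 ≤ q2) :
    RBs w (pJ m1 N) g (fun be S => OutB pm σ R (k0 : ℤ) (JZ J) ![be.1, be.2] S) δ q (pJ c' d') pk' cls bx I NMA ≤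
      2 * gm w (fun x => (if q * q0 / (3 * ((m1 + 1 - z : ℕ) : ℝ)) ≤ cE w (pJ z N) (fun S =>
        if OutB pm σ R (k0 : ℤ) (JZ J) (fun _ : Unit => bx x) S then 1 else 0) x
        then 1 else 0) * (cE w (pJ c' d') (cls x) x * cE2 w pk' NMA x x)) +
        2 * gm w (fun x => (if q * q0 / (3 * ((m1 + 1 - z : ℕ) : ℝ)) ≤ cE w (pJ z N) (fun S => if δ ≤ TT w (pJ m1 N) g S then 1
          else 0) x then 1 else 0) * (cE w (pJ c' d') (cls x) x * cE2 w pk' NMA x x)) +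
          gm w (fun x => (if E3 w (NI z m1) (q0 * q2 * (q / 3)) x then 1 else 0) * cE2 w pk' NMA x x) +
            (2 * (((m1 + 1 - z : ℕ) : ℝ) * ((d' + 1) * q0)) + (d' + 1) * (d' + 1) * q0 + q2) :=
  RBs_left41 (out1 := fun b S => OutB pm σ R (k0 : ℤ) (JZ J) (fun _ : Unit => b) S) hE h1 h2 h3 hN hw hw' hg
    (fun be S h => OutB_pair41 be S h) (fun b S S' h => OutB_congr41 b fun i hi => h i (hJ i hi).1 (hJ i hi).2) c0 c2 cs n0 n1 hF bx I
    hq h0 hq2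

end Tube

end

end Pool.W7d29a1.C0.H41
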