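import Pool.Agent.W_7d29a1_C0.JoinB41
import Pool.Agent.W_7d29a1_C0.ExchF41

/-!
CURV0 (MP_7d29a1_pr), GS one kick, G8 WITH THE MASS OF THE OTHER ROW TOLD FROM THE BASE PATH (helper41). `RBs_ex_right41`,
`RBs_ex_left41`: `RBs` of GSB52 (tubes of helper73) is at most the sum over `t` of `2 gm (bad place, robust given what is behind the join
window) * own mass * M t`, plus `gm (E3 * M t)`, plus a tiny number, for every `M` with `Ex41 w c d F M` (ExchF41): same block `B`: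
`ex_one41` with `c = d = 0` (`M = 1`); same block `B'`: `ex_right41` with `(c, d) = (e1, d')`, `ex_left41` with `(c', e2)`; another block `B'`:
`ex_other41` with `(ck, dk)`. The own mass looks at the rows `[a0, a1]` of `x` and at the ends of `B' = [c', d')`.
-/

set_option autoImplicit false
set_option linter.unusedSectionVars false
set_option linter.unusedVariables false

namespace Pool.W7d29a1.C0.H41

open Finset
open Pool.W7d29a1.C0 (gz gm gz_pos gz_ne gm_nonneg gm_mono gm_const gm_add gm_smul)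
open Pool.W7d29a1.C0.VT31
open Pool.Agent.W_7d29a1_C0.Swap57 (cE2 cE2_nonneg cE2_le_one gm2)
open Pool.Agent.W_7d29a1_F Pool.Agent.W_7d29a1_X Pool.Agent.W_7d29a1_C0.Mod92
open Pool.Agent.W_7d29a1_C0.NM82 (Hd HdAll Lk_field Lk_mono)
open Pool.Agent.W_7d29a1_C0.Swap57 (SwQ Lk Wk NM NM_of NI NI_nonneg)
open Pool.W7d29a1.C0.Bd73 (BadF TT)
open Pool.W7d29a1.C0.GSB52 (RBb RBs)
open Pool.W7d29a1.C0.T73 (OutB pm JZ pm_nat mem_JZ)

noncomputable section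

variable {Q : Finset (Finset ℕ)} [Nonempty (Px Q)] {w : Px Q → ℝ} {N : ℕ}
  {c' d' c d m1 z a0 a1 : ℕ} {g : Px Q → ℝ} {cls NMA : Px Q → Px Q → ℝ} {pk' : Px Q → Finset ℕ × ℕ}

/-! ### What the weights look at -/

/-- The own mass looks at the rows of the class and at the ends of `B'`. -/
theorem Mp_own41 [SwQ Q] (hcd : c' ≤ d') (hw' : Wk c' c' d' d' w) (l1 : ∀ y, Lk a0 a1 fun x => cls x y) (l2 : ∀ x, Lk c' d' (cls x))
    (ha : a1 ≤ c ∨ d ≤ a0) (hc : c' ≤ c ∨ d ≤ c') (hd : d' ≤ c ∨ d ≤ d') :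
    Mp (pJ c d) fun x => cE w (pJ c' d') (cls x) x := by
  intro x x' h
  have e1 : cls x = cls x' := funext fun y => l1 y x x' fun i hi hi' =>
    ha.elim (fun h1 => ps_of_le h (hi'.trans h1)) fun h1 => ps_of_ge h (h1.trans hi)
  show cE w (pJ c' d') (cls x) x = cE w (pJ c' d') (cls x') x'
  rw [e1]
  exact cE_ends41 hcd hw' (l2 x') (hc.elim (fun h1 => ps_of_le h h1) fun h1 => ps_of_ge h h1)
    (hd.elim (fun h1 => ps_of_le h h1) fun h1 => ps_of_ge h h1)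

omit [Nonempty (Px Q)] in
theorem Mp_of_Lk41 {al be : ℕ} {f : Px Q → ℝ} (hf : Lk al be f) (h : be ≤ c ∨ d ≤ al) : Mp (pJ c d) f := fun x x' hx =>
  hf x x' fun i hi hi' => h.elim (fun h1 => ps_of_le hx (hi'.trans h1)) fun h1 => ps_of_ge hx (h1.trans hi)

open Classical in
/-- `E3` looks at the rows of the join window. -/
theorem Lk_E3_41 (w : Px Q → ℝ) (i j : ℕ) (q3 : ℝ) : Lk i j fun x => if E3 w (NI i j) q3 x then (1 : ℝ) else 0 := by
  intro S S' h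
  have e : E3 w (NI i j) q3 S = E3 w (NI i j) q3 S' := by
    unfold E3
    have e1 : ∀ t, NI i j S t = NI i j S' t := NI_congr41 h
    simp only [e1]
  show (if E3 w (NI i j) q3 S then (1 : ℝ) else 0) = if E3 w (NI i j) q3 S' then 1 else 0
  by_cases hE : E3 w (NI i j) q3 S
  · rw [if_pos hE, if_pos (e ▸ hE)]
  · rw [if_neg hE, if_neg fun h' => hE (e ▸ h')]

omit [Nonempty (Px Q)] in
/-- The box of `x`. -/
theorem bx_congr41 {R : ℝ} {k0 n : ℕ} (hk : k0 ≤ c ∨ d ≤ k0) {x x' : Px Q} (h : pJ c d x = pJ c d x') :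
    Pool.W7d29a1.C0.T73.bx pm R (k0 : ℤ) n x = Pool.W7d29a1.C0.T73.bx pm R (k0 : ℤ) n x' := by
  have e : pm x (k0 : ℤ) = pm x' (k0 : ℤ) := by
    rw [pm_nat, pm_nat]
    exact hk.elim (fun h1 => ps_of_le h h1) fun h1 => ps_of_ge h h1
  unfold Pool.W7d29a1.C0.T73.bx
  exact Fin.ext (by simp only [e])

omit [Nonempty (Px Q)] in
/-- Nothing is inside of the empty block. -/
theorem pJ_empty41 {x x' : Px Q} (h : pJ 0 0 x = pJ 0 0 x') : x = x' := by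
  have h1 : x.1 \ Ico 0 0 = x'.1 \ Ico 0 0 := congrArg Prod.fst h
  rw [Ico_self, sdiff_empty, sdiff_empty] at h1
  exact Subtype.ext h1

/-! ### The bad functional with masses -/

section Tube

variable {σ R : ℝ} {k0 n : ℕ} {J : Finset ℕ} {bx : Px Q → Fin (n + 1)} {I : Finset (Fin (n + 1))} {ι : Type*} [Fintype ι]
  {M : ι → Px Q → ℝ}

open Classical in
/-- **G8 WITH MASSES, THE RIGHT SIDE.** -/
theorem RBs_ex_right41 [SwQ Q] (h1 : c' ≤ m1) (h2 : m1 ≤ z) (h3 : z ≤ d') (hw : HdAll m1 w) (hw' : Wk c' c' d' d' w)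
    (hg : Lk 0 m1 g) (hJ : ∀ i ∈ J, i ≤ m1)
    (c0 : ∀ x y, 0 ≤ cls x y) (c2 : ∀ x y, cls x y ≤ NI m1 z x y) (cs : ∀ x y, cls x y = cls y x)
    (n0 : ∀ x y, 0 ≤ NMA x y) (n1 : ∀ x y, NMA x y ≤ 1) (hF : Mp (pJ c' d') fun x => cE2 w pk' NMA x x)
    (l1 : ∀ y, Lk a0 a1 fun x => cls x y) (l2 : ∀ x, Lk c' d' (cls x)) (ha : a1 ≤ c ∨ d ≤ a0) (hc : c' ≤ c ∨ d ≤ c')
    (hd : d' ≤ c ∨ d ≤ d') (hz : z ≤ c ∨ d ≤ m1) (hbx : ∀ x x', pJ c d x = pJ c d x' → bx x = bx x')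
    (hX : Ex41 w c d (fun x => cE2 w pk' NMA x x) M) {δ q q0 q2 : ℝ} (hq : 0 < q) (h0 : 0 < q0) (hq2 : 0 ≤ q2) :
    RBs w (pJ 0 m1) g (fun be S => OutB pm σ R (k0 : ℤ) (JZ J) ![be.1, be.2] S) δ q (pJ c' d') pk' cls bx I NMA ≤
      2 * ∑ t, gm w (fun x => (if q * q0 / (3 * ((z + 1 - m1 : ℕ) : ℝ)) ≤ cE w (pJ 0 z) (fun S =>
        if OutB pm σ R (k0 : ℤ) (JZ J) (fun _ : Unit => bx x) S then 1 else 0) x
        then 1 else 0) * (cE w (pJ c' d') (cls x) x * M t x)) +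
        2 * ∑ t, gm w (fun x => (if q * q0 / (3 * ((z + 1 - m1 : ℕ) : ℝ)) ≤ cE w (pJ 0 z) (fun S => if δ ≤ TT w (pJ 0 m1) g S then 1
          else 0) x then 1 else 0) * (cE w (pJ c' d') (cls x) x * M t x)) +
          ∑ t, gm w (fun x => (if E3 w (NI m1 z) (q0 * q2 * (q / 3)) x then 1 else 0) * M t x) +
            (2 * (((z + 1 - m1 : ℕ) : ℝ) * ((d' + 1) * q0)) + (d' + 1) * (d' + 1) * q0 + q2) := by
  have i0 : ∀ (P : Prop) [Decidable P], (0 : ℝ) ≤ if P then 1 else 0 := fun P _ => by split_ifs <;> norm_num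
  have key := RBs_OutB_right41 (σ := σ) (R := R) (k0 := k0) (J := J) (bx := bx) (I := I) h1 h2 h3 hw hw' hg hJ c0 c2 cs n0 n1 hF
    (δ := δ) hq h0 hq2
  have hcd : c' ≤ d' := h1.trans (h2.trans h3)
  have own0 : ∀ x, 0 ≤ cE w (pJ c' d') (cls x) x := fun x => cE_nonneg w _ (c0 x) x
  have ownM : Mp (pJ c d) fun x => cE w (pJ c' d') (cls x) x := Mp_own41 hcd hw' l1 l2 ha hc hd
  have hz' : z ≤ c ∨ d ≤ z := hz.imp id fun h => h.trans h2
  set q1 := q * q0 / (3 * ((z + 1 - m1 : ℕ) : ℝ)) with hq1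
  have fld : ∀ f : Px Q → ℝ, Lk 0 m1 f → ∀ x x', pJ c d x = pJ c d x' → cE w (pJ 0 z) f x = cE w (pJ 0 z) f x' :=
    fun f hf x x' h => Mp_of_Lk41 (Lk_field hw hf h2) hz' x x' h
  have step : ∀ A : Px Q → ℝ, (∀ x, 0 ≤ A x) → Mp (pJ c d) A →
      gm w (fun x => A x * (cE w (pJ c' d') (cls x) x * cE2 w pk' NMA x x)) ≤
        ∑ t, gm w (fun x => A x * (cE w (pJ c' d') (cls x) x * M t x)) := by
    intro A A0 hA
    have e := hX (fun x => A x * cE w (pJ c' d') (cls x) x) (fun x => mul_nonneg (A0 x) (own0 x)) (hA.mul ownM)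
    simpa only [mul_assoc] using e
  have b1 := step (fun x => if q1 ≤ cE w (pJ 0 z) (fun S => if OutB pm σ R (k0 : ℤ) (JZ J) (fun _ : Unit => bx x) S then 1 else 0) x
    then 1 else 0) (fun x => i0 _) fun x x' h => by
      have e := fld (fun S => if OutB pm σ R (k0 : ℤ) (JZ J) (fun _ : Unit => bx x') S then 1 else 0)
        (fun S S' hS => by simp only [OutB_congr41 (σ := σ) (R := R) (k0 := k0) (bx x') fun i hi => hS i (Nat.zero_le i) (hJ i hi)]) x x' h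
      simp only [hbx x x' h, e]
  have b2 := step (fun x => if q1 ≤ cE w (pJ 0 z) (fun S => if δ ≤ TT w (pJ 0 m1) g S then 1 else 0) x then 1 else 0)
    (fun x => i0 _) fun x x' h => by
      have e := fld (fun S => if δ ≤ TT w (pJ 0 m1) g S then 1 else 0)
        (Lk_ind41 (Lk_mono (Nat.zero_le m1) le_rfl (Lk_TT41 hw hg)) δ) x x' h
      simp only [e]
  have b3 := hX (fun x => if E3 w (NI m1 z) (q0 * q2 * (q / 3)) x then 1 else 0) (fun x => i0 _)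
    (Mp_of_Lk41 (Lk_E3_41 w m1 z _) hz)
  linarith

open Classical in
/-- **G8 WITH MASSES, THE LEFT SIDE.** -/
theorem RBs_ex_left41 [SwQ Q] (hE : ∀ S S' : Px Q, ps S N = ps S' N) (h1 : c' ≤ z) (h2 : z ≤ m1) (h3 : m1 ≤ d') (hN : d' ≤ N)
    (hw : ∀ r, z ≤ r → r ≤ m1 → Wk r r N N w) (hw' : Wk c' c' d' d' w) (hg : Lk m1 N g) (hJ : ∀ i ∈ J, m1 ≤ i ∧ i ≤ N)
    (c0 : ∀ x y, 0 ≤ cls x y) (c2 : ∀ x y, cls x y ≤ NI z m1 x y) (cs : ∀ x y, cls x y = cls y x)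
    (n0 : ∀ x y, 0 ≤ NMA x y) (n1 : ∀ x y, NMA x y ≤ 1) (hF : Mp (pJ c' d') fun x => cE2 w pk' NMA x x)
    (l1 : ∀ y, Lk a0 a1 fun x => cls x y) (l2 : ∀ x, Lk c' d' (cls x)) (ha : a1 ≤ c ∨ d ≤ a0) (hc : c' ≤ c ∨ d ≤ c')
    (hd : d' ≤ c ∨ d ≤ d') (hz : m1 ≤ c ∨ d ≤ z) (hbx : ∀ x x', pJ c d x = pJ c d x' → bx x = bx x')
    (hX : Ex41 w c d (fun x => cE2 w pk' NMA x x) M) {δ q q0 q2 : ℝ} (hq : 0 < q) (h0 : 0 < q0) (hq2 : 0 ≤ q2) :
    RBs w (pJ m1 N) g (fun be S => OutB pm σ R (k0 : ℤ) (JZ J) ![be.1, be.2] S) δ q (pJ c' d') pk' cls bx I NMA ≤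
      2 * ∑ t, gm w (fun x => (if q * q0 / (3 * ((m1 + 1 - z : ℕ) : ℝ)) ≤ cE w (pJ z N) (fun S =>
        if OutB pm σ R (k0 : ℤ) (JZ J) (fun _ : Unit => bx x) S then 1 else 0) x
        then 1 else 0) * (cE w (pJ c' d') (cls x) x * M t x)) +
        2 * ∑ t, gm w (fun x => (if q * q0 / (3 * ((m1 + 1 - z : ℕ) : ℝ)) ≤ cE w (pJ z N) (fun S => if δ ≤ TT w (pJ m1 N) g S then 1
          else 0) x then 1 else 0) * (cE w (pJ c' d') (cls x) x * M t x)) +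
          ∑ t, gm w (fun x => (if E3 w (NI z m1) (q0 * q2 * (q / 3)) x then 1 else 0) * M t x) +
            (2 * (((m1 + 1 - z : ℕ) : ℝ) * ((d' + 1) * q0)) + (d' + 1) * (d' + 1) * q0 + q2) := by
  have i0 : ∀ (P : Prop) [Decidable P], (0 : ℝ) ≤ if P then 1 else 0 := fun P _ => by split_ifs <;> norm_num
  have key := RBs_OutB_left41 (σ := σ) (R := R) (k0 := k0) (J := J) (bx := bx) (I := I) hE h1 h2 h3 hN hw hw' hg hJ c0 c2 cs n0 n1 hF
    (δ := δ) hq h0 hq2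
  have hcd : c' ≤ d' := h1.trans (h2.trans h3)
  have hmN : m1 ≤ N := h3.trans hN
  have own0 : ∀ x, 0 ≤ cE w (pJ c' d') (cls x) x := fun x => cE_nonneg w _ (c0 x) x
  have ownM : Mp (pJ c d) fun x => cE w (pJ c' d') (cls x) x := Mp_own41 hcd hw' l1 l2 ha hc hd
  have hz' : z ≤ c ∨ d ≤ z := hz.imp (fun h => h2.trans h) id
  set q1 := q * q0 / (3 * ((m1 + 1 - z : ℕ) : ℝ)) with hq1
  have fld : ∀ f : Px Q → ℝ, Lk m1 N f → ∀ x x', pJ c d x = pJ c d x' → cE w (pJ z N) f x = cE w (pJ z N) f x' :=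
    fun f hf x x' h => Mp_of_Lk41 (Lk_back41 hE (h2.trans hmN) (hw z le_rfl h2) (Lk_mono h2 le_rfl hf)) hz' x x' h
  have step : ∀ A : Px Q → ℝ, (∀ x, 0 ≤ A x) → Mp (pJ c d) A →
      gm w (fun x => A x * (cE w (pJ c' d') (cls x) x * cE2 w pk' NMA x x)) ≤
        ∑ t, gm w (fun x => A x * (cE w (pJ c' d') (cls x) x * M t x)) := by
    intro A A0 hA
    have e := hX (fun x => A x * cE w (pJ c' d') (cls x) x) (fun x => mul_nonneg (A0 x) (own0 x)) (hA.mul ownM)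
    simpa only [mul_assoc] using e
  have b1 := step (fun x => if q1 ≤ cE w (pJ z N) (fun S => if OutB pm σ R (k0 : ℤ) (JZ J) (fun _ : Unit => bx x) S then 1 else 0) x
    then 1 else 0) (fun x => i0 _) fun x x' h => by
      have e := fld (fun S => if OutB pm σ R (k0 : ℤ) (JZ J) (fun _ : Unit => bx x') S then 1 else 0)
        (fun S S' hS => by simp only [OutB_congr41 (σ := σ) (R := R) (k0 := k0) (bx x') fun i hi => hS i (hJ i hi).1 (hJ i hi).2]) x x' h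
      simp only [hbx x x' h, e]
  have b2 := step (fun x => if q1 ≤ cE w (pJ z N) (fun S => if δ ≤ TT w (pJ m1 N) g S then 1 else 0) x then 1 else 0)
    (fun x => i0 _) fun x x' h => by
      have e := fld (fun S => if δ ≤ TT w (pJ m1 N) g S then 1 else 0)
        (Lk_ind41 (Lk_mono le_rfl hmN (Lk_TTl41 hE hmN (hw m1 h2 le_rfl) hg)) δ) x x' h
      simp only [e]
  have b3 := hX (fun x => if E3 w (NI z m1) (q0 * q2 * (q / 3)) x then 1 else 0) (fun x => i0 _)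
    (Mp_of_Lk41 (Lk_E3_41 w z m1 _) hz)
  linarith

end Tube

end

end Pool.W7d29a1.C0.H41
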