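import Pool.Agent.W_7d29a1_C0.Ins52B

/-!
CURV0 (MP_7d29a1_pr), GS: THE KERNEL COMPARISON (helper52). `w + R` and `w` are two log weights, `|R| ≤ D`, such that the paths with
`|R| > τ` have a very small mass under `w` (`bd R τ` = their indicator). Then the averages of every plan agree up to the factor
`exp (4 m τ)` and a very small error (`kt`), provided every replica and every shadow of the plan has the law `gm` (`MG`: all the plans
built from `Plan.nil` by free replicas `Plan.fr` and by conditional replicas `Plan.gi`: `mg_nil`, `mg_fr`, `mg_gi`).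
`kt_all`: the same without the hypothesis, the other case is bounded by the sum of the two averages of `|Ψ|`.
-/

set_option autoImplicit false
set_option linter.unusedSectionVars false
set_option linter.unusedVariables false

namespace Pool.W7d29a1.C0.I52

open Finset MeasureTheory
open Pool.Agent.W_7d29a1_C0 Pool.W7d29a1.C0 Pool.W7d29a1.C0.VT31

noncomputable section

variable {X : Type*} [Fintype X] [DecidableEq X] [Nonempty X]

/-! ### The law of the replicas of a plan -/

/-- Every replica of the plan, and every shadow, has at most the law `gm w`. -/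
structure MG {m : ℕ} (P : Plan X m) (w : X → ℝ) : Prop where
  own : ∀ f : X → ℝ, (∀ s, 0 ≤ f s) → ∀ i, ev P w (fun x => f (x i)) ≤ gm w f
  shd : ∀ f : X → ℝ, (∀ s, 0 ≤ f s) → ∀ i, ev P w (fun x => av w (P.S i x) f) ≤ gm w f

theorem mg_nil (w : X → ℝ) : MG (Plan.nil : Plan X 0) w := ⟨fun _ _ i => i.elim0, fun _ _ i => i.elim0⟩

theorem mg_fr {m : ℕ} {P : Plan X m} {w : X → ℝ} (h : MG P w) : MG P.fr w := by
  have hz : ev P.fr w (fun x => (1 : ℝ)) = 1 := ev_one _ w
  refine ⟨fun f hf i => ?_, fun f hf i => ?_⟩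
  · refine Fin.cases ?_ (fun j => ?_) i
    · have e : ev P.fr w (fun x => f (x 0)) = gm w f := by
        unfold Plan.fr
        rw [ev_cons]
        simp only [Fin.cons_zero]
        rw [ev_const, gm_eq_av]
      exact e.le
    · have e : ev P.fr w (fun x => f (x j.succ)) = ev P w (fun x => f (x j)) :=
        ev_tail P (fun _ => univ) (fun _ => univ_nonempty) w fun x => f (x j)
      rw [e]
      exact h.own f hf j
  · refine Fin.cases ?_ (fun j => ?_) i
    · have e : ev P.fr w (fun x => av w (P.fr.S 0 x) f) = gm w f := by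
        have e1 : ∀ x : Fin (m + 1) → X, av w (P.fr.S 0 x) f = gm w f := fun x => (gm_eq_av w f).symm
        simp only [e1]
        exact ev_const _ w _
      exact e.le
    · have e : ev P.fr w (fun x => av w (P.fr.S j.succ x) f) = ev P w (fun x => av w (P.S j x) f) :=
        ev_tail P (fun _ => univ) (fun _ => univ_nonempty) w fun x => av w (P.S j x) f
      rw [e]
      exact h.shd f hf j

theorem mg_gi {Y : Type*} [DecidableEq Y] {m : ℕ} {P : Plan X m} {w : X → ℝ} (h : MG P w) (p : X → Y) (i₀ : Fin m) :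
    MG (P.gi p i₀) w := by
  have hf0 : ∀ f : X → ℝ, (∀ s, 0 ≤ f s) → ev P w (fun x => av w (univ.filter fun s => p s = p (x i₀)) f) ≤ gm w f := by
    intro f hf
    have e : ev P w (fun x => av w (univ.filter fun s => p s = p (x i₀)) f) = ev P w (fun x => cE w p f (x i₀)) :=
      ev_congr P w fun x => (cE_eq_av w p f (x i₀)).symm
    rw [e]
    refine (h.own (cE w p f) (fun s => cE_nonneg w p hf s) i₀).trans_eq ?_
    exact gm_cE w p f
  refine ⟨fun f hf i => ?_, fun f hf i => ?_⟩
  · refine Fin.cases ?_ (fun j => ?_) i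
    · have e : ev (P.gi p i₀) w (fun x => f (x 0)) = ev P w (fun x => av w (univ.filter fun s => p s = p (x i₀)) f) := by
        unfold Plan.gi
        rw [ev_cons]
        simp only [Fin.cons_zero]
      rw [e]
      exact hf0 f hf
    · have e : ev (P.gi p i₀) w (fun x => f (x j.succ)) = ev P w (fun x => f (x j)) :=
        ev_tail P _ _ w fun x => f (x j)
      rw [e]
      exact h.own f hf j
  · refine Fin.cases ?_ (fun j => ?_) i
    · have e : ev (P.gi p i₀) w (fun x => av w ((P.gi p i₀).S 0 x) f) =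
          ev P w (fun x => av w (univ.filter fun s => p s = p (x i₀)) f) :=
        ev_tail P _ _ w fun x => av w (univ.filter fun s => p s = p (x i₀)) f
      rw [e]
      exact hf0 f hf
    · have e : ev (P.gi p i₀) w (fun x => av w ((P.gi p i₀).S j.succ x) f) = ev P w (fun x => av w (P.S j x) f) :=
        ev_tail P _ _ w fun x => av w (P.S j x) f
      rw [e]
      exact h.shd f hf j

/-! ### Bounded changes of the weights -/

theorem zs_add (w R : X → ℝ) {A : Finset X} (h : A.Nonempty) :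
    av w A (fun s => Real.exp (R s)) = zs (w + R) A / zs w A := by
  rw [av_eq]
  congr 1
  unfold zs
  refine Finset.sum_congr rfl fun s _ => ?_
  rw [Pi.add_apply, Real.exp_add]

theorem ker_add52 (w R : X → ℝ) {A : Finset X} (h : A.Nonempty) (s : X) :
    ker (w + R) A s = ker w A s * (Real.exp (R s) / av w A fun s => Real.exp (R s)) := by
  rw [zs_add w R h]
  unfold ker
  split_ifs with hs
  · have h1 := (zs_pos w h).ne'
    have h2 := (zs_pos (w + R) h).ne'
    rw [Pi.add_apply, Real.exp_add]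
    field_simp
  · rw [zero_mul]

theorem exp_av_pos (w R : X → ℝ) {A : Finset X} (h : A.Nonempty) : 0 < av w A fun s => Real.exp (R s) := by
  rw [zs_add w R h]
  exact div_pos (zs_pos _ h) (zs_pos _ h)

theorem av_exp_ge {w R : X → ℝ} {D : ℝ} (hR : ∀ s, |R s| ≤ D) {A : Finset X} (h : A.Nonempty) :
    Real.exp (-D) ≤ av w A fun s => Real.exp (R s) := by
  rw [← av_const w h (Real.exp (-D))]
  exact av_mono w A fun s _ => Real.exp_le_exp.2 (abs_le.1 (hR s)).1

/-- A bounded change of the weights changes the means of nonnegative functions by a bounded factor. -/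
theorem av_tilt {w R : X → ℝ} {D : ℝ} (hR : ∀ s, |R s| ≤ D) {A : Finset X} (h : A.Nonempty) {f : X → ℝ} (hf : ∀ s, 0 ≤ f s) :
    av (w + R) A f ≤ Real.exp (2 * D) * av w A f := by
  unfold av
  rw [Finset.mul_sum]
  refine Finset.sum_le_sum fun s _ => ?_
  have h1 : ker (w + R) A s ≤ Real.exp (2 * D) * ker w A s := by
    rw [ker_add52 w R h, mul_comm (Real.exp (2 * D))]
    refine mul_le_mul_of_nonneg_left ?_ (ker_nonneg w A s)
    rw [div_le_iff₀ (exp_av_pos w R h)]
    calc Real.exp (R s) ≤ Real.exp D := Real.exp_le_exp.2 (abs_le.1 (hR s)).2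
      _ = Real.exp (2 * D) * Real.exp (-D) := by
        rw [← Real.exp_add]
        congr 1
        ring
      _ ≤ _ := mul_le_mul_of_nonneg_left (av_exp_ge hR h) (Real.exp_pos _).le
  calc ker (w + R) A s * f s ≤ Real.exp (2 * D) * ker w A s * f s := mul_le_mul_of_nonneg_right h1 (hf s)
    _ = _ := by ring

theorem av_tilt' {w R : X → ℝ} {D : ℝ} (hR : ∀ s, |R s| ≤ D) {A : Finset X} (h : A.Nonempty) {f : X → ℝ} (hf : ∀ s, 0 ≤ f s) :
    av w A f ≤ Real.exp (2 * D) * av (w + R) A f := by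
  have e : w = (w + R) + (fun s => -R s) := by
    funext s
    simp
  have h1 := av_tilt (w := w + R) (R := fun s => -R s) (D := D) (fun s => by rw [abs_neg]; exact hR s) h hf
  rw [← e] at h1
  exact h1

/-- The indicator of the paths where `R` is not small. -/
def bd (R : X → ℝ) (τ : ℝ) (s : X) : ℝ := if τ < |R s| then 1 else 0

theorem bd_nonneg (R : X → ℝ) (τ : ℝ) (s : X) : 0 ≤ bd R τ s := by
  unfold bd
  split_ifs <;> norm_num

theorem bd_le_one (R : X → ℝ) (τ : ℝ) (s : X) : bd R τ s ≤ 1 := by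
  unfold bd
  split_ifs <;> norm_num

theorem av_exp_le {w R : X → ℝ} {D τ : ℝ} (hR : ∀ s, |R s| ≤ D) {A : Finset X} (h : A.Nonempty) :
    (av w A fun s => Real.exp (R s)) ≤ Real.exp τ + Real.exp D * av w A (bd R τ) := by
  rw [← av_smul, ← av_const w h (Real.exp τ), ← av_add]
  refine av_mono w A fun s _ => ?_
  unfold bd
  split_ifs with hs
  · have h1 : Real.exp (R s) ≤ Real.exp D := Real.exp_le_exp.2 (abs_le.1 (hR s)).2
    have h2 := (Real.exp_pos τ).le
    linarith
  · rw [mul_zero, add_zero]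
    exact Real.exp_le_exp.2 (abs_le.1 (not_lt.1 hs)).2

theorem av_exp_ge' {w R : X → ℝ} {τ : ℝ} {A : Finset X} (h : A.Nonempty) :
    Real.exp (-τ) * (1 - av w A (bd R τ)) ≤ av w A fun s => Real.exp (R s) := by
  have e : Real.exp (-τ) * (1 - av w A (bd R τ)) = av w A fun s => Real.exp (-τ) * (1 - bd R τ s) := by
    rw [av_smul, av_sub, av_const w h]
  rw [e]
  refine av_mono w A fun s _ => ?_
  unfold bd
  split_ifs with hs
  · rw [sub_self, mul_zero]
    exact (Real.exp_pos _).le
  · rw [sub_zero, mul_one]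
    exact Real.exp_le_exp.2 (abs_le.1 (not_lt.1 hs)).1

/-- One factor of the density. -/
theorem fac_le {w R : X → ℝ} {D τ : ℝ} (hτ : 0 < τ) (hτ' : τ ≤ 1 / 4) (hD : 0 ≤ D) (hR : ∀ s, |R s| ≤ D) {A : Finset X}
    (h : A.Nonempty) (h1 : av w A (bd R τ) ≤ τ * Real.exp (-D)) {s : X} (h2 : |R s| ≤ τ) :
    Real.exp (R s) / (av w A fun s => Real.exp (R s)) ≤ Real.exp (4 * τ) ∧
      Real.exp (-(4 * τ)) ≤ Real.exp (R s) / (av w A fun s => Real.exp (R s)) := by
  have hpos := exp_av_pos w R h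
  have he : 1 + τ ≤ Real.exp τ := by
    have := Real.add_one_le_exp τ
    linarith
  have hθ : τ * Real.exp (-D) ≤ τ := mul_le_of_le_one_right hτ.le (Real.exp_le_one_iff.2 (by linarith))
  have hup : (av w A fun s => Real.exp (R s)) ≤ Real.exp (2 * τ) := by
    refine (av_exp_le (τ := τ) hR h).trans ?_
    have h3 : Real.exp D * av w A (bd R τ) ≤ τ := by
      calc Real.exp D * av w A (bd R τ) ≤ Real.exp D * (τ * Real.exp (-D)) :=
            mul_le_mul_of_nonneg_left h1 (Real.exp_pos _).le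
        _ = τ := by
          rw [Real.exp_neg]
          field_simp
    have h4 : Real.exp (2 * τ) = Real.exp τ * Real.exp τ := by
      rw [← Real.exp_add]
      congr 1
      ring
    rw [h4]
    nlinarith [Real.exp_pos τ]
  have hlo : Real.exp (-(3 * τ)) ≤ av w A fun s => Real.exp (R s) := by
    refine le_trans ?_ (av_exp_ge' (w := w) (R := R) (τ := τ) h)
    have h3 : Real.exp (-(3 * τ)) = Real.exp (-τ) * Real.exp (-(2 * τ)) := by
      rw [← Real.exp_add]
      congr 1
      ring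
    rw [h3]
    refine mul_le_mul_of_nonneg_left ?_ (Real.exp_pos _).le
    have h5 : Real.exp (-(2 * τ)) ≤ 1 - τ := by
      have h6 : 1 + 2 * τ ≤ Real.exp (2 * τ) := by
        have := Real.add_one_le_exp (2 * τ)
        linarith
      rw [Real.exp_neg]
      have h7 : 0 < Real.exp (2 * τ) := Real.exp_pos _
      rw [inv_eq_one_div, div_le_iff₀ h7]
      nlinarith
    linarith
  refine ⟨?_, ?_⟩
  · rw [div_le_iff₀ hpos]
    calc Real.exp (R s) ≤ Real.exp τ := Real.exp_le_exp.2 (abs_le.1 h2).2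
      _ = Real.exp (4 * τ) * Real.exp (-(3 * τ)) := by
        rw [← Real.exp_add]
        congr 1
        ring
      _ ≤ _ := mul_le_mul_of_nonneg_left hlo (Real.exp_pos _).le
  · rw [le_div_iff₀ hpos]
    calc Real.exp (-(4 * τ)) * (av w A fun s => Real.exp (R s)) ≤ Real.exp (-(4 * τ)) * Real.exp (2 * τ) :=
          mul_le_mul_of_nonneg_left hup (Real.exp_pos _).le
      _ = Real.exp (-(2 * τ)) := by
        rw [← Real.exp_add]
        congr 1
        ring
      _ ≤ Real.exp (-τ) := Real.exp_le_exp.2 (by linarith)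
      _ ≤ Real.exp (R s) := Real.exp_le_exp.2 (abs_le.1 h2).1

/-- A product of factors close to one. -/
theorem prod_sub_one {m : ℕ} {r : Fin m → ℝ} {a : ℝ} (ha : 0 ≤ a) (h : ∀ i, r i ≤ Real.exp a ∧ Real.exp (-a) ≤ r i) :
    |∏ i, r i - 1| ≤ Real.exp (m * a) - 1 := by
  have h0 : ∀ i, 0 ≤ r i := fun i => (Real.exp_pos _).le.trans (h i).2
  have h1 : ∏ i, r i ≤ Real.exp (m * a) := by
    calc ∏ i, r i ≤ ∏ _i : Fin m, Real.exp a := Finset.prod_le_prod (fun i _ => h0 i) fun i _ => (h i).1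
      _ = Real.exp (m * a) := by
        rw [Finset.prod_const, Finset.card_univ, Fintype.card_fin, ← Real.exp_nat_mul]
  have h2 : Real.exp (-(m * a)) ≤ ∏ i, r i := by
    calc Real.exp (-(m * a)) = ∏ _i : Fin m, Real.exp (-a) := by
          rw [Finset.prod_const, Finset.card_univ, Fintype.card_fin, ← Real.exp_nat_mul]
          congr 1
          ring
      _ ≤ ∏ i, r i := Finset.prod_le_prod (fun i _ => (Real.exp_pos _).le) fun i _ => (h i).2
  have h3 : 1 - Real.exp (-(m * a)) ≤ Real.exp (m * a) - 1 := by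
    have h4 := Real.add_one_le_exp (m * a)
    have h5 := Real.add_one_le_exp (-((m : ℝ) * a))
    linarith
  rw [abs_le]
  constructor <;> linarith

/-! ### The comparison -/

variable {m : ℕ} {P : Plan X m} {w R : X → ℝ} {D τ q M : ℝ}

theorem kt (hτ : 0 < τ) (hτ' : τ ≤ 1 / 4) (hR : ∀ s, |R s| ≤ D) (hq : gm w (bd R τ) ≤ q) (h1 : MG P w) (h2 : MG P (w + R))
    {Ψ : (Fin m → X) → ℝ} (hΨ : ∀ x, |Ψ x| ≤ M) :
    |ev P (w + R) Ψ - ev P w Ψ| ≤ (Real.exp (4 * m * τ) - 1) * ev P w (fun x => |Ψ x|) + 4 * m * M * (q * Real.exp (5 * D) / τ) := by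
  classical
  obtain ⟨s₀⟩ := ‹Nonempty X›
  have hD : 0 ≤ D := (abs_nonneg _).trans (hR s₀)
  have hM : 0 ≤ M := (abs_nonneg _).trans (hΨ fun _ => s₀)
  set θ : ℝ := τ * Real.exp (-D) with hθd
  have hθ : 0 < θ := mul_pos hτ (Real.exp_pos _)
  have hq0 : 0 ≤ q := le_trans (by rw [gm_eq_av]; exact Finset.sum_nonneg fun s _ => mul_nonneg (ker_nonneg _ _ _) (bd_nonneg R τ s)) hq
  set G : (Fin m → X) → Prop := fun x => ∀ i, |R (x i)| ≤ τ ∧ av w (P.S i x) (bd R τ) ≤ θ with hG
  -- the density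
  have hden : ∀ x, wt P (w + R) x = wt P w x * ∏ i, (Real.exp (R (x i)) / av w (P.S i x) fun s => Real.exp (R s)) := by
    intro x
    rw [wt_eq_kr, wt_eq_kr]
    unfold kr
    rw [← Finset.prod_mul_distrib]
    exact Finset.prod_congr rfl fun i _ => ker_add52 w R (S_ne P i x) (x i)
  have hgood : ∀ x, G x → |wt P (w + R) x - wt P w x| ≤ (Real.exp (4 * m * τ) - 1) * wt P w x := by
    intro x hx
    rw [hden]
    have e : wt P w x * ∏ i, (Real.exp (R (x i)) / av w (P.S i x) fun s => Real.exp (R s)) - wt P w x =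
        wt P w x * (∏ i, (Real.exp (R (x i)) / av w (P.S i x) fun s => Real.exp (R s)) - 1) := by ring
    rw [e, abs_mul, abs_of_nonneg (wt_nonneg P w x), mul_comm]
    refine mul_le_mul_of_nonneg_right ?_ (wt_nonneg P w x)
    have h3 := prod_sub_one (a := 4 * τ) (by linarith)
      (r := fun i => Real.exp (R (x i)) / av w (P.S i x) fun s => Real.exp (R s))
      fun i => fac_le hτ hτ' hD hR (S_ne P i x) (hx i).2 (hx i).1
    refine h3.trans_eq ?_
    congr 2
    ring
  have hpt : ∀ x, |wt P (w + R) x - wt P w x| * |Ψ x| ≤ (Real.exp (4 * m * τ) - 1) * (wt P w x * |Ψ x|) +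
      M * (wt P (w + R) x * (if G x then 0 else 1)) + M * (wt P w x * (if G x then 0 else 1)) := by
    intro x
    have hw0 := wt_nonneg P w x
    have hw1 := wt_nonneg P (w + R) x
    by_cases hx : G x
    · rw [if_pos hx, mul_zero, mul_zero, mul_zero, mul_zero, add_zero, add_zero, ← mul_assoc]
      exact mul_le_mul_of_nonneg_right (hgood x hx) (abs_nonneg _)
    · rw [if_neg hx, mul_one, mul_one]
      have h3 : |wt P (w + R) x - wt P w x| ≤ wt P (w + R) x + wt P w x := by
        rw [abs_le]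
        constructor <;> linarith
      have h4 : |wt P (w + R) x - wt P w x| * |Ψ x| ≤ (wt P (w + R) x + wt P w x) * M :=
        mul_le_mul h3 (hΨ x) (abs_nonneg _) (by linarith)
      have h5 : 0 ≤ (Real.exp (4 * m * τ) - 1) * (wt P w x * |Ψ x|) := by
        have h6 : 0 ≤ 4 * (m : ℝ) * τ := by positivity
        have h7 := Real.add_one_le_exp (4 * (m : ℝ) * τ)
        exact mul_nonneg (by linarith) (mul_nonneg hw0 (abs_nonneg _))
      linarith
  have hsum : |ev P (w + R) Ψ - ev P w Ψ| ≤ ∑ x, |wt P (w + R) x - wt P w x| * |Ψ x| := by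
    unfold ev
    rw [← Finset.sum_sub_distrib]
    refine (Finset.abs_sum_le_sum_abs _ _).trans_eq ?_
    refine Finset.sum_congr rfl fun x _ => ?_
    rw [← sub_mul, abs_mul]
  -- the bad tuples
  have hb0 : ∀ x, (if G x then (0 : ℝ) else 1) ≤ ∑ i, (bd R τ (x i) + θ⁻¹ * av w (P.S i x) (bd R τ)) := by
    intro x
    have h0 : ∀ i, 0 ≤ bd R τ (x i) + θ⁻¹ * av w (P.S i x) (bd R τ) := fun i =>
      add_nonneg (bd_nonneg _ _ _) (mul_nonneg (inv_nonneg.2 hθ.le)
        (Finset.sum_nonneg fun s _ => mul_nonneg (ker_nonneg _ _ _) (bd_nonneg R τ s)))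
    by_cases hx : G x
    · rw [if_pos hx]
      exact Finset.sum_nonneg fun i _ => h0 i
    · rw [if_neg hx]
      have hx' : ∃ i, ¬ (|R (x i)| ≤ τ ∧ av w (P.S i x) (bd R τ) ≤ θ) := not_forall.1 hx
      obtain ⟨i, hi⟩ := hx'
      refine le_trans ?_ (Finset.single_le_sum (fun i _ => h0 i) (Finset.mem_univ i))
      by_cases h3 : |R (x i)| ≤ τ
      · have h4 : θ < av w (P.S i x) (bd R τ) := not_le.1 fun h5 => hi ⟨h3, h5⟩
        have h5 : 1 ≤ θ⁻¹ * av w (P.S i x) (bd R τ) := by
          rw [inv_mul_eq_div, le_div_iff₀ hθ]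
          linarith
        have h6 := bd_nonneg R τ (x i)
        linarith
      · have h4 : bd R τ (x i) = 1 := if_pos (not_le.1 h3)
        rw [h4]
        have h5 : 0 ≤ θ⁻¹ * av w (P.S i x) (bd R τ) := mul_nonneg (inv_nonneg.2 hθ.le)
          (Finset.sum_nonneg fun s _ => mul_nonneg (ker_nonneg _ _ _) (bd_nonneg R τ s))
        linarith
  have hev : ∀ (w' : X → ℝ) (c : ℝ), 0 ≤ c → MG P w' → (∀ x i, av w (P.S i x) (bd R τ) ≤ c * av w' (P.S i x) (bd R τ)) →
      ∀ q' : ℝ, gm w' (bd R τ) ≤ q' → ev P w' (fun x => if G x then 0 else 1) ≤ m * (q' + θ⁻¹ * (c * q')) := by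
    intro w' c hc hm hcmp q' hq'
    calc ev P w' (fun x => if G x then 0 else 1)
        ≤ ev P w' (fun x => ∑ i, (bd R τ (x i) + (θ⁻¹ * c) * av w' (P.S i x) (bd R τ))) := by
          refine ev_mono P w' fun x => (hb0 x).trans ?_
          refine Finset.sum_le_sum fun i _ => ?_
          have h3 := mul_le_mul_of_nonneg_left (hcmp x i) (inv_nonneg.2 hθ.le)
          have h4 : θ⁻¹ * (c * av w' (P.S i x) (bd R τ)) = (θ⁻¹ * c) * av w' (P.S i x) (bd R τ) := by ring
          linarith
      _ = ∑ i, (ev P w' (fun x => bd R τ (x i)) + (θ⁻¹ * c) * ev P w' (fun x => av w' (P.S i x) (bd R τ))) := by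
          rw [ev_sum]
          refine Finset.sum_congr rfl fun i _ => ?_
          rw [ev_add, ev_smul]
      _ ≤ ∑ _i : Fin m, (q' + θ⁻¹ * (c * q')) := by
          refine Finset.sum_le_sum fun i _ => ?_
          have h3 := (hm.own (bd R τ) (bd_nonneg R τ) i).trans hq'
          have h4 := (hm.shd (bd R τ) (bd_nonneg R τ) i).trans hq'
          have h5 : (θ⁻¹ * c) * ev P w' (fun x => av w' (P.S i x) (bd R τ)) ≤ (θ⁻¹ * c) * q' :=
            mul_le_mul_of_nonneg_left h4 (mul_nonneg (inv_nonneg.2 hθ.le) hc)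
          linarith
      _ = m * (q' + θ⁻¹ * (c * q')) := by
          rw [Finset.sum_const, Finset.card_univ, Fintype.card_fin, nsmul_eq_mul]
  have hE1 : ev P w (fun x => if G x then 0 else 1) ≤ m * (q + θ⁻¹ * (1 * q)) :=
    hev w 1 zero_le_one h1 (fun x i => by rw [one_mul]) q hq
  have hq2 : gm (w + R) (bd R τ) ≤ Real.exp (2 * D) * q := by
    rw [gm_eq_av]
    refine (av_tilt hR univ_nonempty (bd_nonneg R τ)).trans ?_
    rw [← gm_eq_av]
    exact mul_le_mul_of_nonneg_left hq (Real.exp_pos _).le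
  have hE2 : ev P (w + R) (fun x => if G x then 0 else 1) ≤
      m * (Real.exp (2 * D) * q + θ⁻¹ * (Real.exp (2 * D) * (Real.exp (2 * D) * q))) :=
    hev (w + R) (Real.exp (2 * D)) (Real.exp_pos _).le h2 (fun x i => av_tilt' hR (S_ne P i x) (bd_nonneg R τ)) _ hq2
  -- the numbers
  have hnum : m * (q + θ⁻¹ * (1 * q)) + m * (Real.exp (2 * D) * q + θ⁻¹ * (Real.exp (2 * D) * (Real.exp (2 * D) * q))) ≤
      4 * m * (q * Real.exp (5 * D) / τ) := by
    have hinv : θ⁻¹ = Real.exp D / τ := by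
      rw [hθd, mul_inv, Real.exp_neg, inv_inv]
      field_simp
    have ha : 1 ≤ Real.exp D := Real.one_le_exp hD
    have hti : 1 ≤ τ⁻¹ := (one_le_inv₀ hτ).2 (by linarith)
    have e1 : Real.exp (2 * D) = Real.exp D * Real.exp D := by
      rw [← Real.exp_add]
      congr 1
      ring
    have e2 : Real.exp (5 * D) = Real.exp D ^ 5 := by
      rw [← Real.exp_nat_mul]
      norm_num
    rw [hinv, e1, e2]
    set a := Real.exp D with had
    have hm0 : (0 : ℝ) ≤ m := Nat.cast_nonneg m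
    have p1 : (1 : ℝ) ≤ a ^ 5 := one_le_pow₀ ha
    have p2 : a ≤ a ^ 5 := by
      calc a = a ^ 1 := (pow_one a).symm
        _ ≤ a ^ 5 := pow_le_pow_right₀ ha (by norm_num)
    have p3 : a * a ≤ a ^ 5 := by
      calc a * a = a ^ 2 := by ring
        _ ≤ a ^ 5 := pow_le_pow_right₀ ha (by norm_num)
    have k1 : q ≤ q * a ^ 5 * τ⁻¹ := by
      have : q * 1 * 1 ≤ q * a ^ 5 * τ⁻¹ :=
        mul_le_mul (mul_le_mul_of_nonneg_left p1 hq0) hti zero_le_one (by positivity)
      linarith
    have k2 : a / τ * (1 * q) ≤ q * a ^ 5 * τ⁻¹ := by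
      have : q * a * τ⁻¹ ≤ q * a ^ 5 * τ⁻¹ :=
        mul_le_mul_of_nonneg_right (mul_le_mul_of_nonneg_left p2 hq0) (inv_nonneg.2 hτ.le)
      calc a / τ * (1 * q) = q * a * τ⁻¹ := by
            rw [div_eq_mul_inv]
            ring
        _ ≤ _ := this
    have k3 : a * a * q ≤ q * a ^ 5 * τ⁻¹ := by
      have : q * (a * a) * 1 ≤ q * a ^ 5 * τ⁻¹ :=
        mul_le_mul (mul_le_mul_of_nonneg_left p3 hq0) hti zero_le_one (by positivity)
      linarith
    have k4 : a / τ * (a * a * (a * a * q)) = q * a ^ 5 * τ⁻¹ := by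
      rw [div_eq_mul_inv]
      ring
    have k5 : q * a ^ 5 / τ = q * a ^ 5 * τ⁻¹ := div_eq_mul_inv _ _
    rw [k5, k4]
    nlinarith [mul_le_mul_of_nonneg_left k1 hm0, mul_le_mul_of_nonneg_left k2 hm0, mul_le_mul_of_nonneg_left k3 hm0]
  calc |ev P (w + R) Ψ - ev P w Ψ| ≤ ∑ x, |wt P (w + R) x - wt P w x| * |Ψ x| := hsum
    _ ≤ ∑ x, ((Real.exp (4 * m * τ) - 1) * (wt P w x * |Ψ x|) +
      M * (wt P (w + R) x * (if G x then 0 else 1)) + M * (wt P w x * (if G x then 0 else 1))) := Finset.sum_le_sum fun x _ => hpt x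
    _ = (Real.exp (4 * m * τ) - 1) * ev P w (fun x => |Ψ x|) + M * ev P (w + R) (fun x => if G x then 0 else 1) +
      M * ev P w (fun x => if G x then 0 else 1) := by
        unfold ev
        rw [Finset.sum_add_distrib, Finset.sum_add_distrib, ← Finset.mul_sum, ← Finset.mul_sum, ← Finset.mul_sum]
    _ ≤ _ := by
        have k1 := mul_le_mul_of_nonneg_left hE1 hM
        have k2 := mul_le_mul_of_nonneg_left hE2 hM
        have k3 := mul_le_mul_of_nonneg_left hnum hM
        have k4 : M * (4 * m * (q * Real.exp (5 * D) / τ)) = 4 * m * M * (q * Real.exp (5 * D) / τ) := by ring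
        nlinarith

/-- The comparison in all the cases: the bad case is bounded by the two averages. -/
theorem kt_all (hτ : 0 < τ) (hτ' : τ ≤ 1 / 4) (hR : ∀ s, |R s| ≤ D) (hq : 0 ≤ q) (h1 : MG P w) (h2 : MG P (w + R))
    {Ψ : (Fin m → X) → ℝ} (hΨ : ∀ x, |Ψ x| ≤ M) :
    |ev P (w + R) Ψ - ev P w Ψ| ≤ (Real.exp (4 * m * τ) - 1) * ev P w (fun x => |Ψ x|) + 4 * m * M * (q * Real.exp (5 * D) / τ) +
      (if q < gm w (bd R τ) then 1 else 0) * (ev P (w + R) (fun x => |Ψ x|) + ev P w (fun x => |Ψ x|)) := by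
  have hM : 0 ≤ M := (abs_nonneg _).trans (hΨ fun _ => Classical.arbitrary X)
  have hn : 0 ≤ ev P w (fun x => |Ψ x|) := ev_nonneg P w fun x => abs_nonneg _
  have hn' : 0 ≤ ev P (w + R) (fun x => |Ψ x|) := ev_nonneg P (w + R) fun x => abs_nonneg _
  split_ifs with h
  · have h3 : |ev P (w + R) Ψ - ev P w Ψ| ≤ ev P (w + R) (fun x => |Ψ x|) + ev P w (fun x => |Ψ x|) := by
      have k1 := abs_ev_le P (w + R) (Ψ := Ψ) (Φ := fun x => |Ψ x|) fun x => le_rfl
      have k2 := abs_ev_le P w (Ψ := Ψ) (Φ := fun x => |Ψ x|) fun x => le_rfl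
      have k3 := abs_sub (ev P (w + R) Ψ) (ev P w Ψ)
      linarith
    have h4 : 0 ≤ (Real.exp (4 * m * τ) - 1) * ev P w (fun x => |Ψ x|) := by
      have h6 : 0 ≤ 4 * (m : ℝ) * τ := by positivity
      have h7 := Real.add_one_le_exp (4 * (m : ℝ) * τ)
      exact mul_nonneg (by linarith) hn
    have h5 : 0 ≤ 4 * (m : ℝ) * M * (q * Real.exp (5 * D) / τ) := by positivity
    linarith
  · rw [zero_mul, add_zero]
    exact kt hτ hτ' hR (not_lt.1 h) h1 h2 hΨ

end

end Pool.W7d29a1.C0.I52
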