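import Pool.Agent.W_7d29a1_C0.SigM96
import Pool.Agent.W_7d29a1_C0.GSF52

/-!
STORM C0 (helper96): THE KICK OF GS IN THE FORM OF ALL ESTIMATES. `kbL96`: `KbL65` (the kick at the concrete frame) from the three prices of
`GSC52`, `GSF52`, each with a loss `N ^ (C ι)`: one row (`MqL96`), two rows in different blocks (`PqL96`), the row of the kick (`RowL96`).
`gsL96`: `SigL33` from them.
-/

set_option autoImplicit false

namespace Pool.Agent.W_7d29a1_C0.Asm96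

open Finset MeasureTheory Filter Topology
open Pool.Agent.W_7d29a1_H (EE EE_mono one_le_EE EE_pos)
open Pool.Agent.W_7d29a1_HS (In)
open Pool.Agent.W_7d29a1_C0 Pool.Agent.W_7d29a1_C0.Frm33
open Pool.Agent.W_7d29a1_C0.Par92 (Sml Est)
open Pool.W7d29a1.C0.GSC52 (MqN)
open Pool.W7d29a1.C0.GSF52 (PqM RowM kbn65)
open Pool.Agent.W_7d29a1_C0.GSN65 (KbN65)

noncomputable section

variable {μ : Measure ℝ} {s : ℝ} {F : Frm96} {E : ℕ → ℝ} {Θ δ c η ε₁ ε₂ : ℝ} {m K : ℕ}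

theorem MqN.mono96 (hE : ∀ n, 0 < E n) (h : MqN μ s F E Θ δ c η ε₁ m) (h1 : ε₁ ≤ ε₂) : MqN μ s F E Θ δ c η ε₂ m :=
  fun p p' q i hC hi j hj => (h p p' q i hC hi j hj).trans (div_le_div_of_nonneg_right (pw_mono96 h1) (hE _).le)

theorem PqM.mono96 (h : PqM μ s F E Θ δ c η ε₁ m) (h1 : ε₁ ≤ ε₂) : PqM μ s F E Θ δ c η ε₂ m :=
  fun p p' q i hC hi j hj k hk hjk => (h p p' q i hC hi j hj k hk hjk).trans (div_le_div_of_nonneg_right (pw_mono96 h1) (sq_nonneg _))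

theorem RowM.mono96 (hE : ∀ n, 0 < E n) (h : RowM μ s F E Θ δ c η ε₁ m) (h1 : ε₁ ≤ ε₂) : RowM μ s F E Θ δ c η ε₂ m := by
  intro p p' q i hC hi
  obtain ⟨K, t, T, h2, h3, h4, h5, h6⟩ := h p p' q i hC hi
  have e1 := hE (2 ^ p)
  exact ⟨K, t, T, h2, h3.trans (div_le_div_of_nonneg_right (pw_mono96 h1) e1.le), h4, h5, fun j hj k hk =>
    (h6 j hj k hk).trans (Ph65_mono96 hE h1 _ _ _)⟩

/-- The corrected scale grows with the base. -/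
theorem sg_le96 (hmono : Monotone E) (h1 : ∀ n, 1 ≤ E n) (hK : KapLe96 E (1 / 4)) (hc : 0 ≤ c) {p p' : ℕ} (hpp : p ≤ p') :
    sg96 E c m p ≤ sg96 E c m p' :=
  sg_mono96 hmono h1 hpp (sg_mem96 h1 (show (1 : ℝ) / 4 + 1 / 4 < 1 by norm_num) (hK (1 / 4) (by norm_num)) hc m p')

/-- **One row, the price**, at the concrete frame. -/
def MqL96 (μ : Measure ℝ) (s : ℝ) (K : ℕ) (Θ : ℝ) : Prop := Sml fun δ => Sml fun c => ∀ η : ℝ, 0 < η → η ≤ c / 64 → ∃ C : ℝ,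
  Est fun ι β γ m => MqN μ s (frm33 μ s K ι β γ) (EE μ s) Θ δ c η (C * ι) m

/-- **Two rows, the price**, at the concrete frame. -/
def PqL96 (μ : Measure ℝ) (s : ℝ) (K : ℕ) (Θ : ℝ) : Prop := Sml fun δ => Sml fun c => ∀ η : ℝ, 0 < η → η ≤ c / 64 → ∃ C : ℝ,
  Est fun ι β γ m => PqM μ s (frm33 μ s K ι β γ) (EE μ s) Θ δ c η (C * ι) m

/-- **One row, the kick**, at the concrete frame. -/
def RowL96 (μ : Measure ℝ) (s : ℝ) (K : ℕ) (Θ : ℝ) : Prop := Sml fun δ => Sml fun c => ∀ η : ℝ, 0 < η → η ≤ c / 64 → ∃ C : ℝ,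
  Est fun ι β γ m => RowM μ s (frm33 μ s K ι β γ) (EE μ s) Θ δ c η (C * ι) m

/-- **The kick from the three prices.** -/
theorem kbE96 [IsProbabilityMeasure μ] (hK : 6 ≤ K) (hΘ : 0 < Θ) (hk : KapLe96 (EE μ s) (1 / 4)) (hc : 0 ≤ c) {C₁ C₂ C₃ : ℝ}
    (hM : Est fun ι β γ m => MqN μ s (frm33 μ s K ι β γ) (EE μ s) Θ δ c η (C₁ * ι) m)
    (hP : Est fun ι β γ m => PqM μ s (frm33 μ s K ι β γ) (EE μ s) Θ δ c η (C₂ * ι) m)
    (hR : Est fun ι β γ m => RowM μ s (frm33 μ s K ι β γ) (EE μ s) Θ δ c η (C₃ * ι) m) :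
    ∃ C : ℝ, Est fun ι β γ m => KbN65 μ s (frm33 μ s K ι β γ) (EE μ s) Θ δ c η (C * ι) m := by
  obtain ⟨C', hC'⟩ : ∃ C', C' = max 0 (max C₁ (max C₂ C₃)) := ⟨_, rfl⟩
  have h0 : 0 ≤ C' := hC' ▸ le_max_left _ _
  have h1 : C₁ ≤ C' := hC' ▸ (le_max_left _ _).trans (le_max_right _ _)
  have h2 : C₂ ≤ C' := hC' ▸ (le_max_left _ _).trans ((le_max_right _ _).trans (le_max_right _ _))
  have h3 : C₃ ≤ C' := hC' ▸ (le_max_right _ _).trans ((le_max_right _ _).trans (le_max_right _ _))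
  have ht : Tendsto (fun m : ℕ => ((2 ^ m : ℕ) : ℝ)) atTop atTop :=
    tendsto_natCast_atTop_atTop.comp (tendsto_pow_atTop_atTop_of_one_lt one_lt_two)
  have hβ : Est fun ι β _ m => β ≤ ι ∧ 0 < ι ∧ 0 < β ∧ 2 ≤ ((2 ^ m : ℕ) : ℝ) ^ ι := Sml.of fun ι hι =>
    ⟨ι, hι, fun β hβ hβι => Sml.of fun _ _ => by
      filter_upwards [((tendsto_rpow_atTop hι).comp ht).eventually_ge_atTop 2] with m hm
      exact ⟨hβι, hι, hβ, hm⟩⟩
  refine ⟨2 * C' + 4, ((((hM.and hP).and hR).and (ok33 (μ := μ) (s := s) hK hΘ)).and hβ).mono fun ι β γ _ _ _ =>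
    Eventually.of_forall fun m h => ?_⟩
  obtain ⟨⟨⟨⟨hM, hP⟩, hR⟩, hok⟩, hβι, hι, hβ, h2N⟩ := h
  have hN0 : (0 : ℝ) < ((2 ^ m : ℕ) : ℝ) := by positivity
  have h2' : 2 * ((2 ^ m : ℕ) : ℝ) ^ (C' * ι) ≤ ((2 ^ m : ℕ) : ℝ) ^ ((2 * C' + 4) * ι) := by
    calc 2 * ((2 ^ m : ℕ) : ℝ) ^ (C' * ι) ≤ ((2 ^ m : ℕ) : ℝ) ^ ι * ((2 ^ m : ℕ) : ℝ) ^ (C' * ι) :=
          mul_le_mul_of_nonneg_right h2N (Real.rpow_nonneg hN0.le _)
      _ = ((2 ^ m : ℕ) : ℝ) ^ (ι + C' * ι) := (Real.rpow_add hN0 _ _).symm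
      _ ≤ _ := pw_mono96 (by nlinarith)
  exact kbn65 (fun n => one_le_EE n) hok.hy hok.hB (le_of_eq rfl)
    (fun p p' q hC => sg_le96 EE_mono (fun n => one_le_EE n) hk hc hC.hpp) hc (by positivity) (by nlinarith) h2'
    (MqN.mono96 (fun n => EE_pos n) hM (mul_le_mul_of_nonneg_right h1 hι.le)) (PqM.mono96 hP (mul_le_mul_of_nonneg_right h2 hι.le))
    (RowM.mono96 (fun n => EE_pos n) hR (mul_le_mul_of_nonneg_right h3 hι.le))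

/-- **The kick at the concrete frame from the three prices.** -/
theorem kbL96 [IsProbabilityMeasure μ] (hK : 6 ≤ K) (hΘ : 0 < Θ) (hk : KapLe96 (EE μ s) (1 / 4)) (hM : MqL96 μ s K Θ)
    (hP : PqL96 μ s K Θ) (hR : RowL96 μ s K Θ) : KbL65 μ s K Θ :=
  Sml.mono ((hM.and hP).and hR) fun δ _ h => Sml.mono ((h.1.1.and h.1.2).and h.2) fun c hc h1 η hη hηc => by
    obtain ⟨C₁, a⟩ := h1.1.1 η hη hηc
    obtain ⟨C₂, b⟩ := h1.1.2 η hη hηc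
    obtain ⟨C₃, d⟩ := h1.2 η hη hηc
    exact kbE96 hK hΘ hk hc.le a b d

/-- **GS AT THE CONCRETE FRAME** from the three prices. -/
theorem gsL96 [IsProbabilityMeasure μ] {c₁ C : ℝ} {n₀ : ℕ} (h : In μ s c₁ C n₀) (hk : KapLe96 (EE μ s) (1 / 4)) (hK : 32 ≤ K)
    (hΘ : 0 < Θ) (hΘ1 : Θ ≤ 1) {c₀ : ℝ} (hR : RegP46 μ s c₀ Θ) (hM : MqL96 μ s K Θ) (hP : PqL96 μ s K Θ) (hRow : RowL96 μ s K Θ) :
    SigL33 μ s K Θ :=
  sigL65 h hk hK hΘ hΘ1 hR (kbL96 (by omega) hΘ hk hM hP hRow)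

end

end Pool.Agent.W_7d29a1_C0.Asm96
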