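import Pool.Agent.W_7d29a1_C0.Rob43B
import Pool.Agent.W_7d29a1_C0.Mod92B

/-!
MP_7d29a1_pr, [CURV0], GS IN ONE KICK (helper32): TWO GIBBS MEASURES `w + u1`, `w + u0` WITHOUT A DERIVATIVE.

`r = u1 - u0`, `bd r τ y y' = 1 (τ < |r y' - r y|)`, `BdI w q r τ q0 y` = the indicator that the conditional mass (at `w`, given `q y`) of
the `y'` with `τ < |r y' - r y|` is more than `q0`. `|u1|, |u0| ≤ A`.
* `tvB`, `tvG`: `|cE (w + u1) q f - cE (w + u0) q f| ≤ (cE (w + u1) q + cE (w + u0) q) (|f| (BdI + κ))`, `κ` tiny;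
* `lipV`: for `V = cV q' (cE q g)` the two values differ by at most `14 exp (12 A) M ^ 2` times (the conditional mass of the `y'` with
  `τ < |r y' - r x|`) + (exp τ - 1);
* `pair_kick`: for `Ψ = gm (h V V')`, with `V ≤ M ^ 2 (T + κ₁)` for all the weights, the two values differ by at most
  `M ^ 4` times the means at the two corners of `h T T' (BdI + BdI q₁ + BdI q₂)`, up to a tiny term. All the events are told from the one
  base path and refer to the weights `w`.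
-/

set_option autoImplicit false
set_option linter.unusedSectionVars false

namespace Pool.Agent.W_7d29a1_C0.Kick32

open Finset
open Pool.W7d29a1.C0 (gz gm gz_pos gz_ne gm_nonneg gm_mono gm_const)
open Pool.W7d29a1.C0.VT31
open Pool.W7d29a1.C0.R43 (cE_tilt)
open Pool.Agent.W_7d29a1_C0.Mod92 (abs_cE_le cV_le_sq)

noncomputable section

variable {X : Type*} [Fintype X]

/-- The responses `r` of the two paths are different. -/
def bd (r : X → ℝ) (τ : ℝ) (y y' : X) : ℝ := if τ < |r y' - r y| then 1 else 0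

theorem bd_nonneg (r : X → ℝ) (τ : ℝ) (y y' : X) : 0 ≤ bd r τ y y' := by
  unfold bd
  split_ifs <;> norm_num

theorem bd_le_one (r : X → ℝ) (τ : ℝ) (y y' : X) : bd r τ y y' ≤ 1 := by
  unfold bd
  split_ifs <;> norm_num

theorem abs_one_sub_exp {x τ : ℝ} (h : |x| ≤ τ) : |1 - Real.exp x| ≤ Real.exp τ - 1 := by
  have h1 := abs_le.1 h
  have h2 : Real.exp x ≤ Real.exp τ := Real.exp_le_exp.2 h1.2
  have h3 : Real.exp (-τ) ≤ Real.exp x := Real.exp_le_exp.2 h1.1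
  have h4 : 2 ≤ Real.exp τ + Real.exp (-τ) := by
    have a1 : Real.exp τ * Real.exp (-τ) = 1 := by rw [← Real.exp_add, add_neg_cancel, Real.exp_zero]
    nlinarith [sq_nonneg (Real.exp τ - Real.exp (-τ)), Real.exp_pos τ, Real.exp_pos (-τ)]
  rw [abs_le]
  constructor <;> linarith

/-- Two probability vectors with `p1 / p0` proportional to `exp r`. -/
theorem tv_raw {p1 p0 r : X → ℝ} {τ : ℝ} (h1 : ∀ y, 0 ≤ p1 y) (h0 : ∀ y, 0 ≤ p0 y) (s1 : ∑ y, p1 y = 1) (s0 : ∑ y, p0 y = 1)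
    (hr : ∀ y y', p0 y * p1 y' = p1 y * p0 y' * Real.exp (r y' - r y)) (hτ : 0 ≤ τ) (f : X → ℝ) :
    |∑ y, f y * p1 y - ∑ y, f y * p0 y| ≤
      ∑ y, |f y| * p1 y * (∑ y', p0 y' * bd r τ y y' + (Real.exp τ - 1)) + ∑ y, |f y| * p0 y * ∑ y', p1 y' * bd r τ y y' := by
  have e1 : ∑ y, f y * p1 y - ∑ y, f y * p0 y = ∑ y, f y * ∑ y', (p1 y * p0 y' - p0 y * p1 y') := by
    rw [← sum_sub_distrib]
    refine sum_congr rfl fun y _ => ?_
    rw [sum_sub_distrib, ← mul_sum, ← mul_sum, s1, s0]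
    ring
  rw [e1, ← sum_add_distrib]
  refine (abs_sum_le_sum_abs _ _).trans (sum_le_sum fun y _ => ?_)
  rw [abs_mul]
  have hτ1 : 0 ≤ Real.exp τ - 1 := by linarith [Real.one_le_exp hτ]
  have e2 : |∑ y', (p1 y * p0 y' - p0 y * p1 y')| ≤
      ∑ y', (p1 y * (p0 y' * bd r τ y y' + p0 y' * (Real.exp τ - 1)) + p0 y * (p1 y' * bd r τ y y')) := by
    refine (abs_sum_le_sum_abs _ _).trans (sum_le_sum fun y' _ => ?_)
    have a1 := mul_nonneg (h1 y) (h0 y')
    have a0 := mul_nonneg (h0 y) (h1 y')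
    by_cases hb : τ < |r y' - r y|
    · have : bd r τ y y' = 1 := if_pos hb
      rw [this]
      have a2 := mul_nonneg a1 hτ1
      rw [abs_le]
      constructor <;> nlinarith
    · have : bd r τ y y' = 0 := if_neg hb
      rw [this, hr y y']
      have a3 := abs_one_sub_exp (not_lt.1 hb)
      have a4 : p1 y * p0 y' - p1 y * p0 y' * Real.exp (r y' - r y) = p1 y * p0 y' * (1 - Real.exp (r y' - r y)) := by ring
      rw [a4, abs_mul, abs_of_nonneg a1]
      nlinarith [mul_le_mul_of_nonneg_left a3 a1]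
  have e3 : ∑ y', (p1 y * (p0 y' * bd r τ y y' + p0 y' * (Real.exp τ - 1)) + p0 y * (p1 y' * bd r τ y y')) =
      p1 y * (∑ y', p0 y' * bd r τ y y' + (Real.exp τ - 1)) + p0 y * ∑ y', p1 y' * bd r τ y y' := by
    rw [sum_add_distrib, ← mul_sum, ← mul_sum, sum_add_distrib, ← sum_mul, s0, one_mul]
  rw [e3] at e2
  calc |f y| * |∑ y', (p1 y * p0 y' - p0 y * p1 y')| ≤
      |f y| * (p1 y * (∑ y', p0 y' * bd r τ y y' + (Real.exp τ - 1)) + p0 y * ∑ y', p1 y' * bd r τ y y') :=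
        mul_le_mul_of_nonneg_left e2 (abs_nonneg _)
    _ = _ := by ring

variable [Nonempty X] {Y Y' : Type*} [DecidableEq Y] [DecidableEq Y']

/-- The conditional law. -/
def pc (w : X → ℝ) (q : X → Y) (x y : X) : ℝ := (if q y = q x then Real.exp (w y) else 0) / fz w q x

theorem pc_nonneg (w : X → ℝ) (q : X → Y) (x y : X) : 0 ≤ pc w q x y := by
  unfold pc
  refine div_nonneg ?_ (fz_pos w q x).le
  split_ifs
  · exact (Real.exp_pos _).le
  · exact le_rfl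

theorem sum_pc (w : X → ℝ) (q : X → Y) (x : X) : ∑ y, pc w q x y = 1 := by
  unfold pc
  rw [← sum_div]
  exact div_self (fz_pos w q x).ne'

theorem cE_pc (w : X → ℝ) (q : X → Y) (f : X → ℝ) (x : X) : cE w q f x = ∑ y, f y * pc w q x y := by
  unfold cE pc
  rw [sum_div]
  refine sum_congr rfl fun y _ => ?_
  split_ifs
  · ring
  · simp

theorem pc_rel (w u1 u0 : X → ℝ) (q : X → Y) (x y y' : X) : pc (w + u0) q x y * pc (w + u1) q x y' =
    pc (w + u1) q x y * pc (w + u0) q x y' * Real.exp ((u1 - u0) y' - (u1 - u0) y) := by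
  unfold pc
  by_cases h : q y = q x
  · by_cases h' : q y' = q x
    · rw [if_pos h, if_pos h', if_pos h, if_pos h']
      have e : Real.exp ((w + u0) y) * Real.exp ((w + u1) y') =
          Real.exp ((w + u1) y) * Real.exp ((w + u0) y') * Real.exp ((u1 - u0) y' - (u1 - u0) y) := by
        rw [← Real.exp_add, ← Real.exp_add, ← Real.exp_add]
        congr 1
        simp only [Pi.add_apply, Pi.sub_apply]
        ring
      calc Real.exp ((w + u0) y) / fz (w + u0) q x * (Real.exp ((w + u1) y') / fz (w + u1) q x)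
          = (Real.exp ((w + u0) y) * Real.exp ((w + u1) y')) / (fz (w + u0) q x * fz (w + u1) q x) := by
            rw [div_mul_div_comm]
        _ = (Real.exp ((w + u1) y) * Real.exp ((w + u0) y') * Real.exp ((u1 - u0) y' - (u1 - u0) y)) /
            (fz (w + u0) q x * fz (w + u1) q x) := by rw [e]
        _ = _ := by
            rw [div_mul_div_comm, mul_comm (fz (w + u0) q x), div_mul_eq_mul_div]
    · rw [if_neg h', if_neg h']
      simp
  · rw [if_neg h, if_neg h]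
    simp

/-- **Two corners**, the conditional form. -/
theorem tv_cE (w u1 u0 : X → ℝ) (q : X → Y) {τ : ℝ} (hτ : 0 ≤ τ) (f : X → ℝ) (x : X) :
    |cE (w + u1) q f x - cE (w + u0) q f x| ≤
      cE (w + u1) q (fun y => |f y| * (cE (w + u0) q (bd (u1 - u0) τ y) y + (Real.exp τ - 1))) x +
        cE (w + u0) q (fun y => |f y| * cE (w + u1) q (bd (u1 - u0) τ y) y) x := by
  have h := tv_raw (p1 := pc (w + u1) q x) (p0 := pc (w + u0) q x) (r := u1 - u0) (pc_nonneg _ _ _) (pc_nonneg _ _ _)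
    (sum_pc _ _ _) (sum_pc _ _ _) (pc_rel w u1 u0 q x) hτ f
  rw [cE_pc, cE_pc (w + u0) q f x]
  refine h.trans (le_of_eq ?_)
  rw [cE_pc, cE_pc]
  congr 1
  · refine sum_congr rfl fun y _ => ?_
    by_cases hy : q y = q x
    · have e : ∑ y', pc (w + u0) q x y' * bd (u1 - u0) τ y y' = cE (w + u0) q (bd (u1 - u0) τ y) y := by
        rw [cE_meas (w + u0) q (bd (u1 - u0) τ y) y x hy, cE_pc]
        exact sum_congr rfl fun _ _ => mul_comm _ _
      rw [e]
      ring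
    · have e : pc (w + u1) q x y = 0 := by
        unfold pc
        rw [if_neg hy, zero_div]
      rw [e]
      ring
  · refine sum_congr rfl fun y _ => ?_
    by_cases hy : q y = q x
    · have e : ∑ y', pc (w + u1) q x y' * bd (u1 - u0) τ y y' = cE (w + u1) q (bd (u1 - u0) τ y) y := by
        rw [cE_meas (w + u1) q (bd (u1 - u0) τ y) y x hy, cE_pc]
        exact sum_congr rfl fun _ _ => mul_comm _ _
      rw [e]
      ring
    · have e : pc (w + u0) q x y = 0 := by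
        unfold pc
        rw [if_neg hy, zero_div]
      rw [e]
      ring

/-- The indicator of the bad paths: the mass of the paths with another response is more than `q0`. -/
def BdI (w : X → ℝ) (q : X → Y) (r : X → ℝ) (τ q0 : ℝ) (y : X) : ℝ := if q0 < cE w q (bd r τ y) y then 1 else 0

theorem BdI_nonneg (w : X → ℝ) (q : X → Y) (r : X → ℝ) (τ q0 : ℝ) (y : X) : 0 ≤ BdI w q r τ q0 y := by
  unfold BdI
  split_ifs <;> norm_num

theorem BdI_le_one (w : X → ℝ) (q : X → Y) (r : X → ℝ) (τ q0 : ℝ) (y : X) : BdI w q r τ q0 y ≤ 1 := by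
  unfold BdI
  split_ifs <;> norm_num

theorem mass_le {w u : X → ℝ} {A : ℝ} (hu : ∀ x, |u x| ≤ A) (q : X → Y) (r : X → ℝ) (τ : ℝ) {q0 : ℝ} (hq : 0 ≤ q0) (y : X) :
    cE (w + u) q (bd r τ y) y ≤ BdI w q r τ q0 y + Real.exp (2 * A) * q0 := by
  have h1 : cE (w + u) q (bd r τ y) y ≤ 1 := (abs_le.1 (abs_cE_le (w + u) q (f := bd r τ y) (M := 1) (fun z => by
    rw [abs_of_nonneg (bd_nonneg r τ y z)]
    exact bd_le_one r τ y z) y)).2
  have h2 := cE_tilt (w := w) hu q (f := bd r τ y) (bd_nonneg r τ y) y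
  unfold BdI
  split_ifs with h
  · have : 0 ≤ Real.exp (2 * A) * q0 := mul_nonneg (Real.exp_pos _).le hq
    linarith
  · have := mul_le_mul_of_nonneg_left (not_lt.1 h) (Real.exp_pos (2 * A)).le
    linarith

/-- **Two corners**: off the bad paths nothing happens. -/
theorem tvB {w u1 u0 : X → ℝ} {A : ℝ} (hu1 : ∀ x, |u1 x| ≤ A) (hu0 : ∀ x, |u0 x| ≤ A) (q : X → Y) {τ q0 : ℝ} (hτ : 0 ≤ τ) (hq : 0 ≤ q0)
    (f : X → ℝ) (x : X) :
    |cE (w + u1) q f x - cE (w + u0) q f x| ≤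
      cE (w + u1) q (fun y => |f y| * (BdI w q (u1 - u0) τ q0 y + (Real.exp (2 * A) * q0 + (Real.exp τ - 1)))) x +
        cE (w + u0) q (fun y => |f y| * (BdI w q (u1 - u0) τ q0 y + (Real.exp (2 * A) * q0 + (Real.exp τ - 1)))) x := by
  have hτ1 : 0 ≤ Real.exp τ - 1 := by linarith [Real.one_le_exp hτ]
  refine (tv_cE w u1 u0 q hτ f x).trans (add_le_add (cE_mono _ _ (fun y => ?_) x) (cE_mono _ _ (fun y => ?_) x))
  · refine mul_le_mul_of_nonneg_left ?_ (abs_nonneg _)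
    linarith [mass_le (w := w) hu0 q (u1 - u0) τ hq y]
  · refine mul_le_mul_of_nonneg_left ?_ (abs_nonneg _)
    linarith [mass_le (w := w) hu1 q (u1 - u0) τ hq y]

/-- The same for the full measures. -/
theorem tvG {w u1 u0 : X → ℝ} {A : ℝ} (hu1 : ∀ x, |u1 x| ≤ A) (hu0 : ∀ x, |u0 x| ≤ A) {τ q0 : ℝ} (hτ : 0 ≤ τ) (hq : 0 ≤ q0)
    (f : X → ℝ) :
    |gm (w + u1) f - gm (w + u0) f| ≤
      gm (w + u1) (fun y => |f y| * (BdI w (fun _ => ()) (u1 - u0) τ q0 y + (Real.exp (2 * A) * q0 + (Real.exp τ - 1)))) +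
        gm (w + u0) (fun y => |f y| * (BdI w (fun _ => ()) (u1 - u0) τ q0 y + (Real.exp (2 * A) * q0 + (Real.exp τ - 1)))) := by
  obtain ⟨x⟩ := ‹Nonempty X›
  have h := tvB (w := w) hu1 hu0 (fun _ : X => ()) hτ hq f x
  rwa [gm_eq_cE, gm_eq_cE, gm_eq_cE, gm_eq_cE] at h

/-! ### The inner means -/

theorem cE_change (w u1 u0 : X → ℝ) (q : X → Y) (ρ0 : ℝ) (f : X → ℝ) (x : X) :
    cE (w + u1) q f x * cE (w + u0) q (fun z => Real.exp ((u1 - u0) z - ρ0)) x =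
      cE (w + u0) q (fun z => Real.exp ((u1 - u0) z - ρ0) * f z) x := by
  have h1 := (fz_pos (w + u1) q x).ne'
  have h0 := (fz_pos (w + u0) q x).ne'
  have e1 : (∑ z, if q z = q x then Real.exp ((w + u0) z) * (Real.exp ((u1 - u0) z - ρ0) * f z) else 0) =
      Real.exp (-ρ0) * ∑ z, if q z = q x then Real.exp ((w + u1) z) * f z else 0 := by
    rw [mul_sum]
    refine sum_congr rfl fun z _ => ?_
    split_ifs
    · rw [← mul_assoc, ← mul_assoc, ← Real.exp_add, ← Real.exp_add]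
      congr 2
      simp only [Pi.add_apply, Pi.sub_apply]
      ring
    · rw [mul_zero]
  have e2 : (∑ z, if q z = q x then Real.exp ((w + u0) z) * Real.exp ((u1 - u0) z - ρ0) else 0) =
      Real.exp (-ρ0) * fz (w + u1) q x := by
    unfold fz
    rw [mul_sum]
    refine sum_congr rfl fun z _ => ?_
    split_ifs
    · rw [← Real.exp_add, ← Real.exp_add]
      congr 1
      simp only [Pi.add_apply, Pi.sub_apply]
      ring
    · rw [mul_zero]
  unfold cE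
  rw [e1, e2]
  field_simp

/-- The change of a conditional mean, by the mass of the paths whose response is not `ρ0`. -/
theorem lipE {w u1 u0 : X → ℝ} {A M : ℝ} (hu1 : ∀ x, |u1 x| ≤ A) (hu0 : ∀ x, |u0 x| ≤ A) (q : X → Y) {τ ρ0 : ℝ} (hτ : 0 ≤ τ)
    (hρ : |ρ0| ≤ 2 * A) {f : X → ℝ} (hf : ∀ x, |f x| ≤ M) (x : X) :
    |cE (w + u1) q f x - cE (w + u0) q f x| ≤
      2 * M * Real.exp (10 * A) * (cE w q (fun z => if τ < |(u1 - u0) z - ρ0| then 1 else 0) x + (Real.exp τ - 1)) := by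
  obtain ⟨G, hG⟩ : ∃ G : X → ℝ, G = fun z => if τ < |(u1 - u0) z - ρ0| then 1 else 0 := ⟨_, rfl⟩
  rw [← hG]
  have hA : 0 ≤ A := (abs_nonneg _).trans (hu1 x)
  have hM : 0 ≤ M := (abs_nonneg _).trans (hf x)
  have hτ1 : 0 ≤ Real.exp τ - 1 := by linarith [Real.one_le_exp hτ]
  have hG0 : ∀ z, 0 ≤ G z := fun z => by
    rw [hG]
    beta_reduce
    split_ifs <;> norm_num
  have hr : ∀ z, |(u1 - u0) z - ρ0| ≤ 4 * A := fun z => by
    have a1 := abs_le.1 (hu1 z)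
    have a0 := abs_le.1 (hu0 z)
    have a2 := abs_le.1 hρ
    rw [Pi.sub_apply, abs_le]
    constructor <;> linarith
  have hd : ∀ z, |Real.exp ((u1 - u0) z - ρ0) - 1| ≤ (Real.exp τ - 1) + Real.exp (4 * A) * G z := by
    intro z
    by_cases h : τ < |(u1 - u0) z - ρ0|
    · have e : G z = 1 := by
        rw [hG]
        exact if_pos h
      rw [e, mul_one]
      have a1 := (abs_le.1 (hr z)).2
      have a2 := Real.exp_le_exp.2 a1
      have a3 := Real.exp_pos ((u1 - u0) z - ρ0)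
      have a4 : 1 ≤ Real.exp (4 * A) := Real.one_le_exp (by linarith)
      rw [abs_le]
      constructor <;> linarith
    · have e : G z = 0 := by
        rw [hG]
        exact if_neg h
      rw [e, mul_zero, add_zero, abs_sub_comm]
      exact abs_one_sub_exp (not_lt.1 h)
  obtain ⟨E, hE⟩ : ∃ E : (X → ℝ) → ℝ, E = fun f => cE (w + u0) q f x := ⟨_, rfl⟩
  obtain ⟨P, hP⟩ : ∃ P : ℝ, P = cE (w + u0) q (fun z => Real.exp ((u1 - u0) z - ρ0)) x := ⟨_, rfl⟩
  have hP1 : Real.exp (-(4 * A)) ≤ P := by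
    have a1 := cE_mono (w + u0) q (f := fun _ => Real.exp (-(4 * A))) (g := fun z => Real.exp ((u1 - u0) z - ρ0))
      (fun z => Real.exp_le_exp.2 (abs_le.1 (hr z)).1) x
    rw [cE_of_meas (w + u0) (show Mp q (fun _ : X => Real.exp (-(4 * A))) from fun _ _ _ => rfl)] at a1
    rw [hP]
    exact a1
  have hP0 : 0 < P := lt_of_lt_of_le (Real.exp_pos _) hP1
  obtain ⟨D, hD⟩ : ∃ D : ℝ, D = cE (w + u0) q (fun z => (Real.exp τ - 1) + Real.exp (4 * A) * G z) x := ⟨_, rfl⟩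
  -- the numerator
  have key : |(cE (w + u1) q f x - cE (w + u0) q f x) * P| ≤ 2 * M * D := by
    have a1 := cE_change w u1 u0 q ρ0 f x
    have a2 : (cE (w + u1) q f x - cE (w + u0) q f x) * P =
        cE (w + u0) q (fun z => (Real.exp ((u1 - u0) z - ρ0) - 1) * f z) x -
          cE (w + u0) q f x * cE (w + u0) q (fun z => Real.exp ((u1 - u0) z - ρ0) - 1) x := by
      have b1 : (fun z => (Real.exp ((u1 - u0) z - ρ0) - 1) * f z) = (fun z => Real.exp ((u1 - u0) z - ρ0) * f z) - f := by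
        funext z
        show (Real.exp ((u1 - u0) z - ρ0) - 1) * f z = Real.exp ((u1 - u0) z - ρ0) * f z - f z
        rw [sub_mul, one_mul]
      have b2 : (fun z => Real.exp ((u1 - u0) z - ρ0) - 1) = (fun z => Real.exp ((u1 - u0) z - ρ0)) - (fun _ => 1) := rfl
      rw [b1, b2, cE_sub, cE_sub, cE_one, Pi.sub_apply, Pi.sub_apply, sub_mul, hP, a1]
      beta_reduce
      ring
    have a3 : |cE (w + u0) q (fun z => (Real.exp ((u1 - u0) z - ρ0) - 1) * f z) x| ≤ M * D := by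
      have c1 : ∀ z, |(Real.exp ((u1 - u0) z - ρ0) - 1) * f z| ≤ M * ((Real.exp τ - 1) + Real.exp (4 * A) * G z) := fun z => by
        rw [abs_mul, mul_comm M]
        exact mul_le_mul (hd z) (hf z) (abs_nonneg _) (add_nonneg hτ1 (mul_nonneg (Real.exp_pos _).le (hG0 z)))
      have c2 : M * D = cE (w + u0) q (fun z => M * ((Real.exp τ - 1) + Real.exp (4 * A) * G z)) x := by
        have c3 := congrFun (cE_smul (w + u0) q M (fun z => (Real.exp τ - 1) + Real.exp (4 * A) * G z)) x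
        rw [hD]
        exact c3.symm
      rw [c2, abs_le]
      constructor
      · have c4 := cE_mono (w + u0) q (f := -(fun z => M * ((Real.exp τ - 1) + Real.exp (4 * A) * G z)))
          (g := fun z => (Real.exp ((u1 - u0) z - ρ0) - 1) * f z) (fun z => (abs_le.1 (c1 z)).1) x
        rwa [cE_neg, Pi.neg_apply] at c4
      · exact cE_mono (w + u0) q (fun z => (abs_le.1 (c1 z)).2) x
    have a4 : |cE (w + u0) q (fun z => Real.exp ((u1 - u0) z - ρ0) - 1) x| ≤ D := by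
      rw [hD, abs_le]
      constructor
      · have c4 := cE_mono (w + u0) q (f := -(fun z => (Real.exp τ - 1) + Real.exp (4 * A) * G z))
          (g := fun z => Real.exp ((u1 - u0) z - ρ0) - 1) (fun z => (abs_le.1 (hd z)).1) x
        rwa [cE_neg, Pi.neg_apply] at c4
      · exact cE_mono (w + u0) q (fun z => (abs_le.1 (hd z)).2) x
    have a5 := abs_cE_le (w + u0) q hf x
    have a6 : |cE (w + u0) q f x * cE (w + u0) q (fun z => Real.exp ((u1 - u0) z - ρ0) - 1) x| ≤ M * D := by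
      rw [abs_mul]
      exact mul_le_mul a5 a4 (abs_nonneg _) hM
    rw [a2]
    calc _ ≤ |cE (w + u0) q (fun z => (Real.exp ((u1 - u0) z - ρ0) - 1) * f z) x| +
        |cE (w + u0) q f x * cE (w + u0) q (fun z => Real.exp ((u1 - u0) z - ρ0) - 1) x| := abs_sub _ _
      _ ≤ 2 * M * D := by linarith
  rw [abs_mul, abs_of_pos hP0] at key
  have hGx : 0 ≤ cE w q G x := cE_nonneg w q hG0 x
  have hDx : D ≤ (Real.exp τ - 1) + Real.exp (6 * A) * cE w q G x := by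
    have a1 : D = (Real.exp τ - 1) + Real.exp (4 * A) * cE (w + u0) q G x := by
      rw [hD]
      have b1 : (fun z => (Real.exp τ - 1) + Real.exp (4 * A) * G z) = (fun _ => Real.exp τ - 1) + Real.exp (4 * A) • G := rfl
      rw [b1, cE_add, cE_smul, cE_of_meas (w + u0) (show Mp q (fun _ : X => Real.exp τ - 1) from fun _ _ _ => rfl)]
      rfl
    have a2 := mul_le_mul_of_nonneg_left (cE_tilt (w := w) hu0 q hG0 x) (Real.exp_pos (4 * A)).le
    have a3 : Real.exp (4 * A) * (Real.exp (2 * A) * cE w q G x) = Real.exp (6 * A) * cE w q G x := by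
      rw [← mul_assoc, ← Real.exp_add]
      congr 2
      ring
    rw [a1]
    linarith
  have h4 : |cE (w + u1) q f x - cE (w + u0) q f x| * Real.exp (-(4 * A)) ≤ 2 * M * D :=
    (mul_le_mul_of_nonneg_left hP1 (abs_nonneg _)).trans key
  have h5 : |cE (w + u1) q f x - cE (w + u0) q f x| ≤ Real.exp (4 * A) * (2 * M * D) := by
    have a1 := mul_le_mul_of_nonneg_left h4 (Real.exp_pos (4 * A)).le
    have a2 : Real.exp (4 * A) * (|cE (w + u1) q f x - cE (w + u0) q f x| * Real.exp (-(4 * A))) =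
        |cE (w + u1) q f x - cE (w + u0) q f x| := by
      rw [mul_comm (|cE (w + u1) q f x - cE (w + u0) q f x|), ← mul_assoc, ← Real.exp_add, add_neg_cancel, Real.exp_zero, one_mul]
    linarith
  refine h5.trans ?_
  have e10 : Real.exp (10 * A) = Real.exp (4 * A) * Real.exp (6 * A) := by
    rw [← Real.exp_add]
    congr 1
    ring
  have h6 : 1 ≤ Real.exp (6 * A) := Real.one_le_exp (by linarith)
  have h7 : D ≤ Real.exp (6 * A) * (cE w q G x + (Real.exp τ - 1)) := by nlinarith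
  rw [e10]
  have h8 : 0 ≤ Real.exp (4 * A) * (2 * M) := by positivity
  calc Real.exp (4 * A) * (2 * M * D) = Real.exp (4 * A) * (2 * M) * D := by ring
    _ ≤ Real.exp (4 * A) * (2 * M) * (Real.exp (6 * A) * (cE w q G x + (Real.exp τ - 1))) := mul_le_mul_of_nonneg_left h7 h8
    _ = _ := by ring

theorem cE_abs_le (w : X → ℝ) (q : X → Y) {f F : X → ℝ} (h : ∀ y, |f y| ≤ F y) (x : X) : |cE w q f x| ≤ cE w q F x := by
  rw [abs_le]
  constructor
  · have e := cE_mono w q (f := -F) (g := f) (fun y => (abs_le.1 (h y)).1) x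
    rwa [cE_neg, Pi.neg_apply] at e
  · exact cE_mono w q (fun y => (abs_le.1 (h y)).2) x

theorem cE_affine (w : X → ℝ) (q : X → Y) (a b : ℝ) (f : X → ℝ) (x : X) : cE w q (fun y => a * (f y + b)) x = a * (cE w q f x + b) := by
  have e : (fun y => a * (f y + b)) = a • (f + fun _ => b) := rfl
  rw [e, cE_smul, cE_add, cE_of_meas w (show Mp q (fun _ : X => b) from fun _ _ _ => rfl)]
  rfl

/-- **The conditional variance of a conditional mean at two corners.** -/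
theorem lipV {w u1 u0 : X → ℝ} {A M : ℝ} (hu1 : ∀ x, |u1 x| ≤ A) (hu0 : ∀ x, |u0 x| ≤ A) {q' : X → Y'} {q : X → Y} (hc : Crs q' q)
    {τ : ℝ} (hτ : 0 ≤ τ) {g : X → ℝ} (hg : ∀ x, |g x| ≤ M) (x : X) :
    |cV (w + u1) q' (cE (w + u1) q g) x - cV (w + u0) q' (cE (w + u0) q g) x| ≤
      14 * M ^ 2 * Real.exp (12 * A) * (cE w q' (bd (u1 - u0) τ x) x + (Real.exp τ - 1)) := by
  have hA : 0 ≤ A := (abs_nonneg _).trans (hu1 x)
  have hM : 0 ≤ M := (abs_nonneg _).trans (hg x)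
  have hτ1 : 0 ≤ Real.exp τ - 1 := by linarith [Real.one_le_exp hτ]
  obtain ⟨ρ, hρ⟩ : ∃ ρ : ℝ, ρ = (u1 - u0) x := ⟨_, rfl⟩
  have hρA : |ρ| ≤ 2 * A := by
    rw [hρ, Pi.sub_apply]
    have a1 := abs_le.1 (hu1 x)
    have a0 := abs_le.1 (hu0 x)
    rw [abs_le]
    constructor <;> linarith
  obtain ⟨G, hG⟩ : ∃ G : X → ℝ, G = bd (u1 - u0) τ x := ⟨_, rfl⟩
  have hG' : (fun z => if τ < |(u1 - u0) z - ρ| then (1 : ℝ) else 0) = G := by
    rw [hG, hρ]
    rfl
  obtain ⟨m, hm⟩ : ∃ m : ℝ, m = cE w q' G x := ⟨_, rfl⟩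
  obtain ⟨κ, hκ⟩ : ∃ κ : ℝ, κ = Real.exp τ - 1 := ⟨_, rfl⟩
  obtain ⟨F1, hF1⟩ : ∃ F1 : X → ℝ, F1 = cE (w + u1) q g := ⟨_, rfl⟩
  obtain ⟨F0, hF0⟩ : ∃ F0 : X → ℝ, F0 = cE (w + u0) q g := ⟨_, rfl⟩
  obtain ⟨K, hK⟩ : ∃ K : ℝ, K = Real.exp (10 * A) := ⟨_, rfl⟩
  obtain ⟨E2, hE2⟩ : ∃ E2 : ℝ, E2 = Real.exp (2 * A) := ⟨_, rfl⟩
  have hK0 : 0 < K := hK ▸ Real.exp_pos _
  have hE21 : 1 ≤ E2 := hE2 ▸ Real.one_le_exp (by linarith)
  have hG0 : ∀ z, 0 ≤ G z := fun z => by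
    rw [hG]
    exact bd_nonneg _ _ _ _
  have hm0 : 0 ≤ m := hm ▸ cE_nonneg w q' hG0 x
  have hκ0 : 0 ≤ κ := hκ ▸ hτ1
  have b1 : ∀ y, |F1 y| ≤ M := fun y => hF1 ▸ abs_cE_le _ _ hg y
  have b0 : ∀ y, |F0 y| ≤ M := fun y => hF0 ▸ abs_cE_le _ _ hg y
  -- the inner change
  have c1 : ∀ y, |F1 y - F0 y| ≤ 2 * M * K * (cE w q G y + κ) := fun y => by
    have := lipE (w := w) hu1 hu0 q hτ hρA hg y
    rwa [hG', ← hF1, ← hF0, ← hκ, ← hK] at this
  have c2 : cE (w + u0) q' (fun y => |F1 y - F0 y|) x ≤ 2 * M * K * (E2 * m + κ) := by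
    refine (cE_mono _ _ c1 x).trans ?_
    rw [cE_affine]
    have a1 := cE_tilt (w := w) hu0 q' (f := cE w q G) (fun y => cE_nonneg w q hG0 y) x
    rw [cE_tower w hc, ← hm, ← hE2] at a1
    exact mul_le_mul_of_nonneg_left (by linarith) (by positivity)
  -- the first moments
  have d1 : |cE (w + u1) q' F1 x - cE (w + u0) q' F0 x| ≤ 4 * M * K * E2 * (m + κ) := by
    have a1 := lipE (w := w) hu1 hu0 q' hτ hρA b1 x
    rw [hG', ← hm, ← hκ, ← hK] at a1
    have a2 : |cE (w + u0) q' F1 x - cE (w + u0) q' F0 x| ≤ 2 * M * K * (E2 * m + κ) := by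
      have e : cE (w + u0) q' F1 x - cE (w + u0) q' F0 x = cE (w + u0) q' (F1 - F0) x := by
        rw [cE_sub]
        rfl
      rw [e]
      exact (cE_abs_le _ _ (F := fun y => |F1 y - F0 y|) (fun y => le_rfl) x).trans c2
    have a3 : |cE (w + u1) q' F1 x - cE (w + u0) q' F0 x| ≤ 2 * M * K * (m + κ) + 2 * M * K * (E2 * m + κ) := by
      calc _ = |(cE (w + u1) q' F1 x - cE (w + u0) q' F1 x) + (cE (w + u0) q' F1 x - cE (w + u0) q' F0 x)| := by ring_nf
        _ ≤ _ := (abs_add_le _ _).trans (add_le_add a1 a2)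
    refine a3.trans ?_
    have a4 : m + κ ≤ E2 * (m + κ) := by nlinarith
    have a5 : E2 * m + κ ≤ E2 * (m + κ) := by nlinarith
    have a6 : 0 ≤ 2 * M * K := by positivity
    nlinarith [mul_le_mul_of_nonneg_left a4 a6, mul_le_mul_of_nonneg_left a5 a6]
  -- the second moments
  have d2 : |cE (w + u1) q' (F1 * F1) x - cE (w + u0) q' (F0 * F0) x| ≤ 6 * M ^ 2 * K * E2 * (m + κ) := by
    have b2 : ∀ y, |(F1 * F1) y| ≤ M ^ 2 := fun y => by
      rw [Pi.mul_apply, abs_mul, sq]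
      exact mul_le_mul (b1 y) (b1 y) (abs_nonneg _) hM
    have a1 := lipE (w := w) hu1 hu0 q' hτ hρA b2 x
    rw [hG', ← hm, ← hκ, ← hK] at a1
    have a2 : |cE (w + u0) q' (F1 * F1) x - cE (w + u0) q' (F0 * F0) x| ≤ 2 * M * (2 * M * K * (E2 * m + κ)) := by
      have e : cE (w + u0) q' (F1 * F1) x - cE (w + u0) q' (F0 * F0) x = cE (w + u0) q' (F1 * F1 - F0 * F0) x := by
        rw [cE_sub]
        rfl
      rw [e]
      refine (cE_abs_le _ _ (F := (2 * M) • fun y => |F1 y - F0 y|) (fun y => ?_) x).trans ?_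
      · show |F1 y * F1 y - F0 y * F0 y| ≤ 2 * M * |F1 y - F0 y|
        have e2 : F1 y * F1 y - F0 y * F0 y = (F1 y + F0 y) * (F1 y - F0 y) := by ring
        rw [e2, abs_mul]
        refine mul_le_mul_of_nonneg_right ((abs_add_le _ _).trans ?_) (abs_nonneg _)
        linarith [b1 y, b0 y]
      · rw [cE_smul]
        show 2 * M * cE (w + u0) q' (fun y => |F1 y - F0 y|) x ≤ _
        exact mul_le_mul_of_nonneg_left c2 (by positivity)
    have a3 : |cE (w + u1) q' (F1 * F1) x - cE (w + u0) q' (F0 * F0) x| ≤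
        2 * M ^ 2 * K * (m + κ) + 2 * M * (2 * M * K * (E2 * m + κ)) := by
      calc _ = |(cE (w + u1) q' (F1 * F1) x - cE (w + u0) q' (F1 * F1) x) +
            (cE (w + u0) q' (F1 * F1) x - cE (w + u0) q' (F0 * F0) x)| := by ring_nf
        _ ≤ _ := (abs_add_le _ _).trans (add_le_add a1 a2)
    refine a3.trans ?_
    have a4 : m + κ ≤ E2 * (m + κ) := by nlinarith
    have a5 : E2 * m + κ ≤ E2 * (m + κ) := by nlinarith
    have a6 : 0 ≤ M ^ 2 * K := by positivity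
    nlinarith [mul_le_mul_of_nonneg_left a4 a6, mul_le_mul_of_nonneg_left a5 a6]
  have e1 := abs_cE_le (w + u1) q' b1 x
  have e0 := abs_cE_le (w + u0) q' b0 x
  have fin : |cV (w + u1) q' F1 x - cV (w + u0) q' F0 x| ≤ 14 * M ^ 2 * K * E2 * (m + κ) := by
    have g1 : cV (w + u1) q' F1 x - cV (w + u0) q' F0 x = (cE (w + u1) q' (F1 * F1) x - cE (w + u0) q' (F0 * F0) x) -
        (cE (w + u1) q' F1 x + cE (w + u0) q' F0 x) * (cE (w + u1) q' F1 x - cE (w + u0) q' F0 x) := by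
      unfold cV cC
      simp only [Pi.sub_apply, Pi.mul_apply]
      ring
    rw [g1]
    have g2 : |(cE (w + u1) q' F1 x + cE (w + u0) q' F0 x) * (cE (w + u1) q' F1 x - cE (w + u0) q' F0 x)| ≤
        2 * M * (4 * M * K * E2 * (m + κ)) := by
      rw [abs_mul]
      refine mul_le_mul ((abs_add_le _ _).trans ?_) d1 (abs_nonneg _) (by positivity)
      linarith
    refine (abs_sub _ _).trans ((add_le_add d2 g2).trans (le_of_eq ?_))
    ring
  have e12 : Real.exp (12 * A) = K * E2 := by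
    rw [hK, hE2, ← Real.exp_add]
    congr 1
    ring
  rw [e12, ← hκ, ← hG, ← hm, ← hF1, ← hF0]
  refine fin.trans (le_of_eq ?_)
  ring

/-- **ONE PAIR OF ROWS AT TWO CORNERS.** `h` = the box of the base path, `T`, `T'` = envelopes of the two conditional variances (for all
the weights), `κ₁` their tiny part. -/
theorem pair_kick {w u1 u0 : X → ℝ} {A M : ℝ} (hu1 : ∀ x, |u1 x| ≤ A) (hu0 : ∀ x, |u0 x| ≤ A) {qa' qb' : X → Y'} {qa qb : X → Y}
    (hca : Crs qa' qa) (hcb : Crs qb' qb) {τ q0 κ₁ : ℝ} (hτ : 0 ≤ τ) (hq : 0 ≤ q0) (hκ1 : 0 ≤ κ₁) (hκ1' : κ₁ ≤ 1)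
    (hκ2 : 14 * Real.exp (12 * A) * (q0 + (Real.exp τ - 1)) ≤ 1)
    {ga gb : X → ℝ} (hga : ∀ x, |ga x| ≤ M) (hgb : ∀ x, |gb x| ≤ M) {h T T' : X → ℝ} (h0 : ∀ x, 0 ≤ h x) (h1 : ∀ x, h x ≤ 1)
    (T0 : ∀ x, 0 ≤ T x) (T1 : ∀ x, T x ≤ 1) (T0' : ∀ x, 0 ≤ T' x) (T1' : ∀ x, T' x ≤ 1)
    (va1 : ∀ x, cV (w + u1) qa' (cE (w + u1) qa ga) x ≤ M ^ 2 * (T x + κ₁))
    (va0 : ∀ x, cV (w + u0) qa' (cE (w + u0) qa ga) x ≤ M ^ 2 * (T x + κ₁))
    (vb1 : ∀ x, cV (w + u1) qb' (cE (w + u1) qb gb) x ≤ M ^ 2 * (T' x + κ₁))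
    (vb0 : ∀ x, cV (w + u0) qb' (cE (w + u0) qb gb) x ≤ M ^ 2 * (T' x + κ₁)) :
    |gm (w + u1) (fun x => h x * (cV (w + u1) qa' (cE (w + u1) qa ga) x * cV (w + u1) qb' (cE (w + u1) qb gb) x)) -
        gm (w + u0) (fun x => h x * (cV (w + u0) qa' (cE (w + u0) qa ga) x * cV (w + u0) qb' (cE (w + u0) qb gb) x))| ≤
      M ^ 4 * (gm (w + u1) (fun x => h x * (T x * T' x) * BdI w (fun _ => ()) (u1 - u0) τ q0 x) +
        gm (w + u0) (fun x => h x * (T x * T' x) *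
          (BdI w (fun _ => ()) (u1 - u0) τ q0 x + BdI w qa' (u1 - u0) τ q0 x + BdI w qb' (u1 - u0) τ q0 x))) +
      M ^ 4 * (12 * κ₁ + 8 * (Real.exp (2 * A) * q0 + (Real.exp τ - 1)) + 56 * Real.exp (12 * A) * (q0 + (Real.exp τ - 1))) := by
  have hτ1 : 0 ≤ Real.exp τ - 1 := by linarith [Real.one_le_exp hτ]
  obtain ⟨r, hr⟩ : ∃ r : X → ℝ, r = u1 - u0 := ⟨_, rfl⟩
  obtain ⟨κ, hκ⟩ : ∃ κ : ℝ, κ = Real.exp (2 * A) * q0 + (Real.exp τ - 1) := ⟨_, rfl⟩
  obtain ⟨κ2, hκ2e⟩ : ∃ κ2 : ℝ, κ2 = 14 * Real.exp (12 * A) * (q0 + (Real.exp τ - 1)) := ⟨_, rfl⟩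
  have hκ0 : 0 ≤ κ := by
    rw [hκ]
    exact add_nonneg (mul_nonneg (Real.exp_pos _).le hq) hτ1
  have hκ20 : 0 ≤ κ2 := by
    rw [hκ2e]
    exact mul_nonneg (by positivity) (by linarith)
  have hκ21 : κ2 ≤ 1 := by
    rw [hκ2e]
    exact hκ2
  obtain ⟨a1, ha1⟩ : ∃ a1 : X → ℝ, a1 = cV (w + u1) qa' (cE (w + u1) qa ga) := ⟨_, rfl⟩
  obtain ⟨a0, ha0⟩ : ∃ a0 : X → ℝ, a0 = cV (w + u0) qa' (cE (w + u0) qa ga) := ⟨_, rfl⟩
  obtain ⟨b1, hb1⟩ : ∃ b1 : X → ℝ, b1 = cV (w + u1) qb' (cE (w + u1) qb gb) := ⟨_, rfl⟩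
  obtain ⟨b0, hb0⟩ : ∃ b0 : X → ℝ, b0 = cV (w + u0) qb' (cE (w + u0) qb gb) := ⟨_, rfl⟩
  have na1 : ∀ x, 0 ≤ a1 x := fun x => ha1 ▸ cV_nonneg _ _ _ x
  have na0 : ∀ x, 0 ≤ a0 x := fun x => ha0 ▸ cV_nonneg _ _ _ x
  have nb1 : ∀ x, 0 ≤ b1 x := fun x => hb1 ▸ cV_nonneg _ _ _ x
  have nb0 : ∀ x, 0 ≤ b0 x := fun x => hb0 ▸ cV_nonneg _ _ _ x
  rw [← ha1] at va1
  rw [← ha0] at va0
  rw [← hb1] at vb1
  rw [← hb0] at vb0
  have M2 : 0 ≤ M ^ 2 := sq_nonneg M
  have M4 : M ^ 4 = M ^ 2 * M ^ 2 := by ring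
  -- products of envelopes
  have prod_le : ∀ x, ∀ s t : ℝ, 0 ≤ s → 0 ≤ t → s ≤ M ^ 2 * (T x + κ₁) → t ≤ M ^ 2 * (T' x + κ₁) →
      h x * (s * t) ≤ M ^ 4 * (h x * (T x * T' x) + 3 * κ₁) := by
    intro x s t hs ht hs' ht'
    have c1 : s * t ≤ M ^ 2 * (T x + κ₁) * (M ^ 2 * (T' x + κ₁)) :=
      mul_le_mul hs' ht' ht (mul_nonneg M2 (add_nonneg (T0 x) hκ1))
    have c2 : (T x + κ₁) * (T' x + κ₁) ≤ T x * T' x + 3 * κ₁ := by nlinarith [T0 x, T1 x, T0' x, T1' x]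
    have c3 : s * t ≤ M ^ 4 * (T x * T' x + 3 * κ₁) := by
      refine c1.trans ?_
      rw [M4]
      calc M ^ 2 * (T x + κ₁) * (M ^ 2 * (T' x + κ₁)) = M ^ 2 * M ^ 2 * ((T x + κ₁) * (T' x + κ₁)) := by ring
        _ ≤ _ := mul_le_mul_of_nonneg_left c2 (mul_nonneg M2 M2)
    calc h x * (s * t) ≤ h x * (M ^ 4 * (T x * T' x + 3 * κ₁)) := mul_le_mul_of_nonneg_left c3 (h0 x)
      _ = M ^ 4 * (h x * (T x * T' x) + h x * (3 * κ₁)) := by ring
      _ ≤ _ := mul_le_mul_of_nonneg_left (by nlinarith [h1 x]) (by positivity)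
  -- the first term
  have t1 : |gm (w + u1) (fun x => h x * (a1 x * b1 x)) - gm (w + u0) (fun x => h x * (a1 x * b1 x))| ≤
      M ^ 4 * (gm (w + u1) (fun x => h x * (T x * T' x) * BdI w (fun _ => ()) r τ q0 x) +
        gm (w + u0) (fun x => h x * (T x * T' x) * BdI w (fun _ => ()) r τ q0 x)) + M ^ 4 * (6 * κ₁ + 8 * κ) := by
    have c0 := tvG (w := w) hu1 hu0 hτ hq (fun x => h x * (a1 x * b1 x))
    rw [← hr, ← hκ] at c0
    have c1 : ∀ v : X → ℝ, gm v (fun y => |h y * (a1 y * b1 y)| * (BdI w (fun _ => ()) r τ q0 y + κ)) ≤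
        M ^ 4 * gm v (fun x => h x * (T x * T' x) * BdI w (fun _ => ()) r τ q0 x) + M ^ 4 * (3 * κ₁ + 4 * κ) := by
      intro v
      have e1 : gm v (fun y => M ^ 4 * (h y * (T y * T' y) * BdI w (fun _ => ()) r τ q0 y + (3 * κ₁ + 4 * κ))) =
          M ^ 4 * gm v (fun x => h x * (T x * T' x) * BdI w (fun _ => ()) r τ q0 x) + M ^ 4 * (3 * κ₁ + 4 * κ) := by
        obtain ⟨x⟩ := ‹Nonempty X›
        rw [← gm_eq_cE v _ x, cE_affine, gm_eq_cE, mul_add]
      rw [← e1]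
      refine gm_mono v fun y => ?_
      have f1 := prod_le y _ _ (na1 y) (nb1 y) (va1 y) (vb1 y)
      have f2 : 0 ≤ h y * (a1 y * b1 y) := mul_nonneg (h0 y) (mul_nonneg (na1 y) (nb1 y))
      have B0 := BdI_nonneg w (fun _ => ()) r τ q0 y
      have B1 := BdI_le_one w (fun _ => ()) r τ q0 y
      rw [abs_of_nonneg f2]
      refine (mul_le_mul_of_nonneg_right f1 (by linarith)).trans ?_
      rw [mul_assoc]
      refine mul_le_mul_of_nonneg_left ?_ (by positivity)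
      have f3 : h y * (T y * T' y) ≤ 1 := by
        have g1 : T y * T' y ≤ 1 := by nlinarith [T0 y, T1 y, T0' y, T1' y]
        have g2 : 0 ≤ T y * T' y := mul_nonneg (T0 y) (T0' y)
        nlinarith [h0 y, h1 y]
      have f4 : 0 ≤ h y * (T y * T' y) := mul_nonneg (h0 y) (mul_nonneg (T0 y) (T0' y))
      nlinarith
    refine c0.trans ((add_le_add (c1 _) (c1 _)).trans (le_of_eq ?_))
    ring
  -- the second term
  have dif : ∀ x, ∀ s t : ℝ, ∀ (E : ℝ) (q' : X → Y'), 0 ≤ s → 0 ≤ t → s ≤ M ^ 2 * (E + κ₁) → t ≤ M ^ 2 * (E + κ₁) → 0 ≤ E →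
      |s - t| ≤ 14 * M ^ 2 * Real.exp (12 * A) * (cE w q' (bd r τ x) x + (Real.exp τ - 1)) →
      |s - t| ≤ M ^ 2 * (E * BdI w q' r τ q0 x + (κ₁ + κ2)) := by
    intro x s t E q' hs ht hs' ht' hE hst
    unfold BdI
    split_ifs with hb
    · rw [mul_one]
      have : |s - t| ≤ M ^ 2 * (E + κ₁) := by
        rw [abs_le]
        constructor <;> linarith
      have : M ^ 2 * (E + κ₁) ≤ M ^ 2 * (E + (κ₁ + κ2)) := mul_le_mul_of_nonneg_left (by linarith) M2
      linarith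
    · rw [mul_zero, zero_add]
      have e1 : 14 * M ^ 2 * Real.exp (12 * A) * (cE w q' (bd r τ x) x + (Real.exp τ - 1)) ≤ M ^ 2 * κ2 := by
        rw [hκ2e]
        have := mul_le_mul_of_nonneg_left (add_le_add (not_lt.1 hb) (le_refl (Real.exp τ - 1)))
          (by positivity : (0 : ℝ) ≤ 14 * M ^ 2 * Real.exp (12 * A))
        refine this.trans (le_of_eq ?_)
        ring
      have e2 : M ^ 2 * κ2 ≤ M ^ 2 * (κ₁ + κ2) := mul_le_mul_of_nonneg_left (by linarith) M2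
      linarith
  have t2 : |gm (w + u0) (fun x => h x * (a1 x * b1 x)) - gm (w + u0) (fun x => h x * (a0 x * b0 x))| ≤
      M ^ 4 * gm (w + u0) (fun x => h x * (T x * T' x) * (BdI w qa' r τ q0 x + BdI w qb' r τ q0 x)) +
        M ^ 4 * (6 * κ₁ + 4 * κ2) := by
    have e1 : gm (w + u0) (fun y => M ^ 4 * (h y * (T y * T' y) * (BdI w qa' r τ q0 y + BdI w qb' r τ q0 y) + (6 * κ₁ + 4 * κ2))) =
        M ^ 4 * gm (w + u0) (fun x => h x * (T x * T' x) * (BdI w qa' r τ q0 x + BdI w qb' r τ q0 x)) +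
          M ^ 4 * (6 * κ₁ + 4 * κ2) := by
      obtain ⟨x⟩ := ‹Nonempty X›
      rw [← gm_eq_cE (w + u0) _ x, cE_affine, gm_eq_cE, mul_add]
    rw [← e1]
    have e2 : gm (w + u0) (fun x => h x * (a1 x * b1 x)) - gm (w + u0) (fun x => h x * (a0 x * b0 x)) =
        gm (w + u0) (fun x => h x * (a1 x * b1 x) - h x * (a0 x * b0 x)) := by
      obtain ⟨x⟩ := ‹Nonempty X›
      have := congrFun (cE_sub (w + u0) (fun _ : X => ()) (fun x => h x * (a1 x * b1 x)) (fun x => h x * (a0 x * b0 x))) x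
      rw [Pi.sub_apply, gm_eq_cE, gm_eq_cE, gm_eq_cE] at this
      exact this.symm
    rw [e2]
    obtain ⟨x₀⟩ := ‹Nonempty X›
    rw [← gm_eq_cE (w + u0) _ x₀, ← gm_eq_cE (w + u0) _ x₀]
    refine cE_abs_le _ _ (fun y => ?_) x₀
    have f1 : |a1 y - a0 y| ≤ M ^ 2 * (T y * BdI w qa' r τ q0 y + (κ₁ + κ2)) :=
      dif y _ _ _ qa' (na1 y) (na0 y) (va1 y) (va0 y) (T0 y) (by
        have := lipV (w := w) hu1 hu0 hca hτ hga y
        rwa [← ha1, ← ha0, ← hr] at this)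
    have f2 : |b1 y - b0 y| ≤ M ^ 2 * (T' y * BdI w qb' r τ q0 y + (κ₁ + κ2)) :=
      dif y _ _ _ qb' (nb1 y) (nb0 y) (vb1 y) (vb0 y) (T0' y) (by
        have := lipV (w := w) hu1 hu0 hcb hτ hgb y
        rwa [← hb1, ← hb0, ← hr] at this)
    have B0 := BdI_nonneg w qa' r τ q0 y
    have B1 := BdI_le_one w qa' r τ q0 y
    have C0 := BdI_nonneg w qb' r τ q0 y
    have C1 := BdI_le_one w qb' r τ q0 y
    have g1 : |h y * (a1 y * b1 y) - h y * (a0 y * b0 y)| ≤ h y * (|a1 y - a0 y| * b1 y + a0 y * |b1 y - b0 y|) := by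
      have e3 : h y * (a1 y * b1 y) - h y * (a0 y * b0 y) = h y * ((a1 y - a0 y) * b1 y + a0 y * (b1 y - b0 y)) := by ring
      rw [e3, abs_mul, abs_of_nonneg (h0 y)]
      refine mul_le_mul_of_nonneg_left ((abs_add_le _ _).trans (le_of_eq ?_)) (h0 y)
      rw [abs_mul, abs_mul, abs_of_nonneg (nb1 y), abs_of_nonneg (na0 y)]
    have g2 : |a1 y - a0 y| * b1 y ≤ M ^ 4 * (T y * T' y * BdI w qa' r τ q0 y + (3 * κ₁ + 2 * κ2)) := by
      refine (mul_le_mul f1 (vb1 y) (nb1 y) (mul_nonneg M2 (add_nonneg (mul_nonneg (T0 y) B0) (by linarith)))).trans ?_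
      rw [M4]
      have k1 : (T y * BdI w qa' r τ q0 y + (κ₁ + κ2)) * (T' y + κ₁) ≤ T y * T' y * BdI w qa' r τ q0 y + (3 * κ₁ + 2 * κ2) := by
        have l1 : T y * BdI w qa' r τ q0 y ≤ 1 := by nlinarith [T0 y, T1 y]
        have l2 : 0 ≤ T y * BdI w qa' r τ q0 y := mul_nonneg (T0 y) B0
        nlinarith [T0' y, T1' y]
      calc M ^ 2 * (T y * BdI w qa' r τ q0 y + (κ₁ + κ2)) * (M ^ 2 * (T' y + κ₁))
          = M ^ 2 * M ^ 2 * ((T y * BdI w qa' r τ q0 y + (κ₁ + κ2)) * (T' y + κ₁)) := by ring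
        _ ≤ _ := mul_le_mul_of_nonneg_left k1 (mul_nonneg M2 M2)
    have g3 : a0 y * |b1 y - b0 y| ≤ M ^ 4 * (T y * T' y * BdI w qb' r τ q0 y + (3 * κ₁ + 2 * κ2)) := by
      refine (mul_le_mul (va0 y) f2 (abs_nonneg _) (mul_nonneg M2 (add_nonneg (T0 y) hκ1))).trans ?_
      rw [M4]
      have k1 : (T y + κ₁) * (T' y * BdI w qb' r τ q0 y + (κ₁ + κ2)) ≤ T y * T' y * BdI w qb' r τ q0 y + (3 * κ₁ + 2 * κ2) := by
        have l1 : T' y * BdI w qb' r τ q0 y ≤ 1 := by nlinarith [T0' y, T1' y]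
        have l2 : 0 ≤ T' y * BdI w qb' r τ q0 y := mul_nonneg (T0' y) C0
        nlinarith [T0 y, T1 y]
      calc M ^ 2 * (T y + κ₁) * (M ^ 2 * (T' y * BdI w qb' r τ q0 y + (κ₁ + κ2)))
          = M ^ 2 * M ^ 2 * ((T y + κ₁) * (T' y * BdI w qb' r τ q0 y + (κ₁ + κ2))) := by ring
        _ ≤ _ := mul_le_mul_of_nonneg_left k1 (mul_nonneg M2 M2)
    refine g1.trans ((mul_le_mul_of_nonneg_left (add_le_add g2 g3) (h0 y)).trans ?_)
    have k2 : 0 ≤ 6 * κ₁ + 4 * κ2 := by linarith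
    calc h y * (M ^ 4 * (T y * T' y * BdI w qa' r τ q0 y + (3 * κ₁ + 2 * κ2)) +
          M ^ 4 * (T y * T' y * BdI w qb' r τ q0 y + (3 * κ₁ + 2 * κ2)))
        = M ^ 4 * (h y * (T y * T' y) * (BdI w qa' r τ q0 y + BdI w qb' r τ q0 y) + h y * (6 * κ₁ + 4 * κ2)) := by ring
      _ ≤ _ := mul_le_mul_of_nonneg_left (by nlinarith [h1 y]) (by positivity)
  -- together
  rw [← hr, ← hκ, ← ha1, ← ha0, ← hb1, ← hb0]
  have e5 : 56 * Real.exp (12 * A) * (q0 + (Real.exp τ - 1)) = 4 * κ2 := by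
    rw [hκ2e]
    ring
  rw [e5]
  have e6 : gm (w + u0) (fun x => h x * (T x * T' x) *
      (BdI w (fun _ => ()) r τ q0 x + BdI w qa' r τ q0 x + BdI w qb' r τ q0 x)) =
      gm (w + u0) (fun x => h x * (T x * T' x) * BdI w (fun _ => ()) r τ q0 x) +
        gm (w + u0) (fun x => h x * (T x * T' x) * (BdI w qa' r τ q0 x + BdI w qb' r τ q0 x)) := by
    obtain ⟨x⟩ := ‹Nonempty X›
    have e7 := congrFun (cE_add (w + u0) (fun _ : X => ()) (fun x => h x * (T x * T' x) * BdI w (fun _ => ()) r τ q0 x)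
      (fun x => h x * (T x * T' x) * (BdI w qa' r τ q0 x + BdI w qb' r τ q0 x))) x
    rw [Pi.add_apply, gm_eq_cE, gm_eq_cE, gm_eq_cE] at e7
    rw [← e7]
    congr 1
    funext z
    rw [Pi.add_apply]
    ring
  rw [e6]
  have e8 : |gm (w + u1) (fun x => h x * (a1 x * b1 x)) - gm (w + u0) (fun x => h x * (a0 x * b0 x))| ≤
      |gm (w + u1) (fun x => h x * (a1 x * b1 x)) - gm (w + u0) (fun x => h x * (a1 x * b1 x))| +
        |gm (w + u0) (fun x => h x * (a1 x * b1 x)) - gm (w + u0) (fun x => h x * (a0 x * b0 x))| := abs_sub_le _ _ _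
  refine e8.trans ((add_le_add t1 t2).trans (le_of_eq ?_))
  ring

end

end Pool.Agent.W_7d29a1_C0.Kick32
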