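import Pool.Agent.W_7d29a1_C0.Two63B
import Pool.Agent.W_7d29a1_C0.Ins52B
import Pool.Agent.W_7d29a1_C0.DGam14
import Pool.Agent.W_7d29a1_C0.CrossW81

/-!
CURV0 (MP_7d29a1_pr), leaf E5.8 (`N1 x N1` in one row form), helper38: THE LABELLED REPLICA SYSTEM.

The outer replica is drawn with the weights `w` (label `false` = out), the two inner replicas are drawn given what `p` sees of it, with the
weights `wi` (label `true` = inj). `lab w wi` = the weights of the labelled paths, `P38 p` the plan of the three replicas (`x 2` = outer,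
`x 1`, `x 0` = inner pair), `psN` the integrand: `ev_psN : ev (psN Yf γ g) = gm w (Yf * cC wi p γ g)`. Its derivative in the direction
`inj g0` (= `g0` at the inner replicas, `0` at the outer one) is the derivative of the inner weights along `g0`; so
`ins_ins_psN : gm w (Yf * kX p [g0, g0, γ, g] wi)` = two insertions of `inj g0`. `cut38`: the part of the integrand in which the inner pair
meets on both sides of `[al, be]` does not contribute; the rest is `psC (NI be d)` plus `psC ((1 - NI be d) * NI c al)`.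
-/

set_option autoImplicit false
set_option linter.unusedSectionVars false
set_option linter.unusedVariables false

namespace Pool.W7d29a1.C0.L38

open Finset Filter Topology MeasureTheory
open Pool.Agent.W_7d29a1_F Pool.Agent.W_7d29a1_C0 Pool.W7d29a1.C0 Pool.W7d29a1.C0.VT31 Pool.W7d29a1.C0.I52
open Pool.Agent.W_7d29a1_C0.Swap57
open Pool.Agent.W_7d29a1_C0.Mod92 (Px ps pJ crs_pJ)

noncomputable section

/-! ### Labels -/

section Abs

variable {X : Type*} [Fintype X] [DecidableEq X] [Nonempty X] {Y : Type*} [DecidableEq Y]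

/-- The weights of the labelled paths: `w` for the label out (`false`), `wi` for the label inj (`true`). -/
def lab (w wi : X → ℝ) (z : X × Bool) : ℝ := cond z.2 (wi z.1) (w z.1)

/-- A function of the path at the inner replicas, `0` at the outer ones. -/
def inj (g : X → ℝ) (z : X × Bool) : ℝ := cond z.2 (g z.1) 0

/-- A function of the path at the outer replicas, `0` at the inner ones. -/
def out (g : X → ℝ) (z : X × Bool) : ℝ := cond z.2 0 (g z.1)

/-- A function of the path, for both labels. -/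
def fp (g : X → ℝ) (z : X × Bool) : ℝ := g z.1

theorem fp_eq (g : X → ℝ) : fp g = inj g + out g := by
  funext z
  obtain ⟨x, l⟩ := z
  cases l
  · show g x = 0 + g x
    rw [zero_add]
  · show g x = g x + 0
    rw [add_zero]

/-- The labelled paths with the label out. -/
def Ao (X : Type*) [Fintype X] : Finset (X × Bool) := univ.filter fun z => z.2 = false

/-- The labelled paths with the label inj in the fibre of `a`. -/
def Ai (p : X → Y) (a : X) : Finset (X × Bool) := univ.filter fun z => z.2 = true ∧ p z.1 = p a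

theorem ne_Ao : (Ao X).Nonempty := ⟨(Classical.arbitrary X, false), by unfold Ao; rw [mem_filter]; exact ⟨mem_univ _, rfl⟩⟩

theorem ne_Ai (p : X → Y) (a : X) : (Ai p a).Nonempty :=
  ⟨(a, true), by unfold Ai; rw [mem_filter]; exact ⟨mem_univ _, rfl, rfl⟩⟩

theorem sum_Ao (G : X × Bool → ℝ) : ∑ z ∈ Ao X, G z = ∑ x, G (x, false) := by
  unfold Ao
  rw [sum_filter, Fintype.sum_prod_type]
  refine sum_congr rfl fun x _ => ?_
  rw [Fintype.sum_bool]
  simp

theorem sum_Ai (p : X → Y) (a : X) (G : X × Bool → ℝ) :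
    ∑ z ∈ Ai p a, G z = ∑ x, if p x = p a then G (x, true) else 0 := by
  unfold Ai
  rw [sum_filter, Fintype.sum_prod_type]
  refine sum_congr rfl fun x _ => ?_
  rw [Fintype.sum_bool]
  simp

theorem av_Ao (w wi : X → ℝ) (F : X × Bool → ℝ) : av (lab w wi) (Ao X) F = gm w fun x => F (x, false) := by
  rw [av_eq]
  unfold zs gm gz
  rw [sum_Ao, sum_Ao]
  rfl

theorem av_Ai (w wi : X → ℝ) (p : X → Y) (a : X) (F : X × Bool → ℝ) :
    av (lab w wi) (Ai p a) F = cE wi p (fun x => F (x, true)) a := by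
  rw [av_eq]
  unfold zs cE fz
  rw [sum_Ai, sum_Ai]
  rfl

/-! ### The plan -/

/-- The plan: the outer replica, two inner replicas given what `p` sees of it. -/
def P38 (p : X → Y) : Plan (X × Bool) 3 :=
  Plan.cons (Plan.cons (Plan.cons Plan.nil (fun _ => Ao X) fun _ => ne_Ao) (fun x => Ai p (x 0).1) fun x => ne_Ai p _)
    (fun x => Ai p (x 1).1) fun x => ne_Ai p _

theorem ev_P38 (p : X → Y) (w wi : X → ℝ) (F : X × Bool → X × Bool → X × Bool → ℝ) :
    I52.ev (P38 p) (lab w wi) (fun x => F (x 2) (x 1) (x 0)) =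
      gm w fun a => cE wi p (fun b => cE wi p (fun c => F (a, false) (b, true) (c, true)) a) a := by
  have e1 : I52.ev (P38 p) (lab w wi) (fun x => F (x 2) (x 1) (x 0)) =
      I52.ev (Plan.cons (Plan.cons Plan.nil (fun _ => Ao X) fun _ => ne_Ao) (fun x => Ai p (x 0).1) fun x => ne_Ai p _)
        (lab w wi) fun x => cE wi p (fun c => F (x 1) (x 0) (c, true)) (x 1).1 := by
    show I52.ev (Plan.cons _ _ _) (lab w wi) _ = _
    rw [ev_cons]
    refine I52.ev_congr _ _ fun x => ?_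
    rw [av_Ai]
    rfl
  have e2 : I52.ev (Plan.cons (Plan.cons Plan.nil (fun _ => Ao X) fun _ => ne_Ao) (fun x => Ai p (x 0).1) fun x => ne_Ai p _)
      (lab w wi) (fun x => cE wi p (fun c => F (x 1) (x 0) (c, true)) (x 1).1) =
      I52.ev (Plan.cons Plan.nil (fun _ => Ao X) fun _ => ne_Ao) (lab w wi) fun x =>
        cE wi p (fun b => cE wi p (fun c => F (x 0) (b, true) (c, true)) (x 0).1) (x 0).1 := by
    rw [ev_cons]
    refine I52.ev_congr _ _ fun x => ?_
    rw [av_Ai]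
    rfl
  rw [e1, e2, ev_cons, ev_nil, av_Ao]
  rfl

/-- The kernel system of the three labelled replicas. -/
def K38 (p : X → Y) : KS (X × Bool) (Fin 3) := (P38 p).ks

theorem ev_K38 (p : X → Y) (w wi : X → ℝ) (F : X × Bool → X × Bool → X × Bool → ℝ) :
    (K38 p).toEv.ev (lab w wi) (fun x => F (x 2) (x 1) (x 0)) =
      gm w fun a => cE wi p (fun b => cE wi p (fun c => F (a, false) (b, true) (c, true)) a) a := by
  unfold K38
  rw [ks_ev, ev_P38]

/-! ### The integrand -/

/-- The integrand: a function `Yf` of the outer replica times the pair form of the conditional covariance. -/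
def psN (Yf γ g : X → ℝ) (x : Fin 3 → X × Bool) : ℝ :=
  Yf (x 2).1 * (1 / 2 * (γ (x 1).1 - γ (x 0).1) * (g (x 1).1 - g (x 0).1))

/-- The integrand with a cut `χ` of the inner pair. -/
def psC (χ : X → X → ℝ) (Yf γ g : X → ℝ) (x : Fin 3 → X × Bool) : ℝ := χ (x 1).1 (x 0).1 * psN Yf γ g x

theorem cE_pair (w : X → ℝ) (p : X → Y) (γ g : X → ℝ) (a : X) :
    cE w p (fun b => cE w p (fun c => 1 / 2 * (γ b - γ c) * (g b - g c)) a) a = cC w p γ g a := by
  have h1 : ∀ b, cE w p (fun c => 1 / 2 * (γ b - γ c) * (g b - g c)) a =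
      1 / 2 * (γ b * g b) - 1 / 2 * (γ b * cE w p g a) - 1 / 2 * (cE w p γ a * g b) + 1 / 2 * cE w p (γ * g) a := fun b => by
    have h2 : (fun c => 1 / 2 * (γ b - γ c) * (g b - g c)) =
        (1 / 2 * (γ b * g b)) • (fun _ : X => (1 : ℝ)) + (-(1 / 2 * γ b)) • g + (-(1 / 2 * g b)) • γ + (1 / 2 : ℝ) • (γ * g) := by
      funext c
      simp only [Pi.add_apply, Pi.smul_apply, Pi.mul_apply, smul_eq_mul]
      ring
    rw [h2, cE_add, cE_add, cE_add, cE_smul, cE_smul, cE_smul, cE_smul, cE_one]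
    simp only [Pi.add_apply, Pi.smul_apply, smul_eq_mul]
    ring
  have h3 : (fun b => cE w p (fun c => 1 / 2 * (γ b - γ c) * (g b - g c)) a) =
      (1 / 2 : ℝ) • (γ * g) + (-(1 / 2 * cE w p g a)) • γ + (-(1 / 2 * cE w p γ a)) • g +
        (1 / 2 * cE w p (γ * g) a) • (fun _ : X => (1 : ℝ)) := by
    funext b
    rw [h1]
    simp only [Pi.add_apply, Pi.smul_apply, Pi.mul_apply, smul_eq_mul]
    ring
  rw [h3, cE_add, cE_add, cE_add, cE_smul, cE_smul, cE_smul, cE_smul, cE_one]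
  unfold cC
  simp only [Pi.add_apply, Pi.sub_apply, Pi.smul_apply, Pi.mul_apply, smul_eq_mul]
  ring

theorem cE_const_mul (w : X → ℝ) (p : X → Y) (k : ℝ) (f : X → ℝ) (a : X) : cE w p (fun c => k * f c) a = k * cE w p f a := by
  have h : (fun c => k * f c) = k • f := rfl
  rw [h, cE_smul, Pi.smul_apply, smul_eq_mul]

/-- **The outer mean of the conditional covariance is the mean of `psN`.** -/
theorem ev_psN (p : X → Y) (w wi Yf γ g : X → ℝ) :
    (K38 p).toEv.ev (lab w wi) (psN Yf γ g) = gm w (Yf * cC wi p γ g) := by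
  have h := ev_K38 p w wi fun a b c => Yf a.1 * (1 / 2 * (γ b.1 - γ c.1) * (g b.1 - g c.1))
  have e : psN Yf γ g = fun x : Fin 3 → X × Bool =>
      (fun a b c : X × Bool => Yf a.1 * (1 / 2 * (γ b.1 - γ c.1) * (g b.1 - g c.1))) (x 2) (x 1) (x 0) := rfl
  rw [e, h]
  congr 1
  funext a
  have h2 : ∀ b, cE wi p (fun c => Yf a * (1 / 2 * (γ b - γ c) * (g b - g c))) a =
      Yf a * cE wi p (fun c => 1 / 2 * (γ b - γ c) * (g b - g c)) a := fun b => cE_const_mul wi p _ _ a
  show cE wi p (fun b => cE wi p (fun c => Yf a * (1 / 2 * (γ b - γ c) * (g b - g c))) a) a = _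
  rw [funext h2, cE_const_mul, cE_pair]
  rfl

/-! ### Two derivatives in the direction of the inner weights -/

theorem lab_line (w wi g : X → ℝ) (u : ℝ) : lab w (wi + u • g) = lab w wi + u • inj g := by
  funext z
  obtain ⟨x, l⟩ := z
  cases l
  · show w x = w x + u * 0
    rw [mul_zero, add_zero]
  · rfl

theorem der_lab (w wi g : X → ℝ) (t : ℝ) : HasDerivAt (fun u : ℝ => lab w (wi + u • g)) (inj g) t := by
  simp_rw [lab_line]
  exact gline (lab w wi) (inj g) t

theorem der_gm_kX (w Yf : X → ℝ) (p : X → Y) (gs : List (X → ℝ)) (wi g : X → ℝ) (t : ℝ) :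
    HasDerivAt (fun u : ℝ => gm w (Yf * kX p gs (wi + u • g))) (gm w (Yf * kX p (g :: gs) (wi + t • g))) t := by
  unfold gm
  refine HasDerivAt.div_const ?_ _
  refine HasDerivAt.fun_sum fun x _ => HasDerivAt.const_mul _ ?_
  exact (hasDerivAt_kX p gs (hasDerivAt_line wi g t) x).const_mul (Yf x)

/-- **Two insertions**: for every observable `Ψ` which has the mean of `psN` for all the weights `lab w (wi + u g0)`. -/
theorem ins_ins_of (p : X → Y) (w wi g0 Yf γ g : X → ℝ) (Ψ : (Fin 3 → X × Bool) → ℝ)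
    (h : ∀ u : ℝ, (K38 p).toEv.ev (lab w (wi + u • g0)) Ψ = gm w (Yf * cC (wi + u • g0) p γ g)) :
    (K38 p).dbl.dbl.toEv.ev (lab w wi) ((K38 p).dbl.dr.ins (inj g0) ((K38 p).dr.ins (inj g0) Ψ)) =
      gm w (Yf * kX p [g0, g0, γ, g] wi) := by
  have h1 : ∀ u : ℝ, (K38 p).dbl.toEv.ev (lab w (wi + u • g0)) ((K38 p).dr.ins (inj g0) Ψ) =
      gm w (Yf * kX p [g0, γ, g] (wi + u • g0)) := fun u => by
    have d1 := (K38 p).dr.der' Ψ (der_lab w wi g0 u)
    have d2 := der_gm_kX w Yf p [γ, g] wi g0 u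
    have e : (fun u : ℝ => (K38 p).toEv.ev (lab w (wi + u • g0)) Ψ) = fun u => gm w (Yf * kX p [γ, g] (wi + u • g0)) := by
      funext u
      rw [h u, kX_two]
    rw [e] at d1
    exact d1.unique d2
  have d1 := (K38 p).dbl.dr.der' ((K38 p).dr.ins (inj g0) Ψ) (der_lab w wi g0 0)
  have d2 := der_gm_kX w Yf p [g0, γ, g] wi g0 0
  rw [funext h1] at d1
  have h3 := d1.unique d2
  rwa [zero_smul, add_zero] at h3

/-- One insertion. -/
theorem ins_of (p : X → Y) (w wi g0 Yf γ g : X → ℝ) (Ψ : (Fin 3 → X × Bool) → ℝ)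
    (h : ∀ u : ℝ, (K38 p).toEv.ev (lab w (wi + u • g0)) Ψ = gm w (Yf * cC (wi + u • g0) p γ g)) :
    (K38 p).dbl.toEv.ev (lab w wi) ((K38 p).dr.ins (inj g0) Ψ) = gm w (Yf * kX p [g0, γ, g] wi) := by
  have d1 := (K38 p).dr.der' Ψ (der_lab w wi g0 0)
  have d2 := der_gm_kX w Yf p [γ, g] wi g0 0
  have e : (fun u : ℝ => (K38 p).toEv.ev (lab w (wi + u • g0)) Ψ) = fun u => gm w (Yf * kX p [γ, g] (wi + u • g0)) := by
    funext u
    rw [h u, kX_two]
  rw [e] at d1
  have h3 := d1.unique d2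
  rwa [zero_smul, add_zero] at h3

/-! ### Bounds of the integrand -/

theorem abs_psC_le {χ : X → X → ℝ} (h0 : ∀ x x', 0 ≤ χ x x') (Yf γ g : X → ℝ) (x : Fin 3 → X × Bool) :
    |psC χ Yf γ g x| = |Yf (x 2).1| * (1 / 2 * |γ (x 1).1 - γ (x 0).1| * |g (x 1).1 - g (x 0).1|) * χ (x 1).1 (x 0).1 := by
  unfold psC psN
  rw [abs_mul, abs_mul, abs_mul, abs_mul, abs_of_nonneg (h0 _ _), abs_of_pos (by norm_num : (0 : ℝ) < 1 / 2)]
  ring

theorem abs_psC_bd {χ : X → X → ℝ} (h0 : ∀ x x', 0 ≤ χ x x') (h1 : ∀ x x', χ x x' ≤ 1) {Yf γ g : X → ℝ} {L Mγ Mg : ℝ}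
    (hY : ∀ x, |Yf x| ≤ L) (hγ : ∀ x, |γ x| ≤ Mγ) (hg : ∀ x, |g x| ≤ Mg) (x : Fin 3 → X × Bool) :
    |psC χ Yf γ g x| ≤ L * (2 * Mγ * Mg) := by
  rw [abs_psC_le h0]
  have hL : 0 ≤ L := (abs_nonneg _).trans (hY (x 2).1)
  have hMγ : 0 ≤ Mγ := (abs_nonneg _).trans (hγ (x 2).1)
  have hMg : 0 ≤ Mg := (abs_nonneg _).trans (hg (x 2).1)
  have e1 : |γ (x 1).1 - γ (x 0).1| ≤ 2 * Mγ := (abs_sub _ _).trans (by linarith [hγ (x 1).1, hγ (x 0).1])
  have e2 : |g (x 1).1 - g (x 0).1| ≤ 2 * Mg := (abs_sub _ _).trans (by linarith [hg (x 1).1, hg (x 0).1])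
  calc |Yf (x 2).1| * (1 / 2 * |γ (x 1).1 - γ (x 0).1| * |g (x 1).1 - g (x 0).1|) * χ (x 1).1 (x 0).1 ≤
      L * (1 / 2 * (2 * Mγ) * (2 * Mg)) * 1 := by
        gcongr
        · exact h0 _ _
        · exact hY _
        · exact h1 _ _
    _ = _ := by ring

end Abs

/-! ### The cut -/

section Cut

variable {Q : Finset (Finset ℕ)} [Nonempty (Px Q)] [SwQ Q] {Y : Type*} [DecidableEq Y] {c al be d : ℕ}

/-- The cut of the right part: the inner pair does not meet on `[be, d]`. -/
def cR (Q : Finset (Finset ℕ)) (be d : ℕ) (S S' : Px Q) : ℝ := NI be d S S'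

/-- The cut of the left part: it meets on `[be, d]` and does not meet on `[c, al]`. -/
def cL (Q : Finset (Finset ℕ)) (c al be d : ℕ) (S S' : Px Q) : ℝ := (1 - NI be d S S') * NI c al S S'

theorem NI_le_one (i j : ℕ) (S S' : Px Q) : NI i j S S' ≤ 1 := by
  unfold NI
  split_ifs
  · exact le_rfl
  · exact zero_le_one

theorem cR_nonneg (be d : ℕ) (S S' : Px Q) : 0 ≤ cR Q be d S S' := NI_nonneg _ _ _ _

theorem cR_le_one (be d : ℕ) (S S' : Px Q) : cR Q be d S S' ≤ 1 := NI_le_one _ _ _ _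

theorem cL_nonneg (c al be d : ℕ) (S S' : Px Q) : 0 ≤ cL Q c al be d S S' :=
  mul_nonneg (sub_nonneg.2 (NI_le_one _ _ _ _)) (NI_nonneg _ _ _ _)

theorem cL_le (c al be d : ℕ) (S S' : Px Q) : cL Q c al be d S S' ≤ NI c al S S' := by
  unfold cL
  have h1 := NI_nonneg be d S S'
  have h2 := NI_nonneg c al S S'
  nlinarith

theorem cL_le_one (c al be d : ℕ) (S S' : Px Q) : cL Q c al be d S S' ≤ 1 := (cL_le c al be d S S').trans (NI_le_one _ _ _ _)

/-- The pairs which do not meet on both sides. -/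
theorem NM_cut (c al be d : ℕ) (S S' : Px Q) : NM c al be d S S' = cR Q be d S S' + cL Q c al be d S S' := by
  classical
  have hM : Mt c al be d S S' ↔ (∃ i, c ≤ i ∧ i ≤ al ∧ Eqp S S' i) ∧ ∃ i, be ≤ i ∧ i ≤ d ∧ Eqp S S' i := Iff.rfl
  have k : ∀ i j : ℕ, ((∃ r, i ≤ r ∧ r ≤ j ∧ Eqp S S' r) → NI i j S S' = 0) ∧
      (¬(∃ r, i ≤ r ∧ r ≤ j ∧ Eqp S S' r) → NI i j S S' = 1) := fun i j => by
    unfold NI
    constructor
    · rintro ⟨r, h1, h2, h3⟩
      rw [if_neg fun h => h r h1 h2 h3]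
    · intro h
      exact if_pos fun r h1 h2 h3 => h ⟨r, h1, h2, h3⟩
  unfold cR cL
  by_cases h1 : ∃ i, be ≤ i ∧ i ≤ d ∧ Eqp S S' i
  · by_cases h2 : ∃ i, c ≤ i ∧ i ≤ al ∧ Eqp S S' i
    · rw [NM_of (hM.2 ⟨h2, h1⟩), (k be d).1 h1, (k c al).1 h2]
      ring
    · rw [NM_of_not (fun h => h2 (hM.1 h).1), (k be d).1 h1, (k c al).2 h2]
      ring
  · rw [NM_of_not (fun h => h1 (hM.1 h).2), (k be d).2 h1]
    ring

/-- The double mean over the pairs which meet on both sides vanishes. -/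
theorem cE_cut (hab : al ≤ be) {p : Px Q → Y} (hp : Crs p (pJ c d)) {w : Px Q → ℝ} (hw : Wk c al be d w)
    {γ g : Px Q → ℝ} (hγ : Mp (pJ c d) γ) (hg : Lk al be g) (S0 : Px Q) :
    cE w p (fun b => cE w p (fun c' => (1 - NM c al be d b c') * (1 / 2 * (γ b - γ c') * (g b - g c'))) S0) S0 = 0 := by
  classical
  have hinv : ∀ S S', Mt c al be d S S' → p (sw c d S S') = p S := fun S S' h => hp _ _ (pJ_sw hab h)
  have hsy : ∀ {S S' : Px Q}, Mt c al be d S S' → Mt c al be d S' S := fun h => by rw [Mt_symm]; exact h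
  have h0 := swap_zero hab hw hg
    (fun S S' => (if p S = p S0 then (if p S' = p S0 then (1 : ℝ) else 0) else 0) * (γ S - γ S'))
    (fun S S' hm => by
      show (if p (sw c d S S') = p S0 then (if p (sw c d S' S) = p S0 then (1 : ℝ) else 0) else 0) *
        (γ (sw c d S S') - γ (sw c d S' S)) = _
      rw [hinv _ _ hm, hinv _ _ (hsy hm), hγ _ _ (pJ_sw hab hm), hγ _ _ (pJ_sw hab (hsy hm))])
  have e5 : cE w p (fun b => cE w p (fun c' => (1 - NM c al be d b c') * (1 / 2 * (γ b - γ c') * (g b - g c'))) S0) S0 =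
      1 / 2 * ((∑ S, ∑ S', (if Mt c al be d S S' then Real.exp (w S) * Real.exp (w S') *
        ((if p S = p S0 then (if p S' = p S0 then (1 : ℝ) else 0) else 0) * (γ S - γ S')) *
          (g S - g S') else 0)) / (fz w p S0 * fz w p S0)) := by
    unfold cE
    rw [eq_comm, ← div_div, sum_div, mul_div_assoc', mul_sum]
    congr 1
    refine sum_congr rfl fun S _ => ?_
    split_ifs with h1
    · rw [mul_div_assoc', mul_div_assoc', mul_sum, mul_sum]
      congr 1
      refine sum_congr rfl fun S' _ => ?_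
      beta_reduce
      by_cases hm : Mt c al be d S S'
      · rw [NM_of hm, if_pos hm]
        split_ifs <;> ring
      · rw [NM_of_not hm, if_neg hm]
        split_ifs <;> ring
    · rw [mul_eq_zero]
      right
      rw [div_eq_zero_iff]
      left
      refine sum_eq_zero fun S' _ => ?_
      split_ifs <;> ring
  rw [e5, h0, zero_div, mul_zero]

/-- **THE CUT**: for all the inner weights with the swap property. -/
theorem cut38 (hab : al ≤ be) {p : Px Q → Y} (hp : Crs p (pJ c d)) (w : Px Q → ℝ) {wi : Px Q → ℝ} (hw : Wk c al be d wi)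
    (Yf : Px Q → ℝ) {γ g : Px Q → ℝ} (hγ : Mp (pJ c d) γ) (hg : Lk al be g) :
    (K38 p).toEv.ev (lab w wi) (fun x => psC (cR Q be d) Yf γ g x + psC (cL Q c al be d) Yf γ g x) =
      gm w (Yf * cC wi p γ g) := by
  rw [← ev_psN p w wi Yf γ g]
  have e : ∀ x : Fin 3 → Px Q × Bool, psN Yf γ g x = (psC (cR Q be d) Yf γ g x + psC (cL Q c al be d) Yf γ g x) +
      (fun a b c' : Px Q × Bool => Yf a.1 * ((1 - NM c al be d b.1 c'.1) * (1 / 2 * (γ b.1 - γ c'.1) * (g b.1 - g c'.1))))
        (x 2) (x 1) (x 0) := fun x => by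
    show psN Yf γ g x = psC (cR Q be d) Yf γ g x + psC (cL Q c al be d) Yf γ g x +
      Yf (x 2).1 * ((1 - NM c al be d (x 1).1 (x 0).1) * (1 / 2 * (γ (x 1).1 - γ (x 0).1) * (g (x 1).1 - g (x 0).1)))
    unfold psC psN
    rw [NM_cut]
    ring
  have ha := H41.ev_add (K38 p).toEv (lab w wi) (fun x => psC (cR Q be d) Yf γ g x + psC (cL Q c al be d) Yf γ g x)
    fun x => (fun a b c' : Px Q × Bool => Yf a.1 * ((1 - NM c al be d b.1 c'.1) * (1 / 2 * (γ b.1 - γ c'.1) *
      (g b.1 - g c'.1)))) (x 2) (x 1) (x 0)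
  rw [H41.ev_congr _ _ e, ha, ev_K38 p w wi fun a b c' : Px Q × Bool => Yf a.1 * ((1 - NM c al be d b.1 c'.1) *
    (1 / 2 * (γ b.1 - γ c'.1) * (g b.1 - g c'.1)))]
  have z : (gm w fun a => cE wi p (fun b => cE wi p (fun c' => Yf a *
      ((1 - NM c al be d b c') * (1 / 2 * (γ b - γ c') * (g b - g c')))) a) a) = 0 := by
    have z1 : ∀ a, cE wi p (fun b => cE wi p (fun c' => Yf a *
        ((1 - NM c al be d b c') * (1 / 2 * (γ b - γ c') * (g b - g c')))) a) a = 0 := fun a => by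
      have h2 : ∀ b, cE wi p (fun c' => Yf a * ((1 - NM c al be d b c') * (1 / 2 * (γ b - γ c') * (g b - g c')))) a =
          Yf a * cE wi p (fun c' => (1 - NM c al be d b c') * (1 / 2 * (γ b - γ c') * (g b - g c'))) a := fun b =>
        cE_const_mul wi p _ _ a
      rw [funext h2, cE_const_mul, cE_cut hab hp hw hγ hg, mul_zero]
    unfold gm
    rw [sum_eq_zero fun a _ => by
      beta_reduce
      rw [z1, mul_zero], zero_div]
  have z' : (gm w fun a => cE wi p (fun b => cE wi p (fun c_1 => Yf (a, false).1 *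
      ((1 - NM c al be d (b, true).1 (c_1, true).1) * (1 / 2 * (γ (b, true).1 - γ (c_1, true).1) *
        (g (b, true).1 - g (c_1, true).1)))) a) a) = 0 := z
  rw [z', add_zero]

/-- **The two parts of the third order part**, two insertions in each. -/
theorem ins_ins_cut (hab : al ≤ be) {p : Px Q → Y} (hp : Crs p (pJ c d)) (w : Px Q → ℝ) {wi : Px Q → ℝ} (hw : Wk c al be d wi)
    (Yf : Px Q → ℝ) {γ g : Px Q → ℝ} (hγ : Mp (pJ c d) γ) (hg : Lk al be g) :
    gm w (Yf * kX p [g, g, γ, g] wi) =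
      (K38 p).dbl.dbl.toEv.ev (lab w wi) ((K38 p).dbl.dr.ins (inj g) ((K38 p).dr.ins (inj g) (psC (cR Q be d) Yf γ g))) +
      (K38 p).dbl.dbl.toEv.ev (lab w wi) ((K38 p).dbl.dr.ins (inj g) ((K38 p).dr.ins (inj g) (psC (cL Q c al be d) Yf γ g))) := by
  rw [← ins_ins_of p w wi g Yf γ g (fun x => psC (cR Q be d) Yf γ g x + psC (cL Q c al be d) Yf γ g x) fun u =>
    cut38 hab hp w (hw.add (hg.Wk.smul u)) Yf hγ hg, ← H41.ev_add]
  refine H41.ev_congr _ _ fun y => ?_
  unfold H41.Dr.ins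
  ring

end Cut

/-! ### Weights, fields and observables on the labelled space -/

section Lab

open Pool.W7d29a1.C0.H41 (Wt Obs)
open Pool.W7d29a1.C0.H19 (Cf)
open Pool.W7d29a1.C0.R63 (Sd Bl)

variable {X : Type*} [Fintype X] [DecidableEq X] [Nonempty X] {Y : Type*} [DecidableEq Y] {S : Finset Pt}

/-- **The labelled weights along a site.** -/
theorem Wt_lab {w wi : Env → X → ℝ} {N : Pt → X → ℝ} {V : ℝ} (h : Wt S w N V) (hi : Wt S wi N V) :
    Wt S (fun η => lab (w η) (wi η)) (fun p => fp (N p)) V where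
  meas := measurable_pi_lambda _ fun z => by
    obtain ⟨x, l⟩ := z
    cases l
    · exact (measurable_pi_apply x).comp h.meas
    · exact (measurable_pi_apply x).comp hi.meas
  der := fun q hq η x => by
    rw [hasDerivAt_pi]
    intro z
    obtain ⟨y, l⟩ := z
    cases l
    · exact (hasDerivAt_pi.1 (h.der q hq η x)) y
    · exact (hasDerivAt_pi.1 (hi.der q hq η x)) y
  bd := fun q hq y => h.bd q hq y.1

/-- The path functional of a field on the labelled space does not see the label. -/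
theorem Cf_fp (c : Pt → Env → ℝ) (N : Pt → X → ℝ) (η : Env) : Cf S c (fun p => fp (N p)) η = fp (Cf S c N η) := by
  funext z
  unfold Cf fp
  simp only [Finset.sum_apply, Pi.smul_apply]

/-- **The rest of a field** on the labelled space. -/
theorem rem_fp (g C : X → ℝ) : inj g - fp C = inj (g - C) - out C := by
  funext z
  obtain ⟨x, l⟩ := z
  cases l
  · show 0 - C x = 0 - C x
    rfl
  · show g x - C x = g x - C x - 0
    rw [sub_zero]

theorem meas_inj {T : Env → X → ℝ} (h : Measurable T) : Measurable fun η => inj (T η) :=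
  measurable_pi_lambda _ fun z => by
    obtain ⟨x, l⟩ := z
    cases l
    · exact measurable_const
    · exact (measurable_pi_apply x).comp h

theorem abs_inj {g : X → ℝ} {M : ℝ} (h : ∀ x, |g x| ≤ M) (z : X × Bool) : |inj g z| ≤ M := by
  obtain ⟨x, l⟩ := z
  cases l
  · show |(0 : ℝ)| ≤ M
    rw [abs_zero]
    exact (abs_nonneg _).trans (h x)
  · exact h x

theorem bl_inj {T : Env → X → ℝ} (h : Bl S T) : Bl S fun η => inj (T η) := fun p hp η x => by
  beta_reduce
  rw [h p hp η x]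

/-- The observable. -/
theorem obs_psC {χ : X → X → ℝ} (h0 : ∀ x x', 0 ≤ χ x x') (h1 : ∀ x x', χ x x' ≤ 1) {Yf γ g : Env → X → ℝ} {L Mγ Mg : ℝ}
    (mY : Measurable Yf) (mγ : Measurable γ) (mg : Measurable g) (hY : ∀ η x, |Yf η x| ≤ L) (hγ : ∀ η x, |γ η x| ≤ Mγ)
    (hg : ∀ η x, |g η x| ≤ Mg) : Obs (fun η => psC χ (Yf η) (γ η) (g η)) (L * (2 * Mγ * Mg)) where
  meas := measurable_pi_lambda _ fun x => by
    unfold psC psN
    have a : ∀ (F : Env → X → ℝ), Measurable F → ∀ x, Measurable fun η => F η x := fun F hF x => (measurable_pi_apply x).comp hF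
    exact ((a Yf mY _).mul ((((a γ mγ _).sub (a γ mγ _)).const_mul _).mul ((a g mg _).sub (a g mg _)))).const_mul _
  bd := fun η x => abs_psC_bd h0 h1 (hY η) (hγ η) (hg η) x

/-- **The site derivatives of the observable**: only the response `γ` sees the slab. -/
theorem sd_psC (χ : X → X → ℝ) {Yf γ g : Env → X → ℝ} {γ' : Pt → Env → X → ℝ} (hY : Bl S Yf) (hg : Bl S g)
    (hγ : ∀ q ∈ S, ∀ (η : Env) (x : ℝ) (s : X), HasDerivAt (fun t => γ (Function.update η q t) s) (γ' q (Function.update η q x) s) x) :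
    Sd S (fun η => psC χ (Yf η) (γ η) (g η)) fun q η => psC χ (Yf η) (γ' q η) (g η) := fun q hq η x y => by
  have eY : ∀ t : ℝ, Yf (Function.update η q t) = Yf η := fun t => hY q hq η t
  have eg : ∀ t : ℝ, g (Function.update η q t) = g η := fun t => hg q hq η t
  have h := hγ q hq η x
  simp only [eY, eg]
  unfold psC psN
  exact (((((h _).sub (h _)).const_mul _).mul_const _).const_mul _).const_mul _

/-- The derivative along a field. -/
theorem psC_sum (χ : X → X → ℝ) (Yf g : X → ℝ) {ι : Type*} (s : Finset ι) (k : ι → ℝ) (γ' : ι → X → ℝ) (x : Fin 3 → X × Bool) :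
    ∑ q ∈ s, k q * psC χ Yf (γ' q) g x = psC χ Yf (∑ q ∈ s, k q • γ' q) g x := by
  unfold psC psN
  simp only [Finset.sum_apply, Pi.smul_apply, smul_eq_mul]
  rw [← Finset.sum_sub_distrib]
  simp only [Finset.mul_sum, Finset.sum_mul]
  exact sum_congr rfl fun q _ => by ring

end Lab

end

end Pool.W7d29a1.C0.L38
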