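import Pool.Agent.W_7d29a1_C0.Quasi32

/-!
CURV0 (MP_7d29a1_pr), section SM, the leaf of the law: the laws with a positive differentiable density whose score has an
exponential moment and is Lipschitz are in the class `WL` of Quasi32 and `QI` of Quasi27 (every exponent `p > 1`); gaussian
disorder is an instance. (helper32)
-/

set_option autoImplicit false

namespace Pool.Agent.W_7d29a1_C0.Q32

open MeasureTheory ProbabilityTheory Filter Topology
open scoped ENNReal
open Pool.Agent.W_7d29a1_C0.H32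

noncomputable section

variable {μ : Measure ℝ} {u : ℝ → ℝ → ℝ} {C θ : ℝ}

/-- The class `WL` gives the one-site quasi-invariance `QI` of Quasi27 for every exponent `p > 1`. -/
theorem WL.qi (h : WL μ u C θ) {p : ℝ} (hp : 1 < p) :
    ∃ C' θ' : ℝ, 0 ≤ C' ∧ 0 < θ' ∧ Pool.W7d29a1.C0.H27.QI μ p C' θ' := by
  set κ : ℝ := 1 / (p - 1) with hκ
  have hp1 : 0 < p - 1 := by linarith
  have hp0 : 0 < p := by linarith
  have hκ0 : 0 < κ := by positivity
  set q : ℝ := p / (p - 1) with hq
  have hq0 : 0 < q := by positivity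
  have hpq : p.HolderConjugate q := by
    rw [Real.holderConjugate_iff]
    refine ⟨hp, ?_⟩
    rw [hq]
    field_simp
    ring
  have hqp : q / p = κ := by
    rw [hq, hκ]
    field_simp
  have hq1 : 1 ≤ q := by
    rw [hq, le_div_iff₀ hp1]
    linarith
  refine ⟨C * (κ ^ 2 + 1), θ / (1 + κ), mul_nonneg h.hC (by positivity), div_pos h.hθ (by positivity),
    fun a ha g hg => ?_⟩
  have ha1 : |a| * (1 + κ) ≤ θ := by rwa [le_div_iff₀ (by positivity)] at ha
  have hna := abs_nonneg a
  have ha2 : |a| ≤ θ := by nlinarith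
  have ha3 : |(-κ) * a| ≤ θ := by
    rw [abs_mul, abs_neg, abs_of_pos hκ0]
    nlinarith
  have mu : Measurable fun x : ℝ => u a x := h.meas.comp (measurable_const.prodMk measurable_id)
  set f1 : ℝ → ℝ≥0∞ := fun x => g (x + a) * ENNReal.ofReal (Real.exp (u a x / p)) with hf1
  set f2 : ℝ → ℝ≥0∞ := fun x => ENNReal.ofReal (Real.exp (-(u a x / p))) with hf2
  have m1 : Measurable f1 := (hg.comp (measurable_id.add_const a)).mul (mu.div_const p).exp.ennreal_ofReal
  have m2 : Measurable f2 := (mu.div_const p).neg.exp.ennreal_ofReal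
  have e12 : ∀ x, f1 x * f2 x = g (x + a) := fun x => by
    simp only [hf1, hf2]
    rw [mul_assoc, ← ENNReal.ofReal_mul (Real.exp_pos _).le, ← Real.exp_add, add_neg_cancel, Real.exp_zero,
      ENNReal.ofReal_one, mul_one]
  have e1 : ∀ x, f1 x ^ p = g (x + a) ^ p * ENNReal.ofReal (Real.exp (u a x)) := fun x => by
    simp only [hf1]
    rw [ENNReal.mul_rpow_of_nonneg _ _ hp0.le, ENNReal.ofReal_rpow_of_pos (Real.exp_pos _), ← Real.exp_mul,
      div_mul_cancel₀ _ hp0.ne']
  have e2 : ∀ x, f2 x ^ q = ENNReal.ofReal (Real.exp ((-κ) * u a x)) := fun x => by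
    simp only [hf2]
    rw [ENNReal.ofReal_rpow_of_pos (Real.exp_pos _), ← Real.exp_mul]
    congr 2
    rw [← hqp]
    ring
  have key := ENNReal.lintegral_mul_le_Lp_mul_Lq μ hpq m1.aemeasurable m2.aemeasurable
  have k1 : ∫⁻ x, (f1 * f2) x ∂μ = ∫⁻ x, g (x + a) ∂μ := lintegral_congr fun x => e12 x
  have k2 : ∫⁻ x, f1 x ^ p ∂μ = ∫⁻ x, g x ^ p ∂μ := by
    simp_rw [e1]
    exact h.shift a ha2 (fun x => g x ^ p) (hg.pow_const p)
  have k3 : ∫⁻ x, f2 x ^ q ∂μ ≤ ENNReal.ofReal (Real.exp (C * (κ ^ 2 + 1) * a ^ 2)) := by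
    simp_rw [e2]
    have := h.mom a (-κ) ha2 ha3
    rwa [neg_sq] at this
  rw [k1, k2] at key
  refine key.trans ?_
  rw [mul_comm]
  gcongr
  calc (∫⁻ x, f2 x ^ q ∂μ) ^ (1 / q) ≤ (ENNReal.ofReal (Real.exp (C * (κ ^ 2 + 1) * a ^ 2))) ^ (1 / q) := by
        gcongr
    _ ≤ (ENNReal.ofReal (Real.exp (C * (κ ^ 2 + 1) * a ^ 2))) ^ (1 : ℝ) := by
        refine ENNReal.rpow_le_rpow_of_exponent_le ?_ ?_
        · rw [← ENNReal.ofReal_one]
          refine ENNReal.ofReal_le_ofReal (Real.one_le_exp ?_)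
          exact mul_nonneg (mul_nonneg h.hC (by positivity)) (sq_nonneg _)
        · rw [div_le_one hq0]
          exact hq1
    _ = _ := ENNReal.rpow_one _

variable {f f' : ℝ → ℝ}

/-- The increment of the logarithm of the density. -/
theorem log_incr (h : DenLaw μ f f') (hp : ∀ x, 0 < f x) {L : ℝ} (hL0 : 0 ≤ L)
    (hL : ∀ x y, |sc f f' x - sc f f' y| ≤ L * |x - y|) (a x : ℝ) :
    |Real.log (f (x + a)) - Real.log (f x) + a * sc f f' x| ≤ L * a ^ 2 := by
  have hd : ∀ s : ℝ, HasDerivAt (fun s => Real.log (f (x + s)) + s * sc f f' x) (-(sc f f' (x + s)) + sc f f' x) s :=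
    fun s => by
    have h1 : HasDerivAt (fun s => f (x + s)) (f' (x + s)) s := by
      simpa using (h.der (x + s)).comp_const_add x s
    have h2 := h1.log (hp (x + s)).ne'
    have h3 : HasDerivAt (fun s : ℝ => s * sc f f' x) (sc f f' x) s := by
      simpa using (hasDerivAt_id s).mul_const (sc f f' x)
    have h4 := h2.add h3
    have h5 : f' (x + s) / f (x + s) + sc f f' x = -(sc f f' (x + s)) + sc f f' x := by
      unfold sc
      ring
    rw [h5] at h4
    exact h4
  have key := (convex_uIcc (0 : ℝ) a).norm_image_sub_le_of_norm_hasDerivWithin_le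
    (f := fun s => Real.log (f (x + s)) + s * sc f f' x) (f' := fun s => -(sc f f' (x + s)) + sc f f' x)
    (C := L * |a|) (fun s _ => (hd s).hasDerivWithinAt) (fun s hs => by
      rw [Real.norm_eq_abs]
      have h1 := hL x (x + s)
      have h2 : |x - (x + s)| = |s| := by rw [show x - (x + s) = -s by ring, abs_neg]
      rw [h2] at h1
      have h3 : |s| ≤ |a| := by
        have := Set.abs_sub_left_of_mem_uIcc hs
        simpa using this
      calc |-(sc f f' (x + s)) + sc f f' x| = |sc f f' x - sc f f' (x + s)| := by ring_nf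
        _ ≤ L * |s| := h1
        _ ≤ L * |a| := mul_le_mul_of_nonneg_left h3 hL0)
    (Set.left_mem_uIcc) (Set.right_mem_uIcc)
  simp only [add_zero, zero_mul, sub_zero, Real.norm_eq_abs] at key
  have e1 : L * |a| * |a| = L * a ^ 2 := by rw [mul_assoc, ← sq, sq_abs]
  rw [e1] at key
  have e2 : Real.log (f (x + a)) + a * sc f f' x - Real.log (f x) =
      Real.log (f (x + a)) - Real.log (f x) + a * sc f f' x := by ring
  rwa [e2] at key

variable [IsProbabilityMeasure μ]

/-- **Positive differentiable density, score with an exponential moment and Lipschitz.** -/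
theorem wl_lip (h : DenLaw μ f f') (hp : ∀ x, 0 < f x) {L : ℝ} (hL0 : 0 ≤ L)
    (hL : ∀ x y, |sc f f' x - sc f f' y| ≤ L * |x - y|) :
    ∃ C θ : ℝ, WL μ (fun a x => Real.log (f (x + a)) - Real.log (f x)) C θ := by
  obtain ⟨K, θ0, hK, hθ0, hm⟩ := h.mgf
  refine ⟨K + L, θ0, ⟨?_, by linarith, hθ0, ?_, ?_⟩⟩
  · have h1 : Measurable fun q : ℝ × ℝ => f (q.2 + q.1) := h.meas.comp (measurable_snd.add measurable_fst)
    have h2 : Measurable fun q : ℝ × ℝ => f q.2 := h.meas.comp measurable_snd
    exact h1.log.sub h2.log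
  · intro a _ F hF
    rw [h.eq]
    have hfm : Measurable fun x => ENNReal.ofReal (f x) := h.meas.ennreal_ofReal
    have mG : Measurable fun x => F (x + a) * ENNReal.ofReal (Real.exp (Real.log (f (x + a)) - Real.log (f x))) :=
      (hF.comp (measurable_id.add_const a)).mul
        (((h.meas.comp (measurable_id.add_const a)).log.sub h.meas.log).exp.ennreal_ofReal)
    rw [lintegral_withDensity_eq_lintegral_mul _ hfm mG, lintegral_withDensity_eq_lintegral_mul _ hfm hF]
    rw [← lintegral_add_right_eq_self (fun x => ((fun x => ENNReal.ofReal (f x)) * F) x) a]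
    refine lintegral_congr fun x => ?_
    show ENNReal.ofReal (f x) * (F (x + a) * ENNReal.ofReal (Real.exp (Real.log (f (x + a)) - Real.log (f x)))) =
      ENNReal.ofReal (f (x + a)) * F (x + a)
    rw [Real.exp_sub, Real.exp_log (hp _), Real.exp_log (hp _), mul_comm (F (x + a)), ← mul_assoc,
      ← ENNReal.ofReal_mul (hp x).le, mul_div_cancel₀ _ (hp x).ne']
  · intro a k ha hka
    have hka' : |-(k * a)| ≤ θ0 := by rwa [abs_neg]
    obtain ⟨i1, b1⟩ := hm (-(k * a)) hka'
    have hpt : ∀ x, Real.exp (k * (Real.log (f (x + a)) - Real.log (f x))) ≤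
        Real.exp (|k| * (L * a ^ 2)) * Real.exp (-(k * a) * sc f f' x) := fun x => by
      rw [← Real.exp_add]
      refine Real.exp_le_exp.2 ?_
      have h1 := log_incr h hp hL0 hL a x
      have h2 : k * (Real.log (f (x + a)) - Real.log (f x) + a * sc f f' x) ≤ |k| * (L * a ^ 2) := by
        calc _ ≤ |k * (Real.log (f (x + a)) - Real.log (f x) + a * sc f f' x)| := le_abs_self _
          _ = |k| * |Real.log (f (x + a)) - Real.log (f x) + a * sc f f' x| := abs_mul _ _
          _ ≤ _ := mul_le_mul_of_nonneg_left h1 (abs_nonneg k)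
      linarith
    calc ∫⁻ x, ENNReal.ofReal (Real.exp (k * (Real.log (f (x + a)) - Real.log (f x)))) ∂μ
        ≤ ∫⁻ x, ENNReal.ofReal (Real.exp (|k| * (L * a ^ 2)) * Real.exp (-(k * a) * sc f f' x)) ∂μ :=
          lintegral_mono fun x => ENNReal.ofReal_le_ofReal (hpt x)
      _ = ENNReal.ofReal (∫ x, Real.exp (|k| * (L * a ^ 2)) * Real.exp (-(k * a) * sc f f' x) ∂μ) :=
          (ofReal_integral_eq_lintegral_ofReal (i1.const_mul _) (ae_of_all _ fun x => by positivity)).symm
      _ ≤ ENNReal.ofReal (Real.exp ((K + L) * (k ^ 2 + 1) * a ^ 2)) := by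
          refine ENNReal.ofReal_le_ofReal ?_
          rw [integral_const_mul]
          calc Real.exp (|k| * (L * a ^ 2)) * ∫ x, Real.exp (-(k * a) * sc f f' x) ∂μ
              ≤ Real.exp (|k| * (L * a ^ 2)) * Real.exp (K * (-(k * a)) ^ 2) :=
                mul_le_mul_of_nonneg_left b1 (Real.exp_pos _).le
            _ ≤ Real.exp ((K + L) * (k ^ 2 + 1) * a ^ 2) := by
                rw [← Real.exp_add]
                refine Real.exp_le_exp.2 ?_
                have h1 : |k| ≤ k ^ 2 + 1 := by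
                  rw [← sq_abs k]
                  nlinarith [sq_nonneg (|k| - 1), abs_nonneg k]
                have h2 : 0 ≤ L * a ^ 2 := mul_nonneg hL0 (sq_nonneg a)
                have h3 := mul_le_mul_of_nonneg_right h1 h2
                have h4 : 0 ≤ K * a ^ 2 := by positivity
                nlinarith

/-- **Gaussian disorder** is in the class `WL`. -/
theorem wl_gaussian {v : NNReal} (hv : v ≠ 0) : ∃ (u : ℝ → ℝ → ℝ) (C θ : ℝ), WL (gaussianReal 0 v) u C θ := by
  have hv' : (0 : ℝ) < v := by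
    rw [NNReal.coe_pos]
    exact pos_iff_ne_zero.2 hv
  have hpos : ∀ x, 0 < gaussianPDFReal 0 v x := fun x => gaussianPDFReal_pos 0 v x hv
  obtain ⟨C, θ, h⟩ := wl_lip (den_gaussian hv) hpos (L := 1 / v) (by positivity) (fun x y => by
    have e : ∀ x : ℝ, sc (gaussianPDFReal 0 v) (fun x => -(x / v) * gaussianPDFReal 0 v x) x = x / v := fun x => by
      unfold sc
      rw [mul_div_assoc, div_self (hpos x).ne', mul_one, neg_neg]
    rw [e, e, ← sub_div, abs_div, abs_of_pos hv']
    apply le_of_eq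
    ring)
  exact ⟨_, C, θ, h⟩

/-- **Gaussian disorder** is in the class `QI` of Quasi27, every `p > 1`. -/
theorem qi_gaussian {v : NNReal} (hv : v ≠ 0) {p : ℝ} (hp : 1 < p) :
    ∃ C' θ' : ℝ, 0 ≤ C' ∧ 0 < θ' ∧ Pool.W7d29a1.C0.H27.QI (gaussianReal 0 v) p C' θ' := by
  obtain ⟨u, C, θ, h⟩ := wl_gaussian hv
  exact h.qi hp

end

end Pool.Agent.W_7d29a1_C0.Q32
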