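import Pool.Agent.W_7d29a1_C0.Num46B

/-!
MP_7d29a1_pr, [CURV0] (helper4): THE LEDGER (the lines of helper18's ledger, proofs row 689). Every monomial of the estimates of `CURV0`
(frame NG, calibration of `Rec96B`: `E_s` about `(N ^ (-c) E_b ^ 2) ^ (3 / 4)`), per row and with the outer tie `1 / E_r`, against the
absolute contract `N ^ (Θ - c')`. A line is
  `gain ^ 2 * (rows shared by the loops / (prices of the loops * E_r)) ≤ N ^ (Θ + k ε - margin)`.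
Everything is linear in the logarithms in base `N` (`Num46`). The lines of the change of the base (GS, E5) and the double sums: `Led4B`.
-/

set_option autoImplicit false
set_option linter.unusedSimpArgs false

namespace Pool.Agent.W_7d29a1_C0

open Finset

variable {E w : ℕ → ℝ} {c₀ Θ δ a ε N c C η : ℝ} {b b₀ b' l r s s' t u ρ n : ℕ}

theorem Bs46.ps (h : Bs46 E δ c N b s r) (R : Reg46 E w c₀ Θ δ a ε N) :
    0 < N ∧ 0 < E b ∧ 0 < E s ∧ 0 < E r ∧ (0 : ℝ) < b ∧ (0 : ℝ) < s ∧ (0 : ℝ) < r ∧ 0 < w b ∧ 0 < w s ∧ 0 < w r :=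
  ⟨R.N0, R.Epos _, R.Epos _, R.Epos _, h.hb.pos R.N1, h.hs.pos R.N1, h.hr.pos R.N1, R.w0 _ (h.hb.npos R.N1),
    R.w0 _ (h.hs.npos R.N1), R.w0 _ (h.hr.npos R.N1)⟩

/-- A scale which is shorter by at most `N ^ C`. -/
theorem lC4 (R : Reg46 E w c₀ Θ δ a ε N) (hl : 1 ≤ l) (hr : 1 ≤ r) (hC : (r : ℝ) ≤ N ^ C * l) :
    Real.logb N r ≤ C + Real.logb N l := by
  have h1 : (0 : ℝ) < l := by exact_mod_cast hl
  have h2 : (0 : ℝ) < r := by exact_mod_cast hr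
  have hN := R.N0
  have h3 := to_lg46 R.N1 h2 hC
  rwa [Real.logb_mul (by positivity) (by positivity), lgN46 R.N1] at h3

/-- The finer window. -/
theorem lb0 (R : Reg46 E w c₀ Θ δ a ε N) (hb₀ : 1 ≤ b₀) (hb : b₀ ≤ b) (hC : (b : ℝ) ≤ N ^ C * b₀) :
    Real.logb N (E b) ≤ Real.logb N (E b₀) + C / 2 + ε := by
  linarith [lC4 R hb₀ (hb₀.trans hb) hC, R.lhalf hb₀ hb]

/-- Scales `t ≤ N ^ (1 - η)`. -/
theorem lsm (R : Reg46 E w c₀ Θ δ a ε N) (ht : Rg46 δ N t) (hη : (t : ℝ) ≤ N ^ (1 - η)) :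
    Real.logb N t ≤ (1 - η) * (Θ + ε) + 3 * Real.logb N (E t) := by
  have h1 := R.lkap ht
  have h2 := to_lg46 R.N1 (ht.pos R.N1) hη
  rw [lgN46 R.N1] at h2
  have h3 : (Θ + ε) * Real.logb N t ≤ (Θ + ε) * (1 - η) := mul_le_mul_of_nonneg_left h2 (by linarith [R.Θ0, R.ε0])
  linarith

/-- `b ≤ N ^ (3 / 4)`, `κ_b ≤ N ^ (3 (Θ + ε) / 4)`. -/
theorem Bs46.lkb (h : Bs46 E δ c N b s r) (R : Reg46 E w c₀ Θ δ a ε N) :
    Real.logb N b ≤ 3 / 4 * (Θ + ε) + 3 * Real.logb N (E b) := by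
  have h1 := R.lkap h.hb
  have h2 : Real.logb N b ≤ 3 / 4 := by
    have hc := mul_pos R.c₀0 R.δ0
    linarith [R.lq h.hb, h.lup R, R.lE3 h.hr, h.cδ, (h.hb.lx R.N1), h.hb.lx1 R.N1]
  have h3 : (Θ + ε) * Real.logb N b ≤ (Θ + ε) * (3 / 4) := mul_le_mul_of_nonneg_left h2 (by linarith [R.Θ0, R.ε0])
  linarith

/-- The closings: `b / l ≤ N ^ (2 ε) E_b ^ 2 / E_l ^ 2`. -/
theorem lclo (R : Reg46 E w c₀ Θ δ a ε N) (hb : 1 ≤ b) (hbl : b ≤ l) :
    Real.logb N b - Real.logb N l ≤ 2 * ε + 2 * Real.logb N (E b) - 2 * Real.logb N (E l) := by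
  linarith [R.lhalf hb hbl]

namespace Reg46

/-! ### E1: slabs of the length `l ≥ N ^ (-C) r` in the gap in front of `J` -/

/-- E1.1: two gains. -/
theorem e1_1 (R : Reg46 E w c₀ Θ δ a ε N) (h : Rg46 δ N r) (hl : 1 ≤ l) (hC : (r : ℝ) ≤ N ^ C * l) :
    (w r / l) ^ 2 * (r / E r) ≤ N ^ (2 * C + 2 * ε - 3 * (c₀ * δ)) := by
  have hN := R.N0
  have h3 := R.Epos r
  have h6 := h.pos R.N1
  have h9 := R.w0 r (h.npos R.N1)
  have hl' : (0 : ℝ) < l := by exact_mod_cast hl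
  refine le_pow46 R.N1 (by positivity) ?_
  simp (disch := positivity) only [Real.sqrt_eq_rpow, Real.logb_mul, Real.logb_div, Real.logb_pow, Real.logb_inv,
    Real.logb_rpow_eq_mul_logb_of_pos, Real.logb_one, Nat.cast_ofNat]
  linarith [R.lw h, R.lst' h, lC4 R hl (h.npos R.N1) hC]

/-- E1.2: one gain, a far branch. -/
theorem e1_2 (R : Reg46 E w c₀ Θ δ a ε N) (h : Rg46 δ N r) (hl : 1 ≤ l) (hC : (r : ℝ) ≤ N ^ C * l) :
    w r / l * (r / (E r * E r)) ≤ N ^ (C + ε) := by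
  have hN := R.N0
  have h3 := R.Epos r
  have h6 := h.pos R.N1
  have h9 := R.w0 r (h.npos R.N1)
  have hl' : (0 : ℝ) < l := by exact_mod_cast hl
  refine le_pow46 R.N1 (by positivity) ?_
  simp (disch := positivity) only [Real.sqrt_eq_rpow, Real.logb_mul, Real.logb_div, Real.logb_pow, Real.logb_inv,
    Real.logb_rpow_eq_mul_logb_of_pos, Real.logb_one, Nat.cast_ofNat]
  linarith [R.lw h, lC4 R hl (h.npos R.N1) hC]

/-- E1.4: one gain, one micro loop of the scale `t ≤ r` over both rows. -/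
theorem e1_4 (R : Reg46 E w c₀ Θ δ a ε N) (h : Rg46 δ N r) (hl : 1 ≤ l) (hC : (r : ℝ) ≤ N ^ C * l) (ht : 1 ≤ t) (htr : t ≤ r) :
    w r / l * (t / (E t * E r)) ≤ N ^ (C + 2 * ε) := by
  have hN := R.N0
  have h3 := R.Epos r
  have h6 := h.pos R.N1
  have h9 := R.w0 r (h.npos R.N1)
  have hl' : (0 : ℝ) < l := by exact_mod_cast hl
  have hE' := R.Epos t
  have ht' : (0 : ℝ) < t := by exact_mod_cast ht
  refine le_pow46 R.N1 (by positivity) ?_
  simp (disch := positivity) only [Real.sqrt_eq_rpow, Real.logb_mul, Real.logb_div, Real.logb_pow, Real.logb_inv,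
    Real.logb_rpow_eq_mul_logb_of_pos, Real.logb_one, Nat.cast_ofNat]
  linarith [R.lw h, R.lhalf ht htr, R.lxmono ht htr, lC4 R hl (h.npos R.N1) hC]

/-- E1.4: one gain, two micro loops. -/
theorem e1_4' (R : Reg46 E w c₀ Θ δ a ε N) (h : Bs46 E δ c N b s r) (hl : 1 ≤ l) (hC : (r : ℝ) ≤ N ^ C * l) :
    w r / l * (r / (E b ^ 2 * E r)) ≤ N ^ (C + ε - c) := by
  obtain ⟨hN, h1, h2, h3, h4, h5, h6, h7, h8, h9⟩ := h.ps R
  have hl' : (0 : ℝ) < l := by exact_mod_cast hl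
  refine le_pow46 R.N1 (by positivity) ?_
  simp (disch := positivity) only [Real.sqrt_eq_rpow, Real.logb_mul, Real.logb_div, Real.logb_pow, Real.logb_inv,
    Real.logb_rpow_eq_mul_logb_of_pos, Real.logb_one, Nat.cast_ofNat]
  linarith [R.lw h.hr, h.lpin R, lC4 R hl (h.hr.npos R.N1) hC]

/-- E1.3, E1.5, T.5, T.9: three loops of scales at least `t ≤ N ^ (1 - η)` over both rows. -/
theorem three (R : Reg46 E w c₀ Θ δ a ε N) (ht : Rg46 δ N t) (htu : t ≤ u) (htr : t ≤ r) (hη : (t : ℝ) ≤ N ^ (1 - η)) :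
    (t : ℝ) / (E t * E u * E r) ≤ N ^ ((1 - η) * (Θ + ε)) := by
  have hE := R.Epos r
  have hE' := R.Epos t
  have hE'' := R.Epos u
  have ht' := ht.pos R.N1
  refine le_pow46 R.N1 (by positivity) ?_
  simp (disch := positivity) only [Real.sqrt_eq_rpow, Real.logb_mul, Real.logb_div, Real.logb_pow, Real.logb_inv,
    Real.logb_rpow_eq_mul_logb_of_pos, Real.logb_one, Nat.cast_ofNat]
  linarith [lsm R ht hη, R.lmono htu, R.lmono htr]

/-- E1.5, T.4, T.10, E2.5, E5.5: two loops of the base, one loop of the scale `t ≤ r` over both rows. -/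
theorem mic_any (R : Reg46 E w c₀ Θ δ a ε N) (h : Bs46 E δ c N b s r) (ht : 1 ≤ t) (htr : t ≤ r) :
    (t : ℝ) / (E b ^ 2 * E t * E r) ≤ N ^ (Θ + 2 * ε - c) := by
  obtain ⟨hN, h1, h2, h3, h4, h5, h6, h7, h8, h9⟩ := h.ps R
  have hE' := R.Epos t
  have ht' : (0 : ℝ) < t := by exact_mod_cast ht
  refine le_pow46 R.N1 (by positivity) ?_
  simp (disch := positivity) only [Real.sqrt_eq_rpow, Real.logb_mul, Real.logb_div, Real.logb_pow, Real.logb_inv,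
    Real.logb_rpow_eq_mul_logb_of_pos, Real.logb_one, Nat.cast_ofNat]
  linarith [R.lkap' h.hr, h.lpin R, R.lhalf ht htr, R.lxmono ht htr]

/-- E1.5, E2.5: two loops of the base, a far branch. -/
theorem mic_far (R : Reg46 E w c₀ Θ δ a ε N) (h : Bs46 E δ c N b s r) :
    (r : ℝ) / (E b ^ 2 * E r * E r) ≤ N ^ (Θ + ε - c) := by
  obtain ⟨hN, h1, h2, h3, h4, h5, h6, h7, h8, h9⟩ := h.ps R
  refine le_pow46 R.N1 (by positivity) ?_
  simp (disch := positivity) only [Real.sqrt_eq_rpow, Real.logb_mul, Real.logb_div, Real.logb_pow, Real.logb_inv,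
    Real.logb_rpow_eq_mul_logb_of_pos, Real.logb_one, Nat.cast_ofNat]
  linarith [R.lkap' h.hr, h.lpin R]

/-- E1.6: the root, two gains with the cone. -/
theorem e1_6 (R : Reg46 E w c₀ Θ δ a ε N) (hn : Rg46 δ N n) (hr : Rg46 δ N r) (hrn : r ≤ n) (hrη : N ^ (1 - η) ≤ r) (hl : 1 ≤ l) (hC : (r : ℝ) ≤ N ^ C * l) :
    (w n / l) ^ 2 * (r / E r) ≤ N ^ (2 * C + 6 * ε + 3 / 2 * η) := by
  have hN := R.N0
  have hn' := hn.pos R.N1
  have hr' := hr.pos R.N1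
  have hE := R.Epos r
  have hw := R.w0 n (hn.npos R.N1)
  have hl' : (0 : ℝ) < l := by exact_mod_cast hl
  have e1 := to_lg46 R.N1 (Real.rpow_pos_of_pos hN _) hrη
  rw [lgN46 R.N1] at e1
  refine le_pow46 R.N1 (by positivity) ?_
  simp (disch := positivity) only [Real.sqrt_eq_rpow, Real.logb_mul, Real.logb_div, Real.logb_pow, Real.logb_inv,
    Real.logb_rpow_eq_mul_logb_of_pos, Real.logb_one, Nat.cast_ofNat]
  linarith [R.lw hn, R.lst' hn, R.lhalf (hr.npos R.N1) hrn, lC4 R hl (hr.npos R.N1) hC, hn.lx1 R.N1, mul_pos R.c₀0 R.δ0, R.ε0]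

/-- E1.8: the root, one gain with the cone, two micro loops. -/
theorem e1_8 (R : Reg46 E w c₀ Θ δ a ε N) (h : Bs46 E δ c N b s r) (hn : Rg46 δ N n) (hr : Rg46 δ N r) (hrn : r ≤ n) (hrη : N ^ (1 - η) ≤ r) (hl : 1 ≤ l) (hC : (r : ℝ) ≤ N ^ C * l) :
    w n / l * (r / (E b ^ 2 * E r)) ≤ N ^ (C + 3 * ε + η - c) := by
  obtain ⟨hN, h1, h2, h3, h4, h5, h6, h7, h8, h9⟩ := h.ps R
  have hn' := hn.pos R.N1
  have hw := R.w0 n (hn.npos R.N1)
  have hl' : (0 : ℝ) < l := by exact_mod_cast hl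
  have e1 := to_lg46 R.N1 (Real.rpow_pos_of_pos hN _) hrη
  rw [lgN46 R.N1] at e1
  refine le_pow46 R.N1 (by positivity) ?_
  simp (disch := positivity) only [Real.sqrt_eq_rpow, Real.logb_mul, Real.logb_div, Real.logb_pow, Real.logb_inv,
    Real.logb_rpow_eq_mul_logb_of_pos, Real.logb_one, Nat.cast_ofNat]
  linarith [R.lw hn, R.lhalf (hr.npos R.N1) hrn, lC4 R hl (hr.npos R.N1) hC, hn.lx1 R.N1, h.lpin R]

/-! ### T: own loops of the scale `l ≥ s` -/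

/-- T.1 -/
theorem t_1 (R : Reg46 E w c₀ Θ δ a ε N) (h : Bs46 E δ c N b s r) (hl : Rg46 δ N l) (hsl : s ≤ l) :
    w l / l * (r / (E l ^ 2 * E r)) ≤ N ^ (Θ + 2 * ε - 4 * c) := by
  obtain ⟨hN, h1, h2, h3, h4, h5, h6, h7, h8, h9⟩ := h.ps R
  have hE' := R.Epos l
  have hl' := hl.pos R.N1
  have hw := R.w0 l (hl.npos R.N1)
  refine le_pow46 R.N1 (by positivity) ?_
  simp (disch := positivity) only [Real.sqrt_eq_rpow, Real.logb_mul, Real.logb_div, Real.logb_pow, Real.logb_inv,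
    Real.logb_rpow_eq_mul_logb_of_pos, Real.logb_one, Nat.cast_ofNat]
  linarith [R.lw hl, R.lkap' h.hr, R.lst' hl, R.lmono hsl, h.ls3 R, (h.l8 R).2, mul_pos R.c₀0 R.δ0]

/-- T.2 -/
theorem t_2 (R : Reg46 E w c₀ Θ δ a ε N) (hl : Rg46 δ N l) (hlr : l ≤ r) :
    w l / l * (l / (E l * E r)) ≤ N ^ ε := by
  have hE := R.Epos r
  have hE' := R.Epos l
  have hl' := hl.pos R.N1
  have hw := R.w0 l (hl.npos R.N1)
  refine le_pow46 R.N1 (by positivity) ?_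
  simp (disch := positivity) only [Real.sqrt_eq_rpow, Real.logb_mul, Real.logb_div, Real.logb_pow, Real.logb_inv,
    Real.logb_rpow_eq_mul_logb_of_pos, Real.logb_one, Nat.cast_ofNat]
  linarith [R.lw hl, R.lmono hlr]

/-- T.3, T0.5, GS.4: two loops of scales at least `s`, two loops of the base. -/
theorem t_3 (R : Reg46 E w c₀ Θ δ a ε N) (h : Bs46 E δ c N b s r) (hsl : s ≤ l) :
    (r : ℝ) / (E l ^ 2 * E b ^ 2 * E r) ≤ N ^ (Θ + ε - 9 * c) := by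
  obtain ⟨hN, h1, h2, h3, h4, h5, h6, h7, h8, h9⟩ := h.ps R
  have hE' := R.Epos l
  refine le_pow46 R.N1 (by positivity) ?_
  simp (disch := positivity) only [Real.sqrt_eq_rpow, Real.logb_mul, Real.logb_div, Real.logb_pow, Real.logb_inv,
    Real.logb_rpow_eq_mul_logb_of_pos, Real.logb_one, Nat.cast_ofNat]
  linarith [R.lkap' h.hr, R.lmono hsl, h.ls3 R, h.lpin R, (h.l8 R).2]

/-- T.6, T0.8, GS.7: two loops of scales at least `s`, one more loop of the scale `t ≤ r` over both rows. -/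
theorem t_6 (R : Reg46 E w c₀ Θ δ a ε N) (h : Bs46 E δ c N b s r) (hsl : s ≤ l) (ht : 1 ≤ t) (htr : t ≤ r) :
    (t : ℝ) / (E l ^ 2 * E t * E r) ≤ N ^ (Θ + 2 * ε - 8 * c) := by
  obtain ⟨hN, h1, h2, h3, h4, h5, h6, h7, h8, h9⟩ := h.ps R
  have hE'' := R.Epos l
  have hE' := R.Epos t
  have ht' : (0 : ℝ) < t := by exact_mod_cast ht
  refine le_pow46 R.N1 (by positivity) ?_
  simp (disch := positivity) only [Real.sqrt_eq_rpow, Real.logb_mul, Real.logb_div, Real.logb_pow, Real.logb_inv,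
    Real.logb_rpow_eq_mul_logb_of_pos, Real.logb_one, Nat.cast_ofNat]
  linarith [R.lkap' h.hr, R.lmono hsl, h.ls3 R, (h.l8 R).2, R.lhalf ht htr, R.lxmono ht htr]

/-- T0.3, GS.9: closings, different own loops. -/
theorem t0_3 (R : Reg46 E w c₀ Θ δ a ε N) (h : Bs46 E δ c N b s r) (hl : Rg46 δ N l) (hsl : s ≤ l) :
    ((b : ℝ) / l) ^ 2 * (r / (E l ^ 2 * E r)) ≤ N ^ (Θ + 5 * ε - 6 * c) := by
  obtain ⟨hN, h1, h2, h3, h4, h5, h6, h7, h8, h9⟩ := h.ps R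
  have hE' := R.Epos l
  have hl' := hl.pos R.N1
  refine le_pow46 R.N1 (by positivity) ?_
  simp (disch := positivity) only [Real.sqrt_eq_rpow, Real.logb_mul, Real.logb_div, Real.logb_pow, Real.logb_inv,
    Real.logb_rpow_eq_mul_logb_of_pos, Real.logb_one, Nat.cast_ofNat]
  linarith [R.lkap' h.hr, R.lmono hsl, h.ls3 R, (h.l8 R).2, lclo R (h.hb.npos R.N1) (h.bs.trans hsl), h.ls1 R, h.lpin R, h.c0]

/-- T0.4: closings, the same own loop. -/
theorem t0_4 (R : Reg46 E w c₀ Θ δ a ε N) (h : Bs46 E δ c N b s r) (hl : Rg46 δ N l) (hsl : s ≤ l) :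
    ((b : ℝ) / l) ^ 2 * (l / (E l * E r)) ≤ N ^ (Θ + 5 * ε - 3 * c) := by
  obtain ⟨hN, h1, h2, h3, h4, h5, h6, h7, h8, h9⟩ := h.ps R
  have hE' := R.Epos l
  have hl' := hl.pos R.N1
  refine le_pow46 R.N1 (by positivity) ?_
  simp (disch := positivity) only [Real.sqrt_eq_rpow, Real.logb_mul, Real.logb_div, Real.logb_pow, Real.logb_inv,
    Real.logb_rpow_eq_mul_logb_of_pos, Real.logb_one, Nat.cast_ofNat]
  linarith [R.lkap' hl, R.lmono hsl, (h.l8 R).2, lclo R (h.hb.npos R.N1) (h.bs.trans hsl), h.ls1 R, R.lmono h.sr, h.c0]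

/-- T.8: the root, one gain with the cone on a slab of the length `l`, the same own loop. -/
theorem t_8 (R : Reg46 E w c₀ Θ δ a ε N) (hn : Rg46 δ N n) (hl : N ^ (1 - η) ≤ l) (ht : 1 ≤ t) (htr : t ≤ r) (hrn : r ≤ n) :
    w n / l * (t / (E t * E r)) ≤ N ^ (η + 4 * ε) := by
  have hN := R.N0
  have hn' := hn.pos R.N1
  have hE := R.Epos t
  have hE' := R.Epos r
  have hw := R.w0 n (hn.npos R.N1)
  have ht' : (0 : ℝ) < t := by exact_mod_cast ht
  have hl' : (0 : ℝ) < l := (Real.rpow_pos_of_pos hN _).trans_le hl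
  have e1 := to_lg46 R.N1 (Real.rpow_pos_of_pos hN _) hl
  rw [lgN46 R.N1] at e1
  refine le_pow46 R.N1 (by positivity) ?_
  simp (disch := positivity) only [Real.sqrt_eq_rpow, Real.logb_mul, Real.logb_div, Real.logb_pow, Real.logb_inv,
    Real.logb_rpow_eq_mul_logb_of_pos, Real.logb_one, Nat.cast_ofNat]
  linarith [R.lw hn, R.lhalf ht htr, R.lhalf (ht.trans htr) hrn, R.lxmono ht htr, hn.lx1 R.N1]

/-- T.7: the root, one gain with the cone, different own loops of scales `t ≥ l`. -/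
theorem t_7 (R : Reg46 E w c₀ Θ δ a ε N) (hn : Rg46 δ N n) (hl : N ^ (1 - η) ≤ l) (hl1 : 1 ≤ l) (hlt : l ≤ t) (htn : t ≤ n)
    (hr : Rg46 δ N r) : w n / l * (r / (E t ^ 2 * E r)) ≤ N ^ (2 * η + 3 * ε) := by
  have hN := R.N0
  have hn' := hn.pos R.N1
  have hr' := hr.pos R.N1
  have hE := R.Epos t
  have hE' := R.Epos r
  have hw := R.w0 n (hn.npos R.N1)
  have hl' : (0 : ℝ) < l := by exact_mod_cast hl1
  have e1 := to_lg46 R.N1 (Real.rpow_pos_of_pos hN _) hl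
  rw [lgN46 R.N1] at e1
  refine le_pow46 R.N1 (by positivity) ?_
  simp (disch := positivity) only [Real.sqrt_eq_rpow, Real.logb_mul, Real.logb_div, Real.logb_pow, Real.logb_inv,
    Real.logb_rpow_eq_mul_logb_of_pos, Real.logb_one, Nat.cast_ofNat]
  linarith [R.lw hn, R.lhalf (hl1.trans hlt) htn, R.lxmono hl1 hlt, hn.lx1 R.N1, hr.lx1 R.N1, R.lE0 r]

/-! ### T0: own loops over an end of `B`, near slab of the length `b` -/

/-- T0.1, GS.2: one gain, different own loops. -/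
theorem t0_1 (R : Reg46 E w c₀ Θ δ a ε N) (h : Bs46 E δ c N b s r) :
    w b / b * (r / (E s ^ 2 * E r)) ≤ N ^ (Θ + 2 * ε - c / 2 - 3 * (c₀ * δ)) := by
  obtain ⟨hN, h1, h2, h3, h4, h5, h6, h7, h8, h9⟩ := h.ps R
  refine le_pow46 R.N1 (by positivity) ?_
  simp (disch := positivity) only [Real.sqrt_eq_rpow, Real.logb_mul, Real.logb_div, Real.logb_pow, Real.logb_inv,
    Real.logb_rpow_eq_mul_logb_of_pos, Real.logb_one, Nat.cast_ofNat]
  linarith [R.lw h.hb, R.lst' h.hb, R.lkap' h.hr, h.ls1 R, h.lpin R]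

/-- T0.2: one gain, the same own loop. -/
theorem t0_2 (R : Reg46 E w c₀ Θ δ a ε N) (h : Bs46 E δ c N b s r) (ht : 1 ≤ t) (hts : t ≤ s) :
    w b / b * (t / (E t * E r)) ≤ N ^ (Θ + 4 * ε - 3 / 8 * c - 3 * (c₀ * δ)) := by
  obtain ⟨hN, h1, h2, h3, h4, h5, h6, h7, h8, h9⟩ := h.ps R
  have hE' := R.Epos t
  have ht' : (0 : ℝ) < t := by exact_mod_cast ht
  refine le_pow46 R.N1 (by positivity) ?_
  simp (disch := positivity) only [Real.sqrt_eq_rpow, Real.logb_mul, Real.logb_div, Real.logb_pow, Real.logb_inv,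
    Real.logb_rpow_eq_mul_logb_of_pos, Real.logb_one, Nat.cast_ofNat]
  linarith [R.lw h.hb, R.lst' h.hb, R.lkap' h.hs, h.ls2 R, h.lup R, R.lhalf ht hts, R.lxmono ht hts, R.ε0]

/-- helper90: `r / (E_s ^ 3 E_r)`. -/
theorem t0_s3 (R : Reg46 E w c₀ Θ δ a ε N) (h : Bs46 E δ c N b s r) :
    (r : ℝ) / (E s ^ 3 * E r) ≤ N ^ (Θ + ε - 4 * c) := by
  obtain ⟨hN, h1, h2, h3, h4, h5, h6, h7, h8, h9⟩ := h.ps R
  refine le_pow46 R.N1 (by positivity) ?_
  simp (disch := positivity) only [Real.sqrt_eq_rpow, Real.logb_mul, Real.logb_div, Real.logb_pow, Real.logb_inv,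
    Real.logb_rpow_eq_mul_logb_of_pos, Real.logb_one, Nat.cast_ofNat]
  linarith [R.lkap' h.hr, h.ls3 R, (h.l8 R).2]

/-- helper90: `t / (E_b ^ 3 E_r)`, `t ≤ s`. -/
theorem t0_b3 (R : Reg46 E w c₀ Θ δ a ε N) (h : Bs46 E δ c N b s r) (ht : 1 ≤ t) (hts : t ≤ s) :
    (t : ℝ) / (E b ^ 3 * E r) ≤ N ^ (Θ + 2 * ε - 5 * c) := by
  obtain ⟨hN, h1, h2, h3, h4, h5, h6, h7, h8, h9⟩ := h.ps R
  have ht' : (0 : ℝ) < t := by exact_mod_cast ht
  refine le_pow46 R.N1 (by positivity) ?_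
  simp (disch := positivity) only [Real.sqrt_eq_rpow, Real.logb_mul, Real.logb_div, Real.logb_pow, Real.logb_inv,
    Real.logb_rpow_eq_mul_logb_of_pos, Real.logb_one, Nat.cast_ofNat]
  linarith [R.lkap' h.hs, h.ls2 R, h.lup R, R.lxmono ht hts, (h.l8 R).2, R.ε0, h.c0]

/-- T0.6, E2.4, E2b: one own loop of the scale `t ≤ s` over both rows, two micro loops at windows of the length `b₀`. -/
theorem own_mic (R : Reg46 E w c₀ Θ δ a ε N) (h : Bs46 E δ c N b s r) (hb₀ : 1 ≤ b₀) (hb : b₀ ≤ b) (hC : (b : ℝ) ≤ N ^ C * b₀) (ht : 1 ≤ t) (hts : t ≤ s) :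
    (t : ℝ) / (E t * E b₀ ^ 2 * E r) ≤ N ^ (Θ + C + 5 * ε - 8 * c) := by
  obtain ⟨hN, h1, h2, h3, h4, h5, h6, h7, h8, h9⟩ := h.ps R
  have hE'' := R.Epos b₀
  have hE' := R.Epos t
  have ht' : (0 : ℝ) < t := by exact_mod_cast ht
  refine le_pow46 R.N1 (by positivity) ?_
  simp (disch := positivity) only [Real.sqrt_eq_rpow, Real.logb_mul, Real.logb_div, Real.logb_pow, Real.logb_inv,
    Real.logb_rpow_eq_mul_logb_of_pos, Real.logb_one, Nat.cast_ofNat]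
  linarith [R.lkap' h.hs, h.ls2 R, h.lup R, R.lhalf ht hts, R.lxmono ht hts, lb0 R hb₀ hb hC, (h.l8 R).2, R.ε0, h.c0]

/-- T0.7, E2.5, GS.6: one own loop of the scale `t ≤ s` and one more loop of the scale at least `t` over both rows. -/
theorem own_far (R : Reg46 E w c₀ Θ δ a ε N) (h : Bs46 E δ c N b s r) (ht : Rg46 δ N t) (hts : t ≤ s) (htu : t ≤ u) :
    (t : ℝ) / (E t * E u * E r) ≤ N ^ (Θ + 2 * ε - 3 * c) := by
  obtain ⟨hN, h1, h2, h3, h4, h5, h6, h7, h8, h9⟩ := h.ps R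
  have hE' := R.Epos t
  have hE'' := R.Epos u
  have ht' := ht.pos R.N1
  refine le_pow46 R.N1 (by positivity) ?_
  simp (disch := positivity) only [Real.sqrt_eq_rpow, Real.logb_mul, Real.logb_div, Real.logb_pow, Real.logb_inv,
    Real.logb_rpow_eq_mul_logb_of_pos, Real.logb_one, Nat.cast_ofNat]
  linarith [R.lkap' ht, h.ls4 R, R.lmono hts, R.lmono htu, (h.l8 R).2, R.ε0, h.c0]

/-- Near pairs, two loops of the base. -/
theorem near_b (R : Reg46 E w c₀ Θ δ a ε N) (h : Bs46 E δ c N b s r) :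
    (b : ℝ) / (E b ^ 2 * E r) ≤ N ^ (Θ + ε - 7 * c) := by
  obtain ⟨hN, h1, h2, h3, h4, h5, h6, h7, h8, h9⟩ := h.ps R
  refine le_pow46 R.N1 (by positivity) ?_
  simp (disch := positivity) only [Real.sqrt_eq_rpow, Real.logb_mul, Real.logb_div, Real.logb_pow, Real.logb_inv,
    Real.logb_rpow_eq_mul_logb_of_pos, Real.logb_one, Nat.cast_ofNat]
  linarith [R.lkap' h.hb, h.lup R, (h.l8 R).2, h.c0]

/-- Near pairs, an own loop of the scale `s`. -/
theorem near_s (R : Reg46 E w c₀ Θ δ a ε N) (h : Bs46 E δ c N b s r) :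
    (b : ℝ) / (E s * E r) ≤ N ^ (Θ + ε - 2 * c) := by
  obtain ⟨hN, h1, h2, h3, h4, h5, h6, h7, h8, h9⟩ := h.ps R
  refine le_pow46 R.N1 (by positivity) ?_
  simp (disch := positivity) only [Real.sqrt_eq_rpow, Real.logb_mul, Real.logb_div, Real.logb_pow, Real.logb_inv,
    Real.logb_rpow_eq_mul_logb_of_pos, Real.logb_one, Nat.cast_ofNat]
  linarith [R.lkap' h.hb, h.lup R, h.ls1 R, (h.l8 R).2, h.c0]

/-- E2.6, E2a: near pairs, ONE loop of the base. -/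
theorem near_1 (R : Reg46 E w c₀ Θ δ a ε N) (h : Bs46 E δ c N b s r) :
    (b : ℝ) / (E b * E r) ≤ N ^ (3 / 4 * (Θ + ε) + 9 / 8 * c) := by
  obtain ⟨hN, h1, h2, h3, h4, h5, h6, h7, h8, h9⟩ := h.ps R
  refine le_pow46 R.N1 (by positivity) ?_
  simp (disch := positivity) only [Real.sqrt_eq_rpow, Real.logb_mul, Real.logb_div, Real.logb_pow, Real.logb_inv,
    Real.logb_rpow_eq_mul_logb_of_pos, Real.logb_one, Nat.cast_ofNat]
  linarith [h.lkb R, h.lup R]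

/-! ### E2: own loops of the scales `b ≤ t ≤ s`, near slabs of the length `b`, finer window `b₀` -/

/-- E2.1: two gains, different own loops. -/
theorem e2_1 (R : Reg46 E w c₀ Θ δ a ε N) (h : Bs46 E δ c N b s r) :
    (w b / b) ^ 2 * (r / (E b ^ 2 * E r)) ≤ N ^ (Θ + 3 * ε - 2 * c) := by
  obtain ⟨hN, h1, h2, h3, h4, h5, h6, h7, h8, h9⟩ := h.ps R
  refine le_pow46 R.N1 (by positivity) ?_
  simp (disch := positivity) only [Real.sqrt_eq_rpow, Real.logb_mul, Real.logb_div, Real.logb_pow, Real.logb_inv,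
    Real.logb_rpow_eq_mul_logb_of_pos, Real.logb_one, Nat.cast_ofNat]
  linarith [R.lw h.hb, R.lst' h.hb, R.lkap' h.hr, h.lpin R, mul_pos R.c₀0 R.δ0]

/-- E2.2: two gains, the same own loop. -/
theorem e2_2 (R : Reg46 E w c₀ Θ δ a ε N) (h : Bs46 E δ c N b s r) (ht : 1 ≤ t) (hts : t ≤ s) :
    (w b / b) ^ 2 * (t / (E t * E r)) ≤ N ^ (Θ + 5 * ε - 16 * c) := by
  obtain ⟨hN, h1, h2, h3, h4, h5, h6, h7, h8, h9⟩ := h.ps R
  have hE' := R.Epos t
  have ht' : (0 : ℝ) < t := by exact_mod_cast ht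
  refine le_pow46 R.N1 (by positivity) ?_
  simp (disch := positivity) only [Real.sqrt_eq_rpow, Real.logb_mul, Real.logb_div, Real.logb_pow, Real.logb_inv,
    Real.logb_rpow_eq_mul_logb_of_pos, Real.logb_one, Nat.cast_ofNat]
  linarith [R.lw h.hb, R.lst' h.hb, R.lkap' h.hs, h.ls2 R, h.lup R, R.lhalf ht hts, R.lxmono ht hts, R.ε0, (h.l8 R).1, h.c0, mul_pos R.c₀0 R.δ0]

/-- E2.3, E2.5, E2.6, E2a, E2b, E5.6: four ties, two of them at windows of the length `b₀`. -/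
theorem four (R : Reg46 E w c₀ Θ δ a ε N) (h : Bs46 E δ c N b s r) (hb₀ : 1 ≤ b₀) (hb : b₀ ≤ b) (hC : (b : ℝ) ≤ N ^ C * b₀) :
    (r : ℝ) / (E b ^ 2 * E b₀ ^ 2 * E r) ≤ N ^ (Θ + C + 3 * ε - 2 * c) := by
  obtain ⟨hN, h1, h2, h3, h4, h5, h6, h7, h8, h9⟩ := h.ps R
  have hE'' := R.Epos b₀
  refine le_pow46 R.N1 (by positivity) ?_
  simp (disch := positivity) only [Real.sqrt_eq_rpow, Real.logb_mul, Real.logb_div, Real.logb_pow, Real.logb_inv,
    Real.logb_rpow_eq_mul_logb_of_pos, Real.logb_one, Nat.cast_ofNat]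
  linarith [R.lkap' h.hr, h.lpin R, lb0 R hb₀ hb hC]

/-- E2.3, E5.4: four ties of scales at least `b`. -/
theorem four' (R : Reg46 E w c₀ Θ δ a ε N) (h : Bs46 E δ c N b s r) (hbu : b ≤ u) :
    (r : ℝ) / (E b ^ 2 * E u ^ 2 * E r) ≤ N ^ (Θ + ε - 2 * c) := by
  obtain ⟨hN, h1, h2, h3, h4, h5, h6, h7, h8, h9⟩ := h.ps R
  have hE'' := R.Epos u
  refine le_pow46 R.N1 (by positivity) ?_
  simp (disch := positivity) only [Real.sqrt_eq_rpow, Real.logb_mul, Real.logb_div, Real.logb_pow, Real.logb_inv,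
    Real.logb_rpow_eq_mul_logb_of_pos, Real.logb_one, Nat.cast_ofNat]
  linarith [R.lkap' h.hr, h.lpin R, R.lmono hbu]

/-! ### E2a: ties at windows of the length `b₀`, slab of the length `l ≥ N ^ (-C') r` -/

/-- E2a: one gain. -/
theorem e2a_lam (R : Reg46 E w c₀ Θ δ a ε N) (h : Bs46 E δ c N b s r) (hb₀ : 1 ≤ b₀) (hb : b₀ ≤ b) (hC : (b : ℝ) ≤ N ^ C * b₀) {C' : ℝ} (hl : 1 ≤ l) (hC' : (r : ℝ) ≤ N ^ C' * l) :
    w r / l * (r / (E b₀ ^ 2 * E r)) ≤ N ^ (C + C' + 3 * ε - c) := by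
  obtain ⟨hN, h1, h2, h3, h4, h5, h6, h7, h8, h9⟩ := h.ps R
  have hE'' := R.Epos b₀
  have hl' : (0 : ℝ) < l := by exact_mod_cast hl
  refine le_pow46 R.N1 (by positivity) ?_
  simp (disch := positivity) only [Real.sqrt_eq_rpow, Real.logb_mul, Real.logb_div, Real.logb_pow, Real.logb_inv,
    Real.logb_rpow_eq_mul_logb_of_pos, Real.logb_one, Nat.cast_ofNat]
  linarith [R.lw h.hr, h.lpin R, lb0 R hb₀ hb hC, lC4 R hl (h.hr.npos R.N1) hC']

/-- E2a: two ties at windows of the length `b₀`, one loop of the scale `t ≤ r` over both rows. -/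
theorem e2a_any (R : Reg46 E w c₀ Θ δ a ε N) (h : Bs46 E δ c N b s r) (hb₀ : 1 ≤ b₀) (hb : b₀ ≤ b) (hC : (b : ℝ) ≤ N ^ C * b₀) (ht : 1 ≤ t) (htr : t ≤ r) :
    (t : ℝ) / (E b₀ ^ 2 * E t * E r) ≤ N ^ (Θ + C + 4 * ε - c) := by
  obtain ⟨hN, h1, h2, h3, h4, h5, h6, h7, h8, h9⟩ := h.ps R
  have hE'' := R.Epos b₀
  have hE' := R.Epos t
  have ht' : (0 : ℝ) < t := by exact_mod_cast ht
  refine le_pow46 R.N1 (by positivity) ?_
  simp (disch := positivity) only [Real.sqrt_eq_rpow, Real.logb_mul, Real.logb_div, Real.logb_pow, Real.logb_inv,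
    Real.logb_rpow_eq_mul_logb_of_pos, Real.logb_one, Nat.cast_ofNat]
  linarith [R.lkap' h.hr, h.lpin R, R.lhalf ht htr, R.lxmono ht htr, lb0 R hb₀ hb hC]

/-- `λ_b₀ ^ (-2) ≤ N ^ .. / E_b`. -/
theorem lam_b0 (R : Reg46 E w c₀ Θ δ a ε N) (hb₀ : Rg46 δ N b₀) (hb : b₀ ≤ b) (hC : (b : ℝ) ≤ N ^ C * b₀) :
    w b₀ / b₀ ≤ N ^ (C / 2 + 2 * ε - 3 * (c₀ * δ)) / E b := by
  have h1 := hb₀.pos R.N1
  have hE := R.Epos b
  have hE' := R.Epos b₀
  have hw := R.w0 b₀ (hb₀.npos R.N1)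
  have hN := R.N0
  refine of_lg46 R.N1 (by positivity) (by positivity) ?_
  rw [Real.logb_div (by positivity) (by positivity), Real.logb_div (by positivity) (by positivity), lgN46 R.N1]
  linarith [R.lw hb₀, R.lst' hb₀, lb0 R (hb₀.npos R.N1) hb hC]

end Reg46

end Pool.Agent.W_7d29a1_C0
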