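import Pool.Agent.W_7d29a1_C0.Pl3L52

/-!
CURV0 (MP_7d29a1_pr): THE LEVELS OF THREE PATHS WHICH ARE APART ON A WINDOW (helper52). `lvL`, `lvR`: the levels to the left (right) of a
window `[i, i + e]`. `tri_left`, `tri_right`: if `x`, `y`, `t` are pairwise apart on the window and `x`, `y` agree at the ends of the block
`[c', d']`, then `Adm x y t` or `Adm y x t`. `pl3_left`, `pl3_right`: `Adm` is a place of the price `(L ^ ε / EE' e) ^ 2`, which uses the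
rows in front of `i + e` (behind `i`) only.
-/

set_option autoImplicit false
set_option linter.unusedSectionVars false

namespace Pool.W7d29a1.C0.L52

open MeasureTheory ProbabilityTheory Filter Topology Finset
open Pool.Agent.W_7d29a1_F Pool.Agent.W_7d29a1_X Pool.Agent.W_7d29a1_h4g Pool.Agent.W_7d29a1_H
open Pool.Agent.W_7d29a1_HS (In wd md)
open Pool.Agent.W_7d29a1_HZ
open Pool.Agent.W_7d29a1_HZ.Z86
open Pool.Agent.W_7d29a1_C0.P86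
open Pool.Agent.W_7d29a1_C0.N51 (Pl3 mc3 On3 pl3_wt P3_mono' P3_or K51 core51)
open scoped ENNReal

noncomputable section

variable {μ : Measure ℝ} {s : ℝ} {N : ℕ}

/-! ### The abstract step -/

/-- **The three cases.** `Lev n cl cr u v`: the pair `u`, `v` closes at the level `n`, closings in `[cl, cr]`. -/
theorem tri52 {lv : Lvs} {M : ℕ} {Lev : ℕ → ℕ → ℕ → Finset ℕ → Finset ℕ → Prop}
    (hsym : ∀ n cl cr u v, Lev n cl cr u v → Lev n cl cr v u)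
    (hCl : ∀ n < M, ∀ cl cr u v, cr ≤ N → Lev n cl cr u v → Cl1 (lv.τ n) (lv.t n) (lv.H n) (max (lv.c n) cl) (min (lv.d n) cr) u v)
    (hNM : ∀ n < M, ∀ m ≤ n, ∀ cl cr u v, Lev n cl cr u v → NoMeet (lv.τ m) (lv.τ m + lv.t m / 4) u v)
    (hC3 : ∀ n < M, ∀ m ≤ n, n ≤ m + 2 → ∀ cl cr u v, Lev n cl cr u v → Cl1 (lv.τ m) (lv.t m) (lv.H m) cl cr u v)
    {c' d' : ℕ} (hd' : d' ≤ N) {x y t : Finset ℕ} {n1 n2 n3 : ℕ} (k1 : n1 < M) (k2 : n2 < M) (k3 : n3 < M) (h1 : Lev n1 c' d' x y)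
    (h2 : Lev n2 0 N x t) (h3 : Lev n3 0 N y t) : Adm N lv M c' d' x y t ∨ Adm N lv M c' d' y x t := by
  have hb : ∀ n < M, ∀ u v, Lev n 0 N u v → Cl1 (lv.τ n) (lv.t n) (lv.H n) (lv.c n) (lv.d n) u v := fun n hn u v h =>
    (hCl n hn 0 N u v le_rfl h).mono (le_max_left _ _) (min_le_left _ _)
  rcases Nat.lt_or_ge (n1 + 1) n2 with g | g
  · exact Or.inl (Or.inl ⟨n1, k1, n2, k2, g, Or.inl ⟨hCl n1 k1 c' d' x y hd' h1, hb n2 k2 x t h2⟩⟩)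
  rcases Nat.lt_or_ge (n2 + 1) n1 with g' | g'
  · exact Or.inl (Or.inl ⟨n2, k2, n1, k1, g', Or.inr ⟨hb n2 k2 x t h2, hCl n1 k1 c' d' x y hd' h1⟩⟩)
  rcases Nat.lt_or_ge (n3 + 1) (min n1 n2) with g3 | g3
  · exact Or.inr (Or.inl ⟨n3, k3, n1, k1, by omega, Or.inr ⟨hb n3 k3 y t h3, hCl n1 k1 c' d' y x hd' (hsym _ _ _ _ _ h1)⟩⟩)
  · refine Or.inl (Or.inr ⟨min (min n1 n2) n3, by omega, ?_, ?_, ?_⟩)
    · exact hC3 n1 k1 _ (by omega) (by omega) c' d' x y h1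
    · exact hC3 n2 k2 _ (by omega) (by omega) 0 N x t h2
    · exact hNM n3 k3 _ (min_le_right _ _) 0 N y t h3

/-! ### The levels to the left -/

/-- The length of the window of the level `n`. -/
def tl (e n : ℕ) : ℕ := if n = 0 then e else 2 ^ (n - 1) * e

theorem tl_zero (e : ℕ) : tl e 0 = e := if_pos rfl

theorem tl_succ (e n : ℕ) : tl e (n + 1) = 2 ^ n * e := by
  unfold tl
  rw [if_neg (Nat.succ_ne_zero n), Nat.add_sub_cancel]

theorem pow_e (e n : ℕ) : 2 ^ (n + 1) * e = 2 * (2 ^ n * e) := by rw [pow_succ]; ring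

theorem tl_ge (e n : ℕ) : e ≤ tl e n := by
  cases n with
  | zero => rw [tl_zero]
  | succ n =>
    rw [tl_succ]
    exact Nat.le_mul_of_pos_left e (by positivity)

/-- `tl n ≤ 2 ^ n e ≤ 2 tl n`. -/
theorem tl_pow (e n : ℕ) : tl e n ≤ 2 ^ n * e ∧ 2 ^ n * e ≤ 2 * tl e n := by
  cases n with
  | zero =>
    rw [tl_zero, pow_zero, one_mul]
    omega
  | succ n =>
    rw [tl_succ, pow_e]
    omega

theorem pow_mono_e {e n m : ℕ} (h : n ≤ m) : 2 ^ n * e ≤ 2 ^ m * e :=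
  Nat.mul_le_mul_right e (Nat.pow_le_pow_right (by norm_num) h)

/-- The levels to the left of the row `k`. -/
def lvL (N e k : ℕ) : Lvs := ⟨fun n => k - 2 ^ n * e, tl e, fun n => 16 * tl e n, fun n => k - 2 ^ (n + 1) * e, fun _ => N⟩

/-- The pair closes to the left at the level `n`. -/
def LevL (e k n cl cr : ℕ) (u v : Finset ℕ) : Prop :=
  ∃ g g' : ℕ, cl ≤ g ∧ g + 2 ^ n * e < k ∧ k ≤ g + 2 ^ (n + 1) * e ∧ k < g' ∧ g' ≤ cr ∧ pos u g = pos v g ∧ pos u g' = pos v g' ∧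
    ∀ j, g < j → j ≤ k → pos u j ≠ pos v j

theorem levL_symm {e k n cl cr : ℕ} {u v : Finset ℕ} (h : LevL e k n cl cr u v) : LevL e k n cl cr v u := by
  obtain ⟨g, g', h1, h2, h3, h4, h5, h6, h7, h8⟩ := h
  exact ⟨g, g', h1, h2, h3, h4, h5, h6.symm, h7.symm, fun j a b => (h8 j a b).symm⟩

theorem levL_nm {e k n m cl cr : ℕ} {u v : Finset ℕ} (hm : m ≤ n) (h : LevL e k n cl cr u v) :
    NoMeet (k - 2 ^ m * e) (k - 2 ^ m * e + tl e m / 4) u v := by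
  obtain ⟨g, g', h1, h2, h3, h4, h5, h6, h7, h8⟩ := h
  intro j hj1 hj2
  have a1 := pow_mono_e (e := e) hm
  have a2 := (tl_pow e m).1
  exact h8 j (by omega) (by omega)

theorem levL_c3 {e k n m cl cr : ℕ} {u v : Finset ℕ} (hm : m ≤ n) (hn : n ≤ m + 2) (h : LevL e k n cl cr u v) :
    Cl1 (k - 2 ^ m * e) (tl e m) (16 * tl e m) cl cr u v := by
  refine ⟨levL_nm hm h, ?_⟩
  obtain ⟨g, g', h1, h2, h3, h4, h5, h6, h7, h8⟩ := h
  have a1 := pow_mono_e (e := e) hm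
  have a2 := tl_pow e m
  have a3 : 2 ^ (n + 1) * e ≤ 8 * (2 ^ m * e) := by
    calc 2 ^ (n + 1) * e ≤ 2 ^ (m + 3) * e := pow_mono_e (by omega)
      _ = 8 * (2 ^ m * e) := by rw [pow_add]; ring
  exact ⟨g, g', ⟨h1, by omega, by omega, h5⟩, Or.inl (by omega), h6, h7⟩

/-- There is a level. -/
theorem levL_ex {i e k M cl cr : ℕ} (hk : k = i + e) (hM : k ≤ 2 ^ M * e) {u v : Finset ℕ} (hcl : cl ≤ i) (hcr : k ≤ cr)
    (h1 : pos u cl = pos v cl) (h2 : pos u cr = pos v cr) (h : NoMeet i k u v) : ∃ n < M, LevL e k n cl cr u v := by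
  classical
  obtain ⟨g, hg⟩ : ∃ g, g = Nat.findGreatest (fun j => pos u j = pos v j) k := ⟨_, rfl⟩
  have g1 : cl ≤ g := by rw [hg]; exact Nat.le_findGreatest (by omega) h1
  have g2 : pos u g = pos v g := by rw [hg]; exact Nat.findGreatest_spec (P := fun j => pos u j = pos v j) (show cl ≤ k by omega) h1
  have g3 : ∀ j, g < j → j ≤ k → pos u j ≠ pos v j := fun j hj1 hj2 => by
    rw [hg] at hj1
    exact Nat.findGreatest_is_greatest hj1 hj2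
  have g4 : g ≤ k := by rw [hg]; exact Nat.findGreatest_le k
  have g5 : g < i := by
    by_contra hcon
    exact h g (by omega) g4 g2
  have g6 : k < cr := by
    rcases Nat.lt_or_ge k cr with g7 | g7
    · exact g7
    · exact absurd h2 (h cr (by omega) (by omega))
  have hex : ∃ n, k ≤ g + 2 ^ (n + 1) * e := ⟨M, by
    have := pow_mono_e (e := e) (show M ≤ M + 1 by omega)
    omega⟩
  obtain ⟨n, hn⟩ : ∃ n, n = Nat.find hex := ⟨_, rfl⟩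
  have n1 : k ≤ g + 2 ^ (n + 1) * e := by rw [hn]; exact Nat.find_spec hex
  have n2 : g + 2 ^ n * e < k := by
    cases hn0 : n with
    | zero =>
      rw [pow_zero, one_mul]
      omega
    | succ m =>
      have := Nat.find_min hex (m := m) (by omega)
      omega
  refine ⟨n, ?_, g, cr, g1, n2, n1, g6, le_rfl, g2, h2, g3⟩
  by_contra hcon
  have := pow_mono_e (e := e) (show M ≤ n by omega)
  omega

/-! ### The levels to the right -/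

/-- The first row of the window of the level `n`. -/
def tr (i e n : ℕ) : ℕ := if n = 0 then i else i + 2 ^ (n - 1) * e

theorem tr_zero (i e : ℕ) : tr i e 0 = i := if_pos rfl

theorem tr_succ (i e n : ℕ) : tr i e (n + 1) = i + 2 ^ n * e := by
  unfold tr
  rw [if_neg (Nat.succ_ne_zero n), Nat.add_sub_cancel]

/-- The levels to the right of the row `i`. -/
def lvR (N e i : ℕ) : Lvs := ⟨tr i e, tl e, fun n => 16 * tl e n, fun _ => 0, fun n => min N (i + 2 ^ (n + 1) * e - 1)⟩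

/-- The window of the level `m` lies in `[i, i + 2 ^ m e)`, `i ≤ tr`. -/
theorem tr_lt {i e m j : ℕ} (he : 1 ≤ e) (h : j ≤ tr i e m + tl e m / 4) : j < i + 2 ^ m * e ∧ i ≤ tr i e m := by
  cases m with
  | zero =>
    rw [tr_zero, tl_zero] at h
    rw [tr_zero, pow_zero, one_mul]
    omega
  | succ m =>
    rw [tr_succ, tl_succ] at h
    rw [tr_succ, pow_e]
    have : 1 ≤ 2 ^ m * e := Nat.mul_pos (by positivity) he
    omega

/-- The pair closes to the right at the level `n`. -/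
def LevR (i e n cl cr : ℕ) (u v : Finset ℕ) : Prop :=
  ∃ g g' : ℕ, cl ≤ g ∧ g < i ∧ g' ≤ cr ∧ i + 2 ^ n * e ≤ g' ∧ g' < i + 2 ^ (n + 1) * e ∧ pos u g = pos v g ∧ pos u g' = pos v g' ∧
    ∀ j, i ≤ j → j < g' → pos u j ≠ pos v j

theorem levR_symm {i e n cl cr : ℕ} {u v : Finset ℕ} (h : LevR i e n cl cr u v) : LevR i e n cl cr v u := by
  obtain ⟨g, g', h1, h2, h3, h4, h5, h6, h7, h8⟩ := h
  exact ⟨g, g', h1, h2, h3, h4, h5, h6.symm, h7.symm, fun j a b => (h8 j a b).symm⟩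

theorem levR_nm {i e n m cl cr : ℕ} {u v : Finset ℕ} (he : 1 ≤ e) (hm : m ≤ n) (h : LevR i e n cl cr u v) :
    NoMeet (tr i e m) (tr i e m + tl e m / 4) u v := by
  obtain ⟨g, g', h1, h2, h3, h4, h5, h6, h7, h8⟩ := h
  intro j hj1 hj2
  have a1 := pow_mono_e (e := e) hm
  have a2 := tr_lt he hj2
  exact h8 j (by omega) (by omega)

theorem levR_c3 {i e n m cl cr : ℕ} {u v : Finset ℕ} (he : 1 ≤ e) (hm : m ≤ n) (hn : n ≤ m + 2) (h : LevR i e n cl cr u v) :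
    Cl1 (tr i e m) (tl e m) (16 * tl e m) cl cr u v := by
  refine ⟨levR_nm he hm h, ?_⟩
  obtain ⟨g, g', h1, h2, h3, h4, h5, h6, h7, h8⟩ := h
  have a1 := pow_mono_e (e := e) hm
  have a2 := tl_pow e m
  have a4 := tr_lt (i := i) he (le_refl (tr i e m + tl e m / 4))
  have a3 : 2 ^ (n + 1) * e ≤ 8 * (2 ^ m * e) := by
    calc 2 ^ (n + 1) * e ≤ 2 ^ (m + 3) * e := pow_mono_e (by omega)
      _ = 8 * (2 ^ m * e) := by rw [pow_add]; ring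
  exact ⟨g, g', ⟨h1, by omega, by omega, h3⟩, Or.inr (by omega), h6, h7⟩

/-- There is a level. -/
theorem levR_ex {i e k M cl cr : ℕ} (hk : k = i + e) (hM : cr < i + 2 ^ M * e) {u v : Finset ℕ} (hcl : cl ≤ i) (hcr : k ≤ cr)
    (h1 : pos u cl = pos v cl) (h2 : pos u cr = pos v cr) (h : NoMeet i k u v) : ∃ n < M, LevR i e n cl cr u v := by
  classical
  have g5 : cl < i := by
    rcases Nat.lt_or_ge cl i with g | g
    · exact g
    · exact absurd h1 (h cl (by omega) (by omega))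
  have hexg : ∃ g', i ≤ g' ∧ pos u g' = pos v g' := ⟨cr, by omega, h2⟩
  obtain ⟨g', hg⟩ : ∃ g', g' = Nat.find hexg := ⟨_, rfl⟩
  have g1 : i ≤ g' ∧ pos u g' = pos v g' := by rw [hg]; exact Nat.find_spec hexg
  have g2 : ∀ j, i ≤ j → j < g' → pos u j ≠ pos v j := fun j hj1 hj2 hj3 => Nat.find_min hexg (m := j) (by omega) ⟨hj1, hj3⟩
  have g3 : g' ≤ cr := by rw [hg]; exact Nat.find_min' hexg ⟨by omega, h2⟩
  have g4 : k < g' := by
    by_contra hcon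
    exact h g' g1.1 (by omega) g1.2
  have hex : ∃ n, g' < i + 2 ^ (n + 1) * e := ⟨M, by
    have := pow_mono_e (e := e) (show M ≤ M + 1 by omega)
    omega⟩
  obtain ⟨n, hn⟩ : ∃ n, n = Nat.find hex := ⟨_, rfl⟩
  have n1 : g' < i + 2 ^ (n + 1) * e := by rw [hn]; exact Nat.find_spec hex
  have n2 : i + 2 ^ n * e ≤ g' := by
    cases hn0 : n with
    | zero =>
      rw [pow_zero, one_mul]
      omega
    | succ m =>
      have := Nat.find_min hex (m := m) (by omega)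
      omega
  refine ⟨n, ?_, cl, g', le_rfl, g5, g3, n2, n1, h1, g1.2, g2⟩
  by_contra hcon
  have := pow_mono_e (e := e) (show M ≤ n by omega)
  omega

/-! ### The two sides -/

/-- **LEFT**: pairwise apart on `[i, i + e]`. -/
theorem tri_left {i e M c' d' : ℕ} (hM : i + e ≤ 2 ^ M * e) (hc' : c' ≤ i) (hd : i + e ≤ d') (hd' : d' ≤ N)
    {x y t : Finset ℕ} (a1 : pos x c' = pos y c') (a2 : pos x d' = pos y d') (b1 : pos x 0 = pos t 0) (b2 : pos x N = pos t N)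
    (b3 : pos y 0 = pos t 0) (b4 : pos y N = pos t N) (h1 : NoMeet i (i + e) x y) (h2 : NoMeet i (i + e) x t)
    (h3 : NoMeet i (i + e) y t) : Adm N (lvL N e (i + e)) M c' d' x y t ∨ Adm N (lvL N e (i + e)) M c' d' y x t := by
  obtain ⟨n1, k1, l1⟩ := levL_ex (k := i + e) rfl hM hc' hd a1 a2 h1
  obtain ⟨n2, k2, l2⟩ := levL_ex (k := i + e) rfl hM (Nat.zero_le i) (hd.trans hd') b1 b2 h2
  obtain ⟨n3, k3, l3⟩ := levL_ex (k := i + e) rfl hM (Nat.zero_le i) (hd.trans hd') b3 b4 h3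
  refine tri52 (Lev := LevL e (i + e)) (fun n cl cr u v h => levL_symm h) (fun n _ cl cr u v hcr h => ?_)
    (fun n _ m hm cl cr u v h => levL_nm hm h) (fun n _ m hm hn cl cr u v h => levL_c3 hm hn h) hd' k1 k2 k3 l1 l2 l3
  have hq := levL_c3 le_rfl (by omega) h
  obtain ⟨g, g', h1, h2, h3, h4, h5, h6, h7, h8⟩ := h
  refine ⟨hq.1, g, g', ⟨?_, ?_, ?_, ?_⟩, ?_, h6, h7⟩
  · show max (i + e - 2 ^ (n + 1) * e) cl ≤ g
    omega
  · show g ≤ i + e - 2 ^ n * e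
    omega
  · show i + e - 2 ^ n * e + tl e n / 4 ≤ g'
    have := (tl_pow e n).1
    omega
  · show g' ≤ min N cr
    omega
  · show i + e - 2 ^ n * e + tl e n / 4 ≤ g + 16 * tl e n ∨ _
    have := tl_pow e n
    have := pow_e e n
    left
    omega

/-- **RIGHT**: pairwise apart on `[i, i + e]`. -/
theorem tri_right {i e M c' d' : ℕ} (he : 1 ≤ e) (hM : N < i + 2 ^ M * e) (hc' : c' ≤ i) (hd : i + e ≤ d') (hd' : d' ≤ N)
    {x y t : Finset ℕ} (a1 : pos x c' = pos y c') (a2 : pos x d' = pos y d') (b1 : pos x 0 = pos t 0) (b2 : pos x N = pos t N)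
    (b3 : pos y 0 = pos t 0) (b4 : pos y N = pos t N) (h1 : NoMeet i (i + e) x y) (h2 : NoMeet i (i + e) x t)
    (h3 : NoMeet i (i + e) y t) : Adm N (lvR N e i) M c' d' x y t ∨ Adm N (lvR N e i) M c' d' y x t := by
  obtain ⟨n1, k1, l1⟩ := levR_ex (k := i + e) rfl (lt_of_le_of_lt hd' hM) hc' hd a1 a2 h1
  obtain ⟨n2, k2, l2⟩ := levR_ex (k := i + e) rfl hM (Nat.zero_le i) (hd.trans hd') b1 b2 h2
  obtain ⟨n3, k3, l3⟩ := levR_ex (k := i + e) rfl hM (Nat.zero_le i) (hd.trans hd') b3 b4 h3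
  refine tri52 (Lev := LevR i e) (fun n cl cr u v h => levR_symm h) (fun n _ cl cr u v hcr h => ?_)
    (fun n _ m hm cl cr u v h => levR_nm he hm h) (fun n _ m hm hn cl cr u v h => levR_c3 he hm hn h) hd' k1 k2 k3 l1 l2 l3
  have hq := levR_c3 he le_rfl (by omega) h
  obtain ⟨g, g', h1, h2, h3, h4, h5, h6, h7, h8⟩ := h
  have h9 := tr_lt (i := i) he (le_refl (tr i e n + tl e n / 4))
  have h10 := tl_pow e n
  have h11 := pow_e e n
  refine ⟨hq.1, g, g', ⟨?_, ?_, ?_, ?_⟩, ?_, h6, h7⟩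
  · show max 0 cl ≤ g
    omega
  · show g ≤ tr i e n
    omega
  · show tr i e n + tl e n / 4 ≤ g'
    omega
  · show g' ≤ min (min N (i + 2 ^ (n + 1) * e - 1)) cr
    omega
  · show _ ∨ g' ≤ tr i e n + 16 * tl e n
    right
    omega

/-! ### The numbers -/

theorem Pl3.weak52 {y : ℤ} {r r' p p' : ℝ≥0∞} {A : Finset ℕ → Finset ℕ → Finset ℕ → Prop} {J V : Finset ℕ}
    (h : Pl3 μ s N y r p A J V) (hr : r ≤ r') (hp : p ≤ p') : Pl3 μ s N y r' p' A J V := by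
  obtain ⟨NT, h1, h2, h3, h4⟩ := h
  exact ⟨NT, h1, h2, h3.trans hp, fun F hF hFo => (h4 F hF hFo).trans (add_le_add (mul_le_mul' hr le_rfl) hp)⟩

/-- **THE PLACE OF TWO ALTERNATIVES AT SEVERAL LEVELS**, numbers. -/
theorem pl3_adm [IsProbabilityMeasure μ] {c₀ C₀ : ℝ} {n₀ : ℕ} (h : In μ s c₀ C₀ n₀) : ∀ ε θ : ℝ, 0 < ε → 0 < θ →
    ∃ δ a κ : ℝ, 0 < δ ∧ 0 < a ∧ 0 < κ ∧ ∃ L₀ : ℕ, ∀ L : ℕ, L₀ ≤ L → ∀ N e : ℕ, L ≤ 16 * N → N ≤ L → (L : ℝ) ^ θ ≤ e →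
    ∀ y : ℕ, y ≤ N → |(y : ℝ) - sl μ s * N| ≤ ((L : ℝ) ^ δ * wd' μ s N) → ∀ (lv : Lvs) (M : ℕ), 1 ≤ M → (M : ℝ) ≤ (L : ℝ) ^ κ →
    (∀ n < M, e ≤ lv.t n ∧ 1 ≤ lv.τ n ∧ lv.τ n + lv.t n ≤ N ∧ lv.d n ≤ N ∧ lv.H n ≤ 16 * lv.t n) →
    (∀ n m, n + 2 ≤ m → m < M → ∀ j ∈ Ico (lv.τ m) (lv.τ m + lv.t m), j ≤ lv.c n ∨ lv.d n < j) →
    ∀ c' d' : ℕ, d' ≤ N → ∀ J : Finset ℕ, (∀ n < M, Ico (lv.τ n) (lv.τ n + lv.t n) ⊆ J) →
    Pl3 μ s N y (ENNReal.ofReal (((L : ℝ) ^ ε * (EE' μ s e)⁻¹) ^ 2)) (ENNReal.ofReal (Real.exp (-(L : ℝ) ^ a))) (Adm N lv M c' d') J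
      (range (N + 1)) := by
  classical
  intro ε θ hε hθ
  obtain ⟨δ, c₁, κ₁, hδ, hc₁, hκ₁, L₁, hP⟩ := core51 (μ := μ) (s := s) h (ε / 2) θ (by positivity) hθ
  obtain ⟨κ, hκd⟩ : ∃ κ, κ = min κ₁ (ε / 4) := ⟨_, rfl⟩
  have hκ : 0 < κ := by rw [hκd]; exact lt_min hκ₁ (by positivity)
  obtain ⟨a, ha, -, L₂, hX⟩ := Pool.Agent.W_7d29a1_Z.NumI77.pow_exp hc₁ (2 * κ + ε / 2 + 1)
  obtain ⟨L₃, hL₃⟩ := Pool.Agent.W_7d29a1_Z.NumI77.large (show 0 < ε / 2 by positivity) 2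
  obtain ⟨L₄, hL₄⟩ := Pool.Agent.W_7d29a1_Z.NumI77.large hκ₁ 16
  refine ⟨δ, a, κ, hδ, ha, hκ, L₁ + L₂ + L₃ + L₄ + 3, ?_⟩
  intro L hL N e hLN hNL he y hyN hyc lv M hM1 hM hlv hsep c' d' hd' J hJ
  have hL3 : (3 : ℝ) ≤ L := by exact_mod_cast (show 3 ≤ L by omega)
  have hL1 : (1 : ℝ) ≤ L := by linarith
  have hL0 : (0 : ℝ) < L := by linarith
  have hEE : ∀ n, (1 : ℝ) ≤ EE' μ s n := fun n => le_max_left _ _
  obtain ⟨-, g2, -⟩ := hL₃ L (by omega)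
  obtain ⟨-, g16, -⟩ := hL₄ L (by omega)
  have hyc' : |(((y : ℕ) : ℤ) : ℝ) - sl μ s * N| ≤ ((L : ℝ) ^ δ * wd' μ s N) := by
    rw [Int.cast_natCast]
    exact hyc
  have hex : ∀ n, ∃ (g : ℤ) (T2 T3 : ℕ → ℕ → ℕ → Env → Finset ℕ → Prop) (Gd : ℕ → Env → Finset ℕ → Finset ℕ → Finset ℕ → Prop),
      n < M → K51 μ s N (lv.t n) (lv.H n) (y : ℤ) ((L : ℝ) ^ (ε / 2) * (EE' μ s (lv.t n))⁻¹) (Real.exp (-(L : ℝ) ^ c₁)) g T2 T3 Gd := by
    intro n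
    by_cases hn : n < M
    · obtain ⟨q1, q2, q3, q4, q5⟩ := hlv n hn
      have r1 : (L : ℝ) ^ θ ≤ lv.t n := he.trans (by exact_mod_cast q1)
      have r2 : ((lv.H n : ℕ) : ℝ) ≤ (L : ℝ) ^ κ₁ * lv.t n := by
        have r3 : ((lv.H n : ℕ) : ℝ) ≤ 16 * lv.t n := by exact_mod_cast q5
        exact r3.trans (mul_le_mul_of_nonneg_right g16 (Nat.cast_nonneg _))
      obtain ⟨g, T2, T3, Gd, hK⟩ := hP L (by omega) N (lv.t n) hLN hNL r1 (by omega) (y : ℤ) (by omega) (by exact_mod_cast hyN) hyc'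
        (lv.H n) r2
      exact ⟨g, T2, T3, Gd, fun _ => hK⟩
    · exact ⟨0, fun _ _ _ _ _ => True, fun _ _ _ _ _ => True, fun _ _ _ _ _ => True, fun h => absurd h hn⟩
  choose g T2 T3 Gd hK using hex
  obtain ⟨r, hr⟩ : ∃ r, r = (L : ℝ) ^ (ε / 2) * (EE' μ s e)⁻¹ := ⟨_, rfl⟩
  have hEi0 : ∀ n, 0 ≤ (EE' μ s n)⁻¹ := fun n => inv_nonneg.2 (zero_le_one.trans (hEE n))
  have hP0 : 0 ≤ (L : ℝ) ^ (ε / 2) := Real.rpow_nonneg hL0.le _
  have hr0 : 0 ≤ r := by rw [hr]; exact mul_nonneg hP0 (hEi0 e)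
  have key := pl3_lev (μ := μ) (s := s) (N := N) (y := (y : ℤ)) (lv := lv) hM1 (fun n hn => (hlv n hn).2.1) (fun n hn => (hlv n hn).2.2.1)
    (fun n hn => (hlv n hn).2.2.2.1) hsep hr0 (Real.exp_pos (-(L : ℝ) ^ c₁)).le
    (ρ := fun n => (L : ℝ) ^ (ε / 2) * (EE' μ s (lv.t n))⁻¹) (fun n _ => mul_nonneg hP0 (hEi0 _))
    (fun n hn => by
      rw [hr]
      refine mul_le_mul_of_nonneg_left ?_ hP0
      exact inv_anti₀ (zero_lt_one.trans_le (hEE e)) (Pool.Agent.W_7d29a1_HZ.ZE.EE'_mono (hlv n hn).1))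
    (fun n hn => hK n hn) c' d' hd' hJ
  have hM0 : (0 : ℝ) ≤ M := Nat.cast_nonneg M
  have m2 : (M : ℝ) ^ 2 ≤ (L : ℝ) ^ (2 * κ) := by
    calc (M : ℝ) ^ 2 ≤ ((L : ℝ) ^ κ) ^ 2 := pow_le_pow_left₀ hM0 hM 2
      _ = (L : ℝ) ^ (2 * κ) := by
        rw [← Real.rpow_natCast, ← Real.rpow_mul hL0.le]
        congr 1
        push_cast
        ring
  refine Pl3.weak52 key (ENNReal.ofReal_le_ofReal ?_) (ENNReal.ofReal_le_ofReal ?_)
  · have k1 : (L : ℝ) ^ (2 * κ) ≤ (L : ℝ) ^ (ε / 2) := Real.rpow_le_rpow_of_exponent_le hL1 (by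
      have : κ ≤ ε / 4 := by rw [hκd]; exact min_le_right _ _
      linarith)
    have k2 : (L : ℝ) ^ ε = (L : ℝ) ^ (ε / 2) * (L : ℝ) ^ (ε / 2) := by
      rw [← Real.rpow_add hL0, add_halves]
    obtain ⟨P, hPd⟩ : ∃ P, P = (L : ℝ) ^ (ε / 2) := ⟨_, rfl⟩
    obtain ⟨E, hEd⟩ : ∃ E, E = (EE' μ s e)⁻¹ := ⟨_, rfl⟩
    rw [← hPd] at k1 k2 g2 hr
    rw [← hEd] at hr
    rw [hr, k2, ← hEd]
    have k3 : 2 * (M : ℝ) ^ 2 ≤ P ^ 2 := by nlinarith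
    calc 2 * (M : ℝ) ^ 2 * (P * E) ^ 2 ≤ P ^ 2 * (P * E) ^ 2 := mul_le_mul_of_nonneg_right k3 (sq_nonneg _)
      _ = (P * P * E) ^ 2 := by ring
  · have g := hX L (by omega)
    refine le_trans (mul_le_mul_of_nonneg_right ?_ (Real.exp_pos _).le) g
    have k1 : r ≤ (L : ℝ) ^ (ε / 2) := by
      rw [hr]
      exact mul_le_of_le_one_right hP0 (inv_le_one_of_one_le₀ (hEE e))
    have k2 : 1 ≤ (L : ℝ) ^ (ε / 2) := Real.one_le_rpow hL1 (by positivity)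
    have k3 : r + 2 ≤ (L : ℝ) ^ (ε / 2) * L := by nlinarith
    rw [Real.rpow_add hL0, Real.rpow_add hL0, Real.rpow_one, mul_assoc]
    exact mul_le_mul m2 k3 (by linarith) (Real.rpow_nonneg hL0.le _)

/-- The number of the levels. -/
theorem num_lev {κ : ℝ} (hκ : 0 < κ) : ∃ L₀ : ℕ, ∀ L : ℕ, L₀ ≤ L → ∀ M : ℕ, 2 ^ (M - 1) ≤ L → (M : ℝ) ≤ (L : ℝ) ^ κ := by
  obtain ⟨L₀, hL₀⟩ := Pool.Agent.W_7d29a1_Z.NumI77.large hκ 4
  refine ⟨L₀, fun L hL M hM => ?_⟩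
  obtain ⟨h1, -, h2⟩ := hL₀ L hL
  have hL0 : (0 : ℝ) < L := by exact_mod_cast h1
  have hlog : 0 ≤ Real.log L := Real.log_nonneg (by exact_mod_cast h1)
  have h3 : ((M - 1 : ℕ) : ℝ) * Real.log 2 ≤ Real.log L := by
    rw [← Real.log_pow]
    refine Real.log_le_log (by positivity) ?_
    exact_mod_cast hM
  have h4 := Real.log_two_gt_d9
  have h5 : (M : ℝ) ≤ ((M - 1 : ℕ) : ℝ) + 1 := by
    have : M ≤ (M - 1) + 1 := by omega
    exact_mod_cast this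
  have h6 : (0 : ℝ) ≤ ((M - 1 : ℕ) : ℝ) := Nat.cast_nonneg _
  nlinarith

/-- **THE LEFT PLACE.** -/
theorem pl3_left [IsProbabilityMeasure μ] {c₀ C₀ : ℝ} {n₀ : ℕ} (h : In μ s c₀ C₀ n₀) : ∀ ε θ : ℝ, 0 < ε → 0 < θ →
    ∃ δ a : ℝ, 0 < δ ∧ 0 < a ∧ ∃ L₀ : ℕ, ∀ L : ℕ, L₀ ≤ L → ∀ N e : ℕ, L ≤ 16 * N → N ≤ L → (L : ℝ) ^ θ ≤ e →
    ∀ y : ℕ, y ≤ N → |(y : ℝ) - sl μ s * N| ≤ ((L : ℝ) ^ δ * wd' μ s N) → ∀ i : ℕ, 1 ≤ i → i + e ≤ N → ∀ c' d' : ℕ, d' ≤ N →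
    ∃ M : ℕ, i + e ≤ 2 ^ M * e ∧
      Pl3 μ s N y (ENNReal.ofReal (((L : ℝ) ^ ε * (EE' μ s e)⁻¹) ^ 2)) (ENNReal.ofReal (Real.exp (-(L : ℝ) ^ a)))
        (Adm N (lvL N e (i + e)) M c' d') (Ico 0 (i + e)) (range (N + 1)) := by
  classical
  intro ε θ hε hθ
  obtain ⟨δ, a, κ, hδ, ha, hκ, L₁, hP⟩ := pl3_adm (μ := μ) (s := s) h ε θ hε hθ
  obtain ⟨L₂, hN⟩ := num_lev hκ
  refine ⟨δ, a, hδ, ha, L₁ + L₂ + 1, ?_⟩
  intro L hL N e hLN hNL he y hyN hyc i hi hiN c' d' hd'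
  have he1 : 1 ≤ e := by
    have h1 : (1 : ℝ) ≤ (L : ℝ) ^ θ := Real.one_le_rpow (by exact_mod_cast (show 1 ≤ L by omega)) hθ.le
    exact_mod_cast h1.trans he
  have hex : ∃ M, i + e ≤ 2 ^ M * e := ⟨i + e, by
    have h1 : i + e < 2 ^ (i + e) := Nat.lt_two_pow_self
    have h2 : 2 ^ (i + e) ≤ 2 ^ (i + e) * e := Nat.le_mul_of_pos_right _ he1
    omega⟩
  obtain ⟨M, hM⟩ : ∃ M, M = Nat.find hex := ⟨_, rfl⟩
  have m1 : i + e ≤ 2 ^ M * e := by rw [hM]; exact Nat.find_spec hex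
  have m2 : ∀ n < M, 2 ^ n * e < i + e := fun n hn => by
    have := Nat.find_min hex (m := n) (by omega)
    omega
  have m3 : 1 ≤ M := by
    by_contra hcon
    have : M = 0 := by omega
    rw [this, pow_zero, one_mul] at m1
    omega
  have m4 : 2 ^ (M - 1) ≤ L := by
    have h1 := m2 (M - 1) (by omega)
    have h2 : 2 ^ (M - 1) ≤ 2 ^ (M - 1) * e := Nat.le_mul_of_pos_right _ he1
    omega
  refine ⟨M, m1, hP L (by omega) N e hLN hNL he y hyN hyc (lvL N e (i + e)) M m3 (hN L (by omega) M m4) (fun n hn => ?_)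
    (fun n m hnm hm j hj => ?_) c' d' hd' _ fun n hn => ?_⟩
  · have q1 := m2 n hn
    have q2 := tl_pow e n
    refine ⟨tl_ge e n, ?_, ?_, le_rfl, le_rfl⟩
    · show 1 ≤ i + e - 2 ^ n * e
      omega
    · show i + e - 2 ^ n * e + tl e n ≤ N
      omega
  · rw [mem_Ico] at hj
    have q1 := m2 m hm
    have q3 : j < i + e - 2 ^ m * e + tl e m := hj.2
    left
    show j ≤ i + e - 2 ^ (n + 1) * e
    obtain ⟨m', rfl⟩ : ∃ m', m = m' + 1 := ⟨m - 1, by omega⟩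
    rw [tl_succ, pow_e] at q3
    rw [pow_e] at q1
    have q4 := pow_mono_e (e := e) (show n + 1 ≤ m' by omega)
    omega
  · intro j hj
    rw [mem_Ico] at hj ⊢
    have q1 := m2 n hn
    have q2 := tl_pow e n
    have q3 : j < i + e - 2 ^ n * e + tl e n := hj.2
    omega

/-- **THE RIGHT PLACE.** -/
theorem pl3_right [IsProbabilityMeasure μ] {c₀ C₀ : ℝ} {n₀ : ℕ} (h : In μ s c₀ C₀ n₀) : ∀ ε θ : ℝ, 0 < ε → 0 < θ →
    ∃ δ a : ℝ, 0 < δ ∧ 0 < a ∧ ∃ L₀ : ℕ, ∀ L : ℕ, L₀ ≤ L → ∀ N e : ℕ, L ≤ 16 * N → N ≤ L → (L : ℝ) ^ θ ≤ e →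
    ∀ y : ℕ, y ≤ N → |(y : ℝ) - sl μ s * N| ≤ ((L : ℝ) ^ δ * wd' μ s N) → ∀ i : ℕ, 1 ≤ i → i + e ≤ N → ∀ c' d' : ℕ, d' ≤ N →
    1 ≤ e ∧ ∃ M : ℕ, N < i + 2 ^ M * e ∧
      Pl3 μ s N y (ENNReal.ofReal (((L : ℝ) ^ ε * (EE' μ s e)⁻¹) ^ 2)) (ENNReal.ofReal (Real.exp (-(L : ℝ) ^ a)))
        (Adm N (lvR N e i) M c' d') (Ico i N) (range (N + 1)) := by
  classical
  intro ε θ hε hθ
  obtain ⟨δ, a, κ, hδ, ha, hκ, L₁, hP⟩ := pl3_adm (μ := μ) (s := s) h ε θ hε hθ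
  obtain ⟨L₂, hN⟩ := num_lev hκ
  refine ⟨δ, a, hδ, ha, L₁ + L₂ + 1, ?_⟩
  intro L hL N e hLN hNL he y hyN hyc i hi hiN c' d' hd'
  have he1 : 1 ≤ e := by
    have h1 : (1 : ℝ) ≤ (L : ℝ) ^ θ := Real.one_le_rpow (by exact_mod_cast (show 1 ≤ L by omega)) hθ.le
    exact_mod_cast h1.trans he
  have hex : ∃ M, N < i + 2 ^ M * e := ⟨N, by
    have h1 : N < 2 ^ N := Nat.lt_two_pow_self
    have h2 : 2 ^ N ≤ 2 ^ N * e := Nat.le_mul_of_pos_right _ he1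
    omega⟩
  obtain ⟨M, hM⟩ : ∃ M, M = Nat.find hex := ⟨_, rfl⟩
  have m1 : N < i + 2 ^ M * e := by rw [hM]; exact Nat.find_spec hex
  have m2 : ∀ n < M, i + 2 ^ n * e ≤ N := fun n hn => by
    have := Nat.find_min hex (m := n) (by omega)
    omega
  have m3 : 1 ≤ M := by
    by_contra hcon
    have : M = 0 := by omega
    rw [this, pow_zero, one_mul] at m1
    omega
  have m4 : 2 ^ (M - 1) ≤ L := by
    have h1 := m2 (M - 1) (by omega)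
    have h2 : 2 ^ (M - 1) ≤ 2 ^ (M - 1) * e := Nat.le_mul_of_pos_right _ he1
    omega
  refine ⟨he1, M, m1, hP L (by omega) N e hLN hNL he y hyN hyc (lvR N e i) M m3 (hN L (by omega) M m4) (fun n hn => ?_)
    (fun n m hnm hm j hj => ?_) c' d' hd' _ fun n hn => ?_⟩
  · have q1 := m2 n hn
    refine ⟨tl_ge e n, ?_, ?_, min_le_left _ _, le_rfl⟩
    · show 1 ≤ tr i e n
      have := (tr_lt (i := i) he1 (le_refl (tr i e n + tl e n / 4))).2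
      omega
    · show tr i e n + tl e n ≤ N
      cases n with
      | zero =>
        rw [tr_zero, tl_zero]
        omega
      | succ n =>
        rw [tr_succ, tl_succ]
        rw [pow_e] at q1
        omega
  · rw [mem_Ico] at hj
    have q3 : tr i e m ≤ j := hj.1
    right
    show min N (i + 2 ^ (n + 1) * e - 1) < j
    obtain ⟨m', rfl⟩ : ∃ m', m = m' + 1 := ⟨m - 1, by omega⟩
    rw [tr_succ] at q3
    have q4 := pow_mono_e (e := e) (show n + 1 ≤ m' by omega)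
    have q5 : 1 ≤ 2 ^ (n + 1) * e := Nat.mul_pos (by positivity) he1
    omega
  · intro j hj
    rw [mem_Ico] at hj ⊢
    have q1 := m2 n hn
    have q2 : tr i e n ≤ j := hj.1
    have q3 : j < tr i e n + tl e n := hj.2
    cases n with
    | zero =>
      rw [tr_zero] at q2 q3
      rw [tl_zero] at q3
      omega
    | succ n =>
      rw [tr_succ] at q2 q3
      rw [tl_succ] at q3
      rw [pow_e] at q1
      omega

end

end Pool.W7d29a1.C0.L52
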