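import Pool.Agent.W_7d29a1_C0.Mod38B

/-!
CURV0 (MP_7d29a1_pr), leaf E5.8, helper38: THE THIRD ORDER PART OF ONE ROW AGAINST A PASSENGER. `rhs38_mono`: the right side is monotone in
the cut and in the ties. `kX38`: both sides at one tilt. `N5e_row38`: the mean of `N5e` times the passenger is at most `C / 6` if for every
tilt `t` in `[-1, 1]` the right sides of the right and of the left inequality are together at most `C`. Slabs: each gap `[j + b0, j + b]`,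
`[j - b, j - b0]` is divided in six parts of length `(b - b0) / 6`; the slabs are the third and the fourth.
-/

set_option autoImplicit false
set_option linter.unusedSectionVars false
set_option linter.unusedVariables false

namespace Pool.W7d29a1.C0.L38

open Finset Filter Topology MeasureTheory
open Pool.Agent.W_7d29a1_F Pool.Agent.W_7d29a1_C0 Pool.W7d29a1.C0 Pool.W7d29a1.C0.VT31 Pool.W7d29a1.C0.I52
open Pool.Agent.W_7d29a1_C0.Swap57 Pool.Agent.W_7d29a1_C0.H32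
open Pool.Agent.W_7d29a1_C0.Mod92 (Px Pn ps ps_zero ps_nonneg ps_le ps_Pn ps_of_le ps_of_ge pJ crs_pJ abs_cE_le meas_cE meas_cC meas_gm lw gj abs_gj meas_lw)
open Pool.Agent.W_7d29a1_C0.FP63 (sS mem_sS disj_sS nq lA tf gf wf_gf wf_tf at2 at2_gf at2_meas Wt_lw Wt_wt Cf_row cf cb)
open Pool.Agent.W_7d29a1_C0.InT57 (pz JZ JZ_ne card_JZ fst_mem_JZ vis_nq)
open Pool.Agent.W_7d29a1_C0.DGam14 (gam gamD)
open Pool.W7d29a1.C0.H41 (Wt Obs lcG farF tail1 tail2 QV Ev Dr cut cut')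
open Pool.W7d29a1.C0.H19 (Cf)
open Pool.W7d29a1.C0.R63 (Sd Bl DF Dg far2 two_box)
open Pool.W7d29a1.C0.T73 (chT OutB bx)
open Pool.Agent.W_7d29a1_C0.Base5 (w5 N5e ge5 N1g w5_add pW)

noncomputable section

/-! ### Monotonicity -/

section Mono

variable {μ : Measure ℝ} [IsProbabilityMeasure μ] {X : Type*} [Fintype X] [DecidableEq X] [Nonempty X] {Y : Type*} [DecidableEq Y]
variable {w wi : Env → X → ℝ} {p : X → Y} {χ χ' : X → X → ℝ} {Yf : Env → X → ℝ} {L : ℝ}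

/-- A bounded measurable functional of the environment and the path, weighted with the passenger. -/
theorem mfY (mw : ∀ x, Measurable fun η => w η x) (hY : MF Yf L) {F : Env → X → ℝ} {D : ℝ} (hF : MF F D) :
    Integrable (fun η => gm (w η) (fun a => |Yf η a| * F η a)) (law μ) := (hY.abs.mul hF).int mw

theorem mf_hb (mi : ∀ x, Measurable fun η => wi η x) (h0 : ∀ b c, 0 ≤ χ b c) (h1 : ∀ b c, χ b c ≤ 1) :
    MF (fun η a => hb (wi η) p χ a) 1 :=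
  MF.cE2 (k := fun _ => χ) mi (fun _ _ => measurable_const) (fun _ b c => by rw [abs_of_nonneg (h0 b c)]; exact h1 b c) p

theorem mf_dt (mi : ∀ x, Measurable fun η => wi η x) (h0 : ∀ b c, 0 ≤ χ b c) (h1 : ∀ b c, χ b c ≤ 1) {F : Env → X → ℝ} {D : ℝ}
    (hF : MF F D) : MF (fun η a => dt (wi η) p χ (F η) a) D :=
  MF.cE2 (k := fun η b c => F η b * χ b c) mi (fun b c => (hF.ms b).mul_const _) (fun η b c => by
    rw [abs_mul, abs_of_nonneg (h0 b c)]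
    exact mul_le_of_le_one_right (abs_nonneg _) (h1 b c) |>.trans (hF.bd η b)) p

theorem hb_mono (v : X → ℝ) (h : ∀ b c, χ b c ≤ χ' b c) (a : X) : hb v p χ a ≤ hb v p χ' a := cE2_mono v p h a a

theorem dt_mono (v : X → ℝ) (h0 : ∀ b c, 0 ≤ χ b c) (h : ∀ b c, χ b c ≤ χ' b c) {F F' : X → ℝ} (hF : ∀ x, 0 ≤ F x) (hFF : ∀ x, F x ≤ F' x) (a : X) :
    dt v p χ F a ≤ dt v p χ' F' a :=
  cE2_mono v p (fun b c => mul_le_mul (hFF b) (h b c) (h0 b c) ((hF b).trans (hFF b))) a a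

theorem iM_mono (mw : ∀ x, Measurable fun η => w η x) (mi : ∀ x, Measurable fun η => wi η x) (hY : MF Yf L)
    (h0 : ∀ b c, 0 ≤ χ b c) (h : ∀ b c, χ b c ≤ χ' b c) (h1 : ∀ b c, χ' b c ≤ 1) :
    iM μ w wi p χ Yf ≤ iM μ w wi p χ' Yf :=
  integral_mono (mfY mw hY (mf_hb mi h0 fun b c => (h b c).trans (h1 b c))) (mfY mw hY (mf_hb mi (fun b c => (h0 b c).trans (h b c)) h1))
    fun η => gm_mono _ fun a => mul_le_mul_of_nonneg_left (hb_mono _ h a) (abs_nonneg _)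

theorem iD_mono (mw : ∀ x, Measurable fun η => w η x) (mi : ∀ x, Measurable fun η => wi η x) (hY : MF Yf L)
    (h0 : ∀ b c, 0 ≤ χ b c) (h : ∀ b c, χ b c ≤ χ' b c) (h1 : ∀ b c, χ' b c ≤ 1) {F F' : Env → X → ℝ} {D D' : ℝ} (hF : MF F D)
    (hF' : MF F' D') (h2 : ∀ η x, 0 ≤ F η x) (h3 : ∀ η x, F η x ≤ F' η x) :
    iD μ w wi p χ Yf F ≤ iD μ w wi p χ' Yf F' :=
  integral_mono (mfY mw hY (mf_dt mi h0 (fun b c => (h b c).trans (h1 b c)) hF))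
    (mfY mw hY (mf_dt mi (fun b c => (h0 b c).trans (h b c)) h1 hF'))
    fun η => gm_mono _ fun a => mul_le_mul_of_nonneg_left (dt_mono _ h0 h (h2 η) (h3 η) a) (abs_nonneg _)

theorem iS_mono (mw : ∀ x, Measurable fun η => w η x) (mi : ∀ x, Measurable fun η => wi η x) (hY : MF Yf L)
    (h0 : ∀ b c, 0 ≤ χ b c) (h : ∀ b c, χ b c ≤ χ' b c) (h1 : ∀ b c, χ' b c ≤ 1) {F : Env → X → ℝ} {D : ℝ} (hF : MF F D)
    (h2 : ∀ η x, 0 ≤ F η x) : iS μ w wi p χ Yf F ≤ iS μ w wi p χ' Yf F :=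
  integral_mono (mfY mw hY ((mf_hb mi h0 fun b c => (h b c).trans (h1 b c)).mul (hF.cE mi p)))
    (mfY mw hY ((mf_hb mi (fun b c => (h0 b c).trans (h b c)) h1).mul (hF.cE mi p)))
    fun η => gm_mono _ fun a => mul_le_mul_of_nonneg_left (mul_le_mul_of_nonneg_right (hb_mono _ h a) (cE_nonneg _ p (h2 η) a)) (abs_nonneg _)

theorem int_ou (mw : ∀ x, Measurable fun η => w η x) (mi : ∀ x, Measurable fun η => wi η x) (hY : MF Yf L)
    (h0 : ∀ b c, 0 ≤ χ b c) (h1 : ∀ b c, χ b c ≤ 1) {C : Env → X → ℝ} {D : ℝ} (hC : MF C D) :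
    Integrable (fun η => ou (w η) (wi η) p χ (Yf η) (C η)) (law μ) := by
  have hcE := hC.cE mw p
  have hH := hY.abs.mul (mf_hb (p := p) mi h0 h1)
  refine int_gm2 mw (D := L * 1 * (D + D)) (fun a a' => ?_) (fun η a a' => ?_)
  · exact (hH.ms a).mul (by simpa [Real.norm_eq_abs] using ((hcE.ms a).sub (hcE.ms a')).norm)
  · rw [abs_mul, abs_abs]
    exact mul_le_mul (hH.bd η a) ((abs_sub _ _).trans (add_le_add (hcE.bd η a) (hcE.bd η a'))) (abs_nonneg _) hH.nn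

theorem iO_mono (mw : ∀ x, Measurable fun η => w η x) (mi : ∀ x, Measurable fun η => wi η x) (hY : MF Yf L)
    (h0 : ∀ b c, 0 ≤ χ b c) (h : ∀ b c, χ b c ≤ χ' b c) (h1 : ∀ b c, χ' b c ≤ 1) {C : Env → X → ℝ} {D : ℝ} (hC : MF C D) :
    iO μ w wi p χ Yf C ≤ iO μ w wi p χ' Yf C :=
  integral_mono (int_ou mw mi hY h0 (fun b c => (h b c).trans (h1 b c)) hC)
    (int_ou mw mi hY (fun b c => (h0 b c).trans (h b c)) h1 hC)
    fun η => gm2_mono' _ fun a a' => mul_le_mul_of_nonneg_right (mul_le_mul_of_nonneg_left (hb_mono _ h a) (abs_nonneg _)) (abs_nonneg _)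

theorem mf_fr (mw : ∀ x, Measurable fun η => w η x) (mi : ∀ x, Measurable fun η => wi η x)
    (h0 : ∀ b c, 0 ≤ χ b c) (h1 : ∀ b c, χ b c ≤ 1) {tub : X → X → ℝ} (k0 : ∀ a x, 0 ≤ tub a x) (k1 : ∀ a x, tub a x ≤ 1) :
    MF (fun η a => hb (wi η) p χ a * (tub a a + 3 * gm (w η) (tub a)) + 8 * cE (wi η) p (tub a) a) (1 * (1 + 3 * 1) + 8 * 1) := by
  have kb : ∀ a x, |tub a x| ≤ 1 := fun a x => by rw [abs_of_nonneg (k0 a x)]; exact k1 a x
  have e1 : MF (fun (_ : Env) a => tub a a) 1 := MF.det fun a => kb _ _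
  have e2 : MF (fun η a => gm (w η) (tub a)) 1 := ⟨fun a => meas_gm mw fun _ => measurable_const, fun η a =>
    (abs_gm_le' (w η) _).trans ((gm_mono (w η) fun x => kb _ x).trans_eq (gm_const (w η) 1))⟩
  have e3 : MF (fun η a => cE (wi η) p (tub a) a) 1 := ⟨fun a => meas_cE (f := fun _ => tub a) mi (fun _ => measurable_const) p a,
    fun η a => abs_cE_le (wi η) p (kb _) a⟩
  exact ((mf_hb mi h0 h1).mul (e1.add (e2.smul (by norm_num : (0 : ℝ) ≤ 3)))).add (e3.smul (by norm_num : (0 : ℝ) ≤ 8))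

theorem iF_mono (mw : ∀ x, Measurable fun η => w η x) (mi : ∀ x, Measurable fun η => wi η x) (hY : MF Yf L)
    (h0 : ∀ b c, 0 ≤ χ b c) (h : ∀ b c, χ b c ≤ χ' b c) (h1 : ∀ b c, χ' b c ≤ 1) {tub : X → X → ℝ} (k0 : ∀ a x, 0 ≤ tub a x)
    (k1 : ∀ a x, tub a x ≤ 1) : iF μ w wi p χ Yf tub ≤ iF μ w wi p χ' Yf tub :=
  integral_mono (mfY mw hY (mf_fr mw mi h0 (fun b c => (h b c).trans (h1 b c)) k0 k1))
    (mfY mw hY (mf_fr mw mi (fun b c => (h0 b c).trans (h b c)) h1 k0 k1))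
    fun η => gm_mono _ fun a => mul_le_mul_of_nonneg_left (add_le_add (mul_le_mul_of_nonneg_right (hb_mono _ h a)
      (add_nonneg (k0 a a) (mul_nonneg (by norm_num) (gm_nonneg _ (k0 a))))) le_rfl) (abs_nonneg _)

/-- **The right side is monotone** in the cut and in the ties. -/
theorem rhs38_mono (mw : ∀ x, Measurable fun η => w η x) (mi : ∀ x, Measurable fun η => wi η x) (hY : MF Yf L)
    (h0 : ∀ b c, 0 ≤ χ b c) (h : ∀ b c, χ b c ≤ χ' b c) (h1 : ∀ b c, χ' b c ≤ 1) {g C1 C2 tie1 tie2 tie : Env → X → ℝ}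
    {Dg D1 D2 Dt : ℝ} (hg : MF g Dg) (hC1 : MF C1 D1) (hC2 : MF C2 D2) (ht1 : MF tie1 Dt) (ht2 : MF tie2 Dt) (ht : MF tie Dt)
    (t10 : ∀ η x, 0 ≤ tie1 η x) (t20 : ∀ η x, 0 ≤ tie2 η x) (t11 : ∀ η x, tie1 η x ≤ tie η x) (t21 : ∀ η x, tie2 η x ≤ tie η x)
    {tub1 tub2 : X → X → ℝ} (k10 : ∀ a x, 0 ≤ tub1 a x) (k11 : ∀ a x, tub1 a x ≤ 1) (k20 : ∀ a x, 0 ≤ tub2 a x)
    (k21 : ∀ a x, tub2 a x ≤ 1) {B a1 a2 : ℝ} (hB : 0 ≤ B) (ha1 : 0 ≤ a1) (ha2 : 0 ≤ a2) :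
    rhs38 μ w wi p χ Yf g C1 C2 tie1 tie2 tub1 tub2 B a1 a2 ≤ rhs38 μ w wi p χ' Yf g C1 C2 tie tie tub1 tub2 B a1 a2 := by
  have r1 := (hg.sub hC1).abs
  have r2 := (hg.sub hC2).abs
  have e1 := iM_mono (μ := μ) (p := p) mw mi hY h0 h h1
  have e2 := iD_mono (μ := μ) (p := p) mw mi hY h0 h h1 ht1 ht t10 t11
  have e3 := iD_mono (μ := μ) (p := p) mw mi hY h0 h h1 ht2 ht t20 t21
  have e4 := iD_mono (μ := μ) (p := p) mw mi hY h0 h h1 r1 r1 (fun η x => abs_nonneg _) fun η x => le_rfl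
  have e5 := iD_mono (μ := μ) (p := p) mw mi hY h0 h h1 r2 r2 (fun η x => abs_nonneg _) fun η x => le_rfl
  have e6 := iS_mono (μ := μ) (p := p) mw mi hY h0 h h1 r1 fun η x => abs_nonneg _
  have e7 := iS_mono (μ := μ) (p := p) mw mi hY h0 h h1 r2 fun η x => abs_nonneg _
  have e8 := iO_mono (μ := μ) (p := p) mw mi hY h0 h h1 hC1
  have e9 := iO_mono (μ := μ) (p := p) mw mi hY h0 h h1 hC2
  have f1 := iF_mono (μ := μ) (p := p) mw mi hY h0 h h1 k10 k11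
  have f2 := iF_mono (μ := μ) (p := p) mw mi hY h0 h h1 k20 k21
  unfold rhs38
  gcongr

end Mono

/-! ### Both sides -/

section Fin

variable {μ : Measure ℝ} [IsProbabilityMeasure μ] {s : ℝ} {N : ℕ} {Q : Finset (Finset ℕ)} [Nonempty (Px Q)] [SwQ Q]
variable {f f' : ℝ → ℝ}

/-- The length of a slab. -/
def kn38 (b0 b : ℕ) : ℕ := (b - b0) / 6

theorem kn38_le (b0 b : ℕ) : 6 * kn38 b0 b ≤ b - b0 := Nat.mul_div_le _ _

/-- The first slab on the right. -/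
def R1 (b0 b j : ℕ) : Finset ℕ := Ioc (j + b0 + 2 * kn38 b0 b) (j + b0 + 3 * kn38 b0 b)

/-- The second slab on the right. -/
def R2 (b0 b j : ℕ) : Finset ℕ := Ioc (j + b0 + 3 * kn38 b0 b) (j + b0 + 4 * kn38 b0 b)

/-- The first slab on the left. -/
def L1 (b0 b j : ℕ) : Finset ℕ := Ico (j - b0 - 3 * kn38 b0 b) (j - b0 - 2 * kn38 b0 b)

/-- The second slab on the left. -/
def L2 (b0 b j : ℕ) : Finset ℕ := Ico (j - b0 - 4 * kn38 b0 b) (j - b0 - 3 * kn38 b0 b)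

/-- The weights with the kick of the row at `t`. -/
def wi38 (μ : Measure ℝ) (s : ℝ) (N : ℕ) (Q : Finset (Finset ℕ)) (δ B : ℝ) (b0 j : ℕ) (a : ℤ) (t : ℝ) (η : Env) : Px Q → ℝ :=
  Mod92.wt μ s η N Q δ B b0 j a t

/-- **The right side of the inequality of the right part.** -/
def RS38 (μ : Measure ℝ) (s : ℝ) (N : ℕ) (Q : Finset (Finset ℕ)) [Nonempty (Px Q)] (δ B : ℝ) (b0 b b' j : ℕ) (a : ℤ)
    (Yf : Env → Px Q → ℝ) (sl R Λ t : ℝ) : ℝ :=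
  rhs38 μ (fun η => lw μ s η N Q) (wi38 μ s N Q δ B b0 j a t) (pJ (j - b') (j + b')) (NI (j + b0) (j + b)) Yf
    (fun η => gj μ s η δ B b0 j a) (CR38 μ s N Q δ B b0 j a t (R1 b0 b j)) (CR38 μ s N Q δ B b0 j a t (R2 b0 b j))
    (tieR38 μ s N Q δ B b0 b j a (j + b0 + 2 * kn38 b0 b)) (tieR38 μ s N Q δ B b0 b j a (j + b0 + 2 * kn38 b0 b))
    (tub38 N sl R ((j + b' : ℕ) : ℤ) (R1 b0 b j)) (tub38 N sl R ((j + b' : ℕ) : ℤ) (R2 b0 b j)) B
    (Λ * Real.sqrt (7 * R * (B / 2) ^ 2 / kn38 b0 b)) (Λ * Real.sqrt (7 * R * (B / 2) ^ 2 / kn38 b0 b))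

/-- **The right side of the inequality of the left part.** -/
def LS38 (μ : Measure ℝ) (s : ℝ) (N : ℕ) (Q : Finset (Finset ℕ)) [Nonempty (Px Q)] (δ B : ℝ) (b0 b b' j : ℕ) (a : ℤ)
    (Yf : Env → Px Q → ℝ) (sl R Λ t : ℝ) : ℝ :=
  rhs38 μ (fun η => lw μ s η N Q) (wi38 μ s N Q δ B b0 j a t) (pJ (j - b') (j + b')) (NI (j - b) (j - b0)) Yf
    (fun η => gj μ s η δ B b0 j a) (CL38 μ s N Q δ B b0 j a t (L1 b0 b j)) (CL38 μ s N Q δ B b0 j a t (L2 b0 b j))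
    (tieL38 μ s N Q δ B b0 b j a (j - b0 - 2 * kn38 b0 b)) (tieL38 μ s N Q δ B b0 b j a (j - b0 - 2 * kn38 b0 b))
    (tub38 N sl R ((j - b' : ℕ) : ℤ) (L1 b0 b j)) (tub38 N sl R ((j - b' : ℕ) : ℤ) (L2 b0 b j)) B
    (Λ * Real.sqrt (7 * R * (B / 2) ^ 2 / kn38 b0 b)) (Λ * Real.sqrt (7 * R * (B / 2) ^ 2 / kn38 b0 b))

theorem meas_wi38 {B : ℝ} (hB : 0 ≤ B) (δ : ℝ) (b0 j : ℕ) {a : ℤ} (ha : |(a : ℝ)| ≤ 1) (t : ℝ) (x : Px Q) :
    Measurable fun η => wi38 μ s N Q δ B b0 j a t η x := by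
  unfold wi38 Mod92.wt
  simp only [Pi.add_apply, Pi.smul_apply, smul_eq_mul]
  exact (meas_lw x).add (((measurable_pi_apply x).comp (meas_gj38 hB δ b0 j ha)).const_mul _)

theorem mf_avg {B : ℝ} (hB : 0 ≤ B) (δ : ℝ) (b0 j : ℕ) {a : ℤ} (ha : |(a : ℝ)| ≤ 1) (t : ℝ) (J : Finset ℕ) {Y : Type*} [DecidableEq Y]
    (q : ℕ → Px Q → Y) : MF (fun η S => (J.card : ℝ)⁻¹ * ∑ r ∈ J, cE (wi38 μ s N Q δ B b0 j a t η) (q r) (gj μ s η δ B b0 j a) S) (B / 2) where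
  ms := fun S => (Finset.measurable_fun_sum _ fun r _ => meas_cE (w := wi38 μ s N Q δ B b0 j a t) (f := fun η => gj μ s η δ B b0 j a)
    (meas_wi38 hB δ b0 j ha t) (fun x => (measurable_pi_apply x).comp (meas_gj38 hB δ b0 j ha)) (q r) S).const_mul _
  bd := fun η S => by
    rw [abs_mul, abs_of_nonneg (inv_nonneg.2 (Nat.cast_nonneg _))]
    have h1 : |∑ r ∈ J, cE (wi38 μ s N Q δ B b0 j a t η) (q r) (gj μ s η δ B b0 j a) S| ≤ J.card * (B / 2) := by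
      refine (abs_sum_le_sum_abs _ _).trans ((sum_le_sum fun r _ => abs_cE_le _ (q r) (fun x => abs_gj η hB ha b0 j x) S).trans_eq ?_)
      rw [sum_const, nsmul_eq_mul]
    have h2 := mul_le_mul_of_nonneg_left h1 (inv_nonneg.2 (Nat.cast_nonneg J.card) : (0 : ℝ) ≤ (J.card : ℝ)⁻¹)
    refine h2.trans ?_
    rcases Nat.eq_zero_or_pos J.card with h3 | h3
    · rw [h3]
      simp
      positivity
    · have h4 : (0 : ℝ) < J.card := Nat.cast_pos.2 h3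
      rw [← mul_assoc, inv_mul_cancel₀ h4.ne', one_mul]

theorem tie_nonneg {B δ : ℝ} {b0 b j : ℕ} {a : ℤ} {K : Px Q → Px Q → ℝ} (h0 : ∀ S S', 0 ≤ K S S') (η : Env) (S : Px Q) :
    0 ≤ ∫ t in (-1 : ℝ)..1, cE2 (Mod92.wt μ s η N Q δ B b0 j a t) (pJ (j - b) (j + b)) K S S :=
  intervalIntegral.integral_nonneg (by norm_num) fun t _ => cE2_nonneg _ _ h0 S S

theorem tie_mono {B δ : ℝ} {b0 b j : ℕ} {a : ℤ} {K K' : Px Q → Px Q → ℝ} (h : ∀ S S', K S S' ≤ K' S S') (η : Env) (S : Px Q) :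
    ∫ t in (-1 : ℝ)..1, cE2 (Mod92.wt μ s η N Q δ B b0 j a t) (pJ (j - b) (j + b)) K S S ≤
      ∫ t in (-1 : ℝ)..1, cE2 (Mod92.wt μ s η N Q δ B b0 j a t) (pJ (j - b) (j + b)) K' S S :=
  intervalIntegral.integral_mono_on (by norm_num)
    ((DGam14.cont_cE2 (lw μ s η N Q) (gj μ s η δ B b0 j a) a (pJ (j - b) (j + b)) K S S).intervalIntegrable _ _)
    ((DGam14.cont_cE2 (lw μ s η N Q) (gj μ s η δ B b0 j a) a (pJ (j - b) (j + b)) K' S S).intervalIntegrable _ _)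
    fun t _ => cE2_mono _ _ h S S

/-- The hypotheses on the passenger. -/
structure Psg (N b0 b b' j : ℕ) (Yf : Env → Px Q → ℝ) (L : ℝ) : Prop where
  ms : Measurable Yf
  bd : ∀ η x, |Yf η x| ≤ L
  mp : ∀ η, Mp (pJ (j - b') (j + b')) (Yf η)
  bl : ∀ r : ℕ, (j - b ≤ r ∧ r ≤ j - b0) ∨ (j + b0 < r ∧ r ≤ j + b) → ∀ (z : ℤ) (η : Env) (x : ℝ),
    Yf (Function.update η ((r : ℤ), z) x) = Yf η

theorem tub_nonneg (sl R : ℝ) (m0 : ℤ) (J : Finset ℕ) (S S' : Px Q) : 0 ≤ tub38 N sl R m0 J S S' := tb38_nonneg _ _ _ _ _ _ _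

theorem tub_le_one (sl R : ℝ) (m0 : ℤ) (J : Finset ℕ) (S S' : Px Q) : tub38 N sl R m0 J S S' ≤ 1 := tb38_le_one _ _ _ _ _ _ _

/-- **BOTH SIDES AT ONE TILT.** -/
theorem kX38 (h : DenLaw μ f f') {K θ0 : ℝ} (hs : SG μ (sc f f') K θ0) (hK : 0 ≤ K) (hQ : Blk18.Full N Q) {y : ℤ}
    (hy : ∀ S : Px Q, ps S N = y) {δ B : ℝ} (hB : 1 ≤ B) {b0 b b' j : ℕ} (hb : b0 + 6 ≤ b) (hbb : b ≤ b') (hj : b' ≤ j) (hjN : j + b' ≤ N)
    {a : ℤ} (ha : |(a : ℝ)| ≤ 1) (t : ℝ) {Yf : Env → Px Q → ℝ} {L : ℝ} (hY : Psg N b0 b b' j Yf L)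
    {sl R : ℝ} (hR : 1 ≤ R) {θ Λ : ℝ} (hθ : 0 < θ) (hθ1 : θ ≤ 1) (hθ0 : θ ≤ θ0) (hΛ : 0 ≤ Λ) :
    |∫ η, gm (lw μ s η N Q) (Yf η * kX (pJ (j - b') (j + b')) [gj μ s η δ B b0 j a, gj μ s η δ B b0 j a,
      gm38 μ s N Q δ B b0 b j a η, gj μ s η δ B b0 j a] (wi38 μ s N Q δ B b0 j a t η)) ∂(law μ)| ≤
      RS38 μ s N Q δ B b0 b b' j a Yf sl R Λ t + LS38 μ s N Q δ B b0 b b' j a Yf sl R Λ t + 2 * tl38 N L R B K θ Λ := by
  have hB0 : 0 ≤ B := by linarith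
  have hk := kn38_le b0 b
  have hk1 : 1 ≤ kn38 b0 b := by
    unfold kn38
    omega
  have mg := meas_gj38 (μ := μ) (s := s) (Q := Q) hB0 δ b0 j ha
  have hg : ∀ η x, |gj (Q := Q) μ s η δ B b0 j a x| ≤ B / 2 := fun η x => abs_gj η hB0 ha b0 j x
  have mγ := meas_gm38 (μ := μ) (s := s) (N := N) (Q := Q) hB0 δ b0 b j ha
  have hγ := abs_gm38 (μ := μ) (s := s) (N := N) (Q := Q) hB0 δ b0 b j ha
  have mw : ∀ x : Px Q, Measurable fun η => lw μ s η N Q x := fun x => meas_lw x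
  have mi := meas_wi38 (μ := μ) (s := s) (N := N) (Q := Q) hB0 δ b0 j ha t
  have W : Measurable fun η => lab (lw μ s η N Q) (wi38 μ s N Q δ B b0 j a t η) := measurable_pi_lambda _ fun z => by
    obtain ⟨x, l⟩ := z
    cases l
    · exact mw x
    · exact mi x
  have mT : Measurable fun η => inj (gj (Q := Q) μ s η δ B b0 j a) := meas_inj mg
  have hτ : ∀ η z, |inj (gj (Q := Q) μ s η δ B b0 j a) z| ≤ B / 2 := fun η => abs_inj (hg η)
  -- the split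
  have e1 : ∀ η, gm (lw μ s η N Q) (Yf η * kX (pJ (j - b') (j + b')) [gj μ s η δ B b0 j a, gj μ s η δ B b0 j a,
      gm38 μ s N Q δ B b0 b j a η, gj μ s η δ B b0 j a] (wi38 μ s N Q δ B b0 j a t η)) = _ := fun η =>
    ins_ins_cut (c := j - b) (al := j - b0) (be := j + b0) (d := j + b) (by omega) (p := pJ (Q := Q) (j - b') (j + b'))
      (crs_pJ (by omega) (by omega)) (lw μ s η N Q) (wi := wi38 μ s N Q δ B b0 j a t η)
      ((Wk_lw η (by omega)).add ((lk_gj38 δ B b0 j a η).Wk.smul _)) (Yf η) (γ := gm38 μ s N Q δ B b0 b j a η)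
      (DGam14.mp_gam _ _ _ _) (lk_gj38 δ B b0 j a η)
  have o1 : ∀ {χ : Px Q → Px Q → ℝ}, (∀ x x', 0 ≤ χ x x') → (∀ x x', χ x x' ≤ 1) →
      Integrable (fun η => (K38 (pJ (Q := Q) (j - b') (j + b'))).dbl.dbl.toEv.ev (lab (lw μ s η N Q) (wi38 μ s N Q δ B b0 j a t η))
      ((K38 (pJ (Q := Q) (j - b') (j + b'))).dbl.dr.ins (inj (gj μ s η δ B b0 j a))
        ((K38 (pJ (Q := Q) (j - b') (j + b'))).dr.ins (inj (gj μ s η δ B b0 j a))
          (psC χ (Yf η) (gm38 μ s N Q δ B b0 b j a η) (gj μ s η δ B b0 j a))))) (law μ) := fun h0 h1 =>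
    (((obs_psC h0 h1 hY.ms mγ mg hY.bd hγ hg).ins (K38 (pJ (Q := Q) (j - b') (j + b'))).dr mT hτ).ins
      (K38 (pJ (Q := Q) (j - b') (j + b'))).dbl.dr mT hτ).int (K38 (pJ (Q := Q) (j - b') (j + b'))).dbl.dbl.toEv W
  simp only [e1]
  rw [integral_add (o1 (cR_nonneg _ _) (cR_le_one _ _)) (o1 (cL_nonneg _ _ _ _) (cL_le_one _ _ _ _))]
  refine (abs_add_le _ _).trans ?_
  have mR : ∀ r ∈ R1 b0 b j, j + b0 < r ∧ j + b0 + 2 * kn38 b0 b ≤ r ∧ r ≤ j + b := fun r hr => by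
    unfold R1 at hr
    rw [mem_Ioc] at hr
    omega
  have mR2 : ∀ r ∈ R2 b0 b j, j + b0 < r ∧ j + b0 + 3 * kn38 b0 b ≤ r ∧ r ≤ j + b := fun r hr => by
    unfold R2 at hr
    rw [mem_Ioc] at hr
    omega
  have mL : ∀ r ∈ L1 b0 b j, j - b ≤ r ∧ r ≤ j - b0 - 2 * kn38 b0 b ∧ r ≤ j - b0 ∧ 1 ≤ r := fun r hr => by
    unfold L1 at hr
    rw [mem_Ico] at hr
    omega
  have mL2 : ∀ r ∈ L2 b0 b j, j - b ≤ r ∧ r ≤ j - b0 - 3 * kn38 b0 b ∧ r ≤ j - b0 ∧ 1 ≤ r := fun r hr => by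
    unfold L2 at hr
    rw [mem_Ico] at hr
    omega
  have cR1 : (R1 b0 b j).card = kn38 b0 b := by
    unfold R1
    rw [Nat.card_Ioc]
    omega
  have cR2 : (R2 b0 b j).card = kn38 b0 b := by
    unfold R2
    rw [Nat.card_Ioc]
    omega
  have cL1 : (L1 b0 b j).card = kn38 b0 b := by
    unfold L1
    rw [Nat.card_Ico]
    omega
  have cL2 : (L2 b0 b j).card = kn38 b0 b := by
    unfold L2
    rw [Nat.card_Ico]
    omega
  have ne : ∀ {J : Finset ℕ}, J.card = kn38 b0 b → J.Nonempty := fun hc => card_pos.1 (by omega)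
  have ga : ∀ {J : Finset ℕ}, J.card = kn38 b0 b → al38 Λ R B J = Λ * Real.sqrt (7 * R * (B / 2) ^ 2 / kn38 b0 b) := fun hc => by
    unfold al38 qv38
    rw [hc]
  have blk : ∀ {J : Finset ℕ}, (∀ r ∈ J, (j - b ≤ r ∧ r ≤ j - b0) ∨ (j + b0 < r ∧ r ≤ j + b)) →
      ∀ q ∈ sS J N, ∀ (η : Env) (x : ℝ), Yf (Function.update η q x) = Yf η := fun hJ q hq η x => by
    obtain ⟨r, hr, z, hz, rfl⟩ := mem_sS.1 hq
    exact hY.bl r (hJ r hr) z η x
  have kR := modR38 (μ := μ) (s := s) (N := N) (Q := Q) (δ := δ) (sl := sl) (L := L) h hs hK hQ hB (b0 := b0) (b := b) (b' := b') (j := j) (by omega) hbb hjN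
    ha t (ne cR1) (ne cR2) (m1 := j + b0 + 2 * kn38 b0 b) (m2 := j + b0 + 3 * kn38 b0 b) (fun r hr r' hr' => by
      unfold R1 at hr
      unfold R2 at hr'
      rw [mem_Ioc] at hr hr'
      omega) mR mR2 hY.ms hY.bd hY.mp (blk fun r hr => by
        right
        rcases mem_union.1 hr with h1 | h1
        · exact ⟨(mR r h1).1, (mR r h1).2.2⟩
        · exact ⟨(mR2 r h1).1, (mR2 r h1).2.2⟩) hR hθ hθ1 hθ0 hΛ
  have kL := modL38 (μ := μ) (s := s) (N := N) (Q := Q) (δ := δ) (sl := sl) (L := L) h hs hK hQ hy hB (b0 := b0) (b := b) (b' := b') (j := j) (by omega) hbb hj hjN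
    ha t (ne cL1) (ne cL2) (m1 := j - b0 - 2 * kn38 b0 b) (m2 := j - b0 - 3 * kn38 b0 b) (fun r hr r' hr' => by
      unfold L1 at hr
      unfold L2 at hr'
      rw [mem_Ico] at hr hr'
      omega) mL mL2 hY.ms hY.bd hY.mp (blk fun r hr => by
        left
        rcases mem_union.1 hr with h1 | h1
        · exact ⟨(mL r h1).1, (mL r h1).2.2.1⟩
        · exact ⟨(mL2 r h1).1, (mL2 r h1).2.2.1⟩) hR hθ hθ1 hθ0 hΛ
  rw [ga cR1, ga cR2] at kR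
  rw [ga cL1, ga cL2] at kL
  have hYm : MF Yf L := MF.of hY.ms hY.bd
  have hgm : MF (fun η => gj (Q := Q) μ s η δ B b0 j a) (B / 2) := MF.of mg hg
  have hsq : 0 ≤ Λ * Real.sqrt (7 * R * (B / 2) ^ 2 / kn38 b0 b) := mul_nonneg hΛ (Real.sqrt_nonneg _)
  have uR := rhs38_mono (μ := μ) (w := fun η => lw μ s η N Q) (wi := wi38 μ s N Q δ B b0 j a t) (p := pJ (Q := Q) (j - b') (j + b'))
    (χ := NI (j + b0) (j + b)) (χ' := NI (j + b0) (j + b)) (tub1 := tub38 N sl R ((j + b' : ℕ) : ℤ) (R1 b0 b j))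
    (tub2 := tub38 N sl R ((j + b' : ℕ) : ℤ) (R2 b0 b j)) mw mi hYm (fun _ _ => NI_nonneg _ _ _ _) (fun _ _ => le_rfl)
    (fun _ _ => NI_le_one _ _ _ _) hgm (mf_avg (μ := μ) (s := s) (N := N) hB0 δ b0 j ha t (R1 b0 b j) fun r => pJ (Q := Q) 0 r)
    (mf_avg (μ := μ) (s := s) (N := N) hB0 δ b0 j ha t (R2 b0 b j) fun r => pJ (Q := Q) 0 r)
    (mf_tie (μ := μ) (s := s) (N := N) hB0 δ b0 b j ha (K := NI (j + b0) (j + b0 + 2 * kn38 b0 b)) (fun _ _ => NI_nonneg _ _ _ _) fun _ _ => NI_le_one _ _ _ _)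
    (mf_tie (μ := μ) (s := s) (N := N) hB0 δ b0 b j ha (K := NI (j + b0) (j + b0 + 3 * kn38 b0 b)) (fun _ _ => NI_nonneg _ _ _ _) fun _ _ => NI_le_one _ _ _ _)
    (mf_tie (μ := μ) (s := s) (N := N) hB0 δ b0 b j ha (K := NI (j + b0) (j + b0 + 2 * kn38 b0 b)) (fun _ _ => NI_nonneg _ _ _ _) fun _ _ => NI_le_one _ _ _ _)
    (tie_nonneg fun _ _ => NI_nonneg _ _ _ _) (tie_nonneg fun _ _ => NI_nonneg _ _ _ _) (fun _ _ => le_rfl)
    (tie_mono fun S S' => NI_mono le_rfl (by omega) S S') (tub_nonneg sl R ((j + b' : ℕ) : ℤ) (R1 b0 b j)) (tub_le_one sl R _ _)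
    (tub_nonneg sl R ((j + b' : ℕ) : ℤ) (R2 b0 b j)) (tub_le_one sl R _ _) hB0 hsq hsq
  have uL := rhs38_mono (μ := μ) (w := fun η => lw μ s η N Q) (wi := wi38 μ s N Q δ B b0 j a t) (p := pJ (Q := Q) (j - b') (j + b'))
    (χ := cL Q (j - b) (j - b0) (j + b0) (j + b)) (χ' := NI (j - b) (j - b0)) (tub1 := tub38 N sl R ((j - b' : ℕ) : ℤ) (L1 b0 b j))
    (tub2 := tub38 N sl R ((j - b' : ℕ) : ℤ) (L2 b0 b j)) mw mi hYm (cL_nonneg _ _ _ _)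
    (fun S S' => cL_le _ _ _ _ S S')
    (fun _ _ => NI_le_one _ _ _ _) hgm (mf_avg (μ := μ) (s := s) (N := N) hB0 δ b0 j ha t (L1 b0 b j) fun r => pJ (Q := Q) r N)
    (mf_avg (μ := μ) (s := s) (N := N) hB0 δ b0 j ha t (L2 b0 b j) fun r => pJ (Q := Q) r N)
    (mf_tie (μ := μ) (s := s) (N := N) hB0 δ b0 b j ha (K := NI (j - b0 - 2 * kn38 b0 b) (j - b0)) (fun _ _ => NI_nonneg _ _ _ _) fun _ _ => NI_le_one _ _ _ _)
    (mf_tie (μ := μ) (s := s) (N := N) hB0 δ b0 b j ha (K := NI (j - b0 - 3 * kn38 b0 b) (j - b0)) (fun _ _ => NI_nonneg _ _ _ _) fun _ _ => NI_le_one _ _ _ _)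
    (mf_tie (μ := μ) (s := s) (N := N) hB0 δ b0 b j ha (K := NI (j - b0 - 2 * kn38 b0 b) (j - b0)) (fun _ _ => NI_nonneg _ _ _ _) fun _ _ => NI_le_one _ _ _ _)
    (tie_nonneg fun _ _ => NI_nonneg _ _ _ _) (tie_nonneg fun _ _ => NI_nonneg _ _ _ _) (fun _ _ => le_rfl)
    (tie_mono fun S S' => NI_mono (by omega) le_rfl S S') (tub_nonneg sl R ((j - b' : ℕ) : ℤ) (L1 b0 b j)) (tub_le_one sl R _ _)
    (tub_nonneg sl R ((j - b' : ℕ) : ℤ) (L2 b0 b j)) (tub_le_one sl R _ _) hB0 hsq hsq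
  have vR := kR.trans (add_le_add uR le_rfl)
  have vL := kL.trans (add_le_add uL le_rfl)
  refine (add_le_add vR vL).trans (le_of_eq ?_)
  unfold RS38 LS38
  have e3 : CR38 μ s N Q δ B b0 j a t (R1 b0 b j) = fun η S => ((R1 b0 b j).card : ℝ)⁻¹ * ∑ r ∈ R1 b0 b j,
    cE (wi38 μ s N Q δ B b0 j a t η) (pJ 0 r) (gj μ s η δ B b0 j a) S := rfl
  have e4 : CR38 μ s N Q δ B b0 j a t (R2 b0 b j) = fun η S => ((R2 b0 b j).card : ℝ)⁻¹ * ∑ r ∈ R2 b0 b j,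
    cE (wi38 μ s N Q δ B b0 j a t η) (pJ 0 r) (gj μ s η δ B b0 j a) S := rfl
  have e5 : CL38 μ s N Q δ B b0 j a t (L1 b0 b j) = fun η S => ((L1 b0 b j).card : ℝ)⁻¹ * ∑ r ∈ L1 b0 b j,
    cE (wi38 μ s N Q δ B b0 j a t η) (pJ r N) (gj μ s η δ B b0 j a) S := rfl
  have e6 : CL38 μ s N Q δ B b0 j a t (L2 b0 b j) = fun η S => ((L2 b0 b j).card : ℝ)⁻¹ * ∑ r ∈ L2 b0 b j,
    cE (wi38 μ s N Q δ B b0 j a t η) (pJ r N) (gj μ s η δ B b0 j a) S := rfl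
  have e7 : ∀ m, tieR38 μ s N Q δ B b0 b j a m = fun η S => ∫ t in (-1 : ℝ)..1, cE2 (Mod92.wt μ s η N Q δ B b0 j a t)
    (pJ (j - b) (j + b)) (NI (j + b0) m) S S := fun m => rfl
  have e8 : ∀ m, tieL38 μ s N Q δ B b0 b j a m = fun η S => ∫ t in (-1 : ℝ)..1, cE2 (Mod92.wt μ s η N Q δ B b0 j a t)
    (pJ (j - b) (j + b)) (NI m (j - b0)) S S := fun m => rfl
  rw [e3, e4, e5, e6, e7, e8]
  ring

/-! ### The mean over the tilts -/

/-- The third order cumulant at the tilt `t`, against the passenger. -/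
def F38 (μ : Measure ℝ) (s : ℝ) (N : ℕ) (Q : Finset (Finset ℕ)) [Nonempty (Px Q)] (δ B : ℝ) (b0 b b' j : ℕ) (a : ℤ)
    (Yf : Env → Px Q → ℝ) (t : ℝ) (η : Env) : ℝ :=
  gm (lw μ s η N Q) (Yf η * kX (pJ (j - b') (j + b')) [gj μ s η δ B b0 j a, gj μ s η δ B b0 j a,
      gm38 μ s N Q δ B b0 b j a η, gj μ s η δ B b0 j a] (wi38 μ s N Q δ B b0 j a t η))

theorem meas_F38 {δ B : ℝ} (hB : 0 ≤ B) {b0 b b' j : ℕ} (hb : b0 ≤ b) (hbb : b ≤ b') {a : ℤ} (ha : |(a : ℝ)| ≤ 1)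
    {Yf : Env → Px Q → ℝ} {L : ℝ} (mY : Measurable Yf) (hY : ∀ η x, |Yf η x| ≤ L) :
    (∀ t, Measurable (F38 μ s N Q δ B b0 b b' j a Yf t)) ∧ ∃ D : ℝ, ∀ t η, |F38 μ s N Q δ B b0 b b' j a Yf t η| ≤ D := by
  have mg := meas_gj38 (μ := μ) (s := s) (Q := Q) hB δ b0 j ha
  have hg : ∀ η x, |gj (Q := Q) μ s η δ B b0 j a x| ≤ B / 2 := fun η x => abs_gj η hB ha b0 j x
  have mγ := meas_gm38 (μ := μ) (s := s) (N := N) (Q := Q) hB δ b0 b j ha
  have hγ := abs_gm38 (μ := μ) (s := s) (N := N) (Q := Q) hB δ b0 b j ha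
  have W : ∀ t, Measurable fun η => lab (lw μ s η N Q) (wi38 μ s N Q δ B b0 j a t η) := fun t => measurable_pi_lambda _ fun z => by
    obtain ⟨x, l⟩ := z
    cases l
    · exact meas_lw x
    · exact meas_wi38 hB δ b0 j ha t x
  have mT : Measurable fun η => inj (gj (Q := Q) μ s η δ B b0 j a) := meas_inj mg
  have hτ : ∀ η z, |inj (gj (Q := Q) μ s η δ B b0 j a) z| ≤ B / 2 := fun η => abs_inj (hg η)
  have e1 : ∀ t η, F38 μ s N Q δ B b0 b b' j a Yf t η = _ := fun t η =>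
    ins_ins_cut (c := j - b) (al := j - b0) (be := j + b0) (d := j + b) (by omega) (p := pJ (Q := Q) (j - b') (j + b'))
      (crs_pJ (by omega) (by omega)) (lw μ s η N Q) (wi := wi38 μ s N Q δ B b0 j a t η)
      ((Wk_lw η (by omega)).add ((lk_gj38 δ B b0 j a η).Wk.smul _)) (Yf η) (γ := gm38 μ s N Q δ B b0 b j a η)
      (DGam14.mp_gam _ _ _ _) (lk_gj38 δ B b0 j a η)
  have o1 := ((obs_psC (χ := cR Q (j + b0) (j + b)) (cR_nonneg _ _) (cR_le_one _ _) mY mγ mg hY hγ hg).ins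
      (K38 (pJ (Q := Q) (j - b') (j + b'))).dr mT hτ).ins (K38 (pJ (Q := Q) (j - b') (j + b'))).dbl.dr mT hτ
  have o2 := ((obs_psC (χ := cL Q (j - b) (j - b0) (j + b0) (j + b)) (cL_nonneg _ _ _ _) (cL_le_one _ _ _ _) mY mγ mg hY hγ hg).ins
      (K38 (pJ (Q := Q) (j - b') (j + b'))).dr mT hτ).ins (K38 (pJ (Q := Q) (j - b') (j + b'))).dbl.dr mT hτ
  constructor
  · intro t
    rw [funext (e1 t)]
    exact (H41.meas_ev (K38 (pJ (Q := Q) (j - b') (j + b'))).dbl.dbl.toEv (W t) o1.meas).add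
      (H41.meas_ev (K38 (pJ (Q := Q) (j - b') (j + b'))).dbl.dbl.toEv (W t) o2.meas)
  · refine ⟨L * (2 * (B / 2) * (B / 2)) * ((K38 (pJ (Q := Q) (j - b') (j + b'))).dr.sz * (B / 2)) *
      ((K38 (pJ (Q := Q) (j - b') (j + b'))).dbl.dr.sz * (B / 2)) + L * (2 * (B / 2) * (B / 2)) *
      ((K38 (pJ (Q := Q) (j - b') (j + b'))).dr.sz * (B / 2)) * ((K38 (pJ (Q := Q) (j - b') (j + b'))).dbl.dr.sz * (B / 2)), fun t η => ?_⟩
    rw [e1 t η]
    exact (abs_add_le _ _).trans (add_le_add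
      (H41.abs_ev_le_of (K38 (pJ (Q := Q) (j - b') (j + b'))).dbl.dbl.toEv _ (o1.bd η))
      (H41.abs_ev_le_of (K38 (pJ (Q := Q) (j - b') (j + b'))).dbl.dbl.toEv _ (o2.bd η)))

theorem cont_wi38 (δ B : ℝ) (b0 j : ℕ) (a : ℤ) (η : Env) : Continuous fun t : ℝ => wi38 μ s N Q δ B b0 j a t η := by
  unfold wi38 Mod92.wt
  exact continuous_const.add ((continuous_id.sub continuous_const).smul continuous_const)

theorem cont_kX38 {Y : Type*} [DecidableEq Y] (δ B : ℝ) (b0 j : ℕ) (a : ℤ) (η : Env) (p : Px Q → Y) (gs : List (Px Q → ℝ)) (x : Px Q) :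
    Continuous fun t : ℝ => kX p gs (wi38 μ s N Q δ B b0 j a t η) x := by
  have h1 : Continuous fun t : ℝ => kX p gs (wi38 μ s N Q δ B b0 j a t η) :=
    (continuous_kX p gs).comp (cont_wi38 (μ := μ) (s := s) (N := N) (Q := Q) δ B b0 j a η)
  exact (continuous_apply x).comp h1

theorem cont_F38 (δ B : ℝ) (b0 b b' j : ℕ) (a : ℤ) (Yf : Env → Px Q → ℝ) (η : Env) :
    Continuous fun t => F38 μ s N Q δ B b0 b b' j a Yf t η := by
  unfold F38 gm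
  refine Continuous.div_const (continuous_finsetSum _ fun x _ => continuous_const.mul ?_) _
  simp only [Pi.mul_apply]
  exact continuous_const.mul (cont_kX38 δ B b0 j a η _ _ x)

/-- The mean of `N5e` against the passenger. -/
theorem gm_N5e (δ B : ℝ) (b0 b b' j : ℕ) (A : Finset ℕ) (Yf : Env → Px Q → ℝ) (η : Env) :
    gm (lw μ s η N Q) (fun S => N5e μ s N Q δ B b0 b b' (η, A) j S * Yf η S) =
      -(1 / 12) * ∫ t in (-1 : ℝ)..1, t * (1 - t ^ 2) * F38 μ s N Q δ B b0 b b' j (Mod92.sg A j) Yf t η := by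
  have e0 : ∀ S : Px Q, N5e μ s N Q δ B b0 b b' (η, A) j S = -(1 / 12 * ∫ t in (-1 : ℝ)..1, t * (1 - t ^ 2) *
      kX (pJ (j - b') (j + b')) [gj μ s η δ B b0 j (Mod92.sg A j), gj μ s η δ B b0 j (Mod92.sg A j),
      gm38 μ s N Q δ B b0 b j (Mod92.sg A j) η, gj μ s η δ B b0 j (Mod92.sg A j)]
        (wi38 μ s N Q δ B b0 j (Mod92.sg A j) t η) S) := fun S => by
    unfold N5e N1g
    congr 2
    refine intervalIntegral.integral_congr fun t _ => ?_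
    have e1 : w5 μ s N Q δ B b0 (η, A) j + t • Mod92.gg μ s Q δ B b0 (η, A) j = wi38 μ s N Q δ B b0 j (Mod92.sg A j) t η :=
      w5_add δ B b0 (η, A) j t
    have e2 : ge5 μ s N Q δ B b0 b (η, A) j = gm38 μ s N Q δ B b0 b j (Mod92.sg A j) η := by
      unfold gm38
      rw [gam_eq]
      rfl
    rw [e1, e2]
    rfl
  have hc : ∀ x : Px Q, Continuous fun t : ℝ => t * (1 - t ^ 2) * kX (pJ (j - b') (j + b')) [gj μ s η δ B b0 j (Mod92.sg A j), gj μ s η δ B b0 j (Mod92.sg A j),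
      gm38 μ s N Q δ B b0 b j (Mod92.sg A j) η, gj μ s η δ B b0 j (Mod92.sg A j)]
        (wi38 μ s N Q δ B b0 j (Mod92.sg A j) t η) x := fun x =>
    (continuous_id.mul (continuous_const.sub (continuous_id.pow 2))).mul (cont_kX38 δ B b0 j _ η _ _ x)
  simp only [e0]
  unfold F38 gm
  have e3 : ∀ t : ℝ, t * (1 - t ^ 2) * ((∑ x : Px Q, Real.exp (lw μ s η N Q x) * (Yf η * kX (pJ (j - b') (j + b'))
      [gj μ s η δ B b0 j (Mod92.sg A j), gj μ s η δ B b0 j (Mod92.sg A j), gm38 μ s N Q δ B b0 b j (Mod92.sg A j) η,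
      gj μ s η δ B b0 j (Mod92.sg A j)] (wi38 μ s N Q δ B b0 j (Mod92.sg A j) t η)) x) / gz (lw μ s η N Q)) =
      (∑ x : Px Q, (Real.exp (lw μ s η N Q x) * Yf η x / gz (lw μ s η N Q)) * (t * (1 - t ^ 2) * kX (pJ (j - b') (j + b'))
      [gj μ s η δ B b0 j (Mod92.sg A j), gj μ s η δ B b0 j (Mod92.sg A j), gm38 μ s N Q δ B b0 b j (Mod92.sg A j) η,
      gj μ s η δ B b0 j (Mod92.sg A j)] (wi38 μ s N Q δ B b0 j (Mod92.sg A j) t η) x)) := fun t => by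
    rw [mul_div_assoc', mul_sum, sum_div]
    refine sum_congr rfl fun x _ => ?_
    rw [Pi.mul_apply]
    ring
  simp only [e3]
  rw [intervalIntegral.integral_finsetSum fun x _ => ((hc x).const_mul _).intervalIntegrable _ _, mul_sum, sum_div]
  refine sum_congr rfl fun x _ => ?_
  rw [intervalIntegral.integral_const_mul]
  ring

/-- **THE THIRD ORDER PART OF ONE ROW AGAINST A PASSENGER.** -/
theorem N5e_row38 (h : DenLaw μ f f') {K θ0 : ℝ} (hs : SG μ (sc f f') K θ0) (hK : 0 ≤ K) (hQ : Blk18.Full N Q) {y : ℤ}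
    (hy : ∀ S : Px Q, ps S N = y) {δ B : ℝ} (hB : 1 ≤ B) {b0 b b' j : ℕ} (hb : b0 + 6 ≤ b) (hbb : b ≤ b') (hj : b' ≤ j) (hjN : j + b' ≤ N)
    (A : Finset ℕ) {Yf : Env → Px Q → ℝ} {L : ℝ} (hY : Psg N b0 b b' j Yf L)
    {sl R : ℝ} (hR : 1 ≤ R) {θ Λ : ℝ} (hθ : 0 < θ) (hθ1 : θ ≤ 1) (hθ0 : θ ≤ θ0) (hΛ : 0 ≤ Λ) {C : ℝ}
    (hC : ∀ t ∈ Set.Icc (-1 : ℝ) 1, RS38 μ s N Q δ B b0 b b' j (Mod92.sg A j) Yf sl R Λ t +
      LS38 μ s N Q δ B b0 b b' j (Mod92.sg A j) Yf sl R Λ t + 2 * tl38 N L R B K θ Λ ≤ C) :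
    |∫ η, gm (lw μ s η N Q) (fun S => N5e μ s N Q δ B b0 b b' (η, A) j S * Yf η S) ∂(law μ)| ≤ C / 6 := by
  have hB0 : 0 ≤ B := by linarith
  have ha : |((Mod92.sg A j : ℤ) : ℝ)| ≤ 1 := (Mod92.abs_sg A j).le
  obtain ⟨mF, D, hD⟩ := meas_F38 (μ := μ) (s := s) (N := N) (Q := Q) (δ := δ) hB0 (b0 := b0) (b := b) (b' := b') (j := j) (by omega) hbb ha
    hY.ms hY.bd
  simp only [gm_N5e]
  rw [integral_const_mul, abs_mul]
  have hm : Measurable (Function.uncurry fun (t : ℝ) (η : Env) => t * (1 - t ^ 2) * F38 μ s N Q δ B b0 b b' j (Mod92.sg A j) Yf t η) :=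
    measurable_uncurry_of_continuous_of_measurable
      (fun η => (continuous_id.mul (continuous_const.sub (continuous_id.pow 2))).mul (cont_F38 δ B b0 b b' j _ Yf η))
      fun t => (mF t).const_mul _
  have hint : Integrable (Function.uncurry fun (t : ℝ) (η : Env) => t * (1 - t ^ 2) * F38 μ s N Q δ B b0 b b' j (Mod92.sg A j) Yf t η)
      ((volume.restrict (Set.uIoc (-1 : ℝ) 1)).prod (law μ)) := by
    have h1 : Integrable (fun t : ℝ => |t * (1 - t ^ 2)|) (volume.restrict (Set.uIoc (-1 : ℝ) 1)) := by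
      have h2 : Continuous fun t : ℝ => |t * (1 - t ^ 2)| := (continuous_id.mul (continuous_const.sub (continuous_id.pow 2))).abs
      have h3 := h2.intervalIntegrable (μ := volume) (-1) 1
      exact (intervalIntegrable_iff.1 h3)
    have h4 : Integrable (fun z : ℝ × Env => |z.1 * (1 - z.1 ^ 2)| * D) ((volume.restrict (Set.uIoc (-1 : ℝ) 1)).prod (law μ)) :=
      h1.mul_prod (integrable_const D)
    refine h4.mono' hm.aestronglyMeasurable (ae_of_all _ fun z => ?_)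
    rw [Real.norm_eq_abs]
    show |z.1 * (1 - z.1 ^ 2) * F38 μ s N Q δ B b0 b b' j (Mod92.sg A j) Yf z.1 z.2| ≤ _
    rw [abs_mul]
    exact mul_le_mul_of_nonneg_left (hD z.1 z.2) (abs_nonneg _)
  rw [← intervalIntegral_integral_swap hint]
  have key := intervalIntegral.norm_integral_le_of_norm_le_const (a := (-1 : ℝ)) (b := 1) (C := C)
    (f := fun t => ∫ η, t * (1 - t ^ 2) * F38 μ s N Q δ B b0 b b' j (Mod92.sg A j) Yf t η ∂(law μ)) fun t ht => by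
      have ht' : -1 < t ∧ t ≤ 1 := by
        rw [Set.uIoc_of_le (by norm_num)] at ht
        exact ht
      rw [Real.norm_eq_abs, integral_const_mul, abs_mul]
      have k1 : |t * (1 - t ^ 2)| ≤ 1 := by
        rw [abs_mul]
        have a1 : |t| ≤ 1 := abs_le.2 ⟨ht'.1.le, ht'.2⟩
        have a2 : |1 - t ^ 2| ≤ 1 := by
          rw [abs_le]
          constructor <;> nlinarith [sq_nonneg t, ht'.1, ht'.2]
        exact mul_le_one₀ a1 (abs_nonneg _) a2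
      have k2 := (kX38 (μ := μ) (s := s) (N := N) (Q := Q) h hs hK hQ hy (δ := δ) hB hb hbb hj hjN ha t hY (sl := sl) hR hθ hθ1 hθ0 hΛ).trans
        (hC t ⟨ht'.1.le, ht'.2⟩)
      exact (mul_le_of_le_one_left (abs_nonneg _) k1).trans k2
  rw [Real.norm_eq_abs] at key
  have e : |(1 : ℝ) - -1| = 2 := by norm_num
  rw [e] at key
  have e2 : |(-(1 / 12) : ℝ)| = 1 / 12 := by
    rw [abs_neg]
    norm_num
  rw [e2]
  linarith

end Fin

end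

end Pool.W7d29a1.C0.L38
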