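import Pool.Agent.W_7d29a1_C0.LgO38
import Pool.Agent.W_7d29a1_C0.Mod38C

/-!
CURV0 (MP_7d29a1_pr), leaf E5.8, helper38: THE PRICE OF OWN TIMES LONG AT THE CONCRETE FRAME, one row: `loF38R`, `loF38L`. No parameter `β, γ`.
-/

set_option autoImplicit false
set_option linter.unusedSectionVars false
set_option linter.unusedVariables false

namespace Pool.Agent.W_7d29a1_C0.Lo38

open Finset MeasureTheory Filter Topology Pool.Agent.W_7d29a1_F Pool.Agent.W_7d29a1_X Pool.Agent.W_7d29a1_H Pool.Agent.W_7d29a1_C0.Mod92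
open Pool.Agent.W_7d29a1_HS (In)
open Pool.Agent.W_7d29a1_HZ (wd' EE')
open Pool.Agent.W_7d29a1_C0 Pool.Agent.W_7d29a1_C0.Asm96 Pool.Agent.W_7d29a1_C0.Frm33
open Pool.Agent.W_7d29a1_C0.Strip80 (OffD)
open Pool.Agent.W_7d29a1_C0.Swap57 Pool.Agent.W_7d29a1_C0.Base5
open Pool.W7d29a1.C0 Pool.W7d29a1.C0.VT31 Pool.W7d29a1.C0.R43 Pool.W7d29a1.C0.S1
open Pool.W7d29a1.C0.L38 (kn38 kn38_le)

noncomputable section

variable {μ : Measure ℝ} {s : ℝ} [IsProbabilityMeasure μ] {c₀ C₀ : ℝ} {n₀ : ℕ} {K : ℕ}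

/-- The numbers of a two places price at the frame. -/
theorem num38 (h : In μ s c₀ C₀ n₀) (hK : 32 ≤ K) {δ ε : ℝ} (hδ : 0 < δ) (hε : 0 < ε) {δ₁ κ₁ c₁ : ℝ} (hδ₁ : 0 < δ₁) (hκ₁ : 0 < κ₁)
    (hc₁ : 0 < c₁) (L₀ : ℕ) : ∃ κ : ℝ, 0 < κ ∧ ∀ κ' : ℝ, 0 < κ' → κ' ≤ κ → ∃ c₂ : ℝ, 0 < c₂ ∧ ∀ᶠ m : ℕ in atTop,
      L₀ ≤ L33 K m ∧ (∀ y ∈ ys33 μ s K m, y ≤ L33 K m ∧ |(y : ℝ) - sl μ s * L33 K m| ≤ (L33 K m : ℝ) ^ δ₁ * wd' μ s (L33 K m)) ∧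
      (∀ M : ℝ, ((2 ^ m : ℕ) : ℝ) ^ κ' ≤ M → M ≤ ((2 ^ m : ℕ) : ℝ) ^ κ → 8 ≤ M ∧ 5 * M ≤ (L33 K m : ℝ) ^ κ₁ ∧
        Real.exp (-(L33 K m : ℝ) ^ c₁) + 4 * Real.exp (-M) ≤ Real.exp (-(((2 ^ m : ℕ) : ℝ) ^ c₂))) ∧
      ∀ p l l' : ℕ, δ * m ≤ p → 2 ^ p ≤ 8 * l → 2 ^ p ≤ 8 * l' → (L33 K m : ℝ) ^ (δ / 2 / K) ≤ l ∧ (L33 K m : ℝ) ^ (δ / 2 / K) ≤ l' ∧
        ((L33 K m : ℝ) ^ (ε / 4 / K) * (EE' μ s l)⁻¹) * ((L33 K m : ℝ) ^ (ε / 4 / K) * (EE' μ s l')⁻¹) ≤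
          ((2 ^ m : ℕ) : ℝ) ^ ε / EE μ s (2 ^ p) ^ 2 := by
  have hK0 : (0 : ℝ) < K := by
    have : (32 : ℝ) ≤ K := by exact_mod_cast hK
    linarith
  have hK1 : (1 : ℝ) ≤ K := by
    have : (32 : ℝ) ≤ K := by exact_mod_cast hK
    linarith
  refine ⟨κ₁ / 2, by positivity, fun κ' hκ' hκκ => ⟨min c₁ κ' / 2, by positivity, ?_⟩⟩
  have hmin : 0 < min c₁ κ' := lt_min hc₁ hκ'
  filter_upwards [cone33 h hK hδ₁, ev_L (by omega : 1 ≤ K) L₀, ev_n (show 0 < δ / 2 by positivity) 8, ev_n (show 0 < ε / 2 by positivity) 64,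
    ev_n hκ' 8, ev_n (show 0 < min c₁ κ' / 2 by positivity) 3, ev_n (show 0 < κ₁ / 2 by positivity) 5] with m h1 h2 h3 h4 h5 h6 h7
  obtain ⟨n, hn⟩ : ∃ n : ℝ, n = ((2 ^ m : ℕ) : ℝ) := ⟨_, rfl⟩
  have hn1 : 1 ≤ n := hn ▸ n_ge1 m
  have hn0 : 0 < n := by linarith
  rw [← hn] at h3 h4 h5 h6 h7 ⊢
  have eL1 : ((L33 K m : ℕ) : ℝ) ^ (δ / 2 / K) = n ^ (δ / 2) := by
    rw [L33_pow, ← hn]
    congr 1
    field_simp
  have eL2 : ((L33 K m : ℕ) : ℝ) ^ (ε / 4 / K) = n ^ (ε / 4) := by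
    rw [L33_pow, ← hn]
    congr 1
    field_simp
  have eL3 : n ^ κ₁ ≤ ((L33 K m : ℕ) : ℝ) ^ κ₁ := by
    rw [L33_pow, ← hn]
    exact Real.rpow_le_rpow_of_exponent_le hn1 (le_mul_of_one_le_left hκ₁.le hK1)
  have eL4 : n ^ (min c₁ κ') ≤ ((L33 K m : ℕ) : ℝ) ^ c₁ := by
    rw [L33_pow, ← hn]
    exact Real.rpow_le_rpow_of_exponent_le hn1 ((min_le_left _ _).trans (le_mul_of_one_le_left hc₁.le hK1))
  refine ⟨h2, fun y hy => ?_, fun M hM hM' => ⟨h5.trans hM, ?_, ?_⟩, fun p l l' hp hl hl' => ?_⟩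
  · have hy2 := mem_Ico.1 (show y ∈ Ico (y33 μ s K m) (y33 μ s K m + M33 m) from hy)
    exact h1.2.2 y (by omega) (by omega)
  · refine le_trans ?_ eL3
    have e1 : n ^ κ₁ = n ^ (κ₁ / 2) * n ^ (κ₁ / 2) := by
      rw [← Real.rpow_add hn0, add_halves]
    rw [e1]
    have e2 : 0 ≤ n ^ (κ₁ / 2) := Real.rpow_nonneg hn0.le _
    calc 5 * M ≤ 5 * n ^ (κ₁ / 2) := by linarith
      _ ≤ n ^ (κ₁ / 2) * n ^ (κ₁ / 2) := mul_le_mul_of_nonneg_right h7 e2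
  · obtain ⟨a, ha⟩ : ∃ a, a = min c₁ κ' := ⟨_, rfl⟩
    rw [← ha] at eL4 h6 hmin ⊢
    have f0 : n ^ (a / 2) * n ^ (a / 2) = n ^ a := by
      rw [← Real.rpow_add hn0, add_halves]
    have f1 : Real.exp (-((L33 K m : ℕ) : ℝ) ^ c₁) ≤ Real.exp (-(n ^ a)) := Real.exp_le_exp.2 (by linarith)
    have f2 : Real.exp (-M) ≤ Real.exp (-(n ^ a)) := Real.exp_le_exp.2 (by
      have := Real.rpow_le_rpow_of_exponent_le hn1 (ha ▸ min_le_right c₁ κ' : a ≤ κ')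
      linarith)
    have f4 : 6 * Real.exp (-(n ^ a)) ≤ Real.exp (-(n ^ (a / 2))) := by
      have g1 : 6 ≤ Real.exp (n ^ (a / 2) * 2) := by
        have := Real.add_one_le_exp (n ^ (a / 2) * 2)
        linarith
      have g2 : n ^ (a / 2) * 2 ≤ n ^ a - n ^ (a / 2) := by
        have := mul_le_mul_of_nonneg_right h6 (Real.rpow_nonneg hn0.le (a / 2))
        linarith
      calc 6 * Real.exp (-(n ^ a)) ≤ Real.exp (n ^ (a / 2) * 2) * Real.exp (-(n ^ a)) :=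
            mul_le_mul_of_nonneg_right g1 (Real.exp_pos _).le
        _ = Real.exp (n ^ (a / 2) * 2 - n ^ a) := by rw [← Real.exp_add]; ring_nf
        _ ≤ Real.exp (-(n ^ (a / 2))) := Real.exp_le_exp.2 (by linarith)
    have := Real.exp_pos (-(n ^ a))
    linarith
  · have hbn : n ^ δ ≤ ((2 ^ p : ℕ) : ℝ) := hn ▸ two_ge hp
    have e2 : n ^ δ = n ^ (δ / 2) * n ^ (δ / 2) := by
      rw [← Real.rpow_add hn0, add_halves]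
    have e3 : 8 * n ^ (δ / 2) ≤ n ^ (δ / 2) * n ^ (δ / 2) := mul_le_mul_of_nonneg_right h3 (Real.rpow_nonneg hn0.le _)
    have e4 : ∀ k : ℕ, 2 ^ p ≤ 8 * k → (L33 K m : ℝ) ^ (δ / 2 / K) ≤ k := fun k hk => by
      have e5 : ((2 ^ p : ℕ) : ℝ) ≤ 8 * k := by exact_mod_cast hk
      rw [eL1]
      linarith
    have hE : 0 < EE μ s (2 ^ p) := EE_pos _
    have e6 : ∀ k : ℕ, 2 ^ p ≤ 8 * k → (L33 K m : ℝ) ^ (ε / 4 / K) * (EE' μ s k)⁻¹ ≤ n ^ (ε / 4) * 8 / EE μ s (2 ^ p) := fun k hk => by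
      have e1 := P86.EE'_le_mul86 h (m := 2 ^ p) (n := k) (k := 8) (by norm_num) hk
      rw [EE'_eq46 s (2 ^ p)] at e1
      push_cast at e1
      have e3 : 0 < EE' μ s k := lt_of_lt_of_le one_pos (le_max_left _ _)
      have e5 : (EE' μ s k)⁻¹ ≤ 8 / EE μ s (2 ^ p) := by
        rw [le_div_iff₀ hE, inv_mul_le_iff₀ e3]
        linarith
      rw [eL2, mul_div_assoc]
      exact mul_le_mul_of_nonneg_left e5 (Real.rpow_nonneg hn0.le _)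
    refine ⟨e4 l hl, e4 l' hl', ?_⟩
    have hE3 : ∀ k : ℕ, 0 ≤ (L33 K m : ℝ) ^ (ε / 4 / K) * (EE' μ s k)⁻¹ := fun k =>
      mul_nonneg (Real.rpow_nonneg (Nat.cast_nonneg _) _) (inv_nonneg.2 (zero_le_one.trans (le_max_left _ _)))
    have hp4 : 0 ≤ n ^ (ε / 4) := Real.rpow_nonneg hn0.le _
    calc _ ≤ (n ^ (ε / 4) * 8 / EE μ s (2 ^ p)) * (n ^ (ε / 4) * 8 / EE μ s (2 ^ p)) :=
          mul_le_mul (e6 l hl) (e6 l' hl') (hE3 _) (by positivity)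
      _ = 64 * (n ^ (ε / 4) * n ^ (ε / 4)) / EE μ s (2 ^ p) ^ 2 := by
          field_simp
          ring
      _ = 64 * n ^ (ε / 2) / EE μ s (2 ^ p) ^ 2 := by
          rw [← Real.rpow_add hn0]
          congr 3
          ring
      _ ≤ n ^ (ε / 2) * n ^ (ε / 2) / EE μ s (2 ^ p) ^ 2 := by
          have := mul_le_mul_of_nonneg_right h4 (Real.rpow_nonneg hn0.le (ε / 2))
          gcongr
      _ = n ^ ε / EE μ s (2 ^ p) ^ 2 := by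
          rw [← Real.rpow_add hn0, add_halves]

theorem meas_mI38 {N : ℕ} {y : ℕ} {Y : Type*} [DecidableEq Y] [Nonempty (Px (Pn N y))] (p : Px (Pn N y) → Y) (U V : ℕ) (S : Px (Pn N y)) :
    Measurable fun ω : Env × Finset ℕ => mI (wm μ s N (Pn N y) ω) p U V S :=
  meas_cE (w := fun ω : Env × Finset ℕ => wm μ s N (Pn N y) ω) (f := fun _ => NI U V S) meas_wm (fun _ => measurable_const) p S

theorem meas_i1 {Ω : Type*} [MeasurableSpace Ω] {A : Ω → Prop} (h : MeasurableSet {ω | A ω}) : Measurable fun ω => i1 (A ω) := by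
  unfold i1
  exact Measurable.ite h measurable_const measurable_const

theorem meas_lng38 {N : ℕ} {y : ℕ} {Y : Type*} [DecidableEq Y] [Nonempty (Px (Pn N y))] (p : Px (Pn N y) → Y) (U V : ℕ) (M : ℝ)
    (S : Px (Pn N y)) : Measurable fun ω : Env × Finset ℕ => lng38 (wm μ s N (Pn N y) ω) p U V M S :=
  meas_i1 (measurableSet_le measurable_const (meas_mI38 p U V S))

theorem meas_own38 {N : ℕ} {y : ℕ} [Nonempty (Px (Pn N y))] (T : Prop) (p : Px (Pn N y) → Finset ℕ × ℕ) (U V : ℕ) (M : ℝ)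
    (S : Px (Pn N y)) : Measurable fun ω : Env × Finset ℕ => own38 T (wm μ s N (Pn N y) ω) p U V M S := by
  unfold own38
  by_cases hT : T
  · simp only [if_pos hT]
    exact meas_i1 (Sz23.meas_tau p U V M S)
  · simp only [if_neg hT]
    exact meas_i1 (measurableSet_le measurable_const (meas_mI38 p U V S))

theorem int_prod38 {N : ℕ} {y : ℕ} [Nonempty (Px (Pn N y))] {D G : Env × Finset ℕ → Px (Pn N y) → ℝ} {Mh : ℝ} (hD : ∀ ω S, |D ω S| ≤ Mh)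
    (hDm : ∀ S, Measurable fun ω => D ω S) (hG0 : ∀ ω S, 0 ≤ G ω S) (hG1 : ∀ ω S, G ω S ≤ 1) (hGm : ∀ S, Measurable fun ω => G ω S) :
    Integrable (fun ω => gm (wm μ s N (Pn N y) ω) (fun S => |D ω S| * G ω S)) (Pm μ N) := by
  refine int_bdd (meas_gm meas_wm fun S => (hDm S).abs.mul (hGm S)) (M := Mh) fun ω => ?_
  rw [abs_of_nonneg (gm_nonneg _ fun S => mul_nonneg (abs_nonneg _) (hG0 ω S))]
  refine (gm_mono _ fun S => ?_).trans_eq (Pool.W7d29a1.C0.gm_const _ _)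
  calc |D ω S| * G ω S ≤ |D ω S| * 1 := mul_le_mul_of_nonneg_left (hG1 ω S) (abs_nonneg _)
    _ ≤ Mh := by rw [mul_one]; exact hD ω S

/-- The finer base. -/
abbrev bz38 (ι : ℝ) (m p : ℕ) : ℕ := 2 ^ (p - ⌈ι * (m : ℝ)⌉₊)

/-- **OWN TIMES LONG at the frame, right.** -/
theorem loF38R (h : In μ s c₀ C₀ n₀) (hK : 32 ≤ K) {δ ε : ℝ} (hδ : 0 < δ) (hε : 0 < ε) : ∃ κ : ℝ, 0 < κ ∧
    ∀ κ' : ℝ, 0 < κ' → κ' ≤ κ → ∃ c₂ : ℝ, 0 < c₂ ∧ ∀ ι : ℝ, 0 < ι → ∀ᶠ m : ℕ in atTop, ∀ p p' j : ℕ, δ * m ≤ p → p ≤ p' →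
      2 ^ p' ≤ j → j + 2 ^ p' ≤ L33 K m → ∀ M : ℝ, ((2 ^ m : ℕ) : ℝ) ^ κ' ≤ M → M ≤ ((2 ^ m : ℕ) : ℝ) ^ κ → ∀ (T : Prop) (o r : ℕ),
      o ≤ j + bz38 ι m p + 4 * kn38 (bz38 ι m p) (2 ^ p) → j ≤ r → r ≤ j + bz38 ι m p + 4 * kn38 (bz38 ι m p) (2 ^ p) →
      ∀ (D : ∀ y, Env × Finset ℕ → Px (Pn (L33 K m) y) → ℝ) (Mh : ℝ), 0 < Mh → (∀ y ∈ ys33 μ s K m, ∀ ω S, |D y ω S| ≤ Mh) →
      (∀ y ∈ ys33 μ s K m, ∀ S, Measurable fun ω => D y ω S) →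
      (∀ y ∈ ys33 μ s K m, OffD (Ioo (j - 2 ^ p') (j + 2 ^ p')) (D y)) →
      avy (ys33 μ s K m) (fun y => ∫ ω, gm (wm μ s (L33 K m) (Pn (L33 K m) y) ω) (fun S => |D y ω S| *
        (own38 T (wm μ s (L33 K m) (Pn (L33 K m) y) ω) (pJ (j - 2 ^ p') (j + 2 ^ p')) o (j + 2 ^ p) M S *
          lng38 (wm μ s (L33 K m) (Pn (L33 K m) y) ω) (pJ 0 r) (j - 2 ^ p) (j - bz38 ι m p) M S)) ∂(Pm μ (L33 K m))) ≤
      ((2 ^ m : ℕ) : ℝ) ^ ε / EE μ s (2 ^ p) ^ 2 *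
        avy (ys33 μ s K m) (fun y => ∫ ω, gm (wm μ s (L33 K m) (Pn (L33 K m) y) ω) (fun S => |D y ω S|) ∂(Pm μ (L33 K m))) +
        Mh * Real.exp (-(((2 ^ m : ℕ) : ℝ) ^ c₂)) := by
  have hK0 : (0 : ℝ) < K := by
    have : (32 : ℝ) ≤ K := by exact_mod_cast hK
    linarith
  obtain ⟨δ₁, κ₁, c₁, hδ₁, hκ₁, hc₁, L₀, hP⟩ := loR38 (μ := μ) (s := s) h (ε / 4 / K) (δ / 2 / K) (by positivity) (by positivity)
  obtain ⟨κ, hκ, hN⟩ := num38 h hK hδ hε hδ₁ hκ₁ hc₁ L₀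
  refine ⟨κ, hκ, fun κ' hκ' hκκ => ?_⟩
  obtain ⟨c₂, hc₂, hN⟩ := hN κ' hκ' hκκ
  refine ⟨c₂, hc₂, fun ι hι => ?_⟩
  filter_upwards [hN, eventually_gt_atTop 0] with m hN h7
  obtain ⟨n1, n2, n3, n4⟩ := hN
  intro p p' j hp hpp hj hjL M hM hM' T o r ho hjr hr D Mh hMh hD hDm hDo
  have hm0 : (0 : ℝ) < m := by exact_mod_cast h7
  have hp0 : 0 < p := by
    have : (0 : ℝ) < p := lt_of_lt_of_le (by positivity) hp
    exact_mod_cast this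
  have hb0 : 2 * bz38 ι m p ≤ 2 ^ p := Sz23.b0_half (p := p) hι h7 hp0
  have hkn := kn38_le (bz38 ι m p) (2 ^ p)
  have hpp' : 2 ^ p ≤ 2 ^ p' := Nat.pow_le_pow_right two_pos hpp
  obtain ⟨b0, hb0d⟩ : ∃ b0, b0 = bz38 ι m p := ⟨_, rfl⟩
  obtain ⟨b, hbd⟩ : ∃ b, b = 2 ^ p := ⟨_, rfl⟩
  obtain ⟨b', hbd'⟩ : ∃ b', b' = 2 ^ p' := ⟨_, rfl⟩
  obtain ⟨k, hk⟩ : ∃ k, k = kn38 b0 b := ⟨_, rfl⟩
  obtain ⟨m1, m2, m3⟩ := n3 M hM hM'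
  obtain ⟨l, hl⟩ : ∃ l, l = b - b0 - 4 * k := ⟨_, rfl⟩
  rw [← hb0d, ← hbd] at hkn ho hr
  rw [← hb0d, ← hbd] at hb0
  rw [← hk] at hkn ho hr
  have hbl : b ≤ 8 * l := by omega
  have hbl' : b ≤ 8 * (b - b0) := by omega
  obtain ⟨q1, q2, q3⟩ := n4 p l (b - b0) hp (hbd ▸ hbl) (hbd ▸ hbl')
  refine avy_le96 (mul_nonneg hMh.le (Real.exp_pos _).le) fun y hy => ?_
  obtain ⟨hyL, hyc⟩ := n2 y hy
  have hne : Nonempty (Px (Pn (L33 K m) y)) := ne_Pn hyL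
  rw [← hbd'] at hpp' hj hjL
  rw [← hbd] at hpp'
  have hDo' := hDo y hy
  rw [← hbd'] at hDo'
  have key := hP (L33 K m) n1 (L33 K m) (by omega) le_rfl y hyL hyc M m1 m2 T (j - b') (j + b') (j + b0 + 4 * k) (j + b) l 0 r
    (j - b) (j - b0) (b - b0) (by omega) (by omega) (by omega) hjL (by omega) (by omega) (by omega) (by omega) hr q1 q2 (D y) Mh hMh
    (hD y hy) (hDm y hy) hDo'
  have hI : ∀ o : ℕ, Integrable (fun ω => gm (wm μ s (L33 K m) (Pn (L33 K m) y) ω) (fun S => |D y ω S| *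
        (own38 T (wm μ s (L33 K m) (Pn (L33 K m) y) ω) (pJ (j - b') (j + b')) o (j + b) M S *
          lng38 (wm μ s (L33 K m) (Pn (L33 K m) y) ω) (pJ 0 r) (j - b) (j - b0) M S))) (Pm μ (L33 K m)) := fun o =>
    int_prod38 (hD y hy) (hDm y hy) (fun ω S => mul_nonneg (own38_nonneg S) (lng38_nonneg S))
      (fun ω S => mul_le_one₀ (own38_le_one S) (lng38_nonneg S) (lng38_le_one S)) fun S => (meas_own38 T _ _ _ M S).mul (meas_lng38 _ _ _ M S)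
  have hmono := integral_mono (hI o) (hI (j + b0 + 4 * k)) fun ω => gm_mono _ fun S =>
    mul_le_mul_of_nonneg_left (mul_le_mul_of_nonneg_right (own38_mono ho le_rfl le_rfl S) (lng38_nonneg _)) (abs_nonneg _)
  rw [← hbd', ← hbd, ← hb0d]
  refine hmono.trans (key.trans (add_le_add (mul_le_mul_of_nonneg_right (hbd ▸ q3) ?_) (mul_le_mul_of_nonneg_left m3 hMh.le)))
  exact integral_nonneg fun ω => gm_nonneg _ fun S => abs_nonneg _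

/-- **OWN TIMES LONG at the frame, left.** -/
theorem loF38L (h : In μ s c₀ C₀ n₀) (hK : 32 ≤ K) {δ ε : ℝ} (hδ : 0 < δ) (hε : 0 < ε) : ∃ κ : ℝ, 0 < κ ∧
    ∀ κ' : ℝ, 0 < κ' → κ' ≤ κ → ∃ c₂ : ℝ, 0 < c₂ ∧ ∀ ι : ℝ, 0 < ι → ∀ᶠ m : ℕ in atTop, ∀ p p' j : ℕ, δ * m ≤ p → p ≤ p' →
      2 ^ p' ≤ j → j + 2 ^ p' ≤ L33 K m → ∀ M : ℝ, ((2 ^ m : ℕ) : ℝ) ^ κ' ≤ M → M ≤ ((2 ^ m : ℕ) : ℝ) ^ κ → ∀ (T : Prop) (o r : ℕ),
      j ≤ o + bz38 ι m p + 4 * kn38 (bz38 ι m p) (2 ^ p) → r ≤ j → j ≤ r + bz38 ι m p + 4 * kn38 (bz38 ι m p) (2 ^ p) →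
      ∀ (D : ∀ y, Env × Finset ℕ → Px (Pn (L33 K m) y) → ℝ) (Mh : ℝ), 0 < Mh → (∀ y ∈ ys33 μ s K m, ∀ ω S, |D y ω S| ≤ Mh) →
      (∀ y ∈ ys33 μ s K m, ∀ S, Measurable fun ω => D y ω S) →
      (∀ y ∈ ys33 μ s K m, OffD (Ioo (j - 2 ^ p') (j + 2 ^ p')) (D y)) →
      avy (ys33 μ s K m) (fun y => ∫ ω, gm (wm μ s (L33 K m) (Pn (L33 K m) y) ω) (fun S => |D y ω S| *
        (own38 T (wm μ s (L33 K m) (Pn (L33 K m) y) ω) (pJ (j - 2 ^ p') (j + 2 ^ p')) (j - 2 ^ p) o M S *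
          lng38 (wm μ s (L33 K m) (Pn (L33 K m) y) ω) (pJ r (L33 K m)) (j + bz38 ι m p) (j + 2 ^ p) M S)) ∂(Pm μ (L33 K m))) ≤
      ((2 ^ m : ℕ) : ℝ) ^ ε / EE μ s (2 ^ p) ^ 2 *
        avy (ys33 μ s K m) (fun y => ∫ ω, gm (wm μ s (L33 K m) (Pn (L33 K m) y) ω) (fun S => |D y ω S|) ∂(Pm μ (L33 K m))) +
        Mh * Real.exp (-(((2 ^ m : ℕ) : ℝ) ^ c₂)) := by
  have hK0 : (0 : ℝ) < K := by
    have : (32 : ℝ) ≤ K := by exact_mod_cast hK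
    linarith
  obtain ⟨δ₁, κ₁, c₁, hδ₁, hκ₁, hc₁, L₀, hP⟩ := loL38 (μ := μ) (s := s) h (ε / 4 / K) (δ / 2 / K) (by positivity) (by positivity)
  obtain ⟨κ, hκ, hN⟩ := num38 h hK hδ hε hδ₁ hκ₁ hc₁ L₀
  refine ⟨κ, hκ, fun κ' hκ' hκκ => ?_⟩
  obtain ⟨c₂, hc₂, hN⟩ := hN κ' hκ' hκκ
  refine ⟨c₂, hc₂, fun ι hι => ?_⟩
  filter_upwards [hN, eventually_gt_atTop 0] with m hN h7
  obtain ⟨n1, n2, n3, n4⟩ := hN
  intro p p' j hp hpp hj hjL M hM hM' T o r ho hjr hr D Mh hMh hD hDm hDo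
  have hm0 : (0 : ℝ) < m := by exact_mod_cast h7
  have hp0 : 0 < p := by
    have : (0 : ℝ) < p := lt_of_lt_of_le (by positivity) hp
    exact_mod_cast this
  have hb0 : 2 * bz38 ι m p ≤ 2 ^ p := Sz23.b0_half (p := p) hι h7 hp0
  have hkn := kn38_le (bz38 ι m p) (2 ^ p)
  have hpp' : 2 ^ p ≤ 2 ^ p' := Nat.pow_le_pow_right two_pos hpp
  obtain ⟨b0, hb0d⟩ : ∃ b0, b0 = bz38 ι m p := ⟨_, rfl⟩
  obtain ⟨b, hbd⟩ : ∃ b, b = 2 ^ p := ⟨_, rfl⟩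
  obtain ⟨b', hbd'⟩ : ∃ b', b' = 2 ^ p' := ⟨_, rfl⟩
  obtain ⟨k, hk⟩ : ∃ k, k = kn38 b0 b := ⟨_, rfl⟩
  obtain ⟨m1, m2, m3⟩ := n3 M hM hM'
  obtain ⟨l, hl⟩ : ∃ l, l = b - b0 - 4 * k := ⟨_, rfl⟩
  rw [← hb0d, ← hbd] at hkn ho hr
  rw [← hb0d, ← hbd] at hb0
  rw [← hk] at hkn ho hr
  have hbl : b ≤ 8 * l := by omega
  have hbl' : b ≤ 8 * (b - b0) := by omega
  obtain ⟨q1, q2, q3⟩ := n4 p l (b - b0) hp (hbd ▸ hbl) (hbd ▸ hbl')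
  refine avy_le96 (mul_nonneg hMh.le (Real.exp_pos _).le) fun y hy => ?_
  obtain ⟨hyL, hyc⟩ := n2 y hy
  have hne : Nonempty (Px (Pn (L33 K m) y)) := ne_Pn hyL
  rw [← hbd'] at hpp' hj hjL
  rw [← hbd] at hpp'
  have hDo' := hDo y hy
  rw [← hbd'] at hDo'
  have key := hP (L33 K m) n1 (L33 K m) (by omega) le_rfl y hyL hyc M m1 m2 T (j - b') (j + b') (j - b) (j - b0 - 4 * k) l r (L33 K m)
    (j + b0) (j + b) (b - b0) (by omega) (by omega) (by omega) hjL (by omega) (by omega) (by omega) (by omega) (by omega) le_rfl q1 q2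
    (D y) Mh hMh (hD y hy) (hDm y hy) hDo'
  have hI : ∀ o : ℕ, Integrable (fun ω => gm (wm μ s (L33 K m) (Pn (L33 K m) y) ω) (fun S => |D y ω S| *
        (own38 T (wm μ s (L33 K m) (Pn (L33 K m) y) ω) (pJ (j - b') (j + b')) (j - b) o M S *
          lng38 (wm μ s (L33 K m) (Pn (L33 K m) y) ω) (pJ r (L33 K m)) (j + b0) (j + b) M S))) (Pm μ (L33 K m)) := fun o =>
    int_prod38 (hD y hy) (hDm y hy) (fun ω S => mul_nonneg (own38_nonneg S) (lng38_nonneg S))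
      (fun ω S => mul_le_one₀ (own38_le_one S) (lng38_nonneg S) (lng38_le_one S)) fun S => (meas_own38 T _ _ _ M S).mul (meas_lng38 _ _ _ M S)
  have hmono := integral_mono (hI o) (hI (j - b0 - 4 * k)) fun ω => gm_mono _ fun S =>
    mul_le_mul_of_nonneg_left (mul_le_mul_of_nonneg_right (own38_mono le_rfl (by omega) le_rfl S) (lng38_nonneg _)) (abs_nonneg _)
  rw [← hbd', ← hbd, ← hb0d]
  refine hmono.trans (key.trans (add_le_add (mul_le_mul_of_nonneg_right (hbd ▸ q3) ?_) (mul_le_mul_of_nonneg_left m3 hMh.le)))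
  exact integral_nonneg fun ω => gm_nonneg _ fun S => abs_nonneg _

end

end Pool.Agent.W_7d29a1_C0.Lo38
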