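import Pool.Agent.W_7d29a1_C0.Tau86B

/-!
C0, helper86: THE GENERAL PRICE, LIST FORM (`price_list`): for a list of places `(P, G)`, in the order of the prices,
`∫ gm (wm ..) (f * ∏ G) dPm ≤ ∏ (L ^ ε / EE' l) ∫ gm (wm ..) f dPm + error`. `gs_right`, `gs_left`: the prices of the bad functional of GS.
-/

set_option autoImplicit false

namespace Pool.Agent.W_7d29a1_C0.P86

open MeasureTheory ProbabilityTheory Filter Topology Finset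
open Pool.Agent.W_7d29a1_F Pool.Agent.W_7d29a1_X Pool.Agent.W_7d29a1_h4g Pool.Agent.W_7d29a1_H
open Pool.Agent.W_7d29a1_HS (In wd md)
open Pool.Agent.W_7d29a1_HZ Pool.Agent.W_7d29a1_HZ.R72 Pool.Agent.W_7d29a1_Z.Asm72
open Pool.Agent.W_7d29a1_HZ.Z86
open Pool.Agent.W_7d29a1_C0.Mod92 (Px Pn lw ps pJ ne_Pn ps_Pn pos_card ps_of_le ps_of_ge wm Pm meas_lw meas_cE meas_gz meas_gm int_Pm)
open Pool.Agent.W_7d29a1_C0.Swap57 (NI cE2)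
open Pool.W7d29a1.C0 (gm gz gz_pos gm_nonneg gm_mono gm_const)
open Pool.W7d29a1.C0.VT31 (Mp cE gm_mul_cE fz cE_sum)
open Pool.W7d29a1.C0.R43 (Tau Rp mI st swP_pJ tau_rp)
open scoped ENNReal

/-- The type of a place: the price uses all the rows of the tie block, or those to the right of `U`, or those to the left of `V`. -/
inductive Ty
  | L
  | R
  | M

/-- A place: the block `[c, d)` (the partner agrees with the path outside), the tie block `[c', d']`, the region `[U, V]` of the windows, their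
length `l`, the type, and whether the place is a robust event (`T`) or a mass. -/
structure Plc where
  c : ℕ
  d : ℕ
  c' : ℕ
  d' : ℕ
  U : ℕ
  V : ℕ
  l : ℕ
  ty : Ty
  T : Prop

/-- The rows used by the price. -/
def Plc.J (p : Plc) : Finset ℕ :=
  match p.ty with
  | Ty.L => Ioo p.c' p.d'
  | Ty.R => Ioo p.U p.d'
  | Ty.M => Ioo p.c' p.V

/-- The numbers are in order. -/
def Plc.Ok (L N : ℕ) (θ : ℝ) (p : Plc) : Prop :=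
  (p.c ≤ p.c' ∧ p.c' ≤ p.U ∧ p.U ≤ p.V ∧ p.V ≤ p.d' ∧ p.d' ≤ p.d ∧ p.d ≤ N) ∧ (L : ℝ) ^ θ ≤ p.l

/-- The place `p` may be priced before the place `q` (the tie block of `q` does not meet the rows of the price of `p`). -/
def Plc.Bef (p q : Plc) : Prop :=
  match p.ty with
  | Ty.L => p.d' ≤ q.c' ∨ q.d' ≤ p.c' ∨ (¬ p.T ∧ (q.d' ≤ p.U ∨ p.V ≤ q.c') ∧ 4 * (q.d' - q.c') ≤ p.l)
  | Ty.R => q.d' ≤ p.U ∨ p.d' ≤ q.c'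
  | Ty.M => p.V ≤ q.c' ∨ q.d' ≤ p.c'

/-- `G` is dominated by the place `p`: a mass of gaps amplified by `exp X`, or the robust event. -/
def Dom (μ : Measure ℝ) (s : ℝ) (N y : ℕ) (X M : ℝ) (p : Plc) (G : Env × Finset ℕ → Px (Pn N y) → ℝ) : Prop :=
  (∀ ω x, 0 ≤ G ω x) ∧ (∀ ω x, G ω x ≤ 1) ∧
    ((¬ p.T ∧ ∃ (A : Finset ℕ → Finset ℕ → Prop) (n₁ : ℕ) (u v : ℕ → ℕ), (n₁ : ℝ) ≤ X ∧
      (∀ n < n₁, p.U ≤ u n ∧ u n + p.l ≤ v n ∧ v n ≤ p.V) ∧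
      (∀ S S', S ⊆ range N → S' ⊆ range N → pos S N = y → pos S' N = y → (∀ j, j ≤ p.c ∨ p.d ≤ j → pos S j = pos S' j) →
        A S S' → ∃ n < n₁, Gap p.c' p.d' (u n) (v n) S S') ∧
      ∀ ω x, G ω x ≤ Real.exp X * mc μ s N y p.c p.d A ω.1 x.1) ∨
    (p.T ∧ p.c' = p.c ∧ p.d' = p.d ∧ p.U + p.l ≤ p.V ∧
      ∀ ω x, ¬ Tau (wm μ s N (Pn N y) ω) (pJ p.c p.d) p.U p.V M x → G ω x ≤ Real.exp (-M)))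

variable {μ : Measure ℝ} {s : ℝ} {N : ℕ}

/-- **One window, mass.** -/
theorem dom_mass {y : ℕ} {X M : ℝ} (hX : 1 ≤ X) {p : Plc} (hT : ¬ p.T) (hc : p.c ≤ p.c' ∧ p.c' ≤ p.U ∧ p.U ≤ p.V ∧ p.V ≤ p.d' ∧ p.d' ≤ p.d)
    (hcc : p.c' = p.c) (hdd : p.d' = p.d) (hl : p.U + p.l ≤ p.V) {G : Env × Finset ℕ → Px (Pn N y) → ℝ} (hG0 : ∀ ω x, 0 ≤ G ω x)
    (hG1 : ∀ ω x, G ω x ≤ 1)
    (hG : ∀ ω x, G ω x ≤ Real.exp X * cE (wm μ s N (Pn N y) ω) (pJ p.c p.d) (NI p.U p.V x) x) : Dom μ s N y X M p G := by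
  refine ⟨hG0, hG1, Or.inl ⟨hT, NoMeet p.U p.V, 1, fun _ => p.U, fun _ => p.V, by simpa using hX, fun n _ => ⟨le_rfl, hl, le_rfl⟩,
    fun S S' _ _ _ _ hag hm => ⟨0, by norm_num, ?_⟩, fun ω x => (hG ω x).trans_eq ?_⟩⟩
  · rw [hcc, hdd]
    show Gap p.c p.d p.U p.V S S'
    exact gap_of_nm (by omega) (by omega) hag hm
  · congr 1
    exact mI_mc ω.1 x.2

variable [IsProbabilityMeasure μ] {c₀ C₀ : ℝ} {n₀ : ℕ}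

theorem prod_get {α : Type*} (Ps : List α) (g : α → ℝ) : ∏ i : Fin Ps.length, g (Ps.get i) = (Ps.map g).prod := by
  induction Ps with
  | nil => simp
  | cons a l ih =>
    rw [List.map_cons, List.prod_cons, ← ih]
    exact Fin.prod_univ_succ (fun i : Fin (a :: l).length => g ((a :: l).get i))

/-- **THE GENERAL PRICE, LIST FORM.** -/
theorem price_list (h : In μ s c₀ C₀ n₀) (k : ℕ) (hk : k ≤ 8) : ∀ ε θ : ℝ, 0 < ε → 0 < θ → ∃ δ κ c₂ : ℝ, 0 < δ ∧ 0 < κ ∧ 0 < c₂ ∧ ∃ L₀ : ℕ,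
    ∀ L : ℕ, L₀ ≤ L → ∀ N : ℕ, L ≤ 16 * N → N ≤ L → ∀ y : ℕ, y ≤ N → |(y : ℝ) - sl μ s * N| ≤ ((L : ℝ) ^ δ * wd' μ s N) →
    ∀ M : ℝ, 8 ≤ M → M ≤ (L : ℝ) ^ κ →
    ∀ Ps : List (Plc × (Env × Finset ℕ → Px (Pn N y) → ℝ)), Ps.length = k → (∀ P ∈ Ps, P.1.Ok L N θ) →
    Ps.Pairwise (fun P P' => P.1.Bef P'.1) → (∀ P ∈ Ps, Dom μ s N y ((L : ℝ) ^ κ) M P.1 P.2) →
    ∀ f : Env × Finset ℕ → Px (Pn N y) → ℝ, (∀ A x, Measurable fun η => f (η, A) x) → (∀ ω x, 0 ≤ f ω x) → (∀ ω x, f ω x ≤ 1) →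
    (∀ P ∈ Ps, ∀ (η η' : Env) A x, (∀ q : Pt, ¬ (0 ≤ q.1 ∧ q.1.toNat ∈ P.1.J) → η q = η' q) → f (η, A) x = f (η', A) x) →
    ∫ ω, gm (wm μ s N (Pn N y) ω) (fun x => f ω x * (Ps.map fun P => P.2 ω x).prod) ∂(Pm μ N) ≤
      (Ps.map fun P => (L : ℝ) ^ ε * (EE' μ s P.1.l)⁻¹).prod * ∫ ω, gm (wm μ s N (Pn N y) ω) (f ω) ∂(Pm μ N) +
        (Real.exp (-(L : ℝ) ^ c₂) + 2 * k * Real.exp (-M)) := by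
  intro ε θ hε hθ
  obtain ⟨δ, κ, c₂, hδ, hκ, hc₂, L₀, hP⟩ := tauI h k hk ε θ hε hθ
  refine ⟨δ, κ, c₂, hδ, hκ, hc₂, L₀, ?_⟩
  intro L hL N hLN hNL y hyN hyc M hM hML Ps hlen hok hpw hdom f hfm hf0 hf1 hfo
  subst hlen
  have hmem : ∀ i : Fin Ps.length, Ps.get i ∈ Ps := fun i => List.get_mem Ps i
  have hpw' := List.pairwise_iff_get.1 hpw
  have h1 := hP L hL N hLN hNL y hyN hyc (fun i => (Ps.get i).1.c) (fun i => (Ps.get i).1.d) (fun i => (Ps.get i).1.c')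
    (fun i => (Ps.get i).1.d') (fun i => (Ps.get i).1.U) (fun i => (Ps.get i).1.V) (fun i => (Ps.get i).1.l)
    (fun i => (hok _ (hmem i)).1) (fun i => (hok _ (hmem i)).2) (fun i => (Ps.get i).1.T) (fun i => (Ps.get i).1.J) (fun i => ?_) M hM hML
    (fun i => (Ps.get i).2) (fun i => (hdom _ (hmem i)).1) (fun i => (hdom _ (hmem i)).2.1) (fun i hi => ?_) (fun i hi => ?_) f hfm hf0 hf1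
    (fun i => hfo _ (hmem i))
  · rw [prod_get Ps fun P => (L : ℝ) ^ ε * (EE' μ s P.1.l)⁻¹] at h1
    refine le_trans (le_of_eq ?_) h1
    congr 1
    funext ω
    congr 1
    funext x
    rw [← prod_get Ps fun P => P.2 ω x]
  · have h2 : ∀ i', i < i' → (Ps.get i).1.Bef (Ps.get i').1 := fun i' hi' => hpw' i i' hi'
    unfold Plc.J
    unfold Plc.Bef at h2
    cases hty : (Ps.get i).1.ty with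
    | L =>
      rw [hty] at h2
      exact Or.inl ⟨rfl, h2⟩
    | R =>
      rw [hty] at h2
      exact Or.inr (Or.inl ⟨rfl, h2⟩)
    | M =>
      rw [hty] at h2
      exact Or.inr (Or.inr ⟨rfl, h2⟩)
  · rcases (hdom _ (hmem i)).2.2 with ⟨-, g⟩ | ⟨g, -⟩
    · exact g
    · exact absurd g hi
  · rcases (hdom _ (hmem i)).2.2 with ⟨g, -⟩ | ⟨-, g⟩
    · exact absurd hi g
    · exact g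

omit [IsProbabilityMeasure μ] in
/-- **A robust event or a pair mass.** -/
theorem dom_tau {y : ℕ} {X M : ℝ} (hM : 0 ≤ M) {p : Plc} (hT : p.T) (hcc : p.c' = p.c) (hdd : p.d' = p.d) (hl : p.U + p.l ≤ p.V)
    {G : Env × Finset ℕ → Px (Pn N y) → ℝ} (hG0 : ∀ ω x, 0 ≤ G ω x) (hG1 : ∀ ω x, G ω x ≤ 1)
    (hG : ∀ ω x, (G ω x ≠ 0 → Tau (wm μ s N (Pn N y) ω) (pJ p.c p.d) p.U p.V M x) ∨
      G ω x ≤ cE2 (wm μ s N (Pn N y) ω) (pJ p.c p.d) (NI p.U p.V) x x) : Dom μ s N y X M p G := by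
  refine ⟨hG0, hG1, Or.inr ⟨hT, hcc, hdd, hl, fun ω x hn => ?_⟩⟩
  rcases hG ω x with h | h
  · have : G ω x = 0 := by
      by_contra h0
      exact hn (h h0)
    rw [this]
    exact (Real.exp_pos _).le
  · unfold Tau at hn
    push Not at hn
    exact h.trans (hn.le.trans (Real.exp_le_exp.2 (by linarith)))

/-! ### The bad functional of GS: own mass, a place given the block `(0, z)` (or `(z, N)`), the factor `F_k` -/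

theorem int_one {y : ℕ} (hy : y ≤ N) : ∫ ω, gm (wm μ s N (Pn N y) ω) (fun _ => (1 : ℝ)) ∂(Pm μ N) = 1 := by
  have := ne_Pn (N := N) (y := y) hy
  have e : (fun ω : Env × Finset ℕ => gm (wm μ s N (Pn N y) ω) (fun _ => (1 : ℝ))) = fun _ => 1 := by
    funext ω
    exact gm_const _ 1
  rw [e]
  simp

/-- `price_list` with `f = 1`. -/
theorem price_one (h : In μ s c₀ C₀ n₀) (k : ℕ) (hk : k ≤ 8) : ∀ ε θ : ℝ, 0 < ε → 0 < θ → ∃ δ κ c₂ : ℝ, 0 < δ ∧ 0 < κ ∧ 0 < c₂ ∧ ∃ L₀ : ℕ,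
    ∀ L : ℕ, L₀ ≤ L → ∀ N : ℕ, L ≤ 16 * N → N ≤ L → ∀ y : ℕ, y ≤ N → |(y : ℝ) - sl μ s * N| ≤ ((L : ℝ) ^ δ * wd' μ s N) →
    ∀ M : ℝ, 8 ≤ M → M ≤ (L : ℝ) ^ κ →
    ∀ Ps : List (Plc × (Env × Finset ℕ → Px (Pn N y) → ℝ)), Ps.length = k → (∀ P ∈ Ps, P.1.Ok L N θ) →
    Ps.Pairwise (fun P P' => P.1.Bef P'.1) → (∀ P ∈ Ps, Dom μ s N y ((L : ℝ) ^ κ) M P.1 P.2) →
    ∫ ω, gm (wm μ s N (Pn N y) ω) (fun x => (Ps.map fun P => P.2 ω x).prod) ∂(Pm μ N) ≤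
      (Ps.map fun P => (L : ℝ) ^ ε * (EE' μ s P.1.l)⁻¹).prod + (Real.exp (-(L : ℝ) ^ c₂) + 2 * k * Real.exp (-M)) := by
  intro ε θ hε hθ
  obtain ⟨δ, κ, c₂, hδ, hκ, hc₂, L₀, hP⟩ := price_list h k hk ε θ hε hθ
  refine ⟨δ, κ, c₂, hδ, hκ, hc₂, L₀, ?_⟩
  intro L hL N hLN hNL y hyN hyc M hM hML Ps hlen hok hpw hdom
  have h1 := hP L hL N hLN hNL y hyN hyc M hM hML Ps hlen hok hpw hdom (fun _ _ => 1) (fun A x => measurable_const) (fun _ _ => zero_le_one)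
    (fun _ _ => le_rfl) (fun _ _ _ _ _ _ _ => rfl)
  rw [int_one hyN, mul_one] at h1
  simpa only [one_mul] using h1

/-- Three factors. -/
theorem gs_core3 (h : In μ s c₀ C₀ n₀) : ∀ ε θ : ℝ, 0 < ε → 0 < θ → ∃ δ κ c₂ : ℝ, 0 < δ ∧ 0 < κ ∧ 0 < c₂ ∧ ∃ L₀ : ℕ,
    ∀ L : ℕ, L₀ ≤ L → ∀ N : ℕ, L ≤ 16 * N → N ≤ L → ∀ y : ℕ, y ≤ N → |(y : ℝ) - sl μ s * N| ≤ ((L : ℝ) ^ δ * wd' μ s N) →
    ∀ M : ℝ, 8 ≤ M → M ≤ (L : ℝ) ^ κ →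
    ∀ (P₁ P₂ P₃ : Plc) (G₁ G₂ G₃ : Env × Finset ℕ → Px (Pn N y) → ℝ), P₁.Ok L N θ → P₂.Ok L N θ → P₃.Ok L N θ →
    Dom μ s N y ((L : ℝ) ^ κ) M P₁ G₁ → Dom μ s N y ((L : ℝ) ^ κ) M P₂ G₂ → Dom μ s N y ((L : ℝ) ^ κ) M P₃ G₃ →
    ((P₃.Bef P₁ ∧ P₃.Bef P₂ ∧ P₁.Bef P₂) ∨ (P₁.Bef P₂ ∧ P₁.Bef P₃ ∧ P₂.Bef P₃)) →
    ∫ ω, gm (wm μ s N (Pn N y) ω) (fun x => G₁ ω x * G₂ ω x * G₃ ω x) ∂(Pm μ N) ≤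
      ((L : ℝ) ^ ε * (EE' μ s P₁.l)⁻¹) * ((L : ℝ) ^ ε * (EE' μ s P₂.l)⁻¹) * ((L : ℝ) ^ ε * (EE' μ s P₃.l)⁻¹) +
        (Real.exp (-(L : ℝ) ^ c₂) + 6 * Real.exp (-M)) := by
  intro ε θ hε hθ
  obtain ⟨δ, κ, c₂, hδ, hκ, hc₂, L₀, hP⟩ := price_one h 3 (by norm_num) ε θ hε hθ
  refine ⟨δ, κ, c₂, hδ, hκ, hc₂, L₀, ?_⟩
  intro L hL N hLN hNL y hyN hyc M hM hML P₁ P₂ P₃ G₁ G₂ G₃ o1 o2 o3 d1 d2 d3 hB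
  rcases hB with ⟨b1, b2, b3⟩ | ⟨b1, b2, b3⟩
  · have h1 := hP L hL N hLN hNL y hyN hyc M hM hML [(P₃, G₃), (P₁, G₁), (P₂, G₂)] rfl
      (by simp only [List.mem_cons, List.not_mem_nil, or_false]; rintro P (rfl | rfl | rfl); exacts [o3, o1, o2])
      (by simp only [List.pairwise_cons, List.mem_cons, List.not_mem_nil, or_false, forall_eq_or_imp, forall_eq, List.Pairwise.nil, and_true,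
            IsEmpty.forall_iff, implies_true]; exact ⟨⟨b1, b2⟩, b3⟩)
      (by simp only [List.mem_cons, List.not_mem_nil, or_false]; rintro P (rfl | rfl | rfl); exacts [d3, d1, d2])
    simp only [List.map_cons, List.map_nil, List.prod_cons, List.prod_nil, mul_one] at h1
    refine le_trans (le_of_eq ?_) (h1.trans (le_of_eq ?_))
    · congr 1
      funext ω
      congr 1
      funext x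
      ring
    · push_cast
      ring
  · have h1 := hP L hL N hLN hNL y hyN hyc M hM hML [(P₁, G₁), (P₂, G₂), (P₃, G₃)] rfl
      (by simp only [List.mem_cons, List.not_mem_nil, or_false]; rintro P (rfl | rfl | rfl); exacts [o1, o2, o3])
      (by simp only [List.pairwise_cons, List.mem_cons, List.not_mem_nil, or_false, forall_eq_or_imp, forall_eq, List.Pairwise.nil, and_true,
            IsEmpty.forall_iff, implies_true]; exact ⟨⟨b1, b2⟩, b3⟩)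
      (by simp only [List.mem_cons, List.not_mem_nil, or_false]; rintro P (rfl | rfl | rfl); exacts [d1, d2, d3])
    simp only [List.map_cons, List.map_nil, List.prod_cons, List.prod_nil, mul_one] at h1
    refine le_trans (le_of_eq ?_) (h1.trans (le_of_eq ?_))
    · congr 1
      funext ω
      congr 1
      funext x
      ring
    · push_cast
      ring

/-- Two factors. -/
theorem gs_core2 (h : In μ s c₀ C₀ n₀) : ∀ ε θ : ℝ, 0 < ε → 0 < θ → ∃ δ κ c₂ : ℝ, 0 < δ ∧ 0 < κ ∧ 0 < c₂ ∧ ∃ L₀ : ℕ,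
    ∀ L : ℕ, L₀ ≤ L → ∀ N : ℕ, L ≤ 16 * N → N ≤ L → ∀ y : ℕ, y ≤ N → |(y : ℝ) - sl μ s * N| ≤ ((L : ℝ) ^ δ * wd' μ s N) →
    ∀ M : ℝ, 8 ≤ M → M ≤ (L : ℝ) ^ κ →
    ∀ (P₁ P₂ : Plc) (G₁ G₂ : Env × Finset ℕ → Px (Pn N y) → ℝ), P₁.Ok L N θ → P₂.Ok L N θ →
    Dom μ s N y ((L : ℝ) ^ κ) M P₁ G₁ → Dom μ s N y ((L : ℝ) ^ κ) M P₂ G₂ → P₁.Bef P₂ →
    ∫ ω, gm (wm μ s N (Pn N y) ω) (fun x => G₁ ω x * G₂ ω x) ∂(Pm μ N) ≤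
      ((L : ℝ) ^ ε * (EE' μ s P₁.l)⁻¹) * ((L : ℝ) ^ ε * (EE' μ s P₂.l)⁻¹) + (Real.exp (-(L : ℝ) ^ c₂) + 4 * Real.exp (-M)) := by
  intro ε θ hε hθ
  obtain ⟨δ, κ, c₂, hδ, hκ, hc₂, L₀, hP⟩ := price_one h 2 (by norm_num) ε θ hε hθ
  refine ⟨δ, κ, c₂, hδ, hκ, hc₂, L₀, ?_⟩
  intro L hL N hLN hNL y hyN hyc M hM hML P₁ P₂ G₁ G₂ o1 o2 d1 d2 hB
  have h1 := hP L hL N hLN hNL y hyN hyc M hM hML [(P₁, G₁), (P₂, G₂)] rfl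
    (by simp only [List.mem_cons, List.not_mem_nil, or_false]; rintro P (rfl | rfl); exacts [o1, o2])
    (by simp only [List.pairwise_cons, List.mem_cons, List.not_mem_nil, or_false, forall_eq, List.Pairwise.nil, and_true,
          IsEmpty.forall_iff, implies_true]; exact hB)
    (by simp only [List.mem_cons, List.not_mem_nil, or_false]; rintro P (rfl | rfl); exacts [d1, d2])
  simp only [List.map_cons, List.map_nil, List.prod_cons, List.prod_nil, mul_one] at h1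
  refine h1.trans (le_of_eq ?_)
  push_cast
  ring

/-- The factor `G` is, given the block `[c, d)` and for the window `[U, V]`, the robust event or at most `exp X` times the mass. -/
def Fac (μ : Measure ℝ) (s : ℝ) (N y : ℕ) (X M : ℝ) (c d U V : ℕ) (G : Env × Finset ℕ → Px (Pn N y) → ℝ) : Prop :=
  (∀ ω x, 0 ≤ G ω x ∧ G ω x ≤ 1) ∧
    ((∀ ω x, (G ω x ≠ 0 → Tau (wm μ s N (Pn N y) ω) (pJ c d) U V M x) ∨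
      G ω x ≤ cE2 (wm μ s N (Pn N y) ω) (pJ c d) (NI U V) x x) ∨
    ∀ ω x, G ω x ≤ Real.exp X * cE (wm μ s N (Pn N y) ω) (pJ c d) (NI U V x) x)

omit [IsProbabilityMeasure μ] in
/-- A factor is dominated by a place. -/
theorem Fac.dom {y : ℕ} {X M : ℝ} (hX : 1 ≤ X) (hM : 0 ≤ M) {c d U V : ℕ} (h1 : c ≤ U) (h2 : U ≤ V) (h3 : V ≤ d)
    {G : Env × Finset ℕ → Px (Pn N y) → ℝ} (h : Fac μ s N y X M c d U V G) (ty : Ty) :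
    ∃ T : Prop, Dom μ s N y X M ⟨c, d, c, d, U, V, V - U, ty, T⟩ G := by
  rcases h.2 with g | g
  · exact ⟨True, dom_tau hM trivial rfl rfl (by show U + (V - U) ≤ V; omega) (fun ω x => (h.1 ω x).1) (fun ω x => (h.1 ω x).2) g⟩
  · exact ⟨False, dom_mass hX (fun h => h) ⟨le_rfl, h1, h2, h3, le_rfl⟩ rfl rfl (by show U + (V - U) ≤ V; omega) (fun ω x => (h.1 ω x).1)
      (fun ω x => (h.1 ω x).2) g⟩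

theorem one_le_rp {L : ℕ} (hL : 1 ≤ L) {κ : ℝ} (hκ : 0 < κ) : (1 : ℝ) ≤ (L : ℝ) ^ κ :=
  Real.one_le_rpow (by exact_mod_cast hL) hκ.le

/-- **G9, right**: own mass or event in the block `[p₁, p₂)` on `[u, v]` behind `z`; a place given `(0, z)`; a factor in another block. -/
theorem gs_right3 (h : In μ s c₀ C₀ n₀) : ∀ ε θ : ℝ, 0 < ε → 0 < θ → ∃ δ κ c₂ : ℝ, 0 < δ ∧ 0 < κ ∧ 0 < c₂ ∧ ∃ L₀ : ℕ,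
    ∀ L : ℕ, L₀ ≤ L → ∀ N : ℕ, L ≤ 16 * N → N ≤ L → ∀ y : ℕ, y ≤ N → |(y : ℝ) - sl μ s * N| ≤ ((L : ℝ) ^ δ * wd' μ s N) →
    ∀ M : ℝ, 8 ≤ M → M ≤ (L : ℝ) ^ κ →
    ∀ p₁ p₂ z u v U₂ V₂ f₁ f₂ U₃ V₃ : ℕ, p₁ ≤ z → z ≤ u → u ≤ v → v ≤ p₂ → p₂ ≤ N → U₂ ≤ V₂ → V₂ ≤ z → f₁ ≤ U₃ → U₃ ≤ V₃ → V₃ ≤ f₂ → f₂ ≤ N → (p₂ ≤ f₁ ∨ f₂ ≤ U₂) →
    (L : ℝ) ^ θ ≤ ((v - u : ℕ) : ℝ) → (L : ℝ) ^ θ ≤ ((V₂ - U₂ : ℕ) : ℝ) → (L : ℝ) ^ θ ≤ ((V₃ - U₃ : ℕ) : ℝ) →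
    ∀ G₁ G₂ F : Env × Finset ℕ → Px (Pn N y) → ℝ, Fac μ s N y ((L : ℝ) ^ κ) M p₁ p₂ u v G₁ → Fac μ s N y ((L : ℝ) ^ κ) M 0 z U₂ V₂ G₂ → Fac μ s N y ((L : ℝ) ^ κ) M f₁ f₂ U₃ V₃ F →
    ∫ ω, gm (wm μ s N (Pn N y) ω) (fun x => G₁ ω x * G₂ ω x * F ω x) ∂(Pm μ N) ≤
      ((L : ℝ) ^ ε * (EE' μ s (v - u))⁻¹) * ((L : ℝ) ^ ε * (EE' μ s (V₂ - U₂))⁻¹) * ((L : ℝ) ^ ε * (EE' μ s (V₃ - U₃))⁻¹) +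
        (Real.exp (-(L : ℝ) ^ c₂) + 6 * Real.exp (-M)) := by
  intro ε θ hε hθ
  obtain ⟨δ, κ, c₂, hδ, hκ, hc₂, L₀, hP⟩ := gs_core3 h ε θ hε hθ
  refine ⟨δ, κ, c₂, hδ, hκ, hc₂, L₀ + 1, ?_⟩
  intro L hL N hLN hNL y hyN hyc M hM hML p₁ p₂ z u v U₂ V₂ f₁ f₂ U₃ V₃ hz hzu huv hvp hpN hU2 hV2 hf1 hU3 hV3 hfN hord hl1 hl2 hl3 G₁ G₂ F g1 g2 g3
  have hX := one_le_rp (show 1 ≤ L by omega) hκ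
  obtain ⟨T₁, d1⟩ := g1.dom hX (by linarith) (by omega) huv hvp Ty.R
  obtain ⟨T₂, d2⟩ := g2.dom hX (by linarith) (Nat.zero_le _) hU2 hV2 Ty.R
  obtain ⟨T₃, d3⟩ := g3.dom hX (by linarith) hf1 hU3 hV3 Ty.L
  refine hP L (by omega) N hLN hNL y hyN hyc M hM hML ⟨p₁, p₂, p₁, p₂, u, v, v - u, Ty.R, T₁⟩ ⟨0, z, 0, z, U₂, V₂, V₂ - U₂, Ty.R, T₂⟩
    ⟨f₁, f₂, f₁, f₂, U₃, V₃, V₃ - U₃, Ty.L, T₃⟩ G₁ G₂ F ⟨?_, hl1⟩ ⟨?_, hl2⟩ ⟨?_, hl3⟩ d1 d2 d3 ?_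
  · show p₁ ≤ p₁ ∧ p₁ ≤ u ∧ u ≤ v ∧ v ≤ p₂ ∧ p₂ ≤ p₂ ∧ p₂ ≤ N
    omega
  · show 0 ≤ 0 ∧ 0 ≤ U₂ ∧ U₂ ≤ V₂ ∧ V₂ ≤ z ∧ z ≤ z ∧ z ≤ N
    omega
  · show f₁ ≤ f₁ ∧ f₁ ≤ U₃ ∧ U₃ ≤ V₃ ∧ V₃ ≤ f₂ ∧ f₂ ≤ f₂ ∧ f₂ ≤ N
    omega
  · rcases hord with g | g
    · exact Or.inl ⟨Or.inr (Or.inl (show p₂ ≤ f₁ from g)), Or.inr (Or.inl (show z ≤ f₁ by omega)), Or.inl (show z ≤ u from hzu)⟩
    · exact Or.inr ⟨Or.inl (show z ≤ u from hzu), Or.inl (show f₂ ≤ u by omega), Or.inl (show f₂ ≤ U₂ from g)⟩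

/-- **G9, right**, without the factor `F`. -/
theorem gs_right2 (h : In μ s c₀ C₀ n₀) : ∀ ε θ : ℝ, 0 < ε → 0 < θ → ∃ δ κ c₂ : ℝ, 0 < δ ∧ 0 < κ ∧ 0 < c₂ ∧ ∃ L₀ : ℕ,
    ∀ L : ℕ, L₀ ≤ L → ∀ N : ℕ, L ≤ 16 * N → N ≤ L → ∀ y : ℕ, y ≤ N → |(y : ℝ) - sl μ s * N| ≤ ((L : ℝ) ^ δ * wd' μ s N) →
    ∀ M : ℝ, 8 ≤ M → M ≤ (L : ℝ) ^ κ →
    ∀ p₁ p₂ z u v U₂ V₂ : ℕ, p₁ ≤ z → z ≤ u → u ≤ v → v ≤ p₂ → p₂ ≤ N → U₂ ≤ V₂ → V₂ ≤ z →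
    (L : ℝ) ^ θ ≤ ((v - u : ℕ) : ℝ) → (L : ℝ) ^ θ ≤ ((V₂ - U₂ : ℕ) : ℝ) →
    ∀ G₁ G₂ : Env × Finset ℕ → Px (Pn N y) → ℝ, Fac μ s N y ((L : ℝ) ^ κ) M p₁ p₂ u v G₁ → Fac μ s N y ((L : ℝ) ^ κ) M 0 z U₂ V₂ G₂ →
    ∫ ω, gm (wm μ s N (Pn N y) ω) (fun x => G₁ ω x * G₂ ω x) ∂(Pm μ N) ≤
      ((L : ℝ) ^ ε * (EE' μ s (v - u))⁻¹) * ((L : ℝ) ^ ε * (EE' μ s (V₂ - U₂))⁻¹) +
        (Real.exp (-(L : ℝ) ^ c₂) + 4 * Real.exp (-M)) := by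
  intro ε θ hε hθ
  obtain ⟨δ, κ, c₂, hδ, hκ, hc₂, L₀, hP⟩ := gs_core2 h ε θ hε hθ
  refine ⟨δ, κ, c₂, hδ, hκ, hc₂, L₀ + 1, ?_⟩
  intro L hL N hLN hNL y hyN hyc M hM hML p₁ p₂ z u v U₂ V₂ hz hzu huv hvp hpN hU2 hV2 hl1 hl2 G₁ G₂ g1 g2
  have hX := one_le_rp (show 1 ≤ L by omega) hκ
  obtain ⟨T₁, d1⟩ := g1.dom hX (by linarith) (by omega) huv hvp Ty.R
  obtain ⟨T₂, d2⟩ := g2.dom hX (by linarith) (Nat.zero_le _) hU2 hV2 Ty.R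
  refine hP L (by omega) N hLN hNL y hyN hyc M hM hML ⟨p₁, p₂, p₁, p₂, u, v, v - u, Ty.R, T₁⟩ ⟨0, z, 0, z, U₂, V₂, V₂ - U₂, Ty.R, T₂⟩ G₁ G₂
    ⟨?_, hl1⟩ ⟨?_, hl2⟩ d1 d2 (Or.inl (show z ≤ u from hzu))
  · show p₁ ≤ p₁ ∧ p₁ ≤ u ∧ u ≤ v ∧ v ≤ p₂ ∧ p₂ ≤ p₂ ∧ p₂ ≤ N
    omega
  · show 0 ≤ 0 ∧ 0 ≤ U₂ ∧ U₂ ≤ V₂ ∧ V₂ ≤ z ∧ z ≤ z ∧ z ≤ N
    omega

/-- **G9, left**: own mass or event in the block `[p₁, p₂)` on `[u, v]` in front of `z`; a place given `(z, N)`; a factor in another block. -/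
theorem gs_left3 (h : In μ s c₀ C₀ n₀) : ∀ ε θ : ℝ, 0 < ε → 0 < θ → ∃ δ κ c₂ : ℝ, 0 < δ ∧ 0 < κ ∧ 0 < c₂ ∧ ∃ L₀ : ℕ,
    ∀ L : ℕ, L₀ ≤ L → ∀ N : ℕ, L ≤ 16 * N → N ≤ L → ∀ y : ℕ, y ≤ N → |(y : ℝ) - sl μ s * N| ≤ ((L : ℝ) ^ δ * wd' μ s N) →
    ∀ M : ℝ, 8 ≤ M → M ≤ (L : ℝ) ^ κ →
    ∀ p₁ p₂ z u v U₂ V₂ f₁ f₂ U₃ V₃ : ℕ, z ≤ p₂ → p₁ ≤ u → u ≤ v → v ≤ z → p₂ ≤ N → z ≤ U₂ → U₂ ≤ V₂ → V₂ ≤ N → f₁ ≤ U₃ → U₃ ≤ V₃ → V₃ ≤ f₂ → f₂ ≤ N → (f₂ ≤ p₁ ∨ V₂ ≤ f₁) →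
    (L : ℝ) ^ θ ≤ ((v - u : ℕ) : ℝ) → (L : ℝ) ^ θ ≤ ((V₂ - U₂ : ℕ) : ℝ) → (L : ℝ) ^ θ ≤ ((V₃ - U₃ : ℕ) : ℝ) →
    ∀ G₁ G₂ F : Env × Finset ℕ → Px (Pn N y) → ℝ, Fac μ s N y ((L : ℝ) ^ κ) M p₁ p₂ u v G₁ → Fac μ s N y ((L : ℝ) ^ κ) M z N U₂ V₂ G₂ → Fac μ s N y ((L : ℝ) ^ κ) M f₁ f₂ U₃ V₃ F →
    ∫ ω, gm (wm μ s N (Pn N y) ω) (fun x => G₁ ω x * G₂ ω x * F ω x) ∂(Pm μ N) ≤
      ((L : ℝ) ^ ε * (EE' μ s (v - u))⁻¹) * ((L : ℝ) ^ ε * (EE' μ s (V₂ - U₂))⁻¹) * ((L : ℝ) ^ ε * (EE' μ s (V₃ - U₃))⁻¹) +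
        (Real.exp (-(L : ℝ) ^ c₂) + 6 * Real.exp (-M)) := by
  intro ε θ hε hθ
  obtain ⟨δ, κ, c₂, hδ, hκ, hc₂, L₀, hP⟩ := gs_core3 h ε θ hε hθ
  refine ⟨δ, κ, c₂, hδ, hκ, hc₂, L₀ + 1, ?_⟩
  intro L hL N hLN hNL y hyN hyc M hM hML p₁ p₂ z u v U₂ V₂ f₁ f₂ U₃ V₃ hz hpu huv hvz hpN hzU hU2 hV2 hf1 hU3 hV3 hfN hord hl1 hl2 hl3 G₁ G₂ F g1 g2 g3
  have hX := one_le_rp (show 1 ≤ L by omega) hκ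
  obtain ⟨T₁, d1⟩ := g1.dom hX (by linarith) hpu huv (by omega) Ty.M
  obtain ⟨T₂, d2⟩ := g2.dom hX (by linarith) hzU hU2 hV2 Ty.M
  obtain ⟨T₃, d3⟩ := g3.dom hX (by linarith) hf1 hU3 hV3 Ty.L
  refine hP L (by omega) N hLN hNL y hyN hyc M hM hML ⟨p₁, p₂, p₁, p₂, u, v, v - u, Ty.M, T₁⟩ ⟨z, N, z, N, U₂, V₂, V₂ - U₂, Ty.M, T₂⟩
    ⟨f₁, f₂, f₁, f₂, U₃, V₃, V₃ - U₃, Ty.L, T₃⟩ G₁ G₂ F ⟨?_, hl1⟩ ⟨?_, hl2⟩ ⟨?_, hl3⟩ d1 d2 d3 ?_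
  · show p₁ ≤ p₁ ∧ p₁ ≤ u ∧ u ≤ v ∧ v ≤ p₂ ∧ p₂ ≤ p₂ ∧ p₂ ≤ N
    omega
  · show z ≤ z ∧ z ≤ U₂ ∧ U₂ ≤ V₂ ∧ V₂ ≤ N ∧ N ≤ N ∧ N ≤ N
    omega
  · show f₁ ≤ f₁ ∧ f₁ ≤ U₃ ∧ U₃ ≤ V₃ ∧ V₃ ≤ f₂ ∧ f₂ ≤ f₂ ∧ f₂ ≤ N
    omega
  · rcases hord with g | g
    · exact Or.inl ⟨Or.inl (show f₂ ≤ p₁ from g), Or.inl (show f₂ ≤ z by omega), Or.inl (show v ≤ z from hvz)⟩
    · exact Or.inr ⟨Or.inl (show v ≤ z from hvz), Or.inl (show v ≤ f₁ by omega), Or.inl (show V₂ ≤ f₁ from g)⟩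

/-- **G9, left**, without the factor `F`. -/
theorem gs_left2 (h : In μ s c₀ C₀ n₀) : ∀ ε θ : ℝ, 0 < ε → 0 < θ → ∃ δ κ c₂ : ℝ, 0 < δ ∧ 0 < κ ∧ 0 < c₂ ∧ ∃ L₀ : ℕ,
    ∀ L : ℕ, L₀ ≤ L → ∀ N : ℕ, L ≤ 16 * N → N ≤ L → ∀ y : ℕ, y ≤ N → |(y : ℝ) - sl μ s * N| ≤ ((L : ℝ) ^ δ * wd' μ s N) →
    ∀ M : ℝ, 8 ≤ M → M ≤ (L : ℝ) ^ κ →
    ∀ p₁ p₂ z u v U₂ V₂ : ℕ, z ≤ p₂ → p₁ ≤ u → u ≤ v → v ≤ z → p₂ ≤ N → z ≤ U₂ → U₂ ≤ V₂ → V₂ ≤ N →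
    (L : ℝ) ^ θ ≤ ((v - u : ℕ) : ℝ) → (L : ℝ) ^ θ ≤ ((V₂ - U₂ : ℕ) : ℝ) →
    ∀ G₁ G₂ : Env × Finset ℕ → Px (Pn N y) → ℝ, Fac μ s N y ((L : ℝ) ^ κ) M p₁ p₂ u v G₁ → Fac μ s N y ((L : ℝ) ^ κ) M z N U₂ V₂ G₂ →
    ∫ ω, gm (wm μ s N (Pn N y) ω) (fun x => G₁ ω x * G₂ ω x) ∂(Pm μ N) ≤
      ((L : ℝ) ^ ε * (EE' μ s (v - u))⁻¹) * ((L : ℝ) ^ ε * (EE' μ s (V₂ - U₂))⁻¹) +
        (Real.exp (-(L : ℝ) ^ c₂) + 4 * Real.exp (-M)) := by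
  intro ε θ hε hθ
  obtain ⟨δ, κ, c₂, hδ, hκ, hc₂, L₀, hP⟩ := gs_core2 h ε θ hε hθ
  refine ⟨δ, κ, c₂, hδ, hκ, hc₂, L₀ + 1, ?_⟩
  intro L hL N hLN hNL y hyN hyc M hM hML p₁ p₂ z u v U₂ V₂ hz hpu huv hvz hpN hzU hU2 hV2 hl1 hl2 G₁ G₂ g1 g2
  have hX := one_le_rp (show 1 ≤ L by omega) hκ
  obtain ⟨T₁, d1⟩ := g1.dom hX (by linarith) hpu huv (by omega) Ty.M
  obtain ⟨T₂, d2⟩ := g2.dom hX (by linarith) hzU hU2 hV2 Ty.M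
  refine hP L (by omega) N hLN hNL y hyN hyc M hM hML ⟨p₁, p₂, p₁, p₂, u, v, v - u, Ty.M, T₁⟩ ⟨z, N, z, N, U₂, V₂, V₂ - U₂, Ty.M, T₂⟩ G₁ G₂
    ⟨?_, hl1⟩ ⟨?_, hl2⟩ d1 d2 (Or.inl (show v ≤ z from hvz))
  · show p₁ ≤ p₁ ∧ p₁ ≤ u ∧ u ≤ v ∧ v ≤ p₂ ∧ p₂ ≤ p₂ ∧ p₂ ≤ N
    omega
  · show z ≤ z ∧ z ≤ U₂ ∧ U₂ ≤ V₂ ∧ V₂ ≤ N ∧ N ≤ N ∧ N ≤ N
    omega

end Pool.Agent.W_7d29a1_C0.P86
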