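import Pool.Agent.W_7d29a1_C0.SzF23
import Pool.Agent.W_7d29a1_C0.PrL86

/-!
CURV0 (MP_7d29a1_pr), leaf E5.8, helper38: THE PRICE OF LONG TIMES OWN, model form. `two38`: two places, weighted. `loR38`: own event (robust
pair event or mass) in the block `(c, d)` on `[o, o']`, long replica given the rows `≥ r`, `r ≤ o`, which misses the path on `[U, V]`, `V ≤ r`.
`loL38`: the mirror image.
-/

set_option autoImplicit false
set_option linter.unusedSectionVars false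
set_option linter.unusedVariables false

namespace Pool.Agent.W_7d29a1_C0.Lo38

open Finset MeasureTheory Filter Topology Pool.Agent.W_7d29a1_F Pool.Agent.W_7d29a1_X Pool.Agent.W_7d29a1_H Pool.Agent.W_7d29a1_C0.Mod92
open Pool.Agent.W_7d29a1_HS (In)
open Pool.Agent.W_7d29a1_HZ (wd' EE')
open Pool.Agent.W_7d29a1_C0 Pool.Agent.W_7d29a1_C0.Asm96 Pool.Agent.W_7d29a1_C0.Frm33
open Pool.Agent.W_7d29a1_C0.Strip80 (OffD)
open Pool.Agent.W_7d29a1_C0.Swap57 Pool.Agent.W_7d29a1_C0.Base5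
open Pool.Agent.W_7d29a1_C0.P86 (Plc Dom Ty dom_mass dom_tau price_list)
open Pool.W7d29a1.C0 Pool.W7d29a1.C0.VT31 Pool.W7d29a1.C0.R43 Pool.W7d29a1.C0.S1

noncomputable section

variable {μ : Measure ℝ} {s : ℝ}

theorem offD_mono {N y : ℕ} {J J' : Finset ℕ} {D : Env × Finset ℕ → Px (Pn N y) → ℝ} (h : OffD J D) (hJ : J' ⊆ J) : OffD J' D :=
  fun η η' A S e => h η η' A S fun q hq => e q fun hq' => hq ⟨hq'.1, hJ hq'.2⟩

/-- **The own event**: the robust pair event (`T`) or the mass of the replica of the path. -/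
def own38 {Q : Finset (Finset ℕ)} {Y : Type*} [DecidableEq Y] (T : Prop) (w : Px Q → ℝ) (p : Px Q → Y) (U V : ℕ) (M : ℝ) (x : Px Q) : ℝ := by
  classical
  exact if T then i1 (Real.exp (-(5 * M)) ≤ cE2 w p (NI U V) x x) else i1 (Real.exp (-(5 * M)) ≤ mI w p U V x)

/-- **The long event**: the replica with mass misses the path. -/
def lng38 {Q : Finset (Finset ℕ)} {Y : Type*} [DecidableEq Y] (w : Px Q → ℝ) (p : Px Q → Y) (U V : ℕ) (M : ℝ) (x : Px Q) : ℝ :=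
  i1 (Real.exp (-(5 * M)) ≤ mI w p U V x)

section Bas

variable {Q : Finset (Finset ℕ)} {Y : Type*} [DecidableEq Y] {T : Prop} {w : Px Q → ℝ} {p : Px Q → Y} {U V : ℕ} {M : ℝ}

theorem own38_nonneg (x : Px Q) : 0 ≤ own38 T w p U V M x := by
  unfold own38
  split_ifs
  · exact i1_nonneg _
  · exact i1_nonneg _

theorem own38_le_one (x : Px Q) : own38 T w p U V M x ≤ 1 := by
  unfold own38
  split_ifs
  · exact Sz23.i1_le _
  · exact Sz23.i1_le _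

theorem lng38_nonneg (x : Px Q) : 0 ≤ lng38 w p U V M x := i1_nonneg _

theorem lng38_le_one (x : Px Q) : lng38 w p U V M x ≤ 1 := Sz23.i1_le _

theorem i1_mono38 {A B : Prop} (h : A → B) : i1 A ≤ i1 B := by
  by_cases hA : A
  · rw [i1_of hA, i1_of (h hA)]
  · rw [i1_not hA]
    exact i1_nonneg _

/-- The window may be shortened, the level increased. -/
theorem own38_mono {U' V' : ℕ} {M' : ℝ} (hU : U ≤ U') (hV : V' ≤ V) (hM : M ≤ M') (x : Px Q) :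
    own38 T w p U V M x ≤ own38 T w p U' V' M' x := by
  have ne : Nonempty (Px Q) := ⟨x⟩
  have e : Real.exp (-(5 * M')) ≤ Real.exp (-(5 * M)) := Real.exp_le_exp.2 (by linarith)
  have k : ∀ a b : Px Q, NI U V a b ≤ NI U' V' a b := fun a b => by
    unfold NI
    split_ifs with h1 h2 h2
    · exact le_rfl
    · exact absurd (fun r h3 h4 => h1 r (hU.trans h3) (h4.trans hV)) h2
    · exact zero_le_one
    · exact le_rfl
  unfold own38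
  split_ifs
  · exact i1_mono38 fun h => e.trans (h.trans (cE2_mono w p k x x))
  · exact i1_mono38 fun h => e.trans (h.trans (cE_mono w p (k x) x))

theorem lng38_mono {M' : ℝ} (hM : M ≤ M') (x : Px Q) : lng38 w p U V M x ≤ lng38 w p U V M' x :=
  i1_mono38 fun h => (Real.exp_le_exp.2 (by linarith)).trans h

end Bas

section Price

variable [IsProbabilityMeasure μ] {c₀ C₀ : ℝ} {n₀ : ℕ}

/-- **Two places, weighted.** -/
theorem two38 (h : In μ s c₀ C₀ n₀) : ∀ ε θ : ℝ, 0 < ε → 0 < θ → ∃ δ κ c₂ : ℝ, 0 < δ ∧ 0 < κ ∧ 0 < c₂ ∧ ∃ L₀ : ℕ,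
    ∀ L : ℕ, L₀ ≤ L → ∀ N : ℕ, L ≤ 16 * N → N ≤ L → ∀ y : ℕ, y ≤ N → |(y : ℝ) - sl μ s * N| ≤ ((L : ℝ) ^ δ * wd' μ s N) →
    ∀ M : ℝ, 8 ≤ M → M ≤ (L : ℝ) ^ κ → ∀ (P₁ P₂ : Plc) (G₁ G₂ : Env × Finset ℕ → Px (Pn N y) → ℝ), P₁.Ok L N θ → P₂.Ok L N θ →
    P₁.Bef P₂ → Dom μ s N y ((L : ℝ) ^ κ) M P₁ G₁ → Dom μ s N y ((L : ℝ) ^ κ) M P₂ G₂ →
    ∀ (D : Env × Finset ℕ → Px (Pn N y) → ℝ) (Mh : ℝ), 0 < Mh → (∀ ω S, |D ω S| ≤ Mh) → (∀ S, Measurable fun ω => D ω S) →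
    OffD P₁.J D → OffD P₂.J D →
    ∫ ω, gm (wm μ s N (Pn N y) ω) (fun S => |D ω S| * (G₁ ω S * G₂ ω S)) ∂(Pm μ N) ≤
      ((L : ℝ) ^ ε * (EE' μ s P₁.l)⁻¹) * ((L : ℝ) ^ ε * (EE' μ s P₂.l)⁻¹) *
        (∫ ω, gm (wm μ s N (Pn N y) ω) (fun S => |D ω S|) ∂(Pm μ N)) +
        Mh * (Real.exp (-(L : ℝ) ^ c₂) + 4 * Real.exp (-M)) := by
  intro ε θ hε hθ
  obtain ⟨δ, κ, c₂, hδ, hκ, hc₂, L₀, hP⟩ := price_list h 2 (by norm_num) ε θ hε hθ
  refine ⟨δ, κ, c₂, hδ, hκ, hc₂, L₀, ?_⟩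
  intro L hL N hLN hNL y hyN hyc M hM hML P₁ P₂ G₁ G₂ ok1 ok2 hbef d1 d2 D Mh hMh hD hDm hD1 hD2
  have h1 := hP L hL N hLN hNL y hyN hyc M hM hML [(P₁, G₁), (P₂, G₂)] rfl
    (fun P hP' => by
      rcases List.mem_cons.1 hP' with rfl | hP'
      · exact ok1
      · rw [List.mem_singleton.1 hP']
        exact ok2)
    (by simpa using hbef)
    (fun P hP' => by
      rcases List.mem_cons.1 hP' with rfl | hP'
      · exact d1
      · rw [List.mem_singleton.1 hP']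
        exact d2)
    (fun ω x => |D ω x| / Mh) (fun A x => (((hDm x).comp (meas_pair A)).abs).div_const Mh) (fun ω x => by positivity)
    (fun ω x => by
      rw [div_le_one hMh]
      exact hD ω x)
    (fun P hP' η η' A x hη => by
      show |D (η, A) x| / Mh = |D (η', A) x| / Mh
      rcases List.mem_cons.1 hP' with rfl | hP'
      · rw [hD1 η η' A x hη]
      · rw [List.mem_singleton.1 hP'] at hη
        rw [hD2 η η' A x hη])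
  simp only [List.map_cons, List.map_nil, List.prod_cons, List.prod_nil, mul_one, Nat.cast_ofNat] at h1
  have e1 : ∀ ω : Env × Finset ℕ, gm (wm μ s N (Pn N y) ω) (fun x => |D ω x| / Mh * (G₁ ω x * G₂ ω x)) =
      Mh⁻¹ * gm (wm μ s N (Pn N y) ω) (fun x => |D ω x| * (G₁ ω x * G₂ ω x)) := fun ω => by
    rw [← Strip80.gm_mul_left]
    congr 1
    funext x
    rw [div_eq_inv_mul, mul_assoc]
  have e2 : ∀ ω : Env × Finset ℕ, gm (wm μ s N (Pn N y) ω) (fun x => |D ω x| / Mh) =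
      Mh⁻¹ * gm (wm μ s N (Pn N y) ω) (fun x => |D ω x|) := fun ω => by
    rw [← Strip80.gm_mul_left]
    congr 1
    funext x
    rw [div_eq_inv_mul]
  simp only [e1, e2, integral_const_mul] at h1
  have h2 := mul_le_mul_of_nonneg_left h1 hMh.le
  rw [mul_inv_cancel_left₀ hMh.ne'] at h2
  refine h2.trans (le_of_eq ?_)
  rw [mul_add, mul_left_comm, mul_inv_cancel_left₀ hMh.ne']
  ring

/-- The own event is dominated by its place. -/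
theorem dom_own {N y : ℕ} {X M : ℝ} (hX : 1 ≤ X) (hM : 0 ≤ M) (hMX : 5 * M ≤ X) (T : Prop) {c d o o' l : ℕ} (h1 : c ≤ o) (h2 : o + l ≤ o')
    (h3 : o' ≤ d) (ty : Ty) : Dom μ s N y X M ⟨c, d, c, d, o, o', l, ty, T⟩
      (fun ω x => own38 T (wm μ s N (Pn N y) ω) (pJ c d) o o' M x) := by
  by_cases hT : T
  · refine dom_tau hM hT rfl rfl h2 (fun ω x => own38_nonneg x) (fun ω x => own38_le_one x) fun ω x => Or.inl fun h => ?_
    unfold own38 at h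
    rw [if_pos hT] at h
    by_contra hn
    exact h (i1_not hn)
  · refine dom_mass hX hT ⟨le_rfl, h1, show o ≤ o' by omega, h3, le_rfl⟩ rfl rfl h2 (fun ω x => own38_nonneg x) (fun ω x => own38_le_one x)
      fun ω x => ?_
    have ne : Nonempty (Px (Pn N y)) := ⟨x⟩
    unfold own38
    rw [if_neg hT]
    have hm0 : 0 ≤ mI (wm μ s N (Pn N y) ω) (pJ c d) o o' x := cE_nonneg _ _ (fun z => NI_nonneg _ _ _ _) _
    by_cases h : Real.exp (-(5 * M)) ≤ mI (wm μ s N (Pn N y) ω) (pJ c d) o o' x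
    · rw [i1_of h]
      have h4 := mul_le_mul_of_nonneg_left h (Real.exp_pos X).le
      rw [← Real.exp_add] at h4
      refine le_trans ?_ h4
      exact Real.one_le_exp (by linarith)
    · rw [i1_not h]
      exact mul_nonneg (Real.exp_pos _).le hm0

theorem dom_lng {N y : ℕ} {X M : ℝ} (hX : 1 ≤ X) (hMX : 5 * M ≤ X) {c d o o' l : ℕ} (h1 : c ≤ o) (h2 : o + l ≤ o')
    (h3 : o' ≤ d) (ty : Ty) : Dom μ s N y X M ⟨c, d, c, d, o, o', l, ty, False⟩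
      (fun ω x => lng38 (wm μ s N (Pn N y) ω) (pJ c d) o o' M x) := by
  refine dom_mass hX (fun h => h) ⟨le_rfl, h1, show o ≤ o' by omega, h3, le_rfl⟩ rfl rfl h2 (fun ω x => lng38_nonneg x)
    (fun ω x => lng38_le_one x) fun ω x => ?_
  have ne : Nonempty (Px (Pn N y)) := ⟨x⟩
  unfold lng38
  have hm0 : 0 ≤ mI (wm μ s N (Pn N y) ω) (pJ c d) o o' x := cE_nonneg _ _ (fun z => NI_nonneg _ _ _ _) _
  by_cases h : Real.exp (-(5 * M)) ≤ mI (wm μ s N (Pn N y) ω) (pJ c d) o o' x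
  · rw [i1_of h]
    have h4 := mul_le_mul_of_nonneg_left h (Real.exp_pos X).le
    rw [← Real.exp_add] at h4
    refine le_trans ?_ h4
    exact Real.one_le_exp (by linarith)
  · rw [i1_not h]
    exact mul_nonneg (Real.exp_pos _).le hm0

/-- **OWN TIMES LONG, right**: the long replica is given the rows `≥ r`. -/
theorem loR38 (h : In μ s c₀ C₀ n₀) : ∀ ε θ : ℝ, 0 < ε → 0 < θ → ∃ δ κ c₂ : ℝ, 0 < δ ∧ 0 < κ ∧ 0 < c₂ ∧ ∃ L₀ : ℕ,
    ∀ L : ℕ, L₀ ≤ L → ∀ N : ℕ, L ≤ 16 * N → N ≤ L → ∀ y : ℕ, y ≤ N → |(y : ℝ) - sl μ s * N| ≤ ((L : ℝ) ^ δ * wd' μ s N) →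
    ∀ M : ℝ, 8 ≤ M → 5 * M ≤ (L : ℝ) ^ κ → ∀ (T : Prop) (c d o o' l a r U V l' : ℕ), c ≤ o → o + l ≤ o' → o' ≤ d → d ≤ N →
    a ≤ U → c ≤ U → U + l' ≤ V → V ≤ r → r ≤ o → (L : ℝ) ^ θ ≤ l → (L : ℝ) ^ θ ≤ l' →
    ∀ (D : Env × Finset ℕ → Px (Pn N y) → ℝ) (Mh : ℝ), 0 < Mh → (∀ ω S, |D ω S| ≤ Mh) → (∀ S, Measurable fun ω => D ω S) →
    OffD (Ioo c d) D →
    ∫ ω, gm (wm μ s N (Pn N y) ω) (fun S => |D ω S| * (own38 T (wm μ s N (Pn N y) ω) (pJ c d) o o' M S *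
        lng38 (wm μ s N (Pn N y) ω) (pJ a r) U V M S)) ∂(Pm μ N) ≤
      ((L : ℝ) ^ ε * (EE' μ s l)⁻¹) * ((L : ℝ) ^ ε * (EE' μ s l')⁻¹) *
        (∫ ω, gm (wm μ s N (Pn N y) ω) (fun S => |D ω S|) ∂(Pm μ N)) +
        Mh * (Real.exp (-(L : ℝ) ^ c₂) + 4 * Real.exp (-M)) := by
  intro ε θ hε hθ
  obtain ⟨δ, κ, c₂, hδ, hκ, hc₂, L₀, hP⟩ := two38 (μ := μ) (s := s) h ε θ hε hθ
  refine ⟨δ, κ, c₂, hδ, hκ, hc₂, L₀ + 1, ?_⟩
  intro L hL N hLN hNL y hyN hyc M hM hML T c d o o' l a r U V l' h1 h2 h3 h4 h5 h6 h7 h8 h9 hl hl' D Mh hMh hD hDm hDo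
  have hL1 : (1 : ℝ) ≤ (L : ℝ) ^ κ := Real.one_le_rpow (by exact_mod_cast (show 1 ≤ L by omega)) hκ.le
  exact hP L (by omega) N hLN hNL y hyN hyc M hM (by linarith) ⟨c, d, c, d, o, o', l, Ty.R, T⟩ ⟨a, r, a, r, U, V, l', Ty.R, False⟩ _ _
    ⟨⟨le_rfl, h1, by show o ≤ o'; omega, h3, le_rfl, h4⟩, hl⟩
    ⟨⟨le_rfl, h5, by show U ≤ V; omega, h8, le_rfl, by show r ≤ N; omega⟩, hl'⟩
    (Or.inl h9) (dom_own hL1 (by linarith) hML T h1 h2 h3 Ty.R) (dom_lng hL1 hML h5 h7 h8 Ty.R) D Mh hMh hD hDm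
    (offD_mono hDo fun n hn => by
      have hn' : o < n ∧ n < d := mem_Ioo.1 hn
      exact mem_Ioo.2 ⟨by omega, hn'.2⟩)
    (offD_mono hDo fun n hn => by
      have hn' : U < n ∧ n < r := mem_Ioo.1 hn
      exact mem_Ioo.2 ⟨by omega, by omega⟩)

/-- **OWN TIMES LONG, left**: the long replica is given the rows `≤ r`. -/
theorem loL38 (h : In μ s c₀ C₀ n₀) : ∀ ε θ : ℝ, 0 < ε → 0 < θ → ∃ δ κ c₂ : ℝ, 0 < δ ∧ 0 < κ ∧ 0 < c₂ ∧ ∃ L₀ : ℕ,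
    ∀ L : ℕ, L₀ ≤ L → ∀ N : ℕ, L ≤ 16 * N → N ≤ L → ∀ y : ℕ, y ≤ N → |(y : ℝ) - sl μ s * N| ≤ ((L : ℝ) ^ δ * wd' μ s N) →
    ∀ M : ℝ, 8 ≤ M → 5 * M ≤ (L : ℝ) ^ κ → ∀ (T : Prop) (c d o o' l r e U V l' : ℕ), c ≤ o → o + l ≤ o' → o' ≤ d → d ≤ N →
    o' ≤ r → r ≤ U → U + l' ≤ V → V ≤ d → V ≤ e → e ≤ N → (L : ℝ) ^ θ ≤ l → (L : ℝ) ^ θ ≤ l' →
    ∀ (D : Env × Finset ℕ → Px (Pn N y) → ℝ) (Mh : ℝ), 0 < Mh → (∀ ω S, |D ω S| ≤ Mh) → (∀ S, Measurable fun ω => D ω S) →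
    OffD (Ioo c d) D →
    ∫ ω, gm (wm μ s N (Pn N y) ω) (fun S => |D ω S| * (own38 T (wm μ s N (Pn N y) ω) (pJ c d) o o' M S *
        lng38 (wm μ s N (Pn N y) ω) (pJ r e) U V M S)) ∂(Pm μ N) ≤
      ((L : ℝ) ^ ε * (EE' μ s l)⁻¹) * ((L : ℝ) ^ ε * (EE' μ s l')⁻¹) *
        (∫ ω, gm (wm μ s N (Pn N y) ω) (fun S => |D ω S|) ∂(Pm μ N)) +
        Mh * (Real.exp (-(L : ℝ) ^ c₂) + 4 * Real.exp (-M)) := by
  intro ε θ hε hθ
  obtain ⟨δ, κ, c₂, hδ, hκ, hc₂, L₀, hP⟩ := two38 (μ := μ) (s := s) h ε θ hε hθ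
  refine ⟨δ, κ, c₂, hδ, hκ, hc₂, L₀ + 1, ?_⟩
  intro L hL N hLN hNL y hyN hyc M hM hML T c d o o' l r e U V l' h1 h2 h3 h4 h5 h6 h7 h8 h9 h10 hl hl' D Mh hMh hD hDm hDo
  have hL1 : (1 : ℝ) ≤ (L : ℝ) ^ κ := Real.one_le_rpow (by exact_mod_cast (show 1 ≤ L by omega)) hκ.le
  exact hP L (by omega) N hLN hNL y hyN hyc M hM (by linarith) ⟨c, d, c, d, o, o', l, Ty.M, T⟩ ⟨r, e, r, e, U, V, l', Ty.M, False⟩ _ _
    ⟨⟨le_rfl, h1, by show o ≤ o'; omega, h3, le_rfl, h4⟩, hl⟩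
    ⟨⟨le_rfl, h6, by show U ≤ V; omega, h9, le_rfl, h10⟩, hl'⟩
    (Or.inl h5) (dom_own hL1 (by linarith) hML T h1 h2 h3 Ty.M) (dom_lng hL1 hML h6 h7 h9 Ty.M) D Mh hMh hD hDm
    (offD_mono hDo fun n hn => by
      have hn' : c < n ∧ n < o' := mem_Ioo.1 hn
      exact mem_Ioo.2 ⟨hn'.1, by omega⟩)
    (offD_mono hDo fun n hn => by
      have hn' : r < n ∧ n < V := mem_Ioo.1 hn
      exact mem_Ioo.2 ⟨by omega, by omega⟩)

end Price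

end

end Pool.Agent.W_7d29a1_C0.Lo38
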