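import Pool.Agent.W_7d29a1_C0.LgO38
import Pool.Agent.W_7d29a1_C0.FlipDT4
import Pool.Agent.W_7d29a1_C0.FlipC4

/-!
CURV0 (MP_7d29a1_pr), leaf E5.8, helper38: THE FLIP OF OWN TIMES LONG (`flip_lo`): under the law of the other corner `vm`, masses at the actual
weight, the own event (mass or pair) times the long event is at most the same with larger levels under the actual law, in the mean over the ends.
-/

set_option autoImplicit false
set_option linter.unusedSectionVars false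
set_option linter.unusedVariables false

namespace Pool.Agent.W_7d29a1_C0.Lo38

open Finset MeasureTheory
open Pool.Agent.W_7d29a1_F hiding W_pos W_nonneg W_add
open Pool.Agent.W_7d29a1_X Pool.Agent.W_7d29a1_C0.Mod92 Pool.Agent.W_7d29a1_C0.Flip61 Pool.Agent.W_7d29a1_C0.FlipR4
open Pool.Agent.W_7d29a1_C0.Pin18
open Pool.Agent.W_7d29a1_C0.FlipR4.DT (flip_two vm_eq wm_wf i1_iv thr_lip thr_lt)
open Pool.Agent.W_7d29a1_C0.FlipR4.C4 (tsw_ow1)
open Pool.Agent.W_7d29a1_C0.Swap57 (NI cE2 NI_nonneg)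
open Pool.W7d29a1.C0 (gm gm_mono)
open Pool.W7d29a1.C0.VT31 (cE cE_nonneg)
open Pool.W7d29a1.C0.R43 (mI cE2_tilt cE_tilt)
open Pool.W7d29a1.C0.S1 (i1)

noncomputable section

variable {μ : Measure ℝ} {s : ℝ} {N b j : ℕ} {δ B : ℝ}

/-- The own pair mass in the class. -/
theorem tsw_own2 {c d : ℕ} (hc : c ≤ j - b) (hd : j + b ≤ d) {i k : ℕ} (hik : k ≤ j - b ∨ j + b ≤ i) {a a' : ℝ} (h : a + 1 ≤ a') :
    TSw μ s N δ B b j (fun y _ _ w ρ => Real.exp (-a) ≤ cE2 w (pJ c d) (NI i k) (ρ 0) (ρ 0))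
      (fun y _ _ w ρ => Real.exp (-a') ≤ cE2 w (pJ c d) (NI i k) (ρ 0) (ρ 0)) (2 * Real.exp a * (4 * 1)) :=
  (TSw.thr (TRep.cE2 (K' := fun _ _ => NI i k) (cov_NI (N := N) hik 0 1) hc hd 0 0) (thr_lt h)).mono (thr_lip h (by norm_num))

/-- The value behind the own event. -/
def oV38 {Q : Finset (Finset ℕ)} {Y : Type*} [DecidableEq Y] (T : Prop) (w : Px Q → ℝ) (p : Px Q → Y) (U V : ℕ) (x : Px Q) : ℝ := by
  classical
  exact if T then cE2 w p (NI U V) x x else mI w p U V x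

theorem own38_eq {Q : Finset (Finset ℕ)} {Y : Type*} [DecidableEq Y] (T : Prop) (w : Px Q → ℝ) (p : Px Q → Y) (U V : ℕ) (M : ℝ) (x : Px Q) :
    own38 T w p U V M x = i1 (Real.exp (-(5 * M)) ≤ oV38 T w p U V x) := by
  unfold own38 oV38
  by_cases hT : T
  · rw [if_pos hT, if_pos hT]
  · rw [if_neg hT, if_neg hT]

theorem tsw_oV {T : Prop} {c d : ℕ} (hc : c ≤ j - b) (hd : j + b ≤ d) {i k : ℕ} (hik : k ≤ j - b ∨ j + b ≤ i) {a a' : ℝ} (h : a + 1 ≤ a') :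
    TSw μ s N δ B b j (fun y _ _ w ρ => Real.exp (-a) ≤ oV38 T w (pJ c d) i k (ρ 0))
      (fun y _ _ w ρ => Real.exp (-a') ≤ oV38 T w (pJ c d) i k (ρ 0)) (8 * Real.exp a) := by
  unfold oV38
  by_cases hT : T
  · simp only [if_pos hT]
    exact (tsw_own2 hc hd hik h).mono (le_of_eq (by ring))
  · simp only [if_neg hT]
    exact (tsw_ow1 hc hd hik h 0).mono (by linarith [Real.exp_pos a])

theorem oV_tilt {T : Prop} {y : ℕ} {w A : Px (Pn N y) → ℝ} (hA : ∀ S, |A S| ≤ B) {c d i k : ℕ} (x : Px (Pn N y)) :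
    oV38 T (w + A) (pJ c d) i k x ≤ Real.exp (4 * B) * oV38 T w (pJ c d) i k x := by
  have n1 : Nonempty (Px (Pn N y)) := ⟨x⟩
  have hB : 0 ≤ B := (abs_nonneg _).trans (hA x)
  unfold oV38
  by_cases hT : T
  · rw [if_pos hT, if_pos hT]
    exact cE2_tilt hA _ (fun _ _ => NI_nonneg _ _ _ _) x x
  · rw [if_neg hT, if_neg hT]
    refine (cE_tilt hA _ (fun z => NI_nonneg _ _ x z) x).trans ?_
    refine mul_le_mul_of_nonneg_right (Real.exp_le_exp.2 (by linarith)) (cE_nonneg _ _ (fun z => NI_nonneg _ _ x z) _)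

section Law

variable [IsProbabilityMeasure μ] {y₀ n : ℕ} {θ ε Mh : ℝ}

/-- **THE FLIP OF OWN TIMES LONG.** -/
theorem flip_lo (hb0 : 0 < b) (hj : j + b ≤ N) (hB : 0 ≤ B) {m m' : ℝ} (hm : 5 * m + 4 * B + 1 ≤ 5 * m') (T : Prop)
    {c d o o' a r U V : ℕ} (hc : c ≤ j - b) (hd : j + b ≤ d) (ho : o' ≤ j - b ∨ j + b ≤ o) (ha : a ≤ j - b) (hr : j + b ≤ r)
    (hU : V ≤ j - b ∨ j + b ≤ U) {H : (y : ℕ) → Env × Finset ℕ → Px (Pn N y) → ℝ} (hH : Cov1 N b j H Mh) (H0 : ∀ y ω x, 0 ≤ H y ω x)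
    (hy : 1 ≤ y₀) (hn : 1 ≤ n) (hyN : y₀ + n ≤ N) (hE : FErr2 μ s N δ B b j y₀ n θ ε) :
    avy (Ico y₀ (y₀ + n)) (fun y => ∫ ω, gm (N25.vm μ s N (Pn N y) δ B b ω j) (fun x => H y ω x *
        (own38 T (wm μ s N (Pn N y) ω) (pJ c d) o o' m x * lng38 (wm μ s N (Pn N y) ω) (pJ a r) U V m x)) ∂(Pm μ N)) ≤
      avy (Ico y₀ (y₀ + n)) (fun y => ∫ ω, gm (wm μ s N (Pn N y) ω) (fun x => H y ω x *
        (own38 T (wm μ s N (Pn N y) ω) (pJ c d) o o' m' x * lng38 (wm μ s N (Pn N y) ω) (pJ a r) U V m' x)) ∂(Pm μ N)) +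
      (2 * Mh / n + (3 * (Mh * (16 * Real.exp (5 * m + 4 * B)) + 2 * Mh) * θ + 4 * Mh * ε)) := by
  have hG : TRep μ s N δ B b j (fun y ω _ _ ρ => H y ω (ρ 0)) Mh 0 := TRep.fn (CovM.of1 hH 0)
  have key := flip_two (X := fun y ω w x => oV38 T w (pJ c d) o o' x) (Y := fun y ω w x => oV38 False w (pJ a r) U V x)
    hb0 hj hB (m := m) (m' := m') (tsw_oV hc hd ho hm) (fun y ω w A hA x => oV_tilt hA x) (tsw_oV ha hr hU hm)
    (fun y ω w A hA x => oV_tilt hA x) hG (fun y ω _ _ ρ => H0 y ω (ρ 0)) hy hn hyN hE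
  simp only [vm_eq, own38_eq, i1_iv]
  have e1 : ∀ (y : ℕ) (w : Px (Pn N y) → ℝ) (M : ℝ) (x : Px (Pn N y)), lng38 w (pJ a r) U V M x =
      iv (Real.exp (-(5 * M)) ≤ oV38 False w (pJ a r) U V x) := fun y w M x => by
    unfold lng38 oV38
    rw [i1_iv, if_neg not_false]
  simp only [e1]
  refine key.trans (le_of_eq ?_)
  ring

end Law

end

end Pool.Agent.W_7d29a1_C0.Lo38
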