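import Pool.Agent.W_7d29a1_C0.LgP38
import Pool.Agent.W_7d29a1_C0.FlipR4E

/-!
CURV0 (MP_7d29a1_pr), leaf E5.8, helper38: THE FLIP OF OWN TIMES LONG AT THE CONCRETE FRAME (`flip_lo_33`).
-/

set_option autoImplicit false
set_option linter.unusedSectionVars false
set_option linter.unusedVariables false

namespace Pool.Agent.W_7d29a1_C0.Lo38

open Finset MeasureTheory Filter Topology
open Pool.Agent.W_7d29a1_F hiding W_pos W_nonneg W_add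
open Pool.Agent.W_7d29a1_X Pool.Agent.W_7d29a1_C0.Mod92 Pool.Agent.W_7d29a1_C0.Flip61 Pool.Agent.W_7d29a1_C0.FlipR4
open Pool.Agent.W_7d29a1_HS (In wd)
open Pool.Agent.W_7d29a1_C0.Frm33
open Pool.W7d29a1.C0 (gm)

noncomputable section

variable {μ : Measure ℝ} {s : ℝ} [IsProbabilityMeasure μ]

/-- The arithmetic of the error of a flip, at the exponent `11 / 2`. -/
theorem err38 {M L x θ ε n : ℝ} {Mn : ℕ} (hM : 0 ≤ M) (hL : L ≤ 1 / 3 * (M * Real.exp x)) (hn : 64 ≤ n) (hMn : n ^ 6 = Mn)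
    (hθ0 : 0 ≤ θ) (hθ : θ * Real.exp x ≤ (n ^ 8)⁻¹) (hε : ε ≤ (n ^ 8)⁻¹) :
    2 * M / Mn + (3 * L * θ + 4 * M * ε) ≤ M * n ^ (-(11 / 2) : ℝ) := by
  have hn0 : 0 < n := by linarith
  obtain ⟨z, hz⟩ : ∃ z, z = (n ^ 6)⁻¹ := ⟨_, rfl⟩
  have hz0 : 0 < z := by rw [hz]; positivity
  have e1 : n ^ (-(11 / 2) : ℝ) = n ^ (1 / 2 : ℝ) * z := by
    rw [hz, ← Real.rpow_natCast, ← Real.rpow_neg hn0.le, ← Real.rpow_add hn0]
    congr 1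
    norm_num
  have e2 : (8 : ℝ) ≤ n ^ (1 / 2 : ℝ) := by
    have h1 : ((64 : ℝ)) ^ (1 / 2 : ℝ) ≤ n ^ (1 / 2 : ℝ) := Real.rpow_le_rpow (by norm_num) hn (by norm_num)
    have h2 : ((64 : ℝ)) ^ (1 / 2 : ℝ) = 8 := by
      rw [show (64 : ℝ) = 8 ^ (2 : ℝ) by norm_num, ← Real.rpow_mul (by norm_num)]
      norm_num
    linarith
  have k1 : 2 * M / (Mn : ℝ) = 2 * M * z := by
    rw [← hMn, hz, div_eq_mul_inv]
  have k8 : (n ^ 8)⁻¹ ≤ 1 / 4096 * z := by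
    have h1 : (n ^ 8)⁻¹ = (n ^ 2)⁻¹ * z := by
      rw [hz, ← mul_inv]
      congr 1
      ring
    rw [h1]
    refine mul_le_mul_of_nonneg_right ?_ hz0.le
    rw [one_div]
    refine inv_anti₀ (by norm_num) ?_
    calc (4096 : ℝ) = 64 ^ 2 := by norm_num
      _ ≤ n ^ 2 := pow_le_pow_left₀ (by norm_num) hn 2
  have k2 : 3 * L * θ ≤ M * (n ^ 8)⁻¹ := by
    have h1 := mul_le_mul_of_nonneg_right (mul_le_mul_of_nonneg_left hL (show (0 : ℝ) ≤ 3 by norm_num)) hθ0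
    refine h1.trans ?_
    calc 3 * (1 / 3 * (M * Real.exp x)) * θ = M * (θ * Real.exp x) := by ring
      _ ≤ M * (n ^ 8)⁻¹ := mul_le_mul_of_nonneg_left hθ hM
  have k3 : 4 * M * ε ≤ 4 * M * (n ^ 8)⁻¹ := mul_le_mul_of_nonneg_left hε (by positivity)
  have k4 := mul_le_mul_of_nonneg_left k8 hM
  have k5 : 8 * (M * z) ≤ n ^ (1 / 2 : ℝ) * (M * z) := mul_le_mul_of_nonneg_right e2 (by positivity)
  have k6 : 0 ≤ M * z := by positivity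
  rw [e1, k1]
  calc 2 * M * z + (3 * L * θ + 4 * M * ε) ≤ 8 * (M * z) := by linarith
    _ ≤ n ^ (1 / 2 : ℝ) * (M * z) := k5
    _ = M * (n ^ (1 / 2 : ℝ) * z) := by ring

/-- **THE FLIP OF OWN TIMES LONG AT THE FRAME**: `b` = the base of the kick and of the flip. -/
theorem flip_lo_33 {c₁ C : ℝ} {n₀ : ℕ} (h : In μ s c₁ C n₀) {K : ℕ} (hK : 32 ≤ K) {κ : ℝ} (hκ : 0 < κ) :
    ∃ c₃ : ℝ, 0 < c₃ ∧ ∀ β : ℝ, 0 < β → ∃ γ₀ : ℝ, 0 < γ₀ ∧ ∀ γ : ℝ, 0 < γ → γ ≤ γ₀ →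
      ∀ᶠ k : ℕ in atTop, ∀ B : ℝ, B33 β k ≤ B → 16 * B ≤ ((2 ^ k : ℕ) : ℝ) ^ c₃ →
        ∀ b j : ℕ, ((2 ^ k : ℕ) : ℝ) ^ κ ≤ b → b ≤ 2 ^ k → b ≤ j → j + b ≤ L33 K k →
        ∀ m m' : ℝ, 5 * m + 4 * B + 1 ≤ 5 * m' → 10 * m ≤ ((2 ^ k : ℕ) : ℝ) ^ c₃ → ∀ (T : Prop) (c d o o' a r U V : ℕ),
        c ≤ j - b → j + b ≤ d → (o' ≤ j - b ∨ j + b ≤ o) → a ≤ j - b → j + b ≤ r → (V ≤ j - b ∨ j + b ≤ U) →
        ∀ (H : (y : ℕ) → Env × Finset ℕ → Px (Pn (L33 K k) y) → ℝ) (Mh : ℝ), Cov1 (L33 K k) b j H Mh → (∀ y ω x, 0 ≤ H y ω x) →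
        avy (ys33 μ s K k) (fun y => ∫ ω, gm (N25.vm μ s (L33 K k) (Pn (L33 K k) y) γ B b ω j) (fun x => H y ω x *
            (own38 T (wm μ s (L33 K k) (Pn (L33 K k) y) ω) (pJ c d) o o' m x *
              lng38 (wm μ s (L33 K k) (Pn (L33 K k) y) ω) (pJ a r) U V m x)) ∂(Pm μ (L33 K k))) ≤
          avy (ys33 μ s K k) (fun y => ∫ ω, gm (wm μ s (L33 K k) (Pn (L33 K k) y) ω) (fun x => H y ω x *
            (own38 T (wm μ s (L33 K k) (Pn (L33 K k) y) ω) (pJ c d) o o' m' x *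
              lng38 (wm μ s (L33 K k) (Pn (L33 K k) y) ω) (pJ a r) U V m' x)) ∂(Pm μ (L33 K k))) + Mh * ((2 ^ k : ℕ) : ℝ) ^ (-(11 / 2) : ℝ) := by
  obtain ⟨c₃, hc₃, h1⟩ := fl_33 h hK hκ 8
  refine ⟨c₃, hc₃, fun β hβ => ?_⟩
  obtain ⟨γ₀, hγ₀, h1⟩ := h1 β hβ
  refine ⟨γ₀, hγ₀, fun γ hγ hγ' => ?_⟩
  filter_upwards [h1 γ hγ hγ', ev_n one_pos 64, ev_n hκ 1, ev_n hc₃ 240] with k h2 h3 h4 h5 B hB hB16 b j hb hbn hbj hj m m' hm hm10 T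
    c d o o' a r U V e1 e2 e3 e4 e5 e6 H Mh hH H0
  rw [Real.rpow_one] at h3
  obtain ⟨⟨g1, g2⟩, h2⟩ := h2
  obtain ⟨θ, ε, hθ0, hθ, hε, hE⟩ := h2 B hB
  have hB0 : 0 ≤ B := le_trans (by unfold B33; positivity) hB
  have hb1 : 0 < b := by
    have : (1 : ℝ) ≤ b := h4.trans hb
    exact_mod_cast this
  have key := flip_lo (μ := μ) (s := s) (N := L33 K k) (δ := γ) (B := B) (y₀ := y33 μ s K k) (n := M33 k) (θ := θ) (ε := ε) hb1 hj hB0 hm T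
    e1 e2 e3 e4 e5 e6 hH H0 (by omega) Nat.one_le_two_pow (by omega) (hE b j hb hbn hbj hj)
  refine key.trans (add_le_add le_rfl ?_)
  obtain ⟨x, hx⟩ : ∃ x, x = ((2 ^ k : ℕ) : ℝ) ^ c₃ := ⟨_, rfl⟩
  rw [← hx] at hB16 hm10 hθ h5
  have hx4 : 60 ≤ Real.exp (x / 4) := by
    have h6 := Real.add_one_le_exp (x / 4)
    linarith
  have h7 : 16 * Real.exp (5 * m + 4 * B) + 2 ≤ 1 / 3 * Real.exp x := by
    have k1 : Real.exp (5 * m + 4 * B) ≤ Real.exp (3 / 4 * x) := Real.exp_le_exp.2 (by linarith)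
    have k2 : (1 : ℝ) ≤ Real.exp (3 / 4 * x) := Real.one_le_exp (by linarith)
    have k3 : Real.exp x = Real.exp (x / 4) * Real.exp (3 / 4 * x) := by
      rw [← Real.exp_add]
      congr 1
      ring
    have k4 := mul_le_mul_of_nonneg_right hx4 (Real.exp_pos (3 / 4 * x)).le
    linarith
  refine err38 hH.pos ?_ h3 (M33_real k).symm hθ0 hθ hε
  have h8 := mul_le_mul_of_nonneg_left h7 hH.pos
  linarith

end

end Pool.Agent.W_7d29a1_C0.Lo38
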