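import Pool.Agent.W_7d29a1_C0.NTopF23
import Pool.Agent.W_7d29a1_C0.Pas33

/-!
MP_7d29a1_pr, [CURV0], leaf E5 (helper46): THE INTERFACE OF THE PRICES for `N1B`, `N2B`, `MB`. A line is a functional `Ln t j D` of a tilt
`t ∈ [-1, 1]`, of a row `j` and of a passenger `D` (a weight which does not see the rows within `3 b'` of the stretch of `j`, nor the path
there, covariant for the flips of the rows of the stretch). `Pr46 x A Ln`: the price of a line, one stretch of `2 ^ (p' - 6)` rows at a time,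
uniformly in the tilt, with long loops `Bl` which do not depend on the tilt nor on the passenger; `x` = slack of the numbers, `n ^ (-A)` =
error. Rules: `Pr46.mono`, `Pr46.smul`, `Pr46.add`, `Pr46.sum`, `Pr46.of_row`. `rowN46`: from the price of a line which bounds the rows to
`RowN23`.
-/

set_option autoImplicit false
set_option linter.unusedSectionVars false
set_option linter.dupNamespace false

namespace Pool.Agent.W_7d29a1_C0.Pr46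

open Finset MeasureTheory Filter Topology
open Pool.Agent.W_7d29a1_F Pool.Agent.W_7d29a1_X
open Pool.Agent.W_7d29a1_H (EE EE_pos one_le_EE)
open Pool.Agent.W_7d29a1_HS (In wd)
open Pool.Agent.W_7d29a1_C0 Pool.Agent.W_7d29a1_C0.Mod92 Pool.Agent.W_7d29a1_C0.Asm96 Pool.Agent.W_7d29a1_C0.N38
open Pool.Agent.W_7d29a1_C0.Frm33 Pool.Agent.W_7d29a1_C0.Sz23 Pool.Agent.W_7d29a1_C0.Base5
open Pool.Agent.W_7d29a1_C0.NTop23 (avF YF RowB RowN23)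
open Pool.Agent.W_7d29a1_C0.Strip80 (OffD)
open Pool.Agent.W_7d29a1_C0.Par92 (Est Sml)
open Pool.W7d29a1.C0 (gz gm gz_pos gz_ne gm_nonneg gm_mono gm_const)
open Pool.W7d29a1.C0.Ps33
open Pool.W7d29a1.C0.VT31 (Mp)
open Pool.Agent.W_7d29a1_C0.Flip61 (Cov1)

noncomputable section

/-- A weight on (environment, signs, path), for any end `y`. -/
abbrev Wt46 (F : Frm96) (m : ℕ) : Type := (y : ℕ) → Env × Finset ℕ → Px (Pn (F.L m) y) → ℝ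

/-- The rows near the stretch `k`. -/
def J46 (l b' k : ℕ) : Finset ℕ := Ioc (k * l - 3 * b') ((k + 1) * l + 3 * b')

/-- The rows of the block. -/
abbrev rw46 (F : Frm96) (m q i : ℕ) : Finset ℕ := Rw (F.R m) (i * 2 ^ q) ((i + 1) * 2 ^ q)

/-- The rows of the stretch `k`. -/
abbrev st46 (F : Frm96) (m q i l k : ℕ) : Finset ℕ := (rw46 F m q i).filter fun j => j / l = k

/-- **A passenger of the stretch `k`**: bounded by `Mh`, measurable, not seeing the rows near the stretch, nor the path there, covariant for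
the flip of each row of the stretch. -/
structure Ps46 (F : Frm96) (m l b' k : ℕ) (D : Wt46 F m) (Mh : ℝ) : Prop where
  pos : 0 < Mh
  bdd : ∀ y ω S, |D y ω S| ≤ Mh
  mes : ∀ y S, Measurable fun ω => D y ω S
  off : ∀ y, OffD (J46 l b' k) (D y)
  mp : ∀ y ω, Mp (pJ (k * l - 3 * b') ((k + 1) * l + 3 * b')) (D y ω)
  cov : ∀ j, j / l = k → Cov1 (F.L m) b' j D Mh

theorem Ps46.bm {F : Frm96} {m l b' k : ℕ} {D : Wt46 F m} {Mh : ℝ} (h : Ps46 F m l b' k D Mh) : BM (F.ys m) D :=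
  ⟨⟨Mh, fun y _ => h.bdd y⟩, fun y _ => h.mes y⟩

/-- The absolute value of a passenger. -/
theorem Ps46.abs {F : Frm96} {m l b' k : ℕ} {D : Wt46 F m} {Mh : ℝ} (h : Ps46 F m l b' k D Mh) :
    Ps46 F m l b' k (fun y ω S => |D y ω S|) Mh where
  pos := h.pos
  bdd y ω S := by
    rw [abs_abs]
    exact h.bdd y ω S
  mes y S := (h.mes y S).abs
  off y := fun η η' A S e => by
    have := h.off y η η' A S e
    show |D y (η, A) S| = |D y (η', A) S|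
    rw [this]
  mp y ω := fun S S' e => by
    show |D y ω S| = |D y ω S'|
    rw [h.mp y ω S S' e]
  cov j hj := (h.cov j hj).abs33

variable (μ : Measure ℝ) (s : ℝ) (F : Frm96)

/-- **The long loops**: their second moments. -/
structure Lb46 (m q i l : ℕ) (A₂ T : ℝ) (Bl : ℕ → Wt46 F m) : Prop where
  bm : ∀ k, BM (F.ys m) (Bl k)
  nn : ∀ k, ∀ y ∈ F.ys m, ∀ ω S, 0 ≤ Bl k y ω S
  tot : avF μ s F m (fun y ω S => (∑ k ∈ (rw46 F m q i).image fun j => j / l, Bl k y ω S) ^ 2) ≤ T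
  one : ∀ k, avF μ s F m (fun y ω S => Bl k y ω S ^ 2) ≤ l ^ 2 * A₂

/-- **The price of a line, one stretch at a time**, uniformly in the tilt. -/
def Sb46 (m q i l b' : ℕ) (g e : ℝ) (Bl : ℕ → Wt46 F m) (Ln : ℝ → ℕ → Wt46 F m → ℝ) : Prop :=
  ∀ t : ℝ, |t| ≤ 1 → ∀ (k : ℕ) (D : Wt46 F m) (Mh : ℝ), Ps46 F m l b' k D Mh →
    ∑ j ∈ st46 F m q i l k, Ln t j D ≤
      l * g * avF μ s F m (fun y ω S => |D y ω S|) + avF μ s F m (fun y ω S => Bl k y ω S * |D y ω S|) + Mh * e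

/-- **The numbers**, with the slack `x`. -/
structure Nm46 (E : ℕ → ℝ) (Θ c : ℝ) (m p q : ℕ) (x A g A₂ T e : ℝ) : Prop where
  g0 : 0 ≤ g
  g1 : g ≤ ((2 ^ m : ℕ) : ℝ) ^ (-(c / 16) - x) / E (2 ^ q)
  A0 : 0 ≤ A₂
  A1 : A₂ ≤ ((2 ^ m : ℕ) : ℝ) ^ (c / 32 - x) / E (2 ^ p)
  T0 : 0 ≤ T
  T1 : T ≤ 2 ^ q * (E (2 ^ q) * ((2 ^ m : ℕ) : ℝ) ^ (Θ - c / 16 - x))
  e0 : 0 ≤ e
  e1 : e ≤ ((2 ^ m : ℕ) : ℝ) ^ (-A)

/-- **THE PRICE OF A LINE.** -/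
def Pr46 (E : ℕ → ℝ) (Θ c : ℝ) (m p p' q i : ℕ) (x A : ℝ) (Ln : ℝ → ℕ → Wt46 F m → ℝ) : Prop :=
  ∃ (Bl : ℕ → Wt46 F m) (g A₂ T e : ℝ), Nm46 E Θ c m p q x A g A₂ T e ∧ Lb46 μ s F m q i (2 ^ (p' - 6)) A₂ T Bl ∧
    Sb46 μ s F m q i (2 ^ (p' - 6)) (2 ^ p') g e Bl Ln

variable {μ s F}

/-! ### The average at the frame -/

section Av

variable [IsProbabilityMeasure μ] {m : ℕ} (hy : ∀ y ∈ F.ys m, y ≤ F.L m) {f g : Wt46 F m}

include hy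

theorem avF_mono (hf : BM (F.ys m) f) (hg : BM (F.ys m) g) (h : ∀ y ∈ F.ys m, ∀ ω x, f y ω x ≤ g y ω x) :
    avF μ s F m f ≤ avF μ s F m g :=
  av_mono (fun y h' => ne_Pn (hy y h')) (fun _ _ S => meas_wm S) hf hg h

theorem avF_add (hf : BM (F.ys m) f) (hg : BM (F.ys m) g) :
    avF μ s F m (fun y ω x => f y ω x + g y ω x) = avF μ s F m f + avF μ s F m g :=
  av_add (fun y h' => ne_Pn (hy y h')) (fun _ _ S => meas_wm S) hf hg

theorem avF_smul (r : ℝ) : avF μ s F m (fun y ω x => r * f y ω x) = r * avF μ s F m f :=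
  av_smul (fun y h' => ne_Pn (hy y h')) (fun _ _ S => meas_wm S) r

theorem avF_sum {ι : Type*} (J : Finset ι) {G : ι → Wt46 F m} (h : ∀ j ∈ J, BM (F.ys m) (G j)) :
    avF μ s F m (fun y ω x => ∑ j ∈ J, G j y ω x) = ∑ j ∈ J, avF μ s F m (G j) :=
  av_sum (fun y h' => ne_Pn (hy y h')) (fun _ _ S => meas_wm S) J h

theorem avF_nonneg (h : ∀ y ∈ F.ys m, ∀ ω x, 0 ≤ f y ω x) : 0 ≤ avF μ s F m f :=
  av_nonneg (fun y h' => ne_Pn (hy y h')) (fun _ _ S => meas_wm S) h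

end Av

theorem rw46_pos (m : ℕ) : (0 : ℝ) < ((2 ^ m : ℕ) : ℝ) := by positivity

/-- The rows of one stretch. -/
theorem card_st46 {l : ℕ} (hl : 0 < l) (S : Finset ℕ) (k : ℕ) : (S.filter fun j => j / l = k).card ≤ l := by
  have h1 : (S.filter fun j => j / l = k) ⊆ Ico (k * l) (k * l + l) := fun j hj => by
    have h2 := (mem_filter.1 hj).2
    rw [mem_Ico]
    constructor
    · rw [← h2]
      exact Nat.div_mul_le_self j l
    · have h3 : j / l < k + 1 := by omega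
      have := Nat.lt_mul_of_div_lt h3 hl
      rw [Nat.succ_mul] at this
      exact this
  have h3 := card_le_card h1
  rwa [Nat.card_Ico, Nat.add_sub_cancel_left] at h3

/-! ### The rules -/

section Rules

variable {E : ℕ → ℝ} {Θ c : ℝ} {m p p' q i : ℕ} {x A : ℝ} {Ln Ln' : ℝ → ℕ → Wt46 F m → ℝ}

theorem Nm46.rescale (hE : ∀ n, 0 < E n) {g A₂ T e x' A' κ : ℝ} (h : Nm46 E Θ c m p q x A g A₂ T e)
    (hκ : κ ≤ ((2 ^ m : ℕ) : ℝ) ^ (x - x')) (hA : κ ≤ ((2 ^ m : ℕ) : ℝ) ^ (A - A')) {g' A₂' T' e' : ℝ} (g0 : 0 ≤ g') (g1 : g' ≤ κ * g)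
    (A0 : 0 ≤ A₂') (A1 : A₂' ≤ κ * A₂) (T0 : 0 ≤ T') (T1 : T' ≤ κ * T) (e0 : 0 ≤ e') (e1 : e' ≤ κ * e) :
    Nm46 E Θ c m p q x' A' g' A₂' T' e' := by
  have hn := rw46_pos m
  have i1 := hE (2 ^ q)
  have i2 := hE (2 ^ p)
  refine ⟨g0, ?_, A0, ?_, T0, ?_, e0, ?_⟩
  · calc g' ≤ κ * g := g1
      _ ≤ ((2 ^ m : ℕ) : ℝ) ^ (x - x') * (((2 ^ m : ℕ) : ℝ) ^ (-(c / 16) - x) / E (2 ^ q)) :=
          mul_le_mul hκ h.g1 h.g0 (Real.rpow_nonneg hn.le _)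
      _ = ((2 ^ m : ℕ) : ℝ) ^ (x - x' + (-(c / 16) - x)) / E (2 ^ q) := by
          rw [Real.rpow_add hn]
          ring
      _ = _ := by ring_nf
  · calc A₂' ≤ κ * A₂ := A1
      _ ≤ ((2 ^ m : ℕ) : ℝ) ^ (x - x') * (((2 ^ m : ℕ) : ℝ) ^ (c / 32 - x) / E (2 ^ p)) :=
          mul_le_mul hκ h.A1 h.A0 (Real.rpow_nonneg hn.le _)
      _ = ((2 ^ m : ℕ) : ℝ) ^ (x - x' + (c / 32 - x)) / E (2 ^ p) := by
          rw [Real.rpow_add hn]
          ring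
      _ = _ := by ring_nf
  · calc T' ≤ κ * T := T1
      _ ≤ ((2 ^ m : ℕ) : ℝ) ^ (x - x') * (2 ^ q * (E (2 ^ q) * ((2 ^ m : ℕ) : ℝ) ^ (Θ - c / 16 - x))) :=
          mul_le_mul hκ h.T1 h.T0 (Real.rpow_nonneg hn.le _)
      _ = 2 ^ q * (E (2 ^ q) * ((2 ^ m : ℕ) : ℝ) ^ (x - x' + (Θ - c / 16 - x))) := by
          rw [Real.rpow_add hn (x - x')]
          ring
      _ = _ := by ring_nf
  · calc e' ≤ κ * e := e1
      _ ≤ ((2 ^ m : ℕ) : ℝ) ^ (A - A') * ((2 ^ m : ℕ) : ℝ) ^ (-A) := mul_le_mul hA h.e1 h.e0 (Real.rpow_nonneg hn.le _)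
      _ = ((2 ^ m : ℕ) : ℝ) ^ (A - A' + -A) := by rw [Real.rpow_add hn]
      _ = _ := by ring_nf

/-- A smaller line. -/
theorem Pr46.mono (h : Pr46 μ s F E Θ c m p p' q i x A Ln)
    (hL : ∀ t : ℝ, |t| ≤ 1 → ∀ k j D Mh, Ps46 F m (2 ^ (p' - 6)) (2 ^ p') k D Mh → j ∈ st46 F m q i (2 ^ (p' - 6)) k →
      Ln' t j D ≤ Ln t j D) : Pr46 μ s F E Θ c m p p' q i x A Ln' := by
  obtain ⟨Bl, g, A₂, T, e, hN, hB, hS⟩ := h
  exact ⟨Bl, g, A₂, T, e, hN, hB, fun t ht k D Mh hD => (sum_le_sum fun j hj => hL t ht k j D Mh hD hj).trans (hS t ht k D Mh hD)⟩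

/-- Less slack. -/
theorem Pr46.weaken (hE : ∀ n, 0 < E n) (h : Pr46 μ s F E Θ c m p p' q i x A Ln) {x' A' : ℝ} (hx : x' ≤ x) (hA : A' ≤ A) :
    Pr46 μ s F E Θ c m p p' q i x' A' Ln := by
  obtain ⟨Bl, g, A₂, T, e, hN, hB, hS⟩ := h
  refine ⟨Bl, g, A₂, T, e, hN.rescale hE (Real.one_le_rpow (n_ge1 m) (by linarith)) (Real.one_le_rpow (n_ge1 m) (by linarith))
    hN.g0 (one_mul g).ge hN.A0 (one_mul A₂).ge hN.T0 (one_mul T).ge hN.e0 (one_mul e).ge, hB, hS⟩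

variable [IsProbabilityMeasure μ] (hy : ∀ y ∈ F.ys m, y ≤ F.L m) (hE : ∀ n, 0 < E n)

include hy hE

/-- The zero line. -/
theorem Pr46.zero : Pr46 μ s F E Θ c m p p' q i x A fun _ _ _ => 0 := by
  have hn := rw46_pos m
  have i1 := hE (2 ^ q)
  have i2 := hE (2 ^ p)
  have a0 : avF μ s F m (fun _ _ _ => (0 : ℝ)) = 0 := by
    have := avF_smul (μ := μ) (s := s) hy (f := fun _ _ _ => (0 : ℝ)) 0
    simpa only [zero_mul] using this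
  refine ⟨fun _ _ _ _ => 0, 0, 0, 0, 0, ⟨le_rfl, by positivity, le_rfl, by positivity, le_rfl, by positivity, le_rfl, by positivity⟩,
    ⟨fun _ => BM.zero, fun _ _ _ _ _ => le_rfl, ?_, fun _ => ?_⟩, fun t ht k D Mh hD => ?_⟩
  · simp only [sum_const_zero, ne_eq, OfNat.ofNat_ne_zero, not_false_eq_true, zero_pow]
    exact a0.le
  · simp only [ne_eq, OfNat.ofNat_ne_zero, not_false_eq_true, zero_pow, mul_zero]
    exact a0.le
  · simp only [sum_const_zero, mul_zero, zero_mul, a0, add_zero]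
    exact le_rfl

/-- **A constant times a line.** -/
theorem Pr46.smul (h : Pr46 μ s F E Θ c m p p' q i x A Ln) {r z : ℝ} (hr : 0 ≤ r) (hz : 0 ≤ z) (hrz : r ≤ ((2 ^ m : ℕ) : ℝ) ^ z) :
    Pr46 μ s F E Θ c m p p' q i (x - 2 * z) (A - 2 * z) fun t j D => r * Ln t j D := by
  obtain ⟨Bl, g, A₂, T, e, hN, hB, hS⟩ := h
  have hn1 := n_ge1 m
  have hn := rw46_pos m
  obtain ⟨κ, hκ⟩ : ∃ κ : ℝ, κ = max 1 r ^ 2 := ⟨_, rfl⟩
  have hm1 : 1 ≤ max 1 r := le_max_left _ _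
  have hmr : r ≤ max 1 r := le_max_right _ _
  have hm : max 1 r ≤ ((2 ^ m : ℕ) : ℝ) ^ z := max_le (Real.one_le_rpow hn1 hz) hrz
  have hκ1 : max 1 r ≤ κ := by
    rw [hκ, sq]
    exact le_mul_of_one_le_left (zero_le_one.trans hm1) hm1
  have hκr : r ≤ κ := hmr.trans hκ1
  have hκr2 : r ^ 2 ≤ κ := by
    rw [hκ]
    exact pow_le_pow_left₀ hr hmr 2
  have hκ0 : 0 ≤ κ := hr.trans hκr
  have hκn : κ ≤ ((2 ^ m : ℕ) : ℝ) ^ (2 * z) := by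
    have e1 : ((2 ^ m : ℕ) : ℝ) ^ (2 * z) = (((2 ^ m : ℕ) : ℝ) ^ z) ^ 2 := by
      rw [← Real.rpow_natCast, ← Real.rpow_mul hn.le]
      congr 1
      push_cast
      ring
    rw [hκ, e1]
    exact pow_le_pow_left₀ (zero_le_one.trans hm1) hm 2
  refine ⟨fun k y ω S => r * Bl k y ω S, r * g, r ^ 2 * A₂, r ^ 2 * T, r * e, hN.rescale hE (κ := κ) (by
    rw [show x - (x - 2 * z) = 2 * z by ring]; exact hκn) (by rw [show A - (A - 2 * z) = 2 * z by ring]; exact hκn)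
    (mul_nonneg hr hN.g0) (mul_le_mul_of_nonneg_right hκr hN.g0) (mul_nonneg (sq_nonneg r) hN.A0)
    (mul_le_mul_of_nonneg_right hκr2 hN.A0) (mul_nonneg (sq_nonneg r) hN.T0) (mul_le_mul_of_nonneg_right hκr2 hN.T0)
    (mul_nonneg hr hN.e0) (mul_le_mul_of_nonneg_right hκr hN.e0),
    ⟨fun k => (hB.bm k).smul r, fun k y h' ω S => mul_nonneg hr (hB.nn k y h' ω S), ?_, fun k => ?_⟩, fun t ht k D Mh hD => ?_⟩
  · have e1 : (fun (y : ℕ) (ω : Env × Finset ℕ) (S : Px (Pn (F.L m) y)) =>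
        (∑ k ∈ (rw46 F m q i).image fun j => j / 2 ^ (p' - 6), r * Bl k y ω S) ^ 2) =
        fun y ω S => r ^ 2 * (∑ k ∈ (rw46 F m q i).image fun j => j / 2 ^ (p' - 6), Bl k y ω S) ^ 2 := by
      funext y ω S
      rw [← mul_sum, mul_pow]
    rw [e1, avF_smul hy]
    exact mul_le_mul_of_nonneg_left hB.tot (sq_nonneg r)
  · have e1 : (fun (y : ℕ) (ω : Env × Finset ℕ) (S : Px (Pn (F.L m) y)) => (r * Bl k y ω S) ^ 2) =
        fun y ω S => r ^ 2 * Bl k y ω S ^ 2 := by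
      funext y ω S
      rw [mul_pow]
    rw [e1, avF_smul hy, mul_left_comm]
    exact mul_le_mul_of_nonneg_left (hB.one k) (sq_nonneg r)
  · have e1 : (fun (y : ℕ) (ω : Env × Finset ℕ) (S : Px (Pn (F.L m) y)) => r * Bl k y ω S * |D y ω S|) =
        fun y ω S => r * (Bl k y ω S * |D y ω S|) := by
      funext y ω S
      ring
    rw [← mul_sum, e1, avF_smul hy]
    refine (mul_le_mul_of_nonneg_left (hS t ht k D Mh hD) hr).trans (le_of_eq ?_)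
    ring

/-- **The sum of two lines.** -/
theorem Pr46.add (h : Pr46 μ s F E Θ c m p p' q i x A Ln) (h' : Pr46 μ s F E Θ c m p p' q i x A Ln') {z : ℝ}
    (hz : 4 ≤ ((2 ^ m : ℕ) : ℝ) ^ z) : Pr46 μ s F E Θ c m p p' q i (x - z) (A - z) fun t j D => Ln t j D + Ln' t j D := by
  obtain ⟨Bl, g, A₂, T, e, hN, hB, hS⟩ := h
  obtain ⟨Bl', g', A₂', T', e', hN', hB', hS'⟩ := h'
  obtain ⟨g₀, hg₀⟩ : ∃ t, t = max g g' := ⟨_, rfl⟩
  obtain ⟨A₀, hA₀⟩ : ∃ t, t = max A₂ A₂' := ⟨_, rfl⟩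
  obtain ⟨T₀, hT₀⟩ : ∃ t, t = max T T' := ⟨_, rfl⟩
  obtain ⟨e₀, he₀⟩ : ∃ t, t = max e e' := ⟨_, rfl⟩
  have a1 : g ≤ g₀ := hg₀ ▸ le_max_left _ _
  have a2 : g' ≤ g₀ := hg₀ ▸ le_max_right _ _
  have b1 : A₂ ≤ A₀ := hA₀ ▸ le_max_left _ _
  have b2 : A₂' ≤ A₀ := hA₀ ▸ le_max_right _ _
  have c1 : T ≤ T₀ := hT₀ ▸ le_max_left _ _
  have c2 : T' ≤ T₀ := hT₀ ▸ le_max_right _ _
  have d1 : e ≤ e₀ := he₀ ▸ le_max_left _ _
  have d2 : e' ≤ e₀ := he₀ ▸ le_max_right _ _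
  have q1 := hN.g0
  have q2 := hN.A0
  have q3 := hN.T0
  have q4 := hN.e0
  have q1' := hN'.g0
  have q2' := hN'.A0
  have q3' := hN'.T0
  have q4' := hN'.e0
  have hN₀ : Nm46 E Θ c m p q x A g₀ A₀ T₀ e₀ := ⟨q1.trans a1, hg₀ ▸ max_le hN.g1 hN'.g1, q2.trans b1, hA₀ ▸ max_le hN.A1 hN'.A1,
    q3.trans c1, hT₀ ▸ max_le hN.T1 hN'.T1, q4.trans d1, he₀ ▸ max_le hN.e1 hN'.e1⟩
  have hsq : ∀ k, BM (F.ys m) fun y ω S => 2 * (Bl k y ω S ^ 2) := fun k => ((hB.bm k).sq).smul 2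
  have hsq' : ∀ k, BM (F.ys m) fun y ω S => 2 * (Bl' k y ω S ^ 2) := fun k => ((hB'.bm k).sq).smul 2
  obtain ⟨I, hI⟩ : ∃ I : Finset ℕ, I = (rw46 F m q i).image fun j => j / 2 ^ (p' - 6) := ⟨_, rfl⟩
  have hsI : BM (F.ys m) fun y ω S => ∑ k ∈ I, Bl k y ω S := BM.sum I fun k _ => hB.bm k
  have hsI' : BM (F.ys m) fun y ω S => ∑ k ∈ I, Bl' k y ω S := BM.sum I fun k _ => hB'.bm k
  refine ⟨fun k y ω S => Bl k y ω S + Bl' k y ω S, g + g', 2 * A₂ + 2 * A₂', 2 * T + 2 * T', e + e', hN₀.rescale hE (κ := 4)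
    (by rw [show x - (x - z) = z by ring]; exact hz) (by rw [show A - (A - z) = z by ring]; exact hz)
    (by linarith) (by linarith) (by linarith) (by linarith) (by linarith) (by linarith) (by linarith) (by linarith),
    ⟨fun k => (hB.bm k).add (hB'.bm k), fun k y h' ω S => add_nonneg (hB.nn k y h' ω S) (hB'.nn k y h' ω S), ?_, fun k => ?_⟩,
    fun t ht k D Mh hD => ?_⟩
  · have t1 := hB.tot
    have t2 := hB'.tot
    rw [← hI] at t1 t2 ⊢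
    have hb : BM (F.ys m) fun y ω S => (∑ k ∈ I, (Bl k y ω S + Bl' k y ω S)) ^ 2 :=
      BM.sq (BM.sum I fun k _ => (hB.bm k).add (hB'.bm k))
    refine (avF_mono hy (g := fun y ω S => 2 * (∑ k ∈ I, Bl k y ω S) ^ 2 + 2 * (∑ k ∈ I, Bl' k y ω S) ^ 2) hb
      ((hsI.sq.smul 2).add (hsI'.sq.smul 2)) fun y _ ω S => ?_).trans ?_
    · rw [sum_add_distrib]
      nlinarith [sq_nonneg ((∑ k ∈ I, Bl k y ω S) - ∑ k ∈ I, Bl' k y ω S)]
    · rw [avF_add hy (f := fun y ω S => 2 * (∑ k ∈ I, Bl k y ω S) ^ 2) (hsI.sq.smul 2) (hsI'.sq.smul 2), avF_smul hy, avF_smul hy]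
      linarith
  · have t1 := hB.one k
    have t2 := hB'.one k
    refine (avF_mono hy (g := fun y ω S => 2 * (Bl k y ω S ^ 2) + 2 * (Bl' k y ω S ^ 2)) (BM.sq ((hB.bm k).add (hB'.bm k)))
      ((hsq k).add (hsq' k)) fun y _ ω S => ?_).trans ?_
    · nlinarith [sq_nonneg (Bl k y ω S - Bl' k y ω S)]
    · rw [avF_add hy (f := fun y ω S => 2 * (Bl k y ω S ^ 2)) (hsq k) (hsq' k), avF_smul hy, avF_smul hy]
      linarith
  · have hDa : BM (F.ys m) fun y ω S => |D y ω S| := hD.bm.abs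
    have e1 : (fun (y : ℕ) (ω : Env × Finset ℕ) (S : Px (Pn (F.L m) y)) => (Bl k y ω S + Bl' k y ω S) * |D y ω S|) =
        fun y ω S => Bl k y ω S * |D y ω S| + Bl' k y ω S * |D y ω S| := by
      funext y ω S
      ring
    rw [sum_add_distrib, e1, avF_add hy (f := fun y ω S => Bl k y ω S * |D y ω S|) ((hB.bm k).mul hDa) ((hB'.bm k).mul hDa)]
    refine (add_le_add (hS t ht k D Mh hD) (hS' t ht k D Mh hD)).trans (le_of_eq ?_)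
    ring

/-- **The sum of a finite family of lines.** -/
theorem Pr46.sum {ι : Type*} (I : Finset ι) {Lf : ι → ℝ → ℕ → Wt46 F m → ℝ} (h : ∀ a ∈ I, Pr46 μ s F E Θ c m p p' q i x A (Lf a))
    {z : ℝ} (hz0 : 0 ≤ z) (hz : 4 ≤ ((2 ^ m : ℕ) : ℝ) ^ z) :
    Pr46 μ s F E Θ c m p p' q i (x - I.card * z) (A - I.card * z) fun t j D => ∑ a ∈ I, Lf a t j D := by
  classical
  induction I using Finset.induction_on with
  | empty =>
    simp only [sum_empty]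
    exact Pr46.zero hy hE
  | insert a I ha ih =>
    have h1 := ih fun b hb => h b (mem_insert_of_mem hb)
    have h2 : Pr46 μ s F E Θ c m p p' q i (x - I.card * z) (A - I.card * z) (Lf a) :=
      (h a (mem_insert_self a I)).weaken hE (by nlinarith [mul_nonneg (Nat.cast_nonneg (α := ℝ) I.card) hz0])
        (by nlinarith [mul_nonneg (Nat.cast_nonneg (α := ℝ) I.card) hz0])
    have h3 := h2.add hy hE h1 hz
    have e1 : x - I.card * z - z = x - ((insert a I).card : ℕ) * z := by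
      rw [card_insert_of_notMem ha]
      push_cast
      ring
    have e2 : A - I.card * z - z = A - ((insert a I).card : ℕ) * z := by
      rw [card_insert_of_notMem ha]
      push_cast
      ring
    rw [e1, e2] at h3
    refine h3.mono fun t _ k j D Mh _ _ => le_of_eq ?_
    rw [sum_insert ha]

/-- A smaller line, up to an error for each row. -/
theorem Pr46.mono_err (h : Pr46 μ s F E Θ c m p p' q i x A Ln) (hp : p' ≤ m + 6) {e : ℝ} (e0 : 0 ≤ e)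
    (e1 : e ≤ ((2 ^ m : ℕ) : ℝ) ^ (-A - 1)) {z : ℝ} (hz : 4 ≤ ((2 ^ m : ℕ) : ℝ) ^ z)
    (hL : ∀ t : ℝ, |t| ≤ 1 → ∀ k j D Mh, Ps46 F m (2 ^ (p' - 6)) (2 ^ p') k D Mh → j ∈ st46 F m q i (2 ^ (p' - 6)) k →
      Ln' t j D ≤ Ln t j D + Mh * e) : Pr46 μ s F E Θ c m p p' q i (x - z) (A - z) Ln' := by
  obtain ⟨Bl, g, A₂, T, e', hN, hB, hS⟩ := h
  have hn := rw46_pos m
  have hn1 := n_ge1 m
  have hl : (((2 ^ (p' - 6) : ℕ) : ℝ)) ≤ ((2 ^ m : ℕ) : ℝ) := by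
    exact_mod_cast Nat.pow_le_pow_right two_pos (by omega)
  have hl0 : (0 : ℝ) ≤ ((2 ^ (p' - 6) : ℕ) : ℝ) := by positivity
  have he : ((2 ^ (p' - 6) : ℕ) : ℝ) * e ≤ ((2 ^ m : ℕ) : ℝ) ^ (-A) := by
    calc ((2 ^ (p' - 6) : ℕ) : ℝ) * e ≤ ((2 ^ m : ℕ) : ℝ) ^ (1 : ℝ) * ((2 ^ m : ℕ) : ℝ) ^ (-A - 1) := by
          rw [Real.rpow_one]
          exact mul_le_mul hl e1 e0 hn.le
      _ = ((2 ^ m : ℕ) : ℝ) ^ (-A) := by
          rw [← Real.rpow_add hn]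
          congr 1
          ring
  have hN₀ : Nm46 E Θ c m p q x A g A₂ T (((2 ^ m : ℕ) : ℝ) ^ (-A)) := ⟨hN.g0, hN.g1, hN.A0, hN.A1, hN.T0, hN.T1,
    Real.rpow_nonneg hn.le _, le_rfl⟩
  have q1 := hN.g0
  have q2 := hN.A0
  have q3 := hN.T0
  have q4 := hN.e0
  have q5 := hN.e1
  have q6 : 0 ≤ ((2 ^ (p' - 6) : ℕ) : ℝ) * e := mul_nonneg hl0 e0
  refine ⟨Bl, g, A₂, T, e' + ((2 ^ (p' - 6) : ℕ) : ℝ) * e, hN₀.rescale hE (κ := 4)
    (by rw [show x - (x - z) = z by ring]; exact hz) (by rw [show A - (A - z) = z by ring]; exact hz)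
    q1 (by linarith) q2 (by linarith) q3 (by linarith) (by linarith) (by linarith), hB, fun t ht k D Mh hD => ?_⟩
  have hc : ((st46 F m q i (2 ^ (p' - 6)) k).card : ℝ) ≤ ((2 ^ (p' - 6) : ℕ) : ℝ) := by
    exact_mod_cast card_st46 (pow_pos two_pos _) _ _
  refine (sum_le_sum fun j hj => hL t ht k j D Mh hD hj).trans ?_
  rw [sum_add_distrib, sum_const, nsmul_eq_mul]
  refine (add_le_add (hS t ht k D Mh hD) (mul_le_mul_of_nonneg_right hc (mul_nonneg hD.pos.le e0))).trans (le_of_eq ?_)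
  ring

/-- **A price for each row**, no long loops. -/
theorem Pr46.of_row (hp : p' ≤ m + 6) {g e : ℝ} (g0 : 0 ≤ g) (g1 : g ≤ ((2 ^ m : ℕ) : ℝ) ^ (-(c / 16) - x) / E (2 ^ q)) (e0 : 0 ≤ e)
    (e1 : e ≤ ((2 ^ m : ℕ) : ℝ) ^ (-A - 1))
    (h : ∀ t : ℝ, |t| ≤ 1 → ∀ k j D Mh, Ps46 F m (2 ^ (p' - 6)) (2 ^ p') k D Mh → j ∈ st46 F m q i (2 ^ (p' - 6)) k →
      Ln t j D ≤ g * avF μ s F m (fun y ω S => |D y ω S|) + Mh * e) : Pr46 μ s F E Θ c m p p' q i x A Ln := by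
  have hn := rw46_pos m
  have i1 := hE (2 ^ q)
  have i2 := hE (2 ^ p)
  have a0 : avF μ s F m (fun _ _ _ => (0 : ℝ)) = 0 := by
    have := avF_smul (μ := μ) (s := s) hy (f := fun _ _ _ => (0 : ℝ)) 0
    simpa only [zero_mul] using this
  have hl : (((2 ^ (p' - 6) : ℕ) : ℝ)) ≤ ((2 ^ m : ℕ) : ℝ) := by
    exact_mod_cast Nat.pow_le_pow_right two_pos (by omega)
  refine ⟨fun _ _ _ _ => 0, g, 0, 0, ((2 ^ (p' - 6) : ℕ) : ℝ) * e, ⟨g0, g1, le_rfl, by positivity, le_rfl, by positivity,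
    by positivity, ?_⟩, ⟨fun _ => BM.zero, fun _ _ _ _ _ => le_rfl, ?_, fun _ => ?_⟩, fun t ht k D Mh hD => ?_⟩
  · calc ((2 ^ (p' - 6) : ℕ) : ℝ) * e ≤ ((2 ^ m : ℕ) : ℝ) ^ (1 : ℝ) * ((2 ^ m : ℕ) : ℝ) ^ (-A - 1) := by
          rw [Real.rpow_one]
          exact mul_le_mul hl e1 e0 hn.le
      _ = ((2 ^ m : ℕ) : ℝ) ^ (-A) := by
          rw [← Real.rpow_add hn]
          congr 1
          ring
  · simp only [sum_const_zero, ne_eq, OfNat.ofNat_ne_zero, not_false_eq_true, zero_pow]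
    exact a0.le
  · simp only [ne_eq, OfNat.ofNat_ne_zero, not_false_eq_true, zero_pow, mul_zero]
    exact a0.le
  · simp only [zero_mul, a0, add_zero]
    have hDn : 0 ≤ avF μ s F m (fun y ω S => |D y ω S|) := avF_nonneg hy fun y _ ω S => abs_nonneg _
    have hc : ((st46 F m q i (2 ^ (p' - 6)) k).card : ℝ) ≤ ((2 ^ (p' - 6) : ℕ) : ℝ) := by
      exact_mod_cast card_st46 (pow_pos two_pos _) _ _
    have hr : 0 ≤ g * avF μ s F m (fun y ω S => |D y ω S|) + Mh * e := add_nonneg (mul_nonneg g0 hDn) (mul_nonneg hD.pos.le e0)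
    refine (sum_le_sum fun j hj => h t ht k j D Mh hD hj).trans ?_
    rw [sum_const, nsmul_eq_mul]
    refine (mul_le_mul_of_nonneg_right hc hr).trans (le_of_eq ?_)
    push_cast
    ring

end Rules

/-! ### The end -/

section End

variable {m p p' q i l : ℕ}

/-- The three families are families of passengers. -/
theorem pas_I5 (k₀ : Fin 3) (hB : 0 ≤ F.B m) (hpp : p ≤ p') (hb0 : F.b0 m p ≤ 2 ^ p) :
    PasF33 (F.L m) (2 ^ p') (K5 (F.B m)) fun j y ω => I5 μ s F k₀ m p p' y ω j := by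
  have h1 : 2 ^ p ≤ 2 ^ p' := Nat.pow_le_pow_right two_pos hpp
  have h2 : 0 < 2 ^ p' := pow_pos two_pos _
  fin_cases k₀
  · exact pas_N5e h2 hb0 h1 F.dl hB
  · exact pas_N25e h2 hb0 h1 F.dl hB
  · exact pas_srM5e h2 hb0 h1 F.dl hB

/-- **The sum over the far rows is a passenger.** -/
theorem ps_YF (k₀ : Fin 3) (hB : 0 ≤ F.B m) (hpp : p ≤ p') (hb0 : F.b0 m p ≤ 2 ^ p) (hL : ∀ j ∈ rw46 F m q i, j + 2 ^ p' ≤ F.L m)
    {l : ℕ} (hl : 0 < l) (k : ℕ) {Mh : ℝ} (hM : 0 < Mh) (hMh : ((rw46 F m q i).card : ℝ) * K5 (F.B m) ≤ Mh) :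
    Ps46 F m l (2 ^ p') k (YF F m q i l (4 * 2 ^ p') k fun y ω j => I5 μ s F k₀ m p p' y ω j) Mh := by
  have hI := pas_I5 (μ := μ) (s := s) (F := F) k₀ hB hpp hb0
  refine ⟨hM, fun y ω S => (yf_bdd hI (rw46 F m q i) l k y ω S).trans hMh, fun y S => yf_mes hI (rw46 F m q i) l k y S,
    fun y => yf_off hI (rw46 F m q i) l k y fun n hn => ?_, fun y ω => yf_mp hI (rw46 F m q i) l k y ω,
    fun j hj => (yf_cov hI hL hl hj).mono hMh⟩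
  unfold J46 at hn
  rw [mem_Ioc] at hn
  exact hn

/-- **The rows of the family are bounded by the line**, one stretch at a time: what is true for the sum of the lines at each tilt is true
for the sum of the rows. -/
def Rb46 (μ : Measure ℝ) (s : ℝ) (F : Frm96) (k₀ : Fin 3) (m p p' q i : ℕ) (e₁ : ℝ) (Ln : ℝ → ℕ → Wt46 F m → ℝ) : Prop :=
  ∀ (k : ℕ) (C : ℝ),
    (∀ t : ℝ, |t| ≤ 1 → ∑ j ∈ st46 F m q i (2 ^ (p' - 6)) k,
      Ln t j (YF F m q i (2 ^ (p' - 6)) (4 * 2 ^ p') k fun y ω j => I5 μ s F k₀ m p p' y ω j) ≤ C) →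
    ∑ j ∈ st46 F m q i (2 ^ (p' - 6)) k, avF μ s F m (fun y ω S => I5 μ s F k₀ m p p' y ω j S *
      YF F m q i (2 ^ (p' - 6)) (4 * 2 ^ p') k (fun y ω j => I5 μ s F k₀ m p p' y ω j) y ω S) ≤ C + e₁

/-- Row by row, no tilt. -/
theorem rb46_of_row {e e₁ : ℝ} {k₀ : Fin 3} {Ln : ℕ → Wt46 F m → ℝ} (he : 0 ≤ e) (he₁ : ((2 ^ (p' - 6) : ℕ) : ℝ) * e ≤ e₁)
    (hrow : ∀ k, ∀ j ∈ st46 F m q i (2 ^ (p' - 6)) k,
      avF μ s F m (fun y ω S => I5 μ s F k₀ m p p' y ω j S *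
        YF F m q i (2 ^ (p' - 6)) (4 * 2 ^ p') k (fun y ω j => I5 μ s F k₀ m p p' y ω j) y ω S) ≤
      Ln j (YF F m q i (2 ^ (p' - 6)) (4 * 2 ^ p') k fun y ω j => I5 μ s F k₀ m p p' y ω j) + e) :
    Rb46 μ s F k₀ m p p' q i e₁ fun _ => Ln := fun k C hC => by
  have hc : ((st46 F m q i (2 ^ (p' - 6)) k).card : ℝ) ≤ ((2 ^ (p' - 6) : ℕ) : ℝ) := by
    exact_mod_cast card_st46 (pow_pos two_pos _) _ _
  refine (sum_le_sum fun j hj => hrow k j hj).trans ?_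
  rw [sum_add_distrib, sum_const, nsmul_eq_mul]
  exact add_le_add (hC 0 (by rw [abs_zero]; exact zero_le_one)) ((mul_le_mul_of_nonneg_right hc he).trans he₁)

/-- **THE END at a fixed length**: the price of a line which bounds the rows gives the row estimate. -/
theorem rowB46 [IsProbabilityMeasure μ] {E : ℕ → ℝ} {Θ c : ℝ} {A e₁ Mh : ℝ} (k₀ : Fin 3) (hB : 0 ≤ F.B m) (hpp : p ≤ p')
    (hb0 : F.b0 m p ≤ 2 ^ p) (hL : ∀ j ∈ rw46 F m q i, j + 2 ^ p' ≤ F.L m) (hM : 0 < Mh)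
    (hMh : ((rw46 F m q i).card : ℝ) * K5 (F.B m) ≤ Mh) {Ln : ℝ → ℕ → Wt46 F m → ℝ} (he₁ : 0 ≤ e₁)
    (hN : Mh * ((2 ^ m : ℕ) : ℝ) ^ (-A) + e₁ ≤ ((2 ^ m : ℕ) : ℝ) ^ (-1 : ℝ))
    (h : Pr46 μ s F E Θ c m p p' q i 0 A Ln) (hrow : Rb46 μ s F k₀ m p p' q i e₁ Ln) :
    ∃ (l h : ℕ) (g A₂ T e : ℝ), 0 < l ∧ l ≤ 2 ^ p' ∧ h ≤ 4 * 2 ^ p' ∧ 0 ≤ g ∧ g ≤ ((2 ^ m : ℕ) : ℝ) ^ (-(c / 16)) / E (2 ^ q) ∧
      0 ≤ A₂ ∧ A₂ ≤ ((2 ^ m : ℕ) : ℝ) ^ (c / 32) / E (2 ^ p) ∧ 0 ≤ T ∧ T ≤ 2 ^ q * (E (2 ^ q) * ((2 ^ m : ℕ) : ℝ) ^ (Θ - c / 16)) ∧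
      0 ≤ e ∧ e ≤ ((2 ^ m : ℕ) : ℝ) ^ (-1 : ℝ) ∧ RowB μ s F m q i l h g A₂ T e (fun y ω j => I5 μ s F k₀ m p p' y ω j) := by
  obtain ⟨Bl, g, A₂, T, e, hNm, hLb, hS⟩ := h
  have n1 := hNm.g1
  have n2 := hNm.A1
  have n3 := hNm.T1
  rw [sub_zero] at n1 n2 n3
  refine ⟨2 ^ (p' - 6), 4 * 2 ^ p', g, A₂, T, Mh * e + e₁, pow_pos two_pos _,
    Nat.pow_le_pow_right two_pos (Nat.sub_le _ _), le_rfl, hNm.g0, n1, hNm.A0, n2, hNm.T0, n3,
    add_nonneg (mul_nonneg hM.le hNm.e0) he₁,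
    (add_le_add (mul_le_mul_of_nonneg_left hNm.e1 hM.le) le_rfl).trans hN, Bl, hLb.bm, hLb.nn, hLb.tot, hLb.one, fun k => ?_⟩
  have hP := ps_YF (μ := μ) (s := s) (F := F) k₀ hB hpp hb0 hL (pow_pos two_pos (p' - 6)) k hM hMh
  refine (hrow k _ fun t ht => hS t ht k _ Mh hP).trans (le_of_eq ?_)
  ring

end End

section Frame

variable [IsProbabilityMeasure μ] {K : ℕ} {Θ δ c η : ℝ}

/-- **The rows of a block are deep**: each row of the block `i < 2 ^ (m - q)` keeps the distance `2 ^ p'` from the ends of the rows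
`[0, 2 ^ m)`, and the distance `n ^ δ` is at most `2 ^ p`. -/
theorem rows46 {c₁ C : ℝ} {n₀ : ℕ} (h : In μ s c₁ C n₀) (hk : KapLe96 (EE μ s) (1 / 4)) (hK : 32 ≤ K) (hδ : 0 < δ) (hc : 0 ≤ c)
    (hcδ : c ≤ δ / 64) (hη : 0 ≤ η) :
    Est fun ι _ _ m => ∀ p p' q i : ℕ, Chg96 (EE μ s) Θ δ c η m p p' q → i < 2 ^ (m - q) →
      ∀ j ∈ Rw (R33 ι m) (i * 2 ^ q) ((i + 1) * 2 ^ q), 2 ^ p' ≤ j ∧ j + 2 ^ p' ≤ 2 ^ m ∧ j + 2 ^ p' ≤ L33 K m := by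
  refine (deepB33 (K := K) h hk hδ hc hcδ).mono fun ι β γ hι hβ _ => ?_
  filter_upwards [] with m hD
  intro p p' q i hC hi j hj
  obtain ⟨hsq', hqm⟩ := chg_le33 hC hc hη
  have hp' : δ * m ≤ p' := hC.hp.trans (by exact_mod_cast hC.hpp)
  have hDp : Deep (R33 ι m) (2 ^ p') (2 ^ sg96 (EE μ s) c m p') := hD p' hp' (hsq'.trans hqm)
  have h6 := hDp.in_block (by positivity) (dvd96 hsq' i) (dvd96 hsq' (i + 1)) hj
  have h7 : (i + 1) * 2 ^ q ≤ 2 ^ m := by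
    calc (i + 1) * 2 ^ q ≤ 2 ^ (m - q) * 2 ^ q := Nat.mul_le_mul_right _ hi
      _ = 2 ^ m := by
          rw [← pow_add]
          congr 1
          omega
  have h8 : 2 ^ m ≤ L33 K m := L33_ge (by omega) m
  omega

/-- **THE END AT THE CONCRETE FRAME**: a line with a price which bounds the rows of the family gives `RowN23`. -/
theorem rowN46 {c₁ C : ℝ} {n₀ : ℕ} (h : In μ s c₁ C n₀) (hk : KapLe96 (EE μ s) (1 / 4)) (hK : 32 ≤ K) (hδ : 0 < δ) (hc : 0 ≤ c)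
    (hcδ : c ≤ δ / 64) (hη : 0 ≤ η) (k₀ : Fin 3)
    (H : Est fun ι β γ m => ∀ p p' q i : ℕ, Chg96 (EE μ s) Θ δ c η m p p' q → i < 2 ^ (m - q) →
      ∃ Ln : ℝ → ℕ → Wt46 (frm33 μ s K ι β γ) m → ℝ, Pr46 μ s (frm33 μ s K ι β γ) (EE μ s) Θ c m p p' q i 0 4 Ln ∧
        Rb46 μ s (frm33 μ s K ι β γ) k₀ m p p' q i (((2 ^ m : ℕ) : ℝ) ^ (-2 : ℝ)) Ln) :
    Est fun ι β γ m => RowN23 μ s (frm33 μ s K ι β γ) (EE μ s) Θ δ c η k₀ m := by
  have hβ : Est fun _ β _ _ => β ≤ 1 / 8 := Est.beta (Sml.of fun _ _ => Sml.le (by norm_num))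
  refine (H.and (hβ.and (rows46 (Θ := Θ) h hk hK hδ hc hcδ hη))).mono fun ι β γ hι hβ0 _ => ?_
  by_cases hβ8 : β ≤ 1 / 8
  swap
  · exact Eventually.of_forall fun m h1 => absurd h1.2.1 hβ8
  filter_upwards [num_sz (κ := 1) (ε := 1) one_pos one_pos hβ0 (by linarith) (by linarith), ev_n one_pos 2] with m hm hn2 hH
  obtain ⟨hH, -, hrw⟩ := hH
  obtain ⟨hB1, -, hK5, -⟩ := hm
  rw [Real.rpow_one] at hK5 hn2
  intro p p' q i hC hi
  obtain ⟨Ln, hPr, hrow⟩ := hH p p' q i hC hi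
  have hn := rw46_pos m
  have hn1 := n_ge1 m
  obtain ⟨hsq', hqm⟩ := chg_le33 hC hc hη
  have hb0 : (frm33 μ s K ι β γ).b0 m p ≤ 2 ^ p := Nat.pow_le_pow_right two_pos (Nat.sub_le _ _)
  have hcard : ((rw46 (frm33 μ s K ι β γ) m q i).card : ℝ) ≤ ((2 ^ m : ℕ) : ℝ) := by
    have h1 : (rw46 (frm33 μ s K ι β γ) m q i).card ≤ 2 ^ m :=
      (card_le_card (inter_subset_left)).trans (R33_card ι m)
    exact_mod_cast h1
  have hK50 : 0 ≤ K5 (B33 β m) := K5_nonneg (zero_le_one.trans hB1)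
  refine rowB46 (A := 4) (e₁ := ((2 ^ m : ℕ) : ℝ) ^ (-2 : ℝ)) (Mh := ((2 ^ m : ℕ) : ℝ) ^ (2 : ℝ)) k₀ (zero_le_one.trans hB1) hC.hpp hb0
    (fun j hj => (hrw p p' q i hC hi j hj).2.2) (Real.rpow_pos_of_pos hn _) ?_ (Real.rpow_nonneg hn.le _) ?_ hPr hrow
  · calc ((rw46 (frm33 μ s K ι β γ) m q i).card : ℝ) * K5 (B33 β m) ≤ ((2 ^ m : ℕ) : ℝ) * ((2 ^ m : ℕ) : ℝ) :=
          mul_le_mul hcard hK5 hK50 hn.le
      _ = ((2 ^ m : ℕ) : ℝ) ^ (2 : ℝ) := by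
          rw [Real.rpow_two, sq]
  · have e1 : ((2 ^ m : ℕ) : ℝ) ^ (2 : ℝ) * ((2 ^ m : ℕ) : ℝ) ^ (-4 : ℝ) = ((2 ^ m : ℕ) : ℝ) ^ (-2 : ℝ) := by
      rw [← Real.rpow_add hn]
      norm_num
    have e3 : 2 * ((2 ^ m : ℕ) : ℝ) ^ (-2 : ℝ) ≤ ((2 ^ m : ℕ) : ℝ) ^ (-1 : ℝ) := by
      calc 2 * ((2 ^ m : ℕ) : ℝ) ^ (-2 : ℝ) ≤ ((2 ^ m : ℕ) : ℝ) ^ (1 : ℝ) * ((2 ^ m : ℕ) : ℝ) ^ (-2 : ℝ) := by
            rw [Real.rpow_one]
            exact mul_le_mul_of_nonneg_right hn2 (Real.rpow_nonneg hn.le _)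
        _ = ((2 ^ m : ℕ) : ℝ) ^ (-1 : ℝ) := by
            rw [← Real.rpow_add hn]
            norm_num
    rw [e1]
    linarith

end Frame

end

end Pool.Agent.W_7d29a1_C0.Pr46
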