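import Pool.Agent.W_7d29a1_C0.PrT14
import Pool.Agent.W_7d29a1_C0.PrI46

/-!
MP_7d29a1_pr, [CURV0], leaf E5.8 / N1B (helper19, for helper14): THE END OF `N1B` OVER THE PRICES OF THE LINES.
`ps46_of19`, `psH_of19`: the passengers of helper46 and of helper5; `Lf19 X`: the line of a family `X` with a tilt; `prT_of46`, `pr46_ofT`,
`pr46_ofB`: from the prices `Pr46` to the prices `PrT` and back; `pr46_lin19`: finite sums with factors; `row19`: the bound of the third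
order cumulants of the rows; `rowN19`: from a family with a price `Pr46` which bounds the cumulants to `RowN23 .. 0`.
-/

set_option autoImplicit false
set_option linter.unusedSectionVars false
set_option linter.dupNamespace false

namespace Pool.Agent.W_7d29a1_C0.N1E19

open Finset MeasureTheory Filter Topology
open Pool.Agent.W_7d29a1_F Pool.Agent.W_7d29a1_X
open Pool.Agent.W_7d29a1_H (EE EE_pos one_le_EE)
open Pool.Agent.W_7d29a1_HS (In wd)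
open Pool.Agent.W_7d29a1_C0 Pool.Agent.W_7d29a1_C0.Mod92 Pool.Agent.W_7d29a1_C0.Asm96 Pool.Agent.W_7d29a1_C0.N38
open Pool.Agent.W_7d29a1_C0.Frm33 Pool.Agent.W_7d29a1_C0.Sz23 Pool.Agent.W_7d29a1_C0.Base5
open Pool.Agent.W_7d29a1_C0.NTop23 (avF YF RowB RowN23)
open Pool.Agent.W_7d29a1_C0.Strip80 (OffD)
open Pool.Agent.W_7d29a1_C0.Par92 (Est Sml)
open Pool.Agent.W_7d29a1_C0.Flip61 (Cov1)
open Pool.Agent.W_7d29a1_C0.PrB5 (PsH PrB rws)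
open Pool.Agent.W_7d29a1_C0.PrT14 (PrT rowB_of_prT)
open Pool.Agent.W_7d29a1_C0.Pr46
open Pool.W7d29a1.C0 (gz gm gz_pos gz_ne gm_nonneg gm_mono gm_const)
open Pool.W7d29a1.C0.Ps33
open Pool.W7d29a1.C0.VT31 (Mp)
open Pool.W7d29a1.C0.L38 (X38 Psg)

noncomputable section

/-! ### The passengers -/

theorem offD_mono19 {N y : ℕ} {J J' : Finset ℕ} {D : Env × Finset ℕ → Px (Pn N y) → ℝ} (h : OffD J D) (hJ : ∀ n ∈ J', n ∈ J) :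
    OffD J' D := fun η η' A S e => h η η' A S fun q hq => e q fun hq' => hq ⟨hq'.1, hJ _ hq'.2⟩

/-- A passenger of helper5 is a passenger of helper46. -/
theorem ps46_of19 {F : Frm96} {m b' l k : ℕ} {K Mh : ℝ} {H : Wt46 F m} (h : PsH (F.L m) b' l k K H) (hM : 0 < Mh) (hK : K ≤ Mh) :
    Ps46 F m l b' k H Mh where
  pos := hM
  bdd y ω S := (h.abs_le y ω S).trans hK
  mes := h.mes
  off y := h.off y _ fun n hn => by
    unfold J46 at hn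
    rw [mem_Ioc] at hn
    exact hn
  mp := h.mp
  cov j hj := (h.cov j hj).mono hK

/-- The normed absolute value of a passenger of helper46 is a passenger of helper5. -/
theorem psH_of19 {F : Frm96} {m b' l k : ℕ} {Mh : ℝ} {D : Wt46 F m} (h : Ps46 F m l b' k D Mh) :
    PsH (F.L m) b' l k 1 fun y ω S => Mh⁻¹ * |D y ω S| where
  nn y ω S := mul_nonneg (inv_nonneg.2 h.pos.le) (abs_nonneg _)
  bdd y ω S := by
    rw [inv_mul_le_iff₀ h.pos, mul_one]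
    exact h.bdd y ω S
  mes y S := (h.abs.mes y S).const_mul _
  mp y ω := fun S S' e => by
    show Mh⁻¹ * |D y ω S| = Mh⁻¹ * |D y ω S'|
    rw [h.mp y ω S S' e]
  off y J hJ := by
    have h1 : OffD J (D y) := offD_mono19 (h.off y) fun n hn => by
      unfold J46
      rw [mem_Ioc]
      exact hJ n hn
    intro η η' A S e
    have h2 := h1 η η' A S e
    show Mh⁻¹ * |D y (η, A) S| = Mh⁻¹ * |D y (η', A) S|
    rw [h2]
  cov j hj := by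
    have h1 : Cov1 (F.L m) b' j (fun _ _ _ => Mh⁻¹) |Mh⁻¹| := Cov1.const _
    have h2 := h1.mul (h.cov j hj).abs33
    refine (h2.mono (le_of_eq ?_))
    rw [abs_of_pos (inv_pos.2 h.pos), inv_mul_cancel₀ h.pos.ne']

variable (μ : Measure ℝ) (s : ℝ) (F : Frm96)

/-- **The line of a family with a tilt.** -/
def Lf19 (m : ℕ) (X : ℝ → (y : ℕ) → Env × Finset ℕ → ℕ → Px (Pn (F.L m) y) → ℝ) (t : ℝ) (j : ℕ) (D : Wt46 F m) : ℝ :=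
  avF μ s F m fun y ω S => X t y ω j S * |D y ω S|

variable {μ s F}

/-- The other order of the factors. -/
theorem lf_comm19 {m : ℕ} (X : ℝ → (y : ℕ) → Env × Finset ℕ → ℕ → Px (Pn (F.L m) y) → ℝ) :
    Lf19 μ s F m X = fun t j D => avF μ s F m fun y ω S => |D y ω S| * X t y ω j S := by
  funext t j D
  unfold Lf19
  congr 1
  funext y ω S
  exact mul_comm _ _

/-- A family without a tilt. -/
theorem lf_noT19 {m : ℕ} (X : (y : ℕ) → Env × Finset ℕ → ℕ → Px (Pn (F.L m) y) → ℝ) :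
    Lf19 μ s F m (fun _ => X) = fun _ j D => avF μ s F m fun y ω S => X y ω j S * |D y ω S| := rfl

/-! ### The two forms of a price -/

section Two

variable {E : ℕ → ℝ} {Θ c : ℝ} {m p p' q i : ℕ} {x A : ℝ} {X : ℝ → (y : ℕ) → Env × Finset ℕ → ℕ → Px (Pn (F.L m) y) → ℝ}

/-- **From `Pr46` to `PrT`**, for all bounds `K ≤ Mh` of the passengers. -/
theorem prT_of46 (h : Pr46 μ s F E Θ c m p p' q i x A (Lf19 μ s F m X)) : ∃ g A₂ T e : ℝ, Nm46 E Θ c m p q x A g A₂ T e ∧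
    ∀ K Mh : ℝ, 0 < Mh → K ≤ Mh → PrT μ s F m q i (2 ^ (p' - 6)) (2 ^ p') K X g A₂ T (Mh * e) := by
  obtain ⟨Bl, g, A₂, T, e, hN, hB, hS⟩ := h
  refine ⟨g, A₂, T, e, hN, fun K Mh hM hK => ⟨Bl, hB.bm, hB.nn, hB.tot, hB.one, fun t ht k H hH => ?_⟩⟩
  have h1 := hS t (abs_le.2 ht) k H Mh (ps46_of19 hH hM hK)
  have e1 : (fun (y : ℕ) (ω : Env × Finset ℕ) (S : Px (Pn (F.L m) y)) => |H y ω S|) = H := by
    funext y ω S
    exact abs_of_nonneg (hH.nn y ω S)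
  have e2 : ∀ (y : ℕ) (ω : Env × Finset ℕ) (S : Px (Pn (F.L m) y)), |H y ω S| = H y ω S := fun y ω S => abs_of_nonneg (hH.nn y ω S)
  unfold Lf19 at h1
  simp only [e2] at h1
  exact h1

variable [IsProbabilityMeasure μ] (hy : ∀ y ∈ F.ys m, y ≤ F.L m)

include hy

/-- **From `PrT` to `Pr46`.** -/
theorem pr46_ofT {g A₂ T e : ℝ} (hN : Nm46 E Θ c m p q x A g A₂ T e) (h : PrT μ s F m q i (2 ^ (p' - 6)) (2 ^ p') 1 X g A₂ T e) :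
    Pr46 μ s F E Θ c m p p' q i x A (Lf19 μ s F m X) := by
  obtain ⟨Bl, b1, b2, b3, b4, b5⟩ := h
  refine ⟨Bl, g, A₂, T, e, hN, ⟨b1, b2, b3, b4⟩, fun t ht k D Mh hD => ?_⟩
  have h1 := b5 t (abs_le.1 ht) k _ (psH_of19 hD)
  have hM := hD.pos
  have e1 : ∀ j, avF μ s F m (fun y ω S => X t y ω j S * (Mh⁻¹ * |D y ω S|)) = Mh⁻¹ * Lf19 μ s F m X t j D := fun j => by
    unfold Lf19
    rw [← avF_smul hy]
    congr 1
    funext y ω S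
    ring
  have e2 : avF μ s F m (fun y ω S => Bl k y ω S * (Mh⁻¹ * |D y ω S|)) = Mh⁻¹ * avF μ s F m (fun y ω S => Bl k y ω S * |D y ω S|) := by
    rw [← avF_smul hy]
    congr 1
    funext y ω S
    ring
  have e3 : avF μ s F m (fun y ω S => Mh⁻¹ * |D y ω S|) = Mh⁻¹ * avF μ s F m (fun y ω S => |D y ω S|) := avF_smul hy _
  simp only [e1] at h1
  rw [e2, e3, ← mul_sum] at h1
  have h2 := mul_le_mul_of_nonneg_left h1 hM.le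
  have e4 : Mh * Mh⁻¹ = 1 := mul_inv_cancel₀ hM.ne'
  have e5 : Mh * (Mh⁻¹ * ∑ j ∈ rws F m q i (2 ^ (p' - 6)) k, Lf19 μ s F m X t j D) =
      ∑ j ∈ rws F m q i (2 ^ (p' - 6)) k, Lf19 μ s F m X t j D := by
    rw [← mul_assoc, e4, one_mul]
  rw [e5] at h2
  refine h2.trans (le_of_eq ?_)
  calc Mh * (((2 ^ (p' - 6) : ℕ) : ℝ) * g * (Mh⁻¹ * avF μ s F m fun y ω S => |D y ω S|) +
        Mh⁻¹ * (avF μ s F m fun y ω S => Bl k y ω S * |D y ω S|) + e)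
      = (Mh * Mh⁻¹) * (((2 ^ (p' - 6) : ℕ) : ℝ) * g * avF μ s F m fun y ω S => |D y ω S|) +
        (Mh * Mh⁻¹) * (avF μ s F m fun y ω S => Bl k y ω S * |D y ω S|) + Mh * e := by ring
    _ = _ := by rw [e4, one_mul, one_mul]

/-- **From `PrB` to `Pr46`.** -/
theorem pr46_ofB {X' : (y : ℕ) → Env × Finset ℕ → ℕ → Px (Pn (F.L m) y) → ℝ} {g A₂ T e : ℝ} (hN : Nm46 E Θ c m p q x A g A₂ T e)
    (h : PrB μ s F m q i (2 ^ (p' - 6)) (2 ^ p') 1 X' g A₂ T e) :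
    Pr46 μ s F E Θ c m p p' q i x A (Lf19 μ s F m fun _ => X') := pr46_ofT hy hN (PrT14.PrB.toT h)

/-! ### Finite sums with factors -/

/-- A constant times a family. -/
theorem pr46_smul19 (hE : ∀ n, 0 < E n) (h : Pr46 μ s F E Θ c m p p' q i x A (Lf19 μ s F m X)) {r z : ℝ} (hr : 0 ≤ r) (hz : 0 ≤ z)
    (hrz : r ≤ ((2 ^ m : ℕ) : ℝ) ^ z) :
    Pr46 μ s F E Θ c m p p' q i (x - 2 * z) (A - 2 * z) (Lf19 μ s F m fun t y ω j S => r * X t y ω j S) := by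
  refine (h.smul hy hE hr hz hrz).mono fun t _ k j D Mh _ _ => le_of_eq ?_
  unfold Lf19
  rw [← avF_smul hy]
  congr 1
  funext y ω S
  ring

/-- The sum of two families. -/
theorem pr46_add19 (hE : ∀ n, 0 < E n) {X' : ℝ → (y : ℕ) → Env × Finset ℕ → ℕ → Px (Pn (F.L m) y) → ℝ}
    (h : Pr46 μ s F E Θ c m p p' q i x A (Lf19 μ s F m X)) (h' : Pr46 μ s F E Θ c m p p' q i x A (Lf19 μ s F m X')) {z : ℝ}
    (hz : 4 ≤ ((2 ^ m : ℕ) : ℝ) ^ z)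
    (hm : ∀ t ∈ Set.Icc (-1 : ℝ) 1, ∀ j ∈ rw46 F m q i, BM (F.ys m) fun y ω S => X t y ω j S)
    (hm' : ∀ t ∈ Set.Icc (-1 : ℝ) 1, ∀ j ∈ rw46 F m q i, BM (F.ys m) fun y ω S => X' t y ω j S) :
    Pr46 μ s F E Θ c m p p' q i (x - z) (A - z) (Lf19 μ s F m fun t y ω j S => X t y ω j S + X' t y ω j S) := by
  refine (h.add hy hE h' hz).mono fun t ht k j D Mh hD hj => le_of_eq ?_
  have hj' := (mem_filter.1 hj).1
  unfold Lf19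
  rw [← avF_add hy ((hm t (abs_le.1 ht) j hj').mul hD.bm.abs) ((hm' t (abs_le.1 ht) j hj').mul hD.bm.abs)]
  congr 1
  funext y ω S
  ring

/-- **A FINITE SUM WITH FACTORS**: `∑ a, C a X a`. -/
theorem pr46_lin19 (hE : ∀ n, 0 < E n) {ι : Type*} (I : Finset ι) {Xf : ι → ℝ → (y : ℕ) → Env × Finset ℕ → ℕ → Px (Pn (F.L m) y) → ℝ}
    {C : ι → ℝ} (h : ∀ a ∈ I, Pr46 μ s F E Θ c m p p' q i x A (Lf19 μ s F m (Xf a))) {z : ℝ} (hz0 : 0 ≤ z) (hC0 : ∀ a ∈ I, 0 ≤ C a)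
    (hC : ∀ a ∈ I, C a ≤ ((2 ^ m : ℕ) : ℝ) ^ z) (hz : 4 ≤ ((2 ^ m : ℕ) : ℝ) ^ z)
    (hm : ∀ a ∈ I, ∀ t ∈ Set.Icc (-1 : ℝ) 1, ∀ j ∈ rw46 F m q i, BM (F.ys m) fun y ω S => Xf a t y ω j S) :
    Pr46 μ s F E Θ c m p p' q i (x - (I.card + 2) * z) (A - (I.card + 2) * z)
      (Lf19 μ s F m fun t y ω j S => ∑ a ∈ I, C a * Xf a t y ω j S) := by
  have h1 : ∀ a ∈ I, Pr46 μ s F E Θ c m p p' q i (x - 2 * z) (A - 2 * z) (Lf19 μ s F m fun t y ω j S => C a * Xf a t y ω j S) := fun a ha =>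
    pr46_smul19 hy hE (h a ha) (hC0 a ha) hz0 (hC a ha)
  have h2 := Pr46.sum hy hE I h1 hz0 hz
  have e1 : x - 2 * z - I.card * z = x - (I.card + 2) * z := by ring
  have e2 : A - 2 * z - I.card * z = A - (I.card + 2) * z := by ring
  rw [e1, e2] at h2
  refine h2.mono fun t ht k j D Mh hD hj => le_of_eq ?_
  have hj' := (mem_filter.1 hj).1
  have hf : ∀ a ∈ I, BM (F.ys m) fun y ω S => C a * Xf a t y ω j S * |D y ω S| := fun a ha =>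
    ((hm a ha t (abs_le.1 ht) j hj').smul (C a)).mul hD.bm.abs
  unfold Lf19
  rw [← avF_sum hy I (G := fun a y ω S => C a * Xf a t y ω j S * |D y ω S|) hf]
  congr 1
  funext y ω S
  rw [sum_mul]

/-- A smaller family. -/
theorem pr46_mono19 (h : Pr46 μ s F E Θ c m p p' q i x A (Lf19 μ s F m X))
    {X' : ℝ → (y : ℕ) → Env × Finset ℕ → ℕ → Px (Pn (F.L m) y) → ℝ}
    (hm : ∀ t ∈ Set.Icc (-1 : ℝ) 1, ∀ j ∈ rw46 F m q i, BM (F.ys m) fun y ω S => X t y ω j S)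
    (hm' : ∀ t ∈ Set.Icc (-1 : ℝ) 1, ∀ j ∈ rw46 F m q i, BM (F.ys m) fun y ω S => X' t y ω j S)
    (hle : ∀ t ∈ Set.Icc (-1 : ℝ) 1, ∀ j ∈ rw46 F m q i, ∀ y ∈ F.ys m, ∀ ω S, X' t y ω j S ≤ X t y ω j S) :
    Pr46 μ s F E Θ c m p p' q i x A (Lf19 μ s F m X') := by
  refine h.mono fun t ht k j D Mh hD hj => ?_
  have hj' := (mem_filter.1 hj).1
  exact avF_mono hy ((hm' t (abs_le.1 ht) j hj').mul hD.bm.abs) ((hm t (abs_le.1 ht) j hj').mul hD.bm.abs) fun y h1 ω S =>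
    mul_le_mul_of_nonneg_right (hle t (abs_le.1 ht) j hj' y h1 ω S) (abs_nonneg _)

end Two

/-! ### The end -/

variable (μ s F)

/-- **The bound of the third order cumulants of the rows** of the block by the family `X`, with an error `L * e` for a passenger bounded
by `L`. -/
def Row19 (m p p' q i : ℕ) (X : ℝ → (y : ℕ) → Env × Finset ℕ → ℕ → Px (Pn (F.L m) y) → ℝ) (e : ℝ) : Prop :=
  ∀ t ∈ Set.Icc (-1 : ℝ) 1, ∀ j ∈ rw46 F m q i, ∀ y ∈ F.ys m, ∀ (_ : Nonempty (Px (Pn (F.L m) y))) (A : Finset ℕ)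
    (Yf : Env → Px (Pn (F.L m) y) → ℝ) (L : ℝ), 0 ≤ L → Psg (F.L m) (F.b0 m p) (2 ^ p) (2 ^ p') j Yf L →
    |X38 μ s (F.L m) (Pn (F.L m) y) F.dl (F.B m) (F.b0 m p) (2 ^ p) (2 ^ p') j (Mod92.sg A j) Yf t| ≤
      ∫ η, gm (lw μ s η (F.L m) (Pn (F.L m) y)) (fun S => X t y (η, A) j S * |Yf η S|) ∂(law μ) + L * e

variable {μ s F}

/-- **THE END at a fixed length.** -/
theorem rowB19 [IsProbabilityMeasure μ] {E : ℕ → ℝ} {Θ c : ℝ} {m p p' q i : ℕ} {A e₁ Mh : ℝ} (hy : ∀ y ∈ F.ys m, y ≤ F.L m) (hB : 0 ≤ F.B m)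
    (hpp : p ≤ p') (hb0 : F.b0 m p ≤ 2 ^ p) (hL : ∀ j ∈ rw46 F m q i, j + 2 ^ p' ≤ F.L m) (hM : 0 < Mh)
    (hMh : ((rw46 F m q i).card : ℝ) * K5 (F.B m) ≤ Mh) (he₁ : 0 ≤ e₁)
    (hN : Mh * ((2 ^ m : ℕ) : ℝ) ^ (-A) + ((2 ^ (p' - 6) : ℕ) : ℝ) * (Mh * e₁) ≤ ((2 ^ m : ℕ) : ℝ) ^ (-1 : ℝ))
    {X : ℝ → (y : ℕ) → Env × Finset ℕ → ℕ → Px (Pn (F.L m) y) → ℝ}
    (hXm : ∀ t ∈ Set.Icc (-1 : ℝ) 1, ∀ j ∈ rw46 F m q i, BM (F.ys m) fun y ω S => X t y ω j S)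
    (h : Pr46 μ s F E Θ c m p p' q i 0 A (Lf19 μ s F m X)) (hrow : Row19 μ s F m p p' q i X e₁) :
    ∃ (l h : ℕ) (g A₂ T e : ℝ), 0 < l ∧ l ≤ 2 ^ p' ∧ h ≤ 4 * 2 ^ p' ∧ 0 ≤ g ∧ g ≤ ((2 ^ m : ℕ) : ℝ) ^ (-(c / 16)) / E (2 ^ q) ∧
      0 ≤ A₂ ∧ A₂ ≤ ((2 ^ m : ℕ) : ℝ) ^ (c / 32) / E (2 ^ p) ∧ 0 ≤ T ∧ T ≤ 2 ^ q * (E (2 ^ q) * ((2 ^ m : ℕ) : ℝ) ^ (Θ - c / 16)) ∧
      0 ≤ e ∧ e ≤ ((2 ^ m : ℕ) : ℝ) ^ (-1 : ℝ) ∧ RowB μ s F m q i l h g A₂ T e (fun y ω j => I5 μ s F 0 m p p' y ω j) := by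
  obtain ⟨g, A₂, T, e, hNm, hT⟩ := prT_of46 h
  have n1 := hNm.g1
  have n2 := hNm.A1
  have n3 := hNm.T1
  rw [sub_zero] at n1 n2 n3
  have hK5 : 0 ≤ ((rw46 F m q i).card : ℝ) * K5 (F.B m) := mul_nonneg (Nat.cast_nonneg _) (K5_nonneg hB)
  have hP := hT _ Mh hM hMh
  have key := rowB_of_prT (μ := μ) (s := s) (F := F) hy (pow_pos two_pos (p' - 6)) (δ := F.dl) (B := F.B m) (b0 := F.b0 m p) (b := 2 ^ p)
    (b' := 2 ^ p') (pow_pos two_pos _) hb0 (Nat.pow_le_pow_right two_pos hpp) hB hL rfl (e1 := Mh * e₁) (mul_nonneg hM.le he₁) hP hXm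
    fun t ht k j hj y hy' hne A' Yf hYf => by
      have h1 := hrow t ht j (mem_filter.1 hj).1 y hy' hne A' Yf _ hK5 hYf
      have h2 : ((rw46 F m q i).card : ℝ) * K5 (F.B m) * e₁ ≤ Mh * e₁ := mul_le_mul_of_nonneg_right hMh he₁
      exact h1.trans (add_le_add le_rfl h2)
  refine ⟨2 ^ (p' - 6), 4 * 2 ^ p', g, A₂, T, Mh * e + ((2 ^ (p' - 6) : ℕ) : ℝ) * (Mh * e₁), pow_pos two_pos _,
    Nat.pow_le_pow_right two_pos (Nat.sub_le _ _), le_rfl, hNm.g0, n1, hNm.A0, n2, hNm.T0, n3,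
    add_nonneg (mul_nonneg hM.le hNm.e0) (mul_nonneg (Nat.cast_nonneg _) (mul_nonneg hM.le he₁)),
    (add_le_add (mul_le_mul_of_nonneg_left hNm.e1 hM.le) le_rfl).trans hN, key⟩

section Frame

variable [IsProbabilityMeasure μ] {K : ℕ} {Θ δ c η : ℝ}

/-- **THE END OF `N1B` AT THE CONCRETE FRAME**: a family with a price `Pr46` without slack and with an error exponent `A > 3`, bounded and
measurable, which bounds the third order cumulants of the rows, gives `RowN23 .. 0`. -/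
theorem rowN19 {c₁ C : ℝ} {n₀ : ℕ} (h : In μ s c₁ C n₀) (hk : KapLe96 (EE μ s) (1 / 4)) (hK : 32 ≤ K) (hδ : 0 < δ) (hc : 0 ≤ c)
    (hcδ : c ≤ δ / 64) (hη : 0 ≤ η) {A : ℝ} (hA : 3 < A)
    (H : Est fun ι β γ m => ∀ p p' q i : ℕ, Chg96 (EE μ s) Θ δ c η m p p' q → i < 2 ^ (m - q) →
      ∃ X : ℝ → (y : ℕ) → Env × Finset ℕ → ℕ → Px (Pn ((frm33 μ s K ι β γ).L m) y) → ℝ,
        (∀ t ∈ Set.Icc (-1 : ℝ) 1, ∀ j ∈ rw46 (frm33 μ s K ι β γ) m q i, BM ((frm33 μ s K ι β γ).ys m) fun y ω S => X t y ω j S) ∧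
        Pr46 μ s (frm33 μ s K ι β γ) (EE μ s) Θ c m p p' q i 0 A (Lf19 μ s (frm33 μ s K ι β γ) m X) ∧
        Row19 μ s (frm33 μ s K ι β γ) m p p' q i X (((2 ^ m : ℕ) : ℝ) ^ (-5 : ℝ))) :
    Est fun ι β γ m => RowN23 μ s (frm33 μ s K ι β γ) (EE μ s) Θ δ c η 0 m := by
  have hβ : Est fun _ β _ _ => β ≤ 1 / 8 := Est.beta (Sml.of fun _ _ => Sml.le (by norm_num))
  refine (H.and (hβ.and (rows46 (Θ := Θ) h hk hK hδ hc hcδ hη))).mono fun ι β γ hι hβ0 _ => ?_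
  by_cases hβ8 : β ≤ 1 / 8
  swap
  · exact Eventually.of_forall fun m h1 => absurd h1.2.1 hβ8
  filter_upwards [num_sz (κ := 1) (ε := 1) one_pos one_pos hβ0 (by linarith) (by linarith), ev_n one_pos 2,
    ev_n (show 0 < A - 3 by linarith) 2] with m hm hn2 hA2 hH
  obtain ⟨hH, -, hrw⟩ := hH
  obtain ⟨hB1, -, hK5, -⟩ := hm
  rw [Real.rpow_one] at hK5 hn2
  intro p p' q i hC hi
  obtain ⟨X, hXm, hPr, hrow⟩ := hH p p' q i hC hi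
  have hn := rw46_pos m
  have hn1 := n_ge1 m
  obtain ⟨hsq', hqm⟩ := chg_le33 hC hc hη
  have hp'm : p' ≤ m := hC.hps'.trans (hsq'.trans hqm)
  have hb0 : (frm33 μ s K ι β γ).b0 m p ≤ 2 ^ p := Nat.pow_le_pow_right two_pos (Nat.sub_le _ _)
  have hcard : ((rw46 (frm33 μ s K ι β γ) m q i).card : ℝ) ≤ ((2 ^ m : ℕ) : ℝ) := by
    have h1 : (rw46 (frm33 μ s K ι β γ) m q i).card ≤ 2 ^ m :=
      (card_le_card (inter_subset_left)).trans (R33_card ι m)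
    exact_mod_cast h1
  have hK50 : 0 ≤ K5 (B33 β m) := K5_nonneg (zero_le_one.trans hB1)
  have hyF : ∀ y ∈ (frm33 μ s K ι β γ).ys m, y ≤ (frm33 μ s K ι β γ).L m := fun y hy => hy33 (by omega) m y hy
  have hl : (((2 ^ (p' - 6) : ℕ) : ℝ)) ≤ ((2 ^ m : ℕ) : ℝ) := by
    exact_mod_cast Nat.pow_le_pow_right two_pos (by omega)
  refine rowB19 (A := A) (e₁ := ((2 ^ m : ℕ) : ℝ) ^ (-5 : ℝ)) (Mh := ((2 ^ m : ℕ) : ℝ) ^ (2 : ℝ)) hyF (zero_le_one.trans hB1) hC.hpp hb0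
    (fun j hj => (hrw p p' q i hC hi j hj).2.2) (Real.rpow_pos_of_pos hn _) ?_ (Real.rpow_nonneg hn.le _) ?_ hXm hPr hrow
  · calc ((rw46 (frm33 μ s K ι β γ) m q i).card : ℝ) * K5 (B33 β m) ≤ ((2 ^ m : ℕ) : ℝ) * ((2 ^ m : ℕ) : ℝ) :=
          mul_le_mul hcard hK5 hK50 hn.le
      _ = ((2 ^ m : ℕ) : ℝ) ^ (2 : ℝ) := by
          rw [Real.rpow_two, sq]
  · have e1 : 2 * (((2 ^ m : ℕ) : ℝ) ^ (2 : ℝ) * ((2 ^ m : ℕ) : ℝ) ^ (-A)) ≤ ((2 ^ m : ℕ) : ℝ) ^ (-1 : ℝ) := by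
      have e0 : 0 ≤ ((2 ^ m : ℕ) : ℝ) ^ (2 : ℝ) * ((2 ^ m : ℕ) : ℝ) ^ (-A) := by positivity
      calc 2 * (((2 ^ m : ℕ) : ℝ) ^ (2 : ℝ) * ((2 ^ m : ℕ) : ℝ) ^ (-A))
          ≤ ((2 ^ m : ℕ) : ℝ) ^ (A - 3) * (((2 ^ m : ℕ) : ℝ) ^ (2 : ℝ) * ((2 ^ m : ℕ) : ℝ) ^ (-A)) :=
            mul_le_mul_of_nonneg_right hA2 e0
        _ = ((2 ^ m : ℕ) : ℝ) ^ (-1 : ℝ) := by
            rw [← Real.rpow_add hn, ← Real.rpow_add hn]
            congr 1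
            ring
    have e2 : ((2 ^ (p' - 6) : ℕ) : ℝ) * (((2 ^ m : ℕ) : ℝ) ^ (2 : ℝ) * ((2 ^ m : ℕ) : ℝ) ^ (-5 : ℝ)) ≤ ((2 ^ m : ℕ) : ℝ) ^ (-2 : ℝ) := by
      calc ((2 ^ (p' - 6) : ℕ) : ℝ) * (((2 ^ m : ℕ) : ℝ) ^ (2 : ℝ) * ((2 ^ m : ℕ) : ℝ) ^ (-5 : ℝ))
          ≤ ((2 ^ m : ℕ) : ℝ) ^ (1 : ℝ) * (((2 ^ m : ℕ) : ℝ) ^ (2 : ℝ) * ((2 ^ m : ℕ) : ℝ) ^ (-5 : ℝ)) := by
            rw [Real.rpow_one]
            exact mul_le_mul_of_nonneg_right hl (mul_nonneg (Real.rpow_nonneg hn.le _) (Real.rpow_nonneg hn.le _))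
        _ = ((2 ^ m : ℕ) : ℝ) ^ (-2 : ℝ) := by
            rw [← Real.rpow_add hn, ← Real.rpow_add hn]
            norm_num
    have e3 : 2 * ((2 ^ m : ℕ) : ℝ) ^ (-2 : ℝ) ≤ ((2 ^ m : ℕ) : ℝ) ^ (-1 : ℝ) := by
      calc 2 * ((2 ^ m : ℕ) : ℝ) ^ (-2 : ℝ) ≤ ((2 ^ m : ℕ) : ℝ) ^ (1 : ℝ) * ((2 ^ m : ℕ) : ℝ) ^ (-2 : ℝ) := by
            rw [Real.rpow_one]
            exact mul_le_mul_of_nonneg_right hn2 (Real.rpow_nonneg hn.le _)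
        _ = ((2 ^ m : ℕ) : ℝ) ^ (-1 : ℝ) := by
            rw [← Real.rpow_add hn]
            norm_num
    linarith

end Frame

end

end Pool.Agent.W_7d29a1_C0.N1E19
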