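import Pool.Agent.W_7d29a1_C0.N1B14

/-!
CURV0 (MP_7d29a1_pr), leaf E5.8 / N1B, helper14: THE LINES OF THE TWO SIDES OF A ROW IN THE MODEL. `mf_F14`: measurability of the lines.
`FR14`, `FL14`: the nine lines of the right and of the left side of the row `j` at the tilt `t`; `RS_le14`, `LS_le14`: the right sides of
helper38 are at most the means of the lines against the passenger, plus a small error.
-/

set_option autoImplicit false
set_option linter.unusedSectionVars false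
set_option linter.unusedVariables false

namespace Pool.W7d29a1.C0.N14

open Finset Filter Topology MeasureTheory
open Pool.Agent.W_7d29a1_F Pool.Agent.W_7d29a1_C0 Pool.W7d29a1.C0 Pool.W7d29a1.C0.VT31
open Pool.Agent.W_7d29a1_C0.Swap57 Pool.Agent.W_7d29a1_C0.Mod92 Pool.Agent.W_7d29a1_C0.H32
open Pool.W7d29a1.C0.R43 (Tau mI mI_nonneg)
open Pool.W7d29a1.C0.S1 (i1 i1_nonneg i1_of i1_not cE_const osc)
open Pool.W7d29a1.C0.L38 Pool.W7d29a1.C0.PM14 Pool.W7d29a1.C0.NN1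

noncomputable section

/-! ### Measurability -/

section Ms

variable {Q : Finset (Finset ℕ)} [SwQ Q] [Nonempty (Px Q)] {w wi g : Env → Px Q → ℝ} {Dg : ℝ}

theorem mf_i1 {F : Env → Px Q → ℝ} (h : ∀ x, Measurable fun η => F η x) (c : ℝ) : MF (fun η x => i1 (c ≤ F η x)) 1 where
  ms x := by
    unfold i1
    exact Measurable.ite (measurableSet_le measurable_const (h x)) measurable_const measurable_const
  bd η x := by
    rw [abs_of_nonneg (i1_nonneg _)]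
    exact i1_le_one _

theorem mf_NI (mw : ∀ x, Measurable fun η => w η x) (p : Px Q → Finset ℕ × ℕ) (U V : ℕ) : MF (fun η x => cE2 (w η) p (NI U V) x x) 1 :=
  MF.cE2 (k := fun _ => NI U V) mw (fun _ _ => measurable_const) (fun _ b c => by
    rw [abs_of_nonneg (NI_nonneg _ _ _ _)]
    exact NI_le_one _ _ _ _) p

theorem mf_tau (mw : ∀ x, Measurable fun η => w η x) (p : Px Q → Finset ℕ × ℕ) (U V : ℕ) (M : ℝ) :
    MF (fun η x => i1 (Tau (w η) p U V M x)) 1 := mf_i1 (mf_NI mw p U V).ms _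

theorem mf_mI (mw : ∀ x, Measurable fun η => w η x) (p : Px Q → Finset ℕ × ℕ) (U V : ℕ) : MF (fun η x => mI (w η) p U V x) 1 where
  ms x := meas_cE (f := fun _ => NI U V x) mw (fun _ => measurable_const) p x
  bd η x := by
    unfold R43.mI
    exact abs_cE_le (w η) p (fun z => by
      rw [abs_of_nonneg (NI_nonneg _ _ _ _)]
      exact NI_le_one _ _ _ _) x

theorem mf_own (mw : ∀ x, Measurable fun η => w η x) (p : Px Q → Finset ℕ × ℕ) (U V : ℕ) (M : ℝ) :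
    MF (fun η x => i1 (Real.exp (-(5 * M)) ≤ mI (w η) p U V x)) 1 := mf_i1 (mf_mI mw p U V).ms _

theorem mf_oM (mw : ∀ x, Measurable fun η => w η x) (i k : ℕ) (M : ℝ) : MF (fun η x => oM (w η) i k M x) 1 :=
  mf_i1 (F := fun η x => gm (w η) (NI i k x)) (fun x => meas_gm mw fun _ => measurable_const) _

theorem mf_osc (mw : ∀ x, Measurable fun η => w η x) (hg : MF g Dg) (q : Px Q → Finset ℕ × ℕ) (M : ℝ) :
    MF (fun η x => mos (w η) q (g η) M x) 1 :=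
  mf_i1 (F := fun η x => osc (w η) q (g η) x) (MF.cE2 (k := fun η z z' => |g η z - g η z'|) (D := Dg + Dg) mw
    (fun z z' => by simpa [Real.norm_eq_abs] using ((hg.ms z).sub (hg.ms z')).norm)
    (fun η z z' => by
      rw [abs_abs]
      exact (abs_sub _ _).trans (add_le_add (hg.bd η z) (hg.bd η z'))) q).ms _

theorem mf_oml (mw : ∀ x, Measurable fun η => w η x) (mi : ∀ x, Measurable fun η => wi η x) (p : Px Q → Finset ℕ × ℕ) (U V : ℕ) (M : ℝ)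
    {F : Env → Px Q → ℝ} (hF : MF F 1) : MF (fun η x => oml (w η) (wi η) p U V M (F η) x) (1 * 1) :=
  ((mf_own mw p U V M).mul hF).cE mi p

theorem mf_otl (mw : ∀ x, Measurable fun η => w η x) (mi : ∀ x, Measurable fun η => wi η x) (p : Px Q → Finset ℕ × ℕ) (U V : ℕ) (M : ℝ)
    {F : Env → Px Q → ℝ} (hF : MF F 1) : MF (fun η x => otl (w η) (wi η) p U V M (F η) x) (1 * 1) :=
  ((mf_tau mw p U V M).mul hF).cE mi p

theorem ms_avg {J : Finset ℕ} {F : ℕ → Env → Px Q → ℝ} (h : ∀ r x, Measurable fun η => F r η x) (x : Px Q) :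
    Measurable fun η => (J.card : ℝ)⁻¹ * ∑ r ∈ J, F r η x := (Finset.measurable_fun_sum _ fun r _ => h r x).const_mul _

variable {p q : Px Q → Finset ℕ × ℕ} {M : ℝ} {U V o0 o1 mu mv c1 d1 c2 d2 lu lv : ℕ} {J1 J2 : Finset ℕ} {pm : ℕ → Px Q → Finset ℕ × ℕ}

theorem mf_F14 (mw : ∀ x, Measurable fun η => w η x) (mi : ∀ x, Measurable fun η => wi η x) (hg : MF g Dg) (i : Fin 9) :
    MF (fun η x => F14 (w η) (wi η) p q (g η) M U V o0 o1 mu mv c1 d1 c2 d2 lu lv J1 J2 pm i x) 1 where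
  bd η x := by
    rw [abs_of_nonneg (F14_nonneg i x)]
    exact F14_le_one i x
  ms x := by
    have hlo : ∀ r, MF (fun η x => mlo (w η) (pm r) lu lv M x) 1 := fun r => mf_own mw (pm r) lu lv M
    fin_cases i
    · exact ((mf_tau mw p U V M).mul (mf_oM mw c1 d1 M)).ms x
    · exact ((mf_tau mw p U V M).mul (mf_oM mw c2 d2 M)).ms x
    · exact (mf_oml mw mi p U V M (mf_tau mw q mu mv M)).ms x
    · exact (mf_oml mw mi p U V M (mf_osc mw hg q M)).ms x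
    · exact (mf_otl mw mi p U V M (mf_osc mw hg q M)).ms x
    · exact ms_avg (fun r x => (mf_oml mw mi p o0 o1 M (hlo r)).ms x) x
    · exact ms_avg (fun r x => (mf_oml mw mi p o0 o1 M (hlo r)).ms x) x
    · exact ms_avg (fun r x => (mf_otl mw mi p o0 o1 M (hlo r)).ms x) x
    · exact ms_avg (fun r x => (mf_otl mw mi p o0 o1 M (hlo r)).ms x) x

end Ms

/-! ### The model -/

section Mod

variable {μ : Measure ℝ} [IsProbabilityMeasure μ] {s : ℝ} {N : ℕ} {Q : Finset (Finset ℕ)} [SwQ Q] [Nonempty (Px Q)]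

/-- The short piece starts at the distance `uu14` of the row. -/
def uu14 (b0 b : ℕ) : ℕ := b0 + 4 * kn38 b0 b

/-- The nine lines on the right. -/
def FR14 (μ : Measure ℝ) (s : ℝ) (N : ℕ) (Q : Finset (Finset ℕ)) (δ B : ℝ) (b0 b b' j : ℕ) (a : ℤ) (M t : ℝ) (i : Fin 9) (η : Env) :
    Px Q → ℝ :=
  F14 (lw μ s η N Q) (wi38 μ s N Q δ B b0 j a t η) (pJ (j - b') (j + b')) (pJ (j - b) (j + b)) (gj μ s η δ B b0 j a) M
    (j + b0) (j + b) (j + b0) (j + b) (j + b0) (j + b0 + 2 * kn38 b0 b) (j - b') (j - uu14 b0 b) (j + uu14 b0 b) (j + b')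
    (j - b) (j - b0) (R1 b0 b j) (R2 b0 b j) (fun r => pJ 0 r) i

/-- The nine lines on the left. -/
def FL14 (μ : Measure ℝ) (s : ℝ) (N : ℕ) (Q : Finset (Finset ℕ)) (δ B : ℝ) (b0 b b' j : ℕ) (a : ℤ) (M t : ℝ) (i : Fin 9) (η : Env) :
    Px Q → ℝ :=
  F14 (lw μ s η N Q) (wi38 μ s N Q δ B b0 j a t η) (pJ (j - b') (j + b')) (pJ (j - b) (j + b)) (gj μ s η δ B b0 j a) M
    (j - b) (j - b0) (j - b) (j - b0) (j - b0 - 2 * kn38 b0 b) (j - b0) (j - b') (j - uu14 b0 b) (j + uu14 b0 b) (j + b')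
    (j + b0) (j + b) (L1 b0 b j) (L2 b0 b j) (fun r => pJ r N) i

theorem gj_ends (δ B : ℝ) (b0 j : ℕ) (a : ℤ) (η : Env) (S T : Px Q) (h1 : ps S (j - b0) = ps T (j - b0))
    (h2 : ps S (j + b0) = ps T (j + b0)) : gj μ s η δ B b0 j a S = gj μ s η δ B b0 j a T := by
  unfold gj
  rw [h1, h2]

theorem ex_wi38 (δ B : ℝ) (b0 j : ℕ) (a : ℤ) (t : ℝ) (η : Env) {u v : ℕ} (hu : u ≤ j - b0) (hv : j + b0 ≤ v) :
    Ex (wi38 μ s N Q δ B b0 j a t η) u v :=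
  (ex_lw η (by omega)).add ((ex_Lk (lk_gj38 δ B b0 j a η) (by omega) hu hv).smul (t - a))

/-- The functional of a forward slab looks at the slab only. -/
theorem lk_CR38 (δ B : ℝ) {b0 j : ℕ} (a : ℤ) (t : ℝ) {J : Finset ℕ} {al be : ℕ} (hJ : ∀ r ∈ J, al ≤ r ∧ r ≤ be ∧ j + b0 ≤ r) (η : Env) :
    Lk al be (CR38 μ s N Q δ B b0 j a t J η) := by
  intro S T h
  unfold CR38
  refine congrArg (fun z => (J.card : ℝ)⁻¹ * z) (sum_congr rfl fun r hr => ?_)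
  obtain ⟨h1, h2, h3⟩ := hJ r hr
  have e0 : Eqp S T 0 := (ps_zero S).trans (ps_zero T).symm
  have er : Eqp S T r := h r h1 h2
  refine cE_loc (Nat.zero_le r) (ex_wi38 (μ := μ) (s := s) (N := N) δ B b0 j a t η (Nat.zero_le _) h3) e0 er fun z hz => ?_
  have k2 : Eqp T z r := (Eq.symm er).trans (ps_of_ge hz le_rfl).symm
  have k1 : Eqp T z 0 := (ps_zero T).trans (ps_zero z).symm
  exact lk_gj38 δ B b0 j a η _ _ fun i hi hi' => ps_swP_mid (Nat.zero_le r) k1 k2 (Nat.zero_le i) (hi'.trans h3)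

/-- The functional of a backward slab looks at the slab only. -/
theorem lk_CL38 (δ B : ℝ) {b0 j : ℕ} (a : ℤ) (t : ℝ) {J : Finset ℕ} {al be : ℕ} (hJ : ∀ r ∈ J, al ≤ r ∧ r ≤ be ∧ r ≤ j - b0) (η : Env)
    (hN : j + b0 ≤ N) {y : ℤ} (hy : ∀ S : Px Q, ps S N = y) : Lk al be (CL38 μ s N Q δ B b0 j a t J η) := by
  intro S T h
  unfold CL38
  refine congrArg (fun z => (J.card : ℝ)⁻¹ * z) (sum_congr rfl fun r hr => ?_)
  obtain ⟨h1, h2, h3⟩ := hJ r hr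
  have eN : Eqp S T N := (hy S).trans (hy T).symm
  have er : Eqp S T r := h r h1 h2
  have hrN : r ≤ N := by omega
  refine cE_loc hrN (ex_wi38 (μ := μ) (s := s) (N := N) δ B b0 j a t η h3 hN) er eN fun z hz => ?_
  have k1 : Eqp T z r := (Eq.symm er).trans (ps_of_le hz le_rfl).symm
  have k2 : Eqp T z N := (hy T).trans (hy z).symm
  exact lk_gj38 δ B b0 j a η _ _ fun i hi hi' => ps_swP_mid hrN k1 k2 (h3.trans hi) (by omega)

theorem abs_CR38 {B : ℝ} (hB : 0 ≤ B) (δ : ℝ) (b0 j : ℕ) {a : ℤ} (ha : |(a : ℝ)| ≤ 1) (t : ℝ) (J : Finset ℕ) (η : Env) (S : Px Q) :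
    |CR38 μ s N Q δ B b0 j a t J η S| ≤ B / 2 := (mf_avg (μ := μ) (s := s) (N := N) hB δ b0 j ha t J fun r => pJ (Q := Q) 0 r).bd η S

theorem abs_CL38 {B : ℝ} (hB : 0 ≤ B) (δ : ℝ) (b0 j : ℕ) {a : ℤ} (ha : |(a : ℝ)| ≤ 1) (t : ℝ) (J : Finset ℕ) (η : Env) (S : Px Q) :
    |CL38 μ s N Q δ B b0 j a t J η S| ≤ B / 2 := (mf_avg (μ := μ) (s := s) (N := N) hB δ b0 j ha t J fun r => pJ (Q := Q) r N).bd η S

/-- The error of one side. -/
def er14 (B M bd : ℝ) (N : ℕ) : ℝ :=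
  7 * (Real.exp (4 * B) * Real.exp (-(5 * M))) + tn (B / 2) M N + (tn (B / 2) M N + B * (Real.exp (4 * B) * Real.exp (-(5 * M)))) +
    15 * Real.exp (2 * B) * bd

/-- The gain of a slab. -/
def Gn14 (Λ R B : ℝ) (b0 b : ℕ) : ℝ := Λ * Real.sqrt (7 * R * (B / 2) ^ 2 / kn38 b0 b)

theorem tn_nonneg14 {B : ℝ} (hB : 0 ≤ B) (M : ℝ) (N : ℕ) : 0 ≤ tn (B / 2) M N := by
  unfold tn
  positivity

/-- **THE RIGHT SIDE.** -/
theorem RS_le14 {δ B : ℝ} (hB : 1 ≤ B) {b0 b b' j : ℕ} (hb6 : b0 + 6 ≤ b) (hbb : b ≤ b') (hjN : j + b' ≤ N)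
    {a : ℤ} (ha : |(a : ℝ)| ≤ 1) {t : ℝ} (ht : |t| ≤ 1) {Yf : Env → Px Q → ℝ} {L : ℝ} (hY : Psg N b0 b b' j Yf L)
    {sl R : ℝ} (hR : 1 ≤ R) {Λ : ℝ} (hΛ : 0 ≤ Λ) (hG : Gn14 Λ R B b0 b ≤ 1) {M : ℝ} (hM : 4 * B ≤ M) :
    RS38 μ s N Q δ B b0 b b' j a Yf sl R Λ t ≤
      Gn14 Λ R B b0 b ^ 2 * B ^ 2 * IY μ (fun η => lw μ s η N Q) Yf
        (fun η x => i1 (Tau (lw μ s η N Q) (pJ (j - b') (j + b')) (j + b0) (j + b) M x)) +
      32 * B ^ 4 * ∑ i, IY μ (fun η => lw μ s η N Q) Yf (FR14 μ s N Q δ B b0 b b' j a M t i) +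
      32 * B ^ 4 * (L * er14 B M (∫ η, gm (lw μ s η N Q) (bd14 sl R (j + b') (R1 b0 b j) (j + uu14 b0 b) (j + b')) ∂(law μ) +
        ∫ η, gm (lw μ s η N Q) (bd14 sl R (j + b') (R2 b0 b j) (j + uu14 b0 b) (j + b')) ∂(law μ)) N) := by
  have hB0 : 0 ≤ B := by linarith
  have hk := kn38_le b0 b
  have hk1 : 1 ≤ kn38 b0 b := by
    unfold kn38
    omega
  have mg := meas_gj38 (μ := μ) (s := s) (Q := Q) hB0 δ b0 j ha
  have hg : ∀ η x, |gj (Q := Q) μ s η δ B b0 j a x| ≤ B / 2 := fun η x => abs_gj η hB0 ha b0 j x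
  have mw : ∀ x : Px Q, Measurable fun η => lw μ s η N Q x := fun x => meas_lw x
  have mi := meas_wi38 (μ := μ) (s := s) (N := N) (Q := Q) hB0 δ b0 j ha t
  have hYm : MF Yf L := MF.of hY.ms hY.bd
  have hgm : MF (fun η => gj (Q := Q) μ s η δ B b0 j a) (B / 2) := MF.of mg hg
  have hθ : |t - a| ≤ 2 := (abs_sub _ _).trans (by linarith)
  have hD : ∀ η x, |wi38 μ s N Q δ B b0 j a t η x - lw μ s η N Q x| ≤ B := fun η x => wt_near14 hB0 η δ b0 j ha ht x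
  have mR1 : ∀ r ∈ R1 b0 b j, j + b0 ≤ r ∧ r ≤ j + uu14 b0 b ∧ r ≤ j + b := fun r hr => by
    unfold R1 at hr
    rw [mem_Ioc] at hr
    unfold uu14
    omega
  have mR2 : ∀ r ∈ R2 b0 b j, j + b0 ≤ r ∧ r ≤ j + uu14 b0 b ∧ r ≤ j + b := fun r hr => by
    unfold R2 at hr
    rw [mem_Ioc] at hr
    unfold uu14
    omega
  have ne1 : (R1 b0 b j).Nonempty := ⟨j + b0 + 2 * kn38 b0 b + 1, by
    unfold R1
    rw [mem_Ioc]
    omega⟩
  have ne2 : (R2 b0 b j).Nonempty := ⟨j + b0 + 3 * kn38 b0 b + 1, by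
    unfold R2
    rw [mem_Ioc]
    omega⟩
  have hu : j + uu14 b0 b ≤ j + b := by
    unfold uu14
    omega
  have hu0 : j + b0 ≤ j + uu14 b0 b := by
    unfold uu14
    omega
  have hzr : j + uu14 b0 b ≤ j + b' := by omega
  have hM8 : 8 * (B / 2) ≤ M := by linarith
  have hM0 : 0 ≤ M := by linarith
  -- the remainders
  have inj : ∀ {J : Finset ℕ}, J.Nonempty → (∀ r ∈ J, j + b0 ≤ r ∧ r ≤ j + uu14 b0 b ∧ r ≤ j + b) → ∀ (η : Env) (x : Px Q) {χ : Px Q → Px Q → ℝ},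
      (∀ y z, 0 ≤ χ y z) → ∀ {u v : ℕ}, (∀ y z, χ y z ≤ NI u v y z) →
      dt (wi38 μ s N Q δ B b0 j a t η) (pJ (j - b') (j + b')) χ (fun y => |gj μ s η δ B b0 j a y - CR38 μ s N Q δ B b0 j a t J η y|) x ≤
        B * Ph (lw μ s η N Q) (wi38 μ s N Q δ B b0 j a t η) (pJ (j - b') (j + b')) (pJ (j - b) (j + b)) (gj μ s η δ B b0 j a) M J
          (fun r => mI (lw μ s η N Q) (pJ 0 r) (j - b) (j - b0)) u v x + tn (B / 2) M N := fun {J} hJ hJr η x {χ} hχ {u v} hχ' => by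
    rw [dt_eq]
    have e := injR (w := lw μ s η N Q) (g := gj μ s η δ B b0 j a) (M := B / 2) (θ := t - a) (m := M) (al := j - b0) (be := j + b0) (c0 := 0)
      (c1 := j - b) (d1 := j + b) (D := N) (hg η) (gj_ends δ B b0 j a η) hθ hM8 (fun t u htu => ex_lw η htu)
      (p := pJ (j - b') (j + b')) (crs_pJ (by omega) (by omega)) (Nat.zero_le _) (by omega) (by omega) hJ
      (fun r hr => ⟨(hJr r hr).1, (hJr r hr).2.2⟩) hχ hχ' x
    refine e.trans (le_of_eq ?_)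
    rw [mul_div_cancel₀ B (two_ne_zero)]
    rfl
  have a3 : ∀ {J : Finset ℕ}, J.Nonempty → (∀ r ∈ J, j + b0 ≤ r ∧ r ≤ j + uu14 b0 b ∧ r ≤ j + b) → ∀ (η : Env) (x : Px Q),
      dt (wi38 μ s N Q δ B b0 j a t η) (pJ (j - b') (j + b')) (NI (j + b0) (j + b))
        (fun y => |gj μ s η δ B b0 j a y - CR38 μ s N Q δ B b0 j a t J η y|) x ≤
        B * (oml (lw μ s η N Q) (wi38 μ s N Q δ B b0 j a t η) (pJ (j - b') (j + b')) (j + b0) (j + b) M
          (mos (lw μ s η N Q) (pJ (j - b) (j + b)) (gj μ s η δ B b0 j a) M) x +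
          (J.card : ℝ)⁻¹ * ∑ r ∈ J, oml (lw μ s η N Q) (wi38 μ s N Q δ B b0 j a t η) (pJ (j - b') (j + b')) (j + b0) (j + b) M
            (mlo (lw μ s η N Q) (pJ 0 r) (j - b) (j - b0) M) x) + tn (B / 2) M N := fun {J} hJ hJr η x =>
    inj14 (pm := fun r => pJ 0 r) hB0 le_rfl le_rfl x (inj hJ hJr η x (fun _ _ => NI_nonneg _ _ _ _) fun _ _ => le_rfl)
  have a4 : ∀ {J : Finset ℕ}, J.Nonempty → (∀ r ∈ J, j + b0 ≤ r ∧ r ≤ j + uu14 b0 b ∧ r ≤ j + b) → ∀ (η : Env) (x : Px Q),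
      hb (wi38 μ s N Q δ B b0 j a t η) (pJ (j - b') (j + b')) (NI (j + b0) (j + b)) x *
        cE (wi38 μ s N Q δ B b0 j a t η) (pJ (j - b') (j + b')) (fun y => |gj μ s η δ B b0 j a y - CR38 μ s N Q δ B b0 j a t J η y|) x ≤
        B * (otl (lw μ s η N Q) (wi38 μ s N Q δ B b0 j a t η) (pJ (j - b') (j + b')) (j + b0) (j + b) M
          (mos (lw μ s η N Q) (pJ (j - b) (j + b)) (gj μ s η δ B b0 j a) M) x +
          (J.card : ℝ)⁻¹ * ∑ r ∈ J, otl (lw μ s η N Q) (wi38 μ s N Q δ B b0 j a t η) (pJ (j - b') (j + b')) (j + b0) (j + b) M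
            (mlo (lw μ s η N Q) (pJ 0 r) (j - b) (j - b0) M) x) +
        (tn (B / 2) M N + B * (Real.exp (4 * B) * Real.exp (-(5 * M)))) := fun {J} hJ hJr η x => by
    refine sh14 (pm := fun r => pJ 0 r) hB0 (tn_nonneg14 hB0 M N) (by positivity) le_rfl le_rfl (fun y => ?_) x
      (hb_le14 (hD η) _ (fun _ _ => NI_nonneg _ _ _ _) (fun _ _ => le_rfl) M x) ?_
    · exact (abs_sub _ _).trans ((add_le_add (hg η y) (abs_CR38 hB0 δ b0 j ha t J η y)).trans (by linarith))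
    · have e := inj hJ hJr η x (χ := fun _ _ => 1) (fun _ _ => zero_le_one) (u := 1) (v := 0) (fun y z => by
        unfold NI
        rw [if_pos]
        intro r h1 h2
        omega)
      rw [dt_eq] at e
      have e1 : (fun y => |gj μ s η δ B b0 j a y - CR38 μ s N Q δ B b0 j a t J η y| *
          cE (wi38 μ s N Q δ B b0 j a t η) (pJ (j - b') (j + b')) (fun _ : Px Q => (1 : ℝ)) x) =
          fun y => |gj μ s η δ B b0 j a y - CR38 μ s N Q δ B b0 j a t J η y| := by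
        funext y
        rw [cE_const, mul_one]
      rw [e1, Ph_empty (M := M) J _ hM0 (show (0 : ℕ) < 1 by norm_num)] at e
      exact e
  have ouR : ∀ {J : Finset ℕ}, (∀ r ∈ J, j + b0 ≤ r ∧ r ≤ j + uu14 b0 b ∧ r ≤ j + b) → ∀ η : Env,
      ou (lw μ s η N Q) (wi38 μ s N Q δ B b0 j a t η) (pJ (j - b') (j + b')) (NI (j + b0) (j + b)) (Yf η) (CR38 μ s N Q δ B b0 j a t J η) ≤
        B * (gm (lw μ s η N Q) (fun x => |Yf η x| * (FR14 μ s N Q δ B b0 b b' j a M t 0 η x + FR14 μ s N Q δ B b0 b b' j a M t 1 η x)) +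
          L * (4 * (Real.exp (4 * B) * Real.exp (-(5 * M))))) := fun {J} hJr η => by
    have e1 := ou_le38 (c := j - b') (al := j + b0) (be := j + uu14 b0 b) (d := j + b') hu0 (w := lw μ s η N Q) (Wk_lw η hu0)
      (wi38 μ s N Q δ B b0 j a t η) (χ := NI (j + b0) (j + b)) (fun _ _ => NI_nonneg _ _ _ _) (hY.mp η)
      (C := CR38 μ s N Q δ B b0 j a t J η) (lk_CR38 δ B a t (fun r hr => ⟨(hJr r hr).1, (hJr r hr).2.1, (hJr r hr).1⟩) η) (D := B / 2)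
      (fun S => abs_CR38 hB0 δ b0 j ha t J η S)
    have e2 := ou_red14 (hD η) hB0 (pJ (Q := Q) (j - b') (j + b')) (χ := NI (j + b0) (j + b)) (fun _ _ => NI_nonneg _ _ _ _)
      (fun _ _ => le_rfl) M (hY.bd η) (c := j - b') (al := j + b0) (be := j + uu14 b0 b) (d := j + b') (aL := j - uu14 b0 b)
      (bR := j + uu14 b0 b) (by omega) le_rfl
    have e3 : 2 * (B / 2) = B := by ring
    rw [e3] at e1
    exact e1.trans (mul_le_mul_of_nonneg_left e2 hB0)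
  have frR : ∀ (J : Finset ℕ) (η : Env), fr (lw μ s η N Q) (wi38 μ s N Q δ B b0 j a t η) (pJ (j - b') (j + b')) (NI (j + b0) (j + b)) (Yf η)
      (tub38 N sl R ((j + b' : ℕ) : ℤ) J) ≤
        gm (lw μ s η N Q) (fun x => |Yf η x| * (3 * (FR14 μ s N Q δ B b0 b b' j a M t 0 η x + FR14 μ s N Q δ B b0 b b' j a M t 1 η x))) +
          L * (6 * (Real.exp (4 * B) * Real.exp (-(5 * M)))) +
          L * (15 * Real.exp (2 * B) * gm (lw μ s η N Q) (bd14 sl R (j + b') J (j + uu14 b0 b) (j + b'))) := fun J η => by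
    have e1 := fr_red14 (w := lw μ s η N Q) (J := J) (sl := sl) hR hjN hzr (hD η) hB0 (p := pJ (Q := Q) (j - b') (j + b')) (fun S S' hS => by
      unfold InT57.pz
      rw [Int.toNat_natCast]
      exact ps_of_ge hS le_rfl) (χ := NI (j + b0) (j + b)) (fun _ _ => NI_nonneg _ _ _ _) (fun _ _ => le_rfl) M (hY.bd η)
    refine e1.trans (add_le_add (add_le_add (gm_mono _ fun x => mul_le_mul_of_nonneg_left ?_ (abs_nonneg _)) le_rfl) le_rfl)
    have h0 : 0 ≤ FR14 μ s N Q δ B b0 b b' j a M t 0 η x := F14_nonneg 0 x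
    show 3 * FR14 μ s N Q δ B b0 b b' j a M t 1 η x ≤ _
    linarith
  have key := side14 (μ := μ) (w := fun η => lw μ s η N Q) (wi := wi38 μ s N Q δ B b0 j a t) (p := pJ (Q := Q) (j - b') (j + b'))
    (χ := NI (j + b0) (j + b)) (Yf := Yf) (g := fun η => gj μ s η δ B b0 j a) (C1 := CR38 μ s N Q δ B b0 j a t (R1 b0 b j))
    (C2 := CR38 μ s N Q δ B b0 j a t (R2 b0 b j)) (tie := tieR38 μ s N Q δ B b0 b j a (j + b0 + 2 * kn38 b0 b))
    (tub1 := tub38 N sl R ((j + b' : ℕ) : ℤ) (R1 b0 b j)) (tub2 := tub38 N sl R ((j + b' : ℕ) : ℤ) (R2 b0 b j)) mw mi hYm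
    (fun _ _ => NI_nonneg _ _ _ _) (fun _ _ => NI_le_one _ _ _ _) (tie_nonneg fun _ _ => NI_nonneg _ _ _ _) (tub_nonneg sl R _ _)
    (tub_nonneg sl R _ _) (F0 := fun η x => i1 (Tau (lw μ s η N Q) (pJ (j - b') (j + b')) (j + b0) (j + b) M x))
    (F := FR14 μ s N Q δ B b0 b b' j a M t) (mf_tau mw _ _ _ _) (fun i => mf_F14 mw mi hgm i) (fun i η x => F14_nonneg i x)
    (fun η x => i1_nonneg _) (bd1 := bd14 sl R (j + b') (R1 b0 b j) (j + uu14 b0 b) (j + b'))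
    (bd2 := bd14 sl R (j + b') (R2 b0 b j) (j + uu14 b0 b) (j + b')) (bd14_nonneg _ _ _ _ _ _) (bd14_le_one _ _ _ _ _ _)
    (bd14_nonneg _ _ _ _ _ _) (bd14_le_one _ _ _ _ _ _) (e0 := Real.exp (4 * B) * Real.exp (-(5 * M))) (tn := tn (B / 2) M N)
    (tn2 := tn (B / 2) M N + B * (Real.exp (4 * B) * Real.exp (-(5 * M)))) (B := B) (G := Gn14 Λ R B b0 b) (E2 := Real.exp (2 * B))
    (by positivity) (tn_nonneg14 hB0 M N) (add_nonneg (tn_nonneg14 hB0 M N) (by positivity)) hB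
    (mul_nonneg hΛ (Real.sqrt_nonneg _)) hG (Real.exp_pos _).le
    (fun η x => hb_le14 (hD η) _ (fun _ _ => NI_nonneg _ _ _ _) (fun _ _ => le_rfl) M x)
    (fun η x => dgR14 hB0 η δ b0 b b' j ha ht (fun _ _ => NI_nonneg _ _ _ _) (fun _ _ => le_rfl) (j + b0 + 2 * kn38 b0 b) M x)
    (a3 ne1 mR1) (a3 ne2 mR2) (a4 ne1 mR1) (a4 ne2 mR2) (ouR mR1) (ouR mR2) (frR (R1 b0 b j)) (frR (R2 b0 b j))
  refine le_trans (le_of_eq ?_) (key.trans (le_of_eq ?_))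
  · rfl
  · unfold er14
    ring

/-- **THE LEFT SIDE.** -/
theorem LS_le14 {y : ℤ} (hy : ∀ S : Px Q, ps S N = y) {δ B : ℝ} (hB : 1 ≤ B) {b0 b b' j : ℕ} (hb6 : b0 + 6 ≤ b) (hbb : b ≤ b')
    (hj : b' ≤ j) (hjN : j + b' ≤ N)
    {a : ℤ} (ha : |(a : ℝ)| ≤ 1) {t : ℝ} (ht : |t| ≤ 1) {Yf : Env → Px Q → ℝ} {L : ℝ} (hY : Psg N b0 b b' j Yf L)
    {sl R : ℝ} (hR : 1 ≤ R) {Λ : ℝ} (hΛ : 0 ≤ Λ) (hG : Gn14 Λ R B b0 b ≤ 1) {M : ℝ} (hM : 4 * B ≤ M) :
    LS38 μ s N Q δ B b0 b b' j a Yf sl R Λ t ≤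
      Gn14 Λ R B b0 b ^ 2 * B ^ 2 * IY μ (fun η => lw μ s η N Q) Yf
        (fun η x => i1 (Tau (lw μ s η N Q) (pJ (j - b') (j + b')) (j - b) (j - b0) M x)) +
      32 * B ^ 4 * ∑ i, IY μ (fun η => lw μ s η N Q) Yf (FL14 μ s N Q δ B b0 b b' j a M t i) +
      32 * B ^ 4 * (L * er14 B M (∫ η, gm (lw μ s η N Q) (bd14 sl R (j - b') (L1 b0 b j) (j - b') (j - uu14 b0 b)) ∂(law μ) +
        ∫ η, gm (lw μ s η N Q) (bd14 sl R (j - b') (L2 b0 b j) (j - b') (j - uu14 b0 b)) ∂(law μ)) N) := by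
  have hB0 : 0 ≤ B := by linarith
  have hk := kn38_le b0 b
  have hk1 : 1 ≤ kn38 b0 b := by
    unfold kn38
    omega
  have mg := meas_gj38 (μ := μ) (s := s) (Q := Q) hB0 δ b0 j ha
  have hg : ∀ η x, |gj (Q := Q) μ s η δ B b0 j a x| ≤ B / 2 := fun η x => abs_gj η hB0 ha b0 j x
  have mw : ∀ x : Px Q, Measurable fun η => lw μ s η N Q x := fun x => meas_lw x
  have mi := meas_wi38 (μ := μ) (s := s) (N := N) (Q := Q) hB0 δ b0 j ha t
  have hYm : MF Yf L := MF.of hY.ms hY.bd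
  have hgm : MF (fun η => gj (Q := Q) μ s η δ B b0 j a) (B / 2) := MF.of mg hg
  have hθ : |t - a| ≤ 2 := (abs_sub _ _).trans (by linarith)
  have hD : ∀ η x, |wi38 μ s N Q δ B b0 j a t η x - lw μ s η N Q x| ≤ B := fun η x => wt_near14 hB0 η δ b0 j ha ht x
  have mR1 : ∀ r ∈ L1 b0 b j, j - b ≤ r ∧ j - uu14 b0 b ≤ r ∧ r ≤ j - b0 := fun r hr => by
    unfold L1 at hr
    rw [mem_Ico] at hr
    unfold uu14
    omega
  have mR2 : ∀ r ∈ L2 b0 b j, j - b ≤ r ∧ j - uu14 b0 b ≤ r ∧ r ≤ j - b0 := fun r hr => by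
    unfold L2 at hr
    rw [mem_Ico] at hr
    unfold uu14
    omega
  have ne1 : (L1 b0 b j).Nonempty := ⟨j - b0 - 3 * kn38 b0 b, by
    unfold L1
    rw [mem_Ico]
    omega⟩
  have ne2 : (L2 b0 b j).Nonempty := ⟨j - b0 - 4 * kn38 b0 b, by
    unfold L2
    rw [mem_Ico]
    omega⟩
  have hu : j - b ≤ j - uu14 b0 b := by
    unfold uu14
    omega
  have hu0 : j - uu14 b0 b ≤ j - b0 := by
    unfold uu14
    omega
  have hzr : j - b' ≤ j - uu14 b0 b := by omega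
  have hM8 : 8 * (B / 2) ≤ M := by linarith
  have hM0 : 0 ≤ M := by linarith
  -- the remainders
  have inj : ∀ {J : Finset ℕ}, J.Nonempty → (∀ r ∈ J, j - b ≤ r ∧ j - uu14 b0 b ≤ r ∧ r ≤ j - b0) → ∀ (η : Env) (x : Px Q) {χ : Px Q → Px Q → ℝ},
      (∀ y z, 0 ≤ χ y z) → ∀ {u v : ℕ}, (∀ y z, χ y z ≤ NI u v y z) →
      dt (wi38 μ s N Q δ B b0 j a t η) (pJ (j - b') (j + b')) χ (fun y => |gj μ s η δ B b0 j a y - CL38 μ s N Q δ B b0 j a t J η y|) x ≤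
        B * Ph (lw μ s η N Q) (wi38 μ s N Q δ B b0 j a t η) (pJ (j - b') (j + b')) (pJ (j - b) (j + b)) (gj μ s η δ B b0 j a) M J
          (fun r => mI (lw μ s η N Q) (pJ r N) (j + b0) (j + b)) u v x + tn (B / 2) M N := fun {J} hJ hJr η x {χ} hχ {u v} hχ' => by
    rw [dt_eq]
    have e := injL (w := lw μ s η N Q) (g := gj μ s η δ B b0 j a) (M := B / 2) (θ := t - a) (m := M) (al := j - b0) (be := j + b0) (e0 := N)
      (c1 := j - b) (d1 := j + b) (D := N) (hg η) (gj_ends δ B b0 j a η) hθ hM8 (fun t u htu => ex_lw η htu)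
      (p := pJ (j - b') (j + b')) (crs_pJ (by omega) (by omega)) (by omega) (by omega) (by omega) (by omega) hJ
      (fun r hr => ⟨(hJr r hr).1, (hJr r hr).2.2⟩) hχ hχ' x
    refine e.trans (le_of_eq ?_)
    rw [mul_div_cancel₀ B (two_ne_zero)]
    rfl
  have a3 : ∀ {J : Finset ℕ}, J.Nonempty → (∀ r ∈ J, j - b ≤ r ∧ j - uu14 b0 b ≤ r ∧ r ≤ j - b0) → ∀ (η : Env) (x : Px Q),
      dt (wi38 μ s N Q δ B b0 j a t η) (pJ (j - b') (j + b')) (NI (j - b) (j - b0))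
        (fun y => |gj μ s η δ B b0 j a y - CL38 μ s N Q δ B b0 j a t J η y|) x ≤
        B * (oml (lw μ s η N Q) (wi38 μ s N Q δ B b0 j a t η) (pJ (j - b') (j + b')) (j - b) (j - b0) M
          (mos (lw μ s η N Q) (pJ (j - b) (j + b)) (gj μ s η δ B b0 j a) M) x +
          (J.card : ℝ)⁻¹ * ∑ r ∈ J, oml (lw μ s η N Q) (wi38 μ s N Q δ B b0 j a t η) (pJ (j - b') (j + b')) (j - b) (j - b0) M
            (mlo (lw μ s η N Q) (pJ r N) (j + b0) (j + b) M) x) + tn (B / 2) M N := fun {J} hJ hJr η x =>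
    inj14 (pm := fun r => pJ r N) hB0 le_rfl le_rfl x (inj hJ hJr η x (fun _ _ => NI_nonneg _ _ _ _) fun _ _ => le_rfl)
  have a4 : ∀ {J : Finset ℕ}, J.Nonempty → (∀ r ∈ J, j - b ≤ r ∧ j - uu14 b0 b ≤ r ∧ r ≤ j - b0) → ∀ (η : Env) (x : Px Q),
      hb (wi38 μ s N Q δ B b0 j a t η) (pJ (j - b') (j + b')) (NI (j - b) (j - b0)) x *
        cE (wi38 μ s N Q δ B b0 j a t η) (pJ (j - b') (j + b')) (fun y => |gj μ s η δ B b0 j a y - CL38 μ s N Q δ B b0 j a t J η y|) x ≤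
        B * (otl (lw μ s η N Q) (wi38 μ s N Q δ B b0 j a t η) (pJ (j - b') (j + b')) (j - b) (j - b0) M
          (mos (lw μ s η N Q) (pJ (j - b) (j + b)) (gj μ s η δ B b0 j a) M) x +
          (J.card : ℝ)⁻¹ * ∑ r ∈ J, otl (lw μ s η N Q) (wi38 μ s N Q δ B b0 j a t η) (pJ (j - b') (j + b')) (j - b) (j - b0) M
            (mlo (lw μ s η N Q) (pJ r N) (j + b0) (j + b) M) x) +
        (tn (B / 2) M N + B * (Real.exp (4 * B) * Real.exp (-(5 * M)))) := fun {J} hJ hJr η x => by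
    refine sh14 (pm := fun r => pJ r N) hB0 (tn_nonneg14 hB0 M N) (by positivity) le_rfl le_rfl (fun y => ?_) x
      (hb_le14 (hD η) _ (fun _ _ => NI_nonneg _ _ _ _) (fun _ _ => le_rfl) M x) ?_
    · exact (abs_sub _ _).trans ((add_le_add (hg η y) (abs_CL38 hB0 δ b0 j ha t J η y)).trans (by linarith))
    · have e := inj hJ hJr η x (χ := fun _ _ => 1) (fun _ _ => zero_le_one) (u := 1) (v := 0) (fun y z => by
        unfold NI
        rw [if_pos]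
        intro r h1 h2
        omega)
      rw [dt_eq] at e
      have e1 : (fun y => |gj μ s η δ B b0 j a y - CL38 μ s N Q δ B b0 j a t J η y| *
          cE (wi38 μ s N Q δ B b0 j a t η) (pJ (j - b') (j + b')) (fun _ : Px Q => (1 : ℝ)) x) =
          fun y => |gj μ s η δ B b0 j a y - CL38 μ s N Q δ B b0 j a t J η y| := by
        funext y
        rw [cE_const, mul_one]
      rw [e1, Ph_empty (M := M) J _ hM0 (show (0 : ℕ) < 1 by norm_num)] at e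
      exact e
  have ouR : ∀ {J : Finset ℕ}, (∀ r ∈ J, j - b ≤ r ∧ j - uu14 b0 b ≤ r ∧ r ≤ j - b0) → ∀ η : Env,
      ou (lw μ s η N Q) (wi38 μ s N Q δ B b0 j a t η) (pJ (j - b') (j + b')) (NI (j - b) (j - b0)) (Yf η) (CL38 μ s N Q δ B b0 j a t J η) ≤
        B * (gm (lw μ s η N Q) (fun x => |Yf η x| * (FL14 μ s N Q δ B b0 b b' j a M t 0 η x + FL14 μ s N Q δ B b0 b b' j a M t 1 η x)) +
          L * (4 * (Real.exp (4 * B) * Real.exp (-(5 * M))))) := fun {J} hJr η => by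
    have e1 := ou_le38 (c := j - b') (al := j - uu14 b0 b) (be := j - b0) (d := j + b') hu0 (w := lw μ s η N Q) (Wk_lw η hu0)
      (wi38 μ s N Q δ B b0 j a t η) (χ := NI (j - b) (j - b0)) (fun _ _ => NI_nonneg _ _ _ _) (hY.mp η)
      (C := CL38 μ s N Q δ B b0 j a t J η) (lk_CL38 δ B a t (fun r hr => ⟨(hJr r hr).2.1, (hJr r hr).2.2, (hJr r hr).2.2⟩) η (by omega) hy) (D := B / 2)
      (fun S => abs_CL38 hB0 δ b0 j ha t J η S)
    have e2 := ou_red14 (hD η) hB0 (pJ (Q := Q) (j - b') (j + b')) (χ := NI (j - b) (j - b0)) (fun _ _ => NI_nonneg _ _ _ _)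
      (fun _ _ => le_rfl) M (hY.bd η) (c := j - b') (al := j - uu14 b0 b) (be := j - b0) (d := j + b') (aL := j - uu14 b0 b)
      (bR := j + uu14 b0 b) le_rfl (by omega)
    have e3 : 2 * (B / 2) = B := by ring
    rw [e3] at e1
    exact e1.trans (mul_le_mul_of_nonneg_left e2 hB0)
  have frR : ∀ (J : Finset ℕ) (η : Env), fr (lw μ s η N Q) (wi38 μ s N Q δ B b0 j a t η) (pJ (j - b') (j + b')) (NI (j - b) (j - b0)) (Yf η)
      (tub38 N sl R ((j - b' : ℕ) : ℤ) J) ≤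
        gm (lw μ s η N Q) (fun x => |Yf η x| * (3 * (FL14 μ s N Q δ B b0 b b' j a M t 0 η x + FL14 μ s N Q δ B b0 b b' j a M t 1 η x))) +
          L * (6 * (Real.exp (4 * B) * Real.exp (-(5 * M)))) +
          L * (15 * Real.exp (2 * B) * gm (lw μ s η N Q) (bd14 sl R (j - b') J (j - b') (j - uu14 b0 b))) := fun J η => by
    have e1 := fr_red14 (w := lw μ s η N Q) (J := J) (sl := sl) hR (show j - b' ≤ N by omega) hzr (hD η) hB0 (p := pJ (Q := Q) (j - b') (j + b')) (fun S S' hS => by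
      unfold InT57.pz
      rw [Int.toNat_natCast]
      exact ps_of_le hS le_rfl) (χ := NI (j - b) (j - b0)) (fun _ _ => NI_nonneg _ _ _ _) (fun _ _ => le_rfl) M (hY.bd η)
    refine e1.trans (add_le_add (add_le_add (gm_mono _ fun x => mul_le_mul_of_nonneg_left ?_ (abs_nonneg _)) le_rfl) le_rfl)
    have h0 : 0 ≤ FL14 μ s N Q δ B b0 b b' j a M t 1 η x := F14_nonneg 1 x
    show 3 * FL14 μ s N Q δ B b0 b b' j a M t 0 η x ≤ _
    linarith
  have key := side14 (μ := μ) (w := fun η => lw μ s η N Q) (wi := wi38 μ s N Q δ B b0 j a t) (p := pJ (Q := Q) (j - b') (j + b'))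
    (χ := NI (j - b) (j - b0)) (Yf := Yf) (g := fun η => gj μ s η δ B b0 j a) (C1 := CL38 μ s N Q δ B b0 j a t (L1 b0 b j))
    (C2 := CL38 μ s N Q δ B b0 j a t (L2 b0 b j)) (tie := tieL38 μ s N Q δ B b0 b j a (j - b0 - 2 * kn38 b0 b))
    (tub1 := tub38 N sl R ((j - b' : ℕ) : ℤ) (L1 b0 b j)) (tub2 := tub38 N sl R ((j - b' : ℕ) : ℤ) (L2 b0 b j)) mw mi hYm
    (fun _ _ => NI_nonneg _ _ _ _) (fun _ _ => NI_le_one _ _ _ _) (tie_nonneg fun _ _ => NI_nonneg _ _ _ _) (tub_nonneg sl R _ _)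
    (tub_nonneg sl R _ _) (F0 := fun η x => i1 (Tau (lw μ s η N Q) (pJ (j - b') (j + b')) (j - b) (j - b0) M x))
    (F := FL14 μ s N Q δ B b0 b b' j a M t) (mf_tau mw _ _ _ _) (fun i => mf_F14 mw mi hgm i) (fun i η x => F14_nonneg i x)
    (fun η x => i1_nonneg _) (bd1 := bd14 sl R (j - b') (L1 b0 b j) (j - b') (j - uu14 b0 b))
    (bd2 := bd14 sl R (j - b') (L2 b0 b j) (j - b') (j - uu14 b0 b)) (bd14_nonneg _ _ _ _ _ _) (bd14_le_one _ _ _ _ _ _)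
    (bd14_nonneg _ _ _ _ _ _) (bd14_le_one _ _ _ _ _ _) (e0 := Real.exp (4 * B) * Real.exp (-(5 * M))) (tn := tn (B / 2) M N)
    (tn2 := tn (B / 2) M N + B * (Real.exp (4 * B) * Real.exp (-(5 * M)))) (B := B) (G := Gn14 Λ R B b0 b) (E2 := Real.exp (2 * B))
    (by positivity) (tn_nonneg14 hB0 M N) (add_nonneg (tn_nonneg14 hB0 M N) (by positivity)) hB
    (mul_nonneg hΛ (Real.sqrt_nonneg _)) hG (Real.exp_pos _).le
    (fun η x => hb_le14 (hD η) _ (fun _ _ => NI_nonneg _ _ _ _) (fun _ _ => le_rfl) M x)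
    (fun η x => dgL14 hB0 η δ b0 b b' j ha ht (fun _ _ => NI_nonneg _ _ _ _) (fun _ _ => le_rfl) (j - b0 - 2 * kn38 b0 b) M x)
    (a3 ne1 mR1) (a3 ne2 mR2) (a4 ne1 mR1) (a4 ne2 mR2) (ouR mR1) (ouR mR2) (frR (L1 b0 b j)) (frR (L2 b0 b j))
  refine le_trans (le_of_eq ?_) (key.trans (le_of_eq ?_))
  · rfl
  · unfold er14
    ring


end Mod

end

end Pool.W7d29a1.C0.N14
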