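import Pool.Agent.W_7d29a1_C0.PrE46
import Pool.Agent.W_7d29a1_C0.N1C14

/-!
MP_7d29a1_pr, [CURV0], leaf E5 / N1B (helper46): THE LINES `0` AND `1` OF BOTH SIDES OF A ROW (`FR14`, `FL14` of helper14: own pair in the
micro window, free replica which does not meet the path on a short piece) IN THE INTERFACE `Pr46`, at the concrete frame, for all levels
`0 < M ≤ n ^ κ`: by comparison with the products `tj * ow46` (`PrE46`).
-/

set_option autoImplicit false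
set_option linter.unusedSectionVars false
set_option linter.dupNamespace false

namespace Pool.Agent.W_7d29a1_C0.Pr46

open Finset MeasureTheory Filter Topology
open Pool.Agent.W_7d29a1_F Pool.Agent.W_7d29a1_X
open Pool.Agent.W_7d29a1_H (EE EE_pos one_le_EE sl)
open Pool.Agent.W_7d29a1_HS (In wd)
open Pool.Agent.W_7d29a1_C0 Pool.Agent.W_7d29a1_C0.Mod92 Pool.Agent.W_7d29a1_C0.Asm96
open Pool.Agent.W_7d29a1_C0.Frm33
open Pool.Agent.W_7d29a1_C0.N38 (av BM BM.add BM.mul BM.abs BM.sum BM.zero BM.smul BM.sq)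
open Pool.Agent.W_7d29a1_C0.Sz23 (tj)
open Pool.Agent.W_7d29a1_C0.NTop23 (avF)
open Pool.Agent.W_7d29a1_C0.Par92 (Est Sml)
open Pool.W7d29a1.C0 (gz gm gz_pos gz_ne gm_nonneg gm_mono gm_const)
open Pool.W7d29a1.C0.R43 (Tau)
open Pool.W7d29a1.C0.S1 (tI i1 i1_nonneg)
open Pool.Agent.W_7d29a1_C0.Base5 (pW)
open Pool.Agent.W_7d29a1_C0.Swap57 (NI NI_nonneg)
open Pool.Agent.W_7d29a1_C0.Lng36 (meas_i36)
open Pool.W7d29a1.C0.L38 (kn38 kn38_le)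
open Pool.W7d29a1.C0.PM14 (dT dT_nonneg dT_le_one oM)
open Pool.W7d29a1.C0.N14 (FR14 FL14 uu14)

noncomputable section

/-- The short pieces start at most at three quarters of the window. -/
theorem uu_le46 {b0 b : ℕ} (h : 4 * b0 ≤ b) : 4 * uu14 b0 b ≤ 3 * b := by
  have h1 := kn38_le b0 b
  unfold uu14
  omega

section Dt

variable {N y : ℕ}

/-- **The double tie of the row is at most `tI * ow46`.** -/
theorem dT_le46 (w : Px (Pn N y) → ℝ) {b0 b b' u j : ℕ} {M : ℝ} (hM : 0 < M) (sd so : Bool) (S : Px (Pn N y)) :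
    dT w (pJ (j - b') (j + b')) (if sd then j + b0 else j - b) (if sd then j + b else j - b0) (cA so u b' j) (dA so u b' j) M S ≤
      tI w (pW b' j) (j - b) (j - b0) (j + b0) (j + b) M S * ow46 w u b' j M S := by
  have h1 : i1 (Tau w (pJ (j - b') (j + b')) (if sd then j + b0 else j - b) (if sd then j + b else j - b0) M S) ≤
      tI w (pW b' j) (j - b) (j - b0) (j + b0) (j + b) M S := by
    cases sd
    · exact le_add_of_nonneg_right (i1_nonneg _)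
    · exact le_add_of_nonneg_left (i1_nonneg _)
  have h2 : oM w (cA so u b' j) (dA so u b' j) M S ≤ ow46 w u b' j M S := by
    have h3 : oM w (cA so u b' j) (dA so u b' j) M S ≤ i1 (Real.exp (-(7 * M)) < gm w (NI (cA so u b' j) (dA so u b' j) S)) := by
      unfold oM
      exact i1_mono fun h => (Real.exp_lt_exp.2 (show -(7 * M) < -(5 * M) by linarith)).trans_le h
    refine h3.trans ?_
    have h4 : 0 ≤ tI w (pJ 0 N) (j - b') (j - u) (j + u) (j + b') M S := add_nonneg (i1_nonneg _) (i1_nonneg _)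
    have h5 := i1_nonneg (Real.exp (-(7 * M)) < gm w (NI (j - b') (j - u) S))
    have h6 := i1_nonneg (Real.exp (-(7 * M)) < gm w (NI (j + u) (j + b') S))
    unfold ow46
    cases so
    · show i1 (Real.exp (-(7 * M)) < gm w (NI (j - b') (j - u) S)) ≤ _
      linarith
    · show i1 (Real.exp (-(7 * M)) < gm w (NI (j + u) (j + b') S)) ≤ _
      linarith
  unfold dT
  exact mul_le_mul h1 h2 (i1_nonneg _) (add_nonneg (i1_nonneg _) (i1_nonneg _))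

end Dt

variable {μ : Measure ℝ} [IsProbabilityMeasure μ] {s : ℝ}

theorem meas_dT46 {N y : ℕ} (U V i k : ℕ) (p : Px (Pn N y) → Finset ℕ × ℕ) (M : ℝ) (S : Px (Pn N y)) :
    Measurable fun ω => dT (wm μ s N (Pn N y) ω) p U V i k M S := by
  unfold dT oM
  refine (meas_Tau46 p U V M S).mul ?_
  simp only [i1_eq36]
  have : Nonempty (Px (Pn N y)) := ⟨S⟩
  exact meas_i36 (measurableSet_le measurable_const (meas_gm meas_wm fun _ => measurable_const))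

theorem bm_dT46 {F : Frm96} {m : ℕ} (U V i k : ℕ) (p : ∀ y, Px (Pn (F.L m) y) → Finset ℕ × ℕ) (M : ℝ) :
    BM (F.ys m) fun y ω S => dT (wm μ s (F.L m) (Pn (F.L m) y) ω) (p y) U V i k M S :=
  ⟨⟨1, fun y _ ω S => by
    have : Nonempty (Px (Pn (F.L m) y)) := ⟨S⟩
    have h1 := dT_nonneg (wm μ s (F.L m) (Pn (F.L m) y) ω) (p y) U V i k M S
    have h2 := dT_le_one (wm μ s (F.L m) (Pn (F.L m) y) ω) (p y) U V i k M S
    exact (abs_of_nonneg h1).trans_le h2⟩, fun y _ S => meas_dT46 _ _ _ _ _ _ S⟩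

theorem bm_tj46 {F : Frm96} {m : ℕ} (b0 b b' j : ℕ) (M : ℝ) :
    BM (F.ys m) fun y ω S => tj μ s (F.L m) (Pn (F.L m) y) b0 b b' M ω j S :=
  ⟨⟨2, fun y _ ω S => by
    unfold tj tI
    have h1 := i1_le1 (Tau (wm μ s (F.L m) (Pn (F.L m) y) ω) (pW b' j) (j - b) (j - b0) M S)
    have h2 := i1_le1 (Tau (wm μ s (F.L m) (Pn (F.L m) y) ω) (pW b' j) (j + b0) (j + b) M S)
    rw [abs_of_nonneg (add_nonneg (i1_nonneg _) (i1_nonneg _))]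
    linarith⟩, fun y _ S => (meas_Tau46 _ _ _ _ S).add (meas_Tau46 _ _ _ _ S)⟩

theorem bm_ow46 {F : Frm96} {m : ℕ} (u b' j : ℕ) (M : ℝ) :
    BM (F.ys m) fun y ω S => ow46 (wm μ s (F.L m) (Pn (F.L m) y) ω) u b' j M S :=
  ⟨⟨4, fun y _ ω S => by
    rw [abs_of_nonneg (ow_nonneg _ _ _ _ _ _), ow_eq46]
    simp only [Fintype.sum_bool]
    have g1 := oA_le_one true true (wm μ s (F.L m) (Pn (F.L m) y) ω) u b' j M S
    have g2 := oA_le_one true false (wm μ s (F.L m) (Pn (F.L m) y) ω) u b' j M S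
    have g3 := oA_le_one false true (wm μ s (F.L m) (Pn (F.L m) y) ω) u b' j M S
    have g4 := oA_le_one false false (wm μ s (F.L m) (Pn (F.L m) y) ω) u b' j M S
    linarith⟩, fun y _ S => meas_ow46 _ _ _ _ S⟩

/-- **THE LINES `0` AND `1` OF BOTH SIDES**, the core. -/
theorem prG_core46 {c₁ C : ℝ} {n₀ : ℕ} (h : In μ s c₁ C n₀) (hk : KapLe96 (EE μ s) (1 / 4)) {K : ℕ} (hK : 32 ≤ K)
    {c₀ Θ δ c η : ℝ} (hR : RegP46 μ s c₀ Θ) (hδ : 0 < δ) (hc : 0 < c) (hc1 : c ≤ 1) (hcδ : c ≤ δ / 64) (hη : 0 ≤ η) :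
    ∃ κ : ℝ, 0 < κ ∧ ∀ A : ℝ, Sml fun ι => ∀ β γ : ℝ, ∀ᶠ m : ℕ in atTop, ∀ p p' q i : ℕ, Chg96 (EE μ s) Θ δ c η m p p' q →
      i < 2 ^ (m - q) → ∀ M : ℝ, 0 < M → M ≤ ((2 ^ m : ℕ) : ℝ) ^ κ → ∀ sd so : Bool,
        Pr46 μ s (frm33 μ s K ι β γ) (EE μ s) Θ c m p p' q i (c / 8) A fun _ j D =>
          avF μ s (frm33 μ s K ι β γ) m fun y ω S =>
            dT (wm μ s (L33 K m) (Pn (L33 K m) y) ω) (pJ (j - 2 ^ p') (j + 2 ^ p'))
              (if sd then j + 2 ^ (p - ⌈ι * (m : ℝ)⌉₊) else j - 2 ^ p) (if sd then j + 2 ^ p else j - 2 ^ (p - ⌈ι * (m : ℝ)⌉₊))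
              (cA so (uu14 (2 ^ (p - ⌈ι * (m : ℝ)⌉₊)) (2 ^ p)) (2 ^ p') j) (dA so (uu14 (2 ^ (p - ⌈ι * (m : ℝ)⌉₊)) (2 ^ p)) (2 ^ p') j)
              M S * |D y ω S| := by
  obtain ⟨κ, hκ, H⟩ := prE_core46 h hk hK hR hδ hc hc1 hcδ hη
  refine ⟨κ, hκ, fun A => (H A).mono fun ι hι0 h1 β γ => ?_⟩
  filter_upwards [h1 β γ, (tendsto_natCast_atTop_atTop.const_mul_atTop hι0).eventually_gt_atTop 1,
    (tendsto_natCast_atTop_atTop.const_mul_atTop hδ).eventually_ge_atTop 6] with m h2 h11 h12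
  intro p p' q i hC hi M hM0 hM sd so
  have hp2 : 2 ≤ p := by
    have g1 : (6 : ℝ) ≤ p := h12.trans hC.hp
    have g2 : 6 ≤ p := by exact_mod_cast g1
    omega
  have hbb : 2 ^ p ≤ 2 ^ p' := Nat.pow_le_pow_right two_pos hC.hpp
  have hu : 4 * uu14 (2 ^ (p - ⌈ι * (m : ℝ)⌉₊)) (2 ^ p) ≤ 3 * 2 ^ p' := (uu_le46 (b0_quarter h11 hp2)).trans (by omega)
  have hyF : ∀ y ∈ (frm33 μ s K ι β γ).ys m, y ≤ (frm33 μ s K ι β γ).L m := hy33 (by omega) m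
  refine (h2 p p' q i hC hi M hM _ hu).mono fun t ht k j D Mh hD hj => ?_
  have hDa := hD.bm.abs
  exact avF_mono hyF ((bm_dT46 _ _ _ _ _ _).mul hDa) (hDa.mul ((bm_tj46 _ _ _ _ _).mul (bm_ow46 _ _ _ _))) fun y _ ω S => by
    rw [mul_comm]
    exact mul_le_mul_of_nonneg_left (dT_le46 _ hM0 sd so S) (abs_nonneg _)

/-- **THE LINES `0` AND `1` OF `FR14` AND `FL14` AT THE CONCRETE FRAME** (every `δ'`, `B'`, every sign `a`; `e = 0` or `1`). -/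
theorem prG_all46 {c₁ C : ℝ} {n₀ : ℕ} (h : In μ s c₁ C n₀) (hk : KapLe96 (EE μ s) (1 / 4)) {K : ℕ} (hK : 32 ≤ K)
    {c₀ Θ δ c η : ℝ} (hR : RegP46 μ s c₀ Θ) (hδ : 0 < δ) (hc : 0 < c) (hc1 : c ≤ 1) (hcδ : c ≤ δ / 64) (hη : 0 ≤ η) :
    ∃ κ : ℝ, 0 < κ ∧ ∀ A : ℝ, Sml fun ι => ∀ β γ : ℝ, ∀ᶠ m : ℕ in atTop, ∀ p p' q i : ℕ, Chg96 (EE μ s) Θ δ c η m p p' q →
      i < 2 ^ (m - q) → ∀ M : ℝ, 0 < M → M ≤ ((2 ^ m : ℕ) : ℝ) ^ κ → ∀ (δ' B' : ℝ) (a : Env × Finset ℕ → ℕ → ℤ) (e : Fin 9), e = 0 ∨ e = 1 →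
        (Pr46 μ s (frm33 μ s K ι β γ) (EE μ s) Θ c m p p' q i (c / 8) A fun t j D =>
          avF μ s (frm33 μ s K ι β γ) m fun y ω S =>
            FR14 μ s (L33 K m) (Pn (L33 K m) y) δ' B' (2 ^ (p - ⌈ι * (m : ℝ)⌉₊)) (2 ^ p) (2 ^ p') j (a ω j) M t e ω.1 S * |D y ω S|) ∧
        (Pr46 μ s (frm33 μ s K ι β γ) (EE μ s) Θ c m p p' q i (c / 8) A fun t j D =>
          avF μ s (frm33 μ s K ι β γ) m fun y ω S =>
            FL14 μ s (L33 K m) (Pn (L33 K m) y) δ' B' (2 ^ (p - ⌈ι * (m : ℝ)⌉₊)) (2 ^ p) (2 ^ p') j (a ω j) M t e ω.1 S * |D y ω S|) := by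
  obtain ⟨κ, hκ, H⟩ := prG_core46 h hk hK hR hδ hc hc1 hcδ hη
  refine ⟨κ, hκ, fun A => (H A).mono fun ι hι0 h1 β γ => ?_⟩
  filter_upwards [h1 β γ] with m h2
  intro p p' q i hC hi M hM0 hM δ' B' a e he
  rcases he with he | he
  · subst he
    exact ⟨h2 p p' q i hC hi M hM0 hM true false, h2 p p' q i hC hi M hM0 hM false false⟩
  · subst he
    exact ⟨h2 p p' q i hC hi M hM0 hM true true, h2 p p' q i hC hi M hM0 hM false true⟩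

/-- **PrG46**, the order `ι`, `β`, `γ`, at the level `n ^ κ'` for all `κ' ≤ κ`. -/
theorem PrG46 {c₁ C : ℝ} {n₀ : ℕ} (h : In μ s c₁ C n₀) (hk : KapLe96 (EE μ s) (1 / 4)) {K : ℕ} (hK : 32 ≤ K)
    {c₀ Θ δ c η : ℝ} (hR : RegP46 μ s c₀ Θ) (hδ : 0 < δ) (hc : 0 < c) (hc1 : c ≤ 1) (hcδ : c ≤ δ / 64) (hη : 0 ≤ η) :
    ∃ κ : ℝ, 0 < κ ∧ ∀ A : ℝ, Est fun ι β γ m => ∀ p p' q i : ℕ, Chg96 (EE μ s) Θ δ c η m p p' q →
      i < 2 ^ (m - q) → ∀ κ' : ℝ, κ' ≤ κ → ∀ (δ' B' : ℝ) (a : Env × Finset ℕ → ℕ → ℤ) (e : Fin 9), e = 0 ∨ e = 1 →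
        (Pr46 μ s (frm33 μ s K ι β γ) (EE μ s) Θ c m p p' q i (c / 8) A fun t j D =>
          avF μ s (frm33 μ s K ι β γ) m fun y ω S =>
            FR14 μ s (L33 K m) (Pn (L33 K m) y) δ' B' (2 ^ (p - ⌈ι * (m : ℝ)⌉₊)) (2 ^ p) (2 ^ p') j (a ω j) (((2 ^ m : ℕ) : ℝ) ^ κ')
              t e ω.1 S * |D y ω S|) ∧
        (Pr46 μ s (frm33 μ s K ι β γ) (EE μ s) Θ c m p p' q i (c / 8) A fun t j D =>
          avF μ s (frm33 μ s K ι β γ) m fun y ω S =>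
            FL14 μ s (L33 K m) (Pn (L33 K m) y) δ' B' (2 ^ (p - ⌈ι * (m : ℝ)⌉₊)) (2 ^ p) (2 ^ p') j (a ω j) (((2 ^ m : ℕ) : ℝ) ^ κ')
              t e ω.1 S * |D y ω S|) := by
  obtain ⟨κ, hκ, H⟩ := prG_all46 h hk hK hR hδ hc hc1 hcδ hη
  refine ⟨κ, hκ, fun A => (H A).mono fun ι _ h1 => Sml.of fun β _ => Sml.of fun γ _ => ?_⟩
  filter_upwards [h1 β γ] with m h2
  intro p p' q i hC hi κ' hκ' δ' B' a e he
  exact h2 p p' q i hC hi _ (Real.rpow_pos_of_pos (by positivity) _) (Real.rpow_le_rpow_of_exponent_le (n_ge1 m) hκ') δ' B' a e he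

/-- **PrG46'**, the clipping level last. -/
theorem PrG46' {c₁ C : ℝ} {n₀ : ℕ} (h : In μ s c₁ C n₀) (hk : KapLe96 (EE μ s) (1 / 4)) {K : ℕ} (hK : 32 ≤ K)
    {c₀ Θ δ c η : ℝ} (hR : RegP46 μ s c₀ Θ) (hδ : 0 < δ) (hc : 0 < c) (hc1 : c ≤ 1) (hcδ : c ≤ δ / 64) (hη : 0 ≤ η) :
    ∃ κ : ℝ, 0 < κ ∧ ∀ A : ℝ, Est fun ι γ β m => ∀ p p' q i : ℕ, Chg96 (EE μ s) Θ δ c η m p p' q →
      i < 2 ^ (m - q) → ∀ κ' : ℝ, κ' ≤ κ → ∀ (δ' B' : ℝ) (a : Env × Finset ℕ → ℕ → ℤ) (e : Fin 9), e = 0 ∨ e = 1 →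
        (Pr46 μ s (frm33 μ s K ι β γ) (EE μ s) Θ c m p p' q i (c / 8) A fun t j D =>
          avF μ s (frm33 μ s K ι β γ) m fun y ω S =>
            FR14 μ s (L33 K m) (Pn (L33 K m) y) δ' B' (2 ^ (p - ⌈ι * (m : ℝ)⌉₊)) (2 ^ p) (2 ^ p') j (a ω j) (((2 ^ m : ℕ) : ℝ) ^ κ')
              t e ω.1 S * |D y ω S|) ∧
        (Pr46 μ s (frm33 μ s K ι β γ) (EE μ s) Θ c m p p' q i (c / 8) A fun t j D =>
          avF μ s (frm33 μ s K ι β γ) m fun y ω S =>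
            FL14 μ s (L33 K m) (Pn (L33 K m) y) δ' B' (2 ^ (p - ⌈ι * (m : ℝ)⌉₊)) (2 ^ p) (2 ^ p') j (a ω j) (((2 ^ m : ℕ) : ℝ) ^ κ')
              t e ω.1 S * |D y ω S|) := by
  obtain ⟨κ, hκ, H⟩ := prG_all46 h hk hK hR hδ hc hc1 hcδ hη
  refine ⟨κ, hκ, fun A => (H A).mono fun ι _ h1 => Sml.of fun γ _ => Sml.of fun β _ => ?_⟩
  filter_upwards [h1 β γ] with m h2
  intro p p' q i hC hi κ' hκ' δ' B' a e he
  exact h2 p p' q i hC hi _ (Real.rpow_pos_of_pos (by positivity) _) (Real.rpow_le_rpow_of_exponent_le (n_ge1 m) hκ') δ' B' a e he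

end

end Pool.Agent.W_7d29a1_C0.Pr46
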