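import Pool.Agent.W_7d29a1_C0.N1G14
import Pool.Agent.W_7d29a1_C0.N1E19
import Pool.Agent.W_7d29a1_C0.PrG46

/-!
MP_7d29a1_pr, [CURV0], leaf E5.8 / N1B (helper14): THE ROWS OF `N1B` FROM THE PRICES OF ITS LINES. `PLn14` = the price of a line family at the
frame; `n1R14`: `RowN23` of the third order part from the prices of the eighteen lines and of the own line; `pl01_14`: the lines `0`, `1`.
-/

set_option autoImplicit false
set_option linter.unusedSectionVars false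
set_option linter.unusedVariables false

namespace Pool.W7d29a1.C0.N14

open Finset Filter Topology MeasureTheory
open Pool.Agent.W_7d29a1_F Pool.Agent.W_7d29a1_C0 Pool.W7d29a1.C0 Pool.W7d29a1.C0.VT31
open Pool.Agent.W_7d29a1_H (EE EE_pos one_le_EE sl)
open Pool.Agent.W_7d29a1_HS (In wd)
open Pool.Agent.W_7d29a1_HZ (wd')
open Pool.Agent.W_7d29a1_C0.Swap57 Pool.Agent.W_7d29a1_C0.Mod92 Pool.Agent.W_7d29a1_C0.H32 Pool.Agent.W_7d29a1_C0.Asm96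
open Pool.Agent.W_7d29a1_C0.Frm33 Pool.Agent.W_7d29a1_C0.N38
open Pool.Agent.W_7d29a1_C0.Par92 (Est Sml)
open Pool.Agent.W_7d29a1_C0.Pr46 Pool.Agent.W_7d29a1_C0.N1E19 Pool.Agent.W_7d29a1_C0.NTop23
open Pool.W7d29a1.C0.L38 Pool.W7d29a1.C0.PM14 Pool.W7d29a1.C0.NN1 Pool.W7d29a1.C0.H41

noncomputable section

/-- **THE PRICE OF A FAMILY OF LINES AT THE FRAME**, at all small levels `n ^ κ'`. -/
def PLn14 (μ : Measure ℝ) (s : ℝ) (K : ℕ) (Θ δ c η : ℝ)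
    (Xf : (F : Frm96) → (m p p' : ℕ) → ℝ → ℝ → (y : ℕ) → Env × Finset ℕ → ℕ → Px (Pn (F.L m) y) → ℝ) : Prop :=
  ∃ κ : ℝ, 0 < κ ∧ ∀ κ' : ℝ, 0 < κ' → κ' ≤ κ → ∃ x : ℝ, 0 < x ∧ Est fun ι β γ m => ∀ p p' q i : ℕ, Chg96 (EE μ s) Θ δ c η m p p' q →
    i < 2 ^ (m - q) → Pr46 μ s (frm33 μ s K ι β γ) (EE μ s) Θ c m p p' q i x (7 / 2)
      (Lf19 μ s (frm33 μ s K ι β γ) m (Xf (frm33 μ s K ι β γ) m p p' (((2 ^ m : ℕ) : ℝ) ^ κ')))

/-- **THE PRICE OF THE OWN LINE WITH ITS FACTOR.** -/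
def POw14 (μ : Measure ℝ) (s : ℝ) (K : ℕ) (Θ δ c η la ζ : ℝ) : Prop :=
  ∃ κ : ℝ, 0 < κ ∧ ∀ κ' : ℝ, 0 < κ' → κ' ≤ κ → ∃ x : ℝ, 0 < x ∧ Est fun ι β γ m => ∀ p p' q i : ℕ, Chg96 (EE μ s) Θ δ c η m p p' q →
    i < 2 ^ (m - q) → Pr46 μ s (frm33 μ s K ι β γ) (EE μ s) Θ c m p p' q i x (7 / 2)
      (Lf19 μ s (frm33 μ s K ι β γ) m fun t y ω j S => Gf14 μ s la ζ ι β m p p' ^ 2 * B33 β m ^ 2 *
        OF14 μ s (frm33 μ s K ι β γ) m p p' (((2 ^ m : ℕ) : ℝ) ^ κ') t y ω j S)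

/-- The same for the proper changes of base `p < p'` only. -/
def PLs14 (μ : Measure ℝ) (s : ℝ) (K : ℕ) (Θ δ c η : ℝ)
    (Xf : (F : Frm96) → (m p p' : ℕ) → ℝ → ℝ → (y : ℕ) → Env × Finset ℕ → ℕ → Px (Pn (F.L m) y) → ℝ) : Prop :=
  ∃ κ : ℝ, 0 < κ ∧ ∀ κ' : ℝ, 0 < κ' → κ' ≤ κ → ∃ x : ℝ, 0 < x ∧ Est fun ι β γ m => ∀ p p' q i : ℕ, Chg96 (EE μ s) Θ δ c η m p p' q → p < p' →
    i < 2 ^ (m - q) → Pr46 μ s (frm33 μ s K ι β γ) (EE μ s) Θ c m p p' q i x (7 / 2)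
      (Lf19 μ s (frm33 μ s K ι β γ) m (Xf (frm33 μ s K ι β γ) m p p' (((2 ^ m : ℕ) : ℝ) ^ κ')))

theorem PLn14.strict {μ : Measure ℝ} {s : ℝ} {K : ℕ} {Θ δ c η : ℝ}
    {Xf : (F : Frm96) → (m p p' : ℕ) → ℝ → ℝ → (y : ℕ) → Env × Finset ℕ → ℕ → Px (Pn (F.L m) y) → ℝ} (h : PLn14 μ s K Θ δ c η Xf) :
    PLs14 μ s K Θ δ c η Xf := by
  obtain ⟨κ, hκ, h⟩ := h
  refine ⟨κ, hκ, fun κ' h1 h2 => ?_⟩
  obtain ⟨x, hx, h⟩ := h κ' h1 h2
  exact ⟨x, hx, h.mono fun ι β γ _ _ _ => Eventually.of_forall fun m hh p p' q i hC _ hi => hh p p' q i hC hi⟩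

section Frame

variable {μ : Measure ℝ} [IsProbabilityMeasure μ] {s : ℝ} {f f' : ℝ → ℝ}

/-- Finitely many exponents have a positive minimum. -/
theorem min9_14 {P : Fin 9 → ℝ → Prop} (h : ∀ i, ∃ x : ℝ, 0 < x ∧ P i x) (hm : ∀ i, ∀ x y : ℝ, 0 < y → y ≤ x → P i x → P i y) :
    ∃ x : ℝ, 0 < x ∧ ∀ i, P i x := by
  choose x hx hP using h
  refine ⟨Finset.univ.inf' Finset.univ_nonempty x, ?_, fun i => hm i _ _ ?_ (Finset.inf'_le _ (mem_univ i)) (hP i)⟩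
  · rw [Finset.lt_inf'_iff]
    exact fun i _ => hx i
  · rw [Finset.lt_inf'_iff]
    exact fun i _ => hx i

theorem est_all9_14 {P : Fin 9 → ℝ → ℝ → ℝ → ℕ → Prop} (h : ∀ i, Est (P i)) : Est fun ι β γ m => ∀ i, P i ι β γ m := by
  have key : ∀ k : ℕ, Est fun ι β γ m => ∀ i : Fin 9, (i : ℕ) < k → P i ι β γ m := by
    intro k
    induction k with
    | zero => exact (Est.of_ev (P := fun _ => True) (Eventually.of_forall fun _ => trivial)).mono fun ι β γ _ _ _ =>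
        Eventually.of_forall fun m _ i hi => absurd hi (Nat.not_lt_zero _)
    | succ k ih =>
      by_cases hk : k < 9
      · refine (ih.and (h ⟨k, hk⟩)).mono fun ι β γ _ _ _ => Eventually.of_forall fun m hh i hi => ?_
        rcases Nat.lt_succ_iff_lt_or_eq.1 hi with h1 | h1
        · exact hh.1 i h1
        · have : i = ⟨k, hk⟩ := Fin.ext h1
          rw [this]
          exact hh.2
      · refine ih.mono fun ι β γ _ _ _ => Eventually.of_forall fun m hh i hi => hh i ?_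
        have := i.2
        omega
  exact (key 9).mono fun ι β γ _ _ _ => Eventually.of_forall fun m hh i => hh i i.2

end Frame

/-- The lines in one list, the own line with its factor. -/
def BF14 (μ : Measure ℝ) (s : ℝ) (F : Frm96) (m p p' : ℕ) (G M : ℝ) :
    Fin 9 ⊕ Fin 9 ⊕ Unit → ℝ → (y : ℕ) → Env × Finset ℕ → ℕ → Px (Pn (F.L m) y) → ℝ
  | Sum.inl i => RF14 μ s F m p p' M i
  | Sum.inr (Sum.inl i) => LF14 μ s F m p p' M i
  | Sum.inr (Sum.inr _) => fun t y ω j S => G ^ 2 * F.B m ^ 2 * OF14 μ s F m p p' M t y ω j S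

/-- The factors of the lines. -/
def DF14 (B : ℝ) : Fin 9 ⊕ Fin 9 ⊕ Unit → ℝ
  | Sum.inl _ => 32 * B ^ 4
  | Sum.inr (Sum.inl _) => 32 * B ^ 4
  | Sum.inr (Sum.inr _) => 1

theorem XF14_eq2 (μ : Measure ℝ) (s : ℝ) (F : Frm96) (m p p' : ℕ) (G M : ℝ) :
    XF14 μ s F m p p' G M = fun t y ω j S => ∑ a, DF14 (F.B m) a * BF14 μ s F m p p' G M a t y ω j S := by
  rw [XF14_eq]
  funext t y ω j S
  refine sum_congr rfl fun a _ => ?_
  rcases a with i | i | i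
  · rfl
  · rfl
  · show G ^ 2 * F.B m ^ 2 * OF14 μ s F m p p' M t y ω j S = 1 * (G ^ 2 * F.B m ^ 2 * OF14 μ s F m p p' M t y ω j S)
    ring

section Main

variable {μ : Measure ℝ} [IsProbabilityMeasure μ] {s : ℝ} {f f' : ℝ → ℝ}

theorem bm_BF14 {F : Frm96} {m : ℕ} (hy : ∀ y ∈ F.ys m, y ≤ F.L m) (hB : 0 ≤ F.B m) (p p' : ℕ) (G M : ℝ) (a : Fin 9 ⊕ Fin 9 ⊕ Unit) (t : ℝ)
    (j : ℕ) : BM (F.ys m) fun y ω S => BF14 μ s F m p p' G M a t y ω j S := by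
  rcases a with i | i | i
  · exact bm_RF14 hy hB p p' M i t j
  · exact bm_LF14 hy hB p p' M i t j
  · exact (bm_OF14 hy p p' M t j).smul (G ^ 2 * F.B m ^ 2)

/-- **No change of base, no third order part**: the response of the window is a function of the outside of the window. -/
theorem X38_self14 {N : ℕ} {Q : Finset (Finset ℕ)} [Nonempty (Px Q)] (δ B : ℝ) (b0 b j : ℕ) (a : ℤ) (Yf : Env → Px Q → ℝ) (t : ℝ) :
    X38 μ s N Q δ B b0 b b j a Yf t = 0 := by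
  have k2 : ∀ {γ : Px Q → ℝ}, Mp (pJ (j - b) (j + b)) γ → ∀ (g1 g2 g : Px Q → ℝ) (w : Px Q → ℝ),
      kX (pJ (j - b) (j + b)) [g1, g2, γ, g] w = 0 := by
    intro γ hγ g1 g2 g w
    have s1 : ∀ v x, kX (pJ (j - b) (j + b)) [γ, g] v x = 0 := fun v x => by
      rw [kX_two, cC_meas_left v hγ]
      rfl
    have s2 : ∀ v x, kX (pJ (j - b) (j + b)) [g2, γ, g] v x = 0 := fun v x => by
      have d1 := hasDerivAt_kX (pJ (j - b) (j + b)) [γ, g] (hasDerivAt_line v g2 0) x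
      have e : (fun u : ℝ => kX (pJ (j - b) (j + b)) [γ, g] (v + u • g2) x) = fun _ => 0 := funext fun u => s1 _ x
      rw [e] at d1
      have h3 := d1.unique (hasDerivAt_const (0 : ℝ) (0 : ℝ))
      rwa [zero_smul, add_zero] at h3
    funext x
    have d1 := hasDerivAt_kX (pJ (j - b) (j + b)) [g2, γ, g] (hasDerivAt_line w g1 0) x
    have e : (fun u : ℝ => kX (pJ (j - b) (j + b)) [g2, γ, g] (w + u • g1) x) = fun _ => 0 := funext fun u => s2 _ x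
    rw [e] at d1
    have h3 := d1.unique (hasDerivAt_const (0 : ℝ) (0 : ℝ))
    rwa [zero_smul, add_zero] at h3
  unfold X38
  have e : ∀ η, F38 μ s N Q δ B b0 b b j a Yf t η = 0 := fun η => by
    unfold F38
    rw [k2 (show Mp (pJ (j - b) (j + b)) (gm38 μ s N Q δ B b0 b j a η) from DGam14.mp_gam _ _ _ _), mul_zero]
    exact gm_const _ 0
  simp only [e, integral_zero]

/-- **THE ROWS OF `N1B` FROM THE PRICES OF ITS LINES**, proper changes of base only. -/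
theorem n1R14s {c₁ C : ℝ} {n₀ : ℕ} (hd : DenLaw μ f f') (h : In μ s c₁ C n₀) (hk : KapLe96 (EE μ s) (1 / 4)) {K : ℕ} (hK : 32 ≤ K)
    {c₀ Θ δ c η : ℝ} (hR : RegP46 μ s c₀ Θ) (hδ : 0 < δ) (hc : 0 < c) (hcδ : c ≤ δ / 64) (hη : 0 ≤ η)
    (HR : ∀ i, PLs14 μ s K Θ δ c η fun F m p p' M => RF14 μ s F m p p' M i)
    (HL : ∀ i, PLs14 μ s K Θ δ c η fun F m p p' M => LF14 μ s F m p p' M i)
    (HO : POw14 μ s K Θ δ c η (c / 24) (c / 24)) :
    Est fun ι β γ m => RowN23 μ s (frm33 μ s K ι β γ) (EE μ s) Θ δ c η 0 m := by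
  obtain ⟨κR, hκR, HR1⟩ := min9_14 HR fun i x y hy hyx hP κ' h1 h2 => hP κ' h1 (h2.trans hyx)
  obtain ⟨κL, hκL, HL1⟩ := min9_14 HL fun i x y hy hyx hP κ' h1 h2 => hP κ' h1 (h2.trans hyx)
  obtain ⟨κO, hκO, HO1⟩ := HO
  obtain ⟨κ, hκe⟩ : ∃ κ, κ = min κO (min κR κL) := ⟨_, rfl⟩
  have hκ : 0 < κ := by
    rw [hκe]
    exact lt_min hκO (lt_min hκR hκL)
  have kO : κ ≤ κO := hκe ▸ min_le_left _ _
  have kR : κ ≤ κR := hκe ▸ (min_le_right _ _).trans (min_le_left _ _)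
  have kL : κ ≤ κL := hκe ▸ (min_le_right _ _).trans (min_le_right _ _)
  have wk : ∀ {ι β γ : ℝ} {m p p' q i : ℕ} {x y : ℝ} {Ln : ℝ → ℕ → Wt46 (frm33 μ s K ι β γ) m → ℝ}, y ≤ x →
      Pr46 μ s (frm33 μ s K ι β γ) (EE μ s) Θ c m p p' q i x (7 / 2) Ln → Pr46 μ s (frm33 μ s K ι β γ) (EE μ s) Θ c m p p' q i y (7 / 2) Ln :=
    fun hyx hP => hP.weaken (fun n => EE_pos n) hyx le_rfl
  obtain ⟨xR, hxR, HR2⟩ := min9_14 (fun i => HR1 i κ hκ kR) fun i x y hy hyx hP => hP.mono fun ι β γ _ _ _ =>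
    Eventually.of_forall fun m hh p p' q i hC hpp hi => wk hyx (hh p p' q i hC hpp hi)
  obtain ⟨xL, hxL, HL2⟩ := min9_14 (fun i => HL1 i κ hκ kL) fun i x y hy hyx hP => hP.mono fun ι β γ _ _ _ =>
    Eventually.of_forall fun m hh p p' q i hC hpp hi => wk hyx (hh p p' q i hC hpp hi)
  obtain ⟨xO, hxO, HO2⟩ := HO1 κ hκ kO
  obtain ⟨z, hze⟩ : ∃ z, z = min (min xO (min xR xL)) (1 / 4) / 21 := ⟨_, rfl⟩
  have hx0 : 0 < min xO (min xR xL) := lt_min hxO (lt_min hxR hxL)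
  have hz : 0 < z := by
    rw [hze]
    have := lt_min hx0 (show (0 : ℝ) < 1 / 4 by norm_num)
    positivity
  have z1 : 21 * z ≤ min xO (min xR xL) := by
    rw [hze]
    have := min_le_left (min xO (min xR xL)) (1 / 4 : ℝ)
    linarith
  have z2 : 21 * z ≤ 1 / 4 := by
    rw [hze]
    have := min_le_right (min xO (min xR xL)) (1 / 4 : ℝ)
    linarith
  have hla : 0 < c / 24 := by positivity
  have ER := est_all9_14 HR2
  have EL := est_all9_14 HL2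
  have EH := hrow14 (K := K) (la := c / 24) (ζ := c / 24) (κ := κ) hd h hk hK hR hδ hc hcδ hη hla hla hκ (by linarith) 5
  have Eβ : Est fun _ β _ _ => β ≤ z / 5 := Est.beta (Sml.of fun _ _ => Sml.le (by positivity))
  refine rowN19 h hk hK hδ hc.le hcδ hη (A := 13 / 4) (by norm_num) ((((ER.and EL).and (HO2.and EH)).and Eβ).mono fun ι β γ hι hβ hγ => ?_)
  filter_upwards [ev_n (show 0 < z / 5 by positivity) 32, ev_n hz 4] with m h32 h4 hh p p' q i hC hi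
  obtain ⟨⟨⟨hR', hL'⟩, hO', hH'⟩, hβz⟩ := hh
  have hn1 : 1 ≤ ((2 ^ m : ℕ) : ℝ) := n_ge1 m
  have hn0 : 0 < ((2 ^ m : ℕ) : ℝ) := by linarith
  have hB1 : 1 ≤ (frm33 μ s K ι β γ).B m := Real.one_le_rpow hn1 hβ.le
  have hB0 : 0 ≤ (frm33 μ s K ι β γ).B m := by linarith
  have hys : ∀ y ∈ (frm33 μ s K ι β γ).ys m, y ≤ (frm33 μ s K ι β γ).L m := hy33 (by omega) m
  have hB4 : 32 * (frm33 μ s K ι β γ).B m ^ 4 ≤ ((2 ^ m : ℕ) : ℝ) ^ z := by
    have e1 : (frm33 μ s K ι β γ).B m ^ 4 ≤ ((2 ^ m : ℕ) : ℝ) ^ (4 * (z / 5)) := by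
      show (((2 ^ m : ℕ) : ℝ) ^ β) ^ 4 ≤ _
      rw [← Real.rpow_natCast, ← Real.rpow_mul hn0.le]
      refine Real.rpow_le_rpow_of_exponent_le hn1 ?_
      push_cast
      linarith
    have e2 : ((2 ^ m : ℕ) : ℝ) ^ z = ((2 ^ m : ℕ) : ℝ) ^ (z / 5) * ((2 ^ m : ℕ) : ℝ) ^ (4 * (z / 5)) := by
      rw [← Real.rpow_add hn0]
      congr 1
      ring
    rw [e2]
    exact mul_le_mul h32 e1 (by positivity) (Real.rpow_nonneg hn0.le _)
  rcases hC.hpp.lt_or_eq with hpp | hpp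
  swap
  · refine ⟨fun _ _ _ _ _ => 0, fun t _ j _ => BM.zero, ?_, ?_⟩
    · refine (Pr46.zero (A := 13 / 4) (x := 0) hys fun n => EE_pos n).mono fun t ht k j D Mh hD hj => ?_
      show avF μ s (frm33 μ s K ι β γ) m (fun y ω S => 0 * |D y ω S|) ≤ 0
      simp only [zero_mul]
      exact (PrT14.avF_zero (μ := μ) (s := s)).le
    · intro t ht j hj y hy hne A Yf L hL hY
      have e := X38_self14 (μ := μ) (s := s) (N := (frm33 μ s K ι β γ).L m) (Q := Pn ((frm33 μ s K ι β γ).L m) y) (frm33 μ s K ι β γ).dl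
        ((frm33 μ s K ι β γ).B m) ((frm33 μ s K ι β γ).b0 m p) (2 ^ p) j (Mod92.sg A j) Yf t
      rw [← hpp, e, abs_zero]
      simp only [zero_mul, gm_const, integral_zero, zero_add]
      positivity
  refine ⟨XF14 μ s (frm33 μ s K ι β γ) m p p' (Gf14 μ s (c / 24) (c / 24) ι β m p p') (((2 ^ m : ℕ) : ℝ) ^ κ),
    fun t _ j _ => bm_XF14 hys hB0 p p' _ _ t j, ?_, ?_⟩
  · have e1 : ∀ a ∈ (Finset.univ : Finset (Fin 9 ⊕ Fin 9 ⊕ Unit)), Pr46 μ s (frm33 μ s K ι β γ) (EE μ s) Θ c m p p' q i (min xO (min xR xL)) (7 / 2)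
        (Lf19 μ s (frm33 μ s K ι β γ) m (BF14 μ s (frm33 μ s K ι β γ) m p p' (Gf14 μ s (c / 24) (c / 24) ι β m p p')
          (((2 ^ m : ℕ) : ℝ) ^ κ) a)) := by
      rintro (a | a | a) -
      · exact wk ((min_le_right _ _).trans (min_le_left _ _)) (hR' a p p' q i hC hpp hi)
      · exact wk ((min_le_right _ _).trans (min_le_right _ _)) (hL' a p p' q i hC hpp hi)
      · exact wk (min_le_left _ _) (hO' p p' q i hC hi)
    have e2 := pr46_lin19 hys (fun n => EE_pos n) Finset.univ e1 hz.le (C := DF14 ((frm33 μ s K ι β γ).B m)) (fun a _ => by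
        rcases a with a | a | a
        · exact mul_nonneg (by norm_num) (pow_nonneg hB0 4)
        · exact mul_nonneg (by norm_num) (pow_nonneg hB0 4)
        · exact zero_le_one) (fun a _ => by
        rcases a with a | a | a
        · exact hB4
        · exact hB4
        · exact Real.one_le_rpow hn1 hz.le) h4 fun a _ t _ j _ => bm_BF14 hys hB0 p p' _ _ a t j
    rw [XF14_eq2]
    refine e2.weaken (fun n => EE_pos n) ?_ ?_
    · have e3 : ((Finset.univ : Finset (Fin 9 ⊕ Fin 9 ⊕ Unit)).card : ℝ) = 19 := by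
        norm_num [Fintype.card_sum]
      rw [e3]
      linarith
    · have e3 : ((Finset.univ : Finset (Fin 9 ⊕ Fin 9 ⊕ Unit)).card : ℝ) = 19 := by
        norm_num [Fintype.card_sum]
      rw [e3]
      linarith
  · intro t ht j hj y hy hne A Yf L hL hY
    exact hH' p p' q i hC hi t ht j hj y hy hne A Yf L hL hY

/-- **THE ROWS OF `N1B` FROM THE PRICES OF ITS LINES.** -/
theorem n1R14 {c₁ C : ℝ} {n₀ : ℕ} (hd : DenLaw μ f f') (h : In μ s c₁ C n₀) (hk : KapLe96 (EE μ s) (1 / 4)) {K : ℕ} (hK : 32 ≤ K)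
    {c₀ Θ δ c η : ℝ} (hR : RegP46 μ s c₀ Θ) (hδ : 0 < δ) (hc : 0 < c) (hcδ : c ≤ δ / 64) (hη : 0 ≤ η)
    (HR : ∀ i, PLn14 μ s K Θ δ c η fun F m p p' M => RF14 μ s F m p p' M i)
    (HL : ∀ i, PLn14 μ s K Θ δ c η fun F m p p' M => LF14 μ s F m p p' M i)
    (HO : POw14 μ s K Θ δ c η (c / 24) (c / 24)) :
    Est fun ι β γ m => RowN23 μ s (frm33 μ s K ι β γ) (EE μ s) Θ δ c η 0 m :=
  n1R14s hd h hk hK hR hδ hc hcδ hη (fun i => (HR i).strict) (fun i => (HL i).strict) HO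

end Main

section Two

variable {μ : Measure ℝ} [IsProbabilityMeasure μ] {s : ℝ}

/-- **The lines `0` and `1`**: the changes of the kick told from the short pieces (helper46's `PrG46`). -/
theorem pl01_14 {c₁ C : ℝ} {n₀ : ℕ} (h : In μ s c₁ C n₀) (hk : KapLe96 (EE μ s) (1 / 4)) {K : ℕ} (hK : 32 ≤ K)
    {c₀ Θ δ c η : ℝ} (hR : RegP46 μ s c₀ Θ) (hδ : 0 < δ) (hc : 0 < c) (hc1 : c ≤ 1) (hcδ : c ≤ δ / 64) (hη : 0 ≤ η) (e : Fin 9)
    (he : e = 0 ∨ e = 1) :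
    PLn14 μ s K Θ δ c η (fun F m p p' M => RF14 μ s F m p p' M e) ∧ PLn14 μ s K Θ δ c η (fun F m p p' M => LF14 μ s F m p p' M e) := by
  obtain ⟨κ, hκ, H⟩ := PrG46 h hk hK hR hδ hc hc1 hcδ hη
  refine ⟨⟨κ, hκ, fun κ' h1 h2 => ⟨c / 8, by positivity, (H (7 / 2)).mono fun ι β γ _ _ _ => Eventually.of_forall fun m hh p p' q i hC hi => ?_⟩⟩,
    ⟨κ, hκ, fun κ' h1 h2 => ⟨c / 8, by positivity, (H (7 / 2)).mono fun ι β γ _ _ _ => Eventually.of_forall fun m hh p p' q i hC hi => ?_⟩⟩⟩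
  · exact (hh p p' q i hC hi κ' h2 γ (B33 β m) (fun w j => Mod92.sg w.2 j) e he).1
  · exact (hh p p' q i hC hi κ' h2 γ (B33 β m) (fun w j => Mod92.sg w.2 j) e he).2

end Two

end

end Pool.W7d29a1.C0.N14
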