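import Pool.Agent.W_7d29a1_C0.Ln3H
import Pool.Agent.W_7d29a1_C0.N1R14

/-!
MP_7d29a1_pr, [CURV0], leaf E5.8 / N1B (helper3): THE LINES `2, 3, 4` OF `N1B`, both sides: own tie (mass) times micro tie (`2`), own tie (mass or
pair) times micro oscillation of the kick (`3`, `4`): `ln234R`, `ln234L` = `PLs14` of `RF14 i`, `LF14 i`.
-/

set_option autoImplicit false
set_option linter.unusedSectionVars false
set_option linter.unusedVariables false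
set_option linter.dupNamespace false

namespace Pool.Agent.W_7d29a1_C0.Ln3

open Finset MeasureTheory Filter Topology
open Pool.Agent.W_7d29a1_F Pool.Agent.W_7d29a1_X
open Pool.Agent.W_7d29a1_H (EE EE_pos one_le_EE sl)
open Pool.Agent.W_7d29a1_HS (In wd)
open Pool.Agent.W_7d29a1_C0 Pool.Agent.W_7d29a1_C0.Mod92 Pool.Agent.W_7d29a1_C0.Asm96 Pool.Agent.W_7d29a1_C0.Frm33
open Pool.Agent.W_7d29a1_C0.Pr46
open Pool.Agent.W_7d29a1_C0.N1E19 (Lf19)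
open Pool.Agent.W_7d29a1_C0.T4F80 (T4M)
open Pool.Agent.W_7d29a1_C0.Par92 (Est Sml)
open Pool.Agent.W_7d29a1_C0.Lo38 (own38 own38_nonneg own38_le_one)
open Pool.W7d29a1.C0.R43 (Tau mI)
open Pool.W7d29a1.C0.S1 (i1 i1_nonneg i1_of i1_not osc)
open Pool.W7d29a1.C0.L38 (wi38 kn38)
open Pool.W7d29a1.C0.N14 (PLs14 RF14 LF14)
open Pool.W7d29a1.C0.VT31 (cE)

noncomputable section

variable {μ : Measure ℝ} {s : ℝ} [IsProbabilityMeasure μ] {K : ℕ} {c₁ C : ℝ} {n₀ : ℕ}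

/-- From `glue3` to a line of `N1B`. -/
theorem pls3 {Θ δ c η : ℝ} (fm sd : Bool) (Mic : Mc3)
    {Xf : (F : Frm96) → (m p p' : ℕ) → ℝ → ℝ → (y : ℕ) → Env × Finset ℕ → ℕ → Px (Pn (F.L m) y) → ℝ}
    (hX : ∀ (F : Frm96) (m p p' : ℕ) (M t : ℝ) (y : ℕ) (ω : Env × Finset ℕ) (j : ℕ) (S : Px (Pn (F.L m) y)), Xf F m p p' M t y ω j S =
      cE (wi38 μ s (F.L m) (Pn (F.L m) y) F.dl (F.B m) (F.b0 m p) j (sg ω.2 j) t ω.1) (pJ (j - 2 ^ p') (j + 2 ^ p'))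
        (fun S => Ph3 μ s fm sd Mic F m p p' M y ω j S) S)
    (hG : ∃ κ : ℝ, 0 < κ ∧ ∀ κ' : ℝ, 0 < κ' → κ' ≤ κ → ∃ x : ℝ, 0 < x ∧ Est fun ι β γ m => ∀ p p' q i : ℕ,
      Chg96 (EE μ s) Θ δ c η m p p' q → p < p' → i < 2 ^ (m - q) → ∀ _d : Unit, True →
        Pr46 μ s (frm33 μ s K ι β γ) (EE μ s) Θ c m p p' q i x (7 / 2) (Lf19 μ s (frm33 μ s K ι β γ) m fun t y ω j S =>
          cE (wi38 μ s ((frm33 μ s K ι β γ).L m) (Pn ((frm33 μ s K ι β γ).L m) y) (frm33 μ s K ι β γ).dl ((frm33 μ s K ι β γ).B m)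
            ((frm33 μ s K ι β γ).b0 m p) j (sg ω.2 j) t ω.1) (pJ (j - 2 ^ p') (j + 2 ^ p'))
              (fun S => Ph3 μ s fm sd Mic (frm33 μ s K ι β γ) m p p' (((2 ^ m : ℕ) : ℝ) ^ κ') y ω j S) S)) :
    PLs14 μ s K Θ δ c η Xf := by
  obtain ⟨κ, hκ, hG⟩ := hG
  refine ⟨κ, hκ, fun κ' h1 h2 => ?_⟩
  obtain ⟨x, hx, hE⟩ := hG κ' h1 h2
  refine ⟨x, hx, hE.mono fun ι β γ _ _ _ => Eventually.of_forall fun m hm p p' q i hC hpp hi => ?_⟩
  have h3 := hm p p' q i hC hpp hi () trivial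
  have e : Xf (frm33 μ s K ι β γ) m p p' (((2 ^ m : ℕ) : ℝ) ^ κ') = fun t y ω j S =>
      cE (wi38 μ s ((frm33 μ s K ι β γ).L m) (Pn ((frm33 μ s K ι β γ).L m) y) (frm33 μ s K ι β γ).dl ((frm33 μ s K ι β γ).B m)
        ((frm33 μ s K ι β γ).b0 m p) j (sg ω.2 j) t ω.1) (pJ (j - 2 ^ p') (j + 2 ^ p'))
          (fun S => Ph3 μ s fm sd Mic (frm33 μ s K ι β γ) m p p' (((2 ^ m : ℕ) : ℝ) ^ κ') y ω j S) S := by
    funext t y ω j S
    exact hX _ _ _ _ _ _ _ _ _ _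
  rw [e]
  exact h3

section Lines

variable (hT : ∀ sd fm : Bool, T4M μ s sd fm) (h : In μ s c₁ C n₀) (hk : KapLe96 (EE μ s) (1 / 4)) (hK : 32 ≤ K) {c₀ Θ δ c η : ℝ}
  (hR : RegP46 μ s c₀ Θ) (hδ : 0 < δ) (hc : 0 < c) (hc1 : c ≤ 1) (hcδ : c ≤ δ / 64) (hη : 0 ≤ η)

include hT h hk hK hR hδ hc hc1 hcδ hη

/-- **LINE `2`, RIGHT.** -/
theorem ln2R : PLs14 μ s K Θ δ c η fun F m p p' M => RF14 μ s F m p p' M 2 := by
  refine pls3 true true (mcT μ s true) (fun F m p p' M t y ω j S => ?_) (glue3 (Θ := Θ) hT h hk hK hR hδ hc hc1 hcδ hη true true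
    (fun _ _ _ (_ : Unit) => True) (fun _ => mcT μ s true) (fun _ _ _ _ _ _ _ _ _ _ => own38_nonneg _)
    (fun _ _ _ _ _ _ _ _ _ _ => own38_le_one _) (fun _ _ _ _ _ _ _ _ S => meas_mcT true S)
    (p1_T h hk hK hδ hc hcδ hη true true) (p2_T h hk hK hδ hc.le hcδ hη true true))
  have : Nonempty (Px (Pn (F.L m) y)) := ⟨S⟩
  refine congrArg (fun f => cE (wi38 μ s (F.L m) (Pn (F.L m) y) F.dl (F.B m) (F.b0 m p) j (sg ω.2 j) t ω.1)
    (pJ (j - 2 ^ p') (j + 2 ^ p')) f S) (funext fun x => ?_)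
  unfold Ph3 mcT
  rw [own_mass (by decide), own_pair trivial]
  rfl

/-- **LINE `2`, LEFT.** -/
theorem ln2L : PLs14 μ s K Θ δ c η fun F m p p' M => LF14 μ s F m p p' M 2 := by
  refine pls3 true false (mcT μ s false) (fun F m p p' M t y ω j S => ?_) (glue3 (Θ := Θ) hT h hk hK hR hδ hc hc1 hcδ hη false true
    (fun _ _ _ (_ : Unit) => True) (fun _ => mcT μ s false) (fun _ _ _ _ _ _ _ _ _ _ => own38_nonneg _)
    (fun _ _ _ _ _ _ _ _ _ _ => own38_le_one _) (fun _ _ _ _ _ _ _ _ S => meas_mcT false S)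
    (p1_T h hk hK hδ hc hcδ hη false true) (p2_T h hk hK hδ hc.le hcδ hη false true))
  have : Nonempty (Px (Pn (F.L m) y)) := ⟨S⟩
  refine congrArg (fun f => cE (wi38 μ s (F.L m) (Pn (F.L m) y) F.dl (F.B m) (F.b0 m p) j (sg ω.2 j) t ω.1)
    (pJ (j - 2 ^ p') (j + 2 ^ p')) f S) (funext fun x => ?_)
  unfold Ph3 mcT
  rw [own_mass (by decide), own_pair trivial]
  rfl

/-- **LINE `3`, RIGHT.** -/
theorem ln3R : PLs14 μ s K Θ δ c η fun F m p p' M => RF14 μ s F m p p' M 3 := by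
  refine pls3 true true (mcO μ s) (fun F m p p' M t y ω j S => ?_) (glue3 (Θ := Θ) hT h hk hK hR hδ hc hc1 hcδ hη true true
    (fun _ _ _ (_ : Unit) => True) (fun _ => mcO μ s) (fun _ _ _ _ _ _ _ _ _ _ => i1_nonneg _)
    (fun _ _ _ _ _ _ _ _ _ _ => Sz23.i1_le _) (fun _ _ _ _ _ _ _ _ S => meas_mcO S)
    (p1_O h hk hK hδ hc hcδ hη true true) (p2_O h hk hK hδ hc.le hcδ hη true true))
  have : Nonempty (Px (Pn (F.L m) y)) := ⟨S⟩
  refine congrArg (fun f => cE (wi38 μ s (F.L m) (Pn (F.L m) y) F.dl (F.B m) (F.b0 m p) j (sg ω.2 j) t ω.1)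
    (pJ (j - 2 ^ p') (j + 2 ^ p')) f S) (funext fun x => ?_)
  unfold Ph3 mcO
  rw [own_mass (by decide)]
  rfl

/-- **LINE `3`, LEFT.** -/
theorem ln3L : PLs14 μ s K Θ δ c η fun F m p p' M => LF14 μ s F m p p' M 3 := by
  refine pls3 true false (mcO μ s) (fun F m p p' M t y ω j S => ?_) (glue3 (Θ := Θ) hT h hk hK hR hδ hc hc1 hcδ hη false true
    (fun _ _ _ (_ : Unit) => True) (fun _ => mcO μ s) (fun _ _ _ _ _ _ _ _ _ _ => i1_nonneg _)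
    (fun _ _ _ _ _ _ _ _ _ _ => Sz23.i1_le _) (fun _ _ _ _ _ _ _ _ S => meas_mcO S)
    (p1_O h hk hK hδ hc hcδ hη false true) (p2_O h hk hK hδ hc.le hcδ hη false true))
  have : Nonempty (Px (Pn (F.L m) y)) := ⟨S⟩
  refine congrArg (fun f => cE (wi38 μ s (F.L m) (Pn (F.L m) y) F.dl (F.B m) (F.b0 m p) j (sg ω.2 j) t ω.1)
    (pJ (j - 2 ^ p') (j + 2 ^ p')) f S) (funext fun x => ?_)
  unfold Ph3 mcO
  rw [own_mass (by decide)]
  rfl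

/-- **LINE `4`, RIGHT.** -/
theorem ln4R : PLs14 μ s K Θ δ c η fun F m p p' M => RF14 μ s F m p p' M 4 := by
  refine pls3 false true (mcO μ s) (fun F m p p' M t y ω j S => ?_) (glue3 (Θ := Θ) hT h hk hK hR hδ hc hc1 hcδ hη true false
    (fun _ _ _ (_ : Unit) => True) (fun _ => mcO μ s) (fun _ _ _ _ _ _ _ _ _ _ => i1_nonneg _)
    (fun _ _ _ _ _ _ _ _ _ _ => Sz23.i1_le _) (fun _ _ _ _ _ _ _ _ S => meas_mcO S)
    (p1_O h hk hK hδ hc hcδ hη true false) (p2_O h hk hK hδ hc.le hcδ hη true false))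
  have : Nonempty (Px (Pn (F.L m) y)) := ⟨S⟩
  refine congrArg (fun f => cE (wi38 μ s (F.L m) (Pn (F.L m) y) F.dl (F.B m) (F.b0 m p) j (sg ω.2 j) t ω.1)
    (pJ (j - 2 ^ p') (j + 2 ^ p')) f S) (funext fun x => ?_)
  unfold Ph3 mcO
  rw [own_pair rfl]
  rfl

/-- **LINE `4`, LEFT.** -/
theorem ln4L : PLs14 μ s K Θ δ c η fun F m p p' M => LF14 μ s F m p p' M 4 := by
  refine pls3 false false (mcO μ s) (fun F m p p' M t y ω j S => ?_) (glue3 (Θ := Θ) hT h hk hK hR hδ hc hc1 hcδ hη false false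
    (fun _ _ _ (_ : Unit) => True) (fun _ => mcO μ s) (fun _ _ _ _ _ _ _ _ _ _ => i1_nonneg _)
    (fun _ _ _ _ _ _ _ _ _ _ => Sz23.i1_le _) (fun _ _ _ _ _ _ _ _ S => meas_mcO S)
    (p1_O h hk hK hδ hc hcδ hη false false) (p2_O h hk hK hδ hc.le hcδ hη false false))
  have : Nonempty (Px (Pn (F.L m) y)) := ⟨S⟩
  refine congrArg (fun f => cE (wi38 μ s (F.L m) (Pn (F.L m) y) F.dl (F.B m) (F.b0 m p) j (sg ω.2 j) t ω.1)
    (pJ (j - 2 ^ p') (j + 2 ^ p')) f S) (funext fun x => ?_)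
  unfold Ph3 mcO
  rw [own_pair rfl]
  rfl

/-- **THE LINES `2, 3, 4` ON THE RIGHT.** -/
theorem ln234R (i : Fin 9) (h2 : 2 ≤ i) (h4 : i ≤ 4) : PLs14 μ s K Θ δ c η fun F m p p' M => RF14 μ s F m p p' M i := by
  have h5 : i = 2 ∨ i = 3 ∨ i = 4 := by
    revert h2 h4
    revert i
    decide
  rcases h5 with rfl | rfl | rfl
  · exact ln2R hT h hk hK hR hδ hc hc1 hcδ hη
  · exact ln3R hT h hk hK hR hδ hc hc1 hcδ hη
  · exact ln4R hT h hk hK hR hδ hc hc1 hcδ hη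

/-- **THE LINES `2, 3, 4` ON THE LEFT.** -/
theorem ln234L (i : Fin 9) (h2 : 2 ≤ i) (h4 : i ≤ 4) : PLs14 μ s K Θ δ c η fun F m p p' M => LF14 μ s F m p p' M i := by
  have h5 : i = 2 ∨ i = 3 ∨ i = 4 := by
    revert h2 h4
    revert i
    decide
  rcases h5 with rfl | rfl | rfl
  · exact ln2L hT h hk hK hR hδ hc hc1 hcδ hη
  · exact ln3L hT h hk hK hR hδ hc hc1 hcδ hη
  · exact ln4L hT h hk hK hR hδ hc hc1 hcδ hη

end Lines

end

end Pool.Agent.W_7d29a1_C0.Ln3
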