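import Pool.Agent.W_7d29a1_C0.Ln34X14
import Pool.Agent.W_7d29a1_C0.DT5F

/-!
MP_7d29a1_pr, [CURV0], leaf E5.8 / N1B (helper14): THE LINE `2` OF `N1B` (own mass times the robust pair of the window `[j + b0, j + b0 + 2 k)`
resp. its mirror image), both sides, closed (`pls2R14`, `pls2L14`): helper3's `glue3` with the price from helper5's `prB_S1` and the flip from
helper4's `p2_oo`.
-/

set_option autoImplicit false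
set_option linter.unusedSectionVars false
set_option linter.unusedVariables false

namespace Pool.W7d29a1.C0.N14

open Finset Filter Topology MeasureTheory
open Pool.Agent.W_7d29a1_F Pool.Agent.W_7d29a1_C0 Pool.W7d29a1.C0 Pool.W7d29a1.C0.VT31
open Pool.Agent.W_7d29a1_H (EE EE_pos one_le_EE sl)
open Pool.Agent.W_7d29a1_HS (In wd)
open Pool.Agent.W_7d29a1_C0.Swap57 Pool.Agent.W_7d29a1_C0.Mod92 Pool.Agent.W_7d29a1_C0.H32 Pool.Agent.W_7d29a1_C0.Asm96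
open Pool.Agent.W_7d29a1_C0.Frm33 Pool.Agent.W_7d29a1_C0.N38
open Pool.Agent.W_7d29a1_C0.Par92 (Est Sml)
open Pool.Agent.W_7d29a1_C0.Pr46 Pool.Agent.W_7d29a1_C0.N1E19 Pool.Agent.W_7d29a1_C0.NTop23
open Pool.Agent.W_7d29a1_C0.Lo38 (own38 lng38 own38_nonneg own38_le_one lng38_nonneg lng38_le_one meas_own38 meas_lng38 meas_mI38)
open Pool.Agent.W_7d29a1_C0.Ln3 (Ph3 Mc3 glue3)
open Pool.Agent.W_7d29a1_C0.PrB5 (PsH PrB rws pr46_of_prB)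
open Pool.Agent.W_7d29a1_C0.DT5 (prB_S1 tkR)
open Pool.W7d29a1.C0.L38 Pool.W7d29a1.C0.PM14 Pool.W7d29a1.C0.NN1 Pool.W7d29a1.C0.H41
open Pool.W7d29a1.C0.R43 (Tau mI)
open Pool.W7d29a1.C0.S1 (osc i1 i1_nonneg i1_of i1_not)

noncomputable section

/-- The start of the micro window, right (`true`) or left. -/
def mA14 (sd : Bool) (b0 k j : ℕ) : ℕ := if sd then j + b0 else j - b0 - 2 * k

/-- The end of the micro window, right (`true`) or left. -/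
def mB14 (sd : Bool) (b0 k j : ℕ) : ℕ := if sd then j + b0 + 2 * k else j - b0

/-- The robust pair of the micro window. -/
def McT14 (μ : Measure ℝ) (s : ℝ) (sd : Bool) (_ : Unit) : Mc3 := fun F m p p' M y ω j S =>
  own38 True (wm μ s (F.L m) (Pn (F.L m) y) ω) (pJ (j - 2 ^ p) (j + 2 ^ p)) (mA14 sd (F.b0 m p) (kn38 (F.b0 m p) (2 ^ p)) j)
    (mB14 sd (F.b0 m p) (kn38 (F.b0 m p) (2 ^ p)) j) M S

variable {μ : Measure ℝ} [IsProbabilityMeasure μ] {s : ℝ}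

/-- **(P1) of the line `2`.** -/
theorem p1T14 {c₁ C : ℝ} {n₀ : ℕ} (h : In μ s c₁ C n₀) (hk : KapLe96 (EE μ s) (1 / 4)) {K : ℕ} (hK : 32 ≤ K)
    {c₀ Θ δ c η : ℝ} (hR : RegP46 μ s c₀ Θ) (hδ : 0 < δ) (hc : 0 < c) (hcδ : c ≤ δ / 64) (hη : 0 ≤ η) (sd fm : Bool) :
    ∃ κ : ℝ, 0 < κ ∧ ∀ κ' : ℝ, 0 < κ' → κ' ≤ κ → Est fun ι β γ m => ∀ p p' q i : ℕ, Chg96 (EE μ s) Θ δ c η m p p' q → p < p' →
      i < 2 ^ (m - q) → ∀ d : Unit, True → ∀ M : ℝ, ((2 ^ m : ℕ) : ℝ) ^ κ' ≤ M → M ≤ 2 * ((2 ^ m : ℕ) : ℝ) ^ κ' →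
        Pr46 μ s (frm33 μ s K ι β γ) (EE μ s) Θ c m p p' q i (c / 8) 4 (fun _ j D => avF μ s (frm33 μ s K ι β γ) m fun y ω S =>
          Ph3 μ s fm sd (McT14 μ s sd d) (frm33 μ s K ι β γ) m p p' M y ω j S * |D y ω S|) := by
  obtain ⟨κ, hκ, H⟩ := prB_S1 h hK hδ (show 0 < c / 8 by positivity)
  obtain ⟨c₂, hc₂, H⟩ := H κ hκ le_rfl
  refine ⟨κ / 2, by positivity, fun κ' h1 h2 => ?_⟩
  have hH : Est fun ι β γ m => _ := ⟨1, one_pos, fun ι _ _ => Sml.of fun β _ => Sml.of fun γ _ => H ι β γ⟩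
  have hN : Est fun ι β γ m => ι ≤ δ / 16 ∧ ∀ p p' q : ℕ, Chg96 (EE μ s) Θ δ c η m p p' q → ∀ A e : ℝ, 0 ≤ e → e ≤ ((2 ^ m : ℕ) : ℝ) ^ (-A) →
      Nm46 (EE μ s) Θ c m p q (c / 2) A
          (((2 ^ m : ℕ) : ℝ) ^ (c / 8) * ((EE μ s (2 * kn38 (2 ^ (p - ⌈ι * (m : ℝ)⌉₊)) (2 ^ p)))⁻¹ * (EE μ s (2 ^ p))⁻¹)) 0 0 e :=
    ⟨min (δ / 16) (c / 4), lt_min (by positivity) (by positivity), fun ι hι hι1 => Sml.of fun β hβ => Sml.of fun γ _ => by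
      have g1 := hι1.trans (min_le_left _ _)
      have g2 := hι1.trans (min_le_right _ _)
      refine (nm46_234 (η := η) hR hδ hc hι (by linarith) (show c / 8 + ι / 2 ≤ 3 * c / 8 by linarith)).mono fun m hm => ⟨g1, fun p p' q hC A e he0 he => ?_⟩
      exact (hm p p' q hC A e he0 he).2.1⟩
  have hr : Est fun ι β γ m => ι ≤ δ / 16 → ∀ p p' q i : ℕ, Chg96 (EE μ s) Θ δ c η m p p' q → i < 2 ^ (m - q) →
      ∀ j ∈ Rw (R33 ι m) (i * 2 ^ q) ((i + 1) * 2 ^ q), 4 * 2 ^ p' ≤ j ∧ j + 4 * 2 ^ p' ≤ L33 K m ∧ 2 ^ p' < j ∧ j + 2 ^ p' < L33 K m ∧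
        2 ^ p < j ∧ j + 2 ^ p < L33 K m :=
    ⟨δ / 16, by positivity, fun ι hι hι1 => Sml.of fun β hβ => Sml.of fun γ _ =>
      (rows41 h hk (K := K) (by omega) (Θ := Θ) hδ hc.le hcδ hη hι1).mono fun m hm _ => hm⟩
  have hg : Est fun ι β γ m => ∀ p : ℕ, δ * m ≤ p →
    1 ≤ 2 ^ (p - ⌈ι * (m : ℝ)⌉₊) ∧ 2 ^ (p - ⌈ι * (m : ℝ)⌉₊) + 6 ≤ 2 ^ p ∧ 4 * 2 ^ (p - ⌈ι * (m : ℝ)⌉₊) ≤ 2 ^ p ∧
      2 ^ p ≤ 12 * kn38 (2 ^ (p - ⌈ι * (m : ℝ)⌉₊)) (2 ^ p) ∧ 0 < kn38 (2 ^ (p - ⌈ι * (m : ℝ)⌉₊)) (2 ^ p) ∧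
      4 * (2 ^ (p - ⌈ι * (m : ℝ)⌉₊) + 4 * kn38 (2 ^ (p - ⌈ι * (m : ℝ)⌉₊)) (2 ^ p)) ≤ 3 * 2 ^ p :=
    ⟨δ / 2, by positivity, fun ι hι hι1 => Sml.of fun β hβ => Sml.of fun γ _ => geo41 hδ hι hι1⟩
  refine (hH.and ((hN.and hr).and hg)).mono fun ι β γ hι hβ hγ => ?_
  filter_upwards [ev_n (show 0 < κ - κ' by linarith) 2, ev_n one_pos 2, ev_n (show 0 < δ / 2 by positivity) 6, Sz23.ev_exp hc₂ 5]
    with m hn2 hn3 hn6 hex hP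
  obtain ⟨hb, ⟨hN, hr⟩, hg⟩ := hP
  intro p p' q i hC hpp hi d _ M hM hM'
  have hn1 : 1 ≤ ((2 ^ m : ℕ) : ℝ) := n_ge1 m
  have hn0 : 0 < ((2 ^ m : ℕ) : ℝ) := lt_of_lt_of_le one_pos hn1
  have hMκ : M ≤ ((2 ^ m : ℕ) : ℝ) ^ κ := by
    refine hM'.trans ?_
    have e : ((2 ^ m : ℕ) : ℝ) ^ κ = ((2 ^ m : ℕ) : ℝ) ^ (κ - κ') * ((2 ^ m : ℕ) : ℝ) ^ κ' := by
      rw [← Real.rpow_add hn0]
      congr 1
      ring
    rw [e]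
    exact mul_le_mul_of_nonneg_right hn2 (Real.rpow_nonneg hn0.le _)
  obtain ⟨g1, g2, g3, g4, g5, g6⟩ := hg p hC.hp
  obtain ⟨b0, hb0⟩ : ∃ b0 : ℕ, b0 = 2 ^ (p - ⌈ι * (m : ℝ)⌉₊) := ⟨_, rfl⟩
  obtain ⟨k, hk0⟩ : ∃ k : ℕ, k = kn38 (2 ^ (p - ⌈ι * (m : ℝ)⌉₊)) (2 ^ p) := ⟨_, rfl⟩
  have hkn := kn38_le (2 ^ (p - ⌈ι * (m : ℝ)⌉₊)) (2 ^ p)
  rw [← hk0] at hkn g4 g5 g6
  rw [← hb0] at hkn g1 g2 g3 g6
  have hys : ∀ y ∈ (frm33 μ s K ι β γ).ys m, y ≤ (frm33 μ s K ι β γ).L m := hy33 (by omega) m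
  have hr := hr hN.1 p p' q i hC hi
  have hl : ((2 ^ m : ℕ) : ℝ) ^ (δ / 2) ≤ ((2 * k : ℕ) : ℝ) := by
    have e1 := two_ge hC.hp
    have e2 : ((2 ^ m : ℕ) : ℝ) ^ δ = ((2 ^ m : ℕ) : ℝ) ^ (δ / 2) * ((2 ^ m : ℕ) : ℝ) ^ (δ / 2) := by
      rw [← Real.rpow_add hn0, add_halves]
    have e3 : ((2 ^ p : ℕ) : ℝ) ≤ 12 * k := by exact_mod_cast g4
    have e4 : 0 ≤ ((2 ^ m : ℕ) : ℝ) ^ (δ / 2) := Real.rpow_nonneg hn0.le _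
    have e5 := mul_le_mul_of_nonneg_right hn6 e4
    have e6 : ((2 * k : ℕ) : ℝ) = 2 * (k : ℝ) := by push_cast; ring
    rw [← e2] at e5
    have e7 := (e5.trans e1).trans e3
    rw [e6]
    linarith
  have key := hb p p' q i hC.hp hpp (fun j hj => by
      obtain ⟨r1, r2, -⟩ := hr j hj
      omega) (2 * k) hl (by omega) (mA14 sd b0 k) (mB14 sd b0 k) (fun j hj => by
      obtain ⟨r1, r2, r3, r4, r5, r6⟩ := hr j hj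
      cases sd
      · show j ≤ j - b0 - 2 * k + 2 ^ p / 2 ∧ j - b0 ≤ j + 2 ^ p / 2 ∧ j - b0 - 2 * k + 2 * k ≤ j - b0
        omega
      · show j ≤ j + b0 + 2 ^ p / 2 ∧ j + b0 + 2 * k ≤ j + 2 ^ p / 2 ∧ j + b0 + 2 * k ≤ j + b0 + 2 * k
        omega) (Rg38.oA sd b0 (2 ^ p)) (Rg38.oB sd b0 (2 ^ p)) (by
      cases sd
      · refine Or.inr fun j hj => ?_
        obtain ⟨r1, r2, r3, r4, r5, r6⟩ := hr j hj
        exact ⟨rfl, show j + 2 ^ p / 4 ≤ j - b0 + 2 ^ p by omega⟩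
      · refine Or.inl fun j hj => ?_
        exact ⟨rfl, show j + b0 + 2 ^ p / 4 ≤ j + 2 ^ p by omega⟩) True (fm = false) M hMκ 1 zero_le_one
  have h5 : (1 + 1) * Real.exp (-(((2 ^ m : ℕ) : ℝ) ^ c₂)) ≤ ((2 ^ m : ℕ) : ℝ) ^ (-(4 : ℝ)) := by
    have e : ((2 ^ m : ℕ) : ℝ) ^ (-(4 : ℝ)) = ((2 ^ m : ℕ) : ℝ) ^ (1 : ℝ) * ((2 ^ m : ℕ) : ℝ) ^ (-(5 : ℝ)) := by
      rw [← Real.rpow_add hn0]
      norm_num
    rw [e]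
    exact mul_le_mul (by linarith) hex (Real.exp_pos _).le (Real.rpow_nonneg hn0.le _)
  rw [hk0] at key
  have h6 := pr46_of_prB hys key (hN.2 p p' q hC 4 _ (by positivity) h5)
  refine (h6.weaken (fun n => EE_pos n) (show c / 8 ≤ c / 2 by linarith) le_rfl).mono fun t ht k' j D Mh hD hj => le_of_eq ?_
  congr 1
  funext y ω S
  refine congrArg (fun v => v * |D y ω S|) ?_
  unfold Ph3 McT14
  rw [mul_comm, ← tkR_own14, ← tkR_own14, hb0]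
  rfl

/-- **(P2) of the line `2`.** -/
theorem p2T14 {c₁ C : ℝ} {n₀ : ℕ} (h : In μ s c₁ C n₀) (hk : KapLe96 (EE μ s) (1 / 4)) {K : ℕ} (hK : 32 ≤ K)
    {Θ δ c η : ℝ} (hδ : 0 < δ) (hc : 0 ≤ c) (hcδ : c ≤ δ / 64) (hη : 0 ≤ η) (sd fm : Bool) :
    ∃ κ : ℝ, 0 < κ ∧ Est fun ι β γ m => ∀ p p' q i : ℕ, Chg96 (EE μ s) Θ δ c η m p p' q → i < 2 ^ (m - q) → ∀ d : Unit, True →
      ∀ M M' : ℝ, M ≤ ((2 ^ m : ℕ) : ℝ) ^ κ → 5 * M + 4 * B33 β m + 1 ≤ 5 * M' → ∀ (k : ℕ)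
        (D : Wt46 (frm33 μ s K ι β γ) m) (Mh : ℝ), Ps46 (frm33 μ s K ι β γ) m (2 ^ (p' - 6)) (2 ^ p') k D Mh →
      ∀ j ∈ st46 (frm33 μ s K ι β γ) m q i (2 ^ (p' - 6)) k,
        ((((frm33 μ s K ι β γ).ys m).card : ℝ)⁻¹ * ∑ y ∈ (frm33 μ s K ι β γ).ys m, ∫ ω,
          gm (N25.vm μ s ((frm33 μ s K ι β γ).L m) (Pn ((frm33 μ s K ι β γ).L m) y) (frm33 μ s K ι β γ).dl ((frm33 μ s K ι β γ).B m)
            ((frm33 μ s K ι β γ).b0 m p) ω j) (fun S => |D y ω S| * Ph3 μ s fm sd (McT14 μ s sd d) (frm33 μ s K ι β γ) m p p' M y ω j S)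
          ∂(Pm μ ((frm33 μ s K ι β γ).L m))) ≤
        avF μ s (frm33 μ s K ι β γ) m (fun y ω S => |D y ω S| * Ph3 μ s fm sd (McT14 μ s sd d) (frm33 μ s K ι β γ) m p p' M' y ω j S) +
          Mh * ((2 ^ m : ℕ) : ℝ) ^ (-(11 / 2) : ℝ) := by
  obtain ⟨κ, hκ, H⟩ := Ln4.p2_oo (Θ := Θ) h hk hK hδ hc hcδ hη
  refine ⟨κ, hκ, H.mono fun ι β γ _ _ _ => Eventually.of_forall fun m hm => ?_⟩
  intro p p' q i hC hi d _ M M' hM hMM k D Mh hD j hj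
  refine hm p p' q i hC hi M M' hM hMM (fm = false) True k D Mh hD j hj (Rg38.oA sd ((frm33 μ s K ι β γ).b0 m p) (2 ^ p) j)
    (Rg38.oB sd ((frm33 μ s K ι β γ).b0 m p) (2 ^ p) j)
    (mA14 sd ((frm33 μ s K ι β γ).b0 m p) (kn38 ((frm33 μ s K ι β γ).b0 m p) (2 ^ p)) j)
    (mB14 sd ((frm33 μ s K ι β γ).b0 m p) (kn38 ((frm33 μ s K ι β γ).b0 m p) (2 ^ p)) j) ?_ ?_
  · cases sd
    · exact Or.inl (le_refl (j - (frm33 μ s K ι β γ).b0 m p))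
    · exact Or.inr (le_refl (j + (frm33 μ s K ι β γ).b0 m p))
  · cases sd
    · exact Or.inl (le_refl (j - (frm33 μ s K ι β γ).b0 m p))
    · exact Or.inr (le_refl (j + (frm33 μ s K ι β γ).b0 m p))

/-- **The line `2` as `Pr46`.** -/
theorem pr2_14 {c₁ C : ℝ} {n₀ : ℕ} (h : In μ s c₁ C n₀) (hk : KapLe96 (EE μ s) (1 / 4)) {K : ℕ} (hK : 32 ≤ K)
    {c₀ Θ δ c η : ℝ} (hR : RegP46 μ s c₀ Θ) (hδ : 0 < δ) (hc : 0 < c) (hc1 : c ≤ 1) (hcδ : c ≤ δ / 64) (hη : 0 ≤ η) (sd fm : Bool) :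
    ∃ κ : ℝ, 0 < κ ∧ ∀ κ' : ℝ, 0 < κ' → κ' ≤ κ → ∃ x : ℝ, 0 < x ∧ Est fun ι β γ m => ∀ p p' q i : ℕ,
      Chg96 (EE μ s) Θ δ c η m p p' q → p < p' → i < 2 ^ (m - q) → ∀ d : Unit, True →
        Pr46 μ s (frm33 μ s K ι β γ) (EE μ s) Θ c m p p' q i x (7 / 2) (Lf19 μ s (frm33 μ s K ι β γ) m fun t y ω j S =>
          cE (wi38 μ s ((frm33 μ s K ι β γ).L m) (Pn ((frm33 μ s K ι β γ).L m) y) (frm33 μ s K ι β γ).dl ((frm33 μ s K ι β γ).B m)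
            ((frm33 μ s K ι β γ).b0 m p) j (Mod92.sg ω.2 j) t ω.1) (pJ (j - 2 ^ p') (j + 2 ^ p'))
              (fun S => Ph3 μ s fm sd (McT14 μ s sd d) (frm33 μ s K ι β γ) m p p' (((2 ^ m : ℕ) : ℝ) ^ κ') y ω j S) S) :=
  glue3 (fun sd fm => DT5T.t4M h sd fm) h hk hK hR hδ hc hc1 hcδ hη sd fm (fun _ _ _ _ => True) (McT14 μ s sd)
    (fun d F m p p' M y ω j S => own38_nonneg _) (fun d F m p p' M y ω j S => own38_le_one _)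
    (fun d F m p p' M y j S => by
      have : Nonempty (Px (Pn (F.L m) y)) := ⟨S⟩
      exact meas_own38 _ _ _ _ _ S) (p1T14 h hk hK hR hδ hc hcδ hη sd fm) (p2T14 h hk hK hδ hc.le hcδ hη sd fm)

section Eqs

variable (μ) (s) (F : Frm96) (m p p' : ℕ) (M t : ℝ) (y : ℕ) (ω : Env × Finset ℕ) (j : ℕ) (S : Px (Pn (F.L m) y))

theorem oml_tau14 {Q : Finset (Finset ℕ)} (w wi : Px Q → ℝ) (p q : Px Q → Finset ℕ × ℕ) (o0 o1 u v : ℕ) (M : ℝ) (x : Px Q) :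
    oml w wi p o0 o1 M (fun y => i1 (Tau w q u v M y)) x =
      cE wi p (fun y => own38 (true = false) w p o0 o1 M y * own38 True w q u v M y) x := by
  refine (ob14_eq true w wi p o0 o1 M (fun y => i1 (Tau w q u v M y)) x).trans ?_
  congr 1
  funext y
  refine congrArg (fun v => own38 (true = false) w p o0 o1 M y * v) ?_
  unfold own38
  rw [if_pos trivial]
  rfl

theorem RF14_2 : RF14 μ s F m p p' M 2 t y ω j S =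
    cE (wi38 μ s (F.L m) (Pn (F.L m) y) F.dl (F.B m) (F.b0 m p) j (Mod92.sg ω.2 j) t ω.1) (pJ (j - 2 ^ p') (j + 2 ^ p'))
      (fun S => Ph3 μ s true true (McT14 μ s true ()) F m p p' M y ω j S) S := oml_tau14 _ _ _ _ _ _ _ _ _ _

theorem LF14_2 : LF14 μ s F m p p' M 2 t y ω j S =
    cE (wi38 μ s (F.L m) (Pn (F.L m) y) F.dl (F.B m) (F.b0 m p) j (Mod92.sg ω.2 j) t ω.1) (pJ (j - 2 ^ p') (j + 2 ^ p'))
      (fun S => Ph3 μ s true false (McT14 μ s false ()) F m p p' M y ω j S) S := oml_tau14 _ _ _ _ _ _ _ _ _ _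

end Eqs

/-- **THE LINE `2`, right.** -/
theorem pls2R14 {c₁ C : ℝ} {n₀ : ℕ} (h : In μ s c₁ C n₀) (hk : KapLe96 (EE μ s) (1 / 4)) {K : ℕ} (hK : 32 ≤ K)
    {c₀ Θ δ c η : ℝ} (hR : RegP46 μ s c₀ Θ) (hδ : 0 < δ) (hc : 0 < c) (hc1 : c ≤ 1) (hcδ : c ≤ δ / 64) (hη : 0 ≤ η) :
    PLs14 μ s K Θ δ c η fun F m p p' M => RF14 μ s F m p p' M 2 :=
  pls_of14 (fun F m p p' M t y ω j S => RF14_2 μ s F m p p' M t y ω j S) (pr2_14 h hk hK hR hδ hc hc1 hcδ hη true true)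

/-- **THE LINE `2`, left.** -/
theorem pls2L14 {c₁ C : ℝ} {n₀ : ℕ} (h : In μ s c₁ C n₀) (hk : KapLe96 (EE μ s) (1 / 4)) {K : ℕ} (hK : 32 ≤ K)
    {c₀ Θ δ c η : ℝ} (hR : RegP46 μ s c₀ Θ) (hδ : 0 < δ) (hc : 0 < c) (hc1 : c ≤ 1) (hcδ : c ≤ δ / 64) (hη : 0 ≤ η) :
    PLs14 μ s K Θ δ c η fun F m p p' M => LF14 μ s F m p p' M 2 :=
  pls_of14 (fun F m p p' M t y ω j S => LF14_2 μ s F m p p' M t y ω j S) (pr2_14 h hk hK hR hδ hc hc1 hcδ hη false true)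

end

end Pool.W7d29a1.C0.N14
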