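import Pool.Agent.W_7d29a1_C0.NN1B

/-!
MP_7d29a1_pr, [CURV0] / [C0], leaf E5.8 (helper1): THE REMAINDERS (inj), (sh) OF THE ROW INEQUALITY, PATHWISE, part 3: the bounds.

`w` = the reference weight (the corner), `w + θ • g`, `|θ| ≤ 2`, the weight at the tilt. `Ph`: the conditional mean, at the tilt, of the two
products: own tie of `y` on `[o0, o1]` times (oscillation of `g` in the window `q`), own tie times a long tie `L r` (mean over the rows of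
the slab). `injR`, `injL`, `shR`, `shL`. To be used with `dt_eq`, `hb`, `CR38`, `CL38` of `Row38`, `Mod38B` (the literal right sides).
-/

set_option autoImplicit false
set_option linter.unusedSectionVars false

namespace Pool.W7d29a1.C0.NN1

open Finset MeasureTheory Pool.Agent.W_7d29a1_C0.Swap57 Pool.Agent.W_7d29a1_C0 Pool.Agent.W_7d29a1_C0.Mod92
open Pool.Agent.W_7d29a1_F Pool.Agent.W_7d29a1_X
open Pool.W7d29a1.C0 Pool.W7d29a1.C0.VT31 Pool.W7d29a1.C0.R43 Pool.W7d29a1.C0.S1 Pool.W7d29a1.C0.K1 Pool.W7d29a1.C0.O1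

noncomputable section

theorem i1_zero {A : Prop} (h : ¬ A) : i1 A = 0 := if_neg h

/-- Levels: one number. -/
theorem D_lv {D L O L' O' M m : ℝ} (hM : 0 ≤ M) (hm : 8 * M ≤ m) (hD : D ≤ 2 * M * L + Real.exp m * (Real.exp m * O))
    (hD2 : D ≤ 2 * M) (hL : L ≤ Real.exp (4 * M) * L') (hO : O ≤ Real.exp (8 * M) * O') :
    D ≤ 2 * M * (i1 (Real.exp (-(5 * m)) ≤ O') + i1 (Real.exp (-(5 * m)) ≤ L')) + (1 + 2 * M) * Real.exp (-m) := by
  have hm0 : 0 ≤ m := by linarith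
  have e0 := Real.exp_pos (-m)
  have r0 : 0 ≤ (1 + 2 * M) * Real.exp (-m) := by positivity
  have n1 := i1_nonneg (Real.exp (-(5 * m)) ≤ O')
  have n2 := i1_nonneg (Real.exp (-(5 * m)) ≤ L')
  by_cases h1 : Real.exp (-(5 * m)) ≤ O'
  · rw [i1_of h1]
    nlinarith
  · by_cases h2 : Real.exp (-(5 * m)) ≤ L'
    · rw [i1_of h2]
      nlinarith
    · rw [i1_zero h1, i1_zero h2, add_zero, mul_zero, zero_add]
      rw [not_le] at h1 h2
      have k1 : L ≤ Real.exp (-m) := by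
        refine hL.trans ((mul_le_mul_of_nonneg_left h2.le (Real.exp_pos _).le).trans ?_)
        rw [← Real.exp_add]
        exact Real.exp_le_exp.2 (by linarith)
      have k2 : Real.exp m * (Real.exp m * O) ≤ Real.exp (-m) := by
        have k3 : O ≤ Real.exp (8 * M) * Real.exp (-(5 * m)) := hO.trans (mul_le_mul_of_nonneg_left h1.le (Real.exp_pos _).le)
        refine (mul_le_mul_of_nonneg_left (mul_le_mul_of_nonneg_left k3 (Real.exp_pos _).le) (Real.exp_pos _).le).trans ?_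
        rw [← Real.exp_add, ← Real.exp_add, ← Real.exp_add]
        exact Real.exp_le_exp.2 (by linarith)
      have k4 := mul_le_mul_of_nonneg_left k1 (show 0 ≤ 2 * M by linarith)
      linarith

/-- Levels: the own factor. -/
theorem AD_lv {A A' D O L M m : ℝ} (hM : 0 ≤ M) (hm : 8 * M ≤ m) (hD0 : 0 ≤ D) (hD2 : D ≤ 2 * M) (hA1 : A ≤ 1)
    (hAA : A ≤ Real.exp (4 * M) * A')
    (hD : D ≤ 2 * M * (i1 (Real.exp (-(5 * m)) ≤ O) + i1 (Real.exp (-(5 * m)) ≤ L)) + (1 + 2 * M) * Real.exp (-m)) :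
    A * D ≤ 2 * M * (i1 (Real.exp (-(5 * m)) ≤ A') * i1 (Real.exp (-(5 * m)) ≤ O) +
      i1 (Real.exp (-(5 * m)) ≤ A') * i1 (Real.exp (-(5 * m)) ≤ L)) + (1 + 4 * M) * Real.exp (-m) := by
  have hm0 : 0 ≤ m := by linarith
  have e0 := Real.exp_pos (-m)
  have n1 := i1_nonneg (Real.exp (-(5 * m)) ≤ O)
  have n2 := i1_nonneg (Real.exp (-(5 * m)) ≤ L)
  by_cases h1 : Real.exp (-(5 * m)) ≤ A'
  · rw [i1_of h1, one_mul, one_mul]
    have k1 : A * D ≤ D := mul_le_of_le_one_left hD0 hA1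
    have k2 : (1 + 2 * M) * Real.exp (-m) ≤ (1 + 4 * M) * Real.exp (-m) := mul_le_mul_of_nonneg_right (by linarith) e0.le
    linarith
  · rw [i1_zero h1, zero_mul, zero_mul, add_zero, mul_zero, zero_add]
    rw [not_le] at h1
    have k1 : A ≤ Real.exp (-m) := by
      refine hAA.trans ((mul_le_mul_of_nonneg_left h1.le (Real.exp_pos _).le).trans ?_)
      rw [← Real.exp_add]
      exact Real.exp_le_exp.2 (by linarith)
    calc A * D ≤ Real.exp (-m) * D := mul_le_mul_of_nonneg_right k1 hD0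
      _ ≤ Real.exp (-m) * (2 * M) := mul_le_mul_of_nonneg_left hD2 e0.le
      _ ≤ (1 + 4 * M) * Real.exp (-m) := by nlinarith

variable {Q : Finset (Finset ℕ)} [Nonempty (Px Q)] {Y Z : Type*} [DecidableEq Y] [DecidableEq Z]
variable {w g : Px Q → ℝ} {M θ m : ℝ}

/-- The error. -/
def tn (M m : ℝ) (D : ℕ) : ℝ := (1 + 4 * M + 2 * M * ((D : ℝ) + 2) ^ 3) * Real.exp (-m)

/-- The two products. -/
def Ph (w wi : Px Q → ℝ) (p : Px Q → Y) (q : Px Q → Z) (g : Px Q → ℝ) (m : ℝ) (J : Finset ℕ) (L : ℕ → Px Q → ℝ) (o0 o1 : ℕ)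
    (x : Px Q) : ℝ :=
  cE wi p (fun y => i1 (Real.exp (-(5 * m)) ≤ mI w p o0 o1 y) * i1 (Real.exp (-(5 * m)) ≤ osc w q g y)) x +
    (J.card : ℝ)⁻¹ * ∑ r ∈ J, cE wi p (fun y => i1 (Real.exp (-(5 * m)) ≤ mI w p o0 o1 y) * i1 (Real.exp (-(5 * m)) ≤ L r y)) x

theorem tilt_bd (hg : ∀ S, |g S| ≤ M) (hθ : |θ| ≤ 2) (S : Px Q) : |(θ • g) S| ≤ 2 * M := by
  rw [Pi.smul_apply, smul_eq_mul, abs_mul]
  exact mul_le_mul hθ (hg S) (abs_nonneg _) (by norm_num)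

theorem mI_tilt (hg : ∀ S, |g S| ≤ M) (hθ : |θ| ≤ 2) (p : Px Q → Y) (i j : ℕ) (y : Px Q) :
    mI (w + θ • g) p i j y ≤ Real.exp (4 * M) * mI w p i j y := by
  have h := Pool.W7d29a1.C0.R43.cE_tilt (tilt_bd hg hθ) p (f := NI i j y) (fun _ => NI_nonneg _ _ _ _) y (w := w)
  refine h.trans (le_of_eq ?_)
  unfold mI
  congr 2
  ring

theorem osc_tilt' (hg : ∀ S, |g S| ≤ M) (hθ : |θ| ≤ 2) (p : Px Q → Y) (f : Px Q → ℝ) (y : Px Q) :
    osc (w + θ • g) p f y ≤ Real.exp (8 * M) * osc w p f y := by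
  have h := osc_tilt (tilt_bd hg hθ) p f y (w := w)
  refine h.trans (le_of_eq ?_)
  congr 2
  ring

/-- **One row of the slab**, abstract. -/
theorem inj_abs (hg : ∀ S, |g S| ≤ M) (hθ : |θ| ≤ 2) (hm : 8 * M ≤ m) {p : Px Q → Y} {q : Px Q → Z} {DD Lt L : Px Q → ℝ}
    {T : Px Q → Prop} {D : ℕ} (hD0 : ∀ y, 0 ≤ DD y) (hD2 : ∀ y, DD y ≤ 2 * M)
    (hT : ∀ y, T y → DD y ≤ 2 * M * Lt y + Real.exp m * (Real.exp m * osc (w + θ • g) q g y))
    (hL : ∀ y, Lt y ≤ Real.exp (4 * M) * L y) (o0 o1 : ℕ) (x : Px Q)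
    (hTm : cE (w + θ • g) p (ind fun y => ¬ T y) x ≤ ((D : ℝ) + 2) ^ 3 * Real.exp (-m)) :
    cE (w + θ • g) p (fun y => mI (w + θ • g) p o0 o1 y * DD y) x ≤
      2 * M * (cE (w + θ • g) p (fun y => i1 (Real.exp (-(5 * m)) ≤ mI w p o0 o1 y) * i1 (Real.exp (-(5 * m)) ≤ osc w q g y)) x +
        cE (w + θ • g) p (fun y => i1 (Real.exp (-(5 * m)) ≤ mI w p o0 o1 y) * i1 (Real.exp (-(5 * m)) ≤ L y)) x) + tn M m D := by
  have hM : 0 ≤ M := (abs_nonneg _).trans (hg x)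
  have h1 : ∀ y, mI (w + θ • g) p o0 o1 y * DD y ≤ 2 * M * (i1 (Real.exp (-(5 * m)) ≤ mI w p o0 o1 y) *
      i1 (Real.exp (-(5 * m)) ≤ osc w q g y) + i1 (Real.exp (-(5 * m)) ≤ mI w p o0 o1 y) * i1 (Real.exp (-(5 * m)) ≤ L y)) +
      ((1 + 4 * M) * Real.exp (-m) + 2 * M * ind (fun y => ¬ T y) y) := by
    intro y
    have a0 : 0 ≤ mI (w + θ • g) p o0 o1 y := mI_nonneg _ _ _ _ _
    have a1 : mI (w + θ • g) p o0 o1 y ≤ 1 := (cE_mem _ p (fun _ => NI_nonneg _ _ _ _) (fun _ => NI_le_one _ _ _ _) y).2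
    by_cases h : T y
    · have k := AD_lv hM hm (hD0 y) (hD2 y) a1 (mI_tilt hg hθ p o0 o1 y) (D_lv hM hm (hT y h) (hD2 y) (hL y) (osc_tilt' hg hθ q g y))
      have k2 : 0 ≤ 2 * M * ind (fun y => ¬ T y) y := mul_nonneg (by linarith) (ind_nonneg _ _)
      linarith
    · have e : ind (fun y => ¬ T y) y = 1 := if_pos h
      rw [e]
      have k1 : mI (w + θ • g) p o0 o1 y * DD y ≤ 2 * M := (mul_le_of_le_one_left (hD0 y) a1).trans (hD2 y)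
      have n1 := i1_nonneg (Real.exp (-(5 * m)) ≤ mI w p o0 o1 y)
      have n2 := i1_nonneg (Real.exp (-(5 * m)) ≤ osc w q g y)
      have n3 := i1_nonneg (Real.exp (-(5 * m)) ≤ L y)
      have k3 : 0 ≤ 2 * M * (i1 (Real.exp (-(5 * m)) ≤ mI w p o0 o1 y) * i1 (Real.exp (-(5 * m)) ≤ osc w q g y) +
        i1 (Real.exp (-(5 * m)) ≤ mI w p o0 o1 y) * i1 (Real.exp (-(5 * m)) ≤ L y)) :=
        mul_nonneg (by linarith) (add_nonneg (mul_nonneg n1 n2) (mul_nonneg n1 n3))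
      have k4 : 0 ≤ (1 + 4 * M) * Real.exp (-m) := by positivity
      linarith
  have h2 := cE_mono (w + θ • g) p h1 x
  rw [cE_addf, cE_mulf, cE_addf, cE_addf, cE_constf, cE_mulf] at h2
  have h3 := mul_le_mul_of_nonneg_left hTm (show 0 ≤ 2 * M by linarith)
  unfold tn
  linarith

/-- The mean over the rows of the slab of the conditional means. -/
def Cj (wi : Px Q → ℝ) {Y' : Type*} [DecidableEq Y'] (pm : ℕ → Px Q → Y') (g : Px Q → ℝ) (J : Finset ℕ) (S : Px Q) : ℝ :=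
  (J.card : ℝ)⁻¹ * ∑ r ∈ J, cE wi (pm r) g S

theorem abs_sub_Cj {Y' : Type*} [DecidableEq Y'] (wi : Px Q → ℝ) (pm : ℕ → Px Q → Y') (g : Px Q → ℝ) {J : Finset ℕ}
    (hJ : J.Nonempty) (y : Px Q) : |g y - Cj wi pm g J y| ≤ (J.card : ℝ)⁻¹ * ∑ r ∈ J, Dr wi (pm r) g y := by
  have h0 : (J.card : ℝ) ≠ 0 := Nat.cast_ne_zero.2 (card_pos.2 hJ).ne'
  have e : g y - Cj wi pm g J y = (J.card : ℝ)⁻¹ * ∑ r ∈ J, (g y - cE wi (pm r) g y) := by
    unfold Cj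
    rw [sum_sub_distrib, sum_const, nsmul_eq_mul, mul_sub, ← mul_assoc, inv_mul_cancel₀ h0, one_mul]
  rw [e, abs_mul, abs_of_nonneg (inv_nonneg.2 (Nat.cast_nonneg _))]
  refine mul_le_mul_of_nonneg_left ((abs_sum_le_sum_abs _ _).trans (sum_le_sum fun r _ => ?_)) (inv_nonneg.2 (Nat.cast_nonneg _))
  have e2 : g y - cE wi (pm r) g y = cE wi (pm r) (fun v => g y - g v) y := by
    have k := congrFun (cE_sub wi (pm r) (fun _ => g y) g) y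
    rw [Pi.sub_apply] at k
    rw [← cE_constf wi (pm r) (g y) y]
    rw [cE_constf] at k ⊢
    exact k.symm
  rw [e2]
  exact S1.abs_cE_le wi (pm r) _ y

/-- The average over the slab. -/
theorem avg_le {J : Finset ℕ} (hJ : J.Nonempty) {A B' : ℕ → ℝ} {C E : ℝ} (h : ∀ r ∈ J, A r ≤ C * (E + B' r)) :
    (J.card : ℝ)⁻¹ * ∑ r ∈ J, A r ≤ C * (E + (J.card : ℝ)⁻¹ * ∑ r ∈ J, B' r) := by
  have h0 : (J.card : ℝ) ≠ 0 := Nat.cast_ne_zero.2 (card_pos.2 hJ).ne'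
  have h1 := mul_le_mul_of_nonneg_left (sum_le_sum h) (inv_nonneg.2 (Nat.cast_nonneg J.card : (0 : ℝ) ≤ J.card))
  refine h1.trans (le_of_eq ?_)
  rw [← mul_sum, sum_add_distrib, sum_const, nsmul_eq_mul]
  field_simp

/-! ### The bounds -/

/-- **From one row of the slab to (inj).** -/
theorem inj_fin {Y' : Type*} [DecidableEq Y'] {pm : ℕ → Px Q → Y'} {J : Finset ℕ} (hJ : J.Nonempty) {wi : Px Q → ℝ} {p : Px Q → Y}
    {q : Px Q → Z} {L : ℕ → Px Q → ℝ} {T : ℝ} {χ : Px Q → Px Q → ℝ} (hχ : ∀ y z, 0 ≤ χ y z) {o0 o1 : ℕ}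
    (hχ' : ∀ y z, χ y z ≤ NI o0 o1 y z) (x : Px Q) (hr : ∀ r ∈ J, cE wi p (fun y => mI wi p o0 o1 y * Dr wi (pm r) g y) x ≤
      2 * M * (cE wi p (fun y => i1 (Real.exp (-(5 * m)) ≤ mI w p o0 o1 y) * i1 (Real.exp (-(5 * m)) ≤ osc w q g y)) x +
        cE wi p (fun y => i1 (Real.exp (-(5 * m)) ≤ mI w p o0 o1 y) * i1 (Real.exp (-(5 * m)) ≤ L r y)) x) + T) :
    cE wi p (fun y => |g y - Cj wi pm g J y| * cE wi p (χ y) x) x ≤ 2 * M * Ph w wi p q g m J L o0 o1 x + T := by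
  have h0 : (0 : ℝ) < J.card := Nat.cast_pos.2 hJ.card_pos
  have s1 : cE wi p (fun y => |g y - Cj wi pm g J y| * cE wi p (χ y) x) x ≤
      cE wi p (fun y => (J.card : ℝ)⁻¹ * ∑ r ∈ J, mI wi p o0 o1 y * Dr wi (pm r) g y) x := cE_fib_mono wi p fun y hy => by
    have a1 : cE wi p (χ y) x ≤ mI wi p o0 o1 y := by
      refine (cE_mono wi p (hχ' y) x).trans (le_of_eq ?_)
      exact (cE_eq_of wi p _ hy).symm
    have a2 : 0 ≤ cE wi p (χ y) x := cE_nonneg _ _ (hχ y) _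
    calc _ ≤ ((J.card : ℝ)⁻¹ * ∑ r ∈ J, Dr wi (pm r) g y) * mI wi p o0 o1 y :=
          mul_le_mul (abs_sub_Cj wi pm g hJ y) a1 a2 (mul_nonneg (inv_nonneg.2 h0.le) (sum_nonneg fun r _ => Dr_nonneg _ _ _ _))
      _ = _ := by
          rw [mul_assoc, sum_mul]
          congr 1
          exact sum_congr rfl fun r _ => mul_comm _ _
  refine s1.trans ?_
  rw [cE_mulf, cE_sumf]
  have s2 := mul_le_mul_of_nonneg_left (sum_le_sum hr) (inv_nonneg.2 h0.le)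
  refine s2.trans (le_of_eq ?_)
  unfold Ph
  rw [sum_add_distrib, ← mul_sum, sum_add_distrib, sum_const, sum_const, nsmul_eq_mul, nsmul_eq_mul]
  field_simp

/-- **From one row of the slab to (sh).** -/
theorem sh_fin {Y' : Type*} [DecidableEq Y'] {pm : ℕ → Px Q → Y'} {J : Finset ℕ} (hJ : J.Nonempty) {wi : Px Q → ℝ} {p : Px Q → Y}
    {q : Px Q → Z} {L : ℕ → Px Q → ℝ} {T : ℝ} {χ : Px Q → Px Q → ℝ} {o0 o1 o2 o3 : ℕ}
    (hχ' : ∀ y z, χ y z ≤ NI o2 o3 y z) (x : Px Q)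
    (hs : ∀ r ∈ J, cE wi p (mI wi p o2 o3) x * cE wi p (Dr wi (pm r) g) x ≤
      cE wi p (fun y => Dr wi (pm r) g y * mI wi p o0 o1 y) x + cE wi p (fun y => Dr wi (pm r) g y * mI wi p o2 o3 y) x)
    (hr : ∀ r ∈ J, ∀ i k, cE wi p (fun y => mI wi p i k y * Dr wi (pm r) g y) x ≤
      2 * M * (cE wi p (fun y => i1 (Real.exp (-(5 * m)) ≤ mI w p i k y) * i1 (Real.exp (-(5 * m)) ≤ osc w q g y)) x +
        cE wi p (fun y => i1 (Real.exp (-(5 * m)) ≤ mI w p i k y) * i1 (Real.exp (-(5 * m)) ≤ L r y)) x) + T) :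
    cE2 wi p χ x x * cE wi p (fun y => |g y - Cj wi pm g J y|) x ≤
      2 * M * Ph w wi p q g m J L o0 o1 x + 2 * M * Ph w wi p q g m J L o2 o3 x + 2 * T := by
  have h0 : (0 : ℝ) < J.card := Nat.cast_pos.2 hJ.card_pos
  have a1 : cE2 wi p χ x x ≤ cE wi p (mI wi p o2 o3) x := by
    refine cE_fib_mono wi p fun y hy => ?_
    refine (cE_mono wi p (hχ' y) x).trans (le_of_eq ?_)
    exact (cE_eq_of wi p _ hy).symm
  have a2 : cE wi p (fun y => |g y - Cj wi pm g J y|) x ≤ (J.card : ℝ)⁻¹ * ∑ r ∈ J, cE wi p (Dr wi (pm r) g) x := by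
    refine (cE_mono wi p (fun y => abs_sub_Cj wi pm g hJ y) x).trans (le_of_eq ?_)
    rw [cE_mulf, cE_sumf]
  have a3 : 0 ≤ cE wi p (fun y => |g y - Cj wi pm g J y|) x := cE_nonneg _ _ (fun _ => abs_nonneg _) _
  have a4 : 0 ≤ cE wi p (mI wi p o2 o3) x := cE_nonneg _ _ (fun _ => mI_nonneg _ _ _ _ _) _
  refine (mul_le_mul a1 a2 a3 a4).trans ?_
  have e1 : cE wi p (mI wi p o2 o3) x * ((J.card : ℝ)⁻¹ * ∑ r ∈ J, cE wi p (Dr wi (pm r) g) x) =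
      (J.card : ℝ)⁻¹ * ∑ r ∈ J, cE wi p (mI wi p o2 o3) x * cE wi p (Dr wi (pm r) g) x := by
    rw [← mul_sum]
    ring
  rw [e1]
  have s2 : ∀ r ∈ J, cE wi p (mI wi p o2 o3) x * cE wi p (Dr wi (pm r) g) x ≤
      (2 * M * (cE wi p (fun y => i1 (Real.exp (-(5 * m)) ≤ mI w p o0 o1 y) * i1 (Real.exp (-(5 * m)) ≤ osc w q g y)) x +
        cE wi p (fun y => i1 (Real.exp (-(5 * m)) ≤ mI w p o0 o1 y) * i1 (Real.exp (-(5 * m)) ≤ L r y)) x) + T) +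
      (2 * M * (cE wi p (fun y => i1 (Real.exp (-(5 * m)) ≤ mI w p o2 o3 y) * i1 (Real.exp (-(5 * m)) ≤ osc w q g y)) x +
        cE wi p (fun y => i1 (Real.exp (-(5 * m)) ≤ mI w p o2 o3 y) * i1 (Real.exp (-(5 * m)) ≤ L r y)) x) + T) := fun r hr' => by
    have k1 := hr r hr' o0 o1
    have k2 := hr r hr' o2 o3
    have c1 : cE wi p (fun y => Dr wi (pm r) g y * mI wi p o0 o1 y) x = cE wi p (fun y => mI wi p o0 o1 y * Dr wi (pm r) g y) x :=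
      cE_congr wi p (fun y => mul_comm _ _) x
    have c2 : cE wi p (fun y => Dr wi (pm r) g y * mI wi p o2 o3 y) x = cE wi p (fun y => mI wi p o2 o3 y * Dr wi (pm r) g y) x :=
      cE_congr wi p (fun y => mul_comm _ _) x
    have k3 := hs r hr'
    rw [c1, c2] at k3
    exact k3.trans (add_le_add k1 k2)
  have s3 := mul_le_mul_of_nonneg_left (sum_le_sum s2) (inv_nonneg.2 h0.le)
  refine s3.trans (le_of_eq ?_)
  unfold Ph
  simp only [sum_add_distrib, ← mul_sum, sum_const, nsmul_eq_mul]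
  field_simp
  ring

section Fin

variable [SwQ Q] {al be c0 c1 d1 c d e0 D : ℕ}

/-- One row of the slab, right side. -/
theorem rowR (hg : ∀ S, |g S| ≤ M) (hg2 : ∀ S T : Px Q, ps S al = ps T al → ps S be = ps T be → g S = g T) (hθ : |θ| ≤ 2)
    (hm : 8 * M ≤ m) (hw : ∀ t u, t ≤ u → Ex w t u) {p : Px Q → Y} (hp : Crs p (pJ c1 d1)) (h0 : c0 ≤ c1)
    (h2 : al ≤ be) (h4 : d1 ≤ D) {r : ℕ} (hr : be ≤ r) (hr' : r ≤ d1) (i k : ℕ) (x : Px Q) :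
    cE (w + θ • g) p (fun y => mI (w + θ • g) p i k y * Dr (w + θ • g) (pJ c0 r) g y) x ≤
      2 * M * (cE (w + θ • g) p (fun y => i1 (Real.exp (-(5 * m)) ≤ mI w p i k y) *
          i1 (Real.exp (-(5 * m)) ≤ osc w (pJ c1 d1) g y)) x +
        cE (w + θ • g) p (fun y => i1 (Real.exp (-(5 * m)) ≤ mI w p i k y) *
          i1 (Real.exp (-(5 * m)) ≤ mI w (pJ c0 r) c1 al y)) x) + tn M m D := by
  have hl : Lk al be g := fun S S' h => hg2 S S' (h al le_rfl h2) (h be h2 le_rfl)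
  have hwi : ∀ a, c1 ≤ a → a ≤ al → Ex (w + θ • g) a r := fun a _ ha =>
    (hw a r (by omega)).add ((ex_Lk hl (by omega) ha hr).smul θ)
  refine inj_abs (q := pJ c1 d1) hg hθ hm (DD := Dr (w + θ • g) (pJ c0 r) g) (Lt := mI (w + θ • g) (pJ c0 r) c1 al)
    (T := TT (w + θ • g) (pJ c1 d1) (Real.exp (-m)) c1 al r al be) (Dr_nonneg _ _ _) (Dr_le hg _ _) (fun y hT => ?_)
    (mI_tilt hg hθ _ _ _) i k x (TT_le _ hp (Real.exp_pos _).le (by omega) (by omega) (by omega) (by omega) x)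
  have k1 := oscR hl hg h0 h2 hr hr' hwi (Real.exp_pos (-m)) y hT.1
  have k2 := Dr_le_osc (w + θ • g) (pJ c1 d1) hg2 (Real.exp_pos (-m)) y hT.2
  rw [Real.exp_neg, inv_inv] at k1 k2
  exact k1.trans (add_le_add_right (mul_le_mul_of_nonneg_left k2 (Real.exp_pos _).le) _)

/-- One row of the slab, left side. -/
theorem rowL (hg : ∀ S, |g S| ≤ M) (hg2 : ∀ S T : Px Q, ps S al = ps T al → ps S be = ps T be → g S = g T) (hθ : |θ| ≤ 2)
    (hm : 8 * M ≤ m) (hw : ∀ t u, t ≤ u → Ex w t u) {p : Px Q → Y} (hp : Crs p (pJ c1 d1)) (h0 : d1 ≤ e0) (h1 : be ≤ d1)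
    (h2 : al ≤ be) (h4 : d1 ≤ D) {r : ℕ} (hr : r ≤ al) (hr' : c1 ≤ r) (i k : ℕ) (x : Px Q) :
    cE (w + θ • g) p (fun y => mI (w + θ • g) p i k y * Dr (w + θ • g) (pJ r e0) g y) x ≤
      2 * M * (cE (w + θ • g) p (fun y => i1 (Real.exp (-(5 * m)) ≤ mI w p i k y) *
          i1 (Real.exp (-(5 * m)) ≤ osc w (pJ c1 d1) g y)) x +
        cE (w + θ • g) p (fun y => i1 (Real.exp (-(5 * m)) ≤ mI w p i k y) *
          i1 (Real.exp (-(5 * m)) ≤ mI w (pJ r e0) be d1 y)) x) + tn M m D := by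
  have hl : Lk al be g := fun S S' h => hg2 S S' (h al le_rfl h2) (h be h2 le_rfl)
  have hwi : ∀ a, be ≤ a → a ≤ d1 → Ex (w + θ • g) r a := fun a ha _ =>
    (hw r a (by omega)).add ((ex_Lk hl (by omega) hr ha).smul θ)
  refine inj_abs (q := pJ c1 d1) hg hθ hm (DD := Dr (w + θ • g) (pJ r e0) g) (Lt := mI (w + θ • g) (pJ r e0) be d1)
    (T := TT (w + θ • g) (pJ c1 d1) (Real.exp (-m)) be d1 r al be) (Dr_nonneg _ _ _) (Dr_le hg _ _) (fun y hT => ?_)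
    (mI_tilt hg hθ _ _ _) i k x (TT_le _ hp (Real.exp_pos _).le (by omega) (by omega) (by omega) (by omega) x)
  have k1 := oscL hl hg h0 h2 hr hr' hwi (Real.exp_pos (-m)) y hT.1
  have k2 := Dr_le_osc (w + θ • g) (pJ c1 d1) hg2 (Real.exp_pos (-m)) y hT.2
  rw [Real.exp_neg, inv_inv] at k1 k2
  exact k1.trans (add_le_add_right (mul_le_mul_of_nonneg_left k2 (Real.exp_pos _).le) _)

/-- **(inj), RIGHT SIDE.** -/
theorem injR (hg : ∀ S, |g S| ≤ M) (hg2 : ∀ S T : Px Q, ps S al = ps T al → ps S be = ps T be → g S = g T) (hθ : |θ| ≤ 2)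
    (hm : 8 * M ≤ m) (hw : ∀ t u, t ≤ u → Ex w t u) {p : Px Q → Y} (hp : Crs p (pJ c1 d1)) (h0 : c0 ≤ c1)
    (h2 : al ≤ be) (h4 : d1 ≤ D) {J : Finset ℕ} (hJ : J.Nonempty) (hJr : ∀ r ∈ J, be ≤ r ∧ r ≤ d1)
    {χ : Px Q → Px Q → ℝ} (hχ : ∀ y z, 0 ≤ χ y z) {o0 o1 : ℕ} (hχ' : ∀ y z, χ y z ≤ NI o0 o1 y z) (x : Px Q) :
    cE (w + θ • g) p (fun y => |g y - Cj (w + θ • g) (fun r => pJ c0 r) g J y| * cE (w + θ • g) p (χ y) x) x ≤
      2 * M * Ph w (w + θ • g) p (pJ c1 d1) g m J (fun r => mI w (pJ c0 r) c1 al) o0 o1 x + tn M m D :=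
  inj_fin hJ hχ hχ' x fun r hr =>
    rowR hg hg2 hθ hm hw hp h0 h2 h4 (hJr r hr).1 (hJr r hr).2 o0 o1 x

/-- **(inj), LEFT SIDE.** -/
theorem injL (hg : ∀ S, |g S| ≤ M) (hg2 : ∀ S T : Px Q, ps S al = ps T al → ps S be = ps T be → g S = g T) (hθ : |θ| ≤ 2)
    (hm : 8 * M ≤ m) (hw : ∀ t u, t ≤ u → Ex w t u) {p : Px Q → Y} (hp : Crs p (pJ c1 d1)) (h0 : d1 ≤ e0) (h1 : be ≤ d1)
    (h2 : al ≤ be) (h4 : d1 ≤ D) {J : Finset ℕ} (hJ : J.Nonempty) (hJr : ∀ r ∈ J, c1 ≤ r ∧ r ≤ al)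
    {χ : Px Q → Px Q → ℝ} (hχ : ∀ y z, 0 ≤ χ y z) {o0 o1 : ℕ} (hχ' : ∀ y z, χ y z ≤ NI o0 o1 y z) (x : Px Q) :
    cE (w + θ • g) p (fun y => |g y - Cj (w + θ • g) (fun r => pJ r e0) g J y| * cE (w + θ • g) p (χ y) x) x ≤
      2 * M * Ph w (w + θ • g) p (pJ c1 d1) g m J (fun r => mI w (pJ r e0) be d1) o0 o1 x + tn M m D :=
  inj_fin hJ hχ hχ' x fun r hr =>
    rowL hg hg2 hθ hm hw hp h0 h1 h2 h4 (hJr r hr).2 (hJr r hr).1 o0 o1 x

/-- **(sh), RIGHT SIDE.** -/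
theorem shR (hg : ∀ S, |g S| ≤ M) (hg2 : ∀ S T : Px Q, ps S al = ps T al → ps S be = ps T be → g S = g T) (hθ : |θ| ≤ 2)
    (hm : 8 * M ≤ m) (hw : ∀ t u, t ≤ u → Ex w t u) (hc : c ≤ c1) (hd : d1 ≤ d) (h0 : c0 ≤ c1) (h1 : c1 ≤ al)
    (h2 : al ≤ be) (h4 : d1 ≤ D) {J : Finset ℕ} (hJ : J.Nonempty) {o0 o1 o2 o3 : ℕ} (hJr : ∀ r ∈ J, be ≤ r ∧ r ≤ o0)
    (ho : o0 ≤ o1) (ho' : o1 ≤ o2) (ho1 : o1 ≤ d1)
    {χ : Px Q → Px Q → ℝ} (hχ' : ∀ y z, χ y z ≤ NI o2 o3 y z) (x : Px Q) :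
    cE2 (w + θ • g) (pJ c d) χ x x * cE (w + θ • g) (pJ c d) (fun y => |g y - Cj (w + θ • g) (fun r => pJ c0 r) g J y|) x ≤
      2 * M * Ph w (w + θ • g) (pJ c d) (pJ c1 d1) g m J (fun r => mI w (pJ c0 r) c1 al) o0 o1 x +
      2 * M * Ph w (w + θ • g) (pJ c d) (pJ c1 d1) g m J (fun r => mI w (pJ c0 r) c1 al) o2 o3 x + 2 * tn M m D := by
  have hl : Lk al be g := fun S S' h => hg2 S S' (h al le_rfl h2) (h be h2 le_rfl)
  have hbe : be ≤ o0 := by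
    obtain ⟨r, hr⟩ := hJ
    exact (hJr r hr).1.trans (hJr r hr).2
  have hex : ∀ t u, t ≤ al → be ≤ u → Ex (w + θ • g) t u := fun t u ht hu =>
    (hw t u (by omega)).add ((ex_Lk hl (by omega) ht hu).smul θ)
  refine sh_fin hJ hχ' x (fun r hr => ?_) fun r hr i k =>
    rowR hg hg2 hθ hm hw (crs_pJ hc hd) h0 h2 h4 (hJr r hr).1 (by have := hJr r hr; omega) i k x
  obtain ⟨r1, r2⟩ := hJr r hr
  refine sh_R (k0 := o0) (k1 := o1) (by omega) ho' (by omega) (fun k hk hk' => hex c k (by omega) (by omega)) x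
    (Dr_nonneg _ _ _) fun S T h => ?_
  exact Dr_loc hl (by omega) (by omega) r1 (hex c0 r (by omega) r1) fun i _ hi => h i (by omega)

/-- **(sh), LEFT SIDE.** -/
theorem shL (hg : ∀ S, |g S| ≤ M) (hg2 : ∀ S T : Px Q, ps S al = ps T al → ps S be = ps T be → g S = g T) (hθ : |θ| ≤ 2)
    (hm : 8 * M ≤ m) (hw : ∀ t u, t ≤ u → Ex w t u) (hc : c ≤ c1) (hd : d1 ≤ d) (h0 : d1 ≤ e0) (h1 : be ≤ d1)
    (h2 : al ≤ be) (h4 : d1 ≤ D) {J : Finset ℕ} (hJ : J.Nonempty) {o0 o1 o2 o3 : ℕ} (hJr : ∀ r ∈ J, o1 ≤ r ∧ r ≤ al)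
    (ho : o0 ≤ o1) (ho' : o3 ≤ o0) (ho1 : c1 ≤ o0)
    {χ : Px Q → Px Q → ℝ} (hχ' : ∀ y z, χ y z ≤ NI o2 o3 y z) (x : Px Q) :
    cE2 (w + θ • g) (pJ c d) χ x x * cE (w + θ • g) (pJ c d) (fun y => |g y - Cj (w + θ • g) (fun r => pJ r e0) g J y|) x ≤
      2 * M * Ph w (w + θ • g) (pJ c d) (pJ c1 d1) g m J (fun r => mI w (pJ r e0) be d1) o0 o1 x +
      2 * M * Ph w (w + θ • g) (pJ c d) (pJ c1 d1) g m J (fun r => mI w (pJ r e0) be d1) o2 o3 x + 2 * tn M m D := by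
  have hl : Lk al be g := fun S S' h => hg2 S S' (h al le_rfl h2) (h be h2 le_rfl)
  have hal : o1 ≤ al := by
    obtain ⟨r, hr⟩ := hJ
    exact (hJr r hr).1.trans (hJr r hr).2
  have hex : ∀ t u, t ≤ al → be ≤ u → Ex (w + θ • g) t u := fun t u ht hu =>
    (hw t u (by omega)).add ((ex_Lk hl (by omega) ht hu).smul θ)
  refine sh_fin hJ hχ' x (fun r hr => ?_) fun r hr i k =>
    rowL hg hg2 hθ hm hw (crs_pJ hc hd) h0 h1 h2 h4 (hJr r hr).2 (by have := hJr r hr; omega) i k x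
  obtain ⟨r1, r2⟩ := hJr r hr
  refine sh_L (k0 := o0) (k1 := o1) (by omega) ho' (by omega) (fun k hk hk' => hex k d (by omega) (by omega)) x
    (Dr_nonneg _ _ _) fun S T h => ?_
  exact Dr_loc hl (by omega) r2 (by omega) (hex r e0 r2 (by omega)) fun i hi _ => h i (by omega)

end Fin

end

end Pool.W7d29a1.C0.NN1
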