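import Pool.Agent.W_7d29a1_C0.Frm33B
import Pool.Agent.W_7d29a1_C0.Num46C
import Pool.Agent.W_7d29a1_C0.Num46P
import Pool.Agent.W_7d29a1_C0.Mod38C
import Pool.Agent.W_7d29a1_C0.NN1C
import Pool.Agent.W_7d29a1_HZ.Z22_PBox

/-!
MP_7d29a1_pr, [CURV0], leaf E5.8 / N1B (helper41, for helper14): THE NUMBERS OF `N1B` AT THE CONCRETE FRAME. `n = 2 ^ m`, `b0 = 2 ^ (p - ⌈ι m⌉)`,
`b = 2 ^ p`, `b' = 2 ^ p'`, `k = (b - b0) / 6`, `R = n ^ ζ wd' (b')`, `Λ = n ^ λ`, `B = n ^ β`, `G = Λ √(7 R (B / 2) ^ 2 / k)`.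
* `geo41`: the lengths; `rows41`: the rows of a block are deep;
* `gain41`, `gainF41`: `G ≤ 1` and `G ^ 2 B ^ 2 n ^ ε' / E_b ≤ n ^ (- c / 4) / E_ρ`, `ρ = 2 ^ q`, if `2 λ + ζ + 4 β + ε' ≤ c / 2`;
* `tl41`: the tails; `tn41`, `bd41`, `err41`: the errors of the lines.
-/

set_option autoImplicit false
set_option linter.unusedSectionVars false
set_option linter.unusedVariables false

namespace Pool.W7d29a1.C0.H41

open Finset MeasureTheory Filter Topology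
open Pool.Agent.W_7d29a1_F
open Pool.Agent.W_7d29a1_H (EE EE_pos one_le_EE sl)
open Pool.Agent.W_7d29a1_HS (In wd)
open Pool.Agent.W_7d29a1_HZ (wd')
open Pool.Agent.W_7d29a1_C0 Pool.Agent.W_7d29a1_C0.Mod92 Pool.Agent.W_7d29a1_C0.Asm96 Pool.Agent.W_7d29a1_C0.Frm33
open Pool.W7d29a1.C0.L38 (kn38 tl38)
open Pool.W7d29a1.C0.NN1 (tn)

noncomputable section

/-! ### The lengths -/

/-- **(n1), the lengths.** -/
theorem geo41 {δ ι : ℝ} (hδ : 0 < δ) (hι : 0 < ι) (hιδ : ι ≤ δ / 2) : ∀ᶠ m : ℕ in atTop, ∀ p : ℕ, δ * m ≤ p →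
    1 ≤ 2 ^ (p - ⌈ι * m⌉₊) ∧ 2 ^ (p - ⌈ι * m⌉₊) + 6 ≤ 2 ^ p ∧ 4 * 2 ^ (p - ⌈ι * m⌉₊) ≤ 2 ^ p ∧
      2 ^ p ≤ 12 * kn38 (2 ^ (p - ⌈ι * m⌉₊)) (2 ^ p) ∧ 0 < kn38 (2 ^ (p - ⌈ι * m⌉₊)) (2 ^ p) ∧
      4 * (2 ^ (p - ⌈ι * m⌉₊) + 4 * kn38 (2 ^ (p - ⌈ι * m⌉₊)) (2 ^ p)) ≤ 3 * 2 ^ p := by
  have h1 := (tendsto_natCast_atTop_atTop (R := ℝ)).eventually_ge_atTop (2 / ι)
  have h2 := (tendsto_natCast_atTop_atTop (R := ℝ)).eventually_ge_atTop (6 / δ)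
  filter_upwards [h1, h2] with m h1 h2 p hp
  rw [div_le_iff₀ hι] at h1
  rw [div_le_iff₀ hδ] at h2
  have hc2 : 2 ≤ ⌈ι * m⌉₊ := by
    have h3 : ι * m ≤ ⌈ι * m⌉₊ := Nat.le_ceil _
    have h4 : (2 : ℝ) ≤ ⌈ι * m⌉₊ := by linarith
    exact_mod_cast h4
  have hcp : ⌈ι * m⌉₊ ≤ p := by
    have h3 : (⌈ι * m⌉₊ : ℝ) < ι * m + 1 := Nat.ceil_lt_add_one (by positivity)
    have h4 : ι * m ≤ δ / 2 * m := mul_le_mul_of_nonneg_right hιδ (Nat.cast_nonneg m)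
    have h5 : (⌈ι * m⌉₊ : ℝ) < p := by linarith
    exact_mod_cast h5.le
  have hp6 : 6 ≤ p := by
    have h3 : (6 : ℝ) ≤ p := by linarith
    exact_mod_cast h3
  obtain ⟨b0, hb0⟩ : ∃ b0, b0 = 2 ^ (p - ⌈ι * m⌉₊) := ⟨_, rfl⟩
  obtain ⟨b, hb⟩ : ∃ b, b = 2 ^ p := ⟨_, rfl⟩
  have e1 : 4 * b0 ≤ b := by
    rw [hb, hb0]
    calc 4 * 2 ^ (p - ⌈ι * m⌉₊) = 2 ^ (2 + (p - ⌈ι * m⌉₊)) := by
          rw [pow_add]
          norm_num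
      _ ≤ 2 ^ p := Nat.pow_le_pow_right two_pos (by omega)
  have e2 : 64 ≤ b := by
    rw [hb]
    calc 64 = 2 ^ 6 := by norm_num
      _ ≤ 2 ^ p := Nat.pow_le_pow_right two_pos hp6
  have e3 : 1 ≤ b0 := by
    rw [hb0]
    exact Nat.one_le_two_pow
  rw [← hb0, ← hb]
  unfold kn38
  refine ⟨e3, by omega, e1, by omega, by omega, by omega⟩

/-- **(n1), the rows.** -/
theorem rows41 {μ : Measure ℝ} {s : ℝ} [IsProbabilityMeasure μ] {c₁ C : ℝ} {n₀ : ℕ} (h : In μ s c₁ C n₀) (hk : KapLe96 (EE μ s) (1 / 4))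
    {K : ℕ} (hK : 1 ≤ K) {Θ δ c η ι : ℝ} (hδ : 0 < δ) (hc : 0 ≤ c) (hcδ : c ≤ δ / 64) (hη : 0 ≤ η) (hι : ι ≤ δ / 16) :
    ∀ᶠ m : ℕ in atTop, ∀ p p' q i : ℕ, Chg96 (EE μ s) Θ δ c η m p p' q → i < 2 ^ (m - q) →
      ∀ j ∈ Rw (R33 ι m) (i * 2 ^ q) ((i + 1) * 2 ^ q), 4 * 2 ^ p' ≤ j ∧ j + 4 * 2 ^ p' ≤ L33 K m ∧ 2 ^ p' < j ∧ j + 2 ^ p' < L33 K m ∧
        2 ^ p < j ∧ j + 2 ^ p < L33 K m := by
  filter_upwards [deep33_ev h hk hδ hc hcδ hι] with m h1 p p' q i H hi j hj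
  have hm : (0 : ℝ) ≤ m := Nat.cast_nonneg _
  have hqm : q ≤ m := by
    have h2 := H.hqm
    have h3 : 0 ≤ η * (m : ℝ) := mul_nonneg hη hm
    have h4 : (q : ℝ) ≤ m := by linarith
    exact_mod_cast h4
  have hsq : sg96 (EE μ s) c m p' ≤ q := by
    have h2 := H.hsq'
    have h3 : 0 ≤ c * (m : ℝ) := mul_nonneg hc hm
    have h4 : (sg96 (EE μ s) c m p' : ℝ) ≤ q := by linarith
    exact_mod_cast h4
  have hp' : δ * m ≤ p' := H.hp.trans (by exact_mod_cast H.hpp)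
  have hD := h1 p' hp' (hsq.trans hqm)
  have hd : ∀ i : ℕ, 2 ^ sg96 (EE μ s) c m p' ∣ i * 2 ^ q := fun i => Dvd.dvd.mul_left (pow_dvd_pow 2 hsq) i
  obtain ⟨h6, h7⟩ := hD.in_block (by positivity) (hd i) (hd (i + 1)) hj
  have h8 : (i + 1) * 2 ^ q ≤ 2 ^ m := by
    calc (i + 1) * 2 ^ q ≤ 2 ^ (m - q) * 2 ^ q := Nat.mul_le_mul_right _ hi
      _ = 2 ^ m := by
          rw [← pow_add]
          congr 1
          omega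
  have h9 := L33_ge hK m
  have h10 : 2 ^ p ≤ 2 ^ p' := Nat.pow_le_pow_right two_pos H.hpp
  have h11 : 1 ≤ 2 ^ p' := Nat.one_le_two_pow
  generalize 2 ^ p' = b' at *
  generalize 2 ^ p = b at *
  generalize i * 2 ^ q = l at *
  generalize (i + 1) * 2 ^ q = r at *
  refine ⟨by omega, by omega, by omega, by omega, by omega, by omega⟩

/-! ### The gain -/

section Gain

variable {E w : ℕ → ℝ} {c₀ Θ δ a ε n c : ℝ} {b s b' s' ρ : ℕ}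

/-- **THE GAIN**: `G ^ 2` and `G ^ 2 B ^ 2 n ^ ε' / E_b`. -/
theorem gain41 (R : Reg46 E w c₀ Θ δ a ε n) (H : Ch46 E δ c Θ n b s b' s' ρ) {k : ℕ} (hk : b ≤ 12 * k) (la ζ β ε' : ℝ) :
    (n ^ la * Real.sqrt (7 * (n ^ ζ * w b') * (n ^ β / 2) ^ 2 / k)) ^ 2 ≤ n ^ (2 * la + ζ + 2 * β + 3 * ε - 15 * c) ∧
      (n ^ la * Real.sqrt (7 * (n ^ ζ * w b') * (n ^ β / 2) ^ 2 / k)) ^ 2 * (n ^ β) ^ 2 * (n ^ ε' / E b) ≤
        n ^ (2 * la + ζ + 4 * β + ε' + 3 * ε - 7 / 8 * c) / E ρ := by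
  have hN := R.N0
  have hc0 := H.h.c0
  have hEb := R.Epos b
  have hEρ := R.Epos ρ
  have hb := H.h.hb.pos R.N1
  have hw := R.w0 b' (H.h'.hb.npos R.N1)
  have hk0 : (0 : ℝ) < k := by
    have h1 : (b : ℝ) ≤ 12 * k := by exact_mod_cast hk
    linarith
  have hkb : (k : ℝ)⁻¹ ≤ 12 / b := by
    have h1 : (b : ℝ) ≤ 12 * k := by exact_mod_cast hk
    rw [inv_eq_one_div, div_le_div_iff₀ hk0 hb]
    linarith
  have p0 : ∀ x : ℝ, 0 < n ^ x := fun x => Real.rpow_pos_of_pos hN x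
  -- the square of the gain
  have e1 : (n ^ la * Real.sqrt (7 * (n ^ ζ * w b') * (n ^ β / 2) ^ 2 / k)) ^ 2 ≤ 21 * (n ^ (2 * la + ζ + 2 * β) * (w b' / b)) := by
    have h0 : 0 ≤ 7 * (n ^ ζ * w b') * (n ^ β / 2) ^ 2 / k := by
      have := p0 ζ
      have := p0 β
      positivity
    rw [mul_pow, Real.sq_sqrt h0]
    have h1 : n ^ (2 * la + ζ + 2 * β) = (n ^ la) ^ 2 * n ^ ζ * (n ^ β) ^ 2 := by
      rw [Real.rpow_add hN, Real.rpow_add hN, ← Real.rpow_natCast (n ^ la), ← Real.rpow_mul hN.le, ← Real.rpow_natCast (n ^ β),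
        ← Real.rpow_mul hN.le]
      congr 2
      · congr 1
        push_cast
        ring
      · push_cast
        ring
    have h2 : (n ^ la) ^ 2 * (7 * (n ^ ζ * w b') * (n ^ β / 2) ^ 2 / k) =
        7 / 4 * ((n ^ la) ^ 2 * n ^ ζ * (n ^ β) ^ 2 * w b') * (k : ℝ)⁻¹ := by
      field_simp
      norm_num
    rw [h2, ← h1]
    calc 7 / 4 * (n ^ (2 * la + ζ + 2 * β) * w b') * (k : ℝ)⁻¹ ≤ 7 / 4 * (n ^ (2 * la + ζ + 2 * β) * w b') * (12 / b) :=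
          mul_le_mul_of_nonneg_left hkb (by have := p0 (2 * la + ζ + 2 * β); positivity)
      _ = 21 * (n ^ (2 * la + ζ + 2 * β) * (w b' / b)) := by ring
  have hlg21 : Real.logb n 21 ≤ 2 * ε := by
    have h1 : Real.logb n 21 ≤ Real.logb n (16 * 16) := to_lg46 R.N1 (by norm_num) (by norm_num)
    rw [Real.logb_mul (by norm_num) (by norm_num)] at h1
    linarith [R.l16]
  have l1 := R.lw H.h'.hb
  have l2 := R.lst' H.h.hb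
  have l3 := H.h'.lup R
  have l4 := H.h.lpin R
  have l5 := (H.h.l8 R).1
  have l6 : 0 ≤ c₀ * δ := mul_nonneg R.c₀0.le R.δ0.le
  constructor
  · refine e1.trans (le_pow46 R.N1 (by have := p0 (2 * la + ζ + 2 * β); positivity) ?_)
    rw [Real.logb_mul (by norm_num) (by have := p0 (2 * la + ζ + 2 * β); positivity), Real.logb_mul (p0 _).ne' (by positivity), lgN46 R.N1,
      Real.logb_div hw.ne' hb.ne']
    linarith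
  · have h3 : 0 ≤ (n ^ β) ^ 2 * (n ^ ε' / E b) := by
      have := p0 ε'
      positivity
    have e2 := mul_le_mul_of_nonneg_right e1 h3
    rw [← mul_assoc] at e2
    refine e2.trans (of_lg46 R.N1 (by have := p0 (2 * la + ζ + 2 * β); have := p0 ε'; have := p0 β; positivity)
      (by have := p0 (2 * la + ζ + 4 * β + ε' + 3 * ε - 7 / 8 * c); positivity) ?_)
    have h4 : Real.logb n ((n ^ β) ^ 2) = 2 * β := by
      rw [Real.logb_pow, lgN46 R.N1]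
      push_cast
      ring
    rw [Real.logb_mul (by have := p0 (2 * la + ζ + 2 * β); positivity) (by have := p0 ε'; have := p0 β; positivity),
      Real.logb_mul (by norm_num) (by have := p0 (2 * la + ζ + 2 * β); positivity), Real.logb_mul (p0 _).ne' (by positivity), lgN46 R.N1,
      Real.logb_div hw.ne' hb.ne', Real.logb_mul (by have := p0 β; positivity) (by have := p0 ε'; positivity), h4,
      Real.logb_div (p0 _).ne' hEb.ne', lgN46 R.N1, Real.logb_div (p0 _).ne' hEρ.ne', lgN46 R.N1]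
    linarith

end Gain

section Frame

variable {μ : Measure ℝ} {s : ℝ}

/-- **(n2), (n3): THE GAIN AT THE FRAME.** -/
theorem gainF41 [IsProbabilityMeasure μ] {c₀ Θ : ℝ} (hR : RegP46 μ s c₀ Θ) {δ c η la ζ β ε' : ℝ} (hδ : 0 < δ) (hc : 0 < c)
    (hcδ : c ≤ δ / 64) (hη : 0 ≤ η) (hβ : 0 ≤ β) (hε' : 0 ≤ ε') (hs : 2 * la + ζ + 4 * β + ε' ≤ c / 2) :
    ∀ᶠ m : ℕ in atTop, ∀ p p' q : ℕ, Chg96 (EE μ s) Θ δ c η m p p' q → ∀ k : ℕ, 2 ^ p ≤ 12 * k →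
      ((2 ^ m : ℕ) : ℝ) ^ la * Real.sqrt (7 * (((2 ^ m : ℕ) : ℝ) ^ ζ * wd' μ s (2 ^ p')) * (B33 β m / 2) ^ 2 / k) ≤ 1 ∧
        (((2 ^ m : ℕ) : ℝ) ^ la * Real.sqrt (7 * (((2 ^ m : ℕ) : ℝ) ^ ζ * wd' μ s (2 ^ p')) * (B33 β m / 2) ^ 2 / k)) ^ 2 * B33 β m ^ 2 *
          (((2 ^ m : ℕ) : ℝ) ^ ε' / EE μ s (2 ^ p)) ≤ ((2 ^ m : ℕ) : ℝ) ^ (-(c / 4)) / EE μ s (2 ^ q) := by
  obtain ⟨a, -, -, h1⟩ := hR
  filter_upwards [h1 δ (c / 24) hδ (by positivity)] with m hm p p' q H k hk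
  obtain ⟨R, hwd⟩ := hm
  have hqm : q ≤ m := by
    have h2 := H.hqm
    have h3 : 0 ≤ η * (m : ℝ) := mul_nonneg hη (Nat.cast_nonneg _)
    have h4 : (q : ℝ) ≤ m := by linarith
    exact_mod_cast h4
  have hH := ch46 R hc (by linarith) H hqm
  have hp' : δ * m ≤ p' := H.hp.trans (by exact_mod_cast H.hpp)
  have e1 : wd' μ s (2 ^ p') = wd μ s (2 ^ p') := hwd _ (two_ge hp')
  obtain ⟨g1, g2⟩ := gain41 R hH hk la ζ β ε'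
  rw [e1]
  have hn1 : 1 ≤ ((2 ^ m : ℕ) : ℝ) := n_ge1 m
  have hn0 : 0 < ((2 ^ m : ℕ) : ℝ) := by linarith
  have hEρ := R.Epos (2 ^ q)
  refine ⟨?_, ?_⟩
  · have h2 : ((2 ^ m : ℕ) : ℝ) ^ (2 * la + ζ + 2 * β + 3 * (c / 24) - 15 * c) ≤ 1 :=
      Real.rpow_le_one_of_one_le_of_nonpos hn1 (by linarith)
    have h3 := g1.trans h2
    have h4 : 0 ≤ ((2 ^ m : ℕ) : ℝ) ^ la * Real.sqrt (7 * (((2 ^ m : ℕ) : ℝ) ^ ζ * wd μ s (2 ^ p')) * (((2 ^ m : ℕ) : ℝ) ^ β / 2) ^ 2 / k) :=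
      mul_nonneg (Real.rpow_nonneg hn0.le _) (Real.sqrt_nonneg _)
    show ((2 ^ m : ℕ) : ℝ) ^ la * Real.sqrt (7 * (((2 ^ m : ℕ) : ℝ) ^ ζ * wd μ s (2 ^ p')) * (((2 ^ m : ℕ) : ℝ) ^ β / 2) ^ 2 / k) ≤ 1
    nlinarith
  · refine g2.trans (div_le_div_of_nonneg_right ?_ hEρ.le)
    exact Real.rpow_le_rpow_of_exponent_le hn1 (by linarith)

end Frame

/-! ### The errors -/

/-- Powers are absorbed by stretched exponentials, at the lengths `2 ^ m`. -/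
theorem absorb41 (A k : ℝ) {b g : ℝ} (hb : 0 < b) (hg : 0 < g) : ∀ᶠ m : ℕ in atTop,
    A * ((2 ^ m : ℕ) : ℝ) ^ k * Real.exp (-(b * ((2 ^ m : ℕ) : ℝ) ^ g)) ≤ Real.exp (-((2 ^ m : ℕ) : ℝ) ^ (g / 2)) :=
  (tendsto_pow_atTop_atTop_of_one_lt one_lt_two).eventually (Pool.Agent.W_7d29a1_HZ.Z22.absorb A k hb hg)

/-- **(n4), the tails**: `tl38 N L R B K₁ θ Λ ≤ L exp (- n ^ (λ / 2))`. -/
theorem tl41 {μ : Measure ℝ} {s : ℝ} [IsProbabilityMeasure μ] {c₁ C : ℝ} {n₀ : ℕ} (h : In μ s c₁ C n₀) (K : ℕ) {la ζ β K₁ θ : ℝ}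
    (hla : 0 < la) (hζ : 0 ≤ ζ) (hβ : 0 ≤ β) (hθ : 0 < θ) :
    ∀ᶠ m : ℕ in atTop, ∀ p' : ℕ, p' ≤ m → ∀ L : ℝ, 0 ≤ L →
      tl38 (L33 K m) L (((2 ^ m : ℕ) : ℝ) ^ ζ * wd' μ s (2 ^ p')) (B33 β m) K₁ θ (((2 ^ m : ℕ) : ℝ) ^ la) ≤
        L * Real.exp (-((2 ^ m : ℕ) : ℝ) ^ (la / 2)) := by
  obtain ⟨a, K', ha, ha1, hK', hw⟩ := Pool.Agent.W_7d29a1_HZ.wd'_pow h
  obtain ⟨W, hW⟩ : ∃ W, W = K' * wd' μ s 1 := ⟨_, rfl⟩
  have hw1 : 1 ≤ wd' μ s 1 := le_max_left _ _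
  have hW0 : 0 ≤ W := by
    rw [hW]
    positivity
  filter_upwards [absorb41 (32 * 81 * W / θ ^ 2 * Real.exp (4 * K₁ * θ ^ 2)) (4 * K + (ζ + 1) + 4 * β) (show 0 < θ / 2 by positivity) hla]
    with m hm p' hp' L hL
  obtain ⟨n, hn⟩ : ∃ n : ℝ, n = ((2 ^ m : ℕ) : ℝ) := ⟨_, rfl⟩
  have hn1 : 1 ≤ n := hn ▸ n_ge1 m
  have hn0 : 0 < n := by linarith
  rw [← hn] at hm ⊢
  have hB : B33 β m = n ^ β := by
    rw [hn]
    rfl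
  have hLn : ((L33 K m : ℕ) : ℝ) = n ^ (K : ℝ) := by rw [hn, L33_real]
  have hwp : wd' μ s (2 ^ p') ≤ W * n := by
    have h1 := (hw 1 (2 ^ p') le_rfl Nat.one_le_two_pow).2.2
    have hpn : ((2 ^ p' : ℕ) : ℝ) ≤ n := by
      rw [hn]
      exact_mod_cast Nat.pow_le_pow_right two_pos hp'
    have h2 : (1 : ℝ) ≤ ((2 ^ p' : ℕ) : ℝ) := n_ge1 p'
    have h3 : (((2 ^ p' : ℕ) : ℝ) / ((1 : ℕ) : ℝ)) ^ (1 - a) ≤ n := by
      rw [Nat.cast_one, div_one]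
      calc ((2 ^ p' : ℕ) : ℝ) ^ (1 - a) ≤ ((2 ^ p' : ℕ) : ℝ) ^ (1 : ℝ) := Real.rpow_le_rpow_of_exponent_le h2 (by linarith)
        _ = ((2 ^ p' : ℕ) : ℝ) := Real.rpow_one _
        _ ≤ n := hpn
    calc wd' μ s (2 ^ p') ≤ K' * (((2 ^ p' : ℕ) : ℝ) / ((1 : ℕ) : ℝ)) ^ (1 - a) * wd' μ s 1 := h1
      _ ≤ K' * n * wd' μ s 1 := by gcongr
      _ = W * n := by rw [hW]; ring
  have hw0 : 0 ≤ wd' μ s (2 ^ p') := zero_le_one.trans (le_max_left _ _)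
  have hN4 : (((L33 K m : ℕ) : ℝ) + 2) ^ 4 ≤ 81 * n ^ (4 * (K : ℝ)) := by
    have h1 : 1 ≤ n ^ (K : ℝ) := Real.one_le_rpow hn1 (Nat.cast_nonneg K)
    have h2 : n ^ (4 * (K : ℝ)) = (n ^ (K : ℝ)) ^ 4 := by
      rw [← Real.rpow_natCast, ← Real.rpow_mul hn0.le]
      congr 1
      push_cast
      ring
    rw [hLn, h2]
    calc (n ^ (K : ℝ) + 2) ^ 4 ≤ (3 * n ^ (K : ℝ)) ^ 4 := pow_le_pow_left₀ (by linarith) (by linarith) 4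
      _ = 81 * (n ^ (K : ℝ)) ^ 4 := by ring
  have hR : n ^ ζ * wd' μ s (2 ^ p') ≤ W * n ^ (ζ + 1) := by
    rw [Real.rpow_add hn0, Real.rpow_one]
    calc n ^ ζ * wd' μ s (2 ^ p') ≤ n ^ ζ * (W * n) := mul_le_mul_of_nonneg_left hwp (Real.rpow_nonneg hn0.le _)
      _ = _ := by ring
  have hB4 : (n ^ β) ^ 4 = n ^ (4 * β) := by
    rw [← Real.rpow_natCast, ← Real.rpow_mul hn0.le]
    congr 1
    push_cast
    ring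
  have hex : Real.exp (4 * K₁ * θ ^ 2 - θ * n ^ la / 2) = Real.exp (4 * K₁ * θ ^ 2) * Real.exp (-(θ / 2 * n ^ la)) := by
    rw [← Real.exp_add]
    congr 1
    ring
  unfold tl38
  rw [hB, hB4, hex]
  have q0 : ∀ x : ℝ, 0 ≤ n ^ x := fun x => Real.rpow_nonneg hn0.le x
  have s1 : 32 * (((L33 K m : ℕ) : ℝ) + 2) ^ 4 * (L * (n ^ ζ * wd' μ s (2 ^ p')) * n ^ (4 * β)) ≤
      32 * (81 * n ^ (4 * (K : ℝ))) * (L * (W * n ^ (ζ + 1)) * n ^ (4 * β)) := by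
    have := q0 (4 * β)
    have := q0 (ζ + 1)
    have := q0 ζ
    have := q0 (4 * (K : ℝ))
    gcongr
  have s2 : 32 * (81 * n ^ (4 * (K : ℝ))) * (L * (W * n ^ (ζ + 1)) * n ^ (4 * β)) = L * (32 * 81 * W * n ^ (4 * (K : ℝ) + (ζ + 1) + 4 * β)) := by
    have h1 : n ^ (4 * (K : ℝ) + (ζ + 1) + 4 * β) = n ^ (4 * (K : ℝ)) * n ^ (ζ + 1) * n ^ (4 * β) := by
      rw [Real.rpow_add hn0 (4 * (K : ℝ) + (ζ + 1)), Real.rpow_add hn0 (4 * (K : ℝ))]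
    rw [h1]
    ring
  have s3 := div_le_div_of_nonneg_right (s1.trans_eq s2) (sq_nonneg θ)
  calc _ ≤ L * (32 * 81 * W * n ^ (4 * (K : ℝ) + (ζ + 1) + 4 * β)) / θ ^ 2 *
        (Real.exp (4 * K₁ * θ ^ 2) * Real.exp (-(θ / 2 * n ^ la))) := mul_le_mul_of_nonneg_right s3 (by positivity)
    _ = L * (32 * 81 * W / θ ^ 2 * Real.exp (4 * K₁ * θ ^ 2) * n ^ (4 * (K : ℝ) + (ζ + 1) + 4 * β) * Real.exp (-(θ / 2 * n ^ la))) := by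
        ring
    _ ≤ L * Real.exp (-n ^ (la / 2)) := mul_le_mul_of_nonneg_left hm hL

/-- **(n4), the errors of the lines**, the first part: `A B ^ 4 (7 exp (4 B) exp (- 5 M) + 4 tn) ≤ exp (- n ^ (κ / 2))`, `M = n ^ κ`. -/
theorem tn41 (A : ℝ) (hA : 0 ≤ A) (K : ℕ) {κ β : ℝ} (hκ : 0 < κ) (hβ : 0 ≤ β) (hβκ : β ≤ κ) : ∀ᶠ m : ℕ in atTop,
    A * B33 β m ^ 4 * (7 * (Real.exp (4 * B33 β m) * Real.exp (-(5 * ((2 ^ m : ℕ) : ℝ) ^ κ))) +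
      4 * tn (B33 β m / 2) (((2 ^ m : ℕ) : ℝ) ^ κ) (L33 K m)) ≤ Real.exp (-((2 ^ m : ℕ) : ℝ) ^ (κ / 2)) := by
  filter_upwards [absorb41 (A * 127) (5 * β + 3 * K) one_pos hκ] with m hm
  obtain ⟨n, hn⟩ : ∃ n : ℝ, n = ((2 ^ m : ℕ) : ℝ) := ⟨_, rfl⟩
  have hn1 : 1 ≤ n := hn ▸ n_ge1 m
  have hn0 : 0 < n := by linarith
  rw [← hn] at hm ⊢
  have hB : B33 β m = n ^ β := by
    rw [hn]
    rfl
  have hLn : ((L33 K m : ℕ) : ℝ) = n ^ (K : ℝ) := by rw [hn, L33_real]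
  have hB1 : 1 ≤ n ^ β := Real.one_le_rpow hn1 hβ
  have hBM : n ^ β ≤ n ^ κ := Real.rpow_le_rpow_of_exponent_le hn1 hβκ
  have hN1 : 1 ≤ n ^ (K : ℝ) := Real.one_le_rpow hn1 (Nat.cast_nonneg K)
  have e1 : Real.exp (4 * n ^ β) * Real.exp (-(5 * n ^ κ)) ≤ Real.exp (-n ^ κ) := by
    rw [← Real.exp_add]
    exact Real.exp_le_exp.2 (by linarith)
  have e2 : tn (n ^ β / 2) (n ^ κ) (L33 K m) ≤ 30 * (n ^ β * n ^ (3 * (K : ℝ))) * Real.exp (-n ^ κ) := by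
    unfold tn
    refine mul_le_mul_of_nonneg_right ?_ (Real.exp_pos _).le
    have h3 : n ^ (3 * (K : ℝ)) = (n ^ (K : ℝ)) ^ 3 := by
      rw [← Real.rpow_natCast, ← Real.rpow_mul hn0.le]
      congr 1
      push_cast
      ring
    rw [hLn, h3]
    have h4 : (n ^ (K : ℝ) + 2) ^ 3 ≤ 27 * (n ^ (K : ℝ)) ^ 3 := by
      calc (n ^ (K : ℝ) + 2) ^ 3 ≤ (3 * n ^ (K : ℝ)) ^ 3 := pow_le_pow_left₀ (by linarith) (by linarith) 3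
        _ = 27 * (n ^ (K : ℝ)) ^ 3 := by ring
    have h5 : 1 ≤ (n ^ (K : ℝ)) ^ 3 := one_le_pow₀ hN1
    have h6 : n ^ β * (n ^ (K : ℝ) + 2) ^ 3 ≤ n ^ β * (27 * (n ^ (K : ℝ)) ^ 3) := mul_le_mul_of_nonneg_left h4 (by linarith)
    have h7 : n ^ β ≤ n ^ β * (n ^ (K : ℝ)) ^ 3 := le_mul_of_one_le_right (by linarith) h5
    linarith
  have e3 : n ^ (5 * β + 3 * (K : ℝ)) = (n ^ β) ^ 4 * (n ^ β * n ^ (3 * (K : ℝ))) := by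
    rw [← mul_assoc, ← Real.rpow_natCast (n ^ β), ← Real.rpow_mul hn0.le, ← Real.rpow_add hn0, ← Real.rpow_add hn0]
    congr 1
    push_cast
    ring
  have e4 : 1 ≤ n ^ β * n ^ (3 * (K : ℝ)) := by
    have h1 : 1 ≤ n ^ (3 * (K : ℝ)) := Real.one_le_rpow hn1 (by positivity)
    nlinarith
  rw [hB]
  have hE := Real.exp_pos (-n ^ κ)
  have e5 : Real.exp (-n ^ κ) ≤ (n ^ β * n ^ (3 * (K : ℝ))) * Real.exp (-n ^ κ) := le_mul_of_one_le_left hE.le e4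
  have e6 : 7 * (Real.exp (4 * n ^ β) * Real.exp (-(5 * n ^ κ))) + 4 * tn (n ^ β / 2) (n ^ κ) (L33 K m) ≤
      127 * ((n ^ β * n ^ (3 * (K : ℝ))) * Real.exp (-n ^ κ)) := by linarith
  calc _ ≤ A * (n ^ β) ^ 4 * (127 * ((n ^ β * n ^ (3 * (K : ℝ))) * Real.exp (-n ^ κ))) :=
        mul_le_mul_of_nonneg_left e6 (by positivity)
    _ = A * 127 * n ^ (5 * β + 3 * (K : ℝ)) * Real.exp (-(1 * n ^ κ)) := by
        rw [e3, one_mul]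
        ring
    _ ≤ _ := hm

/-- **(n4), the errors of the lines**, the bent paths: `A B ^ 4 exp (2 B) exp (- n ^ c₂) ≤ exp (- n ^ (c₂ / 2))`. -/
theorem bd41 (A : ℝ) (hA : 0 ≤ A) {c₂ β : ℝ} (hc₂ : 0 < c₂) (hβc : β < c₂) : ∀ᶠ m : ℕ in atTop,
    A * B33 β m ^ 4 * (Real.exp (2 * B33 β m) * Real.exp (-((2 ^ m : ℕ) : ℝ) ^ c₂)) ≤ Real.exp (-((2 ^ m : ℕ) : ℝ) ^ (c₂ / 2)) := by
  filter_upwards [absorb41 A (4 * β) (show (0 : ℝ) < 1 / 2 by norm_num) hc₂, ev_n (show 0 < c₂ - β by linarith) 4] with m hm h4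
  obtain ⟨n, hn⟩ : ∃ n : ℝ, n = ((2 ^ m : ℕ) : ℝ) := ⟨_, rfl⟩
  have hn1 : 1 ≤ n := hn ▸ n_ge1 m
  have hn0 : 0 < n := by linarith
  rw [← hn] at hm h4 ⊢
  have hB : B33 β m = n ^ β := by
    rw [hn]
    rfl
  have hB0 : 0 < n ^ β := Real.rpow_pos_of_pos hn0 _
  have e1 : 4 * n ^ β ≤ n ^ c₂ := by
    have : n ^ c₂ = n ^ (c₂ - β) * n ^ β := by
      rw [← Real.rpow_add hn0]
      congr 1
      ring
    rw [this]
    exact mul_le_mul_of_nonneg_right h4 hB0.le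
  have e2 : Real.exp (2 * n ^ β) * Real.exp (-n ^ c₂) ≤ Real.exp (-(1 / 2 * n ^ c₂)) := by
    rw [← Real.exp_add]
    exact Real.exp_le_exp.2 (by linarith)
  have e3 : (n ^ β) ^ 4 = n ^ (4 * β) := by
    rw [← Real.rpow_natCast, ← Real.rpow_mul hn0.le]
    congr 1
    push_cast
    ring
  rw [hB, e3]
  exact (mul_le_mul_of_nonneg_left e2 (mul_nonneg hA (Real.rpow_nonneg hn0.le _))).trans hm

/-- **(n4) THE ERRORS OF ONE SIDE** (`side14`), all together. -/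
theorem err41 (K : ℕ) {κ c₂ β : ℝ} (hκ : 0 < κ) (hc₂ : 0 < c₂) (hβ : 0 ≤ β) (hβκ : β ≤ κ) (hβc : β < c₂) :
    ∃ x : ℝ, 0 < x ∧ ∀ᶠ m : ℕ in atTop, ∀ e0 t1 t2 d1 d2 : ℝ,
      e0 ≤ Real.exp (4 * B33 β m) * Real.exp (-(5 * ((2 ^ m : ℕ) : ℝ) ^ κ)) →
      t1 + t2 ≤ 4 * tn (B33 β m / 2) (((2 ^ m : ℕ) : ℝ) ^ κ) (L33 K m) →
      d1 ≤ Real.exp (-((2 ^ m : ℕ) : ℝ) ^ c₂) → d2 ≤ Real.exp (-((2 ^ m : ℕ) : ℝ) ^ c₂) →
      32 * B33 β m ^ 4 * (7 * e0 + t1 + t2 + 15 * Real.exp (2 * B33 β m) * (d1 + d2)) ≤ Real.exp (-((2 ^ m : ℕ) : ℝ) ^ x) := by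
  obtain ⟨y, hy⟩ : ∃ y : ℝ, y = min κ c₂ / 2 := ⟨_, rfl⟩
  have hy0 : 0 < y := by
    rw [hy]
    have := lt_min hκ hc₂
    positivity
  have hyκ : y ≤ κ / 2 := by
    rw [hy]
    have := min_le_left κ c₂
    linarith
  have hyc : y ≤ c₂ / 2 := by
    rw [hy]
    have := min_le_right κ c₂
    linarith
  refine ⟨y / 2, by positivity, ?_⟩
  filter_upwards [tn41 32 (by norm_num) K hκ hβ hβκ, bd41 960 (by norm_num) hc₂ hβc, absorb41 2 0 one_pos hy0]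
    with m h1 h2 h3 e0 t1 t2 d1 d2 g1 g2 g3 g4
  have hn1 := n_ge1 m
  have hB0 : 0 ≤ B33 β m := Real.rpow_nonneg (Nat.cast_nonneg _) _
  have a1 : Real.exp (-((2 ^ m : ℕ) : ℝ) ^ (κ / 2)) ≤ Real.exp (-((2 ^ m : ℕ) : ℝ) ^ y) :=
    Real.exp_le_exp.2 (neg_le_neg (Real.rpow_le_rpow_of_exponent_le hn1 hyκ))
  have a2 : Real.exp (-((2 ^ m : ℕ) : ℝ) ^ (c₂ / 2)) ≤ Real.exp (-((2 ^ m : ℕ) : ℝ) ^ y) :=
    Real.exp_le_exp.2 (neg_le_neg (Real.rpow_le_rpow_of_exponent_le hn1 hyc))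
  rw [Real.rpow_zero, mul_one, one_mul] at h3
  have b1 : 32 * B33 β m ^ 4 * (7 * e0 + (t1 + t2)) ≤ 32 * B33 β m ^ 4 *
      (7 * (Real.exp (4 * B33 β m) * Real.exp (-(5 * ((2 ^ m : ℕ) : ℝ) ^ κ))) + 4 * tn (B33 β m / 2) (((2 ^ m : ℕ) : ℝ) ^ κ) (L33 K m)) :=
    mul_le_mul_of_nonneg_left (by linarith) (by positivity)
  have b2 : 32 * B33 β m ^ 4 * (15 * Real.exp (2 * B33 β m) * (d1 + d2)) ≤
      960 * B33 β m ^ 4 * (Real.exp (2 * B33 β m) * Real.exp (-((2 ^ m : ℕ) : ℝ) ^ c₂)) := by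
    have c1 : 15 * Real.exp (2 * B33 β m) * (d1 + d2) ≤ 15 * Real.exp (2 * B33 β m) * (2 * Real.exp (-((2 ^ m : ℕ) : ℝ) ^ c₂)) :=
      mul_le_mul_of_nonneg_left (by linarith) (by positivity)
    calc _ ≤ 32 * B33 β m ^ 4 * (15 * Real.exp (2 * B33 β m) * (2 * Real.exp (-((2 ^ m : ℕ) : ℝ) ^ c₂))) :=
          mul_le_mul_of_nonneg_left c1 (by positivity)
      _ = _ := by ring
  calc _ = 32 * B33 β m ^ 4 * (7 * e0 + (t1 + t2)) + 32 * B33 β m ^ 4 * (15 * Real.exp (2 * B33 β m) * (d1 + d2)) := by ring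
    _ ≤ 2 * Real.exp (-((2 ^ m : ℕ) : ℝ) ^ y) := by linarith
    _ ≤ _ := h3

end

end Pool.W7d29a1.C0.H41
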