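import Pool.Agent.W_7d29a1_C0.PrI46
import Pool.Agent.W_7d29a1_C0.NmB41
import Pool.Agent.W_7d29a1_C0.Num46B

/-!
MP_7d29a1_pr, [CURV0], leaf E5.8 / N1B (helper19, for helper3 and helper38): THE NUMBERS OF THE LINES AT THE CONCRETE FRAME. `dyad19`: the length
`b0`; `num19`: `16 n ^ ε / (E_l E_b) ≤ n ^ (- c / 16 - c / 2) / E_ρ` for `l ≤ b ≤ 12 n ^ ι l`; `nm46_19`: the same as `Nm46`; `nm46_234`: the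
three prices `2 n ^ ε / (E_b0 E_b)`, `n ^ ε / (E_2k E_b)`, `n ^ ε / E_b ^ 2`; `nm46_58`: the last one alone, for all `ι`.
-/

set_option autoImplicit false
set_option linter.unusedSectionVars false
set_option linter.unusedVariables false

namespace Pool.Agent.W_7d29a1_C0.N1E19

open Finset MeasureTheory Filter Topology
open Pool.Agent.W_7d29a1_F
open Pool.Agent.W_7d29a1_H (EE EE_pos one_le_EE sl)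
open Pool.Agent.W_7d29a1_HS (In wd)
open Pool.Agent.W_7d29a1_HZ (wd')
open Pool.Agent.W_7d29a1_C0 Pool.Agent.W_7d29a1_C0.Mod92 Pool.Agent.W_7d29a1_C0.Asm96 Pool.Agent.W_7d29a1_C0.Frm33
open Pool.Agent.W_7d29a1_C0.Pr46
open Pool.W7d29a1.C0.L38 (kn38 kn38_le)
open Pool.W7d29a1.C0.H41 (geo41)

noncomputable section

/-- The length `b0 = 2 ^ (p - ⌈ι m⌉)` is at least `2 ^ p n ^ (- ι) / 2`. -/
theorem dyad19 {ι : ℝ} {m p : ℕ} (hp : ⌈ι * (m : ℝ)⌉₊ ≤ p) (hι : 0 ≤ ι) :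
    ((2 ^ p : ℕ) : ℝ) ≤ 2 * ((2 ^ m : ℕ) : ℝ) ^ ι * ((2 ^ (p - ⌈ι * (m : ℝ)⌉₊) : ℕ) : ℝ) := by
  have h1 : ((2 ^ p : ℕ) : ℝ) = (2 : ℝ) ^ ⌈ι * (m : ℝ)⌉₊ * ((2 ^ (p - ⌈ι * (m : ℝ)⌉₊) : ℕ) : ℝ) := by
    push_cast
    rw [← pow_add]
    congr 1
    omega
  have h2 : (2 : ℝ) ^ ⌈ι * (m : ℝ)⌉₊ ≤ 2 * ((2 ^ m : ℕ) : ℝ) ^ ι := by
    have e1 : (⌈ι * (m : ℝ)⌉₊ : ℝ) ≤ ι * m + 1 := (Nat.ceil_lt_add_one (by positivity)).le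
    calc (2 : ℝ) ^ ⌈ι * (m : ℝ)⌉₊ = (2 : ℝ) ^ ((⌈ι * (m : ℝ)⌉₊ : ℕ) : ℝ) := (Real.rpow_natCast 2 _).symm
      _ ≤ (2 : ℝ) ^ (ι * m + 1) := Real.rpow_le_rpow_of_exponent_le (by norm_num) e1
      _ = 2 * ((2 ^ m : ℕ) : ℝ) ^ ι := by
          rw [Real.rpow_add two_pos, Real.rpow_one, mul_comm ι, Real.rpow_mul (by norm_num), Real.rpow_natCast]
          push_cast
          ring
  rw [h1]
  exact mul_le_mul_of_nonneg_right h2 (Nat.cast_nonneg _)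

variable {μ : Measure ℝ} {s : ℝ} [IsProbabilityMeasure μ]

/-- **The number of a line**: `16 n ^ ε / (E_l E_b) ≤ n ^ (- c / 16 - c / 2) / E_ρ`. -/
theorem num19 {c₀ Θ δ c η ε ι : ℝ} (hR : RegP46 μ s c₀ Θ) (hδ : 0 < δ) (hc : 0 < c) (hs : ε + ι / 2 ≤ 3 * c / 8) :
    ∀ᶠ m : ℕ in atTop, ∀ p p' q : ℕ, Chg96 (EE μ s) Θ δ c η m p p' q → ∀ l : ℕ, 1 ≤ l → l ≤ 2 ^ p →
      ((2 ^ p : ℕ) : ℝ) ≤ 12 * ((2 ^ m : ℕ) : ℝ) ^ ι * l →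
      16 * (((2 ^ m : ℕ) : ℝ) ^ ε * ((EE μ s l)⁻¹ * (EE μ s (2 ^ p))⁻¹)) ≤ ((2 ^ m : ℕ) : ℝ) ^ (-(c / 16) - c / 2) / EE μ s (2 ^ q) := by
  obtain ⟨a, -, -, h1⟩ := hR
  filter_upwards [h1 δ (c / 48) hδ (by positivity)] with m hm p p' q H l hl hlp hb
  obtain ⟨R, -⟩ := hm
  obtain ⟨n, hn⟩ : ∃ n : ℝ, n = ((2 ^ m : ℕ) : ℝ) := ⟨_, rfl⟩
  rw [← hn] at R hb ⊢
  have hn1 : 1 ≤ n := hn ▸ n_ge1 m
  have hn0 : 0 < n := by linarith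
  have hEl : 0 < EE μ s l := EE_pos _
  have hEb : 0 < EE μ s (2 ^ p) := EE_pos _
  have hEq : 0 < EE μ s (2 ^ q) := EE_pos _
  have hK := R.K
  have h12 : ((2 ^ p : ℕ) : ℝ) ≤ n ^ (ι + c / 48) * l := by
    refine hb.trans (mul_le_mul_of_nonneg_right ?_ (Nat.cast_nonneg _))
    calc 12 * n ^ ι ≤ n ^ (c / 48) * n ^ ι := mul_le_mul_of_nonneg_right (by linarith) (Real.rpow_nonneg hn0.le _)
      _ = n ^ (ι + c / 48) := by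
          rw [← Real.rpow_add hn0]
          congr 1
          ring
  have hE := R.Esub hl hlp h12
  have hlow := H.low
  rw [← hn] at hlow
  -- `E_l ^ (-1) ≤ n ^ x E_b ^ (-1)`
  have e1 : (EE μ s l)⁻¹ ≤ n ^ ((ι + c / 48) / 2 + c / 48) * (EE μ s (2 ^ p))⁻¹ := by
    rw [← div_eq_mul_inv, le_div_iff₀ hEb, inv_mul_le_iff₀ hEl, mul_comm (EE μ s l)]
    exact hE
  have e2 : (EE μ s (2 ^ p))⁻¹ * (EE μ s (2 ^ p))⁻¹ ≤ n ^ (-c) / EE μ s (2 ^ q) := by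
    rw [← mul_inv, ← sq, le_div_iff₀ hEq, inv_mul_le_iff₀ (by positivity), Real.rpow_neg hn0.le, ← div_eq_mul_inv,
      le_div_iff₀ (Real.rpow_pos_of_pos hn0 _), mul_comm]
    exact hlow
  have e3 : (EE μ s l)⁻¹ * (EE μ s (2 ^ p))⁻¹ ≤ n ^ ((ι + c / 48) / 2 + c / 48) * (n ^ (-c) / EE μ s (2 ^ q)) := by
    calc (EE μ s l)⁻¹ * (EE μ s (2 ^ p))⁻¹ ≤ n ^ ((ι + c / 48) / 2 + c / 48) * (EE μ s (2 ^ p))⁻¹ * (EE μ s (2 ^ p))⁻¹ :=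
          mul_le_mul_of_nonneg_right e1 (inv_pos.2 hEb).le
      _ = n ^ ((ι + c / 48) / 2 + c / 48) * ((EE μ s (2 ^ p))⁻¹ * (EE μ s (2 ^ p))⁻¹) := by ring
      _ ≤ _ := mul_le_mul_of_nonneg_left e2 (Real.rpow_nonneg hn0.le _)
  calc 16 * (n ^ ε * ((EE μ s l)⁻¹ * (EE μ s (2 ^ p))⁻¹))
      ≤ n ^ (c / 48) * (n ^ ε * (n ^ ((ι + c / 48) / 2 + c / 48) * (n ^ (-c) / EE μ s (2 ^ q)))) := by
        have h3 : 0 ≤ (EE μ s l)⁻¹ * (EE μ s (2 ^ p))⁻¹ := by positivity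
        have h4 : 0 ≤ n ^ ε := Real.rpow_nonneg hn0.le _
        exact mul_le_mul hK (mul_le_mul_of_nonneg_left e3 h4) (mul_nonneg h4 h3) (Real.rpow_nonneg hn0.le _)
    _ = n ^ (c / 48 + (ε + ((ι + c / 48) / 2 + c / 48 + -c))) / EE μ s (2 ^ q) := by
        obtain ⟨z, hz⟩ : ∃ z, z = (ι + c / 48) / 2 + c / 48 := ⟨_, rfl⟩
        rw [← hz, Real.rpow_add hn0 (c / 48), Real.rpow_add hn0 ε, Real.rpow_add hn0 z]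
        ring
    _ ≤ n ^ (-(c / 16) - c / 2) / EE μ s (2 ^ q) :=
        div_le_div_of_nonneg_right (Real.rpow_le_rpow_of_exponent_le hn1 (by linarith)) hEq.le

/-- **The numbers of a line without long loops.** -/
theorem nm46_19 {c₀ Θ δ c η ε ι : ℝ} (hR : RegP46 μ s c₀ Θ) (hδ : 0 < δ) (hc : 0 < c) (hs : ε + ι / 2 ≤ 3 * c / 8) :
    ∀ᶠ m : ℕ in atTop, ∀ p p' q : ℕ, Chg96 (EE μ s) Θ δ c η m p p' q → ∀ l : ℕ, 1 ≤ l → l ≤ 2 ^ p →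
      ((2 ^ p : ℕ) : ℝ) ≤ 12 * ((2 ^ m : ℕ) : ℝ) ^ ι * l → ∀ g A e : ℝ, 0 ≤ g →
      g ≤ 16 * (((2 ^ m : ℕ) : ℝ) ^ ε * ((EE μ s l)⁻¹ * (EE μ s (2 ^ p))⁻¹)) → 0 ≤ e → e ≤ ((2 ^ m : ℕ) : ℝ) ^ (-A) →
      Nm46 (EE μ s) Θ c m p q (c / 2) A g 0 0 e := by
  filter_upwards [num19 (η := η) hR hδ hc hs] with m hm p p' q H l hl hlp hb g A e hg0 hg he0 he
  have hn : (0 : ℝ) < ((2 ^ m : ℕ) : ℝ) := rw46_pos m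
  have hEp : 0 < EE μ s (2 ^ p) := EE_pos _
  have hEq : 0 < EE μ s (2 ^ q) := EE_pos _
  exact ⟨hg0, hg.trans (hm p p' q H l hl hlp hb), le_rfl, by positivity, le_rfl, by positivity, he0, he⟩

/-- **The numbers of the lines `2`, `3`, `4`** (and of `5`, ..., `8`). -/
theorem nm46_234 {c₀ Θ δ c η ε ι : ℝ} (hR : RegP46 μ s c₀ Θ) (hδ : 0 < δ) (hc : 0 < c) (hι : 0 < ι) (hιδ : ι ≤ δ / 2)
    (hs : ε + ι / 2 ≤ 3 * c / 8) :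
    ∀ᶠ m : ℕ in atTop, ∀ p p' q : ℕ, Chg96 (EE μ s) Θ δ c η m p p' q → ∀ A e : ℝ, 0 ≤ e → e ≤ ((2 ^ m : ℕ) : ℝ) ^ (-A) →
      Nm46 (EE μ s) Θ c m p q (c / 2) A
          (2 * (((2 ^ m : ℕ) : ℝ) ^ ε * ((EE μ s (2 ^ (p - ⌈ι * (m : ℝ)⌉₊)))⁻¹ * (EE μ s (2 ^ p))⁻¹))) 0 0 e ∧
        Nm46 (EE μ s) Θ c m p q (c / 2) A
          (((2 ^ m : ℕ) : ℝ) ^ ε * ((EE μ s (2 * kn38 (2 ^ (p - ⌈ι * (m : ℝ)⌉₊)) (2 ^ p)))⁻¹ * (EE μ s (2 ^ p))⁻¹)) 0 0 e ∧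
        Nm46 (EE μ s) Θ c m p q (c / 2) A (((2 ^ m : ℕ) : ℝ) ^ ε / EE μ s (2 ^ p) ^ 2) 0 0 e := by
  filter_upwards [nm46_19 (η := η) hR hδ hc hs, geo41 hδ hι hιδ,
    (tendsto_natCast_atTop_atTop (R := ℝ)).eventually_ge_atTop (2 / δ)] with m hm hg hm2 p p' q H A e he0 he
  obtain ⟨g1, g2, g3, g4, g5, g6⟩ := hg p H.hp
  have hn1 : 1 ≤ ((2 ^ m : ℕ) : ℝ) := n_ge1 m
  have hn0 : (0 : ℝ) < ((2 ^ m : ℕ) : ℝ) := by linarith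
  have hι1 : 1 ≤ ((2 ^ m : ℕ) : ℝ) ^ ι := Real.one_le_rpow hn1 hι.le
  have hcp : ⌈ι * (m : ℝ)⌉₊ ≤ p := by
    rw [div_le_iff₀ hδ] at hm2
    have h3 : (⌈ι * (m : ℝ)⌉₊ : ℝ) < ι * m + 1 := Nat.ceil_lt_add_one (by positivity)
    have h4 : ι * m ≤ δ / 2 * m := mul_le_mul_of_nonneg_right hιδ (Nat.cast_nonneg m)
    have h6 := H.hp
    have h5 : (⌈ι * (m : ℝ)⌉₊ : ℝ) ≤ p := by linarith
    exact_mod_cast h5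
  have hEp : 0 < EE μ s (2 ^ p) := EE_pos _
  have hk := kn38_le (2 ^ (p - ⌈ι * (m : ℝ)⌉₊)) (2 ^ p)
  refine ⟨?_, ?_, ?_⟩
  · have hE0 : 0 < EE μ s (2 ^ (p - ⌈ι * (m : ℝ)⌉₊)) := EE_pos _
    refine hm p p' q H (2 ^ (p - ⌈ι * (m : ℝ)⌉₊)) g1 (by omega) ?_ _ A e (by positivity) ?_ he0 he
    · refine (dyad19 hcp hι.le).trans ?_
      have h3 : 0 ≤ ((2 ^ m : ℕ) : ℝ) ^ ι * ((2 ^ (p - ⌈ι * (m : ℝ)⌉₊) : ℕ) : ℝ) := by positivity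
      nlinarith
    · exact mul_le_mul_of_nonneg_right (by norm_num) (by positivity)
  · have hE0 : 0 < EE μ s (2 * kn38 (2 ^ (p - ⌈ι * (m : ℝ)⌉₊)) (2 ^ p)) := EE_pos _
    refine hm p p' q H (2 * kn38 (2 ^ (p - ⌈ι * (m : ℝ)⌉₊)) (2 ^ p)) (by omega) (by omega) ?_ _ A e (by positivity) ?_ he0 he
    · have h3 : ((2 ^ p : ℕ) : ℝ) ≤ 12 * ((2 * kn38 (2 ^ (p - ⌈ι * (m : ℝ)⌉₊)) (2 ^ p) : ℕ) : ℝ) := by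
        exact_mod_cast (by omega : 2 ^ p ≤ 12 * (2 * kn38 (2 ^ (p - ⌈ι * (m : ℝ)⌉₊)) (2 ^ p)))
      have h4 : (0 : ℝ) ≤ ((2 * kn38 (2 ^ (p - ⌈ι * (m : ℝ)⌉₊)) (2 ^ p) : ℕ) : ℝ) := Nat.cast_nonneg _
      nlinarith
    · exact le_mul_of_one_le_left (by positivity) (by norm_num)
  · refine hm p p' q H (2 ^ p) (Nat.one_le_two_pow) le_rfl ?_ _ A e (by positivity) ?_ he0 he
    · have h4 : (0 : ℝ) ≤ ((2 ^ p : ℕ) : ℝ) := Nat.cast_nonneg _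
      nlinarith
    · have h5 : ((2 ^ m : ℕ) : ℝ) ^ ε / EE μ s (2 ^ p) ^ 2 = ((2 ^ m : ℕ) : ℝ) ^ ε * ((EE μ s (2 ^ p))⁻¹ * (EE μ s (2 ^ p))⁻¹) := by
        rw [div_eq_mul_inv, sq, mul_inv]
      rw [h5]
      exact le_mul_of_one_le_left (by positivity) (by norm_num)

/-- **The numbers of the lines `5`, ..., `8`**: the price `n ^ ε / E_b ^ 2`, `ε ≤ 3 c / 8`. -/
theorem nm46_58 {c₀ Θ δ c η ε : ℝ} (hR : RegP46 μ s c₀ Θ) (hδ : 0 < δ) (hc : 0 < c) (hs : ε ≤ 3 * c / 8) :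
    ∀ᶠ m : ℕ in atTop, ∀ p p' q : ℕ, Chg96 (EE μ s) Θ δ c η m p p' q → ∀ g A e : ℝ, 0 ≤ g →
      g ≤ 16 * (((2 ^ m : ℕ) : ℝ) ^ ε / EE μ s (2 ^ p) ^ 2) → 0 ≤ e → e ≤ ((2 ^ m : ℕ) : ℝ) ^ (-A) →
      Nm46 (EE μ s) Θ c m p q (c / 2) A g 0 0 e := by
  filter_upwards [nm46_19 (ε := ε) (ι := 0) (η := η) hR hδ hc (by linarith)] with m hm p p' q H g A e hg0 hg he0 he
  refine hm p p' q H (2 ^ p) Nat.one_le_two_pow le_rfl ?_ g A e hg0 (hg.trans (le_of_eq ?_)) he0 he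
  · rw [Real.rpow_zero]
    have h4 : (0 : ℝ) ≤ ((2 ^ p : ℕ) : ℝ) := Nat.cast_nonneg _
    linarith
  · rw [div_eq_mul_inv, sq, mul_inv]

end

end Pool.Agent.W_7d29a1_C0.N1E19
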