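import Pool.Agent.W_7d29a1_C0.PrB5
import Pool.Agent.W_7d29a1_C0.PrI46

/-!
MP_7d29a1_pr, [CURV0], leaf E5.4 (helper5): FROM THE PRICE FORM `PrB` (passengers in `[0, 1]`) TO THE PRICE FORM `Pr46` of helper46: the
passengers of a stretch are the same up to the bound (`psH_of46`); `pr46_of_prB` with the numbers `Nm46`.
-/

set_option autoImplicit false
set_option linter.unusedSectionVars false

namespace Pool.Agent.W_7d29a1_C0.PrB5

open Finset MeasureTheory Filter Topology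
open Pool.Agent.W_7d29a1_F Pool.Agent.W_7d29a1_X
open Pool.Agent.W_7d29a1_C0 Pool.Agent.W_7d29a1_C0.Mod92 Pool.Agent.W_7d29a1_C0.Asm96 Pool.Agent.W_7d29a1_C0.N38
open Pool.Agent.W_7d29a1_C0.NTop23 Pool.Agent.W_7d29a1_C0.Flip61
open Pool.Agent.W_7d29a1_C0.Strip80 (OffD)
open Pool.W7d29a1.C0.VT31 (Mp Crs)
open Pool.Agent.W_7d29a1_C0.Pr46 (Ps46 Pr46 Nm46 Lb46 Sb46 Wt46 J46 st46)

noncomputable section

/-- A passenger of `Pr46`, divided by its bound. -/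
theorem psH_of46 {F : Frm96} {m l b' k : ℕ} {D : Wt46 F m} {Mh : ℝ} (h : Ps46 F m l b' k D Mh) :
    PsH (F.L m) b' l k 1 fun y ω S => Mh⁻¹ * |D y ω S| where
  nn y ω S := mul_nonneg (inv_pos.2 h.pos).le (abs_nonneg _)
  bdd y ω S := by
    rw [inv_mul_le_iff₀ h.pos, mul_one]
    exact h.bdd y ω S
  mes y S := (h.mes y S).abs.const_mul _
  mp y ω := fun S S' e => by
    have := h.mp y ω S S' e
    show Mh⁻¹ * |D y ω S| = Mh⁻¹ * |D y ω S'|
    rw [this]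
  off y J hJ := fun η η' A S e => by
    have h1 := h.off y η η' A S fun q hq => e q fun hq2 => hq ⟨hq2.1, by
      have := hJ _ hq2.2
      unfold J46
      rw [mem_Ioc]
      exact this⟩
    show Mh⁻¹ * |D y (η, A) S| = Mh⁻¹ * |D y (η', A) S|
    rw [h1]
  cov j hj := by
    have h1 := (Cov1.const (N := F.L m) (b := b') (j := j) Mh⁻¹).mul (h.abs.cov j hj)
    have e : |Mh⁻¹| * Mh = 1 := by
      rw [abs_of_pos (inv_pos.2 h.pos), inv_mul_cancel₀ h.pos.ne']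
    rw [e] at h1
    exact h1

/-- **FROM `PrB` TO `Pr46`.** -/
theorem pr46_of_prB {μ : Measure ℝ} {s : ℝ} [IsProbabilityMeasure μ] {F : Frm96} {m p p' q i : ℕ} (hy : ∀ y ∈ F.ys m, y ≤ F.L m)
    {E : ℕ → ℝ} {Θ c x A g A₂ T e : ℝ} {X : (y : ℕ) → Env × Finset ℕ → ℕ → Px (Pn (F.L m) y) → ℝ}
    (h : PrB μ s F m q i (2 ^ (p' - 6)) (2 ^ p') 1 X g A₂ T e) (hN : Nm46 E Θ c m p q x A g A₂ T e) :
    Pr46 μ s F E Θ c m p p' q i x A fun _ j D => avF μ s F m fun y ω S => X y ω j S * |D y ω S| := by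
  obtain ⟨Bl, b1, b2, b3, b4, b5⟩ := h
  have hX : ∀ y ∈ F.ys m, Nonempty (Px (Pn (F.L m) y)) := fun y h' => ne_Pn (hy y h')
  refine ⟨Bl, g, A₂, T, e, hN, ⟨b1, b2, b3, b4⟩, fun t _ k D Mh hD => ?_⟩
  have h1 := b5 k _ (psH_of46 hD)
  have e1 : ∀ j ∈ rws F m q i (2 ^ (p' - 6)) k, avF μ s F m (fun y ω S => X y ω j S * (Mh⁻¹ * |D y ω S|)) =
      Mh⁻¹ * avF μ s F m (fun y ω S => X y ω j S * |D y ω S|) := fun j _ => by
    rw [← avF_smul hX]
    congr 1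
    funext y ω S
    ring
  have e2 : avF μ s F m (fun y ω S => Bl k y ω S * (Mh⁻¹ * |D y ω S|)) = Mh⁻¹ * avF μ s F m (fun y ω S => Bl k y ω S * |D y ω S|) := by
    rw [← avF_smul hX]
    congr 1
    funext y ω S
    ring
  have e3 : avF μ s F m (fun y ω S => Mh⁻¹ * |D y ω S|) = Mh⁻¹ * avF μ s F m (fun y ω S => |D y ω S|) := avF_smul hX _
  rw [sum_congr rfl e1, ← mul_sum, e2, e3] at h1
  have h2 := mul_le_mul_of_nonneg_left h1 hD.pos.le
  rw [mul_inv_cancel_left₀ hD.pos.ne'] at h2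
  refine h2.trans (le_of_eq ?_)
  have h3 : Mh * Mh⁻¹ = 1 := mul_inv_cancel₀ hD.pos.ne'
  calc Mh * (((2 ^ (p' - 6) : ℕ) : ℝ) * g * (Mh⁻¹ * avF μ s F m (fun y ω S => |D y ω S|)) +
        Mh⁻¹ * avF μ s F m (fun y ω S => Bl k y ω S * |D y ω S|) + e) =
      (Mh * Mh⁻¹) * (((2 ^ (p' - 6) : ℕ) : ℝ) * g * avF μ s F m (fun y ω S => |D y ω S|) +
        avF μ s F m (fun y ω S => Bl k y ω S * |D y ω S|)) + Mh * e := by ring
    _ = _ := by
        rw [h3, one_mul]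

end

end Pool.Agent.W_7d29a1_C0.PrB5
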