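import Pool.Agent.W_7d29a1_C0.N1X14
import Pool.Agent.W_7d29a1_C0.DT5H
import Pool.Agent.W_7d29a1_C0.PrC5
import Pool.Agent.W_7d29a1_C0.Nm19

/-!
MP_7d29a1_pr, [CURV0], leaf E5.8 / N1B (helper14): THE LINES `3, 4` OF `N1B` (own mass, own pair times the micro oscillation of the kick), both
sides, closed (`pls34R14`, `pls34L14`): helper3's `glue3` with the price from helper5's `prB_osc` and the flip from helper4's `p2_om`.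
-/

set_option autoImplicit false
set_option linter.unusedSectionVars false
set_option linter.unusedVariables false

namespace Pool.W7d29a1.C0.N14

open Finset Filter Topology MeasureTheory
open Pool.Agent.W_7d29a1_F Pool.Agent.W_7d29a1_C0 Pool.W7d29a1.C0 Pool.W7d29a1.C0.VT31
open Pool.Agent.W_7d29a1_H (EE EE_pos one_le_EE sl)
open Pool.Agent.W_7d29a1_HS (In wd)
open Pool.Agent.W_7d29a1_C0.Swap57 Pool.Agent.W_7d29a1_C0.Mod92 Pool.Agent.W_7d29a1_C0.H32 Pool.Agent.W_7d29a1_C0.Asm96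
open Pool.Agent.W_7d29a1_C0.Frm33 Pool.Agent.W_7d29a1_C0.N38
open Pool.Agent.W_7d29a1_C0.Par92 (Est Sml)
open Pool.Agent.W_7d29a1_C0.Pr46 Pool.Agent.W_7d29a1_C0.N1E19 Pool.Agent.W_7d29a1_C0.NTop23
open Pool.Agent.W_7d29a1_C0.Lo38 (own38 lng38 own38_nonneg own38_le_one lng38_nonneg lng38_le_one meas_own38 meas_lng38 meas_mI38)
open Pool.Agent.W_7d29a1_C0.Ln3 (Ph3 Mc3 glue3)
open Pool.Agent.W_7d29a1_C0.PrB5 (PsH PrB rws pr46_of_prB)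
open Pool.Agent.W_7d29a1_C0.DT5 (prB_osc tkR meas_iosc)
open Pool.W7d29a1.C0.L38 Pool.W7d29a1.C0.PM14 Pool.W7d29a1.C0.NN1 Pool.W7d29a1.C0.H41
open Pool.W7d29a1.C0.R43 (Tau mI)
open Pool.W7d29a1.C0.S1 (osc i1 i1_nonneg i1_of i1_not)

noncomputable section

/-- The micro oscillation of the kick. -/
def McO14 (μ : Measure ℝ) (s : ℝ) (_ : Unit) : Mc3 := fun F m p p' M y ω j S =>
  i1 (Real.exp (-(5 * M)) ≤ osc (wm μ s (F.L m) (Pn (F.L m) y) ω) (pJ (j - 2 ^ p) (j + 2 ^ p))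
    (Mod92.gg μ s (Pn (F.L m) y) F.dl (F.B m) (F.b0 m p) ω j) S)

/-- `tkR` is `own38`. -/
theorem tkR_own14 {Q : Finset (Finset ℕ)} (T : Prop) (w : Px Q → ℝ) (c d u v : ℕ) (M : ℝ) (S : Px Q) :
    tkR T w c d u v M S = own38 T w (pJ c d) u v M S := by
  unfold tkR own38
  by_cases hT : T
  · rw [if_pos hT]
    simp only [hT, true_and, not_true, false_and, or_false]
    rfl
  · rw [if_neg hT]
    simp only [hT, false_and, not_false_eq_true, true_and, false_or]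

variable {μ : Measure ℝ} [IsProbabilityMeasure μ] {s : ℝ}

/-- **(P1) of the lines `3`, `4`.** -/
theorem p1O14 {c₁ C : ℝ} {n₀ : ℕ} (h : In μ s c₁ C n₀) (hk : KapLe96 (EE μ s) (1 / 4)) {K : ℕ} (hK : 32 ≤ K)
    {c₀ Θ δ c η : ℝ} (hR : RegP46 μ s c₀ Θ) (hδ : 0 < δ) (hc : 0 < c) (hcδ : c ≤ δ / 64) (hη : 0 ≤ η) (sd fm : Bool) :
    ∃ κ : ℝ, 0 < κ ∧ ∀ κ' : ℝ, 0 < κ' → κ' ≤ κ → Est fun ι β γ m => ∀ p p' q i : ℕ, Chg96 (EE μ s) Θ δ c η m p p' q → p < p' →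
      i < 2 ^ (m - q) → ∀ d : Unit, True → ∀ M : ℝ, ((2 ^ m : ℕ) : ℝ) ^ κ' ≤ M → M ≤ 2 * ((2 ^ m : ℕ) : ℝ) ^ κ' →
        Pr46 μ s (frm33 μ s K ι β γ) (EE μ s) Θ c m p p' q i (c / 8) 4 (fun _ j D => avF μ s (frm33 μ s K ι β γ) m fun y ω S =>
          Ph3 μ s fm sd (McO14 μ s d) (frm33 μ s K ι β γ) m p p' M y ω j S * |D y ω S|) := by
  obtain ⟨κ, hκ, H⟩ := prB_osc h hK hδ (show 0 < c / 8 by positivity)
  refine ⟨κ / 2, by positivity, fun κ' h1 h2 => ?_⟩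
  have hN : Est fun ι β γ m => ι ≤ δ / 16 ∧ ∀ p p' q : ℕ, Chg96 (EE μ s) Θ δ c η m p p' q → ∀ A e : ℝ, 0 ≤ e → e ≤ ((2 ^ m : ℕ) : ℝ) ^ (-A) →
      Nm46 (EE μ s) Θ c m p q (c / 2) A
          (2 * (((2 ^ m : ℕ) : ℝ) ^ (c / 8) * ((EE μ s (2 ^ (p - ⌈ι * (m : ℝ)⌉₊)))⁻¹ * (EE μ s (2 ^ p))⁻¹))) 0 0 e :=
    ⟨min (δ / 16) (c / 4), lt_min (by positivity) (by positivity), fun ι hι hι1 => Sml.of fun β hβ => Sml.of fun γ _ => by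
      have g1 := hι1.trans (min_le_left _ _)
      have g2 := hι1.trans (min_le_right _ _)
      refine (nm46_234 (η := η) hR hδ hc hι (by linarith) (show c / 8 + ι / 2 ≤ 3 * c / 8 by linarith)).mono fun m hm => ⟨g1, fun p p' q hC A e he0 he => ?_⟩
      exact (hm p p' q hC A e he0 he).1⟩
  have hr : Est fun ι β γ m => ι ≤ δ / 16 → ∀ p p' q i : ℕ, Chg96 (EE μ s) Θ δ c η m p p' q → i < 2 ^ (m - q) →
      ∀ j ∈ Rw (R33 ι m) (i * 2 ^ q) ((i + 1) * 2 ^ q), 4 * 2 ^ p' ≤ j ∧ j + 4 * 2 ^ p' ≤ L33 K m ∧ 2 ^ p' < j ∧ j + 2 ^ p' < L33 K m ∧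
        2 ^ p < j ∧ j + 2 ^ p < L33 K m :=
    ⟨δ / 16, by positivity, fun ι hι hι1 => Sml.of fun β hβ => Sml.of fun γ _ =>
      (rows41 h hk (K := K) (by omega) (Θ := Θ) hδ hc.le hcδ hη hι1).mono fun m hm _ => hm⟩
  refine ((H 5).and (hN.and hr)).mono fun ι β γ hι hβ hγ => ?_
  filter_upwards [ev_n (show 0 < κ - κ' by linarith) 2, ev_n one_pos 2, (tendsto_natCast_atTop_atTop.const_mul_atTop hι).eventually_gt_atTop 1,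
    (tendsto_natCast_atTop_atTop.const_mul_atTop hδ).eventually_ge_atTop 6] with m hn2 hn3 e6 e7 hP
  obtain ⟨hb, hN, hr⟩ := hP
  intro p p' q i hC hpp hi d _ M hM hM'
  have hn1 : 1 ≤ ((2 ^ m : ℕ) : ℝ) := n_ge1 m
  have hn0 : 0 < ((2 ^ m : ℕ) : ℝ) := lt_of_lt_of_le one_pos hn1
  have hMκ : M ≤ ((2 ^ m : ℕ) : ℝ) ^ κ := by
    refine hM'.trans ?_
    have e : ((2 ^ m : ℕ) : ℝ) ^ κ = ((2 ^ m : ℕ) : ℝ) ^ (κ - κ') * ((2 ^ m : ℕ) : ℝ) ^ κ' := by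
      rw [← Real.rpow_add hn0]
      congr 1
      ring
    rw [e]
    exact mul_le_mul_of_nonneg_right hn2 (Real.rpow_nonneg hn0.le _)
  have hp6 : (6 : ℝ) ≤ p := e7.trans hC.hp
  have hp6' : 6 ≤ p := by exact_mod_cast hp6
  have hb4 : 4 * 2 ^ (p - ⌈ι * (m : ℝ)⌉₊) ≤ 2 ^ p := b0_quarter e6 (by omega)
  have hys : ∀ y ∈ (frm33 μ s K ι β γ).ys m, y ≤ (frm33 μ s K ι β γ).L m := hy33 (by omega) m
  have hr := hr hN.1 p p' q i hC hi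
  have key := hb p p' q i hC.hp hpp (fun j hj => by
      obtain ⟨r1, r2, -⟩ := hr j hj
      omega) (Rg38.oA sd (2 ^ (p - ⌈ι * (m : ℝ)⌉₊)) (2 ^ p)) (Rg38.oB sd (2 ^ (p - ⌈ι * (m : ℝ)⌉₊)) (2 ^ p)) (by
      cases sd
      · refine Or.inr fun j hj => ?_
        obtain ⟨r1, r2, r3, r4, r5, r6⟩ := hr j hj
        exact ⟨rfl, show j + 2 ^ p / 4 ≤ j - 2 ^ (p - ⌈ι * (m : ℝ)⌉₊) + 2 ^ p by omega⟩
      · refine Or.inl fun j hj => ?_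
        exact ⟨rfl, show j + 2 ^ (p - ⌈ι * (m : ℝ)⌉₊) + 2 ^ p / 4 ≤ j + 2 ^ p by omega⟩) (fm = false) M hMκ 1 zero_le_one
  have h5 : (1 + 1) * ((2 ^ m : ℕ) : ℝ) ^ (-(5 : ℝ)) ≤ ((2 ^ m : ℕ) : ℝ) ^ (-(4 : ℝ)) := by
    have e : ((2 ^ m : ℕ) : ℝ) ^ (-(4 : ℝ)) = ((2 ^ m : ℕ) : ℝ) ^ (1 : ℝ) * ((2 ^ m : ℕ) : ℝ) ^ (-(5 : ℝ)) := by
      rw [← Real.rpow_add hn0]
      norm_num
    rw [e]
    exact mul_le_mul_of_nonneg_right (by linarith) (Real.rpow_nonneg hn0.le _)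
  have h6 := pr46_of_prB hys key (hN.2 p p' q hC 4 _ (by positivity) h5)
  refine (h6.weaken (fun n => EE_pos n) (show c / 8 ≤ c / 2 by linarith) le_rfl).mono fun t ht k j D Mh hD hj => le_of_eq ?_
  congr 1
  funext y ω S
  refine congrArg (fun v => v * |D y ω S|) ?_
  unfold Ph3 McO14
  rw [mul_comm, ← tkR_own14]
  rfl

/-- **(P2) of the lines `3`, `4`.** -/
theorem p2O14 {c₁ C : ℝ} {n₀ : ℕ} (h : In μ s c₁ C n₀) (hk : KapLe96 (EE μ s) (1 / 4)) {K : ℕ} (hK : 32 ≤ K)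
    {Θ δ c η : ℝ} (hδ : 0 < δ) (hc : 0 ≤ c) (hcδ : c ≤ δ / 64) (hη : 0 ≤ η) (sd fm : Bool) :
    ∃ κ : ℝ, 0 < κ ∧ Est fun ι β γ m => ∀ p p' q i : ℕ, Chg96 (EE μ s) Θ δ c η m p p' q → i < 2 ^ (m - q) → ∀ d : Unit, True →
      ∀ M M' : ℝ, M ≤ ((2 ^ m : ℕ) : ℝ) ^ κ → 5 * M + 4 * B33 β m + 1 ≤ 5 * M' → ∀ (k : ℕ)
        (D : Wt46 (frm33 μ s K ι β γ) m) (Mh : ℝ), Ps46 (frm33 μ s K ι β γ) m (2 ^ (p' - 6)) (2 ^ p') k D Mh →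
      ∀ j ∈ st46 (frm33 μ s K ι β γ) m q i (2 ^ (p' - 6)) k,
        ((((frm33 μ s K ι β γ).ys m).card : ℝ)⁻¹ * ∑ y ∈ (frm33 μ s K ι β γ).ys m, ∫ ω,
          gm (N25.vm μ s ((frm33 μ s K ι β γ).L m) (Pn ((frm33 μ s K ι β γ).L m) y) (frm33 μ s K ι β γ).dl ((frm33 μ s K ι β γ).B m)
            ((frm33 μ s K ι β γ).b0 m p) ω j) (fun S => |D y ω S| * Ph3 μ s fm sd (McO14 μ s d) (frm33 μ s K ι β γ) m p p' M y ω j S)
          ∂(Pm μ ((frm33 μ s K ι β γ).L m))) ≤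
        avF μ s (frm33 μ s K ι β γ) m (fun y ω S => |D y ω S| * Ph3 μ s fm sd (McO14 μ s d) (frm33 μ s K ι β γ) m p p' M' y ω j S) +
          Mh * ((2 ^ m : ℕ) : ℝ) ^ (-(11 / 2) : ℝ) := by
  obtain ⟨κ, hκ, H⟩ := Ln4.p2_om (Θ := Θ) h hk hK hδ hc hcδ hη
  refine ⟨κ, hκ, H.mono fun ι β γ _ _ _ => Eventually.of_forall fun m hm => ?_⟩
  intro p p' q i hC hi d _ M M' hM hMM k D Mh hD j hj
  refine hm p p' q i hC hi M M' hM hMM (fm = false) k D Mh hD j hj (Rg38.oA sd ((frm33 μ s K ι β γ).b0 m p) (2 ^ p) j)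
    (Rg38.oB sd ((frm33 μ s K ι β γ).b0 m p) (2 ^ p) j) ?_
  cases sd
  · exact Or.inl (le_refl (j - (frm33 μ s K ι β γ).b0 m p))
  · exact Or.inr (le_refl (j + (frm33 μ s K ι β γ).b0 m p))

/-- **The lines `3`, `4` as `Pr46`.** -/
theorem pr34_14 {c₁ C : ℝ} {n₀ : ℕ} (h : In μ s c₁ C n₀) (hk : KapLe96 (EE μ s) (1 / 4)) {K : ℕ} (hK : 32 ≤ K)
    {c₀ Θ δ c η : ℝ} (hR : RegP46 μ s c₀ Θ) (hδ : 0 < δ) (hc : 0 < c) (hc1 : c ≤ 1) (hcδ : c ≤ δ / 64) (hη : 0 ≤ η) (sd fm : Bool) :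
    ∃ κ : ℝ, 0 < κ ∧ ∀ κ' : ℝ, 0 < κ' → κ' ≤ κ → ∃ x : ℝ, 0 < x ∧ Est fun ι β γ m => ∀ p p' q i : ℕ,
      Chg96 (EE μ s) Θ δ c η m p p' q → p < p' → i < 2 ^ (m - q) → ∀ d : Unit, True →
        Pr46 μ s (frm33 μ s K ι β γ) (EE μ s) Θ c m p p' q i x (7 / 2) (Lf19 μ s (frm33 μ s K ι β γ) m fun t y ω j S =>
          cE (wi38 μ s ((frm33 μ s K ι β γ).L m) (Pn ((frm33 μ s K ι β γ).L m) y) (frm33 μ s K ι β γ).dl ((frm33 μ s K ι β γ).B m)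
            ((frm33 μ s K ι β γ).b0 m p) j (Mod92.sg ω.2 j) t ω.1) (pJ (j - 2 ^ p') (j + 2 ^ p'))
              (fun S => Ph3 μ s fm sd (McO14 μ s d) (frm33 μ s K ι β γ) m p p' (((2 ^ m : ℕ) : ℝ) ^ κ') y ω j S) S) :=
  glue3 (fun sd fm => DT5T.t4M h sd fm) h hk hK hR hδ hc hc1 hcδ hη sd fm (fun _ _ _ _ => True) (McO14 μ s)
    (fun d F m p p' M y ω j S => i1_nonneg _) (fun d F m p p' M y ω j S => N25.i1_le_one _)
    (fun d F m p p' M y j S => by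
      have : Nonempty (Px (Pn (F.L m) y)) := ⟨S⟩
      exact meas_iosc F.dl (F.B m) (F.b0 m p) j _ _ _ S) (p1O14 h hk hK hR hδ hc hcδ hη sd fm) (p2O14 h hk hK hδ hc.le hcδ hη sd fm)

section Eqs

variable (μ) (s) (F : Frm96) (m p p' : ℕ) (M t : ℝ) (y : ℕ) (ω : Env × Finset ℕ) (j : ℕ) (S : Px (Pn (F.L m) y))

theorem RF14_3 : RF14 μ s F m p p' M 3 t y ω j S =
    cE (wi38 μ s (F.L m) (Pn (F.L m) y) F.dl (F.B m) (F.b0 m p) j (Mod92.sg ω.2 j) t ω.1) (pJ (j - 2 ^ p') (j + 2 ^ p'))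
      (fun S => Ph3 μ s true true (McO14 μ s ()) F m p p' M y ω j S) S := ob14_eq true _ _ _ _ _ _ _ _

theorem RF14_4 : RF14 μ s F m p p' M 4 t y ω j S =
    cE (wi38 μ s (F.L m) (Pn (F.L m) y) F.dl (F.B m) (F.b0 m p) j (Mod92.sg ω.2 j) t ω.1) (pJ (j - 2 ^ p') (j + 2 ^ p'))
      (fun S => Ph3 μ s false true (McO14 μ s ()) F m p p' M y ω j S) S := ob14_eq false _ _ _ _ _ _ _ _

theorem LF14_3 : LF14 μ s F m p p' M 3 t y ω j S =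
    cE (wi38 μ s (F.L m) (Pn (F.L m) y) F.dl (F.B m) (F.b0 m p) j (Mod92.sg ω.2 j) t ω.1) (pJ (j - 2 ^ p') (j + 2 ^ p'))
      (fun S => Ph3 μ s true false (McO14 μ s ()) F m p p' M y ω j S) S := ob14_eq true _ _ _ _ _ _ _ _

theorem LF14_4 : LF14 μ s F m p p' M 4 t y ω j S =
    cE (wi38 μ s (F.L m) (Pn (F.L m) y) F.dl (F.B m) (F.b0 m p) j (Mod92.sg ω.2 j) t ω.1) (pJ (j - 2 ^ p') (j + 2 ^ p'))
      (fun S => Ph3 μ s false false (McO14 μ s ()) F m p p' M y ω j S) S := ob14_eq false _ _ _ _ _ _ _ _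

end Eqs

/-- From `Pr46` of the conditional expectation to the line. -/
theorem pls_of14 {K : ℕ} {Θ δ c η : ℝ} {X Y : (F : Frm96) → (m p p' : ℕ) → ℝ → ℝ → (y : ℕ) → Env × Finset ℕ → ℕ → Px (Pn (F.L m) y) → ℝ}
    (hXY : ∀ F m p p' M t y ω j S, X F m p p' M t y ω j S = Y F m p p' M t y ω j S)
    (H : ∃ κ : ℝ, 0 < κ ∧ ∀ κ' : ℝ, 0 < κ' → κ' ≤ κ → ∃ x : ℝ, 0 < x ∧ Est fun ι β γ m => ∀ p p' q i : ℕ,
      Chg96 (EE μ s) Θ δ c η m p p' q → p < p' → i < 2 ^ (m - q) → ∀ d : Unit, True →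
        Pr46 μ s (frm33 μ s K ι β γ) (EE μ s) Θ c m p p' q i x (7 / 2) (Lf19 μ s (frm33 μ s K ι β γ) m fun t y ω j S =>
          Y (frm33 μ s K ι β γ) m p p' (((2 ^ m : ℕ) : ℝ) ^ κ') t y ω j S)) :
    PLs14 μ s K Θ δ c η fun F m p p' M => X F m p p' M := by
  obtain ⟨κ, hκ, H⟩ := H
  refine ⟨κ, hκ, fun κ' h1 h2 => ?_⟩
  obtain ⟨x, hx, H⟩ := H κ' h1 h2
  refine ⟨x, hx, H.mono fun ι β γ _ _ _ => Eventually.of_forall fun m hh p p' q i hC hpp hi => ?_⟩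
  refine (hh p p' q i hC hpp hi () trivial).mono fun t ht k j D Mh hD hj => le_of_eq ?_
  unfold Lf19
  congr 1
  funext y ω S
  exact congrArg (fun v => v * |D y ω S|) (hXY (frm33 μ s K ι β γ) m p p' (((2 ^ m : ℕ) : ℝ) ^ κ') t y ω j S)

/-- **THE LINES `3`, `4`, right.** -/
theorem pls34R14 {c₁ C : ℝ} {n₀ : ℕ} (h : In μ s c₁ C n₀) (hk : KapLe96 (EE μ s) (1 / 4)) {K : ℕ} (hK : 32 ≤ K)
    {c₀ Θ δ c η : ℝ} (hR : RegP46 μ s c₀ Θ) (hδ : 0 < δ) (hc : 0 < c) (hc1 : c ≤ 1) (hcδ : c ≤ δ / 64) (hη : 0 ≤ η) (i : Fin 9)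
    (hi : i = 3 ∨ i = 4) : PLs14 μ s K Θ δ c η fun F m p p' M => RF14 μ s F m p p' M i := by
  rcases hi with rfl | rfl
  · exact pls_of14 (fun F m p p' M t y ω j S => RF14_3 μ s F m p p' M t y ω j S) (pr34_14 h hk hK hR hδ hc hc1 hcδ hη true true)
  · exact pls_of14 (fun F m p p' M t y ω j S => RF14_4 μ s F m p p' M t y ω j S) (pr34_14 h hk hK hR hδ hc hc1 hcδ hη true false)

/-- **THE LINES `3`, `4`, left.** -/
theorem pls34L14 {c₁ C : ℝ} {n₀ : ℕ} (h : In μ s c₁ C n₀) (hk : KapLe96 (EE μ s) (1 / 4)) {K : ℕ} (hK : 32 ≤ K)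
    {c₀ Θ δ c η : ℝ} (hR : RegP46 μ s c₀ Θ) (hδ : 0 < δ) (hc : 0 < c) (hc1 : c ≤ 1) (hcδ : c ≤ δ / 64) (hη : 0 ≤ η) (i : Fin 9)
    (hi : i = 3 ∨ i = 4) : PLs14 μ s K Θ δ c η fun F m p p' M => LF14 μ s F m p p' M i := by
  rcases hi with rfl | rfl
  · exact pls_of14 (fun F m p p' M t y ω j S => LF14_3 μ s F m p p' M t y ω j S) (pr34_14 h hk hK hR hδ hc hc1 hcδ hη false true)
  · exact pls_of14 (fun F m p p' M t y ω j S => LF14_4 μ s F m p p' M t y ω j S) (pr34_14 h hk hK hR hδ hc hc1 hcδ hη false false)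

end

end Pool.W7d29a1.C0.N14
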