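import Pool.Agent.W_7d29a1_C0.GSsum4
import Pool.Agent.W_7d29a1_C0.Num46B

/-!
MP_7d29a1_pr, [CURV0], leaf E5 (helper23): THE NUMBERS OF THE PRICES for `NTop23`. `g_num23`: the gain of one row of the double ties
(`1 / E_b` times a slot `w_b' / b`, or times `1 / E_b₀` or `1 / E_b'`); `T_num23`: the second moment of the long loops; `sum_inv23`: the sum of
`1 / E_|j - k|` over the pairs of rows.
-/

set_option autoImplicit false
set_option linter.unusedSectionVars false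

namespace Pool.Agent.W_7d29a1_C0.NTop23

open Finset Pool.Agent.W_7d29a1_C0

noncomputable section

variable {E w : ℕ → ℝ} {c₀ Θ δ a ε N c : ℝ} {b s b' s' ρ : ℕ}

/-- **The gain of one row.** -/
theorem g_num23 (R : Reg46 E w c₀ Θ δ a ε N) (H : Ch46 E δ c Θ N b s b' s' ρ) {b₀ : ℕ} {C₀ x : ℝ} (hb₀ : 1 ≤ b₀) (hb : b₀ ≤ b)
    (hC₀ : 0 ≤ C₀) (hC : (b : ℝ) ≤ N ^ C₀ * b₀) (hx : x + C₀ / 2 + 2 * ε ≤ c / 2) :
    N ^ x * (1 / E b * (w b' / b + 1 / E b₀ + 1 / E b')) ≤ N ^ (-(c / 16)) / E ρ := by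
  have hN := R.N0
  have hN1 := R.N1.le
  have hε := R.ε0
  have hc0 := H.h.c0
  have hEb := R.Epos b
  have hEb' := R.Epos b'
  have hEb₀ := R.Epos b₀
  have hEρ := R.Epos ρ
  have hbp := H.h.hb.pos R.N1
  have hb'n := H.h'.hb.npos R.N1
  have hw := R.w0 b' hb'n
  have pin := Bs46.lpin R H.h
  have up' := Bs46.lup R H.h'
  have bb := Ch46.lbb R H
  have h1 : 1 / E b * (w b' / b) ≤ N ^ (-(7 / 8 * c) + C₀ / 2 + ε) / E ρ := by
    refine of_lg46 R.N1 (by positivity) (by positivity) ?_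
    rw [one_div_mul_eq_div, Real.logb_div (by positivity) (by positivity), Real.logb_div (by positivity) (by positivity),
      Real.logb_div (by positivity) (by positivity), lgN46 R.N1]
    have e1 := R.lw H.h'.hb
    have e2 := R.lst' H.h.hb
    have e3 : 0 ≤ c₀ * δ := mul_nonneg R.c₀0.le R.δ0.le
    linarith
  have h2 : 1 / E b * (1 / E b₀) ≤ N ^ (-(7 / 8 * c) + C₀ / 2 + ε) / E ρ := by
    refine of_lg46 R.N1 (by positivity) (by positivity) ?_
    rw [one_div_mul_one_div, Real.logb_div one_ne_zero (by positivity), Real.logb_one, Real.logb_mul (by positivity) (by positivity),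
      Real.logb_div (by positivity) (by positivity), lgN46 R.N1]
    have e1 := to_lg46 R.N1 hEb (R.Esub hb₀ hb hC)
    rw [Real.logb_mul (by positivity) (by positivity), lgN46 R.N1] at e1
    linarith
  have h3 : 1 / E b * (1 / E b') ≤ N ^ (-(7 / 8 * c) + C₀ / 2 + ε) / E ρ := by
    refine of_lg46 R.N1 (by positivity) (by positivity) ?_
    rw [one_div_mul_one_div, Real.logb_div one_ne_zero (by positivity), Real.logb_one, Real.logb_mul (by positivity) (by positivity),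
      Real.logb_div (by positivity) (by positivity), lgN46 R.N1]
    linarith
  have h4 : (3 : ℝ) ≤ N ^ ε := by linarith [R.K]
  calc N ^ x * (1 / E b * (w b' / b + 1 / E b₀ + 1 / E b'))
      = N ^ x * (1 / E b * (w b' / b) + 1 / E b * (1 / E b₀) + 1 / E b * (1 / E b')) := by ring
    _ ≤ N ^ x * (N ^ (-(7 / 8 * c) + C₀ / 2 + ε) / E ρ + N ^ (-(7 / 8 * c) + C₀ / 2 + ε) / E ρ + N ^ (-(7 / 8 * c) + C₀ / 2 + ε) / E ρ) := by
        gcongr
    _ = N ^ x * (3 * N ^ (-(7 / 8 * c) + C₀ / 2 + ε)) / E ρ := by ring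
    _ ≤ N ^ x * (N ^ ε * N ^ (-(7 / 8 * c) + C₀ / 2 + ε)) / E ρ := by gcongr
    _ = N ^ (x + (ε + (-(7 / 8 * c) + C₀ / 2 + ε))) / E ρ := by rw [← Real.rpow_add hN, ← Real.rpow_add hN]
    _ ≤ N ^ (-(c / 16)) / E ρ := by
        have : x + (ε + (-(7 / 8 * c) + C₀ / 2 + ε)) ≤ -(c / 16) := by linarith
        have := Real.rpow_le_rpow_of_exponent_le hN1 this
        gcongr

/-- **The second moment of the long loops.** -/
theorem T_num23 (R : Reg46 E w c₀ Θ δ a ε N) (H : Ch46 E δ c Θ N b s b' s' ρ) {x : ℝ} (hx : x + 2 * ε ≤ c / 2) :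
    N ^ x * (ρ * (b' / (E b * E b')) + (ρ / (E b * E b')) ^ 2 + (ρ : ℝ) ^ 2 / (E b ^ 2 * E ρ)) ≤ ρ * (E ρ * N ^ (Θ - c / 16)) := by
  have hN := R.N0
  have hN1 := R.N1.le
  have hε := R.ε0
  have hc0 := H.h.c0
  have hEb := R.Epos b
  have hEb' := R.Epos b'
  have hEρ := R.Epos ρ
  have hEb1 := R.lE0 b
  have hρ := H.h.hr.pos R.N1
  have hb' := H.h'.hb.pos R.N1
  have pin := Bs46.lpin R H.h
  have bb := Ch46.lbb R H
  have hκ := R.lkap' H.h.hr
  have h1 : (b' : ℝ) / (E b * E b') ≤ E ρ * N ^ (Θ + ε - c) := by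
    refine of_lg46 R.N1 (by positivity) (by positivity) ?_
    rw [Real.logb_div (by positivity) (by positivity), Real.logb_mul (by positivity) (by positivity),
      Real.logb_mul (by positivity) (by positivity), lgN46 R.N1]
    have := Ch46.ltie R H
    linarith
  have h2 : (ρ : ℝ) / (E b * E b') ^ 2 ≤ E ρ * N ^ (Θ + ε - c) := by
    refine of_lg46 R.N1 (by positivity) (by positivity) ?_
    rw [Real.logb_div (by positivity) (by positivity), Real.logb_pow, Real.logb_mul (by positivity) (by positivity),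
      Real.logb_mul (by positivity) (by positivity), lgN46 R.N1]
    push_cast
    linarith
  have h3 : (ρ : ℝ) / (E b ^ 2 * E ρ) ≤ E ρ * N ^ (Θ + ε - c) := by
    refine of_lg46 R.N1 (by positivity) (by positivity) ?_
    rw [Real.logb_div (by positivity) (by positivity), Real.logb_mul (by positivity) (by positivity), Real.logb_pow,
      Real.logb_mul (by positivity) (by positivity), lgN46 R.N1]
    push_cast
    linarith
  have h4 : (3 : ℝ) ≤ N ^ ε := by linarith [R.K]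
  calc N ^ x * (ρ * (b' / (E b * E b')) + (ρ / (E b * E b')) ^ 2 + (ρ : ℝ) ^ 2 / (E b ^ 2 * E ρ))
      = N ^ x * (ρ * (b' / (E b * E b') + ρ / (E b * E b') ^ 2 + ρ / (E b ^ 2 * E ρ))) := by
        field_simp
    _ ≤ N ^ x * (ρ * (E ρ * N ^ (Θ + ε - c) + E ρ * N ^ (Θ + ε - c) + E ρ * N ^ (Θ + ε - c))) := by gcongr
    _ = ρ * (E ρ * (3 * (N ^ x * N ^ (Θ + ε - c)))) := by ring
    _ ≤ ρ * (E ρ * (N ^ ε * (N ^ x * N ^ (Θ + ε - c)))) := by gcongr
    _ = ρ * (E ρ * N ^ (ε + (x + (Θ + ε - c)))) := by rw [← Real.rpow_add hN, ← Real.rpow_add hN]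
    _ ≤ ρ * (E ρ * N ^ (Θ - c / 16)) := by
        have : ε + (x + (Θ + ε - c)) ≤ Θ - c / 16 := by linarith
        have := Real.rpow_le_rpow_of_exponent_le hN1 this
        gcongr

/-- **The pairs of rows.** -/
theorem sum_inv23 (R : Reg46 E w c₀ Θ δ a ε N) {S : Finset ℕ} {c' ρ : ℕ} (hS : S ⊆ Ico c' (c' + ρ)) (hρ : 1 ≤ ρ) {P : ℕ → ℕ → ℝ}
    (hP : ∀ j ∈ S, ∀ k ∈ S, P j k ≤ 1 / E (max (Nat.dist j k) 1)) :
    ∑ j ∈ S, ∑ k ∈ S, P j k ≤ 6 * N ^ ε * ((ρ : ℝ) ^ 2 / E ρ) := by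
  have hN := R.N0
  have hEρ := R.Epos ρ
  have h0 : ∀ m, 0 ≤ 1 / E (max m 1) := fun m => by
    have := R.Epos (max m 1)
    positivity
  have hNε : 0 ≤ N ^ ε := Real.rpow_nonneg hN.le _
  have h1 := GS4.dsum_le (fun k hk => mem_Ico.1 (hS hk)) h0 hP
  have h2 := GS4.sum_inv_le (E := E) (fun n => R.Epos n) hNε R.half (s := 1) (s' := ρ) le_rfl hρ
  have hcard : (S.card : ℝ) ≤ ρ := by
    have := card_le_card hS
    rw [Nat.card_Ico, Nat.add_sub_cancel_left] at this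
    exact_mod_cast this
  calc ∑ j ∈ S, ∑ k ∈ S, P j k ≤ S.card * (2 * ∑ m ∈ range ρ, 1 / E (max m 1)) := h1
    _ ≤ ρ * (2 * (3 * N ^ ε * (ρ / E ρ))) :=
        mul_le_mul hcard (mul_le_mul_of_nonneg_left h2 two_pos.le) (mul_nonneg two_pos.le (sum_nonneg fun m _ => h0 m)) (Nat.cast_nonneg _)
    _ = 6 * N ^ ε * ((ρ : ℝ) ^ 2 / E ρ) := by ring

end

end Pool.Agent.W_7d29a1_C0.NTop23
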