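import Pool.Agent.W_7d29a1_C0.PrEa46
import Pool.Agent.W_7d29a1_C0.NTopN23

/-!
MP_7d29a1_pr, [CURV0], leaf E5 (helper46): THE PRICE OF THE PRODUCTS `tj * ow46` AT THE CONCRETE FRAME (`PrE46`), in the interface `Pr46`:
micro tie of the row told from the ends of the window `[j - b', j + b']`, own tie of free replicas beyond the distance `u` (`4 u ≤ 3 b'`), for
all levels `M ≤ n ^ κ`. From the site theorem of helper80 (both ends) and the long double ties of helper36.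
-/

set_option autoImplicit false
set_option linter.unusedSectionVars false
set_option linter.dupNamespace false

namespace Pool.Agent.W_7d29a1_C0.Pr46

open Finset MeasureTheory Filter Topology
open Pool.Agent.W_7d29a1_F Pool.Agent.W_7d29a1_X
open Pool.Agent.W_7d29a1_H (EE EE_pos one_le_EE sl)
open Pool.Agent.W_7d29a1_HS (In wd)
open Pool.Agent.W_7d29a1_HZ (wd' EE')
open Pool.Agent.W_7d29a1_C0 Pool.Agent.W_7d29a1_C0.Mod92 Pool.Agent.W_7d29a1_C0.Asm96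
open Pool.Agent.W_7d29a1_C0.Frm33
open Pool.Agent.W_7d29a1_C0.N38 (av BM BM.add BM.mul BM.abs BM.sum BM.zero BM.smul BM.sq)
open Pool.Agent.W_7d29a1_C0.Sz23 (tj ev_exp)
open Pool.Agent.W_7d29a1_C0.NTop23 (avF g_num23 T_num23 sum_inv23)
open Pool.Agent.W_7d29a1_C0.P86 (ind EE'_le_mul86)
open Pool.Agent.W_7d29a1_C0.Own80 (TK Lg siteM_R siteM_L)
open Pool.Agent.W_7d29a1_C0.Wp23 (WPs)
open Pool.Agent.W_7d29a1_C0.Lng36 (Bl36 Bl_nonneg Bl_le_one meas_Bl long_str long_sq Rok)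
open Pool.Agent.W_7d29a1_C0.Par92 (Est Sml)
open Pool.W7d29a1.C0 (gz gm gz_pos gz_ne gm_nonneg gm_mono gm_const)
open scoped ENNReal

noncomputable section

/-! ### Numbers -/

section Num

variable {E w : ℕ → ℝ} {c₀ Θ δ a ε N c : ℝ} {b s b' s' ρ : ℕ}

/-- `1 / (E_b E_b')` against the gain. -/
theorem inv_num46 (R : Reg46 E w c₀ Θ δ a ε N) (H : Ch46 E δ c Θ N b s b' s' ρ) (hε : ε ≤ c / 64) :
    N ^ (3 / 8 * c) * (1 / (E b * E b')) ≤ N ^ (-(c / 16)) / E ρ := by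
  have hN := R.N0
  have hEb := R.Epos b
  have hEb' := R.Epos b'
  have hb1 : 1 ≤ b := H.h.hb.npos R.N1
  have hw := R.w0 b' (H.h'.hb.npos R.N1)
  have hb0 : (0 : ℝ) < b := by exact_mod_cast hb1
  have h1 := g_num23 R H (b₀ := b) (C₀ := 0) (x := 3 / 8 * c) hb1 le_rfl le_rfl (by rw [Real.rpow_zero, one_mul])
    (by have := H.h.c0; linarith)
  refine le_trans (mul_le_mul_of_nonneg_left ?_ (Real.rpow_nonneg hN.le _)) h1
  have h2 : 1 / (E b * E b') = 1 / E b * (1 / E b') := by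
    field_simp
  rw [h2]
  refine mul_le_mul_of_nonneg_left ?_ (by positivity)
  have : 0 ≤ w b' / b + 1 / E b := by positivity
  linarith

/-- The gain. -/
theorem num_g46 (R : Reg46 E w c₀ Θ δ a ε N) (H : Ch46 E δ c Θ N b s b' s' ρ) (hε : ε ≤ c / 64) {e : ℝ} (he : e ≤ c / 64)
    (hK : 20000 ≤ N ^ (c / 64)) : 544 * N ^ e * (1 / (E b * E b')) ≤ N ^ (-(c / 16) - c / 8) / E ρ := by
  have hN := R.N0
  have hN1 := R.N1.le
  have hc0 := H.h.c0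
  have hEb := R.Epos b
  have hEb' := R.Epos b'
  have hEρ := R.Epos ρ
  have h1 := inv_num46 R H hε
  have h0 : 0 ≤ 1 / (E b * E b') := by positivity
  have h2 : 544 * N ^ e ≤ N ^ (c / 4) := by
    calc 544 * N ^ e ≤ N ^ (c / 64) * N ^ (c / 64) :=
          mul_le_mul (by linarith) (Real.rpow_le_rpow_of_exponent_le hN1 he) (Real.rpow_nonneg hN.le _) (Real.rpow_nonneg hN.le _)
      _ = N ^ (c / 64 + c / 64) := by rw [← Real.rpow_add hN]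
      _ ≤ N ^ (c / 4) := Real.rpow_le_rpow_of_exponent_le hN1 (by linarith)
  calc 544 * N ^ e * (1 / (E b * E b')) ≤ N ^ (c / 4) * (1 / (E b * E b')) := mul_le_mul_of_nonneg_right h2 h0
    _ = N ^ (-(c / 8)) * (N ^ (3 / 8 * c) * (1 / (E b * E b'))) := by
        rw [← mul_assoc, ← Real.rpow_add hN]
        congr 2
        ring
    _ ≤ N ^ (-(c / 8)) * (N ^ (-(c / 16)) / E ρ) := mul_le_mul_of_nonneg_left h1 (Real.rpow_nonneg hN.le _)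
    _ = N ^ (-(c / 16) - c / 8) / E ρ := by
        rw [← mul_div_assoc, ← Real.rpow_add hN]
        congr 2
        ring

/-- `E_b' ≥ N ^ (c / 2)`. -/
theorem Eb_ge46 (R : Reg46 E w c₀ Θ δ a ε N) (H : Ch46 E δ c Θ N b s b' s' ρ) : N ^ (c / 2) ≤ E b' := by
  have hN := R.N0
  have hEb' := R.Epos b'
  have h1 : (N ^ (c / 2)) ^ 2 ≤ E b' ^ 2 := by
    calc (N ^ (c / 2)) ^ 2 = N ^ c := by
          rw [← Real.rpow_natCast, ← Real.rpow_mul hN.le]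
          congr 1
          push_cast
          ring
      _ ≤ N ^ c * E ρ := le_mul_of_one_le_right (Real.rpow_nonneg hN.le _) (R.E1 ρ)
      _ ≤ E b' ^ 2 := H.h'.pin
  exact le_of_sq_le_sq h1 hEb'.le

/-- `E_b ≤ N`. -/
theorem Eb_le46 (R : Reg46 E w c₀ Θ δ a ε N) (H : Ch46 E δ c Θ N b s b' s' ρ) (hbN : (b : ℝ) ≤ N) : E b ≤ N := by
  have hEb := R.Epos b
  have hE1 := R.E1 b
  have hb1 : (1 : ℝ) ≤ b := by exact_mod_cast H.h.hb.npos R.N1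
  have h1 := R.stiff b H.h.hb
  have h2 : (1 : ℝ) ≤ (b : ℝ) ^ (3 * c₀) := Real.one_le_rpow hb1 (by have := R.c₀0; positivity)
  have h3 : E b ^ 3 ≤ b := (le_mul_of_one_le_left (by positivity) h2).trans h1
  have h4 : E b ≤ E b ^ 3 := le_self_pow₀ hE1 (by norm_num)
  linarith

/-- The size of the long loops. -/
theorem num_A46 (R : Reg46 E w c₀ Θ δ a ε N) (H : Ch46 E δ c Θ N b s b' s' ρ) (hbN : (b : ℝ) ≤ N) {e z : ℝ} (he : e ≤ c / 64)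
    (hc1 : c ≤ 1) (hK : 20000 ≤ N ^ (c / 64)) (hz : z ≤ N ^ (-(10 : ℝ))) :
    64 * (N ^ e * (4 * (1 / (E b * E b'))) + z) ≤ N ^ (c / 32 - c / 8) / E b := by
  have hN := R.N0
  have hN1 := R.N1.le
  have hc0 := H.h.c0
  have hEb := R.Epos b
  have hEb' := R.Epos b'
  have h1 := Eb_ge46 R H
  have h2 := Eb_le46 R H hbN
  have hp : ∀ x : ℝ, 0 < N ^ x := fun x => Real.rpow_pos_of_pos hN x
  have e1 : 64 * (N ^ e * (4 * (1 / (E b * E b')))) ≤ 1 / 2 * (N ^ (c / 32 - c / 8) / E b) := by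
    have f1 : 1 / E b' ≤ N ^ (-(c / 2)) := by
      rw [Real.rpow_neg hN.le, ← one_div]
      exact one_div_le_one_div_of_le (hp _) h1
    have f2 : 512 * N ^ e * N ^ (-(c / 2)) ≤ N ^ (c / 32 - c / 8) := by
      calc 512 * N ^ e * N ^ (-(c / 2)) ≤ N ^ (c / 64) * N ^ (c / 64) * N ^ (-(c / 2)) :=
            mul_le_mul_of_nonneg_right (mul_le_mul (by linarith) (Real.rpow_le_rpow_of_exponent_le hN1 he) (hp _).le (hp _).le) (hp _).le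
        _ = N ^ (c / 64 + c / 64 + -(c / 2)) := by rw [← Real.rpow_add hN, ← Real.rpow_add hN]
        _ ≤ N ^ (c / 32 - c / 8) := Real.rpow_le_rpow_of_exponent_le hN1 (by linarith)
    calc 64 * (N ^ e * (4 * (1 / (E b * E b')))) = 1 / 2 * (512 * N ^ e * (1 / E b') / E b) := by
          field_simp
          norm_num
      _ ≤ 1 / 2 * (512 * N ^ e * N ^ (-(c / 2)) / E b) := by gcongr
      _ ≤ 1 / 2 * (N ^ (c / 32 - c / 8) / E b) := by gcongr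
  have e2 : 64 * z ≤ 1 / 2 * (N ^ (c / 32 - c / 8) / E b) := by
    have f1 : N ^ (-(10 : ℝ)) = N ^ (-(8 : ℝ)) * N ^ (-(2 : ℝ)) := by
      rw [← Real.rpow_add hN]
      norm_num
    have f2 : 128 * N ^ (-(8 : ℝ)) ≤ 1 := by
      have g1 : 128 ≤ N ^ (8 : ℝ) := by
        have g2 : N ^ (c / 64) ≤ N ^ (8 : ℝ) := Real.rpow_le_rpow_of_exponent_le hN1 (by linarith)
        linarith
      rw [Real.rpow_neg hN.le, ← div_eq_mul_inv, div_le_one (hp _)]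
      exact g1
    have f3 : N ^ (-(2 : ℝ)) ≤ N ^ (c / 32 - c / 8) / E b := by
      rw [le_div_iff₀ hEb]
      calc N ^ (-(2 : ℝ)) * E b ≤ N ^ (-(2 : ℝ)) * N ^ (1 : ℝ) := by
            rw [Real.rpow_one]
            exact mul_le_mul_of_nonneg_left h2 (hp _).le
        _ = N ^ (-(2 : ℝ) + 1) := by rw [← Real.rpow_add hN]
        _ ≤ N ^ (c / 32 - c / 8) := Real.rpow_le_rpow_of_exponent_le hN1 (by linarith)
    calc 64 * z ≤ 64 * N ^ (-(10 : ℝ)) := by linarith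
      _ = 1 / 2 * ((128 * N ^ (-(8 : ℝ))) * N ^ (-(2 : ℝ))) := by rw [f1]; ring
      _ ≤ 1 / 2 * (1 * N ^ (-(2 : ℝ))) := by
          have := mul_le_mul_of_nonneg_right f2 (hp (-(2 : ℝ))).le
          linarith
      _ ≤ 1 / 2 * (N ^ (c / 32 - c / 8) / E b) := by linarith
  linarith

/-- The second moment of all the long loops. -/
theorem num_T46 (R : Reg46 E w c₀ Θ δ a ε N) (H : Ch46 E δ c Θ N b s b' s' ρ) (hρN : (ρ : ℝ) ≤ N) (hε : ε ≤ c / 64) {e z : ℝ}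
    (he : e ≤ c / 64) (hc1 : c ≤ 1) (hK : 20000 ≤ N ^ (c / 64)) (hz0 : 0 ≤ z) (hz : z ≤ N ^ (-(10 : ℝ))) :
    64 * (N ^ e * (ρ * b' * (4 * (1 / (E b * E b'))) + (ρ : ℝ) ^ 2 * (4 * (1 / (E b * E b'))) ^ 2 +
      16 * (1 / E b) ^ 2 * (6 * N ^ ε * ((ρ : ℝ) ^ 2 / E ρ))) + (ρ : ℝ) ^ 2 * z) ≤ ρ * (E ρ * N ^ (Θ - c / 16 - c / 8)) := by
  have hN := R.N0
  have hN1 := R.N1.le
  have hc0 := H.h.c0
  have hΘ := R.Θ0
  have hEb := R.Epos b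
  have hEb' := R.Epos b'
  have hEρ := R.Epos ρ
  have hEρ1 := R.E1 ρ
  have hρ := H.h.hr.pos R.N1
  have hp : ∀ x : ℝ, 0 < N ^ x := fun x => Real.rpow_pos_of_pos hN x
  have hε0 := R.ε0
  have h1 := T_num23 R H (x := 3 / 8 * c) (by linarith)
  obtain ⟨X, hX⟩ : ∃ X : ℝ, X = ρ * (b' / (E b * E b')) + (ρ / (E b * E b')) ^ 2 + (ρ : ℝ) ^ 2 / (E b ^ 2 * E ρ) := ⟨_, rfl⟩
  have hX0 : 0 ≤ X := by
    rw [hX]
    positivity
  rw [← hX] at h1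
  have e1 : N ^ e * (ρ * b' * (4 * (1 / (E b * E b'))) + (ρ : ℝ) ^ 2 * (4 * (1 / (E b * E b'))) ^ 2 +
      16 * (1 / E b) ^ 2 * (6 * N ^ ε * ((ρ : ℝ) ^ 2 / E ρ))) ≤ 96 * N ^ e * N ^ ε * X := by
    have g0 : (1 : ℝ) ≤ N ^ ε := Real.one_le_rpow hN1 hε0.le
    obtain ⟨x1, hx1⟩ : ∃ t : ℝ, t = ρ * (b' / (E b * E b')) := ⟨_, rfl⟩
    obtain ⟨x2, hx2⟩ : ∃ t : ℝ, t = (ρ / (E b * E b')) ^ 2 := ⟨_, rfl⟩
    obtain ⟨x3, hx3⟩ : ∃ t : ℝ, t = (ρ : ℝ) ^ 2 / (E b ^ 2 * E ρ) := ⟨_, rfl⟩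
    have y1 : 0 ≤ x1 := by rw [hx1]; positivity
    have y2 : 0 ≤ x2 := by rw [hx2]; positivity
    have y3 : 0 ≤ x3 := by rw [hx3]; positivity
    have g1 : ρ * b' * (4 * (1 / (E b * E b'))) = 4 * x1 := by rw [hx1]; ring
    have g2 : (ρ : ℝ) ^ 2 * (4 * (1 / (E b * E b'))) ^ 2 = 16 * x2 := by rw [hx2]; ring
    have g3 : 16 * (1 / E b) ^ 2 * (6 * N ^ ε * ((ρ : ℝ) ^ 2 / E ρ)) = 96 * N ^ ε * x3 := by
      rw [hx3]
      field_simp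
      norm_num
    rw [g1, g2, g3, hX, ← hx1, ← hx2, ← hx3]
    have k1 : 4 * x1 ≤ 96 * N ^ ε * x1 := mul_le_mul_of_nonneg_right (by linarith) y1
    have k2 : 16 * x2 ≤ 96 * N ^ ε * x2 := mul_le_mul_of_nonneg_right (by linarith) y2
    have k3 : 4 * x1 + 16 * x2 + 96 * N ^ ε * x3 ≤ 96 * N ^ ε * (x1 + x2 + x3) := by linarith
    calc N ^ e * (4 * x1 + 16 * x2 + 96 * N ^ ε * x3) ≤ N ^ e * (96 * N ^ ε * (x1 + x2 + x3)) := mul_le_mul_of_nonneg_left k3 (hp e).le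
      _ = 96 * N ^ e * N ^ ε * (x1 + x2 + x3) := by ring
  have e2 : 64 * (96 * N ^ e * N ^ ε * X) ≤ 1 / 2 * (ρ * (E ρ * N ^ (Θ - c / 16 - c / 8))) := by
    have g1 : 12288 * (N ^ e * N ^ ε) ≤ N ^ (c / 4) := by
      calc 12288 * (N ^ e * N ^ ε) ≤ N ^ (c / 64) * (N ^ (c / 64) * N ^ (c / 64)) := by
            refine mul_le_mul (by linarith) (mul_le_mul (Real.rpow_le_rpow_of_exponent_le hN1 he)
              (Real.rpow_le_rpow_of_exponent_le hN1 hε) (hp _).le (hp _).le) (by positivity) (hp _).le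
        _ = N ^ (c / 64 + (c / 64 + c / 64)) := by rw [← Real.rpow_add hN, ← Real.rpow_add hN]
        _ ≤ N ^ (c / 4) := Real.rpow_le_rpow_of_exponent_le hN1 (by linarith)
    calc 64 * (96 * N ^ e * N ^ ε * X) = 1 / 2 * ((12288 * (N ^ e * N ^ ε)) * X) := by ring
      _ ≤ 1 / 2 * (N ^ (c / 4) * X) := by
          have := mul_le_mul_of_nonneg_right g1 hX0
          linarith
      _ = 1 / 2 * (N ^ (-(c / 8)) * (N ^ (3 / 8 * c) * X)) := by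
          rw [← mul_assoc (N ^ (-(c / 8))), ← Real.rpow_add hN]
          congr 3
          ring
      _ ≤ 1 / 2 * (N ^ (-(c / 8)) * (ρ * (E ρ * N ^ (Θ - c / 16)))) := by
          have := mul_le_mul_of_nonneg_left h1 (hp (-(c / 8))).le
          linarith
      _ = 1 / 2 * (ρ * (E ρ * (N ^ (-(c / 8)) * N ^ (Θ - c / 16)))) := by ring
      _ = 1 / 2 * (ρ * (E ρ * N ^ (Θ - c / 16 - c / 8))) := by
          rw [← Real.rpow_add hN]
          congr 4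
          ring
  have e3 : 64 * ((ρ : ℝ) ^ 2 * z) ≤ 1 / 2 * (ρ * (E ρ * N ^ (Θ - c / 16 - c / 8))) := by
    have g1 : 128 * (ρ * z) ≤ N ^ (Θ - c / 16 - c / 8) := by
      calc 128 * (ρ * z) ≤ N ^ (1 : ℝ) * (N ^ (1 : ℝ) * N ^ (-(10 : ℝ))) := by
            refine mul_le_mul ?_ (mul_le_mul (by rw [Real.rpow_one]; exact hρN) hz hz0 (hp _).le) (by positivity) (hp _).le
            have : N ^ (c / 64) ≤ N ^ (1 : ℝ) := Real.rpow_le_rpow_of_exponent_le hN1 (by linarith)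
            linarith
        _ = N ^ ((1 : ℝ) + (1 + -(10 : ℝ))) := by rw [← Real.rpow_add hN, ← Real.rpow_add hN]
        _ ≤ N ^ (Θ - c / 16 - c / 8) := Real.rpow_le_rpow_of_exponent_le hN1 (by linarith)
    calc 64 * ((ρ : ℝ) ^ 2 * z) = 1 / 2 * (ρ * (128 * (ρ * z))) := by ring
      _ ≤ 1 / 2 * (ρ * N ^ (Θ - c / 16 - c / 8)) := by
          have := mul_le_mul_of_nonneg_left g1 hρ.le
          linarith
      _ ≤ 1 / 2 * (ρ * (E ρ * N ^ (Θ - c / 16 - c / 8))) := by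
          have := mul_le_mul_of_nonneg_left (le_mul_of_one_le_left (hp (Θ - c / 16 - c / 8)).le hEρ1) hρ.le
          linarith
  linarith

end Num

/-! ### The long double ties -/

section Frame

variable {μ : Measure ℝ} {s : ℝ} [IsProbabilityMeasure μ]

/-- From each end to the average. -/
theorem avF_le46 {F : Frm96} {m : ℕ} {f : Wt46 F m} {X : ℝ} (hX : 0 ≤ X)
    (h : ∀ y ∈ F.ys m, ∫ ω, gm (wm μ s (F.L m) (Pn (F.L m) y) ω) (f y ω) ∂(Pm μ (F.L m)) ≤ X) : avF μ s F m f ≤ X := by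
  unfold avF av
  rcases (F.ys m).eq_empty_or_nonempty with h0 | h0
  · rw [h0, sum_empty, mul_zero]
    exact hX
  · have hc : (0 : ℝ) < (F.ys m).card := by exact_mod_cast h0.card_pos
    rw [inv_mul_le_iff₀ hc]
    refine (sum_le_sum h).trans ?_
    rw [sum_const, nsmul_eq_mul]

/-- The long double ties of a stretch. -/
def BlE46 (μ : Measure ℝ) (s : ℝ) (F : Frm96) (m q i l b0 b b' : ℕ) (M₀ : ℝ) : ℕ → Wt46 F m :=
  fun k y ω S => ∑ j ∈ st46 F m q i l k, 4 * bl46 μ s b0 b b' M₀ j y ω S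

theorem lb46 {F : Frm96} {m q i l b0 b b' : ℕ} {M₀ X₁ X₂ : ℝ} (hy : ∀ y ∈ F.ys m, y ≤ F.L m)
    (h1 : ∀ (sm : Bool) (k : ℕ), avF μ s F m (fun y ω S =>
      (∑ j ∈ st46 F m q i l k, Bl36 μ s (F.L m) y 0 (F.L m) b' (uA sm b0 b) (vA sm b0 b) M₀ j ω S) ^ 2) ≤ l ^ 2 * X₁)
    (h2 : ∀ sm : Bool, avF μ s F m (fun y ω S =>
      (∑ j ∈ rw46 F m q i, Bl36 μ s (F.L m) y 0 (F.L m) b' (uA sm b0 b) (vA sm b0 b) M₀ j ω S) ^ 2) ≤ X₂) :
    Lb46 μ s F m q i l (64 * X₁) (64 * X₂) (BlE46 μ s F m q i l b0 b b' M₀) := by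
  classical
  have hb : ∀ (sm : Bool) (j : ℕ), BM (F.ys m) fun y ω S => Bl36 μ s (F.L m) y 0 (F.L m) b' (uA sm b0 b) (vA sm b0 b) M₀ j ω S :=
    fun sm j => ⟨⟨1, fun y _ ω S => by rw [abs_of_nonneg (Bl_nonneg _ _)]; exact Bl_le_one _ _⟩, fun y _ S => meas_Bl S⟩
  have hbl : ∀ j, BM (F.ys m) fun y ω S => 4 * bl46 (N := F.L m) μ s b0 b b' M₀ j y ω S := fun j =>
    BM.smul ⟨⟨2, fun y _ ω S => by rw [abs_of_nonneg (bl_nonneg _ _ _ _ _ _ _)]; exact bl_le_two _ _ _ _ _ _ _⟩,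
      fun y _ S => meas_bl _ _ _ _ _ S⟩ 4
  have key : ∀ (J : Finset ℕ) (X : ℝ), (∀ sm : Bool, avF μ s F m (fun y ω S =>
      (∑ j ∈ J, Bl36 μ s (F.L m) y 0 (F.L m) b' (uA sm b0 b) (vA sm b0 b) M₀ j ω S) ^ 2) ≤ X) →
      avF μ s F m (fun y ω S => (∑ j ∈ J, 4 * bl46 (N := F.L m) μ s b0 b b' M₀ j y ω S) ^ 2) ≤ 64 * X := by
    intro J X hX
    have g1 : BM (F.ys m) fun y ω S => (∑ j ∈ J, Bl36 μ s (F.L m) y 0 (F.L m) b' (uA true b0 b) (vA true b0 b) M₀ j ω S) ^ 2 :=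
      (BM.sum J fun j _ => hb true j).sq
    have g2 : BM (F.ys m) fun y ω S => (∑ j ∈ J, Bl36 μ s (F.L m) y 0 (F.L m) b' (uA false b0 b) (vA false b0 b) M₀ j ω S) ^ 2 :=
      (BM.sum J fun j _ => hb false j).sq
    refine (avF_mono hy (g := fun y ω S =>
      32 * (∑ j ∈ J, Bl36 μ s (F.L m) y 0 (F.L m) b' (uA true b0 b) (vA true b0 b) M₀ j ω S) ^ 2 +
      32 * (∑ j ∈ J, Bl36 μ s (F.L m) y 0 (F.L m) b' (uA false b0 b) (vA false b0 b) M₀ j ω S) ^ 2)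
      (BM.sum J fun j _ => hbl j).sq ((g1.smul 32).add (g2.smul 32)) fun y _ ω S => ?_).trans ?_
    · have e1 : ∑ j ∈ J, 4 * bl46 (N := F.L m) μ s b0 b b' M₀ j y ω S =
          4 * (∑ j ∈ J, Bl36 μ s (F.L m) y 0 (F.L m) b' (uA true b0 b) (vA true b0 b) M₀ j ω S +
            ∑ j ∈ J, Bl36 μ s (F.L m) y 0 (F.L m) b' (uA false b0 b) (vA false b0 b) M₀ j ω S) := by
        rw [← sum_add_distrib, mul_sum]
        refine sum_congr rfl fun j _ => ?_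
        unfold bl46
        rw [Fintype.sum_bool]
      rw [e1]
      nlinarith [sq_nonneg (∑ j ∈ J, Bl36 μ s (F.L m) y 0 (F.L m) b' (uA true b0 b) (vA true b0 b) M₀ j ω S -
        ∑ j ∈ J, Bl36 μ s (F.L m) y 0 (F.L m) b' (uA false b0 b) (vA false b0 b) M₀ j ω S)]
    · rw [avF_add hy (g1.smul 32) (g2.smul 32), avF_smul hy, avF_smul hy]
      have := hX true
      have := hX false
      linarith
  refine ⟨fun k => BM.sum _ fun j _ => hbl j, fun k y _ ω S => sum_nonneg fun j _ => mul_nonneg (by norm_num) (bl_nonneg _ _ _ _ _ _ _),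
    ?_, fun k => ?_⟩
  · have e1 : (fun (y : ℕ) (ω : Env × Finset ℕ) (S : Px (Pn (F.L m) y)) =>
        (∑ k ∈ (rw46 F m q i).image fun j => j / l, BlE46 μ s F m q i l b0 b b' M₀ k y ω S) ^ 2) =
        fun y ω S => (∑ j ∈ rw46 F m q i, 4 * bl46 (N := F.L m) μ s b0 b b' M₀ j y ω S) ^ 2 := by
      funext y ω S
      congr 1
      exact sum_fiberwise_of_maps_to (fun j hj => mem_image_of_mem _ hj) _
    rw [e1]
    exact key _ _ h2
  · have h3 := key (st46 F m q i l k) (l ^ 2 * X₁) fun sm => h1 sm k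
    refine h3.trans (le_of_eq ?_)
    ring

/-- The finer window is at most a quarter of the window. -/
theorem b0_quarter {ι : ℝ} {m p : ℕ} (hm : 1 < ι * m) (hp : 2 ≤ p) : 4 * 2 ^ (p - ⌈ι * (m : ℝ)⌉₊) ≤ 2 ^ p := by
  have h1 : 1 < ⌈ι * (m : ℝ)⌉₊ := Nat.lt_ceil.2 (by push_cast; exact hm)
  calc 4 * 2 ^ (p - ⌈ι * (m : ℝ)⌉₊) = 2 ^ (p - ⌈ι * (m : ℝ)⌉₊ + 2) := by rw [pow_add]; ring
    _ ≤ 2 ^ p := Nat.pow_le_pow_right two_pos (by omega)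

/-- The windows of the site theorem for the rows of a stretch. -/
theorem win46 {N b0 b b' u l : ℕ} (hl : b' = 64 * l) (hl0 : 0 < l) (hb0 : 4 * b0 ≤ b) (hbb : b ≤ b') (hu : 4 * u ≤ 3 * b') {k : ℕ}
    {JJ : Finset ℕ} (hJ : ∀ j ∈ JJ, j / l = k ∧ 4 * b' ≤ j ∧ j + 4 * b' ≤ N) (sm : Bool) :
    (∀ j ∈ JJ, b' ≤ j ∧ (k + 1) * l - 1 + b' < j + b' + b' / 64 ∧ j + b' ≤ (k + 1) * l - 1 + b') ∧
    (∀ j ∈ JJ, (k * l - b') + b' ≤ j ∧ j < (k * l - b') + b' + b' / 64 ∧ j + b' ≤ N ∧ 3 * b' ≤ j) ∧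
    (∀ j ∈ JJ, j ≤ uA sm b0 b j + b' ∧ vA sm b0 b j ≤ j + b' / 2 ∧ uA sm b0 b j + (b / 2 - b0) ≤ vA sm b0 b j) ∧
    (∀ j ∈ JJ, j ≤ uA sm b0 b j + b' / 2 ∧ vA sm b0 b j ≤ j + b' ∧ uA sm b0 b j + (b / 2 - b0) ≤ vA sm b0 b j) ∧
    (∀ j ∈ JJ, 0 ≤ j ∧ j + b' ≤ N ∧ N ≤ N ∧ (j + u) + b' / 4 ≤ j + b') ∧
    (∀ j ∈ JJ, 0 + b' ≤ j ∧ j ≤ N ∧ N ≤ N ∧ j + b' / 4 ≤ (j - u) + b') := by
  have hkl : ∀ j ∈ JJ, k * l ≤ j ∧ j < k * l + l := fun j hj => by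
    obtain ⟨h1, -, -⟩ := hJ j hj
    constructor
    · rw [← h1]
      exact Nat.div_mul_le_self j l
    · have h3 : j / l < k + 1 := by omega
      have := Nat.lt_mul_of_div_lt h3 hl0
      rwa [Nat.succ_mul] at this
  have hk1 : (k + 1) * l = k * l + l := by ring
  refine ⟨fun j hj => ?_, fun j hj => ?_, fun j hj => ?_, fun j hj => ?_, fun j hj => ?_, fun j hj => ?_⟩
  · have h1 := hkl j hj
    obtain ⟨-, h2, h3⟩ := hJ j hj
    rw [hk1]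
    generalize k * l = kl at *
    omega
  · have h1 := hkl j hj
    obtain ⟨-, h2, h3⟩ := hJ j hj
    generalize k * l = kl at *
    omega
  · obtain ⟨-, h2, h3⟩ := hJ j hj
    cases sm
    · show j ≤ (j - b / 2) + b' ∧ j - b0 ≤ j + b' / 2 ∧ (j - b / 2) + (b / 2 - b0) ≤ j - b0
      omega
    · show j ≤ (j + b0) + b' ∧ j + b / 2 ≤ j + b' / 2 ∧ (j + b0) + (b / 2 - b0) ≤ j + b / 2
      omega
  · obtain ⟨-, h2, h3⟩ := hJ j hj
    cases sm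
    · show j ≤ (j - b / 2) + b' / 2 ∧ j - b0 ≤ j + b' ∧ (j - b / 2) + (b / 2 - b0) ≤ j - b0
      omega
    · show j ≤ (j + b0) + b' / 2 ∧ j + b / 2 ≤ j + b' ∧ (j + b0) + (b / 2 - b0) ≤ j + b / 2
      omega
  · obtain ⟨-, h2, h3⟩ := hJ j hj
    omega
  · obtain ⟨-, h2, h3⟩ := hJ j hj
    omega

/-- The rows of the long double ties. -/
theorem rok46 {N b0 b b' j : ℕ} (hb0 : 4 * b0 ≤ b) (hbb : b ≤ b') (hj : 4 * b' ≤ j ∧ j + 4 * b' ≤ N) (sm : Bool) :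
    Rok N 0 N b' (b / 2 - b0) (uA sm b0 b) (vA sm b0 b) j := by
  obtain ⟨h2, h3⟩ := hj
  unfold Rok
  cases sm
  · show b' ≤ j ∧ j + b' ≤ N ∧ 0 ≤ j ∧ j ≤ N ∧ j - b' ≤ j - b / 2 ∧ (j - b / 2) + (b / 2 - b0) ≤ j - b0 ∧ j - b0 ≤ j + b'
    omega
  · show b' ≤ j ∧ j + b' ≤ N ∧ 0 ≤ j ∧ j ≤ N ∧ j - b' ≤ j + b0 ∧ (j + b0) + (b / 2 - b0) ≤ j + b / 2 ∧ j + b / 2 ≤ j + b'
    omega

/-- The rows of the blind set, right. -/
theorem subR46 {l b' k : ℕ} (hl : 0 < l) : Ioc ((k + 1) * l - 1 + b' - 3 * b') ((k + 1) * l - 1 + b' + 2 * b') ⊆ J46 l b' k := by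
  intro n hn
  unfold J46
  rw [mem_Ioc] at hn ⊢
  have h1 : (k + 1) * l = k * l + l := by ring
  rw [h1] at hn ⊢
  generalize k * l = kl at *
  omega

/-- The rows of the blind set, left. -/
theorem subL46 {l b' k : ℕ} (hl : 0 < l) (hb : 0 < b') (hk : 3 * b' ≤ k * l) :
    Ico (k * l - b' - (2 * b' - 1)) (k * l - b' + 3 * b') ⊆ J46 l b' k := by
  intro n hn
  unfold J46
  rw [mem_Ico] at hn
  rw [mem_Ioc]
  have h1 : (k + 1) * l = k * l + l := by ring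
  rw [h1]
  generalize k * l = kl at *
  omega

/-- The rate of the site theorem. -/
theorem rate46 {Eb Eb' x z l b' X cd : ℝ} (hEb : 0 < Eb) (hEbb : Eb ≤ Eb') (hx0 : 0 ≤ x) (hx : x ≤ 1 / Eb') (hz : z ≤ 4 / Eb) (hz0 : 0 ≤ z)
    (hl : 0 ≤ l) (hb' : b' = 64 * l) (hX : 0 ≤ X) (hcd : cd ≤ l) :
    8 * (X * ((b' * x + cd * z) * x)) ≤ l * (544 * X * (1 / (Eb * Eb'))) := by
  have hEb' : 0 < Eb' := lt_of_lt_of_le hEb hEbb
  have h1 : 1 / Eb' ≤ 1 / Eb := one_div_le_one_div_of_le hEb hEbb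
  have h2 : b' * x ≤ 64 * l * (1 / Eb) := by
    rw [hb']
    exact mul_le_mul_of_nonneg_left (hx.trans h1) (by positivity)
  have h3 : cd * z ≤ l * (4 / Eb) := mul_le_mul hcd hz hz0 hl
  have h4 : (b' * x + cd * z) * x ≤ (68 * l * (1 / Eb)) * (1 / Eb') := by
    refine mul_le_mul ?_ hx hx0 (by positivity)
    have : l * (4 / Eb) = 4 * l * (1 / Eb) := by ring
    linarith
  calc 8 * (X * ((b' * x + cd * z) * x)) ≤ 8 * (X * ((68 * l * (1 / Eb)) * (1 / Eb'))) := by gcongr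
    _ = l * (544 * X * (1 / (Eb * Eb'))) := by
        field_simp
        ring

/-- **The price of the products `tj * ow46` at the concrete frame**: it does not depend on the clipping level nor on the flatness, so the
order of the exponents does not matter. -/
theorem prE_core46 {c₁ C : ℝ} {n₀ : ℕ} (h : In μ s c₁ C n₀) (hk : KapLe96 (EE μ s) (1 / 4)) {K : ℕ} (hK : 32 ≤ K)
    {c₀ Θ δ c η : ℝ} (hR : RegP46 μ s c₀ Θ) (hδ : 0 < δ) (hc : 0 < c) (hc1 : c ≤ 1) (hcδ : c ≤ δ / 64) (hη : 0 ≤ η) :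
    ∃ κ : ℝ, 0 < κ ∧ ∀ A : ℝ, Sml fun ι => ∀ β γ : ℝ, ∀ᶠ m : ℕ in atTop, ∀ p p' q i : ℕ, Chg96 (EE μ s) Θ δ c η m p p' q →
      i < 2 ^ (m - q) → ∀ M : ℝ, M ≤ ((2 ^ m : ℕ) : ℝ) ^ κ → ∀ u : ℕ, 4 * u ≤ 3 * 2 ^ p' →
        Pr46 μ s (frm33 μ s K ι β γ) (EE μ s) Θ c m p p' q i (c / 8) A fun _ j D =>
          avF μ s (frm33 μ s K ι β γ) m fun y ω S => |D y ω S| *
            (tj μ s (L33 K m) (Pn (L33 K m) y) (2 ^ (p - ⌈ι * (m : ℝ)⌉₊)) (2 ^ p) (2 ^ p') M ω j S *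
              ow46 (wm μ s (L33 K m) (Pn (L33 K m) y) ω) u (2 ^ p') j M S) := by
  obtain ⟨a, -, -, hr⟩ := hR
  have hK0 : (0 : ℝ) < K := by
    have : (32 : ℝ) ≤ K := by exact_mod_cast hK
    linarith
  have hK1 : (1 : ℝ) ≤ K := by
    have : (32 : ℝ) ≤ K := by exact_mod_cast hK
    linarith
  obtain ⟨δ₁, κ₁, e₁, hδ₁, hκ₁, he₁, L₁, hP₁⟩ := siteM_R (μ := μ) (s := s) h (c / 64 / K) (δ / 2 / K) (by positivity) (by positivity)
  obtain ⟨δ₂, κ₂, e₂, hδ₂, hκ₂, he₂, L₂, hP₂⟩ := siteM_L (μ := μ) (s := s) h (c / 64 / K) (δ / 2 / K) (by positivity) (by positivity)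
  obtain ⟨δ₃, κ₃, e₃, hδ₃, hκ₃, he₃, L₃, hP₃⟩ := long_str (μ := μ) (s := s) h (c / 64 / K) (δ / 2 / K) (by positivity) (by positivity)
  obtain ⟨δ₄, κ₄, e₄, hδ₄, hκ₄, he₄, L₄, hP₄⟩ := long_sq (μ := μ) (s := s) h (c / 64 / K) (δ / 2 / K) (by positivity) (by positivity)
  obtain ⟨κ, hκd⟩ : ∃ κ, κ = min (min κ₁ κ₂) (min κ₃ κ₄) := ⟨_, rfl⟩
  obtain ⟨cm, hcm⟩ : ∃ cm, cm = min (min e₁ e₂) (min e₃ e₄) := ⟨_, rfl⟩
  have hκ : 0 < κ := by rw [hκd]; exact lt_min (lt_min hκ₁ hκ₂) (lt_min hκ₃ hκ₄)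
  have hcm0 : 0 < cm := by rw [hcm]; exact lt_min (lt_min he₁ he₂) (lt_min he₃ he₄)
  have q1 : κ ≤ κ₁ := by rw [hκd]; exact (min_le_left _ _).trans (min_le_left _ _)
  have q2 : κ ≤ κ₂ := by rw [hκd]; exact (min_le_left _ _).trans (min_le_right _ _)
  have q3 : κ ≤ κ₃ := by rw [hκd]; exact (min_le_right _ _).trans (min_le_left _ _)
  have q4 : κ ≤ κ₄ := by rw [hκd]; exact (min_le_right _ _).trans (min_le_right _ _)
  have r1 : cm ≤ e₁ := by rw [hcm]; exact (min_le_left _ _).trans (min_le_left _ _)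
  have r2 : cm ≤ e₂ := by rw [hcm]; exact (min_le_left _ _).trans (min_le_right _ _)
  have r3 : cm ≤ e₃ := by rw [hcm]; exact (min_le_right _ _).trans (min_le_left _ _)
  have r4 : cm ≤ e₄ := by rw [hcm]; exact (min_le_right _ _).trans (min_le_right _ _)
  clear hκd hcm
  refine ⟨κ, hκ, fun A => ?_⟩
  refine ⟨min (c / 64) (δ / 16), by positivity, fun ι hι0 hιm β γ => ?_⟩
  have hι1 : ι ≤ c / 64 := hιm.trans (min_le_left _ _)
  obtain ⟨B, hB⟩ : ∃ B : ℝ, B = |A| + 12 := ⟨_, rfl⟩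
  filter_upwards [cone33 h hK hδ₁, cone33 h hK hδ₂, cone33 h hK hδ₃, cone33 h hK hδ₄, ev_L (by omega : 1 ≤ K) (L₁ + L₂ + L₃ + L₄),
    ev_n (show 0 < δ / 2 by positivity) 4, ev_n (show 0 < c / 64 by positivity) 20000, ev_n hκ 8, ev_exp hcm0 B, ev_exp hκ (B + 2 * K),
    (tendsto_natCast_atTop_atTop.const_mul_atTop hι0).eventually_gt_atTop 1,
    (tendsto_natCast_atTop_atTop.const_mul_atTop hδ).eventually_ge_atTop 6, hr δ ι hδ hι0,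
    deep33_ev h hk hδ hc.le hcδ (hιm.trans (min_le_right _ _))] with m h1 h2 h3 h4 hL h6 h7 h8 h9 h10 h11 h12 hreg hD
  obtain ⟨R, -⟩ := hreg
  intro p p' q i hC hi M hM u hu
  obtain ⟨hsq', hqm⟩ := chg_le33 hC hc.le hη
  have hH := ch46 R hc (by linarith) hC hqm
  obtain ⟨F, hF⟩ : ∃ F, F = frm33 μ s K ι β γ := ⟨_, rfl⟩
  obtain ⟨n, hn⟩ : ∃ n : ℝ, n = ((2 ^ m : ℕ) : ℝ) := ⟨_, rfl⟩
  have hn1 : 1 ≤ n := hn ▸ n_ge1 m
  have hn0 : 0 < n := by linarith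
  have hpw : ∀ x : ℝ, 0 < n ^ x := fun x => Real.rpow_pos_of_pos hn0 x
  have hyF : ∀ y ∈ F.ys m, y ≤ F.L m := by
    rw [hF]
    exact hy33 (by omega) m
  -- the numbers
  have hp6 : 6 ≤ p' := by
    have g1 : (6 : ℝ) ≤ p' := by
      have g2 : δ * m ≤ p' := hC.hp.trans (by exact_mod_cast hC.hpp)
      exact h12.trans g2
    exact_mod_cast g1
  have hp2 : 2 ≤ p := by
    have g1 : (6 : ℝ) ≤ p := h12.trans hC.hp
    have g2 : 6 ≤ p := by exact_mod_cast g1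
    omega
  have hpm : p ≤ m := hC.hps.trans (hC.hsq.trans hqm)
  obtain ⟨b, hb⟩ : ∃ b, b = 2 ^ p := ⟨_, rfl⟩
  obtain ⟨b', hb'⟩ : ∃ b', b' = 2 ^ p' := ⟨_, rfl⟩
  obtain ⟨b0, hb0⟩ : ∃ b0, b0 = 2 ^ (p - ⌈ι * (m : ℝ)⌉₊) := ⟨_, rfl⟩
  obtain ⟨l, hl⟩ : ∃ l, l = 2 ^ (p' - 6) := ⟨_, rfl⟩
  have hl0 : 0 < l := hl ▸ pow_pos two_pos _
  have hbl : b' = 64 * l := by
    rw [hb', hl]
    calc 2 ^ p' = 2 ^ (6 + (p' - 6)) := by congr 1; omega
      _ = 64 * 2 ^ (p' - 6) := by rw [pow_add]; norm_num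
  have hbb : b ≤ b' := by rw [hb, hb']; exact Nat.pow_le_pow_right two_pos hC.hpp
  have hb04 : 4 * b0 ≤ b := by rw [hb0, hb]; exact b0_quarter h11 hp2
  rw [← hb'] at hu
  obtain ⟨M₀, hM₀⟩ : ∃ M₀ : ℝ, M₀ = n ^ κ := ⟨_, rfl⟩
  rw [← hn] at hM h6 h7 h8 h9 h10 R hH
  rw [← hM₀] at hM h8
  obtain ⟨L, hLd⟩ : ∃ L : ℕ, L = L33 K m := ⟨_, rfl⟩
  have hLn : 2 ^ m ≤ L := hLd ▸ L33_ge (by omega) m
  have hLn' : n ≤ (L : ℝ) := by rw [hn]; exact_mod_cast hLn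
  have hLr : (L : ℝ) = n ^ (K : ℝ) := by rw [hLd, L33_real, ← hn]
  have hLp : ∀ x : ℝ, (L : ℝ) ^ (x / K) = n ^ x := fun x => by
    rw [hLr, ← Real.rpow_mul hn0.le]
    congr 1
    field_simp
  have eκ : ∀ x : ℝ, κ ≤ x → M₀ ≤ (L : ℝ) ^ x := fun x hx => by
    rw [hM₀]
    exact (Real.rpow_le_rpow_of_exponent_le hn1 hx).trans (Real.rpow_le_rpow hn0.le hLn' (hκ.le.trans hx))
  have eE : ∀ x : ℝ, cm ≤ x → Real.exp (-(L : ℝ) ^ x) ≤ n ^ (-B) := fun x hx => by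
    refine (Real.exp_le_exp.2 (neg_le_neg ?_)).trans h9
    exact (Real.rpow_le_rpow_of_exponent_le hn1 hx).trans (Real.rpow_le_rpow hn0.le hLn' (hcm0.le.trans hx))
  have hn20 : 20000 ≤ n := by
    have : n ^ (c / 64) ≤ n ^ (1 : ℝ) := Real.rpow_le_rpow_of_exponent_le hn1 (by linarith)
    rw [Real.rpow_one] at this
    linarith
  have hBA : A ≤ |A| := le_abs_self A
  have hA0 : 0 ≤ |A| := abs_nonneg A
  have e10 : Real.exp (-M₀) ≤ n ^ (-(B + 2 * K)) := by rw [hM₀]; exact h10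
  have e11 : (L : ℝ) ^ 2 * Real.exp (-M₀) ≤ n ^ (-B) := by
    have g1 : (L : ℝ) ^ 2 = n ^ (2 * (K : ℝ)) := by
      rw [hLr, ← Real.rpow_natCast, ← Real.rpow_mul hn0.le]
      congr 1
      push_cast
      ring
    calc (L : ℝ) ^ 2 * Real.exp (-M₀) ≤ n ^ (2 * (K : ℝ)) * n ^ (-(B + 2 * K)) := by
          rw [g1]
          exact mul_le_mul_of_nonneg_left e10 (hpw _).le
      _ = n ^ (-B) := by
          rw [← Real.rpow_add hn0]
          congr 1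
          ring
  have eB : 24 * n ^ (-B) ≤ n ^ (-A) := by
    calc 24 * n ^ (-B) ≤ n ^ (1 : ℝ) * n ^ (-B) := mul_le_mul_of_nonneg_right (by rw [Real.rpow_one]; linarith) (hpw _).le
      _ = n ^ (1 + -B) := by rw [← Real.rpow_add hn0]
      _ ≤ n ^ (-A) := Real.rpow_le_rpow_of_exponent_le hn1 (by rw [hB]; linarith)
  obtain ⟨z, hz⟩ : ∃ z : ℝ, z = n ^ (-(10 : ℝ)) := ⟨_, rfl⟩
  have hz0 : 0 ≤ z := hz ▸ (hpw _).le
  have eZ : ∀ x : ℝ, cm ≤ x → 3 * Real.exp (-(L : ℝ) ^ x) + 8 * Real.exp (-M₀) ≤ z := fun x hx => by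
    have g1 := eE x hx
    have g2 : Real.exp (-M₀) ≤ n ^ (-B) := e10.trans (Real.rpow_le_rpow_of_exponent_le hn1 (by linarith))
    have g3 : 11 * n ^ (-B) ≤ z := by
      calc 11 * n ^ (-B) ≤ n ^ (1 : ℝ) * n ^ (-B) := mul_le_mul_of_nonneg_right (by rw [Real.rpow_one]; linarith) (hpw _).le
        _ = n ^ (1 + -B) := by rw [← Real.rpow_add hn0]
        _ ≤ z := by
            rw [hz]
            exact Real.rpow_le_rpow_of_exponent_le hn1 (by rw [hB]; linarith)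
    linarith
  -- the rates
  obtain ⟨Eb, hEb⟩ : ∃ t, t = EE μ s b := ⟨_, rfl⟩
  obtain ⟨Eb', hEb'⟩ : ∃ t, t = EE μ s b' := ⟨_, rfl⟩
  have hEb0 : 0 < Eb := hEb ▸ EE_pos _
  have hEb'0 : 0 < Eb' := hEb' ▸ EE_pos _
  have hEbb : Eb ≤ Eb' := by
    have := EE'_le_mul86 h (m := b) (n := b') (k := 1) le_rfl (by omega)
    rw [EE'_eq46, EE'_eq46, Nat.cast_one, one_mul, ← hEb, ← hEb'] at this
    exact this
  obtain ⟨l₀, hl₀⟩ : ∃ l₀, l₀ = b / 2 - b0 := ⟨_, rfl⟩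
  have hbl₀ : b ≤ 4 * l₀ := by
    have : 2 ∣ b := by rw [hb]; exact dvd_pow_self 2 (by omega)
    omega
  have hEl0 : 0 < EE' μ s l₀ := lt_of_lt_of_le zero_lt_one (le_max_left _ _)
  have hEl : (EE' μ s l₀)⁻¹ ≤ 4 / Eb := by
    have g1 := EE'_le_mul86 h (m := b) (n := l₀) (k := 4) (by norm_num) hbl₀
    rw [EE'_eq46 s b, ← hEb] at g1
    push_cast at g1
    rw [le_div_iff₀ hEb0, inv_mul_le_iff₀ hEl0]
    linarith
  have hEl' : (EE' μ s l₀)⁻¹ ≤ 4 * (1 / Eb) := hEl.trans (le_of_eq (by ring))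
  have hEi : (EE' μ s b')⁻¹ = 1 / Eb' := by rw [EE'_eq46, ← hEb', one_div]
  have hq0 : (EE' μ s l₀)⁻¹ * (EE' μ s b')⁻¹ ≤ 4 * (1 / (Eb * Eb')) := by
    rw [hEi]
    calc (EE' μ s l₀)⁻¹ * (1 / Eb') ≤ 4 / Eb * (1 / Eb') := mul_le_mul_of_nonneg_right hEl (by positivity)
      _ = 4 * (1 / (Eb * Eb')) := by
          field_simp
  have hq00 : 0 ≤ (EE' μ s l₀)⁻¹ * (EE' μ s b')⁻¹ := by
    rw [hEi]
    positivity
  have hbig : n ^ (δ / 2) ≤ (l₀ : ℝ) ∧ n ^ (δ / 2) ≤ (b' : ℝ) := by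
    have g1 : n ^ δ ≤ (b : ℝ) := by
      rw [hb, hn]
      exact two_ge hC.hp
    have g2 : n ^ δ = n ^ (δ / 2) * n ^ (δ / 2) := by
      rw [← Real.rpow_add hn0]
      congr 1
      ring
    have g3 : 4 * n ^ (δ / 2) ≤ n ^ (δ / 2) * n ^ (δ / 2) := mul_le_mul_of_nonneg_right h6 (hpw _).le
    have g4 : (b : ℝ) ≤ 4 * l₀ := by exact_mod_cast hbl₀
    have g5 : (b : ℝ) ≤ b' := by exact_mod_cast hbb
    have g6 := (hpw (δ / 2)).le
    constructor <;> linarith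
  have hbL : (L : ℝ) ^ (δ / 2 / K) ≤ b' := by rw [hLp]; exact hbig.2
  have hlL : (L : ℝ) ^ (δ / 2 / K) ≤ l₀ := by rw [hLp]; exact hbig.1
  -- the rows
  have hrows : ∀ j ∈ rw46 F m q i, 4 * b' ≤ j ∧ j + 4 * b' ≤ 2 ^ m := fun j hj => by
    rw [hF] at hj
    have hp' : δ * m ≤ p' := hC.hp.trans (by exact_mod_cast hC.hpp)
    have hDp : Deep (R33 ι m) (4 * 2 ^ p') (2 ^ sg96 (EE μ s) c m p') := hD p' hp' (hsq'.trans hqm)
    have g6 := hDp.in_block (by positivity) (dvd96 hsq' i) (dvd96 hsq' (i + 1)) hj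
    have g7 : (i + 1) * 2 ^ q ≤ 2 ^ m := by
      calc (i + 1) * 2 ^ q ≤ 2 ^ (m - q) * 2 ^ q := Nat.mul_le_mul_right _ hi
        _ = 2 ^ m := by
            rw [← pow_add]
            congr 1
            omega
    rw [← hb'] at g6
    omega
  have hrowsL : ∀ j ∈ rw46 F m q i, 4 * b' ≤ j ∧ j + 4 * b' ≤ L := fun j hj => by
    have := hrows j hj
    omega
  have hcardq : ((rw46 F m q i).card : ℝ) ≤ ((2 ^ q : ℕ) : ℝ) := by
    have g1 : rw46 F m q i ⊆ Ico (i * 2 ^ q) (i * 2 ^ q + 2 ^ q) := by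
      have e1 : (i + 1) * 2 ^ q = i * 2 ^ q + 2 ^ q := by ring
      rw [← e1]
      exact inter_subset_right
    have g2 := card_le_card g1
    rw [Nat.card_Ico, Nat.add_sub_cancel_left] at g2
    exact_mod_cast g2
  obtain ⟨I, hI⟩ : ∃ I : ℝ, I = 1 / (Eb * Eb') := ⟨_, rfl⟩
  have hI0 : 0 ≤ I := by rw [hI]; positivity
  rw [← hI] at hq0
  obtain ⟨ρ, hρ⟩ : ∃ ρ : ℝ, ρ = ((2 ^ q : ℕ) : ℝ) := ⟨_, rfl⟩
  have hρ0 : 0 ≤ ρ := by rw [hρ]; positivity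
  rw [← hρ] at hcardq
  obtain ⟨X₂, hX₂⟩ : ∃ X₂ : ℝ, X₂ = n ^ (c / 64) * (ρ * b' * (4 * I) + ρ ^ 2 * (4 * I) ^ 2 +
      16 * (1 / Eb) ^ 2 * (6 * n ^ ι * (ρ ^ 2 / EE μ s (2 ^ q)))) + ρ ^ 2 * z := ⟨_, rfl⟩
  obtain ⟨X₁, hX₁⟩ : ∃ X₁ : ℝ, X₁ = n ^ (c / 64) * (4 * I) + z := ⟨_, rfl⟩
  have hEq0 : 0 < EE μ s (2 ^ q) := EE_pos _
  have hX₁0 : 0 ≤ X₁ := by
    rw [hX₁]
    have := (hpw (c / 64)).le
    positivity
  have hX₂0 : 0 ≤ X₂ := by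
    rw [hX₂]
    have := (hpw (c / 64)).le
    have := (hpw ι).le
    positivity
  have hbn : ((2 ^ p : ℕ) : ℝ) ≤ n := by
    rw [hn]
    exact_mod_cast Nat.pow_le_pow_right two_pos hpm
  have hρn : ((2 ^ q : ℕ) : ℝ) ≤ n := by
    rw [hn]
    exact_mod_cast Nat.pow_le_pow_right two_pos hqm
  -- the pairs of rows
  have hpairs : ∑ j ∈ rw46 F m q i, ∑ k ∈ (rw46 F m q i).filter (fun k => 64 * b' ≤ Nat.dist j k), (EE' μ s (Nat.dist j k))⁻¹ ≤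
      6 * n ^ ι * (ρ ^ 2 / EE μ s (2 ^ q)) := by
    have g1 : rw46 F m q i ⊆ Ico (i * 2 ^ q) (i * 2 ^ q + 2 ^ q) := by
      have e1 : (i + 1) * 2 ^ q = i * 2 ^ q + 2 ^ q := by ring
      rw [← e1]
      exact inter_subset_right
    have g2 := sum_inv23 R (S := rw46 F m q i) (c' := i * 2 ^ q) (ρ := 2 ^ q) g1 (Nat.one_le_two_pow)
      (P := fun j k => if 64 * b' ≤ Nat.dist j k then (EE' μ s (Nat.dist j k))⁻¹ else 0) fun j _ k _ => by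
        show (if 64 * b' ≤ Nat.dist j k then (EE' μ s (Nat.dist j k))⁻¹ else 0) ≤ _
        have hb'0 : 0 < b' := by rw [hb']; exact pow_pos two_pos _
        have g3 : 0 < EE μ s (max (Nat.dist j k) 1) := EE_pos _
        split_ifs with hjk
        · rw [max_eq_left (by omega), EE'_eq46, one_div]
        · positivity
    rw [← hρ] at g2
    refine le_trans (le_of_eq ?_) g2
    refine sum_congr rfl fun j _ => ?_
    rw [sum_filter]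
  have hcone : ∀ {δ' : ℝ}, (2 ≤ y33 μ s K m ∧ y33 μ s K m + M33 m + 1 ≤ L33 K m ∧ ∀ y : ℕ, y33 μ s K m ≤ y + 1 →
      y ≤ y33 μ s K m + M33 m → y ≤ L33 K m ∧ |(y : ℝ) - sl μ s * L33 K m| ≤ (L33 K m : ℝ) ^ δ' * wd' μ s (L33 K m)) →
      ∀ y ∈ ys33 μ s K m, y ≤ L33 K m ∧ |(y : ℝ) - sl μ s * L33 K m| ≤ (L33 K m : ℝ) ^ δ' * wd' μ s (L33 K m) := fun hc' y hy => by
    have hy2 := mem_Ico.1 (show y ∈ Ico (y33 μ s K m) (y33 μ s K m + M33 m) from hy)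
    exact hc'.2.2 y (by omega) (by omega)
  have k1 := hcone h1
  have k2 := hcone h2
  have k3 := hcone h3
  have k4 := hcone h4
  clear h1 h2 h3 h4 hcone
  subst hF
  subst hLd
  have hR1 : ∀ x : ℝ, 0 ≤ x → x ≤ 4 * I → n ^ (c / 64) * x ≤ n ^ (c / 64) * (4 * I) := fun x _ hx =>
    mul_le_mul_of_nonneg_left hx (hpw _).le
  refine ⟨BlE46 μ s (frm33 μ s K ι β γ) m q i l b0 b b' M₀, 544 * n ^ (c / 64) * I, 64 * X₁, 64 * X₂, n ^ (-A), ?_, ?_, ?_⟩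
  · refine ⟨by have := (hpw (c / 64)).le; positivity, ?_, by positivity, ?_, by positivity, ?_, (hpw _).le, ?_⟩
    · rw [hI, hEb, hEb', hb, hb', ← hn]
      exact num_g46 R hH hι1 le_rfl h7
    · rw [hX₁, hI, hEb, hEb', hb, hb', ← hn, hz]
      exact num_A46 R hH hbn le_rfl hc1 h7 le_rfl
    · have g1 := num_T46 R hH hρn hι1 (e := c / 64) (z := z) le_rfl hc1 h7 hz0 hz.le
      rw [hX₂, hI, hρ, hEb, hEb', hb, hb', ← hn]
      refine g1.trans (le_of_eq ?_)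
      push_cast
      rfl
    · rw [← hn]
  · rw [← hl]
    refine lb46 hyF (fun sm k => ?_) fun sm => ?_
    · have hcl : ((st46 (frm33 μ s K ι β γ) m q i l k).card : ℝ) ≤ (l : ℝ) := by
        exact_mod_cast card_st46 hl0 _ _
      refine avF_le46 (by positivity) fun y hy => ?_
      obtain ⟨hyL, hyc⟩ := k3 y hy
      have g1 := hP₃ (L33 K m) (by omega) (L33 K m) (by omega) le_rfl y hyL hyc M₀ h8 (eκ κ₃ q3) 0 (L33 K m) b' l₀ le_rfl hlL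
        (uA sm b0 b) (vA sm b0 b) (st46 (frm33 μ s K ι β γ) m q i l k) fun j hj => by
          rw [hl₀]
          exact rok46 hb04 hbb (hrowsL j (mem_filter.1 hj).1) sm
      rw [hLp] at g1
      refine g1.trans (mul_le_mul (pow_le_pow_left₀ (Nat.cast_nonneg _) hcl 2) ?_ ?_ (by positivity))
      · rw [hX₁]
        exact add_le_add (mul_le_mul_of_nonneg_left hq0 (hpw _).le) (eZ e₃ r3)
      · have := (hpw (c / 64)).le
        positivity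
    · refine avF_le46 hX₂0 fun y hy => ?_
      obtain ⟨hyL, hyc⟩ := k4 y hy
      have g1 := hP₄ (L33 K m) (by omega) (L33 K m) (by omega) le_rfl y hyL hyc M₀ h8 (eκ κ₄ q4) 0 (L33 K m) b' l₀ le_rfl hlL
        (uA sm b0 b) (vA sm b0 b) (rw46 (frm33 μ s K ι β γ) m q i) fun j hj => by
          rw [hl₀]
          exact rok46 hb04 hbb (hrowsL j hj) sm
      rw [hLp] at g1
      have hc0 : (0 : ℝ) ≤ ((rw46 (frm33 μ s K ι β γ) m q i).card : ℝ) := Nat.cast_nonneg _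
      have hbn0 : (0 : ℝ) ≤ (b' : ℝ) := Nat.cast_nonneg _
      have hEl2 : ((EE' μ s l₀)⁻¹) ^ 2 ≤ 16 * (1 / Eb) ^ 2 := by
        have g2 := pow_le_pow_left₀ (inv_pos.2 hEl0).le hEl' 2
        refine g2.trans (le_of_eq ?_)
        ring
      have t1 : ((rw46 (frm33 μ s K ι β γ) m q i).card : ℝ) * b' * ((EE' μ s l₀)⁻¹ * (EE' μ s b')⁻¹) ≤ ρ * b' * (4 * I) :=
        mul_le_mul (mul_le_mul_of_nonneg_right hcardq hbn0) hq0 hq00 (by positivity)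
      have t2 : ((rw46 (frm33 μ s K ι β γ) m q i).card : ℝ) ^ 2 * ((EE' μ s l₀)⁻¹ * (EE' μ s b')⁻¹) ^ 2 ≤ ρ ^ 2 * (4 * I) ^ 2 :=
        mul_le_mul (pow_le_pow_left₀ hc0 hcardq 2) (pow_le_pow_left₀ hq00 hq0 2) (by positivity) (by positivity)
      have t3 : ((EE' μ s l₀)⁻¹) ^ 2 * ∑ j ∈ rw46 (frm33 μ s K ι β γ) m q i,
          ∑ k ∈ (rw46 (frm33 μ s K ι β γ) m q i).filter (fun k => 64 * b' ≤ Nat.dist j k), (EE' μ s (Nat.dist j k))⁻¹ ≤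
          16 * (1 / Eb) ^ 2 * (6 * n ^ ι * (ρ ^ 2 / EE μ s (2 ^ q))) :=
        mul_le_mul hEl2 hpairs (sum_nonneg fun j _ => sum_nonneg fun k _ => (inv_pos.2 (lt_of_lt_of_le zero_lt_one (le_max_left _ _))).le)
          (by positivity)
      have t4 : ((rw46 (frm33 μ s K ι β γ) m q i).card : ℝ) ^ 2 * (3 * Real.exp (-((L33 K m : ℕ) : ℝ) ^ e₄) + 8 * Real.exp (-M₀)) ≤
          ρ ^ 2 * z := mul_le_mul (pow_le_pow_left₀ hc0 hcardq 2) (eZ e₄ r4) (by positivity) (by positivity)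
      refine g1.trans ?_
      rw [hX₂]
      exact add_le_add (mul_le_mul_of_nonneg_left (add_le_add (add_le_add t1 t2) t3) (hpw _).le) t4
  · rw [← hl, ← hb']
    intro t _ k D Mh hDm
    have hDa0 : 0 ≤ avF μ s (frm33 μ s K ι β γ) m (fun y ω S => |D y ω S|) := avF_nonneg hyF fun y _ ω S => abs_nonneg _
    have hne0 := (hpw (c / 64)).le
    rcases (st46 (frm33 μ s K ι β γ) m q i l k).eq_empty_or_nonempty with hJ0 | ⟨j₀, hj₀⟩
    · rw [hJ0, sum_empty]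
      have g1 : 0 ≤ avF μ s (frm33 μ s K ι β γ) m (fun y ω S => BlE46 μ s (frm33 μ s K ι β γ) m q i l b0 b b' M₀ k y ω S * |D y ω S|) :=
        avF_nonneg hyF fun y _ ω S => mul_nonneg (sum_nonneg fun j _ => mul_nonneg (by norm_num) (bl_nonneg _ _ _ _ _ _ _)) (abs_nonneg _)
      have g2 : 0 ≤ Mh * n ^ (-A) := mul_nonneg hDm.pos.le (hpw _).le
      have g3 : 0 ≤ (l : ℝ) * (544 * n ^ (c / 64) * I) * avF μ s (frm33 μ s K ι β γ) m (fun y ω S => |D y ω S|) := by positivity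
      linarith
    obtain ⟨cd, hcd⟩ : ∃ cd : ℝ, cd = ((st46 (frm33 μ s K ι β γ) m q i l k).card : ℝ) := ⟨_, rfl⟩
    have hcd0 : 0 ≤ cd := by rw [hcd]; exact Nat.cast_nonneg _
    have hcdl : cd ≤ l := by
      rw [hcd]
      exact_mod_cast card_st46 hl0 _ _
    obtain ⟨r, hr'⟩ : ∃ r : ℝ, r = n ^ (c / 64) * ((b' * (EE' μ s b')⁻¹ + cd * (EE' μ s l₀)⁻¹) * (EE' μ s b')⁻¹) := ⟨_, rfl⟩
    have hr0 : 0 ≤ r := by
      rw [hr', hEi]
      positivity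
    have hr8 : 8 * r ≤ l * (544 * n ^ (c / 64) * I) := by
      rw [hr', hI]
      exact rate46 hEb0 hEbb (by rw [hEi]; positivity) hEi.le hEl (inv_pos.2 hEl0).le (Nat.cast_nonneg _)
        (by rw [hbl]; push_cast; ring) hne0 hcdl
    have hJ : ∀ j ∈ st46 (frm33 μ s K ι β γ) m q i l k, j / l = k ∧ 4 * b' ≤ j ∧ j + 4 * b' ≤ L33 K m := fun j hj =>
      ⟨(mem_filter.1 hj).2, hrowsL j (mem_filter.1 hj).1⟩
    have hkl : k * l ≤ j₀ ∧ j₀ < k * l + l := by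
      have g1 := (hJ j₀ hj₀).1
      constructor
      · rw [← g1]
        exact Nat.div_mul_le_self j₀ l
      · have g3 : j₀ / l < k + 1 := by omega
        have := Nat.lt_mul_of_div_lt g3 hl0
        rwa [Nat.succ_mul] at this
    have hj4 := (hJ j₀ hj₀).2
    have hk1 : (k + 1) * l = k * l + l := by ring
    have hb'0 : 0 < b' := by omega
    have hsite : ∀ a : Bool × Bool × Bool, ∀ y ∈ (frm33 μ s K ι β γ).ys m, WPs μ s (L33 K m) y (ENNReal.ofReal r)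
        (ENNReal.ofReal (3 * n ^ (-B))) (st46 (frm33 μ s K ι β γ) m q i l k)
        (fun j η S => ind (TK μ s (L33 K m) True y (j - b') (j + b') (uA a.1 b0 b j) (vA a.1 b0 b j) M₀ η S ∧
          TK μ s (L33 K m) (a.2.2 = true) y 0 (L33 K m) (cA a.2.1 u b' j) (dA a.2.1 u b' j) M₀ η S ∧
            ¬ Lg μ s (L33 K m) y 0 (L33 K m) j b' (8 * M₀) η S)) (J46 l b' k) := by
      rintro ⟨sm, so, To⟩ y hy
      obtain ⟨w1, w2, w3, w4, w5, w6⟩ := win46 (u := u) hbl hl0 hb04 hbb hu hJ sm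
      rw [← hl₀] at w3 w4
      cases so
      · obtain ⟨hyL, hyc⟩ := k2 y hy
        have g1 := hP₂ (L33 K m) (by omega) (L33 K m) (by omega) le_rfl y hyL hyc M₀ h8 (eκ κ₂ q2) b' l₀ (k * l - b') hbL hlL
          (by omega) (st46 (frm33 μ s K ι β γ) m q i l k) w2 (uA sm b0 b) (vA sm b0 b) w4 (fun _ => 0) (fun _ => L33 K m) (fun j => j - u)
          w6 True (To = true)
        rw [hLp, ← hcd, ← hr'] at g1
        refine g1.mono le_rfl (ENNReal.ofReal_le_ofReal ?_) (fun j _ η S _ _ => le_rfl) (subL46 hl0 hb'0 (by omega))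
        have := eE e₂ r2
        have := e11
        linarith
      · obtain ⟨hyL, hyc⟩ := k1 y hy
        have g1 := hP₁ (L33 K m) (by omega) (L33 K m) (by omega) le_rfl y hyL hyc M₀ h8 (eκ κ₁ q1) b' l₀ ((k + 1) * l - 1 + b') hbL hlL
          (by rw [hk1]; omega) (by omega) (st46 (frm33 μ s K ι β γ) m q i l k) w1 (uA sm b0 b) (vA sm b0 b) w3 (fun _ => 0)
          (fun _ => L33 K m) (fun j => j + u) w5 True (To = true)
        rw [hLp, ← hcd, ← hr'] at g1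
        refine g1.mono le_rfl (ENNReal.ofReal_le_ofReal ?_) (fun j _ η S _ _ => le_rfl) (subR46 hl0)
        have := eE e₁ r1
        have := e11
        linarith
    have hfin := stretch46 (μ := μ) (s := s) (F := frm33 μ s K ι β γ) (m := m) hyF (M := M) (M₀ := M₀) (r := r) (e := 3 * n ^ (-B)) hM hr0
      (by have := (hpw (-B)).le; positivity) hsite hDm
    have g1 := mul_le_mul_of_nonneg_right hr8 hDa0
    have g2 : Mh * (8 * (3 * n ^ (-B))) ≤ Mh * n ^ (-A) := mul_le_mul_of_nonneg_left (by linarith) hDm.pos.le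
    rw [hb0, hb] at hfin ⊢
    refine hfin.trans (add_le_add (add_le_add g1 (le_of_eq rfl)) g2)

/-- **THE PRICE OF THE PRODUCTS `tj * ow46` AT THE CONCRETE FRAME.** -/
theorem PrE46 {c₁ C : ℝ} {n₀ : ℕ} (h : In μ s c₁ C n₀) (hk : KapLe96 (EE μ s) (1 / 4)) {K : ℕ} (hK : 32 ≤ K)
    {c₀ Θ δ c η : ℝ} (hR : RegP46 μ s c₀ Θ) (hδ : 0 < δ) (hc : 0 < c) (hc1 : c ≤ 1) (hcδ : c ≤ δ / 64) (hη : 0 ≤ η) :
    ∃ κ : ℝ, 0 < κ ∧ ∀ A : ℝ, Est fun ι β γ m => ∀ p p' q i : ℕ, Chg96 (EE μ s) Θ δ c η m p p' q →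
      i < 2 ^ (m - q) → ∀ M : ℝ, M ≤ ((2 ^ m : ℕ) : ℝ) ^ κ → ∀ u : ℕ, 4 * u ≤ 3 * 2 ^ p' →
        Pr46 μ s (frm33 μ s K ι β γ) (EE μ s) Θ c m p p' q i (c / 8) A fun _ j D =>
          avF μ s (frm33 μ s K ι β γ) m fun y ω S => |D y ω S| *
            (tj μ s (L33 K m) (Pn (L33 K m) y) (2 ^ (p - ⌈ι * (m : ℝ)⌉₊)) (2 ^ p) (2 ^ p') M ω j S *
              ow46 (wm μ s (L33 K m) (Pn (L33 K m) y) ω) u (2 ^ p') j M S) := by
  obtain ⟨κ, hκ, H⟩ := prE_core46 h hk hK hR hδ hc hc1 hcδ hη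
  exact ⟨κ, hκ, fun A => (H A).mono fun ι _ h1 => Sml.of fun β _ => Sml.of fun γ _ => h1 β γ⟩

/-- The same, the clipping level is chosen last. -/
theorem PrE46' {c₁ C : ℝ} {n₀ : ℕ} (h : In μ s c₁ C n₀) (hk : KapLe96 (EE μ s) (1 / 4)) {K : ℕ} (hK : 32 ≤ K)
    {c₀ Θ δ c η : ℝ} (hR : RegP46 μ s c₀ Θ) (hδ : 0 < δ) (hc : 0 < c) (hc1 : c ≤ 1) (hcδ : c ≤ δ / 64) (hη : 0 ≤ η) :
    ∃ κ : ℝ, 0 < κ ∧ ∀ A : ℝ, Est fun ι γ β m => ∀ p p' q i : ℕ, Chg96 (EE μ s) Θ δ c η m p p' q →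
      i < 2 ^ (m - q) → ∀ M : ℝ, M ≤ ((2 ^ m : ℕ) : ℝ) ^ κ → ∀ u : ℕ, 4 * u ≤ 3 * 2 ^ p' →
        Pr46 μ s (frm33 μ s K ι β γ) (EE μ s) Θ c m p p' q i (c / 8) A fun _ j D =>
          avF μ s (frm33 μ s K ι β γ) m fun y ω S => |D y ω S| *
            (tj μ s (L33 K m) (Pn (L33 K m) y) (2 ^ (p - ⌈ι * (m : ℝ)⌉₊)) (2 ^ p) (2 ^ p') M ω j S *
              ow46 (wm μ s (L33 K m) (Pn (L33 K m) y) ω) u (2 ^ p') j M S) := by
  obtain ⟨κ, hκ, H⟩ := prE_core46 h hk hK hR hδ hc hc1 hcδ hη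
  exact ⟨κ, hκ, fun A => (H A).mono fun ι _ h1 => Sml.of fun γ _ => Sml.of fun β _ => h1 β γ⟩

end Frame

end

end Pool.Agent.W_7d29a1_C0.Pr46
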