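import Pool.Agent.W_7d29a1_C0.NN1C

/-!
MP_7d29a1_pr, [CURV0] / [C0], leaf E5.8 (helper1): part 4.

`T4_neg`: the three levels functional does not see the sign of `g`. `row_own`: the frozen corner inequality with an own factor for both
signs `a = 1`, `a = - 1` of the row, in the letters of the model (`w` = the actual corner, `w - 2 a g` = the flipped one). `shP`: the term
(sh) without exchange: pair mass of the fibre times the resample of a third replica. `Ph_mono`: the own interval may be shortened.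
-/

set_option autoImplicit false
set_option linter.unusedSectionVars false

namespace Pool.W7d29a1.C0.NN1

open Finset MeasureTheory Pool.Agent.W_7d29a1_C0.Swap57 Pool.Agent.W_7d29a1_C0 Pool.Agent.W_7d29a1_C0.Mod92
open Pool.Agent.W_7d29a1_F Pool.Agent.W_7d29a1_X
open Pool.W7d29a1.C0 Pool.W7d29a1.C0.VT31 Pool.W7d29a1.C0.R43 Pool.W7d29a1.C0.S1 Pool.W7d29a1.C0.K1 Pool.W7d29a1.C0.O1

noncomputable section

theorem i1_mono' {A B : Prop} (h : A → B) : i1 A ≤ i1 B := by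
  by_cases hA : A
  · rw [i1_of hA, i1_of (h hA)]
  · rw [i1_zero hA]
    exact i1_nonneg _

theorem i1_le_one' (A : Prop) : i1 A ≤ 1 := by
  by_cases h : A
  · rw [i1_of h]
  · rw [i1_zero h]
    norm_num

variable {Q : Finset (Finset ℕ)} [Nonempty (Px Q)] {Y Z : Type*} [DecidableEq Y] [DecidableEq Z]
variable {w g : Px Q → ℝ} {M θ m : ℝ}

/-- **The three levels functional does not see the sign of `g`.** -/
theorem T4_neg (w : Px Q → ℝ) (p : Px Q → Y) (g : Px Q → ℝ) (δ : ℝ) (A : Px Q → ℝ) (x : Px Q) :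
    T4 w p (-g) δ A x = T4 w p g δ A x := by
  unfold T4
  refine cE_congr w p (fun y => ?_) x
  have e1 : upI (-g) δ y = dnI g δ y := by
    funext z
    unfold upI dnI
    refine if_congr ?_ rfl rfl
    simp only [Pi.neg_apply]
    constructor <;> intro h <;> linarith
  have e2 : dnI (-g) δ y = upI g δ y := by
    funext z
    unfold upI dnI
    refine if_congr ?_ rfl rfl
    simp only [Pi.neg_apply]
    constructor <;> intro h <;> linarith
  rw [e1, e2, mul_comm (cE w p (dnI g δ y) x)]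

theorem T4_sign {a : ℝ} (ha : a = 1 ∨ a = -1) (w : Px Q → ℝ) (p : Px Q → Y) (g : Px Q → ℝ) (δ : ℝ) (A : Px Q → ℝ) (x : Px Q) :
    T4 w p (a • g) δ A x = T4 w p g δ A x := by
  rcases ha with h | h
  · rw [h, one_smul]
  · rw [h, neg_one_smul, T4_neg]

/-- **Both corners, conditionally, in the letters of the model**: `w` = the actual corner, the tilt `t`, the sign `a`. -/
theorem cond_row {a : ℝ} (ha : a = 1 ∨ a = -1) (p : Px Q → Y) {A Φ : Px Q → ℝ} {E1 : ℝ} (hΦ : ∀ x, 0 ≤ Φ x) (hB : ∀ x, Φ x ≤ 1)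
    (hA0 : ∀ x, 0 ≤ A x) (hE1 : 0 ≤ E1) (hΦA : ∀ x, Φ x ≤ E1 * A x) (hg : ∀ x, |g x| ≤ M) {t δ : ℝ} (ht : |t| ≤ 1)
    (hδ : 0 ≤ δ) (x : Px Q) :
    cE (w + (t - a) • g) p Φ x ≤ Real.exp (2 * δ) * (cE w p Φ x + cE (w - (2 * a) • g) p Φ x) +
      min 1 (E1 * Real.exp (12 * M) * T4 w p g δ A x) := by
  have haa : a * a = 1 := by rcases ha with h | h <;> rw [h] <;> norm_num
  have h1a : |a| = 1 := by rcases ha with h | h <;> rw [h] <;> norm_num
  have hg' : ∀ x, |(a • g) x| ≤ M := fun x => by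
    rw [Pi.smul_apply, smul_eq_mul, abs_mul, h1a, one_mul]
    exact hg x
  have ht' : |a * t| ≤ 1 := by rw [abs_mul, h1a, one_mul]; exact ht
  have h := cond_own (w := w - a • g) (g := a • g) p hΦ hB hA0 hE1 (fun x => by rw [one_mul]; exact hΦA x) hg' ht' (τ := 1)
    (by norm_num) hδ x
  have e1 : w - a • g + (a * t) • a • g = w + (t - a) • g := by
    rw [smul_smul, show a * t * a = t * (a * a) by ring, haa, mul_one, sub_smul]
    abel
  have e2 : w - a • g + a • g = w := by abel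
  have e3 : w - a • g - a • g = w - (2 * a) • g := by
    rw [two_mul, add_smul]
    abel
  rw [one_smul, e1, e2, e3, T4_sign ha, one_mul] at h
  exact h

section Row

variable [SwQ Q] {c al be d : ℕ}

/-- **THE FROZEN CORNER INEQUALITY OF A ROW, WITH AN OWN FACTOR.** -/
theorem row_own {a : ℝ} (ha : a = 1 ∨ a = -1) (hab : al ≤ be) (hw : Wk c al be d w) (hl : Lk al be g) {H A Φ : Px Q → ℝ} {E1 : ℝ}
    (hH : Mp (pJ c d) H) (hH0 : ∀ S, 0 ≤ H S) (hΦ : ∀ x, 0 ≤ Φ x) (hB : ∀ x, Φ x ≤ 1)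
    (hA0 : ∀ x, 0 ≤ A x) (hE1 : 0 ≤ E1) (hΦA : ∀ x, Φ x ≤ E1 * A x) (hg : ∀ x, |g x| ≤ M) {t δ : ℝ} (ht : |t| ≤ 1)
    (hδ : 0 ≤ δ) :
    gm w (H * cE (w + (t - a) • g) (pJ c d) Φ) ≤
      Real.exp (2 * δ) * (gm w (H * Φ) + (gm (w - (2 * a) • g) (H * Φ) +
        gm w (fun S => H S * cE (w - (2 * a) • g) (pJ c d) Φ S * gm (w - (2 * a) • g) (NM c al be d S)))) +
      gm w (fun S => H S * min 1 (E1 * Real.exp (12 * M) * T4 w (pJ c d) g δ A S)) := by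
  have h1 : ∀ x, (H * cE (w + (t - a) • g) (pJ c d) Φ) x ≤ (Real.exp (2 * δ) • (H * cE w (pJ c d) Φ +
      H * cE (w - (2 * a) • g) (pJ c d) Φ) + fun S => H S * min 1 (E1 * Real.exp (12 * M) * T4 w (pJ c d) g δ A S)) x := by
    intro x
    have h := mul_le_mul_of_nonneg_left (cond_row ha (pJ c d) hΦ hB hA0 hE1 hΦA hg ht hδ x (w := w)) (hH0 x)
    simp only [Pi.mul_apply, Pi.add_apply, Pi.smul_apply, smul_eq_mul]
    linarith
  have h := gm_mono w h1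
  rw [gm_add, gm_smul, gm_add] at h
  have e1 : gm w (H * cE w (pJ c d) Φ) = gm w (H * Φ) := gm_mul_cE w hH _
  have h2 := gm_swap_line hab hw hl (H := H * cE (w - (2 * a) • g) (pJ c d) Φ) (hH.mul (cE_meas _ _ _))
    (fun S => mul_nonneg (hH0 S) (cE_nonneg _ _ hΦ S)) 0 (-(2 * a))
  have e2 : w + (-(2 * a)) • g = w - (2 * a) • g := by
    rw [neg_smul]
    abel
  have e3 : w + (0 : ℝ) • g = w := by
    rw [zero_smul, add_zero]
  rw [e2, e3, gm_mul_cE (w - (2 * a) • g) hH Φ] at h2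
  rw [e1] at h
  refine h.trans (add_le_add_left (mul_le_mul_of_nonneg_left (add_le_add_right h2 _) (Real.exp_pos _).le) _)

end Row

/-! ### Products -/

/-- The own interval may be shortened. -/
theorem Ph_mono {wi : Px Q → ℝ} {p : Px Q → Y} {q : Px Q → Z} {J : Finset ℕ} {L : ℕ → Px Q → ℝ} {o0 o1 o0' o1' : ℕ}
    (h0 : o0 ≤ o0') (h1 : o1' ≤ o1) (x : Px Q) : Ph w wi p q g m J L o0 o1 x ≤ Ph w wi p q g m J L o0' o1' x := by
  have k : ∀ y, i1 (Real.exp (-(5 * m)) ≤ mI w p o0 o1 y) ≤ i1 (Real.exp (-(5 * m)) ≤ mI w p o0' o1' y) := fun y =>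
    i1_mono' fun h => h.trans (cE_mono w p (fun z => NI_mono h0 h1 y z) y)
  unfold Ph
  refine add_le_add (cE_mono wi p (fun y => mul_le_mul_of_nonneg_right (k y) (i1_nonneg _)) x) ?_
  refine mul_le_mul_of_nonneg_left (sum_le_sum fun r _ => ?_) (inv_nonneg.2 (Nat.cast_nonneg _))
  exact cE_mono wi p (fun y => mul_le_mul_of_nonneg_right (k y) (i1_nonneg _)) x

/-- A pair mass in levels, from the tilt to the reference. -/
theorem pair_lv (hg : ∀ S, |g S| ≤ M) (hθ : |θ| ≤ 2) (hm : 8 * M ≤ m) (p : Px Q → Y) {χ : Px Q → Px Q → ℝ} (hχ : ∀ y z, 0 ≤ χ y z)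
    (hχ1 : ∀ y z, χ y z ≤ 1) (x : Px Q) :
    cE2 (w + θ • g) p χ x x ≤ i1 (Real.exp (-(5 * m)) ≤ cE2 w p χ x x) + Real.exp (-m) := by
  have hM : 0 ≤ M := (abs_nonneg _).trans (hg x)
  by_cases h : Real.exp (-(5 * m)) ≤ cE2 w p χ x x
  · rw [i1_of h]
    have := cE2_le_one (w + θ • g) p hχ1 x x
    linarith [Real.exp_pos (-m)]
  · rw [i1_zero h, zero_add]
    rw [not_le] at h
    have h1 := Pool.W7d29a1.C0.R43.cE2_tilt (tilt_bd hg hθ) p hχ x x (w := w)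
    refine h1.trans ((mul_le_mul_of_nonneg_left h.le (Real.exp_pos _).le).trans ?_)
    rw [← Real.exp_add]
    exact Real.exp_le_exp.2 (by linarith)

/-- The resamples alone, one row of the slab. -/
def Mc (w wi : Px Q → ℝ) (p : Px Q → Y) (q : Px Q → Z) (g : Px Q → ℝ) (m : ℝ) (J : Finset ℕ) (L : ℕ → Px Q → ℝ) (x : Px Q) : ℝ :=
  cE wi p (fun y => i1 (Real.exp (-(5 * m)) ≤ osc w q g y)) x +
    (J.card : ℝ)⁻¹ * ∑ r ∈ J, cE wi p (fun y => i1 (Real.exp (-(5 * m)) ≤ L r y)) x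

theorem Mc_nonneg {wi : Px Q → ℝ} {p : Px Q → Y} {q : Px Q → Z} {J : Finset ℕ} {L : ℕ → Px Q → ℝ} (x : Px Q) :
    0 ≤ Mc w wi p q g m J L x :=
  add_nonneg (cE_nonneg _ _ (fun _ => i1_nonneg _) _) (mul_nonneg (inv_nonneg.2 (Nat.cast_nonneg _))
    (sum_nonneg fun _ _ => cE_nonneg _ _ (fun _ => i1_nonneg _) _))

/-- **One row of the slab**, without own factor. -/
theorem mc_abs (hg : ∀ S, |g S| ≤ M) (hθ : |θ| ≤ 2) (hm : 8 * M ≤ m) {p : Px Q → Y} {q : Px Q → Z} {DD Lt L : Px Q → ℝ}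
    {T : Px Q → Prop} {D : ℕ} (hD2 : ∀ y, DD y ≤ 2 * M)
    (hT : ∀ y, T y → DD y ≤ 2 * M * Lt y + Real.exp m * (Real.exp m * osc (w + θ • g) q g y))
    (hL : ∀ y, Lt y ≤ Real.exp (4 * M) * L y) (x : Px Q)
    (hTm : cE (w + θ • g) p (ind fun y => ¬ T y) x ≤ ((D : ℝ) + 2) ^ 3 * Real.exp (-m)) :
    cE (w + θ • g) p DD x ≤ 2 * M * (cE (w + θ • g) p (fun y => i1 (Real.exp (-(5 * m)) ≤ osc w q g y)) x +
        cE (w + θ • g) p (fun y => i1 (Real.exp (-(5 * m)) ≤ L y)) x) + tn M m D := by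
  have hM : 0 ≤ M := (abs_nonneg _).trans (hg x)
  have h1 : ∀ y, DD y ≤ 2 * M * (i1 (Real.exp (-(5 * m)) ≤ osc w q g y) + i1 (Real.exp (-(5 * m)) ≤ L y)) +
      ((1 + 4 * M) * Real.exp (-m) + 2 * M * ind (fun y => ¬ T y) y) := by
    intro y
    have e0 := Real.exp_pos (-m)
    by_cases h : T y
    · have k := D_lv hM hm (hT y h) (hD2 y) (hL y) (osc_tilt' hg hθ q g y)
      have k2 : 0 ≤ 2 * M * ind (fun y => ¬ T y) y := mul_nonneg (by linarith) (ind_nonneg _ _)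
      have k3 : (1 + 2 * M) * Real.exp (-m) ≤ (1 + 4 * M) * Real.exp (-m) := mul_le_mul_of_nonneg_right (by linarith) e0.le
      linarith
    · have e : ind (fun y => ¬ T y) y = 1 := if_pos h
      rw [e]
      have n2 := i1_nonneg (Real.exp (-(5 * m)) ≤ osc w q g y)
      have n3 := i1_nonneg (Real.exp (-(5 * m)) ≤ L y)
      have k3 : 0 ≤ 2 * M * (i1 (Real.exp (-(5 * m)) ≤ osc w q g y) + i1 (Real.exp (-(5 * m)) ≤ L y)) :=
        mul_nonneg (by linarith) (add_nonneg n2 n3)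
      have k4 : 0 ≤ (1 + 4 * M) * Real.exp (-m) := by positivity
      linarith [hD2 y]
  have h2 := cE_mono (w + θ • g) p h1 x
  rw [cE_addf, cE_mulf, cE_addf, cE_addf, cE_constf, cE_mulf] at h2
  have h3 := mul_le_mul_of_nonneg_left hTm (show 0 ≤ 2 * M by linarith)
  unfold tn
  linarith

/-- **(sh) WITHOUT EXCHANGE**: the pair mass of the fibre at the reference weight, times the resamples. -/
theorem sh_pair (hg : ∀ S, |g S| ≤ M) (hθ : |θ| ≤ 2) (hm : 8 * M ≤ m) (p : Px Q → Y) {χ : Px Q → Px Q → ℝ} (hχ : ∀ y z, 0 ≤ χ y z)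
    (hχ1 : ∀ y z, χ y z ≤ 1) {F : Px Q → ℝ} (hF0 : ∀ y, 0 ≤ F y) (x : Px Q) {K T : ℝ} (hF1 : cE (w + θ • g) p F x ≤ K + T)
    (hF2 : cE (w + θ • g) p F x ≤ 2 * M + 2 * M) :
    cE2 (w + θ • g) p χ x x * cE (w + θ • g) p F x ≤
      i1 (Real.exp (-(5 * m)) ≤ cE2 w p χ x x) * K + (|T| + 4 * M * Real.exp (-m)) := by
  have hM : 0 ≤ M := (abs_nonneg _).trans (hg x)
  have e0 := Real.exp_pos (-m)
  have f0 : 0 ≤ cE (w + θ • g) p F x := cE_nonneg _ _ hF0 _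
  have h1 := mul_le_mul_of_nonneg_right (pair_lv hg hθ hm p hχ hχ1 x (w := w)) f0
  refine h1.trans ?_
  rw [add_mul]
  have h2 : i1 (Real.exp (-(5 * m)) ≤ cE2 w p χ x x) * cE (w + θ • g) p F x ≤
      i1 (Real.exp (-(5 * m)) ≤ cE2 w p χ x x) * K + |T| := by
    have n1 := i1_nonneg (Real.exp (-(5 * m)) ≤ cE2 w p χ x x)
    have n2 := i1_le_one' (Real.exp (-(5 * m)) ≤ cE2 w p χ x x)
    have k1 := mul_le_mul_of_nonneg_left hF1 n1
    have k2 : i1 (Real.exp (-(5 * m)) ≤ cE2 w p χ x x) * T ≤ |T| := by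
      calc _ ≤ i1 (Real.exp (-(5 * m)) ≤ cE2 w p χ x x) * |T| := mul_le_mul_of_nonneg_left (le_abs_self T) n1
        _ ≤ 1 * |T| := mul_le_mul_of_nonneg_right n2 (abs_nonneg _)
        _ = |T| := one_mul _
    rw [mul_add] at k1
    linarith
  have h3 : Real.exp (-m) * cE (w + θ • g) p F x ≤ 4 * M * Real.exp (-m) := by
    have := mul_le_mul_of_nonneg_left hF2 e0.le
    linarith
  linarith

section Fin

variable [SwQ Q] {al be c0 c1 d1 c d e0 D : ℕ}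

/-- **The resamples, right side.** -/
theorem mcR (hg : ∀ S, |g S| ≤ M) (hg2 : ∀ S T : Px Q, ps S al = ps T al → ps S be = ps T be → g S = g T) (hθ : |θ| ≤ 2)
    (hm : 8 * M ≤ m) (hw : ∀ t u, t ≤ u → Ex w t u) {p : Px Q → Y} (hp : Crs p (pJ c1 d1)) (h0 : c0 ≤ c1)
    (h2 : al ≤ be) (h4 : d1 ≤ D) {J : Finset ℕ} (hJ : J.Nonempty) (hJr : ∀ r ∈ J, be ≤ r ∧ r ≤ d1) (x : Px Q) :
    cE (w + θ • g) p (fun y => |g y - Cj (w + θ • g) (fun r => pJ c0 r) g J y|) x ≤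
      2 * M * Mc w (w + θ • g) p (pJ c1 d1) g m J (fun r => mI w (pJ c0 r) c1 al) x + tn M m D := by
  have h0' : (0 : ℝ) < J.card := Nat.cast_pos.2 hJ.card_pos
  have hl : Lk al be g := fun S S' h => hg2 S S' (h al le_rfl h2) (h be h2 le_rfl)
  have a2 : cE (w + θ • g) p (fun y => |g y - Cj (w + θ • g) (fun r => pJ c0 r) g J y|) x ≤
      (J.card : ℝ)⁻¹ * ∑ r ∈ J, cE (w + θ • g) p (Dr (w + θ • g) (pJ c0 r) g) x := by
    refine (cE_mono (w + θ • g) p (fun y => abs_sub_Cj (w + θ • g) (fun r => pJ c0 r) g hJ y) x).trans (le_of_eq ?_)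
    rw [cE_mulf, cE_sumf]
  have s1 : ∀ r ∈ J, cE (w + θ • g) p (Dr (w + θ • g) (pJ c0 r) g) x ≤
      2 * M * (cE (w + θ • g) p (fun y => i1 (Real.exp (-(5 * m)) ≤ osc w (pJ c1 d1) g y)) x +
        cE (w + θ • g) p (fun y => i1 (Real.exp (-(5 * m)) ≤ mI w (pJ c0 r) c1 al y)) x) + tn M m D := fun r hr => by
    obtain ⟨r1, r2⟩ := hJr r hr
    have hwi : ∀ a, c1 ≤ a → a ≤ al → Ex (w + θ • g) a r := fun a _ ha =>
      (hw a r (by omega)).add ((ex_Lk hl (by omega) ha r1).smul θ)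
    refine mc_abs (q := pJ c1 d1) hg hθ hm (DD := Dr (w + θ • g) (pJ c0 r) g) (Lt := mI (w + θ • g) (pJ c0 r) c1 al)
      (T := TT (w + θ • g) (pJ c1 d1) (Real.exp (-m)) c1 al r al be) (Dr_le hg _ _) (fun y hT => ?_)
      (mI_tilt hg hθ _ _ _) x (TT_le _ hp (Real.exp_pos _).le (by omega) (by omega) (by omega) (by omega) x)
    have k1 := oscR hl hg h0 h2 r1 r2 hwi (Real.exp_pos (-m)) y hT.1
    have k2 := Dr_le_osc (w + θ • g) (pJ c1 d1) hg2 (Real.exp_pos (-m)) y hT.2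
    rw [Real.exp_neg, inv_inv] at k1 k2
    exact k1.trans (add_le_add_right (mul_le_mul_of_nonneg_left k2 (Real.exp_pos _).le) _)
  refine a2.trans ((mul_le_mul_of_nonneg_left (sum_le_sum s1) (inv_nonneg.2 h0'.le)).trans (le_of_eq ?_))
  unfold Mc
  rw [sum_add_distrib, ← mul_sum, sum_add_distrib, sum_const, sum_const, nsmul_eq_mul, nsmul_eq_mul]
  field_simp

/-- **The resamples, left side.** -/
theorem mcL (hg : ∀ S, |g S| ≤ M) (hg2 : ∀ S T : Px Q, ps S al = ps T al → ps S be = ps T be → g S = g T) (hθ : |θ| ≤ 2)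
    (hm : 8 * M ≤ m) (hw : ∀ t u, t ≤ u → Ex w t u) {p : Px Q → Y} (hp : Crs p (pJ c1 d1)) (h0 : d1 ≤ e0) (h1 : be ≤ d1)
    (h2 : al ≤ be) (h4 : d1 ≤ D) {J : Finset ℕ} (hJ : J.Nonempty) (hJr : ∀ r ∈ J, c1 ≤ r ∧ r ≤ al) (x : Px Q) :
    cE (w + θ • g) p (fun y => |g y - Cj (w + θ • g) (fun r => pJ r e0) g J y|) x ≤
      2 * M * Mc w (w + θ • g) p (pJ c1 d1) g m J (fun r => mI w (pJ r e0) be d1) x + tn M m D := by
  have h0' : (0 : ℝ) < J.card := Nat.cast_pos.2 hJ.card_pos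
  have hl : Lk al be g := fun S S' h => hg2 S S' (h al le_rfl h2) (h be h2 le_rfl)
  have a2 : cE (w + θ • g) p (fun y => |g y - Cj (w + θ • g) (fun r => pJ r e0) g J y|) x ≤
      (J.card : ℝ)⁻¹ * ∑ r ∈ J, cE (w + θ • g) p (Dr (w + θ • g) (pJ r e0) g) x := by
    refine (cE_mono (w + θ • g) p (fun y => abs_sub_Cj (w + θ • g) (fun r => pJ r e0) g hJ y) x).trans (le_of_eq ?_)
    rw [cE_mulf, cE_sumf]
  have s1 : ∀ r ∈ J, cE (w + θ • g) p (Dr (w + θ • g) (pJ r e0) g) x ≤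
      2 * M * (cE (w + θ • g) p (fun y => i1 (Real.exp (-(5 * m)) ≤ osc w (pJ c1 d1) g y)) x +
        cE (w + θ • g) p (fun y => i1 (Real.exp (-(5 * m)) ≤ mI w (pJ r e0) be d1 y)) x) + tn M m D := fun r hr => by
    obtain ⟨r1, r2⟩ := hJr r hr
    have hwi : ∀ a, be ≤ a → a ≤ d1 → Ex (w + θ • g) r a := fun a ha _ =>
      (hw r a (by omega)).add ((ex_Lk hl (by omega) r2 ha).smul θ)
    refine mc_abs (q := pJ c1 d1) hg hθ hm (DD := Dr (w + θ • g) (pJ r e0) g) (Lt := mI (w + θ • g) (pJ r e0) be d1)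
      (T := TT (w + θ • g) (pJ c1 d1) (Real.exp (-m)) be d1 r al be) (Dr_le hg _ _) (fun y hT => ?_)
      (mI_tilt hg hθ _ _ _) x (TT_le _ hp (Real.exp_pos _).le (by omega) (by omega) (by omega) (by omega) x)
    have k1 := oscL hl hg h0 h2 r2 r1 hwi (Real.exp_pos (-m)) y hT.1
    have k2 := Dr_le_osc (w + θ • g) (pJ c1 d1) hg2 (Real.exp_pos (-m)) y hT.2
    rw [Real.exp_neg, inv_inv] at k1 k2
    exact k1.trans (add_le_add_right (mul_le_mul_of_nonneg_left k2 (Real.exp_pos _).le) _)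
  refine a2.trans ((mul_le_mul_of_nonneg_left (sum_le_sum s1) (inv_nonneg.2 h0'.le)).trans (le_of_eq ?_))
  unfold Mc
  rw [sum_add_distrib, ← mul_sum, sum_add_distrib, sum_const, sum_const, nsmul_eq_mul, nsmul_eq_mul]
  field_simp

theorem abs_sub_Cj_le (hg : ∀ S, |g S| ≤ M) {Y' : Type*} [DecidableEq Y'] (wi : Px Q → ℝ) (pm : ℕ → Px Q → Y') {J : Finset ℕ}
    (hJ : J.Nonempty) (y : Px Q) : |g y - Cj wi pm g J y| ≤ 2 * M := by
  have h0 : (0 : ℝ) < J.card := Nat.cast_pos.2 hJ.card_pos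
  refine (abs_sub_Cj wi pm g hJ y).trans ?_
  have h := mul_le_mul_of_nonneg_left (sum_le_sum fun r (_ : r ∈ J) => Dr_le hg wi (pm r) y) (inv_nonneg.2 h0.le)
  refine h.trans (le_of_eq ?_)
  rw [sum_const, nsmul_eq_mul]
  field_simp

/-- **(sh), right side, without exchange.** -/
theorem shPR (hg : ∀ S, |g S| ≤ M) (hg2 : ∀ S T : Px Q, ps S al = ps T al → ps S be = ps T be → g S = g T) (hθ : |θ| ≤ 2)
    (hm : 8 * M ≤ m) (hw : ∀ t u, t ≤ u → Ex w t u) {p : Px Q → Y} (hp : Crs p (pJ c1 d1)) (h0 : c0 ≤ c1)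
    (h2 : al ≤ be) (h4 : d1 ≤ D) {J : Finset ℕ} (hJ : J.Nonempty) (hJr : ∀ r ∈ J, be ≤ r ∧ r ≤ d1)
    {χ : Px Q → Px Q → ℝ} (hχ : ∀ y z, 0 ≤ χ y z) (hχ1 : ∀ y z, χ y z ≤ 1) (x : Px Q) :
    cE2 (w + θ • g) p χ x x * cE (w + θ • g) p (fun y => |g y - Cj (w + θ • g) (fun r => pJ c0 r) g J y|) x ≤
      i1 (Real.exp (-(5 * m)) ≤ cE2 w p χ x x) *
        (2 * M * Mc w (w + θ • g) p (pJ c1 d1) g m J (fun r => mI w (pJ c0 r) c1 al) x) + (tn M m D + 4 * M * Real.exp (-m)) := by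
  have hM : 0 ≤ M := (abs_nonneg _).trans (hg x)
  have h5 := mcR hg hg2 hθ hm hw hp h0 h2 h4 hJ hJr x
  have h6 := cE_mono (w + θ • g) p (fun y => abs_sub_Cj_le hg (w + θ • g) (fun r => pJ c0 r) hJ y) x
  rw [cE_constf] at h6
  have h7 := sh_pair hg hθ hm p hχ hχ1 (F := fun y => |g y - Cj (w + θ • g) (fun r => pJ c0 r) g J y|) (fun _ => abs_nonneg _) x h5
    (by linarith)
  have h8 : |tn M m D| = tn M m D := abs_of_nonneg (by unfold tn; positivity)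
  rwa [h8] at h7

/-- **(sh), left side, without exchange.** -/
theorem shPL (hg : ∀ S, |g S| ≤ M) (hg2 : ∀ S T : Px Q, ps S al = ps T al → ps S be = ps T be → g S = g T) (hθ : |θ| ≤ 2)
    (hm : 8 * M ≤ m) (hw : ∀ t u, t ≤ u → Ex w t u) {p : Px Q → Y} (hp : Crs p (pJ c1 d1)) (h0 : d1 ≤ e0) (h1 : be ≤ d1)
    (h2 : al ≤ be) (h4 : d1 ≤ D) {J : Finset ℕ} (hJ : J.Nonempty) (hJr : ∀ r ∈ J, c1 ≤ r ∧ r ≤ al)
    {χ : Px Q → Px Q → ℝ} (hχ : ∀ y z, 0 ≤ χ y z) (hχ1 : ∀ y z, χ y z ≤ 1) (x : Px Q) :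
    cE2 (w + θ • g) p χ x x * cE (w + θ • g) p (fun y => |g y - Cj (w + θ • g) (fun r => pJ r e0) g J y|) x ≤
      i1 (Real.exp (-(5 * m)) ≤ cE2 w p χ x x) *
        (2 * M * Mc w (w + θ • g) p (pJ c1 d1) g m J (fun r => mI w (pJ r e0) be d1) x) + (tn M m D + 4 * M * Real.exp (-m)) := by
  have hM : 0 ≤ M := (abs_nonneg _).trans (hg x)
  have h5 := mcL hg hg2 hθ hm hw hp h0 h1 h2 h4 hJ hJr x
  have h6 := cE_mono (w + θ • g) p (fun y => abs_sub_Cj_le hg (w + θ • g) (fun r => pJ r e0) hJ y) x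
  rw [cE_constf] at h6
  have h7 := sh_pair hg hθ hm p hχ hχ1 (F := fun y => |g y - Cj (w + θ • g) (fun r => pJ r e0) g J y|) (fun _ => abs_nonneg _) x h5
    (by linarith)
  have h8 : |tn M m D| = tn M m D := abs_of_nonneg (by unfold tn; positivity)
  rwa [h8] at h7

end Fin

end

end Pool.W7d29a1.C0.NN1
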