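import Pool.Agent.W_7d29a1_C0.OwnS27
import Pool.Agent.W_7d29a1_C0.OkE15C

/-!
MP_7d29a1_pr, [CURV0] / [C0], leaf E0C: THE ERROR OF THREE LEVELS WITH AN OWN FACTOR, INTEGRATED. (helper27)

`int_okE`: over the environments and the signs, for a weight `F` which is a function of the outside of the block `[c3, e3)`: the mean of
`F min 1 (C T4)` at the window of the row `j` is at most the means of `F 1[¬ okE]` for the two margins (in the form of `okE_fullR`,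
`okE_fullL`), plus a number times the mean of `F`, plus the mean of `F 1[the window leaves the cone]`, plus the environments out of `GwW`.
`int_okE_mI`, `int_okE_tau`: with the pieces of the own region, own factor = the mass of the paths apart, or any factor in `[0, 1]` which is
zero off `Tau` (given the outside of the same block).
-/

set_option autoImplicit false
set_option linter.unusedSectionVars false

namespace Pool.W7d29a1.C0.O1r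

open Finset MeasureTheory Filter Pool.Agent.W_7d29a1_C0.Swap57 Pool.Agent.W_7d29a1_C0 Pool.Agent.W_7d29a1_C0.Mod92
open Pool.Agent.W_7d29a1_F Pool.Agent.W_7d29a1_X
open Pool.W7d29a1.C0 Pool.W7d29a1.C0.VT31 Pool.W7d29a1.C0.R43 Pool.W7d29a1.C0.S1 Pool.W7d29a1.C0.K1
open Pool.W7d29a1.C0.O1 hiding T4_le_pairs T4A_small T4_small fibR fibL gm_gen
open Pool.Agent.W_7d29a1_C0.Blk18 (Full full_Pn)
open Pool.Agent.W_7d29a1_C0.GwA50 (GwW)
open Pool.W7d29a1.C0.Bd73 (nCn nCn_nonneg)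
open Pool.Agent.W_7d29a1_C0.P15 (iE iE_mem iE_one iE_zero iE_meas meas_okE meas_bI)

noncomputable section

variable {μ : Measure ℝ} {s : ℝ} {N : ℕ}

theorem meas_pr {Φ : Env × Finset ℕ → ℝ} (hm : ∀ A, Measurable fun η => Φ (η, A)) : Measurable Φ := by
  intro U hU
  have e : Φ ⁻¹' U = ⋃ A : Finset ℕ, ((fun η => Φ (η, A)) ⁻¹' U) ×ˢ {A} := by
    ext ⟨η, A⟩
    simp
  rw [e]
  exact MeasurableSet.iUnion fun A => (hm A hU).prod (MeasurableSet.singleton A)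

theorem int_pr [IsProbabilityMeasure μ] {Φ : Env × Finset ℕ → ℝ} (hm : ∀ A, Measurable fun η => Φ (η, A)) {K : ℝ}
    (h0 : ∀ ω, 0 ≤ Φ ω) (hK : ∀ ω, Φ ω ≤ K) : Integrable Φ (Pm μ N) :=
  Integrable.of_bound (meas_pr hm).aestronglyMeasurable K (Eventually.of_forall fun ω => by
    rw [Real.norm_eq_abs, abs_of_nonneg (h0 ω)]
    exact hK ω)

open Classical in
/-- The probability of a set of environments. -/
theorem int_out [IsProbabilityMeasure μ] {G : Set Env} (hG : MeasurableSet G) :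
    ∫ ω, (if ω.1 ∈ G then (0 : ℝ) else 1) ∂(Pm μ N) = (law μ Gᶜ).toReal := by
  have hm : ∀ A : Finset ℕ, Measurable fun η : Env => (if ((η, A) : Env × Finset ℕ).1 ∈ G then (0 : ℝ) else 1) := fun A =>
    Measurable.ite hG measurable_const measurable_const
  have e1 : ∀ A : Finset ℕ, ∫ η, (if ((η, A) : Env × Finset ℕ).1 ∈ G then (0 : ℝ) else 1) ∂(law μ) = (law μ Gᶜ).toReal :=
    fun A => by
      have e2 : (fun η : Env => (if ((η, A) : Env × Finset ℕ).1 ∈ G then (0 : ℝ) else 1)) = Gᶜ.indicator 1 := by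
        funext η
        by_cases h : η ∈ G
        · rw [Set.indicator_of_notMem (by simpa using h)]
          exact if_pos h
        · rw [Set.indicator_of_mem (by simpa using h)]
          exact if_neg h
      rw [e2, integral_indicator_one hG.compl]
      rfl
  rw [int_Pm (fun A _ => Integrable.of_bound (hm A).aestronglyMeasurable 1 (Eventually.of_forall fun η => by
    rw [Real.norm_eq_abs]
    split_ifs <;> norm_num)) hm]
  simp only [e1]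
  rw [sum_const, card_powerset, card_range, nsmul_eq_mul]
  push_cast
  rw [← mul_assoc, inv_mul_cancel₀ (by positivity), one_mul]

theorem gm_01 {X : Type*} [Fintype X] [Nonempty X] (w : X → ℝ) {f : X → ℝ} {K : ℝ} (h0 : ∀ x, 0 ≤ f x) (hK : ∀ x, f x ≤ K) :
    0 ≤ gm w f ∧ gm w f ≤ K := by
  refine ⟨gm_nonneg w h0, ?_⟩
  have h1 := gm_mono w hK
  rwa [gm_const] at h1

variable {y : ℕ}

theorem upI_m {g : Env → Px (Pn N y) → ℝ} (hg : ∀ S, Measurable fun ω => g ω S) (δ : ℝ) (u v : Px (Pn N y)) :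
    Measurable fun ω => upI (g ω) δ u v := by
  unfold upI
  exact Measurable.ite (measurableSet_lt ((hg u).add measurable_const) (hg v)) measurable_const measurable_const

theorem dnI_m {g : Env → Px (Pn N y) → ℝ} (hg : ∀ S, Measurable fun ω => g ω S) (δ : ℝ) (u v : Px (Pn N y)) :
    Measurable fun ω => dnI (g ω) δ u v := by
  unfold dnI
  exact Measurable.ite (measurableSet_lt (hg v) ((hg u).sub measurable_const)) measurable_const measurable_const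

/-- `T4` of the window is measurable. -/
theorem meas_T4 {Y : Type*} [DecidableEq Y] (p : Px (Pn N y) → Y) (δ B t : ℝ) (b j : ℕ) {A : Env × Finset ℕ → Px (Pn N y) → ℝ}
    (hA : ∀ S x, Measurable fun η => A (η, S) x) (S : Finset ℕ) (x : Px (Pn N y)) :
    Measurable fun η : Env => T4 (wm μ s N (Pn N y) (η, S)) p (gg μ s (Pn N y) δ B b (η, S) j) t (A (η, S)) x := by
  have : Nonempty (Px (Pn N y)) := ⟨x⟩
  unfold T4
  refine meas_cE (w := fun η => lw μ s η N (Pn N y)) meas_lw (fun u => (hA S u).mul ?_) _ x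
  exact (meas_cE (w := fun η => lw μ s η N (Pn N y)) meas_lw
      (fun z => upI_m (g := fun η => gj μ s η δ B b j (sg S j)) (fun S' => meas_gj δ B b j _ S') t u z) _ x).mul
    (meas_cE (w := fun η => lw μ s η N (Pn N y)) meas_lw
      (fun z => dnI_m (g := fun η => gj μ s η δ B b j (sg S j)) (fun S' => meas_gj δ B b j _ S') t u z) _ x)

/-- **THE ERROR OF THREE LEVELS WITH AN OWN FACTOR, INTEGRATED.** -/
theorem int_okE [IsProbabilityMeasure μ] (hyN : y ≤ N) {κ δ δ₁ ε c' : ℝ} {G : Set Env} (hGm : MeasurableSet G)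
    (hG : ∀ η ∈ G, GwW μ s N κ δ δ₁ ε c' η) {b j : ℕ} (hj : j + b ≤ N)
    (hk1 : (N : ℝ) ^ κ ≤ ((j - (j - b) : ℕ) : ℝ)) (hk2 : (N : ℝ) ^ κ ≤ b) {B : ℝ} (hB : 0 ≤ B)
    {c3 e3 : ℕ} (hc3 : c3 ≤ j - b) (he3 : j + b ≤ e3) {t : ℝ} (ht : 0 < t) {g0 g1 : ℕ} (hg : g1 ≤ j - b ∨ j + b ≤ g0)
    {A : Env × Finset ℕ → Px (Pn N y) → ℝ} (hA0 : ∀ ω x, 0 ≤ A ω x) (hA1' : ∀ ω x, A ω x ≤ 1)
    (hAm : ∀ S x, Measurable fun η => A (η, S) x)
    {Bo : Env × Finset ℕ → Px (Pn N y) → Prop} (hBm : ∀ S x, MeasurableSet {η : Env | Bo (η, S) x}) {eo : ℝ} (heo : 0 ≤ eo)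
    (hBA : ∀ ω S0, cE (wm μ s N (Pn N y) ω) (pJ c3 e3) (ind (Bo ω)) S0 * cE (wm μ s N (Pn N y) ω) (pJ c3 e3) (A ω) S0 ≤ eo)
    {q : ℕ} {d e1 d3 : ℝ}
    {a1 m1 a2 m2 : ℕ} (hA1 : j - b ≤ a1) (hA1e : en a1 m1 q ≤ j) (hA2 : j - b ≤ a2) (hA2e : en a2 m2 q ≤ j)
    {b1 n1 b2 n2 : ℕ} (hB1 : j ≤ b1) (hB1e : en b1 n1 q ≤ j + b) (hB2 : j ≤ b2) (hB2e : en b2 n2 q ≤ j + b)
    (hd : 0 ≤ d) (he : 0 ≤ e1) (hd3 : 0 ≤ d3) {F : Env × Finset ℕ → Px (Pn N y) → ℝ} (hF0 : ∀ ω x, 0 ≤ F ω x) {K0 : ℝ}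
    (hFK : ∀ ω x, F ω x ≤ K0) (hFm : ∀ S x, Measurable fun η => F (η, S) x) (hFp : ∀ ω, Mp (pJ c3 e3) (F ω)) {C : ℝ}
    (hC : 0 ≤ C) :
    ∫ ω, gm (wm μ s N (Pn N y) ω) (fun x => F ω x * min 1 (C * T4 (wm μ s N (Pn N y) ω) (pJ c3 e3)
        (gg μ s (Pn N y) δ B b ω j) t (A ω) x)) ∂(Pm μ N) ≤
      ∫ ω, gm (wm μ s N (Pn N y) ω) (fun x => F ω x * iE (fun ω x =>
        ¬ okE (wm μ s N (Pn N y) ω) (pJ c3 e3) (Bo ω) q d e1 d3 g0 g1 a1 m1 a2 m2 x) ω x) ∂(Pm μ N) +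
      ∫ ω, gm (wm μ s N (Pn N y) ω) (fun x => F ω x * iE (fun ω x =>
        ¬ okE (wm μ s N (Pn N y) ω) (pJ c3 e3) (Bo ω) q d e1 d3 g0 g1 b1 n1 b2 n2 x) ω x) ∂(Pm μ N) +
      C * (Kap eo (Real.exp ((N : ℝ) ^ ε)) t q d e1 d3 + 6 / t * Real.exp (-(N : ℝ) ^ c')) *
        ∫ ω, gm (wm μ s N (Pn N y) ω) (F ω) ∂(Pm μ N) +
      C * (6 / t) * B * ∫ ω, gm (wm μ s N (Pn N y) ω) (fun x => F ω x * nCn μ s δ₁ (j - b) (j + b) x) ∂(Pm μ N) +
      K0 * (law μ Gᶜ).toReal := by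
  classical
  have hne : Nonempty (Px (Pn N y)) := ne_Pn hyN
  have hK0 : 0 ≤ K0 := (hF0 (fun _ => 0, ∅) hne.some).trans (hFK _ _)
  set w : Env × Finset ℕ → Px (Pn N y) → ℝ := fun ω => wm μ s N (Pn N y) ω with hw
  obtain ⟨EA, hEA⟩ : ∃ EA : Env × Finset ℕ → Px (Pn N y) → Prop, EA = fun ω x =>
    ¬ okE (w ω) (pJ c3 e3) (Bo ω) q d e1 d3 g0 g1 a1 m1 a2 m2 x := ⟨_, rfl⟩
  obtain ⟨EB, hEB⟩ : ∃ EB : Env × Finset ℕ → Px (Pn N y) → Prop, EB = fun ω x =>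
    ¬ okE (w ω) (pJ c3 e3) (Bo ω) q d e1 d3 g0 g1 b1 n1 b2 n2 x := ⟨_, rfl⟩
  rw [← hEA, ← hEB]
  have mEA : ∀ S x, Measurable fun η => iE EA (η, S) x := fun S x => iE_meas (fun S x => by
    rw [hEA]
    exact (meas_okE c3 e3 hBm q d e1 d3 g0 g1 a1 m1 a2 m2 S x).compl) S x
  have mEB : ∀ S x, Measurable fun η => iE EB (η, S) x := fun S x => iE_meas (fun S x => by
    rw [hEB]
    exact (meas_okE c3 e3 hBm q d e1 d3 g0 g1 b1 n1 b2 n2 S x).compl) S x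
  -- the five integrands
  set T : Env × Finset ℕ → Px (Pn N y) → ℝ := fun ω x => min 1 (C * T4 (w ω) (pJ c3 e3) (gg μ s (Pn N y) δ B b ω j) t (A ω) x)
    with hT
  have T0 : ∀ ω x, 0 ≤ T ω x ∧ T ω x ≤ 1 := fun ω x =>
    ⟨le_min zero_le_one (mul_nonneg hC (T4_nonneg (hA0 ω) x)), min_le_left _ _⟩
  have mT : ∀ S x, Measurable fun η => T (η, S) x := fun S x =>
    measurable_const.min ((meas_T4 (pJ c3 e3) δ B t b j hAm S x).const_mul C)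
  have mgm : ∀ (f : Env × Finset ℕ → Px (Pn N y) → ℝ), (∀ S x, Measurable fun η => f (η, S) x) →
      ∀ S, Measurable fun η => gm (w (η, S)) (f (η, S)) := fun f hf S =>
    meas_gm (w := fun η => lw μ s η N (Pn N y)) meas_lw (fun x => hf S x)
  have n01 : ∀ x : Px (Pn N y), 0 ≤ nCn μ s δ₁ (j - b) (j + b) x ∧ nCn μ s δ₁ (j - b) (j + b) x ≤ 1 := fun x => by
    refine ⟨nCn_nonneg _ _ _ _ _ _, ?_⟩
    unfold nCn
    split_ifs <;> norm_num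
  have bd : ∀ (u : Env × Finset ℕ → Px (Pn N y) → ℝ), (∀ ω x, 0 ≤ u ω x ∧ u ω x ≤ 1) → ∀ ω,
      0 ≤ gm (w ω) (fun x => F ω x * u ω x) ∧ gm (w ω) (fun x => F ω x * u ω x) ≤ K0 := fun u hu ω =>
    gm_01 (w ω) (fun x => mul_nonneg (hF0 ω x) (hu ω x).1) fun x =>
      (mul_le_of_le_one_right (hF0 ω x) (hu ω x).2).trans (hFK ω x)
  have bF : ∀ ω, 0 ≤ gm (w ω) (F ω) ∧ gm (w ω) (F ω) ≤ K0 := fun ω => gm_01 (w ω) (hF0 ω) (hFK ω)
  have iT : Integrable (fun ω => gm (w ω) (fun x => F ω x * T ω x)) (Pm μ N) :=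
    int_pr (mgm (fun ω x => F ω x * T ω x) fun S x => (hFm S x).mul (mT S x)) (fun ω => (bd T T0 ω).1) fun ω => (bd T T0 ω).2
  have iA : Integrable (fun ω => gm (w ω) (fun x => F ω x * iE EA ω x)) (Pm μ N) :=
    int_pr (mgm (fun ω x => F ω x * iE EA ω x) fun S x => (hFm S x).mul (mEA S x)) (fun ω => (bd _ (iE_mem EA) ω).1) fun ω => (bd _ (iE_mem EA) ω).2
  have iB : Integrable (fun ω => gm (w ω) (fun x => F ω x * iE EB ω x)) (Pm μ N) :=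
    int_pr (mgm (fun ω x => F ω x * iE EB ω x) fun S x => (hFm S x).mul (mEB S x)) (fun ω => (bd _ (iE_mem EB) ω).1) fun ω => (bd _ (iE_mem EB) ω).2
  have iF : Integrable (fun ω => gm (w ω) (F ω)) (Pm μ N) :=
    int_pr (mgm F hFm) (fun ω => (bF ω).1) fun ω => (bF ω).2
  have iN : Integrable (fun ω => gm (w ω) (fun x => F ω x * nCn μ s δ₁ (j - b) (j + b) x)) (Pm μ N) :=
    int_pr (mgm (fun ω x => F ω x * nCn μ s δ₁ (j - b) (j + b) x) fun S x => (hFm S x).mul measurable_const) (fun ω => (bd (fun _ x => nCn μ s δ₁ (j - b) (j + b) x)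
      (fun _ x => n01 x) ω).1) fun ω => (bd (fun _ x => nCn μ s δ₁ (j - b) (j + b) x) (fun _ x => n01 x) ω).2
  have iO : Integrable (fun ω : Env × Finset ℕ => if ω.1 ∈ G then (0 : ℝ) else 1) (Pm μ N) :=
    int_pr (fun S => Measurable.ite hGm measurable_const measurable_const) (fun ω => by split_ifs <;> norm_num) (K := 1)
      fun ω => by split_ifs <;> norm_num
  set k1 : ℝ := C * (Kap eo (Real.exp ((N : ℝ) ^ ε)) t q d e1 d3 + 6 / t * Real.exp (-(N : ℝ) ^ c')) with hk1'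
  set k2 : ℝ := C * (6 / t) * B with hk2'
  have hKap : 0 ≤ Kap eo (Real.exp ((N : ℝ) ^ ε)) t q d e1 d3 := by
    unfold Kap
    positivity
  have k10 : 0 ≤ k1 := by positivity
  have k20 : 0 ≤ k2 := by positivity
  have key : ∀ ω, gm (w ω) (fun x => F ω x * T ω x) ≤ ((((gm (w ω) (fun x => F ω x * iE EA ω x) +
      gm (w ω) (fun x => F ω x * iE EB ω x)) + k1 * gm (w ω) (F ω)) +
      k2 * gm (w ω) (fun x => F ω x * nCn μ s δ₁ (j - b) (j + b) x)) + K0 * (if ω.1 ∈ G then (0 : ℝ) else 1)) := by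
    intro ω
    have p1 := (bd _ (iE_mem EA) ω).1
    have p2 := (bd _ (iE_mem EB) ω).1
    have p3 := mul_nonneg k10 (bF ω).1
    have p4 := mul_nonneg k20 (bd (fun _ x => nCn μ s δ₁ (j - b) (j + b) x) (fun _ x => n01 x) ω).1
    by_cases hω : ω.1 ∈ G
    · rw [if_pos hω, mul_zero, add_zero]
      have h1 := gm_okE_gj (Q := Pn N y) (hG _ hω) (full_Pn N y) hj hk1 hk2 hB (sg_or ω.2 j) hc3 he3 ht hg (hA0 ω) (hA1' ω)
        (Bo := Bo ω) (hBA ω) (q := q) (d := d) (e1 := e1) (d3 := d3) hA1 hA1e hA2 hA2e hB1 hB1e hB2 hB2e hd he hd3 (hFp ω)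
        (hF0 ω) hC
      have h2 : gm (w ω) (fun x => F ω x * ind (fun x => ¬ okE (w ω) (pJ c3 e3) (Bo ω) q d e1 d3 g0 g1 a1 m1 a2 m2 x ∨
          ¬ okE (w ω) (pJ c3 e3) (Bo ω) q d e1 d3 g0 g1 b1 n1 b2 n2 x) x) ≤
          gm (w ω) (fun x => F ω x * iE EA ω x) + gm (w ω) (fun x => F ω x * iE EB ω x) := by
        rw [← gm_add]
        refine gm_mono (w ω) fun x => ?_
        rw [Pi.add_apply, ← mul_add]
        refine mul_le_mul_of_nonneg_left ?_ (hF0 ω x)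
        have q1 := (iE_mem EA ω x).1
        have q2 := (iE_mem EB ω x).1
        unfold ind
        split_ifs with hE
        · rcases hE with hE | hE
          · have e : iE EA ω x = 1 := iE_one (by rw [hEA]; exact hE)
            linarith
          · have e : iE EB ω x = 1 := iE_one (by rw [hEB]; exact hE)
            linarith
        · linarith
      exact h1.trans (add_le_add_left (add_le_add_left h2 _) _)
    · rw [if_neg hω, mul_one]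
      have h1 := (bd T T0 ω).2
      linarith
  have iAll := ((((iA.add iB).add (iF.const_mul k1)).add (iN.const_mul k2)).add (iO.const_mul K0))
  have h := integral_mono iT iAll key
  simp only [Pi.add_apply] at h
  rw [integral_add, integral_add, integral_add, integral_add, integral_const_mul, integral_const_mul, integral_const_mul,
    int_out hGm] at h
  · exact h
  · exact iA
  · exact iB
  · exact iA.add iB
  · exact iF.const_mul k1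
  · exact (iA.add iB).add (iF.const_mul k1)
  · exact iN.const_mul k2
  · exact ((iA.add iB).add (iF.const_mul k1)).add (iN.const_mul k2)
  · exact iO.const_mul K0

/-- **Own factor = mass of the paths apart on `[o0, o1]`**, own tie in the pieces of `[τo, en τo lo q]`. -/
theorem int_okE_mI [IsProbabilityMeasure μ] (hyN : y ≤ N) {κ δ δ₁ ε c' : ℝ} {G : Set Env} (hGm : MeasurableSet G)
    (hG : ∀ η ∈ G, GwW μ s N κ δ δ₁ ε c' η) {b j : ℕ} (hj : j + b ≤ N)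
    (hk1 : (N : ℝ) ^ κ ≤ ((j - (j - b) : ℕ) : ℝ)) (hk2 : (N : ℝ) ^ κ ≤ b) {B : ℝ} (hB : 0 ≤ B)
    {c3 e3 : ℕ} (hc3 : c3 ≤ j - b) (he3 : j + b ≤ e3) {t : ℝ} (ht : 0 < t) {g0 g1 : ℕ} (hg : g1 ≤ j - b ∨ j + b ≤ g0)
    {q : ℕ} {d e1 d3 : ℝ} {o0 o1 τo lo : ℕ} (ho : o0 ≤ τo) (ho' : en τo lo q ≤ o1)
    {a1 m1 a2 m2 : ℕ} (hA1 : j - b ≤ a1) (hA1e : en a1 m1 q ≤ j) (hA2 : j - b ≤ a2) (hA2e : en a2 m2 q ≤ j)
    {b1 n1 b2 n2 : ℕ} (hB1 : j ≤ b1) (hB1e : en b1 n1 q ≤ j + b) (hB2 : j ≤ b2) (hB2e : en b2 n2 q ≤ j + b)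
    (hd : 0 ≤ d) (he : 0 ≤ e1) (hd3 : 0 ≤ d3) {F : Env × Finset ℕ → Px (Pn N y) → ℝ} (hF0 : ∀ ω x, 0 ≤ F ω x) {K0 : ℝ}
    (hFK : ∀ ω x, F ω x ≤ K0) (hFm : ∀ S x, Measurable fun η => F (η, S) x) (hFp : ∀ ω, Mp (pJ c3 e3) (F ω)) {C : ℝ}
    (hC : 0 ≤ C) :
    ∫ ω, gm (wm μ s N (Pn N y) ω) (fun x => F ω x * min 1 (C * T4 (wm μ s N (Pn N y) ω) (pJ c3 e3)
        (gg μ s (Pn N y) δ B b ω j) t (mI (wm μ s N (Pn N y) ω) (pJ c3 e3) o0 o1) x)) ∂(Pm μ N) ≤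
      ∫ ω, gm (wm μ s N (Pn N y) ω) (fun x => F ω x * iE (fun ω x => ¬ okE (wm μ s N (Pn N y) ω) (pJ c3 e3)
        (fun x => bI (wm μ s N (Pn N y) ω) (pJ c3 e3) τo lo q d x = 1) q d e1 d3 g0 g1 a1 m1 a2 m2 x) ω x) ∂(Pm μ N) +
      ∫ ω, gm (wm μ s N (Pn N y) ω) (fun x => F ω x * iE (fun ω x => ¬ okE (wm μ s N (Pn N y) ω) (pJ c3 e3)
        (fun x => bI (wm μ s N (Pn N y) ω) (pJ c3 e3) τo lo q d x = 1) q d e1 d3 g0 g1 b1 n1 b2 n2 x) ω x) ∂(Pm μ N) +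
      C * (Kap ((1 / 2) ^ q + 3 * q * d) (Real.exp ((N : ℝ) ^ ε)) t q d e1 d3 + 6 / t * Real.exp (-(N : ℝ) ^ c')) *
        ∫ ω, gm (wm μ s N (Pn N y) ω) (F ω) ∂(Pm μ N) +
      C * (6 / t) * B * ∫ ω, gm (wm μ s N (Pn N y) ω) (fun x => F ω x * nCn μ s δ₁ (j - b) (j + b) x) ∂(Pm μ N) +
      K0 * (law μ Gᶜ).toReal := by
  have hne : Nonempty (Px (Pn N y)) := ne_Pn hyN
  exact int_okE hyN hGm hG hj hk1 hk2 hB hc3 he3 ht hg (A := fun ω => mI (wm μ s N (Pn N y) ω) (pJ c3 e3) o0 o1)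
    (fun ω x => mI_nonneg _ _ _ _ x) (fun ω x => (cE_mem _ _ (fun _ => NI_nonneg _ _ _ _) (fun _ => NI_le_one _ _ _ _) x).2)
    (fun S x => Pool.Agent.W_7d29a1_C0.P15.meas_mI c3 e3 o0 o1 x)
    (Bo := fun ω x => bI (wm μ s N (Pn N y) ω) (pJ c3 e3) τo lo q d x = 1) (fun S x => meas_bI c3 e3 τo lo q d S x)
    (by positivity) (fun ω S0 => own_mI ω.1 (swP_pJ (by omega)) hd ho ho' S0) hA1 hA1e hA2 hA2e hB1 hB1e hB2 hB2e hd he hd3
    hF0 hFK hFm hFp hC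

/-- **Own factor in `[0, 1]`, zero off the near tie `Tau` on `[o0, o1]` given the outside of the same block.** -/
theorem int_okE_tau [IsProbabilityMeasure μ] (hyN : y ≤ N) {κ δ δ₁ ε c' : ℝ} {G : Set Env} (hGm : MeasurableSet G)
    (hG : ∀ η ∈ G, GwW μ s N κ δ δ₁ ε c' η) {b j : ℕ} (hj : j + b ≤ N)
    (hk1 : (N : ℝ) ^ κ ≤ ((j - (j - b) : ℕ) : ℝ)) (hk2 : (N : ℝ) ^ κ ≤ b) {B : ℝ} (hB : 0 ≤ B)
    {c3 e3 : ℕ} (hc3 : c3 ≤ j - b) (he3 : j + b ≤ e3) {t : ℝ} (ht : 0 < t) {g0 g1 : ℕ} (hg : g1 ≤ j - b ∨ j + b ≤ g0)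
    {q : ℕ} {d e1 d3 : ℝ} {o0 o1 τo lo : ℕ} (ho : o0 ≤ τo) (ho' : en τo lo q ≤ o1)
    {A : Env × Finset ℕ → Px (Pn N y) → ℝ} (hA0 : ∀ ω x, 0 ≤ A ω x) (hA1' : ∀ ω x, A ω x ≤ 1)
    (hAm : ∀ S x, Measurable fun η => A (η, S) x) {M : ℝ}
    (hAt : ∀ ω x, ¬ Tau (wm μ s N (Pn N y) ω) (pJ c3 e3) o0 o1 M x → A ω x ≤ 0)
    {a1 m1 a2 m2 : ℕ} (hA1 : j - b ≤ a1) (hA1e : en a1 m1 q ≤ j) (hA2 : j - b ≤ a2) (hA2e : en a2 m2 q ≤ j)
    {b1 n1 b2 n2 : ℕ} (hB1 : j ≤ b1) (hB1e : en b1 n1 q ≤ j + b) (hB2 : j ≤ b2) (hB2e : en b2 n2 q ≤ j + b)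
    (hd : 0 ≤ d) (he : 0 ≤ e1) (hd3 : 0 ≤ d3) {F : Env × Finset ℕ → Px (Pn N y) → ℝ} (hF0 : ∀ ω x, 0 ≤ F ω x) {K0 : ℝ}
    (hFK : ∀ ω x, F ω x ≤ K0) (hFm : ∀ S x, Measurable fun η => F (η, S) x) (hFp : ∀ ω, Mp (pJ c3 e3) (F ω)) {C : ℝ}
    (hC : 0 ≤ C) :
    ∫ ω, gm (wm μ s N (Pn N y) ω) (fun x => F ω x * min 1 (C * T4 (wm μ s N (Pn N y) ω) (pJ c3 e3)
        (gg μ s (Pn N y) δ B b ω j) t (A ω) x)) ∂(Pm μ N) ≤
      ∫ ω, gm (wm μ s N (Pn N y) ω) (fun x => F ω x * iE (fun ω x => ¬ okE (wm μ s N (Pn N y) ω) (pJ c3 e3)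
        (fun x => bI (wm μ s N (Pn N y) ω) (pJ c3 e3) τo lo q d x = 1) q d e1 d3 g0 g1 a1 m1 a2 m2 x) ω x) ∂(Pm μ N) +
      ∫ ω, gm (wm μ s N (Pn N y) ω) (fun x => F ω x * iE (fun ω x => ¬ okE (wm μ s N (Pn N y) ω) (pJ c3 e3)
        (fun x => bI (wm μ s N (Pn N y) ω) (pJ c3 e3) τo lo q d x = 1) q d e1 d3 g0 g1 b1 n1 b2 n2 x) ω x) ∂(Pm μ N) +
      C * (Kap (Real.exp (5 * M) * ((1 / 2) ^ q + 3 * q * d)) (Real.exp ((N : ℝ) ^ ε)) t q d e1 d3 +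
        6 / t * Real.exp (-(N : ℝ) ^ c')) * ∫ ω, gm (wm μ s N (Pn N y) ω) (F ω) ∂(Pm μ N) +
      C * (6 / t) * B * ∫ ω, gm (wm μ s N (Pn N y) ω) (fun x => F ω x * nCn μ s δ₁ (j - b) (j + b) x) ∂(Pm μ N) +
      K0 * (law μ Gᶜ).toReal := by
  have hne : Nonempty (Px (Pn N y)) := ne_Pn hyN
  exact int_okE hyN hGm hG hj hk1 hk2 hB hc3 he3 ht hg (A := A) hA0 hA1' hAm
    (Bo := fun ω x => bI (wm μ s N (Pn N y) ω) (pJ c3 e3) τo lo q d x = 1) (fun S x => meas_bI c3 e3 τo lo q d S x)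
    (by positivity) (fun ω S0 => own_tau ω.1 (swP_pJ (by omega)) hd ho ho' (hA1' ω) (hAt ω) S0) hA1 hA1e hA2 hA2e hB1 hB1e hB2
    hB2e hd he hd3 hF0 hFK hFm hFp hC

end

end Pool.W7d29a1.C0.O1r
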