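import Pool.Agent.W_7d29a1_C0.LgF38
import Pool.Agent.W_7d29a1_C0.PrG46
import Pool.Agent.W_7d29a1_C0.NN1D
import Pool.Agent.W_7d29a1_C0.N25c
import Pool.Agent.W_7d29a1_C0.OwnT27

/-!
CURV0 (MP_7d29a1_pr), leaf E5.8, helper38: THE GENERIC ROW (over `row_own` of helper1). `row38`: one row, the mean of a product `Φ` (own
event times a resample) given the window, at the tilt, in terms of the two corners, the third term and the three levels term; `third38`: the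
third term is the own pair at `v` times a free replica; `prow38`: the same in the interface `Pr46`.
-/

set_option autoImplicit false
set_option linter.unusedSectionVars false
set_option linter.unusedVariables false

namespace Pool.Agent.W_7d29a1_C0.Rg38

open Finset MeasureTheory Filter Topology
open Pool.Agent.W_7d29a1_F hiding W_pos W_nonneg W_add
open Pool.Agent.W_7d29a1_X
open Pool.Agent.W_7d29a1_C0 Pool.Agent.W_7d29a1_C0.Mod92 Pool.Agent.W_7d29a1_C0.Asm96 Pool.Agent.W_7d29a1_C0.Swap57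
open Pool.Agent.W_7d29a1_C0.N38 (av BM)
open Pool.Agent.W_7d29a1_C0.Sz23 (tj)
open Pool.Agent.W_7d29a1_C0.NTop23 (avF)
open Pool.Agent.W_7d29a1_C0.Base5 (pW)
open Pool.Agent.W_7d29a1_C0.Pr46 (ow46 Ps46 Pr46 Wt46 st46 rw46)
open Pool.Agent.W_7d29a1_C0.Lo38 (own38 lng38 own38_nonneg own38_le_one)
open Pool.W7d29a1.C0 Pool.W7d29a1.C0.VT31
open Pool.W7d29a1.C0.R43 (Tau mI)
open Pool.W7d29a1.C0.S1 (i1 i1_nonneg i1_of i1_not tI)
open Pool.W7d29a1.C0.L38 (wi38)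
open Pool.W7d29a1.C0.O1 (T4 T4_nonneg)

noncomputable section

section Path

variable {μ : Measure ℝ} {s : ℝ} {N : ℕ} {Q : Finset (Finset ℕ)} [SwQ Q] [Nonempty (Px Q)] {δ B : ℝ} {b0 b b' j : ℕ}

/-- **ONE ROW**: the mean of `Φ` given the window at the tilt, in terms of the two corners, the third term and the three levels term. -/
theorem row38 (hB : 0 ≤ B) (ω : Env × Finset ℕ) {t : ℝ} (ht : |t| ≤ 1) {H A Φ : Px Q → ℝ} {m : ℝ}
    (hH : Mp (pJ (j - b') (j + b')) H) (hH0 : ∀ S, 0 ≤ H S) (hΦ : ∀ x, 0 ≤ Φ x) (hΦ1 : ∀ x, Φ x ≤ 1) (hA0 : ∀ x, 0 ≤ A x)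
    (hΦA : ∀ x, Φ x ≤ Real.exp (5 * m) * A x) :
    gm (wm μ s N Q ω) (fun S => H S * cE (wi38 μ s N Q δ B b0 j (sg ω.2 j) t ω.1) (pJ (j - b') (j + b')) Φ S) ≤
      Real.exp 2 * (gm (wm μ s N Q ω) (fun S => H S * Φ S) + (gm (N25.vm μ s N Q δ B b0 ω j) (fun S => H S * Φ S) +
        gm (wm μ s N Q ω) (fun S => H S * (cE (N25.vm μ s N Q δ B b0 ω j) (pJ (j - b') (j + b')) Φ S *
          gm (N25.vm μ s N Q δ B b0 ω j) (NM (j - b') (j - b0) (j + b0) (j + b') S))))) +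
      gm (wm μ s N Q ω) (fun S => H S * min 1 (Real.exp (5 * m + 12 * B) *
        T4 (wm μ s N Q ω) (pJ (j - b') (j + b')) (gg μ s Q δ B b0 ω j) 1 A S)) := by
  have ha : sr ω.2 j = 1 ∨ sr ω.2 j = -1 := N25.sr_or _ _
  have h := NN1.row_own (Q := Q) (w := wm μ s N Q ω) (g := gg μ s Q δ B b0 ω j) (M := B / 2) (c := j - b') (al := j - b0) (be := j + b0)
    (d := j + b') (a := sr ω.2 j) ha (by omega) (Wk_lw ω.1 (by omega)) (Lk_gg δ B b0 j ω le_rfl le_rfl) (H := H) (A := A) (Φ := Φ)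
    (E1 := Real.exp (5 * m)) hH hH0 hΦ hΦ1 hA0 (Real.exp_pos _).le hΦA (fun x => abs_gg hB b0 ω j x) ht (δ := 1) zero_le_one
  have e1 : (H * cE (wm μ s N Q ω + (t - sr ω.2 j) • gg μ s Q δ B b0 ω j) (pJ (j - b') (j + b')) Φ) =
      fun S => H S * cE (wi38 μ s N Q δ B b0 j (sg ω.2 j) t ω.1) (pJ (j - b') (j + b')) Φ S := rfl
  have e2 : (fun S => H S * cE (wm μ s N Q ω - (2 * sr ω.2 j) • gg μ s Q δ B b0 ω j) (pJ (j - b') (j + b')) Φ S *
      gm (wm μ s N Q ω - (2 * sr ω.2 j) • gg μ s Q δ B b0 ω j) (NM (j - b') (j - b0) (j + b0) (j + b') S)) =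
      fun S => H S * (cE (N25.vm μ s N Q δ B b0 ω j) (pJ (j - b') (j + b')) Φ S *
        gm (N25.vm μ s N Q δ B b0 ω j) (NM (j - b') (j - b0) (j + b0) (j + b') S)) := by
    funext S
    rw [mul_assoc]
    rfl
  rw [e1, e2, mul_one] at h
  refine h.trans (add_le_add le_rfl (gm_mono _ fun S => mul_le_mul_of_nonneg_left (min_le_min_left _ ?_) (hH0 S)))
  rw [← Real.exp_add]
  exact mul_le_mul_of_nonneg_right (Real.exp_le_exp.2 (by linarith)) (T4_nonneg hA0 S)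

theorem vm_tilt (hB : 0 ≤ B) (ω : Env × Finset ℕ) : ∃ A : Px Q → ℝ, (∀ x, |A x| ≤ B) ∧ N25.vm μ s N Q δ B b0 ω j = wm μ s N Q ω + A := by
  refine ⟨-((2 * sr ω.2 j) • gg μ s Q δ B b0 ω j), fun x => ?_, ?_⟩
  · have h1 : |sr ω.2 j| = 1 := by rcases N25.sr_or ω.2 j with h | h <;> rw [h] <;> norm_num
    have h2 := abs_gg (μ := μ) (s := s) (δ := δ) hB b0 ω j x
    rw [Pi.neg_apply, Pi.smul_apply, smul_eq_mul, abs_neg, abs_mul, abs_mul, h1, abs_of_pos (two_pos : (0 : ℝ) < 2)]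
    linarith
  · unfold N25.vm
    exact sub_eq_add_neg _ _

/-- The own event at the flipped corner is the own pair, at twice the level. -/
theorem own_v38 {w A : Px Q → ℝ} (hA : ∀ x, |A x| ≤ B) (p : Px Q → Finset ℕ × ℕ) (T : Prop) {U V : ℕ} {m : ℝ} (hm : B ≤ m) (x : Px Q) :
    cE (w + A) p (own38 T w p U V m) x ≤ i1 (Tau w p U V (2 * m) x) + Real.exp (-m) := by
  have hB : 0 ≤ B := (abs_nonneg _).trans (hA x)
  by_cases hT : T
  · have e1 : cE (w + A) p (own38 T w p U V m) x ≤ i1 (Tau w p U V m x) := by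
      have h1 := DGam14.cE_mono_on (w + A) p (f := own38 T w p U V m) (g := fun _ => i1 (Tau w p U V m x)) x fun y hy => by
        unfold own38
        rw [if_pos hT]
        exact Pr46.i1_mono fun h => (N14.Tau_fib hy).1 h
      rwa [S1.cE_const] at h1
    have e2 : i1 (Tau w p U V m x) ≤ i1 (Tau w p U V (2 * m) x) := Pr46.i1_mono fun h => by
      unfold R43.Tau at h ⊢
      exact (Real.exp_le_exp.2 (by linarith)).trans h
    linarith [Real.exp_pos (-m)]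
  · by_cases h : Tau w p U V (2 * m) x
    · rw [i1_of h]
      have h1 := N14.cE_le_one14 (wi := w + A) (p := p) (F := own38 T w p U V m) (fun y => own38_le_one y) x
      linarith [Real.exp_pos (-m)]
    · rw [i1_not h, zero_add]
      unfold R43.Tau at h
      rw [not_le] at h
      have h1 := R43.cE_tilt (w := w) hA p (f := own38 T w p U V m) (fun y => own38_nonneg y) x
      have h2 : cE w p (own38 T w p U V m) x ≤ Real.exp (5 * m) * cE2 w p (NI U V) x x := by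
        have e1 : Real.exp (5 * m) * cE2 w p (NI U V) x x = cE w p (fun y => Real.exp (5 * m) * cE w p (NI U V y) x) x := by
          rw [O1.cE_mulf]
          rfl
        rw [e1]
        refine DGam14.cE_mono_on w p x fun y hy => ?_
        have e2 : cE w p (NI U V y) x = mI w p U V y := by
          unfold R43.mI
          exact (cE_meas w p (NI U V y) y x hy).symm
        rw [e2]
        unfold own38
        rw [if_neg hT]
        by_cases h3 : Real.exp (-(5 * m)) ≤ mI w p U V y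
        · rw [i1_of h3]
          have h4 := mul_le_mul_of_nonneg_left h3 (Real.exp_pos (5 * m)).le
          rwa [← Real.exp_add, add_neg_cancel, Real.exp_zero] at h4
        · rw [i1_not h3]
          exact mul_nonneg (Real.exp_pos _).le (R43.mI_nonneg _ _ _ _ _)
      calc cE (w + A) p (own38 T w p U V m) x ≤ Real.exp (2 * B) * cE w p (own38 T w p U V m) x := h1
        _ ≤ Real.exp (2 * B) * (Real.exp (5 * m) * Real.exp (-(5 * (2 * m)))) := mul_le_mul_of_nonneg_left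
            (h2.trans (mul_le_mul_of_nonneg_left h.le (Real.exp_pos _).le)) (Real.exp_pos _).le
        _ ≤ Real.exp (-m) := by
            rw [← Real.exp_add, ← Real.exp_add]
            exact Real.exp_le_exp.2 (by linarith)

/-- A free replica at the flipped corner. -/
theorem free_v38 {w A : Px Q → ℝ} (hA : ∀ x, |A x| ≤ B) {c al be d : ℕ} {m : ℝ} (hm : B ≤ m) (x : Px Q) :
    gm (w + A) (NM c al be d x) ≤ i1 (Real.exp (-(7 * (2 * m))) < gm w (NI c al x)) + i1 (Real.exp (-(7 * (2 * m))) < gm w (NI be d x)) +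
      2 * Real.exp (-m) := by
  have hB : 0 ≤ B := (abs_nonneg _).trans (hA x)
  have h0 : ∀ u v : ℕ, gm (w + A) (NI u v x) ≤ i1 (Real.exp (-(7 * (2 * m))) < gm w (NI u v x)) + Real.exp (-m) := fun u v => by
    by_cases h : Real.exp (-(7 * (2 * m))) < gm w (NI u v x)
    · rw [i1_of h]
      have h1 := gm_mono (w + A) (f := NI u v x) (g := fun _ => (1 : ℝ)) fun y => L38.NI_le_one _ _ _ _
      rw [gm_const] at h1
      linarith [Real.exp_pos (-m)]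
    · rw [i1_not h, zero_add]
      have h1 := R43.gm_tilt43 (w := w) hA (f := NI u v x) fun y => NI_nonneg _ _ _ _
      refine h1.trans ((mul_le_mul_of_nonneg_left (not_lt.1 h) (Real.exp_pos _).le).trans ?_)
      rw [← Real.exp_add]
      exact Real.exp_le_exp.2 (by linarith)
  have h1 := gm_mono (w + A) (f := NM c al be d x) (g := NI c al x + NI be d x) fun y => NM_le c al be d x y
  rw [gm_add] at h1
  linarith [h0 c al, h0 be d]

end Path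

section Third

variable {μ : Measure ℝ} {s : ℝ} {N y : ℕ} {δ B : ℝ} {b0 b b' j : ℕ}

/-- **THE THIRD TERM**: own pair at `v` times a free replica. -/
theorem third38 (hB : 0 ≤ B) {m : ℝ} (hm : B ≤ m) (T : Prop) (sd : Bool) (ω : Env × Finset ℕ) {Φ : Px (Pn N y) → ℝ} (hΦ0 : ∀ x, 0 ≤ Φ x)
    (hΦ : ∀ x, Φ x ≤ own38 T (wm μ s N (Pn N y) ω) (pJ (j - b') (j + b')) (if sd then j + b0 else j - b) (if sd then j + b else j - b0) m x)
    (x : Px (Pn N y)) :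
    cE (N25.vm μ s N (Pn N y) δ B b0 ω j) (pJ (j - b') (j + b')) Φ x *
        gm (N25.vm μ s N (Pn N y) δ B b0 ω j) (NM (j - b') (j - b0) (j + b0) (j + b') x) ≤
      tj μ s N (Pn N y) b0 b b' (2 * m) ω j x * ow46 (wm μ s N (Pn N y) ω) b0 b' j (2 * m) x + 4 * Real.exp (-m) := by
  have : Nonempty (Px (Pn N y)) := ⟨x⟩
  obtain ⟨A, hA, hv⟩ := vm_tilt (μ := μ) (s := s) (N := N) (Q := Pn N y) (δ := δ) (b0 := b0) (j := j) hB ω
  rw [hv]
  have e0 := Real.exp_pos (-m)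
  have a1 : cE (wm μ s N (Pn N y) ω + A) (pJ (j - b') (j + b')) Φ x ≤ tj μ s N (Pn N y) b0 b b' (2 * m) ω j x + Real.exp (-m) := by
    refine (cE_mono _ _ hΦ x).trans ((own_v38 hA _ T hm x).trans (add_le_add ?_ le_rfl))
    unfold Sz23.tj tI
    cases sd
    · exact le_add_of_nonneg_right (i1_nonneg _)
    · exact le_add_of_nonneg_left (i1_nonneg _)
  have a2 : cE (wm μ s N (Pn N y) ω + A) (pJ (j - b') (j + b')) Φ x ≤ 1 :=
    N14.cE_le_one14 (fun z => (hΦ z).trans (own38_le_one z)) x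
  have a0 : 0 ≤ cE (wm μ s N (Pn N y) ω + A) (pJ (j - b') (j + b')) Φ x := cE_nonneg _ _ hΦ0 x
  obtain ⟨W, hW⟩ : ∃ W, W = i1 (Real.exp (-(7 * (2 * m))) < gm (wm μ s N (Pn N y) ω) (NI (j - b') (j - b0) x)) +
    i1 (Real.exp (-(7 * (2 * m))) < gm (wm μ s N (Pn N y) ω) (NI (j + b0) (j + b') x)) := ⟨_, rfl⟩
  have c1 : gm (wm μ s N (Pn N y) ω + A) (NM (j - b') (j - b0) (j + b0) (j + b') x) ≤ W + 2 * Real.exp (-m) := by
    rw [hW]
    exact free_v38 hA hm x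
  have c2 : W ≤ ow46 (wm μ s N (Pn N y) ω) b0 b' j (2 * m) x := by
    rw [hW]
    unfold Pr46.ow46
    have : 0 ≤ tI (wm μ s N (Pn N y) ω) (pJ 0 N) (j - b') (j - b0) (j + b0) (j + b') (2 * m) x := add_nonneg (i1_nonneg _) (i1_nonneg _)
    linarith
  have c3 : W ≤ 2 := by
    rw [hW]
    have h1 := Pr46.i1_le1 (Real.exp (-(7 * (2 * m))) < gm (wm μ s N (Pn N y) ω) (NI (j - b') (j - b0) x))
    have h2 := Pr46.i1_le1 (Real.exp (-(7 * (2 * m))) < gm (wm μ s N (Pn N y) ω) (NI (j + b0) (j + b') x))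
    linarith
  have c0 : 0 ≤ W := by
    rw [hW]
    exact add_nonneg (i1_nonneg _) (i1_nonneg _)
  have t0 : 0 ≤ tj μ s N (Pn N y) b0 b b' (2 * m) ω j x := Sz23.tj_nonneg _ _ _ _ _ _ _ _
  calc _ ≤ cE (wm μ s N (Pn N y) ω + A) (pJ (j - b') (j + b')) Φ x * (W + 2 * Real.exp (-m)) := mul_le_mul_of_nonneg_left c1 a0
    _ = cE (wm μ s N (Pn N y) ω + A) (pJ (j - b') (j + b')) Φ x * W + cE (wm μ s N (Pn N y) ω + A) (pJ (j - b') (j + b')) Φ x *
          (2 * Real.exp (-m)) := by ring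
    _ ≤ (tj μ s N (Pn N y) b0 b b' (2 * m) ω j x + Real.exp (-m)) * W + 1 * (2 * Real.exp (-m)) :=
        add_le_add (mul_le_mul_of_nonneg_right a1 c0) (mul_le_mul_of_nonneg_right a2 (by positivity))
    _ = tj μ s N (Pn N y) b0 b b' (2 * m) ω j x * W + Real.exp (-m) * W + 2 * Real.exp (-m) := by ring
    _ ≤ tj μ s N (Pn N y) b0 b b' (2 * m) ω j x * ow46 (wm μ s N (Pn N y) ω) b0 b' j (2 * m) x + Real.exp (-m) * 2 + 2 * Real.exp (-m) :=
        add_le_add (add_le_add (mul_le_mul_of_nonneg_left c2 t0) (mul_le_mul_of_nonneg_left c3 e0.le)) le_rfl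
    _ = _ := by ring

end Third

section Frame

variable {μ : Measure ℝ} [IsProbabilityMeasure μ] {s : ℝ} {F : Frm96} {m p p' q i : ℕ} {E : ℕ → ℝ} {Θ c x A : ℝ}

/-- The ends of the own gap, right (`true`) or left. -/
def oA (sd : Bool) (b0 b j : ℕ) : ℕ := if sd then j + b0 else j - b

/-- The ends of the own gap, right (`true`) or left. -/
def oB (sd : Bool) (b0 b j : ℕ) : ℕ := if sd then j + b else j - b0

/-- The average under the law with the kick of the row flipped. -/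
def avV (μ : Measure ℝ) (s : ℝ) (F : Frm96) (m p j : ℕ) (f : Wt46 F m) : ℝ :=
  (((F.ys m).card : ℝ))⁻¹ * ∑ y ∈ F.ys m, ∫ ω, gm (N25.vm μ s (F.L m) (Pn (F.L m) y) F.dl (F.B m) (F.b0 m p) ω j) (f y ω) ∂(Pm μ (F.L m))

theorem meas_wi (hB : 0 ≤ F.B m) {y : ℕ} (j : ℕ) (t : ℝ) (S : Px (Pn (F.L m) y)) : Measurable fun ω : Env × Finset ℕ =>
    wi38 μ s (F.L m) (Pn (F.L m) y) F.dl (F.B m) (F.b0 m p) j (sg ω.2 j) t ω.1 S := by
  have e : (fun ω : Env × Finset ℕ => wi38 μ s (F.L m) (Pn (F.L m) y) F.dl (F.B m) (F.b0 m p) j (sg ω.2 j) t ω.1 S) =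
      fun ω => wm μ s (F.L m) (Pn (F.L m) y) ω S + (t - sr ω.2 j) * gg μ s (Pn (F.L m) y) F.dl (F.B m) (F.b0 m p) ω j S := by
    funext ω
    unfold L38.wi38 Mod92.wt
    rfl
  rw [e]
  exact (meas_wm S).add ((measurable_const.sub (meas_sr j)).mul (meas_gg F.dl (F.B m) (F.b0 m p) j S))

theorem meas_vm (hB : 0 ≤ F.B m) {y : ℕ} (j : ℕ) (S : Px (Pn (F.L m) y)) : Measurable fun ω : Env × Finset ℕ =>
    N25.vm μ s (F.L m) (Pn (F.L m) y) F.dl (F.B m) (F.b0 m p) ω j S := by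
  have e : (fun ω : Env × Finset ℕ => N25.vm μ s (F.L m) (Pn (F.L m) y) F.dl (F.B m) (F.b0 m p) ω j S) =
      fun ω => wm μ s (F.L m) (Pn (F.L m) y) ω S - (2 * sr ω.2 j) * gg μ s (Pn (F.L m) y) F.dl (F.B m) (F.b0 m p) ω j S := by
    funext ω
    unfold N25.vm
    rfl
  rw [e]
  exact (meas_wm S).sub ((measurable_const.mul (meas_sr j)).mul (meas_gg F.dl (F.B m) (F.b0 m p) j S))

/-- The arithmetic of the average over the ends. -/
theorem avg5 {ys : Finset ℕ} {a0 a1 a2 a3 a4 : ℕ → ℝ} {C r : ℝ} (hC : 0 ≤ C) (hr : 0 ≤ r)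
    (h : ∀ y ∈ ys, a0 y ≤ C * (a1 y + (a2 y + (a3 y + r))) + a4 y) :
    ((ys.card : ℝ))⁻¹ * ∑ y ∈ ys, a0 y ≤ C * (((ys.card : ℝ))⁻¹ * ∑ y ∈ ys, a1 y + (((ys.card : ℝ))⁻¹ * ∑ y ∈ ys, a2 y +
      (((ys.card : ℝ))⁻¹ * ∑ y ∈ ys, a3 y + r))) + ((ys.card : ℝ))⁻¹ * ∑ y ∈ ys, a4 y := by
  obtain ⟨z, hz⟩ : ∃ z, z = ((ys.card : ℝ))⁻¹ := ⟨_, rfl⟩
  have hz0 : 0 ≤ z := by rw [hz]; positivity
  have hzr : z * (ys.card * r) ≤ r := by
    rcases Nat.eq_zero_or_pos ys.card with h0 | h0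
    · rw [h0]
      simpa using hr
    · have h1 : (0 : ℝ) < ys.card := Nat.cast_pos.2 h0
      rw [← mul_assoc, hz, inv_mul_cancel₀ h1.ne', one_mul]
  rw [← hz]
  have h1 := mul_le_mul_of_nonneg_left (sum_le_sum h) hz0
  rw [sum_add_distrib, ← mul_sum, sum_add_distrib, sum_add_distrib, sum_add_distrib, sum_const, nsmul_eq_mul] at h1
  have h2 := mul_le_mul_of_nonneg_left hzr hC
  calc z * ∑ y ∈ ys, a0 y ≤ z * (C * (∑ y ∈ ys, a1 y + (∑ y ∈ ys, a2 y + (∑ y ∈ ys, a3 y + ys.card * r))) + ∑ y ∈ ys, a4 y) := h1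
    _ = C * (z * ∑ y ∈ ys, a1 y + (z * ∑ y ∈ ys, a2 y + z * ∑ y ∈ ys, a3 y)) + C * (z * (ys.card * r)) + z * ∑ y ∈ ys, a4 y := by ring
    _ ≤ C * (z * ∑ y ∈ ys, a1 y + (z * ∑ y ∈ ys, a2 y + z * ∑ y ∈ ys, a3 y)) + C * r + z * ∑ y ∈ ys, a4 y := by linarith
    _ = _ := by ring

/-- The integral of the pathwise inequality. -/
theorem int5 {Ω : Type*} [MeasurableSpace Ω] {P : Measure Ω} [IsProbabilityMeasure P] {a0 a1 a2 a3 a4 : Ω → ℝ} {C r : ℝ}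
    (I0 : Integrable a0 P) (I1 : Integrable a1 P) (I2 : Integrable a2 P) (I3 : Integrable a3 P) (I4 : Integrable a4 P)
    (h : ∀ ω, a0 ω ≤ C * (a1 ω + (a2 ω + (a3 ω + r))) + a4 ω) :
    ∫ ω, a0 ω ∂P ≤ C * (∫ ω, a1 ω ∂P + (∫ ω, a2 ω ∂P + (∫ ω, a3 ω ∂P + r))) + ∫ ω, a4 ω ∂P := by
  have hI3 : Integrable (fun ω => a3 ω + r) P := I3.add (integrable_const r)
  have hI2 : Integrable (fun ω => a2 ω + (a3 ω + r)) P := I2.add hI3
  have hI1 : Integrable (fun ω => a1 ω + (a2 ω + (a3 ω + r))) P := I1.add hI2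
  have hIC : Integrable (fun ω => C * (a1 ω + (a2 ω + (a3 ω + r)))) P := hI1.const_mul C
  have hI : Integrable (fun ω => C * (a1 ω + (a2 ω + (a3 ω + r))) + a4 ω) P := hIC.add I4
  have key := integral_mono I0 hI h
  have e1 : ∫ ω, (C * (a1 ω + (a2 ω + (a3 ω + r))) + a4 ω) ∂P = ∫ ω, C * (a1 ω + (a2 ω + (a3 ω + r))) ∂P + ∫ ω, a4 ω ∂P :=
    integral_add hIC I4
  have e2 : ∫ ω, C * (a1 ω + (a2 ω + (a3 ω + r))) ∂P = C * ∫ ω, (a1 ω + (a2 ω + (a3 ω + r))) ∂P := integral_const_mul _ _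
  have e3 : ∫ ω, (a1 ω + (a2 ω + (a3 ω + r))) ∂P = ∫ ω, a1 ω ∂P + ∫ ω, (a2 ω + (a3 ω + r)) ∂P := integral_add I1 hI2
  have e4 : ∫ ω, (a2 ω + (a3 ω + r)) ∂P = ∫ ω, a2 ω ∂P + ∫ ω, (a3 ω + r) ∂P := integral_add I2 hI3
  have e5 : ∫ ω, (a3 ω + r) ∂P = ∫ ω, a3 ω ∂P + ∫ _, r ∂P := integral_add I3 (integrable_const r)
  have e6 : ∫ _, r ∂P = r := by
    rw [integral_const]
    simp
  rw [e1, e2, e3, e4, e5, e6] at key
  exact key

/-- The line at the tilt. -/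
def wL0 (μ : Measure ℝ) (s : ℝ) (F : Frm96) (m p p' : ℕ) (Φ : (y : ℕ) → Env × Finset ℕ → ℕ → Px (Pn (F.L m) y) → ℝ) (t : ℝ) (j : ℕ)
    (D : Wt46 F m) : Wt46 F m := fun y ω S =>
  cE (wi38 μ s (F.L m) (Pn (F.L m) y) F.dl (F.B m) (F.b0 m p) j (sg ω.2 j) t ω.1) (pJ (j - 2 ^ p') (j + 2 ^ p')) (Φ y ω j) S * |D y ω S|

/-- The third line. -/
def wL3 (μ : Measure ℝ) (s : ℝ) (F : Frm96) (m p p' : ℕ) (M : ℝ) (j : ℕ) (D : Wt46 F m) : Wt46 F m := fun y ω S =>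
  |D y ω S| * (tj μ s (F.L m) (Pn (F.L m) y) (F.b0 m p) (2 ^ p) (2 ^ p') (2 * M) ω j S *
    ow46 (wm μ s (F.L m) (Pn (F.L m) y) ω) (F.b0 m p) (2 ^ p') j (2 * M) S)

/-- The line of three levels. -/
def wL4 (μ : Measure ℝ) (s : ℝ) (F : Frm96) (m p p' : ℕ) (M : ℝ) (A₀ : (y : ℕ) → Env × Finset ℕ → ℕ → Px (Pn (F.L m) y) → ℝ) (j : ℕ)
    (D : Wt46 F m) : Wt46 F m := fun y ω S =>
  min 1 (Real.exp (5 * M + 12 * F.B m) * T4 (wm μ s (F.L m) (Pn (F.L m) y) ω) (pJ (j - 2 ^ p') (j + 2 ^ p'))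
    (gg μ s (Pn (F.L m) y) F.dl (F.B m) (F.b0 m p) ω j) 1 (A₀ y ω j) S) * |D y ω S|

/-- The hypotheses on the product. -/
structure Hy38 (μ : Measure ℝ) (s : ℝ) (F : Frm96) (m p p' : ℕ) (M : ℝ) (T : Prop) (sd : Bool)
    (Φ A₀ : (y : ℕ) → Env × Finset ℕ → ℕ → Px (Pn (F.L m) y) → ℝ) : Prop where
  n0 : ∀ y ω j S, 0 ≤ Φ y ω j S
  le : ∀ y ω j S, Φ y ω j S ≤ own38 T (wm μ s (F.L m) (Pn (F.L m) y) ω) (pJ (j - 2 ^ p') (j + 2 ^ p')) (oA sd (F.b0 m p) (2 ^ p) j)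
      (oB sd (F.b0 m p) (2 ^ p) j) M S
  ms : ∀ y j S, Measurable fun ω => Φ y ω j S
  A0 : ∀ y ω j S, 0 ≤ A₀ y ω j S
  Am : ∀ y j S, Measurable fun ω => A₀ y ω j S
  Ale : ∀ y ω j S, Φ y ω j S ≤ Real.exp (5 * M) * A₀ y ω j S

section Row

variable {M : ℝ} {T : Prop} {sd : Bool} {Φ A₀ : (y : ℕ) → Env × Finset ℕ → ℕ → Px (Pn (F.L m) y) → ℝ} {t : ℝ} {j : ℕ} {D : Wt46 F m}
  {Mh : ℝ}

/-- One path. -/
theorem row_pt38 (hB : 0 ≤ F.B m) (hM : F.B m ≤ M) (h : Hy38 μ s F m p p' M T sd Φ A₀) (ht : |t| ≤ 1) (y : ℕ) [Nonempty (Px (Pn (F.L m) y))]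
    (hDb : ∀ ω S, |D y ω S| ≤ Mh) (hDp : ∀ ω, Mp (pJ (j - 2 ^ p') (j + 2 ^ p')) (D y ω)) (ω : Env × Finset ℕ) :
    gm (wm μ s (F.L m) (Pn (F.L m) y) ω) (wL0 μ s F m p p' Φ t j D y ω) ≤
      Real.exp 2 * (gm (wm μ s (F.L m) (Pn (F.L m) y) ω) (fun S => Φ y ω j S * |D y ω S|) +
        (gm (N25.vm μ s (F.L m) (Pn (F.L m) y) F.dl (F.B m) (F.b0 m p) ω j) (fun S => |D y ω S| * Φ y ω j S) +
        (gm (wm μ s (F.L m) (Pn (F.L m) y) ω) (wL3 μ s F m p p' M j D y ω) + Mh * (4 * Real.exp (-M))))) +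
      gm (wm μ s (F.L m) (Pn (F.L m) y) ω) (wL4 μ s F m p p' M A₀ j D y ω) := by
  have h0 := row38 (μ := μ) (s := s) (N := F.L m) (Q := Pn (F.L m) y) (δ := F.dl) (b0 := F.b0 m p) (b' := 2 ^ p') (j := j) hB ω ht
    (H := fun S => |D y ω S|) (A := A₀ y ω j) (Φ := Φ y ω j) (m := M) (fun S S' e => by
      show |D y ω S| = |D y ω S'|
      rw [hDp ω S S' e]) (fun S => abs_nonneg _) (h.n0 y ω j) (fun S => (h.le y ω j S).trans (own38_le_one S)) (h.A0 y ω j) (h.Ale y ω j)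
  have h3 : gm (wm μ s (F.L m) (Pn (F.L m) y) ω) (fun S => |D y ω S| * (cE (N25.vm μ s (F.L m) (Pn (F.L m) y) F.dl (F.B m) (F.b0 m p) ω j)
        (pJ (j - 2 ^ p') (j + 2 ^ p')) (Φ y ω j) S * gm (N25.vm μ s (F.L m) (Pn (F.L m) y) F.dl (F.B m) (F.b0 m p) ω j)
          (NM (j - 2 ^ p') (j - F.b0 m p) (j + F.b0 m p) (j + 2 ^ p') S))) ≤
      gm (wm μ s (F.L m) (Pn (F.L m) y) ω) (wL3 μ s F m p p' M j D y ω) + Mh * (4 * Real.exp (-M)) := by
    have k1 := gm_mono (wm μ s (F.L m) (Pn (F.L m) y) ω) (f := fun S => |D y ω S| * (cE (N25.vm μ s (F.L m) (Pn (F.L m) y) F.dl (F.B m) (F.b0 m p) ω j)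
        (pJ (j - 2 ^ p') (j + 2 ^ p')) (Φ y ω j) S * gm (N25.vm μ s (F.L m) (Pn (F.L m) y) F.dl (F.B m) (F.b0 m p) ω j)
          (NM (j - 2 ^ p') (j - F.b0 m p) (j + F.b0 m p) (j + 2 ^ p') S)))
      (g := wL3 μ s F m p p' M j D y ω + fun _ => Mh * (4 * Real.exp (-M))) fun S => by
          have k2 := third38 (μ := μ) (s := s) (N := F.L m) (y := y) (δ := F.dl) (b0 := F.b0 m p) (b := 2 ^ p) (b' := 2 ^ p') (j := j)
            hB hM T sd ω (Φ := Φ y ω j) (h.n0 y ω j) (h.le y ω j) S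
          have k3 := mul_le_mul_of_nonneg_left k2 (abs_nonneg (D y ω S))
          have k4 := mul_le_mul_of_nonneg_right (hDb ω S) (show 0 ≤ 4 * Real.exp (-M) by positivity)
          rw [mul_add] at k3
          exact k3.trans (add_le_add le_rfl k4)
    rw [gm_add, gm_const] at k1
    exact k1
  have e0 : wL0 μ s F m p p' Φ t j D y ω = fun S => |D y ω S| *
      cE (wi38 μ s (F.L m) (Pn (F.L m) y) F.dl (F.B m) (F.b0 m p) j (sg ω.2 j) t ω.1) (pJ (j - 2 ^ p') (j + 2 ^ p')) (Φ y ω j) S :=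
    funext fun S => mul_comm _ _
  have e1 : (fun S => Φ y ω j S * |D y ω S|) = fun S => |D y ω S| * Φ y ω j S := funext fun S => mul_comm _ _
  have e4 : wL4 μ s F m p p' M A₀ j D y ω =
      fun S => |D y ω S| * min 1 (Real.exp (5 * M + 12 * F.B m) * T4 (wm μ s (F.L m) (Pn (F.L m) y) ω)
      (pJ (j - 2 ^ p') (j + 2 ^ p')) (gg μ s (Pn (F.L m) y) F.dl (F.B m) (F.b0 m p) ω j) 1 (A₀ y ω j) S) := funext fun S => mul_comm _ _
  rw [e0, e1, e4]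
  exact h0.trans (add_le_add (mul_le_mul_of_nonneg_left (add_le_add le_rfl (add_le_add le_rfl h3)) (Real.exp_pos 2).le) le_rfl)

theorem abs_gm38 {X : Type*} [Fintype X] [Nonempty X] (w : X → ℝ) {f : X → ℝ} {C : ℝ} (h : ∀ x, |f x| ≤ C) : |gm w f| ≤ C := by
  have h1 := gm_mono w (f := f) (g := fun _ => C) fun x => (abs_le.1 (h x)).2
  have h2 := gm_mono w (f := fun _ => -C) (g := f) fun x => (abs_le.1 (h x)).1
  rw [gm_const] at h1 h2
  exact abs_le.2 ⟨h2, h1⟩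

theorem int_bd38 {N : ℕ} {X : Type*} [Fintype X] [Nonempty X] {w G : Env × Finset ℕ → X → ℝ} {C : ℝ} (hw : ∀ S, Measurable fun ω => w ω S)
    (hG : ∀ S, Measurable fun ω => G ω S) (hC : ∀ ω S, |G ω S| ≤ C) : Integrable (fun ω => gm (w ω) (G ω)) (Pm μ N) :=
  int_bdd (meas_gm hw hG) (M := C) fun ω => abs_gm38 (w ω) (hC ω)

theorem int0_38 (hB : 0 ≤ F.B m) (h : Hy38 μ s F m p p' M T sd Φ A₀) (y : ℕ) [Nonempty (Px (Pn (F.L m) y))]
    (hDb : ∀ ω S, |D y ω S| ≤ Mh) (hDm : ∀ S, Measurable fun ω => D y ω S) :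
    Integrable (fun ω => gm (wm μ s (F.L m) (Pn (F.L m) y) ω) (wL0 μ s F m p p' Φ t j D y ω)) (Pm μ (F.L m)) := by
  have mc : ∀ S, Measurable fun ω : Env × Finset ℕ => cE (wi38 μ s (F.L m) (Pn (F.L m) y) F.dl (F.B m) (F.b0 m p) j (sg ω.2 j) t ω.1)
      (pJ (j - 2 ^ p') (j + 2 ^ p')) (Φ y ω j) S := fun S =>
    meas_cE (w := fun ω : Env × Finset ℕ => wi38 μ s (F.L m) (Pn (F.L m) y) F.dl (F.B m) (F.b0 m p) j (sg ω.2 j) t ω.1)
      (f := fun ω => Φ y ω j) (fun S' => meas_wi hB j t S') (fun S' => h.ms y j S') (pJ (j - 2 ^ p') (j + 2 ^ p')) S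
  refine int_bd38 (C := 1 * Mh) (fun S => meas_wm S) (fun S => ?_) fun ω S => ?_
  · exact (mc S).mul (hDm S).abs
  · unfold wL0
    rw [abs_mul, abs_abs, abs_of_nonneg (cE_nonneg _ _ (h.n0 y ω j) S)]
    exact mul_le_mul (N14.cE_le_one14 (fun x => (h.le y ω j x).trans (own38_le_one x)) S) (hDb ω S) (abs_nonneg _) zero_le_one

theorem int1_38 (h : Hy38 μ s F m p p' M T sd Φ A₀) (y : ℕ) [Nonempty (Px (Pn (F.L m) y))]
    (hDb : ∀ ω S, |D y ω S| ≤ Mh) (hDm : ∀ S, Measurable fun ω => D y ω S) :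
    Integrable (fun ω => gm (wm μ s (F.L m) (Pn (F.L m) y) ω) (fun S => Φ y ω j S * |D y ω S|)) (Pm μ (F.L m)) := by
  refine int_bd38 (C := 1 * Mh) (fun S => meas_wm S) (fun S => (h.ms y j S).mul (hDm S).abs) fun ω S => ?_
  rw [abs_mul, abs_abs, abs_of_nonneg (h.n0 y ω j S)]
  exact mul_le_mul ((h.le y ω j S).trans (own38_le_one S)) (hDb ω S) (abs_nonneg _) zero_le_one

theorem int2_38 (hB : 0 ≤ F.B m) (h : Hy38 μ s F m p p' M T sd Φ A₀) (hMh : 0 < Mh) (y : ℕ) [Nonempty (Px (Pn (F.L m) y))]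
    (hDb : ∀ ω S, |D y ω S| ≤ Mh) (hDm : ∀ S, Measurable fun ω => D y ω S) :
    Integrable (fun ω => gm (N25.vm μ s (F.L m) (Pn (F.L m) y) F.dl (F.B m) (F.b0 m p) ω j) (fun S => |D y ω S| * Φ y ω j S)) (Pm μ (F.L m)) := by
  refine int_bd38 (C := Mh * 1) (fun S => meas_vm hB j S) (fun S => (hDm S).abs.mul (h.ms y j S)) fun ω S => ?_
  rw [abs_mul, abs_abs, abs_of_nonneg (h.n0 y ω j S)]
  exact mul_le_mul (hDb ω S) ((h.le y ω j S).trans (own38_le_one S)) (h.n0 y ω j S) hMh.le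

theorem int3_38 (hMh : 0 < Mh) (y : ℕ) (hyy : y ∈ F.ys m) [Nonempty (Px (Pn (F.L m) y))]
    (hDb : ∀ ω S, |D y ω S| ≤ Mh) (hDm : ∀ S, Measurable fun ω => D y ω S) :
    Integrable (fun ω => gm (wm μ s (F.L m) (Pn (F.L m) y) ω) (wL3 μ s F m p p' M j D y ω)) (Pm μ (F.L m)) := by
  obtain ⟨Ct, hCt⟩ := (Pr46.bm_tj46 (μ := μ) (s := s) (F := F) (m := m) (F.b0 m p) (2 ^ p) (2 ^ p') j (2 * M)).1
  obtain ⟨Co, hCo⟩ := (Pr46.bm_ow46 (μ := μ) (s := s) (F := F) (m := m) (F.b0 m p) (2 ^ p') j (2 * M)).1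
  refine int_bd38 (C := Mh * (Ct * Co)) (fun S => meas_wm S) (fun S => (hDm S).abs.mul
    (((Pr46.bm_tj46 _ _ _ _ _).2 y hyy S).mul ((Pr46.bm_ow46 _ _ _ _).2 y hyy S))) fun ω S => ?_
  unfold wL3
  rw [abs_mul, abs_abs, abs_mul]
  have h1 := hCt y hyy ω S
  have h2 := hCo y hyy ω S
  exact mul_le_mul (hDb ω S) (mul_le_mul h1 h2 (abs_nonneg _) ((abs_nonneg _).trans h1)) (by positivity) hMh.le

theorem int4_38 (h : Hy38 μ s F m p p' M T sd Φ A₀) (y : ℕ) [Nonempty (Px (Pn (F.L m) y))]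
    (hDb : ∀ ω S, |D y ω S| ≤ Mh) (hDm : ∀ S, Measurable fun ω => D y ω S) :
    Integrable (fun ω => gm (wm μ s (F.L m) (Pn (F.L m) y) ω) (wL4 μ s F m p p' M A₀ j D y ω)) (Pm μ (F.L m)) := by
  refine int_bd38 (C := 1 * Mh) (fun S => meas_wm S) (fun S => ?_) fun ω S => ?_
  · refine (measurable_const.min (measurable_const.mul (O1r.meas_pr fun A' => ?_))).mul (hDm S).abs
    exact O1r.meas_T4 (μ := μ) (s := s) (A := fun ω => A₀ y ω j) _ _ _ _ _ _ (fun A'' x' =>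
      (h.Am y j x').comp (measurable_id.prodMk measurable_const)) A' S
  · unfold wL4
    rw [abs_mul, abs_abs, abs_of_nonneg (le_min zero_le_one (mul_nonneg (Real.exp_pos _).le (T4_nonneg (h.A0 y ω j) S)))]
    exact mul_le_mul (min_le_left _ _) (hDb ω S) (abs_nonneg _) zero_le_one

/-- **ONE ROW, IN THE MEAN.** -/
theorem rowAv38 (hy : ∀ y ∈ F.ys m, y ≤ F.L m) (hB : 0 ≤ F.B m) (hM : F.B m ≤ M) (h : Hy38 μ s F m p p' M T sd Φ A₀) (ht : |t| ≤ 1)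
    (hMh : 0 < Mh) (hDb : ∀ y ω S, |D y ω S| ≤ Mh) (hDm : ∀ y S, Measurable fun ω => D y ω S)
    (hDp : ∀ y ω, Mp (pJ (j - 2 ^ p') (j + 2 ^ p')) (D y ω)) :
    avF μ s F m (wL0 μ s F m p p' Φ t j D) ≤
      Real.exp 2 * (avF μ s F m (fun y ω S => Φ y ω j S * |D y ω S|) + (avV μ s F m p j (fun y ω S => |D y ω S| * Φ y ω j S) +
        (avF μ s F m (wL3 μ s F m p p' M j D) + Mh * (4 * Real.exp (-M))))) + avF μ s F m (wL4 μ s F m p p' M A₀ j D) := by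
  have key := avg5 (ys := F.ys m) (a0 := fun y => ∫ ω, gm (wm μ s (F.L m) (Pn (F.L m) y) ω) (wL0 μ s F m p p' Φ t j D y ω) ∂(Pm μ (F.L m)))
    (a1 := fun y => ∫ ω, gm (wm μ s (F.L m) (Pn (F.L m) y) ω) (fun S => Φ y ω j S * |D y ω S|) ∂(Pm μ (F.L m)))
    (a2 := fun y => ∫ ω, gm (N25.vm μ s (F.L m) (Pn (F.L m) y) F.dl (F.B m) (F.b0 m p) ω j) (fun S => |D y ω S| * Φ y ω j S) ∂(Pm μ (F.L m)))
    (a3 := fun y => ∫ ω, gm (wm μ s (F.L m) (Pn (F.L m) y) ω) (wL3 μ s F m p p' M j D y ω) ∂(Pm μ (F.L m)))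
    (a4 := fun y => ∫ ω, gm (wm μ s (F.L m) (Pn (F.L m) y) ω) (wL4 μ s F m p p' M A₀ j D y ω) ∂(Pm μ (F.L m)))
    (C := Real.exp 2) (r := Mh * (4 * Real.exp (-M))) (Real.exp_pos 2).le (by positivity) fun y hyy => by
      have hne : Nonempty (Px (Pn (F.L m) y)) := ne_Pn (hy y hyy)
      exact int5 (int0_38 hB h y (hDb y) (hDm y)) (int1_38 h y (hDb y) (hDm y)) (int2_38 hB h hMh y (hDb y) (hDm y))
        (int3_38 hMh y hyy (hDb y) (hDm y)) (int4_38 h y (hDb y) (hDm y)) (row_pt38 hB hM h ht y (hDb y) (hDp y))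
  exact key

end Row

/-- A passenger of the stretch does not see the path inside of the window of a row. -/
theorem mp38 {k : ℕ} {D : Wt46 F m} {Mh : ℝ} (h : Ps46 F m (2 ^ (p' - 6)) (2 ^ p') k D Mh) {j : ℕ} (hj : j ∈ st46 F m q i (2 ^ (p' - 6)) k)
    (y : ℕ) (ω : Env × Finset ℕ) : Mp (pJ (j - 2 ^ p') (j + 2 ^ p')) (D y ω) := fun S S' e => by
  have hne : Nonempty (Px (Pn (F.L m) y)) := ⟨S⟩
  have h1 : j / 2 ^ (p' - 6) = k := (mem_filter.1 hj).2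
  have h2 : k * 2 ^ (p' - 6) ≤ j := by
    rw [← h1]
    exact Nat.div_mul_le_self _ _
  have h3 : j < (k + 1) * 2 ^ (p' - 6) := Nat.lt_mul_of_div_lt (h1 ▸ Nat.lt_succ_self _) (by positivity)
  exact (h.mp y ω).of_crs (crs_pJ (by omega) (by omega)) S S' e

/-- **THE GENERIC ROW IN THE INTERFACE `Pr46`.** -/
theorem prow38 (hy : ∀ y ∈ F.ys m, y ≤ F.L m) (hE : ∀ n, 0 < E n) (hB : 0 ≤ F.B m) (hpm : p' ≤ m + 6) {M : ℝ} (hM : F.B m ≤ M)
    {T : Prop} {sd : Bool} {Φ Φ' A₀ : (y : ℕ) → Env × Finset ℕ → ℕ → Px (Pn (F.L m) y) → ℝ} (h : Hy38 μ s F m p p' M T sd Φ A₀)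
    (P1 : Pr46 μ s F E Θ c m p p' q i x A fun _ j D => avF μ s F m fun y ω S => Φ y ω j S * |D y ω S|)
    (P1' : Pr46 μ s F E Θ c m p p' q i x A fun _ j D => avF μ s F m fun y ω S => Φ' y ω j S * |D y ω S|)
    {e : ℝ} (P2 : ∀ k j D Mh, Ps46 F m (2 ^ (p' - 6)) (2 ^ p') k D Mh → j ∈ st46 F m q i (2 ^ (p' - 6)) k →
      avV μ s F m p j (fun y ω S => |D y ω S| * Φ y ω j S) ≤ avF μ s F m (fun y ω S => |D y ω S| * Φ' y ω j S) + Mh * e)
    (e0 : 0 ≤ e) (e1 : e ≤ ((2 ^ m : ℕ) : ℝ) ^ (-A - 1)) (eM : 4 * Real.exp (-M) ≤ ((2 ^ m : ℕ) : ℝ) ^ (-A - 1))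
    (P3 : Pr46 μ s F E Θ c m p p' q i x A fun _ j D => avF μ s F m (wL3 μ s F m p p' M j D))
    (P4 : Pr46 μ s F E Θ c m p p' q i x A fun _ j D => avF μ s F m (wL4 μ s F m p p' M A₀ j D))
    {z : ℝ} (hz : 8 ≤ ((2 ^ m : ℕ) : ℝ) ^ z) :
    Pr46 μ s F E Θ c m p p' q i (x - 6 * z) (A - 6 * z) fun t j D => avF μ s F m (wL0 μ s F m p p' Φ t j D) := by
  have hn1 := Frm33.n_ge1 m
  have hn : (0 : ℝ) < ((2 ^ m : ℕ) : ℝ) := by positivity
  have hz0 : 0 ≤ z := by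
    by_contra hlt
    have h1 := Real.rpow_le_rpow_of_exponent_le hn1 (show z ≤ 0 by linarith)
    rw [Real.rpow_zero] at h1
    linarith
  have hz4 : (4 : ℝ) ≤ ((2 ^ m : ℕ) : ℝ) ^ z := by linarith
  have a1 := P1.add hy hE P1' hz4
  have a2 := a1.add hy hE (P3.weaken hE (x' := x - z) (A' := A - z) (by linarith) (by linarith)) hz4
  have a3 := a2.add hy hE (P4.weaken hE (x' := x - z - z) (A' := A - z - z) (by linarith) (by linarith)) hz4
  have a4 := a3.smul hy hE (r := 8) (z := z) (by norm_num) hz0 hz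
  obtain ⟨e', he'⟩ : ∃ e' : ℝ, e' = 8 * (e + 4 * Real.exp (-M)) := ⟨_, rfl⟩
  have e'0 : 0 ≤ e' := by
    rw [he']
    positivity
  have e'1 : e' ≤ ((2 ^ m : ℕ) : ℝ) ^ (-(A - z - z - z - 2 * z) - 1) := by
    have h1 : e' ≤ 64 * ((2 ^ m : ℕ) : ℝ) ^ (-A - 1) := by
      rw [he']
      have h2 := Real.rpow_nonneg hn.le (-A - 1)
      linarith
    have h2 : (64 : ℝ) ≤ ((2 ^ m : ℕ) : ℝ) ^ (5 * z) := by
      have h3 : ((2 ^ m : ℕ) : ℝ) ^ (2 * z) = ((2 ^ m : ℕ) : ℝ) ^ z * ((2 ^ m : ℕ) : ℝ) ^ z := by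
        rw [← Real.rpow_add hn]
        congr 1
        ring
      have h4 := Real.rpow_le_rpow_of_exponent_le hn1 (show 2 * z ≤ 5 * z by linarith)
      have h5 : (64 : ℝ) ≤ ((2 ^ m : ℕ) : ℝ) ^ z * ((2 ^ m : ℕ) : ℝ) ^ z := by nlinarith
      linarith
    refine h1.trans ((mul_le_mul_of_nonneg_right h2 (Real.rpow_nonneg hn.le _)).trans (le_of_eq ?_))
    rw [← Real.rpow_add hn]
    congr 1
    ring
  have a5 := a4.mono_err hy hE hpm e'0 e'1 hz4 (Ln' := fun t j D => avF μ s F m (wL0 μ s F m p p' Φ t j D)) fun t ht k j D Mh hD hj => by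
    have r1 := rowAv38 (μ := μ) (s := s) (F := F) (m := m) (p := p) (p' := p') (j := j) (D := D) hy hB hM h ht hD.pos hD.bdd hD.mes
      (mp38 hD hj)
    have r2 := P2 k j D Mh hD hj
    have c1 : avF μ s F m (fun y ω S => |D y ω S| * Φ' y ω j S) = avF μ s F m (fun y ω S => Φ' y ω j S * |D y ω S|) := by
      congr 1
      funext y ω S
      exact mul_comm _ _
    rw [c1] at r2
    have n1 : 0 ≤ avF μ s F m (fun y ω S => Φ y ω j S * |D y ω S|) :=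
      Pr46.avF_nonneg hy fun y _ ω S => mul_nonneg (h.n0 y ω j S) (abs_nonneg _)
    have n2 : 0 ≤ avV μ s F m p j (fun y ω S => |D y ω S| * Φ y ω j S) := by
      refine mul_nonneg (inv_nonneg.2 (Nat.cast_nonneg _)) (sum_nonneg fun y hyy => integral_nonneg fun ω => ?_)
      have hne : Nonempty (Px (Pn (F.L m) y)) := ne_Pn (hy y hyy)
      exact gm_nonneg _ fun S => mul_nonneg (abs_nonneg _) (h.n0 y ω j S)
    have n3 : 0 ≤ avF μ s F m (wL3 μ s F m p p' M j D) := Pr46.avF_nonneg hy fun y _ ω S =>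
      mul_nonneg (abs_nonneg _) (mul_nonneg (Sz23.tj_nonneg _ _ _ _ _ _ _ _) (Pr46.ow_nonneg _ _ _ _ _ _))
    have n4 : 0 ≤ avF μ s F m (wL4 μ s F m p p' M A₀ j D) := Pr46.avF_nonneg hy fun y _ ω S => by
      have hne : Nonempty (Px (Pn (F.L m) y)) := ⟨S⟩
      exact mul_nonneg (le_min zero_le_one (mul_nonneg (Real.exp_pos _).le (T4_nonneg (h.A0 y ω j) S))) (abs_nonneg _)
    have n5 : 0 ≤ Mh * (4 * Real.exp (-M)) := mul_nonneg hD.pos.le (by positivity)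
    have k1 : Real.exp 2 ≤ 8 := by
      have h1 : Real.exp 2 = Real.exp 1 ^ 2 := by
        rw [← Real.exp_nat_mul]
        norm_num
      have h2 := Real.exp_one_lt_d9
      rw [h1]
      nlinarith [Real.exp_pos 1]
    have k2 := mul_le_mul_of_nonneg_right k1 (show 0 ≤ avF μ s F m (fun y ω S => Φ y ω j S * |D y ω S|) +
      (avV μ s F m p j (fun y ω S => |D y ω S| * Φ y ω j S) + (avF μ s F m (wL3 μ s F m p p' M j D) + Mh * (4 * Real.exp (-M)))) by linarith)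
    show avF μ s F m (wL0 μ s F m p p' Φ t j D) ≤ 8 * (avF μ s F m (fun y ω S => Φ y ω j S * |D y ω S|) +
      avF μ s F m (fun y ω S => Φ' y ω j S * |D y ω S|) + avF μ s F m (wL3 μ s F m p p' M j D) + avF μ s F m (wL4 μ s F m p p' M A₀ j D)) + Mh * e'
    rw [he']
    nlinarith
  have e5 : x - z - z - z - 2 * z - z = x - 6 * z := by ring
  have e6 : A - z - z - z - 2 * z - z = A - 6 * z := by ring
  rwa [e5, e6] at a5

end Frame

end

end Pool.Agent.W_7d29a1_C0.Rg38
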