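import Pool.Agent.W_7d29a1_C0.Ln4B
import Pool.Agent.W_7d29a1_C0.PrE46
import Pool.Agent.W_7d29a1_C0.DT5T80
import Pool.Agent.W_7d29a1_C0.N1E19
import Pool.Agent.W_7d29a1_C0.RowG38

/-!
MP_7d29a1_pr, [CURV0], leaf E5.8 / N1B (helper3): THE GLUE OF THE LINES OF `N1B`. `Ph3` = own event (mass or pair, right or left) times a micro
or long factor; `glue3`: from the price of `Ph3` given the weights without tilt and from its flip to the price of its conditional expectation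
given the weights with tilt, at the frame, by the row theorem of helper38, the products of helper46 and the T4 line of helper80.
-/

set_option autoImplicit false
set_option linter.unusedSectionVars false
set_option linter.unusedVariables false
set_option linter.dupNamespace false

namespace Pool.Agent.W_7d29a1_C0.Ln3

open Finset MeasureTheory Filter Topology
open Pool.Agent.W_7d29a1_F Pool.Agent.W_7d29a1_X
open Pool.Agent.W_7d29a1_H (EE EE_pos one_le_EE sl)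
open Pool.Agent.W_7d29a1_HS (In wd)
open Pool.Agent.W_7d29a1_HZ (wd' EE')
open Pool.Agent.W_7d29a1_C0 Pool.Agent.W_7d29a1_C0.Mod92 Pool.Agent.W_7d29a1_C0.Asm96 Pool.Agent.W_7d29a1_C0.Frm33
open Pool.Agent.W_7d29a1_C0.N38 (av BM)
open Pool.Agent.W_7d29a1_C0.Sz23 (tj ev_exp)
open Pool.Agent.W_7d29a1_C0.NTop23 (avF)
open Pool.Agent.W_7d29a1_C0.Pr46
open Pool.Agent.W_7d29a1_C0.PrB5 (PsH PrB rws)
open Pool.Agent.W_7d29a1_C0.N1E19 (Lf19 pr46_ofB)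
open Pool.Agent.W_7d29a1_C0.T4F80 (Am T4M dt5t)
open Pool.Agent.W_7d29a1_C0.Par92 (Est Sml)
open Pool.Agent.W_7d29a1_C0.Lo38 (own38 own38_nonneg own38_le_one)
open Pool.Agent.W_7d29a1_C0.Rg38 (oA oB avV Hy38 prow38)
open Pool.Agent.W_7d29a1_C0.Swap57 (NI cE2)
open Pool.W7d29a1.C0.R43 (Tau mI mI_nonneg)
open Pool.W7d29a1.C0.S1 (i1 i1_nonneg i1_of i1_not)
open Pool.W7d29a1.C0.O1 (T4)
open Pool.W7d29a1.C0.L38 (wi38)
open Pool.W7d29a1.C0 (gm)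
open Pool.W7d29a1.C0.VT31 (cE)

noncomputable section

/-! ### The own event -/

/-- A factor at a frame. -/
abbrev Mc3 : Type := (F : Frm96) → (m p p' : ℕ) → ℝ → (y : ℕ) → Env × Finset ℕ → ℕ → Px (Pn (F.L m) y) → ℝ

/-- **Own event times a factor**; `fm`: mass (`true`) or pair, `sd`: right (`true`) or left. -/
def Ph3 (μ : Measure ℝ) (s : ℝ) (fm sd : Bool) (Mic : Mc3) (F : Frm96) (m p p' : ℕ) (M : ℝ) (y : ℕ) (ω : Env × Finset ℕ) (j : ℕ)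
    (S : Px (Pn (F.L m) y)) : ℝ :=
  own38 (fm = false) (wm μ s (F.L m) (Pn (F.L m) y) ω) (pJ (j - 2 ^ p') (j + 2 ^ p')) (oA sd (F.b0 m p) (2 ^ p) j)
    (oB sd (F.b0 m p) (2 ^ p) j) M S * Mic F m p p' M y ω j S

section Own

variable {Q : Finset (Finset ℕ)} [Nonempty (Px Q)]

theorem own_pair {Y : Type*} [DecidableEq Y] {T : Prop} (hT : T) (w : Px Q → ℝ) (p : Px Q → Y) (U V : ℕ) (M : ℝ) (x : Px Q) :
    own38 T w p U V M x = i1 (Tau w p U V M x) := by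
  unfold own38
  rw [if_pos hT]
  rfl

theorem own_mass {Y : Type*} [DecidableEq Y] {T : Prop} (hT : ¬ T) (w : Px Q → ℝ) (p : Px Q → Y) (U V : ℕ) (M : ℝ) (x : Px Q) :
    own38 T w p U V M x = i1 (Real.exp (-(5 * M)) ≤ mI w p U V x) := by
  unfold own38
  rw [if_neg hT]

theorem i1_le_exp {v M : ℝ} (hv : 0 ≤ v) : i1 (Real.exp (-(5 * M)) ≤ v) ≤ Real.exp (5 * M) * v := by
  by_cases h : Real.exp (-(5 * M)) ≤ v
  · rw [i1_of h]
    calc (1 : ℝ) = Real.exp (5 * M) * Real.exp (-(5 * M)) := by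
          rw [← Real.exp_add, add_neg_cancel, Real.exp_zero]
      _ ≤ Real.exp (5 * M) * v := mul_le_mul_of_nonneg_left h (Real.exp_pos _).le
  · rw [i1_not h]
    positivity

variable {μ : Measure ℝ} {s : ℝ}

/-- **The own event is below the own factor of helper80.** -/
theorem own_le_Am (sd fm : Bool) {N b0 b b' j : ℕ} {M : ℝ} (hM : 0 ≤ M) (ω : Env × Finset ℕ) (S : Px Q) :
    own38 (fm = false) (wm μ s N Q ω) (pJ (j - b') (j + b')) (oA sd b0 b j) (oB sd b0 b j) M S ≤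
      Real.exp (5 * M) * Am sd fm μ s N Q b b' (if sd then j + b0 else j - b0) M ω j S := by
  have h1 : (1 : ℝ) ≤ Real.exp (5 * M) := Real.one_le_exp (by linarith)
  cases fm
  · rw [own_pair rfl]
    have e : Am sd false μ s N Q b b' (if sd then j + b0 else j - b0) M ω j S =
        i1 (Tau (wm μ s N Q ω) (pJ (j - b') (j + b')) (oA sd b0 b j) (oB sd b0 b j) M S) := by
      cases sd <;> rfl
    rw [e]
    exact le_mul_of_one_le_left (i1_nonneg _) h1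
  · rw [own_mass (by decide)]
    have e : Am sd true μ s N Q b b' (if sd then j + b0 else j - b0) M ω j S =
        mI (wm μ s N Q ω) (pJ (j - b') (j + b')) (oA sd b0 b j) (oB sd b0 b j) S := by
      cases sd <;> rfl
    rw [e]
    exact i1_le_exp (mI_nonneg _ _ _ _ _)

end Own

/-! ### Numbers -/

section Num

/-- The numbers of a price without long loops, at the scale of the block. -/
theorem nmq3 {E : ℕ → ℝ} (hE : ∀ n, 0 < E n) {Θ c : ℝ} {m p q : ℕ} (hc : 0 ≤ c) {A g e : ℝ} (hg0 : 0 ≤ g)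
    (hg : g ≤ ((2 ^ m : ℕ) : ℝ) ^ (-(c / 2)) / E (2 ^ q)) (he0 : 0 ≤ e) (he : e ≤ ((2 ^ m : ℕ) : ℝ) ^ (-A)) :
    Nm46 E Θ c m p q (c / 8) A g 0 0 e := by
  have hn1 := n_ge1 m
  have hn0 : (0 : ℝ) < ((2 ^ m : ℕ) : ℝ) := by linarith
  have h1 := hE (2 ^ q)
  have h2 := hE (2 ^ p)
  refine ⟨hg0, hg.trans ?_, le_rfl, by positivity, le_rfl, by positivity, he0, he⟩
  gcongr
  linarith

/-- The numbers of a price with the rate `n ^ (c / 2) / E_b ^ 2`. -/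
theorem nm3 {E : ℕ → ℝ} (hE : ∀ n, 0 < E n) {Θ δ c η : ℝ} {m p p' q : ℕ} (hC : Chg96 E Θ δ c η m p p' q) (hc : 0 ≤ c) {A g e : ℝ}
    (hg0 : 0 ≤ g) (hg : g ≤ ((2 ^ m : ℕ) : ℝ) ^ (c / 2) / E (2 ^ p) ^ 2) (he0 : 0 ≤ e) (he : e ≤ ((2 ^ m : ℕ) : ℝ) ^ (-A)) :
    Nm46 E Θ c m p q (c / 8) A g 0 0 e := by
  have hn1 := n_ge1 m
  have hn0 : (0 : ℝ) < ((2 ^ m : ℕ) : ℝ) := by linarith
  have h1 := hE (2 ^ q)
  have h2 := hE (2 ^ p)
  refine nmq3 hE hc hg0 (hg.trans ?_) he0 he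
  rw [div_le_div_iff₀ (by positivity) h1]
  have h3 : ((2 ^ m : ℕ) : ℝ) ^ (c / 2) = ((2 ^ m : ℕ) : ℝ) ^ (-(c / 2)) * ((2 ^ m : ℕ) : ℝ) ^ c := by
    rw [← Real.rpow_add hn0]
    congr 1
    ring
  rw [h3, mul_assoc]
  exact mul_le_mul_of_nonneg_left hC.low (Real.rpow_nonneg hn0.le _)

end Num

/-! ### The glue -/

section Glue

variable {μ : Measure ℝ} {s : ℝ} [IsProbabilityMeasure μ]

theorem meas_Am {N y : ℕ} [Nonempty (Px (Pn N y))] (sd fm : Bool) (b b' a : ℕ) (M : ℝ) (j : ℕ) (S : Px (Pn N y)) :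
    Measurable fun ω => Am sd fm μ s N (Pn N y) b b' a M ω j S := by
  cases fm
  · exact Lo38.meas_i1 (Sz23.meas_tau _ _ _ _ S)
  · exact Lo38.meas_mI38 _ _ _ S

theorem Am_nonneg {N : ℕ} {Q : Finset (Finset ℕ)} [Nonempty (Px Q)] (sd fm : Bool) (b b' a : ℕ) (M : ℝ) (ω : Env × Finset ℕ) (j : ℕ)
    (S : Px Q) : 0 ≤ Am sd fm μ s N Q b b' a M ω j S := by
  cases fm
  · exact i1_nonneg _
  · exact mI_nonneg _ _ _ _ _

/-- **THE GLUE.** -/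
theorem glue3 (hT : ∀ sd fm : Bool, T4M μ s sd fm) {c₁ C : ℝ} {n₀ : ℕ} (h : In μ s c₁ C n₀) (hk : KapLe96 (EE μ s) (1 / 4)) {K : ℕ}
    (hK : 32 ≤ K) {c₀ Θ δ c η : ℝ} (hR : RegP46 μ s c₀ Θ) (hδ : 0 < δ) (hc : 0 < c) (hc1 : c ≤ 1) (hcδ : c ≤ δ / 64) (hη : 0 ≤ η)
    (sd fm : Bool) {α : Type*} (Qd : ℝ → ℕ → ℕ → α → Prop) (Mic : α → Mc3)
    (m0 : ∀ d F m p p' M y ω j S, 0 ≤ Mic d F m p p' M y ω j S) (m1 : ∀ d F m p p' M y ω j S, Mic d F m p p' M y ω j S ≤ 1)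
    (mm : ∀ d F m p p' M y j S, Measurable fun ω => Mic d F m p p' M y ω j S)
    (P1 : ∃ κ : ℝ, 0 < κ ∧ ∀ κ' : ℝ, 0 < κ' → κ' ≤ κ → Est fun ι β γ m => ∀ p p' q i : ℕ, Chg96 (EE μ s) Θ δ c η m p p' q → p < p' →
      i < 2 ^ (m - q) → ∀ d, Qd ι m p d → ∀ M : ℝ, ((2 ^ m : ℕ) : ℝ) ^ κ' ≤ M → M ≤ 2 * ((2 ^ m : ℕ) : ℝ) ^ κ' →
        Pr46 μ s (frm33 μ s K ι β γ) (EE μ s) Θ c m p p' q i (c / 8) 4 (fun _ j D => avF μ s (frm33 μ s K ι β γ) m fun y ω S =>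
          Ph3 μ s fm sd (Mic d) (frm33 μ s K ι β γ) m p p' M y ω j S * |D y ω S|))
    (P2 : ∃ κ : ℝ, 0 < κ ∧ Est fun ι β γ m => ∀ p p' q i : ℕ, Chg96 (EE μ s) Θ δ c η m p p' q → i < 2 ^ (m - q) → ∀ d, Qd ι m p d →
      ∀ M M' : ℝ, M ≤ ((2 ^ m : ℕ) : ℝ) ^ κ → 5 * M + 4 * B33 β m + 1 ≤ 5 * M' → ∀ (k : ℕ)
        (D : Wt46 (frm33 μ s K ι β γ) m) (Mh : ℝ), Ps46 (frm33 μ s K ι β γ) m (2 ^ (p' - 6)) (2 ^ p') k D Mh →
      ∀ j ∈ st46 (frm33 μ s K ι β γ) m q i (2 ^ (p' - 6)) k,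
        ((((frm33 μ s K ι β γ).ys m).card : ℝ)⁻¹ * ∑ y ∈ (frm33 μ s K ι β γ).ys m, ∫ ω,
          gm (N25.vm μ s ((frm33 μ s K ι β γ).L m) (Pn ((frm33 μ s K ι β γ).L m) y) (frm33 μ s K ι β γ).dl ((frm33 μ s K ι β γ).B m)
            ((frm33 μ s K ι β γ).b0 m p) ω j) (fun S => |D y ω S| * Ph3 μ s fm sd (Mic d) (frm33 μ s K ι β γ) m p p' M y ω j S)
          ∂(Pm μ ((frm33 μ s K ι β γ).L m))) ≤
        avF μ s (frm33 μ s K ι β γ) m (fun y ω S => |D y ω S| * Ph3 μ s fm sd (Mic d) (frm33 μ s K ι β γ) m p p' M' y ω j S) +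
          Mh * ((2 ^ m : ℕ) : ℝ) ^ (-(11 / 2) : ℝ)) :
    ∃ κ : ℝ, 0 < κ ∧ ∀ κ' : ℝ, 0 < κ' → κ' ≤ κ → ∃ x : ℝ, 0 < x ∧ Est fun ι β γ m => ∀ p p' q i : ℕ,
      Chg96 (EE μ s) Θ δ c η m p p' q → p < p' → i < 2 ^ (m - q) → ∀ d, Qd ι m p d →
        Pr46 μ s (frm33 μ s K ι β γ) (EE μ s) Θ c m p p' q i x (7 / 2) (Lf19 μ s (frm33 μ s K ι β γ) m fun t y ω j S =>
          cE (wi38 μ s ((frm33 μ s K ι β γ).L m) (Pn ((frm33 μ s K ι β γ).L m) y) (frm33 μ s K ι β γ).dl ((frm33 μ s K ι β γ).B m)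
            ((frm33 μ s K ι β γ).b0 m p) j (sg ω.2 j) t ω.1) (pJ (j - 2 ^ p') (j + 2 ^ p'))
              (fun S => Ph3 μ s fm sd (Mic d) (frm33 μ s K ι β γ) m p p' (((2 ^ m : ℕ) : ℝ) ^ κ') y ω j S) S) := by
  obtain ⟨κ₁, hκ₁, H1⟩ := P1
  obtain ⟨κ₂, hκ₂, H2⟩ := P2
  obtain ⟨κ₃, hκ₃, H3⟩ := PrE46 (Θ := Θ) h hk hK hR hδ hc hc1 hcδ hη
  obtain ⟨κ₄, hκ₄, H4⟩ := dt5t (Θ := Θ) hT h hk hK hR hδ hc hcδ hη
  refine ⟨min (min κ₁ κ₂) (min (κ₃ / 2) κ₄), lt_min (lt_min hκ₁ hκ₂) (lt_min (by positivity) hκ₄), fun κ' hκ' hκκ => ⟨c / 16, by positivity, ?_⟩⟩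
  have q1 : κ' ≤ κ₁ := hκκ.trans ((min_le_left _ _).trans (min_le_left _ _))
  have q2 : κ' ≤ κ₂ := hκκ.trans ((min_le_left _ _).trans (min_le_right _ _))
  have q3 : κ' ≤ κ₃ / 2 := hκκ.trans ((min_le_right _ _).trans (min_le_left _ _))
  have q4 : κ' ≤ κ₄ := hκκ.trans ((min_le_right _ _).trans (min_le_right _ _))
  have hβs : Est fun _ β _ _ => β ≤ κ' / 2 := Est.beta (Sml.of fun _ _ => Sml.le (by positivity))
  have hrow := rows46 (K := K) (Θ := Θ) h hk hK hδ hc.le hcδ hη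
  refine ((H1 κ' hκ' q1).and (H2.and ((H3 4).and ((H4 4).and (hβs.and hrow))))).mono fun ι β γ hι hβ hγ => ?_
  filter_upwards [ev_n (show 0 < κ' / 2 by positivity) 8, ev_n (show 0 < κ₃ / 2 by positivity) 2, ev_n (show 0 < c / 96 by positivity) 8,
    ev_exp hκ' 6, ev_n one_pos 4, (tendsto_natCast_atTop_atTop.const_mul_atTop hι).eventually_gt_atTop 1,
    (tendsto_natCast_atTop_atTop.const_mul_atTop hδ).eventually_ge_atTop 6] with m e1 e2 e3 e4 e5 e6 e7 hP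
  obtain ⟨g1, g2, g3, g4, hβκ, g6⟩ := hP
  intro p p' q i hC hpp hi d hd
  obtain ⟨n, hn⟩ : ∃ n : ℝ, n = ((2 ^ m : ℕ) : ℝ) := ⟨_, rfl⟩
  have hn1 : 1 ≤ n := hn ▸ n_ge1 m
  have hn0 : 0 < n := lt_of_lt_of_le one_pos hn1
  obtain ⟨M, hM⟩ : ∃ M : ℝ, M = n ^ κ' := ⟨_, rfl⟩
  obtain ⟨hsq', hqm⟩ := chg_le33 hC hc.le hη
  have hp'm : p' ≤ m := hC.hps'.trans (hsq'.trans hqm)
  have hp6 : (6 : ℝ) ≤ p := e7.trans hC.hp
  have hp6' : 6 ≤ p := by exact_mod_cast hp6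
  have hb4 : 4 * 2 ^ (p - ⌈ι * (m : ℝ)⌉₊) ≤ 2 ^ p := b0_quarter e6 (by omega)
  have hy : ∀ y ∈ (frm33 μ s K ι β γ).ys m, y ≤ (frm33 μ s K ι β γ).L m := hy33 (by omega) m
  have hE : ∀ n, 0 < EE μ s n := fun n => EE_pos n
  have hB0 : 0 ≤ (frm33 μ s K ι β γ).B m := Real.rpow_nonneg (Nat.cast_nonneg _) _
  have g1 := g1 p p' q i hC hpp hi d hd
  have g2 := g2 p p' q i hC hi d hd
  have g3 := g3 p p' q i hC hi (2 * M)
  have g4 := g4 p p' q i hC hi M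
  have g6 := g6 p p' q i hC hi
  rw [← hn] at e1 e2 e3 e4 e5 g1 g3 g4
  simp only [← hn] at g2
  rw [← hM] at g1
  have hM0 : 0 ≤ M := hM ▸ Real.rpow_nonneg hn0.le _
  have hBM : 4 * B33 β m ≤ M := by
    have f1 : B33 β m ≤ n ^ (κ' / 2) := by
      unfold B33
      rw [← hn]
      exact Real.rpow_le_rpow_of_exponent_le hn1 hβκ
    have f2 : n ^ (κ' / 2) * n ^ (κ' / 2) = M := by
      rw [hM, ← Real.rpow_add hn0, add_halves]
    have f3 : 0 ≤ n ^ (κ' / 2) := Real.rpow_nonneg hn0.le _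
    nlinarith
  have hM1 : 1 ≤ M := by
    rw [hM]
    exact Real.one_le_rpow hn1 hκ'.le
  have hMκ₂ : M ≤ n ^ κ₂ := hM ▸ Real.rpow_le_rpow_of_exponent_le hn1 q2
  have hMκ₄ : M ≤ n ^ κ₄ := hM ▸ Real.rpow_le_rpow_of_exponent_le hn1 q4
  have h2M : 2 * M ≤ n ^ κ₃ := by
    have f1 : M ≤ n ^ (κ₃ / 2) := hM ▸ Real.rpow_le_rpow_of_exponent_le hn1 q3
    have f2 : n ^ (κ₃ / 2) * n ^ (κ₃ / 2) = n ^ κ₃ := by
      rw [← Real.rpow_add hn0, add_halves]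
    have f3 : 0 ≤ n ^ (κ₃ / 2) := Real.rpow_nonneg hn0.le _
    nlinarith
  have hMe : 4 * Real.exp (-M) ≤ n ^ (-(4 : ℝ) - 1) := by
    have f1 : Real.exp (-M) ≤ n ^ (-(6 : ℝ)) := by
      rw [hM]
      exact e4
    have f2 : n ^ (-(4 : ℝ) - 1) = n ^ (1 : ℝ) * n ^ (-(6 : ℝ)) := by
      rw [← Real.rpow_add hn0]
      norm_num
    rw [f2]
    exact mul_le_mul e5 f1 (Real.exp_pos _).le (Real.rpow_nonneg hn0.le _)
  have he : n ^ (-(11 / 2) : ℝ) ≤ n ^ (-(4 : ℝ) - 1) := Real.rpow_le_rpow_of_exponent_le hn1 (by norm_num)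
  -- the T4 line
  have P4 := g4 hM0 hMκ₄ sd fm (fun j => if sd then j + 2 ^ (p - ⌈ι * (m : ℝ)⌉₊) else j - 2 ^ (p - ⌈ι * (m : ℝ)⌉₊))
    (fun hs j hj => by
      subst hs
      simp only [if_true]
      constructor
      · exact le_rfl
      · omega)
    (fun hs j hj => by
      subst hs
      obtain ⟨r1, -, -⟩ := g6 j hj
      have : 2 ^ p ≤ 2 ^ p' := Nat.pow_le_pow_right two_pos hpp.le
      simp only [Bool.false_eq_true, if_false]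
      constructor
      · omega
      · omega)
    (2 ^ (p' - 6)) (pow_pos two_pos _) (Nat.pow_le_pow_right two_pos (by omega)) 1 one_pos
  have P4' := pr46_ofB hy (nmq3 (Θ := Θ) (p := p) (q := q) (A := 4) hE hc.le (by
    have := hE (2 ^ q)
    positivity) (by rw [← hn]) (by positivity) (by rw [← hn, one_mul])) P4
  have hH : Hy38 μ s (frm33 μ s K ι β γ) m p p' M (fm = false) sd
      (fun y ω j S => Ph3 μ s fm sd (Mic d) (frm33 μ s K ι β γ) m p p' M y ω j S)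
      (fun y ω j S => Am sd fm μ s ((frm33 μ s K ι β γ).L m) (Pn ((frm33 μ s K ι β γ).L m) y) (2 ^ p) (2 ^ p')
        (if sd then j + 2 ^ (p - ⌈ι * (m : ℝ)⌉₊) else j - 2 ^ (p - ⌈ι * (m : ℝ)⌉₊)) M ω j S) := by
    refine ⟨fun y ω j S => mul_nonneg (own38_nonneg _) (m0 _ _ _ _ _ _ _ _ _ _),
      fun y ω j S => mul_le_of_le_one_right (own38_nonneg _) (m1 _ _ _ _ _ _ _ _ _ _), fun y j S => ?_, fun y ω j S => ?_, fun y j S => ?_,
      fun y ω j S => ?_⟩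
    · have : Nonempty (Px (Pn ((frm33 μ s K ι β γ).L m) y)) := ⟨S⟩
      exact (Lo38.meas_own38 _ _ _ _ _ S).mul (mm _ _ _ _ _ _ _ _ _)
    · have : Nonempty (Px (Pn ((frm33 μ s K ι β γ).L m) y)) := ⟨S⟩
      exact Am_nonneg _ _ _ _ _ _ _ _ _
    · have : Nonempty (Px (Pn ((frm33 μ s K ι β γ).L m) y)) := ⟨S⟩
      exact meas_Am _ _ _ _ _ _ _ S
    · have : Nonempty (Px (Pn ((frm33 μ s K ι β γ).L m) y)) := ⟨S⟩
      exact (mul_le_of_le_one_right (own38_nonneg _) (m1 _ _ _ _ _ _ _ _ _ _)).trans (own_le_Am sd fm hM0 ω S)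
  have hfin := prow38 (z := c / 96) hy hE hB0 (by omega) (show (frm33 μ s K ι β γ).B m ≤ M by
      have : (frm33 μ s K ι β γ).B m = B33 β m := rfl
      rw [this]
      linarith) hH
    (g1 M le_rfl (by linarith)) (g1 (2 * M) (by linarith) le_rfl)
    (fun k j D Mh hD hj => g2 M (2 * M) hMκ₂ (by linarith) k D Mh hD j hj)
    (Real.rpow_nonneg hn0.le _) (by rw [← hn]; exact he) (by rw [← hn]; exact hMe)
    (g3 h2M _ (by
      show 4 * 2 ^ (p - ⌈ι * (m : ℝ)⌉₊) ≤ 3 * 2 ^ p'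
      have : 2 ^ p ≤ 2 ^ p' := Nat.pow_le_pow_right two_pos hpp.le
      omega)) P4' (by rw [← hn]; exact e3)
  rw [← hn, ← hM]
  exact hfin.weaken hE (by linarith) (by linarith)

end Glue

end

end Pool.Agent.W_7d29a1_C0.Ln3
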