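import Pool.Agent.W_7d29a1_C0.Ln3G
import Pool.Agent.W_7d29a1_C0.DT5H

/-!
MP_7d29a1_pr, [CURV0], leaf E5.8 / N1B (helper3): THE INPUTS OF `glue3` FOR THE LINES `2, 3, 4` OF `N1B`, both sides: own tie times micro tie
(`mcT`), own tie times micro oscillation of the kick (`mcO`): `p1_T`, `p1_O` = the prices given the weights, `p2_T`, `p2_O` = the flips.
-/

set_option autoImplicit false
set_option linter.unusedSectionVars false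
set_option linter.unusedVariables false
set_option linter.dupNamespace false

namespace Pool.Agent.W_7d29a1_C0.Ln3

open Finset MeasureTheory Filter Topology
open Pool.Agent.W_7d29a1_F Pool.Agent.W_7d29a1_X
open Pool.Agent.W_7d29a1_H (EE EE_pos one_le_EE sl)
open Pool.Agent.W_7d29a1_HS (In wd)
open Pool.Agent.W_7d29a1_HZ (wd' EE')
open Pool.Agent.W_7d29a1_C0 Pool.Agent.W_7d29a1_C0.Mod92 Pool.Agent.W_7d29a1_C0.Asm96 Pool.Agent.W_7d29a1_C0.Frm33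
open Pool.Agent.W_7d29a1_C0.N38 (av BM)
open Pool.Agent.W_7d29a1_C0.Sz23 (tj ev_exp)
open Pool.Agent.W_7d29a1_C0.NTop23 (avF)
open Pool.Agent.W_7d29a1_C0.Pr46
open Pool.Agent.W_7d29a1_C0.P86 (EE'_le_mul86)
open Pool.Agent.W_7d29a1_C0.PrB5 (PsH PrB rws)
open Pool.Agent.W_7d29a1_C0.DT5 (tkR tkR_tau tkR_mass prB_S1 prB_osc)
open Pool.Agent.W_7d29a1_C0.N1E19 (Lf19 pr46_ofB)
open Pool.Agent.W_7d29a1_C0.T4F80 (Am T4M)
open Pool.Agent.W_7d29a1_C0.Par92 (Est Sml)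
open Pool.Agent.W_7d29a1_C0.Lo38 (own38 own38_nonneg own38_le_one)
open Pool.Agent.W_7d29a1_C0.Rg38 (oB)
open Pool.Agent.W_7d29a1_C0.Ln4 (p2_oo p2_om)
open Pool.W7d29a1.C0.R43 (Tau mI)
open Pool.W7d29a1.C0.S1 (i1 i1_nonneg i1_of i1_not osc)
open Pool.W7d29a1.C0.L38 (wi38 kn38 kn38_le)
open Pool.W7d29a1.C0 (gm)
open Pool.W7d29a1.C0.VT31 (cE)

noncomputable section

/-- The left end of the micro window, right (`true`) or left. -/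
def miA (sd : Bool) (b0 b j : ℕ) : ℕ := if sd then j + b0 else j - b0 - 2 * kn38 b0 b

/-- The right end of the micro window. -/
def miB (sd : Bool) (b0 b j : ℕ) : ℕ := if sd then j + b0 + 2 * kn38 b0 b else j - b0

/-- The micro tie. -/
def mcT (μ : Measure ℝ) (s : ℝ) (sd : Bool) : Mc3 := fun F m p _ M y ω j S =>
  own38 True (wm μ s (F.L m) (Pn (F.L m) y) ω) (pJ (j - 2 ^ p) (j + 2 ^ p)) (miA sd (F.b0 m p) (2 ^ p) j) (miB sd (F.b0 m p) (2 ^ p) j) M S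

/-- The micro oscillation of the kick. -/
def mcO (μ : Measure ℝ) (s : ℝ) : Mc3 := fun F m p _ M y ω j S =>
  i1 (Real.exp (-(5 * M)) ≤ osc (wm μ s (F.L m) (Pn (F.L m) y) ω) (pJ (j - 2 ^ p) (j + 2 ^ p))
    (Mod92.gg μ s (Pn (F.L m) y) F.dl (F.B m) (F.b0 m p) ω j) S)

/-- The two indicators of the own event agree. -/
theorem own_tkR {Q : Finset (Finset ℕ)} [Nonempty (Px Q)] (T : Prop) (w : Px Q → ℝ) (c d u v : ℕ) (M : ℝ) (S : Px Q) :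
    own38 T w (pJ c d) u v M S = tkR T w c d u v M S := by
  by_cases hT : T
  · rw [own_pair hT, tkR_tau hT]
  · rw [own_mass hT, tkR_mass hT]

/-! ### Rows and numbers -/

section Rows

variable {μ : Measure ℝ} {s : ℝ} [IsProbabilityMeasure μ] {K : ℕ} {Θ δ c η c₁ C : ℝ} {n₀ : ℕ}

/-- The rows of a block are deep. -/
theorem rows3 (h : In μ s c₁ C n₀) (hk : KapLe96 (EE μ s) (1 / 4)) (hK : 32 ≤ K) (hδ : 0 < δ) (hc : 0 ≤ c) (hcδ : c ≤ δ / 64)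
    (hη : 0 ≤ η) : Est fun ι _ _ m => ∀ p p' q i : ℕ, Chg96 (EE μ s) Θ δ c η m p p' q → i < 2 ^ (m - q) →
      ∀ j ∈ Rw (R33 ι m) (i * 2 ^ q) ((i + 1) * 2 ^ q), 4 * 2 ^ p' ≤ j ∧ j + 4 * 2 ^ p' ≤ L33 K m := by
  refine ⟨δ / 16, by positivity, fun ι hι hιδ => Sml.of fun β _ => Sml.of fun γ _ => ?_⟩
  filter_upwards [deep33_ev h hk hδ hc hcδ hιδ] with m hD
  intro p p' q i hC hi j hj
  obtain ⟨hsq', hqm⟩ := chg_le33 hC hc hη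
  have hp' : δ * m ≤ p' := hC.hp.trans (by exact_mod_cast hC.hpp)
  have hDp : Deep (R33 ι m) (4 * 2 ^ p') (2 ^ sg96 (EE μ s) c m p') := hD p' hp' (hsq'.trans hqm)
  have g6 := hDp.in_block (by positivity) (dvd96 hsq' i) (dvd96 hsq' (i + 1)) hj
  have g7 : (i + 1) * 2 ^ q ≤ 2 ^ m := by
    calc (i + 1) * 2 ^ q ≤ 2 ^ (m - q) * 2 ^ q := Nat.mul_le_mul_right _ hi
      _ = 2 ^ m := by
          rw [← pow_add]
          congr 1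
          omega
  have g8 : 2 ^ m ≤ L33 K m := L33_ge (by omega) m
  omega

/-- The windows of the micro tie. -/
theorem kn_win {b0 b : ℕ} (h : 4 * b0 ≤ b) (hb : 64 ≤ b) : b ≤ 8 * (2 * kn38 b0 b) ∧ 2 * kn38 b0 b ≤ b ∧
    2 * (b0 + 2 * kn38 b0 b) ≤ b := by
  have e : kn38 b0 b = (b - b0) / 6 := rfl
  omega

/-- The rate `n ^ (c / 16) / (E_l E_b)`, `b ≤ k l`. -/
theorem rate3 (h : In μ s c₁ C n₀) {m p l k : ℕ} {c a : ℝ} (hk1 : 1 ≤ k) (hk : 2 ^ p ≤ k * l) (hc : 0 ≤ a)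
    (hn : 2 * (k : ℝ) * ((2 ^ m : ℕ) : ℝ) ^ a ≤ ((2 ^ m : ℕ) : ℝ) ^ (c / 2)) :
    2 * (((2 ^ m : ℕ) : ℝ) ^ a * ((EE μ s l)⁻¹ * (EE μ s (2 ^ p))⁻¹)) ≤ ((2 ^ m : ℕ) : ℝ) ^ (c / 2) / EE μ s (2 ^ p) ^ 2 := by
  have h1 := EE'_le_mul86 h hk1 hk
  rw [EE'_eq46, EE'_eq46] at h1
  have h2 : 0 < EE μ s l := EE_pos l
  have h3 : 0 < EE μ s (2 ^ p) := EE_pos _
  have h4 : 0 ≤ ((2 ^ m : ℕ) : ℝ) ^ a := Real.rpow_nonneg (by positivity) _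
  have h5 : (EE μ s l)⁻¹ ≤ k * (EE μ s (2 ^ p))⁻¹ := by
    rw [inv_le_iff_one_le_mul₀ h2]
    have e : k * (EE μ s (2 ^ p))⁻¹ * EE μ s l = (k * EE μ s l) / EE μ s (2 ^ p) := by
      field_simp
    rw [e, one_le_div h3]
    exact h1
  calc 2 * (((2 ^ m : ℕ) : ℝ) ^ a * ((EE μ s l)⁻¹ * (EE μ s (2 ^ p))⁻¹)) ≤
      2 * (((2 ^ m : ℕ) : ℝ) ^ a * ((k * (EE μ s (2 ^ p))⁻¹) * (EE μ s (2 ^ p))⁻¹)) := by
        have := inv_pos.2 h3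
        gcongr
    _ = (2 * (k : ℝ) * ((2 ^ m : ℕ) : ℝ) ^ a) / EE μ s (2 ^ p) ^ 2 := by
        field_simp
    _ ≤ _ := div_le_div_of_nonneg_right hn (by positivity)

end Rows

/-! ### The prices given the weights -/

section P1

variable {μ : Measure ℝ} {s : ℝ} [IsProbabilityMeasure μ] {K : ℕ} {c₁ C : ℝ} {n₀ : ℕ}

/-- The windows of the own event. -/
theorem own_side {sd : Bool} {b0 b b' : ℕ} (h4 : 4 * b0 ≤ b) (hbb : b ≤ b') {J : Finset ℕ} (hJ : ∀ j ∈ J, 4 * b' ≤ j) :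
    (∀ j ∈ J, oB sd b0 b j = j + b ∧ Rg38.oA sd b0 b j + b / 4 ≤ j + b) ∨ (∀ j ∈ J, Rg38.oA sd b0 b j = j - b ∧ j + b / 4 ≤ oB sd b0 b j + b) := by
  cases sd
  · refine Or.inr fun j hj => ⟨rfl, ?_⟩
    show j + b / 4 ≤ j - b0 + b
    have := hJ j hj
    omega
  · refine Or.inl fun j hj => ⟨rfl, ?_⟩
    show j + b0 + b / 4 ≤ j + b
    omega

/-- **(P1) OF LINE `2`**, in the form of `glue3`. -/
theorem p1_T (h : In μ s c₁ C n₀) (hk : KapLe96 (EE μ s) (1 / 4)) (hK : 32 ≤ K) {Θ δ c η : ℝ} (hδ : 0 < δ) (hc : 0 < c)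
    (hcδ : c ≤ δ / 64) (hη : 0 ≤ η) (sd fm : Bool) : ∃ κ : ℝ, 0 < κ ∧ ∀ κ' : ℝ, 0 < κ' → κ' ≤ κ → Est fun ι β γ m =>
      ∀ p p' q i : ℕ, Chg96 (EE μ s) Θ δ c η m p p' q → p < p' → i < 2 ^ (m - q) → ∀ _d : Unit, True → ∀ M : ℝ,
        ((2 ^ m : ℕ) : ℝ) ^ κ' ≤ M → M ≤ 2 * ((2 ^ m : ℕ) : ℝ) ^ κ' →
        Pr46 μ s (frm33 μ s K ι β γ) (EE μ s) Θ c m p p' q i (c / 8) 4 (fun _ j D => avF μ s (frm33 μ s K ι β γ) m fun y ω S =>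
          Ph3 μ s fm sd (mcT μ s sd) (frm33 μ s K ι β γ) m p p' M y ω j S * |D y ω S|) := by
  obtain ⟨κ, hκ, hS⟩ := prB_S1 (μ := μ) (s := s) h hK (δ := δ) (ε := c / 16) hδ (by positivity)
  obtain ⟨c₂, hc₂, hS⟩ := hS κ hκ le_rfl
  refine ⟨κ / 2, by positivity, fun κ' hκ' hκκ => ?_⟩
  refine (rows3 (K := K) (Θ := Θ) h hk hK hδ hc.le hcδ hη).mono fun ι β γ hι hβ hγ => ?_
  filter_upwards [hS ι β γ, ev_n (show 0 < κ / 2 by positivity) 2, ev_n (show 0 < δ / 2 by positivity) 8,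
    ev_n (show 0 < c / 4 by positivity) 16, ev_exp hc₂ 5, ev_n one_pos 2,
    (tendsto_natCast_atTop_atTop.const_mul_atTop hι).eventually_gt_atTop 1,
    (tendsto_natCast_atTop_atTop.const_mul_atTop hδ).eventually_ge_atTop 6] with m hS e2 e3 e4 e5 e6 e7 e8 hrow
  intro p p' q i hC hpp hi _ _ M _ hM
  obtain ⟨n, hn⟩ : ∃ n : ℝ, n = ((2 ^ m : ℕ) : ℝ) := ⟨_, rfl⟩
  have hn1 : 1 ≤ n := hn ▸ n_ge1 m
  have hn0 : 0 < n := lt_of_lt_of_le one_pos hn1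
  obtain ⟨hsq', hqm⟩ := chg_le33 hC hc.le hη
  have hp6' : (6 : ℝ) ≤ p := e8.trans hC.hp
  have hp6 : 6 ≤ p := by exact_mod_cast hp6'
  have hb64 : 64 ≤ 2 ^ p := by
    calc 64 = 2 ^ 6 := by norm_num
      _ ≤ 2 ^ p := Nat.pow_le_pow_right two_pos hp6
  have hb4 : 4 * 2 ^ (p - ⌈ι * (m : ℝ)⌉₊) ≤ 2 ^ p := b0_quarter e7 (by omega)
  have hbb : 2 ^ p ≤ 2 ^ p' := Nat.pow_le_pow_right two_pos hpp.le
  have hbn : n ^ δ ≤ ((2 ^ p : ℕ) : ℝ) := hn ▸ two_ge hC.hp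
  obtain ⟨w1, w2, w3⟩ := kn_win hb4 hb64
  have hy : ∀ y ∈ (frm33 μ s K ι β γ).ys m, y ≤ (frm33 μ s K ι β γ).L m := hy33 (by omega) m
  have hr := hrow p p' q i hC hi
  have hMκ : M ≤ ((2 ^ m : ℕ) : ℝ) ^ κ := by
    rw [← hn] at e2 hM ⊢
    have f1 : n ^ κ' ≤ n ^ (κ / 2) := Real.rpow_le_rpow_of_exponent_le hn1 hκκ
    have f2 : n ^ (κ / 2) * n ^ (κ / 2) = n ^ κ := by
      rw [← Real.rpow_add hn0, add_halves]
    have f3 : 0 ≤ n ^ (κ / 2) := Real.rpow_nonneg hn0.le _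
    nlinarith
  have hl₀ : ((2 ^ m : ℕ) : ℝ) ^ (δ / 2) ≤ ((2 * kn38 (2 ^ (p - ⌈ι * (m : ℝ)⌉₊)) (2 ^ p) : ℕ) : ℝ) := by
    rw [← hn] at e3 ⊢
    have f2 : n ^ (δ / 2) * n ^ (δ / 2) = n ^ δ := by
      rw [← Real.rpow_add hn0, add_halves]
    have f3 : 0 ≤ n ^ (δ / 2) := Real.rpow_nonneg hn0.le _
    have f4 : ((2 ^ p : ℕ) : ℝ) ≤ 8 * ((2 * kn38 (2 ^ (p - ⌈ι * (m : ℝ)⌉₊)) (2 ^ p) : ℕ) : ℝ) := by exact_mod_cast w1
    nlinarith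
  have key := hS p p' q i hC.hp hpp (fun j hj => by
      have := hr j hj
      omega) (2 * kn38 (2 ^ (p - ⌈ι * (m : ℝ)⌉₊)) (2 ^ p)) hl₀ w2
    (miA sd (2 ^ (p - ⌈ι * (m : ℝ)⌉₊)) (2 ^ p)) (miB sd (2 ^ (p - ⌈ι * (m : ℝ)⌉₊)) (2 ^ p)) (fun j hj => by
      have := hr j hj
      cases sd
      · show j ≤ j - 2 ^ (p - ⌈ι * (m : ℝ)⌉₊) - 2 * kn38 (2 ^ (p - ⌈ι * (m : ℝ)⌉₊)) (2 ^ p) + 2 ^ p / 2 ∧
          j - 2 ^ (p - ⌈ι * (m : ℝ)⌉₊) ≤ j + 2 ^ p / 2 ∧ j - 2 ^ (p - ⌈ι * (m : ℝ)⌉₊) - 2 * kn38 (2 ^ (p - ⌈ι * (m : ℝ)⌉₊)) (2 ^ p) +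
            2 * kn38 (2 ^ (p - ⌈ι * (m : ℝ)⌉₊)) (2 ^ p) ≤ j - 2 ^ (p - ⌈ι * (m : ℝ)⌉₊)
        omega
      · show j ≤ j + 2 ^ (p - ⌈ι * (m : ℝ)⌉₊) + 2 ^ p / 2 ∧
          j + 2 ^ (p - ⌈ι * (m : ℝ)⌉₊) + 2 * kn38 (2 ^ (p - ⌈ι * (m : ℝ)⌉₊)) (2 ^ p) ≤ j + 2 ^ p / 2 ∧
            j + 2 ^ (p - ⌈ι * (m : ℝ)⌉₊) + 2 * kn38 (2 ^ (p - ⌈ι * (m : ℝ)⌉₊)) (2 ^ p) ≤
              j + 2 ^ (p - ⌈ι * (m : ℝ)⌉₊) + 2 * kn38 (2 ^ (p - ⌈ι * (m : ℝ)⌉₊)) (2 ^ p)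
        omega)
    (Rg38.oA sd (2 ^ (p - ⌈ι * (m : ℝ)⌉₊)) (2 ^ p)) (oB sd (2 ^ (p - ⌈ι * (m : ℝ)⌉₊)) (2 ^ p))
    ((own_side (sd := sd) hb4 hbb (fun j hj => (hr j hj).1))) True (fm = false) M hMκ 1 zero_le_one
  have hE : ∀ n, 0 < EE μ s n := fun n => EE_pos n
  have hfin := pr46_ofB hy (nm3 (Θ := Θ) (A := 4) hE hC hc.le (by
      have := hE (2 ^ p)
      have := hE (2 * kn38 (2 ^ (p - ⌈ι * (m : ℝ)⌉₊)) (2 ^ p))
      positivity) (by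
      have r1 := rate3 (μ := μ) (s := s) h (m := m) (p := p) (k := 8) (c := c) (a := c / 16) (by norm_num) w1 (by positivity) (by
        rw [← hn] at e4 ⊢
        have f1 : n ^ (c / 16) ≤ n ^ (c / 4) := Real.rpow_le_rpow_of_exponent_le hn1 (by linarith)
        have f2 : n ^ (c / 4) * n ^ (c / 4) = n ^ (c / 2) := by
          rw [← Real.rpow_add hn0]
          congr 1
          ring
        have f3 : 0 ≤ n ^ (c / 16) := Real.rpow_nonneg hn0.le _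
        push_cast
        nlinarith)
      refine le_trans ?_ r1
      have f1 : 0 ≤ ((2 ^ m : ℕ) : ℝ) ^ (c / 16) * ((EE μ s (2 * kn38 (2 ^ (p - ⌈ι * (m : ℝ)⌉₊)) (2 ^ p)))⁻¹ * (EE μ s (2 ^ p))⁻¹) := by
        have := hE (2 ^ p)
        have := hE (2 * kn38 (2 ^ (p - ⌈ι * (m : ℝ)⌉₊)) (2 ^ p))
        positivity
      linarith) (by positivity) (by
      rw [← hn] at e5 e6 ⊢
      have f1 : n ^ (-(4 : ℝ)) = n ^ (1 : ℝ) * n ^ (-(5 : ℝ)) := by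
        rw [← Real.rpow_add hn0]
        norm_num
      rw [f1]
      have f2 : 0 ≤ n ^ (-(5 : ℝ)) := Real.rpow_nonneg hn0.le _
      have f3 : 0 < Real.exp (-n ^ c₂) := Real.exp_pos _
      calc (1 + 1) * Real.exp (-n ^ c₂) ≤ n ^ (1 : ℝ) * n ^ (-(5 : ℝ)) :=
            mul_le_mul (by linarith) e5 f3.le (Real.rpow_nonneg hn0.le _))) key
  refine hfin.mono fun t _ k j D Mh hD _ => le_of_eq ?_
  unfold Lf19
  congr 1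
  funext y ω S
  have : Nonempty (Px (Pn ((frm33 μ s K ι β γ).L m) y)) := ⟨S⟩
  congr 1
  unfold Ph3 mcT
  rw [own_tkR, own_tkR, mul_comm]
  rfl

/-- **(P1) OF LINES `3`, `4`**, in the form of `glue3`. -/
theorem p1_O (h : In μ s c₁ C n₀) (hk : KapLe96 (EE μ s) (1 / 4)) (hK : 32 ≤ K) {Θ δ c η : ℝ} (hδ : 0 < δ) (hc : 0 < c)
    (hcδ : c ≤ δ / 64) (hη : 0 ≤ η) (sd fm : Bool) : ∃ κ : ℝ, 0 < κ ∧ ∀ κ' : ℝ, 0 < κ' → κ' ≤ κ → Est fun ι β γ m =>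
      ∀ p p' q i : ℕ, Chg96 (EE μ s) Θ δ c η m p p' q → p < p' → i < 2 ^ (m - q) → ∀ _d : Unit, True → ∀ M : ℝ,
        ((2 ^ m : ℕ) : ℝ) ^ κ' ≤ M → M ≤ 2 * ((2 ^ m : ℕ) : ℝ) ^ κ' →
        Pr46 μ s (frm33 μ s K ι β γ) (EE μ s) Θ c m p p' q i (c / 8) 4 (fun _ j D => avF μ s (frm33 μ s K ι β γ) m fun y ω S =>
          Ph3 μ s fm sd (mcO μ s) (frm33 μ s K ι β γ) m p p' M y ω j S * |D y ω S|) := by
  obtain ⟨κ, hκ, hS⟩ := prB_osc (μ := μ) (s := s) h hK (δ := δ) (ε := c / 16) hδ (by positivity)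
  refine ⟨κ / 2, by positivity, fun κ' hκ' hκκ => ?_⟩
  have hιs : Est fun ι _ _ _ => ι ≤ c / 16 := Est.iota (Sml.le (by positivity))
  refine (hιs.and ((hS 5).and (rows3 (K := K) (Θ := Θ) h hk hK hδ hc.le hcδ hη))).mono fun ι β γ hι hβ hγ => ?_
  filter_upwards [ev_n (show 0 < κ / 2 by positivity) 2, ev_n (show 0 < c / 4 by positivity) 4, ev_n one_pos 2,
    (tendsto_natCast_atTop_atTop.const_mul_atTop hι).eventually_gt_atTop 1,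
    (tendsto_natCast_atTop_atTop.const_mul_atTop hδ).eventually_ge_atTop 6] with m e2 e4 e6 e7 e8 hP
  obtain ⟨hιc, hS, hrow⟩ := hP
  intro p p' q i hC hpp hi _ _ M _ hM
  obtain ⟨n, hn⟩ : ∃ n : ℝ, n = ((2 ^ m : ℕ) : ℝ) := ⟨_, rfl⟩
  have hn1 : 1 ≤ n := hn ▸ n_ge1 m
  have hn0 : 0 < n := lt_of_lt_of_le one_pos hn1
  obtain ⟨hsq', hqm⟩ := chg_le33 hC hc.le hη
  have hp6' : (6 : ℝ) ≤ p := e8.trans hC.hp
  have hp6 : 6 ≤ p := by exact_mod_cast hp6'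
  have hb4 : 4 * 2 ^ (p - ⌈ι * (m : ℝ)⌉₊) ≤ 2 ^ p := b0_quarter e7 (by omega)
  have hbb : 2 ^ p ≤ 2 ^ p' := Nat.pow_le_pow_right two_pos hpp.le
  have hy : ∀ y ∈ (frm33 μ s K ι β γ).ys m, y ≤ (frm33 μ s K ι β γ).L m := hy33 (by omega) m
  have hr := hrow p p' q i hC hi
  have hMκ : M ≤ ((2 ^ m : ℕ) : ℝ) ^ κ := by
    rw [← hn] at e2 hM ⊢
    have f1 : n ^ κ' ≤ n ^ (κ / 2) := Real.rpow_le_rpow_of_exponent_le hn1 hκκ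
    have f2 : n ^ (κ / 2) * n ^ (κ / 2) = n ^ κ := by
      rw [← Real.rpow_add hn0, add_halves]
    have f3 : 0 ≤ n ^ (κ / 2) := Real.rpow_nonneg hn0.le _
    nlinarith
  have key := hS p p' q i hC.hp hpp (fun j hj => by
      have := hr j hj
      omega) (Rg38.oA sd (2 ^ (p - ⌈ι * (m : ℝ)⌉₊)) (2 ^ p)) (oB sd (2 ^ (p - ⌈ι * (m : ℝ)⌉₊)) (2 ^ p))
    ((own_side (sd := sd) hb4 hbb (fun j hj => (hr j hj).1))) (fm = false) M hMκ 1 zero_le_one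
  have hE : ∀ n, 0 < EE μ s n := fun n => EE_pos n
  have hkn : ((2 ^ ⌈ι * (m : ℝ)⌉₊ : ℕ) : ℝ) ≤ 2 * n ^ (c / 16) := by
    have h1 : (⌈ι * (m : ℝ)⌉₊ : ℝ) ≤ c / 16 * m + 1 := by
      refine (Nat.ceil_lt_add_one (by positivity)).le.trans ?_
      have : ι * (m : ℝ) ≤ c / 16 * m := mul_le_mul_of_nonneg_right hιc (Nat.cast_nonneg _)
      linarith
    rw [hn]
    push_cast
    rw [← Real.rpow_natCast 2 m, ← Real.rpow_mul two_pos.le, ← Real.rpow_natCast 2]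
    calc (2 : ℝ) ^ ((⌈ι * (m : ℝ)⌉₊ : ℕ) : ℝ) ≤ (2 : ℝ) ^ (c / 16 * m + 1) := Real.rpow_le_rpow_of_exponent_le one_le_two h1
      _ = 2 * (2 : ℝ) ^ ((m : ℝ) * (c / 16)) := by
          rw [Real.rpow_add two_pos, Real.rpow_one, mul_comm (m : ℝ) (c / 16)]
          ring
  have hpk : 2 ^ p ≤ 2 ^ ⌈ι * (m : ℝ)⌉₊ * 2 ^ (p - ⌈ι * (m : ℝ)⌉₊) := by
    rw [← pow_add]
    exact Nat.pow_le_pow_right two_pos (by omega)
  have hfin := pr46_ofB hy (nm3 (Θ := Θ) (A := 4) hE hC hc.le (by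
      have := hE (2 ^ p)
      have := hE (2 ^ (p - ⌈ι * (m : ℝ)⌉₊))
      positivity)
      (rate3 (μ := μ) (s := s) h (m := m) (p := p) (k := 2 ^ ⌈ι * (m : ℝ)⌉₊) (c := c) (a := c / 16) Nat.one_le_two_pow hpk
        (by positivity) (by
        rw [← hn] at e4 ⊢
        have f1 : n ^ (c / 16) * n ^ (c / 16) ≤ n ^ (c / 4) := by
          rw [← Real.rpow_add hn0]
          exact Real.rpow_le_rpow_of_exponent_le hn1 (by linarith)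
        have f2 : n ^ (c / 4) * n ^ (c / 4) = n ^ (c / 2) := by
          rw [← Real.rpow_add hn0]
          congr 1
          ring
        have f3 : 0 ≤ n ^ (c / 16) := Real.rpow_nonneg hn0.le _
        have f4 : 0 ≤ n ^ (c / 4) := Real.rpow_nonneg hn0.le _
        calc 2 * (((2 ^ ⌈ι * (m : ℝ)⌉₊ : ℕ) : ℕ) : ℝ) * n ^ (c / 16) ≤ 2 * (2 * n ^ (c / 16)) * n ^ (c / 16) := by gcongr
          _ = 4 * (n ^ (c / 16) * n ^ (c / 16)) := by ring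
          _ ≤ n ^ (c / 4) * n ^ (c / 4) := by
              refine mul_le_mul e4 f1 (by positivity) f4
          _ = n ^ (c / 2) := f2))
      (by positivity) (by
      rw [← hn] at e6 ⊢
      have f1 : n ^ (-(4 : ℝ)) = n ^ (1 : ℝ) * n ^ (-(5 : ℝ)) := by
        rw [← Real.rpow_add hn0]
        norm_num
      rw [f1]
      exact mul_le_mul_of_nonneg_right (by linarith) (Real.rpow_nonneg hn0.le _))) key
  refine hfin.mono fun t _ k j D Mh hD _ => le_of_eq ?_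
  unfold Lf19
  congr 1
  funext y ω S
  have : Nonempty (Px (Pn ((frm33 μ s K ι β γ).L m) y)) := ⟨S⟩
  congr 1
  unfold Ph3 mcO
  rw [own_tkR, mul_comm]
  rfl

end P1

/-! ### The lines -/

section Lines

variable {μ : Measure ℝ} {s : ℝ} [IsProbabilityMeasure μ] {K : ℕ} {c₁ C : ℝ} {n₀ : ℕ}

/-- **(P2) OF LINE `2`**, in the form of `glue3`. -/
theorem p2_T (h : In μ s c₁ C n₀) (hk : KapLe96 (EE μ s) (1 / 4)) (hK : 32 ≤ K) {Θ δ c η : ℝ} (hδ : 0 < δ) (hc : 0 ≤ c)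
    (hcδ : c ≤ δ / 64) (hη : 0 ≤ η) (sd fm : Bool) : ∃ κ : ℝ, 0 < κ ∧ Est fun ι β γ m => ∀ p p' q i : ℕ,
      Chg96 (EE μ s) Θ δ c η m p p' q → i < 2 ^ (m - q) → ∀ _d : Unit, True →
      ∀ M M' : ℝ, M ≤ ((2 ^ m : ℕ) : ℝ) ^ κ → 5 * M + 4 * B33 β m + 1 ≤ 5 * M' → ∀ (k : ℕ)
        (D : Wt46 (frm33 μ s K ι β γ) m) (Mh : ℝ), Ps46 (frm33 μ s K ι β γ) m (2 ^ (p' - 6)) (2 ^ p') k D Mh →
      ∀ j ∈ st46 (frm33 μ s K ι β γ) m q i (2 ^ (p' - 6)) k,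
        ((((frm33 μ s K ι β γ).ys m).card : ℝ)⁻¹ * ∑ y ∈ (frm33 μ s K ι β γ).ys m, ∫ ω,
          gm (N25.vm μ s ((frm33 μ s K ι β γ).L m) (Pn ((frm33 μ s K ι β γ).L m) y) (frm33 μ s K ι β γ).dl ((frm33 μ s K ι β γ).B m)
            ((frm33 μ s K ι β γ).b0 m p) ω j) (fun S => |D y ω S| * Ph3 μ s fm sd (mcT μ s sd) (frm33 μ s K ι β γ) m p p' M y ω j S)
          ∂(Pm μ ((frm33 μ s K ι β γ).L m))) ≤
        avF μ s (frm33 μ s K ι β γ) m (fun y ω S => |D y ω S| * Ph3 μ s fm sd (mcT μ s sd) (frm33 μ s K ι β γ) m p p' M' y ω j S) +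
          Mh * ((2 ^ m : ℕ) : ℝ) ^ (-(11 / 2) : ℝ) := by
  obtain ⟨κ, hκ, hE⟩ := p2_oo (Θ := Θ) h hk hK hδ hc hcδ hη
  refine ⟨κ, hκ, hE.mono fun ι β γ _ _ _ => Eventually.of_forall fun m hm => ?_⟩
  intro p p' q i hC hi _ _ M M' hM hMM k D Mh hD j hj
  refine hm p p' q i hC hi M M' hM hMM (fm = false) True k D Mh hD j hj (Rg38.oA sd ((frm33 μ s K ι β γ).b0 m p) (2 ^ p) j)
    (oB sd ((frm33 μ s K ι β γ).b0 m p) (2 ^ p) j) (miA sd ((frm33 μ s K ι β γ).b0 m p) (2 ^ p) j)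
    (miB sd ((frm33 μ s K ι β γ).b0 m p) (2 ^ p) j) ?_ ?_
  · cases sd
    · exact Or.inl le_rfl
    · exact Or.inr le_rfl
  · cases sd
    · exact Or.inl le_rfl
    · exact Or.inr le_rfl

/-- **(P2) OF LINES `3`, `4`**, in the form of `glue3`. -/
theorem p2_O (h : In μ s c₁ C n₀) (hk : KapLe96 (EE μ s) (1 / 4)) (hK : 32 ≤ K) {Θ δ c η : ℝ} (hδ : 0 < δ) (hc : 0 ≤ c)
    (hcδ : c ≤ δ / 64) (hη : 0 ≤ η) (sd fm : Bool) : ∃ κ : ℝ, 0 < κ ∧ Est fun ι β γ m => ∀ p p' q i : ℕ,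
      Chg96 (EE μ s) Θ δ c η m p p' q → i < 2 ^ (m - q) → ∀ _d : Unit, True →
      ∀ M M' : ℝ, M ≤ ((2 ^ m : ℕ) : ℝ) ^ κ → 5 * M + 4 * B33 β m + 1 ≤ 5 * M' → ∀ (k : ℕ)
        (D : Wt46 (frm33 μ s K ι β γ) m) (Mh : ℝ), Ps46 (frm33 μ s K ι β γ) m (2 ^ (p' - 6)) (2 ^ p') k D Mh →
      ∀ j ∈ st46 (frm33 μ s K ι β γ) m q i (2 ^ (p' - 6)) k,
        ((((frm33 μ s K ι β γ).ys m).card : ℝ)⁻¹ * ∑ y ∈ (frm33 μ s K ι β γ).ys m, ∫ ω,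
          gm (N25.vm μ s ((frm33 μ s K ι β γ).L m) (Pn ((frm33 μ s K ι β γ).L m) y) (frm33 μ s K ι β γ).dl ((frm33 μ s K ι β γ).B m)
            ((frm33 μ s K ι β γ).b0 m p) ω j) (fun S => |D y ω S| * Ph3 μ s fm sd (mcO μ s) (frm33 μ s K ι β γ) m p p' M y ω j S)
          ∂(Pm μ ((frm33 μ s K ι β γ).L m))) ≤
        avF μ s (frm33 μ s K ι β γ) m (fun y ω S => |D y ω S| * Ph3 μ s fm sd (mcO μ s) (frm33 μ s K ι β γ) m p p' M' y ω j S) +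
          Mh * ((2 ^ m : ℕ) : ℝ) ^ (-(11 / 2) : ℝ) := by
  obtain ⟨κ, hκ, hE⟩ := p2_om (Θ := Θ) h hk hK hδ hc hcδ hη
  refine ⟨κ, hκ, hE.mono fun ι β γ _ _ _ => Eventually.of_forall fun m hm => ?_⟩
  intro p p' q i hC hi _ _ M M' hM hMM k D Mh hD j hj
  refine hm p p' q i hC hi M M' hM hMM (fm = false) k D Mh hD j hj (Rg38.oA sd ((frm33 μ s K ι β γ).b0 m p) (2 ^ p) j)
    (oB sd ((frm33 μ s K ι β γ).b0 m p) (2 ^ p) j) ?_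
  cases sd
  · exact Or.inl le_rfl
  · exact Or.inr le_rfl

theorem meas_mcT {F : Frm96} {m p p' : ℕ} {M : ℝ} {y j : ℕ} (sd : Bool) (S : Px (Pn (F.L m) y)) :
    Measurable fun ω => mcT μ s sd F m p p' M y ω j S := by
  have : Nonempty (Px (Pn (F.L m) y)) := ⟨S⟩
  exact Lo38.meas_own38 _ _ _ _ _ S

theorem meas_mcO {F : Frm96} {m p p' : ℕ} {M : ℝ} {y j : ℕ} (S : Px (Pn (F.L m) y)) :
    Measurable fun ω => mcO μ s F m p p' M y ω j S := by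
  have : Nonempty (Px (Pn (F.L m) y)) := ⟨S⟩
  exact DT5.meas_iosc _ _ _ _ _ _ _ S

end Lines

end

end Pool.Agent.W_7d29a1_C0.Ln3
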