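import Pool.Agent.W_7d29a1_C0.LgP38
import Pool.Agent.W_7d29a1_C0.FlipR4F

/-!
CURV0 (MP_7d29a1_pr), leaf E5.8 / N1B: THE FLIPS OF THE LINES `2, 3, 4` AT THE CONCRETE FRAME. Under the law of the other corner `vm`, masses
at the actual weight: `flip_oo_33` = own event (pair or mass) times another one in any other window; `flip_om_33` = own event times micro
oscillation of the kick. Both are at most the same with larger levels under the actual law, in the mean over the ends, plus `Mh n^(-11/2)`.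
(helper4)
-/

set_option autoImplicit false
set_option linter.unusedSectionVars false
set_option linter.unusedVariables false

namespace Pool.Agent.W_7d29a1_C0.Ln4

open Finset MeasureTheory Filter Topology
open Pool.Agent.W_7d29a1_F hiding W_pos W_nonneg W_add
open Pool.Agent.W_7d29a1_X Pool.Agent.W_7d29a1_C0.Mod92 Pool.Agent.W_7d29a1_C0.Flip61 Pool.Agent.W_7d29a1_C0.FlipR4
open Pool.Agent.W_7d29a1_C0.Pin18
open Pool.Agent.W_7d29a1_HS (In wd)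
open Pool.Agent.W_7d29a1_C0.Frm33
open Pool.Agent.W_7d29a1_C0.FlipR4.DT (flip_two vm_eq wm_wf i1_iv thr_lip thr_lt tsw_osc)
open Pool.Agent.W_7d29a1_C0.Lo38 (own38 oV38 own38_eq tsw_oV oV_tilt)
open Pool.W7d29a1.C0 (gm gm_mono)
open Pool.W7d29a1.C0.R43 (cE2_tilt)
open Pool.W7d29a1.C0.S1 (i1 osc)

noncomputable section

variable {μ : Measure ℝ} {s : ℝ} {N b j : ℕ} {δ B : ℝ}

section Law

variable [IsProbabilityMeasure μ] {y₀ n : ℕ} {θ ε Mh : ℝ}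

/-- **THE FLIP OF TWO OWN EVENTS.** -/
theorem flip_oo (hb0 : 0 < b) (hj : j + b ≤ N) (hB : 0 ≤ B) {m m' : ℝ} (hm : 5 * m + 4 * B + 1 ≤ 5 * m') (T T' : Prop)
    {c d o o' a r U V : ℕ} (hc : c ≤ j - b) (hd : j + b ≤ d) (ho : o' ≤ j - b ∨ j + b ≤ o) (ha : a ≤ j - b) (hr : j + b ≤ r)
    (hU : V ≤ j - b ∨ j + b ≤ U) {H : (y : ℕ) → Env × Finset ℕ → Px (Pn N y) → ℝ} (hH : Cov1 N b j H Mh) (H0 : ∀ y ω x, 0 ≤ H y ω x)
    (hy : 1 ≤ y₀) (hn : 1 ≤ n) (hyN : y₀ + n ≤ N) (hE : FErr2 μ s N δ B b j y₀ n θ ε) :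
    avy (Ico y₀ (y₀ + n)) (fun y => ∫ ω, gm (N25.vm μ s N (Pn N y) δ B b ω j) (fun x => H y ω x *
        (own38 T (wm μ s N (Pn N y) ω) (pJ c d) o o' m x * own38 T' (wm μ s N (Pn N y) ω) (pJ a r) U V m x)) ∂(Pm μ N)) ≤
      avy (Ico y₀ (y₀ + n)) (fun y => ∫ ω, gm (wm μ s N (Pn N y) ω) (fun x => H y ω x *
        (own38 T (wm μ s N (Pn N y) ω) (pJ c d) o o' m' x * own38 T' (wm μ s N (Pn N y) ω) (pJ a r) U V m' x)) ∂(Pm μ N)) +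
      (2 * Mh / n + (3 * (Mh * (16 * Real.exp (5 * m + 4 * B)) + 2 * Mh) * θ + 4 * Mh * ε)) := by
  have hG : TRep μ s N δ B b j (fun y ω _ _ ρ => H y ω (ρ 0)) Mh 0 := TRep.fn (CovM.of1 hH 0)
  have key := flip_two (X := fun y ω w x => oV38 T w (pJ c d) o o' x) (Y := fun y ω w x => oV38 T' w (pJ a r) U V x)
    hb0 hj hB (m := m) (m' := m') (tsw_oV hc hd ho hm) (fun y ω w A hA x => oV_tilt hA x) (tsw_oV ha hr hU hm)
    (fun y ω w A hA x => oV_tilt hA x) hG (fun y ω _ _ ρ => H0 y ω (ρ 0)) hy hn hyN hE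
  simp only [vm_eq, own38_eq, i1_iv]
  refine key.trans (le_of_eq ?_)
  ring

/-- **THE FLIP OF OWN TIMES MICRO OSCILLATION.** `b₁` = the base of the kick. -/
theorem flip_om (hb0 : 0 < b) (hj : j + b ≤ N) (hB : 0 ≤ B) {m m' : ℝ} (hm : 5 * m + 4 * B + 1 ≤ 5 * m') (T : Prop)
    {b₁ : ℕ} (hb1 : b ≤ b₁) {c d o o' a r : ℕ} (hc : c ≤ j - b) (hd : j + b ≤ d) (ho : o' ≤ j - b ∨ j + b ≤ o) (ha : a ≤ j - b)
    (hr : j + b ≤ r) {H : (y : ℕ) → Env × Finset ℕ → Px (Pn N y) → ℝ} (hH : Cov1 N b j H Mh) (H0 : ∀ y ω x, 0 ≤ H y ω x)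
    (hy : 1 ≤ y₀) (hn : 1 ≤ n) (hyN : y₀ + n ≤ N) (hE : FErr2 μ s N δ B b j y₀ n θ ε) :
    avy (Ico y₀ (y₀ + n)) (fun y => ∫ ω, gm (N25.vm μ s N (Pn N y) δ B b ω j) (fun x => H y ω x *
        (own38 T (wm μ s N (Pn N y) ω) (pJ c d) o o' m x *
          i1 (Real.exp (-(5 * m)) ≤ osc (wm μ s N (Pn N y) ω) (pJ a r) (Mod92.gg μ s (Pn N y) δ B b₁ ω j) x))) ∂(Pm μ N)) ≤
      avy (Ico y₀ (y₀ + n)) (fun y => ∫ ω, gm (wm μ s N (Pn N y) ω) (fun x => H y ω x *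
        (own38 T (wm μ s N (Pn N y) ω) (pJ c d) o o' m' x *
          i1 (Real.exp (-(5 * m')) ≤ osc (wm μ s N (Pn N y) ω) (pJ a r) (Mod92.gg μ s (Pn N y) δ B b₁ ω j) x))) ∂(Pm μ N)) +
      (2 * Mh / n + (3 * (Mh * (8 * Real.exp (5 * m + 4 * B) * (B + 1)) + 2 * Mh) * θ + 4 * Mh * ε)) := by
  have hG : TRep μ s N δ B b j (fun y ω _ _ ρ => H y ω (ρ 0)) Mh 0 := TRep.fn (CovM.of1 hH 0)
  have h1 : TSw μ s N δ B b j (fun y ω _ w ρ => Real.exp (-(5 * m + 4 * B)) ≤ osc w (pJ a r) (Mod92.gg μ s (Pn N y) δ B b₁ ω j) (ρ 0))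
      (fun y ω _ w ρ => Real.exp (-(5 * m')) ≤ osc w (pJ a r) (Mod92.gg μ s (Pn N y) δ B b₁ ω j) (ρ 0))
      (2 * Real.exp (5 * m + 4 * B) * (4 * B)) :=
    (tsw_osc hB hb1 ha hr (thr_lt hm)).mono (thr_lip hm (by positivity))
  have key := flip_two (X := fun y ω w x => oV38 T w (pJ c d) o o' x)
    (Y := fun y ω w x => osc w (pJ a r) (Mod92.gg μ s (Pn N y) δ B b₁ ω j) x)
    hb0 hj hB (m := m) (m' := m') (tsw_oV hc hd ho hm) (fun y ω w A hA x => oV_tilt hA x) h1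
    (fun y ω w A hA x => by
      have n1 : Nonempty (Px (Pn N y)) := ⟨x⟩
      exact cE2_tilt hA _ (fun _ _ => abs_nonneg _) x x) hG (fun y ω _ _ ρ => H0 y ω (ρ 0)) hy hn hyN hE
  simp only [vm_eq, own38_eq, i1_iv]
  refine key.trans (le_of_eq ?_)
  ring

end Law

/-! ### At the frame -/

variable [IsProbabilityMeasure μ]

/-- **THE FLIP OF TWO OWN EVENTS AT THE FRAME** (pair or mass, any two windows which contain the base): line `2` (`T' = True`). -/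
theorem flip_oo_33 {c₁ C : ℝ} {n₀ : ℕ} (h : In μ s c₁ C n₀) {K : ℕ} (hK : 32 ≤ K) {κ : ℝ} (hκ : 0 < κ) :
    ∃ c₃ : ℝ, 0 < c₃ ∧ ∀ β : ℝ, 0 < β → ∃ γ₀ : ℝ, 0 < γ₀ ∧ ∀ γ : ℝ, 0 < γ → γ ≤ γ₀ →
      ∀ᶠ k : ℕ in atTop, ∀ B : ℝ, B33 β k ≤ B → 16 * B ≤ ((2 ^ k : ℕ) : ℝ) ^ c₃ →
        ∀ b j : ℕ, ((2 ^ k : ℕ) : ℝ) ^ κ ≤ b → b ≤ 2 ^ k → b ≤ j → j + b ≤ L33 K k →
        ∀ m m' : ℝ, 5 * m + 4 * B + 1 ≤ 5 * m' → 10 * m ≤ ((2 ^ k : ℕ) : ℝ) ^ c₃ → ∀ (T T' : Prop) (c d o o' a r U V : ℕ),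
        c ≤ j - b → j + b ≤ d → (o' ≤ j - b ∨ j + b ≤ o) → a ≤ j - b → j + b ≤ r → (V ≤ j - b ∨ j + b ≤ U) →
        ∀ (H : (y : ℕ) → Env × Finset ℕ → Px (Pn (L33 K k) y) → ℝ) (Mh : ℝ), Cov1 (L33 K k) b j H Mh → (∀ y ω x, 0 ≤ H y ω x) →
        avy (ys33 μ s K k) (fun y => ∫ ω, gm (N25.vm μ s (L33 K k) (Pn (L33 K k) y) γ B b ω j) (fun x => H y ω x *
            (own38 T (wm μ s (L33 K k) (Pn (L33 K k) y) ω) (pJ c d) o o' m x *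
              own38 T' (wm μ s (L33 K k) (Pn (L33 K k) y) ω) (pJ a r) U V m x)) ∂(Pm μ (L33 K k))) ≤
          avy (ys33 μ s K k) (fun y => ∫ ω, gm (wm μ s (L33 K k) (Pn (L33 K k) y) ω) (fun x => H y ω x *
            (own38 T (wm μ s (L33 K k) (Pn (L33 K k) y) ω) (pJ c d) o o' m' x *
              own38 T' (wm μ s (L33 K k) (Pn (L33 K k) y) ω) (pJ a r) U V m' x)) ∂(Pm μ (L33 K k))) + Mh * ((2 ^ k : ℕ) : ℝ) ^ (-(11 / 2) : ℝ) := by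
  obtain ⟨c₃, hc₃, h1⟩ := fl_33 h hK hκ 8
  refine ⟨c₃, hc₃, fun β hβ => ?_⟩
  obtain ⟨γ₀, hγ₀, h1⟩ := h1 β hβ
  refine ⟨γ₀, hγ₀, fun γ hγ hγ' => ?_⟩
  filter_upwards [h1 γ hγ hγ', ev_n one_pos 256, ev_n hκ 1, ev_n hc₃ 240] with k h2 h3 h4 h5 B hB hB16 b j hb hbn hbj hj m m' hm hm10 T T'
    c d o o' a r U V e1 e2 e3 e4 e5 e6 H Mh hH H0
  rw [Real.rpow_one] at h3
  obtain ⟨⟨g1, g2⟩, h2⟩ := h2
  obtain ⟨θ, ε, hθ0, hθ, hε, hE⟩ := h2 B hB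
  have hB0 : 0 ≤ B := le_trans (by unfold B33; positivity) hB
  have hb1 : 0 < b := by
    have : (1 : ℝ) ≤ b := h4.trans hb
    exact_mod_cast this
  have key := flip_oo (μ := μ) (s := s) (N := L33 K k) (δ := γ) (B := B) (y₀ := y33 μ s K k) (n := M33 k) (θ := θ) (ε := ε) hb1 hj hB0 hm T T'
    e1 e2 e3 e4 e5 e6 hH H0 (by omega) Nat.one_le_two_pow (by omega) (hE b j hb hbn hbj hj)
  refine key.trans (add_le_add le_rfl ?_)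
  obtain ⟨x, hx⟩ : ∃ x, x = ((2 ^ k : ℕ) : ℝ) ^ c₃ := ⟨_, rfl⟩
  rw [← hx] at hB16 hm10 hθ h5
  have hx4 : 60 ≤ Real.exp (x / 4) := by
    have h6 := Real.add_one_le_exp (x / 4)
    linarith
  have h7 : 16 * Real.exp (5 * m + 4 * B) + 2 ≤ 1 / 3 * Real.exp x := by
    have k1 : Real.exp (5 * m + 4 * B) ≤ Real.exp (3 / 4 * x) := Real.exp_le_exp.2 (by linarith)
    have k2 : (1 : ℝ) ≤ Real.exp (3 / 4 * x) := Real.one_le_exp (by linarith)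
    have k3 : Real.exp x = Real.exp (x / 4) * Real.exp (3 / 4 * x) := by
      rw [← Real.exp_add]
      congr 1
      ring
    have k4 := mul_le_mul_of_nonneg_right hx4 (Real.exp_pos (3 / 4 * x)).le
    linarith
  refine err_55 hH.pos ?_ h3 (M33_real k).symm hθ0 hθ hε
  have h8 := mul_le_mul_of_nonneg_left h7 hH.pos
  linarith

/-- **THE FLIP OF OWN TIMES MICRO OSCILLATION AT THE FRAME** (own pair or mass): lines `3`, `4`. `b₁` = the base of the kick of the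
oscillation, `b` = the base of the flip, any level `B` of the clip. -/
theorem flip_om_33 {c₁ C : ℝ} {n₀ : ℕ} (h : In μ s c₁ C n₀) {K : ℕ} (hK : 32 ≤ K) {κ : ℝ} (hκ : 0 < κ) :
    ∃ c₃ : ℝ, 0 < c₃ ∧ ∀ β : ℝ, 0 < β → ∃ γ₀ : ℝ, 0 < γ₀ ∧ ∀ γ : ℝ, 0 < γ → γ ≤ γ₀ →
      ∀ᶠ k : ℕ in atTop, ∀ B : ℝ, B33 β k ≤ B → 24 * B ≤ ((2 ^ k : ℕ) : ℝ) ^ c₃ →
        ∀ b j : ℕ, ((2 ^ k : ℕ) : ℝ) ^ κ ≤ b → b ≤ 2 ^ k → b ≤ j → j + b ≤ L33 K k →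
        ∀ m m' : ℝ, 5 * m + 4 * B + 1 ≤ 5 * m' → 10 * m ≤ ((2 ^ k : ℕ) : ℝ) ^ c₃ → ∀ (T : Prop) (b₁ : ℕ), b ≤ b₁ → ∀ (c d o o' a r : ℕ),
        c ≤ j - b → j + b ≤ d → (o' ≤ j - b ∨ j + b ≤ o) → a ≤ j - b → j + b ≤ r →
        ∀ (H : (y : ℕ) → Env × Finset ℕ → Px (Pn (L33 K k) y) → ℝ) (Mh : ℝ), Cov1 (L33 K k) b j H Mh → (∀ y ω x, 0 ≤ H y ω x) →
        avy (ys33 μ s K k) (fun y => ∫ ω, gm (N25.vm μ s (L33 K k) (Pn (L33 K k) y) γ B b ω j) (fun x => H y ω x *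
            (own38 T (wm μ s (L33 K k) (Pn (L33 K k) y) ω) (pJ c d) o o' m x *
              i1 (Real.exp (-(5 * m)) ≤ osc (wm μ s (L33 K k) (Pn (L33 K k) y) ω) (pJ a r)
                (Mod92.gg μ s (Pn (L33 K k) y) γ B b₁ ω j) x))) ∂(Pm μ (L33 K k))) ≤
          avy (ys33 μ s K k) (fun y => ∫ ω, gm (wm μ s (L33 K k) (Pn (L33 K k) y) ω) (fun x => H y ω x *
            (own38 T (wm μ s (L33 K k) (Pn (L33 K k) y) ω) (pJ c d) o o' m' x *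
              i1 (Real.exp (-(5 * m')) ≤ osc (wm μ s (L33 K k) (Pn (L33 K k) y) ω) (pJ a r)
                (Mod92.gg μ s (Pn (L33 K k) y) γ B b₁ ω j) x))) ∂(Pm μ (L33 K k))) + Mh * ((2 ^ k : ℕ) : ℝ) ^ (-(11 / 2) : ℝ) := by
  obtain ⟨c₃, hc₃, h1⟩ := fl_33 h hK hκ 8
  refine ⟨c₃, hc₃, fun β hβ => ?_⟩
  obtain ⟨γ₀, hγ₀, h1⟩ := h1 β hβ
  refine ⟨γ₀, hγ₀, fun γ hγ hγ' => ?_⟩
  filter_upwards [h1 γ hγ hγ', ev_n one_pos 256, ev_n hκ 1, ev_n hc₃ 240] with k h2 h3 h4 h5 B hB hB24 b j hb hbn hbj hj m m' hm hm10 T b₁ hbb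
    c d o o' a r e1 e2 e3 e4 e5 H Mh hH H0
  rw [Real.rpow_one] at h3
  obtain ⟨⟨g1, g2⟩, h2⟩ := h2
  obtain ⟨θ, ε, hθ0, hθ, hε, hE⟩ := h2 B hB
  have hB0 : 0 ≤ B := le_trans (by unfold B33; positivity) hB
  have hb1 : 0 < b := by
    have : (1 : ℝ) ≤ b := h4.trans hb
    exact_mod_cast this
  have key := flip_om (μ := μ) (s := s) (N := L33 K k) (δ := γ) (B := B) (y₀ := y33 μ s K k) (n := M33 k) (θ := θ) (ε := ε) hb1 hj hB0 hm T hbb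
    e1 e2 e3 e4 e5 hH H0 (by omega) Nat.one_le_two_pow (by omega) (hE b j hb hbn hbj hj)
  refine key.trans (add_le_add le_rfl ?_)
  obtain ⟨x, hx⟩ : ∃ x, x = ((2 ^ k : ℕ) : ℝ) ^ c₃ := ⟨_, rfl⟩
  rw [← hx] at hB24 hm10 hθ h5
  have hx4 : 60 ≤ Real.exp (x / 4) := by
    have h6 := Real.add_one_le_exp (x / 4)
    linarith
  have h7 : 8 * Real.exp (5 * m + 4 * B) * (B + 1) + 2 ≤ 1 / 3 * Real.exp x := by
    have k0 : B + 1 ≤ Real.exp B := Real.add_one_le_exp B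
    have k1 : Real.exp (5 * m + 4 * B) * Real.exp B ≤ Real.exp (3 / 4 * x) := by
      rw [← Real.exp_add]
      exact Real.exp_le_exp.2 (by linarith)
    have k2 : (1 : ℝ) ≤ Real.exp (3 / 4 * x) := Real.one_le_exp (by linarith)
    have k3 : Real.exp x = Real.exp (x / 4) * Real.exp (3 / 4 * x) := by
      rw [← Real.exp_add]
      congr 1
      ring
    have k4 := mul_le_mul_of_nonneg_right hx4 (Real.exp_pos (3 / 4 * x)).le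
    have k5 : Real.exp (5 * m + 4 * B) * (B + 1) ≤ Real.exp (5 * m + 4 * B) * Real.exp B := mul_le_mul_of_nonneg_left k0 (Real.exp_pos _).le
    linarith
  refine err_55 hH.pos ?_ h3 (M33_real k).symm hθ0 hθ hε
  have h8 := mul_le_mul_of_nonneg_left h7 hH.pos
  linarith

end

end Pool.Agent.W_7d29a1_C0.Ln4
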