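import Pool.Agent.W_7d29a1_C0.Ln4A
import Pool.Agent.W_7d29a1_C0.PrI46

/-!
CURV0 (MP_7d29a1_pr), leaf E5.8 / N1B: THE FLIPS OF THE LINES `2, 3, 4` IN THE FORM (P2) OF THE ROW: a passenger `D` of a stretch, `Φ` = own
event (pair or mass, window of radius `2 ^ p'`) times another one or the micro oscillation (window of radius `2 ^ p`), levels `M`, `M'` with
`5 M + 4 B + 1 ≤ 5 M'`. `est_fl`: from a statement at the concrete frame to the order of the small exponents. (helper4)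
-/

set_option autoImplicit false
set_option linter.unusedSectionVars false
set_option linter.unusedVariables false
set_option linter.dupNamespace false

namespace Pool.Agent.W_7d29a1_C0.Ln4

open Finset MeasureTheory Filter Topology
open Pool.Agent.W_7d29a1_F hiding W_pos W_nonneg W_add
open Pool.Agent.W_7d29a1_X Pool.Agent.W_7d29a1_C0.Mod92 Pool.Agent.W_7d29a1_C0.Flip61 Pool.Agent.W_7d29a1_C0.FlipR4
open Pool.Agent.W_7d29a1_H (EE)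
open Pool.Agent.W_7d29a1_HS (In wd)
open Pool.Agent.W_7d29a1_C0.Asm96 Pool.Agent.W_7d29a1_C0.Pr46
open Pool.Agent.W_7d29a1_C0.Frm33
open Pool.Agent.W_7d29a1_C0.NTop23 (avF)
open Pool.Agent.W_7d29a1_C0.Par92 (Est Sml)
open Pool.Agent.W_7d29a1_C0.Lo38 (own38)
open Pool.W7d29a1.C0 (gm)
open Pool.W7d29a1.C0.S1 (i1 osc)

noncomputable section

variable {μ : Measure ℝ} {s : ℝ} [IsProbabilityMeasure μ]

/-- **FROM A FLIP AT THE FRAME TO THE ORDER OF THE SMALL EXPONENTS**, at the rows of a block, base `b0 m p`, level `B33 β m` of the clip. -/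
theorem est_fl {c₁ C : ℝ} {n₀ : ℕ} (h : In μ s c₁ C n₀) (hk : KapLe96 (EE μ s) (1 / 4)) {K : ℕ} (hK : 32 ≤ K) {Θ δ c η : ℝ} (hδ : 0 < δ)
    (hc : 0 ≤ c) (hcδ : c ≤ δ / 64) (hη : 0 ≤ η) {X : ℝ → ℕ → ℝ → ℕ → ℕ → ℝ → ℝ → Prop}
    (hX : ∃ c₃ : ℝ, 0 < c₃ ∧ ∀ β : ℝ, 0 < β → ∃ γ₀ : ℝ, 0 < γ₀ ∧ ∀ γ : ℝ, 0 < γ → γ ≤ γ₀ →
      ∀ᶠ k : ℕ in atTop, ∀ B : ℝ, B33 β k ≤ B → 24 * B ≤ ((2 ^ k : ℕ) : ℝ) ^ c₃ →
        ∀ b j : ℕ, ((2 ^ k : ℕ) : ℝ) ^ (δ / 4) ≤ b → b ≤ 2 ^ k → b ≤ j → j + b ≤ L33 K k →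
        ∀ m m' : ℝ, 5 * m + 4 * B + 1 ≤ 5 * m' → 10 * m ≤ ((2 ^ k : ℕ) : ℝ) ^ c₃ → X γ k B b j m m') :
    ∃ κ : ℝ, 0 < κ ∧ Est fun ι β γ m => ∀ p p' q i : ℕ, Chg96 (EE μ s) Θ δ c η m p p' q → i < 2 ^ (m - q) →
      ∀ j ∈ Rw (R33 ι m) (i * 2 ^ q) ((i + 1) * 2 ^ q), ∀ M M' : ℝ, M ≤ ((2 ^ m : ℕ) : ℝ) ^ κ → 5 * M + 4 * B33 β m + 1 ≤ 5 * M' →
        (2 ^ (p - ⌈ι * (m : ℝ)⌉₊) ≤ 2 ^ p ∧ 2 ^ p ≤ 2 ^ p' ∧ 2 ^ p' ≤ j ∧ j + 2 ^ p' ≤ L33 K m) ∧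
        X γ m (B33 β m) (2 ^ (p - ⌈ι * (m : ℝ)⌉₊)) j M M' := by
  obtain ⟨c₃, hc₃, h1⟩ := hX
  refine ⟨c₃ / 2, by positivity, ?_⟩
  have hrow := rows46 (K := K) (Θ := Θ) h hk hK hδ hc hcδ hη
  have hfl : Est fun ι β γ m => ι ≤ δ / 4 ∧ β ≤ c₃ / 2 ∧ ∀ B : ℝ, B33 β m ≤ B → 24 * B ≤ ((2 ^ m : ℕ) : ℝ) ^ c₃ →
        ∀ b j : ℕ, ((2 ^ m : ℕ) : ℝ) ^ (δ / 4) ≤ b → b ≤ 2 ^ m → b ≤ j → j + b ≤ L33 K m →
        ∀ M M' : ℝ, 5 * M + 4 * B + 1 ≤ 5 * M' → 10 * M ≤ ((2 ^ m : ℕ) : ℝ) ^ c₃ → X γ m B b j M M' :=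
    ⟨δ / 4, by positivity, fun ι hι hιδ => ⟨c₃ / 2, by positivity, fun β hβ hβc => by
      obtain ⟨γ₀, hγ₀, h2⟩ := h1 β hβ
      exact ⟨γ₀, hγ₀, fun γ hγ hγ' => (h2 γ hγ hγ').mono fun m hm => ⟨hιδ, hβc, hm⟩⟩⟩⟩
  refine (hrow.and hfl).mono fun ι β γ hι hβ hγ => ?_
  by_cases hιδ : ι ≤ δ / 4
  swap
  · exact Eventually.of_forall fun m h1 => absurd h1.2.1 hιδ
  filter_upwards [b0_33 hδ hιδ, ev_n (show 0 < c₃ / 2 by positivity) 24] with m hb0 h24 hm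
  obtain ⟨hr, -, hβc, hf⟩ := hm
  intro p p' q i hC hi j hj M M' hM hMM
  obtain ⟨r1, r2, r3⟩ := hr p p' q i hC hi j hj
  have hn1 : (1 : ℝ) ≤ ((2 ^ m : ℕ) : ℝ) := n_ge1 m
  have hn0 : (0 : ℝ) < ((2 ^ m : ℕ) : ℝ) := lt_of_lt_of_le one_pos hn1
  have e0 : ((2 ^ m : ℕ) : ℝ) ^ (c₃ / 2) * ((2 ^ m : ℕ) : ℝ) ^ (c₃ / 2) = ((2 ^ m : ℕ) : ℝ) ^ c₃ := by
    rw [← Real.rpow_add hn0, add_halves]
  have hz : 0 ≤ ((2 ^ m : ℕ) : ℝ) ^ (c₃ / 2) := Real.rpow_nonneg hn0.le _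
  have hBc : B33 β m ≤ ((2 ^ m : ℕ) : ℝ) ^ (c₃ / 2) := Real.rpow_le_rpow_of_exponent_le hn1 hβc
  have e1 : 24 * ((2 ^ m : ℕ) : ℝ) ^ (c₃ / 2) ≤ ((2 ^ m : ℕ) : ℝ) ^ c₃ := by
    rw [← e0]
    exact mul_le_mul_of_nonneg_right h24 hz
  have g1 : 2 ^ (p - ⌈ι * (m : ℝ)⌉₊) ≤ 2 ^ p := Nat.pow_le_pow_right two_pos (Nat.sub_le _ _)
  have g2 : 2 ^ p ≤ 2 ^ p' := Nat.pow_le_pow_right two_pos hC.hpp
  refine ⟨⟨g1, g2, r1, r3⟩, hf (B33 β m) le_rfl (by linarith) _ j (hb0 p hC.hp) (by omega) (by omega) (by omega) M M' hMM (by linarith)⟩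

/-- The passenger as the factor `H` of the flip of a row of its stretch. -/
theorem cov_ps {F : Frm96} {m l b' b0 k j : ℕ} {D : Wt46 F m} {Mh : ℝ} (hD : Ps46 F m l b' k D Mh) (hj : j / l = k) (hb : b0 ≤ b') :
    Cov1 (F.L m) b0 j (fun y ω S => |D y ω S|) Mh := (hD.abs.cov j hj).window hb

/-- **(P2) OF LINE `2`** (and of two own events in general). -/
theorem p2_oo {c₁ C : ℝ} {n₀ : ℕ} (h : In μ s c₁ C n₀) (hk : KapLe96 (EE μ s) (1 / 4)) {K : ℕ} (hK : 32 ≤ K) {Θ δ c η : ℝ} (hδ : 0 < δ)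
    (hc : 0 ≤ c) (hcδ : c ≤ δ / 64) (hη : 0 ≤ η) :
    ∃ κ : ℝ, 0 < κ ∧ Est fun ι β γ m => ∀ p p' q i : ℕ, Chg96 (EE μ s) Θ δ c η m p p' q → i < 2 ^ (m - q) →
      ∀ M M' : ℝ, M ≤ ((2 ^ m : ℕ) : ℝ) ^ κ → 5 * M + 4 * B33 β m + 1 ≤ 5 * M' → ∀ (T T' : Prop) (k : ℕ)
        (D : Wt46 (frm33 μ s K ι β γ) m) (Mh : ℝ), Ps46 (frm33 μ s K ι β γ) m (2 ^ (p' - 6)) (2 ^ p') k D Mh →
      ∀ j ∈ st46 (frm33 μ s K ι β γ) m q i (2 ^ (p' - 6)) k, ∀ o o' U V : ℕ,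
        (o' ≤ j - (frm33 μ s K ι β γ).b0 m p ∨ j + (frm33 μ s K ι β γ).b0 m p ≤ o) →
        (V ≤ j - (frm33 μ s K ι β γ).b0 m p ∨ j + (frm33 μ s K ι β γ).b0 m p ≤ U) →
        ((((frm33 μ s K ι β γ).ys m).card : ℝ)⁻¹ * ∑ y ∈ (frm33 μ s K ι β γ).ys m, ∫ ω,
          gm (N25.vm μ s ((frm33 μ s K ι β γ).L m) (Pn ((frm33 μ s K ι β γ).L m) y) (frm33 μ s K ι β γ).dl ((frm33 μ s K ι β γ).B m)
            ((frm33 μ s K ι β γ).b0 m p) ω j) (fun S => |D y ω S| *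
            (own38 T (wm μ s ((frm33 μ s K ι β γ).L m) (Pn ((frm33 μ s K ι β γ).L m) y) ω) (pJ (j - 2 ^ p') (j + 2 ^ p')) o o' M S *
              own38 T' (wm μ s ((frm33 μ s K ι β γ).L m) (Pn ((frm33 μ s K ι β γ).L m) y) ω) (pJ (j - 2 ^ p) (j + 2 ^ p)) U V M S))
          ∂(Pm μ ((frm33 μ s K ι β γ).L m))) ≤
        avF μ s (frm33 μ s K ι β γ) m (fun y ω S => |D y ω S| *
            (own38 T (wm μ s ((frm33 μ s K ι β γ).L m) (Pn ((frm33 μ s K ι β γ).L m) y) ω) (pJ (j - 2 ^ p') (j + 2 ^ p')) o o' M' S *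
              own38 T' (wm μ s ((frm33 μ s K ι β γ).L m) (Pn ((frm33 μ s K ι β γ).L m) y) ω) (pJ (j - 2 ^ p) (j + 2 ^ p)) U V M' S)) +
          Mh * ((2 ^ m : ℕ) : ℝ) ^ (-(11 / 2) : ℝ) := by
  obtain ⟨κ, hκ, hE⟩ := est_fl (X := fun γ k B b j m m' => ∀ (T T' : Prop) (c d o o' a r U V : ℕ),
        c ≤ j - b → j + b ≤ d → (o' ≤ j - b ∨ j + b ≤ o) → a ≤ j - b → j + b ≤ r → (V ≤ j - b ∨ j + b ≤ U) →
        ∀ (H : (y : ℕ) → Env × Finset ℕ → Px (Pn (L33 K k) y) → ℝ) (Mh : ℝ), Cov1 (L33 K k) b j H Mh → (∀ y ω x, 0 ≤ H y ω x) →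
        avy (ys33 μ s K k) (fun y => ∫ ω, gm (N25.vm μ s (L33 K k) (Pn (L33 K k) y) γ B b ω j) (fun x => H y ω x *
            (own38 T (wm μ s (L33 K k) (Pn (L33 K k) y) ω) (pJ c d) o o' m x *
              own38 T' (wm μ s (L33 K k) (Pn (L33 K k) y) ω) (pJ a r) U V m x)) ∂(Pm μ (L33 K k))) ≤
          avy (ys33 μ s K k) (fun y => ∫ ω, gm (wm μ s (L33 K k) (Pn (L33 K k) y) ω) (fun x => H y ω x *
            (own38 T (wm μ s (L33 K k) (Pn (L33 K k) y) ω) (pJ c d) o o' m' x *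
              own38 T' (wm μ s (L33 K k) (Pn (L33 K k) y) ω) (pJ a r) U V m' x)) ∂(Pm μ (L33 K k))) + Mh * ((2 ^ k : ℕ) : ℝ) ^ (-(11 / 2) : ℝ))
    h hk hK (Θ := Θ) hδ hc hcδ hη (by
      obtain ⟨c₃, hc₃, h1⟩ := flip_oo_33 h hK (show 0 < δ / 4 by positivity)
      refine ⟨c₃, hc₃, fun β hβ => ?_⟩
      obtain ⟨γ₀, hγ₀, h1⟩ := h1 β hβ
      refine ⟨γ₀, hγ₀, fun γ hγ hγ' => ?_⟩
      filter_upwards [h1 γ hγ hγ'] with k h2 B hB hB24 b j g1 g2 g3 g4 m m' g5 g6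
      have hB0 : 0 ≤ B := le_trans (by unfold B33; positivity) hB
      exact h2 B hB (by linarith) b j g1 g2 g3 g4 m m' g5 g6)
  refine ⟨κ, hκ, hE.mono fun ι β γ _ _ _ => Eventually.of_forall fun m hm => ?_⟩
  intro p p' q i hC hi M M' hM hMM T T' k D Mh hD j hj o o' U V ho hU
  have hj' := mem_filter.1 hj
  obtain ⟨⟨g1, g2, g3, g4⟩, hx⟩ := hm p p' q i hC hi j hj'.1 M M' hM hMM
  exact hx T T' (j - 2 ^ p') (j + 2 ^ p') o o' (j - 2 ^ p) (j + 2 ^ p) U V (by omega) (by omega) ho (by omega) (by omega) hU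
    (fun y ω S => |D y ω S|) Mh (cov_ps hD hj'.2 (g1.trans g2)) (fun _ _ _ => abs_nonneg _)

/-- **(P2) OF LINES `3`, `4`**: own event times micro oscillation of the kick. -/
theorem p2_om {c₁ C : ℝ} {n₀ : ℕ} (h : In μ s c₁ C n₀) (hk : KapLe96 (EE μ s) (1 / 4)) {K : ℕ} (hK : 32 ≤ K) {Θ δ c η : ℝ} (hδ : 0 < δ)
    (hc : 0 ≤ c) (hcδ : c ≤ δ / 64) (hη : 0 ≤ η) :
    ∃ κ : ℝ, 0 < κ ∧ Est fun ι β γ m => ∀ p p' q i : ℕ, Chg96 (EE μ s) Θ δ c η m p p' q → i < 2 ^ (m - q) →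
      ∀ M M' : ℝ, M ≤ ((2 ^ m : ℕ) : ℝ) ^ κ → 5 * M + 4 * B33 β m + 1 ≤ 5 * M' → ∀ (T : Prop) (k : ℕ)
        (D : Wt46 (frm33 μ s K ι β γ) m) (Mh : ℝ), Ps46 (frm33 μ s K ι β γ) m (2 ^ (p' - 6)) (2 ^ p') k D Mh →
      ∀ j ∈ st46 (frm33 μ s K ι β γ) m q i (2 ^ (p' - 6)) k, ∀ o o' : ℕ,
        (o' ≤ j - (frm33 μ s K ι β γ).b0 m p ∨ j + (frm33 μ s K ι β γ).b0 m p ≤ o) →
        ((((frm33 μ s K ι β γ).ys m).card : ℝ)⁻¹ * ∑ y ∈ (frm33 μ s K ι β γ).ys m, ∫ ω,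
          gm (N25.vm μ s ((frm33 μ s K ι β γ).L m) (Pn ((frm33 μ s K ι β γ).L m) y) (frm33 μ s K ι β γ).dl ((frm33 μ s K ι β γ).B m)
            ((frm33 μ s K ι β γ).b0 m p) ω j) (fun S => |D y ω S| *
            (own38 T (wm μ s ((frm33 μ s K ι β γ).L m) (Pn ((frm33 μ s K ι β γ).L m) y) ω) (pJ (j - 2 ^ p') (j + 2 ^ p')) o o' M S *
              i1 (Real.exp (-(5 * M)) ≤ osc (wm μ s ((frm33 μ s K ι β γ).L m) (Pn ((frm33 μ s K ι β γ).L m) y) ω) (pJ (j - 2 ^ p) (j + 2 ^ p))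
                (Mod92.gg μ s (Pn ((frm33 μ s K ι β γ).L m) y) (frm33 μ s K ι β γ).dl ((frm33 μ s K ι β γ).B m)
                  ((frm33 μ s K ι β γ).b0 m p) ω j) S)))
          ∂(Pm μ ((frm33 μ s K ι β γ).L m))) ≤
        avF μ s (frm33 μ s K ι β γ) m (fun y ω S => |D y ω S| *
            (own38 T (wm μ s ((frm33 μ s K ι β γ).L m) (Pn ((frm33 μ s K ι β γ).L m) y) ω) (pJ (j - 2 ^ p') (j + 2 ^ p')) o o' M' S *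
              i1 (Real.exp (-(5 * M')) ≤ osc (wm μ s ((frm33 μ s K ι β γ).L m) (Pn ((frm33 μ s K ι β γ).L m) y) ω) (pJ (j - 2 ^ p) (j + 2 ^ p))
                (Mod92.gg μ s (Pn ((frm33 μ s K ι β γ).L m) y) (frm33 μ s K ι β γ).dl ((frm33 μ s K ι β γ).B m)
                  ((frm33 μ s K ι β γ).b0 m p) ω j) S))) +
          Mh * ((2 ^ m : ℕ) : ℝ) ^ (-(11 / 2) : ℝ) := by
  obtain ⟨κ, hκ, hE⟩ := est_fl (X := fun γ k B b j m m' => ∀ (T : Prop) (b₁ : ℕ), b ≤ b₁ → ∀ (c d o o' a r : ℕ),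
        c ≤ j - b → j + b ≤ d → (o' ≤ j - b ∨ j + b ≤ o) → a ≤ j - b → j + b ≤ r →
        ∀ (H : (y : ℕ) → Env × Finset ℕ → Px (Pn (L33 K k) y) → ℝ) (Mh : ℝ), Cov1 (L33 K k) b j H Mh → (∀ y ω x, 0 ≤ H y ω x) →
        avy (ys33 μ s K k) (fun y => ∫ ω, gm (N25.vm μ s (L33 K k) (Pn (L33 K k) y) γ B b ω j) (fun x => H y ω x *
            (own38 T (wm μ s (L33 K k) (Pn (L33 K k) y) ω) (pJ c d) o o' m x *
              i1 (Real.exp (-(5 * m)) ≤ osc (wm μ s (L33 K k) (Pn (L33 K k) y) ω) (pJ a r)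
                (Mod92.gg μ s (Pn (L33 K k) y) γ B b₁ ω j) x))) ∂(Pm μ (L33 K k))) ≤
          avy (ys33 μ s K k) (fun y => ∫ ω, gm (wm μ s (L33 K k) (Pn (L33 K k) y) ω) (fun x => H y ω x *
            (own38 T (wm μ s (L33 K k) (Pn (L33 K k) y) ω) (pJ c d) o o' m' x *
              i1 (Real.exp (-(5 * m')) ≤ osc (wm μ s (L33 K k) (Pn (L33 K k) y) ω) (pJ a r)
                (Mod92.gg μ s (Pn (L33 K k) y) γ B b₁ ω j) x))) ∂(Pm μ (L33 K k))) + Mh * ((2 ^ k : ℕ) : ℝ) ^ (-(11 / 2) : ℝ))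
    h hk hK (Θ := Θ) hδ hc hcδ hη (flip_om_33 h hK (show 0 < δ / 4 by positivity))
  refine ⟨κ, hκ, hE.mono fun ι β γ _ _ _ => Eventually.of_forall fun m hm => ?_⟩
  intro p p' q i hC hi M M' hM hMM T k D Mh hD j hj o o' ho
  have hj' := mem_filter.1 hj
  obtain ⟨⟨g1, g2, g3, g4⟩, hx⟩ := hm p p' q i hC hi j hj'.1 M M' hM hMM
  exact hx T _ le_rfl (j - 2 ^ p') (j + 2 ^ p') o o' (j - 2 ^ p) (j + 2 ^ p) (by omega) (by omega) ho (by omega) (by omega)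
    (fun y ω S => |D y ω S|) Mh (cov_ps hD hj'.2 (g1.trans g2)) (fun _ _ _ => abs_nonneg _)

end

end Pool.Agent.W_7d29a1_C0.Ln4
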