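import Pool.Agent.W_7d29a1_C0.LgF38
import Pool.Agent.W_7d29a1_C0.LgQ38
import Pool.Agent.W_7d29a1_C0.Ln4B
import Pool.Agent.W_7d29a1_C0.NmB41

/-!
MP_7d29a1_pr, [CURV0], leaf E5.8 / N1B (helper14): THE LINES `5, …, 8`: own tie times the long tie told from one row `r = j + b0 + d` (right)
resp. `r = j - b0 - d` (left), `0 < d ≤ 4 k`. `p1R58`, `p1L58` = their price at the untilted weights (helper38's `loF38R`, `loF38L`), `p2R58`,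
`p2L58` = the flip (helper38's `flip_lo_33` through helper4's `est_fl`).
-/

set_option autoImplicit false
set_option linter.unusedSectionVars false
set_option linter.unusedVariables false

namespace Pool.W7d29a1.C0.Ln58

open Finset MeasureTheory Filter Topology
open Pool.Agent.W_7d29a1_F hiding W_pos W_nonneg W_add
open Pool.Agent.W_7d29a1_X Pool.Agent.W_7d29a1_C0 Pool.Agent.W_7d29a1_C0.Mod92 Pool.Agent.W_7d29a1_C0.Flip61 Pool.Agent.W_7d29a1_C0.FlipR4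
open Pool.Agent.W_7d29a1_H (EE EE_pos)
open Pool.Agent.W_7d29a1_HS (In wd)
open Pool.Agent.W_7d29a1_C0.Asm96 Pool.Agent.W_7d29a1_C0.Pr46
open Pool.Agent.W_7d29a1_C0.Frm33 Pool.Agent.W_7d29a1_C0.Sz23
open Pool.Agent.W_7d29a1_C0.NTop23 (avF)
open Pool.Agent.W_7d29a1_C0.N38 (av BM)
open Pool.Agent.W_7d29a1_C0.Par92 (Est Sml)
open Pool.Agent.W_7d29a1_C0.Lo38 (own38 lng38)
open Pool.Agent.W_7d29a1_C0.Ln4 (est_fl cov_ps)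
open Pool.Agent.W_7d29a1_C0.Strip80 (OffD)
open Pool.W7d29a1.C0 (gm)
open Pool.W7d29a1.C0.S1 (i1 osc)
open Pool.W7d29a1.C0.L38 (kn38 kn38_le)
open Pool.W7d29a1.C0.H41

noncomputable section

section Defs

variable (μ : Measure ℝ) (s : ℝ) (T : Prop) (d : ℕ) (F : Frm96) (m p p' : ℕ) (M : ℝ)

/-- Own tie on the right times the long tie told from the row `j + b0 + d`. -/
def fR58 (y : ℕ) (ω : Env × Finset ℕ) (j : ℕ) (S : Px (Pn (F.L m) y)) : ℝ :=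
  own38 T (wm μ s (F.L m) (Pn (F.L m) y) ω) (pJ (j - 2 ^ p') (j + 2 ^ p')) (j + F.b0 m p) (j + 2 ^ p) M S *
    lng38 (wm μ s (F.L m) (Pn (F.L m) y) ω) (pJ 0 (j + F.b0 m p + d)) (j - 2 ^ p) (j - F.b0 m p) M S

/-- Own tie on the left times the long tie told from the row `j - b0 - d`. -/
def fL58 (y : ℕ) (ω : Env × Finset ℕ) (j : ℕ) (S : Px (Pn (F.L m) y)) : ℝ :=
  own38 T (wm μ s (F.L m) (Pn (F.L m) y) ω) (pJ (j - 2 ^ p') (j + 2 ^ p')) (j - 2 ^ p) (j - F.b0 m p) M S *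
    lng38 (wm μ s (F.L m) (Pn (F.L m) y) ω) (pJ (j - F.b0 m p - d) (F.L m)) (j + F.b0 m p) (j + 2 ^ p) M S

end Defs

/-- The starts. -/
def Qd58 (ι : ℝ) (m p d : ℕ) : Prop := 0 < d ∧ d ≤ 4 * kn38 (2 ^ (p - ⌈ι * (m : ℝ)⌉₊)) (2 ^ p)

theorem lt_succ_mul_div14 {l : ℕ} (hl : 0 < l) (j : ℕ) : j < (j / l + 1) * l := by
  have h1 := Nat.div_add_mod j l
  have h2 := Nat.mod_lt j hl
  nlinarith

theorem off58 {N y l b' k j : ℕ} {D : Env × Finset ℕ → Px (Pn N y) → ℝ} (h : OffD (J46 l b' k) D) (hl : 0 < l) (hj : j / l = k) :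
    OffD (Ioo (j - b') (j + b')) D := by
  refine Lo38.offD_mono h fun i hi => ?_
  have h1 : k * l ≤ j := by
    rw [← hj]
    exact Nat.div_mul_le_self j l
  have h2 : j < (k + 1) * l := by
    rw [← hj]
    exact lt_succ_mul_div14 hl j
  rw [mem_Ioo] at hi
  unfold J46
  rw [mem_Ioc]
  omega

section Num

variable {E : ℕ → ℝ} {Θ δ c η : ℝ} {m p p' q : ℕ}

/-- The rate `n ^ (c / 2) / E_b ^ 2`. -/
theorem rate58 (hE : ∀ n, 0 < E n) (hc : 0 ≤ c) (H : Chg96 E Θ δ c η m p p' q) :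
    ((2 ^ m : ℕ) : ℝ) ^ (c / 2) / E (2 ^ p) ^ 2 ≤ ((2 ^ m : ℕ) : ℝ) ^ (-(c / 16) - c / 8) / E (2 ^ q) := by
  have hn1 : 1 ≤ ((2 ^ m : ℕ) : ℝ) := n_ge1 m
  have hn0 : 0 < ((2 ^ m : ℕ) : ℝ) := by linarith
  have h1 := hE (2 ^ p)
  have h2 := hE (2 ^ q)
  rw [div_le_div_iff₀ (by positivity) h2]
  have h3 : ((2 ^ m : ℕ) : ℝ) ^ (c / 2) = ((2 ^ m : ℕ) : ℝ) ^ (-(c / 2)) * ((2 ^ m : ℕ) : ℝ) ^ c := by
    rw [← Real.rpow_add hn0]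
    congr 1
    ring
  have h4 : ((2 ^ m : ℕ) : ℝ) ^ (-(c / 2)) ≤ ((2 ^ m : ℕ) : ℝ) ^ (-(c / 16) - c / 8) :=
    Real.rpow_le_rpow_of_exponent_le hn1 (by linarith)
  calc ((2 ^ m : ℕ) : ℝ) ^ (c / 2) * E (2 ^ q) = ((2 ^ m : ℕ) : ℝ) ^ (-(c / 2)) * (((2 ^ m : ℕ) : ℝ) ^ c * E (2 ^ q)) := by
        rw [h3]
        ring
    _ ≤ ((2 ^ m : ℕ) : ℝ) ^ (-(c / 2)) * E (2 ^ p) ^ 2 := mul_le_mul_of_nonneg_left H.low (Real.rpow_nonneg hn0.le _)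
    _ ≤ _ := mul_le_mul_of_nonneg_right h4 (by positivity)

end Num

section Frame

variable {μ : Measure ℝ} {s : ℝ} [IsProbabilityMeasure μ]

/-- **(P1), right.** -/
theorem p1R58 {c₁ C : ℝ} {n₀ : ℕ} (h : In μ s c₁ C n₀) (hk : KapLe96 (EE μ s) (1 / 4)) {K : ℕ} (hK : 32 ≤ K) {Θ δ c η : ℝ} (hδ : 0 < δ)
    (hc : 0 < c) (hcδ : c ≤ δ / 64) (hη : 0 ≤ η) (T : Prop) :
    ∃ κ : ℝ, 0 < κ ∧ ∀ κ' : ℝ, 0 < κ' → κ' ≤ κ → Est fun ι β γ m => ∀ p p' q i : ℕ, Chg96 (EE μ s) Θ δ c η m p p' q → p < p' →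
      i < 2 ^ (m - q) → ∀ d : ℕ, Qd58 ι m p d → ∀ M : ℝ, ((2 ^ m : ℕ) : ℝ) ^ κ' ≤ M → M ≤ 2 * ((2 ^ m : ℕ) : ℝ) ^ κ' →
        Pr46 μ s (frm33 μ s K ι β γ) (EE μ s) Θ c m p p' q i (c / 8) 4 fun _ j D => avF μ s (frm33 μ s K ι β γ) m fun y w S =>
          fR58 μ s T d (frm33 μ s K ι β γ) m p p' M y w j S * |D y w S| := by
  obtain ⟨κ, hκ, H⟩ := Lo38.loF38R h hK hδ (show 0 < c / 2 by positivity)
  refine ⟨κ / 2, by positivity, fun κ' h1 h2 => ?_⟩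
  obtain ⟨c₂, hc₂, H⟩ := H κ' h1 (by linarith)
  refine ⟨δ / 16, by positivity, fun ι hι hιδ => Sml.of fun β hβ => Sml.of fun γ _ => ?_⟩
  filter_upwards [H ι hι, rows41 h hk (K := K) (by omega) (Θ := Θ) hδ hc.le hcδ hη hιδ, ev_n (show 0 < κ - κ' by linarith) 2,
    Sz23.ev_exp hc₂ 5] with m hm hr hn2 hex
  intro p p' q i hC hpp hi d hd M hM hM'
  have hn1 : 1 ≤ ((2 ^ m : ℕ) : ℝ) := n_ge1 m
  have hn0 : 0 < ((2 ^ m : ℕ) : ℝ) := by linarith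
  have hqm : p' ≤ m := by
    have e1 : (sg96 (EE μ s) c m p' : ℝ) ≤ m := by
      have := hC.hsq'
      have := hC.hqm
      have h3 : 0 ≤ c * (m : ℝ) := by positivity
      have h4 : 0 ≤ η * (m : ℝ) := by positivity
      linarith
    have e2 : sg96 (EE μ s) c m p' ≤ m := by exact_mod_cast e1
    exact hC.hps'.trans e2
  have hMκ : M ≤ ((2 ^ m : ℕ) : ℝ) ^ κ := by
    refine hM'.trans ?_
    have e : ((2 ^ m : ℕ) : ℝ) ^ κ = ((2 ^ m : ℕ) : ℝ) ^ (κ - κ') * ((2 ^ m : ℕ) : ℝ) ^ κ' := by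
      rw [← Real.rpow_add hn0]
      congr 1
      ring
    rw [e]
    exact mul_le_mul_of_nonneg_right hn2 (Real.rpow_nonneg hn0.le _)
  have hys : ∀ y ∈ (frm33 μ s K ι β γ).ys m, y ≤ (frm33 μ s K ι β γ).L m := hy33 (by omega) m
  refine Pr46.of_row hys (fun n => EE_pos n) (show p' ≤ m + 6 by omega) (g := ((2 ^ m : ℕ) : ℝ) ^ (c / 2) / EE μ s (2 ^ p) ^ 2)
    (e := Real.exp (-(((2 ^ m : ℕ) : ℝ) ^ c₂))) (by positivity) (rate58 (fun n => EE_pos n) hc.le hC) (Real.exp_pos _).le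
    (by norm_num at hex ⊢; exact hex) fun t ht k j D Mh hD hj => ?_
  have hj' := mem_filter.1 hj
  obtain ⟨r1, r2, r3, r4, r5, r6⟩ := hr p p' q i hC hi j hj'.1
  have hb1 : 1 ≤ 2 ^ (p - ⌈ι * (m : ℝ)⌉₊) := Nat.one_le_two_pow
  have key := hm p p' j hC.hp hpp.le r3.le r4.le M hM hMκ T (j + (frm33 μ s K ι β γ).b0 m p) (j + (frm33 μ s K ι β γ).b0 m p + d)
    (show j + 2 ^ (p - ⌈ι * (m : ℝ)⌉₊) ≤ j + 2 ^ (p - ⌈ι * (m : ℝ)⌉₊) + 4 * kn38 (2 ^ (p - ⌈ι * (m : ℝ)⌉₊)) (2 ^ p) by omega)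
    (show j ≤ j + 2 ^ (p - ⌈ι * (m : ℝ)⌉₊) + d by omega)
    (show j + 2 ^ (p - ⌈ι * (m : ℝ)⌉₊) + d ≤ j + 2 ^ (p - ⌈ι * (m : ℝ)⌉₊) + 4 * kn38 (2 ^ (p - ⌈ι * (m : ℝ)⌉₊)) (2 ^ p) by
      have := hd.2
      omega) D Mh hD.pos (fun y _ => hD.bdd y) (fun y _ => hD.mes y) (fun y _ => off58 (hD.off y) (by positivity) hj'.2)
  refine le_trans (le_of_eq ?_) key
  show av _ _ _ _ = avy _ _
  unfold av avy
  congr 1
  refine sum_congr rfl fun y _ => ?_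
  congr 1
  funext ω
  congr 1
  funext S
  exact mul_comm _ _

/-- **(P1), left.** -/
theorem p1L58 {c₁ C : ℝ} {n₀ : ℕ} (h : In μ s c₁ C n₀) (hk : KapLe96 (EE μ s) (1 / 4)) {K : ℕ} (hK : 32 ≤ K) {Θ δ c η : ℝ} (hδ : 0 < δ)
    (hc : 0 < c) (hcδ : c ≤ δ / 64) (hη : 0 ≤ η) (T : Prop) :
    ∃ κ : ℝ, 0 < κ ∧ ∀ κ' : ℝ, 0 < κ' → κ' ≤ κ → Est fun ι β γ m => ∀ p p' q i : ℕ, Chg96 (EE μ s) Θ δ c η m p p' q → p < p' →
      i < 2 ^ (m - q) → ∀ d : ℕ, Qd58 ι m p d → ∀ M : ℝ, ((2 ^ m : ℕ) : ℝ) ^ κ' ≤ M → M ≤ 2 * ((2 ^ m : ℕ) : ℝ) ^ κ' →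
        Pr46 μ s (frm33 μ s K ι β γ) (EE μ s) Θ c m p p' q i (c / 8) 4 fun _ j D => avF μ s (frm33 μ s K ι β γ) m fun y w S =>
          fL58 μ s T d (frm33 μ s K ι β γ) m p p' M y w j S * |D y w S| := by
  obtain ⟨κ, hκ, H⟩ := Lo38.loF38L h hK hδ (show 0 < c / 2 by positivity)
  refine ⟨κ / 2, by positivity, fun κ' h1 h2 => ?_⟩
  obtain ⟨c₂, hc₂, H⟩ := H κ' h1 (by linarith)
  refine ⟨δ / 16, by positivity, fun ι hι hιδ => Sml.of fun β hβ => Sml.of fun γ _ => ?_⟩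
  filter_upwards [H ι hι, rows41 h hk (K := K) (by omega) (Θ := Θ) hδ hc.le hcδ hη hιδ, ev_n (show 0 < κ - κ' by linarith) 2,
    Sz23.ev_exp hc₂ 5] with m hm hr hn2 hex
  intro p p' q i hC hpp hi d hd M hM hM'
  have hn1 : 1 ≤ ((2 ^ m : ℕ) : ℝ) := n_ge1 m
  have hn0 : 0 < ((2 ^ m : ℕ) : ℝ) := by linarith
  have hqm : p' ≤ m := by
    have e1 : (sg96 (EE μ s) c m p' : ℝ) ≤ m := by
      have := hC.hsq'
      have := hC.hqm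
      have h3 : 0 ≤ c * (m : ℝ) := by positivity
      have h4 : 0 ≤ η * (m : ℝ) := by positivity
      linarith
    have e2 : sg96 (EE μ s) c m p' ≤ m := by exact_mod_cast e1
    exact hC.hps'.trans e2
  have hMκ : M ≤ ((2 ^ m : ℕ) : ℝ) ^ κ := by
    refine hM'.trans ?_
    have e : ((2 ^ m : ℕ) : ℝ) ^ κ = ((2 ^ m : ℕ) : ℝ) ^ (κ - κ') * ((2 ^ m : ℕ) : ℝ) ^ κ' := by
      rw [← Real.rpow_add hn0]
      congr 1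
      ring
    rw [e]
    exact mul_le_mul_of_nonneg_right hn2 (Real.rpow_nonneg hn0.le _)
  have hys : ∀ y ∈ (frm33 μ s K ι β γ).ys m, y ≤ (frm33 μ s K ι β γ).L m := hy33 (by omega) m
  refine Pr46.of_row hys (fun n => EE_pos n) (show p' ≤ m + 6 by omega) (g := ((2 ^ m : ℕ) : ℝ) ^ (c / 2) / EE μ s (2 ^ p) ^ 2)
    (e := Real.exp (-(((2 ^ m : ℕ) : ℝ) ^ c₂))) (by positivity) (rate58 (fun n => EE_pos n) hc.le hC) (Real.exp_pos _).le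
    (by norm_num at hex ⊢; exact hex) fun t ht k j D Mh hD hj => ?_
  have hj' := mem_filter.1 hj
  obtain ⟨r1, r2, r3, r4, r5, r6⟩ := hr p p' q i hC hi j hj'.1
  have hb1 : 2 ^ (p - ⌈ι * (m : ℝ)⌉₊) ≤ 2 ^ p := Nat.pow_le_pow_right two_pos (Nat.sub_le _ _)
  have hb2 : 1 ≤ 2 ^ (p - ⌈ι * (m : ℝ)⌉₊) := Nat.one_le_two_pow
  have hkn := kn38_le (2 ^ (p - ⌈ι * (m : ℝ)⌉₊)) (2 ^ p)
  have hd2 := hd.2
  have key := hm p p' j hC.hp hpp.le r3.le r4.le M hM hMκ T (j - (frm33 μ s K ι β γ).b0 m p) (j - (frm33 μ s K ι β γ).b0 m p - d)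
    (show j ≤ j - 2 ^ (p - ⌈ι * (m : ℝ)⌉₊) + 2 ^ (p - ⌈ι * (m : ℝ)⌉₊) + 4 * kn38 (2 ^ (p - ⌈ι * (m : ℝ)⌉₊)) (2 ^ p) by omega)
    (show j - 2 ^ (p - ⌈ι * (m : ℝ)⌉₊) - d ≤ j by omega)
    (show j ≤ j - 2 ^ (p - ⌈ι * (m : ℝ)⌉₊) - d + 2 ^ (p - ⌈ι * (m : ℝ)⌉₊) + 4 * kn38 (2 ^ (p - ⌈ι * (m : ℝ)⌉₊)) (2 ^ p) by omega)
    D Mh hD.pos (fun y _ => hD.bdd y) (fun y _ => hD.mes y) (fun y _ => off58 (hD.off y) (by positivity) hj'.2)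
  refine le_trans (le_of_eq ?_) key
  show av _ _ _ _ = avy _ _
  unfold av avy
  congr 1
  refine sum_congr rfl fun y _ => ?_
  congr 1
  funext ω
  congr 1
  funext S
  exact mul_comm _ _


/-- **(P2), right.** -/
theorem p2R58 {c₁ C : ℝ} {n₀ : ℕ} (h : In μ s c₁ C n₀) (hk : KapLe96 (EE μ s) (1 / 4)) {K : ℕ} (hK : 32 ≤ K) {Θ δ c η : ℝ} (hδ : 0 < δ)
    (hc : 0 ≤ c) (hcδ : c ≤ δ / 64) (hη : 0 ≤ η) (T : Prop) :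
    ∃ κ : ℝ, 0 < κ ∧ Est fun ι β γ m => ∀ p p' q i : ℕ, Chg96 (EE μ s) Θ δ c η m p p' q → i < 2 ^ (m - q) → ∀ d : ℕ, Qd58 ι m p d →
      ∀ M M' : ℝ, M ≤ ((2 ^ m : ℕ) : ℝ) ^ κ → 5 * M + 4 * B33 β m + 1 ≤ 5 * M' → ∀ (k : ℕ)
        (D : Wt46 (frm33 μ s K ι β γ) m) (Mh : ℝ), Ps46 (frm33 μ s K ι β γ) m (2 ^ (p' - 6)) (2 ^ p') k D Mh →
      ∀ j ∈ st46 (frm33 μ s K ι β γ) m q i (2 ^ (p' - 6)) k,
        ((((frm33 μ s K ι β γ).ys m).card : ℝ)⁻¹ * ∑ y ∈ (frm33 μ s K ι β γ).ys m, ∫ ω,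
          gm (N25.vm μ s ((frm33 μ s K ι β γ).L m) (Pn ((frm33 μ s K ι β γ).L m) y) (frm33 μ s K ι β γ).dl ((frm33 μ s K ι β γ).B m)
            ((frm33 μ s K ι β γ).b0 m p) ω j) (fun S => |D y ω S| * fR58 μ s T d (frm33 μ s K ι β γ) m p p' M y ω j S)
          ∂(Pm μ ((frm33 μ s K ι β γ).L m))) ≤
        avF μ s (frm33 μ s K ι β γ) m (fun y ω S => |D y ω S| * fR58 μ s T d (frm33 μ s K ι β γ) m p p' M' y ω j S) +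
          Mh * ((2 ^ m : ℕ) : ℝ) ^ (-(11 / 2) : ℝ) := by
  obtain ⟨κ, hκ, hE⟩ := est_fl (X := fun γ k B b j m m' => ∀ (T : Prop) (c d o o' a r U V : ℕ),
        c ≤ j - b → j + b ≤ d → (o' ≤ j - b ∨ j + b ≤ o) → a ≤ j - b → j + b ≤ r → (V ≤ j - b ∨ j + b ≤ U) →
        ∀ (H : (y : ℕ) → Env × Finset ℕ → Px (Pn (L33 K k) y) → ℝ) (Mh : ℝ), Cov1 (L33 K k) b j H Mh → (∀ y ω x, 0 ≤ H y ω x) →
        avy (ys33 μ s K k) (fun y => ∫ ω, gm (N25.vm μ s (L33 K k) (Pn (L33 K k) y) γ B b ω j) (fun x => H y ω x *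
            (own38 T (wm μ s (L33 K k) (Pn (L33 K k) y) ω) (pJ c d) o o' m x *
              lng38 (wm μ s (L33 K k) (Pn (L33 K k) y) ω) (pJ a r) U V m x)) ∂(Pm μ (L33 K k))) ≤
          avy (ys33 μ s K k) (fun y => ∫ ω, gm (wm μ s (L33 K k) (Pn (L33 K k) y) ω) (fun x => H y ω x *
            (own38 T (wm μ s (L33 K k) (Pn (L33 K k) y) ω) (pJ c d) o o' m' x *
              lng38 (wm μ s (L33 K k) (Pn (L33 K k) y) ω) (pJ a r) U V m' x)) ∂(Pm μ (L33 K k))) + Mh * ((2 ^ k : ℕ) : ℝ) ^ (-(11 / 2) : ℝ))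
    h hk hK (Θ := Θ) hδ hc hcδ hη (by
      obtain ⟨c₃, hc₃, h1⟩ := Lo38.flip_lo_33 h hK (show 0 < δ / 4 by positivity)
      refine ⟨c₃, hc₃, fun β hβ => ?_⟩
      obtain ⟨γ₀, hγ₀, h1⟩ := h1 β hβ
      refine ⟨γ₀, hγ₀, fun γ hγ hγ' => ?_⟩
      filter_upwards [h1 γ hγ hγ'] with k h2 B hB hB24 b j g1 g2 g3 g4 m m' g5 g6
      have hB0 : 0 ≤ B := le_trans (by unfold B33; positivity) hB
      exact h2 B hB (by linarith) b j g1 g2 g3 g4 m m' g5 g6)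
  refine ⟨κ, hκ, hE.mono fun ι β γ _ _ _ => Eventually.of_forall fun m hm => ?_⟩
  intro p p' q i hC hi d hd M M' hM hMM k D Mh hD j hj
  have hj' := mem_filter.1 hj
  obtain ⟨⟨g1, g2, g3, g4⟩, hx⟩ := hm p p' q i hC hi j hj'.1 M M' hM hMM
  exact hx T (j - 2 ^ p') (j + 2 ^ p') (j + (frm33 μ s K ι β γ).b0 m p) (j + 2 ^ p) (0) (j + (frm33 μ s K ι β γ).b0 m p + d) (j - 2 ^ p) (j - (frm33 μ s K ι β γ).b0 m p) (by omega) (by omega) (Or.inr le_rfl) (Nat.zero_le _) (Nat.le_add_right _ _) (Or.inl le_rfl)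
    (fun y ω S => |D y ω S|) Mh (cov_ps hD hj'.2 (g1.trans g2)) (fun _ _ _ => abs_nonneg _)

/-- **(P2), left.** -/
theorem p2L58 {c₁ C : ℝ} {n₀ : ℕ} (h : In μ s c₁ C n₀) (hk : KapLe96 (EE μ s) (1 / 4)) {K : ℕ} (hK : 32 ≤ K) {Θ δ c η : ℝ} (hδ : 0 < δ)
    (hc : 0 ≤ c) (hcδ : c ≤ δ / 64) (hη : 0 ≤ η) (T : Prop) :
    ∃ κ : ℝ, 0 < κ ∧ Est fun ι β γ m => ∀ p p' q i : ℕ, Chg96 (EE μ s) Θ δ c η m p p' q → i < 2 ^ (m - q) → ∀ d : ℕ, Qd58 ι m p d →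
      ∀ M M' : ℝ, M ≤ ((2 ^ m : ℕ) : ℝ) ^ κ → 5 * M + 4 * B33 β m + 1 ≤ 5 * M' → ∀ (k : ℕ)
        (D : Wt46 (frm33 μ s K ι β γ) m) (Mh : ℝ), Ps46 (frm33 μ s K ι β γ) m (2 ^ (p' - 6)) (2 ^ p') k D Mh →
      ∀ j ∈ st46 (frm33 μ s K ι β γ) m q i (2 ^ (p' - 6)) k,
        ((((frm33 μ s K ι β γ).ys m).card : ℝ)⁻¹ * ∑ y ∈ (frm33 μ s K ι β γ).ys m, ∫ ω,
          gm (N25.vm μ s ((frm33 μ s K ι β γ).L m) (Pn ((frm33 μ s K ι β γ).L m) y) (frm33 μ s K ι β γ).dl ((frm33 μ s K ι β γ).B m)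
            ((frm33 μ s K ι β γ).b0 m p) ω j) (fun S => |D y ω S| * fL58 μ s T d (frm33 μ s K ι β γ) m p p' M y ω j S)
          ∂(Pm μ ((frm33 μ s K ι β γ).L m))) ≤
        avF μ s (frm33 μ s K ι β γ) m (fun y ω S => |D y ω S| * fL58 μ s T d (frm33 μ s K ι β γ) m p p' M' y ω j S) +
          Mh * ((2 ^ m : ℕ) : ℝ) ^ (-(11 / 2) : ℝ) := by
  obtain ⟨κ, hκ, hE⟩ := est_fl (X := fun γ k B b j m m' => ∀ (T : Prop) (c d o o' a r U V : ℕ),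
        c ≤ j - b → j + b ≤ d → (o' ≤ j - b ∨ j + b ≤ o) → a ≤ j - b → j + b ≤ r → (V ≤ j - b ∨ j + b ≤ U) →
        ∀ (H : (y : ℕ) → Env × Finset ℕ → Px (Pn (L33 K k) y) → ℝ) (Mh : ℝ), Cov1 (L33 K k) b j H Mh → (∀ y ω x, 0 ≤ H y ω x) →
        avy (ys33 μ s K k) (fun y => ∫ ω, gm (N25.vm μ s (L33 K k) (Pn (L33 K k) y) γ B b ω j) (fun x => H y ω x *
            (own38 T (wm μ s (L33 K k) (Pn (L33 K k) y) ω) (pJ c d) o o' m x *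
              lng38 (wm μ s (L33 K k) (Pn (L33 K k) y) ω) (pJ a r) U V m x)) ∂(Pm μ (L33 K k))) ≤
          avy (ys33 μ s K k) (fun y => ∫ ω, gm (wm μ s (L33 K k) (Pn (L33 K k) y) ω) (fun x => H y ω x *
            (own38 T (wm μ s (L33 K k) (Pn (L33 K k) y) ω) (pJ c d) o o' m' x *
              lng38 (wm μ s (L33 K k) (Pn (L33 K k) y) ω) (pJ a r) U V m' x)) ∂(Pm μ (L33 K k))) + Mh * ((2 ^ k : ℕ) : ℝ) ^ (-(11 / 2) : ℝ))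
    h hk hK (Θ := Θ) hδ hc hcδ hη (by
      obtain ⟨c₃, hc₃, h1⟩ := Lo38.flip_lo_33 h hK (show 0 < δ / 4 by positivity)
      refine ⟨c₃, hc₃, fun β hβ => ?_⟩
      obtain ⟨γ₀, hγ₀, h1⟩ := h1 β hβ
      refine ⟨γ₀, hγ₀, fun γ hγ hγ' => ?_⟩
      filter_upwards [h1 γ hγ hγ'] with k h2 B hB hB24 b j g1 g2 g3 g4 m m' g5 g6
      have hB0 : 0 ≤ B := le_trans (by unfold B33; positivity) hB
      exact h2 B hB (by linarith) b j g1 g2 g3 g4 m m' g5 g6)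
  refine ⟨κ, hκ, hE.mono fun ι β γ _ _ _ => Eventually.of_forall fun m hm => ?_⟩
  intro p p' q i hC hi d hd M M' hM hMM k D Mh hD j hj
  have hj' := mem_filter.1 hj
  obtain ⟨⟨g1, g2, g3, g4⟩, hx⟩ := hm p p' q i hC hi j hj'.1 M M' hM hMM
  exact hx T (j - 2 ^ p') (j + 2 ^ p') (j - 2 ^ p) (j - (frm33 μ s K ι β γ).b0 m p) (j - (frm33 μ s K ι β γ).b0 m p - d) ((frm33 μ s K ι β γ).L m) (j + (frm33 μ s K ι β γ).b0 m p) (j + 2 ^ p) (by omega) (by omega) (Or.inl le_rfl) (Nat.sub_le _ _) (show j + 2 ^ (p - ⌈ι * (m : ℝ)⌉₊) ≤ L33 K m by omega) (Or.inr le_rfl)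
    (fun y ω S => |D y ω S|) Mh (cov_ps hD hj'.2 (g1.trans g2)) (fun _ _ _ => abs_nonneg _)

end Frame

end

end Pool.W7d29a1.C0.Ln58
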