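import Pool.Agent.W_7d29a1_C0.Two86

/-!
C0, helper36: THE LONG OWN LOOPS (helper80's list, MP_7d29a1_pr, E5.7). `lm36` = the mass, given the block `[C, D)`, of the replicas which do
not meet the path in `[j - 11 b, j + 11 b]`; `Bl36` = the robust micro tie of the row `j` (block `[j - b, j + b)`, window `[U j, V j]`) times
the event `exp (- 8 M) < lm36`.
* `long_one`: the mean of one `Bl36`: `1 / (E_l E_b)`.
* `long_two`: two rows at distance `≥ 64 b`: `1 / (E_l E_b) ^ 2 + 1 / (E_l ^ 2 E_|j - k|)` (`price_two` of helper86, cut in the middle).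
* `long_str`, `long_sq`: second moments of the sums over a stretch and over a set of rows.
-/

set_option autoImplicit false
set_option linter.unusedSectionVars false
set_option linter.unusedVariables false

namespace Pool.Agent.W_7d29a1_C0.Lng36

open MeasureTheory ProbabilityTheory Filter Topology Finset
open Pool.Agent.W_7d29a1_F Pool.Agent.W_7d29a1_X Pool.Agent.W_7d29a1_h4g Pool.Agent.W_7d29a1_H
open Pool.Agent.W_7d29a1_HS (In wd)
open Pool.Agent.W_7d29a1_HZ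
open Pool.Agent.W_7d29a1_C0.P86 (Plc Ty Dom dom_mass dom_tau price_one price_two ev_mul86 EE'_le_mul86)
open Pool.Agent.W_7d29a1_C0.Mod92
open Pool.Agent.W_7d29a1_C0.Swap57 (NI NI_nonneg cE2)
open Pool.W7d29a1.C0 (gm gz gz_pos gm_nonneg gm_mono gm_const gm_add gm_smul)
open Pool.W7d29a1.C0.VT31 (Mp cE cE_mono cE_nonneg cE_one fz fz_pos)
open Pool.W7d29a1.C0.R43 (Tau)

noncomputable section

variable {μ : Measure ℝ} {s : ℝ} {N y : ℕ}

/-- The indicator of an event. -/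
def i36 (P : Prop) : ℝ := by
  classical exact if P then 1 else 0

theorem i36_of {P : Prop} (h : P) : i36 P = 1 := by
  unfold i36
  exact if_pos h

theorem i36_not {P : Prop} (h : ¬ P) : i36 P = 0 := by
  unfold i36
  exact if_neg h

theorem i36_eq (P : Prop) [Decidable P] : i36 P = if P then 1 else 0 := by
  by_cases h : P
  · rw [i36_of h, if_pos h]
  · rw [i36_not h, if_neg h]

theorem i36_nonneg (P : Prop) : 0 ≤ i36 P := by
  by_cases h : P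
  · rw [i36_of h]
    exact zero_le_one
  · rw [i36_not h]

theorem i36_le_one (P : Prop) : i36 P ≤ 1 := by
  by_cases h : P
  · rw [i36_of h]
  · rw [i36_not h]
    exact zero_le_one

theorem i36_ne {P : Prop} (h : i36 P ≠ 0) : P := by
  by_contra h0
  exact h (i36_not h0)

theorem meas_i36 {Ω : Type*} [MeasurableSpace Ω] {P : Ω → Prop} (h : MeasurableSet {ω | P ω}) : Measurable fun ω => i36 (P ω) := by
  classical
  have e : (fun ω => i36 (P ω)) = fun ω => if P ω then (1 : ℝ) else 0 := by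
    funext ω
    exact i36_eq _
  rw [e]
  exact Measurable.ite h measurable_const measurable_const

/-- **The long mass**: replicas given the outside of `[C, D)` which do not meet the path in `[j - 11 b, j + 11 b]`. -/
def lm36 (μ : Measure ℝ) (s : ℝ) (N y C D b j : ℕ) (ω : Env × Finset ℕ) (x : Px (Pn N y)) : ℝ :=
  cE (wm μ s N (Pn N y) ω) (pJ C D) (NI (j - 11 * b) (j + 11 * b) x) x

/-- The robust micro tie of the row `j`. -/
def mi36 (μ : Measure ℝ) (s : ℝ) (N y b : ℕ) (U V : ℕ → ℕ) (M : ℝ) (j : ℕ) (ω : Env × Finset ℕ) (x : Px (Pn N y)) : ℝ :=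
  i36 (Tau (wm μ s N (Pn N y) ω) (pJ (j - b) (j + b)) (U j) (V j) M x)

/-- The event of a long own loop. -/
def lo36 (μ : Measure ℝ) (s : ℝ) (N y C D b : ℕ) (M : ℝ) (j : ℕ) (ω : Env × Finset ℕ) (x : Px (Pn N y)) : ℝ :=
  i36 (Real.exp (-(8 * M)) < lm36 μ s N y C D b j ω x)

/-- **The long double tie.** -/
def Bl36 (μ : Measure ℝ) (s : ℝ) (N y C D b : ℕ) (U V : ℕ → ℕ) (M : ℝ) (j : ℕ) (ω : Env × Finset ℕ) (x : Px (Pn N y)) : ℝ :=
  mi36 μ s N y b U V M j ω x * lo36 μ s N y C D b M j ω x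

theorem Bl_nonneg {C D b : ℕ} {U V : ℕ → ℕ} {M : ℝ} {j : ℕ} (ω : Env × Finset ℕ) (x : Px (Pn N y)) :
    0 ≤ Bl36 μ s N y C D b U V M j ω x := mul_nonneg (i36_nonneg _) (i36_nonneg _)

theorem Bl_le_one {C D b : ℕ} {U V : ℕ → ℕ} {M : ℝ} {j : ℕ} (ω : Env × Finset ℕ) (x : Px (Pn N y)) :
    Bl36 μ s N y C D b U V M j ω x ≤ 1 := mul_le_one₀ (i36_le_one _) (i36_nonneg _) (i36_le_one _)

theorem meas_cE236 {Q : Finset (Finset ℕ)} (p : Px Q → Finset ℕ × ℕ) (K : Px Q → Px Q → ℝ) (S S' : Px Q) :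
    Measurable fun ω => cE2 (wm μ s N Q ω) p K S S' :=
  meas_cE meas_wm (f := fun ω z => cE (wm μ s N Q ω) p (K z) S')
    (fun z => meas_cE meas_wm (f := fun _ => K z) (fun _ => measurable_const) p S') p S

theorem meas_lm {C D b j : ℕ} (x : Px (Pn N y)) : Measurable fun ω => lm36 μ s N y C D b j ω x :=
  meas_cE meas_wm (f := fun _ => NI (j - 11 * b) (j + 11 * b) x) (fun _ => measurable_const) _ x

theorem meas_Bl {C D b : ℕ} {U V : ℕ → ℕ} {M : ℝ} {j : ℕ} (x : Px (Pn N y)) :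
    Measurable fun ω => Bl36 μ s N y C D b U V M j ω x :=
  (meas_i36 (measurableSet_le measurable_const (meas_cE236 (pJ (j - b) (j + b)) (NI (U j) (V j)) x x))).mul
    (meas_i36 (measurableSet_lt measurable_const (meas_lm x)))

/-- Smaller windows: larger masses. -/
theorem NI_sub {Q : Finset (Finset ℕ)} {i i' k k' : ℕ} (h1 : i ≤ i') (h2 : k' ≤ k) (S T : Px Q) : NI i k S T ≤ NI i' k' S T := by
  unfold NI
  by_cases h : ∀ m, i ≤ m → m ≤ k → ps S m ≠ ps T m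
  · rw [if_pos h, if_pos fun m hm1 hm2 => h m (h1.trans hm1) (hm2.trans h2)]
  · rw [if_neg h]
    split_ifs <;> norm_num

theorem lm_nonneg {C D b j : ℕ} (ω : Env × Finset ℕ) (x : Px (Pn N y)) : 0 ≤ lm36 μ s N y C D b j ω x := by
  have : Nonempty (Px (Pn N y)) := ⟨x⟩
  exact cE_nonneg _ _ (fun z => NI_nonneg _ _ _ _) x

theorem lm_le {C D b j i k : ℕ} (h1 : j - 11 * b ≤ i) (h2 : k ≤ j + 11 * b) (ω : Env × Finset ℕ) (x : Px (Pn N y)) :
    lm36 μ s N y C D b j ω x ≤ cE (wm μ s N (Pn N y) ω) (pJ C D) (NI i k x) x := by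
  have : Nonempty (Px (Pn N y)) := ⟨x⟩
  exact cE_mono _ _ (fun z => NI_sub h1 h2 x z) x

/-- The window must lie inside of the block. -/
theorem lm_zero {C D b j : ℕ} (hC : C ≤ j) (hD : j ≤ D) (h : j ≤ C + 11 * b ∨ D ≤ j + 11 * b) (ω : Env × Finset ℕ)
    (x : Px (Pn N y)) : lm36 μ s N y C D b j ω x = 0 := by
  have h0 : ∀ z : Px (Pn N y), pJ C D z = pJ C D x → NI (j - 11 * b) (j + 11 * b) x z = 0 := fun z hz => by
    unfold NI
    rcases h with h | h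
    · rw [if_neg fun hn => hn C (by omega) (by omega) (ps_of_le hz le_rfl).symm]
    · rw [if_neg fun hn => hn D (by omega) (by omega) (ps_of_ge hz le_rfl).symm]
  unfold lm36 cE
  rw [sum_eq_zero fun z _ => ?_, zero_div]
  split_ifs with hz
  · rw [h0 z hz, mul_zero]
  · rfl

theorem lo_zero {C D b : ℕ} {M : ℝ} {j : ℕ} (hC : C ≤ j) (hD : j ≤ D) (h : j ≤ C + 11 * b ∨ D ≤ j + 11 * b) (ω : Env × Finset ℕ)
    (x : Px (Pn N y)) : lo36 μ s N y C D b M j ω x = 0 := by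
  unfold lo36
  rw [lm_zero hC hD h]
  exact i36_not (not_lt.2 (Real.exp_pos _).le)

theorem lo_le {C D b : ℕ} {M X : ℝ} {j i k : ℕ} (hX : 8 * M ≤ X) (h1 : j - 11 * b ≤ i) (h2 : k ≤ j + 11 * b) (ω : Env × Finset ℕ)
    (x : Px (Pn N y)) : lo36 μ s N y C D b M j ω x ≤ Real.exp X * cE (wm μ s N (Pn N y) ω) (pJ C D) (NI i k x) x := by
  have : Nonempty (Px (Pn N y)) := ⟨x⟩
  have h3 := lm_le (μ := μ) (s := s) (C := C) (D := D) h1 h2 ω x
  have h4 : 0 ≤ cE (wm μ s N (Pn N y) ω) (pJ C D) (NI i k x) x := cE_nonneg _ _ (fun z => NI_nonneg _ _ _ _) x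
  unfold lo36
  by_cases h : Real.exp (-(8 * M)) < lm36 μ s N y C D b j ω x
  · rw [i36_of h]
    have h5 : 1 = Real.exp (8 * M) * Real.exp (-(8 * M)) := by rw [← Real.exp_add, add_neg_cancel, Real.exp_zero]
    rw [h5]
    exact mul_le_mul (Real.exp_le_exp.2 hX) (h.le.trans h3) (Real.exp_pos _).le (Real.exp_pos _).le
  · rw [i36_not h]
    exact mul_nonneg (Real.exp_pos _).le h4

/-! ### The prices -/

variable [IsProbabilityMeasure μ] {c₀ C₀ : ℝ} {n₀ : ℕ}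

/-- The places. -/
def pO (C D u v l : ℕ) (t : Ty) : Plc := ⟨C, D, C, D, u, v, l, t, False⟩

def pM (b j U V l : ℕ) : Plc := ⟨j - b, j + b, j - b, j + b, U, V, l, Ty.L, True⟩

theorem dom_o {X M : ℝ} (hX : 1 ≤ X) (hXM : 8 * M ≤ X) {C D b j u v l : ℕ} (t : Ty) (h1 : C ≤ u) (h2 : u ≤ v) (h3 : v ≤ D)
    (h4 : j - 11 * b ≤ u) (h5 : v ≤ j + 11 * b) (hl : u + l ≤ v) :
    Dom μ s N y X M (pO C D u v l t) (lo36 μ s N y C D b M j) :=
  dom_mass hX (fun h => h) ⟨le_rfl, h1, h2, h3, le_rfl⟩ rfl rfl hl (fun ω x => i36_nonneg _) (fun ω x => i36_le_one _)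
    fun ω x => lo_le hXM h4 h5 ω x

theorem dom_m {X M : ℝ} (hM : 0 ≤ M) {b j l : ℕ} {U V : ℕ → ℕ} (hl : U j + l ≤ V j) :
    Dom μ s N y X M (pM b j (U j) (V j) l) (mi36 μ s N y b U V M j) :=
  dom_tau hM trivial rfl rfl hl (fun ω x => i36_nonneg _) (fun ω x => i36_le_one _) fun ω x => Or.inl i36_ne

theorem EE'_pos36 (μ : Measure ℝ) (s : ℝ) (n : ℕ) : 0 < EE' μ s n := lt_of_lt_of_le one_pos (le_max_left _ _)

/-- **(a) ONE ROW.** -/
theorem long_one (h : In μ s c₀ C₀ n₀) : ∀ ε θ : ℝ, 0 < ε → 0 < θ → ∃ δ κ c₂ : ℝ, 0 < δ ∧ 0 < κ ∧ 0 < c₂ ∧ ∃ L₀ : ℕ,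
    ∀ L : ℕ, L₀ ≤ L → ∀ N : ℕ, L ≤ 16 * N → N ≤ L → ∀ y : ℕ, y ≤ N → |(y : ℝ) - sl μ s * N| ≤ ((L : ℝ) ^ δ * wd' μ s N) →
    ∀ M : ℝ, 8 ≤ M → M ≤ (L : ℝ) ^ κ → ∀ C D b l j : ℕ, D ≤ N → (L : ℝ) ^ θ ≤ l → b ≤ j → j + b ≤ N → C ≤ j → j ≤ D →
    ∀ U V : ℕ → ℕ, j - b ≤ U j → U j + l ≤ V j → V j ≤ j + b →
    ∫ ω, gm (wm μ s N (Pn N y) ω) (Bl36 μ s N y C D b U V M j ω) ∂(Pm μ N) ≤
      (L : ℝ) ^ ε * ((EE' μ s l)⁻¹ * (EE' μ s b)⁻¹) + (Real.exp (-(L : ℝ) ^ c₂) + 4 * Real.exp (-M)) := by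
  intro ε θ hε hθ
  obtain ⟨δ, κ₁, c₂, hδ, hκ₁, hc₂, L₀, hP⟩ := price_one h 2 (by norm_num) (ε / 2) θ (by positivity) hθ
  obtain ⟨L₁, hL₁⟩ := ev_mul86 8 (show κ₁ / 2 < κ₁ by linarith)
  refine ⟨δ, κ₁ / 2, c₂, hδ, by positivity, hc₂, L₀ + L₁ + 1, ?_⟩
  intro L hL N hLN hNL y hyN hyc M hM hML C D b l j hDN hl hbj hjN hCj hjD U V h1 h2 h3
  have hLR : (1 : ℝ) ≤ L := by exact_mod_cast (show 1 ≤ L by omega)
  have hL0 : (0 : ℝ) < L := by linarith
  have hX : (1 : ℝ) ≤ (L : ℝ) ^ κ₁ := Real.one_le_rpow hLR hκ₁.le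
  have hXM : 8 * M ≤ (L : ℝ) ^ κ₁ := (mul_le_mul_of_nonneg_left hML (by norm_num)).trans (hL₁ L (by omega))
  have hML' : M ≤ (L : ℝ) ^ κ₁ := hML.trans (Real.rpow_le_rpow_of_exponent_le hLR (by linarith))
  have hEl := EE'_pos36 μ s l
  have hEb := EE'_pos36 μ s b
  have herr : 0 ≤ (L : ℝ) ^ ε * ((EE' μ s l)⁻¹ * (EE' μ s b)⁻¹) + (Real.exp (-(L : ℝ) ^ c₂) + 4 * Real.exp (-M)) := by positivity
  by_cases hin : j ≤ C + 11 * b ∨ D ≤ j + 11 * b
  · have e : (fun ω : Env × Finset ℕ => gm (wm μ s N (Pn N y) ω) (Bl36 μ s N y C D b U V M j ω)) = fun _ => 0 := by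
      funext ω
      have := ne_Pn (N := N) (y := y) hyN
      have e1 : Bl36 μ s N y C D b U V M j ω = fun _ => 0 := by
        funext x
        unfold Bl36
        rw [lo_zero hCj hjD hin, mul_zero]
      rw [e1]
      exact gm_const _ 0
    rw [e, integral_zero]
    exact herr
  · push Not at hin
    obtain ⟨hi1, hi2⟩ := hin
    have hl10 : (L : ℝ) ^ θ ≤ ((10 * b : ℕ) : ℝ) := hl.trans (by exact_mod_cast (show l ≤ 10 * b by omega))
    have key := hP L (by omega) N hLN hNL y hyN hyc M hM hML'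
      [(pO C D (j + b) (j + 11 * b) (10 * b) Ty.R, lo36 μ s N y C D b M j), (pM b j (U j) (V j) l, mi36 μ s N y b U V M j)] rfl
      (by
        intro P hPm
        rcases List.mem_cons.1 hPm with rfl | hPm
        · exact ⟨by show C ≤ C ∧ C ≤ j + b ∧ j + b ≤ j + 11 * b ∧ j + 11 * b ≤ D ∧ D ≤ D ∧ D ≤ N; omega, hl10⟩
        · rcases List.mem_cons.1 hPm with rfl | hPm
          · exact ⟨by show j - b ≤ j - b ∧ j - b ≤ U j ∧ U j ≤ V j ∧ V j ≤ j + b ∧ j + b ≤ j + b ∧ j + b ≤ N; omega, hl⟩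
          · exact absurd hPm List.not_mem_nil)
      (by
        refine List.Pairwise.cons (fun P' hP' => ?_) (List.pairwise_singleton _ _)
        rcases List.mem_cons.1 hP' with rfl | hP'
        · exact Or.inl (show j + b ≤ j + b from le_rfl)
        · exact absurd hP' List.not_mem_nil)
      (by
        intro P hPm
        rcases List.mem_cons.1 hPm with rfl | hPm
        · exact dom_o hX hXM Ty.R (by omega) (by omega) (by omega) (by omega) (by omega) (by omega)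
        · rcases List.mem_cons.1 hPm with rfl | hPm
          · exact dom_m (by linarith) h2
          · exact absurd hPm List.not_mem_nil)
    have e1 : (fun ω : Env × Finset ℕ => gm (wm μ s N (Pn N y) ω) (Bl36 μ s N y C D b U V M j ω)) =
        fun ω => gm (wm μ s N (Pn N y) ω) (fun x => (([(pO C D (j + b) (j + 11 * b) (10 * b) Ty.R, lo36 μ s N y C D b M j),
          (pM b j (U j) (V j) l, mi36 μ s N y b U V M j)] : List (Plc × (Env × Finset ℕ → Px (Pn N y) → ℝ))).map fun P => P.2 ω x).prod) := by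
      funext ω
      congr 1
      funext x
      simp only [List.map_cons, List.map_nil, List.prod_cons, List.prod_nil, mul_one]
      exact mul_comm _ _
    rw [e1]
    refine key.trans (add_le_add ?_ (add_le_add le_rfl (le_of_eq (by norm_num))))
    simp only [List.map_cons, List.map_nil, List.prod_cons, List.prod_nil, mul_one]
    show (L : ℝ) ^ (ε / 2) * (EE' μ s (10 * b))⁻¹ * ((L : ℝ) ^ (ε / 2) * (EE' μ s l)⁻¹) ≤ _
    have hE10 : EE' μ s b ≤ EE' μ s (10 * b) := by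
      have := EE'_le_mul86 h (m := b) (n := 10 * b) (k := 1) le_rfl (by omega)
      rwa [Nat.cast_one, one_mul] at this
    have hex : (L : ℝ) ^ ε = (L : ℝ) ^ (ε / 2) * (L : ℝ) ^ (ε / 2) := by
      rw [← Real.rpow_add hL0]
      congr 1
      ring
    have hi : (EE' μ s (10 * b))⁻¹ ≤ (EE' μ s b)⁻¹ := inv_anti₀ hEb hE10
    have hq : 0 ≤ (L : ℝ) ^ (ε / 2) := Real.rpow_nonneg hL0.le _
    calc (L : ℝ) ^ (ε / 2) * (EE' μ s (10 * b))⁻¹ * ((L : ℝ) ^ (ε / 2) * (EE' μ s l)⁻¹) ≤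
          (L : ℝ) ^ (ε / 2) * (EE' μ s b)⁻¹ * ((L : ℝ) ^ (ε / 2) * (EE' μ s l)⁻¹) :=
          mul_le_mul_of_nonneg_right (mul_le_mul_of_nonneg_left hi hq) (by positivity)
      _ = (L : ℝ) ^ (ε / 2) * (L : ℝ) ^ (ε / 2) * ((EE' μ s l)⁻¹ * (EE' μ s b)⁻¹) := by ring
      _ = _ := by rw [hex]

/-- The numbers of `long_two`. -/
theorem num36 {X p r t r' u1 u2 : ℝ} (hX8 : 8 ≤ X) (hp0 : 0 ≤ p) (hr0 : 0 ≤ r) (ht0 : 0 ≤ t) (hr'0 : 0 ≤ r') (hrr : r' ≤ r)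
    (hu1t : u1 ≤ 4 * t) (hu2t : u2 ≤ 4 * t) :
    (X * r' * (X * r') + X * u1 + X * u2) * (X * p * (X * p)) ≤ X * X * X * X * X * ((p * r) ^ 2 + p ^ 2 * t) := by
  have hX0 : 0 ≤ X := by linarith
  have a1 : X * r' * (X * r') ≤ X * r * (X * r) :=
    mul_le_mul (mul_le_mul_of_nonneg_left hrr hX0) (mul_le_mul_of_nonneg_left hrr hX0) (by positivity) (by positivity)
  have a0 : X * X ≤ X * X * X := le_mul_of_one_le_right (by positivity) (by linarith)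
  have g1 : X * r * (X * r) ≤ X * X * X * (r * r) := by
    have e : X * r * (X * r) = X * X * (r * r) := by ring
    rw [e]
    exact mul_le_mul_of_nonneg_right a0 (mul_nonneg hr0 hr0)
  have g2 : 8 * (X * t) ≤ X * X * X * t := by
    calc 8 * (X * t) ≤ X * (X * t) := mul_le_mul_of_nonneg_right hX8 (mul_nonneg hX0 ht0)
      _ = X * X * t := by ring
      _ ≤ X * X * X * t := mul_le_mul_of_nonneg_right a0 ht0
  have g3 : X * u1 ≤ 4 * (X * t) := by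
    calc X * u1 ≤ X * (4 * t) := mul_le_mul_of_nonneg_left hu1t hX0
      _ = _ := by ring
  have g4 : X * u2 ≤ 4 * (X * t) := by
    calc X * u2 ≤ X * (4 * t) := mul_le_mul_of_nonneg_left hu2t hX0
      _ = _ := by ring
  have a2 : X * r' * (X * r') + X * u1 + X * u2 ≤ X * X * X * (r * r + t) := by
    rw [mul_add (X * X * X)]
    linarith
  calc (X * r' * (X * r') + X * u1 + X * u2) * (X * p * (X * p)) ≤ (X * X * X * (r * r + t)) * (X * p * (X * p)) :=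
        mul_le_mul_of_nonneg_right a2 (by positivity)
    _ = X * X * X * X * X * ((p * r) ^ 2 + p ^ 2 * t) := by ring

/-- **(b) TWO ROWS** at distance at least `64 b`. -/
theorem long_two (h : In μ s c₀ C₀ n₀) : ∀ ε θ : ℝ, 0 < ε → 0 < θ → ∃ δ κ c₂ : ℝ, 0 < δ ∧ 0 < κ ∧ 0 < c₂ ∧ ∃ L₀ : ℕ,
    ∀ L : ℕ, L₀ ≤ L → ∀ N : ℕ, L ≤ 16 * N → N ≤ L → ∀ y : ℕ, y ≤ N → |(y : ℝ) - sl μ s * N| ≤ ((L : ℝ) ^ δ * wd' μ s N) →
    ∀ M : ℝ, 8 ≤ M → M ≤ (L : ℝ) ^ κ → ∀ C D b l j k : ℕ, D ≤ N → (L : ℝ) ^ θ ≤ l → b ≤ j → k + b ≤ N → C ≤ j → k ≤ D →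
    j + 64 * b ≤ k → ∀ U V : ℕ → ℕ, j - b ≤ U j → U j + l ≤ V j → V j ≤ j + b → k - b ≤ U k → U k + l ≤ V k → V k ≤ k + b →
    ∫ ω, gm (wm μ s N (Pn N y) ω) (fun x => Bl36 μ s N y C D b U V M j ω x * Bl36 μ s N y C D b U V M k ω x) ∂(Pm μ N) ≤
      (L : ℝ) ^ ε * (((EE' μ s l)⁻¹ * (EE' μ s b)⁻¹) ^ 2 + ((EE' μ s l)⁻¹) ^ 2 * (EE' μ s (k - j))⁻¹) +
        (3 * Real.exp (-(L : ℝ) ^ c₂) + 8 * Real.exp (-M)) := by
  intro ε θ hε hθ
  obtain ⟨δ, κ₁, c₂, hδ, hκ₁, hc₂, L₀, hP⟩ := price_two h 2 (by norm_num) (ε / 5) θ (by positivity) hθ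
  obtain ⟨L₁, hL₁⟩ := ev_mul86 8 (show κ₁ / 2 < κ₁ by linarith)
  obtain ⟨L₂, hL₂⟩ := ev_mul86 8 (show 0 < ε / 5 by positivity)
  refine ⟨δ, κ₁ / 2, c₂, hδ, by positivity, hc₂, L₀ + L₁ + L₂ + 1, ?_⟩
  intro L hL N hLN hNL y hyN hyc M hM hML C D b l j k hDN hl hbj hkN hCj hkD hjk U V h1 h2 h3 h4 h5 h6
  have hLR : (1 : ℝ) ≤ L := by exact_mod_cast (show 1 ≤ L by omega)
  have hL0 : (0 : ℝ) < L := by linarith
  have hX : (1 : ℝ) ≤ (L : ℝ) ^ κ₁ := Real.one_le_rpow hLR hκ₁.le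
  have hXM : 8 * M ≤ (L : ℝ) ^ κ₁ := (mul_le_mul_of_nonneg_left hML (by norm_num)).trans (hL₁ L (by omega))
  have hML' : M ≤ (L : ℝ) ^ κ₁ := hML.trans (Real.rpow_le_rpow_of_exponent_le hLR (by linarith))
  have hEl := EE'_pos36 μ s l
  have hEb := EE'_pos36 μ s b
  have hEk := EE'_pos36 μ s (k - j)
  have hl1 : 1 ≤ l := by
    have h7 : (1 : ℝ) ≤ l := (Real.one_le_rpow hLR hθ.le).trans hl
    exact_mod_cast h7
  by_cases hin : (j ≤ C + 11 * b ∨ D ≤ j + 11 * b) ∨ (k ≤ C + 11 * b ∨ D ≤ k + 11 * b)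
  · have e : (fun ω : Env × Finset ℕ => gm (wm μ s N (Pn N y) ω)
        (fun x => Bl36 μ s N y C D b U V M j ω x * Bl36 μ s N y C D b U V M k ω x)) = fun _ => 0 := by
      funext ω
      have := ne_Pn (N := N) (y := y) hyN
      have e1 : (fun x => Bl36 μ s N y C D b U V M j ω x * Bl36 μ s N y C D b U V M k ω x) = fun _ => 0 := by
        funext x
        unfold Bl36
        rcases hin with hin | hin
        · rw [lo_zero hCj (by omega) hin, mul_zero, zero_mul]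
        · rw [lo_zero (j := k) (by omega) hkD hin, mul_zero, mul_zero]
      rw [e1]
      exact gm_const _ 0
    rw [e, integral_zero]
    positivity
  · push Not at hin
    obtain ⟨⟨hi1, hi2⟩, hi3, hi4⟩ := hin
    obtain ⟨m, hm⟩ : ∃ m, m = (j + k) / 2 := ⟨_, rfl⟩
    have hlb : l ≤ 2 * b := by omega
    have hm1 : j + 32 * b ≤ m := by omega
    have hm2 : m + 32 * b ≤ k := by omega
    have hlR : ∀ n : ℕ, l ≤ n → (L : ℝ) ^ θ ≤ ((n : ℕ) : ℝ) := fun n hn => hl.trans (by exact_mod_cast hn)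
    have key := hP L (by omega) N hLN hNL y hyN hyc M hM hML'
      (pO C D (j + b) (j + 11 * b) (10 * b) Ty.R) (pO C D (k - 11 * b) (k - b) (10 * b) Ty.M) m Ty.R Ty.M Ty.L Ty.L
      ⟨by show C ≤ C ∧ C ≤ j + b ∧ j + b ≤ j + 11 * b ∧ j + 11 * b ≤ D ∧ D ≤ D ∧ D ≤ N; omega, hlR (10 * b) (by omega)⟩
      ⟨by show C ≤ C ∧ C ≤ k - 11 * b ∧ k - 11 * b ≤ k - b ∧ k - b ≤ D ∧ D ≤ D ∧ D ≤ N; omega, hlR (10 * b) (by omega)⟩
      (by show j + 11 * b ≤ m; omega) (by show m ≤ D; omega) (by show C ≤ m; omega) (by show m ≤ k - 11 * b; omega)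
      (hlR _ (by show l ≤ m - (j + 11 * b); omega)) (hlR _ (by show l ≤ k - 11 * b - m; omega))
      (lo36 μ s N y C D b M j) (lo36 μ s N y C D b M k)
      (dom_o hX hXM Ty.R (by omega) (by omega) (by omega) (by omega) (by omega) (by omega))
      (dom_o hX hXM Ty.M (by omega) (by omega) (by omega) (by omega) (by omega) (by omega))
      [] [(pM b j (U j) (V j) l, mi36 μ s N y b U V M j), (pM b k (U k) (V k) l, mi36 μ s N y b U V M k)] rfl
      (by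
        intro P hPm
        rw [List.nil_append] at hPm
        rcases List.mem_cons.1 hPm with rfl | hPm
        · exact ⟨by show j - b ≤ j - b ∧ j - b ≤ U j ∧ U j ≤ V j ∧ V j ≤ j + b ∧ j + b ≤ j + b ∧ j + b ≤ N; omega, hl⟩
        · rcases List.mem_cons.1 hPm with rfl | hPm
          · exact ⟨by show k - b ≤ k - b ∧ k - b ≤ U k ∧ U k ≤ V k ∧ V k ≤ k + b ∧ k + b ≤ k + b ∧ k + b ≤ N; omega, hl⟩
          · exact absurd hPm List.not_mem_nil)
      (by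
        intro P hPm
        rw [List.nil_append] at hPm
        rcases List.mem_cons.1 hPm with rfl | hPm
        · exact dom_m (by linarith) h2
        · rcases List.mem_cons.1 hPm with rfl | hPm
          · exact dom_m (by linarith) h5
          · exact absurd hPm List.not_mem_nil)
      (by
        refine List.Pairwise.cons (fun P' hP' => ?_) (List.Pairwise.cons (fun P' hP' => ?_) (List.Pairwise.cons (fun P' hP' => ?_)
          (List.pairwise_singleton _ _)))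
        · rcases List.mem_cons.1 hP' with rfl | hP'
          · exact Or.inr (show m ≤ m from le_rfl)
          · rcases List.mem_cons.1 hP' with rfl | hP'
            · exact Or.inl (show j + b ≤ j + b from le_rfl)
            · rcases List.mem_cons.1 hP' with rfl | hP'
              · exact Or.inr (show m ≤ k - b by omega)
              · exact absurd hP' List.not_mem_nil
        · rcases List.mem_cons.1 hP' with rfl | hP'
          · exact Or.inr (show j + b ≤ m by omega)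
          · rcases List.mem_cons.1 hP' with rfl | hP'
            · exact Or.inl (show k - b ≤ k - b from le_rfl)
            · exact absurd hP' List.not_mem_nil
        · rcases List.mem_cons.1 hP' with rfl | hP'
          · exact Or.inl (show j + b ≤ k - b by omega)
          · exact absurd hP' List.not_mem_nil)
      (by
        refine List.Pairwise.cons (fun P' hP' => ?_) (List.Pairwise.cons (fun P' hP' => ?_) (List.pairwise_singleton _ _))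
        · rcases List.mem_cons.1 hP' with rfl | hP'
          · exact Or.inr (Or.inr ⟨fun h => h, Or.inl (show j + b ≤ j + 11 * b by omega),
              (show 4 * (j + b - (j - b)) ≤ m - (j + 11 * b) by omega)⟩)
          · rcases List.mem_cons.1 hP' with rfl | hP'
            · exact Or.inr (Or.inr ⟨fun h => h, Or.inr (show m ≤ k - b by omega),
                (show 4 * (k + b - (k - b)) ≤ m - (j + 11 * b) by omega)⟩)
            · exact absurd hP' List.not_mem_nil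
        · rcases List.mem_cons.1 hP' with rfl | hP'
          · exact Or.inl (show j + b ≤ k - b by omega)
          · exact absurd hP' List.not_mem_nil)
      (by
        refine List.Pairwise.cons (fun P' hP' => ?_) (List.Pairwise.cons (fun P' hP' => ?_) (List.pairwise_singleton _ _))
        · rcases List.mem_cons.1 hP' with rfl | hP'
          · exact Or.inr (Or.inr ⟨fun h => h, Or.inl (show j + b ≤ m by omega),
              (show 4 * (j + b - (j - b)) ≤ k - 11 * b - m by omega)⟩)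
          · rcases List.mem_cons.1 hP' with rfl | hP'
            · exact Or.inr (Or.inr ⟨fun h => h, Or.inr (show k - 11 * b ≤ k - b by omega),
                (show 4 * (k + b - (k - b)) ≤ k - 11 * b - m by omega)⟩)
            · exact absurd hP' List.not_mem_nil
        · rcases List.mem_cons.1 hP' with rfl | hP'
          · exact Or.inl (show j + b ≤ k - b by omega)
          · exact absurd hP' List.not_mem_nil)
      (fun _ _ => 1) (fun A x => measurable_const) (fun _ _ => zero_le_one) (fun _ _ => le_rfl) (fun _ _ _ _ _ _ _ => rfl)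
    rw [Pool.Agent.W_7d29a1_C0.P86.int_one hyN, mul_one] at key
    have e1 : (fun ω : Env × Finset ℕ => gm (wm μ s N (Pn N y) ω)
        (fun x => Bl36 μ s N y C D b U V M j ω x * Bl36 μ s N y C D b U V M k ω x)) =
        fun ω => gm (wm μ s N (Pn N y) ω) (fun x => 1 * (lo36 μ s N y C D b M j ω x * lo36 μ s N y C D b M k ω x *
          ((([] : List (Plc × (Env × Finset ℕ → Px (Pn N y) → ℝ))) ++
            [(pM b j (U j) (V j) l, mi36 μ s N y b U V M j), (pM b k (U k) (V k) l, mi36 μ s N y b U V M k)]).map fun Q => Q.2 ω x).prod)) := by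
      funext ω
      congr 1
      funext x
      simp only [List.nil_append, List.map_cons, List.map_nil, List.prod_cons, List.prod_nil, mul_one, one_mul]
      unfold Bl36
      ring
    rw [e1]
    refine key.trans (add_le_add ?_ (add_le_add le_rfl (le_of_eq (by norm_num))))
    simp only [List.nil_append, List.map_cons, List.map_nil, List.prod_cons, List.prod_nil, mul_one]
    show ((L : ℝ) ^ (ε / 5) * (EE' μ s (10 * b))⁻¹ * ((L : ℝ) ^ (ε / 5) * (EE' μ s (10 * b))⁻¹) +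
      (L : ℝ) ^ (ε / 5) * (EE' μ s (m - (j + 11 * b)))⁻¹ + (L : ℝ) ^ (ε / 5) * (EE' μ s (k - 11 * b - m))⁻¹) *
      ((L : ℝ) ^ (ε / 5) * (EE' μ s l)⁻¹ * ((L : ℝ) ^ (ε / 5) * (EE' μ s l)⁻¹)) ≤ _
    have hE10 : (EE' μ s (10 * b))⁻¹ ≤ (EE' μ s b)⁻¹ := by
      have := EE'_le_mul86 h (m := b) (n := 10 * b) (k := 1) le_rfl (by omega)
      rw [Nat.cast_one, one_mul] at this
      exact inv_anti₀ hEb this
    have hEm : ∀ n : ℕ, k - j ≤ 4 * n → (EE' μ s n)⁻¹ ≤ 4 * (EE' μ s (k - j))⁻¹ := fun n hn => by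
      have h7 := EE'_le_mul86 h (m := k - j) (n := n) (k := 4) (by norm_num) hn
      have h8 := EE'_pos36 μ s n
      rw [← div_eq_mul_inv, le_div_iff₀ hEk, inv_mul_le_iff₀ h8]
      push_cast at h7
      linarith
    have hx := hL₂ L (by omega)
    rw [Real.rpow_zero, mul_one] at hx
    obtain ⟨X, hXd⟩ : ∃ X : ℝ, X = (L : ℝ) ^ (ε / 5) := ⟨_, rfl⟩
    obtain ⟨p, hp⟩ : ∃ p : ℝ, p = (EE' μ s l)⁻¹ := ⟨_, rfl⟩
    obtain ⟨r, hr⟩ : ∃ r : ℝ, r = (EE' μ s b)⁻¹ := ⟨_, rfl⟩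
    obtain ⟨t, ht⟩ : ∃ t : ℝ, t = (EE' μ s (k - j))⁻¹ := ⟨_, rfl⟩
    obtain ⟨r', hr'⟩ : ∃ r' : ℝ, r' = (EE' μ s (10 * b))⁻¹ := ⟨_, rfl⟩
    obtain ⟨u1, hu1⟩ : ∃ u1 : ℝ, u1 = (EE' μ s (m - (j + 11 * b)))⁻¹ := ⟨_, rfl⟩
    obtain ⟨u2, hu2⟩ : ∃ u2 : ℝ, u2 = (EE' μ s (k - 11 * b - m))⁻¹ := ⟨_, rfl⟩
    have hp0 : 0 ≤ p := by rw [hp]; exact (inv_pos.2 hEl).le
    have hr0 : 0 ≤ r := by rw [hr]; exact (inv_pos.2 hEb).le
    have ht0 : 0 ≤ t := by rw [ht]; exact (inv_pos.2 hEk).le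
    have hr'0 : 0 ≤ r' := by rw [hr']; exact (inv_pos.2 (EE'_pos36 μ s _)).le
    have hrr : r' ≤ r := by rw [hr', hr]; exact hE10
    have hu1t : u1 ≤ 4 * t := by rw [hu1, ht]; exact hEm _ (by omega)
    have hu2t : u2 ≤ 4 * t := by rw [hu2, ht]; exact hEm _ (by omega)
    have hX8 : 8 ≤ X := by rw [hXd]; exact hx
    have hex : (L : ℝ) ^ ε = X * X * X * X * X := by
      rw [hXd, ← Real.rpow_add hL0, ← Real.rpow_add hL0, ← Real.rpow_add hL0, ← Real.rpow_add hL0]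
      congr 1
      ring
    rw [hex, ← hXd, ← hp, ← hr, ← ht, ← hr', ← hu1, ← hu2]
    exact num36 hX8 hp0 hr0 ht0 hr'0 hrr hu1t hu2t

/-! ### Sums -/

/-- The rows of the sums. -/
def Rok (N C D b l : ℕ) (U V : ℕ → ℕ) (j : ℕ) : Prop :=
  b ≤ j ∧ j + b ≤ N ∧ C ≤ j ∧ j ≤ D ∧ j - b ≤ U j ∧ U j + l ≤ V j ∧ V j ≤ j + b

/-- The mean of the product of two rows. -/
def P2 (μ : Measure ℝ) (s : ℝ) (N y C D b : ℕ) (U V : ℕ → ℕ) (M : ℝ) (j k : ℕ) : ℝ :=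
  ∫ ω, gm (wm μ s N (Pn N y) ω) (fun x => Bl36 μ s N y C D b U V M j ω x * Bl36 μ s N y C D b U V M k ω x) ∂(Pm μ N)

theorem abs_gm36 {Q : Finset (Finset ℕ)} [Nonempty (Px Q)] (w : Px Q → ℝ) {f : Px Q → ℝ} {K : ℝ} (hf : ∀ x, |f x| ≤ K) : |gm w f| ≤ K := by
  have h1 : gm w f ≤ K := (gm_mono w (g := fun _ => K) fun x => (abs_le.1 (hf x)).2).trans (gm_const w K).le
  have h2 : -K ≤ gm w f := (gm_const w (-K)).symm.le.trans (gm_mono w (f := fun _ => -K) fun x => (abs_le.1 (hf x)).1)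
  exact abs_le.2 ⟨h2, h1⟩

theorem int_gmP (hy : y ≤ N) {f : Env × Finset ℕ → Px (Pn N y) → ℝ} (hm : ∀ x, Measurable fun ω => f ω x) {K : ℝ}
    (hf : ∀ ω x, |f ω x| ≤ K) : Integrable (fun ω => gm (wm μ s N (Pn N y) ω) (f ω)) (Pm μ N) := by
  have := ne_Pn (N := N) (y := y) hy
  exact int_bdd (meas_gm meas_wm hm) fun ω => abs_gm36 _ (hf ω)

theorem abs_BB {C D b : ℕ} {U V : ℕ → ℕ} {M : ℝ} (j k : ℕ) (ω : Env × Finset ℕ) (x : Px (Pn N y)) :
    |Bl36 μ s N y C D b U V M j ω x * Bl36 μ s N y C D b U V M k ω x| ≤ 1 := by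
  rw [abs_of_nonneg (mul_nonneg (Bl_nonneg ω x) (Bl_nonneg ω x))]
  exact mul_le_one₀ (Bl_le_one ω x) (Bl_nonneg ω x) (Bl_le_one ω x)

theorem int_BB (hy : y ≤ N) (C D b : ℕ) (U V : ℕ → ℕ) (M : ℝ) (j k : ℕ) : Integrable (fun ω => gm (wm μ s N (Pn N y) ω)
    (fun x => Bl36 μ s N y C D b U V M j ω x * Bl36 μ s N y C D b U V M k ω x)) (Pm μ N) :=
  int_gmP (f := fun ω x => Bl36 μ s N y C D b U V M j ω x * Bl36 μ s N y C D b U V M k ω x) hy
    (fun x => (meas_Bl x).mul (meas_Bl x)) (abs_BB j k)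

theorem P2_comm (C D b : ℕ) (U V : ℕ → ℕ) (M : ℝ) (j k : ℕ) : P2 μ s N y C D b U V M j k = P2 μ s N y C D b U V M k j := by
  unfold P2
  congr 1
  funext ω
  congr 1
  funext x
  exact mul_comm _ _

/-- A pair costs at most one row. -/
theorem P2_le_one (hy : y ≤ N) {C D b : ℕ} {U V : ℕ → ℕ} {M : ℝ} (j k : ℕ) : P2 μ s N y C D b U V M j k ≤
    ∫ ω, gm (wm μ s N (Pn N y) ω) (Bl36 μ s N y C D b U V M j ω) ∂(Pm μ N) := by
  have := ne_Pn (N := N) (y := y) hy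
  unfold P2
  refine integral_mono (int_BB hy C D b U V M j k) (int_gmP (f := fun ω x => Bl36 μ s N y C D b U V M j ω x) hy (fun x => meas_Bl x) (K := 1)
    fun ω x => by rw [abs_of_nonneg (Bl_nonneg ω x)]; exact Bl_le_one ω x) fun ω => gm_mono _ fun x => ?_
  exact mul_le_of_le_one_right (Bl_nonneg ω x) (Bl_le_one ω x)

/-- The second moment is the sum over the pairs. -/
theorem sq_eq (hy : y ≤ N) (S : Finset ℕ) (C D b : ℕ) (U V : ℕ → ℕ) (M : ℝ) :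
    ∫ ω, gm (wm μ s N (Pn N y) ω) (fun x => (∑ j ∈ S, Bl36 μ s N y C D b U V M j ω x) ^ 2) ∂(Pm μ N) =
      ∑ j ∈ S, ∑ k ∈ S, P2 μ s N y C D b U V M j k := by
  have := ne_Pn (N := N) (y := y) hy
  have e1 : ∀ ω : Env × Finset ℕ, gm (wm μ s N (Pn N y) ω) (fun x => (∑ j ∈ S, Bl36 μ s N y C D b U V M j ω x) ^ 2) =
      ∑ j ∈ S, ∑ k ∈ S, gm (wm μ s N (Pn N y) ω) (fun x => Bl36 μ s N y C D b U V M j ω x * Bl36 μ s N y C D b U V M k ω x) := by
    intro ω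
    have e2 : (fun x => (∑ j ∈ S, Bl36 μ s N y C D b U V M j ω x) ^ 2) =
        fun x => ∑ j ∈ S, ∑ k ∈ S, Bl36 μ s N y C D b U V M j ω x * Bl36 μ s N y C D b U V M k ω x := by
      funext x
      rw [sq, sum_mul_sum]
    rw [e2]
    have e3 : ∀ {ι : Type} (I : Finset ι) (F : ι → Px (Pn N y) → ℝ) (w : Px (Pn N y) → ℝ),
        gm w (fun x => ∑ i ∈ I, F i x) = ∑ i ∈ I, gm w (F i) := by
      intro ι I F w
      unfold gm
      rw [← sum_div, sum_comm]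
      congr 1
      exact sum_congr rfl fun x _ => mul_sum _ _ _
    rw [e3]
    exact sum_congr rfl fun j _ => e3 _ _ _
  rw [integral_congr_ae (Filter.Eventually.of_forall e1), integral_finsetSum _ fun j _ => integrable_finsetSum _ fun k _ =>
    int_BB hy C D b U V M j k]
  refine sum_congr rfl fun j _ => ?_
  rw [integral_finsetSum _ fun k _ => int_BB hy C D b U V M j k]
  rfl

/-- The number of the near rows. -/
theorem near_card (S : Finset ℕ) (j b : ℕ) : (S.filter fun k => ¬ 64 * b ≤ Nat.dist j k).card ≤ 128 * b := by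
  refine (card_le_card (t := Ico (j + 1 - 64 * b) (j + 64 * b)) fun k hk => ?_).trans ?_
  · rw [mem_filter] at hk
    rw [mem_Ico]
    have h1 := hk.2
    unfold Nat.dist at h1
    omega
  · rw [Nat.card_Ico]
    omega

/-- **(c) ONE STRETCH**: all pairs at the price of one row. -/
theorem long_str (h : In μ s c₀ C₀ n₀) : ∀ ε θ : ℝ, 0 < ε → 0 < θ → ∃ δ κ c₂ : ℝ, 0 < δ ∧ 0 < κ ∧ 0 < c₂ ∧ ∃ L₀ : ℕ,
    ∀ L : ℕ, L₀ ≤ L → ∀ N : ℕ, L ≤ 16 * N → N ≤ L → ∀ y : ℕ, y ≤ N → |(y : ℝ) - sl μ s * N| ≤ ((L : ℝ) ^ δ * wd' μ s N) →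
    ∀ M : ℝ, 8 ≤ M → M ≤ (L : ℝ) ^ κ → ∀ C D b l : ℕ, D ≤ N → (L : ℝ) ^ θ ≤ l → ∀ (U V : ℕ → ℕ) (S : Finset ℕ),
    (∀ j ∈ S, Rok N C D b l U V j) →
    ∫ ω, gm (wm μ s N (Pn N y) ω) (fun x => (∑ j ∈ S, Bl36 μ s N y C D b U V M j ω x) ^ 2) ∂(Pm μ N) ≤
      (S.card : ℝ) ^ 2 * ((L : ℝ) ^ ε * ((EE' μ s l)⁻¹ * (EE' μ s b)⁻¹) + (3 * Real.exp (-(L : ℝ) ^ c₂) + 8 * Real.exp (-M))) := by
  intro ε θ hε hθ
  obtain ⟨δ, κ, c₂, hδ, hκ, hc₂, L₀, hP⟩ := long_one h ε θ hε hθ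
  refine ⟨δ, κ, c₂, hδ, hκ, hc₂, L₀, ?_⟩
  intro L hL N hLN hNL y hyN hyc M hM hML C D b l hDN hl U V S hS
  rw [sq_eq hyN]
  obtain ⟨K, hK⟩ : ∃ K : ℝ, K = (L : ℝ) ^ ε * ((EE' μ s l)⁻¹ * (EE' μ s b)⁻¹) + (3 * Real.exp (-(L : ℝ) ^ c₂) + 8 * Real.exp (-M)) :=
    ⟨_, rfl⟩
  have hone : ∀ j ∈ S, ∀ k ∈ S, P2 μ s N y C D b U V M j k ≤ K := fun j hj k _ => by
    obtain ⟨r1, r2, r3, r4, r5, r6, r7⟩ := hS j hj
    refine (P2_le_one hyN j k).trans ((hP L hL N hLN hNL y hyN hyc M hM hML C D b l j hDN hl r1 r2 r3 r4 U V r5 r6 r7).trans ?_)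
    have e1 := Real.exp_pos (-(L : ℝ) ^ c₂)
    have e2 := Real.exp_pos (-M)
    rw [hK]
    linarith
  rw [← hK]
  calc ∑ j ∈ S, ∑ k ∈ S, P2 μ s N y C D b U V M j k ≤ ∑ j ∈ S, ∑ k ∈ S, K :=
        sum_le_sum fun j hj => sum_le_sum fun k hk => hone j hj k hk
    _ = (S.card : ℝ) ^ 2 * K := by
        rw [sum_const, sum_const, nsmul_eq_mul, nsmul_eq_mul]
        ring

/-- **(c) A SET OF ROWS.** -/
theorem long_sq (h : In μ s c₀ C₀ n₀) : ∀ ε θ : ℝ, 0 < ε → 0 < θ → ∃ δ κ c₂ : ℝ, 0 < δ ∧ 0 < κ ∧ 0 < c₂ ∧ ∃ L₀ : ℕ,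
    ∀ L : ℕ, L₀ ≤ L → ∀ N : ℕ, L ≤ 16 * N → N ≤ L → ∀ y : ℕ, y ≤ N → |(y : ℝ) - sl μ s * N| ≤ ((L : ℝ) ^ δ * wd' μ s N) →
    ∀ M : ℝ, 8 ≤ M → M ≤ (L : ℝ) ^ κ → ∀ C D b l : ℕ, D ≤ N → (L : ℝ) ^ θ ≤ l → ∀ (U V : ℕ → ℕ) (S : Finset ℕ),
    (∀ j ∈ S, Rok N C D b l U V j) →
    ∫ ω, gm (wm μ s N (Pn N y) ω) (fun x => (∑ j ∈ S, Bl36 μ s N y C D b U V M j ω x) ^ 2) ∂(Pm μ N) ≤
      (L : ℝ) ^ ε * ((S.card : ℝ) * b * ((EE' μ s l)⁻¹ * (EE' μ s b)⁻¹) + (S.card : ℝ) ^ 2 * ((EE' μ s l)⁻¹ * (EE' μ s b)⁻¹) ^ 2 +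
        ((EE' μ s l)⁻¹) ^ 2 * ∑ j ∈ S, ∑ k ∈ S.filter (fun k => 64 * b ≤ Nat.dist j k), (EE' μ s (Nat.dist j k))⁻¹) +
      (S.card : ℝ) ^ 2 * (3 * Real.exp (-(L : ℝ) ^ c₂) + 8 * Real.exp (-M)) := by
  intro ε θ hε hθ
  obtain ⟨δ₁, κ₁, c₁, hδ₁, hκ₁, hc₁, L₁, hP₁⟩ := long_one h (ε / 2) θ (by positivity) hθ
  obtain ⟨δ₂, κ₂, c₂, hδ₂, hκ₂, hc₂, L₂, hP₂⟩ := long_two h (ε / 2) θ (by positivity) hθ
  obtain ⟨L₃, hL₃⟩ := ev_mul86 128 (show ε / 2 < ε by linarith)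
  refine ⟨min δ₁ δ₂, min κ₁ κ₂, min c₁ c₂, lt_min hδ₁ hδ₂, lt_min hκ₁ hκ₂, lt_min hc₁ hc₂, L₁ + L₂ + L₃ + 1, ?_⟩
  intro L hL N hLN hNL y hyN hyc M hM hML C D b l hDN hl U V S hS
  have hLR : (1 : ℝ) ≤ L := by exact_mod_cast (show 1 ≤ L by omega)
  have hwd : 0 < wd' μ s N := lt_of_lt_of_le zero_lt_one (le_max_left _ _)
  have hcone : ∀ δ', min δ₁ δ₂ ≤ δ' → |(y : ℝ) - sl μ s * N| ≤ ((L : ℝ) ^ δ' * wd' μ s N) := fun δ' hδ' =>
    hyc.trans (mul_le_mul_of_nonneg_right (Real.rpow_le_rpow_of_exponent_le hLR hδ') hwd.le)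
  have hx := hL₃ L (by omega)
  obtain ⟨X, hXd⟩ : ∃ X : ℝ, X = (L : ℝ) ^ (ε / 2) := ⟨_, rfl⟩
  obtain ⟨Y, hYd⟩ : ∃ Y : ℝ, Y = (L : ℝ) ^ ε := ⟨_, rfl⟩
  obtain ⟨q, hq⟩ : ∃ q : ℝ, q = (EE' μ s l)⁻¹ * (EE' μ s b)⁻¹ := ⟨_, rfl⟩
  obtain ⟨p, hp⟩ : ∃ p : ℝ, p = ((EE' μ s l)⁻¹) ^ 2 := ⟨_, rfl⟩
  obtain ⟨e, he⟩ : ∃ e : ℝ, e = 3 * Real.exp (-(L : ℝ) ^ (min c₁ c₂)) + 8 * Real.exp (-M) := ⟨_, rfl⟩
  have hE0 : ∀ n, 0 ≤ (EE' μ s n)⁻¹ := fun n => (inv_pos.2 (EE'_pos36 μ s n)).le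
  have hq0 : 0 ≤ q := by rw [hq]; exact mul_nonneg (hE0 _) (hE0 _)
  have hp0 : 0 ≤ p := by rw [hp]; exact pow_nonneg (hE0 _) 2
  have he0 : 0 ≤ e := by rw [he]; positivity
  have hX0 : 0 ≤ X := by rw [hXd]; positivity
  rw [← hXd, ← hYd] at hx
  have hXY : X ≤ Y := by linarith
  have hY0 : 0 ≤ Y := hX0.trans hXY
  have hexp : ∀ c', min c₁ c₂ ≤ c' → Real.exp (-(L : ℝ) ^ c') ≤ Real.exp (-(L : ℝ) ^ (min c₁ c₂)) := fun c' hc' =>
    Real.exp_le_exp.2 (neg_le_neg (Real.rpow_le_rpow_of_exponent_le hLR hc'))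
  rw [sq_eq hyN, ← hq, ← hp, ← he, ← hYd]
  have hone : ∀ j ∈ S, ∀ k, P2 μ s N y C D b U V M j k ≤ X * q + e := fun j hj k => by
    obtain ⟨r1, r2, r3, r4, r5, r6, r7⟩ := hS j hj
    refine (P2_le_one hyN j k).trans ((hP₁ L (by omega) N hLN hNL y hyN (hcone _ (min_le_left _ _)) M hM
      (hML.trans (Real.rpow_le_rpow_of_exponent_le hLR (min_le_left _ _))) C D b l j hDN hl r1 r2 r3 r4 U V r5 r6 r7).trans ?_)
    have e1 := hexp c₁ (min_le_left _ _)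
    have e2 := Real.exp_pos (-(L : ℝ) ^ (min c₁ c₂))
    have e3 := Real.exp_pos (-M)
    rw [← hXd, ← hq, he]
    linarith
  have htwo' : ∀ j ∈ S, ∀ k ∈ S, j + 64 * b ≤ k → P2 μ s N y C D b U V M j k ≤ X * (q ^ 2 + p * (EE' μ s (k - j))⁻¹) + e :=
    fun j hj k hk hjk => by
    obtain ⟨r1, r2, r3, r4, r5, r6, r7⟩ := hS j hj
    obtain ⟨s1, s2, s3, s4, s5, s6, s7⟩ := hS k hk
    refine (hP₂ L (by omega) N hLN hNL y hyN (hcone _ (min_le_right _ _)) M hM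
      (hML.trans (Real.rpow_le_rpow_of_exponent_le hLR (min_le_right _ _))) C D b l j k hDN hl r1 s2 r3 s4 hjk U V r5 r6 r7 s5 s6 s7).trans ?_
    have e1 := hexp c₂ (min_le_right _ _)
    rw [← hXd, ← hq, ← hp, he]
    linarith
  have htwo : ∀ j ∈ S, ∀ k ∈ S, 64 * b ≤ Nat.dist j k →
      P2 μ s N y C D b U V M j k ≤ X * (q ^ 2 + p * (EE' μ s (Nat.dist j k))⁻¹) + e := fun j hj k hk hd => by
    rcases le_total j k with hle | hle
    · rw [Nat.dist_eq_sub_of_le hle] at hd ⊢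
      rcases Nat.eq_zero_or_pos b with hb | hb
      · obtain ⟨-, -, -, -, s5, s6, s7⟩ := hS k hk
        exact htwo' j hj k hk (by omega)
      · exact htwo' j hj k hk (by omega)
    · rw [Nat.dist_comm, Nat.dist_eq_sub_of_le hle] at hd ⊢
      rw [P2_comm]
      exact htwo' k hk j hj (by omega)
  have hrow : ∀ j ∈ S, ∑ k ∈ S, P2 μ s N y C D b U V M j k ≤ 128 * b * (X * q) + S.card * (X * q ^ 2) +
      X * p * ∑ k ∈ S.filter (fun k => 64 * b ≤ Nat.dist j k), (EE' μ s (Nat.dist j k))⁻¹ + S.card * e := fun j hj => by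
    rw [← sum_filter_add_sum_filter_not S (fun k => 64 * b ≤ Nat.dist j k)]
    have g1 : ∑ k ∈ S.filter (fun k => 64 * b ≤ Nat.dist j k), P2 μ s N y C D b U V M j k ≤
        ∑ k ∈ S.filter (fun k => 64 * b ≤ Nat.dist j k), (X * q ^ 2 + X * p * (EE' μ s (Nat.dist j k))⁻¹ + e) :=
      sum_le_sum fun k hk => by
        rw [mem_filter] at hk
        refine (htwo j hj k hk.1 hk.2).trans (le_of_eq ?_)
        ring
    have g2 : ∑ k ∈ S.filter (fun k => ¬ 64 * b ≤ Nat.dist j k), P2 μ s N y C D b U V M j k ≤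
        ∑ k ∈ S.filter (fun k => ¬ 64 * b ≤ Nat.dist j k), (X * q + e) := sum_le_sum fun k _ => hone j hj k
    rw [sum_add_distrib, sum_add_distrib, sum_const, sum_const, nsmul_eq_mul, nsmul_eq_mul, ← mul_sum] at g1
    rw [sum_const, nsmul_eq_mul] at g2
    obtain ⟨a, ha⟩ : ∃ a : ℝ, a = ((S.filter fun k => 64 * b ≤ Nat.dist j k).card : ℝ) := ⟨_, rfl⟩
    obtain ⟨a', ha'⟩ : ∃ a' : ℝ, a' = ((S.filter fun k => ¬ 64 * b ≤ Nat.dist j k).card : ℝ) := ⟨_, rfl⟩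
    have hsum : a + a' = S.card := by
      rw [ha, ha']
      exact_mod_cast card_filter_add_card_filter_not (s := S) fun k => 64 * b ≤ Nat.dist j k
    have hn : a' ≤ 128 * b := by
      rw [ha']
      exact_mod_cast near_card S j b
    rw [← ha] at g1
    rw [← ha'] at g2
    have ha0 : 0 ≤ a := by rw [ha]; positivity
    have ha'0 : 0 ≤ a' := by rw [ha']; positivity
    have haS : a ≤ S.card := by linarith
    have g3 : a' * (X * q) ≤ 128 * b * (X * q) := mul_le_mul_of_nonneg_right hn (mul_nonneg hX0 hq0)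
    have g4 : a * (X * q ^ 2) ≤ S.card * (X * q ^ 2) := mul_le_mul_of_nonneg_right haS (mul_nonneg hX0 (sq_nonneg q))
    have g5 : a * e + a' * e = S.card * e := by rw [← add_mul, hsum]
    have g6 : a' * (X * q + e) = a' * (X * q) + a' * e := by ring
    linarith
  refine (sum_le_sum hrow).trans ?_
  rw [sum_add_distrib, sum_add_distrib, sum_add_distrib, sum_const, sum_const, sum_const, nsmul_eq_mul, nsmul_eq_mul, nsmul_eq_mul, ← mul_sum]
  obtain ⟨T, hT⟩ : ∃ T : ℝ, T = ∑ j ∈ S, ∑ k ∈ S.filter (fun k => 64 * b ≤ Nat.dist j k), (EE' μ s (Nat.dist j k))⁻¹ := ⟨_, rfl⟩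
  have hT0 : 0 ≤ T := by rw [hT]; exact sum_nonneg fun j _ => sum_nonneg fun k _ => hE0 _
  rw [← hT]
  obtain ⟨n, hn⟩ : ∃ n : ℝ, n = (S.card : ℝ) := ⟨_, rfl⟩
  have hn0 : 0 ≤ n := by rw [hn]; positivity
  have hb0 : (0 : ℝ) ≤ b := Nat.cast_nonneg b
  rw [← hn]
  have a1 : n * (128 * b * (X * q)) ≤ Y * (n * b * q) := by
    calc n * (128 * b * (X * q)) = 128 * X * (n * b * q) := by ring
      _ ≤ Y * (n * b * q) := mul_le_mul_of_nonneg_right hx (by positivity)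
  have a2 : n * (n * (X * q ^ 2)) ≤ Y * (n ^ 2 * q ^ 2) := by
    calc n * (n * (X * q ^ 2)) = X * (n ^ 2 * q ^ 2) := by ring
      _ ≤ Y * (n ^ 2 * q ^ 2) := mul_le_mul_of_nonneg_right hXY (by positivity)
  have a3 : X * p * T ≤ Y * (p * T) := by
    calc X * p * T = X * (p * T) := by ring
      _ ≤ Y * (p * T) := mul_le_mul_of_nonneg_right hXY (by positivity)
  have a4 : n * (n * e) = n ^ 2 * e := by ring
  have a5 : Y * (n * b * q + n ^ 2 * q ^ 2 + p * T) = Y * (n * b * q) + Y * (n ^ 2 * q ^ 2) + Y * (p * T) := by ring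
  rw [a5]
  linarith

end

end Pool.Agent.W_7d29a1_C0.Lng36
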