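import Pool.Agent.W_7d29a1_C0.Quasi27

/-!
CURV0 (MP_7d29a1_pr), section SM0: THE EXACT TRANSPORT. (helper27)

`fwd η m g k z` = forward partition function `k` rows behind the row `m`, started from `g`. A tilt `exp (t A)` of the past
(rows `≤ m`) is a family `g t` of starting functions (`TF`). The tilt by `exp (s A)` of everything behind the slab of the
rows `m + 1 .. m + K` is EXACTLY the predictable shift `η ↦ η + φ` of the slab, `φ = fld`:

`fwd (η + φ) m (g (s 0)) k = fwd η m (g (s k)) k` for every `k` (`transport`),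

with `|φ| ≤ D |s (k+1) - s k|` (`fld_bd`) and `φ` predictable (`fld_pred`). With the quasi-invariance of the law
(`Quasi27`) this gives `transport_law`: no derivative, no near-merging term, no remainder.
-/

set_option autoImplicit false

namespace Pool.W7d29a1.C0.H27

open MeasureTheory ProbabilityTheory Filter Topology
open Pool.Agent.W_7d29a1_F Pool.Agent.W_7d29a1_C0.H32
open scoped ENNReal

noncomputable section

variable {μ : Measure ℝ}

/-- `k` steps of the forward recursion from the function `g` on the row `m`; `P i z` = the predecessors (in the row `i`) of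
the site `(i + 1, z)`, `q i z' z` = the kernel. -/
def fwd (P : ℤ → ℤ → Finset ℤ) (q : ℤ → ℤ → ℤ → ℝ) (η : Env) (m : ℤ) (g : ℤ → ℝ) : ℕ → ℤ → ℝ
  | 0, z => g z
  | k + 1, z => Real.exp (η (m + k + 1, z)) * ∑ y ∈ P (m + k) z, q (m + k) y z * fwd P q η m g k y

/-- The forward function without the last site. -/
def num (P : ℤ → ℤ → Finset ℤ) (q : ℤ → ℤ → ℤ → ℝ) (η : Env) (m : ℤ) (g : ℤ → ℝ) (k : ℕ) (z : ℤ) : ℝ :=
  ∑ y ∈ P (m + k) z, q (m + k) y z * fwd P q η m g k y

/-- A tilt family of the past: `g t` = the partition function of the past with the weights `exp (w + t A)`, `|A| ≤ D`. -/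
structure TF (m : ℤ) (D : ℝ) (g : ℝ → Env → ℤ → ℝ) : Prop where
  nn : ∀ t η z, 0 ≤ g t η z
  le : ∀ t t' η z, g t' η z ≤ Real.exp (D * |t' - t|) * g t η z
  bl : ∀ t (η : Env) z (u : Pt) (x : ℝ), m < u.1 → g t (Function.update η u x) z = g t η z
  ms : ∀ t z, Measurable fun η => g t η z

/-- The field of the transport: schedule `s`, `s k` = the tilt reached after `k` rows. -/
def fld (P : ℤ → ℤ → Finset ℤ) (q : ℤ → ℤ → ℤ → ℝ) (m : ℤ) (g : ℝ → Env → ℤ → ℝ) (s : ℕ → ℝ) (p : Pt) (η : Env) : ℝ :=
  Real.log (num P q η m (g (s ((p.1 - m - 1).toNat + 1)) η) (p.1 - m - 1).toNat p.2 /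
    num P q η m (g (s (p.1 - m - 1).toNat) η) (p.1 - m - 1).toNat p.2)

variable {P : ℤ → ℤ → Finset ℤ} {q : ℤ → ℤ → ℤ → ℝ} {m : ℤ} {D : ℝ} {g : ℝ → Env → ℤ → ℝ} {s : ℕ → ℝ}

theorem fwd_succ (η : Env) (m : ℤ) (f : ℤ → ℝ) (k : ℕ) (z : ℤ) :
    fwd P q η m f (k + 1) z = Real.exp (η (m + k + 1, z)) * num P q η m f k z := rfl

theorem num_nn_of {η : Env} {f : ℤ → ℝ} {k : ℕ} (hq : ∀ i y z, 0 ≤ q i y z) (h : ∀ y, 0 ≤ fwd P q η m f k y) (z : ℤ) :
    0 ≤ num P q η m f k z :=
  Finset.sum_nonneg fun y _ => mul_nonneg (hq _ _ _) (h y)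

theorem fwd_nn {η : Env} {f : ℤ → ℝ} (hq : ∀ i y z, 0 ≤ q i y z) (h : ∀ y, 0 ≤ f y) (k : ℕ) :
    ∀ y, 0 ≤ fwd P q η m f k y := by
  induction k with
  | zero => exact h
  | succ k ih => exact fun y => mul_nonneg (Real.exp_pos _).le (num_nn_of hq ih y)

theorem fwd_le {η : Env} {f f' : ℤ → ℝ} {c : ℝ} (hq : ∀ i y z, 0 ≤ q i y z) (h : ∀ y, f' y ≤ c * f y) (k : ℕ) :
    ∀ y, fwd P q η m f' k y ≤ c * fwd P q η m f k y := by
  induction k with
  | zero => exact h
  | succ k ih =>
    intro z
    show Real.exp (η (m + k + 1, z)) * ∑ y ∈ P (m + k) z, q (m + k) y z * fwd P q η m f' k y ≤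
      c * (Real.exp (η (m + k + 1, z)) * ∑ y ∈ P (m + k) z, q (m + k) y z * fwd P q η m f k y)
    rw [← mul_assoc, mul_comm c, mul_assoc]
    refine mul_le_mul_of_nonneg_left ?_ (Real.exp_pos _).le
    rw [Finset.mul_sum]
    refine Finset.sum_le_sum fun y _ => ?_
    have := mul_le_mul_of_nonneg_left (ih y) (hq (m + k) y z)
    linarith

theorem num_le {η : Env} {f f' : ℤ → ℝ} {c : ℝ} (hq : ∀ i y z, 0 ≤ q i y z) (h : ∀ y, f' y ≤ c * f y) (k : ℕ) (z : ℤ) :
    num P q η m f' k z ≤ c * num P q η m f k z := by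
  unfold num
  rw [Finset.mul_sum]
  refine Finset.sum_le_sum fun y _ => ?_
  have := mul_le_mul_of_nonneg_left (fwd_le (P := P) (m := m) (η := η) hq h k y) (hq (m + k) y z)
  linarith

/-- The forward function does not see the rows behind. -/
theorem fwd_blind {f : ℤ → ℝ} {η : Env} {u : Pt} {x : ℝ} (k : ℕ) (hu : m + k < u.1) :
    ∀ z, fwd P q (Function.update η u x) m f k z = fwd P q η m f k z := by
  induction k with
  | zero => exact fun z => rfl
  | succ k ih =>
    intro z
    have h1 : m + k < u.1 := by push_cast at hu; linarith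
    show Real.exp (Function.update η u x (m + k + 1, z)) * ∑ y ∈ P (m + k) z, q (m + k) y z *
      fwd P q (Function.update η u x) m f k y = Real.exp (η (m + k + 1, z)) * ∑ y ∈ P (m + k) z, q (m + k) y z *
      fwd P q η m f k y
    have h2 : ((m + k + 1, z) : Pt) ≠ u := by
      rintro rfl
      push_cast at hu
      linarith
    rw [Function.update_of_ne h2]
    congr 1
    exact Finset.sum_congr rfl fun y _ => by rw [ih h1]

theorem num_blind {f : ℤ → ℝ} {η : Env} {u : Pt} {x : ℝ} (k : ℕ) (hu : m + k < u.1) (z : ℤ) :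
    num P q (Function.update η u x) m f k z = num P q η m f k z :=
  Finset.sum_congr rfl fun y _ => by rw [fwd_blind k hu]

/-- The forward function over a family of starting functions. -/
theorem fwd_meas {f : Env → ℤ → ℝ} (hf : ∀ z, Measurable fun η => f η z) (k : ℕ) :
    ∀ z, Measurable fun η => fwd P q η m (f η) k z := by
  induction k with
  | zero => exact hf
  | succ k ih =>
    intro z
    exact (measurable_pi_apply _).exp.mul (Finset.measurable_sum _ fun y _ => (ih y).const_mul _)

theorem num_meas {f : Env → ℤ → ℝ} (hf : ∀ z, Measurable fun η => f η z) (k : ℕ) (z : ℤ) :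
    Measurable fun η => num P q η m (f η) k z :=
  Finset.measurable_sum _ fun y _ => (fwd_meas hf k y).const_mul _

theorem fld_meas (hg : TF m D g) (p : Pt) : Measurable (fld P q m g s p) := by
  unfold fld
  exact ((num_meas (hg.ms _) _ _).div (num_meas (hg.ms _) _ _)).log

/-- `fld p` does not see the rows `≥ p.1`. -/
theorem fld_blind (hg : TF m D g) {p u : Pt} (hp : m < p.1) (hu : p.1 ≤ u.1) (η : Env) (x : ℝ) :
    fld P q m g s p (Function.update η u x) = fld P q m g s p η := by
  have h1 : m + ((p.1 - m - 1).toNat : ℤ) < u.1 := by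
    rw [Int.toNat_of_nonneg (by linarith)]
    linarith
  have h2 : ∀ t, g t (Function.update η u x) = g t η := fun t => funext fun z => hg.bl t η z u x (by linarith)
  unfold fld
  rw [h2, h2, num_blind _ h1, num_blind _ h1]

theorem fld_pred (hg : TF m D g) {S : Finset Pt} (hS : ∀ p ∈ S, m < p.1) : Pred S (fld P q m g s) :=
  fun p hp _ _ hle η x => fld_blind hg (hS p hp) hle η x

/-- The bound of the field. -/
theorem fld_bd (hq : ∀ i y z, 0 ≤ q i y z) (hD : 0 ≤ D) (hg : TF m D g) (p : Pt) (η : Env) :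
    |fld P q m g s p η| ≤ D * |s ((p.1 - m - 1).toNat + 1) - s (p.1 - m - 1).toNat| := by
  set k := (p.1 - m - 1).toNat with hk
  have hn : ∀ t, 0 ≤ num P q η m (g t η) k p.2 := fun t => num_nn_of hq (fwd_nn hq (hg.nn t η) k) _
  have hl : ∀ t t', num P q η m (g t' η) k p.2 ≤ Real.exp (D * |t' - t|) * num P q η m (g t η) k p.2 :=
    fun t t' => num_le hq (hg.le t t' η) k p.2
  have hr : 0 ≤ D * |s (k + 1) - s k| := mul_nonneg hD (abs_nonneg _)
  show |Real.log (num P q η m (g (s (k + 1)) η) k p.2 / num P q η m (g (s k) η) k p.2)| ≤ _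
  rcases (hn (s k)).eq_or_lt with h0 | h0
  · rw [← h0]
    simpa using hr
  · have h1 := hl (s (k + 1)) (s k)
    have h2 : 0 < num P q η m (g (s (k + 1)) η) k p.2 := by
      rcases (hn (s (k + 1))).eq_or_lt with h | h
      · rw [← h, mul_zero] at h1
        linarith
      · exact h
    have h3 := hl (s k) (s (k + 1))
    rw [abs_le]
    constructor
    · rw [abs_sub_comm] at h1
      rw [Real.le_log_iff_exp_le (div_pos h2 h0), le_div_iff₀ h0, Real.exp_neg, inv_mul_le_iff₀ (Real.exp_pos _)]
      exact h1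
    · rw [Real.log_le_iff_le_exp (div_pos h2 h0), div_le_iff₀ h0]
      exact h3

/-- `Sh` outside. -/
theorem TF.sh (hg : TF m D g) {S : Finset Pt} (hS : ∀ p ∈ S, m < p.1) (φ : Pt → Env → ℝ) (t : ℝ) (η : Env) :
    g t (Sh S φ η) = g t η := by
  classical
  funext z
  have key : ∀ T : Finset Pt, (∀ p ∈ T, m < p.1) → ∀ ζ : Pt → ℝ,
      g t (fun p => if p ∈ T then ζ p else η p) z = g t η z := by
    intro T
    induction T using Finset.induction_on with
    | empty => intro _ ζ; simp
    | insert a T ha ih =>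
      intro hT ζ
      have e : (fun p => if p ∈ insert a T then ζ p else η p) =
          Function.update (fun p => if p ∈ T then ζ p else η p) a (ζ a) := by
        funext p
        by_cases hp : p = a
        · subst hp; simp
        · rw [Function.update_of_ne hp]; simp [hp]
      rw [e, hg.bl _ _ _ _ _ (hT a (Finset.mem_insert_self _ _))]
      exact ih (fun p hp => hT p (Finset.mem_insert_of_mem hp)) ζ
  exact key S hS fun p => η p + φ p η

/-- **THE EXACT TRANSPORT.** `S` contains the slab up to the row `m + K`. -/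
theorem transport (hq : ∀ i y z, 0 ≤ q i y z) (hg : TF m D g) {S : Finset Pt} (hS : ∀ p ∈ S, m < p.1) {K : ℕ}
    (hK : ∀ k < K, ∀ z : ℤ, ((m + k + 1, z) : Pt) ∉ S → P (m + k) z = ∅) (η : Env) :
    ∀ k ≤ K, ∀ z, fwd P q (Sh S (fld P q m g s) η) m (g (s 0) (Sh S (fld P q m g s) η)) k z =
      fwd P q η m (g (s k) η) k z := by
  intro k
  rw [hg.sh hS]
  induction k with
  | zero => exact fun _ z => rfl
  | succ k ih =>
    intro hk z
    have ih' := ih (by omega)
    rw [fwd_succ, fwd_succ]
    have e1 : num P q (Sh S (fld P q m g s) η) m (g (s 0) η) k z = num P q η m (g (s k) η) k z :=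
      Finset.sum_congr rfl fun y _ => by rw [ih' y]
    rw [e1]
    by_cases hz : ((m + k + 1, z) : Pt) ∈ S
    · rw [Sh_in _ _ hz, Real.exp_add]
      have e2 : fld P q m g s (m + k + 1, z) η =
          Real.log (num P q η m (g (s (k + 1)) η) k z / num P q η m (g (s k) η) k z) := by
        unfold fld
        have : ((m + k + 1, z) : Pt).1 - m - 1 = (k : ℤ) := by simp only; ring
        rw [this, Int.toNat_natCast]
      rw [e2]
      have hn : ∀ t, 0 ≤ num P q η m (g t η) k z := fun t => num_nn_of hq (fwd_nn hq (hg.nn t η) k) _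
      have hl : ∀ t t', num P q η m (g t' η) k z ≤ Real.exp (D * |t' - t|) * num P q η m (g t η) k z :=
        fun t t' => num_le hq (hg.le t t' η) k z
      rcases (hn (s k)).eq_or_lt with h0 | h0
      · have h1 := hl (s k) (s (k + 1))
        rw [← h0, mul_zero] at h1
        rw [← h0, le_antisymm h1 (hn _)]
        simp
      · have h2 : 0 < num P q η m (g (s (k + 1)) η) k z := by
          have h1 := hl (s (k + 1)) (s k)
          rcases (hn (s (k + 1))).eq_or_lt with h | h
          · rw [← h, mul_zero] at h1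
            linarith
          · exact h
        rw [Real.exp_log (div_pos h2 h0)]
        field_simp
    · rw [Sh_out _ _ hz]
      have h0 : ∀ t, num P q η m (g t η) k z = 0 := fun t => by
        unfold num
        rw [hK k (by omega) z hz, Finset.sum_empty]
      rw [h0, h0]

/-- The linear schedule from `a` to `b` in `K` rows. -/
def sch (a b : ℝ) (K : ℕ) (k : ℕ) : ℝ := a + (b - a) * k / K

/-- **The law of everything behind the slab under a tilt of the past.** `Ψ f η` = a functional of the forward function `f`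
on the row `m + K` and of the environment outside of the slab `S` (every row behind, and also the past). From the tilt `a`
to the tilt `b`, price `exp (C |S| (D (b - a) / K) ²)`; exact, no remainder. -/
theorem transport_law [IsProbabilityMeasure μ] {p C θ0 : ℝ} (hp : 1 ≤ p) (hC : 0 ≤ C) (hQ : QI μ p C θ0)
    (hq : ∀ i y z, 0 ≤ q i y z) (hD : 0 ≤ D) (hg : TF m D g) {S : Finset Pt} (hS : ∀ u ∈ S, m < u.1) {K : ℕ}
    (hK0 : 0 < K) (hK : ∀ k < K, ∀ z : ℤ, ((m + k + 1, z) : Pt) ∉ S → P (m + k) z = ∅) {a b : ℝ}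
    (hab : D * |b - a| ≤ θ0 * K) (Ψ : (ℤ → ℝ) → Env → ℝ≥0∞)
    (hΨ : ∀ (f : ℤ → ℝ) (η η' : Env), (∀ u, u ∉ S → η u = η' u) → Ψ f η = Ψ f η')
    (hm : Measurable fun η => Ψ (fwd P q η m (g a η) K) η) :
    ∫⁻ η, Ψ (fwd P q η m (g b η) K) η ∂(law μ) ≤
      ENNReal.ofReal (Real.exp (C * (S.card * (D * (b - a) / K) ^ 2))) *
        (∫⁻ η, Ψ (fwd P q η m (g a η) K) η ^ p ∂(law μ)) ^ (1 / p) := by
  have hKr : (0 : ℝ) < K := by exact_mod_cast hK0
  set φ : Pt → Env → ℝ := fld P q m g (sch a b K) with hφ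
  have hb : ∀ u η, |φ u η| ≤ |D * (b - a) / K| := fun u η => by
    refine (fld_bd hq hD hg u η).trans_eq ?_
    have : sch a b K ((u.1 - m - 1).toNat + 1) - sch a b K (u.1 - m - 1).toNat = (b - a) / K := by
      unfold sch; push_cast; field_simp; ring
    rw [this, abs_div, abs_div, abs_mul, abs_of_nonneg hD, mul_div_assoc]
  have hb' : |D * (b - a) / K| ≤ θ0 := by
    rw [abs_div, abs_mul, abs_of_nonneg hD, abs_of_pos hKr, div_le_iff₀ hKr]
    exact hab
  have h1 := quasi_bd (B := S.card * (D * (b - a) / K) ^ 2) hp hC hQ (fun u => u.1) S φ (fun u _ => fld_meas hg u)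
    (fld_pred hg hS) (fun u _ η => (hb u η).trans hb') (fun η => by
      refine (Finset.sum_le_card_nsmul _ _ ((D * (b - a) / K) ^ 2) fun u _ => ?_).trans_eq (by rw [nsmul_eq_mul])
      rw [← sq_abs (φ u η), ← sq_abs (D * (b - a) / K)]
      exact pow_le_pow_left₀ (abs_nonneg _) (hb u η) 2) (fun η => Ψ (fwd P q η m (g a η) K) η) hm
  refine le_trans (le_of_eq (lintegral_congr fun η => ?_)) h1
  have s0 : sch a b K 0 = a := by unfold sch; simp
  have sK : sch a b K K = b := by unfold sch; field_simp; ring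
  have h2 := transport (s := sch a b K) hq hg hS hK η K le_rfl
  rw [s0, sK] at h2
  show Ψ (fwd P q η m (g b η) K) η = Ψ (fwd P q (Sh S φ η) m (g a (Sh S φ η)) K) (Sh S φ η)
  rw [show fwd P q (Sh S φ η) m (g a (Sh S φ η)) K = fwd P q η m (g b η) K from funext h2]
  exact hΨ _ _ _ fun u hu => (Sh_out φ η hu).symm

/-- Sums over the paths of the past, weights `exp (w + t A)` with `|A| ≤ D`, are a tilt family. -/
theorem TF.of_paths {Y : ℤ → Type*} [∀ z, Fintype (Y z)] {w A : (z : ℤ) → Env → Y z → ℝ}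
    (hA : ∀ z η y, |A z η y| ≤ D) (mw : ∀ z y, Measurable fun η => w z η y) (mA : ∀ z y, Measurable fun η => A z η y)
    (bw : ∀ z (η : Env) (u : Pt) (x : ℝ), m < u.1 → w z (Function.update η u x) = w z η)
    (bA : ∀ z (η : Env) (u : Pt) (x : ℝ), m < u.1 → A z (Function.update η u x) = A z η) :
    TF m D (fun t η z => ∑ y, Real.exp (w z η y + t * A z η y)) where
  nn t η z := Finset.sum_nonneg fun y _ => (Real.exp_pos _).le
  le t t' η z := by
    rw [Finset.mul_sum]
    refine Finset.sum_le_sum fun y _ => ?_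
    rw [← Real.exp_add]
    refine Real.exp_le_exp.2 ?_
    have h1 : (t' - t) * A z η y ≤ |t' - t| * D := by
      calc (t' - t) * A z η y ≤ |(t' - t) * A z η y| := le_abs_self _
        _ = |t' - t| * |A z η y| := abs_mul _ _
        _ ≤ |t' - t| * D := mul_le_mul_of_nonneg_left (hA z η y) (abs_nonneg _)
    linarith
  bl t η z u x hu := by
    show ∑ y, Real.exp (w z (Function.update η u x) y + t * A z (Function.update η u x) y) = _
    rw [bw z η u x hu, bA z η u x hu]
  ms t z := Finset.measurable_sum _ fun y _ => ((mw z y).add ((mA z y).const_mul t)).exp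

end

end Pool.W7d29a1.C0.H27
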