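import Pool.Agent.W_7d29a1_C0.Quasi32
import Pool.Agent.W_7d29a1_C0.Shift27
import Pool.Agent.W_7d29a1_C0.Box43

/-!
CURV0 (MP_7d29a1_pr), section SM0 / E0: THE LOCALISED TRANSPORT (helper7, letter 70561).

`gL a L B t` = the function `a` of the row `m`, tilted by `exp (t L)` on the positions `B` only. The field of its exact
transport (Shift27) is small at the sites whose posterior mass from `B` is small (`fld_loc`); `fldc` = the clipped field,
`loc_exact` = exact transport off the bad set, `loc_upper` / `loc_diff` = upper bound / difference form with the cost of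
the sites near `B` only.
-/

set_option autoImplicit false

namespace Pool.W7d29a1.C0.H7

open MeasureTheory ProbabilityTheory Filter Topology
open Pool.Agent.W_7d29a1_F Pool.Agent.W_7d29a1_C0 Pool.Agent.W_7d29a1_C0.H32 Pool.W7d29a1.C0.H27
open scoped ENNReal

noncomputable section

variable {μ : Measure ℝ}
variable {P : ℤ → ℤ → Finset ℤ} {q : ℤ → ℤ → ℤ → ℝ} {m : ℤ} {D : ℝ}

theorem fwd_add (η : Env) (f g : ℤ → ℝ) (k : ℕ) :
    ∀ z, fwd P q η m (fun z => f z + g z) k z = fwd P q η m f k z + fwd P q η m g k z := by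
  induction k with
  | zero => exact fun _ => rfl
  | succ k ih =>
    intro z
    show Real.exp (η (m + k + 1, z)) * ∑ y ∈ P (m + k) z, q (m + k) y z * fwd P q η m (fun z => f z + g z) k y = _
    simp only [ih, mul_add, Finset.sum_add_distrib]
    rfl

theorem num_add (η : Env) (f g : ℤ → ℝ) (k : ℕ) (z : ℤ) :
    num P q η m (fun z => f z + g z) k z = num P q η m f k z + num P q η m g k z := by
  unfold num
  rw [← Finset.sum_add_distrib]
  exact Finset.sum_congr rfl fun y _ => by rw [fwd_add]; ring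

theorem fwd_mono {η : Env} {f f' : ℤ → ℝ} (hq : ∀ i y z, 0 ≤ q i y z) (h : ∀ y, f' y ≤ f y) (k : ℕ) (z : ℤ) :
    fwd P q η m f' k z ≤ fwd P q η m f k z := by
  have := fwd_le (P := P) (m := m) (η := η) (c := 1) hq (fun y => by simpa using h y) k z
  simpa using this

theorem num_mono {η : Env} {f f' : ℤ → ℝ} (hq : ∀ i y z, 0 ≤ q i y z) (h : ∀ y, f' y ≤ f y) (k : ℕ) (z : ℤ) :
    num P q η m f' k z ≤ num P q η m f k z := by
  have := num_le (P := P) (m := m) (η := η) (c := 1) hq (fun y => by simpa using h y) k z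
  simpa using this

/-- The tilt `exp (t L)` of the function `a` of the row `m`, on the positions `B` only. -/
def gL (a L : Env → ℤ → ℝ) (B : Finset ℤ) (t : ℝ) (η : Env) (x : ℤ) : ℝ :=
  if x ∈ B then Real.exp (t * L η x) * a η x else a η x

/-- Admissible data of a tilt. -/
structure Lt (m : ℤ) (D : ℝ) (a L : Env → ℤ → ℝ) : Prop where
  nn : ∀ η x, 0 ≤ a η x
  bd : ∀ η x, |L η x| ≤ D
  bla : ∀ (η : Env) x (u : Pt) (y : ℝ), m < u.1 → a (Function.update η u y) x = a η x
  bll : ∀ (η : Env) x (u : Pt) (y : ℝ), m < u.1 → L (Function.update η u y) x = L η x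
  ma : ∀ x, Measurable fun η => a η x
  ml : ∀ x, Measurable fun η => L η x

variable {a L : Env → ℤ → ℝ} {B : Finset ℤ}

theorem gL_zero (η : Env) (x : ℤ) : gL a L B 0 η x = a η x := by
  unfold gL
  split <;> simp

theorem Lt.D_nn (h : Lt m D a L) : 0 ≤ D := (abs_nonneg _).trans (h.bd (fun _ => 0) 0)

theorem exp_tilt_le {t t' l D : ℝ} (hl : |l| ≤ D) : Real.exp (t' * l) ≤ Real.exp (D * |t' - t|) * Real.exp (t * l) := by
  rw [← Real.exp_add]
  refine Real.exp_le_exp.2 ?_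
  have h1 : (t' - t) * l ≤ |t' - t| * D := by
    calc (t' - t) * l ≤ |(t' - t) * l| := le_abs_self _
      _ = |t' - t| * |l| := abs_mul _ _
      _ ≤ |t' - t| * D := mul_le_mul_of_nonneg_left hl (abs_nonneg _)
  linarith

theorem Lt.tf (h : Lt m D a L) (B : Finset ℤ) : TF m D (gL a L B) where
  nn t η x := by
    unfold gL
    split
    · exact mul_nonneg (Real.exp_pos _).le (h.nn η x)
    · exact h.nn η x
  le t t' η x := by
    unfold gL
    split
    · rw [← mul_assoc]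
      exact mul_le_mul_of_nonneg_right (exp_tilt_le (h.bd η x)) (h.nn η x)
    · have h1 : 1 ≤ Real.exp (D * |t' - t|) := Real.one_le_exp (mul_nonneg h.D_nn (abs_nonneg _))
      nlinarith [h.nn η x]
  bl t η x u y hu := by
    unfold gL
    rw [h.bla η x u y hu, h.bll η x u y hu]
  ms t x := by
    unfold gL
    split
    · exact (((h.ml x).const_mul t).exp).mul (h.ma x)
    · exact h.ma x

/-- The part of `a` on `B`. -/
def inB (B : Finset ℤ) (f : ℤ → ℝ) (x : ℤ) : ℝ := if x ∈ B then f x else 0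

/-- The part of `a` off `B`. -/
def offB (B : Finset ℤ) (f : ℤ → ℝ) (x : ℤ) : ℝ := if x ∈ B then 0 else f x

theorem in_add_off (B : Finset ℤ) (f : ℤ → ℝ) : f = fun x => inB B f x + offB B f x := by
  funext x
  unfold inB offB
  split <;> simp

/-- The posterior mass of `B`: weight of the predecessors of the site `(m + k + 1, z)` which come from `B`. -/
def post (P : ℤ → ℤ → Finset ℤ) (q : ℤ → ℤ → ℤ → ℝ) (m : ℤ) (B : Finset ℤ) (a : Env → ℤ → ℝ) (η : Env) (k : ℕ) (z : ℤ) : ℝ :=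
  num P q η m (inB B (a η)) k z / num P q η m (a η) k z

theorem abs_log_le {r c : ℝ} (hc : 1 ≤ c) (hr : 1 ≤ c * r) (h0 : 0 < r) : |Real.log r| ≤ c * |r - 1| := by
  rcases le_or_gt 1 r with h | h
  · rw [abs_of_nonneg (Real.log_nonneg h), abs_of_nonneg (by linarith)]
    have := Real.log_le_sub_one_of_pos h0
    nlinarith
  · rw [abs_of_neg (Real.log_neg h0 h), abs_of_neg (by linarith)]
    have h1 := Real.log_le_sub_one_of_pos (inv_pos.2 h0)
    rw [Real.log_inv] at h1
    have h2 : r⁻¹ - 1 ≤ c * -(r - 1) := by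
      have : r⁻¹ ≤ c := by
        rw [inv_le_comm₀ h0 (by linarith)]
        rw [inv_le_iff_one_le_mul₀ (by linarith)]
        linarith
      have h3 : r⁻¹ - 1 = r⁻¹ * -(r - 1) := by field_simp; ring
      rw [h3]
      exact mul_le_mul_of_nonneg_right this (by linarith)
    linarith

/-- **The field of a local tilt is small where the posterior mass of `B` is small**, any tilt family which does not move
off `B`. -/
theorem fld_loc_tf (hq : ∀ i y z, 0 ≤ q i y z) {g : ℝ → Env → ℤ → ℝ} (hg : TF m D g) (hD : 0 ≤ D)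
    (hB : ∀ t η z, z ∉ B → g t η z = g 0 η z) {s : ℕ → ℝ} (hs : ∀ k, |s k| ≤ 1) (p : Pt) (η : Env) :
    |fld P q m g s p η| ≤
      Real.exp (D * |s ((p.1 - m - 1).toNat + 1) - s (p.1 - m - 1).toNat|) *
      (Real.exp (D * |s ((p.1 - m - 1).toNat + 1) - s (p.1 - m - 1).toNat|) - 1) * Real.exp (2 * D) *
        post P q m B (g 0) η (p.1 - m - 1).toNat p.2 := by
  set k := (p.1 - m - 1).toNat with hk
  set z := p.2
  set Δ := |s (k + 1) - s k| with hΔ
  have hc : 1 ≤ Real.exp (D * Δ) := Real.one_le_exp (mul_nonneg hD (abs_nonneg _))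
  have hna : 0 ≤ num P q η m (g 0 η) k z := num_nn_of hq (fwd_nn hq (hg.nn 0 η) k) _
  have hnI : 0 ≤ num P q η m (inB B (g 0 η)) k z := num_nn_of hq (fwd_nn hq (fun y => by
    unfold inB; split
    · exact hg.nn 0 η y
    · exact le_rfl) k) _
  have hpost : 0 ≤ post P q m B (g 0) η k z := div_nonneg hnI hna
  have hn : ∀ t, 0 ≤ num P q η m (g t η) k z := fun t => num_nn_of hq (fwd_nn hq (hg.nn t η) k) _
  show |Real.log (num P q η m (g (s (k + 1)) η) k z / num P q η m (g (s k) η) k z)| ≤ _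
  rcases (hn (s k)).eq_or_lt with h0 | h0
  · rw [← h0]
    simp only [div_zero, Real.log_zero, abs_zero]
    refine mul_nonneg (mul_nonneg (mul_nonneg (Real.exp_pos _).le (by linarith)) (Real.exp_pos _).le) hpost
  · have hl : ∀ t t', num P q η m (g t' η) k z ≤ Real.exp (D * |t' - t|) * num P q η m (g t η) k z :=
      fun t t' => num_le hq (hg.le t t' η) k z
    have hbk : num P q η m (g (s k) η) k z ≤ Real.exp (D * Δ) * num P q η m (g (s (k + 1)) η) k z := by
      have := hl (s (k + 1)) (s k)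
      rwa [abs_sub_comm] at this
    have h1 : 0 < num P q η m (g (s (k + 1)) η) k z := by
      rcases (hn (s (k + 1))).eq_or_lt with hh | hh
      · rw [← hh, mul_zero] at hbk
        linarith
      · exact hh
    have hr : 1 ≤ Real.exp (D * Δ) * (num P q η m (g (s (k + 1)) η) k z / num P q η m (g (s k) η) k z) := by
      rw [← mul_div_assoc, le_div_iff₀ h0, one_mul]
      exact hbk
    refine (abs_log_le hc hr (div_pos h1 h0)).trans ?_
    have e1 : ∀ t, num P q η m (g t η) k z =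
        num P q η m (inB B (g t η)) k z + num P q η m (offB B (g 0 η)) k z := fun t => by
      have e : g t η = fun x => inB B (g t η) x + offB B (g 0 η) x := by
        funext x
        unfold inB offB
        by_cases hx : x ∈ B
        · simp [hx]
        · simp [hx, hB t η x hx]
      conv_lhs => rw [e]
      exact num_add η _ _ k z
    have hin : ∀ t t', num P q η m (inB B (g t' η)) k z ≤
        Real.exp (D * |t' - t|) * num P q η m (inB B (g t η)) k z := fun t t' => num_le hq (fun y => by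
      unfold inB
      split
      · exact hg.le t t' η y
      · simp) k z
    have hin0 : ∀ t, 0 ≤ num P q η m (inB B (g t η)) k z := fun t => num_nn_of hq (fwd_nn hq (fun y => by
      unfold inB; split
      · exact hg.nn t η y
      · exact le_rfl) k) _
    have h2 : |num P q η m (g (s (k + 1)) η) k z / num P q η m (g (s k) η) k z - 1| ≤
        (Real.exp (D * Δ) - 1) * (num P q η m (inB B (g (s k) η)) k z / num P q η m (g (s k) η) k z) := by
      rw [div_sub_one h0.ne', abs_div, abs_of_pos h0, mul_div_assoc']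
      refine div_le_div_of_nonneg_right ?_ h0.le
      rw [e1, e1 (s k), add_sub_add_right_eq_sub]
      have b1 := hin (s k) (s (k + 1))
      have b2 := hin (s (k + 1)) (s k)
      rw [abs_sub_comm (s k)] at b2
      rw [abs_le]
      constructor
      · nlinarith [hin0 (s k), hin0 (s (k + 1)), mul_le_mul_of_nonneg_left b2 (Real.exp_pos (D * Δ)).le]
      · nlinarith [hin0 (s k), hin0 (s (k + 1))]
    have h3 : num P q η m (inB B (g (s k) η)) k z / num P q η m (g (s k) η) k z ≤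
        Real.exp (2 * D) * post P q m B (g 0) η k z := by
      have hsk : D * |s k| ≤ D := by nlinarith [hs k]
      have c1 : num P q η m (inB B (g (s k) η)) k z ≤ Real.exp D * num P q η m (inB B (g 0 η)) k z := by
        have b := hin 0 (s k)
        rw [sub_zero] at b
        exact b.trans (mul_le_mul_of_nonneg_right (Real.exp_le_exp.2 hsk) hnI)
      have c2 : num P q η m (g 0 η) k z ≤ Real.exp D * num P q η m (g (s k) η) k z := by
        have b := hl (s k) 0
        rw [zero_sub, abs_neg] at b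
        exact b.trans (mul_le_mul_of_nonneg_right (Real.exp_le_exp.2 hsk) h0.le)
      have c3 : 0 < num P q η m (g 0 η) k z := by
        have b := hl 0 (s k)
        rcases hna.eq_or_lt with hh | hh
        · rw [← hh, mul_zero] at b
          linarith
        · exact hh
      unfold post
      rw [← mul_div_assoc, div_le_div_iff₀ h0 c3, show Real.exp (2 * D) = Real.exp D * Real.exp D by
        rw [← Real.exp_add]; ring_nf]
      calc num P q η m (inB B (g (s k) η)) k z * num P q η m (g 0 η) k z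
          ≤ (Real.exp D * num P q η m (inB B (g 0 η)) k z) * (Real.exp D * num P q η m (g (s k) η) k z) :=
            mul_le_mul c1 c2 c3.le (mul_nonneg (Real.exp_pos _).le hnI)
        _ = _ := by ring
    calc Real.exp (D * Δ) * |num P q η m (g (s (k + 1)) η) k z / num P q η m (g (s k) η) k z - 1|
        ≤ Real.exp (D * Δ) * ((Real.exp (D * Δ) - 1) * (Real.exp (2 * D) * post P q m B (g 0) η k z)) :=
          mul_le_mul_of_nonneg_left (h2.trans (mul_le_mul_of_nonneg_left h3 (by linarith))) (Real.exp_pos _).le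
      _ = _ := by ring

/-- The numbers of the linear schedule. -/
theorem six_bd {D : ℝ} {K : ℕ} (hD : 0 ≤ D) (hK : (0 : ℝ) < K) (hDK : D ≤ K) {r π E : ℝ} (hE : 0 ≤ E) (hπ : 0 ≤ π)
    (h : r ≤ Real.exp (D * (1 / K)) * (Real.exp (D * (1 / K)) - 1) * E * π) : r ≤ 6 * (D / K) * E * π := by
  rw [mul_one_div] at h
  refine h.trans ?_
  have hx0 : 0 ≤ D / K := div_nonneg hD hK.le
  have hx1 : D / K ≤ 1 := (div_le_one hK).2 hDK
  have h3 : Real.exp (D / K) ≤ 3 := (Real.exp_le_exp.2 hx1).trans (by have := Real.exp_one_lt_d9; linarith)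
  have h4 : Real.exp (D / K) - 1 ≤ 2 * (D / K) := by
    have := Real.abs_exp_sub_one_le (x := D / K) (by rw [abs_of_nonneg hx0]; exact hx1)
    rw [abs_of_nonneg hx0] at this
    exact (le_abs_self _).trans this
  have h5 : 0 ≤ Real.exp (D / K) - 1 := by have := Real.add_one_le_exp (D / K); linarith
  have h6 : Real.exp (D / K) * (Real.exp (D / K) - 1) ≤ 6 * (D / K) := by
    calc Real.exp (D / K) * (Real.exp (D / K) - 1) ≤ 3 * (2 * (D / K)) :=
          mul_le_mul h3 h4 h5 (by norm_num)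
      _ = _ := by ring
  exact mul_le_mul_of_nonneg_right (mul_le_mul_of_nonneg_right h6 hE) hπ

/-- The field of the linear schedule in `K` rows (`D ≤ K`) is `≤ 6 (D / K) exp (2 D)` times the posterior mass. -/
theorem fld_loc_sch (hq : ∀ i y z, 0 ≤ q i y z) {g : ℝ → Env → ℤ → ℝ} (hg : TF m D g) (hD : 0 ≤ D)
    (hB : ∀ t η z, z ∉ B → g t η z = g 0 η z) {K : ℕ} (hDK : D ≤ K) (p : Pt) (hp : (p.1 - m - 1).toNat < K) (η : Env) :
    |fld P q m g (sch 0 1 K) p η| ≤ 6 * (D / K) * Real.exp (2 * D) * post P q m B (g 0) η (p.1 - m - 1).toNat p.2 := by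
  set k := (p.1 - m - 1).toNat with hk
  have hK : (0 : ℝ) < K := by exact_mod_cast (Nat.zero_le k).trans_lt hp
  set s' : ℕ → ℝ := fun j => min (sch 0 1 K j) 1 with hs'
  have e : ∀ j : ℕ, j ≤ K → sch 0 1 K j = (j : ℝ) / K := fun j _ => by
    unfold sch
    ring
  have e' : ∀ j : ℕ, j ≤ K → s' j = sch 0 1 K j := fun j hj => by
    have : (j : ℝ) ≤ K := by exact_mod_cast hj
    rw [hs']
    simp only
    rw [min_eq_left]
    rw [e j hj, div_le_one hK]
    exact this
  have hs : ∀ j : ℕ, |s' j| ≤ 1 := fun j => by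
    have : 0 ≤ sch 0 1 K j := by unfold sch; positivity
    rw [hs']
    simp only
    rw [abs_of_nonneg (le_min this zero_le_one)]
    exact min_le_right _ _
  have h1 := fld_loc_tf (P := P) (B := B) hq hg hD hB hs p η
  have h2 : fld P q m g s' p η = fld P q m g (sch 0 1 K) p η := by
    unfold fld
    rw [← hk, e' _ (by omega : k + 1 ≤ K), e' _ hp.le]
  rw [h2, ← hk, e' _ (by omega : k + 1 ≤ K), e' _ hp.le, e _ (by omega : k + 1 ≤ K), e _ hp.le] at h1
  have e2 : |((k + 1 : ℕ) : ℝ) / K - (k : ℝ) / K| = 1 / K := by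
    rw [← sub_div]
    push_cast
    rw [add_sub_cancel_left, abs_of_pos (by positivity)]
  rw [e2] at h1
  refine six_bd hD hK hDK (Real.exp_pos _).le ?_ h1
  exact div_nonneg (num_nn_of hq (fwd_nn hq (fun y => by
    unfold inB; split
    · exact hg.nn 0 η y
    · exact le_rfl) k) _) (num_nn_of hq (fwd_nn hq (hg.nn 0 η) k) _)

/-- The case `gL`. -/
theorem fld_loc (hq : ∀ i y z, 0 ≤ q i y z) (h : Lt m D a L) {K : ℕ} (hDK : D ≤ K) (p : Pt)
    (hp : (p.1 - m - 1).toNat < K) (η : Env) :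
    |fld P q m (gL a L B) (sch 0 1 K) p η| ≤ 6 * (D / K) * Real.exp (2 * D) * post P q m B a η (p.1 - m - 1).toNat p.2 := by
  have h1 := fld_loc_sch (P := P) (B := B) hq (h.tf B) h.D_nn (fun t η z hz => by
    unfold gL; rw [if_neg hz, if_neg hz]) hDK p hp η
  have e : post P q m B (gL a L B 0) η (p.1 - m - 1).toNat p.2 = post P q m B a η (p.1 - m - 1).toNat p.2 := by
    unfold post
    rw [show gL a L B 0 η = a η from funext fun x => gL_zero η x]
  rwa [e] at h1

/-- The linear schedule from `0` to `1` in `K` rows, constant afterwards. -/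
def sc1 (K : ℕ) (k : ℕ) : ℝ := min (sch 0 1 K k) 1

theorem sc1_zero (K : ℕ) : sc1 K 0 = 0 := by unfold sc1 sch; simp

theorem sc1_K {K : ℕ} (hK : 0 < K) : sc1 K K = 1 := by
  have : (0 : ℝ) < K := by exact_mod_cast hK
  unfold sc1 sch
  rw [sub_zero, one_mul, zero_add, div_self this.ne', min_self]

theorem sc1_diff {K : ℕ} (hK : 0 < K) (k : ℕ) : |sc1 K (k + 1) - sc1 K k| ≤ 1 / K := by
  have h : (0 : ℝ) < K := by exact_mod_cast hK
  have h2 : |min (sch 0 1 K (k + 1)) 1 - min (sch 0 1 K k) 1| ≤ |sch 0 1 K (k + 1) - sch 0 1 K k| := by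
    refine (abs_min_sub_min_le_max _ _ _ _).trans ?_
    simp
  refine h2.trans (le_of_eq ?_)
  unfold sch
  push_cast
  rw [show (0 : ℝ) + (1 - 0) * (k + 1) / K - (0 + (1 - 0) * k / K) = 1 / K by ring, abs_of_pos (by positivity)]

/-! ### The clipped field -/

/-- The clipped field: `fld` at the sites `N` and wherever it is `≤ δ`, zero otherwise. -/
def fldc (P : ℤ → ℤ → Finset ℤ) (q : ℤ → ℤ → ℤ → ℝ) (m : ℤ) (g : ℝ → Env → ℤ → ℝ) (s : ℕ → ℝ) (N : Finset Pt) (δ : ℝ)
    (p : Pt) (η : Env) : ℝ :=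
  if p ∈ N ∨ |fld P q m g s p η| ≤ δ then fld P q m g s p η else 0

/-- The bad set: the field is not small at a site of `S` off `N`. -/
def badS (P : ℤ → ℤ → Finset ℤ) (q : ℤ → ℤ → ℤ → ℝ) (m : ℤ) (g : ℝ → Env → ℤ → ℝ) (s : ℕ → ℝ) (S N : Finset Pt) (δ : ℝ) :
    Set Env := {η | ∃ p ∈ S, p ∉ N ∧ δ < |fld P q m g s p η|}

variable {g : ℝ → Env → ℤ → ℝ} {s : ℕ → ℝ} {S N : Finset Pt} {δ : ℝ}

theorem fldc_meas (hg : TF m D g) (p : Pt) : Measurable (fldc P q m g s N δ p) := by
  classical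
  have h := fld_meas (P := P) (q := q) (s := s) hg p
  have habs : Measurable fun η => |fld P q m g s p η| := by
    have := h.norm
    simpa [Real.norm_eq_abs] using this
  unfold fldc
  by_cases hp : p ∈ N
  · simpa [hp] using h
  · simp only [hp, false_or]
    exact Measurable.ite (measurableSet_le habs measurable_const) h measurable_const

theorem fldc_pred (hg : TF m D g) (hS : ∀ p ∈ S, m < p.1) : PredR (fun p => p.1) S (fldc P q m g s N δ) := by
  intro p hp u _ hle η x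
  unfold fldc
  rw [fld_blind hg (hS p hp) hle η x]

theorem fldc_le (p : Pt) (η : Env) : |fldc P q m g s N δ p η| ≤ |fld P q m g s p η| := by
  unfold fldc
  split
  · exact le_rfl
  · simp

theorem fldc_off (hδ : 0 ≤ δ) {p : Pt} (hp : p ∉ N) (η : Env) : |fldc P q m g s N δ p η| ≤ δ := by
  unfold fldc
  split
  · rename_i h
    exact h.resolve_left hp
  · simpa using hδ

theorem fldc_sq (hδ : 0 ≤ δ) {c : ℝ} (hb : ∀ p η, |fld P q m g s p η| ≤ c) (η : Env) :
    ∑ p ∈ S, fldc P q m g s N δ p η ^ 2 ≤ N.card * c ^ 2 + S.card * δ ^ 2 := by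
  classical
  have h1 : ∀ p ∈ S, fldc P q m g s N δ p η ^ 2 ≤ (if p ∈ N then c ^ 2 else 0) + δ ^ 2 := fun p _ => by
    have hc : 0 ≤ c := (abs_nonneg _).trans (hb p η)
    by_cases hp : p ∈ N
    · simp only [hp, if_true]
      have h2 := (fldc_le (P := P) (q := q) (m := m) (g := g) (s := s) (N := N) (δ := δ) p η).trans (hb p η)
      have h3 : fldc P q m g s N δ p η ^ 2 ≤ c ^ 2 := by
        rw [← sq_abs]
        exact pow_le_pow_left₀ (abs_nonneg _) h2 2
      nlinarith [sq_nonneg δ]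
    · simp only [hp, if_false, zero_add]
      rw [← sq_abs]
      exact pow_le_pow_left₀ (abs_nonneg _) (fldc_off hδ hp η) 2
  refine (Finset.sum_le_sum h1).trans ?_
  rw [Finset.sum_add_distrib, Finset.sum_const, nsmul_eq_mul, ← Finset.sum_filter, Finset.sum_const, nsmul_eq_mul]
  have h2 : ((S.filter (· ∈ N)).card : ℝ) ≤ N.card := by
    exact_mod_cast Finset.card_le_card fun p hp => (Finset.mem_filter.1 hp).2
  nlinarith [sq_nonneg c, mul_le_mul_of_nonneg_right h2 (sq_nonneg c)]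

/-- **The clipped transport is exact off the bad set.** -/
theorem loc_exact (hq : ∀ i y z, 0 ≤ q i y z) (hg : TF m D g) (hS : ∀ p ∈ S, m < p.1) {K : ℕ}
    (hK : ∀ k < K, ∀ z : ℤ, ((m + k + 1, z) : Pt) ∉ S → P (m + k) z = ∅) {η : Env} (hη : η ∉ badS P q m g s S N δ) :
    ∀ k ≤ K, fwd P q (Sh S (fldc P q m g s N δ) η) m (g (s 0) (Sh S (fldc P q m g s N δ) η)) k =
      fwd P q η m (g (s k) η) k := by
  have e : Sh S (fldc P q m g s N δ) η = Sh S (fld P q m g s) η := by
    funext p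
    by_cases hp : p ∈ S
    · rw [Sh_in _ _ hp, Sh_in _ _ hp]
      congr 1
      unfold fldc
      rw [if_pos]
      by_contra hc
      push Not at hc
      exact hη ⟨p, hp, hc.1, hc.2⟩
    · rw [Sh_out _ _ hp, Sh_out _ _ hp]
  intro k hk
  rw [e]
  exact funext fun z => transport hq hg hS hK η k hk z

theorem badS_meas (hg : TF m D g) : MeasurableSet (badS P q m g s S N δ) := by
  classical
  have : badS P q m g s S N δ = ⋃ p ∈ S.filter (· ∉ N), {η | δ < |fld P q m g s p η|} := by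
    ext η
    simp only [badS, Set.mem_ofPred_eq, Set.mem_iUnion, Finset.mem_filter, exists_prop]
    exact ⟨fun ⟨p, h1, h2, h3⟩ => ⟨p, ⟨h1, h2⟩, h3⟩, fun ⟨p, ⟨h1, h2⟩, h3⟩ => ⟨p, h1, h2, h3⟩⟩
  rw [this]
  refine Finset.measurableSet_biUnion _ fun p _ => ?_
  have habs : Measurable fun η => |fld P q m g s p η| := by
    have := (fld_meas (P := P) (q := q) (s := s) hg p).norm
    simpa [Real.norm_eq_abs] using this
  exact measurableSet_lt measurable_const habs

/-- **Upper bound under a local tilt, with a passenger**: functional `Ψ f η ≤ Λ` of the forward function `f` behind the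
slab and of the environment, dominated off the bad set by `Ψ'` of the same `f` and of the SHIFTED environment. Cost
`exp (C B0)`, `B0 = |N| (D / K) ^ 2 + |S| δ ^ 2`, plus `Λ P(bad)`. -/
theorem loc_upperP [IsProbabilityMeasure μ] {p C θ0 : ℝ} (hp : 1 ≤ p) (hC : 0 ≤ C) (hQ : QI μ p C θ0)
    (hq : ∀ i y z, 0 ≤ q i y z) (hD : 0 ≤ D) (hg : TF m D g) (hS : ∀ u ∈ S, m < u.1) {K : ℕ} (hK0 : 0 < K)
    (hK : ∀ k < K, ∀ z : ℤ, ((m + k + 1, z) : Pt) ∉ S → P (m + k) z = ∅) (hδ : 0 ≤ δ) (hDK : D / K ≤ θ0)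
    (Ψ Ψ' : (ℤ → ℝ) → Env → ℝ≥0∞) (Λ : ℝ≥0∞) (hΛ : ∀ η, Ψ (fwd P q η m (g 1 η) K) η ≤ Λ)
    (hΨ : ∀ η, η ∉ badS P q m g (sc1 K) S N δ → Ψ (fwd P q η m (g 1 η) K) η ≤
      Ψ' (fwd P q η m (g 1 η) K) (Sh S (fldc P q m g (sc1 K) N δ) η))
    (hm : Measurable fun η => Ψ' (fwd P q η m (g 0 η) K) η) :
    ∫⁻ η, Ψ (fwd P q η m (g 1 η) K) η ∂(law μ) ≤
      ENNReal.ofReal (Real.exp (C * (N.card * (D / K) ^ 2 + S.card * δ ^ 2))) *
        (∫⁻ η, Ψ' (fwd P q η m (g 0 η) K) η ^ p ∂(law μ)) ^ (1 / p) + Λ * law μ (badS P q m g (sc1 K) S N δ) := by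
  have hKr : (0 : ℝ) < K := by exact_mod_cast hK0
  set φ : Pt → Env → ℝ := fldc P q m g (sc1 K) N δ with hφ
  have hb0 : ∀ u η, |fld P q m g (sc1 K) u η| ≤ D / K := fun u η => by
    refine (fld_bd hq hD hg u η).trans ?_
    have := mul_le_mul_of_nonneg_left (sc1_diff hK0 (u.1 - m - 1).toNat) hD
    rwa [mul_one_div] at this
  have hbad : MeasurableSet (badS P q m g (sc1 K) S N δ) := badS_meas hg
  set F : Env → ℝ≥0∞ := fun η => Ψ' (fwd P q η m (g 0 η) K) η with hF
  have h1 := quasi_bd (B := N.card * (D / K) ^ 2 + S.card * δ ^ 2) hp hC hQ (fun u => u.1) S φ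
    (fun u _ => fldc_meas hg u) (fldc_pred hg hS) (fun u _ η => (fldc_le u η).trans ((hb0 u η).trans hDK))
    (fun η => fldc_sq hδ hb0 η) F hm
  have h2 : ∀ η, Ψ (fwd P q η m (g 1 η) K) η ≤
      F (Sh S φ η) + (badS P q m g (sc1 K) S N δ).indicator (fun _ => Λ) η := fun η => by
    by_cases hη : η ∈ badS P q m g (sc1 K) S N δ
    · rw [Set.indicator_of_mem hη]
      exact (hΛ η).trans le_add_self
    · refine le_trans ((hΨ η hη).trans_eq ?_) le_self_add
      have h3 := loc_exact (s := sc1 K) hq hg hS hK hη K le_rfl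
      rw [sc1_zero, sc1_K hK0] at h3
      show Ψ' (fwd P q η m (g 1 η) K) (Sh S φ η) = Ψ' (fwd P q (Sh S φ η) m (g 0 (Sh S φ η)) K) (Sh S φ η)
      rw [h3]
  have hmS : Measurable fun η => F (Sh S φ η) := hm.comp (Sh_meas (φ := φ) fun u _ => fldc_meas hg u)
  calc ∫⁻ η, Ψ (fwd P q η m (g 1 η) K) η ∂(law μ)
      ≤ ∫⁻ η, (F (Sh S φ η) + (badS P q m g (sc1 K) S N δ).indicator (fun _ => Λ) η) ∂(law μ) := lintegral_mono h2
    _ = ∫⁻ η, F (Sh S φ η) ∂(law μ) + Λ * law μ (badS P q m g (sc1 K) S N δ) := by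
        rw [lintegral_add_left hmS, lintegral_indicator_const hbad]
    _ ≤ _ := by gcongr

/-- **Upper bound under a local tilt**: functional `Ψ f η ≤ Λ` of the forward function `f` behind the slab and of the
environment outside the slab. -/
theorem loc_upper [IsProbabilityMeasure μ] {p C θ0 : ℝ} (hp : 1 ≤ p) (hC : 0 ≤ C) (hQ : QI μ p C θ0)
    (hq : ∀ i y z, 0 ≤ q i y z) (hD : 0 ≤ D) (hg : TF m D g) (hS : ∀ u ∈ S, m < u.1) {K : ℕ} (hK0 : 0 < K)
    (hK : ∀ k < K, ∀ z : ℤ, ((m + k + 1, z) : Pt) ∉ S → P (m + k) z = ∅) (hδ : 0 ≤ δ) (hDK : D / K ≤ θ0)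
    (Ψ : (ℤ → ℝ) → Env → ℝ≥0∞) (Λ : ℝ≥0∞) (hΛ : ∀ η, Ψ (fwd P q η m (g 1 η) K) η ≤ Λ)
    (hΨ : ∀ (f : ℤ → ℝ) (η η' : Env), (∀ u, u ∉ S → η u = η' u) → Ψ f η = Ψ f η')
    (hm : Measurable fun η => Ψ (fwd P q η m (g 0 η) K) η) :
    ∫⁻ η, Ψ (fwd P q η m (g 1 η) K) η ∂(law μ) ≤
      ENNReal.ofReal (Real.exp (C * (N.card * (D / K) ^ 2 + S.card * δ ^ 2))) *
        (∫⁻ η, Ψ (fwd P q η m (g 0 η) K) η ^ p ∂(law μ)) ^ (1 / p) + Λ * law μ (badS P q m g (sc1 K) S N δ) :=
  loc_upperP hp hC hQ hq hD hg hS hK0 hK hδ hDK Ψ Ψ Λ hΛ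
    (fun _ _ => (hΨ _ _ _ fun _ hu => (Sh_out _ _ hu).symm).le) hm

/-- **Difference form of a local tilt** (helper32's `q3` on the clipped field): real functional `|Ψ| ≤ Λ`. -/
theorem loc_diff [IsProbabilityMeasure μ] {u : ℝ → ℝ → ℝ} {C θ : ℝ} (hW : Q32.WL μ u C θ)
    (hq : ∀ i y z, 0 ≤ q i y z) (hD : 0 ≤ D) (hg : TF m D g) (hS : ∀ u ∈ S, m < u.1) {K : ℕ} (hK0 : 0 < K)
    (hK : ∀ k < K, ∀ z : ℤ, ((m + k + 1, z) : Pt) ∉ S → P (m + k) z = ∅) (hδ : 0 ≤ δ) {a t : ℝ} (ha : 0 ≤ a)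
    (ht : 0 ≤ t) (hDK : (2 * t + 3) * (D / K) ≤ θ) (Ψ : (ℤ → ℝ) → Env → ℝ) {Λ : ℝ}
    (hΛ0 : ∀ η, |Ψ (fwd P q η m (g 0 η) K) η| ≤ Λ) (hΛ : ∀ η, |Ψ (fwd P q η m (g 1 η) K) η| ≤ Λ)
    (hΨ : ∀ (f : ℤ → ℝ) (η η' : Env), (∀ u, u ∉ S → η u = η' u) → Ψ f η = Ψ f η')
    (hm : Measurable fun η => Ψ (fwd P q η m (g 0 η) K) η) (hm1 : Measurable fun η => Ψ (fwd P q η m (g 1 η) K) η) :
    |∫ η, Ψ (fwd P q η m (g 1 η) K) η ∂(law μ) - ∫ η, Ψ (fwd P q η m (g 0 η) K) η ∂(law μ)| ≤
      (Real.exp a - 1) * ∫ η, |Ψ (fwd P q η m (g 0 η) K) η| ∂(law μ) +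
      4 * Real.exp (-(t * a)) * Real.exp (C * ((2 * t + 3) ^ 2 + 1) * (N.card * (D / K) ^ 2 + S.card * δ ^ 2)) * Λ +
      2 * Λ * (law μ).real (badS P q m g (sc1 K) S N δ) := by
  have hKr : (0 : ℝ) < K := by exact_mod_cast hK0
  set φ : Pt → Env → ℝ := fldc P q m g (sc1 K) N δ with hφ
  have hb0 : ∀ u η, |fld P q m g (sc1 K) u η| ≤ D / K := fun u η => by
    refine (fld_bd hq hD hg u η).trans ?_
    have := mul_le_mul_of_nonneg_left (sc1_diff hK0 (u.1 - m - 1).toNat) hD
    rwa [mul_one_div] at this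
  have hbad : MeasurableSet (badS P q m g (sc1 K) S N δ) := badS_meas hg
  set F : Env → ℝ := fun η => Ψ (fwd P q η m (g 0 η) K) η with hF
  have hΛn : 0 ≤ Λ := (abs_nonneg _).trans (hΛ0 fun _ => 0)
  have iF : ∀ G : Env → ℝ, Measurable G → (∀ η, |G η| ≤ Λ) → Integrable G (law μ) := fun G hG hb =>
    Integrable.of_bound hG.aestronglyMeasurable Λ (ae_of_all _ fun η => by simpa [Real.norm_eq_abs] using hb η)
  have iF2 : Integrable (fun η => F η ^ 2) (law μ) :=
    Integrable.of_bound (hm.pow_const 2).aestronglyMeasurable (Λ ^ 2) (ae_of_all _ fun η => by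
      rw [Real.norm_eq_abs, abs_pow]
      exact pow_le_pow_left₀ (abs_nonneg _) (hΛ0 η) 2)
  obtain ⟨j0, h1⟩ := Q32.q3 hW (fun u => u.1) S φ (fun u _ => fldc_meas hg u) (fldc_pred hg hS)
    (B := N.card * (D / K) ^ 2 + S.card * δ ^ 2) ha ht (fun u _ η => by
      have h2 := (fldc_le (P := P) (q := q) (m := m) (g := g) (s := sc1 K) (N := N) (δ := δ) u η).trans (hb0 u η)
      have h3 : (2 * t + 3) * |φ u η| ≤ (2 * t + 3) * (D / K) := mul_le_mul_of_nonneg_left h2 (by linarith)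
      linarith) (fun η => fldc_sq hδ hb0 η) (F := F) hm iF2
  have hsq : Real.sqrt (∫ η, F η ^ 2 ∂(law μ)) ≤ Λ := by
    rw [Real.sqrt_le_left hΛn]
    calc ∫ η, F η ^ 2 ∂(law μ) ≤ ∫ _, Λ ^ 2 ∂(law μ) := integral_mono iF2 (integrable_const _) fun η => by
          show F η ^ 2 ≤ Λ ^ 2
          rw [← sq_abs]
          exact pow_le_pow_left₀ (abs_nonneg _) (hΛ0 η) 2
      _ = Λ ^ 2 := by simp
  have h2 : ∀ η, |Ψ (fwd P q η m (g 1 η) K) η - F (Sh S φ η)| ≤
      (badS P q m g (sc1 K) S N δ).indicator (fun _ => 2 * Λ) η := fun η => by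
    by_cases hη : η ∈ badS P q m g (sc1 K) S N δ
    · rw [Set.indicator_of_mem hη]
      refine (abs_sub _ _).trans ?_
      have := hΛ η
      have := hΛ0 (Sh S φ η)
      show _ + |F (Sh S φ η)| ≤ _
      linarith
    · rw [Set.indicator_of_notMem hη]
      have h3 := loc_exact (s := sc1 K) hq hg hS hK hη K le_rfl
      rw [sc1_zero, sc1_K hK0] at h3
      have h4 : F (Sh S φ η) = Ψ (fwd P q η m (g 1 η) K) η := by
        show Ψ (fwd P q (Sh S φ η) m (g 0 (Sh S φ η)) K) (Sh S φ η) = _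
        rw [h3]
        exact hΨ _ _ _ fun u hu => Sh_out φ η hu
      rw [h4, sub_self, abs_zero]
  have i1 := iF _ hm1 hΛ
  have h3 : |∫ η, Ψ (fwd P q η m (g 1 η) K) η ∂(law μ) - ∫ η, F (Sh S φ η) ∂(law μ)| ≤
      2 * Λ * (law μ).real (badS P q m g (sc1 K) S N δ) := by
    rw [← integral_sub i1 j0]
    refine (abs_integral_le_integral_abs).trans ?_
    refine (integral_mono (i1.sub j0).abs ((integrable_const (2 * Λ)).indicator hbad) h2).trans (le_of_eq ?_)
    rw [integral_indicator_const _ hbad, smul_eq_mul]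
    ring
  have h4 : 4 * Real.exp (-(t * a)) * Real.exp (C * ((2 * t + 3) ^ 2 + 1) * (N.card * (D / K) ^ 2 + S.card * δ ^ 2)) *
      Real.sqrt (∫ η, F η ^ 2 ∂(law μ)) ≤
      4 * Real.exp (-(t * a)) * Real.exp (C * ((2 * t + 3) ^ 2 + 1) * (N.card * (D / K) ^ 2 + S.card * δ ^ 2)) * Λ :=
    mul_le_mul_of_nonneg_left hsq (by positivity)
  calc |∫ η, Ψ (fwd P q η m (g 1 η) K) η ∂(law μ) - ∫ η, F η ∂(law μ)|
      ≤ |∫ η, Ψ (fwd P q η m (g 1 η) K) η ∂(law μ) - ∫ η, F (Sh S φ η) ∂(law μ)| +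
        |∫ η, F (Sh S φ η) ∂(law μ) - ∫ η, F η ∂(law μ)| := abs_sub_le _ _ _
    _ ≤ _ := by linarith

end

end Pool.W7d29a1.C0.H7
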