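import Pool.Agent.W_7d29a1_C0.Box43

/-!
CURV0 (MP_7d29a1_pr), leaf E0: THE LOCALISED COMPARISON OF THE INTERPOLATED MEASURE WITH THE CORNER (helper7, letter 70561).

`k` replicas of the weights `W'` (tilted everywhere by `u`, `|u| ≤ M`) against the weights `W` (corner). For each tuple `b`
of boxes of the replicas (behind the slab) the complement is put into the tilt as a CONSTANT: `Wb b` = corner weights off
the neighbourhood `B b`, `exp (u + M)` times the corner weights on it. Then `rep W' ψ ≤ ∑ b, (box part under Wb b) + leak`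
(`rep_le_sum`), pointwise; with a transport of each `Wb b` to `W` (hypothesis `hT`) the sum over the boxes costs
`card ^ (1 - 1/p)` (`e0`). `LW.of_paths` = the case of path sums.
-/

set_option autoImplicit false

namespace Pool.W7d29a1.C0.H7

open Finset MeasureTheory Pool.W7d29a1.C0.H43
open scoped ENNReal

noncomputable section

theorem prod_split {κ : Type*} [DecidableEq κ] (T : Finset κ) (f l : κ → ℝ) (h0 : ∀ i ∈ T, 0 ≤ l i)
    (h1 : ∀ i ∈ T, l i ≤ f i) :
    ∏ i ∈ T, f i ≤ ∏ i ∈ T, (f i - l i) + ∑ i ∈ T, ∏ j ∈ T, (if j = i then l j else f j) := by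
  induction T using Finset.induction_on with
  | empty => simp
  | insert c T hc ih =>
    have ih' := ih (fun i hi => h0 i (mem_insert_of_mem hi)) (fun i hi => h1 i (mem_insert_of_mem hi))
    rw [prod_insert hc, prod_insert hc, sum_insert hc, prod_insert hc, if_pos rfl]
    have e1 : ∏ j ∈ T, (if j = c then l j else f j) = ∏ j ∈ T, f j :=
      prod_congr rfl fun j hj => if_neg (ne_of_mem_of_not_mem hj hc)
    have e2 : ∑ i ∈ T, ∏ j ∈ insert c T, (if j = i then l j else f j) =
        f c * ∑ i ∈ T, ∏ j ∈ T, (if j = i then l j else f j) := by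
      rw [mul_sum]
      refine sum_congr rfl fun i hi => ?_
      rw [prod_insert hc, if_neg (ne_of_mem_of_not_mem hi hc).symm]
    have hf0 : 0 ≤ f c := (h0 c (mem_insert_self _ _)).trans (h1 c (mem_insert_self _ _))
    have hl0 := h0 c (mem_insert_self _ _)
    have hl1 := h1 c (mem_insert_self _ _)
    have hA : 0 ≤ ∑ i ∈ T, ∏ j ∈ T, (if j = i then l j else f j) := sum_nonneg fun i _ => prod_nonneg fun j hj => by
      have a0 := h0 j (mem_insert_of_mem hj)
      have a1 := h1 j (mem_insert_of_mem hj)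
      split
      · exact a0
      · exact a0.trans a1
    rw [e1, e2]
    set F := ∏ i ∈ T, f i
    set A := ∏ i ∈ T, (f i - l i)
    set R := ∑ i ∈ T, ∏ j ∈ T, (if j = i then l j else f j)
    have h3 : (f c - l c) * F ≤ (f c - l c) * (A + R) := mul_le_mul_of_nonneg_left ih' (by linarith)
    have h4 : 0 ≤ l c * R := mul_nonneg hl0 hA
    nlinarith

theorem prod_one_out {k : ℕ} (i : Fin k) (A B : ℝ) (hB : B ≠ 0) :
    (∏ j : Fin k, (if j = i then A else B)) / B ^ k = A / B := by
  rw [← mul_prod_erase univ _ (mem_univ i), if_pos rfl]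
  have e : ∏ j ∈ univ.erase i, (if j = i then A else B) = B ^ (k - 1) := by
    rw [prod_congr rfl fun j hj => if_neg (ne_of_mem_erase hj), prod_const, card_erase_of_mem (mem_univ i), card_univ,
      Fintype.card_fin]
  have hk : k = (k - 1) + 1 := by
    have := i.pos
    omega
  rw [e]
  conv_lhs => rw [show B ^ k = B ^ (k - 1) * B by conv_lhs => rw [hk, pow_succ]]
  field_simp

variable {ι β : Type*} [DecidableEq β] {k : ℕ} {S : Finset ι} {M Λ : ℝ} {box : ι → β}

/-- The weights `W'` (tilted everywhere), `Wb b` (lifted tilt on the neighbourhood of the boxes `b`, corner off it), and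
the leak `lk i` (part of `W' i` which comes from outside the neighbourhood of the box of `i`). -/
structure LW (S : Finset ι) (box : ι → β) (k : ℕ) (M : ℝ) (W' : ι → ℝ) (Wb : (Fin k → β) → ι → ℝ) (lk : ι → ℝ) : Prop where
  nn : ∀ i ∈ S, 0 ≤ lk i
  lk_le : ∀ i ∈ S, lk i ≤ W' i
  nb : ∀ b, ∀ i ∈ S, 0 ≤ Wb b i
  up : ∀ b, ∀ i ∈ S, box i ∈ bx b → W' i ≤ Real.exp (-M) * Wb b i + lk i
  tt : ∀ b, ∀ i ∈ S, Wb b i ≤ Real.exp M * W' i
  pos : ∀ b, 0 < tot S (Wb b)

variable {W' : ι → ℝ} {Wb : (Fin k → β) → ι → ℝ} {lk : ι → ℝ}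

theorem LW.pos' (h : LW S box k M W' Wb lk) : 0 < tot S W' ∨ IsEmpty (Fin k → β) := by
  by_cases he : IsEmpty (Fin k → β)
  · exact Or.inr he
  · rw [not_isEmpty_iff] at he
    obtain ⟨b⟩ := he
    left
    have h1 : tot S (Wb b) ≤ Real.exp M * tot S W' := by
      unfold tot
      rw [mul_sum]
      exact sum_le_sum fun i hi => h.tt b i hi
    exact (pos_iff_pos_of_mul_pos ((h.pos b).trans_le h1)).1 (Real.exp_pos M)

/-- One tuple of boxes. -/
theorem LW.box_le (h : LW S box k M W' Wb lk) (hZ : 0 < tot S W') {ψ : (Fin k → ι) → ℝ} (h0 : ∀ x, 0 ≤ ψ x)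
    (hΛ : ∀ x, ψ x ≤ Λ) (b : Fin k → β) :
    nbox S W' box b ψ / tot S W' ^ k ≤ nbox S (Wb b) box b ψ / tot S (Wb b) ^ k +
      Λ * ((∑ x ∈ Fintype.piFinset (fun _ : Fin k => S) with (fun i => box (x i)) = b,
        ∑ i, ∏ j, (if j = i then lk (x j) else W' (x j))) / tot S W' ^ k) := by
  have hΛ0 : 0 ≤ Λ ∨ IsEmpty (Fin k → ι) := by
    by_cases he : IsEmpty (Fin k → ι)
    · exact Or.inr he
    · rw [not_isEmpty_iff] at he
      obtain ⟨x⟩ := he
      exact Or.inl ((h0 x).trans (hΛ x))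
  have hWn : ∀ i ∈ S, 0 ≤ W' i := fun i hi => (h.nn i hi).trans (h.lk_le i hi)
  have h1 : nbox S W' box b ψ ≤ Real.exp (-(k * M)) * nbox S (Wb b) box b ψ +
      Λ * ∑ x ∈ Fintype.piFinset (fun _ : Fin k => S) with (fun i => box (x i)) = b,
        ∑ i, ∏ j, (if j = i then lk (x j) else W' (x j)) := by
    unfold nbox
    rw [mul_sum, mul_sum, ← sum_add_distrib]
    refine sum_le_sum fun x hx => ?_
    have hx' := Fintype.mem_piFinset.1 (mem_filter.1 hx).1
    have hb : ∀ i, box (x i) ∈ bx b := fun i => by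
      have : box (x i) = b i := congrFun (mem_filter.1 hx).2 i
      rw [this]
      exact mem_image_of_mem b (mem_univ i)
    have h2 := prod_split univ (fun i => W' (x i)) (fun i => lk (x i)) (fun i _ => h.nn _ (hx' i))
      fun i _ => h.lk_le _ (hx' i)
    have h3 : ∏ i, (W' (x i) - lk (x i)) ≤ Real.exp (-(k * M)) * ∏ i, Wb b (x i) := by
      have e : Real.exp (-(k * M)) = ∏ _i : Fin k, Real.exp (-M) := by
        rw [prod_const, card_univ, Fintype.card_fin, ← Real.exp_nat_mul]
        ring_nf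
      rw [e, ← prod_mul_distrib]
      refine prod_le_prod (fun i _ => ?_) fun i _ => ?_
      · have := h.lk_le _ (hx' i)
        linarith
      · have := h.up b _ (hx' i) (hb i)
        linarith
    have h4 : 0 ≤ ∑ i : Fin k, ∏ j, (if j = i then lk (x j) else W' (x j)) := sum_nonneg fun i _ => prod_nonneg fun j _ => by
      split
      · exact h.nn _ (hx' j)
      · exact hWn _ (hx' j)
    calc (∏ i, W' (x i)) * ψ x ≤ (Real.exp (-(k * M)) * ∏ i, Wb b (x i) +
          ∑ i : Fin k, ∏ j, (if j = i then lk (x j) else W' (x j))) * ψ x :=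
          mul_le_mul_of_nonneg_right (h2.trans (by linarith)) (h0 x)
      _ ≤ _ := by
          have := mul_le_mul_of_nonneg_left (hΛ x) h4
          linarith
  have hY := h.pos b
  have hle : tot S (Wb b) ≤ Real.exp M * tot S W' := by
    unfold tot
    rw [mul_sum]
    exact sum_le_sum fun i hi => h.tt b i hi
  have hnb := nbox_nn (p := box) (h.nb b) b h0
  have h5 : Real.exp (-(k * M)) * nbox S (Wb b) box b ψ / tot S W' ^ k ≤ nbox S (Wb b) box b ψ / tot S (Wb b) ^ k := by
    rw [div_le_div_iff₀ (pow_pos hZ _) (pow_pos hY _)]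
    have h6 : tot S (Wb b) ^ k ≤ Real.exp (k * M) * tot S W' ^ k := by
      rw [Real.exp_nat_mul, ← mul_pow]
      exact pow_le_pow_left₀ hY.le hle k
    calc Real.exp (-(k * M)) * nbox S (Wb b) box b ψ * tot S (Wb b) ^ k
        ≤ Real.exp (-(k * M)) * nbox S (Wb b) box b ψ * (Real.exp (k * M) * tot S W' ^ k) :=
          mul_le_mul_of_nonneg_left h6 (mul_nonneg (Real.exp_pos _).le hnb)
      _ = (Real.exp (-(k * M)) * Real.exp (k * M)) * (nbox S (Wb b) box b ψ * tot S W' ^ k) := by ring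
      _ = nbox S (Wb b) box b ψ * tot S W' ^ k := by
          rw [← Real.exp_add, neg_add_cancel, Real.exp_zero, one_mul]
  calc nbox S W' box b ψ / tot S W' ^ k ≤ (Real.exp (-(k * M)) * nbox S (Wb b) box b ψ +
        Λ * ∑ x ∈ Fintype.piFinset (fun _ : Fin k => S) with (fun i => box (x i)) = b,
          ∑ i, ∏ j, (if j = i then lk (x j) else W' (x j))) / tot S W' ^ k :=
        div_le_div_of_nonneg_right h1 (pow_pos hZ _).le
    _ = Real.exp (-(k * M)) * nbox S (Wb b) box b ψ / tot S W' ^ k +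
        Λ * ((∑ x ∈ Fintype.piFinset (fun _ : Fin k => S) with (fun i => box (x i)) = b,
          ∑ i, ∏ j, (if j = i then lk (x j) else W' (x j))) / tot S W' ^ k) := by ring
    _ ≤ _ := by linarith

theorem sum_one_out (i : Fin k) (f g : ι → ℝ) :
    ∑ x ∈ Fintype.piFinset (fun _ : Fin k => S), ∏ j, (if j = i then f (x j) else g (x j)) =
      ∏ j : Fin k, (if j = i then ∑ s ∈ S, f s else ∑ s ∈ S, g s) := by
  have := Finset.prod_univ_sum (fun _ : Fin k => S) (fun (j : Fin k) (s : ι) => if j = i then f s else g s)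
  rw [← this]
  refine prod_congr rfl fun j _ => ?_
  split <;> rfl

/-- **The pointwise comparison**: the complement enters as a constant. -/
theorem LW.rep_le (h : LW S box k M W' Wb lk) (hZ : 0 < tot S W') {ψ : (Fin k → ι) → ℝ} (h0 : ∀ x, 0 ≤ ψ x)
    (hΛ : ∀ x, ψ x ≤ Λ) :
    rep S W' ψ ≤ ∑ b ∈ bxs S box k, nbox S (Wb b) box b ψ / tot S (Wb b) ^ k +
      Λ * k * ((∑ i ∈ S, lk i) / tot S W') := by
  have e1 : rep S W' ψ = ∑ b ∈ bxs S box k, nbox S W' box b ψ / tot S W' ^ k := by
    rw [rep, ← sum_nbox (p := box), sum_div]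
  rw [e1]
  refine (sum_le_sum fun b _ => h.box_le hZ h0 hΛ b).trans ?_
  rw [sum_add_distrib]
  refine add_le_add le_rfl (le_of_eq ?_)
  rw [← mul_sum, ← sum_div]
  have e2 : ∑ b ∈ bxs S box k, ∑ x ∈ Fintype.piFinset (fun _ : Fin k => S) with (fun i => box (x i)) = b,
      ∑ i : Fin k, ∏ j, (if j = i then lk (x j) else W' (x j)) =
      ∑ x ∈ Fintype.piFinset (fun _ : Fin k => S), ∑ i : Fin k, ∏ j, (if j = i then lk (x j) else W' (x j)) := by
    refine sum_fiberwise_of_maps_to (fun x hx => ?_) _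
    unfold bxs
    rw [Fintype.mem_piFinset] at hx ⊢
    exact fun i => mem_image_of_mem box (hx i)
  rw [e2, sum_comm, sum_div]
  have e3 : ∀ i : Fin k, (∑ x ∈ Fintype.piFinset (fun _ : Fin k => S), ∏ j, (if j = i then lk (x j) else W' (x j))) /
      tot S W' ^ k = (∑ s ∈ S, lk s) / tot S W' := fun i => by
    rw [sum_one_out]
    exact prod_one_out i _ _ hZ.ne'
  rw [sum_congr rfl fun i _ => e3 i, sum_const, card_univ, Fintype.card_fin, nsmul_eq_mul]
  ring

/-! ### Path sums -/

/-- Marginal weights of the data `p` (behind the slab) under the path weights `v`. -/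
def marg {X : Type*} [Fintype X] [DecidableEq ι] (p : X → ι) (v : X → ℝ) (y : ι) : ℝ := ∑ x with p x = y, v x

/-- **The case of path sums**: paths `X`, data `p` behind the slab, position `c` before the slab, box `box (p x)` behind,
neighbourhood `nb` (positions before the slab) of a box; corner log weights `w`, tilt `u`, `|u| ≤ M`. -/
theorem LW.of_paths {X κ : Type*} [Fintype X] [DecidableEq ι] [DecidableEq κ] (p : X → ι) (c : X → κ) (nb : β → Finset κ)
    {w u : X → ℝ} (hu : ∀ x, |u x| ≤ M) (hX : ∀ x, p x ∈ S) [Nonempty X] :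
    LW S box k M (marg p fun x => Real.exp (w x + u x))
      (fun b => marg p fun x => if c x ∈ (bx b).biUnion nb then Real.exp (w x + (u x + M)) else Real.exp (w x))
      (fun y => ∑ x with p x = y ∧ c x ∉ nb (box y), Real.exp (w x + u x)) where
  nn i _ := sum_nonneg fun x _ => (Real.exp_pos _).le
  lk_le i _ := by
    unfold marg
    refine sum_le_sum_of_subset_of_nonneg (fun x hx => ?_) fun x _ _ => (Real.exp_pos _).le
    rw [mem_filter] at hx ⊢
    exact ⟨hx.1, hx.2.1⟩
  nb b i _ := sum_nonneg fun x _ => by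
    split <;> exact (Real.exp_pos _).le
  up b i hi hb := by
    unfold marg
    rw [mul_sum, ← sum_filter_add_sum_filter_not (univ.filter fun x => p x = i) (fun x => c x ∈ nb (box i))]
    refine add_le_add ?_ (le_of_eq ?_)
    · refine (sum_le_sum (g := fun x => Real.exp (-M) * (if c x ∈ (bx b).biUnion nb then Real.exp (w x + (u x + M)) else
        Real.exp (w x))) fun x hx => ?_).trans ?_
      · have h1 : c x ∈ (bx b).biUnion nb := mem_biUnion.2 ⟨_, hb, (mem_filter.1 hx).2⟩
        rw [if_pos h1, ← Real.exp_add]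
        exact Real.exp_le_exp.2 (by linarith)
      · refine sum_le_sum_of_subset_of_nonneg (filter_subset _ _) fun x _ _ => mul_nonneg (Real.exp_pos _).le ?_
        split <;> exact (Real.exp_pos _).le
    · rw [filter_filter]
  tt b i _ := by
    unfold marg
    rw [mul_sum]
    refine sum_le_sum fun x _ => ?_
    have h1 := abs_le.1 (hu x)
    split
    · rw [← Real.exp_add]
      exact Real.exp_le_exp.2 (by linarith)
    · rw [← Real.exp_add]
      exact Real.exp_le_exp.2 (by linarith)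
  pos b := by
    unfold tot marg
    obtain ⟨x0⟩ := ‹Nonempty X›
    refine lt_of_lt_of_le ?_ (single_le_sum (f := fun y => ∑ x with p x = y,
      (if c x ∈ (bx b).biUnion nb then Real.exp (w x + (u x + M)) else Real.exp (w x))) (fun y _ => sum_nonneg fun x _ => by
        split <;> exact (Real.exp_pos _).le) (hX x0))
    refine sum_pos (fun x _ => by split <;> exact Real.exp_pos _) ⟨x0, mem_filter.2 ⟨mem_univ _, rfl⟩⟩

/-- **The case of path sums, any nonnegative weights** (for instance with the indicator of the paths which pass a cone):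
corner weights `v`, tilted weights `v'`, within a factor `exp M`. -/
theorem LW.of_weights {X κ : Type*} [Fintype X] [DecidableEq ι] [DecidableEq κ] (p : X → ι) (c : X → κ) (nb : β → Finset κ)
    {v v' : X → ℝ} (hM : 0 ≤ M) (h0 : ∀ x, 0 ≤ v x)
    (hlo : ∀ x, v x ≤ Real.exp M * v' x) (hX : ∀ x, p x ∈ S) (hpos : 0 < ∑ x, v x) :
    LW S box k M (marg p v')
      (fun b => marg p fun x => if c x ∈ (bx b).biUnion nb then Real.exp M * v' x else v x)
      (fun y => ∑ x with p x = y ∧ c x ∉ nb (box y), v' x) := by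
  have h0' : ∀ x, 0 ≤ v' x := fun x => nonneg_of_mul_nonneg_right ((h0 x).trans (hlo x)) (Real.exp_pos M)
  have hi : ∀ b x, 0 ≤ (if c x ∈ (bx (k := k) b).biUnion nb then Real.exp M * v' x else v x) := fun b x => by
    split
    · exact mul_nonneg (Real.exp_pos _).le (h0' x)
    · exact h0 x
  have htot : ∀ f : X → ℝ, tot S (marg p f) = ∑ x, f x := fun f => by
    unfold tot marg
    exact sum_fiberwise_of_maps_to (fun x _ => hX x) _
  refine ⟨fun i _ => sum_nonneg fun x _ => h0' x, fun i _ => ?_, fun b i _ => sum_nonneg fun x _ => hi b x,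
    fun b i hi' hb => ?_, fun b i _ => ?_, fun b => ?_⟩
  · unfold marg
    refine sum_le_sum_of_subset_of_nonneg (fun x hx => ?_) fun x _ _ => h0' x
    rw [mem_filter] at hx ⊢
    exact ⟨hx.1, hx.2.1⟩
  · unfold marg
    rw [mul_sum, ← sum_filter_add_sum_filter_not (univ.filter fun x => p x = i) (fun x => c x ∈ nb (box i))]
    refine add_le_add ?_ (le_of_eq ?_)
    · refine (sum_le_sum (g := fun x => Real.exp (-M) * (if c x ∈ (bx b).biUnion nb then Real.exp M * v' x else v x))
        fun x hx => ?_).trans ?_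
      · have h1 : c x ∈ (bx b).biUnion nb := mem_biUnion.2 ⟨_, hb, (mem_filter.1 hx).2⟩
        rw [if_pos h1, ← mul_assoc, ← Real.exp_add, neg_add_cancel, Real.exp_zero, one_mul]
      · exact sum_le_sum_of_subset_of_nonneg (filter_subset _ _) fun x _ _ => mul_nonneg (Real.exp_pos _).le (hi b x)
    · rw [filter_filter]
  · unfold marg
    rw [mul_sum]
    refine sum_le_sum fun x _ => ?_
    split
    · exact le_rfl
    · exact hlo x
  · rw [htot]
    refine lt_of_lt_of_le (mul_pos (Real.exp_pos (-M)) hpos) ?_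
    rw [mul_sum]
    have h1 : Real.exp (-M) ≤ 1 := Real.exp_le_one_iff.2 (by linarith)
    refine sum_le_sum fun x _ => ?_
    split
    · have h2 := mul_le_mul_of_nonneg_left (hlo x) (Real.exp_pos (-M)).le
      have h3 : Real.exp (-M) * (Real.exp M * v' x) = v' x := by
        rw [← mul_assoc, ← Real.exp_add, neg_add_cancel, Real.exp_zero, one_mul]
      have h4 : v' x ≤ Real.exp M * v' x := by
        have := Real.one_le_exp hM
        nlinarith [h0' x]
      linarith
    · nlinarith [h0 x]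

theorem tot_marg {X : Type*} [Fintype X] [DecidableEq ι] {p : X → ι} (hX : ∀ x, p x ∈ S) (f : X → ℝ) :
    tot S (marg p f) = ∑ x, f x := by
  unfold tot marg
  exact sum_fiberwise_of_maps_to (fun x _ => hX x) _

/-- The replica average over paths of a function of the data `p` = the replica average of the marginal weights. -/
theorem nrep_marg {X : Type*} [Fintype X] [DecidableEq ι] {p : X → ι} (hX : ∀ x, p x ∈ S) (v : X → ℝ)
    (ψ : (Fin k → ι) → ℝ) :
    nrep S (marg p v) ψ = ∑ x : Fin k → X, (∏ i, v (x i)) * ψ fun i => p (x i) := by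
  classical
  unfold nrep
  have h1 : ∑ x : Fin k → X, (∏ i, v (x i)) * ψ (fun i => p (x i)) =
      ∑ y ∈ Fintype.piFinset (fun _ : Fin k => S), ∑ x : Fin k → X with (fun i => p (x i)) = y,
        (∏ i, v (x i)) * ψ (fun i => p (x i)) := by
    refine (sum_fiberwise_of_maps_to (fun x _ => ?_) _).symm
    rw [Fintype.mem_piFinset]
    exact fun i => hX _
  rw [h1]
  refine sum_congr rfl fun y _ => ?_
  have h2 : ∑ x : Fin k → X with (fun i => p (x i)) = y, (∏ i, v (x i)) * ψ (fun i => p (x i)) =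
      (∑ x : Fin k → X with (fun i => p (x i)) = y, ∏ i, v (x i)) * ψ y := by
    rw [sum_mul]
    exact sum_congr rfl fun x hx => by rw [(mem_filter.1 hx).2]
  rw [h2]
  congr 1
  unfold marg
  have h3 := Finset.prod_univ_sum (fun i : Fin k => univ.filter fun x : X => p x = y i) (fun _ x => v x)
  rw [h3]
  refine sum_congr ?_ fun _ _ => rfl
  ext x
  simp only [Fintype.mem_piFinset, mem_filter, mem_univ, true_and]
  exact ⟨fun h => funext h, fun h i => congrFun h i⟩

/-- Restriction of all the replicas to a subset of the paths (indicator `ι0`): upper bound. -/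
theorem rep_restrict {X : Type*} [Fintype X] (v : X → ℝ) (h0 : ∀ x, 0 ≤ v x) (E : X → Prop) [DecidablePred E]
    (hZ : 0 < ∑ x, if E x then v x else 0) {Ψ : (Fin k → X) → ℝ} (hΨ0 : ∀ x, 0 ≤ Ψ x) (hΨ : ∀ x, Ψ x ≤ Λ) :
    (∑ x : Fin k → X, (∏ i, v (x i)) * Ψ x) / (∑ x, v x) ^ k ≤
      (∑ x : Fin k → X, (∏ i, if E (x i) then v (x i) else 0) * Ψ x) / (∑ x, if E x then v x else 0) ^ k +
        Λ * k * ((∑ x, if E x then 0 else v x) / ∑ x, v x) := by
  classical
  have hsum : ∑ x, v x = (∑ x, if E x then v x else 0) + ∑ x, if E x then 0 else v x := by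
    rw [← sum_add_distrib]
    exact sum_congr rfl fun x _ => by split <;> simp
  have hoff : 0 ≤ ∑ x, (if E x then 0 else v x) := sum_nonneg fun x _ => by
    split
    · exact le_rfl
    · exact h0 x
  have hV : 0 < ∑ x, v x := by rw [hsum]; linarith
  have hin : ∀ x, 0 ≤ (if E x then v x else 0) := fun x => by
    split
    · exact h0 x
    · exact le_rfl
  have h1 : ∀ x : Fin k → X, ∏ i, v (x i) ≤ ∏ i, (if E (x i) then v (x i) else 0) +
      ∑ i, ∏ j, (if j = i then (if E (x j) then 0 else v (x j)) else v (x j)) := fun x => by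
    have := prod_split univ (fun i => v (x i)) (fun i => if E (x i) then 0 else v (x i)) (fun i _ => by
      split
      · exact le_rfl
      · exact h0 _) fun i _ => by
      split
      · exact h0 _
      · exact le_rfl
    refine this.trans (add_le_add (le_of_eq ?_) le_rfl)
    refine prod_congr rfl fun i _ => ?_
    split <;> simp
  have h2 : ∀ x : Fin k → X, 0 ≤ ∑ i, ∏ j, (if j = i then (if E (x j) then 0 else v (x j)) else v (x j)) := fun x =>
    sum_nonneg fun i _ => prod_nonneg fun j _ => by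
      split
      · split
        · exact le_rfl
        · exact h0 _
      · exact h0 _
  have h3 : ∑ x : Fin k → X, (∏ i, v (x i)) * Ψ x ≤ ∑ x : Fin k → X, (∏ i, if E (x i) then v (x i) else 0) * Ψ x +
      Λ * ∑ x : Fin k → X, ∑ i, ∏ j, (if j = i then (if E (x j) then 0 else v (x j)) else v (x j)) := by
    rw [mul_sum, ← sum_add_distrib]
    refine sum_le_sum fun x _ => ?_
    have a1 := mul_le_mul_of_nonneg_right (h1 x) (hΨ0 x)
    have a2 := mul_le_mul_of_nonneg_right (hΨ x) (h2 x)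
    nlinarith
  have h4 : (∑ x : Fin k → X, ∑ i, ∏ j, (if j = i then (if E (x j) then 0 else v (x j)) else v (x j))) / (∑ x, v x) ^ k =
      k * ((∑ x, if E x then 0 else v x) / ∑ x, v x) := by
    rw [sum_comm, sum_div]
    have : ∀ i : Fin k, (∑ x : Fin k → X, ∏ j, (if j = i then (if E (x j) then 0 else v (x j)) else v (x j))) /
        (∑ x, v x) ^ k = (∑ x, if E x then 0 else v x) / ∑ x, v x := fun i => by
      have e := sum_one_out (S := (univ : Finset X)) (k := k) i (fun x => if E x then 0 else v x) v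
      rw [Fintype.piFinset_univ] at e
      rw [e]
      exact prod_one_out i _ _ hV.ne'
    rw [sum_congr rfl fun i _ => this i, sum_const, card_univ, Fintype.card_fin, nsmul_eq_mul]
  calc (∑ x : Fin k → X, (∏ i, v (x i)) * Ψ x) / (∑ x, v x) ^ k
      ≤ (∑ x : Fin k → X, (∏ i, if E (x i) then v (x i) else 0) * Ψ x +
        Λ * ∑ x : Fin k → X, ∑ i, ∏ j, (if j = i then (if E (x j) then 0 else v (x j)) else v (x j))) / (∑ x, v x) ^ k :=
        div_le_div_of_nonneg_right h3 (pow_pos hV _).le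
    _ = (∑ x : Fin k → X, (∏ i, if E (x i) then v (x i) else 0) * Ψ x) / (∑ x, v x) ^ k +
        Λ * k * ((∑ x, if E x then 0 else v x) / ∑ x, v x) := by
        rw [add_div, mul_div_assoc Λ, h4]
        ring
    _ ≤ _ := by
        refine add_le_add ?_ le_rfl
        refine div_le_div_of_nonneg_left ?_ (pow_pos hZ _) ?_
        · exact sum_nonneg fun x _ => mul_nonneg (prod_nonneg fun i _ => hin _) (hΨ0 x)
        · exact pow_le_pow_left₀ hZ.le (by rw [hsum]; linarith) k

/-- Restriction, lower bound: the restricted average is at most `(V / V_E) ^ k` times the full one. -/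
theorem restrict_le {X : Type*} [Fintype X] (v : X → ℝ) (h0 : ∀ x, 0 ≤ v x) (E : X → Prop) [DecidablePred E]
    (hZ : 0 < ∑ x, if E x then v x else 0) {Ψ : (Fin k → X) → ℝ} (hΨ0 : ∀ x, 0 ≤ Ψ x) {θ : ℝ}
    (hθ : ∑ x, v x ≤ θ * ∑ x, if E x then v x else 0) :
    (∑ x : Fin k → X, (∏ i, if E (x i) then v (x i) else 0) * Ψ x) / (∑ x, if E x then v x else 0) ^ k ≤
      θ ^ k * ((∑ x : Fin k → X, (∏ i, v (x i)) * Ψ x) / (∑ x, v x) ^ k) := by
  have hin : ∀ x, 0 ≤ (if E x then v x else 0) := fun x => by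
    split
    · exact h0 x
    · exact le_rfl
  have hle : ∀ x, (if E x then v x else 0) ≤ v x := fun x => by
    split
    · exact le_rfl
    · exact h0 x
  have hV : 0 < ∑ x, v x := hZ.trans_le (sum_le_sum fun x _ => hle x)
  have h1 : ∑ x : Fin k → X, (∏ i, if E (x i) then v (x i) else 0) * Ψ x ≤ ∑ x : Fin k → X, (∏ i, v (x i)) * Ψ x :=
    sum_le_sum fun x _ => mul_le_mul_of_nonneg_right (prod_le_prod (fun i _ => hin _) fun i _ => hle _) (hΨ0 x)
  have h2 : 0 ≤ ∑ x : Fin k → X, (∏ i, v (x i)) * Ψ x := sum_nonneg fun x _ =>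
    mul_nonneg (prod_nonneg fun i _ => h0 _) (hΨ0 x)
  rw [div_le_iff₀ (pow_pos hZ _), ← mul_div_assoc, div_mul_eq_mul_div, le_div_iff₀ (pow_pos hV _)]
  have h3 : (∑ x, v x) ^ k ≤ θ ^ k * (∑ x, if E x then v x else 0) ^ k := by
    rw [← mul_pow]
    exact pow_le_pow_left₀ hV.le hθ k
  calc (∑ x : Fin k → X, (∏ i, if E (x i) then v (x i) else 0) * Ψ x) * (∑ x, v x) ^ k
      ≤ (∑ x : Fin k → X, (∏ i, v (x i)) * Ψ x) * (θ ^ k * (∑ x, if E x then v x else 0) ^ k) :=
        mul_le_mul h1 h3 (pow_pos hV _).le h2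
    _ = _ := by ring

/-! ### Over the environment -/

/-- **E0**: the interpolated measure against the corner, all `k`-replica functions behind the slab (passenger form:
`ψ` under the tilted weights, `ψ'` under the corner weights). -/
theorem e0 {Ω : Type*} [MeasurableSpace Ω] (Pm : Measure Ω) (W W' : Ω → ι → ℝ) (Wb : Ω → (Fin k → β) → ι → ℝ)
    (lk : Ω → ι → ℝ) (ψ ψ' : Ω → (Fin k → ι) → ℝ) {p : ℝ} (hp : 1 ≤ p) (h : ∀ ω, LW S box k M (W' ω) (Wb ω) (lk ω))
    (hZ : ∀ ω, 0 < tot S (W' ω)) (h0 : ∀ ω x, 0 ≤ ψ ω x) (hΛ : ∀ ω x, ψ ω x ≤ Λ) (hWn : ∀ ω, ∀ i ∈ S, 0 ≤ W ω i)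
    (h0' : ∀ ω x, 0 ≤ ψ' ω x)
    (hm : ∀ b ∈ bxs S box k, Measurable fun ω => nbox S (Wb ω b) box b (ψ ω) / tot S (Wb ω b) ^ k)
    (hm' : ∀ b ∈ bxs S box k, Measurable fun ω => nbox S (W ω) box b (ψ' ω) / tot S (W ω) ^ k)
    {A : ℝ≥0∞} {e : (Fin k → β) → ℝ≥0∞}
    (hT : ∀ b ∈ bxs S box k, ∫⁻ ω, ENNReal.ofReal (nbox S (Wb ω b) box b (ψ ω) / tot S (Wb ω b) ^ k) ∂Pm ≤
      A * (∫⁻ ω, ENNReal.ofReal (nbox S (W ω) box b (ψ' ω) / tot S (W ω) ^ k) ^ p ∂Pm) ^ (1 / p) + e b) :
    ∫⁻ ω, ENNReal.ofReal (rep S (W' ω) (ψ ω)) ∂Pm ≤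
      A * (((bxs S box k).card : ℝ≥0∞) ^ (1 - 1 / p) * (∫⁻ ω, ENNReal.ofReal (rep S (W ω) (ψ' ω)) ^ p ∂Pm) ^ (1 / p)) +
      ∑ b ∈ bxs S box k, e b + ∫⁻ ω, ENNReal.ofReal (Λ * k * ((∑ i ∈ S, lk ω i) / tot S (W' ω))) ∂Pm := by
  have h1 : ∀ ω, ENNReal.ofReal (rep S (W' ω) (ψ ω)) ≤
      ∑ b ∈ bxs S box k, ENNReal.ofReal (nbox S (Wb ω b) box b (ψ ω) / tot S (Wb ω b) ^ k) +
        ENNReal.ofReal (Λ * k * ((∑ i ∈ S, lk ω i) / tot S (W' ω))) := fun ω => by
    refine (ENNReal.ofReal_le_ofReal ((h ω).rep_le (hZ ω) (h0 ω) (hΛ ω))).trans ?_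
    refine ENNReal.ofReal_add_le.trans (add_le_add ?_ le_rfl)
    rw [ENNReal.ofReal_sum_of_nonneg fun b _ => div_nonneg (nbox_nn ((h ω).nb b) b (h0 ω)) (pow_pos ((h ω).pos b) _).le]
  have hms : Measurable fun ω => ∑ b ∈ bxs S box k, ENNReal.ofReal (nbox S (Wb ω b) box b (ψ ω) / tot S (Wb ω b) ^ k) :=
    Finset.measurable_sum _ fun b hb => (hm b hb).ennreal_ofReal
  refine (lintegral_mono h1).trans ?_
  rw [lintegral_add_left hms, lintegral_finsetSum _ fun b hb => (hm b hb).ennreal_ofReal]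
  refine add_le_add ?_ le_rfl
  refine (sum_le_sum hT).trans ?_
  rw [sum_add_distrib, ← mul_sum]
  refine add_le_add ?_ le_rfl
  refine mul_le_mul_right ?_ _
  refine (sum_norm_le Pm _ _ (fun b hb => (hm' b hb).ennreal_ofReal.aemeasurable) hp).trans ?_
  refine mul_le_mul_right ?_ _
  refine ENNReal.rpow_le_rpow (lintegral_mono fun ω => ?_) (by positivity)
  refine ENNReal.rpow_le_rpow ?_ (by linarith)
  rw [← ENNReal.ofReal_sum_of_nonneg fun b _ => div_nonneg (nbox_nn (hWn ω) b (h0' ω)) (pow_nonneg (tot_nn (hWn ω)) _)]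
  refine ENNReal.ofReal_le_ofReal ?_
  rw [rep, ← sum_nbox (p := box), sum_div]

/-- The number of tuples of boxes. -/
theorem card_bxs_le (S : Finset ι) (box : ι → β) (k : ℕ) : (bxs S box k).card ≤ S.card ^ k := by
  unfold bxs
  rw [Fintype.card_piFinset, prod_const, card_univ, Fintype.card_fin]
  exact Nat.pow_le_pow_left card_image_le k

end

end Pool.W7d29a1.C0.H7
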