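import Pool.Agent.W_7d29a1_C0.Trans27B
import Pool.Agent.W_7d29a1_C0.Mod92B
import Pool.Agent.W_7d29a1_C0.Loc7
import Pool.Agent.W_7d29a1_C0.Loc7B

/-!
CURV0 (MP_7d29a1_pr), leaf E0: THE INTERPOLATED MEASURE AGAINST THE CORNER, localised, in the frame of Mod92 (helper7).

`e0_mod7`: the `k`-replica average of `Ψ ≥ 0` (a function of what the replicas do behind the slab) under the weights tilted
in front of the slab by `U`, `|U| ≤ M`, against the average of `Ψ'` at the corner. The exact field of helper27 is used at the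
cone sites only (switched off elsewhere, clipped off the neighbourhood of the boxes), the complement of the boxes enters as a
constant (Loc7B).
-/

set_option autoImplicit false

namespace Pool.W7d29a1.C0.H7

open Finset MeasureTheory Pool.Agent.W_7d29a1_F Pool.Agent.W_7d29a1_X Pool.Agent.W_7d29a1_C0.Mod92
  Pool.Agent.W_7d29a1_C0.H32 Pool.W7d29a1.C0.H27
open scoped ENNReal

noncomputable section

/-! ### The boxes for replica averages -/

section Boxes

variable {X : Type*} [Fintype X] {k : ℕ}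

theorem rep_conv [Nonempty X] (v : X → ℝ) (Ψ : (Fin k → X) → ℝ) :
    H43.rep univ (fun x => Real.exp (v x)) Ψ = rep k v Ψ := by
  unfold H43.rep H43.nrep H43.tot rep gz
  rw [Fintype.piFinset_univ]
  congr 1
  exact sum_congr rfl fun x _ => by rw [Real.exp_sum]

theorem nbox_conv [Nonempty X] {β : Type*} [DecidableEq β] (v : X → ℝ) (box : X → β) (b : Fin k → β)
    (Ψ : (Fin k → X) → ℝ) :
    H43.nbox univ (fun x => Real.exp (v x)) box b Ψ / H43.tot univ (fun x => Real.exp (v x)) ^ k =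
      rep k v fun x => if (fun i => box (x i)) = b then Ψ x else 0 := by
  rw [← rep_conv]
  unfold H43.rep
  congr 1
  unfold H43.nbox H43.nrep
  rw [sum_filter]
  exact sum_congr rfl fun x _ => by by_cases hh : (fun i => box (x i)) = b <;> simp [hh]

/-- **The boxes**: the average under the tilt `u` by the averages under the local tilts `u + M` on the neighbourhoods. -/
theorem boxes7 [Nonempty X] {β κ : Type*} [DecidableEq β] [DecidableEq κ] (w u : X → ℝ) {M Λ : ℝ} (hu : ∀ x, |u x| ≤ M)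
    (c : X → κ) (box : X → β) (nb : β → Finset κ) {Ψ : (Fin k → X) → ℝ} (h0 : ∀ x, 0 ≤ Ψ x) (hΛ : ∀ x, Ψ x ≤ Λ) :
    rep k (fun x => w x + u x) Ψ ≤
      ∑ b ∈ H43.bxs univ box k, rep k (fun x => w x + (if c x ∈ (H43.bx b).biUnion nb then u x + M else 0))
        (fun x => if (fun i => box (x i)) = b then Ψ x else 0) +
      Λ * k * gm (fun x => w x + u x) (fun x => if c x ∈ nb (box x) then 0 else 1) := by
  classical
  have hL : LW univ box k M (fun x => Real.exp (w x + u x))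
      (fun b x => Real.exp (w x + (if c x ∈ (H43.bx b).biUnion nb then u x + M else 0)))
      (fun x => if c x ∈ nb (box x) then 0 else Real.exp (w x + u x)) := by
    refine ⟨fun x _ => ?_, fun x _ => ?_, fun b x _ => (Real.exp_pos _).le, fun b x _ hb => ?_, fun b x _ => ?_, fun b => ?_⟩
    · split
      · exact le_rfl
      · exact (Real.exp_pos _).le
    · split
      · exact (Real.exp_pos _).le
      · exact le_rfl
    · by_cases hc : c x ∈ nb (box x)
      · have h1 : c x ∈ (H43.bx b).biUnion nb := mem_biUnion.2 ⟨_, hb, hc⟩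
        rw [if_pos h1, if_pos hc, add_zero, ← Real.exp_add]
        exact Real.exp_le_exp.2 (by linarith)
      · rw [if_neg hc]
        exact le_add_of_nonneg_left (mul_nonneg (Real.exp_pos _).le (Real.exp_pos _).le)
    · have h1 := abs_le.1 (hu x)
      rw [← Real.exp_add]
      refine Real.exp_le_exp.2 ?_
      split
      · linarith
      · linarith
    · exact sum_pos (fun x _ => Real.exp_pos _) univ_nonempty
  have hZ : 0 < H43.tot univ (fun x => Real.exp (w x + u x)) := sum_pos (fun x _ => Real.exp_pos _) univ_nonempty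
  have h1 := hL.rep_le hZ h0 hΛ
  rw [rep_conv] at h1
  refine h1.trans (add_le_add (le_of_eq (sum_congr rfl fun b _ => nbox_conv _ _ _ _)) (le_of_eq ?_))
  congr 1
  unfold gm gz H43.tot
  congr 1
  exact sum_congr rfl fun x _ => by by_cases hh : c x ∈ nb (box x) <;> simp [hh]

end Boxes

/-! ### The near sites -/

/-- The positions in front of the slab which are near the straight line from `(c + K, z)`. -/
def nbC (c K : ℕ) (σ R : ℝ) (z : ℤ) : Finset ℤ := (Icc (0 : ℤ) c).filter fun x => |((z : ℝ) - x - σ * K)| ≤ R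

open Classical in
/-- The sites of the slab near one of the lines into the points `b i` of the row `c + K`. -/
def nearS {k : ℕ} (c K : ℕ) (σ R : ℝ) (b : Fin k → ℤ) : Finset Pt :=
  (slb c K).filter fun p => ∃ i, |(p.2 : ℝ) - b i + σ * ((c : ℝ) + K - p.1)| ≤ 2 * R

theorem card_ball {x r : ℝ} (hr : 0 ≤ r) (T : Finset ℤ) (hT : ∀ z ∈ T, |(z : ℝ) - x| ≤ r) : (T.card : ℝ) ≤ 2 * r + 1 := by
  have h1 : T ⊆ Icc ⌈x - r⌉ ⌊x + r⌋ := fun z hz => by
    have h2 := abs_le.1 (hT z hz)
    rw [mem_Icc]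
    exact ⟨Int.ceil_le.2 (by linarith), Int.le_floor.2 (by linarith)⟩
  have h2 := card_le_card h1
  rw [Int.card_Icc] at h2
  have h3 : ((⌊x + r⌋ + 1 - ⌈x - r⌉).toNat : ℝ) ≤ 2 * r + 1 := by
    have h4 : (((⌊x + r⌋ + 1 - ⌈x - r⌉).toNat : ℤ) : ℝ) ≤ 2 * r + 1 := by
      rw [Int.toNat_eq_max]
      rw [Int.cast_max]
      refine max_le ?_ (by push_cast; linarith)
      push_cast
      have h5 := Int.floor_le (x + r)
      have h6 := Int.le_ceil (x - r)
      linarith
    exact_mod_cast h4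
  exact (by exact_mod_cast h2 : (T.card : ℝ) ≤ _).trans h3

theorem card_nearS {k : ℕ} (c K : ℕ) {σ R : ℝ} (hR : 0 ≤ R) (b : Fin k → ℤ) :
    ((nearS c K σ R b).card : ℝ) ≤ k * K * (4 * R + 1) := by
  classical
  have h1 : nearS c K σ R b ⊆ (univ : Finset (Fin k)).biUnion fun i => (Ioc (c : ℤ) (c + K)).biUnion fun m =>
      (((slb c K).filter fun p => p.1 = m ∧ |(p.2 : ℝ) - b i + σ * ((c : ℝ) + K - p.1)| ≤ 2 * R)) := fun p hp => by
    obtain ⟨h2, i, h3⟩ := mem_filter.1 hp
    refine mem_biUnion.2 ⟨i, mem_univ _, mem_biUnion.2 ⟨p.1, ?_, mem_filter.2 ⟨h2, rfl, h3⟩⟩⟩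
    exact mem_Ioc.2 (mem_slb.1 h2).1
  have h2 : ∀ (i : Fin k) (m : ℤ), (((slb c K).filter fun p => p.1 = m ∧
      |(p.2 : ℝ) - b i + σ * ((c : ℝ) + K - p.1)| ≤ 2 * R).card : ℝ) ≤ 4 * R + 1 := fun i m => by
    set T := (slb c K).filter fun p => p.1 = m ∧ |(p.2 : ℝ) - b i + σ * ((c : ℝ) + K - p.1)| ≤ 2 * R with hT
    have h3 : T.card = (T.image Prod.snd).card := by
      refine (card_image_of_injOn fun p hp q hq h => ?_).symm
      have hp' := (mem_filter.1 (mem_coe.1 hp)).2.1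
      have hq' := (mem_filter.1 (mem_coe.1 hq)).2.1
      exact Prod.ext (hp'.trans hq'.symm) h
    rw [h3]
    refine (card_ball (x := b i - σ * ((c : ℝ) + K - m)) (r := 2 * R) (by linarith) _ fun z hz => ?_).trans (by linarith)
    obtain ⟨p, hp, rfl⟩ := mem_image.1 hz
    obtain ⟨_, h4, h5⟩ := mem_filter.1 hp
    rw [← h4]
    have e : (p.2 : ℝ) - (b i - σ * ((c : ℝ) + K - p.1)) = (p.2 : ℝ) - b i + σ * ((c : ℝ) + K - p.1) := by ring
    rw [e]
    exact h5
  have h3 : ((nearS c K σ R b).card : ℝ) ≤ ∑ i : Fin k, ∑ m ∈ Ioc (c : ℤ) (c + K), (4 * R + 1) := by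
    refine (Nat.cast_le.2 ((card_le_card h1).trans card_biUnion_le)).trans ?_
    rw [Nat.cast_sum]
    refine sum_le_sum fun i _ => ?_
    refine (Nat.cast_le.2 card_biUnion_le).trans ?_
    rw [Nat.cast_sum]
    exact sum_le_sum fun m _ => h2 i m
  refine h3.trans (le_of_eq ?_)
  rw [sum_const, sum_const, card_univ, Fintype.card_fin, Int.card_Ioc, nsmul_eq_mul, nsmul_eq_mul]
  have : ((c : ℤ) + K - c).toNat = K := by omega
  rw [this]
  ring

/-- Off the near sites every position of the neighbourhoods is far. -/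
theorem far_of_not_near {k : ℕ} {c K : ℕ} {σ R : ℝ} {b : Fin k → ℤ} {p : Pt} (hp : p ∈ slb c K) (hn : p ∉ nearS c K σ R b)
    {x : ℤ} (hx : x ∈ (H43.bx b).biUnion (nbC c K σ R)) : R < |((p.2 : ℝ) - x - σ * ((p.1 : ℝ) - c))| := by
  classical
  by_contra hc
  push Not at hc
  refine hn (mem_filter.2 ⟨hp, ?_⟩)
  obtain ⟨y, hy, hx'⟩ := mem_biUnion.1 hx
  obtain ⟨i, _, rfl⟩ := mem_image.1 hy
  have h1 := (mem_filter.1 hx').2
  refine ⟨i, ?_⟩
  have e : (p.2 : ℝ) - b i + σ * ((c : ℝ) + K - p.1) =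
      ((p.2 : ℝ) - x - σ * ((p.1 : ℝ) - c)) - ((b i : ℝ) - x - σ * K) := by ring
  rw [e]
  exact (abs_sub _ _).trans (by linarith)

/-! ### The switched field -/

section Switch

variable {μ : Measure ℝ} {s : ℝ} {c K : ℕ} {D δ : ℝ} {A : Env → Finset ℕ → ℝ} {Cn Nb : Finset Pt}

open Classical in
/-- The exact field at the cone sites, clipped off `Nb`; zero elsewhere. -/
def fS (μ : Measure ℝ) (s : ℝ) (c K : ℕ) (A : Env → Finset ℕ → ℝ) (Cn Nb : Finset Pt) (δ : ℝ) (p : Pt) (η : Env) : ℝ :=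
  if p ∈ Cn ∧ (p ∈ Nb ∨ |fG μ s c K (slb c K) A p η| ≤ δ) then fG μ s c K (slb c K) A p η else 0

theorem fS_le (p : Pt) (η : Env) : |fS μ s c K A Cn Nb δ p η| ≤ |fG μ s c K (slb c K) A p η| := by
  classical
  unfold fS
  split_ifs
  · exact le_rfl
  · simp

theorem fS_bd (hD : 0 ≤ D) (h : PA c D A) (p : Pt) (η : Env) : |fS μ s c K A Cn Nb δ p η| ≤ D / K :=
  (fS_le p η).trans (fG_bd hD h p η)

theorem fS_meas (h : PA c D A) (p : Pt) : Measurable (fS μ s c K A Cn Nb δ p) := by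
  classical
  have h1 := fG_meas (μ := μ) (s := s) (K := K) (Q := slb c K) h p
  have habs : Measurable fun η => |fG μ s c K (slb c K) A p η| := by
    have := h1.norm
    simpa [Real.norm_eq_abs] using this
  by_cases hC : p ∈ Cn
  · by_cases hN : p ∈ Nb
    · have e : fS μ s c K A Cn Nb δ p = fG μ s c K (slb c K) A p := by
        funext η
        unfold fS
        rw [if_pos ⟨hC, Or.inl hN⟩]
      rw [e]
      exact h1
    · have e : fS μ s c K A Cn Nb δ p = fun η => if |fG μ s c K (slb c K) A p η| ≤ δ then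
          fG μ s c K (slb c K) A p η else 0 := by
        funext η
        unfold fS
        simp only [hC, hN, true_and, false_or]
      rw [e]
      exact Measurable.ite (measurableSet_le habs measurable_const) h1 measurable_const
  · have e : fS μ s c K A Cn Nb δ p = fun _ => 0 := by
      funext η
      unfold fS
      rw [if_neg fun hh => hC hh.1]
    rw [e]
    exact measurable_const

theorem fS_pred (h : PA c D A) : PredR (fun p => p.1) (slb c K) (fS μ s c K A Cn Nb δ) := by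
  classical
  intro p hp u hu hle η x
  have h1 := fG_pred (μ := μ) (s := s) (rws_slb c K) h p hp u hu hle η x
  unfold fS
  rw [h1]

theorem fS_sq (hD : 0 ≤ D) (h : PA c D A) (hδ : 0 ≤ δ) (η : Env) :
    ∑ p ∈ slb c K, fS μ s c K A Cn Nb δ p η ^ 2 ≤ Nb.card * (D / K) ^ 2 + (slb c K).card * δ ^ 2 := by
  classical
  have h1 : ∀ p ∈ slb c K, fS μ s c K A Cn Nb δ p η ^ 2 ≤ (if p ∈ Nb then (D / K) ^ 2 else 0) + δ ^ 2 := fun p _ => by
    by_cases hp : p ∈ Nb
    · rw [if_pos hp]
      have h2 : fS μ s c K A Cn Nb δ p η ^ 2 ≤ (D / K) ^ 2 := by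
        rw [← sq_abs]
        exact pow_le_pow_left₀ (abs_nonneg _) (fS_bd hD h p η) 2
      nlinarith [sq_nonneg δ]
    · rw [if_neg hp, zero_add, ← sq_abs]
      refine pow_le_pow_left₀ (abs_nonneg _) ?_ 2
      unfold fS
      split_ifs with h3
      · exact h3.2.resolve_left hp
      · simpa using hδ
  refine (sum_le_sum h1).trans ?_
  rw [sum_add_distrib, sum_const, nsmul_eq_mul, ← sum_filter, sum_const, nsmul_eq_mul]
  have h2 : (((slb c K).filter (· ∈ Nb)).card : ℝ) ≤ Nb.card := by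
    exact_mod_cast card_le_card fun p hp => (mem_filter.1 hp).2
  nlinarith [sq_nonneg (D / K), mul_le_mul_of_nonneg_right h2 (sq_nonneg (D / K))]

variable {N : ℕ} {P : Finset (Finset ℕ)}

/-- The path visits a site of the slab outside of the cone set. -/
def Out7 (c K : ℕ) (Cn : Finset Pt) (S : Finset ℕ) : Prop := ∃ i, c ≤ i ∧ i < c + K ∧ (((i : ℤ) + 1, pos S (i + 1)) : Pt) ∉ Cn

/-- The shift by the switched field changes the log weight of every path by at most `D`. -/
theorem abs_lw_fS (hD : 0 ≤ D) (h : PA c D A) (η : Env) (S : Px P) :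
    |lw μ s (Sh (slb c K) (fS μ s c K A Cn Nb δ) η) N P S - lw μ s η N P S| ≤ D := by
  classical
  rw [lw_eq, lw_eq, add_sub_add_left_eq_sub, ← sum_sub_distrib]
  have h1 : ∀ i ∈ range N, |Sh (slb c K) (fS μ s c K A Cn Nb δ) η ((i : ℤ) + 1, pos S.1 (i + 1)) -
      η ((i : ℤ) + 1, pos S.1 (i + 1))| ≤ if i ∈ Ico c (c + K) then D / K else 0 := fun i _ => by
    by_cases hp : (((i : ℤ) + 1, pos S.1 (i + 1)) : Pt) ∈ slb c K
    · have h2 := (mem_slb.1 hp).1
      simp only at h2
      rw [Sh_in _ _ hp, add_sub_cancel_left, if_pos (mem_Ico.2 (by omega))]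
      exact fS_bd hD h _ _
    · rw [Sh_out _ _ hp, sub_self, abs_zero]
      split_ifs <;> positivity
  refine (abs_sum_le_sum_abs _ _).trans ((sum_le_sum h1).trans ?_)
  rw [← sum_filter]
  have h3 : ((range N).filter fun i => i ∈ Ico c (c + K)).card ≤ K := by
    refine (card_le_card fun i hi => (mem_filter.1 hi).2).trans ?_
    rw [Nat.card_Ico]
    omega
  rw [sum_const, nsmul_eq_mul]
  rcases Nat.eq_zero_or_pos K with h0 | h0
  · subst h0
    simp [hD]
  · have hK : (0 : ℝ) < K := by exact_mod_cast h0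
    calc ((((range N).filter fun i => i ∈ Ico c (c + K)).card : ℕ) : ℝ) * (D / K) ≤ K * (D / K) :=
          mul_le_mul_of_nonneg_right (by exact_mod_cast h3) (by positivity)
      _ = D := by field_simp

/-- Off the bad set the two shifts agree on the paths which stay in the cone set. -/
theorem lw_fS_eq {η : Env}
    (hη : ∀ p ∈ Cn, p ∉ Nb → |fG μ s c K (slb c K) A p η| ≤ δ) {S : Px P} (hS : ¬ Out7 c K Cn S.1) :
    lw μ s (Sh (slb c K) (fS μ s c K A Cn Nb δ) η) N P S = lw μ s (Sh (slb c K) (fG μ s c K (slb c K) A) η) N P S := by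
  classical
  rw [lw_eq, lw_eq]
  congr 1
  refine sum_congr rfl fun i _ => ?_
  by_cases hp : (((i : ℤ) + 1, pos S.1 (i + 1)) : Pt) ∈ slb c K
  · rw [Sh_in _ _ hp, Sh_in _ _ hp]
    congr 1
    have h2 := (mem_slb.1 hp).1
    simp only at h2
    have hC : (((i : ℤ) + 1, pos S.1 (i + 1)) : Pt) ∈ Cn := by
      by_contra hc
      exact hS ⟨i, by omega, by omega, hc⟩
    unfold fS
    rw [if_pos]
    refine ⟨hC, ?_⟩
    by_cases hN : (((i : ℤ) + 1, pos S.1 (i + 1)) : Pt) ∈ Nb
    · exact Or.inl hN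
    · exact Or.inr (hη _ hC hN)
  · rw [Sh_out _ _ hp, Sh_out _ _ hp]

open Classical in
/-- **The slab step with the switched field, one environment.** -/
theorem e0_pt7 [Nonempty (Px P)] (hP : Fam N (c + K) P) (hK0 : 0 < K) (hN : c + K ≤ N) (hD : 0 ≤ D)
    (h : PA c D A) {η : Env} (hη : ∀ p ∈ Cn, p ∉ Nb → |fG μ s c K (slb c K) A p η| ≤ δ) {m : ℕ}
    {Ψ Ψ' : (Fin m → Px P) → ℝ} {M ε : ℝ}
    (hΨ : ∀ x x' : Fin m → Px P, (∀ i, pB (c + K) (x i) = pB (c + K) (x' i)) → Ψ x = Ψ x') (hle : ∀ x, Ψ x ≤ Ψ' x)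
    (hM : ∀ x, |Ψ x| ≤ M) (hM' : ∀ x, |Ψ' x| ≤ M)
    (hε : gm (lw μ s η N P) (fun S => if Out7 c K Cn S.1 then 1 else 0) ≤ ε) (hε1 : ε < 1) :
    rep m (fun S => lw μ s η N P S + tA c A η S) Ψ ≤
      rep m (lw μ s (Sh (slb c K) (fS μ s c K A Cn Nb δ) η) N P) Ψ' + 4 * m * Real.exp (2 * D) * ε * M := by
  set w1 : Px P → ℝ := lw μ s (Sh (slb c K) (fG μ s c K (slb c K) A) η) N P with hw1
  set w2 : Px P → ℝ := lw μ s (Sh (slb c K) (fS μ s c K A Cn Nb δ) η) N P with hw2
  set a : Px P → ℝ := fun S => if Out7 c K Cn S.1 then 0 else 1 with ha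
  have ha01 : ∀ S, 0 ≤ a S ∧ a S ≤ 1 := fun S => by
    rw [ha]
    simp only
    split_ifs <;> norm_num
  have hM0 : 0 ≤ M := (abs_nonneg _).trans (hM fun _ => Classical.arbitrary _)
  -- exact transport
  have h1 : rep m (fun S => lw μ s η N P S + tA c A η S) Ψ = rep m w1 Ψ := by
    rw [← rpv_exp, ← rpv_exp]
    exact (rpv_eq m (p := pB (c + K)) (fun b => trans_lw_slb (μ := μ) (s := s) hP hK0 hN h η b) hΨ).symm
  have t1 : ∀ S, |w1 S - lw μ s η N P S| ≤ D := fun S => abs_lw_Sh (rws_slb c K) hD h η S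
  have t2 : ∀ S, |w2 S - lw μ s η N P S| ≤ D := fun S => abs_lw_fS hD h η S
  have e1 : ∀ S, 1 - a S = if Out7 c K Cn S.1 then 1 else 0 := fun S => by
    rw [ha]
    simp only
    split_ifs <;> norm_num
  have f0 : ∀ S : Px P, 0 ≤ 1 - a S := fun S => by linarith [(ha01 S).2]
  have hε' : gm (lw μ s η N P) (fun S => 1 - a S) ≤ ε := by
    rw [show (fun S => 1 - a S) = fun S : Px P => if Out7 c K Cn S.1 then (1 : ℝ) else 0 from funext e1]
    exact hε
  have g1 := (gm_tilt t1 f0).trans (mul_le_mul_of_nonneg_left hε' (Real.exp_pos (2 * D)).le)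
  have g2 := (gm_tilt t2 f0).trans (mul_le_mul_of_nonneg_left hε' (Real.exp_pos (2 * D)).le)
  obtain ⟨S0, hS0⟩ : ∃ S : Px P, a S ≠ 0 := by
    by_contra hcon
    push Not at hcon
    have e : (fun S : Px P => 1 - a S) = fun _ => 1 := by
      funext S
      rw [hcon S, sub_zero]
    rw [e, gm_one] at hε'
    linarith
  have hpos : ∀ w : Px P → ℝ, 0 < ∑ S, Real.exp (w S) * a S := fun w =>
    sum_pos' (fun S _ => mul_nonneg (Real.exp_pos _).le (ha01 S).1)
      ⟨S0, mem_univ _, mul_pos (Real.exp_pos _) (lt_of_le_of_ne (ha01 S0).1 (Ne.symm hS0))⟩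
  have r1 := (abs_le.1 (rpv_rep m w1 ha01 hM (hpos w1))).1
  have r2 := (abs_le.1 (rpv_rep m w2 ha01 hM' (hpos w2))).2
  have hww : (fun S => Real.exp (w1 S) * a S) = fun S => Real.exp (w2 S) * a S := by
    funext S
    by_cases hO : Out7 c K Cn S.1
    · have : a S = 0 := by rw [ha]; simp only; rw [if_pos hO]
      rw [this, mul_zero, mul_zero]
    · rw [hw1, hw2, lw_fS_eq hη hO]
  have r4 := rpv_mono m (v := fun S : Px P => Real.exp (w2 S) * a S)
    (fun S => mul_nonneg (Real.exp_pos _).le (ha01 S).1) hle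
  have g1' : 2 * ((m : ℝ) * gm w1 fun S => 1 - a S) * M ≤ 2 * m * Real.exp (2 * D) * ε * M := by
    have := mul_le_mul_of_nonneg_left g1 (by positivity : (0 : ℝ) ≤ 2 * m * M)
    linarith
  have g2' : 2 * ((m : ℝ) * gm w2 fun S => 1 - a S) * M ≤ 2 * m * Real.exp (2 * D) * ε * M := by
    have := mul_le_mul_of_nonneg_left g2 (by positivity : (0 : ℝ) ≤ 2 * m * M)
    linarith
  rw [h1]
  have hww' : rpv m (fun S => Real.exp (w1 S) * a S) Ψ = rpv m (fun S => Real.exp (w2 S) * a S) Ψ := by rw [hww]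
  linarith

end Switch

/-! ### The theorem -/

section Main7

variable {μ : Measure ℝ} {s : ℝ} {c K N : ℕ} {P : Finset (Finset ℕ)} {σ R M : ℝ} {U : Env → Finset ℕ → ℝ}

/-- The local tilt of a set `B` of positions: `U + M` on `B`. -/
def Ab (c : ℕ) (U : Env → Finset ℕ → ℝ) (M : ℝ) (B : Finset ℤ) (η : Env) (T : Finset ℕ) : ℝ :=
  if pos T c ∈ B then U η T + M else 0

theorem Ab_PA (hM : 0 ≤ M) (hU : PA c M U) (B : Finset ℤ) : PA c (2 * M) (Ab c U M B) where
  bd η S := by
    unfold Ab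
    have h1 := abs_le.1 (hU.bd η S)
    split_ifs
    · rw [abs_le]
      constructor <;> linarith
    · rw [abs_zero]
      linarith
  bl η u x hu := by
    funext S
    unfold Ab
    rw [hU.bl η u x hu]
  ms S := by
    unfold Ab
    split_ifs
    · exact (hU.ms S).add_const M
    · exact measurable_const

theorem tA_Ab (B : Finset ℤ) (η : Env) (S : Px P) :
    tA c (Ab c U M B) η S = if ps S c ∈ B then tA c U η S + M else 0 := by
  unfold tA Ab ps
  rw [pos_inter S.1 le_rfl]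

theorem ind_slb_le {k : ℕ} (hk : k ≤ K) (S : Finset ℕ) : ind c k (slb c K) S = 1 := by
  refine if_pos fun i hi => ?_
  have h1 := pos_nonneg S (c + i + 1)
  have h2 := pos_le S (c + i + 1)
  rw [mem_slb]
  simp only
  push_cast at h2 ⊢
  omega

/-- The mass, at the site `(c + j + 1, z)`, of the paths which are far from the straight line at the row `c`. -/
def FarM (μ : Measure ℝ) (s : ℝ) (η : Env) (c : ℕ) (σ R : ℝ) (j : ℕ) (z : ℤ) : ℝ :=
  Mt μ s η (c + j + 1) (fun S => if |((z : ℝ) - (pos S c : ℝ) - σ * ((j : ℝ) + 1))| ≤ R then 0 else 1) z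

/-- The field of a local tilt is small at the sites which are not near. -/
theorem fG_small {k : ℕ} (hM : 0 ≤ M) (hU : PA c M U) {η : Env} {Cn : Finset Pt} (hCn : Cn ⊆ slb c K) {δ0 : ℝ} (hδ0 : 0 ≤ δ0)
    (hg1 : ∀ j < K, ∀ z : ℤ, (((c + j + 1 : ℕ) : ℤ), z) ∈ Cn →
      FarM μ s η c σ R j z ≤ δ0 * Mt μ s η (c + j + 1) (fun _ => 1) z) (b : Fin k → ℤ) (p : Pt) (hp : p ∈ Cn)
    (hn : p ∉ nearS c K σ R b) :
    |fG μ s c K (slb c K) (Ab c U M ((H43.bx b).biUnion (nbC c K σ R))) p η| ≤ Real.exp (4 * M) * δ0 := by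
  have hps := hCn hp
  obtain ⟨⟨h1, h2⟩, _, _⟩ := mem_slb.1 hps
  obtain ⟨j, hj⟩ : ∃ j : ℕ, p.1 = ((c + j + 1 : ℕ) : ℤ) := ⟨(p.1 - c - 1).toNat, by push_cast; omega⟩
  have hjK : j < K := by
    rw [hj] at h2
    push_cast at h2
    omega
  have ep : p = (((c + j + 1 : ℕ) : ℤ), p.2) := Prod.ext hj rfl
  have hpC : (((c + j + 1 : ℕ) : ℤ), p.2) ∈ Cn := by rw [← ep]; exact hp
  have key := fG_tail (μ := μ) (s := s) (K := K) (Q := slb c K) (by linarith : 0 ≤ 2 * M)
    (Ab_PA hM hU ((H43.bx b).biUnion (nbC c K σ R))) hjK p.2 η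
    (a := fun S => if pos S c ∈ (H43.bx b).biUnion (nbC c K σ R) then 1 else 0)
    (fun S => by split_ifs <;> norm_num) (fun S hS => by
      by_contra hc
      have : pos S c ∉ (H43.bx b).biUnion (nbC c K σ R) := fun h => hc (by simp [h])
      exact hS (by unfold Ab; rw [if_neg this]))
  rw [← ep] at key
  refine key.trans ?_
  rw [show 2 * (2 * M) = 4 * M by ring]
  refine mul_le_mul_of_nonneg_left ?_ (Real.exp_pos _).le
  have e1 : ∀ S, ind c (j + 1) (slb c K) S = 1 := fun S => ind_slb_le (by omega) S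
  simp only [e1, mul_one]
  have e2 : Mt μ s η (c + j + 1) (ind c (j + 1) (slb c K)) p.2 = Mt μ s η (c + j + 1) (fun _ => 1) p.2 := by
    congr 1
    funext S
    exact e1 S
  rw [e2]
  have h0 : 0 ≤ Mt μ s η (c + j + 1) (fun _ => 1) p.2 := Mt_nonneg _ _ (fun _ => zero_le_one) _
  refine (div_le_of_le_mul₀ h0 hδ0 ?_)
  refine le_trans ?_ (hg1 j hjK p.2 hpC)
  refine Mt_mono η _ p.2 fun S => ?_
  by_cases hS : pos (S ∩ range c) c ∈ (H43.bx b).biUnion (nbC c K σ R)
  · rw [if_pos hS]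
    have h3 := far_of_not_near hps hn hS
    rw [pos_inter S le_rfl] at h3
    have e3 : (p.1 : ℝ) - c = (j : ℝ) + 1 := by
      rw [hj]
      push_cast
      ring
    rw [e3] at h3
    rw [if_neg (not_le.2 h3)]
  · rw [if_neg hS]
    split_ifs <;> norm_num

theorem meas_rep {X : Type*} [Fintype X] [Nonempty X] {Ω : Type*} [MeasurableSpace Ω] {k : ℕ} {w : Ω → X → ℝ}
    (hw : ∀ x, Measurable fun ω => w ω x) {Ψ : Ω → (Fin k → X) → ℝ} (hΨ : ∀ x, Measurable fun ω => Ψ ω x) :
    Measurable fun ω => rep k (w ω) (Ψ ω) := by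
  unfold rep
  refine (Finset.measurable_fun_sum _ fun x _ => ?_).div ((meas_gz hw).pow_const k)
  exact (Finset.measurable_fun_sum _ fun i _ => hw (x i)).exp.mul (hΨ x)

theorem rep_nonneg7 {X : Type*} [Fintype X] [Nonempty X] {k : ℕ} (w : X → ℝ) {Ψ : (Fin k → X) → ℝ} (h : ∀ x, 0 ≤ Ψ x) :
    0 ≤ rep k w Ψ := by
  unfold rep
  exact div_nonneg (sum_nonneg fun x _ => mul_nonneg (Real.exp_pos _).le (h x)) (pow_pos (gz_pos w) k).le

theorem rep_le_const7 {X : Type*} [Fintype X] [Nonempty X] {k : ℕ} (w : X → ℝ) {Ψ : (Fin k → X) → ℝ} {Λ : ℝ}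
    (h : ∀ x, Ψ x ≤ Λ) : rep k w Ψ ≤ Λ := (rep_mono k w h).trans_eq (H41.rep_const k w Λ)

open Classical in
/-- **E0, in the frame of Mod92.** -/
theorem e0_mod7 [IsProbabilityMeasure μ] [Nonempty (Px P)] (hP : Fam N (c + K) P) (hK0 : 0 < K) (hN : c + K ≤ N)
    (hM : 0 ≤ M) (hU : PA c M U) (hR : 0 ≤ R) {p C θ0 : ℝ} (hp : 1 ≤ p) (hC : 0 ≤ C) (hQ : QI μ p C θ0)
    (hθ : 2 * M / K ≤ θ0) {Cn : Finset Pt} (hCn : Cn ⊆ slb c K) {δ0 ε : ℝ} (hδ0 : 0 ≤ δ0) (hε0 : 0 ≤ ε) (hε1 : ε < 1)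
    {Ω : Set Env} (hΩ : MeasurableSet Ω)
    (hg1 : ∀ η ∈ Ω, ∀ j < K, ∀ z : ℤ, (((c + j + 1 : ℕ) : ℤ), z) ∈ Cn →
      FarM μ s η c σ R j z ≤ δ0 * Mt μ s η (c + j + 1) (fun _ => 1) z)
    (hg2 : ∀ η ∈ Ω, gm (lw μ s η N P) (fun S => if Out7 c K Cn S.1 then 1 else 0) ≤ ε)
    (hg3 : ∀ η ∈ Ω, gm (lw μ s η N P) (fun S => if ps S c ∈ nbC c K σ R (ps S (c + K)) then 0 else 1) ≤ ε)
    {k : ℕ} {Λ : ℝ} {Ψ Ψ' : Env → (Fin k → Px P) → ℝ} (h0 : ∀ η x, 0 ≤ Ψ η x) (hΛ : ∀ η x, Ψ η x ≤ Λ)
    (h0' : ∀ η x, 0 ≤ Ψ' η x) (hΛ' : ∀ η x, Ψ' η x ≤ Λ) (hm : ∀ x, Measurable fun η => Ψ' η x)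
    (hΨ : ∀ η, ∀ x x' : Fin k → Px P, (∀ i, pB (c + K) (x i) = pB (c + K) (x' i)) → Ψ η x = Ψ η x')
    (hpas : ∀ η ∈ Ω, ∀ ζ : Env, (∀ q, q ∉ slb c K → ζ q = η q) → (∀ q, |ζ q - η q| ≤ 2 * M / K) → ∀ x, Ψ η x ≤ Ψ' ζ x) :
    ∫⁻ η, ENNReal.ofReal (rep k (fun S => lw μ s η N P S + tA c U η S) (Ψ η)) ∂(law μ) ≤
      ENNReal.ofReal (Real.exp (C * (k * K * (4 * R + 1) * (2 * M / K) ^ 2 + (slb c K).card * (Real.exp (4 * M) * δ0) ^ 2))) *
        ((((N + 1 : ℕ) : ℝ≥0∞) ^ k) ^ (1 - 1 / p) *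
          (∫⁻ η, ENNReal.ofReal (rep k (lw μ s η N P) (Ψ' η)) ^ p ∂(law μ)) ^ (1 / p)) +
      ENNReal.ofReal ((N + 1 : ℝ) ^ k * (4 * k * Real.exp (4 * M) * ε * Λ) + Λ * k * (Real.exp (2 * M) * ε)) +
      ENNReal.ofReal Λ * law μ Ωᶜ := by
  set box : Px P → ℤ := fun S => ps S (c + K) with hbox
  set T := H43.bxs univ box k with hT
  set Bb : (Fin k → ℤ) → Finset ℤ := fun b => (H43.bx b).biUnion (nbC c K σ R) with hBb
  set δ : ℝ := Real.exp (4 * M) * δ0 with hδ
  have hδn : 0 ≤ δ := mul_nonneg (Real.exp_pos _).le hδ0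
  set φ : (Fin k → ℤ) → Pt → Env → ℝ := fun b => fS μ s c K (Ab c U M (Bb b)) Cn (nearS c K σ R b) δ with hφ
  have hPA : ∀ b, PA c (2 * M) (Ab c U M (Bb b)) := fun b => Ab_PA hM hU _
  have h2M : 0 ≤ 2 * M := by linarith
  set F : (Fin k → ℤ) → Env → ℝ≥0∞ := fun b η =>
    ENNReal.ofReal (rep k (lw μ s η N P) fun x => if (fun i => box (x i)) = b then Ψ' η x else 0) with hF
  have hFm : ∀ b, Measurable (F b) := fun b => by
    refine (meas_rep (fun S => meas_lw S) fun x => ?_).ennreal_ofReal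
    by_cases hx : (fun i => box (x i)) = b
    · simp only [hx, if_true]
      exact hm x
    · simp only [hx, if_false]
      exact measurable_const
  have hφm : ∀ b, ∀ q ∈ slb c K, Measurable (φ b q) := fun b q _ => fS_meas (hPA b) q
  have hΛ0 : ∀ η : Env, 0 ≤ Λ := fun η => (h0 η fun _ => Classical.arbitrary _).trans (hΛ η _)
  have hΛn : 0 ≤ Λ := hΛ0 fun _ => 0
  have hcard : ((T.card : ℕ) : ℝ) ≤ (N + 1 : ℝ) ^ k := by
    have h1 : T.card ≤ (N + 1) ^ k := by
      rw [hT]
      unfold H43.bxs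
      rw [Fintype.card_piFinset, prod_const, card_univ, Fintype.card_fin]
      refine Nat.pow_le_pow_left ?_ k
      have h2 : univ.image box ⊆ Icc (0 : ℤ) N := fun z hz => by
        obtain ⟨S, _, rfl⟩ := mem_image.1 hz
        rw [mem_Icc]
        refine ⟨ps_nonneg S _, (ps_le S _).trans ?_⟩
        exact_mod_cast hN
      refine (card_le_card h2).trans ?_
      rw [Int.card_Icc]
      omega
    exact_mod_cast h1
  -- the pointwise bound
  set C1 : ℝ := (N + 1 : ℝ) ^ k * (4 * k * Real.exp (4 * M) * ε * Λ) + Λ * k * (Real.exp (2 * M) * ε) with hC1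
  have hpt : ∀ η, ENNReal.ofReal (rep k (fun S => lw μ s η N P S + tA c U η S) (Ψ η)) ≤
      ∑ b ∈ T, F b (Sh (slb c K) (φ b) η) + ENNReal.ofReal C1 + Ωᶜ.indicator (fun _ => ENNReal.ofReal Λ) η := fun η => by
    by_cases hη : η ∈ Ω
    · rw [Set.indicator_of_notMem (Set.notMem_compl_iff.2 hη), add_zero]
      have hu : ∀ S : Px P, |tA c U η S| ≤ M := fun S => hU.bd η _
      have h1 := boxes7 (lw μ s η N P) (tA c U η) hu (fun S => ps S c) box (nbC c K σ R) (h0 η) (hΛ η)
      have h2 : gm (fun S => lw μ s η N P S + tA c U η S) (fun S => if ps S c ∈ nbC c K σ R (box S) then 0 else 1) ≤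
          Real.exp (2 * M) * ε := by
        refine (gm_tilt (w := lw μ s η N P) (D := M) (fun S => by rw [add_sub_cancel_left]; exact hu S) fun S => by
          split_ifs <;> norm_num).trans (mul_le_mul_of_nonneg_left (hg3 η hη) (Real.exp_pos _).le)
      have h3 : ∀ b ∈ T, rep k (fun S => lw μ s η N P S + (if ps S c ∈ Bb b then tA c U η S + M else 0))
          (fun x => if (fun i => box (x i)) = b then Ψ η x else 0) ≤
          rep k (lw μ s (Sh (slb c K) (φ b) η) N P)
            (fun x => if (fun i => box (x i)) = b then Ψ' (Sh (slb c K) (φ b) η) x else 0) +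
            4 * k * Real.exp (4 * M) * ε * Λ := fun b _ => by
        have e1 : (fun S => lw μ s η N P S + (if ps S c ∈ Bb b then tA c U η S + M else 0)) =
            fun S : Px P => lw μ s η N P S + tA c (Ab c U M (Bb b)) η S := by
          funext S
          rw [tA_Ab]
        rw [e1, show 4 * M = 2 * (2 * M) by ring]
        have hsm := fG_small (μ := μ) (s := s) hM hU hCn hδ0 (hg1 η hη) b
        refine e0_pt7 (Cn := Cn) (Nb := nearS c K σ R b) (δ := δ) hP hK0 hN h2M (hPA b)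
          (fun p hp hn => hsm p hp hn) (fun x x' hx => ?_) (fun x => ?_) (fun x => ?_) (fun x => ?_) (hg2 η hη) hε1
        · have hb : (fun i => box (x i)) = fun i => box (x' i) := funext fun i => congrArg Prod.fst (hx i)
          rw [hb, hΨ η x x' hx]
        · by_cases hb : (fun i => box (x i)) = b
          · simp only [hb, if_true]
            refine hpas η hη _ (fun q hq => Sh_out _ _ hq) (fun q => ?_) x
            by_cases hq : q ∈ slb c K
            · rw [Sh_in _ _ hq, add_sub_cancel_left]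
              exact fS_bd h2M (hPA b) q η
            · rw [Sh_out _ _ hq, sub_self, abs_zero]
              positivity
          · simp only [hb, if_false, le_refl]
        · by_cases hb : (fun i => box (x i)) = b
          · simp only [hb, if_true]
            rw [abs_of_nonneg (h0 η x)]
            exact hΛ η x
          · simp only [hb, if_false, abs_zero]
            exact hΛn
        · by_cases hb : (fun i => box (x i)) = b
          · simp only [hb, if_true]
            rw [abs_of_nonneg (h0' _ x)]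
            exact hΛ' _ x
          · simp only [hb, if_false, abs_zero]
            exact hΛn
      have h4 : rep k (fun S => lw μ s η N P S + tA c U η S) (Ψ η) ≤
          ∑ b ∈ T, rep k (lw μ s (Sh (slb c K) (φ b) η) N P)
            (fun x => if (fun i => box (x i)) = b then Ψ' (Sh (slb c K) (φ b) η) x else 0) + C1 := by
        refine h1.trans ?_
        have h5 := sum_le_sum h3
        rw [sum_add_distrib, sum_const, nsmul_eq_mul] at h5
        have h6 : (T.card : ℝ) * (4 * k * Real.exp (4 * M) * ε * Λ) ≤ (N + 1 : ℝ) ^ k * (4 * k * Real.exp (4 * M) * ε * Λ) :=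
          mul_le_mul_of_nonneg_right hcard (by positivity)
        have h7 : Λ * k * gm (fun S => lw μ s η N P S + tA c U η S) (fun S => if ps S c ∈ nbC c K σ R (box S) then 0 else 1) ≤
            Λ * k * (Real.exp (2 * M) * ε) := mul_le_mul_of_nonneg_left h2 (by positivity)
        rw [hC1]
        linarith
      refine (ENNReal.ofReal_le_ofReal h4).trans (ENNReal.ofReal_add_le.trans (add_le_add ?_ le_rfl))
      rw [ENNReal.ofReal_sum_of_nonneg fun b _ => rep_nonneg7 _ fun x => by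
        split_ifs
        · exact h0' _ x
        · exact le_rfl]
    · rw [Set.indicator_of_mem (show η ∈ Ωᶜ from hη)]
      exact (ENNReal.ofReal_le_ofReal (rep_le_const7 _ (hΛ η))).trans le_add_self
  have hSm : ∀ b ∈ T, Measurable fun η => F b (Sh (slb c K) (φ b) η) := fun b _ => (hFm b).comp (Sh_meas (hφm b))
  have hms : Measurable fun η => ∑ b ∈ T, F b (Sh (slb c K) (φ b) η) := Finset.measurable_fun_sum _ hSm
  set B0 : ℝ := k * K * (4 * R + 1) * (2 * M / K) ^ 2 + (slb c K).card * δ ^ 2 with hB0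
  have hq : ∀ b ∈ T, ∫⁻ η, F b (Sh (slb c K) (φ b) η) ∂(law μ) ≤
      ENNReal.ofReal (Real.exp (C * B0)) * (∫⁻ η, F b η ^ p ∂(law μ)) ^ (1 / p) := fun b _ =>
    quasi_bd hp hC hQ (fun q => q.1) (slb c K) (φ b) (hφm b) (fS_pred (hPA b))
      (fun q _ η => (fS_bd h2M (hPA b) q η).trans hθ) (fun η => (fS_sq h2M (hPA b) hδn η).trans (by
        rw [hB0]
        refine add_le_add (mul_le_mul_of_nonneg_right (card_nearS c K hR b) (sq_nonneg _)) le_rfl)) (F b) (hFm b)
  calc ∫⁻ η, ENNReal.ofReal (rep k (fun S => lw μ s η N P S + tA c U η S) (Ψ η)) ∂(law μ)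
      ≤ ∫⁻ η, (∑ b ∈ T, F b (Sh (slb c K) (φ b) η) + ENNReal.ofReal C1 + Ωᶜ.indicator (fun _ => ENNReal.ofReal Λ) η)
          ∂(law μ) := lintegral_mono hpt
    _ = ∑ b ∈ T, ∫⁻ η, F b (Sh (slb c K) (φ b) η) ∂(law μ) + ENNReal.ofReal C1 + ENNReal.ofReal Λ * law μ Ωᶜ := by
        have hms1 : Measurable fun η => ∑ b ∈ T, F b (Sh (slb c K) (φ b) η) + ENNReal.ofReal C1 := hms.add measurable_const
        rw [lintegral_add_left hms1, lintegral_add_left hms, lintegral_finsetSum _ hSm,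
          lintegral_const, measure_univ, mul_one, lintegral_indicator_const hΩ.compl]
    _ ≤ _ := by
        refine add_le_add (add_le_add ?_ le_rfl) le_rfl
        refine (sum_le_sum hq).trans ?_
        rw [← mul_sum]
        refine mul_le_mul_right ?_ _
        refine (H43.sum_norm_le (law μ) T F (fun b _ => (hFm b).aemeasurable) hp).trans ?_
        have h1p : 0 ≤ 1 - 1 / p := by
          rw [sub_nonneg, div_le_one (by linarith)]
          exact hp
        refine mul_le_mul' (ENNReal.rpow_le_rpow ?_ h1p) (le_of_eq ?_)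
        · have h1 : T.card ≤ (N + 1) ^ k := by exact_mod_cast hcard
          exact_mod_cast (Nat.cast_le (α := ℝ≥0∞)).2 h1
        · congr 1
          refine lintegral_congr fun η => ?_
          congr 1
          rw [hF]
          simp only
          rw [← ENNReal.ofReal_sum_of_nonneg fun b _ => rep_nonneg7 _ fun x => by
            split_ifs
            · exact h0' _ x
            · exact le_rfl]
          congr 1
          rw [← H41.rep_sum T k (lw μ s η N P) fun b x => if (fun i => box (x i)) = b then Ψ' η x else 0]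
          congr 1
          funext x
          rw [sum_ite_eq, if_pos]
          rw [hT]
          unfold H43.bxs
          rw [Fintype.mem_piFinset]
          exact fun i => mem_image_of_mem box (mem_univ _)

end Main7

end

end Pool.W7d29a1.C0.H7
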