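import Pool.Agent.W_7d29a1_C0.Trans27L

/-!
CURV0 (MP_7d29a1_pr), leaf E0, part 4. (helper27)

`fP_tail`: the backward field at a site is small where the tilted futures have a small mass among the futures of the site.
`abs_lw_Sh_of`: the log weight of every path changes by at most `D` under the shift by any field of size `D / K` on a slab of `K` rows.
`rep_step`: the abstract slab step (any direction): weights `w1`, `w2` within `D` of `w0`, with approximately the same sums against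
the functions of a map `p`; replica averages of functions of `p`, with passengers.
-/

set_option autoImplicit false

namespace Pool.W7d29a1.C0.H27

open Finset MeasureTheory Pool.Agent.W_7d29a1_F Pool.Agent.W_7d29a1_X Pool.Agent.W_7d29a1_C0.Mod92
  Pool.Agent.W_7d29a1_C0.H32
open scoped ENNReal

noncomputable section

variable {μ : Measure ℝ} {s : ℝ}

/-! ### The logarithm of a tilted sum -/

/-- `a` = an upper indicator of `A ≠ 0`. -/
theorem log_tilt_le {ι : Type*} (I : Finset ι) {w A a : ι → ℝ} {D : ℝ} (hD : 0 ≤ D) (hw : ∀ i ∈ I, 0 ≤ w i)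
    (hA : ∀ i ∈ I, |A i| ≤ D) (ha0 : ∀ i ∈ I, 0 ≤ a i) (ha : ∀ i ∈ I, A i ≠ 0 → 1 ≤ a i) {p q : ℝ} (p0 : 0 ≤ p)
    (p1 : p ≤ 1) (q0 : 0 ≤ q) (q1 : q ≤ 1) :
    |Real.log ((∑ i ∈ I, w i * Real.exp (q * A i)) / ∑ i ∈ I, w i * Real.exp (p * A i))| ≤
      Real.exp (2 * D) * ((∑ i ∈ I, w i * a i) / ∑ i ∈ I, w i) := by
  set g : ℝ → ℝ := fun τ => ∑ i ∈ I, w i * Real.exp (τ * A i) with hg
  set M0 : ℝ := ∑ i ∈ I, w i with hM0
  set Ma : ℝ := ∑ i ∈ I, w i * a i with hMa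
  have hM0n : 0 ≤ M0 := sum_nonneg hw
  have hMan : 0 ≤ Ma := sum_nonneg fun i hi => mul_nonneg (hw i hi) (ha0 i hi)
  have low : ∀ τ, 0 ≤ τ → τ ≤ 1 → Real.exp (-D) * M0 ≤ g τ := fun τ h0 h1 => by
    rw [hM0, hg, mul_sum]
    refine sum_le_sum fun i hi => ?_
    rw [mul_comm]
    refine mul_le_mul_of_nonneg_left (Real.exp_le_exp.2 ?_) (hw i hi)
    have h3 := neg_le_of_abs_le (hA i hi)
    nlinarith [abs_nonneg (A i)]
  have up : ∀ τ, 0 ≤ τ → τ ≤ 1 → g τ ≤ Real.exp D * M0 := fun τ h0 h1 => by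
    rw [hM0, hg, mul_sum]
    refine sum_le_sum fun i hi => ?_
    rw [mul_comm (Real.exp D)]
    refine mul_le_mul_of_nonneg_left (Real.exp_le_exp.2 ?_) (hw i hi)
    have h3 := (le_abs_self _).trans (hA i hi)
    nlinarith [abs_nonneg (A i)]
  have dif : ∀ τ τ', 0 ≤ τ → τ ≤ 1 → 0 ≤ τ' → τ' ≤ 1 → g τ' ≤ g τ + Real.exp D * Ma := fun τ τ' h0 h1 h0' h1' => by
    rw [hMa, hg, mul_sum, ← sum_add_distrib]
    refine sum_le_sum fun i hi => ?_
    by_cases hz : A i = 0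
    · rw [hz]
      simp only [mul_zero, Real.exp_zero]
      have := mul_nonneg (Real.exp_pos D).le (mul_nonneg (hw i hi) (ha0 i hi))
      linarith
    · have h3 := ha i hi hz
      have h4 : Real.exp (τ' * A i) ≤ Real.exp D := by
        refine Real.exp_le_exp.2 ?_
        have h5 := (le_abs_self _).trans (hA i hi)
        nlinarith [abs_nonneg (A i)]
      have h6 : w i * Real.exp (τ' * A i) ≤ w i * Real.exp D := mul_le_mul_of_nonneg_left h4 (hw i hi)
      have h7 : Real.exp D * (w i * 1) ≤ Real.exp D * (w i * a i) :=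
        mul_le_mul_of_nonneg_left (mul_le_mul_of_nonneg_left h3 (hw i hi)) (Real.exp_pos _).le
      have h8 := mul_nonneg (hw i hi) (Real.exp_pos (τ * A i)).le
      linarith
  change |Real.log (g q / g p)| ≤ _
  rcases hM0n.eq_or_lt with h0 | h0
  · have hz : ∀ τ, 0 ≤ τ → τ ≤ 1 → g τ = 0 := fun τ t0 t1 => by
      have h1 := up τ t0 t1
      have h2 := low τ t0 t1
      rw [← h0, mul_zero] at h1 h2
      exact le_antisymm h1 h2
    rw [hz q q0 q1, hz p p0 p1, ← h0]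
    simp
  · have hgp : ∀ τ, 0 ≤ τ → τ ≤ 1 → 0 < g τ := fun τ t0 t1 => (mul_pos (Real.exp_pos _) h0).trans_le (low τ t0 t1)
    have hrel : ∀ τ, 0 ≤ τ → τ ≤ 1 → Real.exp D * Ma ≤ Real.exp (2 * D) * (Ma / M0) * g τ := fun τ t0 t1 => by
      have h1 := mul_le_mul_of_nonneg_left (low τ t0 t1) (mul_nonneg (Real.exp_pos (2 * D)).le (div_nonneg hMan hM0n))
      refine le_trans (le_of_eq ?_) h1
      have h2 : Real.exp (2 * D) = Real.exp D * Real.exp D := by rw [← Real.exp_add]; ring_nf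
      rw [h2, Real.exp_neg]
      have := (Real.exp_pos D).ne'
      field_simp
    refine abs_log_div_le (hgp _ q0 q1) (hgp _ p0 p1) ?_ ?_
    · have h1 := dif _ _ p0 p1 q0 q1
      have h2 := hrel _ p0 p1
      linarith
    · have h1 := dif _ _ q0 q1 p0 p1
      have h2 := hrel _ q0 q1
      linarith

theorem sch_mem {K i : ℕ} (hi : i ≤ K) : 0 ≤ sch 0 1 K i ∧ sch 0 1 K i ≤ 1 := by
  unfold sch
  rcases Nat.eq_zero_or_pos K with h0 | h0
  · subst h0
    simp
  · have hKr : (0 : ℝ) < K := by exact_mod_cast h0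
    have h1 : (i : ℝ) ≤ K := by exact_mod_cast hi
    constructor
    · positivity
    · rw [zero_add, sub_zero, one_mul, div_le_one hKr]
      exact h1

/-! ### The tail of the backward field -/

section Tail

variable {N c1 K : ℕ} {Q : Finset Pt} {D : ℝ} {A : Env → ℤ → Finset ℕ → ℝ} {b0 : ℤ → Finset ℕ → ℝ}

/-- The backward field at the site `(t, z)`, `k = c1 - t`. -/
theorem fH_eq (hN : c1 ≤ N) {t k : ℕ} (ht : t + k = c1) {z : ℤ} (hz : ((t : ℤ), z) ∈ Q) (η : Env) :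
    fH μ s N c1 K Q b0 A ((t : ℤ), z) η =
      Real.log (FS μ s η N c1 Q (fun z T => Real.exp (sch 0 1 K (k + 1) * A η z T) * b0 z T) t k z /
        FS μ s η N c1 Q (fun z T => Real.exp (sch 0 1 K k * A η z T) * b0 z T) t k z) := by
  have h1 : (rr c1 ((t : ℤ), z)).1 - 0 - 1 = (k : ℤ) := by
    unfold rr
    simp only
    omega
  have h2 : ∀ τ, num (PH c1 Q) (qH μ s) (re c1 η) 0 (gH μ s N c1 b0 A τ (re c1 η)) k z =
      FS μ s η N c1 Q (fun z T => Real.exp (τ * A η z T) * b0 z T) t k z := fun τ => by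
    rw [gH_FS (Q := Q), fwd_FS hN Q η _ k t ht z, if_pos hz, one_mul]
  unfold fH fld
  rw [h1, Int.toNat_natCast]
  have e : (rr c1 ((t : ℤ), z)).2 = z := rfl
  rw [e, h2, h2]

/-- The backward field is small where the tilted futures have a small mass; `a` = an upper indicator of `A ≠ 0`. -/
theorem fH_tail (hN : c1 ≤ N) (hD : 0 ≤ D) (h : FA c1 D A) (hb : ∀ z T, 0 ≤ b0 z T) {t k : ℕ} (ht : t + k = c1)
    (hk : k < K) {z : ℤ} (hz : ((t : ℤ), z) ∈ Q) (η : Env) {a : ℤ → Finset ℕ → ℝ} (ha0 : ∀ z T, 0 ≤ a z T)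
    (ha : ∀ z T, A η z T ≠ 0 → 1 ≤ a z T) :
    |fH μ s N c1 K Q b0 A ((t : ℤ), z) η| ≤ Real.exp (2 * D) *
      (FS μ s η N c1 Q (fun z T => a z T * b0 z T) t k z / FS μ s η N c1 Q b0 t k z) := by
  rw [fH_eq hN ht hz]
  obtain ⟨p0, p1⟩ := sch_mem (show k ≤ K by omega)
  obtain ⟨q0, q1⟩ := sch_mem (show k + 1 ≤ K by omega)
  set w : Finset ℕ → ℝ := fun T => fut μ s η t N z T *
    (inF t k Q z T * b0 (z + (((T ∩ range c1).card : ℕ) : ℤ)) (T \ range c1)) with hw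
  have key := log_tilt_le (Ico t N).powerset (w := w) (A := fun T => A η (z + (((T ∩ range c1).card : ℕ) : ℤ)) (T \ range c1))
    (a := fun T => a (z + (((T ∩ range c1).card : ℕ) : ℤ)) (T \ range c1)) hD
    (fun T _ => mul_nonneg (fut_nonneg _ _ _ _ _) (mul_nonneg (inF_nonneg _ _ _ _ _) (hb _ _))) (fun T _ => h.bd η _ _)
    (fun T _ => ha0 _ _) (fun T _ => ha _ _) p0 p1 q0 q1
  have e1 : ∀ E : ℤ → Finset ℕ → ℝ, FS μ s η N c1 Q (fun z T => E z T * b0 z T) t k z =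
      ∑ T ∈ (Ico t N).powerset, w T * E (z + (((T ∩ range c1).card : ℕ) : ℤ)) (T \ range c1) := fun E => by
    unfold FS
    refine sum_congr rfl fun T _ => ?_
    rw [hw]
    ring
  rw [e1, e1, e1]
  exact key

end Tail

/-! ### The change of the log weights -/

theorem abs_lw_Sh_of {N c K : ℕ} {P : Finset (Finset ℕ)} {Q : Finset Pt} {D : ℝ} {φ : Pt → Env → ℝ} (hQ : Rws c K Q)
    (hD : 0 ≤ D) (η : Env) (h : ∀ p ∈ Q, |φ p η| ≤ D / K) (S : Px P) :
    |lw μ s (Sh Q φ η) N P S - lw μ s η N P S| ≤ D := by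
  classical
  rw [lw_eq, lw_eq, add_sub_add_left_eq_sub, ← sum_sub_distrib]
  have h1 : ∀ i ∈ range N, |Sh Q φ η ((i : ℤ) + 1, pos S.1 (i + 1)) - η ((i : ℤ) + 1, pos S.1 (i + 1))| ≤
      if i ∈ Ico c (c + K) then D / K else 0 := fun i _ => by
    by_cases hp : (((i : ℤ) + 1, pos S.1 (i + 1)) : Pt) ∈ Q
    · have h2 := hQ _ hp
      simp only at h2
      rw [Sh_in _ _ hp, add_sub_cancel_left, if_pos (mem_Ico.2 (by omega))]
      exact h _ hp
    · rw [Sh_out _ _ hp, sub_self, abs_zero]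
      split_ifs <;> positivity
  refine (abs_sum_le_sum_abs _ _).trans ((sum_le_sum h1).trans ?_)
  rw [← sum_filter]
  have h3 : ((range N).filter fun i => i ∈ Ico c (c + K)).card ≤ K := by
    refine (card_le_card fun i hi => (mem_filter.1 hi).2).trans ?_
    rw [Nat.card_Ico]
    omega
  rw [sum_const, nsmul_eq_mul]
  rcases Nat.eq_zero_or_pos K with h0 | h0
  · subst h0
    simp [hD]
  · have hK : (0 : ℝ) < K := by exact_mod_cast h0
    calc ((((range N).filter fun i => i ∈ Ico c (c + K)).card : ℕ) : ℝ) * (D / K) ≤ K * (D / K) :=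
          mul_le_mul_of_nonneg_right (by exact_mod_cast h3) (by positivity)
      _ = D := by field_simp

/-- The field used on a smaller set of sites: the weights of the paths which avoid the rest do not change. -/
theorem lw_Sh_sub {N : ℕ} {P : Finset (Finset ℕ)} {Q Q' : Finset Pt} {φ : Pt → Env → ℝ} (hQQ : Q' ⊆ Q) (η : Env) (S : Px P)
    (hS : ∀ i < N, (((i : ℤ) + 1, pos S.1 (i + 1)) : Pt) ∈ Q → (((i : ℤ) + 1, pos S.1 (i + 1)) : Pt) ∈ Q') :
    lw μ s (Sh Q' φ η) N P S = lw μ s (Sh Q φ η) N P S := by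
  rw [lw_eq, lw_eq]
  congr 1
  refine sum_congr rfl fun i hi => ?_
  rw [mem_range] at hi
  by_cases hp : (((i : ℤ) + 1, pos S.1 (i + 1)) : Pt) ∈ Q
  · rw [Sh_in _ _ hp, Sh_in _ _ (hS i hi hp)]
  · rw [Sh_out _ _ hp, Sh_out _ _ fun h => hp (hQQ h)]

/-! ### The abstract slab step -/

section Step

variable {X : Type*} [Fintype X] [Nonempty X] {Y : Type*}

/-- The mass of the complement of `{a = 1}` is small: the two replica averages are close. -/
theorem rep_restr (m : ℕ) {w : X → ℝ} {a : X → ℝ} (ha : ∀ x, 0 ≤ a x ∧ a x ≤ 1) {Ψ : (Fin m → X) → ℝ} {M ε : ℝ}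
    (hΨ : ∀ x, |Ψ x| ≤ M) (hε : gm w (fun x => 1 - a x) ≤ ε) (hpos : 0 < ∑ x, Real.exp (w x) * a x) :
    |rpv m (fun x => Real.exp (w x) * a x) Ψ - rep m w Ψ| ≤ 2 * m * ε * M := by
  have hM : 0 ≤ M := (abs_nonneg _).trans (hΨ fun _ => Classical.arbitrary X)
  refine (rpv_rep m w ha hΨ hpos).trans ?_
  have := mul_le_mul_of_nonneg_left hε (by positivity : (0 : ℝ) ≤ 2 * m * M)
  linarith

/-- **The abstract slab step.** `w0` = the log weights of the actual environment, `w1` = tilted, `w2` = shifted environment; `w3` = the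
exact transport (`w3` and `w1` have the same sums against the functions of `p`), `w2 = w3` on `{a ≠ 0}`. -/
theorem rep_step {w0 w1 w2 w3 : X → ℝ} {D : ℝ} (h1 : ∀ x, |w1 x - w0 x| ≤ D) (h2 : ∀ x, |w2 x - w0 x| ≤ D)
    (h3 : ∀ x, |w3 x - w0 x| ≤ D) {p : X → Y}
    (huv : ∀ b : Y → ℝ, ∑ x, Real.exp (w1 x) * b (p x) = ∑ x, Real.exp (w3 x) * b (p x))
    {a : X → ℝ} (ha : ∀ x, 0 ≤ a x ∧ a x ≤ 1) (h23 : ∀ x, a x ≠ 0 → w2 x = w3 x) {m : ℕ} {Ψ Ψ' : (Fin m → X) → ℝ}
    {M ε : ℝ} (hΨ : ∀ x x' : Fin m → X, (∀ i, p (x i) = p (x' i)) → Ψ x = Ψ x') (hle : ∀ x, Ψ x ≤ Ψ' x)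
    (hM : ∀ x, |Ψ x| ≤ M) (hM' : ∀ x, |Ψ' x| ≤ M) (hε : gm w0 (fun x => 1 - a x) ≤ ε) (hε1 : ε < 1) :
    rep m w1 Ψ ≤ rep m w2 Ψ' + 4 * m * Real.exp (2 * D) * ε * M := by
  have hM0 : 0 ≤ M := (abs_nonneg _).trans (hM fun _ => Classical.arbitrary _)
  have f0 : ∀ x, 0 ≤ 1 - a x := fun x => by linarith [(ha x).2]
  have g2 := (gm_tilt h2 f0).trans (mul_le_mul_of_nonneg_left hε (Real.exp_pos (2 * D)).le)
  have g3 := (gm_tilt h3 f0).trans (mul_le_mul_of_nonneg_left hε (Real.exp_pos (2 * D)).le)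
  obtain ⟨x0, hx0⟩ : ∃ x, a x ≠ 0 := by
    by_contra hcon
    push Not at hcon
    have e : (fun x => 1 - a x) = fun _ => 1 := by
      funext x
      rw [hcon x, sub_zero]
    rw [e, gm_one] at hε
    linarith
  have hpos : ∀ w : X → ℝ, 0 < ∑ x, Real.exp (w x) * a x := fun w =>
    sum_pos' (fun x _ => mul_nonneg (Real.exp_pos _).le (ha x).1)
      ⟨x0, mem_univ _, mul_pos (Real.exp_pos _) (lt_of_le_of_ne (ha x0).1 (Ne.symm hx0))⟩
  -- the exact transport
  have r1 : rep m w1 Ψ = rep m w3 Ψ := by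
    rw [← rpv_exp, ← rpv_exp]
    exact rpv_eq m huv hΨ
  have r2 : rep m w3 Ψ ≤ rep m w3 Ψ' := rep_mono m w3 hle
  -- the two fields agree on the paths with `a ≠ 0`
  have r3 := (abs_le.1 (rep_restr m ha hM' g3 (hpos w3))).1
  have r4 := (abs_le.1 (rep_restr m ha hM' g2 (hpos w2))).2
  have e : (fun x => Real.exp (w3 x) * a x) = fun x => Real.exp (w2 x) * a x := by
    funext x
    by_cases hx : a x = 0
    · rw [hx, mul_zero, mul_zero]
    · rw [h23 x hx]
  rw [e] at r3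
  linarith

end Step

end

end Pool.W7d29a1.C0.H27
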