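import Pool.Agent.W_7d29a1_C0.Loc7C
import Pool.Agent.W_7d29a1_C0.Trans27M

/-!
CURV0 (MP_7d29a1_pr), leaf E0: THE CORE WITHOUT DIRECTION (helper7).

`swS`: any predictable field (forward or backward), used at the cone sites only and clipped off a set `Nb` of near sites.
`e0_core7`: the conclusion of `e0_mod7` from the pointwise step, for any predictable bounded fields `φ b` with small sums of
squares. `e0_one7`: the exponent `p` removed.
-/

set_option autoImplicit false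

namespace Pool.W7d29a1.C0.H7

open Finset MeasureTheory Pool.Agent.W_7d29a1_F Pool.Agent.W_7d29a1_X Pool.Agent.W_7d29a1_C0.Mod92
  Pool.Agent.W_7d29a1_C0.H32 Pool.W7d29a1.C0.H27
open scoped ENNReal

noncomputable section

/-! ### The switch, any field -/

section SwitchG

variable {μ : Measure ℝ} {s : ℝ} {c K : ℕ} {D δ : ℝ} {φ : Pt → Env → ℝ} {Cn Nb : Finset Pt}

open Classical in
/-- The field `φ` at the sites of `Cn`, clipped off `Nb`; zero elsewhere. -/
def swS (φ : Pt → Env → ℝ) (Cn Nb : Finset Pt) (δ : ℝ) (p : Pt) (η : Env) : ℝ :=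
  if p ∈ Cn ∧ (p ∈ Nb ∨ |φ p η| ≤ δ) then φ p η else 0

theorem swS_le (p : Pt) (η : Env) : |swS φ Cn Nb δ p η| ≤ |φ p η| := by
  classical
  unfold swS
  split_ifs
  · exact le_rfl
  · simp

theorem swS_meas {p : Pt} (h1 : Measurable (φ p)) : Measurable (swS φ Cn Nb δ p) := by
  classical
  have habs : Measurable fun η => |φ p η| := by
    have := h1.norm
    simpa [Real.norm_eq_abs] using this
  by_cases hC : p ∈ Cn
  · by_cases hN : p ∈ Nb
    · have e : swS φ Cn Nb δ p = φ p := by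
        funext η
        unfold swS
        rw [if_pos ⟨hC, Or.inl hN⟩]
      rw [e]
      exact h1
    · have e : swS φ Cn Nb δ p = fun η => if |φ p η| ≤ δ then φ p η else 0 := by
        funext η
        unfold swS
        simp only [hC, hN, true_and, false_or]
      rw [e]
      exact Measurable.ite (measurableSet_le habs measurable_const) h1 measurable_const
  · have e : swS φ Cn Nb δ p = fun _ => 0 := by
      funext η
      unfold swS
      rw [if_neg fun hh => hC hh.1]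
    rw [e]
    exact measurable_const

theorem swS_pred {r : Pt → ℤ} {Qs : Finset Pt} (h : PredR r Qs φ) : PredR r Qs (swS φ Cn Nb δ) := by
  classical
  intro p hp u hu hle η x
  have h1 := h p hp u hu hle η x
  unfold swS
  rw [h1]

theorem swS_sq {Qs : Finset Pt} {θ : ℝ} (h : ∀ p ∈ Qs, ∀ η, |φ p η| ≤ θ) (hδ : 0 ≤ δ) (η : Env) :
    ∑ p ∈ Qs, swS φ Cn Nb δ p η ^ 2 ≤ Nb.card * θ ^ 2 + Qs.card * δ ^ 2 := by
  classical
  have h1 : ∀ p ∈ Qs, swS φ Cn Nb δ p η ^ 2 ≤ (if p ∈ Nb then θ ^ 2 else 0) + δ ^ 2 := fun p hq => by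
    by_cases hp : p ∈ Nb
    · rw [if_pos hp]
      have h2 : swS φ Cn Nb δ p η ^ 2 ≤ θ ^ 2 := by
        rw [← sq_abs]
        exact pow_le_pow_left₀ (abs_nonneg _) ((swS_le p η).trans (h p hq η)) 2
      nlinarith [sq_nonneg δ]
    · rw [if_neg hp, zero_add, ← sq_abs]
      refine pow_le_pow_left₀ (abs_nonneg _) ?_ 2
      unfold swS
      split_ifs with h3
      · exact h3.2.resolve_left hp
      · simpa using hδ
  refine (sum_le_sum h1).trans ?_
  rw [sum_add_distrib, sum_const, nsmul_eq_mul, ← sum_filter, sum_const, nsmul_eq_mul]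
  have h2 : ((Qs.filter (· ∈ Nb)).card : ℝ) ≤ Nb.card := by
    exact_mod_cast card_le_card fun p hp => (mem_filter.1 hp).2
  nlinarith [sq_nonneg θ, mul_le_mul_of_nonneg_right h2 (sq_nonneg θ)]

variable {N : ℕ} {P : Finset (Finset ℕ)}

/-- The path avoids the sites outside of the cone set: the switched field gives the same weight. -/
theorem lw_swS_eq {η : Env} (hη : ∀ p ∈ Cn, p ∉ Nb → |φ p η| ≤ δ) {S : Px P} (hS : ¬ Out7 c K Cn S.1) :
    lw μ s (Sh (slb c K) (swS φ Cn Nb δ) η) N P S = lw μ s (Sh (slb c K) φ η) N P S := by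
  classical
  rw [lw_eq, lw_eq]
  congr 1
  refine sum_congr rfl fun i _ => ?_
  by_cases hp : (((i : ℤ) + 1, pos S.1 (i + 1)) : Pt) ∈ slb c K
  · rw [Sh_in _ _ hp, Sh_in _ _ hp]
    congr 1
    have h2 := (mem_slb.1 hp).1
    simp only at h2
    have hC : (((i : ℤ) + 1, pos S.1 (i + 1)) : Pt) ∈ Cn := by
      by_contra hc
      exact hS ⟨i, by omega, by omega, hc⟩
    unfold swS
    rw [if_pos]
    refine ⟨hC, ?_⟩
    by_cases hN : (((i : ℤ) + 1, pos S.1 (i + 1)) : Pt) ∈ Nb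
    · exact Or.inl hN
    · exact Or.inr (hη _ hC hN)
  · rw [Sh_out _ _ hp, Sh_out _ _ hp]

open Classical in
/-- **The slab step with the switched field, any direction, one environment.** -/
theorem sw_step [Nonempty (Px P)] {η : Env} {w1 : Px P → ℝ} {Y : Type*} {p : Px P → Y}
    (h1 : ∀ S, |w1 S - lw μ s η N P S| ≤ D)
    (huv : ∀ b : Y → ℝ, ∑ S, Real.exp (w1 S) * b (p S) = ∑ S, Real.exp (lw μ s (Sh (slb c K) φ η) N P S) * b (p S))
    (hD : 0 ≤ D) (hφ : ∀ q ∈ slb c K, |φ q η| ≤ D / K)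
    (hη : ∀ q ∈ Cn, q ∉ Nb → |φ q η| ≤ δ) {m : ℕ} {Ψ Ψ' : (Fin m → Px P) → ℝ} {M ε : ℝ}
    (hΨ : ∀ x x' : Fin m → Px P, (∀ i, p (x i) = p (x' i)) → Ψ x = Ψ x') (hle : ∀ x, Ψ x ≤ Ψ' x)
    (hM : ∀ x, |Ψ x| ≤ M) (hM' : ∀ x, |Ψ' x| ≤ M)
    (hε : gm (lw μ s η N P) (fun S => if Out7 c K Cn S.1 then 1 else 0) ≤ ε) (hε1 : ε < 1) :
    rep m w1 Ψ ≤ rep m (lw μ s (Sh (slb c K) (swS φ Cn Nb δ) η) N P) Ψ' + 4 * m * Real.exp (2 * D) * ε * M := by
  refine rep_step (w0 := lw μ s η N P) (w3 := lw μ s (Sh (slb c K) φ η) N P)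
    (a := fun S => if Out7 c K Cn S.1 then 0 else 1) h1
    (fun S => abs_lw_Sh_of (rws_slb c K) hD η (fun q hq => (swS_le q η).trans (hφ q hq)) S)
    (fun S => abs_lw_Sh_of (rws_slb c K) hD η hφ S) huv (fun S => by split_ifs <;> norm_num) (fun S hS => ?_) hΨ hle hM hM'
    (le_trans (le_of_eq ?_) hε) hε1
  · have hO : ¬ Out7 c K Cn S.1 := fun h => hS (by simp only [h, if_true])
    exact lw_swS_eq hη hO
  · congr 1
    funext S
    by_cases h : Out7 c K Cn S.1 <;> simp [h]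

end SwitchG

/-! ### The core -/

section Core

variable {μ : Measure ℝ} {s : ℝ} {N : ℕ} {P : Finset (Finset ℕ)}

open Classical in
/-- **E0, the core, any direction.** -/
theorem e0_core7 [IsProbabilityMeasure μ] [Nonempty (Px P)] {M : ℝ}
    {u : Env → Px P → ℝ} (hu : ∀ η S, |u η S| ≤ M) (near box : Px P → ℤ) (hbx : ∀ S, box S ∈ Icc (0 : ℤ) N)
    (nb : ℤ → Finset ℤ) {p C θ0 : ℝ} (hp : 1 ≤ p) (hC : 0 ≤ C) (hQ : QI μ p C θ0) {k : ℕ} {Qs : Finset Pt} (r : Pt → ℤ)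
    {B0 C0 ε : ℝ} (φ : (Fin k → ℤ) → Pt → Env → ℝ) (hφm : ∀ b, ∀ q ∈ Qs, Measurable (φ b q))
    (hφp : ∀ b, PredR r Qs (φ b)) (hφb : ∀ b, ∀ q ∈ Qs, ∀ η, |φ b q η| ≤ θ0)
    (hφs : ∀ b η, ∑ q ∈ Qs, φ b q η ^ 2 ≤ B0) {Ω : Set Env} (hΩ : MeasurableSet Ω)
    (hg3 : ∀ η ∈ Ω, gm (lw μ s η N P) (fun S => if near S ∈ nb (box S) then 0 else 1) ≤ ε)
    {Λ : ℝ} {Ψ Ψ' : Env → (Fin k → Px P) → ℝ} (h0 : ∀ η x, 0 ≤ Ψ η x) (hΛ : ∀ η x, Ψ η x ≤ Λ)
    (h0' : ∀ η x, 0 ≤ Ψ' η x) (hm : ∀ x, Measurable fun η => Ψ' η x) (hC0 : 0 ≤ C0)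
    (hstep : ∀ η ∈ Ω, ∀ b : Fin k → ℤ,
      rep k (fun S => lw μ s η N P S + (if near S ∈ (H43.bx b).biUnion nb then u η S + M else 0))
        (fun x => if (fun i => box (x i)) = b then Ψ η x else 0) ≤
      rep k (lw μ s (Sh Qs (φ b) η) N P) (fun x => if (fun i => box (x i)) = b then Ψ' (Sh Qs (φ b) η) x else 0) + C0) :
    ∫⁻ η, ENNReal.ofReal (rep k (fun S => lw μ s η N P S + u η S) (Ψ η)) ∂(law μ) ≤
      ENNReal.ofReal (Real.exp (C * B0)) * ((((N + 1 : ℕ) : ℝ≥0∞) ^ k) ^ (1 - 1 / p) *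
          (∫⁻ η, ENNReal.ofReal (rep k (lw μ s η N P) (Ψ' η)) ^ p ∂(law μ)) ^ (1 / p)) +
      ENNReal.ofReal ((N + 1 : ℝ) ^ k * C0 + Λ * k * (Real.exp (2 * M) * ε)) + ENNReal.ofReal Λ * law μ Ωᶜ := by
  set T := H43.bxs univ box k with hT
  set F : (Fin k → ℤ) → Env → ℝ≥0∞ := fun b η =>
    ENNReal.ofReal (rep k (lw μ s η N P) fun x => if (fun i => box (x i)) = b then Ψ' η x else 0) with hF
  have hFm : ∀ b, Measurable (F b) := fun b => by
    refine (meas_rep (fun S => meas_lw S) fun x => ?_).ennreal_ofReal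
    by_cases hx : (fun i => box (x i)) = b
    · simp only [hx, if_true]
      exact hm x
    · simp only [hx, if_false]
      exact measurable_const
  have hΛ0 : ∀ η : Env, 0 ≤ Λ := fun η => (h0 η fun _ => Classical.arbitrary _).trans (hΛ η _)
  have hΛn : 0 ≤ Λ := hΛ0 fun _ => 0
  have hcard : ((T.card : ℕ) : ℝ) ≤ (N + 1 : ℝ) ^ k := by
    have h1 : T.card ≤ (N + 1) ^ k := by
      rw [hT]
      unfold H43.bxs
      rw [Fintype.card_piFinset, prod_const, card_univ, Fintype.card_fin]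
      refine Nat.pow_le_pow_left ?_ k
      have h2 : univ.image box ⊆ Icc (0 : ℤ) N := fun z hz => by
        obtain ⟨S, _, rfl⟩ := mem_image.1 hz
        exact hbx S
      refine (card_le_card h2).trans ?_
      rw [Int.card_Icc]
      omega
    exact_mod_cast h1
  -- the pointwise bound
  set C1 : ℝ := (N + 1 : ℝ) ^ k * C0 + Λ * k * (Real.exp (2 * M) * ε) with hC1
  have hpt : ∀ η, ENNReal.ofReal (rep k (fun S => lw μ s η N P S + u η S) (Ψ η)) ≤
      ∑ b ∈ T, F b (Sh Qs (φ b) η) + ENNReal.ofReal C1 + Ωᶜ.indicator (fun _ => ENNReal.ofReal Λ) η := fun η => by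
    by_cases hη : η ∈ Ω
    · rw [Set.indicator_of_notMem (Set.notMem_compl_iff.2 hη), add_zero]
      have h1 := boxes7 (lw μ s η N P) (u η) (hu η) near box nb (h0 η) (hΛ η)
      have h2 : gm (fun S => lw μ s η N P S + u η S) (fun S => if near S ∈ nb (box S) then 0 else 1) ≤
          Real.exp (2 * M) * ε := by
        refine (gm_tilt (w := lw μ s η N P) (D := M) (fun S => by rw [add_sub_cancel_left]; exact hu η S) fun S => by
          split_ifs <;> norm_num).trans (mul_le_mul_of_nonneg_left (hg3 η hη) (Real.exp_pos _).le)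
      have h4 : rep k (fun S => lw μ s η N P S + u η S) (Ψ η) ≤
          ∑ b ∈ T, rep k (lw μ s (Sh Qs (φ b) η) N P)
            (fun x => if (fun i => box (x i)) = b then Ψ' (Sh Qs (φ b) η) x else 0) + C1 := by
        refine h1.trans ?_
        have h5 := sum_le_sum fun b (_ : b ∈ T) => hstep η hη b
        rw [sum_add_distrib, sum_const, nsmul_eq_mul] at h5
        have h6 : (T.card : ℝ) * C0 ≤ (N + 1 : ℝ) ^ k * C0 := mul_le_mul_of_nonneg_right hcard hC0
        have h7 : Λ * k * gm (fun S => lw μ s η N P S + u η S) (fun S => if near S ∈ nb (box S) then 0 else 1) ≤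
            Λ * k * (Real.exp (2 * M) * ε) := mul_le_mul_of_nonneg_left h2 (by positivity)
        rw [hC1]
        linarith
      refine (ENNReal.ofReal_le_ofReal h4).trans (ENNReal.ofReal_add_le.trans (add_le_add ?_ le_rfl))
      rw [ENNReal.ofReal_sum_of_nonneg fun b _ => rep_nonneg7 _ fun x => by
        split_ifs
        · exact h0' _ x
        · exact le_rfl]
    · rw [Set.indicator_of_mem (show η ∈ Ωᶜ from hη)]
      exact (ENNReal.ofReal_le_ofReal (rep_le_const7 _ (hΛ η))).trans le_add_self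
  have hSm : ∀ b ∈ T, Measurable fun η => F b (Sh Qs (φ b) η) := fun b _ => (hFm b).comp (Sh_meas (hφm b))
  have hms : Measurable fun η => ∑ b ∈ T, F b (Sh Qs (φ b) η) := Finset.measurable_fun_sum _ hSm
  have hq : ∀ b ∈ T, ∫⁻ η, F b (Sh Qs (φ b) η) ∂(law μ) ≤
      ENNReal.ofReal (Real.exp (C * B0)) * (∫⁻ η, F b η ^ p ∂(law μ)) ^ (1 / p) := fun b _ =>
    quasi_bd hp hC hQ r Qs (φ b) (hφm b) (hφp b) (hφb b) (hφs b) (F b) (hFm b)
  calc ∫⁻ η, ENNReal.ofReal (rep k (fun S => lw μ s η N P S + u η S) (Ψ η)) ∂(law μ)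
      ≤ ∫⁻ η, (∑ b ∈ T, F b (Sh Qs (φ b) η) + ENNReal.ofReal C1 + Ωᶜ.indicator (fun _ => ENNReal.ofReal Λ) η)
          ∂(law μ) := lintegral_mono hpt
    _ = ∑ b ∈ T, ∫⁻ η, F b (Sh Qs (φ b) η) ∂(law μ) + ENNReal.ofReal C1 + ENNReal.ofReal Λ * law μ Ωᶜ := by
        have hms1 : Measurable fun η => ∑ b ∈ T, F b (Sh Qs (φ b) η) + ENNReal.ofReal C1 := hms.add measurable_const
        rw [lintegral_add_left hms1, lintegral_add_left hms, lintegral_finsetSum _ hSm,
          lintegral_const, measure_univ, mul_one, lintegral_indicator_const hΩ.compl]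
    _ ≤ _ := by
        refine add_le_add (add_le_add ?_ le_rfl) le_rfl
        refine (sum_le_sum hq).trans ?_
        rw [← mul_sum]
        refine mul_le_mul_right ?_ _
        refine (H43.sum_norm_le (law μ) T F (fun b _ => (hFm b).aemeasurable) hp).trans ?_
        have h1p : 0 ≤ 1 - 1 / p := by
          rw [sub_nonneg, div_le_one (by linarith)]
          exact hp
        refine mul_le_mul' (ENNReal.rpow_le_rpow ?_ h1p) (le_of_eq ?_)
        · have h1 : T.card ≤ (N + 1) ^ k := by exact_mod_cast hcard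
          exact_mod_cast (Nat.cast_le (α := ℝ≥0∞)).2 h1
        · congr 1
          refine lintegral_congr fun η => ?_
          congr 1
          rw [hF]
          simp only
          rw [← ENNReal.ofReal_sum_of_nonneg fun b _ => rep_nonneg7 _ fun x => by
            split_ifs
            · exact h0' _ x
            · exact le_rfl]
          congr 1
          rw [← H41.rep_sum T k (lw μ s η N P) fun b x => if (fun i => box (x i)) = b then Ψ' η x else 0]
          congr 1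
          funext x
          rw [sum_ite_eq, if_pos]
          rw [hT]
          unfold H43.bxs
          rw [Fintype.mem_piFinset]
          exact fun i => mem_image_of_mem box (mem_univ _)

end Core

/-! ### The exponent removed -/

section Pow

theorem pow_one7 {x τ p : ℝ} (hx : 0 ≤ x) (hτ : 0 < τ) (hp : 1 ≤ p) : x ^ (1 / p) ≤ τ ^ (1 / p - 1) * (x + τ) := by
  have hp0 : 0 < p := by linarith
  have hq : 1 / p ≤ 1 := by
    rw [div_le_one hp0]
    exact hp
  have hq0 : 0 < 1 / p := by positivity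
  have h1 : x ^ (1 / p) ≤ (x + τ) ^ (1 / p) := Real.rpow_le_rpow hx (by linarith) hq0.le
  have h2 : (x + τ) ^ (1 / p) = (x + τ) ^ (1 / p - 1) * (x + τ) := by
    rw [Real.rpow_sub_one (by linarith : x + τ ≠ 0)]
    field_simp
  have h3 : (x + τ) ^ (1 / p - 1) ≤ τ ^ (1 / p - 1) :=
    Real.rpow_le_rpow_of_nonpos hτ (by linarith) (by linarith)
  rw [h2] at h1
  exact h1.trans (mul_le_mul_of_nonneg_right h3 (by linarith))

theorem lint_pow7 {Ω : Type*} [MeasurableSpace Ω] (ν : Measure Ω) [IsProbabilityMeasure ν] {G : Ω → ℝ}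
    (h0 : ∀ ω, 0 ≤ G ω) {Λ : ℝ} (hG : ∀ ω, G ω ≤ Λ) {p τ : ℝ} (hp : 1 ≤ p) (hτ : 0 < τ) :
    (∫⁻ ω, ENNReal.ofReal (G ω) ^ p ∂ν) ^ (1 / p) ≤
      ENNReal.ofReal (Λ ^ (1 - 1 / p) * τ ^ (1 / p - 1)) * (∫⁻ ω, ENNReal.ofReal (G ω) ∂ν + ENNReal.ofReal τ) := by
  have hp0 : 0 < p := by linarith
  have hq0 : 0 < 1 / p := by positivity
  obtain ⟨ω0⟩ : Nonempty Ω := by
    by_contra hne
    rw [not_nonempty_iff] at hne
    have := measure_univ (μ := ν)
    rw [Set.univ_eq_empty_iff.2 hne, measure_empty] at this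
    exact zero_ne_one this
  have hΛ : 0 ≤ Λ := (h0 ω0).trans (hG ω0)
  -- the bound of the power
  have h1 : ∫⁻ ω, ENNReal.ofReal (G ω) ^ p ∂ν ≤ ENNReal.ofReal (Λ ^ (p - 1)) * ∫⁻ ω, ENNReal.ofReal (G ω) ∂ν := by
    rw [← lintegral_const_mul' _ _ ENNReal.ofReal_ne_top]
    refine lintegral_mono fun ω => ?_
    rw [ENNReal.ofReal_rpow_of_nonneg (h0 ω) hp0.le, ← ENNReal.ofReal_mul (Real.rpow_nonneg hΛ _)]
    refine ENNReal.ofReal_le_ofReal ?_
    rcases (h0 ω).eq_or_lt with h | h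
    · rw [← h, Real.zero_rpow (by linarith), mul_zero]
    · have e : G ω ^ p = G ω ^ (p - 1) * G ω := by
        rw [Real.rpow_sub_one h.ne']
        field_simp
      rw [e]
      exact mul_le_mul_of_nonneg_right (Real.rpow_le_rpow h.le (hG ω) (by linarith)) h.le
  set X : ℝ≥0∞ := ∫⁻ ω, ENNReal.ofReal (G ω) ∂ν with hX
  have hXt : X ≠ ⊤ := by
    refine ((lintegral_mono fun ω => ENNReal.ofReal_le_ofReal (hG ω)).trans_lt ?_).ne
    rw [lintegral_const, measure_univ, mul_one]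
    exact ENNReal.ofReal_lt_top
  have h2 : (ENNReal.ofReal (Λ ^ (p - 1)) * X) ^ (1 / p) = ENNReal.ofReal (Λ ^ (1 - 1 / p)) * X ^ (1 / p) := by
    rw [ENNReal.mul_rpow_of_nonneg _ _ hq0.le, ENNReal.ofReal_rpow_of_nonneg (Real.rpow_nonneg hΛ _) hq0.le,
      ← Real.rpow_mul hΛ]
    congr 3
    field_simp
  have h3 : X ^ (1 / p) ≤ ENNReal.ofReal (τ ^ (1 / p - 1)) * (X + ENNReal.ofReal τ) := by
    obtain ⟨x, hx⟩ : ∃ x : ℝ, x = X.toReal := ⟨_, rfl⟩
    have hx0 : 0 ≤ x := by rw [hx]; exact ENNReal.toReal_nonneg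
    have e : X = ENNReal.ofReal x := by rw [hx, ENNReal.ofReal_toReal hXt]
    rw [e, ENNReal.ofReal_rpow_of_nonneg hx0 hq0.le, ← ENNReal.ofReal_add hx0 hτ.le,
      ← ENNReal.ofReal_mul (Real.rpow_nonneg hτ.le _)]
    exact ENNReal.ofReal_le_ofReal (pow_one7 hx0 hτ hp)
  calc (∫⁻ ω, ENNReal.ofReal (G ω) ^ p ∂ν) ^ (1 / p)
      ≤ (ENNReal.ofReal (Λ ^ (p - 1)) * X) ^ (1 / p) := ENNReal.rpow_le_rpow h1 hq0.le
    _ = ENNReal.ofReal (Λ ^ (1 - 1 / p)) * X ^ (1 / p) := h2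
    _ ≤ ENNReal.ofReal (Λ ^ (1 - 1 / p)) * (ENNReal.ofReal (τ ^ (1 / p - 1)) * (X + ENNReal.ofReal τ)) :=
        mul_le_mul_right h3 _
    _ = _ := by rw [← mul_assoc, ← ENNReal.ofReal_mul (Real.rpow_nonneg hΛ _)]

end Pow

end

end Pool.W7d29a1.C0.H7
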