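import Pool.Agent.W_7d29a1_C0.Loc7D
import Pool.Agent.W_7d29a1_HZ.Z74_ShJ

/-!
CURV0 (MP_7d29a1_pr), leaf E0: THE FORWARD FORM IN THE NAMES OF THE USERS (helper7).

`gwU`: the tilt `(t - a) g_j` of the centred window as a function of the past (`PA`), `wt_tA : wt .. = lw + tA c gwU`;
`lw_near7`: the log weights of all paths move by at most `D` when the environment moves by at most `D / K` on the slab (for the passengers);
`e0_fin7R`: integrals of real functions; `e0_Pm7`: over `Pm` (tilt, functional and passenger depend on the signs);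
`e0_wt7`: the measure `wt` of `Mod92`.
-/

set_option autoImplicit false

namespace Pool.W7d29a1.C0.H7

open Finset MeasureTheory Filter Topology Pool.Agent.W_7d29a1_F Pool.Agent.W_7d29a1_X Pool.Agent.W_7d29a1_C0.Mod92
  Pool.Agent.W_7d29a1_C0.H32 Pool.W7d29a1.C0.H27
open Pool.Agent.W_7d29a1_H (sl)
open Pool.Agent.W_7d29a1_HS (In wd)
open Pool.Agent.W_7d29a1_HZ (NSp wd' gp)
open Pool.Agent.W_7d29a1_Z74 (ZJ)
open Pool.W7d29a1.C0 (gz gm)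
open scoped ENNReal

noncomputable section

variable {μ : Measure ℝ} {s : ℝ} {N : ℕ} {P : Finset (Finset ℕ)}

/-! ### The passenger moves the weights by a bounded amount -/

theorem lw_near7 {c K : ℕ} {D : ℝ} (hD : 0 ≤ D) {η ζ : Env} (h1 : ∀ q, q ∉ slb c K → ζ q = η q)
    (h2 : ∀ q, |ζ q - η q| ≤ D / K) (S : Px P) : |lw μ s ζ N P S - lw μ s η N P S| ≤ D := by
  have e : ζ = Sh (slb c K) (fun q _ => ζ q - η q) η := by
    funext q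
    by_cases hq : q ∈ slb c K
    · rw [Sh_in _ _ hq]
      ring
    · rw [Sh_out _ _ hq, h1 q hq]
  rw [e]
  refine abs_lw_Sh_of (rws_slb c K) hD η (fun q _ => ?_) S
  exact h2 q

/-! ### The window -/

/-- The tilt of the window as a function of the past. -/
def gwU (μ : Measure ℝ) (s δ B : ℝ) (b j : ℕ) (a : ℤ) (t : ℝ) (η : Env) (T : Finset ℕ) : ℝ :=
  (t - a) * gw μ s η δ B a (j - b) (j + b - (j - b)) (j - (j - b)) (pos T (j - b)) (pos T (j + b))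

theorem W_upd {c : ℕ} (η : Env) {u : Pt} (x : ℝ) (hu : (c : ℤ) < u.1) (a : Pt) (n : ℕ) (y : ℤ) (ha : a.1 + n ≤ c) :
    W μ s (Function.update η u x) a n y = W μ s η a n y :=
  Pool.Agent.W_7d29a1_HZ.Z74.W_rows s a n y fun p _ hp => Function.update_of_ne (by rintro rfl; omega) _ _

theorem gw_upd {c : ℕ} (η : Env) {u : Pt} (v : ℝ) (hu : (c : ℤ) < u.1) (δ B : ℝ) (a : ℤ) {c' l k : ℕ} (hk : k ≤ l)
    (hc : c' + l ≤ c) (x y : ℤ) : gw μ s (Function.update η u v) δ B a c' l k x y = gw μ s η δ B a c' l k x y := by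
  have h1 : ∀ (p q : ℤ), ZJ μ s (Function.update η u v) ((c' : ℤ), x) k (l - k) p q = ZJ μ s η ((c' : ℤ), x) k (l - k) p q :=
    fun p q => by
      unfold Pool.Agent.W_7d29a1_Z74.ZJ
      refine sum_congr rfl fun z _ => ?_
      rw [W_upd η v hu _ _ _ (by simp only; omega), W_upd η v hu _ _ _ (by simp only; omega)]
  unfold gw lk
  rw [h1, W_upd η v hu _ _ _ (by simp only; omega)]

theorem gwU_PA {δ B t : ℝ} (hB : 0 ≤ B) {b j : ℕ} {a : ℤ} (ha : |(a : ℝ)| ≤ 1) (ht : |t| ≤ 1) {c : ℕ}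
    (hc : j + b ≤ c) : PA c B (gwU μ s δ B b j a t) where
  bd η T := by
    unfold gwU
    rw [abs_mul]
    have h1 := abs_gw (μ := μ) (s := s) η (δ := δ) hB ha (j - b) (j + b - (j - b)) (j - (j - b)) (pos T (j - b)) (pos T (j + b))
    have h2 : |t - a| ≤ 2 := (abs_sub _ _).trans (by linarith)
    calc |t - a| * |gw μ s η δ B a (j - b) (j + b - (j - b)) (j - (j - b)) (pos T (j - b)) (pos T (j + b))| ≤ 2 * (B / 2) :=
          mul_le_mul h2 h1 (abs_nonneg _) (by norm_num)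
      _ = B := by ring
  bl η u x hu := by
    funext T
    unfold gwU
    rw [gw_upd η x hu δ B a (by omega : j - (j - b) ≤ j + b - (j - b)) (by omega : j - b + (j + b - (j - b)) ≤ c)]
  ms T := (meas_gw (μ := μ) (s := s) δ B a _ _ _ _ _).const_mul _

theorem gwU_tA {δ B t : ℝ} {b j : ℕ} {a : ℤ} {c : ℕ} (hc : j + b ≤ c) (η : Env) (S : Px P) :
    tA c (gwU μ s δ B b j a t) η S = (t - a) * gj μ s η δ B b j a S := by
  unfold tA gwU gj ps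
  rw [pos_inter S.1 hc, pos_inter S.1 (by omega : j - b ≤ c)]

theorem wt_tA {δ B t : ℝ} {b j : ℕ} {a : ℤ} {c : ℕ} (hc : j + b ≤ c) (η : Env) :
    wt μ s η N P δ B b j a t = fun S => lw μ s η N P S + tA c (gwU μ s δ B b j a t) η S := by
  funext S
  rw [gwU_tA hc]
  unfold wt
  rw [Pi.add_apply, Pi.smul_apply, smul_eq_mul]

/-! ### Real integrals -/

theorem real7 {Ω : Type*} [MeasurableSpace Ω] {ν : Measure Ω} [IsProbabilityMeasure ν] {F H : Ω → ℝ} (hF0 : ∀ ω, 0 ≤ F ω)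
    (hH0 : ∀ ω, 0 ≤ H ω) (hFm : Measurable F) (hHm : Measurable H) {Λ : ℝ} (hH : ∀ ω, H ω ≤ Λ) {a τ L : ℝ} (ha : 0 ≤ a)
    (hτ : 0 ≤ τ) (hL : 0 ≤ L) {G : Set Ω}
    (h : ∫⁻ ω, ENNReal.ofReal (F ω) ∂ν ≤ ENNReal.ofReal a * (∫⁻ ω, ENNReal.ofReal (H ω) ∂ν + ENNReal.ofReal τ) +
      ENNReal.ofReal L * ν G) : ∫ ω, F ω ∂ν ≤ a * (∫ ω, H ω ∂ν + τ) + L * (ν G).toReal := by
  have hHi : Integrable H ν := Integrable.of_bound hHm.aestronglyMeasurable Λ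
    (Eventually.of_forall fun ω => by rw [Real.norm_eq_abs, abs_of_nonneg (hH0 ω)]; exact hH ω)
  have hI : 0 ≤ ∫ ω, H ω ∂ν := integral_nonneg hH0
  have e1 : ∫⁻ ω, ENNReal.ofReal (H ω) ∂ν = ENNReal.ofReal (∫ ω, H ω ∂ν) :=
    (ofReal_integral_eq_lintegral_ofReal hHi (Eventually.of_forall hH0)).symm
  have e2 : ν G = ENNReal.ofReal (ν G).toReal := (ENNReal.ofReal_toReal (measure_ne_top ν G)).symm
  rw [e1, e2, ← ENNReal.ofReal_add hI hτ, ← ENNReal.ofReal_mul ha, ← ENNReal.ofReal_mul hL,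
    ← ENNReal.ofReal_add (mul_nonneg ha (add_nonneg hI hτ)) (mul_nonneg hL ENNReal.toReal_nonneg)] at h
  rw [integral_eq_lintegral_of_nonneg_ae (Eventually.of_forall hF0) hFm.aestronglyMeasurable]
  refine (ENNReal.toReal_mono ENNReal.ofReal_ne_top h).trans (le_of_eq (ENNReal.toReal_ofReal ?_))
  exact add_nonneg (mul_nonneg ha (add_nonneg hI hτ)) (mul_nonneg hL ENNReal.toReal_nonneg)

/-- The statement of `e0_fin7` at one `N`, for integrals of real functions. -/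
def E0R (μ : Measure ℝ) (s : ℝ) (k N : ℕ) (P : Finset (Finset ℕ)) (c K : ℕ) (M ε K' : ℝ) : Prop :=
  ∀ U : Env → Finset ℕ → ℝ, PA c M U → ∀ G : Set Env, MeasurableSet G →
      ∀ Ψ Ψ' : Env → (Fin k → Px P) → ℝ, (∀ η x, 0 ≤ Ψ η x) → (∀ η x, Ψ η x ≤ (N : ℝ) ^ K') →
      (∀ η x, 0 ≤ Ψ' η x) → (∀ η x, Ψ' η x ≤ (N : ℝ) ^ K') → (∀ x, Measurable fun η => Ψ η x) →
      (∀ x, Measurable fun η => Ψ' η x) →
      (∀ η, ∀ x x' : Fin k → Px P, (∀ i, pB (c + K) (x i) = pB (c + K) (x' i)) → Ψ η x = Ψ η x') →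
      (∀ η ∈ G, ∀ ζ : Env, (∀ q, q ∉ slb c K → ζ q = η q) → (∀ q, |ζ q - η q| ≤ 2 * M / K) → ∀ x, Ψ η x ≤ Ψ' ζ x) →
      ∫ η, rep k (fun S => lw μ s η N P S + tA c U η S) (Ψ η) ∂(law μ) ≤
        (N : ℝ) ^ ε * (∫ η, rep k (lw μ s η N P) (Ψ' η) ∂(law μ) + (N : ℝ) ^ (-K')) + (N : ℝ) ^ K' * (law μ Gᶜ).toReal

variable [IsProbabilityMeasure μ]

/-- **E0, FINAL FORM, FORWARD, real integrals.** -/
theorem e0_fin7R {c₀ C₀ : ℝ} {n₀ : ℕ} (h : In μ s c₀ C₀ n₀)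
    (hQI : ∀ p : ℝ, 1 < p → ∃ C θ0 : ℝ, 0 ≤ C ∧ 0 < θ0 ∧ QI μ p C θ0) {κ : ℝ} (hκ : 0 < κ) (hκ1 : κ ≤ 1) (k : ℕ) {ε K' : ℝ}
    (hε : 0 < ε) (hK' : 0 ≤ K') : ∃ δ' ε₁ : ℝ, 0 < δ' ∧ 0 < ε₁ ∧ ∃ N₀ : ℕ, ∀ N : ℕ, N₀ ≤ N →
      ∀ P : Finset (Finset ℕ), Pok μ s N δ' P → ∀ c K : ℕ, (N : ℝ) ^ κ ≤ c → (N : ℝ) ^ κ ≤ K → c + K ≤ N →
      ∀ M : ℝ, 0 ≤ M → M ≤ (N : ℝ) ^ ε₁ → E0R μ s k N P c K M ε K' := by
  obtain ⟨δ', ε₁, hδ', hε₁, N₀, key⟩ := e0_fin7 h hQI hκ hκ1 k hε hK'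
  refine ⟨δ', ε₁, hδ', hε₁, N₀, fun N hN P hP c K hc hK hcK M hM0 hM U hU G hG Ψ Ψ' h0 hΛ h0' hΛ' hm hm' hΨ hpas => ?_⟩
  have := hP.ne
  have h1 := key N hN P hP c K hc hK hcK M hM0 hM U hU G hG Ψ Ψ' h0 hΛ h0' hΛ' hm' hΨ hpas
  refine real7 (fun η => rep_nonneg7 _ (h0 η)) (fun η => rep_nonneg7 _ (h0' η)) ?_ ?_ (fun η => rep_le_const7 _ (hΛ' η))
    (Real.rpow_nonneg (Nat.cast_nonneg _) _) (Real.rpow_nonneg (Nat.cast_nonneg _) _) (Real.rpow_nonneg (Nat.cast_nonneg _) _) h1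
  · exact meas_rep (fun S => (meas_lw S).add (hU.ms _)) hm
  · exact meas_rep (fun S => meas_lw S) hm'

/-! ### Over the environment and the signs -/

/-- **E0 over `Pm`**: the tilt, the functional and the passenger may depend on the signs. -/
theorem e0_Pm7 {k : ℕ} {c K : ℕ} {M ε K' : ℝ} [Nonempty (Px P)] (h : E0R μ s k N P c K M ε K')
    {U : Finset ℕ → Env → Finset ℕ → ℝ} (hU : ∀ A, PA c M (U A)) {G : Set Env} (hG : MeasurableSet G)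
    {Ψ Ψ' : Env × Finset ℕ → (Fin k → Px P) → ℝ} (h0 : ∀ ω x, 0 ≤ Ψ ω x) (hΛ : ∀ ω x, Ψ ω x ≤ (N : ℝ) ^ K')
    (h0' : ∀ ω x, 0 ≤ Ψ' ω x) (hΛ' : ∀ ω x, Ψ' ω x ≤ (N : ℝ) ^ K') (hm : ∀ x A, Measurable fun η => Ψ (η, A) x)
    (hm' : ∀ x A, Measurable fun η => Ψ' (η, A) x)
    (hΨ : ∀ ω, ∀ x x' : Fin k → Px P, (∀ i, pB (c + K) (x i) = pB (c + K) (x' i)) → Ψ ω x = Ψ ω x')
    (hpas : ∀ A, ∀ η ∈ G, ∀ ζ : Env, (∀ q, q ∉ slb c K → ζ q = η q) → (∀ q, |ζ q - η q| ≤ 2 * M / K) →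
      ∀ x, Ψ (η, A) x ≤ Ψ' (ζ, A) x) :
    ∫ ω, rep k (fun S => lw μ s ω.1 N P S + tA c (U ω.2) ω.1 S) (Ψ ω) ∂(Pm μ N) ≤
      (N : ℝ) ^ ε * (∫ ω, rep k (lw μ s ω.1 N P) (Ψ' ω) ∂(Pm μ N) + (N : ℝ) ^ (-K')) + (N : ℝ) ^ K' * (law μ Gᶜ).toReal := by
  have m1 : ∀ A, Measurable fun η => rep k (fun S => lw μ s η N P S + tA c (U A) η S) (Ψ (η, A)) := fun A =>
    meas_rep (fun S => (meas_lw S).add ((hU A).ms _)) fun x => hm x A
  have m2 : ∀ A, Measurable fun η => rep k (lw μ s η N P) (Ψ' (η, A)) := fun A =>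
    meas_rep (fun S => meas_lw S) fun x => hm' x A
  have i1 : ∀ A, Integrable (fun η => rep k (fun S => lw μ s η N P S + tA c (U A) η S) (Ψ (η, A))) (law μ) := fun A =>
    Integrable.of_bound (m1 A).aestronglyMeasurable ((N : ℝ) ^ K') (Eventually.of_forall fun η => by
      rw [Real.norm_eq_abs, abs_of_nonneg (rep_nonneg7 _ (h0 (η, A)))]
      exact rep_le_const7 _ (hΛ (η, A)))
  have i2 : ∀ A, Integrable (fun η => rep k (lw μ s η N P) (Ψ' (η, A))) (law μ) := fun A =>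
    Integrable.of_bound (m2 A).aestronglyMeasurable ((N : ℝ) ^ K') (Eventually.of_forall fun η => by
      rw [Real.norm_eq_abs, abs_of_nonneg (rep_nonneg7 _ (h0' (η, A)))]
      exact rep_le_const7 _ (hΛ' (η, A)))
  rw [int_Pm (Φ := fun ω : Env × Finset ℕ => rep k (fun S => lw μ s ω.1 N P S + tA c (U ω.2) ω.1 S) (Ψ ω))
      (fun A _ => i1 A) (fun A => m1 A),
    int_Pm (Φ := fun ω : Env × Finset ℕ => rep k (lw μ s ω.1 N P) (Ψ' ω)) (fun A _ => i2 A) (fun A => m2 A)]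
  have hcard : ((2 : ℝ) ^ N)⁻¹ * ∑ _A ∈ (range N).powerset, (1 : ℝ) = 1 := by
    rw [sum_const, card_powerset, card_range, nsmul_eq_mul, mul_one]
    push_cast
    field_simp
  have hA : ∀ A ∈ (range N).powerset, ∫ η, rep k (fun S => lw μ s η N P S + tA c (U A) η S) (Ψ (η, A)) ∂(law μ) ≤
      (N : ℝ) ^ ε * (∫ η, rep k (lw μ s η N P) (Ψ' (η, A)) ∂(law μ) + (N : ℝ) ^ (-K')) + (N : ℝ) ^ K' * (law μ Gᶜ).toReal :=
    fun A _ => h (U A) (hU A) G hG (fun η => Ψ (η, A)) (fun η => Ψ' (η, A)) (fun η => h0 (η, A)) (fun η => hΛ (η, A))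
      (fun η => h0' (η, A)) (fun η => hΛ' (η, A)) (fun x => hm x A) (fun x => hm' x A) (fun η => hΨ (η, A)) (hpas A)
  have h1 := mul_le_mul_of_nonneg_left (sum_le_sum hA) (by positivity : (0 : ℝ) ≤ ((2 : ℝ) ^ N)⁻¹)
  refine h1.trans (le_of_eq ?_)
  rw [sum_add_distrib, ← mul_sum, sum_add_distrib, mul_add]
  have e : ∀ x : ℝ, ((2 : ℝ) ^ N)⁻¹ * ∑ _A ∈ (range N).powerset, x = x := fun x => by
    have e1 : ∑ _A ∈ (range N).powerset, x = (∑ _A ∈ (range N).powerset, (1 : ℝ)) * x := by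
      rw [sum_mul]
      simp only [one_mul]
    rw [e1, ← mul_assoc, hcard, one_mul]
  rw [e]
  congr 1
  rw [mul_left_comm, mul_add, e]

/-- **E0 for the measure `wt` of the window of the row `j`**, every `t ∈ [-1, 1]`, over the environment and the signs. -/
theorem e0_wt7 {k : ℕ} {c K : ℕ} {B ε K' : ℝ} [Nonempty (Px P)] (h : E0R μ s k N P c K B ε K') (hB : 0 ≤ B) {δ t : ℝ}
    (ht : |t| ≤ 1) {b j : ℕ} (hc : j + b ≤ c) {G : Set Env} (hG : MeasurableSet G)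
    {Ψ Ψ' : Env × Finset ℕ → (Fin k → Px P) → ℝ} (h0 : ∀ ω x, 0 ≤ Ψ ω x) (hΛ : ∀ ω x, Ψ ω x ≤ (N : ℝ) ^ K')
    (h0' : ∀ ω x, 0 ≤ Ψ' ω x) (hΛ' : ∀ ω x, Ψ' ω x ≤ (N : ℝ) ^ K') (hm : ∀ x A, Measurable fun η => Ψ (η, A) x)
    (hm' : ∀ x A, Measurable fun η => Ψ' (η, A) x)
    (hΨ : ∀ ω, ∀ x x' : Fin k → Px P, (∀ i, pB (c + K) (x i) = pB (c + K) (x' i)) → Ψ ω x = Ψ ω x')
    (hpas : ∀ A, ∀ η ∈ G, ∀ ζ : Env, (∀ q, q ∉ slb c K → ζ q = η q) → (∀ q, |ζ q - η q| ≤ 2 * B / K) →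
      ∀ x, Ψ (η, A) x ≤ Ψ' (ζ, A) x) :
    ∫ ω, rep k (wt μ s ω.1 N P δ B b j (sg ω.2 j) t) (Ψ ω) ∂(Pm μ N) ≤
      (N : ℝ) ^ ε * (∫ ω, rep k (wm μ s N P ω) (Ψ' ω) ∂(Pm μ N) + (N : ℝ) ^ (-K')) + (N : ℝ) ^ K' * (law μ Gᶜ).toReal := by
  have h1 := e0_Pm7 h (U := fun A => gwU μ s δ B b j (sg A j) t) (fun A => gwU_PA hB (abs_sg A j).le ht hc) hG h0 hΛ h0' hΛ'
    hm hm' hΨ hpas
  refine le_trans (le_of_eq ?_) h1
  refine integral_congr_ae (Eventually.of_forall fun ω => ?_)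
  simp only [wt_tA (N := N) (P := P) (t := t) (δ := δ) (B := B) (a := sg ω.2 j) hc]

end

end Pool.W7d29a1.C0.H7
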