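import Pool.Agent.W_7d29a1_C0.Loc7E
import Pool.Agent.W_7d29a1_HZ.Z74_Num74

/-!
CURV0 (MP_7d29a1_pr), leaf E0: the numeric part of the final form (helper7). Nothing here but powers of `N`.
-/

set_option autoImplicit false

namespace Pool.W7d29a1.C0.H7

open Finset MeasureTheory Filter Topology Pool.Agent.W_7d29a1_F Pool.W7d29a1.C0.H27
open Pool.Agent.W_7d29a1_HZ.Z74 (ev_pow ev_pow_le ev_exp)
open scoped ENNReal

noncomputable section

/-- The exponent of the quasi-invariance. -/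
def p7 (k : ℕ) (ε K' : ℝ) : ℝ := 1 + ε / (4 * (k + K' + 1))

theorem p7_gt {k : ℕ} {ε K' : ℝ} (hε : 0 < ε) (hK' : 0 ≤ K') : 1 < p7 k ε K' := by
  unfold p7
  have : 0 < ε / (4 * (k + K' + 1)) := by positivity
  linarith

/-- The numeric facts. -/
theorem num7 (k : ℕ) {K' κ a K₁ g C θ0 e1 e2 : ℝ} (hκ : 0 < κ) (ha : 0 < a)
    (hK1 : 1 ≤ K₁) (hg : 0 < g) (hC : 0 ≤ C) (hθ : 0 < θ0) (he1 : e1 ≤ a * κ / 8) (he1' : e1 ≤ g / 2) (he1'' : e1 ≤ κ / 2)
    (he20 : 0 ≤ e2) (he2 : e2 ≤ a * κ / 4) : ∀ᶠ N : ℕ in atTop, Real.exp (-(N : ℝ) ^ g) < 1 ∧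
      ∀ (c K : ℕ) (M W : ℝ), (N : ℝ) ^ κ ≤ K → c + K ≤ N → 0 ≤ M → M ≤ (N : ℝ) ^ e1 → 1 ≤ W → W ≤ K₁ * (K : ℝ) ^ (1 - a) →
        2 * M / K ≤ θ0 ∧
        C * (k * K * (4 * (K₁ * (N : ℝ) ^ e2 * W) + 1) * (2 * M / K) ^ 2 +
          (slb c K).card * (Real.exp (4 * M) * Real.exp (-(N : ℝ) ^ g)) ^ 2) ≤ 1 ∧
        (N + 1 : ℝ) ^ k * (4 * k * Real.exp (4 * M) * Real.exp (-(N : ℝ) ^ g) * (N : ℝ) ^ K') +
          (N : ℝ) ^ K' * k * (Real.exp (2 * M) * Real.exp (-(N : ℝ) ^ g)) ≤ (N : ℝ) ^ (-K') / 4 := by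
  have hb : 0 < a * κ / 2 := by positivity
  have v1 := ev_pow (show 0 < κ / 2 by positivity) (2 / θ0)
  have v2 := ev_pow hb (40 * k * K₁ ^ 2 * C)
  have v3 := ev_exp (A := 4 * (C + 1)) (a := 1) (b := g) (c := g / 2) (by positivity) one_pos hg (by linarith) 2
  have v4 := ev_pow (show 0 < g / 2 by positivity) 8
  have v5 := ev_exp (A := 5 * 2 ^ k * (k + 1)) (a := 1 / 2) (b := g) (c := g / 2) (by positivity) (by norm_num) hg (by linarith)
    (k + K')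
  have v6 := ev_exp (A := 4) (a := 1) (b := g / 2) (c := g / 4) (by norm_num) one_pos (by positivity) (by linarith) K'
  filter_upwards [v1, v2, v3, v4, v5, v6, eventually_ge_atTop 2] with N h1 h2 h3 h4 h5 h6 hN2
  have hN : (2 : ℝ) ≤ N := by exact_mod_cast hN2
  have hN0 : (0 : ℝ) < N := by linarith
  have hN1 : (1 : ℝ) ≤ N := by linarith
  have hNg : 0 < (N : ℝ) ^ g := Real.rpow_pos_of_pos hN0 _
  have hexp1 : Real.exp (-(N : ℝ) ^ g) < 1 := by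
    rw [Real.exp_lt_one_iff]
    linarith
  refine ⟨hexp1, fun c K M W hK hcK hM0 hM hW1 hW => ?_⟩
  have hKp : (0 : ℝ) < K := (Real.rpow_pos_of_pos hN0 κ).trans_le hK
  have hKN : (K : ℝ) ≤ N := by exact_mod_cast (by omega : K ≤ N)
  have hgg : (N : ℝ) ^ g = (N : ℝ) ^ (g / 2) * (N : ℝ) ^ (g / 2) := by
    rw [← Real.rpow_add hN0]
    congr 1
    ring
  have hMg : M ≤ (N : ℝ) ^ (g / 2) := hM.trans (Real.rpow_le_rpow_of_exponent_le hN1 he1')
  have h8M : 8 * M ≤ (N : ℝ) ^ g := by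
    rw [hgg]
    nlinarith [Real.rpow_pos_of_pos hN0 (g / 2)]
  have hNpos : ∀ x : ℝ, 0 < (N : ℝ) ^ x := fun x => Real.rpow_pos_of_pos hN0 x
  refine ⟨?_, ?_, ?_⟩
  · -- the size of the field
    rw [div_le_iff₀ hKp]
    have e : (N : ℝ) ^ κ = (N : ℝ) ^ (κ / 2) * (N : ℝ) ^ (κ / 2) := by
      rw [← Real.rpow_add hN0]
      congr 1
      ring
    have e2 : M ≤ (N : ℝ) ^ (κ / 2) := hM.trans (Real.rpow_le_rpow_of_exponent_le hN1 he1'')
    rw [div_le_iff₀ hθ] at h1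
    have h7 := hNpos (κ / 2)
    calc 2 * M ≤ ((N : ℝ) ^ (κ / 2) * θ0) * (N : ℝ) ^ (κ / 2) := by nlinarith
      _ = θ0 * (N : ℝ) ^ κ := by rw [e]; ring
      _ ≤ θ0 * K := mul_le_mul_of_nonneg_left hK hθ.le
  · -- the sum of the squares
    have hR1 : 1 ≤ K₁ * (N : ℝ) ^ e2 * W := by
      have h7 : 1 ≤ (N : ℝ) ^ e2 := Real.one_le_rpow hN1 he20
      calc (1 : ℝ) = 1 * 1 * 1 := by norm_num
        _ ≤ K₁ * (N : ℝ) ^ e2 * W := by gcongr
    have p1 : C * (k * K * (4 * (K₁ * (N : ℝ) ^ e2 * W) + 1) * (2 * M / K) ^ 2) ≤ 1 / 2 := by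
      have q1 : k * K * (4 * (K₁ * (N : ℝ) ^ e2 * W) + 1) * (2 * M / K) ^ 2 ≤
          20 * k * (K₁ * (N : ℝ) ^ e2 * W) * M ^ 2 / K := by
        rw [div_pow, mul_div_assoc', div_le_div_iff₀ (by positivity) hKp]
        have q2 : 4 * (K₁ * (N : ℝ) ^ e2 * W) + 1 ≤ 5 * (K₁ * (N : ℝ) ^ e2 * W) := by linarith
        have q3 : 0 ≤ (k : ℝ) * K * M ^ 2 * K := by positivity
        nlinarith [mul_le_mul_of_nonneg_left q2 q3]
      have q4 : W * M ^ 2 / K ≤ K₁ * (N : ℝ) ^ (2 * e1) * (N : ℝ) ^ (-(a * κ)) := by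
        have q5 : M ^ 2 ≤ (N : ℝ) ^ (2 * e1) := by
          have : (N : ℝ) ^ (2 * e1) = ((N : ℝ) ^ e1) ^ 2 := by
            rw [← Real.rpow_natCast, ← Real.rpow_mul hN0.le]
            congr 1
            push_cast
            ring
          rw [this]
          exact pow_le_pow_left₀ hM0 hM 2
        have q6 : W / K ≤ K₁ * (N : ℝ) ^ (-(a * κ)) := by
          rw [div_le_iff₀ hKp]
          have q7 : (K : ℝ) ^ (1 - a) = (K : ℝ) ^ (-a) * K := by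
            rw [← Real.rpow_add_one hKp.ne']
            congr 1
            ring
          have q8 : (K : ℝ) ^ (-a) ≤ (N : ℝ) ^ (-(a * κ)) := by
            have : (N : ℝ) ^ (-(a * κ)) = ((N : ℝ) ^ κ) ^ (-a) := by
              rw [← Real.rpow_mul hN0.le]
              congr 1
              ring
            rw [this]
            exact Real.rpow_le_rpow_of_nonpos (hNpos κ) hK (by linarith)
          calc W ≤ K₁ * ((K : ℝ) ^ (-a) * K) := by rw [← q7]; exact hW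
            _ ≤ K₁ * ((N : ℝ) ^ (-(a * κ)) * K) := by gcongr
            _ = _ := by ring
        calc W * M ^ 2 / K = W / K * M ^ 2 := by ring
          _ ≤ K₁ * (N : ℝ) ^ (-(a * κ)) * (N : ℝ) ^ (2 * e1) := mul_le_mul q6 q5 (sq_nonneg _) (by positivity)
          _ = _ := by ring
      have q9 : (N : ℝ) ^ e2 * ((N : ℝ) ^ (2 * e1) * (N : ℝ) ^ (-(a * κ))) ≤ (N : ℝ) ^ (-(a * κ / 2)) := by
        rw [← Real.rpow_add hN0, ← Real.rpow_add hN0]
        refine Real.rpow_le_rpow_of_exponent_le hN1 ?_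
        linarith
      have q10 : 40 * k * K₁ ^ 2 * C * (N : ℝ) ^ (-(a * κ / 2)) ≤ 1 := by
        rw [Real.rpow_neg hN0.le, ← div_eq_mul_inv, div_le_one (hNpos _)]
        exact h2
      calc C * (k * K * (4 * (K₁ * (N : ℝ) ^ e2 * W) + 1) * (2 * M / K) ^ 2)
          ≤ C * (20 * k * (K₁ * (N : ℝ) ^ e2 * W) * M ^ 2 / K) := mul_le_mul_of_nonneg_left q1 hC
        _ = 20 * k * K₁ * C * (N : ℝ) ^ e2 * (W * M ^ 2 / K) := by ring
        _ ≤ 20 * k * K₁ * C * (N : ℝ) ^ e2 * (K₁ * (N : ℝ) ^ (2 * e1) * (N : ℝ) ^ (-(a * κ))) := by gcongr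
        _ = 20 * k * K₁ ^ 2 * C * ((N : ℝ) ^ e2 * ((N : ℝ) ^ (2 * e1) * (N : ℝ) ^ (-(a * κ)))) := by ring
        _ ≤ 20 * k * K₁ ^ 2 * C * (N : ℝ) ^ (-(a * κ / 2)) := by gcongr
        _ ≤ 1 / 2 := by linarith
    have p2 : C * ((slb c K).card * (Real.exp (4 * M) * Real.exp (-(N : ℝ) ^ g)) ^ 2) ≤ 1 / 2 := by
      rw [slb_card]
      have q1 : (K : ℝ) * (c + K + 1) ≤ 2 * (N : ℝ) ^ (2 : ℝ) := by
        have q2 : (c : ℝ) + K ≤ N := by exact_mod_cast hcK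
        rw [Real.rpow_two]
        have q3 : (c : ℝ) + K + 1 ≤ 2 * N := by linarith
        calc (K : ℝ) * (c + K + 1) ≤ N * (2 * N) := mul_le_mul hKN q3 (by positivity) hN0.le
          _ = 2 * (N : ℝ) ^ 2 := by ring
      have q3 : (Real.exp (4 * M) * Real.exp (-(N : ℝ) ^ g)) ^ 2 ≤ Real.exp (-(1 * (N : ℝ) ^ g)) := by
        rw [← Real.exp_add, ← Real.exp_nat_mul]
        refine Real.exp_le_exp.2 ?_
        push_cast
        linarith
      calc C * (K * (c + K + 1) * (Real.exp (4 * M) * Real.exp (-(N : ℝ) ^ g)) ^ 2)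
          ≤ (C + 1) * (2 * (N : ℝ) ^ (2 : ℝ) * Real.exp (-(1 * (N : ℝ) ^ g))) := by
            refine mul_le_mul (by linarith) ?_ (by positivity) (by linarith)
            exact mul_le_mul q1 q3 (by positivity) (by positivity)
        _ = 1 / 2 * (4 * (C + 1) * (N : ℝ) ^ (2 : ℝ) * Real.exp (-(1 * (N : ℝ) ^ g))) := by ring
        _ ≤ 1 / 2 * (1 / 2 * Real.exp (-(N : ℝ) ^ (g / 2))) := mul_le_mul_of_nonneg_left h3 (by norm_num)
        _ ≤ 1 / 2 * (1 / 2 * 1) := by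
            have : Real.exp (-(N : ℝ) ^ (g / 2)) ≤ 1 := by
              rw [Real.exp_le_one_iff]
              linarith [hNpos (g / 2)]
            gcongr
        _ ≤ 1 / 2 := by norm_num
    rw [mul_add]
    linarith
  · -- the additive error
    have q0 : ∀ x : ℝ, x ≤ 4 * M → Real.exp x * Real.exp (-(N : ℝ) ^ g) ≤ Real.exp (-(1 / 2 * (N : ℝ) ^ g)) := fun x hx => by
      rw [← Real.exp_add]
      refine Real.exp_le_exp.2 ?_
      linarith
    have q1 := q0 (4 * M) le_rfl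
    have q2 := q0 (2 * M) (by linarith)
    have q3 : (N + 1 : ℝ) ^ k ≤ 2 ^ k * (N : ℝ) ^ (k : ℝ) := by
      rw [Real.rpow_natCast, ← mul_pow]
      exact pow_le_pow_left₀ (by linarith) (by linarith) k
    have q4 : (1 : ℝ) ≤ 2 ^ k * (N : ℝ) ^ (k : ℝ) := by
      refine le_trans ?_ q3
      exact one_le_pow₀ (by linarith)
    have q5 : (N : ℝ) ^ (k + K') = (N : ℝ) ^ (k : ℝ) * (N : ℝ) ^ K' := Real.rpow_add hN0 _ _
    set E := Real.exp (-(1 / 2 * (N : ℝ) ^ g)) with hE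
    have hE0 : 0 < E := Real.exp_pos _
    have q6 : (N + 1 : ℝ) ^ k * (4 * k * Real.exp (4 * M) * Real.exp (-(N : ℝ) ^ g) * (N : ℝ) ^ K') +
          (N : ℝ) ^ K' * k * (Real.exp (2 * M) * Real.exp (-(N : ℝ) ^ g)) ≤
        5 * 2 ^ k * (k + 1) * (N : ℝ) ^ (k + K') * E := by
      have r1 : (N + 1 : ℝ) ^ k * (4 * k * Real.exp (4 * M) * Real.exp (-(N : ℝ) ^ g) * (N : ℝ) ^ K') ≤
          (2 ^ k * (N : ℝ) ^ (k : ℝ)) * (4 * k * E * (N : ℝ) ^ K') := by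
        refine mul_le_mul q3 ?_ (by positivity) (by positivity)
        have := hNpos K'
        calc 4 * k * Real.exp (4 * M) * Real.exp (-(N : ℝ) ^ g) * (N : ℝ) ^ K'
            = 4 * k * (Real.exp (4 * M) * Real.exp (-(N : ℝ) ^ g)) * (N : ℝ) ^ K' := by ring
          _ ≤ _ := by gcongr
      have r2 : (N : ℝ) ^ K' * k * (Real.exp (2 * M) * Real.exp (-(N : ℝ) ^ g)) ≤
          (2 ^ k * (N : ℝ) ^ (k : ℝ)) * ((N : ℝ) ^ K' * k * E) := by
        have := hNpos K'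
        calc (N : ℝ) ^ K' * k * (Real.exp (2 * M) * Real.exp (-(N : ℝ) ^ g))
            ≤ 1 * ((N : ℝ) ^ K' * k * E) := by rw [one_mul]; gcongr
          _ ≤ _ := mul_le_mul_of_nonneg_right q4 (by positivity)
      have r3 : 0 ≤ 5 * 2 ^ k * (N : ℝ) ^ (k + K') * E := by positivity
      calc _ ≤ (2 ^ k * (N : ℝ) ^ (k : ℝ)) * (4 * k * E * (N : ℝ) ^ K') +
            (2 ^ k * (N : ℝ) ^ (k : ℝ)) * ((N : ℝ) ^ K' * k * E) := add_le_add r1 r2
        _ = 5 * 2 ^ k * k * (N : ℝ) ^ (k + K') * E := by rw [q5]; ring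
        _ ≤ _ := by linarith
    have q7 : 1 / 2 * Real.exp (-(N : ℝ) ^ (g / 2)) ≤ (N : ℝ) ^ (-K') / 4 := by
      have r1 : 4 * (N : ℝ) ^ K' * Real.exp (-(1 * (N : ℝ) ^ (g / 2))) ≤ 1 / 2 := by
        refine h6.trans ?_
        have : Real.exp (-(N : ℝ) ^ (g / 4)) ≤ 1 := by
          rw [Real.exp_le_one_iff]
          linarith [hNpos (g / 4)]
        linarith
      rw [one_mul] at r1
      have r2 : Real.exp (-(N : ℝ) ^ (g / 2)) ≤ (N : ℝ) ^ (-K') / 8 := by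
        rw [Real.rpow_neg hN0.le, le_div_iff₀ (by norm_num), ← one_div, le_div_iff₀ (hNpos _)]
        linarith
      linarith [hNpos (-K')]
    exact q6.trans (h5.trans q7)

/-- The last step. -/
theorem fin7 (k : ℕ) {ε K' : ℝ} (hε : 0 < ε) (hK' : 0 ≤ K') : ∀ᶠ N : ℕ in atTop, ∀ (B E1 : ℝ) (X Y Z L T : ℝ≥0∞),
    Y ≤ ENNReal.ofReal (Real.exp B) * ((((N + 1 : ℕ) : ℝ≥0∞) ^ k) ^ (1 - 1 / p7 k ε K') * Z) + ENNReal.ofReal E1 +
      (L + T) →
    Z ≤ ENNReal.ofReal (((N : ℝ) ^ K') ^ (1 - 1 / p7 k ε K') * ((N : ℝ) ^ (-(K' + 1))) ^ (1 / p7 k ε K' - 1)) *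
      (X + ENNReal.ofReal ((N : ℝ) ^ (-(K' + 1)))) →
    B ≤ 1 → E1 ≤ (N : ℝ) ^ (-K') / 4 → L ≤ ENNReal.ofReal ((N : ℝ) ^ (-K') / 4) →
    Y ≤ ENNReal.ofReal ((N : ℝ) ^ ε) * (X + ENNReal.ofReal ((N : ℝ) ^ (-K'))) + T := by
  filter_upwards [ev_pow (show 0 < ε / 4 by positivity) (Real.exp 1), eventually_ge_atTop 4] with N h1 hN4
  intro B E1 X Y Z L T hY hZ hB hE hL
  set p := p7 k ε K' with hp
  have hp1 : 1 < p := p7_gt hε hK'
  have hp0 : 0 < p := by linarith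
  have hN : (4 : ℝ) ≤ N := by exact_mod_cast hN4
  have hN0 : (0 : ℝ) < N := by linarith
  have hN1 : (1 : ℝ) ≤ N := by linarith
  have hNpos : ∀ x : ℝ, 0 < (N : ℝ) ^ x := fun x => Real.rpow_pos_of_pos hN0 x
  set q : ℝ := 1 - 1 / p with hq
  have hq0 : 0 ≤ q := by
    rw [hq, sub_nonneg, div_le_one hp0]
    exact hp1.le
  have hq1 : q ≤ p - 1 := by
    have h2 : q = (p - 1) / p := by rw [hq]; field_simp
    rw [h2]
    exact div_le_self (by linarith) hp1.le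
  have hpe : p - 1 = ε / (4 * (k + K' + 1)) := by
    rw [hp]
    unfold p7
    ring
  have hkK : 0 < (k : ℝ) + K' + 1 := by positivity
  have hqe : (2 * k + (2 * K' + 1)) * q ≤ ε / 2 := by
    rw [hpe] at hq1
    calc (2 * k + (2 * K' + 1)) * q ≤ (2 * (k + K' + 1)) * (ε / (4 * (k + K' + 1))) :=
          mul_le_mul (by linarith) hq1 hq0 (by positivity)
      _ = ε / 2 := by field_simp; ring
  -- the constant
  set A : ℝ := ((N : ℝ) ^ K') ^ q * ((N : ℝ) ^ (-(K' + 1))) ^ (1 / p - 1) with hA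
  have hA0 : 0 ≤ A := by positivity
  have hA1 : A = (N : ℝ) ^ ((2 * K' + 1) * q) := by
    rw [hA, ← Real.rpow_mul hN0.le, ← Real.rpow_mul hN0.le, ← Real.rpow_add hN0]
    congr 1
    rw [hq]
    ring
  have hcard : (((N + 1 : ℕ) : ℝ≥0∞) ^ k) ^ q ≤ ENNReal.ofReal ((N : ℝ) ^ (2 * k * q)) := by
    have e : (((N + 1 : ℕ) : ℝ≥0∞) ^ k) = ENNReal.ofReal ((N + 1 : ℝ) ^ k) := by
      rw [ENNReal.ofReal_pow (by positivity)]
      congr 1
      rw [ENNReal.ofReal_add hN0.le zero_le_one, ENNReal.ofReal_one, ENNReal.ofReal_natCast]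
      push_cast
      rfl
    rw [e, ENNReal.ofReal_rpow_of_nonneg (by positivity) hq0]
    refine ENNReal.ofReal_le_ofReal ?_
    have h2 : (N + 1 : ℝ) ^ k ≤ (N : ℝ) ^ (2 * k : ℝ) := by
      rw [Real.rpow_mul hN0.le, Real.rpow_natCast, Real.rpow_two]
      exact pow_le_pow_left₀ (by positivity) (by nlinarith) k
    calc ((N + 1 : ℝ) ^ k) ^ q ≤ ((N : ℝ) ^ (2 * k : ℝ)) ^ q := Real.rpow_le_rpow (by positivity) h2 hq0
      _ = (N : ℝ) ^ (2 * k * q) := by rw [← Real.rpow_mul hN0.le]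
  have hall : Real.exp B * ((N : ℝ) ^ (2 * k * q) * A) ≤ (N : ℝ) ^ (3 * ε / 4) := by
    have h2 : Real.exp B ≤ (N : ℝ) ^ (ε / 4) := (Real.exp_le_exp.2 hB).trans h1
    have h3 : (N : ℝ) ^ (2 * k * q) * A ≤ (N : ℝ) ^ (ε / 2) := by
      rw [hA1, ← Real.rpow_add hN0]
      refine Real.rpow_le_rpow_of_exponent_le hN1 ?_
      calc 2 * k * q + (2 * K' + 1) * q = (2 * k + (2 * K' + 1)) * q := by ring
        _ ≤ ε / 2 := hqe
    calc Real.exp B * ((N : ℝ) ^ (2 * k * q) * A) ≤ (N : ℝ) ^ (ε / 4) * (N : ℝ) ^ (ε / 2) :=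
          mul_le_mul h2 h3 (by positivity) (hNpos _).le
      _ = (N : ℝ) ^ (3 * ε / 4) := by
          rw [← Real.rpow_add hN0]
          congr 1
          ring
  set τ : ℝ := (N : ℝ) ^ (-(K' + 1)) with hτ
  have hτ0 : 0 < τ := hNpos _
  have hmain : ENNReal.ofReal (Real.exp B) * ((((N + 1 : ℕ) : ℝ≥0∞) ^ k) ^ q * Z) ≤
      ENNReal.ofReal ((N : ℝ) ^ (3 * ε / 4)) * (X + ENNReal.ofReal τ) := by
    calc ENNReal.ofReal (Real.exp B) * ((((N + 1 : ℕ) : ℝ≥0∞) ^ k) ^ q * Z)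
        ≤ ENNReal.ofReal (Real.exp B) * (ENNReal.ofReal ((N : ℝ) ^ (2 * k * q)) *
            (ENNReal.ofReal A * (X + ENNReal.ofReal τ))) := by gcongr
      _ = ENNReal.ofReal (Real.exp B * ((N : ℝ) ^ (2 * k * q) * A)) * (X + ENNReal.ofReal τ) := by
          rw [ENNReal.ofReal_mul (Real.exp_pos _).le, ENNReal.ofReal_mul (hNpos _).le]
          ring
      _ ≤ _ := by
          gcongr
  have hfin : (N : ℝ) ^ (3 * ε / 4) * τ + (N : ℝ) ^ (-K') / 4 + (N : ℝ) ^ (-K') / 4 ≤ (N : ℝ) ^ ε * (N : ℝ) ^ (-K') := by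
    have h2 : (N : ℝ) ^ (3 * ε / 4) ≤ (N : ℝ) ^ ε := Real.rpow_le_rpow_of_exponent_le hN1 (by linarith)
    have h3 : τ ≤ (N : ℝ) ^ (-K') / 4 := by
      have e : (N : ℝ) ^ (-K') = τ * N := by
        rw [hτ, ← Real.rpow_add_one hN0.ne']
        congr 1
        ring
      rw [e]
      nlinarith
    have h4 : 1 ≤ (N : ℝ) ^ ε := Real.one_le_rpow hN1 hε.le
    have h5 := hNpos (-K')
    calc (N : ℝ) ^ (3 * ε / 4) * τ + (N : ℝ) ^ (-K') / 4 + (N : ℝ) ^ (-K') / 4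
        ≤ (N : ℝ) ^ ε * ((N : ℝ) ^ (-K') / 4) + (N : ℝ) ^ ε * ((N : ℝ) ^ (-K') / 4) + (N : ℝ) ^ ε * ((N : ℝ) ^ (-K') / 4) := by
          refine add_le_add (add_le_add ?_ ?_) ?_
          · exact mul_le_mul h2 h3 hτ0.le (hNpos _).le
          · exact le_mul_of_one_le_left (by positivity) h4
          · exact le_mul_of_one_le_left (by positivity) h4
      _ ≤ (N : ℝ) ^ ε * (N : ℝ) ^ (-K') := by
          have := mul_pos (hNpos ε) h5
          linarith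
  calc Y ≤ _ := hY
    _ ≤ ENNReal.ofReal ((N : ℝ) ^ (3 * ε / 4)) * (X + ENNReal.ofReal τ) + ENNReal.ofReal ((N : ℝ) ^ (-K') / 4) +
          (ENNReal.ofReal ((N : ℝ) ^ (-K') / 4) + T) := by gcongr
    _ = ENNReal.ofReal ((N : ℝ) ^ (3 * ε / 4)) * X + ENNReal.ofReal ((N : ℝ) ^ (3 * ε / 4) * τ + (N : ℝ) ^ (-K') / 4 +
          (N : ℝ) ^ (-K') / 4) + T := by
        have h6 := (hNpos (-K')).le
        rw [ENNReal.ofReal_add (by positivity) (by positivity), ENNReal.ofReal_add (by positivity) (by positivity),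
          ENNReal.ofReal_mul (hNpos _).le]
        ring
    _ ≤ ENNReal.ofReal ((N : ℝ) ^ ε) * X + ENNReal.ofReal ((N : ℝ) ^ ε * (N : ℝ) ^ (-K')) + T := by
        have h2 : (N : ℝ) ^ (3 * ε / 4) ≤ (N : ℝ) ^ ε := Real.rpow_le_rpow_of_exponent_le hN1 (by linarith)
        gcongr
    _ = _ := by
        rw [ENNReal.ofReal_mul (hNpos _).le]
        ring

end

end Pool.W7d29a1.C0.H7
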