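import Pool.Agent.W_7d29a1_C0.Loc7P

/-!
CURV0 (MP_7d29a1_pr), leaf E0: PLANS, in the frame of Mod92 (helper7).

`sw_stepP`: the slab step with a switched field, for a plan, any direction. `e0_coreP`: the core. `E0X`: the final statement, for
plans (free and conditional replicas, `Marg`, `Sat p`), any direction. `e0_finP`: the forward case (`p = pB (c + K)`, tilt `tA c U`).
-/

set_option autoImplicit false

namespace Pool.W7d29a1.C0.H7

open Finset MeasureTheory Filter Topology Pool.Agent.W_7d29a1_F Pool.Agent.W_7d29a1_X Pool.Agent.W_7d29a1_C0.Mod92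
  Pool.Agent.W_7d29a1_C0.H32 Pool.W7d29a1.C0.H27
open Pool.Agent.W_7d29a1_H (sl)
open Pool.Agent.W_7d29a1_HS (In wd)
open Pool.Agent.W_7d29a1_HZ (NSp wd' gp)
open Pool.W7d29a1.C0 (gz gm gz_pos)
open Pool.W7d29a1.C0.VT31 (Crs)
open Pool.W7d29a1.C0.I52 (Plan ev av ker zs ev_mono ev_nonneg ev_const ev_sum ev_congr abs_ev_le)
open Pool.Agent.W_7d29a1_C0.Loc14 (Qp Qf LocG loc14 far_le)
open Pool.Agent.W_7d29a1_C0.LocM18 (Ns Cna Cn gm_pin gm_free sh_zero)
open scoped ENNReal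

noncomputable section

variable {μ : Measure ℝ} {s : ℝ} {N : ℕ} {P : Finset (Finset ℕ)}

/-! ### Averages over a plan -/

theorem ev_le_const {X : Type*} [Fintype X] [DecidableEq X] {m : ℕ} (Pl : Plan X m) (w : X → ℝ) {Ψ : (Fin m → X) → ℝ} {Λ : ℝ}
    (h : ∀ x, Ψ x ≤ Λ) : ev Pl w Ψ ≤ Λ := (ev_mono Pl w h).trans_eq (ev_const Pl w Λ)

theorem meas_wtP {X : Type*} [Fintype X] [DecidableEq X] {Ω : Type*} [MeasurableSpace Ω] {w : Ω → X → ℝ}
    (hw : ∀ x, Measurable fun ω => w ω x) : {m : ℕ} → (Pl : Plan X m) → (x : Fin m → X) →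
    Measurable fun ω => Pool.W7d29a1.C0.I52.wt Pl (w ω) x
  | _, Plan.nil, _ => measurable_const
  | _, Plan.cons Pl A h, x => by
    refine (meas_wtP hw Pl (Fin.tail x)).mul ?_
    unfold Pool.W7d29a1.C0.I52.ker
    split_ifs
    · exact (hw _).exp.div (Finset.measurable_sum _ fun s _ => (hw s).exp)
    · exact measurable_const

theorem meas_evP {X : Type*} [Fintype X] [DecidableEq X] {Ω : Type*} [MeasurableSpace Ω] {w : Ω → X → ℝ}
    (hw : ∀ x, Measurable fun ω => w ω x) {m : ℕ} (Pl : Plan X m) {Ψ : Ω → (Fin m → X) → ℝ}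
    (hΨ : ∀ x, Measurable fun ω => Ψ ω x) : Measurable fun ω => ev Pl (w ω) (Ψ ω) :=
  Finset.measurable_sum _ fun x _ => (meas_wtP hw Pl x).mul (hΨ x)

/-! ### The slab step -/

section Step

variable {c K : ℕ} {D δ : ℝ} {φ : Pt → Env → ℝ} {Cn Nb : Finset Pt}

open Classical in
/-- **The slab step with the switched field, for a plan, any direction, one environment.** -/
theorem sw_stepP [Nonempty (Px P)] {m : ℕ} {Pl : Plan (Px P) m} (hMg : Marg Pl) {Y : Type*} {p : Px P → Y} (hSt : Sat p Pl)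
    {η : Env} {w1 : Px P → ℝ}
    (huv : ∀ b : Y → ℝ, ∑ S, Real.exp (w1 S) * b (p S) = ∑ S, Real.exp (lw μ s (Sh (slb c K) φ η) N P S) * b (p S))
    (hD : 0 ≤ D) (hφ : ∀ q ∈ slb c K, |φ q η| ≤ D / K)
    (hη : ∀ q ∈ Cn, q ∉ Nb → |φ q η| ≤ δ) {Ψ Ψ' : (Fin m → Px P) → ℝ} {Λ ε : ℝ}
    (hΨ : ∀ x x' : Fin m → Px P, (∀ i, p (x i) = p (x' i)) → Ψ x = Ψ x') (hle : ∀ x, Ψ x ≤ Ψ' x)
    (hM' : ∀ x, |Ψ' x| ≤ Λ) (hε : gm (lw μ s η N P) (fun S => if Out7 c K Cn S.1 then 1 else 0) ≤ ε) :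
    ev Pl w1 Ψ ≤ ev Pl (lw μ s (Sh (slb c K) (swS φ Cn Nb δ) η) N P) Ψ' + 4 * m * Real.exp (6 * D) * ε * Λ := by
  set w0 := lw μ s η N P with hw0
  set w3 := lw μ s (Sh (slb c K) φ η) N P with hw3
  set w2 := lw μ s (Sh (slb c K) (swS φ Cn Nb δ) η) N P with hw2
  set o : Px P → ℝ := fun S => if Out7 c K Cn S.1 then 1 else 0 with ho
  have o01 : ∀ S, 0 ≤ o S ∧ o S ≤ 1 := fun S => by rw [ho]; simp only; split_ifs <;> norm_num
  have hΛ : 0 ≤ Λ := (abs_nonneg _).trans (hM' fun _ => Classical.arbitrary _)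
  have t2 : ∀ S, |w2 S - w0 S| ≤ D := fun S =>
    abs_lw_Sh_of (rws_slb c K) hD η (fun q hq => (swS_le q η).trans (hφ q hq)) S
  have t3 : ∀ S, |w3 S - w0 S| ≤ D := fun S => abs_lw_Sh_of (rws_slb c K) hD η hφ S
  have t23 : ∀ S, |w2 S - w3 S| ≤ 2 * D := fun S => by
    have := abs_sub (w2 S - w0 S) (w3 S - w0 S)
    rw [sub_sub_sub_cancel_right] at this
    linarith [t2 S, t3 S]
  have h23 : ∀ S, o S ≠ 1 → w2 S = w3 S := fun S hS => by
    refine lw_swS_eq hη fun hO => hS ?_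
    rw [ho]
    simp only
    rw [if_pos hO]
  have g3 : gm w3 o ≤ Real.exp (2 * D) * ε :=
    (gm_tilt t3 fun S => (o01 S).1).trans (mul_le_mul_of_nonneg_left hε (Real.exp_pos _).le)
  have e1 : ev Pl w1 Ψ = ev Pl w3 Ψ := sat_ev huv hSt hΨ
  have e2 : ev Pl w3 Ψ ≤ ev Pl w3 Ψ' := ev_mono Pl w3 hle
  have e3 := (abs_le.1 (plan_tv (Λ := Λ) t23 o01 h23 hMg hM')).1
  have hε0 : 0 ≤ ε := by
    refine le_trans ?_ hε
    unfold gm
    exact div_nonneg (sum_nonneg fun S _ => mul_nonneg (Real.exp_pos _).le (o01 S).1) (gz_pos _).le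
  have e4 : Λ * (m * (2 * (1 + Real.exp (2 * (2 * D))) * gm w3 o)) ≤ 4 * m * Real.exp (6 * D) * ε * Λ := by
    have h4 : 1 ≤ Real.exp (2 * (2 * D)) := Real.one_le_exp (by linarith)
    have h6 : Real.exp (6 * D) = Real.exp (2 * (2 * D)) * Real.exp (2 * D) := by rw [← Real.exp_add]; ring_nf
    have h7 : 2 * (1 + Real.exp (2 * (2 * D))) * gm w3 o ≤ 4 * Real.exp (6 * D) * ε := by
      rw [h6]
      calc 2 * (1 + Real.exp (2 * (2 * D))) * gm w3 o ≤ (4 * Real.exp (2 * (2 * D))) * (Real.exp (2 * D) * ε) := by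
            refine mul_le_mul (by linarith) g3 ?_ (by positivity)
            unfold gm
            exact div_nonneg (sum_nonneg fun S _ => mul_nonneg (Real.exp_pos _).le (o01 S).1) (gz_pos _).le
        _ = _ := by ring
    calc Λ * (m * (2 * (1 + Real.exp (2 * (2 * D))) * gm w3 o)) ≤ Λ * (m * (4 * Real.exp (6 * D) * ε)) := by gcongr
      _ = _ := by ring
  linarith

end Step

/-! ### The core -/

section Core

open Classical in
/-- **E0 for plans, the core, any direction.** -/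
theorem e0_coreP [IsProbabilityMeasure μ] [Nonempty (Px P)] {k : ℕ} {Pl : Plan (Px P) k} (hMg : Marg Pl) {M : ℝ}
    {u : Env → Px P → ℝ} (hu : ∀ η S, |u η S| ≤ M) (near box : Px P → ℤ) (hbx : ∀ S, box S ∈ Icc (0 : ℤ) N)
    (nb : ℤ → Finset ℤ) {p C θ0 : ℝ} (hp : 1 ≤ p) (hC : 0 ≤ C) (hQ : QI μ p C θ0) {Qs : Finset Pt} (r : Pt → ℤ)
    {B0 C0 ε : ℝ} (φ : (Fin k → ℤ) → Pt → Env → ℝ) (hφm : ∀ b, ∀ q ∈ Qs, Measurable (φ b q))
    (hφp : ∀ b, PredR r Qs (φ b)) (hφb : ∀ b, ∀ q ∈ Qs, ∀ η, |φ b q η| ≤ θ0)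
    (hφs : ∀ b η, ∑ q ∈ Qs, φ b q η ^ 2 ≤ B0) {Ω : Set Env} (hΩ : MeasurableSet Ω)
    (hg3 : ∀ η ∈ Ω, gm (lw μ s η N P) (fun S => if near S ∈ nb (box S) then 0 else 1) ≤ ε)
    {Λ : ℝ} {Ψ Ψ' : Env → (Fin k → Px P) → ℝ} (h0 : ∀ η x, 0 ≤ Ψ η x) (hΛ : ∀ η x, Ψ η x ≤ Λ)
    (h0' : ∀ η x, 0 ≤ Ψ' η x) (hm : ∀ x, Measurable fun η => Ψ' η x) (hC0 : 0 ≤ C0)
    (hstep : ∀ η ∈ Ω, ∀ b : Fin k → ℤ,
      ev Pl (fun S => lw μ s η N P S + (if near S ∈ (H43.bx b).biUnion nb then u η S + M else 0))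
        (fun x => if (fun i => box (x i)) = b then Ψ η x else 0) ≤
      ev Pl (lw μ s (Sh Qs (φ b) η) N P) (fun x => if (fun i => box (x i)) = b then Ψ' (Sh Qs (φ b) η) x else 0) + C0) :
    ∫⁻ η, ENNReal.ofReal (ev Pl (fun S => lw μ s η N P S + u η S) (Ψ η)) ∂(law μ) ≤
      ENNReal.ofReal (Real.exp (C * B0)) * ((((N + 1 : ℕ) : ℝ≥0∞) ^ k) ^ (1 - 1 / p) *
          (∫⁻ η, ENNReal.ofReal (ev Pl (lw μ s η N P) (Ψ' η)) ^ p ∂(law μ)) ^ (1 / p)) +
      ENNReal.ofReal ((N + 1 : ℝ) ^ k * C0 + Λ * k * (Real.exp (2 * M) * ε)) + ENNReal.ofReal Λ * law μ Ωᶜ := by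
  set T := H43.bxs univ box k with hT
  set F : (Fin k → ℤ) → Env → ℝ≥0∞ := fun b η =>
    ENNReal.ofReal (ev Pl (lw μ s η N P) fun x => if (fun i => box (x i)) = b then Ψ' η x else 0) with hF
  have hFm : ∀ b, Measurable (F b) := fun b => by
    refine (meas_evP (fun S => meas_lw S) Pl fun x => ?_).ennreal_ofReal
    by_cases hx : (fun i => box (x i)) = b
    · simp only [hx, if_true]
      exact hm x
    · simp only [hx, if_false]
      exact measurable_const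
  have hΛ0 : ∀ η : Env, 0 ≤ Λ := fun η => (h0 η fun _ => Classical.arbitrary _).trans (hΛ η _)
  have hΛn : 0 ≤ Λ := hΛ0 fun _ => 0
  have hcard : ((T.card : ℕ) : ℝ) ≤ (N + 1 : ℝ) ^ k := by
    have h1 : T.card ≤ (N + 1) ^ k := by
      rw [hT]
      unfold H43.bxs
      rw [Fintype.card_piFinset, prod_const, card_univ, Fintype.card_fin]
      refine Nat.pow_le_pow_left ?_ k
      have h2 : univ.image box ⊆ Icc (0 : ℤ) N := fun z hz => by
        obtain ⟨S, _, rfl⟩ := mem_image.1 hz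
        exact hbx S
      refine (card_le_card h2).trans ?_
      rw [Int.card_Icc]
      omega
    exact_mod_cast h1
  have hind0 : ∀ (b : Fin k → ℤ) (η : Env) (x : Fin k → Px P), 0 ≤ if (fun i => box (x i)) = b then Ψ' η x else 0 :=
    fun b η x => by
      split_ifs
      · exact h0' _ x
      · exact le_rfl
  -- the pointwise bound
  set C1 : ℝ := (N + 1 : ℝ) ^ k * C0 + Λ * k * (Real.exp (2 * M) * ε) with hC1
  have hpt : ∀ η, ENNReal.ofReal (ev Pl (fun S => lw μ s η N P S + u η S) (Ψ η)) ≤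
      ∑ b ∈ T, F b (Sh Qs (φ b) η) + ENNReal.ofReal C1 + Ωᶜ.indicator (fun _ => ENNReal.ofReal Λ) η := fun η => by
    by_cases hη : η ∈ Ω
    · rw [Set.indicator_of_notMem (Set.notMem_compl_iff.2 hη), add_zero]
      have h1 := boxesP hMg (lw μ s η N P) (u η) (hu η) near box nb (h0 η) (hΛ η)
      have h2 : gm (fun S => lw μ s η N P S + u η S) (fun S => if near S ∈ nb (box S) then 0 else 1) ≤
          Real.exp (2 * M) * ε := by
        refine (gm_tilt (w := lw μ s η N P) (D := M) (fun S => by rw [add_sub_cancel_left]; exact hu η S) fun S => by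
          split_ifs <;> norm_num).trans (mul_le_mul_of_nonneg_left (hg3 η hη) (Real.exp_pos _).le)
      have h4 : ev Pl (fun S => lw μ s η N P S + u η S) (Ψ η) ≤
          ∑ b ∈ T, ev Pl (lw μ s (Sh Qs (φ b) η) N P)
            (fun x => if (fun i => box (x i)) = b then Ψ' (Sh Qs (φ b) η) x else 0) + C1 := by
        refine h1.trans ?_
        have h5 := sum_le_sum fun b (_ : b ∈ T) => hstep η hη b
        rw [sum_add_distrib, sum_const, nsmul_eq_mul] at h5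
        have h6 : (T.card : ℝ) * C0 ≤ (N + 1 : ℝ) ^ k * C0 := mul_le_mul_of_nonneg_right hcard hC0
        have h7 : Λ * k * gm (fun S => lw μ s η N P S + u η S) (fun S => if near S ∈ nb (box S) then 0 else 1) ≤
            Λ * k * (Real.exp (2 * M) * ε) := mul_le_mul_of_nonneg_left h2 (by positivity)
        rw [hC1]
        linarith
      refine (ENNReal.ofReal_le_ofReal h4).trans (ENNReal.ofReal_add_le.trans (add_le_add ?_ le_rfl))
      rw [ENNReal.ofReal_sum_of_nonneg fun b _ => ev_nonneg Pl _ fun x => hind0 b _ x]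
    · rw [Set.indicator_of_mem (show η ∈ Ωᶜ from hη)]
      exact (ENNReal.ofReal_le_ofReal (ev_le_const Pl _ (hΛ η))).trans le_add_self
  have hSm : ∀ b ∈ T, Measurable fun η => F b (Sh Qs (φ b) η) := fun b _ => (hFm b).comp (Sh_meas (hφm b))
  have hms : Measurable fun η => ∑ b ∈ T, F b (Sh Qs (φ b) η) := Finset.measurable_fun_sum _ hSm
  have hq : ∀ b ∈ T, ∫⁻ η, F b (Sh Qs (φ b) η) ∂(law μ) ≤
      ENNReal.ofReal (Real.exp (C * B0)) * (∫⁻ η, F b η ^ p ∂(law μ)) ^ (1 / p) := fun b _ =>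
    quasi_bd hp hC hQ r Qs (φ b) (hφm b) (hφp b) (hφb b) (hφs b) (F b) (hFm b)
  calc ∫⁻ η, ENNReal.ofReal (ev Pl (fun S => lw μ s η N P S + u η S) (Ψ η)) ∂(law μ)
      ≤ ∫⁻ η, (∑ b ∈ T, F b (Sh Qs (φ b) η) + ENNReal.ofReal C1 + Ωᶜ.indicator (fun _ => ENNReal.ofReal Λ) η)
          ∂(law μ) := lintegral_mono hpt
    _ = ∑ b ∈ T, ∫⁻ η, F b (Sh Qs (φ b) η) ∂(law μ) + ENNReal.ofReal C1 + ENNReal.ofReal Λ * law μ Ωᶜ := by
        have hms1 : Measurable fun η => ∑ b ∈ T, F b (Sh Qs (φ b) η) + ENNReal.ofReal C1 := hms.add measurable_const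
        rw [lintegral_add_left hms1, lintegral_add_left hms, lintegral_finsetSum _ hSm,
          lintegral_const, measure_univ, mul_one, lintegral_indicator_const hΩ.compl]
    _ ≤ _ := by
        refine add_le_add (add_le_add ?_ le_rfl) le_rfl
        refine (sum_le_sum hq).trans ?_
        rw [← mul_sum]
        refine mul_le_mul_right ?_ _
        refine (H43.sum_norm_le (law μ) T F (fun b _ => (hFm b).aemeasurable) hp).trans ?_
        have h1p : 0 ≤ 1 - 1 / p := by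
          rw [sub_nonneg, div_le_one (by linarith)]
          exact hp
        refine mul_le_mul' (ENNReal.rpow_le_rpow ?_ h1p) (le_of_eq ?_)
        · have h1 : T.card ≤ (N + 1) ^ k := by exact_mod_cast hcard
          exact_mod_cast (Nat.cast_le (α := ℝ≥0∞)).2 h1
        · congr 1
          refine lintegral_congr fun η => ?_
          congr 1
          rw [hF]
          simp only
          rw [← ENNReal.ofReal_sum_of_nonneg fun b _ => ev_nonneg Pl _ fun x => hind0 b _ x]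
          congr 1
          rw [← ev_sum T Pl (lw μ s η N P) fun b x => if (fun i => box (x i)) = b then Ψ' η x else 0]
          congr 1
          funext x
          have hmem : (fun i => box (x i)) ∈ T := by
            rw [hT]
            unfold H43.bxs
            rw [Fintype.mem_piFinset]
            exact fun i => mem_image_of_mem box (mem_univ _)
          rw [sum_ite_eq, if_pos hmem]

end Core

/-! ### The final statement -/

/-- **E0, the statement**, for plans of `k` replicas, any direction: `p` = the map through which everything is seen, `u` = the tilt, `θ` =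
the size of the passenger on the slab `slb c K`. -/
def E0X (μ : Measure ℝ) (s : ℝ) (k N : ℕ) (P : Finset (Finset ℕ)) (c K : ℕ) {Y : Type*} (p : Px P → Y) (θ : ℝ)
    (u : Env → Px P → ℝ) (ε K' : ℝ) : Prop :=
  ∀ Pl : Plan (Px P) k, Marg Pl → Sat p Pl → ∀ G : Set Env, MeasurableSet G →
      ∀ Ψ Ψ' : Env → (Fin k → Px P) → ℝ, (∀ η x, 0 ≤ Ψ η x) → (∀ η x, Ψ η x ≤ (N : ℝ) ^ K') →
      (∀ η x, 0 ≤ Ψ' η x) → (∀ η x, Ψ' η x ≤ (N : ℝ) ^ K') → (∀ x, Measurable fun η => Ψ η x) →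
      (∀ x, Measurable fun η => Ψ' η x) →
      (∀ η, ∀ x x' : Fin k → Px P, (∀ i, p (x i) = p (x' i)) → Ψ η x = Ψ η x') →
      (∀ η ∈ G, ∀ ζ : Env, (∀ q, q ∉ slb c K → ζ q = η q) → (∀ q, |ζ q - η q| ≤ θ) → ∀ x, Ψ η x ≤ Ψ' ζ x) →
      ∫ η, ev Pl (fun S => lw μ s η N P S + u η S) (Ψ η) ∂(law μ) ≤
        (N : ℝ) ^ ε * (∫ η, ev Pl (lw μ s η N P) (Ψ' η) ∂(law μ) + (N : ℝ) ^ (-K')) + (N : ℝ) ^ K' * (law μ Gᶜ).toReal

/-- **E0 over `Pm`**: the tilt, the functional and the passenger may depend on the signs. -/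
theorem E0X.pm [IsProbabilityMeasure μ] [Nonempty (Px P)] {k c K : ℕ} {Y : Type*} {p : Px P → Y} {θ ε K' : ℝ}
    {u : Finset ℕ → Env → Px P → ℝ} (h : ∀ A, E0X μ s k N P c K p θ (u A) ε K') (hum : ∀ A S, Measurable fun η => u A η S)
    {Pl : Plan (Px P) k} (hMg : Marg Pl) (hSt : Sat p Pl) {G : Set Env} (hG : MeasurableSet G)
    {Ψ Ψ' : Env × Finset ℕ → (Fin k → Px P) → ℝ} (h0 : ∀ ω x, 0 ≤ Ψ ω x) (hΛ : ∀ ω x, Ψ ω x ≤ (N : ℝ) ^ K')
    (h0' : ∀ ω x, 0 ≤ Ψ' ω x) (hΛ' : ∀ ω x, Ψ' ω x ≤ (N : ℝ) ^ K') (hm : ∀ x A, Measurable fun η => Ψ (η, A) x)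
    (hm' : ∀ x A, Measurable fun η => Ψ' (η, A) x)
    (hΨ : ∀ ω, ∀ x x' : Fin k → Px P, (∀ i, p (x i) = p (x' i)) → Ψ ω x = Ψ ω x')
    (hpas : ∀ A, ∀ η ∈ G, ∀ ζ : Env, (∀ q, q ∉ slb c K → ζ q = η q) → (∀ q, |ζ q - η q| ≤ θ) →
      ∀ x, Ψ (η, A) x ≤ Ψ' (ζ, A) x) :
    ∫ ω, ev Pl (fun S => lw μ s ω.1 N P S + u ω.2 ω.1 S) (Ψ ω) ∂(Pm μ N) ≤
      (N : ℝ) ^ ε * (∫ ω, ev Pl (lw μ s ω.1 N P) (Ψ' ω) ∂(Pm μ N) + (N : ℝ) ^ (-K')) + (N : ℝ) ^ K' * (law μ Gᶜ).toReal := by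
  have m1 : ∀ A, Measurable fun η => ev Pl (fun S => lw μ s η N P S + u A η S) (Ψ (η, A)) := fun A =>
    meas_evP (fun S => (meas_lw S).add (hum A S)) Pl fun x => hm x A
  have m2 : ∀ A, Measurable fun η => ev Pl (lw μ s η N P) (Ψ' (η, A)) := fun A =>
    meas_evP (fun S => meas_lw S) Pl fun x => hm' x A
  have i1 : ∀ A, Integrable (fun η => ev Pl (fun S => lw μ s η N P S + u A η S) (Ψ (η, A))) (law μ) := fun A =>
    Integrable.of_bound (m1 A).aestronglyMeasurable ((N : ℝ) ^ K') (Eventually.of_forall fun η => by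
      rw [Real.norm_eq_abs, abs_of_nonneg (ev_nonneg Pl _ (h0 (η, A)))]
      exact ev_le_const Pl _ (hΛ (η, A)))
  have i2 : ∀ A, Integrable (fun η => ev Pl (lw μ s η N P) (Ψ' (η, A))) (law μ) := fun A =>
    Integrable.of_bound (m2 A).aestronglyMeasurable ((N : ℝ) ^ K') (Eventually.of_forall fun η => by
      rw [Real.norm_eq_abs, abs_of_nonneg (ev_nonneg Pl _ (h0' (η, A)))]
      exact ev_le_const Pl _ (hΛ' (η, A)))
  rw [int_Pm (Φ := fun ω : Env × Finset ℕ => ev Pl (fun S => lw μ s ω.1 N P S + u ω.2 ω.1 S) (Ψ ω))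
      (fun A _ => i1 A) (fun A => m1 A),
    int_Pm (Φ := fun ω : Env × Finset ℕ => ev Pl (lw μ s ω.1 N P) (Ψ' ω)) (fun A _ => i2 A) (fun A => m2 A)]
  have hcard : ((2 : ℝ) ^ N)⁻¹ * ∑ _A ∈ (range N).powerset, (1 : ℝ) = 1 := by
    rw [sum_const, card_powerset, card_range, nsmul_eq_mul, mul_one]
    push_cast
    field_simp
  have hA : ∀ A ∈ (range N).powerset, ∫ η, ev Pl (fun S => lw μ s η N P S + u A η S) (Ψ (η, A)) ∂(law μ) ≤
      (N : ℝ) ^ ε * (∫ η, ev Pl (lw μ s η N P) (Ψ' (η, A)) ∂(law μ) + (N : ℝ) ^ (-K')) + (N : ℝ) ^ K' * (law μ Gᶜ).toReal :=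
    fun A _ => h A Pl hMg hSt G hG (fun η => Ψ (η, A)) (fun η => Ψ' (η, A)) (fun η => h0 (η, A)) (fun η => hΛ (η, A))
      (fun η => h0' (η, A)) (fun η => hΛ' (η, A)) (fun x => hm x A) (fun x => hm' x A) (fun η => hΨ (η, A)) (hpas A)
  have h1 := mul_le_mul_of_nonneg_left (sum_le_sum hA) (by positivity : (0 : ℝ) ≤ ((2 : ℝ) ^ N)⁻¹)
  refine h1.trans (le_of_eq ?_)
  rw [sum_add_distrib, ← mul_sum, sum_add_distrib, mul_add]
  have e : ∀ x : ℝ, ((2 : ℝ) ^ N)⁻¹ * ∑ _A ∈ (range N).powerset, x = x := fun x => by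
    have e1 : ∑ _A ∈ (range N).powerset, x = (∑ _A ∈ (range N).powerset, (1 : ℝ)) * x := by
      rw [sum_mul]
      simp only [one_mul]
    rw [e1, ← mul_assoc, hcard, one_mul]
  rw [e]
  congr 1
  rw [mul_left_comm, mul_add, e]

end

end Pool.W7d29a1.C0.H7
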