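import Pool.Agent.W_7d29a1_C0.Loc7F

/-!
CURV0 (MP_7d29a1_pr), leaf E0D: THE TWO SIDED COMPARISON, part 1: DOMINATION BY THE EXACT FIELD (helper7).

The exact field of the linear schedule gives a path, whose value of the tilt is not small for the posterior at every row of the slab, at
least the weight of the tilt, up to the factor `exp δ (e² V) ^ (1 / q)`, polynomial in the bound `V` of the tilt (`fG_sum_ge`,
`dom7`). `sum_dom7`: sums over replicas where some replicas (`F`) are seen in full, the others behind the slab only.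
-/

set_option autoImplicit false

namespace Pool.W7d29a1.C0.H7

open Finset MeasureTheory Filter Topology Pool.Agent.W_7d29a1_F Pool.Agent.W_7d29a1_X Pool.Agent.W_7d29a1_C0.Mod92
  Pool.Agent.W_7d29a1_C0.H32 Pool.W7d29a1.C0.H27
open Pool.W7d29a1.C0 (gz gm gz_pos)
open scoped ENNReal

noncomputable section

/-! ### The first moment below a level -/

/-- `min V (1 / τ)`. -/
def bt7 (V τ : ℝ) : ℝ := if τ * V ≤ 1 then V else 1 / τ

theorem bt7_nonneg {V τ : ℝ} (hV : 0 ≤ V) (hτ : 0 ≤ τ) : 0 ≤ bt7 V τ := by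
  unfold bt7
  split_ifs
  · exact hV
  · exact div_nonneg zero_le_one hτ

theorem le_bt7 {V τ y : ℝ} (hτ : 0 ≤ τ) (hy : 0 ≤ y) (hyV : y ≤ V) : y * Real.exp (-(τ * y)) ≤ bt7 V τ := by
  have h1 : Real.exp (-(τ * y)) ≤ 1 := by
    rw [Real.exp_le_one_iff]
    have := mul_nonneg hτ hy
    linarith
  unfold bt7
  split_ifs with h
  · calc y * Real.exp (-(τ * y)) ≤ y * 1 := mul_le_mul_of_nonneg_left h1 hy
      _ ≤ V := by linarith
  · push Not at h
    have hτ0 : 0 < τ := by
      rcases hτ.eq_or_lt with h0 | h0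
      · rw [← h0] at h
        linarith
      · exact h0
    rw [le_div_iff₀ hτ0]
    have h2 : τ * y ≤ Real.exp (τ * y) := by
      have := Real.add_one_le_exp (τ * y)
      linarith
    have h3 : Real.exp (-(τ * y)) * Real.exp (τ * y) = 1 := by rw [← Real.exp_add, neg_add_cancel, Real.exp_zero]
    have h4 := mul_le_mul_of_nonneg_left h2 (Real.exp_pos (-(τ * y))).le
    rw [h3] at h4
    linarith

/-- **Jensen under the tilted weights.** -/
theorem log_ratio7 {ι : Type*} (I : Finset ι) (m A : ι → ℝ) {l V q τ h : ℝ} (hm : ∀ i ∈ I, 0 ≤ m i)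
    (hA : ∀ i ∈ I, l - V ≤ A i) (hV : 0 ≤ V) (hq : 0 < q) (ht : 0 < ∑ i ∈ I, m i)
    (hcl : q * ∑ i ∈ I, m i ≤ ∑ i ∈ I, m i * (if l ≤ A i then 1 else 0)) (hτ : 0 ≤ τ) (hh : 0 ≤ h) :
    h * (l - bt7 V τ / q) ≤
      Real.log ((∑ i ∈ I, m i * Real.exp ((τ + h) * A i)) / ∑ i ∈ I, m i * Real.exp (τ * A i)) := by
  classical
  set Z : ℝ := ∑ i ∈ I, m i * Real.exp (τ * A i) with hZ
  have hβ := bt7_nonneg hV hτ
  set β : ℝ := bt7 V τ with hβd
  have hZ0 : 0 < Z := by
    obtain ⟨i, hi, hi0⟩ : ∃ i ∈ I, 0 < m i := by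
      by_contra hc
      push Not at hc
      have : ∑ i ∈ I, m i ≤ 0 := sum_nonpos hc
      linarith
    exact sum_pos' (fun i hi => mul_nonneg (hm i hi) (Real.exp_pos _).le) ⟨i, hi, mul_pos hi0 (Real.exp_pos _)⟩
  -- the first moment
  have key : 0 ≤ ∑ i ∈ I, m i * Real.exp (τ * A i) * (A i - l + β / q) := by
    have e1 : ∀ i ∈ I, Real.exp (τ * l) * (m i * (β / q * (if l ≤ A i then 1 else 0) - β)) ≤
        m i * Real.exp (τ * A i) * (A i - l + β / q) := fun i hi => by
      have e2 : Real.exp (τ * A i) = Real.exp (τ * l) * Real.exp (τ * (A i - l)) := by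
        rw [← Real.exp_add]
        ring_nf
      have h1 : β / q * (if l ≤ A i then 1 else 0) - β ≤ Real.exp (τ * (A i - l)) * (A i - l + β / q) := by
        have hbq : 0 ≤ β / q := div_nonneg hβ hq.le
        by_cases hl : l ≤ A i
        · rw [if_pos hl]
          have h2 : 1 ≤ Real.exp (τ * (A i - l)) := Real.one_le_exp (mul_nonneg hτ (by linarith))
          have h3 : 0 ≤ A i - l + β / q := by linarith
          nlinarith
        · rw [if_neg hl]
          push Not at hl
          have h2 := le_bt7 (V := V) hτ (y := l - A i) (by linarith) (by linarith [hA i hi])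
          have e3 : -(τ * (l - A i)) = τ * (A i - l) := by ring
          rw [e3] at h2
          have h3 : 0 ≤ Real.exp (τ * (A i - l)) * (β / q) := mul_nonneg (Real.exp_pos _).le hbq
          nlinarith
      rw [e2]
      have h2 := mul_le_mul_of_nonneg_left h1 (mul_nonneg (Real.exp_pos (τ * l)).le (hm i hi))
      calc _ = Real.exp (τ * l) * m i * (β / q * (if l ≤ A i then 1 else 0) - β) := by ring
        _ ≤ Real.exp (τ * l) * m i * (Real.exp (τ * (A i - l)) * (A i - l + β / q)) := h2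
        _ = _ := by ring
    refine le_trans ?_ (sum_le_sum e1)
    rw [← mul_sum]
    refine mul_nonneg (Real.exp_pos _).le ?_
    have e4 : ∑ i ∈ I, m i * (β / q * (if l ≤ A i then 1 else 0) - β) =
        β / q * ∑ i ∈ I, m i * (if l ≤ A i then 1 else 0) - β * ∑ i ∈ I, m i := by
      rw [mul_sum, mul_sum, ← sum_sub_distrib]
      exact sum_congr rfl fun i _ => by ring
    rw [e4]
    have h5 := mul_le_mul_of_nonneg_left hcl (div_nonneg hβ hq.le)
    have e5 : β / q * (q * ∑ i ∈ I, m i) = β * ∑ i ∈ I, m i := by field_simp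
    rw [e5] at h5
    linarith
  -- Jensen
  set p : ι → ℝ := fun i => m i * Real.exp (τ * A i) / Z with hp
  have hp0 : ∀ i ∈ I, 0 ≤ p i := fun i hi => div_nonneg (mul_nonneg (hm i hi) (Real.exp_pos _).le) hZ0.le
  have hp1 : ∑ i ∈ I, p i = 1 := by
    rw [hp]
    simp only
    rw [← sum_div, div_self hZ0.ne']
  have hmean : l - β / q ≤ ∑ i ∈ I, p i * A i := by
    have e6 : ∑ i ∈ I, m i * Real.exp (τ * A i) * (A i - l + β / q) = Z * (∑ i ∈ I, p i * A i - (l - β / q)) := by
      rw [mul_sub, mul_sum]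
      have e7 : ∀ i ∈ I, Z * (p i * A i) = m i * Real.exp (τ * A i) * A i := fun i _ => by
        rw [hp]
        simp only
        field_simp
      rw [sum_congr rfl e7]
      rw [hZ, sum_mul, ← sum_sub_distrib]
      exact sum_congr rfl fun i _ => by ring
    rw [e6] at key
    have := nonneg_of_mul_nonneg_right key hZ0
    linarith
  have hj := (convexOn_exp).map_sum_le (t := I) (w := p) (p := fun i => h * A i) hp0 hp1 (fun i _ => Set.mem_univ _)
  simp only [smul_eq_mul] at hj
  have e8 : (∑ i ∈ I, m i * Real.exp ((τ + h) * A i)) / Z = ∑ i ∈ I, p i * Real.exp (h * A i) := by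
    rw [sum_div]
    refine sum_congr rfl fun i _ => ?_
    rw [hp]
    simp only
    rw [add_mul, Real.exp_add]
    ring
  have e9 : ∑ i ∈ I, p i * (h * A i) = h * ∑ i ∈ I, p i * A i := by
    rw [mul_sum]
    exact sum_congr rfl fun i _ => by ring
  rw [e8]
  rw [e9] at hj
  rw [Real.le_log_iff_exp_le ((Real.exp_pos _).trans_le hj)]
  exact (Real.exp_le_exp.2 (mul_le_mul_of_nonneg_left hmean hh)).trans hj

/-! ### The sum over the schedule -/

/-- The primitive of `bt7 V`. -/
def Hb7 (V x : ℝ) : ℝ := if x * V ≤ 1 then x * V else 1 + Real.log (x * V)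

theorem Hb7_step {V x y : ℝ} (hV : 1 ≤ V) (hx : 0 ≤ x) (hxy : x ≤ y) : (y - x) * bt7 V y ≤ Hb7 V y - Hb7 V x := by
  have hV0 : 0 < V := by linarith
  unfold bt7 Hb7
  by_cases hy : y * V ≤ 1
  · have hx' : x * V ≤ 1 := (mul_le_mul_of_nonneg_right hxy hV0.le).trans hy
    rw [if_pos hy, if_pos hy, if_pos hx']
    linarith
  · rw [if_neg hy, if_neg hy]
    push Not at hy
    have hy0 : 0 < y := by
      by_contra hc
      push Not at hc
      nlinarith
    have hyV : 0 < y * V := mul_pos hy0 hV0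
    by_cases hx' : x * V ≤ 1
    · rw [if_pos hx']
      have h1 : 1 - (y * V)⁻¹ ≤ Real.log (y * V) := Real.one_sub_inv_le_log_of_pos hyV
      have e1 : (y - x) * (1 / y) = 1 - x * V * (y * V)⁻¹ := by
        field_simp
      rw [e1]
      have h2 : (y * V)⁻¹ ≤ 1 := by
        rw [inv_le_one₀ hyV]
        exact hy.le
      nlinarith [mul_nonneg (by linarith : (0 : ℝ) ≤ 1 - x * V) (by linarith : (0 : ℝ) ≤ 1 - (y * V)⁻¹)]
    · rw [if_neg hx']
      push Not at hx'
      have hx0 : 0 < x := by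
        rcases hx.eq_or_lt with h0 | h0
        · rw [← h0] at hx'
          linarith
        · exact h0
      have h1 : 1 - (y / x)⁻¹ ≤ Real.log (y / x) := Real.one_sub_inv_le_log_of_pos (div_pos hy0 hx0)
      have e1 : Real.log (y * V) - Real.log (x * V) = Real.log (y / x) := by
        rw [Real.log_mul hy0.ne' hV0.ne', Real.log_mul hx0.ne' hV0.ne', Real.log_div hy0.ne' hx0.ne']
        ring
      have e2 : (y - x) * (1 / y) = 1 - (y / x)⁻¹ := by
        rw [inv_div]
        field_simp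
      rw [e2]
      linarith

theorem Hb7_le {V x : ℝ} (hV : 1 ≤ V) (hx1 : x ≤ 1) : Hb7 V x ≤ 1 + Real.log V := by
  unfold Hb7
  have hl := Real.log_nonneg hV
  split_ifs with h
  · linarith
  · push Not at h
    have h2 : Real.log (x * V) ≤ Real.log V := Real.log_le_log (by linarith) (by nlinarith)
    linarith

theorem sum_bt7 {V : ℝ} {K : ℕ} (hV : 1 ≤ V) (hK : V ≤ K) :
    ∑ k ∈ range K, 1 / (K : ℝ) * bt7 V ((k : ℝ) / K) ≤ 2 + Real.log V := by
  have hK0 : (0 : ℝ) < K := by linarith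
  have key : ∀ n : ℕ, ∑ k ∈ range (n + 1), 1 / (K : ℝ) * bt7 V ((k : ℝ) / K) ≤ V / K + Hb7 V ((n : ℝ) / K) := by
    intro n
    induction n with
    | zero =>
      rw [sum_range_one]
      simp only [Nat.cast_zero, zero_div]
      unfold bt7 Hb7
      rw [zero_mul, if_pos zero_le_one, if_pos zero_le_one]
      rw [add_zero, one_div, inv_mul_eq_div]
    | succ n ih =>
      rw [sum_range_succ]
      have h1 := Hb7_step (V := V) (x := (n : ℝ) / K) (y := ((n + 1 : ℕ) : ℝ) / K) hV (by positivity)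
        (div_le_div_of_nonneg_right (by push_cast; linarith) hK0.le)
      have e : ((n + 1 : ℕ) : ℝ) / K - (n : ℝ) / K = 1 / K := by
        rw [← sub_div]
        push_cast
        rw [add_sub_cancel_left]
      rw [e] at h1
      linarith
  obtain ⟨n, hn⟩ : ∃ n : ℕ, K = n + 1 := ⟨K - 1, by
    have : 0 < K := by exact_mod_cast hK0
    omega⟩
  have h1 := key n
  rw [← hn] at h1
  have h2 : Hb7 V ((n : ℝ) / K) ≤ 1 + Real.log V := Hb7_le hV (by
    rw [div_le_one hK0, hn]
    push_cast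
    linarith)
  have h3 : V / K ≤ 1 := (div_le_one hK0).2 hK
  linarith

/-! ### One path -/

section Path

variable {μ : Measure ℝ} {s : ℝ} {N : ℕ} {P : Finset (Finset ℕ)} {c K : ℕ} {D : ℝ} {A : Env → Finset ℕ → ℝ}

/-- `Mt` as a weighted sum. -/
theorem Mt_sum7 (η : Env) (t : ℕ) (F : Finset ℕ → ℝ) (z : ℤ) :
    Mt μ s η t F z = ∑ T ∈ (range t).powerset, (if pos T t = z then pth μ s η t T else 0) * F T := by
  unfold Mt
  refine sum_congr rfl fun T _ => ?_
  split_ifs
  · rfl
  · rw [zero_mul]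

/-- **The field of the schedule along a path**: `l` is a level which has the posterior mass at least `q` at every site of the path in
the slab. -/
theorem fG_sum_ge {η : Env} (h : PA c D A) {l V q : ℝ} (hK0 : 0 < K) (hV1 : 1 ≤ V) (hVK : V ≤ K)
    (hl : |l| + D ≤ V) (hq : 0 < q) {z : ℕ → ℤ}
    (hz : ∀ k < K, 0 < Mt μ s η (c + k + 1) (fun _ => 1) (z k))
    (hcl : ∀ k < K, q * Mt μ s η (c + k + 1) (fun _ => 1) (z k) ≤
      Mt μ s η (c + k + 1) (fun T => if l ≤ A η (T ∩ range c) then 1 else 0) (z k)) :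
    l - (2 + Real.log V) / q ≤ ∑ k ∈ range K, fG μ s c K (slb c K) A (((c + k + 1 : ℕ) : ℤ), z k) η := by
  have hKr : (0 : ℝ) < K := by exact_mod_cast hK0
  have h1 : ∀ k ∈ range K, 1 / (K : ℝ) * (l - bt7 V ((k : ℝ) / K) / q) ≤
      fG μ s c K (slb c K) A (((c + k + 1 : ℕ) : ℤ), z k) η := fun k hk => by
    have hkK : k < K := mem_range.1 hk
    rw [fG_eq]
    have e1 : ∀ S, ind c (k + 1) (slb c K) S = 1 := fun S => ind_slb_le (by omega) S
    simp only [e1, mul_one]
    have e2 : sch 0 1 K (k + 1) = (k : ℝ) / K + 1 / K := by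
      unfold sch
      push_cast
      ring
    have e3 : sch 0 1 K k = (k : ℝ) / K := by
      unfold sch
      ring
    rw [e2, e3, Mt_sum7, Mt_sum7]
    refine log_ratio7 _ _ (fun T => A η (T ∩ range c)) (fun T _ => ?_) (fun T _ => ?_) (by linarith) hq ?_ ?_ (by positivity)
      (by positivity)
    · split_ifs
      · exact pth_nonneg _ _ _
      · exact le_rfl
    · have h2 := neg_le_of_abs_le (h.bd η (T ∩ range c))
      have h3 := le_abs_self l
      linarith
    · have h4 := hz k hkK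
      rw [Mt_sum7] at h4
      simpa only [mul_one] using h4
    · have h4 := hcl k hkK
      rw [Mt_sum7, Mt_sum7] at h4
      simpa only [mul_one] using h4
  refine le_trans ?_ (sum_le_sum h1)
  have h2 := sum_bt7 (K := K) hV1 hVK
  have e4 : ∑ k ∈ range K, 1 / (K : ℝ) * (l - bt7 V ((k : ℝ) / K) / q) =
      l - (∑ k ∈ range K, 1 / (K : ℝ) * bt7 V ((k : ℝ) / K)) / q := by
    have e5 : ∀ k ∈ range K, 1 / (K : ℝ) * (l - bt7 V ((k : ℝ) / K) / q) =
        1 / (K : ℝ) * l - 1 / (K : ℝ) * bt7 V ((k : ℝ) / K) / q := fun k _ => by ring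
    rw [sum_congr rfl e5, sum_sub_distrib, sum_const, card_range, nsmul_eq_mul, sum_div]
    congr 1
    field_simp
  rw [e4]
  have := div_le_div_of_nonneg_right h2 hq.le
  linarith

/-- The log weight in the environment shifted on the slab. -/
theorem lw_Sh7 (hN : c + K ≤ N) (f : Pt → Env → ℝ) (η : Env) (S : Px P) :
    lw μ s (Sh (slb c K) f η) N P S =
      lw μ s η N P S + ∑ k ∈ range K, f (((c + k + 1 : ℕ) : ℤ), pos S.1 (c + k + 1)) η := by
  rw [lw_eq, lw_eq, add_assoc]
  congr 1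
  have h1 : ∀ i ∈ range N, Sh (slb c K) f η ((i : ℤ) + 1, pos S.1 (i + 1)) = η ((i : ℤ) + 1, pos S.1 (i + 1)) +
      if i ∈ Ico c (c + K) then f ((i : ℤ) + 1, pos S.1 (i + 1)) η else 0 := fun i _ => by
    by_cases hi : i ∈ Ico c (c + K)
    · rw [if_pos hi]
      rw [mem_Ico] at hi
      refine Sh_in _ _ ?_
      rw [mem_slb]
      have h2 := pos_nonneg S.1 (i + 1)
      have h3 := pos_le S.1 (i + 1)
      push_cast at h3
      simp only
      omega
    · rw [if_neg hi, add_zero]
      rw [mem_Ico] at hi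
      refine Sh_out _ _ fun hp => hi ?_
      have h2 := (mem_slb.1 hp).1
      simp only at h2
      omega
  rw [sum_congr rfl h1, sum_add_distrib]
  congr 1
  rw [← sum_filter]
  have e : (range N).filter (fun i => i ∈ Ico c (c + K)) = Ico c (c + K) := by
    ext i
    rw [mem_filter, mem_range, mem_Ico]
    omega
  rw [e, sum_Ico_eq_sum_range, show c + K - c = K by omega]
  refine sum_congr rfl fun k _ => ?_
  push_cast
  rfl

/-- **Domination of one path.** -/
theorem dom7 (hN : c + K ≤ N) {η : Env} (h : PA c D A) {δ V q : ℝ} (hK0 : 0 < K) (hV1 : 1 ≤ V) (hVK : V ≤ K)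
    (hδ : 0 ≤ δ) (hl : 2 * D + δ ≤ V) (hq : 0 < q) (S : Px P)
    (hcl : ∀ k < K, q * Mt μ s η (c + k + 1) (fun _ => 1) (pos S.1 (c + k + 1)) ≤
      Mt μ s η (c + k + 1) (fun T => if tA c A η S - δ ≤ A η (T ∩ range c) then 1 else 0) (pos S.1 (c + k + 1))) :
    Real.exp (lw μ s η N P S + tA c A η S) ≤ Real.exp (δ + (2 + Real.log V) / q) *
      Real.exp (lw μ s (Sh (slb c K) (fG μ s c K (slb c K) A) η) N P S) := by
  rw [← Real.exp_add]
  refine Real.exp_le_exp.2 ?_
  rw [lw_Sh7 hN]
  have h1 := fG_sum_ge (μ := μ) (s := s) (η := η) (K := K) h (l := tA c A η S - δ) (V := V) (q := q) hK0 hV1 hVK (by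
    have h2 := h.bd η (S.1 ∩ range c)
    have h3 : |tA c A η S - δ| ≤ D + δ := (abs_sub _ _).trans (add_le_add h2 (le_of_eq (abs_of_nonneg hδ)))
    linarith) hq (z := fun k => pos S.1 (c + k + 1)) (fun k hk => by
      rw [Mt_one]
      exact W_pos _ _ (pos_nonneg _ _) (pos_le _ _)) hcl
  linarith

end Path

/-! ### Replicas, some seen in full -/

section Full

variable {X Y : Type*} [Fintype X]

theorem fac7 {p : X → Y} {g : X → ℝ} (h : ∀ x x', p x = p x' → g x = g x') : ∃ b : Y → ℝ, ∀ x, g x = b (p x) := by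
  classical
  refine ⟨fun y => if h : ∃ x, p x = y then g h.choose else 0, fun x => ?_⟩
  have hx : ∃ x', p x' = p x := ⟨x, rfl⟩
  show g x = if h : ∃ x', p x' = p x then g h.choose else 0
  rw [dif_pos hx]
  exact h _ _ hx.choose_spec.symm

theorem sum_cons7 {m : ℕ} (u : X → ℝ) (Ψ : (Fin (m + 1) → X) → ℝ) :
    ∑ x : Fin (m + 1) → X, (∏ i, u (x i)) * Ψ x = ∑ y : X, u y * ∑ x : Fin m → X, (∏ i, u (x i)) * Ψ (Fin.cons y x) := by
  rw [← (Fin.consEquiv (fun _ : Fin (m + 1) => X)).sum_comp, Fintype.sum_prod_type]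
  refine sum_congr rfl fun y _ => ?_
  rw [mul_sum]
  refine sum_congr rfl fun x _ => ?_
  rw [Fin.prod_univ_succ]
  show u y * (∏ i : Fin m, u (x i)) * _ = _
  rw [mul_assoc]
  rfl

/-- **The replicas of `F` are dominated, the others have the same law.** -/
theorem sum_dom7 {u v : X → ℝ} (hu : ∀ x, 0 ≤ u x) (hv : ∀ x, 0 ≤ v x) {p : X → Y}
    (huv : ∀ b : Y → ℝ, ∑ x, u x * b (p x) = ∑ x, v x * b (p x)) {C : ℝ} (hC : 1 ≤ C) :
    ∀ (m : ℕ) (F : Fin m → Prop) {Ψ : (Fin m → X) → ℝ}, (∀ x, 0 ≤ Ψ x) →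
      (∀ x x' : Fin m → X, (∀ i, F i → x i = x' i) → (∀ i, p (x i) = p (x' i)) → Ψ x = Ψ x') →
      (∀ x, Ψ x ≠ 0 → ∀ i, F i → u (x i) ≤ C * v (x i)) →
      ∑ x : Fin m → X, (∏ i, u (x i)) * Ψ x ≤ C ^ m * ∑ x : Fin m → X, (∏ i, v (x i)) * Ψ x := by
  intro m
  induction m with
  | zero =>
    intro F Ψ h0 _ _
    simp
  | succ m ih =>
    intro F Ψ h0 hΨ hd
    have hC0 : 0 ≤ C := by linarith
    rw [sum_cons7, sum_cons7]
    have hG0 : ∀ y, 0 ≤ ∑ x : Fin m → X, (∏ i, v (x i)) * Ψ (Fin.cons y x) := fun y =>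
      sum_nonneg fun x _ => mul_nonneg (prod_nonneg fun i _ => hv _) (h0 _)
    have h1 : ∀ y, ∑ x : Fin m → X, (∏ i, u (x i)) * Ψ (Fin.cons y x) ≤
        C ^ m * ∑ x : Fin m → X, (∏ i, v (x i)) * Ψ (Fin.cons y x) := fun y => by
      refine ih (fun i => F i.succ) (Ψ := fun x => Ψ (Fin.cons y x)) (fun x => h0 _) (fun x x' hF hp => ?_) fun x hx i hi => ?_
      · refine hΨ _ _ (fun i => ?_) fun i => ?_
        · refine Fin.cases (fun _ => rfl) (fun j hj => ?_) i
          rw [Fin.cons_succ, Fin.cons_succ]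
          exact hF j hj
        · refine Fin.cases rfl (fun j => ?_) i
          rw [Fin.cons_succ, Fin.cons_succ]
          exact hp j
      · have := hd _ hx i.succ hi
        rwa [Fin.cons_succ] at this
    have h2 : ∑ y : X, u y * ∑ x : Fin m → X, (∏ i, u (x i)) * Ψ (Fin.cons y x) ≤
        C ^ m * ∑ y : X, u y * ∑ x : Fin m → X, (∏ i, v (x i)) * Ψ (Fin.cons y x) := by
      rw [mul_sum]
      refine sum_le_sum fun y _ => ?_
      have := mul_le_mul_of_nonneg_left (h1 y) (hu y)
      calc _ ≤ u y * (C ^ m * ∑ x : Fin m → X, (∏ i, v (x i)) * Ψ (Fin.cons y x)) := this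
        _ = _ := by ring
    have h3 : ∑ y : X, u y * ∑ x : Fin m → X, (∏ i, v (x i)) * Ψ (Fin.cons y x) ≤
        C * ∑ y : X, v y * ∑ x : Fin m → X, (∏ i, v (x i)) * Ψ (Fin.cons y x) := by
      by_cases hF : F 0
      · rw [mul_sum]
        refine sum_le_sum fun y _ => ?_
        rcases (hG0 y).eq_or_lt with h4 | h4
        · rw [← h4]
          simp
        · obtain ⟨x, _, hx⟩ : ∃ x ∈ (univ : Finset (Fin m → X)), 0 < (∏ i, v (x i)) * Ψ (Fin.cons y x) := by
            by_contra hc
            push Not at hc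
            have := sum_nonpos hc
            linarith
          have hne : Ψ (Fin.cons y x) ≠ 0 := fun h5 => by
            rw [h5, mul_zero] at hx
            exact lt_irrefl _ hx
          have h5 := hd _ hne 0 hF
          rw [Fin.cons_zero] at h5
          calc _ ≤ (C * v y) * ∑ x : Fin m → X, (∏ i, v (x i)) * Ψ (Fin.cons y x) :=
                mul_le_mul_of_nonneg_right h5 h4.le
            _ = _ := by ring
      · obtain ⟨b, hb⟩ := fac7 (p := p) (g := fun y => ∑ x : Fin m → X, (∏ i, v (x i)) * Ψ (Fin.cons y x)) fun y y' hy => by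
          refine sum_congr rfl fun x _ => ?_
          congr 1
          refine hΨ _ _ (fun i => ?_) fun i => ?_
          · refine Fin.cases (fun hi => absurd hi hF) (fun j _ => ?_) i
            rw [Fin.cons_succ, Fin.cons_succ]
          · refine Fin.cases ?_ (fun j => ?_) i
            · rw [Fin.cons_zero, Fin.cons_zero]
              exact hy
            · rw [Fin.cons_succ, Fin.cons_succ]
        have hnn : 0 ≤ ∑ y : X, v y * ∑ x : Fin m → X, (∏ i, v (x i)) * Ψ (Fin.cons y x) :=
          sum_nonneg fun y _ => mul_nonneg (hv y) (hG0 y)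
        have e : ∑ y : X, u y * ∑ x : Fin m → X, (∏ i, v (x i)) * Ψ (Fin.cons y x) =
            ∑ y : X, v y * ∑ x : Fin m → X, (∏ i, v (x i)) * Ψ (Fin.cons y x) := by
          simp only [hb]
          exact huv b
        rw [e]
        nlinarith
    calc _ ≤ C ^ m * ∑ y : X, u y * ∑ x : Fin m → X, (∏ i, v (x i)) * Ψ (Fin.cons y x) := h2
      _ ≤ C ^ m * (C * ∑ y : X, v y * ∑ x : Fin m → X, (∏ i, v (x i)) * Ψ (Fin.cons y x)) :=
          mul_le_mul_of_nonneg_left h3 (pow_nonneg hC0 m)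
      _ = _ := by rw [pow_succ]; ring

open Classical in
/-- **The abstract slab step with full replicas.** -/
theorem rep_dom7 [Nonempty X] {w0 w1 w2 w3 : X → ℝ} {D : ℝ} (h1 : ∀ x, |w1 x - w0 x| ≤ D) (h2 : ∀ x, |w2 x - w0 x| ≤ D)
    (h3 : ∀ x, |w3 x - w0 x| ≤ D) {p : X → Y}
    (huv : ∀ b : Y → ℝ, ∑ x, Real.exp (w1 x) * b (p x) = ∑ x, Real.exp (w3 x) * b (p x))
    {a : X → Prop} (h23 : ∀ x, a x → w2 x = w3 x) {m : ℕ} (F : Fin m → Prop) {Ψ Ψ' : (Fin m → X) → ℝ} {C M ε : ℝ}
    (hC : 1 ≤ C) (h0 : ∀ x, 0 ≤ Ψ x)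
    (hΨ : ∀ x x' : Fin m → X, (∀ i, F i → x i = x' i) → (∀ i, p (x i) = p (x' i)) → Ψ x = Ψ x')
    (hd : ∀ x, Ψ x ≠ 0 → ∀ i, F i → a (x i) → Real.exp (w1 (x i)) ≤ C * Real.exp (w3 (x i)))
    (hle : ∀ x, Ψ x ≤ Ψ' x) (hM : ∀ x, |Ψ x| ≤ M) (hM' : ∀ x, |Ψ' x| ≤ M)
    (hε : gm w0 (fun x => if a x then 0 else 1) ≤ ε) (hε1 : ε < 1) :
    rep m w1 Ψ ≤ C ^ m * (rep m w2 Ψ' + 4 * m * Real.exp (2 * D) * ε * M) + m * (Real.exp (2 * D) * ε) * M := by
  have hM0 : 0 ≤ M := (abs_nonneg _).trans (hM fun _ => Classical.arbitrary _)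
  -- the full replicas are restricted to `a`
  set Φ : (Fin m → X) → ℝ := fun x => if ∀ i, F i → a (x i) then Ψ x else 0 with hΦ
  have hΦ0 : ∀ x, 0 ≤ Φ x := fun x => by
    rw [hΦ]
    simp only
    split_ifs
    · exact h0 x
    · exact le_rfl
  have hsp : ∀ x, Ψ x ≤ Φ x + ∑ i : Fin m, M * (if a (x i) then 0 else 1) := fun x => by
    have hs : 0 ≤ ∑ i : Fin m, M * (if a (x i) then (0 : ℝ) else 1) := sum_nonneg fun i _ => by
      split_ifs
      · rw [mul_zero]
      · rw [mul_one]
        exact hM0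
    by_cases hx : ∀ i, F i → a (x i)
    · have : Φ x = Ψ x := by
        rw [hΦ]
        simp only
        rw [if_pos hx]
      rw [this]
      linarith
    · have h4 : 0 ≤ Φ x := hΦ0 x
      push Not at hx
      obtain ⟨i, _, hi⟩ := hx
      have h5 : M ≤ ∑ i : Fin m, M * (if a (x i) then (0 : ℝ) else 1) := by
        have h6 := single_le_sum (f := fun i : Fin m => M * (if a (x i) then (0 : ℝ) else 1)) (fun i _ => by
          split_ifs
          · rw [mul_zero]
          · rw [mul_one]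
            exact hM0) (mem_univ i)
        simp only [if_neg hi, mul_one] at h6
        exact h6
      have h7 := (le_abs_self _).trans (hM x)
      linarith
  have hg1 : gm w1 (fun x => if a x then 0 else 1) ≤ Real.exp (2 * D) * ε :=
    (gm_tilt h1 fun x => by split_ifs <;> norm_num).trans (mul_le_mul_of_nonneg_left hε (Real.exp_pos _).le)
  have r1 : rep m w1 Ψ ≤ rep m w1 Φ + m * (Real.exp (2 * D) * ε) * M := by
    refine (rep_mono m w1 hsp).trans ?_
    rw [H41.rep_add, H41.rep_sum]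
    refine add_le_add le_rfl ?_
    have e : ∀ i : Fin m, rep m w1 (fun x => M * (if a (x i) then (0 : ℝ) else 1)) =
        M * gm w1 (fun x => if a x then 0 else 1) := fun i => by
      rw [rep_smul, rep_site m w1 (fun x => if a x then (0 : ℝ) else 1) i]
    rw [sum_congr rfl fun i _ => e i, sum_const, card_univ, Fintype.card_fin, nsmul_eq_mul]
    calc (m : ℝ) * (M * gm w1 fun x => if a x then 0 else 1) ≤ m * (M * (Real.exp (2 * D) * ε)) := by gcongr
      _ = _ := by ring
  -- domination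
  have r2 : rep m w1 Φ ≤ C ^ m * rep m w3 Φ := by
    have hZ : gz w1 = gz w3 := by
      have := huv fun _ => 1
      simp only [mul_one] at this
      exact this
    unfold rep
    rw [hZ, ← mul_div_assoc]
    refine div_le_div_of_nonneg_right ?_ (pow_pos (gz_pos w3) m).le
    have key := sum_dom7 (u := fun x => Real.exp (w1 x)) (v := fun x => Real.exp (w3 x)) (fun x => (Real.exp_pos _).le)
      (fun x => (Real.exp_pos _).le) huv hC m F (Ψ := Φ) hΦ0 (fun x x' hF hp => by
        have e1 : (∀ i, F i → a (x i)) ↔ ∀ i, F i → a (x' i) :=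
          ⟨fun h i hi => by rw [← hF i hi]; exact h i hi, fun h i hi => by rw [hF i hi]; exact h i hi⟩
        rw [hΦ]
        simp only
        rw [hΨ x x' hF hp]
        by_cases h : ∀ i, F i → a (x i)
        · rw [if_pos h, if_pos (e1.1 h)]
        · rw [if_neg h, if_neg fun h' => h (e1.2 h')]) (fun x hx i hi => by
        have ha : ∀ i, F i → a (x i) := by
          by_contra hc
          apply hx
          rw [hΦ]
          simp only
          rw [if_neg hc]
        refine hd x (fun h8 => hx ?_) i hi (ha i hi)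
        rw [hΦ]
        simp only
        rw [if_pos ha, h8])
    simp only [← Real.exp_sum] at key
    exact key
  -- the switched field
  have r3 : rep m w3 Φ ≤ rep m w2 Ψ' + 4 * m * Real.exp (2 * D) * ε * M := by
    refine rep_step (w0 := w0) (w3 := w3) (a := fun x => if a x then 1 else 0) h3 h2 h3 (p := id) (fun b => rfl)
      (fun x => by split_ifs <;> norm_num) (fun x hx => ?_) (fun x x' hx => ?_) (fun x => ?_) (fun x => ?_) hM' ?_ hε1
    · refine h23 x ?_
      by_contra hc
      exact hx (if_neg hc)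
    · have : x = x' := funext hx
      rw [this]
    · rw [hΦ]
      simp only
      split_ifs
      · exact hle x
      · exact (h0 x).trans (hle x)
    · rw [hΦ]
      simp only
      split_ifs
      · exact hM x
      · rw [abs_zero]
        exact hM0
    · refine le_trans (le_of_eq ?_) hε
      congr 1
      funext x
      split_ifs <;> norm_num
  have hCm : 0 ≤ C ^ m := pow_nonneg (by linarith) m
  calc rep m w1 Ψ ≤ rep m w1 Φ + m * (Real.exp (2 * D) * ε) * M := r1
    _ ≤ C ^ m * rep m w3 Φ + m * (Real.exp (2 * D) * ε) * M := by linarith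
    _ ≤ _ := by
        have := mul_le_mul_of_nonneg_left r3 hCm
        linarith

end Full

end

end Pool.W7d29a1.C0.H7
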