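import Pool.Agent.W_7d29a1_C0.Loc7S

/-!
CURV0 (MP_7d29a1_pr), leaf E0D: THE TWO SIDED COMPARISON, part 2: IN THE FRAME OF MOD92 (helper7).

`NL7 w u δ c K S`: at every row `m` of the slab `(c, c + K]` the level `u S - δ` of the tilt has the conditional mass at least `1 / 4`
given the site of `S` at the row `m` and what `S` does behind. `cE_Mt7`: conditional means given `pJ 0 m` of functions of the past are
ratios of path sums. `e0_modD`: `e0_mod7` for functionals which see some of the replicas (`F`) in full, provided these are in `NL7`.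
-/

set_option autoImplicit false

namespace Pool.W7d29a1.C0.H7

open Finset MeasureTheory Filter Topology Pool.Agent.W_7d29a1_F Pool.Agent.W_7d29a1_X Pool.Agent.W_7d29a1_C0.Mod92
  Pool.Agent.W_7d29a1_C0.H32 Pool.W7d29a1.C0.H27
open Pool.W7d29a1.C0 (gz gm gz_pos)
open Pool.W7d29a1.C0.VT31 (cE fz fz_pos)
open scoped ENNReal

noncomputable section

variable {μ : Measure ℝ} {s : ℝ} {N : ℕ} {P : Finset (Finset ℕ)}

/-! ### Conditional means of functions of the past -/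

theorem pJ0_iff {m : ℕ} {S S' : Px P} : pJ 0 m S' = pJ 0 m S ↔ pos S'.1 m = pos S.1 m ∧ S'.1 \ range m = S.1 \ range m := by
  have e : Ico 0 m = range m := by rw [range_eq_Ico]
  unfold pJ
  rw [e, Prod.mk.injEq, and_comm]
  unfold pos
  rw [Nat.cast_inj]

/-- **Conditional means given `pJ 0 m` of functions of the past.** -/
theorem cE_Mt7 {m : ℕ} (hm : m ≤ N) (hP : Fam N m P) (η : Env) (G : Finset ℕ → ℝ) (S : Px P) :
    cE (lw μ s η N P) (pJ 0 m) (fun S' => G (S'.1 ∩ range m)) S =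
      Mt μ s η m G (pos S.1 m) / Mt μ s η m (fun _ => 1) (pos S.1 m) := by
  classical
  have : Nonempty (Px P) := ⟨S⟩
  obtain ⟨b0, h0⟩ := sum_fam hP
  set z0 := pos S.1 m with hz0
  set T0 := S.1 \ range m with hT0
  set b1 : ℤ → Finset ℕ → ℝ := fun z T => (if z = z0 ∧ T = T0 then 1 else 0) * b0 z T with hb1
  set κ : ℝ := ∑ T ∈ (Ico m N).powerset, ∑ z ∈ Icc (0 : ℤ) m, fut μ s η m N z T * b1 z T with hκ
  have key : ∀ G : Finset ℕ → ℝ, (∑ S' : Px P, if pJ 0 m S' = pJ 0 m S then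
      Real.exp (lw μ s η N P S') * G (S'.1 ∩ range m) else 0) = κ * Mt μ s η m G z0 := fun G => by
    have e1 : (∑ S' : Px P, if pJ 0 m S' = pJ 0 m S then Real.exp (lw μ s η N P S') * G (S'.1 ∩ range m) else 0) =
        ∑ S' : Px P, (fun T => pth μ s η N T * G (T ∩ range m) * (if pos T m = z0 ∧ T \ range m = T0 then 1 else 0)) S'.1 := by
      refine sum_congr rfl fun S' _ => ?_
      simp only
      rw [exp_lw]
      by_cases h : pJ 0 m S' = pJ 0 m S
      · rw [if_pos h, if_pos (pJ0_iff.1 h), mul_one]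
      · rw [if_neg h, if_neg fun h' => h (pJ0_iff.2 h'), mul_zero]
    rw [e1]
    refine (h0 fun T => pth μ s η N T * G (T ∩ range m) * (if pos T m = z0 ∧ T \ range m = T0 then 1 else 0)).trans ?_
    have e2 := sum_split (μ := μ) (s := s) η hm G b1
    have e3 : ∑ S' ∈ (range N).powerset, pth μ s η N S' * G (S' ∩ range m) *
        (if pos S' m = z0 ∧ S' \ range m = T0 then 1 else 0) * b0 (pos S' m) (S' \ range m) =
        ∑ S' ∈ (range N).powerset, pth μ s η N S' * G (S' ∩ range m) * b1 (pos S' m) (S' \ range m) :=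
      sum_congr rfl fun S' _ => by
        rw [hb1]
        simp only
        ring
    refine e3.trans (e2.trans ?_)
    rw [hκ, sum_mul]
    refine sum_congr rfl fun T _ => ?_
    rw [sum_mul]
    refine sum_congr rfl fun z _ => ?_
    by_cases hz : z = z0
    · rw [hz]
    · rw [hb1]
      simp only
      rw [if_neg fun h => hz h.1]
      ring
  have h1 := key G
  have h2 := key fun _ => 1
  have h3 : fz (lw μ s η N P) (pJ 0 m) S = κ * Mt μ s η m (fun _ => 1) z0 := by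
    rw [← h2]
    unfold fz
    refine sum_congr rfl fun S' _ => ?_
    rw [mul_one]
  have h4 := fz_pos (lw μ s η N P) (pJ 0 m) S
  have hκ0 : κ ≠ 0 := fun h => by
    rw [h3, h, zero_mul] at h4
    exact lt_irrefl _ h4
  unfold cE
  rw [h1, h3, mul_div_mul_left _ _ hκ0]

/-! ### The paths whose level is seen at every row -/

open Classical in
/-- The level `u S - δ` has the conditional mass at least `1 / 4` given the path behind the row `m`, for all `m` in the slab. -/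
def NL7 (w u : Px P → ℝ) (δ : ℝ) (c K : ℕ) (S : Px P) : Prop :=
  ∀ m, c < m → m ≤ c + K → 1 / 4 ≤ cE w (pJ 0 m) (fun S' => if u S - δ ≤ u S' then 1 else 0) S

/-- The typical paths of the slab step. -/
def Ty7 (c K : ℕ) (σ R : ℝ) (Cn : Finset Pt) (S : Px P) : Prop :=
  ¬ Out7 c K Cn S.1 ∧ (∀ k < K, |((ps S (c + K) : ℝ) - ps S (c + k + 1) - σ * ((K : ℝ) - k - 1))| ≤ R / 2) ∧
    ps S c ∈ nbC c K σ R (ps S (c + K))

variable {c K : ℕ} {σ R M δ : ℝ} {U : Env → Finset ℕ → ℝ}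

open Classical in
/-- The level of the local tilt is seen at every site of a typical path. -/
theorem level7 {k : ℕ} {η : Env} (hP : ∀ m ≤ N, Fam N m P) (hN : c + K ≤ N) {Cn : Finset Pt} {δ0 : ℝ} (hδ0 : δ0 ≤ 1 / 8)
    (hg1 : ∀ j < K, ∀ z : ℤ, (((c + j + 1 : ℕ) : ℤ), z) ∈ Cn →
      FarM μ s η c σ (R / 2) j z ≤ δ0 * Mt μ s η (c + j + 1) (fun _ => 1) z) {S : Px P} (hT : Ty7 c K σ R Cn S)
    (hNL : NL7 (lw μ s η N P) (tA c U η) δ c K S) {b : Fin k → ℤ} (hb : ps S (c + K) ∈ H43.bx b) :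
    ∀ j < K, 1 / 8 * Mt μ s η (c + j + 1) (fun _ => 1) (pos S.1 (c + j + 1)) ≤
      Mt μ s η (c + j + 1) (fun T => if tA c (Ab c U M ((H43.bx b).biUnion (nbC c K σ R))) η S - δ ≤
        Ab c U M ((H43.bx b).biUnion (nbC c K σ R)) η (T ∩ range c) then 1 else 0) (pos S.1 (c + j + 1)) := by
  intro j hj
  set z := pos S.1 (c + j + 1) with hz
  set Bb := (H43.bx b).biUnion (nbC c K σ R) with hBb
  have hM1 : 0 < Mt μ s η (c + j + 1) (fun _ => 1) z := by
    rw [Mt_one]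
    exact W_pos _ _ (pos_nonneg _ _) (pos_le _ _)
  have hcB : ps S c ∈ Bb := mem_biUnion.2 ⟨_, hb, hT.2.2⟩
  have e0 : tA c (Ab c U M Bb) η S = tA c U η S + M := by rw [tA_Ab, if_pos hcB]
  -- the level of `U`
  have h1 := hNL (c + j + 1) (by omega) (by omega)
  set G : Finset ℕ → ℝ := fun T => if tA c U η S - δ ≤ U η (T ∩ range c) then 1 else 0 with hG
  have e1 : (fun S' : Px P => if tA c U η S - δ ≤ tA c U η S' then (1 : ℝ) else 0) =
      fun S' => G (S'.1 ∩ range (c + j + 1)) := by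
    funext S'
    rw [hG]
    simp only
    have e : S'.1 ∩ range (c + j + 1) ∩ range c = S'.1 ∩ range c := by
      rw [inter_assoc, inter_eq_right.2 (range_subset_range.2 (by omega : c ≤ c + j + 1))]
    rw [e]
    rfl
  rw [e1, cE_Mt7 (by omega) (hP _ (by omega)) η G S, le_div_iff₀ hM1] at h1
  -- the far paths
  have hmem : (((c + j + 1 : ℕ) : ℤ), z) ∈ Cn := by
    by_contra hc
    refine hT.1 ⟨c + j, by omega, by omega, ?_⟩
    have e : (((c + j : ℕ) : ℤ) + 1) = ((c + j + 1 : ℕ) : ℤ) := by push_cast; ring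
    rw [e]
    exact hc
  have h2 := (hg1 j hj z hmem).trans (mul_le_mul_of_nonneg_right hδ0 hM1.le)
  -- comparison of the indicators
  have h3 : Mt μ s η (c + j + 1) G z ≤
      Mt μ s η (c + j + 1) (fun T => if tA c (Ab c U M Bb) η S - δ ≤ Ab c U M Bb η (T ∩ range c) then 1 else 0) z +
        FarM μ s η c σ (R / 2) j z := by
    unfold FarM
    rw [← Mt_add_fun]
    refine Mt_mono η _ z fun T => ?_
    rw [hG]
    simp only
    by_cases hl : tA c U η S - δ ≤ U η (T ∩ range c)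
    · rw [if_pos hl]
      by_cases hf : |((z : ℝ) - (pos T c : ℝ) - σ * ((j : ℝ) + 1))| ≤ R / 2
      · have h4 : pos (T ∩ range c) c ∈ Bb := by
          refine mem_biUnion.2 ⟨_, hb, ?_⟩
          unfold nbC
          rw [mem_filter, mem_Icc]
          refine ⟨⟨pos_nonneg _ _, pos_le _ _⟩, ?_⟩
          rw [pos_inter T le_rfl]
          have h5 := hT.2.1 j hj
          have e : ((ps S (c + K) : ℝ) - (pos T c : ℝ) - σ * K) =
              ((ps S (c + K) : ℝ) - ps S (c + j + 1) - σ * ((K : ℝ) - j - 1)) +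
                ((z : ℝ) - (pos T c : ℝ) - σ * ((j : ℝ) + 1)) := by
            rw [hz]
            unfold ps
            ring
          rw [e]
          exact (abs_add_le _ _).trans (by linarith)
        have h6 : Ab c U M Bb η (T ∩ range c) = U η (T ∩ range c) + M := by
          unfold Ab
          rw [if_pos h4]
        rw [if_pos (by rw [e0, h6]; linarith), if_pos hf, add_zero]
      · rw [if_neg hf]
        have : (0 : ℝ) ≤ if tA c (Ab c U M Bb) η S - δ ≤ Ab c U M Bb η (T ∩ range c) then 1 else 0 := by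
          split_ifs <;> norm_num
        linarith
    · rw [if_neg hl]
      have : (0 : ℝ) ≤ if tA c (Ab c U M Bb) η S - δ ≤ Ab c U M Bb η (T ∩ range c) then 1 else 0 := by
        split_ifs <;> norm_num
      have h7 : (0 : ℝ) ≤ if |((z : ℝ) - (pos T c : ℝ) - σ * ((j : ℝ) + 1))| ≤ R / 2 then 0 else 1 := by
        split_ifs <;> norm_num
      linarith
  linarith

/-! ### The frame -/

/-- The factor of one full replica. -/
def Cd7 (M δ : ℝ) : ℝ := Real.exp (δ + (2 + Real.log (4 * M + δ + 1)) / (1 / 8))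

theorem one_le_Cd7 (hM : 0 ≤ M) (hδ : 0 ≤ δ) : 1 ≤ Cd7 M δ := by
  unfold Cd7
  have := Real.log_nonneg (show 1 ≤ 4 * M + δ + 1 by linarith)
  exact Real.one_le_exp (by positivity)

open Classical in
/-- **E0D, the localisation as a hypothesis.** -/
theorem e0_modD [IsProbabilityMeasure μ] [Nonempty (Px P)] (hP : ∀ m ≤ N, Fam N m P) (hK0 : 0 < K) (hN : c + K ≤ N)
    (hM : 0 ≤ M) (hU : PA c M U) (hR : 0 ≤ R) {p C θ0 : ℝ} (hp : 1 ≤ p) (hC : 0 ≤ C) (hQ : QI μ p C θ0)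
    (hθ : 2 * M / K ≤ θ0) {Cn : Finset Pt} (hCn : Cn ⊆ slb c K) {δ0 ε : ℝ} (hδ0 : 0 ≤ δ0) (hδ0' : δ0 ≤ 1 / 8) (hε0 : 0 ≤ ε)
    (hε1 : ε < 1) (hδ : 0 ≤ δ) (hVK : 4 * M + δ + 1 ≤ K) {Ω : Set Env} (hΩ : MeasurableSet Ω)
    (hg1 : ∀ η ∈ Ω, ∀ j < K, ∀ z : ℤ, (((c + j + 1 : ℕ) : ℤ), z) ∈ Cn →
      FarM μ s η c σ (R / 2) j z ≤ δ0 * Mt μ s η (c + j + 1) (fun _ => 1) z)
    (hg2 : ∀ η ∈ Ω, gm (lw μ s η N P) (fun S => if Ty7 c K σ R Cn S then 0 else 1) ≤ ε)
    {k : ℕ} (F : Fin k → Prop) {Λ : ℝ} {Ψ Ψ' : Env → (Fin k → Px P) → ℝ} (h0 : ∀ η x, 0 ≤ Ψ η x) (hΛ : ∀ η x, Ψ η x ≤ Λ)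
    (h0' : ∀ η x, 0 ≤ Ψ' η x) (hΛ' : ∀ η x, Ψ' η x ≤ Λ) (hm : ∀ x, Measurable fun η => Ψ' η x)
    (hΨ : ∀ η, ∀ x x' : Fin k → Px P, (∀ i, F i → x i = x' i) → (∀ i, pB (c + K) (x i) = pB (c + K) (x' i)) → Ψ η x = Ψ η x')
    (hNL : ∀ η ∈ Ω, ∀ x, Ψ η x ≠ 0 → ∀ i, F i → NL7 (lw μ s η N P) (tA c U η) δ c K (x i))
    (hpas : ∀ η ∈ Ω, ∀ ζ : Env, (∀ q, q ∉ slb c K → ζ q = η q) → (∀ q, |ζ q - η q| ≤ 2 * M / K) → ∀ x, Ψ η x ≤ Ψ' ζ x) :
    ∫⁻ η, ENNReal.ofReal (rep k (fun S => lw μ s η N P S + tA c U η S) fun x => (Cd7 M δ ^ k)⁻¹ * Ψ η x) ∂(law μ) ≤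
      ENNReal.ofReal (Real.exp (C * (k * K * (4 * R + 1) * (2 * M / K) ^ 2 + (slb c K).card * (Real.exp (4 * M) * δ0) ^ 2))) *
        ((((N + 1 : ℕ) : ℝ≥0∞) ^ k) ^ (1 - 1 / p) *
          (∫⁻ η, ENNReal.ofReal (rep k (lw μ s η N P) (Ψ' η)) ^ p ∂(law μ)) ^ (1 / p)) +
      ENNReal.ofReal ((N + 1 : ℝ) ^ k * (5 * k * Real.exp (4 * M) * ε * Λ) +
        (Cd7 M δ ^ k)⁻¹ * Λ * k * (Real.exp (2 * M) * ε)) +
      ENNReal.ofReal ((Cd7 M δ ^ k)⁻¹ * Λ) * law μ Ωᶜ := by
  have h2M : 0 ≤ 2 * M := by linarith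
  set Bb : (Fin k → ℤ) → Finset ℤ := fun b => (H43.bx b).biUnion (nbC c K σ R) with hBb
  set dd : ℝ := Real.exp (4 * M) * δ0 with hdd
  have hdn : 0 ≤ dd := mul_nonneg (Real.exp_pos _).le hδ0
  have hPA : ∀ b, PA c (2 * M) (Ab c U M (Bb b)) := fun b => Ab_PA hM hU _
  set f0 : (Fin k → ℤ) → Pt → Env → ℝ := fun b => fG μ s c K (slb c K) (Ab c U M (Bb b)) with hf0
  set φ : (Fin k → ℤ) → Pt → Env → ℝ := fun b => swS (f0 b) Cn (nearS c K σ R b) dd with hφ
  have hΛ0 : ∀ η : Env, 0 ≤ Λ := fun η => (h0 η fun _ => Classical.arbitrary _).trans (hΛ η _)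
  have hΛn : 0 ≤ Λ := hΛ0 fun _ => 0
  have hf0b : ∀ b, ∀ q ∈ slb c K, ∀ η, |f0 b q η| ≤ 2 * M / K := fun b q _ η => fG_bd h2M (hPA b) q η
  have hCd := one_le_Cd7 hM hδ
  have hCk : 1 ≤ Cd7 M δ ^ k := one_le_pow₀ hCd
  have hCk0 : 0 < Cd7 M δ ^ k := by linarith
  have hCi : 0 ≤ (Cd7 M δ ^ k)⁻¹ := (inv_pos.2 hCk0).le
  have hCi1 : (Cd7 M δ ^ k)⁻¹ ≤ 1 := inv_le_one_of_one_le₀ hCk
  have hg1' : ∀ η ∈ Ω, ∀ j < K, ∀ z : ℤ, (((c + j + 1 : ℕ) : ℤ), z) ∈ Cn →
      FarM μ s η c σ R j z ≤ δ0 * Mt μ s η (c + j + 1) (fun _ => 1) z := fun η hη j hj z hz => by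
    refine le_trans ?_ (hg1 η hη j hj z hz)
    unfold FarM
    refine Mt_mono η _ z fun T => ?_
    by_cases h1 : |((z : ℝ) - (pos T c : ℝ) - σ * ((j : ℝ) + 1))| ≤ R / 2
    · rw [if_pos h1, if_pos (h1.trans (by linarith))]
    · rw [if_neg h1]
      split_ifs <;> norm_num
  refine e0_core7 (p := p) (C := C) (θ0 := θ0) (Qs := slb c K) (Ω := Ω) (ε := ε) (k := k) (M := M)
    (u := fun η S => tA c U η S) (fun η S => hU.bd η _)
    (fun S => ps S c) (fun S => ps S (c + K)) (fun S => mem_Icc.2 ⟨ps_nonneg S _, (ps_le S _).trans (by exact_mod_cast hN)⟩)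
    (nbC c K σ R) hp hC hQ (fun q => q.1) φ (fun b q _ => swS_meas (fG_meas (hPA b) q))
    (fun b => swS_pred (fG_pred (rws_slb c K) (hPA b)))
    (fun b q hq η => ((swS_le q η).trans (hf0b b q hq η)).trans hθ)
    (fun b η => (swS_sq (hf0b b) hdn η).trans (by
      refine add_le_add (mul_le_mul_of_nonneg_right (card_nearS c K hR b) (sq_nonneg _)) le_rfl))
    hΩ (fun η hη => le_trans (Pool.W7d29a1.C0.gm_mono _ fun S => ?_) (hg2 η hη))
    (fun η x => mul_nonneg hCi (h0 η x)) (fun η x => mul_le_mul_of_nonneg_left (hΛ η x) hCi) h0' hm (by positivity)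
    (fun η hη b => ?_)
  · by_cases h1 : ps S c ∈ nbC c K σ R (ps S (c + K))
    · rw [if_pos h1]
      split_ifs <;> norm_num
    · rw [if_neg h1, if_neg fun h2 => h1 h2.2.2]
  have e1 : (fun S => lw μ s η N P S + (if ps S c ∈ Bb b then tA c U η S + M else 0)) =
      fun S : Px P => lw μ s η N P S + tA c (Ab c U M (Bb b)) η S := by
    funext S
    rw [tA_Ab]
  have hsm := fG_small (μ := μ) (s := s) hM hU hCn hδ0 (hg1' η hη) b
  set ΨB : (Fin k → Px P) → ℝ := fun x => if (fun i => ps (x i) (c + K)) = b then Ψ η x else 0 with hΨB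
  set ΨB' : (Fin k → Px P) → ℝ := fun x => if (fun i => ps (x i) (c + K)) = b then Ψ' (Sh (slb c K) (φ b) η) x else 0 with hΨB'
  have hb1 : ∀ x, 0 ≤ ΨB x ∧ |ΨB x| ≤ Λ := fun x => by
    rw [hΨB]
    simp only
    split_ifs
    · exact ⟨h0 η x, by rw [abs_of_nonneg (h0 η x)]; exact hΛ η x⟩
    · exact ⟨le_rfl, by rw [abs_zero]; exact hΛn⟩
  have hb2 : ∀ x, |ΨB' x| ≤ Λ := fun x => by
    rw [hΨB']
    simp only
    split_ifs
    · rw [abs_of_nonneg (h0' _ x)]
      exact hΛ' _ x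
    · rw [abs_zero]
      exact hΛn
  have key := rep_dom7 (w0 := lw μ s η N P) (w1 := fun S => lw μ s η N P S + tA c (Ab c U M (Bb b)) η S)
    (w2 := lw μ s (Sh (slb c K) (φ b) η) N P) (w3 := lw μ s (Sh (slb c K) (f0 b) η) N P) (D := 2 * M)
    (p := pB (c + K)) (a := fun S => Ty7 c K σ R Cn S) (m := k) (C := Cd7 M δ) (M := Λ) (ε := ε) (Ψ := ΨB) (Ψ' := ΨB')
    (fun S => by
      simp only [add_sub_cancel_left]
      exact (hPA b).bd η _)
    (fun S => abs_lw_Sh_of (rws_slb c K) h2M η (fun q hq => (swS_le q η).trans (hf0b b q hq η)) S)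
    (fun S => abs_lw_Sh_of (rws_slb c K) h2M η (fun q hq => hf0b b q hq η) S)
    (fun b' => (trans_lw_slb (μ := μ) (s := s) (hP _ hN) hK0 hN (hPA b) η b').symm)
    (fun S hS => lw_swS_eq (fun q hq hn => hsm q hq hn) hS.1) F hCd (fun x => (hb1 x).1)
    (fun x x' hF hx => by
      have hb : (fun i => ps (x i) (c + K)) = fun i => ps (x' i) (c + K) := funext fun i => congrArg Prod.fst (hx i)
      rw [hΨB]
      simp only
      rw [hb, hΨ η x x' hF hx])
    (fun x hx i hi hT => by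
      have hbx : (fun i => ps (x i) (c + K)) = b := by
        by_contra hc
        exact hx (if_neg hc)
      have hΨx : Ψ η x ≠ 0 := fun h => hx (by
        rw [hΨB]
        simp only
        rw [if_pos hbx, h])
      have hbi : ps (x i) (c + K) ∈ H43.bx b := by
        have : ps (x i) (c + K) = b i := congrFun hbx i
        rw [this]
        exact mem_image_of_mem b (mem_univ i)
      refine dom7 (K := K) hN (hPA b) hK0 (V := 4 * M + δ + 1) (q := 1 / 8) (by linarith) hVK hδ (by linarith) (by norm_num)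
        (x i) ?_
      exact level7 hP hN hδ0' (hg1 η hη) hT (hNL η hη x hΨx i hi) hbi)
    (fun x => by
      rw [hΨB, hΨB']
      simp only
      by_cases hb : (fun i => ps (x i) (c + K)) = b
      · simp only [hb, if_true]
        refine hpas η hη _ (fun q hq => Sh_out _ _ hq) (fun q => ?_) x
        by_cases hq : q ∈ slb c K
        · rw [Sh_in _ _ hq, add_sub_cancel_left]
          exact (swS_le q η).trans (hf0b b q hq η)
        · rw [Sh_out _ _ hq, sub_self, abs_zero]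
          positivity
      · simp only [hb, if_false, le_refl])
    (fun x => (hb1 x).2) hb2 (hg2 η hη) hε1
  rw [e1]
  have e2 : rep k (fun S => lw μ s η N P S + tA c (Ab c U M (Bb b)) η S)
      (fun x => if (fun i => ps (x i) (c + K)) = b then (Cd7 M δ ^ k)⁻¹ * Ψ η x else 0) =
      (Cd7 M δ ^ k)⁻¹ * rep k (fun S => lw μ s η N P S + tA c (Ab c U M (Bb b)) η S) ΨB := by
    rw [← rep_smul]
    congr 1
    funext x
    rw [hΨB]
    simp only
    split_ifs
    · rfl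
    · rw [mul_zero]
  rw [e2]
  have h5 := mul_le_mul_of_nonneg_left key hCi
  refine h5.trans ?_
  rw [show 2 * (2 * M) = 4 * M by ring, mul_add, ← mul_assoc, inv_mul_cancel₀ hCk0.ne', one_mul]
  have h6 : (Cd7 M δ ^ k)⁻¹ * (k * (Real.exp (4 * M) * ε) * Λ) ≤ k * (Real.exp (4 * M) * ε) * Λ := by
    have : 0 ≤ (k : ℝ) * (Real.exp (4 * M) * ε) * Λ := by positivity
    nlinarith
  linarith

end

end Pool.W7d29a1.C0.H7
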