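import Pool.Agent.W_7d29a1_C0.Loc7T

/-!
CURV0 (MP_7d29a1_pr), leaf E0D: THE TWO SIDED COMPARISON, part 3: FINAL FORM (helper7).

`E0D`: the statement of `E0R` for functionals which see the replicas of `F` IN FULL (on both sides of the window and in it), the other
replicas behind the slab only, under the condition that the functional vanishes unless the full replicas are in `NL7`.
`e0_finD`: it holds for every tilt in front of the slab. `E0D.pm`: over `Pm`. `e0_wtD`: for the measure `wt` of the window of the row `j`.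
-/

set_option autoImplicit false

namespace Pool.W7d29a1.C0.H7

open Finset MeasureTheory Filter Topology Pool.Agent.W_7d29a1_F Pool.Agent.W_7d29a1_X Pool.Agent.W_7d29a1_C0.Mod92
  Pool.Agent.W_7d29a1_C0.H32 Pool.W7d29a1.C0.H27
open Pool.Agent.W_7d29a1_H (sl)
open Pool.Agent.W_7d29a1_HS (In wd)
open Pool.Agent.W_7d29a1_HZ (NSp wd' gp)
open Pool.W7d29a1.C0 (gz gm gz_pos)
open Pool.W7d29a1.C0.VT31 (cE)
open Pool.Agent.W_7d29a1_C0.Loc14 (Qp Qf LocG loc14 far_le)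
open Pool.Agent.W_7d29a1_C0.LocM18 (Ns Cna Cn gm_pin gm_free sh_zero)
open scoped ENNReal

noncomputable section

variable {μ : Measure ℝ} {s : ℝ} {N : ℕ} {P : Finset (Finset ℕ)}

/-- **The statement of E0D**: `F` = the replicas which are seen in full. -/
def E0D (μ : Measure ℝ) (s : ℝ) (k N : ℕ) (P : Finset (Finset ℕ)) (F : Fin k → Prop) (δ : ℝ) (c K : ℕ) (ρ : ℝ)
    (u : Env → Px P → ℝ) (ε K' : ℝ) : Prop :=
  ∀ G : Set Env, MeasurableSet G → ∀ Ψ Ψ' : Env → (Fin k → Px P) → ℝ, (∀ η x, 0 ≤ Ψ η x) → (∀ η x, Ψ η x ≤ (N : ℝ) ^ K') →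
      (∀ η x, 0 ≤ Ψ' η x) → (∀ η x, Ψ' η x ≤ (N : ℝ) ^ K') → (∀ x, Measurable fun η => Ψ η x) →
      (∀ x, Measurable fun η => Ψ' η x) →
      (∀ η, ∀ x x' : Fin k → Px P, (∀ i, F i → x i = x' i) → (∀ i, pB (c + K) (x i) = pB (c + K) (x' i)) → Ψ η x = Ψ η x') →
      (∀ η ∈ G, ∀ x, Ψ η x ≠ 0 → ∀ i, F i → NL7 (lw μ s η N P) (u η) δ c K (x i)) →
      (∀ η ∈ G, ∀ ζ : Env, (∀ q, q ∉ slb c K → ζ q = η q) → (∀ q, |ζ q - η q| ≤ ρ) → ∀ x, Ψ η x ≤ Ψ' ζ x) →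
      ∫ η, rep k (fun S => lw μ s η N P S + u η S) (Ψ η) ∂(law μ) ≤
        (N : ℝ) ^ ε * (∫ η, rep k (lw μ s η N P) (Ψ' η) ∂(law μ) + (N : ℝ) ^ (-K')) + (N : ℝ) ^ K' * (law μ Gᶜ).toReal

/-! ### Numbers -/

theorem num_D7 (k : ℕ) {ε e1 κ g : ℝ} (hε : 0 < ε) (he0 : 0 < e1) (he : 8 * k * e1 ≤ ε / 4) (hκ : 0 < κ) (heκ : e1 ≤ κ / 2)
    (hg : 0 < g) :
    ∀ᶠ N : ℕ in atTop, Real.exp (-(N : ℝ) ^ g) ≤ 1 / 8 ∧ ∀ (M δ : ℝ) (K : ℕ), 0 ≤ M → M ≤ (N : ℝ) ^ (e1 / 2) → 0 ≤ δ → δ ≤ 1 →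
      (N : ℝ) ^ κ ≤ K → 3 * M + 1 ≤ (N : ℝ) ^ e1 ∧ 4 * M + δ + 1 ≤ K ∧ Cd7 M δ ^ k ≤ (N : ℝ) ^ (ε / 2) := by
  have v1 := Pool.Agent.W_7d29a1_HZ.Z74.ev_pow (show 0 < e1 / 2 by positivity) 4
  have v2 := Pool.Agent.W_7d29a1_HZ.Z74.ev_pow (show 0 < κ / 2 by positivity) 2
  have v3 := Pool.Agent.W_7d29a1_HZ.Z74.ev_pow (show 0 < ε / 4 by positivity) (Real.exp 17 ^ k * 2 ^ (8 * k))
  have v4 := Pool.Agent.W_7d29a1_HZ.Z74.ev_pow hg 3
  filter_upwards [v1, v2, v3, v4, eventually_ge_atTop 1] with N h1 h2 h3 h4 hN1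
  have hN : (1 : ℝ) ≤ N := by exact_mod_cast hN1
  have hN0 : (0 : ℝ) < N := by linarith
  refine ⟨?_, fun M δ K hM hMN hδ hδ1 hK => ?_⟩
  · have h5 : Real.exp (-(N : ℝ) ^ g) ≤ Real.exp (-3) := Real.exp_le_exp.2 (by linarith)
    refine h5.trans ?_
    rw [Real.exp_neg, one_div]
    refine inv_anti₀ (by norm_num) ?_
    have h6 : (2 : ℝ) ≤ Real.exp 1 := by
      have := Real.exp_one_gt_d9
      linarith
    have h7 : Real.exp 3 = Real.exp 1 ^ 3 := by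
      rw [← Real.exp_nat_mul]
      norm_num
    rw [h7]
    calc (8 : ℝ) = 2 ^ 3 := by norm_num
      _ ≤ Real.exp 1 ^ 3 := pow_le_pow_left₀ (by norm_num) h6 3
  · have hNe : 1 ≤ (N : ℝ) ^ (e1 / 2) := Real.one_le_rpow hN (by positivity)
    have e : (N : ℝ) ^ e1 = (N : ℝ) ^ (e1 / 2) * (N : ℝ) ^ (e1 / 2) := by
      rw [← Real.rpow_add hN0]
      congr 1
      ring
    have h5 : 3 * M + 1 ≤ (N : ℝ) ^ e1 := by
      rw [e]
      nlinarith
    have h6 : (N : ℝ) ^ e1 ≤ (N : ℝ) ^ (κ / 2) := Real.rpow_le_rpow_of_exponent_le hN heκ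
    have e2 : (N : ℝ) ^ κ = (N : ℝ) ^ (κ / 2) * (N : ℝ) ^ (κ / 2) := by
      rw [← Real.rpow_add hN0]
      congr 1
      ring
    have hV : 4 * M + δ + 1 ≤ 2 * (N : ℝ) ^ e1 := by linarith
    refine ⟨h5, ?_, ?_⟩
    · refine le_trans ?_ hK
      rw [e2]
      have h7 : 0 ≤ (N : ℝ) ^ (κ / 2) := Real.rpow_nonneg hN0.le _
      nlinarith
    · -- the factor
      have hV1 : 1 ≤ 4 * M + δ + 1 := by linarith
      have h7 : Real.log (4 * M + δ + 1) ≤ Real.log (2 * (N : ℝ) ^ e1) := Real.log_le_log (by linarith) hV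
      have h8 : Real.log (2 * (N : ℝ) ^ e1) = Real.log 2 + e1 * Real.log N := by
        rw [Real.log_mul (by norm_num) (Real.rpow_pos_of_pos hN0 _).ne', Real.log_rpow hN0]
      have h9 : Cd7 M δ ≤ Real.exp 17 * (2 ^ 8 * (N : ℝ) ^ (8 * e1)) := by
        unfold Cd7
        have e3 : Real.exp 17 * (2 ^ 8 * (N : ℝ) ^ (8 * e1)) = Real.exp (17 + (8 * Real.log 2 + 8 * e1 * Real.log N)) := by
          rw [Real.exp_add, Real.exp_add]
          congr 2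
          · rw [mul_comm, Real.exp_mul, Real.exp_log (by norm_num)]
            norm_num
          · rw [Real.rpow_def_of_pos hN0]
            ring_nf
        rw [e3]
        refine Real.exp_le_exp.2 ?_
        rw [h8] at h7
        have e4 : (2 + Real.log (4 * M + δ + 1)) / (1 / 8) = 16 + 8 * Real.log (4 * M + δ + 1) := by ring
        rw [e4]
        linarith
      have hC0 : 0 ≤ Cd7 M δ := by unfold Cd7; exact (Real.exp_pos _).le
      calc Cd7 M δ ^ k ≤ (Real.exp 17 * (2 ^ 8 * (N : ℝ) ^ (8 * e1))) ^ k := pow_le_pow_left₀ hC0 h9 k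
        _ = Real.exp 17 ^ k * 2 ^ (8 * k) * (N : ℝ) ^ (8 * k * e1) := by
            rw [mul_pow, mul_pow, ← pow_mul, ← Real.rpow_natCast ((N : ℝ) ^ (8 * e1)) k, ← Real.rpow_mul hN0.le]
            rw [show 8 * e1 * (k : ℝ) = 8 * k * e1 by ring]
            ring
        _ ≤ (N : ℝ) ^ (ε / 4) * (N : ℝ) ^ (ε / 4) := by
            refine mul_le_mul h3 (Real.rpow_le_rpow_of_exponent_le hN he) (Real.rpow_nonneg hN0.le _) (Real.rpow_nonneg hN0.le _)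
        _ = (N : ℝ) ^ (ε / 2) := by
            rw [← Real.rpow_add hN0]
            congr 1
            ring

open Classical in
/-- The typical paths in the frame of `LocG`. -/
theorem ty7_of {κ δ ε R : ℝ} {c K : ℕ} (hκc : (N : ℝ) ^ κ ≤ c) (hK0 : 0 < K) (hcK : c + K ≤ N)
    (hR : ∀ i : ℕ, 1 ≤ i → i ≤ K → (N : ℝ) ^ ε * wd' μ s i ≤ R / 2) (hR0 : 0 ≤ R) (S : Px P) :
    (if Ty7 c K (sl μ s) R (Cn7 μ s δ c K) S then (0 : ℝ) else 1) ≤ if Ns μ s ε 0 N S ∧ Cna μ s N κ δ S then 0 else 1 := by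
  by_cases h : Ns μ s ε 0 N S ∧ Cna μ s N κ δ S
  · have h1 := g2_7 (μ := μ) (s := s) (κ := κ) (δ := δ) (ε := ε) hκc hcK S
    have h2 := g3_7 (μ := μ) (s := s) (κ := κ) (δ := δ) (ε := ε) (R := R) hK0 hcK ((hR K hK0 le_rfl).trans (by linarith)) S
    rw [if_pos h] at h1 h2
    have hT : Ty7 c K (sl μ s) R (Cn7 μ s δ c K) S := by
      refine ⟨fun hO => ?_, fun k hk => ?_, ?_⟩
      · rw [if_pos hO] at h1
        norm_num at h1
      · rcases Nat.eq_or_lt_of_le (show c + k + 1 ≤ c + K by omega) with h3 | h3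
        · have e : (K : ℝ) - k - 1 = 0 := by
            have : K = k + 1 := by omega
            rw [this]
            push_cast
            ring
          rw [h3, e, mul_zero, sub_self, sub_zero, abs_zero]
          linarith
        · have h4 := h.1 (c + k + 1) (K - k - 1) (by omega) (Nat.zero_le _) (by omega)
          rw [Nat.sub_zero] at h4
          have e1 : c + k + 1 + (K - k - 1) = c + K := by omega
          rw [e1] at h4
          have e2 : (((K - k - 1 : ℕ) : ℕ) : ℝ) = (K : ℝ) - k - 1 := by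
            rw [Nat.cast_sub (by omega), Nat.cast_sub (by omega)]
            push_cast
            ring
          rw [e2] at h4
          refine le_trans (le_of_eq ?_) (h4.trans (hR _ (by omega) (by omega)))
          rw [Int.cast_sub]
      · by_contra h3
        rw [if_neg h3] at h2
        norm_num at h2
    rw [if_pos hT, if_pos h]
  · rw [if_neg h]
    split_ifs <;> norm_num

/-! ### The final form -/

/-- **E0D, FINAL FORM.** -/
theorem e0_finD [IsProbabilityMeasure μ] {c₀ C₀ : ℝ} {n₀ : ℕ} (h : In μ s c₀ C₀ n₀)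
    (hQI : ∀ p : ℝ, 1 < p → ∃ C θ0 : ℝ, 0 ≤ C ∧ 0 < θ0 ∧ QI μ p C θ0) {κ : ℝ} (hκ : 0 < κ) (hκ1 : κ ≤ 1) (k : ℕ) {ε K' : ℝ}
    (hε : 0 < ε) (hK' : 0 ≤ K') : ∃ δ' ε₁ : ℝ, 0 < δ' ∧ 0 < ε₁ ∧ ∃ N₀ : ℕ, ∀ N : ℕ, N₀ ≤ N →
      ∀ P : Finset (Finset ℕ), Pok μ s N δ' P → ∀ c K : ℕ, (N : ℝ) ^ κ ≤ c → (N : ℝ) ^ κ ≤ K → c + K ≤ N →
      ∀ M : ℝ, 0 ≤ M → M ≤ (N : ℝ) ^ ε₁ → ∀ U : Env → Finset ℕ → ℝ, PA c M U → ∀ (F : Fin k → Prop) (δ : ℝ), 0 ≤ δ → δ ≤ 1 →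
        E0D μ s k N P F δ c K (2 * M / K) (tA c U) ε K' := by
  classical
  obtain ⟨a, K₁, ha, ha1, hK1, hw⟩ := Pool.Agent.W_7d29a1_HZ.wd'_pow h
  obtain ⟨e2, he2⟩ : ∃ e2 : ℝ, e2 = a * κ / 4 := ⟨_, rfl⟩
  have he20 : 0 < e2 := by rw [he2]; positivity
  obtain ⟨δa, ga, hδa, hga, Na, hLa⟩ := loc14 h hκ e2 he20
  obtain ⟨e3, he3⟩ : ∃ e3 : ℝ, e3 = min e2 (κ * δa) := ⟨_, rfl⟩
  have he30 : 0 < e3 := by rw [he3]; exact lt_min he20 (by positivity)
  have he32 : e3 ≤ e2 := by rw [he3]; exact min_le_left _ _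
  have he33 : e3 ≤ κ * δa := by rw [he3]; exact min_le_right _ _
  obtain ⟨δb, gb, hδb, hgb, Nb, hLb⟩ := loc14 h hκ e3 he30
  obtain ⟨g, hg⟩ : ∃ g : ℝ, g = min ga gb := ⟨_, rfl⟩
  have hg0 : 0 < g := by rw [hg]; exact lt_min hga hgb
  have hg1 : g ≤ ga := by rw [hg]; exact min_le_left _ _
  have hg2 : g ≤ gb := by rw [hg]; exact min_le_right _ _
  obtain ⟨e1, he1⟩ : ∃ e1 : ℝ, e1 = min (ε / (32 * (k + 1))) (min (a * κ / 8) (min (g / 2) (κ / 2))) := ⟨_, rfl⟩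
  have he10 : 0 < e1 := by
    rw [he1]
    exact lt_min (by positivity) (lt_min (by positivity) (lt_min (by positivity) (by positivity)))
  have he1a : e1 ≤ a * κ / 8 := by rw [he1]; exact (min_le_right _ _).trans (min_le_left _ _)
  have he1g : e1 ≤ g / 2 := by rw [he1]; exact (min_le_right _ _).trans ((min_le_right _ _).trans (min_le_left _ _))
  have he1κ : e1 ≤ κ / 2 := by rw [he1]; exact (min_le_right _ _).trans ((min_le_right _ _).trans (min_le_right _ _))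
  have he1ε : 8 * k * e1 ≤ ε / 4 := by
    have h1 : e1 ≤ ε / (32 * (k + 1)) := by rw [he1]; exact min_le_left _ _
    have h2 : 0 ≤ (8 * k : ℝ) := by positivity
    refine (mul_le_mul_of_nonneg_left h1 h2).trans ?_
    rw [← mul_div_assoc, div_le_div_iff₀ (by positivity) (by norm_num)]
    nlinarith
  have hp1 : 1 < p7 k (ε / 2) K' := p7_gt (half_pos hε) hK'
  obtain ⟨C, θ0, hC, hθ, hQ⟩ := hQI (p7 k (ε / 2) K') hp1
  have hw1 : 1 ≤ wd' μ s 1 := le_max_left _ _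
  have hK1w : 1 ≤ K₁ * wd' μ s 1 := by nlinarith
  have n1 := num7 k (K' := K') (K₁ := 2 * (K₁ * wd' μ s 1)) (C := C) (e1 := e1) (e2 := e2) hκ ha (by linarith) hg0 hC hθ
    he1a he1g he1κ he20.le (le_of_eq he2)
  have n2 := fin7 k (half_pos hε) hK'
  have n3 := Pool.Agent.W_7d29a1_HZ.Z74.ev_exp (A := 8) (a := 1) (b := g) (c := g / 2) (by norm_num) one_pos hg0 (by linarith)
    (2 * K')
  have n4 := num_D7 k hε he10 he1ε hκ he1κ hg0
  obtain ⟨N₁, hN₁⟩ := eventually_atTop.1 (n1.and (n2.and (n3.and n4)))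
  refine ⟨δb, e1 / 2, hδb, by positivity, max (max Na Nb) (max N₁ 1), fun N hN P hP c K hc hK hcK M hM0 hM U hU F δ hδ hδ1 G hG
    Ψ Ψ' h0 hΛ h0' hΛ' hmΨ hm hΨ hNL hpas => ?_⟩
  have k1 : Na ≤ N := (le_max_left _ _).trans ((le_max_left _ _).trans hN)
  have k2 : Nb ≤ N := (le_max_right _ _).trans ((le_max_left _ _).trans hN)
  have k3 : N₁ ≤ N := (le_max_left _ _).trans ((le_max_right _ _).trans hN)
  have k4 : 1 ≤ N := (le_max_right _ _).trans ((le_max_right _ _).trans hN)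
  obtain ⟨⟨m1, m2⟩, m3, m4, m5, m6⟩ := hN₁ N k3
  obtain ⟨h3M, hVK, hCk⟩ := m6 M δ K hM0 hM hδ hδ1 hK
  have hNR : (1 : ℝ) ≤ N := by exact_mod_cast k4
  have hN0 : (0 : ℝ) < N := by linarith
  have hKp : (0 : ℝ) < K := (Real.rpow_pos_of_pos hN0 κ).trans_le hK
  have hK0 : 0 < K := by exact_mod_cast hKp
  have := hP.ne
  -- the width
  obtain ⟨w1, _, w3⟩ := hw 1 K le_rfl hK0
  have hW1 : 1 ≤ wd' μ s K := le_max_left _ _
  have hKa : 0 ≤ (K : ℝ) ^ (1 - a) := Real.rpow_nonneg hKp.le _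
  have hW : wd' μ s K ≤ 2 * (K₁ * wd' μ s 1) * (K : ℝ) ^ (1 - a) := by
    refine w3.trans ?_
    rw [Nat.cast_one, div_one]
    have : 0 ≤ K₁ * wd' μ s 1 * (K : ℝ) ^ (1 - a) := by positivity
    linarith
  obtain ⟨q1, q2, q3⟩ := m2 c K (3 * M + 1) (wd' μ s K) hK hcK (by linarith) h3M hW1 hW
  set R : ℝ := 2 * (K₁ * wd' μ s 1) * (N : ℝ) ^ e2 * wd' μ s K with hR
  have hNe : 0 < (N : ℝ) ^ e2 := Real.rpow_pos_of_pos hN0 _
  have hR0 : 0 ≤ R := by rw [hR]; positivity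
  have hRi : ∀ i : ℕ, 1 ≤ i → i ≤ K → (N : ℝ) ^ e2 * wd' μ s i ≤ R / 2 := fun i hi hiK => by
    have h1 := (hw i K hi hiK).1
    have h2 : K₁ * wd' μ s K ≤ K₁ * wd' μ s 1 * wd' μ s K := by
      have : 0 ≤ K₁ * wd' μ s K := by positivity
      nlinarith
    calc (N : ℝ) ^ e2 * wd' μ s i ≤ (N : ℝ) ^ e2 * (K₁ * wd' μ s 1 * wd' μ s K) :=
          mul_le_mul_of_nonneg_left (h1.trans h2) hNe.le
      _ = R / 2 := by rw [hR]; ring
  -- the good event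
  obtain ⟨Ω, hΩm, hΩ, hΩc⟩ := good7 (μ := μ) fun η => LocG μ s N κ δa e2 ga η ∧ LocG μ s N κ δb e3 gb η
  set ε0 := Real.exp (-(N : ℝ) ^ g) with hε0
  have hε00 : 0 < ε0 := Real.exp_pos _
  have mono_g : ∀ x : ℝ, g ≤ x → Real.exp (-(N : ℝ) ^ x) ≤ ε0 := fun x hx =>
    Real.exp_le_exp.2 (neg_le_neg (Real.rpow_le_rpow_of_exponent_le hNR hx))
  have hlocal : ∀ η ∈ Ω, gm (lw μ s η N P) (fun S => if Ns μ s e2 0 N S ∧ Cna μ s N κ δa S then 0 else 1) ≤ ε0 := fun η hη =>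
    (Pok.loc (hΩ η hη).2 hδa.le k4 hκ1 he33 he32 hP).trans (mono_g _ hg2)
  have hq1 : 2 * M / K ≤ θ0 := by
    refine le_trans ?_ q1
    refine div_le_div_of_nonneg_right ?_ hKp.le
    linarith
  have hCd := one_le_Cd7 hM0 hδ
  set Ck : ℝ := Cd7 M δ ^ k with hCkd
  have hCk1 : 1 ≤ Ck := one_le_pow₀ hCd
  have hCk0 : 0 < Ck := by linarith
  have hCi : 0 ≤ Ck⁻¹ := (inv_pos.2 hCk0).le
  have hCi1 : Ck⁻¹ ≤ 1 := inv_le_one_of_one_le₀ hCk1
  have key := e0_modD (μ := μ) (s := s) (σ := sl μ s) (R := R) (Cn := Cn7 μ s δa c K) (δ0 := ε0) (ε := ε0) (Ω := Ω ∩ G)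
    (fun m hmN => hP.fam hmN) hK0 hcK hM0 hU hR0 hp1.le hC hQ hq1 (filter_subset _ _) hε00.le m5 hε00.le m1 hδ hVK
    (hΩm.inter hG)
    (fun η hη j hj z hz => (g1_7 (hΩ η hη.1).1 hc hcK he20.le hRi j hj z hz).trans
      (mul_le_mul_of_nonneg_right (mono_g _ hg1) (Mt_nonneg _ _ (fun _ => zero_le_one) _)))
    (fun η hη => (Pool.W7d29a1.C0.gm_mono _ fun S => ty7_of hc hK0 hcK hRi hR0 S).trans (hlocal η hη.1))
    F h0 hΛ h0' hΛ' hm hΨ (fun η hη => hNL η hη.2) (fun η hη => hpas η hη.2)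
  -- the exponent
  have hG' : ∀ η, 0 ≤ rep k (lw μ s η N P) (Ψ' η) := fun η => rep_nonneg7 _ (h0' η)
  have hZ := lint_pow7 (law μ) hG' (fun η => rep_le_const7 _ (hΛ' η)) hp1.le (τ := (N : ℝ) ^ (-(K' + 1)))
    (Real.rpow_pos_of_pos hN0 _)
  have hNK := Real.rpow_nonneg hN0.le K'
  have hE : (N + 1 : ℝ) ^ k * (5 * k * Real.exp (4 * M) * ε0 * (N : ℝ) ^ K') +
      Ck⁻¹ * (N : ℝ) ^ K' * k * (Real.exp (2 * M) * ε0) ≤ (N : ℝ) ^ (-K') / 4 := by
    refine le_trans (add_le_add ?_ ?_) q3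
    · have h1 : 5 * Real.exp (4 * M) ≤ 4 * Real.exp (4 * (3 * M + 1)) := by
        have h2 : Real.exp (4 * (3 * M + 1)) = Real.exp (4 * M) * Real.exp (8 * M + 4) := by
          rw [← Real.exp_add]
          ring_nf
        have h3 : 5 ≤ Real.exp (8 * M + 4) := by
          have := Real.add_one_le_exp (8 * M + 4)
          linarith
        rw [h2]
        nlinarith [Real.exp_pos (4 * M)]
      calc (N + 1 : ℝ) ^ k * (5 * k * Real.exp (4 * M) * ε0 * (N : ℝ) ^ K')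
          = (N + 1 : ℝ) ^ k * (k * (5 * Real.exp (4 * M)) * ε0 * (N : ℝ) ^ K') := by ring
        _ ≤ (N + 1 : ℝ) ^ k * (k * (4 * Real.exp (4 * (3 * M + 1))) * ε0 * (N : ℝ) ^ K') := by gcongr
        _ = _ := by ring
    · have h1 : Real.exp (2 * M) ≤ Real.exp (2 * (3 * M + 1)) := Real.exp_le_exp.2 (by linarith)
      calc Ck⁻¹ * (N : ℝ) ^ K' * k * (Real.exp (2 * M) * ε0) ≤ 1 * (N : ℝ) ^ K' * k * (Real.exp (2 * (3 * M + 1)) * ε0) := by
            gcongr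
        _ = _ := by ring
  have hB : C * (k * K * (4 * R + 1) * (2 * M / K) ^ 2 + (slb c K).card * (Real.exp (4 * M) * ε0) ^ 2) ≤ 1 := by
    refine le_trans (mul_le_mul_of_nonneg_left (add_le_add ?_ ?_) hC) q2
    · have h1 : (2 * M / K) ^ 2 ≤ (2 * (3 * M + 1) / K) ^ 2 := by
        refine pow_le_pow_left₀ (by positivity) ?_ 2
        refine div_le_div_of_nonneg_right ?_ hKp.le
        linarith
      exact mul_le_mul_of_nonneg_left h1 (by positivity)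
    · have h1 : (Real.exp (4 * M) * ε0) ^ 2 ≤ (Real.exp (4 * (3 * M + 1)) * ε0) ^ 2 := by
        refine pow_le_pow_left₀ (by positivity) ?_ 2
        refine mul_le_mul_of_nonneg_right (Real.exp_le_exp.2 ?_) hε00.le
        linarith
      exact mul_le_mul_of_nonneg_left h1 (Nat.cast_nonneg _)
  have hCiN : Ck⁻¹ * (N : ℝ) ^ K' ≤ (N : ℝ) ^ K' := by nlinarith
  have hL : ENNReal.ofReal (Ck⁻¹ * (N : ℝ) ^ K') * law μ Ωᶜ ≤ ENNReal.ofReal ((N : ℝ) ^ (-K') / 4) := by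
    have h1 : law μ Ωᶜ ≤ ENNReal.ofReal (2 * ε0) := by
      rw [hΩc]
      have hsub : {η | ¬(LocG μ s N κ δa e2 ga η ∧ LocG μ s N κ δb e3 gb η)} ⊆
          {η | ¬ LocG μ s N κ δa e2 ga η} ∪ {η | ¬ LocG μ s N κ δb e3 gb η} := by
        intro η hη
        by_contra hcon
        rw [Set.mem_union, not_or] at hcon
        exact hη ⟨not_not.1 hcon.1, not_not.1 hcon.2⟩
      refine (measure_mono hsub).trans ((measure_union_le _ _).trans ((add_le_add (hLa N k1) (hLb N k2)).trans ?_))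
      rw [← ENNReal.ofReal_add (Real.exp_pos _).le (Real.exp_pos _).le]
      refine ENNReal.ofReal_le_ofReal ?_
      have h3 := mono_g ga hg1
      have h4 := mono_g gb hg2
      linarith
    refine (mul_le_mul' (ENNReal.ofReal_le_ofReal hCiN) h1).trans ?_
    rw [← ENNReal.ofReal_mul (Real.rpow_nonneg hN0.le _)]
    refine ENNReal.ofReal_le_ofReal ?_
    have hpos := Real.rpow_pos_of_pos hN0 K'
    have e : (N : ℝ) ^ (2 * K') = (N : ℝ) ^ K' * (N : ℝ) ^ K' := by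
      rw [← Real.rpow_add hN0]
      congr 1
      ring
    have h5 : 8 * ((N : ℝ) ^ K' * (N : ℝ) ^ K') * ε0 ≤ 1 := by
      rw [← e]
      rw [one_mul] at m4
      refine m4.trans ?_
      have : Real.exp (-(N : ℝ) ^ (g / 2)) ≤ 1 := by
        rw [Real.exp_le_one_iff]
        linarith [Real.rpow_pos_of_pos hN0 (g / 2)]
      linarith
    rw [Real.rpow_neg hN0.le, le_div_iff₀ (by norm_num), ← one_div, le_div_iff₀ hpos]
    linarith
  have hcompl : ENNReal.ofReal (Ck⁻¹ * (N : ℝ) ^ K') * law μ (Ω ∩ G)ᶜ ≤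
      ENNReal.ofReal (Ck⁻¹ * (N : ℝ) ^ K') * law μ Ωᶜ + ENNReal.ofReal (Ck⁻¹ * (N : ℝ) ^ K') * law μ Gᶜ := by
    rw [← mul_add, Set.compl_inter]
    exact mul_le_mul_right (measure_union_le _ _) _
  have fin := m3 _ _ _ _ _ _ _ (key.trans (add_le_add le_rfl hcompl)) hZ hB hE hL
  -- the factor
  have e5 : ∀ η, ENNReal.ofReal (rep k (fun S => lw μ s η N P S + tA c U η S) (Ψ η)) =
      ENNReal.ofReal Ck * ENNReal.ofReal (rep k (fun S => lw μ s η N P S + tA c U η S) fun x => Ck⁻¹ * Ψ η x) := fun η => by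
    rw [rep_smul, ← ENNReal.ofReal_mul hCk0.le, ← mul_assoc, mul_inv_cancel₀ hCk0.ne', one_mul]
  have fin2 : ∫⁻ η, ENNReal.ofReal (rep k (fun S => lw μ s η N P S + tA c U η S) (Ψ η)) ∂(law μ) ≤
      ENNReal.ofReal ((N : ℝ) ^ ε) *
          (∫⁻ η, ENNReal.ofReal (rep k (lw μ s η N P) (Ψ' η)) ∂(law μ) + ENNReal.ofReal ((N : ℝ) ^ (-K'))) +
        ENNReal.ofReal ((N : ℝ) ^ K') * law μ Gᶜ := by
    rw [lintegral_congr e5, lintegral_const_mul' _ _ ENNReal.ofReal_ne_top]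
    refine (mul_le_mul_right fin _).trans ?_
    rw [mul_add, ← mul_assoc, ← mul_assoc]
    refine add_le_add (mul_le_mul_left ?_ _) (mul_le_mul_left ?_ _)
    · rw [← ENNReal.ofReal_mul hCk0.le]
      refine ENNReal.ofReal_le_ofReal ?_
      have e6 : (N : ℝ) ^ ε = (N : ℝ) ^ (ε / 2) * (N : ℝ) ^ (ε / 2) := by
        rw [← Real.rpow_add hN0]
        congr 1
        ring
      rw [e6]
      exact mul_le_mul_of_nonneg_right hCk (Real.rpow_nonneg hN0.le _)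
    · rw [← ENNReal.ofReal_mul hCk0.le, ← mul_assoc, mul_inv_cancel₀ hCk0.ne', one_mul]
  refine real7 (fun η => rep_nonneg7 _ (h0 η)) (fun η => rep_nonneg7 _ (h0' η)) ?_ ?_ (fun η => rep_le_const7 _ (hΛ' η))
    (Real.rpow_nonneg (Nat.cast_nonneg _) _) (Real.rpow_nonneg (Nat.cast_nonneg _) _) (Real.rpow_nonneg (Nat.cast_nonneg _) _) fin2
  · exact meas_rep (fun S => (meas_lw S).add (hU.ms _)) hmΨ
  · exact meas_rep (fun S => meas_lw S) hm

end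

end Pool.W7d29a1.C0.H7
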