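import Pool.Agent.W_7d29a1_C0.Loc7V
import Pool.Agent.W_7d29a1_C0.Far19B
import Pool.Agent.W_7d29a1_C0.FarC34
import Pool.Agent.W_7d29a1_C0.FldE23

/-!
CURV0 (MP_7d29a1_pr), leaf T3: THE THIRD TERM OF THE TWO SIDED COMPARISON, part 1 (helper7).

A path at which the level is missed at both corners (`LB7`) has an alternative above and one below. `t3_abs`: three weights which differ
by at most `B`; conditional means given the future `q`: either the paths of `LB` have a small mass or the triples of paths with the same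
future and three different values have the mass at least `exp (- 4 m)`. `t3_mod`: in the frame of Mod92. `T3m_le`: for EVERY path of the
fibre the mass of the triples is at most three times the mass of the PAIRS of alternatives which are different from the path and from
each other.
-/

set_option autoImplicit false

namespace Pool.W7d29a1.C0.H7

open Finset MeasureTheory Filter Topology Pool.Agent.W_7d29a1_F Pool.Agent.W_7d29a1_X Pool.Agent.W_7d29a1_C0.Mod92
  Pool.Agent.W_7d29a1_C0.H32 Pool.W7d29a1.C0.H27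
open Pool.W7d29a1.C0 (gz gm gz_pos)
open Pool.W7d29a1.C0.VT31
open Pool.Agent.W_7d29a1_C0.Far34 (cE_le_fib)
open scoped ENNReal

noncomputable section

/-! ### Abstract part -/

section Abs

variable {X : Type*} [Fintype X] [Nonempty X] {Y Y' V ι : Type*} [DecidableEq Y] [DecidableEq Y'] [DecidableEq V]

theorem cE_smul7 (w : X → ℝ) (p : X → Y) (a : ℝ) (f : X → ℝ) (x : X) : cE w p (fun y => a * f y) x = a * cE w p f x :=
  congrFun (cE_smul w p a f) x

/-- A change of the log weights by at most `D`. -/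
theorem cE_tl7 {w w' : X → ℝ} {D : ℝ} (h : ∀ x, |w' x - w x| ≤ D) (p : X → Y) {f : X → ℝ} (hf : ∀ x, 0 ≤ f x) (x : X) :
    Real.exp (-(2 * D)) * cE w' p f x ≤ cE w p f x := by
  have h1 := Pool.W7d29a1.C0.T73.cE_tilt73 h p hf x
  rw [Real.exp_neg, inv_mul_le_iff₀ (Real.exp_pos _)]
  exact h1

/-- A mass which is seen from a site of a path has a mass given the future. -/
theorem mass_site7 {w : X → ℝ} {p : X → Y} {q : X → Y'} (hc : Crs q p) {σ : X → V} {f : X → ℝ} (hf : ∀ x, 0 ≤ f x)
    (hs : ∀ x x', σ x = σ x' → cE w p f x = cE w p f x') {x : X} {κ : ℝ} (h1 : κ ≤ cE w p f x) (S : X) :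
    κ * cE w q (fun y => if σ y = σ x then 1 else 0) S ≤ cE w q f S := by
  rw [← cE_tower w hc f, ← cE_smul7]
  refine cE_mono w q (fun y => ?_) S
  split_ifs with h
  · rw [mul_one, hs y x h]
    exact h1
  · rw [mul_zero]
    exact cE_nonneg w p hf y

open Classical in
/-- The paths through a light site. -/
theorem light7 (w : X → ℝ) (q : X → Y') (R : Finset ι) (σ : ι → X → V) (Vs : Finset V) (hV : ∀ r ∈ R, ∀ x, σ r x ∈ Vs) {θ : ℝ}
    (hθ : 0 ≤ θ) (S : X) :
    cE w q (fun x => if ∃ r ∈ R, cE w q (fun y => if σ r y = σ r x then 1 else 0) S < θ then 1 else 0) S ≤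
      (R.card * Vs.card : ℕ) * θ := by
  have h1 : ∀ x, (if ∃ r ∈ R, cE w q (fun y => if σ r y = σ r x then 1 else 0) S < θ then (1 : ℝ) else 0) ≤
      ∑ r ∈ R, ∑ v ∈ Vs, (if cE w q (fun y => if σ r y = v then 1 else 0) S < θ then 1 else 0) *
        (if σ r x = v then 1 else 0) := fun x => by
    have h0 : ∀ (r : ι) (v : V), 0 ≤ (if cE w q (fun y => if σ r y = v then 1 else 0) S < θ then (1 : ℝ) else 0) *
        (if σ r x = v then 1 else 0) := fun r v => by
      refine mul_nonneg ?_ ?_ <;> split_ifs <;> norm_num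
    split_ifs with h
    · obtain ⟨r, hr, h2⟩ := h
      refine le_trans ?_ (single_le_sum (fun r _ => sum_nonneg fun v _ => h0 r v) hr)
      refine le_trans ?_ (single_le_sum (fun v _ => h0 r v) (hV r hr x))
      rw [if_pos h2, if_pos rfl, one_mul]
    · exact sum_nonneg fun r _ => sum_nonneg fun v _ => h0 r v
  refine (cE_mono w q h1 S).trans ?_
  have e1 : (fun x => ∑ r ∈ R, ∑ v ∈ Vs, (if cE w q (fun y => if σ r y = v then 1 else 0) S < θ then (1 : ℝ) else 0) *
        (if σ r x = v then 1 else 0)) =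
      ∑ r ∈ R, ∑ v ∈ Vs, (if cE w q (fun y => if σ r y = v then 1 else 0) S < θ then (1 : ℝ) else 0) •
        (fun x => if σ r x = v then (1 : ℝ) else 0) := by
    funext x
    rw [Finset.sum_apply]
    refine sum_congr rfl fun r _ => ?_
    rw [Finset.sum_apply]
    exact sum_congr rfl fun v _ => by rw [Pi.smul_apply, smul_eq_mul]
  rw [e1, cE_sum, Finset.sum_apply]
  have h2 : ∀ r ∈ R, cE w q (∑ v ∈ Vs, (if cE w q (fun y => if σ r y = v then 1 else 0) S < θ then (1 : ℝ) else 0) •
        (fun x => if σ r x = v then (1 : ℝ) else 0)) S ≤ Vs.card * θ := fun r _ => by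
    rw [cE_sum, Finset.sum_apply, ← nsmul_eq_mul, ← sum_const]
    refine sum_le_sum fun v _ => ?_
    rw [cE_smul, Pi.smul_apply, smul_eq_mul]
    split_ifs with h
    · rw [one_mul]
      exact h.le
    · rw [zero_mul]
      exact hθ
  refine (sum_le_sum h2).trans (le_of_eq ?_)
  rw [sum_const, nsmul_eq_mul]
  push_cast
  ring

open Classical in
/-- **The dichotomy.** -/
theorem t3_abs {w w1 w2 : X → ℝ} {B m : ℝ} (h1 : ∀ x, |w1 x - w x| ≤ B) (h12 : ∀ x, |w1 x - w2 x| ≤ B)
    (h2 : ∀ x, |w2 x - w x| ≤ B) {q : X → Y'} {R : Finset ι} {p : ι → X → Y} (hc : ∀ r ∈ R, Crs q (p r)) {σ : ι → X → V}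
    {Vs : Finset V} (hV : ∀ r ∈ R, ∀ x, σ r x ∈ Vs) {up dn : X → X → ℝ} (hu0 : ∀ x a, 0 ≤ up x a) (hd0 : ∀ x a, 0 ≤ dn x a)
    (hu : ∀ r ∈ R, ∀ x y y', σ r y = σ r y' → cE w (p r) (up x) y = cE w (p r) (up x) y')
    (hd : ∀ r ∈ R, ∀ x y y', σ r y = σ r y' → cE w2 (p r) (dn x) y = cE w2 (p r) (dn x) y') {T : X → X → X → ℝ}
    (hT : ∀ x a b, up x a * dn x b ≤ T x a b) {n : ℝ} (hn0 : 0 < n) (hn : ((R.card * Vs.card : ℕ) : ℝ) ≤ n)
    (hm : 32 * n ^ 2 * Real.exp (8 * B) ≤ Real.exp m) (S : X) :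
    cE w1 q (fun x => if (∃ r ∈ R, 1 / 2 ≤ cE w (p r) (up x) x) ∧ ∃ r ∈ R, 1 / 2 ≤ cE w2 (p r) (dn x) x then 1 else 0) S ≤
      Real.exp (-m) +
        if Real.exp (-(4 * m)) ≤ cE w q (fun x => cE w q (fun a => cE w q (fun b => T x a b) S) S) S then 1 else 0 := by
  set LB : X → Prop := fun x => (∃ r ∈ R, 1 / 2 ≤ cE w (p r) (up x) x) ∧ ∃ r ∈ R, 1 / 2 ≤ cE w2 (p r) (dn x) x with hLB
  set θ : ℝ := Real.exp (-m) / (2 * n) with hθ
  have hθ0 : 0 < θ := div_pos (Real.exp_pos _) (by linarith)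
  set Lt : X → Prop := fun x => ∃ r ∈ R, cE w1 q (fun y => if σ r y = σ r x then 1 else 0) S < θ with hLt
  by_cases hbig : cE w1 q (fun x => if LB x then 1 else 0) S ≤ Real.exp (-m)
  · refine hbig.trans ?_
    have : (0 : ℝ) ≤ if Real.exp (-(4 * m)) ≤ cE w q (fun x => cE w q (fun a => cE w q (fun b => T x a b) S) S) S then 1 else 0 := by
      split_ifs <;> norm_num
    linarith
  rw [not_le] at hbig
  have hle1 : cE w1 q (fun x => if LB x then 1 else 0) S ≤ 1 := by
    have h3 := cE_mono w1 q (f := fun x => if LB x then (1 : ℝ) else 0) (g := fun _ => 1)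
      (fun x => by split_ifs <;> norm_num) S
    rwa [cE_one] at h3
  -- the heavy paths
  have h3 : Real.exp (-m) / 2 ≤ cE w1 q (fun x => if LB x ∧ ¬ Lt x then 1 else 0) S := by
    have h4 := light7 w1 q R σ Vs hV hθ0.le S
    have h5 : cE w1 q (fun x => if LB x then 1 else 0) S ≤ cE w1 q (fun x => if LB x ∧ ¬ Lt x then 1 else 0) S +
        cE w1 q (fun x => if Lt x then 1 else 0) S := by
      have e := congrFun (cE_add w1 q (fun x => if LB x ∧ ¬ Lt x then (1 : ℝ) else 0) (fun x => if Lt x then 1 else 0)) S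
      rw [Pi.add_apply] at e
      rw [← e]
      refine cE_mono w1 q (fun x => ?_) S
      rw [Pi.add_apply]
      by_cases h6 : LB x <;> by_cases h7 : Lt x <;> simp [h6, h7]
    have h6 : ((R.card * Vs.card : ℕ) : ℝ) * θ ≤ Real.exp (-m) / 2 := by
      rw [hθ, mul_div_assoc', div_le_div_iff₀ (by linarith) (by norm_num)]
      nlinarith [Real.exp_pos (-m)]
    have h7 : cE w1 q (fun x => if Lt x then 1 else 0) S ≤ ((R.card * Vs.card : ℕ) : ℝ) * θ := h4
    linarith
  have hB2 : 0 < Real.exp (-(2 * B)) := Real.exp_pos _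
  have h4 : Real.exp (-(2 * B)) * (Real.exp (-m) / 2) ≤ cE w q (fun x => if LB x ∧ ¬ Lt x then 1 else 0) S :=
    (mul_le_mul_of_nonneg_left h3 hB2.le).trans (cE_tl7 h1 q (fun x => by split_ifs <;> norm_num) S)
  -- the masses of the two alternatives
  set κu : ℝ := 1 / 2 * (Real.exp (-(2 * B)) * θ) with hκu
  set κd : ℝ := Real.exp (-(2 * B)) * (1 / 2 * (Real.exp (-(2 * B)) * θ)) with hκd
  have hκu0 : 0 < κu := by positivity
  have hκd0 : 0 < κd := by positivity
  have h5 : ∀ x, LB x ∧ ¬ Lt x → κu * κd ≤ cE w q (fun a => cE w q (fun b => T x a b) S) S := by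
    rintro x ⟨⟨⟨r, hr, h6⟩, r', hr', h7⟩, h8⟩
    rw [hLt] at h8
    push Not at h8
    have h9 : κu ≤ cE w q (up x) S := by
      refine le_trans ?_ (mass_site7 (hc r hr) (hu0 x) (hu r hr x) h6 S)
      rw [hκu]
      refine mul_le_mul_of_nonneg_left ?_ (by norm_num)
      exact (mul_le_mul_of_nonneg_left (h8 r hr) hB2.le).trans (cE_tl7 h1 q (fun x => by split_ifs <;> norm_num) S)
    have h10 : κd ≤ cE w q (dn x) S := by
      refine le_trans ?_ (cE_tl7 h2 q (hd0 x) S)
      rw [hκd]
      refine mul_le_mul_of_nonneg_left ?_ hB2.le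
      refine le_trans ?_ (mass_site7 (hc r' hr') (hd0 x) (hd r' hr' x) h7 S)
      refine mul_le_mul_of_nonneg_left ?_ (by norm_num)
      exact (mul_le_mul_of_nonneg_left (h8 r' hr') hB2.le).trans (cE_tl7 h12 q (fun x => by split_ifs <;> norm_num) S)
    have h11 : cE w q (fun a => cE w q (dn x) S * up x a) S ≤ cE w q (fun a => cE w q (fun b => T x a b) S) S := by
      refine cE_mono w q (fun a => ?_) S
      have e := cE_smul7 w q (up x a) (dn x) S
      rw [mul_comm, ← e]
      exact cE_mono w q (fun b => hT x a b) S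
    rw [cE_smul7] at h11
    refine le_trans ?_ h11
    rw [mul_comm]
    exact mul_le_mul h10 h9 hκu0.le (hκd0.le.trans h10)
  have h6 : Real.exp (-(4 * m)) ≤ cE w q (fun x => cE w q (fun a => cE w q (fun b => T x a b) S) S) S := by
    have h7 : cE w q (fun x => κu * κd * (if LB x ∧ ¬ Lt x then 1 else 0)) S ≤
        cE w q (fun x => cE w q (fun a => cE w q (fun b => T x a b) S) S) S := by
      refine cE_mono w q (fun x => ?_) S
      split_ifs with h
      · rw [mul_one]
        exact h5 x h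
      · rw [mul_zero]
        exact cE_nonneg w q (fun a => cE_nonneg w q (fun b => (mul_nonneg (hu0 x a) (hd0 x b)).trans (hT x a b)) S) S
    rw [cE_smul7] at h7
    refine le_trans ?_ h7
    refine le_trans ?_ (mul_le_mul_of_nonneg_left h4 (mul_pos hκu0 hκd0).le)
    -- numbers
    have e1 : κu * κd * (Real.exp (-(2 * B)) * (Real.exp (-m) / 2)) =
        Real.exp (-(2 * B)) ^ 4 * Real.exp (-m) ^ 3 / (32 * n ^ 2) := by
      rw [hκu, hκd, hθ]
      field_simp
      ring
    rw [e1, le_div_iff₀ (by positivity)]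
    have e2 : Real.exp (-(2 * B)) ^ 4 = Real.exp (-(8 * B)) := by
      rw [← Real.exp_nat_mul]
      congr 1
      push_cast
      ring
    have e3 : Real.exp (-m) ^ 3 = Real.exp (-(3 * m)) := by
      rw [← Real.exp_nat_mul]
      congr 1
      push_cast
      ring
    rw [e2, e3]
    have e4 : Real.exp (-(4 * m)) * (32 * n ^ 2) = Real.exp (-(4 * m)) * (32 * n ^ 2 * Real.exp (8 * B)) * Real.exp (-(8 * B)) := by
      have : Real.exp (8 * B) * Real.exp (-(8 * B)) = 1 := by
        rw [← Real.exp_add, add_neg_cancel, Real.exp_zero]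
      calc Real.exp (-(4 * m)) * (32 * n ^ 2) = Real.exp (-(4 * m)) * (32 * n ^ 2) * 1 := by ring
        _ = Real.exp (-(4 * m)) * (32 * n ^ 2) * (Real.exp (8 * B) * Real.exp (-(8 * B))) := by rw [this]
        _ = _ := by ring
    rw [e4]
    have e5 : Real.exp (-(3 * m)) = Real.exp (-(4 * m)) * Real.exp m := by
      rw [← Real.exp_add]
      congr 1
      ring
    rw [e5]
    calc Real.exp (-(4 * m)) * (32 * n ^ 2 * Real.exp (8 * B)) * Real.exp (-(8 * B)) ≤
          Real.exp (-(4 * m)) * Real.exp m * Real.exp (-(8 * B)) :=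
        mul_le_mul_of_nonneg_right (mul_le_mul_of_nonneg_left hm (Real.exp_pos _).le) (Real.exp_pos _).le
      _ = _ := by ring
  rw [if_pos h6]
  have := Real.exp_pos (-m)
  linarith

/-! ### Three values -/

/-- The three numbers are at distance at least `d`. -/
def I3 (d a b c : ℝ) : ℝ := if d ≤ |a - b| ∧ d ≤ |a - c| ∧ d ≤ |b - c| then 1 else 0

theorem I3_nonneg (d a b c : ℝ) : 0 ≤ I3 d a b c := by
  unfold I3
  split_ifs <;> norm_num

theorem I3_le (d a b c : ℝ) : I3 d a b c ≤ 1 := by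
  unfold I3
  split_ifs <;> norm_num

/-- **Of three different values two are different from a given number.** -/
theorem I3_pigeon {d : ℝ} (hd : 0 ≤ d) (g a b c : ℝ) :
    I3 d a b c ≤ I3 (d / 2) g b c + I3 (d / 2) g a c + I3 (d / 2) g a b := by
  have h1 := I3_nonneg (d / 2) g b c
  have h2 := I3_nonneg (d / 2) g a c
  have h3 := I3_nonneg (d / 2) g a b
  by_cases h : d ≤ |a - b| ∧ d ≤ |a - c| ∧ d ≤ |b - c|
  · obtain ⟨k1, k2, k3⟩ := h
    have e : I3 d a b c = 1 := if_pos ⟨k1, k2, k3⟩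
    rw [e]
    by_cases ha : d / 2 ≤ |g - a|
    · by_cases hb : d / 2 ≤ |g - b|
      · have e3 : I3 (d / 2) g a b = 1 := if_pos ⟨ha, hb, by linarith⟩
        rw [e3]
        linarith
      · have hc : d / 2 ≤ |g - c| := by
          by_contra hc
          have h4 := abs_sub_abs_le_abs_sub (b - g) (c - g)
          have h5 : |b - c| ≤ |g - b| + |g - c| := by
            have := abs_sub_le b g c
            rw [abs_sub_comm b g] at this
            exact this
          linarith [not_le.1 hb, not_le.1 hc]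
        have e2 : I3 (d / 2) g a c = 1 := if_pos ⟨ha, hc, by linarith⟩
        rw [e2]
        linarith
    · have hb : d / 2 ≤ |g - b| := by
        by_contra hb
        have h5 : |a - b| ≤ |g - a| + |g - b| := by
          have := abs_sub_le a g b
          rw [abs_sub_comm a g] at this
          exact this
        linarith [not_le.1 hb, not_le.1 ha]
      have hc : d / 2 ≤ |g - c| := by
        by_contra hc
        have h5 : |a - c| ≤ |g - a| + |g - c| := by
          have := abs_sub_le a g c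
          rw [abs_sub_comm a g] at this
          exact this
        linarith [not_le.1 hc, not_le.1 ha]
      have e1 : I3 (d / 2) g b c = 1 := if_pos ⟨hb, hc, by linarith⟩
      rw [e1]
      linarith
  · have e : I3 d a b c = 0 := if_neg h
    rw [e]
    linarith

/-- **The mass of the triples with three different values of `g`**, given `q` (a function of the fibre). -/
def T3m (w : X → ℝ) (q : X → Y') (g : X → ℝ) (d : ℝ) (S : X) : ℝ :=
  cE w q (fun x => cE w q (fun a => cE w q (fun b => I3 d (g x) (g a) (g b)) S) S) S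

/-- **The mass of the pairs of alternatives of the path `S` with values which are different from each other and from the value of
the path**, given `q`. -/
def T2m (w : X → ℝ) (q : X → Y') (g : X → ℝ) (d : ℝ) (S : X) : ℝ :=
  cE w q (fun a => cE w q (fun b => I3 d (g S) (g a) (g b)) S) S

theorem T3m_nonneg (w : X → ℝ) (q : X → Y') (g : X → ℝ) (d : ℝ) (S : X) : 0 ≤ T3m w q g d S :=
  cE_nonneg w q (fun _ => cE_nonneg w q (fun _ => cE_nonneg w q (fun _ => I3_nonneg _ _ _ _) S) S) S

theorem T2m_nonneg (w : X → ℝ) (q : X → Y') (g : X → ℝ) (d : ℝ) (S : X) : 0 ≤ T2m w q g d S :=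
  cE_nonneg w q (fun _ => cE_nonneg w q (fun _ => I3_nonneg _ _ _ _) S) S

theorem cE_fib7 (w : X → ℝ) (q : X → Y') (f : X → ℝ) {S S' : X} (h : q S' = q S) : cE w q f S' = cE w q f S :=
  cE_meas w q f S' S h

/-- `T3m` is a function of the fibre. -/
theorem T3m_mp (w : X → ℝ) (q : X → Y') (g : X → ℝ) (d : ℝ) : Mp q (T3m w q g d) := fun S S' h => by
  unfold T3m
  rw [cE_fib7 w q _ h]
  refine congrArg (fun f => cE w q f S') (funext fun x => ?_)
  rw [cE_fib7 w q _ h]
  refine congrArg (fun f => cE w q f S') (funext fun a => ?_)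
  exact cE_fib7 w q _ h

theorem cE_cst7 (w : X → ℝ) (q : X → Y') (c : ℝ) (S : X) : cE w q (fun _ => c) S = c := by
  have h : Mp q (fun _ : X => c) := fun _ _ _ => rfl
  rw [cE_of_meas w h]

/-- **For EVERY path of the fibre.** -/
theorem T3m_le (w : X → ℝ) (q : X → Y') (g : X → ℝ) {d : ℝ} (hd : 0 ≤ d) (S : X) :
    T3m w q g d S ≤ 3 * T2m w q g (d / 2) S := by
  have h1 : T3m w q g d S ≤ cE w q (fun x => cE w q (fun a => cE w q (fun b => I3 (d / 2) (g S) (g a) (g b) +
      I3 (d / 2) (g S) (g x) (g b) + I3 (d / 2) (g S) (g x) (g a)) S) S) S :=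
    cE_mono w q (fun x => cE_mono w q (fun a => cE_mono w q (fun b => I3_pigeon hd _ _ _ _) S) S) S
  refine h1.trans (le_of_eq ?_)
  have add3 : ∀ f f' f'' : X → ℝ, cE w q (fun x => f x + f' x + f'' x) S = cE w q f S + cE w q f' S + cE w q f'' S :=
    fun f f' f'' => by
      have e1 := congrFun (cE_add w q (f + f') f'') S
      have e2 := congrFun (cE_add w q f f') S
      rw [Pi.add_apply] at e1 e2
      rw [e2] at e1
      exact e1
  have e1 : ∀ x a, cE w q (fun b => I3 (d / 2) (g S) (g a) (g b) + I3 (d / 2) (g S) (g x) (g b) +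
      I3 (d / 2) (g S) (g x) (g a)) S = cE w q (fun b => I3 (d / 2) (g S) (g a) (g b)) S +
        cE w q (fun b => I3 (d / 2) (g S) (g x) (g b)) S + I3 (d / 2) (g S) (g x) (g a) := fun x a => by
    rw [add3, cE_cst7]
  have e2 : ∀ x, cE w q (fun a => cE w q (fun b => I3 (d / 2) (g S) (g a) (g b) + I3 (d / 2) (g S) (g x) (g b) +
      I3 (d / 2) (g S) (g x) (g a)) S) S = T2m w q g (d / 2) S + cE w q (fun b => I3 (d / 2) (g S) (g x) (g b)) S +
        cE w q (fun a => I3 (d / 2) (g S) (g x) (g a)) S := fun x => by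
    rw [show (fun a => cE w q (fun b => I3 (d / 2) (g S) (g a) (g b) + I3 (d / 2) (g S) (g x) (g b) +
      I3 (d / 2) (g S) (g x) (g a)) S) = fun a => cE w q (fun b => I3 (d / 2) (g S) (g a) (g b)) S +
        cE w q (fun b => I3 (d / 2) (g S) (g x) (g b)) S + I3 (d / 2) (g S) (g x) (g a) from funext fun a => e1 x a,
      add3, cE_cst7]
    rfl
  rw [show (fun x => cE w q (fun a => cE w q (fun b => I3 (d / 2) (g S) (g a) (g b) + I3 (d / 2) (g S) (g x) (g b) +
      I3 (d / 2) (g S) (g x) (g a)) S) S) = fun x => T2m w q g (d / 2) S +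
        cE w q (fun b => I3 (d / 2) (g S) (g x) (g b)) S + cE w q (fun a => I3 (d / 2) (g S) (g x) (g a)) S from funext e2,
    add3, cE_cst7]
  unfold T2m
  ring

/-- A change of the log weights by at most `D`. -/
theorem T3m_tl {w w' : X → ℝ} {D : ℝ} (h : ∀ x, |w' x - w x| ≤ D) (q : X → Y') (g : X → ℝ) (d : ℝ) (S : X) :
    Real.exp (-(6 * D)) * T3m w' q g d S ≤ T3m w q g d S := by
  have e : Real.exp (-(6 * D)) = Real.exp (-(2 * D)) * (Real.exp (-(2 * D)) * Real.exp (-(2 * D))) := by
    rw [← Real.exp_add, ← Real.exp_add]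
    congr 1
    ring
  have hp := Real.exp_pos (-(2 * D))
  unfold T3m
  rw [e, mul_assoc, mul_assoc]
  refine le_trans ?_ (cE_tl7 h q (fun x => cE_nonneg w q (fun a => cE_nonneg w q (fun b => I3_nonneg _ _ _ _) S) S) S)
  refine mul_le_mul_of_nonneg_left ?_ hp.le
  rw [← cE_smul7, ← cE_smul7]
  refine cE_mono w' q (fun x => ?_) S
  rw [← cE_smul7]
  refine le_trans ?_ (cE_tl7 h q (fun a => cE_nonneg w q (fun b => I3_nonneg _ _ _ _) S) S)
  rw [cE_smul7]
  refine mul_le_mul_of_nonneg_left ?_ hp.le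
  rw [← cE_smul7]
  exact cE_mono w' q (fun a => cE_tl7 h q (fun b => I3_nonneg _ _ _ _) S) S

theorem T2m_tl {w w' : X → ℝ} {D : ℝ} (h : ∀ x, |w' x - w x| ≤ D) (q : X → Y') (g : X → ℝ) (d : ℝ) (S : X) :
    Real.exp (-(4 * D)) * T2m w' q g d S ≤ T2m w q g d S := by
  have e : Real.exp (-(4 * D)) = Real.exp (-(2 * D)) * Real.exp (-(2 * D)) := by
    rw [← Real.exp_add]
    congr 1
    ring
  have hp := Real.exp_pos (-(2 * D))
  unfold T2m
  rw [e, mul_assoc]
  refine le_trans ?_ (cE_tl7 h q (fun a => cE_nonneg w q (fun b => I3_nonneg _ _ _ _) S) S)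
  refine mul_le_mul_of_nonneg_left ?_ hp.le
  rw [← cE_smul7]
  exact cE_mono w' q (fun a => cE_tl7 h q (fun b => I3_nonneg _ _ _ _) S) S

end Abs

end

end Pool.W7d29a1.C0.H7
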